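import Pool.Agent.Lib.MP_7f377f_mp.HEnd

/-! Long tori are exponentially close to each other, uniformly in the cutoff. -/

noncomputable section

namespace Pool.Agent.Lib.MP_7f377f_mp.Y6

open MeasureTheory Measure Function Filter Topology Pool.Agent.Lib.MP_2d4879_an Hm RGP Ch
open scoped InnerProductSpace Quaternion ENNReal

set_option linter.unusedSectionVars false

section chain

variable {G : Type} [MeasurableSpace G] {μ : Measure G} [IsProbabilityMeasure μ] {E S : Type}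
  {W : (E → G) → (S → G) → (E → G) → ℝ} (hW : Wt μ W) {F : (Ix E S → G) → ℝ} {a : ℤ} {k N : ℕ}
  {l r C : ℝ} {e : Lp ℝ 2 (PP μ E)}

theorem tor_close (V : Vac (PP μ E) hW.gk l r e) (bF : BM F) (h1 : ∀ w, |F w| ≤ 1)
    (dF : DependsOn F (Win a (a + (k + 1 : ℕ))))
    (hC : ∫ x, ∫ y, pw (PP μ E) (KK μ W) N x y ^ 2 ∂PP μ E ∂PP μ E ≤ C * l ^ (2 * N + 2)) (s : ℕ) :
    |tor μ W a (k + 1 + (2 * N + 1 + s + 1)) F / l ^ (k + 1 + (2 * N + 1 + s + 1)) -
      vac W l e a k F| ≤ C * r ^ s := by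
  have hl := V.pos
  have hr := V.r0
  have e1 : pw (PP μ E) (KK μ W) (2 * N + 1) =
      MP_2d4879_an.cv (PP μ E) (pw (PP μ E) (KK μ W) N) (pw (PP μ E) (KK μ W) N) := by
    rw [show 2 * N + 1 = (N + 1) * 1 + N by ring, ← pw_pw hW.gk N 1]
    rfl
  have := V.tr_close hW.symm (hW.gk_obs bF a k) (a := k) (fun x y => by
    rw [← hW.ker_wt k a]
    refine ker_abs_le μ (bF.mul (hW.bm_wt _ _)) (hW.bm_wt _ _) (fun w => ?_) x y
    rw [abs_mul, abs_of_pos (hW.wt_pos _ _ _)]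
    exact mul_le_of_le_one_left (hW.wt_pos _ _ _).le (h1 w)) N s
  rw [← hW.int_tor bF dF] at this
  have h2 : ∫ x, pw (PP μ E) (KK μ W) (2 * N + 1) x x ∂PP μ E ≤ C * l ^ (2 * N + 2) := by
    refine le_of_eq_of_le ?_ hC
    simp only [e1, MP_2d4879_an.cv, sq, pw_symm hW.gk hW.symm N]
  have h3 := div_le_div_of_nonneg_right (this.trans (mul_le_mul_of_nonneg_left h2 (by positivity)))
    (show 0 ≤ l ^ (k + 1 + (2 * N + 1 + s + 1)) by positivity)
  rw [← abs_of_pos (show 0 < l ^ (k + 1 + (2 * N + 1 + s + 1)) by positivity), ← abs_div,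
    abs_of_pos (show 0 < l ^ (k + 1 + (2 * N + 1 + s + 1)) by positivity)] at h3
  rw [hW.vac_eq bF, tor]
  refine le_of_eq_of_le (congrArg _ ?_) (h3.trans_eq ?_)
  · field_simp
    ring
  · field_simp
    ring

theorem exp_close (V : Vac (PP μ E) hW.gk l r e) (bF : BM F) (h1 : ∀ w, |F w| ≤ 1)
    (dF : DependsOn F (Win a (a + (k + 1 : ℕ))))
    (hC : ∫ x, ∫ y, pw (PP μ E) (KK μ W) N x y ^ 2 ∂PP μ E ∂PP μ E ≤ C * l ^ (2 * N + 2))
    (C0 : 0 ≤ C) {s T : ℕ} (hT : k + 1 + (2 * N + 2) + s ≤ T) :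
    |tor μ W a T F / tor μ W a T (fun _ => 1) - vac W l e a k F| ≤ 2 * C * r ^ s := by
  obtain ⟨s', rfl⟩ : ∃ s', T = k + 1 + (2 * N + 1 + (s + s') + 1) :=
    ⟨T - (k + 1 + (2 * N + 2) + s), by omega⟩
  have a1 := tor_close hW V bF h1 dF hC (s + s')
  have a2 := tor_close hW (a := a) (k := k) V (BM.const 1) (by simp) (fun _ _ _ => rfl) hC (s + s')
  rw [hW.vac_one V] at a2
  generalize k + 1 + (2 * N + 1 + (s + s') + 1) = T at a1 a2
  have i1 := ((hW.bm_wt a T).comp (meas_cyc a T)).integrable (PP μ (Ix E S))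
  have z0 : 0 < tor μ W a T (fun _ => 1) := by
    simp only [tor, one_mul]
    exact int_pos i1 fun w => hW.wt_pos _ _ _
  have z1 : |tor μ W a T F / tor μ W a T (fun _ => 1)| ≤ 1 := by
    rw [abs_div, abs_of_pos z0, div_le_one z0]
    simp only [tor, one_mul]
    refine abs_integral_le_integral_abs.trans (integral_mono
      (((bF.mul (hW.bm_wt a T)).comp (meas_cyc a T)).integrable _).abs i1 fun w => ?_)
    simp only [abs_mul, abs_of_pos (hW.wt_pos _ _ _)]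
    exact mul_le_of_le_one_left (hW.wt_pos _ _ _).le (h1 _)
  have lp : 0 < l ^ T := pow_pos V.pos T
  have e1 : tor μ W a T F / tor μ W a T (fun _ => 1) - vac W l e a k F =
      tor μ W a T F / l ^ T - vac W l e a k F -
        tor μ W a T F / tor μ W a T (fun _ => 1) * (tor μ W a T (fun _ => 1) / l ^ T - 1) := by
    field_simp
    ring
  have a3 : C * r ^ (s + s') ≤ C * r ^ s :=
    mul_le_mul_of_nonneg_left (pow_le_pow_of_le_one V.r0 V.r1 (by omega)) C0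
  rw [e1]
  refine (abs_sub _ _).trans ?_
  rw [abs_mul]
  have := mul_le_mul z1 a2 (abs_nonneg _) zero_le_one
  linarith

end chain

open RG in
/-- expectations of local observables on long tori -/
theorem close [MeasurableSpace SU2] [BorelSpace SU2] (h : Measure SU2) [h.IsHaarMeasure]
    [IsProbabilityMeasure h] {γ : ℝ} (hγ : 0 < γ) : ∃ Δ > (0 : ℝ), ∃ C > (0 : ℝ), ∃ J0 : ℕ,
    ∀ J l, J0 ≤ J → D3.Adm J l → ∀ n : ℕ, n = D3.LL l * D3.nn J → ∀ F : (Link → SU2) → ℝ, Measurable F →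
      (∀ U, |F U| ≤ 1) → ∀ (a : ℤ) (w s T T' : ℕ),
      DependsOn F {e | a ≤ e.1 0 ∧ (e.1 + Pi.single e.2 1 : Fin 3 → ℤ) 0 ≤ a + w} →
      w + 1 + n + s ≤ T → w + 1 + n + s ≤ T' →
      |∫ U, F U ∂wilson h (γ * n) ![T, n, n] - ∫ U, F U ∂wilson h (γ * n) ![T', n, n]| ≤
        C * Real.exp (-(Δ * s / n)) := by
  obtain ⟨Δ, hΔ, C, C0, J0, H⟩ := vac_main mix_main h hγ
  refine ⟨Δ, hΔ, 4 * C, by positivity, J0, fun J l hJ ad n hn F mF F1 a w s T T' dF hT hT' => ?_⟩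
  have p : 0 < D3.LL l * 3 ^ J ^ 2 := mul_pos (D3.LL_pos l) (by positivity)
  have e2 : n = 2 * (D3.LL l * 3 ^ J ^ 2 - 1) + 2 := by
    have : n = 2 * (D3.LL l * 3 ^ J ^ 2) := by rw [hn, D3.nn]; ring
    omega
  have : NeZero n := ⟨by omega⟩
  obtain ⟨L, r, e, V, hr, hC⟩ := H J l hJ ad n _ hn (Nat.sub_add_cancel p)
  have bF : BM fun w => F (lift (n := n) w) := (⟨mF, 1, F1⟩ : BM F).comp meas_lift
  have d : DependsOn (fun w => F (lift (n := n) w)) (Win a (a + (w + 1 : ℕ))) :=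
    (dep_tc dF).mono (Win.mono le_rfl (by omega))
  have a1 := exp_close (wt_WW h (γ * n)) V bF (fun _ => F1 _) d hC C0.le (s := s) (T := T)
    (by omega)
  have a2 := exp_close (wt_WW h (γ * n)) V bF (fun _ => F1 _) d hC C0.le (s := s) (T := T')
    (by omega)
  have a3 : r ^ s ≤ Real.exp (-(Δ * s / n)) := by
    rw [show -(Δ * s / n) = s * -(Δ / n) by ring, Real.exp_nat_mul]
    exact pow_le_pow_left₀ V.r0 hr s
  rw [int_wilson h _ a mF, int_wilson h _ a mF]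
  refine (abs_sub_le _ _ _).trans ((add_le_add a1 ((abs_sub_comm _ _).trans_le a2)).trans ?_)
  nlinarith

end Pool.Agent.Lib.MP_7f377f_mp.Y6
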