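import Pool.Agent.Lib.MP_7f377f_mp.R3Step0

/-! Tori with different sides. -/

noncomputable section

namespace Pool.Agent.Lib.MP_7f377f_mp.RG.D3.An

set_option linter.unusedSectionVars false

/-- the ratios of the sides -/
class Vol where
  m : Fin 3 → ℕ
  pos : ∀ i, 0 < m i

variable [Vol]

/-- the period lattice is `n • pv v` -/
def pv (v : St) : St := fun i => (Vol.m i : ℤ) * v i

/-- the sides of the torus of scale `n` -/
def sd (n : ℕ) : St := fun i => (n : ℤ) * Vol.m i

/-- the volume of the torus of scale one -/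
def vo : ℕ := ∏ i, Vol.m i

theorem vo_pos : 0 < vo := Finset.prod_pos fun i _ => Vol.pos i

theorem one_le_vo : (1 : ℝ) ≤ vo := by exact_mod_cast vo_pos

theorem sd_pos {n : ℕ} (hn : 0 < n) (i : Fin 3) : 0 < sd n i :=
  mul_pos (by exact_mod_cast hn) (by exact_mod_cast Vol.pos i)

theorem le_sd (n : ℕ) (i : Fin 3) : (n : ℤ) ≤ sd n i :=
  le_mul_of_one_le_right (by positivity) (by exact_mod_cast Vol.pos i)

theorem sd_mul (a n : ℕ) (i : Fin 3) : sd (a * n) i = a * sd n i := by
  simp only [sd]; push_cast; ring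

theorem smul_pv (n : ℕ) (v : St) (i : Fin 3) : ((n : ℤ) • pv v) i = sd n i * v i := by
  simp only [sd, pv, Pi.smul_apply, smul_eq_mul]; ring

theorem pv_neg (v : St) : pv (-v) = -pv v := by funext i; simp [pv]

theorem pv_add (v w : St) : pv (v + w) = pv v + pv w := by funext i; simp [pv, mul_add]

theorem pv_zero : pv 0 = 0 := by funext i; simp [pv]

theorem pv_smul (k : ℤ) (v : St) : pv (k • v) = k • pv v := by
  funext i; simp only [pv, Pi.smul_apply, smul_eq_mul]; ring

section
open Finset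
open scoped Pointwise

/-- fundamental domain of the torus of side `n` -/
def cube (n : ℕ) : Finset St := Fintype.piFinset fun i => Ico (0 : ℤ) (sd n i)

def lcube (n : ℕ) : Finset Lk := cube n ×ˢ univ

def Per {α : Type} (n : ℕ) (U : Lk → α) : Prop := ∀ v, sh ((n : ℤ) • pv v) U = U

end

section
open Finset MeasureTheory
open scoped Quaternion ENNReal

/-- periodisation -/
def per {α : Type} (n : ℕ) (W : Lk → α) : Lk → α := fun e => W (fun i => e.1 i % sd n i, e.2)

/-- Wilson action on the torus of side `n` -/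
def wil (n : ℕ) (U : Conf) : ℝ :=
  ∑ x ∈ cube n, ∑ μ, ∑ ν, if μ < ν then 2 * (hol Inv.inv U x μ ν).q.re else 0

/-- one step for a density `f` on the torus of side `LL l * n` -/
def TT (l : ℕ) (a : ℝ) (n : ℕ) (f : Conf → ℝ≥0∞) (W : Conf) : ℝ≥0∞ :=
  ∫⁻ U, f (per (LL l * n) U) * ∏ b ∈ lcube n, hk a (W b * (blk l (per (LL l * n) U) b)⁻¹) ∂PP

open Classical in
/-- one step restricted to small fields -/
def TG (l : ℕ) (a ε : ℝ) (n : ℕ) (f : Conf → ℝ≥0∞) (W : Conf) : ℝ≥0∞ :=
  ∫⁻ U, (if curvG ε (per (LL l * n) U) ∧ noiseG l ε (per (LL l * n) U) W then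
    f (per (LL l * n) U) else 0) *
      ∏ b ∈ lcube n, hk a (W b * (blk l (per (LL l * n) U) b)⁻¹) ∂PP

/-- measurable densities invariant under gauge transformations of period `n` -/
def GI (n : ℕ) (f : Conf → ℝ≥0∞) : Prop :=
  Measurable f ∧ ∀ (u : St → S3) (U : Conf), (∀ x v, u (x + (n : ℤ) • pv v) = u x) →
    f (gauge Inv.inv u U) = f U

/-- density of the field after `i` steps on the torus of side `n` (in units of that level) -/
def rho (l : ℕ → ℕ) (a : ℕ → ℝ) (β : ℝ) : ℕ → ℕ → Conf → ℝ≥0∞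
  | 0, n => fun U => ENNReal.ofReal (Real.exp (β * wil n U))
  | i + 1, n => TT (l i) (a i) n (rho l a β i (LL (l i) * n))

/-- the same density restricted to histories with small fields -/
def rhoG (l : ℕ → ℕ) (a ε : ℕ → ℝ) (β : ℝ) : ℕ → ℕ → Conf → ℝ≥0∞
  | 0, n => fun U => ENNReal.ofReal (Real.exp (β * wil n U))
  | i + 1, n => TG (l i) (a i) (ε i) n (rhoG l a ε β i (LL (l i) * n))

/-- the probability measure on fields of period `n` with density proportional to `f` -/
def lawOf (n : ℕ) (f : Conf → ℝ≥0∞) : Measure Conf :=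
  ((∫⁻ U, f (per n U) ∂PP)⁻¹ • PP.withDensity fun U => f (per n U)).map (per n)

/-- the Wilson measure -/
def wilson (β : ℝ) (n : ℕ) : Measure Conf :=
  lawOf n fun U => ENNReal.ofReal (Real.exp (β * wil n U))

/-- law of the block field multiplied by independent noise -/
def stepM (l : ℕ) (a : ℝ) (n : ℕ) (μ : Measure Conf) : Measure Conf :=
  (μ.prod (Measure.infinitePi fun _ : Lk => haar.withDensity (hk a))).map
    fun p => per n fun b => p.2 b * blk l p.1 b

/-- averaging with blocks of side `LL l` onto level `j` -/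
def av1 (γ : ℝ) (j l : ℕ) : Measure Conf → Measure Conf :=
  stepM l (γ * nn j * LL l ^ 3) (nn j)

/-- law at level `J - k` of the averaged field of the lattice with `LL l * nn J` sites per side -/
def law (γ : ℝ) (J l : ℕ) : ℕ → Measure Conf
  | 0 => av1 γ J l (wilson (γ * (LL l * nn J)) (LL l * nn J))
  | k + 1 => av1 γ (J - (k + 1)) (ll (J - (k + 1))) (law γ J l k)

/-- density of the run after `i` steps, that is at level `J + 1 - i` -/
def rr (γ : ℝ) (J l : ℕ) : ℕ → ℕ → Conf → ℝ≥0∞ := rho (lq J l) (aq γ J l) (bq γ J l 0)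

/-- the same for small fields -/
def rG (γ : ℝ) (a J l : ℕ) : ℕ → ℕ → Conf → ℝ≥0∞ :=
  rhoG (lq J l) (aq γ J l) (ep γ a J l) (bq γ J l 0)

end

section
open Finset MeasureTheory Polynomial
open scoped Quaternion ENNReal

/-- the links of the torus with `n ^ 3` blocks which are not in the trees -/
def fund (l n : ℕ) : Finset Lk :=
  (((cube n ×ˢ box l).image fun p => up l p.1 + p.2) ×ˢ univ).filter fun f => ¬ tree l f

/-- representative in the fundamental domain -/
def rp (l n : ℕ) (x : St) : St := x - up l (yo l x - fun i => yo l x i % sd n i)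

/-- periodic extension, equal to `o` on the trees -/
def ext {α : Type} (l n : ℕ) (o : α) (u : fund l n → α) : Lk → α :=
  fun f => if h : (rp l n f.1, f.2) ∈ fund l n then u ⟨_, h⟩ else o

/-- the effective action produced by a step -/
def actN (D : Dat) (n : ℕ) (W : Conf) : ℝ :=
  ∑ y ∈ cube n, (D.β * cx (mn D.l D.m D.s) (Bx y (cC W)) (Bx y (cC W)) +
    ∑ x ∈ box D.l, D.ψ (Bx x (D.Us (sh y (cC W)))) + D.wt (sh y (cC W)) - D.dt (sh y (cC W))).re

/-- effective action on the torus of side `n` -/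
def act (β : ℝ) (m : BF) (φ : Fld → ℂ) (n : ℕ) (U : Conf) : ℝ :=
  ∑ x ∈ cube n, (β * cx m (Bx x (cC U)) (Bx x (cC U)) + φ (Bx x (cC U))).re

end

section
open Finset

theorem mem_cube {n : ℕ} {x : St} : x ∈ cube n ↔ ∀ i, 0 ≤ x i ∧ x i < sd n i := by simp [cube]
theorem mem_lcube {n : ℕ} {e : Lk} : e ∈ lcube n ↔ e.1 ∈ cube n := by simp [lcube]
theorem card_cube (n : ℕ) : (cube n).card = vo * n ^ 3 := by
  have : ∀ i, (sd n i).toNat = n * Vol.m i := fun i => by
    simp only [sd]; rw [← Nat.cast_mul, Int.toNat_natCast]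
  simp only [cube, Fintype.card_piFinset, Int.card_Ico, sub_zero, this, vo, Fin.prod_univ_three]
  ring
theorem card_lcube (n : ℕ) : (lcube n).card = vo * n ^ 3 * 3 := by simp [lcube, card_cube]

section sh
variable {α : Type}

theorem Per.sh_smul {n : ℕ} {U : Lk → α} (h : Per n U) (y : St) : sh ((n : ℤ) • pv y) U = U :=
  h y

end sh

/-- a sum of a periodic function over the fundamental domain is translation invariant -/
theorem sum_cube_add {M : Type} [AddCommMonoid M] {n : ℕ} {f : St → M}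
    (hf : ∀ x y, f (x + (n : ℤ) • pv y) = f x) (v : St) :
    ∑ x ∈ cube n, f (x + v) = ∑ x ∈ cube n, f x := by
  have key : ∀ (v x : St), x ∈ cube n → (fun i => (x i + v i) % sd n i) ∈ cube n ∧
      (fun i => ((x i + v i) % sd n i + (-v) i) % sd n i) = x := fun v x hx => by
    have := mem_cube.1 hx
    have n0 : ∀ i, (0 : ℤ) < sd n i := fun i => (this i).1.trans_lt (this i).2
    refine ⟨mem_cube.2 fun i => ⟨Int.emod_nonneg _ (n0 i).ne', Int.emod_lt_of_pos _ (n0 i)⟩, ?_⟩
    funext i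
    rw [Int.emod_add_emod, Pi.neg_apply, add_neg_cancel_right,
      Int.emod_eq_of_lt (this i).1 (this i).2]
  refine sum_nbij' (fun x i => (x i + v i) % sd n i) (fun x i => (x i + (-v) i) % sd n i)
    (fun x hx => (key v x hx).1) (fun x hx => (key (-v) x hx).1) (fun x hx => (key v x hx).2)
    (fun x hx => by simpa using (key (-v) x hx).2) fun x _ => ?_
  rw [← hf (fun i => (x i + v i) % sd n i) fun i => (x i + v i) / sd n i]
  congr 1
  funext i
  rw [Pi.add_apply, Pi.add_apply, smul_pv]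
  exact (Int.emod_add_mul_ediv _ _).symm

end

section
open D3.SX
open Finset

theorem per_smul {α : Type} {n : ℕ} {U : Lk → α} (h : Per n U) (v : St) :
    sh ((n : ℤ) • pv v) U = U := h v

theorem per_of_smul {α : Type} {n : ℕ} {U : Lk → α} (h : ∀ v : St, sh ((n : ℤ) • pv v) U = U) :
    Per n U := fun _ => h _

theorem per_sh {α : Type} {n : ℕ} {U : Lk → α} (h : Per n U) (y v : St) :
    sh (y + (n : ℤ) • pv v) U = sh y U := by
  rw [← sh_sh, per_smul h]

theorem per_per {α : Type} (n : ℕ) (U : Lk → α) : Per n (per n U) := fun v => by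
  funext e
  simp only [sh, per, Pi.add_apply, smul_pv, Int.add_mul_emod_self_left]

theorem per_cC {n : ℕ} {W : Conf} (h : Per n W) : Per n (cC W) := fun v => by
  funext e
  exact congrArg (fun U : Conf => cC U e) (h v)

/-- reduction modulo `n` -/
def md (n : ℕ) (x : St) : St := fun i => x i % sd n i

theorem md_mem {n : ℕ} (hn : 0 < n) (x : St) : md n x ∈ cube n :=
  mem_cube.mpr fun i => ⟨Int.emod_nonneg _ (sd_pos hn i).ne', Int.emod_lt_of_pos _ (sd_pos hn i)⟩

theorem md_eq (n : ℕ) (x : St) : x = md n x + (n : ℤ) • pv fun i => x i / sd n i := by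
  funext i
  rw [Pi.add_apply, smul_pv]
  exact (Int.emod_add_mul_ediv _ _).symm

theorem md_of_mem {n : ℕ} {x : St} (hx : x ∈ cube n) : md n x = x := by
  funext i
  exact Int.emod_eq_of_lt (mem_cube.mp hx i).1 (mem_cube.mp hx i).2

theorem md_add_smul (n : ℕ) (x v : St) : md n (x + (n : ℤ) • pv v) = md n x := by
  funext i
  simp only [md, Pi.add_apply, smul_pv, Int.add_mul_emod_self_left]

theorem md_md_add (n : ℕ) (x a : St) : md n (md n x + a) = md n (x + a) := by
  funext i
  simp [md]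

theorem sum_shift {M : Type} [AddCommMonoid M] {n : ℕ} (hn : 0 < n) {f : St → M}
    (hf : ∀ x v, f (x + (n : ℤ) • pv v) = f x) (a : St) :
    ∑ x ∈ cube n, f (x + a) = ∑ x ∈ cube n, f x := by
  refine sum_nbij' (fun x => md n (x + a)) (fun x => md n (x + -a)) (fun x _ => md_mem hn _)
    (fun x _ => md_mem hn _) (fun x hx => ?_) (fun x hx => ?_) (fun x _ => ?_)
  · rw [md_md_add, add_neg_cancel_right, md_of_mem hx]
  · rw [md_md_add, neg_add_cancel_right, md_of_mem hx]
  · conv_lhs => rw [md_eq n (x + a), hf]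

theorem sum_blocks {M : Type} [AddCommMonoid M] (l : ℕ) {n : ℕ} (hn : 0 < n) {f : St → M}
    (hf : ∀ x v, f (x + ((LL l * n : ℕ) : ℤ) • pv v) = f x) :
    ∑ x ∈ cube (LL l * n), f x = ∑ y ∈ cube n, ∑ t ∈ box l, f (t + up l y) := by
  have hL : 0 < LL l * n := Nat.mul_pos (Nat.succ_pos _) hn
  rw [← sum_shift hL hf (fun _ => -(l : ℤ)), ← sum_product']
  symm
  refine sum_nbij' (fun p => p.2 + up l p.1 + fun _ => (l : ℤ))
    (fun x => (yo l (x + fun _ => -(l : ℤ)),
      (x + fun _ => -(l : ℤ)) - up l (yo l (x + fun _ => -(l : ℤ))))) (fun p hp => ?_)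
    (fun x hx => ?_) (fun p hp => ?_) (fun x _ => ?_) (fun p _ => ?_)
  · obtain ⟨h1, h2⟩ := mem_product.mp hp
    refine mem_cube.mpr fun i => ?_
    have h1 := mem_cube.mp h1 i
    have h2 := mem_box.mp h2 i
    simp only [Pi.add_apply, up_apply, sd_mul, LL]
    push_cast
    constructor <;> nlinarith
  · refine mem_product.mpr ⟨mem_cube.mpr fun i => ?_, sub_up_mem _ _⟩
    have h1 := mem_cube.mp hx i
    simp only [yo, Pi.add_apply, neg_add_cancel_right]
    refine ⟨Int.ediv_nonneg h1.1 (LL_pos l).le, Int.ediv_lt_of_lt_mul (LL_pos l) ?_⟩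
    have := h1.2
    rw [sd_mul] at this
    linarith
  · obtain ⟨-, h2⟩ := mem_product.mp hp
    have : (p.2 + up l p.1 + fun _ => (l : ℤ)) + (fun _ => -(l : ℤ)) = p.2 + up l p.1 := by
      funext i; simp
    simp only [this, yo_add_up, yo_box h2, zero_add, add_sub_cancel_right]
  · funext i; simp
  · congr 1
    funext i; simp

theorem mem_fund {l n : ℕ} {f : Lk} : f ∈ fund l n ↔ yo l f.1 ∈ cube n ∧ ¬ tree l f := by
  simp only [fund, mem_filter, mem_product, mem_univ, and_true, mem_image, Prod.exists]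
  refine and_congr_left fun _ => ⟨?_, fun h => ⟨_, _, ⟨h, sub_up_mem l f.1⟩, by simp⟩⟩
  rintro ⟨y, t, ⟨hy, ht⟩, h⟩
  rw [← h, add_comm, yo_add_up, yo_box ht, zero_add]
  exact hy

theorem rp_eq (l n : ℕ) (x : St) : rp l n x = x - up l (yo l x - md n (yo l x)) := rfl

theorem yo_rp (l n : ℕ) (x : St) : yo l (rp l n x) = md n (yo l x) := by
  rw [rp_eq, yo_sub_up, sub_sub_cancel]

theorem rp_spec (l n : ℕ) (x : St) : ∃ v : St, x = rp l n x + up l ((n : ℤ) • pv v) := by
  refine ⟨fun i => yo l x i / sd n i, ?_⟩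
  rw [rp_eq]
  conv_rhs => enter [1, 2, 2, 1]; rw [md_eq n (yo l x)]
  simp

theorem tree_rp (l n : ℕ) (f : Lk) : tree l (rp l n f.1, f.2) ↔ tree l f := by
  obtain ⟨v, hv⟩ := rp_spec l n f.1
  rw [← tree_add_up l (rp l n f.1, f.2) ((n : ℤ) • pv v), ← hv]

theorem rp_mem {l n : ℕ} (hn : 0 < n) {f : Lk} : (rp l n f.1, f.2) ∈ fund l n ↔ ¬ tree l f := by
  rw [mem_fund, tree_rp, yo_rp]
  exact and_iff_right (md_mem hn _)

theorem rp_of_mem {l n : ℕ} {x : St} (h : yo l x ∈ cube n) : rp l n x = x := by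
  rw [rp_eq, md_of_mem h, sub_self, up_zero, sub_zero]

theorem rp_add (l n : ℕ) (x v : St) : rp l n (x + up l ((n : ℤ) • pv v)) = rp l n x := by
  rw [rp_eq, rp_eq, yo_add_up, md_add_smul, add_sub_right_comm (yo l x), up_add]
  abel

theorem ext_per {α : Type} (l n : ℕ) (o : α) (u : fund l n → α) :
    Per (LL l * n) (ext l n o u) := by
  refine per_of_smul fun v => ?_
  funext f
  simp only [sh, ext, ← up_smul, rp_add]

theorem ext_tree {α : Type} {l n : ℕ} (o : α) (u : fund l n → α) {f : Lk} (hf : tree l f) :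
    ext l n o u f = o :=
  dif_neg fun h => (mem_fund.mp h).2 ((tree_rp l n f).mpr hf)

theorem ext_of_mem {α : Type} {l n : ℕ} (o : α) (u : fund l n → α) {f : Lk}
    (hf : (rp l n f.1, f.2) ∈ fund l n) : ext l n o u f = u ⟨_, hf⟩ := dif_pos hf

theorem ext_coe {α : Type} {l n : ℕ} (o : α) (u : fund l n → α) (i : fund l n) :
    ext l n o u i = u i := by
  have h : rp l n i.1.1 = i.1.1 := rp_of_mem (mem_fund.mp i.2).1
  have h' : (rp l n i.1.1, i.1.2) ∈ fund l n := by rw [h]; exact i.2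
  rw [ext_of_mem o u h']
  congr 1
  exact Subtype.ext (Prod.ext h rfl)

theorem measurable_ext {α : Type} [MeasurableSpace α] (l n : ℕ) (o : α) :
    Measurable (ext l n o) := by
  refine measurable_pi_lambda _ fun f => ?_
  unfold ext
  split_ifs
  exacts [measurable_pi_apply _, measurable_const]

theorem sum_fund {M : Type} [AddCommMonoid M] (l n : ℕ) {Φ : Lk → M}
    (hΦ : ∀ f, tree l f → Φ f = 0) :
    ∑ i : fund l n, Φ i = ∑ y ∈ cube n, ∑ f ∈ lbox l, Φ (f.1 + up l y, f.2) := by
  rw [sum_coe_sort (fund l n) Φ, ← sum_product', ← sum_filter_of_ne (p := fun p => ¬ tree l p.2)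
    (s := cube n ×ˢ lbox l) fun p _ h ht => h (hΦ _ ((tree_add_up l p.2 p.1).mpr ht))]
  symm
  refine sum_nbij' (fun p => (p.2.1 + up l p.1, p.2.2))
    (fun f => (yo l f.1, (f.1 - up l (yo l f.1), f.2))) (fun p hp => ?_) (fun f hf => ?_)
    (fun p hp => ?_) (fun f _ => ?_) (fun p _ => rfl)
  · obtain ⟨h1, h2⟩ := mem_filter.mp hp
    obtain ⟨h3, h4⟩ := mem_product.mp h1
    refine mem_fund.mpr ⟨?_, fun h => h2 ((tree_add_up l p.2 p.1).mp h)⟩
    rw [yo_add_up, yo_box (mem_lbox.mp h4), zero_add]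
    exact h3
  · obtain ⟨h1, h2⟩ := mem_fund.mp hf
    refine mem_filter.mpr ⟨mem_product.mpr ⟨h1, mem_lbox.mpr (sub_up_mem _ _)⟩, fun h => h2 ?_⟩
    have := (tree_add_up l _ (yo l f.1)).mpr h
    simpa using this
  · obtain ⟨h1, -⟩ := mem_filter.mp hp
    obtain ⟨-, h4⟩ := mem_product.mp h1
    simp only [yo_add_up, yo_box (mem_lbox.mp h4), zero_add, add_sub_cancel_right]
  · simp

theorem card_fund (l n : ℕ) : Fintype.card (fund l n) = vo * n ^ 3 * cnt l := by
  have h := sum_fund l n (Φ := fun f => if tree l f then 0 else 1) fun f hf => if_pos hf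
  simp only [tree_add_up] at h
  rw [sum_const, card_cube, smul_eq_mul] at h
  rw [cnt, ← h, Fintype.card_eq_sum_ones]
  exact sum_congr rfl fun i _ => (if_neg (mem_fund.mp i.2).2).symm

end

end Pool.Agent.Lib.MP_7f377f_mp.RG.D3.An
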