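import Pool.Agent.Lib.MP_7f377f_mp.R3MeasLaw
import Pool.Agent.Lib.MP_7f377f_mp.A3Defs

/-! Tori with different sides. -/

noncomputable section

namespace Pool.Agent.Lib.MP_7f377f_mp.RG.D3.An

set_option linter.unusedSectionVars false

variable [Vol]

section
open D3.M3
open MeasureTheory Measure Set Ms
open scoped Quaternion ENNReal

section grp
variable {G : Type} [Group G]

end grp

theorem cont_per (n : ℕ) : Continuous fun U : Conf => per n U :=
  continuous_pi fun _ => continuous_apply _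

open M3

theorem meas_ker (l : ℕ) (a : ℝ) (n : ℕ) :
    Measurable fun p : Conf × Conf => ∏ b ∈ lcube n, hk a (p.1 b * (blk l p.2 b)⁻¹) :=
  Finset.measurable_fun_prod _ fun b _ => (meas_hk a).comp (meas_link l b)

/-- the integrand of one step -/
def itg (l : ℕ) (a : ℝ) (n : ℕ) (F : Conf → ℝ≥0∞) (W V : Conf) : ℝ≥0∞ :=
  F V * ∏ b ∈ lcube n, hk a (W b * (blk l V b)⁻¹)

open Classical in
/-- the restricted integrand of one step -/
def itgG (l : ℕ) (a ε : ℝ) (n : ℕ) (F : Conf → ℝ≥0∞) (W V : Conf) : ℝ≥0∞ :=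
  (if curvG ε V ∧ noiseG l ε V W then F V else 0) * ∏ b ∈ lcube n, hk a (W b * (blk l V b)⁻¹)

theorem meas_itg (l : ℕ) (a : ℝ) (n : ℕ) {F : Conf → ℝ≥0∞} (hF : Measurable F) :
    Measurable fun p : Conf × Conf => itg l a n F p.1 p.2 :=
  (hF.comp measurable_snd).mul (meas_ker l a n)

theorem meas_itgG (l : ℕ) (a ε : ℝ) (n : ℕ) {F : Conf → ℝ≥0∞} (hF : Measurable F) :
    Measurable fun p : Conf × Conf => itgG l a ε n F p.1 p.2 :=
  (Measurable.ite (meas_good l ε) (hF.comp measurable_snd) measurable_const).mul (meas_ker l a n)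

theorem TT_eq (l : ℕ) (a : ℝ) (n : ℕ) (f : Conf → ℝ≥0∞) (W : Conf) :
    TT l a n f W = ∫⁻ U, itg l a n f W (per (LL l * n) U) ∂PP := rfl

theorem TG_eq (l : ℕ) (a ε : ℝ) (n : ℕ) (f : Conf → ℝ≥0∞) (W : Conf) :
    TG l a ε n f W = ∫⁻ U, itgG l a ε n f W (per (LL l * n) U) ∂PP := rfl

theorem meas_wil (n : ℕ) : Measurable (wil n) := by
  refine Finset.measurable_fun_sum _ fun x _ => Finset.measurable_fun_sum _ fun μ _ =>
    Finset.measurable_fun_sum _ fun ν _ => ?_
  split_ifs
  · exact (meas_re.comp (cont_hol x μ ν).measurable).const_mul 2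
  · exact measurable_const

end

section
open D3.M3
open MeasureTheory Measure Set Ms
open scoped Quaternion ENNReal

/-- congruent sites -/
def Cg (n : ℕ) (x y : St) : Prop := ∀ i, sd n i ∣ x i - y i

theorem Cg.ex {l n : ℕ} {x y : St} (h : Cg (LL l * n) x y) :
    ∃ k : St, (∀ i, sd n i ∣ k i) ∧ x = y + up l k := by
  choose k hk using h
  refine ⟨fun i => sd n i * k i, fun i => dvd_mul_right _ _, funext fun i => ?_⟩
  have := hk i
  simp only [up, Pi.add_apply, Pi.smul_apply, smul_eq_mul]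
  rw [sd_mul] at this
  linarith

theorem Cg.yo {l n : ℕ} {x y : St} (h : Cg (LL l * n) x y) : Cg n (yo l x) (yo l y) := by
  obtain ⟨k, hk, rfl⟩ := h.ex
  intro i
  simpa [yo_add_up] using hk i

theorem Cg.add {n : ℕ} {x y : St} (h : Cg n x y) (z : St) : Cg n (x + z) (y + z) := fun i => by
  simpa using h i

theorem cg_mod (n : ℕ) (x : St) : Cg n (fun i => x i % sd n i) x := fun _ =>
  Int.dvd_emod_sub_self

theorem Cg.mod {n : ℕ} {x y : St} (h : Cg n x y) :
    (fun i => x i % sd n i) = fun i => y i % sd n i :=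
  funext fun i => Int.emod_eq_emod_iff_emod_sub_eq_zero.2 (Int.emod_eq_zero_of_dvd (h i))

/-- periodic functions on sites -/
def PS {α : Type} (n : ℕ) (u : St → α) : Prop := ∀ x y, Cg n x y → u x = u y

/-- periodic functions on links -/
def PL {α : Type} (n : ℕ) (V : Lk → α) : Prop := ∀ x y μ, Cg n x y → V (x, μ) = V (y, μ)

theorem PL_per {α : Type} (n : ℕ) (U : Lk → α) : PL n (per n U) := fun x y μ h => by
  simp only [per, h.mod]

theorem per_gauge {n : ℕ} {u : St → S3} (hu : PS n u) (U : Conf) :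
    per n (gauge Inv.inv u U) = gauge Inv.inv u (per n U) := by
  funext e
  simp only [per, gauge]
  rw [hu _ _ (cg_mod n e.1), hu _ _ ((cg_mod n e.1).add _)]

theorem PL_gauge {n : ℕ} {u : St → S3} (hu : PS n u) {V : Conf} (hV : PL n V) :
    PL n (gauge Inv.inv u V) := fun x y μ h => by
  simp only [gauge]
  rw [hu _ _ h, hu _ _ (h.add _), hV _ _ _ h]

theorem itg_gauge (l : ℕ) (a : ℝ) (n : ℕ) {F : Conf → ℝ≥0∞} (u : St → S3) (W : Conf) {V : Conf}
    (hF : F (gauge Inv.inv u V) = F V) :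
    itg l a n F (gauge Inv.inv (fun y => u (up l y)) W) (gauge Inv.inv u V) = itg l a n F W V := by
  simp only [itg, link_gauge, hk_conj, hF]

theorem itgG_gauge (l : ℕ) (a ε : ℝ) (n : ℕ) {F : Conf → ℝ≥0∞} (u : St → S3) (W : Conf)
    {V : Conf} (hF : F (gauge Inv.inv u V) = F V) :
    itgG l a ε n F (gauge Inv.inv (fun y => u (up l y)) W) (gauge Inv.inv u V) =
      itgG l a ε n F W V := by
  have h : (curvG ε (gauge Inv.inv u V) ∧
      noiseG l ε (gauge Inv.inv u V) (gauge Inv.inv (fun y => u (up l y)) W)) ↔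
      (curvG ε V ∧ noiseG l ε V W) := by
    simp only [curvG, noiseG, link_gauge, hol_gauge, norm_sub_conj]
  simp only [itgG, link_gauge, hk_conj, hF]
  by_cases h' : curvG ε V ∧ noiseG l ε V W
  · rw [if_pos h', if_pos (h.2 h')]
  · rw [if_neg h', if_neg fun h'' => h' (h.1 h'')]

theorem PS_iff {α : Type} {n : ℕ} {u : St → α} :
    PS n u ↔ ∀ x v, u (x + (n : ℤ) • pv v) = u x := by
  constructor
  · intro h x v
    exact h _ _ fun i => ⟨v i, by simp only [Pi.add_apply, smul_pv, add_sub_cancel_left]⟩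
  · intro h x y hxy
    choose k hk using hxy
    rw [← h y k]
    congr 1
    funext i
    have := hk i
    simp only [Pi.add_apply, smul_pv]
    linarith

theorem GI_inv {n : ℕ} {f : Conf → ℝ≥0∞} (h : GI n f) {u : St → S3} (hu : PS n u) (V : Conf) :
    f (gauge Inv.inv u V) = f V := h.2 u V (PS_iff.1 hu)

open M3

theorem GI.step {l n : ℕ} {f : Conf → ℝ≥0∞} (h : GI (LL l * n) f) (a ε : ℝ) :
    GI n (TT l a n f) ∧ GI n (TG l a ε n f) := by
  have hp : Measurable fun p : Conf × Conf => (p.1, per (LL l * n) p.2) :=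
    measurable_fst.prodMk ((cont_per _).measurable.comp measurable_snd)
  have hq : ∀ W : Conf, Measurable fun U : Conf => (W, per (LL l * n) U) := fun W =>
    measurable_const.prodMk (cont_per _).measurable
  have e : ∀ (u : St → S3) (W : Conf), gauge Inv.inv u W =
      gauge Inv.inv (fun y => (fun x => u (yo l x)) (up l y)) W := fun u W => by
    simp only [yo_up]
  refine ⟨⟨((meas_itg l a n h.1).comp hp).lintegral_prod_right', fun u W hu => ?_⟩,
    ⟨((meas_itgG l a ε n h.1).comp hp).lintegral_prod_right', fun u W hu => ?_⟩⟩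
  all_goals have hv : PS (LL l * n) fun x => u (yo l x) := fun x y h => PS_iff.2 hu _ _ h.yo
  · rw [TT_eq, TT_eq]
    refine ((mp_gauge fun x => u (yo l x)).lintegral_comp
      ((meas_itg l _ n h.1).comp (hq (gauge Inv.inv u W)))).symm.trans
        (lintegral_congr fun U => ?_)
    simp only [Function.comp, per_gauge hv]
    rw [e u W, itg_gauge _ _ _ _ _ (GI_inv h hv _)]
  · rw [TG_eq, TG_eq]
    refine ((mp_gauge fun x => u (yo l x)).lintegral_comp
      ((meas_itgG l _ ε n h.1).comp (hq (gauge Inv.inv u W)))).symm.trans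
        (lintegral_congr fun U => ?_)
    simp only [Function.comp, per_gauge hv]
    rw [e u W, itgG_gauge _ _ _ _ _ _ (GI_inv h hv _)]

theorem GI_wil (β : ℝ) (n : ℕ) : GI n fun U => ENNReal.ofReal (Real.exp (β * wil n U)) := by
  refine ⟨((meas_wil n).const_mul β).exp.ennreal_ofReal, fun u W _ => ?_⟩
  have h : wil n (gauge Inv.inv u W) = wil n W := by simp only [wil, hol_gauge, re_conj]
  simp only [h]

theorem GI_rho (l : ℕ → ℕ) (a ε : ℕ → ℝ) (β : ℝ) (i n : ℕ) :
    GI n (rho l a β i n) ∧ GI n (rhoG l a ε β i n) := by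
  induction i generalizing n with
  | zero => exact ⟨GI_wil β n, GI_wil β n⟩
  | succ i ih => exact ⟨((ih _).1.step (a i) (ε i)).1, ((ih _).2.step (a i) (ε i)).2⟩

theorem TG_le_TT {l n : ℕ} {a ε : ℝ} {f g : Conf → ℝ≥0∞} (h : ∀ U, f U ≤ g U) (W : Conf) :
    TG l a ε n f W ≤ TT l a n g W := by
  refine lintegral_mono fun U => mul_le_mul_left ?_ _
  split_ifs
  · exact h _
  · exact zero_le

theorem rhoG_le (l : ℕ → ℕ) (a ε : ℕ → ℝ) (β : ℝ) (i n : ℕ) (U : Conf) :
    rhoG l a ε β i n U ≤ rho l a β i n U := by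
  induction i generalizing n U with
  | zero => exact le_rfl
  | succ i ih => exact TG_le_TT (ih _) U

end

section
open D3.M3
open MeasureTheory Measure Set Ms
open scoped Quaternion ENNReal

section grp
variable {G : Type} [Group G]

theorem hb_per {l n : ℕ} {V : Lk → G} (hV : PL (LL l * n) V) : PS (LL l * n) (hb l V) := by
  intro x y h
  obtain ⟨k, hk, rfl⟩ := h.ex
  have e1 : y + up l k - up l (yo l (y + up l k)) = y - up l (yo l y) := by
    rw [yo_add_up]
    simp only [up, smul_add, add_sub_add_right_eq_sub]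
  have e2 : sh (up l (yo l (y + up l k))) V = sh (up l (yo l y)) V := by
    funext e
    refine hV _ _ _ fun i => ?_
    obtain ⟨c, hc⟩ := hk i
    refine ⟨c, ?_⟩
    rw [yo_add_up]
    simp only [up, Pi.add_apply, Pi.smul_apply, smul_eq_mul, hc, sd_mul]
    ring
  rw [hb, hb, e1, e2]

end grp

theorem cg_rp (l n : ℕ) (x : St) : Cg (LL l * n) (rp l n x) x := fun i => by
  have h := Int.mul_ediv_add_emod (yo l x i) (sd n i)
  refine ⟨-(yo l x i / sd n i), ?_⟩
  simp only [rp, up, Pi.sub_apply, Pi.smul_apply, smul_eq_mul, sd_mul]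
  linear_combination ((LL l : ℕ) : ℤ) * h

theorem rp_mem3 (l : ℕ) {n : ℕ} (hn : 0 < n) (x : St) :
    rp l n x ∈ (cube n ×ˢ box l).image fun p => up l p.1 + p.2 := by
  refine Finset.mem_image.2 ⟨(fun i => yo l x i % sd n i, x - up l (yo l x)), ?_, ?_⟩
  · simp only [Finset.mem_product, cube, box, Fintype.mem_piFinset, Finset.mem_Ico, Finset.mem_Icc]
    exact ⟨fun i => ⟨Int.emod_nonneg _ (sd_pos hn i).ne', Int.emod_lt_of_pos _ (sd_pos hn i)⟩, rel_box l x⟩
  · simp only [rp, up, smul_sub]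
    abel

theorem eq_ext {α : Type} {l n : ℕ} (hn : 0 < n) {o : α} {V : Lk → α} (hV : PL (LL l * n) V)
    (ht : ∀ f, tree l f → V f = o) : ext l n o (fun f => V f) = V := by
  funext f
  have e : V (rp l n f.1, f.2) = V f := hV _ _ _ (cg_rp l n f.1)
  rw [ext]
  split_ifs with h
  · exact e
  · rw [← e, ht]
    by_contra h'
    exact h (Finset.mem_filter.2 ⟨Finset.mem_product.2 ⟨rp_mem3 l hn _, Finset.mem_univ _⟩, h'⟩)

theorem fund_inj {l n : ℕ} {f g : fund l n} (h : Cg (LL l * n) f.1.1 g.1.1) (h2 : f.1.2 = g.1.2) :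
    f = g := by
  refine Subtype.ext (Prod.ext ?_ h2)
  obtain ⟨p, hp, e1⟩ := Finset.mem_image.1 (Finset.mem_product.1 (Finset.mem_filter.1 f.2).1).1
  obtain ⟨q, hq, e2⟩ := Finset.mem_image.1 (Finset.mem_product.1 (Finset.mem_filter.1 g.2).1).1
  simp only [Finset.mem_product, cube, box, Fintype.mem_piFinset, Finset.mem_Ico,
    Finset.mem_Icc] at hp hq
  have y1 : yo l f.1.1 = p.1 := by rw [← e1, add_comm, yo_add_up, yo_box hp.2, zero_add]
  have y2 : yo l g.1.1 = q.1 := by rw [← e2, add_comm, yo_add_up, yo_box hq.2, zero_add]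
  obtain ⟨k, hk, e3⟩ := h.ex
  rw [e3, yo_add_up, y2] at y1
  have : k = 0 := by
    funext i
    have h1 := congrFun y1 i
    have h3 := hp.1 i
    have h4 := hq.1 i
    rw [Pi.add_apply] at h1
    exact Int.eq_zero_of_abs_lt_dvd (hk i) (abs_lt.2 ⟨by omega, by omega⟩)
  rw [e3, this]
  simp [up]

theorem cont_ext (l n : ℕ) : Continuous fun u : fund l n → S3 => ext l n 1 u := by
  refine continuous_pi fun f => ?_
  unfold ext
  split_ifs
  · exact continuous_apply _
  · exact continuous_const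

theorem tree_gauge (l : ℕ) {n : ℕ} (hn : 0 < n) {F : Conf → ℝ≥0∞} (hF : Measurable F)
    (hi : ∀ u V, PS (LL l * n) u → (∀ y, u (up l y) = 1) → F (gauge Inv.inv u V) = F V) :
    ∫⁻ U, F (per (LL l * n) U) ∂PP =
      ∫⁻ u, F (ext l n 1 u) ∂(Measure.pi fun _ : fund l n => haar) := by
  set j : fund l n → Lk := fun f => (fun i => f.1.1 i % sd (LL l * n) i, f.1.2) with hj
  have key : ∀ {x y : St}, (fun i => x i % sd (LL l * n) i) =
      (fun i => y i % sd (LL l * n) i) → Cg (LL l * n) x y := fun h i =>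
    Int.dvd_of_emod_eq_zero (Int.emod_eq_emod_iff_emod_sub_eq_zero.1 (congrFun h i))
  have inj : Function.Injective j := fun f g h =>
    fund_inj (key (Prod.ext_iff.1 h).1) (Prod.ext_iff.1 h).2
  have hc : ∀ x, Continuous fun U : Conf => hb l (per (LL l * n) U) x := fun x =>
    (cont_hb l x).comp (cont_per _)
  have hm := mp_skew inj (a := fun U f => hb l (per (LL l * n) U) f.1.1)
    (b := fun U f => (hb l (per (LL l * n) U) (f.1.1 + un f.1.2))⁻¹)
    (continuous_pi fun f => hc _).measurable (continuous_pi fun f => (hc _).inv).measurable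
    fun U U' h => by
      have : ∀ x, hb l (per (LL l * n) U) x = hb l (per (LL l * n) U') x := by
        refine hb_congr fun e he => h _ ?_
        rintro ⟨f, hf⟩
        obtain ⟨k, -, hk⟩ := (key (Prod.ext_iff.1 hf).1).ex
        have h2 : f.1.2 = e.2 := (Prod.ext_iff.1 hf).2
        refine (Finset.mem_filter.1 f.2).2 ?_
        rw [show f.1 = (e.1 + up l k, e.2) from Prod.ext hk h2, tree_add_up]
        exact he
      simp only [this, and_self]
  rw [← hm.lintegral_comp (f := fun u => F (ext l n 1 u)) (hF.comp (cont_ext l n).measurable)]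
  refine lintegral_congr fun U => ?_
  have hP := hb_per (l := l) (PL_per (LL l * n) U)
  rw [← hi _ _ hP (hb_up l _), ← eq_ext hn (PL_gauge hP (PL_per _ U)) fun f hf => hb_tree _ hf]
  rfl

open M3 in
/-- reduction of a step to an integral over the links outside the trees -/
theorem GI.tree {l n : ℕ} (hn : 0 < n) {f : Conf → ℝ≥0∞} (h : GI (LL l * n) f) (a ε : ℝ)
    (W : Conf) :
    TT l a n f W = ∫⁻ u, f (ext l n 1 u) * ∏ b ∈ lcube n, hk a (W b * (blk l (ext l n 1 u) b)⁻¹)
        ∂(Measure.pi fun _ : fund l n => haar) ∧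
    open Classical in
    TG l a ε n f W = ∫⁻ u, (if curvG ε (ext l n 1 u) ∧ noiseG l ε (ext l n 1 u) W then
      f (ext l n 1 u) else 0) * ∏ b ∈ lcube n, hk a (W b * (blk l (ext l n 1 u) b)⁻¹)
        ∂(Measure.pi fun _ : fund l n => haar) := by
  have m1 := (meas_itg l a n h.1).comp (measurable_prodMk_left (x := W))
  have m2 := (meas_itgG l a ε n h.1).comp (measurable_prodMk_left (x := W))
  simp only [Function.comp_def] at m1 m2
  constructor
  · rw [TT_eq]
    refine tree_gauge l hn (F := itg l a n f W) m1 fun u V hu h1 => ?_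
    have := itg_gauge l a n u W (GI_inv h hu V)
    rwa [gauge_one h1] at this
  · rw [TG_eq]
    refine tree_gauge l hn (F := itgG l a ε n f W) m2 fun u V hu h1 => ?_
    have := itgG_gauge l a ε n u W (GI_inv h hu V)
    rwa [gauge_one h1] at this

end

section
open D3.M3
open MeasureTheory Measure Set Ms
open scoped Quaternion ENNReal

/-- the map defining a step -/
def sm (l n : ℕ) (p : Conf × Conf) : Conf := per n fun b => p.2 b * blk l p.1 b

theorem meas_sm (l n : ℕ) : Measurable (sm l n) :=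
  (cont_per n).measurable.comp (measurable_pi_lambda _ fun b =>
    ((measurable_pi_apply b).comp measurable_snd).mul
      ((measurable_pi_apply b).comp ((measurable_blk l).comp measurable_fst)))

theorem stepM_eq (l : ℕ) (a : ℝ) (n : ℕ) (μ : Measure Conf) :
    stepM l a n μ = (μ.prod (nz a)).map (sm l n) := rfl

theorem stepM_prob {a : ℝ} (ha : 0 ≤ a) (l n : ℕ) (μ : Measure Conf) [IsProbabilityMeasure μ] :
    IsProbabilityMeasure (stepM l a n μ) := by
  have := prob_nz ha
  rw [stepM_eq]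
  exact isProbabilityMeasure_map (meas_sm l n).aemeasurable

theorem mod_mem {n : ℕ} (hn : 0 < n) (e : Lk) :
    ((fun i => e.1 i % sd n i, e.2) : Lk) ∈ lcube n := by
  simp only [lcube, cube, Finset.mem_product, Fintype.mem_piFinset, Finset.mem_Ico,
    Finset.mem_univ, and_true]
  exact fun i => ⟨Int.emod_nonneg _ (sd_pos hn i).ne', Int.emod_lt_of_pos _ (sd_pos hn i)⟩

theorem per_of_mem {α : Type} {n : ℕ} (W : Lk → α) {b : Lk} (hb : b ∈ lcube n) :
    per n W b = W b := by
  simp only [lcube, cube, Finset.mem_product, Fintype.mem_piFinset, Finset.mem_Ico] at hb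
  have : (fun i => b.1 i % sd n i) = b.1 :=
    funext fun i => Int.emod_eq_of_lt (hb.1 i).1 (hb.1 i).2
  simp only [per, this]

theorem TT_per (l : ℕ) (a : ℝ) (n : ℕ) (f : Conf → ℝ≥0∞) (W : Conf) :
    TT l a n f (per n W) = TT l a n f W := by
  refine lintegral_congr fun U => ?_
  congr 1
  exact Finset.prod_congr rfl fun b hb => by rw [per_of_mem W hb]

/-- the noise as a density -/
theorem lint_noise {a : ℝ} (ha : 0 ≤ a) {n : ℕ} (hn : 0 < n) {G : Conf → ℝ≥0∞}
    (hG : Measurable G) (V : Conf) :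
    ∫⁻ w, G (per n fun b => w b * V b) ∂nz a =
      ∫⁻ W, (∏ b ∈ lcube n, hk a (W b * (V b)⁻¹)) * G (per n W) ∂PP := by
  have := prob_hk ha
  set H : (lcube n → S3) → ℝ≥0∞ := fun u =>
    G fun e => u ⟨_, mod_mem hn e⟩ * V (fun i => e.1 i % sd n i, e.2) with hH
  have mH : Measurable H := hG.comp (measurable_pi_lambda _ fun e =>
    (measurable_pi_apply _).mul measurable_const)
  have mP : Measurable fun u : lcube n → S3 => ∏ b, hk a (u b) :=
    Finset.measurable_fun_prod _ fun b _ => (meas_hk a).comp (measurable_pi_apply b)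
  have mR : Measurable fun W : Conf => (∏ b ∈ lcube n, hk a (W b * (V b)⁻¹)) * G (per n W) :=
    (Finset.measurable_fun_prod _ fun b _ => (meas_hk a).comp
      ((measurable_pi_apply b).mul measurable_const)).mul (hG.comp (cont_per n).measurable)
  calc _ = ∫⁻ w, H ((lcube n).restrict w) ∂nz a := rfl
    _ = ∫⁻ u, H u ∂(Measure.pi fun _ => haar.withDensity (hk a)) := by
        rw [← lintegral_map mH (Finset.measurable_restrict _), nz, infinitePi_map_restrict]
    _ = ∫⁻ u, (∏ b, hk a (u b)) * H u ∂(Measure.pi fun _ => haar) := by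
        rw [pi_dens haar (f := fun _ => hk a) fun _ => meas_hk a,
          lintegral_withDensity_eq_lintegral_mul _ mP mH]
        rfl
    _ = ∫⁻ w, (∏ b, hk a ((lcube n).restrict w b)) * H ((lcube n).restrict w) ∂PP := by
        rw [← infinitePi_map_restrict (μ := fun _ : Lk => haar)]
        exact lintegral_map (mP.mul mH) (Finset.measurable_restrict _)
    _ = _ := by
        rw [← (mp_right V).lintegral_comp mR]
        refine lintegral_congr fun w => ?_
        simp only [mul_inv_cancel_right, Finset.restrict]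
        rw [Finset.prod_coe_sort (lcube n) fun b => hk a (w b)]
        rfl

theorem lint_TT {a : ℝ} (ha : 0 ≤ a) (l : ℕ) {n : ℕ} (hn : 0 < n) {f G : Conf → ℝ≥0∞}
    (hf : Measurable f) (hG : Measurable G) :
    ∫⁻ W, TT l a n f (per n W) * G (per n W) ∂PP =
      ∫⁻ U, f (per (LL l * n) U) * ∫⁻ w, G (sm l n (per (LL l * n) U, w)) ∂nz a ∂PP := by
  have hp : Measurable fun p : Conf × Conf => (p.1, per (LL l * n) p.2) :=
    measurable_fst.prodMk ((cont_per _).measurable.comp measurable_snd)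
  have m1 := (meas_itg l a n hf).comp hp
  have mG : Measurable fun W => G (per n W) := hG.comp (cont_per n).measurable
  calc _ = ∫⁻ W, ∫⁻ U, itg l a n f W (per (LL l * n) U) * G (per n W) ∂PP ∂PP := by
        refine lintegral_congr fun W => ?_
        rw [TT_per, TT_eq]
        exact (lintegral_mul_const _ (m1.comp measurable_prodMk_left)).symm
    _ = ∫⁻ U, ∫⁻ W, itg l a n f W (per (LL l * n) U) * G (per n W) ∂PP ∂PP :=
        lintegral_lintegral_swap (m1.mul (mG.comp measurable_fst)).aemeasurable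
    _ = _ := by
        refine lintegral_congr fun U => ?_
        simp only [itg, mul_assoc, sm]
        rw [lint_noise ha hn hG, lintegral_const_mul]
        exact ((meas_ker l a n).comp measurable_prodMk_right).mul mG

/-- the total mass is preserved -/
theorem mass_TT {a : ℝ} (ha : 0 ≤ a) (l : ℕ) {n : ℕ} (hn : 0 < n) {f : Conf → ℝ≥0∞}
    (hf : Measurable f) :
    ∫⁻ W, TT l a n f (per n W) ∂PP = ∫⁻ U, f (per (LL l * n) U) ∂PP := by
  have := prob_nz ha
  simpa using lint_TT ha l hn hf (G := fun _ => 1) measurable_const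

theorem lint_lawOf (n : ℕ) {f G : Conf → ℝ≥0∞} (hf : Measurable f) (hG : Measurable G) :
    ∫⁻ V, G V ∂lawOf n f =
      (∫⁻ U, f (per n U) ∂PP)⁻¹ * ∫⁻ U, f (per n U) * G (per n U) ∂PP := by
  have hp := (cont_per n).measurable
  rw [lawOf, lintegral_map hG hp, lintegral_smul_measure,
    lintegral_withDensity_eq_lintegral_mul _ (f := fun U => f (per n U)) (hf.comp hp)
      (g := fun U => G (per n U)) (hG.comp hp)]
  rfl

theorem lawOf_apply (n : ℕ) {f : Conf → ℝ≥0∞} (hf : Measurable f) {A : Set Conf}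
    (hA : MeasurableSet A) : lawOf n f A =
      (∫⁻ U, f (per n U) ∂PP)⁻¹ * ∫⁻ U, f (per n U) * A.indicator 1 (per n U) ∂PP := by
  rw [← lint_lawOf n hf (measurable_one.indicator hA), lintegral_indicator_one hA]

theorem lawOf_prob (n : ℕ) {f : Conf → ℝ≥0∞} (hf : Measurable f)
    (h0 : 0 < ∫⁻ U, f (per n U) ∂PP) (h1 : ∫⁻ U, f (per n U) ∂PP < ∞) :
    IsProbabilityMeasure (lawOf n f) := by
  refine ⟨?_⟩
  rw [lawOf_apply n hf MeasurableSet.univ]
  simpa using ENNReal.inv_mul_cancel h0.ne' h1.ne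

/-- a step acts on densities by `TT` -/
theorem stepM_lawOf {a : ℝ} (ha : 0 ≤ a) (l : ℕ) {n : ℕ} (hn : 0 < n) {f : Conf → ℝ≥0∞}
    (hf : GI (LL l * n) f) : stepM l a n (lawOf (LL l * n) f) = lawOf n (TT l a n f) := by
  have := prob_nz ha
  refine Measure.ext fun A hA => ?_
  have hG : Measurable (A.indicator (1 : Conf → ℝ≥0∞)) := measurable_one.indicator hA
  have hs := hG.comp (meas_sm l n)
  rw [lawOf_apply n (hf.step a 0).1.1 hA, lint_TT ha l hn hf.1 hG, mass_TT ha l hn hf.1,
    ← lint_lawOf _ hf.1 (G := fun V => ∫⁻ w, A.indicator 1 (sm l n (V, w)) ∂nz a)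
      hs.lintegral_prod_right', stepM_eq, ← lintegral_indicator_one hA,
    lintegral_map hG (meas_sm l n)]
  exact lintegral_prod _ hs.aemeasurable

theorem mass_wil {β : ℝ} (hβ : 0 ≤ β) (n : ℕ) :
    0 < ∫⁻ U, ENNReal.ofReal (Real.exp (β * wil n (per n U))) ∂PP ∧
      ∫⁻ U, ENNReal.ofReal (Real.exp (β * wil n (per n U))) ∂PP < ∞ := by
  constructor
  · rw [lintegral_pos_iff_support (f := fun U => ENNReal.ofReal (Real.exp (β * wil n (per n U))))
      ((GI_wil β n).1.comp (cont_per n).measurable)]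
    have : Function.support (fun U => ENNReal.ofReal (Real.exp (β * wil n (per n U)))) = univ :=
      eq_univ_of_forall fun U => (ENNReal.ofReal_pos.2 (Real.exp_pos _)).ne'
    rw [this]
    simp
  · refine (lintegral_mono (g := fun _ => ENNReal.ofReal (Real.exp
      (β * ∑ _ ∈ cube n, ∑ _ : Fin 3, ∑ _ : Fin 3, (2 : ℝ)))) fun U => ?_).trans_lt (by simp)
    refine ENNReal.ofReal_le_ofReal (Real.exp_le_exp.2 (mul_le_mul_of_nonneg_left ?_ hβ))
    refine Finset.sum_le_sum fun x _ => Finset.sum_le_sum fun μ _ => Finset.sum_le_sum fun ν _ => ?_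
    split_ifs
    · linarith [re_le_one (hol Inv.inv (per n U) x μ ν)]
    · norm_num

theorem wilson_prob {β : ℝ} (hβ : 0 ≤ β) (n : ℕ) : IsProbabilityMeasure (wilson β n) :=
  lawOf_prob n (GI_wil β n).1 (mass_wil hβ n).1 (mass_wil hβ n).2

theorem GI_rr (γ : ℝ) (J l i n : ℕ) : GI n (rr γ J l i n) := (GI_rho _ _ (fun _ => 0) _ i n).1

open M3

/-- the averaging maps probability measures to probability measures and contracts distances -/
theorem av1_prob {γ : ℝ} (hγ : 0 < γ) (j l : ℕ) (μ : Measure Conf) [IsProbabilityMeasure μ] :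
    IsProbabilityMeasure (av1 γ j l μ) :=
  stepM_prob (by positivity) _ _ μ

/-- the laws have the densities `rr` -/
theorem law_eq {γ : ℝ} (hγ : 0 < γ) (J l k : ℕ) (hk : k ≤ J) :
    law γ J l k = lawOf (nn (J - k)) (rr γ J l (k + 1) (nn (J - k))) ∧
    0 < ∫⁻ U, rr γ J l (k + 1) (nn (J - k)) (per (nn (J - k)) U) ∂PP ∧
    ∫⁻ U, rr γ J l (k + 1) (nn (J - k)) (per (nn (J - k)) U) ∂PP < ∞ := by
  induction k with
  | zero =>
    have ha : 0 ≤ γ * nn J * LL l ^ 3 := by positivity
    have e : rr γ J l (0 + 1) (nn (J - 0)) = TT l (γ * nn J * LL l ^ 3) (nn J) fun U =>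
        ENNReal.ofReal (Real.exp (γ * (LL l * nn J) * wil (LL l * nn J) U)) := rfl
    have hm := mass_wil (β := γ * (LL l * nn J)) (by positivity) (LL l * nn J)
    rw [e, Nat.sub_zero, mass_TT ha l (nn_pos J) (GI_wil _ _).1]
    exact ⟨stepM_lawOf ha l (nn_pos J) (GI_wil _ _), hm⟩
  | succ k ih =>
    obtain ⟨h1, h2⟩ := ih (by omega)
    set j := J - (k + 1) with hj
    have ha : 0 ≤ γ * nn j * LL (ll j) ^ 3 := by positivity
    have e : rr γ J l (k + 1 + 1) (nn j) = TT (ll j) (γ * nn j * LL (ll j) ^ 3) (nn j)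
        (rr γ J l (k + 1) (LL (ll j) * nn j)) := rfl
    rw [show J - k = j + 1 by omega, nn_succ] at h1 h2
    rw [e, mass_TT ha _ (nn_pos j) (GI_rr _ _ _ _ _).1]
    refine ⟨?_, h2⟩
    rw [law, h1]
    exact stepM_lawOf ha _ (nn_pos j) (GI_rr _ _ _ _ _)

theorem law_prob {γ : ℝ} (hγ : 0 < γ) (J l k : ℕ) : IsProbabilityMeasure (law γ J l k) := by
  induction k with
  | zero =>
    have := wilson_prob (β := γ * (LL l * nn J)) (by positivity) (LL l * nn J)
    exact av1_prob hγ _ _ _
  | succ k ih => exact av1_prob hγ _ _ _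

end

end Pool.Agent.Lib.MP_7f377f_mp.RG.D3.An
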