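import Pool.Agent.Lib.MP_7f377f_mp.R3DetF
import Pool.Agent.Lib.MP_7f377f_mp.A3Meas

/-! Tori with different sides. -/

noncomputable section

namespace Pool.Agent.Lib.MP_7f377f_mp.RG.D3.An

set_option linter.unusedSectionVars false

variable [Vol]

section
open D3.Dt
open Finset D3.Pv
open scoped Quaternion

attribute [local irreducible] box lbox cube

variable {l n : ℕ} {V u : Conf} {c s : ℝ} {ξ : Lk → ℍ}

theorem sh_up {α : Type} {U : Lk → α} (h : Per (LL l * n) U) (y v : St) :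
    sh (up l (y + (n : ℤ) • pv v)) U = sh (up l y) U := by
  rw [up_add, SX.up_smul, per_sh h]

theorem TL_per (hV : Per (LL l * n) V) (hξ : Per (LL l * n) ξ) : Per n (TL l V ξ) := fun μ => by
  funext b
  rw [sh_apply, TL_apply, TL_apply, sh_up hV, sh_up hξ]

theorem blk_per (hV : Per (LL l * n) V) : Per n (blk l V) := fun μ => by
  funext b
  simp only [sh_apply, blk, sh_up hV]

/-- the sum of the norms over a period -/
def n1 (n : ℕ) (ξ : Lk → ℍ) : ℝ := ∑ e ∈ lcube n, ‖ξ e‖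

theorem n1_eq (n : ℕ) (ξ : Lk → ℍ) : n1 n ξ = ∑ x ∈ cube n, ∑ μ, ‖ξ (x, μ)‖ := sum_product _ _ _

theorem n1_nonneg (n : ℕ) (ξ : Lk → ℍ) : 0 ≤ n1 n ξ := sum_nonneg fun _ _ => norm_nonneg _

theorem per_app {α : Type} {U : Lk → α} (h : Per n U) (x v : St) (μ : Fin 3) :
    U (x + (n : ℤ) • pv v, μ) = U (x, μ) := congrFun (h.sh_smul v) (x, μ)

theorem TL_one (hn : 0 < n) (h : curvG c V) (h5 : 500 * (LL l : ℝ) ^ 5 * c ≤ 1)
    (hξ : Per (LL l * n) ξ) : n1 n (TL l V ξ) ≤ 2 / (LL l : ℝ) ^ 2 * n1 (LL l * n) ξ := by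
  have c0 := curv_nonneg h
  have h2 := small_c c0 h5
  set S : St → ℝ := fun y => ∑ t ∈ box l, ∑ μ, ‖ξ (t + up l y, μ)‖ with hS
  have hSm : ∀ y, Sm l (S y) (sh (up l y) ξ) := fun y e he =>
    (single_le_sum (f := fun μ => ‖ξ (e.1 + up l y, μ)‖) (fun _ _ => norm_nonneg _)
      (mem_univ e.2)).trans (single_le_sum (f := fun t => ∑ μ, ‖ξ (t + up l y, μ)‖)
        (fun _ _ => sum_nonneg fun _ _ => norm_nonneg _) (mem_lbox.1 he))
  have s1 : ∑ y ∈ cube n, S y = n1 (LL l * n) ξ := by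
    rw [n1_eq, sum_blocks l hn fun x v => by simp only [per_app hξ]]
  have s2 : ∀ μ, ∑ y ∈ cube n, S (y + un μ) = n1 (LL l * n) ξ := fun μ => by
    rw [← s1]
    refine sum_cube_add (fun x v => ?_) _
    simp only [hS, up_add, SX.up_smul, ← add_assoc, per_app hξ]
  have s3 : ∑ y ∈ cube n, ∑ μ, ∑ t ∈ box l, ∑ i ∈ range (LL l),
      ‖sh (up l y) ξ (t + (i : ℤ) • un μ, μ)‖ = LL l * n1 (LL l * n) ξ := by
    have : ∀ μ (i : ℕ), ∑ y ∈ cube n, ∑ t ∈ box l, ‖sh (up l y) ξ (t + (i : ℤ) • un μ, μ)‖ =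
        ∑ x ∈ cube (LL l * n), ‖ξ (x, μ)‖ := fun μ i => by
      rw [← sum_cube_add (f := fun x => ‖ξ (x, μ)‖) (fun x v => by rw [per_app hξ])
        ((i : ℤ) • un μ), sum_blocks l hn fun x v => by rw [add_right_comm, per_app hξ]]
      simp only [sh_apply, add_right_comm _ _ (up l _)]
    rw [sum_comm, n1_eq, sum_comm (s := cube (LL l * n)), mul_sum]
    refine sum_congr rfl fun μ _ => ?_
    simp only [sum_comm (s := box l)]
    rw [sum_comm]
    simp only [this, sum_const, card_range, nsmul_eq_mul]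
  rw [n1_eq]
  refine (sum_le_sum fun y _ => sum_le_sum fun μ _ => T0_bd (curv_sh h (up l y)) h2 (hSm y)
    (b := S (y + un μ)) (by rw [sh_sh, ← up_add, add_comm]; exact hSm _)).trans ?_
  simp only [sum_add_distrib, ← mul_sum, s3]
  rw [sum_comm (s := cube n), sum_comm (s := cube n) (f := fun x μ => S (x + un μ))]
  simp only [s2, s1, sum_const, card_univ, Fintype.card_fin, nsmul_eq_mul]
  have L0 : (0 : ℝ) < LL l := by exact_mod_cast LL_pos l
  have L1 : (1 : ℝ) ≤ LL l := by exact_mod_cast LL_pos l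
  have N0 := n1_nonneg (LL l * n) ξ
  generalize n1 (LL l * n) ξ = N at *
  have : (1 + 24 * (LL l : ℝ) ^ 2 * c) * (((LL l : ℝ) ^ 3)⁻¹ * (LL l * N)) +
      72 * (LL l : ℝ) ^ 3 * c * ((3 : ℕ) * N + (3 : ℕ) * N) =
      (1 + 24 * (LL l : ℝ) ^ 2 * c + 432 * (LL l : ℝ) ^ 5 * c) / (LL l : ℝ) ^ 2 * N := by
    push_cast
    field_simp
    ring
  rw [this]
  have : (LL l : ℝ) ^ 2 * c ≤ (LL l : ℝ) ^ 5 * c := by gcongr; norm_num
  gcongr
  linarith

/-- periodic functions of the sites -/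
def PerS (n : ℕ) (h : St → S3) : Prop := ∀ x v, h (x + (n : ℤ) • pv v) = h x

theorem gg_per (hV : Per (LL l * n) V) (hu : Per (LL l * n) u) : PerS n (gg l V u) :=
  fun x v => by simp only [gg, sh_up hV, sh_up hu]

theorem per_mul (hu : Per n u) (hV : Per n V) : Per n (u * V) := fun μ => by
  funext e
  simp only [sh_apply, Pi.mul_apply, per_app hu, per_app hV]

theorem nu_per (hV : Per (LL l * n) V) (hu : Per (LL l * n) u) : Per n (Dt.nu l V u) := fun μ => by
  funext b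
  simp only [sh_apply, Dt.nu, add_right_comm b.1 _ (un b.2), gg_per hV hu _ _,
    per_app (blk_per hV), per_app (blk_per (per_mul hu hV))]

theorem dn_per {v m : ℕ} (h : Per (nn (v + m)) V) : Per (nn v) (dn v m V) := by
  induction m generalizing v with
  | zero => exact h
  | succ m ih =>
    refine blk_per ?_
    rw [← M3.nn_succ]
    exact ih (by rwa [add_right_comm])

theorem TM_per {v m : ℕ} (hV : Per (nn (v + m)) V) (hξ : Per (nn (v + m)) ξ) :
    Per (nn v) (TM V v m ξ) := by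
  induction m generalizing v with
  | zero => exact hξ
  | succ m ih =>
    rw [← add_assoc, add_right_comm] at hV hξ
    exact TL_per (M3.nn_succ v ▸ dn_per hV) (M3.nn_succ v ▸ ih hV hξ)

theorem TM_one {v m : ℕ} (h : Reg V v m) (hV : Per (nn (v + m)) V) (hξ : Per (nn (v + m)) ξ) :
    n1 (nn v) (TM V v m ξ) ≤ 2 ^ m * ((nn v : ℝ) / nn (v + m)) ^ 2 * n1 (nn (v + m)) ξ := by
  induction m generalizing v with
  | zero => simp [TM, (nn_pos' v).ne']
  | succ m ih =>
    obtain ⟨⟨c, h1, h2⟩, h3⟩ := h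
    rw [← add_assoc, add_right_comm] at hV hξ ⊢
    refine (TL_one (M3.nn_pos v) h1 h2 (M3.nn_succ v ▸ TM_per hV hξ)).trans ?_
    rw [← M3.nn_succ]
    refine (mul_le_mul_of_nonneg_left (ih h3 hV hξ) (by positivity)).trans_eq ?_
    have := nn_pos' (v + 1 + m)
    have := LL_pos' (ll v)
    rw [nn_real v]
    field_simp
    ring

end

section
open D3.Dt
open Finset MeasureTheory ProbabilityTheory D3.Pv M3
open scoped Quaternion ENNReal NNReal RealInnerProductSpace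

attribute [local irreducible] box lbox cube

local instance detA_ms : MeasurableSpace ℍ := borel _
local instance detA_bs : BorelSpace ℍ := ⟨rfl⟩

/-- the periodisation as a linear map -/
def perL (n : ℕ) : (Lk → ℍ) →ₗ[ℝ] (Lk → ℍ) :=
  LinearMap.funLeft ℝ ℍ fun e => (fun i => e.1 i % sd n i, e.2)

theorem per_sum {n : ℕ} (hn : 0 < n) (ξ : Lk → ℍ) :
    per n ξ = ∑ f ∈ lcube n, perL n (Pi.single f (ξ f)) := by
  rw [← map_sum]
  funext e
  show _ = (∑ f ∈ lcube n, Pi.single f (ξ f) : Lk → ℍ) _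
  rw [Finset.sum_apply, sum_eq_single_of_mem _ (mod_mem hn e)
    fun f _ hf => Pi.single_eq_of_ne' hf _, Pi.single_eq_same]
  rfl

theorem hoeff {a : ℝ} (ha : 0 ≤ a) {n : ℕ} (hn : 0 < n) (ψ : (Lk → ℍ) →ₗ[ℝ] ℝ) {A B s t : ℝ}
    (hA : ∀ ξ : Lk → ℍ, (∀ e, ‖ξ e‖ ≤ 1) → ψ ξ ≤ A)
    (hB : ∀ ξ : Lk → ℍ, Per n ξ → ψ ξ ≤ B * n1 n ξ) (B0 : 0 ≤ B) (hs : 0 ≤ s) (ht : 0 ≤ t) :
    (nz a).real {w | t ≤ ψ (per n fun e => trc s (w e))} ≤
      Real.exp (-t ^ 2 / (2 * (A * B * s ^ 2))) := by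
  have := prob_hk ha
  have := prob_nz ha
  have A0 : 0 ≤ A := by simpa using hA 0 (by simp)
  obtain ⟨v, hv⟩ : ∃ v : Lk → ℍ, ∀ f x, ψ (perL n (Pi.single f x)) = ⟪v f, x⟫ :=
    ⟨fun f => (InnerProductSpace.toDual ℝ ℍ).symm (LinearMap.toContinuousLinearMap
      (ψ ∘ₗ perL n ∘ₗ LinearMap.single ℝ (fun _ => ℍ) f)), fun f x => by simp⟩
  have e : ∀ ξ : Lk → ℍ, ψ (per n ξ) = ∑ f ∈ lcube n, ⟪v f, ξ f⟫ := fun ξ => by
    simp only [per_sum hn, map_sum, hv]
  have v1 : ∀ f ∈ lcube n, ‖v f‖ ≤ B := fun f hf => by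
    have h1 := hB (per n (Pi.single f (v f))) (per_per _ _)
    have h2 : n1 n (per n (Pi.single f (v f))) = ‖v f‖ := by
      rw [n1, sum_eq_single_of_mem f hf fun e he h => by
        rw [per_of_mem _ he, Pi.single_eq_of_ne h, norm_zero], per_of_mem _ hf, Pi.single_eq_same]
    rw [h2, show per n (Pi.single f (v f)) = perL n (Pi.single f (v f)) from rfl, hv,
      real_inner_self_eq_norm_sq] at h1
    nlinarith [norm_nonneg (v f)]
  have v2 : ∑ f ∈ lcube n, ‖v f‖ ≤ A := by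
    have := hA (per n fun f => ‖v f‖⁻¹ • v f) fun e => by
      show ‖‖v _‖⁻¹ • v _‖ ≤ 1
      rw [norm_smul, norm_inv, norm_norm]
      exact inv_mul_le_one_of_le₀ le_rfl (norm_nonneg _)
    rw [e] at this
    refine le_of_eq_of_le (sum_congr rfl fun f _ => ?_) this
    rw [real_inner_smul_right, real_inner_self_eq_norm_sq]
    rcases eq_or_ne ‖v f‖ 0 with h | h
    · simp [h]
    · field_simp
  have mY : ∀ f, Measurable fun g => ⟪v f, trc s g⟫ := fun f =>
    (continuous_const.inner continuous_id).measurable.comp (meas_trc s)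
  have hi := iIndepFun_infinitePi (P := fun _ : Lk => haar.withDensity (hk a)) mY
  have hg := HasSubgaussianMGF.sum_of_iIndepFun hi (s := lcube n)
    (c := fun f => (‖‖v f‖ * s - -(‖v f‖ * s)‖₊ / 2) ^ 2) fun f _ =>
      hasSubgaussianMGF_of_mem_Icc_of_integral_eq_zero
        ((mY f).comp (measurable_pi_apply f)).aemeasurable
        (.of_forall fun w => abs_le.1 ((abs_real_inner_le_norm _ _).trans
          (mul_le_mul_of_nonneg_left (norm_trc hs _) (norm_nonneg _)))) (by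
        have := int_odd a (f := fun g => ⟪v f, trc s g⟫) fun g => by rw [trc_inv, inner_neg_right]
        rwa [← Measure.infinitePi_map_eval (fun _ : Lk => haar.withDensity (hk a)) f,
          integral_map (measurable_pi_apply f).aemeasurable (mY f).aestronglyMeasurable] at this)
  have hc : ((∑ f ∈ lcube n, (‖‖v f‖ * s - -(‖v f‖ * s)‖₊ / 2) ^ 2 : ℝ≥0) : ℝ) ≤
      A * B * s ^ 2 := by
    push_cast
    refine (sum_le_sum (g := fun f => ‖v f‖ * (B * s ^ 2)) fun f hf => ?_).trans ?_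
    · rw [Real.norm_of_nonneg (by linarith [mul_nonneg (norm_nonneg (v f)) hs])]
      nlinarith [mul_le_mul_of_nonneg_left (v1 f hf) (mul_nonneg (norm_nonneg (v f)) (sq_nonneg s))]
    · rw [← sum_mul, mul_assoc]
      gcongr
  have hg2 : HasSubgaussianMGF (fun w : Conf => ∑ f ∈ lcube n, ⟪v f, trc s (w f)⟫)
      ⟨A * B * s ^ 2, by positivity⟩ (nz a) := ⟨hg.integrable_exp_mul, fun r =>
    (hg.mgf_le r).trans (by
      refine Real.exp_le_exp.2 ?_
      gcongr
      exact hc)⟩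
  simp only [e]
  exact hg2.measure_ge_le ht

end

section
open D3.Dt
open Finset MeasureTheory D3.Pv M3 Filter
open scoped Quaternion ENNReal

attribute [local irreducible] box lbox cube

theorem close {k i0 : ℕ} {V u : Conf} (hV : Per (nn k) V) (hu : Per (nn k) u) {t e θ : ℕ → ℝ}
    (h0 : ∀ f, ‖(u f).q - 1‖ ≤ t 0) (e0 : e 0 = 0)
    (hT : ∀ v m, v + m = k → i0 ≤ v → Reg V v m → ∀ b, ‖TM V v m (Dt.imF u) b‖ ≤ t m)
    (he : ∀ v m, v + 1 + m = k → i0 ≤ v →
      (45 * LL (ll v) * (t m + e m)) ^ 2 + 2 * LL (ll v) * e m ≤ e (m + 1) ∧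
      100 * LL (ll v) * (t m + e m) ≤ 1 ∧
      500 * (LL (ll v) : ℝ) ^ 5 * (4 * (t m + e m) + θ (v + 1)) ≤ 1)
    (hG : ∀ v m, v + m = k → i0 ≤ v → curvG (θ v) (dn v m (u * V))) (m v : ℕ) (hv : v + m = k)
    (hi : i0 ≤ v) : Reg V v m ∧ ∃ (h : St → S3) (u' : Conf), PerS (nn v) h ∧ Per (nn v) u' ∧
      dn v m (u * V) = gauge Inv.inv h (u' * dn v m V) ∧ (∀ f, ‖(u' f).q - 1‖ ≤ t m + e m) ∧
      ∀ f, ‖Dt.imF u' f - TM V v m (Dt.imF u) f‖ ≤ e m := by
  induction m generalizing v with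
  | zero =>
    obtain rfl : v = k := hv
    refine ⟨trivial, 1, u, fun _ _ => rfl, hu, ?_, by simpa only [e0, add_zero], by simp [TM, e0]⟩
    funext f
    simp [gauge, dn]
  | succ m ih =>
    have hv' : v + 1 + m = k := by omega
    obtain ⟨r, h, u', p1, p2, e1, n1, n2⟩ := ih (v + 1) hv' (by omega)
    obtain ⟨k1, k2, k3⟩ := he v m hv' hi
    have c1 := curv_of_gauge (e1 ▸ hG (v + 1) m hv' (by omega)) n1
    have r' : Reg V v (m + 1) := ⟨⟨_, c1, k3⟩, r⟩
    have pX : Per (LL (ll v) * nn v) (dn (v + 1) m V) := M3.nn_succ v ▸ dn_per (hv' ▸ hV)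
    rw [M3.nn_succ] at p1 p2
    have a1 := nu_fo c1 k3 n1 k2
    have a2 : ∀ b, ‖TL (ll v) (dn (v + 1) m V) (Dt.imF u') b - TM V v (m + 1) (Dt.imF u) b‖ ≤
        2 * LL (ll v) * e m := fun b => by
      have := TL_sup (ξ := Dt.imF u' - TM V (v + 1) m (Dt.imF u)) c1 k3 n2 b
      rwa [map_sub] at this
    refine ⟨r', (fun y => h (up (ll v) y)) * gg (ll v) (dn (v + 1) m V) u',
      Dt.nu (ll v) (dn (v + 1) m V) u', fun x w => ?_, nu_per pX p2, ?_, fun f => ?_, fun f => ?_⟩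
    · simp only [Pi.mul_apply, gg_per pX p2 x w, up_add, SX.up_smul, p1 _ w]
    · rw [dn, e1, blk_gauge, blk_eq, gauge_gauge, dn]
    · have h1 := hT v (m + 1) hv hi r' f
      have h2 := norm_add₃_le (a := (Dt.nu (ll v) (dn (v + 1) m V) u' f).q - 1 -
        TL (ll v) (dn (v + 1) m V) (Dt.imF u') f) (b := TL (ll v) (dn (v + 1) m V) (Dt.imF u') f -
          TM V v (m + 1) (Dt.imF u) f) (c := TM V v (m + 1) (Dt.imF u) f)
      rw [sub_add_sub_cancel, sub_add_cancel] at h2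
      linarith [(a1 f).2, a2 f]
    · have h1 := (norm_im_le _).trans (a1 f).2
      rw [Quaternion.im_sub, Quaternion.im_sub, im_of_re (a1 f).1, Quaternion.im_one,
        sub_zero] at h1
      exact (norm_sub_le_norm_sub_add_norm_sub _ _ _).trans ((add_le_add h1 (a2 f)).trans k1)

end

section
open D3.Dt
open Finset MeasureTheory D3.Pv M3 Filter
open scoped Quaternion ENNReal

attribute [local irreducible] box lbox cube

theorem per_self {α : Type} {n : ℕ} {U : Lk → α} (h : Per n U) : per n U = U := by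
  funext e
  have := per_app h (md n e.1) (fun i => e.1 i / sd n i) e.2
  rw [← md_eq] at this
  exact this.symm

theorem ev_vo : ∀ᶠ k : ℕ in atTop, (vo : ℝ) ≤ nn k := by
  filter_upwards [eventually_ge_atTop vo] with k hk
  have h1 := two_pow_nn 0 k
  rw [zero_add] at h1
  have h2 : (vo : ℝ) ≤ 2 ^ k := by exact_mod_cast hk.trans Nat.lt_two_pow_self.le
  nlinarith [one_le_nn 0, show (0 : ℝ) < 2 ^ k by positivity]

theorem bad_noise {γ : ℝ} (hγ : 0 < γ) : ∀ᶠ k : ℕ in atTop, ∀ a, γ * nn k * LL (ll k) ^ 3 ≤ a →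
    ∀ V, Per (nn k) V → ∃ B : Set Conf, (nz a).real B ≤ 2⁻¹ ^ k ∧ ∀ w ∉ B,
      (∀ f, ‖(per (nn k) w f).q - 1‖ ≤ tq γ k 0) ∧ ∀ v m, v + m = k → Reg V v m → ∀ b,
        ‖TM V v m (Dt.imF (per (nn k) w)) b‖ ≤ tq γ k m := by
  obtain ⟨C, hC⟩ := hk_tail
  filter_upwards [num_p hγ C, ev_vo] with k ⟨h1, h2⟩ hvo a ha V hV
  have a1 : 1 ≤ a := h1.trans ha
  have := prob_hk (zero_le_one.trans a1)
  have := prob_nz (zero_le_one.trans a1)
  have n0 := nn_pos' k
  have n1' := one_le_nn k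
  have L0 := LL_pos' (ll k)
  have l1 : (1 : ℝ) ≤ 3 ^ k := one_le_pow₀ (by norm_num)
  have L1 : (1 : ℝ) ≤ LL (ll k) := by exact_mod_cast LL_pos (ll k)
  obtain ⟨s, s0, hs⟩ : ∃ s : ℝ, 0 < s ∧ s ^ 2 = 3 ^ k / (γ * nn k * LL (ll k) ^ 3) :=
    ⟨√_, Real.sqrt_pos.2 (by positivity), Real.sq_sqrt (by positivity)⟩
  have tq2 : ∀ m, tq γ k m ^ 2 = 3 / γ * (2 ^ m) ^ 2 * nn (k - m) / (nn k * LL (ll k)) ^ 2 :=
    fun m => by rw [tq, div_pow, mul_pow, mul_pow, Real.sq_sqrt (by positivity),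
      Real.sq_sqrt (by positivity)]
  have tq0 : ∀ m, 0 ≤ tq γ k m := fun m => by unfold tq; positivity
  refine ⟨(⋃ f ∈ lcube (nn k), {w | s < ‖(w f).q - 1‖}) ∪ ⋃ m ∈ range (k + 1),
    ⋃ b ∈ lcube (nn (k - m)), ⋃ c ∈ (univ : Finset (Fin 8)), {w | Reg V (k - m) m ∧ tq γ k m / 2 ≤
      crd c (TM V (k - m) m (per (nn k) fun e => trc s (w e)) b)}, ?_, fun w hw => ?_⟩
  · have b1 : ∀ f, (nz a).real {w | s < ‖(w f).q - 1‖} ≤
        8 * |C| * (γ * nn k * LL (ll k) ^ 3) ^ 2 * Real.exp (-(3 ^ k / 2)) := fun f => by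
      have hm : MeasurableSet {g : S3 | s < ‖g.q - 1‖} :=
        measurableSet_lt measurable_const Ms.meas_nsub
      have e : nz a {w | s < ‖(w f).q - 1‖} = ∫⁻ g in {g : S3 | s < ‖g.q - 1‖}, hk a g ∂haar := by
        rw [← withDensity_apply _ hm,
          ← Measure.infinitePi_map_eval (fun _ : Lk => haar.withDensity (hk a)) f,
          Measure.map_apply (measurable_pi_apply f) hm]
        rfl
      refine ENNReal.toReal_le_of_le_ofReal (by positivity) (e ▸ (hC a s a1 s0.le).2.2.2.2.trans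
        (ENNReal.ofReal_le_ofReal ?_))
      have x1 : 3 ^ k ≤ a * s ^ 2 := by
        rw [hs, ← mul_div_assoc, le_div_iff₀ (by positivity), mul_comm a]
        gcongr
      have x2 : a ≤ a * s ^ 2 * (γ * nn k * LL (ll k) ^ 3) := by
        rw [hs, mul_assoc, div_mul_cancel₀ _ (by positivity)]
        nlinarith
      generalize a * s ^ 2 = x at x1 x2
      have x3 : x ^ 2 ≤ 8 * Real.exp (x / 2) := by
        nlinarith [Real.quadratic_le_exp_of_nonneg (show 0 ≤ x / 2 by linarith)]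
      have x4 : Real.exp (x / 2) * Real.exp (-x) ≤ Real.exp (-(3 ^ k / 2)) := by
        rw [← Real.exp_add]
        exact Real.exp_le_exp.2 (by linarith)
      calc _ ≤ |C| * (x * (γ * nn k * LL (ll k) ^ 3)) ^ 2 * Real.exp (-x) := by
            gcongr
            exact le_abs_self C
        _ = |C| * (γ * nn k * LL (ll k) ^ 3) ^ 2 * (x ^ 2 * Real.exp (-x)) := by ring
        _ ≤ |C| * (γ * nn k * LL (ll k) ^ 3) ^ 2 * (8 * Real.exp (x / 2) * Real.exp (-x)) := by
            gcongr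
        _ ≤ _ := by
            rw [mul_assoc 8, mul_assoc 8, mul_assoc 8, mul_left_comm _ 8]
            gcongr
    have b2 : ∀ m ∈ range (k + 1), ∀ b ∈ lcube (nn (k - m)), ∀ c, (nz a).real
        {w | Reg V (k - m) m ∧ tq γ k m / 2 ≤ crd c (TM V (k - m) m
          (per (nn k) fun e => trc s (w e)) b)} ≤ Real.exp (-(3 ^ k / 2)) := fun m hm b hb c => by
      by_cases hr : Reg V (k - m) m
      swap
      · simp only [hr, false_and, Set.ofPred_false, measureReal_empty]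
        positivity
      have hk : k - m + m = k := by have := mem_range.1 hm; omega
      have := hoeff (zero_le_one.trans a1) (M3.nn_pos k) (crd c ∘ₗ LinearMap.proj b ∘ₗ TM V (k - m) m)
        (A := 2 ^ m * (nn k / nn (k - m))) (B := 2 ^ m * ((nn (k - m) : ℝ) / nn k) ^ 2)
        (t := tq γ k m / 2) (fun ξ h => (crd_le _ _).trans (by simpa [hk] using TM_sup hr h b))
        (fun ξ h => (crd_le _ _).trans ((single_le_sum (f := fun e => ‖TM V (k - m) m ξ e‖)
          (fun _ _ => norm_nonneg _) hb).trans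
            (by simpa only [hk, n1] using TM_one hr (hk.symm ▸ hV) (hk.symm ▸ h))))
        (by positivity) s0.le (by linarith [tq0 m])
      simp only [hr, true_and]
      refine this.trans (Real.exp_le_exp.2 ?_)
      have := nn_pos' (k - m)
      rw [neg_div, neg_le_neg_iff, div_pow, tq2, hs, le_div_iff₀ (by positivity), LL_ll_real]
      field_simp
      nlinarith
    refine (measureReal_union_le _ _).trans ((add_le_add
      ((measureReal_biUnion_finset_le _ _).trans (sum_le_card_nsmul _ _ _ fun f _ => b1 f))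
      ((measureReal_biUnion_finset_le _ _).trans (sum_le_card_nsmul _ _
        (vo * (nn k : ℝ) ^ 3 * 3 * (8 * Real.exp (-(3 ^ k / 2)))) fun m hm =>
      (measureReal_biUnion_finset_le _ _).trans ((sum_le_card_nsmul _ _ _ fun b hb =>
      (measureReal_biUnion_finset_le _ _).trans (sum_le_card_nsmul _ _ _ fun c _ =>
        b2 m hm b hb c)).trans ?_)))).trans (le_trans ?_ h2))
    · simp only [card_lcube, card_univ, Fintype.card_fin, nsmul_eq_mul]
      push_cast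
      gcongr
      exact_mod_cast nn_mono (Nat.sub_le k m)
    · simp only [card_lcube, card_range, nsmul_eq_mul, nn_real]
      push_cast
      have k0 : (0 : ℝ) ≤ k := by positivity
      have c1 : vo * (nn k : ℝ) ^ 5 * LL (ll k) ^ 6 * 1 ≤ (LL (ll k) * nn k) ^ 6 * (k + 1) := by
        rw [mul_pow, mul_comm ((LL (ll k) : ℝ) ^ 6), pow_succ' (nn k : ℝ) 5]
        gcongr
        linarith
      have c2 : vo * (nn k : ℝ) ^ 3 * (k + 1) ≤ (LL (ll k) * nn k) ^ 6 * (k + 1) := by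
        gcongr
        refine le_trans (b := (nn k : ℝ) ^ 4) ?_ ((pow_le_pow_right₀ n1' (by norm_num)).trans
          (pow_le_pow_left₀ n0.le (by nlinarith) 6))
        rw [pow_succ' (nn k : ℝ) 3]
        gcongr
      have c3 := Real.exp_pos (-(3 ^ k / 2))
      nlinarith [mul_le_mul_of_nonneg_left c1
        (show 0 ≤ 24 * |C| * γ ^ 2 * Real.exp (-(3 ^ k / 2)) by positivity),
        mul_le_mul_of_nonneg_left c2 c3.le]
  · simp only [Set.mem_union, Set.mem_iUnion, not_or, not_exists, Set.mem_ofPred_eq, not_lt,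
      not_and, not_le] at hw
    have g1 : ∀ f, ‖(per (nn k) w f).q - 1‖ ≤ s := fun f => hw.1 _ (mod_mem (M3.nn_pos k) f)
    have g2 : (per (nn k) fun e => trc s (w e)) = Dt.imF (per (nn k) w) :=
      funext fun f => if_pos (g1 f)
    refine ⟨fun f => (g1 f).trans (abs_le_of_sq_le_sq' ?_ (tq0 0)).2, fun v m hv hr b => ?_⟩
    · rw [tq2, hs, Nat.sub_zero, div_le_div_iff₀ (by positivity) (by positivity)]
      have : (3 : ℝ) ^ k ≤ 3 * LL (ll k) := by rw [LL_ll_real]; nlinarith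
      field_simp
      linarith
    · obtain rfl : v = k - m := by omega
      have := norm_le_crd fun c => (hw.2 m (mem_range.2 (by omega)) _
        (mod_mem (M3.nn_pos _) b) c (mem_univ c) hr).le
      have p : Per (nn (k - m)) (TM V (k - m) m (Dt.imF (per (nn k) w))) :=
        TM_per (hv.symm ▸ hV) (hv.symm ▸ g2 ▸ per_per _ _)
      rw [g2] at this
      rw [← per_self p]
      exact this.trans_eq (by ring)

theorem hyb {γ : ℝ} (hγ : 0 < γ) : ∀ᶠ k : ℕ in atTop, ∀ (ε : ℕ → ℝ) (i0 : ℕ), i0 ≤ k →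
    (∀ v, 0 ≤ ε v) →
    (∀ v ≥ i0, 500 * (LL (ll v) : ℝ) ^ 5 * (ε (v + 1) + 8 / √(nn (v + 1))) ≤ 1) →
    ∀ a, γ * nn k * LL (ll k) ^ 3 ≤ a → ∀ V, Per (nn k) V → ∃ B : Set Conf,
      (nz a).real B ≤ 2⁻¹ ^ k ∧ ∀ w ∉ B, Good ε i0 k k (per (nn k) w * V) →
        Good ε i0 k (k + 1) V ∧ ∃ (h : St → S3) (u : Conf), PerS (nn i0) h ∧
          dn i0 (k - i0) (per (nn k) w * V) = gauge Inv.inv h (u * dn i0 (k - i0) V) ∧
          ∀ f, ‖(u f).q - 1‖ ≤ 2⁻¹ ^ k / √(nn i0) := by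
  filter_upwards [bad_noise hγ, num_d hγ, num_e hγ] with k h1 h2 h3 ε i0 hi ε0 hε a ha V hV
  obtain ⟨B, b1, b2⟩ := h1 a ha V hV
  refine ⟨B, b1, fun w hw hG => ?_⟩
  have e1 : ∀ v, 4 * (2⁻¹ ^ k / √(nn v)) + th ε k v = th ε (k + 1) v := fun v => by
    simp only [th]
    ring
  have key := close hV (per_per _ w) (b2 w hw).1 (e := eq' γ k) (by simp [eq'])
    (fun v m hv _ => (b2 w hw).2 v m hv) (fun v m hv hi => by
      have k1 := h2 (v + 1) m hv
      have k2 := hε v hi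
      have k3 : (0 : ℝ) < √(nn (v + 1)) := Real.sqrt_pos.2 (nn_pos' _)
      have k4 : (2⁻¹ : ℝ) ^ k ≤ 1 := pow_le_one₀ (by norm_num) (by norm_num)
      have k5 : (2⁻¹ : ℝ) ^ (v + 1) ≤ 1 := pow_le_one₀ (by norm_num) (by norm_num)
      have k6 : th ε (k + 1) (v + 1) ≤ ε (v + 1) + 8 / √(nn (v + 1)) := by
        unfold th
        gcongr
        linarith [show (0 : ℝ) < 2⁻¹ ^ (k + 1) by positivity]
      have L1 : (1 : ℝ) ≤ LL (ll v) := by exact_mod_cast LL_pos (ll v)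
      refine ⟨h3 v m hv, le_trans ?_ k2, le_trans ?_ k2⟩
      · have := le_self_pow₀ L1 (show 5 ≠ 0 by norm_num)
        have k7 : 2⁻¹ ^ k / √(nn (v + 1) : ℝ) ≤ ε (v + 1) + 8 / √(nn (v + 1)) :=
          le_add_of_nonneg_of_le (ε0 _) (by gcongr; linarith)
        refine (mul_le_mul_of_nonneg_left (k1.trans k7) (by positivity)).trans ?_
        have := ε0 (v + 1)
        gcongr
        norm_num
      · exact mul_le_mul_of_nonneg_left (by linarith [e1 (v + 1)]) (by positivity)) hG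
  refine ⟨fun v m hv hi => ?_, ?_⟩
  · obtain ⟨-, h, u, -, -, k1, k2, -⟩ := key m v hv hi
    exact e1 v ▸ curv_of_gauge (k1 ▸ hG v m hv hi) fun f => (k2 f).trans (h2 v m hv)
  · obtain ⟨-, h, u, k0, -, k1, k2, -⟩ := key (k - i0) i0 (by omega) le_rfl
    exact ⟨h, u, k0, k1, fun f => (k2 f).trans (h2 i0 _ (by omega))⟩

end

end Pool.Agent.Lib.MP_7f377f_mp.RG.D3.An
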