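import Pool.Agent.Lib.MP_7f377f_mp.R3DetI
import Pool.Agent.Lib.MP_7f377f_mp.A3DetA

/-! Tori with different sides. -/

noncomputable section

namespace Pool.Agent.Lib.MP_7f377f_mp.RG.D3.An

set_option linter.unusedSectionVars false

variable [Vol]

section
open D3.En
open MeasureTheory Filter
open scoped ENNReal Topology

/-- comparison of two runs -/
def Pair : Prop := ∃ a0 : ℕ, ∀ a ≥ a0, ∀ γ > 0, ∀ η > 0, ∃ j0 : ℕ, ∀ j ≥ j0, ∃ J0 : ℕ,
  ∀ J l J' l', J0 ≤ J → J0 ≤ J' → Adm J l → Adm J' l' → ∃ t t' : ℝ, 0 < t ∧ 0 < t' ∧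
    1 - η ≤ t * t' ∧ ∀ U, Per (nn j) U →
      ENNReal.ofReal t * rG γ a J l (J + 1 - j) (nn j) U ≤ rr γ J' l' (J' + 1 - j) (nn j) U ∧
      ENNReal.ofReal t' * rG γ a J' l' (J' + 1 - j) (nn j) U ≤ rr γ J l (J + 1 - j) (nn j) U

open Classical in
/-- large fields are improbable -/
def Bad : Prop := ∃ a0 : ℕ, ∀ a ≥ a0, ∀ γ > 0, ∀ η > 0, ∃ j0 : ℕ, ∀ j ≥ j0, ∀ J l, j ≤ J →
  Adm J l → ENNReal.ofReal (1 - η) * ∫⁻ U, rr γ J l (J + 1 - j) (nn j) (per (nn j) U) ∂PP ≤
    ∫⁻ U, (if curvG (ep γ a J l (J + 1 - j)) (per (nn j) U) then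
      rG γ a J l (J + 1 - j) (nn j) (per (nn j) U) else 0) ∂PP

theorem meas_per (n : ℕ) : Measurable (per n : Conf → Conf) :=
  measurable_pi_lambda _ fun _ => measurable_pi_apply _

theorem law_lev {γ : ℝ} (hγ : 0 < γ) {J j : ℕ} (l : ℕ) (h : j ≤ J) :
    law γ J l (J - j) = lawOf (nn j) (rr γ J l (J + 1 - j) (nn j)) ∧
    ∫⁻ U, rr γ J l (J + 1 - j) (nn j) (per (nn j) U) ∂PP ≠ 0 ∧
    ∫⁻ U, rr γ J l (J + 1 - j) (nn j) (per (nn j) U) ∂PP ≠ ∞ := by
  have := law_eq hγ J l (J - j) (by omega)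
  rw [show J - (J - j) = j by omega, show J - j + 1 = J + 1 - j by omega] at this
  exact ⟨this.1, this.2.1.ne', this.2.2.ne⟩

theorem cauchy (hp : Pair) (hb : Bad) {γ : ℝ} (hγ : 0 < γ) {η : ℝ} (hη : 0 < η) :
    ∃ j0, ∀ j ≥ j0, ∃ J0, ∀ J l J' l', J0 ≤ J → J0 ≤ J' → Adm J l → Adm J' l' →
      CE.Le (law γ J l (J - j)) (law γ J' l' (J' - j)) (ENNReal.ofReal η) := by
  obtain ⟨a1, h1⟩ := hp
  obtain ⟨a2, h2⟩ := hb
  have h3 : 0 < η / 3 := by positivity
  obtain ⟨j1, h1⟩ := h1 (a1 + a2) (by omega) γ hγ _ h3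
  obtain ⟨j2, h2⟩ := h2 (a1 + a2) (by omega) γ hγ _ h3
  refine ⟨j1 + j2, fun j hj => ?_⟩
  obtain ⟨J0, h1⟩ := h1 j (by omega)
  refine ⟨J0 + j, fun J l J' l' hJ hJ' hl hl' => ?_⟩
  obtain ⟨t, t', ht, ht', htt, h1⟩ := h1 J l J' l' (by omega) (by omega) hl hl'
  obtain ⟨e, z, f⟩ := law_lev hγ l (show j ≤ J by omega)
  obtain ⟨e', z', f'⟩ := law_lev hγ l' (show j ≤ J' by omega)
  rw [e, e', show η = η / 3 + η / 3 + η / 3 by ring]
  exact (CE.end_le PP ht.le ht'.le h3.le h3.le h3.le ((GI_rho ..).2.1.comp (meas_per _))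
    ((GI_rho ..).2.1.comp (meas_per _)) (fun _ => rhoG_le ..) (fun U => (h1 _ (per_per _ U)).1)
    (fun U => (h1 _ (per_per _ U)).2) (fun _ => rhoG_le ..)
    ((h2 j (by omega) J' l' (by omega) hl').trans (lintegral_mono fun U => by split_ifs <;> simp [rG]))
    ((h2 j (by omega) J l (by omega) hl).trans (lintegral_mono fun U => by split_ifs <;> simp [rG]))
    z' f' z f htt).map (meas_per _)

end

section
open D3.Dt
open Finset MeasureTheory D3.Pv M3 Filter
open scoped Quaternion ENNReal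

attribute [local irreducible] box lbox cube

section run
variable (γ : ℝ) (a J l : ℕ)

open Classical in
/-- density of small field histories -/
def ro (i : ℕ) (U : Conf) : ℝ≥0∞ := if curvG (ep γ a J l i) U then rG γ a J l i (sz J l i) U else 0

/-- the partition function -/
def ZZ : ℝ≥0∞ := ∫⁻ U, rr γ J l 0 (sz J l 0) (per (sz J l 0) U) ∂PP

/-- normalised integral over small field histories -/
def EE (i : ℕ) (φ : Conf → ℝ≥0∞) : ℝ≥0∞ :=
  (ZZ γ J l)⁻¹ * ∫⁻ U, ro γ a J l i (per (sz J l i) U) * φ (per (sz J l i) U) ∂PP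

variable {γ a J l}

theorem meas_ro (i : ℕ) : Measurable (ro γ a J l i) :=
  Measurable.ite (M3.meas_curv _) (GI_rho ..).2.1 measurable_const

theorem ro_le (i : ℕ) (U : Conf) : ro γ a J l i U ≤ rr γ J l i (sz J l i) U := by
  unfold ro
  split_ifs
  exacts [rhoG_le .., zero_le]

theorem mass_rr (hγ : 0 < γ) {i : ℕ} (hi : i ≤ J + 1) :
    ∫⁻ U, rr γ J l i (sz J l i) (per (sz J l i) U) ∂PP = ZZ γ J l := by
  induction i with
  | zero => rfl
  | succ i ih =>
    rw [← ih (by omega), sz_one, sz_succ (by omega)]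
    exact mass_TT (a := aq γ J l i) (by unfold aq; positivity) _ (M3.nn_pos _) (GI_rr ..).1

theorem ZZ_pos (hγ : 0 < γ) : ZZ γ J l ≠ 0 ∧ ZZ γ J l ≠ ∞ :=
  have := mass_wil (β := γ * (LL l * nn J)) (by positivity) (LL l * nn J)
  ⟨this.1.ne', this.2.ne⟩

theorem EE_mono {i : ℕ} {φ ψ : Conf → ℝ≥0∞}
    (h : ∀ U, Per (sz J l i) U → curvG (ep γ a J l i) U → φ U ≤ ψ U) :
    EE γ a J l i φ ≤ EE γ a J l i ψ := by
  refine mul_le_mul_right (lintegral_mono fun U => ?_) _
  unfold ro
  split_ifs with h1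
  · exact mul_le_mul_right (h _ (per_per _ _) h1) _
  · simp

theorem EE_add (hγ : 0 < γ) {i : ℕ} (hi : i ≤ J + 1) (φ : Conf → ℝ≥0∞) (c : ℝ≥0∞) :
    EE γ a J l i (fun U => φ U + c) ≤ EE γ a J l i φ + c := by
  have m : Measurable fun U => ro γ a J l i (per (sz J l i) U) :=
    (meas_ro i).comp (cont_per (sz J l i)).measurable
  simp only [EE, mul_add]
  rw [lintegral_add_right _ (m.mul_const c), mul_add, lintegral_mul_const c m, ← mul_assoc]
  refine add_le_add le_rfl (mul_le_of_le_one_left zero_le ?_)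
  rw [← ENNReal.inv_mul_cancel (ZZ_pos (J := J) (l := l) hγ).1 (ZZ_pos hγ).2]
  exact mul_le_mul_right ((lintegral_mono fun U => ro_le i _).trans_eq (mass_rr hγ hi)) _

theorem EE_step (hγ : 0 < γ) {i : ℕ} (hi : i ≤ J) {φ : Conf → ℝ≥0∞} (hφ : Measurable φ) :
    EE γ a J l (i + 1) φ ≤ EE γ a J l i fun U =>
      ∫⁻ w, φ (sm (lq J l i) (nn (J - i)) (U, w)) ∂nz (aq γ J l i) := by
  refine mul_le_mul_right ?_ _
  have := lint_TT (a := aq γ J l i) (by unfold aq; positivity) (lq J l i) (M3.nn_pos (J - i))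
    (meas_ro (γ := γ) (a := a) (J := J) (l := l) i) hφ
  rw [← sz_succ hi] at this
  rw [← this, sz_one]
  refine lintegral_mono fun W => mul_le_mul_left ?_ _
  refine le_trans (b := rG γ a J l (i + 1) (nn (J - i)) (per (nn (J - i)) W)) ?_
    (lintegral_mono fun U => mul_le_mul_left ?_ _)
  · rw [ro, sz_one]
    split_ifs
    exacts [le_rfl, zero_le]
  · rw [ro, sz_succ hi]
    split_ifs with h1 h2
    exacts [le_rfl, (h2 h1.1).elim, zero_le, le_rfl]

theorem lint_law (hγ : 0 < γ) {k : ℕ} (hk : k ≤ J) {φ : Conf → ℝ≥0∞} (hφ : Measurable φ) :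
    ∫⁻ W, φ W ∂law γ J l (J - k) = (ZZ γ J l)⁻¹ * ∫⁻ U, rr γ J l (J + 1 - k) (sz J l (J + 1 - k))
      (per (sz J l (J + 1 - k)) U) * φ (per (sz J l (J + 1 - k)) U) ∂PP := by
  have e : sz J l (J + 1 - k) = nn k := by
    rw [show J + 1 - k = J - k + 1 by omega, sz_one, show J - (J - k) = k by omega]
  rw [← mass_rr hγ (show J + 1 - k ≤ J + 1 by omega), e, (law_lev hγ l hk).1,
    lint_lawOf _ (GI_rr ..).1 hφ]

theorem law_le (hγ : 0 < γ) {k : ℕ} (hk : k ≤ J) {φ : Conf → ℝ≥0∞} (hφ : Measurable φ)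
    (h1 : ∀ W, φ W ≤ 1) (S : Set Conf) :
    ∫⁻ W, φ W ∂law γ J l (J - k) + EE γ a J l (J + 1 - k) (S.indicator 1) ≤
      EE γ a J l (J + 1 - k) (S.indicator φ) + 1 := by
  have hp := (cont_per (sz J l (J + 1 - k))).measurable
  have m : Measurable fun U => rr γ J l (J + 1 - k) (sz J l (J + 1 - k))
    (per (sz J l (J + 1 - k)) U) := (GI_rr ..).1.comp hp
  have m2 : Measurable fun U => φ (per (sz J l (J + 1 - k)) U) := hφ.comp hp
  rw [lint_law hγ hk hφ, ← ENNReal.inv_mul_cancel (ZZ_pos (J := J) (l := l) hγ).1 (ZZ_pos hγ).2,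
    EE, EE, ← mul_add, ← mul_add]
  refine mul_le_mul_right ?_ _
  rw [← mass_rr hγ (show J + 1 - k ≤ J + 1 by omega), ← lintegral_add_left (m.fun_mul m2),
    ← lintegral_add_right _ m]
  refine lintegral_mono fun U => ?_
  obtain ⟨d, hd⟩ := exists_add_of_le (ro_le (γ := γ) (a := a) (J := J) (l := l) (J + 1 - k)
    (per (sz J l (J + 1 - k)) U))
  by_cases h : per (sz J l (J + 1 - k)) U ∈ S
  · rw [hd, Set.indicator_of_mem h, Set.indicator_of_mem h, Pi.one_apply, mul_one, add_mul,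
      add_assoc, add_comm (d * _)]
    gcongr
    exact mul_le_of_le_one_right zero_le (h1 _)
  · rw [Set.indicator_of_notMem h, Set.indicator_of_notMem h, mul_zero, add_zero, zero_add]
    exact mul_le_of_le_one_right zero_le (h1 _)

end run

theorem dcore (hb : Bad) : ∃ a : ℕ, ∀ γ > 0, ∀ η > 0, ∀ᶠ i0 : ℕ in atTop, ∀ k0 ≥ i0, ∀ J l,
    k0 ≤ J → Adm J l → ∀ (G : ℕ → Conf → ℝ≥0∞) (H : FH → ℝ≥0∞), (∀ k, Measurable (G k)) →
    (∀ k X, G k X ≤ 1) → (∀ k ≥ k0, ∀ (h : St → S3) (u X : Conf), PerS (nn i0) h →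
      (∀ f, ‖(u f).q - 1‖ ≤ 2⁻¹ ^ k / √(nn i0)) → G k (gauge Inv.inv h (u * X)) ≤ G (k + 1) X) →
    (∀ X, Per (nn i0) X → curvG (eps γ a i0 + 8 / √(nn i0)) X → G (J + 1) X ≤ H (qF X)) →
    (Measurable fun U => H (dnH i0 (J - i0) (blkH l (qF U)))) →
    ∫⁻ W, G k0 (dn i0 (k0 - i0) W) ∂law γ J l (J - k0) ≤
      ∫⁻ U, H (dnH i0 (J - i0) (blkH l (qF U))) ∂wilson (γ * (LL l * nn J)) (LL l * nn J) +
        ENNReal.ofReal η := by
  obtain ⟨a, hb⟩ := hb
  refine ⟨a, fun γ hγ η hη => ?_⟩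
  obtain ⟨j0, hb⟩ := hb a le_rfl γ hγ (η / 2) (by positivity)
  have t2 := (tendsto_pow_atTop_nhds_zero_of_lt_one (r := (2⁻¹ : ℝ)) (by norm_num)
    (by norm_num)).eventually (ge_mem_nhds (show 0 < η / 10 by positivity))
  filter_upwards [eventually_forall_ge_atTop.2 (hyb hγ), eventually_forall_ge_atTop.2
    (num_eps hγ a), eventually_ge_atTop j0, t2] with i0 hy hn hj h2 k0 hk0 J l hJ hl G H mG G1 hG
    hH mH
  have hε : ∀ v ≥ i0, 500 * (LL (ll v) : ℝ) ^ 5 * (eps γ a (v + 1) + 8 / √(nn (v + 1))) ≤ 1 :=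
    fun v hv => le_trans (by
      have : 0 ≤ eps γ a (v + 1) := by unfold eps; positivity
      have h1 : (1 : ℝ) ≤ LL (ll (v + 1)) := by exact_mod_cast LL_pos _
      gcongr ?_ * _
      exact mul_le_mul_of_nonneg_left ((pow_le_pow_left₀ (by positivity) (LL_mono v.le_succ) 5).trans
        (pow_le_pow_right₀ h1 (by norm_num))) (by norm_num)) (hn (v + 1) (by omega))
  have main : ∀ (k1 : ℕ) (G : ℕ → Conf → ℝ≥0∞), i0 ≤ k1 → (∀ k, Measurable (G k)) →
      (∀ k X, G k X ≤ 1) → (∀ k ≥ k1, ∀ (h : St → S3) (u X : Conf), PerS (nn i0) h →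
      (∀ f, ‖(u f).q - 1‖ ≤ 2⁻¹ ^ k / √(nn i0)) → G k (gauge Inv.inv h (u * X)) ≤ G (k + 1) X) →
      (∀ k, k1 ≤ k → k ≤ J → EE γ a J l (J + 1 - k)
        ({W | Good (eps γ a) i0 k k W}.indicator fun W => G k (dn i0 (k - i0) W)) ≤
        EE γ a J l (J - k) (fun U => {V | Good (eps γ a) i0 k (k + 1) V}.indicator
          (fun V => G (k + 1) (dn i0 (k - i0) V)) (blk (lq J l (J - k)) U)) +
          ENNReal.ofReal (2⁻¹ ^ k)) ∧
      ∀ d k, k1 ≤ k → k + d ≤ J → EE γ a J l (J + 1 - k)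
        ({W | Good (eps γ a) i0 k k W}.indicator fun W => G k (dn i0 (k - i0) W)) ≤
        EE γ a J l (J + 1 - (k + d)) ({W | Good (eps γ a) i0 (k + d) (k + d) W}.indicator
          fun W => G (k + d) (dn i0 (k + d - i0) W)) + ENNReal.ofReal (2 * 2⁻¹ ^ k) := by
    intro k1 G hk1 mG G1 hG
    refine (and_iff_left_of_imp fun s1 => ?_).2 fun k h1 h2 => ?_
    · intro d
      induction d with
      | zero => exact fun k _ _ => le_self_add
      | succ d ih =>
        intro k h1 h2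
        have := ih (k + 1) (by omega) (by omega)
        rw [show k + 1 + d = k + (d + 1) by ring, show J + 1 - (k + 1) = J - k by omega] at this
        refine (s1 k h1 (by omega)).trans ((add_le_add ((EE_mono fun U _ hU => ?_).trans this)
          le_rfl).trans_eq ?_)
        · rw [lq, if_neg (by omega), show J - (J - k) = k by omega]
          refine Set.indicator_apply_le' (fun h => ?_) fun _ => zero_le
          rw [Set.indicator_of_mem, show k + 1 - i0 = k - i0 + 1 by omega, dn_succ,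
            show i0 + (k - i0) = k by omega]
          intro v m hv hi
          cases m with
          | zero =>
            rw [show J - k = J + 1 - (k + 1) by omega, ep_eq (by omega)] at hU
            obtain rfl : v = k + 1 := hv
            simpa [th, dn] using hU
          | succ m =>
            rw [dn_succ, show v + m = k by omega]
            exact h v m (by omega) hi
        · rw [add_assoc, ← ENNReal.ofReal_add (by positivity) (by positivity)]
          congr 2
          ring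
    · rw [show J + 1 - k = J - k + 1 by omega]
      refine (EE_step hγ (by omega) (((mG k).comp (meas_dn _ _)).indicator
        (meas_Good ..))).trans ((EE_mono fun U hU _ => ?_).trans (EE_add hγ (by omega) _ _))
      rw [sz_succ (by omega)] at hU
      have pV := blk_per hU
      rw [show J - (J - k) = k by omega] at pV ⊢
      have ha : γ * nn k * LL (ll k) ^ 3 ≤ aq γ J l (J - k) := by
        rw [aq, show J - (J - k) = k by omega, lq]
        split_ifs with h
        · obtain rfl : k = J := by omega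
          gcongr
          exact hl.1
        · rw [show J - (J - k) = k by omega]
      have := prob_nz (le_trans (by positivity) ha)
      obtain ⟨B, b1, b2⟩ := hy k (by omega) (eps γ a) i0 (by omega)
        (fun v => by unfold eps; positivity) hε _ ha _ pV
      refine (lintegral_mono (g := fun w => {V | Good (eps γ a) i0 k (k + 1) V}.indicator
        (fun V => G (k + 1) (dn i0 (k - i0) V)) (blk (lq J l (J - k)) U) + B.indicator 1 w)
        fun w => ?_).trans ?_
      · have e : sm (lq J l (J - k)) (nn k) (U, w) = per (nn k) w * blk (lq J l (J - k)) U := by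
          rw [← per_self pV]
          rfl
        beta_reduce
        rw [e]
        refine Set.indicator_apply_le' (fun h => ?_) fun _ => zero_le
        by_cases hw : w ∈ B
        · rw [Set.indicator_of_mem hw]
          exact (G1 _ _).trans le_add_self
        · obtain ⟨g1, g, u, p, e1, n⟩ := b2 w hw h
          rw [Set.indicator_of_mem (show _ ∈ {V | Good (eps γ a) i0 k (k + 1) V} from g1),
            Function.comp, e1]
          exact (hG k h1 g u _ p n).trans le_self_add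
      · rw [lintegral_add_left measurable_const, lintegral_const, measure_univ, mul_one]
        refine add_le_add le_rfl ((lintegral_indicator_one_le B).trans ?_)
        exact (ENNReal.le_ofReal_iff_toReal_le (measure_ne_top _ _) (by positivity)).2 b1
  obtain ⟨m1, m2⟩ := main k0 G hk0 mG G1 hG
  have x1 := (main i0 (fun _ _ => 1) le_rfl (fun _ => measurable_const) (fun _ _ => le_rfl)
    fun _ _ _ _ _ _ _ => le_rfl).2 (k0 - i0) i0 le_rfl (by omega)
  rw [show i0 + (k0 - i0) = k0 by omega] at x1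
  have x0 : ENNReal.ofReal (1 - η / 2) ≤ EE γ a J l (J + 1 - i0)
      ({W | Good (eps γ a) i0 i0 i0 W}.indicator fun _ => 1) := by
    refine le_trans ?_ (EE_mono (φ := fun _ => 1) fun U _ hU => ?_)
    · have e : sz J l (J + 1 - i0) = nn i0 := by
        rw [show J + 1 - i0 = J - i0 + 1 by omega, sz_one, show J - (J - i0) = i0 by omega]
      have := hb i0 hj J l (by omega) hl
      rw [← e, mass_rr hγ (by omega)] at this
      rw [EE, ← ENNReal.div_eq_inv_mul, ENNReal.le_div_iff_mul_le (.inl (ZZ_pos hγ).1)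
        (.inl (ZZ_pos hγ).2)]
      simpa only [mul_one, ro] using this
    · rw [Set.indicator_of_mem]
      intro v m hv hi
      obtain rfl : m = 0 := by omega
      obtain rfl : v = i0 := hv
      rw [ep_eq (by omega)] at hU
      simpa [th, dn] using hU
  have y1 := m2 (J - k0) k0 le_rfl (by omega)
  rw [show k0 + (J - k0) = J by omega] at y1
  have y2 := m1 J hJ le_rfl
  have y3 : EE γ a J l (J - J) (fun U => {V | Good (eps γ a) i0 J (J + 1) V}.indicator
      (fun V => G (J + 1) (dn i0 (J - i0) V)) (blk (lq J l (J - J)) U)) ≤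
      ∫⁻ U, H (dnH i0 (J - i0) (blkH l (qF U))) ∂wilson (γ * (LL l * nn J)) (LL l * nn J) := by
    rw [Nat.sub_self, wilson, lint_lawOf _ (GI_wil ..).1 mH]
    refine (EE_mono (ψ := fun U => H (dnH i0 (J - i0) (blkH l (qF U)))) fun U pU hU => ?_).trans
      (mul_le_mul_right (lintegral_mono fun U => mul_le_mul_left (ro_le 0 _) _) _)
    refine Set.indicator_apply_le' (fun h => ?_) fun _ => zero_le
    have c0 := curv_nonneg hU
    have e : blkH l (qF U) = qF (blk l U) := blkH_q hU (le_trans (by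
      have h1 : (LL (ll J) : ℝ) ≤ LL l := by exact_mod_cast hl.1
      have h2 : (LL l : ℝ) ≤ LL (ll J) ^ 3 := by exact_mod_cast hl.2
      have h3 := nn_pos' J
      have h4 := LL_pos' (ll J)
      have h5 := LL_mono J.le_succ
      have h6 : ep γ a J l 0 ≤ eps γ a (J + 1) + 8 / √(nn (J + 1)) :=
        le_add_of_le_of_nonneg (by
          simp only [ep, eps, bq, if_true, Nat.sub_zero, nn_real]
          gcongr) (by positivity)
      gcongr ?_ * ?_
      refine mul_le_mul_of_nonneg_left ((pow_le_pow_left₀ (by positivity) h2 2).trans ?_)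
        (by norm_num)
      rw [← pow_mul]
      gcongr) (hn (J + 1) (by omega)))
    rw [e, Good.dnH (V := blk l U) h hε (J - i0) i0 (by omega) le_rfl]
    exact hH _ (dn_per ((show J = i0 + (J - i0) by omega) ▸ blk_per pU)) fun x μ ν =>
      (h i0 (J - i0) (by omega) le_rfl x μ ν).trans (th_le ..)
  have z := law_le (a := a) (l := l) hγ hJ ((mG k0).comp (meas_dn i0 (k0 - i0))) (fun _ => G1 _ _)
    {W | Good (eps γ a) i0 k0 k0 W}
  have p1 : (2⁻¹ : ℝ) ^ k0 ≤ 2⁻¹ ^ i0 := pow_le_pow_of_le_one (by norm_num) (by norm_num) hk0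
  have p2 : (2⁻¹ : ℝ) ^ J ≤ 2⁻¹ ^ i0 := pow_le_pow_of_le_one (by norm_num) (by norm_num) (by omega)
  refine (ENNReal.add_le_add_iff_right (a := ENNReal.ofReal (1 - η / 2)) ENNReal.ofReal_ne_top).1
    ((add_le_add le_rfl (x0.trans x1)).trans ?_)
  rw [← add_assoc]
  refine (add_le_add (z.trans (add_le_add (y1.trans (add_le_add (y2.trans (add_le_add y3 le_rfl))
    le_rfl)) le_rfl)) le_rfl).trans ?_
  simp only [add_assoc]
  refine add_le_add le_rfl ?_
  rw [← ENNReal.ofReal_one, ← ENNReal.ofReal_add (by positivity) (by positivity),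
    ← ENNReal.ofReal_add (by positivity) (by positivity),
    ← ENNReal.ofReal_add (by positivity) (by positivity)]
  exact le_trans (ENNReal.ofReal_le_ofReal (by linarith)) ENNReal.ofReal_add_le

end

section
open D3.Dt
open MeasureTheory D3.Pv M3 Filter Fi
open scoped Quaternion ENNReal

/-- the Wilson measure of a run -/
def ww (γ : ℝ) (J l : ℕ) : Measure Conf := wilson (γ * (LL l * nn J)) (LL l * nn J)

theorem ww_prob {γ : ℝ} (hγ : 0 < γ) (J l : ℕ) : IsProbabilityMeasure (ww γ J l) :=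
  wilson_prob (by positivity) _

theorem approx (hb : Bad) {γ : ℝ} (hγ : 0 < γ) {η : ℝ} (hη : 0 < η) : ∀ᶠ i : ℕ in atTop,
    ∀ G : FH → ℝ, Continuous G → (∀ X, 0 ≤ G X) → (∀ X, G X ≤ 1) →
      (∀ h X, PerS (nn i) h → G (gH h X) = G X) → ∀ᶠ k : ℕ in atTop, ∀ J l, k ≤ J → Adm J l →
        ∫ W, G (qF (dn i (k - i) W)) ∂law γ J l (J - k) ≤ ∫ U, G (XX J l i U) ∂ww γ J l + η := by
  obtain ⟨a, h⟩ := dcore hb
  filter_upwards [h γ hγ (η / 2) (by positivity)] with i h G c G0 G1 gi
  have cq := c.comp cont_qF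
  filter_upwards [unif cq (half_pos hη), eventually_ge_atTop i] with k hu hk J l hJ hl
  have := ww_prob hγ J l
  have mH : Measurable fun U => ENNReal.ofReal (G (XX J l i U)) :=
    (c.comp (cont_XX J l i)).measurable.ennreal_ofReal
  have := h k hk J l hJ hl (fun k' => Gs (G ∘ qF) (2 * (2⁻¹ ^ k - 2⁻¹ ^ k')))
    (fun X => ENNReal.ofReal (G X) + ENNReal.ofReal (η / 2)) (fun _ => meas_Gs cq _)
    (fun _ _ => iSup₂_le fun Y _ => ENNReal.ofReal_le_one.2 (G1 _))
    (fun k' _ g u X p n => iSup₂_le fun Y hY => le_iSup₂_of_le (gauge Inv.inv g⁻¹ Y) (fun e => by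
      have h1 := hY e
      have h2 := n e
      have h3 : (2⁻¹ : ℝ) ^ k' / √(nn i) ≤ 2⁻¹ ^ k' :=
        div_le_self (by positivity) (Real.one_le_sqrt.2 (one_le_nn i))
      rw [← gauge_near g⁻¹, gauge_gauge, inv_mul_cancel] at h1
      have h4 := norm_sub_le_norm_sub_add_norm_sub (X e).q ((u * X) e).q
        (gauge Inv.inv g⁻¹ Y e).q
      rw [norm_sub_rev (X e).q ((u * X) e).q, S3.norm_sub _ (X e), Pi.mul_apply,
        mul_inv_cancel_right] at h4
      simp only [gauge, Pi.one_apply, one_mul, inv_one, mul_one, Pi.mul_apply] at h1 h4 ⊢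
      rw [pow_succ]
      linarith) (by
      rw [Function.comp, Function.comp, ← gH_q, gi _ _ fun x v => congrArg Inv.inv (p x v)]))
    (fun X _ _ => iSup₂_le fun Y hY => by
      rw [← ENNReal.ofReal_add (G0 _) (by positivity)]
      exact ENNReal.ofReal_le_ofReal (hu (X, Y) fun e => (hY e).trans (by
        linarith [show (0 : ℝ) < 2⁻¹ ^ (J + 1) by positivity])))
    (mH.add_const _)
  refine toReal_le (cq.measurable.comp (meas_dn _ _)) (c.comp (cont_XX J l i)).measurable
    (fun _ => G0 _) (fun _ => G0 _) (fun _ => G1 _) hη.le ((lintegral_mono fun W =>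
      le_iSup₂_of_le (dn i (k - i) W) (fun e => by simp) le_rfl).trans (this.trans_eq ?_))
  rw [lintegral_add_right _ measurable_const, lintegral_const, add_assoc]
  erw [measure_univ (μ := ww γ J l)]
  rw [mul_one, ← ENNReal.ofReal_add (by positivity) (by positivity), add_halves]
  rfl

theorem dnH_gH (m v : ℕ) {h : St → S3} (p : PerS (nn (v + m)) h) :
    ∃ g, PerS (nn v) g ∧ ∀ X, dnH v m (gH h X) = gH g (dnH v m X) := by
  induction m generalizing v with
  | zero => exact ⟨h, p, fun _ => rfl⟩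
  | succ m ih =>
    obtain ⟨g, p, e⟩ := ih (v + 1) (by rwa [add_right_comm])
    refine ⟨fun y => g (up (ll v) y), fun x w => ?_, fun X => by rw [dnH, e, blkH_gH, dnH]⟩
    rw [M3.nn_succ] at p
    simp only [up_add, SX.up_smul, p _ w]

theorem perS_yo {l n : ℕ} {g : St → S3} (p : PerS n g) : PerS (LL l * n) fun x => g (yo l x) :=
  fun x w => by simp only [← SX.up_smul, yo_add_up, p _ w]

theorem gH_dnH (m v : ℕ) {g : St → S3} (p : PerS (nn v) g) :
    ∃ h, PerS (nn (v + m)) h ∧ ∀ X, dnH v m (gH h X) = gH g (dnH v m X) := by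
  induction m generalizing v g with
  | zero => exact ⟨g, p, fun _ => rfl⟩
  | succ m ih =>
    obtain ⟨h, p, e⟩ := ih (v + 1) (M3.nn_succ v ▸ perS_yo (l := ll v) p)
    exact ⟨h, by rwa [add_right_comm] at p, fun X => by simp only [dnH, e, blkH_gH, yo_up]⟩

theorem wil_gauge (β : ℝ) {n : ℕ} {h : St → S3} (p : PerS n h) :
    (wilson β n).map (gauge Inv.inv h) = wilson β n := by
  refine Measure.ext_of_lintegral _ fun φ hφ => ?_
  have m := (mp_gauge h).measurable
  rw [lintegral_map hφ m, wilson, lint_lawOf _ (GI_wil β n).1 hφ,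
    lint_lawOf _ (G := fun V => φ (gauge Inv.inv h V)) (GI_wil β n).1 (hφ.comp m),
    ← (mp_gauge h).lintegral_comp (f := fun U => ENNReal.ofReal (Real.exp (β * wil n (per n U))) *
      φ (per n U)) (((GI_wil β n).1.mul hφ).comp (cont_per n).measurable)]
  simp only [per_gauge (PS_iff.2 p), (GI_wil β n).2 h _ p]

theorem ww_gauge {γ : ℝ} {J l j : ℕ} (hJ : j ≤ J) {g : St → S3} (p : PerS (nn j) g) {F : FH → ℝ}
    (c : Continuous F) :
    ∫ U, F (gH g (XX J l j U)) ∂ww γ J l = ∫ U, F (XX J l j U) ∂ww γ J l := by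
  obtain ⟨h, p, e⟩ := gH_dnH (J - j) j p
  rw [show j + (J - j) = J by omega] at p
  have m : Continuous fun U => F (XX J l j U) := c.comp (cont_XX J l j)
  have := integral_map (μ := ww γ J l) (mp_gauge fun x => h (yo l x)).measurable.aemeasurable
    m.aestronglyMeasurable
  rw [show (ww γ J l).map _ = ww γ J l from wil_gauge _ (perS_yo p)] at this
  rw [this]
  simp only [XX, ← gH_q, blkH_gH, yo_up, e]

theorem avg_gauge {j : ℕ} {F : FH → ℝ} (c : Continuous F) (F0 : ∀ X, 0 ≤ F X) (F1 : ∀ X, F X ≤ 1) :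
    ∃ G : FH → ℝ, Continuous G ∧ (∀ X, 0 ≤ G X) ∧ (∀ X, G X ≤ 1) ∧
      (∀ h X, PerS (nn j) h → G (gH h X) = G X) ∧ ∀ γ > 0, ∀ J l, j ≤ J →
        ∫ U, G (XX J l j U) ∂ww γ J l = ∫ U, F (XX J l j U) ∂ww γ J l := by
  set P : Measure (cube (nn j) → S3) := Measure.pi fun _ => haar
  obtain ⟨r, hr⟩ : ∃ r : St → cube (nn j), ∀ x, (r x).1 = md (nn j) x :=
    ⟨fun x => ⟨_, md_mem (M3.nn_pos j) x⟩, fun _ => rfl⟩
  obtain ⟨Φ, hΦ⟩ : ∃ Φ : FH → (cube (nn j) → S3) → ℝ,
    ∀ X g, Φ X g = F (gH (fun x => g (r x)) X) := ⟨_, fun _ _ => rfl⟩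
  have cg : Continuous fun p : FH × (cube (nn j) → S3) => Φ p.1 p.2 := by
    have k : ∀ y, Continuous fun p : FH × (cube (nn j) → S3) => (p.2 y).q := fun y =>
      Ms.cont_q.comp ((continuous_apply y).comp continuous_snd)
    simp only [hΦ]
    exact c.comp (continuous_pi fun e =>
      ((k _).mul ((continuous_apply e).comp continuous_fst)).mul (k _).star)
  have nb : ∀ X g, ‖Φ X g‖ ≤ 1 := fun X g => by rw [hΦ, Real.norm_of_nonneg (F0 _)]; exact F1 _
  refine ⟨fun X => ∫ g, Φ X g ∂P, continuous_of_dominated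
    (fun X => (cg.comp (Continuous.prodMk_right X)).aestronglyMeasurable)
    (fun X => .of_forall (nb X)) (integrable_const 1)
    (.of_forall fun g => cg.comp (Continuous.prodMk_left g)),
    fun X => integral_nonneg fun g => hΦ X g ▸ F0 _, fun X => ?_, fun h X p => ?_,
    fun γ hγ J l hJ => ?_⟩
  · simpa using (le_abs_self _).trans (norm_integral_le_of_norm_le_const (μ := P)
      (.of_forall (nb X)))
  · beta_reduce
    rw [← integral_mul_right_eq_self (Φ X) fun x => h x.1]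
    refine integral_congr_ae (.of_forall fun g => ?_)
    simp only [hΦ, gH_gH, Pi.mul_apply]
    congr 2
    funext x
    rw [Pi.mul_apply, hr]
    conv_lhs => rw [md_eq (nn j) x, p]
    rw [← md_eq]
  · have := ww_prob hγ J l
    have c2 : Continuous (Function.uncurry fun U g => Φ (XX J l j U) g) :=
      cg.comp ((cont_XX J l j).prodMap continuous_id)
    rw [integral_integral_swap (.of_bound c2.aestronglyMeasurable 1 (.of_forall fun _ => nb _ _))]
    refine (integral_congr_ae (g := fun _ => ∫ U, F (XX J l j U) ∂ww γ J l)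
      (.of_forall fun g => ?_)).trans (by simp)
    simp only [hΦ]
    refine ww_gauge hJ (fun x v => ?_) c
    congr 1
    exact Subtype.ext (by rw [hr, hr, md_add_smul])

theorem cauchy1 (hp : Pair) (hb : Bad) {γ : ℝ} (hγ : 0 < γ) (j : ℕ) {F : FH → ℝ}
    (c : Continuous F) (F0 : ∀ X, 0 ≤ F X) (F1 : ∀ X, F X ≤ 1) {η : ℝ} (hη : 0 < η) :
    ∃ J0, ∀ J l J' l', J0 ≤ J → J0 ≤ J' → Adm J l → Adm J' l' →
      ∫ U, F (XX J l j U) ∂ww γ J l ≤ ∫ U, F (XX J' l' j U) ∂ww γ J' l' + η := by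
  have h3 : 0 < η / 3 := by positivity
  obtain ⟨G, c, G0, G1, gi, e⟩ := avg_gauge (j := j) c F0 F1
  obtain ⟨j0, h0⟩ := cauchy hp hb hγ h3
  obtain ⟨i, h1, hi⟩ := ((approx hb hγ h3).and (eventually_ge_atTop j)).exists
  have c' := c.comp (cont_dnH j (i - j))
  have gi' : ∀ h X, PerS (nn i) h → G (dnH j (i - j) (gH h X)) = G (dnH j (i - j) X) :=
    fun h X p => by
      obtain ⟨g, p, e⟩ := dnH_gH (i - j) j (h := h) (by rwa [show j + (i - j) = i by omega])
      rw [e, gi _ _ p]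
  obtain ⟨k, ⟨k1, k2⟩, k3, k4⟩ := (((h1 _ c' (fun _ => G0 _) (fun _ => G1 _) gi').and
    (h1 (fun X => 1 - G (dnH j (i - j) X)) (continuous_const.sub c') (fun _ => sub_nonneg.2 (G1 _))
      (fun _ => sub_le_self _ (G0 _)) fun h X p => by rw [gi' h X p])).and
      ((eventually_ge_atTop j0).and (eventually_ge_atTop i))).exists
  obtain ⟨J0, h0⟩ := h0 k k3
  refine ⟨J0 + k, fun J l J' l' hJ hJ' hl hl' => ?_⟩
  have x : ∀ J l U, k ≤ J → dnH j (i - j) (XX J l i U) = XX J l j U := fun J l U h => by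
    rw [XX, XX, show J - j = i - j + (J - i) by omega, dnH_add, show j + (i - j) = i by omega]
  have := law_prob hγ J l (J - k)
  have := law_prob hγ J' l' (J' - k)
  have := ww_prob hγ J l
  have nb : ∀ X, ‖G X‖ ≤ 1 := fun X => by rw [Real.norm_of_nonneg (G0 X)]; exact G1 X
  have m : Measurable fun W => G (dnH j (i - j) (qF (dn i (k - i) W))) :=
    (c'.comp cont_qF).measurable.comp (meas_dn i (k - i))
  have m2 : Continuous fun U => G (dnH j (i - j) (XX J l i U)) := c'.comp (cont_XX ..)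
  have a1 := k1 J' l' (by omega) hl'
  have a2 := k2 J l (by omega) hl
  have a3 := le_int h3.le (h0 J l J' l' (by omega) (by omega) hl hl') m (fun _ => G0 _)
    fun _ => G1 _
  rw [integral_sub (integrable_const _) (.of_bound m.aestronglyMeasurable 1
    (.of_forall fun _ => nb _)), integral_sub (integrable_const _) (.of_bound
      m2.aestronglyMeasurable 1 (.of_forall fun _ => nb _))] at a2
  simp only [Function.comp, x J l _ (by omega), x J' l' _ (by omega), integral_const,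
    probReal_univ, smul_eq_mul, mul_one] at a1 a2 a3
  rw [← e γ hγ J l (by omega), ← e γ hγ J' l' (by omega)]
  linarith

end

end Pool.Agent.Lib.MP_7f377f_mp.RG.D3.An
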