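import Pool.Agent.Lib.MP_7f377f_mp.R3Op5
import Pool.Agent.Lib.MP_7f377f_mp.A3Defs

/-! Tori with different sides. -/

noncomputable section

namespace Pool.Agent.Lib.MP_7f377f_mp.RG.D3.An

set_option linter.unusedSectionVars false

variable [Vol]

section
open D3.Op
open Finset Polynomial
open scoped InnerProductSpace

attribute [local irreducible] box lbox cube

variable {D : Dat} {n : ℕ}

/-- periodicity in units of blocks -/
def PerB {α : Type} (l n : ℕ) (A : Lk → α) : Prop := ∀ v : St, sh (up l ((n : ℤ) • pv v)) A = A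

theorem Ay_per {W : Cf} (hW : Per n W) {A : Fld} (hA : PerB D.l n A) (y v : St) :
    D.Ay (y + (n : ℤ) • pv v) W A = D.Ay y W A := by
  rw [← Ay_sh, hW.sh_smul, hA]

theorem sum_per {l : ℕ} {Φ : Lk → ℝ} (hΦ : PerB l n Φ) (a : ℕ) :
    ∑ y ∈ cube n, ∑ e ∈ lbox (fb l a), Φ (e.1 + up l y, e.2) =
      (2 * a + 1) ^ 3 * ∑ y ∈ cube n, ∑ t ∈ lbox l, Φ (t.1 + up l y, t.2) := by
  simp only [sum_fb]
  rw [sum_comm, sum_congr rfl (g := fun _ => ∑ y ∈ cube n, ∑ t ∈ lbox l, Φ (t.1 + up l y, t.2))]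
  · simp [card_box]
  · intro x _
    rw [← sum_cube_add (f := fun y => ∑ t ∈ lbox l, Φ (t.1 + up l y, t.2)) (fun y v => ?_) x]
    · simp only [up_add, add_assoc, add_comm (up l x)]
    · refine sum_congr rfl fun t _ => ?_
      rw [up_add, ← add_assoc]
      exact congrFun (hΦ v) (t.1 + up l y, t.2)

/-- the total quadratic form -/
def QQ (D : Dat) (n : ℕ) (W : Cf) (A' A : Fld) : ℂ :=
  ∑ y ∈ cube n, cx (hh D.l D.m) (D.Ay y W A') (D.Ay y W A)

theorem regroup (hr : HR D) {W : Cf} (hW : Per n W) {A' A : Fld} (hA' : PerB D.l n A')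
    (hA : PerB D.l n A) : ∑ y ∈ cube n, ∑ t ∈ lbox D.l,
      dot (A' (t.1 + up D.l y, t.2)) (hamL D W A (t.1 + up D.l y, t.2)) = QQ D n W A' A := by
  let g : St → Lk → ℂ := fun y e => dot (D.Ay y W A' e) (cxL D.hL (D.Ay y W A) e)
  have e1 : ∀ y, ∀ t ∈ lbox D.l, dot (A' (t.1 + up D.l y, t.2))
      (hamL D W A (t.1 + up D.l y, t.2)) = ∑ x ∈ box 2, g (y + x) (t.1 + up D.l (-x), t.2) := by
    intro y t ht
    have h0 := yo_add_box (mem_lbox.1 ht)
    rw [hamL_apply, dot_sum]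
    refine sum_congr rfl fun x _ => ?_
    have e2 : t.1 + up D.l y - up D.l (y + x) = t.1 + up D.l (-x) := by
      rw [up_add, up_neg]; abel
    have e3 : t.1 + up D.l (-x) + up D.l (y + x) = t.1 + up D.l y := by
      rw [up_add, up_neg]; abel
    have e4 : D.Ay (y + x) W A' (t.1 + up D.l (-x), t.2) =
        adq (cmb star (sh (y + x) W) (-x)) (A' (t.1 + up D.l y, t.2)) := by
      simp only [Dat.Ay, adF, sh, h0, e3]
    simp only [g, h0, e2, ← dot_adq, e4]
  rw [sum_congr rfl fun y _ => sum_congr rfl (e1 y)]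
  simp only [QQ, cx_hh hr, sum_fb]
  rw [sum_congr rfl fun y _ => sum_comm, sum_comm, sum_comm (s := cube n)]
  refine sum_nbij' (fun x => -x) (fun x => -x) (fun _ => box_neg) (fun _ => box_neg)
    (fun _ _ => neg_neg _) (fun _ _ => neg_neg _) fun x _ => ?_
  exact sum_cube_add (f := fun y => ∑ t ∈ lbox D.l, g y (t.1 + up D.l (-x), t.2))
    (fun y v => by simp only [g, Ay_per hW hA, Ay_per hW hA']) x

/-- the Euclidean space of the fluctuation variables -/
abbrev HH (l n : ℕ) := PiLp 2 fun _ : fund l n => E3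

def emb (l n : ℕ) : HH l n →ₗ[ℝ] Fld where
  toFun z f := cE (ext l n 0 z.ofLp f)
  map_add' z z' := by
    funext f
    simp only [ext, Pi.add_apply]
    split_ifs <;> simp [cE_add]
  map_smul' c z := by
    funext f
    simp only [ext, Pi.smul_apply]
    split_ifs <;> simp [cE_smul]

def ores (l n : ℕ) : Fld →ₗ[ℝ] HH l n where
  toFun A := WithLp.toLp 2 fun i => reE (A i)
  map_add' A B := by ext i k; simp [reE]
  map_smul' c A := by ext i k; simp [reE]

theorem emb_apply (l n : ℕ) (z : HH l n) (f : Lk) : emb l n z f = cE (ext l n 0 z.ofLp f) := rfl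

theorem emb_coe {l : ℕ} (z : HH l n) (i : fund l n) : emb l n z i = cE (z i) := by
  rw [emb_apply, ext_coe]

theorem emb_tree {l : ℕ} (z : HH l n) (f : Lk) (hf : tree l f) : emb l n z f = 0 := by
  rw [emb_apply, ext_tree _ _ hf, cE_zero]

theorem emb_real {l : ℕ} (z : HH l n) : RealF (emb l n z) := fun _ _ => cE_im _ _

theorem emb_per {l : ℕ} (z : HH l n) : PerB l n (emb l n z) := fun v => by
  funext f
  simp only [sh, emb_apply, ext, rp_add]

theorem emb_res {l : ℕ} (hn : 0 < n) {A : Fld} (h1 : RealF A) (h2 : ∀ f, tree l f → A f = 0)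
    (h3 : PerB l n A) : emb l n (ores l n A) = A := by
  funext f
  by_cases hf : tree l f
  · rw [emb_tree _ _ hf, h2 f hf]
  · obtain ⟨v, hv⟩ := rp_spec l n f.1
    rw [emb_apply, ext_of_mem _ _ ((rp_mem hn).2 hf)]
    refine (cE_reE (h1 _)).trans ?_
    rw [← congrFun (h3 v) (rp l n f.1, f.2), sh, ← hv]

theorem inner_emb {l : ℕ} (z' z : HH l n) : ((⟪z', z⟫_ℝ : ℝ) : ℂ) = ∑ y ∈ cube n, ∑ t ∈ lbox l,
    dot (emb l n z' (t.1 + up l y, t.2)) (emb l n z (t.1 + up l y, t.2)) := by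
  rw [← sum_fund l n (Φ := fun f => dot (emb l n z' f) (emb l n z f))
    fun f hf => by rw [emb_tree _ _ hf, zero_dot]]
  simp only [emb_coe, dot_cE, PiLp.inner_apply (f := fun _ : fund l n => E3)]
  push_cast
  rfl

/-- the operator on the torus -/
def TO (D : Dat) (n : ℕ) (W : Conf) : HH D.l n →ₗ[ℝ] HH D.l n :=
  ores D.l n ∘ₗ (topL D (cC W)).restrictScalars ℝ ∘ₗ emb D.l n

theorem emb_TT (hn : 0 < n) {W : Conf} (hW : Per n W) (z : HH D.l n) :
    emb D.l n (TO D n W z) = D.top (cC W) (emb D.l n z) := by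
  have : TO D n W z = ores D.l n (D.top (cC W) (emb D.l n z)) := by
    rw [← topL_apply]; rfl
  rw [this]
  refine emb_res hn (top_real W (emb_real z)) (fun _ => top_tree _ _) fun v => ?_
  rw [← top_sh, (per_cC hW).sh_smul, emb_per z v]

theorem emb_pow (hn : 0 < n) {W : Conf} (hW : Per n W) (k : ℕ) (z : HH D.l n) :
    emb D.l n ((TO D n W ^ k) z) = (D.top (cC W))^[k] (emb D.l n z) := by
  induction k with
  | zero => simp
  | succ k ih => rw [pow_succ', Module.End.mul_apply, emb_TT hn hW, ih, Function.iterate_succ_apply']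

theorem emb_aeval (hn : 0 < n) {W : Conf} (hW : Per n W) (q : ℝ[X]) (z : HH D.l n) :
    emb D.l n (aeval (TO D n W) q z) = D.pol (q.map (algebraMap ℝ ℂ)) (cC W) (emb D.l n z) := by
  rw [pol_eq, pj_of_tree (emb_tree z)]
  induction q using Polynomial.induction_on' with
  | add p q hp hq => simp only [map_add, Polynomial.map_add, LinearMap.add_apply, hp, hq]
  | monomial k a =>
    simp only [aeval_monomial, map_monomial, Module.End.mul_apply, Module.algebraMap_end_apply,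
      map_smul, emb_pow hn hW, topL_pow, algebraMap_smul]

theorem inner_TT (hr : HR D) (hn : 0 < n) {W : Conf} (hW : Per n W) (z' z : HH D.l n) :
    ⟪z', TO D n W z⟫_ℝ = ⟪z', z⟫_ℝ - (QQ D n (cC W) (emb D.l n z') (emb D.l n z)).re / D.Λ := by
  have : ((⟪z', TO D n W z⟫_ℝ : ℝ) : ℂ) =
      (⟪z', z⟫_ℝ : ℝ) - (D.Λ⁻¹ : ℝ) * QQ D n (cC W) (emb D.l n z') (emb D.l n z) := by
    rw [inner_emb, inner_emb, ← regroup hr (per_cC hW) (emb_per z') (emb_per z), mul_sum,
      ← sum_sub_distrib]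
    refine sum_congr rfl fun y _ => ?_
    rw [mul_sum, ← sum_sub_distrib]
    refine sum_congr rfl fun t _ => ?_
    rw [emb_TT hn hW, top_eq, pj_of_tree (emb_tree z)]
    split_ifs with h
    · simp [emb_tree _ _ h]
    · rw [dot_sub, dot_smul, Complex.ofReal_inv]
  have := congrArg Complex.re this
  rw [Complex.ofReal_re, Complex.sub_re, Complex.ofReal_re, Complex.re_ofReal_mul] at this
  rw [this, div_eq_inv_mul]

variable {c R : ℕ} {τ ρ κ : ℝ}

theorem TT_symm (h : D.Ok c τ R ρ κ) (hn : 0 < n) {W : Conf} (hW : Per n W) :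
    (TO D n W).IsSymmetric := fun z z' => by
  rw [real_inner_comm, inner_TT h.lin.hh_rng hn hW, inner_TT h.lin.hh_rng hn hW,
    real_inner_comm z z']
  simp only [QQ, cx_symm (hh_symm h) (D.Ay _ _ (emb D.l n z))]

theorem norm_emb {l : ℕ} (z : HH l n) :
    ‖z‖ ^ 2 = ∑ y ∈ cube n, ∑ t ∈ lbox l, nq (emb l n z (t.1 + up l y, t.2)) := by
  have := congrArg Complex.re (inner_emb z z)
  rwa [Complex.ofReal_re, real_inner_self_eq_norm_sq, Complex.re_sum,
    sum_congr rfl fun _ _ => Complex.re_sum _ _] at this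

theorem QQ_nonneg (h : D.Ok c τ R ρ κ) (W : Conf) {A : Fld} (hA : RealF A) :
    0 ≤ (QQ D n (cC W) A A).re := by
  rw [QQ, Complex.re_sum]
  exact sum_nonneg fun _ _ => cx_nonneg h (Ay_real _ _ hA)

theorem QQ_le (h : D.Ok c τ R ρ κ) (W : Conf) (z : HH D.l n) :
    (QQ D n (cC W) (emb D.l n z) (emb D.l n z)).re ≤ D.Λ * ‖z‖ ^ 2 := by
  rw [QQ, Complex.re_sum]
  refine (sum_le_sum fun y _ => cx_le h (Ay_real _ _ (emb_real z))).trans ?_
  simp only [nq_Ay]
  rw [← mul_sum, sum_per (Φ := fun e => nq (emb D.l n z e))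
    (fun v => funext fun e => congrArg nq (congrFun (emb_per z v) e)), ← norm_emb, h.lam,
    pow_succ (LL D.l : ℝ) c, mul_assoc]
  have := LL_ge h
  refine mul_le_mul_of_nonneg_left (mul_le_mul_of_nonneg_right ?_ (sq_nonneg _)) (by positivity)
  push_cast
  linarith

theorem TT_mem (h : D.Ok c τ R ρ κ) (hn : 0 < n) {W : Conf} (hW : Per n W) (z : HH D.l n) :
    0 ≤ ⟪z, TO D n W z⟫_ℝ ∧ ⟪z, TO D n W z⟫_ℝ ≤ ‖z‖ ^ 2 := by
  rw [inner_TT h.lin.hh_rng hn hW, real_inner_self_eq_norm_sq]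
  have := div_nonneg (QQ_nonneg (n := n) h W (emb_real (n := n) z)) (lam_pos h).le
  have := (div_le_iff₀' (lam_pos h)).2 (QQ_le h W z)
  constructor <;> linarith

theorem TT_le (h : D.Ok c τ R ρ κ) (hn : 0 < n) {W : Conf} (hW : Per n W) (z : HH D.l n) :
    ‖TO D n W z‖ ≤ ‖z‖ := by
  have h1 := (TT_mem h hn hW (z + TO D n W z)).2
  have h2 := (TT_mem h hn hW (z - TO D n W z)).1
  have h3 : ⟪z, TO D n W (TO D n W z)⟫_ℝ = ‖TO D n W z‖ ^ 2 := by
    rw [← TT_symm h hn hW, real_inner_self_eq_norm_sq]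
  generalize TO D n W = T at *
  simp only [map_add, map_sub, inner_add_left, inner_add_right, inner_sub_left, inner_sub_right,
    real_inner_self_eq_norm_sq] at h1 h2
  have h4 := pow_le_pow_left₀ (norm_nonneg _) (norm_add_le z (T z)) 2
  have h5 : (2 * ‖T z‖) ^ 2 ≤ (‖z‖ + ‖T z‖) ^ 2 := by linarith
  linarith [(abs_le_of_sq_le_sq' h5 (by positivity)).2]

theorem TT_pow_le (h : D.Ok c τ R ρ κ) (hn : 0 < n) {W : Conf} (hW : Per n W) (k : ℕ)
    (z : HH D.l n) : ‖(TO D n W ^ k) z‖ ≤ ‖z‖ := by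
  induction k with
  | zero => simp
  | succ k ih => rw [pow_succ', Module.End.mul_apply]; exact (TT_le h hn hW _).trans ih

theorem norm_le_card {l : ℕ} (z : HH l n) {a : ℝ} (a0 : 0 ≤ a) (ha : ∀ i, ‖z i‖ ≤ a) (S : Finset Lk)
    (hS : ∀ i : fund l n, i.1 ∉ S → z i = 0) : ‖z‖ ≤ S.card * a := by
  classical
  have h1 : ‖z‖ ^ 2 ≤ S.card * a ^ 2 := by
    rw [PiLp.norm_sq_eq_of_L2, ← sum_filter_of_ne (p := fun i : fund l n => i.1 ∈ S)
      fun i _ hi => by by_contra h; simp [hS i h] at hi]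
    refine (sum_le_card_nsmul _ _ (a ^ 2) fun i _ => pow_le_pow_left₀ (norm_nonneg _) (ha i) 2).trans ?_
    rw [nsmul_eq_mul]
    gcongr
    exact card_le_card_of_injOn Subtype.val (fun i hi => (mem_filter.1 hi).2)
      Subtype.val_injective.injOn
  have h2 : (S.card : ℝ) ≤ S.card ^ 2 := by exact_mod_cast Nat.le_self_pow two_ne_zero _
  refine (abs_le_of_sq_le_sq' (h1.trans ?_) (by positivity)).2
  rw [mul_pow]
  gcongr

/-- finite range and a bound in the Euclidean norm give a bound in the supremum norm -/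
theorem sup_bd (hr : HR D) (hn : 0 < n) {W : Conf} (hW : Per n W) {q : ℝ[X]} {d : ℕ}
    (hq : q.natDegree ≤ d) {γ : ℝ} (γ0 : 0 ≤ γ) (hγ : ∀ z, ‖aeval (TO D n W) q z‖ ≤ γ * ‖z‖)
    {z : HH D.l n} {a : ℝ} (ha : ∀ i, ‖z i‖ ≤ a) (i : fund D.l n) :
    ‖aeval (TO D n W) q z i‖ ≤ γ * ((lbox (fb D.l (3 * d))).card * a) := by
  classical
  have a0 := (norm_nonneg _).trans (ha i)
  set y := yo D.l i.1.1
  let S := (lbox (fb D.l (3 * d))).image fun e => (rp D.l n (e.1 + up D.l y), e.2)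
  let z' : HH D.l n := WithLp.toLp 2 fun j => if j.1 ∈ S then z j else 0
  have h1 : ‖z'‖ ≤ S.card * a := norm_le_card z' a0
    (fun j => by simp only [z']; split_ifs; exacts [ha j, by simpa]) S fun j hj => if_neg hj
  have h2 : Agr (fb D.l (0 + 3 * d)) (sh (up D.l y) (emb D.l n z)) (sh (up D.l y) (emb D.l n z')) := by
    intro e he
    rw [zero_add] at he
    simp only [sh, emb_apply, ext]
    split_ifs with h
    · have : (rp D.l n (e.1 + up D.l y), e.2) ∈ S := mem_image_of_mem _ he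
      exact congrArg cE (if_pos this).symm
    · rfl
  have h3 := pol_agr' hr ((natDegree_map_le (f := algebraMap ℝ ℂ)).trans hq)
    (W := sh y (cC W)) (fun _ _ => rfl) h2 (i.1.1 - up D.l y, i.1.2)
    (by rw [mem_lbox, mem_fb, yo_sub_up, sub_self]; exact zero_mem_box _)
  rw [Dat.pol_sh, Dat.pol_sh, ← emb_aeval hn hW, ← emb_aeval hn hW, sh, sh, sub_add_cancel,
    emb_coe, emb_coe] at h3
  rw [cE_inj h3]
  refine (PiLp.norm_apply_le _ i).trans ((hγ _).trans ?_)
  exact mul_le_mul_of_nonneg_left (h1.trans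
    (mul_le_mul_of_nonneg_right (Nat.cast_le.2 card_image_le) a0)) γ0

end

section
open D3.Op
open Finset Polynomial
open scoped InnerProductSpace

attribute [local irreducible] box lbox cube

variable {D : Dat} {n c R : ℕ} {τ ρ κ : ℝ}

theorem QQ_ge (h : D.Ok c τ R ρ κ) {W : Conf} (hW : Per n W) {δ : ℝ} (hδ : curvG δ W)
    (hs : (LL D.l : ℝ) ^ c * δ ≤ 1 / 10 ^ 7) (z : HH D.l n) :
    ‖z‖ ^ 2 ≤ 10 ^ 4 * (LL D.l : ℝ) ^ c * (QQ D n (cC W) (emb D.l n z) (emb D.l n z)).re := by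
  have δ0 := hδ.nonneg
  have L1 : 1 ≤ (LL D.l : ℝ) ^ c := one_le_pow₀ (by linarith [LL_ge h])
  have δ1 : δ ≤ 1 / 10 ^ 7 := by nlinarith
  set A := emb D.l n z with hA
  let F : St → ℝ := fun y => 2 * (cx (hh D.l D.m) (D.Ay y (cC W) A) (D.Ay y (cC W) A)).re +
    2 * ((LL D.l : ℝ) ^ c * (19200 * (24 * δ) ^ 2 *
      ∑ e ∈ lbox (fb D.l 1), nq (A (e.1 + up D.l y, e.2))))
  have h1 : ∀ x, ∑ t ∈ lbox D.l, nq (A (t.1 + up D.l x, t.2)) ≤
      (LL D.l : ℝ) ^ c * ∑ y ∈ box 3, F (x + y) := fun x => by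
    have hU : curvG δ (sh x W) := fun y μ ν => by
      simpa only [hol, sh, add_right_comm _ x] using hδ (y + x) μ ν
    set u := cmb Inv.inv (sh x W)
    have hu : ∀ y, Uni (cS (u y)) := fun _ => uni_cS _
    have := coer_loc h (gauge Inv.inv u (sh x W)) (ε := 24 * δ) (by positivity) (by linarith)
      (fun e he => by
        have := fix_small hU he
        rw [cC, cS, ← cq_one, ← cq_sub]
        exact (norm_cq _).2.trans (by push_cast at this; linarith))
      (A := adF (fun y => cS (u (yo D.l y))) (sh (up D.l x) A))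
      (fun e => adq_real _ (emb_real z _)) fun f hf => by
        rw [adF, sh, hA, emb_tree _ _ ((tree_add_up _ _ _ _).2 hf), adq_zero]
    simp only [cC_gauge, Ay_gauge hu, cx_adF _ h.lin.hh_rng (hu _), ← sh_cC, Ay_sh] at this
    simpa only [adF, nq_adq (hu _), sh, F, add_comm x, up_add, add_assoc] using this
  have hp : PerB D.l n fun e => nq (A e) :=
    fun v => funext fun e => congrArg nq (congrFun (emb_per z v) e)
  have h2 : ∀ y, ∑ x ∈ cube n, F (x + y) = ∑ x ∈ cube n, F x := sum_cube_add fun x v => by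
    simp only [F, Ay_per (per_cC hW) (emb_per z), hA, up_add, ← add_assoc]
    congr 4
    exact sum_congr rfl fun e _ => congrFun (hp v) (e.1 + up D.l x, e.2)
  have h3 : ∑ x ∈ cube n, F x = 2 * (QQ D n (cC W) A A).re +
      2 * ((LL D.l : ℝ) ^ c * (19200 * (24 * δ) ^ 2 * (27 * ‖z‖ ^ 2))) := by
    have := sum_per hp 1
    simp only [F, sum_add_distrib, ← mul_sum, this, QQ, Complex.re_sum, norm_emb z, ← hA]
    norm_num
  have h4 := sum_le_sum fun x (_ : x ∈ cube n) => h1 x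
  rw [← norm_emb, ← mul_sum, sum_comm, sum_congr rfl fun y _ => h2 y, sum_const, card_box, h3,
    nsmul_eq_mul] at h4
  have h5 := mul_le_mul_of_nonneg_right (pow_le_pow_left₀ (by positivity) hs 2) (sq_nonneg ‖z‖)
  have h6 := mul_nonneg (zero_le_one.trans L1) (QQ_nonneg (n := n) h W (emb_real (n := n) z))
  push_cast at h4
  nlinarith

theorem TT_gap (h : D.Ok c τ R ρ κ) (hn : 0 < n) {W : Conf} (hW : Per n W) {δ : ℝ}
    (hδ : curvG δ W) (hs : (LL D.l : ℝ) ^ c * δ ≤ 1 / 10 ^ 7) (z : HH D.l n) :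
    ⟪z, TO D n W z⟫_ℝ ≤ (1 - ((LL D.l : ℝ) ^ (2 * c + 2))⁻¹) * ‖z‖ ^ 2 := by
  have hL := LL_ge h
  have h1 := QQ_ge h hW hδ hs z
  have h2 := QQ_nonneg (n := n) h W (emb_real (n := n) z)
  rw [inner_TT h.lin.hh_rng hn hW, real_inner_self_eq_norm_sq, sub_mul, one_mul,
    sub_le_sub_iff_left, le_div_iff₀ (lam_pos h), h.lam, inv_mul_eq_div, div_mul_eq_mul_div,
    div_le_iff₀ (by positivity)]
  calc _ ≤ 10 ^ 4 * (LL D.l : ℝ) ^ c * (QQ D n (cC W) (emb D.l n z) (emb D.l n z)).re *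
        (LL D.l : ℝ) ^ (c + 1) := by gcongr
    _ ≤ LL D.l * (LL D.l : ℝ) ^ c * (QQ D n (cC W) (emb D.l n z) (emb D.l n z)).re *
        (LL D.l : ℝ) ^ (c + 1) := by gcongr; linarith
    _ = _ := by ring

theorem card_fund_le (l n : ℕ) : (fund l n).card ≤ (vo * n ^ 3) * (LL l ^ 3 * 3) := by
  rw [← Fintype.card_coe, card_fund]
  refine Nat.mul_le_mul_left _ ((sum_le_card_nsmul _ _ 1 fun _ _ => ?_).trans_eq ?_)
  · split_ifs <;> simp
  · simp [card_lbox, LL]

end

section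
open D3.Op
open Finset Polynomial
open scoped InnerProductSpace

attribute [local irreducible] box lbox cube

variable {D : Dat} {n c R : ℕ} {τ ρ κ : ℝ}

theorem trace_eq (h : D.Ok c τ R ρ κ) (hn : 3 * D.N < n) {W : Conf} (hW : Per n W) :
    ∑ i ∈ range D.N, (TO D n W ^ (i + 1)).trace ℝ _ / (2 * (i + 1)) =
      ∑ y ∈ cube n, (D.dt (sh y (cC W))).re := by
  have n0 : 0 < n := by omega
  have e1 : ∑ i ∈ range D.N, (TO D n W ^ (i + 1)).trace ℝ _ / (2 * (i + 1)) =
      (aeval (TO D n W) (qR D.N)).trace ℝ _ := by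
    simp only [qR, map_sum, aeval_monomial, ← Algebra.smul_def, map_smul, smul_eq_mul]
    exact sum_congr rfl fun i _ => by ring
  let Φ : Lk → ℝ := fun f => ∑ k, (D.pol (pQ D.N) (sh (yo D.l f.1) (cC W))
    (Pi.single (f.1 - up D.l (yo D.l f.1), f.2) (Pi.single k 1))
      (f.1 - up D.l (yo D.l f.1), f.2) k).re
  have e2 : ∑ y ∈ cube n, (D.dt (sh y (cC W))).re = ∑ i : fund D.l n, Φ i := by
    rw [sum_fund D.l n (Φ := Φ) fun f hf => sum_eq_zero fun k _ => by
      rw [Dat.pol_tree _ _ _ (by rwa [← tree_add_up _ _ (yo D.l f.1), sub_add_cancel])]; rfl]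
    refine sum_congr rfl fun y _ => ?_
    rw [Dat.dt, Complex.re_sum]
    refine sum_congr rfl fun t ht => ?_
    simp only [Φ, yo_add_box (mem_lbox.1 ht), add_sub_cancel_right, Complex.re_sum]
  rw [e1, e2, LinearMap.trace_eq_sum_inner _
    (Pi.orthonormalBasis fun _ : fund D.l n => EuclideanSpace.basisFun (Fin 3) ℝ), Fintype.sum_sigma]
  refine sum_congr rfl fun i _ => sum_congr rfl fun k _ => ?_
  set y := yo D.l i.1.1 with hy
  set w : HH D.l n := (Pi.orthonormalBasis fun _ : fund D.l n =>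
    EuclideanSpace.basisFun (Fin 3) ℝ) ⟨i, k⟩ with hw
  have w1 : ∀ j, w j = if j = i then EuclideanSpace.single k 1 else 0 := fun j => by
    simp [hw]
  have h2 : Agr (fb D.l (0 + 3 * D.N)) (sh (up D.l y) (emb D.l n w))
      (Pi.single (i.1.1 - up D.l y, i.1.2) (Pi.single k 1)) := by
    intro e he
    by_cases h1 : e = (i.1.1 - up D.l y, i.1.2)
    · rw [h1, sh, sub_add_cancel, emb_coe, w1, if_pos rfl, Pi.single_eq_same]
      funext j
      by_cases hj : j = k <;> simp [cE, hj]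
    · rw [Pi.single_eq_of_ne h1, sh, emb_apply, ext]
      split_ifs with h3
      · rw [w1, if_neg, cE_zero]
        intro h4
        obtain ⟨v, hv⟩ := rp_spec D.l n (e.1 + up D.l y)
        have h5 := Prod.ext_iff.1 (congrArg Subtype.val h4)
        simp only at h5
        rw [h5.1] at hv
        have h6 := congrArg (yo D.l) hv
        rw [yo_add_up, yo_add_up, ← hy, add_comm, add_right_inj] at h6
        have h7 : v = 0 := funext fun j => by
          have := mem_box.1 (mem_fb.1 (mem_lbox.1 he)) j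
          rw [h6, smul_pv] at this
          have : (3 * D.N : ℤ) < sd n j := lt_of_lt_of_le (by exact_mod_cast hn) (le_sd n j)
          push_cast at *
          show v j = 0
          rcases lt_trichotomy (v j) 0 with h | h | h
          · nlinarith
          · exact h
          · nlinarith
        rw [h7, pv_zero, smul_zero, up_zero, add_zero] at hv
        exact h1 (Prod.ext (eq_sub_of_add_eq hv) h5.2)
      · exact cE_zero
  have h3 := pol_agr' h.lin.hh_rng (natDegree_pQ D.N) (W := sh y (cC W)) (fun _ _ => rfl) h2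
    (i.1.1 - up D.l y, i.1.2) (by rw [mem_lbox, mem_fb, yo_sub_up, sub_self]; exact zero_mem_box _)
  rw [← h3, Dat.pol_sh, ← map_qR, ← emb_aeval n0 hW, sh, sub_add_cancel, emb_coe, PiLp.inner_apply,
    sum_eq_single i (fun j _ hj => by rw [w1, if_neg hj, inner_zero_left]) (by simp), w1, if_pos rfl]
  simp [cE, EuclideanSpace.inner_single_left]

open Op

theorem pol_torus (c : ℕ) : ∃ K : ℕ, ∀ (D : Dat) (R : ℕ) (τ ρ κ δ : ℝ), D.Ok c τ R ρ κ →
    K ≤ D.l → (LL D.l : ℝ) ^ K * δ ≤ 1 → ∀ n, LL D.l ^ K ≤ n → ∀ W : Conf, Per n W → curvG δ W →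
      ∃ P : (fund D.l n → E3) →ₗ[ℝ] (fund D.l n → E3),
        (∀ z, D.pol (pP D.N) (cC W) (fun f => cE (ext D.l n 0 z f)) =
          fun f => cE (ext D.l n 0 (P z) f)) ∧
        0 < LinearMap.det P ∧
        |Real.log (LinearMap.det P) - ∑ y ∈ cube n, (D.dt (sh y (cC W))).re| ≤
          Real.exp (-(D.l : ℝ)) * (vo * n ^ 3) ∧
        (∀ z a, (∀ f, ‖z f‖ ≤ a) → |∑ y ∈ cube n, (cx (hh D.l D.m)
          (D.Ay y (cC W) fun f => cE (ext D.l n 0 (P z) f))
          (D.Ay y (cC W) fun f => cE (ext D.l n 0 (P z) f))).re / D.Λ - ∑ f, ‖z f‖ ^ 2| ≤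
            Real.exp (-(D.l : ℝ)) * a ^ 2 * (vo * n ^ 3)) ∧
        (∀ z a, (∀ f, ‖z f‖ ≤ a) → ∀ f, ‖P z f‖ ≤ (LL D.l : ℝ) ^ K * a) ∧
        ∀ z a, (∀ f, ‖P z f‖ ≤ a) → ∀ f, ‖z f‖ ≤ (LL D.l : ℝ) ^ K * a := by
  refine ⟨20 * c + 70, fun D R τ ρ κ δ h hK hδ n hn W hW hc => ?_⟩
  have δ0 := hc.nonneg
  have hL := LL_ge h
  have hr := h.lin.hh_rng
  have hN := N_cast h
  have N1 : (1 : ℝ) ≤ D.N := hN ▸ one_le_pow₀ (by linarith)
  have n1 : 3 * D.N < n := by
    have h1 := pow_le_L h (C := 4) (by norm_num) (i := 2 * c + 4) (j := 20 * c + 70) (by omega)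
    have h2 : (LL D.l : ℝ) ^ (20 * c + 70) ≤ n := by exact_mod_cast hn
    have : (3 * D.N : ℝ) < n := by linarith
    exact_mod_cast this
  have n0 : 0 < n := by omega
  have hs : (LL D.l : ℝ) ^ c * δ ≤ 1 / 10 ^ 7 := by
    have h1 := mul_le_mul_of_nonneg_right (pow_le_L h (C := 10 ^ 6) le_rfl (i := c + 1)
      (j := 20 * c + 70) (by omega)) δ0
    have h2 := mul_le_mul_of_nonneg_right (pow_le_L h (C := 10) (by norm_num) (i := c)
      (j := c + 1) (by omega)) δ0
    linarith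
  set η := ((LL D.l : ℝ) ^ (2 * c + 2))⁻¹ with hη
  have η0 : 0 < η := by positivity
  have η1 : 0 ≤ 1 - η := sub_nonneg.2 (inv_le_one_of_one_le₀ (one_le_pow₀ (by linarith)))
  have hx := fun j hj => exp_small h (j := j) (le_trans hj hK)
  rw [← hη] at hx
  have x0 : 0 ≤ (1 - η) ^ D.N := by positivity
  have τ0 : 0 ≤ Kit.tau D.N η := by unfold Kit.tau; positivity
  have τ1 : Kit.tau D.N η ≤ (LL D.l : ℝ) ^ (4 * c + 9) * (1 - η) ^ D.N := by
    refine mul_le_mul_of_nonneg_right (le_trans ?_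
      (pow_le_L h (C := 6) (by norm_num) (i := 4 * c + 8) (by omega))) x0
    calc _ ≤ (2 * D.N) * (3 * D.N : ℝ) := by gcongr <;> linarith
      _ = _ := by rw [hN]; ring
  have τ2 : ∀ C ≤ (10 : ℝ) ^ 6, ∀ j ≤ 10 * c + 30, C * (LL D.l : ℝ) ^ j *
      ((LL D.l : ℝ) ^ (4 * c + 9) * (1 - η) ^ D.N) ≤ Real.exp (-(D.l : ℝ)) := fun C hC j hj => by
    refine le_trans ?_ (hx (j + 1 + (4 * c + 9)) (by omega))
    rw [pow_add _ (j + 1), mul_assoc (_ ^ (j + 1))]
    exact mul_le_mul_of_nonneg_right (pow_le_L h hC j.lt_succ_self) (by positivity)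
  set T := TO D n W with hT
  obtain ⟨-, c1, c2, c3, c4⟩ := Kit.spec (TT_symm h n0 hW) η0 (fun a => (TT_mem h n0 hW a).1)
    (TT_gap h n0 hW hc hs) D.N (τ1.trans (le_trans (by simp)
      ((τ2 1 (by norm_num) 0 (by omega)).trans (exp_half h))))
  rw [← aeval_pR, ← hT] at c1 c2 c3 c4
  set P := aeval T (pR D.N) with hP
  have hc4 : ((fund D.l n).card : ℝ) ≤ (vo * n ^ 3) * ((LL D.l : ℝ) ^ 3 * 3) := by
    exact_mod_cast card_fund_le D.l n
  have bP : ∀ z, ‖P z‖ ≤ (D.N + 1) * ‖z‖ := fun z => by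
    rw [hP, aeval_pR, Kit.bP, LinearMap.sum_apply]
    refine (norm_sum_le _ _).trans ((sum_le_card_nsmul _ _ ‖z‖ fun k _ => ?_).trans_eq (by simp))
    rw [LinearMap.smul_apply, norm_smul]
    exact (mul_le_of_le_one_left (norm_nonneg _) (by simpa [bin_eq] using norm_bin k)).trans
      (TT_pow_le h n0 hW k z)
  have dg : (pR D.N * (1 - X)).natDegree ≤ D.N + 1 := natDegree_mul_le.trans
    (add_le_add (natDegree_pR _) ((natDegree_sub_le _ _).trans (by simp)))
  have hC := card_rng h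
  let e := WithLp.linearEquiv 2 ℝ (fund D.l n → E3)
  refine ⟨e.toLinearMap ∘ₗ P ∘ₗ e.symm.toLinearMap, fun z => ?_, by rwa [LinearMap.det_conj], ?_,
    fun z a ha => ?_, fun z a ha f => ?_, fun z a ha f => ?_⟩
  · rw [← map_pR]
    exact (emb_aeval n0 hW _ (e.symm z)).symm
  · rw [LinearMap.det_conj, ← trace_eq h n1 hW]
    refine c4.trans ?_
    have h1 : (Module.finrank ℝ (HH D.l n) : ℝ) = (fund D.l n).card * 3 := by
      rw [e.finrank_eq, Module.finrank_pi_fintype]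
      simp
    have h2 : (1 - η) ^ D.N / η ≤ (LL D.l : ℝ) ^ (4 * c + 9) * (1 - η) ^ D.N := by
      rw [hη, div_inv_eq_mul, mul_comm]
      exact mul_le_mul_of_nonneg_right (pow_le_pow_right₀ (by linarith) (by omega)) x0
    rw [h1]
    calc _ ≤ (vo * n ^ 3) * ((LL D.l : ℝ) ^ 3 * 3) * 3 * ((LL D.l : ℝ) ^ (4 * c + 9) * (1 - η) ^ D.N +
          (LL D.l : ℝ) ^ (4 * c + 9) * (1 - η) ^ D.N) := by gcongr
      _ = 18 * (LL D.l : ℝ) ^ 3 * ((LL D.l : ℝ) ^ (4 * c + 9) * (1 - η) ^ D.N) * (vo * n ^ 3) := by ring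
      _ ≤ _ := mul_le_mul_of_nonneg_right (τ2 18 (by norm_num) 3 (by omega)) (by positivity)
  · have h1 := c2 (e.symm z)
    rw [LinearMap.sub_apply, Module.End.one_apply, inner_sub_right, hT, inner_TT hr n0 hW,
      sub_sub_cancel, QQ, Complex.re_sum, sum_div, PiLp.norm_sq_eq_of_L2] at h1
    refine h1.trans ?_
    have h2 : ∑ f, ‖z f‖ ^ 2 ≤ (fund D.l n).card * a ^ 2 :=
      (sum_le_card_nsmul _ _ (a ^ 2) fun f _ =>
        pow_le_pow_left₀ (norm_nonneg _) (ha f) 2).trans_eq (by simp)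
    calc _ ≤ (LL D.l : ℝ) ^ (4 * c + 9) * (1 - η) ^ D.N *
          ((vo * n ^ 3) * ((LL D.l : ℝ) ^ 3 * 3) * a ^ 2) :=
        mul_le_mul τ1 (h2.trans (by gcongr)) (sum_nonneg fun _ _ => sq_nonneg _) (by positivity)
      _ = 3 * (LL D.l : ℝ) ^ 3 * ((LL D.l : ℝ) ^ (4 * c + 9) * (1 - η) ^ D.N) * a ^ 2 * (vo * n ^ 3) := by
        ring
      _ ≤ _ := by gcongr; exact τ2 3 (by norm_num) 3 (by omega)
  · have a0 := (norm_nonneg _).trans (ha f)
    refine (sup_bd hr n0 hW (d := 2 * D.N + 1) ((natDegree_pR _).trans (by omega)) (by positivity)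
      bP (z := e.symm z) ha f).trans ?_
    calc _ ≤ 2 * D.N * ((LL D.l : ℝ) ^ (8 * c + 25) * a) := by gcongr; linarith
      _ = 2 * (LL D.l : ℝ) ^ (10 * c + 29) * a := by rw [hN]; ring
      _ ≤ _ := mul_le_mul_of_nonneg_right (pow_le_L h (by norm_num) (by omega)) a0
  · have a0 := (norm_nonneg _).trans (ha f)
    have h1 : ∀ i, ‖z i‖ ≤ 1 / 2 * ‖z‖ + 4 * (LL D.l : ℝ) ^ (10 * c + 29) * a := fun i => by
      have h2 := sup_bd hr n0 hW (q := pR D.N * (1 - X) * pR D.N - 1) (d := 2 * D.N + 1)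
        ((natDegree_sub_le _ _).trans (max_le (natDegree_mul_le.trans
          ((add_le_add dg (natDegree_pR _)).trans (by omega))) (by simp))) τ0
        (fun w => by simpa [← hT, ← hP] using c1 w) (z := e.symm z) (norm_le_pi_norm z) i
      have h3 := sup_bd hr n0 hW (q := pR D.N * (1 - X)) (d := 2 * D.N + 1) (dg.trans (by omega))
        (γ := (D.N + 1) * 2) (by positivity) (fun w => by
          have := norm_sub_le w (T w)
          have := TT_le h n0 hW w
          rw [map_mul, Module.End.mul_apply, mul_assoc]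
          refine (bP _).trans (mul_le_mul_of_nonneg_left ?_ (by positivity))
          simp only [map_sub, map_one, aeval_X, LinearMap.sub_apply, Module.End.one_apply]
          linarith) (z := P (e.symm z)) ha i
      have h4 : z i = aeval T (pR D.N * (1 - X)) (P (e.symm z)) i -
          aeval T (pR D.N * (1 - X) * pR D.N - 1) (e.symm z) i := by
        simp [← hP, e]
      rw [h4]
      refine (norm_sub_le _ _).trans ((add_le_add h3 h2).trans ?_)
      rw [add_comm]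
      refine add_le_add ?_ ?_
      · rw [← mul_assoc]
        refine mul_le_mul_of_nonneg_right (le_trans ?_
          ((τ2 1 (by norm_num) (8 * c + 25) (by omega)).trans (exp_half h))) (norm_nonneg _)
        rw [one_mul, mul_comm]
        gcongr
      · calc _ ≤ (2 * D.N) * 2 * ((LL D.l : ℝ) ^ (8 * c + 25) * a) := by gcongr; linarith
          _ = _ := by rw [hN]; ring
    have h5 := (pi_norm_le_iff_of_nonneg (by positivity)).2 h1
    have h6 := mul_le_mul_of_nonneg_right (pow_le_L h (C := 8) (by norm_num) (i := 10 * c + 29)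
      (j := 20 * c + 70) (by omega)) a0
    linarith [norm_le_pi_norm z f]

end

end Pool.Agent.Lib.MP_7f377f_mp.RG.D3.An
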