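import Pool.Agent.Lib.MP_7f377f_mp.R3Step4
import Pool.Agent.Lib.MP_7f377f_mp.A3Op
import Pool.Agent.Lib.MP_7f377f_mp.A3Meas

/-! Tori with different sides. -/

noncomputable section

namespace Pool.Agent.Lib.MP_7f377f_mp.RG.D3.An

set_option linter.unusedSectionVars false

variable [Vol]

section
open D3.SX
open Finset

theorem per_Us (D : Dat) {n : ℕ} {W : Cf} (h : Per n W) : Per (LL D.l * n) (D.Us W) :=
  per_of_smul fun v => by rw [← up_smul, ← Us_sh', per_smul h]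

theorem per_Uz (D : Dat) {n : ℕ} {W : Cf} {A : Fld} (h : Per n W) (hA : Per (LL D.l * n) A) :
    Per (LL D.l * n) (D.Uz W A) :=
  per_of_smul fun v => by rw [← up_smul, ← Uz_sh, per_smul h, up_smul, per_smul hA]

theorem Bx_per {n : ℕ} {U : Cf} (h : Per n U) (x v : St) : Bx (x + (n : ℤ) • pv v) U = Bx x U := by
  rw [← Bx_sh', per_smul h]

theorem sum_e2 {D : Dat} {r : ℕ} (hx : Rng (3 * D.l + 1) r (xx D.l D.m D.s)) {n : ℕ} (hn : 0 < n)
    {W : Cf} {A : Fld} (hW : Per n W) (hA : Per (LL D.l * n) A) :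
    ∑ y ∈ cube n, D.e2 (sh y W) (sh (up D.l y) A) =
      ∑ y ∈ cube n, 2 * D.β * cx (xx D.l D.m D.s) (D.Ay y W A) (Bx y W) := by
  set H : St → St → ℂ := fun Y y => cx (xx D.l D.m D.s)
    (adF (fun x => cmb star (sh Y W) (yo D.l x))
      fun e => if (e.1 + up D.l y, e.2) ∈ lbox D.l then sh (up D.l Y) A e else 0) (Bx Y W) with hH
  have h1 : ∀ y, D.e2 (sh y W) (sh (up D.l y) A) = 2 * D.β * ∑ y' ∈ box 2, H (y + y') y' := by
    intro y
    have e1 : ∀ y', sh (up D.l y') (cut D.l (sh (up D.l y) A)) = fun e =>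
        if (e.1 + up D.l y', e.2) ∈ lbox D.l then sh (up D.l (y' + y)) A e else 0 := by
      intro y'
      funext e
      simp only [sh, cut, up_add, add_assoc]
    simp only [Dat.e2, hH, Dat.Ay, sh_sh, Bx_sh', add_comm y, e1]
  have h2 : ∀ y' Y v, H (Y + (n : ℤ) • pv v) y' = H Y y' := by
    intro y' Y v
    simp only [hH, per_sh hW, Bx_per hW, up_add, up_smul, per_sh hA]
  simp only [h1, ← mul_sum]
  congr 1
  rw [sum_comm, sum_congr rfl fun y' _ => sum_shift hn (f := fun Y => H Y y') (h2 y') y', sum_comm]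
  refine sum_congr rfl fun Y _ => ?_
  simp only [hH]
  rw [← cx_sum_left]
  exact cx_congr_left hx (sum_cut _ _ _) _

open SX

/-- regrouping of the exponent -/
theorem exponent {D : Dat} {c R : ℕ} {τ ρ κ : ℝ} (h : D.Ok c τ R ρ κ) (n : ℕ) (hn : 0 < n)
    (W U : Conf) (A : Fld) (hW : Per n W) (hA : Per (LL D.l * n) A) (hU : cC U = D.Uz (cC W) A) :
    act D.β D.m D.ψ (LL D.l * n) U +
      D.β * LL D.l ^ 2 * ∑ b ∈ lcube n, (dot (D.res (sh b.1 (cC W)) (sh (up D.l b.1) (cC U)) b.2)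
        (D.res (sh b.1 (cC W)) (sh (up D.l b.1) (cC U)) b.2)).re =
    ∑ y ∈ cube n, (D.β * cx (hh D.l D.m) (D.Ay y (cC W) A) (D.Ay y (cC W) A) +
      D.β * cx (mn D.l D.m D.s) (Bx y (cC W)) (Bx y (cC W)) +
      ∑ x ∈ box D.l, D.ψ (Bx x (D.Us (sh y (cC W)))) +
      D.e1 (sh y (cC W)) (sh (up D.l y) A) + D.e2 (sh y (cC W)) (sh (up D.l y) A) +
      D.e3 (sh y (cC W)) (sh (up D.l y) A)).re := by
  have hW' := per_cC hW
  have hP : Per (LL D.l * n) (cC U) := hU ▸ per_Uz D hW' hA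
  have h1 := sum_e2 h.lin.xx_rng hn hW' hA
  have h2 := sum_blocks D.l hn (f := fun x => cx D.m (Bx x (cC U)) (Bx x (cC U))) fun x v => by
    simp only [Bx_per hP]
  have h3 := sum_blocks D.l hn (f := fun x => D.ψ (Bx x (cC U))) fun x v => by
    simp only [Bx_per hP]
  have key : ∑ x ∈ cube (LL D.l * n), (D.β * cx D.m (Bx x (cC U)) (Bx x (cC U)) +
      D.ψ (Bx x (cC U))) +
      ((D.β * LL D.l ^ 2 : ℝ) : ℂ) * ∑ b ∈ lcube n,
        dot (D.res (sh b.1 (cC W)) (sh (up D.l b.1) (cC U)) b.2)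
          (D.res (sh b.1 (cC W)) (sh (up D.l b.1) (cC U)) b.2) =
      ∑ y ∈ cube n, (D.β * cx (hh D.l D.m) (D.Ay y (cC W) A) (D.Ay y (cC W) A) +
      D.β * cx (mn D.l D.m D.s) (Bx y (cC W)) (Bx y (cC W)) +
      ∑ x ∈ box D.l, D.ψ (Bx x (D.Us (sh y (cC W)))) +
      D.e1 (sh y (cC W)) (sh (up D.l y) A) + D.e2 (sh y (cC W)) (sh (up D.l y) A) +
      D.e3 (sh y (cC W)) (sh (up D.l y) A)) := by
    simp only [sum_add_distrib, ← mul_sum]
    rw [h1, h2, h3, lcube, sum_product]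
    simp only [Dat.e1, Dat.e3, Uz_sh, ← hU, Ay_zero_sh, Bx_sh', zero_add, sum_sub_distrib,
      sum_add_distrib, ← mul_sum]
    push_cast
    ring
  rw [act, ← Complex.re_sum, ← Complex.re_sum, ← Complex.re_sum, ← key, Complex.add_re,
    Complex.re_ofReal_mul]

end

section
open D3.SX
open Finset MeasureTheory
open scoped ENNReal

theorem eq_of_md {n a : ℕ} (hn : 2 * a + 1 ≤ n) {x y j : St} (hx : x ∈ box a) (hy : y ∈ box a)
    (h : md n (x + j) = md n (y + j)) : x = y := by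
  funext i
  have h1 := mem_box.mp hx i
  have h2 := mem_box.mp hy i
  have h3 : (x i + j i) % sd n i = (y i + j i) % sd n i := congrFun h i
  obtain ⟨k, hk⟩ := Int.emod_eq_emod_iff_emod_sub_eq_zero.mp h3 |> Int.dvd_of_emod_eq_zero
  have h5 : (2 * a + 1 : ℤ) ≤ sd n i := le_trans (by exact_mod_cast hn) (le_sd n i)
  rcases lt_trichotomy k 0 with hk0 | hk0 | hk0
  · nlinarith
  · rw [hk0] at hk; linarith
  · nlinarith

/-- two labels on the torus are within `k` steps of size `w` -/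
def Near (n w k : ℕ) (a b : St) : Prop := ∃ v ∈ box (k * w), md n (v + a) = b

theorem near_ex {n w : ℕ} (hw : 1 ≤ w) (a b : cube n) : ∃ k, Near n w k a b := by
  refine ⟨n * ∑ j, Vol.m j, b - a, mem_box.mpr fun i => ?_,
    by rw [sub_add_cancel, md_of_mem b.2]⟩
  have h1 := mem_cube.mp a.2 i
  have h2 := mem_cube.mp b.2 i
  have h3 : sd n i ≤ ((n * ∑ j, Vol.m j) * w : ℕ) := by
    have : n * Vol.m i ≤ (n * ∑ j, Vol.m j) * w :=
      (Nat.mul_le_mul_left n (single_le_sum (f := Vol.m) (fun _ _ => Nat.zero_le _)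
        (mem_univ i))).trans (Nat.le_mul_of_pos_right _ hw)
    simp only [sd]
    exact_mod_cast this
  simp only [Pi.sub_apply]
  omega

theorem Near.mono {n w k k' : ℕ} {a b : St} (h : Near n w k a b) (hk : k ≤ k') :
    Near n w k' a b := by
  obtain ⟨v, h1, h2⟩ := h
  exact ⟨v, box_mono (Nat.mul_le_mul_right _ hk) h1, h2⟩

theorem Near.trans {n w k k' : ℕ} {a b c : St} (h : Near n w k a b) (h' : Near n w k' b c) :
    Near n w (k + k') a c := by
  obtain ⟨v, h1, h2⟩ := h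
  obtain ⟨v', h3, h4⟩ := h'
  refine ⟨v + v', add_mul k k' w ▸ add_mem_box h1 h3, ?_⟩
  rw [← h4, ← h2, add_comm v', md_md_add, add_right_comm]

theorem fund_nonempty (l : ℕ) {n : ℕ} (hn : 0 < n) : Nonempty (fund l n) := by
  refine ⟨⟨(rp l n ((l : ℤ) • un 0), 0), (rp_mem (f := ((l : ℤ) • un 0, 0)) hn).mpr fun h => ?_⟩⟩
  have := congrFun h.1 0
  simp only [yo, un, Pi.add_apply, Pi.smul_apply, Pi.single_eq_same, smul_eq_mul, mul_one] at this
  have h1 : ((l : ℤ) + 1 + l) = LL l := by simp only [LL]; push_cast; ring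
  rw [h1, Int.ediv_self (SX.LL_pos l).ne', Int.ediv_eq_zero_of_lt (by positivity)
    (by simp only [LL]; push_cast; omega)] at this
  exact one_ne_zero this

theorem wt_torus {D : Dat} {c R : ℕ} {τ ρ κ : ℝ} (h : D.Ok c τ R ρ κ) {n : ℕ}
    (hn : 2 * (D.Rb + D.Rs R) + 1 ≤ n) (W : Cf) (hm : ∀ y, Measurable (D.s0 (sh y W))) (j : St) :
    Kit.fl (Measure.pi fun _ : fund D.l n => nu D.ζ)
      (fun z => D.s0 (sh j W) (sh (up D.l j) (ext D.l n 0 z)))
      (fun z => -D.sS (sh j W) (sh (up D.l j) (ext D.l n 0 z))) = D.wt (sh j W) := by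
  classical
  have hn0 : 0 < n := by omega
  have := nu_prob (lt_of_lt_of_le one_pos h.zeta)
  obtain ⟨i₀⟩ := fund_nonempty D.l hn0
  set T : Set Lk := {e | e ∈ lbox (fb D.l (D.Rb + D.Rs R)) ∧ ¬ tree D.l e} with hT
  set jm : Lk → fund D.l n := fun e =>
    if h : (rp D.l n (e.1 + up D.l j), e.2) ∈ fund D.l n then ⟨_, h⟩ else i₀ with hjm
  have hmem : ∀ e ∈ T, (rp D.l n (e.1 + up D.l j), e.2) ∈ fund D.l n := fun e he =>
    (rp_mem (f := (e.1 + up D.l j, e.2)) hn0).mpr fun h => he.2 ((SX.tree_add_up _ _ _).mp h)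
  have hinj : Set.InjOn jm T := by
    intro e he e' he' hee
    simp only [hjm, dif_pos (hmem e he), dif_pos (hmem e' he'), Subtype.mk.injEq,
      Prod.mk.injEq] at hee
    have h1 := congrArg (yo D.l) hee.1
    rw [yo_rp, yo_rp, yo_add_up, yo_add_up] at h1
    have h2 := eq_of_md hn (yo_mem_box (mem_lbox.mp he.1)) (yo_mem_box (mem_lbox.mp he'.1)) h1
    have h3 := hee.1
    rw [rp_eq, rp_eq, yo_add_up, yo_add_up, h2, sub_left_inj, add_left_inj] at h3
    exact Prod.ext h3 hee.2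
  have d1 : DependsOn (D.s0 (sh j W)) T := by
    intro z z' hz
    have := s0_dep h (sh j W) (a := D.Rb) (y := 0) (mem_box.mpr fun i => by simp)
      (z := z) (z' := z') fun e h1 h2 => hz e ⟨h1, h2⟩
    rwa [up_zero, sh_zero, sh_zero] at this
  have d2 : DependsOn (fun z => -D.sS (sh j W) z) T := by
    intro z z' hz
    simp only [Dat.sS]
    rw [sum_congr rfl fun y hy => s0_dep h _ hy (z := z) (z' := z') fun e h1 h2 => hz e ⟨h1, h2⟩]
  have m2 : Measurable fun z => -D.sS (sh j W) z := by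
    refine (Finset.measurable_fun_sum _ fun y _ => ?_).neg
    rw [sh_sh]
    exact (hm _).comp (measurable_sh _)
  have key := Kit.fl_lift (nu D.ζ) jm T hinj (fun _ => id) (fun _ => MeasurePreserving.id _)
    (hm j) m2 d1 d2
  have hag : ∀ z : fund D.l n → E3, ∀ e ∈ T,
      sh (up D.l j) (ext D.l n 0 z) e = id (z (jm e)) := by
    intro z e he
    simp only [hjm, dif_pos (hmem e he), id]
    exact ext_of_mem 0 z (f := (e.1 + up D.l j, e.2)) (hmem e he)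
  rw [funext fun z => d1 (hag z), funext fun z => d2 (hag z), key]
  simp only [Kit.fl, Dat.wt, nuI, mul_neg]

open D3.SX

/-- the logarithm of the fluctuation integral is a sum of local terms -/
theorem log_fluct {D : Dat} {c R : ℕ} {τ ρ κ θ : ℝ} (h : D.Ok c τ R ρ κ) (n p : ℕ)
    (hn : 2 * (D.Rb + D.Rs R) + 1 ≤ n) (hp : p * (2 * D.Rs R + 1) ≤ D.Rb) (W : Conf) (hW : Per n W)
    (hb : ∀ y z, ‖D.s0 (sh y (cC W)) z‖ ≤ θ) (hm : ∀ y, Measurable (D.s0 (sh y (cC W))))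
    (hθ : (2 * D.Rb + 1) ^ 3 * θ ≤ 1 / 100) :
    |Real.log (∫ z, Real.exp (-∑ y ∈ cube n,
        (D.s0 (sh y (cC W)) (sh (up D.l y) (ext D.l n 0 z))).re)
          ∂(Measure.pi fun _ : fund D.l n => nu D.ζ)) +
      ∑ y ∈ cube n, (D.wt (sh y (cC W))).re| ≤ (vo * n ^ 3) * (8 * θ * 2⁻¹ ^ p) := by
  classical
  have hn0 : 0 < n := by omega
  have := nu_prob (lt_of_lt_of_le one_pos h.zeta)
  have hw : 1 ≤ 2 * D.Rs R + 1 := by omega
  have θ0 : 0 ≤ θ := (norm_nonneg _).trans (hb 0 0)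
  set S : St → (fund D.l n → E3) → ℝ := fun y z =>
    (D.s0 (sh y (cC W)) (sh (up D.l y) (ext D.l n 0 z))).re with hS
  set B : cube n → Finset (cube n) := fun j =>
    (box D.Rb).image fun v => ⟨md n (v + j), md_mem hn0 _⟩ with hB
  have key := decouple (nu D.ζ) (fun j : cube n => S j)
    (fun j => Complex.measurable_re.comp ((hm j).comp ((measurable_sh _).comp (measurable_ext _ _ _))))
    (fun j => {i | ∃ v ∈ box (D.Rs R), yo D.l i.1.1 = md n (v + j)})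
    (fun j z z' hz => by
      simp only [hS]
      rw [Dat.s0_agr h (fun _ _ => rfl) (z' := sh (up D.l j) (ext D.l n 0 z')) fun e he => ?_]
      simp only [sh, ext]
      split_ifs with hf
      · exact hz _ ⟨_, yo_mem_box (mem_lbox.mp he), by rw [yo_rp, yo_add_up]⟩
      · rfl)
    (fun a b => Nat.find (near_ex hw a b))
    (fun j => (Nat.find_eq_zero _).mpr ⟨0, mem_box.mpr fun i => by simp,
      by rw [zero_add, md_of_mem j.2]⟩)
    (fun a b c => Nat.find_le ((Nat.find_spec (near_ex hw a b)).trans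
      (Nat.find_spec (near_ex hw b c))))
    (fun a b hab => Set.disjoint_left.mpr fun i ⟨v, hv, h1⟩ ⟨v', hv', h2⟩ => by
      refine Nat.find_min (near_ex hw a b) hab ⟨v + -v',
        box_mono (by omega) (add_mem_box hv (neg_mem_box hv')), ?_⟩
      rw [add_right_comm, ← md_md_add, ← h1, h2, md_md_add, add_right_comm, add_neg_cancel,
        zero_add, md_of_mem b.2])
    (θ := θ) (fun j z => (Complex.abs_re_le_norm _).trans (hb _ _)) p B
    (fun j j' hj => by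
      obtain ⟨v, h1, h2⟩ := (Nat.find_spec (near_ex hw j j')).mono hj
      exact mem_image.mpr ⟨v, box_mono hp h1, Subtype.ext h2⟩)
    (fun j => le_trans (mul_le_mul_of_nonneg_right (by
      have : (B j).card ≤ (2 * D.Rb + 1) ^ 3 := card_image_le.trans (card_box _).le
      exact_mod_cast this) θ0) hθ)
  have hSp : ∀ y z, S (md n y) z = S y z := by
    intro y z
    conv_rhs => rw [md_eq n y]
    simp only [hS, per_sh (per_cC hW), up_add, up_smul, per_sh (ext_per _ _ _ _)]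
  have hre : ∀ y z, D.s0 (sh y (cC W)) z = ((D.s0 (sh y (cC W)) z).re : ℝ) := fun y z =>
    Complex.ext rfl (by rw [Complex.ofReal_im]; exact Dat.s0_real h (sh y W) z)
  have hBS : ∀ (j : cube n) z, ((-∑ j' ∈ B j, S j' z : ℝ) : ℂ) =
      -D.sS (sh j (cC W)) (sh (up D.l j) (ext D.l n 0 z)) := by
    intro j z
    rw [hB, sum_image fun v hv v' hv' hvv => eq_of_md (by omega) hv hv' (congrArg Subtype.val hvv)]
    simp only [hSp, Dat.sS, sh_sh, ← up_add]
    push_cast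
    simp only [hS, ← hre]
  have hloc : ∀ j : cube n, (∫ t in (0 : ℝ)..1,
      (∫ z, S j z * Real.exp (-(t * ∑ j' ∈ B j, S j' z)) ∂Measure.pi fun _ => nu D.ζ) /
        ∫ z, Real.exp (-(t * ∑ j' ∈ B j, S j' z)) ∂Measure.pi fun _ => nu D.ζ) =
      (D.wt (sh j (cC W))).re := by
    intro j
    have h1 := Kit.fl_ofReal (Measure.pi fun _ : fund D.l n => nu D.ζ) (S j)
      fun z => -∑ j' ∈ B j, S j' z
    simp only [hBS] at h1
    simp only [hS, ← hre] at h1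
    rw [wt_torus h hn _ hm] at h1
    rw [h1, Complex.ofReal_re]
    simp only [Kit.tE, mul_neg, hS]
  simp only [hloc] at key
  rw [sum_coe_sort (cube n) fun y => (D.wt (sh y (cC W))).re, Fintype.card_coe, card_cube] at key
  simp only [fun z => sum_coe_sort (cube n) fun y => S y z] at key
  exact_mod_cast key

end

section
open D3.SX
open Finset MeasureTheory
open scoped ENNReal

theorem ext_map {α β : Type} {l n : ℕ} (φ : α → β) (o : α) (u : fund l n → α) (f : Lk) :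
    φ (ext l n o u f) = ext l n (φ o) (fun i => φ (u i)) f := by
  unfold ext
  split_ifs <;> rfl

theorem ext_bd {l n : ℕ} {a : ℝ} (ha : 0 ≤ a) {z : fund l n → E3} (hz : ∀ i, ‖z i‖ ≤ a) (f : Lk) :
    ‖ext l n 0 z f‖ ≤ a := by
  unfold ext
  split_ifs
  exacts [hz _, norm_zero.trans_le ha]

theorem Az_eq {D : Dat} {n : ℕ} (hζ : 0 ≤ D.ζ) {W : Cf}
    {P : (fund D.l n → E3) →ₗ[ℝ] (fund D.l n → E3)}
    (hP : ∀ z, D.pol (pP D.N) W (fun f => cE (ext D.l n 0 z f)) =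
      fun f => cE (ext D.l n 0 (P z) f)) {z : fund D.l n → E3} (hz : ∀ i, ‖z i‖ ≤ D.ζ) :
    D.Az W (ext D.l n 0 z) = (D.g : ℂ) • fun f => cE (ext D.l n 0 (P z) f) := by
  rw [Dat.Az, ← hP]
  congr 2
  funext f
  exact if_pos (ext_bd hζ hz f)

theorem smul_ext {l n : ℕ} (g : ℝ) (v : fund l n → E3) :
    ((g : ℂ) • fun f => cE (ext l n 0 v f)) = fun f => cE (ext l n 0 (g • v) f) := by
  funext f
  rw [Pi.smul_apply, ← cE_smul, ext_map (fun x => g • x), smul_zero]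
  rfl

theorem cC_chart {D : Dat} {c R : ℕ} {τ ρ κ : ℝ} (h : D.Ok c τ R ρ κ) {n : ℕ} (hn : 0 < n)
    {W U₀ : Conf} (hW : Per n W) (hU₀ : cC U₀ = D.Us (cC W)) {e : E3 → S3}
    (he : ∀ v, cS (e v) = ex (cE v)) (v : fund D.l n → E3) :
    cC (ext D.l n 1 fun i => e (v i) * U₀ i) = D.Uz (cC W) fun f => cE (ext D.l n 0 v f) := by
  funext f
  by_cases hf : tree D.l f
  · simp only [cC, Dat.Uz, ext_tree _ _ hf, Dat.Us_tree h _ hf, cS_one, cE_zero, ex_zero, mul_one]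
  · have hm := (rp_mem hn).mpr hf
    simp only [cC, Dat.Uz, ext_of_mem _ _ hm, cS_mul, he]
    congr 1
    obtain ⟨w, hw⟩ := rp_spec D.l n f.1
    have h1 := congrFun (per_smul (per_Us D (per_cC hW)) w) (rp D.l n f.1, f.2)
    rw [← up_smul, sh, ← hw] at h1
    exact (congrFun hU₀ _).trans h1.symm

theorem sum_e4 (D : Dat) (n : ℕ) (v : fund D.l n → E3) :
    ∑ y ∈ cube n, (D.e4 (sh (up D.l y) fun f => cE (ext D.l n 0 v f))).re =
      2 * ∑ i, Real.log (1 + ‖v i‖ ^ 2) := by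
  have h1 := sum_fund D.l n (Φ := fun f => Real.log (1 + ‖ext D.l n 0 v f‖ ^ 2))
    fun f hf => by simp [ext_tree _ _ hf]
  simp only [ext_coe] at h1
  rw [h1, mul_sum]
  refine sum_congr rfl fun y _ => ?_
  have h2 : ∀ x : ℝ, Complex.log (1 + ((x ^ 2 : ℝ) : ℂ)) = (Real.log (1 + x ^ 2) : ℝ) := by
    intro x
    rw [Complex.ofReal_log (by positivity), Complex.ofReal_add, Complex.ofReal_one]
  simp only [Dat.e4, sh, dot_cE_self, h2]
  rw [← Complex.ofReal_sum, ← Complex.ofReal_ofNat, ← Complex.ofReal_mul, Complex.ofReal_re]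

/-- the part of the new action which does not come from the fluctuation integral -/
def mainA (D : Dat) (n : ℕ) (W : Conf) : ℝ :=
  ∑ y ∈ cube n, (D.β * cx (mn D.l D.m D.s) (Bx y (cC W)) (Bx y (cC W)) +
    ∑ x ∈ box D.l, D.ψ (Bx x (D.Us (sh y (cC W))))).re

theorem actN_eq (D : Dat) (n : ℕ) (W : Conf) : actN D n W = mainA D n W +
    ∑ y ∈ cube n, (D.wt (sh y (cC W))).re - ∑ y ∈ cube n, (D.dt (sh y (cC W))).re := by
  simp only [actN, mainA, Complex.sub_re, Complex.add_re, sum_sub_distrib, sum_add_distrib]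

theorem exponent2 {D : Dat} {c R : ℕ} {τ ρ κ : ℝ} (h : D.Ok c τ R ρ κ) {n : ℕ} (hn : 0 < n)
    {W U : Conf} (hW : Per n W) {P : (fund D.l n → E3) →ₗ[ℝ] (fund D.l n → E3)}
    (hP : ∀ z, D.pol (pP D.N) (cC W) (fun f => cE (ext D.l n 0 z f)) =
      fun f => cE (ext D.l n 0 (P z) f)) {z : fund D.l n → E3} (hz : ∀ i, ‖z i‖ ≤ D.ζ)
    (hU : cC U = D.Uz (cC W) fun f => cE (ext D.l n 0 ((D.g • P) z) f)) :
    act D.β D.m D.ψ (LL D.l * n) U +
      D.β * LL D.l ^ 2 * ∑ b ∈ lcube n, (dot (D.res (sh b.1 (cC W)) (sh (up D.l b.1) (cC U)) b.2)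
        (D.res (sh b.1 (cC W)) (sh (up D.l b.1) (cC U)) b.2)).re +
      2 * ∑ i, Real.log (1 + ‖(D.g • P) z i‖ ^ 2) =
    mainA D n W + (∑ y ∈ cube n, (cx (hh D.l D.m)
          (D.Ay y (cC W) fun f => cE (ext D.l n 0 (P z) f))
          (D.Ay y (cC W) fun f => cE (ext D.l n 0 (P z) f))).re / D.Λ) / 2 +
      ∑ y ∈ cube n, (D.s0 (sh y (cC W)) (sh (up D.l y) (ext D.l n 0 z))).re := by
  obtain ⟨hΛ, -, hg⟩ := g_pos h
  have hA := Az_eq (zero_le_one.trans h.zeta) hP hz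
  have hA' : D.Az (cC W) (ext D.l n 0 z) = fun f => cE (ext D.l n 0 ((D.g • P) z) f) :=
    hA.trans (smul_ext _ _)
  have hper : Per (LL D.l * n) fun f => cE (ext D.l n 0 ((D.g • P) z) f) := fun μ => by
    funext f
    exact congrArg cE (congrFun (ext_per D.l n 0 ((D.g • P) z) μ) f)
  rw [exponent h n hn W U _ hW hper hU, ← sum_e4, mainA, sum_div, ← sum_add_distrib,
    ← sum_add_distrib, ← sum_add_distrib]
  refine sum_congr rfl fun y _ => ?_
  have h1 : D.Ay y (cC W) (D.Az (cC W) (ext D.l n 0 z)) =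
      (D.g : ℂ) • D.Ay y (cC W) fun f => cE (ext D.l n 0 (P z) f) := by
    rw [hA]
    funext f
    simp only [Dat.Ay, adF, sh, Pi.smul_apply, adq_smul]
  rw [← hA', h1, cx_smul_smul, ← mul_assoc, ← Complex.ofReal_pow, ← Complex.ofReal_mul, hg]
  simp only [Dat.s0, Az_sh, Complex.add_re, Complex.re_ofReal_mul]
  field_simp
  ring

end

section
open D3.SX
open Finset MeasureTheory
open scoped ENNReal

theorem ext_one_tree {l n : ℕ} (u : fund l n → S3) : ∀ f, tree l f → ext l n 1 u f = 1 :=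
  fun _ hf => ext_tree _ _ hf

open D3.SX

open Classical in
/-- the renormalisation step -/
theorem step (c : ℕ) : ∃ K : ℕ, ∀ (D : Dat) (R R' : ℕ) (τ ρ κ ρ' : ℝ), D.Ok c τ R ρ κ →
    K ≤ D.l → D.Rb + D.Rs R + 2 ≤ R' → R' ≤ LL D.l ^ (12 * c + 30) → 0 < ρ' →
    ρ' ≤ √(LL D.l) * ρ → (LL D.l : ℝ) ^ K * ρ' ≤ 1 → (LL D.l : ℝ) ^ K * ρ' ^ 2 ≤ ρ →
    (LL D.l : ℝ) ^ K * (D.g * D.ζ) ≤ ρ → (LL D.l : ℝ) ^ K * (D.g * D.ζ) ≤ ρ' →
    (2 * D.Rb + 1) ^ 3 * D.th0 K τ ρ ρ' κ (3 * R' * ρ') ≤ 1 / 100 →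
    ∀ (p : ℕ) (ε δ δ' : ℝ), p * (2 * D.Rs R + 1) ≤ D.Rb → 2 * δ' ≤ ρ' →
    (LL D.l : ℝ) ^ K * δ ≤ 1 → (LL D.l : ℝ) ^ K * δ' ^ 2 ≤ δ → δ' ≤ √(LL D.l) * δ →
    (LL D.l : ℝ) ^ K * (D.g * D.ζ) ≤ δ → (LL D.l : ℝ) ^ K * ε ≤ D.g * D.ζ →
    (LL D.l : ℝ) ^ 3 * ε ≤ δ' → 0 ≤ ε →
    ∃ e : ℝ, ∀ (E η : ℝ) (n : ℕ) (f fG : Conf → ℝ≥0∞), LL D.l ^ K ≤ n → GI (LL D.l * n) f →
      GI (LL D.l * n) fG →
      (∀ U, Per (LL D.l * n) U → curvG δ U → ENNReal.ofReal (Real.exp ((E - η) * (vo * (LL D.l * n) ^ 3) -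
        act D.β D.m D.ψ (LL D.l * n) U)) ≤ f U) →
      (∀ U, Per (LL D.l * n) U → curvG δ U → fG U ≤
        ENNReal.ofReal (Real.exp ((E + η) * (vo * (LL D.l * n) ^ 3) - act D.β D.m D.ψ (LL D.l * n) U))) →
      ∀ W, Per n W → (¬ curvG δ' W → TG D.l (D.β * LL D.l ^ 2) ε n fG W = 0) ∧ (curvG δ' W →
        ENNReal.ofReal (Real.exp ((LL D.l ^ 3 * (E - η) + e -
          (2⁻¹ ^ p + 2 * Real.exp (-(D.l : ℝ)) * D.ζ ^ 2)) * (vo * n ^ 3) - actN D n W)) ≤
            TT D.l (D.β * LL D.l ^ 2) n f W ∧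
        TG D.l (D.β * LL D.l ^ 2) ε n fG W ≤ ENNReal.ofReal (Real.exp ((LL D.l ^ 3 * (E + η) + e +
          (2⁻¹ ^ p + 2 * Real.exp (-(D.l : ℝ)) * D.ζ ^ 2)) * (vo * n ^ 3) - actN D n W))) := by
  obtain ⟨K₁, hK₁⟩ := pol_torus c
  obtain ⟨K₂, hK₂⟩ := geo c
  obtain ⟨K₃, hK₃⟩ := fresh_tm c
  obtain ⟨cH, hcH, hch⟩ := chart_change
  obtain ⟨C, hC⟩ := hk_tail
  choose e he _ using ex_real
  obtain ⟨K, hKdef⟩ : ∃ K, K = K₁ + K₂ + K₃ + 12 * c + 40 := ⟨_, rfl⟩
  refine ⟨K, ?_⟩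
  intro D R R' τ ρ κ ρ' h hK hR hR' hρ' hρ1 hρ hρ2 hgρ hgρ' hθ p ε δ δ' hp hδρ hδ1 hδ2 hδ3 hgδ hεg
    hεδ' hε
  have hL100 := LL_ge h
  have key : ∀ b, R' ≤ LL D.l ^ b → b + 1 ≤ K → R' * 100 ≤ LL D.l ^ K := fun b h1 h2 =>
    (Nat.mul_le_mul h1 hL100).trans ((pow_succ _ _).ge.trans (Nat.pow_le_pow_right (by omega) h2))
  replace hK₃ := hK₃ D R R' τ ρ κ ρ' h (by omega) hR hR'
  replace hR' := key _ hR' (by omega)
  clear key
  set L : ℝ := (LL D.l : ℝ) with hLdef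
  have hL : 100 ≤ L := by rw [hLdef]; exact_mod_cast hL100
  have hL1 : 1 ≤ L := by linarith
  have hpw : ∀ a, a ≤ K → L ^ a ≤ L ^ K := fun a ha => pow_le_pow_right₀ hL1 ha
  have hpw' : ∀ a, a + 1 ≤ K → 100 * L ^ a ≤ L ^ K := fun a ha =>
    ((mul_le_mul_of_nonneg_right hL (by positivity)).trans_eq (pow_succ' L a).symm).trans (hpw _ ha)
  have hK1 : 1 ≤ L ^ K := one_le_pow₀ hL1
  obtain ⟨hΛ, hg, -⟩ := g_pos h
  have hζ1 := h.zeta
  have hζ : 0 < D.ζ := by linarith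
  have hgζ : 0 < D.g * D.ζ := by positivity
  have hρ0 := h.rho
  have hgδ' : D.g * D.ζ ≤ δ := (le_mul_of_one_le_left hgζ.le hK1).trans hgδ
  have hδ0 : 0 < δ := hgζ.trans_le hgδ'
  have hεδ : ε ≤ δ := ((le_mul_of_one_le_left hε hK1).trans hεg).trans hgδ'
  have hδ0' : 0 ≤ δ' := le_trans (by positivity) hεδ'
  have hm : ∀ a x y, a ≤ K → 0 ≤ x → L ^ K * x ≤ y → L ^ a * x ≤ y := fun a x y ha h0 h1 =>
    (mul_le_mul_of_nonneg_right (hpw a ha) h0).trans h1
  have hδ1' : L ^ K * δ' ≤ 1 :=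
    (mul_le_mul_of_nonneg_left (by linarith) (by positivity)).trans hρ
  have hε1 : L ^ K * ε ≤ 1 := (mul_le_mul_of_nonneg_left hεδ (by positivity)).trans hδ1
  have hθ₃ : (2 * D.Rb + 1) ^ 3 * D.th0 K₃ τ ρ ρ' κ (3 * R' * ρ') ≤ 1 / 100 :=
    le_trans (mul_le_mul_of_nonneg_left (th0_mono h (by positivity) hρ'.le (by omega))
      (by positivity)) hθ
  obtain ⟨-, hfr⟩ := hK₃ hρ' hρ1
    (hm _ _ _ (by omega) hρ'.le hρ) (hm _ _ _ (by omega) (by positivity) hρ2)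
    (hm _ _ _ (by omega) hgζ.le hgρ) (hm _ _ _ (by omega) hgζ.le hgρ') hθ₃
  set θ := D.th0 K₃ τ ρ ρ' κ (3 * R' * ρ') with hθdef
  obtain ⟨geo1, -⟩ := hK₂ D R τ ρ κ ε h (by omega) (hm _ _ _ (by omega) hε hε1)
  have geo2 := (hK₂ D R τ ρ κ δ h (by omega) (hm _ _ _ (by omega) hδ0.le hδ1)).2 δ'
    (hm _ _ _ (by omega) hδ0' hδ1') (hm _ _ _ (by omega) (by positivity) hδ2) hδ3
  have hβ := h.beta
  obtain ⟨mhk, -, hz0, hz1, -⟩ := hC (D.β * L ^ 2) 0
    (one_le_mul_of_one_le_of_one_le hβ (one_le_pow₀ hL1)) le_rfl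
  set lz := Real.log (∫⁻ g, hk0 (D.β * L ^ 2) g ∂haar).toReal with hlz
  set lν := Real.log (nu0 D.ζ Set.univ).toReal with hlν
  refine ⟨-3 * lz + cnt D.l * (3 * Real.log D.g + Real.log cH + lν), ?_⟩
  intro E η n f fG hn gi1 gi2 hlo hup W hW
  have hn0 : 0 < n := lt_of_lt_of_le (by positivity) hn
  have mr1 := gi1.1
  have mr2 := gi2.1
  have hr1 := (gi1.tree hn0 (D.β * L ^ 2) ε W).1
  have hr2 := (gi2.tree hn0 (D.β * L ^ 2) ε W).2
  have hnK : ∀ a, a ≤ K → LL D.l ^ a ≤ n := fun a ha =>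
    (Nat.pow_le_pow_right (by omega) ha).trans hn
  refine ⟨fun hWc => ?_, fun hWc => ?_⟩
  · rw [hr2]
    refine (lintegral_congr fun u => ?_).trans lintegral_zero
    rw [if_neg, zero_mul]
    rintro ⟨h1, h2⟩
    exact hWc (curvG_mono hεδ' (geo1 _ W (ext_one_tree u) h1 h2).1)
  obtain ⟨P, hP, hdet, hld, hq, hPz, hzP⟩ := hK₁ D R τ ρ κ δ' h (by omega)
    (hm _ _ _ (by omega) hδ0' hδ1') n (hnK _ (by omega)) W hW hWc
  obtain ⟨U₀, hU₀⟩ := Dat.Us_real (D := D) W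
  have hs0 : ∀ y, (∀ z, ‖D.s0 (sh y (cC W)) z‖ ≤ θ) ∧ Measurable (D.s0 (sh y (cC W))) := fun y =>
    (hfr (sh y W) (curvG_mono (by linarith) (curvG_sh hWc y))).2
  have hθ0 : 0 ≤ θ := (norm_nonneg _).trans ((hs0 0).1 0)
  have hθ1 : 8 * θ ≤ 1 := by
    have : (1 : ℝ) ≤ (2 * D.Rb + 1) ^ 3 := one_le_pow₀ (by linarith [Nat.cast_nonneg (α := ℝ) D.Rb])
    nlinarith
  have hn2 : 2 * (D.Rb + D.Rs R) + 1 ≤ n := by omega
  have hlf := log_fluct h n p hn2 hp W hW (fun y => (hs0 y).1) (fun y => (hs0 y).2) hθ₃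
  set S : (fund D.l n → E3) → ℝ := fun z =>
    ∑ y ∈ cube n, (D.s0 (sh y (cC W)) (sh (up D.l y) (ext D.l n 0 z))).re with hS
  have mS : Measurable S := Finset.measurable_fun_sum _ fun y _ => Complex.measurable_re.comp
    ((hs0 y).2.comp ((measurable_sh _).comp (measurable_ext _ _ _)))
  have bS : ∀ z, |S z| ≤ ∑ _y ∈ cube n, θ := fun z => (abs_sum_le_sum_abs _ _).trans
    (sum_le_sum fun y _ => (Complex.abs_re_le_norm _).trans ((hs0 y).1 _))
  have gb := gauss_ball hζ mS bS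
  set lZ := Real.log (∫ z, Real.exp (-S z) ∂Measure.pi fun _ : fund D.l n => nu D.ζ) with hlZ
  set Uc : (fund D.l n → E3) → Conf := fun z =>
    ext D.l n 1 fun i => e ((D.g • P) z i) * U₀ i with hUc
  set Q : (fund D.l n → E3) → ℝ := fun z => ∑ y ∈ cube n, (cx (hh D.l D.m)
    (D.Ay y (cC W) fun f => cE (ext D.l n 0 (P z) f))
    (D.Ay y (cC W) fun f => cE (ext D.l n 0 (P z) f))).re / D.Λ with hQ
  set c₀ : ℝ := -(3 * (vo * n ^ 3) * lz) + (vo * n ^ 3) * cnt D.l * (3 * Real.log D.g + Real.log cH) +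
    Real.log (LinearMap.det P) - mainA D n W with hc₀
  have hdet' := (jac_eq hg hcH hdet 0).1
  have hcU : ∀ z, cC (Uc z) = D.Uz (cC W) fun f => cE (ext D.l n 0 ((D.g • P) z) f) := fun z =>
    cC_chart h hn0 hW hU₀ he _
  have pw : ∀ z : fund D.l n → E3, (∀ i, ‖z i‖ ≤ D.ζ) → curvG δ (Uc z) ∧ ∀ a : ℝ,
      ENNReal.ofReal (Real.exp (a -
          act D.β D.m D.ψ (LL D.l * n) (Uc z))) *
        (∏ b ∈ lcube n, hk (D.β * L ^ 2) (W b * (blk D.l (Uc z) b)⁻¹)) *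
        ENNReal.ofReal (LinearMap.det (D.g • P) *
          ∏ i, cH * ((1 + ‖(D.g • P) z i‖ ^ 2) ^ 2)⁻¹) =
      ENNReal.ofReal (Real.exp (a + c₀ - Q z / 2 - S z)) := by
    intro z hz
    have hb : ∀ i, ‖(D.g • P) z i‖ ≤ δ / 100 := by
      intro i
      rw [LinearMap.smul_apply, Pi.smul_apply, norm_smul, Real.norm_of_nonneg hg.le]
      have h1 := mul_le_mul_of_nonneg_left (hPz z _ hz i) hg.le
      have h2 := mul_le_mul_of_nonneg_right (hpw' K₁ (by omega)) hgζ.le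
      linarith
    obtain ⟨h1, h2⟩ := geo2 (Uc z) W _ hWc (fun f hf => by rw [ext_tree _ _ hf, cE_zero])
      (fun f => by linarith [(norm_cE _).1.trans (ext_bd (by positivity) hb f)]) (hcU z)
    refine ⟨h1, fun a => ?_⟩
    rw [prod_hk _ hz0 hz1 (h2 _), (jac_eq hg hcH hdet _).2,
      ← ENNReal.ofReal_mul (Real.exp_pos _).le, ← ENNReal.ofReal_mul (by positivity),
      ← Real.exp_add, ← Real.exp_add, card_lcube, card_fund]
    congr 2
    have h3 := exponent2 h hn0 hW hP hz (hcU z)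
    simp only [hc₀, hQ, hS]
    push_cast
    linarith
  have mx := measurable_ext D.l n (1 : S3)
  have mk : Measurable fun u : fund D.l n → S3 =>
      ∏ b ∈ lcube n, hk (D.β * L ^ 2) (W b * (blk D.l (ext D.l n 1 u) b)⁻¹) :=
    Finset.measurable_fun_prod _ fun b _ => mhk.comp
      (((measurable_pi_apply b).comp ((measurable_blk D.l).comp mx)).inv.const_mul (W b))
  have hX : Real.exp (-(D.l : ℝ)) * (vo * n ^ 3) ≤ Real.exp (-(D.l : ℝ)) * D.ζ ^ 2 * (vo * n ^ 3) := by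
    rw [mul_right_comm]
    exact le_mul_of_one_le_right (by positivity) (one_le_pow₀ hζ1)
  have hX0 : 0 ≤ Real.exp (-(D.l : ℝ)) * D.ζ ^ 2 * (vo * n ^ 3) := by positivity
  have hY : ((vo : ℝ) * n ^ 3) * (8 * θ * 2⁻¹ ^ p) ≤ 2⁻¹ ^ p * (vo * n ^ 3) := by
    rw [mul_comm]
    exact mul_le_mul_of_nonneg_right (mul_le_of_le_one_left (by positivity) hθ1) (by positivity)
  obtain ⟨hlf1, hlf2⟩ := abs_le.mp hlf
  obtain ⟨hld1, hld2⟩ := abs_le.mp hld
  constructor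
  · rw [hr1]
    refine le_trans ?_ (setLIntegral_le_lintegral
      {u : fund D.l n → S3 | ∀ i, 0 < (u i * (U₀ i)⁻¹).q.re} _)
    refine le_trans ?_ (hch (fun i : fund D.l n => U₀ i) e he _ hdet' _ ((mr1.comp mx).mul mk)).ge
    refine le_trans (le_trans (ENNReal.ofReal_le_ofReal (Real.exp_le_exp.mpr ?_))
      (gb ((E - η) * (vo * (L * n) ^ 3) + c₀ - Real.exp (-(D.l : ℝ)) * D.ζ ^ 2 * (vo * n ^ 3) / 2)).ge)
      (lintegral_mono fun z => ?_)
    · rw [actN_eq, card_fund, hc₀]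
      push_cast
      linarith
    · by_cases hz : ∀ i, ‖z i‖ ≤ D.ζ
      · rw [Set.indicator_of_mem (show z ∈ {z : fund D.l n → E3 | ∀ i, ‖z i‖ ≤ D.ζ} from hz)]
        obtain ⟨h1, h2⟩ := pw z hz
        refine le_trans (le_trans (ENNReal.ofReal_le_ofReal (Real.exp_le_exp.mpr ?_))
          (h2 ((E - η) * (vo * (L * n) ^ 3))).ge)
          (mul_le_mul_left (mul_le_mul_left (hlo _ (ext_per _ _ _ _) h1) _) _)
        linarith [(abs_le.mp (hq z _ hz)).2]
      · rw [Set.indicator_of_notMem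
          (show z ∉ {z : fund D.l n → E3 | ∀ i, ‖z i‖ ≤ D.ζ} from hz)]
        exact zero_le
  · have hUs : ∀ (u : fund D.l n → S3) (i : fund D.l n),
        cS (ext D.l n 1 u i) * star (D.Us (cC W) i) = cS (u i * (U₀ i)⁻¹) := by
      intro u i
      rw [ext_coe, ← hU₀, cS_mul, cS_inv]
      rfl
    rw [hr2, ← setLIntegral_eq_of_support_subset
      (s := {u : fund D.l n → S3 | ∀ i, 0 < (u i * (U₀ i)⁻¹).q.re}) fun u hu i => ?_]
    · refine le_trans (hch (fun i : fund D.l n => U₀ i) e he _ hdet' _ ((Measurable.ite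
        (mx (measurableSet_good D.l ε W)) (mr2.comp mx) measurable_const).mul mk)).le ?_
      refine le_trans (lintegral_mono fun z => ?_) (le_trans
        (gb ((E + η) * (vo * (L * n) ^ 3) + c₀ + Real.exp (-(D.l : ℝ)) * D.ζ ^ 2 * (vo * n ^ 3) / 2)).le
        (ENNReal.ofReal_le_ofReal (Real.exp_le_exp.mpr ?_)))
      · by_cases hev : curvG ε (Uc z) ∧ noiseG D.l ε (Uc z) W
        · have hz : ∀ i, ‖z i‖ ≤ D.ζ := by
            have h1 : ∀ i, ‖P z i‖ ≤ 2 * (L ^ K₂ * ε) / D.g := by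
              intro i
              have h2 := ((geo1 _ W (ext_one_tree _) hev.1 hev.2).2 i).2
              rw [hUs, mul_inv_cancel_right, he, ch_ex] at h2
              have h3 := (norm_cE ((D.g • P) z i)).2
              rw [LinearMap.smul_apply, Pi.smul_apply, norm_smul, Real.norm_of_nonneg hg.le] at h3
              rw [LinearMap.smul_apply, Pi.smul_apply] at h2
              rw [le_div_iff₀ hg]
              linarith
            intro i
            refine (hzP z _ h1 i).trans ?_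
            rw [← mul_div_assoc, div_le_iff₀ hg]
            have h4 := mul_le_mul_of_nonneg_right (hpw' (K₁ + K₂) (by omega)) hε
            have h5 : 0 ≤ L ^ K₁ * L ^ K₂ * ε := by positivity
            rw [pow_add] at h4
            linarith
          rw [Set.indicator_of_mem (show z ∈ {z : fund D.l n → E3 | ∀ i, ‖z i‖ ≤ D.ζ} from hz)]
          obtain ⟨h1, h2⟩ := pw z hz
          refine le_trans (mul_le_mul_left (mul_le_mul_left
            ((if_pos hev).le.trans (hup _ (ext_per _ _ _ _) h1)) _) _)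
            (le_trans (h2 ((E + η) * (vo * (L * n) ^ 3))).le
              (ENNReal.ofReal_le_ofReal (Real.exp_le_exp.mpr ?_)))
          linarith [(abs_le.mp (hq z _ hz)).1]
        · exact le_trans (le_of_eq (mul_eq_zero_of_left
            (mul_eq_zero_of_left (if_neg hev) _) _)) zero_le
      · rw [actN_eq, card_fund, hc₀]
        push_cast
        linarith
    · by_cases hev : curvG ε (ext D.l n 1 u) ∧ noiseG D.l ε (ext D.l n 1 u) W
      · have h2 := ((geo1 _ W (ext_one_tree _) hev.1 hev.2).2 i).1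
        rw [hUs] at h2
        exact h2
      · exact absurd (mul_eq_zero_of_left (if_neg hev) _) hu

end

end Pool.Agent.Lib.MP_7f377f_mp.RG.D3.An
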