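import Pool.Agent.Lib.MP_7f377f_mp.R3LvZ
import Pool.Agent.Lib.MP_7f377f_mp.A3Step

/-! Tori with different sides. -/

noncomputable section

namespace Pool.Agent.Lib.MP_7f377f_mp.RG.D3.An

set_option linter.unusedSectionVars false

variable [Vol]

section
open D3.JC
open Finset MeasureTheory
open scoped Quaternion ENNReal Pointwise

attribute [local irreducible] box lbox

theorem wil_eq (n : ℕ) (U : Conf) :
    wil n U = 6 * (vo * n ^ 3) - ∑ x ∈ cube n, ∑ μ, ∑ ν, (1 - (hol Inv.inv U x μ ν).q.re) := by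
  have h : ∀ x, ∑ μ, ∑ ν, (if μ < ν then 2 * (hol Inv.inv U x μ ν).q.re else 0) =
      6 - ∑ μ, ∑ ν, (1 - (hol Inv.inv U x μ ν).q.re) := fun x => by
    have h1 : ∀ μ, (hol Inv.inv U x μ μ).q.re = 1 := fun μ => by
      simp [hol, S3.q_one]
    have h2 : ∀ μ ν, (hol Inv.inv U x μ ν).q.re = (hol Inv.inv U x ν μ).q.re := fun μ ν => by
      have : hol Inv.inv U x μ ν = (hol Inv.inv U x ν μ)⁻¹ := by simp only [hol]; group
      rw [this, S3.q_inv, Quaternion.re_star]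
    simp only [Fin.sum_univ_three, h1, h2 1 0, h2 2 0, h2 2 1]
    simp
    ring
  simp only [wil, h, sum_sub_distrib, sum_const, card_cube, nsmul_eq_mul]
  push_cast
  ring

theorem act_zero (β : ℝ) (n : ℕ) {δ : ℝ} {U : Conf} (h : curvG δ U) (hδ : 2000 * δ ≤ 1) :
    act β m0 (phi0 β) n U = 6 * β * (vo * n ^ 3) - β * wil n U := by
  rw [wil_eq, act, mul_sub, mul_sum]
  have : ∀ x, (β * cx m0 (Bx x (cC U)) (Bx x (cC U)) + phi0 β (Bx x (cC U))).re =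
      β * ∑ μ, ∑ ν, (1 - (hol Inv.inv U x μ ν).q.re) := fun x => by
    have h2 := (real_fix (R := 1) (curvG_sh h x) (by norm_num; linarith)).1
    have h3 : Bx x (cC U) = Bx 0 (cC (sh x U)) := by rw [SX.cC_sh, Bx_sh, zero_add]
    rw [phi0, add_sub_cancel, h3, cg_Bx]
    simp only [← hol_agr star h2, hol_cC, hol_gauge, cmb_zero, hol_sh]
    simp [cS]
  simp only [this]
  ring

theorem sum_cube_ge {n : ℕ} (hn : 0 < n) {f : St → ℝ} (hf : ∀ x v, f (x + (n : ℤ) • pv v) = f x)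
    (h0 : ∀ x, 0 ≤ f x) (x : St) : f x ≤ ∑ y ∈ cube n, f y := by
  rw [md_eq n x, hf]
  exact single_le_sum (fun y _ => h0 y) (md_mem hn x)

theorem wil_bad {n : ℕ} (hn : 0 < n) {δ : ℝ} (h0 : 0 ≤ δ) {U : Conf} (hU : Per n U)
    (h : ¬ curvG δ U) : wil n U ≤ 6 * (vo * n ^ 3) - δ ^ 2 / 2 := by
  simp only [curvG, not_forall, not_le] at h
  obtain ⟨x, μ, ν, h⟩ := h
  have p : ∀ g : S3, 0 ≤ 1 - g.q.re := fun g => by nlinarith [norm_sub_sq g]
  have h1 := sum_cube_ge hn (f := fun x => ∑ μ, ∑ ν, (1 - (hol Inv.inv U x μ ν).q.re))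
    (fun x v => by simp only [← hol_sh, hU.sh_smul])
    (fun x => sum_nonneg fun _ _ => sum_nonneg fun _ _ => p _) x
  have h2 := single_le_sum (f := fun μ => ∑ ν, (1 - (hol Inv.inv U x μ ν).q.re))
    (fun _ _ => sum_nonneg fun _ _ => p _) (mem_univ μ)
  have h3 := single_le_sum (f := fun ν => 1 - (hol Inv.inv U x μ ν).q.re) (fun _ _ => p _)
    (mem_univ ν)
  have h4 := norm_sub_sq (hol Inv.inv U x μ ν)
  rw [wil_eq]
  nlinarith

end

section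
open D3.JC
open Finset MeasureTheory
open scoped Quaternion ENNReal Pointwise

attribute [local irreducible] box lbox

theorem act_sub {β ρ κ δ : ℝ} (m : BF) {R : ℕ} {φ : Fld → ℂ} (hφ : Tm R ρ κ φ) (n : ℕ) {U : Conf}
    (h : curvG δ U) (h1 : 1000 * (R + 1) * δ ≤ 1) (h2 : δ + 10 ^ 6 * ((R + 1) * δ) ^ 2 ≤ ρ) :
    |act β m φ n U - β * ∑ x ∈ cube n, qd m U x| ≤ κ * (vo * n ^ 3) := by
  rw [act, mul_sum, ← sum_sub_distrib]
  refine (abs_sum_le_sum_abs _ _).trans ((sum_le_card_nsmul _ _ κ fun x _ => ?_).trans_eq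
    (by rw [card_cube, nsmul_eq_mul, mul_comm, Nat.cast_mul, Nat.cast_pow]))
  rw [Complex.add_re, Complex.re_ofReal_mul, qd, add_sub_cancel_left, Bx_eq, sh_cC]
  exact (Complex.abs_re_le_norm _).trans (hφ.bd _ ((real_fix (h.sh x) h1).2.2.mono le_rfl h2))

/-- the two sided bound on the densities `f`, `fG` on the torus of side `n` -/
def Sw (f fG : Conf → ℝ≥0∞) (β δ : ℝ) (n : ℕ) (E η : ℝ) (m : BF) (φ : Fld → ℂ) : Prop :=
  ∀ U, Per n U → curvG δ U →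
    ENNReal.ofReal (Real.exp ((E - η) * (vo * n ^ 3) - act β m φ n U)) ≤ f U ∧
      fG U ≤ ENNReal.ofReal (Real.exp ((E + η) * (vo * n ^ 3) - act β m φ n U))

end

section
open D3.JC
open Finset MeasureTheory
open scoped Quaternion ENNReal Pointwise

attribute [local irreducible] box lbox

variable {C v : ℕ} {ρ ρ' κ κ' : ℝ} {φ φ' : Fld → ℂ}

/-- one step maps two sided bounds with data `m`, `ψ` to two sided bounds with data `m'`, `ψ'` -/
def Stp (l K : ℕ) (β β' ε δ δ' er : ℝ) (m m' : BF) (ψ ψ' : Fld → ℂ) : Prop :=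
  ∃ e : ℝ, ∀ (E η : ℝ) (n : ℕ) (f fG : Conf → ℝ≥0∞), LL l ^ K ≤ n → GI (LL l * n) f →
    GI (LL l * n) fG → Sw f fG β δ (LL l * n) E η m ψ →
      Sw (TT l (β * LL l ^ 2) n f) (TG l (β * LL l ^ 2) ε n fG) β' δ' n (LL l ^ 3 * E + e)
        (LL l ^ 3 * η + er) m' ψ' ∧
      ∀ W, Per n W → ¬ curvG δ' W → TG l (β * LL l ^ 2) ε n fG W = 0

theorem lev_step (c : ℕ) : ∃ K : ℕ, 1 ≤ K ∧ ∀ (C v l p : ℕ) (β β' δ δ' ε G κ κ' τ er θ : ℝ) (m : BF)
    (s : V →ₗ[ℝ] V) (φ χ : Fld → ℂ), Num c K C v l p β δ δ' ε G κ κ' τ er → β = LL l * β' →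
    0 ≤ θ → θ ≤ 3 → Lin l (v ^ 3) c τ m s → Rng (3 * v ^ 3) (3 * v ^ 3) m →
    Bd (3 * v ^ 3) (3 * v ^ 3) ((LL l : ℝ) ^ c) m → Cl C (v + 1) (2 * δ) κ φ →
    Cl C (v + 1) (2 * δ) (θ * κ) χ → ∃ φ' χ', Cl C v (2 * δ') κ' φ' ∧
      Cl C v (2 * δ') (θ / 2 * κ') χ' ∧ Stp l K β β' ε δ δ' er m (mr l m s) φ φ' ∧
      Stp l K β β' ε δ δ' er m (mr l m s) (φ + χ) (φ' + χ') := by
  obtain ⟨K1, hpush⟩ := push_tm c
  obtain ⟨K2, hfresh⟩ := fresh_tm c
  obtain ⟨K3, hstep⟩ := step c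
  obtain ⟨K4, hlip⟩ := fresh_lip c
  obtain ⟨K, k1, k2, k3, k4, k5⟩ : ∃ K, K1 ≤ K ∧ K2 ≤ K ∧ K3 ≤ K ∧ K4 ≤ K ∧ 3 ≤ K :=
    ⟨K1 + K2 + K3 + K4 + 3, by omega, by omega, by omega, by omega, by omega⟩
  refine ⟨K, by omega, ?_⟩
  intro C v l p β β' δ δ' ε G κ κ' τ er θ m s φ χ N hβ θ0 θ3 lin rng bd hφ hχ
  set L : ℝ := ((LL l : ℕ) : ℝ) with hL
  have L2 : 1 ≤ L := one_le_LL l
  have b1 := N.b1
  have b0 : 0 < β := zero_lt_one.trans_le b1
  have d0 := N.d0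
  have d1 := N.d1
  have κ0 := N.k0
  have τ0 := N.t0
  have Lp : ∀ a ≤ K, ∀ x, 0 ≤ x → L ^ a * x ≤ L ^ K * x := fun a ha x hx =>
    mul_le_mul_of_nonneg_right (pow_le_pow_right₀ L2 ha) hx
  have sq : 0 < √(2 * β * L ^ (c + 1)) := Real.sqrt_pos.2 (by positivity)
  have G0 : 0 < G := pos_of_mul_pos_right (a := √(2 * β * L ^ (c + 1)))
    (by rw [mul_comm]; exact zero_lt_one.trans_le N.z1) sq.le
  have κ1 : 0 ≤ κ' := le_trans (by positivity) N.ka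
  have l0 := pow_pos (la_pos v) C
  set κs := 4 * ((C : ℝ) + 1) * κ with hκs
  set ds := 3 * (rk v C : ℝ) * (2 * δ') with hds
  let D : (Fld → ℂ) → Dat := fun ψ => ⟨l, v ^ 3, β, m, s, ψ, L ^ (c + 1), LL l ^ (2 * c + 4),
    G * √(2 * β * L ^ (c + 1)),
    p * (2 * (rk (v + 1) C / LL l + 4 * LL l ^ (2 * c + 4) + v ^ 3 + 10) + 1)⟩
  have gz : ∀ ψ, (D ψ).g * (D ψ).ζ = G := fun ψ => by
    rw [Dat.g, mul_left_comm, inv_mul_cancel₀ sq.ne', mul_one]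
  have rb : ∀ ψ, (D ψ).Rb + (D ψ).Rs (rk (v + 1) C) + 2 ≤ rk v C := fun ψ =>
    le_trans (le_of_eq (by simp only [D, Dat.Rs]; ring)) N.rb
  have hN : ∀ k ≤ C, rk v k ≤ LL l ^ (12 * c + 30) ∧ rk (v + 1) k ≤ LL l ^ (12 * c + 30) :=
    fun k hk => ⟨(rk_succ v k).trans ((rk_mono _ hk).trans N.rad), (rk_mono _ hk).trans N.rad⟩
  have ok : ∀ ψ, Tm (rk (v + 1) C) (2 * δ) κs ψ → (D ψ).Ok c τ (rk (v + 1) C) (2 * δ) κs :=
    fun ψ hψ =>
    { lin := lin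
      m_rng := rng
      m_bd := bd
      m_gauge := fun u b => ⟨lin.gauge u b, (lin.symm _ _).trans (lin.gauge u b)⟩
      psi := hψ
      lam := rfl
      num := rfl
      r_ge := Nat.pow_le_pow_left (show 10 ≤ v by have := N.v1; omega) 3
      r_le := N.r2
      beta := b1
      rad := N.rad
      radb := (Nat.le_of_add_right_le (Nat.le_of_add_right_le (rb ψ))).trans (hN C le_rfl).1
      zeta := N.z1
      tau := τ0
      rho := by positivity }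
  have t0 : ∀ ψ, ∀ a ≤ K, (D ψ).th0 a τ (2 * δ) (2 * δ') κs ds + L ^ a * (2 * δ') ≤
      κ' * la v ^ C / 40 := fun ψ a ha => by
    rw [Dat.th0, gz, ← mul_add]
    exact (Lp a ha _ (by positivity)).trans N.th
  have t00 : ∀ ψ a, 0 ≤ (D ψ).th0 a τ (2 * δ) (2 * δ') κs ds := fun ψ a => by
    rw [Dat.th0, gz]
    show 0 ≤ L ^ a * (β * _ + β * _ * _ * _ + _ + _)
    positivity
  have t1 : ∀ ψ, ∀ a ≤ K,
      (2 * (D ψ).Rb + 1) ^ 3 * (D ψ).th0 a τ (2 * δ) (2 * δ') κs ds ≤ 1 / 100 := fun ψ a ha => by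
    have h1 : ((D ψ).Rb : ℝ) ≤ rk v C :=
      Nat.cast_le.2 (Nat.le_of_add_right_le (Nat.le_of_add_right_le (rb ψ)))
    have h2 : (D ψ).th0 a τ (2 * δ) (2 * δ') κs ds ≤ κ' / 40 := by
      have := t0 ψ a ha
      have := mul_le_of_le_one_right κ1 (la_pow_le v C)
      have : 0 ≤ L ^ a * (2 * δ') := by positivity
      linarith
    have h3 := mul_le_mul (pow_le_pow_left₀ (by positivity)
      (show 2 * ((D ψ).Rb : ℝ) + 1 ≤ 2 * rk v C + 1 by linarith) 3) h2 (t00 ψ a) (by positivity)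
    linarith [N.th2]
  have ρ0 : 0 < 2 * δ' := by positivity
  have s0 : 2 * δ' ≤ √L * (2 * δ) := by linarith [N.s0]
  have s1 : ∀ a ≤ K, L ^ a * (2 * δ') ≤ 1 := fun a ha => (Lp a ha _ ρ0.le).trans N.s1
  have s3 : ∀ a ≤ K, L ^ a * (2 * δ') ^ 2 ≤ δ := fun a ha => (Lp a ha _ (by positivity)).trans N.s3
  have s4 : ∀ ψ, ∀ a ≤ K, L ^ a * ((D ψ).g * (D ψ).ζ) ≤ δ := fun ψ a ha => by
    rw [gz]; exact (Lp a ha _ G0.le).trans N.s4
  have s5 : ∀ ψ, ∀ a ≤ K, L ^ a * ((D ψ).g * (D ψ).ζ) ≤ δ' := fun ψ a ha => by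
    rw [gz]; exact (Lp a ha _ G0.le).trans N.s5
  have dd : δ ≤ 2 * δ := by linarith
  have dd' : δ' ≤ 2 * δ' := by linarith
  have tφ : Tm (rk (v + 1) C) (2 * δ) κs φ := (hφ.tm κ0).mono le_rfl (by
    have : 0 ≤ ((C : ℝ) + 1) * κ := by positivity
    linarith)
  have tχ := hχ.tm (mul_nonneg θ0 κ0)
  have tψ : Tm (rk (v + 1) C) (2 * δ) κs (φ + χ) := ((hφ.tm κ0).add tχ).mono le_rfl (by
    have := mul_le_mul_of_nonneg_right θ3 (show 0 ≤ ((C : ℝ) + 1) * κ by positivity)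
    linarith)
  replace hpush := hpush (D φ) _ τ _ _ (2 * δ') (ok φ tφ) (k1.trans N.Kl) ρ0 (s1 _ k1)
    ((s3 _ k1).trans dd) s0
  obtain ⟨φp, p1, p2⟩ := hφ.push κ0 rfl N.v1 N.L1 N.L2 hN hpush
  obtain ⟨χp, q1, q2⟩ := hχ.push (mul_nonneg θ0 κ0) rfl N.v1 N.L1 N.L2 hN hpush
  have fr := fun ψ hψ => hfresh (D ψ) _ (rk v C) τ _ _ (2 * δ') (ok ψ hψ) (k2.trans N.Kl) (rb ψ)
    (hN C le_rfl).1 ρ0 s0 (s1 _ k2) ((s3 _ k2).trans dd) ((s4 ψ _ k2).trans dd)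
    ((s5 ψ _ k2).trans dd') (t1 ψ _ k2)
  have lip := hlip (D (φ + χ)) _ (rk v C) τ _ _ (2 * δ') (ok _ tψ) (k4.trans N.Kl) (rb _)
    (hN C le_rfl).1 ρ0 s0 (s1 _ k4) ((s3 _ k4).trans dd) ((s4 _ _ k4).trans dd)
    ((s5 _ _ k4).trans dd') (t1 _ _ k4) φ _ tφ (by
      rw [show (D (φ + χ)).ψ - φ = χ from add_sub_cancel_left φ χ]; exact tχ)
  have one : ∀ ψ ψp : Fld → ℂ, Tm (rk (v + 1) C) (2 * δ) κs ψ → (∀ W : Conf, curvG (2 * δ' / 2) W →
      ψp (Bx 0 (cC W)) = ∑ x ∈ box l, ψ (Bx x ((D φ).Us (cC W)))) →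
      Stp l K β β' ε δ δ' er m (mr l m s) ψ (ψp + (D ψ).fresh (rk v C)) := by
    intro ψ ψp hψ hp
    have e0 := N.e0
    obtain ⟨e, he⟩ := hstep (D ψ) _ (rk v C) τ _ _ (2 * δ') (ok ψ hψ) (k3.trans N.Kl) (rb ψ)
      (hN C le_rfl).1 ρ0 s0 (s1 _ k3) ((s3 _ k3).trans dd) ((s4 ψ _ k3).trans dd)
      ((s5 ψ _ k3).trans dd') (t1 ψ _ k3) p ε δ δ' le_rfl le_rfl ((Lp _ k3 _ d0.le).trans N.s2)
      (le_trans (mul_le_mul_of_nonneg_left (pow_le_pow_left₀ d1.le dd' 2) (by positivity))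
        (s3 _ k3)) N.s0 (s4 ψ _ k3) (by rw [gz]; exact (Lp _ k3 _ e0).trans N.s6)
      ((Lp _ k5 _ e0).trans (N.s6.trans ((le_mul_of_one_le_left G0.le (one_le_pow₀ L2)).trans
        N.s5))) e0
    set w := ((D ψ).wt 1 - (D ψ).dt 1).re with hw
    have act1 : ∀ n (W : Conf), curvG δ' W → actN (D ψ) n W =
        act β' (mr l m s) (ψp + (D ψ).fresh (rk v C)) n W + w * (vo * n ^ 3) := by
      intro n W hW
      rw [actN, act, ← Nat.cast_pow, ← Nat.cast_mul, ← card_cube, mul_comm w, ← nsmul_eq_mul, ← sum_const,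
        ← sum_add_distrib]
      refine sum_congr rfl fun y _ => ?_
      have h1 : curvG (2 * δ' / 2) (sh y W) := (hW.sh y).mono (by linarith)
      rw [hw, ← Complex.add_re, Pi.add_apply, Bx_eq y, sh_cC, hp _ h1, ((fr ψ hψ).2 _ h1).1, mr,
        cx_smul]
      congr 1
      show (β : ℂ) * cx (mn l m s) _ _ + ∑ x ∈ box l, ψ (Bx x ((D φ).Us _)) + _ - _ = _
      rw [hβ, hL]
      push_cast
      ring
    refine ⟨e - w, fun E η n f fG hn g1 g2 sw => ?_⟩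
    replace he := he E η n f fG ((Nat.pow_le_pow_right (LL_pos l) k3).trans hn) g1 g2
      (fun U hU h => by simpa only [Nat.cast_mul] using (sw U hU h).1)
      (fun U hU h => by simpa only [Nat.cast_mul] using (sw U hU h).2)
    refine ⟨fun W hW h => ?_, fun W hW h => (he W hW).1 h⟩
    obtain ⟨g3, g4⟩ := (he W hW).2 h
    rw [act1 n W h] at g3 g4
    have h3 := mul_le_mul_of_nonneg_right N.er (show (0 : ℝ) ≤ vo * n ^ 3 by positivity)
    simp only [D, ← hL] at g3 g4 h3 ⊢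
    exact ⟨le_trans (ENNReal.ofReal_le_ofReal (Real.exp_le_exp.2 (by linarith only [h3]))) g3,
      g4.trans (ENNReal.ofReal_le_ofReal (Real.exp_le_exp.2 (by linarith only [h3])))⟩
  refine ⟨φp + (D φ).fresh (rk v C), χp + ((D (φ + χ)).fresh (rk v C) - (D φ).fresh (rk v C)),
    (p1.add (Cl.one (κ := κ' / 4) le_rfl (by positivity) ((fr φ tφ).1.mono le_rfl ?_))).mono ?_,
    (q1.add (Cl.one (κ := θ * κ' / 4) le_rfl (by positivity) (lip.mono le_rfl ?_))).mono ?_,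
    one φ φp tφ p2, ?_⟩
  · have h1 := t0 φ _ k2
    have h2 : 0 ≤ L ^ K2 * (2 * δ') := by positivity
    show 10 * _ + L ^ K2 * _ ≤ _
    linarith only [h1, h2]
  · linarith only [N.ka, κ1]
  · have h1 := t0 φ _ k4
    rw [Dat.th0, gz] at h1
    rw [gz]
    have h2 : L ^ K4 * (κs * (G + ds ^ 2) / (2 * δ)) ≤ κ' * la v ^ C := by
      have h3 : 0 ≤ L ^ K4 * (β * ds ^ 3 + β * τ * (2 * δ') * G + G ^ 2 + 2 * δ') := by positivity
      have h4 : 0 ≤ κ' * la v ^ C := by positivity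
      change L ^ K4 * (β * _ + β * _ * _ * _ + _ + _) + _ ≤ _ at h1
      linarith only [h1, h3, h4]
    refine le_trans (le_of_eq ?_) ((mul_le_mul_of_nonneg_left h2
      (show 0 ≤ θ / 4 by positivity)).trans_eq (by ring))
    show L ^ K4 * _ * _ / _ = _
    rw [hκs]
    ring
  · linarith only [mul_le_mul_of_nonneg_left N.ka θ0]
  · have := one (φ + χ) (φp + χp) tψ fun W hW => by
      rw [Pi.add_apply, p2 W hW, q2 W hW, ← sum_add_distrib]
      rfl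
    convert this using 1
    abel

end

section
open D3.JC
open Finset MeasureTheory
open scoped Quaternion ENNReal Pointwise
open D3.Pv (sz sz_succ bq_eq aq_eq nn_pos nn_succ LL_succ)

attribute [local irreducible] box lbox

/-- the invariant of a run after `i` steps -/
def Run (K : ℕ) (γ : ℝ) (a b J l i : ℕ) (m : BF) (φ : Fld → ℂ) : Prop :=
  ∃ E η : ℝ, 0 ≤ η ∧ η * (sz J l i : ℝ) ^ 3 ≤ 2 * 2⁻¹ ^ (J + 1 - i) ∧ ∀ n, MM K J i ≤ n →
    Sw (rr γ J l i n) (rG γ a J l i n) (bq γ J l i) (dl b (J + 1 - i) (bq γ J l i)) n E η m φ ∧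
    ∀ U, Per n U → ¬ curvG (dl b (J + 1 - i) (bq γ J l i)) U → rG γ a J l i n U ≤
      if i = 0 then ENNReal.ofReal (Real.exp (E * (vo * n ^ 3) -
        bq γ J l i * (dl b (J + 1 - i) (bq γ J l i) ^ 2 / 2))) else 0

variable {K a b J l i v : ℕ} {γ : ℝ} {m m' : BF} {φ φ' : Fld → ℂ}

theorem Run.zero (b0 : 0 ≤ bq γ J l 0) (d0 : 0 ≤ dl b (J + 1) (bq γ J l 0))
    (d1 : 2000 * dl b (J + 1) (bq γ J l 0) ≤ 1) : Run K γ a b J l 0 m0 (phi0 (bq γ J l 0)) := by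
  refine ⟨6 * bq γ J l 0, 0, le_rfl, by rw [zero_mul]; positivity, fun n hn =>
    ⟨fun U _ h => ?_, fun U hU h => ?_⟩⟩
  · rw [act_zero _ n h d1]
    constructor <;> exact ENNReal.ofReal_le_ofReal (Real.exp_le_exp.2 (by linarith))
  · have := mul_le_mul_of_nonneg_left (wil_bad ((MM_pos _ _ _).trans_le hn) d0 hU h) b0
    exact ENNReal.ofReal_le_ofReal (Real.exp_le_exp.2 (by rw [Nat.sub_zero]; linarith))

theorem Run.step (h : Run K γ a b J l i m φ) (hA : Adm J l) (hv : v + i = J) (K1 : 1 ≤ K)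
    (h9 : 9 ^ (3 * K) ≤ LL (ll v)) {β : ℝ} (hβ : β = bq γ J l i)
    (hs : Stp (lq J l i) K β (γ * nn v) (dl a (v + 1) β) (dl b (v + 1) β) (dl b v (γ * nn v))
      (2⁻¹ ^ v / (nn v : ℝ) ^ 3) m m' φ φ') : Run K γ a b J l (i + 1) m' φ' := by
  obtain ⟨E, η, η0, η1, h⟩ := h
  obtain ⟨e, he⟩ := hs
  obtain ⟨l1, l2⟩ := lq_bd hA hv
  have e1 : J + 1 - i = v + 1 := by omega
  have e2 : J + 1 - (i + 1) = v := by omega
  have n0 : (0 : ℝ) < nn v := by exact_mod_cast nn_pos v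
  rw [e1, ← hβ] at h
  rw [e1, sz_succ (by omega), show J - i = v by omega] at η1
  refine ⟨LL (lq J l i) ^ 3 * E + e, LL (lq J l i) ^ 3 * η + 2⁻¹ ^ v / (nn v : ℝ) ^ 3,
    by positivity, ?_, fun n hn => ?_⟩
  · rw [sz, if_neg i.succ_ne_zero, e2, add_mul, div_mul_cancel₀ _ (by positivity)]
    rw [pow_succ 2⁻¹, Nat.cast_mul, mul_pow] at η1
    linarith
  · rw [MM, if_neg i.succ_ne_zero, e2] at hn
    have n1 : MM K J i ≤ LL (lq J l i) * n := by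
      refine le_trans ?_ (Nat.mul_le_mul (h9.trans l1) hn)
      rw [← mul_pow, ← LL_succ, MM, e1]
      split_ifs
      · refine le_trans ?_ (Nat.pow_le_pow_right (LL_pos _) (show 3 ≤ 3 * K by omega))
        rw [LL_succ]
        exact Nat.pow_le_pow_left (show 3 ≤ 9 * LL (ll v) by have := LL_pos (ll v); omega) 3
      · exact le_rfl
    have := he E η n _ _ (((Nat.pow_le_pow_left l2 K).trans_eq (pow_mul _ _ _).symm).trans hn)
      (GI_rho _ _ (ep γ a J l) _ i _).1 (GI_rho _ _ (ep γ a J l) _ i _).2 (h _ n1).1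
    rw [e2, bq_succ γ l hv, if_neg i.succ_ne_zero]
    have e3 : aq γ J l i = β * LL (lq J l i) ^ 2 := by rw [aq_eq γ (by omega), hβ, bq_eq]
    have e4 : ep γ a J l i = dl a (v + 1) β := by rw [ep, e1, hβ, dl]
    rw [← e3, ← e4] at this
    exact ⟨this.1, fun U hU hc => (this.2 U hU hc).le⟩

theorem Run.switch (h : Run K γ a b J l i m φ) (m' : BF) : Run K γ a b J l i m'
    (φ + fun B => bq γ J l i * cx m B B - bq γ J l i * cx m' B B) := by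
  obtain ⟨E, η, η0, η1, h⟩ := h
  refine ⟨E, η, η0, η1, fun n hn => ⟨fun U hU hc => ?_, (h n hn).2⟩⟩
  convert (h n hn).1 U hU hc using 5 <;>
    exact sum_congr rfl fun x _ => congrArg Complex.re (by simp only [Pi.add_apply]; ring)

theorem jcore (hN : NumMain) (hT : NumTop) : ∃ (C K : ℕ) (M : ℕ → ℕ → ℕ → BF), ∀ a ≥ 1, ∃ b ≥ a + 1,
    ∀ γ > 0, ∃ j0 : ℕ, (∀ J l, Adm J l → ∀ i w, j0 ≤ w → w + i = J + 1 →
      (∃ n, Inv n (w ^ 3) 3 1 (M J l i)) ∧ ∃ φ, Cl C w (2 * dl b w (bq γ J l i)) (kp (bq γ J l i)) φ ∧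
        Run K γ a b J l i (M J l i) φ) ∧
    ∀ j ≥ j0, ∀ θ > 0, ∃ J0, j ≤ J0 ∧ ∀ J l J' l', J0 ≤ J → J0 ≤ J' → Adm J l → Adm J' l' → ∃ m φ χ,
      Cl C j (2 * dl b j (γ * nn j)) θ χ ∧ Run K γ a b J l (J + 1 - j) m φ ∧
        Run K γ a b J' l' (J' + 1 - j) m (φ + χ) := by
  obtain ⟨c, c1, M, S, j1, hM, hD⟩ := lin_chain
  obtain ⟨K, K1, hS⟩ := lev_step c
  refine ⟨12 * c + 26, K, M, fun a ha => ?_⟩
  obtain ⟨b0, hb⟩ := hN c K a c1
  refine ⟨b0 + a + 1, by omega, fun γ hγ => ?_⟩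
  obtain ⟨j2, h2⟩ := hb (b0 + a + 1) (by omega) γ hγ
  obtain ⟨j3, h3⟩ := hT (12 * c + 26) (3 * K) 0 0 a (b0 + a + 1) 1 ha (by omega) γ hγ
  generalize b0 + a + 1 = b at h2 h3 ⊢
  generalize 12 * c + 26 = C at h2 h3 ⊢
  have t0 : ∀ w ≥ j3, Top C (3 * K) 0 0 w 1 (γ * nn w) (dl b w (γ * nn w)) (dl a w (γ * nn w))
      (kp (γ * nn w)) := fun w hw => h3 w hw _ le_rfl
    (le_mul_of_one_le_right (by positivity) (one_le_pow₀ (one_le_LL _)))
  have stp : ∀ J l, Adm J l → ∀ i v, j1 + j2 + j3 + 1 ≤ v → v + i = J → ∀ (θ β : ℝ) φ χ,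
      β = bq γ J l i → 0 ≤ θ →
      θ ≤ 3 → Cl C (v + 1) (2 * dl b (v + 1) β) (kp β) φ →
      Cl C (v + 1) (2 * dl b (v + 1) β) (θ * kp β) χ → ∃ φ' χ',
        Cl C v (2 * dl b v (γ * nn v)) (kp (γ * nn v)) φ' ∧
        Cl C v (2 * dl b v (γ * nn v)) (θ / 2 * kp (γ * nn v)) χ' ∧
        Stp (lq J l i) K β (γ * nn v) (dl a (v + 1) β) (dl b (v + 1) β) (dl b v (γ * nn v))
          (2⁻¹ ^ v / (nn v : ℝ) ^ 3) (M J l i) (M J l (i + 1)) φ φ' ∧
        Stp (lq J l i) K β (γ * nn v) (dl a (v + 1) β) (dl b (v + 1) β) (dl b v (γ * nn v))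
          (2⁻¹ ^ v / (nn v : ℝ) ^ 3) (M J l i) (M J l (i + 1)) (φ + χ) (φ' + χ') := by
    intro J l hA i v hv hJ θ β φ χ hβ θ0 θ3 hφ hχ
    obtain ⟨l1, l2⟩ := lq_bd hA hJ
    obtain ⟨m1, m2, ⟨_, m3⟩, m4, -⟩ := (hM J l hA).2 i v (by omega) hJ
    rw [bq_lq γ l hJ] at hβ
    rw [m2]
    subst hβ
    exact hS _ _ _ _ _ _ _ _ _ _ _ _ _ _ θ _ _ φ χ (h2 v (by omega) _ l1 l2) (by ring) θ0 θ3 m1 m3.rng
      m4 hφ hχ
  have inv : ∀ J l, Adm J l → ∀ i w, j1 + j2 + j3 + 1 ≤ w → w + i = J + 1 →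
      ∃ n, Inv n (w ^ 3) 3 1 (M J l i) := fun J l hA i w hw hJ => by
    rcases i with _ | i
    · rw [(hM J l hA).1]
      exact ⟨0, inv_mono (inv_zero _ (Nat.one_le_pow _ _ (by omega))) le_rfl (by norm_num)
        (by norm_num)⟩
    · exact ((hM J l hA).2 i w (by omega) (by omega)).2.2.2.2
  have all : ∀ J l, Adm J l → ∀ i w, j1 + j2 + j3 + 1 ≤ w → w + i = J + 1 →
      ∃ φ, Cl C w (2 * dl b w (bq γ J l i)) (kp (bq γ J l i)) φ ∧
        Run K γ a b J l i (M J l i) φ := fun J l hA i => by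
    induction i with
    | zero =>
      intro w hw hJ
      obtain ⟨g1, g2⟩ := bq_bd hγ hA hJ (by omega)
      have T := h3 w (by omega) _ g1 g2
      obtain rfl : w = J + 1 := hJ
      have b0 := zero_le_one.trans T.b1
      rw [(hM J l hA).1]
      exact ⟨_, Cl.low T.k0.le ((phi0_tm b0 T.z1 (Nat.one_le_pow _ _ (by omega))).mono le_rfl T.z2),
        Run.zero b0 T.d0.le (by linarith [T.z1, T.d0])⟩
    | succ i ih =>
      intro w hw hJ
      obtain ⟨φ, p1, p2⟩ := ih (w + 1) (by omega) (by omega)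
      obtain ⟨φ', -, q1, -, q2, -⟩ := stp J l hA i w hw (by omega) 0 _ φ 0 rfl le_rfl (by norm_num) p1
        (Cl.low (by simp) (tm_zero _ _ (by simp)))
      rw [bq_succ γ l (show w + i = J by omega)]
      exact ⟨φ', q1, p2.step hA (by omega) K1 (t0 w (by omega)).m2 rfl q2⟩
  refine ⟨j1 + j2 + j3 + 1, fun J l hA i w hw hJ => ⟨inv J l hA i w hw hJ, all J l hA i w hw hJ⟩,
    fun j hj θ hθ => ?_⟩
  obtain ⟨j4, h4⟩ := hD 2
  have k0 := (t0 j (by omega)).k0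
  obtain ⟨k, hk⟩ := exists_pow_lt_of_lt_one (show 0 < θ / (3 * kp (γ * nn j)) by positivity)
    (show (2⁻¹ : ℝ) < 1 by norm_num)
  obtain ⟨J0, hJ0⟩ := h4 (j + (k + j4)) (by omega)
  refine ⟨J0 + (j + (k + j4)), by omega, fun J l J' l' hJ hJ' hA hA' => ?_⟩
  have bb : ∀ J l w, w ≤ J → bq γ J l (J + 1 - w) = γ * nn w := fun J l w h => by
    rw [show J + 1 - w = J - w + 1 by omega, bq_succ γ l (show w + (J - w) = J by omega)]
  have key : ∀ t w, w + t = j + (k + j4) → j ≤ w → ∃ φ χ,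
      Cl C w (2 * dl b w (γ * nn w)) (kp (γ * nn w)) φ ∧
      Cl C w (2 * dl b w (γ * nn w)) (3 * 2⁻¹ ^ t * kp (γ * nn w)) χ ∧
      Run K γ a b J l (J + 1 - w) (M J l (J + 1 - w)) φ ∧
      Run K γ a b J' l' (J' + 1 - w) (M J l (J + 1 - w)) (φ + χ) := by
    intro t
    induction t with
    | zero =>
      intro w hw hj'
      obtain rfl : w = j + (k + j4) := hw
      generalize j + (k + j4) = w at *
      obtain ⟨φ, p1, p2⟩ := all J l hA (J + 1 - w) w (by omega) (by omega)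
      obtain ⟨φ', q1, q2⟩ := all J' l' hA' (J' + 1 - w) w (by omega) (by omega)
      obtain ⟨_, i1⟩ := inv J l hA (J + 1 - w) w (by omega) (by omega)
      obtain ⟨_, i2⟩ := inv J' l' hA' (J' + 1 - w) w (by omega) (by omega)
      have T := t0 w (by omega)
      have q3 := q2.switch (M J l (J + 1 - w))
      rw [bb J l w (by omega)] at p1
      rw [bb J' l' w (by omega)] at q1 q3
      have q4 := Cl.low (C := C) T.k0.le ((tm_quad i1.symm i2.symm i1.rng i2.rng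
        (hJ0 J l J' l' (by omega) (by omega) hA hA') (zero_le_one.trans T.b1)).mono le_rfl T.q1)
      refine ⟨φ, _, p1, ((q1.add q4.neg).add p1.neg).mono (le_of_eq (by ring)), p2, ?_⟩
      convert q3 using 1
      funext B
      simp only [Pi.add_apply, Pi.neg_apply]
      ring
    | succ t ih =>
      intro w hw hj'
      obtain ⟨φ, χ, p1, p2, p3, p4⟩ := ih (w + 1) (by omega) (by omega)
      have e : ∀ J, w ≤ J → J + 1 - (w + 1) = J - w ∧ J + 1 - w = J - w + 1 := fun J h => by omega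
      have e' : ∀ J l, w < J → lq J l (J - w) = ll w ∧ γ * nn (w + 1) = bq γ J l (J - w) :=
        fun J l h => ⟨by rw [lq, if_neg (by omega), show J - (J - w) = w by omega], by
          rw [← bb J l (w + 1) h, (e J h.le).1]⟩
      obtain ⟨φ', χ', q1, q2, q3, q4⟩ := stp J l hA (J - w) w (by omega) (by omega) _ _ φ χ
        (e' J l (by omega)).2 (by positivity) (mul_le_of_le_one_right (by norm_num)
          (pow_le_one₀ (by norm_num) (by norm_num))) p1 p2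
      rw [(e J (by omega)).1] at p3 p4
      rw [(e J' (by omega)).1] at p4
      rw [(e J (by omega)).2, (e J' (by omega)).2]
      refine ⟨φ', χ', q1, q2.mono (le_of_eq (by ring)), p3.step hA (by omega) K1
        (t0 w (by omega)).m2 (e' J l (by omega)).2 q3, p4.step hA' (by omega) K1
        (t0 w (by omega)).m2 (e' J' l' (by omega)).2 ?_⟩
      rwa [(e' J l (by omega)).1, ← (e' J' l' (by omega)).1] at q4
  obtain ⟨φ, χ, -, p2, p3, p4⟩ := key (k + j4) j rfl le_rfl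
  refine ⟨_, φ, χ, p2.mono ?_, p3, p4⟩
  have : (2⁻¹ : ℝ) ^ (k + j4) ≤ 2⁻¹ ^ k := pow_le_pow_of_le_one (by norm_num) (by norm_num) (by omega)
  rw [lt_div_iff₀ (by positivity)] at hk
  nlinarith

theorem Run.top {j : ℕ} (h : Run K γ a b J l (J + 1 - j) m φ) (hj : j ≤ J)
    (hn : LL (ll j) ^ (3 * K) ≤ nn j) : ∃ E : ℝ, ∀ U, Per (nn j) U →
      (curvG (dl b j (γ * nn j)) U →
        ENNReal.ofReal (Real.exp (E - vo * (2 * 2⁻¹ ^ j) - act (γ * nn j) m φ (nn j) U)) ≤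
          rr γ J l (J + 1 - j) (nn j) U ∧
        rG γ a J l (J + 1 - j) (nn j) U ≤
          ENNReal.ofReal (Real.exp (E + vo * (2 * 2⁻¹ ^ j) - act (γ * nn j) m φ (nn j) U))) ∧
      (¬ curvG (dl b j (γ * nn j)) U → rG γ a J l (J + 1 - j) (nn j) U = 0) := by
  obtain ⟨E, η, -, η1, h⟩ := h
  have i0 : J + 1 - j ≠ 0 := by omega
  have e1 : J + 1 - (J + 1 - j) = j := by omega
  have e2 : bq γ J l (J + 1 - j) = γ * nn j := by rw [bq, if_neg i0, e1]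
  replace h := h (nn j) (by rwa [MM, if_neg i0, e1])
  rw [sz, if_neg i0, e1] at η1
  rw [e1, e2, if_neg i0] at h
  refine ⟨E * (vo * (nn j : ℝ) ^ 3), fun U hU =>
    ⟨fun hc => ?_, fun hc => le_zero_iff.1 (h.2 U hU hc)⟩⟩
  obtain ⟨g1, g2⟩ := h.1 U hU hc
  have η2 := mul_le_mul_of_nonneg_left η1 (Nat.cast_nonneg (α := ℝ) vo)
  exact ⟨le_trans (ENNReal.ofReal_le_ofReal (Real.exp_le_exp.2 (by linarith))) g1,
    g2.trans (ENNReal.ofReal_le_ofReal (Real.exp_le_exp.2 (by linarith)))⟩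

theorem pair_of (hN : NumMain) (hT : NumTop) : ∃ a0 : ℕ, ∀ a ≥ a0, ∀ γ > 0, ∀ η > 0, ∃ j0 : ℕ,
    ∀ j ≥ j0, ∃ J0 : ℕ,
    ∀ J l J' l', J0 ≤ J → J0 ≤ J' → Adm J l → Adm J' l' → ∃ t t' : ℝ, 0 < t ∧ 0 < t' ∧
      1 - η ≤ t * t' ∧ ∀ U, Per (nn j) U →
        ENNReal.ofReal t * rG γ a J l (J + 1 - j) (nn j) U ≤ rr γ J' l' (J' + 1 - j) (nn j) U ∧
        ENNReal.ofReal t' * rG γ a J' l' (J' + 1 - j) (nn j) U ≤
          rr γ J l (J + 1 - j) (nn j) U := by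
  obtain ⟨C, K, M, h⟩ := jcore hN hT
  refine ⟨1, fun a ha γ hγ η hη => ?_⟩
  obtain ⟨b, hab, h⟩ := h a ha
  obtain ⟨j1, -, h⟩ := h γ hγ
  obtain ⟨j2, h2⟩ := hT C (3 * K) 0 0 a b 1 ha (by omega) γ hγ
  have v0 : (0 : ℝ) < vo := by exact_mod_cast vo_pos
  obtain ⟨j3, h3⟩ := half_small (show 0 < η / 16 / vo by positivity)
  refine ⟨j1 + j2 + j3, fun j hj => ?_⟩
  have n0 : (0 : ℝ) < nn j := by exact_mod_cast nn_pos j
  have θ0 : 0 < η / 4 / (vo * (nn j : ℝ) ^ 3) / (C + 1) := by positivity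
  obtain ⟨J0, hJ0, h⟩ := h j (by omega) _ θ0
  refine ⟨J0, fun J l J' l' hJ hJ' hA hA' => ?_⟩
  obtain ⟨m, φ, χ, p1, p2, p3⟩ := h J l J' l' hJ hJ' hA hA'
  have T := h2 j (by omega) _ le_rfl
    (le_mul_of_one_le_right (by positivity) (one_le_pow₀ (one_le_LL _)))
  obtain ⟨E, q⟩ := p2.top (by omega) T.m1
  obtain ⟨E', q'⟩ := p3.top (by omega) T.m1
  have h4 := (le_div_iff₀ v0).1 (h3 j (by omega))
  refine ⟨Real.exp (E' - E - η / 2), Real.exp (E - E' - η / 2), Real.exp_pos _, Real.exp_pos _,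
    ?_, fun U hU => ?_⟩
  · rw [← Real.exp_add]
    linarith [Real.add_one_le_exp (E' - E - η / 2 + (E - E' - η / 2))]
  by_cases hc : curvG (dl b j (γ * nn j)) U
  · have a1 := act_sub (β := 0) m (p1.tm θ0.le) (nn j) hc T.h3 T.h4
    have a2 : act (γ * nn j) m (φ + χ) (nn j) U =
        act (γ * nn j) m φ (nn j) U + act 0 m χ (nn j) U := by
      simp only [act, ← sum_add_distrib, ← Complex.add_re, Pi.add_apply]
      exact sum_congr rfl fun x _ => congrArg Complex.re (by push_cast; ring)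
    rw [zero_mul, sub_zero, mul_div_cancel₀ _ (by positivity), div_mul_cancel₀ _ (by positivity),
      abs_le] at a1
    obtain ⟨g1, g2⟩ := (q U hU).1 hc
    obtain ⟨g3, g4⟩ := (q' U hU).1 hc
    refine ⟨(mul_le_mul_right g2 _).trans (le_trans ?_ g3),
      (mul_le_mul_right g4 _).trans (le_trans ?_ g1)⟩ <;>
    · rw [← ENNReal.ofReal_mul (Real.exp_pos _).le, ← Real.exp_add]
      exact ENNReal.ofReal_le_ofReal (Real.exp_le_exp.2 (by linarith [a1.1, a1.2]))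
  · rw [(q U hU).2 hc, (q' U hU).2 hc, mul_zero, mul_zero]
    exact ⟨zero_le, zero_le⟩

end

end Pool.Agent.Lib.MP_7f377f_mp.RG.D3.An
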