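import Pool.Agent.Lib.MP_7f377f_mp.A3PMain
import Pool.Agent.Lib.MP_7f377f_mp.A3Defs

/-! Joint expectations on long tori in terms of the effective densities. -/

noncomputable section

namespace Pool.Agent.Lib.MP_7f377f_mp.RG.D3.An.Pb

open Finset MeasureTheory D3.Pv
open scoped Quaternion ENNReal
open RGP (lvl pcH cv BM)

set_option linter.unusedSectionVars false

variable [Vol]

theorem cont_per (n : ℕ) : Continuous fun U : Conf => per n U :=
  continuous_pi fun _ => continuous_apply _

theorem meas_ker (l : ℕ) (a : ℝ) (n : ℕ) :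
    Measurable fun p : Conf × Conf => ∏ b ∈ lcube n, hk a (p.1 b * (blk l p.2 b)⁻¹) :=
  Finset.measurable_fun_prod _ fun b _ => (Ms.meas_hk a).comp (meas_link l b)

theorem meas_wil (n : ℕ) : Measurable (wil n) := by
  refine Finset.measurable_fun_sum _ fun x _ => Finset.measurable_fun_sum _ fun μ _ =>
    Finset.measurable_fun_sum _ fun ν _ => ?_
  split_ifs
  · exact (Ms.meas_re.comp (cont_hol x μ ν).measurable).const_mul 2
  · exact measurable_const

theorem pc_sd (n : ℕ) (U : Conf) : RGP.pc (sd n) U = per n U := rfl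

theorem BW_wpot (β : ℝ) {n : ℕ} (hn : 0 < n) (U : Conf) :
    RGP.BW (wpot β) (sd n) (RGP.pc (sd n) U) = Real.exp (β * wil n (per n U)) := by
  simp only [RGP.BW, act_T0, sum_wpotN β (sd_pos hn)]
  rfl


variable (l : ℕ → ℕ) (a ε : ℕ → ℝ) (β : ℝ)

/-- joint density -/
def RR (n : ℕ → ℕ) (j : ℕ) (w : Hs) : ℝ≥0∞ :=
  ENNReal.ofReal (Real.exp (β * wil (n 0) (lvl w 0))) * ∏ i ∈ range j, ∏ b ∈ lcube (n (i + 1)),
    hk (a i) (lvl w (i + 1) b * (blk (l i) (lvl w i) b)⁻¹)

theorem meas_RR (n : ℕ → ℕ) (j : ℕ) : Measurable (RR l a β n j) := by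
  have h1 : Measurable fun w : Hs => wil (n 0) (lvl w 0) :=
    (meas_wil _).comp (RGP.measurable_lvl 0)
  refine Measurable.mul (h1.const_mul β).exp.ennreal_ofReal
    (Finset.measurable_fun_prod _ fun i _ => Finset.measurable_fun_prod _ fun b _ => ?_)
  have h2 : Measurable fun w : Hs => blk (l i) (lvl w i) :=
    (meas_blk _).comp (RGP.measurable_lvl i)
  exact (Ms.meas_hk _).comp ((measurable_pi_apply (i + 1, b)).mul h2.eval.inv)

open Classical in
/-- the restricted kernel -/
def KG (l : ℕ) (a ε : ℝ) (n : ℕ) (p : Conf × Conf) : ℝ≥0∞ :=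
  (if curvG ε p.2 ∧ noiseG l ε p.2 p.1 then 1 else 0) *
    ∏ b ∈ lcube n, hk a (p.1 b * (blk l p.2 b)⁻¹)

theorem meas_KG (l : ℕ) (a ε : ℝ) (n : ℕ) : Measurable (KG l a ε n) :=
  (Measurable.ite (meas_good l ε) measurable_const measurable_const).mul (meas_ker l a n)

theorem rhoG_succ (j n : ℕ) (W : Conf) : rhoG l a ε β (j + 1) n W =
    ∫⁻ U, rhoG l a ε β j (LL (l j) * n) (per (LL (l j) * n) U) *
      KG (l j) (a j) (ε j) n (W, per (LL (l j) * n) U) ∂PP := by
  simp only [rhoG, TG, KG]
  exact lintegral_congr fun U => by split_ifs <;> simp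

theorem meas_rhoG (j n : ℕ) : Measurable (rhoG l a ε β j n) := by
  induction j generalizing n with
  | zero => exact ((meas_wil n).const_mul β).exp.ennreal_ofReal
  | succ j ih =>
    have hp : Measurable fun p : Conf × Conf => per (LL (l j) * n) p.2 :=
      (cont_per _).measurable.comp measurable_snd
    have h1 : Measurable fun p : Conf × Conf => rhoG l a ε β j (LL (l j) * n)
        (per (LL (l j) * n) p.2) * KG (l j) (a j) (ε j) n (p.1, per (LL (l j) * n) p.2) :=
      ((ih _).comp hp).mul ((meas_KG _ _ _ _).comp (measurable_fst.prodMk hp))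
    rw [funext (rhoG_succ l a ε β j n)]
    exact h1.lintegral_prod_right'

theorem lint_RR (n : ℕ → ℕ) (j : ℕ) (hn : ∀ i < j, n i = LL (l i) * n (i + 1))
    {F : Conf → ℝ≥0∞} (hF : Measurable F) :
    ∫⁻ w, (GoodH l ε j).indicator (RR l a β n j) (pcH (fun i => sd (n i)) w) *
        F (per (n j) (lvl w j)) ∂PH =
      ∫⁻ U, rhoG l a ε β j (n j) (per (n j) U) * F (per (n j) U) ∂PP := by
  classical
  have mp := fun n : ℕ => (cont_per n).measurable
  induction j generalizing F with
  | zero =>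
    refine Eq.trans (lintegral_congr fun w => ?_)
      ((mp_lvl 0).lintegral_comp (((meas_rhoG l a ε β 0 _).mul hF).comp (mp _)))
    rw [Set.indicator_of_mem (s := GoodH l ε 0) (fun i hi => absurd hi (Nat.not_lt_zero i)), RR,
      prod_range_zero, mul_one]
    rfl
  | succ j ih =>
    set K := KG (l j) (a j) (ε j) (n (j + 1)) with hK
    have mK : Measurable K := meas_KG _ _ _ _
    have mX : Measurable fun w : Hs =>
        (GoodH l ε j).indicator (RR l a β n j) (pcH (fun i => sd (n i)) w) :=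
      ((meas_RR l a β n j).indicator (meas_GoodH l ε j)).comp (RGP.measurable_pcH _)
    have e1 : ∀ w : Hs, (GoodH l ε (j + 1)).indicator (RR l a β n (j + 1)) w =
        (GoodH l ε j).indicator (RR l a β n j) w * K (lvl w (j + 1), lvl w j) := by
      intro w
      simp only [hK, KG]
      by_cases h1 : w ∈ GoodH l ε j
      · split_ifs with h2
        · rw [Set.indicator_of_mem h1, Set.indicator_of_mem, RR, RR, prod_range_succ, one_mul,
            mul_assoc]
          exact fun i hi => (Nat.lt_succ_iff_lt_or_eq.1 hi).elim (h1 i) fun e => e ▸ h2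
        · rw [Set.indicator_of_notMem fun h : w ∈ GoodH l ε (j + 1) => h2 (h j j.lt_succ_self),
            zero_mul, mul_zero]
      · rw [Set.indicator_of_notMem h1, zero_mul, Set.indicator_of_notMem
          fun h : w ∈ GoodH l ε (j + 1) => h1 fun i hi => h i (hi.trans j.lt_succ_self)]
    have := lint_lvl (j + 1) (Φ := fun p =>
      (GoodH l ε j).indicator (RR l a β n j) (pcH (fun i => sd (n i)) p.1) *
        (K (per (n (j + 1)) p.2, per (n j) (lvl p.1 j)) * F (per (n (j + 1)) p.2)))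
      ((mX.comp measurable_fst).mul ((mK.comp (((mp _).comp measurable_snd).prodMk
        ((mp _).comp ((RGP.measurable_lvl j).comp measurable_fst)))).mul
          (hF.comp ((mp _).comp measurable_snd)))) fun w w' W h => by
        have h1 : ∀ i < j + 1, lvl (pcH (fun i => sd (n i)) w) i =
            lvl (pcH (fun i => sd (n i)) w') i := fun i hi => by
          rw [RGP.lvl_pcH, RGP.lvl_pcH, h i hi]
        have h2 : pcH (fun i => sd (n i)) w ∈ GoodH l ε j ↔
            pcH (fun i => sd (n i)) w' ∈ GoodH l ε j :=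
          forall₂_congr fun i hi => by rw [h1 i (by omega), h1 (i + 1) (by omega)]
        have h3 : RR l a β n j (pcH (fun i => sd (n i)) w) =
            RR l a β n j (pcH (fun i => sd (n i)) w') := by
          rw [RR, RR, h1 0 (by omega)]
          congr 1
          exact prod_congr rfl fun i hi => by
            have := mem_range.1 hi
            rw [h1 i (by omega), h1 (i + 1) (by omega)]
        simp only [Set.indicator, h2, h3, h j j.lt_succ_self]
    simp only [e1, mul_assoc]
    refine this.trans (lintegral_congr fun W => ?_)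
    rw [ih (fun i hi => hn i (hi.trans j.lt_succ_self))
      (F := fun U => K (per (n (j + 1)) W, U) * F (per (n (j + 1)) W))
      ((mK.comp measurable_prodMk_left).mul_const _), rhoG_succ, ← hn j j.lt_succ_self]
    have m1 : Measurable fun U => rhoG l a ε β j (n j) (per (n j) U) *
        K (per (n (j + 1)) W, per (n j) U) :=
      ((meas_rhoG l a ε β j _).comp (mp _)).mul (mK.comp (measurable_const.prodMk (mp _)))
    simp only [← mul_assoc]
    exact lintegral_mul_const _ m1

variable {l a} (hl : ∀ i, 1 ≤ l i) (ha : ∀ i, 0 ≤ a i)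

theorem sc_model (j n : ℕ) : (model l hl a ha).sc j (sd n) = fun i => sd (pd l j n i) := by
  funext i μ
  simp [RGP.Model.sc, RGP.Model.rat, model, pd, sd, mul_assoc]


theorem dens_model (n : ℕ → ℕ) (j : ℕ) (w : Hs) :
    ENNReal.ofReal ((model l hl a ha).dens (RGP.fund j fun i => sd (n i)) w) =
      ∏ i ∈ range j, ∏ b ∈ lcube (n (i + 1)),
        hk (a i) (lvl w (i + 1) b * (blk (l i) (lvl w i) b)⁻¹) := by
  rw [RGP.Model.dens, RGP.fund, prod_biUnion, prod_range_succ']
  · simp only [prod_product, prod_singleton, RGP.Model.ker, if_true, prod_const_one, mul_one,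
      Nat.succ_ne_zero, if_false]
    rw [ENNReal.ofReal_prod_of_nonneg fun _ _ => prod_nonneg fun _ _ => prod_nonneg fun _ _ =>
      (model l hl a ha).h_nonneg _ _]
    refine prod_congr rfl fun i _ => ?_
    rw [lcube, prod_product, ENNReal.ofReal_prod_of_nonneg fun _ _ => prod_nonneg fun _ _ =>
      (model l hl a ha).h_nonneg _ _]
    refine prod_congr rfl fun x _ => ?_
    rw [ENNReal.ofReal_prod_of_nonneg fun _ _ => (model l hl a ha).h_nonneg _ _]
    exact prod_congr rfl fun μ _ => ENNReal.ofReal_toReal (hk_ne_top (ha i) _)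
  · intro i _ i' _ h
    exact disjoint_left.2 fun p h1 h2 => h
      ((mem_singleton.1 (mem_product.1 h1).1).symm.trans (mem_singleton.1 (mem_product.1 h2).1))

theorem JZ_lint (j : ℕ) {n : ℕ} (hn : 0 < n) {g : Hs → ℝ} (hg : BM g) (h0 : ∀ w, 0 ≤ g w) :
    ENNReal.ofReal ((model l hl a ha).JZ (wpot β) j (sd n) g) =
      ∫⁻ w, RR l a β (pd l j n) j (pcH (fun i => sd (pd l j n i)) w) *
        ENNReal.ofReal (g (pcH (fun i => sd (pd l j n i)) w)) ∂PH := by
  rw [RGP.Model.JZ, ofReal_integral_eq_lintegral_ofReal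
    (((model l hl a ha).bm_JZ (pot_wpot β) j _ hg).integrable _)
    (ae_of_all _ fun w => mul_nonneg (RGP.BW_pos _ _).le (mul_nonneg
      (h0 _) ((model l hl a ha).dens_nonneg _ _)))]
  refine lintegral_congr fun w => ?_
  rw [sc_model, ENNReal.ofReal_mul (RGP.BW_pos _ _).le, ENNReal.ofReal_mul (h0 _), dens_model,
    RGP.lvl_pcH, BW_wpot β (n := pd l j n 0) (Nat.mul_pos (prod_pos fun _ _ => Nat.succ_pos _) hn), RR, mul_assoc, mul_comm (∏ _ ∈ _, _)]
  rfl

/-- joint expectations of small field events in terms of the effective density -/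
theorem JZ_good (j : ℕ) {n : ℕ} (hn : 0 < n) {f : Conf → ℝ} (hf : BM f) (h0 : ∀ U, 0 ≤ f U) :
    ENNReal.ofReal ((model l hl a ha).JZ (wpot β) j (sd n)
      fun w => RGP.ind (GoodH l ε j) w * f (lvl w j)) =
      ∫⁻ U, rhoG l a ε β j n (per n U) * ENNReal.ofReal (f (per n U)) ∂PP := by
  have := lint_RR l a ε β (pd l j n) j (fun i hi => pd_succ l hi n) hf.meas.ennreal_ofReal
  have hb : BM fun w => RGP.ind (GoodH l ε j) w * f (lvl w j) :=
    (RGP.BM.ind (meas_GoodH l ε j)).mul (hf.comp (RGP.measurable_lvl j))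
  rw [pd_self] at this
  rw [← this, JZ_lint β hl ha j hn hb fun w => mul_nonneg (RGP.ind_nonneg _ _) (h0 _)]
  refine lintegral_congr fun w => ?_
  rw [RGP.lvl_pcH, pc_sd, pd_self]
  by_cases h : pcH (fun i => sd (pd l j n i)) w ∈ GoodH l ε j
  · rw [RGP.ind_of_mem h, Set.indicator_of_mem h, one_mul]
  · rw [RGP.ind_of_not h, Set.indicator_of_notMem h]
    simp

theorem rhoG_two (j n : ℕ) : rhoG l a (fun _ => 2) β j n = rho l a β j n := by
  induction j generalizing n with
  | zero => rfl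
  | succ j ih =>
    funext W
    simp only [rho, rhoG, TT, TG, ih, curvG, noiseG, RG.Pv.norm_sub_le_two, implies_true, and_self,
      if_true]

theorem JZ_rho (j : ℕ) {n : ℕ} (hn : 0 < n) : ENNReal.ofReal ((model l hl a ha).JZ (wpot β) j (sd n) fun _ => 1) =
    ∫⁻ U, rho l a β j n (per n U) ∂PP := by
  have := JZ_good (fun _ => 2) β hl ha j hn (BM.const 1) fun _ => zero_le_one
  have e : ∀ w, RGP.ind (GoodH l (fun _ => 2) j) w = 1 := fun w => RGP.ind_of_mem fun i _ =>
    ⟨fun _ _ _ => RG.Pv.norm_sub_le_two _, fun _ => RG.Pv.norm_sub_le_two _⟩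
  simpa only [mul_one, ENNReal.ofReal_one, e, rhoG_two] using this

open Classical in
theorem JZ_inter (j : ℕ) {n : ℕ} (hn : 0 < n) {s : Set Conf} (hs : MeasurableSet s) :
    ENNReal.ofReal ((model l hl a ha).JZ (wpot β) j (sd n)
      (RGP.ind (GoodH l ε j ∩ {w | lvl w j ∈ s}))) =
      ∫⁻ U, (if per n U ∈ s then rhoG l a ε β j n (per n U) else 0) ∂PP := by
  have := JZ_good ε β hl ha j hn (RGP.BM.ind hs) (RGP.ind_nonneg _)
  convert this using 3 with w U
  · funext w
    by_cases h : lvl w j ∈ s <;> by_cases h' : w ∈ GoodH l ε j <;> simp [RGP.ind, h, h']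
  · by_cases h : per n w ∈ s <;> simp [h]

open Classical in
/-- large fields are improbable on the torus which is long in the time direction -/
theorem bad_long (hv : Vol.m = ![Vol.m 0, 1, 1]) : ∃ a0 : ℕ, ∀ a ≥ a0, ∀ γ > 0, ∀ η > 0, ∃ j0 : ℕ,
    ∀ j ≥ j0, ∀ J l, j ≤ J → Adm J l →
      ENNReal.ofReal (1 - η) * ∫⁻ U, rr γ J l (J + 1 - j) (nn j) (per (nn j) U) ∂PP ≤
      ∫⁻ U, (if curvG (ep γ a J l (J + 1 - j)) (per (nn j) U) then
        rG γ a J l (J + 1 - j) (nn j) (per (nn j) U) else 0) ∂PP := by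
  obtain ⟨a0, H⟩ := jz_bad
  refine ⟨a0, fun a ha γ hγ η hη => ?_⟩
  obtain ⟨j0, H⟩ := H a ha γ hγ _ (Vol.pos 0) η hη
  refine ⟨j0, fun j hj J l hJ h => ?_⟩
  have e : ![(Vol.m 0 : ℤ), 1, 1] * cv (nn j) = sd (nn j) := funext fun i => by
    rw [sd, hv]
    fin_cases i <;> simp [mul_comm]
  have k := H j hj J l hJ h
  have n0 := M3.nn_pos j
  have h3 : 0 ≤ (model _ (Adm.lq h) _ (aq_nonneg hγ J l)).JZ (wpot (bq γ J l 0)) (J + 1 - j)
      (sd (nn j)) fun _ => 1 := by
    rw [RGP.Model.JZ_one _ (pot_wpot _) _ (sd_pos n0)]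
    exact ((pot_wpot _).zz_pos haar _).le
  rw [e] at k
  rw [rr, ← JZ_rho _ (Adm.lq h) (aq_nonneg hγ J l) _ n0, ← ENNReal.ofReal_mul' h3]
  exact (ENNReal.ofReal_le_ofReal k).trans ((JZ_inter _ _ _ _ _ n0 (meas_curv _)).trans_le
    (le_of_eq (lintegral_congr fun U => by
      by_cases h : curvG (ep γ a J l (J + 1 - j)) (per (nn j) U) <;> simp [h, rG])))

end Pool.Agent.Lib.MP_7f377f_mp.RG.D3.An.Pb
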