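import Pool.Agent.Lib.MP_7f377f_mp.PLoc

/-! The multi-scale recursion for the probabilities of bad events. -/

namespace Pool.Agent.Lib.MP_7f377f_mp.RGP

open MeasureTheory Measure Function

set_option linter.unusedSectionVars false

variable {d : ℕ} {G : Type} [MeasurableSpace G] [Group G] [MeasurableMul₂ G] [MeasurableInv G]
  {μ : Measure G} [IsProbabilityMeasure μ] [μ.IsInvInvariant] [μ.IsMulRightInvariant]

theorem card_cv (n : ℕ) : (box (cv (n : ℤ) : St d)).card = n ^ d := by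
  rw [card_box]
  simp only [Int.toNat_natCast, Finset.prod_const, Finset.card_univ, Fintype.card_fin]

theorem card_cv' {n : ℤ} (h : 0 ≤ n) : ((box (cv n : St d)).card : ℝ) = (n : ℝ) ^ d := by
  lift n to ℕ using h
  rw [card_cv]
  simp

theorem shift_mir {s w : ℤ} (hw : 0 < w) (h : 8 * w ≤ s) (P Q : St d) : ∃ t : St d, ∀ i,
    (∀ T, w ≤ (sm T 0 P i - 2 * w * t i) % s ∧ (sm T 0 P i - 2 * w * t i) % s ≤ s - w) ∧
      w ≤ (Q i - 2 * w * t i) % s ∧ (Q i - 2 * w * t i) % s ≤ s - w := by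
  choose t ht using fun i => exists_shift hw h ![P i, -P i, Q i]
  refine ⟨t, fun i => ⟨fun T => ?_, ht i 2⟩⟩
  simp only [sm]
  split_ifs
  · simpa using ht i 1
  · simpa using ht i 0

theorem mir_sep {n r w : ℤ} {P : St d} (hP : ∀ i, w ≤ P i ∧ 2 * P i ≤ n - 2 * w) (hr : r < 2 * w)
    (T T' : Fin d → Bool) (q : St d) (h : ∀ i, |sm T' 0 P i - sm T 0 P i - n * q i| ≤ r) :
    T = T' := by
  funext i
  have h1 := abs_le.mp (h i)
  have h2 := hP i
  have h3 : n * q i ≤ -n ∨ n * q i = 0 ∨ n ≤ n * q i := by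
    rcases lt_trichotomy (q i) 0 with a | a | a
    · left; nlinarith [abs_nonneg (sm T' 0 P i - sm T 0 P i - n * q i), h i]
    · simp [a]
    · right; right; nlinarith [abs_nonneg (sm T' 0 P i - sm T 0 P i - n * q i), h i]
  cases a : T i <;> cases b : T' i <;> simp [sm, a, b] at h1 ⊢ <;> omega

namespace Model.Bad

variable {M : Model d μ} (B : M.Bad) (u : (Lk d → G) → ℝ)

/-- chessboard bound for mirror families of level `j` events -/
def CB (j : ℕ) (R : ℤ) (p : ℝ) : Prop := ∀ m : ℕ, 0 < m → ∀ P, M.Dv j P →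
  ∀ A : Finset (Fin d → Bool), (∀ T ∈ A, ∀ T' ∈ A, ∀ q : St d,
    (∀ i, |sm T' 0 P i - sm T 0 P i - 2 * m * (9 * R) * q i| ≤ 9 * R) → T = T') →
  (ZZ μ u (cv (2 * m * (9 * R))) fun W => ∏ T ∈ A,
    M.fE j (R + 2 * M.rat 0 j) (B.Ev j R) (sm T 0 P) W) ≤
      p ^ A.card * ZZ μ u (cv (2 * m * (9 * R))) fun _ => 1

/-- mirror bound on the torus of side `18 D` -/
def MB (j : ℕ) (D : ℤ) (b : ℝ) : Prop := ∀ P, M.Dv j P →
  (∀ i, D + 2 * M.rat 0 j ≤ P i ∧ P i ≤ 9 * D - (D + 2 * M.rat 0 j)) →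
  ZZ μ u (cv (2 * (9 * D))) (mir (M.fE j (D + 2 * M.rat 0 j) (B.Ev j D) P)) ≤
    b * ZZ μ u (cv (2 * (9 * D))) fun _ => 1

variable {u} (hu : Pot u)
include hu

theorem mb_one (j : ℕ) {D : ℤ} (hD : 0 ≤ D) : B.MB u j D 1 := fun P _ _ => by
  rw [one_mul]
  exact hu.zz_mono μ _ ((B.loc_Ev j hD).bm P).mir (BM.const 1) fun w =>
    Finset.prod_le_one (fun T _ => fE_nonneg _ _) fun T _ => (B.loc_Ev j hD).le_one _ _

theorem cb_of {j : ℕ} {R : ℤ} (hR : 16 * M.rat 0 j ≤ R) (hd : M.rat 0 j ∣ R) {b p : ℝ} (hp : 0 < p)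
    (hb : B.MB u j R b) (hz : ∀ m : ℕ, 0 < m →
      (b * ZZ μ u (cv (2 * (9 * R))) fun _ => 1) ^ (2 * m) ^ d ≤
        (p ^ (2 * m) ^ d * ZZ μ u (cv (2 * m * (9 * R))) fun _ => 1) ^ 2 ^ d) : B.CB u j R p := by
  classical
  intro m hm P hP A hA
  have h0 := M.rat_pos 0 j
  have hE := B.loc_Ev j (show 0 ≤ R by omega)
  set w := R + 2 * M.rat 0 j with hw
  have hdw : M.rat 0 j ∣ w := hd.add (dvd_mul_left _ _)
  have hds : M.rat 0 j ∣ 9 * R := hd.mul_left _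
  obtain ⟨t, ht⟩ := shift_mir (s := 9 * R) (w := w) (by omega) (by omega) P P
  have hm' : ∀ i : Fin d, 0 < cv (2 * m : ℤ) i := fun _ => by simp only [cv]; omega
  have hv : M.Dv j fun i => 2 * w * t i := fun i => (hdw.mul_left _).mul_right _
  have hmem : ∀ {Q : St d}, Q ∈ (Fintype.piFinset fun _ => Finset.Icc w (9 * R - w)).filter
      (M.Dv j) ↔ (∀ i, w ≤ Q i ∧ Q i ≤ 9 * R - w) ∧ M.Dv j Q := by
    simp [Fintype.mem_piFinset]
  refine (place hu (s := 9 * R) (by omega) hm' A (j := fun _ => j) (fun _ => hE)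
    (fun T => hP.sm (Dv_zero j) T) (fun _ => hv) fun _ => hds).trans_le ?_
  refine hu.chess_ev μ (s := 9 * R) (by omega) hm ((Fintype.piFinset fun _ =>
    Finset.Icc w (9 * R - w)).filter (M.Dv j)) hE.bm fE_nonneg
    (fun Q hQ => hE.dep_cell (hmem.mp hQ).2 (hmem.mp hQ).1) hp (fun T Q hQ => ?_)
    (fun Q hQ => (pow_le_pow_left₀ (ZZ_nonneg μ _ fun W => Finset.prod_nonneg fun T _ =>
      fE_nonneg _ _) (hb Q (hmem.mp hQ).2 (hmem.mp hQ).1) _).trans (hz m hm)) A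
    (fun T _ => cells_mem hm' _) (cells_inj (by omega) hA) fun T _ => hmem.mpr
      ⟨fun i => (ht i).1 T, fun i => (EuclideanDomain.dvd_mod_iff hds).mpr
        ((hP.sm (Dv_zero j) T i).sub (hv i))⟩
  have ha : M.Dv j (iv T * cv (9 * R)) := fun i => hds.mul_left _
  refine ⟨_, hmem.mpr ⟨fun i => ?_, (hmem.mp hQ).2.sm ha T⟩,
    fun W => (hE.act (hmem.mp hQ).2 ha T W).symm⟩
  have := (hmem.mp hQ).1 i
  simp only [sm, iv, Pi.mul_apply, cv]
  split_ifs <;> omega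

theorem single {i k : ℕ} (hik : i ≤ k) {R : ℤ} (hR : 16 * M.rat 0 i ≤ R) {p : ℝ}
    (h : B.CB u i R p) {N : ℤ} (hN : 0 < N) (hd : 2 * (9 * R) ∣ M.rat 0 k * N) {Q : St d}
    (hQ : M.Dv i Q) : M.JZ u k (cv N) (ind (B.Ev i R Q)) ≤
      p * ZZ μ u (cv (M.rat 0 k * N)) fun _ => 1 := by
  have h0 := M.rat_pos 0 i
  have h1 := mul_pos (M.rat_pos 0 k) hN
  obtain ⟨m, hm⟩ := hd
  have hm0 : 0 < m := by nlinarith
  lift m to ℕ using hm0.le
  have e : M.rat 0 k * N = 2 * m * (9 * R) := by linarith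
  have hw : (R + 2 * M.rat 0 i) % (M.rat 0 k * N) = R + 2 * M.rat 0 i :=
    Int.emod_eq_of_lt (by omega) (by nlinarith)
  have := factor_loc hu (k := k) (N := cv N) (fun _ => hN) h1 (m := 1) (fun _ => one_pos)
    (by rw [one_mul]; rfl) (Finset.univ : Finset Unit) (j := fun _ => i)
    (fun _ => B.loc_Ev i (show 0 ≤ R by omega)) (P := fun _ => Q) (fun _ => hQ) (fun _ => hik)
    (v := Q - cv (R + 2 * M.rat 0 i)) (fun _ _ _ _ _ => rfl) fun _ _ a => by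
      simp only [Pi.sub_apply, cv, sub_sub_cancel, hw]
      constructor <;> nlinarith
  simp only [Finset.univ_unique, Finset.prod_singleton, one_mul] at this
  rw [show ind (B.Ev i R Q) = fun w => ind (B.Ev i R Q) w from rfl, this, e]
  simpa [sm_T0] using h m (by omega) Q hQ {T0} (by simp +contextual)

theorem union {j k : ℕ} (hj : j ≤ k + 1) {R : ℕ → ℤ} {p : ℕ → ℝ} {N : ℤ} (hN : 0 < N)
    (h : ∀ i < j, 16 * M.rat 0 i ≤ R i ∧ B.CB u i (R i) (p i) ∧ 2 * (9 * R i) ∣ M.rat 0 k * N) :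
    M.JZ u k (cv N) (ind (B.Bd j)) ≤ (∑ i ∈ Finset.range j, ((M.rat i k * N : ℤ) : ℝ) ^ d * p i) *
      ZZ μ u (cv (M.rat 0 k * N)) fun _ => 1 := by
  have bE : ∀ i Q, BM (ind (B.Ev i (R i) Q)) := fun i Q =>
    bm_ind (((B.loc_bat i).meas Q).diff ((B.loc_Nr (Nat.le_succ i) _).meas Q))
  refine (M.JZ_mono hu k _ (bm_ind (B.meas_Bd j)) (g' := fun w => ∑ i ∈ Finset.range j,
    ∑ z ∈ box (M.sc k (cv N) i), ind (B.Ev i (R i) (M.rat 0 i • z)) w)
    (BM.sum fun i _ => BM.sum fun z _ => bE _ _) fun w => ?_).trans ?_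
  · by_cases hw : pcH (M.sc k (cv N)) w ∈ B.Bd j
    · obtain ⟨i, hi, z, hz, H⟩ := B.lowest hj (fun _ => hN) hw
      rw [ind_of_mem hw, ← ind_of_mem (H (R i))]
      exact (Finset.single_le_sum (f := fun z => ind (B.Ev i (R i) (M.rat 0 i • z)) _)
        (fun _ _ => ind_nonneg _ _) hz).trans (Finset.single_le_sum
          (f := fun i => ∑ z ∈ box (M.sc k (cv N) i), ind (B.Ev i (R i) (M.rat 0 i • z)) _)
          (fun _ _ => Finset.sum_nonneg fun _ _ => ind_nonneg _ _) (Finset.mem_range.mpr hi))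
    · rw [ind_of_not hw]
      exact Finset.sum_nonneg fun _ _ => Finset.sum_nonneg fun _ _ => ind_nonneg _ _
  rw [M.JZ_sum hu k _ _ fun i => BM.sum fun z _ => bE _ _, Finset.sum_mul]
  refine Finset.sum_le_sum fun i hi => ?_
  obtain ⟨h1, h2, h3⟩ := h i (Finset.mem_range.mp hi)
  rw [M.JZ_sum hu k _ _ fun z => bE _ _, ← card_cv' (mul_pos (M.rat_pos i k) hN).le, mul_assoc,
    ← nsmul_eq_mul]
  exact Finset.sum_le_card_nsmul _ _ _ fun z _ => B.single hu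
    (by have := Finset.mem_range.mp hi; omega) h1 h2 hN h3 fun a => dvd_mul_right _ _

theorem term {i j : ℕ} (hij : i ≤ j) {R D N : ℤ} {b p K : ℝ} (hR : 16 * M.rat 0 i ≤ R)
    (hp : 0 ≤ p) (hb0 : 0 ≤ b) (h : B.CB u i R p) (hRD : 9 * R ∣ D) (hD : 16 * M.rat 0 j ≤ D)
    (hd : M.rat 0 j ∣ D) (hb : B.MB u j D b) (hN : M.rat 0 j * N = 18 * (9 * D))
    (hK : (ZZ μ u (cv (2 * (9 * D))) fun _ => 1) ^ 9 ^ d ≤
      K * ZZ μ u (cv (18 * (9 * D))) fun _ => 1) {P Q : St d} (hP : M.Dv j P) (hQ : M.Dv i Q)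
    (hm : ∀ a, 9 * D + 2 * M.rat 0 j ≤ P a ∧ P a ≤ 9 * (9 * D) - (9 * D + 2 * M.rat 0 j))
    (hs : ∀ T (q : St d), ¬ ∀ a, |Q a - sm T 0 P a - 18 * (9 * D) * q a| ≤ 9 * D) :
    M.JZ u j (cv N) (fun w => ind (B.Ev i R Q) w * ∏ T, ind (B.Ev j D (sm T 0 P)) w) ≤
      K * b * p * ZZ μ u (cv (18 * (9 * D))) fun _ => 1 := by
  have h0 := M.rat_pos 0 j
  have h0' := M.rat_pos 0 i
  have hle := Int.le_of_dvd (by omega) hRD
  have a1 := mir_sep (n := 18 * (9 * D)) (r := 9 * D) (w := 9 * D + 2 * M.rat 0 j) (P := P)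
    (fun a => by have := hm a; omega) (by omega)
  set w := D + 2 * M.rat 0 j with hw
  have hdw : M.rat 0 j ∣ w := hd.add (dvd_mul_left _ _)
  have hds : M.rat 0 j ∣ 9 * D := hd.mul_left _
  obtain ⟨t, ht⟩ := shift_mir (s := 9 * D) (w := w) (by omega) (by omega) P Q
  have hv : M.Dv j fun i => 2 * w * t i := fun i => (hdw.mul_left _).mul_right _
  set lv : Option (Fin d → Bool) → ℕ := fun o => o.elim i fun _ => j with hlv
  set ρ : Option (Fin d → Bool) → ℤ := fun o => o.elim (R + 2 * M.rat 0 i) fun _ => w with hρ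
  set E : Option (Fin d → Bool) → St d → Set (Hist d G) :=
    fun o => o.elim (B.Ev i R) fun _ => B.Ev j D with hE'
  set X : Option (Fin d → Bool) → St d := fun o => o.elim Q fun T => sm T 0 P with hX
  have hE : ∀ o, M.Loc (lv o) (ρ o) (E o) := fun o => by
    cases o
    exacts [B.loc_Ev i (by omega), B.loc_Ev j (by omega)]
  have hj : ∀ o, lv o ≤ j := fun o => by cases o; exacts [hij, le_rfl]
  have hXd : ∀ o, M.Dv (lv o) (X o) := fun o => by cases o; exacts [hQ, hP.sm (Dv_zero j) _]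
  have hmg : ∀ o a, w ≤ (X o a - 2 * w * t a) % (9 * D) ∧
      (X o a - 2 * w * t a) % (9 * D) ≤ 9 * D - w := fun o a => by
    cases o
    exacts [(ht a).2, (ht a).1 _]
  have hρw : ∀ o, ρ o ≤ w := fun o => by
    cases o
    · simp only [hρ, Option.elim]; omega
    · exact le_rfl
  have hmg' : ∀ o a, ρ o ≤ (X o a - 2 * w * t a) % (9 * D) ∧
      (X o a - 2 * w * t a) % (9 * D) ≤ 9 * D - ρ o := fun o a => by
    have := hmg o a
    have := hρw o
    omega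
  have hm' : ∀ a : Fin d, 0 < cv (18 : ℤ) a := fun _ => by simp only [cv]; omega
  have hi := cells_inj (P := X) (s := 9 * D) (by omega) (m := cv 18) (v := fun a => 2 * w * t a)
    (A := Finset.univ) (by
      rintro (_ | T) - (_ | T') - q H
      · rfl
      · refine (hs T' (-q) fun a => ?_).elim
        rw [← abs_neg]
        convert H a using 2
        simp [hX]
        ring
      · exact (hs T q H).elim
      · exact congrArg some (a1 T T' q H))
  have hXd' : ∀ o, M.Dv (lv o) fun a => (X o a - 2 * w * t a) % (9 * D) := fun o a =>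
    (EuclideanDomain.dvd_mod_iff ((rat_dvd (hj o)).trans hds)).mpr
      ((hXd o a).sub (hv.mono (hj o) a))
  have e1 := factor_loc hu (k := j) (N := cv N) (fun _ => by simp only [cv]; nlinarith)
    (s := 9 * D) (by omega) hm' (funext fun _ => hN) Finset.univ hE hXd hj hi fun o _ => hmg' o
  rw [place hu (by omega) hm' _ hE hXd (fun o => hv.mono (hj o))
    fun o => (rat_dvd (hj o)).trans hds] at e1
  have e2 := hu.hs_ev μ (h := cv (9 * D)) (m := cv 9) (fun _ => by simp only [cv]; omega)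
    (fun _ => by simp only [cv]; omega) Finset.univ (fun o _ => cells_mem hm' _) hi
    (fun o => (hE o).bm fun a => (X o a - 2 * w * t a) % (9 * D)) (fun o => fE_nonneg _)
    (fun o _ => (hE o).dep_cell (hXd' o) (hmg' o)) (β := fun o => o.elim (p ^ 2 ^ d) fun _ => b)
    (by
      rintro (_ | T) -
      · obtain ⟨m, hm⟩ := hRD
        have hm0 : 0 < m := by nlinarith
        lift m to ℕ using hm0.le
        have e : (2 * cv (9 * D) : St d) = cv (2 * (9 * m : ℕ) * (9 * R)) := funext fun _ => by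
          simp only [Pi.mul_apply, Pi.ofNat_apply, cv, hm]; push_cast; ring
        rw [(hE none).mir (hXd' none), e]
        have := h (9 * m) (by omega) _ (hXd' none) Finset.univ fun T _ T' _ q H =>
          mir_sep (w := w) (fun a => by
            have := hmg none a
            push_cast
            exact ⟨this.1, by nlinarith [this.2]⟩) (by omega) T T' q H
        rwa [Finset.card_univ, Fintype.card_fun, Fintype.card_bool, Fintype.card_fin] at this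
      · exact hb _ (hXd' (some T)) (hmg (some T)))
  rw [Fintype.prod_option, show (2 * cv 9 : St d) = cv ((9 * 2 : ℕ) : ℤ) from rfl, card_cv,
    mul_pow 9, pow_mul] at e2
  simp only [Option.elim, Finset.prod_const, Finset.card_univ, Fintype.card_fun, Fintype.card_bool,
    Fintype.card_fin, ← mul_pow] at e2
  have e3 := e1.trans_le (le_of_pow_le_pow_left₀ (by positivity) (mul_nonneg (mul_nonneg hp hb0)
    (pow_nonneg (hu.zz_pos μ _).le _)) e2)
  simp only [Fintype.prod_option] at e3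
  refine e3.trans ?_
  calc p * b * _ ≤ p * b * (K * _) := mul_le_mul_of_nonneg_left hK (mul_nonneg hp hb0)
    _ = _ := by ring

theorem step {j : ℕ} {R : ℕ → ℤ} {p : ℕ → ℝ} {D N : ℤ} {b K τ : ℝ}
    (h : ∀ i < j, 16 * M.rat 0 i ≤ R i ∧ 0 ≤ p i ∧ B.CB u i (R i) (p i) ∧ 9 * R i ∣ D)
    (hb0 : 0 ≤ b) (hK0 : 0 ≤ K) (hD : 16 * M.rat 0 j ≤ D) (hd : M.rat 0 j ∣ D) (hb : B.MB u j D b)
    (hN : M.rat 0 j * N = 18 * (9 * D))
    (hK : (ZZ μ u (cv (2 * (9 * D))) fun _ => 1) ^ 9 ^ d ≤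
      K * ZZ μ u (cv (18 * (9 * D))) fun _ => 1)
    (hτ : M.JZ u j (cv N) (ind (B.Bd (j + 1) \ B.Bd j)) ≤
      τ * ZZ μ u (cv (18 * (9 * D))) fun _ => 1) :
    B.MB u j (9 * D) (τ + K * b * ∑ i ∈ Finset.range j, ((M.rat i j * N : ℤ) : ℝ) ^ d * p i) := by
  classical
  intro P hP hm
  have h0 := M.rat_pos 0 j
  have hN0 : 0 < N := by nlinarith
  have hE := B.loc_Ev j (show 0 ≤ 9 * D by omega)
  have hE' := B.loc_Ev j (show 0 ≤ D by omega)
  have e0 : (2 * (9 * (9 * D)) : ℤ) = 18 * (9 * D) := by ring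
  have e1 := M.factor_cells hu j (N := cv N) (h := cv (9 * (9 * D))) (m := 2) (v := 0)
    (fun _ => hN0) (fun _ => by simp only [cv]; omega) (funext fun _ => hN.trans e0.symm)
    Finset.univ (j := fun _ => j) (α := fun T => sm T 0 P - cv (9 * D + 2 * M.rat 0 j))
    (β := fun T => sm T 0 P + cv (9 * D + 2 * M.rat 0 j)) (c := iv) (q := fun T => -iv T)
    (fun _ => le_rfl) (fun T _ => mem_box.mpr fun a => by simp only [iv]; split_ifs <;> simp)
    (fun T _ T' _ e => funext fun a => by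
      have := congrFun e a
      cases h1 : T a <;> cases h2 : T' a <;> simp [iv, h1, h2] at this ⊢)
    (fun T _ a => by
      have := hm a
      simp only [iv, sm, cv, Pi.sub_apply, Pi.add_apply, Pi.neg_apply, Pi.ofNat_apply]
      split_ifs <;> omega)
    (fun T => bm_ind (hE.meas _)) fun T => hE.dep_ind (hP.sm (Dv_zero j) T)
  rw [hE.mir hP, e0]
  refine (show _ = _ from (e1.trans (by rw [← hN]; rfl)).symm).trans_le ?_
  have bE : ∀ i Q, BM fun w => ind (B.Ev i (R i) Q) w * ∏ T, ind (B.Ev j D (sm T 0 P)) w :=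
    fun i Q => (bm_ind (((B.loc_bat i).meas Q).diff ((B.loc_Nr (Nat.le_succ i) _).meas Q))).mul
      (BM.prod fun T _ => bm_ind (hE'.meas _))
  have bτ := bm_ind ((B.meas_Bd (j + 1)).diff (B.meas_Bd j))
  set S : ℕ → Finset (St d) := fun i => (box (M.sc j (cv N) i)).filter fun z => ∀ T (q : St d),
    ¬ ∀ a, |(M.rat 0 i • z) a - sm T 0 P a - 18 * (9 * D) * q a| ≤ 9 * D with hS
  have nn : ∀ i Q w, 0 ≤ ind (B.Ev i (R i) Q) w * ∏ T, ind (B.Ev j D (sm T 0 P)) w :=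
    fun i Q w => mul_nonneg (ind_nonneg _ _) (Finset.prod_nonneg fun _ _ => ind_nonneg _ _)
  refine (M.JZ_mono hu j _ (BM.prod fun T _ => bm_ind (hE.meas _))
    (g' := fun w => ind (B.Bd (j + 1) \ B.Bd j) w + ∑ i ∈ Finset.range j, ∑ z ∈ S i,
      ind (B.Ev i (R i) (M.rat 0 i • z)) w * ∏ T, ind (B.Ev j D (sm T 0 P)) w)
    (bτ.add (BM.sum fun i _ => BM.sum fun z _ => bE _ _)) fun w => ?_).trans ?_
  · have n2 : 0 ≤ ∑ i ∈ Finset.range j, ∑ z ∈ S i, ind (B.Ev i (R i) (M.rat 0 i • z))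
        (pcH (M.sc j (cv N)) w) * ∏ T, ind (B.Ev j D (sm T 0 P)) (pcH (M.sc j (cv N)) w) :=
      Finset.sum_nonneg fun _ _ => Finset.sum_nonneg fun _ _ => nn _ _ _
    by_cases hw : ∀ T, pcH (M.sc j (cv N)) w ∈ B.Ev j (9 * D) (sm T 0 P)
    swap
    · obtain ⟨T, hT⟩ := not_forall.mp hw
      exact (Finset.prod_eq_zero (Finset.mem_univ T) (by exact ind_of_not hT)).trans_le
        (add_nonneg (ind_nonneg _ _) n2)
    rw [Finset.prod_eq_one fun T _ => ind_of_mem (hw T)]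
    by_cases hw' : pcH (M.sc j (cv N)) w ∈ B.Bd j
    swap
    · rw [ind_of_mem (s := B.Bd (j + 1) \ B.Bd j)
        ⟨⟨j, Nat.lt_succ_self j, _, hP.sm (Dv_zero j) T0, (hw T0).1⟩, hw'⟩]
      linarith
    obtain ⟨i, hi, z, hz, H⟩ := B.lowest (Nat.le_succ j) (fun _ => hN0) hw'
    have hz' : z ∈ S i := Finset.mem_filter.mpr ⟨hz, fun T q hq => (hw T).2 ⟨i, hi,
      M.rat 0 i • z - 18 * (9 * D) • q, fun a => (dvd_mul_right _ _).sub (by
        simp only [Pi.mul_apply, Pi.ofNat_apply, Pi.smul_apply, smul_eq_mul, ← mul_assoc]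
        exact (((rat_dvd hi.le).trans hd).mul_left _).mul_right _), fun a => by
          convert hq a using 2
          simp
          ring,
      ((B.loc_bat i).per hi.le (fun a => dvd_mul_right _ _) (fun a => ⟨-q a, by
        simp only [sc, Pi.smul_apply, smul_eq_mul, cv, hN]
        simp
        ring⟩) w).mp (H 0).1⟩⟩
    have e : ind (B.Ev i (R i) (M.rat 0 i • z)) (pcH (M.sc j (cv N)) w) *
        ∏ T, ind (B.Ev j D (sm T 0 P)) (pcH (M.sc j (cv N)) w) = 1 := by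
      rw [ind_of_mem (H _), one_mul]
      refine Finset.prod_eq_one fun T _ => ind_of_mem ⟨(hw T).1, ?_⟩
      rintro ⟨i, hi, Q, hQ, hr, H⟩
      exact (hw T).2 ⟨i, hi, Q, hQ, fun a => (hr a).trans (by omega), H⟩
    rw [← e]
    exact le_add_of_nonneg_of_le (ind_nonneg _ _) ((Finset.single_le_sum
      (fun z _ => nn i (M.rat 0 i • z) _) hz').trans (Finset.single_le_sum
        (fun i _ => Finset.sum_nonneg fun z (_ : z ∈ S i) => nn i (M.rat 0 i • z) _)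
        (Finset.mem_range.mpr hi)))
  rw [M.JZ_add hu j _ bτ (BM.sum fun i _ => BM.sum fun z _ => bE _ _),
    M.JZ_sum hu j _ _ fun i => BM.sum fun z _ => bE _ _, add_mul, Finset.mul_sum, Finset.sum_mul]
  refine add_le_add hτ (Finset.sum_le_sum fun i hi => ?_)
  obtain ⟨h1, h2, h3, h4⟩ := h i (Finset.mem_range.mp hi)
  have hij := (Finset.mem_range.mp hi).le
  rw [M.JZ_sum hu j _ _ fun z => bE _ _, ← card_cv' (mul_pos (M.rat_pos i j) hN0).le]
  refine (Finset.sum_le_card_nsmul _ _ _ fun z hz => B.term hu hij h1 h2 hb0 h3 h4 hD hd hb hN hK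
    hP (fun a => dvd_mul_right _ _) hm (Finset.mem_filter.mp hz).2).trans ?_
  rw [nsmul_eq_mul]
  refine (mul_le_mul_of_nonneg_right (Nat.cast_le.mpr (Finset.card_filter_le _ _))
    (mul_nonneg (mul_nonneg (mul_nonneg hK0 hb0) h2) (hu.zz_pos μ _).le)).trans_eq ?_
  rw [show M.sc j (cv N) i = cv (M.rat i j * N) from rfl]
  ring

omit hu in
/-- the input from the renormalisation group at level `j` -/
def Inp (u : (Lk d → G) → ℝ) (j : ℕ) (m : ℤ) (e γ τ : ℝ) : Prop := ∀ N : ℤ, m ≤ N →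
  M.JZ u j (cv N) (ind (B.Bd (j + 1))ᶜ) ≤ Real.exp ((e + γ) * N ^ d) ∧
  (N ≤ 18 * 9 ^ 2 ^ d * m → M.JZ u j (cv N) (ind (B.Bd (j + 1) \ B.Bd j)) ≤
    τ * ZZ μ u (cv (M.rat 0 j * N)) fun _ => 1) ∧
  Real.exp ((e - γ) * N ^ d) ≤ ZZ μ u (cv (M.rat 0 j * N)) fun _ => 1

theorem Z_le {j : ℕ} {N : ℤ} (hN : 0 < N) {x : ℝ} (h1 : M.JZ u j (cv N) (ind (B.Bd (j + 1))ᶜ) ≤ x)
    (h2 : M.JZ u j (cv N) (ind (B.Bd (j + 1))) ≤ 2⁻¹ * ZZ μ u (cv (M.rat 0 j * N)) fun _ => 1) :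
    (ZZ μ u (cv (M.rat 0 j * N)) fun _ => 1) ≤ 2 * x := by
  have := M.JZ_add hu j (cv N) (bm_ind (B.meas_Bd (j + 1))) (bm_ind (B.meas_Bd (j + 1)).compl)
  rw [show (fun w => ind (B.Bd (j + 1)) w + ind (B.Bd (j + 1))ᶜ w) = fun _ => 1 from
    funext fun w => by by_cases h : w ∈ B.Bd (j + 1) <;> simp [ind, h],
    M.JZ_one hu j fun _ => hN] at this
  change (ZZ μ u (cv (M.rat 0 j * N)) fun _ => 1) = _ at this
  linarith

theorem level {j : ℕ} {R : ℕ → ℤ} {p : ℕ → ℝ} {m : ℤ} {e γ τ V Y : ℝ} (hm : 16 ≤ m) (hγ : 0 ≤ γ)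
    (hτ : 0 ≤ τ) (hI : B.Inp u j m e γ τ) (hV : V = ((18 * 9 ^ 2 ^ d * m : ℤ) : ℝ) ^ d)
    (h : ∀ i < j, 16 * M.rat 0 i ≤ R i ∧ 0 ≤ p i ∧ B.CB u i (R i) (p i) ∧ 9 * R i ∣ m * M.rat 0 j)
    (hY : V * ∑ i ∈ Finset.range j, (M.rat i j : ℝ) ^ d * p i ≤ Y) (h1 : τ + Y ≤ 2⁻¹) :
    (∀ s ≤ 2 ^ d, M.JZ u j (cv (18 * 9 ^ s * m)) (ind (B.Bd (j + 1))) ≤
      (τ + Y) * ZZ μ u (cv (M.rat 0 j * (18 * 9 ^ s * m))) fun _ => 1) ∧
    ∀ X q : ℝ, 2 ^ 9 ^ d * Real.exp (2 * γ * V) * Y ≤ X → X ≤ 1 → 0 < q →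
      2 * Real.exp (2 * γ * V) * (2 ^ d * τ + X ^ 2 ^ d) ≤ q ^ 2 ^ d →
      B.CB u j (9 ^ 2 ^ d * m * M.rat 0 j) q := by
  have h0 := M.rat_pos 0 j
  have hN : ∀ s : ℕ, m ≤ 18 * 9 ^ s * m := fun s => by
    nlinarith [one_le_pow₀ (show (1 : ℤ) ≤ 9 by norm_num) (n := s)]
  have hN' : ∀ s ≤ 2 ^ d, 18 * 9 ^ s * m ≤ 18 * 9 ^ 2 ^ d * m := fun s hs => by gcongr; norm_num
  have hNV : ∀ s ≤ 2 ^ d, ((18 * 9 ^ s * m : ℤ) : ℝ) ^ d ≤ V := fun s hs => by
    rw [hV]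
    exact pow_le_pow_left₀ (Int.cast_nonneg (by positivity)) (Int.cast_le.mpr (hN' s hs)) _
  have hS : ∀ s ≤ 2 ^ d, ∑ i ∈ Finset.range j,
      ((M.rat i j * (18 * 9 ^ s * m) : ℤ) : ℝ) ^ d * p i ≤ Y := fun s hs => by
    refine le_trans ?_ hY
    rw [Finset.mul_sum]
    refine Finset.sum_le_sum fun i hi => ?_
    rw [Int.cast_mul, mul_pow, mul_comm V, mul_right_comm]
    exact mul_le_mul_of_nonneg_left (hNV s hs) (mul_nonneg
      (pow_nonneg (Int.cast_nonneg (M.rat_pos i j).le) _) (h i (Finset.mem_range.mp hi)).2.1)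
  have hS0 : ∀ s : ℕ, 0 ≤ ∑ i ∈ Finset.range j,
      ((M.rat i j * (18 * 9 ^ s * m) : ℤ) : ℝ) ^ d * p i := fun s =>
    Finset.sum_nonneg fun i hi => mul_nonneg (pow_nonneg (Int.cast_nonneg
      (mul_nonneg (M.rat_pos i j).le (by positivity))) _) (h i (Finset.mem_range.mp hi)).2.1
  have hA : ∀ s ≤ 2 ^ d, M.JZ u j (cv (18 * 9 ^ s * m)) (ind (B.Bd (j + 1))) ≤
      (τ + Y) * ZZ μ u (cv (M.rat 0 j * (18 * 9 ^ s * m))) fun _ => 1 := fun s hs => by
    have b1 := bm_ind ((B.meas_Bd (j + 1)).diff (B.meas_Bd j))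
    have b2 := bm_ind (B.meas_Bd j)
    refine (M.JZ_mono hu j _ (bm_ind (B.meas_Bd _)) (b1.add b2) fun w => ?_).trans ?_
    · by_cases a1 : pcH (M.sc j (cv (18 * 9 ^ s * m))) w ∈ B.Bd (j + 1) <;>
        by_cases a2 : pcH (M.sc j (cv (18 * 9 ^ s * m))) w ∈ B.Bd j <;> simp [ind, a1, a2]
    rw [M.JZ_add hu j _ b1 b2, add_mul]
    refine add_le_add ((hI _ (hN s)).2.1 (hN' s hs)) ((B.union hu (Nat.le_succ j) (R := R) (p := p)
      (by positivity) fun i hi => ⟨(h i hi).1, (h i hi).2.2.1, ?_⟩).trans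
        (mul_le_mul_of_nonneg_right (hS s hs) (hu.zz_pos μ _).le))
    obtain ⟨c, hc⟩ := (h i hi).2.2.2
    exact ⟨9 * 9 ^ s * c, by linear_combination 18 * 9 ^ s * hc⟩
  refine ⟨hA, fun X q hX hX1 hq hq' => ?_⟩
  have hZ : ∀ s ≤ 2 ^ d, (ZZ μ u (cv (M.rat 0 j * (18 * 9 ^ s * m))) fun _ => 1) ≤
      2 * Real.exp ((e + γ) * ((18 * 9 ^ s * m : ℤ) : ℝ) ^ d) := fun s hs =>
    B.Z_le hu (by positivity) (hI _ (hN s)).1
      ((hA s hs).trans (mul_le_mul_of_nonneg_right h1 (hu.zz_pos μ _).le))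
  have hX0 : 0 ≤ X := le_trans (mul_nonneg (by positivity) ((hS0 0).trans (hS 0 (Nat.zero_le _)))) hX
  have hD : ∀ s : ℕ, 16 * M.rat 0 j ≤ 9 ^ s * m * M.rat 0 j := fun s => by
    gcongr
    nlinarith [one_le_pow₀ (show (1 : ℤ) ≤ 9 by norm_num) (n := s)]
  have hB : ∀ s : ℕ, s ≤ 2 ^ d → B.MB u j (9 ^ s * m * M.rat 0 j) (s * τ + X ^ s) := by
    intro s hs
    induction s with
    | zero => simpa using B.mb_one hu j (D := m * M.rat 0 j) (by positivity)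
    | succ s ih =>
      have e1 : M.rat 0 j * (18 * 9 ^ (s + 1) * m) = 18 * (9 * (9 ^ s * m * M.rat 0 j)) := by ring
      have e2 : M.rat 0 j * (18 * 9 ^ s * m) = 2 * (9 * (9 ^ s * m * M.rat 0 j)) := by ring
      have := B.step hu (R := R) (p := p) (K := 2 ^ 9 ^ d * Real.exp (2 * γ * V)) (τ := τ)
        (fun i hi => ⟨(h i hi).1, (h i hi).2.1, (h i hi).2.2.1,
          (h i hi).2.2.2.trans ⟨9 ^ s, by ring⟩⟩) (by positivity) (by positivity) (hD s)
        (dvd_mul_left _ _) (ih (by omega)) e1 (by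
          rw [← e1, ← e2]
          refine (pow_le_pow_left₀ (hu.zz_pos μ _).le (hZ s (by omega)) _).trans ?_
          rw [mul_pow, mul_assoc (2 ^ 9 ^ d : ℝ), ← Real.exp_nat_mul]
          refine mul_le_mul_of_nonneg_left (le_trans ?_ (mul_le_mul_of_nonneg_left
            (hI _ (hN (s + 1))).2.2 (Real.exp_pos _).le)) (by positivity)
          rw [← Real.exp_add, Real.exp_le_exp]
          have a1 := mul_le_mul_of_nonneg_left (hNV (s + 1) hs) hγ
          have a2 : ((18 * 9 ^ (s + 1) * m : ℤ) : ℝ) ^ d =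
              (9 ^ d : ℕ) * ((18 * 9 ^ s * m : ℤ) : ℝ) ^ d := by
            push_cast
            rw [← mul_pow]
            ring
          rw [a2] at a1 ⊢
          linarith) (e1 ▸ (hI _ (hN (s + 1))).2.1 (hN' _ hs))
      rw [show 9 * (9 ^ s * m * M.rat 0 j) = 9 ^ (s + 1) * m * M.rat 0 j by ring] at this
      intro P hP hm
      refine (this P hP hm).trans (mul_le_mul_of_nonneg_right ?_ (hu.zz_pos μ _).le)
      have a1 := (mul_le_mul_of_nonneg_left (hS (s + 1) hs)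
        (show 0 ≤ 2 ^ 9 ^ d * Real.exp (2 * γ * V) by positivity)).trans hX
      have a2 := mul_le_mul_of_nonneg_left a1 (show 0 ≤ s * τ + X ^ s by positivity)
      have a3 := mul_le_mul_of_nonneg_left hX1 (show 0 ≤ s * τ by positivity)
      push_cast at a2 ⊢
      rw [pow_succ X]
      linarith
  refine B.cb_of hu (hD _) (dvd_mul_left _ _) hq (hB _ le_rfl) fun n hn => ?_
  have a1 := hZ _ le_rfl
  have a2 := (hI (n * (18 * 9 ^ 2 ^ d * m)) (by nlinarith [hN (2 ^ d)])).2.2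
  rw [← hV, show M.rat 0 j * (18 * 9 ^ 2 ^ d * m) = 2 * (9 * (9 ^ 2 ^ d * m * M.rat 0 j)) by
    ring] at a1
  rw [Int.cast_mul, mul_pow, ← hV, show M.rat 0 j * (n * (18 * 9 ^ 2 ^ d * m)) =
    2 * n * (9 * (9 ^ 2 ^ d * m * M.rat 0 j)) by ring] at a2
  have a3 : (((2 ^ d : ℕ) : ℝ) * τ + X ^ 2 ^ d) * (2 * Real.exp ((e + γ) * V)) ≤
      q ^ 2 ^ d * Real.exp ((e - γ) * V) := by
    refine le_trans (le_of_eq ?_) (mul_le_mul_of_nonneg_right hq' (Real.exp_pos _).le)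
    rw [show (e + γ) * V = 2 * γ * V + (e - γ) * V by ring, Real.exp_add]
    push_cast
    ring
  refine (pow_le_pow_left₀ (mul_nonneg (by positivity) (hu.zz_pos μ _).le)
    ((mul_le_mul_of_nonneg_left a1 (by positivity)).trans a3) _).trans
    (le_trans (le_of_eq ?_) (pow_le_pow_left₀ (by positivity)
      (mul_le_mul_of_nonneg_left a2 (by positivity)) _))
  simp only [mul_pow, ← pow_mul, ← Real.exp_nat_mul]
  congr 2
  · ring
  · push_cast
    ring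

/-- the probability of a bad event on a moderately large cubic torus -/
theorem bad_le {k : ℕ} {m : ℕ → ℤ} {e γ τ V Y X p : ℕ → ℝ}
    (h : ∀ j ≤ k, 16 ≤ m j ∧ 0 ≤ γ j ∧ 0 ≤ τ j ∧ B.Inp u j (m j) (e j) (γ j) (τ j) ∧
      V j = ((18 * 9 ^ 2 ^ d * m j : ℤ) : ℝ) ^ d ∧
      (∀ i < j, 9 * (9 ^ 2 ^ d * m i * M.rat 0 i) ∣ m j * M.rat 0 j) ∧
      V j * ∑ i ∈ Finset.range j, (M.rat i j : ℝ) ^ d * p i ≤ Y j ∧ τ j + Y j ≤ 2⁻¹)
    (h' : ∀ j < k, 2 ^ 9 ^ d * Real.exp (2 * γ j * V j) * Y j ≤ X j ∧ X j ≤ 1 ∧ 0 < p j ∧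
      2 * Real.exp (2 * γ j * V j) * (2 ^ d * τ j + X j ^ 2 ^ d) ≤ p j ^ 2 ^ d) :
    M.JZ u k (cv (18 * m k)) (ind (B.Bd (k + 1))) ≤
      (τ k + Y k) * ZZ μ u (cv (M.rat 0 k * (18 * m k))) fun _ => 1 := by
  have aux : ∀ j ≤ k, (∀ i < j, B.CB u i (9 ^ 2 ^ d * m i * M.rat 0 i) (p i)) → _ :=
    fun j hj ih => by
      obtain ⟨a1, a2, a3, a4, a5, a6, a7, a8⟩ := h j hj
      exact B.level hu (R := fun i => 9 ^ 2 ^ d * m i * M.rat 0 i) a1 a2 a3 a4 a5 (fun i hi =>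
        ⟨mul_le_mul_of_nonneg_right (by
          nlinarith [one_le_pow₀ (show (1 : ℤ) ≤ 9 by norm_num) (n := 2 ^ d), (h i (by omega)).1])
          (M.rat_pos 0 i).le, (h' i (by omega)).2.2.1.le, ih i hi, a6 i hi⟩) a7 a8
  have key : ∀ j < k, B.CB u j (9 ^ 2 ^ d * m j * M.rat 0 j) (p j) := by
    intro j
    induction j using Nat.strong_induction_on with
    | _ j ih =>
      intro hj
      obtain ⟨b1, b2, b3, b4⟩ := h' j hj
      exact (aux j hj.le fun i hi => ih i hi (by omega)).2 _ _ b1 b2 b3 b4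
  simpa using (aux k le_rfl key).1 0 (Nat.zero_le _)

end Model.Bad

end Pool.Agent.Lib.MP_7f377f_mp.RGP
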