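import Pool.Agent.Lib.MP_7f377f_mp.PBr
import Pool.Agent.Lib.MP_7f377f_mp.PRec

/-! The concrete bad events and the input of the multi-scale recursion. -/

noncomputable section

namespace Pool.Agent.Lib.MP_7f377f_mp.RG.Pv

open Finset MeasureTheory
open scoped Quaternion ENNReal
open RGP (lvl pcH cv BM actH ind)

variable {l : ℕ} (hl : 1 ≤ l) {a : ℝ} (ha : 1 ≤ a) (ε : ℝ)

/-- a large plaquette near the site `z` -/
def BadC (ε : ℝ) (U : Conf) (z : St) : Prop := ∃ x μ ν, x ∈ box 1 ∧ x + un μ + un ν ∈ box 1 ∧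
  ε < ‖(hol Inv.inv U (x + z) μ ν).q - 1‖

/-- a large noise near the site `z` -/
def BadN (l : ℕ) (ε : ℝ) (U W : Conf) (z : St) : Prop := ∃ x μ, x ∈ box 1 ∧ x + un μ ∈ box 1 ∧
  ε < ‖(W (x + z, μ) * (blk l U (x + z, μ))⁻¹).q - 1‖

/-- bad events at the origin -/
def bad0 (l : ℕ) (ε : ℝ) (j : ℕ) : Set Hs :=
  {w | BadC ε (lvl w j) 0 ∨ j ≠ 0 ∧ BadN l ε (lvl w (j - 1)) (lvl w j) 0}

theorem curvG_iff (U : Conf) : curvG ε U ↔ ∀ z, ¬ BadC ε U z :=
  ⟨fun h _ ⟨_, _, _, _, _, h'⟩ => absurd (h _ _ _) (not_le.2 h'), fun h x μ ν => not_lt.1 fun h' =>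
    h (x + un μ) ⟨-un μ, μ, ν, neg_mem_box (un_mem_box μ), by simpa using un_mem_box ν,
      by simpa using h'⟩⟩

theorem noiseG_iff (U W : Conf) : noiseG l ε U W ↔ ∀ z, ¬ BadN l ε U W z :=
  ⟨fun h _ ⟨_, _, _, _, h'⟩ => absurd (h _) (not_le.2 h'), fun h b => not_lt.1 fun h' =>
    h b.1 ⟨0, b.2, zero_mem_box 1, by simpa using un_mem_box b.2, by simpa using h'⟩⟩

theorem blk_sh (l : ℕ) (y : St) (U : Conf) : blk l (sh (up l y) U) = sh y (blk l U) := by
  funext b
  simp only [blk, sh_sh, sh_apply, up_add]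

theorem act_act0 (T : Fin 4 → Bool) (U : Conf) : RGP.act T 0 (RGP.act T 0 U) = U := by
  rw [RGP.act_act]
  simp only [Bool.xor_self, Pi.zero_apply, sub_self, add_zero, ite_self]
  exact RGP.act_zero U

theorem BadC.act {U : Conf} {T : Fin 4 → Bool} (h : BadC ε (RGP.act T 0 U) 0) : BadC ε U 0 := by
  obtain ⟨x, μ, ν, h1, h2, h3⟩ := h
  rw [add_zero, hol_act (φ := fun g : S3 => ‖g.q - 1‖) S3.norm_conj_sub S3.norm_inv_sub] at h3
  refine ⟨_, μ, ν, mem_box.2 fun i => ?_, mem_box.2 fun i => ?_, by rwa [add_zero]⟩ <;>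
  · have := mem_box.1 h1 i
    have := mem_box.1 h2 i
    simp only [rf, Pi.add_apply, Pi.sub_apply, ite_apply, Pi.zero_apply, un_apply] at *
    split_ifs at * <;> simp_all <;> omega

theorem BadN.act {U W : Conf} {T : Fin 4 → Bool}
    (h : BadN l ε (RGP.act T 0 U) (RGP.act T 0 W) 0) : BadN l ε U W 0 := by
  obtain ⟨x, μ, h1, h2, h3⟩ := h
  rw [add_zero, blk_act] at h3
  by_cases hT : T μ = true
  · refine ⟨rf T x - un μ, μ, ?_, by simpa using rf_mem_box T h1, ?_⟩
    · simpa [rf_add, rf_un, hT, sub_eq_add_neg] using rf_mem_box T h2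
    · rw [act_pos hT, act_pos hT, ← S3.norm_conj_sub (W (rf T x - un μ, μ)), ← S3.norm_inv_sub] at h3
      simpa using h3
  · refine ⟨rf T x, μ, rf_mem_box T h1, by simpa [rf_add, rf_un, hT] using rf_mem_box T h2, ?_⟩
    rwa [act_neg hT, act_neg hT, ← add_zero (rf T x)] at h3

theorem meas_BadC (z : St) : MeasurableSet {U | BadC ε U z} := by
  simp only [BadC, Set.ofPred_exists, Set.ofPred_and]
  exact .iUnion fun x => .iUnion fun μ => .iUnion fun ν => .inter (.const _) (.inter (.const _)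
    (measurableSet_lt measurable_const (Ms.meas_nsub.comp (Ms.cont_hol _ μ ν).measurable)))

theorem meas_BadN (z : St) : MeasurableSet {p : Conf × Conf | BadN l ε p.2 p.1 z} := by
  simp only [BadN, Set.ofPred_exists, Set.ofPred_and]
  exact .iUnion fun x => .iUnion fun μ => .inter (.const _) (.inter (.const _)
    (measurableSet_lt measurable_const (Ms.meas_nsub.comp (Ms.meas_link l _))))

theorem mem_DQ {j : ℕ} {x : St} {μ : Fin 4} (h1 : x ∈ box 1) (h2 : x + un μ ∈ box 1) :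
    (j, x, μ) ∈ (model l hl a ha).DQ j (0 - cv (2 * (model l hl a ha).rat 0 j))
      (0 + cv (2 * (model l hl a ha).rat 0 j)) := ⟨le_rfl, fun i => by
  have h3 := mem_box.1 h1 i
  have h4 := mem_box.1 h2 i
  have h5 := (model l hl a ha).rat_pos 0 j
  simp only [Pi.add_apply, Pi.sub_apply, Pi.zero_apply, dl_eq, Nat.cast_one] at *
  constructor <;> nlinarith⟩

/-- the bad events of the block spin model -/
def bad : (model l hl a ha).Bad where
  bad := bad0 l ε
  meas j := (RGP.measurable_lvl j (meas_BadC ε 0)).union ((MeasurableSet.const _).inter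
    (((RGP.measurable_lvl j).prodMk (RGP.measurable_lvl (j - 1))) (meas_BadN ε 0)))
  dep j w w' h := by
    have h1 : ∀ x μ, x ∈ box 1 → x + un μ ∈ box 1 → lvl w j (x, μ) = lvl w' j (x, μ) :=
      fun x μ h1 h2 => h _ (mem_DQ hl ha h1 h2)
    refine propext (or_congr ?_ (and_congr_right fun hj => ?_))
    · refine exists₃_congr fun x μ ν => and_congr_right fun a1 => and_congr_right fun a2 => ?_
      have a3 : ∀ μ ν, x + un μ + un ν ∈ box 1 → x + un μ ∈ box 1 := fun μ ν a2 =>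
        mem_box.2 fun i => by
          have := mem_box.1 a1 i
          have := mem_box.1 a2 i
          have := un_nonneg μ i
          have := un_nonneg ν i
          simp only [Pi.add_apply] at *
          omega
      have a4 := add_right_comm x (un μ) (un ν) ▸ a2
      simp only [hol, add_zero, h1 x μ a1 (a3 μ ν a2), h1 x ν a1 (a3 ν μ a4),
        h1 _ ν (a3 μ ν a2) a2, h1 _ μ (a3 ν μ a4) a4]
    · refine exists₂_congr fun x μ => and_congr_right fun a1 => and_congr_right fun a2 => ?_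
      have := (model l hl a ha).pa_dep (((model l hl a ha).coe_DF _ _ _) ▸
        (model l hl a ha).closed_DF _ _ _) (mem_DQ hl ha a1 a2) hj fun q hq => h q hq.1
      rw [add_zero, h1 x μ a1 a2, show blk l (lvl w (j - 1)) (x, μ) = _ from this]
      rfl
  refl j T w := by
    have key : ∀ w, actH T 0 w ∈ bad0 l ε j → w ∈ bad0 l ε j := fun w h => by
      simp only [bad0, Set.mem_ofPred_eq, RGP.lvl_actH, Pi.zero_apply] at h ⊢
      exact h.imp (BadC.act ε) (And.imp_right (BadN.act ε))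
    have e : actH T 0 (actH T 0 w) = w := RGP.hist_ext fun i => by
      simp only [RGP.lvl_actH, Pi.zero_apply, act_act0]
    exact ⟨key w, fun h => key _ (by rwa [e])⟩

theorem rat_model (i j : ℕ) : (model l hl a ha).rat i j = (LL l : ℤ) ^ (j - i) := by
  simp [RGP.Model.rat, model]

theorem mem_bat {j : ℕ} {z : St} {w : Hs} : w ∈ (bad hl ha ε).bat j ((LL l : ℤ) ^ j • z) ↔
    BadC ε (lvl w j) z ∨ j ≠ 0 ∧ BadN l ε (lvl w (j - 1)) (lvl w j) z := by
  have e : (fun i => ((LL l : ℤ) ^ j • z) i / (model l hl a ha).rat 0 j) = z := funext fun i => by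
    rw [rat_model, Nat.sub_zero, Pi.smul_apply, smul_eq_mul,
      Int.mul_ediv_cancel_left _ (pow_ne_zero _ (by have := LL_pos l; omega))]
  rw [RGP.Model.Bad.bat, e]
  simp only [bad, bad0, Set.mem_ofPred_eq, RGP.lvl_actH, act_T0,
    RGP.Model.sc, rat_model, Nat.sub_self, pow_zero, one_smul]
  refine or_congr (by simp only [BadC, hol_sh, add_zero]) (and_congr_right fun hj => ?_)
  rw [show j - (j - 1) = 1 by omega, pow_one, ← up]
  simp only [BadN, blk_sh, sh_apply, add_zero]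

theorem not_Bd {j : ℕ} {w : Hs} : w ∉ (bad hl ha ε).Bd j ↔
    ∀ i < j, curvG ε (lvl w i) ∧ (i ≠ 0 → noiseG l ε (lvl w (i - 1)) (lvl w i)) := by
  simp only [RGP.Model.Bad.Bd, Set.mem_ofPred_eq, not_exists, not_and, curvG_iff, noiseG_iff]
  refine forall₂_congr fun i _ => ⟨fun h => ?_, fun h Q hQ hw => ?_⟩
  · have := fun z h' => h _ (fun μ => by rw [rat_model]; exact dvd_mul_right _ _)
      ((mem_bat hl ha ε (z := z)).2 h')
    exact ⟨fun z h' => this z (.inl h'), fun h0 z h' => this z (.inr ⟨h0, h'⟩)⟩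
  · choose z hz using hQ
    rw [show Q = (LL l : ℤ) ^ i • z from funext fun μ => by rw [hz, rat_model]; rfl, mem_bat] at hw
    exact hw.elim (h.1 z) fun h' => h.2 h'.1 z h'.2

theorem lint_ker (ha : 1 ≤ a) {n : ℕ} (g : Conf) {b : Lk} (hb : b ∈ lcube n) {φ : S3 → ℝ≥0∞}
    (hφ : Measurable φ) : ∫⁻ W, (∏ c ∈ lcube n, hk a (per n W c * (g c)⁻¹)) *
      φ (per n W b * (g b)⁻¹) ∂PP = ∫⁻ x, hk a x * φ x ∂haar := by
  classical
  obtain ⟨C, hC⟩ := hk_tail
  set f : Lk → S3 → ℝ≥0∞ := fun c x => hk a (x * (g c)⁻¹) * if c = b then φ (x * (g b)⁻¹) else 1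
  have mf : ∀ c, Measurable (f c) := fun c => ((Ms.meas_hk a).comp (measurable_mul_const _)).mul
    (by split_ifs; exacts [hφ.comp (measurable_mul_const _), measurable_const])
  have hp : ∀ (W : Conf), ∀ c ∈ lcube n, per n W c = W c := fun W c hc => by
    rw [per, show (fun i => c.1 i % (n : ℤ)) = c.1 from funext fun i =>
      Int.emod_eq_of_lt (mem_cube.1 (mem_lcube.1 hc) i).1 (mem_cube.1 (mem_lcube.1 hc) i).2]
  have e1 : ∀ W : Conf, (∏ c ∈ lcube n, hk a (per n W c * (g c)⁻¹)) * φ (per n W b * (g b)⁻¹) =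
      ∏ c : lcube n, f c ((lcube n).restrict W c) := fun W => by
    simp only [f, restrict, prod_coe_sort (lcube n) fun c =>
      hk a (W c * (g c)⁻¹) * if c = b then φ (W c * (g b)⁻¹) else 1, prod_mul_distrib,
      prod_ite_eq', if_pos hb, hp W b hb]
    rw [prod_congr rfl fun c hc => by rw [hp W c hc]]
  have m1 : Measurable fun x : lcube n → S3 => ∏ c : lcube n, f c (x c) :=
    Finset.measurable_fun_prod _ fun c _ => (mf c).comp (measurable_pi_apply c)
  simp only [e1]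
  rw [← lintegral_map m1 (measurable_restrict _), PP, Measure.infinitePi_map_restrict,
    Ms.lint_pi_prod (μ := fun _ => haar) (fun c : lcube n => f c) fun c => mf c,
    prod_coe_sort (lcube n) fun c => ∫⁻ x, f c x ∂haar,
    prod_eq_single_of_mem b hb fun c _ hc => ?_]
  · simp only [f, if_true]
    exact lintegral_mul_right_eq_self (fun x => hk a x * φ x) _
  · simp only [f, if_neg hc, mul_one]
    rw [lintegral_mul_right_eq_self (hk a), (hC a 0 ha le_rfl).2.1]

theorem JZ_lint {β : ℝ} (ha : 1 ≤ β * LL l ^ 2) (j n : ℕ) {g : Hs → ℝ} (hg : BM g)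
    (h0 : ∀ w, 0 ≤ g w) : ENNReal.ofReal ((model l hl _ ha).JZ (wpot β) j (cv n) g) =
      ∫⁻ w, RR l β (fun i => LL l ^ (j - i) * n) j (pcH (fun i => cv (LL l ^ (j - i) * n : ℕ)) w) *
        ENNReal.ofReal (g (pcH (fun i => cv (LL l ^ (j - i) * n : ℕ)) w)) ∂PH := by
  rw [RGP.Model.JZ, ofReal_integral_eq_lintegral_ofReal
    (((model l hl _ ha).bm_JZ (pot_wpot β) j _ hg).integrable _)
    (ae_of_all _ fun w => mul_nonneg (RGP.BW_pos _ _).le (mul_nonneg
      (h0 _) ((model l hl _ ha).dens_nonneg _ _)))]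
  refine lintegral_congr fun w => ?_
  rw [sc_model, ENNReal.ofReal_mul (RGP.BW_pos _ _).le, ENNReal.ofReal_mul (h0 _), dens_model,
    RGP.lvl_pcH, BW_wpot, RR, mul_assoc, mul_comm (∏ _ ∈ _, _)]
  rfl

theorem lint_link {β : ℝ} (ha : 1 ≤ β * LL l ^ 2) (n : ℕ → ℕ) (j : ℕ) {b : Lk}
    (hb : b ∈ lcube (n (j + 1))) {φ : S3 → ℝ≥0∞} (hφ : Measurable φ) :
    ∫⁻ w, RR l β n (j + 1) (pcH (fun i => cv (n i)) w) *
      φ (per (n (j + 1)) (lvl w (j + 1)) b * (blk l (per (n j) (lvl w j)) b)⁻¹) ∂PH =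
    (∫⁻ w, RR l β n j (pcH (fun i => cv (n i)) w) ∂PH) *
      ∫⁻ x, hk (β * LL l ^ 2) x * φ x ∂haar := by
  have mp := fun n : ℕ => (Ms.cont_per n).measurable
  have mX : Measurable fun w : Hs => RR l β n j (pcH (fun i => cv (n i)) w) :=
    (meas_RR l β n j).comp (RGP.measurable_pcH _)
  set K : Conf × Conf → ℝ≥0∞ := fun p => (∏ c ∈ lcube (n (j + 1)),
    hk (β * LL l ^ 2) (p.1 c * (blk l p.2 c)⁻¹)) * φ (p.1 b * (blk l p.2 b)⁻¹) with hK
  have mK : Measurable K := (Ms.meas_ker l _ _).mul (hφ.comp (Ms.meas_link l b))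
  have mΦ : Measurable fun p : Hs × Conf => RR l β n j (pcH (fun i => cv (n i)) p.1) *
      K (per (n (j + 1)) p.2, per (n j) (lvl p.1 j)) :=
    (mX.comp measurable_fst).mul (mK.comp (((mp _).comp measurable_snd).prodMk
      ((mp _).comp ((RGP.measurable_lvl j).comp measurable_fst))))
  have := lint_lvl (j + 1) mΦ fun w w' W h => by
    have h1 : ∀ i < j + 1, lvl (pcH (fun i => cv (n i)) w) i =
        lvl (pcH (fun i => cv (n i)) w') i := fun i hi => by
      rw [RGP.lvl_pcH, RGP.lvl_pcH, h i hi]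
    simp only [h j j.lt_succ_self, RR, h1 0 (by omega)]
    rw [prod_congr rfl fun i hi => by
      rw [h1 i (by have := mem_range.1 hi; omega), h1 (i + 1) (by have := mem_range.1 hi; omega)]]
  refine Eq.trans (lintegral_congr fun w => ?_) (this.trans ?_)
  · simp only [RR, prod_range_succ, mul_assoc, hK]
    rfl
  · rw [← lintegral_lintegral_swap mΦ.aemeasurable, ← lintegral_mul_const _ mX]
    refine lintegral_congr fun w => ?_
    have m1 : Measurable fun W => K (per (n (j + 1)) W, per (n j) (lvl w j)) :=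
      mK.comp ((mp _).prodMk measurable_const)
    rw [← lint_ker ha (blk l (per (n j) (lvl w j))) hb hφ]
    exact lintegral_const_mul (RR l β n j (pcH (fun i => cv (n i)) w)) m1

theorem JZ_link {β : ℝ} (ha : 1 ≤ β * LL l ^ 2) (j n : ℕ) {b : Lk} (hb : b ∈ lcube n) {s : Set S3}
    (hs : MeasurableSet s) {p : ℝ} (p0 : 0 ≤ p)
    (hp : ∫⁻ x in s, hk (β * LL l ^ 2) x ∂haar ≤ ENNReal.ofReal p) :
    (model l hl _ ha).JZ (wpot β) (j + 1) (cv n)
        (fun w => ind s (lvl w (j + 1) b * (blk l (lvl w j) b)⁻¹)) ≤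
      p * (model l hl _ ha).JZ (wpot β) (j + 1) (cv n) fun _ => 1 := by
  obtain ⟨C, hC⟩ := hk_tail
  have hb' : b ∈ lcube (LL l ^ (j + 1 - (j + 1)) * n) := by simpa using hb
  have h1 := JZ_lint hl ha (j + 1) n ((RGP.bm_ind hs).comp ((Ms.meas_link l b).comp
    ((RGP.measurable_lvl (j + 1)).prodMk (RGP.measurable_lvl j)))) fun _ => RGP.ind_nonneg _ _
  have h2 := JZ_lint hl ha (j + 1) n (BM.const 1) fun _ => zero_le_one
  have h3 := lint_link ha (fun i => LL l ^ (j + 1 - i) * n) j hb' (RGP.bm_ind hs).meas.ennreal_ofReal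
  have h4 := lint_link ha (fun i => LL l ^ (j + 1 - i) * n) j hb' (φ := fun _ => ENNReal.ofReal 1)
    measurable_const
  have h5 : 0 ≤ (model l hl _ ha).JZ (wpot β) (j + 1) (cv n) fun _ => 1 :=
    integral_nonneg fun w => mul_nonneg (RGP.BW_pos _ _).le (mul_nonneg
      zero_le_one ((model l hl _ ha).dens_nonneg _ _))
  rw [← ENNReal.ofReal_le_ofReal_iff (mul_nonneg p0 h5), ENNReal.ofReal_mul p0, h2, h4]
  simp only [ENNReal.ofReal_one, mul_one, (hC _ 0 ha le_rfl).2.1]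
  refine (h1.trans h3).trans_le (mul_comm (ENNReal.ofReal p) _ ▸ mul_le_mul_right (le_trans
    (le_of_eq ?_) hp) _)
  rw [← lintegral_indicator hs]
  exact lintegral_congr fun x => by by_cases h : x ∈ s <;> simp [ind, h]

theorem noise_per {n : ℕ} (hn : 0 < n) {U W : Conf} (hU : Per (LL l * n) U) (hW : Per n W)
    (h : ∀ b ∈ lcube n, ‖(W b * (blk l U b)⁻¹).q - 1‖ ≤ ε) : noiseG l ε U W := fun b => by
  have e : b.1 = (fun i => b.1 i % n) + (n : ℤ) • fun i => b.1 i / n :=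
    funext fun i => (Int.emod_add_mul_ediv _ _).symm
  have h1 := h (fun i => b.1 i % n, b.2) (mem_lcube.2 (mem_cube.2 fun i =>
    ⟨Int.emod_nonneg _ (by omega), Int.emod_lt_of_pos _ (by omega)⟩))
  have h2 := hU.sh_smul fun i => b.1 i / n
  rw [Nat.cast_mul, mul_smul, ← up] at h2
  rw [← hW.sh_smul fun i => b.1 i / n, ← h2, blk_sh] at h1
  simpa only [sh_apply, ← e] using h1

/-- the output of the renormalisation group is the input of the multi-scale recursion -/
theorem Sand.inp : ∃ C : ℝ, 0 ≤ C ∧ ∀ {l : ℕ} (hl : 1 ≤ l) {β : ℝ} (ha : 1 ≤ β * LL l ^ 2)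
    {ε gam Del : ℝ} {k M : ℕ}, 0 < M → 0 ≤ ε → 0 ≤ gam → Sand l β ε k M gam Del → ∀ j ≤ k, ∃ E : ℝ,
      (bad hl ha ε).Inp (wpot β) j M E gam (Real.exp (2 * gam * (18 * 9 ^ 16 * M) ^ 4 - Del) +
        4 * (18 * 9 ^ 16 * M) ^ 4 * (C * (β * LL l ^ 2) ^ 2 *
          Real.exp (-(β * LL l ^ 2 * ε ^ 2)))) := by
  obtain ⟨C, hC⟩ := hk_tail
  refine ⟨|C|, abs_nonneg C, fun {l} hl {β} ha {ε gam Del k M} M0 ε0 g0 h j hj => ?_⟩
  obtain ⟨E, hE⟩ := Sand.jz hl ha h hj
  refine ⟨E, fun N hN => ?_⟩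
  lift N to ℕ using by omega
  obtain ⟨h1, h2, h3⟩ := hE N (by exact_mod_cast hN)
  have hu := pot_wpot β
  have mB := (bad hl ha ε).meas_Bd
  have hG : ∀ w, w ∉ (bad hl ha ε).Bd j → (j ≠ 0 → noiseG l ε (lvl w (j - 1)) (lvl w j)) →
      w ∈ GoodH l ε j := fun w hw h' i hi => ⟨((not_Bd hl ha ε).1 hw i hi).1, by
    rcases (Nat.succ_le_of_lt hi).eq_or_lt with e | e
    · subst e
      exact h' i.succ_ne_zero
    · exact ((not_Bd hl ha ε).1 hw _ e).2 i.succ_ne_zero⟩
  have hZ := (model l hl _ ha).JZ_one hu j (N := cv N)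
  have mG := meas_GoodH l ε j
  have mC : MeasurableSet {w : Hs | ¬ curvG ε (lvl w j)} :=
    RGP.measurable_lvl j (Ms.meas_curv ε).compl
  have hN0 : 0 < N := by omega
  rw [hZ fun _ => by simpa using hN0] at h3
  push_cast
  refine ⟨le_trans ((model l hl _ ha).JZ_mono hu j _ (RGP.bm_ind (mB _).compl) (RGP.bm_ind mG)
    fun w => Set.indicator_le_indicator_of_subset (fun w hw => ?_) (fun _ => zero_le_one) _) h1,
    fun hN' => ?_, h3⟩
  · exact hG w (fun ⟨i, hi, H⟩ => hw ⟨i, by omega, H⟩)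
      ((not_Bd hl ha ε).1 hw j j.lt_succ_self).2
  set s : Set S3 := {g | ε < ‖g.q - 1‖} with hs
  have ms : MeasurableSet s := measurableSet_lt measurable_const Ms.meas_nsub
  set g : Lk → Hs → ℝ := fun b w =>
    if j = 0 then 0 else ind s (lvl w j b * (blk l (lvl w (j - 1)) b)⁻¹) with hg
  have bg : ∀ b, BM (g b) := fun b => by
    simp only [hg]
    split_ifs
    · exact BM.const 0
    · exact (RGP.bm_ind ms).comp ((Ms.meas_link l b).comp
        ((RGP.measurable_lvl j).prodMk (RGP.measurable_lvl (j - 1))))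
  have g0' : ∀ b w, 0 ≤ g b w := fun b w => by
    simp only [hg]
    split_ifs
    exacts [le_rfl, RGP.ind_nonneg _ _]
  set p := |C| * (β * LL l ^ 2) ^ 2 * Real.exp (-(β * LL l ^ 2 * ε ^ 2)) with hp
  have p0 : 0 ≤ p := by positivity
  set Z := RGP.ZZ haar (wpot β) (cv ((model l hl _ ha).rat 0 j * N)) fun _ => 1 with hZ'
  have Z0 : 0 < Z := hu.zz_pos haar _
  have hgp : ∀ b ∈ lcube N, (model l hl _ ha).JZ (wpot β) j (cv N) (g b) ≤ p * Z := by
    intro b hb
    cases j with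
    | zero => simpa [hg, RGP.Model.JZ] using mul_nonneg p0 Z0.le
    | succ j =>
      refine (JZ_link hl ha j N hb ms p0 ((hC _ ε ha ε0).2.2.2.2.trans
        (ENNReal.ofReal_le_ofReal ?_))).trans_eq (congrArg _ (hZ fun _ => by simpa using hN0))
      rw [hp]
      gcongr
      exact le_abs_self C
  refine ((model l hl _ ha).JZ_mono hu j _ (RGP.bm_ind ((mB _).diff (mB _)))
    ((RGP.bm_ind (mG.inter mC)).add (BM.sum (s := lcube N) fun b _ => bg b)) fun w => ?_).trans ?_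
  · generalize hw : pcH ((model l hl _ ha).sc j (cv N)) w = v
    have n1 : 0 ≤ ∑ b ∈ lcube N, g b v := sum_nonneg fun b _ => g0' b v
    by_cases h4 : v ∈ (bad hl ha ε).Bd (j + 1) \ (bad hl ha ε).Bd j
    swap
    · rw [RGP.ind_of_not h4]
      exact add_nonneg (RGP.ind_nonneg _ _) n1
    rw [RGP.ind_of_mem h4]
    by_cases h5 : j ≠ 0 → noiseG l ε (lvl v (j - 1)) (lvl v j)
    · rw [RGP.ind_of_mem (s := GoodH l ε j ∩ {w | ¬ curvG ε (lvl w j)})
        ⟨hG v h4.2 h5, fun h6 => (not_Bd hl ha ε).2 (fun i hi => ?_) h4.1⟩]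
      · linarith
      · rcases (Nat.lt_succ_iff.1 hi).eq_or_lt with rfl | e
        exacts [⟨h6, h5⟩, (not_Bd hl ha ε).1 h4.2 i e]
    · obtain ⟨h6, h7⟩ := Classical.not_imp.1 h5
      have hv : ∀ i, Per (LL l ^ (j - i) * N) (lvl v i) := fun i => by
        rw [← hw, sc_model, RGP.lvl_pcH, pc_cv]
        exact per_per _ _
      have h8 := hv (j - 1)
      have h9 := hv j
      rw [show j - (j - 1) = 1 by omega, pow_one] at h8
      rw [Nat.sub_self, pow_zero, one_mul] at h9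
      obtain ⟨b, hb, h10⟩ : ∃ b ∈ lcube N,
          ε < ‖(lvl v j b * (blk l (lvl v (j - 1)) b)⁻¹).q - 1‖ := by
        by_contra hc
        exact h7 (noise_per ε hN0 h8 h9 fun b hb => not_lt.1 fun h => hc ⟨b, hb, h⟩)
      refine le_add_of_nonneg_of_le (RGP.ind_nonneg _ _)
        (le_trans (le_of_eq ?_) (single_le_sum (fun b _ => g0' b v) hb))
      simp only [hg, if_neg h6]
      exact (RGP.ind_of_mem h10).symm
  rw [(model l hl _ ha).JZ_add hu j _ (RGP.bm_ind (mG.inter mC)) (BM.sum fun b _ => bg b),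
    (model l hl _ ha).JZ_sum hu j _ _ bg, add_mul]
  have hN2 : (N : ℝ) ^ 4 ≤ (18 * 9 ^ 16 * M) ^ 4 :=
    pow_le_pow_left₀ (by positivity) (by exact_mod_cast hN') _
  refine add_le_add (h2.trans (le_trans ?_ (mul_le_mul_of_nonneg_left h3 (Real.exp_pos _).le)))
    ((sum_le_card_nsmul _ _ _ hgp).trans ?_)
  · rw [← Real.exp_add, Real.exp_le_exp]
    nlinarith
  · rw [card_lcube, nsmul_eq_mul, ← mul_assoc]
    push_cast
    rw [mul_comm _ (4 : ℝ)]
    gcongr

end Pool.Agent.Lib.MP_7f377f_mp.RG.Pv
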