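import Pool.Agent.Lib.MP_7f377f_mp.R3DetH
import Pool.Agent.Lib.MP_7f377f_mp.P3Br

/-! Symmetries and reflection positivity of the block averaged Wilson field. -/

noncomputable section

namespace Pool.Agent.Lib.MP_7f377f_mp.RGP

open MeasureTheory Function

variable {d : ℕ} {G : Type} [MeasurableSpace G] (μ : Measure G) [IsProbabilityMeasure μ]
  [Group G] [MeasurableMul₂ G] [MeasurableInv G] [μ.IsInvInvariant] [μ.IsMulRightInvariant]
  {u : (Lk d → G) → ℝ}

/-- reflection positivity for the reflection in the planes `x_k = 0` and `x_k = h` -/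
theorem Pot.rp (hu : Pot u) {h : ℤ} (h0 : 0 < h) (k : Fin d) {F : (Lk d → G) → ℝ} (bF : BM F)
    (dF : DependsOn F (slab k h)) :
    0 ≤ ZZ μ u (cv (2 * h)) fun W => F W * F (RGP.act (T1 k) 0 W) := by
  have hn : ∀ i : Fin d, 0 < cv (2 * h) i := fun _ => by positivity
  set hb : St d := update (cv (2 * h)) k h with hhb
  have e1 : ∀ w : Lk d → G, BW u hb (pc (cv (2 * h)) w) *
      BW u hb (RGP.act (T1 k) 0 (pc (cv (2 * h)) w)) = BW u (cv (2 * h)) (pc (cv (2 * h)) w) := by
    intro w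
    refine Eq.trans ?_ (hu.tile hn hb Finset.univ (fun b : Bool => if b then T1 k else T0)
      (fun _ => 0) (fun b _ b' _ x hx x' hx' H => ?_) ?_ w)
    · simp [act_zero, mul_comm]
    · have a1 := mem_box.mp hx k
      have a2 := mem_box.mp hx' k
      have a3 := H k
      simp only [hhb, update_self] at a1 a2
      have a4 := eq_of_dvd a3 (by simp only [cv]; split_ifs <;> simp <;> nlinarith)
        (by simp only [cv]; split_ifs <;> simp <;> nlinarith)
      have e : b = b' := by cases b <;> cases b' <;> simp [T1] at a4 ⊢ <;> omega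
      subst e
      refine ⟨rfl, funext fun i => ?_⟩
      by_cases hi : i = k
      · subst hi
        cases b <;> simpa [T1] using a4
      · have b1 := mem_box.mp hx i
        have b2 := mem_box.mp hx' i
        have b3 := H i
        simp only [hhb, update_of_ne hi] at b1 b2
        refine eq_of_dvd (n := cv (2 * h) i) ?_ (by omega) (by omega)
        cases b <;> simpa [T1, hi] using b3
    · have : (cv (2 * h) : St d) = update (1 : St d) k 2 * hb := by
        funext i
        by_cases hi : i = k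
        · simp [hi, hhb]
        · simp [hi, hhb]
      rw [this, card_box_mul (fun i => by by_cases hi : i = k <;> simp [hi])
        (fun i => by by_cases hi : i = k <;> simp [hi, hhb, h0]), card_box]
      refine Nat.mul_le_mul_right _ (le_of_eq ?_)
      rw [Finset.prod_eq_single k (fun i _ hi => by simp [hi]) (by simp)]
      simp
  have := sq_KK μ (n := cv (2 * h)) (k := k) h0 (by simp only [cv]; omega) ((hu.bw hb).mul bF)
    (DependsOn.mul' ((hu.bw_dep hb).mono fun e (he : e ∈ cell hb) => by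
      simpa [hhb] using he k) dF) T0 0
  rw [show update (cv (2 * h) : St d) k (2 * h) = cv (2 * h) from update_eq_self k _] at this
  refine (integral_nonneg fun w => mul_self_nonneg _).trans_eq (this.trans ?_)
  exact TI_congr μ _ fun w => by simp only [← e1]; ring

end Pool.Agent.Lib.MP_7f377f_mp.RGP

namespace Pool.Agent.Lib.MP_7f377f_mp.RG.D3.Ds

open MeasureTheory BoundedContinuousFunction Finset Dt Fi D3.Pv
open scoped Quaternion

/-! ### translations and gauge transformations -/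

theorem blkH_sh (l : ℕ) (y : St) (X : FH) : blkH l (sh (up l y) X) = sh y (blkH l X) := by
  funext b
  simp only [blkH, sh_apply, sh_sh, up_add]

theorem dnH_sh (v m : ℕ) (y : St) : ∃ z, ∀ X, dnH v m (sh z X) = sh y (dnH v m X) := by
  induction m generalizing v y with
  | zero => exact ⟨y, fun _ => rfl⟩
  | succ m ih =>
    obtain ⟨z, hz⟩ := ih (v + 1) (up (ll v) y)
    exact ⟨z, fun X => by rw [dnH, hz, blkH_sh, dnH]⟩

theorem ps_yo {l n : ℕ} {g : St → S3} (h : M3.PS n g) : M3.PS (LL l * n) fun x => g (yo l x) :=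
  fun _ _ e => h _ _ e.yo

theorem dnH_gH (v m : ℕ) {g : St → S3} (h : M3.PS (nn v) g) :
    ∃ g', M3.PS (nn (v + m)) g' ∧ ∀ X, dnH v m (gH g' X) = gH g (dnH v m X) := by
  induction m generalizing v g with
  | zero => exact ⟨g, h, fun _ => rfl⟩
  | succ m ih =>
    obtain ⟨g', h1, h2⟩ := ih (v + 1) (g := fun x => g (yo (ll v) x))
      (by rw [M3.nn_succ]; exact ps_yo h)
    exact ⟨g', by rwa [add_right_comm] at h1, fun X => by
      rw [dnH, h2, blkH_gH, dnH]; simp only [yo_up]⟩

/-! ### reflections -/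

/-- reflection of quaternion valued fields -/
def rH (T : Fin 3 → Bool) (X : FH) : FH := fun e =>
  if T e.2 then star (X (rf T e.1 - un e.2, e.2)) else X (rf T e.1, e.2)

variable {T : Fin 3 → Bool} {μ : Fin 3} {X X' : FH}

theorem qF_act (T : Fin 3 → Bool) (U : Conf) : qF (RGP.act T 0 U) = rH T (qF U) := by
  funext ⟨x, μ⟩
  by_cases h : T μ = true
  · simp only [qF, rH, act_pos h, if_pos h, S3.q_inv]
  · simp only [qF, rH, act_neg h, if_neg h]

theorem sh_rH (y : St) : sh y (rH T X) = rH T (sh (rf T y) X) := by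
  funext e
  simp only [rH, sh, rf_add, add_sub_right_comm]

theorem lnP_rH (p : St) (k : ℕ) : lnP (rH T X) p μ k =
    if T μ then lnN star X (rf T p) μ k else lnP X (rf T p) μ k := by
  induction k with
  | zero => simp [lnP, lnN]
  | succ k ih =>
    rw [lnP, ih, lnN, lnP, rH]
    simp only [rf_add, rf_smul, rf_un]
    split_ifs
    · congr 4
      rw [add_smul, one_smul, smul_neg]
      abel
    · rfl

theorem lnN_rH (p : St) (k : ℕ) : lnN star (rH T X) p μ k =
    if T μ then lnP X (rf T p) μ k else lnN star X (rf T p) μ k := by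
  induction k with
  | zero => simp [lnP, lnN]
  | succ k ih =>
    rw [lnN, ih, lnN, lnP, rH, sub_eq_add_neg p, ← neg_smul]
    simp only [rf_add, rf_smul, rf_un]
    split_ifs
    · rw [star_star]
      congr 3
      rw [neg_smul, smul_neg, neg_neg, add_smul, one_smul]
      abel
    · rw [neg_smul, sub_eq_add_neg]

theorem ln_rH (p : St) (k : ℤ) :
    ln star (rH T X) p μ k = ln star X (rf T p) μ (if T μ then -k else k) := by
  rw [ln, lnP_rH, lnN_rH, ln]
  split_ifs
  · rw [neg_neg]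
    rcases le_total k 0 with h | h
    · rw [Int.toNat_eq_zero.2 h, lnN, one_mul, mul_one]
    · rw [Int.toNat_eq_zero.2 (neg_nonpos.2 h), lnP, one_mul, mul_one]
  · rfl

theorem cmb_rH (x : St) : cmb star (rH T X) x = cmb star X (rf T x) := by
  have : ∀ μ, rf T (pre x μ) = pre (rf T x) μ := fun μ => funext fun i => by
    simp only [rf, pre]
    split_ifs <;> simp
  simp only [cmb, ln_rH, this]
  rfl

theorem lnP_left' (p : St) (k : ℕ) : lnP X p μ (k + 1) = X (p, μ) * lnP X (p + un μ) μ k := by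
  induction k with
  | zero => simp [lnP]
  | succ k ih =>
    rw [lnP, ih, lnP, mul_assoc]
    congr 4
    push_cast
    rw [add_smul, one_smul]
    abel

theorem lnN_star (p : St) (k : ℕ) :
    lnN star X p μ k = star (lnP (sh (-((k : ℤ) • un μ)) X) p μ k) := by
  have e : ∀ y p k, lnP (sh y X) p μ k = lnP X (p + y) μ k := fun y p k => by
    induction k with
    | zero => rfl
    | succ k ih => rw [lnP, lnP, ih, sh_apply, add_right_comm]
  rw [e]
  induction k with
  | zero => simp [lnP, lnN]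
  | succ k ih =>
    rw [lnN, ih, lnP_left', star_mul, Nat.cast_succ, sub_eq_add_neg,
      show p + -(((k : ℤ) + 1) • un μ) + un μ = p + -((k : ℤ) • un μ) by
        rw [add_smul, one_smul]; abel]

theorem avH_rH (l : ℕ) : avH l μ (rH T X) =
    if T μ then star (avH l μ (sh (-up l (un μ)) X)) else avH l μ X := by
  simp only [avH, mean, sh_rH, cmb_rH, lnP_rH, up, rf_smul, rf_un]
  split_ifs
  · simp only [Quaternion.star_smul, star_sum, star_mul, star_star, sh_sh, add_neg_cancel, sh_zero,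
      smul_neg, lnN_star, mul_assoc]
    rw [sum_rf T l fun t => cmb star X t * (star (lnP (sh (-((LL l : ℤ) • un μ)) X) t μ (LL l)) *
      star (cmb star (sh (-((LL l : ℤ) • un μ)) X) t))]
  · rw [sum_rf T l fun t => cmb star X t * lnP X t μ (LL l) *
      star (cmb star (sh ((LL l : ℤ) • un μ) X) t)]

theorem blkH_rH (l : ℕ) : blkH l (rH T X) = rH T (blkH l X) := by
  funext ⟨y, μ⟩
  simp only [blkH, rH, sh_rH, avH_rH]
  split_ifs
  · rw [YD.nrm, YD.nrm, norm_star, Quaternion.star_smul, sh_sh, up_sub, up, up, up, rf_smul,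
      neg_add_eq_sub]
  · rw [up, up, rf_smul]

theorem dnH_rH (v m : ℕ) : dnH v m (rH T X) = rH T (dnH v m X) := by
  induction m generalizing v with
  | zero => rfl
  | succ m ih => rw [dnH, ih, blkH_rH, dnH]

/-! ### locality -/

/-- agreement on a slab -/
def Sl (i : Fin 3) (a b : ℤ) (X X' : FH) : Prop :=
  ∀ e : Lk, a ≤ e.1 i → e.1 i + un e.2 i ≤ b → X e = X' e

variable {i : Fin 3} {a b : ℤ}

theorem Sl.lnP (h : Sl i a b X X') {p : St} {k : ℕ} (h1 : a ≤ p i) (h2 : p i + k * un μ i ≤ b) :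
    lnP X p μ k = lnP X' p μ k := by
  have := un_nonneg μ i
  induction k with
  | zero => rfl
  | succ k ih =>
    push_cast at h2
    have : 0 ≤ k * un μ i := by positivity
    rw [D3.lnP, D3.lnP, ih (by linarith), h _ (by simp; linarith) (by simp; linarith)]

theorem Sl.lnN (h : Sl i a b X X') {p : St} {k : ℕ} (h1 : a ≤ p i - k * un μ i) (h2 : p i ≤ b) :
    lnN star X p μ k = lnN star X' p μ k := by
  have := un_nonneg μ i
  induction k with
  | zero => rfl
  | succ k ih =>
    push_cast at h1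
    have : 0 ≤ k * un μ i := by positivity
    rw [D3.lnN, D3.lnN, ih (by linarith), h _ (by simp; linarith) (by simp; linarith)]

theorem Sl.ln (h : Sl i a b X X') {p : St} {k : ℤ} (h1 : a ≤ p i) (h2 : p i ≤ b)
    (h3 : a ≤ p i + k * un μ i) (h4 : p i + k * un μ i ≤ b) :
    ln star X p μ k = ln star X' p μ k := by
  rw [D3.ln, D3.ln]
  rcases le_total k 0 with hk | hk
  · rw [Int.toNat_eq_zero.2 hk, h.lnN (by rw [Int.toNat_of_nonneg (by omega)]; linarith) h2]
    rfl
  · rw [Int.toNat_eq_zero.2 (neg_nonpos.2 hk), h.lnP h1 (by rwa [Int.toNat_of_nonneg hk])]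
    rfl

theorem Sl.cmb (h : Sl i a b X X') {x : St} (h1 : a ≤ 0) (h2 : 0 ≤ b) (h3 : a ≤ x i)
    (h4 : x i ≤ b) : cmb star X x = cmb star X' x := by
  have : ∀ μ, D3.ln star X (pre x μ) μ (x μ) = D3.ln star X' (pre x μ) μ (x μ) := fun μ => by
    refine h.ln ?_ ?_ ?_ ?_ <;> simp only [pre, un_apply] <;> split_ifs <;>
      first | omega | (subst_vars; omega)
  simp only [D3.cmb, this]

theorem Sl.sh (h : Sl i a b X X') (y : St) : Sl i (a - y i) (b - y i) (sh y X) (sh y X') :=
  fun e h1 h2 => h _ (by simp; linarith) (by simp; linarith)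

theorem Sl.avH {l : ℕ} (h : Sl i a b X X') (h1 : a ≤ -l) (h2 : LL l * un μ i + l ≤ b) :
    avH l μ X = avH l μ X' := by
  have : 0 ≤ LL l * un μ i := mul_nonneg (by positivity) (un_nonneg μ i)
  unfold Dt.avH mean
  congr 1
  refine sum_congr rfl fun t ht => ?_
  have := mem_box.1 ht i
  beta_reduce
  rw [h.cmb (by omega) (by omega) (by omega) (by omega), h.lnP (by omega) (by omega),
    (h.sh (up l (un μ))).cmb] <;> rw [up_apply] <;> omega

/-- agreement on the interior of the first half of the torus -/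
def Hf (i : Fin 3) (n : ℕ) (X X' : FH) : Prop :=
  ∀ e : Lk, 1 ≤ e.1 i → 2 * (e.1 i + un e.2 i + 1) ≤ n → X e = X' e

theorem Hf.blkH {l n : ℕ} (h : Hf i (LL l * n) X X') : Hf i n (blkH l X) (blkH l X') :=
  fun e h1 h2 => by
    have L := LL_cast l
    have : Sl i 1 (LL l * (e.1 i + un e.2 i) + l) X X' := fun f a1 a2 => h f a1 (by
      push_cast
      nlinarith [mul_le_mul_of_nonneg_left h2 (show (0 : ℤ) ≤ LL l by positivity)])
    rw [Dt.blkH, Dt.blkH, (this.sh (up l e.1)).avH] <;> rw [up_apply] <;> nlinarith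

theorem Hf.dnH {v m : ℕ} (h : Hf i (nn (v + m)) X X') : Hf i (nn v) (dnH v m X) (dnH v m X') := by
  induction m generalizing v with
  | zero => exact h
  | succ m ih =>
    refine Hf.blkH ?_
    rw [← M3.nn_succ]
    exact ih (by rwa [add_right_comm])

/-! ### expectations -/

theorem int_wilson (γ : ℝ) (n : ℕ) [NeZero n] : ∃ c : ℝ, 0 ≤ c ∧ ∀ G : YM3.Cfg n → ℝ,
    Measurable G → ∫ U, G U ∂YD.wilson (tr haar) γ n =
      c * RGP.ZZ haar (wpot (γ * n)) (RGP.cv n) fun W => G (rs n W) := by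
  have e : ∀ U : YM3.Cfg n, ∑ x, ∑ i, ∑ j,
      (if i < j then 2 * (YD.plaq (fun e => (U e : ℍ)) x i j).re else 0) = wil n (lf U) := fun U => by
    rw [wil, sum_vl]
    refine sum_congr rfl fun x _ => sum_congr rfl fun i _ => sum_congr rfl fun j _ => ?_
    rw [← cst_vl x, ← hol_liftH, cst_vl, ← hol_q]
    rfl
  have m : Measurable fun U : YM3.Cfg n => Real.exp (γ * n * wil n (lf U)) :=
    (((meas_wil n).comp meas_lf).const_mul _).exp
  refine ⟨(∫ U : YM3.Cfg n, Real.exp (γ * n * wil n (lf U)) ∂Measure.pi fun _ => tr haar)⁻¹,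
    inv_nonneg.2 (integral_nonneg fun _ => (Real.exp_pos _).le), fun G hG => ?_⟩
  rw [YD.wilson]
  simp only [e]
  rw [integral_tilted]
  suffices ∀ Z : ℝ, ∫ U : YM3.Cfg n, (Real.exp (γ * n * wil n (lf U)) / Z) • G U
      ∂Measure.pi (fun _ => tr haar) =
    Z⁻¹ * RGP.ZZ haar (wpot (γ * n)) (RGP.cv n) fun W => G (rs n W) from this _
  intro Z
  have m' : Measurable fun U : YM3.Cfg n => (Real.exp (γ * n * wil n (lf U)) / Z) • G U :=
    (m.div_const Z).smul hG
  rw [← map_res, integral_map meas_rs.aemeasurable m'.aestronglyMeasurable, RGP.ZZ, RGP.TI, ← integral_const_mul]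
  refine integral_congr_ae (ae_of_all _ fun w => ?_)
  simp only [BW_wpot]
  rw [lf_rs, pc_cv, rs_per, smul_eq_mul]
  ring

theorem zz_gauge (β : ℝ) {n : ℕ} {g : St → S3} (hg : M3.PS n g) {F : Conf → ℝ} (hF : Measurable F) :
    RGP.ZZ haar (wpot β) (RGP.cv n) (fun W => F (gauge Inv.inv g W)) =
      RGP.ZZ haar (wpot β) (RGP.cv n) F := by
  have m : Measurable fun w => Real.exp (β * wil n (per n w)) * F (per n w) :=
    (((meas_wil n).const_mul β).exp.mul hF).comp (cont_per n).measurable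
  simp only [RGP.ZZ, RGP.TI, BW_wpot]
  simp only [pc_cv]
  refine Eq.trans ?_ (RGP.int_mp (M3.mp_gauge g) m)
  refine integral_congr_ae (ae_of_all _ fun w => ?_)
  simp only [M3.per_gauge hg, wil, M3.hol_gauge, Ms.re_conj]

/-- the averaged field of a periodic configuration -/
def Av (l k j : ℕ) (W : Conf) : FH := dnH j k (blkH l (qF W))

theorem Av_lift (l k j : ℕ) (w : Conf) :
    lift (res (nn j) (Av l k j (per (LL l * nn (j + k)) w))) =
      Av l k j (per (LL l * nn (j + k)) w) :=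
  lift_res_per (dnH_per (blkH_per fun μ => congrArg qF (per_per _ w μ)))

theorem meas_Av (l k j : ℕ) {H : YD.Fld (nn j) → ℝ} (hH : Continuous H) :
    Measurable fun W => H (res (nn j) (Av l k j W)) :=
  (hH.comp ((continuous_pi fun _ => continuous_apply _).comp ((cont_dnH j k).comp
    ((cont_blkH l).comp cont_qF)))).measurable

theorem int_iter [m : MeasurableSpace YD.SU2] [BorelSpace YD.SU2] (h : Measure YD.SU2)
    [h.IsHaarMeasure] [IsProbabilityMeasure h] (γ : ℝ) (l k j : ℕ) :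
    ∃ c β : ℝ, 0 ≤ c ∧ ∀ H : YD.Fld (nn j) → ℝ, Continuous H →
      ∫ U, H (YD.iter l k j fun e => U e) ∂YD.wilson h γ ((2 * l + 1) * (2 * 3 ^ (j + k) ^ 2)) =
        c * RGP.ZZ haar (wpot β) (RGP.cv (LL l * nn (j + k) : ℕ))
          fun W => H (res (nn j) (Av l k j W)) := by
  obtain rfl : m = mS := BorelSpace.measurable_eq
  have : (tr haar).IsHaarMeasure := (inferInstance : haar.IsHaarMeasure)
  obtain rfl := Measure.isHaarMeasure_eq_of_isProbabilityMeasure h (tr haar)
  obtain ⟨c, c0, hc⟩ := int_wilson γ ((2 * l + 1) * (2 * 3 ^ (j + k) ^ 2))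
  have e : ∀ U : YM3.Cfg (LL l * nn (j + k)), YD.iter l k j (fun e => (U e : ℍ)) =
      res (nn j) (Av l k j (lf U)) := fun U => iter_lift l k j _
  refine ⟨c, γ * ((2 * l + 1) * (2 * 3 ^ (j + k) ^ 2) : ℕ), c0, fun H hH => (hc _ ?_).trans ?_⟩
  · exact (funext fun U => congrArg H (e U)) ▸ (meas_Av l k j hH).comp meas_lf
  · refine congrArg _ (RGP.ZZ_congr _ _ fun w => congrArg H ((e _).trans ?_))
    have : NeZero (LL l * nn (j + k)) := ⟨(mul_pos (LL_pos l) (M3.nn_pos _)).ne'⟩
    exact congrArg (fun W => res (nn j) (Av l k j W))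
      ((congrArg lf (rs_per w)).trans (lf_rs w))

theorem res_rH {n : ℕ} [NeZero n] (i : Fin 3) (U : YD.Fld n) :
    res n (rH (RGP.T1 i) (lift U)) = YD.refl i U := by
  funext b
  have e : cst n (rf (RGP.T1 i) (vl b.1)) = Function.update b.1 i (-b.1 i) := funext fun k => by
    by_cases h : k = i <;> simp [cst, rf, vl, RGP.T1, h]
  simp only [res, rH, lift, YD.refl, cst_sub, e, RGP.T1, decide_eq_true_eq, cst_un1]
  split_ifs with h
  · rw [h]
    congr 3
    funext k
    by_cases h : k = i <;> simp [h]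
  · rfl

theorem refl_Av (l k j : ℕ) (i : Fin 3) (w : Conf) :
    YD.refl i (res (nn j) (Av l k j (per (LL l * nn (j + k)) w))) =
      res (nn j) (Av l k j (RGP.act (RGP.T1 i) 0 (per (LL l * nn (j + k)) w))) := by
  rw [← res_rH, Av_lift, Av, Av, qF_act, blkH_rH, dnH_rH]

theorem cont_refl {n : ℕ} (i : Fin 3) : Continuous (YD.refl (n := n) i) :=
  continuous_pi fun b => by
    simp only [YD.refl]
    split_ifs <;> fun_prop

theorem cv_pos (l k j : ℕ) (i : Fin 3) : 0 < RGP.cv (d := 3) (LL l * nn (j + k) : ℕ) i :=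
  Int.natCast_pos.2 (mul_pos (LL_pos l) (M3.nn_pos _))

/-- gauge transformations on the torus -/
def gT {n : ℕ} (g : (Fin 3 → ZMod n) → YD.SU2) (X : YD.Fld n) : YD.Fld n :=
  fun e => g e.1 * X e * star (g (e.1 + Pi.single e.2 1) : ℍ)

theorem cont_gT {n : ℕ} (g : (Fin 3 → ZMod n) → YD.SU2) : Continuous (gT g) :=
  continuous_pi fun e => (continuous_const.mul (continuous_apply e)).mul continuous_const

section core
variable (β : ℝ) (l k j : ℕ) {H : YD.Fld (nn j) → ℝ} (hH : Continuous H)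
include hH

theorem zz_shift (a : Fin 3 → ZMod (nn j)) :
    (RGP.ZZ haar (wpot β) (RGP.cv (LL l * nn (j + k) : ℕ))
      fun W => H fun e => res (nn j) (Av l k j W) (e.1 + a, e.2)) =
    RGP.ZZ haar (wpot β) (RGP.cv (LL l * nn (j + k) : ℕ)) fun W => H (res (nn j) (Av l k j W)) := by
  obtain ⟨z, hz⟩ := dnH_sh j k (vl a)
  rw [← (pot_wpot β).zz_act haar (cv_pos l k j) (meas_Av l k j hH) RGP.T0 (up l z)]
  refine RGP.ZZ_congr _ _ fun w => congrArg H (funext fun e => ?_)
  have : ∀ W, Av l k j (RGP.act RGP.T0 (up l z) W) = sh (vl a) (Av l k j W) := fun W => by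
    rw [Av, Av, ← hz, ← blkH_sh]
    rfl
  rw [this, pc_cv, ← Av_lift, res_lift]
  simp only [res, sh, lift, cst_add, cst_vl]

theorem zz_gH (g : (Fin 3 → ZMod (nn j)) → YD.SU2) :
    (RGP.ZZ haar (wpot β) (RGP.cv (LL l * nn (j + k) : ℕ)) fun W =>
      H (gT g (res (nn j) (Av l k j W)))) =
    RGP.ZZ haar (wpot β) (RGP.cv (LL l * nn (j + k) : ℕ)) fun W => H (res (nn j) (Av l k j W)) := by
  obtain ⟨g', h1, h2⟩ := dnH_gH j k (g := fun x => g (cst (nn j) x)) fun x y e =>
    congrArg g (funext fun i => ((ZMod.intCast_eq_intCast_iff_dvd_sub _ _ _).2 (e i)).symm)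
  rw [← zz_gauge β (ps_yo (l := l) h1) (meas_Av l k j hH)]
  refine congrArg _ (funext fun W => congrArg H (funext fun e => ?_))
  rw [Av, Av, ← gH_q, blkH_gH]
  simp only [yo_up, h2]
  simp only [gT, res, gH, gauge, cst_add, cst_vl, cst_un1]
  rfl

theorem zz_refl (i : Fin 3) :
    (RGP.ZZ haar (wpot β) (RGP.cv (LL l * nn (j + k) : ℕ))
      fun W => H (YD.refl i (res (nn j) (Av l k j W)))) =
    RGP.ZZ haar (wpot β) (RGP.cv (LL l * nn (j + k) : ℕ)) fun W => H (res (nn j) (Av l k j W)) := by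
  rw [← (pot_wpot β).zz_act haar (cv_pos l k j) (meas_Av l k j hH) (RGP.T1 i) 0]
  refine RGP.ZZ_congr _ _ fun w => ?_
  rw [pc_cv, refl_Av]

theorem zz_pos (i : Fin 3) {C : ℝ} (hC : ∀ X, |H X| ≤ C)
    (hF : DependsOn H {e | 1 ≤ (e.1 i).val ∧ (e.1 i).val + 1 < 3 ^ j ^ 2}) :
    0 ≤ RGP.ZZ haar (wpot β) (RGP.cv (LL l * nn (j + k) : ℕ))
      fun W => H (res (nn j) (Av l k j W)) * H (YD.refl i (res (nn j) (Av l k j W))) := by
  have e : ((LL l * nn (j + k) : ℕ) : ℤ) = 2 * (LL l * 3 ^ (j + k) ^ 2) := by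
    rw [nn]; push_cast; ring
  have := (pot_wpot β).rp haar (h := LL l * 3 ^ (j + k) ^ 2) (by have := LL_pos l; positivity) i
    (F := fun W => H (res (nn j) (Av l k j W))) ⟨meas_Av l k j hH, C, fun W => hC _⟩
    fun W W' hW => hF fun b hb => by
      have : Hf i (LL l * nn (j + k)) (qF W) (qF W') := fun f a1 a2 =>
        congrArg S3.q (hW f ⟨by omega, by
          rw [dl_eq]
          rw [e, un_apply] at a2
          rw [un_apply]
          split_ifs at a2 ⊢ <;> omega⟩)
      obtain ⟨b1, b2⟩ := hb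
      refine this.blkH.dnH (vl b.1, b.2) (Int.ofNat_le.2 b1) ?_
      have e2 : nn j = 2 * 3 ^ j ^ 2 := rfl
      simp only [vl, un_apply]
      generalize (b.1 i).val = t at b2 ⊢
      split_ifs <;> omega
  rw [← e] at this
  refine this.trans_eq (RGP.ZZ_congr _ _ fun w => ?_)
  rw [pc_cv, refl_Av]

end core

open YD

variable [MeasurableSpace SU2] [BorelSpace SU2] (h : Measure SU2) [h.IsHaarMeasure]
  [IsProbabilityMeasure h] {γ : ℝ} (hγ : 0 < γ) (l k j : ℕ) (F : YD.Fld (2 * 3 ^ j ^ 2) →ᵇ ℝ)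
include hγ

set_option linter.unusedSectionVars false

theorem sym_shift (a : Fin 3 → ZMod (2 * 3 ^ j ^ 2)) :
    ∫ U, F (fun e => iter l k j (fun e => (U e : ℍ)) (e.1 + a, e.2))
      ∂YD.wilson h γ ((2 * l + 1) * (2 * 3 ^ (j + k) ^ 2)) =
    ∫ U, F (iter l k j fun e => U e) ∂YD.wilson h γ ((2 * l + 1) * (2 * 3 ^ (j + k) ^ 2)) := by
  obtain ⟨c, β, -, hc⟩ := int_iter h γ l k j
  exact (hc (fun X => F fun e => X (e.1 + a, e.2))
    (F.continuous.comp (continuous_pi fun _ => continuous_apply _))).trans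
    ((congrArg (c * ·) (zz_shift β l k j F.continuous a)).trans (hc F F.continuous).symm)

theorem sym_gauge (g : (Fin 3 → ZMod (2 * 3 ^ j ^ 2)) → SU2) :
    ∫ U, F (fun e => g e.1 * iter l k j (fun e => (U e : ℍ)) e * star (g (e.1 + Pi.single e.2 1) : ℍ))
      ∂YD.wilson h γ ((2 * l + 1) * (2 * 3 ^ (j + k) ^ 2)) =
    ∫ U, F (iter l k j fun e => U e) ∂YD.wilson h γ ((2 * l + 1) * (2 * 3 ^ (j + k) ^ 2)) := by
  obtain ⟨c, β, -, hc⟩ := int_iter h γ l k j
  change ∫ U, F (gT g (iter l k j fun e => ((U : _ → SU2) e : ℍ))) ∂_ = _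
  exact (hc (fun X => F (gT g X)) (F.continuous.comp (cont_gT g))).trans
    ((congrArg (c * ·) (zz_gH β l k j F.continuous g)).trans (hc F F.continuous).symm)

theorem sym_refl (i : Fin 3) :
    ∫ U, F (YD.refl i (iter l k j fun e => U e)) ∂YD.wilson h γ ((2 * l + 1) * (2 * 3 ^ (j + k) ^ 2)) =
    ∫ U, F (iter l k j fun e => U e) ∂YD.wilson h γ ((2 * l + 1) * (2 * 3 ^ (j + k) ^ 2)) := by
  obtain ⟨c, β, -, hc⟩ := int_iter h γ l k j
  exact (hc (fun X => F (YD.refl i X)) (F.continuous.comp (cont_refl i))).trans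
    ((congrArg (c * ·) (zz_refl β l k j F.continuous i)).trans (hc F F.continuous).symm)

theorem refl_pos (i : Fin 3) (hF : DependsOn F {e | 1 ≤ (e.1 i).val ∧ (e.1 i).val + 1 < 3 ^ j ^ 2}) :
    0 ≤ ∫ U, F (iter l k j fun e => U e) * F (YD.refl i (iter l k j fun e => U e))
      ∂YD.wilson h γ ((2 * l + 1) * (2 * 3 ^ (j + k) ^ 2)) := by
  obtain ⟨c, β, c0, hc⟩ := int_iter h γ l k j
  exact (mul_nonneg c0 (zz_pos β l k j F.continuous i F.norm_coe_le_norm hF)).trans_eq
    (hc (fun X => F X * F (YD.refl i X)) (F.continuous.mul (F.continuous.comp (cont_refl i)))).symm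

end Pool.Agent.Lib.MP_7f377f_mp.RG.D3.Ds
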