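import Pool.Agent.Lib.MP_7f377f_mp.A3Cls
import Pool.Agent.Lib.MP_7f377f_mp.A3DetB
import Pool.Agent.Lib.MP_7f377f_mp.A3Lv
import Pool.Agent.Lib.MP_7f377f_mp.A3PBr
import Pool.Agent.Lib.MP_7f377f_mp.R3DetS

/-! The joint limit of vanishing lattice spacing and infinite time extent. -/

noncomputable section

namespace Pool.Agent.Lib.MP_7f377f_mp.RG.D3.An

open MeasureTheory Filter Dt Fi Ds
open scoped Quaternion ENNReal

theorem wilson_eq [Vol] (β : ℝ) (n : ℕ) :
    wilson β n = Y6.wilson (tr haar) β fun i => n * Vol.m i := by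
  have : (tr haar).IsHaarMeasure := (inferInstance : haar.IsHaarMeasure)
  have e1 : ∀ i, ((n * Vol.m i : ℕ) : ℤ) = sd n i := fun i => Nat.cast_mul _ _
  have e2 : ∀ U, Y6.action (fun i => n * Vol.m i) U = wil n U := fun U => by
    simp only [Y6.action, Y6.plaq_tc, e1]
    rfl
  have e3 : Y6.per (fun i => n * Vol.m i) = per n := by
    funext U e
    simp only [Y6.per, e1]
    rfl
  rw [Y6.wilson, tilt_eq ((((RGP.BM.const β).mul (Y6.bm_of_cont (Y6.cont_action _))).comp
    (Y6.meas_per _)).exp.integrable _)]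
  simp only [e2, e3]
  rfl

/-- the long torus -/
@[reducible] def lg (m : ℕ) : Vol := ⟨![m + 1, 1, 1], fun i => by fin_cases i <;> simp⟩

/-- the Wilson measure with time extent `T` -/
def wT (γ : ℝ) (J l T : ℕ) : Measure Conf :=
  Y6.wilson (tr haar) (γ * (LL l * nn J : ℕ)) ![T, LL l * nn J, LL l * nn J]

instance (γ : ℝ) (J l T : ℕ) : IsProbabilityMeasure (wT γ J l T) :=
  (inferInstance : IsProbabilityMeasure (Y6.wilson (tr haar) _ _))

theorem ww_lg (m : ℕ) (γ : ℝ) (J l : ℕ) :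
    @ww (lg m) γ J l = wT γ J l ((m + 1) * (LL l * nn J)) := by
  unfold ww
  rw [← Nat.cast_mul, @wilson_eq (lg m), wT]
  congr 1
  funext i
  fin_cases i
  exacts [mul_comm _ _, mul_one _, mul_one _]

theorem pair_lg [Vol] : Pair := pair_of JC.num_main JC.num_top'

theorem bad_lg (m : ℕ) : @Bad (lg m) := @Pb.bad_long (lg m) rfl

/-- agreement on a symmetric window of time -/
def Wd (ω : ℤ) (X X' : FH) : Prop :=
  ∀ e : Lk, -ω ≤ 2 * e.1 0 → 2 * (e.1 0 + un e.2 0) ≤ ω → X e = X' e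

theorem Wd.blkH {l k : ℕ} {X X' : FH} (h : Wd (LL l * (2 * k + 1 : ℕ)) X X') :
    Wd (2 * k + 1 : ℕ) (blkH l X) (blkH l X') := fun e h1 h2 => by
  have L := LL_cast l
  push_cast at h1 h2
  have b1 : -(k : ℤ) ≤ e.1 0 := by omega
  have b2 : e.1 0 + un e.2 0 ≤ k := by omega
  have : Sl 0 (LL l * e.1 0 - l) (LL l * (e.1 0 + un e.2 0) + l) X X' := fun f a1 a2 => h f
    (by push_cast; nlinarith) (by push_cast; nlinarith)
  rw [Dt.blkH, Dt.blkH, (this.sh (up l e.1)).avH] <;> rw [up_apply] <;> nlinarith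

theorem wd_dnH (m v : ℕ) : ∃ q : ℕ, nn (v + m) = (2 * q + 1) * nn v ∧ ∀ (k : ℕ) (X X' : FH),
    Wd ((2 * q + 1 : ℕ) * (2 * k + 1 : ℕ)) X X' → Wd (2 * k + 1 : ℕ) (dnH v m X) (dnH v m X') := by
  induction m generalizing v with
  | zero => exact ⟨0, by simp, fun k X X' h => by simpa [dnH] using h⟩
  | succ m ih =>
    obtain ⟨q, h1, h2⟩ := ih (v + 1)
    refine ⟨2 * q * ll v + q + ll v, ?_, fun k X X' h => Wd.blkH ?_⟩
    · rw [show v + (m + 1) = v + 1 + m by ring, h1, M3.nn_succ, LL]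
      ring
    · have := h2 (2 * ll v * k + ll v + k) X X' (by
        convert h using 1
        push_cast
        ring)
      convert this using 1
      rw [LL_cast]
      push_cast
      ring

/-- locality in time of the averaged field -/
theorem dep_XX {J j : ℕ} (hJ : j ≤ J) (l k : ℕ) {α : Type} {F : FH → α}
    (hF : ∀ X X', Wd (2 * k + 1 : ℕ) X X' → F X = F X') : ∃ w : ℕ, w ≤ (k + 1) * (LL l * nn J) ∧
      DependsOn (fun U : Conf => F (XX J l j U))
        {e | -(w : ℤ) ≤ e.1 0 ∧ (e.1 + Pi.single e.2 1 : Fin 3 → ℤ) 0 ≤ -(w : ℤ) + (2 * w : ℕ)} := by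
  obtain ⟨q, h1, h2⟩ := wd_dnH (J - j) j
  rw [show j + (J - j) = J by omega] at h1
  refine ⟨2 * l * (2 * q * k + q + k) + l + (2 * q * k + q + k), ?_, fun U U' h => hF _ _ (h2 _ _ _ ?_)⟩
  · have : 1 ≤ nn j := M3.nn_pos j
    rw [h1, LL]
    calc _ ≤ (k + 1) * ((2 * l + 1) * ((2 * q + 1) * 1)) := by nlinarith [Nat.zero_le (l * q * k)]
      _ ≤ _ := by gcongr
  · have := Wd.blkH (l := l) (k := 2 * q * k + q + k) (X := qF U) (X' := qF U') fun e a1 a2 =>
      congrArg S3.q (h e (by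
        rw [LL_cast] at a1 a2
        change _ ∧ e.1 0 + un e.2 0 ≤ _
        push_cast at a1 a2 ⊢
        constructor <;> nlinarith))
    convert this using 1
    push_cast
    ring

/-- truncation to a window of time -/
def cutH (k : ℕ) (X : FH) : FH := fun e => if -(k : ℤ) ≤ e.1 0 ∧ e.1 0 + un e.2 0 ≤ k then X e else 0

theorem cont_cutH (k : ℕ) : Continuous (cutH k) := continuous_pi fun e => by
  unfold cutH
  split_ifs <;> fun_prop

theorem wd_cutH {k : ℕ} {X X' : FH} (h : Wd (2 * k + 1 : ℕ) X X') : cutH k X = cutH k X' := by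
  funext e
  unfold cutH
  split_ifs with h'
  · exact h e (by push_cast; omega) (by push_cast; omega)
  · rfl

theorem unif_cut {F : FH → ℝ} (c : Continuous F) {η : ℝ} (hη : 0 < η) :
    ∃ k, ∀ X : FH, (∀ e, ‖X e‖ ≤ 1) → |F (cutH k X) - F X| ≤ η := by
  by_contra h
  push Not at h
  let K : Set FH := Set.univ.pi fun _ => Metric.closedBall 0 1
  have hK : IsCompact (K ×ˢ K) := (isCompact_univ_pi fun _ => isCompact_closedBall _ _).prod
    (isCompact_univ_pi fun _ => isCompact_closedBall _ _)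
  have c1 : ∀ k : ℕ, IsClosed (K ×ˢ K ∩ ({p : FH × FH | cutH k p.1 = cutH k p.2} ∩
      {p | η ≤ |F p.1 - F p.2|})) := fun k => hK.isClosed.inter
    ((isClosed_eq ((cont_cutH k).comp continuous_fst) ((cont_cutH k).comp continuous_snd)).inter
      (isClosed_le continuous_const ((c.comp continuous_fst).sub (c.comp continuous_snd)).abs))
  obtain ⟨p, hp⟩ := IsCompact.nonempty_iInter_of_sequence_nonempty_isCompact_isClosed _
    (fun k => Set.inter_subset_inter_right _ (Set.inter_subset_inter_left _ fun p hp => by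
      funext e
      have := congrFun hp e
      simp only [cutH] at this ⊢
      split_ifs with h'
      · rwa [if_pos (by push_cast; omega), if_pos (by push_cast; omega)] at this
      · rfl))
    (fun k => by
      obtain ⟨X, h1, h2⟩ := h k
      refine ⟨(cutH k X, X), ⟨fun e _ => mem_closedBall_zero_iff.2 ?_,
        fun e _ => mem_closedBall_zero_iff.2 (h1 e)⟩, funext fun e => ?_, h2.le⟩
      · simp only [cutH]
        split_ifs
        exacts [h1 e, by simp]
      · simp only [cutH]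
        split_ifs <;> rfl)
    (hK.of_isClosed_subset (c1 0) Set.inter_subset_left) c1
  rw [Set.mem_iInter] at hp
  have e : p.1 = p.2 := funext fun e => by
    have := congrFun (hp ((e.1 0).natAbs + (un e.2 0).natAbs)).2.1 e
    simp only [cutH] at this
    rwa [if_pos (by omega), if_pos (by omega)] at this
  have := (hp 0).2.2
  rw [Set.mem_ofPred_eq, e, sub_self, abs_zero] at this
  linarith

theorem norm_XX (J l j : ℕ) (U : Conf) (e : Lk) : ‖XX J l j U e‖ ≤ 1 := by
  rw [XX]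
  cases J - j <;> exact norm_nrm _

/-- closeness of long tori for functions of the averaged field -/
theorem close_XX {γ : ℝ} (hγ : 0 < γ) : ∃ Δ > (0 : ℝ), ∃ C > (0 : ℝ), ∃ J0 : ℕ, ∀ J l j k s T T' : ℕ,
    J0 ≤ J → j ≤ J → Adm J l → ∀ F : FH → ℝ, (Measurable fun U => F (XX J l j U)) →
      (∀ X, |F X| ≤ 1) → (∀ X X', Wd (2 * k + 1 : ℕ) X X' → F X = F X') →
      (2 * k + 4 + s) * (LL l * nn J) ≤ T → (2 * k + 4 + s) * (LL l * nn J) ≤ T' →
      |∫ U, F (XX J l j U) ∂wT γ J l T - ∫ U, F (XX J l j U) ∂wT γ J l T'| ≤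
        C * Real.exp (-(Δ * s)) := by
  have : (tr haar).IsHaarMeasure := (inferInstance : haar.IsHaarMeasure)
  obtain ⟨Δ, hΔ, C, C0, J0, H⟩ := Y6.close (tr haar) hγ
  refine ⟨Δ, hΔ, C, C0, J0, fun J l j k s T T' hJ hj ad F mF F1 dF hT hT' => ?_⟩
  obtain ⟨w, hw, d⟩ := dep_XX hj l k dF
  have n0 : 0 < LL l * nn J := mul_pos (LL_pos l) (M3.nn_pos J)
  have := H J l hJ ad _ rfl _ mF (fun _ => F1 _) _ _ (s * (LL l * nn J)) T T' d (by nlinarith)
    (by nlinarith)
  rwa [Nat.cast_mul s, mul_div_assoc, mul_div_cancel_right₀ _ (Nat.cast_pos.2 n0).ne'] at this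

theorem exp_small {Δ C η : ℝ} (hΔ : 0 < Δ) (hη : 0 < η) :
    ∃ s : ℕ, C * Real.exp (-(Δ * s)) ≤ η := by
  have := ((Real.tendsto_exp_neg_atTop_nhds_zero.comp (tendsto_natCast_atTop_atTop.const_mul_atTop
    hΔ)).const_mul C).eventually (ge_mem_nhds (show C * 0 < η by simpa using hη))
  exact this.exists

/-- the expectations of the averaged field are Cauchy in the joint limit -/
theorem cvg {γ : ℝ} (hγ : 0 < γ) (j : ℕ) {F : FH → ℝ} (c : Continuous F) (F0 : ∀ X, 0 ≤ F X)
    (F1 : ∀ X, F X ≤ 1) {η : ℝ} (hη : 0 < η) : ∃ k0 : ℕ, ∀ J l T J' l' T', k0 ≤ J → k0 ≤ J' →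
      Adm J l → Adm J' l' → k0 * (LL l * nn J) ≤ T → k0 * (LL l' * nn J') ≤ T' →
      ∫ U, F (XX J l j U) ∂wT γ J l T ≤ ∫ U, F (XX J' l' j U) ∂wT γ J' l' T' + η := by
  have : (tr haar).IsHaarMeasure := (inferInstance : haar.IsHaarMeasure)
  have h5 : 0 < η / 5 := by positivity
  obtain ⟨Δ, hΔ, C, -, J0, H⟩ := close_XX hγ
  obtain ⟨k, hk⟩ := unif_cut c h5
  obtain ⟨s, hs⟩ := exp_small (C := C) hΔ h5
  have c' := c.comp (cont_cutH k)
  obtain ⟨J1, h1⟩ := @cauchy1 (lg (2 * k + 3 + s)) (@pair_lg (lg _)) (bad_lg _) γ hγ j _ c' (fun _ => F0 _)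
    (fun _ => F1 _) _ h5
  simp only [ww_lg] at h1
  have key : ∀ J l T, J0 + J1 + j + (2 * k + 4 + s) ≤ J → Adm J l →
      (J0 + J1 + j + (2 * k + 4 + s)) * (LL l * nn J) ≤ T → |∫ U, F (XX J l j U) ∂wT γ J l T -
        ∫ U, F (cutH k (XX J l j U)) ∂wT γ J l ((2 * k + 3 + s + 1) * (LL l * nn J))| ≤
          η / 5 + η / 5 := fun J l T hJ ad hT => by
    have a1 := H J l j k s T ((2 * k + 3 + s + 1) * (LL l * nn J)) (by omega) (by omega) ad
      (fun X => F (cutH k X)) (c'.comp (cont_XX J l j)).measurable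
      (fun X => abs_le.2 ⟨by linarith [F0 (cutH k X)], F1 _⟩) (fun X X' h => by rw [wd_cutH h])
      (le_trans (Nat.mul_le_mul_right _ (by omega)) hT) (le_of_eq (by ring))
    have a2 : |∫ U, F (XX J l j U) ∂wT γ J l T - ∫ U, F (cutH k (XX J l j U)) ∂wT γ J l T| ≤
        η / 5 := by
      have i1 : Continuous fun U => F (XX J l j U) := c.comp (cont_XX J l j)
      have i2 : Continuous fun U => F (cutH k (XX J l j U)) := c'.comp (cont_XX J l j)
      rw [← integral_sub (Weak.cint _ i1) (Weak.cint _ i2)]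
      simpa using norm_integral_le_of_norm_le_const (μ := wT γ J l T) (C := η / 5)
        (f := fun U => F (XX J l j U) - F (cutH k (XX J l j U))) (.of_forall fun U => by
          rw [Real.norm_eq_abs, abs_sub_comm]
          exact hk _ (norm_XX J l j U))
    exact (abs_sub_le _ _ _).trans (add_le_add a2 (a1.trans hs))
  refine ⟨J0 + J1 + j + (2 * k + 4 + s), fun J l T J' l' T' hJ hJ' ad ad' hT hT' => ?_⟩
  have b1 := abs_le.1 (key J l T hJ ad hT)
  have b2 := abs_le.1 (key J' l' T' hJ' ad' hT')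
  have b3 := h1 J l J' l' (by omega) (by omega) ad ad'
  simp only [Function.comp] at b3
  linarith

end Pool.Agent.Lib.MP_7f377f_mp.RG.D3.An
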