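import Pool.Agent.Lib.MP_7f377f_mp.A3Lv
import Pool.Agent.Lib.MP_7f377f_mp.A3DetB
import Pool.Agent.Lib.MP_7f377f_mp.A3PBr

/-! The fluctuations of a plaquette variable on tori with different sides. -/

noncomputable section

namespace Pool.Agent.Lib.MP_7f377f_mp.RG.D3.An

set_option linter.unusedSectionVars false

variable [Vol]

section
open D3.JC
open Finset MeasureTheory
open scoped Quaternion ENNReal Pointwise

theorem lev_of (hN : NumMain) (hT : NumTop) : ∃ a0 : ℕ, ∀ a ≥ a0, ∃ b : ℕ, ∀ γ > 0, ∀ η > 0,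
    ∃ j0 : ℕ, ∀ j ≥ j0, ∀ J l, j ≤ J →
    Adm J l → ∃ (n R : ℕ) (m : BF) (φ : Fld → ℂ) (E δ : ℝ), Inv n (j ^ 3) 3 1 m ∧
      R ≤ LL (ll j) ^ b ∧ Tm R (2 * δ) ((γ * nn j) ^ (-4⁻¹ : ℝ)) φ ∧
      (LL (ll j) : ℝ) ^ (a + 1) ≤ δ * √(γ * nn j) ∧ δ * √(γ * nn j) ≤ (LL (ll j) : ℝ) ^ b ∧
      ∀ U, Per (nn j) U → curvG δ U →
        ENNReal.ofReal (Real.exp (E - η - act (γ * nn j) m φ (nn j) U)) ≤
          rr γ J l (J + 1 - j) (nn j) U ∧
        rG γ a J l (J + 1 - j) (nn j) U ≤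
          ENNReal.ofReal (Real.exp (E + η - act (γ * nn j) m φ (nn j) U)) := by
  obtain ⟨C, K, M, h⟩ := jcore hN hT
  refine ⟨1, fun a ha => ?_⟩
  obtain ⟨b, hab, h⟩ := h a ha
  refine ⟨b + (C + 3), fun γ hγ η hη => ?_⟩
  obtain ⟨j1, h, -⟩ := h γ hγ
  obtain ⟨j2, h2⟩ := hT C (3 * K) 0 0 a b 1 ha (by omega) γ hγ
  have v0 : (0 : ℝ) < vo := by exact_mod_cast vo_pos
  obtain ⟨j3, h3⟩ := half_small (div_pos (half_pos hη) v0)
  refine ⟨j1 + j2 + j3, fun j hj J l hJ hA => ?_⟩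
  obtain ⟨⟨n, hm⟩, φ, p1, p2⟩ := h J l hA (J + 1 - j) j (by omega) (by omega)
  have T := h2 j (by omega) _ le_rfl
    (le_mul_of_one_le_right (by positivity) (one_le_pow₀ (one_le_LL _)))
  obtain ⟨E, p3⟩ := p2.top hJ T.m1
  rw [bq, if_neg (by omega), show J + 1 - (J + 1 - j) = j by omega] at p1
  have e : dl b j (γ * nn j) * √(γ * nn j) = (LL (ll j) : ℝ) ^ b :=
    div_mul_cancel₀ _ (Real.sqrt_pos.2 (zero_lt_one.trans_le T.b1)).ne'
  have := (le_div_iff₀ v0).1 (h3 j (by omega))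
  refine ⟨n, _, _, φ, E, _, hm, T.r1.trans (Nat.pow_le_pow_right (LL_pos _) (by omega)),
    (p1.tm T.k0.le).mono le_rfl T.k1, ?_, ?_, fun U hU hc => ?_⟩
  · rw [e]
    exact pow_le_pow_right₀ (one_le_LL _) hab
  · rw [e]
    exact pow_le_pow_right₀ (one_le_LL _) (by omega)
  · obtain ⟨g1, g2⟩ := (p3 U hU).1 hc
    exact ⟨le_trans (ENNReal.ofReal_le_ofReal (Real.exp_le_exp.2 (by linarith))) g1,
      g2.trans (ENNReal.ofReal_le_ofReal (Real.exp_le_exp.2 (by linarith)))⟩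

end

section
open D3.Nn
open Finset

variable {m : BF} {r n : ℕ} {c δ ε : ℝ}

/-- the field which is `g` on the link at the origin and its images, and one elsewhere -/
def sg (n : ℕ) (g : S3) : Conf := per n (Pi.mulSingle (0, 0) g)

theorem sg_zero (g : S3) : sg n g (0, 0) = g := by simp [sg, per, ← Pi.zero_def]

theorem sg_of_ne (g : S3) {e : Lk} (h : md n e.1 ≠ 0) : sg n g e = 1 :=
  Pi.mulSingle_eq_of_ne (fun h' => h (Prod.ext_iff.1 h').1) _

theorem sg_box (g : S3) {R : ℕ} (hR : R < n) {e : Lk} (he : e ∈ lbox R) (h : e ≠ (0, 0)) :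
    sg n g e = 1 := by
  have : (md n e.1, e.2) ≠ (0, 0) := fun h' => h (Prod.ext (funext fun i => by
    have := mem_box.1 (mem_lbox.1 he) i
    have := le_sd n i
    exact Int.eq_zero_of_abs_lt_dvd (m := sd n i)
      (Int.dvd_of_emod_eq_zero (congrFun (Prod.ext_iff.1 h').1 i))
      (abs_lt.2 ⟨by omega, by omega⟩)) (Prod.ext_iff.1 h').2)
  exact Pi.mulSingle_eq_of_ne this _

theorem sg_norm (g : S3) (e : Lk) : ‖(sg n g e).q - 1‖ ≤ ‖g.q - 1‖ := by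
  simp only [sg, per, Pi.mulSingle_apply]
  split_ifs <;> simp [S3.q_one]

theorem loc (hb : Bd r r c m) (c0 : 0 ≤ c) (hs : ∀ a b, m a b = m b a)
    (hg : ∀ u b, m (gr u) b = 0) (hr : Rng r r m) {U : Conf} (h : curvG ε U) {g : S3} {t : C3}
    (ht : cS g = ex t) (h1 : ‖t‖ ≤ ε) (hn : 2 * r + 2 < n) (h2 : 31000 * (r + 1) ^ 2 * ε ≤ 1)
    {v : St} (hv : v ∈ box (r + 1)) :
    ‖cx m (Bx v (cC (sg n g * U))) (Bx v (cC (sg n g * U))) -
      cx m (sh v (Bx 0 (cC U) + Pi.single (0, 0) t)) (sh v (Bx 0 (cC U) + Pi.single (0, 0) t))‖ ≤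
      2 * 10 ^ 8 * c * (31 * (r + 1) ^ 2 * ε) ^ 3 := by
  have ε0 := h.nonneg
  have r0 : (0 : ℝ) ≤ r := r.cast_nonneg
  have k0 : 0 ≤ r * ε := by positivity
  obtain ⟨a1, a2, -⟩ := real_fix (R := r + 1 + (r + 1)) h (by
    push_cast
    nlinarith [mul_nonneg r0 k0])
  have a3 : Sm (r + 1 + (r + 1)) (31 * (r + 1) * ε) (Bx 0 (cC U) + Pi.single (0, 0) t) := by
    refine (a2.add (δ' := ε) fun e _ => ?_).mono le_rfl (by push_cast; nlinarith)
    rw [Pi.single_apply]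
    split_ifs <;> simp [h1, ε0]
  have a4 : Agr (r + 1 + (r + 1)) (cC (gauge Inv.inv (cmb Inv.inv U) (sg n g * U)))
      (exF (Bx 0 (cC U) + Pi.single (0, 0) t)) := fun e he => by
    by_cases h0 : e = (0, 0)
    · have b1 := fix_tr U (p := 0) (ν := 0) fun _ _ => rfl
      have b2 := Bx_tr (cC U) (p := 0) (ν := 0) fun _ _ => rfl
      simp only [gauge, cmb_zero, one_mul] at b1
      simp only [h0, exF, cC, gauge, Pi.add_apply, Pi.mul_apply, sg_zero, cmb_zero, one_mul,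
        mul_assoc, b1, mul_one, Pi.single_eq_same, ht]
      rw [b2, zero_add]
    · have := a1 e he
      simp only [exF, cC, gauge, Pi.add_apply, Pi.mul_apply, Pi.single_eq_of_ne h0, add_zero,
        sg_box g (by omega : r + 1 + (r + 1) < n) he h0, one_mul] at this ⊢
      exact this
  have a5 := Bx_agr (a4.sh hv)
  have a6 := quad_ap hb c0 hs hg (a3.sh hv) (by linarith)
  rw [← cx_adF m hr (uni_cS (cmb Inv.inv U v)), ← Bx_gauge fun x => uni_cS _, ← cC_gauge, Bx_eq,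
    cx_agr hr a5 a5]
  exact a6.trans_eq (by ring)

theorem sum_loc (hn : 0 < n) {R : ℕ} {D H : St → ℝ} (hp : ∀ x, D (md n x) = D x)
    (h0 : ∀ x, (∀ v ∈ box R, md n (v + x) ≠ 0) → D x = 0) (h1 : ∀ v ∈ box R, D v ≤ H v)
    (h2 : ∀ v, 0 ≤ H v) : ∑ x ∈ cube n, D x ≤ ∑ v ∈ box R, H v := by
  rw [← sum_fiberwise_of_maps_to (s := box R) (g := md n) fun v _ => md_mem hn v]
  refine sum_le_sum fun x hx => ?_
  by_cases h : ∀ v ∈ box R, md n (v + x) ≠ 0
  · exact (h0 x h).trans_le (sum_nonneg fun v _ => h2 v)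
  · push Not at h
    obtain ⟨v, hv, e⟩ := h
    have e' := md_md_add n (v + x) (-v)
    rw [e, zero_add, add_neg_cancel_comm, md_of_mem hx] at e'
    rw [← e', hp]
    exact (h1 _ (neg_mem_box hv)).trans (single_le_sum (f := H) (fun v _ => h2 v)
      (mem_filter.2 ⟨neg_mem_box hv, rfl⟩))

theorem Bx_md {U : Conf} (h : Per n U) (x : St) : Bx (md n x) (cC U) = Bx x (cC U) := by
  rw [Bx_eq, Bx_eq x, sh_cC, sh_cC]
  conv_rhs => rw [md_eq n x, per_sh h]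

theorem Bx_far (g : S3) (U : Conf) {R : ℕ} {x : St} (h : ∀ v ∈ box (R + 1), md n (v + x) ≠ 0) :
    Agr R (Bx x (cC (sg n g * U))) (Bx x (cC U)) := by
  rw [Bx_eq, Bx_eq x (cC U)]
  refine Bx_agr fun e he => ?_
  simp only [sh_apply, cC, Pi.mul_apply]
  rw [sg_of_ne g (h _ (mem_lbox.1 he)), one_mul]

theorem per_sg (g : S3) {U : Conf} (h : Per n U) : Per n (sg n g * U) := fun μ => by
  change sh _ (per n _) * sh _ U = _
  rw [per_per n _ μ, h μ, sg]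

theorem sg_one (U : Conf) : sg n 1 * U = U := by
  rw [sg, Pi.mulSingle_one]
  exact one_mul U

open scoped Pointwise in
theorem act_diff {C : ℝ} (hC : ∀ (B : V) (S T : Finset St), (∀ e : Lk, e.1 ∉ T → B e = 0) →
      ∑ x ∈ S, m (sh x B) (sh x B) ≤ C * ∑ x ∈ T + box 1, nd B x) {k R : ℕ} {cL cU β ρ κ : ℝ}
    {φ : Fld → ℂ} (hm : Inv k r cL cU m) (hb : Bd r r c m) (c0 : 0 ≤ c) (hφ : Tm R ρ κ φ)
    (β0 : 0 ≤ β) {U : Conf} (hU : Per n U) (h : curvG ε U) {g : S3} {v : E3}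
    (hg : cS g = ex (cE v)) (h1 : ‖v‖ ≤ ε) (h1' : ‖g.q - 1‖ ≤ ε) (hn : 2 * r + 2 < n)
    (h2 : 31000 * (r + 1) ^ 2 * ε ≤ 1) (h3 : 1000 * (R + 1) * (ε + 4 * ε) ≤ 1)
    (h4 : ε + 4 * ε + 10 ^ 6 * ((R + 1) * (ε + 4 * ε)) ^ 2 ≤ ρ) :
    act β m φ n (sg n g * U) + act β m φ n (sg n g⁻¹ * U) - 2 * act β m φ n U ≤
      β * (2 * ‖v‖ ^ 2 * (C * ∑ x ∈ {0} + box 1, nd (Pi.single (0, 0) 1) x) +
        (2 * r + 3) ^ 3 * (8 * 10 ^ 8 * c * (31 * (r + 1) ^ 2 * ε) ^ 3)) +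
          (2 * R + 5) ^ 3 * (4 * κ) := by
  have ε0 := h.nonneg
  have n0 : 0 < n := by omega
  have p1 := per_sg g hU
  have p2 := per_sg g⁻¹ hU
  have hφ' : ∀ (g : S3) x, ‖g.q - 1‖ ≤ ε → |(φ (Bx x (cC (sg n g * U)))).re| ≤ κ := fun g x hg => by
    rw [Bx_eq, sh_cC]
    exact (Complex.abs_re_le_norm _).trans (hφ.bd _ ((real_fix
      ((curv_mul (fun e => (sg_norm g e).trans hg) h).sh x) h3).2.2.mono le_rfl h4))
  have κ0 := (abs_nonneg _).trans (hφ' g 0 h1')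
  have s1 := sum_loc n0 (R := r + 1) (D := fun x =>
    (cx m (Bx x (cC (sg n g * U))) (Bx x (cC (sg n g * U)))).re +
      (cx m (Bx x (cC (sg n g⁻¹ * U))) (Bx x (cC (sg n g⁻¹ * U)))).re -
      2 * (cx m (Bx x (cC U)) (Bx x (cC U))).re)
    (H := fun x => 2 * ‖v‖ ^ 2 * m (sh x (Pi.single (0, 0) 1)) (sh x (Pi.single (0, 0) 1)) +
      8 * 10 ^ 8 * c * (31 * (r + 1) ^ 2 * ε) ^ 3)
    (fun x => by simp only [Bx_md hU, Bx_md p1, Bx_md p2]) (fun x hx => by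
      simp only [cx_agr hm.rng (Bx_far _ U hx) (Bx_far _ U hx)]
      ring) (fun x hx => ?_) fun x => by have := hm.psd (sh x (Pi.single (0, 0) 1)); positivity
  swap
  · have l := fun (g : S3) (t : C3) (ht : cS g = ex t) (h1 : ‖t‖ ≤ ε) => abs_le.1
      ((Complex.abs_re_le_norm _).trans (loc hb c0 hm.symm hm.gauge hm.rng h ht h1 hn h2 hx))
    have l1 := l g _ hg ((norm_cE v).1.trans h1)
    have l2 := l g⁻¹ (-cE v) (by rw [cS_inv, hg, star_ex])
      ((norm_neg _).trans_le ((norm_cE v).1.trans h1))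
    have l3 := l 1 0 (by simp [cS_one, ex]) (by simpa)
    have e : ∀ A B : Fld, sh x (A + B) = sh x A + sh x B := fun _ _ => rfl
    have e' : ∀ A B : Fld, sh x (A - B) = sh x A - sh x B := fun _ _ => rfl
    rw [sg_one, Pi.single_zero, add_zero] at l3
    rw [Pi.single_neg, ← sub_eq_add_neg] at l2
    simp only [e, e', sh_single, cx_add_left, cx_add_right, cx_sub_left, cx_sub_right, cx_single,
      dot_cE_self, Complex.sub_re, Complex.add_re, ← Complex.ofReal_mul, Complex.ofReal_re]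
      at l1 l2 l3 ⊢
    linarith [l1.2, l2.2, l3.1]
  have s2 := sum_loc n0 (R := R + 1 + 1) (D := fun x => (φ (Bx x (cC (sg n g * U)))).re +
      (φ (Bx x (cC (sg n g⁻¹ * U)))).re - 2 * (φ (Bx x (cC U))).re) (H := fun _ => 4 * κ)
    (fun x => by simp only [Bx_md hU, Bx_md p1, Bx_md p2]) (fun x hx => ?_) (fun x _ => ?_)
    fun _ => by positivity
  rotate_left
  · have : ∀ g : S3, φ (Bx x (cC (sg n g * U))) = φ (Bx x (cC U)) := fun g =>
      hφ.loc _ _ fun y hy μ ν => by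
        have b1 := fun μ => Bx_far g U hx (y, μ) (mem_lbox.2 (box_mono R.le_succ hy))
        have b2 := fun μ ν => Bx_far g U hx (y + un μ, ν) (mem_lbox.2 (add_un_mem_box hy μ))
        simp only [dd, b1, b2]
    simp only [this]
    ring
  · have l1 := abs_le.1 (hφ' g x h1')
    have l2 := abs_le.1 (hφ' g⁻¹ x ((S3.norm_inv_sub g).trans_le h1'))
    have l3 := abs_le.1 (hφ' 1 x (by simpa [S3.q_one]))
    rw [sg_one] at l3
    linarith [l1.2, l2.2, l3.1]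
  have s3 := mul_le_mul_of_nonneg_left (hC (Pi.single (0, 0) 1) (box (r + 1)) {0} fun e he =>
    Pi.single_eq_of_ne (fun h => he (by simp [h])) _) (show 0 ≤ 2 * ‖v‖ ^ 2 by positivity)
  simp only [sum_add_distrib, sum_sub_distrib, ← mul_sum, sum_const, card_box, nsmul_eq_mul]
    at s1 s2
  simp only [act, Complex.add_re, Complex.re_ofReal_mul, sum_add_distrib, ← mul_sum]
  push_cast at s1 s2
  have s4 := mul_le_mul_of_nonneg_left (s1.trans (add_le_add_left s3 _)) β0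
  rw [show 2 * (r + 1 : ℝ) + 1 = 2 * r + 3 by ring] at s4
  rw [show 2 * (R + 1 + 1 : ℝ) + 1 = 2 * R + 5 by ring] at s2
  linarith

end

section
open D3.Nn
open Finset MeasureTheory Real
open scoped ENNReal NNReal Pointwise

theorem hol_sg {n : ℕ} (hn : 1 < n) (g : S3) (U : Conf) :
    |(hol Inv.inv (sg n g * U) 0 0 1).q.imI - g.q.imI| ≤ ‖(hol Inv.inv U 0 0 1).q - 1‖ := by
  have e : hol Inv.inv (sg n g * U) 0 0 1 = g * hol Inv.inv U 0 0 1 := by
    simp only [hol, Pi.mul_apply, sg_zero, zero_add]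
    rw [sg_box g hn (mem_lbox.2 (un_mem_box 0)) (by simp),
      sg_box g hn (mem_lbox.2 (un_mem_box 1)) (by simp [un]),
      sg_box g hn (mem_lbox.2 (zero_mem_box 1)) (by simp)]
    simp only [one_mul, mul_assoc]
  have := abs_imI_le (g.q * ((hol Inv.inv U 0 0 1).q - 1))
  rwa [norm_mul, S3.norm_q, one_mul, mul_sub, mul_one, ← S3.q_mul, ← e] at this

open Classical in
theorem fluct_of (hlev : ∃ a0 : ℕ, ∀ a ≥ a0, ∃ b : ℕ, ∀ γ > 0, ∀ η > 0, ∃ j0 : ℕ, ∀ j ≥ j0, ∀ J l,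
    j ≤ J → Adm J l → ∃ (n R : ℕ) (m : BF) (φ : Fld → ℂ) (E δ : ℝ), Inv n (j ^ 3) 3 1 m ∧
      R ≤ LL (ll j) ^ b ∧ Tm R (2 * δ) ((γ * nn j) ^ (-4⁻¹ : ℝ)) φ ∧
      (LL (ll j) : ℝ) ^ (a + 1) ≤ δ * √(γ * nn j) ∧ δ * √(γ * nn j) ≤ (LL (ll j) : ℝ) ^ b ∧
      ∀ U, Per (nn j) U → curvG δ U →
        ENNReal.ofReal (Real.exp (E - η - act (γ * nn j) m φ (nn j) U)) ≤
          rr γ J l (J + 1 - j) (nn j) U ∧
        rG γ a J l (J + 1 - j) (nn j) U ≤
          ENNReal.ofReal (Real.exp (E + η - act (γ * nn j) m φ (nn j) U)))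
    (hbad : ∃ a0 : ℕ, ∀ a ≥ a0, ∀ γ > 0, ∀ η > 0, ∃ j0 : ℕ, ∀ j ≥ j0, ∀ J l, j ≤ J →
    Adm J l → ENNReal.ofReal (1 - η) * ∫⁻ U, rr γ J l (J + 1 - j) (nn j) (per (nn j) U) ∂PP ≤
      ∫⁻ U, (if curvG (ep γ a J l (J + 1 - j)) (per (nn j) U) then
        rG γ a J l (J + 1 - j) (nn j) (per (nn j) U) else 0) ∂PP)
    (hlaw : ∀ {γ : ℝ}, 0 < γ → ∀ J l k : ℕ, k ≤ J →
    law γ J l k = lawOf (nn (J - k)) (rr γ J l (k + 1) (nn (J - k))) ∧
    0 < ∫⁻ U, rr γ J l (k + 1) (nn (J - k)) (per (nn (J - k)) U) ∂PP ∧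
    ∫⁻ U, rr γ J l (k + 1) (nn (J - k)) (per (nn (J - k)) U) ∂PP < ∞) :
    ∃ c > 0, ∀ γ > 0, ∃ j0 : ℕ, ∀ j ≥ j0, ∀ J l, j ≤ J → Adm J l →
    (law γ J l (J - j)).real {U | ‖(hol Inv.inv U 0 0 1).q - 1‖ ≤ c / √(γ * nn j)} ≤ 2⁻¹ := by
  obtain ⟨a0, ha0⟩ := hlev
  obtain ⟨a1, ha1⟩ := hbad
  obtain ⟨b, hb⟩ := ha0 (a0 + a1) (by omega)
  replace ha1 := ha1 (a0 + a1) (by omega)
  generalize a0 + a1 = a at hb ha1
  obtain ⟨c, hc⟩ := inv_bd
  obtain ⟨C0, hC0⟩ := inv_U1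
  obtain ⟨C, hC⟩ : ∃ C, C = C0 * ∑ x ∈ {0} + box 1, nd (Pi.single (0, 0) 1) x := ⟨_, rfl⟩
  obtain ⟨t, t0, t1, t2⟩ : ∃ t : ℝ, 0 < t ∧ t ≤ 1 / 100 ∧ 2 * t ^ 2 * C ≤ 10⁻¹ := by
    have h0 := abs_nonneg C
    have h1 : (100 * (|C| + 1))⁻¹ * (100 * (|C| + 1)) = 1 := inv_mul_cancel₀ (by positivity)
    have h2 : 0 < (100 * (|C| + 1))⁻¹ := by positivity
    refine ⟨_, h2, by nlinarith, ?_⟩
    generalize (100 * (|C| + 1))⁻¹ = t at *
    have h3 : t * C ≤ 1 := by nlinarith [le_abs_self C]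
    nlinarith
  refine ⟨t / 5, by positivity, fun γ hγ => ?_⟩
  obtain ⟨j0, hj0⟩ := hb γ hγ 20⁻¹ (by norm_num)
  obtain ⟨j1, hj1⟩ := ha1 γ hγ 10⁻¹ (by norm_num)
  obtain ⟨j2, hj2⟩ := big ((a + b + 3 * c + 4) * 40) hγ
  obtain ⟨j3, hj3⟩ := big 4 one_pos
  refine ⟨j0 + j1 + j2 + j3 + c + 10 ^ 8, fun j hj J l hJ h => ?_⟩
  obtain ⟨k, R, m, φ, E, δ, hm, hR, hφ, hδ, -, hU⟩ := hj0 j (by omega) J l hJ h
  replace hj1 := hj1 j (by omega) J l hJ h
  replace hj2 := hj2 j (by omega)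
  replace hj3 := hj3 j (by omega)
  obtain ⟨e1, e2, e3⟩ := hlaw hγ J l (J - j) (by omega)
  rw [show J - (J - j) = j by omega, show J - j + 1 = J + 1 - j by omega] at e1 e2 e3
  have e4 : ep γ a J l (J + 1 - j) = (LL (ll j) : ℝ) ^ a / √(γ * nn j) := by
    rw [ep, bq, if_neg (by omega), show J + 1 - (J + 1 - j) = j by omega]
  have mG : Measurable (rG γ a J l (J + 1 - j) (nn j)) := Pb.meas_rhoG _ _ _ _ _ _
  have mr : Measurable (rr γ J l (J + 1 - j) (nn j)) := by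
    rw [rr, ← Pb.rhoG_two]
    exact Pb.meas_rhoG _ _ _ _ _ _
  have hle : ∀ U, rG γ a J l (J + 1 - j) (nn j) U ≤ rr γ J l (J + 1 - j) (nn j) U :=
    rhoG_le _ _ _ _ _ _
  have hL := Pv.le_LL j
  have hr : j ^ 3 ≤ LL (ll j) ^ 3 := Nat.pow_le_pow_left hL 3
  have hcr : c ≤ j ^ 3 := le_trans (by omega) (Nat.le_self_pow (by norm_num) j)
  have hL1 : 10 ^ 8 ≤ LL (ll j) := by omega
  rw [e1]
  rw [e4] at hj1
  clear e1 e4 hb ha0 ha1 hlaw hj0
  generalize rG γ a J l (J + 1 - j) (nn j) = fG at *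
  generalize rr γ J l (J + 1 - j) (nn j) = f at *
  generalize LL (ll j) = L at *
  generalize nn j = n at *
  generalize j ^ 3 = r at *
  have hp : ∀ i, i < a + b + 3 * c + 4 → 7 * L ^ i ≤ L ^ (a + b + 3 * c + 4) := fun i hi =>
    (Nat.mul_le_mul_right _ (show 7 ≤ L by omega)).trans ((pow_succ' L i).symm.trans_le
      (Nat.pow_le_pow_right (by omega) hi))
  have hn : 2 * r + 2 < n := by
    have : L ^ 4 ≤ n := by exact_mod_cast hj3.trans_eq (one_mul _)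
    have := Nat.one_le_pow 3 L (by omega)
    have : 10 ^ 8 * L ^ 3 ≤ L ^ 4 := (Nat.mul_le_mul_right _ hL1).trans_eq (pow_succ' L 3).symm
    omega
  rw [pow_mul, ← Nat.cast_pow] at hj2
  have p1 : 10 ^ 8 ≤ L ^ (a + b + 3 * c + 4) := hL1.trans (Nat.le_self_pow (by omega) _)
  have p2 : L ^ a ≤ L ^ (a + b + 3 * c + 4) := by have := hp a (by omega); omega
  have p3 : 2 * r + 3 ≤ L ^ (a + b + 3 * c + 4) := by
    have := hp 3 (by omega)
    have := Nat.one_le_pow 3 L (by omega)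
    omega
  have p4 : 2 * R + 5 ≤ L ^ (a + b + 3 * c + 4) := by
    have := hp b (by omega)
    have := Nat.one_le_pow b L (by omega)
    omega
  have p5 : r ^ c ≤ L ^ (a + b + 3 * c + 4) := by
    have := hp (3 * c) (by omega)
    have := Nat.pow_le_pow_left hr c
    rw [← pow_mul] at this
    omega
  generalize L ^ (a + b + 3 * c + 4) = P at *
  replace p1 : (10 : ℝ) ^ 8 ≤ P := by exact_mod_cast p1
  replace hL1 : (10 : ℝ) ^ 8 ≤ L := by exact_mod_cast hL1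
  generalize γ * n = β at *
  have β0 : 0 < β := lt_of_lt_of_le (by positivity) hj2
  have s1 : (P : ℝ) ^ 20 ≤ √β := le_sqrt_of_sq_le (by rwa [← pow_mul])
  have s0 := sqrt_pos.2 β0
  have s2 : 1 ≤ √β := (one_le_pow₀ (by linarith)).trans s1
  have a1 : (1 : ℝ) ≤ L ^ a := one_le_pow₀ (by linarith)
  obtain ⟨n1, n2, n3, n4, n5⟩ := nums (ε := L ^ a / √β) (r := r) (R := R) (c := r ^ c)
    (κ := β ^ (-4⁻¹ : ℝ)) p1 s1 (by positivity)
    (by rw [div_mul_cancel₀ _ s0.ne']; exact_mod_cast p2) (by positivity) (by exact_mod_cast p3)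
    (by positivity) (by exact_mod_cast p4) (by positivity) (by exact_mod_cast p5) (by positivity)
    (by
      refine (mul_le_mul_of_nonneg_right (rpow_le_rpow_of_nonpos (by positivity) hj2 (by norm_num))
        (by positivity)).trans_eq ?_
      rw [← rpow_natCast, ← rpow_natCast, ← rpow_mul (by positivity), ← rpow_add (by positivity)]
      norm_num)
  have n6 : L ^ a / √β + 4 * (L ^ a / √β) ≤ δ := by
    rw [pow_succ, ← div_le_iff₀ s0, mul_div_right_comm] at hδ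
    nlinarith [div_pos (one_pos.trans_le a1) s0]
  have n7 : 4 * (t / √β) ≤ L ^ a / √β := by
    rw [← mul_div_assoc]
    exact div_le_div_of_nonneg_right (by linarith) s0.le
  have θ0 := div_pos t0 s0
  obtain ⟨g, v, g1, g2, g3, g4⟩ := exists_g θ0.le ((div_le_self t0.le s2).trans t1)
  have g5 : β * ‖v‖ ^ 2 = t ^ 2 := by rw [g2, div_pow, sq_sqrt β0.le, mul_div_cancel₀ _ β0.ne']
  rw [div_right_comm]
  rw [sq_sqrt β0.le] at n4
  generalize L ^ a / √β = ε at *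
  generalize t / √β = θ at *
  have mp := (cont_per n).measurable
  have mh := S3.continuous_q.comp ((Pv.cont_hol 0 0 1).comp (cont_per n))
  have mI := Quaternion.continuous_imI.comp mh
  have mA : MeasurableSet {U : Conf | ‖(hol Inv.inv U 0 0 1).q - 1‖ ≤ θ / 5} :=
    measurableSet_le (Ms.meas_nsub.comp (Pv.cont_hol 0 0 1).measurable) measurable_const
  have hI : ∀ U : Conf, |(hol Inv.inv U 0 0 1).q.imI| ≤ ‖(hol Inv.inv U 0 0 1).q - 1‖ := fun U => by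
    simpa [sg_one, show (1 : S3).q.imI = 0 from rfl] using hol_sg (show 1 < n by omega) 1 U
  have key := abs_fl (f := fun U => f (per n U))
    (g := fun U => if curvG ε (per n U) then fG (per n U) else 0) (mr.comp mp)
    (Measurable.ite (mp (Pv.meas_curv ε)) (mG.comp mp) measurable_const)
    (mp_mul (Pi.mulSingle (0, 0) g)) (mp_mul (Pi.mulSingle (0, 0) g⁻¹)) (mp mA)
    (measurableSet_lt (measurable_const (a := θ / 5)) mI.measurable)
    (measurableSet_lt mI.measurable (measurable_const (a := -(θ / 5))))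
    (Set.disjoint_left.2 fun U h1 h2 => absurd ((abs_le.1 ((hI _).trans h1)).2) (not_le.2 h2))
    (Set.disjoint_left.2 fun U h1 h2 => h1.elim
      (fun h1 => absurd ((abs_le.1 ((hI _).trans h1)).1) (not_le.2 h2))
      fun h1 => absurd (lt_trans (show θ / 5 < _ from h1) h2) (by linarith))
    (fun U => by
      split_ifs
      exacts [hle _, zero_le]) e3 hj1 fun U hA => ?_
  · rw [lawOf, Measure.real, Measure.map_apply mp mA, Measure.smul_apply,
      withDensity_apply _ (mp mA), smul_eq_mul]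
    refine ENNReal.toReal_le_of_le_ofReal (by norm_num) ?_
    rw [ENNReal.ofReal_inv_of_pos two_pos, ENNReal.ofReal_ofNat, ENNReal.inv_mul_le_iff e2.ne' e3.ne,
      ← div_eq_mul_inv, ENNReal.le_div_iff_mul_le (by simp) (by simp), mul_comm]
    exact key
  have hW := per_per n U
  have b1 := abs_le.1 ((hol_sg (show 1 < n by omega) g (per n U)).trans hA)
  have b2 := abs_le.1 ((hol_sg (show 1 < n by omega) g⁻¹ (per n U)).trans hA)
  rw [S3.q_inv, Quaternion.imI_star] at b2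
  refine ⟨show θ / 5 < (hol Inv.inv (sg n g * per n U) 0 0 1).q.imI by linarith [b1.1],
    show (hol Inv.inv (sg n g⁻¹ * per n U) 0 0 1).q.imI < -(θ / 5) by linarith [b2.2], ?_⟩
  change _ ≤ f (sg n g * per n U) + f (sg n g⁻¹ * per n U)
  split_ifs with hε
  swap
  · simp
  generalize per n U = W at *
  have d := act_diff (hC0 _ _ _ _ _ (by norm_num) hm) hm (hc _ _ _ _ _ hcr (by norm_num) hm)
    (by positivity) hφ β0.le hW hε g1 (by linarith) (g3.trans n7) hn n1 n2 (by linarith)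
  have c1 := fun (g : S3) (hg : ‖g.q - 1‖ ≤ ε) => (hU _ (per_sg g hW)
    ((curv_mul (fun e => (sg_norm g e).trans hg) hε).mono n6)).1
  refine le_trans ?_ (add_le_add (c1 g (g3.trans n7))
    (c1 g⁻¹ (((S3.norm_inv_sub g).trans_le g3).trans n7)))
  refine (mul_le_mul_right (hU W hW (hε.mono (by linarith))).2 _).trans ?_
  rw [← ENNReal.ofReal_mul (by norm_num), ← ENNReal.ofReal_add (exp_pos _).le (exp_pos _).le]
  refine ENNReal.ofReal_le_ofReal ?_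
  have k : ∀ x y : ℝ, (y - x + 1) * exp x ≤ exp y := fun x y => by
    rw [← le_div_iff₀ (exp_pos x), ← exp_sub]
    exact add_one_le_exp _
  refine le_trans ?_ (add_le_add (k (E + 20⁻¹ - act β m φ n W) _) (k (E + 20⁻¹ - act β m φ n W) _))
  rw [← add_mul]
  refine mul_le_mul_of_nonneg_right ?_ (exp_pos _).le
  rw [← hC, mul_add, ← mul_assoc β, mul_left_comm β, g5] at d
  linarith

end

/-- lower bound on the fluctuations -/
theorem fluct (hb : Bad) : ∃ c > 0, ∀ γ > 0, ∃ j0 : ℕ, ∀ j ≥ j0, ∀ J l, j ≤ J → Adm J l →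
    (law γ J l (J - j)).real {U | ‖(hol Inv.inv U 0 0 1).q - 1‖ ≤ c / √(γ * nn j)} ≤ 2⁻¹ :=
  fluct_of (lev_of JC.num_main JC.num_top') hb law_eq

end Pool.Agent.Lib.MP_7f377f_mp.RG.D3.An
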