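import Pool.Agent.Lib.MP_7f377f_mp.P3Main

/-! Probabilities of bad events on tori with unequal sides. -/

namespace Pool.Agent.Lib.MP_7f377f_mp.RGP

open MeasureTheory Measure Function

set_option linter.unusedSectionVars false

variable {d : ℕ} {G : Type} [MeasurableSpace G] [Group G] [MeasurableMul₂ G] [MeasurableInv G]
  {μ : Measure G} [IsProbabilityMeasure μ] [μ.IsInvInvariant] [μ.IsMulRightInvariant]

namespace Model.Bad

variable {M : Model d μ} (B : M.Bad) {u : (Lk d → G) → ℝ} (hu : Pot u)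
include hu

theorem singleA {i k : ℕ} (hik : i ≤ k) {R : ℤ} (hR : 16 * M.rat 0 i ≤ R) (hdR : M.rat 0 i ∣ R)
    {p K : ℝ} (hp : 0 ≤ p) (h : B.CB u i R p) {N : ℤ} (hN : 0 < N)
    (hd : 2 * (27 * R) ∣ M.rat 0 k * N) {m : St d} (hm : ∀ a, 0 < m a)
    (hK : (ZZ μ u (cv (M.rat 0 k * N)) fun _ => 1) ^ (box m).card ≤
      K * ZZ μ u (m * cv (M.rat 0 k * N)) fun _ => 1) {Q : St d} (hQ : M.Dv i Q) :
    M.JZ u k (m * cv N) (ind (B.Ev i R Q)) ≤
      K * p * ZZ μ u (m * cv (M.rat 0 k * N)) fun _ => 1 := by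
  have h0 := M.rat_pos 0 i
  have h1 := mul_pos (M.rat_pos 0 k) hN
  obtain ⟨t, ht⟩ := hd
  have ht0 : 0 < t := by nlinarith
  lift t to ℕ using ht0.le
  obtain ⟨s, hs⟩ : ∃ s : ℤ, s = 27 * R * t := ⟨_, rfl⟩
  have s1 : 27 * R ≤ s := by nlinarith
  have e : M.rat 0 k * N = 2 * s := by linarith
  have hE := B.loc_Ev i (show 0 ≤ R by omega)
  have hm2 : ∀ a, 0 < (2 * m) a := fun a => mul_pos two_pos (hm a)
  have e5 : 5 * R % s = 5 * R := Int.emod_eq_of_lt (by omega) (by omega)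
  have hv : M.Dv i (Q - cv (5 * R)) := fun a => (hQ a).sub (hdR.mul_left _)
  have d5 : M.Dv i (cv (5 * R)) := fun _ => hdR.mul_left _
  have e1 := factor_loc hu (k := k) (N := m * cv N) (fun a => mul_pos (hm a) hN) (s := s) (by omega)
    hm2 (funext fun a => by
      simp only [sc, Pi.smul_apply, smul_eq_mul, Pi.mul_apply, Pi.ofNat_apply]
      linear_combination m a * e) (Finset.univ : Finset Unit) (j := fun _ => i)
    (fun _ => hE) (P := fun _ => Q) (fun _ => hQ) (fun _ => hik)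
    (v := Q - cv (5 * R)) (fun _ _ _ _ _ => rfl) fun _ _ a => by
      simp only [Pi.sub_apply, sub_sub_cancel, e5]
      omega
  rw [place hu (by omega) hm2 _ (fun _ => hE) (fun _ => hQ) (fun _ => hv)
    fun _ => hs ▸ (hdR.mul_left _).mul_right _] at e1
  simp only [Pi.sub_apply, sub_sub_cancel, e5] at e1
  have e2 := hu.hs_ev μ (h := cv s) (m := m) (fun _ => by simp only [cv]; omega) hm
    (Finset.univ : Finset Unit) (c := fun _ a => 5 * R / s % (2 * m) a)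
    (fun _ _ => cells_mem hm2 _) (fun _ _ _ _ _ => rfl)
    (fun _ => hE.bm (cv (5 * R))) (fun _ => fE_nonneg _)
    (fun _ _ => hE.dep_cell d5 fun a => by simp only [cv]; omega) (β := fun _ => p ^ 2 ^ d)
    fun _ _ => by
      have e : (2 * cv s : St d) = cv (2 * (3 * t : ℕ) * (9 * R)) := funext fun _ => by
        simp only [Pi.mul_apply, Pi.ofNat_apply, cv, hs]; push_cast; ring
      rw [hE.mir d5, e]
      have := h (3 * t) (by omega) _ d5 Finset.univ fun T _ T' _ q H =>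
        mir_sep (w := 5 * R) (fun a => by
          push_cast
          exact ⟨le_rfl, by simp only [cv]; nlinarith⟩) (by omega) T T' q H
      rwa [Finset.card_univ, Fintype.card_fun, Fintype.card_bool, Fintype.card_fin] at this
  have c2 : (box (2 * m)).card = (box m).card * 2 ^ d := by
    rw [card_box_mul (m := 2) (fun _ => two_pos) hm, mul_comm, ← card_cv 2]
    rfl
  have e3 : (2 * cv s : St d) = cv (M.rat 0 k * N) := funext fun _ => e.symm
  simp only [Finset.univ_unique, Finset.prod_singleton, c2, pow_mul, ← mul_pow, e3] at e1 e2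
  have e4 := e1.trans_le (le_of_pow_le_pow_left₀ (by positivity)
    (mul_nonneg hp (pow_nonneg (hu.zz_pos μ _).le _)) e2)
  refine le_trans e4 ?_
  calc p * _ ≤ p * (K * _) := mul_le_mul_of_nonneg_left hK hp
    _ = _ := by ring

theorem unionA {j k : ℕ} (hj : j ≤ k + 1) {R : ℕ → ℤ} {p : ℕ → ℝ} {K : ℝ} {N : ℤ} (hN : 0 < N)
    {m : St d} (hm : ∀ a, 0 < m a)
    (hK : (ZZ μ u (cv (M.rat 0 k * N)) fun _ => 1) ^ (box m).card ≤
      K * ZZ μ u (m * cv (M.rat 0 k * N)) fun _ => 1)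
    (h : ∀ i < j, 16 * M.rat 0 i ≤ R i ∧ M.rat 0 i ∣ R i ∧ 0 ≤ p i ∧ B.CB u i (R i) (p i) ∧
      2 * (27 * R i) ∣ M.rat 0 k * N) :
    M.JZ u k (m * cv N) (ind (B.Bd j)) ≤ (box m).card * K *
      (∑ i ∈ Finset.range j, ((M.rat i k * N : ℤ) : ℝ) ^ d * p i) *
        M.JZ u k (m * cv N) fun _ => 1 := by
  have hN' : ∀ a, 0 < (m * cv N : St d) a := fun a => mul_pos (hm a) hN
  have es : ∀ i, M.sc k (m * cv N) i = m * cv (M.rat i k * N) := fun i => funext fun a => by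
    simp only [sc, Pi.smul_apply, smul_eq_mul, Pi.mul_apply]
    ring
  rw [M.JZ_one hu k hN', es]
  have bE : ∀ i Q, BM (ind (B.Ev i (R i) Q)) := fun i Q =>
    bm_ind (((B.loc_bat i).meas Q).diff ((B.loc_Nr (Nat.le_succ i) _).meas Q))
  refine (M.JZ_mono hu k _ (bm_ind (B.meas_Bd j)) (g' := fun w => ∑ i ∈ Finset.range j,
    ∑ z ∈ box (M.sc k (m * cv N) i), ind (B.Ev i (R i) (M.rat 0 i • z)) w)
    (BM.sum fun i _ => BM.sum fun z _ => bE _ _) fun w => ?_).trans ?_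
  · by_cases hw : pcH (M.sc k (m * cv N)) w ∈ B.Bd j
    · obtain ⟨i, hi, z, hz, H⟩ := B.lowest hj hN' hw
      rw [ind_of_mem hw, ← ind_of_mem (H (R i))]
      exact (Finset.single_le_sum (f := fun z => ind (B.Ev i (R i) (M.rat 0 i • z)) _)
        (fun _ _ => ind_nonneg _ _) hz).trans (Finset.single_le_sum
          (f := fun i => ∑ z ∈ box (M.sc k (m * cv N) i), ind (B.Ev i (R i) (M.rat 0 i • z)) _)
          (fun _ _ => Finset.sum_nonneg fun _ _ => ind_nonneg _ _) (Finset.mem_range.mpr hi))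
    · rw [ind_of_not hw]
      exact Finset.sum_nonneg fun _ _ => Finset.sum_nonneg fun _ _ => ind_nonneg _ _
  rw [M.JZ_sum hu k _ _ fun i => BM.sum fun z _ => bE _ _, Finset.mul_sum, Finset.sum_mul]
  refine Finset.sum_le_sum fun i hi => ?_
  obtain ⟨h1, h2, h3, h4, h5⟩ := h i (Finset.mem_range.mp hi)
  have hp := mul_pos (M.rat_pos i k) hN
  rw [M.JZ_sum hu k _ _ fun z => bE _ _, ← card_cv' hp.le]
  refine (Finset.sum_le_card_nsmul _ _ _ fun z _ => B.singleA hu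
    (by have := Finset.mem_range.mp hi; omega) h1 h2 h3 h4 hN h5 hm hK
      fun a => dvd_mul_right _ _).trans (le_of_eq ?_)
  rw [es, card_box_mul hm fun _ => hp, nsmul_eq_mul]
  push_cast
  ring

theorem cb_all {k : ℕ} {m : ℕ → ℤ} {e γ τ V Y X p : ℕ → ℝ}
    (h : ∀ j ≤ k, 16 ≤ m j ∧ 0 ≤ γ j ∧ 0 ≤ τ j ∧ B.Inp u j (m j) (e j) (γ j) (τ j) ∧
      V j = ((18 * 9 ^ 2 ^ d * m j : ℤ) : ℝ) ^ d ∧
      (∀ i < j, 9 * (9 ^ 2 ^ d * m i * M.rat 0 i) ∣ m j * M.rat 0 j) ∧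
      V j * ∑ i ∈ Finset.range j, (M.rat i j : ℝ) ^ d * p i ≤ Y j ∧ τ j + Y j ≤ 2⁻¹)
    (h' : ∀ j ≤ k, 2 ^ 9 ^ d * Real.exp (2 * γ j * V j) * Y j ≤ X j ∧ X j ≤ 1 ∧ 0 < p j ∧
      2 * Real.exp (2 * γ j * V j) * (2 ^ d * τ j + X j ^ 2 ^ d) ≤ p j ^ 2 ^ d)
    {N : ℤ} (hN : 0 < N) (hd : ∀ i ≤ k, 2 * (27 * (9 ^ 2 ^ d * m i * M.rat 0 i)) ∣ M.rat 0 k * N)
    {a : St d} (ha : ∀ i, 0 < a i) {K : ℝ}
    (hK : (ZZ μ u (cv (M.rat 0 k * N)) fun _ => 1) ^ (box a).card ≤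
      K * ZZ μ u (a * cv (M.rat 0 k * N)) fun _ => 1) :
    M.JZ u k (a * cv N) (ind (B.Bd (k + 1))) ≤ (box a).card * K *
      (∑ i ∈ Finset.range (k + 1), ((M.rat i k * N : ℤ) : ℝ) ^ d * p i) *
        M.JZ u k (a * cv N) fun _ => 1 := by
  have hR : ∀ i ≤ k, 16 * M.rat 0 i ≤ 9 ^ 2 ^ d * m i * M.rat 0 i := fun i hi =>
    mul_le_mul_of_nonneg_right (by
      nlinarith [one_le_pow₀ (show (1 : ℤ) ≤ 9 by norm_num) (n := 2 ^ d), (h i hi).1])
      (M.rat_pos 0 i).le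
  have key : ∀ j ≤ k, B.CB u j (9 ^ 2 ^ d * m j * M.rat 0 j) (p j) := by
    intro j
    induction j using Nat.strong_induction_on with
    | _ j ih =>
      intro hj
      obtain ⟨a1, a2, a3, a4, a5, a6, a7, a8⟩ := h j hj
      obtain ⟨b1, b2, b3, b4⟩ := h' j hj
      exact (B.level hu (R := fun i => 9 ^ 2 ^ d * m i * M.rat 0 i) a1 a2 a3 a4 a5 (fun i hi =>
        ⟨hR i (by omega), (h' i (by omega)).2.2.1.le, ih i hi (by omega), a6 i hi⟩) a7 a8).2
          _ _ b1 b2 b3 b4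
  exact B.unionA hu le_rfl hN ha hK fun i hi => ⟨hR i (by omega), dvd_mul_left _ _,
    (h' i (by omega)).2.2.1.le, key i (by omega), hd i (by omega)⟩

end Model.Bad

end Pool.Agent.Lib.MP_7f377f_mp.RGP
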