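import Pool.Agent.Lib.MP_7f377f_mp.R3LvZ

/-! Interfaces of the proof of the mass gap on the cylinder in three dimensions. -/

noncomputable section

namespace Pool.Agent.Lib.MP_7f377f_mp.RG.D3.Hq

open Finset MeasureTheory
open scoped ENNReal

/-- agreement on the time slab of half width `w` around the time `c` -/
def Slab {α : Type} (c : ℤ) (w : ℕ) (U U' : Lk → α) : Prop :=
  ∀ e : Lk, |e.1 0 - c| ≤ w → U e = U' e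

/-- periodic fields of small curvature -/
def Fl (n : ℕ) (δ : ℝ) (U : Conf) : Prop := Per n U ∧ curvG δ U

/-- the inequality between four configurations -/
def Four (n c w : ℕ) (δ t : ℝ) (A : Conf → ℝ) (f f0 g1 g2 : Conf → ℝ≥0∞) : Prop :=
  ∀ U U0 U1 U2, Fl n δ U → Fl n δ U0 → Fl n δ U1 → Fl n δ U2 → Slab 0 w U U1 → Slab c w U U2 →
    ENNReal.ofReal (Real.exp (A U1 + A U2 - A U - A U0 - t)) * (g1 U1 * g2 U2) ≤ f U * f0 U0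

/-- the small interaction of the fluctuation field -/
def SS (D : Dat) (n : ℕ) (W : Conf) (z : fund D.l n → E3) : ℝ :=
  ∑ y ∈ cube n, (D.s0 (sh y (cC W)) (sh (up D.l y) (ext D.l n 0 z))).re

/-- the law of the fluctuation field -/
def fm (D : Dat) (n : ℕ) (W : Conf) : Measure (fund D.l n → E3) :=
  (Measure.pi fun _ : fund D.l n => nu D.ζ).tilted fun z => -SS D n W z

/-- two flat slabs can be joined by a flat field -/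
def Join : Prop := ∃ C : ℝ, 1 ≤ C ∧ ∀ (n c w : ℕ) (δ : ℝ) (U1 U2 : Conf), C ≤ δ * n → C * δ ≤ 1 →
  2 * w + C / δ ≤ c → c + 2 * w + C / δ ≤ n → Fl n δ U1 → Fl n δ U2 →
    ∃ U, Fl n (C * δ) U ∧ Slab 0 w U U1 ∧ Slab c w U U2

/-- opposite time slices of the Wilson measure are mixed, outside of improbable events -/
def Mix : Prop := ∀ γ > (0 : ℝ), ∀ d > (0 : ℝ), ∃ c > (0 : ℝ), ∃ J0 : ℕ, ∀ J l, J0 ≤ J → Adm J l →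
  ∃ G : Conf → ℝ≥0∞, Measurable G ∧ (∀ U, G U ≤ 1) ∧
    ENNReal.ofReal (1 - d) ≤ ∫⁻ U, G U ∂wilson (γ * (LL l * nn J)) (LL l * nn J) ∧
    ∀ a b : Conf → ℝ≥0∞, GI (LL l * nn J) a → GI (LL l * nn J) b →
      (∀ U U', Slab 0 0 U U' → a U = a U') →
      (∀ U U', Slab (LL l * 3 ^ J ^ 2 : ℕ) 0 U U' → b U = b U') →
      ENNReal.ofReal c * ((∫⁻ U, a U * G U ∂wilson (γ * (LL l * nn J)) (LL l * nn J)) *
        ∫⁻ U, b U * G U ∂wilson (γ * (LL l * nn J)) (LL l * nn J)) ≤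
      ∫⁻ U, a U * b U ∂wilson (γ * (LL l * nn J)) (LL l * nn J)

/-- the renormalisation step preserves the inequality between four configurations -/
def WStep : Prop := ∀ c : ℕ, ∃ K : ℕ, ∀ (D : Dat) (R R' : ℕ) (τ ρ κ ρ' : ℝ), D.Ok c τ R ρ κ →
    K ≤ D.l → D.Rb + D.Rs R + 2 ≤ R' → R' ≤ LL D.l ^ (12 * c + 30) → 0 < ρ' →
    ρ' ≤ √(LL D.l) * ρ → (LL D.l : ℝ) ^ K * ρ' ≤ 1 → (LL D.l : ℝ) ^ K * ρ' ^ 2 ≤ ρ →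
    (LL D.l : ℝ) ^ K * (D.g * D.ζ) ≤ ρ → (LL D.l : ℝ) ^ K * (D.g * D.ζ) ≤ ρ' →
    (2 * D.Rb + 1) ^ 3 * D.th0 K τ ρ ρ' κ (3 * R' * ρ') ≤ 1 / 100 →
    ∀ (p : ℕ) (ε δ δ' : ℝ), p * (2 * D.Rs R + 1) ≤ D.Rb → 2 * δ' ≤ ρ' →
    (LL D.l : ℝ) ^ K * δ ≤ 1 → (LL D.l : ℝ) ^ K * δ' ^ 2 ≤ δ → δ' ≤ √(LL D.l) * δ →
    (LL D.l : ℝ) ^ K * (D.g * D.ζ) ≤ δ → (LL D.l : ℝ) ^ K * ε ≤ D.g * D.ζ →
    (LL D.l : ℝ) ^ 3 * ε ≤ δ' → 0 ≤ ε →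
    ∀ (n c0 w w' : ℕ) (t : ℝ) (f f0 g1 g2 : Conf → ℝ≥0∞), LL D.l ^ K ≤ n →
      w / LL D.l + 4 * R' ≤ w' → 2 * w' + 1 ≤ c0 → c0 + 2 * w' + 1 ≤ n →
      GI (LL D.l * n) f → GI (LL D.l * n) f0 → GI (LL D.l * n) g1 → GI (LL D.l * n) g2 →
      Four (LL D.l * n) (LL D.l * c0) w δ t (act D.β D.m D.ψ (LL D.l * n)) f f0 g1 g2 →
      Four n c0 w' δ' (t + 10 * (2⁻¹ ^ p + 2 * Real.exp (-(D.l : ℝ)) * D.ζ ^ 2) * n ^ 3) (D.actN n)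
        (TT D.l (D.β * LL D.l ^ 2) n f) (TT D.l (D.β * LL D.l ^ 2) n f0)
        (TG D.l (D.β * LL D.l ^ 2) ε n g1) (TG D.l (D.β * LL D.l ^ 2) ε n g2)

/-- conditional decoupling of the fluctuation integral -/
def WDec : Prop := ∀ (D : Dat) (c R : ℕ) (τ ρ κ θ : ℝ), D.Ok c τ R ρ κ → ∀ n p c0 w w' : ℕ,
    p * (2 * D.Rs R + 1) ≤ D.Rb → w + 2 * (D.Rb + D.Rs R + 2) ≤ w' → 2 * w' + 1 ≤ c0 →
    c0 + 2 * w' + 1 ≤ n → (2 * D.Rb + 1) ^ 3 * θ ≤ 1 / 100 → ∀ W W0 W1 W2 : Conf,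
    (∀ V, V = W ∨ V = W0 ∨ V = W1 ∨ V = W2 → Per n V ∧
      ∀ y, (∀ z, ‖D.s0 (sh y (cC V)) z‖ ≤ θ) ∧ Measurable (D.s0 (sh y (cC V)))) →
    Slab 0 w' W W1 → Slab c0 w' W W2 →
    ∀ (t : ℝ≥0∞) (F F0 F1 F2 : (fund D.l n → E3) → ℝ≥0∞), Measurable F → Measurable F0 →
    Measurable F1 → Measurable F2 →
    (∀ z z0 z1 z2, Slab 0 (fb D.l w) (ext D.l n 0 z) (ext D.l n 0 z1) →
      Slab (LL D.l * c0 : ℕ) (fb D.l w) (ext D.l n 0 z) (ext D.l n 0 z2) →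
      t * (F1 z1 * F2 z2) ≤ F z * F0 z0) →
    ENNReal.ofReal (Real.exp (-(48 * θ * 2⁻¹ ^ p * n ^ 3))) * t *
      ((∫⁻ z, F1 z ∂fm D n W1) * ∫⁻ z, F2 z ∂fm D n W2) ≤
      (∫⁻ z, F z ∂fm D n W) * ∫⁻ z, F0 z ∂fm D n W0

end Pool.Agent.Lib.MP_7f377f_mp.RG.D3.Hq
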