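import Pool.Agent.Lib.MP_7f377f_mp.HJoinB
import Pool.Agent.Lib.MP_7f377f_mp.HDefs

/-! Two almost flat time slabs can be joined by an almost flat field. -/

noncomputable section

namespace Pool.Agent.Lib.MP_7f377f_mp.RG.D3

open M3

namespace Jn

/-- the nearest point of the two slabs -/
def nr (n c w T r : ℤ) : ℤ :=
  if r ≤ w + T then min r w else if r ≤ c + w + T then max c (min r (c + w)) else n

theorem tim {n T : ℕ} {c w a : ℤ} (w0 : 0 ≤ w) (h1 : w + 4 * T + 1 ≤ c) (h2 : c + w + 4 * T + 1 ≤ n) :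
    Tim n T (fun t => t + (nr n c w (2 * T) ((t + a) % n) - (t + a) % n))
      fun t => (nr n c w (2 * T) ((t + a) % n) - (t + a) % n).natAbs := by
  have n0 : (0 : ℤ) < n := by omega
  refine ⟨fun s t h => ?_, fun t h => by omega, fun t => ?_, fun t => ?_⟩
  · have : (s + a) % n = (t + a) % n :=
      Int.emod_eq_emod_iff_emod_sub_eq_zero.2 (Int.emod_eq_zero_of_dvd (by simpa using h))
    simpa [this] using h
  · have b1 := Int.emod_nonneg (t + a) n0.ne'
    have b2 := Int.emod_lt_of_pos (t + a) n0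
    have : ∀ g : ℤ, (t + (g - (t + a) % n) + a) % n = g % n := fun g =>
      Int.emod_eq_emod_iff_emod_sub_eq_zero.2 (Int.emod_eq_zero_of_dvd (by
        rw [show t + (g - (t + a) % n) + a - g = t + a - (t + a) % n by ring]
        exact Int.dvd_self_sub_emod))
    simp only [this]
    generalize (t + a) % n = r at b1 b2
    rcases eq_or_ne (nr n c w (2 * T) r) n with e | e
    · rw [e, Int.emod_self, nr]; omega
    · rw [Int.emod_eq_of_lt (by unfold nr; omega) (by unfold nr at e ⊢; omega)]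
      unfold nr at e ⊢; omega
  · have b1 := Int.emod_nonneg (t + a) n0.ne'
    have b2 := emod_succ n0 (t + a)
    simp only [add_right_comm t 1 a]
    generalize (t + a + 1) % n = r' at b2
    generalize (t + a) % n = r at b1 b2
    unfold nr; omega

end Jn

open Jn

theorem Hq.join_main : Hq.Join := by
  refine ⟨6000, by norm_num, fun n c w δ U1 U2 h1 h2 h3 h4 f1 f2 => ?_⟩
  have d0 : 0 < δ := pos_of (T := n) (by linarith)
  obtain ⟨T, T1, T2⟩ : ∃ T : ℕ, 1 ≤ T * δ ∧ 4 * T + 2 ≤ 6000 / δ := by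
    refine ⟨⌈δ⁻¹⌉₊, (inv_le_iff_one_le_mul₀ d0).1 (Nat.le_ceil _), ?_⟩
    have := Nat.ceil_lt_add_one (inv_pos.2 d0).le
    have : 1 ≤ δ⁻¹ := (one_le_inv₀ d0).2 (by linarith)
    rw [div_eq_mul_inv]; linarith
  have e1 : 2 * w + 4 * T + 2 ≤ c := by exact_mod_cast (by linarith : (2 * w + 4 * T + 2 : ℝ) ≤ c)
  have e2 : c + 2 * w + 4 * T + 2 ≤ n := by
    exact_mod_cast (by linarith : (c + 2 * w + 4 * T + 2 : ℝ) ≤ n)
  have n0 : (0 : ℤ) < n := by omega
  have T0 : T ≠ 0 := by rintro rfl; simp at T1; linarith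
  set V : Conf := fun e => if (e.1 0 + w) % n ≤ 2 * w + 1 then U1 e else U2 e with hV
  obtain ⟨W, w1, w2, w3⟩ := fill (U := V) (tim (n := n) (T := T) (c := c) (w := 2 * w + 1) (a := w)
    (by omega) (by omega) (by omega)) (fun x y μ e => by
      have : (x 0 + w) % n = (y 0 + w) % n :=
        Int.emod_eq_emod_iff_emod_sub_eq_zero.2 (Int.emod_eq_zero_of_dvd (by simpa using e 0))
      simp only [hV, this, PL_of_per f1.1 _ _ _ e, PL_of_per f2.1 _ _ _ e])
    (by linarith) T1 (by omega) fun x μ ν a b b' => by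
      have k : ∀ μ, (nr n c (2 * w + 1) (2 * T) (((x + un μ) 0 + w) % n) -
          ((x + un μ) 0 + w) % n).natAbs = 0 →
          (((x + un μ) 0 + w) % n ≤ 2 * w + 1 ↔ (x 0 + w) % n ≤ 2 * w + 1) := fun μ b => by
        by_cases e : μ = 0
        · have b1 := Int.emod_nonneg (x 0 + w) n0.ne'
          have b2 := emod_succ n0 (x 0 + w)
          rw [e, Pi.add_apply, un_self, add_right_comm] at b ⊢
          generalize (x 0 + w + 1) % n = r' at b b2
          generalize (x 0 + w) % n = r at a b1 b2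
          unfold nr at a b; omega
        · rw [Pi.add_apply, un_ne (Ne.symm e), add_zero]
      simp only [hol, hV, k _ b, k _ b']
      split_ifs
      exacts [f1.2 x μ ν, f2.2 x μ ν]
  have k : ∀ (e : Lk) (r : ℤ), r = e.1 0 + w → (0 ≤ r ∧ r ≤ 2 * w ∨ c ≤ r ∧ r ≤ c + 2 * w) →
      W e = if r ≤ 2 * w + 1 then U1 e else U2 e := fun ⟨x, μ⟩ r e h => by
    change r = x 0 + w at e
    have a : (x 0 + w) % n = r := by rw [← e]; exact Int.emod_eq_of_lt (by omega) (by omega)
    rw [w3 x μ (by simp only [a, nr]; omega), hV]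
    · simp only [a]
    · have : 0 ≤ un μ 0 ∧ un μ 0 ≤ 1 := by rw [un_apply]; omega
      rw [Pi.add_apply, Int.emod_eq_of_lt (by omega) (by omega), nr]; omega
  refine ⟨W, ⟨per_of_PL w1, w2⟩, fun e h => ?_, fun e h => ?_⟩ <;> rw [abs_le] at h
  · rw [k e _ rfl (by omega), if_pos (by omega)]
  · rw [k e _ rfl (by omega), if_neg (by omega)]

end Pool.Agent.Lib.MP_7f377f_mp.RG.D3
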