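import Pool.Agent.Lib.MP_7f377f_mp.HLev

/-! The induction over the levels for the inequality between four configurations. -/

noncomputable section

namespace Pool.Agent.Lib.MP_7f377f_mp.RG.D3.Hq

open Finset MeasureTheory
open scoped Quaternion ENNReal Pointwise
open JC
open D3.Pv (sz sz_succ bq_eq aq_eq nn_pos nn_succ LL_succ LL_ll)

attribute [local irreducible] box lbox

/-- half of the side of the torus after `i` steps -/
def cz (J l i : ℕ) : ℕ := if i = 0 then LL l * 3 ^ J ^ 2 else 3 ^ (J + 1 - i) ^ 2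

theorem cz_succ {J l i v : ℕ} (h : v + i = J) : cz J l i = LL (lq J l i) * 3 ^ v ^ 2 := by
  unfold cz lq
  split_ifs with h0
  · rw [← h, h0, add_zero]
  · rw [show J + 1 - i = v + 1 by omega, show J - i = v by omega, LL_ll, ← pow_add]
    congr 1
    ring

/-- the invariant after `i` steps, at level `w` -/
def R4 (C : ℕ) (γ : ℝ) (a b J l i w : ℕ) (m : BF) (φ : Fld → ℂ) : Prop :=
  ∀ u v : Conf → ℝ≥0∞, GI (LL l * nn J) u → GI (LL l * nn J) v →
    (∀ U U', Slab 0 0 U U' → u U = u U') →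
    (∀ U U', Slab (LL l * 3 ^ J ^ 2 : ℕ) 0 U U' → v U = v U') →
    Four (sz J l i) (cz J l i) (5 * rk w C) (dl b w (bq γ J l i)) (20 * 2⁻¹ ^ w)
      (act (bq γ J l i) m φ (sz J l i))
      (tw γ J l (fun U => w0 γ J l U * (u U * v U)) i) (tw γ J l (w0 γ J l) i)
      (tG γ a J l (fun U => w0 γ J l U * u U) i) (tG γ a J l (fun U => w0 γ J l U * v U) i)

theorem Slab.zero {α : Type} {c : ℤ} {w : ℕ} {U U' : Lk → α} (h : Slab c w U U') :
    Slab c 0 U U' := fun e he => h e (he.trans (by exact_mod_cast Nat.zero_le w))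

theorem R4.zero {C a b J l : ℕ} {γ : ℝ} (d1 : 2000 * dl b (J + 1) (bq γ J l 0) ≤ 1) :
    R4 C γ a b J l 0 (J + 1) m0 (phi0 (bq γ J l 0)) := by
  intro u v _ _ hu hv U U0 U1 U2 a a0 a1 a2 s1 s2
  rw [act_zero _ _ a.2 d1, act_zero _ _ a0.2 d1, act_zero _ _ a1.2 d1, act_zero _ _ a2.2 d1]
  simp only [tw, tG, w0, ← hu _ _ s1.zero, ← hv _ _ s2.zero]
  rw [mul_mul_mul_comm, ← mul_assoc, mul_right_comm (ENNReal.ofReal _) (u U * v U),
    ← ENNReal.ofReal_mul (Real.exp_pos _).le, ← ENNReal.ofReal_mul (Real.exp_pos _).le,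
    ← ENNReal.ofReal_mul (Real.exp_pos _).le, ← Real.exp_add, ← Real.exp_add, ← Real.exp_add]
  refine mul_le_mul_left (ENNReal.ofReal_le_ofReal (Real.exp_le_exp.2 ?_)) _
  have : (0 : ℝ) ≤ 20 * 2⁻¹ ^ (J + 1) := by positivity
  simp only [bq, sz, if_true]
  linarith

theorem width {C K w : ℕ} (h1 : rk w C ≤ LL (ll w) ^ (C + 3)) (h2 : LL (ll w) ^ K ≤ nn w)
    (hK : C + 6 ≤ K) (hw : 1 ≤ w) : 4 ≤ rk w C * 4 ∧ 27 * rk w C ≤ 2 * 3 ^ w ^ 2 := by
  have h3 : 3 ≤ LL (ll w) := by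
    rw [LL_ll]
    exact Nat.le_self_pow (by omega) 3
  have h4 : 0 < rk w C := by unfold rk; positivity
  refine ⟨by omega, le_trans ?_ ((Nat.pow_le_pow_right (by omega) hK).trans h2)⟩
  rw [show C + 6 = 3 + (C + 3) by ring, pow_add]
  exact Nat.mul_le_mul (Nat.pow_le_pow_left h3 3) h1

theorem chain_of (hW : WStep) : Chain := by
  intro a0
  obtain ⟨c, c1, M, S, j1, hM, -⟩ := lin_chain
  obtain ⟨K, hS⟩ := lev4 hW c
  obtain ⟨cb, hb⟩ := inv_bd
  refine ⟨a0 + 1, by omega, fun X X1 γ hγ => ?_⟩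
  generalize ha : a0 + 1 = a
  obtain ⟨b0, h2⟩ := num_main c K a c1
  obtain ⟨j2, h2⟩ := h2 (b0 + a + 1) (by omega) γ hγ
  obtain ⟨j3, h3⟩ := num_top' (12 * c + 26) (3 * K + (12 * c + 26) + 6) 0 cb a (b0 + a + 1) 1
    (by omega) (by omega) γ hγ
  obtain ⟨j4, h4⟩ := num_log (64 * X ^ 2 * γ + X + 1)
  have hab : a + 1 ≤ b0 + a + 1 := by omega
  generalize b0 + a + 1 = b at h2 h3 hab
  generalize 12 * c + 26 = C at h2 h3
  have t0 : ∀ w ≥ j3, Top C (3 * K + C + 6) 0 cb w 1 (γ * nn w) (dl b w (γ * nn w))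
      (dl a w (γ * nn w)) (kp (γ * nn w)) := fun w hw => h3 w hw _ le_rfl
    (le_mul_of_one_le_right (by positivity) (one_le_pow₀ (one_le_LL _)))
  have all : ∀ J l, Adm J l → ∀ i w, j1 + j2 + j3 + 1 ≤ w → w + i = J + 1 →
      ∃ φ, Cl C w (2 * dl b w (bq γ J l i)) (kp (bq γ J l i)) φ ∧
        R4 C γ a b J l i w (M J l i) φ := fun J l hA i => by
    induction i with
    | zero =>
      intro w hw hJ
      obtain ⟨g1, g2⟩ := bq_bd hγ hA hJ (by omega)
      have T := h3 w (by omega) _ g1 g2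
      obtain rfl : w = J + 1 := hJ
      have b0 := zero_le_one.trans T.b1
      rw [(hM J l hA).1]
      exact ⟨_, Cl.low T.k0.le ((phi0_tm b0 T.z1 (Nat.one_le_pow _ _ (by omega))).mono le_rfl T.z2),
        R4.zero (by linarith [T.z1, T.d0])⟩
    | succ i ih =>
      intro w hw hJ
      obtain ⟨φ, p1, p2⟩ := ih (w + 1) (by omega) (by omega)
      have hv : w + i = J := by omega
      obtain ⟨l1, l2⟩ := lq_bd hA hv
      obtain ⟨m1, m2, ⟨_, m3⟩, m4, -⟩ := (hM J l hA).2 i w (by omega) hv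
      have N := h2 w (by omega) _ l1 l2
      rw [← bq_lq γ l hv] at N
      obtain ⟨φ', q1, q2⟩ := hS _ _ _ _ _ (γ * nn w) _ _ _ _ _ _ _ _ _ _ φ N
        (by rw [bq_lq γ l hv]; ring) m1 m3.rng m4 p1
      rw [bq_succ γ l hv, m2]
      refine ⟨φ', q1, fun u v gu gv su sv => ?_⟩
      have T := t0 w (by omega)
      obtain ⟨w1, w2⟩ := width T.r1 T.m1 (by omega) (by omega)
      have g0 := GI_w0 γ J l
      have gi := fun f hf => GI_tw (γ := γ) (a := a) (l := l) (f := f) hf (show i ≤ J + 1 by omega)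
      have p3 := p2 u v gu gv su sv
      have e1 : J - i = w := by omega
      simp only [sz_succ (show i ≤ J by omega), e1] at gi p3
      rw [cz_succ hv] at p3
      have e3 : aq γ J l i = bq γ J l i * LL (lq J l i) ^ 2 := by rw [aq_eq γ (by omega), bq_eq]
      have e4 : ep γ a J l i = dl a (w + 1) (bq γ J l i) := by
        rw [ep, show J + 1 - i = w + 1 by omega, dl]
      have e5 : cz J l (i + 1) = 3 ^ w ^ 2 := by
        rw [cz, if_neg i.succ_ne_zero, show J + 1 - (i + 1) = w by omega]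
      simp only [tw, tG]
      rw [sz_one, e1, e3, e4, e5, bq_succ γ l hv]
      refine (q2 (nn w) (3 ^ w ^ 2) _ (5 * rk w C) _ _ _ _ _ (((Nat.pow_le_pow_left l2 K).trans_eq
        (pow_mul _ _ _).symm).trans ((Nat.pow_le_pow_right (LL_pos _) (by omega)).trans T.m1))
        ?_ (by omega) (by rw [nn]; omega) (gi _ (GI_mul g0 (GI_mul gu gv))).1 (gi _ g0).1
        (gi _ (GI_mul g0 gu)).2 (gi _ (GI_mul g0 gv)).2 p3).mono (le_of_eq ?_) 0
        fun _ _ => (add_zero _).symm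
      · have r1 := N.rb
        have L0 := LL_pos (lq J l i)
        have r2 : 5 * rk (w + 1) C / LL (lq J l i) ≤ 5 * (rk (w + 1) C / LL (lq J l i) + 1) := by
          refine Nat.div_le_of_le_mul ?_
          rw [mul_left_comm]
          exact Nat.mul_le_mul_left 5 (Nat.lt_mul_div_succ _ L0).le
        have r3 : 1 ≤ w ^ 2 := Nat.one_le_pow _ _ (by omega)
        generalize rk (w + 1) C / LL (lq J l i) = q at r1 r2
        have r4 : 5 * (q + 1) ≤ (2 * (10 * w ^ 2) + 1) *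
            (q + 4 * LL (lq J l i) ^ (2 * c + 4) + w ^ 3 + 10) :=
          Nat.mul_le_mul (by omega) (by omega)
        omega
      · have n0 : (0 : ℝ) < nn w := by exact_mod_cast nn_pos w
        rw [mul_assoc 10, div_mul_cancel₀ _ (by positivity), pow_succ 2⁻¹]
        ring
  refine ⟨j1 + j2 + j3 + j4 + 1, fun j hj => ?_⟩
  have T := t0 j (by omega)
  obtain ⟨w1, w2⟩ := width T.r1 T.m1 (by omega) (by omega)
  have L1 := one_le_LL (ll j)
  have n0 : (0 : ℝ) < nn j := by exact_mod_cast nn_pos j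
  have n1 : (LL (ll j) : ℝ) ≤ nn j := by
    exact_mod_cast (Nat.le_self_pow (by omega) _).trans T.m1
  have n2 := h4 j (by omega)
  have n3 : (0 : ℝ) ≤ 132 * ((j : ℝ) ^ 2 + 1) := by positivity
  have n4 : 0 ≤ 64 * X ^ 2 * γ := by positivity
  have sq : 0 < √(γ * nn j) := Real.sqrt_pos.2 (by positivity)
  have ε0 : 0 < dl a j (γ * nn j) := by unfold dl; positivity
  have ε1 : (X + 1) * dl a j (γ * nn j) ≤ dl b j (γ * nn j) := by
    rw [dl, dl, ← mul_div_assoc]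
    refine div_le_div_of_nonneg_right (le_trans ?_ (pow_le_pow_right₀ L1 hab)) sq.le
    rw [pow_succ']
    exact mul_le_mul_of_nonneg_right (by linarith) (by positivity)
  have ε2 : 8 * X ≤ dl a j (γ * nn j) * nn j := by
    rw [dl, div_mul_eq_mul_div, le_div_iff₀ sq]
    refine le_trans ?_ (le_mul_of_one_le_left n0.le (one_le_pow₀ L1))
    refine abs_le_of_sq_le_sq' ?_ n0.le |>.2
    rw [mul_pow, Real.sq_sqrt (by positivity)]
    nlinarith
  have ε3 : X / dl a j (γ * nn j) ≤ nn j / 8 := by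
    rw [div_le_iff₀ ε0]
    linarith
  have n5 : (nn j : ℝ) = 2 * (3 ^ j ^ 2 : ℕ) := by rw [nn, Nat.cast_mul, Nat.cast_ofNat]
  have w3 : (27 * rk j C : ℝ) ≤ 2 * (3 ^ j ^ 2 : ℕ) := by exact_mod_cast w2
  have r0 : (0 : ℝ) ≤ rk j C := Nat.cast_nonneg _
  refine ⟨5 * rk j C, dl b j (γ * nn j), 20 * 2⁻¹ ^ j, (γ * nn j * (12 * ((j ^ 3 : ℕ) : ℝ) ^ cb *
    (10 * (((j ^ 3 : ℕ) : ℝ) + 1) * dl b j (γ * nn j)) ^ 2) + (C + 1) * kp (γ * nn j)) * nn j ^ 3,
    ⟨by linarith, by linarith [T.z1], by rw [Nat.cast_mul, Nat.cast_ofNat]; linarith,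
      by rw [Nat.cast_mul, Nat.cast_ofNat]; linarith, ε1⟩, fun J l hJ hA => ?_⟩
  obtain ⟨φ, p1, p2⟩ := all J l hA (J + 1 - j) j (by omega) (by omega)
  have i0 : J + 1 - j ≠ 0 := by omega
  have e1 : J + 1 - (J + 1 - j) = j := by omega
  have e2 : sz J l (J + 1 - j) = nn j := by rw [sz, if_neg i0, e1]
  have e3 : bq γ J l (J + 1 - j) = γ * nn j := by rw [bq, if_neg i0, e1]
  have e4 : cz J l (J + 1 - j) = 3 ^ j ^ 2 := by rw [cz, if_neg i0, e1]
  rw [e3] at p1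
  simp only [R4, e2, e3, e4] at p2
  refine ⟨_, fun U hU => ?_, p2⟩
  obtain ⟨_, hm⟩ := ((hM J l hA).2 (J - j) j (by omega) (by omega)).2.2.2.2
  rw [show J - j + 1 = J + 1 - j by omega] at hm
  have w4 := T.w1
  refine act_bd (by positivity) (hb _ _ _ _ _ (le_trans (by omega)
    (Nat.le_self_pow (by norm_num) _)) (by norm_num) hm) (p1.tm T.k0.le) _ hU.2 ?_ T.h3 T.h4
  have k1 := T.h1
  have k2 := T.d0
  have k3 : (0 : ℝ) ≤ ((j ^ 3 : ℕ) : ℝ) := Nat.cast_nonneg _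
  nlinarith [mul_nonneg k3 k2.le, mul_nonneg (mul_nonneg k3 k3) k2.le]

theorem mix_of (h1 : WStep) (h2 : Join) : Mix := mix_of_chain (chain_of h1) h2

end Pool.Agent.Lib.MP_7f377f_mp.RG.D3.Hq
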