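import Pool.Agent.Lib.MP_7f377f_mp.HStepA

/-! The renormalisation step preserves the inequality between four configurations. -/

noncomputable section

namespace Pool.Agent.Lib.MP_7f377f_mp.RG.D3.Hq

open Finset MeasureTheory D3.SX
open scoped ENNReal

theorem blk_near {l w : ℕ} {x y c : ℤ} (h1 : |x - (2 * l + 1) * c| ≤ w)
    (h2 : -(l : ℤ) ≤ x - (2 * l + 1) * y ∧ x - (2 * l + 1) * y ≤ l) :
    |y - c| ≤ ((w / LL l : ℕ) : ℤ) + 1 := by
  have h3 : (w : ℤ) < (2 * l + 1) * (((w / LL l : ℕ) : ℤ) + 1) := by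
    have := Nat.lt_mul_div_succ w (show 0 < LL l from Nat.succ_pos _)
    have h4 : ((LL l : ℕ) : ℤ) = 2 * l + 1 := by simp [LL]
    rw [← h4]
    exact_mod_cast this
  obtain ⟨h5, h6⟩ := abs_le.mp h1
  generalize ((w / LL l : ℕ) : ℤ) = q at h3 ⊢
  have h0 : (0 : ℤ) ≤ l := Int.natCast_nonneg l
  refine abs_le.mpr ⟨?_, ?_⟩
  · by_contra h
    have : q + 2 ≤ c - y := by omega
    nlinarith
  · by_contra h
    have : q + 2 ≤ y - c := by omega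
    nlinarith

theorem uc_slab {D : Dat} {c R : ℕ} {τ ρ κ : ℝ} (h : D.Ok c τ R ρ κ) {W W' U U' : Conf}
    {z z' : Lk → E3} {c0 x0 : ℤ} {w a w' : ℕ} (hx : x0 = (2 * D.l + 1) * c0)
    (ha : w / LL D.l + 1 + D.Rs R ≤ a) (hw : a ≤ w') (hW : Slab c0 w' W W')
    (hz : Slab x0 (fb D.l a) z z') (hU : cC U = D.Uz (cC W) (D.Az (cC W) z))
    (hU' : cC U' = D.Uz (cC W') (D.Az (cC W') z')) : Slab x0 w U U' := by
  intro e he
  set y := yo D.l e.1 with hy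
  have ht := sub_up_mem D.l e.1
  rw [← hy] at ht
  have hn : |y 0 - c0| ≤ ((w / LL D.l : ℕ) : ℤ) + 1 := by
    have := mem_box.mp ht 0
    rw [Pi.sub_apply, up_apply] at this
    exact blk_near (hx ▸ he) this
  obtain ⟨hn1, hn2⟩ := abs_le.mp hn
  generalize w / LL D.l = q at ha hn1 hn2
  have aW : Agr (D.Rs R) (sh y (cC W)) (sh y (cC W')) := fun f hf => by
    have := mem_box.mp (mem_lbox.mp hf) 0
    simp only [sh, cC]
    rw [hW (f.1 + y, f.2) (abs_le.mpr (by simp only [Pi.add_apply]; omega))]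
  have az : Agr (fb D.l (D.Rs R)) (sh (up D.l y) z) (sh (up D.l y) z') := fun f hf => by
    have h1 := mem_box.mp (mem_lbox.mp hf) 0
    have h2 : (q : ℤ) + 1 + D.Rs R ≤ a := by exact_mod_cast ha
    have h0 : (0 : ℤ) ≤ D.l := Int.natCast_nonneg _
    refine hz (f.1 + up D.l y, f.2) (abs_le.mpr ?_)
    simp only [Pi.add_apply, up_apply, fb, LL, hx] at h1 ⊢
    push_cast at h1 ⊢
    constructor <;> nlinarith
  have hR : 4 * D.N + D.r + 10 ≤ D.Rs R := by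
    unfold Dat.Rs
    generalize R / LL D.l = r
    omega
  have hA : Agr (fb D.l 0) (D.Az (sh y (cC W)) (sh (up D.l y) z))
      (D.Az (sh y (cC W')) (sh (up D.l y) z')) := fun f hf => by
    have := Dat.pol_agr h (JS.deg_pP D.N) (a := 0) (JS.agr_mono aW (by omega))
      (A := zc D.ζ (sh (up D.l y) z)) (A' := zc D.ζ (sh (up D.l y) z')) (fun f hf => by
        simp only [zc, az f (JS.lbox_mono (Nat.add_le_add_right (Nat.mul_le_mul_right _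
          (by omega)) _) hf)]) f hf
    simp only [Dat.Az, Pi.smul_apply, this]
  have hS : Agr (fb D.l 0) (D.Us (sh y (cC W))) (D.Us (sh y (cC W'))) :=
    Dat.Us_agr h (JS.agr_mono aW (by omega))
  have hm : (e.1 - up D.l y, e.2) ∈ lbox (fb D.l 0) := mem_lbox.mpr (by simpa [fb] using ht)
  have key : ∀ (V : Conf) (v : Lk → E3), D.Uz (cC V) (D.Az (cC V) v) e =
      D.Uz (sh y (cC V)) (D.Az (sh y (cC V)) (sh (up D.l y) v)) (e.1 - up D.l y, e.2) := by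
    intro V v
    rw [Az_sh, Uz_sh]
    simp only [sh, sub_add_cancel]
  refine cS_inj ?_
  have e1 : cS (U e) = _ := (congrFun hU e).trans (key W z)
  have e2 : cS (U' e) = _ := (congrFun hU' e).trans (key W' z')
  rw [e1, e2]
  simp only [Dat.Uz, hA _ hm, hS _ hm]

theorem oe_mul (a b : ℝ) : ENNReal.ofReal (Real.exp a) * ENNReal.ofReal (Real.exp b) =
    ENNReal.ofReal (Real.exp (a + b)) := by
  rw [← ENNReal.ofReal_mul (Real.exp_pos _).le, ← Real.exp_add]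

theorem oe_le {a b : ℝ} (h : a ≤ b) : ENNReal.ofReal (Real.exp a) ≤ ENNReal.ofReal (Real.exp b) :=
  ENNReal.ofReal_le_ofReal (Real.exp_le_exp.mpr h)

theorem four_pt {A A0 A1 A2 t x : ℝ} {f f0 g1 g2 P P0 P1 P2 : ℝ≥0∞}
    (h : ENNReal.ofReal (Real.exp (A1 + A2 - A - A0 - t)) * (g1 * g2) ≤ f * f0)
    (p : ENNReal.ofReal (Real.exp (A - x)) ≤ P) (p0 : ENNReal.ofReal (Real.exp (A0 - x)) ≤ P0)
    (p1 : P1 ≤ ENNReal.ofReal (Real.exp (A1 + x))) (p2 : P2 ≤ ENNReal.ofReal (Real.exp (A2 + x))) :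
    ENNReal.ofReal (Real.exp (-t - 4 * x)) * (g1 * P1 * (g2 * P2)) ≤ f * P * (f0 * P0) :=
  calc ENNReal.ofReal (Real.exp (-t - 4 * x)) * (g1 * P1 * (g2 * P2))
      ≤ ENNReal.ofReal (Real.exp (-t - 4 * x)) * (g1 * ENNReal.ofReal (Real.exp (A1 + x)) *
        (g2 * ENNReal.ofReal (Real.exp (A2 + x)))) := by gcongr
    _ = ENNReal.ofReal (Real.exp (-t - 4 * x)) * ENNReal.ofReal (Real.exp (A1 + x)) *
        ENNReal.ofReal (Real.exp (A2 + x)) * (g1 * g2) := by ring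
    _ = ENNReal.ofReal (Real.exp (A - x)) * ENNReal.ofReal (Real.exp (A0 - x)) *
        ENNReal.ofReal (Real.exp (A1 + A2 - A - A0 - t)) * (g1 * g2) := by
      simp only [oe_mul]
      congr 3
      ring
    _ ≤ P * P0 * (f * f0) := by
      rw [mul_assoc]
      gcongr
    _ = f * P * (f0 * P0) := by ring

theorem four_end {A A0 A1 A2 e Y t s u : ℝ} {T T0 G1 G2 I I0 I1 I2 : ℝ≥0∞}
    (h : ENNReal.ofReal (Real.exp (-u)) * ENNReal.ofReal (Real.exp s) * (I1 * I2) ≤ I * I0)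
    (p : ENNReal.ofReal (Real.exp (e - Y - A)) * I ≤ T)
    (p0 : ENNReal.ofReal (Real.exp (e - Y - A0)) * I0 ≤ T0)
    (p1 : G1 ≤ ENNReal.ofReal (Real.exp (e + Y - A1)) * I1)
    (p2 : G2 ≤ ENNReal.ofReal (Real.exp (e + Y - A2)) * I2) (ht : 4 * Y + u - s ≤ t) :
    ENNReal.ofReal (Real.exp (A1 + A2 - A - A0 - t)) * (G1 * G2) ≤ T * T0 :=
  calc ENNReal.ofReal (Real.exp (A1 + A2 - A - A0 - t)) * (G1 * G2)
      ≤ ENNReal.ofReal (Real.exp (A1 + A2 - A - A0 - t)) *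
        (ENNReal.ofReal (Real.exp (e + Y - A1)) * I1 *
          (ENNReal.ofReal (Real.exp (e + Y - A2)) * I2)) := by gcongr
    _ = ENNReal.ofReal (Real.exp (A1 + A2 - A - A0 - t)) * ENNReal.ofReal (Real.exp (e + Y - A1)) *
        ENNReal.ofReal (Real.exp (e + Y - A2)) * (I1 * I2) := by ring
    _ ≤ ENNReal.ofReal (Real.exp (e - Y - A)) * ENNReal.ofReal (Real.exp (e - Y - A0)) *
        (ENNReal.ofReal (Real.exp (-u)) * ENNReal.ofReal (Real.exp s)) * (I1 * I2) := by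
      simp only [oe_mul]
      exact mul_le_mul_left (oe_le (by linarith)) _
    _ ≤ ENNReal.ofReal (Real.exp (e - Y - A)) * ENNReal.ofReal (Real.exp (e - Y - A0)) *
        (I * I0) := by
      rw [mul_assoc]
      gcongr
    _ = ENNReal.ofReal (Real.exp (e - Y - A)) * I *
        (ENNReal.ofReal (Real.exp (e - Y - A0)) * I0) := by ring
    _ ≤ T * T0 := by gcongr

theorem fin_arith {t θ a b x m : ℝ} (h8 : 8 * θ ≤ 1) (ha : 0 ≤ a) (hb : 0 ≤ b) (hm : 0 ≤ m) :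
    4 * ((a + b * x ^ 2) * m) + 48 * θ * a * m - (-t - 4 * (b * x ^ 2 * m / 2)) ≤
      t + 10 * (a + 2 * b * x ^ 2) * m := by
  have h1 : 0 ≤ b * x ^ 2 * m := by positivity
  have h2 := mul_le_mul_of_nonneg_right h8 (mul_nonneg ha hm)
  nlinarith

theorem wstep_of (hD : WDec) : WStep := by
  intro c
  obtain ⟨K, -, hK⟩ := rep c
  refine ⟨K, ?_⟩
  intro D R R' τ ρ κ ρ' h a1 hR a3 a4 a5 a6 a7 a8 a9 a10 p ε δ δ' hp b2 b3 b4 b5 b6 b7 b8 b9
    n c0 w w' t f f0 g1 g2 hn hw hc1 hc2 gi gi0 gi1 gi2 h4 W W0 W1 W2 hW hW0 hW1 hW2 s1 s2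
  obtain ⟨θ, e, h8, hθ, hrep⟩ := hK D R R' τ ρ κ ρ' h a1 hR a3 a4 a5 a6 a7 a8 a9 a10 p ε δ δ' hp
    b2 b3 b4 b5 b6 b7 b8 b9
  obtain ⟨hs, U, P, mU, mP, hU, lo, -⟩ := hrep n hn W hW
  obtain ⟨hs0, U0, P0, mU0, mP0, hU0, lo0, -⟩ := hrep n hn W0 hW0
  obtain ⟨hs1, U1, P1, mU1, mP1, hU1, -, up1⟩ := hrep n hn W1 hW1
  obtain ⟨hs2, U2, P2, mU2, mP2, hU2, -, up2⟩ := hrep n hn W2 hW2
  have key := hD D c R τ ρ κ θ h n p c0 (w / LL D.l + 1 + D.Rs R) w' hp (by omega) hc1 hc2 hθ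
    W W0 W1 W2 (by
      rintro V (rfl | rfl | rfl | rfl)
      exacts [⟨hW.1, hs⟩, ⟨hW0.1, hs0⟩, ⟨hW1.1, hs1⟩, ⟨hW2.1, hs2⟩]) s1 s2
    (ENNReal.ofReal (Real.exp (-t - 4 * (Real.exp (-(D.l : ℝ)) * D.ζ ^ 2 * n ^ 3 / 2))))
    (fun z => f (U z) * P z) (fun z => f0 (U0 z) * P0 z) (fun z => g1 (U1 z) * P1 z)
    (fun z => g2 (U2 z) * P2 z) ((gi.1.comp mU).mul mP) ((gi0.1.comp mU0).mul mP0)
    ((gi1.1.comp mU1).mul mP1) ((gi2.1.comp mU2).mul mP2) fun z z0 z1 z2 t1 t2 =>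
      four_pt (h4 _ _ _ _ (hU z).1 (hU0 z0).1 (hU1 z1).1 (hU2 z2).1
        (uc_slab h (by simp) le_rfl (by omega) s1 t1 (hU z).2.1 (hU1 z1).2.1)
        (uc_slab h (by simp [LL]) le_rfl (by omega) s2 t2 (hU z).2.1 (hU2 z2).2.1))
        (hU z).2.2.1 (hU0 z0).2.2.1 (hU1 z1).2.2.2 (hU2 z2).2.2.2
  exact four_end key (lo f gi) (lo0 f0 gi0) (up1 g1 gi1) (up2 g2 gi2)
    (fin_arith h8 (pow_nonneg (by norm_num) _) (Real.exp_pos _).le
      (pow_nonneg (Nat.cast_nonneg _) _))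

end Pool.Agent.Lib.MP_7f377f_mp.RG.D3.Hq
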