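import Pool.Agent.Lib.MP_7f377f_mp.HFin
import Pool.Agent.Lib.MP_7f377f_mp.HLevB
import Pool.Agent.Lib.MP_7f377f_mp.HStepB
import Pool.Agent.Lib.MP_7f377f_mp.HJoin

/-! Mixing of opposite slices. -/

namespace Pool.Agent.Lib.MP_7f377f_mp.Y6

open RG.D3

theorem mix_main : Hq.Mix := Hq.mix_of (Hq.wstep_of Hq.wdec_main) Hq.join_main

end Pool.Agent.Lib.MP_7f377f_mp.Y6
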