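import Pool.Agent.Lib.MP_7f377f_mp.A3PRec
import Pool.Agent.Lib.MP_7f377f_mp.HEnd

/-! The partition function of a long torus is comparable to a power of that of the cube. -/

noncomputable section

namespace Pool.Agent.Lib.MP_7f377f_mp.RG.D3.Pv

open Finset MeasureTheory Pool.Agent.Lib.MP_2d4879_an
open RGP (cv BM)

theorem sum_wpotN (β : ℝ) {n : St} (hn : ∀ i, 0 < n i) (w : Conf) :
    ∑ x ∈ RGP.box n, wpot β (sh x (RGP.pc n w)) = β * ∑ x ∈ RGP.box n, ∑ μ, ∑ ν,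
      if μ < ν then 2 * (hol Inv.inv (RGP.pc n w) x μ ν).q.re else 0 := by
  have : ∀ T, ∑ x ∈ RGP.box n, w0 (RGP.act T (RGP.iv T) (sh x (RGP.pc n w))) = ∑ x ∈ RGP.box n,
      ∑ μ, ∑ ν, if μ < ν then 2 * (hol Inv.inv (RGP.pc n w) x μ ν).q.re else 0 := fun T => by
    have e : ∀ x U, RGP.act T (RGP.iv T) (sh x U) = RGP.act T 0 (sh (RGP.iv T + x) (U : Conf)) :=
      fun x U => by
        rw [← act_T0, ← act_T0, RGP.act_act, RGP.act_act]
        simp
    simp only [w0, e]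
    rw [sum_comm, sum_comm (s := RGP.box n)]
    refine sum_congr rfl fun μ _ => ?_
    rw [sum_comm, sum_comm (s := RGP.box n)]
    refine sum_congr rfl fun ν _ => ?_
    split_ifs with h
    · simp only [hol_act (φ := fun g : S3 => g.q.re) Ms.re_conj RG.Pv.re_inv T, hol_sh, ← add_assoc]
      refine RGP.sum_per hn (f := fun x => 2 * (hol Inv.inv (RGP.pc n w) x μ ν).q.re)
        (fun x y H => ?_) _ _ (fun x hx y hy H => funext fun i => ?_) le_rfl
      · rw [← zero_add x, ← zero_add y, ← hol_sh, ← hol_sh, ← act_T0, ← act_T0, RGP.act_pc_congr H]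
      · have h1 := RGP.mem_box.1 hx i
        have h2 := RGP.mem_box.1 hy i
        exact RGP.eq_of_dvd (n := n i) (by simpa using H i) (by omega) (by omega)
    · rfl
  simp only [wpot, ← mul_sum]
  rw [sum_comm]
  simp only [this, sum_const, card_univ, Fintype.card_pi, Fintype.card_bool, prod_const,
    Fintype.card_fin, nsmul_eq_mul]
  push_cast
  ring

open Y6 Ch Fi in
theorem zz_tor (β : ℝ) (T n : ℕ) [NeZero n] (hT : 0 < T) :
    (RGP.ZZ haar (wpot β) ![(T : ℤ), n, n] fun _ => 1) =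
      tor (tr haar) (WW (n := n) β) 0 T fun _ => 1 := by
  have : (tr RG.haar).IsHaarMeasure := (inferInstance : RG.haar.IsHaarMeasure)
  have hn := NeZero.pos n
  have e : (![(T : ℤ), n, n] : St) = fun i : Fin 3 => ((![T, n, n] i : ℕ) : ℤ) :=
    funext fun i => by fin_cases i <;> rfl
  simp only [tor, wt_cyc, one_mul]
  rw [← int_per (tr haar) 0 ((cont_action ![T, n, n]).measurable.const_mul β).exp, e]
  simp only [RGP.ZZ, RGP.TI, RGP.BW, mul_one, act_T0]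
  refine congrArg _ (funext fun w => ?_)
  rw [sum_wpotN β (fun i => by fin_cases i <;> simpa) w]
  simp only [action, plaq_tc]
  rfl

/-- purity of the thermal state -/
theorem zz_pow {γ : ℝ} (hγ : 0 < γ) : ∃ C > (0 : ℝ), ∃ J0 : ℕ, ∀ J l, J0 ≤ J → Adm J l →
    ∀ m : ℕ, 0 < m →
    (RGP.ZZ haar (wpot (γ * (LL l * nn J))) (cv (LL l * nn J : ℕ)) fun _ => 1) ^ m ≤ C ^ m *
      RGP.ZZ haar (wpot (γ * (LL l * nn J))) (![(m : ℤ), 1, 1] * cv (LL l * nn J : ℕ)) fun _ => 1 := by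
  have : (Fi.tr RG.haar).IsHaarMeasure := (inferInstance : RG.haar.IsHaarMeasure)
  obtain ⟨Δ, -, C, C0, J0, H⟩ := Y6.vac_main Y6.mix_main (Fi.tr haar) hγ
  refine ⟨C, C0, J0, fun J l hJ hl m hm => ?_⟩
  obtain ⟨N, hN⟩ : ∃ N, N + 1 = LL l * 3 ^ J ^ 2 :=
    ⟨_, Nat.sub_add_cancel (Nat.mul_pos (LL_pos l) (by positivity))⟩
  obtain ⟨n, hn⟩ : ∃ n, n = LL l * nn J := ⟨_, rfl⟩
  have e : n = N + 1 + (N + 1) := by rw [hn, hN, nn]; ring
  have : NeZero n := ⟨by omega⟩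
  obtain ⟨a, r, v, V, -, hC⟩ := H J l hJ hl n N hn hN
  rw [← Nat.cast_mul, ← hn]
  have W := Y6.wt_WW (n := n) (Fi.tr haar) (γ * n)
  have e1 : (cv n : St) = ![(n : ℤ), n, n] := funext fun i => by fin_cases i <;> rfl
  have e2 : ![(m : ℤ), 1, 1] * ![(n : ℤ), n, n] = ![((m * n : ℕ) : ℤ), n, n] :=
    funext fun i => by fin_cases i <;> simp
  obtain ⟨k, hk⟩ : ∃ k, k + 1 = m * (N + 1) := ⟨_, Nat.sub_add_cancel (Nat.mul_pos hm N.succ_pos)⟩
  have e3 : m * n = k + 1 + (k + 1) := by rw [hk, e]; ring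
  rw [e1, e2, zz_tor _ _ _ (by omega), zz_tor _ _ _ (by omega), e3]
  have z : Ch.tor (Fi.tr haar) (Y6.WW (n := n) (γ * n)) 0 (N + 1 + (N + 1)) (fun _ => 1) ≤
      C * a ^ (2 * N + 2) := by
    rw [Ch.tor, W.int_tor (BM.const 1) fun _ _ _ => rfl]
    simpa only [one_mul, W.ker_wt, MP_2d4879_an.cv, sq, pw_symm W.gk W.symm N] using hC
  have z1 := Y6.vac_dom W V.one (BM.const 1) (a := 0) (N := k) (l := a)
    (fun _ => ⟨zero_le_one, le_rfl⟩) fun _ _ _ => rfl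
  rw [W.vac_one V, one_pow, le_div_iff₀ (pow_pos V.pos _), one_mul] at z1
  rw [← e] at z
  refine (pow_le_pow_left₀ (integral_nonneg fun w => mul_nonneg zero_le_one (W.wt_pos _ _ _).le)
    z m).trans ?_
  rw [mul_pow, ← pow_mul, show (2 * N + 2) * m = 2 * k + 2 by nlinarith]
  gcongr

end Pool.Agent.Lib.MP_7f377f_mp.RG.D3.Pv
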