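import Pool.Agent.Lib.MP_7f377f_mp.R3DetI
import Pool.Agent.Lib.MP_7f377f_mp.R3DetS

/-! The continuum limit of the deterministic block averages. -/

noncomputable section

namespace Pool.Agent.Lib.MP_7f377f_mp.RG.D3.Dt

open MeasureTheory D3.Pv M3 Filter Fi Topology BoundedContinuousFunction
open scoped Quaternion ENNReal

/-- the averaged field on the torus -/
def YY (j k l : ℕ) (U : Conf) : YD.Fld (2 * 3 ^ j ^ 2) := res _ (XX (j + k) l j U)

theorem cont_res (n : ℕ) : Continuous (res n : FH → YD.Fld n) :=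
  continuous_pi fun _ => continuous_apply _

theorem cont_YY (j k l : ℕ) : Continuous (YY j k l) := (cont_res _).comp (cont_XX ..)

theorem transfer {γ : ℝ} (hγ : 0 < γ) (j k l : ℕ) {φ : YD.Fld (2 * 3 ^ j ^ 2) → ℝ}
    (c : Continuous φ) : ∫ U, φ (YD.iter l k j fun e => U e)
      ∂@YD.wilson mS (tr haar) γ ((2 * l + 1) * (2 * 3 ^ (j + k) ^ 2)) _ =
      ∫ U, φ (YY j k l U) ∂ww γ (j + k) l := by
  have e1 : @YD.wilson mS (tr haar) γ ((2 * l + 1) * (2 * 3 ^ (j + k) ^ 2)) _ =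
      YM3.wilson (tr haar) γ ((2 * l + 1) * (2 * 3 ^ (j + k) ^ 2)) := by
    have : ∀ (U : YM3.Cfg ((2 * l + 1) * (2 * 3 ^ (j + k) ^ 2))) x i i',
        YD.plaq (fun e => (U e : ℍ)) x i i' = (YM3.plaq U x i i').1 := fun U x i i' => by
      have h := fun g : S3 => S3.q_inv g
      simp only [YD.plaq, YM3.plaq, ← show ∀ g : YM3.SU2, (g⁻¹).1 = star g.1 from h]
      rfl
    simp only [YD.wilson, YM3.wilson, this]
  have e2 : ww γ (j + k) l = wilson (γ * ((2 * l + 1) * (2 * 3 ^ (j + k) ^ 2) : ℕ))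
      ((2 * l + 1) * (2 * 3 ^ (j + k) ^ 2)) := by
    rw [ww, ← Nat.cast_mul]
    rfl
  have m : Measurable fun U => φ (YY j k l U) := (c.comp (cont_YY j k l)).measurable
  rw [e1, ← wilson_res γ hγ.le, e2, ← fix_wilson, integral_map meas_lf.aemeasurable
    m.aestronglyMeasurable, fix_wilson]
  refine integral_congr_ae (.of_forall fun U => congrArg φ ?_)
  rw [YY, XX, Nat.add_sub_cancel_left]
  exact iter_lift l k j fun e => U e

theorem adm_of {j k l : ℕ} (h5 : 3 ^ (2 * (j + k) + 1) ≤ 2 * l + 1)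
    (h6 : 2 * l + 1 ≤ 27 ^ (2 * (j + k) + 1)) : Adm (j + k) l :=
  ⟨by rwa [M3.LL_ll], by rwa [M3.LL_ll, ← pow_mul, mul_comm _ 3, pow_mul]⟩

theorem cauchy2 (hp : En.Pair) (hb : En.Bad) {γ : ℝ} (hγ : 0 < γ) (j : ℕ)
    (F : YD.Fld (2 * 3 ^ j ^ 2) →ᵇ ℝ) {η : ℝ} (hη : 0 < η) : ∃ k0, ∀ k l k' l', k0 ≤ k → k0 ≤ k' →
      Adm (j + k) l → Adm (j + k') l' →
      ∫ U, F (YY j k l U) ∂ww γ (j + k) l ≤ ∫ U, F (YY j k' l' U) ∂ww γ (j + k') l' + η := by
  have M0 : 0 < 2 * ‖F‖ + 1 := by positivity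
  have b := fun X => abs_le.1 (F.norm_coe_le_norm X)
  obtain ⟨J0, h⟩ := cauchy1 hp hb hγ j (F := fun X => (F (res _ X) + ‖F‖) / (2 * ‖F‖ + 1))
    (((F.continuous.comp (cont_res _)).add continuous_const).div_const _)
    (fun X => div_nonneg (by linarith [(b (res _ X)).1]) M0.le)
    (fun X => (div_le_one M0).2 (by linarith [(b (res _ X)).2])) (div_pos hη M0)
  refine ⟨J0, fun k l k' l' h1 h2 h3 h4 => ?_⟩
  have := h _ l _ l' (by omega) (by omega) h3 h4
  have i : ∀ k l, ∫ U, (F (res _ (XX (j + k) l j U)) + ‖F‖) / (2 * ‖F‖ + 1) ∂ww γ (j + k) l =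
      (∫ U, F (YY j k l U) ∂ww γ (j + k) l + ‖F‖) / (2 * ‖F‖ + 1) := fun k l => by
    have := ww_prob hγ (j + k) l
    have m : Continuous fun U => F (YY j k l U) := F.continuous.comp (cont_YY ..)
    rw [integral_div]
    erw [integral_add (.of_bound m.aestronglyMeasurable ‖F‖ (.of_forall fun _ =>
      F.norm_coe_le_norm _)) (integrable_const _)]
    simp
  rw [i, i, ← add_div, div_le_div_iff_of_pos_right M0] at this
  linarith

theorem norm_YY (j k l : ℕ) (U : Conf) : YY j k l U ∈ Metric.closedBall 0 1 := by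
  rw [mem_closedBall_zero_iff, pi_norm_le_iff_of_nonneg zero_le_one]
  intro e
  rw [YY, XX, Nat.add_sub_cancel_left]
  cases k <;> exact norm_nrm _

theorem ind_ge {α : Type} {s : Set α} {x : α} (h : x ∈ s) : (1 : ℝ≥0∞) ≤ s.indicator 1 x :=
  (Set.indicator_of_mem h 1).ge

variable [MeasurableSpace ℍ] [BorelSpace ℍ]

/-- the law of the averaged field -/
def pm {γ : ℝ} (hγ : 0 < γ) (j k : ℕ) : ProbabilityMeasure (YD.Fld (2 * 3 ^ j ^ 2)) :=
  ⟨(ww γ (j + k) (ll (j + k))).map (YY j k (ll (j + k))),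
    have := ww_prob hγ (j + k) (ll (j + k))
    Measure.isProbabilityMeasure_map (cont_YY ..).measurable.aemeasurable⟩

theorem int_pm {γ : ℝ} (hγ : 0 < γ) (j k : ℕ) {φ : YD.Fld (2 * 3 ^ j ^ 2) → ℝ} (c : Continuous φ) :
    ∫ X, φ X ∂pm hγ j k = ∫ U, φ (YY j k (ll (j + k)) U) ∂ww γ (j + k) (ll (j + k)) :=
  integral_map (cont_YY ..).measurable.aemeasurable c.aestronglyMeasurable

theorem exists_lim (hp : En.Pair) (hb : En.Bad) {γ : ℝ} (hγ : 0 < γ) (j : ℕ) :
    ∃ ν : ProbabilityMeasure (YD.Fld (2 * 3 ^ j ^ 2)), Tendsto (pm hγ j) atTop (𝓝 ν) ∧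
      ∀ (F : YD.Fld (2 * 3 ^ j ^ 2) →ᵇ ℝ), ∀ η > 0, ∃ k0, ∀ k ≥ k0, ∀ l, Adm (j + k) l →
        |∫ U, F (YY j k l U) ∂ww γ (j + k) l - ∫ X, F X ∂ν| ≤ η := by
  obtain ⟨ν, -, hν⟩ := (isCompact_setOfPred_probabilityMeasure_mass_eq_compl_isCompact_le
    (E := YD.Fld (2 * 3 ^ j ^ 2)) (u := fun _ => 0) (K := fun _ => Metric.closedBall 0 1)
    tendsto_const_nhds (fun _ => isCompact_closedBall _ _) (.inl inferInstance)).exists_mapClusterPt
    (f := atTop) (u := pm hγ j) (by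
      refine tendsto_principal.2 (.of_forall fun k _ => le_of_eq ?_)
      rw [ProbabilityMeasure.null_iff_toMeasure_null]
      refine (Measure.map_apply (cont_YY ..).measurable
        Metric.isClosed_closedBall.measurableSet.compl).trans ?_
      rw [show YY j k (ll (j + k)) ⁻¹' (Metric.closedBall 0 1)ᶜ = ∅ from
        Set.eq_empty_of_forall_notMem fun U h => h (norm_YY _ _ _ U), measure_empty])
  have key : ∀ (F : YD.Fld (2 * 3 ^ j ^ 2) →ᵇ ℝ), ∀ η > 0, ∃ k0, ∀ k ≥ k0, ∀ l, Adm (j + k) l →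
      |∫ U, F (YY j k l U) ∂ww γ (j + k) l - ∫ X, F X ∂ν| ≤ η := fun F η hη => by
    obtain ⟨k0, h⟩ := cauchy2 hp hb hγ j F hη
    refine ⟨k0, fun k hk l hl => ?_⟩
    have := (isClosed_le ((continuous_const (y := ∫ U, F (YY j k l U) ∂ww γ (j + k) l)).sub
      (ProbabilityMeasure.continuous_integral_boundedContinuousFunction F)).abs
      (continuous_const (y := η))).mem_of_mapClusterPt hν
      ((eventually_ge_atTop k0).mono fun k' hk' => by
        have h1 := h k l k' _ hk hk' hl (En.adm _)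
        have h2 := h k' _ k l hk' hk (En.adm _) hl
        rw [← int_pm hγ j k' F.continuous] at h1 h2
        exact abs_sub_le_iff.2 ⟨sub_le_iff_le_add'.2 h1, sub_le_iff_le_add'.2 h2⟩)
    exact this
  refine ⟨ν, ProbabilityMeasure.tendsto_iff_forall_integral_tendsto.2 fun F =>
    Metric.tendsto_atTop.2 fun η hη => ?_, key⟩
  obtain ⟨k0, h⟩ := key F _ (half_pos hη)
  exact ⟨k0, fun k hk => by
    rw [int_pm hγ j k F.continuous]
    exact (h k hk _ (En.adm _)).trans_lt (half_lt_self hη)⟩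

theorem closed_ge {γ : ℝ} {hγ : 0 < γ} {j : ℕ} {ν : ProbabilityMeasure (YD.Fld (2 * 3 ^ j ^ 2))}
    (h : Tendsto (pm hγ j) atTop (𝓝 ν)) {C : Set (YD.Fld (2 * 3 ^ j ^ 2))} (hC : IsClosed C)
    {p η : ℝ} (hη : 0 ≤ η) (H : ∀ k, ENNReal.ofReal p ≤ ∫⁻ U, C.indicator 1 (res _
      (dnH j (j + k - j) (blkH (ll (j + k)) (qF U)))) ∂ww γ (j + k) (ll (j + k)) + ENNReal.ofReal η) :
    p - η ≤ (ν : Measure _).real C := by
  refine (ENNReal.ofReal_le_iff_le_toReal (measure_ne_top _ _)).1 (le_trans ?_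
    (ProbabilityMeasure.limsup_measure_closed_le_of_tendsto h hC))
  refine le_limsup_of_frequently_le (.of_forall fun k => ?_)
  rw [ENNReal.ofReal_sub _ hη, tsub_le_iff_right]
  refine (H k).trans_eq (congrArg (· + _) ?_)
  exact (lintegral_map (measurable_one.indicator hC.measurableSet)
    (cont_YY j k _).measurable).symm.trans (lintegral_indicator_one hC.measurableSet)

omit [MeasurableSpace ℍ] [BorelSpace ℍ] in
theorem cont_plaq {n : ℕ} (x : Fin 3 → ZMod n) (i k : Fin 3) :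
    Continuous fun X : YD.Fld n => ‖YD.plaq X x i k - 1‖ := by
  unfold YD.plaq
  fun_prop

omit [MeasurableSpace ℍ] [BorelSpace ℍ] in
theorem plaq_res {n : ℕ} [NeZero n] {X : Conf} (h : Per n X) (x : St) (i k : Fin 3) :
    YD.plaq (res n (qF X)) (cst n x) i k = (hol Inv.inv X x i k).q := by
  rw [← hol_liftH, lift_res_per (X := qF X) fun μ => congrArg qF (h μ), hol_q]

theorem regular (hb : En.Bad) {γ : ℝ} (hγ : 0 < γ)
    {ν : ∀ j, ProbabilityMeasure (YD.Fld (2 * 3 ^ j ^ 2))}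
    (h : ∀ j, Tendsto (pm hγ j) atTop (𝓝 (ν j))) {α : ℝ} (hα : α < 2⁻¹) :
    Tendsto (fun j => (ν j).toMeasure.real {X | (∀ e, ‖X e‖ = 1) ∧
      ∀ x i k, ‖YD.plaq X x i k - 1‖ ≤ (2 * 3 ^ j ^ 2 : ℝ) ^ (-α)}) atTop (𝓝 1) := by
  refine tendsto_order.2 ⟨fun b h0 => ?_, fun b h0 => .of_forall fun j =>
    measureReal_le_one.trans_lt h0⟩
  obtain ⟨a, hc⟩ := core hb
  have hη : 0 < (1 - b) / 2 := by linarith
  have g0 : 0 < min γ 1 := lt_min hγ one_pos
  filter_upwards [hc γ hγ _ hη, En.ep_le g0 hα (a + 2)] with j h1 h2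
  have hC : IsClosed {X : YD.Fld (2 * 3 ^ j ^ 2) | (∀ e, ‖X e‖ = 1) ∧
      ∀ x i k, ‖YD.plaq X x i k - 1‖ ≤ (2 * 3 ^ j ^ 2 : ℝ) ^ (-α)} := by
    simp only [Set.ofPred_and, Set.ofPred_forall]
    exact (isClosed_iInter fun e => isClosed_eq (continuous_apply e).norm continuous_const).inter
      (isClosed_iInter fun x => isClosed_iInter fun i => isClosed_iInter fun k =>
        isClosed_le (cont_plaq x i k) continuous_const)
  have h3 : eps γ a j + 8 / √(nn j) ≤ (2 * 3 ^ j ^ 2 : ℝ) ^ (-α) := by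
    refine le_trans ?_ (h2.trans_eq (by simp [nn]))
    have L3 : (3 : ℝ) ≤ LL (ll j) := by
      rw [LL_ll_real]
      nlinarith [one_le_pow₀ (n := j) (show (1 : ℝ) ≤ 3 by norm_num)]
    have L1 : (1 : ℝ) ≤ LL (ll j) ^ a := one_le_pow₀ (by linarith)
    have := nn_pos' j
    calc _ ≤ LL (ll j) ^ a / √(min γ 1 * nn j) + 8 / √(min γ 1 * nn j) := by
          unfold eps
          gcongr
          · exact min_le_left _ _
          · exact mul_le_of_le_one_left this.le (min_le_right _ _)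
      _ ≤ _ := by
          rw [← add_div, pow_add]
          gcongr
          nlinarith [mul_le_mul_of_nonneg_left (show (9 : ℝ) ≤ LL (ll j) ^ 2 by nlinarith)
            (zero_le_one.trans L1)]
  refine lt_of_lt_of_le (by linarith) (closed_ge (h j) hC (p := 1) hη.le fun k => ?_)
  have := law_prob hγ (j + k) (ll (j + k)) (j + k - j)
  refine le_trans (by rw [lintegral_one, measure_univ, ENNReal.ofReal_one])
    (h1 j le_rfl (j + k) _ (by omega) (En.adm _) (fun _ _ => 1)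
    (fun X => Set.indicator _ 1 (res _ X)) (fun _ => measurable_const) (fun _ _ => le_rfl)
    (fun _ _ _ _ _ _ _ => le_rfl) (fun X p c => ?_)
    ((measurable_one.indicator hC.measurableSet).comp (cont_YY j k _).measurable))
  refine ind_ge ⟨fun e => S3.norm_q _, fun x i k => ?_⟩
  rw [← cst_vl x]
  exact (congrArg (‖· - 1‖) (plaq_res p _ i k)).trans_le ((c _ i k).trans h3)

theorem nontriv (hb : En.Bad) (hf : En.Fluct) {γ : ℝ} (hγ : 0 < γ)
    {ν : ∀ j, ProbabilityMeasure (YD.Fld (2 * 3 ^ j ^ 2))}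
    (h : ∀ j, Tendsto (pm hγ j) atTop (𝓝 (ν j))) : ∃ c > 0, ∀ᶠ j in atTop,
      3⁻¹ ≤ (ν j).toMeasure.real {X | c / √(2 * 3 ^ j ^ 2) ≤ ‖YD.plaq X 0 0 1 - 1‖} := by
  obtain ⟨a, hc⟩ := core hb
  obtain ⟨c, c0, hf⟩ := hf
  obtain ⟨j0, hf⟩ := hf γ hγ
  have hη : (0 : ℝ) < 6⁻¹ := by norm_num
  have c1 : 0 < c / √γ / 2 := by positivity
  refine ⟨_, c1, ?_⟩
  filter_upwards [hc γ hγ _ hη, eventually_ge_atTop j0, (tendsto_pow_atTop_nhds_zero_of_lt_one
    (r := (2⁻¹ : ℝ)) (by norm_num) (by norm_num)).eventually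
      (ge_mem_nhds (show 0 < c / √γ / 16 by positivity))] with j h1 hj h2
  have hC : IsClosed {X : YD.Fld (2 * 3 ^ j ^ 2) |
      c / √γ / 2 / √(2 * 3 ^ j ^ 2) ≤ ‖YD.plaq X 0 0 1 - 1‖} :=
    isClosed_le continuous_const (cont_plaq ..)
  refine le_trans (by norm_num) (closed_ge (h j) hC (p := 2⁻¹) hη.le fun k => ?_)
  have := law_prob hγ (j + k) (ll (j + k)) (j + k - j)
  have ms : ∀ t, MeasurableSet {X : Conf | t < ‖(hol Inv.inv X 0 0 1).q - 1‖} := fun t =>
    measurableSet_lt measurable_const (Ms.meas_nsub.comp (M3.cont_hol 0 0 1).measurable)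
  have s0 : (0 : ℝ) < √(nn j) := Real.sqrt_pos.2 (nn_pos' j)
  refine le_trans ?_ (h1 j le_rfl (j + k) _ (by omega) (En.adm _)
    (fun k' => {X : Conf | (c / √γ - 8 * (2⁻¹ ^ j - 2⁻¹ ^ k')) / √(nn j) <
      ‖(hol Inv.inv X 0 0 1).q - 1‖}.indicator 1)
    (fun X => Set.indicator _ 1 (res _ X)) (fun _ => measurable_one.indicator (ms _))
    (fun _ _ => Set.indicator_le_self _ _ _)
    (fun k' _ g u X _ n => Set.indicator_apply_le' (fun hX => ind_ge ?_) fun _ => zero_le)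
    (fun X p _ => Set.indicator_apply_le' (fun hX => ind_ge ?_) fun _ => zero_le)
    ((measurable_one.indicator hC.measurableSet).comp (cont_YY j k _).measurable))
  · have := hf j hj (j + k) _ (by omega) (En.adm _)
    simp only [Nat.sub_self, dn, sub_self, mul_zero, sub_zero]
    rw [lintegral_indicator_one (ms _), ENNReal.ofReal_le_iff_le_toReal (measure_ne_top _ _),
      div_div, ← Real.sqrt_mul hγ.le]
    have e := probReal_compl_eq_one_sub (μ := law γ (j + k) (ll (j + k)) (j + k - j))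
      (En.meas_pl 0 0 1 (c / √(γ * nn j)))
    simp only [Set.compl_ofPred, not_le] at e
    exact le_of_le_of_eq (by linarith) e.symm
  · rw [Set.mem_ofPred_eq, M3.hol_gauge, S3.norm_conj_sub] at hX
    have k1 : ∀ e, ‖((u * X) e).q - (X e).q‖ ≤ 2⁻¹ ^ k' / √(nn j) := fun e => by
      rw [S3.norm_sub, Pi.mul_apply, mul_inv_cancel_right]
      exact n e
    have k2 := norm_sub_le_norm_sub_add_norm_sub (hol Inv.inv (u * X) 0 0 1).q
      (hol Inv.inv X 0 0 1).q 1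
    have k3 : ‖(hol Inv.inv (u * X) 0 0 1).q - (hol Inv.inv X 0 0 1).q‖ ≤
        4 * (2⁻¹ ^ k' / √(nn j)) := by
      refine (JS.q_mul_sub _ _ _ _).trans ((add_le_add ((JS.q_mul_sub _ _ _ _).trans (add_le_add
        (JS.q_mul_sub _ _ _ _) le_rfl)) le_rfl).trans ?_)
      rw [JS.q_inv_sub, JS.q_inv_sub]
      linarith [k1 (0, 0), k1 (0 + un 0, 1), k1 (0 + un 1, 0), k1 (0, 1)]
    rw [Set.mem_ofPred_eq]
    refine lt_of_le_of_lt (le_of_eq ?_) (show (c / √γ - 8 * (2⁻¹ ^ j - 2⁻¹ ^ k')) / √(nn j) -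
      4 * (2⁻¹ ^ k' / √(nn j)) < _ by linarith)
    ring
  · rw [Set.mem_ofPred_eq] at hX ⊢
    rw [← cst_zero]
    refine le_trans ?_ (hX.le.trans_eq (congrArg (‖· - 1‖) (plaq_res p 0 0 1)).symm)
    rw [show (2 * 3 ^ j ^ 2 : ℝ) = nn j by simp [nn]]
    gcongr
    linarith [show (0 : ℝ) < 2⁻¹ ^ (j + k + 1) by positivity]

omit [MeasurableSpace ℍ] [BorelSpace ℍ] in
theorem map_eq {X Y : Type} [TopologicalSpace X] [TopologicalSpace Y] [MeasurableSpace X]
    [MeasurableSpace Y] [BorelSpace X] [BorelSpace Y] [HasOuterApproxClosed Y]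
    {μ : ℕ → ProbabilityMeasure X} {μ' : ℕ → ProbabilityMeasure Y} {ν : ProbabilityMeasure X}
    {ν' : ProbabilityMeasure Y} (h : Tendsto μ atTop (𝓝 ν)) (h' : Tendsto μ' atTop (𝓝 ν'))
    {T : X → Y} (c : Continuous T)
    (e : ∀ (F : Y →ᵇ ℝ) k, ∫ x, F (T x) ∂μ k = ∫ y, F y ∂μ' k) : (ν : Measure X).map T = ν' := by
  refine ext_of_forall_integral_eq_of_IsFiniteMeasure fun F => ?_
  rw [integral_map c.measurable.aemeasurable F.continuous.aestronglyMeasurable]
  exact tendsto_nhds_unique (ProbabilityMeasure.tendsto_iff_forall_integral_tendsto.1 h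
    (F.compContinuous ⟨T, c⟩)) ((ProbabilityMeasure.tendsto_iff_forall_integral_tendsto.1 h' F).congr
      fun k => (e F k).symm)

omit [MeasurableSpace ℍ] [BorelSpace ℍ] in
theorem cont_block (l m n : ℕ) : Continuous (YD.block l : YD.Fld m → YD.Fld n) := by
  rw [← funext (blkH_lift l)]
  exact (cont_res _).comp ((cont_blkH l).comp (continuous_pi fun _ => continuous_apply _))

omit [MeasurableSpace ℍ] [BorelSpace ℍ] in
theorem cont_refl {n : ℕ} (k : Fin 3) : Continuous (YD.refl k : YD.Fld n → YD.Fld n) :=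
  continuous_pi fun b => by
    unfold YD.refl
    split_ifs
    exacts [(continuous_apply _).star, continuous_apply _]

open YD in
theorem main_of (hp : En.Pair) (hb : En.Bad) (hf : En.Fluct) [m : MeasurableSpace SU2]
    [BorelSpace SU2] (h : Measure SU2) [h.IsHaarMeasure] [IsProbabilityMeasure h] (γ : ℝ)
    (hγ : 0 < γ) : ∃ ν : ∀ j : ℕ, Measure (YD.Fld (2 * 3 ^ j ^ 2)),
      (∀ j, IsProbabilityMeasure (ν j) ∧ ν j = (ν (j + 1)).map (block (3 ^ (2 * j + 1) / 2))) ∧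
      (∀ j (F : YD.Fld (2 * 3 ^ j ^ 2) →ᵇ ℝ), ∀ η > 0, ∃ k0, ∀ k ≥ k0, ∀ l : ℕ,
        3 ^ (2 * (j + k) + 1) ≤ 2 * l + 1 → 2 * l + 1 ≤ 27 ^ (2 * (j + k) + 1) →
          |∫ U, F (iter l k j fun e => U e) ∂YD.wilson h γ ((2 * l + 1) * (2 * 3 ^ (j + k) ^ 2)) -
            ∫ X, F X ∂ν j| ≤ η) ∧
      (∀ j, (∀ a, (ν j).map (fun X e => X (e.1 + a, e.2)) = ν j) ∧
        (∀ g : _ → SU2, (ν j).map
          (fun X e => g e.1 * X e * star (g (e.1 + Pi.single e.2 1) : ℍ)) = ν j) ∧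
        ∀ k, (ν j).map (YD.refl k) = ν j ∧ ∀ F : YD.Fld (2 * 3 ^ j ^ 2) →ᵇ ℝ,
          DependsOn F {e | 1 ≤ (e.1 k).val ∧ (e.1 k).val + 1 < 3 ^ j ^ 2} →
            0 ≤ ∫ X, F X * F (YD.refl k X) ∂ν j) ∧
      (∀ α < (2⁻¹ : ℝ), Tendsto (fun j => (ν j).real {X | (∀ e, ‖X e‖ = 1) ∧
        ∀ x i k, ‖plaq X x i k - 1‖ ≤ (2 * 3 ^ j ^ 2 : ℝ) ^ (-α)}) atTop (𝓝 1)) ∧
      ∃ c > 0, ∀ᶠ j in atTop,
        3⁻¹ ≤ (ν j).real {X | c / √(2 * 3 ^ j ^ 2) ≤ ‖plaq X 0 0 1 - 1‖} := by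
  obtain rfl : m = mS := BorelSpace.measurable_eq
  have : (tr haar).IsHaarMeasure := (inferInstance : haar.IsHaarMeasure)
  obtain rfl := Measure.isHaarMeasure_eq_of_isProbabilityMeasure h (tr haar)
  choose ν h1 h2 using exists_lim hp hb hγ
  have tp : ∀ j k {φ : YD.Fld (2 * 3 ^ j ^ 2) → ℝ}, Continuous φ → ∫ X, φ X ∂pm hγ j k =
      ∫ U, φ (iter (ll (j + k)) k j fun e => U e) ∂@YD.wilson mS (tr haar) γ
        ((2 * ll (j + k) + 1) * (2 * 3 ^ (j + k) ^ 2)) _ :=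
    fun j k φ c => (int_pm hγ j k c).trans (transfer hγ j k _ c).symm
  refine ⟨fun j => ν j, fun j => ⟨inferInstance, ?_⟩, fun j F η hη => ?_, fun j =>
    ⟨fun a => ?_, fun g => ?_, fun k => ⟨?_, fun F hF => ?_⟩⟩, fun α hα => regular hb hγ h1 hα,
    nontriv hb hf hγ h1⟩
  · refine (map_eq (h1 (j + 1)) ((h1 j).comp (tendsto_add_atTop_nat 1)) (cont_block ..)
      fun F k => ?_).symm
    rw [int_pm hγ _ _ (φ := fun X => F (block _ X)) (F.continuous.comp (cont_block ..)),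
      Function.comp, int_pm hγ _ _ F.continuous, show j + (k + 1) = j + 1 + k by ring]
    have e : ww γ (j + 1 + k) (ll (j + 1 + k)) = (ww γ (j + 1 + k) (ll (j + 1 + k))).map
        (per (LL (ll (j + 1 + k)) * nn (j + 1 + k))) := by
      rw [ww, wilson, lawOf, Measure.map_map (En.meas_per _) (En.meas_per _)]
      congr 1
      exact funext fun U => (per_self (per_per _ U)).symm
    have c1 : Continuous fun U => F (block (3 ^ (2 * j + 1) / 2) (YY (j + 1) k (ll (j + 1 + k)) U)) :=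
      F.continuous.comp ((cont_block ..).comp (cont_YY ..))
    have c2 : Continuous fun U => F (YY j (k + 1) (ll (j + 1 + k)) U) :=
      F.continuous.comp (cont_YY ..)
    rw [e, integral_map (En.meas_per _).aemeasurable c1.measurable.aestronglyMeasurable,
      integral_map (En.meas_per _).aemeasurable c2.measurable.aestronglyMeasurable]
    refine integral_congr_ae (.of_forall fun U => congrArg F ?_)
    simp only [YY, XX, Nat.add_sub_cancel_left]
    refine (blkH_lift _ _).symm.trans ?_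
    exact congrArg (fun X => res (nn j) (blkH (ll j) X)) (lift_res_per (dnH_per (blkH_per
      fun μ => congrArg qF (per_per _ U μ))))
  · obtain ⟨k0, hk⟩ := h2 j F η hη
    exact ⟨k0, fun k h3 l h5 h6 => by
      rw [transfer hγ j k l F.continuous]
      exact hk k h3 l (adm_of h5 h6)⟩
  · have c : Continuous fun (X : YD.Fld (2 * 3 ^ j ^ 2)) (e : _ × Fin 3) => X (e.1 + a, e.2) :=
      continuous_pi fun _ => continuous_apply _
    exact map_eq (h1 j) (h1 j) c fun F k => (tp j k (F.continuous.comp c)).trans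
      ((Ds.sym_shift (tr haar) hγ _ k j F a).trans (tp j k F.continuous).symm)
  · have c : Continuous fun (X : YD.Fld (2 * 3 ^ j ^ 2)) (e : _ × Fin 3) =>
        g e.1 * X e * star (g (e.1 + Pi.single e.2 1) : ℍ) := by fun_prop
    exact map_eq (h1 j) (h1 j) c fun F k => (tp j k (F.continuous.comp c)).trans
      ((Ds.sym_gauge (tr haar) hγ _ k j F g).trans (tp j k F.continuous).symm)
  · exact map_eq (h1 j) (h1 j) (cont_refl k) fun F i => (tp j i (F.continuous.comp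
      (cont_refl k))).trans ((Ds.sym_refl (tr haar) hγ _ i j F k).trans (tp j i F.continuous).symm)
  · refine ge_of_tendsto' (ProbabilityMeasure.tendsto_iff_forall_integral_tendsto.1 (h1 j)
      (F * F.compContinuous ⟨YD.refl k, cont_refl k⟩)) fun i => ?_
    exact (Ds.refl_pos (tr haar) hγ _ i j F k hF).trans_eq
      (tp j i (F.continuous.mul (F.continuous.comp (cont_refl k)))).symm

end Pool.Agent.Lib.MP_7f377f_mp.RG.D3.Dt
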