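import Mathlib

/-! Block averages of `SU(2)` lattice gauge fields on `ℤ ^ 3`; the axis `0` is the time axis. -/

noncomputable section

namespace Pool.Agent.Lib.MP_7f377f_mp.YC

open MeasureTheory Finset
open scoped Quaternion

/-- the group `SU(2)` of unit quaternions -/
abbrev SU2 : Type := Metric.sphere (0 : ℍ) 1

/-- the links of the lattice: a site and a direction -/
abbrev Link : Type := (Fin 3 → ℤ) × Fin 3

/-- quaternion valued link fields -/
abbrev Fld : Type := Link → ℍ

/-- holonomy around a plaquette -/
def plaq (U : Fld) (x : Fin 3 → ℤ) (i j : Fin 3) : ℍ :=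
  U (x, i) * U (x + Pi.single i 1, j) * star (U (x + Pi.single j 1, i)) * star (U (x, j))

/-- the field with periods `N i` which agrees with `U` on the box `0 ≤ x i < N i` -/
def per (N : Fin 3 → ℕ) (U : Link → SU2) : Link → SU2 := fun e => U (fun i => e.1 i % N i, e.2)

/-- sum of the traces of the plaquettes based in the box -/
def action (N : Fin 3 → ℕ) (U : Link → SU2) : ℝ :=
  ∑ x ∈ Fintype.piFinset fun i => Ico (0 : ℤ) (N i), ∑ i, ∑ j,
    if i < j then 2 * (plaq (fun e => U e) x i j).re else 0

/-- the Wilson measure of the torus with sides `N i`, as a measure on periodic fields -/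
def wilson [MeasurableSpace SU2] (h : Measure SU2) [IsProbabilityMeasure h] (β : ℝ)
    (N : Fin 3 → ℕ) : Measure (Link → SU2) :=
  ((Measure.infinitePi fun _ => h).tilted fun U => β * action N (per N U)).map (per N)

/-- parallel transport along the straight line from `x` to `x + k e_i` -/
def line (U : Fld) (x : Fin 3 → ℤ) (i : Fin 3) : ℤ → ℍ
  | .ofNat k => ((List.range k).map fun s : ℕ => U (x + Pi.single i (s : ℤ), i)).prod
  | .negSucc k =>
    ((List.range (k + 1)).map fun s : ℕ => star (U (x - Pi.single i (s + 1 : ℤ), i))).prod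

/-- parallel transport from `x` to `x + t`, in the directions `0`, `1`, `2` successively -/
def comb (U : Fld) (x t : Fin 3 → ℤ) : ℍ :=
  line U x 0 (t 0) * line U (x + Pi.single 0 (t 0)) 1 (t 1) *
    line U (x + Pi.single 0 (t 0) + Pi.single 1 (t 1)) 2 (t 2)

/-- mean of the transports from `x` to `x + (2 l + 1) e_i` through the points of the cube of
radius `l` around `x` -/
def avg (l : ℕ) (U : Fld) (x : Fin 3 → ℤ) (i : Fin 3) : ℍ :=
  ((2 * l + 1 : ℝ) ^ 3)⁻¹ • ∑ t ∈ Fintype.piFinset fun _ : Fin 3 => Icc (-(l : ℤ)) l,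
    comb U x t * line U (x + t) i (2 * l + 1) * star (comb U (x + Pi.single i (2 * l + 1 : ℤ)) t)

/-- radial retraction: normalises the quaternions of norm at least one half -/
def nrm (q : ℍ) : ℍ := (max ‖q‖ 2⁻¹)⁻¹ • q

/-- the block averaged field, for blocks of side `2 l + 1` -/
def block (l : ℕ) (U : Fld) : Fld := fun b => nrm (avg l U ((2 * l + 1 : ℤ) • b.1) b.2)

/-- a first averaging with blocks of side `2 l + 1` followed by `k` averagings down to level `j` -/
def iter (l : ℕ) : (k j : ℕ) → Fld → Fld
  | 0, _ => block l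
  | k + 1, j => block (3 ^ (2 * j + 1) / 2) ∘ iter l k (j + 1)

/-- the number of sites per unit length at level `j` -/
def side (j : ℕ) : ℕ := 2 * 3 ^ j ^ 2

/-- translation of a link field -/
def shift (a : Fin 3 → ℤ) (U : Fld) : Fld := fun b => U (b.1 + a, b.2)

/-- gauge transformation of a link field -/
def gauge (g : (Fin 3 → ℤ) → SU2) (U : Fld) : Fld := fun b =>
  g b.1 * U b * star (g (b.1 + Pi.single b.2 1) : ℍ)

/-- reflection of the axis `k` -/
def refl (k : Fin 3) (U : Fld) : Fld := fun b =>
  if b.2 = k then star (U (Function.update b.1 k (-b.1 k - 1), k))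
  else U (Function.update b.1 k (-b.1 k), b.2)

/-- expectation of a function of the field averaged down to level `j`, for the Wilson measure with
coupling `γ n` on the torus with sides `T`, `n`, `n`, where `n = (2 l + 1) side (j + k)` -/
def mean [MeasurableSpace SU2] (h : Measure SU2) [IsProbabilityMeasure h] (γ : ℝ) (T l k j : ℕ)
    (F : Fld → ℝ) : ℝ :=
  ∫ U, F (iter l k j fun b => U b) ∂wilson h (γ * ((2 * l + 1) * side (j + k) : ℕ))
    ![T, (2 * l + 1) * side (j + k), (2 * l + 1) * side (j + k)]

end Pool.Agent.Lib.MP_7f377f_mp.YC
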