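import Pool.Agent.Lib.MP_7f377f_mp.A3Cvg
import Pool.Agent.Lib.MP_7f377f_mp.A3Non
import Pool.Agent.Lib.MP_7f377f_mp.YMCDefs
import Pool.Agent.Lib.MP_7f377f_mp.R3DetZ

/-! Regularity and size of the fluctuations of the averaged field on long tori. -/

noncomputable section

namespace Pool.Agent.Lib.MP_7f377f_mp.RG.D3.An

open MeasureTheory Filter Dt Fi Ds D3.Pv
open scoped Quaternion ENNReal

theorem dep_XX' {J j : ℕ} (hJ : j ≤ J) (l k : ℕ) {α : Type} {F : FH → α}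
    (hF : ∀ X X', Wd (2 * k + 1 : ℕ) X X' → F X = F X') : ∃ w : ℕ,
      (2 * w + 1) * nn j = (2 * k + 1) * (LL l * nn J) ∧ DependsOn (fun U : Conf => F (XX J l j U))
        {e | -(w : ℤ) ≤ e.1 0 ∧ (e.1 + Pi.single e.2 1 : Fin 3 → ℤ) 0 ≤ -(w : ℤ) + (2 * w : ℕ)} := by
  obtain ⟨q, h1, h2⟩ := wd_dnH (J - j) j
  rw [show j + (J - j) = J by omega] at h1
  refine ⟨2 * l * (2 * q * k + q + k) + l + (2 * q * k + q + k), ?_, fun U U' h => hF _ _ (h2 _ _ _ ?_)⟩
  · rw [h1, LL]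
    ring
  · have := Wd.blkH (l := l) (k := 2 * q * k + q + k) (X := qF U) (X' := qF U') fun e a1 a2 =>
      congrArg S3.q (h e (by
        rw [LL_cast] at a1 a2
        change _ ∧ e.1 0 + un e.2 0 ≤ _
        push_cast at a1 a2 ⊢
        constructor <;> nlinarith))
    convert this using 1
    push_cast
    ring

/-- transfer of a lower bound on the probability of a local event to all long tori -/
theorem ge_T {γ : ℝ} (hγ : 0 < γ) (κ : ℕ) {η : ℝ} (hη : 0 < η) : ∃ m J0 : ℕ, ∀ J l j k T : ℕ,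
    J0 ≤ J → j ≤ J → Adm J l → 2 * k + 1 ≤ κ * nn j → (m + 1) * (LL l * nn J) ≤ T →
    ∀ A : Set FH, IsClosed A → (∀ X X', Wd (2 * k + 1 : ℕ) X X' → X ∈ A → X' ∈ A) → ∀ p ε : ℝ, 0 ≤ ε →
      ENNReal.ofReal p ≤ ∫⁻ U, A.indicator 1 (XX J l j U) ∂@ww (lg m) γ J l + ENNReal.ofReal ε →
      p - ε - η ≤ ∫ U, RGP.ind A (XX J l j U) ∂wT γ J l T := by
  have : (tr haar).IsHaarMeasure := (inferInstance : haar.IsHaarMeasure)
  obtain ⟨Δ, hΔ, C, -, J0, H⟩ := Y6.close (tr haar) hγ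
  obtain ⟨s, hs⟩ := exp_small (C := C) hΔ hη
  refine ⟨κ + s, J0, fun J l j k T hJ hj ad hk hT A hA dA p ε hε hp => ?_⟩
  obtain ⟨w, hw, d⟩ := dep_XX' hj l k (F := RGP.ind A) fun X X' h =>
    RGP.ind_congr ⟨dA _ _ h, dA _ _ fun e a b => (h e a b).symm⟩
  have n0 : 0 < LL l * nn J := mul_pos (LL_pos l) (M3.nn_pos J)
  have mA : MeasurableSet (XX J l j ⁻¹' A) := (hA.preimage (cont_XX J l j)).measurableSet
  have h1 : 2 * w + 1 ≤ κ * (LL l * nn J) := Nat.le_of_mul_le_mul_right (by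
    rw [hw, mul_right_comm κ]
    exact Nat.mul_le_mul_right _ hk) (M3.nn_pos j)
  have h2 := H J l hJ ad _ rfl (RGP.ind (XX J l j ⁻¹' A)) (RGP.bm_ind mA).meas
    (fun U => abs_le.2 ⟨le_trans (by norm_num) (RGP.ind_nonneg _ _), RGP.ind_le_one _ _⟩)
    _ _ (s * (LL l * nn J)) T ((κ + s + 1) * (LL l * nn J)) d (by nlinarith) (by nlinarith)
  rw [Nat.cast_mul s, mul_div_assoc, mul_div_cancel_right₀ _ (Nat.cast_pos.2 n0).ne'] at h2
  rw [ww_lg] at hp
  have h3 : p - ε ≤ ∫ U, RGP.ind (XX J l j ⁻¹' A) U ∂wT γ J l ((κ + s + 1) * (LL l * nn J)) := by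
    rw [RGP.ind, integral_indicator_const _ mA, smul_eq_mul, mul_one, Measure.real,
      ← ENNReal.ofReal_le_iff_le_toReal (measure_ne_top _ _), ENNReal.ofReal_sub _ hε,
      tsub_le_iff_right, ← lintegral_indicator_one mA]
    exact hp
  have h4 : -η ≤ ∫ U, RGP.ind (XX J l j ⁻¹' A) U ∂wT γ J l T -
      ∫ U, RGP.ind (XX J l j ⁻¹' A) U ∂wT γ J l ((κ + s + 1) * (LL l * nn J)) :=
    (abs_le.1 (h2.trans hs)).1
  change _ ≤ ∫ U, RGP.ind (XX J l j ⁻¹' A) U ∂wT γ J l T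
  linarith

theorem cont_pl (x : St) (i k : Fin 3) : Continuous fun X : FH => ‖YC.plaq X x i k - 1‖ := by
  unfold YC.plaq
  fun_prop

theorem pl_q (X : Conf) (x : St) (i k : Fin 3) :
    YC.plaq (qF X) x i k = (hol Inv.inv X x i k).q := hol_q X x i k

theorem wd_pl {k : ℕ} {X X' : FH} (h : Wd (2 * (k + 2) + 1 : ℕ) X X') {x : St} (hx : |x 0| ≤ k)
    (i i' : Fin 3) : X (x, i) = X' (x, i) ∧ YC.plaq X x i i' = YC.plaq X' x i i' := by
  have u : ∀ i, 0 ≤ un i 0 ∧ un i 0 ≤ 1 := fun i => by rw [un_apply]; split_ifs <;> omega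
  have hx := abs_le.1 hx
  have h1 : ∀ i, X (x, i) = X' (x, i) := fun i => h _ (by push_cast; omega) (by
    have := u i
    push_cast
    omega)
  have h2 : ∀ i i', X (x + Pi.single i 1, i') = X' (x + Pi.single i 1, i') := fun i i' => by
    have := u i
    have := u i'
    refine h _ ?_ ?_
    · change _ ≤ 2 * (x 0 + un i 0)
      push_cast
      omega
    · change 2 * (x 0 + un i 0 + un i' 0) ≤ _
      push_cast
      omega
  exact ⟨h1 i, by simp only [YC.plaq, h1, h2]⟩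

theorem two_le_nn (j : ℕ) : 2 ≤ nn j := Nat.le_mul_of_pos_right 2 (by positivity)

/-- the averaged field is regular in a window of time -/
theorem reg_T {γ : ℝ} (hγ : 0 < γ) {α : ℝ} (hα : α < 2⁻¹) {η : ℝ} (hη : 0 < η) :
    ∀ᶠ j in atTop, ∃ k0 : ℕ, ∀ J l T, k0 ≤ J → Adm J l → k0 * (LL l * nn J) ≤ T →
      1 - η ≤ ∫ U, RGP.ind {X : FH | ∀ x : St, |x 0| ≤ nn j → ∀ i, ‖X (x, i)‖ = 1 ∧
        ∀ k, ‖YC.plaq X x i k - 1‖ ≤ (nn j : ℝ) ^ (-α)} (XX J l j U) ∂wT γ J l T := by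
  obtain ⟨m, J0, H⟩ := ge_T hγ 5 (half_pos hη)
  let _ := lg m
  obtain ⟨a, hc⟩ := dcore (bad_lg m)
  have g0 : 0 < min γ 1 := lt_min hγ one_pos
  filter_upwards [hc γ hγ _ (half_pos hη), En.ep_le g0 hα (a + 2)] with j h1 h2
  have hC : IsClosed {X : FH | ∀ x : St, |x 0| ≤ nn j → ∀ i, ‖X (x, i)‖ = 1 ∧
      ∀ k, ‖YC.plaq X x i k - 1‖ ≤ (nn j : ℝ) ^ (-α)} := by
    simp only [Set.ofPred_and, Set.ofPred_forall]
    exact isClosed_iInter fun x => isClosed_iInter fun _ => isClosed_iInter fun i =>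
      (isClosed_eq (continuous_apply _).norm continuous_const).inter
        (isClosed_iInter fun k => isClosed_le (cont_pl x i k) continuous_const)
  have h3 : eps γ a j + 8 / √(nn j) ≤ (nn j : ℝ) ^ (-α) := by
    refine le_trans ?_ h2
    have L3 : (3 : ℝ) ≤ LL (ll j) := by
      rw [LL_ll_real]
      nlinarith [one_le_pow₀ (n := j) (show (1 : ℝ) ≤ 3 by norm_num)]
    have L1 : (1 : ℝ) ≤ LL (ll j) ^ a := one_le_pow₀ (by linarith)
    have := nn_pos' j
    calc _ ≤ LL (ll j) ^ a / √(min γ 1 * nn j) + 8 / √(min γ 1 * nn j) := by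
          unfold eps
          gcongr
          · exact min_le_left _ _
          · exact mul_le_of_le_one_left this.le (min_le_right _ _)
      _ ≤ _ := by
          rw [← add_div, pow_add]
          gcongr
          nlinarith [mul_le_mul_of_nonneg_left (show (9 : ℝ) ≤ LL (ll j) ^ 2 by nlinarith)
            (zero_le_one.trans L1)]
  refine ⟨J0 + j + (m + 1), fun J l T hJ ad hT => le_of_eq_of_le (by ring)
    (H J l j (nn j + 2) T (by omega) (by omega) ad (by have := two_le_nn j; omega)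
      (le_trans (Nat.mul_le_mul_right _ (by omega)) hT) _ hC (fun X X' h hX x hx i => ?_) 1 _
      (half_pos hη).le ?_)⟩
  · rw [← (wd_pl h hx i i).1]
    exact ⟨(hX x hx i).1, fun k => (wd_pl h hx i k).2 ▸ (hX x hx i).2 k⟩
  have := law_prob hγ J l (J - j)
  refine le_trans (by rw [lintegral_one, measure_univ, ENNReal.ofReal_one])
    (h1 j le_rfl J _ (by omega) ad (fun _ _ => 1)
    (fun X => Set.indicator _ 1 X) (fun _ => measurable_const) (fun _ _ => le_rfl)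
    (fun _ _ _ _ _ _ _ => le_rfl) (fun X p c => ?_)
    (measurable_one.indicator (hC.preimage (cont_XX J l j)).measurableSet))
  exact ind_ge fun x _ i => ⟨S3.norm_q _, fun k => pl_q X x i k ▸ (c _ i k).trans h3⟩

/-- the fluctuations of the averaged field have the natural size -/
theorem non_T {γ : ℝ} (hγ : 0 < γ) : ∃ c > (0 : ℝ), ∀ᶠ j in atTop, ∃ k0 : ℕ, ∀ J l T, k0 ≤ J →
    Adm J l → k0 * (LL l * nn J) ≤ T → 3⁻¹ ≤
      ∫ U, RGP.ind {X : FH | c / √(nn j) ≤ ‖YC.plaq X 0 0 1 - 1‖} (XX J l j U) ∂wT γ J l T := by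
  have hη : (0 : ℝ) < 12⁻¹ := by norm_num
  obtain ⟨m, J0, H⟩ := ge_T hγ 5 hη
  let _ := lg m
  obtain ⟨a, hc⟩ := dcore (bad_lg m)
  obtain ⟨c, c0, hf⟩ := fluct (bad_lg m)
  obtain ⟨j0, hf⟩ := hf γ hγ
  have c1 : 0 < c / √γ / 2 := by positivity
  refine ⟨_, c1, ?_⟩
  filter_upwards [hc γ hγ _ hη, eventually_ge_atTop j0, (tendsto_pow_atTop_nhds_zero_of_lt_one
    (r := (2⁻¹ : ℝ)) (by norm_num) (by norm_num)).eventually
      (ge_mem_nhds (show 0 < c / √γ / 16 by positivity))] with j h1 hj h2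
  have hC : IsClosed {X : FH | c / √γ / 2 / √(nn j) ≤ ‖YC.plaq X 0 0 1 - 1‖} :=
    isClosed_le continuous_const (cont_pl ..)
  refine ⟨J0 + j + (m + 1), fun J l T hJ ad hT => le_of_eq_of_le (by norm_num)
    (H J l j (0 + 2) T (by omega) (by omega) ad (by have := two_le_nn j; omega)
      (le_trans (Nat.mul_le_mul_right _ (by omega)) hT) _ hC (fun X X' h hX => ?_) 2⁻¹ _
      hη.le ?_)⟩
  · rwa [Set.mem_ofPred_eq, ← (wd_pl h (by simp) 0 1).2]
  have := law_prob hγ J l (J - j)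
  have ms : ∀ t, MeasurableSet {X : Conf | t < ‖(hol Inv.inv X 0 0 1).q - 1‖} := fun t =>
    measurableSet_lt measurable_const (Ms.meas_nsub.comp (M3.cont_hol 0 0 1).measurable)
  have s0 : (0 : ℝ) < √(nn j) := Real.sqrt_pos.2 (nn_pos' j)
  refine le_trans ?_ (h1 j le_rfl J _ (by omega) ad
    (fun k' => {X : Conf | (c / √γ - 8 * (2⁻¹ ^ j - 2⁻¹ ^ k')) / √(nn j) <
      ‖(hol Inv.inv X 0 0 1).q - 1‖}.indicator 1)
    (fun X => Set.indicator _ 1 X) (fun _ => measurable_one.indicator (ms _))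
    (fun _ _ => Set.indicator_le_self _ _ _)
    (fun k' _ g u X _ n => Set.indicator_apply_le' (fun hX => ind_ge ?_) fun _ => zero_le)
    (fun X p _ => Set.indicator_apply_le' (fun hX => ind_ge ?_) fun _ => zero_le)
    (measurable_one.indicator (hC.preimage (cont_XX J l j)).measurableSet))
  · have := hf j hj J _ (by omega) ad
    simp only [Nat.sub_self, dn, sub_self, mul_zero, sub_zero]
    rw [lintegral_indicator_one (ms _), ENNReal.ofReal_le_iff_le_toReal (measure_ne_top _ _),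
      div_div, ← Real.sqrt_mul hγ.le]
    have e := probReal_compl_eq_one_sub (μ := law γ J l (J - j)) (En.meas_pl 0 0 1 (c / √(γ * nn j)))
    simp only [Set.compl_ofPred, not_le] at e
    exact le_of_le_of_eq (by linarith) e.symm
  · rw [Set.mem_ofPred_eq, M3.hol_gauge, S3.norm_conj_sub] at hX
    have k1 : ∀ e, ‖((u * X) e).q - (X e).q‖ ≤ 2⁻¹ ^ k' / √(nn j) := fun e => by
      rw [S3.norm_sub, Pi.mul_apply, mul_inv_cancel_right]
      exact n e
    have k2 := norm_sub_le_norm_sub_add_norm_sub (hol Inv.inv (u * X) 0 0 1).q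
      (hol Inv.inv X 0 0 1).q 1
    have k3 : ‖(hol Inv.inv (u * X) 0 0 1).q - (hol Inv.inv X 0 0 1).q‖ ≤
        4 * (2⁻¹ ^ k' / √(nn j)) := by
      refine (JS.q_mul_sub _ _ _ _).trans ((add_le_add ((JS.q_mul_sub _ _ _ _).trans (add_le_add
        (JS.q_mul_sub _ _ _ _) le_rfl)) le_rfl).trans ?_)
      rw [JS.q_inv_sub, JS.q_inv_sub]
      linarith [k1 (0, 0), k1 (0 + un 0, 1), k1 (0 + un 1, 0), k1 (0, 1)]
    rw [Set.mem_ofPred_eq]
    refine lt_of_le_of_lt (le_of_eq ?_) (show (c / √γ - 8 * (2⁻¹ ^ j - 2⁻¹ ^ k')) / √(nn j) -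
      4 * (2⁻¹ ^ k' / √(nn j)) < _ by linarith)
    ring
  · rw [Set.mem_ofPred_eq] at hX ⊢
    rw [pl_q]
    refine le_trans ?_ hX.le
    gcongr
    linarith [show (0 : ℝ) < 2⁻¹ ^ (J + 1) by positivity]

end Pool.Agent.Lib.MP_7f377f_mp.RG.D3.An
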