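import Mathlib

/-! Total variation estimates, limits and consistent families of probability measures. -/

noncomputable section

namespace Pool.Agent.Lib.MP_7f377f_mp.CE

open MeasureTheory Filter Set
open scoped ENNReal Topology

variable {X Y Z : Type} [MeasurableSpace X] [MeasurableSpace Y] [MeasurableSpace Z]

/-- one sided total variation bound -/
def Le (μ ν : Measure X) (e : ℝ≥0∞) : Prop := ∀ A, MeasurableSet A → μ A ≤ ν A + e

theorem Le.trans {μ ν κ : Measure X} {e e' : ℝ≥0∞} (h : Le μ ν e) (h' : Le ν κ e') :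
    Le μ κ (e' + e) := fun A hA => (h A hA).trans (by rw [← add_assoc]; gcongr; exact h' A hA)

theorem Le.mono {μ ν : Measure X} {e e' : ℝ≥0∞} (h : Le μ ν e) (he : e ≤ e') : Le μ ν e' :=
  fun A hA => (h A hA).trans (by gcongr)

theorem Le.map {μ ν : Measure X} {e : ℝ≥0∞} (h : Le μ ν e) {f : X → Y} (hf : Measurable f) :
    Le (μ.map f) (ν.map f) e := fun A hA => by
  rw [Measure.map_apply hf hA, Measure.map_apply hf hA]
  exact h _ (hf hA)

theorem Le.prod {μ ν : Measure X} [SFinite μ] [SFinite ν] {e : ℝ≥0∞} (h : Le μ ν e)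
    (κ : Measure Y) [IsProbabilityMeasure κ] : Le (μ.prod κ) (ν.prod κ) e := fun A hA => by
  rw [Measure.prod_apply_symm hA, Measure.prod_apply_symm hA]
  refine (lintegral_mono fun y => h _ (measurable_prodMk_right hA)).trans_eq ?_
  rw [lintegral_add_right _ measurable_const]
  simp

theorem Le.abs {μ ν : Measure X} [IsFiniteMeasure μ] [IsFiniteMeasure ν] {e : ℝ} (he : 0 ≤ e)
    (h : Le μ ν (ENNReal.ofReal e)) (h' : Le ν μ (ENNReal.ofReal e)) {A : Set X}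
    (hA : MeasurableSet A) : |μ.real A - ν.real A| ≤ e := by
  have k : ∀ {μ ν : Measure X} [IsFiniteMeasure ν], Le μ ν (ENNReal.ofReal e) →
      μ.real A ≤ ν.real A + e := fun h => by
    have := ENNReal.toReal_mono (by finiteness) (h A hA)
    rwa [ENNReal.toReal_add (by finiteness) (by finiteness), ENNReal.toReal_ofReal he] at this
  rw [abs_le]
  constructor <;> linarith [k h, k h']

theorem eq_of_le {μ ν : Measure X} (h : ∀ e, 0 < e → Le μ ν e ∧ Le ν μ e) : μ = ν :=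
  Measure.ext fun A hA => le_antisymm
    (ENNReal.le_of_forall_pos_le_add fun e he _ => (h e (by simpa)).1 A hA)
    (ENNReal.le_of_forall_pos_le_add fun e he _ => (h e (by simpa)).2 A hA)

theorem exists_lim (μ : ℕ → Measure X) [∀ k, IsProbabilityMeasure (μ k)]
    (h : ∀ e, 0 < e → ∃ k0, ∀ k ≥ k0, ∀ k' ≥ k0, Le (μ k) (μ k') e) :
    ∃ ν : Measure X, IsProbabilityMeasure ν ∧
      ∀ e, 0 < e → ∃ k0, ∀ k ≥ k0, Le (μ k) ν e ∧ Le ν (μ k) e := by
  set m : Set X → ℝ≥0∞ := fun A => liminf (fun k => μ k A) atTop with hm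
  have h1 : ∀ e, 0 < e → ∃ k0, ∀ k ≥ k0, ∀ A, MeasurableSet A →
      μ k A ≤ m A + e ∧ m A ≤ μ k A + e := fun e he => by
    obtain ⟨k0, hk⟩ := h e he
    refine ⟨k0, fun k h0 A hA => ⟨?_, ?_⟩⟩
    · rw [← tsub_le_iff_right]
      exact le_liminf_of_le (by isBoundedDefault)
        (eventually_atTop.2 ⟨k0, fun k' h' => tsub_le_iff_right.2 (hk k h0 k' h' A hA)⟩)
    · exact liminf_le_of_frequently_le
        (eventually_atTop.2 ⟨k0, fun k' h' => hk k' h' k h0 A hA⟩).frequently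
  have h2 : ∀ A, MeasurableSet A → Tendsto (fun k => μ k A) atTop (𝓝 (m A)) := fun A hA => by
    have hA1 : m A ≠ ⊤ := by
      obtain ⟨k0, hk⟩ := h1 1 one_pos
      exact ne_top_of_le_ne_top (by finiteness) (hk k0 le_rfl A hA).2
    rw [ENNReal.tendsto_atTop hA1]
    intro e he
    obtain ⟨k0, hk⟩ := h1 e he
    exact ⟨k0, fun k h0 => ⟨tsub_le_iff_right.2 (hk k h0 A hA).2, (hk k h0 A hA).1⟩⟩
  have h3 : ∀ f : ℕ → Set X, (∀ i, MeasurableSet (f i)) → Pairwise (Function.onFun Disjoint f) →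
      ∀ s : Finset ℕ, m (⋃ i ∈ s, f i) = ∑ i ∈ s, m (f i) := fun f hf hd s => by
    refine tendsto_nhds_unique (h2 _ (s.measurableSet_biUnion fun i _ => hf i)) ?_
    simp only [measure_biUnion_finset (fun i _ j _ hij => hd hij) fun i _ => hf i]
    exact tendsto_finsetSum _ fun i _ => h2 _ (hf i)
  refine ⟨Measure.ofMeasurable (fun A _ => m A) (by simp [hm]) fun f hf hd => ?_, ⟨?_⟩,
    fun e he => ?_⟩
  · have hU := MeasurableSet.iUnion hf
    have hs := fun s : Finset ℕ => s.measurableSet_biUnion fun i _ => hf i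
    refine le_antisymm (ENNReal.le_of_forall_pos_le_add fun e he _ => ?_) ?_
    · obtain ⟨k, hk⟩ := h1 (e / 2) (ENNReal.half_pos (by simpa using he.ne'))
      suffices H : μ k (⋃ i, f i) ≤ ∑' i, m (f i) + e / 2 from (hk k le_rfl _ hU).2.trans
        ((add_le_add H le_rfl).trans_eq (by rw [add_assoc, ENNReal.add_halves]))
      rw [measure_iUnion hd hf, ENNReal.tsum_eq_iSup_sum]
      refine iSup_le fun s => ?_
      rw [← measure_biUnion_finset (fun i _ j _ hij => hd hij) fun i _ => hf i]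
      refine (hk k le_rfl _ (hs s)).1.trans ?_
      rw [h3 f hf hd]
      gcongr
      exact ENNReal.sum_le_tsum s
    · rw [ENNReal.tsum_eq_iSup_sum]
      refine iSup_le fun s => ?_
      rw [← h3 f hf hd]
      exact le_of_tendsto_of_tendsto' (h2 _ (hs s)) (h2 _ hU) fun k =>
        measure_mono (iUnion₂_subset fun i _ => subset_iUnion f i)
  · rw [Measure.ofMeasurable_apply _ MeasurableSet.univ]
    simp [hm]
  · obtain ⟨k0, hk⟩ := h1 e he
    exact ⟨k0, fun k h0 => ⟨fun A hA => by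
      rw [Measure.ofMeasurable_apply _ hA]; exact (hk k h0 A hA).1, fun A hA => by
      rw [Measure.ofMeasurable_apply _ hA]; exact (hk k h0 A hA).2⟩⟩

theorem end_real {a b g h a' b' g' h' c c' d d' s : ℝ} (a0 : 0 ≤ a) (b0 : 0 ≤ b') (c0 : 0 ≤ c)
    (c0' : 0 ≤ c') (d0 : 0 ≤ d) (d0' : 0 ≤ d') (s0 : 0 ≤ s) (h1 : h' ≤ b') (h2 : c * g' ≤ a)
    (h3 : c' * g ≤ a') (h4 : c' * h ≤ b') (h5 : (1 - d) * (a + b) ≤ g + h)
    (h6 : (1 - d') * (a' + b') ≤ g' + h') (z : 0 < a + b) (z' : 0 < a' + b')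
    (h7 : 1 - s ≤ c * c') : a' / (a' + b') ≤ a / (a + b) + (d + d' + s) := by
  have x1 : a' / (a' + b') ≤ 1 := (div_le_one z').2 (by linarith)
  have y0 : 0 ≤ a / (a + b) := by positivity
  set x := a' / (a' + b') with hx
  have e : a' = x * (a' + b') := by rw [hx]; field_simp
  rcases le_total x d' with k | k
  · linarith
  rcases le_total 1 d with k' | k'
  · linarith
  have k1 : c * ((x - d') * (a' + b')) ≤ a :=
    le_trans (mul_le_mul_of_nonneg_left (by linarith) c0) h2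
  have k2 : c' * ((1 - d) * (a + b)) ≤ a' + b' := by
    linarith [mul_le_mul_of_nonneg_left h5 c0']
  have k3 : c * c' * ((x - d') * (1 - d)) ≤ a / (a + b) := by
    rw [le_div_iff₀ z]
    linarith [mul_le_mul_of_nonneg_left k2 (mul_nonneg c0 (sub_nonneg.2 k))]
  have k4 : 0 ≤ (x - d') * (1 - d) := mul_nonneg (sub_nonneg.2 k) (sub_nonneg.2 k')
  have k5 : (x - d') * (1 - d) ≤ 1 := by nlinarith
  nlinarith [mul_le_mul_of_nonneg_right h7 k4]

/-- two densities that dominate the good part of each other are close -/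
theorem end_le (P : Measure X) {f g f' g' : X → ℝ≥0∞} {c c' d d' s : ℝ} (c0 : 0 ≤ c)
    (c0' : 0 ≤ c') (d0 : 0 ≤ d) (d0' : 0 ≤ d') (s0 : 0 ≤ s) (mg : Measurable g)
    (mg' : Measurable g') (h1 : ∀ x, g' x ≤ f' x) (h2 : ∀ x, ENNReal.ofReal c * g' x ≤ f x)
    (h3 : ∀ x, ENNReal.ofReal c' * g x ≤ f' x) (h4 : ∀ x, g x ≤ f x)
    (h5 : ENNReal.ofReal (1 - d) * ∫⁻ x, f x ∂P ≤ ∫⁻ x, g x ∂P)
    (h6 : ENNReal.ofReal (1 - d') * ∫⁻ x, f' x ∂P ≤ ∫⁻ x, g' x ∂P)
    (z : ∫⁻ x, f x ∂P ≠ 0) (t : ∫⁻ x, f x ∂P ≠ ⊤) (z' : ∫⁻ x, f' x ∂P ≠ 0)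
    (t' : ∫⁻ x, f' x ∂P ≠ ⊤) (h7 : 1 - s ≤ c * c') :
    Le ((∫⁻ x, f' x ∂P)⁻¹ • P.withDensity f') ((∫⁻ x, f x ∂P)⁻¹ • P.withDensity f)
      (ENNReal.ofReal (d + d' + s)) := fun A hA => by
  have fin : ∀ {u v : X → ℝ≥0∞}, (∀ x, u x ≤ v x) → ∫⁻ x, v x ∂P ≠ ⊤ → ∀ B,
      ∫⁻ x in B, u x ∂P ≠ ⊤ := fun h t B =>
    ne_top_of_le_ne_top t ((setLIntegral_le_lintegral _ _).trans (lintegral_mono h))
  have sp : ∀ {u v : X → ℝ≥0∞}, (∀ x, u x ≤ v x) → ∫⁻ x, v x ∂P ≠ ⊤ → (∫⁻ x, u x ∂P).toReal =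
      (∫⁻ x in A, u x ∂P).toReal + (∫⁻ x in Aᶜ, u x ∂P).toReal := fun h t => by
    rw [← ENNReal.toReal_add (fin h t _) (fin h t _), lintegral_add_compl _ hA]
  have mu : ∀ {u v : X → ℝ≥0∞} {c : ℝ}, 0 ≤ c → Measurable u → (∀ x, ENNReal.ofReal c * u x ≤ v x) →
      ∫⁻ x, v x ∂P ≠ ⊤ → ∀ B, c * (∫⁻ x in B, u x ∂P).toReal ≤ (∫⁻ x in B, v x ∂P).toReal :=
    fun c0 mu h t B => by
      have := ENNReal.toReal_mono (fin (fun _ => le_rfl) t B) (lintegral_mono (μ := P.restrict B) h)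
      rwa [lintegral_const_mul _ mu, ENNReal.toReal_mul, ENNReal.toReal_ofReal c0] at this
  have lo : ∀ {u v : X → ℝ≥0∞} {d : ℝ}, (∀ x, u x ≤ v x) → ∫⁻ x, v x ∂P ≠ ⊤ →
      ENNReal.ofReal (1 - d) * ∫⁻ x, v x ∂P ≤ ∫⁻ x, u x ∂P →
      (1 - d) * (∫⁻ x, v x ∂P).toReal ≤ (∫⁻ x, u x ∂P).toReal := fun h t k => by
    have := ENNReal.toReal_mono (ne_top_of_le_ne_top t (lintegral_mono h)) k
    rw [ENNReal.toReal_mul, ENNReal.toReal_ofReal'] at this
    exact (mul_le_mul_of_nonneg_right (le_max_left _ _) ENNReal.toReal_nonneg).trans this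
  have k5 := lo h4 t h5
  have k6 := lo h1 t' h6
  have p := ENNReal.toReal_pos z t
  have p' := ENNReal.toReal_pos z' t'
  rw [sp h4 t, sp (fun _ => le_rfl) t] at k5
  rw [sp h1 t', sp (fun _ => le_rfl) t'] at k6
  have := end_real ENNReal.toReal_nonneg ENNReal.toReal_nonneg c0 c0' d0 d0' s0
    (ENNReal.toReal_mono (fin (fun _ => le_rfl) t' _) (lintegral_mono h1)) (mu c0 mg' h2 t A)
    (mu c0' mg h3 t' A) (mu c0' mg h3 t' Aᶜ) k5 k6 (by rwa [← sp (fun _ => le_rfl) t])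
    (by rwa [← sp (fun _ => le_rfl) t']) h7
  rw [← sp (fun _ => le_rfl) t, ← sp (fun _ => le_rfl) t'] at this
  simp only [Measure.smul_apply, withDensity_apply _ hA, smul_eq_mul]
  have f1 := fin (fun _ => le_rfl) t A
  have f2 := fin (fun _ => le_rfl) t' A
  rw [← ENNReal.toReal_le_toReal (by finiteness) (by finiteness),
    ENNReal.toReal_add (by finiteness) (by finiteness), ENNReal.toReal_ofReal (by positivity)]
  simpa only [ENNReal.toReal_mul, ENNReal.toReal_inv, inv_mul_eq_div] using this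

/-- construction of the consistent family of limits -/
theorem family {C : Type} (law : C → ℕ → ℕ → Measure X) (T : ℕ → Measure X → Measure X)
    (S : ℕ → Set C) (c : C) (hc : ∀ i, c ∈ S i) (hS : Antitone S)
    (pr : ∀ c k j, IsProbabilityMeasure (law c k j))
    (hT : ∀ j (μ ν : Measure X) e, IsProbabilityMeasure μ → IsProbabilityMeasure ν → Le μ ν e →
      Le (T j μ) (T j ν) e)
    (rc : ∀ j, ∀ c' ∈ S (j + 1), ∀ k, law c' (k + 1) j = T j (law c' k (j + 1)))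
    (H : ∀ e, 0 < e → ∀ j, ∃ m ≥ j, ∃ i, ∀ c' ∈ S i, ∀ c'' ∈ S i, ∀ k' ≥ i, ∀ k'' ≥ i,
      Le (law c' k' m) (law c'' k'' m) e) :
    ∃ μ : ℕ → Measure X, (∀ j, IsProbabilityMeasure (μ j)) ∧ (∀ j, μ j = T j (μ (j + 1))) ∧
      ∀ j e, 0 < e → ∃ i, ∀ c' ∈ S i, ∀ k ≥ i, Le (law c' k j) (μ j) e ∧ Le (μ j) (law c' k j) e := by
  have h1 : ∀ e j s, ∀ c' ∈ S (j + s), ∀ c'' ∈ S (j + s), ∀ k' k'',
      Le (law c' k' (j + s)) (law c'' k'' (j + s)) e →
      Le (law c' (k' + s) j) (law c'' (k'' + s) j) e := by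
    intro e j s
    induction s generalizing j with
    | zero => exact fun _ _ _ _ _ _ h => h
    | succ s ih =>
      intro c' h' c'' h'' k' k'' h
      rw [← add_assoc, ← add_assoc, rc j c' (hS (by omega) h'), rc j c'' (hS (by omega) h'')]
      rw [show j + (s + 1) = j + 1 + s by omega] at h h' h''
      exact hT _ _ _ _ (pr _ _ _) (pr _ _ _) (ih _ _ h' _ h'' _ _ h)
  have h2 : ∀ e, 0 < e → ∀ j, ∃ i, ∀ c' ∈ S i, ∀ c'' ∈ S i, ∀ k' ≥ i, ∀ k'' ≥ i,
      Le (law c' k' j) (law c'' k'' j) e := fun e he j => by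
    obtain ⟨m, hm, i, hi⟩ := H e he j
    obtain ⟨s, rfl⟩ := Nat.exists_eq_add_of_le hm
    refine ⟨i + (j + s), fun c' h' c'' h'' k' g' k'' g'' => ?_⟩
    have := h1 e j s c' (hS (by omega) h') c'' (hS (by omega) h'') (k' - s) (k'' - s)
      (hi c' (hS (by omega) h') c'' (hS (by omega) h'') _ (by omega) _ (by omega))
    rwa [Nat.sub_add_cancel (by omega), Nat.sub_add_cancel (by omega)] at this
  choose μ p hμ using fun j => exists_lim (fun k => law c k j) fun e he =>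
    (h2 e he j).imp fun i hi k hk k' hk' => hi c (hc i) c (hc i) k hk k' hk'
  refine ⟨μ, p, fun j => eq_of_le fun e he => ?_, fun j e he => ?_⟩
  · have he2 := ENNReal.half_pos he.ne'
    obtain ⟨k1, g1⟩ := hμ j _ he2
    obtain ⟨k2, g2⟩ := hμ (j + 1) _ he2
    have a1 := g1 (k1 + k2 + 1) (by omega)
    have a2 := g2 (k1 + k2) (by omega)
    rw [rc j c (hc _)] at a1
    rw [← ENNReal.add_halves e]
    exact ⟨a1.2.trans (hT _ _ _ _ (pr _ _ _) (p _) a2.1), (hT _ _ _ _ (p _) (pr _ _ _) a2.2).trans a1.1⟩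
  · have he2 := ENNReal.half_pos he.ne'
    obtain ⟨k1, g1⟩ := hμ j _ he2
    obtain ⟨i, hi⟩ := h2 _ he2 j
    refine ⟨i, fun c' h' k hk => ?_⟩
    have a1 := g1 (k1 + i) (by omega)
    rw [← ENNReal.add_halves e]
    exact ⟨(hi c' h' c (hc _) k hk _ (by omega)).trans a1.1,
      a1.2.trans (hi c (hc _) c' h' _ (by omega) k hk)⟩

end Pool.Agent.Lib.MP_7f377f_mp.CE
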