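import Mathlib

/-! Lattice Yang-Mills theory on a discrete torus and the free Maxwell field: definitions. -/

namespace Pool.Agent.Lib.MP_7f377f_mp.Weak

open MeasureTheory

variable {d L N : ℕ} {G : Type} [Group G]

/-- holonomy around the plaquette with corner `x` spanned by the directions `i`, `j` -/
def hol (U : (Fin d → ZMod L) × Fin d → G) (x : Fin d → ZMod L) (i j : Fin d) : G :=
  U (x, i) * U (x + Pi.single i 1, j) * (U (x + Pi.single j 1, i))⁻¹ * (U (x, j))⁻¹

/-- the Wilson action -/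
noncomputable def action [NeZero L] (ρ : G →* Matrix.unitaryGroup (Fin N) ℂ)
    (U : (Fin d → ZMod L) × Fin d → G) : ℝ :=
  ∑ x, ∑ i, ∑ j, if i < j then (ρ (hol U x i j)).1.trace.re else 0

/-- expectation in the Wilson lattice gauge measure -/
noncomputable def expect [NeZero L] [MeasurableSpace G] (μ : Measure G)
    (ρ : G →* Matrix.unitaryGroup (Fin N) ℂ) (β : ℝ)
    (F : ((Fin d → ZMod L) × Fin d → G) → ℝ) : ℝ :=
  (∫ U, F U * Real.exp (β * action ρ U) ∂Measure.pi fun _ => μ) /
    ∫ U : (Fin d → ZMod L) × Fin d → G, Real.exp (β * action ρ U) ∂Measure.pi fun _ => μ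

/-- lattice version of the local field `Tr F_a^* F_b` at the site `x` -/
noncomputable def trFF (ρ : G →* Matrix.unitaryGroup (Fin N) ℂ) (x : Fin d → ℤ)
    (a b : Fin d × Fin d) (U : (Fin d → ZMod L) × Fin d → G) : ℝ :=
  (star ((ρ (hol U (fun j => x j) a.1 a.2)).1 - 1) *
    ((ρ (hol U (fun j => x j) b.1 b.2)).1 - 1)).trace.re

/-- dimension of the Lie algebra of the image of `ρ` -/
noncomputable def lieDim (ρ : G →* Matrix.unitaryGroup (Fin N) ℂ) : ℕ :=
  Module.finrank ℝ (Submodule.span ℝ {X : Matrix (Fin N) (Fin N) ℂ |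
    ∀ t : ℝ, ∃ g, (ρ g).1 = NormedSpace.exp (t • X)})

/-- minus the Hessian of the Green function of the Laplacian on `ℝ^d` -/
noncomputable def hessG (y : EuclideanSpace ℝ (Fin d)) (i j : Fin d) : ℝ :=
  Real.Gamma (d / 2) / (2 * Real.pi ^ ((d : ℝ) / 2) * ‖y‖ ^ d) *
    ((if i = j then 1 else 0) - d * y i * y j / ‖y‖ ^ 2)

/-- two-point function of the free Maxwell field strength -/
noncomputable def maxwell (y : EuclideanSpace ℝ (Fin d)) (a b : Fin d × Fin d) : ℝ :=
  (if a.2 = b.2 then hessG y a.1 b.1 else 0) - (if a.2 = b.1 then hessG y a.1 b.2 else 0) -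
    (if a.1 = b.2 then hessG y a.2 b.1 else 0) + (if a.1 = b.1 then hessG y a.2 b.2 else 0)

end Pool.Agent.Lib.MP_7f377f_mp.Weak
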