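import Mathlib

/-! Invariance properties of product Haar measure and the abstract reflection positivity lemma. -/

namespace Pool.Agent.Lib.MP_7f377f_mp.Weak

open MeasureTheory Measure

set_option linter.unusedSectionVars false

theorem cint {Ω : Type} [TopologicalSpace Ω] [CompactSpace Ω] [MeasurableSpace Ω]
    [OpensMeasurableSpace Ω] (ν : Measure Ω) [IsFiniteMeasure ν] {f : Ω → ℝ}
    (hf : Continuous f) : Integrable f ν :=
  (BoundedContinuousFunction.mkOfCompact ⟨f, hf⟩).integrable ν

variable {G : Type} [Group G] [TopologicalSpace G] [IsTopologicalGroup G] [CompactSpace G]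
  [SecondCountableTopology G] [MeasurableSpace G] [BorelSpace G] (μ : Measure G)
  [μ.IsHaarMeasure] [IsProbabilityMeasure μ]

theorem haar_right : μ.IsMulRightInvariant := by
  refine ⟨fun g => ?_⟩
  have : IsProbabilityMeasure (map (· * g) μ) :=
    isProbabilityMeasure_map (measurable_mul_const g).aemeasurable
  have : IsHaarMeasure (map (· * g) μ) := isHaarMeasure_map_mul_right μ g
  exact isHaarMeasure_eq_of_isProbabilityMeasure _ _

theorem haar_inv : μ.IsInvInvariant := by
  have := haar_right μ
  have : IsProbabilityMeasure μ.inv := isProbabilityMeasure_map measurable_inv.aemeasurable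
  have : IsHaarMeasure μ.inv := {}
  exact ⟨isHaarMeasure_eq_of_isProbabilityMeasure _ _⟩

variable {E : Type} [Fintype E]

theorem mp_merge (p : E → Prop) [DecidablePred p] :
    MeasurePreserving (fun z : (E → G) × (E → G) => fun e => if p e then z.2 e else z.1 e)
      ((Measure.pi fun _ : E => μ).prod (Measure.pi fun _ : E => μ)) (Measure.pi fun _ => μ) := by
  have hm : Measurable (fun z : (E → G) × (E → G) => fun e => if p e then z.2 e else z.1 e) := by
    refine measurable_pi_lambda _ fun e => ?_
    split_ifs <;> fun_prop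
  refine ⟨hm, (pi_eq fun s hs => ?_).symm⟩
  rw [map_apply hm (MeasurableSet.univ_pi hs)]
  have : (fun z : (E → G) × (E → G) => fun e => if p e then z.2 e else z.1 e) ⁻¹' Set.pi Set.univ s
      = (Set.pi Set.univ fun e => if p e then Set.univ else s e) ×ˢ
        (Set.pi Set.univ fun e => if p e then s e else Set.univ) := by
    ext z
    simp only [Set.mem_preimage, Set.mem_pi, Set.mem_univ, true_imp_iff, Set.mem_prod]
    constructor
    · intro h
      constructor <;> intro e <;> have := h e <;> split_ifs at this ⊢ <;> simp_all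
    · rintro ⟨h1, h2⟩ e
      have := h1 e
      have := h2 e
      split_ifs at * <;> simp_all
  rw [this, prod_prod, pi_pi, pi_pi, ← Finset.prod_mul_distrib]
  refine Finset.prod_congr rfl fun e _ => ?_
  split_ifs <;> simp

theorem mp_skew (p : E → Prop) [DecidablePred p] (a b : (E → G) → E → G) (ha : Continuous a)
    (hb : Continuous b)
    (hdep : ∀ U V e, p e → (∀ e', ¬ p e' → U e' = V e') → a U e = a V e ∧ b U e = b V e) :
    MeasurePreserving (fun U e => if p e then a U e * U e * b U e else U e)
      (Measure.pi fun _ : E => μ) (Measure.pi fun _ => μ) := by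
  have := haar_right μ
  have hm : Measurable (fun (U : E → G) e => if p e then a U e * U e * b U e else U e) := by
    refine Continuous.measurable (continuous_pi fun e => ?_)
    split_ifs <;> fun_prop
  have hτ : MeasurePreserving
      (fun z : (E → G) × (E → G) => (id z.1, fun e => a z.1 e * z.2 e * b z.1 e))
      ((Measure.pi fun _ : E => μ).prod (Measure.pi fun _ : E => μ))
      ((Measure.pi fun _ : E => μ).prod (Measure.pi fun _ : E => μ)) := by
    refine MeasurePreserving.skew_product (g := fun (W V : E → G) e => a W e * V e * b W e)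
      (MeasurePreserving.id _) ?_ (Filter.Eventually.of_forall fun W => ?_)
    · refine Continuous.measurable (continuous_pi fun e => ?_)
      simp only [Function.uncurry]
      fun_prop
    · exact (measurePreserving_pi _ _ (f := fun e g => a W e * g * b W e) fun e =>
        (measurePreserving_mul_right μ (b W e)).comp (measurePreserving_mul_left μ (a W e))).map_eq
  have h1 := mp_merge μ p
  refine ⟨hm, ?_⟩
  conv_lhs => rw [← h1.map_eq, map_map hm h1.measurable]
  refine Eq.trans ?_ (h1.comp hτ).map_eq
  congr 1
  funext z e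
  by_cases h : p e
  · have := hdep (fun e => if p e then z.2 e else z.1 e) z.1 e h fun e' h' => by simp [h']
    simp [h, this.1, this.2]
  · simp [h]

theorem mp_tri (H : E → ℕ) (a b : (E → G) → E → G) (ha : Continuous a) (hb : Continuous b)
    (hdep : ∀ U V e, (∀ e', H e' < H e → U e' = V e') → a U e = a V e ∧ b U e = b V e) :
    MeasurePreserving (fun U e => a U e * U e * b U e)
      (Measure.pi fun _ : E => μ) (Measure.pi fun _ => μ) := by
  obtain ⟨N, hN⟩ : ∃ N, ∀ e, H e < N := ⟨Finset.univ.sup H + 1, fun e =>
    Nat.lt_succ_of_le (Finset.le_sup (f := H) (Finset.mem_univ e))⟩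
  have key : ∀ n, MeasurePreserving
      (fun (U : E → G) e => if N ≤ H e + n then a U e * U e * b U e else U e)
      (Measure.pi fun _ : E => μ) (Measure.pi fun _ => μ) := by
    intro n
    induction n with
    | zero =>
      have : (fun (U : E → G) e => if N ≤ H e + 0 then a U e * U e * b U e else U e) = id := by
        funext U e
        have := hN e
        rw [if_neg (by omega), id]
      rw [this]
      exact MeasurePreserving.id _
    | succ n ih =>
      have h1 := mp_skew μ (fun e => H e + n + 1 = N) a b ha hb fun U V e he h =>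
        hdep U V e fun e' h' => h e' (by omega)
      have h2 := h1.comp ih
      have : (fun (U : E → G) e => if N ≤ H e + (n + 1) then a U e * U e * b U e else U e) =
          (fun U e => if H e + n + 1 = N then a U e * U e * b U e else U e) ∘
          (fun (U : E → G) e => if N ≤ H e + n then a U e * U e * b U e else U e) := by
        funext U e
        simp only [Function.comp]
        by_cases h : H e + n + 1 = N
        · have := hdep (fun e => if N ≤ H e + n then a U e * U e * b U e else U e) U e
            fun e' h' => by rw [if_neg (by omega)]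
          rw [if_pos (by omega), if_pos h, this.1, this.2, if_neg (by omega)]
        · rw [if_neg h]
          by_cases h' : N ≤ H e + n
          · rw [if_pos h', if_pos (by omega)]
          · rw [if_neg h', if_neg (by omega)]
      rw [this]
      exact h2
  have := key N
  simpa using this

theorem int_merge (p : E → Prop) [DecidablePred p] {F : (E → G) → ℝ} (hF : Continuous F) :
    ∫ U, F U ∂(Measure.pi fun _ => μ) =
      ∫ W : E → G, ∫ V : E → G, F (fun e => if p e then V e else W e) ∂(Measure.pi fun _ => μ)
        ∂(Measure.pi fun _ => μ) := by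
  have h1 := mp_merge μ p
  have hc : Continuous
      (fun z : (E → G) × (E → G) => F fun e => if p e then z.2 e else z.1 e) := by
    refine hF.comp (continuous_pi fun e => ?_)
    split_ifs <;> fun_prop
  rw [← integral_prod _ (cint _ hc)]
  conv_lhs => rw [← h1.map_eq]
  exact integral_map h1.measurable.aemeasurable hF.aestronglyMeasurable

theorem int_mp {Ω : Type} [TopologicalSpace Ω] [MeasurableSpace Ω] [OpensMeasurableSpace Ω]
    {ν : Measure Ω} {Θ : Ω → Ω} (h : MeasurePreserving Θ ν ν) {F : Ω → ℝ} (hF : Continuous F) :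
    ∫ U, F (Θ U) ∂ν = ∫ U, F U ∂ν := by
  conv_rhs => rw [← h.map_eq]
  exact (integral_map h.measurable.aemeasurable hF.aestronglyMeasurable).symm

/-- abstract reflection positivity: `p` are the links strictly inside the positive half, `o` those
on the mirror -/
theorem rp_abstract (p o : E → Prop) [DecidablePred p] (hpo : ∀ e, o e → ¬ p e)
    (Θ : (E → G) → E → G) (hΘc : Continuous Θ)
    (hΘ : MeasurePreserving Θ (Measure.pi fun _ => μ) (Measure.pi fun _ => μ))
    (ho : ∀ U e, o e → Θ U e = U e)
    (hp : ∀ U V e, p e → (∀ e', ¬ p e' → U e' = V e') → Θ U e = Θ V e)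
    {F : (E → G) → ℝ} (hF : Continuous F)
    (hdep : ∀ U V, (∀ e, p e ∨ o e → U e = V e) → F U = F V) :
    0 ≤ ∫ U, F U * F (Θ U) ∂(Measure.pi fun _ => μ) := by
  set φ : (E → G) → ℝ := fun W =>
    ∫ V : E → G, F (fun e => if p e then V e else W e) ∂(Measure.pi fun _ => μ) with hφ
  have hφc : Continuous φ := by
    have := continuous_parametric_integral_of_continuous (μ := Measure.pi fun _ : E => μ)
      (f := fun (W V : E → G) => F (fun e => if p e then V e else W e)) (s := Set.univ)
      (hF.comp (continuous_pi fun e => by split_ifs <;> fun_prop))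
      isCompact_univ
    simpa using this
  have hφo : ∀ U V, (∀ e, o e → U e = V e) → φ U = φ V := by
    intro U V h
    simp only [hφ]
    congr 1
    funext W
    refine hdep _ _ fun e he => ?_
    by_cases h' : p e
    · simp [h']
    · simp [h', h e (he.resolve_left h')]
  have e1 : ∫ U, F U * F (Θ U) ∂(Measure.pi fun _ => μ) =
      ∫ W, φ W * F (Θ W) ∂(Measure.pi fun _ => μ) := by
    rw [int_merge μ p (F := fun U => F U * F (Θ U)) (by fun_prop)]
    congr 1
    funext W
    rw [hφ, ← integral_mul_const]
    congr 1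
    funext V
    congr 1
    refine hdep _ _ fun e he => ?_
    rcases he with he | he
    · exact hp _ _ e he fun e' h' => by simp [h']
    · rw [ho _ _ he, ho _ _ he, if_neg (hpo e he)]
  have e2 : ∫ W, φ W * F (Θ W) ∂(Measure.pi fun _ => μ) =
      ∫ W, φ W * F W ∂(Measure.pi fun _ => μ) := by
    rw [← int_mp hΘ (F := fun W => φ W * F W) (by fun_prop)]
    congr 1
    funext W
    rw [hφo (Θ W) W fun e he => ho W e he]
  have e3 : ∫ W, φ W * F W ∂(Measure.pi fun _ => μ) =
      ∫ W, φ W * φ W ∂(Measure.pi fun _ => μ) := by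
    rw [int_merge μ p (F := fun W => φ W * F W) (by fun_prop)]
    congr 1
    funext W
    conv_rhs => rw [hφ, ← integral_const_mul]
    congr 1
    funext V
    rw [hφo _ W fun e he => by simp [hpo e he]]
  rw [e1, e2, e3]
  exact integral_nonneg fun W => mul_self_nonneg _

/-- Cauchy-Schwarz inequality for a positive symmetric form on continuous functions in a class -/
theorem rp_cs {Ω : Type} [TopologicalSpace Ω] [CompactSpace Ω] [MeasurableSpace Ω]
    [OpensMeasurableSpace Ω] (ν : Measure Ω) [IsFiniteMeasure ν] (Θ : Ω → Ω)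
    (hΘc : Continuous Θ) (hΘ : MeasurePreserving Θ ν ν) (hinv : ∀ U, Θ (Θ U) = U)
    {F₁ F₂ : Ω → ℝ} (h₁ : Continuous F₁) (h₂ : Continuous F₂)
    (hpos : ∀ t : ℝ, 0 ≤ ∫ U, (t * F₁ U + F₂ U) * (t * F₁ (Θ U) + F₂ (Θ U)) ∂ν) :
    (∫ U, F₁ U * F₂ (Θ U) ∂ν) ^ 2 ≤ (∫ U, F₁ U * F₁ (Θ U) ∂ν) * ∫ U, F₂ U * F₂ (Θ U) ∂ν := by
  have hs : ∫ U, F₂ U * F₁ (Θ U) ∂ν = ∫ U, F₁ U * F₂ (Θ U) ∂ν := by
    rw [← int_mp hΘ (F := fun U => F₂ U * F₁ (Θ U)) (by fun_prop)]
    simp only [hinv, mul_comm]
  have : ∀ t : ℝ, 0 ≤ (∫ U, F₁ U * F₁ (Θ U) ∂ν) * (t * t) + (2 * ∫ U, F₁ U * F₂ (Θ U) ∂ν) * t +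
      ∫ U, F₂ U * F₂ (Θ U) ∂ν := by
    intro t
    have e : ∀ U, (t * F₁ U + F₂ U) * (t * F₁ (Θ U) + F₂ (Θ U)) =
        F₁ U * F₁ (Θ U) * (t * t) + F₁ U * F₂ (Θ U) * t + F₂ U * F₁ (Θ U) * t +
          F₂ U * F₂ (Θ U) := fun U => by ring
    have h := hpos t
    simp only [e] at h
    rw [integral_add (cint _ (by fun_prop)) (cint _ (by fun_prop)),
      integral_add (cint _ (by fun_prop)) (cint _ (by fun_prop)),
      integral_add (cint _ (by fun_prop)) (cint _ (by fun_prop)), integral_mul_const,
      integral_mul_const, integral_mul_const, hs] at h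
    linarith
  have := discrim_le_zero this
  rw [discrim] at this
  nlinarith

end Pool.Agent.Lib.MP_7f377f_mp.Weak
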