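import Pool.Agent.Lib.MP_7f377f_mp.WeakHS
import Pool.Agent.Lib.MP_7f377f_mp.WeakHaar
import Pool.Agent.Lib.MP_7f377f_mp.WeakDefs

/-! The Wilson measure on a torus, its symmetries and site reflection positivity. -/

namespace Pool.Agent.Lib.MP_7f377f_mp.Weak

open MeasureTheory Measure

set_option linter.unusedSectionVars false

abbrev Site (d L : ℕ) := Fin d → ZMod L
abbrev Link (d L : ℕ) := Site d L × Fin d

variable {A : Type} [NormedRing A] [StarRing A] [NormedAlgebra ℝ A] [HS A]
variable {d L : ℕ} {G : Type} [Group G]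

/-- squared distance to the identity -/
noncomputable def qq (ρ : G →* unitary A) (g : G) : ℝ := ‖(ρ g : A) - 1‖ ^ 2

section
variable (ρ : G →* unitary A)

theorem qq_nonneg (g : G) : 0 ≤ qq ρ g := sq_nonneg _

theorem rho_inv (g : G) : (ρ g⁻¹ : A) = star (ρ g : A) := by
  rw [map_inv, ← Unitary.star_eq_inv]; rfl

theorem rho_mul (g h : G) : (ρ (g * h) : A) = ρ g * ρ h := by rw [map_mul]; rfl

theorem rho_one : (ρ 1 : A) = 1 := by rw [map_one]; rfl

theorem qq_eq (g : G) : qq ρ g = 2 * (HS.tr (1 : A) - HS.tr (ρ g : A)) :=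
  norm_sub_one_sq (ρ g).2

theorem qq_inv (g : G) : qq ρ g⁻¹ = qq ρ g := by
  rw [qq, qq, rho_inv, norm_star_sub_one]

theorem qq_one : qq ρ 1 = 0 := by simp [qq]

theorem qq_conj (h g : G) : qq ρ (h * g * h⁻¹) = qq ρ g := by
  rw [qq_eq, qq_eq, rho_mul, HS.tr_mul_comm, ← rho_mul, ← mul_assoc, inv_mul_cancel, one_mul]

theorem qq_le (g : G) : qq ρ g ≤ 4 * ‖(1 : A)‖ ^ 2 := by
  have h := norm_sub_le (ρ g : A) 1
  rw [norm_unit (ρ g).2] at h
  have := norm_nonneg ((ρ g : A) - 1)
  rw [qq]
  nlinarith

theorem continuous_rho [TopologicalSpace G] (hρ : Continuous ρ) :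
    Continuous fun g => (ρ g : A) := continuous_subtype_val.comp hρ

theorem continuous_qq [TopologicalSpace G] (hρ : Continuous ρ) : Continuous (qq ρ) := by
  have := continuous_rho ρ hρ
  unfold qq
  fun_prop

end

theorem hol_swap (U : Link d L → G) (x : Site d L) (i j : Fin d) :
    hol U x j i = (hol U x i j)⁻¹ := by
  simp only [hol]; group

theorem hol_self (U : Link d L → G) (x : Site d L) (i : Fin d) : hol U x i i = 1 := by
  simp only [hol]; group

theorem continuous_hol [TopologicalSpace G] [IsTopologicalGroup G] (x : Site d L) (i j : Fin d) :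
    Continuous fun U : Link d L → G => hol U x i j := by
  unfold hol
  fun_prop

/-- translation of configurations -/
def shift (a : Site d L) (U : Link d L → G) : Link d L → G := fun e => U (e.1 + a, e.2)

theorem hol_shift (a : Site d L) (U : Link d L → G) (x : Site d L) (i j : Fin d) :
    hol (shift a U) x i j = hol U (x + a) i j := by
  simp only [hol, shift, add_right_comm x _ a]

/-- reflection of sites -/
def rf (k : Fin d) (x : Site d L) : Site d L := fun l => if l = k then -x l else x l

/-- reflection of unit cells -/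
def rc (k : Fin d) (x : Site d L) : Site d L := rf k x - Pi.single k 1

theorem rf_rf (k : Fin d) (x : Site d L) : rf k (rf k x) = x := by
  funext l; simp only [rf]; split_ifs <;> simp

theorem rc_rc (k : Fin d) (x : Site d L) : rc k (rc k x) = x := by
  funext l; by_cases h : l = k <;> simp [rc, rf, h]

theorem rf_add (k : Fin d) (x y : Site d L) : rf k (x + y) = rf k x + rf k y := by
  funext l; by_cases h : l = k <;> simp [rf, h, add_comm]

theorem rf_single_ne {k i : Fin d} (h : i ≠ k) :
    rf k (Pi.single i 1 : Site d L) = Pi.single i 1 := by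
  funext l; by_cases h' : l = k
  · subst h'; simp [rf, h.symm]
  · simp [rf, h']

theorem rf_single (k : Fin d) : rf k (Pi.single k 1 : Site d L) = -Pi.single k 1 := by
  funext l; by_cases h' : l = k <;> simp [rf, h']

/-- reflection of links -/
def rl (k : Fin d) (e : Link d L) : Link d L := (if e.2 = k then rc k e.1 else rf k e.1, e.2)

theorem rl_rl (k : Fin d) (e : Link d L) : rl k (rl k e) = e := by
  obtain ⟨x, i⟩ := e
  by_cases h : i = k <;> simp [rl, h, rc_rc, rf_rf]

/-- reflection of configurations -/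
def refl (k : Fin d) (U : Link d L → G) : Link d L → G :=
  fun e => if e.2 = k then (U (rl k e))⁻¹ else U (rl k e)

theorem refl_refl (k : Fin d) (U : Link d L → G) : refl k (refl k U) = U := by
  funext e
  have : (rl k e).2 = e.2 := rfl
  by_cases h : e.2 = k <;> simp [refl, h, this, rl_rl]

theorem hol_refl_ne {k i j : Fin d} (hi : i ≠ k) (hj : j ≠ k) (U : Link d L → G) (x : Site d L) :
    hol (refl k U) x i j = hol U (rf k x) i j := by
  simp only [hol, refl, rl, hi, hj, if_false, rf_add, rf_single_ne hi, rf_single_ne hj]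

theorem hol_refl_eq {k j : Fin d} (hj : j ≠ k) (U : Link d L → G) (x : Site d L) :
    hol (refl k U) x k j = (U (rc k x, k))⁻¹ * (hol U (rc k x) k j)⁻¹ * U (rc k x, k) := by
  have e1 : rf k x + -Pi.single k 1 = rc k x := by rw [rc, sub_eq_add_neg]
  have e2 : rc k (x + Pi.single j 1) = rc k x + Pi.single j 1 := by
    rw [rc, rc, rf_add, rf_single_ne hj]; abel
  have e3 : rc k x + Pi.single k 1 = rf k x := by rw [rc]; abel
  simp only [hol, refl, rl, hj, if_false, if_true, rf_add, rf_single, e1, e2, e3]
  group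

/-- reflection of plaquettes -/
def rq (k i j : Fin d) (x : Site d L) : Site d L := if i = k ∨ j = k then rc k x else rf k x

theorem rq_rq (k i j : Fin d) (x : Site d L) : rq k i j (rq k i j x) = x := by
  unfold rq; split_ifs <;> simp [rc_rc, rf_rf]

theorem qq_hol_refl (ρ : G →* unitary A) (k i j : Fin d) (U : Link d L → G) (x : Site d L) :
    qq ρ (hol (refl k U) x i j) = qq ρ (hol U (rq k i j x) i j) := by
  have key : ∀ j, j ≠ k → qq ρ (hol (refl k U) x k j) = qq ρ (hol U (rc k x) k j) := by
    intro j hj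
    have := qq_conj ρ (U (rc k x, k))⁻¹ (hol U (rc k x) k j)⁻¹
    rw [inv_inv] at this
    rw [hol_refl_eq hj, this, qq_inv]
  by_cases hi : i = k
  · by_cases hj : j = k
    · rw [hi, hj, hol_self, hol_self]
    · rw [hi, key j hj, rq, if_pos (Or.inl rfl)]
  · by_cases hj : j = k
    · rw [hj, hol_swap, qq_inv, key i hi, rq, if_pos (Or.inr rfl), hol_swap, qq_inv]
    · rw [hol_refl_ne hi hj, rq, if_neg (by tauto)]

variable [NeZero L]

/-- the action, counted over ordered pairs of directions -/
noncomputable def act (ρ : G →* unitary A) (U : Link d L → G) : ℝ :=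
  ∑ x, ∑ i, ∑ j, qq ρ (hol U x i j)

theorem act_nonneg (ρ : G →* unitary A) (U : Link d L → G) : 0 ≤ act ρ U :=
  Finset.sum_nonneg fun _ _ => Finset.sum_nonneg fun _ _ => Finset.sum_nonneg fun _ _ =>
    qq_nonneg _ _

theorem act_shift (ρ : G →* unitary A) (a : Site d L) (U : Link d L → G) :
    act ρ (shift a U) = act ρ U := by
  simp only [act, hol_shift]
  exact Equiv.sum_comp (Equiv.addRight a) fun x => ∑ i, ∑ j, qq ρ (hol U x i j)

theorem sum_rq (k : Fin d) (f : Site d L → Fin d → Fin d → ℝ) :
    ∑ x, ∑ i, ∑ j, f (rq k i j x) i j = ∑ x, ∑ i, ∑ j, f x i j := by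
  rw [Finset.sum_comm]
  conv_rhs => rw [Finset.sum_comm]
  refine Finset.sum_congr rfl fun i _ => ?_
  rw [Finset.sum_comm]
  conv_rhs => rw [Finset.sum_comm]
  refine Finset.sum_congr rfl fun j _ => ?_
  exact Equiv.sum_comp (Function.Involutive.toPerm _ (rq_rq k i j)) fun x => f x i j

theorem act_refl (ρ : G →* unitary A) (k : Fin d) (U : Link d L → G) :
    act ρ (refl k U) = act ρ U := by
  simp only [act, qq_hol_refl]
  exact sum_rq k fun x i j => qq ρ (hol U x i j)

theorem val_neg_sub_one (x : ZMod L) : (-x - 1).val = L - 1 - x.val := by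
  have h := ZMod.val_lt x
  have : -x - 1 = ((L - 1 - x.val : ℕ) : ZMod L) := by
    rw [Nat.cast_sub (by omega), Nat.cast_sub (by omega)]
    simp
    ring
  rw [this, ZMod.val_cast_of_lt (by omega)]

theorem val_add_one (x : ZMod L) (h : x.val + 1 < L) : (x + 1).val = x.val + 1 := by
  have : x + 1 = ((x.val + 1 : ℕ) : ZMod L) := by simp
  rw [this, ZMod.val_cast_of_lt h]

theorem val_neg' (x : ZMod L) : (-x).val = if x.val = 0 then 0 else L - x.val := by
  rw [ZMod.neg_val]
  simp

theorem rc_val (k : Fin d) (x : Site d L) : (rc k x k).val = L - 1 - (x k).val := by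
  rw [← val_neg_sub_one]; simp [rc, rf]

theorem rf_val (k : Fin d) (x : Site d L) :
    (rf k x k).val = if (x k).val = 0 then 0 else L - (x k).val := by
  rw [← val_neg']; simp [rf]

/-- links in the closed positive half of the torus -/
def half (m : ℕ) (k : Fin d) (e : Link d L) : Prop :=
  (e.1 k).val ≤ m ∧ (e.2 = k → (e.1 k).val < m)

/-- functions of the links in the closed positive half -/
def Dep {α : Type} (m : ℕ) (k : Fin d) (F : (Link d L → G) → α) : Prop :=
  ∀ U V, (∀ e, half m k e → U e = V e) → F U = F V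

theorem dep_hol {m : ℕ} (hL : L = 2 * m) (k i j : Fin d) (x : Site d L) (h1 : (x k).val ≤ m)
    (h2 : i = k ∨ j = k → (x k).val < m) : Dep m k fun U : Link d L → G => hol U x i j := by
  intro U V h
  have hm : 0 < m := by have := NeZero.pos L; omega
  by_cases hij : i = j
  · simp only [hij, hol_self]
  have key : ∀ i j : Fin d, i ≠ j → (i = k ∨ j = k → (x k).val < m) →
      half m k (x + Pi.single i 1, j) := by
    intro i j hij h2
    by_cases hi : i = k
    · have := h2 (Or.inl hi)
      have e : ((x + Pi.single i 1 : Site d L) k).val = (x k).val + 1 := by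
        rw [hi, Pi.add_apply, Pi.single_eq_same, val_add_one _ (by omega)]
      exact ⟨by simp only [e]; omega, fun hj => absurd (hi.trans hj.symm) hij⟩
    · have e : (x + Pi.single i 1 : Site d L) k = x k := by
        rw [Pi.add_apply, Pi.single_eq_of_ne (Ne.symm hi), add_zero]
      exact ⟨by simp only [e]; omega, fun hj => by simp only [e]; exact h2 (Or.inr hj)⟩
  simp only [hol]
  rw [h (x, i) ⟨h1, fun hi => h2 (Or.inl hi)⟩, h (x, j) ⟨h1, fun hj => h2 (Or.inr hj)⟩,
    h _ (key i j hij h2), h _ (key j i (Ne.symm hij) fun h => h2 h.symm)]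

/-- share of a plaquette in the positive half -/
noncomputable def cw (m : ℕ) (k i j : Fin d) (x : Site d L) : ℝ :=
  if i = k ∨ j = k then (if (x k).val < m then 1 else 0) else
    if (x k).val = 0 ∨ (x k).val = m then 1 / 2 else if (x k).val < m then 1 else 0

theorem cw_add {m : ℕ} (hL : L = 2 * m) (k i j : Fin d) (x : Site d L) :
    cw m k i j x + cw m k i j (rq k i j x) = 1 := by
  have h := ZMod.val_lt (x k)
  unfold cw rq
  by_cases hk : i = k ∨ j = k
  · simp only [hk, if_true, rc_val]
    split_ifs <;> first | omega | norm_num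
  · simp only [hk, if_false, rf_val]
    split_ifs <;> first | omega | norm_num

/-- the part of the action in the positive half -/
noncomputable def actp (ρ : G →* unitary A) (m : ℕ) (k : Fin d) (U : Link d L → G) : ℝ :=
  ∑ x, ∑ i, ∑ j, cw m k i j x * qq ρ (hol U x i j)

theorem actp_add (ρ : G →* unitary A) {m : ℕ} (hL : L = 2 * m) (k : Fin d) (U : Link d L → G) :
    actp ρ m k U + actp ρ m k (refl k U) = act ρ U := by
  have : actp ρ m k (refl k U) =
      ∑ x, ∑ i, ∑ j, cw m k i j (rq k i j x) * qq ρ (hol U x i j) := by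
    rw [← sum_rq k]
    simp only [actp, qq_hol_refl, rq_rq]
  rw [this, actp, act, ← Finset.sum_add_distrib]
  refine Finset.sum_congr rfl fun x _ => ?_
  rw [← Finset.sum_add_distrib]
  refine Finset.sum_congr rfl fun i _ => ?_
  rw [← Finset.sum_add_distrib]
  refine Finset.sum_congr rfl fun j _ => ?_
  rw [← add_mul, cw_add hL, one_mul]

theorem dep_actp (ρ : G →* unitary A) {m : ℕ} (hL : L = 2 * m) (k : Fin d) :
    Dep m k (actp (L := L) ρ m k) := by
  intro U V h
  refine Finset.sum_congr rfl fun x _ => Finset.sum_congr rfl fun i _ =>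
    Finset.sum_congr rfl fun j _ => ?_
  by_cases hc : (x k).val ≤ m ∧ (i = k ∨ j = k → (x k).val < m)
  · have := dep_hol hL k i j x hc.1 hc.2 U V h
    simp only at this
    rw [this]
  · have : cw m k i j x = 0 := by
      unfold cw
      split_ifs <;> first | rfl | (exfalso; apply hc; constructor <;> omega)
    rw [this, zero_mul, zero_mul]

variable [TopologicalSpace G] [IsTopologicalGroup G] [CompactSpace G]
  [SecondCountableTopology G] [MeasurableSpace G] [BorelSpace G] (μ : Measure G)
  [μ.IsHaarMeasure] [IsProbabilityMeasure μ] (ρ : G →* unitary A)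

theorem continuous_qhol (hρ : Continuous ρ) (x : Site d L) (i j : Fin d) :
    Continuous fun U : Link d L → G => qq ρ (hol U x i j) :=
  (continuous_qq ρ hρ).comp (continuous_hol x i j)

theorem continuous_act (hρ : Continuous ρ) : Continuous (act (d := d) (L := L) ρ) :=
  continuous_finsetSum _ fun _ _ => continuous_finsetSum _ fun _ _ =>
    continuous_finsetSum _ fun _ _ => continuous_qhol ρ hρ _ _ _

theorem continuous_actp (hρ : Continuous ρ) (m : ℕ) (k : Fin d) :
    Continuous (actp (d := d) (L := L) ρ m k) :=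
  continuous_finsetSum _ fun _ _ => continuous_finsetSum _ fun _ _ =>
    continuous_finsetSum _ fun _ _ => continuous_const.mul (continuous_qhol ρ hρ _ _ _)

theorem continuous_shift (a : Site d L) : Continuous (shift (G := G) a) := by
  unfold shift; fun_prop

theorem continuous_refl (k : Fin d) : Continuous (refl (G := G) (L := L) k) := by
  refine continuous_pi fun e => ?_
  unfold refl
  split_ifs <;> fun_prop

theorem mp_reindex {E : Type} [Fintype E] (σ : E ≃ E) :
    MeasurePreserving (fun (U : E → G) e => U (σ e)) (Measure.pi fun _ => μ)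
      (Measure.pi fun _ => μ) :=
  measurePreserving_arrowCongr' (fun _ => μ) (fun _ => μ) σ.symm (MeasurableEquiv.refl G)
    fun _ => MeasurePreserving.id μ

theorem mp_shift (a : Site d L) :
    MeasurePreserving (shift (G := G) a) (Measure.pi fun _ => μ) (Measure.pi fun _ => μ) :=
  mp_reindex μ ((Equiv.addRight a).prodCongr (Equiv.refl _))

theorem mp_refl (k : Fin d) :
    MeasurePreserving (refl (G := G) (L := L) k) (Measure.pi fun _ => μ)
      (Measure.pi fun _ => μ) := by
  have := haar_inv μ
  have h1 := mp_reindex μ (Function.Involutive.toPerm (rl (L := L) k) (rl_rl k))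
  have h2 := measurePreserving_pi (fun _ : Link d L => μ) (fun _ => μ)
    (f := fun e g => if e.2 = k then g⁻¹ else g) fun e => by
      split_ifs
      · exact measurePreserving_inv μ
      · exact MeasurePreserving.id μ
  exact h2.comp h1

/-- the Wilson measure -/
noncomputable def nu (d L : ℕ) [NeZero L] (b : ℝ) : Measure (Link d L → G) :=
  (Measure.pi fun _ => μ).tilted fun U => -(b * act ρ U)

/-- the partition function -/
noncomputable def ZZ (d L : ℕ) [NeZero L] (b : ℝ) : ℝ :=
  ∫ U : Link d L → G, Real.exp (-(b * act ρ U)) ∂(Measure.pi fun _ => μ)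

theorem continuous_wt (hρ : Continuous ρ) (b : ℝ) :
    Continuous fun U : Link d L → G => Real.exp (-(b * act ρ U)) := by
  have := continuous_act (d := d) (L := L) ρ hρ
  fun_prop

theorem nu_prob (hρ : Continuous ρ) (b : ℝ) : IsProbabilityMeasure (nu μ ρ d L b) :=
  isProbabilityMeasure_tilted (cint _ (continuous_wt ρ hρ b))

instance (b : ℝ) : IsFiniteMeasure (nu μ ρ d L b) := by
  unfold nu; infer_instance

theorem ZZ_pos (hρ : Continuous ρ) (b : ℝ) : 0 < ZZ μ ρ d L b :=
  integral_exp_pos (cint _ (continuous_wt ρ hρ b))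

theorem nu_int (b : ℝ) (F : (Link d L → G) → ℝ) : ∫ U, F U ∂(nu μ ρ d L b) =
    (∫ U, F U * Real.exp (-(b * act ρ U)) ∂(Measure.pi fun _ => μ)) / ZZ μ ρ d L b := by
  rw [nu, integral_tilted, ← integral_div]
  congr 1
  funext U
  rw [smul_eq_mul, ZZ]
  ring

theorem nu_mp (hρ : Continuous ρ) (b : ℝ) {Θ : (Link d L → G) → Link d L → G}
    (h : MeasurePreserving Θ (Measure.pi fun _ => μ) (Measure.pi fun _ => μ))
    (ha : ∀ U, act ρ (Θ U) = act ρ U) : MeasurePreserving Θ (nu μ ρ d L b) (nu μ ρ d L b) := by
  refine ⟨h.measurable, ?_⟩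
  ext s hs
  rw [map_apply h.measurable hs, nu, tilted_apply' _ _ hs, tilted_apply' _ _ (h.measurable hs),
    ← h.setLIntegral_comp_preimage hs]
  · simp only [ha]
  · exact ((continuous_wt ρ hρ b).div_const _).measurable.ennreal_ofReal

theorem nu_shift (hρ : Continuous ρ) (b : ℝ) (a : Site d L) :
    MeasurePreserving (shift a) (nu μ ρ d L b) (nu μ ρ d L b) :=
  nu_mp μ ρ hρ b (mp_shift μ a) (act_shift ρ a)

theorem nu_refl (hρ : Continuous ρ) (b : ℝ) (k : Fin d) :
    MeasurePreserving (refl k) (nu μ ρ d L b) (nu μ ρ d L b) :=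
  nu_mp μ ρ hρ b (mp_refl μ k) (act_refl ρ k)

/-- site reflection positivity -/
theorem rp_pos (hρ : Continuous ρ) (b : ℝ) {m : ℕ} (hL : L = 2 * m) (k : Fin d)
    {F : (Link d L → G) → ℝ} (hF : Continuous F) (hd : Dep m k F) :
    0 ≤ ∫ U, F U * F (refl k U) ∂(nu μ ρ d L b) := by
  rw [nu_int]
  refine div_nonneg ?_ (ZZ_pos μ ρ hρ b).le
  have hc := continuous_actp (d := d) (L := L) ρ hρ m k
  have hm : 0 < m := by have := NeZero.pos L; omega
  classical
  have := rp_abstract μ (fun e : Link d L => (e.1 k).val < m ∧ (e.2 = k ∨ 0 < (e.1 k).val))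
    (fun e : Link d L => e.2 ≠ k ∧ ((e.1 k).val = 0 ∨ (e.1 k).val = m))
    (fun e h h' => by rcases h'.2 with h'' | h''; exact h.1 h''; omega) (refl k)
    (continuous_refl k) (mp_refl μ k) ?_ ?_
    (F := fun U => F U * Real.exp (-(b * actp ρ m k U))) (by fun_prop) ?_
  · refine this.trans_eq (integral_congr_ae (Filter.Eventually.of_forall fun U => ?_))
    simp only [← actp_add ρ hL k U, mul_add, neg_add, Real.exp_add]
    ring
  · intro U e h
    have : rf k e.1 = e.1 := by
      funext l
      by_cases hl : l = k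
      · apply ZMod.val_injective
        rw [hl, rf_val]
        split_ifs <;> omega
      · simp [rf, hl]
    simp [refl, rl, h.1, this]
  · intro U V e h h'
    have hv := ZMod.val_lt (e.1 k)
    have : U (rl k e) = V (rl k e) := by
      refine h' _ fun h'' => ?_
      by_cases he : e.2 = k
      · have := h''.1
        simp only [rl, he, if_true, rc_val] at this
        omega
      · have := h''.1
        simp only [rl, he, if_false, rf_val] at this
        have := h.2.resolve_left he
        split_ifs at * <;> omega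
    simp only [refl, this]
  · intro U V h
    have h' : ∀ e, half m k e → U e = V e := by
      intro e he
      refine h e ?_
      by_cases h1 : e.2 = k
      · exact Or.inl ⟨he.2 h1, Or.inl h1⟩
      · have := he.1
        by_cases h2 : (e.1 k).val = 0 ∨ (e.1 k).val = m
        · exact Or.inr ⟨h1, h2⟩
        · exact Or.inl ⟨by omega, Or.inr (by omega)⟩
    simp only [hd U V h', dep_actp ρ hL k U V h']

/-- the Cauchy-Schwarz inequality of reflection positivity -/
theorem rp_ineq (hρ : Continuous ρ) (b : ℝ) {m : ℕ} (hL : L = 2 * m) (k : Fin d)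
    {F₁ F₂ : (Link d L → G) → ℝ} (h₁ : Continuous F₁) (h₂ : Continuous F₂) (d₁ : Dep m k F₁)
    (d₂ : Dep m k F₂) :
    (∫ U, F₁ U * F₂ (refl k U) ∂(nu μ ρ d L b)) ^ 2 ≤
      (∫ U, F₁ U * F₁ (refl k U) ∂(nu μ ρ d L b)) * ∫ U, F₂ U * F₂ (refl k U) ∂(nu μ ρ d L b) :=
  rp_cs _ _ (continuous_refl k) (nu_refl μ ρ hρ b k) (refl_refl k) h₁ h₂ fun t =>
    rp_pos μ ρ hρ b hL k (F := fun U => t * F₁ U + F₂ U) (by fun_prop) fun U V h => by
      simp only [d₁ U V h, d₂ U V h]

end Pool.Agent.Lib.MP_7f377f_mp.Weak
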