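import Pool.Agent.Lib.MP_7f377f_mp.WeakLie
import Pool.Agent.Lib.MP_7f377f_mp.WeakRP

/-! Orthonormal frames of the Lie algebra and the Casimir element. -/

namespace Pool.Agent.Lib.MP_7f377f_mp.Coul

open Weak
open scoped InnerProductSpace

set_option linter.unusedSectionVars false

variable {A : Type} [NormedRing A] [StarRing A] [NormedAlgebra ℝ A] [HS A]
variable {G : Type} [Group G] (ρ : G →* unitary A)

theorem rho_star_mul (g : G) : star (ρ g : A) * ρ g = 1 := (ρ g).2.1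

theorem rho_mul_star (g : G) : (ρ g : A) * star (ρ g : A) = 1 := (ρ g).2.2

theorem inner_mul_left (u a b : A) : ⟪u * a, b⟫_ℝ = ⟪a, star u * b⟫_ℝ := by
  rw [inner_def, inner_def, star_mul, mul_assoc]

theorem inner_mul_right (u a b : A) : ⟪a * u, b⟫_ℝ = ⟪a, b * star u⟫_ℝ := by
  rw [inner_def, inner_def, star_mul, mul_assoc, HS.tr_mul_comm, mul_assoc]

theorem inner_conj (g h : G) (a b : A) :
    ⟪star (ρ g : A) * a * ρ h, star (ρ g : A) * b * ρ h⟫_ℝ = ⟪a, b⟫_ℝ := by
  rw [inner_mul_right, inner_mul_left, star_star, mul_assoc _ (ρ h : A), rho_mul_star, mul_one,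
    ← mul_assoc, rho_mul_star, one_mul]

theorem norm_conj2 (g h : G) (a : A) : ‖star (ρ g : A) * a * ρ h‖ = ‖a‖ := by
  rw [norm_mul_unit (ρ h).2, norm_unit_mul (Unitary.star_mem (ρ g).2)]

theorem lieAlg_conj {v : A} (hv : v ∈ lieAlg ρ) (g : G) :
    star (ρ g : A) * v * ρ g ∈ lieAlg ρ := by
  induction hv using Submodule.span_induction with
  | mem v hv =>
    refine Submodule.subset_span fun t => ?_
    obtain ⟨k, hk⟩ := hv t
    refine ⟨g⁻¹ * k * g, ?_⟩
    have := NormedSpace.exp_units_conj' (Unitary.toUnits (ρ g)) (t • v)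
    rw [rho_mul, rho_mul, rho_inv, hk, ← smul_mul_assoc, ← mul_smul_comm]
    exact this.symm
  | zero => simp
  | add v w _ _ hv hw => rw [mul_add, add_mul]; exact add_mem hv hw
  | smul c v _ hv => rw [mul_smul_comm, smul_mul_assoc]; exact Submodule.smul_mem _ c hv

/-- an orthonormal frame with scalar Casimir element -/
structure Frame {ι : Type} [Fintype ι] [DecidableEq ι] (T : ι → A) (C : ℝ) : Prop where
  mem : ∀ α, T α ∈ lieAlg ρ
  skew : ∀ α, star (T α) = -T α
  orth : ∀ α γ, ⟪T α, T γ⟫_ℝ = if α = γ then 1 else 0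
  cas : ∑ α, T α * T α = -(C • (1 : A))

variable {ι : Type} [Fintype ι] [DecidableEq ι] {T : ι → A} {C : ℝ}

theorem Frame.conj (h : Frame ρ T C) (g : G) :
    Frame ρ (fun α => star (ρ g : A) * T α * ρ g) C where
  mem α := lieAlg_conj ρ (h.mem α) g
  skew α := by simp [h.skew, mul_assoc]
  orth α γ := by rw [inner_conj, h.orth]
  cas := by
    have : ∀ α, star (ρ g : A) * T α * ρ g * (star (ρ g : A) * T α * ρ g) =
        star (ρ g : A) * (T α * T α) * ρ g := fun α => by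
      simp only [mul_assoc]
      rw [← mul_assoc (ρ g : A), rho_mul_star, one_mul]
    simp only [this]
    rw [← Finset.sum_mul, ← Finset.mul_sum, h.cas]
    simp

theorem Frame.norm (h : Frame ρ T C) (α : ι) : ‖T α‖ = 1 := by
  have := h.orth α α
  rw [if_pos rfl, real_inner_self_eq_norm_sq] at this
  exact (pow_eq_one_iff_of_nonneg (norm_nonneg _) two_ne_zero).mp this

theorem Frame.left (h : Frame ρ T C) (Z : A) : ∑ α, ‖T α * Z‖ ^ 2 = C * ‖Z‖ ^ 2 := by
  simp only [← real_inner_self_eq_norm_sq, inner_mul_left, h.skew, ← mul_assoc, neg_mul]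
  rw [← inner_sum, Finset.sum_neg_distrib, ← Finset.sum_mul, h.cas]
  simp [inner_smul_right]

theorem Frame.right (h : Frame ρ T C) (Z : A) : ∑ α, ‖Z * T α‖ ^ 2 = C * ‖Z‖ ^ 2 := by
  simp only [← real_inner_self_eq_norm_sq, inner_mul_right, h.skew, mul_assoc, mul_neg]
  rw [← inner_sum, Finset.sum_neg_distrib, ← Finset.mul_sum, h.cas]
  simp [inner_smul_right]

theorem cas_comm (b : OrthonormalBasis ι ℝ (lieAlg ρ)) (g : G) :
    (∑ α, (b α : A) * b α) * ρ g = ρ g * ∑ α, (b α : A) * b α := by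
  have h1 : ∀ v ∈ lieAlg ρ, ∑ α, ⟪(b α : A), v⟫_ℝ • (b α : A) = v := by
    intro v hv
    have := congrArg Subtype.val (b.sum_repr' ⟨v, hv⟩)
    simpa using this
  have h2 : ∀ γ, (b γ : A) * ρ g =
      ∑ α, ⟪(b α : A), star (ρ g : A) * b γ * ρ g⟫_ℝ • (ρ g * b α : A) := by
    intro γ
    simp only [← mul_smul_comm]
    rw [← Finset.mul_sum, h1 _ (lieAlg_conj ρ (b γ).2 g), ← mul_assoc, ← mul_assoc, rho_mul_star,
      one_mul]
  have h3 : ∀ α, (ρ g : A) * b α =
      ∑ γ, ⟪(b α : A), star (ρ g : A) * b γ * ρ g⟫_ℝ • (b γ * ρ g : A) := by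
    intro α
    have := h1 _ (lieAlg_conj ρ (b α).2 g⁻¹)
    rw [rho_inv, star_star] at this
    simp only [← smul_mul_assoc]
    rw [← Finset.sum_mul, Finset.sum_congr rfl fun γ _ => by
      rw [real_inner_comm, inner_mul_right, inner_mul_left, star_star, ← mul_assoc], this,
      mul_assoc, rho_star_mul, mul_one]
  rw [Finset.sum_mul, Finset.mul_sum]
  calc _ = ∑ γ, ∑ α, ⟪(b α : A), star (ρ g : A) * b γ * ρ g⟫_ℝ • (b γ * ρ g * b α : A) := by
        refine Finset.sum_congr rfl fun γ _ => ?_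
        conv_lhs => rw [mul_assoc, h2, Finset.mul_sum]
        exact Finset.sum_congr rfl fun α _ => by rw [mul_smul_comm, ← mul_assoc]
    _ = _ := by
        rw [Finset.sum_comm]
        refine Finset.sum_congr rfl fun α _ => ?_
        rw [← mul_assoc, h3, Finset.sum_mul]
        simp only [smul_mul_assoc]

theorem frame_of_scalar [TopologicalSpace G] [CompactSpace G] (hρ : Continuous ρ)
    (b : OrthonormalBasis ι ℝ (lieAlg ρ)) {c : ℝ} (hc : ∑ α, (b α : A) * b α = c • (1 : A))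
    (h1 : HS.tr (1 : A) ≠ 0) :
    Frame ρ (fun α => (b α : A)) (Fintype.card ι / HS.tr (1 : A)) := by
  have ho : ∀ α γ, ⟪(b α : A), (b γ : A)⟫_ℝ = if α = γ then 1 else 0 := fun α γ =>
    orthonormal_iff_ite.mp b.orthonormal α γ
  refine ⟨fun α => (b α).2, fun α => lieAlg_skew ρ hρ (b α).2, ho, ?_⟩
  have h2 := congrArg HS.tr hc
  rw [map_sum, map_smul, Finset.sum_congr rfl (g := fun _ => (-1 : ℝ)) fun α _ => by
    have := ho α α
    rw [if_pos rfl, inner_def, lieAlg_skew ρ hρ (b α).2, neg_mul, map_neg] at this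
    linarith] at h2
  simp only [Finset.sum_const, Finset.card_univ, smul_eq_mul, nsmul_eq_mul] at h2
  rw [hc, ← neg_smul]
  congr 1
  field_simp
  linarith

theorem schur {N : ℕ} (hN : 0 < N) (S : Set (Matrix (Fin N) (Fin N) ℂ))
    (hirr : ∀ W : Submodule ℂ (Fin N → ℂ), (∀ u ∈ S, ∀ v ∈ W, u.mulVec v ∈ W) → W = ⊥ ∨ W = ⊤)
    (M : Matrix (Fin N) (Fin N) ℂ) (hM : ∀ u ∈ S, M * u = u * M) (hs : star M = M) :
    ∃ c : ℝ, M = c • (1 : Matrix (Fin N) (Fin N) ℂ) := by
  have : Nonempty (Fin N) := ⟨⟨0, hN⟩⟩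
  obtain ⟨c, hc⟩ := Module.End.exists_eigenvalue (Matrix.toLin' M)
  have h := hirr (Module.End.eigenspace (Matrix.toLin' M) c) fun u hu v hv => by
    rw [Module.End.mem_eigenspace_iff, Matrix.toLin'_apply] at hv ⊢
    rw [Matrix.mulVec_mulVec, hM u hu, ← Matrix.mulVec_mulVec, hv, Matrix.mulVec_smul]
  have h2 : M = c • (1 : Matrix (Fin N) (Fin N) ℂ) := by
    apply Matrix.toLin'.injective
    refine LinearMap.ext fun v => ?_
    have : v ∈ Module.End.eigenspace (Matrix.toLin' M) c := by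
      rw [h.resolve_left hc]; trivial
    rw [Module.End.mem_eigenspace_iff.mp this]
    simp
  have h3 := congrFun (congrFun hs ⟨0, hN⟩) ⟨0, hN⟩
  rw [h2] at h3
  simp only [Matrix.star_apply, Matrix.smul_apply, Matrix.one_apply_eq, smul_eq_mul, mul_one] at h3
  refine ⟨c.re, ?_⟩
  rw [h2, ← Complex.conj_eq_iff_re.mp h3]
  simp

end Pool.Agent.Lib.MP_7f377f_mp.Coul
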