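import Pool.Agent.Lib.MP_7f377f_mp.CoulDefs

/-! Lattice potential theory on `ℤ^n`: near optimal finitely supported potentials and flows. -/

namespace Pool.Agent.Lib.MP_7f377f_mp.Coul

open MeasureTheory Filter Topology AddMonoidAlgebra Real

variable {n : ℕ}

abbrev Alg (n : ℕ) := AddMonoidAlgebra ℝ (Fin n → ℤ)

noncomputable def sh (v : Fin n → ℤ) : Alg n := single v 1

noncomputable def ex (k : Fin n → ℝ) (z : Fin n → ℤ) : ℂ :=
  Complex.exp ((∑ i, k i * z i : ℝ) * Complex.I)

theorem ex_add (k : Fin n → ℝ) (z w : Fin n → ℤ) : ex k (z + w) = ex k z * ex k w := by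
  simp only [ex, ← Complex.exp_add, Pi.add_apply, Int.cast_add, mul_add, Finset.sum_add_distrib]
  push_cast
  ring_nf

theorem ex_zero (k : Fin n → ℝ) : ex k 0 = 1 := by simp [ex]

theorem ex_neg (k : Fin n → ℝ) (z : Fin n → ℤ) : ex k (-z) = (starRingEnd ℂ) (ex k z) := by
  simp only [ex, ← Complex.exp_conj, map_mul, Complex.conj_ofReal, Complex.conj_I, Pi.neg_apply,
    Int.cast_neg, mul_neg, Finset.sum_neg_distrib]
  push_cast
  ring_nf

theorem ex_single (k : Fin n → ℝ) (i : Fin n) (m : ℤ) :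
    ex k (Pi.single i m) = Complex.exp ((k i * m : ℝ) * Complex.I) := by
  unfold ex
  rw [Finset.sum_eq_single i]
  · simp
  · intro j _ hj
    simp [Pi.single_eq_of_ne hj]
  · simp

theorem norm_ex (k : Fin n → ℝ) (z : Fin n → ℤ) : ‖ex k z‖ = 1 :=
  Complex.norm_exp_ofReal_mul_I _

noncomputable def ft (k : Fin n → ℝ) : Alg n →ₐ[ℝ] ℂ :=
  AddMonoidAlgebra.lift ℝ ℂ (Fin n → ℤ)
    { toFun := fun z => ex k z.toAdd
      map_one' := ex_zero k
      map_mul' := fun _ _ => ex_add k _ _ }

theorem ft_single (k : Fin n → ℝ) (z : Fin n → ℤ) (a : ℝ) : ft k (single z a) = a * ex k z := by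
  simp [ft, AddMonoidAlgebra.lift_single]

theorem ft_sh (k : Fin n → ℝ) (z : Fin n → ℤ) : ft k (sh z) = ex k z := by simp [sh, ft_single]

theorem cont_ex (z : Fin n → ℤ) : Continuous fun k => ex k z := by unfold ex; fun_prop

theorem cont_ft (f : Alg n) : Continuous fun k => ft k f := by
  induction f using AddMonoidAlgebra.induction_linear with
  | zero => simpa using continuous_const
  | add f g hf hg => simpa using hf.fun_add hg
  | single z a => simpa [ft_single] using continuous_const.fun_mul (cont_ex z)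

abbrev box (n : ℕ) : Set (Fin n → ℝ) := Set.Icc (fun _ => -π) (fun _ => π)

noncomputable def avg (F : (Fin n → ℝ) → ℝ) : ℝ := (∫ k in box n, F k) / (2 * π) ^ n

theorem box_eq : (volume : Measure (Fin n → ℝ)).restrict (box n) =
    Measure.pi fun _ => (volume : Measure ℝ).restrict (Set.Icc (-π) π) := by
  rw [← Measure.restrict_pi_pi, Set.pi_univ_Icc]
  rfl

theorem int_ex (z : Fin n → ℤ) : ∫ k in box n, ex k z = if z = 0 then (2 * π : ℂ) ^ n else 0 := by
  have : ∀ k : Fin n → ℝ, ex k z = ∏ i, Complex.exp ((z i * Complex.I) * k i) := by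
    intro k
    rw [ex, ← Complex.exp_sum]
    push_cast
    rw [Finset.sum_mul]
    congr 1
    exact Finset.sum_congr rfl fun i _ => by ring
  simp only [this]
  rw [box_eq, integral_fintype_prod_eq_prod (fun i (x : ℝ) => Complex.exp ((z i * Complex.I) * x))]
  have h1 : ∀ m : ℤ, ∫ x in Set.Icc (-π) π, Complex.exp ((m * Complex.I) * (x : ℝ)) =
      if m = 0 then (2 * π : ℂ) else 0 := by
    intro m
    rw [integral_Icc_eq_integral_Ioc, ← intervalIntegral.integral_of_le (by linarith [pi_pos])]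
    split_ifs with hm
    · simp [hm, two_mul]
    · rw [integral_exp_mul_complex (by simp [hm])]
      have : (m * Complex.I) * (π : ℝ) = (m * Complex.I) * ((-π : ℝ) : ℂ) +
          m * (2 * π * Complex.I) := by push_cast; ring
      rw [this, Complex.exp_add, Complex.exp_int_mul_two_pi_mul_I]
      simp
  simp only [h1]
  split_ifs with hz
  · simp [hz]
  · obtain ⟨i, hi⟩ := Function.ne_iff.mp hz
    exact Finset.prod_eq_zero (Finset.mem_univ i) (if_neg hi)

theorem intg {F : (Fin n → ℝ) → ℝ} (hF : Continuous F) : IntegrableOn F (box n) :=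
  hF.continuousOn.integrableOn_compact isCompact_Icc

theorem avg_add {F G : (Fin n → ℝ) → ℝ} (hF : IntegrableOn F (box n))
    (hG : IntegrableOn G (box n)) : avg (fun k => F k + G k) = avg F + avg G := by
  rw [avg, integral_add hF hG, add_div, avg, avg]

theorem avg_mul (c : ℝ) (F : (Fin n → ℝ) → ℝ) : avg (fun k => c * F k) = c * avg F := by
  rw [avg, integral_const_mul, avg, mul_div_assoc]

theorem avg_mono {F G : (Fin n → ℝ) → ℝ} (hF : IntegrableOn F (box n))
    (hG : IntegrableOn G (box n)) (h : ∀ k, F k ≤ G k) : avg F ≤ avg G :=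
  div_le_div_of_nonneg_right (integral_mono hF hG h) (by positivity)

noncomputable def ip (f g : Alg n) : ℝ := f.coeff.sum fun z a => a * g.coeff z

theorem ip_add_left (f f' g : Alg n) : ip (f + f') g = ip f g + ip f' g := by
  unfold ip
  rw [coeff_add, Finsupp.sum_add_index'] <;> intros <;> ring

theorem ip_add_right (f g g' : Alg n) : ip f (g + g') = ip f g + ip f g' := by
  simp [ip, mul_add, Finsupp.sum_add]

theorem ip_single (z : Fin n → ℤ) (a : ℝ) (g : Alg n) : ip (single z a) g = a * g.coeff z := by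
  simp [ip]

theorem planch (f g : Alg n) :
    ip f g = avg fun k => ((starRingEnd ℂ) (ft k f) * ft k g).re := by
  have hc : ∀ f g : Alg n, IntegrableOn (fun k => ((starRingEnd ℂ) (ft k f) * ft k g).re)
      (box n) := fun f g => intg (Complex.continuous_re.comp
        ((Complex.continuous_conj.comp (cont_ft f)).mul (cont_ft g)))
  induction f using AddMonoidAlgebra.induction_linear with
  | zero => simp [ip, avg]
  | add f f' hf hf' =>
    rw [ip_add_left, hf, hf', ← avg_add (hc _ _) (hc _ _)]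
    simp [add_mul]
  | single z a =>
    induction g using AddMonoidAlgebra.induction_linear with
    | zero => simp [ip, avg]
    | add g g' hg hg' =>
      rw [ip_add_right, hg, hg', ← avg_add (hc _ _) (hc _ _)]
      simp [mul_add]
    | single w b =>
      have : ∀ k, ((starRingEnd ℂ) (ft k (single z a)) * ft k (single w b)).re =
          a * b * (ex k (w - z)).re := by
        intro k
        rw [ft_single, ft_single, map_mul, ← ex_neg, sub_eq_add_neg, ex_add, Complex.conj_ofReal,
          ← Complex.re_ofReal_mul]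
        congr 1
        push_cast
        ring
      simp only [this]
      rw [avg_mul, avg, ip_single]
      have h2 := integral_re (𝕜 := ℂ) (μ := volume.restrict (box n)) (f := fun k => ex k (w - z))
        ((cont_ex _).continuousOn.integrableOn_compact isCompact_Icc)
      simp only [RCLike.re_to_complex] at h2
      rw [h2, int_ex]
      by_cases h : w = z
      · have : ((2 * π : ℂ) ^ n).re = (2 * π) ^ n := by norm_cast
        have hp : (2 * π) ^ n ≠ 0 := by positivity
        simp [h, this, hp]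
      · simp [h, sub_eq_zero]

theorem sum_sq_le_ip (g : Alg n) (S : Finset (Fin n → ℤ)) :
    ∑ z ∈ S, g.coeff z ^ 2 ≤ ip g g := by
  classical
  have : ip g g = ∑ z ∈ S ∪ g.coeff.support, g.coeff z ^ 2 := by
    rw [ip, Finsupp.sum_of_support_subset _ (Finset.subset_union_right (s₁ := S)) _ (by simp)]
    simp [sq]
  rw [this]
  exact Finset.sum_le_sum_of_subset_of_nonneg Finset.subset_union_left fun _ _ _ => sq_nonneg _

theorem ip_self (g : Alg n) : ip g g = avg fun k => ‖ft k g‖ ^ 2 := by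
  rw [planch]
  congr 1
  funext k
  rw [Complex.conj_mul', ← Complex.ofReal_pow, Complex.ofReal_re]

theorem coeff_grad (f : Alg n) (v z : Fin n → ℤ) :
    ((1 - sh (-v)) * f).coeff z = f.coeff z - f.coeff (z + v) := by
  simp [sub_mul, sh, coeff_single_mul_apply, add_comm]

noncomputable def om (k : Fin n → ℝ) : ℝ := ∑ i : Fin n, 2 * (1 - cos (k i))

theorem om_nonneg (k : Fin n → ℝ) : 0 ≤ om k :=
  Finset.sum_nonneg fun i _ => by linarith [cos_le_one (k i)]

theorem om_le (k : Fin n → ℝ) : om k ≤ 4 * n := by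
  have : om k ≤ ∑ _i : Fin n, (4 : ℝ) :=
    Finset.sum_le_sum fun i _ => by linarith [neg_one_le_cos (k i)]
  simpa [mul_comm] using this

theorem le_om (k : Fin n → ℝ) (i : Fin n) : 2 * (1 - cos (k i)) ≤ om k :=
  Finset.single_le_sum (f := fun i => 2 * (1 - cos (k i)))
    (fun i _ => by linarith [cos_le_one (k i)]) (Finset.mem_univ i)

theorem norm_one_sub (t : ℝ) :
    ‖1 - Complex.exp (t * Complex.I)‖ ^ 2 = 2 * (1 - cos t) := by
  rw [Complex.sq_norm, Complex.normSq_apply]
  simp [Complex.exp_ofReal_mul_I_re, Complex.exp_ofReal_mul_I_im]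
  nlinarith [sin_sq_add_cos_sq t]

noncomputable def lap (n : ℕ) : Alg n := ∑ i, (1 - sh (Pi.single i 1)) * (1 - sh (-Pi.single i 1))

theorem ft_lap (k : Fin n → ℝ) : ft k (lap n) = om k := by
  simp only [lap, om, map_sum, map_mul, map_sub, map_one, ft_sh, ex_neg]
  push_cast
  refine Finset.sum_congr rfl fun i _ => ?_
  have := Complex.mul_conj' (1 - ex k (Pi.single i 1))
  rw [map_sub, map_one] at this
  rw [this, ← Complex.ofReal_pow, ex_single, norm_one_sub]
  simp

noncomputable def qq (k : Fin n → ℝ) : ℝ := 1 - (4 * n + 1 : ℝ)⁻¹ * om k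

theorem qq_nonneg (k : Fin n → ℝ) : 0 ≤ qq k := by
  have := om_le k
  rw [qq, sub_nonneg, inv_mul_le_iff₀ (by positivity)]
  linarith

theorem qq_le (k : Fin n → ℝ) : qq k ≤ 1 := by
  have := om_nonneg k
  rw [qq, sub_le_self_iff]
  positivity

theorem cont_om : Continuous (om (n := n)) := by unfold om; fun_prop

theorem cont_qq : Continuous (qq (n := n)) := by unfold qq; have := cont_om (n := n); fun_prop

theorem avg_qq (i0 : Fin n) : Tendsto (fun m => avg fun k : Fin n → ℝ => qq k ^ m) atTop (𝓝 0) := by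
  have h := tendsto_integral_of_dominated_convergence (μ := volume.restrict (box n))
    (F := fun m k => qq k ^ m) (f := fun _ => 0) (fun _ => 1)
    (fun m => (cont_qq.pow m).aestronglyMeasurable) (intg continuous_const)
    (fun m => Eventually.of_forall fun k => by
      rw [Real.norm_of_nonneg (pow_nonneg (qq_nonneg k) m)]
      exact pow_le_one₀ (qq_nonneg k) (qq_le k)) ?_
  · simpa [avg] using h.div_const ((2 * π) ^ n)
  · have h1 : ∀ᵐ k ∂(volume : Measure (Fin n → ℝ)).restrict (box n), k i0 ≠ 0 :=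
      ae_restrict_of_ae (Measure.ae_eval_ne (fun _ => volume) i0 0)
    filter_upwards [h1, ae_restrict_mem measurableSet_Icc] with k hk hb
    refine tendsto_pow_atTop_nhds_zero_of_lt_one (qq_nonneg k) ?_
    have h2 : cos (k i0) ≠ 1 := fun h => hk ((cos_eq_one_iff_of_lt_of_lt
      (by linarith [hb.1 i0, pi_pos]) (by linarith [hb.2 i0, pi_pos])).mp h)
    have h3 := lt_of_le_of_ne (cos_le_one _) h2
    have h4 := le_om k i0
    rw [qq, sub_lt_self_iff]
    exact mul_pos (by positivity) (by linarith)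

noncomputable def PP (n : ℕ) : Alg n := 1 - (4 * n + 1 : ℝ)⁻¹ • lap n

noncomputable def ww (n m : ℕ) : Alg n := (4 * n + 1 : ℝ)⁻¹ • ∑ j ∈ Finset.range m, PP n ^ j

noncomputable def wh (m : ℕ) (k : Fin n → ℝ) : ℝ :=
  (4 * n + 1 : ℝ)⁻¹ * ∑ j ∈ Finset.range m, qq k ^ j

theorem ft_PP (k : Fin n → ℝ) : ft k (PP n) = qq k := by
  simp [PP, qq, ft_lap]

theorem ft_ww (m : ℕ) (k : Fin n → ℝ) : ft k (ww n m) = wh m k := by
  simp [ww, wh, ft_PP]

theorem lap_ww (m : ℕ) : lap n * ww n m = 1 - PP n ^ m := by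
  rw [← mul_neg_geom_sum, ww, PP, sub_sub_cancel, mul_smul_comm, smul_mul_assoc]

theorem om_wh (m : ℕ) (k : Fin n → ℝ) : om k * wh m k = 1 - qq k ^ m := by
  rw [← mul_neg_geom_sum, wh, qq]
  ring

theorem wh_nonneg (m : ℕ) (k : Fin n → ℝ) : 0 ≤ wh m k :=
  mul_nonneg (by positivity) (Finset.sum_nonneg fun j _ => pow_nonneg (qq_nonneg k) j)

theorem cont_wh (m : ℕ) : Continuous (wh (n := n) m) := by
  unfold wh; have := cont_qq (n := n); fun_prop

noncomputable def path (i0 : Fin n) (R : ℕ) : Alg n :=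
  ∑ r ∈ Finset.range R, sh (Pi.single i0 1) ^ r

theorem sh_pow (i0 : Fin n) (R : ℕ) : sh (Pi.single i0 1) ^ R = sh (Pi.single i0 (R : ℤ)) := by
  rw [sh, single_pow, sh, one_pow, ← Pi.single_smul]
  simp

theorem div_path (i0 : Fin n) (R : ℕ) :
    (1 - sh (Pi.single i0 1)) * path i0 R = 1 - sh (Pi.single i0 (R : ℤ)) := by
  rw [path, mul_neg_geom_sum, sh_pow]

theorem norm_path (i0 : Fin n) (R : ℕ) (k : Fin n → ℝ) : ‖ft k (path i0 R)‖ ≤ R := by
  rw [path, map_sum]
  refine (norm_sum_le _ _).trans ?_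
  simp [ft_sh, norm_ex]

theorem norm_src (i0 : Fin n) (R : ℕ) (k : Fin n → ℝ) :
    ‖ft k (1 - sh (Pi.single i0 (R : ℤ)))‖ ^ 2 = 2 * (1 - cos (R * k i0)) := by
  rw [map_sub, map_one, ft_sh, ex_single, norm_one_sub]
  simp [mul_comm]

theorem cos_le (i0 : Fin n) (R : ℕ) (k : Fin n → ℝ) :
    2 * (1 - cos (R * k i0)) ≤ R ^ 2 * om k := by
  have h1 := norm_src i0 1 k
  rw [← norm_src, ← div_path, map_mul, norm_mul, mul_pow, mul_comm]
  simp only [Nat.cast_one, one_mul] at h1
  rw [h1]
  exact mul_le_mul (pow_le_pow_left₀ (norm_nonneg _) (norm_path i0 R k) 2) (le_om k i0)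
    (by linarith [cos_le_one (k i0)]) (by positivity)

noncomputable def gg (i0 : Fin n) (R : ℕ) (k : Fin n → ℝ) : ℝ := (1 - cos (R * k i0)) / om k

theorem pot_eq (i0 : Fin n) (R : ℕ) : pot n i0 R = avg (gg i0 R) := rfl

theorem gg_nonneg (i0 : Fin n) (R : ℕ) (k : Fin n → ℝ) : 0 ≤ gg i0 R k :=
  div_nonneg (by linarith [cos_le_one (R * k i0)]) (om_nonneg k)

theorem gg_le (i0 : Fin n) (R : ℕ) (k : Fin n → ℝ) : gg i0 R k ≤ R ^ 2 := by
  have := cos_le i0 R k
  refine div_le_of_le_mul₀ (om_nonneg k) (by positivity) ?_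
  linarith [cos_le_one (R * k i0)]

theorem om_gg (i0 : Fin n) (R : ℕ) (k : Fin n → ℝ) : om k * gg i0 R k = 1 - cos (R * k i0) := by
  by_cases h : om k = 0
  · have := cos_le i0 R k
    rw [h] at this ⊢
    linarith [cos_le_one (R * k i0)]
  · rw [gg, mul_div_cancel₀ _ h]

theorem int_gg (i0 : Fin n) (R : ℕ) {F : (Fin n → ℝ) → ℝ} (hF : Continuous F) :
    IntegrableOn (fun k => F k * gg i0 R k) (box n) := by
  refine (intg hF).mul_bdd (c := R ^ 2) ?_ (Eventually.of_forall fun k => ?_)
  · refine Measurable.aestronglyMeasurable ?_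
    have := (cont_om (n := n)).measurable
    unfold gg
    fun_prop
  · rw [Real.norm_of_nonneg (gg_nonneg i0 R k)]
    exact gg_le i0 R k

theorem pot_nonneg (i0 : Fin n) (R : ℕ) : 0 ≤ pot n i0 R :=
  div_nonneg (integral_nonneg fun k => gg_nonneg i0 R k) (by positivity)

noncomputable def phi (i0 : Fin n) (R m : ℕ) : Alg n := ww n m * (1 - sh (Pi.single i0 (R : ℤ)))

theorem phi_zero (i0 : Fin n) (R m : ℕ) :
    (phi i0 R m).coeff 0 = avg fun k => wh m k * (1 - cos (R * k i0)) := by
  have := planch (single 0 1) (phi i0 R m)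
  rw [ip_single, one_mul] at this
  rw [this]
  congr 1
  funext k
  rw [ft_single, ex_zero, phi, map_mul (ft k), ft_ww, map_sub, map_one, ft_sh, ex_single]
  simp [Complex.exp_re, mul_comm]

theorem phi_end (i0 : Fin n) (R m : ℕ) :
    (phi i0 R m).coeff (Pi.single i0 (R : ℤ)) = -(phi i0 R m).coeff 0 := by
  have := planch (single (Pi.single i0 (R : ℤ)) 1) (phi i0 R m)
  rw [ip_single, one_mul] at this
  rw [this, phi_zero, neg_eq_neg_one_mul, ← avg_mul]
  congr 1
  funext k
  have h := Complex.conj_mul' (ex k (Pi.single i0 (R : ℤ)))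
  rw [norm_ex] at h
  rw [ft_single, phi, map_mul (ft k), ft_ww, map_sub, map_one, ft_sh, Complex.ofReal_one, one_mul,
    mul_left_comm, mul_sub, h, ex_single]
  simp [Complex.exp_re, mul_comm]
  ring

theorem phi_zero_ge (i0 : Fin n) (R m : ℕ) :
    pot n i0 R - R ^ 2 * avg (fun k : Fin n → ℝ => qq k ^ m) ≤ (phi i0 R m).coeff 0 := by
  rw [phi_zero, pot_eq, sub_le_iff_le_add, ← avg_mul, ← avg_add]
  · refine avg_mono (by simpa using int_gg i0 R continuous_const (F := fun _ => 1))
      (intg ?_) fun k => ?_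
    · have := cont_wh (n := n) m
      have := cont_qq (n := n)
      fun_prop
    · rw [← om_gg, ← mul_assoc, mul_comm (wh m k), om_wh]
      nlinarith [gg_le i0 R k, pow_nonneg (qq_nonneg k) m]
  · have := cont_wh (n := n) m
    exact intg (by fun_prop)
  · have := cont_qq (n := n)
    exact intg (by fun_prop)

theorem avg_sum (F : Fin n → (Fin n → ℝ) → ℝ) (hF : ∀ i, Continuous (F i)) :
    ∑ i, avg (F i) = avg fun k => ∑ i, F i k := by
  simp only [avg]
  rw [integral_finsetSum _ fun i _ => intg (hF i), Finset.sum_div]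

theorem norm_grad (i : Fin n) (k : Fin n → ℝ) :
    ‖ft k (1 - sh (-Pi.single i 1))‖ ^ 2 = 2 * (1 - cos (k i)) := by
  have h1 := norm_src i 1 k
  simp only [Nat.cast_one, one_mul, map_sub, map_one, ft_sh] at h1
  rw [← h1, map_sub, map_one, ft_sh, ex_neg, ← Complex.norm_conj]
  simp

theorem energy_phi (i0 : Fin n) (R m : ℕ) :
    ∑ i, ip ((1 - sh (-Pi.single i 1)) * phi i0 R m) ((1 - sh (-Pi.single i 1)) * phi i0 R m) ≤
      2 * (phi i0 R m).coeff 0 := by
  simp only [ip_self]
  have := cont_wh (n := n) m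
  rw [avg_sum _ fun i => (cont_ft _).norm.fun_pow 2, phi_zero, ← avg_mul]
  refine avg_mono (intg (continuous_finsetSum _ fun i _ => (cont_ft _).norm.fun_pow 2))
    (intg (by fun_prop)) fun k => ?_
  simp only [map_mul (ft k), norm_mul, mul_pow, norm_grad, phi, norm_src, ft_ww, Complex.norm_real,
    Real.norm_eq_abs, sq_abs]
  rw [← Finset.sum_mul]
  change om k * _ ≤ _
  have h1 := om_wh m k
  have h2 := mul_nonneg (wh_nonneg m k) (sub_nonneg.mpr (cos_le_one (R * k i0)))
  have h3 := pow_nonneg (qq_nonneg k) m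
  calc _ = (om k * wh m k) * (2 * (wh m k * (1 - cos (R * k i0)))) := by ring
    _ ≤ _ := by rw [h1]; nlinarith

theorem res_grad (i0 : Fin n) (R : ℕ) {ε : ℝ} (hε : 0 < ε) (hp : ε < pot n i0 R) :
    ∃ (ψ : (Fin n → ℤ) → ℝ) (S : Finset (Fin n → ℤ)), (∀ z ∉ S, ψ z = 0) ∧ ψ 0 = 1 ∧
      ψ (Pi.single i0 (R : ℤ)) = -1 ∧ ∀ S' : Finset (Fin n → ℤ),
        ∑ z ∈ S', ∑ i, (ψ z - ψ (z + Pi.single i 1)) ^ 2 ≤ 2 / (pot n i0 R - ε) := by
  have h := (avg_qq i0).const_mul ((R : ℝ) ^ 2)
  rw [mul_zero] at h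
  obtain ⟨m, hm⟩ := (h.eventually (gt_mem_nhds hε)).exists
  have h1 := phi_zero_ge i0 R m
  set c := (phi i0 R m).coeff 0 with hc
  have hc0 : pot n i0 R - ε ≤ c := by linarith
  have hc1 : 0 < c := by linarith
  refine ⟨fun z => (phi i0 R m).coeff z / c, (phi i0 R m).coeff.support, fun z hz => ?_,
    div_self hc1.ne', ?_, fun S' => ?_⟩
  · simp [Finsupp.notMem_support_iff.mp hz]
  · simp only [phi_end, ← hc, neg_div, div_self hc1.ne']
  · have h2 := energy_phi i0 R m
    simp only [← sub_div, div_pow, ← Finset.sum_div, ← coeff_grad]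
    rw [Finset.sum_comm]
    calc _ ≤ (2 * c) / c ^ 2 := div_le_div_of_nonneg_right
          ((Finset.sum_le_sum fun i _ => sum_sq_le_ip _ S').trans h2) (by positivity)
      _ = 2 / c := by field_simp
      _ ≤ _ := div_le_div_of_nonneg_left (by norm_num) (by linarith) hc0

noncomputable def flow (i0 : Fin n) (R m : ℕ) (i : Fin n) : Alg n :=
  (1 - sh (-Pi.single i 1)) * phi i0 R m + if i = i0 then PP n ^ m * path i0 R else 0

theorem div_flow (i0 : Fin n) (R m : ℕ) :
    ∑ i, (1 - sh (Pi.single i 1)) * flow i0 R m i = 1 - sh (Pi.single i0 (R : ℤ)) := by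
  simp only [flow, mul_add, Finset.sum_add_distrib, mul_ite, mul_zero, Finset.sum_ite_eq',
    Finset.mem_univ, if_true, ← mul_assoc, ← Finset.sum_mul]
  change lap n * _ + _ = _
  rw [phi, ← mul_assoc, lap_ww, mul_right_comm, div_path]
  ring

theorem norm_flow (i0 : Fin n) (R m : ℕ) :
    ∑ i, ip (flow i0 R m i) (flow i0 R m i) ≤
      2 * pot n i0 R + R ^ 2 * avg (fun k : Fin n → ℝ => qq k ^ m) := by
  simp only [ip_self]
  have := cont_qq (n := n)
  rw [avg_sum _ fun i => (cont_ft _).norm.fun_pow 2, pot_eq, ← avg_mul, ← avg_mul,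
    ← avg_add (int_gg i0 R continuous_const) (intg (by fun_prop))]
  refine avg_mono (intg (continuous_finsetSum _ fun i _ => (cont_ft _).norm.fun_pow 2))
    ((int_gg i0 R continuous_const).add (intg (by fun_prop))) fun k => ?_
  set s := ft k (1 - sh (Pi.single i0 (R : ℤ))) with hs
  set p := ft k (path i0 R) with hp
  have hsp : (1 - ex k (Pi.single i0 1)) * p = s := by
    rw [hs, ← div_path, map_mul, map_sub, map_one, ft_sh]
  have e : ∀ i, ‖ft k (flow i0 R m i)‖ ^ 2 = 2 * (1 - cos (k i)) * (wh m k ^ 2 * ‖s‖ ^ 2) +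
      if i = i0 then 2 * (wh m k * qq k ^ m * ‖s‖ ^ 2) + (qq k ^ m) ^ 2 * ‖p‖ ^ 2 else 0 := by
    intro i
    rw [← norm_grad]
    by_cases h : i = i0
    · subst h
      simp only [flow, if_true, map_add, map_mul (ft k), phi, ft_ww, map_pow, ft_PP, ← hs, ← hp]
      have h1 : ft k (1 - sh (-Pi.single i 1)) = (starRingEnd ℂ) (1 - ex k (Pi.single i 1)) := by
        rw [map_sub, map_one, ft_sh, ex_neg, map_sub, map_one]
      rw [h1, ← hsp]
      generalize 1 - ex k (Pi.single i 1) = a
      rw [← Complex.ofReal_pow]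
      generalize qq k ^ m = b
      simp only [Complex.sq_norm, Complex.normSq_apply, Complex.add_re, Complex.add_im,
        Complex.mul_re, Complex.mul_im, Complex.conj_re, Complex.conj_im, Complex.ofReal_re,
        Complex.ofReal_im]
      ring
    · simp [flow, h, phi, ft_ww, map_mul (ft k), ← hs, mul_pow]
  simp only [e, Finset.sum_add_distrib, Finset.sum_ite_eq', Finset.mem_univ, if_true,
    ← Finset.sum_mul]
  change om k * _ + _ ≤ _
  rw [hs, norm_src, ← om_gg]
  have h1 := om_wh m k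
  have h2 := gg_nonneg i0 R k
  have h3 := pow_nonneg (qq_nonneg k) m
  have h4 := pow_le_one₀ (qq_nonneg k) (qq_le k) (n := m)
  have h5 : ‖p‖ ^ 2 ≤ R ^ 2 := pow_le_pow_left₀ (norm_nonneg _) (norm_path i0 R k) 2
  generalize qq k ^ m = b at *
  calc _ = 2 * gg i0 R k * ((om k * wh m k) ^ 2 + 2 * b * (om k * wh m k)) + b ^ 2 * ‖p‖ ^ 2 := by
        ring
    _ ≤ _ := by
      rw [h1]
      have : b ^ 2 * ‖p‖ ^ 2 ≤ b * R ^ 2 := mul_le_mul (by nlinarith) h5 (by positivity) h3
      nlinarith [mul_nonneg h2 (sq_nonneg b)]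

theorem res_flow (i0 : Fin n) (R : ℕ) {ε : ℝ} (hε : 0 < ε) :
    ∃ (J : (Fin n → ℤ) → Fin n → ℝ) (S : Finset (Fin n → ℤ)),
      ∑ z ∈ S, ∑ i, J z i ^ 2 ≤ 2 * pot n i0 R + ε ∧
      ∀ (A : Type) [AddCommGroup A] [Module ℝ A] (f : (Fin n → ℤ) → A),
        ∑ z ∈ S, ∑ i, J z i • (f z - f (z + Pi.single i 1)) = f 0 - f (Pi.single i0 (R : ℤ)) := by
  classical
  have h := (avg_qq i0).const_mul ((R : ℝ) ^ 2)
  rw [mul_zero] at h
  obtain ⟨m, hm⟩ := (h.eventually (gt_mem_nhds hε)).exists
  refine ⟨fun z i => (flow i0 R m i).coeff z,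
    Finset.univ.biUnion fun i => (flow i0 R m i).coeff.support, ?_, fun A _ _ f => ?_⟩
  · rw [Finset.sum_comm]
    exact ((Finset.sum_le_sum fun i _ => sum_sq_le_ip _ _).trans (norm_flow i0 R m)).trans
      (by linarith)
  · set lin : ((Fin n → ℤ) → A) → Alg n → A := fun f g => Finsupp.linearCombination ℝ f g.coeff
      with hlin
    have h1 : ∀ v (g : Alg n), lin f ((1 - sh v) * g) = lin (fun z => f z - f (z + v)) g := by
      intro v g
      induction g using AddMonoidAlgebra.induction_linear with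
      | zero => simp [hlin]
      | add g g' hg hg' =>
        simp only [hlin, mul_add, coeff_add, map_add] at hg hg' ⊢
        rw [hg, hg']
      | single z a => simp [hlin, sub_mul, sh, single_mul_single, smul_sub, add_comm]
    have h2 : lin f (∑ i, (1 - sh (Pi.single i 1)) * flow i0 R m i) =
        f 0 - f (Pi.single i0 (R : ℤ)) := by
      rw [div_flow, ← mul_one (1 - sh _), h1]
      simp [hlin, one_def]
    rw [← h2, Finset.sum_comm]
    simp only [hlin, coeff_sum, map_sum] at h1 ⊢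
    refine Finset.sum_congr rfl fun i _ => ?_
    rw [h1, Finsupp.linearCombination_apply, Finsupp.sum_of_support_subset _ _ _ (by simp)]
    exact Finset.subset_biUnion_of_mem (fun i => (flow i0 R m i).coeff.support) (Finset.mem_univ i)

end Pool.Agent.Lib.MP_7f377f_mp.Coul
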