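import Pool.Agent.Lib.MP_7f377f_mp.CoulMom
import Pool.Agent.Lib.MP_7f377f_mp.CoulRes

/-! The upper bound on Wilson loops. -/

namespace Pool.Agent.Lib.MP_7f377f_mp.Coul

open Weak MeasureTheory Filter
open scoped InnerProductSpace

set_option linter.unusedSectionVars false
set_option maxHeartbeats 1600000

variable {A : Type} [NormedRing A] [StarRing A] [NormedAlgebra ℝ A] [HS A]
variable {n : ℕ} {G : Type} [Group G] (ρ : G →* unitary A)

/-- correlation of two string observables joined by temporal lines -/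
noncomputable def cor {L : ℕ} (σ : (Link n L → G) → A) (y : Site n L) (k : ℕ)
    (U : Link (n + 1) L → G) : ℝ :=
  ⟪σ (sl U 0), ρ (line U (st 0 0) 0 k) * σ (sl U k) * star (ρ (line U (st 0 y) 0 k) : A)⟫_ℝ

theorem exists_radius (S : Finset (Fin n → ℤ)) : ∃ M : ℕ, ∀ z ∈ S, ∀ i, |z i| < M := by
  refine ⟨S.sup (fun z => Finset.univ.sup fun i => (z i).natAbs) + 1, fun z hz i => ?_⟩
  have h1 := Finset.le_sup (f := fun z : Fin n → ℤ => Finset.univ.sup fun i => (z i).natAbs) hz
  have h2 := Finset.le_sup (f := fun i => (z i).natAbs) (Finset.mem_univ i)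
  rw [Int.abs_eq_natAbs]
  omega

variable [TopologicalSpace G] [IsTopologicalGroup G] [CompactSpace G]
  [SecondCountableTopology G] [MeasurableSpace G] [BorelSpace G] (μ : Measure G)
  [μ.IsHaarMeasure] [IsProbabilityMeasure μ]

theorem continuous_cor (hρ : Continuous ρ) {L : ℕ} [NeZero L] {σ : (Link n L → G) → A}
    (hσ : Continuous σ) (y : Site n L) (k : ℕ) : Continuous (cor ρ σ y k) := by
  have hc := continuous_rho ρ hρ
  have hl := fun x k => continuous_line (G := G) (L := L) (d := n + 1) x 0 k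
  unfold cor
  fun_prop

variable [NeZero n] {ι : Type} [Fintype ι] [DecidableEq ι] {T : ι → A} {C : ℝ}

theorem upper (hρ : Continuous ρ) (hT : Frame ρ T C) (hC : 0 ≤ C) (i0 : Fin n) (R : ℕ) {ε : ℝ}
    (hε : 0 < ε) : ∀ᶠ β : ℝ in atTop, ∀ (L : ℕ) [NeZero L], Even L → β ≤ L → ∀ k ≤ L,
      ∫ U, cor ρ (fun a => ρ (line a 0 i0 R)) (Pi.single i0 R) k U ∂(nu μ ρ (n + 1) L (β / 4)) ≤
        ‖(1 : A)‖ ^ 2 * Real.exp (-(C * pot n i0 R - ε) * k / β) := by
  have hc := continuous_rho ρ hρ
  by_cases hp : C * pot n i0 R ≤ ε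
  · filter_upwards [eventually_gt_atTop 0] with β hβ L _ _ _ k _
    have := nu_prob (d := n + 1) (L := L) μ ρ hρ (β / 4)
    have h1 := integral_mono (μ := nu μ ρ (n + 1) L (β / 4))
      (cint _ (continuous_cor ρ hρ (hc.comp (continuous_line 0 i0 R)) (Pi.single i0 R) k))
      (integrable_const (‖(1 : A)‖ ^ 2)) fun U => (real_inner_le_norm _ _).trans_eq (by
        simp only [Function.comp, ← rho_mul, ← rho_inv, norm_unit (ρ _).2, sq])
    simp only [integral_const, probReal_univ, one_smul] at h1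
    exact h1.trans (le_mul_of_one_le_right (sq_nonneg _) (Real.one_le_exp
      (div_nonneg (mul_nonneg (by linarith) (by positivity)) hβ.le)))
  push Not at hp
  have C0 : 0 < C := lt_of_le_of_ne hC fun h => by rw [← h] at hp; linarith
  have hε1 : ε / (4 * C) < pot n i0 R := by rw [div_lt_iff₀ (by positivity)]; nlinarith
  obtain ⟨ψ, S, h1, h2, h3, h4⟩ := res_grad i0 R (by positivity) hε1
  obtain ⟨M, hM⟩ := exists_radius S
  obtain ⟨c, hc0, hc1⟩ := exists_mom ρ μ hρ n
  set p := pot n i0 R - ε / (4 * C) with hp'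
  have p0 : 0 < p := sub_pos.mpr hε1
  have hCp : C * p = C * pot n i0 R - ε / 4 := by rw [hp']; field_simp
  set m := ∑ z ∈ S, |ψ z| with hm
  have hm' : ∀ z, |ψ z| ≤ m := fun z => by
    by_cases hz : z ∈ S
    · exact Finset.single_le_sum (f := fun z => |ψ z|) (fun _ _ => abs_nonneg _) hz
    · rw [h1 z hz, abs_zero]; positivity
  set K := 32 * (Fintype.card ι : ℝ) ^ 2 * m ^ 2 * p ^ 2 / 2 * (QQ n M * (1 + n * M)) with hK
  have Q0 := QQ_pos n M
  have K0 : 0 ≤ K := by positivity
  set δ := ε / (4 * (QQ n M * K + 1)) with hδ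
  have δ0 : 0 < δ := by positivity
  have hδ' : QQ n M * K * δ ≤ ε / 4 := by
    rw [hδ, ← mul_div_assoc, div_le_div_iff₀ (by positivity) (by positivity)]
    nlinarith
  filter_upwards [eventually_ge_atTop 1, eventually_ge_atTop ((R * 2 : ℕ) : ℝ),
    eventually_ge_atTop (((M + 1) * 2 : ℕ) : ℝ), eventually_ge_atTop (8 * (C * p) ^ 2 / ε),
    eventually_ge_atTop (QQ n M * K * 2 ^ (n + 4) / δ),
    eventually_ge_atTop (QQ n M * K * 2 ^ (n + 4) / δ * c / (ε / 4))]
    with β b1 b2 b3 b4 b5 b6 L _ hL hβL k hk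
  have β0 : 0 < β := by linarith
  have hR : R * 2 ≤ L := by exact_mod_cast b2.trans hβL
  have hML : (M + 1) * 2 ≤ L := by exact_mod_cast b3.trans hβL
  have hfix := continuous_fix (G := G) (d := n) (L := L)
  set c₁ := C / (4 * (β / 4) * (2 / p) / 2 + 2 * C) with hc₁
  set c₂ := 32 * (Fintype.card ι : ℝ) ^ 2 * m ^ 2 /
    (2 / p * (4 * (β / 4) * (2 / p) / 2 + 2 * C)) with hc₂
  have e1 : c₁ ≤ 1 := by
    rw [hc₁, div_le_one (by positivity)]
    have : 0 ≤ 4 * (β / 4) * (2 / p) / 2 := by positivity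
    linarith
  have e2 : (C * p - ε / 4) / β ≤ c₁ := by
    have : c₁ = C * p / (β + 2 * (C * p)) := by rw [hc₁]; field_simp
    rw [this, div_le_div_iff₀ β0 (by positivity)]
    rw [div_le_iff₀ hε] at b4
    nlinarith [mul_pos hε (mul_pos C0 p0)]
  have e3 : 0 ≤ c₂ := by positivity
  have e4 : c₂ * (QQ n M * (1 + n * M)) ≤ K / β := by
    have : c₂ ≤ 32 * (Fintype.card ι : ℝ) ^ 2 * m ^ 2 / (2 / p * (4 * (β / 4) * (2 / p) / 2)) :=
      div_le_div_of_nonneg_left (by positivity) (by positivity) (by gcongr; linarith)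
    refine (mul_le_mul_of_nonneg_right this (by positivity)).trans_eq ?_
    rw [hK]
    field_simp
  have dv0 : ∀ a g c : _, 0 ≤ dv (L := L) (n := n) ρ M a g c := fun a g c =>
    Finset.sum_nonneg fun _ _ => by positivity
  have cdv : Continuous fun q : (Link n L → G) × (Site n L → G) × (Link n L → G) =>
      dv ρ M q.1 q.2.1 q.2.2 := by unfold dv; fun_prop
  have hl := continuous_line (G := G) (L := L) 0 i0 R
  have key := upper_ind ρ μ hρ (β / 4) (Pi.single i0 R) (fun a g c => 1 - c₁ + c₂ * dv ρ M a g c)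
    (by fun_prop) (fun a g c => add_nonneg (sub_nonneg.mpr e1) (mul_nonneg e3 (dv0 a g c)))
    (slab_torus ρ μ hρ hT hC (by positivity) i0 hR hML h2 h3
      (fun z i hz => h1 z fun h => by linarith [hM z h i]) hm' (by positivity) h4)
    (X := fun a => ρ (line a 0 i0 R)) (by fun_prop) (c₀ := ‖(1 : A)‖)
    (fun a => (norm_unit (ρ _).2).le) k hk (F := fun U => ρ (line (sl U k) 0 i0 R)) (by fun_prop)
    (fun s _ W g => by simp only [sl_put])
  have e5 : ∀ U : Link (n + 1) L → G, cor ρ (fun a => ρ (line a 0 i0 R)) (Pi.single i0 R) k U =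
      ⟪(ρ (line (sl U k) 0 i0 R) : A), star (ρ (line U (st 0 0) 0 k) : A) *
        ρ (line (sl U 0) 0 i0 R) * ρ (line U (st 0 (Pi.single i0 R)) 0 k)⟫_ℝ := fun U => by
    rw [cor, real_inner_comm, inner_mul_right, inner_mul_left, star_star, mul_assoc]
  simp only [e5]
  refine key.trans ?_
  simp only [norm_unit (ρ _).2, integral_const_mul]
  rw [← mul_assoc, ← sq]
  refine mul_le_mul_of_nonneg_left ?_ (sq_nonneg _)
  set γ := β / 4 / 2 ^ (n + 2) with hγ
  have hγ' : γ = β / 2 ^ (n + 4) := by rw [hγ, pow_add 2 n 4, pow_add]; field_simp; norm_num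
  have γ0 : 0 < γ := by positivity
  set w := K / β / (γ * δ) with hw
  have hw' : QQ n M * w = QQ n M * K * 2 ^ (n + 4) / δ / β / β := by rw [hw, hγ']; field_simp
  have e6 : QQ n M * w ≤ 1 := by
    rw [hw', div_le_one β0]
    exact (div_le_self (by positivity) b1).trans b5
  have mom := mom_exp ρ μ hρ (by positivity) hc0 (hc1 L (β / 4) hL (by positivity) (by linarith))
    M (w := w) (δ := δ) (by positivity) e6 hk
  rw [← hγ, show w * (γ * δ) = K / β from div_mul_cancel₀ _ (mul_pos γ0 δ0).ne'] at mom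
  have cl := continuous_loc (n := n) (L := L) ρ hρ M
  have e7 : ∀ U : Link (n + 1) L → G, ∏ s ∈ Finset.range k, (1 - c₁ + c₂ *
      dv ρ M (sl U s) (tm U s) (sl U (s + 1))) ≤ Real.exp (-(k * c₁)) *
        Real.exp (K / β * ∑ t ∈ Finset.range k, loc ρ M U t) := by
    intro U
    have : Real.exp (-(k * c₁)) * Real.exp (K / β * ∑ t ∈ Finset.range k, loc ρ M U t) =
        ∏ s ∈ Finset.range k, Real.exp (-c₁ + K / β * loc ρ M U s) := by
      rw [← Real.exp_sum, ← Real.exp_add, Finset.sum_add_distrib, Finset.mul_sum]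
      simp
    rw [this]
    refine Finset.prod_le_prod (fun s _ => ?_) fun s _ => le_trans ?_ (Real.add_one_le_exp _)
    · exact add_nonneg (sub_nonneg.mpr e1) (mul_nonneg e3 (dv0 _ _ _))
    · have f1 := mul_le_mul_of_nonneg_left (dv_le ρ hML U s) e3
      have f2 := mul_le_mul_of_nonneg_right e4 (loc_nonneg ρ M U s)
      linarith
  have cd : ∀ s : ZMod L, Continuous fun U : Link (n + 1) L → G =>
      dv ρ M (sl U s) (tm U s) (sl U (s + 1)) := fun s => by unfold dv; fun_prop
  have e7' := integral_mono (μ := nu μ ρ (n + 1) L (β / 4)) (cint _ (by fun_prop))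
    (cint _ (by fun_prop)) e7
  refine e7'.trans ?_
  rw [integral_const_mul]
  refine (mul_le_mul_of_nonneg_left mom (Real.exp_pos _).le).trans ?_
  rw [← Real.exp_add, Real.exp_le_exp]
  have e8 : QQ n M * w * (γ * δ ^ 2 + c) ≤ ε / 2 / β := by
    have f1 : QQ n M * w * (γ * δ ^ 2) = QQ n M * K * δ / β := by rw [hw]; field_simp
    have f2 : QQ n M * w * c ≤ ε / 4 / β := by
      rw [hw', div_mul_eq_mul_div _ β, div_le_div_iff_of_pos_right β0, div_mul_eq_mul_div _ β,
        div_le_iff₀ β0]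
      rw [div_le_iff₀ (by positivity)] at b6
      linarith
    have f3 := div_le_div_of_nonneg_right hδ' β0.le
    rw [mul_add, f1]
    have : ε / 2 / β = ε / 4 / β + ε / 4 / β := by ring
    linarith
  have e9 : -(C * pot n i0 R - ε) * k / β = k * (-((C * p - ε / 4) / β) + ε / 2 / β) := by
    rw [hCp]; ring
  rw [e9]
  linarith [mul_le_mul_of_nonneg_left e8 (Nat.cast_nonneg k),
    mul_le_mul_of_nonneg_left e2 (Nat.cast_nonneg k)]

end Pool.Agent.Lib.MP_7f377f_mp.Coul
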