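import Pool.Agent.Lib.MP_7f377f_mp.CoulLink
import Pool.Agent.Lib.MP_7f377f_mp.CoulUpper

/-! Logarithmic convexity in time of string correlations. -/

namespace Pool.Agent.Lib.MP_7f377f_mp.Coul

open Weak MeasureTheory
open scoped InnerProductSpace

set_option linter.unusedSectionVars false
set_option maxHeartbeats 400000

theorem seq_conv {c : ℕ → ℝ} {M : ℕ} (h0 : ∀ k ≤ M, 0 ≤ c k)
    (hc : ∀ k, k + 2 ≤ M → c (k + 1) ^ 2 ≤ c k * c (k + 2)) (hp : 0 < c 0) {l : ℝ} {j k : ℕ}
    (hj : 1 ≤ j) (hjk : j ≤ k) (hk : k ≤ M) (h : c 0 * Real.exp (-(l * j)) ≤ c j) :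
    c 0 * Real.exp (-(l * k)) ≤ c k := by
  set d : ℕ → ℝ := fun k => c k * Real.exp (l * k) with hd
  have e : ∀ k : ℕ, c 0 * Real.exp (-(l * k)) ≤ c k ↔ d 0 ≤ d k := fun k => by
    simp only [hd, Nat.cast_zero, mul_zero, Real.exp_zero, mul_one, Real.exp_neg]
    rw [mul_inv_le_iff₀ (Real.exp_pos _)]
  have d0 : 0 < d 0 := by simpa [hd] using hp
  have step : ∀ k, k + 2 ≤ M → d 0 ≤ d (k + 1) → d k ≤ d (k + 1) → d (k + 1) ≤ d (k + 2) := by
    intro k hk h1 h2
    have h3 : d (k + 1) ^ 2 ≤ d k * d (k + 2) := by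
      have : Real.exp (l * (k + 1 : ℕ)) ^ 2 = Real.exp (l * k) * Real.exp (l * (k + 2 : ℕ)) := by
        rw [← Real.exp_add, ← Real.exp_nat_mul]; congr 1; push_cast; ring
      simp only [hd]
      rw [mul_pow, this, mul_mul_mul_comm]
      exact mul_le_mul_of_nonneg_right (hc k hk) (by positivity)
    have h4 : 0 ≤ d (k + 2) := mul_nonneg (h0 _ hk) (Real.exp_pos _).le
    refine le_of_mul_le_mul_left ?_ (d0.trans_le h1)
    nlinarith
  have S : ∀ k, k + 1 ≤ M → d 0 ≤ d (k + 1) → d k ≤ d (k + 1) := by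
    intro k
    induction k with
    | zero => exact fun _ h => h
    | succ k ih =>
      intro hk h1
      by_contra h2
      have h3 := h1.trans (not_le.mp h2).le
      exact h2 (step k hk h3 (ih (by omega) h3))
  rw [e] at h ⊢
  induction k, hjk using Nat.le_induction with
  | base => exact h
  | succ k hjk ih =>
    obtain ⟨k, rfl⟩ : ∃ i, k = i + 1 := ⟨k - 1, by omega⟩
    have h1 := ih (by omega)
    exact h1.trans (step k hk h1 (S k (by omega) h1))

variable {A : Type} [NormedRing A] [StarRing A] [NormedAlgebra ℝ A] [HS A]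
variable {n L : ℕ} {G : Type} [Group G] (ρ : G →* unitary A)

theorem line_add (U : Link (n + 1) L → G) (s : ZMod L) (y : Site n L) (k l : ℕ) :
    line U (st s y) 0 (k + l) = line U (st s y) 0 k * line U (st (s + k) y) 0 l := by
  induction l with
  | zero => simp [line]
  | succ l ih => rw [← add_assoc, line_tm, line_tm, ih, mul_assoc, Nat.cast_add, add_assoc]

theorem line_one (U : Link (n + 1) L → G) (s : ZMod L) (y : Site n L) :
    line U (st s y) 0 1 = tm U s y := by
  rw [line_tm]; simp [line]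

theorem line_refl (U : Link (n + 1) L → G) (y : Site n L) (k : ℕ) :
    line (refl 0 U) (st 0 y) 0 k = (line U (st (-k) y) 0 k)⁻¹ := by
  induction k with
  | zero => simp [line]
  | succ k ih =>
    rw [line_tm, ih, tm_refl, add_comm k 1, line_add, line_one, mul_inv_rev]
    simp [sub_eq_add_neg]

theorem line_shift (c : ZMod L) (U : Link (n + 1) L → G) (s : ZMod L) (y : Site n L) (k : ℕ) :
    line (shift (st c 0) U) (st s y) 0 k = line U (st (s + c) y) 0 k := by
  induction k with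
  | zero => rfl
  | succ k ih => rw [line_tm, line_tm, ih, tm_shift, add_right_comm]

/-- the string at time `k` transported to time zero -/
def trn (σ : (Link n L → G) → A) (y : Site n L) (k : ℕ) (U : Link (n + 1) L → G) : A :=
  ρ (line U (st 0 0) 0 k) * σ (sl U k) * star (ρ (line U (st 0 y) 0 k) : A)

theorem trn_refl (σ : (Link n L → G) → A) (y : Site n L) (k l : ℕ) (U : Link (n + 1) L → G) :
    ⟪trn ρ σ y k (refl 0 U), trn ρ σ y l U⟫_ℝ = cor ρ σ y (k + l) (shift (st (-k) 0) U) := by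
  simp only [trn, cor, line_refl, sl_refl, line_shift, sl_shift, line_add, zero_add, rho_inv,
    rho_mul, star_star, add_neg_cancel, Nat.cast_add, add_neg_cancel_comm, star_mul]
  rw [inner_mul_right, inner_mul_left, star_star]
  simp only [mul_assoc]

variable [NeZero L]

theorem dep_trn {m : ℕ} (hL : L = 2 * m) (σ : (Link n L → G) → A) (y : Site n L) {k : ℕ}
    (hk : k ≤ m) : Dep m 0 (trn ρ σ y k) := by
  intro U V h
  have := NeZero.pos L
  have h1 : sl U k = sl V k := funext fun e => h _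
    ⟨by simp only [st_zero]; rw [ZMod.val_cast_of_lt (by omega)]; exact hk,
      fun h => absurd h (Fin.succ_ne_zero _)⟩
  have h2 : ∀ y, ∀ j ≤ k, line U (st 0 y) 0 j = line V (st 0 y) 0 j := by
    intro y j hj
    induction j with
    | zero => rfl
    | succ j ih =>
      have e : ((st (j : ZMod L) y) 0).val = j := ZMod.val_cast_of_lt (by omega)
      rw [line_tm, line_tm, ih (by omega), zero_add, tm, tm,
        h _ ⟨by simp only [e]; omega, fun _ => by simp only [e]; omega⟩]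
  simp only [trn, h1, h2 _ k le_rfl]

variable [TopologicalSpace G] [IsTopologicalGroup G] [CompactSpace G]
  [SecondCountableTopology G] [MeasurableSpace G] [BorelSpace G] (μ : Measure G)
  [μ.IsHaarMeasure] [IsProbabilityMeasure μ]

theorem rp_vec (hρ : Continuous ρ) (b : ℝ) {m : ℕ} (hL : L = 2 * m)
    {F : (Link (n + 1) L → G) → A} (hF : Continuous F) (hd : Dep m 0 F) :
    0 ≤ ∫ U, ⟪F (refl 0 U), F U⟫_ℝ ∂(nu μ ρ (n + 1) L b) := by
  have cr := continuous_refl (G := G) (L := L) (0 : Fin (n + 1))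
  rw [integral_congr_ae (Filter.Eventually.of_forall fun U =>
    ((stdOrthonormalBasis ℝ A).sum_inner_mul_inner (F (refl 0 U)) (F U)).symm),
    integral_finsetSum _ fun i _ => cint _ (by fun_prop)]
  refine Finset.sum_nonneg fun i _ => ?_
  simpa only [real_inner_comm (F _), mul_comm] using rp_pos μ ρ hρ b hL 0
    (F := fun U => ⟪stdOrthonormalBasis ℝ A i, F U⟫_ℝ) (by fun_prop) fun U V h => by
      simp only [hd U V h]

theorem continuous_trn (hρ : Continuous ρ) {σ : (Link n L → G) → A} (hσ : Continuous σ)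
    (y : Site n L) (k : ℕ) : Continuous (trn ρ σ y k) := by
  have hc := continuous_rho ρ hρ
  have hl := fun x k => continuous_line (G := G) (L := L) (d := n + 1) x 0 k
  unfold trn
  fun_prop

theorem cor_conv (hρ : Continuous ρ) (b : ℝ) {m : ℕ} (hL : L = 2 * m) {σ : (Link n L → G) → A}
    (hσ : Continuous σ) (y : Site n L) {k l : ℕ} (hk : k ≤ m) (hl : l ≤ m) :
    0 ≤ ∫ U, cor ρ σ y (l + l) U ∂(nu μ ρ (n + 1) L b) ∧
    (∫ U, cor ρ σ y (k + l) U ∂(nu μ ρ (n + 1) L b)) ^ 2 ≤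
      (∫ U, cor ρ σ y (k + k) U ∂(nu μ ρ (n + 1) L b)) *
        ∫ U, cor ρ σ y (l + l) U ∂(nu μ ρ (n + 1) L b) := by
  have cr := continuous_refl (G := G) (L := L) (0 : Fin (n + 1))
  have ct := continuous_trn ρ hρ hσ y
  have e : ∀ k l, ∫ U, ⟪trn ρ σ y k (refl 0 U), trn ρ σ y l U⟫_ℝ ∂(nu μ ρ (n + 1) L b) =
      ∫ U, cor ρ σ y (k + l) U ∂(nu μ ρ (n + 1) L b) := fun k l => by
    simp only [trn_refl]
    exact int_mp (nu_shift μ ρ hρ b _) (continuous_cor ρ hρ hσ y _)
  have key : ∀ t : ℝ, 0 ≤ (∫ U, cor ρ σ y (k + k) U ∂(nu μ ρ (n + 1) L b)) * (t * t) +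
      (2 * ∫ U, cor ρ σ y (k + l) U ∂(nu μ ρ (n + 1) L b)) * t +
      ∫ U, cor ρ σ y (l + l) U ∂(nu μ ρ (n + 1) L b) := by
    intro t
    have h := rp_vec ρ μ hρ b hL (F := fun U => t • trn ρ σ y k U + trn ρ σ y l U) (by fun_prop)
      fun U V h => by simp only [dep_trn ρ hL σ y hk U V h, dep_trn ρ hL σ y hl U V h]
    simp only [inner_add_left, inner_add_right, real_inner_smul_left, inner_smul_right,
      mul_add] at h
    rw [integral_add (cint _ (by fun_prop)) (cint _ (by fun_prop)),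
      integral_add (cint _ (by fun_prop)) (cint _ (by fun_prop)),
      integral_add (cint _ (by fun_prop)) (cint _ (by fun_prop))] at h
    simp only [integral_const_mul, e, add_comm l k] at h
    linarith
  refine ⟨by simpa using key 0, ?_⟩
  have := discrim_le_zero key
  rw [discrim] at this
  nlinarith

theorem cor_seq (hρ : Continuous ρ) (b : ℝ) {m : ℕ} (hL : L = 2 * m) {σ : (Link n L → G) → A}
    (hσ : Continuous σ) (y : Site n L) (hp : 0 < ∫ U, cor ρ σ y 0 U ∂(nu μ ρ (n + 1) L b)) {l : ℝ}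
    {j k : ℕ} (hj : 1 ≤ j) (hjk : j ≤ k) (hk : k ≤ m)
    (h : (∫ U, cor ρ σ y 0 U ∂(nu μ ρ (n + 1) L b)) * Real.exp (-(l * j)) ≤
      ∫ U, cor ρ σ y (j + j) U ∂(nu μ ρ (n + 1) L b)) :
    (∫ U, cor ρ σ y 0 U ∂(nu μ ρ (n + 1) L b)) * Real.exp (-(l * k)) ≤
      ∫ U, cor ρ σ y (k + k) U ∂(nu μ ρ (n + 1) L b) :=
  seq_conv (c := fun k => ∫ U, cor ρ σ y (k + k) U ∂(nu μ ρ (n + 1) L b))
    (fun _ hk => (cor_conv ρ μ hρ b hL hσ y hk hk).1) (fun k hk => by
      have := (cor_conv ρ μ hρ b hL hσ y (k := k) (by omega) hk).2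
      rwa [show k + (k + 2) = k + 1 + (k + 1) by ring] at this) hp hj hjk hk h

theorem cor_gap (hρ : Continuous ρ) (b : ℝ) {σ : (Link n L → G) → A} (hσ : Continuous σ)
    (y : Site n L) :
    2 * ((∫ U, cor ρ σ y 0 U ∂(nu μ ρ (n + 1) L b)) - ∫ U, cor ρ σ y 1 U ∂(nu μ ρ (n + 1) L b)) =
      ∫ U, ‖σ (sl U 0) - ρ (tm U 0 0) * σ (sl U 1) * star (ρ (tm U 0 y) : A)‖ ^ 2
        ∂(nu μ ρ (n + 1) L b) := by
  have hc := continuous_rho ρ hρ
  have c0 := continuous_cor ρ hρ hσ y
  have cs := continuous_shift (G := G) (st (1 : ZMod L) (0 : Site n L))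
  have e : ∀ U, ‖σ (sl U 0) - ρ (tm U 0 0) * σ (sl U 1) * star (ρ (tm U 0 y) : A)‖ ^ 2 =
      cor ρ σ y 0 U - 2 * cor ρ σ y 1 U + cor ρ σ y 0 (shift (st 1 0) U) := fun U => by
    rw [norm_sub_sq_real, norm_mul_unit (Unitary.star_mem (ρ _).2), norm_unit_mul (ρ _).2]
    simp only [cor, line, rho_one, star_one, one_mul, mul_one, Nat.cast_zero, Nat.cast_one,
      sl_shift, zero_add, real_inner_self_eq_norm_sq, tm, Pi.single_zero, add_zero]
  simp only [e]
  rw [integral_add (cint _ (by fun_prop)) (cint _ (by fun_prop)),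
    integral_sub (cint _ (by fun_prop)) (cint _ (by fun_prop)), integral_const_mul,
    int_mp (nu_shift μ ρ hρ b _) (c0 0)]
  ring

end Pool.Agent.Lib.MP_7f377f_mp.Coul
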