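import Pool.Agent.Lib.MP_7f377f_mp.WeakDefs

/-! Rectangular Wilson loops and the lattice Coulomb potential: definitions. -/

namespace Pool.Agent.Lib.MP_7f377f_mp.Coul

open Real

variable {d L N : ℕ} {G : Type} [Group G]

/-- parallel transport along `k` steps in direction `i` starting at `x` -/
def line (U : (Fin d → ZMod L) × Fin d → G) (x : Fin d → ZMod L) (i : Fin d) : ℕ → G
  | 0 => 1
  | k + 1 => line U x i k * U (x + Pi.single i (k : ZMod L), i)

/-- normalised Wilson loop of the `R × T` rectangle at the origin in the directions `i`, `j` -/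
noncomputable def wilson (ρ : G →* Matrix.unitaryGroup (Fin N) ℂ) (i j : Fin d) (R T : ℕ)
    (U : (Fin d → ZMod L) × Fin d → G) : ℝ :=
  (ρ (line U 0 i R * line U (Pi.single i R) j T * (line U (Pi.single j T) i R)⁻¹ *
    (line U 0 j T)⁻¹)).1.trace.re / N

/-- the lattice Coulomb potential difference `G(0) - G(R e)` on `ℤ^n` -/
noncomputable def pot (n : ℕ) (i0 : Fin n) (R : ℕ) : ℝ :=
  (∫ k in Set.Icc (fun _ => -π) (fun _ => π),
    (1 - cos (R * k i0)) / ∑ i : Fin n, 2 * (1 - cos (k i))) / (2 * π) ^ n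

end Pool.Agent.Lib.MP_7f377f_mp.Coul
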