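import Pool.Agent.Lib.MP_7f377f_mp.WeakRP

/-! The comb gauge on the torus. -/

namespace Pool.Agent.Lib.MP_7f377f_mp.Weak

set_option linter.unusedSectionVars false

variable {d L : ℕ} [NeZero L] [NeZero d]

theorem vma_cast {z : ℤ} (h1 : -(L : ℤ) < z * 2) (h2 : z * 2 ≤ L) :
    ((z : ZMod L)).valMinAbs = z := (ZMod.valMinAbs_spec _ _).mpr ⟨rfl, h1, h2⟩

theorem vma_add_one (x : ZMod L) (h : (x.valMinAbs + 1) * 2 ≤ L) :
    (x + 1).valMinAbs = x.valMinAbs + 1 := by
  have := (ZMod.valMinAbs_mem_Ioc x).1
  refine (ZMod.valMinAbs_spec _ _).mpr ⟨by simp, by omega, h⟩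

theorem vma_sub_one (x : ZMod L) (h : -(L : ℤ) < (x.valMinAbs - 1) * 2) :
    (x - 1).valMinAbs = x.valMinAbs - 1 := by
  have := (ZMod.valMinAbs_mem_Ioc x).2
  refine (ZMod.valMinAbs_spec _ _).mpr ⟨by simp, h, by omega⟩

/-- graph distance to the origin -/
def ht (x : Site d L) : ℕ := ∑ k, (x k).valMinAbs.natAbs

/-- first non-zero coordinate -/
noncomputable def ix (x : Site d L) : Fin d :=
  Classical.epsilon fun k => x k ≠ 0 ∧ ∀ j < k, x j = 0

theorem ix_spec {x : Site d L} (hx : x ≠ 0) : x (ix x) ≠ 0 ∧ ∀ j < ix x, x j = 0 := by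
  refine Classical.epsilon_spec (p := fun k => x k ≠ 0 ∧ ∀ j < k, x j = 0) ?_
  obtain ⟨k, hk, h⟩ := wellFounded_lt.has_min {k | x k ≠ 0} (Function.ne_iff.mp hx)
  exact ⟨k, hk, fun j hj => by_contra fun h' => h j h' hj⟩

theorem ix_eq {x : Site d L} {k : Fin d} (h1 : x k ≠ 0) (h2 : ∀ j < k, x j = 0) : ix x = k := by
  have := ix_spec (x := x) (fun h => h1 (by simp [h]))
  rcases lt_trichotomy (ix x) k with h | h | h
  · exact absurd (h2 _ h) this.1
  · exact h
  · exact absurd (this.2 _ h) h1

/-- the last step of the comb path is a forward step -/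
def fwd (x : Site d L) : Prop := 0 < (x (ix x)).valMinAbs

noncomputable instance (x : Site d L) : Decidable (fwd x) := Classical.dec _

/-- parent in the comb -/
noncomputable def par (x : Site d L) : Site d L :=
  if fwd x then x - Pi.single (ix x) 1 else x + Pi.single (ix x) 1

/-- link to the parent -/
noncomputable def plink (x : Site d L) : Link d L := (if fwd x then par x else x, ix x)

theorem neg_of_not_fwd {x : Site d L} (hx : x ≠ 0) (h : ¬ fwd x) : (x (ix x)).valMinAbs < 0 := by
  have : (x (ix x)).valMinAbs ≠ 0 := fun h => (ix_spec hx).1 ((ZMod.valMinAbs_eq_zero _).mp h)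
  unfold fwd at h
  omega

theorem par_ne {x : Site d L} {j : Fin d} (h : j ≠ ix x) : par x j = x j := by
  unfold par; split_ifs <;> simp [h]

theorem par_vma {x : Site d L} (hx : x ≠ 0) : (par x (ix x)).valMinAbs =
    if fwd x then (x (ix x)).valMinAbs - 1 else (x (ix x)).valMinAbs + 1 := by
  have hL := NeZero.pos L
  unfold par
  split_ifs with h
  · rw [Pi.sub_apply, Pi.single_eq_same, vma_sub_one]
    unfold fwd at h
    omega
  · rw [Pi.add_apply, Pi.single_eq_same, vma_add_one]
    have := neg_of_not_fwd hx h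
    omega

theorem par_natAbs {x : Site d L} (hx : x ≠ 0) :
    (par x (ix x)).valMinAbs.natAbs + 1 = (x (ix x)).valMinAbs.natAbs := by
  rw [par_vma hx]
  split_ifs with h
  · unfold fwd at h; omega
  · have := neg_of_not_fwd hx h; omega

theorem ht_par {x : Site d L} (hx : x ≠ 0) : ht (par x) + 1 = ht x := by
  unfold ht
  rw [← Finset.add_sum_erase _ _ (Finset.mem_univ (ix x)),
    ← Finset.add_sum_erase _ _ (Finset.mem_univ (ix x)), ← par_natAbs hx,
    Finset.sum_congr rfl fun j hj => by rw [par_ne (Finset.ne_of_mem_erase hj)]]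
  ring

theorem site_induction {P : Site d L → Prop} (h0 : P 0) (h : ∀ x, x ≠ 0 → P (par x) → P x)
    (x : Site d L) : P x := by
  induction hn : ht x using Nat.strong_induction_on generalizing x with
  | _ n ih =>
    by_cases hx : x = 0
    · rw [hx]; exact h0
    · exact h x hx (ih _ (by rw [← hn, ← ht_par hx]; omega) _ rfl)

/-- parallel transport along the comb -/
noncomputable def cmb {d L : ℕ} [NeZero L] [NeZero d] {M : Type} [Monoid M] (iv : M → M)
    (U : Link d L → M) (x : Site d L) : M :=
  if x = 0 then 1 else cmb iv U (par x) * if fwd x then U (plink x) else iv (U (plink x))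
termination_by ht x
decreasing_by
  have := ht_par ‹_›
  omega

theorem cmb_zero {M : Type} [Monoid M] (iv : M → M) (U : Link d L → M) : cmb iv U 0 = 1 := by
  rw [cmb, if_pos rfl]

theorem cmb_step {M : Type} [Monoid M] (iv : M → M) (U : Link d L → M) {x : Site d L}
    (hx : x ≠ 0) :
    cmb iv U x = cmb iv U (par x) * if fwd x then U (plink x) else iv (U (plink x)) := by
  rw [cmb, if_neg hx]

theorem cmb_congr {M : Type} [Monoid M] (iv : M → M) (U V : Link d L → M) (x : Site d L) :
    (∀ y, y ≠ 0 → ht y ≤ ht x → U (plink y) = V (plink y)) → cmb iv U x = cmb iv V x := by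
  induction x using site_induction with
  | h0 => intro _; rw [cmb_zero, cmb_zero]
  | h x hx ih =>
    intro h
    have := ht_par hx
    rw [cmb_step iv U hx, cmb_step iv V hx, ih fun y hy h' => h y hy (by omega), h x hx le_rfl]

theorem plink_fwd {x : Site d L} (h : fwd x) :
    (plink x).1 = par x ∧ par x + Pi.single (ix x) 1 = x := by
  simp [plink, par, h]

theorem plink_bwd {x : Site d L} (h : ¬ fwd x) :
    (plink x).1 = x ∧ x + Pi.single (ix x) 1 = par x := by
  simp [plink, par, h]

/-- links traversed backwards by the comb -/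
def rev (e : Link d L) : Prop := e.1 ≠ 0 ∧ ¬ fwd e.1 ∧ e.2 = ix e.1

noncomputable instance (e : Link d L) : Decidable (rev e) := Classical.dec _

theorem not_rev_plink {x : Site d L} (hx : x ≠ 0) (h : fwd x) : ¬ rev (plink x) := by
  rintro ⟨h1, h2, h3⟩
  rw [(plink_fwd h).1] at h1 h2 h3
  have h4 := neg_of_not_fwd h1 h2
  have h5 : ix x = ix (par x) := h3
  rw [← h5, par_vma hx, if_pos h] at h4
  unfold fwd at h
  omega

theorem rev_plink {x : Site d L} (hx : x ≠ 0) (h : ¬ fwd x) : rev (plink x) := by
  unfold rev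
  rw [(plink_bwd h).1]
  exact ⟨hx, h, rfl⟩

theorem rev_eq {e : Link d L} (h : rev e) : plink e.1 = e :=
  Prod.ext (plink_bwd h.2.1).1 h.2.2.symm

/-- height of a link -/
noncomputable def Ht (e : Link d L) : ℕ := if rev e then ht e.1 - 1 else ht e.1

theorem Ht_plink {x : Site d L} (hx : x ≠ 0) : Ht (plink x) + 1 = ht x := by
  have := ht_par hx
  unfold Ht
  by_cases h : fwd x
  · rw [if_neg (not_rev_plink hx h), (plink_fwd h).1, this]
  · rw [if_pos (rev_plink hx h), (plink_bwd h).1]; omega

theorem plink_inj {x y : Site d L} (hx : x ≠ 0) (hy : y ≠ 0) (h : plink x = plink y) : x = y := by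
  have h2 : ix x = ix y := congrArg Prod.snd h
  have h1 := congrArg Prod.fst h
  by_cases a : fwd x <;> by_cases b : fwd y
  · rw [(plink_fwd a).1, (plink_fwd b).1] at h1
    rw [← (plink_fwd a).2, ← (plink_fwd b).2, h1, h2]
  · exact absurd (h ▸ rev_plink hy b) (not_rev_plink hx a)
  · exact absurd (h ▸ rev_plink hx a) (not_rev_plink hy b)
  · rwa [(plink_bwd a).1, (plink_bwd b).1] at h1

variable {G : Type} [Group G]

/-- gauge transformation -/
def gauge (h : Site d L → G) (U : Link d L → G) : Link d L → G :=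
  fun e => h e.1 * U e * (h (e.1 + Pi.single e.2 1))⁻¹

theorem hol_gauge (h : Site d L → G) (U : Link d L → G) (x : Site d L) (i j : Fin d) :
    hol (gauge h U) x i j = h x * hol U x i j * (h x)⁻¹ := by
  simp only [hol, gauge, add_right_comm x (Pi.single i 1) (Pi.single j 1)]
  group

theorem cmb_gauge (h : Site d L → G) (U : Link d L → G) (x : Site d L) :
    cmb Inv.inv (gauge h U) x = h 0 * cmb Inv.inv U x * (h x)⁻¹ := by
  induction x using site_induction with
  | h0 => rw [cmb_zero, cmb_zero]; group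
  | h x hx ih =>
    rw [cmb_step _ _ hx, cmb_step _ _ hx, ih]
    have e : (plink x).2 = ix x := rfl
    split_ifs with a
    · simp only [gauge, e, (plink_fwd a).1, (plink_fwd a).2]; group
    · simp only [gauge, e, (plink_bwd a).1, (plink_bwd a).2]; group

/-- the configuration in the comb gauge -/
noncomputable def fix (U : Link d L → G) : Link d L → G := gauge (cmb Inv.inv U) U

theorem fix_plink (U : Link d L → G) {x : Site d L} (hx : x ≠ 0) : fix U (plink x) = 1 := by
  have e : (plink x).2 = ix x := rfl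
  have := cmb_step Inv.inv U hx
  by_cases a : fwd x
  · rw [if_pos a] at this
    simp only [fix, gauge, e, (plink_fwd a).1, (plink_fwd a).2, this]; group
  · rw [if_neg a] at this
    simp only [fix, gauge, e, (plink_bwd a).1, (plink_bwd a).2, this]; group

theorem continuous_cmb [TopologicalSpace G] [IsTopologicalGroup G] (x : Site d L) :
    Continuous fun U : Link d L → G => cmb Inv.inv U x := by
  induction x using site_induction with
  | h0 => simp only [cmb_zero]; exact continuous_const
  | h x hx ih =>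
    simp only [cmb_step _ _ hx]
    split_ifs <;> fun_prop

theorem continuous_fix [TopologicalSpace G] [IsTopologicalGroup G] :
    Continuous fun U : Link d L → G => fix U := by
  refine continuous_pi fun e => ?_
  have := continuous_cmb (G := G) e.1
  have := continuous_cmb (G := G) (e.1 + Pi.single e.2 1)
  simp only [fix, gauge]
  fun_prop

/-- the cube of radius `M` around the origin -/
def inBox (M : ℕ) (x : Site d L) : Prop := ∀ k, (x k).valMinAbs.natAbs ≤ M

theorem inBox_par {M : ℕ} {x : Site d L} (hx : x ≠ 0) (h : inBox M x) : inBox M (par x) := by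
  intro k
  by_cases hk : k = ix x
  · have := par_natAbs hx
    have := h k
    rw [hk] at this ⊢
    omega
  · rw [par_ne hk]; exact h k

theorem ht_le {M : ℕ} {x : Site d L} (h : inBox M x) : ht x ≤ d * M := by
  have := Finset.sum_le_card_nsmul Finset.univ (fun k => (x k).valMinAbs.natAbs) M fun k _ => h k
  simpa [ht] using this

theorem fix_tree (U : Link d L → G) (x : Site d L) (i : Fin d) (h1 : ∀ j < i, x j = 0)
    (h2 : 0 ≤ (x i).valMinAbs) (h3 : ((x i).valMinAbs + 1) * 2 ≤ L) : fix U (x, i) = 1 := by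
  have e : ((x + Pi.single i 1 : Site d L) i).valMinAbs = (x i).valMinAbs + 1 := by
    rw [Pi.add_apply, Pi.single_eq_same, vma_add_one _ h3]
  have n0 : (x + Pi.single i 1 : Site d L) i ≠ 0 := fun h => by
    rw [h, ZMod.valMinAbs_zero] at e; omega
  have hi : ix (x + Pi.single i 1) = i := ix_eq n0 fun j hj => by simp [h1 j hj, hj.ne]
  have hf : fwd (x + Pi.single i 1) := by unfold fwd; rw [hi, e]; omega
  have := fix_plink U (x := x + Pi.single i 1) fun h => n0 (by rw [h]; rfl)
  simpa [plink, par, hf, hi] using this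

variable {A : Type} [NormedRing A] [StarRing A] [NormedAlgebra ℝ A] [HS A] (ρ : G →* unitary A)

theorem cmb_rho (U : Link d L → G) (x : Site d L) :
    cmb star (fun e => (ρ (U e) : A)) x = ρ (cmb Inv.inv U x) := by
  induction x using site_induction with
  | h0 => rw [cmb_zero, cmb_zero, rho_one]
  | h x hx ih =>
    rw [cmb_step _ _ hx, cmb_step _ _ hx, ih, rho_mul]
    split_ifs
    · rfl
    · rw [rho_inv]

theorem norm_conj (h g : G) : ‖(ρ (h * g * h⁻¹) : A) - 1‖ = ‖(ρ g : A) - 1‖ :=
  (pow_left_inj₀ (norm_nonneg _) (norm_nonneg _) two_ne_zero).mp (qq_conj ρ h g)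

/-- in the comb gauge links are small if the plaquettes are -/
theorem fix_small {M : ℕ} (hM : (M + 1) * 2 ≤ L) (U : Link d L → G) {η : ℝ} (hη : 0 ≤ η)
    (h : ∀ y, inBox M y → ∀ i j, ‖(ρ (hol U y i j) : A) - 1‖ ≤ η) (x : Site d L) :
    inBox M x → ∀ i, ‖(ρ (fix U (x, i)) : A) - 1‖ ≤ ht x * η := by
  have triv : ∀ (x : Site d L) i, fix U (x, i) = 1 → ‖(ρ (fix U (x, i)) : A) - 1‖ ≤ ht x * η := by
    intro x i h
    rw [h, rho_one, sub_self, norm_zero]; positivity
  have h' : ∀ y, inBox M y → ∀ i j, ‖(ρ (hol (fix U) y i j) : A) - 1‖ ≤ η := by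
    intro y hy i j
    rw [fix, hol_gauge, norm_conj]
    exact h y hy i j
  induction x using site_induction with
  | h0 => exact fun _ i => triv _ _ (fix_tree U 0 i (by simp) (by simp) (by simp; omega))
  | h x hx ih =>
    intro hb i
    have hs := ix_spec hx
    rcases lt_trichotomy i (ix x) with hi | hi | hi
    · refine triv _ _ (fix_tree U x i (fun j hj => hs.2 j (hj.trans hi)) ?_ ?_) <;>
        rw [hs.2 i hi] <;> simp
      omega
    · by_cases a : fwd x
      · refine triv _ _ (fix_tree U x i (fun j hj => hs.2 j (hi ▸ hj)) ?_ ?_)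
        · rw [hi]; exact le_of_lt a
        · have := hb i; omega
      · refine triv _ _ ?_
        have := fix_plink U hx
        rwa [plink, if_neg a, ← hi] at this
    · have e : (x + Pi.single i 1 : Site d L) (ix x) = x (ix x) := by simp [hi.ne]
      have hi' : ix (x + Pi.single i 1) = ix x :=
        ix_eq (by rw [e]; exact hs.1) fun j hj => by simp [hs.2 j hj, (hj.trans hi).ne]
      have hf : fwd (x + Pi.single i 1) ↔ fwd x := by unfold fwd; rw [hi', e]
      have t1 := fix_plink U hx
      have t2 := fix_plink U (x := x + Pi.single i 1) fun h => hs.1 (by rw [← e, h]; rfl)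
      have ihi := ih (inBox_par hx hb) i
      have hht : (ht x : ℝ) = ht (par x) + 1 := by rw [← ht_par hx]; push_cast; rfl
      by_cases a : fwd x
      · have p1 : plink x = (par x, ix x) := by simp [plink, a]
        have p2 : plink (x + Pi.single i 1) = (par x + Pi.single i 1, ix x) := by
          simp only [plink, par, hf, a, if_true, hi']
          congr 1
          abel
        have key : fix U (x, i) = hol (fix U) (par x) (ix x) i * fix U (par x, i) := by
          rw [p1] at t1
          rw [p2] at t2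
          simp only [hol, t1, t2, (plink_fwd a).2]; group
        rw [key, rho_mul, hht]
        refine (norm_mul_sub_one_le (ρ _).2 _).trans ?_
        have := h' _ (inBox_par hx hb) (ix x) i
        linarith
      · have p1 : plink x = (x, ix x) := by simp [plink, a]
        have p2 : plink (x + Pi.single i 1) = (x + Pi.single i 1, ix x) := by
          simp only [plink, hf, a, if_false, hi']
        have key : fix U (x, i) = hol (fix U) x i (ix x) * fix U (par x, i) := by
          rw [p1] at t1
          rw [p2] at t2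
          simp only [hol, t1, t2, (plink_bwd a).2]; group
        rw [key, rho_mul, hht]
        refine (norm_mul_sub_one_le (ρ _).2 _).trans ?_
        have := h' _ hb i (ix x)
        linarith

theorem axis_pos (k : Fin d) (s : ℕ) (hs : (s + 1) * 2 ≤ L) :
    (Pi.single k ((s + 1 : ℕ) : ZMod L) : Site d L) ≠ 0 ∧
    fwd (Pi.single k ((s + 1 : ℕ) : ZMod L) : Site d L) ∧
    par (Pi.single k ((s + 1 : ℕ) : ZMod L) : Site d L) = Pi.single k (s : ZMod L) ∧
    plink (Pi.single k ((s + 1 : ℕ) : ZMod L) : Site d L) = (Pi.single k (s : ZMod L), k) := by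
  have e : ((s + 1 : ℕ) : ZMod L).valMinAbs = s + 1 := by
    have := vma_cast (L := L) (z := s + 1) (by omega) (by omega)
    simpa using this
  have n0 : (Pi.single k ((s + 1 : ℕ) : ZMod L) : Site d L) k ≠ 0 := fun h => by
    rw [Pi.single_eq_same] at h
    rw [h, ZMod.valMinAbs_zero] at e; omega
  have hi : ix (Pi.single k ((s + 1 : ℕ) : ZMod L) : Site d L) = k :=
    ix_eq n0 fun j hj => by simp [hj.ne]
  have hf : fwd (Pi.single k ((s + 1 : ℕ) : ZMod L) : Site d L) := by
    unfold fwd; rw [hi, Pi.single_eq_same, e]; omega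
  have hp : par (Pi.single k ((s + 1 : ℕ) : ZMod L) : Site d L) = Pi.single k (s : ZMod L) := by
    rw [par, if_pos hf, hi, ← Pi.single_sub]; simp
  exact ⟨fun h => n0 (by rw [h]; rfl), hf, hp, by rw [plink, if_pos hf, hp, hi]⟩

theorem axis_neg (k : Fin d) (s : ℕ) (hs : (s + 1) * 2 < L) :
    (Pi.single k (-((s + 1 : ℕ) : ZMod L)) : Site d L) ≠ 0 ∧
    ¬ fwd (Pi.single k (-((s + 1 : ℕ) : ZMod L)) : Site d L) ∧
    par (Pi.single k (-((s + 1 : ℕ) : ZMod L)) : Site d L) = Pi.single k (-(s : ZMod L)) ∧
    plink (Pi.single k (-((s + 1 : ℕ) : ZMod L)) : Site d L) =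
      (Pi.single k (-((s + 1 : ℕ) : ZMod L)), k) := by
  have e : (-((s + 1 : ℕ) : ZMod L)).valMinAbs = -(s + 1) := by
    have := vma_cast (L := L) (z := -(s + 1)) (by omega) (by omega)
    simpa using this
  have n0 : (Pi.single k (-((s + 1 : ℕ) : ZMod L)) : Site d L) k ≠ 0 := fun h => by
    rw [Pi.single_eq_same] at h
    rw [h, ZMod.valMinAbs_zero] at e; omega
  have hi : ix (Pi.single k (-((s + 1 : ℕ) : ZMod L)) : Site d L) = k :=
    ix_eq n0 fun j hj => by simp [hj.ne]
  have hf : ¬ fwd (Pi.single k (-((s + 1 : ℕ) : ZMod L)) : Site d L) := by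
    unfold fwd; rw [hi, Pi.single_eq_same, e]; omega
  have hp : par (Pi.single k (-((s + 1 : ℕ) : ZMod L)) : Site d L) =
      Pi.single k (-(s : ZMod L)) := by
    rw [par, if_neg hf, hi, ← Pi.single_add]; simp
  exact ⟨fun h => n0 (by rw [h]; rfl), hf, hp, by rw [plink, if_neg hf, hi]⟩

theorem rc_axis (k : Fin d) (s : ℕ) : rc k (Pi.single k (s : ZMod L) : Site d L) =
    Pi.single k (-((s + 1 : ℕ) : ZMod L)) := by
  funext l
  by_cases h : l = k
  · simp [rc, rf, h]; ring
  · simp [rc, rf, h]

theorem cmb_refl_axis (k : Fin d) (U : Link d L → G) (s : ℕ) (hs : s * 2 < L) :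
    cmb Inv.inv (refl k U) (Pi.single k (s : ZMod L)) =
      cmb Inv.inv U (Pi.single k (-(s : ZMod L))) := by
  induction s with
  | zero => simp [cmb_zero]
  | succ s ih =>
    obtain ⟨a1, a2, a3, a4⟩ := axis_pos (L := L) k s hs.le
    obtain ⟨b1, b2, b3, b4⟩ := axis_neg (L := L) k s hs
    rw [cmb_step _ _ a1, cmb_step _ _ b1, if_pos a2, if_neg b2, a3, a4, b3, b4, ih (by omega)]
    simp only [refl, rl, if_true, rc_axis]

theorem cmb_dep_axis {m : ℕ} (hL : L = 2 * m) (k : Fin d) (s : ℕ) (hs : s ≤ m) :
    Dep m k fun U : Link d L → G => cmb Inv.inv U (Pi.single k (s : ZMod L)) := by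
  induction s with
  | zero => intro U V _; simp [cmb_zero]
  | succ s ih =>
    intro U V h
    obtain ⟨a1, a2, a3, a4⟩ := axis_pos (L := L) k s (by omega)
    have h1 := ih (by omega) U V h
    have e : ((Pi.single k (s : ZMod L) : Site d L) k).val = s := by
      rw [Pi.single_eq_same, ZMod.val_cast_of_lt (by omega)]
    have h2 := h (Pi.single k (s : ZMod L), k) ⟨by simp only [e]; omega, fun _ => by
      simp only [e]; omega⟩
    simp only at h1 ⊢
    rw [cmb_step _ _ a1, cmb_step _ _ a1, if_pos a2, if_pos a2, a3, a4, h1, h2]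

/-- the plaquette next to the mirror image, seen in the comb gauge -/
theorem lasso_refl_axis {k j : Fin d} (hj : j ≠ k) (U : Link d L → G) (s : ℕ)
    (hs : (s + 1) * 2 < L) :
    hol (fix (refl k U)) (Pi.single k (s : ZMod L)) k j =
      (hol (fix U) (Pi.single k (-((s + 1 : ℕ) : ZMod L))) k j)⁻¹ := by
  obtain ⟨b1, b2, b3, b4⟩ := axis_neg (L := L) k s hs
  rw [fix, fix, hol_gauge, hol_gauge, cmb_refl_axis k U s (by omega), hol_refl_eq hj, rc_axis,
    cmb_step _ _ b1, if_neg b2, b3, b4]
  group

theorem lasso_dep_axis {m : ℕ} (hL : L = 2 * m) (k j : Fin d) (s : ℕ) (hs : s < m) :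
    Dep m k fun U : Link d L → G => hol (fix U) (Pi.single k (s : ZMod L)) k j := by
  intro U V h
  have e : ((Pi.single k (s : ZMod L) : Site d L) k).val = s := by
    rw [Pi.single_eq_same, ZMod.val_cast_of_lt (by omega)]
  have h1 := cmb_dep_axis hL k s hs.le U V h
  have h2 := dep_hol hL k k j (Pi.single k (s : ZMod L)) (by omega) (fun _ => by omega) U V h
  simp only at h1 h2 ⊢
  rw [fix, fix, hol_gauge, hol_gauge, h1, h2]

end Pool.Agent.Lib.MP_7f377f_mp.Weak
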