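import Pool.Agent.Lib.MP_7f377f_mp.CoulSlab
import Pool.Agent.Lib.MP_7f377f_mp.WeakComb

/-! Smeared strings: second order expansion. -/

namespace Pool.Agent.Lib.MP_7f377f_mp.Coul

open Weak
open scoped InnerProductSpace

set_option linter.unusedSectionVars false
set_option maxHeartbeats 400000

variable {A : Type} [NormedRing A] [StarRing A] [NormedAlgebra ℝ A] [HS A]

theorem norm_flow_le {Ed : Type} [Fintype Ed] (J : Ed → ℝ) {f : Ed → A} {B j : ℝ} (hB : 0 ≤ B)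
    (hj : ∑ e, |J e| ≤ j) (h : ∀ e, J e ≠ 0 → ‖f e‖ ≤ B) : ‖∑ e, J e • f e‖ ≤ j * B := by
  refine (norm_sum_le _ _).trans (le_trans ?_ (mul_le_mul_of_nonneg_right hj hB))
  rw [Finset.sum_mul]
  refine Finset.sum_le_sum fun e _ => ?_
  by_cases he : J e = 0
  · simp [he]
  · rw [norm_smul, Real.norm_eq_abs]
    exact mul_le_mul_of_nonneg_left (h e he) (abs_nonneg _)

theorem edge_exp {p v u r : A} (hp : p ∈ unitary A) (hv : v ∈ unitary A) (hu : u ∈ unitary A)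
    (hr : r ∈ unitary A) {ε : ℝ} (h1 : ‖p - 1‖ ≤ ε) (h2 : ‖v - 1‖ ≤ ε) (h3 : ‖u - 1‖ ≤ ε)
    (h4 : ‖r - 1‖ ≤ ε) : ‖p * v * u * star r - 1‖ ≤ 4 * ε ∧
      ‖(p * v * u * star r - 1) - (p - r) - (v - 1) - (u - 1)‖ ≤ 7 * ε ^ 2 := by
  have e0 : 0 ≤ ε := (norm_nonneg _).trans h1
  have h5 : ‖star r - 1‖ ≤ ε := by rwa [norm_star_sub_one]
  have a1 : ‖p * v - 1‖ ≤ 2 * ε := by linarith [norm_mul_sub_one_le hp v]
  have a2 : ‖p * v * u - 1‖ ≤ 3 * ε := by linarith [norm_mul_sub_one_le (mul_mem hp hv) u]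
  refine ⟨by linarith [norm_mul_sub_one_le (mul_mem (mul_mem hp hv) hu) (star r)], ?_⟩
  have e : (p * v * u * star r - 1) - (p - r) - (v - 1) - (u - 1) = (p - 1) * (v - 1) +
      (p * v - 1) * (u - 1) + (p * v * u - 1) * (star r - 1) - (star r - 1) * (r - 1) := by
    rw [sub_mul (star r), mul_sub (star r), hr.1]
    noncomm_ring
  have b : ∀ {x y : A} {c : ℝ}, ‖x‖ ≤ c * ε → ‖y‖ ≤ ε → ‖x * y‖ ≤ c * ε ^ 2 := fun hx hy =>
    (norm_mul_le _ _).trans ((mul_le_mul hx hy (norm_nonneg _) ((norm_nonneg _).trans hx)).trans_eq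
      (by ring))
  rw [e]
  refine (norm_sub_le _ _).trans ?_
  linarith [norm_add₃_le (a := (p - 1) * (v - 1)) (b := (p * v - 1) * (u - 1))
    (c := (p * v * u - 1) * (star r - 1)), b (c := 1) (by simpa using h1) h2, b a1 h3, b a2 h5,
    b (c := 1) (by simpa using h5) h4]

variable {G : Type} [Group G] (ρ : G →* unitary A) {V Ed : Type} [Fintype Ed] (s t : Ed → V)
  (J : Ed → ℝ) (y : V)

/-- the smeared string -/
noncomputable def smr (h : V → G) (a : Ed → G) : A :=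
  (1 + ∑ e, J e • ((ρ (h (s e) * a e * (h (t e))⁻¹) : A) - 1)) * ρ (h y)

/-- the smeared electric field -/
noncomputable def elc (h : V → G) (a c : Ed → G) : A :=
  ∑ e, J e • ((ρ (h (s e) * (c e * (a e)⁻¹) * (h (s e))⁻¹) : A) - 1)

theorem smear {x : V} (hdiv : ∀ f : V → A, ∑ e, J e • (f (s e) - f (t e)) = f x - f y) {j C ε : ℝ}
    (hj : ∑ e, |J e| ≤ j) (hC : 0 ≤ C) (hε : 0 ≤ ε)
    (hP : ∀ g, ‖((ρ g : A) - 1) - (lieAlg ρ).starProjection ((ρ g : A) - 1)‖ ≤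
      C * ‖(ρ g : A) - 1‖ ^ 2) (h k : V → G) (a c : Ed → G) (hx : k x = h x)
    (hy : ‖(ρ (k y * (h y)⁻¹) : A) - 1‖ ≤ ε)
    (he : ∀ e, J e ≠ 0 → ‖(ρ (h (s e) * a e * (h (t e))⁻¹) : A) - 1‖ ≤ ε ∧
      ‖(ρ (c e * (a e)⁻¹) : A) - 1‖ ≤ ε ∧ ‖(ρ (k (s e) * (h (s e))⁻¹) : A) - 1‖ ≤ ε ∧
      ‖(ρ (k (t e) * (h (t e))⁻¹) : A) - 1‖ ≤ ε) :
    ‖smr ρ s t J y h a - smr ρ s t J y k c‖ ^ 2 ≤
      ⟪(lieAlg ρ).starProjection (elc ρ s J h a c), elc ρ s J k a c⟫_ℝ +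
        ((11 + C) * j * (5 * j + 1) + 13 * j ^ 2) * ε ^ 3 := by
  have j0 : 0 ≤ j := (Finset.sum_nonneg fun _ _ => abs_nonneg _).trans hj
  set r : V → A := fun z => ρ (k z * (h z)⁻¹) with hr
  set u : Ed → A := fun e => ρ (h (s e) * a e * (h (t e))⁻¹) with hu
  set v : Ed → A := fun e => ρ (h (s e) * (c e * (a e)⁻¹) * (h (s e))⁻¹) with hv
  have hv' : ∀ e, J e ≠ 0 → ‖v e - 1‖ ≤ ε := fun e h0 => by
    rw [hv, norm_conj]; exact (he e h0).2.1
  have e1 : ∀ e, (ρ (k (s e) * c e * (k (t e))⁻¹) : A) = r (s e) * v e * u e * star (r (t e)) := by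
    intro e
    simp only [hr, hu, hv, ← rho_inv, ← rho_mul]
    congr 2
    group
  have e2 : ∀ e, (ρ (k (s e) * (c e * (a e)⁻¹) * (k (s e))⁻¹) : A) =
      r (s e) * v e * star (r (s e)) := by
    intro e
    simp only [hr, hv, ← rho_inv, ← rho_mul]
    congr 2
    group
  have ee := fun e (h0 : J e ≠ 0) => edge_exp (p := r (s e)) (v := v e) (u := u e) (r := r (t e))
    (ρ _).2 (ρ _).2 (ρ _).2 (ρ _).2 (he e h0).2.2.1 (hv' e h0) (he e h0).1 (he e h0).2.2.2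
  set Qk := ∑ e, J e • (r (s e) * v e * u e * star (r (t e)) - 1) with hQk
  set Qh := ∑ e, J e • (u e - 1) with hQh
  set X := elc ρ s J h a c with hX
  set X' := elc ρ s J k a c with hX'
  have n1 : ‖Qk‖ ≤ j * (4 * ε) := norm_flow_le J (by positivity) hj fun e h0 => (ee e h0).1
  have n2 : ‖Qh‖ ≤ j * ε := norm_flow_le J hε hj fun e h0 => (he e h0).1
  have n3 : ‖X‖ ≤ j * ε := norm_flow_le J hε hj hv'
  have n4 : ‖Qk - (1 - r y) - X - Qh‖ ≤ j * (7 * ε ^ 2) := by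
    have := norm_flow_le J (by positivity) hj fun e h0 => (ee e h0).2
    simp only [smul_sub _ (_ - _), Finset.sum_sub_distrib] at this
    rw [hdiv r, show r x = 1 by simp only [hr, hx, mul_inv_cancel, rho_one]] at this
    exact this
  have n5 : ‖X' - X‖ ≤ j * (2 * ε ^ 2) := by
    rw [hX, hX', elc, elc, ← Finset.sum_sub_distrib]
    simp only [← smul_sub, e2]
    refine norm_flow_le J (by positivity) hj fun e h0 => ?_
    have := norm_conj_sub (w := r (s e)) (ρ _).2 (v e - 1)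
    rw [mul_sub, sub_mul, mul_one, rho_mul_star] at this
    refine this.trans ?_
    nlinarith [mul_le_mul (hv' e h0) (he e h0).2.2.1 (norm_nonneg _) hε]
  have n6 : ‖X - (lieAlg ρ).starProjection X‖ ≤ j * (C * ε ^ 2) := by
    rw [hX, elc, map_sum, ← Finset.sum_sub_distrib]
    simp only [map_smul, ← smul_sub]
    exact norm_flow_le J (by positivity) hj fun e h0 => (hP _).trans
      (mul_le_mul_of_nonneg_left (pow_le_pow_left₀ (norm_nonneg _) (hv' e h0) 2) hC)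
  have n7 := ((lieAlg ρ).norm_starProjection_apply_le X).trans n3
  set D := (1 + Qk) * r y - (1 + Qh) with hD
  have e3 : ‖smr ρ s t J y h a - smr ρ s t J y k c‖ = ‖D‖ := by
    rw [norm_sub_rev, ← norm_mul_unit (ρ (h y)).2 D, hD, sub_mul, mul_assoc, hr, ← rho_mul,
      inv_mul_cancel_right]
    simp only [smr, e1]
    rfl
  have n8 : ‖D - X‖ ≤ 11 * j * ε ^ 2 := by
    have : D - X = Qk * (r y - 1) + (Qk - (1 - r y) - X - Qh) := by rw [hD]; noncomm_ring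
    rw [this]
    have := (norm_mul_le Qk (r y - 1)).trans (mul_le_mul n1 hy (norm_nonneg _) (by positivity))
    linarith [norm_add_le (Qk * (r y - 1)) (Qk - (1 - r y) - X - Qh)]
  have n9 : ‖D‖ ≤ (5 * j + 1) * ε := by
    have : D = Qk * r y + (r y - 1) - Qh := by rw [hD]; noncomm_ring
    rw [this]
    have h1 : ‖Qk * r y‖ = ‖Qk‖ := norm_mul_unit (ρ _).2 _
    linarith [norm_sub_le (Qk * r y + (r y - 1)) Qh, norm_add_le (Qk * r y) (r y - 1)]
  rw [e3]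
  generalize (lieAlg ρ).starProjection X = P at *
  have m1 : ‖D - P‖ ≤ (11 + C) * j * ε ^ 2 := by linarith [norm_sub_le_norm_sub_add_norm_sub D X P]
  have m2 : ‖D - X'‖ ≤ 13 * j * ε ^ 2 := by
    linarith [norm_sub_le_norm_sub_add_norm_sub D X X', norm_sub_rev X X']
  have m3 := (real_inner_le_norm (D - P) D).trans (mul_le_mul m1 n9 (norm_nonneg _) (by positivity))
  have m4 := (real_inner_le_norm P (D - X')).trans
    (mul_le_mul n7 m2 (norm_nonneg _) (by positivity))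
  rw [inner_sub_left, real_inner_self_eq_norm_sq] at m3
  rw [inner_sub_right] at m4
  linarith

theorem smr_sub {j ε : ℝ} (hj : ∑ e, |J e| ≤ j) (hε : 0 ≤ ε) (h : V → G) (a : Ed → G)
    (he : ∀ e, J e ≠ 0 → ‖(ρ (h (s e) * a e * (h (t e))⁻¹) : A) - 1‖ ≤ ε) :
    ‖smr ρ s t J y h a - ρ (h y)‖ ≤ j * ε := by
  rw [smr, add_mul, one_mul, add_sub_cancel_left, norm_mul_unit (ρ _).2]
  exact norm_flow_le J hε hj he

end Pool.Agent.Lib.MP_7f377f_mp.Coul
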