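import Pool.Agent.Lib.MP_7f377f_mp.CoulConv
import Pool.Agent.Lib.MP_7f377f_mp.CoulSmear

/-! Energy of the smeared string. -/

namespace Pool.Agent.Lib.MP_7f377f_mp.Coul

open Weak MeasureTheory
open scoped InnerProductSpace

set_option linter.unusedSectionVars false
set_option maxHeartbeats 400000

variable {A : Type} [NormedRing A] [StarRing A] [NormedAlgebra ℝ A] [HS A]
variable {n L : ℕ} {G : Type} [Group G] [NeZero L] (ρ : G →* unitary A)

theorem sum_lift {B : Type} [AddCommMonoid B] {M : ℕ} (hM : (M + 1) * 2 ≤ L)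
    {S : Finset (Fin n → ℤ)} (hS : ∀ z ∈ S, ∀ i, |z i| < M) (g : Site n L → Fin n → B) :
    ∑ e : Link n L, (if lift e.1 ∈ S then g e.1 e.2 else 0) =
      ∑ z ∈ S, ∑ i, g (fun l => z l) i := by
  have h1 : ∀ z ∈ S, lift (L := L) (fun l => (z l : ZMod L)) = z := fun z hz => funext fun l => by
    have := abs_lt.mp (hS z hz l)
    exact (ZMod.valMinAbs_spec _ _).mpr ⟨rfl, by omega, by omega⟩
  have h2 : ∀ y : Site n L, (fun l => ((lift y l : ℤ) : ZMod L)) = y := fun y => by
    funext l; simp [lift]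
  rw [Fintype.sum_prod_type]
  simp only [Finset.sum_ite_irrel, Finset.sum_const_zero]
  rw [← Finset.sum_filter]
  exact Finset.sum_nbij' lift (fun z l => z l) (fun y hy => (Finset.mem_filter.mp hy).2)
    (fun z hz => by simp [h1 z hz, hz]) (fun y _ => h2 y) h1 fun y _ => by rw [h2]

theorem torus_flow {M : ℕ} (hM : (M + 1) * 2 ≤ L) {S : Finset (Fin n → ℤ)}
    (hS : ∀ z ∈ S, ∀ i, |z i| < M) (J : (Fin n → ℤ) → Fin n → ℝ) (i0 : Fin n) (R : ℕ)
    (hdiv : ∀ f : (Fin n → ℤ) → A,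
      ∑ z ∈ S, ∑ i, J z i • (f z - f (z + Pi.single i 1)) = f 0 - f (Pi.single i0 (R : ℤ))) :
    ∃ I : Link n L → ℝ, (∀ e, I e ≠ 0 → inBox M e.1 ∧ inBox M (e.1 + Pi.single e.2 1 : Site n L)) ∧
      ∑ e, |I e| = ∑ z ∈ S, ∑ i, |J z i| ∧ ∑ e, I e ^ 2 = ∑ z ∈ S, ∑ i, J z i ^ 2 ∧
      ∀ f : Site n L → A, ∑ e, I e • (f e.1 - f (e.1 + Pi.single e.2 1)) =
        f 0 - f (Pi.single i0 R) := by
  have h1 : ∀ z ∈ S, lift (L := L) (fun l => (z l : ZMod L)) = z := fun z hz => funext fun l => by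
    have := abs_lt.mp (hS z hz l)
    exact (ZMod.valMinAbs_spec _ _).mpr ⟨rfl, by omega, by omega⟩
  refine ⟨fun e => if lift e.1 ∈ S then J (lift e.1) e.2 else 0, fun e he => ?_, ?_, ?_,
    fun f => ?_⟩
  · have h : lift e.1 ∈ S := by by_contra h; simp [h] at he
    have h2 := fun l => abs_lt.mp (hS _ h l)
    refine ⟨fun l => by have := h2 l; simp only [lift] at this; omega, fun l => ?_⟩
    rcases lift_succ hM e.1 e.2 with h' | h'
    · have h3 := congrFun h' l
      have := h2 l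
      rw [Pi.add_apply, Pi.single_apply] at h3
      simp only [lift] at h3 this
      split_ifs at h3 <;> omega
    · linarith [hS _ h e.2]
  · simp only [apply_ite abs, abs_zero]
    rw [sum_lift hM hS fun y i => |J (lift y) i|]
    exact Finset.sum_congr rfl fun z hz => by rw [h1 z hz]
  · simp only [ite_pow, zero_pow two_ne_zero]
    rw [sum_lift hM hS fun y i => J (lift y) i ^ 2]
    exact Finset.sum_congr rfl fun z hz => by rw [h1 z hz]
  · simp only [ite_smul, zero_smul]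
    refine (sum_lift hM hS fun y i => J (lift y) i • (f y - f (y + Pi.single i 1))).trans ?_
    have e : ∀ (i : Fin n) (c : ℤ), (fun l => ((Pi.single i c : Fin n → ℤ) l : ZMod L)) =
        Pi.single i (c : ZMod L) := fun i c => funext fun l => by
      by_cases h : l = i <;> simp [h]
    have := hdiv fun z => f fun l => z l
    simp only [e, Pi.zero_apply, Int.cast_zero, Int.cast_natCast] at this
    rw [← show (fun _ => 0 : Site n L) = 0 from rfl, ← this]
    refine Finset.sum_congr rfl fun z hz => Finset.sum_congr rfl fun i _ => ?_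
    rw [h1 z hz, ← Int.cast_one, ← e]
    simp only [Pi.add_def, Int.cast_add]

variable [NeZero n]

theorem cmb_diff {M : ℕ} (a c : Link n L → G) {η : ℝ}
    (h : ∀ e, inBox M e.1 → ‖(ρ (c e * (a e)⁻¹) : A) - 1‖ ≤ η) (x : Site n L) :
    inBox M x → ‖(ρ (cmb Inv.inv c x * (cmb Inv.inv a x)⁻¹) : A) - 1‖ ≤ ht x * η := by
  induction x using site_induction with
  | h0 => intro _; simp [cmb_zero, ht]
  | h x hx ih =>
    intro hb
    have hp := inBox_par hx hb
    have hht : (ht x : ℝ) = ht (par x) + 1 := by rw [← ht_par hx]; push_cast; rfl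
    have key : ∀ u v : G, ‖(ρ (u * v⁻¹) : A) - 1‖ ≤ η → ‖(ρ (cmb Inv.inv c (par x) * u *
        (cmb Inv.inv a (par x) * v)⁻¹) : A) - 1‖ ≤ ht x * η := by
      intro u v huv
      have : cmb Inv.inv c (par x) * u * (cmb Inv.inv a (par x) * v)⁻¹ =
          (cmb Inv.inv c (par x) * (u * v⁻¹) * (cmb Inv.inv c (par x))⁻¹) *
            (cmb Inv.inv c (par x) * (cmb Inv.inv a (par x))⁻¹) := by group
      rw [this, rho_mul, hht]
      refine (norm_mul_sub_one_le (ρ _).2 _).trans ?_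
      rw [norm_conj]
      linarith [ih hp]
    rw [cmb_step _ _ hx, cmb_step _ _ hx]
    split_ifs with hf
    · exact key _ _ (h _ (by rw [(plink_fwd hf).1]; exact hp))
    · refine key _ _ (le_of_eq_of_le ?_ (h (plink x) (by rw [(plink_bwd hf).1]; exact hb)))
      rw [← norm_conj ρ (c (plink x)), ← norm_star_sub_one, ← rho_inv]
      congr 4
      group

/-- the smeared string on the torus -/
noncomputable def sms (I : Link n L → ℝ) (y : Site n L) (a : Link n L → G) : A :=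
  smr ρ (fun e => e.1) (fun e => e.1 + Pi.single e.2 1) I y (cmb Inv.inv a) a

theorem sms_gauge (I : Link n L → ℝ) (y : Site n L) (g : Site n L → G) (a : Link n L → G) :
    sms ρ I y (Weak.gauge g a) = ρ (g 0) * sms ρ I y a * star (ρ (g y) : A) := by
  have : ∀ e : Link n L, (ρ (cmb Inv.inv (Weak.gauge g a) e.1 * Weak.gauge g a e *
      (cmb Inv.inv (Weak.gauge g a) (e.1 + Pi.single e.2 1))⁻¹) : A) - 1 = ρ (g 0) *
      (ρ (cmb Inv.inv a e.1 * a e * (cmb Inv.inv a (e.1 + Pi.single e.2 1))⁻¹) - 1) *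
        star (ρ (g 0) : A) := by
    intro e
    rw [mul_sub, sub_mul, mul_one, rho_mul_star, ← rho_inv, ← rho_mul, ← rho_mul, cmb_gauge,
      cmb_gauge, Weak.gauge]
    congr 3
    group
  simp only [sms, smr, this]
  simp only [← smul_mul_assoc _ (_ * _), ← mul_smul_comm, ← Finset.sum_mul, ← Finset.mul_sum]
  simp only [cmb_gauge,
    rho_mul ρ _ (g y)⁻¹, rho_mul ρ (g 0), rho_inv, add_mul, mul_add, one_mul, mul_assoc]
  rw [← mul_assoc (star (ρ (g 0) : A)), rho_star_mul, one_mul]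

theorem sms_sub {M : ℕ} (hM : (M + 1) * 2 ≤ L) {I : Link n L → ℝ} {j : ℝ} (hj : ∑ e, |I e| ≤ j)
    (hI : ∀ e, I e ≠ 0 → inBox M e.1) (y : Site n L) (U : Link (n + 1) L → G) (t : ZMod L) :
    ‖sms ρ I y (sl U t) - ρ (cmb Inv.inv (sl U t) y)‖ ≤ j * (n * M * loc ρ M U t) := by
  have := loc_nonneg ρ M U t
  refine smr_sub ρ _ _ I y hj (by positivity) _ _ fun e he => ?_
  have := fix_le ρ hM U t 1 (hI e he)
  rwa [gauge_one] at this

theorem sms_norm {I : Link n L → ℝ} {j : ℝ} (hj : ∑ e, |I e| ≤ j) (y : Site n L)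
    (a : Link n L → G) : ‖sms ρ I y a‖ ≤ (2 * j + 1) * ‖(1 : A)‖ := by
  have h := smr_sub ρ (fun e => e.1) (fun e => e.1 + Pi.single e.2 1) I y hj
    (ε := 2 * ‖(1 : A)‖) (by positivity) (cmb Inv.inv a) a fun e _ =>
      (norm_sub_le _ _).trans (by rw [norm_unit (ρ _).2]; linarith)
  have := norm_le_norm_add_norm_sub' (sms ρ I y a) (ρ (cmb Inv.inv a y))
  rw [norm_unit (ρ _).2] at this
  unfold sms at *
  linarith

variable [TopologicalSpace G] [IsTopologicalGroup G] [CompactSpace G]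
  [SecondCountableTopology G] [MeasurableSpace G] [BorelSpace G] (μ : Measure G)
  [μ.IsHaarMeasure] [IsProbabilityMeasure μ]

theorem continuous_sms (hρ : Continuous ρ) (I : Link n L → ℝ) (y : Site n L) :
    Continuous (sms ρ I y) := by
  have hc := continuous_rho ρ hρ
  have := continuous_cmb (G := G) (d := n) (L := L)
  unfold sms smr
  fun_prop

variable {ι : Type} [Fintype ι] [DecidableEq ι] {T : ι → A} {C : ℝ}

theorem gap_le (hρ : Continuous ρ) (hT : Frame ρ T C)
    (hproj : ∀ v, (lieAlg ρ).starProjection v = ∑ α, ⟪T α, v⟫_ℝ • T α) {C' : ℝ} (hC' : 0 ≤ C')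
    (hP : ∀ g, ‖((ρ g : A) - 1) - (lieAlg ρ).starProjection ((ρ g : A) - 1)‖ ≤
      C' * ‖(ρ g : A) - 1‖ ^ 2) (hL : Even L) (hL4 : 4 ≤ L) {b : ℝ} (hb : 0 < b) {M : ℕ}
    (hM : (M + 1) * 2 ≤ L) {I : Link n L → ℝ} {j : ℝ} (hj : ∑ e, |I e| ≤ j)
    (hI : ∀ e, I e ≠ 0 → inBox M e.1 ∧ inBox M (e.1 + Pi.single e.2 1 : Site n L)) {y : Site n L}
    (hy : inBox M y)
    (hdiv : ∀ f : Site n L → A, ∑ e, I e • (f e.1 - f (e.1 + Pi.single e.2 1)) = f 0 - f y) :
    2 * ((∫ U, cor ρ (sms ρ I y) y 0 U ∂(nu μ ρ (n + 1) L b)) -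
      ∫ U, cor ρ (sms ρ I y) y 1 U ∂(nu μ ρ (n + 1) L b)) ≤
      Fintype.card ι * (∑ e, I e ^ 2) / (4 * b) + ((11 + C') * j * (5 * j + 1) + 13 * j ^ 2) *
        (1 + n * M) ^ 3 * ∫ U, loc ρ M U 0 ^ 3 ∂(nu μ ρ (n + 1) L b) := by
  have := nu_prob (d := n + 1) (L := L) μ ρ hρ b
  have hc := continuous_rho ρ hρ
  have cc := continuous_cmb (G := G) (d := n) (L := L)
  have cl := continuous_loc (n := n) (L := L) ρ hρ M
  have cs := continuous_sms ρ hρ I y
  set η : ι → (Link n L → G) → Link n L → A := fun α a e =>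
    I e • (star (ρ (cmb Inv.inv a e.1) : A) * T α * ρ (cmb Inv.inv a e.1) * ρ (a e)) with hη
  have cη : ∀ α, Continuous (η α) := fun α => by simp only [hη]; fun_prop
  set p : ι → (Link (n + 1) L → G) → ℝ := fun α U =>
    dot (fun e => (ρ (sl U 0 e) : A)) (η α (Weak.gauge (tm U 0) (sl U 1))) *
      dot (η α (sl U 0)) fun e => ρ (Weak.gauge (tm U 0) (sl U 1) e) with hp
  have cp : ∀ α, Continuous (p α) := fun α => by simp only [hp, dot]; fun_prop
  have h1 : ∀ α, -∫ U, p α U ∂(nu μ ρ (n + 1) L b) ≤ (∑ e, I e ^ 2) / (4 * b) := by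
    intro α
    have h := (gauss_dom ρ μ hρ hL hL4 hb (cη α)).trans (integral_mono
      (g := fun U => 4 * b * p α U + ∑ e, I e ^ 2) (cint _ (by simp only [dot]; fun_prop))
      (cint _ (by fun_prop)) fun U => add_le_add le_rfl (Finset.sum_le_sum fun e _ =>
        (real_inner_le_norm _ _).trans_eq (by
          simp only [hη, norm_smul, norm_mul_unit (ρ _).2, norm_unit_mul (Unitary.star_mem (ρ _).2),
            hT.norm, mul_one, Real.norm_eq_abs, abs_mul_abs_self, sq])))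
    rw [integral_add (cint _ (by fun_prop)) (integrable_const _), integral_const_mul] at h
    simp only [integral_const, probReal_univ, one_smul] at h
    rw [le_div_iff₀ (by positivity)]
    linarith
  have one : ∀ α, ⟪T α, (1 : A)⟫_ℝ = 0 := fun α => by
    rw [inner_def, mul_one, HS.tr_star, tr_skew (hT.skew α)]
  have h2 : ∀ U, ‖sms ρ I y (sl U 0) - ρ (tm U 0 0) * sms ρ I y (sl U 1) *
      star (ρ (tm U 0 y) : A)‖ ^ 2 ≤ -∑ α, p α U + ((11 + C') * j * (5 * j + 1) + 13 * j ^ 2) *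
        (1 + n * M) ^ 3 * loc ρ M U 0 ^ 3 := by
    intro U
    have l0 := loc_nonneg ρ M U 0
    have t1 : ∀ e, inBox M e.1 →
        ‖(ρ (Weak.gauge (tm U 0) (sl U 1) e * (sl U 0 e)⁻¹) : A) - 1‖ ≤ loc ρ M U 0 := by
      intro e he
      have := le_loc ρ U 0 he 0 e.2.succ
      rwa [hol_tm, zero_add] at this
    have t2 : ∀ z, inBox M z → ‖(ρ (cmb Inv.inv (Weak.gauge (tm U 0) (sl U 1)) z *
        (cmb Inv.inv (sl U 0) z)⁻¹) : A) - 1‖ ≤ (1 + n * M) * loc ρ M U 0 := fun z hz =>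
      (cmb_diff ρ _ _ t1 z hz).trans (mul_le_mul_of_nonneg_right (by
        have : (ht z : ℝ) ≤ n * M := by exact_mod_cast ht_le hz
        linarith) l0)
    have l1 : 0 ≤ n * M * loc ρ M U 0 := by positivity
    rw [← sms_gauge, mul_assoc _ (_ ^ 3), ← mul_pow]
    refine (smear ρ _ _ I y hdiv hj hC' (by positivity) hP _ _ _ _ (by rw [cmb_zero, cmb_zero])
      (t2 y hy) fun e he => ⟨?_, ?_, t2 _ (hI e he).1, t2 _ (hI e he).2⟩).trans (le_of_eq ?_)
    · have := fix_le ρ hM U 0 1 (hI e he).1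
      rw [gauge_one] at this
      exact this.trans (by linarith)
    · exact (t1 e (hI e he).1).trans (by linarith)
    · congr 1
      rw [hproj, sum_inner, ← Finset.sum_neg_distrib]
      refine Finset.sum_congr rfl fun α _ => ?_
      rw [real_inner_smul_left, hp, mul_comm, ← neg_mul]
      simp only [elc, dot, hη, inner_sum, inner_smul_right, real_inner_smul_left, inner_sub_right,
        one, sub_zero, ← Finset.sum_neg_distrib, ← mul_neg]
      congr 1 <;> refine Finset.sum_congr rfl fun e _ => ?_ <;> congr 1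
      · rw [inner_def, inner_def, hT.skew, neg_mul, map_neg, neg_inj]
        simp only [rho_mul, rho_inv, mul_assoc]
        rw [HS.tr_mul_comm (star _), mul_assoc, HS.tr_mul_comm (star _)]
        simp only [mul_assoc]
      · rw [inner_mul_right, inner_mul_right, inner_mul_left, star_star]
        simp only [rho_mul, rho_inv, mul_assoc]
  rw [cor_gap ρ μ hρ b cs]
  refine (integral_mono (cint _ (by fun_prop)) (cint _ (by fun_prop)) h2).trans ?_
  rw [integral_add (cint _ (by fun_prop)) (cint _ (by fun_prop)), integral_const_mul, integral_neg,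
    integral_finsetSum _ fun α _ => cint _ (cp α), ← Finset.sum_neg_distrib]
  have := Finset.sum_le_card_nsmul Finset.univ _ _ fun α _ => h1 α
  rw [nsmul_eq_mul, Finset.card_univ, ← mul_div_assoc] at this
  linarith

theorem cor_sub (hρ : Continuous ρ) (b : ℝ) {M : ℕ} (hM : (M + 1) * 2 ≤ L) {I : Link n L → ℝ}
    {j : ℝ} (hj : ∑ e, |I e| ≤ j) (hI : ∀ e, I e ≠ 0 → inBox M e.1) (y : Site n L) {B : ℝ}
    (hB : ∀ t, ∫ U, loc ρ M U t ∂(nu μ ρ (n + 1) L b) ≤ B) (k : ℕ) :
    |(∫ U, cor ρ (sms ρ I y) y k U ∂(nu μ ρ (n + 1) L b)) -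
      ∫ U, cor ρ (fun a => ρ (cmb Inv.inv a y)) y k U ∂(nu μ ρ (n + 1) L b)| ≤
      (2 * j + 2) * ‖(1 : A)‖ * (j * (n * M)) * B := by
  have j0 : 0 ≤ j := (Finset.sum_nonneg fun _ _ => abs_nonneg _).trans hj
  have cl := continuous_loc (n := n) (L := L) ρ hρ M
  have c1 := continuous_cor ρ hρ (continuous_sms ρ hρ I y) y k
  have c2 := continuous_cor ρ hρ (σ := fun a => ρ (cmb Inv.inv a y)) ((continuous_rho ρ hρ).comp
    (continuous_cmb (G := G) (d := n) (L := L) y)) y k
  have h : ∀ U, |cor ρ (sms ρ I y) y k U - cor ρ (fun a => ρ (cmb Inv.inv a y)) y k U| ≤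
      (2 * j + 1) * ‖(1 : A)‖ * (j * (n * M)) * loc ρ M U 0 +
        ‖(1 : A)‖ * (j * (n * M)) * loc ρ M U k := by
    intro U
    have a1 := sms_sub ρ hM hj hI y U 0
    have a2 := sms_sub ρ hM hj hI y U k
    have a3 := sms_norm ρ hj y (sl U k)
    have a4 : ‖(ρ (cmb Inv.inv (sl U 0) y) : A)‖ = ‖(1 : A)‖ := norm_unit (ρ _).2
    simp only [cor]
    generalize sms ρ I y (sl U 0) = p at *
    generalize sms ρ I y (sl U k) = q at *
    generalize (ρ (cmb Inv.inv (sl U 0) y) : A) = p' at *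
    generalize (ρ (cmb Inv.inv (sl U k) y) : A) = q' at *
    have n1 : ∀ z : A, ‖ρ (line U (st 0 0) 0 k) * z * star (ρ (line U (st 0 y) 0 k) : A)‖ = ‖z‖ :=
      fun z => by rw [norm_mul_unit (Unitary.star_mem (ρ _).2), norm_unit_mul (ρ _).2]
    have b1 := abs_real_inner_le_norm (p - p')
      (ρ (line U (st 0 0) 0 k) * q * star (ρ (line U (st 0 y) 0 k) : A))
    have b2 := abs_real_inner_le_norm p'
      (ρ (line U (st 0 0) 0 k) * (q - q') * star (ρ (line U (st 0 y) 0 k) : A))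
    rw [n1, inner_sub_left] at b1
    rw [n1, mul_sub, sub_mul, inner_sub_right, a4] at b2
    have b3 := mul_le_mul a1 a3 (norm_nonneg _) ((norm_nonneg _).trans a1)
    have b4 := mul_le_mul_of_nonneg_left a2 (norm_nonneg (1 : A))
    refine (abs_sub_le _ _ _).trans ((add_le_add b1 b2).trans ?_)
    linarith
  rw [← integral_sub (cint _ c1) (cint _ c2)]
  refine abs_integral_le_integral_abs.trans ((integral_mono (cint _ (c1.sub c2).abs)
    (cint _ (by fun_prop)) h).trans ?_)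
  rw [integral_add (cint _ (by fun_prop)) (cint _ (by fun_prop)), integral_const_mul,
    integral_const_mul]
  have b1 := mul_le_mul_of_nonneg_left (hB 0)
    (show 0 ≤ (2 * j + 1) * ‖(1 : A)‖ * (j * (n * M)) by positivity)
  have b2 := mul_le_mul_of_nonneg_left (hB k) (show 0 ≤ ‖(1 : A)‖ * (j * (n * M)) by positivity)
  linarith

end Pool.Agent.Lib.MP_7f377f_mp.Coul
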