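import Pool.Agent.Lib.MP_7f377f_mp.CoulTime

/-! Positive definiteness of the exponential kernel and of its derivative. -/

namespace Pool.Agent.Lib.MP_7f377f_mp.Coul

open Weak MeasureTheory Filter Topology
open scoped InnerProductSpace

set_option linter.unusedSectionVars false
set_option maxHeartbeats 400000

variable {X : Type} [TopologicalSpace X] [CompactSpace X] [SecondCountableTopology X]
  [MeasurableSpace X] [OpensMeasurableSpace X] (ν : Measure X) [IsFiniteMeasure ν]
  {κ : Type} [Fintype κ] {f : X → ℝ}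

theorem ker_pow_eq (hf : Continuous f) {x y : X → κ → ℝ} (hx : Continuous x) (hy : Continuous y)
    (k : ℕ) : ∫ q : X × X, f q.1 * f q.2 * (∑ i, x q.1 i * y q.2 i) ^ k ∂(ν.prod ν) =
      ∑ p : Fin k → κ, (∫ a, f a * ∏ j, x a (p j) ∂ν) * ∫ a, f a * ∏ j, y a (p j) ∂ν := by
  simp only [← integral_prod_mul]
  rw [← integral_finsetSum _ fun p _ => cint _ (by fun_prop)]
  congr 1
  funext q
  rw [Fintype.sum_pow, Finset.mul_sum]
  refine Finset.sum_congr rfl fun p _ => ?_
  rw [Finset.prod_mul_distrib]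
  ring

theorem ker_tendsto (hf : Continuous f) {u : X × X → ℝ} (hu : Continuous u) :
    Tendsto (fun m => ∑ k ∈ Finset.range m,
      (∫ q : X × X, f q.1 * f q.2 * u q ^ k ∂(ν.prod ν)) / k.factorial) atTop
      (𝓝 (∫ q : X × X, f q.1 * f q.2 * Real.exp (u q) ∂(ν.prod ν))) := by
  have : ∀ m, ∑ k ∈ Finset.range m,
      (∫ q : X × X, f q.1 * f q.2 * u q ^ k ∂(ν.prod ν)) / k.factorial =
      ∫ q : X × X, f q.1 * f q.2 * ∑ k ∈ Finset.range m, u q ^ k / k.factorial ∂(ν.prod ν) := by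
    intro m
    simp only [← integral_div, Finset.mul_sum, mul_div_assoc]
    rw [integral_finsetSum _ fun k _ => cint _ (by fun_prop)]
  simp only [this]
  refine tendsto_integral_of_dominated_convergence (fun q => |f q.1 * f q.2| * Real.exp |u q|)
    (fun m => Continuous.aestronglyMeasurable (by fun_prop)) (cint _ (by fun_prop))
    (fun m => Eventually.of_forall fun q => ?_) (Eventually.of_forall fun q => ?_)
  · rw [Real.norm_eq_abs, abs_mul]
    refine mul_le_mul_of_nonneg_left ((Finset.abs_sum_le_sum_abs _ _).trans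
      (le_of_eq_of_le ?_ (Real.sum_le_exp_of_nonneg (abs_nonneg _) m))) (abs_nonneg _)
    simp only [abs_div, abs_pow, Nat.abs_cast]
  · refine Tendsto.const_mul _ ?_
    rw [Real.exp_eq_exp_ℝ]
    exact (NormedSpace.expSeries_div_hasSum_exp (u q)).tendsto_sum_nat

theorem ker_exp (hf : Continuous f) {x y : X → κ → ℝ} (hx : Continuous x) (hy : Continuous y) :
    ∫ q : X × X, f q.1 * f q.2 * Real.exp (∑ i, x q.1 i * y q.2 i) ∂(ν.prod ν) +
      ∫ q : X × X, f q.1 * f q.2 * Real.exp (∑ i, y q.1 i * x q.2 i) ∂(ν.prod ν) ≤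
    ∫ q : X × X, f q.1 * f q.2 * Real.exp (∑ i, x q.1 i * x q.2 i) ∂(ν.prod ν) +
      ∫ q : X × X, f q.1 * f q.2 * Real.exp (∑ i, y q.1 i * y q.2 i) ∂(ν.prod ν) := by
  refine le_of_tendsto_of_tendsto' ((ker_tendsto ν hf (by fun_prop)).add
    (ker_tendsto ν hf (by fun_prop))) ((ker_tendsto ν hf (by fun_prop)).add
    (ker_tendsto ν hf (by fun_prop))) fun m => ?_
  simp only [← Finset.sum_add_distrib, ← add_div]
  refine Finset.sum_le_sum fun k _ => div_le_div_of_nonneg_right ?_ (by positivity)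
  rw [ker_pow_eq ν hf hx hy, ker_pow_eq ν hf hy hx, ker_pow_eq ν hf hx hx, ker_pow_eq ν hf hy hy,
    ← Finset.sum_add_distrib, ← Finset.sum_add_distrib]
  refine Finset.sum_le_sum fun p _ => ?_
  nlinarith [sq_nonneg ((∫ a, f a * ∏ j, x a (p j) ∂ν) - ∫ a, f a * ∏ j, y a (p j) ∂ν)]

theorem ker_der (hf : Continuous f) {x η : X → κ → ℝ} (hx : Continuous x) (hη : Continuous η) :
    0 ≤ ∫ q : X × X, f q.1 * f q.2 * Real.exp (∑ i, x q.1 i * x q.2 i) *
      ((∑ i, η q.1 i * x q.2 i) * (∑ i, x q.1 i * η q.2 i) + ∑ i, η q.1 i * η q.2 i)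
        ∂(ν.prod ν) := by
  have hE : Continuous (dslope Real.exp 0) := continuousOn_univ.mp
    ((continuousOn_dslope univ_mem).mpr ⟨Real.continuous_exp.continuousOn,
      Real.differentiableAt_exp⟩)
  have hE0 : dslope Real.exp 0 0 = 1 := by simp
  have hE1 : ∀ u, Real.exp u = 1 + u * dslope Real.exp 0 u := fun u => by
    have := sub_smul_dslope Real.exp 0 u
    simp only [sub_zero, smul_eq_mul, Real.exp_zero] at this
    linarith
  generalize dslope Real.exp 0 = E at hE hE0 hE1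
  set F : ℝ → X × X → ℝ := fun s q => f q.1 * f q.2 * Real.exp (∑ i, x q.1 i * x q.2 i) *
    ((∑ i, η q.1 i * x q.2 i) * (∑ i, x q.1 i * η q.2 i) * E (s * ∑ i, η q.1 i * x q.2 i) *
      E (s * ∑ i, x q.1 i * η q.2 i) + Real.exp (s * ∑ i, η q.1 i * x q.2 i) *
      Real.exp (s * ∑ i, x q.1 i * η q.2 i) * (∑ i, η q.1 i * η q.2 i) *
      E (s ^ 2 * ∑ i, η q.1 i * η q.2 i)) with hF
  have cF : Continuous fun s => ∫ q, F s q ∂(ν.prod ν) :=
    cont_int _ (by simp only [hF, Function.uncurry_def]; fun_prop)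
  have key : ∀ s : ℝ, s ≠ 0 → 0 ≤ ∫ q, F s q ∂(ν.prod ν) := by
    intro s hs
    have h := ker_exp ν hf hx (y := fun a i => x a i + s * η a i) (by fun_prop)
    rw [← integral_add (cint _ (by fun_prop)) (cint _ (by fun_prop)),
      ← integral_add (cint _ (by fun_prop)) (cint _ (by fun_prop)), ← sub_nonneg,
      ← integral_sub (cint _ (by fun_prop)) (cint _ (by fun_prop))] at h
    refine nonneg_of_mul_nonneg_right ?_ (show 0 < s ^ 2 by positivity)
    rw [← integral_const_mul]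
    refine h.trans_eq (integral_congr_ae (Eventually.of_forall fun q => ?_))
    have e1 : ∑ i, x q.1 i * (x q.2 i + s * η q.2 i) =
        ∑ i, x q.1 i * x q.2 i + s * ∑ i, x q.1 i * η q.2 i := by
      simp only [Finset.mul_sum, ← Finset.sum_add_distrib]
      exact Finset.sum_congr rfl fun i _ => by ring
    have e2 : ∑ i, (x q.1 i + s * η q.1 i) * x q.2 i =
        ∑ i, x q.1 i * x q.2 i + s * ∑ i, η q.1 i * x q.2 i := by
      simp only [Finset.mul_sum, ← Finset.sum_add_distrib]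
      exact Finset.sum_congr rfl fun i _ => by ring
    have e3 : ∑ i, (x q.1 i + s * η q.1 i) * (x q.2 i + s * η q.2 i) =
        ∑ i, x q.1 i * x q.2 i + s * ∑ i, η q.1 i * x q.2 i + s * ∑ i, x q.1 i * η q.2 i +
          s ^ 2 * ∑ i, η q.1 i * η q.2 i := by
      simp only [Finset.mul_sum, ← Finset.sum_add_distrib]
      exact Finset.sum_congr rfl fun i _ => by ring
    simp only [e1, e2, e3, hF, Real.exp_add]
    rw [hE1 (s * ∑ i, η q.1 i * x q.2 i), hE1 (s * ∑ i, x q.1 i * η q.2 i),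
      hE1 (s ^ 2 * ∑ i, η q.1 i * η q.2 i)]
    ring
  have lim := ge_of_tendsto ((cF.tendsto 0).mono_left (nhdsWithin_le_nhds (s := {0}ᶜ)))
    (eventually_nhdsWithin_of_forall key)
  simpa only [hF, zero_mul, hE0, mul_one, Real.exp_zero, one_mul, zero_pow two_ne_zero] using lim

variable {A : Type} [NormedRing A] [StarRing A] [NormedAlgebra ℝ A] [HS A]

/-- Euclidean inner product of families -/
noncomputable def dot (a b : κ → A) : ℝ := ∑ e, ⟪a e, b e⟫_ℝ

theorem ker_vec (hf : Continuous f) {x η : X → κ → A} (hx : Continuous x) (hη : Continuous η)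
    {β : ℝ} (hβ : 0 < β) :
    0 ≤ ∫ q : X × X, f q.1 * f q.2 * Real.exp (β * dot (x q.1) (x q.2)) *
      (β * (dot (η q.1) (x q.2) * dot (x q.1) (η q.2)) + dot (η q.1) (η q.2)) ∂(ν.prod ν) := by
  set o := stdOrthonormalBasis ℝ A
  have e : ∀ a b : κ → A, ∑ i : κ × Fin (Module.finrank ℝ A),
      √β * ⟪o i.2, a i.1⟫_ℝ * (√β * ⟪o i.2, b i.1⟫_ℝ) = β * dot a b := by
    intro a b
    rw [Fintype.sum_prod_type, dot, Finset.mul_sum]
    refine Finset.sum_congr rfl fun i _ => ?_
    rw [← o.sum_inner_mul_inner, Finset.mul_sum]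
    refine Finset.sum_congr rfl fun j _ => ?_
    rw [mul_mul_mul_comm, Real.mul_self_sqrt hβ.le, real_inner_comm]
  have h := ker_der ν hf (κ := κ × Fin (Module.finrank ℝ A))
    (x := fun a i => √β * ⟪o i.2, x a i.1⟫_ℝ) (η := fun a i => √β * ⟪o i.2, η a i.1⟫_ℝ)
    (by fun_prop) (by fun_prop)
  simp only [e] at h
  refine nonneg_of_mul_nonneg_right ?_ hβ
  rw [← integral_const_mul]
  refine h.trans_eq (integral_congr_ae (Eventually.of_forall fun q => ?_))
  ring

end Pool.Agent.Lib.MP_7f377f_mp.Coul
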