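import Pool.Agent.Lib.MP_7f377f_mp.CoulKer

/-! Link reflection positivity and Gaussian domination for the electric field. -/

namespace Pool.Agent.Lib.MP_7f377f_mp.Coul

open Weak MeasureTheory
open scoped InnerProductSpace

set_option linter.unusedSectionVars false
set_option maxHeartbeats 400000

variable {A : Type} [NormedRing A] [StarRing A] [NormedAlgebra ℝ A] [HS A]
variable {n L : ℕ} {G : Type} [Group G]

theorem rf_st (t : ZMod L) (y : Site n L) : rf 0 (st t y) = st (-t) y := by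
  funext l
  refine Fin.cases ?_ (fun i => ?_) l <;> simp [rf]

theorem rc_st (t : ZMod L) (y : Site n L) : rc 0 (st t y) = st (-t - 1) y := by
  funext l
  refine Fin.cases ?_ (fun i => ?_) l <;> simp [rc, rf]

theorem sl_refl (U : Link (n + 1) L → G) (t : ZMod L) : sl (refl 0 U) t = sl U (-t) := by
  funext e; simp [sl, Weak.refl, rl, rf_st]

theorem tm_refl (U : Link (n + 1) L → G) (t : ZMod L) : tm (refl 0 U) t = (tm U (-t - 1))⁻¹ := by
  funext e; simp [tm, Weak.refl, rl, rc_st]

theorem sl_shift (c : ZMod L) (U : Link (n + 1) L → G) (t : ZMod L) :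
    sl (shift (st c 0) U) t = sl U (t + c) := by
  funext e; simp [sl, shift, st_add]

theorem tm_shift (c : ZMod L) (U : Link (n + 1) L → G) (t : ZMod L) :
    tm (shift (st c 0) U) t = tm U (t + c) := by
  funext e; simp [tm, shift, st_add]

theorem sl_gauge (k : Site (n + 1) L → G) (U : Link (n + 1) L → G) (t : ZMod L) :
    sl (Weak.gauge k U) t = Weak.gauge (fun y => k (st t y)) (sl U t) := by
  funext e; simp [sl, Weak.gauge, single_succ, st_add]

theorem gauge_one' {d : ℕ} (a : Link d L → G) : Weak.gauge (fun _ => 1) a = a := by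
  funext e; simp [Weak.gauge]

variable [NeZero L]

theorem sum_zmod (f : ZMod L → ℝ) : ∑ t, f t = ∑ k ∈ Finset.range L, f k :=
  Finset.sum_nbij' ZMod.val Nat.cast (fun t _ => Finset.mem_range.mpr (ZMod.val_lt t))
    (fun _ _ => Finset.mem_univ _) (fun t _ => ZMod.natCast_zmod_val t)
    (fun _ hk => ZMod.val_cast_of_lt (Finset.mem_range.mp hk))
    fun t _ => by rw [ZMod.natCast_zmod_val]

theorem sum_half {m : ℕ} (hL : L = 2 * m) (f : ZMod L → ℝ) :
    ∑ t, f t = ∑ k ∈ Finset.range m, f k + ∑ k ∈ Finset.range m, f (-k - 1) := by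
  have h0 : ((m : ZMod L) + m) = 0 := by
    rw [← Nat.cast_add, ← two_mul, ← hL, ZMod.natCast_self]
  have := Finset.sum_range_add (fun k : ℕ => f k) m m
  rw [sum_zmod, show Finset.range L = Finset.range (m + m) by rw [hL, two_mul], this,
    ← Finset.sum_range_reflect (fun k : ℕ => f ((m + k : ℕ) : ZMod L))]
  congr 1
  refine Finset.sum_congr rfl fun k hk => congrArg f ?_
  have := Finset.mem_range.mp hk
  rw [Nat.cast_add, Nat.cast_sub (by omega), Nat.cast_sub (by omega)]
  push_cast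
  linear_combination h0

variable (ρ : G →* unitary A)

theorem tq_symm (a : Link n L → G) (g : Site n L → G) (c : Link n L → G) :
    tq ρ c g⁻¹ a = tq ρ a g c := by
  refine Finset.sum_congr rfl fun e _ => ?_
  rw [← qq_inv, ← qq_conj ρ (g e.1)]
  congr 1
  simp only [Weak.gauge, Pi.inv_apply]
  group

theorem tq_one (a c : Link n L → G) : tq ρ a 1 c =
    2 * (∑ _e : Link n L, HS.tr (1 : A) - dot (fun e => (ρ (a e) : A)) fun e => ρ (c e)) := by
  simp only [tq, dot, Weak.gauge, Pi.one_apply, one_mul, inv_one, mul_one, qq_eq, rho_mul, rho_inv,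
    inner_def, ← Finset.sum_sub_distrib, Finset.mul_sum, HS.tr_mul_comm (star _)]

/-- the action of the positive half for the link reflection -/
noncomputable def hact (m : ℕ) (U : Link (n + 1) L → G) : ℝ :=
  ∑ k ∈ Finset.range (m + 1), act ρ (sl U (k + 1)) +
    2 * ∑ k ∈ Finset.range m, tq ρ (sl U (k + 1)) (tm U (k + 1)) (sl U (k + 1 + 1))

/-- link reflection -/
def lr (U : Link (n + 1) L → G) : Link (n + 1) L → G := refl 0 (shift (st 1 0) U)

theorem sl_lr (U : Link (n + 1) L → G) (t : ZMod L) : sl (lr U) t = sl U (-t + 1) := by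
  rw [lr, sl_refl, sl_shift]

theorem tm_lr (U : Link (n + 1) L → G) (t : ZMod L) : tm (lr U) t = (tm U (-t))⁻¹ := by
  rw [lr, tm_refl, tm_shift, sub_add_cancel]

theorem act_lr {m : ℕ} (hL : L = 2 * (m + 1)) (U : Link (n + 1) L → G) :
    act ρ U = hact ρ m U + hact ρ m (lr U) + 2 * tq ρ (sl U 0) (tm U 0) (sl U 1) +
      2 * tq ρ (sl U (m + 1)) (tm U (m + 1)) (sl U (m + 1 + 1)) := by
  have h0 : -(m : ZMod L) - 1 = m + 1 := by
    have : ((2 * (m + 1) : ℕ) : ZMod L) = 0 := by rw [← hL, ZMod.natCast_self]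
    push_cast at this
    linear_combination -this
  rw [act_eq, Finset.sum_add_distrib, ← Finset.mul_sum,
    ← Equiv.sum_comp (Equiv.addRight 1) fun t => act ρ (sl U t), sum_half hL, sum_half hL,
    Finset.sum_range_succ' fun k : ℕ => tq ρ (sl U k) (tm U k) (sl U (k + 1)),
    Finset.sum_range_succ fun k : ℕ => tq ρ (sl U (-k - 1)) (tm U (-k - 1)) (sl U (-k - 1 + 1)), h0]
  simp only [hact, sl_lr, tm_lr, tq_symm, Equiv.coe_addRight, Nat.cast_add, Nat.cast_one,
    Nat.cast_zero, zero_add, neg_add, ← sub_eq_add_neg, sub_add_cancel]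
  ring

theorem sl_merge (P : ZMod L → Prop) [DecidablePred P] (V W : Link (n + 1) L → G) (t : ZMod L) :
    sl (fun e => if P (e.1 0) then V e else W e) t = if P t then sl V t else sl W t := by
  funext e; by_cases h : P t <;> simp [sl, h]

theorem tm_merge (P : ZMod L → Prop) [DecidablePred P] (V W : Link (n + 1) L → G) (t : ZMod L) :
    tm (fun e => if P (e.1 0) then V e else W e) t = if P t then tm V t else tm W t := by
  funext e; by_cases h : P t <;> simp [tm, h]

theorem hact_congr (m : ℕ) {U V : Link (n + 1) L → G}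
    (h1 : ∀ k : ℕ, k ≤ m → sl U (k + 1) = sl V (k + 1))
    (h2 : ∀ k : ℕ, k < m → tm U (k + 1) = tm V (k + 1)) : hact ρ m U = hact ρ m V := by
  unfold hact
  congr 1
  · exact Finset.sum_congr rfl fun k hk => by
      rw [h1 k (Nat.lt_succ_iff.mp (Finset.mem_range.mp hk))]
  · congr 1
    refine Finset.sum_congr rfl fun k hk => ?_
    have := Finset.mem_range.mp hk
    have h3 := h1 (k + 1) this
    push_cast at h3
    rw [h1 k this.le, h2 k this, h3]

variable [TopologicalSpace G] [IsTopologicalGroup G] [CompactSpace G]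
  [SecondCountableTopology G] [MeasurableSpace G] [BorelSpace G] (μ : Measure G)
  [μ.IsHaarMeasure] [IsProbabilityMeasure μ]

theorem int_temporal (hρ : Continuous ρ) {m : ℕ} (hL : L = 2 * (m + 1)) (hm : 0 < m) (b : ℝ)
    {Φ : (Link n L → G) → (Link n L → G) → ℝ} (hΦ : Continuous Φ.uncurry) :
    ∫ U, Φ (sl U 0) (Weak.gauge (tm U 0) (sl U 1)) * Real.exp (-(b * act ρ U))
        ∂(Measure.pi fun _ => μ) =
      ∫ U, Φ (sl U 0) (sl U 1) * Real.exp (-(b * act ρ (put 0 (put ((m : ZMod L) + 1) U 1) 1)))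
        ∂(Measure.pi fun _ => μ) := by
  have hw := continuous_wt (d := n + 1) (L := L) ρ hρ b
  have n1 : (0 : ZMod L) ≠ 1 := by simpa using cast_ne (L := L) (s := 0) (k := 1) one_pos (by omega)
  have n2 : (0 : ZMod L) ≠ m + 1 := by
    simpa using cast_ne (L := L) (s := 0) (k := m + 1) (by omega) (by omega)
  have n3 : (0 : ZMod L) ≠ m + 1 + 1 := by
    simpa using cast_ne (L := L) (s := 0) (k := m + 1 + 1) (by omega) (by omega)
  have n4 : (1 : ZMod L) ≠ m + 1 := by
    simpa using cast_ne (L := L) (s := 1) (k := m + 1) (by omega) (by omega)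
  set k : (Link (n + 1) L → G) → Site (n + 1) L → G := fun U x =>
    if x 0 = 1 then tm U 0 (Fin.tail x) else
      if x 0 = m + 1 + 1 then tm U (m + 1) (Fin.tail x) else 1 with hk
  have ck : Continuous k := continuous_pi fun x => by
    simp only [hk]; split_ifs <;> fun_prop
  have hm := mp_skew μ (fun e : Link (n + 1) L => ¬ (e.2 = 0 ∧ (e.1 0 = 0 ∨ e.1 0 = m + 1)))
    (fun U e => k U e.1) (fun U e => (k U (e.1 + Pi.single e.2 1))⁻¹) (by fun_prop) (by fun_prop)
    fun U V e _ h => by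
      have e1 : tm U 0 = tm V 0 := funext fun y => h _ (by simp)
      have e2 : tm U (m + 1) = tm V (m + 1) := funext fun y => h _ (by simp)
      simp only [hk, e1, e2, and_self]
  have cp : Continuous fun U : Link (n + 1) L → G => put 0 (put ((m : ZMod L) + 1) U 1) 1 := by fun_prop
  have cΦ : Continuous fun U : Link (n + 1) L → G => Φ (sl U 0) (sl U 1) :=
    hΦ.comp (f := fun U : Link (n + 1) L → G => (sl U 0, sl U 1)) (by fun_prop)
  rw [← int_mp hm (F := fun U => Φ (sl U 0) (sl U 1) *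
    Real.exp (-(b * act ρ (put 0 (put ((m : ZMod L) + 1) U 1) 1)))) (cΦ.mul (hw.comp cp))]
  congr 1
  funext U
  have e : put 0 (put ((m : ZMod L) + 1) (fun e : Link (n + 1) L =>
      if ¬ (e.2 = 0 ∧ (e.1 0 = 0 ∨ e.1 0 = m + 1)) then
      k U e.1 * U e * (k U (e.1 + Pi.single e.2 1))⁻¹ else U e) 1) 1 = Weak.gauge (k U) U := by
    funext e
    obtain ⟨x, i⟩ := e
    rw [← st_self x]
    generalize x 0 = t
    generalize Fin.tail x = y
    by_cases h : i = 0 ∧ (t = 0 ∨ t = m + 1)
    · obtain ⟨rfl, rfl | rfl⟩ := h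
      · simp [put, Weak.gauge, hk, single_zero, st_add, n1, n3, tm]
      · simp [put, Weak.gauge, hk, single_zero, st_add, n1.symm, n2.symm, n4.symm, tm]
    · have h1 : ¬ (i = 0 ∧ t = 0) := fun h' => h ⟨h'.1, Or.inl h'.2⟩
      have h2 : ¬ (i = 0 ∧ t = m + 1) := fun h' => h ⟨h'.1, Or.inr h'.2⟩
      simp only [put, st_zero, h1, h2, h, if_false, not_false_eq_true, if_true, Weak.gauge]
  have e1 := fun t => congrArg (sl · t) e
  simp only [sl_put] at e1
  rw [e, e1, e1]
  simp only [sl_gauge, hk, st_zero, tail_st, n1, n3, if_false,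
    if_true, act, hol_gauge, qq_conj, gauge_one']

theorem gauss_dom (hρ : Continuous ρ) (hL : Even L) (hL4 : 4 ≤ L) {b : ℝ} (hb : 0 < b)
    {η : (Link n L → G) → Link n L → A} (hη : Continuous η) :
    0 ≤ ∫ U, (4 * b * (dot (fun e => (ρ (sl U 0 e) : A)) (η (Weak.gauge (tm U 0) (sl U 1))) *
      dot (η (sl U 0)) fun e => ρ (Weak.gauge (tm U 0) (sl U 1) e)) +
      dot (η (sl U 0)) (η (Weak.gauge (tm U 0) (sl U 1)))) ∂(nu μ ρ (n + 1) L b) := by
  obtain ⟨m, hm⟩ : ∃ m, L = 2 * (m + 1) := by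
    obtain ⟨m, hm⟩ := hL
    exact ⟨m - 1, by omega⟩
  have hc := continuous_rho ρ hρ
  have ca := continuous_act (d := n) (L := L) ρ hρ
  have ch : Continuous (hact (n := n) (L := L) ρ m) := by
    have : ∀ s t u, Continuous fun U : Link (n + 1) L → G => tq ρ (sl U s) (tm U t) (sl U u) :=
      fun s t u => continuous_tq ρ hρ (by fun_prop) (by fun_prop) (by fun_prop)
    unfold hact
    fun_prop
  rw [nu_int]
  refine div_nonneg ?_ (ZZ_pos μ ρ hρ b).le
  rw [int_temporal ρ μ hρ hm (by omega) b (Φ := fun a c => 4 * b * (dot (fun e => (ρ (a e) : A))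
    (η c) * dot (η a) fun e => ρ (c e)) + dot (η a) (η c))
    (by simp only [dot, Function.uncurry_def]; fun_prop)]
  set x : (Link (n + 1) L → G) → Link n L ⊕ Link n L → A := fun U =>
    Sum.elim (fun e => ρ (sl U 1 e)) fun e => ρ (sl U (m + 1) e) with hx
  set ζ : (Link (n + 1) L → G) → Link n L ⊕ Link n L → A := fun U =>
    Sum.elim (η (sl U 1)) 0 with hζ
  have cx : Continuous x := continuous_pi fun e => by
    rcases e with e | e <;> simp only [hx, Sum.elim_inl, Sum.elim_inr] <;> fun_prop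
  have cζ : Continuous ζ := continuous_pi fun e => by
    rcases e with e | e <;> simp only [hζ, Sum.elim_inl, Sum.elim_inr] <;> fun_prop
  have key := ker_vec (Measure.pi fun _ : Link (n + 1) L => μ)
    (f := fun U => Real.exp (-(b * hact ρ m U))) (by fun_prop) cx cζ (β := 4 * b) (by positivity)
  set Ξ : (Link (n + 1) L → G) × (Link (n + 1) L → G) → ℝ := fun q =>
    Real.exp (-(b * hact ρ m q.1)) * Real.exp (-(b * hact ρ m q.2)) *
      Real.exp (4 * b * dot (x q.1) (x q.2)) *
      (4 * b * (dot (ζ q.1) (x q.2) * dot (x q.1) (ζ q.2)) + dot (ζ q.1) (ζ q.2)) with hΞ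
  have cΞ : Continuous Ξ := by simp only [hΞ, dot]; fun_prop
  have clr : Continuous (lr (G := G) (n := n) (L := L)) :=
    (continuous_refl 0).comp (continuous_shift _)
  have mlr : MeasurePreserving (lr (G := G) (n := n) (L := L)) _ _ :=
    (mp_refl μ 0).comp (mp_shift μ _)
  rw [integral_prod _ (cint _ cΞ), ← int_mp mlr (cont_int _ (f := fun W V => Ξ (W, V)) cΞ)] at key
  have n2 : (0 : ZMod L) ≠ m + 1 := by
    simpa using cast_ne (L := L) (s := 0) (k := m + 1) (by omega) (by omega)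
  have h0 : -((m : ZMod L) + 1) + 1 = m + 1 + 1 := by
    have : ((2 * (m + 1) : ℕ) : ZMod L) = 0 := by rw [← hm, ZMod.natCast_self]
    push_cast at this
    linear_combination -this
  have e : ∀ U : Link (n + 1) L → G, (4 * b * (dot (fun e => (ρ (sl U 0 e) : A)) (η (sl U 1)) *
      dot (η (sl U 0)) fun e => ρ (sl U 1 e)) + dot (η (sl U 0)) (η (sl U 1))) *
      Real.exp (-(b * act ρ (put 0 (put ((m : ZMod L) + 1) U 1) 1))) =
      Real.exp (-(8 * b * ∑ _e : Link n L, HS.tr (1 : A))) * Ξ (lr U, U) := by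
    intro U
    have v1 : ∀ k : ℕ, k < m → (k : ZMod L) + 1 ≠ 0 ∧ (k : ZMod L) + 1 ≠ m + 1 := fun k hk =>
      ⟨by simpa using (cast_ne (L := L) (s := 0) (k := k + 1) (by omega) (by omega)).symm,
        by simpa using cast_ne (L := L) hk (by omega)⟩
    have e1 : hact ρ m (put 0 (put ((m : ZMod L) + 1) U 1) 1) = hact ρ m U :=
      hact_congr ρ m (fun k _ => by simp) fun k hk => by
        rw [tm_put_ne (v1 k hk).1, tm_put_ne (v1 k hk).2]
    have e2 : hact ρ m (lr (put 0 (put ((m : ZMod L) + 1) U 1) 1)) = hact ρ m (lr U) :=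
      hact_congr ρ m (fun k _ => by simp [sl_lr]) fun k hk => by
        rw [tm_lr, tm_lr, tm_put_ne (neg_ne_zero.mpr (v1 k hk).1), tm_put_ne]
        intro h
        exact (v1 k hk).2 (by linear_combination -h + h0)
    rw [act_lr ρ hm, e1, e2, tm_put, tm_put_ne n2.symm, tm_put, tq_one, tq_one]
    simp only [hΞ, hx, hζ, dot, Fintype.sum_sum_type, Sum.elim_inl, Sum.elim_inr, sl_put, sl_lr,
      neg_add_cancel, h0, Pi.zero_apply, inner_zero_left, inner_zero_right, Finset.sum_const_zero,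
      add_zero]
    rw [← mul_assoc (Real.exp _), ← Real.exp_add, ← Real.exp_add, ← Real.exp_add,
      mul_comm (Real.exp _), Finset.sum_congr rfl fun e _ =>
        real_inner_comm (ρ (sl U (m + 1) e) : A) (ρ (sl U (m + 1 + 1) e) : A)]
    congr 1
    · ring
    · congr 1
      ring
  simp only [e]
  rw [integral_const_mul, int_merge μ (fun e : Link (n + 1) L => 1 ≤ (e.1 0).val ∧
    (e.1 0).val ≤ m + 1) (F := fun U => Ξ (lr U, U)) (by fun_prop)]
  refine mul_nonneg (Real.exp_pos _).le (key.trans_eq ?_)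
  congr 1
  funext W
  congr 1
  funext V
  have p1 : ∀ k : ℕ, k ≤ m → 1 ≤ ((k : ZMod L) + 1).val ∧ ((k : ZMod L) + 1).val ≤ m + 1 := by
    intro k hk
    rw [← Nat.cast_add_one, ZMod.val_cast_of_lt (by omega)]
    omega
  have p2 : ∀ k : ℕ, k ≤ m → ¬ (1 ≤ (-(k : ZMod L)).val ∧ (-(k : ZMod L)).val ≤ m + 1) := by
    intro k hk
    rw [val_neg', ZMod.val_cast_of_lt (by omega)]
    split_ifs <;> omega
  set U : Link (n + 1) L → G := fun e => if 1 ≤ (e.1 0).val ∧ (e.1 0).val ≤ m + 1 then V e else W e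
  have s1 : ∀ k : ℕ, k ≤ m → sl U (k + 1) = sl V (k + 1) := fun k hk =>
    (sl_merge (fun t => 1 ≤ t.val ∧ t.val ≤ m + 1) V W _).trans (if_pos (p1 k hk))
  have s2 : ∀ k : ℕ, k ≤ m → sl (lr U) (k + 1) = sl (lr W) (k + 1) := fun k hk => by
    rw [sl_lr, sl_lr, neg_add, neg_add_cancel_right]
    exact (sl_merge (fun t => 1 ≤ t.val ∧ t.val ≤ m + 1) V W _).trans (if_neg (p2 k hk))
  have s3 := hact_congr ρ m s1 fun k hk =>
    (tm_merge (fun t => 1 ≤ t.val ∧ t.val ≤ m + 1) V W _).trans (if_pos (p1 k hk.le))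
  have s4 := hact_congr ρ m s2 fun k hk => by
    rw [tm_lr, tm_lr, ← Nat.cast_add_one]
    exact congrArg _ ((tm_merge (fun t => 1 ≤ t.val ∧ t.val ≤ m + 1) V W _).trans
      (if_neg (p2 _ hk)))
  have s5 := s1 0 (by omega)
  have s6 := s2 0 (by omega)
  rw [Nat.cast_zero, zero_add] at s5 s6
  simp only [hΞ, hx, hζ, s3, s4, s5, s6, s1 m le_rfl, s2 m le_rfl]

end Pool.Agent.Lib.MP_7f377f_mp.Coul
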