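import Pool.Agent.Lib.MP_7f377f_mp.CoulGap

/-! The lower bound on Wilson loops. -/

namespace Pool.Agent.Lib.MP_7f377f_mp.Coul

open Weak MeasureTheory Filter Topology
open scoped InnerProductSpace

set_option linter.unusedSectionVars false
set_option maxHeartbeats 800000

theorem core {N κ ε β K H : ℝ} {m : ℕ} {a s : ℕ → ℝ} (hN : 0 < N) (hκ : 0 ≤ κ) (hε : 0 < ε)
    (hβ : 2 ≤ β) (s0 : s 0 = N) (hK : ∀ k, |a k - s k| ≤ K) (hH : a 0 - a 1 ≤ H / β) (H0 : 0 ≤ H)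
    (c1 : H < (κ + ε / 2) * (N - K - H / β))
    (c2 : K * (1 + Real.exp (2 * (κ + ε / 2))) ≤ N * ε)
    (c3 : K * (1 + Real.exp (2 * (κ + ε / 2))) ≤ N * (1 - Real.exp (-(ε / 2))))
    (a1 : a 1 ^ 2 ≤ a 0 * a (1 + 1))
    (sa : 0 < a 0 → ∀ (l : ℝ) (j k : ℕ), 1 ≤ j → j ≤ k → k ≤ m →
      a 0 * Real.exp (-(l * j)) ≤ a (j + j) → a 0 * Real.exp (-(l * k)) ≤ a (k + k))
    (ss : 0 < s 0 → ∀ (l : ℝ) (j k : ℕ), 1 ≤ j → j ≤ k → k ≤ m →
      s 0 * Real.exp (-(l * j)) ≤ s (j + j) → s 0 * Real.exp (-(l * k)) ≤ s (k + k))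
    {k : ℕ} (hk : k ≤ m) : (1 - ε) * N * Real.exp (-(κ + ε) * (k + k : ℕ) / β) ≤ s (k + k) := by
  have β0 : 0 < β := by linarith
  have K0 : 0 ≤ K := (abs_nonneg _).trans (hK 0)
  have h0 : N - K ≤ a 0 := by have := (abs_le.mp (hK 0)).1; linarith
  have h1 : N - K - H / β ≤ a 1 := by linarith
  have κ0 : 0 < κ + ε / 2 := by linarith
  have h2 : 0 < N - K - H / β := (mul_pos_iff_of_pos_left κ0).mp (H0.trans_lt c1)
  have h3 : 0 < a 1 := h2.trans_le h1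
  have h4 : 0 < a 0 := by have := div_nonneg H0 β0.le; linarith
  set l := (κ + ε / 2) / β with hl
  have l0 : 0 < l := by positivity
  have h5 : a 0 * Real.exp (-l) ≤ a 1 := by
    rw [Real.exp_neg, mul_inv_le_iff₀ (Real.exp_pos _)]
    have e1 : H / β ≤ l * a 1 := by
      rw [hl, div_mul_eq_mul_div]
      exact div_le_div_of_nonneg_right (c1.le.trans (mul_le_mul_of_nonneg_left h1 κ0.le)) β0.le
    nlinarith [Real.add_one_le_exp l]
  have h6 : ∀ k ≤ m, (N - K) * Real.exp (-(2 * l * k)) ≤ a (k + k) := by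
    intro k hk
    rcases Nat.eq_zero_or_pos k with rfl | hk0
    · simpa using h0
    refine (mul_le_mul_of_nonneg_right h0 (Real.exp_pos _).le).trans (sa h4 _ 1 k le_rfl hk0 hk ?_)
    refine le_of_mul_le_mul_left (le_trans ?_ a1) h4
    have := pow_le_pow_left₀ (by positivity) h5 2
    rw [mul_pow, ← Real.exp_nat_mul] at this
    refine le_of_eq_of_le ?_ this
    rw [← mul_assoc, sq]
    congr 2
    push_cast
    ring
  have h7 : ∀ k ≤ m, (k : ℝ) ≤ β →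
      (N - K * (1 + Real.exp (2 * (κ + ε / 2)))) * Real.exp (-(2 * l * k)) ≤ s (k + k) := by
    intro k hk hkβ
    have e1 : 1 ≤ Real.exp (2 * (κ + ε / 2)) * Real.exp (-(2 * l * k)) := by
      rw [← Real.exp_add]
      refine Real.one_le_exp ?_
      have : l * k ≤ κ + ε / 2 := by
        rw [hl, div_mul_eq_mul_div, div_le_iff₀ β0]
        exact mul_le_mul_of_nonneg_left hkβ κ0.le
      linarith
    have e2 := mul_le_mul_of_nonneg_left e1 K0
    have e3 := (abs_le.mp (hK (k + k))).2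
    linarith [h6 k hk]
  have e : ∀ k : ℕ, -(κ + ε) * (k + k : ℕ) / β = -(2 * l * k) + -(ε * k / β) := fun k => by
    rw [hl]; push_cast; field_simp; ring
  have h8 : ∀ k : ℕ, Real.exp (-(ε * k / β)) ≤ 1 := fun k =>
    Real.exp_le_one_iff.mpr (neg_nonpos.mpr (by positivity))
  by_cases hkβ : (k : ℝ) ≤ β
  · refine le_trans ?_ (h7 k hk hkβ)
    by_cases h : 0 ≤ 1 - ε
    · rw [e, Real.exp_add, mul_comm (Real.exp _), ← mul_assoc]
      refine mul_le_mul_of_nonneg_right ?_ (Real.exp_pos _).le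
      nlinarith [mul_le_mul_of_nonneg_left (h8 k) (mul_nonneg h hN.le)]
    · refine le_trans (mul_nonpos_of_nonpos_of_nonneg (mul_nonpos_of_nonpos_of_nonneg
        (by linarith) hN.le) (Real.exp_pos _).le) (mul_nonneg ?_ (Real.exp_pos _).le)
      nlinarith [Real.exp_pos (-(ε / 2))]
  · have f1 := Nat.floor_le β0.le
    have f2 := Nat.lt_floor_add_one β
    have f3 : ⌊β⌋₊ ≤ k := Nat.floor_le_of_le (not_le.mp hkβ).le
    have f4 : 1 ≤ ⌊β⌋₊ := Nat.le_floor (by push_cast; linarith)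
    have e' : ∀ k : ℕ, -(2 * (κ + ε) / β * k) = -(κ + ε) * (k + k : ℕ) / β := fun k => by
      push_cast; ring
    have := ss (s0 ▸ hN) (2 * (κ + ε) / β) _ k f4 f3 hk (le_trans (by
      rw [e', e, s0, Real.exp_add, mul_comm (Real.exp _), ← mul_assoc]
      refine mul_le_mul_of_nonneg_right ?_ (Real.exp_pos _).le
      have : Real.exp (-(ε * ⌊β⌋₊ / β)) ≤ Real.exp (-(ε / 2)) := by
        rw [Real.exp_le_exp, neg_le_neg_iff, div_le_div_iff₀ two_pos β0]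
        nlinarith
      nlinarith) (h7 _ (f3.trans hk) f1))
    rw [e', s0] at this
    refine le_trans (mul_le_mul_of_nonneg_right ?_ (Real.exp_pos _).le) this
    nlinarith

variable {A : Type} [NormedRing A] [StarRing A] [NormedAlgebra ℝ A] [HS A]
variable {n : ℕ} {G : Type} [Group G] (ρ : G →* unitary A)
variable [TopologicalSpace G] [IsTopologicalGroup G] [CompactSpace G]
  [SecondCountableTopology G] [MeasurableSpace G] [BorelSpace G] (μ : Measure G)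
  [μ.IsHaarMeasure] [IsProbabilityMeasure μ]
variable [NeZero n] {ι : Type} [Fintype ι] [DecidableEq ι] {T : ι → A} {C : ℝ}

theorem lower (hρ : Continuous ρ) (hT : Frame ρ T C) (hC : 0 ≤ C)
    (hproj : ∀ v, (lieAlg ρ).starProjection v = ∑ α, ⟪T α, v⟫_ℝ • T α) (h1 : 0 < ‖(1 : A)‖)
    (i0 : Fin n) (R : ℕ) {ε : ℝ} (hε : 0 < ε) :
    ∀ᶠ β : ℝ in atTop, ∀ (L : ℕ) [NeZero L], Even L → β ≤ L → ∀ k, k + k ≤ L →
      (1 - ε) * ‖(1 : A)‖ ^ 2 * Real.exp (-(C * pot n i0 R + ε) * (k + k : ℕ) / β) ≤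
      ∫ U, cor ρ (fun a => ρ (line a 0 i0 R)) (Pi.single i0 R) (k + k) U
        ∂(nu μ ρ (n + 1) L (β / 4)) := by
  have hc := continuous_rho ρ hρ
  obtain ⟨J, S, hJ, hdiv⟩ := res_flow i0 R (ε := ε / (2 * (C + 1))) (by positivity)
  obtain ⟨M, hM⟩ := exists_radius (insert (Pi.single i0 (R : ℤ)) S)
  have hS : ∀ z ∈ S, ∀ i, |z i| < M := fun z hz => hM z (Finset.mem_insert_of_mem hz)
  obtain ⟨c, -, hc1⟩ := exists_mom ρ μ hρ n
  obtain ⟨C', hC', hP⟩ := lie_tangent ρ hρ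
  have p0 := pot_nonneg i0 R
  have Q0 := QQ_pos n M
  have hD : (Fintype.card ι : ℝ) = C * ‖(1 : A)‖ ^ 2 := by
    rw [← hT.left]; simp [hT.norm]
  obtain ⟨N, hN⟩ : ∃ N, N = ‖(1 : A)‖ ^ 2 := ⟨_, rfl⟩
  have N0 : 0 < N := by rw [hN]; positivity
  obtain ⟨j, hj⟩ : ∃ j, j = ∑ z ∈ S, ∑ i, |J z i| := ⟨_, rfl⟩
  have j0 : 0 ≤ j := by rw [hj]; positivity
  obtain ⟨K₁, hK₁⟩ : ∃ K, K = (2 * j + 2) * ‖(1 : A)‖ * (j * (n * M)) *
    (2 * QQ n M * Real.exp c) := ⟨_, rfl⟩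
  obtain ⟨K₂, hK₂⟩ : ∃ K, K = ((11 + C') * j * (5 * j + 1) + 13 * j ^ 2) * (1 + n * M) ^ 3 *
    (2 * QQ n M ^ 3 * Real.exp c) := ⟨_, rfl⟩
  have K0 : 0 ≤ K₂ := by rw [hK₂]; positivity
  set H : ℝ → ℝ := fun x =>
    (C * N * (2 * pot n i0 R + ε / (2 * (C + 1))) + 2 ^ (n + 4) * K₂ * x) / 2 with hH
  have tx : Tendsto (fun β : ℝ => (√(β / 2 ^ (n + 4)))⁻¹) atTop (𝓝 0) :=
    tendsto_inv_atTop_zero.comp (Real.tendsto_sqrt_atTop.comp
      (tendsto_id.atTop_div_const (by positivity)))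
  have v1 : ∀ᶠ x in 𝓝 (0 : ℝ), H x <
      (C * pot n i0 R + ε / 2) * (N - K₁ * x - H x * (x ^ 2 / 2 ^ (n + 4))) := by
    refine ContinuousAt.eventually_lt (by fun_prop) (by fun_prop) ?_
    have : C * (ε / (2 * (C + 1))) < ε := by
      rw [← mul_div_assoc, div_lt_iff₀ (by positivity)]; nlinarith
    simp only [hH, mul_zero, zero_pow two_ne_zero, zero_div, sub_zero, add_zero]
    linarith [mul_lt_mul_of_pos_left this N0]
  have v2 : ∀ᶠ x in 𝓝 (0 : ℝ),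
      K₁ * x * (1 + Real.exp (2 * (C * pot n i0 R + ε / 2))) < N * ε :=
    ContinuousAt.eventually_lt (by fun_prop) (by fun_prop) (by simpa using mul_pos N0 hε)
  have v3 : ∀ᶠ x in 𝓝 (0 : ℝ), K₁ * x * (1 + Real.exp (2 * (C * pot n i0 R + ε / 2))) <
      N * (1 - Real.exp (-(ε / 2))) :=
    ContinuousAt.eventually_lt (by fun_prop) (by fun_prop) (by
      simpa using mul_pos N0 (sub_pos.mpr (Real.exp_lt_one_iff.mpr (by linarith : -(ε / 2) < 0))))
  filter_upwards [eventually_ge_atTop 4, eventually_ge_atTop ((R * 2 : ℕ) : ℝ),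
    eventually_ge_atTop (((M + 1) * 2 : ℕ) : ℝ), tx.eventually v1, tx.eventually v2,
    tx.eventually v3] with β b1 b2 b3 b4 b5 b6 L _ hL hβL k hk
  have β0 : 0 < β := by linarith
  have hR : R * 2 ≤ L := by exact_mod_cast b2.trans hβL
  have hML : (M + 1) * 2 ≤ L := by exact_mod_cast b3.trans hβL
  have hL4 : 4 ≤ L := by exact_mod_cast b1.trans hβL
  have mom := hc1 L (β / 4) hL (by positivity) (by linarith)
  have := nu_prob (d := n + 1) (L := L) μ ρ hρ (β / 4)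
  set r := √(β / 2 ^ (n + 4)) with hr
  have r0 : 0 < r := Real.sqrt_pos.mpr (by positivity)
  have r1 : r ^ 2 = β / 2 ^ (n + 4) := Real.sq_sqrt (by positivity)
  have r2 : r ^ 2 = β / 4 / 2 ^ (n + 2) := by
    rw [r1, pow_add 2 n 4, pow_add 2 n 2]; field_simp; norm_num
  have r3 : r⁻¹ ^ 2 / 2 ^ (n + 4) = β⁻¹ := by rw [inv_pow, r1]; field_simp
  obtain ⟨I, i1, i2, i3, i4⟩ := torus_flow (A := A) hML hS J i0 R (hdiv A)
  have hy : inBox M (Pi.single i0 (R : ZMod L) : Site n L) := fun l => by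
    have e1 := congrFun (lift_single i0 R hR) l
    have e2 := abs_lt.mp (hM _ (Finset.mem_insert_self _ _) l)
    simp only [lift] at e1
    omega
  obtain ⟨m, hm⟩ : ∃ m, L = 2 * m := by
    obtain ⟨m, hm⟩ := hL
    exact ⟨m, by omega⟩
  have cs := continuous_sms ρ hρ I (Pi.single i0 R)
  have ct := hc.comp (continuous_cmb (G := G) (d := n) (L := L) (Pi.single i0 R))
  simp only [line_cmb _ i0 R hR]
  rw [← hN]
  refine core (m := m) (β := β) (k := k) (a := fun k => ∫ U, cor ρ (sms ρ I (Pi.single i0 R)) (Pi.single i0 R) k U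
    ∂(nu μ ρ (n + 1) L (β / 4))) (s := fun k => ∫ U, cor ρ (fun a => ρ (cmb Inv.inv a
      (Pi.single i0 R))) (Pi.single i0 R) k U ∂(nu μ ρ (n + 1) L (β / 4))) (K := K₁ * r⁻¹)
    (H := H r⁻¹) N0 (by positivity) hε (by linarith) ?_ (fun k => ?_) ?_ (by positivity)
    (by rwa [r3, ← div_eq_mul_inv] at b4) b5.le b6.le
    (cor_conv ρ μ hρ _ hm cs _ (k := 0) (l := 1) (by omega) (by omega)).2
    (fun h l j k => cor_seq ρ μ hρ _ hm cs _ h) (fun h l j k => cor_seq ρ μ hρ _ hm ct _ h)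
    (by omega)
  · simp [cor, line, norm_unit (ρ _).2, hN]
  · refine (cor_sub ρ μ hρ _ hML (i2.trans hj.symm).le (fun e he => (i1 e he).1) _
      (fun t => by simpa using mom_pow ρ μ hρ mom M r0 r2 t 0 (Or.inl rfl)) k).trans_eq ?_
    rw [hK₁]
    ring
  · have g1 := gap_le ρ μ hρ hT hproj hC' hP hL hL4 (b := β / 4) (by positivity) hML
      (i2.trans hj.symm).le i1 hy i4
    have g2 := mul_le_mul_of_nonneg_left (mom_pow ρ μ hρ mom M r0 r2 0 2 (Or.inr rfl))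
      (show 0 ≤ ((11 + C') * j * (5 * j + 1) + 13 * j ^ 2) * (1 + n * M) ^ 3 by positivity)
    have g3 : (Fintype.card ι : ℝ) * (∑ e, I e ^ 2) / (4 * (β / 4)) ≤
        C * N * (2 * pot n i0 R + ε / (2 * (C + 1))) / β := by
      rw [hD, ← hN, i3, show 4 * (β / 4) = β by ring]
      gcongr
    have g4 : ((11 + C') * j * (5 * j + 1) + 13 * j ^ 2) * (1 + n * M) ^ 3 *
        (2 * QQ n M ^ (2 + 1) * Real.exp c / r ^ (2 + 1)) = 2 ^ (n + 4) * K₂ * r⁻¹ / β := by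
      rw [hK₂, show β = r ^ 2 * 2 ^ (n + 4) by rw [r1]; field_simp]
      field_simp
      ring
    have g5 : H r⁻¹ / β = (C * N * (2 * pot n i0 R + ε / (2 * (C + 1))) / β +
        2 ^ (n + 4) * K₂ * r⁻¹ / β) / 2 := by simp only [hH]; ring
    rw [g5]
    linarith

end Pool.Agent.Lib.MP_7f377f_mp.Coul
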