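import Pool.Agent.Lib.MP_7f377f_mp.CoulLower

/-! The Coulomb law for matrix groups. -/

namespace Pool.Agent.Lib.MP_7f377f_mp.Coul

open Weak MeasureTheory Filter
open scoped InnerProductSpace

set_option linter.unusedSectionVars false
set_option maxHeartbeats 800000

section
variable {A : Type} [NormedRing A] [StarRing A] [NormedAlgebra ℝ A] [HS A]
variable {d L : ℕ} {G : Type} [Group G] [NeZero L] (ρ : G →* unitary A)

theorem act_tr (U : Link d L → G) : act ρ U =
    4 * (∑ _x : Site d L, ∑ i : Fin d, ∑ j : Fin d, if i < j then HS.tr (1 : A) else 0) -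
      4 * ∑ x, ∑ i, ∑ j, if i < j then HS.tr (ρ (hol U x i j) : A) else 0 := by
  rw [act, ← mul_sub, ← Finset.sum_sub_distrib, Finset.mul_sum]
  refine Finset.sum_congr rfl fun x _ => ?_
  have h : ∀ i j, Weak.qq ρ (hol U x i j) = (if i < j then Weak.qq ρ (hol U x i j) else 0) +
      if j < i then Weak.qq ρ (hol U x j i) else 0 := by
    intro i j
    rcases lt_trichotomy i j with h | h | h
    · simp [h, h.not_gt]
    · simp [h, hol_self, qq_one]
    · simp [h, h.not_gt, hol_swap U x i j, qq_inv]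
  rw [Finset.sum_congr rfl fun i _ => Finset.sum_congr rfl fun j _ => h i j]
  simp only [Finset.sum_add_distrib]
  rw [Finset.sum_comm (f := fun i j => if j < i then Weak.qq ρ (hol U x j i) else 0)]
  simp only [← Finset.sum_add_distrib, ← Finset.sum_sub_distrib, Finset.mul_sum, qq_eq]
  refine Finset.sum_congr rfl fun i _ => Finset.sum_congr rfl fun j _ => ?_
  split_ifs <;> ring

theorem loop_cor {n : ℕ} (i : Fin n) (R T : ℕ) (U : Link (n + 1) L → G) :
    HS.tr (ρ (line U 0 i.succ R * line U (Pi.single i.succ R) 0 T *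
      (line U (Pi.single 0 T) i.succ R)⁻¹ * (line U 0 0 T)⁻¹) : A) =
      cor ρ (fun a => ρ (line a 0 i R)) (Pi.single i R) T U := by
  rw [single_succ, single_zero, st_zero_zero, line_sl, line_sl, cor, inner_def, ← HS.tr_star,
    HS.tr_mul_comm (star _)]
  simp only [rho_mul, rho_inv, star_mul, star_star, mul_assoc]

variable [TopologicalSpace G] [IsTopologicalGroup G] [CompactSpace G]
  [SecondCountableTopology G] [MeasurableSpace G] [BorelSpace G] (μ : Measure G)
  [μ.IsHaarMeasure] [IsProbabilityMeasure μ]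

theorem ratio_eq (β : ℝ) (F : (Link d L → G) → ℝ) :
    (∫ U, F U * Real.exp (β * ∑ x, ∑ i, ∑ j, if i < j then HS.tr (ρ (hol U x i j) : A) else 0)
      ∂(Measure.pi fun _ => μ)) / ∫ U : Link d L → G, Real.exp (β * ∑ x, ∑ i, ∑ j,
        if i < j then HS.tr (ρ (hol U x i j) : A) else 0) ∂(Measure.pi fun _ => μ) =
      ∫ U, F U ∂(nu μ ρ d L (β / 4)) := by
  have e : ∀ U : Link d L → G, Real.exp (-(β / 4 * act ρ U)) = Real.exp (β * ∑ x, ∑ i, ∑ j,
      if i < j then HS.tr (ρ (hol U x i j) : A) else 0) * Real.exp (-(β * ∑ _x : Site d L,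
        ∑ i : Fin d, ∑ j : Fin d, if i < j then HS.tr (1 : A) else 0)) := fun U => by
    rw [act_tr, ← Real.exp_add]; congr 1; ring
  rw [nu_int, ZZ]
  simp only [e, ← mul_assoc, integral_mul_const]
  rw [mul_div_mul_right _ _ (Real.exp_pos _).ne']

end

open scoped Matrix.Norms.Frobenius

theorem coulomb (n N R : ℕ) (hN : 0 < N) (G : Type) [Group G] [TopologicalSpace G]
    [IsTopologicalGroup G] [CompactSpace G] [SecondCountableTopology G] [MeasurableSpace G]
    [BorelSpace G] (μ : Measure G) [μ.IsHaarMeasure] [IsProbabilityMeasure μ]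
    (ρ : G →* Matrix.unitaryGroup (Fin N) ℂ) (hρ : Continuous ρ)
    (hirr : ∀ W : Submodule ℂ (Fin N → ℂ), (∀ g, ∀ v ∈ W, (ρ g).1.mulVec v ∈ W) → W = ⊥ ∨ W = ⊤)
    (i : Fin n) (ε : ℝ) (hε : 0 < ε) :
    ∃ β₀ : ℝ, ∀ β ≥ β₀, ∀ (L : ℕ) [NeZero L], Even L → β ≤ L → ∀ T ≤ L,
      expect (L := L) μ ρ β (wilson ρ i.succ 0 R T) ≤
          Real.exp (-(lieDim ρ / N * pot n i R - ε) * T / β) ∧
        (Even T → (1 - ε) * Real.exp (-(lieDim ρ / N * pot n i R + ε) * T / β) ≤
          expect (L := L) μ ρ β (wilson ρ i.succ 0 R T)) := by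
  let := matrixHS N
  have : NeZero n := ⟨fun h => by subst h; exact i.elim0⟩
  have N0 : (0 : ℝ) < N := by exact_mod_cast hN
  have t1 : HS.tr (1 : Matrix (Fin N) (Fin N) ℂ) = N := by
    change (Matrix.trace (1 : Matrix (Fin N) (Fin N) ℂ)).re = N
    simp
  have n1 : ‖(1 : Matrix (Fin N) (Fin N) ℂ)‖ ^ 2 = N := by rw [HS.norm_sq, star_one, mul_one, t1]
  set b := stdOrthonormalBasis ℝ (lieAlg ρ)
  obtain ⟨c, hc⟩ := schur hN (Set.range fun g => (ρ g).1)
    (fun W hW => hirr W fun g => hW _ ⟨g, rfl⟩) (∑ α, (b α).1 * (b α).1)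
    (by rintro _ ⟨g, rfl⟩; exact cas_comm ρ b g)
    (by simp [star_sum, lieAlg_skew ρ hρ (b _).2])
  have hT := frame_of_scalar ρ hρ b hc (by rw [t1]; exact N0.ne')
  rw [t1, Fintype.card_fin] at hT
  have hproj : ∀ v, (lieAlg ρ).starProjection v = ∑ α, ⟪(b α).1, v⟫_ℝ • (b α).1 := fun v => by
    simp [b.starProjection_eq_sum_rankOne]
  have h1 : 0 < ‖(1 : Matrix (Fin N) (Fin N) ℂ)‖ :=
    lt_of_le_of_ne (norm_nonneg _) fun h => by rw [← h] at n1; linarith
  obtain ⟨β₀, h⟩ := eventually_atTop.mp ((upper ρ μ hρ hT (by positivity) i R hε).and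
    (lower ρ μ hρ hT (by positivity) hproj h1 i R hε))
  refine ⟨β₀, fun β hβ L _ hL hβL T hT => ?_⟩
  have e : expect (L := L) μ ρ β (wilson ρ i.succ 0 R T) = (∫ U, cor ρ (fun a => ρ (line a 0 i R))
      (Pi.single i R) T U ∂(nu μ ρ (n + 1) L (β / 4))) / N := by
    rw [← integral_div, ← ratio_eq]
    simp only [← loop_cor]
    rfl
  rw [e, div_le_iff₀ N0, le_div_iff₀ N0]
  refine ⟨((h β hβ).1 L hL hβL T hT).trans_eq ?_, ?_⟩
  · rw [n1, mul_comm]
    rfl
  · rintro ⟨k, rfl⟩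
    refine le_of_eq_of_le ?_ ((h β hβ).2 L hL hβL k hT)
    rw [n1, mul_right_comm]
    rfl

end Pool.Agent.Lib.MP_7f377f_mp.Coul
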