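import Pool.Agent.Lib.MP_7f377f_mp.WeakHS
import Pool.Agent.Lib.MP_7f377f_mp.WeakHaar

/-! Doubling of Haar measure for the distance pulled back from a unitary representation. -/

namespace Pool.Agent.Lib.MP_7f377f_mp.Weak

open MeasureTheory

set_option linter.unusedSectionVars false

variable {A : Type} [NormedRing A] [StarRing A] [NormedAlgebra ℝ A] [HS A]

theorem exists_net {G : Type} [Group G] (ρ : G →* unitary A) (r : ℝ) (hr : 0 < r) :
    ∃ s : Finset G, s.card ≤ 5 ^ Module.finrank ℝ A ∧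
      ∀ g, ‖(ρ g : A) - 1‖ ≤ 2 * r → ∃ h ∈ s, ‖(ρ (h⁻¹ * g) : A) - 1‖ ≤ r := by
  classical
  have bound : ∀ s : Finset G, (∀ g ∈ s, ‖(ρ g : A) - 1‖ ≤ 2 * r) →
      (∀ g ∈ s, ∀ h ∈ s, g ≠ h → r ≤ ‖(ρ g : A) - ρ h‖) → s.card ≤ 5 ^ Module.finrank ℝ A := by
    intro s h1 h2
    have hd : ∀ g ∈ s, ∀ h ∈ s, g ≠ h →
        1 ≤ ‖r⁻¹ • ((ρ g : A) - 1) - r⁻¹ • ((ρ h : A) - 1)‖ := by
      intro g hg h hh hne
      rw [← smul_sub, sub_sub_sub_cancel_right, norm_smul, norm_inv, Real.norm_of_nonneg hr.le,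
        ← div_eq_inv_mul, le_div_iff₀ hr, one_mul]
      exact h2 g hg h hh hne
    rw [← Finset.card_image_of_injOn (f := fun g => r⁻¹ • ((ρ g : A) - 1))]
    · refine Besicovitch.card_le_of_separated _ ?_ ?_
      · intro c hc
        obtain ⟨g, hg, rfl⟩ := Finset.mem_image.1 hc
        rw [norm_smul, norm_inv, Real.norm_of_nonneg hr.le, ← div_eq_inv_mul, div_le_iff₀ hr]
        exact h1 g hg
      · intro c hc d hd' hne
        obtain ⟨g, hg, rfl⟩ := Finset.mem_image.1 hc
        obtain ⟨h, hh, rfl⟩ := Finset.mem_image.1 hd'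
        exact hd g hg h hh fun e => hne (by rw [e])
    · intro g hg h hh e
      by_contra hne
      have := hd g hg h hh hne
      simp only at e
      rw [e, sub_self, norm_zero] at this
      linarith
  by_contra hcon
  push Not at hcon
  have all : ∀ n : ℕ, ∃ s : Finset G, s.card = n ∧ (∀ g ∈ s, ‖(ρ g : A) - 1‖ ≤ 2 * r) ∧
      (∀ g ∈ s, ∀ h ∈ s, g ≠ h → r ≤ ‖(ρ g : A) - ρ h‖) := by
    intro n
    induction n with
    | zero => exact ⟨∅, rfl, by simp, by simp⟩
    | succ n ih =>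
      obtain ⟨s, h0, h1, h2⟩ := ih
      obtain ⟨g, hg1, hg2⟩ := hcon s (bound s h1 h2)
      have h3 : ∀ h ∈ s, r < ‖(ρ g : A) - ρ h‖ := by
        intro h hh
        have e : (ρ g : A) - ρ h = ρ h * ((ρ (h⁻¹ * g) : A) - 1) := by
          rw [mul_sub, mul_one, ← Submonoid.coe_mul, ← map_mul, mul_inv_cancel_left]
        rw [e, norm_unit_mul (ρ h).2]
        exact hg2 h hh
      have hgs : g ∉ s := fun hh => by
        have := h3 g hh
        rw [sub_self, norm_zero] at this
        linarith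
      refine ⟨insert g s, by rw [Finset.card_insert_of_notMem hgs, h0], ?_, ?_⟩
      · intro x hx
        rcases Finset.mem_insert.1 hx with rfl | hx
        · exact hg1
        · exact h1 x hx
      · intro x hx y hy hne
        rcases Finset.mem_insert.1 hx with hx' | hx' <;>
          rcases Finset.mem_insert.1 hy with hy' | hy'
        · exact absurd (hx'.trans hy'.symm) hne
        · rw [hx']; exact (h3 y hy').le
        · rw [hy', norm_sub_rev]; exact (h3 x hx').le
        · exact h2 x hx' y hy' hne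
  obtain ⟨s, h0, h1, h2⟩ := all (5 ^ Module.finrank ℝ A + 1)
  have := bound s h1 h2
  omega

variable {G : Type} [Group G] [TopologicalSpace G] [IsTopologicalGroup G]
  [CompactSpace G] [SecondCountableTopology G] [MeasurableSpace G] [BorelSpace G]
  (μ : Measure G) [μ.IsHaarMeasure] [IsProbabilityMeasure μ]

omit [CompactSpace G] [SecondCountableTopology G] in
theorem ball_doubling (ρ : G →* unitary A) (r : ℝ) (hr : 0 < r) :
    μ.real {g | ‖(ρ g : A) - 1‖ ≤ 2 * r} ≤
      5 ^ Module.finrank ℝ A * μ.real {g | ‖(ρ g : A) - 1‖ ≤ r} := by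
  obtain ⟨s, h1, h2⟩ := exists_net ρ r hr
  calc μ.real {g | ‖(ρ g : A) - 1‖ ≤ 2 * r}
      ≤ μ.real (⋃ h ∈ s, (fun g => h⁻¹ * g) ⁻¹' {g | ‖(ρ g : A) - 1‖ ≤ r}) := by
        refine measureReal_mono (fun g hg => ?_) (measure_ne_top _ _)
        obtain ⟨h, hh, h3⟩ := h2 g hg
        exact Set.mem_biUnion hh h3
    _ ≤ ∑ h ∈ s, μ.real ((fun g => h⁻¹ * g) ⁻¹' {g | ‖(ρ g : A) - 1‖ ≤ r}) :=
        measureReal_biUnion_finset_le _ _
    _ = s.card * μ.real {g | ‖(ρ g : A) - 1‖ ≤ r} := by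
        simp only [Measure.real, measure_preimage_mul, Finset.sum_const, nsmul_eq_mul]
    _ ≤ _ := by
        gcongr
        exact_mod_cast h1

omit [CompactSpace G] [SecondCountableTopology G] in
theorem ball_doubling_pow (ρ : G →* unitary A) (r : ℝ) (hr : 0 < r) (j : ℕ) :
    μ.real {g | ‖(ρ g : A) - 1‖ ≤ 2 ^ j * r} ≤
      (5 ^ Module.finrank ℝ A) ^ j * μ.real {g | ‖(ρ g : A) - 1‖ ≤ r} := by
  induction j with
  | zero => simp
  | succ j ih =>
    have := ball_doubling μ ρ (2 ^ j * r) (by positivity)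
    rw [← mul_assoc, ← pow_succ'] at this
    refine this.trans ?_
    rw [pow_succ', mul_assoc]
    gcongr

theorem shell_bound (M K : ℝ) (hM : 0 < M) (hK : 0 < K) : ∃ C : ℝ, 0 ≤ C ∧ ∀ j : ℕ,
    Real.exp (-(4 ^ j / (2 * K))) * M ^ (j + 1) ≤ C * (1 / 2) ^ j := by
  obtain ⟨p, hp⟩ := pow_unbounded_of_one_lt (2 * M) (by norm_num : (1 : ℝ) < 4)
  refine ⟨M * (p.factorial * (2 * K) ^ p), by positivity, fun j => ?_⟩
  have h1 := Real.pow_div_factorial_le_exp (4 ^ j / (2 * K)) (by positivity) p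
  have h2 : (2 * M) ^ j ≤ (4 ^ j) ^ p := by
    rw [← pow_mul, mul_comm j p, pow_mul]
    gcongr
  rw [div_pow, div_div, div_le_iff₀ (by positivity)] at h1
  rw [Real.exp_neg, one_div, inv_pow, ← div_eq_mul_inv, le_div_iff₀ (by positivity),
    mul_assoc, ← div_eq_inv_mul, div_le_iff₀ (by positivity)]
  calc M ^ (j + 1) * 2 ^ j = M * (2 * M) ^ j := by rw [mul_pow]; ring
    _ ≤ M * (Real.exp (4 ^ j / (2 * K)) * ((2 * K) ^ p * p.factorial)) := by
      gcongr
      exact h2.trans h1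
    _ = _ := by ring

theorem haar_doubling (ρ : G →* unitary A) (hρ : Continuous ρ) (K : ℝ) (hK : 0 < K) :
    ∃ C : ℝ, 1 ≤ C ∧ ∀ b : ℝ, 0 < b →
    ∫ g, Real.exp (-(b / 2 * ‖(ρ g : A) - 1‖ ^ 2)) ∂μ ≤
      C * ∫ g, Real.exp (-(K * b * ‖(ρ g : A) - 1‖ ^ 2)) ∂μ := by
  set M : ℝ := 5 ^ Module.finrank ℝ A with hM
  obtain ⟨C, hC, hCj⟩ := shell_bound M K (by positivity) hK
  have he : 1 ≤ Real.exp 1 := Real.one_le_exp zero_le_one
  refine ⟨(1 + 2 * C) * Real.exp 1, by nlinarith, fun b hb => ?_⟩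
  have hd : Continuous fun g => ‖(ρ g : A) - 1‖ :=
    ((continuous_subtype_val.comp hρ).sub continuous_const).norm
  set r := (Real.sqrt (K * b))⁻¹ with hr
  have hr0 : 0 < r := by positivity
  have hr2 : K * b * r ^ 2 = 1 := by
    rw [hr, inv_pow, Real.sq_sqrt (by positivity), mul_inv_cancel₀ (by positivity)]
  set B : ℕ → Set G := fun j => {g | ‖(ρ g : A) - 1‖ ≤ 2 ^ j * r} with hB
  have hBm : ∀ j, MeasurableSet (B j) := fun j => (isClosed_le hd continuous_const).measurableSet
  set m := μ.real {g | ‖(ρ g : A) - 1‖ ≤ r} with hm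
  have hm0 : 0 ≤ m := measureReal_nonneg
  have low : m ≤ Real.exp 1 * ∫ g, Real.exp (-(K * b * ‖(ρ g : A) - 1‖ ^ 2)) ∂μ := by
    have h0 : m = μ.real (B 0) := by simp [hB, hm]
    rw [h0, ← integral_const_mul, ← integral_indicator_one (hBm 0)]
    refine integral_mono ((integrable_const _).indicator (hBm 0)) (cint μ (by fun_prop)) ?_
    intro g
    by_cases hg : g ∈ B 0
    · rw [Set.indicator_of_mem hg, Pi.one_apply]
      simp only
      rw [← Real.exp_add]
      refine Real.one_le_exp ?_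
      have h1 : ‖(ρ g : A) - 1‖ ≤ r := by simpa [hB] using hg
      have h2 : K * b * ‖(ρ g : A) - 1‖ ^ 2 ≤ K * b * r ^ 2 := by gcongr
      linarith
    · rw [Set.indicator_of_notMem hg]
      positivity
  obtain ⟨J, hJ⟩ := pow_unbounded_of_one_lt (2 * ‖(1 : A)‖ / r) (by norm_num : (1 : ℝ) < 2)
  rw [div_lt_iff₀ hr0] at hJ
  have pt : ∀ (J : ℕ) (g : G), g ∈ B J → Real.exp (-(b / 2 * ‖(ρ g : A) - 1‖ ^ 2)) ≤
      (B 0).indicator 1 g + ∑ j ∈ Finset.range J,
        Real.exp (-(4 ^ j / (2 * K))) * (B (j + 1)).indicator 1 g := by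
    intro J g
    induction J with
    | zero =>
      intro hg
      rw [Set.indicator_of_mem hg, Finset.range_zero, Finset.sum_empty, add_zero, Pi.one_apply]
      exact Real.exp_le_one_iff.2 (neg_nonpos.2 (by positivity))
    | succ J ih =>
      intro hg
      rw [Finset.sum_range_succ, Set.indicator_of_mem hg, Pi.one_apply, mul_one]
      by_cases hg' : g ∈ B J
      · have := ih hg'
        have := Real.exp_pos (-(4 ^ J / (2 * K)))
        linarith
      · have h1 : 2 ^ J * r < ‖(ρ g : A) - 1‖ := not_le.1 hg'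
        have h2 : (2 ^ J * r) ^ 2 ≤ ‖(ρ g : A) - 1‖ ^ 2 := by gcongr
        have h3 : 4 ^ J / (2 * K) = b / 2 * (2 ^ J * r) ^ 2 := by
          rw [mul_pow, ← pow_mul, mul_comm J 2, pow_mul, div_eq_iff (by positivity)]
          have h4 : ((2 : ℝ) ^ 2) ^ J = 4 ^ J := by norm_num
          rw [h4]
          linear_combination (-(4 : ℝ) ^ J) * hr2
        have h4 : Real.exp (-(b / 2 * ‖(ρ g : A) - 1‖ ^ 2)) ≤ Real.exp (-(4 ^ J / (2 * K))) := by
          rw [h3]
          gcongr
        have h5 : (0 : ℝ) ≤ (B 0).indicator 1 g := Set.indicator_nonneg (fun _ _ => zero_le_one) g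
        have h6 : (0 : ℝ) ≤ ∑ j ∈ Finset.range J,
            Real.exp (-(4 ^ j / (2 * K))) * (B (j + 1)).indicator 1 g :=
          Finset.sum_nonneg fun j _ => mul_nonneg (Real.exp_pos _).le
            (Set.indicator_nonneg (fun _ _ => zero_le_one) g)
        linarith
  have hi : ∀ j, Integrable ((B j).indicator (1 : G → ℝ)) μ := fun j =>
    (integrable_const _).indicator (hBm j)
  have up : ∫ g, Real.exp (-(b / 2 * ‖(ρ g : A) - 1‖ ^ 2)) ∂μ ≤ (1 + 2 * C) * m := by
    calc _ ≤ ∫ g, ((B 0).indicator 1 g + ∑ j ∈ Finset.range J,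
          Real.exp (-(4 ^ j / (2 * K))) * (B (j + 1)).indicator 1 g) ∂μ := by
          refine integral_mono (cint μ (by fun_prop))
            ((hi 0).add (integrable_finsetSum _ fun j _ => (hi _).const_mul _)) fun g => ?_
          refine pt J g ?_
          have := norm_sub_le (ρ g : A) 1
          rw [norm_unit (ρ g).2] at this
          change ‖(ρ g : A) - 1‖ ≤ 2 ^ J * r
          linarith
      _ = μ.real (B 0) + ∑ j ∈ Finset.range J,
          Real.exp (-(4 ^ j / (2 * K))) * μ.real (B (j + 1)) := by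
          rw [integral_add (hi 0) (integrable_finsetSum _ fun j _ => (hi _).const_mul _),
            integral_finsetSum _ fun j _ => (hi _).const_mul _, integral_indicator_one (hBm 0)]
          simp only [integral_const_mul, integral_indicator_one (hBm _)]
      _ ≤ m + ∑ j ∈ Finset.range J, C * (1 / 2) ^ j * m := by
          refine add_le_add (by simp [hB, hm]) (Finset.sum_le_sum fun j _ => ?_)
          calc _ ≤ Real.exp (-(4 ^ j / (2 * K))) * (M ^ (j + 1) * m) :=
                mul_le_mul_of_nonneg_left (ball_doubling_pow μ ρ r hr0 (j + 1)) (Real.exp_pos _).le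
            _ ≤ _ := by
                rw [← mul_assoc]
                exact mul_le_mul_of_nonneg_right (hCj j) hm0
      _ ≤ _ := by
          rw [← Finset.sum_mul, ← Finset.mul_sum]
          have := sum_geometric_two_le J
          nlinarith [mul_le_mul_of_nonneg_left this hC]
  calc _ ≤ (1 + 2 * C) * m := up
    _ ≤ _ := by rw [mul_assoc]; gcongr

end Pool.Agent.Lib.MP_7f377f_mp.Weak
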