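import Pool.Agent.Lib.MP_7f377f_mp.WeakRP

/-! The chessboard estimate. -/

namespace Pool.Agent.Lib.MP_7f377f_mp.Weak

open MeasureTheory Measure

set_option linter.unusedSectionVars false

variable {d L : ℕ} [NeZero L]

/-- symmetrisation of a pattern across the mirror -/
def symp {β : Type} (m : ℕ) (k : Fin d) (σ τ : Site d L → β) (x : Site d L) : β :=
  if (x k).val < m then σ x else τ (rc k x)

theorem rc_ne {k l : Fin d} (h : l ≠ k) (x : Site d L) : rc k x l = x l := by
  simp [rc, rf, h]

theorem chess_abstract {β : Type} [Fintype β] {m : ℕ} (hL : L = 2 * m)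
    (Φ : (Site d L → β) → ℝ) (hpos : ∀ σ, 0 ≤ Φ σ)
    (hshift : ∀ σ a, Φ (fun x => σ (x + a)) = Φ σ)
    (hcs : ∀ σ k, ∃ τ, Φ σ ^ 2 ≤ Φ (symp m k σ σ) * Φ τ) (σ : Site d L → β) :
    ∃ c, Φ σ ≤ Φ fun _ => c := by
  classical
  have hm : 0 < m := by have := NeZero.pos L; omega
  obtain ⟨σ₀, -, h₀⟩ := Finset.exists_max_image Finset.univ Φ ⟨σ, Finset.mem_univ _⟩
  have hmax : ∀ τ, Φ τ ≤ Φ σ₀ := fun τ => h₀ τ (Finset.mem_univ _)
  have hsym : ∀ τ k, Φ σ₀ ≤ Φ τ → Φ σ₀ ≤ Φ (symp m k τ τ) := by
    intro τ k h
    obtain ⟨τ', h'⟩ := hcs τ k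
    rcases (hpos σ₀).eq_or_lt with h0 | h0
    · rw [← h0]; exact hpos _
    · have h1 : Φ σ₀ * Φ σ₀ ≤ Φ (symp m k τ τ) * Φ σ₀ := by
        have := mul_le_mul_of_nonneg_left (hmax τ') (hpos (symp m k τ τ))
        nlinarith
      exact le_of_mul_le_mul_right h1 h0
  have key : ∀ S : Finset (Fin d), ∃ τ, Φ σ₀ ≤ Φ τ ∧
      ∀ x y : Site d L, (∀ j ∉ S, x j = y j) → τ x = τ y := by
    intro S
    induction S using Finset.induction_on with
    | empty => exact ⟨σ₀, le_rfl, fun x y h => by rw [funext fun j => h j (by simp)]⟩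
    | insert k S hk ih =>
      have hQ : ∀ τ : Site d L → β, (∀ x y : Site d L, (∀ j ∉ S, x j = y j) → τ x = τ y) →
          ∀ x y : Site d L, (∀ j ∉ S, x j = y j) → symp m k τ τ x = symp m k τ τ y := by
        intro τ hτ x y h
        unfold symp
        rw [h k hk]
        split_ifs
        · exact hτ x y h
        · refine hτ _ _ fun j hj => ?_
          by_cases hjk : j = k
          · simp [rc, rf, hjk, h k hk]
          · rw [rc_ne hjk, rc_ne hjk, h j hj]
      have hR : ∀ (τ : Site d L → β) (r : ℕ), r ≤ m → (∀ x y : Site d L,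
          (∀ j ∉ insert k S, x j = y j) → (x k).val < r → (y k).val < r → τ x = τ y) →
          ∀ x y : Site d L, (∀ j ∉ insert k S, x j = y j) →
            ((x k).val < r ∨ L ≤ (x k).val + r) → ((y k).val < r ∨ L ≤ (y k).val + r) →
            symp m k τ τ x = symp m k τ τ y := by
        intro τ r hr hτ
        have red : ∀ x : Site d L, ((x k).val < r ∨ L ≤ (x k).val + r) →
            ∃ x' : Site d L, (∀ j, j ≠ k → x' j = x j) ∧ (x' k).val < r ∧
              symp m k τ τ x = τ x' := by
          intro x hx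
          have := ZMod.val_lt (x k)
          rcases hx with hx | hx
          · exact ⟨x, fun _ _ => rfl, hx, by rw [symp, if_pos (by omega)]⟩
          · exact ⟨rc k x, fun j hj => rc_ne hj x, by rw [rc_val]; omega,
              by rw [symp, if_neg (by omega)]⟩
        intro x y h hx hy
        obtain ⟨x', a1, a2, a3⟩ := red x hx
        obtain ⟨y', b1, b2, b3⟩ := red y hy
        rw [a3, b3]
        refine hτ _ _ (fun j hj => ?_) a2 b2
        have hjk : j ≠ k := fun h => hj (by simp [h])
        rw [a1 j hjk, b1 j hjk, h j hj]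
      have inner : ∀ r, r + 1 ≤ m → ∃ τ, Φ σ₀ ≤ Φ τ ∧
          (∀ x y : Site d L, (∀ j ∉ S, x j = y j) → τ x = τ y) ∧
          ∀ x y : Site d L, (∀ j ∉ insert k S, x j = y j) → (x k).val < r + 1 →
            (y k).val < r + 1 → τ x = τ y := by
        intro r
        induction r with
        | zero =>
          intro _
          obtain ⟨τ, h1, h2⟩ := ih
          refine ⟨τ, h1, h2, fun x y h hx hy => h2 x y fun j hj => ?_⟩
          by_cases hjk : j = k
          · apply ZMod.val_injective
            rw [hjk]; omega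
          · exact h j (by simp [hjk, hj])
        | succ r ihr =>
          intro hr
          obtain ⟨τ, h1, h2, h3⟩ := ihr (by omega)
          refine ⟨fun x => symp m k τ τ (x + -Pi.single k 1), ?_, fun x y h => ?_,
            fun x y h hx hy => ?_⟩
          · rw [hshift (symp m k τ τ)]; exact hsym τ k h1
          · exact hQ τ h2 _ _ fun j hj => by simp only [Pi.add_apply, h j hj]
          · have hv : ∀ z : Site d L, (z k).val < r + 1 + 1 →
                ((z + -Pi.single k 1 : Site d L) k).val < r + 1 ∨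
                  L ≤ ((z + -Pi.single k 1 : Site d L) k).val + (r + 1) := by
              intro z hz
              have e : (z + -Pi.single k 1 : Site d L) k = -(-z k) - 1 := by
                simp [sub_eq_add_neg]
              have := ZMod.val_lt (z k)
              rw [e, val_neg_sub_one, val_neg']
              split_ifs <;> omega
            exact hR τ (r + 1) (by omega) h3 _ _
              (fun j hj => by simp only [Pi.add_apply, h j hj]) (hv x hx) (hv y hy)
      obtain ⟨τ, h1, -, h3⟩ := inner (m - 1) (by omega)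
      rw [Nat.sub_add_cancel hm] at h3
      exact ⟨symp m k τ τ, hsym τ k h1, fun x y h => hR τ m le_rfl h3 x y h (by omega) (by omega)⟩
  obtain ⟨τ, h1, h2⟩ := key Finset.univ
  refine ⟨τ 0, (hmax σ).trans (h1.trans_eq ?_)⟩
  congr 1
  funext x
  exact h2 x 0 (by simp)

theorem prod_half {m : ℕ} (hL : L = 2 * m) (k : Fin d) (g : Site d L → ℝ) :
    ∏ x, g x = (∏ x with (x k).val < m, g x) * ∏ x with (x k).val < m, g (rc k x) := by
  rw [← Finset.prod_filter_mul_prod_filter_not Finset.univ fun x : Site d L => (x k).val < m]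
  congr 1
  refine Finset.prod_nbij' (rc k) (rc k) (fun x hx => ?_) (fun x hx => ?_) (fun x _ => rc_rc k x)
    (fun x _ => rc_rc k x) fun x _ => by rw [rc_rc]
  · have := ZMod.val_lt (x k)
    simp only [Finset.mem_filter, Finset.mem_univ, true_and, rc_val] at hx ⊢
    omega
  · simp only [Finset.mem_filter, Finset.mem_univ, true_and, rc_val] at hx ⊢
    omega

variable {A : Type} [NormedRing A] [StarRing A] [NormedAlgebra ℝ A] [HS A]
variable {G : Type} [Group G] [TopologicalSpace G] [IsTopologicalGroup G] [CompactSpace G]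
  [SecondCountableTopology G] [MeasurableSpace G] [BorelSpace G] (μ : Measure G)
  [μ.IsHaarMeasure] [IsProbabilityMeasure μ] (ρ : G →* unitary A)

theorem chess_const (hρ : Continuous ρ) (b : ℝ) {m : ℕ} (hL : L = 2 * m) {β : Type} [Fintype β]
    (f : β → Site d L → (Link d L → G) → ℝ) (hc : ∀ c x, Continuous (f c x))
    (hpos : ∀ c x U, 0 ≤ f c x U) (hs : ∀ c x a U, f c x (shift a U) = f c (x + a) U)
    (hr : ∀ c x k U, f c x (refl k U) = f c (rc k x) U)
    (hd : ∀ c x k, (x k).val < m → Dep m k (f c x)) (σ : Site d L → β) :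
    ∃ c, ∫ U, ∏ x, f (σ x) x U ∂(nu μ ρ d L b) ≤ ∫ U, ∏ x, f c x U ∂(nu μ ρ d L b) := by
  refine chess_abstract hL (fun σ => ∫ U, ∏ x, f (σ x) x U ∂(nu μ ρ d L b))
    (fun σ => integral_nonneg fun U => Finset.prod_nonneg fun x _ => hpos _ _ _)
    (fun σ a => ?_) (fun σ k => ?_) σ
  · rw [← int_mp (nu_shift μ ρ hρ b a) (F := fun U => ∏ x, f (σ (x + a)) x U)
      (continuous_finsetProd _ fun x _ => hc _ _)]
    simp only [hs]
    congr 1
    funext U
    exact Equiv.prod_comp (Equiv.addRight a) fun x => f (σ x) x U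
  · have e : ∀ (τ τ' : Site d L → β) U, (∏ x with (x k).val < m, f (τ x) x U) *
        (∏ x with (x k).val < m, f (τ' x) x (refl k U)) = ∏ x, f (symp m k τ τ' x) x U := by
      intro τ τ' U
      rw [prod_half hL k]
      congr 1
      · refine Finset.prod_congr rfl fun x hx => ?_
        rw [symp, if_pos (Finset.mem_filter.mp hx).2]
      · refine Finset.prod_congr rfl fun x hx => ?_
        have := (Finset.mem_filter.mp hx).2
        rw [symp, if_neg (by rw [rc_val]; omega), rc_rc, hr]
    have cA : ∀ τ : Site d L → β, Continuous fun U => ∏ x with (x k).val < m, f (τ x) x U :=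
      fun τ => continuous_finsetProd _ fun x _ => hc _ _
    have dA : ∀ τ : Site d L → β, Dep m k fun U => ∏ x with (x k).val < m, f (τ x) x U :=
      fun τ U V h => Finset.prod_congr rfl fun x hx => hd _ x k (Finset.mem_filter.mp hx).2 U V h
    have := rp_ineq μ ρ hρ b hL k (cA σ) (cA fun x => σ (rc k x)) (dA σ) (dA fun x => σ (rc k x))
    simp only [e] at this
    have e2 : symp m k σ (fun x => σ (rc k x)) = σ := by
      funext x; simp [symp, rc_rc]
    rw [e2] at this
    exact ⟨_, this⟩

/-- the chessboard estimate -/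
theorem chessboard (hρ : Continuous ρ) (b : ℝ) {m : ℕ} (hL : L = 2 * m) {β : Type} [Fintype β]
    (f : β → Site d L → (Link d L → G) → ℝ) (hc : ∀ c x, Continuous (f c x))
    (hpos : ∀ c x U, 0 ≤ f c x U) (hs : ∀ c x a U, f c x (shift a U) = f c (x + a) U)
    (hr : ∀ c x k U, f c x (refl k U) = f c (rc k x) U)
    (hd : ∀ c x k, (x k).val < m → Dep m k (f c x)) (a : β → ℝ) (ha : ∀ c, 0 < a c)
    (hb : ∀ c, ∫ U, ∏ x, f c x U ∂(nu μ ρ d L b) ≤ a c ^ (L ^ d)) (σ : Site d L → β) :
    ∫ U, ∏ x, f (σ x) x U ∂(nu μ ρ d L b) ≤ ∏ x, a (σ x) := by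
  obtain ⟨c, h⟩ := chess_const μ ρ hρ b hL (fun c x U => f c x U / a c)
    (fun c x => (hc c x).div_const _) (fun c x U => div_nonneg (hpos c x U) (ha c).le)
    (fun c x a U => by simp only [hs]) (fun c x k U => by simp only [hr])
    (fun c x k hx U V h => by simp only [hd c x k hx U V h]) σ
  simp only [Finset.prod_div_distrib, integral_div, Finset.prod_const, Finset.card_univ,
    Fintype.card_pi, ZMod.card, Fintype.card_fin] at h
  have h1 := (div_le_one (pow_pos (ha c) _)).mpr (hb c)
  exact (div_le_one (Finset.prod_pos fun x _ => ha _)).mp (h.trans h1)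

/-- corners of a unit cell transverse to the directions `i`, `j` -/
def vec (i j : Fin d) (y : Fin d → Bool) : Site d L :=
  fun l => if l = i ∨ l = j then 0 else if y l then 1 else 0

/-- energy of the plaquettes of a unit cell parallel to `i`, `j` -/
noncomputable def blk (i j : Fin d) (x : Site d L) (U : Link d L → G) : ℝ :=
  ∑ y : Fin d → Bool, qq ρ (hol U (x + vec i j y) i j)

theorem blk_shift (i j : Fin d) (x a : Site d L) (U : Link d L → G) :
    blk ρ i j x (shift a U) = blk ρ i j (x + a) U := by
  simp only [blk, hol_shift, add_right_comm x _ a]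

theorem blk_refl (i j : Fin d) (x : Site d L) (k : Fin d) (U : Link d L → G) :
    blk ρ i j x (refl k U) = blk ρ i j (rc k x) U := by
  simp only [blk, qq_hol_refl]
  by_cases hk : i = k ∨ j = k
  · refine Finset.sum_congr rfl fun y _ => ?_
    have : rq k i j (x + vec i j y) = rc k x + vec i j y := by
      funext l
      by_cases hl : l = k
      · have : k = i ∨ k = j := by tauto
        simp [rq, hk, rc, rf, vec, hl, this]
      · simp [rq, hk, rc, rf, hl]
    rw [this]
  · have hinv : Function.Involutive fun (y : Fin d → Bool) l => if l = k then !y l else y l := by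
      intro y; funext l; by_cases hl : l = k <;> simp [hl]
    rw [← Equiv.sum_comp (Function.Involutive.toPerm _ hinv)]
    refine Finset.sum_congr rfl fun y _ => ?_
    have : rq k i j (x + vec i j (Function.Involutive.toPerm _ hinv y)) = rc k x + vec i j y := by
      funext l
      by_cases hl : l = k
      · have : ¬ (k = i ∨ k = j) := by tauto
        cases h : y k <;> simp [rq, hk, rc, rf, vec, hl, this, h]
        ring
      · simp [rq, hk, rc, rf, hl, vec]
    rw [this]

theorem blk_dep {m : ℕ} (hL : L = 2 * m) (i j : Fin d) (x : Site d L) (k : Fin d)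
    (hx : (x k).val < m) : Dep m k (blk ρ i j x) := by
  intro U V h
  refine Finset.sum_congr rfl fun y _ => ?_
  have := dep_hol hL k i j (x + vec i j y) ?_ ?_ U V h
  · simp only at this
    rw [this]
  · simp only [Pi.add_apply, vec]
    split_ifs
    · rw [add_zero]; omega
    · rw [val_add_one _ (by omega)]; omega
    · rw [add_zero]; omega
  · intro hk
    have : k = i ∨ k = j := by tauto
    simpa [vec, this] using hx

theorem sum_blk (i j : Fin d) (U : Link d L → G) : ∑ x, blk ρ i j x U ≤ 2 ^ d * act ρ U := by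
  have h1 : ∑ x, blk ρ i j x U = 2 ^ d * ∑ x, qq ρ (hol U x i j) := by
    simp only [blk]
    rw [Finset.sum_comm]
    have : ∀ y : Fin d → Bool, ∑ x, qq ρ (hol U (x + vec i j y) i j) = ∑ x, qq ρ (hol U x i j) :=
      fun y => Equiv.sum_comp (Equiv.addRight (vec i j y)) fun x => qq ρ (hol U x i j)
    simp [this]
  rw [h1]
  refine mul_le_mul_of_nonneg_left (Finset.sum_le_sum fun x _ => ?_) (by positivity)
  refine le_trans ?_ (Finset.single_le_sum (f := fun i => ∑ j, qq ρ (hol U x i j))
    (fun i _ => Finset.sum_nonneg fun j _ => qq_nonneg _ _) (Finset.mem_univ i))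
  exact Finset.single_le_sum (f := fun j => qq ρ (hol U x i j)) (fun j _ => qq_nonneg _ _)
    (Finset.mem_univ j)

theorem le_blk (i j : Fin d) (x : Site d L) (U : Link d L → G) :
    qq ρ (hol U x i j) ≤ blk ρ i j x U := by
  have := Finset.single_le_sum (f := fun y : Fin d → Bool => qq ρ (hol U (x + vec i j y) i j))
    (fun y _ => qq_nonneg _ _) (Finset.mem_univ fun _ => false)
  have e : vec (L := L) i j (fun _ => false) = 0 := by funext l; simp [vec]
  simpa [e, blk] using this

/-- joint exponential moments of parallel plaquette energies -/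
theorem exp_moment_of_Z (hρ : Continuous ρ) {b : ℝ} (hb : 0 ≤ b) {m : ℕ} (hL : L = 2 * m) {C : ℝ}
    (hC : 0 < C) (hZ : ZZ μ ρ d L (b / 2) ≤ C ^ (L ^ d) * ZZ μ ρ d L b) (i j : Fin d)
    (S : Finset (Site d L)) :
    ∫ U, Real.exp (b / 2 ^ (d + 1) * ∑ x ∈ S, qq ρ (hol U x i j)) ∂(nu μ ρ d L b) ≤
      C ^ S.card := by
  classical
  have := nu_prob (d := d) (L := L) μ ρ hρ b
  have cb : ∀ x : Site d L, Continuous (blk ρ i j x) := fun x =>
    continuous_finsetSum _ fun y _ => continuous_qhol ρ hρ _ _ _
  have ca := continuous_act (d := d) (L := L) ρ hρ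
  have key := chessboard μ ρ hρ b hL
    (fun (c : Bool) x U => if c then Real.exp (b / 2 ^ (d + 1) * blk ρ i j x U) else 1)
    (fun c x => by have := cb x; split_ifs <;> fun_prop)
    (fun c x U => by positivity) (fun c x a U => by simp only [blk_shift])
    (fun c x k U => by simp only [blk_refl])
    (fun c x k hx U V h => by simp only [blk_dep ρ hL i j x k hx U V h])
    (fun c => if c then C else 1) (fun c => by positivity) ?_ (fun x => decide (x ∈ S))
  · simp only [decide_eq_true_eq, Finset.prod_ite_mem, Finset.univ_inter, Finset.prod_const,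
      ← Real.exp_sum, ← Finset.mul_sum] at key
    refine le_trans (integral_mono (cint _ ?_) (cint _ ?_) fun U => ?_) key
    · have := continuous_finsetSum S fun x _ => continuous_qhol (L := L) ρ hρ x i j
      fun_prop
    · fun_prop
    · exact Real.exp_le_exp.mpr (mul_le_mul_of_nonneg_left
        (Finset.sum_le_sum fun x _ => le_blk ρ i j x U) (by positivity))
  · intro c
    cases c
    · simp
    · simp only [if_true, ← Real.exp_sum, ← Finset.mul_sum]
      rw [nu_int, div_le_iff₀ (ZZ_pos μ ρ hρ b)]
      refine le_trans (integral_mono (cint _ (by fun_prop)) (cint _ (continuous_wt ρ hρ _))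
        fun U => ?_) hZ
      simp only [← Real.exp_add]
      refine Real.exp_le_exp.mpr ?_
      have h1 := mul_le_mul_of_nonneg_left (sum_blk ρ i j U)
        (show 0 ≤ b / 2 ^ (d + 1) by positivity)
      have h2 : b / 2 ^ (d + 1) * (2 ^ d * act ρ U) = b / 2 * act ρ U := by
        rw [pow_succ]; field_simp
      linarith

end Pool.Agent.Lib.MP_7f377f_mp.Weak
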