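import Pool.Agent.Lib.MP_7f377f_mp.WeakComb
import Pool.Agent.Lib.MP_7f377f_mp.WeakChess

/-! Bounds on the partition function and moments of the plaquette energy. -/

namespace Pool.Agent.Lib.MP_7f377f_mp.Weak

open MeasureTheory Measure

set_option linter.unusedSectionVars false

variable {d L : ℕ} [NeZero L] [NeZero d]
variable {A : Type} [NormedRing A] [StarRing A] [NormedAlgebra ℝ A] [HS A]
variable {G : Type} [Group G] [TopologicalSpace G] [IsTopologicalGroup G] [CompactSpace G]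
  [SecondCountableTopology G] [MeasurableSpace G] [BorelSpace G] (μ : Measure G)
  [μ.IsHaarMeasure] [IsProbabilityMeasure μ] (ρ : G →* unitary A)

/-- one link partition function -/
noncomputable def zz (b : ℝ) : ℝ := ∫ g, Real.exp (-(b * qq ρ g)) ∂μ

theorem zz_lower (hρ : Continuous ρ) {b : ℝ} (hb : 0 ≤ b) :
    Real.exp (-(b * (4 * ‖(1 : A)‖ ^ 2))) ≤ zz μ ρ b := by
  have := continuous_qq ρ hρ
  have h := integral_mono (μ := μ) (f := fun _ => Real.exp (-(b * (4 * ‖(1 : A)‖ ^ 2))))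
    (g := fun g => Real.exp (-(b * qq ρ g))) (integrable_const _) (cint _ (by fun_prop))
    fun g => Real.exp_le_exp.mpr (neg_le_neg (mul_le_mul_of_nonneg_left (qq_le ρ g) hb))
  simpa [zz] using h

theorem zz_le_one (hρ : Continuous ρ) {b : ℝ} (hb : 0 ≤ b) : zz μ ρ b ≤ 1 := by
  have := continuous_qq ρ hρ
  have h := integral_mono (μ := μ) (g := fun _ => (1 : ℝ))
    (f := fun g => Real.exp (-(b * qq ρ g))) (cint _ (by fun_prop)) (integrable_const _)
    fun g => Real.exp_le_one_iff.mpr (neg_nonpos.mpr (mul_nonneg hb (qq_nonneg ρ g)))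
  simpa [zz] using h

theorem int_prod_zz {E : Type} [Fintype E] [DecidableEq E] (hρ : Continuous ρ) (b : ℝ)
    (D : Finset E) {Φ : (E → G) → E → G}
    (h : MeasurePreserving Φ (Measure.pi fun _ => μ) (Measure.pi fun _ => μ)) :
    ∫ U, Real.exp (-(b * ∑ e ∈ D, qq ρ (Φ U e))) ∂(Measure.pi fun _ => μ) =
      zz μ ρ b ^ D.card := by
  have hq := continuous_qq ρ hρ
  rw [int_mp h (F := fun U => Real.exp (-(b * ∑ e ∈ D, qq ρ (U e)))) (by fun_prop)]
  have := integral_fintype_prod_eq_prod (μ := fun _ : E => μ)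
    fun e g => if e ∈ D then Real.exp (-(b * qq ρ g)) else 1
  simp only [Finset.prod_ite_mem, Finset.univ_inter] at this
  simp only [Finset.mul_sum, ← Finset.sum_neg_distrib, Real.exp_sum]
  rw [this, ← Finset.prod_const, ← Finset.univ_inter D, ← Finset.prod_ite_mem, Finset.univ_inter]
  refine Finset.prod_congr rfl fun e _ => ?_
  split_ifs <;> simp [zz]

theorem ZZ_upper (hρ : Continuous ρ) {b : ℝ} (hb : 0 ≤ b) : ZZ μ ρ d L b ≤
    zz μ ρ b ^ (Finset.univ.filter fun e : Link d L => e.1 0 ≠ 0 ∧ e.2 ≠ 0).card := by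
  have hq := continuous_qq ρ hρ
  have hm := mp_tri μ (fun e : Link d L => if e.2 = 0 then 0 else (e.1 0).val + 1)
    (fun U e => if e.1 0 ≠ 0 ∧ e.2 ≠ 0 then U (e.1 - Pi.single 0 1, 0) else 1)
    (fun U e => if e.1 0 ≠ 0 ∧ e.2 ≠ 0 then (U (e.1 - Pi.single 0 1 + Pi.single e.2 1, 0))⁻¹ *
      (U (e.1 - Pi.single 0 1, e.2))⁻¹ else 1)
    (continuous_pi fun e => by split_ifs <;> fun_prop)
    (continuous_pi fun e => by split_ifs <;> fun_prop) ?_
  · rw [← int_prod_zz μ ρ hρ b _ hm]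
    refine integral_mono (cint _ (continuous_wt ρ hρ b)) (cint _ ?_) fun U => ?_
    · refine Real.continuous_exp.comp (Continuous.neg (continuous_const.mul
        (continuous_finsetSum _ fun e _ => hq.comp ?_)))
      split_ifs <;> fun_prop
    refine Real.exp_le_exp.mpr (neg_le_neg (mul_le_mul_of_nonneg_left ?_ hb))
    calc _ = ∑ e : Link d L with e.1 0 ≠ 0 ∧ e.2 ≠ 0, qq ρ (hol U (e.1 - Pi.single 0 1) 0 e.2) := by
          refine Finset.sum_congr rfl fun e he => ?_
          have := (Finset.mem_filter.mp he).2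
          simp only [if_pos this, hol, sub_add_cancel, mul_assoc]
      _ ≤ ∑ e : Link d L, qq ρ (hol U (e.1 - Pi.single 0 1) 0 e.2) :=
          Finset.sum_le_sum_of_subset_of_nonneg (Finset.filter_subset _ _)
            fun _ _ _ => qq_nonneg _ _
      _ = ∑ x, ∑ j, qq ρ (hol U x 0 j) := by
          rw [Fintype.sum_prod_type]
          exact Equiv.sum_comp (Equiv.subRight (Pi.single 0 1)) fun x => ∑ j, qq ρ (hol U x 0 j)
      _ ≤ act ρ U := Finset.sum_le_sum fun x _ =>
          Finset.single_le_sum (f := fun i => ∑ j, qq ρ (hol U x i j))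
            (fun i _ => Finset.sum_nonneg fun j _ => qq_nonneg _ _) (Finset.mem_univ 0)
  · intro U V e h
    by_cases he : e.1 0 ≠ 0 ∧ e.2 ≠ 0
    · simp only [if_neg he.2] at h
      have hv : ((e.1 - Pi.single 0 1 : Site d L) 0).val < (e.1 0).val := by
        have e1 : (e.1 - Pi.single 0 1 : Site d L) 0 = -(-e.1 0) - 1 := by simp
        have := ZMod.val_lt (e.1 0)
        have h0 : (e.1 0).val ≠ 0 := fun h => he.1 ((ZMod.val_eq_zero _).mp h)
        rw [e1, val_neg_sub_one, val_neg', if_neg h0]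
        omega
      simp only [if_pos he]
      rw [h (e.1 - Pi.single 0 1, 0) (by simp),
        h (e.1 - Pi.single 0 1 + Pi.single e.2 1, 0) (by simp),
        h (e.1 - Pi.single 0 1, e.2) (by simp only [if_neg he.2]; omega)]
      exact ⟨rfl, rfl⟩
    · simp only [if_neg he, and_self]

theorem qq_hol_le (U : Link d L → G) (x : Site d L) (i j : Fin d) : qq ρ (hol U x i j) ≤
    4 * (qq ρ (U (x, i)) + qq ρ (U (x + Pi.single i 1, j)) + qq ρ (U (x + Pi.single j 1, i)) +
      qq ρ (U (x, j))) := by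
  have t : ∀ g h : G, ‖(ρ (g * h) : A) - 1‖ ≤ ‖(ρ g : A) - 1‖ + ‖(ρ h : A) - 1‖ := fun g h => by
    rw [rho_mul]; exact norm_mul_sub_one_le (ρ g).2 _
  have s : ∀ g : G, ‖(ρ g⁻¹ : A) - 1‖ = ‖(ρ g : A) - 1‖ := fun g => by
    rw [rho_inv, norm_star_sub_one]
  have h1 := t (U (x, i) * U (x + Pi.single i 1, j) * (U (x + Pi.single j 1, i))⁻¹) (U (x, j))⁻¹
  have h2 := t (U (x, i) * U (x + Pi.single i 1, j)) (U (x + Pi.single j 1, i))⁻¹
  have h3 := t (U (x, i)) (U (x + Pi.single i 1, j))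
  rw [s] at h1 h2
  simp only [qq, hol]
  set a := ‖(ρ (U (x, i)) : A) - 1‖
  set b := ‖(ρ (U (x + Pi.single i 1, j)) : A) - 1‖
  set c := ‖(ρ (U (x + Pi.single j 1, i)) : A) - 1‖
  set e := ‖(ρ (U (x, j)) : A) - 1‖
  refine (pow_le_pow_left₀ (norm_nonneg _) (show _ ≤ a + b + c + e by linarith) 2).trans ?_
  nlinarith [sq_nonneg (a - b), sq_nonneg (a - c), sq_nonneg (a - e), sq_nonneg (b - c),
    sq_nonneg (b - e), sq_nonneg (c - e)]

theorem sum_links (f : Link d L → ℝ) :
    ∑ x : Site d L, ∑ i, ∑ j, (f (x, i) + f (x + Pi.single i 1, j) + f (x + Pi.single j 1, i) +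
      f (x, j)) = 4 * d * ∑ e, f e := by
  have h1 : ∑ x : Site d L, ∑ i, ∑ _j : Fin d, f (x, i) = d * ∑ e, f e := by
    simp [Fintype.sum_prod_type, Finset.mul_sum]
  have h2 : ∑ x : Site d L, ∑ _i : Fin d, ∑ j, f (x, j) = d * ∑ e, f e := by
    simp [Fintype.sum_prod_type, Finset.mul_sum]
  have h3 : ∑ x : Site d L, ∑ i, ∑ j, f (x + Pi.single i 1, j) = d * ∑ e, f e := by
    rw [← h2, Finset.sum_comm]
    conv_rhs => rw [Finset.sum_comm]
    exact Finset.sum_congr rfl fun i _ =>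
      Equiv.sum_comp (Equiv.addRight (Pi.single i 1)) fun x : Site d L => ∑ j, f (x, j)
  have h4 : ∑ x : Site d L, ∑ i, ∑ j, f (x + Pi.single j 1, i) = d * ∑ e, f e := by
    rw [← h3]
    exact Finset.sum_congr rfl fun x _ => Finset.sum_comm
  simp only [Finset.sum_add_distrib, h1, h2, h3, h4]
  ring

theorem act_fix (U : Link d L → G) : act ρ (fix U) = act ρ U := by
  simp only [act, fix, hol_gauge, qq_conj]

theorem ZZ_lower (hρ : Continuous ρ) {b : ℝ} (hb : 0 ≤ b) :
    zz μ ρ (16 * d * b) ^ (((Finset.univ.erase (0 : Site d L)).image plink)ᶜ).card ≤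
      ZZ μ ρ d L b := by
  have hq := continuous_qq ρ hρ
  set T := (Finset.univ.erase (0 : Site d L)).image plink with hT
  have hcmb := continuous_cmb (G := G) (d := d) (L := L)
  have hm := mp_tri μ (fun e : Link d L => if e ∈ T then 0 else 1)
    (fun U e => if e ∈ T then 1 else cmb Inv.inv U e.1)
    (fun U e => if e ∈ T then 1 else (cmb Inv.inv U (e.1 + Pi.single e.2 1))⁻¹)
    (continuous_pi fun e => by split_ifs <;> fun_prop)
    (continuous_pi fun e => by split_ifs <;> fun_prop) ?_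
  · rw [← int_prod_zz μ ρ hρ _ _ hm]
    refine integral_mono (cint _ ?_) (cint _ (continuous_wt ρ hρ b)) fun U => ?_
    · refine Real.continuous_exp.comp (Continuous.neg (continuous_const.mul
        (continuous_finsetSum _ fun e _ => hq.comp ?_)))
      split_ifs <;> fun_prop
    refine Real.exp_le_exp.mpr (neg_le_neg ?_)
    have h1 : act ρ U ≤ 16 * d * ∑ e, qq ρ (fix U e) := by
      rw [← act_fix]
      refine le_trans (Finset.sum_le_sum fun x _ => Finset.sum_le_sum fun i _ =>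
        Finset.sum_le_sum fun j _ => qq_hol_le ρ (fix U) x i j) (le_of_eq ?_)
      simp only [← Finset.mul_sum]
      rw [sum_links fun e => qq ρ (fix U e)]
      ring
    have h2 : ∑ e, qq ρ (fix U e) = ∑ e ∈ Tᶜ, qq ρ ((if e ∈ T then 1 else cmb Inv.inv U e.1) * U e *
        if e ∈ T then 1 else (cmb Inv.inv U (e.1 + Pi.single e.2 1))⁻¹) := by
      rw [← Finset.sum_add_sum_compl T, Finset.sum_eq_zero, zero_add]
      · refine Finset.sum_congr rfl fun e he => ?_
        rw [if_neg (Finset.mem_compl.mp he), if_neg (Finset.mem_compl.mp he)]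
        rfl
      · intro e he
        obtain ⟨x, hx, rfl⟩ := Finset.mem_image.mp he
        rw [fix_plink U (Finset.ne_of_mem_erase hx), qq_one]
    rw [← h2]
    have := mul_le_mul_of_nonneg_left h1 hb
    linarith
  · intro U V e h
    by_cases he : e ∈ T
    · simp [he]
    · have : ∀ x, cmb Inv.inv U x = cmb Inv.inv V x := fun x => cmb_congr _ _ _ x fun y hy _ =>
        h _ (by rw [if_neg he, if_pos (Finset.mem_image_of_mem _ (by simp [hy]))]; norm_num)
      simp [this]

theorem card_links : ∃ r : ℕ, r * L ≤ (d + 1) * L ^ d ∧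
    (((Finset.univ.erase (0 : Site d L)).image plink)ᶜ).card ≤
      (Finset.univ.filter fun e : Link d L => e.1 0 ≠ 0 ∧ e.2 ≠ 0).card + r := by
  set n' := (Finset.univ.filter fun x : Site d L => x 0 = 0).card with hn'
  have cS : Fintype.card (Site d L) = L ^ d := by simp
  have cE : Fintype.card (Link d L) = L ^ d * d := by simp
  have h1 : n' * L ≤ L ^ d := by
    have := Finset.card_le_card_of_injOn (s := (Finset.univ.filter fun x : Site d L => x 0 = 0) ×ˢ
      (Finset.univ : Finset (ZMod L))) (t := (Finset.univ : Finset (Site d L)))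
      (fun z => z.1 + Pi.single 0 z.2) (fun _ _ => by simp) ?_
    · simpa using this
    · rintro ⟨x, c⟩ hx ⟨y, c'⟩ hy h
      simp only [Finset.coe_product, Set.mem_prod, Finset.coe_filter] at hx hy
      have h0 := congrFun h 0
      simp only [Pi.add_apply, Pi.single_eq_same, hx.1.2, hy.1.2, zero_add] at h0
      simp only [h0] at h
      rw [h0, add_right_cancel h]
  have h2 : L ≤ L ^ d := Nat.le_self_pow (NeZero.ne d) L
  refine ⟨d * n' + 1, by nlinarith, ?_⟩
  have h3 : ((Finset.univ.erase (0 : Site d L)).image plink).card = L ^ d - 1 := by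
    rw [Finset.card_image_of_injOn fun x hx y hy h =>
      plink_inj (Finset.ne_of_mem_erase hx) (Finset.ne_of_mem_erase hy) h,
      Finset.card_erase_of_mem (Finset.mem_univ _), Finset.card_univ, cS]
  have h4 : (Finset.univ.filter fun e : Link d L => ¬ (e.1 0 ≠ 0 ∧ e.2 ≠ 0)).card ≤
      n' * d + L ^ d := by
    refine (Finset.card_le_card (t := ((Finset.univ.filter fun x : Site d L => x 0 = 0) ×ˢ
      Finset.univ) ∪ (Finset.univ ×ˢ {0})) fun e he => ?_).trans
      ((Finset.card_union_le _ _).trans (by simp [hn']))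
    simp only [Finset.mem_filter, Finset.mem_univ, true_and, Finset.mem_union,
      Finset.mem_product, and_true, Finset.mem_singleton] at he ⊢
    tauto
  have h5 := Finset.card_filter_add_card_filter_not (s := (Finset.univ : Finset (Link d L)))
    fun e : Link d L => e.1 0 ≠ 0 ∧ e.2 ≠ 0
  rw [Finset.card_univ, cE] at h5
  rw [Finset.card_compl, h3, cE]
  have := NeZero.pos L
  have : d * n' = n' * d := mul_comm _ _
  omega

theorem Z_ratio (hρ : Continuous ρ) {C : ℝ} (hC : 1 ≤ C) {b : ℝ} (hb : 0 ≤ b) (hbL : b ≤ L)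
    (hD : zz μ ρ (b / 2) ≤ C * zz μ ρ (16 * d * b)) :
    ZZ μ ρ d L (b / 2) ≤ (C ^ d * Real.exp ((d + 1) * (16 * d * (4 * ‖(1 : A)‖ ^ 2)))) ^ (L ^ d) *
      ZZ μ ρ d L b := by
  obtain ⟨r, hr1, hr2⟩ := card_links (d := d) (L := L)
  have h1 := ZZ_upper (d := d) (L := L) μ ρ hρ (b := b / 2) (by positivity)
  have h2 := ZZ_lower (d := d) (L := L) μ ρ hρ hb
  have hb' : 0 ≤ 16 * d * b := by positivity
  have h3 := zz_lower μ ρ hρ hb'
  have h4 := zz_le_one μ ρ hρ hb'
  have hD' : (Finset.univ.filter fun e : Link d L => e.1 0 ≠ 0 ∧ e.2 ≠ 0).card ≤ d * L ^ d :=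
    (Finset.card_le_univ _).trans (by simp [mul_comm])
  set D := (Finset.univ.filter fun e : Link d L => e.1 0 ≠ 0 ∧ e.2 ≠ 0).card
  set z := zz μ ρ (16 * d * b)
  set κ := 16 * d * (4 * ‖(1 : A)‖ ^ 2) with hκ
  have hκ0 : 0 ≤ κ := by positivity
  have z0 : 0 < z := (Real.exp_pos _).trans_le h3
  have h5 : z ^ D * z ^ r ≤ ZZ μ ρ d L b := by
    rw [← pow_add]; exact (pow_le_pow_of_le_one z0.le h4 hr2).trans h2
  have h6 : 1 ≤ Real.exp ((d + 1) * κ) ^ (L ^ d) * z ^ r := by
    refine le_trans ?_ (mul_le_mul_of_nonneg_left (pow_le_pow_left₀ (Real.exp_pos _).le h3 r)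
      (by positivity))
    rw [← Real.exp_nat_mul, ← Real.exp_nat_mul, ← Real.exp_add]
    refine Real.one_le_exp ?_
    have e1 : (r : ℝ) * L ≤ (d + 1) * L ^ d := by exact_mod_cast hr1
    have e2 : (r : ℝ) * b ≤ r * L := mul_le_mul_of_nonneg_left hbL (by positivity)
    have e3 := mul_le_mul_of_nonneg_left (e2.trans e1) hκ0
    push_cast
    nlinarith
  have h7 : zz μ ρ (b / 2) ^ D ≤ (C ^ d) ^ (L ^ d) * z ^ D := by
    have z1 : 0 ≤ zz μ ρ (b / 2) := integral_nonneg fun g => (Real.exp_pos _).le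
    refine (pow_le_pow_left₀ z1 hD D).trans ?_
    rw [mul_pow, ← pow_mul]
    exact mul_le_mul_of_nonneg_right (pow_le_pow_right₀ hC hD') (by positivity)
  rw [mul_pow]
  have C0 : 0 ≤ (C ^ d) ^ (L ^ d) := by positivity
  calc _ ≤ (C ^ d) ^ (L ^ d) * (z ^ D * 1) := by rw [mul_one]; exact h1.trans h7
    _ ≤ (C ^ d) ^ (L ^ d) * (z ^ D * (Real.exp ((d + 1) * κ) ^ (L ^ d) * z ^ r)) := by gcongr
    _ = (C ^ d) ^ (L ^ d) * (Real.exp ((d + 1) * κ) ^ (L ^ d) * (z ^ D * z ^ r)) := by ring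
    _ ≤ _ := by rw [mul_assoc]; gcongr

end Pool.Agent.Lib.MP_7f377f_mp.Weak
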