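import Pool.Agent.Lib.MP_7f377f_mp.CoulUp
import Pool.Agent.Lib.MP_7f377f_mp.WeakZ
import Pool.Agent.Lib.MP_7f377f_mp.WeakBall

/-! Moments of the local curvature. -/

namespace Pool.Agent.Lib.MP_7f377f_mp.Coul

open Weak MeasureTheory
open scoped InnerProductSpace

set_option linter.unusedSectionVars false
set_option maxHeartbeats 400000

variable {A : Type} [NormedRing A] [StarRing A] [NormedAlgebra ℝ A] [HS A]
variable {n L : ℕ} {G : Type} [Group G] [NeZero L] (ρ : G →* unitary A)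

theorem exp_sum_le {κ : Type} (I : Finset κ) {w : ℝ} (hw : 0 ≤ w) (h : I.card * w ≤ 1)
    (X : κ → ℝ) : Real.exp (w * ∑ c ∈ I, X c) ≤ w * ∑ c ∈ I, Real.exp (X c) + (1 - I.card * w) := by
  set s := w * ∑ c ∈ I, X c with hs
  have h1 : ∀ x, Real.exp s * (1 + x - s) ≤ Real.exp x := fun x => by
    have := mul_le_mul_of_nonneg_left (Real.add_one_le_exp (x - s)) (Real.exp_pos s).le
    rw [← Real.exp_add, add_sub_cancel] at this
    linarith
  have h2 := mul_le_mul_of_nonneg_left (Finset.sum_le_sum (s := I) fun c _ => h1 (X c)) hw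
  have h3 := mul_le_mul_of_nonneg_left (h1 0) (sub_nonneg.mpr h)
  rw [← Finset.mul_sum, Finset.sum_sub_distrib, Finset.sum_add_distrib] at h2
  simp only [Finset.sum_const, nsmul_eq_mul, mul_one, Real.exp_zero] at h2 h3
  have h4 : w * (Real.exp s * (I.card + ∑ c ∈ I, X c - I.card * s)) =
      Real.exp s * (I.card * w + s - I.card * w * s) := by rw [hs]; ring
  nlinarith

/-- local curvature near the time `t` -/
noncomputable def loc (M : ℕ) (U : Link (n + 1) L → G) (t : ZMod L) : ℝ :=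
  ∑ c ∈ bx n L M ×ˢ (Finset.univ : Finset (Fin (n + 1) × Fin (n + 1))),
    ‖(ρ (hol U (st t c.1) c.2.1 c.2.2) : A) - 1‖

theorem loc_nonneg (M : ℕ) (U : Link (n + 1) L → G) (t : ZMod L) : 0 ≤ loc ρ M U t :=
  Finset.sum_nonneg fun _ _ => norm_nonneg _

theorem le_loc {M : ℕ} (U : Link (n + 1) L → G) (t : ZMod L) {y : Site n L} (hy : inBox M y)
    (i j : Fin (n + 1)) : ‖(ρ (hol U (st t y) i j) : A) - 1‖ ≤ loc ρ M U t :=
  Finset.single_le_sum (f := fun c : Site n L × Fin (n + 1) × Fin (n + 1) =>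
    ‖(ρ (hol U (st t c.1) c.2.1 c.2.2) : A) - 1‖) (fun _ _ => norm_nonneg _)
    (a := (y, i, j)) (by simp [mem_bx, hy])

/-- the number of plaquettes entering `loc` -/
def QQ (n M : ℕ) : ℝ := (2 * M + 1) ^ n * (n + 1) ^ 2

theorem QQ_pos (n M : ℕ) : 0 < QQ n M := by unfold QQ; positivity

theorem card_loc (M : ℕ) :
    ((bx n L M ×ˢ (Finset.univ : Finset (Fin (n + 1) × Fin (n + 1)))).card : ℝ) ≤ QQ n M := by
  have : ((bx n L M).card : ℝ) ≤ (2 * M + 1) ^ n := by exact_mod_cast card_bx M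
  simp only [Finset.card_product, Finset.card_univ, Fintype.card_prod, Fintype.card_fin, QQ]
  push_cast
  rw [← sq]
  gcongr

theorem fix_le [NeZero n] {M : ℕ} (hM : (M + 1) * 2 ≤ L) (U : Link (n + 1) L → G) (t : ZMod L)
    (g : Site n L → G) {e : Link n L} (he : inBox M e.1) :
    ‖(ρ (fix (Weak.gauge g (sl U t)) e) : A) - 1‖ ≤ n * M * loc ρ M U t := by
  refine (fix_small ρ hM _ (loc_nonneg ρ M U t) (fun y hy i j => ?_) e.1 he e.2).trans ?_
  · rw [hol_gauge, norm_conj, ← hol_sl]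
    exact le_loc ρ U t hy _ _
  · exact mul_le_mul_of_nonneg_right (by exact_mod_cast ht_le he) (loc_nonneg ρ M U t)

theorem gauge_one {d : ℕ} (a : Link d L → G) : Weak.gauge 1 a = a := by
  funext e; simp [Weak.gauge]

theorem dv_le [NeZero n] {M : ℕ} (hM : (M + 1) * 2 ≤ L) (U : Link (n + 1) L → G) (t : ZMod L) :
    dv ρ M (sl U t) (tm U t) (sl U (t + 1)) ≤ QQ n M * (1 + n * M) * loc ρ M U t := by
  have h0 := loc_nonneg ρ M U t
  refine (Finset.sum_le_card_nsmul _ _ ((1 + n * M) * loc ρ M U t) fun e he => ?_).trans ?_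
  · have he' := mem_bx.mp (Finset.mem_product.mp he).1
    have h1 := fix_le ρ hM U t 1 he'
    rw [gauge_one] at h1
    rw [← hol_tm]
    linarith [le_loc ρ U t he' 0 e.2.succ]
  · have : ((bx n L M).card : ℝ) ≤ (2 * M + 1) ^ n := by exact_mod_cast card_bx M
    rw [nsmul_eq_mul, mul_assoc]
    refine mul_le_mul_of_nonneg_right ?_ (by positivity)
    simp only [Finset.card_product, Finset.card_univ, Fintype.card_fin, QQ]
    push_cast
    exact mul_le_mul this (by nlinarith) (by positivity) (by positivity)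

variable [TopologicalSpace G] [IsTopologicalGroup G] [CompactSpace G]
  [SecondCountableTopology G] [MeasurableSpace G] [BorelSpace G] (μ : Measure G)
  [μ.IsHaarMeasure] [IsProbabilityMeasure μ]

/-- exponential moment bound for parallel plaquettes -/
def Mom (n L : ℕ) [NeZero L] (b c : ℝ) : Prop :=
  ∀ (i j : Fin (n + 1)) (S : Finset (Site (n + 1) L)),
    ∫ U, Real.exp (b / 2 ^ (n + 2) * ∑ x ∈ S, qq ρ (hol U x i j)) ∂(nu μ ρ (n + 1) L b) ≤
      Real.exp (S.card * c)

theorem exists_mom (hρ : Continuous ρ) (n : ℕ) : ∃ c : ℝ, 0 ≤ c ∧ ∀ (L : ℕ) [NeZero L] (b : ℝ),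
    Even L → 0 < b → b ≤ L → Mom ρ μ n L b c := by
  obtain ⟨C, hC, h⟩ := haar_doubling μ ρ hρ (16 * (n + 1 : ℕ)) (by positivity)
  set C' := C ^ (n + 1) * Real.exp (((n + 1 : ℕ) + 1) * (16 * (n + 1 : ℕ) * (4 * ‖(1 : A)‖ ^ 2)))
    with hC'
  have h1 : 1 ≤ C' := one_le_mul_of_one_le_of_one_le (one_le_pow₀ hC)
    (Real.one_le_exp (by positivity))
  refine ⟨Real.log C', Real.log_nonneg h1, fun L _ b hL hb hbL i j S => ?_⟩
  obtain ⟨m, hm⟩ := hL
  rw [Real.exp_nat_mul, Real.exp_log (by linarith)]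
  exact exp_moment_of_Z μ ρ hρ hb.le (m := m) (by omega) (by linarith)
    (Z_ratio μ ρ hρ hC hb.le hbL (h b hb)) i j S

theorem continuous_loc (hρ : Continuous ρ) (M : ℕ) (t : ZMod L) :
    Continuous fun U : Link (n + 1) L → G => loc ρ M U t :=
  continuous_finsetSum _ fun _ _ =>
    (((continuous_rho ρ hρ).comp (continuous_hol _ _ _)).sub continuous_const).norm

theorem mom_exp (hρ : Continuous ρ) {b c : ℝ} (hb : 0 < b) (hc : 0 ≤ c) (h : Mom ρ μ n L b c)
    (M : ℕ) {w δ : ℝ} (hw : 0 ≤ w) (hw' : QQ n M * w ≤ 1) {T : ℕ} (hT : T ≤ L) :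
    ∫ U, Real.exp (w * (b / 2 ^ (n + 2) * δ) * ∑ t ∈ Finset.range T, loc ρ M U t)
      ∂(nu μ ρ (n + 1) L b) ≤ Real.exp (T * (QQ n M * w * (b / 2 ^ (n + 2) * δ ^ 2 + c))) := by
  have := nu_prob (d := n + 1) (L := L) μ ρ hρ b
  have hl := continuous_loc (n := n) (L := L) ρ hρ M
  have hq := continuous_qhol (d := n + 1) (L := L) ρ hρ
  set γ := b / 2 ^ (n + 2) with hγ
  have γ0 : 0 < γ := by positivity
  set I := bx n L M ×ˢ (Finset.univ : Finset (Fin (n + 1) × Fin (n + 1))) with hI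
  have hI' : (I.card : ℝ) ≤ QQ n M := card_loc M
  set Y : Site n L × Fin (n + 1) × Fin (n + 1) → (Link (n + 1) L → G) → ℝ := fun x U =>
    γ * ∑ t ∈ Finset.range T, qq ρ (hol U (st t x.1) x.2.1 x.2.2) - T * c with hY
  have cY : ∀ x, Continuous (Y x) := fun x => by simp only [hY]; fun_prop
  have h1 : ∀ x, ∫ U, Real.exp (Y x U) ∂(nu μ ρ (n + 1) L b) ≤ 1 := by
    intro x
    have inj : Set.InjOn (fun t : ℕ => st (t : ZMod L) x.1) (Finset.range T) := by
      intro s hs t ht e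
      have := congrArg (fun z : Site (n + 1) L => (z 0).val) e
      simp only [Finset.coe_range, Set.mem_Iio] at hs ht
      simpa only [st_zero, ZMod.val_cast_of_lt (hs.trans_le hT),
        ZMod.val_cast_of_lt (ht.trans_le hT)] using this
    have := h x.2.1 x.2.2 ((Finset.range T).image fun t : ℕ => st (t : ZMod L) x.1)
    simp only [Finset.sum_image inj, Finset.card_image_of_injOn inj, Finset.card_range] at this
    simp only [hY, Real.exp_sub, integral_div]
    exact (div_le_one (Real.exp_pos _)).mpr this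
  have h2 : ∀ U, Real.exp (w * (γ * δ) * ∑ t ∈ Finset.range T, loc ρ M U t) ≤
      Real.exp (T * (QQ n M * w * (γ * δ ^ 2 + c))) *
        (w * ∑ x ∈ I, Real.exp (Y x U) + (1 - I.card * w)) := by
    intro U
    refine le_trans ?_ (mul_le_mul_of_nonneg_left
      (exp_sum_le I hw ((mul_le_mul_of_nonneg_right hI' hw).trans hw') fun x => Y x U)
      (Real.exp_pos _).le)
    rw [← Real.exp_add, Real.exp_le_exp]
    have e1 : δ * ∑ t ∈ Finset.range T, loc ρ M U t ≤
        ∑ x ∈ I, ∑ t ∈ Finset.range T, (δ ^ 2 + qq ρ (hol U (st t x.1) x.2.1 x.2.2)) := by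
      rw [Finset.sum_comm, Finset.mul_sum]
      refine Finset.sum_le_sum fun t _ => ?_
      rw [loc, Finset.mul_sum]
      refine Finset.sum_le_sum fun x _ => ?_
      rw [qq]
      nlinarith [sq_nonneg (δ - ‖(ρ (hol U (st t x.1) x.2.1 x.2.2) : A) - 1‖), sq_nonneg δ,
        sq_nonneg ‖(ρ (hol U (st t x.1) x.2.1 x.2.2) : A) - 1‖]
    simp only [Finset.sum_add_distrib, Finset.sum_const, Finset.card_range, nsmul_eq_mul] at e1
    simp only [hY, Finset.sum_sub_distrib, Finset.sum_const, nsmul_eq_mul, ← Finset.mul_sum]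
    have e2 := mul_le_mul_of_nonneg_left e1 (mul_nonneg hw γ0.le)
    have e3 := mul_le_mul_of_nonneg_right hI'
      (show 0 ≤ T * w * (γ * δ ^ 2 + c) by positivity)
    linarith
  refine (integral_mono (cint _ (by fun_prop)) (cint _ (by fun_prop)) h2).trans ?_
  rw [integral_const_mul, integral_add (cint _ (by fun_prop)) (integrable_const _),
    integral_const_mul, integral_finsetSum _ fun x _ => cint _ (by fun_prop)]
  refine mul_le_of_le_one_right (Real.exp_pos _).le ?_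
  have h3 := mul_le_mul_of_nonneg_left (Finset.sum_le_card_nsmul I _ 1 fun x _ => h1 x) hw
  simp only [nsmul_eq_mul, mul_one, integral_const, probReal_univ, smul_eq_mul, one_mul] at h3 ⊢
  linarith

theorem mom_pow (hρ : Continuous ρ) {b c : ℝ} (h : Mom ρ μ n L b c) (M : ℕ) {r : ℝ} (hr : 0 < r)
    (hr' : r ^ 2 = b / 2 ^ (n + 2)) (t : ZMod L) (k : ℕ) (hk : k = 0 ∨ k = 2) :
    ∫ U, loc ρ M U t ^ (k + 1) ∂(nu μ ρ (n + 1) L b) ≤
      2 * QQ n M ^ (k + 1) * Real.exp c / r ^ (k + 1) := by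
  have hl := continuous_loc (n := n) (L := L) ρ hρ M
  have hq := continuous_qhol (d := n + 1) (L := L) ρ hρ
  set I := bx n L M ×ˢ (Finset.univ : Finset (Fin (n + 1) × Fin (n + 1))) with hI
  have hI' : (I.card : ℝ) ≤ QQ n M := card_loc M
  have h1 : ∀ s : ℝ, 0 ≤ s → s ^ (k + 1) ≤ 2 / r ^ (k + 1) * Real.exp (r ^ 2 * s ^ 2) := by
    intro s hs
    rw [div_mul_eq_mul_div, le_div_iff₀ (by positivity), ← mul_pow, ← mul_pow, mul_comm r]
    have h0 : 0 ≤ s * r := by positivity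
    generalize s * r = u at *
    have := Real.quadratic_le_exp_of_nonneg (sq_nonneg u)
    rcases hk with rfl | rfl
    · change u ^ 1 ≤ _
      nlinarith [sq_nonneg (u - 1), sq_nonneg (u ^ 2), sq_nonneg u]
    · change u ^ 3 ≤ _
      nlinarith [sq_nonneg (u ^ 2 - u), sq_nonneg u, sq_nonneg (u ^ 2)]
  have h2 : ∀ U, loc ρ M U t ^ (k + 1) ≤ QQ n M ^ k * (2 / r ^ (k + 1)) *
      ∑ x ∈ I, Real.exp (r ^ 2 * qq ρ (hol U (st t x.1) x.2.1 x.2.2)) := by
    intro U
    refine (pow_sum_le_card_mul_sum_pow (fun _ _ => norm_nonneg _) k).trans ?_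
    rw [mul_assoc, Finset.mul_sum _ _ (2 / _)]
    exact mul_le_mul (pow_le_pow_left₀ (by positivity) hI' k)
      (Finset.sum_le_sum fun x _ => h1 _ (norm_nonneg _)) (by positivity)
      (pow_nonneg (QQ_pos n M).le k)
  refine (integral_mono (cint _ (by fun_prop)) (cint _ (by fun_prop)) h2).trans ?_
  rw [integral_const_mul, integral_finsetSum _ fun x _ => cint _ (by fun_prop)]
  have h3 := Finset.sum_le_card_nsmul I (fun x => ∫ U, Real.exp (r ^ 2 *
    qq ρ (hol U (st t x.1) x.2.1 x.2.2)) ∂(nu μ ρ (n + 1) L b)) (Real.exp c) fun x _ => by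
      simpa [hr'] using h x.2.1 x.2.2 {st t x.1}
  rw [nsmul_eq_mul] at h3
  have := QQ_pos n M
  calc _ ≤ QQ n M ^ k * (2 / r ^ (k + 1)) * (QQ n M * Real.exp c) :=
        mul_le_mul_of_nonneg_left (h3.trans (by gcongr)) (by positivity)
    _ = _ := by rw [pow_succ (QQ n M)]; ring

end Pool.Agent.Lib.MP_7f377f_mp.Coul
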