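import Pool.Agent.Lib.MP_7f377f_mp.CoulCas

/-! Integration by parts along simultaneous one-parameter subgroups. -/

namespace Pool.Agent.Lib.MP_7f377f_mp.Coul

open Weak MeasureTheory NormedSpace
open scoped InnerProductSpace

set_option linter.unusedSectionVars false

variable {A : Type} [NormedRing A] [StarRing A] [NormedAlgebra ℝ A] [HS A]
variable {V : Type}

/-- `F'` is the derivative of `F` along the right invariant vector field given by `Y` -/
def Dir {M : Type} [NormedAddCommGroup M] [NormedSpace ℝ M] (Y : V → A) (F F' : (V → A) → M) :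
    Prop :=
  ∀ u, HasDerivAt (fun τ : ℝ => F fun z => exp (τ • Y z) * u z) (F' u) 0

variable {Y : V → A}

theorem flow_zero (Y : V → A) (u : V → A) : (fun z => exp ((0 : ℝ) • Y z) * u z) = u := by
  funext z; simp

theorem Dir.coord (Y : V → A) (z : V) : Dir Y (fun u => u z) fun u => Y z * u z := fun u => by
  simpa using (hasDerivAt_exp_smul_const (Y z) (0 : ℝ)).mul_const (u z)

theorem Dir.star_coord (z : V) (h : star (Y z) = -Y z) :
    Dir Y (fun u => star (u z)) fun u => -(star (u z) * Y z) := fun u => by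
  have := (Dir.coord Y z u).star
  simpa [h] using this

theorem Dir.const {M : Type} [NormedAddCommGroup M] [NormedSpace ℝ M] (Y : V → A) (c : M) :
    Dir Y (fun _ => c) fun _ => 0 := fun _ => hasDerivAt_const _ _

theorem Dir.congr {M : Type} [NormedAddCommGroup M] [NormedSpace ℝ M] {F F' F'' : (V → A) → M}
    (h : Dir Y F F') (h' : ∀ u, F' u = F'' u) : Dir Y F F'' := fun u => h' u ▸ h u

theorem Dir.mul {M : Type} [NormedRing M] [NormedAlgebra ℝ M] {F F' H H' : (V → A) → M}
    (h : Dir Y F F') (h' : Dir Y H H') :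
    Dir Y (fun u => F u * H u) fun u => F' u * H u + F u * H' u := fun u => by
  have := (h u).mul (h' u)
  simp only [flow_zero] at this
  exact this

theorem Dir.sub {M : Type} [NormedAddCommGroup M] [NormedSpace ℝ M] {F F' H H' : (V → A) → M}
    (h : Dir Y F F') (h' : Dir Y H H') :
    Dir Y (fun u => F u - H u) fun u => F' u - H' u := fun u => (h u).sub (h' u)

theorem Dir.sum {M : Type} [NormedAddCommGroup M] [NormedSpace ℝ M] {E : Type} [Fintype E]
    {F F' : E → (V → A) → M} (h : ∀ e, Dir Y (F e) (F' e)) :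
    Dir Y (fun u => ∑ e, F e u) fun u => ∑ e, F' e u := fun u =>
  HasDerivAt.fun_sum fun e _ => h e u

theorem Dir.tr {F F' : (V → A) → A} (h : Dir Y F F') :
    Dir Y (fun u => HS.tr (F u)) fun u => HS.tr (F' u) := fun u =>
  (LinearMap.toContinuousLinearMap (HS.tr (A := A))).hasFDerivAt.comp_hasDerivAt _ (h u)

theorem Dir.inner (c : A) {F F' : (V → A) → A} (h : Dir Y F F') :
    Dir Y (fun u => ⟪c, F u⟫_ℝ) fun u => ⟪c, F' u⟫_ℝ := fun u =>
  (innerSL ℝ c).hasFDerivAt.comp_hasDerivAt _ (h u)

theorem Dir.exp (c : ℝ) {F F' : (V → A) → ℝ} (h : Dir Y F F') :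
    Dir Y (fun u => Real.exp (c * F u)) fun u => c * F' u * Real.exp (c * F u) := fun u => by
  have := ((h u).const_mul c).exp
  simp only [flow_zero] at this
  rw [mul_comm (Real.exp _)] at this
  exact this

variable {G : Type} [Group G] [TopologicalSpace G] [IsTopologicalGroup G] [CompactSpace G]
  [SecondCountableTopology G] [MeasurableSpace G] [BorelSpace G] (μ : Measure G)
  [μ.IsHaarMeasure] [IsProbabilityMeasure μ] (ρ : G →* unitary A) [Fintype V]

theorem sd (hρ : Continuous ρ) (hY : ∀ z, Y z ∈ lieAlg ρ) {F F' : (V → A) → ℝ}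
    (hF : Continuous F) (hF' : Continuous F') (hd : Dir Y F F') :
    ∫ g : V → G, F' (fun z => ρ (g z)) ∂(Measure.pi fun _ => μ) = 0 := by
  have hc := continuous_rho ρ hρ
  have he : ∀ z, Continuous fun τ : ℝ => exp (τ • Y z) := fun z =>
    continuous_iff_continuousAt.mpr fun τ => (hasDerivAt_exp_smul_const (Y z) τ).continuousAt
  have inv : ∀ (H : (V → A) → ℝ), Continuous H → ∀ τ : ℝ,
      ∫ g : V → G, H (fun z => exp (τ • Y z) * ρ (g z)) ∂(Measure.pi fun _ => μ) =
        ∫ g : V → G, H (fun z => ρ (g z)) ∂(Measure.pi fun _ => μ) := by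
    intro H hH τ
    choose k hk using fun z => lieAlg_exp ρ hρ (hY z) τ
    have := measurePreserving_pi (fun _ : V => μ) (fun _ => μ) (f := fun z g => k z * g)
      fun z => measurePreserving_mul_left μ (k z)
    rw [← int_mp this (F := fun g => H fun z => ρ (g z)) (by fun_prop)]
    simp only [rho_mul, hk]
  have der : ∀ (u : V → A) (τ : ℝ), HasDerivAt (fun τ : ℝ => F fun z => exp (τ • Y z) * u z)
      (F' fun z => exp (τ • Y z) * u z) τ := by
    intro u τ
    have h1 := hd fun z => exp (τ • Y z) * u z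
    rw [← sub_self τ] at h1
    refine (h1.comp_sub_const τ τ).congr_of_eventuallyEq (Filter.Eventually.of_forall fun σ => ?_)
    refine congrArg F (funext fun z => ?_)
    rw [← mul_assoc, ← exp_add_of_commute (((Commute.refl _).smul_left _).smul_right _), ← add_smul,
      sub_add_cancel]
  obtain ⟨B, hB⟩ := (isCompact_Icc (a := (-1 : ℝ)) (b := 1)).prod (isCompact_univ (X := V → G))
    |>.exists_bound_of_continuousOn
      (f := fun q : ℝ × (V → G) => F' fun z => exp (q.1 • Y z) * ρ (q.2 z))
      (Continuous.continuousOn (hF'.comp (continuous_pi fun z =>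
        ((he z).comp continuous_fst).mul (by fun_prop))))
  have h := (hasDerivAt_integral_of_dominated_loc_of_deriv_le (μ := Measure.pi fun _ : V => μ)
    (F := fun (τ : ℝ) (g : V → G) => F fun z => exp (τ • Y z) * ρ (g z))
    (F' := fun (τ : ℝ) (g : V → G) => F' fun z => exp (τ • Y z) * ρ (g z)) (x₀ := 0)
    (bound := fun _ => B) (Icc_mem_nhds (a := -1) (b := 1) (by norm_num) (by norm_num))
    (Filter.Eventually.of_forall fun τ => Continuous.aestronglyMeasurable (by fun_prop))
    (cint _ (by fun_prop)) (Continuous.aestronglyMeasurable (by fun_prop))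
    (Filter.Eventually.of_forall fun g τ hτ => hB (τ, g) ⟨hτ, trivial⟩) (integrable_const _)
    (Filter.Eventually.of_forall fun g τ _ => der _ τ)).2
  simp only [inv F hF, inv F' hF'] at h
  exact h.unique (hasDerivAt_const _ _)

end Pool.Agent.Lib.MP_7f377f_mp.Coul
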