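import Pool.Agent.Lib.MP_7f377f_mp.CoulSD

/-! A Cramer-Rao type bound for the two-point function of a sigma model in a background field. -/

namespace Pool.Agent.Lib.MP_7f377f_mp.Coul

open Weak MeasureTheory
open scoped InnerProductSpace

set_option linter.unusedSectionVars false

variable {A : Type} [NormedRing A] [StarRing A] [NormedAlgebra ℝ A] [HS A]
variable {ι : Type} [Fintype ι] [DecidableEq ι]

theorem norm_conj_sub {w : A} (hw : w ∈ unitary A) (T : A) :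
    ‖w * T * star w - T‖ ≤ 2 * ‖T‖ * ‖w - 1‖ := by
  have : w * T * star w - T = (w - 1) * T * star w + T * (star w - 1) := by noncomm_ring
  rw [this]
  refine (norm_add_le _ _).trans ?_
  rw [norm_mul_unit (Unitary.star_mem hw)]
  have h1 := norm_mul_le (w - 1) T
  have h2 := norm_mul_le T (star w - 1)
  rw [norm_star_sub_one] at h2
  linarith

theorem hess_err {M ε d₁ d₂ d₃ d₄ : ℝ} {P S₁ S₂ T₁ T₂ : A} (h₁ : |d₁| ≤ M) (h₂ : |d₂| ≤ M)
    (h₃ : |d₃| ≤ M) (h₄ : |d₄| ≤ M) (s₁ : ‖S₁‖ = 1) (s₂ : ‖S₂‖ = 1) (t₁ : ‖T₁‖ = 1) (t₂ : ‖T₂‖ = 1)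
    {εw : ℝ} (w₁ : ‖T₁ - S₁‖ ≤ 2 * εw) (w₂ : ‖T₂ - S₂‖ ≤ 2 * εw) (hε : ‖P - 1‖ + εw ≤ ε) :
    |HS.tr ((d₁ • S₁ * P - P * d₂ • T₁) * (d₃ • S₂ - d₄ • T₂)) -
      (d₁ - d₂) * (d₃ - d₄) * HS.tr (S₁ * S₂)| ≤ 8 * M ^ 2 * ε := by
  have hM : 0 ≤ M := (abs_nonneg _).trans h₁
  have hw : 0 ≤ εw := by linarith [norm_nonneg (T₁ - S₁)]
  have hP := norm_nonneg (P - 1)
  have e : HS.tr ((d₁ • S₁ * P - P * d₂ • T₁) * (d₃ • S₂ - d₄ • T₂)) -
      (d₁ - d₂) * (d₃ - d₄) * HS.tr (S₁ * S₂) =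
      HS.tr ((d₁ • (S₁ * (P - 1)) - d₂ • ((P - 1) * T₁) - d₂ • (T₁ - S₁)) * (d₃ • S₂ - d₄ • T₂)) -
        HS.tr ((d₁ • S₁ - d₂ • S₁) * d₄ • (T₂ - S₂)) := by
    simp only [mul_sub, sub_mul, smul_sub, smul_mul_assoc, mul_smul_comm, map_sub, map_smul,
      smul_eq_mul, mul_one, one_mul, mul_assoc]
    ring
  have n : ∀ {d : ℝ} (X : A) {c : ℝ}, |d| ≤ M → ‖X‖ ≤ c → ‖d • X‖ ≤ M * c := by
    intro d X c hd hX
    rw [norm_smul, Real.norm_eq_abs]
    exact mul_le_mul hd hX (norm_nonneg _) hM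
  have a1 : ‖d₁ • (S₁ * (P - 1)) - d₂ • ((P - 1) * T₁) - d₂ • (T₁ - S₁)‖ ≤ 2 * M * ε := by
    have b1 := n (S₁ * (P - 1)) h₁ (norm_mul_le _ _)
    have b2 := n ((P - 1) * T₁) h₂ (norm_mul_le _ _)
    have b3 := n _ h₂ w₁
    rw [s₁, one_mul] at b1
    rw [t₁, mul_one] at b2
    have b4 := norm_sub_le (d₁ • (S₁ * (P - 1)) - d₂ • ((P - 1) * T₁)) (d₂ • (T₁ - S₁))
    have b5 := norm_sub_le (d₁ • (S₁ * (P - 1))) (d₂ • ((P - 1) * T₁))
    nlinarith
  have a2 : ‖d₃ • S₂ - d₄ • T₂‖ ≤ 2 * M := by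
    linarith [norm_sub_le (d₃ • S₂) (d₄ • T₂), n _ h₃ s₂.le, n _ h₄ t₂.le]
  have a3 : ‖d₁ • S₁ - d₂ • S₁‖ ≤ 2 * M := by
    linarith [norm_sub_le (d₁ • S₁) (d₂ • S₁), n _ h₁ s₁.le, n _ h₂ s₁.le]
  have a4 : ‖d₄ • (T₂ - S₂)‖ ≤ 2 * M * ε := (n _ h₄ w₂).trans (by nlinarith)
  have hε0 : 0 ≤ ε := by linarith
  rw [e]
  refine (abs_sub _ _).trans ?_
  have c1 := (abs_tr_mul_le _ _).trans (mul_le_mul a1 a2 (norm_nonneg _) (by positivity))
  have c2 := (abs_tr_mul_le _ _).trans (mul_le_mul a3 a4 (norm_nonneg _) (by positivity))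
  nlinarith

theorem main_term {c : ℝ} (v : ι × Bool → A) (hv : ∀ i, ∑ α, ‖v (α, i)‖ ^ 2 = c) (d : Bool → ℝ) :
    ∑ j, ∑ k, ⟪v j, v k⟫_ℝ * (d k.2 * d j.2 * if k.1 = j.1 then 1 else 0) ≤
      c * (|d true| + |d false|) ^ 2 := by
  have h1 := hv true
  have h2 := hv false
  have : c * (|d true| + |d false|) ^ 2 = ∑ α, (‖v (α, true)‖ ^ 2 * (|d true| ^ 2 +
      |d true| * |d false|) + ‖v (α, false)‖ ^ 2 * (|d false| ^ 2 + |d true| * |d false|)) := by
    rw [Finset.sum_add_distrib, ← Finset.sum_mul, ← Finset.sum_mul, h1, h2]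
    ring
  rw [this, Fintype.sum_prod_type]
  refine Finset.sum_le_sum fun α _ => ?_
  simp only [Fintype.sum_prod_type, Fintype.sum_bool, mul_ite, mul_one, mul_zero,
    Finset.sum_add_distrib, Finset.sum_ite_eq', Finset.mem_univ, if_true,
    real_inner_self_eq_norm_sq, sq_abs]
  have h3 := abs_real_inner_le_norm (v (α, true)) (v (α, false))
  rw [real_inner_comm (v (α, true)) (v (α, false))]
  have h4 : ⟪v (α, true), v (α, false)⟫_ℝ * (d true * d false) ≤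
      ‖v (α, true)‖ * ‖v (α, false)‖ * (|d true| * |d false|) := by
    refine (le_abs_self _).trans ?_
    rw [abs_mul, abs_mul]
    exact mul_le_mul_of_nonneg_right h3 (by positivity)
  have h5 : 0 ≤ |d true| * |d false| := by positivity
  nlinarith [mul_nonneg h5 (sq_nonneg (‖v (α, true)‖ - ‖v (α, false)‖))]

variable {G : Type} [Group G] (ρ : G →* unitary A) {V Ed : Type} [Fintype V] [Fintype Ed]
  (s t : Ed → V) (a b : Ed → G) (h : V → G) (φ : Bool → V → ℝ) (T : ι → A)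

/-- plaquette variable of the slab -/
def pl (e : Ed) (u : V → A) : A := u (s e) * ρ (b e) * star (u (t e)) * star (ρ (a e) : A)

/-- the vector fields -/
def vf (j : ι × Bool) (z : V) : A := φ j.2 z • (star (ρ (h z) : A) * T j.1 * ρ (h z))

def vb (j : ι × Bool) (e : Ed) : A := ρ (a e) * vf ρ h φ T j (t e) * star (ρ (a e) : A)

/-- deviation from flatness near the support of the test functions -/
noncomputable def dev (p : Ed → Prop) [DecidablePred p] (g : V → G) : ℝ :=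
  ∑ e, if p e then ‖(ρ (g (s e) * b e * (g (t e))⁻¹ * (a e)⁻¹) : A) - 1‖ +
    ‖(ρ (h (s e) * a e * (h (t e))⁻¹) : A) - 1‖ else 0

variable {T} {C : ℝ}

theorem vf_skew (hT : Frame ρ T C) (j : ι × Bool) (z : V) :
    star (vf ρ h φ T j z) = -vf ρ h φ T j z := by
  rw [vf, star_smul, (hT.conj ρ (h z)).skew, star_trivial, smul_neg]

theorem dir_pl (hT : Frame ρ T C) (k : ι × Bool) (e : Ed) :
    Dir (vf ρ h φ T k) (pl ρ s t a b e) fun u =>
      vf ρ h φ T k (s e) * pl ρ s t a b e u - pl ρ s t a b e u * vb ρ t a h φ T k e := by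
  refine ((((Dir.coord _ (s e)).mul (Dir.const _ (ρ (b e) : A))).mul
    (Dir.star_coord (t e) (vf_skew ρ h φ hT k _))).mul
    (Dir.const _ (star (ρ (a e) : A)))).congr fun u => ?_
  simp only [pl, vb, mul_assoc, mul_zero, add_zero, add_mul, mul_neg, neg_mul, sub_eq_add_neg]
  rw [← mul_assoc (star (ρ (a e) : A)), rho_star_mul, one_mul]

theorem hess_bound (hT : Frame ρ T C) {M : ℝ} (hM : ∀ i z, |φ i z| ≤ M) (p : Ed → Prop)
    [DecidablePred p] (hp : ∀ e, ¬ p e → ∀ i, φ i (s e) = 0 ∧ φ i (t e) = 0) (v : ι × Bool → A)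
    {r : ℝ} (hv : ∀ i, ∑ α, ‖v (α, i)‖ ^ 2 = C * r ^ 2) (hv' : ∀ j, ‖v j‖ ≤ r) (g : V → G) :
    -∑ j, ∑ k, ⟪v j, v k⟫_ℝ * ∑ e, HS.tr ((vf ρ h φ T k (s e) * pl ρ s t a b e (fun z => ρ (g z)) -
        pl ρ s t a b e (fun z => ρ (g z)) * vb ρ t a h φ T k e) *
        (vf ρ h φ T j (s e) - vb ρ t a h φ T j e)) ≤
      r ^ 2 * (C * ∑ e, (|φ true (s e) - φ true (t e)| + |φ false (s e) - φ false (t e)|) ^ 2 +
        32 * (Fintype.card ι) ^ 2 * M ^ 2 * dev ρ s t a b h p g) := by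
  simp only [Finset.mul_sum, dev, ← Finset.sum_add_distrib]
  rw [Finset.sum_congr rfl fun j _ => Finset.sum_comm, Finset.sum_comm, ← Finset.sum_neg_distrib]
  refine Finset.sum_le_sum fun e _ => ?_
  by_cases he : p e
  swap
  · simp [vb, vf, hp e he, he]
  rw [if_pos he]
  have h1 := main_term v hv fun i => φ i (s e) - φ i (t e)
  set ε := ‖(ρ (g (s e) * b e * (g (t e))⁻¹ * (a e)⁻¹) : A) - 1‖ +
    ‖(ρ (h (s e) * a e * (h (t e))⁻¹) : A) - 1‖ with hε
  have hs := hT.conj ρ (h (s e))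
  have ht := hT.conj ρ (h (t e) * (a e)⁻¹)
  have hw : ∀ α, ‖star (ρ (h (t e) * (a e)⁻¹) : A) * T α * ρ (h (t e) * (a e)⁻¹) -
      star (ρ (h (s e)) : A) * T α * ρ (h (s e))‖ ≤
        2 * ‖(ρ (h (s e) * a e * (h (t e))⁻¹) : A) - 1‖ := by
    intro α
    have := norm_conj_sub (ρ (h (s e) * a e * (h (t e))⁻¹)).2 (T α)
    rw [hT.norm, mul_one, ← norm_conj2 ρ (h (s e)) (h (s e)), mul_sub, sub_mul] at this
    refine le_of_eq_of_le ?_ this
    simp only [← rho_inv, mul_assoc, ← rho_mul]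
    simp only [← mul_assoc, ← rho_mul]
    congr 4 <;> group
  have h2 : ∀ j k : ι × Bool, -(⟪v j, v k⟫_ℝ * HS.tr ((vf ρ h φ T k (s e) *
      pl ρ s t a b e (fun z => ρ (g z)) - pl ρ s t a b e (fun z => ρ (g z)) * vb ρ t a h φ T k e) *
        (vf ρ h φ T j (s e) - vb ρ t a h φ T j e))) ≤ ⟪v j, v k⟫_ℝ * ((φ k.2 (s e) - φ k.2 (t e)) *
          (φ j.2 (s e) - φ j.2 (t e)) * if k.1 = j.1 then 1 else 0) + r ^ 2 * (8 * M ^ 2 * ε) := by
    intro j k
    have e1 : ∀ j : ι × Bool, vb ρ t a h φ T j e = φ j.2 (t e) •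
        (star (ρ (h (t e) * (a e)⁻¹) : A) * T j.1 * ρ (h (t e) * (a e)⁻¹)) := fun j => by
      simp only [vb, vf, rho_mul, rho_inv, star_mul, star_star, mul_smul_comm, smul_mul_assoc,
        mul_assoc]
    have e2 : pl ρ s t a b e (fun z => ρ (g z)) = ρ (g (s e) * b e * (g (t e))⁻¹ * (a e)⁻¹) := by
      simp only [pl, rho_mul, rho_inv]
    have e3 := hess_err (hM k.2 (s e)) (hM k.2 (t e)) (hM j.2 (s e)) (hM j.2 (t e)) (hs.norm ρ k.1)
      (hs.norm ρ j.1) (ht.norm ρ k.1) (ht.norm ρ j.1) (hw k.1) (hw j.1) hε.ge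
    have e4 := hs.orth k.1 j.1
    rw [inner_def, hs.skew, neg_mul, map_neg, neg_eq_iff_eq_neg] at e4
    rw [e4] at e3
    rw [e1, e1, e2, vf, vf]
    have e5 : |⟪v j, v k⟫_ℝ| ≤ r ^ 2 := (abs_real_inner_le_norm _ _).trans (by
      rw [sq]
      exact mul_le_mul (hv' j) (hv' k) (norm_nonneg _) ((norm_nonneg _).trans (hv' j)))
    have e6 := mul_le_mul e5 e3 (abs_nonneg _) (sq_nonneg r)
    rw [← abs_mul] at e6
    have e7 := (neg_le_abs _).trans e6
    linarith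
  simp only [← Finset.sum_neg_distrib]
  refine (Finset.sum_le_sum fun j _ => Finset.sum_le_sum fun k _ => h2 j k).trans ?_
  simp only [Finset.sum_add_distrib, Finset.sum_const, Finset.card_univ, Fintype.card_prod,
    Fintype.card_bool, nsmul_eq_mul]
  push_cast
  linarith

variable [TopologicalSpace G] [IsTopologicalGroup G] [CompactSpace G]
  [SecondCountableTopology G] [MeasurableSpace G] [BorelSpace G] (μ : Measure G)
  [μ.IsHaarMeasure] [IsProbabilityMeasure μ]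

theorem continuous_dev (hρ : Continuous ρ) (p : Ed → Prop) [DecidablePred p] :
    Continuous (dev ρ s t a b h p) := by
  have hc := continuous_rho ρ hρ
  refine continuous_finsetSum _ fun e _ => ?_
  split_ifs <;> fun_prop

theorem slab_eq (hρ : Continuous ρ) (hT : Frame ρ T C) (hC : 0 ≤ C) {β : ℝ} (hβ : 0 < β) {x y : V}
    (h1 : φ true x = 1) (h2 : φ true y = 0) (h3 : φ false x = 0) (h4 : φ false y = 1) {M : ℝ}
    (hM : ∀ i z, |φ i z| ≤ M) (p : Ed → Prop) [DecidablePred p]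
    (hp : ∀ e, ¬ p e → ∀ i, φ i (s e) = 0 ∧ φ i (t e) = 0) {E₀ : ℝ} (hE₀ : 0 < E₀)
    (hE : ∑ e, (|φ true (s e) - φ true (t e)| + |φ false (s e) - φ false (t e)|) ^ 2 ≤ E₀)
    {F Z : A} (hFZ : ‖F‖ = ‖Z‖) :
    ∫ g : V → G, ⟪F, star (ρ (g x) : A) * Z * ρ (g y)⟫_ℝ *
        Real.exp (β * ∑ e, HS.tr (pl ρ s t a b e fun z => ρ (g z))) ∂(Measure.pi fun _ => μ) ≤
      ‖Z‖ ^ 2 * ∫ g : V → G, (1 - C / (β * E₀ / 2 + 2 * C) + 32 * (Fintype.card ι) ^ 2 * M ^ 2 /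
        (E₀ * (β * E₀ / 2 + 2 * C)) * dev ρ s t a b h p g) *
        Real.exp (β * ∑ e, HS.tr (pl ρ s t a b e fun z => ρ (g z))) ∂(Measure.pi fun _ => μ) := by
  have hc := continuous_rho ρ hρ
  have htr := continuous_tr (A := A)
  have hdev := continuous_dev ρ s t a b h hρ p
  have hpl : ∀ e, Continuous (pl ρ s t a b e) := fun e => by unfold pl; fun_prop
  set Y := vf ρ h φ T with hY
  set v : ι × Bool → A := fun j => Z * Y j y - Y j x * Z with hv
  set W : (V → A) → ℝ := fun u => Real.exp (β * ∑ e, HS.tr (pl ρ s t a b e u)) with hW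
  set Sd : ι × Bool → (V → A) → ℝ := fun j u =>
    ∑ e, HS.tr (pl ρ s t a b e u * (Y j (s e) - vb ρ t a h φ T j e)) with hSd
  set Sdd : ι × Bool → ι × Bool → (V → A) → ℝ := fun k j u =>
    ∑ e, HS.tr ((Y k (s e) * pl ρ s t a b e u - pl ρ s t a b e u * vb ρ t a h φ T k e) *
      (Y j (s e) - vb ρ t a h φ T j e)) with hSdd
  have cW : Continuous W := by simp only [hW]; fun_prop
  have cSd : ∀ j, Continuous (Sd j) := fun j => by simp only [hSd]; fun_prop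
  have cSdd : ∀ k j, Continuous (Sdd k j) := fun k j => by simp only [hSdd]; fun_prop
  have mY : ∀ j z, Y j z ∈ lieAlg ρ := fun j z =>
    Submodule.smul_mem _ _ ((hT.conj ρ (h z)).mem j.1)
  have dW : ∀ j, Dir (Y j) W fun u => β * Sd j u * W u := fun j =>
    Dir.exp β ((Dir.sum fun e => (dir_pl ρ s t a b h φ hT j e).tr).congr fun u =>
      Finset.sum_congr rfl fun e _ => by rw [mul_sub, map_sub, map_sub, HS.tr_mul_comm])
  have dSd : ∀ k j, Dir (Y k) (Sd j) (Sdd k j) := fun k j =>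
    Dir.sum fun e => (((dir_pl ρ s t a b h φ hT k e).mul (Dir.const _ _)).congr fun u => by
      rw [mul_zero, add_zero]).tr
  have dV : ∀ j (X : A), Dir (Y j) (fun u => star (u x) * X * u y)
      fun u => star (u x) * (X * Y j y - Y j x * X) * u y := fun j X =>
    (((Dir.star_coord x (vf_skew ρ h φ hT j x)).mul (Dir.const _ X)).mul
      (Dir.coord _ y)).congr fun u => by noncomm_ring
  have vt : ∀ α, v (α, true) = -(star (ρ (h x) : A) * T α * ρ (h x) * Z) := fun α => by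
    simp [hv, hY, vf, h1, h2]
  have vf' : ∀ α, v (α, false) = Z * (star (ρ (h y) : A) * T α * ρ (h y)) := fun α => by
    simp [hv, hY, vf, h3, h4]
  have cas : ∑ j, (v j * Y j y - Y j x * v j) = -((2 * C) • Z) := by
    rw [Fintype.sum_prod_type]
    simp only [Fintype.sum_bool, vt, vf', hY, vf, h1, h2, h3, h4, one_smul, zero_smul, mul_zero,
      zero_mul, sub_zero, zero_sub, mul_neg, neg_neg, Finset.sum_add_distrib]
    simp only [← mul_assoc _ _ Z, mul_assoc Z]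
    rw [← Finset.sum_mul, ← Finset.mul_sum, (hT.conj ρ (h x)).cas, (hT.conj ρ (h y)).cas]
    simp [two_mul, add_smul]
  have orth : ∀ j, ⟪Z, v j⟫_ℝ = 0 := fun j => by
    have e1 : ⟪Z, Z * Y j y⟫_ℝ = 0 := by
      have := inner_mul_right (Y j y) Z Z
      rw [vf_skew ρ h φ hT, mul_neg, inner_neg_right, real_inner_comm] at this
      linarith
    have e2 : ⟪Z, Y j x * Z⟫_ℝ = 0 := by
      have := inner_mul_left (Y j x) Z Z
      rw [vf_skew ρ h φ hT, neg_mul, inner_neg_right, real_inner_comm] at this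
      linarith
    simp only [hv, inner_sub_right, e1, e2, sub_zero]
  set ν : Measure (V → G) := Measure.pi fun _ => μ with hν
  set r : (V → G) → V → A := fun g z => ρ (g z) with hr
  have cr : Continuous r := by simp only [hr]; fun_prop
  set Ξ : (V → G) → A := fun g => ∑ j, Sd j (r g) • (star (ρ (g x) : A) * v j * ρ (g y)) with hΞ
  have cΞ : Continuous Ξ := by simp only [hΞ]; fun_prop
  have sd1 : ∫ g, (-(2 * C) * (⟪F, star (ρ (g x) : A) * Z * ρ (g y)⟫_ℝ * W (r g)) +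
      β * (⟪F, Ξ g⟫_ℝ * W (r g))) ∂ν = 0 := by
    have := fun j => sd μ ρ hρ (mY j) (by fun_prop) (by fun_prop)
      ((Dir.inner F (dV j (v j))).mul (dW j))
    have h5 := Finset.sum_eq_zero (s := Finset.univ) fun j _ => this j
    rw [← integral_finsetSum _ fun j _ => cint _ (by fun_prop)] at h5
    rw [← h5]
    congr 1
    funext g
    rw [Finset.sum_add_distrib, ← Finset.sum_mul, ← inner_sum, ← Finset.sum_mul, ← Finset.mul_sum,
      cas]
    simp only [hΞ, inner_sum, inner_smul_right, Finset.sum_mul, Finset.mul_sum, mul_neg, neg_mul,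
      mul_smul_comm, smul_mul_assoc, inner_neg_right, hr]
    congr 1
    · ring
    · exact Finset.sum_congr rfl fun j _ => by ring
  have sd2 : ∫ g, (β * (‖Ξ g‖ ^ 2 * W (r g)) +
      (∑ j, ∑ k, ⟪v j, v k⟫_ℝ * Sdd k j (r g)) * W (r g)) ∂ν = 0 := by
    have := fun j k => sd μ ρ hρ (mY k) (by fun_prop) (by fun_prop)
      ((Dir.const _ ⟪v j, v k⟫_ℝ).mul ((dSd k j).mul (dW k)))
    have h5 := Finset.sum_eq_zero (s := Finset.univ) fun j _ =>
      Finset.sum_eq_zero (s := Finset.univ) fun k _ => this j k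
    rw [Finset.sum_congr rfl fun j _ => (integral_finsetSum _ fun k _ => cint _ (by fun_prop)).symm,
      ← integral_finsetSum _ fun j _ => cint _ (by fun_prop)] at h5
    rw [← h5]
    congr 1
    funext g
    simp only [hΞ, ← real_inner_self_eq_norm_sq, sum_inner, inner_sum, inner_smul_right,
      real_inner_smul_left, inner_conj, Finset.sum_mul, Finset.mul_sum, ← Finset.sum_add_distrib,
      hr]
    refine Finset.sum_congr rfl fun j _ => Finset.sum_congr rfl fun k _ => ?_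
    rw [real_inner_comm (v j) (v k)]
    ring
  set α₀ := β * E₀ / 2 with hα
  have hα0 : 0 < α₀ := by positivity
  set K : ℝ := 32 * (Fintype.card ι) ^ 2 * M ^ 2 with hK
  have key : ∀ g, ⟪F, star (ρ (g x) : A) * Z * ρ (g y)⟫_ℝ * W (r g) +
      ((α₀ + 2 * C)⁻¹ * (-(2 * C) * (⟪F, star (ρ (g x) : A) * Z * ρ (g y)⟫_ℝ * W (r g)) +
        β * (⟪F, Ξ g⟫_ℝ * W (r g))) - (E₀ * (α₀ + 2 * C))⁻¹ * (β * (‖Ξ g‖ ^ 2 * W (r g)) +
        (∑ j, ∑ k, ⟪v j, v k⟫_ℝ * Sdd k j (r g)) * W (r g))) ≤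
      ‖Z‖ ^ 2 * ((1 - C / (α₀ + 2 * C) + K / (E₀ * (α₀ + 2 * C)) * dev ρ s t a b h p g) *
        W (r g)) := by
    intro g
    have b1 := hess_bound ρ s t a b h φ hT hM p hp v (r := ‖Z‖) (fun i => by
      cases i
      · simp only [vf']; exact (hT.conj ρ (h y)).right ρ Z
      · simp only [vt, norm_neg]; exact (hT.conj ρ (h x)).left ρ Z) (fun j => by
      obtain ⟨α, i⟩ := j
      cases i
      · rw [vf']
        exact (norm_mul_le _ _).trans (by rw [(hT.conj ρ (h y)).norm, mul_one])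
      · rw [vt, norm_neg]
        exact (norm_mul_le _ _).trans (by rw [(hT.conj ρ (h x)).norm, one_mul])) g
    change -∑ j, ∑ k, ⟪v j, v k⟫_ℝ * Sdd k j (r g) ≤ _ at b1
    have b2 : ⟪star (ρ (g x) : A) * Z * ρ (g y), Ξ g⟫_ℝ = 0 := by
      simp only [hΞ, inner_sum, inner_smul_right, inner_conj, orth, mul_zero,
        Finset.sum_const_zero]
    have b3 := norm_conj2 ρ (g x) (g y) Z
    have b4 : 0 < W (r g) := Real.exp_pos _
    have b5 := mul_le_mul_of_nonneg_left (mul_le_mul_of_nonneg_left hE hC) (sq_nonneg ‖Z‖)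
    generalize star (ρ (g x) : A) * Z * ρ (g y) = X at *
    have b6 := sq_nonneg ‖α₀ • (F - X) - β • Ξ g‖
    rw [norm_sub_sq_real, norm_smul, norm_smul, mul_pow, mul_pow, norm_sub_sq_real,
      real_inner_smul_left, inner_smul_right, inner_sub_left, b2, b3, hFZ, Real.norm_eq_abs,
      Real.norm_eq_abs, sq_abs, sq_abs] at b6
    generalize ∑ j, ∑ k, ⟪v j, v k⟫_ℝ * Sdd k j (r g) = H at *
    have b7 : α₀ * ⟪F, X⟫_ℝ + β * ⟪F, Ξ g⟫_ℝ - E₀⁻¹ * (β * ‖Ξ g‖ ^ 2) ≤ α₀ * ‖Z‖ ^ 2 := by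
      have : E₀⁻¹ * (β * ‖Ξ g‖ ^ 2) = β ^ 2 * ‖Ξ g‖ ^ 2 / (2 * α₀) := by rw [hα]; field_simp
      rw [this, sub_le_iff_le_add, ← sub_le_iff_le_add', le_div_iff₀ (by positivity)]
      nlinarith
    have b8 : -(E₀⁻¹ * H) ≤ ‖Z‖ ^ 2 * (C + K / E₀ * dev ρ s t a b h p g) := by
      rw [← mul_neg, inv_mul_le_iff₀ hE₀]
      have : E₀ * (‖Z‖ ^ 2 * (C + K / E₀ * dev ρ s t a b h p g)) =
          ‖Z‖ ^ 2 * (C * E₀ + K * dev ρ s t a b h p g) := by field_simp
      rw [this]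
      nlinarith
    have hq : 0 < α₀ + 2 * C := by positivity
    calc _ = (α₀ + 2 * C)⁻¹ * W (r g) * (α₀ * ⟪F, X⟫_ℝ + β * ⟪F, Ξ g⟫_ℝ -
          E₀⁻¹ * (β * ‖Ξ g‖ ^ 2) + -(E₀⁻¹ * H)) := by field_simp; ring
      _ ≤ (α₀ + 2 * C)⁻¹ * W (r g) * (α₀ * ‖Z‖ ^ 2 +
          ‖Z‖ ^ 2 * (C + K / E₀ * dev ρ s t a b h p g)) :=
        mul_le_mul_of_nonneg_left (add_le_add b7 b8) (by positivity)
      _ = _ := by field_simp; ring
  have fin := integral_mono (μ := ν) (cint _ (by fun_prop)) (cint _ (by fun_prop)) key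
  rw [integral_add (cint _ (by fun_prop)) (cint _ (by fun_prop)),
    integral_sub (cint _ (by fun_prop)) (cint _ (by fun_prop)), integral_const_mul,
    integral_const_mul, integral_const_mul, sd1, sd2] at fin
  simpa using fin

theorem scale_ineq {Ω : Type} [MeasurableSpace Ω] (ν : Measure Ω) (X : Ω → A → A) (w : Ω → ℝ)
    {I : ℝ} (H : ∀ F Z : A, ‖F‖ = ‖Z‖ → ∫ g, ⟪F, X g Z⟫_ℝ * w g ∂ν ≤ ‖Z‖ ^ 2 * I)
    (h0 : ∀ g, X g 0 = 0) (F Z : A) : ∫ g, ⟪F, X g Z⟫_ℝ * w g ∂ν ≤ ‖F‖ * ‖Z‖ * I := by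
  by_cases hF : F = 0
  · simp [hF]
  by_cases hZ : Z = 0
  · simp [hZ, h0]
  have h1 := norm_pos_iff.mpr hF
  have h2 := norm_pos_iff.mpr hZ
  have := H ((‖Z‖ / ‖F‖) • F) Z (by
    rw [norm_smul, Real.norm_of_nonneg (by positivity), div_mul_cancel₀ _ h1.ne'])
  simp only [real_inner_smul_left, mul_assoc] at this
  rw [integral_const_mul, div_mul_eq_mul_div, div_le_iff₀ h1] at this
  refine le_of_mul_le_mul_left ?_ h2
  linarith

end Pool.Agent.Lib.MP_7f377f_mp.Coul
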