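import Pool.Agent.Lib.MP_7f377f_mp.CoulSlab
import Pool.Agent.Lib.MP_7f377f_mp.CoulDefs
import Pool.Agent.Lib.MP_7f377f_mp.WeakComb

/-! Time slices of the torus and resampling of the temporal links of one slab. -/

namespace Pool.Agent.Lib.MP_7f377f_mp.Coul

open Weak MeasureTheory
open scoped InnerProductSpace

set_option linter.unusedSectionVars false

variable {A : Type} [NormedRing A] [StarRing A] [NormedAlgebra ℝ A] [HS A]
variable {n L : ℕ} {G : Type} [Group G]

/-- the site with time `t` and position `y` -/
def st (t : ZMod L) (y : Site n L) : Site (n + 1) L := Fin.cons t y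

@[simp] theorem st_zero (t : ZMod L) (y : Site n L) : st t y 0 = t := rfl

@[simp] theorem st_succ (t : ZMod L) (y : Site n L) (i : Fin n) : st t y i.succ = y i := rfl

@[simp] theorem tail_st (t : ZMod L) (y : Site n L) : Fin.tail (st t y) = y := rfl

theorem st_self (x : Site (n + 1) L) : st (x 0) (Fin.tail x) = x := Fin.cons_self_tail x

theorem st_add (t s : ZMod L) (y z : Site n L) : st t y + st s z = st (t + s) (y + z) := by
  funext l
  refine Fin.cases rfl (fun i => rfl) l

theorem single_zero (c : ZMod L) : (Pi.single 0 c : Site (n + 1) L) = st c 0 := by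
  funext l
  refine Fin.cases ?_ (fun i => ?_) l <;> simp

theorem single_succ (i : Fin n) (c : ZMod L) :
    (Pi.single i.succ c : Site (n + 1) L) = st 0 (Pi.single i c) := by
  funext l
  refine Fin.cases ?_ (fun j => ?_) l
  · simp
  · simp [Pi.single_apply]

theorem st_zero_zero : (0 : Site (n + 1) L) = st 0 0 := by
  funext l
  refine Fin.cases rfl (fun i => rfl) l

/-- spatial links at time `t` -/
def sl (U : Link (n + 1) L → G) (t : ZMod L) : Link n L → G := fun e => U (st t e.1, e.2.succ)

/-- temporal links from time `t` to time `t + 1` -/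
def tm (U : Link (n + 1) L → G) (t : ZMod L) : Site n L → G := fun y => U (st t y, 0)

theorem hol_sl (U : Link (n + 1) L → G) (t : ZMod L) (y : Site n L) (i j : Fin n) :
    hol U (st t y) i.succ j.succ = hol (sl U t) y i j := by
  simp only [hol, sl, single_succ, st_add, add_zero]

theorem hol_tm (U : Link (n + 1) L → G) (t : ZMod L) (e : Link n L) :
    hol U (st t e.1) 0 e.2.succ = gauge (tm U t) (sl U (t + 1)) e * (sl U t e)⁻¹ := by
  simp only [hol, sl, tm, Weak.gauge, single_succ, single_zero, st_add, add_zero]

theorem line_tm (U : Link (n + 1) L → G) (t : ZMod L) (y : Site n L) (k : ℕ) :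
    line U (st t y) 0 (k + 1) = line U (st t y) 0 k * tm U (t + k) y := by
  simp only [line, tm, single_zero, st_add, add_zero]

theorem line_sl (U : Link (n + 1) L → G) (t : ZMod L) (y : Site n L) (i : Fin n) (k : ℕ) :
    line U (st t y) i.succ k = line (sl U t) y i k := by
  induction k with
  | zero => rfl
  | succ k ih => simp only [line, ih, sl, single_succ, st_add, add_zero]

theorem line_cmb [NeZero L] [NeZero n] (a : Link n L → G) (i : Fin n) (R : ℕ) (hR : R * 2 ≤ L) :
    line a 0 i R = cmb Inv.inv a (Pi.single i (R : ZMod L)) := by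
  induction R with
  | zero => simp [line, cmb_zero]
  | succ R ih =>
    obtain ⟨a1, a2, a3, a4⟩ := axis_pos (L := L) i R hR
    rw [cmb_step _ _ a1, if_pos a2, a3, a4, ← ih (by omega), line, zero_add]

theorem continuous_line {d : ℕ} [TopologicalSpace G] [IsTopologicalGroup G] (x : Site d L)
    (i : Fin d) (k : ℕ) : Continuous fun U : Link d L → G => line U x i k := by
  induction k with
  | zero => exact continuous_const
  | succ k ih => simp only [line]; fun_prop

/-- replace the temporal links of the slab `t` -/
def put (t : ZMod L) (W : Link (n + 1) L → G) (g : Site n L → G) : Link (n + 1) L → G :=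
  fun e => if e.2 = 0 ∧ e.1 0 = t then g (Fin.tail e.1) else W e

@[simp] theorem sl_put (t s : ZMod L) (W : Link (n + 1) L → G) (g : Site n L → G) :
    sl (put t W g) s = sl W s := by
  funext e; simp [sl, put]

@[simp] theorem tm_put (t : ZMod L) (W : Link (n + 1) L → G) (g : Site n L → G) :
    tm (put t W g) t = g := by
  funext y; simp [tm, put]

theorem tm_put_ne {t s : ZMod L} (h : s ≠ t) (W : Link (n + 1) L → G) (g : Site n L → G) :
    tm (put t W g) s = tm W s := by
  funext y; simp [tm, put, h]

variable [NeZero L]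

theorem cast_ne {s k : ℕ} (h : s < k) (hk : k < L) : (s : ZMod L) ≠ k := fun e => by
  have := congrArg ZMod.val e
  rw [ZMod.val_cast_of_lt hk, ZMod.val_cast_of_lt (h.trans hk)] at this
  omega

theorem line_put (y : Site n L) {k s : ℕ} (hs : s ≤ k) (hk : k < L) (W : Link (n + 1) L → G)
    (g : Site n L → G) : line (put k W g) (st 0 y) 0 s = line W (st 0 y) 0 s := by
  induction s with
  | zero => rfl
  | succ s ih => rw [line_tm, line_tm, ih (by omega), zero_add, tm_put_ne (cast_ne hs hk)]

theorem sum_st {M : Type} [AddCommMonoid M] (f : Site (n + 1) L → M) :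
    ∑ x, f x = ∑ t, ∑ y, f (st t y) := by
  rw [← (Fin.consEquiv fun _ => ZMod L).sum_comp, Fintype.sum_prod_type]
  rfl

variable (ρ : G →* unitary A)

/-- energy of the temporal plaquettes of a slab -/
noncomputable def tq (a : Link n L → G) (g : Site n L → G) (b : Link n L → G) : ℝ :=
  ∑ e, qq ρ (gauge g b e * (a e)⁻¹)

theorem act_eq (U : Link (n + 1) L → G) :
    act ρ U = ∑ t, (act ρ (sl U t) + 2 * tq ρ (sl U t) (tm U t) (sl U (t + 1))) := by
  rw [act, sum_st]
  refine Finset.sum_congr rfl fun t _ => ?_
  simp only [act, tq, Fintype.sum_prod_type, Finset.mul_sum, ← Finset.sum_add_distrib,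
    Fin.sum_univ_succ, hol_self, qq_one, hol_sl, zero_add]
  refine Finset.sum_congr rfl fun y _ => Finset.sum_congr rfl fun i _ => ?_
  rw [hol_swap U _ 0, qq_inv, ← hol_tm U t (y, i)]
  ring

theorem act_put (t : ZMod L) (W : Link (n + 1) L → G) (g : Site n L → G) :
    act ρ (put t W g) = (act ρ W - 2 * tq ρ (sl W t) (tm W t) (sl W (t + 1))) +
      2 * tq ρ (sl W t) g (sl W (t + 1)) := by
  rw [act_eq, act_eq, ← Finset.add_sum_erase _ _ (Finset.mem_univ t),
    ← Finset.add_sum_erase _ _ (Finset.mem_univ t)]
  simp only [sl_put, tm_put]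
  rw [Finset.sum_congr rfl fun s hs => by rw [tm_put_ne (Finset.ne_of_mem_erase hs)]]
  ring

variable [TopologicalSpace G] [IsTopologicalGroup G] [CompactSpace G]
  [SecondCountableTopology G] [MeasurableSpace G] [BorelSpace G] (μ : Measure G)
  [μ.IsHaarMeasure] [IsProbabilityMeasure μ]

@[fun_prop] theorem continuous_sl {X : Type} [TopologicalSpace X] {f : X → Link (n + 1) L → G}
    (hf : Continuous f) (t : ZMod L) : Continuous fun x => sl (f x) t := by
  unfold sl; fun_prop

@[fun_prop] theorem continuous_tm {X : Type} [TopologicalSpace X] {f : X → Link (n + 1) L → G}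
    (hf : Continuous f) (t : ZMod L) : Continuous fun x => tm (f x) t := by
  unfold tm; fun_prop

@[fun_prop] theorem continuous_put {X : Type} [TopologicalSpace X] {f : X → Link (n + 1) L → G}
    {g : X → Site n L → G} (hf : Continuous f) (hg : Continuous g) (t : ZMod L) :
    Continuous fun x => put t (f x) (g x) := by
  refine continuous_pi fun e => ?_
  unfold put
  split_ifs <;> fun_prop

@[fun_prop] theorem continuous_gauge {d : ℕ} {X : Type} [TopologicalSpace X] {f : X → Link d L → G}
    {g : X → Site d L → G} (hg : Continuous g) (hf : Continuous f) :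
    Continuous fun x => gauge (g x) (f x) := by
  unfold Weak.gauge; fun_prop

theorem continuous_tq (hρ : Continuous ρ) {X : Type} [TopologicalSpace X] {a b : X → Link n L → G}
    {g : X → Site n L → G} (ha : Continuous a) (hg : Continuous g) (hb : Continuous b) :
    Continuous fun x => tq ρ (a x) (g x) (b x) := by
  have := continuous_qq ρ hρ
  unfold tq; fun_prop

theorem mp_comp {E E' : Type} [Fintype E] [Fintype E'] {σ : E' → E} (hσ : σ.Injective) :
    MeasurePreserving (fun (U : E → G) e => U (σ e)) (Measure.pi fun _ => μ)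
      (Measure.pi fun _ => μ) := by
  refine ⟨by fun_prop, ?_⟩
  have h := (ProbabilityTheory.iIndepFun_pi (μ := fun _ : E => μ) (X := fun _ => id)
    fun _ => aemeasurable_id).precomp hσ
  refine ((ProbabilityTheory.iIndepFun_iff_map_fun_eq_pi_map
    fun e => (measurable_pi_apply (σ e)).aemeasurable).mp h).trans ?_
  congr 1
  funext e
  exact (measurePreserving_eval (fun _ : E => μ) (σ e)).map_eq

theorem cont_int {X Y M : Type} [TopologicalSpace X] [FirstCountableTopology X]
    [LocallyCompactSpace X] [TopologicalSpace Y] [CompactSpace Y] [SecondCountableTopology Y]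
    [MeasurableSpace Y] [OpensMeasurableSpace Y] [NormedAddCommGroup M] [NormedSpace ℝ M]
    (ν : Measure Y) [IsFiniteMeasure ν] {f : X → Y → M} (hf : Continuous f.uncurry) :
    Continuous fun x => ∫ y, f x y ∂ν := by
  simpa using continuous_parametric_integral_of_continuous (μ := ν) hf isCompact_univ

theorem int_put (t : ZMod L) {F : (Link (n + 1) L → G) → ℝ} (hF : Continuous F) :
    ∫ U, F U ∂(Measure.pi fun _ => μ) =
      ∫ W, ∫ g, F (put t W g) ∂(Measure.pi fun _ => μ) ∂(Measure.pi fun _ => μ) := by
  rw [int_merge μ (fun e : Link (n + 1) L => e.2 = 0 ∧ e.1 0 = t) hF]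
  congr 1
  funext W
  have h := mp_comp μ (σ := fun y : Site n L => ((st t y, 0) : Link (n + 1) L))
    fun y z h => congrArg (fun e : Link (n + 1) L => Fin.tail e.1) h
  rw [← h.map_eq, integral_map h.measurable.aemeasurable
    (Continuous.aestronglyMeasurable (by fun_prop))]
  congr 1
  funext V
  congr 1
  funext e
  unfold put
  split_ifs with he
  · simp only [← he.2, st_self]
    exact congrArg V (Prod.ext rfl he.1)
  · rfl

theorem dlr_le (hρ : Continuous ρ) (b : ℝ) (t : ZMod L) {f₁ f₂ : (Link (n + 1) L → G) → ℝ}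
    (h₁ : Continuous f₁) (h₂ : Continuous f₂)
    (h : ∀ W, ∫ g, f₁ (put t W g) * Real.exp (-(b * (2 * tq ρ (sl W t) g (sl W (t + 1)))))
        ∂(Measure.pi fun _ => μ) ≤
      ∫ g, f₂ (put t W g) * Real.exp (-(b * (2 * tq ρ (sl W t) g (sl W (t + 1)))))
        ∂(Measure.pi fun _ => μ)) :
    ∫ U, f₁ U ∂(nu μ ρ (n + 1) L b) ≤ ∫ U, f₂ U ∂(nu μ ρ (n + 1) L b) := by
  have hw := continuous_wt (d := n + 1) (L := L) ρ hρ b
  rw [nu_int, nu_int, int_put μ t (by fun_prop), int_put μ t (F := fun U => f₂ U * _) (by fun_prop)]
  refine div_le_div_of_nonneg_right (integral_mono (cint _ (cont_int _ ?_)) (cint _ (cont_int _ ?_))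
    fun W => ?_) (ZZ_pos μ ρ hρ b).le
  · exact (h₁.mul hw).comp (continuous_put continuous_fst continuous_snd t)
  · exact (h₂.mul hw).comp (continuous_put continuous_fst continuous_snd t)
  · simp only [act_put, mul_add, neg_add, Real.exp_add, mul_left_comm _ (Real.exp (-(b * (_ - _)))),
      integral_const_mul]
    exact mul_le_mul_of_nonneg_left (h W) (Real.exp_pos _).le

end Pool.Agent.Lib.MP_7f377f_mp.Coul
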