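import Pool.Agent.Lib.MP_7f377f_mp.CoulTime

/-! Slab by slab upper bound on Wilson loops. -/

namespace Pool.Agent.Lib.MP_7f377f_mp.Coul

open Weak MeasureTheory
open scoped InnerProductSpace

set_option linter.unusedSectionVars false
set_option maxHeartbeats 400000

variable {A : Type} [NormedRing A] [StarRing A] [NormedAlgebra ℝ A] [HS A]
variable {n L : ℕ} {G : Type} [Group G] [NeZero L] (ρ : G →* unitary A)
variable [TopologicalSpace G] [IsTopologicalGroup G] [CompactSpace G]
  [SecondCountableTopology G] [MeasurableSpace G] [BorelSpace G] (μ : Measure G)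
  [μ.IsHaarMeasure] [IsProbabilityMeasure μ]

theorem cintV {Ω : Type} [TopologicalSpace Ω] [CompactSpace Ω] [MeasurableSpace Ω]
    [OpensMeasurableSpace Ω] (ν : Measure Ω) [IsFiniteMeasure ν] {f : Ω → A}
    (hf : Continuous f) : Integrable f ν :=
  hf.integrable_of_hasCompactSupport (HasCompactSupport.of_compactSpace f)

theorem upper_ind (hρ : Continuous ρ) (b : ℝ) (y : Site n L)
    (B : (Link n L → G) → (Site n L → G) → (Link n L → G) → ℝ)
    (hB : Continuous fun q : (Link n L → G) × (Site n L → G) × (Link n L → G) => B q.1 q.2.1 q.2.2)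
    (hB0 : ∀ a g c, 0 ≤ B a g c)
    (H : ∀ a c (F Z : A), ∫ g, ⟪F, star (ρ (g 0) : A) * Z * ρ (g y)⟫_ℝ *
        Real.exp (-(b * (2 * tq ρ a g c))) ∂(Measure.pi fun _ => μ) ≤ ‖F‖ * ‖Z‖ *
      ∫ g, B a g c * Real.exp (-(b * (2 * tq ρ a g c))) ∂(Measure.pi fun _ => μ))
    {X : (Link n L → G) → A} (hX : Continuous X) {c₀ : ℝ} (hX0 : ∀ a, ‖X a‖ ≤ c₀) (k : ℕ)
    (hk : k ≤ L) {F : (Link (n + 1) L → G) → A} (hF : Continuous F)
    (hF' : ∀ s : ℕ, s < k → ∀ W g, F (put s W g) = F W) :
    ∫ U, ⟪F U, star (ρ (line U (st 0 0) 0 k) : A) * X (sl U 0) * ρ (line U (st 0 y) 0 k)⟫_ℝ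
        ∂(nu μ ρ (n + 1) L b) ≤
      c₀ * ∫ U, ‖F U‖ * ∏ s ∈ Finset.range k, B (sl U s) (tm U s) (sl U (s + 1))
        ∂(nu μ ρ (n + 1) L b) := by
  have hc := continuous_rho ρ hρ
  have hl := fun x k => continuous_line (G := G) (L := L) (d := n + 1) x 0 k
  have cB : ∀ t : ZMod L, Continuous fun U : Link (n + 1) L → G =>
      B (sl U t) (tm U t) (sl U (t + 1)) := fun t =>
    hB.comp (f := fun U : Link (n + 1) L → G => (sl U t, tm U t, sl U (t + 1))) (by fun_prop)
  have hc0 : 0 ≤ c₀ := (norm_nonneg _).trans (hX0 1)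
  induction k generalizing F with
  | zero =>
    rw [← integral_const_mul]
    refine integral_mono (cint _ (by fun_prop)) (cint _ (by fun_prop)) fun U => ?_
    simp only [line, rho_one, star_one, one_mul, mul_one, Finset.range_zero, Finset.prod_empty]
    exact (real_inner_le_norm _ _).trans (by rw [mul_comm]; gcongr; exact hX0 _)
  | succ k ih =>
    set w : (Link (n + 1) L → G) → (Site n L → G) → ℝ := fun W g =>
      Real.exp (-(b * (2 * tq ρ (sl W k) g (sl W (k + 1))))) with hw
    have cw : Continuous w.uncurry := by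
      have := continuous_tq ρ hρ (X := (Link (n + 1) L → G) × (Site n L → G))
        (a := fun q => sl q.1 k) (g := fun q => q.2) (b := fun q => sl q.1 (k + 1))
        (by fun_prop) (by fun_prop) (by fun_prop)
      exact Real.continuous_exp.comp (continuous_const.mul (continuous_const.mul this)).neg
    have cw' : ∀ W, Continuous (w W) := fun W => cw.uncurry_left W
    set z : (Link (n + 1) L → G) → ℝ := fun W => ∫ g, w W g ∂(Measure.pi fun _ => μ) with hz
    have z0 : ∀ W, 0 < z W := fun W => integral_exp_pos (cint _ (cw' W))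
    have cz : Continuous z := cont_int _ cw
    set M : (Link (n + 1) L → G) → A := fun W => (z W)⁻¹ •
      ∫ g, w W g • ((ρ (g 0) : A) * F W * star (ρ (g y) : A)) ∂(Measure.pi fun _ => μ) with hM
    have cM : Continuous M := (cz.inv₀ fun W => (z0 W).ne').smul (cont_int _ (cw.smul (by
      fun_prop)))
    have hM1 : ∀ s : ℕ, s < k + 1 → ∀ W g, M (put s W g) = M W := fun s hs W g => by
      simp only [hM, hz, hw, sl_put, hF' s hs]
    have hM2 : ∀ W (Z : A), ⟪M W, Z⟫_ℝ * z W = ∫ g, ⟪F W, star (ρ (g 0) : A) * Z * ρ (g y)⟫_ℝ *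
        w W g ∂(Measure.pi fun _ => μ) := by
      intro W Z
      have := cw' W
      rw [hM, real_inner_smul_left, mul_right_comm, inv_mul_cancel₀ (z0 W).ne', one_mul,
        real_inner_comm, ← integral_inner (cintV _ (by fun_prop))]
      congr 1
      funext g
      rw [inner_smul_right, real_inner_comm, inner_mul_right, inner_mul_left, star_star, mul_comm,
        mul_assoc]
    have hM3 : ∀ W, ‖M W‖ * z W ≤
        ‖F W‖ * ∫ g, B (sl W k) g (sl W (k + 1)) * w W g ∂(Measure.pi fun _ => μ) := by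
      intro W
      have h1 := (hM2 W (M W)).trans_le (H _ _ _ _)
      rw [real_inner_self_eq_norm_sq] at h1
      by_cases h0 : ‖M W‖ = 0
      · rw [h0, zero_mul]
        exact mul_nonneg (norm_nonneg _)
          (integral_nonneg fun g => mul_nonneg (hB0 _ _ _) (Real.exp_pos _).le)
      · refine le_of_mul_le_mul_left ?_ (lt_of_le_of_ne (norm_nonneg _) (Ne.symm h0))
        linarith
    refine le_trans (dlr_le ρ μ hρ b k (by fun_prop) (by fun_prop) fun W => ?_)
      ((ih (by omega) cM fun s hs => hM1 s (by omega)).trans (mul_le_mul_of_nonneg_left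
        (dlr_le ρ μ hρ b k (by fun_prop) (by fun_prop) fun W => ?_) hc0))
    · simp only [line_tm, line_put _ le_rfl hk, zero_add, tm_put, sl_put, hM1 k (by omega),
        hF' k (by omega), rho_mul, star_mul]
      rw [integral_const_mul]
      change _ ≤ _ * z W
      rw [hM2]
      simp only [mul_assoc, hw, le_refl]
    · have e : ∀ g, ∏ s ∈ Finset.range k, B (sl W s) (tm (put k W g) s) (sl W (s + 1)) =
          ∏ s ∈ Finset.range k, B (sl W s) (tm W s) (sl W (s + 1)) := fun g =>
        Finset.prod_congr rfl fun s hs => by rw [tm_put_ne (cast_ne (Finset.mem_range.mp hs) hk)]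
      simp only [Finset.prod_range_succ, sl_put, tm_put, hM1 k (by omega), hF' k (by omega), e,
        ← mul_assoc (‖F W‖)]
      simp only [mul_assoc _ (B _ _ _), integral_const_mul]
      change _ * z W ≤ _
      have := mul_le_mul_of_nonneg_left (hM3 W) (Finset.prod_nonneg
        (s := Finset.range k) fun s _ => hB0 (sl W s) (tm W s) (sl W (s + 1)))
      linarith

/-- lift of a site to `ℤ^n` -/
def lift (y : Site n L) : Fin n → ℤ := fun i => (y i).valMinAbs

theorem lift_inj : Function.Injective (lift (n := n) (L := L)) := fun _ _ h =>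
  funext fun i => ZMod.injective_valMinAbs (congrFun h i)

theorem lift_zero : lift (0 : Site n L) = 0 := by funext i; simp [lift]

theorem lift_single (i : Fin n) (R : ℕ) (hR : R * 2 ≤ L) :
    lift (Pi.single i (R : ZMod L)) = Pi.single i (R : ℤ) := by
  funext j
  by_cases h : j = i
  · have := NeZero.pos L
    simpa [lift, h] using (ZMod.valMinAbs_spec (R : ZMod L) R).mpr ⟨by simp, by omega, by omega⟩
  · simp [lift, h]

theorem lift_succ {M : ℕ} (hM : (M + 1) * 2 ≤ L) (y : Site n L) (i : Fin n) :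
    lift (y + Pi.single i 1) = lift y + Pi.single i 1 ∨
      ((M : ℤ) ≤ |lift y i| ∧ (M : ℤ) ≤ |lift (y + Pi.single i 1) i|) := by
  have h1 := ZMod.valMinAbs_mem_Ioc (y i)
  by_cases h : ((y i).valMinAbs + 1) * 2 ≤ L
  · left
    funext j
    by_cases hj : j = i
    · simpa [lift, hj] using (ZMod.valMinAbs_spec (y i + 1) ((y i).valMinAbs + 1)).mpr
        ⟨by simp, by have := h1.1; omega, h⟩
    · simp [lift, hj]
  · right
    have h2 := (ZMod.valMinAbs_spec (y i + 1) ((y i).valMinAbs + 1 - L)).mpr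
      ⟨by simp, by omega, by have := h1.2; omega⟩
    simp only [lift, Pi.add_apply, Pi.single_eq_same, h2, le_abs]
    have := h1.2
    omega

open Classical in
/-- the sites in the cube of radius `M` -/
noncomputable def bx (n L : ℕ) [NeZero L] (M : ℕ) : Finset (Site n L) :=
  Finset.univ.filter (inBox M)

theorem mem_bx {M : ℕ} {y : Site n L} : y ∈ bx n L M ↔ inBox M y := by simp [bx]

theorem card_bx (M : ℕ) : (bx n L M).card ≤ (2 * M + 1) ^ n := by
  have := Finset.card_le_card_of_injOn (s := bx n L M)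
    (t := Fintype.piFinset fun _ : Fin n => Finset.Icc (-(M : ℤ)) M) lift (fun y hy => by
      simp only [Fintype.coe_piFinset, Finset.coe_Icc, Set.mem_pi, Set.mem_univ, Set.mem_Icc,
        true_imp_iff, lift]
      intro i
      have := mem_bx.mp hy i
      omega) lift_inj.injOn
  rw [Fintype.card_piFinset_const, Int.card_Icc] at this
  refine this.trans_eq ?_
  congr 1
  omega

variable [NeZero n] {ι : Type} [Fintype ι] [DecidableEq ι] {T : ι → A} {C : ℝ}

/-- deviation from flatness in a slab -/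
noncomputable def dv (M : ℕ) (a : Link n L → G) (g : Site n L → G) (c : Link n L → G) : ℝ :=
  ∑ e ∈ bx n L M ×ˢ Finset.univ, (‖(ρ (Weak.gauge g c e * (a e)⁻¹) : A) - 1‖ +
    ‖(ρ (fix a e) : A) - 1‖)

theorem slab_torus (hρ : Continuous ρ) (hT : Frame ρ T C) (hC : 0 ≤ C) {b : ℝ} (hb : 0 < b)
    (i0 : Fin n) {R M : ℕ} (hR : R * 2 ≤ L) (hM : (M + 1) * 2 ≤ L) {ψ : (Fin n → ℤ) → ℝ}
    (h0 : ψ 0 = 1) (h1 : ψ (Pi.single i0 (R : ℤ)) = -1) (hs : ∀ z i, (M : ℤ) ≤ |z i| → ψ z = 0)
    {m : ℝ} (hm : ∀ z, |ψ z| ≤ m) {E₀ : ℝ} (hE₀ : 0 < E₀)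
    (hE : ∀ S : Finset (Fin n → ℤ), ∑ z ∈ S, ∑ i, (ψ z - ψ (z + Pi.single i 1)) ^ 2 ≤ E₀)
    (a c : Link n L → G) (F Z : A) :
    ∫ g, ⟪F, star (ρ (g 0) : A) * Z * ρ (g (Pi.single i0 R))⟫_ℝ *
        Real.exp (-(b * (2 * tq ρ a g c))) ∂(Measure.pi fun _ => μ) ≤ ‖F‖ * ‖Z‖ *
      ∫ g, (1 - C / (4 * b * E₀ / 2 + 2 * C) + 32 * (Fintype.card ι) ^ 2 * m ^ 2 /
        (E₀ * (4 * b * E₀ / 2 + 2 * C)) * dv ρ M a g c) *
        Real.exp (-(b * (2 * tq ρ a g c))) ∂(Measure.pi fun _ => μ) := by
  classical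
  refine scale_ineq _ (fun (g : Site n L → G) Z => star (ρ (g 0) : A) * Z * ρ (g (Pi.single i0 R))) _
    (fun F Z hFZ => ?_) (by simp) F Z
  have key := slab_eq ρ (fun e : Link n L => e.1) (fun e => e.1 + Pi.single e.2 1) a c
    (cmb Inv.inv a) (fun i y => max (if i then ψ (lift y) else -ψ (lift y)) 0) μ hρ hT hC
    (β := 4 * b) (by positivity) (x := 0) (y := Pi.single i0 R) (by simp [lift_zero, h0])
    (by simp [lift_single i0 R hR, h1]) (by simp [lift_zero, h0])
    (by simp [lift_single i0 R hR, h1]) (M := m) (fun i z => by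
      have := abs_le.mp (hm (lift z))
      cases i <;> simp [abs_le] <;> constructor <;> first | linarith | (right; linarith) |
        (constructor <;> linarith))
    (fun e => inBox M e.1) (fun e he i => ?_) hE₀ ?_ hFZ
  · have e1 : ∀ g : Site n L → G, Real.exp (-(b * (2 * tq ρ a g c))) =
        Real.exp (4 * b * ∑ e : Link n L, HS.tr (pl ρ (fun e : Link n L => e.1)
          (fun e => e.1 + Pi.single e.2 1) a c e fun z => ρ (g z))) *
          Real.exp (-(4 * b * ∑ _e : Link n L, HS.tr (1 : A))) := by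
      intro g
      rw [← Real.exp_add]
      simp only [tq, qq_eq, pl, Weak.gauge, rho_mul, rho_inv, ← Finset.mul_sum,
        Finset.sum_sub_distrib]
      ring_nf
    have e2 : ∀ g : Site n L → G, dv ρ M a g c = dev ρ (fun e : Link n L => e.1)
        (fun e => e.1 + Pi.single e.2 1) a c (cmb Inv.inv a) (fun e => inBox M e.1) g := by
      intro g
      rw [dv, dev, ← Finset.sum_filter]
      refine Finset.sum_congr ?_ fun e _ => rfl
      ext e
      simp [mem_bx]
    simp only [e1, e2]
    simp only [← mul_assoc, integral_mul_const]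
    exact mul_le_mul_of_nonneg_right key (Real.exp_pos _).le
  · obtain ⟨k, hk⟩ := not_forall.mp he
    have e1 : ψ (lift e.1) = 0 := hs _ k (by simp only [lift, le_abs]; omega)
    have e2 : ψ (lift (e.1 + Pi.single e.2 1)) = 0 := by
      rcases lift_succ hM e.1 e.2 with h | h
      · refine hs _ k ?_
        rw [h]
        simp only [lift, Pi.add_apply, Pi.single_apply, le_abs]
        split_ifs <;> omega
      · exact hs _ _ h.2
    simp [e1, e2]
  · refine le_trans ?_ (hE (Finset.univ.image (lift (L := L))))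
    rw [Finset.sum_image fun _ _ _ _ h => lift_inj h, Fintype.sum_prod_type]
    refine Finset.sum_le_sum fun y _ => Finset.sum_le_sum fun i _ => ?_
    rcases lift_succ hM y i with h | h
    · simp only [h, if_true, Bool.false_eq_true, if_false]
      rw [← sq_abs (_ - _)]
      refine pow_le_pow_left₀ (by positivity) ?_ 2
      generalize ψ (lift y) = u
      generalize ψ (lift y + Pi.single i 1) = v
      simp only [max_def, abs_eq_max_neg]
      split_ifs <;> linarith
    · simp only [hs _ _ h.1, hs _ _ h.2]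
      simpa using sq_nonneg _

end Pool.Agent.Lib.MP_7f377f_mp.Coul
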