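import Pool.Agent.Lib.MP_7f377f_mp.CuDef
import Pool.Agent.Lib.MP_7f377f_mp.CyD2

/-! The algebra of operator bounds. -/

noncomputable section

namespace Pool.Agent.Lib.MP_7f377f_mp.YM9

open MeasureTheory Filter Topology Function Real Finset
open RGP (BM)

set_option linter.unusedSectionVars false

namespace CuB1

theorem sht_sht (s t : ℤ) (U : Fd) : sht s (sht t U) = sht (s + t) U := funext fun e => by
  simp only [sht, shf, Pi.single_add, add_assoc]

theorem rq_rq (i : Fin 4) (x : Z4) : rq i i (rq i i x) = x := by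
  simp [rq]

theorem rfl0_rfl0 (U : Fd) : rfl0 (rfl0 U) = U := funext fun e => by
  by_cases h : e.2 = 0
  · simp only [rfl0, if_pos h, inv_inv, rq_rq]
  · simp only [rfl0, if_neg h, rq_rq]

theorem sht_rfl0 (s : ℤ) (U : Fd) : sht s (rfl0 (sht s U)) = rfl0 U := funext fun e => by
  have : rq e.2 e.2 (e.1 + Pi.single 0 s) + Pi.single 0 s = rq e.2 e.2 e.1 := by
    funext l
    by_cases h : l = 0
    · subst h
      simp only [rq, Pi.add_apply, update_self, Pi.single_eq_same]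
      ring
    · simp [rq, h]
  simp only [sht, shf, rfl0, this]

end CuB1

open CuB1 D2

variable [MeasurableSpace SU2] [BorelSpace SU2] {h : Measure SU2} [h.IsHaarMeasure]
  [IsProbabilityMeasure h] {b t γ γ' : ℝ} {n s s' : ℕ} {μ : Measure Fd} {Y Y' : Fd → ℝ}

theorem St9.b1_nonneg (S : St9 h b n μ t) {K : ℕ} (bY : BM Y) (dY : DependsOn Y (Tm 0 K)) :
    0 ≤ nq μ Y := (S.gram Y K 0 bY dY).1.trans (S.gram Y K 0 bY dY).2

theorem St9.b1_add (S : St9 h b n μ t) (bY : BM Y) (bY' : BM Y') (x : ℝ) :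
    nq μ (fun U => x * Y U + Y' U) =
      nq μ Y * (x * x) + 2 * (∫ U, Y (rfl0 U) * Y' U ∂μ) * x + nq μ Y' := by
  have := S.prob
  have r := bY.comp cont_rfl0.measurable
  have r' := bY'.comp cont_rfl0.measurable
  have e : ∫ U, Y' (rfl0 U) * Y U ∂μ = ∫ U, Y (rfl0 U) * Y' U ∂μ := by
    rw [← RGP.int_mp S.rfl (r'.mul bY).meas]
    simp only [rfl0_rfl0, mul_comm]
  have e2 : ∀ U, (x * Y (rfl0 U) + Y' (rfl0 U)) * (x * Y U + Y' U) =
      x * x * (Y (rfl0 U) * Y U) + x * (Y (rfl0 U) * Y' U) +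
        (x * (Y' (rfl0 U) * Y U) + Y' (rfl0 U) * Y' U) := fun U => by ring
  have i1 := (BM.const (x * x)).mul (r.mul bY)
  have i2 := (BM.const x).mul (r.mul bY')
  have i3 := (BM.const x).mul (r'.mul bY)
  have i4 := r'.mul bY'
  simp only [nq, e2]
  rw [integral_add ((i1.add i2).integrable μ) ((i3.add i4).integrable μ),
    integral_add (i1.integrable μ) (i2.integrable μ),
    integral_add (i3.integrable μ) (i4.integrable μ)]
  simp only [integral_const_mul, e]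
  ring

theorem St9.b1_cs (S : St9 h b n μ t) {K : ℕ} (bY : BM Y) (bY' : BM Y')
    (dY : DependsOn Y (Tm 0 K)) (dY' : DependsOn Y' (Tm 0 K)) :
    (∫ U, Y (rfl0 U) * Y' U ∂μ) ^ 2 ≤ nq μ Y * nq μ Y' := by
  have := discrim_le_zero fun x => (S.b1_nonneg (K := K) (((BM.const x).mul bY).add bY')
    fun _ _ e => by simp only [dY e, dY' e]).trans_eq (S.b1_add bY bY' x)
  rw [discrim] at this
  linarith

theorem On.b1_bm (h1 : On μ Y s γ) {G : Fd → ℝ} (bG : BM G) : BM fun U => Y U * G (sht s U) :=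
  h1.2.1.mul (bG.comp (cont_sht _).measurable)

theorem On.b1_dep (h1 : On μ Y s γ) {G : Fd → ℝ} {K : ℕ} (dG : DependsOn G (Tm 0 K)) :
    DependsOn (fun U => Y U * G (sht s U)) (Tm 0 (s + K : ℕ)) :=
  RGP.DependsOn.mul' (h1.2.2.1.mono (tm_mono le_rfl (by omega)))
    ((dep_sht dG s).mono (tm_mono (by omega) (by omega)))

theorem On.mono (h1 : On μ Y s γ) (S : St9 h b n μ t) (e : γ ≤ γ') : On μ Y s γ' :=
  ⟨h1.1.trans e, h1.2.1, h1.2.2.1, fun G K bG dG => (h1.2.2.2 G K bG dG).trans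
    (mul_le_mul_of_nonneg_right (pow_le_pow_left₀ h1.1 e 2) (S.b1_nonneg bG dG))⟩

theorem St9.on_one (S : St9 h b n μ t) (s : ℕ) : On μ (fun _ => 1) s 1 := by
  refine ⟨zero_le_one, BM.const 1, fun _ _ _ => Eq.refl _, fun G K bG dG => ?_⟩
  have bS := bG.comp (cont_sht s).measurable
  have e := RGP.int_mp (S.shf (Pi.single 0 (s : ℤ))) ((bS.comp cont_rfl0.measurable).mul bS).meas
  change ∫ U, G (sht s (rfl0 (sht s U))) * G (sht s (sht s U)) ∂μ = _ at e
  simp only [sht_rfl0, sht_sht, ← Nat.cast_add] at e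
  simp only [nq, one_mul, one_pow, ← e]
  exact (S.gram G K (s + s) bG dG).2

theorem On.smul (h1 : On μ Y s γ) (c : ℝ) : On μ (fun U => c * Y U) s (|c| * γ) := by
  refine ⟨mul_nonneg (abs_nonneg c) h1.1, (BM.const c).mul h1.2.1,
    fun _ _ e => by simp only [h1.2.2.1 e], fun G K bG dG => ?_⟩
  have e : nq μ (fun U => c * Y U * G (sht s U)) = c ^ 2 * nq μ fun U => Y U * G (sht s U) := by
    rw [nq, nq, ← integral_const_mul]
    exact integral_congr_ae (.of_forall fun U => by ring)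
  rw [e, mul_pow, sq_abs, mul_assoc]
  exact mul_le_mul_of_nonneg_left (h1.2.2.2 G K bG dG) (sq_nonneg c)

theorem On.add (h1 : On μ Y s γ) (h2 : On μ Y' s γ') (S : St9 h b n μ t) :
    On μ (fun U => Y U + Y' U) s (γ + γ') := by
  refine ⟨add_nonneg h1.1 h2.1, h1.2.1.add h2.2.1,
    fun _ _ e => by simp only [h1.2.2.1 e, h2.2.2.1 e], fun G K bG dG => ?_⟩
  have e := S.b1_add (h1.b1_bm bG) (h2.b1_bm bG) 1
  have a1 := h1.2.2.2 G K bG dG
  have a2 := h2.2.2.2 G K bG dG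
  have q0 := S.b1_nonneg bG dG
  have cs := (S.b1_cs (h1.b1_bm bG) (h2.b1_bm bG) (h1.b1_dep dG) (h2.b1_dep dG)).trans (mul_le_mul a1 a2
    (S.b1_nonneg (h2.b1_bm bG) (h2.b1_dep dG)) (mul_nonneg (sq_nonneg _) q0))
  rw [show γ ^ 2 * nq μ G * (γ' ^ 2 * nq μ G) = (γ * γ' * nq μ G) ^ 2 by ring] at cs
  have a3 := (abs_le_of_sq_le_sq' cs (mul_nonneg (mul_nonneg h1.1 h2.1) q0)).2
  simp only [one_mul] at e
  simp only [add_mul, e]
  linarith

theorem St9.on_sum (S : St9 h b n μ t) {κ : Type} {B : Finset κ} {Y : κ → Fd → ℝ} {γ : κ → ℝ}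
    (h1 : ∀ i ∈ B, On μ (Y i) s (γ i)) : On μ (fun U => ∑ i ∈ B, Y i U) s (∑ i ∈ B, γ i) := by
  classical
  induction B using Finset.induction_on with
  | empty => simpa using (S.on_one s).smul 0
  | insert a B ha ih =>
    simp only [Finset.sum_insert ha]
    exact (h1 a (by simp)).add (ih fun i hi => h1 i (by simp [hi])) S

theorem On.mul (h1 : On μ Y s γ) (h2 : On μ Y' s' γ') :
    On μ (fun U => Y U * Y' (sht s U)) (s + s') (γ * γ') := by
  refine ⟨mul_nonneg h1.1 h2.1, h1.b1_bm h2.2.1, h1.b1_dep h2.2.2.1, fun G K bG dG => ?_⟩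
  have := (h1.2.2.2 _ _ (h2.b1_bm bG) (h2.b1_dep dG)).trans
    (mul_le_mul_of_nonneg_left (h2.2.2.2 G K bG dG) (sq_nonneg γ))
  simp only [sht_sht, ← Nat.cast_add, add_comm s' s, ← mul_assoc] at this
  rwa [mul_pow]

/-- slabs of length `s`, a gap `g` before and a gap `g'` after -/
theorem St9.on_chain (S : St9 h b n μ t) {Y : ℕ → Fd → ℝ} (N g g' : ℕ)
    (h1 : ∀ c < N, On μ (Y c) s γ) :
    On μ (fun U => ∏ c ∈ range N, Y c (sht (g + c * s) U)) (g + N * s + g') (γ ^ N) := by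
  have key : ∀ M ≤ N,
      On μ (fun U => ∏ c ∈ range M, Y c (sht (g + c * s) U)) (g + M * s) (γ ^ M) := by
    intro M hM
    induction M with
    | zero => simpa using S.on_one g
    | succ M ih =>
      have := (ih (by omega)).mul (h1 M (by omega))
      simp only [prod_range_succ, pow_succ, add_mul, one_mul, ← add_assoc]
      simpa only [Nat.cast_add, Nat.cast_mul] using this
  simpa only [mul_one] using (key N le_rfl).mul (S.on_one g')

theorem Vs.op9 [NeZero n] {l r : ℝ} {e : MeasureTheory.Lp ℝ 2 (RGP.PP h (Ed fun _ => n))}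
    (V : Vs h b n μ l r e) (hb : 0 ≤ b) (h3 : 3 ≤ n) {C : ℝ}
    (hZ : Z7 h b n ^ 81 ≤ C * Z7 h b (3 * n)) : Op9 h b n μ C := by
  intro k hk Y γ γ0 bY dY hγ
  have l0 := V.vac.pos
  have hp := KK_psd (M := fun _ => n) h b hb
  have tau := V.tau_le hb (by omega) hZ
  have vn : Matrix.vecCons n (fun _ : Fin 3 => n) = fun _ => n := by
    ext i; fin_cases i <;> rfl
  have dY' : DependsOn Y (Tm 0 (0 + (k + 1 : ℕ))) := dY.mono (tm_mono le_rfl (by omega))
  have bL := bY.comp (meas_lift (M := fun _ => n))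
  have bK : BM fun U => Y (rfl0 U) * Y U := (bY.comp cont_rfl0.measurable).mul bY
  have e1 := zz_tor (M := fun _ => n) (T := n) h b (0 - (k + 1 : ℕ)) bK.meas
  have e2 := int_wilson h b (fun _ => n) bK.meas
  rw [vn] at e1
  rw [e1, eq_div_iff (zz_pos h b _).ne'] at e2
  have s1 := fun v => (wt_WW h b).slab_one V.vac hp (WW_inv b) bL (dep_lift dY') v
  simp only [mul_zero, lift_rfc0, ← hk, ← e2] at s1
  have t0 := (sq_nonneg _).trans (s1 e)
  rw [V.vac.one] at t0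
  have i0 : 0 ≤ ∫ U, Y (rfl0 U) * Y U ∂wilson h b fun _ => n :=
    nonneg_of_mul_nonneg_left (nonneg_of_mul_nonneg_left (by simpa using t0) l0) (zz_pos h b _)
  have s2 : ∀ v, ‖(wt_WW h b).Op bL 0 (k + 1) v‖ ^ 2 ≤ γ ^ 2 * l ^ (n + 1) * ‖v‖ ^ 2 := fun v =>
    (s1 v).trans (mul_le_mul_of_nonneg_right (by
      calc _ ≤ (∫ U, Y (rfl0 U) * Y U ∂wilson h b fun _ => n) * (C * l ^ n) * l := by gcongr
        _ = C * nq (cube h b n) Y * l ^ (n + 1) := by rw [nq, cube]; ring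
        _ ≤ _ := mul_le_mul_of_nonneg_right hγ (by positivity)) (sq_nonneg _))
  refine ⟨γ0, bY, dY.mono (tm_mono le_rfl (by omega)), fun G K bG dG => ?_⟩
  have dG' : DependsOn G (Tm 0 (K + 1 : ℕ)) := dG.mono (tm_mono le_rfl (by omega))
  have bS := bG.comp (cont_sht (k + 2 : ℕ)).measurable
  have dS := dep_sht dG' (k + 2 : ℕ)
  have dF : DependsOn (fun U => Y U * G (sht (k + 2 : ℕ) U)) (Tm 0 (k + 1 + 1 + K + 1 : ℕ)) :=
    RGP.DependsOn.mul' (dY.mono (tm_mono le_rfl (by omega)))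
      (dS.mono (tm_mono (by omega) (by omega)))
  have g1 := V.gram_eq (bY.mul bS) (bY.mul bS) dF dF 0
  have g2 := V.gram_eq bG bG dG' dG' 0
  have bF := bL.mul (bS.comp (meas_lift (M := fun _ => n)))
  have bM := bG.comp (meas_lift (M := fun _ => n))
  rw [(wt_WW h b).vac_gram V.vac (WW_inv b) bF bF (dep_lift dF) (dep_lift dF)] at g1
  rw [(wt_WW h b).vac_gram V.vac (WW_inv b) bM bM (dep_lift dG') (dep_lift dG')] at g2
  have m1 := (wt_WW h b).op_mul (a := 0) (k := k + 1) (k' := K) (b := 0 + (k + 2 : ℕ)) bL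
    (bS.comp meas_lift) rfl (dep_lift (dY.mono (tm_mono le_rfl (by omega))))
    (dep_lift (dS.mono (tm_mono le_rfl (by omega)))) e
  have m2 : (wt_WW h b).Op (bS.comp (meas_lift (M := fun _ => n))) (0 + (k + 2 : ℕ)) K =
      (wt_WW h b).Op bM 0 K := Ch.op_congr _ _ (by
    rw [← Ch.ker_sft (bM.mul ((wt_WW h b).bm_wt _ _)) (k + 2 : ℕ)]
    simp only [Ch.wt_sft, lift_sft]
    congr 1
    ring)
  rw [m2] at m1
  simp only [Nat.cast_zero, D2.sht_zero, pow_zero, one_apply_eq_self,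
    real_inner_self_eq_norm_sq] at g1 g2
  rw [nq, nq, g1, g2, m1, div_le_iff₀ (by positivity)]
  refine (s2 _).trans_eq ?_
  rw [show l ^ (n + 1) = l ^ (2 * k + 3 + 1) by rw [← hk]]
  field_simp
  ring

end Pool.Agent.Lib.MP_7f377f_mp.YM9
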