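import Pool.Agent.Lib.MP_7f377f_mp.CyDef

/-! Multilinear bounds for sources on `ℤ ^ 4`. -/

noncomputable section

namespace Pool.Agent.Lib.MP_7f377f_mp.YM9

open MeasureTheory Filter Topology Function Real Set

theorem closed_mul (m : ℝ) : IsClosed (range fun z : ℤ => m * z) :=
  (range_comp (m • ·) Int.cast).symm.subst
    (isClosedMap_smul₀ m _ Int.isClosedEmbedding_coe_real.isClosed_range)

theorem closed_Lt (m : ℝ) : IsClosed (Lt m) := by
  have : Lt m = ⋂ l, (· l) ⁻¹' range fun z : ℤ => m * z := Set.ext fun w =>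
    ⟨fun ⟨z, e⟩ => mem_iInter.2 fun l => ⟨z l, e ▸ rfl⟩, fun e => by
      choose z hz using mem_iInter.1 e
      exact ⟨z, PiLp.ext hz⟩⟩
  exact this ▸ isClosed_iInter fun l => (closed_mul m).preimage (by fun_prop)

theorem closed_Lc (m : ℝ) : IsClosed (Lc m) := by
  have : Lc m = Lt m ∩ {w | w 0 = 0} := Set.ext fun w =>
    ⟨fun ⟨z, e, e'⟩ => ⟨⟨z, e'.symm⟩, by simp [e', pt, e]⟩, fun ⟨⟨z, e⟩, e'⟩ =>
      ⟨update z 0 0, update_self .., PiLp.ext fun l => by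
        by_cases hl : l = 0
        · simpa [hl, pt] using e'
        · simp [← e, pt, hl]⟩⟩
  exact this ▸ (closed_Lt m).inter (isClosed_eq (by fun_prop) continuous_const)

theorem near_src {a : ℝ} (ha : 0 ≤ a) (f : R4 → ℝ) : Near a (src a f) f :=
  fun x _ _ => ⟨pt a x, by rw [dist_self]; positivity, rfl⟩

theorem near_tF {a : ℝ} (_ : 0 < a) (f : R4 → ℝ) {s : Z4} {v : R4}
    (hs : ∀ l, |v l - a * s l| ≤ 5 * a) : Near a (tF s (src a f)) fun y => f (y - v) :=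
  fun x _ _ => ⟨pt a (x - s) + v, (YM7.dist_le_two (w := 5 * a) fun l =>
    le_of_eq_of_le (congrArg abs (by simp [pt]; ring)) (hs l)).trans_eq (by ring), by
      simp [tF, src]⟩

theorem near_rF {a : ℝ} (ha : 0 < a) (f : R4 → ℝ) {s : Z4} {v : R4}
    (hs : ∀ l, |v l - a * s l| ≤ 4 * a) :
    Near a (rF (tF s (src a f))) (theta fun y => f (y - v)) := fun x i j => by
  obtain ⟨y, hy⟩ : ∃ y, y = pt a (rq i j x - s) + v := ⟨_, rfl⟩
  refine ⟨WithLp.toLp 2 (update y 0 (-y 0)), (YM7.dist_le_two (w := 5 * a) fun l => ?_).trans_eq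
    (by ring), ?_⟩
  · have := abs_le.1 (hs l)
    by_cases hl : l = 0
    · subst hl
      simp only [hy, pt, rq, update_self, PiLp.add_apply, Pi.sub_apply, abs_le]
      split_ifs <;> push_cast <;> constructor <;> linarith
    · simp only [hy, pt, rq, update_of_ne hl, PiLp.add_apply, Pi.sub_apply, abs_le]
      push_cast
      constructor <;> linarith
  · simp only [theta, rF, tF, src, update_self, neg_neg, update_idem, update_eq_self]
    rw [hy, add_sub_cancel_right]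

theorem sz_src {f : R4 → ℝ} {L M a τ : ℝ} (h1 : ∀ y z, |f y - f z| ≤ L * dist y z)
    (h2 : ∀ y, |f y| ≤ M) (hL : L ≤ M) (ha : 0 ≤ a) (hτ : 0 ≤ τ) : Sz M a τ (src a f) :=
  YM7.sz_site (n := 0) hτ (fun _ => h2 _) fun (x : Z4) l => (h1 _ _).trans (by
    have : pt a (x + Pi.single l 1) = pt a x + EuclideanSpace.single l a := PiLp.ext fun i => by
      by_cases e : i = l <;> simp [pt, e, mul_add]
    erw [this]
    rw [dist_eq_norm, add_sub_cancel_left, PiLp.norm_single, Real.norm_of_nonneg ha]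
    exact mul_le_mul_of_nonneg_right hL ha)

theorem box_fin {a : ℝ} (ha : 0 < a) (R : ℝ) : {x : Z4 | ∀ l, |a * x l| ≤ R}.Finite :=
  (In.fin (F := indicator {x | ∀ l, |a * x l| ≤ R} 1) (fun _ hx => mem_of_indicator_ne_zero hx)
    ha).subset fun x hx => by rw [mem_support, indicator_of_mem hx]; exact one_ne_zero

variable [MeasurableSpace SU2] [BorelSpace SU2]

/-- the expectation as a linear map -/
def iL (μ : Measure Fd) [IsFiniteMeasure μ] : C(Fd, ℝ) →ₗ[ℝ] ℝ where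
  toFun φ := ∫ U, φ U ∂μ
  map_add' φ ψ := integral_add (φ.2.integrable_of_hasCompactSupport (.of_compactSpace _))
    (ψ.2.integrable_of_hasCompactSupport (.of_compactSpace _))
  map_smul' c φ := integral_const_mul c φ

theorem gc_ml (ρ μ : Measure Fd) [IsFiniteMeasure ρ] [IsFiniteMeasure μ] (κ : Type) [Fintype κ]
    (D : Finset Z4) : ∃ M : MultilinearMap ℝ (fun _ : κ => Sr) ℝ,
      ∀ F : κ → Sr, (∀ i x, F i x ≠ 0 → x ∈ D) → gc ρ μ F = M F := by
  obtain ⟨g, hg⟩ : ∃ g : Sr →ₗ[ℝ] C(Fd, ℝ), ∀ F U, g F U =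
      ∑ x ∈ D, ∑ i, ∑ j, if i < j then F x i j * pe U x i j else 0 :=
    ⟨∑ x ∈ D, ∑ i, ∑ j, if i < j then LinearMap.smulRight (.proj j ∘ₗ .proj i ∘ₗ .proj x)
      ⟨_, cont_pe x i j⟩ else 0, fun F U => by
      simp only [LinearMap.sum_apply, ContinuousMap.sum_apply]
      refine Finset.sum_congr rfl fun x _ => Finset.sum_congr rfl fun i _ =>
        Finset.sum_congr rfl fun j _ => ?_
      split_ifs <;> rfl⟩
  refine ⟨(iL ρ).compMultilinearMap ((MultilinearMap.mkPiAlgebra ℝ κ C(Fd, ℝ)).compLinearMap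
    fun _ => g - (iL μ ∘ₗ g).smulRight 1), fun F hF => ?_⟩
  simp [gc, iL, hg, fun i => gf_sum (hF i)]

variable {ι : Type} {Φ : Filter ι} {Λ : Set R4} {a τ : ι → ℝ} {ρ μ : ι → Measure Fd}

/-- bound for sources of general sizes -/
theorem Bd.sz (hB : Bd Λ Φ ρ μ a τ)
    (h0 : ∀ᶠ p in Φ, 0 < a p ∧ IsFiniteMeasure (ρ p) ∧ IsFiniteMeasure (μ p))
    (K : ℕ) (R : ℝ) {δ : ℝ} (hδ : 0 < δ) : ∃ C : ℝ, 0 ≤ C ∧ ∀ᶠ p in Φ, ∀ (κ : Type) [Fintype κ],
      Fintype.card κ ≤ K → ∀ (F : κ → Sr) (L : κ → ℝ), (∀ i, Sz (L i) (a p) (τ p) (F i)) →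
      (∀ i, In (a p) R (F i)) → Apart Λ (a p) δ F → |gc (ρ p) (μ p) F| ≤ C * ∏ i, L i := by
  obtain ⟨C, C0, hC⟩ := hB.card K R hδ
  refine ⟨C, C0, ?_⟩
  filter_upwards [hC, h0] with p h1 ⟨a0, _, _⟩ κ _ hκ F L h2 h3 h4
  obtain ⟨M, hM⟩ := gc_ml (ρ p) (μ p) κ (box_fin a0 R).toFinset
  simp only [Finite.mem_toFinset] at hM
  rw [hM F h3]
  by_cases hL : ∀ i, 0 < L i
  · have e : ∀ i x, ((L i)⁻¹ • F i) x ≠ 0 → F i x ≠ 0 := fun i x =>
      right_ne_zero_of_smul (a := (L i)⁻¹)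
    have h5 := h1 κ hκ (fun i => (L i)⁻¹ • F i) (fun i => (YM7.Sz.nrm (n := 0) (h2 i) (hL i)).sz)
      (fun i x hx => h3 i x (e i x hx)) fun i j hij x y hx hy => h4 i j hij x y (e i x hx) (e j y hy)
    have h6 : 0 < ∏ i, L i := Finset.prod_pos fun i _ => hL i
    rwa [hM _ fun i x hx => h3 i x (e i x hx), MultilinearMap.map_smul_univ,
      Finset.prod_inv_distrib, smul_eq_mul, abs_mul, abs_of_pos (inv_pos.2 h6), inv_mul_le_iff₀ h6,
      mul_comm] at h5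
  · obtain ⟨i, hi⟩ := not_forall.1 hL
    have h0 : L i = 0 := le_antisymm (not_lt.1 hi) (YM7.Sz.nonneg (n := 0) (h2 i))
    rw [M.map_coord_zero i (YM7.Sz.zero (n := 0) (h0 ▸ h2 i :)),
      Finset.prod_eq_zero (Finset.mem_univ i) h0, mul_zero, abs_zero]

end Pool.Agent.Lib.MP_7f377f_mp.YM9
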