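import Pool.Agent.Lib.MP_7f377f_mp.CyD1
import Pool.Agent.Lib.MP_7f377f_mp.CyF1

/-! The uniform bound on the cylinder. -/

noncomputable section

namespace Pool.Agent.Lib.MP_7f377f_mp.YM9

open MeasureTheory Filter Topology Function Real
open RGP (BM)
open Y6 (bm_of_cont)

set_option linter.unusedSectionVars false

theorem rF_ne {F : Sr} {x : Z4} (hx : rF F x ≠ 0) :
    ∃ y, F y ≠ 0 ∧ (∀ l, l ≠ 0 → y l = x l) ∧ (y 0 = -x 0 ∨ y 0 = -x 0 - 1) := by
  obtain ⟨i, hi⟩ := ne_iff.1 hx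
  obtain ⟨j, hj⟩ := ne_iff.1 hi
  refine ⟨rq i j x, fun e => hj (by simp [rF, e]), fun l hl => update_of_ne hl _ _, ?_⟩
  rw [rq, update_self]
  split_ifs <;> simp

theorem sz_rF {L a τ : ℝ} {F : Sr} (hF : Sz L a τ F) (ha : 0 ≤ a) (hτ : a ≤ τ) :
    Sz (2 * L) a τ (rF F) := by
  obtain ⟨g, h1, h2, h3⟩ := hF
  have L0 : 0 ≤ L := (abs_nonneg _).trans (h1 0)
  have e : ∀ x : Z4, update x 0 (-x 0 - 1) + Pi.single 0 1 = update x 0 (-x 0) := fun x => by
    funext l
    by_cases hl : l = 0 <;> simp [hl]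
  refine ⟨fun x => g (update x 0 (-x 0)), fun x => (h1 _).trans (by linarith), fun x l => ?_,
    fun x i j => ?_⟩
  · refine le_trans ?_ (show L * a ≤ _ by nlinarith [mul_nonneg L0 ha])
    beta_reduce
    by_cases hl : l = 0
    · have := h2 (update x 0 (-x 0 - 1)) 0
      rw [e, abs_sub_comm] at this
      refine le_of_eq_of_le ?_ this
      congr 3
      funext i
      by_cases hi : i = 0 <;> simp [hl, hi]
      ring
    · refine le_of_eq_of_le ?_ (h2 (update x 0 (-x 0)) l)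
      congr 3
      funext i
      by_cases hi : i = 0 <;> simp [hi, Ne.symm hl]
  · have h4 := h3 (rq i j x) i j
    have h5 : |g (update x 0 (-x 0)) - g (rq i j x)| ≤ L * a := by
      rw [rq]
      split_ifs
      · rw [← e]
        exact h2 _ _
      · simpa using mul_nonneg L0 ha
    have h6 := mul_le_mul_of_nonneg_left hτ L0
    rw [abs_le] at h4 h5 ⊢
    simp only [rF]
    constructor <;> linarith [h4.1, h4.2, h5.1, h5.2]

theorem in_rF {a R : ℝ} {F : Sr} (hF : In a R F) (ha : 0 ≤ a) : In a (R + a) (rF F) := by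
  intro x hx l
  obtain ⟨y, h1, h2, h3⟩ := rF_ne hx
  have h4 := abs_le.1 (hF y h1 l)
  rw [abs_le]
  by_cases hl : l = 0
  · subst hl
    rcases h3 with e | e <;> rw [e] at h4 <;> push_cast at h4 <;> constructor <;>
      linarith [h4.1, h4.2]
  · rw [h2 l hl] at h4
    constructor <;> linarith [h4.1, h4.2]

theorem dist_rfl {p q p' q' : R4} {a : ℝ} (h : ∀ l, l ≠ 0 → p' l - q' l = p l - q l)
    (h0 : |p' 0 - q' 0 + (p 0 - q 0)| ≤ a) : dist p' q' ≤ dist p q + 2 * a := by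
  have a0 : 0 ≤ a := (abs_nonneg _).trans h0
  let r : R4 := WithLp.toLp 2 (update p' 0 (q' 0 - (p 0 - q 0)))
  have h1 : dist p' r ≤ 2 * a := YM7.dist_le_two fun l => by
    by_cases hl : l = 0
    · subst hl
      refine le_of_eq_of_le ?_ h0
      simp only [r, update_self]
      congr 1
      ring
    · simpa [r, hl] using a0
  have h2 : dist r q' = dist p q := by
    rw [EuclideanSpace.dist_eq, EuclideanSpace.dist_eq]
    refine congrArg _ (Finset.sum_congr rfl fun l _ => ?_)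
    rw [Real.dist_eq, Real.dist_eq, sq_abs, sq_abs]
    by_cases hl : l = 0
    · subst hl
      simp only [r, update_self]
      ring
    · rw [← h l hl]
      simp only [r, update_of_ne hl]
  linarith [dist_triangle p' r q']

theorem far_int {m d η : ℝ} (z : ℤ) (hm : 0 < m) (h1 : z ≤ 0 → z ≠ 0 ∨ η ≤ d)
    (h2 : η - m ≤ d) (h3 : d ≤ m - η) : η ≤ |d - m * z| := by
  rw [le_abs]
  rcases lt_trichotomy z 0 with e | e | e
  · have : (z : ℝ) ≤ -1 := by exact_mod_cast (by omega : z ≤ -1)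
    exact Or.inl (by nlinarith)
  · exact Or.inl (by simpa [e] using h1 e.le)
  · have : (1 : ℝ) ≤ z := by exact_mod_cast e
    exact Or.inr (by nlinarith)

theorem apart_sum {κ : Type} {m a δ η : ℝ} {G : κ → Sr} (hm : 0 < m) (ha : 0 ≤ a)
    (hδ : 4 * a ≤ δ) (hη : a ≤ η) (h1 : ∀ i x, G i x ≠ 0 → η ≤ a * x 0 ∧ a * x 0 ≤ m / 2 - η)
    (h2 : Apart (Lc m) a δ G) :
    Apart (Lt m) a (min (δ / 2) η) (Sum.elim (fun i => rF (G i)) G) := by
  have t : ∀ (x y z : Z4), η ≤ |a * x 0 - a * y 0 - m * z 0| →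
      min (δ / 2) η ≤ dist (pt a x) (pt a y + pt m z) := fun x y z e =>
    (min_le_right _ _).trans (e.trans (le_of_eq_of_le (by simp [pt, Real.dist_eq, sub_sub])
      (PiLp.dist_apply_le (pt a x) (pt a y + pt m z) 0)))
  have h3 : ∀ i x, rF (G i) x ≠ 0 → η - m / 2 - a ≤ a * x 0 ∧ a * x 0 ≤ -η := fun i x hx => by
    obtain ⟨y, e1, -, e3⟩ := rF_ne hx
    have h4 := h1 i y e1
    rcases e3 with e | e <;> rw [e] at h4 <;> push_cast at h4 <;> constructor <;>
      linarith [h4.1, h4.2]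
  rintro (i | i) (j | j) hij x y hx hy _ ⟨z, rfl⟩
  · by_cases hz : z 0 = 0
    · obtain ⟨x', e1, e2, e3⟩ := rF_ne hx
      obtain ⟨y', e4, e5, e6⟩ := rF_ne hy
      have e7 := h2 i j (fun e => hij (congrArg _ e)) x' y' e1 e4 _ ⟨z, hz, rfl⟩
      have e8 := dist_rfl (p := pt a x) (q := pt a y + pt m z) (p' := pt a x')
        (q' := pt a y' + pt m z) (a := a) (fun l hl => by simp [pt, e2 l hl, e5 l hl]) (by
          simp only [pt, PiLp.add_apply, hz]
          rw [abs_le]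
          rcases e3 with e | e <;> rcases e6 with e' | e' <;> rw [e, e'] <;> push_cast <;>
            constructor <;> linarith)
      exact (min_le_left _ _).trans (by linarith)
    · have e1 := h3 i x hx
      have e2 := h3 j y hy
      exact t _ _ _ (far_int _ hm (fun _ => Or.inl hz) (by linarith [e1.1, e1.2, e2.1, e2.2])
        (by linarith [e1.1, e1.2, e2.1, e2.2]))
  · have e1 := h3 i x hx
    have e2 := h1 j y hy
    refine t _ _ _ (le_of_le_of_eq (far_int (d := a * y 0 - a * x 0) (-z 0) hm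
      (fun _ => Or.inr ?_) ?_ ?_) ?_)
    any_goals linarith [e1.1, e1.2, e2.1, e2.2]
    rw [← abs_neg]
    push_cast
    congr 1
    ring
  · have e1 := h1 i x hx
    have e2 := h3 j y hy
    refine t _ _ _ (far_int _ hm (fun _ => Or.inr ?_) ?_ ?_) <;> linarith [e1.1, e1.2, e2.1, e2.2]
  · by_cases hz : z 0 = 0
    · exact (min_le_left _ _).trans (le_trans (by linarith)
        (h2 i j (fun e => hij (congrArg _ e)) x y hx hy _ ⟨z, hz, rfl⟩))
    · have e1 := h1 i x hx
      have e2 := h1 j y hy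
      exact t _ _ _ (far_int _ hm (fun _ => Or.inl hz) (by linarith [e1.1, e1.2, e2.1, e2.2])
        (by linarith [e1.1, e1.2, e2.1, e2.2]))

theorem exists_slab {k D : ℕ} {a η P : ℝ} (ha : 0 < a) (η0 : 0 < η) (hη : η * (3 * k + 1) = a * P)
    (c : Fin k → Fin (2 * D + 1)) : ∃ (s : ℤ) (q : Fin k → ℕ), (∀ i, q i ≤ 2 * D + 3 * k) ∧
      ∀ i (y : ℝ), |a * (y + (s + q i * P)) / η - ((c i : ℤ) - D : ℤ)| ≤ 1 →
        η - a ≤ a * y ∧ a * y ≤ a * P - η := by
  obtain ⟨j, j0, j1, hj⟩ := YM7.exists_residue fun i => (c i : ℤ)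
  refine ⟨-⌊η * (j + D) / a⌋, fun i => (((c i : ℤ) + j) / (3 * k + 1)).toNat, fun i => ?_,
    fun i y hy => ?_⟩
  · have := (c i).2
    exact Int.toNat_le.2 ((Int.ediv_le_self _ (by omega)).trans (by omega))
  · have s1 := (le_div_iff₀' ha).1 (Int.floor_le (η * (j + D) / a))
    have s2 := (div_lt_iff₀' ha).1 (Int.lt_floor_add_one (η * (j + D) / a))
    have e0 : (((((c i : ℤ) + j) / (3 * k + 1)).toNat : ℕ) : ℝ) =
        (((c i : ℤ) + j) / (3 * k + 1) : ℤ) := by
      exact_mod_cast Int.toNat_of_nonneg (Int.ediv_nonneg (by omega) (by omega))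
    have e1 : ((3 * k + 1) * (((c i : ℤ) + j) / (3 * k + 1) : ℤ) +
        (((c i : ℤ) + j) % (3 * k + 1) : ℤ) : ℝ) = (c i : ℤ) + j := by
      exact_mod_cast Int.mul_ediv_add_emod ((c i : ℤ) + j) (3 * k + 1)
    have e2 : (2 : ℝ) ≤ (((c i : ℤ) + j) % (3 * k + 1) : ℤ) := by exact_mod_cast (hj i).1
    have e3 : ((((c i : ℤ) + j) % (3 * k + 1) : ℤ) : ℝ) ≤ 3 * k - 1 := by exact_mod_cast (hj i).2
    rw [e0, div_sub' η0.ne', abs_div, abs_of_pos η0, div_le_one η0, abs_le, Int.cast_sub,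
      Int.cast_neg, Int.cast_natCast D] at hy
    have e5 := congrArg (η * ·) e1
    have e6 := mul_le_mul_of_nonneg_left e2 η0.le
    have e7 := mul_le_mul_of_nonneg_left e3 η0.le
    have e8 := congrArg (· * ((((c i : ℤ) + j) / (3 * k + 1) : ℤ) : ℝ)) hη
    constructor <;> linarith [hy.1, hy.2]

variable [MeasurableSpace SU2] [BorelSpace SU2] (h : Measure SU2) [h.IsHaarMeasure]
  [IsProbabilityMeasure h]

instance probCubeE (b : ℝ) (n : ℕ) : IsProbabilityMeasure (cube h b n) := by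
  unfold cube
  infer_instance

theorem slab_le {b t C : ℝ} {n k N : ℕ} {μ : Measure Fd} (S : St9 h b n μ t)
    (hn : n = 2 * k + 3) {κ : Type} [Fintype κ] {G : κ → Sr} {q : κ → ℕ} (hq : ∀ i, q i ≤ N)
    (s : ℤ) (fin : ∀ i, (support (G i)).Finite) (hG : ∀ i x, G i x ≠ 0 → 0 ≤ x 0 ∧ x 0 < k)
    (C0 : 0 ≤ C) (hC : ∀ c, |gc (cube h b n) (cube h b n)
      (Sum.elim (fun i : {i // q i = c} => rF (G i)) fun i : {i // q i = c} => G i)| ≤ C) :
    |gc μ (cube h b n) fun i => tF (Pi.single 0 (s + q i * (k + 2))) (G i)| ≤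
      (1 + |t| * C) ^ (N + 1) := by
  have n0 : ∀ _ : Fin 4, 0 < n := fun _ => by omega
  have cg := fun i => cont_gf (fin i)
  have key := S.slab k hn s
    (fun c U => ∏ i : {i // q i = c}, (gf (G i) U - ∫ V, gf (G i) V ∂cube h b n))
    (fun _ => 1 + |t| * C) N (fun c => BM.prod fun i _ => (bm_of_cont (cg i)).sub (BM.const _))
    (fun c U V e => Finset.prod_congr rfl fun i _ => by
      rw [dep_gf (fun x hx => ⟨(hG i x hx).1, by have := hG i x hx; omega⟩) e]) fun c => ?_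
  · have b1 : 1 ≤ (1 + |t| * C) ^ (N + 1) := one_le_pow₀ (by nlinarith [abs_nonneg t])
    rw [Finset.prod_const, Finset.card_range] at key
    refine abs_le_of_sq_le_sq' (le_trans (le_of_eq ?_) (key.trans (by nlinarith))) (by linarith) |>
      abs_le.2
    rw [gc]
    congr 2
    funext U
    rw [← Finset.prod_fiberwise_of_maps_to (g := q) (t := Finset.range (N + 1))
      fun i _ => Finset.mem_range.2 (Nat.lt_succ_of_le (hq i))]
    refine Finset.prod_congr rfl fun c _ => ?_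
    refine (Finset.prod_subtype (p := fun i => q i = c) _ (by simp) _).trans
      (Finset.prod_congr rfl fun i _ => ?_)
    simp only [gf_tF, i.2, sht, cube, Weak.int_mp (mp_shf h b n0 _) (cg _)]
  · have := hC c
    simp only [gc, Fintype.prod_sum_type, Sum.elim_inl, Sum.elim_inr, gf_rF (fin _)] at this
    simp only [cube, Weak.int_mp (mp_rfl h b n0) (cg _)] at this ⊢
    refine (le_abs_self _).trans ?_
    rw [abs_mul]
    linarith [mul_le_mul_of_nonneg_left this (abs_nonneg t)]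

theorem bd_mix {ι : Type} {Φ : Filter ι} {m : ℕ} {n : ι → ℕ} {a b τ : ι → ℝ} {μ : ι → Measure Fd}
    {t : ℝ} (hC : Cyl h Φ m n a b τ μ t)
    (hB : Bd (Lt m) Φ (fun p => cube h (b p) (n p)) (fun p => cube h (b p) (n p)) a τ) :
    Bd (Lc m) Φ μ (fun p => cube h (b p) (n p)) a τ := by
  intro k R δ δ0
  have m0 : (0 : ℝ) < m := by exact_mod_cast hC.pos
  obtain ⟨a1, a2⟩ := tendsto_nhdsWithin_iff.1 hC.fm.a0
  obtain ⟨η, hη⟩ : ∃ η : ℝ, η = m / 2 / (3 * k + 1) := ⟨_, rfl⟩
  have η0 : 0 < η := by rw [hη]; positivity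
  have η1 : η * (3 * k + 1) = m / 2 := by rw [hη, div_mul_cancel₀ _ (by positivity)]
  obtain ⟨D, hD⟩ := exists_nat_ge (R / η)
  rw [div_le_iff₀' η0] at hD
  obtain ⟨C, C0, hC'⟩ := hB.sz (a2.mono fun p hp => ⟨hp, inferInstance, inferInstance⟩) (k + k)
    (R + m + m) (lt_min (half_pos δ0) (half_pos η0))
  have L1 : 1 ≤ 2 * (1 * (1 + 2 / η)) := by linarith [div_pos two_pos η0]
  refine ⟨∑ _z : Fin k → Fin (2 * D + 1),
    (1 + |t| * (C * (2 * (1 * (1 + 2 / η))) ^ (k + k))) ^ (2 * D + 3 * k + 1), by positivity, ?_⟩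
  filter_upwards [hC', a2, hC.st, hC.fm.tau.eventually_ge_atTop 1, a1.eventually_le_const
    (lt_min (div_pos η0 four_pos) (lt_min (div_pos δ0 four_pos) (div_pos m0 three_pos)))]
    with p h1 ha ⟨hn, hodd, _, S⟩ h4 h5 F f1 f2 f3
  replace ha : 0 < a p := ha
  rw [one_le_div ha] at h4
  simp only [le_min_iff] at h5
  obtain ⟨k', hk⟩ : ∃ k', n p = 2 * k' + 3 := by
    have : (3 : ℝ) ≤ n p := le_of_mul_le_mul_left (by linarith [h5.2.2]) ha
    obtain ⟨l, hl⟩ := hodd
    norm_cast at this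
    exact ⟨l - 1, by omega⟩
  have hP : a p * (k' + 2) = m / 2 + a p / 2 := by
    rw [← hn, hk]
    push_cast
    ring
  obtain ⟨θ, hθ⟩ : ∃ θ : ℝ, θ = a p * (k' + 2) / (3 * k + 1) := ⟨_, rfl⟩
  have θ1 : θ * (3 * k + 1) = a p * (k' + 2) := by rw [hθ, div_mul_cancel₀ _ (by positivity)]
  have θ2 : η ≤ θ := le_of_mul_le_mul_right (by linarith) (show (0 : ℝ) < 3 * k + 1 by positivity)
  have θ0 := η0.trans_le θ2
  have := S.prob
  have fin := fun i => (f2 i).fin ha
  obtain ⟨M, hM⟩ := gc_ml (μ p) (cube h (b p) (n p)) (Fin k)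
    (Finset.univ.biUnion fun i => (fin i).toFinset)
  let W : Fin k → Fin (2 * D + 1) → Sr := fun i z x u v =>
    YM7.hat (a p * x 0 / θ - ((z : ℤ) - D : ℤ)) * F i x u v
  have w1 : ∀ i z x, W i z x ≠ 0 → F i x ≠ 0 ∧ |a p * x 0 / θ - ((z : ℤ) - D : ℤ)| ≤ 1 :=
    fun i z x hx => ⟨fun e => hx (by funext u v; simp [W, e]), YM7.hat_supp fun e => hx (by
      funext u v
      simp only [W, e, zero_mul, Pi.zero_apply])⟩
  have w2 : ∀ i x, F i x ≠ 0 → x ∈ Finset.univ.biUnion fun i => (fin i).toFinset := fun i x hx =>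
    Finset.mem_biUnion.2 ⟨i, Finset.mem_univ _, (fin i).mem_toFinset.2 hx⟩
  have e1 : F = fun i => ∑ z, W i z := by
    funext i x u v
    simp only [W, Finset.sum_apply, ← Finset.sum_mul]
    by_cases hx : F i x = 0
    · simp [hx]
    · rw [YM7.sum_hat, one_mul]
      rw [abs_div, abs_of_pos θ0, div_le_iff₀' θ0]
      exact (f2 i x hx 0).trans (hD.trans (by gcongr))
  rw [hM F w2, e1, M.map_sum]
  refine (Finset.abs_sum_le_sum_abs _ _).trans (Finset.sum_le_sum fun z _ => ?_)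
  rw [← hM _ fun i x hx => w2 i x (w1 i _ x hx).1]
  obtain ⟨s, q, q1, q2⟩ := exists_slab ha θ0 θ1 z
  let G : Fin k → Sr := fun i => tF (-Pi.single 0 (s + q i * (k' + 2))) (W i (z i))
  have g1 : ∀ i x, G i x ≠ 0 → η / 2 ≤ a p * x 0 ∧ a p * x 0 ≤ m / 2 + a p / 2 - η :=
    fun i x hx => by
      have e2 := (w1 i _ _ hx).2
      rw [Pi.sub_apply, Pi.neg_apply, Pi.single_eq_same, sub_neg_eq_add] at e2
      have := q2 i (x 0) (by exact_mod_cast e2)
      constructor <;> linarith [this.1, this.2, h5.1]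
  have g2 : ∀ i, In (a p) (R + m) (G i) := fun i x hx l => by
    have e2 := f2 i _ (w1 i _ _ hx).1 l
    by_cases hl : l = 0
    · have := g1 i x hx
      rw [hl, abs_of_pos (by linarith [this.1])]
      linarith [this.2, abs_nonneg _ |>.trans e2, h5.2.2]
    · rw [Pi.sub_apply, Pi.neg_apply, Pi.single_eq_of_ne hl, neg_zero, sub_zero] at e2
      linarith
  have g3 : ∀ i, Sz (1 * (1 + 2 / η)) (a p) (τ p) (G i) := fun i =>
    YM7.Sz.shift (n := 0) (F := W i (z i)) (YM7.Sz.mul (n := 0) (f1 i) (by positivity)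
      (ha.le.trans h4) (fun x => YM7.abs_hat _) fun (x : Z4) l => (YM7.hat_lip _ _).trans (by
        have e2 : |(((x + Pi.single l 1 : Z4) 0 : ℤ) : ℝ) - x 0| ≤ 1 := by
          by_cases hl : l = 0 <;> simp [hl]
        rw [sub_sub_sub_cancel_right, ← sub_div, ← mul_sub, abs_div, abs_mul, abs_of_pos ha,
          abs_of_pos θ0, div_mul_eq_mul_div, mul_div_assoc 2]
        gcongr
        exact mul_le_of_le_one_right ha.le e2)) _
  refine le_of_eq_of_le ?_ (slab_le h S hk q1 s (fun i => (g2 i).fin ha) (G := G)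
    (fun i x hx => ?_) (by positivity) fun c => ?_)
  · congr 2
    funext i x
    simp [G, tF]
  · have := g1 i x hx
    have e2 : (0 : ℝ) ≤ x 0 := nonneg_of_mul_nonneg_right (by linarith [this.1]) ha
    have e3 : (x 0 : ℝ) < k' := lt_of_mul_lt_mul_left (by linarith [this.2, h5.1]) ha.le
    exact ⟨by exact_mod_cast e2, by exact_mod_cast e3⟩
  · have e2 : Fintype.card ({i // q i = c} ⊕ {i // q i = c}) ≤ k + k := by
      have := Fintype.card_subtype_le fun i => q i = c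
      rw [Fintype.card_fin] at this
      rw [Fintype.card_sum]
      omega
    refine (h1 _ e2 _ (fun _ => 2 * (1 * (1 + 2 / η))) ?_ ?_ (apart_sum m0 ha.le
      (by linarith [h5.2.1]) (by linarith [h5.1]) (fun i x hx => ?_) ?_)).trans ?_
    · rintro (i | i)
      · exact sz_rF (g3 i) ha.le h4
      · exact YM7.Sz.mono (n := 0) (g3 i) (by linarith) ha.le (ha.le.trans h4)
    · rintro (i | i) x hx l
      · exact (in_rF (g2 i) ha.le x hx l).trans (by linarith [h5.2.2])
      · exact (g2 i x hx l).trans (by linarith)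
    · have := g1 i x hx
      exact ⟨this.1, by linarith [this.2, h5.1]⟩
    · intro i j hij x y hx hy w hw
      refine (f3 i j (Subtype.coe_ne_coe.2 hij) _ _ (w1 _ _ _ hx).1 (w1 _ _ _ hy).1 w hw).trans_eq ?_
      rw [i.2, j.2, dist_eq_norm, dist_eq_norm]
      congr 1
      ext l
      simp only [pt, PiLp.sub_apply, PiLp.add_apply, Pi.sub_apply, Int.cast_sub]
      ring
    · rw [Finset.prod_const, Finset.card_univ]
      exact mul_le_mul_of_nonneg_left (pow_le_pow_right₀ L1 e2) C0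

theorem bd_recentre {ι : Type} {Φ : Filter ι} {Λ : Set R4} {a τ : ι → ℝ} {μ ν : ι → Measure Fd}
    (h0 : ∀ᶠ p in Φ, 0 < a p ∧ IsProbabilityMeasure (μ p)) (hB : Bd Λ Φ μ ν a τ) :
    Bd Λ Φ μ μ a τ := by
  intro k R δ δ0
  obtain ⟨C, C0, hC⟩ := hB.card k R δ0
  refine ⟨C * (1 + C) ^ k, by positivity, ?_⟩
  filter_upwards [hC, h0] with p h1 ⟨ha, _⟩ F f1 f2 f3
  have cg := fun i => cont_gf ((f2 i).fin ha)
  have h2 : ∀ B : Finset (Fin k),
      |∫ U, ∏ i ∈ B, (gf (F i) U - ∫ V, gf (F i) V ∂ν p) ∂μ p| ≤ C := fun B => by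
    have := h1 B (by simpa using B.card_le_univ) (fun i => F i) (fun i => f1 i) (fun i => f2 i)
      fun i j hij => f3 i j (Subtype.coe_ne_coe.2 hij)
    refine le_of_eq_of_le ?_ this
    rw [gc]
    congr 2
    funext U
    exact (B.prod_coe_sort _).symm
  have e : ∀ U, ∏ i, (gf (F i) U - ∫ V, gf (F i) V ∂μ p) = ∑ B ∈ Finset.univ.powerset,
      (∏ i ∈ B, (gf (F i) U - ∫ V, gf (F i) V ∂ν p)) *
        ∏ i ∈ Finset.univ \ B, (∫ V, gf (F i) V ∂ν p - ∫ V, gf (F i) V ∂μ p) := fun U => by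
    rw [← Finset.prod_add]
    simp only [sub_add_sub_cancel]
  simp only [gc, e]
  rw [integral_finsetSum _ fun B _ => (bm_of_cont (by fun_prop)).integrable _, ← Fin.prod_const,
    Finset.prod_add, Finset.mul_sum]
  refine (Finset.abs_sum_le_sum_abs _ _).trans (Finset.sum_le_sum fun B _ => ?_)
  rw [integral_mul_const, abs_mul, Finset.prod_const_one, one_mul, Finset.abs_prod]
  refine mul_le_mul (h2 B) (Finset.prod_le_prod (fun _ _ => abs_nonneg _) fun i _ => ?_)
    (Finset.prod_nonneg fun _ _ => abs_nonneg _) C0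
  have := h2 {i}
  simp only [Finset.prod_singleton] at this
  rwa [integral_sub ((bm_of_cont (cg i)).integrable _) (integrable_const _), integral_const,
    probReal_univ, one_smul, abs_sub_comm] at this

end Pool.Agent.Lib.MP_7f377f_mp.YM9
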