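import Pool.Agent.Lib.MP_7f377f_mp.CuDef

/-! The operator bound for the Schwinger functions of the cylinder. -/

noncomputable section

namespace Pool.Agent.Lib.MP_7f377f_mp.YM9

open MeasureTheory Filter Topology Function Real Finset
open RGP (BM)

set_option linter.unusedSectionVars false

variable [MeasurableSpace SU2] [BorelSpace SU2] {h : Measure SU2} [h.IsHaarMeasure]
  [IsProbabilityMeasure h] {ι : Type} {U Φ : Filter ι} {n : ι → ℕ} {a b τ : ι → ℝ} {t : ℝ} {M : ℕ}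
  {μ : ι → Measure Fd} {S : ∀ {k : ℕ}, (Fin k → R4 → ℝ) → ℝ}

namespace CuB3

theorem gf_smul (c : ℝ) (F : Sr) (V : Fd) : gf (c • F) V = c * gf F V := by
  simp only [gf, ← tsum_mul_left, mul_sum, Pi.smul_apply, smul_eq_mul, mul_ite, mul_zero, mul_assoc]

theorem nq_smul (ν : Measure Fd) (c : ℝ) (G : Fd → ℝ) :
    nq ν (fun V => c * G V) = c ^ 2 * nq ν G := by
  simp only [nq, ← integral_const_mul, sq, mul_mul_mul_comm c]

/-- the operator bound for Lipschitz test functions -/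
theorem bo_lip {m : ℝ} (hO : Bo m U μ μ a τ) (hF : Fm U a τ) (k : ℕ) (R δ : ℝ) (hδ : 0 < δ) :
    ∃ γ s₀ : ℝ, 0 ≤ γ ∧ ∀ᶠ p in U, ∀ s : ℕ, s₀ ≤ a p * s →
      ∀ (f : Fin k → R4 → ℝ) (L : Fin k → NNReal),
      (∀ i, LipschitzWith (L i) (f i) ∧ ∀ y, f i y ≠ 0 → ‖y‖ ≤ R ∧ m ≤ y 0) →
      (∀ i j, i ≠ j → ∀ x y, f i x ≠ 0 → f j y ≠ 0 → ∀ w ∈ Lc m, δ ≤ dist x (y + w)) →
      ∀ (G : Fd → ℝ) (K : ℕ), BM G → DependsOn G (Tm 0 K) →
        nq (μ p) (fun V => po (μ p) (a p) f V * G (sht s V)) ≤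
          (γ * ∏ i, L i) ^ 2 * nq (μ p) G := by
  obtain ⟨γ, s₀, hC⟩ := hO k R δ hδ
  refine ⟨|γ| * (2 * |R| + 1) ^ k, s₀, by positivity, ?_⟩
  filter_upwards [hC, hF.pos] with p h1 h2 s hs f L h4 h5 G K g1 g2
  rw [NNReal.coe_prod, mul_assoc, ← Fin.prod_const k, ← prod_mul_distrib]
  obtain ⟨N, hN⟩ : ∃ N : Fin k → ℝ, ∀ i, (2 * |R| + 1) * L i = N i := ⟨_, fun _ => rfl⟩
  have h6 : ∀ i, Sz (N i) (a p) (τ p) (src (a p) (f i)) := fun i => hN i ▸
    sz_src (h4 i).1.dist_le_mul (fun y =>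
      (YM7.sup_le (h4 i).1 (abs_nonneg R) (fun y hy => ((h4 i).2 y hy).1.trans (le_abs_self R))
        y).trans_eq (mul_comm _ _)) (le_mul_of_one_le_left (L i).2 (by linarith [abs_nonneg R]))
      h2.1.le h2.2.le
  simp only [hN]
  by_cases hL : ∀ i, 0 < N i
  · have e : ∀ i x, ((N i)⁻¹ • src (a p) (f i)) x ≠ 0 → f i (pt (a p) x) ≠ 0 := fun i x hx =>
      src_ne (right_ne_zero_of_smul (a := (N i)⁻¹) hx)
    have h7 := (h1 s hs (fun i => (N i)⁻¹ • src (a p) (f i))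
      (fun i => (YM7.Sz.nrm (n := 0) (h6 i) (hL i)).sz)
      (fun i x hx l => (PiLp.norm_apply_le (pt (a p) x) l).trans ((h4 i).2 _ (e i x hx)).1)
      (fun i x hx => ((h4 i).2 _ (e i x hx)).2)
      fun i j hij x y hx hy => h5 i j hij _ _ (e i x hx) (e j y hy)).2.2.2 G K g1 g2
    have h8 : 0 < ∏ i, N i := prod_pos fun i _ => hL i
    simp only [gf_smul, integral_const_mul, ← mul_sub, prod_mul_distrib, mul_assoc, nq_smul,
      prod_inv_distrib, inv_pow] at h7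
    rw [inv_mul_le_iff₀ (by positivity)] at h7
    refine h7.trans_eq ?_
    rw [mul_pow, sq_abs]
    ring
  · obtain ⟨i, hi⟩ := not_forall.1 hL
    have h0 : N i = 0 := le_antisymm (not_lt.1 hi) (YM7.Sz.nonneg (n := 0) (h6 i))
    have h7 : src (a p) (f i) = (0 : ℝ) • src (a p) (f i) :=
      (YM7.Sz.zero (n := 0) (h0 ▸ h6 i :)).trans (zero_smul _ _).symm
    have h8 : ∀ V, po (μ p) (a p) f V = 0 := fun V => prod_eq_zero (mem_univ i) (by
      rw [h7]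
      simp only [gf_smul, zero_mul, integral_zero, sub_zero])
    simp [nq, h8, prod_eq_zero (mem_univ i) h0]

/-- product of centred fields -/
def cp {k : ℕ} (ν : Measure Fd) (F : Fin k → Sr) (V : Fd) : ℝ :=
  ∏ i, (gf (F i) V - ∫ W, gf (F i) W ∂ν)

theorem lim2 [U.NeBot] (hN : Lm U M a μ μ S) (hC : Cyl h U M n a b τ μ t) {k l : ℕ}
    {u : Fin k → R4 → ℝ} {w : Fin l → R4 → ℝ} (hu : Pos M u) (hw : Pos M w) {F : ι → Fin k → Sr}
    {G : ι → Fin l → Sr}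
    (hF : ∀ᶠ p in U, ∀ i, Near (a p) (rF (F p i)) (theta (u i)) ∧ (support (F p i)).Finite)
    (hG : ∀ᶠ p in U, ∀ i, Near (a p) (G p i) (w i)) :
    Tendsto (fun p => ∫ V, cp (μ p) (F p) (rfl0 V) * cp (μ p) (G p) V ∂μ p) U
      (𝓝 (S (YM7.rp u w))) := by
  refine (hN (hu.rp hw) (F := fun p => Fin.append (fun i => rF (F p i)) (G p))
    ((hF.and hG).mono fun p e =>
      YM5.forall_append₂ (P := Near (a p)) (fun i => (e.1 i).1) e.2)).congr' ?_
  filter_upwards [hF, hC.st] with p e1 e2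
  simp only [gc, cp, Fin.prod_univ_add, Fin.append_left, Fin.append_right, gf_rF (e1 _).2,
    RGP.int_mp e2.2.2.2.rfl (cont_gf (e1 _).2).measurable]

end CuB3

open CuB3 in
theorem Lm.os_op [U.NeBot] (hN : Lm U M a μ μ S) (hC : Cyl h U M n a b τ μ t)
    (hO : Bo M U μ μ a τ) (k : ℕ) (R δ : ℝ) (hδ : 0 < δ) :
    ∃ γ r s : ℝ, 0 ≤ γ ∧ R < r ∧ r + R < s ∧
    ∀ (f : Fin k → R4 → ℝ) L, Lq M R δ f L → ∀ {A : Type} [Fintype A] {B : A → MF},
      (∀ x, PoM M (B x)) → ∀ c,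
        qm (SM S) 0 (fun x => mv (ev 0 r) (mf f) + mv (ev 0 s) (B x)) c ≤
          (γ * ∏ i, L i) ^ 2 * qm (SM S) 0 B c := by
  obtain ⟨r, hr⟩ : ∃ r : ℝ, r = |R| + M + 1 := ⟨_, rfl⟩
  have M0 : (0 : ℝ) ≤ M := M.cast_nonneg
  have R0 := abs_nonneg R
  have R1 := le_abs_self R
  obtain ⟨γ, s₀, γ0, hγ⟩ := bo_lip hO hC.fm k (R + r) δ hδ
  obtain ⟨s, hs0, hs⟩ : ∃ s : ℝ, s₀ ≤ s ∧ r + |R| < s :=
    ⟨max s₀ (r + |R| + 1), le_max_left _ _, (lt_add_one _).trans_le (le_max_right _ _)⟩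
  refine ⟨γ, r, s, γ0, by linarith, by linarith, fun f L ⟨f1, f2, f3⟩ A _ B hB c => ?_⟩
  choose κ g hg using fun x => exists_mf (B x)
  obtain rfl : B = fun x => mf (g x) := funext fun x => (hg x).symm
  replace hB := fun x => pom_mf.1 (hB x)
  have h0 := (hC.fm.ap.and hC.st).mono fun p e => And.intro e.1 (And.intro e.2.1 e.2.2.2.2)
  have t0 : ∀ i, ∀ y ∈ tsupport (YM7.sh (ev 0 r) f i), |y 0 - r| ≤ R := fun i =>
    closure_minimal (t := {y : R4 | |y 0 - r| ≤ R}) (fun y hy => by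
      simpa using (PiLp.norm_apply_le (y - ev 0 r) 0).trans ((f2 i).2 _ hy))
      (isClosed_le (by fun_prop) continuous_const)
  have P1 : Pos M (YM7.sh (ev 0 r) f) :=
    ⟨f1.sh _, fun i y hy => by linarith [abs_le.1 (t0 i y hy)]⟩
  have s0 : 0 ≤ s := by linarith
  have P2 : ∀ x, Pos M (Fin.append (YM7.sh (ev 0 r) f) (YM7.sh (ev 0 s) (g x))) := fun x => by
    have P3 := pom_mf.2 ((hB x).sh (v := ev 0 s) (by simpa))
    rw [← pom_mf, mf_append]
    refine ⟨(pom_mf.2 P1).1.add_time P3.1 (t := s) (forall_mf.2 fun i y hy => ?_) ?_,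
      su_add.2 ⟨(pom_mf.2 P1).2, P3.2⟩⟩
    · change y 0 ≤ s
      linarith [abs_le.1 (t0 i y hy)]
    · rw [← mv_mf]
      exact ((pom_mf.2 (hB x)).2.mv _).mono fun y hy => by simpa using hy
  have hs' : ∀ᶠ p in U, ∀ l, |ev 0 s l - a p * (Pi.single 0 (⌈s / a p⌉₊ : ℤ) : Z4) l| ≤ 4 * a p :=
    hC.fm.ap.mono fun p e l => by
      have e1 := (div_le_iff₀' e).1 (Nat.le_ceil (s / a p))
      have e2 := (lt_div_iff₀' e).1
        (sub_lt_iff_lt_add.2 (Nat.ceil_lt_add_one (div_nonneg s0 e.le)))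
      by_cases hl : l = 0
      · simp only [hl, PiLp.single_apply, if_true, Pi.single_eq_same, Int.cast_natCast, abs_le]
        constructor <;> linarith
      · simp [hl, e.le]
  obtain ⟨F, hF⟩ : ∃ F : ∀ x, ι → Fin (k + κ x) → Sr, F = fun x p => Fin.append
    (fun i => src (a p) (YM7.sh (ev 0 r) f i))
    fun i => tF (Pi.single 0 (⌈s / a p⌉₊ : ℤ)) (src (a p) (g x i)) := ⟨_, rfl⟩
  have N1 := fun x y => lim2 hN hC (P2 x) (P2 y) (F := F x) (G := F y)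
    ((hC.fm.ap.and hs').mono fun p ⟨e, e'⟩ => hF ▸ YM5.forall_append₂
      (P := fun G u => Near (a p) (rF G) (theta u) ∧ (support G).Finite) (fun i => ⟨by
        simpa only [sub_zero, tF_zero] using near_rF e (YM7.sh (ev 0 r) f i) (v := 0) (s := 0)
          fun l => by simp [e.le], fin_src e (P1.1.1 i).1⟩) fun i => ⟨near_rF e _ e',
      (fin_src e ((hB x).1.1 i).1).preimage sub_left_injective.injOn⟩)
    ((hC.fm.ap.and hs').mono fun p ⟨e, e'⟩ => hF ▸ YM5.forall_append₂ (P := Near (a p))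
      (fun i => near_src e.le _) fun i => near_tF e _ fun l => (e' l).trans (by linarith))
  have N2 := tendsto_finsetSum univ fun x _ => tendsto_finsetSum univ fun y _ =>
    (N1 x y).const_mul (c x * c y)
  have N3 := ((hN.gm hC).lim0 h0 hB c c).const_mul ((γ * ∏ i, L i) ^ 2)
  have e0 : ∀ x, YM7.sh (EuclideanSpace.single 0 0) (g x) = g x := fun x => by
    funext i y
    exact congrArg (g x i) (PiLp.ext fun l => by simp)
  simp only [e0] at N3
  simp only [qm, mv_mf, ← mf_append, ← mf_rp, sm_mf (hN.perm hC.fm) ((P2 _).rp (P2 _)),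
    sm_mf (hN.perm hC.fm) ((hB _).rp (hB _))]
  refine le_of_tendsto_of_tendsto N2 N3 ?_
  filter_upwards [h0, hγ, ev_dep h0 hB] with p e1 e2 ⟨K, hK⟩
  have := e1.2.2.prob
  refine Eq.trans_le ?_ (e2 ⌈s / a p⌉₊ (hs0.trans ((div_le_iff₀' e1.1).1 (Nat.le_ceil _)))
    (YM7.sh (ev 0 r) f) L (fun i => ⟨?_, fun y hy => ⟨?_, ?_⟩⟩)
    (fun i j hij x y hx hy w ⟨z, z1, z2⟩ => ?_) _ K (hK c).1 (hK c).2)
  · have B1 := Y6.bm_of_cont (P1.po (μ p) e1.1).1
    have B2 := fun x => B1.mul ((Y6.bm_of_cont ((hB x).po (μ p) e1.1).1).comp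
      (cont_sht ⌈s / a p⌉₊).measurable)
    have e : ∀ x V, cp (μ p) (F x p) V = po (μ p) (a p) (YM7.sh (ev 0 r) f) V *
        po (μ p) (a p) (g x) (sht ⌈s / a p⌉₊ V) := fun x V => by
      simp only [hF, cp, Fin.prod_univ_add, Fin.append_left, Fin.append_right, gf_tF,
        RGP.int_mp (e1.2.2.shf _) (cont_gf (fin_src e1.1 ((hB x).1.1 _).1)).measurable]
      rfl
    simp only [e, nq, mul_sum _ _ (po (μ p) (a p) (YM7.sh (ev 0 r) f) _),
      mul_left_comm (po (μ p) (a p) (YM7.sh (ev 0 r) f) _) (c _)]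
    exact (int_bil (μ p) (fun x => (B2 x).comp cont_rfl0.measurable) B2 c c).symm
  · exact .of_dist_le_mul fun x y => ((f2 i).1.dist_le_mul _ _).trans_eq (by rw [dist_sub_right])
  · have := (norm_le_norm_add_norm_sub' y (ev 0 r)).trans (add_le_add le_rfl ((f2 i).2 _ hy))
    rwa [PiLp.norm_single, norm_of_nonneg (by linarith), add_comm] at this
  · linarith [abs_le.1 (t0 i y (subset_tsupport _ hy))]
  · simpa only [z2, sub_add_eq_add_sub, dist_sub_right] using f3 i j hij _ _ hx hy z z1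

end Pool.Agent.Lib.MP_7f377f_mp.YM9
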