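import Pool.Agent.Lib.MP_7f377f_mp.CuDef

/-! Translations on the finite dimensional vacuum space; the sector of a pure vacuum. -/

noncomputable section

namespace Pool.Agent.Lib.MP_7f377f_mp.YM9

open MeasureTheory Filter Topology Function Real Finset
open RGP (BM)

set_option linter.unusedSectionVars false

variable {H : Type} [NormedAddCommGroup H] [InnerProductSpace ℂ H] [CompleteSpace H]
  {m C : ℝ} {Ω χ : H} {T : R4 → H →L[ℂ] H} {P : H →L[ℂ] H} {σ : MF → ℝ} {Ψ : MF → H}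
  {φ A : MF → H →L[ℂ] H}

namespace CuD2

theorem all_of_small {p : ℝ → Prop} {δ : ℝ} (δ0 : 0 < δ) (h1 : ∀ y, |y| < δ → p y)
    (h2 : ∀ x y, p x → p y → p (x + y)) (a : ℝ) : p a := by
  obtain ⟨n, hn⟩ := exists_nat_gt (|a| / δ)
  have n0 : (0 : ℝ) < n + 1 := by positivity
  have h3 : p (a / (n + 1)) := h1 _ (by
    rw [abs_div, abs_of_pos n0, div_lt_iff₀ n0]
    rw [div_lt_iff₀ δ0] at hn
    linarith)
  have h4 : ∀ k : ℕ, p ((k + 1) * (a / (n + 1))) := fun k => by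
    induction k with
    | zero => simpa using h3
    | succ k ih =>
      have := h2 _ _ ih h3
      rwa [← add_one_mul, ← Nat.cast_succ] at this
  simpa only [mul_div_cancel₀ _ n0.ne'] using h4 n

/-- the orbit of a vector of a finite dimensional invariant space is spanned by small times -/
theorem mem_span {U : ℝ → H →L[ℂ] H} (hU : ∀ a b, U (a + b) = U a * U b) {x : H} (h0 : U 0 x = x)
    (K : Submodule ℝ H) [FiniteDimensional ℝ K] (hK : ∀ a, U a x ∈ K) {ε : ℝ} (ε0 : 0 < ε) (a : ℝ) :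
    U a x ∈ Submodule.span ℝ ((fun y => U y x) '' {y | |y| < ε}) := by
  classical
  let S : ℝ → Submodule ℝ H := fun δ => Submodule.span ℝ ((fun y => U y x) '' {y | |y| < δ})
  have mo : ∀ {a b}, a ≤ b → S a ≤ S b := fun h =>
    Submodule.span_mono (Set.image_mono fun y hy => lt_of_lt_of_le hy h)
  have fd : ∀ δ, FiniteDimensional ℝ (S δ) := fun δ =>
    Submodule.finiteDimensional_of_le (S₂ := K) (Submodule.span_le.2 (by
      rintro _ ⟨y, -, rfl⟩
      exact hK y))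
  have ex : ∃ n, ∃ δ, 0 < δ ∧ δ ≤ ε ∧ Module.finrank ℝ (S δ) = n := ⟨_, ε, ε0, le_rfl, rfl⟩
  obtain ⟨δ, δ0, δ1, hδ⟩ := Nat.find_spec ex
  have e : S (δ / 2) = S δ := Submodule.eq_of_le_of_finrank_le (mo (by linarith))
    (hδ.trans_le (Nat.find_min' ex ⟨δ / 2, by linarith, by linarith, rfl⟩))
  have inv := all_of_small (p := fun y => ∀ u ∈ S δ, U y u ∈ S δ) (half_pos δ0)
    (fun y hy u hu => by
      rw [← e] at hu
      refine (Submodule.span_le (p := (S δ).comap ((U y : H →ₗ[ℂ] H).restrictScalars ℝ))).2 ?_ hu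
      rintro _ ⟨z, hz, rfl⟩
      refine Submodule.subset_span ⟨y + z, (abs_add_le y z).trans_lt ?_, by simp [hU]⟩
      linarith [show |z| < δ / 2 from hz])
    (fun y z hy hz u hu => by rw [hU]; exact hy _ (hz u hu)) a
  exact mo δ1 (inv x (Submodule.subset_span ⟨0, by simpa using δ0, h0⟩))

theorem ev_zero {j : Fin 4} (hj : j ≠ 0) (s : ℝ) : ev j s 0 = 0 := by simp [hj.symm]

theorem ev_add (h : Sg m C Ω T) {j : Fin 4} (hj : j ≠ 0) (a b : ℝ) :
    T (ev j (a + b)) = T (ev j a) * T (ev j b) :=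
  (congrArg T (PiLp.single_add ..)).trans (h.add _ _ (ev_zero hj a).ge (ev_zero hj b).ge)

theorem ev_null (j : Fin 4) : ev j 0 = 0 := by
  ext i
  simp

theorem ev_nil (h : Sg m C Ω T) (j : Fin 4) : T (ev j 0) = 1 := by rw [ev_null, h.zero]

end CuD2

open CuD2

theorem Sg.eq_zero (h : Sg m C Ω T) (hP : Pj T P) {j : Fin 4} (hj : j ≠ 0) {x : H} (hx : P x = x)
    {s ε : ℝ} (ε0 : 0 < ε) (h1 : ∀ (A : Type) [Fintype A] (c u : A → ℝ), (∀ a, |u a| < ε) →
      ∑ a, ∑ b, c a * c b * (inner ℂ x (T (ev j (s + u a + u b)) x)).re ≤ 0) : x = 0 := by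
  have : FiniteDimensional ℝ ((LinearMap.range (P : H →ₗ[ℂ] H)).restrictScalars ℝ) :=
    Module.Finite.iff_fg.2 (Module.Finite.iff_fg.1 hP.fin).restrictScalars
  obtain ⟨n, c, g, e⟩ := Submodule.mem_span_set'.1 (mem_span (U := fun a => T (ev j a))
    (ev_add h hj) (x := x) (by rw [ev_nil h j, one_apply_eq_self]) ((LinearMap.range (P : H →ₗ[ℂ] H)).restrictScalars ℝ)
    (fun a => ⟨T (ev j a) x, by
      have := congrArg (· x) (hP.comm _ (ev_zero hj a).ge)
      simpa [hx] using this.symm⟩) ε0 (-s / 2))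
  choose u hu hg using fun i => (g i).2
  simp only [← hg] at e
  have k1 : ∀ t, ∑ b, c b • T (ev j (t + u b)) x = T (ev j (t + -s / 2)) x := fun t => by
    simp only [ev_add h hj, mul_apply_eq_comp, ← e, map_sum,
      ContinuousLinearMap.map_smul_of_tower]
  have k2 : ∑ a, ∑ b, c a • c b • T (ev j (s + u a + u b)) x = x := by
    simp only [← smul_sum, k1, add_right_comm s _ (-s / 2)]
    rw [show s + -s / 2 + -s / 2 = 0 by ring, ev_nil h j, one_apply_eq_self]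
  have k3 := congrArg (fun y => (inner ℂ x y).re) k2
  simp only [inner_sum, Complex.re_sum, ← Complex.coe_smul, inner_smul_right, Complex.re_ofReal_mul]
    at k3
  have k4 := h1 _ c u hu
  simp only [mul_assoc, k3] at k4
  exact (re_inner_self_nonpos (𝕜 := ℂ)).1 k4

theorem Sg.fix_of (h : Sg m C Ω T) (hP : Pj T P) {x : H} (hx : P x = x) {ε : ℝ} (ε0 : 0 < ε)
    (h1 : ∀ j, j ≠ 0 → ∀ s, |s| < ε → T (ev j s) x = T (ev j (-s)) x) (v : R4) (hv : 0 ≤ v 0) :
    T v x = x := by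
  have k1 : ∀ j, j ≠ 0 → ∀ a, T (ev j a) x = x := fun j hj =>
    all_of_small ε0 (fun y hy => by
      have := congrArg (T (ev j (y / 2))) (h1 j hj (y / 2) (by
        rw [abs_div, abs_two]
        linarith [abs_nonneg y]))
      rwa [← mul_apply_eq_comp, ← mul_apply_eq_comp, ← ev_add h hj,
        ← ev_add h hj, add_halves, add_neg_cancel, ev_nil h j] at this)
      fun y z hy hz => by rw [ev_add h hj, mul_apply_eq_comp, hz, hy]
  have k0 : T (ev 0 (v 0)) x = x := by simpa [hx] using congrArg (· x) (hP.fix _ hv)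
  have e : v = ev 0 (v 0) + (ev 1 (v 1) + (ev 2 (v 2) + ev 3 (v 3))) := by
    ext i
    fin_cases i <;> simp
  rw [e, h.add _ _ (by simpa using hv) (by simp), h.add _ _ (by simp) (by simp),
    h.add _ _ (by simp) (by simp)]
  simp only [mul_apply_eq_comp, k1 1 (by simp), k1 2 (by simp), k1 3 (by simp), k0]

theorem exists_joint {K : Submodule ℂ H} [FiniteDimensional ℂ K] (hK : K ≠ ⊥) {X : Type}
    (a : X → H →L[ℂ] H) (h1 : ∀ x, ∀ u ∈ K, a x u ∈ K)
    (h2 : ∀ x y, ∀ u ∈ K, a x (a y u) = a y (a x u)) :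
    ∃ χ ∈ K, ‖χ‖ = 1 ∧ ∀ x, ∃ c : ℂ, a x χ = c • χ := by
  classical
  have ex : ∃ n, ∃ L : Submodule ℂ H, L ≤ K ∧ L ≠ ⊥ ∧ (∀ x, ∀ u ∈ L, a x u ∈ L) ∧
    Module.finrank ℂ L = n := ⟨_, K, le_rfl, hK, h1, rfl⟩
  obtain ⟨L, l1, l2, l3, l4⟩ := Nat.find_spec ex
  have := Submodule.finiteDimensional_of_le l1
  have := Submodule.nontrivial_iff_ne_bot.2 l2
  have key : ∀ x, ∃ c : ℂ, ∀ u ∈ L, a x u = c • u := fun x => by
    obtain ⟨c, hc⟩ := Module.End.exists_eigenvalue ((a x : H →ₗ[ℂ] H).restrict (l3 x))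
    obtain ⟨w, hw⟩ := hc.exists_hasEigenvector
    have e : L ⊓ Module.End.eigenspace (a x : H →ₗ[ℂ] H) c = L :=
      Submodule.eq_of_le_of_finrank_le inf_le_left (l4.trans_le (Nat.find_min' ex
        ⟨_, inf_le_left.trans l1, (Submodule.ne_bot_iff _).2 ⟨w, ⟨w.2,
          Module.End.mem_eigenspace_iff.2 (congrArg Subtype.val hw.apply_eq_smul)⟩,
          fun e => hw.2 (Subtype.ext e)⟩, fun y u hu => ⟨l3 y u hu.1,
            Module.End.mem_eigenspace_iff.2 (by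
              have := Module.End.mem_eigenspace_iff.1 hu.2
              rw [ContinuousLinearMap.coe_coe] at this ⊢
              rw [h2 x y u (l1 hu.1), this, map_smul])⟩, rfl⟩))
    exact ⟨c, fun u hu => Module.End.mem_eigenspace_iff.1 (e.ge hu).2⟩
  obtain ⟨u, hu, u0⟩ := (Submodule.ne_bot_iff _).1 l2
  have hm := L.smul_mem ((‖u‖⁻¹ : ℝ) : ℂ) hu
  refine ⟨_, l1 hm, ?_, fun x => (key x).imp fun c hc => hc _ hm⟩
  rw [norm_smul, Complex.norm_real, norm_inv, norm_norm, inv_mul_cancel₀ (norm_ne_zero_iff.2 u0)]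

theorem Sg.gapped (h : Sg m C Ω T) (hP : Pj T P) {X : Type} (ψ : X → H) (o : X) (σ : R4 → X → X)
    (h1 : ∀ v, 0 ≤ v 0 → ∀ x, T v (ψ x) = ψ (σ v x)) (h2 : ‖ψ o‖ = 1)
    (h3 : ∀ v, 0 ≤ v 0 → T v (ψ o) = ψ o) (h4 : ∀ x, ∃ c : ℂ, P (ψ x) = c • ψ o)
    (h5 : ∀ M : ℝ, ¬∀ t ≥ 0, ∀ x, ‖T (ev 0 t) (ψ x) - ψ x‖ ≤ M * t * ‖ψ x‖) :
    ∃ (K : Type) (_ : NormedAddCommGroup K) (_ : InnerProductSpace ℂ K) (_ : CompleteSpace K)
      (ψ' : X → K) (T' : R4 → K →L[ℂ] K), Dense (Submodule.span ℂ (Set.range ψ') : Set K) ∧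
      (∀ x y, inner ℂ (ψ' x) (ψ' y) = inner ℂ (ψ x) (ψ y)) ∧
      (∀ v, 0 ≤ v 0 → ∀ x, T' v (ψ' x) = ψ' (σ v x)) ∧ Gapped K m (ψ' o) T' := by
  classical
  let K := (Submodule.span ℂ (Set.range ψ)).topologicalClosure
  have hm : ∀ x, ψ x ∈ K := fun x =>
    Submodule.le_topologicalClosure _ (Submodule.subset_span ⟨x, rfl⟩)
  have inv : ∀ v, 0 ≤ v 0 → ∀ u ∈ K, T v u ∈ K := fun v hv =>
    Submodule.topologicalClosure_minimal (t := K.comap (T v : H →ₗ[ℂ] H)) _
      (Submodule.span_le.2 (by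
        rintro _ ⟨x, rfl⟩
        exact (congrArg (· ∈ K) (h1 v hv x)).mpr (hm _)))
      ((Submodule.isClosed_topologicalClosure _).preimage (T v).continuous)
  obtain ⟨T', hT⟩ : ∃ T' : R4 → K →L[ℂ] K, ∀ v, 0 ≤ v 0 → ∀ u : K, (T' v u : H) = T v u :=
    ⟨fun v => if hv : 0 ≤ v 0 then ((T v).comp K.subtypeL).codRestrict K fun u => inv v hv u u.2
      else 0, fun v hv u => by simp [hv]⟩
  have e0 : ∀ {t : ℝ}, 0 ≤ t → 0 ≤ ev 0 t 0 := fun ht => by simpa using ht
  let ψ' : X → K := fun x => ⟨ψ x, hm x⟩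
  have dn : Dense (Submodule.span ℂ (Set.range ψ') : Set K) := by
    rw [Subtype.dense_iff]
    refine closure_mono (?_ : (Submodule.span ℂ (Set.range ψ) : Set H) ⊆
      (Submodule.span ℂ (Set.range ψ')).map K.subtype)
    rw [Submodule.map_span, ← Set.range_comp]
    rfl
  have z : T' 0 = 1 := by
    ext u
    simp [hT 0 le_rfl, h.zero]
  have ad : ∀ v w, 0 ≤ v 0 → 0 ≤ w 0 → T' (v + w) = T' v * T' w := fun v w hv hw => by
    ext u
    simp [hT (v + w) (add_nonneg hv hw), hT v hv, hT w hw, h.add v w hv hw]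
  have nr : ∀ v, 0 ≤ v 0 → ‖T' v‖ ≤ 1 := fun v hv =>
    ContinuousLinearMap.opNorm_le_bound _ zero_le_one fun u => by
      rw [← Submodule.norm_coe, hT v hv]
      exact (T v).le_of_opNorm_le (h.nrm v hv) _
  have ct : ∀ x, ContinuousOn (fun v => T' v x) {v | 0 ≤ v 0} := fun x =>
    IsInducing.subtypeVal.continuousOn_iff.2 ((h.cont x).congr fun v hv => hT v hv x)
  have fx : ∀ v, 0 ≤ v 0 → T' v (ψ' o) = ψ' o := fun v hv => Subtype.ext ((hT v hv _).trans (h3 v hv))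
  have lm : ∀ x y, Tendsto (fun t => inner ℂ x (T (ev 0 t) y)) atTop (𝓝 (inner ℂ x (P y))) :=
    fun x y => tendsto_const_nhds.inner
      (((ContinuousLinearMap.apply ℂ H y).continuous.tendsto P).comp hP.lim)
  have oo : inner ℂ (ψ o) (ψ o) = 1 := by simp [h2]
  obtain ⟨I, e, E, r1, r2, r3, r4, r5, r6⟩ := YM7.eigen_of (P := fun t => T' (ev 0 t)) (C := C)
    (ev_null 0 ▸ z) (fun r hr s hs => (congrArg T' (PiLp.single_add ..)).trans
      (ad _ _ (e0 hr) (e0 hs))) (fun t ht => nr _ (e0 ht))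
    (fun t ht => ⟨fun x y => by
      simpa [Submodule.coe_inner, hT _ (e0 ht)] using (h.pos t ht).1 x y, fun x => by
      simpa [ContinuousLinearMap.reApplyInnerSelf, Submodule.coe_inner, hT _ (e0 ht)] using
        (h.pos t ht).2 x⟩)
    (fun x => (ct x).comp (f := fun t : ℝ => ev 0 t)
      ((PiLp.continuous_toLp 2 fun _ : Fin 4 => ℝ).comp (continuous_single 0)).continuousOn
      fun t ht => e0 ht) h.m0 fun r e he => by
      simpa [Submodule.coe_inner, hT _ (e0 h.m0.le)] using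
        h.frame r _ (he.comp_linearIsometry K.subtypeₗᵢ)
  refine ⟨K, inferInstance, inferInstance, inferInstance, ψ', T', dn, fun x y => rfl,
    fun v hv x => Subtype.ext ((hT v hv _).trans (h1 v hv x)), h2, z,
    fun v hv => ⟨nr v hv, fx v hv, fun w => ad v w hv⟩, ct, fun v hv => ?_, fun y hy => ?_,
    I, e, E, r1, r2, r3, r6 X ψ' (ψ' o) dn h2 (fun t ht => fx _ (e0 ht)) fun x => ?_, r4,
    r5 fun M hM => h5 M fun t ht x => ?_⟩
  · have n0 : (-v) 0 = 0 := by simpa using hv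
    have s1 : star (T v) = T (-v) := by
      rw [← mul_one (star _), ← h.zero, ← add_neg_cancel v, h.add _ _ hv.ge n0.ge, ← mul_assoc,
        (h.uni v hv).1, one_mul]
    have s2 : T' (-v) = star (T' v) := (ContinuousLinearMap.eq_adjoint_iff _ _).2 fun x y => by
      rw [Submodule.coe_inner, Submodule.coe_inner, hT _ hv.ge, hT _ n0.ge, ← s1]
      exact ContinuousLinearMap.adjoint_inner_left ..
    constructor
    · rw [← s2, ← ad _ _ n0.ge hv.ge, neg_add_cancel, z]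
    · rw [← s2, ← ad _ _ hv.ge n0.ge, add_neg_cancel, z]
  · ext u
    simp [hT _ (show 0 ≤ pt m y 0 by simp [pt, hy]), h.per y hy]
  · obtain ⟨c, hc⟩ := h4 x
    have p1 : ∀ y, inner ℂ (ψ o) (P y) = inner ℂ (ψ o) y := fun y =>
      tendsto_nhds_unique (lm _ y) (tendsto_const_nhds.congr' ((eventually_ge_atTop 0).mono
        fun t ht => by
          beta_reduce
          rw [← h3 _ (e0 ht)]
          exact ((h.pos t ht).1 _ _).trans (by rw [h3 _ (e0 ht)]; rfl)))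
    have p2 := p1 (ψ x)
    rw [hc, inner_smul_right, oo, mul_one] at p2
    have p3 := lm (ψ x) (ψ x)
    rw [hc, inner_smul_right, p2, ← inner_conj_symm (ψ x), Complex.mul_conj'] at p3
    push_cast
    exact p3.congr' ((eventually_ge_atTop 0).mono fun t ht => by
      simp [Submodule.coe_inner, hT _ (e0 ht), ψ'])
  · have := hM t ht (ψ' x)
    rwa [← Submodule.norm_coe, Submodule.coe_sub, hT _ (e0 ht)] at this

end Pool.Agent.Lib.MP_7f377f_mp.YM9
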