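import Pool.Agent.Lib.MP_7f377f_mp.OSC

/-! Abstract reconstruction from a kernel on labels, discrete spectrum from a frame bound. -/

noncomputable section

namespace Pool.Agent.Lib.MP_7f377f_mp.YM7

open Filter Topology Set Real ComplexConjugate

/-- a reflection positive kernel with an action of the translations -/
structure Ker {X : Type} (σ : R4 → X → X) (B : X → X → ℝ) (o : X) : Prop where
  symm : ∀ x y, B x y = B y x
  zero : ∀ x, σ 0 x = x
  add : ∀ v w x, 0 ≤ v 0 → 0 ≤ w 0 → σ (v + w) x = σ v (σ w x)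
  shift : ∀ v w x y, 0 ≤ v 0 → 0 ≤ w 0 → B (σ v x) (σ w y) = B x (σ (w - th v) y)
  pos : ∀ s c, ∀ t ≥ 0, 0 ≤ qf (fun x y => B x (σ (EuclideanSpace.single 0 t) y)) s c ∧
    qf (fun x y => B x (σ (EuclideanSpace.single 0 t) y)) s c ≤ qf B s c
  cont : ∀ x y w, 0 ≤ w 0 → ContinuousWithinAt (fun v => B x (σ v y)) {v | 0 ≤ v 0} w
  one : B o o = 1
  vac : ∀ v, σ v o = o

theorem Ker.reconstruct {X : Type} {σ : R4 → X → X} {B : X → X → ℝ} {o : X} (h : Ker σ B o) :
    ∃ (H : Type) (_ : NormedAddCommGroup H) (_ : InnerProductSpace ℂ H) (_ : CompleteSpace H)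
      (ψ : X → H) (T : R4 → H →L[ℂ] H), Dense (Submodule.span ℂ (range ψ) : Set H) ∧
      (∀ x y, inner ℂ (ψ x) (ψ y) = B x y) ∧ ‖ψ o‖ = 1 ∧ T 0 = 1 ∧
      (∀ v, 0 ≤ v 0 → ‖T v‖ ≤ 1 ∧ T v (ψ o) = ψ o ∧ (∀ w, 0 ≤ w 0 → T (v + w) = T v * T w) ∧
        ∀ x, T v (ψ x) = ψ (σ v x)) ∧
      (∀ x, ContinuousOn (fun v => T v x) {v | 0 ≤ v 0}) ∧
      (∀ v, v 0 = 0 → T v ∈ unitary (H →L[ℂ] H)) ∧
      ∀ t ≥ 0, (T (EuclideanSpace.single 0 t)).IsPositive := by
  classical
  obtain ⟨H, _, _, _, ψ, h1, h2⟩ := gns B h.symm fun s c =>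
    (h.pos s c 0 le_rfl).1.trans (h.pos s c 0 le_rfl).2
  have h4 : ∀ v : R4, ∃ T : H →L[ℂ] H, 0 ≤ v 0 → ‖T‖ ≤ 1 ∧ ∀ x, T (ψ x) = ψ (σ v x) :=
    fun v => by
      by_cases hv : 0 ≤ v 0
      · refine (exists_op h2 h1 (fun x y => ?_) fun s c =>
          (h.pos s c _ (mul_nonneg zero_le_two hv)).2).imp fun _ e _ => e
        rw [h1, h.shift _ _ _ _ hv hv, sub_th]
      · exact ⟨0, fun e => absurd e hv⟩
  choose T hT using h4
  have h5 : ∀ {v : R4}, 0 ≤ v 0 → ∀ x, T v (ψ x) = ψ (σ v x) := fun hv => (hT _ hv).2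
  have ext : ∀ {A B : H →L[ℂ] H}, (∀ x, A (ψ x) = B (ψ x)) → A = B := fun e =>
    ContinuousLinearMap.ext_on h2 (by rintro _ ⟨x, rfl⟩; exact e x)
  have T0 : T 0 = 1 := ext fun x => by rw [h5 le_rfl, h.zero, one_apply_eq_self]
  have mul : ∀ {v w : R4}, 0 ≤ v 0 → 0 ≤ w 0 → T (v + w) = T v * T w := fun hv hw =>
    ext fun x => by
      rw [mul_apply_eq_comp, h5 hw, h5 hv, h5 (add_nonneg hv hw), h.add _ _ _ hv hw]
  have neg : ∀ {v : R4}, 0 ≤ v 0 → 0 ≤ (-th v) 0 := fun hv => by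
    rwa [PiLp.neg_apply, th_zero, neg_neg]
  have adj : ∀ {v : R4}, 0 ≤ v 0 → star (T v) = T (-th v) := fun {v} hv =>
    adj_ext h2 fun x y => by
      have e := h.shift v 0 x y hv le_rfl
      rw [h.zero, zero_sub] at e
      rw [h5 hv, h5 (neg hv), h1, h1, e]
  refine ⟨H, inferInstance, inferInstance, inferInstance, ψ, T, h2, h1, ?_, T0,
    fun v hv => ⟨(hT v hv).1, ?_, fun w hw => mul hv hw, h5 hv⟩,
    cont_ext h2 (fun v hv => (hT v hv).1) fun x w hw => ?_, fun v hv => ?_, fun t ht => ?_⟩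
  · rw [← sq_eq_sq₀ (norm_nonneg _) zero_le_one, ← inner_self_eq_norm_sq (𝕜 := ℂ), h1, h.one,
      one_pow]
    rfl
  · rw [h5 hv, h.vac]
  · have sub : ∀ {v w : R4}, 0 ≤ v 0 → 0 ≤ w 0 → 0 ≤ (v - th w) 0 := fun hv hw => by
      rw [sub_eq_add_neg]; exact add_nonneg hv (neg hw)
    have c1 := h.cont x x (w - th w) (sub hw hw)
    have c2 : Continuous th := thL_eq ▸ thL.continuous
    have d1 : Tendsto (fun v : R4 => v - th v) (𝓝[{v | 0 ≤ v 0}] w) (𝓝[{v | 0 ≤ v 0}] (w - th w)) :=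
      (continuous_id.sub c2).continuousWithinAt.tendsto_nhdsWithin fun v hv => sub hv hv
    have d2 : Tendsto (fun v : R4 => w - th v) (𝓝[{v | 0 ≤ v 0}] w) (𝓝[{v | 0 ≤ v 0}] (w - th w)) :=
      (continuous_const.sub c2).continuousWithinAt.tendsto_nhdsWithin fun v hv => sub hw hv
    have c3 := ((c1.tendsto.comp d1).sub ((c1.tendsto.comp d2).const_mul 2)).add_const
      (B x (σ (w - th w) x))
    rw [show ∀ a : ℝ, a - 2 * a + a = 0 from fun a => by ring] at c3
    refine tendsto_iff_norm_sub_tendsto_zero.2 ?_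
    have c4 := c3.sqrt
    rw [sqrt_zero] at c4
    refine c4.congr' (eventually_mem_nhdsWithin.mono fun v hv => ?_)
    refine (congrArg _ ?_).trans (sqrt_sq (norm_nonneg _))
    beta_reduce
    rw [norm_sub_sq (𝕜 := ℂ), ← inner_self_eq_norm_sq (𝕜 := ℂ), ← inner_self_eq_norm_sq (𝕜 := ℂ),
      h5 hv, h5 hw, h1, h1, h1, h.shift _ _ _ _ hv hv, h.shift _ _ _ _ hv hw,
      h.shift _ _ _ _ hw hw]
    rfl
  · have e : -th v = -v := by
      rw [neg_inj, eq_comm, ← sub_eq_zero, sub_th, hv, mul_zero]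
      simp
    have hv' : 0 ≤ (-v) 0 := e ▸ neg hv.ge
    rw [Unitary.mem_iff, adj hv.ge, e, ← mul hv' hv.ge, ← mul hv.ge hv', neg_add_cancel,
      add_neg_cancel, T0]
    exact ⟨rfl, rfl⟩
  · have e : (EuclideanSpace.single 0 (t / 2) : R4) 0 = t / 2 := by simp
    have hv : 0 ≤ (EuclideanSpace.single 0 (t / 2) : R4) 0 := by rw [e]; linarith
    have := ContinuousLinearMap.isPositive_adjoint_comp_self (T (EuclideanSpace.single 0 (t / 2)))
    rwa [← ContinuousLinearMap.star_eq_adjoint, adj hv, ← ContinuousLinearMap.mul_def,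
      ← mul (neg hv) hv, neg_add_eq_sub, sub_th, e, mul_div_cancel₀ t two_ne_zero] at this

variable {H : Type} [NormedAddCommGroup H] [InnerProductSpace ℂ H] [CompleteSpace H]

omit [CompleteSpace H] in
theorem re_inner_sum {X : Type} {ψ φ : X → H} {K : X → X → ℝ}
    (h : ∀ x y, inner ℂ (ψ x) (φ y) = K x y) (s : Finset X) (z : X → ℂ) :
    (inner ℂ (∑ x ∈ s, z x • ψ x) (∑ x ∈ s, z x • φ x)).re =
      qf K s (fun x => (z x).re) + qf K s fun x => (z x).im := by
  rw [← re_qf, sum_inner]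
  simp only [inner_sum, inner_smul_left, inner_smul_right, h]
  refine congrArg Complex.re ?_
  refine Finset.sum_congr rfl fun x _ => Finset.sum_congr rfl fun y _ => ?_
  ring

omit [CompleteSpace H] in
theorem qf_zero {X : Type} (K : X → X → ℝ) (s : Finset X) : qf K s (fun _ => 0) = 0 := by
  simp [qf]

set_option linter.unusedSectionVars false in
set_option linter.unusedVariables false in
theorem frame_on {X : Type} {ψ : X → H} {B B' : X → X → ℝ} {A : H →L[ℂ] H} {C : ℝ}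
    (hd : Dense (Submodule.span ℂ (range ψ) : Set H)) (h : ∀ x y, inner ℂ (ψ x) (ψ y) = B x y)
    (h' : ∀ x y, inner ℂ (ψ x) (A (ψ y)) = B' x y) (hs : ∀ x y, B x y = B y x)
    (hf : ∀ (s : Finset X) (r : ℕ) (c : Fin r → X → ℝ) (Λ : ℝ), 0 ≤ Λ →
      (∀ u : Fin r → ℝ, qf B s (fun x => ∑ i, u i * c i x) ≤ Λ * ∑ i, u i ^ 2) →
      ∑ i, qf B' s (c i) ≤ Λ * C)
    (r : ℕ) (e : Fin r → H) (he : Orthonormal ℂ e) :
    ∑ i, (inner ℂ (e i) (A (e i))).re ≤ 8 * C := by
  classical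
  by_contra hlt
  have hU : IsOpen {w : Fin r → H | 8 * C < ∑ i, (inner ℂ (w i) (A (w i))).re ∧
      ∑ i, ‖w i - e i‖ ^ 2 < 1} :=
    IsOpen.and (isOpen_lt continuous_const (by fun_prop))
      (isOpen_lt (by fun_prop) continuous_const)
  obtain ⟨w, ⟨w1, w2⟩, w3⟩ := (dense_pi univ fun (_ : Fin r) _ => hd).inter_open_nonempty _ hU
    ⟨e, not_le.1 hlt, by simp⟩
  choose z hz using fun i => Finsupp.mem_span_range_iff_exists_finsupp.1 (w3 i (mem_univ i))
  set s := Finset.univ.biUnion fun i => (z i).support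
  have hw : ∀ i, w i = ∑ x ∈ s, z i x • ψ x := fun i => by
    rw [← hz i, Finsupp.sum_of_support_subset (z i) (s := s)
      (Finset.subset_biUnion_of_mem (fun i => (z i).support) (Finset.mem_univ i))
      (fun x a => a • ψ x) (fun _ _ => zero_smul _ _)]
  have hp : ∀ c : X → ℝ, 0 ≤ qf B s c := fun c => by
    have := re_inner_sum h s (fun x => (c x : ℂ))
    simp only [Complex.ofReal_re, Complex.ofReal_im, qf_zero, add_zero] at this
    rw [← this]
    exact inner_self_nonneg (𝕜 := ℂ)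
  have key : ∀ u : Fin r → ℝ, qf B s (fun x => ∑ i, u i * (z i x).re)
      + qf B s (fun x => ∑ i, u i * (z i x).im) ≤ 4 * ∑ i, u i ^ 2 := fun u => by
    have e1 := re_inner_sum h s (fun x => ∑ i, (u i : ℂ) * z i x)
    simp only [Complex.re_sum, Complex.im_sum, Complex.re_ofReal_mul, Complex.im_ofReal_mul] at e1
    have e2 : ∑ x ∈ s, (∑ i, (u i : ℂ) * z i x) • ψ x = ∑ i, (u i : ℂ) • w i := by
      simp only [hw, Finset.sum_smul, Finset.smul_sum, mul_smul]
      exact Finset.sum_comm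
    have e3 : ‖∑ i, (u i : ℂ) • e i‖ ^ 2 = ∑ i, u i ^ 2 := by
      rw [← inner_self_eq_norm_sq (𝕜 := ℂ), he.inner_sum]
      simp [sq]
    have e4 : ‖∑ i, (u i : ℂ) • (w i - e i)‖ ^ 2 ≤ ∑ i, u i ^ 2 := by
      have a1 : ‖∑ i, (u i : ℂ) • (w i - e i)‖ ≤ ∑ i, |u i| * ‖w i - e i‖ :=
        (norm_sum_le _ _).trans (le_of_eq (by simp [norm_smul]))
      have a2 := Finset.sum_mul_sq_le_sq_mul_sq Finset.univ (fun i => |u i|) (fun i => ‖w i - e i‖)
      simp only [sq_abs] at a2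
      exact ((pow_le_pow_left₀ (norm_nonneg _) a1 2).trans a2).trans
        (mul_le_of_le_one_right (Finset.sum_nonneg fun _ _ => sq_nonneg _) w2.le)
    have e5 : ∑ i, (u i : ℂ) • w i = ∑ i, (u i : ℂ) • e i + ∑ i, (u i : ℂ) • (w i - e i) := by
      rw [← Finset.sum_add_distrib]
      exact Finset.sum_congr rfl fun i _ => by rw [← smul_add, add_sub_cancel]
    have e6 := pow_le_pow_left₀ (norm_nonneg _)
      (norm_add_le (∑ i, (u i : ℂ) • e i) (∑ i, (u i : ℂ) • (w i - e i))) 2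
    have e7 := inner_self_eq_norm_sq (𝕜 := ℂ) (∑ i, (u i : ℂ) • w i)
    rw [← e1, e2]
    rw [← e5] at e6
    simp only [RCLike.re_to_complex] at e7
    nlinarith [sq_nonneg (‖∑ i, (u i : ℂ) • e i‖ - ‖∑ i, (u i : ℂ) • (w i - e i)‖)]
  have f1 := hf s r (fun i x => (z i x).re) 4 (by norm_num) fun u => by
    linarith [key u, hp fun x => ∑ i, u i * (z i x).im]
  have f2 := hf s r (fun i x => (z i x).im) 4 (by norm_num) fun u => by
    linarith [key u, hp fun x => ∑ i, u i * (z i x).re]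
  have f3 : ∀ i, (inner ℂ (w i) (A (w i))).re
      = qf B' s (fun x => (z i x).re) + qf B' s fun x => (z i x).im := fun i => by
    rw [← re_inner_sum h' s (z i), hw i, map_sum]
    simp only [map_smul]
  simp only [f3, Finset.sum_add_distrib] at w1
  linarith

theorem compact_of_hsC (T : H →L[ℂ] H) (C : ℝ)
    (hC : ∀ (ι : Type) (v : ι → H), Orthonormal ℂ v → ∀ F : Finset ι, ∑ i ∈ F, ‖T (v i)‖ ^ 2 ≤ C) :
    IsCompactOperator T := by
  classical
  obtain ⟨w, b, -⟩ := exists_hilbertBasis ℂ H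
  have hs : Summable fun i => ‖T (b i)‖ ^ 2 :=
    summable_of_sum_le (fun i => sq_nonneg _) (hC w b b.orthonormal)
  let TF : Finset w → H →L[ℂ] H := fun F => ∑ i ∈ F, (innerSL ℂ (b i)).smulRight (T (b i))
  have hTF : ∀ F, IsCompactOperator (TF F) := by
    intro F
    induction F using Finset.induction_on with
    | empty => simpa [TF] using isCompactOperator_zero
    | insert a s ha ih =>
      have h1 : IsCompactOperator ((innerSL ℂ (b a)).smulRight (T (b a))) :=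
        (isCompactOperator_of_locallyCompactSpace_dom (innerSL ℂ (b a))).clm_comp
          (ContinuousLinearMap.toSpanSingleton ℂ (T (b a)))
      have := h1.add ih
      simpa [TF, Finset.sum_insert ha] using this
  refine isCompactOperator_of_tendsto (l := atTop) (F := TF) ?_ (Eventually.of_forall hTF)
  rw [Metric.tendsto_atTop]
  intro ε hε
  obtain ⟨F0, hF0⟩ := summable_iff_vanishing_norm.1 hs ((ε / 2) ^ 2) (by positivity)
  refine ⟨F0, fun F hF => ?_⟩
  rw [dist_comm, dist_eq_norm]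
  refine lt_of_le_of_lt (ContinuousLinearMap.opNorm_le_bound _ (by positivity : 0 ≤ ε / 2)
    fun f => ?_) (by linarith)
  have h1 : HasSum (fun i => inner ℂ (b i) f • T (b i)) (T f) := by
    have := (b.hasSum_repr f).mapL T
    simpa [b.repr_apply_apply] using this
  have h2 : Tendsto (fun G : Finset w => ‖∑ i ∈ G, inner ℂ (b i) f • T (b i) - TF F f‖) atTop
      (𝓝 ‖(T - TF F) f‖) := (Tendsto.sub_const h1 _).norm
  refine le_of_tendsto h2 ?_
  filter_upwards [eventually_ge_atTop F] with G hG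
  have h3 : ∑ i ∈ G, inner ℂ (b i) f • T (b i) - TF F f
      = ∑ i ∈ G \ F, inner ℂ (b i) f • T (b i) := by
    rw [← Finset.sum_sdiff hG]
    simp [TF]
  rw [h3]
  have h4 : ∑ i ∈ G \ F, ‖T (b i)‖ ^ 2 ≤ (ε / 2) ^ 2 := by
    have := hF0 (G \ F) (Finset.disjoint_of_subset_right hF Finset.sdiff_disjoint)
    exact (le_abs_self _).trans this.le
  have h5 : ∑ i ∈ G \ F, ‖inner ℂ (b i) f‖ ^ 2 ≤ ‖f‖ ^ 2 := b.orthonormal.sum_inner_products_le f
  have h6 : ‖∑ i ∈ G \ F, inner ℂ (b i) f • T (b i)‖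
      ≤ ∑ i ∈ G \ F, ‖inner ℂ (b i) f‖ * ‖T (b i)‖ := by
    refine (norm_sum_le _ _).trans (le_of_eq ?_)
    simp [norm_smul]
  have h7 := Finset.sum_mul_sq_le_sq_mul_sq (G \ F) (fun i => ‖inner ℂ (b i) f‖)
    (fun i => ‖T (b i)‖)
  refine h6.trans (abs_le_of_sq_le_sq' ?_ (by positivity)).2
  calc _ ≤ _ := h7
    _ ≤ ‖f‖ ^ 2 * (ε / 2) ^ 2 := by gcongr
    _ = _ := by ring

theorem exists_eigenbasisC (T : H →L[ℂ] H) (hT : IsCompactOperator T)
    (hs : (T : H →ₗ[ℂ] H).IsSymmetric) :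
    ∃ (ι : Type) (b : HilbertBasis ι ℂ H) (μ : ι → ℂ), ∀ i, T (b i) = μ i • b i := by
  have hcl : ∀ μ : ℂ, CompleteSpace (Module.End.eigenspace (T : H →ₗ[ℂ] H) μ) := by
    intro μ
    have : IsClosed (Module.End.eigenspace (T : H →ₗ[ℂ] H) μ : Set H) := by
      have : (Module.End.eigenspace (T : H →ₗ[ℂ] H) μ : Set H) = {x | T x = μ • x} := by
        ext x; simp
      rw [this]
      exact isClosed_eq T.continuous (by fun_prop)
    exact this.completeSpace_coe
  choose w b _hb using fun μ : ℂ =>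
    exists_hilbertBasis ℂ (Module.End.eigenspace (T : H →ₗ[ℂ] H) μ)
  let v : (Σ μ : ℂ, w μ) → H := fun a => (b a.1 a.2 : H)
  have hv : Orthonormal ℂ v :=
    hs.orthogonalFamily_eigenspaces.orthonormal_sigma_orthonormal fun μ => (b μ).orthonormal
  have hsp : (Submodule.span ℂ (Set.range v))ᗮ = ⊥ := by
    rw [eq_bot_iff, ← ContinuousLinearMap.orthogonalComplement_iSup_eigenspaces_eq_bot hT hs,
      ← Submodule.iInf_orthogonal]
    intro x hx
    rw [Submodule.mem_iInf]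
    intro μ
    rw [Submodule.mem_orthogonal']
    intro y hy
    have h1 := ((b μ).hasSum_repr ⟨y, hy⟩).mapL ((innerSL ℂ x).comp (Submodule.subtypeL _))
    have h2 : ∀ i : w μ, inner ℂ x (b μ i : H) = 0 := fun i =>
      (Submodule.mem_orthogonal' _ _).1 hx _ (Submodule.subset_span ⟨⟨μ, i⟩, rfl⟩)
    simp only [ContinuousLinearMap.comp_apply, map_smul, Submodule.subtypeL_apply,
      innerSL_apply_apply, h2, smul_zero] at h1
    exact h1.unique hasSum_zero
  refine ⟨_, HilbertBasis.mkOfOrthogonalEqBot hv hsp, fun a => a.1, fun a => ?_⟩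
  rw [HilbertBasis.coe_mkOfOrthogonalEqBot]
  exact Module.End.mem_eigenspace_iff.1 (b a.1 a.2).2

omit [CompleteSpace H] in
theorem sqrt_eig {S : H →L[ℂ] H} (hS : S.IsPositive) {b : H} {l : ℝ} (hl : 0 ≤ l)
    (h : S (S b) = ((l * l : ℝ) : ℂ) • b) : S b = (l : ℂ) • b := by
  rcases hl.eq_or_lt with h0 | h0
  · subst h0
    have e : inner ℂ (S b) (S b) = inner ℂ b (S (S b)) := hS.1 b (S b)
    rw [h, inner_smul_right] at e
    simpa using e
  · have e1 : S (S b - (l : ℂ) • b) = (-l : ℝ) • (S b - (l : ℂ) • b) := by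
      rw [map_sub, map_smul, h, ← Complex.coe_smul]
      push_cast
      module
    have e2 := hS.2 (S b - (l : ℂ) • b)
    rw [ContinuousLinearMap.reApplyInnerSelf, e1, ← Complex.coe_smul, inner_smul_left] at e2
    have e3 := inner_self_eq_norm_sq_to_K (𝕜 := ℂ) (S b - (l : ℂ) • b)
    rw [e3] at e2
    have e4 : 0 ≤ -l * ‖S b - (l : ℂ) • b‖ ^ 2 := by
      simpa [← Complex.ofReal_pow] using e2
    have e5 : ‖S b - (l : ℂ) • b‖ ^ 2 = 0 := le_antisymm (by nlinarith) (sq_nonneg _)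
    rwa [pow_eq_zero_iff two_ne_zero, norm_eq_zero, sub_eq_zero] at e5

omit [CompleteSpace H] in
theorem all_times {P : ℝ → H →L[ℂ] H} (h0 : P 0 = 1)
    (h1 : ∀ s ≥ 0, ∀ t ≥ 0, P (s + t) = P s * P t) (h2 : ∀ t ≥ 0, ‖P t‖ ≤ 1)
    (h3 : ∀ t ≥ 0, (P t).IsPositive) (h4 : ∀ x, ContinuousOn (fun t => P t x) (Ici 0))
    {τ : ℝ} (hτ : 0 < τ) {b : H} (hb : ‖b‖ = 1) {μ : ℂ} (h : P τ b = μ • b) :
    ∃ E : ℝ, 0 ≤ E ∧ ∀ t ≥ 0, P t b = (exp (-t * E) : ℂ) • b := by
  have half : ∀ t ≥ 0, ∀ l : ℝ, 0 ≤ l → P t b = ((l * l : ℝ) : ℂ) • b → P (t / 2) b = (l : ℂ) • b :=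
    fun t ht l hl e => sqrt_eig (h3 _ (by linarith)) hl (by
      rw [← e, ← mul_apply_eq_comp, ← h1 _ (by linarith) _ (by linarith), add_halves])
  have lim : ∀ {u : ℕ → ℝ} {t : ℝ}, (∀ k, 0 ≤ u k) → 0 ≤ t → Tendsto u atTop (𝓝 t) →
      Tendsto (fun k => P (u k) b) atTop (𝓝 (P t b)) := fun hu ht e =>
    (h4 b _ ht).tendsto.comp (tendsto_nhdsWithin_iff.2 ⟨e, Eventually.of_forall hu⟩)
  have bb : inner ℂ b b = 1 := by rw [inner_self_eq_norm_sq_to_K, hb]; simp
  have m1 : inner ℂ b (P τ b) = μ := by rw [h, inner_smul_right, bb, mul_one]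
  have m2 : μ = (μ.re : ℂ) := by
    have e : inner ℂ (P τ b) b = inner ℂ b (P τ b) := (h3 τ hτ.le).1 b b
    rw [← inner_conj_symm, m1] at e
    exact (Complex.conj_eq_iff_re.1 e).symm
  have m3 : 0 ≤ μ.re := by
    have := (h3 τ hτ.le).re_inner_nonneg_right b
    rwa [m1] at this
  have m4 : μ.re ≤ 1 := by
    have e := ((P τ).le_opNorm b).trans (mul_le_mul_of_nonneg_right (h2 τ hτ.le) (norm_nonneg _))
    rw [h, norm_smul, hb, mul_one, mul_one] at e
    exact (Complex.re_le_norm μ).trans e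
  have dy : Tendsto (fun k : ℕ => τ / 2 ^ k) atTop (𝓝 0) :=
    tendsto_const_nhds.div_atTop (tendsto_pow_atTop_atTop_of_one_lt one_lt_two)
  have m5 : 0 < μ.re := by
    refine m3.lt_of_ne fun e => ?_
    have z : ∀ k : ℕ, P (τ / 2 ^ k) b = 0 := fun k => by
      induction k with
      | zero => rw [pow_zero, div_one, h, m2, ← e]; simp
      | succ k ih =>
        have := half (τ / 2 ^ k) (by positivity) 0 le_rfl (by rw [ih]; simp)
        rw [div_div, ← pow_succ] at this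
        simpa using this
    have := lim (fun k => by positivity) le_rfl dy
    simp only [z, h0, one_apply_eq_self] at this
    rw [← tendsto_nhds_unique tendsto_const_nhds this] at hb
    simp at hb
  refine ⟨-log μ.re / τ, div_nonneg (neg_nonneg.2 (log_nonpos m3 m4)) hτ.le, ?_⟩
  set E := -log μ.re / τ with hE
  have z1 : ∀ k : ℕ, P (τ / 2 ^ k) b = (exp (-(τ / 2 ^ k) * E) : ℂ) • b := fun k => by
    induction k with
    | zero =>
      rw [pow_zero, div_one, h, show -τ * E = log μ.re by rw [hE]; field_simp, exp_log m5, ← m2]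
    | succ k ih =>
      have := half (τ / 2 ^ k) (by positivity) (exp (-(τ / 2 ^ k / 2) * E)) (exp_pos _).le (by
        rw [ih, ← exp_add]; congr 3; ring)
      rwa [div_div, ← pow_succ] at this
  have z2 : ∀ (m : ℕ) (s : ℝ), 0 ≤ s → P s b = (exp (-s * E) : ℂ) • b →
      P (m * s) b = (exp (-(m * s) * E) : ℂ) • b := fun m s hs e => by
    induction m with
    | zero => simp [h0]
    | succ m ih =>
      push_cast
      rw [add_mul, one_mul, h1 _ (by positivity) _ hs, mul_apply_eq_comp, e, map_smul, ih,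
        smul_smul, ← Complex.ofReal_mul, ← exp_add]
      push_cast
      congr 2; ring
  intro t ht
  have u1 : Tendsto (fun k : ℕ => (⌊t / (τ / 2 ^ k)⌋₊ : ℝ) * (τ / 2 ^ k)) atTop (𝓝 t) := by
    refine tendsto_of_tendsto_of_tendsto_of_le_of_le (g := fun k : ℕ => t - τ / 2 ^ k)
      (h := fun _ => t) (by simpa using tendsto_const_nhds.sub dy) tendsto_const_nhds
      (fun k => ?_) fun k => ?_
    · have p : 0 < τ / 2 ^ k := by positivity
      have := (div_lt_iff₀ p).1 (Nat.lt_floor_add_one (t / (τ / 2 ^ k)))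
      beta_reduce
      linarith
    · have p : 0 < τ / 2 ^ k := by positivity
      exact (le_div_iff₀ p).1 (Nat.floor_le (div_nonneg ht p.le))
  have u2 := lim (fun k => by positivity) ht u1
  have u3 : Continuous fun s : ℝ => ((exp (-s * E) : ℝ) : ℂ) • b := by fun_prop
  exact tendsto_nhds_unique u2 (((u3.tendsto t).comp u1).congr fun k =>
    (z2 _ _ (by positivity) (z1 k)).symm)

theorem eigen_of {P : ℝ → H →L[ℂ] H} (h0 : P 0 = 1)
    (h1 : ∀ s ≥ 0, ∀ t ≥ 0, P (s + t) = P s * P t) (h2 : ∀ t ≥ 0, ‖P t‖ ≤ 1)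
    (h3 : ∀ t ≥ 0, (P t).IsPositive) (h4 : ∀ x, ContinuousOn (fun t => P t x) (Ici 0))
    {t₀ C : ℝ} (ht : 0 < t₀) (hC : ∀ (r : ℕ) (e : Fin r → H), Orthonormal ℂ e →
      ∑ i, (inner ℂ (e i) (P t₀ (e i))).re ≤ C) :
    ∃ (I : Type) (e : HilbertBasis I ℂ H) (E : I → ℝ), (∀ i, 0 ≤ E i) ∧
      (∀ t ≥ 0, ∀ i, P t (e i) = (exp (-t * E i) : ℂ) • e i) ∧
      (Summable fun i => exp (-t₀ * E i)) ∧ (∃ Δ > 0, ∀ i, E i = 0 ∨ Δ ≤ E i) ∧
      ((∀ M : ℝ, ¬∀ t ≥ 0, ∀ x, ‖P t x - x‖ ≤ M * t * ‖x‖) → ¬BddAbove (range E)) ∧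
      ∀ (X : Type) (ψ : X → H) (Ω : H), Dense (Submodule.span ℂ (range ψ) : Set H) → ‖Ω‖ = 1 →
        (∀ t ≥ 0, P t Ω = Ω) → (∀ x, Tendsto (fun t => inner ℂ (ψ x) (P t (ψ x))) atTop
          (𝓝 ((‖inner ℂ Ω (ψ x)‖ ^ 2 : ℝ) : ℂ))) → ∃! i, E i = 0 := by
  classical
  have sym : ∀ t ≥ 0, ∀ x y, inner ℂ (P t x) y = inner ℂ x (P t y) := fun t ht => (h3 t ht).1
  have nsq : ∀ t ≥ 0, ∀ x, ‖P t x‖ ^ 2 = (inner ℂ x (P (t + t) x)).re := fun t ht x => by
    rw [h1 t ht t ht, mul_apply_eq_comp, ← sym t ht, ← inner_self_eq_norm_sq (𝕜 := ℂ)]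
    rfl
  have hC' : ∀ (ι : Type) (v : ι → H), Orthonormal ℂ v → ∀ F : Finset ι,
      ∑ i ∈ F, (inner ℂ (v i) (P t₀ (v i))).re ≤ C := fun ι v hv F => by
    have := hC F.card (fun a => v (F.equivFin.symm a))
      (hv.comp _ (Subtype.val_injective.comp F.equivFin.symm.injective))
    rwa [F.equivFin.symm.sum_comp (fun a : F => (inner ℂ (v a) (P t₀ (v a))).re),
      F.sum_coe_sort (fun a => (inner ℂ (v a) (P t₀ (v a))).re)] at this
  have ht2 : 0 < t₀ / 2 := half_pos ht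
  obtain ⟨I, e, μ, hμ⟩ := exists_eigenbasisC (P (t₀ / 2))
    (compact_of_hsC _ C fun ι v hv F => by
      simp only [nsq _ ht2.le, add_halves]
      exact hC' ι v hv F) (h3 _ ht2.le).1
  choose E E0 hE using fun i => all_times h0 h1 h2 h3 h4 ht2 (e.orthonormal.1 i) (hμ i)
  have ee : ∀ i, inner ℂ (e i) (e i) = 1 := fun i => by
    rw [inner_self_eq_norm_sq_to_K, e.orthonormal.1 i]; simp
  have co : ∀ t ≥ 0, ∀ i x, inner ℂ (e i) (P t x) = (exp (-t * E i) : ℂ) * inner ℂ (e i) x :=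
    fun t ht i x => by rw [← sym t ht, hE i t ht, inner_smul_left, Complex.conj_ofReal]
  have hs : Summable fun i => exp (-t₀ * E i) :=
    summable_of_sum_le (c := C) (fun i => (exp_pos _).le) fun F => by
      have := hC' I e e.orthonormal F
      simpa only [co _ ht.le, ee, mul_one, Complex.ofReal_re] using this
  refine ⟨I, e, E, E0, fun t ht i => hE i t ht, hs, ?_, fun hM ⟨M, hb⟩ => ?_,
    fun X ψ Ω hd hΩ hP hL => ?_⟩
  · have f1 : {i | ¬ exp (-t₀ * E i) < exp (-t₀)}.Finite :=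
      hs.tendsto_cofinite_zero.eventually (gt_mem_nhds (exp_pos _))
    obtain ⟨Δ, Δ0, hΔ⟩ : ∃ Δ > 0, ∀ i ∈ {i | ¬ exp (-t₀ * E i) < exp (-t₀)}, E i = 0 ∨ Δ ≤ E i := by
      have := (f1.eventually_all (l := 𝓝[>] (0 : ℝ)) (p := fun i Δ => E i = 0 ∨ Δ ≤ E i)).2
        fun i _ => by
          rcases (E0 i).eq_or_lt with g | g
          · exact Eventually.of_forall fun _ => Or.inl g.symm
          · exact ((ge_mem_nhds g).filter_mono nhdsWithin_le_nhds).mono fun _ g' => Or.inr g'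
      obtain ⟨Δ, g1, g2⟩ := (this.and self_mem_nhdsWithin).exists
      exact ⟨Δ, g2, g1⟩
    refine ⟨min Δ 1, lt_min Δ0 one_pos, fun i => ?_⟩
    by_cases g : exp (-t₀ * E i) < exp (-t₀)
    · have := exp_lt_exp.1 g
      exact Or.inr ((min_le_right _ _).trans (by nlinarith))
    · exact (hΔ i g).imp id fun g' => (min_le_left _ _).trans g'
  · refine hM (max M 0) fun t ht x => ?_
    have ps : ∀ y : H, HasSum (fun i => ‖inner ℂ (e i) y‖ ^ 2) (‖y‖ ^ 2) := fun y => by
      have := (e.hasSum_inner_mul_inner y y).mapL Complex.reCLM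
      rw [inner_self_eq_norm_sq_to_K] at this
      convert this using 1
      · funext i
        rw [← inner_conj_symm y (e i), Complex.conj_mul']
        simp [← Complex.ofReal_pow]
      · simp [← Complex.ofReal_pow]
    have p0 : 0 ≤ max M 0 * t := mul_nonneg (le_max_right _ _) ht
    refine (abs_le_of_sq_le_sq' ?_ (mul_nonneg p0 (norm_nonneg _))).2
    rw [mul_pow]
    refine hasSum_le (fun i => ?_) (ps _) ((ps x).mul_left _)
    rw [inner_sub_right, co t ht, ← sub_one_mul, norm_mul, mul_pow]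
    refine mul_le_mul_of_nonneg_right (pow_le_pow_left₀ (norm_nonneg _) ?_ 2) (sq_nonneg _)
    rw [← Complex.ofReal_one, ← Complex.ofReal_sub, Complex.norm_real, norm_eq_abs, abs_le]
    have q1 := add_one_le_exp (-t * E i)
    have q2 : exp (-t * E i) ≤ 1 := exp_le_one_iff.2 (by nlinarith [E0 i])
    have q3 := mul_le_mul_of_nonneg_left ((hb ⟨i, rfl⟩).trans (le_max_left M 0)) ht
    constructor <;> linarith
  · have ΩΩ : inner ℂ Ω Ω = 1 := by rw [inner_self_eq_norm_sq_to_K, hΩ]; simp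
    have key : ∀ v : H, (∀ t ≥ 0, P t v = v) → v = inner ℂ Ω v • Ω := fun v hv => by
      set u := v - inner ℂ Ω v • Ω with hu
      have u1 : ∀ t ≥ 0, P t u = u := fun t ht => by rw [hu, map_sub, map_smul, hv t ht, hP t ht]
      have u2 : inner ℂ u Ω = 0 := by
        rw [← inner_conj_symm, hu, inner_sub_right, inner_smul_right, ΩΩ]; simp
      have u3 : ∀ x, inner ℂ u (ψ x) = 0 := fun x => by
        set y := ψ x - inner ℂ Ω (ψ x) • Ω with hy
        have y1 : ∀ t ≥ 0, inner ℂ y (P t y)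
            = inner ℂ (ψ x) (P t (ψ x)) - ((‖inner ℂ Ω (ψ x)‖ ^ 2 : ℝ) : ℂ) := fun t ht => by
          rw [hy, map_sub, map_smul, hP t ht, inner_sub_left, inner_sub_right, inner_sub_right,
            inner_smul_left, inner_smul_right, inner_smul_left, inner_smul_right, ΩΩ,
            ← sym t ht Ω, hP t ht, ← inner_conj_symm (ψ x) Ω, Complex.mul_conj',
            Complex.conj_mul']
          push_cast
          rw [mul_one, Complex.conj_mul']
          ring
        have y2 : Tendsto (fun t : ℝ => ‖P t y‖ ^ 2) atTop (𝓝 0) := by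
          have a1 := (Complex.continuous_re.tendsto _).comp
            (((hL x).sub_const ((‖inner ℂ Ω (ψ x)‖ ^ 2 : ℝ) : ℂ)).comp
              (Tendsto.atTop_add_atTop tendsto_id tendsto_id))
          rw [sub_self, Complex.zero_re] at a1
          refine a1.congr' ((eventually_ge_atTop 0).mono fun t ht => ?_)
          beta_reduce
          rw [nsq t ht, y1 _ (add_nonneg ht ht)]
          rfl
        have y3 : ‖inner ℂ u (ψ x)‖ ^ 2 ≤ 0 := by
          have a1 := y2.const_mul (‖u‖ ^ 2)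
          rw [mul_zero] at a1
          refine ge_of_tendsto a1 ((eventually_ge_atTop 0).mono fun t ht => ?_)
          have a2 : inner ℂ u (ψ x) = inner ℂ u (P t y) := by
            rw [← sym t ht, u1 t ht, hy, inner_sub_right, inner_smul_right, u2, mul_zero, sub_zero]
          rw [a2, ← mul_pow]
          exact pow_le_pow_left₀ (norm_nonneg _) (norm_inner_le_norm _ _) 2
        exact norm_eq_zero.1 (pow_eq_zero_iff two_ne_zero |>.1 (le_antisymm y3 (sq_nonneg _)))
      have u4 : innerSL ℂ u = 0 := ContinuousLinearMap.ext_on hd (by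
        rintro _ ⟨x, rfl⟩; exact u3 x)
      have u5 : inner ℂ u u = 0 := congrArg (fun L : H →L[ℂ] ℂ => L u) u4
      exact sub_eq_zero.1 (inner_self_eq_zero.1 u5)
    obtain ⟨i, hi⟩ : ∃ i, inner ℂ (e i) Ω ≠ 0 := by
      by_contra g
      have := e.hasSum_inner_mul_inner Ω Ω
      simp only [not_not.1 (not_exists.1 g _), mul_zero] at this
      exact one_ne_zero (ΩΩ.symm.trans (this.unique hasSum_zero))
    have i0 : E i = 0 := by
      have := co 1 zero_le_one i Ω
      rw [hP 1 zero_le_one, eq_comm, mul_eq_right₀ hi, Complex.ofReal_eq_one, exp_eq_one_iff] at this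
      linarith
    refine ⟨i, i0, fun j hj => ?_⟩
    by_contra g
    have fx : ∀ j, E j = 0 → e j = inner ℂ Ω (e j) • Ω := fun j hj =>
      key _ fun t ht => by rw [hE j t ht, hj]; simp
    have nz : ∀ j, E j = 0 → inner ℂ Ω (e j) ≠ 0 := fun j hj z => by
      have := ee j
      rw [fx j hj, z] at this
      simp at this
    have := e.orthonormal.2 g
    beta_reduce at this
    rw [fx j hj, fx i i0, inner_smul_left, inner_smul_right, ΩΩ, mul_one] at this
    exact mul_ne_zero ((map_ne_zero _).2 (nz j hj)) (nz i i0) this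

end Pool.Agent.Lib.MP_7f377f_mp.YM7
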