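import Pool.Agent.Lib.MP_7f377f_mp.CyOS
import Pool.Agent.Lib.MP_7f377f_mp.OSE

/-! The quantum theory on the cylinder from the soft properties of the Schwinger functions. -/

noncomputable section

namespace Pool.Agent.Lib.MP_7f377f_mp.YM9

open MeasureTheory Filter Topology Function Real

section

open YM7 (rp sh th qf Ker)

variable {k l : ℕ} {m C : ℝ} {S : ∀ {k : ℕ}, (Fin k → R4 → ℝ) → ℝ}

theorem OS9.symm (h : OS9 m C S) {f : Fin k → R4 → ℝ} {g : Fin l → R4 → ℝ} (hf : Pos m f)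
    (hg : Pos m g) : S (rp f g) = S (rp g f) := by
  rw [← h.refl (hf.rp hg), ← h.perm finAddFlip (hg.rp hf)]
  refine congrArg S (funext fun i => ?_)
  induction i using Fin.addCases with
  | left i =>
    simp only [rp, Function.comp, Fin.append_left, finAddFlip_apply_castAdd, Fin.append_right]
    exact funext fun y => congrArg _ (YM7.th_th y)
  | right i =>
    simp only [rp, Function.comp, Fin.append_left, finAddFlip_apply_natAdd, Fin.append_right]
    rfl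

theorem OS9.shift (h : OS9 m C S) {f : Fin k → R4 → ℝ} {g : Fin l → R4 → ℝ} (hf : Pos m f)
    (hg : Pos m g) {v w : R4} (hv : 0 ≤ v 0) (hw : 0 ≤ w 0) :
    S (rp (sh v f) (sh w g)) = S (rp f (sh (w - th v) g)) := by
  rw [← h.trans ((hf.sh hv).rp (hg.sh hw)) (th v)]
  refine congrArg S (funext fun i => funext fun y => ?_)
  induction i using Fin.addCases with
  | left i =>
    simp only [rp, Fin.append_left]
    change f i (th (y + th v) - v) = f i (th y)
    rw [YM7.th_add, YM7.th_th, add_sub_cancel_right]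
  | right i =>
    simp only [rp, Fin.append_right, sh]
    rw [sub_sub_eq_add_sub]

theorem OS9.cont' (h : OS9 m C S) {f : Fin k → R4 → ℝ} {g : Fin l → R4 → ℝ} (hf : Pos m f)
    (hg : Pos m g) {w : R4} (hw : 0 ≤ w 0) : ContinuousAt (fun v => S (rp f (sh v g))) w := by
  have h1 : Tendsto (fun v : R4 => (Fin.append (fun _ => 0) (fun _ => v - w) : Fin (k + l) → R4))
      (𝓝 w) (𝓝 0) := tendsto_pi_nhds.2 fun i => by
    induction i using Fin.addCases with
    | left i => simpa only [Fin.append_left, Pi.zero_apply] using tendsto_const_nhds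
    | right i =>
      simpa only [Fin.append_right, Pi.zero_apply, id] using
        tendsto_sub_nhds_zero_iff.2 tendsto_id
  refine ((h.cont (hf.rp (hg.sh hw))).comp h1).congr fun v => ?_
  refine congrArg S (funext fun i => funext fun y => ?_)
  induction i using Fin.addCases with
  | left i => simp only [rp, Fin.append_left, sub_zero]
  | right i => simp only [rp, Fin.append_right, sh, sub_sub, sub_add_cancel]

theorem OS9.per' (h : OS9 m C S) {f : Fin k → R4 → ℝ} {g : Fin l → R4 → ℝ} (hf : Pos m f)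
    (hg : Pos m g) {z : Z4} (hz : z 0 = 0) : S (rp f (sh (pt m z) g)) = S (rp f g) := by
  rw [← h.per (hf.rp hg) (Fin.append (fun _ => 0) fun _ => z) fun i => by
    induction i using Fin.addCases with
    | left i => simp only [Fin.append_left, Pi.zero_apply]
    | right i => simp only [Fin.append_right, hz]]
  have e : pt m 0 = 0 := by
    ext l
    simp [pt]
  refine congrArg S (funext fun i => funext fun y => ?_)
  induction i using Fin.addCases with
  | left i => simp only [rp, Fin.append_left, e, sub_zero]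
  | right i => simp only [rp, Fin.append_right, sh]

/-- families at positive times -/
abbrev PX (m : ℝ) : Type := {p : Σ k, Fin k → R4 → ℝ // Pos m p.2}

/-- translation of a label -/
def sg (v : R4) (x : PX m) : PX m := if h : 0 ≤ v 0 then ⟨⟨_, sh v x.1.2⟩, x.2.sh h⟩ else x

theorem sg_eq {v : R4} (hv : 0 ≤ v 0) (x : PX m) : sg v x = ⟨⟨_, sh v x.1.2⟩, x.2.sh hv⟩ :=
  dif_pos hv

/-- the kernel on labels -/
def kb (S : ∀ {k : ℕ}, (Fin k → R4 → ℝ) → ℝ) (x y : PX m) : ℝ := S (rp x.1.2 y.1.2)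

/-- the empty label -/
def vc (m : ℝ) : PX m := ⟨⟨0, ![]⟩, ⟨fun i => i.elim0, fun i => i.elim0⟩, fun i => i.elim0⟩

theorem single_nonneg {s : ℝ} (h : 0 ≤ s) : 0 ≤ (EuclideanSpace.single 0 s : R4) 0 := by simpa

theorem single_zero : (EuclideanSpace.single 0 0 : R4) = 0 := by
  simp [EuclideanSpace.single, PiLp.single]

theorem sg_zero (x : PX m) : sg 0 x = x := by
  rw [sg_eq le_rfl]
  refine Subtype.ext (Sigma.ext rfl (heq_of_eq ?_))
  unfold sh
  simp only [sub_zero]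

theorem qf_gr (s : Finset (PX m)) (c : PX m → ℝ) {t : ℝ} (ht : 0 ≤ t) :
    qf (fun x y => kb S x (sg (EuclideanSpace.single 0 t) y)) s c =
      gr S (fun x : s => x.1.1.2) t fun x => c x := by
  rw [qf, gr, ← s.sum_coe_sort]
  refine Finset.sum_congr rfl fun a _ => ?_
  rw [← s.sum_coe_sort]
  refine Finset.sum_congr rfl fun b _ => ?_
  rw [sg_eq (single_nonneg ht)]
  rfl

theorem qf_gr0 (s : Finset (PX m)) (c : PX m → ℝ) :
    qf (kb S) s c = gr S (fun x : s => x.1.1.2) 0 fun x => c x := by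
  rw [← qf_gr s c le_rfl]
  simp only [single_zero, sg_zero]

theorem OS9.ker (h : OS9 m C S) : Ker (sg (m := m)) (kb S) (vc m) where
  symm x y := h.symm x.2 y.2
  zero := sg_zero
  add v w x hv hw := by
    rw [sg_eq hw, sg_eq hv, sg_eq (v := v + w) (add_nonneg hv hw)]
    refine Subtype.ext (Sigma.ext rfl (heq_of_eq ?_))
    unfold sh
    simp only [sub_sub]
  shift v w x y hv hw := by
    have e : 0 ≤ (w - th v) 0 := by
      rw [PiLp.sub_apply, YM7.th_zero, sub_neg_eq_add]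
      exact add_nonneg hw hv
    rw [sg_eq hw, sg_eq hv, sg_eq e]
    exact h.shift x.2 y.2 hv hw
  pos s c t ht := by
    rw [qf_gr s c ht, qf_gr0]
    exact h.pos (fun x : s => x.1.2) _ t ht
  cont x y w hw := (h.cont' x.2 y.2 hw).continuousWithinAt.congr
    (fun v hv => by rw [sg_eq hv]; rfl) (by rw [sg_eq hw]; rfl)
  one := h.nil _
  vac v := by
    by_cases hv : 0 ≤ v 0
    · rw [sg_eq hv]
      exact Subtype.ext (Sigma.ext rfl (heq_of_eq (funext fun i => i.elim0)))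
    · exact dif_neg hv

theorem pos_one {f : Fin 1 → R4 → ℝ} (hf : YM7.Pos f) : Pos m f :=
  ⟨⟨hf.1.1, fun i j hij => absurd (Subsingleton.elim i j) hij⟩, hf.2⟩

end

theorem OS9.hilbert {m C : ℝ} {S : ∀ {k : ℕ}, (Fin k → R4 → ℝ) → ℝ} (h : OS9 m C S) (m0 : 0 < m)
    (hS : ∀ f : Fin 2 → R4 → ℝ, YM7.Adm f →
      Tendsto (fun d : ℝ => log d⁻¹ ^ 2 * S fun i y => f i (d⁻¹ • y)) (𝓝[>] 0)
        (𝓝 ((6 / 11) ^ 2 * fv f))) :
    ∃ (H : Type) (_ : NormedAddCommGroup H) (_ : InnerProductSpace ℂ H) (_ : CompleteSpace H)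
      (Ψ : ∀ {k : ℕ}, (Fin k → R4 → ℝ) → H) (T : R4 → H →L[ℂ] H) (I : Type)
      (e : HilbertBasis I ℂ H) (E : I → ℝ),
      Dense (Submodule.span ℂ {x | ∃ k, ∃ f : Fin k → R4 → ℝ, Pos m f ∧ Ψ f = x} : Set H) ∧
      (∀ k l (f : Fin k → R4 → ℝ) (g : Fin l → R4 → ℝ), Pos m f → Pos m g →
        inner ℂ (Ψ f) (Ψ g) = S (Fin.append (fun i => theta (f i)) g)) ∧
      ‖Ψ ![]‖ = 1 ∧ T 0 = 1 ∧
      (∀ v, 0 ≤ v 0 → ‖T v‖ ≤ 1 ∧ T v (Ψ ![]) = Ψ ![] ∧ (∀ w, 0 ≤ w 0 → T (v + w) = T v * T w) ∧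
        ∀ k (f : Fin k → R4 → ℝ), Pos m f → T v (Ψ f) = Ψ fun i y => f i (y - v)) ∧
      (∀ x, ContinuousOn (fun v => T v x) {v | 0 ≤ v 0}) ∧
      (∀ v, v 0 = 0 → T v ∈ unitary (H →L[ℂ] H)) ∧
      (∀ z : Fin 4 → ℤ, z 0 = 0 → T (pt m z) = 1) ∧ (∀ i, 0 ≤ E i) ∧
      (∀ t ≥ 0, ∀ i, T (EuclideanSpace.single 0 t) (e i) = (exp (-t * E i) : ℂ) • e i) ∧
      (Summable fun i => exp (-m * E i)) ∧ (∃ Δ > 0, ∀ i, E i = 0 ∨ Δ ≤ E i) ∧
      ¬BddAbove (Set.range E) ∧
      ((∀ k (f : Fin k → R4 → ℝ), Pos m f → Tendsto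
        (fun t : ℝ => S (YM7.rp f (YM7.sh (EuclideanSpace.single 0 t) f))) atTop (𝓝 (S f ^ 2))) →
        ∃! i, E i = 0) := by
  classical
  obtain ⟨H, _, _, _, ψ, T, q1, q2, q3, q4, q5, q6, q7, q8⟩ := h.ker.reconstruct
  obtain ⟨Ψ, hΨ⟩ : ∃ Ψ : ∀ {k : ℕ}, (Fin k → R4 → ℝ) → H, ∀ x : PX m, Ψ x.1.2 = ψ x :=
    ⟨fun f => if hf : Pos m f then ψ ⟨⟨_, f⟩, hf⟩ else 0, fun x => dif_pos x.2⟩
  have hΩ : Ψ ![] = ψ (vc m) := hΨ (vc m)
  have e1 : ∀ {v : R4}, 0 ≤ v 0 → ∀ x y : PX m,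
      inner ℂ (ψ x) (T v (ψ y)) = kb S x (sg v y) := fun hv x y => by
    rw [(q5 _ hv).2.2.2, q2]
  have e2 : ∀ {v : R4}, 0 ≤ v 0 → ∀ x y : PX m,
      inner ℂ (ψ x) (T v (ψ y)) = S (YM7.rp x.1.2 (YM7.sh v y.1.2)) := fun hv x y => by
    rw [e1 hv, sg_eq hv]
    rfl
  obtain ⟨I, e, E, r1, r2, r3, r4, r5, r6⟩ := YM7.eigen_of
    (P := fun t => T (EuclideanSpace.single 0 t)) (single_zero ▸ q4)
    (fun r hr s hs => (congrArg T (PiLp.single_add ..)).trans
      ((q5 _ (single_nonneg hr)).2.2.1 _ (single_nonneg hs)))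
    (fun t ht => (q5 _ (single_nonneg ht)).1) q8
    (fun x => (q6 x).comp (f := fun t : ℝ => (EuclideanSpace.single 0 t : R4))
      ((PiLp.continuous_toLp 2 fun _ : Fin 4 => ℝ).comp (continuous_single 0)).continuousOn
      fun t ht => single_nonneg ht) m0
    (YM7.frame_on (C := C) q1 q2 (e1 (single_nonneg m0.le)) h.ker.symm fun s r c Λ h0 h1 => by
      simp only [qf_gr s _ m0.le]
      exact h.frame (fun x : s => x.1.2) (fun i x => c i x) h0 fun u => by
        simpa only [qf_gr0] using h1 u)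
  refine ⟨H, inferInstance, inferInstance, inferInstance, Ψ, T, I, e, E, ?_,
    fun _ _ f g hf hg => ?_, (congrArg _ hΩ).trans q3, q4, fun v hv => ⟨(q5 v hv).1,
      ((congrArg _ hΩ).trans (q5 v hv).2.1).trans hΩ.symm, (q5 v hv).2.2.1, fun _ f hf => ?_⟩,
    q6, q7, fun z hz => ?_, r1, r2, r3, r4,
    r5 fun B hB => YM7.not_bdd hS B fun s hs f hf => ?_,
    fun hc => r6 _ ψ (ψ (vc m)) q1 q3 (fun t ht => (q5 _ (single_nonneg ht)).2.1) fun x => ?_⟩
  · refine q1.mono (Submodule.span_mono ?_)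
    rintro _ ⟨x, rfl⟩
    exact ⟨_, _, x.2, hΨ x⟩
  · exact (congrArg₂ _ (hΨ ⟨⟨_, _⟩, hf⟩) (hΨ ⟨⟨_, _⟩, hg⟩)).trans (q2 _ _)
  · exact ((congrArg _ (hΨ ⟨⟨_, _⟩, hf⟩)).trans ((q5 v hv).2.2.2 _)).trans
      ((congrArg ψ (sg_eq hv _)).trans (hΨ ⟨⟨_, _⟩, hf.sh hv⟩).symm)
  · have hv : 0 ≤ pt m z 0 := by simp [pt, hz]
    have e3 : star (1 : H →L[ℂ] H) = T (pt m z) := YM7.adj_ext q1 fun x y => by
      rw [e2 hv, h.per' x.2 y.2 hz, one_apply_eq_self, q2]
      rfl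
    rw [← e3, star_one]
  · obtain ⟨x, hx⟩ : ∃ x : PX m, ∀ s ≥ 0, S (YM7.rp f (YM7.sh (EuclideanSpace.single 0 s) f)) =
        (inner ℂ (ψ x) (T (EuclideanSpace.single 0 s) (ψ x))).re :=
      ⟨⟨⟨_, f⟩, pos_one hf⟩, fun s hs => by rw [e2 (single_nonneg hs), Complex.ofReal_re]⟩
    have e2 := re_inner_le_norm (𝕜 := ℂ) (ψ x) (ψ x - T (EuclideanSpace.single 0 s) (ψ x))
    have e3 := mul_le_mul_of_nonneg_left (hB s hs (ψ x)) (norm_nonneg (ψ x))
    have e4 := inner_self_eq_norm_mul_norm (𝕜 := ℂ) (ψ x)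
    rw [inner_sub_right, map_sub, norm_sub_rev, e4] at e2
    rw [hx s hs, hx 0 le_rfl, single_zero, q4, one_apply_eq_self]
    simp only [RCLike.re_to_complex] at e2 e4
    rw [e4]
    linarith
  · have e3 : kb S (vc m) x = S x.1.2 := by
      refine ((h.perm (finCongr (Nat.zero_add _).symm) ((vc m).2.rp x.2)).symm.trans
        (congrArg S (funext fun i => ?_)))
      exact (congrArg (YM7.rp (vc m).1.2 x.1.2) (Fin.ext (Nat.zero_add i.1).symm)).trans
        (Fin.append_right _ _ i)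
    rw [q2, e3, Complex.norm_real, Real.norm_eq_abs, sq_abs]
    refine ((Complex.continuous_ofReal.tendsto _).comp (hc _ _ x.2)).congr'
      ((eventually_ge_atTop 0).mono fun t ht => (e2 (single_nonneg ht) x x).symm)

end Pool.Agent.Lib.MP_7f377f_mp.YM9
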