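import Pool.Agent.Lib.MP_7f377f_mp.CyF4
import Pool.Agent.Lib.MP_7f377f_mp.CyH
import Pool.Agent.Lib.MP_7f377f_mp.YM9U

/-! Pure phases on the cylinder: definitions and interfaces. -/

noncomputable section

namespace Pool.Agent.Lib.MP_7f377f_mp.YM9

open MeasureTheory Filter Topology Function Real
open RGP (BM)

set_option linter.unusedSectionVars false

/-- unordered families of test functions -/
abbrev MF : Type := Multiset (R4 → ℝ)

variable {k l : ℕ} {m : ℝ} {F G : MF} {v w : R4} {O : Set R4} {i j : Fin 4}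

/-- the unordered family of a family -/
def mf (f : Fin k → R4 → ℝ) : MF := (List.ofFn f : List (R4 → ℝ))

/-- translation -/
def mv (v : R4) (F : MF) : MF := F.map fun f y => f (y - v)

/-- the vector `t e_j` -/
abbrev ev (j : Fin 4) (t : ℝ) : R4 := EuclideanSpace.single j t

/-- reflection of the axis `j` -/
def rf (j : Fin 4) (y : R4) : R4 := WithLp.toLp 2 (update y j (-y j))

/-- reflection of a family -/
def mr (j : Fin 4) (F : MF) : MF := F.map fun f y => f (rf j y)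

/-- supports disjoint modulo the periods -/
def Sep (m : ℝ) (f g : R4 → ℝ) : Prop :=
  ∀ x ∈ tsupport f, ∀ y ∈ tsupport g, ∀ z : Z4, z 0 = 0 → x ≠ y + pt m z

/-- admissible families -/
def AdM (m : ℝ) (F : MF) : Prop :=
  (∀ f ∈ F, HasCompactSupport f ∧ ContDiff ℝ 1 f) ∧ F.Pairwise (Sep m)

/-- families supported in `O` -/
def Su (O : Set R4) (F : MF) : Prop := ∀ f ∈ F, tsupport f ⊆ O

/-- admissible families at positive times -/
def PoM (m : ℝ) (F : MF) : Prop := AdM m F ∧ Su {y | 0 < y 0} F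

/-- admissible families in a thin tube around the time axis -/
def Thin (m r : ℝ) (F : MF) : Prop := AdM m F ∧ Su {y | ∀ j, j ≠ 0 → |y j| < r} F

/-- admissible families in one half of the torus -/
def Half (m : ℝ) (j : Fin 4) (F : MF) : Prop := AdM m F ∧ Su {y | 0 < y j ∧ y j < m / 2} F

/-- Lipschitz data of a family -/
def Lq (m R δ : ℝ) (f : Fin k → R4 → ℝ) (L : Fin k → NNReal) : Prop :=
  Adm m f ∧ (∀ i, LipschitzWith (L i) (f i) ∧ ∀ y, f i y ≠ 0 → ‖y‖ ≤ R) ∧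
    ∀ i j, i ≠ j → ∀ x y, f i x ≠ 0 → f j y ≠ 0 → ∀ z : Fin 4 → ℤ, z 0 = 0 →
      δ ≤ dist x (y + pt m z)

/-- a function of families as a function of unordered families -/
def SM {α : Type} (S : ∀ {k : ℕ}, (Fin k → R4 → ℝ) → α) (F : MF) : α := S F.toList.get

/-- the reflected quadratic form -/
def qm (σ : MF → ℝ) (j : Fin 4) {A : Type} [Fintype A] (F : A → MF) (c : A → ℝ) : ℝ :=
  ∑ x, ∑ y, c x * c y * σ (mr j (F x) + F y)

/-- further soft properties of the Schwinger functions -/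
structure Os (m : ℝ) (σ : MF → ℝ) : Prop where
  nil : σ 0 = 1
  trans : ∀ {F}, AdM m F → ∀ v, σ (mv v F) = σ F
  refl : ∀ {F}, AdM m F → ∀ j, σ (mr j F) = σ F
  zero : ∀ {F}, AdM m F → σ (0 ::ₘ F) = 0
  add : ∀ {F f g}, AdM m (f ::ₘ F) → AdM m (g ::ₘ F) →
    σ ((f + g) ::ₘ F) = σ (f ::ₘ F) + σ (g ::ₘ F)
  rp : ∀ {j}, j ≠ 0 → ∀ {A : Type} [Fintype A] {F : A → MF}, (∀ x, Half m j (F x)) →
    ∀ c, 0 ≤ qm σ j F c
  op : ∀ k R δ, 0 < δ → ∃ γ r s : ℝ, 0 ≤ γ ∧ R < r ∧ r + R < s ∧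
    ∀ (f : Fin k → R4 → ℝ) L, Lq m R δ f L → ∀ {A : Type} [Fintype A] {B : A → MF},
      (∀ x, PoM m (B x)) → ∀ c, qm σ 0 (fun x => mv (ev 0 r) (mf f) + mv (ev 0 s) (B x)) c ≤
        (γ * ∏ i, L i) ^ 2 * qm σ 0 B c

section
variable {H : Type} [NormedAddCommGroup H] [InnerProductSpace ℂ H] [CompleteSpace H]

/-- the translation semigroup -/
structure Sg (m C : ℝ) (Ω : H) (T : R4 → H →L[ℂ] H) : Prop where
  m0 : 0 < m
  one : ‖Ω‖ = 1
  zero : T 0 = 1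
  nrm : ∀ v, 0 ≤ v 0 → ‖T v‖ ≤ 1
  vac : ∀ v, 0 ≤ v 0 → T v Ω = Ω
  add : ∀ v w, 0 ≤ v 0 → 0 ≤ w 0 → T (v + w) = T v * T w
  cont : ∀ x, ContinuousOn (fun v => T v x) {v | 0 ≤ v 0}
  uni : ∀ v, v 0 = 0 → T v ∈ unitary (H →L[ℂ] H)
  per : ∀ z : Z4, z 0 = 0 → T (pt m z) = 1
  pos : ∀ t ≥ 0, (T (ev 0 t)).IsPositive
  frame : ∀ (r : ℕ) (e : Fin r → H), Orthonormal ℂ e →
    ∑ i, (inner ℂ (e i) (T (ev 0 m) (e i))).re ≤ C

/-- the projection on the vacuum space -/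
structure Pj (T : R4 → H →L[ℂ] H) (P : H →L[ℂ] H) : Prop where
  idem : P * P = P
  adj : star P = P
  lim : Tendsto (fun t => T (ev 0 t)) atTop (𝓝 P)
  fin : FiniteDimensional ℂ (LinearMap.range (P : H →ₗ[ℂ] H))
  comm : ∀ v, 0 ≤ v 0 → T v * P = P * T v
  fix : ∀ t ≥ 0, T (ev 0 t) * P = P

/-- the vectors of the reconstruction -/
structure Vc (m : ℝ) (σ : MF → ℝ) (Ψ : MF → H) (T : R4 → H →L[ℂ] H) : Prop where
  dense : Dense (Submodule.span ℂ (Ψ '' {F | PoM m F}) : Set H)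
  inn : ∀ {F G}, PoM m F → PoM m G → inner ℂ (Ψ F) (Ψ G) = σ (mr 0 F + G)
  sh : ∀ {F v}, PoM m F → 0 ≤ v 0 → T v (Ψ F) = Ψ (mv v F)

/-- the fields acting on the vacuum space -/
structure Ops (m : ℝ) (σ : MF → ℝ) (Ψ : MF → H) (T : R4 → H →L[ℂ] H) (P : H →L[ℂ] H)
    (φ A : MF → H →L[ℂ] H) : Prop where
  vac : ∀ {F}, PoM m F → φ F (Ψ 0) = Ψ F
  pro : ∀ {F}, PoM m F → P * φ F = A F
  fix : ∀ F, φ F * P = φ F
  nil : φ 0 = P
  sh : ∀ {F v}, PoM m F → 0 ≤ v 0 → T v * φ F = φ (mv v F) * T v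
  inn : ∀ {F G}, PoM m F → PoM m G → star (φ F) * φ G = A (mr 0 F + G)
  lim : ∀ {F B B'}, AdM m F → PoM m B → PoM m B' →
    Tendsto (fun t => (σ (mr 0 (mv (ev 0 t) B') + F + mv (ev 0 t) B) : ℂ)) atTop
      (𝓝 (inner ℂ (Ψ B') (A F (Ψ B))))
  pa : ∀ {F}, AdM m F → P * A F = A F ∧ A F * P = A F
  adj : ∀ {F}, AdM m F → star (A F) = A (mr 0 F)
  time : ∀ {F}, AdM m F → ∀ t, A (mv (ev 0 t) F) = A F
  space : ∀ {F v}, AdM m F → v 0 = 0 → A (mv v F) * T v = T v * A F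
  mul : ∀ {F G}, AdM m F → AdM m G →
    Tendsto (fun t => A (F + mv (ev 0 t) G)) atTop (𝓝 (A F * A G))
  zero : ∀ {F}, AdM m F → A (0 ::ₘ F) = 0
  add : ∀ {F f g}, AdM m (f ::ₘ F) → AdM m (g ::ₘ F) →
    A ((f + g) ::ₘ F) = A (f ::ₘ F) + A (g ::ₘ F)
  lip : ∀ k R δ, 0 < δ → ∃ γ : ℝ, ∀ (f : Fin k → R4 → ℝ) L, Lq m R δ f L →
    ‖A (mf f)‖ ≤ γ * ∏ i, L i

/-- a pure vacuum -/
structure Pv (m : ℝ) (Ψ : MF → H) (T : R4 → H →L[ℂ] H) (P : H →L[ℂ] H) (A : MF → H →L[ℂ] H)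
    (χ : H) : Prop where
  one : ‖χ‖ = 1
  pro : P χ = χ
  inv : ∀ v, 0 ≤ v 0 → T v χ = χ
  ne : inner ℂ χ (Ψ 0) ≠ 0
  mem : χ ∈ Submodule.span ℂ ((fun F => P (Ψ F)) '' {F | PoM m F})
  eig : ∀ {F}, Thin m (m / 16) F → ∃ c : ℂ, A F χ = c • χ

end

section
variable [MeasurableSpace SU2]

/-- the reflected square -/
def nq (μ : Measure Fd) (G : Fd → ℝ) : ℝ := ∫ U, G (rfl0 U) * G U ∂μ

/-- multiplication by `Y`, followed by `s` time steps, has norm at most `γ` -/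
def On (μ : Measure Fd) (Y : Fd → ℝ) (s : ℕ) (γ : ℝ) : Prop :=
  0 ≤ γ ∧ BM Y ∧ DependsOn Y (Tm 0 s) ∧ ∀ (G : Fd → ℝ) (K : ℕ), BM G → DependsOn G (Tm 0 K) →
    nq μ (fun U => Y U * G (sht s U)) ≤ γ ^ 2 * nq μ G

/-- the operator form of the slab bound -/
def Op9 (h : Measure SU2) [IsProbabilityMeasure h] (b : ℝ) (n : ℕ) (μ : Measure Fd) (t : ℝ) :
    Prop := ∀ k : ℕ, n = 2 * k + 3 → ∀ (Y : Fd → ℝ) (γ : ℝ), 0 ≤ γ → BM Y →
      DependsOn Y (Tm 0 (k + 1)) → t * nq (cube h b n) Y ≤ γ ^ 2 → On μ Y (k + 2) γ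

/-- uniform operator bound for normalised separated sources -/
def Bo {ι : Type} (m : ℝ) (Φ : Filter ι) (μ ν : ι → Measure Fd) (a τ : ι → ℝ) : Prop :=
  ∀ (k : ℕ) (R δ : ℝ), 0 < δ → ∃ γ s₀ : ℝ, ∀ᶠ p in Φ, ∀ s : ℕ, s₀ ≤ a p * s → ∀ F : Fin k → Sr,
    (∀ i, Sz 1 (a p) (τ p) (F i)) → (∀ i, In (a p) R (F i)) →
    (∀ i x, F i x ≠ 0 → m ≤ a p * x 0) → Apart (Lc m) (a p) δ F →
    On (μ p) (fun U => ∏ i, (gf (F i) U - ∫ V, gf (F i) V ∂ν p)) s γ

end

/-! ### elementary properties -/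

theorem Sep.symm' {f g : R4 → ℝ} (h : Sep m f g) : Sep m g f := fun x hx y hy z hz e =>
  h y hy x hx (-z) (by simpa using hz) (by
    rw [e, add_assoc]
    ext l
    simp [pt])

instance : Std.Symm (Sep m) := ⟨fun _ _ => Sep.symm'⟩

theorem exists_mf (F : MF) : ∃ (k : ℕ) (f : Fin k → R4 → ℝ), mf f = F :=
  ⟨_, F.toList.get, by rw [mf, List.ofFn_get, Multiset.coe_toList]⟩

theorem mem_mf {f : Fin k → R4 → ℝ} {g : R4 → ℝ} : g ∈ mf f ↔ ∃ i, f i = g := by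
  simp [mf, List.mem_ofFn']

theorem forall_mf {f : Fin k → R4 → ℝ} {p : (R4 → ℝ) → Prop} : (∀ g ∈ mf f, p g) ↔ ∀ i, p (f i) :=
  ⟨fun h i => h _ (mem_mf.2 ⟨i, rfl⟩), fun h _ hg => let ⟨i, e⟩ := mem_mf.1 hg; e ▸ h i⟩

theorem mf_append (f : Fin k → R4 → ℝ) (g : Fin l → R4 → ℝ) :
    mf (Fin.append f g) = mf f + mf g := by
  rw [mf, List.ofFn_fin_append, ← Multiset.coe_add, mf, mf]

theorem mf_cons (g : R4 → ℝ) (f : Fin k → R4 → ℝ) :
    mf (Fin.cons g f : Fin (k + 1) → R4 → ℝ) = g ::ₘ mf f := by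
  simp [mf, List.ofFn_succ]

theorem mf_nil (f : Fin 0 → R4 → ℝ) : mf f = 0 := by simp [mf]

theorem mf_map (f : Fin k → R4 → ℝ) (θ : (R4 → ℝ) → R4 → ℝ) :
    (mf f).map θ = mf fun i => θ (f i) := by
  rw [mf, Multiset.map_coe, List.map_ofFn, mf]
  rfl

theorem mv_mf (v : R4) (f : Fin k → R4 → ℝ) : mv v (mf f) = mf (YM7.sh v f) := mf_map ..

theorem mr_mf (j : Fin 4) (f : Fin k → R4 → ℝ) : mr j (mf f) = mf fun i y => f i (rf j y) :=
  mf_map ..

theorem mf_rp (f : Fin k → R4 → ℝ) (g : Fin l → R4 → ℝ) :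
    mf (YM7.rp f g) = mr 0 (mf f) + mf g := by
  rw [YM7.rp, mf_append, mr_mf]
  rfl

theorem adm_mf {f : Fin k → R4 → ℝ} : AdM m (mf f) ↔ Adm m f :=
  and_congr forall_mf (Multiset.pairwise_coe_iff_pairwise.trans (List.pairwise_ofFn.trans
    ⟨fun h _ _ hij => hij.lt_or_gt.elim (fun e => h e) fun e => (h e).symm',
      fun h _ _ hij => h _ _ hij.ne⟩))

theorem pom_mf {f : Fin k → R4 → ℝ} : PoM m (mf f) ↔ Pos m f := and_congr adm_mf forall_mf

theorem Tord.pos {f : Fin k → R4 → ℝ} (hf : Tord f) : Pos m f :=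
  ⟨adm_mf.1 ⟨forall_mf.2 fun i => ⟨(hf.1 i).1, (hf.1 i).2.1⟩,
    Multiset.pairwise_coe_iff_pairwise.2 (List.pairwise_ofFn.2 fun i j hij x hx y hy z hz e => by
      simpa [e, pt, hz] using hf.2 i j hij x hx y hy)⟩, fun i => (hf.1 i).2.2⟩

theorem mf_eq {f : Fin k → R4 → ℝ} {g : Fin l → R4 → ℝ} (h : mf f = mf g) :
    ∃ e : Fin k ≃ Fin l, f = g ∘ e := by
  classical
  have c : ∀ u, Fintype.card {i // f i = u} = Fintype.card {i // g i = u} := fun u => by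
    have := congrArg (Multiset.count u) h
    simp only [mf, ← Fin.univ_val_map, Multiset.count_map] at this
    simpa only [Fintype.card_subtype, Finset.card, Finset.filter_val, eq_comm (a := u)] using this
  exact ⟨Equiv.ofFiberEquiv fun u => Fintype.equivOfCardEq (c u), funext fun i =>
    (Equiv.ofFiberEquiv_map _ i).symm⟩

theorem sm_mf {α : Type} {S : ∀ {k : ℕ}, (Fin k → R4 → ℝ) → α}
    (hS : ∀ {k l} (e : Fin l ≃ Fin k) {f : Fin k → R4 → ℝ}, Adm m f → S (f ∘ e) = S f)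
    {f : Fin k → R4 → ℝ} (hf : Adm m f) : SM S (mf f) = S f := by
  obtain ⟨e, he⟩ := mf_eq (f := (mf f).toList.get) (g := f)
    (by rw [mf, List.ofFn_get, Multiset.coe_toList])
  rw [SM, he, hS e hf]

theorem adm_add : AdM m (F + G) ↔ AdM m F ∧ AdM m G ∧ ∀ f ∈ F, ∀ g ∈ G, Sep m f g := by
  induction F using Quotient.inductionOn
  induction G using Quotient.inductionOn
  simp only [AdM, Multiset.quot_mk_to_coe, Multiset.coe_add, Multiset.pairwise_coe_iff_pairwise,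
    List.pairwise_append, Multiset.mem_coe, List.mem_append, or_imp, forall_and]
  tauto

theorem adm_cons {f : R4 → ℝ} : AdM m (f ::ₘ F) ↔
    (HasCompactSupport f ∧ ContDiff ℝ 1 f) ∧ AdM m F ∧ ∀ g ∈ F, Sep m f g := by
  rw [← Multiset.singleton_add, adm_add]
  simp [AdM, ← Multiset.coe_singleton, Multiset.pairwise_coe_iff_pairwise]

theorem adm_nil : AdM m 0 := ⟨by simp, [], rfl, List.Pairwise.nil⟩

theorem su_add : Su O (F + G) ↔ Su O F ∧ Su O G := by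
  simp only [Su, Multiset.mem_add, or_imp, forall_and]

theorem su_nil : Su O 0 := by simp [Su]

theorem Su.mono {O' : Set R4} (h : Su O F) (e : O ⊆ O') : Su O' F := fun f hf => (h f hf).trans e

theorem pom_nil : PoM m 0 := ⟨adm_nil, su_nil⟩

@[simp] theorem mv_add (v : R4) (F G : MF) : mv v (F + G) = mv v F + mv v G := Multiset.map_add ..

@[simp] theorem mr_add (j : Fin 4) (F G : MF) : mr j (F + G) = mr j F + mr j G :=
  Multiset.map_add ..

@[simp] theorem mv_nil (v : R4) : mv v 0 = 0 := rfl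

@[simp] theorem mr_nil (j : Fin 4) : mr j 0 = 0 := rfl

@[simp] theorem mv_zero (F : MF) : mv 0 F = F := by simp [mv]

theorem mv_mv (v w : R4) (F : MF) : mv v (mv w F) = mv (v + w) F := by
  simp [mv, sub_sub]

@[simp] theorem rf_rf (j : Fin 4) (y : R4) : rf j (rf j y) = y := by simp [rf]

theorem rf_apply (j : Fin 4) (y : R4) (i : Fin 4) : rf j y i = if i = j then -y i else y i := by
  by_cases h : i = j <;> simp [rf, h]

theorem rf_comm (i j : Fin 4) (y : R4) : rf i (rf j y) = rf j (rf i y) := by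
  ext l
  simp only [rf_apply]
  split_ifs <;> rfl

theorem rf_sub (j : Fin 4) (x y : R4) : rf j (x - y) = rf j x - rf j y := by
  ext l
  simp only [rf_apply, PiLp.sub_apply]
  split_ifs <;> ring

theorem rf_ev (j : Fin 4) (t : ℝ) : rf j (ev j t) = ev j (-t) := by
  ext l
  by_cases h : l = j <;> simp [rf_apply, h]

theorem rf_ev' (h : i ≠ j) (t : ℝ) : rf i (ev j t) = ev j t := by
  ext l
  by_cases e : l = i <;> simp [rf_apply, e, h]

@[simp] theorem mr_mr (j : Fin 4) (F : MF) : mr j (mr j F) = F := by simp [mr]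

theorem mr_comm (i j : Fin 4) (F : MF) : mr i (mr j F) = mr j (mr i F) := by
  simp [mr, rf_comm i j]

theorem mr_mv (j : Fin 4) (v : R4) (F : MF) : mr j (mv v F) = mv (rf j v) (mr j F) := by
  simp [mr, mv, rf_sub]

/-- the reflection as a linear isometry -/
def rfL (j : Fin 4) : R4 ≃ₗᵢ[ℝ] R4 := LinearIsometryEquiv.piLpCongrRight 2 fun l =>
  if l = j then LinearIsometryEquiv.neg ℝ else LinearIsometryEquiv.refl ℝ ℝ

theorem rfL_eq (j : Fin 4) : ⇑(rfL j) = rf j := by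
  funext y
  ext l
  by_cases h : l = j <;> simp [rf, rfL, h]

theorem cont_rf (j : Fin 4) : Continuous (rf j) := rfL_eq j ▸ (rfL j).continuous

theorem AdM.mv (h : AdM m F) (v : R4) : AdM m (mv v F) := by
  obtain ⟨k, f, rfl⟩ := exists_mf F
  exact mv_mf v f ▸ adm_mf.2 ((adm_mf.1 h).sh v)

theorem AdM.mr (h : AdM m F) (j : Fin 4) : AdM m (mr j F) := by
  obtain ⟨k, f, rfl⟩ := exists_mf F
  have := (adm_mf.1 h).comp (rfL j).toHomeomorph (rfL j).contDiff fun y z hz =>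
    ⟨update z j (-z j), by
      by_cases e : 0 = j
      · simp [← e, hz]
      · rw [update_of_ne e, hz], by
      rw [LinearIsometryEquiv.coe_toHomeomorph, map_add, rfL_eq, add_right_inj]
      ext l
      by_cases h : l = j <;> simp [rf, pt, h]⟩
  rw [LinearIsometryEquiv.coe_toHomeomorph, rfL_eq] at this
  exact mr_mf j f ▸ adm_mf.2 this

theorem Su.mv (h : Su O F) (v : R4) : Su {y | y - v ∈ O} (mv v F) := fun _ hg _ hy =>
  let ⟨f, hf, e⟩ := Multiset.mem_map.1 hg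
  h f hf (YM7.tsupport_comp (θ := fun y => y - v) (by fun_prop) (e ▸ hy :))

theorem Su.mr (h : Su O F) (j : Fin 4) : Su {y | rf j y ∈ O} (mr j F) := fun _ hg _ hy =>
  let ⟨f, hf, e⟩ := Multiset.mem_map.1 hg
  h f hf (YM7.tsupport_comp (cont_rf j) (e ▸ hy :))

theorem PoM.mv (h : PoM m F) (hv : 0 ≤ v 0) : PoM m (mv v F) :=
  ⟨h.1.mv v, (h.2.mv v).mono fun y hy => by
    simp only [Set.mem_ofPred_eq, PiLp.sub_apply] at hy ⊢
    linarith⟩

theorem AdM.add_time (hF : AdM m F) (hG : AdM m G) {t : ℝ} (h1 : Su {y | y 0 ≤ t} F)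
    (h2 : Su {y | t < y 0} G) : AdM m (F + G) :=
  adm_add.2 ⟨hF, hG, fun f hf g hg x hx y hy z hz e => by
    have h3 : x 0 ≤ t := h1 f hf hx
    have h4 : t < y 0 := h2 g hg hy
    simpa [e, pt, hz] using h3.trans_lt h4⟩

theorem AdM.ball (h : AdM m F) : ∃ R > 0, Su {y | ‖y‖ ≤ R} F := by
  obtain ⟨k, f, rfl⟩ := exists_mf F
  obtain ⟨R, R0, hR⟩ := (isCompact_iUnion fun i => ((adm_mf.1 h).1 i).1.isCompact).isBounded
    |>.exists_pos_norm_le
  exact ⟨R, R0, forall_mf.2 fun i y hy => hR y (Set.mem_iUnion.2 ⟨i, hy⟩)⟩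

theorem AdM.ev_pos (h : AdM m F) : ∀ᶠ t in atTop, PoM m (YM9.mv (ev 0 t) F) := by
  obtain ⟨R, -, hR⟩ := h.ball
  refine (eventually_gt_atTop R).mono fun t ht => ⟨h.mv _, (hR.mv _).mono fun y hy => ?_⟩
  have := (neg_le_abs _).trans ((PiLp.norm_apply_le (y - ev 0 t) 0).trans hy)
  simp only [PiLp.sub_apply, PiLp.single_apply, if_true, Set.mem_ofPred_eq] at this ⊢
  linarith

theorem AdM.ev_add (hF : AdM m F) (hG : AdM m G) :
    ∀ᶠ t in atTop, AdM m (F + YM9.mv (ev 0 t) G) := by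
  obtain ⟨R, -, hR⟩ := hF.ball
  obtain ⟨R', -, hR'⟩ := hG.ball
  refine (eventually_gt_atTop (R + R')).mono fun t ht => hF.add_time (hG.mv _) (t := R)
    (hR.mono fun y hy => (le_abs_self _).trans ((PiLp.norm_apply_le y 0).trans hy))
    ((hR'.mv _).mono fun y hy => ?_)
  have := (neg_le_abs _).trans ((PiLp.norm_apply_le (y - ev 0 t) 0).trans hy)
  simp only [PiLp.sub_apply, PiLp.single_apply, if_true, Set.mem_ofPred_eq] at this ⊢
  linarith

theorem PoM.rp (hF : PoM m F) (hG : PoM m G) : AdM m (mr 0 F + G) :=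
  (hF.1.mr 0).add_time hG.1 (t := 0) ((hF.2.mr 0).mono fun y hy => by
    simp only [Set.mem_ofPred_eq, rf_apply, if_true] at hy ⊢
    linarith) hG.2

theorem Adm.lq {f : Fin k → R4 → ℝ} (hf : Adm m f) : ∃ R δ L, 0 < δ ∧ Lq m R δ f L := by
  obtain ⟨D, q, h1, h2, h3⟩ := (adm_iff.1 hf).data (closed_Lc m)
  exact ⟨D, 1 / (q + 1), fun _ => D, by positivity, hf,
    fun i => ⟨(h2 i).1, fun y hy => h1 i y (subset_tsupport _ hy)⟩,
    fun i j hij x y hx hy z hz =>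
      h3 i j hij x (subset_tsupport _ hx) y (subset_tsupport _ hy) _ ⟨z, hz, rfl⟩⟩

end Pool.Agent.Lib.MP_7f377f_mp.YM9
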