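import Pool.Agent.Lib.MP_7f377f_mp.CuDef

/-! The fields acting on the vacuum space. -/

noncomputable section

namespace Pool.Agent.Lib.MP_7f377f_mp.YM9

open MeasureTheory Filter Topology Function Real Finset
open RGP (BM)

set_option linter.unusedSectionVars false

variable {H : Type} [NormedAddCommGroup H] [InnerProductSpace ℂ H] [CompleteSpace H]
  {m C : ℝ} {Ω χ : H} {T : R4 → H →L[ℂ] H} {P : H →L[ℂ] H} {σ : MF → ℝ} {Ψ : MF → H}
  {φ A : MF → H →L[ℂ] H}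

theorem ev_add (j : Fin 4) (s t : ℝ) : ev j s + ev j t = ev j (s + t) := (PiLp.single_add ..).symm

theorem ev_zero (j : Fin 4) : ev j 0 = 0 := by simp [PiLp.single]

theorem mv_ev (j : Fin 4) (s t : ℝ) (F : MF) : mv (ev j s) (mv (ev j t) F) = mv (ev j (s + t)) F := by
  rw [mv_mv, ev_add]

theorem mv_comm (v w : R4) (F : MF) : mv v (mv w F) = mv w (mv v F) := by
  rw [mv_mv, mv_mv, add_comm]

theorem op_of {X : Type} {ψ ψ' : X → H} (hd : Dense (Submodule.span ℂ (Set.range ψ) : Set H))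
    {γ : ℝ} (γ0 : 0 ≤ γ) (h : ∀ z, ‖Finsupp.linearCombination ℂ ψ' z‖ ^ 2 ≤
      γ ^ 2 * ‖Finsupp.linearCombination ℂ ψ z‖ ^ 2) :
    ∃ K : H →L[ℂ] H, ‖K‖ ≤ γ ∧ ∀ x, K (ψ x) = ψ' x := by
  have h1 : DenseRange (Finsupp.linearCombination ℂ ψ) := by
    rwa [← Finsupp.range_linearCombination] at hd
  have h2 : ∀ z, ‖Finsupp.linearCombination ℂ ψ' z‖ ≤ γ * ‖Finsupp.linearCombination ℂ ψ z‖ :=
    fun z => by
      rw [← sq_le_sq₀ (norm_nonneg _) (by positivity), mul_pow]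
      exact h z
  refine ⟨_, LinearMap.opNorm_extendOfNorm_le h1 γ0 h2, fun x => ?_⟩
  simpa using LinearMap.extendOfNorm_eq h1 ⟨γ, h2⟩ (Finsupp.single x 1)

theorem Vc.dense' (hV : Vc m σ Ψ T) :
    Dense (Submodule.span ℂ (Set.range fun x : {F // PoM m F} => Ψ x) : Set H) := by
  exact Set.image_eq_range Ψ {F | PoM m F} ▸ hV.dense

theorem Vc.ext (hV : Vc m σ Ψ T) {K K' : H →L[ℂ] H} (h : ∀ B, PoM m B → K (Ψ B) = K' (Ψ B)) :
    K = K' := ContinuousLinearMap.ext_on hV.dense (by rintro _ ⟨B, hB, rfl⟩; exact h B hB)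

theorem Vc.ext2 (hV : Vc m σ Ψ T) {K K' : H →L[ℂ] H} (h : ∀ B B', PoM m B → PoM m B' →
    inner ℂ (Ψ B') (K (Ψ B)) = inner ℂ (Ψ B') (K' (Ψ B))) : K = K' := hV.ext fun B hB =>
  hV.dense.eq_of_inner_right ℂ fun _ hv => Submodule.span_induction
    (by rintro _ ⟨B', hB', rfl⟩; exact h B B' hB hB') (by simp)
    (fun _ _ _ _ e e' => by rw [inner_add_left, inner_add_left, e, e'])
    (fun _ _ _ e => by rw [inner_smul_left, inner_smul_left, e]) hv

theorem PoM.ev_add {F B : MF} (hF : PoM m F) (hB : PoM m B) :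
    ∀ᶠ t in atTop, PoM m (F + YM9.mv (ev 0 t) B) :=
  ((hF.1.ev_add hB.1).and hB.1.ev_pos).mono fun _ e => ⟨e.1, su_add.2 ⟨hF.2, e.2.2⟩⟩

theorem su_ball {k : ℕ} {R δ : ℝ} {f : Fin k → R4 → ℝ} {L : Fin k → NNReal} (h : Lq m R δ f L) :
    Su {y | ‖y‖ ≤ R} (mf f) := forall_mf.2 fun i =>
  closure_minimal (h.2.1 i).2 (isClosed_le continuous_norm continuous_const)

theorem pom_ball {F B : MF} {R r s : ℝ} (hF : AdM m F) (h : Su {y | ‖y‖ ≤ R} F) (hr : R < r)
    (hs : r + R < s) (h0 : 0 ≤ s) (hB : PoM m B) :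
    PoM m (mv (ev 0 r) F) ∧ PoM m (mv (ev 0 r) F + mv (ev 0 s) B) := by
  have e : Su {y | 0 < y 0 ∧ y 0 ≤ s} (mv (ev 0 r) F) := (h.mv _).mono fun y hy => by
    have := abs_le.1 ((PiLp.norm_apply_le (y - ev 0 r) 0).trans hy)
    simp only [PiLp.sub_apply, PiLp.single_apply, if_true] at this
    exact ⟨by linarith, by linarith⟩
  have e1 := e.mono (O' := {y | 0 < y 0}) fun _ hy => hy.1
  exact ⟨⟨hF.mv _, e1⟩, (hF.mv _).add_time (hB.1.mv _) (t := s) (e.mono fun _ hy => hy.2)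
    ((hB.2.mv _).mono fun y hy => by simpa using hy), su_add.2 ⟨e1, (hB.mv (single_nonneg h0)).2⟩⟩

theorem shift_eq (r t : ℝ) (F B B' : MF) :
    mv (ev 0 (-r)) (mr 0 (mv (ev 0 (t - r)) B') + (mv (ev 0 r) F + mv (ev 0 (t + r)) B)) =
      mr 0 (mv (ev 0 t) B') + F + mv (ev 0 t) B := by
  simp only [mv_add, mr_mv, rf_ev, mv_ev, add_assoc]
  rw [neg_add_cancel, ev_zero, mv_zero, show -r + -(t - r) = -t by ring,
    show -r + (t + r) = t by ring]

theorem qf_qm (σ : MF → ℝ) {X : Type} (B : X → MF) (s : Finset X) (c : X → ℝ) :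
    YM7.qf (fun x y => σ (mr 0 (B x) + B y)) s c = qm σ 0 (fun x : s => B x) fun x => c x := by
  rw [YM7.qf, qm, ← s.sum_coe_sort]
  exact sum_congr rfl fun a _ => (s.sum_coe_sort _).symm

attribute [local irreducible] mv mr mf

variable (hO : Os m σ) (hS : Sg m C (Ψ 0) T) (hP : Pj T P) (hV : Vc m σ Ψ T)
include hO hV

theorem exists_phi0 (k : ℕ) (R δ : ℝ) (hδ : 0 < δ) : ∃ γ r s : ℝ, 0 ≤ s ∧
    ∀ (f : Fin k → R4 → ℝ) L, Lq m R δ f L → PoM m (mv (ev 0 r) (mf f)) ∧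
      ∃ K : H →L[ℂ] H, ‖K‖ ≤ γ * ∏ i, L i ∧ ∀ B, PoM m B →
        PoM m (mv (ev 0 r) (mf f) + mv (ev 0 s) B) ∧
          K (Ψ B) = Ψ (mv (ev 0 r) (mf f) + mv (ev 0 s) B) := by
  obtain ⟨γ, r, s, γ0, h1, h2, h3⟩ := hO.op k |R| δ hδ
  have s0 : 0 ≤ s := by linarith [abs_nonneg R]
  refine ⟨γ, r, s, s0, fun f L hf => ?_⟩
  replace hf : Lq m |R| δ f L :=
    ⟨hf.1, fun i => ⟨(hf.2.1 i).1, fun y hy => ((hf.2.1 i).2 y hy).trans (le_abs_self _)⟩, hf.2.2⟩
  have p := fun B => pom_ball (B := B) (adm_mf.2 hf.1) (su_ball hf) h1 h2 s0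
  refine ⟨(p 0 pom_nil).1, ?_⟩
  obtain ⟨K, k1, k2⟩ := op_of hV.dense' (γ := γ * ∏ i, L i) (by positivity)
    (ψ' := fun x : {F // PoM m F} => Ψ (mv (ev 0 r) (mf f) + mv (ev 0 s) x.1)) fun z => by
      rw [YM7.norm_lc fun x y : {F // PoM m F} => hV.inn (p _ x.2).2 (p _ y.2).2,
        YM7.norm_lc fun x y : {F // PoM m F} => hV.inn x.2 y.2, mul_add]
      simp only [qf_qm σ (X := {F // PoM m F})]
      exact add_le_add (h3 f L hf (fun x : z.support => x.1.2) _)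
        (h3 f L hf (fun x : z.support => x.1.2) _)
  exact ⟨K, k1, fun B hB => ⟨(p B hB).2, k2 ⟨B, hB⟩⟩⟩

theorem sig_eq {F B B' : MF} {r t : ℝ} (h1 : PoM m (mv (ev 0 (t - r)) B'))
    (h2 : PoM m (mv (ev 0 r) F + mv (ev 0 (t + r)) B)) :
    (σ (mr 0 (mv (ev 0 t) B') + F + mv (ev 0 t) B) : ℂ) =
      inner ℂ (Ψ (mv (ev 0 (t - r)) B')) (Ψ (mv (ev 0 r) F + mv (ev 0 (t + r)) B)) := by
  rw [hV.inn h1 h2, ← hO.trans (h1.rp h2) (ev 0 (-r)), shift_eq]

include hS hP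

theorem exists_phi {F : MF} (hF : PoM m F) : ∃ K : H →L[ℂ] H, K * P = K ∧ ∀ B, PoM m B →
    Tendsto (fun t => Ψ (F + mv (ev 0 t) B)) atTop (𝓝 (K (Ψ B))) := by
  obtain ⟨k, g, hg⟩ := exists_mf (mr 0 F + F)
  obtain ⟨R, δ, L, δ0, h1⟩ := Adm.lq (adm_mf.1 (hg ▸ hF.rp hF))
  obtain ⟨γ, r, s, s0, h2⟩ := exists_phi0 hO hV k R δ δ0
  obtain ⟨-, K, -, h3⟩ := h2 g L h1
  obtain ⟨D, -, hD⟩ := hF.1.ball
  obtain ⟨t, t0, t1, t2, t3⟩ := ((eventually_ge_atTop 0).and ((eventually_ge_atTop r).and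
    ((eventually_ge_atTop (s - r)).and (eventually_ge_atTop D)))).exists
  have n1 := single_nonneg (sub_nonneg.2 t1)
  have n2 := single_nonneg (show 0 ≤ t + r - s by linarith)
  have p : ∀ B, PoM m B → PoM m (F + mv (ev 0 t) B) := fun B hB => ⟨hF.1.add_time (hB.1.mv _)
    (t := t) (hD.mono fun y hy => (le_abs_self _).trans ((PiLp.norm_apply_le y 0).trans
      (le_trans hy t3))) ((hB.2.mv _).mono fun y hy => by simpa using hy),
    su_add.2 ⟨hF.2, (hB.mv (single_nonneg t0)).2⟩⟩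
  have e : ∀ x y : {F // PoM m F}, inner ℂ (Ψ (F + mv (ev 0 t) x)) (Ψ (F + mv (ev 0 t) y)) =
      inner ℂ (T (ev 0 (t - r)) (Ψ x)) (K (T (ev 0 (t + r - s)) (Ψ y))) := fun x y => by
    have h4 := h3 _ (y.2.mv n2)
    rw [mv_ev, add_sub_cancel] at h4
    rw [hV.sh x.2 n1, hV.sh y.2 n2, h4.2, ← sig_eq hO hV (x.2.mv n1) h4.1, hg,
      hV.inn (p _ x.2) (p _ y.2), mr_add]
    congr 2
    abel
  obtain ⟨K', -, h5⟩ := op_of hV.dense' (γ := √‖K‖) (sqrt_nonneg _)
    (ψ' := fun x : {F // PoM m F} => Ψ (F + mv (ev 0 t) x.1)) fun z => by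
      have h6 : inner ℂ (Finsupp.linearCombination ℂ (fun x : {F // PoM m F} =>
          Ψ (F + mv (ev 0 t) x)) z) (Finsupp.linearCombination ℂ (fun x : {F // PoM m F} =>
          Ψ (F + mv (ev 0 t) x)) z) = inner ℂ (T (ev 0 (t - r))
            (Finsupp.linearCombination ℂ (fun x : {F // PoM m F} => Ψ x) z))
          (K (T (ev 0 (t + r - s))
            (Finsupp.linearCombination ℂ (fun x : {F // PoM m F} => Ψ x) z))) := by
        simp only [Finsupp.linearCombination_apply, Finsupp.sum, map_sum, map_smul, sum_inner,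
          inner_sum, inner_smul_left, inner_smul_right, e]
      generalize Finsupp.linearCombination ℂ (fun x : {F // PoM m F} => Ψ x) z = u at h6 ⊢
      rw [sq_sqrt (norm_nonneg _), ← inner_self_eq_norm_sq (𝕜 := ℂ), h6]
      have b1 := (T _).le_of_opNorm_le (hS.nrm _ n1) u
      have b2 := (T _).le_of_opNorm_le (hS.nrm _ n2) u
      rw [one_mul] at b1 b2
      refine (re_inner_le_norm _ _).trans ((mul_le_mul b1 ((K.le_opNorm _).trans
        (mul_le_mul_of_nonneg_left b2 (norm_nonneg _))) (norm_nonneg _) (norm_nonneg _)).trans_eq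
        (by ring))
  refine ⟨K' * P, by rw [mul_assoc, hP.idem], fun B hB => ?_⟩
  have h7 := (K'.continuous.tendsto _).comp ((((ContinuousLinearMap.apply ℂ H (Ψ B)).continuous.tendsto
    _).comp hP.lim).comp (tendsto_atTop_add_const_right _ (-t) tendsto_id))
  refine h7.congr' ((eventually_ge_atTop t).mono fun u hu => ?_)
  have n3 := single_nonneg (show 0 ≤ u + -t by linarith)
  simp only [comp, ContinuousLinearMap.apply_apply, id]
  rw [hV.sh hB n3, h5 ⟨_, hB.mv n3⟩, mv_ev, add_add_neg_cancel'_right]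

theorem exists_ops : ∃ φ A, Ops m σ Ψ T P φ A := by
  classical
  choose φ0 f1 f2 using fun F : {F // PoM m F} => exists_phi hO hS hP hV F.2
  obtain ⟨φ, fx, fl⟩ : ∃ φ : MF → H →L[ℂ] H, (∀ F, φ F * P = φ F) ∧ ∀ {F B}, PoM m F → PoM m B →
      Tendsto (fun t => Ψ (F + mv (ev 0 t) B)) atTop (𝓝 (φ F (Ψ B))) :=
    ⟨fun F => if h : PoM m F then φ0 ⟨F, h⟩ else 0, fun F => by
      beta_reduce
      split_ifs
      exacts [f1 _, zero_mul _], fun {F B} hF hB => by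
      simp only [dif_pos hF]
      exact f2 ⟨F, hF⟩ B hB⟩
  have pt : ∀ {t}, 0 ≤ t → P * T (ev 0 t) = P := fun ht => by
    rw [← hP.comm _ (single_nonneg ht), hP.fix _ ht]
  have lp : ∀ (x : H) (r : ℝ), Tendsto (fun t => T (ev 0 (t - r)) x) atTop (𝓝 (P x)) := fun x r =>
    (((ContinuousLinearMap.apply ℂ H x).continuous.tendsto _).comp hP.lim).comp
      (tendsto_atTop_add_const_right _ (-r) tendsto_id)
  have sh : ∀ {F v}, PoM m F → 0 ≤ v 0 → T v * φ F = φ (mv v F) * T v := fun {F v} hF hv =>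
    hV.ext fun B hB => tendsto_nhds_unique (((T v).continuous.tendsto _).comp (fl hF hB)) <| by
      rw [mul_apply_eq_comp, hV.sh hB hv]
      refine (fl (hF.mv hv) (hB.mv hv)).congr' ((hF.ev_add hB).mono fun t ht => ?_)
      rw [comp, hV.sh ht hv, mv_add, mv_comm v]
  have sh0 : ∀ {F t}, PoM m F → 0 ≤ t → φ (mv (ev 0 t) F) = T (ev 0 t) * φ F := fun hF ht => by
    rw [sh hF (single_nonneg ht), ← fx (mv _ _), mul_assoc, pt ht]
  choose ρ hρ using fun F : {F // AdM m F} => F.2.ev_pos.exists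
  obtain ⟨A, hA⟩ : ∃ A : MF → H →L[ℂ] H, ∀ {F} r, AdM m F → PoM m (mv (ev 0 r) F) →
      A F = P * φ (mv (ev 0 r) F) := by
    have key : ∀ {F r r'}, r ≤ r' → PoM m (mv (ev 0 r) F) →
        P * φ (mv (ev 0 r') F) = P * φ (mv (ev 0 r) F) := fun {F r r'} h1 h2 => by
      rw [← sub_add_cancel r' r, ← mv_ev, sh0 h2 (sub_nonneg.2 h1), ← mul_assoc,
        pt (sub_nonneg.2 h1)]
    refine ⟨fun F => if h : AdM m F then P * φ (mv (ev 0 (ρ ⟨F, h⟩)) F) else 0,
      fun {F} r hF hr => ?_⟩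
    simp only [dif_pos hF]
    exact (le_total r (ρ ⟨F, hF⟩)).elim (key · hr) fun e => (key e (hρ ⟨F, hF⟩)).symm
  have pro : ∀ {F}, PoM m F → P * φ F = A F := fun {F} hF => by
    rw [hA 0 hF.1 (by rwa [ev_zero, mv_zero]), ev_zero, mv_zero]
  have ad : ∀ x y, inner ℂ (P x) y = inner ℂ x (P y) := fun x y => by
    rw [← ContinuousLinearMap.adjoint_inner_right, ← ContinuousLinearMap.star_eq_adjoint, hP.adj]
  have lim : ∀ {F B B'}, AdM m F → PoM m B → PoM m B' →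
      Tendsto (fun t => (σ (mr 0 (mv (ev 0 t) B') + F + mv (ev 0 t) B) : ℂ)) atTop
        (𝓝 (inner ℂ (Ψ B') (A F (Ψ B)))) := fun {F B B'} hF hB hB' => by
    obtain ⟨r, hr⟩ := hF.ev_pos.exists
    have q := tendsto_atTop_add_const_right atTop r tendsto_id
    rw [hA r hF hr, mul_apply_eq_comp, ← ad]
    refine ((lp _ r).inner ((fl hr hB).comp q)).congr' ?_
    filter_upwards [eventually_ge_atTop r, q.eventually (hr.ev_add hB)] with t h1 h2
    have n1 := single_nonneg (sub_nonneg.2 h1)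
    rw [sig_eq hO hV (hB'.mv n1) h2, hV.sh hB' n1]
    rfl
  have evA : ∀ {F B B'}, AdM m F → PoM m B → PoM m B' →
      ∀ᶠ t in atTop, AdM m (mr 0 (mv (ev 0 t) B') + F + mv (ev 0 t) B) :=
    fun {F B B'} hF hB hB' => by
      obtain ⟨r, hr⟩ := hF.ev_pos.exists
      filter_upwards [eventually_ge_atTop r, (tendsto_atTop_add_const_right atTop r
        tendsto_id).eventually (hr.ev_add hB)] with t h1 h2
      exact shift_eq r t F B B' ▸
        ((hB'.mv (single_nonneg (sub_nonneg.2 h1))).rp h2).mv (ev 0 (-r))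
  have time : ∀ {F}, AdM m F → ∀ t, A (mv (ev 0 t) F) = A F := fun {F} hF t => by
    obtain ⟨r, hr⟩ := (hF.mv (ev 0 t)).ev_pos.exists
    rw [hA r (hF.mv _) hr, mv_ev] at *
    exact (hA _ hF hr).symm
  have inn : ∀ {F G}, PoM m F → PoM m G → star (φ F) * φ G = A (mr 0 F + G) := fun {F G} hF hG =>
    hV.ext2 fun B B' hB hB' => by
      rw [mul_apply_eq_comp, ContinuousLinearMap.star_eq_adjoint,
        ContinuousLinearMap.adjoint_inner_right]
      refine tendsto_nhds_unique ((fl hF hB').inner (fl hG hB)) ((lim (hF.rp hG) hB hB').congr' ?_)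
      filter_upwards [hF.ev_add hB', hG.ev_add hB] with t h1 h2
      rw [hV.inn h1 h2, mr_add]
      congr 2
      abel
  have adj : ∀ {F}, AdM m F → star (A F) = A (mr 0 F) := fun {F} hF =>
    hV.ext2 fun B B' hB hB' => by
      rw [ContinuousLinearMap.star_eq_adjoint, ContinuousLinearMap.adjoint_inner_right,
        ← inner_conj_symm]
      refine tendsto_nhds_unique ((Complex.continuous_conj.tendsto _).comp (lim hF hB' hB))
        ((lim (hF.mr 0) hB hB').congr' ((evA hF hB' hB).mono fun t ht => ?_))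
      rw [comp, Complex.conj_ofReal, ← hO.refl ht 0, mr_add, mr_add, mr_mr]
      congr 2
      abel
  refine ⟨φ, A, fun {F} hF => tendsto_nhds_unique (fl hF pom_nil) (by simp), pro, fx,
    hV.ext fun B hB => tendsto_nhds_unique (fl pom_nil hB) ((lp (Ψ B) 0).congr'
      ((eventually_ge_atTop 0).mono fun t ht => by
        simp only [sub_zero, hV.sh hB (single_nonneg ht), zero_add])), sh, inn, lim,
    fun {F} hF => ?_, adj, time, fun {F v} hF hv => ?_, fun {F G} hF hG => ?_,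
    fun {F} hF => hV.ext2 fun B B' hB hB' => ?_,
    fun {F f g} hf hg => hV.ext2 fun B B' hB hB' => ?_, fun k R δ hδ => ?_⟩
  · obtain ⟨r, hr⟩ := hF.ev_pos.exists
    rw [hA r hF hr, ← mul_assoc, hP.idem, mul_assoc, fx]
    exact ⟨rfl, rfl⟩
  · obtain ⟨r, hr⟩ := hF.ev_pos.exists
    have h1 := hr.mv hv.ge
    rw [hA r hF hr, hA r (hF.mv v) (mv_comm v _ F ▸ h1), ← mv_comm v, mul_assoc, ← sh hr hv.ge,
      ← mul_assoc, ← hP.comm _ hv.ge, mul_assoc]
  · obtain ⟨r, h1, h2⟩ := ((hF.mr 0).ev_pos.and hG.ev_pos).exists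
    have h3 := (((hP.lim.comp (tendsto_atTop_add_const_right _ (-(2 * r)) tendsto_id)).mul_const
      (φ (mv (ev 0 r) G))).const_mul (star (φ (mv (ev 0 r) (mr 0 F)))))
    have h4 : star (φ (mv (ev 0 r) (mr 0 F))) * (P * φ (mv (ev 0 r) G)) = A F * A G := by
      rw [← mr_mr 0 F, ← adj (hF.mr 0), mr_mr, hA r (hF.mr 0) h1, hA r hG h2, star_mul, hP.adj,
        mul_assoc, ← mul_assoc P, hP.idem]
    rw [h4] at h3
    refine h3.congr' ?_
    filter_upwards [eventually_ge_atTop (2 * r), hF.ev_add hG] with t h5 h6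
    have n := show 0 ≤ t + -(2 * r) by linarith
    rw [comp, id, ← sh0 h2 n, inn h1 (h2.mv (single_nonneg n)), ← time h6 (-r)]
    simp only [mv_add, mr_mv, rf_ev, mv_ev, mr_mr]
    congr 4
    ring
  · have h1 : AdM m (0 ::ₘ F) := adm_cons.2 ⟨⟨HasCompactSupport.zero, contDiff_const⟩, hF,
      fun g _ x hx => by simp at hx⟩
    refine tendsto_nhds_unique (lim h1 hB hB') (tendsto_const_nhds.congr'
      ((evA hF hB hB').mono fun t ht => ?_))
    simp [Multiset.add_cons, Multiset.cons_add, hO.zero ht]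
  · have h1 := adm_cons.1 hf
    have h2 := adm_cons.1 hg
    have h3 : AdM m ((f + g) ::ₘ F) := adm_cons.2 ⟨⟨h1.1.1.add h2.1.1, h1.1.2.add h2.1.2⟩, h1.2.1,
      fun u hu x hx => (tsupport_add f g hx).elim (h1.2.2 u hu x) (h2.2.2 u hu x)⟩
    rw [add_apply, inner_add_right]
    refine tendsto_nhds_unique (lim h3 hB hB') (((lim hf hB hB').add (lim hg hB hB')).congr' ?_)
    filter_upwards [evA hf hB hB', evA hg hB hB'] with t e1 e2
    simp only [Multiset.add_cons, Multiset.cons_add] at e1 e2 ⊢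
    rw [hO.add e1 e2, Complex.ofReal_add]
  · obtain ⟨γ, r, s, s0, h1⟩ := exists_phi0 hO hV k R δ hδ
    refine ⟨γ, fun f L hf => ?_⟩
    obtain ⟨h2, K, h3, h4⟩ := h1 f L hf
    have n : ‖P‖ ≤ 1 := le_of_tendsto hP.lim.norm
      ((eventually_ge_atTop 0).mono fun t ht => hS.nrm _ (single_nonneg ht))
    have e : φ (mv (ev 0 r) (mf f)) = K * P := hV.ext fun B hB =>
      tendsto_nhds_unique (fl h2 hB) (((K.continuous.tendsto _).comp (lp (Ψ B) s)).congr'
        ((eventually_ge_atTop s).mono fun t ht => by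
          have n3 := single_nonneg (sub_nonneg.2 ht)
          rw [comp, hV.sh hB n3, (h4 _ (hB.mv n3)).2, mv_ev, add_sub_cancel]))
    rw [hA r (adm_mf.2 hf.1) h2, e]
    refine (norm_mul_le _ _).trans ((mul_le_of_le_one_left (norm_nonneg _) n).trans
      ((norm_mul_le _ _).trans ((mul_le_of_le_one_right (norm_nonneg _) n).trans h3)))

end Pool.Agent.Lib.MP_7f377f_mp.YM9
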