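import Pool.Agent.Lib.MP_7f377f_mp.CuD2

/-! A pure vacuum: reflection positivity in a spatial direction makes the thin fields commute. -/

noncomputable section

namespace Pool.Agent.Lib.MP_7f377f_mp.YM9

open MeasureTheory Filter Topology Function Real Finset
open RGP (BM)

set_option linter.unusedSectionVars false

variable {H : Type} [NormedAddCommGroup H] [InnerProductSpace ℂ H] [CompleteSpace H]
  {m C : ℝ} {Ω χ : H} {T : R4 → H →L[ℂ] H} {P : H →L[ℂ] H} {σ : MF → ℝ} {Ψ : MF → H}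
  {φ A : MF → H →L[ℂ] H}

namespace CuF

variable {F G X Y Z : MF} {j : Fin 4} {r r' : ℝ}

/-- the rotation by a half turn in the plane `0 j` -/
def pi (j : Fin 4) (F : MF) : MF := mr 0 (mr j F)

theorem pi_pi (j : Fin 4) (F : MF) : pi j (pi j F) = F := by
  rw [pi, pi, mr_comm j 0, mr_mr, mr_mr]

theorem pi_add (j : Fin 4) (F G : MF) : pi j (F + G) = pi j F + pi j G := by
  simp [pi]

theorem pi_sp (hj : j ≠ 0) (s : ℝ) (F : MF) :
    pi j (mv (ev j s) F) = mv (ev j (-s)) (pi j F) := by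
  rw [pi, mr_mv, rf_ev, mr_mv, rf_ev' hj.symm, pi]

theorem pi_tm (hj : j ≠ 0) (s : ℝ) (F : MF) :
    pi j (mv (ev 0 s) F) = mv (ev 0 (-s)) (pi j F) := by
  rw [pi, mr_mv, rf_ev' hj, mr_mv, rf_ev, pi]

theorem ev_add (j : Fin 4) (s t : ℝ) : ev j s + ev j t = ev j (s + t) := by
  ext l
  by_cases h : l = j <;> simp [h]

theorem ev_zero (j : Fin 4) : ev j 0 = 0 := by simp

theorem ev_sp (hj : j ≠ 0) (s : ℝ) : ev j s 0 = 0 := by simp [hj.symm]

theorem thin_mr (h : Thin m r F) (i : Fin 4) : Thin m r (mr i F) :=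
  ⟨h.1.mr i, (h.2.mr i).mono fun y hy l hl => by
    have := hy l hl
    rw [rf_apply] at this
    split_ifs at this
    · rwa [abs_neg] at this
    · exact this⟩

theorem thin_pi (h : Thin m r F) (j : Fin 4) : Thin m r (pi j F) := thin_mr (thin_mr h j) 0

theorem thin_tm (h : Thin m r F) (t : ℝ) : Thin m r (mv (ev 0 t) F) :=
  ⟨h.1.mv _, (h.2.mv _).mono fun y hy l hl => by simpa [hl] using hy l hl⟩

theorem thin_mono (h : Thin m r F) (e : r ≤ r') : Thin m r' F :=
  ⟨h.1, h.2.mono fun _ hy l hl => (hy l hl).trans_le e⟩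

theorem thin_sp (h : Thin m r F) (j : Fin 4) {s : ℝ} (hs : |s| < r') :
    Thin m (r + r') (mv (ev j s) F) :=
  ⟨h.1.mv _, (h.2.mv _).mono fun y hy l hl => by
    have h1 := hy l hl
    have h2 : 0 < r' := (abs_nonneg _).trans_lt hs
    by_cases e : l = j
    · subst e
      simp only [PiLp.sub_apply, PiLp.single_apply, if_true] at h1
      rw [abs_lt] at h1 hs ⊢
      constructor <;> linarith [h1.1, h1.2, hs.1, hs.2]
    · simp only [PiLp.sub_apply, PiLp.single_apply, if_neg e, sub_zero] at h1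
      linarith⟩

theorem thin_add (hX : Thin m r X) (hY : Thin m r Y) :
    ∀ᶠ t in atTop, Thin m r (X + mv (ev 0 t) Y) :=
  (hX.1.ev_add hY.1).mono fun t ht => ⟨ht, su_add.2 ⟨hX.2, (thin_tm hY t).2⟩⟩

theorem thin_half (h : Thin m (m / 8) F) (hj : j ≠ 0) {u : ℝ} (hu : |u| < m / 8) :
    Half m j (mv (ev j (m / 4 + u)) F) :=
  ⟨h.1.mv _, (h.2.mv _).mono fun y hy => by
    have h1 := hy j hj
    simp only [PiLp.sub_apply, PiLp.single_apply, if_true] at h1
    rw [abs_lt] at h1 hu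
    constructor <;> linarith [h1.1, h1.2, hu.1, hu.2]⟩

theorem half_tm (h : Half m j F) (hj : j ≠ 0) (t : ℝ) : Half m j (mv (ev 0 t) F) :=
  ⟨h.1.mv _, (h.2.mv _).mono fun y hy => by simpa [hj] using hy⟩

theorem half_adm (hF : Half m j F) (hG : Half m j G) : AdM m (mr j F + G) :=
  adm_add.2 ⟨hF.1.mr j, hG.1, fun f hf g hg x hx y hy z _ e => by
    have h1 := (hF.2.mr j) f hf hx
    have h2 := hG.2 g hg hy
    simp only [Set.mem_ofPred_eq, rf_apply, if_true] at h1 h2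
    have h3 : x j = y j + m * z j := by simp [e, pt]
    have m0 : 0 < m := by linarith [h2.1, h2.2]
    have h4 : (z j : ℝ) < 0 := by
      by_contra h5
      nlinarith [h1.1, h2.1, mul_nonneg m0.le (not_lt.1 h5)]
    have h5 : (-1 : ℝ) < z j := by
      by_contra h5
      nlinarith [h1.2, h2.2, mul_le_mul_of_nonneg_left (not_lt.1 h5) m0.le]
    have h6 : z j < 0 := by exact_mod_cast h4
    have h7 : -1 < z j := by exact_mod_cast h5
    omega⟩

theorem p_vac (hS : Sg m C Ω T) (hP : Pj T P) : P Ω = Ω := by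
  have h1 : Tendsto (fun t => T (ev 0 t) Ω) atTop (𝓝 (P Ω)) :=
    ((ContinuousLinearMap.apply ℂ H Ω).continuous.tendsto P).comp hP.lim
  refine tendsto_nhds_unique h1 (tendsto_const_nhds.congr' ?_)
  exact (eventually_ge_atTop 0).mono fun t ht => (hS.vac _ (by simpa using ht)).symm

theorem sig_eq (hA : Ops m σ Ψ T P φ A) (hF : AdM m F) :
    (σ F : ℂ) = inner ℂ (Ψ 0) (A F (Ψ 0)) := by
  have := hA.lim hF pom_nil pom_nil
  simp only [mv_nil, mr_nil, zero_add, add_zero] at this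
  exact tendsto_nhds_unique tendsto_const_nhds this

theorem inn_adj (hA : Ops m σ Ψ T P φ A) (hF : AdM m F) (x y : H) :
    inner ℂ x (A F y) = inner ℂ (A (mr 0 F) x) y := by
  rw [← hA.adj hF, ContinuousLinearMap.star_eq_adjoint, ContinuousLinearMap.adjoint_inner_left]

theorem mul_ap (hA : Ops m σ Ψ T P φ A) (hX : AdM m X) (hY : AdM m Y) (x : H) :
    Tendsto (fun t => A (X + mv (ev 0 t) Y) x) atTop (𝓝 (A X (A Y x))) :=
  ((ContinuousLinearMap.apply ℂ H x).continuous.tendsto _).comp (hA.mul hX hY)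

theorem sig_lim (hA : Ops m σ Ψ T P φ A) (hX : AdM m X) (hY : AdM m Y) :
    Tendsto (fun t => σ (X + mv (ev 0 t) Y)) atTop
      (𝓝 (inner ℂ (A (mr 0 X) (Ψ 0)) (A Y (Ψ 0))).re) := by
  have h1 := (Complex.continuous_re.tendsto _).comp
    (Tendsto.inner (𝕜 := ℂ) (tendsto_const_nhds (x := Ψ 0)) (mul_ap hA hX hY (Ψ 0)))
  rw [inn_adj hA hX] at h1
  refine h1.congr' ((hX.ev_add hY).mono fun t ht => ?_)
  simp only [comp_apply, ← sig_eq hA ht, Complex.ofReal_re]

theorem lim_nonneg {g : ℝ → ℝ} {L : ℝ} (h1 : ∀ t, g (-t) = g t) (h2 : Tendsto g atTop (𝓝 L))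
    (h3 : ∀ (N : ℕ) (q : ℝ), 0 ≤ ∑ i : Fin N, ∑ i' : Fin N, g (((i' : ℝ) - i) * q)) : 0 ≤ L := by
  have h4 : ∀ N : ℕ, 0 ≤ N * (g 0 - L) + N * N * L := fun N => by
    have h5 : ∀ i i' : Fin N, Tendsto (fun q => g (((i' : ℝ) - i) * q)) atTop
        (𝓝 ((if i = i' then g 0 - L else 0) + L)) := fun i i' => by
      rcases lt_trichotomy i i' with e | e | e
      · rw [if_neg e.ne, zero_add]
        refine h2.comp (tendsto_id.const_mul_atTop ?_)
        rw [sub_pos]
        exact_mod_cast e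
      · simp [e]
      · rw [if_neg e.ne', zero_add]
        have : Tendsto (fun q => g (((i : ℝ) - i') * q)) atTop (𝓝 L) := by
          refine h2.comp (tendsto_id.const_mul_atTop ?_)
          rw [sub_pos]
          exact_mod_cast e
        refine this.congr fun q => ?_
        rw [← h1]
        congr 1
        ring
    have h6 := ge_of_tendsto' (tendsto_finsetSum univ fun i _ =>
      tendsto_finsetSum univ fun i' _ => h5 i i') (h3 N)
    simp only [sum_add_distrib, sum_ite_eq, mem_univ, if_true, sum_const, card_univ,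
      Fintype.card_fin, nsmul_eq_mul] at h6
    linarith
  by_contra h5
  push Not at h5
  obtain ⟨N, hN⟩ := exists_nat_gt (max 0 ((g 0 - L) / (-L)))
  have N0 : (0 : ℝ) < N := (le_max_left _ _).trans_lt hN
  have h6 := (div_lt_iff₀ (neg_pos.2 h5)).1 ((le_max_right _ _).trans_lt hN)
  nlinarith [h4 N]

theorem rp_vac (hO : Os m σ) (hA : Ops m σ Ψ T P φ A) (hj : j ≠ 0) {B : Type} [Fintype B]
    {F : B → MF} (hF : ∀ a, Half m j (F a)) (c : B → ℝ) :
    0 ≤ ∑ a, ∑ b, c a * c b * (inner ℂ (A (pi j (F a)) (Ψ 0)) (A (F b) (Ψ 0))).re := by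
  refine lim_nonneg (g := fun t => ∑ a, ∑ b, c a * c b * σ (mr j (F a) + mv (ev 0 t) (F b)))
    (fun t => ?_) ?_ fun N q => ?_
  · rw [sum_comm]
    refine sum_congr rfl fun a _ => sum_congr rfl fun b _ => ?_
    have h1 := half_adm (hF b) (half_tm (hF a) hj (-t))
    rw [← hO.refl h1 j, ← hO.trans (h1.mr j) (ev 0 t), mr_add, mr_mr, mr_mv, rf_ev' hj, mv_add,
      mv_mv, ev_add, add_neg_cancel, ev_zero, mv_zero, add_comm, mul_comm (c b)]
  · exact tendsto_finsetSum _ fun a _ => tendsto_finsetSum _ fun b _ =>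
      (sig_lim hA ((hF a).1.mr j) (hF b).1).const_mul _
  · have h1 := hO.rp hj (A := Fin N × B) (F := fun x => mv (ev 0 (x.1 * q)) (F x.2))
      (fun x => half_tm (hF x.2) hj _) fun x => c x.2
    refine h1.trans_eq ?_
    simp only [qm, Fintype.sum_prod_type]
    refine sum_congr rfl fun i _ => ?_
    rw [sum_comm]
    refine sum_congr rfl fun i' _ => sum_congr rfl fun a _ => sum_congr rfl fun b _ => ?_
    rw [← hO.trans (half_adm (hF a) (half_tm (hF b) hj ((i' - i) * q))) (ev 0 (i * q)), mv_add,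
      mv_mv, ev_add, mr_mv, rf_ev' hj]
    congr 5
    ring

theorem v_sp (hS : Sg m C (Ψ 0) T) (hA : Ops m σ Ψ T P φ A) (hF : AdM m F) {v : R4}
    (hv : v 0 = 0) : A (mv v F) (Ψ 0) = T v (A F (Ψ 0)) := by
  have := congrArg (fun U : H →L[ℂ] H => U (Ψ 0)) (hA.space hF hv)
  simpa only [mul_apply_eq_comp, hS.vac v hv.ge] using this

theorem v_pro (hA : Ops m σ Ψ T P φ A) (hF : AdM m F) (x : H) : P (A F x) = A F x :=
  congrArg (fun U : H →L[ℂ] H => U x) (hA.pa hF).1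

theorem t_inn (hS : Sg m C Ω T) (hj : j ≠ 0) (s t : ℝ) (x y : H) :
    inner ℂ (T (ev j (-s)) x) (T (ev j t) y) = inner ℂ x (T (ev j (s + t)) y) := by
  have h1 : T (ev j t) = T (ev j (-s)) * T (ev j (s + t)) := by
    rw [← hS.add _ _ (ev_sp hj _).ge (ev_sp hj _).ge, ev_add, neg_add_cancel_left]
  have h2 := Unitary.star_mul_self_of_mem (hS.uni _ (ev_sp hj (-s)))
  rw [h1, ← ContinuousLinearMap.adjoint_inner_right, ← ContinuousLinearMap.star_eq_adjoint,
    ← mul_apply_eq_comp, ← mul_assoc, h2, one_mul]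

theorem v_pi (hO : Os m σ) (hS : Sg m C (Ψ 0) T) (hP : Pj T P) (hA : Ops m σ Ψ T P φ A)
    (hj : j ≠ 0) (hF : Thin m (m / 8) F) : A (pi j F) (Ψ 0) = A F (Ψ 0) := by
  have hF' := thin_pi hF j
  refine (sub_eq_zero.1 (hS.eq_zero hP hj (x := A F (Ψ 0) - A (pi j F) (Ψ 0)) (s := m / 2)
    (ε := m / 8) (by rw [map_sub, v_pro hA hF.1, v_pro hA hF'.1]) (by linarith [hS.m0])
    fun B _ c u hu => ?_)).symm
  have h1 := rp_vac hO hA hj (B := B × Bool)
    (F := fun x => mv (ev j (m / 4 + u x.1)) (if x.2 then pi j F else F))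
    (fun x => thin_half (by split_ifs; exacts [hF', hF]) hj (hu _))
    fun x => if x.2 then -c x.1 else c x.1
  simp only [Fintype.sum_prod_type, Fintype.sum_bool, if_true, Bool.false_eq_true, if_false,
    pi_sp hj, pi_pi, v_sp hS hA hF.1 (ev_sp hj _), v_sp hS hA hF'.1 (ev_sp hj _), t_inn hS hj,
    ← sum_add_distrib] at h1
  rw [← neg_nonneg, ← sum_neg_distrib]
  refine h1.trans_eq (sum_congr rfl fun a _ => ?_)
  rw [← sum_neg_distrib]
  refine sum_congr rfl fun b _ => ?_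
  rw [show m / 2 + u a + u b = m / 4 + u a + (m / 4 + u b) by ring]
  simp only [map_sub, inner_sub_left, inner_sub_right, Complex.sub_re]
  ring

theorem v_inv (hO : Os m σ) (hS : Sg m C (Ψ 0) T) (hP : Pj T P) (hA : Ops m σ Ψ T P φ A)
    (hF : Thin m (m / 16) F) (v : R4) (hv : 0 ≤ v 0) : T v (A F (Ψ 0)) = A F (Ψ 0) := by
  refine hS.fix_of hP (v_pro hA hF.1 _) (ε := m / 16) (by linarith [hS.m0]) (fun j hj s hs => ?_)
    v hv
  rw [← v_sp hS hA hF.1 (ev_sp hj _), ← v_pi hO hS hP hA hj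
    (thin_mono (thin_sp hF j hs) (by linarith)), pi_sp hj, v_sp hS hA (thin_pi hF j).1 (ev_sp hj _),
    v_pi hO hS hP hA hj (thin_mono hF (by linarith [hS.m0]))]

theorem comm_vac (hO : Os m σ) (hS : Sg m C (Ψ 0) T) (hP : Pj T P) (hA : Ops m σ Ψ T P φ A)
    (hX : Thin m (m / 8) X) (hY : Thin m (m / 8) Y) :
    A X (A Y (Ψ 0)) = A Y (A X (Ψ 0)) := by
  have hj : (1 : Fin 4) ≠ 0 := by decide
  have hY' := thin_pi hY 1
  have h1 := mul_ap hA hX.1 hY'.1 (Ψ 0)
  have h2 := mul_ap hA hY.1 (thin_pi hX 1).1 (Ψ 0)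
  rw [v_pi hO hS hP hA hj hY] at h1
  rw [v_pi hO hS hP hA hj hX] at h2
  refine tendsto_nhds_unique h1 (h2.congr' ((thin_add hX hY').mono fun t ht => ?_))
  beta_reduce
  rw [← v_pi hO hS hP hA hj ht, ← hA.time (thin_pi ht 1).1 t, pi_add, pi_tm hj, pi_pi, mv_add,
    mv_mv, ev_add, add_neg_cancel, ev_zero, mv_zero, add_comm]

theorem comm_thin (hO : Os m σ) (hS : Sg m C (Ψ 0) T) (hP : Pj T P) (hA : Ops m σ Ψ T P φ A)
    (hX : Thin m (m / 8) X) (hY : Thin m (m / 8) Y) (hZ : Thin m (m / 8) Z) :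
    A X (A Y (A Z (Ψ 0))) = A Y (A X (A Z (Ψ 0))) := by
  have h1 := ((A X).continuous.tendsto _).comp (mul_ap hA hY.1 hZ.1 (Ψ 0))
  have h2 := mul_ap hA hY.1 hZ.1 (A X (Ψ 0))
  rw [comm_vac hO hS hP hA hZ hX] at h2
  refine tendsto_nhds_unique h1 (h2.congr' ((thin_add hY hZ).mono fun t ht => ?_))
  exact comm_vac hO hS hP hA ht hX

end CuF

open CuF in
theorem exists_pv (hO : Os m σ) (hS : Sg m C (Ψ 0) T) (hP : Pj T P) (_hV : Vc m σ Ψ T)
    (hA : Ops m σ Ψ T P φ A) : ∃ χ, Pv m Ψ T P A χ := by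
  have m8 : m / 16 ≤ m / 8 := by linarith [hS.m0]
  set K : Submodule ℂ H :=
    Submodule.span ℂ (Set.range fun Z : {F // Thin m (m / 16) F} => A Z.1 (Ψ 0)) with hK
  have ind : ∀ {p : H → Prop}, (∀ Z, Thin m (m / 16) Z → p (A Z (Ψ 0))) → p 0 →
      (∀ x y, p x → p y → p (x + y)) → (∀ (c : ℂ) x, p x → p (c • x)) → ∀ x ∈ K, p x :=
    fun h1 h2 h3 h4 x hx => Submodule.span_induction (fun _ ⟨Z, e⟩ => e ▸ h1 Z.1 Z.2) h2
      (fun x y _ _ => h3 x y) (fun c x _ => h4 c x) hx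
  have gen : ∀ Z, Thin m (m / 16) Z → A Z (Ψ 0) ∈ K := fun Z hZ =>
    Submodule.subset_span ⟨⟨Z, hZ⟩, rfl⟩
  have pro : ∀ x ∈ K, P x = x := ind (fun Z hZ => v_pro hA hZ.1 _) (map_zero _)
    (fun x y hx hy => by rw [map_add, hx, hy]) fun c x hx => by rw [map_smul, hx]
  have := hP.fin
  have fin : FiniteDimensional ℂ K := Submodule.finiteDimensional_of_le
    (S₂ := LinearMap.range (P : H →ₗ[ℂ] H)) fun x hx => ⟨x, pro x hx⟩
  have t0 : Thin m (m / 16) 0 := ⟨adm_nil, su_nil⟩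
  have a0 : A 0 (Ψ 0) = Ψ 0 := by rw [← hA.pro pom_nil, hA.nil, hP.idem, p_vac hS hP]
  have ne : K ≠ ⊥ := fun e => by
    have h1 := gen 0 t0
    rw [e, a0, Submodule.mem_bot] at h1
    simpa [h1] using hS.one
  obtain ⟨χ, hχ, h1, h2⟩ := exists_joint ne (fun Z : {F // Thin m (m / 16) F} => A Z.1)
    (fun X => ind (fun Z hZ => K.closed_of_finiteDimensional.mem_of_tendsto
        (mul_ap hA X.2.1 hZ.1 (Ψ 0)) ((thin_add X.2 hZ).mono fun t ht => gen _ ht))
      (by simp) (fun x y hx hy => by rw [map_add]; exact K.add_mem hx hy)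
      fun c x hx => by rw [map_smul]; exact K.smul_mem c hx)
    fun X Y => ind (fun Z hZ => comm_thin hO hS hP hA (thin_mono X.2 m8) (thin_mono Y.2 m8)
        (thin_mono hZ m8)) (by simp) (fun x y hx hy => by simp only [map_add, hx, hy])
      fun c x hx => by simp only [map_smul, hx]
  refine ⟨χ, h1, pro χ hχ, fun v hv => ?_, fun e => ?_, ?_, fun hF => h2 ⟨_, hF⟩⟩
  · exact ind (p := fun x => T v x = x) (fun Z hZ => v_inv hO hS hP hA hZ v hv) (map_zero _)
      (fun x y hx hy => by rw [map_add, hx, hy]) (fun c x hx => by rw [map_smul, hx]) χ hχ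
  · have h3 := ind (p := fun x => inner ℂ χ x = 0) (fun Z hZ => by
        obtain ⟨c, hc⟩ := h2 ⟨_, thin_mr hZ 0⟩
        rw [inn_adj hA hZ.1, hc, inner_smul_left, e, mul_zero]) (inner_zero_right _)
      (fun x y hx hy => by rw [inner_add_right, hx, hy, add_zero])
      (fun c x hx => by rw [inner_smul_right, hx, mul_zero]) χ hχ
    rw [inner_self_eq_zero] at h3
    simp [h3] at h1
  · refine ind (p := fun x => x ∈ Submodule.span ℂ ((fun F => P (Ψ F)) '' {F | PoM m F}))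
      (fun Z hZ => ?_) (Submodule.zero_mem _) (fun _ _ => Submodule.add_mem _)
      (fun c _ => Submodule.smul_mem _ c) χ hχ
    obtain ⟨t, ht⟩ := hZ.1.ev_pos.exists
    refine Submodule.subset_span ⟨_, ht, ?_⟩
    beta_reduce
    rw [← hA.time hZ.1 t, ← hA.pro ht, mul_apply_eq_comp, hA.vac ht]

end Pool.Agent.Lib.MP_7f377f_mp.YM9
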