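import Pool.Agent.Lib.MP_7f377f_mp.YM9Defs

/-! Loop sums over permutations without fixed points and clustering of the free value. -/

set_option linter.unusedSectionVars false

noncomputable section

namespace Pool.Agent.Lib.MP_7f377f_mp.YM9.Fr

open MeasureTheory Filter Topology Function Real Equiv

variable {ι ι' A : Type} [Fintype ι] [DecidableEq ι] [Fintype ι'] [DecidableEq ι'] [Fintype A]

/-- the loop sum of a kernel -/
def lp (K : ι → ι → A → A → ℝ) : ℝ :=
  ∑ σ : Perm ι, if ∀ i, σ i ≠ i then (3 / 2) ^ σ.cycleType.card *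
    ∑ a : ι → A, ∏ i, K i (σ i) (a i) (a (σ i)) else 0

theorem cyc_emb (e : ι ↪ ι') {σ : Perm ι} {τ : Perm ι'} (h1 : ∀ x, τ (e x) = e (σ x))
    (h2 : ∀ y ∉ Set.range e, τ y = y) : τ.cycleType = σ.cycleType := by
  classical
  have : τ = σ.extendDomain (ofInjective e e.2) := Equiv.ext fun y => by
    by_cases hy : y ∈ Set.range e
    · obtain ⟨x, rfl⟩ := hy
      exact (h1 x).trans (Perm.extendDomain_apply_image σ (ofInjective e e.2) x).symm
    · exact (h2 y hy).trans (Perm.extendDomain_apply_not_subtype σ (ofInjective e e.2) hy).symm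
  rw [this, Perm.cycleType_extendDomain]

theorem lp_reindex (e : ι ≃ ι') (K : ι' → ι' → A → A → ℝ) :
    (lp fun i j => K (e i) (e j)) = lp K := by
  refine Fintype.sum_equiv e.permCongr _ _ fun σ => ?_
  have h1 : (e.permCongr σ).cycleType = σ.cycleType :=
    cyc_emb e.toEmbedding (fun x => by simp) fun y hy => (hy ⟨e.symm y, by simp⟩).elim
  refine if_congr ?_ ?_ rfl
  · rw [← e.forall_congr_right]; simp
  · rw [h1]
    congr 1
    refine Fintype.sum_equiv (e.arrowCongr (Equiv.refl A)) _ _ fun a => ?_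
    exact Fintype.prod_equiv e _ _ fun i => by simp

theorem lp_block {K : ι ⊕ ι' → ι ⊕ ι' → A → A → ℝ}
    (h : ∀ i j a b, K (.inl i) (.inr j) a b = 0) :
    lp K = (lp fun i j => K (.inl i) (.inl j)) * lp fun i j => K (.inr i) (.inr j) := by
  simp only [lp]
  rw [Finset.sum_mul_sum, ← Fintype.sum_prod_type']
  refine (Fintype.sum_of_injective (Perm.sumCongrHom ι ι') Perm.sumCongrHom_injective _ _
    (fun σ hσ => ?_) fun p => ?_).symm
  · have : ∃ i j, σ (.inl i) = .inr j := by
      by_contra! h0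
      refine hσ (Perm.mem_sumCongrHom_range_of_perm_mapsTo_inl ?_)
      rintro _ ⟨i, rfl⟩
      rcases hi : σ (.inl i) with j | j
      · exact ⟨j, rfl⟩
      · exact (h0 i j hi).elim
    obtain ⟨i, j, hij⟩ := this
    rw [Finset.sum_eq_zero fun a _ => Finset.prod_eq_zero (Finset.mem_univ (.inl i))
      (by rw [hij, h]), mul_zero, ite_self]
  obtain ⟨σ, τ⟩ := p
  have h1 : (Perm.sumCongr σ τ).cycleType = σ.cycleType + τ.cycleType := by
    have e : Perm.sumCongr σ τ = Perm.sumCongr σ 1 * Perm.sumCongr 1 τ := by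
      rw [Perm.sumCongr_mul, one_mul, mul_one]
    rw [e, Perm.Disjoint.cycleType_mul (by rintro (x | x) <;> simp),
      cyc_emb (σ := σ) Embedding.inl (fun x => rfl) (by rintro (x | x) <;> simp),
      cyc_emb (σ := τ) Embedding.inr (fun x => rfl) (by rintro (x | x) <;> simp)]
  simp only [Perm.sumCongrHom_apply, h1, Multiset.card_add, pow_add, Sum.forall,
    Perm.sumCongr_apply, Sum.map_inl, Sum.map_inr, ne_eq, Sum.inl.injEq, Sum.inr.injEq,
    Fintype.prod_sum_type, ite_zero_mul_ite_zero]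
  refine if_congr Iff.rfl ?_ rfl
  rw [mul_mul_mul_comm, Finset.sum_mul_sum, ← Fintype.sum_prod_type']
  congr 1
  exact Fintype.sum_equiv (sumArrowEquivProdArrow ι ι' A).symm _ _ fun a => rfl

theorem lp_tendsto {T : Type} {l : Filter T} {K : T → ι → ι → A → A → ℝ} {K0 : ι → ι → A → A → ℝ}
    (h : ∀ i j a b, Tendsto (fun t => K t i j a b) l (𝓝 (K0 i j a b))) :
    Tendsto (fun t => lp (K t)) l (𝓝 (lp K0)) := by
  refine tendsto_finsetSum _ fun σ _ => ?_
  split_ifs
  · exact (tendsto_finsetSum _ fun a _ => tendsto_finsetProd _ fun i _ => h _ _ _ _).const_mul _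
  · exact tendsto_const_nhds

theorem lp_bound {K : ι → ι → A → A → ℝ} {C : ℝ} (h : ∀ i j, j ≠ i → ∀ a b, |K i j a b| ≤ C) :
    |lp K| ≤ lp fun (_ _ : ι) (_ _ : A) => C := by
  refine (Finset.abs_sum_le_sum_abs _ _).trans (Finset.sum_le_sum fun σ _ => ?_)
  split_ifs with hσ
  · rw [abs_mul, abs_of_nonneg (by positivity)]
    refine mul_le_mul_of_nonneg_left ((Finset.abs_sum_le_sum_abs _ _).trans
      (Finset.sum_le_sum fun a _ => ?_)) (by positivity)
    rw [Finset.abs_prod]
    exact Finset.prod_le_prod (fun _ _ => abs_nonneg _) fun i _ => h _ _ (hσ i) _ _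
  · simp

theorem lp_sign (K : ι → ι → A → A → ℝ) {s : A → ℝ} (hs : ∀ a, s a * s a = 1) :
    (lp fun i j a b => s a * s b * K i j a b) = lp K := by
  refine Finset.sum_congr rfl fun σ _ => if_congr Iff.rfl (congrArg _ ?_) rfl
  refine Finset.sum_congr rfl fun a _ => ?_
  rw [Finset.prod_mul_distrib, Finset.prod_mul_distrib, σ.prod_comp Finset.univ (fun i => s (a i))
    (by simp), ← Finset.prod_mul_distrib]
  simp [hs]

theorem lp_meas {X : Type} [MeasurableSpace X] {K : X → ι → ι → A → A → ℝ}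
    (h : ∀ i j a b, Measurable fun x => K x i j a b) : Measurable fun x => lp (K x) := by
  refine Finset.measurable_sum _ fun σ _ => ?_
  split_ifs
  · exact (Finset.measurable_sum _ fun a _ => Finset.measurable_prod _ fun i _ =>
      h _ _ _ _).const_mul _
  · exact measurable_const

/-- the propagator of the field strength -/
def kk (v : R4) (a b : Fin 4 × Fin 4) : ℝ :=
  if a.1 < a.2 then (mirror v a.1 b.1 * mirror v a.2 b.2 - mirror v a.1 b.2 * mirror v a.2 b.1) /
    ‖v‖ ^ 4 else 0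

/-- the free correlation function for any index set -/
def fr (y : ι → R4) : ℝ := lp fun i j => kk (y j - y i)

theorem free_eq {k : ℕ} (y : Fin k → R4) : free y = fr y :=
  Finset.sum_congr rfl fun σ _ => by
    by_cases h : ∀ i, σ i ≠ i
    · rw [if_pos h, if_pos h]; rfl
    · rw [if_neg h, if_neg h]

theorem mirror_le (v : R4) (i j : Fin 4) : |mirror v i j| ≤ 3 := by
  have h1 : |v i| ≤ ‖v‖ := PiLp.norm_apply_le v i
  have h2 : |v j| ≤ ‖v‖ := PiLp.norm_apply_le v j
  refine (abs_sub _ _).trans ?_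
  have h3 : |2 * v i * v j / ‖v‖ ^ 2| ≤ 2 := by
    rw [abs_div, abs_mul, abs_mul, abs_two, abs_of_nonneg (sq_nonneg ‖v‖)]
    refine div_le_of_le_mul₀ (sq_nonneg _) zero_le_two ?_
    nlinarith [mul_le_mul h1 h2 (abs_nonneg _) (norm_nonneg _)]
  split_ifs <;> simp only [abs_one, abs_zero] <;> linarith

theorem kk_le (v : R4) (a b : Fin 4 × Fin 4) : |kk v a b| ≤ 18 / ‖v‖ ^ 4 := by
  unfold kk
  split_ifs
  · rw [abs_div, abs_of_nonneg (by positivity : 0 ≤ ‖v‖ ^ 4)]
    refine div_le_div_of_nonneg_right ((abs_sub _ _).trans ?_) (by positivity)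
    have := fun i j i' j' => mul_le_mul (mirror_le v i j) (mirror_le v i' j') (abs_nonneg _)
      (by norm_num)
    rw [abs_mul, abs_mul]
    linarith [this a.1 b.1 a.2 b.2, this a.1 b.2 a.2 b.1]
  · rw [abs_zero]; positivity

theorem kk_meas (a b : Fin 4 × Fin 4) : Measurable fun v => kk v a b := by
  unfold kk mirror
  split_ifs <;> fun_prop

theorem kk_far {T : Type} {l : Filter T} {v : T → R4} (h : Tendsto (fun t => ‖v t‖) l atTop)
    (a b : Fin 4 × Fin 4) : Tendsto (fun t => kk (v t) a b) l (𝓝 0) :=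
  squeeze_zero_norm (fun t => kk_le (v t) a b)
    (((tendsto_pow_atTop (by norm_num)).comp h).const_div_atTop 18)

theorem fr_meas : Measurable (fr : (ι → R4) → ℝ) :=
  lp_meas fun i j a b => (kk_meas a b).comp (by fun_prop)

theorem fr_le {δ : ℝ} (hδ : 0 < δ) {y : ι → R4} (h : ∀ i j, j ≠ i → δ ≤ ‖y j - y i‖) :
    |fr y| ≤ lp fun (_ _ : ι) (_ _ : Fin 4 × Fin 4) => 18 / δ ^ 4 :=
  lp_bound fun i j hij a b => (kk_le _ a b).trans (by gcongr; exact h i j hij)

/-- the free value for any index set -/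
def gv (f : ι → R4 → ℝ) : ℝ := ∫ y : ι → R4, (∏ i, f i (y i)) * fr y

theorem gv_reindex (e : ι ≃ ι') (f : ι' → R4 → ℝ) : gv (f ∘ e) = gv f := by
  rw [gv, gv, ← (volume_preserving_arrowCongr' e (MeasurableEquiv.refl R4)
    (MeasurePreserving.id _)).integral_comp']
  refine congrArg _ (funext fun y => ?_)
  have h : ∀ i, MeasurableEquiv.arrowCongr' e (MeasurableEquiv.refl R4) y (e i) = y i :=
    fun i => congrArg y (e.symm_apply_apply i)
  rw [fr, fr, ← lp_reindex e, ← e.prod_comp]
  simp only [h, comp]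

theorem gv_shift (f : ι → R4 → ℝ) (w : ι → R4) :
    (gv fun i y => f i (y - w i)) = ∫ y : ι → R4, (∏ i, f i (y i)) * fr (y + w) := by
  rw [gv, ← integral_add_right_eq_self _ w]
  simp

theorem exists_sep {f : ι → R4 → ℝ} (h1 : ∀ i, HasCompactSupport (f i))
    (h2 : Pairwise fun i j => Disjoint (tsupport (f i)) (tsupport (f j))) :
    ∀ᶠ δ in 𝓝[>] (0 : ℝ), ∀ i j, j ≠ i → ∀ x y, f i x ≠ 0 → f j y ≠ 0 → δ ≤ ‖y - x‖ := by
  refine eventually_all.2 fun i => eventually_all.2 fun j => eventually_all.2 fun hij => ?_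
  obtain ⟨r, r0, hr⟩ := Metric.exists_pos_forall_lt_edist (h1 j) (isClosed_tsupport _) (h2 hij)
  filter_upwards [Ioc_mem_nhdsGT (show (0 : ℝ) < r from r0)] with δ hδ x y hx hy
  have := hr y (subset_tsupport _ hy) x (subset_tsupport _ hx)
  rw [edist_nndist, ENNReal.coe_lt_coe, ← NNReal.coe_lt_coe, coe_nndist, dist_eq_norm] at this
  exact hδ.2.trans this.le

theorem gv_clus {f : ι → R4 → ℝ} {g : ι' → R4 → ℝ} (f1 : ∀ i, HasCompactSupport (f i))
    (f2 : ∀ i, Continuous (f i))
    (f3 : Pairwise fun i j => Disjoint (tsupport (f i)) (tsupport (f j)))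
    (g1 : ∀ i, HasCompactSupport (g i)) (g2 : ∀ i, Continuous (g i))
    (g3 : Pairwise fun i j => Disjoint (tsupport (g i)) (tsupport (g j)))
    {T : Type} {l : Filter T} [l.IsCountablyGenerated] {v w : T → R4}
    (h : Tendsto (fun t => ‖w t - v t‖) l atTop) :
    Tendsto (fun t => gv (Sum.elim (fun i y => f i (y - v t)) fun i y => g i (y - w t))) l
      (𝓝 (gv f * gv g)) := by
  obtain ⟨δ, ⟨d1, d2⟩, hδ⟩ := (((exists_sep f1 f3).and (exists_sep g1 g3)).and
    self_mem_nhdsWithin).exists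
  have hδ : 0 < δ := hδ
  set F : ι ⊕ ι' → R4 → ℝ := Sum.elim f g with hF
  have F1 : ∀ p, HasCompactSupport (F p) := by rintro (i | i); exacts [f1 i, g1 i]
  have F2 : ∀ p, Continuous (F p) := by rintro (i | i); exacts [f2 i, g2 i]
  obtain ⟨R, hR⟩ := (isCompact_iUnion F1).isBounded.exists_norm_le
  have hR' : ∀ p y, F p y ≠ 0 → ‖y‖ ≤ R := fun p y hy =>
    hR y (Set.mem_iUnion.2 ⟨p, subset_tsupport _ hy⟩)
  have e1 : ∀ t, gv (Sum.elim (fun i y => f i (y - v t)) fun i y => g i (y - w t)) =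
      ∫ y : ι ⊕ ι' → R4, (∏ p, F p (y p)) * fr (y + Sum.elim (fun _ => v t) fun _ => w t) :=
    fun t => by
      rw [← gv_shift]; congr 1; ext (i | i) <;> rfl
  have e2 : gv f * gv g = ∫ y : ι ⊕ ι' → R4, (∏ p, F p (y p)) *
      ((fr fun i => y (.inl i)) * fr fun i => y (.inr i)) := by
    rw [gv, gv, ← integral_prod_mul, ← (volume_measurePreserving_sumPiEquivProdPi_symm
      fun _ : ι ⊕ ι' => R4).integral_comp']
    refine congrArg _ (funext fun p => ?_)
    rw [Fintype.prod_sum_type, mul_mul_mul_comm]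
    rfl
  have far : ∀ x y : R4, ∀ t, ‖w t - v t‖ - ‖x‖ - ‖y‖ ≤ ‖y + w t - (x + v t)‖ := fun x y t => by
    have h1 := norm_sub_le (y + w t - (x + v t) + x) y
    have h2 := norm_add_le (y + w t - (x + v t)) x
    rw [show y + w t - (x + v t) + x - y = w t - v t by abel] at h1
    linarith
  have far' : ∀ x y : R4, Tendsto (fun t => ‖y + w t - (x + v t)‖) l atTop := fun x y =>
    tendsto_atTop_mono (far x y)
      (tendsto_atTop_add_const_right _ _ (tendsto_atTop_add_const_right _ _ h))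
  simp only [e1, e2]
  refine tendsto_integral_filter_of_dominated_convergence (fun y => |∏ p, F p (y p)| *
    lp fun (_ _ : ι ⊕ ι') (_ _ : Fin 4 × Fin 4) => 18 / δ ^ 4) (.of_forall fun t => ?_) ?_ ?_
    (.of_forall fun y => .const_mul _ ?_)
  · exact ((Finset.measurable_prod _ fun p _ => (F2 p).measurable.comp
      (measurable_pi_apply p)).mul (fr_meas.comp (measurable_add_const _))).aestronglyMeasurable
  · filter_upwards [h.eventually_ge_atTop (δ + 2 * R)] with t ht
    refine .of_forall fun y => ?_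
    by_cases h0 : ∏ p, F p (y p) = 0
    · simp [h0]
    have h1 := fun p => Finset.prod_ne_zero_iff.1 h0 p (Finset.mem_univ p)
    rw [Real.norm_eq_abs, abs_mul]
    refine mul_le_mul_of_nonneg_left (fr_le hδ ?_) (abs_nonneg _)
    rintro (i | i) (j | j) hij <;> simp only [Pi.add_apply, Sum.elim_inl, Sum.elim_inr]
    · rw [add_sub_add_right_eq_sub]
      exact d1 i j (fun e => hij (congrArg _ e)) _ _ (h1 (.inl i)) (h1 (.inl j))
    · linarith [far (y (.inl i)) (y (.inr j)) t, hR' _ _ (h1 (.inl i)), hR' _ _ (h1 (.inr j))]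
    · rw [norm_sub_rev]
      linarith [far (y (.inl j)) (y (.inr i)) t, hR' _ _ (h1 (.inl j)), hR' _ _ (h1 (.inr i))]
    · rw [add_sub_add_right_eq_sub]
      exact d2 i j (fun e => hij (congrArg _ e)) _ _ (h1 (.inr i)) (h1 (.inr j))
  · exact (Integrable.fintype_prod fun p =>
      (F2 p).integrable_of_hasCompactSupport (F1 p)).abs.mul_const _
  · have := lp_block (K := fun p q : ι ⊕ ι' =>
      if p.isLeft = q.isLeft then kk (y q - y p) else fun _ _ => 0) fun _ _ _ _ => rfl
    refine (lp_tendsto ?_).mono_right (congrArg 𝓝 this).le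
    rintro (i | i) (j | j) a b <;> simp only [Pi.add_apply, Sum.elim_inl, Sum.elim_inr]
    · simp only [add_sub_add_right_eq_sub]; exact tendsto_const_nhds
    · exact kk_far (far' _ _) a b
    · exact kk_far ((far' _ _).congr fun t => norm_sub_rev _ _) a b
    · simp only [add_sub_add_right_eq_sub]; exact tendsto_const_nhds

theorem gv_iso (θ : R4 ≃ₗᵢ[ℝ] R4) {s : Fin 4 → ℝ} (hs : ∀ i, s i * s i = 1)
    (hθ : ∀ v i, θ v i = s i * v i) (f : ι → R4 → ℝ) : (gv fun i y => f i (θ y)) = gv f := by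
  have hm : ∀ v i j, mirror (θ v) i j = s i * s j * mirror v i j := fun v i j => by
    simp only [mirror, hθ, θ.norm_map]
    split_ifs with h
    · subst h; linear_combination (-1) * hs i
    · ring
  have hk : ∀ v, kk (θ v) = fun a b => s a.1 * s a.2 * (s b.1 * s b.2) * kk v a b := fun v => by
    ext a b
    simp only [kk, hm, θ.norm_map]
    split_ifs
    · ring
    · rw [mul_zero]
  rw [gv, gv, ← (volume_preserving_arrowCongr' (Equiv.refl ι) θ.toMeasurableEquiv
    θ.measurePreserving).integral_comp' fun y => (∏ i, f i (y i)) * fr y]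
  refine congrArg _ (funext fun y => congrArg₂ (· * ·) rfl ?_)
  refine (lp_sign _ (s := fun a : Fin 4 × Fin 4 => s a.1 * s a.2) fun a => by
    linear_combination s a.2 * s a.2 * hs a.1 + hs a.2).symm.trans (congrArg lp ?_)
  ext1 i; ext1 j
  rw [← hk, map_sub]
  rfl

end Pool.Agent.Lib.MP_7f377f_mp.YM9.Fr
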