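import Mathlib

/-! Hilbert spaces and contractions from positive semidefinite kernels. -/

noncomputable section

namespace Pool.Agent.Lib.MP_7f377f_mp.YM7

open Filter Topology Set ComplexConjugate

variable {X : Type}

/-- the quadratic form of a kernel -/
def qf (B : X → X → ℝ) (s : Finset X) (c : X → ℝ) : ℝ := ∑ x ∈ s, ∑ y ∈ s, c x * c y * B x y

theorem re_qf {B : X → X → ℝ} (s : Finset X) (z : X → ℂ) :
    (∑ x ∈ s, ∑ y ∈ s, conj (z x) * z y * B x y).re =
      qf B s (fun x => (z x).re) + qf B s fun x => (z x).im := by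
  simp only [qf, Complex.re_sum, ← Finset.sum_add_distrib]
  refine Finset.sum_congr rfl fun x _ => Finset.sum_congr rfl fun y _ => ?_
  simp only [Complex.mul_re, Complex.ofReal_re, Complex.ofReal_im, Complex.conj_re,
    Complex.conj_im, Complex.mul_im]
  ring

open scoped ComplexOrder in
theorem gns (B : X → X → ℝ) (hs : ∀ x y, B x y = B y x) (hp : ∀ s c, 0 ≤ qf B s c) :
    ∃ (H : Type) (_ : NormedAddCommGroup H) (_ : InnerProductSpace ℂ H) (_ : CompleteSpace H)
      (Ψ : X → H), (∀ x y, inner ℂ (Ψ x) (Ψ y) = B x y) ∧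
      Dense (Submodule.span ℂ (range Ψ) : Set H) := by
  let K : Matrix X X (ℂ →L[ℂ] ℂ) := .of fun x y => (B x y : ℂ) • (1 : ℂ →L[ℂ] ℂ)
  have hK : K.PosSemidef := by
    refine ((RKHS.posSemidef_tfae (K := K)).out 0 2).2 (And.intro ?_ fun z => ?_)
    · ext x y
      simp [K, hs x y]
    · have := add_nonneg (hp z.support fun x => (z x).re) (hp z.support fun x => (z x).im)
      rw [← re_qf] at this
      refine this.trans_eq (congrArg Complex.re ?_)
      refine Finset.sum_congr rfl fun x _ => Finset.sum_congr rfl fun y _ => ?_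
      simp [K, hs x y]
      ring
  have : Fact K.PosSemidef := ⟨hK⟩
  refine ⟨RKHS.OfKernel K, inferInstance, inferInstance, inferInstance,
    fun x => RKHS.kerFun (RKHS.OfKernel K) x 1, fun x y => ?_, ?_⟩
  · rw [← RKHS.kernel_inner, RKHS.OfKernel.kernel_ofKernel]
    simp [K, hs x y]
  · rw [Submodule.dense_iff_topologicalClosure_eq_top, eq_top_iff, ← RKHS.kerFun_dense]
    refine Submodule.topologicalClosure_mono (Submodule.span_le.2 ?_)
    rintro _ ⟨x, v, rfl⟩
    rw [← mul_one v, ← smul_eq_mul, map_smul]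
    exact Submodule.smul_mem _ _ (Submodule.subset_span ⟨x, rfl⟩)

variable {H : Type} [NormedAddCommGroup H] [InnerProductSpace ℂ H] {Ψ Φ : X → H}
  {B B' : X → X → ℝ}

theorem norm_lc (h : ∀ x y, inner ℂ (Ψ x) (Ψ y) = B x y) (z : X →₀ ℂ) :
    ‖Finsupp.linearCombination ℂ Ψ z‖ ^ 2 =
      qf B z.support (fun x => (z x).re) + qf B z.support fun x => (z x).im := by
  rw [← re_qf, ← inner_self_eq_norm_sq (𝕜 := ℂ), Finsupp.linearCombination_apply, Finsupp.sum,
    sum_inner]
  simp only [inner_sum, inner_smul_left, inner_smul_right, h]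
  refine congrArg Complex.re ?_
  refine Finset.sum_congr rfl fun x _ => Finset.sum_congr rfl fun y _ => ?_
  ring

theorem exists_op [CompleteSpace H] (hd : Dense (Submodule.span ℂ (range Ψ) : Set H))
    (h : ∀ x y, inner ℂ (Ψ x) (Ψ y) = B x y) (h' : ∀ x y, inner ℂ (Φ x) (Φ y) = B' x y)
    (hB : ∀ s c, qf B' s c ≤ qf B s c) : ∃ T : H →L[ℂ] H, ‖T‖ ≤ 1 ∧ ∀ x, T (Ψ x) = Φ x := by
  have h1 : DenseRange (Finsupp.linearCombination ℂ Ψ) := by
    rwa [← Finsupp.range_linearCombination] at hd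
  have h2 : ∀ z, ‖Finsupp.linearCombination ℂ Φ z‖ ≤ 1 * ‖Finsupp.linearCombination ℂ Ψ z‖ :=
    fun z => by
      rw [one_mul, ← sq_le_sq₀ (norm_nonneg _) (norm_nonneg _), norm_lc h, norm_lc h']
      exact add_le_add (hB _ _) (hB _ _)
  refine ⟨_, LinearMap.opNorm_extendOfNorm_le h1 zero_le_one h2, fun x => ?_⟩
  simpa using LinearMap.extendOfNorm_eq h1 ⟨1, h2⟩ (Finsupp.single x 1)

theorem adj_ext [CompleteSpace H] (hd : Dense (Submodule.span ℂ (range Ψ) : Set H))
    {T T' : H →L[ℂ] H} (h : ∀ x y, inner ℂ (T (Ψ x)) (Ψ y) = inner ℂ (Ψ x) (T' (Ψ y))) :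
    star T = T' := by
  refine ContinuousLinearMap.ext_on hd ?_
  rintro _ ⟨y, rfl⟩
  refine ext_inner_left ℂ fun u => ?_
  rw [← inner_conj_symm, ← inner_conj_symm u]
  refine congrArg _ (congrArg (fun L : H →L[ℂ] ℂ => L u) (ContinuousLinearMap.ext_on
    (f := innerSL ℂ (star T (Ψ y))) (g := innerSL ℂ (T' (Ψ y))) hd ?_))
  rintro _ ⟨x, rfl⟩
  rw [innerSL_apply_apply, innerSL_apply_apply, ContinuousLinearMap.star_eq_adjoint,
    ContinuousLinearMap.adjoint_inner_left, ← inner_conj_symm, h, inner_conj_symm]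

theorem cont_ext {Y : Type} [TopologicalSpace Y] {s : Set Y}
    (hd : Dense (Submodule.span ℂ (range Ψ) : Set H)) {T : Y → H →L[ℂ] H}
    (h1 : ∀ v ∈ s, ‖T v‖ ≤ 1) (h2 : ∀ x, ContinuousOn (fun v => T v (Ψ x)) s) (u : H) :
    ContinuousOn (fun v => T v u) s := by
  have h3 : ∀ u ∈ Submodule.span ℂ (range Ψ), ContinuousOn (fun v => T v u) s := fun u hu => by
    induction hu using Submodule.span_induction with
    | mem _ h => obtain ⟨x, rfl⟩ := h; exact h2 x
    | zero => simpa only [map_zero] using continuousOn_const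
    | add _ _ _ _ h h' => simpa only [map_add] using h.fun_add h'
    | smul c _ _ h => simpa only [map_smul] using h.fun_const_smul c
  refine continuousOn_of_uniform_approx_of_continuousOn fun V hV => ?_
  obtain ⟨ε, ε0, hε⟩ := Metric.mem_uniformity_dist.1 hV
  obtain ⟨w, hw, h4⟩ := Metric.mem_closure_iff.1 (hd u) ε ε0
  exact ⟨_, h3 w hw, fun v hv => hε ((((T v).dist_le_opNorm u w).trans
    (mul_le_of_le_one_left dist_nonneg (h1 v hv))).trans_lt h4)⟩

end Pool.Agent.Lib.MP_7f377f_mp.YM7
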