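import Pool.Agent.Lib.MP_7f377f_mp.YM7Defs

/-! Test functions supported at positive times. -/

namespace Pool.Agent.Lib.MP_7f377f_mp.YM7

/-- admissible families supported in the open half space of positive times -/
def Pos {k : ℕ} (f : Fin k → R4 → ℝ) : Prop := Adm f ∧ ∀ i, ∀ y ∈ tsupport (f i), 0 < y 0

end Pool.Agent.Lib.MP_7f377f_mp.YM7
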