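import Pool.Agent.Lib.MP_7f377f_mp.CyDef
import Pool.Agent.Lib.MP_7f377f_mp.SoftB
import Pool.Agent.Lib.MP_7f377f_mp.OSB
import Pool.Agent.Lib.MP_7f377f_mp.CyFrA

/-! Clustering, translation invariance and the one point value of the free value. -/

noncomputable section

namespace Pool.Agent.Lib.MP_7f377f_mp.YM9

open MeasureTheory Filter Topology Function Real

theorem fv_eq {k : ℕ} (f : Fin k → R4 → ℝ) : fv f = Fr.gv f := by
  simp only [fv, Fr.gv, Fr.free_eq]

theorem fv_theta {k : ℕ} (f : Fin k → R4 → ℝ) : fv (fun i => YM7.theta (f i)) = fv f := by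
  rw [fv_eq, fv_eq, ← Fr.gv_iso YM7.thL (s := fun i => if i = 0 then -1 else 1)
    (fun i => by split_ifs <;> norm_num) (fun v i => ?_) f, YM7.thL_eq]
  · rfl
  · rw [YM7.thL_eq]
    by_cases h : i = 0 <;> simp [YM7.th, h]

theorem fv_clus {k : ℕ} {f : Fin k → R4 → ℝ} (hf : YM7.Adm f) :
    Tendsto (fun t : ℝ => fv (YM7.rp (YM7.sh (EuclideanSpace.single 0 t) f)
      (YM7.sh (EuclideanSpace.single 0 t) f))) atTop (𝓝 (fv f ^ 2)) := by
  have h1 : Tendsto (fun t : ℝ => ‖(EuclideanSpace.single 0 t : R4) -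
      -EuclideanSpace.single 0 t‖) atTop atTop := by
    refine tendsto_atTop_mono (fun t => ?_) tendsto_id
    rw [sub_neg_eq_add, ← two_smul ℝ, norm_smul, PiLp.norm_single, Real.norm_two,
      Real.norm_eq_abs]
    linarith [le_abs_self t, abs_nonneg t, show id t = t from rfl]
  have h2 := Fr.gv_clus (fun i => (hf.theta.1 i).1) (fun i => (hf.theta.1 i).2.continuous)
    hf.theta.2 (fun i => (hf.1 i).1) (fun i => (hf.1 i).2.continuous) hf.2 h1
  rw [← fv_eq, ← fv_eq, fv_theta, ← sq] at h2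
  refine h2.congr fun t => ?_
  rw [fv_eq, ← Fr.gv_reindex finSumFinEquiv]
  refine congrArg _ (funext ?_)
  rintro (i | i)
  · simp only [YM7.rp, comp, finSumFinEquiv_apply_left, Fin.append_left, Sum.elim_inl]
    funext y
    have : YM7.th (EuclideanSpace.single 0 t) = -EuclideanSpace.single 0 t := by
      ext l
      by_cases h : l = 0 <;> simp [YM7.th, h]
    change f i (YM7.th (y - -EuclideanSpace.single 0 t)) = f i (YM7.th y - _)
    rw [sub_neg_eq_add, YM7.th_add, this, sub_eq_add_neg]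
  · simp only [YM7.rp, comp, finSumFinEquiv_apply_right, Fin.append_right, Sum.elim_inr]
    rfl

theorem fv_sh {k : ℕ} (f : Fin k → R4 → ℝ) (v : R4) : fv (YM7.sh v f) = fv f := by
  rw [fv_eq, fv_eq]
  refine (Fr.gv_shift f fun _ => v).trans ?_
  simp only [Fr.gv, Fr.fr, Pi.add_apply, add_sub_add_right_eq_sub]

theorem fv_one (f : Fin 1 → R4 → ℝ) : fv f = 0 := by
  have : ∀ y : Fin 1 → R4, free y = 0 := fun y => Finset.sum_eq_zero fun σ _ =>
    if_neg fun h => h 0 (Subsingleton.elim _ _)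
  simp only [fv, this, mul_zero, integral_zero]

end Pool.Agent.Lib.MP_7f377f_mp.YM9
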