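import Pool.Agent.Lib.MP_7f377f_mp.CuE
import Pool.Agent.Lib.MP_7f377f_mp.CuF
import Pool.Agent.Lib.MP_7f377f_mp.CuG
import Pool.Agent.Lib.MP_7f377f_mp.CyFr

/-! A pure phase of the theory on the cylinder. -/

noncomputable section

namespace Pool.Agent.Lib.MP_7f377f_mp.YM9

open MeasureTheory Filter Topology Function Real Finset
open scoped ComplexConjugate

set_option linter.unusedSectionVars false

variable {H : Type} [NormedAddCommGroup H] [InnerProductSpace ℂ H] [CompleteSpace H]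
  {m C : ℝ} {Ω χ : H} {T : R4 → H →L[ℂ] H} {P : H →L[ℂ] H} {σ : MF → ℝ} {Ψ : MF → H}
  {φ A : MF → H →L[ℂ] H} {k : ℕ}

theorem Tord.sh {f : Fin k → R4 → ℝ} (hf : Tord f) {v : R4} (hv : 0 ≤ v 0) : Tord (YM7.sh v f) :=
  have h := (hf.pos (m := 0)).sh hv
  ⟨fun i => ⟨(h.1.1 i).1, (h.1.1 i).2, h.2 i⟩, fun i j hij x hx y hy => by
    simpa using hf.2 i j hij _ (YM7.tsupport_comp (θ := fun y => y - v) (by fun_prop) hx) _
      (YM7.tsupport_comp (θ := fun y => y - v) (by fun_prop) hy)⟩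

theorem mf_sand {l l' : ℕ} (t : ℝ) (g : Fin l → R4 → ℝ) (f : Fin k → R4 → ℝ)
    (g' : Fin l' → R4 → ℝ) :
    mf (sand t g f g') = mr 0 (mv (ev 0 t) (mf g)) + mf f + mv (ev 0 t) (mf g') := by
  rw [sand, mf_append, mf_append, mv_mf, mv_mf, mr_mf]
  rfl

theorem ev_sand {F B B' : MF} (hF : AdM m F) (hB : PoM m B) (hB' : PoM m B') :
    ∀ᶠ t in atTop, AdM m (mr 0 (mv (ev 0 t) B') + F + mv (ev 0 t) B) := by
  obtain ⟨r, hr⟩ := hF.ev_pos.exists
  filter_upwards [eventually_ge_atTop r, (tendsto_atTop_add_const_right atTop r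
    tendsto_id).eventually (hr.ev_add hB)] with t h1 h2
  exact shift_eq r t F B B' ▸ ((hB'.mv (single_nonneg (sub_nonneg.2 h1))).rp h2).mv (ev 0 (-r))

theorem thin_small [MeasurableSpace SU2] [BorelSpace SU2] {f : Fin k → R4 → ℝ} (hf : YM7.Pos f)
    (m0 : 0 < m) {r : ℝ} (hr : 0 < r) :
    ∀ᶠ d in 𝓝[>] (0 : ℝ), PoM m (mf fun i y => f i (d⁻¹ • y)) ∧
      Thin m r (mf fun i y => f i (d⁻¹ • y)) := by
  obtain ⟨D, q, h1, -⟩ := hf.1.data
  filter_upwards [adm_small hf.1 m0, Ioo_mem_nhdsGT (show 0 < r / (D + 1) by positivity)]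
    with d h2 ⟨d0, d1⟩
  refine ⟨pom_mf.2 ⟨h2, (hf.smul (inv_pos.2 d0)).2⟩, adm_mf.2 h2, forall_mf.2 fun i y hy j _ => ?_⟩
  have := h1 i _ (YM7.tsupport_comp (θ := fun y => d⁻¹ • y) (by fun_prop) hy)
  rw [norm_smul, norm_of_nonneg (by positivity), inv_mul_le_iff₀ d0] at this
  rw [lt_div_iff₀ (by positivity)] at d1
  exact ((PiLp.norm_apply_le y j).trans this).trans_lt (by linarith)

attribute [local irreducible] mv mr mf

variable (hS : Sg m C (Ψ 0) T) (hP : Pj T P) (hV : Vc m σ Ψ T) (hA : Ops m σ Ψ T P φ A)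
  (hχ : Pv m Ψ T P A χ)

include hP in
theorem Pj.ad (x y : H) : inner ℂ (P x) y = inner ℂ x (P y) := by
  rw [← ContinuousLinearMap.adjoint_inner_right, ← ContinuousLinearMap.star_eq_adjoint, hP.adj]

include hA in
theorem Ops.ad {F : MF} (hF : AdM m F) (x y : H) :
    inner ℂ x (A F y) = inner ℂ (A (mr 0 F) x) y := by
  rw [← hA.adj hF, ContinuousLinearMap.star_eq_adjoint, ContinuousLinearMap.adjoint_inner_left]

include hS hA hχ in
theorem Pv.trans {F : MF} (hF : AdM m F) (v : R4) :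
    inner ℂ χ (A (mv v F) χ) = inner ℂ χ (A F χ) := by
  have h0 : (v - ev 0 (v 0)) 0 = 0 := by simp
  have h1 := hχ.inv _ h0.ge
  have h2 := congrArg (· χ) (hA.space hF h0)
  simp only [mul_apply_eq_comp, h1] at h2
  rw [← add_sub_cancel (ev 0 (v 0)) v, ← mv_mv, hA.time (hF.mv _), h2, ← h1,
    ContinuousLinearMap.inner_map_map_of_mem_unitary (hS.uni _ h0), h1]

include hP hA hχ in
theorem Pv.thin {F : MF} (h1 : PoM m F) (h2 : Thin m (m / 16) F) :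
    inner ℂ χ (Ψ F) = inner ℂ χ (A F χ) * inner ℂ χ (Ψ 0) := by
  obtain ⟨c, hc⟩ := hχ.eig (F := mr 0 F) ⟨h1.1.mr 0, (h2.2.mr 0).mono fun y hy j hj => by
    simpa [rf_apply, hj] using hy j hj⟩
  rw [← hA.vac h1, ← hχ.pro, hP.ad, ← mul_apply_eq_comp, hA.pro h1, hχ.pro, hA.ad h1.1,
    hA.ad h1.1, hc, inner_smul_left, inner_smul_left, inner_self_eq_norm_sq_to_K, hχ.one]
  simp

include hS hP hV hA hχ in
theorem Pv.short {F : MF} (h1 : PoM m F) (h2 : Thin m (m / 16) F) (l c : ℝ) :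
    (‖l * inner ℂ χ (A F χ) - c‖ * ‖inner ℂ χ (Ψ 0)‖) ^ 2 ≤
      l * l * σ (mr 0 F + F) - 2 * c * (l * σ F) + c ^ 2 := by
  have e : (l * inner ℂ χ (A F χ) - c) * inner ℂ χ (Ψ 0) =
      inner ℂ χ ((l : ℂ) • Ψ F - (c : ℂ) • Ψ 0) := by
    rw [inner_sub_right, inner_smul_right, inner_smul_right, hχ.thin hP hA h1 h2]
    ring
  have e1 := hV.inn pom_nil h1
  rw [mr_nil, zero_add] at e1
  rw [← norm_mul, e]
  refine (pow_le_pow_left₀ (norm_nonneg _) (norm_inner_le_norm _ _) 2).trans_eq ?_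
  rw [hχ.one, one_mul, @norm_sub_sq ℂ, norm_smul, norm_smul, hS.one, mul_pow,
    ← inner_self_eq_norm_sq (𝕜 := ℂ) (Ψ F), hV.inn h1 h1, inner_smul_left, inner_smul_right,
    ← inner_conj_symm, e1]
  simp
  ring

omit hS hP hV hA hχ

theorem pure_phase [MeasurableSpace SU2] [BorelSpace SU2]
    {S : ∀ {k : ℕ}, (Fin k → R4 → ℝ) → ℝ} (h9 : OS9 m C S) (hO : Os m (SM S))
    (m0 : 0 < m) (hF : ∀ k (f : Fin k → R4 → ℝ), YM7.Adm f →
      Tendsto (fun d : ℝ => log d⁻¹ ^ k * S fun i y => f i (d⁻¹ • y)) (𝓝[>] 0)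
        (𝓝 ((6 / 11) ^ k * fv f))) :
    ∃ (r : ℕ) (κ : Fin r → ℕ) (B : ∀ a, Fin (κ a) → R4 → ℝ) (c : Fin r → ℂ)
      (W : ∀ {k : ℕ}, (Fin k → R4 → ℝ) → ℂ), (∀ a, Adm m (B a)) ∧
      (∀ k (f : Fin k → R4 → ℝ), Adm m f →
        Tendsto (fun t => ∑ a, ∑ b, conj (c a) * c b * S (sand t (B a) f (B b))) atTop (𝓝 (W f)) ∧
        (∀ v, W (fun i y => f i (y + v)) = W f) ∧ W (fun i => theta (f i)) = conj (W f)) ∧
      (∀ k R, ∀ δ > 0, ∃ C : ℝ, ∀ (f : Fin k → R4 → ℝ) (L : Fin k → NNReal), Lq m R δ f L →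
        ‖W f‖ ≤ C * ∏ i, L i) ∧
      (∀ k (f : Fin k → R4 → ℝ), YM7.Adm f →
        Tendsto (fun d : ℝ => (log d⁻¹ ^ k : ℝ) * W fun i y => f i (d⁻¹ • y)) (𝓝[>] 0)
          (𝓝 ((6 / 11) ^ k * fv f : ℝ))) ∧
      ∃ (H : Type) (_ : NormedAddCommGroup H) (_ : InnerProductSpace ℂ H) (_ : CompleteSpace H),
        Massive H m W := by
  classical
  obtain ⟨H, _, _, _, Ψ, T, hS, hV⟩ := h9.vc m0
  obtain ⟨P, hP⟩ := hS.pj
  obtain ⟨φ, A, hA⟩ := exists_ops hO hS hP hV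
  obtain ⟨χ, hχ⟩ := exists_pv hO hS hP hV hA
  obtain ⟨r, c, u, hu⟩ := Submodule.mem_span_set'.1 hχ.mem
  choose G g1 g2 using fun a => (u a).2
  choose κ B hB using fun a => exists_mf (G a)
  have sm : ∀ {k} {f : Fin k → R4 → ℝ}, Adm m f → SM S (mf f) = S f := sm_mf h9.perm
  have tr : ∀ {k} {f : Fin k → R4 → ℝ}, Adm m f → ∀ v,
      inner ℂ χ (A (mf (YM7.sh v f)) χ) = inner ℂ χ (A (mf f) χ) := fun hf v => by
    rw [← mv_mf, hχ.trans hS hA (adm_mf.2 hf)]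
  have af : ∀ k (f : Fin k → R4 → ℝ), YM7.Adm f → Tendsto (fun d : ℝ => (log d⁻¹ ^ k : ℝ) *
      inner ℂ χ (A (mf fun i y => f i (d⁻¹ • y)) χ)) (𝓝[>] 0) (𝓝 ((6 / 11) ^ k * fv f : ℝ)) := by
    intro k f hf
    obtain ⟨D, -, hD, -⟩ := hf.data
    refine Metric.tendsto_nhds.2 fun ε hε => ?_
    have w0 := norm_pos_iff.2 hχ.ne
    set c := (6 / 11 : ℝ) ^ k * fv f with hc
    have h1 := (((fv_clus hf).const_mul ((6 / 11) ^ (k + k))).sub_const (2 * c * c)).add_const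
      (c ^ 2)
    obtain ⟨R, hR, h2⟩ := ((eventually_gt_atTop (D : ℝ)).and (h1.eventually_lt_const
      (show _ < (ε * ‖inner ℂ χ (Ψ 0)‖) ^ 2 by
        refine lt_of_eq_of_lt (by rw [hc]; ring) (pow_pos (mul_pos hε w0) 2)))).exists
    set g := YM7.sh (EuclideanSpace.single 0 R) f with hg
    have gp : YM7.Pos g := ⟨by
      rw [hg]
      unfold YM7.sh
      simpa only [sub_eq_add_neg] using hf.add _, fun i y hy => by
      have := (PiLp.norm_apply_le _ 0).trans (hD i _ (YM7.tsupport_comp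
        (θ := fun y => y - EuclideanSpace.single 0 R) (by fun_prop) hy))
      simp only [PiLp.sub_apply, PiLp.single_apply, if_true, norm_eq_abs] at this
      linarith [(abs_le.1 this).1]⟩
    have h3 := hF k g gp.1
    rw [hg, fv_sh, ← hg] at h3
    filter_upwards [(((hF _ _ (gp.rp gp)).sub (h3.const_mul (2 * c))).add_const
      (c ^ 2)).eventually_lt_const h2, thin_small gp m0 (show 0 < m / 16 by positivity),
      adm_small hf m0, self_mem_nhdsWithin] with d h4 ⟨h5, h6⟩ h7 (d0 : 0 < d)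
    have h8 := hχ.short hS hP hV hA h5 h6 (log d⁻¹ ^ k) c
    have e1 : (fun i y => g i (d⁻¹ • y)) = YM7.sh (ev 0 (d * R)) fun i y => f i (d⁻¹ • y) :=
      funext₂ fun i y => congrArg (f i) (by
        ext l
        by_cases hl : l = 0 <;> simp [hl, mul_sub, d0.ne'])
    have e2 : YM7.rp (fun i y => g i (d⁻¹ • y)) (fun i y => g i (d⁻¹ • y)) =
        fun i y => YM7.rp g g i (d⁻¹ • y) := funext₂ fun i y => by
      induction i using Fin.addCases with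
      | left i =>
        simp only [YM7.rp, Fin.append_left]
        change g i (d⁻¹ • YM7.th y) = g i (YM7.th (d⁻¹ • y))
        rw [← YM7.thL_eq, map_smul]
      | right i => simp only [YM7.rp, Fin.append_right]
    have p := pom_mf.1 h5
    rw [← mf_rp, sm (p.rp p), sm p.1, e2, ← pow_add] at h8
    have h9 := lt_of_pow_lt_pow_left₀ 2 (by positivity) (h8.trans_lt h4)
    rw [e1, tr h7] at h9
    exact (dist_eq_norm _ _).trans_lt (lt_of_mul_lt_mul_right h9 w0.le)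
  let X := {p : Σ k, Fin k → R4 → ℝ // Tord p.2}
  have pm : ∀ x : X, PoM m (mf x.1.2) := fun x => pom_mf.2 x.2.pos
  let o : X := ⟨⟨0, ![]⟩, fun i => i.elim0, fun i => i.elim0⟩
  have eo : φ (mf o.1.2) χ = χ := by rw [mf_nil, hA.nil, hχ.pro]
  have ei : ∀ {F G}, PoM m F → PoM m G →
      inner ℂ (φ F χ) (φ G χ) = inner ℂ χ (A (mr 0 F + G) χ) := fun hF hG => by
    rw [← hA.inn hF hG, mul_apply_eq_comp, ContinuousLinearMap.star_eq_adjoint,
      ContinuousLinearMap.adjoint_inner_right]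
  have es : ∀ {F} {v : R4}, PoM m F → 0 ≤ v 0 → T v (φ F χ) = φ (mv v F) χ := fun hF hv => by
    rw [← mul_apply_eq_comp, hA.sh hF hv, mul_apply_eq_comp, hχ.inv _ hv]
  obtain ⟨K, _, _, _, ψ, T', k1, k2, k3, k4⟩ := hS.gapped hP (fun x : X => φ (mf x.1.2) χ) o
    (fun v x => if h : 0 ≤ v 0 then ⟨⟨_, YM7.sh v x.1.2⟩, x.2.sh h⟩ else x)
    (fun v hv x => by rw [dif_pos hv, es (pm x) hv, mv_mf]) (eo.symm ▸ hχ.one)
    (fun v hv => eo.symm ▸ hχ.inv v hv) (fun x => by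
      rw [eo, ← mul_apply_eq_comp, hA.pro (pm x)]
      exact hχ.tord hS hP hA x.2) fun M hM =>
    YM7.not_bdd (S := fun f => (inner ℂ χ (A (mf f) χ)).re) (fun f hf =>
      ((Complex.continuous_re.tendsto _).comp (af 2 f hf)).congr fun d => Complex.re_ofReal_mul ..)
      M fun s hs f hf => by
      let x : X := ⟨⟨1, f⟩, fun i => ⟨(hf.1.1 i).1, (hf.1.1 i).2, hf.2 i⟩,
        fun i j hij => absurd (Subsingleton.elim i j) hij.ne⟩
      have hx : ∀ s ≥ 0, inner ℂ χ (A (mf (YM7.rp f (YM7.sh (EuclideanSpace.single 0 s) f))) χ) =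
          inner ℂ (φ (mf f) χ) (T (ev 0 s) (φ (mf f) χ)) := fun s hs => by
        rw [es (pm x) (single_nonneg hs), ei (pm x) ((pm x).mv (single_nonneg hs)), mf_rp, mv_mf]
      have e3 := mul_le_mul_of_nonneg_left (hM s hs x) (norm_nonneg (φ (mf f) χ))
      rw [hx s hs, hx 0 le_rfl, ev_zero, hS.zero, one_apply_eq_self]
      generalize φ (mf f) χ = y at *
      have e2 := re_inner_le_norm (𝕜 := ℂ) y (y - T (ev 0 s) y)
      have e4 := inner_self_eq_norm_mul_norm (𝕜 := ℂ) y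
      rw [inner_sub_right, map_sub, norm_sub_rev, e4] at e2
      simp only [RCLike.re_to_complex] at e2 e4
      rw [e4]
      linarith
  obtain ⟨Ψ', hΨ⟩ : ∃ Ψ' : ∀ {k : ℕ}, (Fin k → R4 → ℝ) → K, ∀ x : X, Ψ' x.1.2 = ψ x :=
    ⟨fun f => if hf : Tord f then ψ ⟨⟨_, f⟩, hf⟩ else 0, fun x => dif_pos x.2⟩
  refine ⟨r, κ, B, c, fun f => inner ℂ χ (A (mf f) χ), fun a => adm_mf.1 (hB a ▸ (g1 a).1),
    fun k f hf => ⟨?_, fun v => ?_, ?_⟩, fun k R δ hδ => ?_, af, K, inferInstance, inferInstance,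
    inferInstance, Ψ', T', k1.mono (Submodule.span_mono ?_), fun k f hf => ⟨fun l g hg => ?_,
    fun v hv => ?_⟩, by rwa [← hΨ o] at k4⟩
  · have a1 := adm_mf.2 hf
    have e : inner ℂ χ (A (mf f) χ) =
        ∑ a, ∑ b, conj (c a) * c b * inner ℂ (Ψ (G a)) (A (mf f) (Ψ (G b))) := by
      simp only [← hu, ← g2, map_sum, map_smul, sum_inner, inner_sum, inner_smul_left,
        inner_smul_right, hP.ad, ← mul_apply_eq_comp, (hA.pa a1).1, (hA.pa a1).2, mul_sum]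
      rw [sum_comm]
      exact sum_congr rfl fun _ _ => sum_congr rfl fun _ _ => by ring
    beta_reduce
    rw [e]
    refine tendsto_finsetSum _ fun a _ => tendsto_finsetSum _ fun b _ =>
      ((hA.lim a1 (g1 b) (g1 a)).congr' ?_).const_mul _
    refine (ev_sand a1 (g1 b) (g1 a)).mono fun t ht => ?_
    rw [← hB a, ← hB b, ← mf_sand] at ht
    simp only [← hB a, ← hB b, ← mf_sand, sm (adm_mf.1 ht)]
  · beta_reduce
    rw [← tr hf (-v)]
    unfold YM7.sh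
    simp only [sub_neg_eq_add]
  · rw [inner_conj_symm, ← mr_mr 0 (mf f), ← hA.ad ((adm_mf.2 hf).mr 0), mr_mf]
    rfl
  · obtain ⟨γ, hγ⟩ := hA.lip k R δ hδ
    refine ⟨γ, fun f L hf => (norm_inner_le_norm _ _).trans ?_⟩
    rw [hχ.one, one_mul]
    exact ((A _).unit_le_opNorm _ hχ.one.le).trans (hγ f L hf)
  · rintro _ ⟨x, rfl⟩
    exact ⟨_, _, x.2, hΨ x⟩
  · refine (congrArg₂ _ (hΨ ⟨⟨_, _⟩, hf⟩) (hΨ ⟨⟨_, _⟩, hg⟩)).trans ((k2 _ _).trans ?_)
    rw [ei (pm _) (pm _), ← mf_rp]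
    rfl
  · refine ((congrArg _ (hΨ ⟨⟨_, _⟩, hf⟩)).trans (k3 v hv _)).trans ?_
    rw [dif_pos hv]
    exact (hΨ ⟨⟨_, _⟩, hf.sh hv⟩).symm

end Pool.Agent.Lib.MP_7f377f_mp.YM9
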