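import Pool.Agent.Lib.MP_7f377f_mp.CyZ
import Pool.Agent.Lib.MP_7f377f_mp.CuA
import Pool.Agent.Lib.MP_7f377f_mp.CuB2
import Pool.Agent.Lib.MP_7f377f_mp.CuB3
import Pool.Agent.Lib.MP_7f377f_mp.CuH

/-! The continuum limit on countably many cylinders along one sequence. -/

noncomputable section

namespace Pool.Agent.Lib.MP_7f377f_mp.YM9

open MeasureTheory Filter Topology Function Real
open scoped ComplexConjugate

set_option linter.unusedSectionVars false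

variable [MeasurableSpace SU2] [BorelSpace SU2] {h : Measure SU2} [h.IsHaarMeasure]
  [IsProbabilityMeasure h] {ι : Type} {Φ : Filter ι} {a b τ : ι → ℝ}

theorem Bo.mono {m : ℝ} {μ ν : ι → Measure Fd} (hB : Bo m Φ μ ν a τ) {U : Filter ι}
    (hU : U ≤ Φ) : Bo m U μ ν a τ := fun k R δ hδ =>
  (hB k R δ hδ).imp fun _ => Exists.imp fun _ e => e.filter_mono hU

theorem exists_cyl2 {n : ι → ℕ} {m : ℕ} [∀ p, NeZero (n p)] {C : ℝ} (hF : Fm Φ a τ) (hm : 0 < m)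
    (h0 : ∀ᶠ p in Φ, a p * n p = m ∧ Odd (n p) ∧ 0 ≤ b p ∧
      Z7 h (b p) (n p) ^ 81 ≤ C * Z7 h (b p) (3 * n p))
    (hP : YM7.Poly2 h Φ n a b τ) (hS : ∀ K, YM7.Short h Φ n a b K) :
    ∃ μ, Cyl h Φ m n a b τ μ C ∧ Bd (Lc m) Φ μ μ a τ ∧ (∀ K, Sho Φ μ μ a K) ∧ Bo m Φ μ μ a τ ∧
      ∀ p, IsProbabilityMeasure (μ p) ∧ ∀ F : C(Link → SU2, ℝ), Tendsto
        (fun T => ∫ U, F U ∂wilson h (b p) ![T, n p, n p, n p]) atTop (𝓝 (∫ U, F U ∂μ p)) := by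
  choose μ l r e V using fun p => exists_vs h (b p) (n p)
  have h3 : ∀ᶠ p in Φ, 3 ≤ n p := by
    filter_upwards [h0, hF.small (show (0 : ℝ) < 1 / 3 by norm_num), hF.ap] with p e e1 e2
    have : (1 : ℝ) ≤ m := by exact_mod_cast hm
    have : (3 : ℝ) ≤ n p := by nlinarith [e.1, (n p).cast_nonneg (α := ℝ)]
    exact_mod_cast this
  have hC : Cyl h Φ m n a b τ μ C := ⟨hF, hm, (h0.and h3).mono fun p ⟨e, e3⟩ =>
    ⟨e.1, e.2.1, e.2.2.1, (V p).st9 h e.2.2.1 e.2.1 e3 e.2.2.2⟩⟩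
  have h1 := bd_cube h hF hm (h0.mono fun _ e => e.1) hP
  have h2 := hF.ap.mono fun p e => And.intro e (V p).prob
  exact ⟨μ, hC, bd_recentre h2 (bd_mix h hC h1), fun _ => sho_recentre h2 (sho_mix h hC h1
    (sho_cube h hm (hF.ap.and (h0.mono fun _ e => e.1)) (hS _))),
    bo_recentre hC (bd_mix h hC h1) (bo_mix hC ((h0.and h3).mono fun p ⟨e, e3⟩ =>
      (V p).op9 e.2.2.1 e3 e.2.2.2) h1), fun p => ⟨(V p).prob, fun F => (V p).lim F F.continuous⟩⟩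

theorem cylinders [Φ.NeBot] [Φ.IsCountablyGenerated] {M : ℕ → ℕ} {n : ℕ → ι → ℕ}
    [∀ s p, NeZero (n s p)] (hF : Fm Φ a τ) (hM : ∀ s, 0 < M s ∧ ∃ C : ℝ,
      (∀ᶠ p in Φ, a p * n s p = M s ∧ Odd (n s p) ∧ 0 ≤ b p ∧
        Z7 h (b p) (n s p) ^ 81 ≤ C * Z7 h (b p) (3 * n s p)) ∧
      YM7.Poly2 h Φ (n s) a b τ ∧ ∀ K, YM7.Short h Φ (n s) a b K) :
    ∃ p : ℕ → ι, Tendsto p atTop Φ ∧ ∀ s, ∃ (μ : ℕ → Measure (Link → SU2))
      (S : ∀ {k : ℕ}, (Fin k → R4 → ℝ) → ℝ) (r : ℕ) (κ : Fin r → ℕ)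
      (B : ∀ a, Fin (κ a) → R4 → ℝ) (c : Fin r → ℂ) (W : ∀ {k : ℕ}, (Fin k → R4 → ℝ) → ℂ),
      (∀ j, IsProbabilityMeasure (μ j) ∧ ∀ F : C(Link → SU2, ℝ), Tendsto (fun T =>
        ∫ U, F U ∂wilson h (b (p j)) ![T, n s (p j), n s (p j), n s (p j)]) atTop
          (𝓝 (∫ U, F U ∂μ j))) ∧ (∀ a, Adm (M s) (B a)) ∧
      (∀ k (f : Fin k → R4 → ℝ), Adm (M s) f →
        Tendsto (fun j => corr (μ j) (a (p j)) f) atTop (𝓝 (S f)) ∧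
        Tendsto (fun t => ∑ a, ∑ b, conj (c a) * c b * S (sand t (B a) f (B b))) atTop (𝓝 (W f)) ∧
        (∀ v, W (fun i y => f i (y + v)) = W f) ∧ W (fun i => theta (f i)) = conj (W f)) ∧
      (∀ k R, ∀ δ > 0, ∃ C : ℝ, ∀ (f : Fin k → R4 → ℝ) (L : Fin k → NNReal), Adm (M s) f →
        (∀ i, LipschitzWith (L i) (f i) ∧ ∀ y, f i y ≠ 0 → ‖y‖ ≤ R) →
        (∀ i j, i ≠ j → ∀ x y, f i x ≠ 0 → f j y ≠ 0 → ∀ z : Fin 4 → ℤ, z 0 = 0 →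
          δ ≤ dist x (y + pt (M s) z)) → ‖W f‖ ≤ C * ∏ i, L i) ∧
      (∀ k (f : Fin k → R4 → ℝ), Adm 0 f →
        Tendsto (fun d : ℝ => (log d⁻¹ ^ k : ℝ) * W fun i y => f i (d⁻¹ • y)) (𝓝[>] 0)
          (𝓝 ((6 / 11) ^ k * ∫ y : Fin k → R4, (∏ i, f i (y i)) * free y : ℝ))) ∧
      ∃ (H : Type) (_ : NormedAddCommGroup H) (_ : InnerProductSpace ℂ H) (_ : CompleteSpace H),
        Massive H (M s) W := by
  obtain ⟨U, hU⟩ := Φ.exists_ultrafilter_le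
  choose C c1 c2 c3 using fun s => (hM s).2
  choose μ hC hB hS hO hL using fun s => exists_cyl2 hF (hM s).1 (c1 s) (c2 s) (c3 s)
  have h0 : ∀ s, ∀ᶠ p in Φ, IsFiniteMeasure (μ s p) ∧ IsFiniteMeasure (μ s p) := fun s =>
    .of_forall fun p => have := (hL s p).1; ⟨inferInstance, inferInstance⟩
  have cU := fun s => (hC s).mono hU
  have hN := fun s => exists_lm U ((hB s).mono hU) (cU s).fm ((h0 s).filter_mono hU)
  choose S hN using hN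
  choose G g0 g1 g2 using fun s => (hB s).seq hF (h0 s) (closed_Lc (M s)) U hU (S := S s)
    fun k f hf => Lm.cv (hN s) (cU s).fm (adm_iff.2 hf)
  have : ((⨅ s, G s) ⊓ Φ).NeBot := neBot_of_le (le_inf (le_iInf g1) hU)
  obtain ⟨p, hp⟩ := exists_seq_tendsto ((⨅ s, G s) ⊓ Φ)
  obtain ⟨p1, p2⟩ := tendsto_inf.1 hp
  refine ⟨p, p2, fun s => ?_⟩
  have m0 : (0 : ℝ) < M s := Nat.cast_pos.2 (hM s).1
  have h9 := Lm.os9 (hN s) (cU s) ((hB s).mono hU)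
  obtain ⟨r, κ, B, c, W, w1, w2, w3, w4, w5⟩ := pure_phase h9 ⟨h9.os_nil, h9.os_trans,
    Lm.os_refl (hN s) (cU s), Lm.os_zero (hN s) (cU s), Lm.os_add (hN s) (cU s),
    Lm.os_rp (hN s) (cU s), Lm.os_op (hN s) (cU s) ((hO s).mono hU)⟩ m0
    fun k f => Lm.short (hN s) (cU s).fm m0 ((hS s k).mono hU) le_rfl
  exact ⟨fun j => μ s (p j), S s, r, κ, B, c, W, fun j => hL s _, w1, fun k f hf =>
    ⟨((g2 s k f (adm_iff.1 hf)).comp (tendsto_iInf.1 p1 s)).congr fun j => (corr_eq ..).symm,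
      w2 k f hf⟩, fun k R δ hδ => (w3 k R δ hδ).imp fun _ e f L h1 h2 h3 => e f L ⟨h1, h2, h3⟩,
    fun k f hf => w4 k f (adm_zero hf), w5⟩

end Pool.Agent.Lib.MP_7f377f_mp.YM9
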