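import Pool.Agent.Lib.MP_7f377f_mp.HClus

/-! Trace, frame and slab bounds for a chain of slices with a positive transfer operator. -/

noncomputable section

namespace Pool.Agent.Lib.MP_7f377f_mp.Ch

open MeasureTheory Measure Function Filter Topology Pool.Agent.Lib.MP_2d4879_an Hm RGP
open scoped InnerProductSpace

set_option linter.unusedSectionVars false

section hilbert
variable {H : Type} [NormedAddCommGroup H] [InnerProductSpace ℝ H] {T : H →L[ℝ] H} {l : ℝ}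

theorem psd_cs (hs : ∀ u v, ⟪T u, v⟫_ℝ = ⟪u, T v⟫_ℝ) (hp : ∀ v, 0 ≤ ⟪v, T v⟫_ℝ) (u v : H) :
    ⟪u, T v⟫_ℝ ^ 2 ≤ ⟪u, T u⟫_ℝ * ⟪v, T v⟫_ℝ := by
  have := discrim_le_zero (a := ⟪u, T u⟫_ℝ) (b := 2 * ⟪u, T v⟫_ℝ) (c := ⟪v, T v⟫_ℝ) fun s => by
    have h := hp (s • u + v)
    simp only [map_add, map_smul, inner_add_left, inner_add_right, inner_smul_left,
      inner_smul_right, conj_trivial, real_inner_comm (T u) v, hs u v] at h
    linarith
  rw [discrim] at this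
  linarith

theorem form_step (hs : ∀ u v, ⟪T u, v⟫_ℝ = ⟪u, T v⟫_ℝ) (hp : ∀ v, 0 ≤ ⟪v, T v⟫_ℝ)
    (hn : ∀ v, ‖T v‖ ≤ l * ‖v‖) (hl : 0 ≤ l) :
    ∀ (j : ℕ) (u : H), 0 ≤ ⟪u, (T ^ j) u⟫_ℝ ∧ ⟪u, (T ^ (j + 1)) u⟫_ℝ ≤ l * ⟪u, (T ^ j) u⟫_ℝ
  | 0, u => by
    rw [zero_add, pow_one, pow_zero, one_apply_eq_self, real_inner_self_eq_norm_mul_norm]
    exact ⟨by positivity, (real_inner_le_norm _ _).trans
      ((mul_le_mul_of_nonneg_left (hn u) (norm_nonneg _)).trans_eq (by ring))⟩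
  | 1, u => by
    have h1 := psd_cs hs hp (T u) u
    have h2 := (form_step hs hp hn hl 0 (T u)).2
    rw [zero_add, pow_one, pow_zero, one_apply_eq_self] at h2
    rw [pow_one, pow_succ, pow_one, mul_apply_eq_comp, ← hs u (T u)]
    refine ⟨hp u, ?_⟩
    rcases (real_inner_self_nonneg (x := T u)).eq_or_lt with h | h
    · exact h ▸ mul_nonneg hl (hp u)
    · exact le_of_mul_le_mul_left (by nlinarith [mul_le_mul_of_nonneg_right h2 (hp u)]) h
  | j + 2, u => by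
    have e : ∀ j : ℕ, ⟪u, (T ^ (j + 2)) u⟫_ℝ = ⟪T u, (T ^ j) (T u)⟫_ℝ := fun j => by
      rw [pow_succ', mul_apply_eq_comp, ← hs, pow_succ, mul_apply_eq_comp]
    rw [e, add_right_comm, e]
    exact form_step hs hp hn hl j (T u)

theorem form_le (hs : ∀ u v, ⟪T u, v⟫_ℝ = ⟪u, T v⟫_ℝ) (hp : ∀ v, 0 ≤ ⟪v, T v⟫_ℝ)
    (hn : ∀ v, ‖T v‖ ≤ l * ‖v‖) (hl : 0 ≤ l) (u : H) :
    ∀ j : ℕ, ⟪u, (T ^ j) u⟫_ℝ ≤ l ^ j * ⟪u, u⟫_ℝ
  | 0 => by simp
  | j + 1 => (form_step hs hp hn hl j u).2.trans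
      ((mul_le_mul_of_nonneg_left (form_le hs hp hn hl u j) hl).trans_eq (by ring))

theorem frame_le {J : Type} [Fintype J] {v : J → H} {Λ : ℝ} (hΛ : 0 ≤ Λ)
    (h : ∀ c : J → ℝ, ‖∑ i, c i • v i‖ ^ 2 ≤ Λ * ∑ i, c i ^ 2) (r : H) :
    ∑ i, ⟪r, v i⟫_ℝ ^ 2 ≤ Λ * ‖r‖ ^ 2 := by
  have h1 := h fun i => ⟪r, v i⟫_ℝ
  have h2 := pow_le_pow_left₀ (abs_nonneg _)
    (abs_real_inner_le_norm r (∑ i, ⟪r, v i⟫_ℝ • v i)) 2
  simp only [sq_abs, inner_sum, inner_smul_right, mul_pow, ← sq] at h2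
  rcases (Finset.sum_nonneg fun i _ => sq_nonneg ⟪r, v i⟫_ℝ).eq_or_lt with h | h
  · exact h ▸ mul_nonneg hΛ (sq_nonneg _)
  · exact le_of_mul_le_mul_left (by nlinarith [mul_le_mul_of_nonneg_left h1 (sq_nonneg ‖r‖)]) h

end hilbert

section kernels
variable {α : Type} [MeasurableSpace α] {m : Measure α} [IsProbabilityMeasure m]
  {k f g : α → α → ℝ} {l : ℝ}

theorem tr_comm (hf : GK f) (hg : GK g) : ∫ x, cv m f g x x ∂m = ∫ x, cv m g f x x ∂m := by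
  unfold cv
  rw [integral_integral_swap]
  · simp only [mul_comm]
  · simpa [Function.uncurry_def] using
      (gk_mul hf (gk_swap hg)).int_prod (integrable_const (μ := m) 1) (integrable_const 1)

theorem tr_step (hk : GK k) (hs : ∀ x y, k x y = k y x) (hp : ∀ v, 0 ≤ ⟪v, hk.op m v⟫_ℝ)
    (hn : ∀ v, ‖hk.op m v‖ ≤ l * ‖v‖) (hl : 0 ≤ l) (j : ℕ) :
    ∫ x, pw m k (j + 2) x x ∂m ≤ l * ∫ x, pw m k (j + 1) x x ∂m := by
  rw [← integral_const_mul]
  refine integral_mono (bf_diag (hk.pw _)).int ((bf_diag (hk.pw _)).int.const_mul _) fun x => ?_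
  simp only [pw_inner hk hs]
  exact (form_step (hk.symm_op hs) hp hn hl j _).2

theorem tr_frame (hk : GK k) (hs : ∀ x y, k x y = k y x) {J : Type} [Fintype J]
    {v : J → Lp ℝ 2 m} {Λ : ℝ} (hΛ : 0 ≤ Λ)
    (h : ∀ c : J → ℝ, ‖∑ i, c i • v i‖ ^ 2 ≤ Λ * ∑ i, c i ^ 2) (j : ℕ) :
    ∑ i, ⟪v i, (hk.op m ^ (2 * j + 2)) (v i)⟫_ℝ ≤ Λ * ∫ x, pw m k (2 * j + 1) x x ∂m := by
  have e : ∀ u, ⟪u, (hk.op m ^ (2 * j + 2)) u⟫_ℝ = ‖(hk.pw (μ := m) j).op m u‖ ^ 2 := fun u => by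
    rw [← real_inner_self_eq_norm_sq, show 2 * j + 2 = j + 1 + (j + 1) by ring, pow_add,
      mul_apply_eq_comp, ← op_pw_eq, ← op_pw_eq]
    exact ((hk.pw j).symm_op (pw_symm hk hs j) _ _).symm
  simp only [e, GK.norm_op]
  rw [← integral_finsetSum _ fun i _ => (hk.pw j).int_actsq _, ← integral_const_mul]
  refine integral_mono (integrable_finsetSum _ fun i _ => (hk.pw j).int_actsq _)
    ((bf_diag (hk.pw _)).int.const_mul _) fun x => (frame_le hΛ h _).trans_eq ?_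
  rw [← pw_one_diag (hk.pw j) (pw_symm hk hs j), pw_pw hk, show (j + 1) * 1 + j = 2 * j + 1 by ring]

theorem hs_bound (hk : GK k) (hs : ∀ x y, k x y = k y x) (hp : ∀ v, 0 ≤ ⟪v, hk.op m v⟫_ℝ)
    (hn : ∀ v, ‖hk.op m v‖ ≤ l * ‖v‖) (hl : 0 ≤ l) (hg : GK g) (v : Lp ℝ 2 m) :
    ‖hg.op m (hk.op m v)‖ ^ 2 ≤
      (∫ x, cv m (cv m (fun x y => g y x) g) k x x ∂m) * (l * ‖v‖ ^ 2) := by
  have g' := gk_swap hg
  rw [cv_assoc g' hg hk, tr_comm g' (hg.cv hk), cv_assoc hg hk g', GK.norm_op,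
    ← integral_mul_const]
  refine integral_mono (hg.int_actsq _) ((bf_diag (hg.cv (hk.cv g'))).int.mul_const _) fun x => ?_
  have e : ⟪hg.row m x, hk.op m (hg.row m x)⟫_ℝ = cv m g (cv m k fun x y => g y x) x x := by
    rw [hg.inner_row]
    refine integral_congr_ae ((hk.op_ae (hg.row m x)).mono fun y hy => ?_)
    simp only [hy]
    exact congrArg _ (integral_congr_ae ((row_ae hg x).mono fun z hz => by simp only [hz]))
  have h1 := form_le (hk.symm_op hs) hp hn hl v 1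
  rw [pow_one, pow_one, real_inner_self_eq_norm_sq] at h1
  simp only [← e]
  exact (psd_cs (hk.symm_op hs) hp _ _).trans (mul_le_mul_of_nonneg_left h1 (hp _))

theorem pw_low (hk : GK k) {c : ℝ} (hc : 0 < c) (h : ∀ x y, c ≤ k x y) :
    ∀ j x y, c ^ (j + 1) ≤ pw m k j x y
  | 0, x, y => by simpa [pw] using h x y
  | j + 1, x, y => by
    refine le_of_eq_of_le (by simp [pow_succ' c (j + 1)]) (integral_mono
      (integrable_const (c * c ^ (j + 1)))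
      ((hk.memLp x).integrable_mul ((gk_swap (hk.pw j)).memLp y)) fun z => ?_)
    exact mul_le_mul (h x z) (pw_low hk hc h j z y) (by positivity) (hc.le.trans (h x z))

theorem exists_pf [TopologicalSpace.SeparableSpace (Lp ℝ 2 m)] (hk : GK k)
    (hs : ∀ x y, k x y = k y x) {c : ℝ} (hc : 0 < c) (h : ∀ x y, c ≤ k x y) :
    ∃ l r e, Vac m hk l r e ∧ r < 1 := by
  have Z : ∀ j, 0 < ∫ x, pw m k j x x ∂m := fun j => lt_of_lt_of_le (by simpa using pow_pos hc _)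
    (integral_mono (integrable_const (c ^ (j + 1))) (bf_diag (hk.pw j)).int
      fun x => pw_low hk hc h j x x)
  obtain ⟨D, D0, hD⟩ := (hk.pw (μ := m) 5).bdd
  have Z1 := Z 1
  have Z3 := Z 3
  have Z5 := Z 5
  obtain ⟨C, hC⟩ : ∃ C, C = (∫ x, pw m k 1 x x ∂m) ^ 2 / ∫ x, pw m k 3 x x ∂m := ⟨_, rfl⟩
  have C0 : 0 < C := by rw [hC]; positivity
  obtain ⟨κ, hκ⟩ : ∃ κ, κ = (∫ x, pw m k 5 x x ∂m) / (32 * C) / (D + 1) := ⟨_, rfl⟩
  have κ0 : 0 < κ := by rw [hκ]; positivity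
  have low : ∀ A, (∫ x, pw m k 5 x x ∂m) / (32 * C) ≤ ∫ x in A, pw m k 5 x x ∂m → κ ≤ m.real A :=
    fun A hA => by
      rw [hκ, div_le_iff₀' (by positivity)]
      refine hA.trans ((Real.le_norm_self _).trans ((norm_setIntegral_le_of_norm_le_const
        (measure_lt_top _ _) fun x _ => hD x x).trans ?_))
      gcongr
      linarith
  obtain ⟨l, r, e, V, hr, -⟩ := exists_vac hk hs (fun x y => hc.le.trans (h x y)) 0 0 C0
    (c := c ^ 6 * κ ^ 2 / ∫ x, pw m k 5 x x ∂m) (by positivity) Z1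
    (by rw [hC, zero_add 1, pow_one, div_mul_cancel₀ _ Z3.ne']) fun A B hA hB h1 h2 => by
      have g := gk_mul (hk.pw (μ := m) 1) (gk_swap (hk.pw (μ := m) 3))
      rw [div_mul_cancel₀ _ Z5.ne']
      refine le_trans ?_ (setIntegral_mono (f := fun _ => c ^ 6 * κ) (integrable_const _).integrableOn
        (bf_int (μ := m.restrict B) g).int.integrableOn fun x => le_trans ?_ (setIntegral_mono
          (f := fun _ => c ^ 2 * c ^ 4) (integrable_const _).integrableOn (g.int_row x).integrableOn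
          fun y => mul_le_mul (pw_low hk hc h 1 x y) (pw_low hk hc h 3 y x) (by positivity)
            ((pow_pos hc _).le.trans (pw_low hk hc h 1 x y))))
      · rw [setIntegral_const, smul_eq_mul, sq, ← mul_assoc, mul_comm]
        exact mul_le_mul_of_nonneg_right (low A h1) (by positivity)
      · rw [setIntegral_const, smul_eq_mul, ← pow_add, mul_comm]
        exact mul_le_mul_of_nonneg_right (low B h2) (by positivity)
  refine ⟨l, r, e, V, lt_of_pow_lt_pow_left₀ (2 * 0 + 2) zero_le_one ?_⟩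
  rw [hr, one_pow, sub_lt_self_iff]
  positivity

end kernels

end Pool.Agent.Lib.MP_7f377f_mp.Ch
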