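import Pool.Agent.Lib.MP_7f377f_mp.CyA

/-! Translations and reflections of a chain of slices; Gram, frame and slab bounds. -/

noncomputable section

namespace Pool.Agent.Lib.MP_7f377f_mp.Ch

open MeasureTheory Measure Function Filter Topology Pool.Agent.Lib.MP_2d4879_an Hm RGP
open scoped InnerProductSpace

set_option linter.unusedSectionVars false

variable {G : Type} [MeasurableSpace G] {μ : Measure G} [IsProbabilityMeasure μ] [Group G]
  [MeasurableMul₂ G] [MeasurableInv G] [μ.IsInvInvariant] [μ.IsMulRightInvariant] {E S : Type}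
  {W : (E → G) → (S → G) → (E → G) → ℝ} {F F' : (Ix E S → G) → ℝ} {a b : ℤ} {k : ℕ}

/-- time translation -/
def sft (s : ℤ) : (Ix E S → G) → Ix E S → G := pat (fun i => (i.1 + s, i.2)) fun _ => false

/-- time reflection -/
def rfc (c : ℤ) : (Ix E S → G) → Ix E S → G :=
  pat (fun i => (c - i.1 - Sum.elim (fun _ => 0) (fun _ => 1) i.2, i.2)) fun i => i.2.isRight

theorem meas_sft (s : ℤ) : Measurable (sft (G := G) (E := E) (S := S) s) := measurable_pat _ _

theorem meas_rfc (c : ℤ) : Measurable (rfc (G := G) (E := E) (S := S) c) := measurable_pat _ _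

theorem dep_sft (h : DependsOn F (Win a b)) (s : ℤ) :
    DependsOn (fun w => F (sft s w)) (Win (a + s) (b + s)) := fun _ _ hw => h fun i hi =>
  congrArg _ (hw _ (by simp only [Win, lev, Set.mem_ofPred_eq] at hi ⊢; omega))

theorem dep_rfc (h : DependsOn F (Win a b)) (c : ℤ) :
    DependsOn (fun w => F (rfc c w)) (Win (c - b) (c - a)) := fun _ _ hw => h fun i hi =>
  congrArg _ (hw _ (by
    obtain ⟨t, e | e⟩ := i <;>
      simp only [Win, lev, Set.mem_ofPred_eq, Sum.elim_inl, Sum.elim_inr] at hi ⊢ <;> omega))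

theorem put_sft (s t : ℤ) (x : E → G) (w : Ix E S → G) :
    sft s (put (t + s) x w) = put t x (sft s w) := by
  funext ⟨r, e⟩
  by_cases h : r = t <;> rcases e with e | e <;> simp [sft, pat, put, tl, h]

theorem put_rfc (c t : ℤ) (x : E → G) (w : Ix E S → G) :
    rfc c (put (c - t) x w) = put t x (rfc c w) := by
  funext ⟨r, e⟩
  rcases e with e | e
  · by_cases h : r = t <;> simp [rfc, pat, put, h]
  · rw [put_of_ne (by simp only [lev, Sum.elim_inr]; omega)]
    exact congrArg _ (put_of_ne (by simp only [lev, Sum.elim_inr]; omega) _ _)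

theorem ker_sft (bF : BM F) (s : ℤ) :
    ker μ (a + s) (b + s) (fun w => F (sft s w)) = ker μ a b F := by
  funext x y
  simp only [ker, put_sft]
  exact int_mp (mp_pat μ (fun i j h => by
    rw [Prod.mk.injEq] at h; exact Prod.ext (add_right_cancel h.1) h.2) _) (bm_put bF a b x y).meas

theorem ker_rfc (bF : BM F) (hab : a ≠ b) (c : ℤ) (x y : E → G) :
    ker μ (c - b) (c - a) (fun w => F (rfc c w)) x y = ker μ a b F y x := by
  simp only [ker, put_rfc, put_comm hab]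
  exact int_mp (mp_pat μ (fun i j h => by
    rw [Prod.mk.injEq] at h
    exact Prod.ext (by have := h.1; rw [h.2] at this; omega) h.2) _) (bm_put bF b a x y).meas

theorem wt_sft (s : ℤ) (w : Ix E S → G) : wt W a k (sft s w) = wt W (a + s) k w := by
  simp only [wt, add_right_comm a s, add_right_comm _ s 1]
  rfl

theorem wt_rfc (hi : ∀ x g y, W x g⁻¹ y = W y g x) (c : ℤ) (w : Ix E S → G) :
    wt W a k (rfc c w) = wt W (c - (a + k)) k w := by
  rw [wt, wt, ← Finset.prod_range_reflect]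
  refine Finset.prod_congr rfl fun i h => ?_
  have := Finset.mem_range.1 h
  rw [← hi]
  congr 1 <;> funext e <;> simp only [sl, tl, rfc, pat, Sum.elim_inl, Sum.elim_inr, Sum.isRight_inl,
    Sum.isRight_inr, sg_false, sg_true, Pi.inv_apply, inv_inv] <;> congr 2 <;> omega

namespace Wt
variable (hW : Wt μ W) {l r : ℝ} {e : Lp ℝ 2 (PP μ E)}

/-- the operator of an observable of a slab -/
abbrev Op (bF : BM F) (a : ℤ) (k : ℕ) : Lp ℝ 2 (PP μ E) →L[ℝ] Lp ℝ 2 (PP μ E) :=
  (hW.gk_obs bF a k).op _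

include hW in
theorem ok_mul (bF : BM F) (bF' : BM F') {k' : ℕ} (hb : a + (k + 1 : ℕ) = b)
    (dF : DependsOn F (Win a b)) (dF' : DependsOn F' (Win b (b + (k' + 1 : ℕ)))) :
    ker μ a (a + (k + 1 + k' + 1 : ℕ)) (fun w => F w * F' w * wt W a (k + 1 + k' + 1) w) =
      cv (PP μ E) (ker μ a (a + (k + 1 : ℕ)) fun w => F w * wt W a (k + 1) w)
        (ker μ b (b + (k' + 1 : ℕ)) fun w => F' w * wt W b (k' + 1) w) := by
  subst hb
  rw [← ker_mul μ (bF.mul (hW.bm_wt _ _)) (bF'.mul (hW.bm_wt _ _))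
    (DependsOn.mul' dF (dep_wt _ _ le_rfl le_rfl)) (DependsOn.mul' dF' (dep_wt _ _ le_rfl le_rfl))
    (by omega) (by omega)]
  congr 1
  · omega
  · funext w
    rw [add_assoc (k + 1), wt_add]
    ring

theorem op_mul (bF : BM F) (bF' : BM F') {k' : ℕ} (hb : a + (k + 1 : ℕ) = b)
    (dF : DependsOn F (Win a b)) (dF' : DependsOn F' (Win b (b + (k' + 1 : ℕ)))) (v) :
    hW.Op (bF.mul bF') a (k + 1 + k') v = hW.Op bF a k (hW.Op bF' b k' v) := by
  rw [← op_cv]
  exact congrArg (fun T : _ →L[ℝ] _ => T v) (op_congr _ _ (hW.ok_mul bF bF' hb dF dF'))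

theorem op_one (v) : hW.Op (BM.const 1) a k v = (hW.gk.op _ ^ (k + 1)) v := by
  rw [← op_pw_eq]
  exact congrArg (fun T : _ →L[ℝ] _ => T v)
    (op_congr _ _ (by simp only [one_mul]; exact hW.ker_wt k a))

include hW in
theorem ok_rfc (hi : ∀ x g y, W x g⁻¹ y = W y g x) (bF : BM F) {c : ℤ}
    (hb : c - (a + (k + 1 : ℕ)) = b) :
    ker μ b (b + (k + 1 : ℕ)) (fun w => F (rfc c w) * wt W b (k + 1) w) = fun x y =>
      ker μ a (a + (k + 1 : ℕ)) (fun w => F w * wt W a (k + 1) w) y x := by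
  funext x y
  rw [← ker_rfc (bF.mul (hW.bm_wt _ _)) (by omega) c]
  simp only [wt_rfc hi, hb]
  congr 1
  omega

include hW in
theorem tor_one (s : ℕ) :
    tor μ W a (s + 2) (fun _ => 1) = ∫ x, pw (PP μ E) (KK μ W) (s + 1) x x ∂PP μ E := by
  have := hW.int_tor (a := a) (k := 0) (BM.const 1) (fun _ _ _ => rfl) s
  simp only [one_mul, hW.ker_wt 0 a] at this
  rw [tor, show s + 2 = 0 + 1 + (s + 1) by ring]
  simp only [one_mul]
  exact this

variable (V : Vac (PP μ E) hW.gk l r e) (hp : ∀ v, 0 ≤ ⟪v, hW.gk.op (PP μ E) v⟫_ℝ)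
include V hp

theorem tor_step (s t : ℕ) :
    tor μ W a (s + 2 + t) (fun _ => 1) ≤ l ^ t * tor μ W a (s + 2) fun _ => 1 := by
  induction t with
  | zero => simp
  | succ t ih =>
    rw [pow_succ', mul_assoc]
    refine le_trans ?_ (mul_le_mul_of_nonneg_left ih V.pos.le)
    rw [add_right_comm s 2 t, add_right_comm s 2 (t + 1), hW.tor_one, hW.tor_one]
    exact tr_step hW.gk hW.symm hp (by simpa using V.nrm 1) V.pos.le (s + t)

theorem pow_le_tor (hr : r < 1) (s : ℕ) : l ^ (s + 2) ≤ tor μ W a (s + 2) fun _ => 1 := by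
  have h := (hW.tendsto_tor (a := a) (k := 0) V hr (BM.const 1) fun _ _ _ => rfl).comp
    (tendsto_add_atTop_nat (s + 2))
  have l0 := V.pos
  rw [hW.vac_one V] at h
  rw [← one_le_div (by positivity)]
  refine le_of_tendsto' h fun t => ?_
  rw [Function.comp, add_comm, div_le_div_iff₀ (by positivity) (by positivity), pow_add l _ t]
  exact (mul_le_mul_of_nonneg_right (hW.tor_step V hp s t) (by positivity)).trans_eq (by ring)

theorem slab_one (hi : ∀ x g y, W x g⁻¹ y = W y g x) (bF : BM F)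
    (dF : DependsOn F (Win a (a + (k + 1 : ℕ)))) (v) :
    ‖hW.Op bF a (k + 1) v‖ ^ 2 ≤ tor μ W (a - (k + 1 : ℕ)) (2 * k + 3)
      (fun w => F (rfc (2 * a) w) * F w) * l * ‖v‖ ^ 2 := by
  have bR := bF.comp (meas_rfc (2 * a))
  have dR : DependsOn _ (Win (a - (k + 1 : ℕ)) a) :=
    (dep_rfc dF (2 * a)).mono (Win.mono (by omega) (by omega))
  have h1 := hW.op_mul (k' := 0) bF (BM.const 1) rfl dF (fun _ _ _ => rfl) v
  have h2 := hW.int_tor (a := a - (k + 1 : ℕ)) (k := k + 1 + k) (bR.mul bF) (DependsOn.mul'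
    (dR.mono (Win.mono le_rfl (by omega))) (dF.mono (Win.mono (by omega) (by omega)))) 0
  rw [hW.ok_mul bR bF (sub_add_cancel _ _) dR dF, hW.ok_rfc (a := a) hi bF (by omega),
    show k + 1 + k + 1 + (0 + 1) = 2 * k + 3 by ring] at h2
  rw [hW.op_one, zero_add, pow_one] at h1
  rw [Op, op_congr _ (hW.gk_obs (bF.mul (BM.const 1)) a (k + 1 + 0)) (by simp only [mul_one]),
    h1, mul_assoc, tor]
  exact (hs_bound hW.gk hW.symm hp (by simpa using V.nrm 1) V.pos.le _ v).trans_eq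
    (congrArg (· * _) h2.symm)

theorem slab_many (hi : ∀ x g y, W x g⁻¹ y = W y g x) {Fs : ℕ → (Ix E S → G) → ℝ} {β : ℕ → ℝ}
    (bF : ∀ c, BM (Fs c)) (dF : ∀ c : ℕ, DependsOn (Fs c) (Win (a + c * (k + 2)) (a + c * (k + 2) +
      (k + 1 : ℕ)))) (hβ : ∀ c : ℕ, tor μ W (a + c * (k + 2) - (k + 1 : ℕ)) (2 * k + 3) (fun w =>
      Fs c (rfc (2 * (a + c * (k + 2))) w) * Fs c w) * l ≤ β c * (l ^ (k + 2)) ^ 2) (N : ℕ) :
    vac W l e a (N * (k + 2) + (k + 1)) (fun w => ∏ c ∈ Finset.range (N + 1), Fs c w) ^ 2 ≤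
      ∏ c ∈ Finset.range (N + 1), β c := by
  have l0 := V.pos
  have h1 : ∀ (c : ℕ) v, ‖hW.Op (bF c) (a + c * (k + 2)) (k + 1) v‖ ^ 2 ≤
      β c * (l ^ (k + 2)) ^ 2 * ‖v‖ ^ 2 := fun c v =>
    (hW.slab_one V hp hi (bF c) (dF c) v).trans (mul_le_mul_of_nonneg_right (hβ c) (sq_nonneg _))
  have h2 : ∀ (N : ℕ) v, ‖hW.Op (BM.prod (s := Finset.range (N + 1)) fun c _ => bF c) a
      (N * (k + 2) + (k + 1)) v‖ ^ 2 ≤ (∏ c ∈ Finset.range (N + 1), β c) *
      (l ^ (N * (k + 2) + (k + 1) + 1)) ^ 2 * ‖v‖ ^ 2 := fun N => by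
    induction N with
    | zero => simpa using h1 0
    | succ N ih =>
      intro v
      have h3 := hW.op_mul (a := a) (k := N * (k + 2) + (k + 1)) (k' := k + 1)
        (b := a + (N + 1 : ℕ) * (k + 2)) (BM.prod (s := Finset.range (N + 1)) fun c _ => bF c)
        (bF (N + 1)) (by push_cast; ring) (dep_prod fun c hc => (dF c).mono (Win.mono
          (le_add_of_nonneg_right (by positivity)) (by
            have : (c : ℤ) ≤ N := by exact_mod_cast Nat.le_of_lt_succ (Finset.mem_range.1 hc)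
            push_cast
            nlinarith))) ((dF _).mono (Win.mono le_rfl (by omega))) v
      have h4 := (ih _).trans (mul_le_mul_of_nonneg_left (h1 (N + 1) v) (by
        have := (sq_nonneg _).trans (ih e)
        rwa [V.one, one_pow, mul_one] at this))
      rw [← h3] at h4
      rw [show (N + 1) * (k + 2) + (k + 1) = N * (k + 2) + (k + 1) + 1 + (k + 1) by ring]
      simp only [Finset.prod_range_succ _ (N + 1)]
      exact h4.trans_eq (by ring)
  have h3 := pow_le_pow_left₀ (abs_nonneg _) (abs_real_inner_le_norm e (hW.Op (BM.prod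
    (s := Finset.range (N + 1)) fun c _ => bF c) a (N * (k + 2) + (k + 1)) e)) 2
  rw [hW.vac_eq (BM.prod fun c _ => bF c), div_pow, div_le_iff₀ (by positivity)]
  rw [V.one, one_mul, sq_abs] at h3
  simpa only [V.one, one_pow, mul_one] using h3.trans (h2 N e)

omit hp in
theorem vac_gram (hi : ∀ x g y, W x g⁻¹ y = W y g x) (bF : BM F) (bF' : BM F')
    (dF : DependsOn F (Win 0 (k + 1 : ℕ))) (dF' : DependsOn F' (Win 0 (k + 1 : ℕ))) (s : ℕ) :
    vac W l e (-(k + 1 : ℕ)) (k + 1 + s + k) (fun w => F (rfc 0 w) * F' (sft s w)) =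
      ⟪hW.Op bF 0 k e, (hW.gk.op _ ^ s) (hW.Op bF' 0 k e)⟫_ℝ / l ^ (k + 1 + s + k + 1) := by
  have bR := bF.comp (meas_rfc 0)
  have bS := bF'.comp (meas_sft s)
  have dS := dep_sft dF' s
  have d2 := DependsOn.mul' dS (dep_wt (W := W) (0 + s) (k + 1) le_rfl (by omega))
  have b2 := bS.mul (hW.bm_wt (0 + s) (k + 1))
  have h1 := hW.op_wt b2 d2 (by omega) s e 0 rfl
  rw [op_congr (gk_ker μ b2 _ _) (hW.gk_obs bF' 0 k) (by
    rw [← ker_sft (bF'.mul (hW.bm_wt _ _)) s]
    simp only [wt_sft, zero_add])] at h1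
  rw [hW.vac_eq (bR.mul bS), ← h1, add_assoc (k + 1), hW.op_mul bR bS (neg_add_cancel _)
    ((dep_rfc dF 0).mono (Win.mono (by omega) (by omega))) (dS.mono (Win.mono (by omega)
      (by omega))), adj_op]
  congr 2
  · exact congrArg (fun T : _ →L[ℝ] _ => T e) (op_congr _ _ (funext₂ fun x y =>
      congrFun₂ (hW.ok_rfc (a := 0) hi bF (by omega)) y x))
  · refine congrArg (fun T : _ →L[ℝ] _ => T e) (op_congr _ _ ?_)
    congr 1
    · omega
    · funext w
      rw [add_assoc s, wt_add]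
      ring

theorem gram_pos (hi : ∀ x g y, W x g⁻¹ y = W y g x) (bF : BM F)
    (dF : DependsOn F (Win 0 (k + 1 : ℕ))) (s : ℕ) :
    0 ≤ vac W l e (-(k + 1 : ℕ)) (k + 1 + s + k) (fun w => F (rfc 0 w) * F (sft s w)) ∧
    vac W l e (-(k + 1 : ℕ)) (k + 1 + s + k) (fun w => F (rfc 0 w) * F (sft s w)) ≤
      vac W l e (-(k + 1 : ℕ)) (k + 1 + 0 + k) fun w => F (rfc 0 w) * F (sft (0 : ℕ) w) := by
  have l0 := V.pos
  have hn : ∀ v, ‖hW.gk.op (PP μ E) v‖ ≤ l * ‖v‖ := by simpa using V.nrm 1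
  rw [hW.vac_gram V hi bF bF dF dF, hW.vac_gram V hi bF bF dF dF]
  refine ⟨div_nonneg (form_step (hW.gk.symm_op hW.symm) hp hn l0.le s _).1 (by positivity),
    (div_le_div_of_nonneg_right (form_le (hW.gk.symm_op hW.symm) hp hn l0.le _ s)
      (by positivity)).trans_eq ?_⟩
  rw [pow_zero, one_apply_eq_self]
  field_simp
  ring

omit hp in
theorem gram_frame (hi : ∀ x g y, W x g⁻¹ y = W y g x) {J : Type} [Fintype J]
    {Fs : J → (Ix E S → G) → ℝ} (bF : ∀ i, BM (Fs i))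
    (dF : ∀ i, DependsOn (Fs i) (Win 0 (k + 1 : ℕ))) {Λ : ℝ} (hΛ : 0 ≤ Λ)
    (h : ∀ c : J → ℝ, ∑ i, ∑ j, c i * c j * vac W l e (-(k + 1 : ℕ)) (k + 1 + 0 + k)
      (fun w => Fs i (rfc 0 w) * Fs j (sft (0 : ℕ) w)) ≤ Λ * ∑ i, c i ^ 2) (j : ℕ) :
    ∑ i, vac W l e (-(k + 1 : ℕ)) (k + 1 + (2 * j + 2) + k)
      (fun w => Fs i (rfc 0 w) * Fs i (sft (2 * j + 2 : ℕ) w)) ≤
      Λ * (tor μ W a (2 * j + 2) (fun _ => 1) / l ^ (2 * j + 2)) := by
  have l0 := V.pos
  simp only [hW.vac_gram V hi (bF _) (bF _) (dF _) (dF _), pow_zero, one_apply_eq_self] at h ⊢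
  have := tr_frame hW.gk hW.symm (v := fun i => hW.Op (bF i) 0 k e)
    (Λ := Λ * l ^ (k + 1 + 0 + k + 1)) (by positivity) (fun c => by
      rw [mul_right_comm, ← div_le_iff₀ (by positivity), ← real_inner_self_eq_norm_sq]
      refine le_of_eq_of_le ?_ (h c)
      simp only [sum_inner, inner_sum, inner_smul_left, inner_smul_right, Finset.sum_div,
        conj_trivial, Finset.mul_sum]
      rw [Finset.sum_comm]
      exact Finset.sum_congr rfl fun _ _ => Finset.sum_congr rfl fun _ _ => by ring) j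
  rw [← Finset.sum_div, div_le_iff₀ (by positivity), hW.tor_one]
  refine this.trans_eq ?_
  field_simp
  ring

end Wt

end Pool.Agent.Lib.MP_7f377f_mp.Ch
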