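import Pool.Agent.Lib.MP_7f377f_mp.HKer

/-! The infinite time limit of the Wilson measure and its clustering. -/

noncomputable section

namespace Pool.Agent.Lib.MP_7f377f_mp.Y6

open MeasureTheory Measure Function Filter Topology Pool.Agent.Lib.MP_2d4879_an Hm RGP Ch
  ProbabilityTheory BoundedContinuousFunction
open scoped InnerProductSpace Quaternion

set_option linter.unusedSectionVars false

/-- the links based at times in `[a, b)` -/
def Tm (a b : ℤ) : Set Link := {e | a ≤ e.1 0 ∧ e.1 0 < b}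

/-- truncation to a time interval -/
def cut (a b : ℤ) (U : Link → SU2) : Link → SU2 := fun e => if a ≤ e.1 0 ∧ e.1 0 < b then U e else 1

theorem cont_cut (a b : ℤ) : Continuous (cut a b) := continuous_pi fun e => by
  unfold cut
  split_ifs <;> fun_prop

theorem dep_cut {α : Type} {F : (Link → SU2) → α} {D : Set Link} (h : DependsOn F D) (a b : ℤ) :
    DependsOn (fun U => F (cut a b U)) (D ∩ Tm a b) := fun U V hU => h fun e he => by
  unfold cut
  split_ifs with h'
  exacts [hU e ⟨he, h'⟩, rfl]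

theorem tendsto_cut (a b : ℤ) (U : Link → SU2) :
    Tendsto (fun k : ℕ => cut (a - (k + 1 : ℕ)) (b + (k + 1 : ℕ)) U) atTop (𝓝 U) :=
  tendsto_pi_nhds.2 fun e => tendsto_const_nhds.congr' <|
    (eventually_ge_atTop ((a - e.1 0).toNat + (e.1 0 - b).toNat)).mono fun k hk =>
      (if_pos ⟨by omega, by omega⟩).symm

variable {n : ℕ}

theorem dep_tc {F : (Link → SU2) → ℝ} {a b : ℤ}
    (h : DependsOn F {e | a ≤ e.1 0 ∧ (e.1 + Pi.single e.2 1 : Fin 3 → ℤ) 0 ≤ b}) :
    DependsOn (fun w => F (lift (n := n) w)) (Win a b) := fun w w' hw => h fun e he => by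
  obtain ⟨x, i⟩ := e
  revert he
  refine Fin.cases (fun he => hw _ ?_) (fun j he => hw _ ?_) i <;>
    simp [Win, lev, ix] at he ⊢ <;> omega

theorem tm_le {e : Link} {b : ℤ} (h : e.1 0 < b) : (e.1 + Pi.single e.2 1 : Fin 3 → ℤ) 0 ≤ b := by
  rw [Pi.add_apply, Pi.single_apply]
  split_ifs <;> omega

theorem dep_lift {F : (Link → SU2) → ℝ} {a b : ℤ} (h : DependsOn F (Tm a b)) :
    DependsOn (fun w => F (lift (n := n) w)) (Win a b) :=
  dep_tc (h.mono fun _ he => ⟨he.1, tm_le he.2⟩)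

variable [MeasurableSpace SU2] [BorelSpace SU2]

theorem tendsto_int_cut (ν : Measure (Link → SU2)) [IsFiniteMeasure ν] {F : (Link → SU2) → ℝ}
    (hF : Continuous F) (a b : ℤ) : Tendsto (fun k : ℕ =>
      ∫ U, F (cut (a - (k + 1 : ℕ)) (b + (k + 1 : ℕ)) U) ∂ν) atTop (𝓝 (∫ U, F U ∂ν)) := by
  obtain ⟨C, hC⟩ := (bm_of_cont hF).bdd
  exact tendsto_integral_of_dominated_convergence (fun _ => C)
    (fun _ => (hF.comp (cont_cut _ _)).aestronglyMeasurable) (integrable_const _)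
    (fun _ => .of_forall fun _ => hC _) (.of_forall fun U => (hF.tendsto U).comp (tendsto_cut a b U))

variable (h : Measure SU2) [h.IsHaarMeasure] [IsProbabilityMeasure h] (β : ℝ)

instance (N : Fin 3 → ℕ) : IsProbabilityMeasure (wilson h β N) :=
  have := isProbabilityMeasure_tilted (μ := PP h Link) (f := fun U => β * action N (per N U))
    ((((BM.const β).mul (bm_of_cont (cont_action N))).comp (meas_per N)).exp.integrable _)
  isProbabilityMeasure_map (meas_per N).aemeasurable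

variable {h β} [NeZero n] {l r : ℝ} {e : Lp ℝ 2 (PP h (Ed n))}

theorem tendsto_loc (V : Vac _ (wt_WW h β).gk l r e) (hr : r < 1) {F : (Link → SU2) → ℝ}
    (bF : BM F) {a : ℤ} {k : ℕ}
    (dF : DependsOn (fun w => F (lift (n := n) w)) (Win a (a + (k + 1 : ℕ)))) :
    Tendsto (fun T => ∫ U, F U ∂wilson h β ![T, n, n]) atTop
      (𝓝 (vac (WW β) l e a k fun w => F (lift w))) := by
  simp only [int_wilson h β a bF.meas]
  exact (wt_WW h β).tendsto_vac V hr (bF.comp meas_lift) dF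

theorem exists_lim (V : Vac _ (wt_WW h β).gk l r e) (hr : r < 1) :
    ∃ μ : Measure (Link → SU2), IsProbabilityMeasure μ ∧ ∀ F : (Link → SU2) → ℝ, Continuous F →
      Tendsto (fun T => ∫ U, F U ∂wilson h β ![T, n, n]) atTop (𝓝 (∫ U, F U ∂μ)) := by
  let P : ℕ → ProbabilityMeasure (Link → SU2) := fun T => ⟨wilson h β ![T, n, n], inferInstance⟩
  have key : ∀ ν, MapClusterPt ν atTop P → ∀ (F : (Link → SU2) →ᵇ ℝ) (k : ℕ),
      ∫ U, F (cut (0 - (k + 1 : ℕ)) (0 + (k + 1 : ℕ)) U) ∂ν = vac (WW β) l e (0 - (k + 1 : ℕ))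
        (2 * k + 1) fun w => F (cut (0 - (k + 1 : ℕ)) (0 + (k + 1 : ℕ)) (lift w)) := by
    intro ν hν F k
    have h1 := hν.continuousAt_comp (ProbabilityMeasure.continuous_integral_boundedContinuousFunction
      (F.compContinuous ⟨_, cont_cut (0 - (k + 1 : ℕ)) (0 + (k + 1 : ℕ))⟩)).continuousAt
    exact eq_of_nhds_neBot (ClusterPt.mono h1 (tendsto_loc V hr
      (bm_of_cont (F.continuous.comp (cont_cut _ _))) (dep_lift ((dep_cut (dependsOn_univ F) _ _).mono
        fun e he => ⟨he.2.1, by have := he.2.2; push_cast at this ⊢; omega⟩))))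
  obtain ⟨ν, -, hν⟩ := isCompact_univ.exists_mapClusterPt (f := atTop) (u := P) (by simp)
  have : Tendsto P atTop (𝓝 ν) := isCompact_univ.tendsto_nhds_of_unique_mapClusterPt
    (.of_forall fun _ => trivial) fun ν' _ h' => ProbabilityMeasure.toMeasure_injective <|
      ext_of_forall_integral_eq_of_IsFiniteMeasure fun F => tendsto_nhds_unique
        (tendsto_int_cut _ F.continuous 0 0) <| (tendsto_int_cut _ F.continuous 0 0).congr
          fun k => (key ν hν F k).trans (key ν' h' F k).symm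
  exact ⟨ν, inferInstance, fun F hF => ProbabilityMeasure.tendsto_iff_forall_integral_tendsto.1 this
    (mkOfCompact ⟨F, hF⟩)⟩

variable {μ : Measure (Link → SU2)} [IsProbabilityMeasure μ]

theorem int_loc (V : Vac _ (wt_WW h β).gk l r e) (hr : r < 1)
    (hμ : ∀ F : (Link → SU2) → ℝ, Continuous F →
      Tendsto (fun T => ∫ U, F U ∂wilson h β ![T, n, n]) atTop (𝓝 (∫ U, F U ∂μ)))
    {F : (Link → SU2) → ℝ} (cF : Continuous F) {a : ℤ} {k : ℕ}
    (dF : DependsOn (fun w => F (lift (n := n) w)) (Win a (a + (k + 1 : ℕ)))) :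
    ∫ U, F U ∂μ = vac (WW β) l e a k fun w => F (lift w) :=
  tendsto_nhds_unique (hμ F cF) (tendsto_loc V hr (bm_of_cont cF) dF)

theorem clus_sq (V : Vac _ (wt_WW h β).gk l r e) (hr : r < 1)
    (hμ : ∀ F : (Link → SU2) → ℝ, Continuous F →
      Tendsto (fun T => ∫ U, F U ∂wilson h β ![T, n, n]) atTop (𝓝 (∫ U, F U ∂μ)))
    {F G : (Link → SU2) → ℝ} (cF : Continuous F) (cG : Continuous G) {s : ℤ} {t : ℕ}
    (dF : DependsOn F {e | (e.1 + Pi.single e.2 1 : Fin 3 → ℤ) 0 ≤ s})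
    (dG : DependsOn G {e | s + t ≤ e.1 0}) :
    (∫ U, F U * G U ∂μ - (∫ U, F U ∂μ) * ∫ U, G U ∂μ) ^ 2 ≤
      r ^ (2 * t) * (∫ U, F U * F U ∂μ) * ∫ U, G U * G U ∂μ := by
  have V' := vac_abs V hr (wt_WW h β).symm fun x y => ((wt_WW h β).KK_pos x y).le
  refine le_of_tendsto_of_tendsto' (((tendsto_int_cut μ (cF.mul cG) s (s + t)).sub
    ((tendsto_int_cut μ cF s (s + t)).mul (tendsto_int_cut μ cG s (s + t)))).pow 2)
    (((tendsto_int_cut μ (cF.mul cF) s (s + t)).const_mul _).mul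
      (tendsto_int_cut μ (cG.mul cG) s (s + t))) fun k => ?_
  have c := cont_cut (s - (k + 1 : ℕ)) (s + t + (k + 1 : ℕ))
  have d1 : DependsOn _ (Win (s - (k + 1 : ℕ)) (s - (k + 1 : ℕ) + (k + 1 : ℕ))) := dep_tc (n := n) <|
    (dep_cut dF (s - (k + 1 : ℕ)) (s + t + (k + 1 : ℕ))).mono fun e he =>
      ⟨he.2.1, by rw [sub_add_cancel]; exact he.1⟩
  have d2 : DependsOn _ (Win (s + t) (s + t + (k + 1 : ℕ))) := dep_lift (n := n) <|
    (dep_cut dG (s - (k + 1 : ℕ)) (s + t + (k + 1 : ℕ))).mono fun e he => ⟨he.1, he.2.2⟩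
  have d3 : DependsOn _ (Win (s - (k + 1 : ℕ)) (s - (k + 1 : ℕ) + (k + 1 + t + k + 1 : ℕ))) :=
    dep_lift (n := n) <| (dep_cut (dependsOn_univ (F * G)) (s - (k + 1 : ℕ))
      (s + t + (k + 1 : ℕ))).mono fun e he =>
        ⟨he.2.1, by have := he.2.2; push_cast at this ⊢; omega⟩
  have b1 := (bm_of_cont (cF.comp c)).comp (meas_lift (n := n))
  have b2 := (bm_of_cont (cG.comp c)).comp (meas_lift (n := n))
  have := (wt_WW h β).vac_clus V' ((Lp.coeFn_abs e).mono fun x hx => hx ▸ abs_nonneg _) b1 b2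
    (t := t) (by rw [sub_add_cancel]) d1 d2
  rw [int_loc V' hr hμ (by exact (cF.mul cG).comp c) d3, int_loc V' hr hμ (by exact cF.comp c) d1,
    int_loc V' hr hμ (by exact cG.comp c) d2]
  exact this.trans_eq (congrArg₂ (r ^ (2 * t) * · * ·)
    (int_loc V' hr hμ ((cF.mul cF).comp c) (DependsOn.mul' d1 d1)).symm
    (int_loc V' hr hμ ((cG.mul cG).comp c) (DependsOn.mul' d2 d2)).symm)

theorem clus_cov (V : Vac _ (wt_WW h β).gk l r e) (hr : r < 1)
    (hμ : ∀ F : (Link → SU2) → ℝ, Continuous F →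
      Tendsto (fun T => ∫ U, F U ∂wilson h β ![T, n, n]) atTop (𝓝 (∫ U, F U ∂μ)))
    {F G : (Link → SU2) → ℝ} (cF : Continuous F) (cG : Continuous G) {s : ℤ} {t : ℕ}
    (dF : DependsOn F {e | (e.1 + Pi.single e.2 1 : Fin 3 → ℤ) 0 ≤ s})
    (dG : DependsOn G {e | s + t ≤ e.1 0}) :
    |cov[F, G; μ]| ≤ r ^ t * √Var[F; μ] * √Var[G; μ] := by
  have z : ∫ U, F U - ∫ U, F U ∂μ ∂μ = 0 := by
    rw [integral_sub (Weak.cint _ cF) (integrable_const _)]
    simp
  have := clus_sq V hr hμ (F := fun U => F U - ∫ U, F U ∂μ) (G := fun U => G U - ∫ U, G U ∂μ) (s := s) (t := t)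
    (by fun_prop) (by fun_prop) (fun _ _ h => by simp only [dF h]) fun _ _ h => by simp only [dG h]
  rw [z, zero_mul, sub_zero] at this
  rw [variance_eq_integral cF.aemeasurable, variance_eq_integral cG.aemeasurable,
    ← Real.sqrt_sq (pow_nonneg V.r0 t), ← Real.sqrt_mul (sq_nonneg _), ← Real.sqrt_mul
      (mul_nonneg (sq_nonneg _) (integral_nonneg fun _ => sq_nonneg _))]
  refine Real.abs_le_sqrt ?_
  simpa only [covariance, sq, pow_mul'] using this

end Pool.Agent.Lib.MP_7f377f_mp.Y6
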