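import Mathlib

/-! Four dimensional `SU(2)` lattice gauge fields on `ℤ ^ 4`, periodic Wilson measures and the
smeared action density. -/

noncomputable section

namespace Pool.Agent.Lib.MP_7f377f_mp.YM9

open MeasureTheory
open scoped Quaternion

/-- the group `SU(2)` of unit quaternions -/
abbrev SU2 : Type := Metric.sphere (0 : ℍ) 1

/-- the links of the lattice: a site and a direction -/
abbrev Link : Type := (Fin 4 → ℤ) × Fin 4

/-- Euclidean space -/
abbrev R4 : Type := EuclideanSpace ℝ (Fin 4)

variable {k : ℕ}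

/-- the action density: the sum of `2 - tr U_p` over the six plaquettes `p` with corner `x` -/
def dens (U : Link → SU2) (x : Fin 4 → ℤ) : ℝ :=
  ∑ i, ∑ j, if i < j then 2 - 2 * (U (x, i) * U (x + Pi.single i 1, j) *
    (U (x + Pi.single j 1, i))⁻¹ * (U (x, j))⁻¹).1.re else 0

/-- the field with periods `N i` which agrees with `U` on the box `0 ≤ x i < N i` -/
def per (N : Fin 4 → ℕ) (U : Link → SU2) : Link → SU2 := fun e => U (fun i => e.1 i % N i, e.2)

/-- the Wilson measure of the torus with sides `N i`, as a measure on periodic fields -/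
def wilson [MeasurableSpace SU2] (h : Measure SU2) [IsProbabilityMeasure h] (b : ℝ)
    (N : Fin 4 → ℕ) : Measure (Link → SU2) :=
  ((Measure.infinitePi fun _ => h).tilted fun U =>
    -b * ∑ x ∈ Fintype.piFinset fun i => Finset.Ico (0 : ℤ) (N i), dens (per N U) x).map (per N)

/-- position of a site of the lattice of spacing `a` -/
def pt (a : ℝ) (x : Fin 4 → ℤ) : R4 := WithLp.toLp 2 fun i => a * x i

/-- the smeared action density -/
def field (a : ℝ) (f : R4 → ℝ) (U : Link → SU2) : ℝ := ∑' x, f (pt a x) * dens U x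

/-- correlation function of the centred smeared fields -/
def corr [MeasurableSpace SU2] (μ : Measure (Link → SU2)) (a : ℝ) (f : Fin k → R4 → ℝ) : ℝ :=
  ∫ U, ∏ i, (field a (f i) U - ∫ V, field a (f i) V ∂μ) ∂μ

/-- continuously differentiable functions with compact supports which are pairwise disjoint
modulo the spatial periods `m z` -/
def Adm (m : ℝ) (f : Fin k → R4 → ℝ) : Prop :=
  (∀ i, HasCompactSupport (f i) ∧ ContDiff ℝ 1 (f i)) ∧ ∀ i j, i ≠ j → ∀ x ∈ tsupport (f i),
    ∀ y ∈ tsupport (f j), ∀ z : Fin 4 → ℤ, z 0 = 0 → x ≠ y + pt m z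

/-- admissible families supported at positive times -/
def Pos (m : ℝ) (f : Fin k → R4 → ℝ) : Prop := Adm m f ∧ ∀ i, ∀ y ∈ tsupport (f i), 0 < y 0

/-- reflection of the time axis -/
def theta (f : R4 → ℝ) (y : R4) : ℝ := f (WithLp.toLp 2 (Function.update y 0 (-y 0)))

/-- matrix of the reflection in the hyperplane orthogonal to `y` -/
def mirror (y : R4) (i j : Fin 4) : ℝ := (if i = j then 1 else 0) - 2 * y i * y j / ‖y‖ ^ 2

/-- `π ^ (2 k)` times the correlation function of the action density of three free Maxwell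
fields at the points `y i` -/
def free (y : Fin k → R4) : ℝ :=
  ∑ σ : Equiv.Perm (Fin k), if ∀ i, σ i ≠ i then (3 / 2) ^ σ.cycleType.card *
    ∑ a : Fin k → Fin 4 × Fin 4, ∏ i, if (a i).1 < (a i).2 then
      (mirror (y (σ i) - y i) (a i).1 (a (σ i)).1 * mirror (y (σ i) - y i) (a i).2 (a (σ i)).2 -
        mirror (y (σ i) - y i) (a i).1 (a (σ i)).2 * mirror (y (σ i) - y i) (a i).2 (a (σ i)).1) /
        ‖y (σ i) - y i‖ ^ 4 else 0 else 0

end Pool.Agent.Lib.MP_7f377f_mp.YM9
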