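import Pool.Agent.Lib.MP_7f377f_mp.InfD

/-! Equicontinuity of the lattice correlations and time translations on the torus. -/

noncomputable section

namespace Pool.Agent.Lib.MP_7f377f_mp.YM7

open MeasureTheory Filter Topology Weak Set Real
open scoped NNReal

set_option linter.unusedSectionVars false

variable {k : ℕ}

theorem Adm.data {f : Fin k → R4 → ℝ} (hf : Adm f) : ∃ D q : ℕ,
    (∀ i, ∀ y ∈ tsupport (f i), ‖y‖ ≤ D) ∧ (∀ i, LipschitzWith D (f i) ∧ ∀ y, |f i y| ≤ D) ∧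
    ∀ i j, i ≠ j → ∀ x ∈ tsupport (f i), ∀ y ∈ tsupport (f j), 1 / (q + 1 : ℝ) ≤ dist x y := by
  obtain ⟨δ, δ0, hδ⟩ := hf.five.sep
  obtain ⟨q, hq⟩ := exists_nat_one_div_lt δ0
  obtain ⟨K, hK⟩ := hf.five.lip
  obtain ⟨R, R0, hR⟩ := (isCompact_iUnion fun i => (hf.1 i).1).isBounded.exists_pos_norm_le
  have h1 : ∀ i, ∀ y ∈ tsupport (f i), ‖y‖ ≤ R := fun i y hy => hR y (mem_iUnion.2 ⟨i, hy⟩)
  obtain ⟨D, hD⟩ := exists_nat_ge (R + K * (2 * R + 1))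
  have K0 := K.coe_nonneg
  exact ⟨D, q, fun i y hy => (h1 i y hy).trans (by nlinarith), fun i =>
    ⟨(hK i).weaken (by rw [← NNReal.coe_le_coe, NNReal.coe_natCast]; nlinarith), fun y =>
      (sup_le (hK i) R0.le (fun y hy => h1 i y (subset_tsupport _ hy)) y).trans (by linarith)⟩,
    fun i j hij x hx y hy => hq.le.trans (hδ i j hij x hx y hy)⟩

theorem cube_of {f : R4 → ℝ} {R : ℝ} (h : ∀ y ∈ tsupport f, ‖y‖ ≤ R) (y : R4) (hy : f y ≠ 0)
    (l : Fin 4) : |y l| ≤ R := (PiLp.norm_apply_le y l).trans (h y (subset_tsupport _ hy))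

theorem tmax {n : ℕ} {a t R : ℝ} (ha : 0 < a) (ht : 0 ≤ t) (hR : 0 ≤ R)
    (hn : 2 * (t + R + 3 * a) ≤ a * n) : ⌊t / a⌋₊ + ⌈R / a⌉₊ + 1 ≤ n / 2 := by
  have h1 := (le_div_iff₀ ha).1 (Nat.floor_le (div_nonneg ht ha.le))
  have h2 := Nat.ceil_lt_add_one (div_nonneg hR ha.le)
  rw [← sub_lt_iff_lt_add, lt_div_iff₀ ha] at h2
  have : (2 * (⌊t / a⌋₊ + ⌈R / a⌉₊ + 1) : ℝ) ≤ n :=
    le_of_mul_le_mul_left (by linarith) ha
  have : 2 * (⌊t / a⌋₊ + ⌈R / a⌉₊ + 1) ≤ n := by exact_mod_cast this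
  omega

section
variable {n : ℕ} [NeZero n]

/-- time translation of sources -/
def tr (s : ℤ) (F : Src n) : Src n := fun x => F (x - Pi.single 0 (s : ZMod n))

theorem tr_supp {f : R4 → ℝ} {a R : ℝ} (ha : 0 < a) (hf : ∀ y, f y ≠ 0 → 0 < y 0 ∧ y 0 ≤ R)
    {j : ℕ} (hj : j + ⌈R / a⌉₊ + 1 ≤ n / 2) (x : Site 4 n) (μ ν : Fin 4)
    (hx : tr j (src n a f) x μ ν ≠ 0) : (x 0).val < n / 2 := by
  obtain ⟨h1, h2⟩ := hf _ hx
  simp only [xp, Pi.sub_apply, Pi.single_eq_same] at h1 h2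
  have h3 : 0 < (x 0 - (j : ℤ)).valMinAbs := by
    exact_mod_cast (mul_pos_iff_of_pos_left ha).1 h1
  have h4 : (x 0 - (j : ℤ)).valMinAbs ≤ ⌈R / a⌉₊ := by
    exact_mod_cast ((le_div_iff₀' ha).2 h2).trans (Nat.le_ceil _)
  have h5 := ZMod.val_intCast (n := n) ((x 0 - (j : ℤ)).valMinAbs + j)
  rw [Int.emod_eq_of_lt (by omega) (by omega), Int.cast_add, ZMod.coe_valMinAbs,
    sub_add_cancel] at h5
  omega

theorem near_tr {f : R4 → ℝ} {R a t : ℝ} (hR : ∀ y, f y ≠ 0 → ∀ l, |y l| ≤ R) (ha : 0 < a) {s : ℤ}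
    (h1 : |t - a * s| ≤ 5 * a) (hn : 2 * (R + |t| + |t| + 5 * a) < a * n) :
    Near a (tr s (src n a f)) fun y => f (y - EuclideanSpace.single 0 t) := by
  have h2 : ∀ l, |(EuclideanSpace.single 0 t : R4) l| ≤ |t| := fun l => by
    by_cases hl : l = 0 <;> simp [hl]
  have := near_shift (f := fun y => f (y - EuclideanSpace.single 0 t)) (s := Pi.single 0 s)
    (v := EuclideanSpace.single 0 t) (fun y hy l => by
      have := abs_le.1 (hR _ hy l)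
      have := abs_le.1 (h2 l)
      rw [PiLp.sub_apply] at *
      rw [abs_le]
      constructor <;> linarith) ha (fun l => by
      by_cases hl : l = 0
      · simpa [hl] using h1
      · simp [hl, ha.le]) h2 hn
  have e : (fun l => ((Pi.single 0 s : Fin 4 → ℤ) l : ZMod n)) = Pi.single 0 (s : ZMod n) :=
    funext fun l => by by_cases hl : l = 0 <;> simp [hl]
  simp only [e, add_sub_cancel_right] at this
  exact this

variable [MeasurableSpace SU2] [BorelSpace SU2] (h : Measure SU2) [h.IsHaarMeasure]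
  [IsProbabilityMeasure h] (b : ℝ)

theorem gform_tr {m : ℕ} (c : Fin m → ℝ) {k : Fin m → ℕ} (F : ∀ a, Fin (k a) → Src n) (r s : ℤ) :
    gform h b c (fun a i => tr r (F a i)) (fun a i => tr s (F a i)) =
      gform h b c F fun a i => tr (r + s) (F a i) := by
  refine Finset.sum_congr rfl fun a _ => Finset.sum_congr rfl fun a' _ => ?_
  rw [← gcorr_shift h b _ (Pi.single 0 (r : ZMod n))]
  congr 2
  funext i x μ ν
  induction i using Fin.addCases <;> simp only [Fin.append_left, Fin.append_right, tr, rF]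
  · congr 1
    funext l
    by_cases hl : l = 0 <;> simp only [rq, rc] <;> split_ifs <;> simp [hl, rf]
    ring
  · rw [sub_sub, ← Pi.single_add, Int.cast_add]

theorem bnd_of {a τ C R δ r : ℝ} (H : ∀ F : Fin k → Src n, (∀ i, Nrm a τ (F i)) →
      (∀ i x μ ν, F i x μ ν ≠ 0 → ∀ l, |xp a x l| ≤ R + 1) →
      (∀ i j, i ≠ j → ∀ x μ ν y μ' ν', F i x μ ν ≠ 0 → F j y μ' ν' ≠ 0 →
        δ / 2 ≤ dist (xp a x) (xp a y)) → |gcorr h b n F| ≤ C) {K : Fin k → Set R4}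
    (hK : ∀ i, ∀ y ∈ K i, ‖y‖ ≤ R) (hδ : ∀ i j, i ≠ j → ∀ x ∈ K i, ∀ y ∈ K j, δ ≤ dist x y)
    (r1 : r ≤ δ / 4) (r2 : r ≤ 1) :
    Bnd (n := n) h b a τ C fun i => {x | ∃ y ∈ K i, dist y (xp a x) ≤ r} := by
  refine fun G g1 g2 => H G g1 (fun i x μ ν hx l => ?_) fun i j hij x μ ν y μ' ν' hx hy => ?_
  · obtain ⟨y, hy, hy'⟩ := g2 i x μ ν hx
    refine (PiLp.norm_apply_le _ l).trans ((norm_le_norm_add_norm_sub y _).trans ?_)
    rw [← dist_eq_norm]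
    linarith [hK i y hy]
  · obtain ⟨s, hs, hs'⟩ := g2 i x μ ν hx
    obtain ⟨t, ht, ht'⟩ := g2 j y μ' ν' hy
    linarith [hδ i j hij s hs t ht, dist_triangle4_right s t (xp a x) (xp a y)]

end

variable [MeasurableSpace SU2] [BorelSpace SU2] {h : Measure SU2} [h.IsHaarMeasure]
  [IsProbabilityMeasure h] {ι : Type} {Φ : Filter ι} {n : ι → ℕ} [∀ p, NeZero (n p)]
  {a b τ : ι → ℝ}

theorem Fam.big (hF : Fam Φ n a b τ) (M : ℝ) : ∀ᶠ p in Φ, M + 10 * a p < a p * n p := by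
  filter_upwards [hF.small one_pos, hF.vol.eventually_gt_atTop (M + 10)] with p h1 h2
  linarith

theorem Fam.b0 (hF : Fam Φ n a b τ) : ∀ᶠ p in Φ, 0 ≤ b p := by
  filter_upwards [hF.cpl.eventually_const_lt (show 0 < 11 / (6 * π ^ 2) by positivity),
    (tendsto_log_atTop.comp (tendsto_inv_nhdsGT_zero.comp hF.a0)).eventually_gt_atTop 0]
    with p h1 h2
  exact ((div_pos_iff_of_pos_right h2).1 h1).le

theorem Bd7.bnd (hB : Bd7 h Φ n a b τ) (k : ℕ) (R : ℝ) {δ : ℝ} (δ0 : 0 < δ) :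
    ∃ C, 0 ≤ C ∧ ∀ᶠ p in Φ, ∀ K : Fin k → Set R4, (∀ i, ∀ y ∈ K i, ‖y‖ ≤ R) →
      (∀ i j, i ≠ j → ∀ x ∈ K i, ∀ y ∈ K j, δ ≤ dist x y) → ∀ r ≤ δ / 4, r ≤ 1 →
      Bnd (n := n p) h (b p) (a p) (τ p) C fun i => {x | ∃ y ∈ K i, dist y (xp (a p) x) ≤ r} := by
  obtain ⟨C, C0, hC⟩ := hB k (R + 1) _ (half_pos δ0)
  exact ⟨C, C0, hC.mono fun p hp K h1 h2 r => bnd_of h _ hp h1 h2⟩

theorem Bd7.lip (hB : Bd7 h Φ n a b τ) (hF : Fam Φ n a b τ) (k : ℕ) (R : ℝ) {δ : ℝ} (δ0 : 0 < δ) :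
    ∃ C, ∀ᶠ p in Φ, ∀ (f : Fin k → R4 → ℝ) (L : Fin k → ℝ≥0),
      (∀ i, LipschitzWith (L i) (f i) ∧ ∀ y, f i y ≠ 0 → ‖y‖ ≤ R) →
      (∀ i j, i ≠ j → ∀ x y, f i x ≠ 0 → f j y ≠ 0 → δ ≤ dist x y) →
      |corr h (b p) (n p) (a p) f| ≤ C * ∏ i, L i := by
  obtain ⟨C, -, hC⟩ := hB.bnd k R δ0
  refine ⟨C * (2 * |R| + 1) ^ k, ?_⟩
  filter_upwards [hC, hF.pos, hF.big (2 * |R|)] with p h1 h2 h3 f L h4 h5
  have h6 : ∀ i y, f i y ≠ 0 → ‖y‖ ≤ |R| := fun i y hy => ((h4 i).2 y hy).trans (le_abs_self R)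
  rw [corr_eq, NNReal.coe_prod, mul_assoc, ← Fin.prod_const, ← Finset.prod_mul_distrib]
  exact (h1 (fun i => {y | f i y ≠ 0}) (fun i => (h4 i).2)
    (fun i j hij x hx y hy => h5 i j hij x y hx hy) 0 (by positivity) zero_le_one).sz
    (fun i => sz_src (h4 i).1.dist_le_mul (fun y => (sup_le (h4 i).1 (abs_nonneg R) (h6 i) y).trans_eq
      (mul_comm _ _)) (fun y hy l => (PiLp.norm_apply_le y l).trans (h6 i y hy))
      (le_mul_of_one_le_left (L i).2 (by linarith [abs_nonneg R])) h2.1 (by linarith) h2.2.le)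
    fun i x _ _ hx => ⟨_, hx, (dist_self _).le⟩

theorem Bd7.near (hB : Bd7 h Φ n a b τ) (hF : Fam Φ n a b τ) {f : Fin k → R4 → ℝ} (hf : Adm f)
    {F : ∀ p, Fin k → Src (n p)} (hN : ∀ᶠ p in Φ, ∀ i, Near (a p) (F p i) (f i)) :
    Tendsto (fun p => gcorr h (b p) (n p) (F p) - corr h (b p) (n p) (a p) f) Φ (𝓝 0) := by
  obtain ⟨D, q, h1, h2, h3⟩ := hf.data
  have δ0 : 0 < 1 / (q + 1 : ℝ) := by positivity
  obtain ⟨C, C0, hC⟩ := hB.bnd k D δ0
  have t0 := (tendsto_inv_atTop_zero.comp hF.tau).const_mul 10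
  have t1 := t0.const_mul (2 ^ k * (C * D ^ k))
  rw [mul_zero] at t0
  rw [mul_zero, mul_zero] at t1
  refine squeeze_zero_norm' ?_ t1
  filter_upwards [hC, hN, hF.pos, hF.big (2 * D), t0.eventually_le_const one_pos,
    hF.small (show 0 < 1 / (q + 1 : ℝ) / 40 by positivity), hF.small (show 0 < (1 / 10 : ℝ) by
      norm_num)] with p h4 h5 ⟨a0, τ0⟩ h6 h7 h8 h9
  have on : ∀ i (G : Src (n p)), Near (a p) G (f i) →
      On {x | ∃ y ∈ tsupport (f i), dist y (xp (a p) x) ≤ 10 * a p} G := fun i G hG x μ ν hx => by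
    obtain ⟨t, ht, e⟩ := (hG x μ ν).resolve_left fun h => hx h.1
    exact ⟨t, subset_tsupport _ (e ▸ hx :), ht⟩
  rw [corr_eq]
  refine (h4 _ h1 h3 (10 * a p) (by linarith) (by linarith)).pert (ε := 10 * (τ p / a p)⁻¹) C0
    D.cast_nonneg (by positivity) h7 (fun i => sz_src (h2 i).1.dist_le_mul (h2 i).2
      (cube_of (h1 i)) le_rfl a0 (by linarith) τ0.le) (fun i => sz_small (by positivity) a0.le
      fun x μ ν => ?_) (fun i => on i _ (h5 i)) fun i => on i _ (near_src a0.le _)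
  rcases h5 i x μ ν with e | ⟨t, ht, e⟩
  · change |F p i x μ ν - f i (xp (a p) x)| ≤ _
    rw [e.1, e.2, sub_zero, abs_zero]
    positivity
  · simp only [Pi.sub_apply, e]
    refine ((h2 i).1.dist_le_mul _ _).trans
      ((mul_le_mul_of_nonneg_left ht D.cast_nonneg).trans_eq ?_)
    field_simp

/-- classes of admissible families -/
def Cls (I : ℕ × ℕ × ℕ) : Type := {f : Fin I.1 → R4 → ℝ // Adm f ∧
  (∀ i, (tsupport (f i)).Nonempty) ∧ (∀ i, ∀ y ∈ tsupport (f i), ‖y‖ ≤ I.2.1) ∧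
  (∀ i, LipschitzWith I.2.1 (f i) ∧ ∀ y, |f i y| ≤ I.2.1) ∧ ∀ i j, i ≠ j →
    ∀ x ∈ tsupport (f i), ∀ y ∈ tsupport (f j), 1 / (I.2.2 + 1 : ℝ) ≤ dist x y}

/-- the values, the supports and the derivatives of a family -/
def jet (I : ℕ × ℕ × ℕ) (f : Cls I) (i : Fin I.1) :
    C(Metric.closedBall (0 : R4) I.2.1, ℝ × ℝ × (R4 →L[ℝ] ℝ)) :=
  ⟨fun y => (f.1 i y, Metric.infDist y.1 (tsupport (f.1 i)), fderiv ℝ (f.1 i) y),
    ((f.2.1.1 i).2.continuous.comp continuous_subtype_val).prodMk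
      (((Metric.continuous_infDist_pt _).comp continuous_subtype_val).prodMk
        (((f.2.1.1 i).2.continuous_fderiv one_ne_zero).comp continuous_subtype_val))⟩

theorem Bd7.equi (hB : Bd7 h Φ n a b τ) (hF : Fam Φ n a b τ) (I : ℕ × ℕ × ℕ) :
    ∃ C ρ : ℝ, 0 < ρ ∧ ∀ᶠ p in Φ, ∀ f g : Cls I, dist (jet I f) (jet I g) ≤ ρ →
      |corr h (b p) (n p) (a p) f.1 - corr h (b p) (n p) (a p) g.1| ≤
        C * dist (jet I f) (jet I g) := by
  obtain ⟨k, D, q⟩ := I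
  have δ0 : 0 < 1 / (q + 1 : ℝ) := by positivity
  have δ1 : 1 / (q + 1 : ℝ) ≤ 1 := by
    rw [div_le_one (by positivity)]
    linarith [q.cast_nonneg (α := ℝ)]
  obtain ⟨C, C0, hC⟩ := hB.bnd k D δ0
  refine ⟨2 ^ k * (C * (D + 1) ^ k), 1 / (q + 1 : ℝ) / 8, by positivity, ?_⟩
  filter_upwards [hC, hF.pos, hF.big (2 * D)] with p h1 ⟨a0, τ0⟩ h2 f g hρ
  have hj : ∀ i y, dist (jet _ f i y) (jet _ g i y) ≤ dist (jet _ f) (jet _ g) := fun i y =>
    (ContinuousMap.dist_apply_le_dist y).trans (dist_le_pi_dist (jet _ f) (jet _ g) i)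
  have ε0 : 0 ≤ dist (jet _ f) (jet _ g) := dist_nonneg
  generalize dist (jet _ f) (jet _ g) = ε at hj hρ ε0
  obtain ⟨f, f1, f2, f3, f4, f5⟩ := f
  obtain ⟨g, g1, g2, g3, g4, g5⟩ := g
  simp only [jet, ContinuousMap.coe_mk, Prod.dist_eq, max_le_iff, Subtype.forall,
    mem_closedBall_zero_iff] at hj
  have out : ∀ i (y : R4), ¬‖y‖ ≤ D → y ∉ tsupport (f i) ∧ y ∉ tsupport (g i) := fun i y hy =>
    ⟨fun h => hy (f3 i y h), fun h => hy (g3 i y h)⟩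
  have h3 : ∀ i y, |f i y - g i y| ≤ ε := fun i y => by
    by_cases hy : ‖y‖ ≤ D
    · exact (hj i y hy).1
    · rwa [image_eq_zero_of_notMem_tsupport (out i y hy).1,
        image_eq_zero_of_notMem_tsupport (out i y hy).2, sub_zero, abs_zero]
  have h4 : ∀ i, LipschitzWith ⟨ε, ε0⟩ (f i - g i) := fun i => by
    have d1 := (f1.1 i).2.differentiable one_ne_zero
    have d2 := (g1.1 i).2.differentiable one_ne_zero
    refine lipschitzWith_of_nnnorm_fderiv_le (d1.sub d2) fun y => ?_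
    rw [fderiv_sub (d1 y) (d2 y), ← NNReal.coe_le_coe, coe_nnnorm, ← dist_eq_norm]
    by_cases hy : ‖y‖ ≤ D
    · exact (hj i y hy).2.2
    · rwa [fderiv_of_notMem_tsupport _ (out i y hy).1, fderiv_of_notMem_tsupport _ (out i y hy).2,
        dist_self]
  have D1 : ε ≤ ε * (D + 1) := le_mul_of_one_le_right ε0 (by linarith [D.cast_nonneg (α := ℝ)])
  rw [corr_eq, corr_eq]
  refine (h1 _ g3 g5 _ le_rfl (by linarith)).pert C0 (by positivity) ε0 (by linarith)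
    (fun i => sz_src (g4 i).1.dist_le_mul (fun y => ((g4 i).2 y).trans (by linarith))
      (cube_of (g3 i)) (le_add_of_nonneg_right zero_le_one) a0 (by linarith) τ0.le)
    (fun i => sz_src (f := f i - g i) (ρ := D) (h4 i).dist_le_mul (fun y => (h3 i y).trans D1)
      (fun y hy l => (PiLp.norm_apply_le y l).trans (of_not_not fun h5 => hy ?_)) D1 a0
      (by linarith) τ0.le) (fun i x _ _ hx => ?_)
    fun i x _ _ hx => ⟨_, subset_tsupport _ hx, (dist_self _).trans_le (by positivity)⟩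
  · rw [Pi.sub_apply, image_eq_zero_of_notMem_tsupport (out i y h5).1,
      image_eq_zero_of_notMem_tsupport (out i y h5).2, sub_zero]
  · have h5 : xp (a p) x ∈ tsupport (f i) := subset_tsupport _ hx
    have h6 := (hj i _ (f3 i _ h5)).2.1
    rw [Metric.infDist_zero_of_mem h5, dist_zero_left] at h6
    obtain ⟨y, hy, h7⟩ := (Metric.infDist_lt_iff (g2 i)).1
      (((le_abs_self _).trans h6).trans_lt (by linarith : ε < 1 / (q + 1 : ℝ) / 4))
    exact ⟨y, hy, (dist_comm _ _).trans_le h7.le⟩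

end Pool.Agent.Lib.MP_7f377f_mp.YM7
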