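import Pool.Agent.Lib.MP_7f377f_mp.JetA

/-! Multi-affine truncation and equivalence of jets. -/

noncomputable section

namespace Pool.Agent.Lib.MP_7f377f_mp.Jet

open Metric Filter Function MeasureTheory Finset
open scoped Topology

/-- additivity of directional derivatives -/
theorem deriv_diag {f : ℂ → ℂ → ℂ} {r M : ℝ} (r0 : 0 < r)
    (h1 : ∀ z ∈ ball (0 : ℂ) r, DifferentiableOn ℂ (f z) (ball 0 r))
    (h2 : ∀ t ∈ ball (0 : ℂ) r, DifferentiableOn ℂ (f · t) (ball 0 r))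
    (hM : ∀ z ∈ ball (0 : ℂ) r, ∀ t ∈ ball (0 : ℂ) r, ‖f z t‖ ≤ M) :
    HasDerivAt (fun t => f t t) (deriv (f · 0) 0 + deriv (f 0) 0) 0 := by
  have b := mem_ball_self (x := (0 : ℂ)) r0
  have k : HasDerivAt (fun t => f t t - f t 0 - (f 0 t - f 0 0)) 0 0 := by
    refine hasDerivAt_iff_tendsto_slope.2 (NormedAddGroup.tendsto_nhds_zero.2 fun ε ε0 => ?_)
    filter_upwards [ev_ball r0, ev_small (2 * (2 * M / r) / r) ε0] with t h h'
    have := lip0 ((h2 t h.2).sub (h2 0 b)) (fun z hz => lip0 (h1 z hz) (hM z hz) h.2) h.2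
    rw [slope_def_module, norm_smul, norm_inv, sub_zero, sub_self, sub_zero,
      inv_mul_lt_iff₀ (norm_pos_iff.2 h.1)]
    exact this.trans_lt (by
      convert mul_lt_mul_of_pos_left h' (norm_pos_iff.2 h.1) using 1; ring)
  exact (((k.add ((h2 0 b).differentiableAt (ball_mem_nhds _ r0)).hasDerivAt).add
    (((h1 0 b).differentiableAt (ball_mem_nhds _ r0)).hasDerivAt.sub_const (f 0 0))).congr_deriv
      (by simp)).congr_of_eventuallyEq (.of_forall fun t => by simp only [Pi.add_apply]; ring)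

variable {ι : Type} [DecidableEq ι] {r : ι → ℝ} {M M' ρ : ℝ} {g g' f f' : (ι → ℂ) → ℂ}
  {s : ι → ℂ} {i j : ι} {S T A D : Finset ι} {t : ℂ}

/-- the monomial -/
def mon (S : Finset ι) (s : ι → ℂ) : ℂ := ∏ i ∈ S, s i

theorem mon_upd (hi : i ∉ S) : mon S (update s i t) = mon S s :=
  prod_congr rfl fun _ hj => update_of_ne (ne_of_mem_of_not_mem hj hi) _ _

section ma

variable {V : Type} [AddCommMonoid V] [Module ℂ V] {a a' : Finset ι → V}

/-- the multi-affine function with coefficients `a` -/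
def ma (A : Finset ι) (a : Finset ι → V) (s : ι → ℂ) : V := ∑ S ∈ A.powerset, mon S s • a S

omit [DecidableEq ι] in
theorem ma_congr (h : ∀ S ⊆ A, a S = a' S) : ma A a = ma A a' :=
  funext fun _ => sum_congr rfl fun S hS => by rw [h S (mem_powerset.1 hS)]

omit [DecidableEq ι] in
theorem ma_add : ma A (a + a') s = ma A a s + ma A a' s := by simp [ma, sum_add_distrib]

omit [DecidableEq ι] in
theorem ma_map {W : Type} [AddCommMonoid W] [Module ℂ W] (L : V →ₗ[ℂ] W) :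
    L (ma A a s) = ma A (fun S => L (a S)) s := by simp [ma]

omit [DecidableEq ι] in
theorem ma_apply {α : Type} {a : Finset ι → α → V} (x : α) : ma A a s x = ma A (a · x) s := by
  simp [ma]

theorem ma_insert (hi : i ∉ A) :
    ma (insert i A) a s = ma A a s + s i • ma A (fun S => a (insert i S)) s := by
  rw [ma, sum_powerset_insert hi, ma, ma, smul_sum]
  exact congrArg _ (sum_congr rfl fun S hS => by
    rw [mon, prod_insert fun h => hi (mem_powerset.1 hS h), mul_smul, mon])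

theorem ma_upd (hi : i ∉ A) : ma A a (update s i t) = ma A a s :=
  sum_congr rfl fun S hS => by rw [mon_upd fun h => hi (mem_powerset.1 hS h)]

theorem ma_line (hi : i ∈ A) : ma A a (update s i t) =
    ma (A.erase i) a s + t • ma (A.erase i) (fun S => a (insert i S)) s := by
  conv_lhs => rw [← insert_erase hi, ma_insert (notMem_erase _ _)]
  simp [ma_upd]

theorem ma_zero : ma A a 0 = a ∅ := by
  induction A using Finset.induction_on with
  | empty => simp [ma, mon]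
  | insert i A hi ih => simp [ma_insert hi, ih]

theorem ma_single (hi : i ∈ A) : ma A a (Pi.single i t) = a ∅ + t • a {i} := by
  simpa [ma_zero, Pi.single] using ma_line (a := a) (s := 0) (t := t) hi

end ma

theorem ma_hol (a : Finset ι → ℂ) (s : ι → ℂ) (i : ι) :
    Differentiable ℂ fun t => ma A a (update s i t) := by
  by_cases hi : i ∈ A
  · simp only [ma_line hi]; fun_prop
  · simp only [ma_upd hi]; fun_prop

theorem sh_ma (hr : ∀ i, 0 < r i) (A : Finset ι) (a : Finset ι → ℂ) :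
    SH r (∑ S ∈ A.powerset, (∏ i ∈ S, r i) * ‖a S‖) (ma A a) :=
  ⟨hr, fun s _ i => (ma_hol a s i).differentiableOn, fun s hs => norm_sum_le_of_le _ fun S _ => by
    rw [norm_smul, mon, norm_prod]
    gcongr with i
    exact (hs i).le⟩

theorem jd_ma (a : Finset ι → ℂ) (hT : T ⊆ A) : jd T (ma A a) = a T := by
  induction T using Finset.induction_on generalizing A a with
  | empty => simp [ma_zero]
  | insert i T hi ih =>
    rw [(sh_ma (fun _ => one_pos) A a).jd_insert hi, ← ih (A := A.erase i) (fun S => a (insert i S))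
      (subset_erase.2 ⟨(subset_insert _ _).trans hT, hi⟩)]
    exact congrArg _ (funext fun s => by simp [pd, ma_line (hT (mem_insert_self _ _))])

theorem dep_ma {D : Set ι} {a : Finset ι → ℂ} (h : ∀ S ⊆ A, ¬ (S : Set ι) ⊆ D → a S = 0) :
    Dep r D (ma A a) := fun s _ i hi t _ => sum_congr rfl fun S hS => by
  by_cases e : i ∈ S
  · simp [h S (mem_powerset.1 hS) fun k => hi (k e)]
  · rw [mon_upd e]

theorem jd_ma0 (a : Finset ι → ℂ) (hT : ¬ T ⊆ A) : jd T (ma A a) = 0 :=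
  jd_dep (sh_ma (fun _ => one_pos) A a) (D := A) (dep_ma fun _ h h' => (h' h).elim) hT

/-- the multi-affine truncation -/
def tr (A : Finset ι) (g : (ι → ℂ) → ℂ) : (ι → ℂ) → ℂ := ma A fun S => jd S g

theorem jd_tr (g : (ι → ℂ) → ℂ) (hT : T ⊆ A) : jd T (tr A g) = jd T g := jd_ma _ hT

theorem tr_zero : tr A g 0 = g 0 := by simp [tr, ma_zero]

theorem tr_ma (a : Finset ι → ℂ) : tr A (ma A a) = ma A a := ma_congr fun _ => jd_ma a

theorem dep_tr {D : Set ι} {r' : ι → ℝ} (h : SH r M g) (d : Dep r D g) : Dep r' D (tr A g) :=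
  dep_ma fun _ _ => jd_dep h d

theorem tr_le0 (h : SH r M g) (d : ∀ S ⊆ A, ¬ S ⊆ D → jd S g = 0) (s : ι → ℂ) :
    ‖tr A g s‖ ≤ (∏ i ∈ D, (1 + ‖s i‖ / r i)) * M := by
  have p : ∀ S : Finset ι, 0 ≤ (∏ i ∈ S, ‖s i‖ / r i) * M := fun S =>
    mul_nonneg (prod_nonneg fun i _ => div_nonneg (norm_nonneg _) (h.pos i).le) h.nonneg
  rw [prod_one_add, sum_mul, tr, ma, ← sum_subset (filter_subset (· ⊆ D) _) fun S hS h' => by
    rw [d S (mem_powerset.1 hS) fun k => h' (mem_filter.2 ⟨hS, k⟩), smul_zero]]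
  refine (norm_sum_le_of_le _ fun S _ => ?_).trans (sum_le_sum_of_subset_of_nonneg
    (fun S hS => mem_powerset.2 (mem_filter.1 hS).2) fun S _ _ => p S)
  rw [norm_smul, mon, norm_prod, prod_div_distrib, div_mul_eq_mul_div, mul_div_assoc]
  gcongr
  exact h.jd_le S

theorem tr_le' (h : SH r M g) (d : Dep r D g) (s : ι → ℂ) :
    ‖tr A g s‖ ≤ (∏ i ∈ D, (1 + ‖s i‖ / r i)) * M := tr_le0 h (fun _ _ => jd_dep h d) s

theorem tr_le1 (h : SH r M g) (d : ∀ S ⊆ A, ¬ S ⊆ D → jd S g = 0) (hs : ∀ i, ‖s i‖ ≤ ρ * r i) :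
    ‖tr A g s‖ ≤ (1 + ρ) ^ D.card * M := by
  refine (tr_le0 h d s).trans (mul_le_mul_of_nonneg_right ?_ h.nonneg)
  rw [← prod_const]
  gcongr with i
  · exact fun i _ => add_nonneg zero_le_one (div_nonneg (norm_nonneg _) (h.pos i).le)
  · exact (div_le_iff₀ (h.pos i)).2 (hs i)

theorem tr_le (h : SH r M g) (d : Dep r D g) (hs : ∀ i, ‖s i‖ ≤ ρ * r i) :
    ‖tr A g s‖ ≤ (1 + ρ) ^ D.card * M := tr_le1 h (fun _ _ => jd_dep h d) hs

theorem sh_tr {r' : ι → ℝ} (h : SH r M g) (d : Dep r D g) (hr : ∀ i, 0 < r' i)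
    (e : ∀ i, r' i ≤ ρ * r i) : SH r' ((1 + ρ) ^ D.card * M) (tr A g) :=
  ⟨hr, (sh_ma hr _ _).hol, fun _ hs => tr_le h d fun i => (hs i).le.trans (e i)⟩

theorem tr_sub (h : SH r M g) (h' : SH r M' g') : tr A (g - g') = tr A g - tr A g' := by
  ext; simp [tr, ma, jd_sub h h', mul_sub]

theorem tr_add (h : SH r M g) (h' : SH r M' g') : tr A (g + g') = tr A g + tr A g' := by
  ext; simp [tr, ma, jd_add h h', mul_add, sum_add_distrib]

theorem jd_const (c : ℂ) (hS : S.Nonempty) : jd S (fun _ => c) = 0 :=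
  jd_indep (sh_const (fun _ => one_pos) c) hS.choose_spec fun _ _ _ _ => rfl

theorem tr_const (c : ℂ) : tr A (fun _ => c) = fun _ => c := by
  ext s
  rw [tr, ma, sum_eq_single_of_mem ∅ (empty_mem_powerset _) fun S _ h => by
    rw [jd_const c (nonempty_iff_ne_empty.2 h), smul_zero]]
  simp [mon]

theorem tr_real (h : SH r M g) (e : ∀ s ∈ Pd r, (∀ i, (s i).im = 0) → (g s).im = 0)
    (hs : ∀ i, (s i).im = 0) : (tr A g s).im = 0 := by
  have : ∀ S, (mon S s).im = 0 := fun S => prod_induction _ (fun z : ℂ => z.im = 0)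
    (fun _ _ h h' => by simp [h, h']) rfl fun i _ => hs i
  simp [tr, ma, this, jd_real h e]

theorem tr_hol {Ω : Set ℂ} (hΩ : IsOpen Ω) {g : ℂ → (ι → ℂ) → ℂ} (h : ∀ z ∈ Ω, SH r M (g z))
    (hz : ∀ s ∈ Pd r, DifferentiableOn ℂ (g · s) Ω) (s : ι → ℂ) :
    DifferentiableOn ℂ (fun z => tr A (g z) s) Ω :=
  .fun_sum fun S _ => (jd_hol hΩ h hz S).const_mul (mon S s)

theorem jd_scale (c : ι → ℂ) (g : (ι → ℂ) → ℂ) (S : Finset ι) :
    jd S (fun s => g (c * s)) = (∏ i ∈ S, c i) * jd S g := by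
  have : ∀ l : List ι, l.foldr pd (fun s => g (c * s)) =
      fun s => (l.map c).prod * l.foldr pd g (c * s) := fun l => by
    induction l with
    | nil => simp
    | cons i l ih =>
      ext s
      have := deriv_comp_mul_left (c i) (fun t => l.foldr pd g (update (c * s) i t)) 0
      simp only [List.foldr_cons, ih, pd, deriv_const_mul_field', List.map_cons, List.prod_cons]
      rw [mul_zero, smul_eq_mul] at this
      rw [mul_comm (c i), mul_assoc, ← this]
      refine congrArg (_ * deriv · 0) (funext fun t => congrArg _ (funext fun j => ?_))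
      by_cases e : j = i <;> simp [e]
  simp [jd, this]

theorem jd_relabel {κ : Type} [DecidableEq κ] {e : ι → κ} (he : Injective e) {r' : κ → ℝ}
    (h : SH r M g) (h' : SH r' M' fun s => g (s ∘ e)) (S : Finset ι) :
    jd (S.image e) (fun s => g (s ∘ e)) = jd S g := by
  induction S using Finset.induction_on generalizing g M M' with
  | empty => simp [Pi.zero_comp]
  | insert i S hi ih =>
    have k : pd (e i) (fun s => g (s ∘ e)) = fun s => pd i g (s ∘ e) := by
      ext s; simp only [pd, update_comp_eq_of_injective _ he]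
    rw [image_insert, h'.jd_insert (by simpa [he.eq_iff] using hi), h.jd_insert hi, k,
      ih (h.pd i) (k ▸ h'.pd (e i))]

theorem SH.comp {φ : ℂ → ℂ} {Ω : Set ℂ} (h : SH r M g) (hφ : DifferentiableOn ℂ φ Ω)
    (m : ∀ s ∈ Pd r, g s ∈ Ω) (b : ∀ s ∈ Pd r, ‖φ (g s)‖ ≤ M') : SH r M' fun s => φ (g s) :=
  ⟨h.pos, fun s hs i => hφ.comp (h.hol s hs i) fun _ ht => m _ (Pd.upd hs ht), b⟩

theorem SH.shrink {r' : ι → ℝ} (h : SH r M g) (hr : ∀ i, 0 < r' i) (e : ∀ i, r' i ≤ r i) :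
    SH r' M g :=
  ⟨hr, fun s hs i => (h.hol s (fun j => (hs j).trans_le (e j)) i).mono (ball_subset_ball (e i)),
    fun s hs => h.bd s fun j => (hs j).trans_le (e j)⟩

theorem SH.sum {α : Type} (hr : ∀ i, 0 < r i) {X : Finset α} {g : α → (ι → ℂ) → ℂ} {m : α → ℝ}
    (h : ∀ x ∈ X, SH r (m x) (g x)) : SH r (∑ x ∈ X, m x) fun s => ∑ x ∈ X, g x s :=
  ⟨hr, fun s hs i => .fun_sum fun x hx => (h x hx).hol s hs i,
    fun s hs => norm_sum_le_of_le _ fun x hx => (h x hx).bd s hs⟩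

theorem SH.prod {α : Type} (hr : ∀ i, 0 < r i) {X : Finset α} {g : α → (ι → ℂ) → ℂ} {m : α → ℝ}
    (h : ∀ x ∈ X, SH r (m x) (g x)) : SH r (∏ x ∈ X, m x) fun s => ∏ x ∈ X, g x s :=
  ⟨hr, fun s hs i => .fun_finsetProd fun x hx => (h x hx).hol s hs i, fun s hs =>
    (norm_prod _ _).trans_le (prod_le_prod (fun _ _ => norm_nonneg _) fun x hx => (h x hx).bd s hs)⟩

theorem jd_sum {α : Type} (hr : ∀ i, 0 < r i) {X : Finset α} {g : α → (ι → ℂ) → ℂ} {m : α → ℝ}
    (h : ∀ x ∈ X, SH r (m x) (g x)) (S : Finset ι) :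
    jd S (fun s => ∑ x ∈ X, g x s) = ∑ x ∈ X, jd S (g x) := by
  classical
  induction X using Finset.induction_on with
  | empty => exact jd_zero S
  | insert x X hx ih =>
    have k := fun y hy => h y (mem_insert_of_mem hy)
    simp only [sum_insert hx]
    exact (jd_add (h x (mem_insert_self _ _)) (SH.sum hr k) S).trans (by rw [ih k])

/-- factorisation of the jets of a product of functions of disjoint sets of variables -/
theorem jd_mul_dep (h : SH r M g) (h' : SH r M' g') (d : Dep r D g) (d' : Dep r (D : Set ι)ᶜ g')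
    (S : Finset ι) : jd S (g * g') = jd (S ∩ D) g * jd (S \ D) g' := by
  rw [jd_mul h h', sum_eq_single_of_mem (S ∩ D) (mem_powerset.2 inter_subset_left), sdiff_inter_self_left]
  intro T hT e
  by_cases k : T ⊆ D
  · rw [jd_dep h' d' fun k' => e ((subset_inter (mem_powerset.1 hT) k).antisymm fun i hi => by
      by_contra k2
      exact k' (mem_sdiff.2 ⟨(mem_inter.1 hi).1, k2⟩) (mem_inter.1 hi).2), mul_zero]
  · rw [jd_dep h d k, zero_mul]

theorem sh_lin (hr : ∀ i, 0 < r i) (A : Finset ι) (c : ι → ℂ) :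
    SH r (∑ i ∈ A, r i * ‖c i‖) fun s => ∑ i ∈ A, s i * c i :=
  SH.sum hr fun i _ => ⟨hr, fun s _ j => by
    rcases eq_or_ne i j with rfl | e
    · simp only [update_self]; fun_prop
    · simp only [update_of_ne e]; fun_prop, fun s hs => by
      rw [norm_mul]; gcongr; exact (hs i).le⟩

theorem jd_exp_lin (c : ι → ℂ) (hS : S ⊆ A) :
    jd S (fun s => Complex.exp (∑ i ∈ A, s i * c i)) = ∏ i ∈ S, c i := by
  have h := (sh_lin (fun _ => one_pos) A c).exp
  induction S using Finset.induction_on with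
  | empty => simp
  | insert i S hi ih =>
    have hA := hS (mem_insert_self _ _)
    rw [h.jd_insert hi, prod_insert hi, ← ih ((subset_insert _ _).trans hS), ← jd_rs h hi, ← jd_smul]
    refine congrArg _ (funext fun s => ?_)
    have e : ∀ t, ∑ j ∈ A, update s i t j * c j = t * c i + ∑ j ∈ A.erase i, s j * c j := fun t => by
      rw [← add_sum_erase _ _ hA, update_self]
      exact congrArg _ (sum_congr rfl fun j hj => by rw [update_of_ne (ne_of_mem_erase hj)])
    simp only [pd, rs, e, Pi.smul_apply, smul_eq_mul, mul_comm (c i)]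
    simp

section int

variable {Z : Type} [MeasurableSpace Z] {f : Z → (ι → ℂ) → ℂ}

theorem tr_meas {m : Z → ℝ} (hr : ∀ i, 0 < r i) (h : ∀ ω, SH r (m ω) (f ω))
    (hm : ∀ s ∈ Pd r, Measurable (f · s)) (s : ι → ℂ) : Measurable fun ω => tr A (f ω) s :=
  measurable_sum _ fun S _ => (jd_meas hr h hm S).const_mul _

variable (μ : Measure Z) [IsFiniteMeasure μ]

theorem tr_int (hr : ∀ i, 0 < r i) (h : ∀ ω, SH r M (f ω)) (hm : ∀ s ∈ Pd r, Measurable (f · s))
    (s : ι → ℂ) : tr A (fun s => ∫ ω, f ω s ∂μ) s = ∫ ω, tr A (f ω) s ∂μ := by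
  simp only [tr, ma, jd_int μ hr h hm, smul_eq_mul, ← integral_const_mul]
  exact (integral_finsetSum _ fun S _ => .const_mul (.of_bound
    (jd_meas hr h hm S).aestronglyMeasurable _ (ae_of_all _ fun ω => (h ω).jd_le S)) _).symm

theorem sh_src (hr : ∀ i, 0 < r i) {O : ι → ℂ} {w : ℂ} {C : ι → ℝ} (hO : ∀ i ∈ A, ‖O i‖ ≤ C i)
    (hw : ‖w‖ ≤ M) : SH r (M * Real.exp (∑ i ∈ A, r i * C i))
      fun s => w * Complex.exp (∑ i ∈ A, s i * O i) :=
  ((sh_lin hr A O).exp.smul w).mono (by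
    have := (norm_nonneg _).trans hw
    gcongr with i hi
    exacts [(hr i).le, hO i hi])

/-- moments are jets of the generating function -/
theorem jd_mom {O : ι → Z → ℂ} {w : Z → ℂ} {C : ι → ℝ} (hO : ∀ i ∈ A, ∀ ω, ‖O i ω‖ ≤ C i)
    (hw : ∀ ω, ‖w ω‖ ≤ M) (mO : ∀ i ∈ A, Measurable (O i)) (mw : Measurable w) (hS : S ⊆ A) :
    jd S (fun s => ∫ ω, w ω * Complex.exp (∑ i ∈ A, s i * O i ω) ∂μ) =
      ∫ ω, w ω * ∏ i ∈ S, O i ω ∂μ := by
  rw [jd_int μ (fun _ => one_pos) (fun ω => sh_src (fun _ => one_pos) (fun i hi => hO i hi ω) (hw ω))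
    fun s _ => mw.mul (measurable_sum _ fun i hi => (mO i hi).const_mul _).cexp]
  exact congrArg _ (funext fun ω => (jd_smul (w ω) _ S).trans (by rw [jd_exp_lin _ hS]))

end int

/-- separately holomorphic and bounded -/
def Hb (r : ι → ℝ) (g : (ι → ℂ) → ℂ) : Prop := ∃ M, SH r M g

/-- equal multi-affine jets in the variables `A` -/
structure Eqv (r : ι → ℝ) (A : Finset ι) (g g' : (ι → ℂ) → ℂ) : Prop where
  fst : Hb r g
  snd : Hb r g'
  eq : ∀ S ⊆ A, jd S g = jd S g'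

theorem Hb.refl (h : Hb r g) : Eqv r A g g := ⟨h, h, fun _ _ => rfl⟩

theorem Hb.tr (h : Hb r g) : Eqv r A g (tr A g) :=
  ⟨h, ⟨_, sh_ma h.choose_spec.pos _ _⟩, fun _ hS => (jd_tr g hS).symm⟩

theorem Hb.congr (h : Hb r g) (e : Set.EqOn g g' (Pd r)) : Eqv r A g g' :=
  ⟨h, ⟨_, h.choose_spec.congr e.symm⟩, fun _ _ => jd_congr h.choose_spec.pos e _⟩

theorem Hb.comp {φ : ℂ → ℂ} {Ω K : Set ℂ} (h : Hb r g) (hφ : DifferentiableOn ℂ φ Ω)
    (hK : IsCompact K) (e : K ⊆ Ω) (m : ∀ s ∈ Pd r, g s ∈ K) : Hb r fun s => φ (g s) :=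
  let ⟨C, hC⟩ := hK.exists_bound_of_continuousOn (hφ.continuousOn.mono e)
  ⟨C, h.choose_spec.comp hφ (fun s hs => e (m s hs)) fun s hs => hC _ (m s hs)⟩

theorem eqv_const (hr : ∀ i, 0 < r i) (c : ℂ) : Eqv r A (fun _ => c) fun _ => c :=
  Hb.refl ⟨_, sh_const hr c⟩

theorem eqv_int {Z : Type} [MeasurableSpace Z] {f f' : Z → (ι → ℂ) → ℂ} (μ : Measure Z)
    [IsFiniteMeasure μ] (hr : ∀ i, 0 < r i) (h : ∀ ω, SH r M (f ω)) (h' : ∀ ω, SH r M' (f' ω))
    (hm : ∀ s ∈ Pd r, Measurable (f · s)) (hm' : ∀ s ∈ Pd r, Measurable (f' · s))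
    (e : ∀ S ⊆ A, ∀ᵐ ω ∂μ, jd S (f ω) = jd S (f' ω)) :
    Eqv r A (fun s => ∫ ω, f ω s ∂μ) fun s => ∫ ω, f' ω s ∂μ :=
  ⟨⟨_, sh_int μ hr h hm⟩, ⟨_, sh_int μ hr h' hm'⟩, fun S hS => by
    rw [jd_int μ hr h hm, jd_int μ hr h' hm', integral_congr_ae (e S hS)]⟩

namespace Eqv

theorem ins (h : Hb r g) (h' : Hb r g') (h1 : Eqv r A (rs i g) (rs i g'))
    (h2 : Eqv r A (pd i g) (pd i g')) : Eqv r (insert i A) g g' := ⟨h, h', fun S hS => by
  by_cases e : i ∈ S
  · rw [← insert_erase e, h.choose_spec.jd_insert (notMem_erase _ _),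
      h'.choose_spec.jd_insert (notMem_erase _ _), h2.eq _ (subset_insert_iff.1 hS)]
  · rw [← jd_rs h.choose_spec e, ← jd_rs h'.choose_spec e,
      h1.eq _ ((subset_insert_iff_of_notMem e).1 hS)]⟩

variable (h : Eqv r A g g')
include h

theorem pos (i : ι) : 0 < r i := h.fst.choose_spec.pos i

theorem symm : Eqv r A g' g := ⟨h.snd, h.fst, fun S hS => (h.eq S hS).symm⟩

theorem trans (h' : Eqv r A g' f) : Eqv r A g f :=
  ⟨h.fst, h'.snd, fun S hS => (h.eq S hS).trans (h'.eq S hS)⟩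

theorem mono (e : D ⊆ A) : Eqv r D g g' := ⟨h.fst, h.snd, fun S hS => h.eq S (hS.trans e)⟩

theorem shrink {r' : ι → ℝ} (hr : ∀ i, 0 < r' i) (e : ∀ i, r' i ≤ r i) : Eqv r' A g g' :=
  ⟨⟨_, h.fst.choose_spec.shrink hr e⟩, ⟨_, h.snd.choose_spec.shrink hr e⟩, h.eq⟩

theorem zero : g 0 = g' 0 := by simpa using h.eq ∅ (empty_subset _)

theorem tr_eq : tr A g = tr A g' := ma_congr h.eq

theorem add (h' : Eqv r A f f') : Eqv r A (fun s => g s + f s) fun s => g' s + f' s := by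
  obtain ⟨⟨_, a⟩, ⟨_, b⟩, e⟩ := h
  obtain ⟨⟨_, c⟩, ⟨_, d⟩, e'⟩ := h'
  exact ⟨⟨_, a.add c⟩, ⟨_, b.add d⟩, fun S hS => (jd_add a c S).trans
    (by rw [e S hS, e' S hS]; exact (jd_add b d S).symm)⟩

theorem mul (h' : Eqv r A f f') : Eqv r A (fun s => g s * f s) fun s => g' s * f' s := by
  obtain ⟨⟨_, a⟩, ⟨_, b⟩, e⟩ := h
  obtain ⟨⟨_, c⟩, ⟨_, d⟩, e'⟩ := h'
  exact ⟨⟨_, a.mul c⟩, ⟨_, b.mul d⟩, fun S hS => (jd_mul a c S).trans ((sum_congr rfl fun T hT => by
    rw [e T ((mem_powerset.1 hT).trans hS), e' _ (sdiff_subset.trans hS)]).trans (jd_mul b d S).symm)⟩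

theorem const_mul (c : ℂ) : Eqv r A (fun s => c * g s) fun s => c * g' s :=
  (eqv_const h.pos c).mul h

theorem neg : Eqv r A (fun s => -g s) fun s => -g' s := by simpa using h.const_mul (-1)

theorem sub (h' : Eqv r A f f') : Eqv r A (fun s => g s - f s) fun s => g' s - f' s := by
  simpa [sub_eq_add_neg] using h.add h'.neg

theorem rs (hi : i ∉ A) : Eqv r A (rs i g) (rs i g') := by
  obtain ⟨⟨_, a⟩, ⟨_, b⟩, e⟩ := h
  exact ⟨⟨_, a.rs i⟩, ⟨_, b.rs i⟩, fun S hS => by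
    rw [jd_rs a fun k => hi (hS k), jd_rs b fun k => hi (hS k), e S hS]⟩

theorem pd (hi : i ∈ A) : Eqv r (A.erase i) (pd i g) (pd i g') := by
  obtain ⟨⟨_, a⟩, ⟨_, b⟩, e⟩ := h
  exact ⟨⟨_, a.pd i⟩, ⟨_, b.pd i⟩, fun S hS => by
    obtain ⟨k, k'⟩ := subset_erase.1 hS
    rw [← a.jd_insert k', ← b.jd_insert k', e _ (insert_subset hi k)]⟩

/-- composition with a holomorphic function -/
theorem comp {φ : ℂ → ℂ} {Ω K : Set ℂ} (hΩ : IsOpen Ω) (hφ : DifferentiableOn ℂ φ Ω)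
    (hK : IsCompact K) (e : K ⊆ Ω) (m : ∀ s ∈ Pd r, g s ∈ K) (m' : ∀ s ∈ Pd r, g' s ∈ K) :
    Eqv r A (fun s => φ (g s)) fun s => φ (g' s) := by
  induction A using Finset.induction_on generalizing g g' φ with
  | empty => exact ⟨h.fst.comp hφ hK e m, h.snd.comp hφ hK e m', fun S hS => by
      simp [subset_empty.1 hS, h.zero]⟩
  | insert i A hi ih =>
    have b := mem_ball_self (x := (0 : ℂ)) (h.pos i)
    have k := fun φ hφ => ih ((h.mono (subset_insert _ _)).rs hi) (φ := φ) hφ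
      (fun s hs => m _ (Pd.upd hs b)) fun s hs => m' _ (Pd.upd hs b)
    have k2 := (k _ (hφ.deriv hΩ)).mul (erase_insert hi ▸ h.pd (mem_insert_self i A))
    have k3 : ∀ g, Hb r g → (∀ s ∈ Pd r, g s ∈ K) → Set.EqOn
        (fun s => deriv φ (Jet.rs i g s) * Jet.pd i g s) (Jet.pd i fun s => φ (g s)) (Pd r) :=
      fun g hg m s hs => (deriv_comp (h := fun t => g (update s i t)) 0 (hφ.differentiableAt
        (hΩ.mem_nhds (e (m _ (Pd.upd hs b))))) (hg.choose_spec.dAt hs i)).symm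
    exact ins (h.fst.comp hφ hK e m) (h.snd.comp hφ hK e m') (k φ hφ)
      ((k2.fst.congr (k3 g h.fst m)).symm.trans (k2.trans (k2.snd.congr (k3 g' h.snd m'))))

theorem exp : Eqv r A (fun s => Complex.exp (g s)) fun s => Complex.exp (g' s) :=
  let ⟨M, a⟩ := h.fst
  let ⟨M', b⟩ := h.snd
  h.comp isOpen_univ Complex.differentiable_exp.differentiableOn (isCompact_closedBall 0 (max M M'))
    (Set.subset_univ _) (fun s hs => mem_closedBall_zero_iff.2 ((a.bd s hs).trans (le_max_left _ _)))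
    fun s hs => mem_closedBall_zero_iff.2 ((b.bd s hs).trans (le_max_right _ _))

end Eqv

namespace Eqv

variable {α : Type} (hr : ∀ i, 0 < r i) {X : Finset α} {g g' : α → (ι → ℂ) → ℂ}
  (h : ∀ x ∈ X, Eqv r A (g x) (g' x))
include hr h

theorem sum : Eqv r A (fun s => ∑ x ∈ X, g x s) fun s => ∑ x ∈ X, g' x s := by
  classical
  induction X using Finset.induction_on with
  | empty => exact eqv_const hr 0
  | insert x X hx ih =>
    simpa only [sum_insert hx] using (h x (mem_insert_self _ _)).add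
      (ih fun y hy => h y (mem_insert_of_mem hy))

theorem prod : Eqv r A (fun s => ∏ x ∈ X, g x s) fun s => ∏ x ∈ X, g' x s := by
  classical
  induction X using Finset.induction_on with
  | empty => exact eqv_const hr 1
  | insert x X hx ih =>
    simpa only [prod_insert hx] using (h x (mem_insert_self _ _)).mul
      (ih fun y hy => h y (mem_insert_of_mem hy))

end Eqv

end Pool.Agent.Lib.MP_7f377f_mp.Jet
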