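import Pool.Agent.Lib.MP_7f377f_mp.CyC
import Pool.Agent.Lib.MP_7f377f_mp.SoftD
import Pool.Agent.Lib.MP_7f377f_mp.InfE

/-! Sources and motions on `ℤ ^ 4`; the interfaces between the parts of the construction on the
cylinder. -/

noncomputable section

namespace Pool.Agent.Lib.MP_7f377f_mp.YM9

open MeasureTheory Filter Topology Function Real
open RGP (BM)

set_option linter.unusedSectionVars false

/-- sites -/
abbrev Z4 : Type := Fin 4 → ℤ
/-- fields -/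
abbrev Fd : Type := Link → SU2
/-- plaquette dependent sources -/
abbrev Sr : Type := Z4 → Fin 4 → Fin 4 → ℝ

/-- `2 - tr U_p` -/
def pe (U : Fd) (x : Z4) (i j : Fin 4) : ℝ :=
  2 - 2 * (U (x, i) * U (x + Pi.single i 1, j) * (U (x + Pi.single j 1, i))⁻¹ * (U (x, j))⁻¹).1.re

/-- the field smeared with a source -/
def gf (F : Sr) (U : Fd) : ℝ := ∑' x, ∑ i, ∑ j, if i < j then F x i j * pe U x i j else 0

/-- a test function as a source -/
def src (a : ℝ) (f : R4 → ℝ) : Sr := fun x _ _ => f (pt a x)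

/-- translation -/
def shf (v : Z4) (U : Fd) : Fd := fun e => U (e.1 + v, e.2)

/-- time translation -/
def sht (s : ℤ) : Fd → Fd := shf (Pi.single 0 s)

/-- reflected corner of a plaquette or a link -/
def rq (i j : Fin 4) (x : Z4) : Z4 := update x 0 (-x 0 - if i = 0 ∨ j = 0 then 1 else 0)

/-- time reflection -/
def rfl0 (U : Fd) : Fd := fun e =>
  if e.2 = 0 then (U (rq e.2 e.2 e.1, e.2))⁻¹ else U (rq e.2 e.2 e.1, e.2)

/-- permutation of the axes -/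
def prm (σ : Equiv.Perm (Fin 4)) (U : Fd) : Fd := fun e => U (e.1 ∘ σ.symm, σ e.2)

/-- time reflection of a source -/
def rF (F : Sr) : Sr := fun x i j => F (rq i j x) i j

/-- translation of a source -/
def tF (v : Z4) (F : Sr) : Sr := fun x => F (x - v)

/-- periodic extension of a field on the torus -/
def ext {n : ℕ} (U : YM7.Cfg n) : Fd := fun e => U (fun i => (e.1 i : ZMod n), e.2)

/-- the links based at times in `[a, b)` -/
def Tm (a b : ℤ) : Set Link := {e | a ≤ e.1 0 ∧ e.1 0 < b}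

/-- sources of size `L` -/
def Sz (L a τ : ℝ) (F : Sr) : Prop :=
  ∃ g : Z4 → ℝ, (∀ x, |g x| ≤ L) ∧ (∀ x l, |g (x + Pi.single l 1) - g x| ≤ L * a) ∧
    ∀ x i j, |F x i j - g x| ≤ L * τ

theorem sz_iff {L a τ : ℝ} {F : Sr} : Sz L a τ F ↔ YM7.Sz (n := 0) L a τ F := Iff.rfl

/-- the source lives in the cube of radius `R` -/
def In (a R : ℝ) (F : Sr) : Prop := ∀ x, F x ≠ 0 → ∀ l, |a * x l| ≤ R

/-- the sources are separated modulo `Λ` -/
def Apart {κ : Type} (Λ : Set R4) (a δ : ℝ) (F : κ → Sr) : Prop :=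
  ∀ i j, i ≠ j → ∀ x y, F i x ≠ 0 → F j y ≠ 0 → ∀ w ∈ Λ, δ ≤ dist (pt a x) (pt a y + w)

/-- the source samples the function within ten lattice spacings -/
def Near (a : ℝ) (F : Sr) (f : R4 → ℝ) : Prop :=
  ∀ x i j, ∃ y, dist y (pt a x) ≤ 10 * a ∧ F x i j = f y

/-- the spatial periods -/
def Lc (m : ℝ) : Set R4 := {w | ∃ z : Z4, z 0 = 0 ∧ w = pt m z}

/-- all periods -/
def Lt (m : ℝ) : Set R4 := Set.range (pt m)

/-- admissible families modulo `Λ` -/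
def AdL {κ : Type} (Λ : Set R4) (f : κ → R4 → ℝ) : Prop :=
  (∀ i, HasCompactSupport (f i) ∧ ContDiff ℝ 1 (f i)) ∧ ∀ i j, i ≠ j → ∀ x ∈ tsupport (f i),
    ∀ y ∈ tsupport (f j), ∀ w ∈ Λ, x ≠ y + w

theorem adm_iff {m : ℝ} {k : ℕ} {f : Fin k → R4 → ℝ} : Adm m f ↔ AdL (Lc m) f :=
  and_congr_right fun _ => ⟨fun h i j hij x hx y hy _ ⟨z, h1, h2⟩ => h2 ▸ h i j hij x hx y hy z h1,
    fun h i j hij x hx y hy z hz => h i j hij x hx y hy _ ⟨z, hz, rfl⟩⟩

/-- the free value -/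
def fv {k : ℕ} (f : Fin k → R4 → ℝ) : ℝ := ∫ y : Fin k → R4, (∏ i, f i (y i)) * free y

variable [MeasurableSpace SU2]

/-- correlations in the state `ρ` of the fields centred in the state `μ` -/
def gc {κ : Type} [Fintype κ] (ρ μ : Measure Fd) (F : κ → Sr) : ℝ :=
  ∫ U, ∏ i, (gf (F i) U - ∫ V, gf (F i) V ∂μ) ∂ρ

/-- the spacings and the tolerances -/
structure Fm {ι : Type} (Φ : Filter ι) (a τ : ι → ℝ) : Prop where
  a0 : Tendsto a Φ (𝓝[>] 0)
  tau : Tendsto (fun p => τ p / a p) Φ atTop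

/-- uniform bound for normalised sources which are separated modulo `Λ` -/
def Bd {ι : Type} (Λ : Set R4) (Φ : Filter ι) (ρ μ : ι → Measure Fd) (a τ : ι → ℝ) : Prop :=
  ∀ (k : ℕ) (R δ : ℝ), 0 < δ → ∃ C : ℝ, 0 ≤ C ∧ ∀ᶠ p in Φ, ∀ F : Fin k → Sr,
    (∀ i, Sz 1 (a p) (τ p) (F i)) → (∀ i, In (a p) R (F i)) → Apart Λ (a p) δ F →
    |gc (ρ p) (μ p) F| ≤ C

/-- the short distance law -/
def Sho {ι : Type} (Φ : Filter ι) (ρ μ : ι → Measure Fd) (a : ι → ℝ) (K : ℕ) : Prop :=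
  ∀ k ≤ K, ∀ f : Fin k → R4 → ℝ, YM7.Adm f → ∀ η > 0, ∀ᶠ d in 𝓝[>] (0 : ℝ), ∀ᶠ p in Φ,
    |log d⁻¹ ^ k * gc (ρ p) (μ p) (fun i => src (a p) fun y => f i (d⁻¹ • y)) -
      (6 / 11) ^ k * fv f| ≤ η

variable (h : Measure SU2) [IsProbabilityMeasure h]

/-- the Wilson measure of the cube -/
def cube (b : ℝ) (n : ℕ) : Measure Fd := wilson h b fun _ => n

/-- the vacuum state of the cylinder with `n` sites per side; `t` bounds the trace -/
structure St9 (b : ℝ) (n : ℕ) (μ : Measure Fd) (t : ℝ) : Prop where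
  prob : IsProbabilityMeasure μ
  lim : ∀ F : Fd → ℝ, Continuous F →
    Tendsto (fun T => ∫ U, F U ∂wilson h b ![T, n, n, n]) atTop (𝓝 (∫ U, F U ∂μ))
  shf : ∀ v, MeasurePreserving (shf v) μ μ
  rfl : MeasurePreserving rfl0 μ μ
  prm : ∀ σ : Equiv.Perm (Fin 4), σ 0 = 0 → MeasurePreserving (prm σ) μ μ
  per : ∀ᵐ U ∂μ, ∀ z : Z4, z 0 = 0 → YM9.shf ((n : ℤ) • z) U = U
  slab : ∀ k : ℕ, n = 2 * k + 3 → ∀ (a : ℤ) (H : ℕ → Fd → ℝ) (β : ℕ → ℝ) (N : ℕ),
    (∀ c, BM (H c)) → (∀ c, DependsOn (H c) (Tm 0 (k + 1))) →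
    (∀ c, t * ∫ U, H c (rfl0 U) * H c U ∂cube h b n ≤ β c) →
    (∫ U, ∏ c ∈ Finset.range (N + 1), H c (sht (a + c * (k + 2)) U) ∂μ) ^ 2 ≤
      ∏ c ∈ Finset.range (N + 1), β c
  gram : ∀ (F : Fd → ℝ) (k s : ℕ), BM F → DependsOn F (Tm 0 k) →
    0 ≤ ∫ U, F (rfl0 U) * F (sht s U) ∂μ ∧
      ∫ U, F (rfl0 U) * F (sht s U) ∂μ ≤ ∫ U, F (rfl0 U) * F U ∂μ
  frame : ∀ (r k : ℕ) (F : Fin r → Fd → ℝ) (Λ : ℝ), 0 ≤ Λ → (∀ i, BM (F i)) →
    (∀ i, DependsOn (F i) (Tm 0 k)) →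
    (∀ c : Fin r → ℝ, ∑ i, ∑ j, c i * c j * ∫ U, F i (rfl0 U) * F j U ∂μ ≤ Λ * ∑ i, c i ^ 2) →
    ∑ i, ∫ U, F i (rfl0 U) * F i (sht (n + 1) U) ∂μ ≤ Λ * t

/-- a family of cylinders of circumference `m` -/
structure Cyl {ι : Type} (Φ : Filter ι) (m : ℕ) (n : ι → ℕ) (a b τ : ι → ℝ) (μ : ι → Measure Fd)
    (t : ℝ) : Prop where
  fm : Fm Φ a τ
  pos : 0 < m
  st : ∀ᶠ p in Φ, a p * n p = m ∧ Odd (n p) ∧ 0 ≤ b p ∧ St9 h (b p) (n p) (μ p) t

/-- the partition function of the cube -/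
def Z7 (b : ℝ) (n : ℕ) [NeZero n] : ℝ :=
  ∫ U : YM7.Cfg n, exp (-b * ∑ x, YM7.dens U x) ∂Measure.pi fun _ => h

/-! ### the smeared field -/

omit [MeasurableSpace SU2]

theorem field_eq (a : ℝ) (f : R4 → ℝ) : field a f = gf (src a f) := by
  funext U
  simp only [field, gf, src, dens, pe, Finset.mul_sum, mul_ite, mul_zero]

theorem gf_sum {F : Sr} {D : Finset Z4} (hD : ∀ x, F x ≠ 0 → x ∈ D) (U : Fd) :
    gf F U = ∑ x ∈ D, ∑ i, ∑ j, if i < j then F x i j * pe U x i j else 0 :=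
  tsum_eq_sum fun x hx => by simp [of_not_not fun h => hx (hD x h)]

@[fun_prop] theorem cont_pe (x : Z4) (i j : Fin 4) : Continuous fun U => pe U x i j :=
  continuous_const.sub (Y6.cont_tc.comp (by fun_prop))

theorem cont_gf {F : Sr} (hF : (support F).Finite) : Continuous (gf F) := by
  rw [funext (gf_sum (D := hF.toFinset) fun x hx => hF.mem_toFinset.2 hx)]
  refine continuous_finsetSum _ fun x _ => continuous_finsetSum _ fun i _ =>
    continuous_finsetSum _ fun j _ => ?_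
  split_ifs <;> fun_prop

theorem In.fin {a R : ℝ} {F : Sr} (hF : In a R F) (ha : 0 < a) : (support F).Finite :=
  (Set.Finite.pi' fun _ => Set.finite_Icc (-⌈R / a⌉) ⌈R / a⌉).subset fun x hx l => by
    have := hF x hx l
    rw [abs_mul, abs_of_pos ha, ← le_div_iff₀' ha] at this
    exact abs_le.1 (by exact_mod_cast this.trans (Int.le_ceil _))

theorem pe_shf (v : Z4) (U : Fd) (x : Z4) (i j : Fin 4) : pe (shf v U) x i j = pe U (x + v) i j := by
  simp only [pe, shf, add_right_comm x v]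

theorem gf_tF (v : Z4) (F : Sr) (U : Fd) : gf (tF v F) U = gf F (shf v U) := by
  rw [gf, gf, ← (Equiv.addRight v).tsum_eq]
  simp only [tF, pe_shf, Equiv.coe_addRight, add_sub_cancel_right]

theorem dep_gf {F : Sr} {a b : ℤ} (hF : ∀ x, F x ≠ 0 → a ≤ x 0 ∧ x 0 + 1 < b) :
    DependsOn (gf F) (Tm a b) := fun U V H => tsum_congr fun x => by
  by_cases hx : F x = 0
  · simp [hx]
  have h1 := hF x hx
  have h2 : ∀ i, U (x, i) = V (x, i) := fun i => H _ ⟨h1.1, by simp only; omega⟩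
  have h3 : ∀ i j, U (x + Pi.single i 1, j) = V (x + Pi.single i 1, j) := fun i j => H _ (by
    simp only [Tm, Set.mem_ofPred_eq, Pi.add_apply, Pi.single_apply]
    split_ifs <;> omega)
  simp only [pe, h2, h3]

@[fun_prop] theorem cont_shf (v : Z4) : Continuous (shf v) := by unfold shf; fun_prop

@[fun_prop] theorem cont_sht (s : ℤ) : Continuous (sht s) := cont_shf _

@[fun_prop] theorem cont_prm (σ : Equiv.Perm (Fin 4)) : Continuous (prm σ) := by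
  unfold prm; fun_prop

@[fun_prop] theorem cont_rfl0 : Continuous rfl0 := continuous_pi fun e => by
  unfold rfl0
  split_ifs <;> fun_prop

theorem corr_eq [MeasurableSpace SU2] {k : ℕ} (μ : Measure Fd) (a : ℝ) (f : Fin k → R4 → ℝ) :
    corr μ a f = gc μ μ fun i => src a (f i) := by
  simp only [corr, gc, field_eq]

theorem gc_equiv [MeasurableSpace SU2] {κ κ' : Type} [Fintype κ] [Fintype κ'] (e : κ' ≃ κ)
    (ρ μ : Measure Fd) (F : κ → Sr) : gc ρ μ (F ∘ e) = gc ρ μ F :=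
  congrArg _ (funext fun U => e.prod_comp fun i => gf (F i) U - ∫ V, gf (F i) V ∂μ)

theorem Bd.card [MeasurableSpace SU2] {ι : Type} {Λ : Set R4} {Φ : Filter ι}
    {ρ μ : ι → Measure Fd} {a τ : ι → ℝ} (hB : Bd Λ Φ ρ μ a τ) (K : ℕ) (R : ℝ) {δ : ℝ}
    (hδ : 0 < δ) : ∃ C : ℝ, 0 ≤ C ∧ ∀ᶠ p in Φ, ∀ (κ : Type) [Fintype κ], Fintype.card κ ≤ K →
      ∀ F : κ → Sr, (∀ i, Sz 1 (a p) (τ p) (F i)) → (∀ i, In (a p) R (F i)) →
      Apart Λ (a p) δ F → |gc (ρ p) (μ p) F| ≤ C := by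
  choose C C0 hC using fun k => hB k R δ hδ
  refine ⟨∑ k ∈ Finset.range (K + 1), C k, Finset.sum_nonneg fun k _ => C0 k,
    ((Finset.range (K + 1)).eventually_all.2 fun k _ => hC k).mono
      fun p hp κ _ hκ F h1 h2 h3 => ?_⟩
  have hk := Finset.mem_range.2 (Nat.lt_succ_of_le hκ)
  rw [← gc_equiv (Fintype.equivFin κ).symm]
  exact (hp _ hk _ (fun _ => h1 _) (fun _ => h2 _) fun i j hij =>
    h3 _ _ ((Equiv.injective _).ne hij)).trans (Finset.single_le_sum (fun k _ => C0 k) hk)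

end Pool.Agent.Lib.MP_7f377f_mp.YM9
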