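import Pool.Agent.Lib.MP_7f377f_mp.CyD1
import Pool.Agent.Lib.MP_7f377f_mp.CyF1
import Pool.Agent.Lib.MP_7f377f_mp.SoftB

/-! The uniform bound on the cube. -/

noncomputable section

namespace Pool.Agent.Lib.MP_7f377f_mp.YM9

open MeasureTheory Filter Topology Function Real Finset Jet

variable {n m k lam : ℕ} [NeZero n] {a b τ δ w C M : ℝ}

/-- the interior of a cell -/
def cel (a δ : ℝ) (lam : ℕ) (c : Weak.Site 4 m) : Set (Weak.Site 4 n) :=
  {x | ∀ l, δ ≤ a * ((x - Weak.corner lam c : Weak.Site 4 n) l).val ∧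
    a * ((x - Weak.corner lam c : Weak.Site 4 n) l).val ≤ a * lam - δ}

theorem sz_img {F : Sr} {φ : Z4 → ℝ} {z : Z4} (hF : Sz 1 a τ F) (M0 : 0 ≤ M) (a0 : 0 ≤ a)
    (τ0 : 0 ≤ τ) (h1 : ∀ x, |φ x| ≤ 1) (h2 : ∀ x l, |φ (x + Pi.single l 1) - φ x| ≤ M * a)
    (hs : ∀ x, φ x ≠ 0 → ∀ l, 0 < x l - z l ∧ (x l - z l + 1) * 2 ≤ n) :
    YM7.Sz (n := n) (1 + M) a τ fun x μ ν => φ (z + fun l => (x l - z l).valMinAbs) *
      F (z + fun l => (x l - z l).valMinAbs) μ ν := by
  obtain ⟨g, g1, g2, g3⟩ := hF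
  have e : ∀ x (u v : ℝ), |u| ≤ v → |φ x * u| ≤ v := fun x u v h => by
    rw [abs_mul]
    exact (mul_le_of_le_one_left (abs_nonneg _) (h1 x)).trans h
  refine ⟨fun x => (φ * g) (z + fun l => (x l - z l).valMinAbs),
    fun x => (e _ _ _ (g1 _)).trans (by linarith), fun x l => ?_, fun x i j => ?_⟩ <;>
    simp only [Pi.mul_apply]
  · have u := (x l - z l).valMinAbs_mem_Ioc
    have v : (x + Pi.single l 1 : Weak.Site 4 n) l - z l = x l - z l + 1 := by simp [add_sub_right_comm]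
    by_cases c : ((x l - z l).valMinAbs + 1) * 2 ≤ n
    · have : (z + fun i => ((x + Pi.single l 1 : Weak.Site 4 n) i - z i).valMinAbs) =
          (z + fun i => (x i - z i).valMinAbs) + Pi.single l 1 := funext fun i => by
        rcases eq_or_ne i l with rfl | hi
        · simp only [Pi.add_apply z, v, Weak.vma_add_one _ c]; simp [add_assoc]
        · simp [hi]
      rw [this]
      generalize (z + fun i => (x i - z i).valMinAbs) = y
      have h6 := e (y + Pi.single l 1) _ _ (g2 y l)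
      have h7 : |(φ (y + Pi.single l 1) - φ y) * g y| ≤ M * a * 1 := by
        rw [abs_mul]
        exact mul_le_mul (h2 y l) (g1 y) (abs_nonneg _) (by positivity)
      rw [abs_le] at h6 h7 ⊢
      constructor <;> linarith [h6.1, h6.2, h7.1, h7.2]
    · have n1 := NeZero.pos n
      have e : (x l - z l + 1).valMinAbs = (x l - z l).valMinAbs + 1 - n := by
        rw [← Weak.vma_cast (L := n) (z := (x l - z l).valMinAbs + 1 - n) (by omega)
          (by linarith [u.2])]
        simp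
      rw [of_not_not (a := φ _ = 0) fun k => ?_, of_not_not (a := φ _ = 0) fun k => ?_]
      · simp only [zero_mul, sub_self, abs_zero]; positivity
      · exact c (by simpa using (hs _ k l).2)
      · have := (hs _ k l).1
        simp only [Pi.add_apply z, v, e] at this
        linarith [u.2]
  · rw [← mul_sub]
    exact (e _ _ _ (g3 _ i j)).trans (by nlinarith)

variable [MeasurableSpace SU2] [BorelSpace SU2] {h : Measure SU2} [h.IsHaarMeasure]
  [IsProbabilityMeasure h] [NeZero m]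

/-- sources in different cells of the torus -/
theorem bnd_cell {Λ : (YM7.Cfg n → ℝ) → ℝ} (hI : YM7.Inv Λ lam) (a0 : 0 ≤ a) (τ0 : 0 ≤ τ)
    (hG : YM7.Gen h b (κ := Unit) Λ (YM7.Cla (m := m) a a τ δ lam 0) w M) {c : Fin k → Weak.Site 4 m}
    (hc : Injective c) :
    YM7.Bnd h b a τ (|M| * (1 + |w|) ^ k * (1 + |M| * (1 + |w|) ^ k) ^ k)
      fun i => cel (n := n) a δ lam (c i) := fun F h1 h2 => by
  have hz : ∀ c : Weak.Site 4 m, YM7.Cla a a τ δ lam 0 c (fun _ : Unit => (0 : YM7.Src n)) := fun c =>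
    ⟨fun _ => ⟨⟨0, by simp, by simpa, by simpa⟩, fun _ _ _ e => (e rfl).elim⟩,
      fun _ _ e => (e rfl).elim⟩
  have w0 : 0 < w := let ⟨_, hg, _⟩ := hG _ hz; inv_pos.1 (hg.pos (0, ()))
  have key : ∀ B : Finset (Fin k), |∫ U, ∏ i ∈ B, (YM7.gfield (F i) U - (jd {()} fun s =>
      (ma univ (YM7.mom Λ fun _ : Unit => F i) s)⁻¹).re) ∂YM7.wilson h b n| ≤
      |M| * (1 + |w|) ^ k := fun B => by
    have := hG.le hI w0 (F := fun x _ => extend c F 0 x) (fun x => ?_)
      fun x => if x ∈ B.image c then {()} else ∅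
    · have e : ∀ U, ∏ i ∈ B, (YM7.gfield (F i) U - (jd {()} fun s =>
          (ma univ (YM7.mom Λ fun _ : Unit => F i) s)⁻¹).re) = (-1) ^ B.card * ∏ x, YM7.ob Λ
            (fun _ : Unit => extend c F 0 x) (if x ∈ B.image c then {()} else ∅) U := fun U => by
        rw [← prod_subset (subset_univ (B.image c)) fun x _ hx => by simp only [if_neg hx, hI.ob0],
          prod_image hc.injOn, ← prod_const, ← prod_mul_distrib]
        exact prod_congr rfl fun i hi => by simp [mem_image_of_mem c hi, hI.ob1, hc.extend_apply]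
      simp only [e, integral_const_mul, abs_mul, abs_pow, abs_neg, abs_one, one_pow, one_mul]
      refine this.trans (mul_le_mul (le_abs_self _) ?_ (by positivity) (abs_nonneg _))
      rw [← prod_subset (subset_univ (B.image c)) fun x _ hx => by simp [hx], prod_image hc.injOn,
        prod_congr rfl fun i hi => by rw [if_pos (mem_image_of_mem c hi), card_singleton, pow_one],
        prod_const, abs_of_pos w0]
      exact (pow_le_pow_left₀ w0.le (by linarith) _).trans
        (pow_le_pow_right₀ (by linarith) (by simpa using card_le_univ B))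
    · by_cases e : ∃ i, c i = x
      · obtain ⟨i, rfl⟩ := e
        rw [hc.extend_apply]
        exact ⟨fun _ => ⟨h1 i, h2 i⟩, fun _ _ e => (e rfl).elim⟩
      · rw [extend_apply' _ _ _ e]
        exact hz x
  have := YM7.centre_bound h univ F _ (fun B _ => key B) fun i _ => by
    have := key {i}
    simp only [prod_singleton] at this
    rwa [integral_sub (Weak.cint _ (YM7.continuous_gfield _)) (integrable_const _), integral_const,
      probReal_univ, one_smul] at this
  rwa [card_fin] at this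

/-- localised sources in cells which are different modulo the periods -/
theorem gc_cell (H : ∀ c : Fin k → Weak.Site 4 m, Injective c →
      YM7.Bnd h b a τ C fun i => cel (n := n) a δ lam (c i)) (hn : n = m * lam) (m3 : 3 ≤ m)
    (a0 : 0 < a) (δ0 : 0 < δ) (τ0 : 0 ≤ τ) (M0 : 0 ≤ M) {q : Fin k → Z4}
    (hq : Injective fun i l => (q i l : ZMod m)) {F : Fin k → Sr} {φ : Fin k → Z4 → ℝ}
    (hF : ∀ i, Sz 1 a τ (F i)) (h1 : ∀ i x, |φ i x| ≤ 1)
    (h2 : ∀ i x l, |φ i (x + Pi.single l 1) - φ i x| ≤ M * a)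
    (hs : ∀ i x, φ i x ≠ 0 → ∀ l, δ ≤ a * (x l - lam * q i l) ∧ a * (x l - lam * q i l) ≤ a * lam - δ) :
    |gc (cube h b n) (cube h b n) fun i x μ ν => φ i x * F i x μ ν| ≤ C * (1 + M) ^ k := by
  have s : ∀ i x, φ i x ≠ 0 → ∀ l, 0 < x l - lam * q i l ∧ x l - lam * q i l < lam := fun i x e l =>
    ⟨by exact_mod_cast (mul_pos_iff_of_pos_left a0).1 (δ0.trans_le (hs i x e l).1),
      by exact_mod_cast lt_of_mul_lt_mul_left ((hs i x e l).2.trans_lt (sub_lt_self _ δ0)) a0.le⟩
  have n3 : 3 * (lam : ℤ) ≤ n := by exact_mod_cast hn ▸ Nat.mul_le_mul_right lam m3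
  have s' : ∀ i x, (fun μ ν => φ i x * F i x μ ν) ≠ 0 → φ i x ≠ 0 := fun i x e k => e (by
    ext; simp [k])
  rw [gc_cube h b n (fun i => (Set.Finite.pi' fun l => Set.finite_Ioo (lam * q i l)
    (lam * q i l + lam)).subset fun x hx l => by constructor <;> linarith [s i x (s' i x hx) l])
    fun i => gf_ext (fun l => lam * q i l) fun x hx l => by
      have := s i x (s' i x hx) l
      rw [abs_of_pos this.1]
      omega, ← YM7.gcorr_eq, ← Fin.prod_const]
  refine (H _ hq).sz (fun i => sz_img (hF i) M0 a0.le τ0 (h1 i) (h2 i) fun x hx l => ?_)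
    fun i x μ ν hx l => ?_
  · have := s i x hx l
    omega
  · have e := left_ne_zero_of_mul hx
    have u := (s i _ e l).1
    have v := hs i _ e l
    simp only [Pi.add_apply, Int.cast_add, Int.cast_mul, Int.cast_natCast, add_sub_cancel_left] at u v
    have : (x - Weak.corner lam fun l => (q i l : ZMod m) : Weak.Site 4 n) l = x l - lam * q i l := by
      rw [Pi.sub_apply, Weak.corner, sub_right_inj, ← Int.cast_natCast, ← Int.cast_natCast lam,
        ← Int.cast_mul, ZMod.intCast_eq_intCast_iff, hn, Nat.cast_mul, Nat.cast_mul, mul_comm (m : ℤ),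
        ZMod.val_intCast]
      exact (Int.mod_modEq _ _).mul_left'
    rwa [this, ← Int.cast_natCast, ZMod.val_eq_ite_valMinAbs,
      if_pos ((ZMod.valMinAbs_nonneg_iff _).1 u.le), Nat.cast_zero, add_zero]

omit [NeZero m] in
theorem gc_tF {κ : Type} [Fintype κ] {F : κ → Sr} (hF : ∀ i, (support (F i)).Finite) (v : Z4) :
    gc (cube h b n) (cube h b n) (fun i => tF v (F i)) = gc (cube h b n) (cube h b n) F := by
  have p := mp_shf h b (N := fun _ => n) (fun _ => NeZero.pos n) v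
  have c := fun i => cont_gf (hF i)
  simp only [gc, gf_tF, cube, Weak.int_mp p (c _)]
  exact Weak.int_mp p (continuous_finsetProd _ fun i _ => (c i).sub continuous_const)

theorem gc_piece {η R : ℝ} (η0 : 0 < η) (hw : a * lam = η * (3 * k + 1))
    (H : ∀ c : Fin k → Weak.Site 4 m, Injective c →
      YM7.Bnd h b a τ C fun i => cel (n := n) a (η / 2) lam (c i)) (hn : n = m * lam) (m3 : 3 ≤ m)
    (a0 : 0 < a) (ha : a ≤ η / 2) (τ0 : 0 ≤ τ) (C0 : 0 ≤ C) (hδ : 2 * (a * lam) < δ) {F : Fin k → Sr}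
    (h1 : ∀ i, Sz 1 a τ (F i)) (h2 : ∀ i, In a R (F i)) (h3 : Apart (Lt (a * n)) a δ F)
    (c : Fin k → Z4) : |gc (cube h b n) (cube h b n)
      fun i x μ ν => YM7.bump η (c i) (pt a x) * F i x μ ν| ≤ C * (1 + 2 / η) ^ k := by
  by_cases h0 : ∃ i, ∀ x, YM7.bump η (c i) (pt a x) ≠ 0 → F i x = 0
  · obtain ⟨i, hi⟩ := h0
    have : (fun x μ ν => YM7.bump η (c i) (pt a x) * F i x μ ν) = 0 := by
      ext x μ ν
      by_cases e : YM7.bump η (c i) (pt a x) = 0
      · simp [e]
      · simp [hi x e]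
    rw [gc, integral_eq_zero_of_ae (.of_forall fun U => prod_eq_zero (mem_univ i) (by
      simp only [this]; simp [gf])), abs_zero]
    positivity
  choose j j0 j1 hj using fun l => YM7.exists_residue fun i => c i l
  obtain ⟨s, s1, s2⟩ : ∃ s : Z4, (∀ l, a * s l ≤ η * j l) ∧ ∀ l, η * j l < a * (s l + 1) :=
    ⟨fun l => ⌊η * j l / a⌋, fun l => (le_div_iff₀' a0).1 (Int.floor_le _), fun l =>
      (div_lt_iff₀' a0).1 (Int.lt_floor_add_one _)⟩
  have key : ∀ i x, YM7.bump η (c i) (pt a x) ≠ 0 → ∀ l,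
      η / 2 ≤ a * (x l + s l - lam * ((c i l + j l) / (3 * k + 1) : ℤ)) ∧
      a * (x l + s l - lam * ((c i l + j l) / (3 * k + 1) : ℤ)) ≤ a * lam - η / 2 := by
    intro i x hx l
    have e1 : ((3 * k + 1) * ((c i l + j l) / (3 * k + 1) : ℤ) +
        ((c i l + j l) % (3 * k + 1) : ℤ) : ℝ) = c i l + j l := by
      exact_mod_cast Int.mul_ediv_add_emod (c i l + j l) (3 * k + 1)
    have e2 : (2 : ℝ) ≤ ((c i l + j l) % (3 * k + 1) : ℤ) := by exact_mod_cast (hj l i).1
    have e3 : (((c i l + j l) % (3 * k + 1) : ℤ) : ℝ) ≤ 3 * k - 1 := by exact_mod_cast (hj l i).2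
    have e4 : |a * x l - η * c i l| ≤ η := YM7.bump_supp η0 hx l
    have e5 := congrArg (η * ·) e1
    have e6 := mul_le_mul_of_nonneg_left e2 η0.le
    have e7 := mul_le_mul_of_nonneg_left e3 η0.le
    rw [mul_sub, ← mul_assoc, hw]
    constructor <;> linarith [s1 l, s2 l, abs_le.1 e4]
  rw [← gc_tF (fun i => ((h2 i).fin a0).subset fun x hx e => hx (by ext; simp [e])) s]
  refine gc_cell H hn m3 a0 (half_pos η0) τ0 (by positivity)
    (q := fun i l => (c i l + j l) / (3 * k + 1)) (fun i i' e => ?_) (F := fun i => tF s (F i))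
    (φ := fun i x => YM7.bump η (c i) (pt a (x - s))) (fun i => (sz_iff.1 (h1 i)).shift s)
    (fun i x => YM7.abs_prod_hat _ _) (fun i x l => ?_) fun i x hx l => ?_
  · by_contra hi
    push Not at h0
    obtain ⟨x, hx, hx'⟩ := h0 i
    obtain ⟨y, hy, hy'⟩ := h0 i'
    choose t ht using fun l => (ZMod.intCast_eq_intCast_iff_dvd_sub _ _ _).1 (congrFun e l).symm
    refine (h3 i i' hi x y hx' hy' _ ⟨t, rfl⟩).not_gt ((YM7.dist_le_two fun l => ?_).trans_lt hδ)
    have e1 := key i x hx l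
    have e2 := key i' y hy l
    have e3 : (((c i l + j l) / (3 * k + 1) : ℤ) - ((c i' l + j l) / (3 * k + 1) : ℤ) : ℝ) =
      m * t l := by exact_mod_cast ht l
    have e4 := congrArg (a * lam * ·) e3
    simp only [pt, PiLp.add_apply, hn, Nat.cast_mul]
    rw [abs_le]
    constructor <;> linarith [e1.1, e1.2, e2.1, e2.2]
  · have e : pt a (x + Pi.single l 1 - s) = pt a (x - s) + EuclideanSpace.single l a := by
      ext i
      rcases eq_or_ne i l with rfl | hi
      · simp [pt]; ring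
      · simp [pt, hi]
    rw [e]
    exact (YM7.bump_lip η0 _ _ _ _).trans_eq (by rw [abs_of_pos a0])
  · simpa using key i _ hx l

omit [NeZero n] [NeZero m] in
variable (h) in
theorem bd_cube {ι : Type} {Φ : Filter ι} {m : ℕ} {n : ι → ℕ} [∀ p, NeZero (n p)] {a b τ : ι → ℝ}
    (hF : Fm Φ a τ) (hm : 0 < m) (hn : ∀ᶠ p in Φ, a p * n p = m) (hP : YM7.Poly2 h Φ n a b τ) :
    Bd (Lt m) Φ (fun p => cube h (b p) (n p)) (fun p => cube h (b p) (n p)) a τ := by
  intro k R δ δ0
  obtain ⟨e, he⟩ := exists_pow_lt_of_lt_one (lt_min (half_pos δ0) one_pos)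
    (show (3⁻¹ : ℝ) < 1 by norm_num)
  rw [lt_min_iff, inv_pow] at he
  obtain ⟨η, hη⟩ : ∃ η : ℝ, η = (3 ^ e)⁻¹ / (3 * k + 1) := ⟨_, rfl⟩
  have η0 : 0 < η := by rw [hη]; positivity
  have hw : (3 ^ e)⁻¹ = η * (3 * k + 1) := by rw [hη, div_mul_cancel₀ _ (by positivity)]
  obtain ⟨D, hD⟩ := exists_nat_ge (R / η)
  rw [div_le_iff₀' η0] at hD
  obtain ⟨C, w, hC⟩ := hP e _ (half_pos η0)
  generalize hM : |exp (C * (m * 3 ^ e : ℕ) ^ 4)| * (1 + |w|) ^ k = M
  have M0 : 0 ≤ M := by rw [← hM]; positivity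
  refine ⟨∑ _z : Fin k → Fin 4 → Fin (2 * D + 1), M * (1 + M) ^ k * (1 + 2 / η) ^ k,
    by positivity, ?_⟩
  filter_upwards [hC, hn, hF.a0.eventually self_mem_nhdsWithin, hF.tau.eventually_gt_atTop 0,
    (hF.a0.mono_right nhdsWithin_le_nhds).eventually_le_const (half_pos η0)]
    with p ⟨m', lam, _, _, h1, h2, Λ, hI, hG⟩ h3 a0 h4 h5 F h6 h7 h8
  have τ0 := ((div_pos_iff_of_pos_right a0).1 h4).le
  obtain rfl : m' = m * 3 ^ e := by
    rw [h1, Nat.cast_mul, mul_left_comm, h2, mul_inv_eq_iff_eq_mul₀ (by positivity)] at h3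
    exact_mod_cast h3
  have e1 : F = fun i => ∑ z : Fin 4 → Fin (2 * D + 1),
      fun x μ ν => YM7.bump η (fun l => z l - D) (pt (a p) x) * F i x μ ν := by
    funext i x μ ν
    simp only [Finset.sum_apply, ← sum_mul]
    by_cases hx : F i x = 0
    · simp [hx]
    · rw [YM7.sum_bump η0 fun l => (h7 i x hx l).trans hD, one_mul]
  have : IsProbabilityMeasure (cube h (b p) (n p)) := by unfold cube; infer_instance
  have fin := Set.finite_iUnion fun i => (h7 i).fin a0
  obtain ⟨L, hL⟩ := gc_ml (cube h (b p) (n p)) (cube h (b p) (n p)) (Fin k) fin.toFinset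
  have s : ∀ i x, F i x ≠ 0 → x ∈ fin.toFinset := fun i x hx =>
    fin.mem_toFinset.2 (Set.mem_iUnion.2 ⟨i, hx⟩)
  rw [hL F s, e1, MultilinearMap.map_sum]
  refine (abs_sum_le_sum_abs _ _).trans (sum_le_sum fun z _ => ?_)
  rw [← hL _ fun i x hx => s i x fun k => hx (by ext; simp [k])]
  refine gc_piece η0 (h2.trans hw) (fun c hc => hM ▸ bnd_cell hI a0.le τ0 hG hc) h1 ?_ a0 h5 τ0
    (by positivity) (by linarith [he.1]) h6 h7 (h3 ▸ h8) _
  obtain _ | e := e
  · simp at he
  · exact (Nat.le_self_pow e.succ_ne_zero 3).trans (Nat.le_mul_of_pos_left _ hm)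

end Pool.Agent.Lib.MP_7f377f_mp.YM9
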