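import Mathlib

/-! The generator of a strongly continuous semigroup of self adjoint contractions. -/

noncomputable section

namespace Pool.Agent.Lib.MP_7f377f_mp.YM7

open MeasureTheory Filter Topology Set Real

variable {H : Type} [NormedAddCommGroup H] [InnerProductSpace ℂ H] [CompleteSpace H]

theorem selfAdjoint_of {A : H →ₗ.[ℂ] H} (h1 : A.IsFormalAdjoint A)
    (h2 : ∀ x : A.domain, 0 ≤ (inner ℂ (x : H) (A x)).re) (h3 : ∀ w, ∃ x : A.domain, x + A x = w) :
    IsSelfAdjoint A := by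
  have hd : Dense (A.domain : Set H) := by
    rw [Submodule.dense_iff_topologicalClosure_eq_top, Submodule.topologicalClosure_eq_top_iff,
      Submodule.eq_bot_iff]
    intro u hu
    obtain ⟨z, rfl⟩ := h3 u
    have e := congrArg Complex.re (hu z z.2)
    rw [inner_add_right, Complex.add_re, Complex.zero_re] at e
    have e1 : ‖(z : H)‖ ^ 2 = 0 := le_antisymm (by
      rw [← inner_self_eq_norm_sq (𝕜 := ℂ)]
      exact (le_add_of_nonneg_right (h2 z)).trans_eq e) (sq_nonneg _)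
    rw [show z = 0 from Subtype.ext (norm_eq_zero.1 (pow_eq_zero_iff two_ne_zero |>.1 e1))]
    simp
  refine LinearPMap.isSelfAdjoint_def.2 (le_antisymm (LinearPMap.le_of_le_graph fun p hp => ?_)
    (h1.le_adjoint hd))
  obtain ⟨y, rfl⟩ := (LinearPMap.mem_graph_iff' _).1 hp
  obtain ⟨z, hz⟩ := h3 (y + A.adjoint y)
  have e : (y : H) = z := ext_inner_right ℂ fun u => by
    obtain ⟨x, rfl⟩ := h3 u
    rw [inner_add_right, inner_add_right, ← LinearPMap.adjoint_isFormalAdjoint hd y x, ← h1 z x,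
      ← inner_add_left, ← inner_add_left, hz]
  rw [e, add_right_inj] at hz
  rw [e, ← hz]
  exact A.mem_graph z

theorem approx_eigen {R : H →L[ℂ] H} (hR : IsSelfAdjoint R) {μ : ℝ} (hμ : μ ∈ spectrum ℝ R)
    {ε : ℝ} (hε : 0 < ε) : ∃ y, ‖R y - (μ : ℂ) • y‖ < ε * ‖y‖ := by
  by_contra! h
  refine hμ ?_
  have e : IsSelfAdjoint (algebraMap ℝ (H →L[ℂ] H) μ - R) :=
    (IsSelfAdjoint.algebraMap _ (.all μ)).sub hR
  refine (isUnit_pow_iff two_ne_zero).1 (ContinuousLinearMap.isUnit_of_forall_le_norm_inner_map _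
    (c := .mk (ε ^ 2) (sq_nonneg _)) (pow_pos hε 2) fun y => ?_)
  rw [sq (_ - R), mul_apply_eq_comp, e.isSymmetric.apply_clm, inner_self_eq_norm_sq_to_K,
    norm_pow, RCLike.norm_ofReal, abs_norm, NNReal.coe_mk, ← mul_pow, mul_comm]
  refine pow_le_pow_left₀ (by positivity) ((h y).trans_eq ?_) 2
  rw [norm_sub_rev, Algebra.algebraMap_eq_smul_one]
  rfl

theorem small_spectrum {R : H →L[ℂ] H} (h0 : R.IsPositive) (h1 : Function.Injective R)
    (h2 : ¬IsUnit R) {δ : ℝ} (hδ : 0 < δ) : ∃ μ ∈ spectrum ℝ R, 0 < μ ∧ μ < δ := by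
  by_contra! h
  have hR := h0.isSelfAdjoint
  have h3 : cfc (fun x : ℝ => x * max 0 (δ - x)) R = 0 := by
    rw [← cfc_zero ℝ R]
    refine cfc_congr fun x hx => ?_
    rcases (spectrum_nonneg_of_nonneg ((R.nonneg_iff_isPositive).2 h0) hx).eq_or_lt with e | e
    · simp [← e]
    · simp [h x hx e]
  rw [cfc_mul _ _ R, cfc_id' ℝ R] at h3
  have h4 : cfc (fun x : ℝ => max 0 (δ - x)) R = cfc (fun _ : ℝ => 0) R := by
    rw [cfc_const_zero]
    ext y
    exact h1 ((congrArg (fun L : H →L[ℂ] H => L y) h3).trans (map_zero R).symm)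
  have h5 := eqOn_of_cfc_eq_cfc h4
  replace h5 := h5 ((spectrum.zero_mem_iff ℝ).2 h2)
  simp [hδ.not_ge] at h5

theorem resolvent_exists {P : ℝ → H →L[ℂ] H} (h0 : P 0 = 1)
    (h1 : ∀ s ≥ 0, ∀ t ≥ 0, P (s + t) = P s * P t) (h2 : ∀ t ≥ 0, ‖P t‖ ≤ 1)
    (h4 : ∀ x, ContinuousOn (fun t => P t x) (Ici 0)) :
    ∃ R : H →L[ℂ] H, ∀ w, HasDerivWithinAt (fun t => P t (R w)) (-(w - R w)) (Ici 0) 0 := by
  obtain ⟨φ, hφ⟩ : ∃ φ : H → ℝ → H, ∀ x t, φ x t = exp (-t) • P (max t 0) x := ⟨_, fun _ _ => rfl⟩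
  have c : ∀ x, Continuous (φ x) := fun x => by
    rw [funext (hφ x)]
    exact (by fun_prop : Continuous fun t : ℝ => exp (-t)).smul
      ((h4 x).comp_continuous (by fun_prop) fun t => le_max_right t 0)
  let L : H →ₗ[ℂ] H :=
    { toFun := fun x => ∫ t in (0 : ℝ)..1, φ x t
      map_add' := fun x y => by
        rw [← intervalIntegral.integral_add ((c x).intervalIntegrable _ _)
          ((c y).intervalIntegrable _ _)]
        simp only [hφ, map_add, smul_add]
      map_smul' := fun a x => by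
        rw [RingHom.id_apply, ← intervalIntegral.integral_smul]
        simp only [hφ, map_smul, smul_comm a] }
  have hL : ∀ x, ‖L x‖ ≤ 1 * ‖x‖ := fun x => by
    refine (intervalIntegral.norm_integral_le_of_norm_le_const (C := ‖x‖) fun t ht => ?_).trans_eq
      (by simp)
    rw [uIoc_of_le zero_le_one] at ht
    rw [hφ, norm_smul, norm_of_nonneg (exp_pos _).le]
    exact (mul_le_of_le_one_left (norm_nonneg _) (exp_le_one_iff.2 (by linarith [ht.1]))).trans
      (((P _).le_of_opNorm_le (h2 _ (le_max_right _ _)) x).trans_eq (one_mul _))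
  have hN : ‖exp (-1) • P 1‖ < 1 := by
    rw [norm_smul, norm_of_nonneg (exp_pos _).le]
    exact (mul_le_of_le_one_right (exp_pos _).le (h2 1 zero_le_one)).trans_lt
      (exp_lt_one_iff.2 (by norm_num))
  refine ⟨L.mkContinuous 1 hL * (Units.oneSub _ hN).inv, fun w => ?_⟩
  have e : w = (Units.oneSub _ hN).val ((Units.oneSub _ hN).inv w) := by
    rw [← mul_apply_eq_comp, Units.val_inv, one_apply_eq_self]
  rw [mul_apply_eq_comp]
  generalize (Units.oneSub _ hN).inv w = x at e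
  have d := fun s => ((c x).integral_hasStrictDerivAt 0 s).hasDerivAt
  have d1 := (hasDerivAt_exp 0).smul
    (((d (1 + 0)).scomp (0 : ℝ) ((hasDerivAt_id' (0 : ℝ)).const_add 1)).sub (d 0))
  refine (d1.hasDerivWithinAt.congr_of_mem (fun s hs => ?_) self_mem_Ici).congr_deriv ?_
  · change P s (∫ t in (0 : ℝ)..1, φ x t) =
      exp s • ((∫ t in (0 : ℝ)..1 + s, φ x t) - ∫ t in (0 : ℝ)..s, φ x t)
    rw [intervalIntegral.integral_interval_sub_left ((c x).intervalIntegrable _ _)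
      ((c x).intervalIntegrable _ _), ← (P s).intervalIntegral_comp_comm
      ((c x).intervalIntegrable _ _)]
    nth_rewrite 3 [← zero_add s]
    rw [← intervalIntegral.integral_comp_add_right, ← intervalIntegral.integral_smul]
    refine intervalIntegral.integral_congr fun t ht => ?_
    rw [uIcc_of_le zero_le_one] at ht
    simp only [hφ, max_eq_left ht.1, max_eq_left (add_nonneg ht.1 hs), smul_smul, ← exp_add,
      ContinuousLinearMap.map_smul_of_tower]
    rw [add_comm t s, h1 s hs t ht.1, mul_apply_eq_comp, neg_add, add_neg_cancel_left]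
  · rw [e]
    simp [hφ, h0, L]
    abel

theorem generator {P : ℝ → H →L[ℂ] H} (h0 : P 0 = 1)
    (h1 : ∀ s ≥ 0, ∀ t ≥ 0, P (s + t) = P s * P t) (h2 : ∀ t ≥ 0, ‖P t‖ ≤ 1)
    (h3 : ∀ t ≥ 0, IsSelfAdjoint (P t)) (h4 : ∀ x, ContinuousOn (fun t => P t x) (Ici 0))
    (h5 : ∀ B : ℝ, ¬∀ t ≥ 0, ∀ x, ‖P t x - x‖ ≤ B * t * ‖x‖) :
    ∃ A : H →ₗ.[ℂ] H, IsSelfAdjoint A ∧
      (∀ x y, (x, y) ∈ A.graph ↔ HasDerivWithinAt (fun t => P t x) (-y) (Ici 0) 0) ∧
      (∀ x : A.domain, 0 ≤ (inner ℂ (x : H) (A x)).re) ∧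
      ∀ M : ℝ, ∃ m > M, ∀ ε > 0, ∃ x : A.domain, ‖(x : H)‖ = 1 ∧ ‖A x - (m : ℂ) • x‖ < ε := by
  let G : Submodule ℂ (H × H) :=
    { carrier := {p | HasDerivWithinAt (fun t => P t p.1) (-p.2) (Ici 0) 0}
      add_mem' := fun {p q} hp hq => by
        simpa only [mem_ofPred_eq, Prod.fst_add, Prod.snd_add, map_add, neg_add] using hp.fun_add hq
      zero_mem' := by simpa using hasDerivWithinAt_const (0 : ℝ) (Ici 0) (0 : H)
      smul_mem' := fun c p hp => by
        simpa only [mem_ofPred_eq, Prod.smul_fst, Prod.smul_snd, map_smul, smul_neg] using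
          hp.fun_const_smul c }
  have u := uniqueDiffWithinAt_Ici (0 : ℝ)
  obtain ⟨A, hA⟩ : ∃ A : H →ₗ.[ℂ] H,
      ∀ x y, (x, y) ∈ A.graph ↔ HasDerivWithinAt (fun t => P t x) (-y) (Ici 0) 0 :=
    ⟨G.toLinearPMap, fun x y => by
      rw [G.toLinearPMap_graph_eq fun p hp e => ?_]
      · rfl
      · have e1 : HasDerivWithinAt (fun t => P t p.1) (-p.2) (Ici 0) 0 := hp
        simp only [e, map_zero] at e1
        exact neg_eq_zero.1 (u.eq_deriv _ e1 (hasDerivWithinAt_const _ _ _))⟩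
  have d : ∀ x : A.domain, HasDerivWithinAt (fun t => P t x) (-A x) (Ici 0) 0 := fun x =>
    (hA _ _).1 (A.mem_graph x)
  have sym : A.IsFormalAdjoint A := fun x y => by
    have e1 := (d x).inner ℂ (hasDerivWithinAt_const _ _ (y : H))
    have e2 := ((hasDerivWithinAt_const _ _ (x : H)).inner ℂ (d y)).congr_of_mem
      (fun t ht => (h3 t ht).isSymmetric.apply_clm x y) self_mem_Ici
    simpa using u.eq_deriv _ e1 e2
  have pos : ∀ x : A.domain, 0 ≤ (inner ℂ (x : H) (A x)).re := fun x => by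
    have e1 := Complex.reCLM.hasFDerivAt.comp_hasDerivWithinAt 0
      ((hasDerivWithinAt_const _ _ (x : H)).inner ℂ (d x))
    have e2 := le_of_tendsto (hasDerivWithinAt_iff_tendsto_slope' self_notMem_Ioi |>.1
      (e1.mono Ioi_subset_Ici_self)) (b := 0) (eventually_mem_nhdsWithin.mono fun t ht => by
        rw [slope_def_field]
        refine div_nonpos_of_nonpos_of_nonneg (sub_nonpos.2 ?_) (sub_nonneg.2 (le_of_lt ht))
        simp only [Function.comp, h0, one_apply_eq_self, Complex.reCLM_apply]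
        refine (re_inner_le_norm (𝕜 := ℂ) _ _).trans (le_of_le_of_eq ?_
          (inner_self_eq_norm_mul_norm (𝕜 := ℂ) _).symm)
        exact mul_le_mul_of_nonneg_left
          (((P t).le_of_opNorm_le (h2 t (le_of_lt ht)) _).trans_eq (one_mul _)) (norm_nonneg _))
    simpa using e2
  obtain ⟨R, hR⟩ := resolvent_exists h0 h1 h2 h4
  have r : ∀ w, ∃ z : A.domain, (z : H) = R w ∧ z + A z = w := fun w => by
    obtain ⟨z, e1, e2⟩ := A.mem_graph_iff.1 ((hA _ _).2 (hR w))
    exact ⟨z, e1, by rw [e1, e2, add_sub_cancel]⟩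
  refine ⟨A, selfAdjoint_of sym pos fun w => (r w).imp fun _ e => e.2, hA, pos, fun M => ?_⟩
  have p1 : R.IsPositive := ⟨fun x y => ?_, fun x => ?_⟩
  rotate_left
  · obtain ⟨z, e1, rfl⟩ := r x
    obtain ⟨z', e2, rfl⟩ := r y
    rw [ContinuousLinearMap.coe_coe, ← e1, ← e2, inner_add_left, inner_add_right, sym]
  · obtain ⟨z, e1, rfl⟩ := r x
    rw [ContinuousLinearMap.reApplyInnerSelf_apply, ← e1, inner_add_right, map_add]
    exact add_nonneg inner_self_nonneg (pos z)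
  have p2 : Function.Injective R := (injective_iff_map_eq_zero R).2 fun w e => by
    obtain ⟨z, e1, rfl⟩ := r w
    rw [show z = 0 from Subtype.ext (e1.trans e)]
    simp
  have p3 : ¬IsUnit R := by
    rintro ⟨R, rfl⟩
    refine h5 (‖R.inv‖ + 1) fun t ht x => ?_
    have e : R.val (R.inv x) = x := by rw [← mul_apply_eq_comp, Units.val_inv, one_apply_eq_self]
    have e1 := hR (R.inv x)
    rw [e] at e1
    have := norm_image_sub_le_of_norm_deriv_right_le_segment (f := fun t => P t x)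
      (f' := fun s => P s (-(R.inv x - x))) (C := (‖R.inv‖ + 1) * ‖x‖)
      ((h4 x).mono Icc_subset_Ici_self) (fun s hs => ?_) (fun s hs => ?_) t ⟨ht, le_rfl⟩
    · rwa [h0, one_apply_eq_self, sub_zero, mul_right_comm] at this
    · have e2 := ((P s).restrictScalars ℝ).hasFDerivAt.comp_hasDerivWithinAt 0 e1
      refine ((e2.scomp_of_eq s ((hasDerivWithinAt_id s (Ici s)).sub_const s) (fun r hr =>
        mem_Ici.2 (sub_nonneg.2 hr)) (sub_self s).symm).congr_of_mem (fun r hr => ?_)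
          self_mem_Ici).congr_deriv (one_smul _ _)
      change P r x = P s (P (r - s) x)
      rw [← mul_apply_eq_comp, ← h1 s hs.1 _ (sub_nonneg.2 hr), add_sub_cancel]
    · refine ((P s).le_of_opNorm_le (h2 s hs.1) _).trans ?_
      rw [one_mul, norm_neg, add_one_mul]
      exact (norm_sub_le _ _).trans (add_le_add_left (R.inv.le_opNorm x) _)
  obtain ⟨μ, m1, m2, m3⟩ := small_spectrum p1 p2 p3 (δ := (|M| + 1)⁻¹) (by positivity)
  refine ⟨μ⁻¹ - 1, by linarith [le_abs_self M, lt_inv_of_lt_inv₀ m2 m3], fun ε ε0 => ?_⟩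
  obtain ⟨y, hy⟩ := approx_eigen p1.isSelfAdjoint m1 (ε := min (μ / 2) (μ * (μ / 2) * ε))
    (by positivity)
  obtain ⟨z, e1, e2⟩ := r y
  have e3 := norm_sub_norm_le ((μ : ℂ) • y) (R y)
  rw [norm_sub_rev, norm_smul, Complex.norm_of_nonneg m2.le, ← e1] at e3
  rw [← e1] at hy
  have e4 : μ / 2 * ‖y‖ < ‖(z : H)‖ := by
    linarith [mul_le_mul_of_nonneg_right (min_le_left (μ / 2) (μ * (μ / 2) * ε)) (norm_nonneg y)]
  have e5 : 0 < ‖(z : H)‖ := lt_of_le_of_lt (by positivity) e4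
  refine ⟨((‖(z : H)‖⁻¹ : ℝ) : ℂ) • z, ?_, ?_⟩
  · rw [Submodule.coe_smul, norm_smul, Complex.norm_of_nonneg (by positivity),
      inv_mul_cancel₀ e5.ne']
  · have e6 : A z - ((μ⁻¹ - 1 : ℝ) : ℂ) • (z : H) = -((μ⁻¹ : ℝ) : ℂ) • ((z : H) - (μ : ℂ) • y) := by
      rw [← e2, smul_sub, smul_smul, neg_mul, ← Complex.ofReal_mul, inv_mul_cancel₀ m2.ne']
      push_cast
      module
    rw [A.map_smul, Submodule.coe_smul, smul_comm, ← smul_sub, e6, norm_smul, norm_smul, norm_neg,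
      Complex.norm_of_nonneg (by positivity), Complex.norm_of_nonneg (by positivity),
      inv_mul_lt_iff₀ e5, inv_mul_lt_iff₀ m2]
    refine hy.trans_le ((mul_le_mul_of_nonneg_right (min_le_right _ _) (norm_nonneg y)).trans ?_)
    rw [mul_right_comm, mul_assoc μ, mul_assoc μ]
    gcongr

end Pool.Agent.Lib.MP_7f377f_mp.YM7
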