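import Pool.Agent.Lib.MP_7f377f_mp.OSB
import Pool.Agent.Lib.MP_7f377f_mp.OSD

/-! The quantum theory reconstructed from the infinite volume limit. -/

noncomputable section

namespace Pool.Agent.Lib.MP_7f377f_mp.YM7

open MeasureTheory Filter Topology Set Real
open scoped NNReal

set_option linter.unusedSectionVars false

variable {k l : ℕ} {S : ∀ {k : ℕ}, (Fin k → R4 → ℝ) → ℝ}

theorem two_point {F : Fin 2 → R4 → ℝ} (hF : Adm F) (h0 : ∀ i y, 0 ≤ F i y) {r D : ℝ} (r0 : 0 < r)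
    (h : ∀ x y, F 0 x ≠ 0 → F 1 y ≠ 0 → r ≤ ‖x - y‖ ∧ ‖x - y‖ ≤ D) :
    (∏ i, ∫ y, F i y) * (9 / D ^ 8) ≤ ∫ y : Fin 2 → R4, (∏ i, F i (y i)) * free y ∧
    ∫ y : Fin 2 → R4, (∏ i, F i (y i)) * free y ≤ (∏ i, ∫ y, F i y) * (9 / r ^ 8) := by
  have h1 : Integrable fun y : Fin 2 → R4 => ∏ i, F i (y i) := Integrable.fintype_prod fun i =>
    (hF.1 i).2.continuous.integrable_of_hasCompactSupport (hF.1 i).1
  have h2 : ∀ y : Fin 2 → R4, ∏ i, F i (y i) = 0 ∨ (r ≤ ‖y 0 - y 1‖ ∧ ‖y 0 - y 1‖ ≤ D) := fun y =>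
    or_iff_not_imp_left.2 fun e => h _ _ (Finset.prod_ne_zero_iff.1 e 0 (Finset.mem_univ _))
      (Finset.prod_ne_zero_iff.1 e 1 (Finset.mem_univ _))
  have h3 : ∀ y : Fin 2 → R4, (∏ i, F i (y i)) * free y =
      (∏ i, F i (y i)) * (9 / max r ‖y 0 - y 1‖ ^ 8) := fun y => by
    rcases h2 y with e | e
    · rw [e, zero_mul, zero_mul]
    · rw [max_eq_right e.1]
      exact congrArg _ (YM5.free_two y (sub_ne_zero.1 (norm_pos_iff.1 (r0.trans_le e.1))))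
  have h4 : ∀ y : Fin 2 → R4, 9 / max r ‖y 0 - y 1‖ ^ 8 ≤ 9 / r ^ 8 := fun y => by
    gcongr
    exact le_max_left _ _
  have h5 : Integrable fun y : Fin 2 → R4 => (∏ i, F i (y i)) * (9 / max r ‖y 0 - y 1‖ ^ 8) :=
    h1.mul_bdd (c := 9 / r ^ 8) (Continuous.aestronglyMeasurable (continuous_const.div
      (by fun_prop) fun y => pow_ne_zero _ (r0.trans_le (le_max_left _ _)).ne'))
      (ae_of_all _ fun y => by
        rw [norm_of_nonneg (by positivity)]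
        exact h4 y)
  have h6 : ∀ y : Fin 2 → R4, 0 ≤ ∏ i, F i (y i) := fun y => Finset.prod_nonneg fun i _ => h0 i _
  simp only [h3, ← integral_fintype_prod_volume_eq_prod, ← integral_mul_const]
  refine ⟨integral_mono (h1.mul_const _) h5 fun y => ?_,
    integral_mono h5 (h1.mul_const _) fun y => mul_le_mul_of_nonneg_left (h4 y) (h6 y)⟩
  rcases h2 y with e | e
  · simp only [e, zero_mul, le_refl]
  · refine mul_le_mul_of_nonneg_left ?_ (h6 y)
    have := r0.trans_le e.1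
    rw [max_eq_right e.1]
    gcongr
    exact e.2

theorem Pos.smul {f : Fin k → R4 → ℝ} (hf : Pos f) {c : ℝ} (hc : 0 < c) :
    Pos fun i y => f i (c • y) :=
  ⟨hf.1.smul hc.ne', fun i y hy => pos_of_mul_pos_right
    (hf.2 i _ (tsupport_comp (θ := fun y => c • y) (by fun_prop) hy)) hc.le⟩

theorem not_bdd (hS : ∀ f : Fin 2 → R4 → ℝ, Adm f →
      Tendsto (fun d : ℝ => log d⁻¹ ^ 2 * S fun i y => f i (d⁻¹ • y)) (𝓝[>] 0)
        (𝓝 ((6 / 11) ^ 2 * ∫ y : Fin 2 → R4, (∏ i, f i (y i)) * free y))) (B : ℝ) :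
    ¬∀ s ≥ 0, ∀ f : Fin 1 → R4 → ℝ, Pos f → (1 - B * s) *
      S (rp f (sh (EuclideanSpace.single 0 0) f)) ≤ S (rp f (sh (EuclideanSpace.single 0 s) f)) := by
  intro H
  let φ : ContDiffBump (EuclideanSpace.single 0 2 : R4) := ⟨1 / 2, 1, by norm_num, by norm_num⟩
  have h1 : ∀ y ∈ tsupport φ, 1 ≤ y 0 ∧ ‖y‖ ≤ 3 := fun y hy => by
    rw [φ.tsupport_eq, Metric.mem_closedBall, dist_eq_norm] at hy
    have e1 := (PiLp.norm_apply_le (y - EuclideanSpace.single 0 2) 0).trans hy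
    have e2 := (norm_sub_norm_le y (EuclideanSpace.single 0 2)).trans hy
    simp only [PiLp.sub_apply, PiLp.single_apply, if_true, norm_eq_abs, abs_le, PiLp.norm_single,
      φ] at e1 e2
    constructor <;> linarith [e1.1, abs_of_pos (two_pos (α := ℝ))]
  have h2 : Pos fun _ : Fin 1 => (φ : R4 → ℝ) := ⟨⟨fun _ => ⟨φ.hasCompactSupport, φ.contDiff⟩,
    Subsingleton.pairwise⟩, fun _ y hy => one_pos.trans_le (h1 y hy).1⟩
  have h3 : ∀ {s : ℝ}, 0 ≤ s → 0 ≤ (EuclideanSpace.single 0 s : R4) 0 := fun h => by simpa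
  have h4 := fun (s : ℝ) (hs : 0 ≤ s) => two_point (h2.rp (h2.sh (h3 hs)))
    (YM5.forall_append (P := fun u : R4 → ℝ => ∀ y, 0 ≤ u y) (k := 1) (l := 1)
      (fun _ _ => φ.nonneg) fun _ _ => φ.nonneg) (r := s + 2) (D := s + 6) (by linarith) fun x y hx hy => by
    have e1 := h1 (th x) (subset_tsupport _ hx)
    have e2 := h1 (y - EuclideanSpace.single 0 s) (subset_tsupport _ hy)
    have e3 := norm_sub_norm_le y (EuclideanSpace.single 0 s)
    have e4 := (neg_le_abs _).trans (PiLp.norm_apply_le (x - y) 0)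
    rw [th_zero, ← thL_eq, thL.norm_map] at e1
    simp only [PiLp.sub_apply, PiLp.single_apply, if_true, norm_eq_abs, PiLp.norm_single,
      abs_of_nonneg hs] at e2 e3 e4
    exact ⟨by linarith [e1.1, e2.1], by linarith [e1.2, e2.2, norm_sub_le x y]⟩
  have h5 : ∀ s : ℝ, ∏ i, ∫ y, rp (fun _ : Fin 1 => (φ : R4 → ℝ))
      (sh (EuclideanSpace.single 0 s) fun _ : Fin 1 => (φ : R4 → ℝ)) i y = (∫ y, φ y) ^ 2 :=
    fun s => by
      rw [Fin.prod_univ_two, sq]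
      have := thL.measurePreserving.integral_comp thL.toHomeomorph.measurableEmbedding φ
      rw [thL_eq] at this
      exact congrArg₂ _ this (integral_sub_right_eq_self φ _)
  have h6 : ∀ {d : ℝ}, 0 < d → ∀ s : ℝ, (fun i y => rp (fun _ : Fin 1 => (φ : R4 → ℝ))
      (sh (EuclideanSpace.single 0 s) fun _ : Fin 1 => (φ : R4 → ℝ)) i (d⁻¹ • y)) =
      rp (fun (_ : Fin 1) y => φ (d⁻¹ • y))
        (sh (EuclideanSpace.single 0 (d * s)) fun (_ : Fin 1) y => φ (d⁻¹ • y)) := fun {d} hd s => by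
    funext i y
    induction i using Fin.addCases with
    | left i =>
      simp only [rp, Fin.append_left]
      change φ (th (d⁻¹ • y)) = φ (d⁻¹ • th y)
      rw [← thL_eq, map_smul]
    | right i =>
      simp only [rp, Fin.append_right, sh, smul_sub]
      congr 2
      ext l
      by_cases h : l = 0 <;> simp [h, hd.ne']
  have c : Tendsto (fun d : ℝ => 1 - B * (d * 10)) (𝓝[>] 0) (𝓝 1) :=
    (Continuous.tendsto' (by fun_prop) _ _ (by simp)).mono_left nhdsWithin_le_nhds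
  have h7 := le_of_tendsto_of_tendsto (c.mul (hS _ (h2.rp (h2.sh (h3 le_rfl)))))
    (hS _ (h2.rp (h2.sh (h3 (s := 10) (by norm_num)))))
    (eventually_mem_nhdsWithin.mono fun d (hd : 0 < d) => by
      beta_reduce
      rw [h6 hd, h6 hd, mul_zero, mul_left_comm]
      exact mul_le_mul_of_nonneg_left (H _ (by positivity) _ (h2.smul (inv_pos.2 hd)))
        (sq_nonneg _))
  rw [one_mul] at h7
  have h8 := ((h4 0 le_rfl).1.trans (le_of_mul_le_mul_left h7 (by norm_num))).trans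
    (h4 10 (by norm_num)).2
  rw [h5, h5] at h8
  have h9 := le_of_mul_le_mul_left h8 (pow_pos φ.integral_pos 2)
  norm_num at h9

theorem lip_shift {f : R4 → ℝ} (h1 : HasCompactSupport f) (h2 : ContDiff ℝ 1 f) {η : ℝ≥0}
    (hη : 0 < η) : ∀ᶠ u in 𝓝 (0 : R4), LipschitzWith η ((fun y => f (y - u)) - f) := by
  obtain ⟨δ, δ0, hδ⟩ := Metric.uniformContinuous_iff.1
    ((h1.fderiv ℝ).uniformContinuous_of_continuous (h2.continuous_fderiv one_ne_zero)) η hη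
  filter_upwards [Metric.ball_mem_nhds 0 δ0] with u hu
  have d1 := h2.differentiable one_ne_zero
  have d2 : Differentiable ℝ fun y => f (y - u) := d1.comp (differentiable_id.sub_const u)
  refine lipschitzWith_of_nnnorm_fderiv_le (d2.sub d1) fun y => ?_
  rw [fderiv_sub (d2 y) (d1 y), ← NNReal.coe_le_coe, coe_nnnorm, ← dist_eq_norm, fderiv_comp_sub]
  refine (hδ ?_).le
  rwa [dist_eq_norm, sub_sub_cancel_left, norm_neg, ← mem_ball_zero_iff]

variable [MeasurableSpace SU2] [BorelSpace SU2] {h : Measure SU2} [h.IsHaarMeasure]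
  [IsProbabilityMeasure h]

theorem corr_add (b : ℝ) (n : ℕ) [NeZero n] (a : ℝ) (f g : Fin k → R4 → ℝ) :
    corr h b n a (f + g) = ∑ t : Finset (Fin k), corr h b n a (t.piecewise f g) := by
  simp only [corr_eq, ← gM_apply]
  refine ((gM h b k).map_add_univ (fun i x _ _ => f i (xp a x)) fun i x _ _ => g i (xp a x)).trans
    (Finset.sum_congr rfl fun t _ => congrArg _ (funext fun i => ?_))
  by_cases hi : i ∈ t
  · simp only [t.piecewise_eq_of_mem _ _ hi]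
    rfl
  · simp only [t.piecewise_eq_of_notMem _ _ hi]
    rfl

theorem os_of {n : ℕ → ℕ+} {a b : ℕ → ℝ}
    (h1 : ∀ k (f : Fin k → R4 → ℝ), Adm f →
      Tendsto (fun j => corr h (b j) (n j) (a j) f) atTop (𝓝 (S f)) ∧
      (∀ v, S (fun i y => f i (y + v)) = S f) ∧
      (∀ σ : Equiv.Perm (Fin 4), S (fun i y => f i (WithLp.toLp 2 (y ∘ σ))) = S f) ∧
      S (fun i => theta (f i)) = S f)
    (h2 : ∀ k R, ∀ δ > 0, ∃ C, ∀ (f : Fin k → R4 → ℝ) (L : Fin k → NNReal), Adm f →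
      (∀ i, LipschitzWith (L i) (f i) ∧ ∀ y, f i y ≠ 0 → ‖y‖ ≤ R) →
      (∀ i j, i ≠ j → ∀ x y, f i x ≠ 0 → f j y ≠ 0 → δ ≤ dist x y) → |S f| ≤ C * ∏ i, L i)
    (h3 : ∀ (m : ℕ) (c : Fin m → ℝ) (k : Fin m → ℕ) (f : ∀ a, Fin (k a) → R4 → ℝ),
      (∀ a, Adm (f a)) → (∀ a i, ∀ y ∈ tsupport (f a i), 0 < y 0) → ∀ t ≥ 0,
      0 ≤ gram S c f t ∧ gram S c f t ≤ gram S c f 0) : OS S := by
  refine ⟨fun f => ?_, fun e f hf => ?_, fun hf => (h1 _ _ hf).2.1, fun hf => (h1 _ _ hf).2.2.2, h3,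
    fun {k f} hf => ?_⟩
  · refine tendsto_nhds_unique (h1 _ f ⟨fun i => i.elim0, fun i => i.elim0⟩).1
      (tendsto_const_nhds.congr fun j => ?_)
    rw [corr_eq, gcorr_eq]
    simp
  · refine tendsto_nhds_unique (h1 _ _ (hf.reindex e)).1 ((h1 _ _ hf).1.congr fun j => ?_)
    unfold corr
    congr 1
    funext U
    exact (e.prod_comp _).symm
  obtain ⟨D, q, e1, e2, e3⟩ := hf.data
  obtain ⟨δ, δ0, δ1, hδ⟩ : ∃ δ : ℝ, 0 < δ ∧ δ ≤ 1 ∧ 3 * δ ≤ 1 / (q + 1 : ℝ) :=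
    ⟨min 1 (1 / (q + 1 : ℝ) / 3), by positivity, min_le_left _ _,
      by linarith [min_le_right 1 (1 / (q + 1 : ℝ) / 3)]⟩
  obtain ⟨C, hC⟩ := h2 k (D + 1) δ δ0
  refine Metric.tendsto_nhds.2 fun ε ε0 => ?_
  have c0 : ∀ t : Finset (Fin k), Continuous fun η : ℝ≥0 =>
      C * ((∏ i, t.piecewise (fun _ => η) (fun _ => (D : ℝ≥0)) i : ℝ≥0) : ℝ) := fun t =>
    continuous_const.mul (NNReal.continuous_coe.comp (continuous_finsetProd _ fun i _ => by
      by_cases hi : i ∈ t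
      · simpa only [t.piecewise_eq_of_mem _ _ hi] using continuous_id'
      · simpa only [t.piecewise_eq_of_notMem _ _ hi] using continuous_const))
  have c1 := (continuous_finsetSum (Finset.univ.erase ∅) fun t _ => c0 t).tendsto' 0 0
    (Finset.sum_eq_zero fun t ht => by
      obtain ⟨i, hi⟩ := Finset.nonempty_iff_ne_empty.2 (Finset.ne_of_mem_erase ht)
      rw [Finset.prod_eq_zero (Finset.mem_univ i) (t.piecewise_eq_of_mem _ _ hi), NNReal.coe_zero,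
        mul_zero])
  obtain ⟨η, hη, η0⟩ := (((c1.eventually (gt_mem_nhds ε0)).filter_mono
    (nhdsWithin_le_nhds (s := Ioi 0))).and self_mem_nhdsWithin).exists
  filter_upwards [eventually_all.2 fun i => ((continuous_apply i).tendsto' 0 0 rfl).eventually
    (lip_shift (hf.1 i).1 (hf.1 i).2 η0), Metric.closedBall_mem_nhds 0 δ0] with u hu hu'
  obtain ⟨P, hP⟩ : ∃ P : Fin k → (R4 → ℝ) → Prop, ∀ i g, P i g ↔ (HasCompactSupport g ∧
    ContDiff ℝ 1 g) ∧ ∀ y ∈ tsupport g, ∃ x ∈ tsupport (f i), dist x y ≤ δ := ⟨_, fun _ _ => Iff.rfl⟩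
  have p1 : ∀ i, P i (f i) := fun i =>
    (hP _ _).2 ⟨hf.1 i, fun y hy => ⟨y, hy, (dist_self y).trans_le δ0.le⟩⟩
  have p2 : ∀ i, P i fun y => f i (y - u i) := fun i => (hP _ _).2
    ⟨⟨(hf.1 i).1.comp_homeomorph (Homeomorph.subRight (u i)),
      (hf.1 i).2.comp (contDiff_id.sub contDiff_const)⟩, fun y hy =>
      ⟨_, tsupport_comp (θ := fun y => y - u i) (by fun_prop) hy, by
        rw [dist_eq_norm, sub_sub_cancel_left, norm_neg]
        exact (norm_le_pi_norm u i).trans (mem_closedBall_zero_iff.1 hu')⟩⟩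
  have p3 : ∀ (t : Finset (Fin k)) i, P i (t.piecewise ((fun i y => f i (y - u i)) - f) f i) :=
    fun t i => by
      by_cases hi : i ∈ t
      · rw [t.piecewise_eq_of_mem _ _ hi]
        obtain ⟨⟨q1, q2⟩, q3⟩ := (hP _ _).1 (p2 i)
        exact (hP _ _).2 ⟨⟨q1.sub (hf.1 i).1, q2.sub (hf.1 i).2⟩, fun y hy =>
          (tsupport_sub _ _ hy).elim (q3 y) (((hP _ _).1 (p1 i)).2 y)⟩
      · rw [t.piecewise_eq_of_notMem _ _ hi]
        exact p1 i
  have p4 : ∀ {g : Fin k → R4 → ℝ}, (∀ i, P i (g i)) → ∀ i j, i ≠ j → ∀ x ∈ tsupport (g i),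
      ∀ y ∈ tsupport (g j), δ ≤ dist x y := fun hg i j hij x hx y hy => by
    obtain ⟨x', q1, q2⟩ := ((hP _ _).1 (hg i)).2 x hx
    obtain ⟨y', q3, q4⟩ := ((hP _ _).1 (hg j)).2 y hy
    linarith [e3 i j hij x' q1 y' q3, dist_triangle4_right x' y' x y]
  have p5 : ∀ {g : Fin k → R4 → ℝ}, (∀ i, P i (g i)) → Adm g := fun hg =>
    ⟨fun i => ((hP _ _).1 (hg i)).1, fun i j hij => disjoint_left.2 fun y hy hy' =>
      (p4 hg i j hij y hy y hy').not_gt ((dist_self y).trans_lt δ0)⟩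
  have e4 : S (fun i y => f i (y - u i)) =
      ∑ t : Finset (Fin k), S (t.piecewise ((fun i y => f i (y - u i)) - f) f) :=
    tendsto_nhds_unique (h1 _ _ (p5 p2)).1 ((tendsto_finsetSum _ fun t _ =>
      (h1 _ _ (p5 (p3 t))).1).congr fun j => by rw [← corr_add, sub_add_cancel])
  rw [e4, ← Finset.add_sum_erase _ _ (Finset.mem_univ ∅), Finset.piecewise_empty,
    dist_eq_norm, add_sub_cancel_left]
  refine ((Finset.abs_sum_le_sum_abs _ _).trans (Finset.sum_le_sum fun t _ => hC _ _ (p5 (p3 t))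
    (fun i => ⟨?_, fun y hy => ?_⟩) fun i j hij x y hx hy => p4 (p3 t) i j hij x
      (subset_tsupport _ hx) y (subset_tsupport _ hy))).trans_lt hη
  · by_cases hi : i ∈ t
    · rw [t.piecewise_eq_of_mem _ _ hi, t.piecewise_eq_of_mem _ _ hi]
      exact hu i
    · rw [t.piecewise_eq_of_notMem _ _ hi, t.piecewise_eq_of_notMem _ _ hi]
      exact (e2 i).1
  · obtain ⟨x, q1, q2⟩ := ((hP _ _).1 (p3 t i)).2 y (subset_tsupport _ hy)
    rw [dist_comm, dist_eq_norm] at q2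
    linarith [e1 i x q1, norm_sub_norm_le y x]

theorem quantum_of {ι : Type} {Φ : Filter ι} {n : ι → ℕ} [∀ p, NeZero (n p)] {a b τ : ι → ℝ}
    [Φ.NeBot] (hF : Fam Φ n a b τ) (hC : Cell h Φ n a b τ)
    (hS : ∀ K, Short h Φ n a b K) :
    ∃ (n : ℕ → ℕ+) (a b : ℕ → ℝ) (S : ∀ {k : ℕ}, (Fin k → R4 → ℝ) → ℝ),
      Tendsto a atTop (𝓝[>] 0) ∧ Tendsto (fun j => a j * n j) atTop atTop ∧
      Tendsto (fun j => b j / log (a j)⁻¹) atTop (𝓝 (11 / (6 * π ^ 2))) ∧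
      (∀ k (f : Fin k → R4 → ℝ), Adm f →
        Tendsto (fun j => corr h (b j) (n j) (a j) f) atTop (𝓝 (S f)) ∧
        (∀ v, S (fun i y => f i (y + v)) = S f) ∧
        (∀ σ : Equiv.Perm (Fin 4), S (fun i y => f i (WithLp.toLp 2 (y ∘ σ))) = S f) ∧
        S (fun i => theta (f i)) = S f) ∧
      (∀ k R, ∀ δ > 0, ∃ C, ∀ (f : Fin k → R4 → ℝ) (L : Fin k → NNReal), Adm f →
        (∀ i, LipschitzWith (L i) (f i) ∧ ∀ y, f i y ≠ 0 → ‖y‖ ≤ R) →
        (∀ i j, i ≠ j → ∀ x y, f i x ≠ 0 → f j y ≠ 0 → δ ≤ dist x y) → |S f| ≤ C * ∏ i, L i) ∧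
      (∀ k (f : Fin k → R4 → ℝ), Adm f →
        Tendsto (fun d : ℝ => log d⁻¹ ^ k * S fun i y => f i (d⁻¹ • y)) (𝓝[>] 0)
          (𝓝 ((6 / 11) ^ k * ∫ y : Fin k → R4, (∏ i, f i (y i)) * free y))) ∧
      (∀ y : Fin 2 → R4, y 0 ≠ y 1 → free y = 9 / ‖y 0 - y 1‖ ^ 8) ∧
      ∃ (H : Type) (_ : NormedAddCommGroup H) (_ : InnerProductSpace ℂ H) (_ : CompleteSpace H)
        (Ψ : ∀ {k : ℕ}, (Fin k → R4 → ℝ) → H) (T : R4 → H →L[ℂ] H) (A : H →ₗ.[ℂ] H),
        Dense (Submodule.span ℂ {x | ∃ k, ∃ f : Fin k → R4 → ℝ, Pos f ∧ Ψ f = x} : Set H) ∧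
        (∀ k l (f : Fin k → R4 → ℝ) (g : Fin l → R4 → ℝ), Pos f → Pos g →
          inner ℂ (Ψ f) (Ψ g) = S (Fin.append (fun i => theta (f i)) g)) ∧
        ‖Ψ ![]‖ = 1 ∧ T 0 = 1 ∧
        (∀ v, 0 ≤ v 0 → ‖T v‖ ≤ 1 ∧ T v (Ψ ![]) = Ψ ![] ∧ (∀ w, 0 ≤ w 0 → T (v + w) = T v * T w) ∧
          ∀ k (f : Fin k → R4 → ℝ), Pos f → T v (Ψ f) = Ψ fun i y => f i (y - v)) ∧
        (∀ x, ContinuousOn (fun v => T v x) {v | 0 ≤ v 0}) ∧
        (∀ v, v 0 = 0 → T v ∈ unitary (H →L[ℂ] H)) ∧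
        (∀ t ≥ 0, (T (EuclideanSpace.single 0 t)).IsPositive) ∧ IsSelfAdjoint A ∧
        (∀ x y, (x, y) ∈ A.graph ↔
          HasDerivWithinAt (fun t => T (EuclideanSpace.single 0 t) x) (-y) (Ici 0) 0) ∧
        (∀ x : A.domain, 0 ≤ (inner ℂ (x : H) (A x)).re) ∧ (Ψ ![], 0) ∈ A.graph ∧
        ∀ M : ℝ, ∃ m > M, ∀ ε > 0, ∃ x : A.domain, ‖(x : H)‖ = 1 ∧ ‖A x - (m : ℂ) • x‖ < ε := by
  obtain ⟨n, a, b, S, h1, h2, h3, h4, h5, h6, h7, h8⟩ := infinite_of hF hC hS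
  have hO := os_of h4 h5 h6
  obtain ⟨H, _, _, _, Ψ, T, q1, q2, q3, q4, q5, q6, q7, q8⟩ := hO.reconstruct
  have e0 : ∀ {s : ℝ}, 0 ≤ s → 0 ≤ (EuclideanSpace.single 0 s : R4) 0 := fun h => by simpa
  obtain ⟨A, r1, r2, r3, r4⟩ := generator (P := fun t => T (EuclideanSpace.single 0 t))
    (by simpa [EuclideanSpace.single, PiLp.single] using q4)
    (fun r hr s hs => (congrArg T (PiLp.single_add ..)).trans ((q5 _ (e0 hr)).2.2.1 _ (e0 hs)))
    (fun t ht => (q5 _ (e0 ht)).1) (fun t ht => (q8 t ht).isSelfAdjoint)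
    (fun x => (q6 x).comp (f := fun t : ℝ => (EuclideanSpace.single 0 t : R4))
      ((PiLp.continuous_toLp 2 fun _ : Fin 4 => ℝ).comp (continuous_single 0)).continuousOn
      fun t ht => e0 ht) fun B hB => not_bdd (h7 2) B fun s hs f hf => by
    have e1 : ∀ {s : ℝ}, 0 ≤ s → S (rp f (sh (EuclideanSpace.single 0 s) f)) =
        (inner ℂ (Ψ f) (T (EuclideanSpace.single 0 s) (Ψ f))).re := fun hs => by
      rw [(q5 _ (e0 hs)).2.2.2 _ f hf]
      exact (congrArg Complex.re (q2 _ _ _ _ hf (hf.sh (e0 hs)))).symm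
    have e2 := re_inner_le_norm (𝕜 := ℂ) (Ψ f) (Ψ f - T (EuclideanSpace.single 0 s) (Ψ f))
    have e3 := mul_le_mul_of_nonneg_left (hB s hs (Ψ f)) (norm_nonneg (Ψ f))
    have e4 := inner_self_eq_norm_mul_norm (𝕜 := ℂ) (Ψ f)
    rw [inner_sub_right, map_sub, norm_sub_rev, e4] at e2
    rw [e1 hs, e1 le_rfl, show T (EuclideanSpace.single 0 0) = 1 by
      simpa [EuclideanSpace.single, PiLp.single] using q4, one_apply_eq_self]
    simp only [RCLike.re_to_complex] at e2 e4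
    rw [e4]
    linarith
  exact ⟨n, a, b, S, h1, h2, h3, h4, h5, h7, h8, H, inferInstance, inferInstance, inferInstance,
    Ψ, T, A, q1, q2, q3, q4, q5, q6, q7, q8, r1, r2, r3, (r2 _ _).2 (by
      rw [neg_zero]
      exact (hasDerivWithinAt_const _ _ _).congr_of_mem (fun t ht => (q5 _ (e0 ht)).2.1)
        self_mem_Ici), r4⟩

end Pool.Agent.Lib.MP_7f377f_mp.YM7
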