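import Pool.Agent.Lib.MP_7f377f_mp.CyF1
import Pool.Agent.Lib.MP_7f377f_mp.OSC

/-! Equicontinuity of the correlations on `ℤ ^ 4`. -/

noncomputable section

namespace Pool.Agent.Lib.MP_7f377f_mp.YM9

open MeasureTheory Filter Topology Function Real Set
open scoped NNReal

theorem exists_fil {ι I : Type} [Countable I] (U : Filter ι) [U.NeBot] {X Y : I → Type}
    [∀ i, PseudoMetricSpace (Y i)] [∀ i, SecondCountableTopology (Y i)] (e : ∀ i, X i → Y i)
    (u : ι → ∀ i, X i → ℝ) (S : ∀ i, X i → ℝ)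
    (h1 : ∀ i x, Tendsto (fun p => u p i x) U (𝓝 (S i x)))
    (h2 : ∀ i, ∃ C ρ : ℝ, 0 < ρ ∧ ∀ᶠ p in U, ∀ x y, dist (e i x) (e i y) ≤ ρ →
      |u p i x - u p i y| ≤ C * dist (e i x) (e i y)) :
    ∃ G : Filter ι, G.IsCountablyGenerated ∧ U ≤ G ∧
      ∀ i x, Tendsto (fun p => u p i x) G (𝓝 (S i x)) := by
  choose C ρ ρ0 hC using h2
  have hD : ∀ i, ∃ D : Set (X i), D.Countable ∧ ∀ x, ∀ r > 0, ∃ y ∈ D, dist (e i x) (e i y) < r :=
    fun i => by
      let _ := PseudoMetricSpace.induced (e i) inferInstance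
      have : SecondCountableTopology (X i) := TopologicalSpace.secondCountableTopology_induced _ _ _
      obtain ⟨D, h, h'⟩ := TopologicalSpace.exists_countable_dense (X i)
      exact ⟨D, h, fun x r hr => Metric.mem_closure_iff.1 (h' x) r hr⟩
  choose D D1 D2 using hD
  have := fun i => (D1 i).to_subtype
  refine ⟨⨅ i, (𝓟 {p | ∀ x y, dist (e i x) (e i y) ≤ ρ i →
    |u p i x - u p i y| ≤ C i * dist (e i x) (e i y)} ⊓
      ⨅ y : D i, comap (fun p => u p i y) (𝓝 (S i y))), inferInstance, le_iInf fun i =>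
    le_inf (le_principal_iff.2 (hC i)) (le_iInf fun y => (h1 i y).le_comap),
    fun i x => (Metric.tendsto_nhds.2 fun ε hε => ?_).mono_left (iInf_le _ i)⟩
  obtain ⟨r, r0, r1, r2⟩ : ∃ r > 0, r ≤ ρ i ∧ |C i| * r ≤ ε / 3 :=
    ⟨min (ρ i) (ε / 3 / (|C i| + 1)), lt_min (ρ0 i) (by positivity), min_le_left _ _,
      (mul_le_mul (le_add_of_nonneg_right zero_le_one) (min_le_right _ _)
        (le_min (ρ0 i).le (by positivity)) (by positivity)).trans_eq
        (mul_div_cancel₀ _ (by positivity))⟩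
  obtain ⟨y, hy, hxy⟩ := D2 i x r r0
  have h3 : C i * dist (e i x) (e i y) ≤ ε / 3 :=
    (mul_le_mul (le_abs_self _) hxy.le dist_nonneg (abs_nonneg _)).trans r2
  have h4 : |S i x - S i y| ≤ ε / 3 := le_of_tendsto ((h1 i x).sub (h1 i y)).abs
    ((hC i).mono fun p hp => (hp x y (hxy.le.trans r1)).trans h3)
  filter_upwards [mem_inf_of_left (mem_principal_self _), mem_inf_of_right (mem_iInf_of_mem ⟨y, hy⟩
    (Metric.tendsto_nhds.1 tendsto_comap (ε / 3) (by positivity)))] with j h5 h6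
  have h7 := (h5 x y (hxy.le.trans r1)).trans h3
  simp only [Real.dist_eq] at h6 ⊢
  rw [abs_le] at h4 h7
  rw [abs_lt] at h6 ⊢
  constructor <;> linarith [h4.1, h4.2, h6.1, h6.2, h7.1, h7.2]

variable {k : ℕ} {Λ : Set R4}

/-- uniform data of a family -/
def Dat (Λ : Set R4) (D q : ℕ) (f : Fin k → R4 → ℝ) : Prop :=
  (∀ i, ∀ y ∈ tsupport (f i), ‖y‖ ≤ D) ∧ (∀ i, LipschitzWith D (f i) ∧ ∀ y, |f i y| ≤ D) ∧
    ∀ i j, i ≠ j → ∀ x ∈ tsupport (f i), ∀ y ∈ tsupport (f j), ∀ w ∈ Λ,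
      1 / (q + 1 : ℝ) ≤ dist x (y + w)

theorem AdL.data {f : Fin k → R4 → ℝ} (hf : AdL Λ f) (hΛ : IsClosed Λ) : ∃ D q, Dat Λ D q f := by
  obtain ⟨δ, δ0, hδ⟩ := Metric.exists_pos_forall_lt_edist (isCompact_iUnion
    fun p : {p : Fin k × Fin k // p.1 ≠ p.2} => ((hf.1 p.1.1).1.isCompact.prod
      (hf.1 p.1.2).1.isCompact).image continuous_sub) hΛ (disjoint_left.2 fun w hw h => by
      obtain ⟨p, x, hx, rfl⟩ := mem_iUnion.1 hw
      exact hf.2 _ _ p.2 _ hx.1 _ hx.2 _ h (add_sub_cancel _ _).symm)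
  obtain ⟨q, hq⟩ := exists_nat_one_div_lt (NNReal.coe_pos.2 δ0)
  choose K hK using fun i => (hf.1 i).2.lipschitzWith_of_hasCompactSupport (hf.1 i).1 one_ne_zero
  replace hK := fun i => (hK i).weaken
    (Finset.single_le_sum (fun _ _ => zero_le) (Finset.mem_univ i))
  generalize ∑ i, K i = K at hK
  obtain ⟨R, R0, hR⟩ := (isCompact_iUnion fun i => (hf.1 i).1).isBounded.exists_pos_norm_le
  have h1 : ∀ i, ∀ y ∈ tsupport (f i), ‖y‖ ≤ R := fun i y hy => hR y (mem_iUnion.2 ⟨i, hy⟩)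
  obtain ⟨D, hD⟩ := exists_nat_ge (R + K * (2 * R + 1))
  have K0 := K.coe_nonneg
  refine ⟨D, q, fun i y hy => (h1 i y hy).trans (by nlinarith), fun i =>
    ⟨(hK i).weaken (by rw [← NNReal.coe_le_coe, NNReal.coe_natCast]; nlinarith), fun y =>
      (YM7.sup_le (hK i) R0.le (fun y hy => h1 i y (subset_tsupport _ hy)) y).trans (by linarith)⟩,
    fun i j hij x hx y hy w hw => hq.le.trans ?_⟩
  have := hδ _ (mem_iUnion.2 ⟨⟨(i, j), hij⟩, (x, y), ⟨hx, hy⟩, rfl⟩) w hw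
  rw [edist_nndist, ENNReal.coe_lt_coe, ← NNReal.coe_lt_coe, coe_nndist, dist_eq_norm] at this
  rw [dist_eq_norm, ← sub_sub]
  exact this.le

theorem src_ne {a : ℝ} {f : R4 → ℝ} {x : Z4} (h : src a f x ≠ 0) : f (pt a x) ≠ 0 :=
  fun e => h (funext₂ fun _ _ => e)

/-- the source lives near the set -/
def Nr (a r : ℝ) (K : Set R4) (F : Sr) : Prop := ∀ x, F x ≠ 0 → ∃ y ∈ K, dist y (pt a x) ≤ r

theorem Nr.sub {a r : ℝ} {K : Set R4} {F G : Sr} (h : Nr a r K F) (h' : Nr a r K G) :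
    Nr a r K (F - G) := fun x hx => by
  by_cases e : F x = 0
  · exact h' x fun e' => hx (by simp [e, e'])
  · exact h x e

theorem nr_src {a r : ℝ} (hr : 0 ≤ r) (f : R4 → ℝ) : Nr a r (tsupport f) (src a f) :=
  fun _ hx => ⟨_, subset_tsupport _ (src_ne hx), (dist_self _).trans_le hr⟩

/-- classes of admissible families -/
def Cl (Λ : Set R4) (I : ℕ × ℕ × ℕ) : Type := {f : Fin I.1 → R4 → ℝ // AdL Λ f ∧
  (∀ i, (tsupport (f i)).Nonempty) ∧ Dat Λ I.2.1 I.2.2 f}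

/-- the values, the supports and the derivatives of a family -/
def jet (I : ℕ × ℕ × ℕ) (f : Cl Λ I) (i : Fin I.1) :
    C(Metric.closedBall (0 : R4) I.2.1, ℝ × ℝ × (R4 →L[ℝ] ℝ)) :=
  ⟨fun y => (f.1 i y, Metric.infDist y.1 (tsupport (f.1 i)), fderiv ℝ (f.1 i) y),
    ((f.2.1.1 i).2.continuous.comp continuous_subtype_val).prodMk
      (((Metric.continuous_infDist_pt _).comp continuous_subtype_val).prodMk
        (((f.2.1.1 i).2.continuous_fderiv one_ne_zero).comp continuous_subtype_val))⟩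

variable {ι : Type} {Φ : Filter ι} {a τ : ι → ℝ}

theorem Fm.pos (hF : Fm Φ a τ) : ∀ᶠ p in Φ, 0 < a p ∧ 0 < τ p := by
  filter_upwards [hF.a0.eventually self_mem_nhdsWithin, hF.tau.eventually_gt_atTop 0] with p h1 h2
  exact ⟨h1, (div_pos_iff_of_pos_right h1).1 h2⟩

theorem Fm.small (hF : Fm Φ a τ) {r : ℝ} (hr : 0 < r) : ∀ᶠ p in Φ, a p ≤ r :=
  (hF.a0.mono_right nhdsWithin_le_nhds).eventually_le_const hr

variable [MeasurableSpace SU2] [BorelSpace SU2] {ρ μ : ι → Measure Fd}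
  (hB : Bd Λ Φ ρ μ a τ) (hF : Fm Φ a τ)
  (h0 : ∀ᶠ p in Φ, IsFiniteMeasure (ρ p) ∧ IsFiniteMeasure (μ p)) (hΛ : IsClosed Λ)
include hB hF h0

theorem Bd.lip (k : ℕ) (R : ℝ) {δ : ℝ} (hδ : 0 < δ) : ∃ C, ∀ᶠ p in Φ,
    ∀ (f : Fin k → R4 → ℝ) (L : Fin k → NNReal),
      (∀ i, LipschitzWith (L i) (f i) ∧ ∀ y, f i y ≠ 0 → ‖y‖ ≤ R) →
      (∀ i j, i ≠ j → ∀ x y, f i x ≠ 0 → f j y ≠ 0 → ∀ w ∈ Λ, δ ≤ dist x (y + w)) →
      |gc (ρ p) (μ p) fun i => src (a p) (f i)| ≤ C * ∏ i, L i := by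
  obtain ⟨C, -, hC⟩ := hB.sz ((hF.pos.and h0).mono fun p h => ⟨h.1.1, h.2⟩) k R hδ
  refine ⟨C * (2 * |R| + 1) ^ k, ?_⟩
  filter_upwards [hC, hF.pos] with p h1 h2 f L h4 h5
  rw [NNReal.coe_prod, mul_assoc, ← Fin.prod_const, ← Finset.prod_mul_distrib]
  exact h1 _ (Fintype.card_fin k).le _ _ (fun i => sz_src (h4 i).1.dist_le_mul (fun y =>
    (YM7.sup_le (h4 i).1 (abs_nonneg R) (fun y hy => ((h4 i).2 y hy).trans (le_abs_self R))
      y).trans_eq (mul_comm _ _)) (le_mul_of_one_le_left (L i).2 (by linarith [abs_nonneg R]))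
      h2.1.le h2.2.le)
    (fun i x hx l => (PiLp.norm_apply_le (pt (a p) x) l).trans ((h4 i).2 _ (src_ne hx)))
    fun i j hij x y hx hy => h5 i j hij _ _ (src_ne hx) (src_ne hy)

/-- perturbations of a family of sources -/
theorem Bd.pert (k D q : ℕ) : ∃ C, 0 ≤ C ∧ ∀ᶠ p in Φ, ∀ g : Fin k → R4 → ℝ, Dat Λ D q g →
    ∀ (F : Fin k → Sr) (ε : ℝ), 0 ≤ ε → ε ≤ 1 →
      (∀ i, Sz (ε * (D + 1)) (a p) (τ p) (F i - src (a p) (g i))) →
      (∀ i, Nr (a p) (1 / (q + 1) / 4) (tsupport (g i)) (F i)) →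
      |gc (ρ p) (μ p) F - gc (ρ p) (μ p) fun i => src (a p) (g i)| ≤ C * ε := by
  have δ0 : 0 < 1 / (q + 1 : ℝ) := by positivity
  have δ1 : 1 / (q + 1 : ℝ) ≤ 1 := by
    rw [div_le_one (by positivity)]
    linarith [q.cast_nonneg (α := ℝ)]
  obtain ⟨C, C0, hC⟩ := hB.sz ((hF.pos.and h0).mono fun p h => ⟨h.1.1, h.2⟩) k (D + 1) (half_pos δ0)
  refine ⟨2 ^ k * (C * (D + 1) ^ k), by positivity, ?_⟩
  filter_upwards [hC, hF.pos, h0] with p h1 ⟨a0, τ0⟩ ⟨_, _⟩ g ⟨g1, g2, g3⟩ F ε ε0 ε1 h2 h3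
  obtain ⟨M, hM⟩ := gc_ml (ρ p) (μ p) (Fin k) (box_fin a0 (D + 1)).toFinset
  simp only [Finite.mem_toFinset] at hM
  have h4 := fun i => nr_src (a := a p) (show 0 ≤ 1 / (q + 1 : ℝ) / 4 by positivity) (g i)
  generalize 1 / (q + 1 : ℝ) = δ at *
  have hI : ∀ {i G}, Nr (a p) (δ / 4) (tsupport (g i)) G → In (a p) (D + 1) G := fun h x hx l => by
    obtain ⟨y, hy, hy'⟩ := h x hx
    refine (PiLp.norm_apply_le (pt (a p) x) l).trans ((norm_le_norm_add_norm_sub y _).trans ?_)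
    rw [← dist_eq_norm]
    linarith [g1 _ y hy]
  obtain ⟨G, hG⟩ : ∃ G, G = fun i => src (a p) (g i) := ⟨_, rfl⟩
  simp only [← congrFun hG] at h2 h4 ⊢
  have e : F = (F - G) + G := (sub_add_cancel F G).symm
  rw [hM F fun i => hI (h3 i), hM G fun i => hI (h4 i), e, MultilinearMap.map_add_univ,
    ← Finset.add_sum_erase _ _ (Finset.mem_univ ∅), Finset.piecewise_empty, add_sub_cancel_left]
  refine (Finset.abs_sum_le_sum_abs _ _).trans
    ((Finset.sum_le_card_nsmul _ _ (C * (D + 1) ^ k * ε) fun t ht => ?_).trans ?_)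
  · have h5 : ∀ i, Nr (a p) (δ / 4) (tsupport (g i)) (t.piecewise (F - G) G i) ∧
        Sz (t.piecewise (fun _ => ε * (D + 1)) (fun _ => D + 1) i) (a p) (τ p)
          (t.piecewise (F - G) G i) := fun i => by
      by_cases hi : i ∈ t
      · simp only [t.piecewise_eq_of_mem _ _ hi]
        exact ⟨(h3 i).sub (h4 i), h2 i⟩
      · simp only [t.piecewise_eq_of_notMem _ _ hi]
        exact ⟨h4 i, hG ▸ sz_src (g2 i).1.dist_le_mul (fun y => ((g2 i).2 y).trans (by linarith))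
          (le_add_of_nonneg_right zero_le_one) a0.le τ0.le⟩
    rw [← hM _ fun i => hI (h5 i).1]
    refine (h1 _ (Fintype.card_fin k).le _ _ (fun i => (h5 i).2) (fun i => hI (h5 i).1)
      fun i j hij x y hx hy w hw => ?_).trans ?_
    · obtain ⟨s, hs, hs'⟩ := (h5 i).1 x hx
      obtain ⟨t, ht, ht'⟩ := (h5 j).1 y hy
      linarith [g3 i j hij s hs t ht w hw, dist_add_right t (pt (a p) y) w,
        dist_triangle4_right s (t + w) (pt (a p) x) (pt (a p) y + w)]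
    · rw [mul_assoc]
      refine mul_le_mul_of_nonneg_left ?_ C0
      rw [Finset.prod_piecewise, Finset.univ_inter, Finset.prod_const, Finset.prod_const, mul_pow,
        mul_assoc, ← pow_add, Finset.card_sdiff_of_subset t.subset_univ, Finset.card_univ,
        Nat.add_sub_cancel' t.card_le_univ, Fintype.card_fin, mul_comm]
      exact mul_le_mul_of_nonneg_left (pow_le_of_le_one ε0 ε1
        (Finset.card_ne_zero.2 (Finset.nonempty_iff_ne_empty.2 (Finset.ne_of_mem_erase ht))))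
        (by positivity)
  · rw [nsmul_eq_mul, mul_assoc (2 ^ k)]
    refine mul_le_mul_of_nonneg_right ?_ (by positivity)
    have := Finset.card_erase_le (s := (Finset.univ : Finset (Finset (Fin k)))) (a := ∅)
    rw [Finset.card_univ, Fintype.card_finset, Fintype.card_fin] at this
    exact_mod_cast this

theorem Bd.equi (I : ℕ × ℕ × ℕ) :
    ∃ C r : ℝ, 0 < r ∧ ∀ᶠ p in Φ, ∀ f g : Cl Λ I, dist (jet I f) (jet I g) ≤ r →
      |gc (ρ p) (μ p) (fun i => src (a p) (f.1 i)) - gc (ρ p) (μ p) fun i => src (a p) (g.1 i)| ≤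
        C * dist (jet I f) (jet I g) := by
  obtain ⟨k, D, q⟩ := I
  have δ0 : 0 < 1 / (q + 1 : ℝ) := by positivity
  have δ1 : 1 / (q + 1 : ℝ) ≤ 1 := by
    rw [div_le_one (by positivity)]
    linarith [q.cast_nonneg (α := ℝ)]
  obtain ⟨C, -, hC⟩ := hB.pert hF h0 k D q
  refine ⟨C, 1 / (q + 1 : ℝ) / 8, by positivity, ?_⟩
  filter_upwards [hC, hF.pos] with p h1 ⟨a0, τ0⟩ f g hρ
  have hj : ∀ i y, dist (jet _ f i y) (jet _ g i y) ≤ dist (jet _ f) (jet _ g) := fun i y =>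
    (ContinuousMap.dist_apply_le_dist y).trans (dist_le_pi_dist (jet _ f) (jet _ g) i)
  have ε0 : 0 ≤ dist (jet _ f) (jet _ g) := dist_nonneg
  generalize dist (jet _ f) (jet _ g) = ε at hj hρ ε0
  obtain ⟨f, f1, f2, f3, f4⟩ := f
  obtain ⟨g, g1, g2, g3⟩ := g
  simp only [jet, ContinuousMap.coe_mk, Prod.dist_eq, max_le_iff, Subtype.forall,
    mem_closedBall_zero_iff] at hj
  have out : ∀ i (y : R4), ¬‖y‖ ≤ D → y ∉ tsupport (f i) ∧ y ∉ tsupport (g i) := fun i y hy =>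
    ⟨fun h => hy (f3 i y h), fun h => hy (g3.1 i y h)⟩
  have h3 : ∀ i y, |f i y - g i y| ≤ ε := fun i y => by
    by_cases hy : ‖y‖ ≤ D
    · exact (hj i y hy).1
    · rwa [image_eq_zero_of_notMem_tsupport (out i y hy).1,
        image_eq_zero_of_notMem_tsupport (out i y hy).2, sub_zero, abs_zero]
  have h4 : ∀ i, LipschitzWith ⟨ε, ε0⟩ (f i - g i) := fun i => by
    have d1 := (f1.1 i).2.differentiable one_ne_zero
    have d2 := (g1.1 i).2.differentiable one_ne_zero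
    refine lipschitzWith_of_nnnorm_fderiv_le (d1.sub d2) fun y => ?_
    rw [fderiv_sub (d1 y) (d2 y), ← NNReal.coe_le_coe, coe_nnnorm, ← dist_eq_norm]
    by_cases hy : ‖y‖ ≤ D
    · exact (hj i y hy).2.2
    · rwa [fderiv_of_notMem_tsupport _ (out i y hy).1, fderiv_of_notMem_tsupport _ (out i y hy).2,
        dist_self]
  have D1 : ε ≤ ε * (D + 1) := le_mul_of_one_le_right ε0 (by linarith [D.cast_nonneg (α := ℝ)])
  refine h1 g g3 _ ε ε0 (by linarith) (fun i => sz_src (f := f i - g i) (h4 i).dist_le_mul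
    (fun y => (h3 i y).trans D1) D1 a0.le τ0.le) fun i x hx => ?_
  have h5 : pt (a p) x ∈ tsupport (f i) := subset_tsupport _ (src_ne hx)
  have h6 := (hj i _ (f3 i _ h5)).2.1
  rw [Metric.infDist_zero_of_mem h5, dist_zero_left] at h6
  obtain ⟨y, hy, h7⟩ := (Metric.infDist_lt_iff (g2 i)).1
    (((le_abs_self _).trans h6).trans_lt (by linarith : ε < 1 / (q + 1 : ℝ) / 4))
  exact ⟨y, hy, (dist_comm _ _).trans_le h7.le⟩

include hΛ

theorem Bd.near {f : Fin k → R4 → ℝ} (hf : AdL Λ f) {F : ι → Fin k → Sr}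
    (hN : ∀ᶠ p in Φ, ∀ i, Near (a p) (F p i) (f i)) :
    Tendsto (fun p => gc (ρ p) (μ p) (F p) - gc (ρ p) (μ p) fun i => src (a p) (f i)) Φ (𝓝 0) := by
  obtain ⟨D, q, h1⟩ := hf.data hΛ
  obtain ⟨C, -, hC⟩ := hB.pert hF h0 k D q
  have t0 := (tendsto_inv_atTop_zero.comp hF.tau).const_mul 10
  have t1 := t0.const_mul C
  rw [mul_zero] at t0
  rw [mul_zero, mul_zero] at t1
  refine squeeze_zero_norm' ?_ t1
  filter_upwards [hC, hN, hF.pos, t0.eventually_le_const one_pos,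
    hF.small (show 0 < 1 / (q + 1 : ℝ) / 40 by positivity)] with p h4 h5 ⟨a0, τ0⟩ h7 h8
  refine h4 f h1 _ (10 * (τ p / a p)⁻¹) (by positivity) h7 (fun i => YM7.sz_small (n := 0)
    (by positivity) a0.le fun x s t => ?_) fun i x hx => ?_
  · obtain ⟨y, hy, e⟩ := h5 i x s t
    change |F p i x s t - f i (pt (a p) x)| ≤ _
    rw [e]
    refine ((h1.2.1 i).1.dist_le_mul _ _).trans ((mul_le_mul (b := (D + 1 : ℝ)) (by simp) hy
      dist_nonneg (by positivity)).trans_eq ?_)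
    field_simp
  · obtain ⟨s, hs⟩ := ne_iff.1 hx
    obtain ⟨t, ht⟩ := ne_iff.1 hs
    obtain ⟨y, hy, e⟩ := h5 i x s t
    exact ⟨y, subset_tsupport _ (e ▸ ht :), by linarith⟩

theorem Bd.bdd {f : Fin k → R4 → ℝ} (hf : AdL Λ f) :
    ∃ C, ∀ᶠ p in Φ, |gc (ρ p) (μ p) fun i => src (a p) (f i)| ≤ C := by
  obtain ⟨D, q, h1, h2, h3⟩ := hf.data hΛ
  obtain ⟨C, hC⟩ := hB.lip hF h0 k D (show 0 < 1 / (q + 1 : ℝ) by positivity)
  exact ⟨_, hC.mono fun p hp => hp f (fun _ => D)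
    (fun i => ⟨(h2 i).1, fun y hy => h1 i y (subset_tsupport _ hy)⟩) fun i j hij x y hx hy =>
      h3 i j hij x (subset_tsupport _ hx) y (subset_tsupport _ hy)⟩

/-- convergence along a filter passes to sequences which know countably many events -/
theorem Bd.seq (U : Filter ι) [U.NeBot] (hU : U ≤ Φ) {S : ∀ {k : ℕ}, (Fin k → R4 → ℝ) → ℝ}
    (hS : ∀ k (f : Fin k → R4 → ℝ), AdL Λ f →
      Tendsto (fun p => gc (ρ p) (μ p) fun i => src (a p) (f i)) U (𝓝 (S f))) :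
    ∃ G : Filter ι, G.IsCountablyGenerated ∧ U ≤ G ∧ ∀ k (f : Fin k → R4 → ℝ), AdL Λ f →
      Tendsto (fun p => gc (ρ p) (μ p) fun i => src (a p) (f i)) G (𝓝 (S f)) := by
  obtain ⟨G, h1, h2, h3⟩ := exists_fil U (jet (Λ := Λ))
    (fun p _ f => gc (ρ p) (μ p) fun i => src (a p) (f.1 i)) (fun _ f => S f.1)
    (fun _ f => hS _ _ f.2.1)
    fun I => (hB.equi hF h0 I).imp fun _ => Exists.imp fun _ e => ⟨e.1, e.2.filter_mono hU⟩
  refine ⟨G, h1, h2, fun k f hf => ?_⟩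
  by_cases e : ∀ i, (tsupport (f i)).Nonempty
  · obtain ⟨D, q, d⟩ := hf.data hΛ
    exact h3 (k, D, q) ⟨f, hf, e, d⟩
  · obtain ⟨i, hi⟩ := not_forall.1 e
    rw [not_nonempty_iff_eq_empty, tsupport_eq_empty_iff] at hi
    have e : ∀ p, (gc (ρ p) (μ p) fun i => src (a p) (f i)) = 0 := fun p =>
      (congrArg _ (funext fun U => Finset.prod_eq_zero (Finset.mem_univ i)
        (by simp [hi, gf, src]))).trans (integral_zero _ _)
    have := hS k f hf
    simp only [e, tendsto_const_nhds_iff] at this ⊢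
    exact this ▸ tendsto_const_nhds

/-- continuity under separate translations -/
theorem Bd.cont {f : Fin k → R4 → ℝ} (hf : AdL Λ f) {ε : ℝ} (hε : 0 < ε) :
    ∀ᶠ u in 𝓝 (0 : Fin k → R4), AdL Λ (fun i y => f i (y - u i)) ∧ ∀ᶠ p in Φ,
      |gc (ρ p) (μ p) (fun i => src (a p) fun y => f i (y - u i)) -
        gc (ρ p) (μ p) fun i => src (a p) (f i)| ≤ ε := by
  obtain ⟨D, q, h1⟩ := hf.data hΛ
  obtain ⟨C, C0, hC⟩ := hB.pert hF h0 k D q
  obtain ⟨η, η0, η1, η2, η3⟩ : ∃ η > (0 : ℝ), η ≤ 1 ∧ η ≤ 1 / (q + 1) / 4 ∧ C * η ≤ ε :=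
    ((eventually_mem_nhdsWithin (s := Ioi 0)).and (nhdsWithin_le_nhds ((eventually_le_nhds
      one_pos).and ((eventually_le_nhds (by positivity)).and (((continuous_const_mul C).tendsto' 0 0
        (mul_zero C)).eventually_le_const hε))))).exists
  lift η to ℝ≥0 using η0.le
  filter_upwards [eventually_all.2 fun i => ((continuous_apply i).tendsto' 0 0 rfl).eventually
    (YM7.lip_shift (hf.1 i).1 (hf.1 i).2 η0), Metric.closedBall_mem_nhds 0 η0] with u hu hu'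
  have e : ∀ i y, dist (y - u i) y ≤ η := fun i y => by
    rw [dist_eq_norm, sub_sub_cancel_left, norm_neg]
    exact (norm_le_pi_norm u i).trans (mem_closedBall_zero_iff.1 hu')
  have D1 : (η : ℝ) ≤ η * (D + 1) := le_mul_of_one_le_right η.2 (by simp)
  refine ⟨⟨fun i => ⟨(hf.1 i).1.comp_homeomorph (Homeomorph.subRight (u i)),
    (hf.1 i).2.comp (contDiff_id.sub contDiff_const)⟩, fun i j hij x hx y hy w hw e' => ?_⟩, ?_⟩
  · have := h1.2.2 i j hij _ (YM7.tsupport_comp (θ := fun y => y - u i) (by fun_prop) hx) _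
      (YM7.tsupport_comp (θ := fun y => y - u j) (by fun_prop) hy) w hw
    linarith [dist_triangle_right (x - u i) (y - u j + w) x, e i x, e j y,
      (congrArg _ e').trans (dist_add_right (y - u j) y w)]
  · filter_upwards [hC, hF.pos] with p h2 ⟨a0, τ0⟩
    refine (h2 f h1 _ η η.2 η1 (fun i => sz_src (f := (fun y => f i (y - u i)) - f i)
      (hu i).dist_le_mul (fun y => ((h1.2.1 i).1.dist_le_mul _ _).trans ?_) D1 a0.le τ0.le)
      fun i x hx => ⟨pt (a p) x - u i, subset_tsupport _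
        (src_ne (f := fun y => f i (y - u i)) hx), (e i _).trans η2⟩).trans η3
    rw [mul_comm]
    exact mul_le_mul (e i y) (by simp) (by simp) η.2

end Pool.Agent.Lib.MP_7f377f_mp.YM9
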