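import Pool.Agent.Lib.MP_7f377f_mp.CyDef
import Pool.Agent.Lib.MP_7f377f_mp.OSC

/-! Admissible families on the cylinder and the soft properties of the Schwinger functions. -/

noncomputable section

namespace Pool.Agent.Lib.MP_7f377f_mp.YM9

open MeasureTheory Filter Topology Function Real Finset
open YM7 (rp sh th)

variable {k l : ℕ} {m : ℝ}

theorem Adm.comp {f : Fin k → R4 → ℝ} (hf : Adm m f) (θ : R4 ≃ₜ R4) (hθ : ContDiff ℝ 1 θ)
    (e : ∀ y, ∀ z : Z4, z 0 = 0 → ∃ z' : Z4, z' 0 = 0 ∧ θ (y + pt m z) = θ y + pt m z') :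
    Adm m fun i y => f i (θ y) :=
  ⟨fun i => ⟨(hf.1 i).1.comp_homeomorph θ, (hf.1 i).2.comp hθ⟩, fun i j hij x hx y hy z hz h => by
    obtain ⟨z', h1, h2⟩ := e y z hz
    exact hf.2 i j hij _ (YM7.tsupport_comp θ.continuous hx) _
      (YM7.tsupport_comp θ.continuous hy) z' h1 (h ▸ h2)⟩

theorem Adm.add {f : Fin k → R4 → ℝ} (hf : Adm m f) (v : R4) : Adm m fun i y => f i (y + v) :=
  hf.comp (Homeomorph.addRight v) (contDiff_id.add contDiff_const) fun _ z hz =>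
    ⟨z, hz, add_right_comm ..⟩

theorem Adm.sh {f : Fin k → R4 → ℝ} (hf : Adm m f) (v : R4) : Adm m (sh v f) := by
  unfold YM7.sh
  simpa only [sub_eq_add_neg] using hf.add (-v)

theorem Adm.theta {f : Fin k → R4 → ℝ} (hf : Adm m f) : Adm m fun i => theta (f i) := by
  have := hf.comp YM7.thL.toHomeomorph YM7.thL.contDiff fun y z hz => ⟨z, hz, by
    rw [LinearIsometryEquiv.coe_toHomeomorph, map_add, YM7.thL_eq, add_right_inj]
    ext l
    by_cases h : l = 0 <;> simp [th, pt, h, hz]⟩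
  rwa [LinearIsometryEquiv.coe_toHomeomorph, YM7.thL_eq] at this

theorem Adm.reindex {f : Fin k → R4 → ℝ} (hf : Adm m f) (e : Fin l ≃ Fin k) : Adm m (f ∘ e) :=
  ⟨fun i => hf.1 (e i), fun _ _ h => hf.2 _ _ (e.injective.ne h)⟩

theorem Pos.sh {f : Fin k → R4 → ℝ} (hf : Pos m f) {v : R4} (hv : 0 ≤ v 0) : Pos m (sh v f) :=
  ⟨hf.1.sh v, fun i y hy => by
    have := hf.2 i _ (YM7.tsupport_comp (θ := fun y => y - v) (by fun_prop) hy)
    simp only [PiLp.sub_apply] at this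
    linarith⟩

theorem Pos.rp {f : Fin k → R4 → ℝ} {g : Fin l → R4 → ℝ} (hf : Pos m f) (hg : Pos m g) :
    Adm m (rp f g) := by
  have e : ∀ i, ∀ y ∈ tsupport (theta (f i)), y 0 < 0 := fun i y hy => by
    have e := hf.2 i _ (YM7.tsupport_comp (θ := th) (f := f i)
      (YM7.thL_eq ▸ YM7.thL.continuous) hy)
    rw [YM7.th_zero] at e
    linarith
  refine ⟨YM5.forall_append (P := fun u => HasCompactSupport u ∧ ContDiff ℝ 1 u) hf.1.theta.1 hg.1.1,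
    fun i j hij => YM5.pairwise_append (R := fun u v : R4 → ℝ => ∀ x ∈ tsupport u,
      ∀ y ∈ tsupport v, ∀ z : Z4, z 0 = 0 → x ≠ y + pt m z)
      (fun u v H x hx y hy z hz h => H y hy x hx (-z) (by simpa using hz) ?_) hf.1.theta.2 hg.1.2
      (fun i j x hx y hy z hz h => ?_) hij⟩
  · rw [h, add_assoc]
    ext l
    simp [pt]
  · have h1 := e i x hx
    have h2 := hg.2 j y hy
    simp only [h, PiLp.add_apply, pt, hz, Int.cast_zero, mul_zero] at h1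
    linarith

/-- the Gram function -/
def gr (S : ∀ {k : ℕ}, (Fin k → R4 → ℝ) → ℝ) {A : Type} [Fintype A] {κ : A → ℕ}
    (f : ∀ x, Fin (κ x) → R4 → ℝ) (t : ℝ) (c : A → ℝ) : ℝ :=
  ∑ x, ∑ y, c x * c y * S (rp (f x) (sh (EuclideanSpace.single 0 t) (f y)))

/-- the soft properties of the Schwinger functions on the cylinder of circumference `m` -/
structure OS9 (m C : ℝ) (S : ∀ {k : ℕ}, (Fin k → R4 → ℝ) → ℝ) : Prop where
  nil : ∀ f : Fin 0 → R4 → ℝ, S f = 1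
  perm : ∀ {k l} (e : Fin l ≃ Fin k) {f : Fin k → R4 → ℝ}, Adm m f → S (f ∘ e) = S f
  trans : ∀ {k} {f : Fin k → R4 → ℝ}, Adm m f → ∀ v, S (fun i y => f i (y + v)) = S f
  refl : ∀ {k} {f : Fin k → R4 → ℝ}, Adm m f → S (fun i => theta (f i)) = S f
  per : ∀ {k} {f : Fin k → R4 → ℝ}, Adm m f → ∀ z : Fin k → Z4, (∀ i, z i 0 = 0) →
    S (fun i y => f i (y - pt m (z i))) = S f
  cont : ∀ {k} {f : Fin k → R4 → ℝ}, Adm m f →
    Tendsto (fun u : Fin k → R4 => S fun i y => f i (y - u i)) (𝓝 0) (𝓝 (S f))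
  pos : ∀ {A : Type} [Fintype A] {κ : A → ℕ} {f : ∀ x, Fin (κ x) → R4 → ℝ}, (∀ x, Pos m (f x)) →
    ∀ c, ∀ t ≥ 0, 0 ≤ gr S f t c ∧ gr S f t c ≤ gr S f 0 c
  frame : ∀ {A : Type} [Fintype A] {κ : A → ℕ} {f : ∀ x, Fin (κ x) → R4 → ℝ},
    (∀ x, Pos m (f x)) → ∀ {r : ℕ} (c : Fin r → A → ℝ) {Λ : ℝ}, 0 ≤ Λ →
    (∀ u : Fin r → ℝ, gr S f 0 (fun x => ∑ i, u i * c i x) ≤ Λ * ∑ i, u i ^ 2) →
    ∑ i, gr S f m (c i) ≤ Λ * C

end Pool.Agent.Lib.MP_7f377f_mp.YM9
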