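import Pool.Agent.Lib.MP_7f377f_mp.CyF2
import Pool.Agent.Lib.MP_7f377f_mp.CyOS

/-! Limits of Gram matrices on the cylinder. -/

noncomputable section

namespace Pool.Agent.Lib.MP_7f377f_mp.YM9

open MeasureTheory Filter Topology Function Real Finset
open RGP (BM)
open YM7 (rp sh th)

set_option linter.unusedSectionVars false

variable {k : ℕ} {m : ℝ}

theorem fin_src {a : ℝ} (ha : 0 < a) {f : R4 → ℝ} (hf : HasCompactSupport f) :
    (support (src a f)).Finite := by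
  obtain ⟨R, hR⟩ := hf.isBounded.exists_norm_le
  exact In.fin (R := R) (fun x hx l => (PiLp.norm_apply_le (pt a x) l).trans
    (hR _ (subset_tsupport f (src_ne hx)))) ha

variable [MeasurableSpace SU2] [BorelSpace SU2]

theorem gc_of {κ : Type} [Fintype κ] {μ : Measure Fd} {Θ : Fd → Fd} (hΘ : MeasurePreserving Θ μ μ)
    {F G : κ → Sr} (hF : ∀ i, (support (F i)).Finite) (e : ∀ i U, gf (G i) U = gf (F i) (Θ U)) :
    gc μ μ G = gc μ μ F := by
  have c := fun i => cont_gf (hF i)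
  simp only [gc, e, fun i => RGP.int_mp hΘ (c i).measurable]
  exact RGP.int_mp hΘ (measurable_prod univ fun i _ => (c i).measurable.sub_const _)

/-- product of centred fields -/
def po (μ : Measure Fd) (a : ℝ) (f : Fin k → R4 → ℝ) (U : Fd) : ℝ :=
  ∏ i, (gf (src a (f i)) U - ∫ V, gf (src a (f i)) V ∂μ)

theorem Pos.po {f : Fin k → R4 → ℝ} (hf : Pos m f) (μ : Measure Fd) {a : ℝ} (ha : 0 < a) :
    Continuous (po μ a f) ∧ ∀ᶠ K : ℕ in atTop, DependsOn (po μ a f) (Tm 0 K) := by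
  have h1 := fun i => fin_src ha (hf.1.1 i).1
  refine ⟨continuous_finsetProd _ fun i _ => (cont_gf (h1 i)).sub continuous_const,
    (eventually_all.2 fun i => (h1 i).eventually_all.2 fun x _ =>
      eventually_gt_atTop (x 0 + 1).toNat).mono fun K hK U V H => prod_congr rfl fun i _ => ?_⟩
  rw [dep_gf (fun x hx => ⟨?_, ?_⟩) H]
  · have := hf.2 i _ (subset_tsupport _ (src_ne hx))
    exact_mod_cast ((mul_pos_iff_of_pos_left ha).1 this).le
  · have := hK i x hx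
    omega

theorem sht_zero (V : Fd) : sht ((0 : ℕ) : ℤ) V = V := funext fun e => by simp [sht, shf]

theorem int_bil {A : Type} [Fintype A] (ν : Measure Fd) [IsFiniteMeasure ν] {P Q : A → Fd → ℝ}
    (hP : ∀ x, BM (P x)) (hQ : ∀ x, BM (Q x)) (c d : A → ℝ) :
    ∫ V, (∑ x, c x * P x V) * ∑ y, d y * Q y V ∂ν = ∑ x, ∑ y, c x * d y * ∫ V, P x V * Q y V ∂ν := by
  simp only [sum_mul_sum, fun x V => mul_mul_mul_comm (c x) (P x V), ← integral_const_mul]
  have i := fun x y => (((hP x).mul (hQ y)).integrable ν).const_mul (c x * d y)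
  rw [integral_finsetSum _ fun x _ => integrable_finsetSum _ fun y _ => i x y]
  exact sum_congr rfl fun x _ => integral_finsetSum _ fun y _ => i x y

variable {ι : Type} {U : Filter ι} {a : ι → ℝ} {μ : ι → Measure Fd}
  {S : ∀ {k : ℕ}, (Fin k → R4 → ℝ) → ℝ}

variable (m U a μ S) in
/-- convergence of the Gram matrices -/
def Gm : Prop := ∀ k l (f : Fin k → R4 → ℝ) (g : Fin l → R4 → ℝ), Pos m f → Pos m g → ∀ t ≥ 0,
  ∀ s : ι → ℕ, (∀ᶠ p in U, |t - a p * s p| ≤ 4 * a p) →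
    Tendsto (fun p => ∫ V, po (μ p) (a p) f (rfl0 V) * po (μ p) (a p) g (sht (s p) V) ∂μ p) U
      (𝓝 (S (rp f (sh (EuclideanSpace.single 0 t) g))))

variable {h : Measure SU2} [IsProbabilityMeasure h] {n : ι → ℕ} {b : ι → ℝ} {C : ℝ} [U.NeBot]
  (hG : Gm m U a μ S) (h0 : ∀ᶠ p in U, 0 < a p ∧ a p * n p = m ∧ St9 h (b p) (n p) (μ p) C)
  {A : Type} [Fintype A] {κ : A → ℕ} {f : ∀ x, Fin (κ x) → R4 → ℝ} (hf : ∀ x, Pos m (f x))
include h0 hf

theorem ev_dep : ∀ᶠ p in U, ∃ K : ℕ, ∀ c : A → ℝ,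
    BM (fun V => ∑ x, c x * po (μ p) (a p) (f x) V) ∧
      DependsOn (fun V => ∑ x, c x * po (μ p) (a p) (f x) V) (Tm 0 K) := h0.mono fun p e => by
  obtain ⟨K, h1⟩ := (eventually_all.2 fun x => ((hf x).po (μ p) e.1).2).exists
  exact ⟨K, fun c => ⟨.sum fun x _ => (BM.const _).mul (Y6.bm_of_cont ((hf x).po (μ p) e.1).1),
    fun V V' H => sum_congr rfl fun x _ => by rw [h1 x H]⟩⟩

include hG

theorem Gm.lim (c d : A → ℝ) {t : ℝ} (ht : 0 ≤ t) {s : ι → ℕ}
    (hs : ∀ᶠ p in U, |t - a p * s p| ≤ 4 * a p) :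
    Tendsto (fun p => ∫ V, (∑ x, c x * po (μ p) (a p) (f x) (rfl0 V)) *
      ∑ y, d y * po (μ p) (a p) (f y) (sht (s p) V) ∂μ p) U
      (𝓝 (∑ x, ∑ y, c x * d y * S (rp (f x) (sh (EuclideanSpace.single 0 t) (f y))))) :=
  (tendsto_finsetSum _ fun x _ => tendsto_finsetSum _ fun y _ =>
    (hG _ _ _ _ (hf x) (hf y) t ht s hs).const_mul _).congr' (h0.mono fun p e => by
      have := e.2.2.prob
      have B := fun x => Y6.bm_of_cont ((hf x).po (μ p) e.1).1
      exact (int_bil (μ p) (fun x => (B x).comp cont_rfl0.measurable)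
        (fun x => (B x).comp (cont_sht _).measurable) c d).symm)

theorem Gm.lim0 (c d : A → ℝ) :
    Tendsto (fun p => ∫ V, (∑ x, c x * po (μ p) (a p) (f x) (rfl0 V)) *
      ∑ y, d y * po (μ p) (a p) (f y) V ∂μ p) U
      (𝓝 (∑ x, ∑ y, c x * d y * S (rp (f x) (sh (EuclideanSpace.single 0 0) (f y))))) := by
  simpa only [sht_zero] using hG.lim h0 hf c d le_rfl (s := fun _ => 0)
    (h0.mono fun p e => by simp [e.1.le])

theorem Gm.pos (c : A → ℝ) {t : ℝ} (ht : 0 ≤ t) : 0 ≤ gr S f t c ∧ gr S f t c ≤ gr S f 0 c := by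
  have h1 := hG.lim h0 hf c c ht (s := fun p => ⌊t / a p⌋₊) (h0.mono fun p e => by
    have e1 := (le_div_iff₀' e.1).1 (Nat.floor_le (div_nonneg ht e.1.le))
    have e2 := (div_le_iff₀' e.1).1 (Nat.lt_floor_add_one (t / a p)).le
    rw [abs_le]
    constructor <;> linarith [e.1])
  have h3 := (h0.and (ev_dep h0 hf)).mono fun p ⟨e, K, hK⟩ =>
    e.2.2.gram _ K ⌊t / a p⌋₊ (hK c).1 (hK c).2
  exact ⟨ge_of_tendsto h1 (h3.mono fun _ e => e.1),
    le_of_tendsto_of_tendsto h1 (hG.lim0 h0 hf c c) (h3.mono fun _ e => e.2)⟩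

theorem Gm.frame (m0 : 0 ≤ m) {r : ℕ} (c : Fin r → A → ℝ) {Λ : ℝ} (hΛ : 0 ≤ Λ)
    (H : ∀ u : Fin r → ℝ, gr S f 0 (fun x => ∑ i, u i * c i x) ≤ Λ * ∑ i, u i ^ 2) :
    ∑ i, gr S f m (c i) ≤ Λ * C := by
  have h1 := tendsto_finsetSum univ fun i _ => hG.lim h0 hf (c i) (c i) m0 (s := fun p => n p + 1)
    (h0.mono fun p e => by
      rw [Nat.cast_succ, mul_add, e.2.1, abs_le]
      constructor <;> linarith [e.1])
  have key : ∀ ε > 0, ∑ i, gr S f m (c i) ≤ (Λ + ε * r) * C := fun ε ε0 => by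
    refine le_of_tendsto h1 ?_
    filter_upwards [h0, ev_dep h0 hf, eventually_all.2 fun i => eventually_all.2 fun j =>
      Metric.tendsto_nhds.1 (hG.lim0 h0 hf (c i) (c j)) ε ε0] with p e ⟨K, hK⟩ e3
    refine e.2.2.frame r K _ _ (by positivity) (fun i => (hK (c i)).1) (fun i => (hK (c i)).2)
      fun u => ?_
    have e4 : gr S f 0 (fun x => ∑ i, u i * c i x) = ∑ i, ∑ j, u i * u j * ∑ x, ∑ y,
        c i x * c j y * S (rp (f x) (sh (EuclideanSpace.single 0 0) (f y))) := by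
      simp only [gr, sum_mul, mul_sum]
      rw [sum_congr rfl fun x _ => sum_comm_cycle, sum_congr rfl fun x _ => sum_comm_cycle,
        sum_comm_cycle, sum_comm_cycle, sum_comm]
      exact sum_congr rfl fun _ _ => sum_congr rfl fun _ _ => sum_congr rfl fun _ _ =>
        sum_congr rfl fun _ _ => by ring
    have e5 : (∑ i, |u i|) * ∑ i, |u i| ≤ r * ∑ i, u i ^ 2 := by
      simpa [sq] using sq_sum_le_card_mul_sum_sq (s := univ) (f := fun i => |u i|)
    refine le_trans ?_ (show gr S f 0 (fun x => ∑ i, u i * c i x) + ε * ((∑ i, |u i|) * ∑ i, |u i|) ≤ _ by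
      nlinarith [H u, mul_le_mul_of_nonneg_left e5 ε0.le])
    rw [e4, sum_mul_sum]
    simp only [mul_sum _ _ ε, ← sum_add_distrib]
    refine sum_le_sum fun i _ => sum_le_sum fun j _ => ?_
    rw [← sub_le_iff_le_add', ← mul_sub, ← abs_mul, mul_comm ε]
    exact (le_abs_self _).trans ((abs_mul _ _).trans_le
      (mul_le_mul_of_nonneg_left (e3 i j).le (abs_nonneg _)))
  refine ge_of_tendsto (f := fun ε : ℝ => (Λ + ε * r) * C) (x := 𝓝[>] 0) ?_
    (eventually_mem_nhdsWithin.mono key)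
  exact (Continuous.tendsto' (by fun_prop) _ _ (by simp)).mono_left nhdsWithin_le_nhds

end Pool.Agent.Lib.MP_7f377f_mp.YM9
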