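import Pool.Agent.Lib.MP_7f377f_mp.CyF3
import Pool.Agent.Lib.MP_7f377f_mp.CyD1

/-! The Schwinger functions of the cylinder. -/

noncomputable section

namespace Pool.Agent.Lib.MP_7f377f_mp.YM9

open MeasureTheory Filter Topology Function Real Finset
open RGP (BM)
open YM7 (rp sh th)

set_option linter.unusedSectionVars false

variable [MeasurableSpace SU2] [BorelSpace SU2] {k : ℕ} {m : ℝ} {ι : Type} {a τ : ι → ℝ}
  {ρ μ : ι → Measure Fd} {S : ∀ {k : ℕ}, (Fin k → R4 → ℝ) → ℝ}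

/-- convergence for all sources which sample the test functions -/
def Lm (U : Filter ι) (m : ℝ) (a : ι → ℝ) (ρ μ : ι → Measure Fd)
    (S : ∀ {k : ℕ}, (Fin k → R4 → ℝ) → ℝ) : Prop :=
  ∀ {k} {f : Fin k → R4 → ℝ}, Adm m f → ∀ {F : ι → Fin k → Sr},
    (∀ᶠ p in U, ∀ i, Near (a p) (F p i) (f i)) →
    Tendsto (fun p => gc (ρ p) (μ p) (F p)) U (𝓝 (S f))

theorem Fm.ap {U : Filter ι} (hF : Fm U a τ) : ∀ᶠ p in U, 0 < a p :=
  hF.a0.eventually self_mem_nhdsWithin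

theorem exists_lm (U : Ultrafilter ι) (hB : Bd (Lc m) U ρ μ a τ) (hF : Fm U a τ)
    (h0 : ∀ᶠ p in U, IsFiniteMeasure (ρ p) ∧ IsFiniteMeasure (μ p)) : ∃ S, Lm U m a ρ μ S :=
  ⟨fun f => limUnder U fun p => gc (ρ p) (μ p) fun i => src (a p) (f i), fun hf F hN => by
    obtain ⟨C, hC⟩ := hB.bdd hF h0 (closed_Lc m) (adm_iff.1 hf)
    simpa using (hB.near hF h0 (closed_Lc m) (adm_iff.1 hf) hN).add (YM7.ultra_lim U hC)⟩

variable {U : Filter ι} [U.NeBot]

section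
variable (hN : Lm U m a ρ μ S) (hF : Fm U a τ)
include hN hF

theorem Lm.cv {f : Fin k → R4 → ℝ} (hf : Adm m f) :
    Tendsto (fun p => gc (ρ p) (μ p) fun i => src (a p) (f i)) U (𝓝 (S f)) :=
  hN hf (hF.ap.mono fun _ h _ => near_src h.le _)

theorem Lm.nil (h0 : ∀ᶠ p in U, IsProbabilityMeasure (ρ p)) (f : Fin 0 → R4 → ℝ) : S f = 1 :=
  tendsto_nhds_unique (hN.cv hF ⟨fun i => i.elim0, fun i => i.elim0⟩)
    (tendsto_const_nhds.congr' (h0.mono fun p _ => by simp [gc]))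

theorem Lm.perm {l : ℕ} (e : Fin l ≃ Fin k) {f : Fin k → R4 → ℝ} (hf : Adm m f) :
    S (f ∘ e) = S f :=
  tendsto_nhds_unique (hN.cv hF (hf.reindex e)) ((hN.cv hF hf).congr fun _ =>
    (gc_equiv e _ _ fun i => src _ (f i)).symm)

theorem Lm.lip (hB : Bd (Lc m) U ρ μ a τ)
    (h0 : ∀ᶠ p in U, IsFiniteMeasure (ρ p) ∧ IsFiniteMeasure (μ p)) (k : ℕ) (R δ : ℝ)
    (hδ : 0 < δ) : ∃ C, ∀ (f : Fin k → R4 → ℝ) (L : Fin k → NNReal), Adm m f →
      (∀ i, LipschitzWith (L i) (f i) ∧ ∀ y, f i y ≠ 0 → ‖y‖ ≤ R) →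
      (∀ i j, i ≠ j → ∀ x y, f i x ≠ 0 → f j y ≠ 0 → ∀ z : Fin 4 → ℤ, z 0 = 0 →
        δ ≤ dist x (y + pt m z)) → |S f| ≤ C * ∏ i, L i := by
  obtain ⟨C, hC⟩ := hB.lip hF h0 k R hδ
  exact ⟨C, fun f L hf h1 h2 => le_of_tendsto (hN.cv hF hf).abs (hC.mono fun p hp => hp f L h1
    fun i j hij x y hx hy _ ⟨z, e1, e2⟩ => e2 ▸ h2 i j hij x y hx hy z e1)⟩

theorem Lm.cont (hB : Bd (Lc m) U ρ μ a τ)
    (h0 : ∀ᶠ p in U, IsFiniteMeasure (ρ p) ∧ IsFiniteMeasure (μ p)) {f : Fin k → R4 → ℝ}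
    (hf : Adm m f) :
    Tendsto (fun u : Fin k → R4 => S fun i y => f i (y - u i)) (𝓝 0) (𝓝 (S f)) :=
  Metric.nhds_basis_closedBall.tendsto_right_iff.2 fun _ ε0 =>
    (hB.cont hF h0 (closed_Lc m) (adm_iff.1 hf) ε0).mono fun _ hu =>
      le_of_tendsto ((hN.cv hF (adm_iff.2 hu.1)).sub (hN.cv hF hf)).abs hu.2

theorem Lm.per {n : ι → ℕ} (h0 : ∀ᶠ p in U, a p * n p = m ∧ ρ p ≪ μ p ∧
      ∀ᵐ V ∂μ p, ∀ z : Z4, z 0 = 0 → shf ((n p : ℤ) • z) V = V) {f : Fin k → R4 → ℝ}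
    (hf : Adm m f) (z : Fin k → Z4) (hz : ∀ i, z i 0 = 0) :
    S (fun i y => f i (y - pt m (z i))) = S f := by
  have h1 : Adm m fun i y => f i (y - pt m (z i)) :=
    ⟨fun i => ⟨(hf.1 i).1.comp_homeomorph (Homeomorph.subRight _),
      (hf.1 i).2.comp (contDiff_id.sub contDiff_const)⟩, fun i j hij x hx y hy v hv h =>
      hf.2 i j hij _ (YM7.tsupport_comp (θ := fun y => y - pt m (z i)) (by fun_prop) hx) _
        (YM7.tsupport_comp (θ := fun y => y - pt m (z j)) (by fun_prop) hy) (v + z j - z i)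
        (by simp [hv, hz]) (by
          rw [h]
          ext l
          simp only [pt, PiLp.add_apply, PiLp.sub_apply, Pi.add_apply, Pi.sub_apply]
          push_cast
          ring)⟩
  refine tendsto_nhds_unique (hN.cv hF h1) ((hN.cv hF hf).congr' (h0.mono fun p ⟨e1, e2, e3⟩ => ?_))
  have e : ∀ᵐ V ∂μ p, ∀ i, gf (src (a p) (f i)) V = gf (src (a p) fun y => f i (y - pt m (z i))) V :=
    e3.mono fun V hV i => by
      rw [← hV _ (hz i), ← gf_tF, hV _ (hz i)]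
      refine congrArg (gf · V) (funext fun x => funext₂ fun _ _ => congrArg (f i) ?_)
      ext l
      simp [pt, ← e1, mul_sub, mul_assoc]
  refine integral_congr_ae ((e.filter_mono e2.ae_le).mono fun V hV => prod_congr rfl fun i _ => ?_)
  rw [hV i, integral_congr_ae (e.mono fun V hV => hV i)]

omit hN hF in
theorem adm_small {f : Fin k → R4 → ℝ} (hf : YM7.Adm f) {m : ℝ} (m0 : 0 < m) :
    ∀ᶠ d in 𝓝[>] (0 : ℝ), Adm m fun i y => f i (d⁻¹ • y) := by
  obtain ⟨D, q, h1, -⟩ := hf.data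
  filter_upwards [Ioo_mem_nhdsGT (show 0 < m / (2 * D + 1) by positivity)] with d ⟨d0, d1⟩
  have h2 := hf.smul (inv_ne_zero d0.ne')
  have h3 : ∀ i, ∀ y ∈ tsupport fun y => f i (d⁻¹ • y), ‖y‖ ≤ d * D := fun i y hy => by
    have := h1 i _ (YM7.tsupport_comp (θ := fun y => d⁻¹ • y) (by fun_prop) hy)
    rwa [norm_smul, norm_of_nonneg (by positivity), inv_mul_le_iff₀ d0] at this
  refine ⟨h2.1, fun i j hij x hx y hy z _ h => ?_⟩
  have h4 : z = 0 := funext fun l => by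
    have h5 := (PiLp.norm_apply_le (x - y) l).trans (norm_sub_le_of_le (h3 i x hx) (h3 j y hy))
    rw [h, add_sub_cancel_left, pt, norm_mul, norm_of_nonneg m0.le] at h5
    rw [lt_div_iff₀ (by positivity)] at d1
    have h6 : |(z l : ℝ)| < 1 := lt_of_mul_lt_mul_left (h5.trans_lt (by linarith)) m0.le
    exact Int.abs_lt_one_iff.1 (by exact_mod_cast h6)
  refine Set.disjoint_left.1 (h2.2 hij) hx ?_
  rwa [h, h4, show pt m 0 = 0 by ext; simp [pt], add_zero]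

theorem Lm.short (m0 : 0 < m) {K : ℕ} (hS : Sho U ρ μ a K) (hk : k ≤ K) {f : Fin k → R4 → ℝ}
    (hf : YM7.Adm f) : Tendsto (fun d : ℝ => log d⁻¹ ^ k * S fun i y => f i (d⁻¹ • y)) (𝓝[>] 0)
      (𝓝 ((6 / 11) ^ k * fv f)) :=
  Metric.nhds_basis_closedBall.tendsto_right_iff.2 fun η η0 => by
    filter_upwards [hS k hk f hf η η0, adm_small hf m0] with d h1 h2
    exact le_of_tendsto (((hN.cv hF h2).const_mul _).sub_const _).abs h1

end

variable {h : Measure SU2} [h.IsHaarMeasure] [IsProbabilityMeasure h] {n : ι → ℕ} {b : ι → ℝ} {t : ℝ} {M : ℕ}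
  (hN : Lm U M a μ μ S) (hC : Cyl h U M n a b τ μ t)
include hN hC

theorem Lm.trans {f : Fin k → R4 → ℝ} (hf : Adm M f) (v : R4) :
    S (fun i y => f i (y + v)) = S f := by
  have := hN hf (F := fun p i => tF (fun l => ⌊v l / a p⌋) (src (a p) fun y => f i (y + v)))
    (hC.fm.ap.mono fun p e i => by
      simpa only [sub_add_cancel] using near_tF e (fun y => f i (y + v)) (v := v) fun l => by
        have e3 := (le_div_iff₀' e).1 (Int.floor_le (v l / a p))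
        have e4 := (div_lt_iff₀' e).1 (Int.lt_floor_add_one (v l / a p))
        rw [abs_le]
        constructor <;> linarith)
  refine tendsto_nhds_unique (hN.cv hC.fm (hf.add v)) (this.congr' ?_)
  filter_upwards [hC.fm.ap, hC.st] with p e1 e2
  exact gc_of (e2.2.2.2.shf _) (fun i => fin_src e1 ((hf.add v).1 i).1) fun i => gf_tF _ _

omit hN hC in
theorem tF_zero (F : Sr) : tF 0 F = F := funext fun x => congrArg F (sub_zero x)

theorem Lm.refl {f : Fin k → R4 → ℝ} (hf : Adm M f) : S (fun i => theta (f i)) = S f := by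
  have := hN hf.theta (F := fun p i => rF (src (a p) (f i))) (hC.fm.ap.mono fun p e i => by
    simpa only [sub_zero, tF_zero] using near_rF e (f i) (v := 0) (s := 0) fun l => by simp [e.le])
  refine tendsto_nhds_unique (this.congr' ?_) (hN.cv hC.fm hf)
  filter_upwards [hC.fm.ap, hC.st] with p e1 e2
  exact gc_of e2.2.2.2.rfl (fun i => fin_src e1 (hf.1 i).1) fun i => gf_rF (fin_src e1 (hf.1 i).1)

theorem Lm.prm {f : Fin k → R4 → ℝ} (hf : Adm M f) (σ : Equiv.Perm (Fin 4)) (hσ : σ 0 = 0) :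
    S (fun i y => f i (WithLp.toLp 2 (y ∘ σ))) = S f := by
  let θ := LinearIsometryEquiv.piLpCongrLeft 2 ℝ ℝ σ.symm
  have h1 : Adm M fun i y => f i (WithLp.toLp 2 (y ∘ σ)) :=
    hf.comp θ.toHomeomorph θ.contDiff fun y z hz => ⟨z ∘ σ, by simp [hσ, hz], rfl⟩
  refine tendsto_nhds_unique ((hN.cv hC.fm h1).congr' ?_) (hN.cv hC.fm hf)
  filter_upwards [hC.fm.ap, hC.st] with p e1 e2
  exact gc_of (e2.2.2.2.prm σ hσ) (fun i => fin_src e1 (hf.1 i).1)
    fun i => gf_prm σ fun x => f i (pt (a p) x)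

theorem Lm.gm : Gm M U a μ S := fun k l f g hf hg t ht s hs => by
  have := hN (hf.rp (hg.sh (v := EuclideanSpace.single 0 t) (by simpa))) (F := fun p => Fin.append
    (fun i => rF (src (a p) (f i))) fun i => tF (Pi.single 0 (s p)) (src (a p) (g i)))
    ((hC.fm.ap.and hs).mono fun p ⟨e, e'⟩ => YM5.forall_append₂ (P := Near (a p)) (fun i => by
      change Near _ _ (theta (f i))
      simpa only [sub_zero, tF_zero] using near_rF e (f i) (v := 0) (s := 0) fun l => by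
        simp [e.le]) fun i => near_tF e _ (v := EuclideanSpace.single 0 t)
        (s := Pi.single 0 (s p)) fun l => by
      by_cases hl : l = 0
      · simpa [hl] using e'.trans (by linarith)
      · simp [hl, e.le])
  refine this.congr' ?_
  filter_upwards [hC.fm.ap, hC.st] with p e1 e2
  have f1 := fun i => fin_src e1 (hf.1.1 i).1
  simp only [gc, Fin.prod_univ_add, Fin.append_left, Fin.append_right, gf_tF, gf_rF (f1 _),
    RGP.int_mp e2.2.2.2.rfl (cont_gf (f1 _)).measurable,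
    RGP.int_mp (e2.2.2.2.shf _) (cont_gf (fin_src e1 (hg.1.1 _).1)).measurable]
  rfl

theorem Lm.os9 (hB : Bd (Lc M) U μ μ a τ) : OS9 M t S := by
  have h0 := hC.st.mono fun p e => e.2.2.2.prob
  have h1 : ∀ᶠ p in U, IsFiniteMeasure (μ p) ∧ IsFiniteMeasure (μ p) :=
    h0.mono fun _ _ => ⟨inferInstance, inferInstance⟩
  have h2 := (hC.fm.ap.and hC.st).mono fun p e => And.intro e.1 (And.intro e.2.1 e.2.2.2.2)
  exact ⟨hN.nil hC.fm h0, hN.perm hC.fm, hN.trans hC, hN.refl hC, hN.per hC.fm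
    (hC.st.mono fun p e => ⟨e.1, .rfl, e.2.2.2.per⟩), hN.cont hC.fm hB h1,
    fun hf c _ => (hN.gm hC).pos h2 hf c, fun hf _ c _ => (hN.gm hC).frame h2 hf M.cast_nonneg c⟩

end Pool.Agent.Lib.MP_7f377f_mp.YM9
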