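import Pool.Agent.Lib.MP_7f377f_mp.YM9Defs

/-! The quantum theory on a spatial torus. -/

noncomputable section

namespace Pool.Agent.Lib.MP_7f377f_mp.YM9

open Real

variable (H : Type) [NormedAddCommGroup H] [InnerProductSpace ℂ H] [CompleteSpace H]

/-- `T v = exp (-v 0 * A + i v P)`: a strongly continuous contraction semigroup on the half space
which fixes the unit vector `Ω`, is unitary and `m` periodic in space, and whose generator `A` has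
an eigenbasis with eigenvalues `E i ≥ 0`, unbounded, `tr exp (-m A) < ∞`, with a gap above `0` -/
def Dyn (m : ℝ) (Ω : H) (T : R4 → H →L[ℂ] H) : Prop := ‖Ω‖ = 1 ∧ T 0 = 1 ∧
  (∀ v, 0 ≤ v 0 → ‖T v‖ ≤ 1 ∧ T v Ω = Ω ∧ ∀ w, 0 ≤ w 0 → T (v + w) = T v * T w) ∧
  (∀ x, ContinuousOn (fun v => T v x) {v | 0 ≤ v 0}) ∧
  (∀ v, v 0 = 0 → T v ∈ unitary (H →L[ℂ] H)) ∧
  (∀ z : Fin 4 → ℤ, z 0 = 0 → T (pt m z) = 1) ∧
  ∃ (I : Type) (e : HilbertBasis I ℂ H) (E : I → ℝ), (∀ i, 0 ≤ E i) ∧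
    (∀ t ≥ 0, ∀ i, T (EuclideanSpace.single 0 t) (e i) = (exp (-t * E i) : ℂ) • e i) ∧
    (Summable fun i => exp (-m * E i)) ∧ (∃ Δ > 0, ∀ i, E i = 0 ∨ Δ ≤ E i) ∧
    ¬BddAbove (Set.range E)

/-- Osterwalder-Schrader reconstruction -/
def Quantum (m : ℝ) (S : ∀ {k : ℕ}, (Fin k → R4 → ℝ) → ℝ) : Prop :=
  ∃ (Ψ : ∀ {k : ℕ}, (Fin k → R4 → ℝ) → H) (T : R4 → H →L[ℂ] H),
    Dense (Submodule.span ℂ {x | ∃ k, ∃ f : Fin k → R4 → ℝ, Pos m f ∧ Ψ f = x} : Set H) ∧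
    (∀ k (f : Fin k → R4 → ℝ), Pos m f →
      (∀ l (g : Fin l → R4 → ℝ), Pos m g →
        inner ℂ (Ψ f) (Ψ g) = S (Fin.append (fun i => theta (f i)) g)) ∧
      ∀ v, 0 ≤ v 0 → T v (Ψ f) = Ψ fun i y => f i (y - v)) ∧
    Dyn H m (Ψ ![]) T

end Pool.Agent.Lib.MP_7f377f_mp.YM9
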