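import Pool.Agent.Lib.MP_7f377f_mp.CyD2
import Pool.Agent.Lib.MP_7f377f_mp.CyE1
import Pool.Agent.Lib.MP_7f377f_mp.CyE2
import Pool.Agent.Lib.MP_7f377f_mp.CyF4
import Pool.Agent.Lib.MP_7f377f_mp.CyG
import Pool.Agent.Lib.MP_7f377f_mp.CyH
import Pool.Agent.Lib.MP_7f377f_mp.YM9Q

/-! The continuum limit on the cylinder. -/

noncomputable section

namespace Pool.Agent.Lib.MP_7f377f_mp.YM9

open MeasureTheory Filter Topology Function Real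

set_option linter.unusedSectionVars false

variable [MeasurableSpace SU2] [BorelSpace SU2] {h : Measure SU2} [h.IsHaarMeasure]
  [IsProbabilityMeasure h] {ι : Type} {Φ : Filter ι} {n : ι → ℕ} {a b τ : ι → ℝ} {m K : ℕ}

theorem Cyl.mono {μ : ι → Measure Fd} {t : ℝ} (hC : Cyl h Φ m n a b τ μ t) {U : Filter ι}
    (hU : U ≤ Φ) : Cyl h U m n a b τ μ t :=
  ⟨⟨hC.fm.a0.mono_left hU, hC.fm.tau.mono_left hU⟩, hC.pos, hC.st.filter_mono hU⟩

theorem Bd.mono {Λ : Set R4} {ρ μ : ι → Measure Fd} (hB : Bd Λ Φ ρ μ a τ) {U : Filter ι}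
    (hU : U ≤ Φ) : Bd Λ U ρ μ a τ := fun k R δ hδ =>
  (hB k R δ hδ).imp fun _ e => ⟨e.1, e.2.filter_mono hU⟩

theorem Sho.mono {ρ μ : ι → Measure Fd} (hS : Sho Φ ρ μ a K) {U : Filter ι} (hU : U ≤ Φ) :
    Sho U ρ μ a K := fun k hk f hf η hη => (hS k hk f hf η hη).mono fun _ e => e.filter_mono hU

theorem adm_zero {k : ℕ} {f : Fin k → R4 → ℝ} (hf : Adm 0 f) : YM7.Adm f :=
  ⟨hf.1, fun i j hij => Set.disjoint_left.2 fun y hy hy' => hf.2 i j hij y hy y hy' 0 rfl (by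
    ext l
    simp [pt])⟩

theorem exists_cyl [∀ p, NeZero (n p)] {C : ℝ} (hF : Fm Φ a τ) (hm : 0 < m)
    (h0 : ∀ᶠ p in Φ, a p * n p = m ∧ Odd (n p) ∧ 0 ≤ b p ∧
      Z7 h (b p) (n p) ^ 81 ≤ C * Z7 h (b p) (3 * n p))
    (hP : YM7.Poly2 h Φ n a b τ) (hS : ∀ K, YM7.Short h Φ n a b K) :
    ∃ μ, Cyl h Φ m n a b τ μ C ∧ Bd (Lc m) Φ μ μ a τ ∧ ∀ K, Sho Φ μ μ a K := by
  choose μ l r e V using fun p => exists_vs h (b p) (n p)
  have hC : Cyl h Φ m n a b τ μ C := ⟨hF, hm, by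
    filter_upwards [h0, hF.small (show (0 : ℝ) < 1 / 3 by norm_num), hF.ap] with p e e1 e2
    refine ⟨e.1, e.2.1, e.2.2.1, (V p).st9 h e.2.2.1 e.2.1 ?_ e.2.2.2⟩
    have : (1 : ℝ) ≤ m := by exact_mod_cast hm
    have : (3 : ℝ) ≤ n p := by nlinarith [e.1, (n p).cast_nonneg (α := ℝ)]
    exact_mod_cast this⟩
  have h1 := bd_cube h hF hm (h0.mono fun _ e => e.1) hP
  have h2 := hF.ap.mono fun p e => And.intro e (V p).prob
  exact ⟨μ, hC, bd_recentre h2 (bd_mix h hC h1), fun _ => sho_recentre h2 (sho_mix h hC h1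
    (sho_cube h hm (hF.ap.and (h0.mono fun _ e => e.1)) (hS _)))⟩

theorem cylinder_of [Φ.NeBot] [Φ.IsCountablyGenerated] {μ : ι → Measure Fd} {C : ℝ}
    (hC : Cyl h Φ m n a b τ μ C) (hB : Bd (Lc m) Φ μ μ a τ) (hS : ∀ K, Sho Φ μ μ a K)
    (hb : Tendsto (fun p => b p / log (a p)⁻¹) Φ (𝓝 (11 / (6 * π ^ 2)))) :
    ∃ (n : ℕ → ℕ) (b : ℕ → ℝ) (μ : ℕ → Measure (Link → SU2))
      (S : ∀ {k : ℕ}, (Fin k → R4 → ℝ) → ℝ),
      Tendsto n atTop atTop ∧ Tendsto (fun j => b j / log (n j)) atTop (𝓝 (11 / (6 * π ^ 2))) ∧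
      (∀ j, IsProbabilityMeasure (μ j) ∧ ∀ F : C(Link → SU2, ℝ), Tendsto
        (fun T => ∫ U, F U ∂wilson h (b j) ![T, n j, n j, n j]) atTop (𝓝 (∫ U, F U ∂μ j))) ∧
      (∀ k (f : Fin k → R4 → ℝ), Adm m f →
        Tendsto (fun j => corr (μ j) (m / n j) f) atTop (𝓝 (S f)) ∧
        (∀ v, S (fun i y => f i (y + v)) = S f) ∧
        (∀ σ : Equiv.Perm (Fin 4), σ 0 = 0 → S (fun i y => f i (WithLp.toLp 2 (y ∘ σ))) = S f) ∧
        S (fun i => theta (f i)) = S f) ∧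
      (∀ k R, ∀ δ > 0, ∃ C, ∀ (f : Fin k → R4 → ℝ) (L : Fin k → NNReal), Adm m f →
        (∀ i, LipschitzWith (L i) (f i) ∧ ∀ y, f i y ≠ 0 → ‖y‖ ≤ R) →
        (∀ i j, i ≠ j → ∀ x y, f i x ≠ 0 → f j y ≠ 0 → ∀ z : Fin 4 → ℤ, z 0 = 0 →
          δ ≤ dist x (y + pt m z)) → |S f| ≤ C * ∏ i, L i) ∧
      (∀ k (f : Fin k → R4 → ℝ), Adm 0 f →
        Tendsto (fun d : ℝ => log d⁻¹ ^ k * S fun i y => f i (d⁻¹ • y)) (𝓝[>] 0)
          (𝓝 ((6 / 11) ^ k * ∫ y : Fin k → R4, (∏ i, f i (y i)) * free y))) ∧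
      (∀ y : Fin 2 → R4, y 0 ≠ y 1 → free y = 9 / ‖y 0 - y 1‖ ^ 8) ∧
      ∃ (H : Type) (_ : NormedAddCommGroup H) (_ : InnerProductSpace ℂ H) (_ : CompleteSpace H),
        Quantum H m S := by
  obtain ⟨U, hU⟩ := Φ.exists_ultrafilter_le
  have m0 : (0 : ℝ) < m := Nat.cast_pos.2 hC.pos
  have h0 : ∀ᶠ p in Φ, IsFiniteMeasure (μ p) ∧ IsFiniteMeasure (μ p) := hC.st.mono fun p e =>
    have := e.2.2.2.prob
    ⟨inferInstance, inferInstance⟩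
  have cU := hC.mono hU
  obtain ⟨S, hN⟩ := exists_lm U (hB.mono hU) cU.fm (h0.filter_mono hU)
  obtain ⟨G, _, g1, g2⟩ := hB.seq hC.fm h0 (closed_Lc m) U hU (S := S) fun k f hf =>
    hN.cv cU.fm (adm_iff.2 hf)
  have : (G ⊓ Φ).NeBot := neBot_of_le (le_inf g1 hU)
  obtain ⟨p, hp⟩ := exists_seq_tendsto (G ⊓ Φ)
  obtain ⟨p1, p2⟩ := tendsto_inf.1 hp
  obtain ⟨j0, hj⟩ := eventually_atTop.1 (p2.eventually (hC.fm.ap.and hC.st))
  replace hj := fun j => hj (j + j0) (Nat.le_add_left _ _)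
  have q := tendsto_add_atTop_nat j0
  have ea : ∀ j, a (p (j + j0)) = m / n (p (j + j0)) := fun j => eq_div_of_mul_eq
    (fun e => m0.ne' (by rw [← (hj j).2.1, e, mul_zero])) (hj j).2.1
  have en : ∀ j, (n (p (j + j0)) : ℝ) = m * (a (p (j + j0)))⁻¹ := fun j =>
    (eq_mul_inv_iff_mul_eq₀ (hj j).1.ne').2 ((mul_comm _ _).trans (hj j).2.1)
  have a1 := tendsto_inv_nhdsGT_zero.comp ((hC.fm.a0.comp p2).comp q)
  have a2 := tendsto_log_atTop.comp a1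
  have hO := hN.os9 cU (hB.mono hU)
  have hA := fun k f => hN.short cU.fm m0 ((hS k).mono hU) le_rfl (f := f)
  obtain ⟨H, _, _, _, Ψ, T, I, e, E, q1, q2, q3, q4, q5, q6, q7, q8, q9, q10, q11, q12, q13, -⟩ :=
    hO.hilbert m0 (hA 2)
  refine ⟨fun j => n (p (j + j0)), fun j => b (p (j + j0)), fun j => μ (p (j + j0)), S,
    tendsto_natCast_atTop_iff.1 ((a1.const_mul_atTop m0).congr fun j => (en j).symm), ?_,
    fun j => ⟨(hj j).2.2.2.2.prob, fun F => (hj j).2.2.2.2.lim F F.continuous⟩,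
    fun k f hf => ⟨(((g2 k f (adm_iff.1 hf)).comp p1).comp q).congr fun j => by
      rw [corr_eq, ← ea]; rfl, hO.trans hf, hN.prm cU hf, hO.refl hf⟩,
    hN.lip cU.fm (hB.mono hU) (h0.filter_mono hU), fun k f hf => hA k f (adm_zero hf),
    YM5.free_two, H, inferInstance, inferInstance, inferInstance, Ψ, T, q1,
    fun k f hf => ⟨fun l g => q2 k l f g hf, fun v hv => (q5 v hv).2.2.2 k f hf⟩, q3, q4,
    fun v hv => ⟨(q5 v hv).1, (q5 v hv).2.1, (q5 v hv).2.2.1⟩, q6, q7, q8, I, e, E, q9, q10, q11,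
    q12, q13⟩
  have := ((hb.comp p2).comp q).div ((tendsto_const_nhds (x := log m)).div_atTop a2 |>.add_const 1)
    (by simp)
  rw [zero_add, div_one] at this
  refine this.congr' ((a2.eventually_gt_atTop 0).mono fun j e => ?_)
  simp only [comp, Pi.div_apply] at e ⊢
  rw [en, log_mul m0.ne' (inv_ne_zero (hj j).1.ne'), div_div, div_add_one e.ne',
    mul_div_cancel₀ _ e.ne']

end Pool.Agent.Lib.MP_7f377f_mp.YM9
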