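import Pool.Agent.Lib.MP_7f377f_mp.DgDefs

/-! Gibbs and Bogoliubov inequalities for densities on finite products of a compact group. -/

noncomputable section

namespace Pool.Agent.Lib.MP_7f377f_mp.Dg

open Weak MeasureTheory Real Function

set_option linter.unusedSectionVars false

variable {A : Type} [NormedRing A] [StarRing A] [NormedAlgebra ℝ A] [HS A]
variable {G : Type} [Group G] [TopologicalSpace G] [IsTopologicalGroup G] [CompactSpace G]
  [SecondCountableTopology G] [MeasurableSpace G] [BorelSpace G]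
  (μ : Measure G) [μ.IsHaarMeasure] [IsProbabilityMeasure μ] {ρ : G →* unitary A}
  {E : Type} [Fintype E] {T : Type} [AddCommGroup T] [Fintype T]

section Basic

variable {F H : (E → G) → ℝ}

theorem gI_add (hF : Continuous F) (hH : Continuous H) :
    I μ (fun U => F U + H U) = I μ F + I μ H := integral_add (cint _ hF) (cint _ hH)

theorem gI_sub (hF : Continuous F) (hH : Continuous H) :
    I μ (fun U => F U - H U) = I μ F - I μ H := integral_sub (cint _ hF) (cint _ hH)

theorem gI_cmul (c : ℝ) (F : (E → G) → ℝ) : I μ (fun U => c * F U) = c * I μ F :=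
  integral_const_mul _ _

theorem gI_mulc (c : ℝ) (F : (E → G) → ℝ) : I μ (fun U => F U * c) = I μ F * c :=
  integral_mul_const _ _

theorem gI_div (c : ℝ) (F : (E → G) → ℝ) : I μ (fun U => F U / c) = I μ F / c :=
  integral_div _ _

theorem gI_neg (F : (E → G) → ℝ) : I μ (fun U => -F U) = -I μ F := integral_neg _

theorem gI_const (c : ℝ) : I μ (fun _ : E → G => c) = c := by simp [I]

theorem gI_mono (hF : Continuous F) (hH : Continuous H) (h : ∀ U, F U ≤ H U) : I μ F ≤ I μ H :=
  integral_mono (cint _ hF) (cint _ hH) h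

theorem gI_nonneg (h : ∀ U, 0 ≤ F U) : 0 ≤ I μ F := integral_nonneg h

theorem gI_pos (hF : Continuous F) (h : ∀ U, 0 < F U) : 0 < I μ F := by
  obtain ⟨U, -, hU⟩ := isCompact_univ.exists_isMinOn ⟨fun _ => (1 : G), Set.mem_univ _⟩
    hF.continuousOn
  refine (h U).trans_le ?_
  rw [← gI_const μ (E := E) (F U)]
  exact gI_mono μ continuous_const hF fun V => hU (Set.mem_univ V)

theorem gI_sum {ι : Type} (X : Finset ι) {f : ι → (E → G) → ℝ} (hf : ∀ i ∈ X, Continuous (f i)) :
    I μ (fun U => ∑ i ∈ X, f i U) = ∑ i ∈ X, I μ (f i) :=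
  integral_finsetSum _ fun i hi => cint _ (hf i hi)

theorem Den.cont_log {p : (E → G) → ℝ} (hp : Den μ p) : Continuous fun U => log (p U) :=
  hp.cont.log fun U => (hp.pos U).ne'

/-- the mean of a bounded function in a density -/
theorem Den.abs_le {p : (E → G) → ℝ} (hp : Den μ p) (hF : Continuous F) {B : ℝ}
    (hB : ∀ U, |F U| ≤ B) : |I μ fun U => p U * F U| ≤ B := by
  have e : ∀ c : ℝ, I μ (fun U => p U * c) = c := fun c => by rw [gI_mulc, hp.one, one_mul]
  refine _root_.abs_le.2 ⟨?_, ?_⟩
  · rw [← e (-B)]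
    exact gI_mono μ (hp.cont.mul continuous_const) (hp.cont.mul hF) fun U =>
      mul_le_mul_of_nonneg_left (_root_.abs_le.1 (hB U)).1 (hp.pos U).le
  · rw [← e B]
    exact gI_mono μ (hp.cont.mul hF) (hp.cont.mul continuous_const) fun U =>
      mul_le_mul_of_nonneg_left (_root_.abs_le.1 (hB U)).2 (hp.pos U).le

end Basic

theorem gibbs {p q : (E → G) → ℝ} (hp : Den μ p) (hq : Den μ q) :
    I μ (fun U => p U * log (q U)) ≤ ent μ p := by
  have c1 := hp.cont.fun_mul (hq.cont_log μ)
  have c2 := hp.cont.fun_mul (hp.cont_log μ)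
  have h : I μ (fun U => p U * log (q U) - p U * log (p U)) ≤ I μ fun U => q U - p U := by
    refine gI_mono μ (c1.sub c2) (hq.cont.sub hp.cont) fun U => ?_
    have h1 := hp.pos U
    have h2 := hq.pos U
    have h3 := log_le_sub_one_of_pos (div_pos h2 h1)
    rw [log_div h2.ne' h1.ne'] at h3
    calc p U * log (q U) - p U * log (p U) = p U * (log (q U) - log (p U)) := by ring
      _ ≤ p U * (q U / p U - 1) := mul_le_mul_of_nonneg_left h3 h1.le
      _ = q U - p U := by field_simp
  rw [gI_sub μ c1 c2, gI_sub μ hq.cont hp.cont, hp.one, hq.one] at h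
  unfold ent
  linarith

theorem den_exp {H : (E → G) → ℝ} (hH : Continuous H) :
    Den μ fun U => exp (H U) / I μ fun V => exp (H V) := by
  have hc : Continuous fun U => exp (H U) := continuous_exp.comp hH
  have hZ : 0 < I μ fun V => exp (H V) := gI_pos μ hc fun _ => exp_pos _
  exact ⟨hc.div_const _, fun U => div_pos (exp_pos _) hZ, by rw [gI_div, div_self hZ.ne']⟩

/-- the mean of the logarithm of a Gibbs density -/
theorem I_log_exp {p H : (E → G) → ℝ} (hp : Den μ p) (hH : Continuous H) :
    I μ (fun U => p U * log (exp (H U) / I μ fun V => exp (H V))) =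
      I μ (fun U => p U * H U) - log (I μ fun V => exp (H V)) := by
  have hZ : 0 < I μ fun V => exp (H V) := gI_pos μ (continuous_exp.comp hH) fun _ => exp_pos _
  have e : ∀ U, p U * log (exp (H U) / I μ fun V => exp (H V)) =
      p U * H U - p U * log (I μ fun V => exp (H V)) := fun U => by
    rw [log_div (exp_pos _).ne' hZ.ne', log_exp]
    ring
  simp only [e]
  rw [gI_sub μ (hp.cont.fun_mul hH) (hp.cont.fun_mul continuous_const), gI_mulc, hp.one, one_mul]

/-- Gibbs variational inequality -/
theorem gibbs_var {p H : (E → G) → ℝ} (hp : Den μ p) (hH : Continuous H) :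
    I μ (fun U => p U * H U) ≤ ent μ p + log (I μ fun V => exp (H V)) := by
  have h := gibbs μ hp (den_exp μ hH)
  rw [I_log_exp μ hp hH] at h
  linarith

theorem ent_exp {H : (E → G) → ℝ} (hH : Continuous H) :
    ent μ (fun U => exp (H U) / I μ fun V => exp (H V)) =
      I μ (fun U => (exp (H U) / I μ fun V => exp (H V)) * H U) - log (I μ fun V => exp (H V)) :=
  I_log_exp μ (den_exp μ hH) hH

theorem bogo {H K : (E → G) → ℝ} (hH : Continuous H) (hK : Continuous K) :
    log (I μ fun U => exp (H U)) + (I μ fun U => K U * exp (H U)) / I μ (fun U => exp (H U)) ≤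
      log (I μ fun U => exp (H U + K U)) := by
  have hd := den_exp μ hH
  have h := gibbs_var μ hd (hH.fun_add hK)
  rw [ent_exp μ hH] at h
  have e : (fun U => (exp (H U) / I μ fun V => exp (H V)) * (H U + K U)) =
      fun U => (exp (H U) / I μ fun V => exp (H V)) * H U +
        K U * exp (H U) / I μ fun V => exp (H V) := by
    funext U
    ring
  rw [e, gI_add μ (hd.cont.fun_mul hH) ((hK.fun_mul hH.rexp).div_const _), gI_div] at h
  linarith

theorem kl_tilt (hρ : Continuous ρ) (w : Z4 →+ T) (b : ℝ) {K : (T × Fin 4 → G) → ℝ}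
    (hK : Continuous K) {B : ℝ} (hB : ∀ U, |K U| ≤ B) :
    kl μ ρ w b (fun U => exp (-(b * aT ρ w U) + K U) /
      I μ fun V => exp (-(b * aT ρ w V) + K V)) ≤ 2 * B := by
  have ha : Continuous fun U => -(b * aT ρ w U) := (continuous_const.mul (cont_aT hρ w)).neg
  have hH : Continuous fun U => -(b * aT ρ w U) + K U := ha.add hK
  have hd := den_exp μ hH
  have h1 := hd.abs_le μ hK hB
  have hZ : 0 < I μ fun U => exp (-(b * aT ρ w U)) :=
    gI_pos μ (continuous_exp.comp ha) fun _ => exp_pos _
  have h2 : exp (-B) * I μ (fun U => exp (-(b * aT ρ w U))) ≤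
      I μ fun V => exp (-(b * aT ρ w V) + K V) := by
    rw [← gI_cmul]
    refine gI_mono μ (continuous_const.mul (continuous_exp.comp ha)) (continuous_exp.comp hH)
      fun U => ?_
    rw [← exp_add]
    exact exp_le_exp.2 (by linarith [(_root_.abs_le.1 (hB U)).1])
  have h3 := log_le_log (mul_pos (exp_pos _) hZ) h2
  rw [log_mul (exp_pos _).ne' hZ.ne', log_exp] at h3
  unfold kl
  rw [ent_exp μ hH]
  set Z := I μ fun V => exp (-(b * aT ρ w V) + K V) with hZ'
  have e : (fun U => exp (-(b * aT ρ w U) + K U) / Z * (-(b * aT ρ w U) + K U)) =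
      fun U => -b * (exp (-(b * aT ρ w U) + K U) / Z * aT ρ w U) +
        exp (-(b * aT ρ w U) + K U) / Z * K U := by
    funext U
    ring
  have c1 : Continuous fun U => -b * (exp (-(b * aT ρ w U) + K U) / Z * aT ρ w U) :=
    continuous_const.mul (hd.cont.mul (cont_aT hρ w))
  rw [e, gI_add μ c1 (hd.cont.fun_mul hK), gI_cmul]
  linarith [(_root_.abs_le.1 h1).2]

/-- relative entropy is not negative -/
theorem kl_nonneg (hρ : Continuous ρ) (w : Z4 →+ T) (b : ℝ) {p : (T × Fin 4 → G) → ℝ}
    (hp : Den μ p) : 0 ≤ kl μ ρ w b p := by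
  have ha : Continuous fun U => -(b * aT ρ w U) := (continuous_const.mul (cont_aT hρ w)).neg
  have h := gibbs_var μ hp ha
  have e : (fun U => p U * -(b * aT ρ w U)) = fun U => -b * (p U * aT ρ w U) := by
    funext U
    ring
  rw [e, gI_cmul] at h
  unfold kl
  linarith

end Pool.Agent.Lib.MP_7f377f_mp.Dg
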