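import Pool.Agent.Lib.MP_7f377f_mp.DgMg
import Pool.Agent.Lib.MP_7f377f_mp.DgGib

/-! Abstract Markov chains of slices and their entropy. -/

noncomputable section

namespace Pool.Agent.Lib.MP_7f377f_mp.Dg

open Weak MeasureTheory Real Function

set_option linter.unusedSectionVars false

variable {A : Type} [NormedRing A] [StarRing A] [NormedAlgebra ℝ A] [HS A]
variable {G : Type} [Group G] [TopologicalSpace G] [IsTopologicalGroup G] [CompactSpace G]
  [SecondCountableTopology G] [MeasurableSpace G] [BorelSpace G]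
  (μ : Measure G) [μ.IsHaarMeasure] [IsProbabilityMeasure μ] {ρ : G →* unitary A}
  {E : Type} [Fintype E] {T : Type} [AddCommGroup T] [Fintype T]

variable {S S' : Set E} {F H p : (E → G) → ℝ}

/-- consistent two slice densities -/
structure Chain (t : E → ℕ) (N : ℕ) (k s : ℕ → (E → G) → ℝ) : Prop where
  dk : ∀ j < N, Den μ (k j)
  ds : ∀ j ≤ N, Den μ (s j)
  ok : ∀ j < N, On {e | 2 * j ≤ t e ∧ t e ≤ 2 * j + 2} (k j)
  os : ∀ j ≤ N, On {e | t e = 2 * j} (s j)
  lo : ∀ j < N, mg μ {e | t e ≠ 2 * j} (k j) = s j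
  hi : ∀ j < N, mg μ {e | t e ≠ 2 * j + 2} (k j) = s (j + 1)

/-- the Markov chain between the slices `a` and `c` -/
def ch (k s : ℕ → (E → G) → ℝ) (a c : ℕ) (U : E → G) : ℝ :=
  s a U * ∏ j ∈ Finset.Ico a c, k j U / s j U

variable {t : E → ℕ} {N : ℕ} {k s : ℕ → (E → G) → ℝ}

theorem ch_self (a : ℕ) : ch k s a a = s a := by
  funext U
  simp [ch]

theorem Chain.ch_one (h : Chain μ t N k s) {j : ℕ} (hj : j < N) : ch k s j (j + 1) = k j := by
  funext U
  simp [ch, mul_div_cancel₀ _ ((h.ds j hj.le).pos U).ne']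

theorem Chain.cont (h : Chain μ t N k s) {a c : ℕ} (h1 : a ≤ c) (h2 : c ≤ N) :
    Continuous (ch k s a c) :=
  (h.ds a (h1.trans h2)).cont.mul (continuous_finsetProd _ fun j hj =>
    have hj := (Finset.mem_Ico.1 hj).2.trans_le h2
    (h.dk j hj).cont.div (h.ds j hj.le).cont fun U => ((h.ds j hj.le).pos U).ne')

theorem Chain.pos (h : Chain μ t N k s) {a c : ℕ} (h1 : a ≤ c) (h2 : c ≤ N) (U : E → G) :
    0 < ch k s a c U :=
  mul_pos ((h.ds a (h1.trans h2)).pos U) (Finset.prod_pos fun j hj =>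
    have hj := (Finset.mem_Ico.1 hj).2.trans_le h2
    div_pos ((h.dk j hj).pos U) ((h.ds j hj.le).pos U))

theorem Chain.on (h : Chain μ t N k s) {a c : ℕ} (h1 : a ≤ c) (h2 : c ≤ N) :
    On {e | 2 * a ≤ t e ∧ t e ≤ 2 * c} (ch k s a c) := fun U V e => by
  unfold ch
  rw [h.os a (h1.trans h2) U V fun x (hx : t x = _) => e x ⟨by omega, by omega⟩]
  congr 1
  refine Finset.prod_congr rfl fun j hj => ?_
  obtain ⟨j1, j2⟩ := Finset.mem_Ico.1 hj
  rw [h.ok j (by omega) U V fun x ⟨x1, x2⟩ => e x ⟨by omega, by omega⟩,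
    h.os j (by omega) U V fun x (hx : t x = _) => e x ⟨by omega, by omega⟩]

theorem Chain.step (h : Chain μ t N k s) {j i : ℕ} (hj : j < N) (hi : i ≤ N)
    (e : mg μ S (k j) = s i) (hc : Continuous H) (ho : On Sᶜ H) (os : On Sᶜ (s i)) :
    I μ (fun U => k j U * (H U / s i U)) = I μ H := by
  have h0 := fun U => ((h.ds i hi).pos U).ne'
  rw [← I_mul_mg μ (S := S) (H := fun U => H U / s i U) (h.dk j hj).cont
    (hc.div (h.ds i hi).cont h0) fun U V e => congrArg₂ _ (ho U V e) (os U V e), e]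
  simp only [mul_div_cancel₀ _ (h0 _)]

theorem Chain.up (h : Chain μ t N k s) {a c' c : ℕ} (h2 : a ≤ c') (h3 : c' ≤ c) (h4 : c ≤ N)
    (hF : Continuous F) (ho : On {e | t e ≤ 2 * c'} F) :
    I μ (fun U => ch k s a c U * F U) = I μ fun U => ch k s a c' U * F U := by
  induction c, h3 using Nat.le_induction with
  | base => rfl
  | succ c h3 ih =>
    have h5 : c < N := h4
    rw [← ih h5.le, ← h.step μ (S := {e | 2 * c < t e}) (H := fun U => ch k s a c U * F U) h5 h5.le
      ((mg_congr μ (h.dk c h5).cont (h.ok c h5) (by ext e; simp; omega)).trans (h.lo c h5))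
      ((h.cont μ (h2.trans h3) h5.le).mul hF) (fun U V e => congrArg₂ _
        (h.on μ (h2.trans h3) h5.le U V fun x hx => e x hx.2.not_gt)
        (ho U V fun x (hx : t x ≤ _) => e x fun (h : _ < t x) => by omega))
      ((h.os c h5.le).mono fun x (hx : t x = _) (h : _ < t x) => by omega)]
    congr 1
    funext U
    simp only [ch, Finset.prod_Ico_succ_top (h2.trans h3)]
    ring

theorem Chain.down (h : Chain μ t N k s) {a a' c : ℕ} (h1 : a ≤ a') (h2 : a' ≤ c) (h4 : c ≤ N)
    (hF : Continuous F) (ho : On {e | 2 * a' ≤ t e} F) :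
    I μ (fun U => ch k s a c U * F U) = I μ fun U => ch k s a' c U * F U := by
  induction a', h1 using Nat.le_induction with
  | base => rfl
  | succ b h1 ih =>
    have h5 : b < N := h2.trans h4
    rw [ih (Nat.le_of_succ_le h2) (ho.mono fun x (hx : _ ≤ t x) => by change _ ≤ t x; omega),
      ← h.step μ (S := {e | t e < 2 * b + 2}) (H := fun U => ch k s (b + 1) c U * F U) h5 h5
      ((mg_congr μ (h.dk b h5).cont (h.ok b h5) (by ext e; simp; omega)).trans (h.hi b h5))
      ((h.cont μ h2 h4).mul hF) (fun U V e => congrArg₂ _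
        (h.on μ h2 h4 U V fun x hx => e x hx.1.not_gt)
        (ho U V fun x (hx : _ ≤ t x) => e x fun (h : t x < _) => by omega))
      ((h.os (b + 1) h5).mono fun x (hx : t x = _) (h : t x < _) => by omega)]
    congr 1
    funext U
    have h6 := ((h.ds b h5.le).pos U).ne'
    have h7 := ((h.ds (b + 1) h5).pos U).ne'
    simp only [ch, Finset.prod_eq_prod_Ico_succ_bot h2]
    field_simp

theorem Chain.I_ch (h : Chain μ t N k s) {a a' c' c : ℕ} (h1 : a ≤ a') (h2 : a' ≤ c') (h3 : c' ≤ c)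
    (h4 : c ≤ N) (hF : Continuous F) (ho : On {e | 2 * a' ≤ t e ∧ t e ≤ 2 * c'} F) :
    I μ (fun U => ch k s a c U * F U) = I μ fun U => ch k s a' c' U * F U :=
  (h.up μ (h1.trans h2) h3 h4 hF (ho.mono fun _ hx => hx.2)).trans
    (h.down μ h1 h2 (h3.trans h4) hF (ho.mono fun _ hx => hx.1))

theorem Chain.den (h : Chain μ t N k s) {a c : ℕ} (h1 : a ≤ c) (h2 : c ≤ N) :
    Den μ (ch k s a c) := by
  refine ⟨h.cont μ h1 h2, h.pos μ h1 h2, ?_⟩
  have := h.I_ch μ (F := fun _ => 1) le_rfl le_rfl h1 h2 continuous_const fun _ _ _ => rfl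
  simp only [mul_one, ch_self] at this
  exact this.trans (h.ds a (h1.trans h2)).one

theorem Chain.I_log (h : Chain μ t N k s) (hp : Continuous p) :
    I μ (fun U => p U * log (ch k s 0 N U)) = I μ (fun U => p U * log (s 0 U)) +
      ∑ j ∈ Finset.range N,
        (I μ (fun U => p U * log (k j U)) - I μ fun U => p U * log (s j U)) := by
  have c1 := fun j (hj : j ∈ Finset.range N) => cint (f := fun U => p U * log (k j U))
    (Measure.pi fun _ : E => μ) (hp.mul ((h.dk j (Finset.mem_range.1 hj)).cont_log μ))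
  have c2 := fun j (hj : j ≤ N) => cint (f := fun U => p U * log (s j U))
    (Measure.pi fun _ : E => μ) (hp.mul ((h.ds j hj).cont_log μ))
  have c3 := fun j (hj : j ∈ Finset.range N) => c2 j (Finset.mem_range.1 hj).le
  have c4 : ∀ j ∈ Finset.range N, Integrable (fun U => p U * log (k j U) - p U * log (s j U))
      (Measure.pi fun _ : E => μ) := fun j hj => (c1 j hj).sub (c3 j hj)
  unfold I
  rw [← Finset.sum_congr rfl fun j hj => integral_sub (c1 j hj) (c3 j hj),
    ← integral_finsetSum _ c4, ← integral_add (c2 0 N.zero_le) (integrable_finsetSum _ c4)]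
  congr 1
  funext U
  have p1 := fun j (hj : j ∈ Finset.range N) => ((h.dk j (Finset.mem_range.1 hj)).pos U).ne'
  have p2 := fun j (hj : j ∈ Finset.range N) => ((h.ds j (Finset.mem_range.1 hj).le).pos U).ne'
  beta_reduce
  rw [ch, ← Finset.range_eq_Ico, log_mul ((h.ds 0 N.zero_le).pos U).ne'
    (Finset.prod_ne_zero_iff.2 fun j hj => div_ne_zero (p1 j hj) (p2 j hj)),
    log_prod fun j hj => div_ne_zero (p1 j hj) (p2 j hj), mul_add, Finset.mul_sum]
  congr 1
  exact Finset.sum_congr rfl fun j hj => by rw [log_div (p1 j hj) (p2 j hj), mul_sub]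

theorem Chain.ent_ch (h : Chain μ t N k s) :
    ent μ (ch k s 0 N) = ent μ (s 0) + ∑ j ∈ Finset.range N, (ent μ (k j) - ent μ (s j)) := by
  have e : ∀ j ≤ N, I μ (fun U => ch k s 0 N U * log (s j U)) = ent μ (s j) := fun j hj => by
    rw [h.I_ch μ j.zero_le le_rfl hj le_rfl ((h.ds j hj).cont_log μ) fun U V e => by
      rw [h.os j hj U V fun x (hx : t x = _) => e x ⟨hx.ge, hx.le⟩], ch_self]
    rfl
  rw [ent, h.I_log μ (h.cont μ N.zero_le le_rfl), e 0 N.zero_le]
  congr 1
  refine Finset.sum_congr rfl fun j hj => ?_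
  have hj := Finset.mem_range.1 hj
  rw [e j hj.le, h.I_ch μ j.zero_le j.le_succ hj le_rfl ((h.dk j hj).cont_log μ) fun U V e => by
    rw [h.ok j hj U V e], h.ch_one μ hj]
  rfl

theorem on_mg' (S : Set E) (F : (E → G) → ℝ) : On Sᶜ (mg μ S F) :=
  (on_mg μ (S' := Set.univ) fun _ _ e => congrArg F (funext fun x => e x trivial)).mono
    fun _ hx => hx.2

theorem chain_of (hp : Den μ p) (t : E → ℕ) (N : ℕ) :
    Chain μ t N (fun j => mg μ {e | 2 * j ≤ t e ∧ t e ≤ 2 * j + 2}ᶜ p)
      fun j => mg μ {e | t e ≠ 2 * j} p where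
  dk _ _ := hp.mg μ _
  ds _ _ := hp.mg μ _
  ok _ _ := (on_mg' μ _ p).mono (compl_compl _).le
  os _ _ := (on_mg' μ _ p).mono fun _ hx => not_not.1 hx
  lo j _ := by
    rw [mg_mg μ hp.cont, Set.union_eq_left.2]
    exact fun x hx (h : t x = _) => hx ⟨by omega, by omega⟩
  hi j _ := by
    rw [mg_mg μ hp.cont, Set.union_eq_left.2]
    · rfl
    · exact fun x hx (h : t x = _) => hx ⟨by omega, by omega⟩

theorem ent_le (hp : Den μ p) (t : E → ℕ) (N : ℕ) :
    ent μ (mg μ {e | t e ≠ 2 * 0} p) + ∑ j ∈ Finset.range N,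
      (ent μ (mg μ {e | 2 * j ≤ t e ∧ t e ≤ 2 * j + 2}ᶜ p) - ent μ (mg μ {e | t e ≠ 2 * j} p)) ≤
      ent μ p := by
  have e : ∀ S, I μ (fun U => p U * log (mg μ S p U)) = ent μ (mg μ S p) := fun S =>
    (I_mul_mg μ hp.cont ((hp.mg μ S).cont_log μ) fun U V e => by rw [on_mg' μ S p U V e]).symm
  have h := chain_of μ hp t N
  have := gibbs μ hp (h.den μ N.zero_le le_rfl)
  rw [h.I_log μ hp.cont] at this
  simpa only [e] using this

end Pool.Agent.Lib.MP_7f377f_mp.Dg
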