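import Mathlib

/-! Approximate DLR equations from small relative entropy: Gibbs variational inequality and a
martingale form of the Hoeffding bound on a finite product space. -/

namespace Pool.Agent.Lib.MP_7f377f_mp.LH

open MeasureTheory Function

/-- bounded and measurable -/
def BM {X : Type} [MeasurableSpace X] (f : X → ℝ) : Prop := Measurable f ∧ ∃ C, ∀ x, |f x| ≤ C

section bm
variable {X Y : Type} [MeasurableSpace X] [MeasurableSpace Y] {f g : X → ℝ}

theorem BM.int (h : BM f) (m : Measure X) [IsFiniteMeasure m] : Integrable f m := by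
  obtain ⟨hm, C, hC⟩ := h
  exact Integrable.of_bound hm.aestronglyMeasurable C (.of_forall hC)

theorem BM.const (c : ℝ) : BM fun _ : X => c := ⟨measurable_const, |c|, fun _ => le_rfl⟩

theorem BM.add (h : BM f) (h' : BM g) : BM fun x => f x + g x := by
  obtain ⟨hm, C, hC⟩ := h
  obtain ⟨hm', C', hC'⟩ := h'
  exact ⟨hm.add hm', C + C', fun x => (abs_add_le _ _).trans (add_le_add (hC x) (hC' x))⟩

theorem BM.mul (h : BM f) (h' : BM g) : BM fun x => f x * g x := by
  obtain ⟨hm, C, hC⟩ := h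
  obtain ⟨hm', C', hC'⟩ := h'
  refine ⟨hm.mul hm', C * C', fun x => ?_⟩
  rw [abs_mul]
  exact mul_le_mul (hC x) (hC' x) (abs_nonneg _) ((abs_nonneg _).trans (hC x))

theorem BM.neg (h : BM f) : BM fun x => -f x := by
  obtain ⟨hm, C, hC⟩ := h
  exact ⟨hm.neg, C, fun x => by rw [abs_neg]; exact hC x⟩

theorem BM.sub (h : BM f) (h' : BM g) : BM fun x => f x - g x := by
  simpa only [sub_eq_add_neg] using h.add h'.neg

theorem BM.exp (h : BM f) : BM fun x => Real.exp (f x) := by
  obtain ⟨hm, C, hC⟩ := h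
  refine ⟨hm.exp, Real.exp C, fun x => ?_⟩
  rw [abs_of_pos (Real.exp_pos _)]
  exact Real.exp_le_exp.2 (le_of_abs_le (hC x))

theorem BM.comp (h : BM f) {k : Y → X} (hk : Measurable k) : BM fun y => f (k y) := by
  obtain ⟨hm, C, hC⟩ := h
  exact ⟨hm.comp hk, C, fun y => hC _⟩

theorem BM.sum {ι : Type} (s : Finset ι) {F : ι → X → ℝ} (h : ∀ i ∈ s, BM (F i)) :
    BM fun x => ∑ i ∈ s, F i x := by
  classical
  induction s using Finset.induction_on with
  | empty => simpa using BM.const 0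
  | insert a s ha ih =>
    simp only [Finset.sum_insert ha]
    exact (h a (Finset.mem_insert_self _ _)).add (ih fun i hi => h i (Finset.mem_insert_of_mem hi))

theorem BM.of_cont [TopologicalSpace X] [CompactSpace X] [OpensMeasurableSpace X]
    (h : Continuous f) : BM f := by
  obtain ⟨C, hC⟩ := isCompact_univ.exists_bound_of_continuousOn h.continuousOn
  exact ⟨h.measurable, C, fun x => hC x trivial⟩

theorem BM.mul_log (h : BM f) : BM fun x => f x * Real.log (f x) := by
  obtain ⟨hm, C, hC⟩ := h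
  obtain ⟨D, hD⟩ := (isCompact_Icc (a := -C) (b := C)).exists_bound_of_continuousOn
    Real.continuous_mul_log.continuousOn
  exact ⟨hm.mul hm.log, D, fun x => hD _ (abs_le.1 (hC x))⟩

theorem int_exp_pos (m : Measure X) [IsProbabilityMeasure m] (h : BM f) :
    0 < ∫ x, Real.exp (f x) ∂m := integral_exp_pos (h.exp.int m)

/-- Gibbs variational inequality -/
theorem dv (m : Measure X) [IsProbabilityMeasure m] {ρ F : X → ℝ} (hρ : BM ρ) (h0 : ∀ x, 0 ≤ ρ x)
    (h1 : ∫ x, ρ x ∂m = 1) (hF : BM F) :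
    ∫ x, ρ x * F x ∂m ≤ ∫ x, ρ x * Real.log (ρ x) ∂m + Real.log (∫ x, Real.exp (F x) ∂m) := by
  have hZ := int_exp_pos m hF
  set Z := ∫ x, Real.exp (F x) ∂m with hZd
  have pt : ∀ x, ρ x * F x ≤ ρ x * Real.log (ρ x) + (ρ x * (Real.log Z - 1) +
      Z⁻¹ * Real.exp (F x)) := fun x => by
    rcases (h0 x).eq_or_lt with h | h
    · rw [← h]; simp only [zero_mul, zero_add]; positivity
    · have a := Real.add_one_le_exp (F x - Real.log (ρ x) - Real.log Z)
      rw [Real.exp_sub, Real.exp_sub, Real.exp_log h, Real.exp_log hZ] at a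
      have b := mul_le_mul_of_nonneg_left a h.le
      have c : ρ x * (Real.exp (F x) / ρ x / Z) = Z⁻¹ * Real.exp (F x) := by field_simp
      rw [c] at b; linarith
  have i1 := (hρ.mul (BM.const (Real.log Z - 1))).int m
  have i2 := ((BM.const Z⁻¹).mul hF.exp).int m
  have b3 := (hρ.mul (BM.const (Real.log Z - 1))).add ((BM.const Z⁻¹).mul hF.exp)
  have := integral_mono ((hρ.mul hF).int m) ((hρ.mul_log.add b3).int m) pt
  rw [integral_add (hρ.mul_log.int m) (b3.int m), integral_add i1 i2, integral_mul_const,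
    integral_const_mul, h1, ← hZd, inv_mul_cancel₀ hZ.ne'] at this
  linarith

theorem exp_le_lin {y a : ℝ} (h : |y| ≤ a) :
    Real.exp y ≤ Real.exp (a ^ 2 / 2) + Real.sinh a / a * y := by
  refine le_trans ?_ (add_le_add_left (Real.cosh_le_exp_half_sq a) _)
  rcases ((abs_nonneg y).trans h).eq_or_lt with ha | ha
  · have : y = 0 := abs_nonpos_iff.1 (ha ▸ h)
    rw [this, ← ha]; simp
  · obtain ⟨h1, h2⟩ := abs_le.1 h
    have := convexOn_exp.2 (Set.mem_univ a) (Set.mem_univ (-a))
      (show 0 ≤ (a + y) / (2 * a) from div_nonneg (by linarith) (by linarith))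
      (show 0 ≤ (a - y) / (2 * a) from div_nonneg (by linarith) (by linarith))
      (by field_simp; ring)
    simp only [smul_eq_mul] at this
    have e : (a + y) / (2 * a) * a + (a - y) / (2 * a) * -a = y := by field_simp; ring
    rw [e] at this
    refine this.trans (le_of_eq ?_)
    rw [Real.cosh_eq, Real.sinh_eq]; field_simp; ring

/-- one site Hoeffding bound for a weight `w` -/
theorem one_site (m : Measure X) [IsFiniteMeasure m] {ψ w : X → ℝ} {a : ℝ} (hψ : Measurable ψ)
    (ha : ∀ x, |ψ x| ≤ a) (hw : BM w) (h0 : ∀ x, 0 ≤ w x) (hk : ∫ x, ψ x * w x ∂m = 0) :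
    ∫ x, Real.exp (ψ x) * w x ∂m ≤ Real.exp (a ^ 2 / 2) * ∫ x, w x ∂m := by
  have hb : BM ψ := ⟨hψ, a, ha⟩
  have i1 := ((BM.const (Real.exp (a ^ 2 / 2))).mul hw).int m
  have i2 := ((BM.const (Real.sinh a / a)).mul (hb.mul hw)).int m
  have := integral_mono ((hb.exp.mul hw).int m) ((((BM.const (Real.exp (a ^ 2 / 2))).mul hw).add
      ((BM.const (Real.sinh a / a)).mul (hb.mul hw))).int m) fun x => by
    have := mul_le_mul_of_nonneg_right (exp_le_lin (ha x)) (h0 x)
    linarith
  rwa [integral_add i1 i2, integral_const_mul, integral_const_mul, hk, mul_zero, add_zero] at this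

end bm

variable {E G : Type} [Fintype E] [DecidableEq E] [MeasurableSpace G] (μ : Measure G)
  [IsProbabilityMeasure μ]

theorem mp_update (e : E) : MeasurePreserving (fun p : (E → G) × G => update p.1 e p.2)
    ((Measure.pi fun _ : E => μ).prod μ) (Measure.pi fun _ : E => μ) := by
  have hm : Measurable fun p : (E → G) × G => update p.1 e p.2 := measurable_update'
  refine ⟨hm, (Measure.pi_eq fun s hs => ?_).symm⟩
  rw [Measure.map_apply hm (MeasurableSet.univ_pi hs)]
  have : (fun p : (E → G) × G => update p.1 e p.2) ⁻¹' Set.univ.pi s =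
      Set.univ.pi (update s e Set.univ) ×ˢ s e := by
    ext ⟨U, g⟩
    simp only [Set.mem_preimage, Set.mem_pi, Set.mem_univ, forall_true_left, Set.mem_prod]
    constructor
    · refine fun h => ⟨fun i => ?_, by simpa using h e⟩
      by_cases hi : i = e
      · subst hi; simp
      · simpa [hi] using h i
    · intro h i
      by_cases hi : i = e
      · subst hi; simpa using h.2
      · simpa [hi] using h.1 i
  rw [this, Measure.prod_prod, Measure.pi_pi, ← Finset.mul_prod_erase _ _ (Finset.mem_univ e),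
    ← Finset.mul_prod_erase _ (fun i => μ (s i)) (Finset.mem_univ e), update_self, measure_univ,
    one_mul, mul_comm]
  congr 1
  exact Finset.prod_congr rfl fun i hi => by rw [update_of_ne (Finset.ne_of_mem_erase hi)]

theorem int_update (e : E) {f : (E → G) → ℝ} (hf : BM f) :
    ∫ U, f U ∂(Measure.pi fun _ : E => μ) =
      ∫ U, ∫ g, f (update U e g) ∂μ ∂(Measure.pi fun _ : E => μ) := by
  have h := mp_update μ e
  rw [← integral_prod _ ((hf.comp h.measurable).int _)]
  conv_lhs => rw [← h.map_eq]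
  exact integral_map h.measurable.aemeasurable hf.1.aestronglyMeasurable

theorem BM.marg (e : E) {f : (E → G) → ℝ} (hf : BM f) : BM fun U => ∫ g, f (update U e g) ∂μ := by
  obtain ⟨hm, C, hC⟩ := hf
  refine ⟨((hm.comp (mp_update μ e).measurable).stronglyMeasurable.integral_prod_right').measurable,
    C, fun U => ?_⟩
  simpa using norm_integral_le_of_norm_le_const (μ := μ) (f := fun g => f (update U e g)) (C := C)
    (.of_forall fun g => hC _)

/-- Hoeffding bound under the Gibbs weight `exp H`: every `ψ i` is killed by the one link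
conditional expectation at `e i` and the other `ψ j` do not see that link -/
theorem hoeff {ι : Type} (s : Finset ι) (e : ι → E) {H : (E → G) → ℝ} (hH : BM H)
    {ψ : ι → (E → G) → ℝ} {M : ℝ} (hm : ∀ i ∈ s, Measurable (ψ i))
    (hM : ∀ i ∈ s, ∀ U, |ψ i U| ≤ M)
    (hd : ∀ i ∈ s, ∀ j ∈ s, i ≠ j → ∀ U g, ψ j (update U (e i) g) = ψ j U)
    (hk : ∀ i ∈ s, ∀ U, ∫ g, ψ i (update U (e i) g) * Real.exp (H (update U (e i) g)) ∂μ = 0) :
    ∫ U, Real.exp (H U + ∑ i ∈ s, ψ i U) ∂(Measure.pi fun _ : E => μ) ≤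
      Real.exp (s.card * (M ^ 2 / 2)) * ∫ U, Real.exp (H U) ∂(Measure.pi fun _ : E => μ) := by
  classical
  induction s using Finset.induction_on with
  | empty => simp
  | insert a s ha ih =>
    have ia := Finset.mem_insert_self a s
    have ih := ih (fun i hi => hm i (Finset.mem_insert_of_mem hi))
      (fun i hi => hM i (Finset.mem_insert_of_mem hi))
      (fun i hi j hj => hd i (Finset.mem_insert_of_mem hi) j (Finset.mem_insert_of_mem hj))
      (fun i hi => hk i (Finset.mem_insert_of_mem hi))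
    have hS : BM fun U => ∑ i ∈ s, ψ i U := BM.sum s fun i hi =>
      ⟨hm i (Finset.mem_insert_of_mem hi), M, hM i (Finset.mem_insert_of_mem hi)⟩
    have hA : BM (ψ a) := ⟨hm a ia, M, hM a ia⟩
    have hW : BM fun U => Real.exp (H U + ∑ i ∈ s, ψ i U) := (hH.add hS).exp
    have e1 : ∀ U, Real.exp (H U + ∑ i ∈ insert a s, ψ i U) =
        Real.exp (ψ a U) * Real.exp (H U + ∑ i ∈ s, ψ i U) := fun U => by
      rw [Finset.sum_insert ha, ← Real.exp_add]; congr 1; ring
    simp only [e1]
    have step : ∫ U, Real.exp (ψ a U) * Real.exp (H U + ∑ i ∈ s, ψ i U)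
        ∂(Measure.pi fun _ : E => μ) ≤ Real.exp (M ^ 2 / 2) *
        ∫ U, Real.exp (H U + ∑ i ∈ s, ψ i U) ∂(Measure.pi fun _ : E => μ) := by
      rw [int_update μ (e a) (hA.exp.mul hW), int_update μ (e a) hW, ← integral_const_mul]
      refine integral_mono (((hA.exp.mul hW).marg μ (e a)).int _)
        (((BM.const _).mul (hW.marg μ (e a))).int _) fun U => ?_
      refine one_site μ (hA.1.comp (measurable_update U)) (fun g => hM a ia _)
        (hW.comp (measurable_update U)) (fun g => (Real.exp_pos _).le) ?_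
      have e2 : ∀ g, ψ a (update U (e a) g) * Real.exp (H (update U (e a) g) +
          ∑ i ∈ s, ψ i (update U (e a) g)) = ψ a (update U (e a) g) *
          Real.exp (H (update U (e a) g)) * Real.exp (∑ i ∈ s, ψ i U) := fun g => by
        rw [Real.exp_add, mul_assoc, Finset.sum_congr rfl fun i hi => hd a ia i
          (Finset.mem_insert_of_mem hi) (fun h => ha (h ▸ hi)) U g]
      simp only [e2]
      rw [integral_mul_const, hk a ia U, zero_mul]
    refine step.trans ((mul_le_mul_of_nonneg_left ih (Real.exp_pos _).le).trans (le_of_eq ?_))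
    rw [← mul_assoc, ← Real.exp_add, Finset.card_insert_of_notMem ha]
    push_cast; congr 2; ring

/-- relative entropy of the density `ρ` with respect to the Gibbs weight `exp H` -/
noncomputable def KL {X : Type} [MeasurableSpace X] (m : Measure X) (ρ H : X → ℝ) : ℝ :=
  ∫ x, ρ x * Real.log (ρ x) ∂m - ∫ x, ρ x * H x ∂m + Real.log (∫ x, Real.exp (H x) ∂m)

theorem KL_nonneg {X : Type} [MeasurableSpace X] (m : Measure X) [IsProbabilityMeasure m]
    {ρ H : X → ℝ} (hρ : BM ρ) (h0 : ∀ x, 0 ≤ ρ x) (h1 : ∫ x, ρ x ∂m = 1) (hH : BM H) :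
    0 ≤ KL m ρ H := by
  have := dv m hρ h0 h1 hH
  unfold KL; linarith

/-- approximate DLR equations on average -/
theorem adlr {ι : Type} (s : Finset ι) (e : ι → E) {H : (E → G) → ℝ} (hH : BM H)
    {ψ : ι → (E → G) → ℝ} {M : ℝ} (hm : ∀ i ∈ s, Measurable (ψ i))
    (hM : ∀ i ∈ s, ∀ U, |ψ i U| ≤ M)
    (hd : ∀ i ∈ s, ∀ j ∈ s, i ≠ j → ∀ U g, ψ j (update U (e i) g) = ψ j U)
    (hk : ∀ i ∈ s, ∀ U, ∫ g, ψ i (update U (e i) g) * Real.exp (H (update U (e i) g)) ∂μ = 0)
    {ρ : (E → G) → ℝ} (hρ : BM ρ) (h0 : ∀ U, 0 ≤ ρ U)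
    (h1 : ∫ U, ρ U ∂(Measure.pi fun _ : E => μ) = 1) {t : ℝ} (ht : 0 < t) :
    ∑ i ∈ s, |∫ U, ρ U * ψ i U ∂(Measure.pi fun _ : E => μ)| ≤
      KL (Measure.pi fun _ : E => μ) ρ H / t + s.card * (t * M ^ 2 / 2) := by
  set π := Measure.pi fun _ : E => μ
  let c : ι → ℝ := fun i => if 0 ≤ ∫ U, ρ U * ψ i U ∂π then t else -t
  have hc : ∀ i, |c i| = t := fun i => by
    simp only [c]; split_ifs <;> simp [abs_of_pos ht]
  have hb : ∀ i ∈ s, BM fun U => c i * ψ i U := fun i hi => (BM.const _).mul ⟨hm i hi, M, hM i hi⟩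
  have h := hoeff μ s e hH (ψ := fun i U => c i * ψ i U) (M := t * M) (fun i hi => (hb i hi).1)
    (fun i hi U => by rw [abs_mul, hc]; exact mul_le_mul_of_nonneg_left (hM i hi U) ht.le)
    (fun i hi j hj hij U g => by simp only [hd i hi j hj hij U g])
    (fun i hi U => by simp only [mul_assoc]; rw [integral_const_mul, hk i hi U, mul_zero])
  have hS := BM.sum s hb
  have d := dv π hρ h0 h1 (hH.add hS)
  have l := Real.log_le_log (int_exp_pos π (hH.add hS)) h
  rw [Real.log_mul (Real.exp_pos _).ne' (int_exp_pos π hH).ne', Real.log_exp] at l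
  have e1 : ∫ U, ρ U * (H U + ∑ i ∈ s, c i * ψ i U) ∂π =
      ∫ U, ρ U * H U ∂π + t * ∑ i ∈ s, |∫ U, ρ U * ψ i U ∂π| := by
    simp only [mul_add, Finset.mul_sum]
    rw [integral_add ((hρ.mul hH).int π) ((BM.sum s fun i hi => hρ.mul (hb i hi)).int π),
      integral_finsetSum _ fun i hi => (hρ.mul (hb i hi)).int π]
    congr 1
    refine Finset.sum_congr rfl fun i _ => ?_
    simp only [mul_left_comm _ (c i)]
    rw [integral_const_mul]
    simp only [c]
    split_ifs with h
    · rw [abs_of_nonneg h]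
    · rw [abs_of_neg (not_le.1 h)]; ring
  rw [e1] at d
  refine le_of_mul_le_mul_left ?_ ht
  have e2 : t * (KL π ρ H / t + s.card * (t * M ^ 2 / 2)) =
      KL π ρ H + s.card * ((t * M) ^ 2 / 2) := by field_simp
  rw [e2]; unfold KL; linarith

/-- the same with the optimal parameter: relative entropy at most `ε ^ 2` per index -/
theorem adlr' {ι : Type} (s : Finset ι) (e : ι → E) {H : (E → G) → ℝ} (hH : BM H)
    {ψ : ι → (E → G) → ℝ} {M : ℝ} (hm : ∀ i ∈ s, Measurable (ψ i))
    (hM : ∀ i ∈ s, ∀ U, |ψ i U| ≤ M)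
    (hd : ∀ i ∈ s, ∀ j ∈ s, i ≠ j → ∀ U g, ψ j (update U (e i) g) = ψ j U)
    (hk : ∀ i ∈ s, ∀ U, ∫ g, ψ i (update U (e i) g) * Real.exp (H (update U (e i) g)) ∂μ = 0)
    {ρ : (E → G) → ℝ} (hρ : BM ρ) (h0 : ∀ U, 0 ≤ ρ U)
    (h1 : ∫ U, ρ U ∂(Measure.pi fun _ : E => μ) = 1) {ε : ℝ} (hε : 0 < ε)
    (hK : KL (Measure.pi fun _ : E => μ) ρ H ≤ s.card * ε ^ 2) :
    ∑ i ∈ s, |∫ U, ρ U * ψ i U ∂(Measure.pi fun _ : E => μ)| ≤ s.card * (ε * (1 + M ^ 2 / 2)) := by
  refine (adlr μ s e hH hm hM hd hk hρ h0 h1 hε).trans ?_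
  have := div_le_div_of_nonneg_right hK hε.le
  have e : (s.card : ℝ) * ε ^ 2 / ε = s.card * ε := by field_simp
  rw [e] at this
  linarith

end Pool.Agent.Lib.MP_7f377f_mp.LH
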