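import Pool.Agent.Lib.MP_7f377f_mp.DgDefs
import Pool.Agent.Lib.MP_7f377f_mp.S10LH

/-! Approximate DLR equations for densities of small entropy relative to the Wilson measure. -/

noncomputable section

namespace Pool.Agent.Lib.MP_7f377f_mp.Dg

open Weak MeasureTheory Real Function

set_option linter.unusedSectionVars false

variable {A : Type} [NormedRing A] [StarRing A] [NormedAlgebra ℝ A] [HS A]
variable {G : Type} [Group G] [TopologicalSpace G] [IsTopologicalGroup G] [CompactSpace G]
  [SecondCountableTopology G] [MeasurableSpace G] [BorelSpace G]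
  (μ : Measure G) [μ.IsHaarMeasure] [IsProbabilityMeasure μ] {ρ : G →* unitary A}
  {E : Type} [Fintype E] {T : Type} [AddCommGroup T] [Fintype T]

namespace L4

/-- plaquette variable on the torus -/
def pq (w : Z4 →+ T) (U : T × Fin 4 → G) (z : T) (i j : Fin 4) : G :=
  U (z, i) * U (z + w (un i), j) * (U (z + w (un j), i))⁻¹ * (U (z, j))⁻¹

theorem zh_lf (w : Z4 →+ T) (x : T) (U : T × Fin 4 → G) (y : Z4) (i j : Fin 4) :
    zh (lf w x U) y i j = pq w U (x + w y) i j := by
  simp only [zh, lf, pq, map_add, add_assoc]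

theorem pq_self (w : Z4 →+ T) (U : T × Fin 4 → G) (z : T) (i : Fin 4) : pq w U z i i = 1 := by
  simp [pq]

theorem pq_swap (w : Z4 →+ T) (U : T × Fin 4 → G) (z : T) (i j : Fin 4) :
    pq w U z i j = (pq w U z j i)⁻¹ := by
  simp only [pq]; group

theorem sum_sym {D : Fin 4 → Fin 4 → ℝ} (k : Fin 4) (h1 : ∀ i j, D i j = D j i) (h2 : D k k = 0)
    (h3 : ∀ i j, i ≠ k → j ≠ k → D i j = 0) : ∑ i, ∑ j, D i j = 2 * ∑ j, D k j := by
  have e : ∀ i j, D i j = (if i = k then D k j else 0) + if j = k then D k i else 0 := by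
    intro i j
    split_ifs with a b b
    · rw [a, b, h2, add_zero]
    · rw [a, add_zero]
    · rw [b, h1, zero_add]
    · rw [h3 i j a b, add_zero]
  rw [Finset.sum_congr rfl fun i _ => Finset.sum_congr rfl fun j _ => e i j]
  simp only [Finset.sum_add_distrib, Finset.sum_ite_irrel, Finset.sum_const_zero,
    Finset.sum_ite_eq', Finset.mem_univ, if_true, two_mul]

/-- the action minus the terms through a link does not depend on that link -/
theorem aT_link (w : Z4 →+ T) (hw : ∀ j, w (un j) ≠ 0) (x : T) (e : ZL)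
    {U V : T × Fin 4 → G} (h : ∀ l, l ≠ (x + w e.1, e.2) → V l = U l) :
    aT ρ w V - lw ρ e (lf w x V) = aT ρ w U - lw ρ e (lf w x U) := by
  classical
  obtain ⟨y, k⟩ := e
  set a := x + w y with ha
  let D : T → Fin 4 → Fin 4 → ℝ := fun z i j => qq ρ (pq w V z i j) - qq ρ (pq w U z i j)
  have d0 : ∀ z i, D z i i = 0 := fun z i => by simp only [D, pq_self, sub_self]
  have h2 : ∀ z i, i ≠ k → V (z, i) = U (z, i) := fun z i hi =>
    h _ fun e => hi (congrArg Prod.snd e)
  have h1 : ∀ z i, z ≠ a → V (z, i) = U (z, i) := fun z i hi =>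
    h _ fun e => hi (congrArg Prod.fst e)
  have s1 : ∀ z, ∑ i, ∑ j, D z i j = 2 * ∑ j, D z k j := fun z =>
    sum_sym k (fun i j => by simp only [D]; rw [pq_swap w V, pq_swap w U, qq_inv, qq_inv])
      (d0 z k) fun i j hi hj => by simp only [D, pq, h2 _ i hi, h2 _ j hj, sub_self]
  have s2 : ∀ j, ∑ z, D z k j = D a k j + D (a - w (un j)) k j := fun j => by
    by_cases hj : j = k
    · simp only [hj, d0, Finset.sum_const_zero, add_zero]
    refine Finset.sum_eq_add_of_mem _ _ (Finset.mem_univ _) (Finset.mem_univ _)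
      (fun e => hw j (sub_eq_self.1 e.symm)) fun z _ hz => ?_
    simp only [D, pq, h2 _ j hj, h1 z k hz.1,
      h1 (z + w (un j)) k fun e => hz.2 (eq_sub_of_add_eq e), sub_self]
  have s3 : ∑ z, ∑ i, ∑ j, D z i j = 2 * ∑ j, (D a k j + D (a - w (un j)) k j) := by
    simp only [s1, ← Finset.mul_sum]
    rw [Finset.sum_comm]
    simp only [s2]
  simp only [D, Finset.sum_sub_distrib, Finset.sum_add_distrib] at s3
  simp only [aT, zd, lw, zh_lf, map_zero, add_zero, map_sub, ← add_sub_assoc, ← ha,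
    Finset.sum_add_distrib]
  linarith

theorem lw_on (e : ZL) : On {f : ZL | ∀ i, |f.1 i - e.1 i| ≤ 1} (lw ρ e) := by
  intro U V h
  have u : ∀ j i, |un j i| ≤ 1 ∧ 0 ≤ un j i := fun j i => by
    simp only [un, Pi.single_apply]
    split_ifs <;> simp
  have h0 : ∀ i, U (e.1, i) = V (e.1, i) := fun i => h _ fun l => by simp
  have h1 : ∀ j i, U (e.1 + un j, i) = V (e.1 + un j, i) := fun j i => h _ fun l => by
    simpa using (u j l).1
  have h2 : ∀ j i, U (e.1 - un j, i) = V (e.1 - un j, i) := fun j i => h _ fun l => by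
    simpa using (u j l).1
  have h3 : ∀ j k i, U (e.1 - un j + un k, i) = V (e.1 - un j + un k, i) := fun j k i =>
    h _ fun l => by
      have a := abs_le.1 (u j l).1
      have b := abs_le.1 (u k l).1
      have := (u j l).2
      have := (u k l).2
      simp only [Pi.add_apply, Pi.sub_apply, abs_le]
      omega
  simp only [lw, zh, h0, h1, h2, h3]

end L4

open L4

theorem dlr (hρ : Continuous ρ) (w : Z4 →+ T) (b : ℝ) {r : ℕ}
    (hw : ∀ y : Z4, (∀ i, |y i| ≤ 2 * r + 2) → w y = 0 → y = 0) {p : (T × Fin 4 → G) → ℝ}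
    (hp : Den μ p) {ψ : (ZL → G) → ℝ} (hψ : Continuous ψ) (hr : On (box r) ψ) {M : ℝ}
    (hM : ∀ U, |ψ U| ≤ M) {e : ZL} (he : e ∈ box r)
    (h0 : ∀ U, ∫ g, ψ (update U e g) * exp (-(b * lw ρ e (update U e g))) ∂μ = 0) (X : Finset T)
    (hX : ∀ x ∈ X, ∀ x' ∈ X, ∀ y : Z4, (∀ i, |y i| ≤ 2 * r) → x = x' + w y → x = x') {c : ℝ}
    (hc : ∀ x ∈ X, I μ (fun U => p U * ψ (lf w x U)) = c) {s : ℝ} (hs : 0 ≤ s) (_hsM : s * M ≤ 1) :
    s * X.card * |c| ≤ kl μ ρ w b p + s ^ 2 * M ^ 2 * X.card := by
  classical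
  have hH : LH.BM fun U : T × Fin 4 → G => -(b * aT ρ w U) :=
    .of_cont (continuous_const.mul (cont_aT hρ w)).neg
  have hP : LH.BM p := .of_cont hp.cont
  have eK : LH.KL (Measure.pi fun _ => μ) p (fun U => -(b * aT ρ w U)) = kl μ ρ w b p := by
    simp only [LH.KL, kl, ent, I, mul_neg, mul_left_comm _ b, integral_neg, integral_const_mul,
      sub_neg_eq_add]
  have d2 : ∀ f ∈ box r, ∀ i, |(f.1 - e.1) i| ≤ 2 * r := fun f hf i => by
    have a := abs_le.1 (hf i)
    have b := abs_le.1 (he i)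
    simp only [Pi.sub_apply, abs_le]
    omega
  have hu : ∀ j, w (un j) ≠ 0 := fun j h => by
    have := congrFun (hw (un j) (fun i => by
      simp only [un, Pi.single_apply]
      split_ifs <;> simp <;> omega) h) j
    simp [un] at this
  have up : ∀ x U (g : G) (f : ZL), (∀ i, |(f.1 - e.1) i| ≤ 2 * r + 2) →
      lf w x (update U (x + w e.1, e.2) g) f = update (lf w x U) e g f := fun x U g f hf => by
    by_cases h : f = e
    · rw [h, lf, update_self, update_self]
    · rw [lf, update_of_ne h, update_of_ne, lf]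
      intro q
      refine h (Prod.ext (sub_eq_zero.1 (hw _ hf ?_)) (Prod.ext_iff.1 q).2)
      rw [map_sub, sub_eq_zero]
      exact add_left_cancel (congrArg Prod.fst q)
  rcases hs.eq_or_lt with hs | hs
  · have := LH.KL_nonneg _ hP (fun U => (hp.pos U).le) hp.one hH
    rw [eK] at this
    simpa [← hs] using this
  have key := LH.adlr μ X (fun x => (x + w e.1, e.2)) hH (ψ := fun x U => ψ (lf w x U)) (M := M)
    (fun x _ => (hψ.comp (cont_lf w x)).measurable) (fun x _ U => hM _)
    (fun x hx x' hx' hn U g => hr _ _ fun f hf => update_of_ne (fun q => hn (hX x hx x' hx' _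
      (d2 f hf) (by
        rw [map_sub, ← add_sub_assoc, eq_sub_iff_add_eq]
        exact (congrArg Prod.fst q).symm))) _ _)
    (fun x _ U => ?_) hP (fun U => (hp.pos U).le) hp.one hs
  · unfold I at hc
    rw [eK, Finset.sum_congr rfl fun x hx => congrArg abs (hc x hx), Finset.sum_const,
      nsmul_eq_mul] at key
    have k2 := mul_le_mul_of_nonneg_left key hs.le
    rw [mul_add, mul_div_cancel₀ _ hs.ne'] at k2
    have : 0 ≤ s ^ 2 * M ^ 2 * X.card := by positivity
    nlinarith
  have e1 : ∀ g, ψ (lf w x (update U (x + w e.1, e.2) g)) *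
      exp (-(b * aT ρ w (update U (x + w e.1, e.2) g))) = ψ (update (lf w x U) e g) *
      exp (-(b * lw ρ e (update (lf w x U) e g))) *
      exp (-(b * (aT ρ w U - lw ρ e (lf w x U)))) := fun g => by
    rw [← aT_link w hu x e (V := update U (x + w e.1, e.2) g) fun l hl => update_of_ne hl _ _,
      hr _ _ fun f hf => up x U g f fun i => (d2 f hf i).trans (by omega),
      lw_on e (lf w x _) _ fun f hf => up x U g f fun i => (hf i).trans (by omega), mul_assoc,
      ← exp_add]
    congr 2
    ring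
  simp only [e1]
  rw [integral_mul_const, h0, zero_mul]

end Pool.Agent.Lib.MP_7f377f_mp.Dg
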