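import Pool.Agent.Lib.MP_7f377f_mp.DgKer

/-! Unique continuation for Gibbs states of lattice gauge fields. -/

noncomputable section

namespace Pool.Agent.Lib.MP_7f377f_mp.Dg

open Weak Coul MeasureTheory Real Function

set_option linter.unusedSectionVars false

variable {A : Type} [NormedRing A] [StarRing A] [NormedAlgebra ℝ A] [HS A]
variable {G : Type} [Group G] [TopologicalSpace G] [IsTopologicalGroup G] [CompactSpace G]
  [SecondCountableTopology G] [MeasurableSpace G] [BorelSpace G]
  (μ : Measure G) [μ.IsHaarMeasure] [IsProbabilityMeasure μ] {ρ : G →* unitary A}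

namespace UC

/-- membership of unbundled functions -/
def In (N : Submodule ℝ C(ZL → G, ℝ)) (F : (ZL → G) → ℝ) : Prop :=
  ∃ h : Continuous F, (⟨F, h⟩ : C(ZL → G, ℝ)) ∈ N

variable {N : Submodule ℝ C(ZL → G, ℝ)} {F H : (ZL → G) → ℝ}

theorem In.add (h : In N F) (h' : In N H) : In N fun U => F U + H U :=
  ⟨h.1.add h'.1, N.add_mem h.2 h'.2⟩

theorem In.congr (h : In N F) (e : ∀ U, F U = H U) : In N H := funext e ▸ h

theorem In.sum {n : ℕ} {f : Fin n → (ZL → G) → ℝ} (h : ∀ i, In N (f i)) :
    In N fun U => ∑ i, f i U := by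
  refine ⟨continuous_finsetSum _ fun i _ => (h i).1, ?_⟩
  have := N.sum_mem (t := Finset.univ) fun i _ => (h i).2
  have e : (⟨fun U => ∑ i, f i U, continuous_finsetSum _ fun i _ => (h i).1⟩ : C(ZL → G, ℝ)) =
      ∑ i, ⟨f i, (h i).1⟩ := by ext U; simp
  exact e ▸ this

theorem in_lim (hN : IsClosed (N : Set C(ZL → G, ℝ))) (hF : Continuous F)
    (h : ∀ ε > 0, ∃ H, In N H ∧ ∀ U, |F U - H U| ≤ ε) : In N F := by
  refine ⟨hF, hN.closure_subset (Metric.mem_closure_iff.2 fun ε hε => ?_)⟩
  obtain ⟨H, hH, e⟩ := h (ε / 2) (by positivity)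
  exact ⟨_, hH.2, ((ContinuousMap.dist_le (by positivity)).2 fun U => e U).trans_lt
    (half_lt_self hε)⟩

theorem in_int (hN : IsClosed (N : Set C(ZL → G, ℝ))) {c : G → (ZL → G) → ℝ}
    (hc : Continuous c.uncurry) (h : ∀ g, In N (c g)) : In N fun U => ∫ g, c g U ∂μ := by
  set k : C(G, C(ZL → G, ℝ)) := ContinuousMap.curry ⟨_, hc⟩
  have ik : Integrable k μ :=
    k.continuous.integrable_of_hasCompactSupport (HasCompactSupport.of_compactSpace _)
  have := N.convex.integral_mem hN (ae_of_all μ fun g => (h g).2) ik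
  exact In.congr ⟨(∫ g, k g ∂μ).continuous, this⟩ fun U => ContinuousMap.integral_apply ik U

theorem in_diag [T2Space G] (hN : IsClosed (N : Set C(ZL → G, ℝ))) {c : G → (ZL → G) → ℝ}
    (hc : Continuous c.uncurry) {V : (ZL → G) → G} (hV : Continuous V)
    (h : ∀ v (χ : C(G, ℝ)), In N fun U => χ (V U) * c v U) : In N fun U => c (V U) U := by
  set k : C(G, C(ZL → G, ℝ)) := ContinuousMap.curry ⟨_, hc⟩
  refine in_lim hN (hc.comp (hV.prodMk continuous_id)) fun ε hε => ?_
  obtain ⟨s, hs⟩ := isCompact_univ.elim_finite_subcover (fun v => k ⁻¹' Metric.ball (k v) ε)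
    (fun v => Metric.isOpen_ball.preimage k.continuous)
    fun v _ => Set.mem_iUnion.2 ⟨v, Metric.mem_ball_self hε⟩
  obtain ⟨f, f1, f2, f3, -⟩ := exists_continuous_sum_one_of_isOpen_isCompact
    (s := fun i => k ⁻¹' Metric.ball (k (s.equivFin.symm i)) ε)
    (fun v => Metric.isOpen_ball.preimage k.continuous) isCompact_univ fun v hv => by
      obtain ⟨x, hx, h'⟩ := Set.mem_iUnion₂.1 (hs hv)
      exact Set.mem_iUnion.2 ⟨s.equivFin ⟨x, hx⟩, by simpa using h'⟩
  refine ⟨_, In.sum fun i => h (s.equivFin.symm i) (f i), fun U => ?_⟩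
  have e : ∑ i, f i (V U) = 1 := by simpa using f2 (Set.mem_univ (V U))
  rw [← one_mul (c (V U) U), ← one_mul ε, ← e, Finset.sum_mul, Finset.sum_mul,
    ← Finset.sum_sub_distrib]
  refine (Finset.abs_sum_le_sum_abs _ _).trans (Finset.sum_le_sum fun i _ => ?_)
  rw [← mul_sub, abs_mul, abs_of_nonneg (f3 i _).1]
  by_cases h0 : f i (V U) = 0
  · simp [h0]
  · have := f1 i (subset_tsupport _ h0)
    exact mul_le_mul_of_nonneg_left ((ContinuousMap.dist_apply_le_dist (f := k (V U))
      (g := k (s.equivFin.symm i)) U).trans (le_of_lt this)) (f3 i _).1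

theorem on_upd {S : Set ZL} (h : On S F) (e : ZL) (g : G) : On S fun U => F (update U e g) :=
  fun U V h' => h _ _ fun l hl => by
    by_cases he : l = e
    · simp [he]
    · simp [he, h' l hl]

theorem cont_av (hF : Continuous F) (e : ZL) : Continuous fun U => ∫ g, F (update U e g) ∂μ :=
  cont_int μ (f := fun U g => F (update U e g))
    (hF.comp (continuous_fst.update e continuous_snd))

/-- links up to the slice at time `t` -/
def W (t r : ℕ) : Set ZL := {e | e ∈ ub r ∧ (e.1 0 < t ∨ (e.1 0 = t ∧ e.2 ≠ 0))}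

/-- links which start at a time `≤ t` -/
def W' (t r : ℕ) : Set ZL := {e | e ∈ ub r ∧ e.1 0 ≤ t}

theorem ub_fin (r : ℕ) : (ub r).Finite :=
  ((Set.Finite.pi' fun _ : Fin 4 => Set.finite_Icc (-r : ℤ) r).prod Set.finite_univ).subset
    fun _ h => ⟨fun i => abs_le.1 (h.1 i), trivial⟩

theorem ub_mono (r : ℕ) : ub r ⊆ ub (r + 1) := fun _ h =>
  ⟨fun i => (h.1 i).trans (by push_cast; omega), h.2⟩

include μ in
theorem dang (hN : IsClosed (N : Set C(ZL → G, ℝ)))
    (h2 : ∀ (r : ℕ) (k : Z4 → G) (ψ ψ' : C(ZL → G, ℝ)), On (ub r) ψ →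
      (∀ U, ψ' U = ψ (ga (AddMonoidHom.id Z4) k U)) → ψ' - ψ ∈ N) {t r : ℕ}
    (hP : ∀ F, Continuous F → On (W t r) F → In N F) {D : Set ZL} (hD : D.Finite) :
    (∀ d ∈ D, d ∈ ub r ∧ d.1 0 = t ∧ d.2 = 0) → ∀ F, Continuous F → On (W t r ∪ D) F → In N F := by
  have := haar_inv μ
  induction D, hD using Set.Finite.induction_on with
  | empty => exact fun _ F hF h => hP F hF (by simpa using h)
  | @insert d D hd _ ih =>
    intro hD F hF h
    obtain ⟨d1, d2, d3⟩ := hD d (Set.mem_insert _ _)
    have i1 := ih (fun l hl => hD l (Set.mem_insert_of_mem _ hl)) _ (cont_av μ hF d)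
      fun U V h' => congrArg (integral μ) (funext fun g => h _ _ fun l hl => by
        by_cases he : l = d
        · simp [he]
        · simp only [update_of_ne he]
          exact h' l (hl.imp id fun a => a.resolve_left he))
    have cc : Continuous fun q : G × (ZL → G) => F (update q.2 d (q.2 d * q.1⁻¹)) :=
      hF.comp (continuous_snd.update d (by fun_prop))
    have i2 := in_int μ hN (c := fun g U => F U - F (update U d (U d * g⁻¹)))
      ((hF.comp continuous_snd).sub cc) fun g => by
      have c1 : Continuous fun U : ZL → G => F (update U d (U d * g⁻¹)) :=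
        cc.comp (continuous_const.prodMk continuous_id)
      refine ⟨hF.sub c1, ?_⟩
      have := N.neg_mem (h2 r (update 1 (d.1 + un 0) g) ⟨F, hF⟩ ⟨_, c1⟩ (h.mono fun l hl =>
        hl.elim (fun a => a.1) fun a => (hD l a).1) fun U => h _ _ fun l hl => ?_)
      · rwa [neg_sub] at this
      have t1 : l.1 0 ≤ t ∧ (l.1 0 = t → l.2 = 0 → l ∈ insert d D) := by
        rcases hl with hl | hl
        · exact ⟨by rcases hl.2 with a | a <;> omega, fun a b => by
            rcases hl.2 with a' | a'
            · omega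
            · exact absurd b a'.2⟩
        · exact ⟨(hD l hl).2.1.le, fun _ _ => hl⟩
      have n1 : l.1 ≠ d.1 + un 0 := fun a => by
        have := congrFun a 0
        simp only [Pi.add_apply, un, Pi.single_eq_same] at this
        omega
      simp only [ga, AddMonoidHom.id_apply, update_of_ne n1, Pi.one_apply, one_mul]
      by_cases he : l = d
      · simp [he, d3]
      · have n2 : l.1 + un l.2 ≠ d.1 + un 0 := fun a => by
          by_cases h0 : l.2 = 0
          · rw [h0] at a
            exact he (Prod.ext (add_right_cancel a) (h0.trans d3.symm))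
          · have := congrFun a 0
            simp only [Pi.add_apply, un, Pi.single_eq_same, Pi.single_eq_of_ne (Ne.symm h0)] at this
            omega
        simp [update_of_ne n2, update_of_ne he]
    refine (i2.add i1).congr fun U => ?_
    have c2 : Continuous fun g => F (update U d g) := hF.comp (continuous_const.update d continuous_id)
    rw [integral_sub (integrable_const _) (cint _ (f := fun g => F (update U d (U d * g⁻¹)))
      (cc.comp (continuous_id.prodMk continuous_const))), ← int_mp ((measurePreserving_mul_left μ (U d)).comp (Measure.measurePreserving_inv μ)) c2]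
    simp

theorem top (hρ : Continuous ρ) (hi : Injective ρ) {b : ℝ} (hb : 0 < b)
    (hN : IsClosed (N : Set C(ZL → G, ℝ)))
    (h1 : ∀ (r : ℕ) (e : ZL) (ψ : C(ZL → G, ℝ)), e ∈ ub r → On (ub r) ψ →
      (∀ U, ∫ g, ψ (update U e g) * exp (-(b * lw ρ e (update U e g))) ∂μ = 0) → ψ ∈ N)
    {t : ℕ} (ht : 1 ≤ t) (hP : ∀ r F, Continuous F → On (W' t r) F → In N F) {D : Set ZL}
    (hD : D.Finite) : (∀ d ∈ D, d.1 0 = t + 1 ∧ d.2 ≠ 0) → ∀ r, D ⊆ ub r →
      ∀ F, Continuous F → On (W' t r ∪ D) F → In N F := by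
  have : T2Space G := .of_injective_continuous hi hρ
  induction D, hD using Set.Finite.induction_on with
  | empty => exact fun _ r _ F hF h => hP r F hF (by simpa using h)
  | @insert d D hd _ ih =>
    intro hD r hr F hF h
    obtain ⟨d1, d2⟩ := hD d (Set.mem_insert _ _)
    have db := fun j => abs_le.1 ((hr (Set.mem_insert _ _)).1 j)
    have IH := ih (fun l hl => hD l (Set.mem_insert_of_mem _ hl)) (r + 1)
      fun l hl => ub_mono r (hr (Set.mem_insert_of_mem _ hl))
    obtain ⟨y, i⟩ := d
    obtain ⟨x, rfl⟩ : ∃ x, y = x + un 0 := ⟨y - un 0, by simp⟩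
    simp only [Pi.add_apply, un, Pi.single_apply, if_true] at d1 d2 db
    have x0 : x 0 = t := by omega
    have xb : ∀ j, -(r : ℤ) ≤ x j ∧ x j ≤ r := fun j => by
      have := db j
      split_ifs at this with hj
      · rw [hj] at this ⊢; omega
      · omega
    have mW : ∀ (z : Z4) (j : Fin 4), (∀ l, |z l - x l| ≤ 1) → z 0 ≤ x 0 → (z, j) ∈ W' t (r + 1) :=
      fun z j a1 a2 => ⟨⟨fun l => by
        have := abs_le.1 (a1 l)
        have := xb l
        simp only [abs_le]
        push_cast
        omega, by have := abs_le.1 (a1 0); simp only; omega⟩, by simp only; omega⟩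
    set V : (ZL → G) → G := fun U => U (x, 0) * U (x + un 0, i) * (U (x + un i, 0))⁻¹ with hV
    have cV : Continuous V := by fun_prop
    set ls : (ZL → G) → ℝ := fun U => 2 * (∑ j ∈ Finset.univ.erase 0, qq ρ (zh U x i j) +
      ∑ j, qq ρ (zh U (x - un j) i j)) with hls
    have cl : Continuous ls := continuous_const.mul
      ((continuous_finsetSum _ fun _ _ => (continuous_qq ρ hρ).comp (cont_zh _ _ _)).add
        (continuous_finsetSum _ fun _ _ => (continuous_qq ρ hρ).comp (cont_zh _ _ _)))
    have el : ∀ U, lw ρ (x, i) U = ls U + 2 * qq ρ (U (x, i) * (V U)⁻¹) := fun U => by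
      have : zh U x i 0 = U (x, i) * (V U)⁻¹ := by simp only [zh, hV]; group
      simp only [lw, hls, Finset.sum_add_distrib]
      rw [← Finset.add_sum_erase _ _ (Finset.mem_univ 0), this]
      ring
    have m0 : ∀ j, (x, j) ∈ W' t (r + 1) := fun j => mW _ _ (by simp) le_rfl
    have m1 : ∀ l j, l ≠ 0 → (x + un l, j) ∈ W' t (r + 1) := fun l j hl => mW _ _ (fun a => by
      simp only [Pi.add_apply, un, Pi.single_apply]; split_ifs <;> simp) (by simp [un, hl.symm])
    have ol : On (W' t (r + 1)) ls := fun U U' h' => by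
      have m2 : ∀ l j, U (x - un l, j) = U' (x - un l, j) := fun l j => h' _ (mW _ _ (fun a => by
        simp only [Pi.sub_apply, un, Pi.single_apply]; split_ifs <;> simp) (by
        simp only [Pi.sub_apply, un, Pi.single_apply]; split_ifs <;> simp))
      have m3 : ∀ j, U (x - un j + un i, j) = U' (x - un j + un i, j) := fun j => h' _ (mW _ _
        (fun a => by
          simp only [Pi.sub_apply, Pi.add_apply, un, Pi.single_apply]; split_ifs <;> simp) (by
          simp only [Pi.sub_apply, Pi.add_apply, un, Pi.single_apply, if_neg (Ne.symm d2)]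
          split_ifs <;> simp))
      simp only [hls, zh, sub_add_cancel, m2, m3, h' _ (m0 _), h' _ (m1 i _ d2)]
      congr 2
      exact Finset.sum_congr rfl fun j hj => by rw [h' _ (m1 j _ (Finset.ne_of_mem_erase hj))]
    have n1 : ((x, 0) : ZL) ≠ (x, i) := fun a => d2 (congrArg Prod.snd a).symm
    have n2 : ((x + un i, 0) : ZL) ≠ (x, i) := fun a => d2 (congrArg Prod.snd a).symm
    have n3 : ((x + un 0, i) : ZL) ≠ (x, i) := fun a => by
      have := congrFun (congrArg Prod.fst a) 0
      simp [un] at this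
    have Vu : ∀ U g, V (update U (x, i) g) = V U := fun U g => by
      simp only [hV, update_of_ne n1, update_of_ne n2, update_of_ne n3]
    set S : Set ZL := W' t (r + 1) ∪ insert (x + un 0, i) D with hS
    have Su : S ⊆ ub (r + 1) := fun l hl => hl.elim (fun a => a.1) fun a => ub_mono r (hr a)
    have oF : On S F := h.mono fun l hl => hl.imp (fun a => ⟨ub_mono r a.1, a.2⟩) id
    have oV : On S V := fun U U' h' => by
      simp only [hV, h' _ (Or.inl (m0 0)), h' _ (Or.inl (m1 i 0 d2)),
        h' _ (Or.inr (Set.mem_insert _ _))]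
    set w : (ZL → G) → ℝ := fun U => exp (-(b * lw ρ (x, i) U)) with hw
    have cw : Continuous w := by have := cont_lw hρ (x, i); fun_prop
    have ow : On S w := fun U U' h' => by
      simp only [hw, el, ol U U' fun l hl => h' l (Or.inl hl), oV U U' h', h' _ (Or.inl (m0 i))]
    set Z : (ZL → G) → ℝ := fun U => ∫ g, w (update U (x, i) g) ∂μ with hZ
    have cZ : Continuous Z := cont_av μ cw _
    have cu : ∀ U : ZL → G, Continuous fun g => update U (x, i) g := fun U =>
      continuous_const.update _ continuous_id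
    have Z0 : ∀ U, 0 < Z U := fun U => integral_exp_pos (cint _ (cw.comp (cu U)))
    have oZ : On S Z := fun U U' h' => congrArg (integral μ) (funext fun g => on_upd ow _ g U U' h')
    have Zu : ∀ U g, Z (update U (x, i) g) = Z U := fun U g => by simp only [hZ, update_idem]
    have kill : ∀ P : (ZL → G) → ℝ, Continuous P → On S P →
        In N fun U => P U - (∫ g, P (update U (x, i) g) * w (update U (x, i) g) ∂μ) / Z U := by
      intro P cP oP
      have c1 := cont_av μ (F := fun U => P U * w U) (cP.mul cw) (x, i)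
      refine ⟨cP.sub (c1.div cZ fun U => (Z0 U).ne'), h1 (r + 1) (x, i) _ (m0 i).1
        (On.mono (S := S) (fun U U' h' => ?_) Su) fun U => ?_⟩
      · simp only [ContinuousMap.coe_mk, oP U U' h', oZ U U' h']
        congr 3
        funext g
        rw [show P (update U _ g) = _ from on_upd oP _ g U U' h',
          show w (update U _ g) = _ from on_upd ow _ g U U' h']
      · simp only [ContinuousMap.coe_mk, update_idem, Zu, sub_mul]
        rw [integral_sub, integral_const_mul]
        · exact sub_eq_zero.2 (div_mul_cancel₀ _ (Z0 U).ne').symm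
        · exact cint _ ((cP.mul cw).comp (cu U))
        · exact cint _ (continuous_const.mul (cw.comp (cu U)))
    set c : (ZL → G) → ℝ := fun U => ∫ g, F (update U (x, i) g) * w (update U (x, i) g) ∂μ with hc
    have cc : Continuous c := cont_av μ (F := fun U => F U * w U) (hF.mul cw) _
    have oc : On S c := fun U U' h' => congrArg (integral μ) (funext fun g => by
      rw [show F (update U _ g) = _ from on_upd oF _ g U U' h',
        show w (update U _ g) = _ from on_upd ow _ g U U' h'])
    set a : G → (ZL → G) → ℝ := fun v U =>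
      c (update U (x + un 0, i) ((U (x, 0))⁻¹ * v * U (x + un i, 0))) with ha
    have ca : Continuous a.uncurry := cc.comp (continuous_snd.update _ (by fun_prop))
    have ca' : ∀ v, Continuous (a v) := fun v => ca.comp (continuous_const.prodMk continuous_id)
    have oa : ∀ v, On (W' t (r + 1) ∪ D) (a v) := fun v U U' h' => oc _ _ fun l hl => by
      by_cases he : l = (x + un 0, i)
      · simp only [he, update_self, h' _ (Or.inl (m0 0)), h' _ (Or.inl (m1 i 0 d2))]
      · simp only [update_of_ne he]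
        exact h' l (hl.imp id fun a => a.resolve_left he)
    have au : ∀ v U g, a v (update U (x, i) g) = a v U := fun v U g => by
      simp only [ha, update_of_ne n1, update_of_ne n2]
      rw [update_comm n3.symm]
      simp only [hc, update_idem]
    have key := in_diag hN (c := fun v U => a v U / Z U)
      (ca.div (cZ.comp continuous_snd) fun q => (Z0 q.2).ne') cV fun v χ => by
      have c3 := (ca' v).div cZ fun U => (Z0 U).ne'
      obtain ⟨M, M0, hM⟩ : ∃ M : ℝ, 0 < M ∧ ∀ U, |a v U / Z U| ≤ M :=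
        ⟨‖(⟨_, c3⟩ : C(_, ℝ))‖ + 1, by positivity, fun U =>
          ((⟨_, c3⟩ : C(_, ℝ)).norm_coe_le_norm U).trans (by linarith)⟩
      refine in_lim hN ((χ.continuous.comp cV).mul c3) fun ε hε => ?_
      obtain ⟨u, hu⟩ := ker_dense μ hρ hi (β := 2 * b) (by positivity) χ (div_pos hε M0)
      have c4 : Continuous fun U => a v U * u (U (x, i)) * exp (b * ls U) := by
        have := ca' v; fun_prop
      have o4 : On (W' t (r + 1) ∪ D) fun U => a v U * u (U (x, i)) * exp (b * ls U) :=
        fun U U' h' => by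
          simp only [oa v U U' h', h' _ (Or.inl (m0 i)), ol U U' fun l hl => h' l (Or.inl hl)]
      have k1 := kill _ c4 (o4.mono fun l hl => hl.imp id (Set.mem_insert_of_mem _))
      have k2 := IH _ c4 o4
      refine ⟨_, ⟨k2.1.sub k1.1, N.sub_mem k2.2 k1.2⟩, fun U => ?_⟩
      have e : ∀ g, a v (update U (x, i) g) * u (update U (x, i) g (x, i)) *
          exp (b * ls (update U (x, i) g)) * w (update U (x, i) g) =
          a v U * (u g * exp (-(2 * b * qq ρ (g * (V U)⁻¹)))) := fun g => by
        simp only [hw, el, au, Vu, update_self, mul_assoc, ← exp_add]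
        congr 3
        ring
      simp only [Pi.sub_apply, e, integral_const_mul, sub_sub_cancel]
      rw [mul_div_right_comm, mul_comm (a v U / Z U), ← sub_mul, abs_mul]
      exact (mul_le_mul (hu _) (hM U) (abs_nonneg _) (by positivity)).trans_eq
        (div_mul_cancel₀ _ M0.ne')
    refine ((kill F hF oF).add key).congr fun U => ?_
    have : (U (x, 0))⁻¹ * V U * U (x + un i, 0) = U (x + un 0, i) := by simp only [hV]; group
    simp only [ha, this, update_eq_self, hc, sub_add_cancel]

end UC

open UC in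
theorem uc (hρ : Continuous ρ) (hi : Injective ρ) {b : ℝ} (hb : 0 < b)
    (N : Submodule ℝ C(ZL → G, ℝ)) (hN : IsClosed (N : Set C(ZL → G, ℝ)))
    (h1 : ∀ (r : ℕ) (e : ZL) (ψ : C(ZL → G, ℝ)), e ∈ ub r → On (ub r) ψ →
      (∀ U, ∫ g, ψ (update U e g) * exp (-(b * lw ρ e (update U e g))) ∂μ = 0) → ψ ∈ N)
    (h2 : ∀ (r : ℕ) (k : Z4 → G) (ψ ψ' : C(ZL → G, ℝ)), On (ub r) ψ →
      (∀ U, ψ' U = ψ (ga (AddMonoidHom.id Z4) k U)) → ψ' - ψ ∈ N)
    (h3 : ∀ (r : ℕ) (ψ : C(ZL → G, ℝ)), On (ub r ∩ slab) ψ → ψ ∈ N)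
    (r : ℕ) (φ : C(ZL → G, ℝ)) (hφ : On (ub r) φ) : φ ∈ N := by
  have P : ∀ t : ℕ, ∀ r F, Continuous F → On (W (t + 1) r) F → In N F := by
    intro t
    induction t with
    | zero =>
      refine fun r F hF h => ⟨hF, h3 r _ (h.mono fun l hl => ⟨hl.1, ?_⟩)⟩
      have := hl.1.2
      exact hl.2.imp (fun a => by omega) fun a => ⟨by exact_mod_cast a.1, a.2⟩
    | succ t ih =>
      have Q : ∀ r F, Continuous F → On (W' (t + 1) r) F → In N F := fun r F hF h =>
        dang μ hN h2 (ih r) (D := {d | d ∈ ub r ∧ d.1 0 = (t + 1 : ℕ) ∧ d.2 = 0})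
          ((ub_fin r).subset fun _ a => a.1) (fun _ a => a) F hF (h.mono fun l hl => by
            by_cases h0 : l.2 = 0
            · rcases hl.2.lt_or_eq with a | a
              · exact Or.inl ⟨hl.1, Or.inl a⟩
              · exact Or.inr ⟨hl.1, a, h0⟩
            · exact Or.inl ⟨hl.1, hl.2.lt_or_eq.imp id fun a => ⟨a, h0⟩⟩)
      refine fun r F hF h => top μ hρ hi hb hN h1 (Nat.le_add_left 1 t) Q
        (D := {d | d ∈ ub r ∧ d.1 0 = (t + 1 : ℕ) + 1 ∧ d.2 ≠ 0})
        ((ub_fin r).subset fun _ a => a.1) (fun _ a => a.2) r (fun _ a => a.1) F hF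
        (h.mono fun l hl => hl.2.imp (fun a => ⟨hl.1, by push_cast at a ⊢; omega⟩)
          fun a => ⟨hl.1, by exact_mod_cast a.1, a.2⟩)
  exact (P r r φ φ.continuous (hφ.mono fun l hl => ⟨hl, Or.inl (by
    have := abs_le.1 (hl.1 0)
    push_cast
    omega)⟩)).2

end Pool.Agent.Lib.MP_7f377f_mp.Dg
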