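import Pool.Agent.Lib.MP_7f377f_mp.DgQ
import Pool.Agent.Lib.MP_7f377f_mp.DgDLR
import Pool.Agent.Lib.MP_7f377f_mp.DgUC

/-! States of small relative entropy which are invariant under `e0 + e1` are almost invariant
under `2 e0`. -/

noncomputable section

namespace Pool.Agent.Lib.MP_7f377f_mp.Dg

open Weak MeasureTheory Real Function Filter Topology

set_option linter.unusedSectionVars false

variable {A : Type} [NormedRing A] [StarRing A] [NormedAlgebra ℝ A] [HS A]
variable {G : Type} [Group G] [TopologicalSpace G] [IsTopologicalGroup G] [CompactSpace G]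
  [SecondCountableTopology G] [MeasurableSpace G] [BorelSpace G]
  (μ : Measure G) [μ.IsHaarMeasure] [IsProbabilityMeasure μ] {ρ : G →* unitary A}
  {E : Type} [Fintype E] {T : Type} [AddCommGroup T] [Fintype T]

theorem I_abs {p F : (E → G) → ℝ} (hp : Den μ p) (hF : Continuous F) {M : ℝ}
    (hM : ∀ U, |F U| ≤ M) : |I μ fun U => p U * F U| ≤ M := by
  have c := hp.cont
  have h1 : I μ (fun U => p U * M) = M := by
    rw [I, integral_mul_const]
    change I μ p * M = M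
    rw [hp.one, one_mul]
  refine abs_integral_le_integral_abs.trans ((integral_mono (cint _ (by fun_prop))
    (cint _ (by fun_prop)) fun U => ?_).trans_eq h1)
  simp only [abs_mul, abs_of_pos (hp.pos U)]
  exact mul_le_mul_of_nonneg_left (hM U) (hp.pos U).le

theorem I_inv {p F : (T × Fin 4 → G) → ℝ} (hp : Continuous p) (hF : Continuous F) {a : T}
    (ha : ∀ U, p (sh a U) = p U) :
    I μ (fun U => p U * F (sh a U)) = I μ fun U => p U * F U := by
  rw [← I_sh μ a (F := fun U => p U * F U) (hp.mul hF)]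
  simp only [ha]

theorem pg_zero {n : ℕ} {y : Z4} (hy : ∀ i, |y i| < n) (h : pg n y = 0) : y = 0 := by
  funext i
  have e : ((y i : ℤ) : ZMod n) = 0 := congrFun (congrArg Prod.fst h) i
  exact Int.eq_zero_of_abs_lt_dvd ((ZMod.intCast_zmod_eq_zero_iff_dvd _ _).1 e) (hy i)

/-- a grid of well separated sites -/
theorem grid (n : ℕ) [NeZero n] {L : ℕ} (hL : 0 < L) : ∃ X : Finset (Gm n), X.card = (n / L) ^ 4 ∧
    (∀ x ∈ X, ∃ k : Fin 4 → ℕ, (∀ j, (k j + 1) * L ≤ n) ∧ x = pg n fun j => (L * k j : ℕ)) ∧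
    ∀ x ∈ X, ∀ x' ∈ X, ∀ y : Z4, (∀ i, |y i| < L) → x = x' + pg n y → x = x' := by
  classical
  have hk : ∀ a : Fin (n / L), ((a : ℕ) + 1) * L ≤ n := fun a =>
    (Nat.mul_le_mul_right L a.2).trans (Nat.div_mul_le_self n L)
  have key : ∀ (k k' : Fin 4 → Fin (n / L)) (y : Z4), (∀ i, |y i| < L) →
      pg n (fun j => (L * k j : ℕ)) = pg n (fun j => (L * k' j : ℕ)) + pg n y → k = k' := by
    intro k k' y hy h
    have h0 : pg n ((fun j => ((L * k j : ℕ) : ℤ)) - (fun j => ((L * k' j : ℕ) : ℤ)) - y) = 0 := by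
      rw [map_sub, map_sub, h]; abel
    have h1 := pg_zero (fun i => by
      have a1 : (((k i : ℕ) : ℤ) + 1) * L ≤ n := by exact_mod_cast hk (k i)
      have a2 : (((k' i : ℕ) : ℤ) + 1) * L ≤ n := by exact_mod_cast hk (k' i)
      have a3 := abs_lt.1 (hy i)
      have a4 : (0 : ℤ) ≤ L * (k i : ℕ) := by positivity
      have a5 : (0 : ℤ) ≤ L * (k' i : ℕ) := by positivity
      simp only [Pi.sub_apply]
      push_cast
      rw [abs_lt]
      constructor <;> nlinarith) h0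
    funext i
    have e := congrFun h1 i
    simp only [Pi.sub_apply, Pi.zero_apply] at e
    push_cast at e
    have a3 := hy i
    have d : (L : ℤ) ∣ y i := ⟨(k i : ℕ) - (k' i : ℕ), by linarith⟩
    have y0 := Int.eq_zero_of_abs_lt_dvd d a3
    have l0 : (L : ℤ) ≠ 0 := by exact_mod_cast hL.ne'
    have : ((k i : ℕ) : ℤ) = (k' i : ℕ) := mul_left_cancel₀ l0 (by linarith)
    exact Fin.ext (by exact_mod_cast this)
  refine ⟨Finset.univ.image fun k : Fin 4 → Fin (n / L) => pg n fun j => (L * k j : ℕ), ?_, ?_, ?_⟩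
  · rw [Finset.card_image_of_injective _ fun k k' h => key k k' 0 (fun _ => by simpa using hL)
      (by rw [map_zero, add_zero]; exact h)]
    simp
  · intro x hx
    obtain ⟨k, -, rfl⟩ := Finset.mem_image.1 hx
    exact ⟨fun j => k j, fun j => hk _, rfl⟩
  · intro x hx x' hx' y hy h
    obtain ⟨k, -, rfl⟩ := Finset.mem_image.1 hx
    obtain ⟨k', -, rfl⟩ := Finset.mem_image.1 hx'
    rw [key k k' y hy h]

variable {ι : Type} {Φ : Filter ι} {n : ι → ℕ} [∀ i, NeZero (n i)]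

theorem small (hρ : Continuous ρ) (b : ℝ) (hn : Tendsto n Φ atTop)
    {p : ∀ i, (Gm (n i) × Fin 4 → G) → ℝ} (hp : ∀ i, Den μ (p i))
    (hk : ∀ η > 0, ∀ᶠ i in Φ, kl μ ρ (pg (n i)) b (p i) ≤ η * n i ^ 4) {r L : ℕ} (hL : 2 * r < L)
    {ψ : (ZL → G) → ℝ} (hψ : Continuous ψ) (hr : On (box r) ψ) {e : ZL} (he : e ∈ box r)
    (h0 : ∀ U, ∫ g, ψ (update U e g) * exp (-(b * lw ρ e (update U e g))) ∂μ = 0)
    (hi : ∀ i (k : Fin 4 → ℕ), (∀ j, (k j + 1) * L ≤ n i) →
      I μ (fun U => p i U * ψ (lf (pg (n i)) (pg (n i) fun j => (L * k j : ℕ)) U)) =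
        I μ fun U => p i U * ψ (lf (pg (n i)) 0 U)) :
    Tendsto (fun i => I μ fun U => p i U * ψ (lf (pg (n i)) 0 U)) Φ (𝓝 0) := by
  obtain ⟨M, M0, hM⟩ : ∃ M : ℝ, 0 < M ∧ ∀ U, |ψ U| ≤ M :=
    ⟨‖(⟨ψ, hψ⟩ : C(_, ℝ))‖ + 1, by positivity, fun U =>
      ((⟨ψ, hψ⟩ : C(_, ℝ)).norm_coe_le_norm U).trans (by linarith)⟩
  rw [Metric.tendsto_nhds]
  intro ε hε
  have L0 : 0 < L := by omega
  have L1 : (0 : ℝ) < L := by exact_mod_cast L0
  obtain ⟨s, s0, s1, s2⟩ : ∃ s : ℝ, 0 < s ∧ s * M ≤ 1 ∧ s * M ^ 2 ≤ ε / 3 := by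
    refine ⟨min M⁻¹ (ε / 3 / M ^ 2), by positivity, ?_, ?_⟩
    · exact (mul_le_mul_of_nonneg_right (min_le_left _ _) M0.le).trans_eq (inv_mul_cancel₀ M0.ne')
    · exact (mul_le_mul_of_nonneg_right (min_le_right _ _) (by positivity)).trans_eq
        (div_mul_cancel₀ _ (by positivity))
  filter_upwards [hk (s * (ε / 3) / (2 * L) ^ 4) (by positivity),
    hn.eventually_ge_atTop (L + 2 * r + 3)] with i h1 h2
  obtain ⟨X, hc, hx, hs⟩ := grid (n i) L0
  have key := dlr μ hρ (pg (n i)) b (r := r) (fun y hy => pg_zero fun j => (hy j).trans_lt (by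
      exact_mod_cast (show 2 * r + 2 < n i by omega))) (hp i) hψ hr hM he h0 X
    (fun x h x' h' y hy => hs x h x' h' y fun j => (hy j).trans_lt (by exact_mod_cast hL))
    (c := I μ fun U => p i U * ψ (lf (pg (n i)) 0 U)) (fun x h => by
      obtain ⟨k, h3, rfl⟩ := hx x h
      exact hi i k h3) s0.le s1
  have q0 : 0 < n i / L := Nat.div_pos (by omega) L0
  have q1 : n i ≤ 2 * L * (n i / L) := by
    have := Nat.lt_div_mul_add (a := n i) L0
    nlinarith
  have q2 : (n i : ℝ) ^ 4 ≤ (2 * L) ^ 4 * X.card := by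
    rw [hc]
    exact_mod_cast (Nat.pow_le_pow_left q1 4).trans_eq (mul_pow _ _ _)
  have c0 : (0 : ℝ) < X.card := by rw [hc]; positivity
  have q3 : s * (ε / 3) / (2 * L) ^ 4 * (n i : ℝ) ^ 4 ≤ s * (ε / 3) * X.card := by
    refine (mul_le_mul_of_nonneg_left q2 (by positivity)).trans_eq ?_
    field_simp
  rw [Real.dist_eq, sub_zero]
  have q4 : s ^ 2 * M ^ 2 * X.card ≤ s * (ε / 3) * X.card := by
    refine mul_le_mul_of_nonneg_right ?_ c0.le
    nlinarith
  have q5 : s * X.card * |I μ fun U => p i U * ψ (lf (pg (n i)) 0 U)| ≤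
      s * X.card * (2 * (ε / 3)) := by linarith
  have := le_of_mul_le_mul_left q5 (by positivity)
  linarith

theorem ub_box (r : ℕ) : ub r ⊆ box r := fun _ h => h.1

theorem on_lf {S : Set ZL} {S' : Set (T × Fin 4)} {ψ : (ZL → G) → ℝ} (h : On S ψ) (w : Z4 →+ T)
    (x : T) (hS : ∀ e ∈ S, (x + w e.1, e.2) ∈ S') : On S' fun U => ψ (lf w x U) :=
  fun _ _ h' => h _ _ fun e he => h' _ (hS e he)

theorem val_pg {n : ℕ} [NeZero n] {y : Z4} (h0 : 0 ≤ y 0) (h1 : y 0 < n) :
    ((((0 + pg n y).1 0).val : ℕ) : ℤ) = y 0 := by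
  rw [zero_add]
  change ((((y 0 : ℤ) : ZMod n).val : ℕ) : ℤ) = y 0
  rw [ZMod.val_intCast, Int.emod_eq_of_lt h0 h1]

theorem on_time {n : ℕ} [NeZero n] {r : ℕ} (hr : r < n) {ψ : (ZL → G) → ℝ} (h : On (ub r) ψ) :
    On {e : Gm n × Fin 4 | (e.1.1 0).val ≤ r} fun U => ψ (lf (pg n) 0 U) :=
  on_lf h _ _ fun e he => by
    have h1 := (abs_le.1 (he.1 0)).2
    have h2 := val_pg (n := n) he.2 (by omega)
    change ((0 + pg n e.1).1 0).val ≤ r
    omega

theorem I_gauge {n : ℕ} [NeZero n] {r : ℕ} (hr : 2 * r + 2 < n) {p : (Gm n × Fin 4 → G) → ℝ}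
    (hp : Continuous p) (hg : ∀ k U, p (ga (pg n) k U) = p U) {ψ : (ZL → G) → ℝ}
    (hψ : Continuous ψ) (h : On (box r) ψ) (k : Z4 → G) :
    I μ (fun U => p U * ψ (ga (AddMonoidHom.id Z4) k (lf (pg n) 0 U))) =
      I μ fun U => p U * ψ (lf (pg n) 0 U) := by
  classical
  obtain ⟨k', hk⟩ : ∃ k' : Gm n → G, ∀ y : Z4, (∀ j, |y j| ≤ r + 1) → k' (0 + pg n y) = k y := by
    refine ⟨fun x => if h : ∃ y : Z4, (∀ j, |y j| ≤ r + 1) ∧ 0 + pg n y = x then k h.choose else 1,
      fun y hy => ?_⟩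
    have e : ∃ z : Z4, (∀ j, |z j| ≤ r + 1) ∧ 0 + pg n z = 0 + pg n y := ⟨y, hy, rfl⟩
    beta_reduce
    rw [dif_pos e]
    congr 1
    refine sub_eq_zero.1 (pg_zero (n := n) (fun j => ?_) ?_)
    · have a1 := abs_le.1 (e.choose_spec.1 j)
      have a2 := abs_le.1 (hy j)
      rw [Pi.sub_apply, abs_lt]
      constructor <;> omega
    · rw [map_sub, add_left_cancel e.choose_spec.2, sub_self]
  rw [← I_ga μ (pg n) k' (F := fun U => p U * ψ (lf (pg n) 0 U)) (hp.mul (hψ.comp (cont_lf _ _)))]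
  congr 1
  funext U
  simp only [hg, lf_ga]
  congr 1
  refine h _ _ fun e he => ?_
  simp only [ga, AddMonoidHom.id_apply]
  rw [hk _ fun j => (he j).trans (by omega), hk _ fun j => ?_]
  have := abs_le.1 (he j)
  rw [Pi.add_apply, un, Pi.single_apply, abs_le]
  split_ifs <;> constructor <;> omega

theorem core (hρ : Continuous ρ) (hi : Injective ρ) {b : ℝ} (hb : 0 < b) (hn : Tendsto n Φ atTop)
    (h3 : ∀ i, 3 ≤ n i) {p : ∀ i, (Gm (n i) × Fin 4 → G) → ℝ} (hp : ∀ i, Den μ (p i))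
    (hk : ∀ η > 0, ∀ᶠ i in Φ, kl μ ρ (pg (n i)) b (p i) ≤ η * n i ^ 4) {L : ℕ} (hL : 0 < L)
    (hd : ∀ i U, p i (sh (pg (n i) (un 0 + un 1)) U) = p i U)
    (hs : ∀ i (y : Z4), (∀ j, (L : ℤ) ∣ y j) → ∀ U, p i (sh (pg (n i) y) U) = p i U)
    (hg : ∀ i k U, p i (ga (pg (n i)) k U) = p i U) {r : ℕ} {φ : (ZL → G) → ℝ}
    (hφ : Continuous φ) (hr : On (ub r) φ) (c : ℕ) :
    Tendsto (fun i => I μ (fun U => p i U * φ (sh ((2 * c : ℤ) • un 0) (lf (pg (n i)) 0 U))) -
      I μ fun U => p i U * φ (lf (pg (n i)) 0 U)) Φ (𝓝 0) := by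
  obtain ⟨C, hC⟩ := exists_q μ hρ
  choose q dq q1 q2 q3 q4 q5 q6 using fun i => hC (n i) (h3 i) (p i) (hp i) (hd i)
  have cl : ∀ (i) (ψ : C(ZL → G, ℝ)), Continuous fun U => ψ (lf (pg (n i)) 0 U) := fun i ψ =>
    ψ.continuous.comp (cont_lf _ _)
  have kq : ∀ η > 0, ∀ᶠ i in Φ, kl μ ρ (pg (n i)) b (q i) ≤ η * n i ^ 4 := by
    intro η hη
    filter_upwards [hk (η / 2) (by positivity), (tendsto_natCast_atTop_atTop.comp
      hn).eventually_ge_atTop (b * C / (η / 2))] with i h1 h2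
    have h4 : b * C ≤ n i * (η / 2) := (div_le_iff₀ (by positivity)).1 h2
    have h5 := mul_le_mul_of_nonneg_left (q2 i) hb.le
    have h6 := mul_le_mul_of_nonneg_right h4 (show (0 : ℝ) ≤ n i ^ 3 by positivity)
    have h7 := q1 i
    unfold kl at h1 ⊢
    nlinarith
  set D : ∀ i, C(ZL → G, ℝ) → ℝ := fun i ψ => I μ (fun U => p i U * ψ (lf (pg (n i)) 0 U)) -
    I μ fun U => q i U * ψ (lf (pg (n i)) 0 U) with hD
  have Da : ∀ i ψ ψ', D i (ψ + ψ') = D i ψ + D i ψ' := by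
    intro i ψ ψ'
    simp only [hD, I, ContinuousMap.add_apply, mul_add]
    rw [integral_add, integral_add]
    · ring
    · exact cint _ ((dq i).cont.mul (cl i ψ))
    · exact cint _ ((dq i).cont.mul (cl i ψ'))
    · exact cint _ ((hp i).cont.mul (cl i ψ))
    · exact cint _ ((hp i).cont.mul (cl i ψ'))
  have Ds : ∀ i (a : ℝ) ψ, D i (a • ψ) = a * D i ψ := by
    intro i a ψ
    simp only [hD, I, ContinuousMap.smul_apply, smul_eq_mul, mul_left_comm _ a, integral_const_mul]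
    ring
  have Db : ∀ i ψ, |D i ψ| ≤ 2 * ‖ψ‖ := fun i ψ => (abs_sub _ _).trans (by
    have h1 := I_abs μ (hp i) (cl i ψ) fun U => ψ.norm_coe_le_norm _
    have h2 := I_abs μ (dq i) (cl i ψ) fun U => ψ.norm_coe_le_norm _
    linarith)
  let N : Submodule ℝ C(ZL → G, ℝ) :=
    { carrier := {ψ | Tendsto (fun i => D i ψ) Φ (𝓝 0)}
      add_mem' := fun {ψ ψ'} h h' => by
        simpa only [Set.mem_ofPred_eq, Da, add_zero] using Tendsto.add h h'
      zero_mem' := by
        have : ∀ i, D i 0 = 0 := fun i => by simpa using Ds i 0 0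
        simpa only [Set.mem_ofPred_eq, this] using tendsto_const_nhds
      smul_mem' := fun a ψ h => by
        simpa only [Set.mem_ofPred_eq, Ds, mul_zero] using Tendsto.const_mul a h }
  have hN : IsClosed (N : Set C(ZL → G, ℝ)) := by
    refine isClosed_of_closure_subset fun ψ h => ?_
    refine Metric.tendsto_nhds.2 fun ε hε => ?_
    obtain ⟨ψ', h1, h2⟩ := Metric.mem_closure_iff.1 h (ε / 4) (by positivity)
    filter_upwards [Metric.tendsto_nhds.1 h1 (ε / 2) (by positivity)] with i h4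
    have e : D i ψ = D i (ψ - ψ') + D i ψ' := by rw [← Da, sub_add_cancel]
    have h5 := Db i (ψ - ψ')
    rw [dist_eq_norm] at h2
    rw [Real.dist_eq, sub_zero] at h4 ⊢
    rw [e]
    linarith [abs_add_le (D i (ψ - ψ')) (D i ψ')]
  have all := uc μ hρ hi hb N hN (fun r e ψ he h h0 => ?_) (fun r k ψ ψ' h h' => ?_)
    fun r ψ h => ?_
  · have c1 : Continuous fun U => φ (sh ((2 * c : ℤ) • un 0) U) := hφ.comp (cont_sh _)
    have t1 := all r ⟨φ, hφ⟩ hr
    have t2 := all (r + 2 * c) ⟨_, c1⟩ fun U V h => hr _ _ fun e he => h _ ⟨fun j => by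
      have := abs_le.1 (he.1 j)
      simp only [Pi.add_apply, Pi.smul_apply, un, Pi.single_apply, smul_eq_mul, abs_le]
      push_cast
      split_ifs <;> constructor <;> omega, by
      have := he.2
      simp only [Pi.add_apply, Pi.smul_apply, un, Pi.single_eq_same, smul_eq_mul]
      omega⟩
    have t3 := Tendsto.sub t2 t1
    rw [sub_zero] at t3
    refine t3.congr' ?_
    filter_upwards [hn.eventually_ge_atTop (r + 2 * c + 2)] with i h
    have e := q6 i r c _ (cl i ⟨φ, hφ⟩) (on_time (by omega) hr) h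
    simp only [hD, ContinuousMap.coe_mk, lf_sh, sh_lf] at e ⊢
    rw [e]
    ring
  · have L1 : 2 * r < L * (2 * r + 2) := by nlinarith
    have dv : ∀ k : ℕ, (L : ℤ) ∣ (L * (2 * r + 2) * k : ℕ) := fun k => by
      exact_mod_cast (dvd_mul_right _ _).mul_right _
    have t1 := small μ hρ b hn hp hk L1 ψ.continuous (h.mono (ub_box r)) he.1 h0 fun i k _ => by
      rw [← I_inv μ (hp i).cont (cl i ψ) (hs i (fun j => (L * (2 * r + 2) * k j : ℕ))
        fun j => dv _)]
      simp only [lf_sh, zero_add]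
    have t2 := small μ hρ b hn dq kq L1 ψ.continuous (h.mono (ub_box r)) he.1 h0 fun i k hk => by
      have h7 : (k 0 + 1) * (L * (2 * r + 2)) ≤ n i := hk 0
      have h8 : r + 2 * (L * (r + 1) * k 0) + 2 ≤ n i := by nlinarith
      have e := q6 i r (L * (r + 1) * k 0) _ (cl i ψ) (on_time (by omega) h) h8
      set y : Z4 := update (fun j => ((L * (2 * r + 2) * k j : ℕ) : ℤ)) 0 0 with hy
      have e2 := I_inv μ (dq i).cont ((cl i ψ).comp (cont_sh
        (pg (n i) ((2 * (L * (r + 1) * k 0 : ℕ) : ℤ) • un 0)))) (q4 i (pg (n i) y)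
          (by change ((y 0 : ℤ) : ZMod (n i)) = 0; simp [hy]) (hs i y fun j => by
            rw [hy, update_apply]
            split_ifs
            · exact dvd_zero _
            · exact dv _))
      simp only [comp, lf_sh, zero_add, ← map_add] at e e2
      have e3 : (2 * (L * (r + 1) * k 0 : ℕ) : ℤ) • un 0 + y =
          fun j => ((L * (2 * r + 2) * k j : ℕ) : ℤ) := by
        funext j
        simp only [hy, Pi.add_apply, Pi.smul_apply, un, Pi.single_apply, smul_eq_mul, update_apply]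
        split_ifs with hj
        · rw [hj]; push_cast; ring
        · ring
      rw [← e, ← e2, e3]
    have t3 := t1.sub t2
    rwa [sub_zero] at t3
  · refine tendsto_const_nhds.congr' ?_
    filter_upwards [hn.eventually_gt_atTop (2 * r + 2)] with i hi
    have e1 := I_gauge μ hi (hp i).cont (hg i) ψ.continuous (h.mono (ub_box r)) k
    have e2 := I_gauge μ hi (dq i).cont (q5 i (hg i)) ψ.continuous (h.mono (ub_box r)) k
    have e3 : D i ψ' = D i ψ := by simp only [hD, h', e1, e2]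
    have e4 : D i ψ' = D i (ψ' - ψ) + D i ψ := by rw [← Da, sub_add_cancel]
    linarith
  · refine tendsto_const_nhds.congr fun i => ?_
    have := h3 i
    refine (sub_eq_zero.2 (q3 i _ (cl i ψ) (on_lf h _ _ fun e he => ?_)).symm).symm
    change ((0 + pg (n i) e.1).1 0).val = 0 ∨ (((0 + pg (n i) e.1).1 0).val = 1 ∧ e.2 ≠ 0)
    rcases he.2 with h1 | h1
    · have := val_pg (n := n i) (y := e.1) (by omega) (by omega)
      exact Or.inl (by omega)
    · have := val_pg (n := n i) (y := e.1) (by omega) (by omega)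
      exact Or.inr ⟨by omega, h1.2⟩

end Pool.Agent.Lib.MP_7f377f_mp.Dg
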