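import Pool.Agent.Lib.MP_7f377f_mp.OddRP

/-! Diagonal reflection positivity of large tori: definitions. -/

noncomputable section

namespace Pool.Agent.Lib.MP_7f377f_mp.Dg

open Weak MeasureTheory Real

set_option linter.unusedSectionVars false

abbrev Z4 := Fin 4 → ℤ
abbrev ZL := Z4 × Fin 4

/-- functions of the variables in `S` -/
def On {E G α : Type} (S : Set E) (F : (E → G) → α) : Prop :=
  ∀ U V, (∀ e ∈ S, U e = V e) → F U = F V

theorem On.mono {E G α : Type} {S S' : Set E} {F : (E → G) → α} (h : On S F) (hS : S ⊆ S') :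
    On S' F := fun U V h' => h U V fun e he => h' e (hS he)

/-- links which start in a cube -/
def box (r : ℕ) : Set ZL := {e | ∀ i, |e.1 i| ≤ r}

/-- links which start in a cube at a time which is not negative -/
def ub (r : ℕ) : Set ZL := {e | (∀ i, |e.1 i| ≤ r) ∧ 0 ≤ e.1 0}

/-- links between the times `0` and `1` -/
def slab : Set ZL := {e | e.1 0 = 0 ∨ (e.1 0 = 1 ∧ e.2 ≠ 0)}

/-- links on the positive side of the diagonal mirror -/
def plus : Set ZL := {e | e.1 1 ≤ e.1 0 ∧ (e.2 = 1 → e.1 1 < e.1 0)}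

/-- unit vectors -/
def un (i : Fin 4) : Z4 := Pi.single i 1

/-- exchange of the first two directions -/
def s01 : Equiv.Perm (Fin 4) := Equiv.swap 0 1

variable {A : Type} [NormedRing A] [StarRing A] [NormedAlgebra ℝ A] [HS A]
variable {G : Type} [Group G] {T : Type} [AddCommGroup T]

/-- plaquette variable -/
def zh (U : ZL → G) (x : Z4) (i j : Fin 4) : G :=
  U (x, i) * U (x + un i, j) * (U (x + un j, i))⁻¹ * (U (x, j))⁻¹

/-- action density at the origin -/
def zd (ρ : G →* unitary A) (U : ZL → G) : ℝ := ∑ i, ∑ j, qq ρ (zh U 0 i j)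

/-- the terms of the action which contain the link `e` -/
def lw (ρ : G →* unitary A) (e : ZL) (U : ZL → G) : ℝ :=
  2 * ∑ j, (qq ρ (zh U e.1 e.2 j) + qq ρ (zh U (e.1 - un j) e.2 j))

/-- the periodic field seen from `x` -/
def lf (w : Z4 →+ T) (x : T) (U : T × Fin 4 → G) : ZL → G := fun e => U (x + w e.1, e.2)

/-- translation -/
def sh (a : T) (U : T × Fin 4 → G) : T × Fin 4 → G := fun e => U (e.1 + a, e.2)

/-- gauge transformation -/
def ga (w : Z4 →+ T) (k : T → G) (U : T × Fin 4 → G) : T × Fin 4 → G :=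
  fun e => k e.1 * U e * (k (e.1 + w (un e.2)))⁻¹

/-- gauge invariant functions -/
def GI (F : (ZL → G) → ℝ) : Prop := ∀ k U, F (ga (AddMonoidHom.id Z4) k U) = F U

/-- the action on the torus `T` -/
def aT [Fintype T] (ρ : G →* unitary A) (w : Z4 →+ T) (U : T × Fin 4 → G) : ℝ :=
  ∑ x, zd ρ (lf w x U)

/-- reflection in the diagonal mirror -/
def swZ (U : ZL → G) : ZL → G := fun e => U (e.1 ∘ s01, s01 e.2)

/-- the diagonal torus, a double cover of the cubic torus -/
abbrev Gm (n : ℕ) := Site 4 n × ZMod 2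

/-- projection to the cubic torus -/
def pc (n : ℕ) : Z4 →+ Site 4 n where
  toFun y i := y i
  map_zero' := by funext i; simp
  map_add' y z := by funext i; simp

/-- projection to the diagonal torus -/
def pg (n : ℕ) : Z4 →+ Gm n where
  toFun y := (pc n y, ((y 0 + y 1 : ℤ) : ZMod 2))
  map_zero' := by simp
  map_add' y z := by
    refine Prod.ext (map_add _ _ _) ?_
    simp only [Pi.add_apply, Prod.snd_add]
    push_cast
    ring

variable {n : ℕ}

/-- reflection of sites of the diagonal torus -/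
def sx (x : Gm n) : Gm n := (x.1 ∘ s01, x.2)

/-- reflection of fields on the diagonal torus -/
def swG (U : Gm n × Fin 4 → G) : Gm n × Fin 4 → G := fun e => U (sx e.1, s01 e.2)

/-- the level `x 0 - x 1` -/
def lv (h : Nat.Coprime 2 n) : Gm n →+ ZMod (2 * n) where
  toFun x := (ZMod.chineseRemainder h).symm (x.2, x.1 0 - x.1 1)
  map_zero' := by simp [Prod.mk_zero_zero]
  map_add' x y := by
    rw [← map_add]
    congr 1
    refine Prod.ext rfl ?_
    simp only [Prod.fst_add, Pi.add_apply, Prod.mk_add_mk]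
    ring

/-- links in the positive half of the diagonal torus -/
def plusG (h : Nat.Coprime 2 n) : Set (Gm n × Fin 4) :=
  {e | (lv h e.1).val ≤ n ∧ (e.2 = 0 → (lv h e.1).val < n) ∧ (e.2 = 1 → 0 < (lv h e.1).val)}

theorem s01_s01 (i : Fin 4) : s01 (s01 i) = i := Equiv.swap_apply_self _ _ _

theorem s01_0 : s01 0 = 1 := Equiv.swap_apply_left _ _

theorem s01_1 : s01 1 = 0 := Equiv.swap_apply_right _ _

theorem un_s01 (i : Fin 4) : un i ∘ s01 = un (s01 i) := by
  funext l
  simp only [un, Function.comp, Pi.single_apply]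
  exact if_congr ⟨fun h => by rw [← h, s01_s01], fun h => by rw [h, s01_s01]⟩ rfl rfl

theorem sx_sx (x : Gm n) : sx (sx x) = x := by
  refine Prod.ext ?_ rfl
  funext i
  simp [sx, s01_s01]

theorem sx_add (x y : Gm n) : sx (x + y) = sx x + sx y := rfl

theorem sx_pg (y : Z4) : sx (pg n y) = pg n (y ∘ s01) := by
  refine Prod.ext rfl ?_
  change ((y 0 + y 1 : ℤ) : ZMod 2) = ((y (s01 0) + y (s01 1) : ℤ) : ZMod 2)
  rw [s01_0, s01_1, add_comm]

theorem swZ_swZ (U : ZL → G) : swZ (swZ U) = U := by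
  funext e
  simp only [swZ, s01_s01]
  congr 2
  funext i
  simp [s01_s01]

theorem swG_swG (U : Gm n × Fin 4 → G) : swG (swG U) = U := by
  funext e
  simp only [swG, s01_s01, sx_sx]

theorem lf_swG (x : Gm n) (U : Gm n × Fin 4 → G) :
    lf (pg n) x (swG U) = swZ (lf (pg n) (sx x) U) := by
  funext e
  simp only [lf, swG, swZ, sx_add, sx_pg]

theorem lv_pg (h : Nat.Coprime 2 n) (y : Z4) :
    lv h (pg n y) = ((y 0 - y 1 : ℤ) : ZMod (2 * n)) := by
  change (ZMod.chineseRemainder h).symm _ = _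
  rw [← map_intCast (ZMod.chineseRemainder h).symm]
  congr 1
  refine Prod.ext ?_ ?_
  · change ((y 0 + y 1 : ℤ) : ZMod 2) = ((y 0 - y 1 : ℤ) : ZMod 2)
    push_cast
    rw [sub_eq_add_neg, ZMod.neg_eq_self_mod_two]
  · change ((y 0 : ℤ) : ZMod n) - ((y 1 : ℤ) : ZMod n) = ((y 0 - y 1 : ℤ) : ZMod n)
    push_cast
    rfl

theorem lv_sx (h : Nat.Coprime 2 n) (x : Gm n) : lv h (sx x) = -lv h x := by
  change (ZMod.chineseRemainder h).symm _ = -(ZMod.chineseRemainder h).symm _
  rw [← map_neg]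
  congr 1
  refine Prod.ext (ZMod.neg_eq_self_mod_two _).symm ?_
  change x.1 (s01 0) - x.1 (s01 1) = -(x.1 0 - x.1 1)
  rw [s01_0, s01_1, neg_sub]

/-- the sites on the two mirrors are fixed -/
theorem sx_fix (h : Nat.Coprime 2 n) {x : Gm n} (hx : lv h x = 0 ∨ lv h x = (n : ℕ)) :
    sx x = x := by
  have e : x.1 0 - x.1 1 = 0 := by
    have e1 : (x.2, x.1 0 - x.1 1) = ZMod.chineseRemainder h (lv h x) :=
      ((ZMod.chineseRemainder h).apply_symm_apply _).symm
    rcases hx with hx | hx
    · rw [hx, map_zero] at e1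
      exact congrArg Prod.snd e1
    · rw [hx, map_natCast] at e1
      exact (congrArg Prod.snd e1).trans (by simp)
  refine Prod.ext ?_ rfl
  funext i
  change x.1 (s01 i) = x.1 i
  by_cases h0 : i = 0
  · rw [h0, s01_0]; exact (sub_eq_zero.1 e).symm
  by_cases h1 : i = 1
  · rw [h1, s01_1]; exact sub_eq_zero.1 e
  rw [s01, Equiv.swap_apply_of_ne_of_ne h0 h1]

theorem lf_sh (w : Z4 →+ T) (x a : T) (U : T × Fin 4 → G) :
    lf w x (sh a U) = lf w (x + a) U := by
  funext e
  simp only [lf, sh, add_right_comm x _ a]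

theorem sh_lf (w : Z4 →+ T) (x : T) (y : Z4) (U : T × Fin 4 → G) :
    sh y (lf w x U) = lf w (x + w y) U := by
  funext e
  simp only [lf, sh, map_add]
  congr 2
  abel

theorem lf_ga (w : Z4 →+ T) (x : T) (k : T → G) (U : T × Fin 4 → G) :
    lf w x (ga w k U) = ga (AddMonoidHom.id Z4) (fun y => k (x + w y)) (lf w x U) := by
  funext e
  simp only [lf, ga, AddMonoidHom.id_apply, map_add, add_assoc]

theorem zh_ga (k : Z4 → G) (U : ZL → G) (x : Z4) (i j : Fin 4) :
    zh (ga (AddMonoidHom.id Z4) k U) x i j = k x * zh U x i j * (k x)⁻¹ := by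
  simp only [zh, ga, AddMonoidHom.id_apply, add_right_comm x (un j) (un i)]
  group

theorem zd_gi (ρ : G →* unitary A) : GI (zd ρ) := fun k U => by simp only [zd, zh_ga, qq_conj]

theorem zd_on (ρ : G →* unitary A) : On (box 1) (zd ρ) := by
  intro U V h
  have h0 : ∀ i, U (0, i) = V (0, i) := fun i => h _ fun l => by simp
  have h1 : ∀ i j, U (0 + un i, j) = V (0 + un i, j) := fun i j => h _ fun l => by
    simp only [un, zero_add, Pi.single_apply]
    split_ifs <;> simp
  simp only [zd, zh, h0, h1]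

theorem zd_nonneg (ρ : G →* unitary A) (U : ZL → G) : 0 ≤ zd ρ U :=
  Finset.sum_nonneg fun _ _ => Finset.sum_nonneg fun _ _ => qq_nonneg _ _

theorem zd_le (ρ : G →* unitary A) (U : ZL → G) : zd ρ U ≤ 64 * ‖(1 : A)‖ ^ 2 := by
  refine (Finset.sum_le_sum fun i _ => Finset.sum_le_sum fun j _ => qq_le ρ _).trans_eq ?_
  simp only [Finset.sum_const, Finset.card_univ, Fintype.card_fin, nsmul_eq_mul]
  push_cast
  ring

theorem zd_swZ (ρ : G →* unitary A) (U : ZL → G) : zd ρ (swZ U) = zd ρ U := by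
  have e : ∀ i j, zh (swZ U) 0 i j = zh U 0 (s01 i) (s01 j) := by
    intro i j
    have z : (0 : Z4) ∘ s01 = 0 := rfl
    simp only [zh, swZ, zero_add, un_s01, z]
  simp only [zd, e]
  rw [← Equiv.sum_comp s01 fun i => ∑ j, qq ρ (zh U 0 i j)]
  exact Finset.sum_congr rfl fun i _ => Equiv.sum_comp s01 fun j => qq ρ (zh U 0 (s01 i) j)

theorem aT_sh [Fintype T] (ρ : G →* unitary A) (w : Z4 →+ T) (a : T) (U : T × Fin 4 → G) :
    aT ρ w (sh a U) = aT ρ w U := by
  simp only [aT, lf_sh]
  exact Equiv.sum_comp (Equiv.addRight a) fun x => zd ρ (lf w x U)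

theorem aT_ga [Fintype T] (ρ : G →* unitary A) (w : Z4 →+ T) (k : T → G) (U : T × Fin 4 → G) :
    aT ρ w (ga w k U) = aT ρ w U := by simp only [aT, lf_ga, zd_gi ρ _ _]

theorem aT_swG [NeZero n] (ρ : G →* unitary A) (U : Gm n × Fin 4 → G) :
    aT ρ (pg n) (swG U) = aT ρ (pg n) U := by
  simp only [aT, lf_swG, zd_swZ]
  exact Equiv.sum_comp (Function.Involutive.toPerm sx sx_sx) fun x => zd ρ (lf (pg n) x U)

theorem pc_un (i : Fin 4) : pc n (un i) = Pi.single i 1 := by
  funext l
  change ((un i l : ℤ) : ZMod n) = _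
  simp only [un, Pi.single_apply]
  split_ifs <;> simp

theorem aT_pc [NeZero n] (ρ : G →* unitary A) (U : Link 4 n → G) : aT ρ (pc n) U = act ρ U := by
  simp only [aT, act, zd, zh, lf, hol, map_zero, add_zero, zero_add, pc_un]

variable [TopologicalSpace G] [IsTopologicalGroup G]

theorem cont_lf (w : Z4 →+ T) (x : T) : Continuous (lf (G := G) w x) := by
  unfold lf; fun_prop

theorem cont_sh (a : T) : Continuous (sh (G := G) a) := by unfold sh; fun_prop

theorem cont_ga (w : Z4 →+ T) (k : T → G) : Continuous (ga w k) := by unfold ga; fun_prop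

theorem cont_swZ : Continuous (swZ (G := G)) := by unfold swZ; fun_prop

theorem cont_swG : Continuous (swG (G := G) (n := n)) := by unfold swG; fun_prop

theorem cont_zh (x : Z4) (i j : Fin 4) : Continuous fun U : ZL → G => zh U x i j := by
  unfold zh; fun_prop

theorem cont_zd {ρ : G →* unitary A} (hρ : Continuous ρ) : Continuous (zd ρ) :=
  continuous_finsetSum _ fun _ _ => continuous_finsetSum _ fun _ _ =>
    (continuous_qq ρ hρ).comp (cont_zh _ _ _)

theorem cont_lw {ρ : G →* unitary A} (hρ : Continuous ρ) (e : ZL) : Continuous (lw ρ e) :=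
  continuous_const.mul (continuous_finsetSum _ fun _ _ =>
    ((continuous_qq ρ hρ).comp (cont_zh _ _ _)).add ((continuous_qq ρ hρ).comp (cont_zh _ _ _)))

theorem cont_aT [Fintype T] {ρ : G →* unitary A} (hρ : Continuous ρ) (w : Z4 →+ T) :
    Continuous (aT ρ w) :=
  continuous_finsetSum _ fun _ _ => (cont_zd hρ).comp (cont_lf _ _)

variable [CompactSpace G] [SecondCountableTopology G] [MeasurableSpace G] [BorelSpace G]
  (μ : Measure G) [μ.IsHaarMeasure] [IsProbabilityMeasure μ] {E : Type} [Fintype E]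

/-- integral over all variables -/
def I (F : (E → G) → ℝ) : ℝ := ∫ U, F U ∂(Measure.pi fun _ => μ)

/-- integral over the variables in `S` -/
def mg (S : Set E) (F : (E → G) → ℝ) (U : E → G) : ℝ :=
  I μ fun V => F fun e => by classical exact if e ∈ S then V e else U e

/-- continuous positive probability densities -/
structure Den (p : (E → G) → ℝ) : Prop where
  cont : Continuous p
  pos : ∀ U, 0 < p U
  one : I μ p = 1

/-- entropy relative to the Haar measure -/
def ent (p : (E → G) → ℝ) : ℝ := I μ fun U => p U * log (p U)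

/-- entropy relative to the Wilson measure -/
def kl [Fintype T] (ρ : G →* unitary A) (w : Z4 →+ T) (b : ℝ) (p : (T × Fin 4 → G) → ℝ) : ℝ :=
  ent μ p + b * I μ (fun U => p U * aT ρ w U) + log (I μ fun U => exp (-(b * aT ρ w U)))

theorem I_sh [Fintype T] (a : T) {F : (T × Fin 4 → G) → ℝ} (hF : Continuous F) :
    I μ (fun U => F (sh a U)) = I μ F :=
  int_mp (mp_reindex μ ((Equiv.addRight a).prodCongr (Equiv.refl _))) hF

theorem I_swG [NeZero n] {F : (Gm n × Fin 4 → G) → ℝ} (hF : Continuous F) :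
    I μ (fun U => F (swG U)) = I μ F :=
  int_mp (mp_reindex μ ((Function.Involutive.toPerm sx sx_sx).prodCongr s01)) hF

theorem I_ga [Fintype T] (w : Z4 →+ T) (k : T → G) {F : (T × Fin 4 → G) → ℝ}
    (hF : Continuous F) : I μ (fun U => F (ga w k U)) = I μ F := by
  have := haar_right μ
  exact int_mp (measurePreserving_pi (fun _ => μ) (fun _ => μ)
    (f := fun (e : T × Fin 4) g => k e.1 * g * (k (e.1 + w (un e.2)))⁻¹) fun e =>
      (measurePreserving_mul_right μ _).comp (measurePreserving_mul_left μ _)) hF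

end Pool.Agent.Lib.MP_7f377f_mp.Dg
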