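import Pool.Agent.Lib.MP_7f377f_mp.DgMain

/-! Diagonal reflection positivity for finite families, uniformly in the coefficients. -/

noncomputable section

namespace Pool.Agent.Lib.MP_7f377f_mp.Dg

open Weak MeasureTheory Real Function Filter Topology

set_option linter.unusedSectionVars false

variable {A : Type} [NormedRing A] [StarRing A] [NormedAlgebra ℝ A] [HS A]
variable {G : Type} [Group G] [TopologicalSpace G] [IsTopologicalGroup G] [CompactSpace G]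
  [SecondCountableTopology G] [MeasurableSpace G] [BorelSpace G]
  (μ : Measure G) [μ.IsHaarMeasure] [IsProbabilityMeasure μ] {ρ : G →* unitary A}

theorem diag_rp_fam (hρ : Continuous ρ) (hi : Injective ρ) {b : ℝ} (hb : 0 < b) {r m : ℕ}
    (hm : 4 * r + 4 ≤ m) {ι : Type} [Fintype ι] {g : ι → (ZL → G) → ℝ} (hg : ∀ i, Continuous (g i))
    (hr : ∀ i, On (box r ∩ plus) (g i)) (hG : ∀ i, GI (g i)) {ε : ℝ} (hε : 0 < ε) :
    ∃ δ > 0, ∃ n₀ : ℕ, ∀ (n : ℕ) [NeZero n] (b' : ℝ), Odd n → m ∣ n → n₀ ≤ n → |b' - b| ≤ δ →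
    ∀ c : ι → ℝ, -(ε * ∑ i, c i ^ 2) ≤ ∫ U, (∑ i, c i * g i (lf (pc n) 0 U)) *
      (∑ i, c i * g i (swZ (lf (pc n) 0 U))) ∂(nu μ ρ 4 n b') := by
  set Φ : (ι → ℝ) → (ZL → G) → ℝ := fun c V => (∑ i, c i * g i V) * ∑ i, c i * g i (swZ V)
  have cs := cont_swZ (G := G)
  have cΦ : Continuous fun z : (ι → ℝ) × (ZL → G) => Φ z.1 z.2 := by
    simp only [Φ]
    fun_prop
  have key : ∃ δ > 0, ∃ n₀ : ℕ, ∀ (n : ℕ) [NeZero n] (b' : ℝ), Odd n → m ∣ n → n₀ ≤ n →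
      |b' - b| ≤ δ → ∀ c ∈ Metric.closedBall (0 : ι → ℝ) 1,
      -ε ≤ ∫ U, Φ c (lf (pc n) 0 U) ∂(nu μ ρ 4 n b') := by
    refine (isCompact_closedBall (0 : ι → ℝ) 1).induction_on
      (p := fun S => ∃ δ > 0, ∃ n₀ : ℕ, ∀ (n : ℕ) [NeZero n] (b' : ℝ), Odd n → m ∣ n → n₀ ≤ n →
        |b' - b| ≤ δ → ∀ c ∈ S, -ε ≤ ∫ U, Φ c (lf (pc n) 0 U) ∂(nu μ ρ 4 n b'))
      ⟨1, one_pos, 0, fun _ _ _ _ _ _ _ _ h => h.elim⟩
      (fun S S' h ⟨δ, h0, k, h1⟩ => ⟨δ, h0, k, fun n _ b' a1 a2 a3 a4 c hc =>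
        h1 n b' a1 a2 a3 a4 c (h hc)⟩)
      (fun S S' ⟨δ, h0, k, h1⟩ ⟨δ', h0', k', h1'⟩ => ⟨min δ δ', lt_min h0 h0', max k k',
        fun n _ b' a1 a2 a3 a4 c hc => hc.elim
          (h1 n b' a1 a2 ((le_max_left _ _).trans a3) (a4.trans (min_le_left _ _)) c)
          (h1' n b' a1 a2 ((le_max_right _ _).trans a3) (a4.trans (min_le_right _ _)) c)⟩)
      fun c₀ _ => ?_
    obtain ⟨δ, h0, k, h1⟩ := diag_rp μ hρ hi hb hm (g := fun V => ∑ i, c₀ i * g i V) (by fun_prop)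
      (fun U V h => Finset.sum_congr rfl fun i _ => by rw [hr i U V h])
      (fun u U => Finset.sum_congr rfl fun i _ => by rw [hG i u U]) (half_pos hε)
    have h2 : ∀ᶠ c in 𝓝 c₀, ∀ V ∈ Set.univ, Φ c₀ V - ε / 2 ≤ Φ c V :=
      isCompact_univ.eventually_forall_of_forall_eventually fun V _ =>
        (ContinuousAt.eventually_lt (f := fun z : (ι → ℝ) × (ZL → G) => Φ c₀ z.2 - ε / 2)
          (g := fun z => Φ z.1 z.2) (by fun_prop) cΦ.continuousAt (by linarith)).mono fun _ h => h.le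
    refine ⟨_, mem_nhdsWithin_of_mem_nhds h2, δ, h0, k, fun n _ b' a1 a2 a3 a4 c hc => ?_⟩
    have := nu_prob μ ρ (d := 4) (L := n) hρ b'
    have cl := cont_lf (G := G) (pc n) 0
    have i1 : ∀ c, Integrable (fun U => Φ c (lf (pc n) 0 U)) (nu μ ρ 4 n b') := fun c =>
      (cΦ.comp (continuous_const.prodMk cl)).integrable_of_hasCompactSupport
        (HasCompactSupport.of_compactSpace _)
    have h3 := integral_mono ((i1 c₀).sub (integrable_const (ε / 2))) (i1 c) fun U => hc _ trivial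
    have h4 := h1 n b' a1 a2 a3 a4
    simp only [Pi.sub_apply] at h3
    rw [integral_sub (i1 c₀) (integrable_const _), integral_const, probReal_univ, one_smul] at h3
    linarith
  obtain ⟨δ, h0, k, h1⟩ := key
  refine ⟨δ, h0, k, fun n _ b' a1 a2 a3 a4 c => ?_⟩
  rcases eq_or_ne c 0 with rfl | hc
  · simp
  have s0 : 0 < ‖c‖ := norm_pos_iff.2 hc
  have h2 := h1 n b' a1 a2 a3 a4 (‖c‖⁻¹ • c) (by
    rw [mem_closedBall_zero_iff, norm_smul, norm_inv, norm_norm, inv_mul_cancel₀ s0.ne'])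
  have h3 : ∀ V, Φ c V = ‖c‖ ^ 2 * Φ (‖c‖⁻¹ • c) V := fun V => by
    simp only [Φ, Pi.smul_apply, smul_eq_mul, mul_assoc, ← Finset.mul_sum]
    field_simp
  have h4 : ‖c‖ ^ 2 ≤ ∑ i, c i ^ 2 := by
    rw [← Real.le_sqrt s0.le (by positivity)]
    exact (pi_norm_le_iff_of_nonneg (Real.sqrt_nonneg _)).2 fun i => Real.abs_le_sqrt
      (Finset.single_le_sum (f := fun i => c i ^ 2) (fun _ _ => sq_nonneg _) (Finset.mem_univ i))
  change _ ≤ ∫ U, Φ c (lf (pc n) 0 U) ∂(nu μ ρ 4 n b')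
  simp only [h3 (lf _ _ _)]
  rw [integral_const_mul]
  nlinarith [mul_le_mul_of_nonneg_left h2 (sq_nonneg ‖c‖)]

end Pool.Agent.Lib.MP_7f377f_mp.Dg
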