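import Pool.Agent.Lib.MP_7f377f_mp.DgGib

/-! The diagonal torus as two cubic tori: Jensen lower bound for tilted averages. -/

noncomputable section

namespace Pool.Agent.Lib.MP_7f377f_mp.Dg

open Weak MeasureTheory Real Function

set_option linter.unusedSectionVars false

variable {A : Type} [NormedRing A] [StarRing A] [NormedAlgebra ℝ A] [HS A]
variable {G : Type} [Group G] [TopologicalSpace G] [IsTopologicalGroup G] [CompactSpace G]
  [SecondCountableTopology G] [MeasurableSpace G] [BorelSpace G]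
  (μ : Measure G) [μ.IsHaarMeasure] [IsProbabilityMeasure μ] {ρ : G →* unitary A}
  {E : Type} [Fintype E] {T : Type} [AddCommGroup T] [Fintype T]

namespace Jn

variable {n : ℕ}

/-- parity of a site of the cube -/
def cv (x : Site 4 n) : ZMod 2 := (((x 0).val + (x 1).val : ℤ) : ZMod 2)

/-- the field on one sheet -/
def sheet (s : ZMod 2) (U : Gm n × Fin 4 → G) : Link 4 n → G :=
  fun e => U ((e.1, s + cv e.1), e.2)

/-- the field on the sheet of `x`, seen from `x` -/
def lf2 (x : Gm n) (U : Gm n × Fin 4 → G) : ZL → G :=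
  lf (pc n) x.1 (sheet (x.2 - cv x.1) U)

/-- residues near the cut -/
def cut (n r : ℕ) [NeZero n] : Finset (ZMod n) := Finset.univ.filter fun a => a.val < r ∨ n ≤ a.val + r

theorem cont_sheet (s : ZMod 2) : Continuous (sheet (G := G) (n := n) s) := by
  unfold sheet; fun_prop

theorem cont_lf2 (x : Gm n) : Continuous (lf2 (G := G) x) := (cont_lf _ _).comp (cont_sheet _)

variable [NeZero n]

theorem val_add {r : ℕ} {a : ZMod n} (ha : a ∉ cut n r) {y : ℤ} (hy : |y| ≤ r) :
    ((a + (y : ZMod n)).val : ℤ) = a.val + y := by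
  simp only [cut, Finset.mem_filter, Finset.mem_univ, true_and, not_or, not_lt, not_le] at ha
  have h := abs_le.1 hy
  have e : a + (y : ZMod n) = ((a.val + y : ℤ) : ZMod n) := by simp
  rw [e, ZMod.val_intCast]
  exact Int.emod_eq_of_lt (by omega) (by omega)

theorem lf_eq {r : ℕ} {f : (ZL → G) → ℝ} (hr : On (box r) f) {x : Gm n} (h0 : x.1 0 ∉ cut n r)
    (h1 : x.1 1 ∉ cut n r) (U : Gm n × Fin 4 → G) : f (lf (pg n) x U) = f (lf2 x U) := by
  refine hr _ _ fun e he => ?_
  have e0 := val_add h0 (he 0)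
  have e1 := val_add h1 (he 1)
  simp only [lf2, lf, sheet]
  congr 2
  refine Prod.ext rfl ?_
  change x.2 + ((e.1 0 + e.1 1 : ℤ) : ZMod 2) = x.2 - cv x.1 +
    (((x.1 0 + (e.1 0 : ZMod n)).val + (x.1 1 + (e.1 1 : ZMod n)).val : ℤ) : ZMod 2)
  rw [e0, e1, cv]
  push_cast
  ring

theorem card_cut (r : ℕ) : (cut n r).card ≤ 2 * r := by
  have h : (cut n r).card ≤ (Finset.range r ∪ Finset.Ico (n - r) n).card := by
    refine Finset.card_le_card_of_injOn ZMod.val (fun a ha => ?_) (ZMod.val_injective n).injOn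
    have := ZMod.val_lt a
    simp only [cut, Finset.coe_filter, Finset.mem_univ, true_and, Set.mem_ofPred_eq] at ha
    simp only [Finset.coe_union, Finset.coe_range, Finset.coe_Ico, Set.mem_union, Set.mem_Iio,
      Set.mem_Ico]
    omega
  have h2 := Finset.card_union_le (Finset.range r) (Finset.Ico (n - r) n)
  rw [Finset.card_range, Nat.card_Ico] at h2
  omega

theorem card_co (i : Fin 4) (s : Finset (ZMod n)) :
    (Finset.univ.filter fun x : Gm n => x.1 i ∈ s).card = s.card * n ^ 3 * 2 := by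
  have e : (Finset.univ.filter fun x : Gm n => x.1 i ∈ s) =
      Fintype.piFinset (update (fun _ => Finset.univ) i s) ×ˢ Finset.univ := by
    ext x
    simp only [Finset.mem_filter, Finset.mem_univ, true_and, Finset.mem_product,
      Fintype.mem_piFinset, and_true]
    refine ⟨fun h j => ?_, fun h => by simpa using h i⟩
    by_cases hj : j = i
    · subst hj; simpa using h
    · simp [update_of_ne hj]
  rw [e, Finset.card_product, Fintype.card_piFinset]
  congr 1
  fin_cases i <;> simp [Fin.prod_univ_four, update, ZMod.card] <;> ring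

theorem sum_diff {r : ℕ} {f : (ZL → G) → ℝ} (hr : On (box r) f) {M : ℝ} (hM : ∀ U, |f U| ≤ M)
    (X : Finset (Gm n)) (U : Gm n × Fin 4 → G) :
    |∑ x ∈ X, f (lf (pg n) x U) - ∑ x ∈ X, f (lf2 x U)| ≤ 16 * r * M * n ^ 3 := by
  have hM0 : 0 ≤ M := (abs_nonneg _).trans (hM fun _ => 1)
  set B := (Finset.univ.filter fun x : Gm n => x.1 0 ∈ cut n r) ∪
    (Finset.univ.filter fun x : Gm n => x.1 1 ∈ cut n r) with hB
  have hc : (B.card : ℝ) ≤ 8 * r * n ^ 3 := by
    have h1 := Finset.card_union_le (Finset.univ.filter fun x : Gm n => x.1 0 ∈ cut n r)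
      (Finset.univ.filter fun x : Gm n => x.1 1 ∈ cut n r)
    rw [card_co, card_co] at h1
    have h2 := Nat.mul_le_mul_right (n ^ 3) (card_cut (n := n) r)
    have : B.card ≤ 8 * r * n ^ 3 := by rw [hB]; nlinarith
    exact_mod_cast this
  rw [← Finset.sum_sub_distrib]
  refine (Finset.abs_sum_le_sum_abs _ _).trans ?_
  have h3 : ∑ x ∈ X, |f (lf (pg n) x U) - f (lf2 x U)| ≤
      ∑ x ∈ B, |f (lf (pg n) x U) - f (lf2 x U)| := by
    rw [← Finset.sum_filter_ne_zero]
    refine Finset.sum_le_sum_of_subset_of_nonneg (fun x hx => ?_) fun _ _ _ => abs_nonneg _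
    have hx := (Finset.mem_filter.1 hx).2
    by_contra h
    simp only [hB, Finset.mem_union, Finset.mem_filter, Finset.mem_univ, true_and, not_or] at h
    exact hx (by rw [lf_eq hr h.1 h.2, sub_self, abs_zero])
  refine h3.trans ((Finset.sum_le_card_nsmul _ _ (2 * M) fun x _ => ?_).trans ?_)
  · exact (abs_sub _ _).trans (by linarith [hM (lf (pg n) x U), hM (lf2 x U)])
  · rw [nsmul_eq_mul]
    nlinarith

theorem z2 (s : ZMod 2) : s = 0 ∨ s = 1 := by revert s; decide

/-- the links of the diagonal torus are those of two cubes -/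
def eqv (n : ℕ) : Link 4 n ⊕ Link 4 n ≃ Gm n × Fin 4 where
  toFun := Sum.elim (fun e => ((e.1, 0 + cv e.1), e.2)) fun e => ((e.1, 1 + cv e.1), e.2)
  invFun e := if e.1.2 - cv e.1.1 = 0 then .inl (e.1.1, e.2) else .inr (e.1.1, e.2)
  left_inv e := by rcases e with e | e <;> simp
  right_inv e := by
    rcases z2 (e.1.2 - cv e.1.1) with h | h
    · simp only [h, if_true, Sum.elim_inl]
      rw [← h, sub_add_cancel]
    · simp only [h, one_ne_zero, if_false, Sum.elim_inr]
      rw [← h, sub_add_cancel]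

theorem I_prod {F0 F1 : (Link 4 n → G) → ℝ} (h0 : Continuous F0) (h1 : Continuous F1) :
    I μ (fun U => F0 (sheet 0 U) * F1 (sheet 1 U)) = I μ F0 * I μ F1 := by
  have m1 := measurePreserving_arrowCongr' (fun _ => μ) (fun _ => μ) (eqv n).symm
    (MeasurableEquiv.refl G) fun _ => MeasurePreserving.id μ
  have m2 := (measurePreserving_sumPiEquivProdPi
    (fun _ : Link 4 n ⊕ Link 4 n => μ)).comp m1
  have hc : Continuous fun z : (Link 4 n → G) × (Link 4 n → G) => F0 z.1 * F1 z.2 := by fun_prop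
  rw [I, I, I, ← integral_prod_mul, ← m2.map_eq,
    integral_map m2.measurable.aemeasurable hc.aestronglyMeasurable]
  rfl

/-- the action of the two cubes -/
def a2 (ρ : G →* unitary A) (U : Gm n × Fin 4 → G) : ℝ := act ρ (sheet 0 U) + act ρ (sheet 1 U)

theorem a2_eq (U : Gm n × Fin 4 → G) : a2 ρ U = ∑ x, zd ρ (lf2 x U) := by
  rw [Fintype.sum_prod_type, a2, ← aT_pc, ← aT_pc, aT, aT, ← Finset.sum_add_distrib]
  refine Finset.sum_congr rfl fun x _ => ?_
  rw [← Equiv.sum_comp (Equiv.addRight (cv x))]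
  simp only [lf2, Equiv.coe_addRight, add_sub_cancel_right]
  exact (Fin.sum_univ_two fun s : ZMod 2 => zd ρ (lf (pc n) x (sheet s U))).symm

theorem cont_a2 (hρ : Continuous ρ) : Continuous (a2 (n := n) ρ) :=
  ((continuous_act ρ hρ).comp (cont_sheet _)).add ((continuous_act ρ hρ).comp (cont_sheet _))

theorem avg (hρ : Continuous ρ) (b : ℝ) (s : ZMod 2) {g : (Link 4 n → G) → ℝ} (hg : Continuous g) :
    I μ (fun U => g (sheet s U) * exp (-(b * a2 ρ U))) =
      (∫ U, g U ∂(nu μ ρ 4 n b)) * I μ fun U : Gm n × Fin 4 → G => exp (-(b * a2 ρ U)) := by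
  have hw := continuous_wt (d := 4) (L := n) ρ hρ b
  have hZ := (ZZ_pos (d := 4) (L := n) μ ρ hρ b).ne'
  have e := I_prod μ hw hw
  have e0 := I_prod μ (hg.mul hw) hw
  have e1 := I_prod μ hw (hg.mul hw)
  simp only [a2, mul_add, neg_add, exp_add]
  rw [e, nu_int]
  change _ = I μ _ / ZZ μ ρ 4 n b * (ZZ μ ρ 4 n b * ZZ μ ρ 4 n b)
  rw [div_mul_eq_mul_div, mul_div_assoc, mul_div_cancel_right₀ _ hZ]
  rcases z2 s with rfl | rfl
  · refine Eq.trans ?_ e0
    simp only [Pi.mul_apply, mul_assoc]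
  · refine Eq.trans ?_ (e1.trans (mul_comm _ _))
    simp only [Pi.mul_apply, mul_left_comm]

theorem avg_sum (hρ : Continuous ρ) (b : ℝ) {f : (ZL → G) → ℝ} (hf : Continuous f)
    (X : Finset (Gm n)) : I μ (fun U => (∑ x ∈ X, f (lf2 x U)) * exp (-(b * a2 ρ U))) =
      X.card * (∫ U, f (lf (pc n) 0 U) ∂(nu μ ρ 4 n b)) *
        I μ fun U : Gm n × Fin 4 → G => exp (-(b * a2 ρ U)) := by
  have hw : Continuous fun U : Gm n × Fin 4 → G => exp (-(b * a2 ρ U)) := by
    have := cont_a2 (n := n) hρ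
    fun_prop
  simp only [Finset.sum_mul]
  rw [I, integral_finsetSum (f := fun x U => f (lf2 x U) * exp (-(b * a2 ρ U))) _ fun x _ =>
    cint _ ((hf.comp (cont_lf2 x)).mul hw), mul_assoc, ← nsmul_eq_mul, ← Finset.sum_const]
  refine Finset.sum_congr rfl fun x _ => ?_
  refine (avg μ hρ b _ (hf.comp (cont_lf (pc n) x.1))).trans ?_
  congr 1
  refine Eq.trans ?_ (int_mp (nu_shift μ ρ hρ b x.1) (hf.comp (cont_lf (pc n) 0)))
  congr 1
  funext U
  have := lf_sh (pc n) 0 x.1 U
  rw [zero_add] at this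
  exact congrArg f this.symm

theorem I_exp_pos {H : (E → G) → ℝ} (hH : Continuous H) : 0 < I μ fun U => exp (H U) :=
  integral_exp_pos (cint _ (by fun_prop))

end Jn

open Jn

theorem jen (hρ : Continuous ρ) (b : ℝ) {r : ℕ} {f : (ZL → G) → ℝ} (hf : Continuous f)
    (hr : On (box r) f) : ∃ C : ℝ, ∀ (n : ℕ) [NeZero n] (b' lam : ℝ) (X : Finset (Gm n)),
    |b' - b| ≤ 1 → 0 ≤ lam → lam ≤ 1 →
    lam * X.card * ∫ U, f (lf (pc n) 0 U) ∂(nu μ ρ 4 n b') - C * (n ^ 3 + |b' - b| * n ^ 4) ≤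
      lam * I μ fun U => (exp (-(b * aT ρ (pg n) U) + lam * ∑ x ∈ X, f (lf (pg n) x U)) /
        I μ fun V => exp (-(b * aT ρ (pg n) V) + lam * ∑ x ∈ X, f (lf (pg n) x V))) *
          ∑ x ∈ X, f (lf (pg n) x U) := by
  obtain ⟨M, hM⟩ := isCompact_univ.exists_bound_of_continuousOn hf.continuousOn
  have hM' : ∀ U, |f U| ≤ M := fun U => hM U trivial
  have hM0 : 0 ≤ M := (abs_nonneg _).trans (hM' fun _ => 1)
  set N := 64 * ‖(1 : A)‖ ^ 2 with hN
  have hN0 : 0 ≤ N := by positivity
  have hz : ∀ U, |zd ρ U| ≤ N := fun U => by rw [abs_of_nonneg (zd_nonneg ρ U)]; exact zd_le ρ U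
  refine ⟨16 * r * M + 32 * |b| * N + 4 * N, fun n _ b' lam X _ h0 h1 => ?_⟩
  set m := ∫ U, f (lf (pc n) 0 U) ∂(nu μ ρ 4 n b')
  set F : (Gm n × Fin 4 → G) → ℝ := fun U => ∑ x ∈ X, f (lf (pg n) x U) with hF
  set F2 : (Gm n × Fin 4 → G) → ℝ := fun U => ∑ x ∈ X, f (lf2 x U) with hF2
  have cF : Continuous F := continuous_finsetSum _ fun x _ => hf.comp (cont_lf _ _)
  have cF2 : Continuous F2 := continuous_finsetSum _ fun x _ => hf.comp (cont_lf2 _)
  have cS := cont_aT hρ (pg n)
  have c2 := cont_a2 (n := n) hρ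
  set er : ℝ := 16 * |b| * N * n ^ 3 + 2 * N * (|b' - b| * n ^ 4) with her
  have hS : ∀ U : Gm n × Fin 4 → G, |b' * a2 ρ U - b * aT ρ (pg n) U| ≤ er := fun U => by
    have e1 := sum_diff (zd_on ρ) hz Finset.univ U
    rw [← a2_eq, Nat.cast_one, mul_one, ← aT, abs_sub_comm] at e1
    have e2 : |a2 ρ U| ≤ 2 * N * n ^ 4 := by
      rw [a2_eq]
      refine (Finset.abs_sum_le_sum_abs _ _).trans
        ((Finset.sum_le_card_nsmul _ _ N fun x _ => hz _).trans_eq ?_)
      simp only [Finset.card_univ, Fintype.card_prod, Fintype.card_pi, ZMod.card,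
        Finset.prod_const, Fintype.card_fin, nsmul_eq_mul]
      push_cast
      ring
    have e3 : b' * a2 ρ U - b * aT ρ (pg n) U =
        b * (a2 ρ U - aT ρ (pg n) U) + (b' - b) * a2 ρ U := by ring
    rw [e3]
    refine (abs_add_le _ _).trans ?_
    rw [abs_mul, abs_mul]
    have := mul_le_mul_of_nonneg_left e1 (abs_nonneg b)
    have := mul_le_mul_of_nonneg_left e2 (abs_nonneg (b' - b))
    linarith
  have cH : Continuous fun U => -(b * aT ρ (pg n) U) + lam * F U := by fun_prop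
  have cH2 : Continuous fun U : Gm n × Fin 4 → G => -(b' * a2 ρ U) := by fun_prop
  have b1 := bogo μ cH (K := fun U => -(lam * F U)) (by fun_prop)
  have b2 := bogo μ cH2 (K := fun U => b' * a2 ρ U + (-(b * aT ρ (pg n) U) + lam * F U))
    (by fun_prop)
  simp only [add_neg_cancel_right] at b1
  simp only [neg_add_cancel_left] at b2
  have p1 := I_exp_pos μ cH
  have p2 := I_exp_pos μ cH2
  have p0 := I_exp_pos μ (H := fun U => -(b * aT ρ (pg n) U)) (by fun_prop)
  have b3 : log (I μ fun U => exp (-(b * aT ρ (pg n) U))) ≤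
      log (I μ fun U : Gm n × Fin 4 → G => exp (-(b' * a2 ρ U))) + er := by
    rw [← log_exp er, ← log_mul p2.ne' (exp_pos _).ne']
    refine log_le_log p0 ?_
    rw [I, I, ← integral_mul_const]
    refine integral_mono (cint _ (by fun_prop)) (cint _ (by fun_prop)) fun U => ?_
    simp only [← exp_add]
    exact exp_le_exp.2 (by linarith [(abs_le.1 (hS U)).2])
  have b4 : lam * X.card * m - (er + 16 * r * M * n ^ 3) ≤
      (I μ fun U => (b' * a2 ρ U + (-(b * aT ρ (pg n) U) + lam * F U)) * exp (-(b' * a2 ρ U))) /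
        I μ fun U : Gm n × Fin 4 → G => exp (-(b' * a2 ρ U)) := by
    rw [le_div_iff₀ p2, sub_mul, mul_assoc lam, mul_assoc lam, ← avg_sum μ hρ b' hf X]
    change lam * I μ (fun U => F2 U * _) - _ ≤ _
    rw [I, I, I, ← integral_const_mul, ← integral_const_mul,
      ← integral_sub (cint _ (by fun_prop)) (cint _ (by fun_prop))]
    refine integral_mono (cint _ (by fun_prop)) (cint _ (by fun_prop)) fun U => ?_
    have e1 := (abs_le.1 (sum_diff hr hM' X U)).1
    have e2 := (abs_le.1 (hS U)).1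
    have e3 : (0 : ℝ) ≤ 16 * r * M * n ^ 3 := by positivity
    simp only
    rw [← mul_assoc, ← sub_mul]
    refine mul_le_mul_of_nonneg_right ?_ (exp_pos _).le
    simp only [hF, hF2]
    nlinarith
  have e5 : (lam * I μ fun U => (exp (-(b * aT ρ (pg n) U) + lam * F U) /
      I μ fun V => exp (-(b * aT ρ (pg n) V) + lam * F V)) * F U) =
      -((I μ fun U => -(lam * F U) * exp (-(b * aT ρ (pg n) U) + lam * F U)) /
        I μ fun V => exp (-(b * aT ρ (pg n) V) + lam * F V)) := by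
    generalize (I μ fun V => exp (-(b * aT ρ (pg n) V) + lam * F V)) = Z
    rw [I, I, ← integral_div, ← integral_neg, ← integral_const_mul]
    congr 1
    funext U
    ring
  have e6 : (0 : ℝ) ≤ 4 * N * n ^ 3 + (16 * r * M + 32 * |b| * N) * (|b' - b| * n ^ 4) := by
    positivity
  change _ ≤ lam * I μ fun U => (exp (-(b * aT ρ (pg n) U) + lam * F U) /
      I μ fun V => exp (-(b * aT ρ (pg n) V) + lam * F V)) * F U
  rw [e5]
  nlinarith

end Pool.Agent.Lib.MP_7f377f_mp.Dg
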