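import Mathlib

/-! helper38: the kernel exp(b U.V) is universal (core of the unique continuation step). -/

set_option linter.unusedSectionVars false

noncomputable section

namespace Pool.Agent.Lib.MP_7f377f_mp.S10U

open Set Filter Topology MeasureTheory

variable {X : Type*} [TopologicalSpace X] [CompactSpace X] {ι : Type*} [Fintype ι]

theorem hs_of {f : ℕ → C(X, ℝ)} {g : C(X, ℝ)} {a : ℕ → ℝ} (ha : Summable a)
    (hf : ∀ n, ‖f n‖ ≤ a n) (hp : ∀ x, HasSum (fun n => f n x) (g x)) : HasSum f g := by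
  have hs : Summable f := Summable.of_norm_bounded ha hf
  have h : ∑' n, f n = g := by
    ext x
    exact (hs.hasSum.mapL (ContinuousMap.evalCLM ℝ x)).unique (hp x)
  exact h ▸ hs.hasSum

/-- the function V ↦ b U.V -/
def lin (io : ι → C(X, ℝ)) (b : ℝ) (U : X) : C(X, ℝ) := b • ∑ i, io i U • io i

/-- the function V ↦ exp (b U.V) -/
def ker (io : ι → C(X, ℝ)) (b : ℝ) (U : X) : C(X, ℝ) :=
  ⟨fun V => Real.exp (b * ∑ i, io i U * io i V), by fun_prop⟩

@[simp] theorem ker_apply (io : ι → C(X, ℝ)) (b : ℝ) (U V : X) :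
    ker io b U V = Real.exp (b * ∑ i, io i U * io i V) := rfl

theorem lin_apply (io : ι → C(X, ℝ)) (b : ℝ) (U V : X) :
    lin io b U V = b * ∑ i, io i U * io i V := by
  simp [lin]

/-- monomials -/
def mono (io : ι → C(X, ℝ)) {n : ℕ} (s : Fin n → ι) : C(X, ℝ) := ∏ k, io (s k)

theorem norm_lin (io : ι → C(X, ℝ)) (b : ℝ) (U : X) :
    ‖lin io b U‖ ≤ |b| * ∑ i, ‖io i‖ * ‖io i‖ := by
  rw [lin, norm_smul, Real.norm_eq_abs]
  refine mul_le_mul_of_nonneg_left ((norm_sum_le _ _).trans (Finset.sum_le_sum fun i _ => ?_))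
    (abs_nonneg b)
  rw [norm_smul]
  exact mul_le_mul_of_nonneg_right ((io i).norm_coe_le_norm U) (norm_nonneg _)

theorem norm_pow_lin (io : ι → C(X, ℝ)) (b : ℝ) (U : X) (n : ℕ) :
    ‖lin io b U ^ n‖ ≤ (|b| * ∑ i, ‖io i‖ * ‖io i‖) ^ n := by
  refine (ContinuousMap.norm_le _ (by positivity)).2 fun V => ?_
  rw [ContinuousMap.pow_apply, norm_pow]
  exact pow_le_pow_left₀ (norm_nonneg _) (((lin io b U).norm_coe_le_norm V).trans
    (norm_lin io b U)) n

theorem hasSum_ker (io : ι → C(X, ℝ)) (b : ℝ) (U : X) :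
    HasSum (fun n : ℕ => ((n.factorial : ℝ))⁻¹ • lin io b U ^ n) (ker io b U) := by
  refine hs_of (Real.summable_pow_div_factorial (|b| * ∑ i, ‖io i‖ * ‖io i‖)) (fun n => ?_)
    (fun V => ?_)
  · rw [norm_smul, norm_inv, Real.norm_natCast, div_eq_inv_mul]
    exact mul_le_mul_of_nonneg_left (norm_pow_lin io b U n) (by positivity)
  · have h := NormedSpace.expSeries_div_hasSum_exp (b * ∑ i, io i U * io i V)
    rw [← Real.exp_eq_exp_ℝ] at h
    simpa only [ContinuousMap.smul_apply, ContinuousMap.pow_apply, lin_apply, smul_eq_mul,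
      ker_apply, div_eq_inv_mul] using h

theorem lin_pow (io : ι → C(X, ℝ)) (b : ℝ) (U : X) (n : ℕ) :
    lin io b U ^ n = b ^ n • ∑ s : Fin n → ι, mono io s U • mono io s := by
  classical
  ext V
  simp only [ContinuousMap.pow_apply, lin_apply, mul_pow, Fintype.sum_pow, mono,
    ContinuousMap.smul_apply, ContinuousMap.coe_sum, Finset.sum_apply, ContinuousMap.coe_prod,
    Finset.prod_apply, smul_eq_mul, Finset.prod_mul_distrib, ContinuousMap.coe_smul, Pi.smul_apply]

theorem mono_zero {io : ι → C(X, ℝ)} {b : ℝ} (hb : 0 < b) (L : C(X, ℝ) →L[ℝ] ℝ)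
    (h : ∀ U, L (ker io b U) = 0) {n : ℕ} (s : Fin n → ι) : L (mono io s) = 0 := by
  classical
  set c := |b| * ∑ i, ‖io i‖ * ‖io i‖ with hc
  let A : ℕ → C(X, ℝ) := fun n =>
    ((n.factorial : ℝ))⁻¹ • b ^ n • ∑ s : Fin n → ι, L (mono io s) • mono io s
  have hA : ∀ n U, A n U = L (((n.factorial : ℝ))⁻¹ • lin io b U ^ n) := by
    intro n U
    rw [lin_pow]
    simp only [A, map_smul, map_sum, smul_eq_mul, ContinuousMap.smul_apply, ContinuousMap.coe_sum,
      Finset.sum_apply, ContinuousMap.coe_smul, Pi.smul_apply, mul_comm (L _)]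
  have hs : HasSum A 0 := by
    refine hs_of ((Real.summable_pow_div_factorial c).mul_left ‖L‖) (fun n => ?_) (fun U => ?_)
    · refine (ContinuousMap.norm_le _ (by positivity)).2 fun U => ?_
      rw [hA]
      refine (L.le_opNorm _).trans (mul_le_mul_of_nonneg_left ?_ (norm_nonneg _))
      rw [norm_smul, norm_inv, Real.norm_natCast, div_eq_inv_mul]
      exact mul_le_mul_of_nonneg_left (norm_pow_lin io b U n) (by positivity)
    · have := (hasSum_ker io b U).mapL L
      rw [h U] at this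
      simpa only [hA, ContinuousMap.zero_apply] using this
  have h2 := hs.mapL L
  rw [map_zero] at h2
  have hL : ∀ n, L (A n) =
      ((n.factorial : ℝ))⁻¹ * (b ^ n * ∑ s : Fin n → ι, L (mono io s) * L (mono io s)) := by
    intro n
    simp only [A, map_smul, map_sum, smul_eq_mul]
  have h0 : ∀ n, 0 ≤ L (A n) := fun n => by
    rw [hL]
    exact mul_nonneg (by positivity) (mul_nonneg (by positivity)
      (Finset.sum_nonneg fun s _ => mul_self_nonneg _))
  have h3 : L (A n) = 0 := by
    have := le_hasSum h2 n (fun j _ => h0 j)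
    exact le_antisymm this (h0 n)
  rw [hL] at h3
  have h4 : ∑ s : Fin n → ι, L (mono io s) * L (mono io s) = 0 := by
    rcases mul_eq_zero.1 h3 with h5 | h5
    · exact absurd h5 (by positivity)
    · rcases mul_eq_zero.1 h5 with h6 | h6
      · exact absurd h6 (by positivity)
      · exact h6
  exact mul_self_eq_zero.1 ((Finset.sum_eq_zero_iff_of_nonneg
    (fun s _ => mul_self_nonneg _)).1 h4 s (Finset.mem_univ s))

/-- a bounded functional killing all kernel functions is zero -/
theorem univ [T2Space X] {io : ι → C(X, ℝ)} (hio : ∀ x y, (∀ i, io i x = io i y) → x = y) {b : ℝ}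
    (hb : 0 < b) (L : C(X, ℝ) →L[ℝ] ℝ) (h : ∀ U, L (ker io b U) = 0) : L = 0 := by
  let A : Subalgebra ℝ C(X, ℝ) := Algebra.adjoin ℝ (range io)
  have hsep : A.SeparatesPoints := by
    intro x y hxy
    by_contra hn
    refine hxy (hio x y fun i => ?_)
    by_contra hi
    exact hn ⟨io i, ⟨io i, Algebra.subset_adjoin (mem_range_self i), rfl⟩, hi⟩
  have htop := ContinuousMap.subalgebra_topologicalClosure_eq_top_of_separatesPoints A hsep
  have hm : ∀ f ∈ Submonoid.closure (range io), ∃ n, ∃ s : Fin n → ι, f = mono io s := by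
    intro f hf
    induction hf using Submonoid.closure_induction_left with
    | one => exact ⟨0, Fin.elim0, by simp [mono]⟩
    | mul_left x hx y _ ih =>
      obtain ⟨i, rfl⟩ := hx
      obtain ⟨n, s, rfl⟩ := ih
      exact ⟨n + 1, Fin.cons i s, by simp [mono, Fin.prod_univ_succ]⟩
  have hA : ∀ f ∈ A, L f = 0 := by
    intro f hf
    have hf' : f ∈ Submodule.span ℝ (Submonoid.closure (range io) : Set C(X, ℝ)) := by
      rw [← Algebra.adjoin_eq_span]; exact hf
    have : Submodule.span ℝ (Submonoid.closure (range io) : Set C(X, ℝ)) ≤ L.ker := by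
      refine Submodule.span_le.2 fun g hg => ?_
      obtain ⟨n, s, rfl⟩ := hm g hg
      exact mono_zero hb L h s
    exact this hf'
  ext f
  have hf : f ∈ closure (A : Set C(X, ℝ)) := by
    have : f ∈ A.topologicalClosure := htop ▸ Algebra.mem_top
    exact this
  have hc : IsClosed {g | L g = 0} := isClosed_eq L.continuous continuous_const
  exact closure_minimal hA hc hf

/-- a subspace is dense when every bounded functional killing it is zero -/
theorem dense_of {E : Type*} [NormedAddCommGroup E] [NormedSpace ℝ E] (S : Submodule ℝ E)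
    (h : ∀ L : E →L[ℝ] ℝ, (∀ x ∈ S, L x = 0) → L = 0) : Dense (S : Set E) := by
  intro x
  by_contra hx
  obtain ⟨L, u, h1, h2⟩ := geometric_hahn_banach_closed_point S.convex.closure isClosed_closure hx
  have h0 : (0 : ℝ) < u := by simpa using h1 0 (subset_closure S.zero_mem)
  have hL : L = 0 := h L fun y hy => by
    by_contra hne
    have := h1 ((u / L y) • y) (subset_closure (S.smul_mem _ hy))
    rw [map_smul, smul_eq_mul, div_mul_cancel₀ _ hne] at this
    exact lt_irrefl _ this
  rw [hL] at h2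
  exact lt_asymm h0 h2

/-- the kernel functions span a dense subspace -/
theorem dense_span [T2Space X] {io : ι → C(X, ℝ)} (hio : ∀ x y, (∀ i, io i x = io i y) → x = y)
    {b : ℝ} (hb : 0 < b) : Dense (Submodule.span ℝ (range (ker io b)) : Set C(X, ℝ)) :=
  dense_of _ fun L h => univ hio hb L fun U => h _ (Submodule.subset_span (mem_range_self U))

theorem cont_ker (io : ι → C(X, ℝ)) (b : ℝ) : Continuous (ker io b) :=
  ContinuousMap.continuous_of_continuous_uncurry _ (by
    change Continuous fun p : X × X => Real.exp (b * ∑ i, io i p.1 * io i p.2)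
    fun_prop)

section op

variable [T2Space X] [MeasurableSpace X] [OpensMeasurableSpace X] (μ : Measure X) [IsFiniteMeasure μ]

theorem integ {E : Type*} [NormedAddCommGroup E] {f : X → E} (hf : Continuous f) : Integrable f μ :=
  hf.integrable_of_hasCompactSupport (HasCompactSupport.of_compactSpace f)

/-- the integral operator with kernel exp (b U.V) -/
def Kop (io : ι → C(X, ℝ)) (b : ℝ) (u : C(X, ℝ)) : C(X, ℝ) := ∫ U, u U • ker io b U ∂μ

theorem integ_K (io : ι → C(X, ℝ)) (b : ℝ) (u : C(X, ℝ)) :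
    Integrable (fun U => u U • ker io b U) μ := integ μ (u.continuous.smul (cont_ker io b))

theorem map_Kop (io : ι → C(X, ℝ)) (b : ℝ) (u : C(X, ℝ)) (L : C(X, ℝ) →L[ℝ] ℝ) :
    L (Kop μ io b u) = ∫ U, u U * L (ker io b U) ∂μ := by
  rw [Kop, ← L.integral_comp_comm (integ_K μ io b u)]
  simp only [map_smul, smul_eq_mul]

theorem Kop_apply (io : ι → C(X, ℝ)) (b : ℝ) (u : C(X, ℝ)) (V : X) :
    Kop μ io b u V = ∫ U, u U * Real.exp (b * ∑ i, io i U * io i V) ∂μ :=
  map_Kop μ io b u (ContinuousMap.evalCLM ℝ V)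

/-- a bounded functional killing the range of the integral operator is zero -/
theorem univ_op [μ.IsOpenPosMeasure] {io : ι → C(X, ℝ)}
    (hio : ∀ x y, (∀ i, io i x = io i y) → x = y) {b : ℝ} (hb : 0 < b) (L : C(X, ℝ) →L[ℝ] ℝ)
    (h : ∀ u, L (Kop μ io b u) = 0) : L = 0 := by
  have hc : Continuous fun U => L (ker io b U) := L.continuous.comp (cont_ker io b)
  have h1 := h ⟨_, hc⟩
  rw [map_Kop] at h1
  have h2 := (integral_eq_zero_iff_of_nonneg (fun U => mul_self_nonneg (L (ker io b U)))
    (integ μ (hc.mul hc))).1 h1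
  have h3 := ((hc.mul hc).ae_eq_iff_eq μ continuous_zero).1 h2
  exact univ hio hb L fun U => mul_self_eq_zero.1 (congrFun h3 U)

theorem Kop_add (io : ι → C(X, ℝ)) (b : ℝ) (u v : C(X, ℝ)) :
    Kop μ io b (u + v) = Kop μ io b u + Kop μ io b v := by
  rw [Kop, Kop, Kop, ← integral_add (integ_K μ io b u) (integ_K μ io b v)]
  simp only [ContinuousMap.add_apply, add_smul]

theorem Kop_smul (io : ι → C(X, ℝ)) (b c : ℝ) (u : C(X, ℝ)) :
    Kop μ io b (c • u) = c • Kop μ io b u := by
  rw [Kop, Kop, ← integral_smul]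
  simp only [ContinuousMap.smul_apply, smul_eq_mul, mul_smul]

/-- the integral operator has dense range -/
theorem dense_op [μ.IsOpenPosMeasure] {io : ι → C(X, ℝ)}
    (hio : ∀ x y, (∀ i, io i x = io i y) → x = y) {b : ℝ} (hb : 0 < b) :
    DenseRange (Kop μ io b) := by
  let K : C(X, ℝ) →ₗ[ℝ] C(X, ℝ) := ⟨⟨Kop μ io b, Kop_add μ io b⟩, Kop_smul μ io b⟩
  exact dense_of (LinearMap.range K) fun L h => univ_op μ hio hb L fun u => h _ ⟨u, rfl⟩

end op

end Pool.Agent.Lib.MP_7f377f_mp.S10U
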