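import Pool.Agent.Lib.MP_7f377f_mp.DgDefs
import Pool.Agent.Lib.MP_7f377f_mp.S10LU

/-! The one link kernel has dense range. -/

noncomputable section

namespace Pool.Agent.Lib.MP_7f377f_mp.Dg

open Weak MeasureTheory Real Function

set_option linter.unusedSectionVars false

variable {A : Type} [NormedRing A] [StarRing A] [NormedAlgebra ℝ A] [HS A]
variable {G : Type} [Group G] [TopologicalSpace G] [IsTopologicalGroup G] [CompactSpace G]
  [SecondCountableTopology G] [MeasurableSpace G] [BorelSpace G]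
  (μ : Measure G) [μ.IsHaarMeasure] [IsProbabilityMeasure μ] {ρ : G →* unitary A}

theorem qq_div (g v : G) :
    qq ρ (g * v⁻¹) = 2 * HS.tr (1 : A) - 2 * inner ℝ (ρ g : A) (ρ v : A) := by
  rw [inner_rho, ← qq_inv ρ (g⁻¹ * v), ← qq_conj ρ v (g⁻¹ * v)⁻¹,
    show v * (g⁻¹ * v)⁻¹ * v⁻¹ = g * v⁻¹ by group]
  ring

theorem ker_dense (hρ : Continuous ρ) (hi : Injective ρ) {β : ℝ} (hβ : 0 < β) (χ : C(G, ℝ)) {ε : ℝ}
    (hε : 0 < ε) : ∃ u : C(G, ℝ), ∀ v, |χ v - ∫ g, u g * exp (-(β * qq ρ (g * v⁻¹))) ∂μ| ≤ ε := by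
  have : T2Space G := .of_injective_continuous hi hρ
  have hc := continuous_rho ρ hρ
  set e := stdOrthonormalBasis ℝ A
  let io : Fin (Module.finrank ℝ A) → C(G, ℝ) := fun i =>
    ⟨fun g => inner ℝ (e i) (ρ g : A), continuous_const.inner hc⟩
  have hio : ∀ x y, (∀ i, io i x = io i y) → x = y := fun x y h => hi (Subtype.ext (by
    rw [← e.sum_repr' (ρ x : A), ← e.sum_repr' (ρ y : A)]
    exact Finset.sum_congr rfl fun i _ => congrArg (· • e i) (h i)))
  have hs : ∀ g v, ∑ i, io i g * io i v = inner ℝ (ρ g : A) (ρ v : A) := fun g v => by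
    rw [← e.sum_inner_mul_inner]
    exact Finset.sum_congr rfl fun i _ => congrArg (· * _) (real_inner_comm (ρ g : A) (e i))
  obtain ⟨u, hu⟩ := (S10U.dense_op μ hio (mul_pos two_pos hβ)).exists_dist_lt χ hε
  refine ⟨exp (2 * β * HS.tr (1 : A)) • u, fun v => ?_⟩
  have e1 : ∫ g, (exp (2 * β * HS.tr (1 : A)) • u) g * exp (-(β * qq ρ (g * v⁻¹))) ∂μ =
      S10U.Kop μ io (2 * β) u v := by
    rw [S10U.Kop_apply]
    refine integral_congr_ae (.of_forall fun g => ?_)
    beta_reduce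
    rw [ContinuousMap.smul_apply, smul_eq_mul, mul_comm _ (u g), mul_assoc, ← exp_add, hs, qq_div]
    congr 2
    ring
  rw [e1, ← Real.dist_eq]
  exact (ContinuousMap.dist_apply_le_dist v).trans hu.le

end Pool.Agent.Lib.MP_7f377f_mp.Dg
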