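import Pool.Agent.Lib.MP_7f377f_mp.DgDefs

/-! Reflection positivity of the diagonal torus. -/

noncomputable section

namespace Pool.Agent.Lib.MP_7f377f_mp.Dg

open Weak Coul MeasureTheory Real Function

set_option linter.unusedSectionVars false

variable {A : Type} [NormedRing A] [StarRing A] [NormedAlgebra ℝ A] [HS A]

namespace RP

variable {G : Type} [Group G] {n : ℕ}

/-- plaquette variable on the diagonal torus -/
def hl (U : Gm n × Fin 4 → G) (x : Gm n) (i j : Fin 4) : G :=
  U (x, i) * U (x + pg n (un i), j) * (U (x + pg n (un j), i))⁻¹ * (U (x, j))⁻¹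

theorem aT_eq [NeZero n] (ρ : G →* unitary A) (U : Gm n × Fin 4 → G) :
    aT ρ (pg n) U = ∑ x, ∑ i, ∑ j, qq ρ (hl U x i j) := by
  simp only [aT, zd, zh, lf, hl, map_zero, add_zero, zero_add]

theorem sx_un (x : Gm n) (i : Fin 4) : sx (x + pg n (un i)) = sx x + pg n (un (s01 i)) := by
  rw [sx_add, sx_pg, un_s01]

theorem hl_sw (U : Gm n × Fin 4 → G) (x : Gm n) (i j : Fin 4) :
    hl (swG U) x i j = hl U (sx x) (s01 i) (s01 j) := by
  simp only [hl, swG, sx_un]

theorem hl_swap (U : Gm n × Fin 4 → G) (x : Gm n) (i j : Fin 4) :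
    hl U x j i = (hl U x i j)⁻¹ := by
  simp only [hl]
  group

theorem s01_eq0 {i : Fin 4} : s01 i = 0 ↔ i = 1 := by revert i; decide

theorem s01_eq1 {i : Fin 4} : s01 i = 1 ↔ i = 0 := by revert i; decide

variable [NeZero n] (h : Nat.Coprime 2 n)

theorem val_lt (x : Gm n) : (lv h x).val < 2 * n := ZMod.val_lt _

theorem val_sx (x : Gm n) :
    (lv h (sx x)).val = if (lv h x).val = 0 then 0 else 2 * n - (lv h x).val := by
  rw [lv_sx, val_neg']

theorem val_un0 {x : Gm n} (hx : (lv h x).val + 1 < 2 * n) :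
    (lv h (x + pg n (un 0))).val = (lv h x).val + 1 := by
  rw [map_add, lv_pg, ← val_add_one _ hx]
  simp [un]

theorem val_un1 {x : Gm n} (hx : 0 < (lv h x).val) :
    (lv h (x + pg n (un 1))).val + 1 = (lv h x).val := by
  have e : lv h (x + pg n (un 1)) = (((lv h x).val - 1 : ℕ) : ZMod (2 * n)) := by
    rw [map_add, lv_pg, Nat.cast_sub hx, ZMod.natCast_zmod_val]
    simp [un, sub_eq_add_neg]
  have := val_lt h x
  rw [e, ZMod.val_cast_of_lt (by omega)]
  omega

theorem val_un {i : Fin 4} (h0 : i ≠ 0) (h1 : i ≠ 1) (x : Gm n) :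
    (lv h (x + pg n (un i))).val = (lv h x).val := by
  rw [map_add, lv_pg]
  simp [un, h0.symm, h1.symm]

theorem fix {x : Gm n} (hx : (lv h x).val = 0 ∨ (lv h x).val = n) : sx x = x :=
  sx_fix h (hx.imp (ZMod.val_eq_zero _).1 fun e =>
    (ZMod.natCast_zmod_val _).symm.trans (congrArg Nat.cast e))

/-- share of a plaquette in the positive half -/
def cw (n l : ℕ) (i j : Fin 4) : ℝ :=
  if i = 0 ∨ j = 0 then (if i = 1 ∨ j = 1 then (if 0 < l ∧ l < n then 1 else 0) else
    if l < n then 1 else 0) else if i = 1 ∨ j = 1 then (if 0 < l ∧ l ≤ n then 1 else 0) else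
      if l = 0 ∨ l = n then 1 / 2 else if l < n then 1 else 0

theorem cw_add (x : Gm n) (i j : Fin 4) :
    cw n (lv h x).val i j + cw n (lv h (sx x)).val (s01 i) (s01 j) +
      (if ((lv h x).val = 0 ∨ (lv h x).val = n) ∧ (i = 0 ∨ j = 0) ∧ (i = 1 ∨ j = 1) then 1 else 0) =
      1 := by
  have h1 := val_lt h x
  have h2 := val_sx h x
  generalize (lv h (sx x)).val = l' at *
  generalize (lv h x).val = l at *
  unfold cw
  simp only [s01_eq0, s01_eq1]
  by_cases a : i = 0 ∨ j = 0 <;> by_cases c : i = 1 ∨ j = 1 <;>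
    simp only [a, c, if_true, if_false, and_true, and_false] <;>
    split_ifs at h2 ⊢ <;> first | omega | norm_num

/-- the part of the action in the positive half -/
def ap (ρ : G →* unitary A) (U : Gm n × Fin 4 → G) : ℝ :=
  ∑ x, ∑ i, ∑ j, cw n (lv h x).val i j * qq ρ (hl U x i j)

theorem ap_add (ρ : G →* unitary A) (U : Gm n × Fin 4 → G) :
    ap h ρ U + ap h ρ (swG U) + 2 * ∑ x : Gm n,
      (if (lv h x).val = 0 ∨ (lv h x).val = n then qq ρ (hl U x 0 1) else 0) = aT ρ (pg n) U := by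
  have e1 : ap h ρ (swG U) =
      ∑ x, ∑ i, ∑ j, cw n (lv h (sx x)).val (s01 i) (s01 j) * qq ρ (hl U x i j) := by
    rw [ap, ← Equiv.sum_comp (Function.Involutive.toPerm sx sx_sx)]
    refine Finset.sum_congr rfl fun x _ => ?_
    rw [← Equiv.sum_comp s01]
    refine Finset.sum_congr rfl fun i _ => ?_
    rw [← Equiv.sum_comp s01]
    change ∑ j, cw n (lv h (sx x)).val (s01 i) (s01 j) * qq ρ (hl (swG U) (sx x) (s01 i) (s01 j)) = _
    simp only [hl_sw, sx_sx, s01_s01]
  have e2 : ∀ x : Gm n,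
      2 * (if (lv h x).val = 0 ∨ (lv h x).val = n then qq ρ (hl U x 0 1) else 0) = ∑ i, ∑ j,
      (if ((lv h x).val = 0 ∨ (lv h x).val = n) ∧ (i = 0 ∨ j = 0) ∧ (i = 1 ∨ j = 1) then 1 else 0) *
        qq ρ (hl U x i j) := by
    intro x
    by_cases a : (lv h x).val = 0 ∨ (lv h x).val = n
    · simp only [a, true_and, if_true]
      simp [Fin.sum_univ_four, hl_swap U x 0 1, qq_inv, two_mul]
    · simp only [a, false_and, if_false, zero_mul, mul_zero, Finset.sum_const_zero]
  rw [e1, ap, aT_eq, Finset.mul_sum, ← Finset.sum_add_distrib, ← Finset.sum_add_distrib]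
  refine Finset.sum_congr rfl fun x _ => ?_
  rw [e2, ← Finset.sum_add_distrib, ← Finset.sum_add_distrib]
  refine Finset.sum_congr rfl fun i _ => ?_
  rw [← Finset.sum_add_distrib, ← Finset.sum_add_distrib]
  refine Finset.sum_congr rfl fun j _ => ?_
  rw [← add_mul, ← add_mul, cw_add, one_mul]

theorem mem_un {x : Gm n} {i j : Fin 4} (hij : i ≠ j) (hi : (x, i) ∈ plusG h)
    (h0 : j = 0 → (lv h x).val < n ∧ (i = 1 → 0 < (lv h x).val))
    (h1 : j = 1 → 0 < (lv h x).val) : (x + pg n (un i), j) ∈ plusG h := by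
  obtain ⟨a1, a2, a3⟩ := hi
  simp only at a1 a2 a3
  have hn := NeZero.pos n
  by_cases i0 : i = 0
  · subst i0
    have := val_un0 h (x := x) (by have := a2 rfl; omega)
    have := a2 rfl
    exact ⟨by simp only; omega, fun e => absurd e.symm hij, fun _ => by simp only; omega⟩
  by_cases i1 : i = 1
  · subst i1
    have := val_un1 h (a3 rfl)
    exact ⟨by simp only; omega, fun _ => by simp only; omega, fun e => absurd e.symm hij⟩
  have := val_un h i0 i1 x
  exact ⟨this.trans_le a1, fun e => this.trans_lt (h0 e).1, fun e => (h1 e).trans_eq this.symm⟩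

theorem on_ap (ρ : G →* unitary A) : On (plusG h) (ap h ρ) := by
  intro U V H
  refine Finset.sum_congr rfl fun x _ => Finset.sum_congr rfl fun i _ =>
    Finset.sum_congr rfl fun j _ => ?_
  by_cases hij : i = j
  · simp [hij, hl]
  by_cases hc : (lv h x).val ≤ n ∧ (i = 0 ∨ j = 0 → (lv h x).val < n) ∧
      (i = 1 ∨ j = 1 → 0 < (lv h x).val)
  · obtain ⟨c1, c2, c3⟩ := hc
    have mi : (x, i) ∈ plusG h := ⟨c1, fun e => c2 (Or.inl e), fun e => c3 (Or.inl e)⟩
    have mj : (x, j) ∈ plusG h := ⟨c1, fun e => c2 (Or.inr e), fun e => c3 (Or.inr e)⟩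
    rw [hl, hl, H _ mi, H _ mj,
      H _ (mem_un h hij mi (fun e => ⟨c2 (Or.inr e), fun e => c3 (Or.inl e)⟩) fun e => c3 (Or.inr e)),
      H _ (mem_un h (Ne.symm hij) mj (fun e => ⟨c2 (Or.inl e), fun e => c3 (Or.inr e)⟩)
        fun e => c3 (Or.inl e))]
  · have : cw n (lv h x).val i j = 0 := by
      unfold cw
      split_ifs <;> first | rfl | (exfalso; apply hc; refine ⟨?_, ?_, ?_⟩ <;> omega)
    rw [this, zero_mul, zero_mul]

/-- the halves of the plaquettes which cross a mirror -/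
def xv (ρ : G →* unitary A) (V : Gm n × Fin 4 → G) (x : Gm n) : A :=
  if (lv h x).val = 0 then (ρ (V (x, 0) * V (x + pg n (un 0), 1)) : A) else
    if (lv h x).val = n then (ρ (V (x, 1) * V (x + pg n (un 1), 0)) : A) else 0

theorem on_xv (ρ : G →* unitary A) : On (plusG h) (xv h ρ) := by
  intro U V H
  funext x
  have hn := NeZero.pos n
  unfold xv
  split_ifs with a b
  · have := val_un0 h (x := x) (by omega)
    rw [H (x, 0) ⟨by simp only; omega, fun _ => by simp only; omega, fun e => by simp at e⟩,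
      H (_, 1) ⟨by simp only; omega, fun e => by simp at e, fun _ => by simp only; omega⟩]
  · have := val_un1 h (x := x) (by omega)
    rw [H (x, 1) ⟨by simp only; omega, fun e => by simp at e, fun _ => by simp only; omega⟩,
      H (_, 0) ⟨by simp only; omega, fun _ => by simp only; omega, fun e => by simp at e⟩]
  · rfl

theorem dot_xv (ρ : G →* unitary A) (Z : Gm n × Fin 4 → G) :
    dot (xv h ρ Z) (xv h ρ (swG Z)) =
      (∑ x : Gm n, if (lv h x).val = 0 ∨ (lv h x).val = n then HS.tr (1 : A) else 0) -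
      (∑ x : Gm n, if (lv h x).val = 0 ∨ (lv h x).val = n then qq ρ (hl Z x 0 1) else 0) / 2 := by
  rw [Finset.sum_div, ← Finset.sum_sub_distrib]
  refine Finset.sum_congr rfl fun x _ => ?_
  unfold xv
  by_cases a : (lv h x).val = 0
  · simp only [a, true_or, if_true, inner_rho, swG, sx_un, fix h (Or.inl a), s01_0, s01_1]
    rw [← qq_inv, ← qq_conj ρ (Z (x, 1) * Z (x + pg n (un 1), 0))]
    congr 3
    unfold hl
    group
  by_cases b : (lv h x).val = n
  · rw [if_neg a, if_neg a, if_pos b, if_pos b, if_pos (Or.inr b), if_pos (Or.inr b)]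
    simp only [inner_rho, swG, sx_un, fix h (Or.inr b), s01_0, s01_1]
    rw [← qq_conj ρ (Z (x, 1) * Z (x + pg n (un 1), 0))]
    congr 3
    unfold hl
    group
  · simp [a, b]

theorem not_plus {e : Gm n × Fin 4} (he : e ∈ plusG h)
    (ho : ¬ (((lv h e.1).val = 0 ∨ (lv h e.1).val = n) ∧ e.2 ≠ 0 ∧ e.2 ≠ 1)) :
    (sx e.1, s01 e.2) ∉ plusG h := by
  rintro ⟨b1, b2, b3⟩
  obtain ⟨a1, a2, a3⟩ := he
  have := val_sx h e.1
  simp only [s01_eq0, s01_eq1] at b1 b2 b3
  apply ho
  split_ifs at this <;> refine ⟨by omega, fun e => ?_, fun e => ?_⟩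
  · have := b3 e; omega
  · have := a3 e; omega
  · have := a2 e; omega
  · have := b2 e; omega

end RP

variable {G : Type} [Group G] [TopologicalSpace G] [IsTopologicalGroup G] [CompactSpace G]
  [SecondCountableTopology G] [MeasurableSpace G] [BorelSpace G]
  (μ : Measure G) [μ.IsHaarMeasure] [IsProbabilityMeasure μ] {ρ : G →* unitary A}
  {E : Type} [Fintype E] {T : Type} [AddCommGroup T] [Fintype T]

open RP in
theorem rp_diag' (hρ : Continuous ρ) {b : ℝ} (hb : 0 ≤ b) {n : ℕ} [NeZero n] (h : Nat.Coprime 2 n)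
    {g : (Gm n × Fin 4 → G) → ℝ} (hg : Continuous g) (hd : On (plusG h) g) :
    0 ≤ I μ fun U => g U * g (swG U) * exp (-(b * aT ρ (pg n) U)) := by
  classical
  have cq := continuous_qq ρ hρ
  have hc : Continuous (ap h ρ) := by unfold ap hl; fun_prop
  have cρ := continuous_rho ρ hρ
  have cr := cont_swG (G := G) (n := n)
  have ca := cont_aT hρ (pg n)
  set f : (Gm n × Fin 4 → G) → ℝ := fun U => g U * exp (-(b * ap h ρ U)) with hf
  have df : On (plusG h) f := fun U V H => by simp only [hf, hd U V H, on_ap h ρ U V H]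
  have cx : Continuous (xv h ρ) := continuous_pi fun e => by
    unfold xv; split_ifs <;> fun_prop
  have cf : Continuous f := by fun_prop
  have key := rp_kernel μ (fun e : Gm n × Fin 4 =>
    ((lv h e.1).val = 0 ∨ (lv h e.1).val = n) ∧ e.2 ≠ 0 ∧ e.2 ≠ 1) cf cx (β := 4 * b) (by positivity)
  obtain ⟨c, hc0⟩ : ∃ c : ℝ, c = ∑ x : Gm n,
    if (lv h x).val = 0 ∨ (lv h x).val = n then HS.tr (1 : A) else 0 := ⟨_, rfl⟩
  rw [I, int_merge μ (fun e => e ∉ plusG h) (by fun_prop)]
  refine (mul_nonneg (exp_pos (-(4 * b * c))).le key).trans_eq ?_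
  rw [← integral_const_mul]
  congr 1
  funext U
  have cm : Continuous fun V : Gm n × Fin 4 → G => fun e : Gm n × Fin 4 =>
      if ((lv h e.1).val = 0 ∨ (lv h e.1).val = n) ∧ e.2 ≠ 0 ∧ e.2 ≠ 1 then U e else V e :=
    continuous_pi fun e => by split_ifs <;> fun_prop
  have := I_swG μ (cont_ker (continuous_const (y := f U)) (cf.comp cm)
    (continuous_const (y := xv h ρ U)) (cx.comp cm) (4 * b))
  simp only [I, comp] at this
  rw [← this, ← integral_const_mul]
  congr 1
  funext Y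
  set Z : Gm n × Fin 4 → G := fun e => if e ∉ plusG h then Y e else U e with hZ
  set V : Gm n × Fin 4 → G := fun e =>
    if ((lv h e.1).val = 0 ∨ (lv h e.1).val = n) ∧ e.2 ≠ 0 ∧ e.2 ≠ 1 then U e else swG Y e with hV
  have z1 : ∀ e ∈ plusG h, U e = Z e := fun e he => by simp [hZ, he]
  have z2 : ∀ e ∈ plusG h, V e = swG Z e := fun e he => by
    simp only [hV]
    split_ifs with a
    · rw [swG, fix h a.1, s01, Equiv.swap_apply_of_ne_of_ne a.2.1 a.2.2]
      exact z1 e he
    · simp only [swG, hZ, if_pos (not_plus h he a)]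
  rw [df U Z z1, df V _ z2, on_xv h ρ U Z z1, on_xv h ρ V _ z2, dot_xv, ← hc0, ← ap_add h ρ Z]
  simp only [hf]
  have : ∀ p q a b c e : ℝ, exp a * (p * exp b * (q * exp c) * exp e) =
      p * q * exp (a + b + c + e) := fun _ _ _ _ _ _ => by simp only [exp_add]; ring
  rw [this]
  congr 2
  ring

theorem rp_diag (hρ : Continuous ρ) {b : ℝ} (hb : 0 ≤ b) {n : ℕ} [NeZero n] (h : Nat.Coprime 2 n)
    (_h3 : 3 ≤ n) {g : (Gm n × Fin 4 → G) → ℝ} (hg : Continuous g) (hd : On (plusG h) g) :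
    0 ≤ I μ fun U => g U * g (swG U) * exp (-(b * aT ρ (pg n) U)) :=
  rp_diag' μ hρ hb h hg hd

end Pool.Agent.Lib.MP_7f377f_mp.Dg
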