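import Pool.Agent.Lib.MP_7f377f_mp.DgCore
import Pool.Agent.Lib.MP_7f377f_mp.DgRP
import Pool.Agent.Lib.MP_7f377f_mp.DgJen

/-! Large cubic tori are almost reflection positive for the diagonal mirror. -/

noncomputable section

namespace Pool.Agent.Lib.MP_7f377f_mp.Dg

open Weak MeasureTheory Real Function Filter Topology

set_option linter.unusedSectionVars false

variable {A : Type} [NormedRing A] [StarRing A] [NormedAlgebra ℝ A] [HS A]
variable {G : Type} [Group G] [TopologicalSpace G] [IsTopologicalGroup G] [CompactSpace G]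
  [SecondCountableTopology G] [MeasurableSpace G] [BorelSpace G]
  (μ : Measure G) [μ.IsHaarMeasure] [IsProbabilityMeasure μ] {ρ : G →* unitary A}
  {n m r : ℕ} [NeZero n]

/-- the level modulo `2 m` -/
def l2 (h : Nat.Coprime 2 n) (hm : m ∣ n) : Gm n →+ ZMod (2 * m) :=
  (ZMod.castHom (mul_dvd_mul_left 2 hm) (ZMod (2 * m))).toAddMonoidHom.comp (lv h)

theorem l2_pg (h : Nat.Coprime 2 n) (hm : m ∣ n) (y : Z4) :
    l2 h hm (pg n y) = ((y 0 - y 1 : ℤ) : ZMod (2 * m)) := by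
  change ZMod.castHom (mul_dvd_mul_left 2 hm) _ (lv h _) = _
  rw [lv_pg, map_intCast]

theorem l2_sx (h : Nat.Coprime 2 n) (hm : m ∣ n) (x : Gm n) : l2 h hm (sx x) = -l2 h hm x := by
  change ZMod.castHom (mul_dvd_mul_left 2 hm) _ (lv h _) =
    -ZMod.castHom (mul_dvd_mul_left 2 hm) _ (lv h _)
  rw [lv_sx, map_neg]

theorem l2_val (h : Nat.Coprime 2 n) (hm : m ∣ n) (x : Gm n) :
    l2 h hm x = ((((lv h x).val : ℕ) : ℤ) : ZMod (2 * m)) := by
  have : NeZero (2 * n) := ⟨mul_ne_zero two_ne_zero (NeZero.ne n)⟩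
  change ZMod.castHom (mul_dvd_mul_left 2 hm) _ (lv h _) = _
  conv_lhs => rw [← ZMod.natCast_zmod_val (lv h x)]
  rw [map_natCast, Int.cast_natCast]

/-- the sites which carry the perturbation -/
def XX (h : Nat.Coprime 2 n) (hm : m ∣ n) (c : ℤ) : Finset (Gm n) :=
  Finset.univ.filter fun x => l2 h hm x = c ∨ l2 h hm x = -c

theorem mem_XX {h : Nat.Coprime 2 n} {hm : m ∣ n} {c : ℤ} {x : Gm n} :
    x ∈ XX h hm c ↔ l2 h hm x = c ∨ l2 h hm x = -c := by simp [XX]

theorem sum_add_XX {h : Nat.Coprime 2 n} {hm : m ∣ n} {c : ℤ} {a : Gm n} (ha : l2 h hm a = 0)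
    (u : Gm n → ℝ) : ∑ x ∈ XX h hm c, u (x + a) = ∑ x ∈ XX h hm c, u x :=
  Finset.sum_equiv (Equiv.addRight a) (fun x => by
    simp only [mem_XX, Equiv.coe_addRight, map_add, ha, add_zero]) fun _ _ => rfl

theorem sx_XX {h : Nat.Coprime 2 n} {hm : m ∣ n} {c : ℤ} {x : Gm n} :
    sx x ∈ XX h hm c ↔ x ∈ XX h hm c := by
  simp only [mem_XX, l2_sx, neg_eq_iff_eq_neg, neg_neg]
  exact or_comm

theorem sum_sx_XX {h : Nat.Coprime 2 n} {hm : m ∣ n} {c : ℤ} (u : Gm n → ℝ) :
    ∑ x ∈ XX h hm c, u (sx x) = ∑ x ∈ XX h hm c, u x :=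
  Finset.sum_equiv (Involutive.toPerm sx sx_sx) (fun _ => sx_XX.symm) fun _ _ => rfl

theorem card_XX (h : Nat.Coprime 2 n) (hm : m ∣ n) (c : ℤ) : n ^ 4 ≤ m * (XX h hm c).card := by
  have m0 : m ≠ 0 := ne_zero_of_dvd_ne_zero (NeZero.ne n) hm
  have : NeZero (2 * m) := ⟨mul_ne_zero two_ne_zero m0⟩
  have sj : ∀ z, z ∈ Set.range (l2 h hm) := fun z => ⟨pg n (Pi.single 0 (z.val : ℤ)), by
    rw [l2_pg]; simp⟩
  have e := Finset.card_eq_sum_card_fiberwise (s := Finset.univ) (t := Finset.univ)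
    (f := l2 h hm) fun _ _ => Finset.mem_univ _
  rw [Finset.sum_congr rfl fun z _ => AddMonoidHom.card_fiber_eq_of_mem_range (l2 h hm) (sj z)
    (sj c)] at e
  simp only [Finset.card_univ, Fintype.card_prod, Fintype.card_pi, ZMod.card, Finset.prod_const,
    Fintype.card_fin, Finset.sum_const, smul_eq_mul] at e
  have l : (Finset.univ.filter fun x => l2 h hm x = c).card ≤ (XX h hm c).card :=
    Finset.card_le_card fun x hx => mem_XX.2 (Or.inl (Finset.mem_filter.1 hx).2)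
  nlinarith

theorem lev_XX {h : Nat.Coprime 2 n} {hm : m ∣ n} (hr : 4 * r + 4 ≤ m) {x : Gm n}
    (hx : x ∈ XX h hm (2 * r + 2)) (hv : (lv h x).val ≤ n) :
    2 * r + 2 ≤ (lv h x).val ∧ (lv h x).val + (2 * r + 2) ≤ n := by
  obtain ⟨t, ht⟩ := hm
  have hv' : (((lv h x).val : ℕ) : ℤ) ≤ m * t := by exact_mod_cast hv.trans_eq ht
  have hr' : 4 * (r : ℤ) + 4 ≤ m := by exact_mod_cast hr
  have r0 : (0 : ℤ) ≤ r := by positivity
  have v0 : (0 : ℤ) ≤ ((lv h x).val : ℕ) := by positivity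
  have key : 2 * (r : ℤ) + 2 ≤ ((lv h x).val : ℕ) ∧ ((lv h x).val : ℕ) + (2 * (r : ℤ) + 2) ≤ m * t := by
    rw [mem_XX, l2_val, ← Int.cast_neg, ZMod.intCast_eq_intCast_iff_dvd_sub,
      ZMod.intCast_eq_intCast_iff_dvd_sub] at hx
    generalize (((lv h x).val : ℕ) : ℤ) = v at *
    rcases hx with ⟨u, hu⟩ | ⟨u, hu⟩ <;> push_cast at hu
    · have u0 : u ≤ 0 := by
        by_contra h'
        nlinarith [show 1 ≤ u by omega]
      have u1 : -2 * u + 1 ≤ t := by
        by_contra h'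
        nlinarith [show (t : ℤ) ≤ -2 * u by omega]
      constructor <;> nlinarith
    · have u0 : u ≤ -1 := by
        by_contra h'
        nlinarith [show 0 ≤ u by omega]
      have u1 : -2 * u ≤ t := by
        by_contra h'
        nlinarith [show (t : ℤ) + 1 ≤ -2 * u by omega]
      constructor <;> nlinarith
  refine ⟨by exact_mod_cast key.1, ?_⟩
  have : (lv h x).val + (2 * r + 2) ≤ m * t := by exact_mod_cast key.2
  exact this.trans_eq ht.symm

theorem val_lv (h : Nat.Coprime 2 n) (x : Gm n) (y : Z4)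
    (h0 : 0 ≤ ((lv h x).val : ℤ) + (y 0 - y 1)) (h1 : ((lv h x).val : ℤ) + (y 0 - y 1) < n) :
    ((lv h (x + pg n y)).val : ℤ) = (lv h x).val + (y 0 - y 1) := by
  have : NeZero (2 * n) := ⟨mul_ne_zero two_ne_zero (NeZero.ne n)⟩
  have e : lv h (x + pg n y) = ((((lv h x).val : ℤ) + (y 0 - y 1) : ℤ) : ZMod (2 * n)) := by
    rw [map_add, lv_pg, Int.cast_add, Int.cast_natCast, ZMod.natCast_zmod_val]
  rw [e, ZMod.val_intCast, Int.emod_eq_of_lt h0 (by push_cast; omega)]

theorem sum_half {h : Nat.Coprime 2 n} {hm : m ∣ n} (hr : 4 * r + 4 ≤ m) (u : Gm n → ℝ) :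
    ∑ x ∈ XX h hm (2 * r + 2), u x =
      ∑ x ∈ (XX h hm (2 * r + 2)).filter fun x => (lv h x).val ≤ n, u x +
      ∑ x ∈ (XX h hm (2 * r + 2)).filter fun x => (lv h x).val ≤ n, u (sx x) := by
  have : NeZero (2 * n) := ⟨mul_ne_zero two_ne_zero (NeZero.ne n)⟩
  rw [← Finset.sum_filter_add_sum_filter_not _ fun x => (lv h x).val ≤ n]
  congr 1
  refine (Finset.sum_equiv (Involutive.toPerm sx sx_sx) (fun x => ?_) fun _ _ => rfl).symm
  change _ ↔ sx x ∈ _
  simp only [Finset.mem_filter, sx_XX, lv_sx, val_neg']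
  refine and_congr_right fun hx => ?_
  have := ZMod.val_lt (lv h x)
  have := lev_XX hr hx
  split_ifs <;> omega

theorem swZ_box {ψ : (ZL → G) → ℝ} (h : On (box r) ψ) : On (box r) fun U => ψ (swZ U) :=
  fun _ _ h' => h _ _ fun _ he => h' _ fun _ => he _

theorem swZ_gi {ψ : (ZL → G) → ℝ} (h : GI ψ) : GI fun U => ψ (swZ U) := by
  intro k U
  beta_reduce
  rw [← h (fun y => k (y ∘ s01)) (swZ U)]
  congr 1
  funext e
  simp only [swZ, ga, AddMonoidHom.id_apply, ← un_s01]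
  rfl

/-- the perturbed density -/
def pp (ρ : G →* unitary A) (b lam : ℝ) (X : Finset (Gm n)) (f : (ZL → G) → ℝ)
    (U : Gm n × Fin 4 → G) : ℝ :=
  exp (-(b * aT ρ (pg n) U) + lam * ∑ x ∈ X, f (lf (pg n) x U)) /
    I μ fun V => exp (-(b * aT ρ (pg n) V) + lam * ∑ x ∈ X, f (lf (pg n) x V))

theorem cont_F (X : Finset (Gm n)) {f : (ZL → G) → ℝ} (hf : Continuous f) :
    Continuous fun U => ∑ x ∈ X, f (lf (pg n) x U) :=
  continuous_finsetSum _ fun _ _ => hf.comp (cont_lf _ _)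

theorem pp_den (hρ : Continuous ρ) (b lam : ℝ) (X : Finset (Gm n)) {f : (ZL → G) → ℝ}
    (hf : Continuous f) : Den μ (pp μ ρ b lam X f) :=
  den_exp μ ((continuous_const.mul (cont_aT hρ _)).neg.add (continuous_const.mul (cont_F X hf)))

theorem pp_sh {h : Nat.Coprime 2 n} {hm : m ∣ n} {c : ℤ} {a : Gm n} (ha : l2 h hm a = 0)
    (b lam : ℝ) (f : (ZL → G) → ℝ) (U : Gm n × Fin 4 → G) :
    pp μ ρ b lam (XX h hm c) f (sh a U) = pp μ ρ b lam (XX h hm c) f U := by
  simp only [pp, aT_sh, lf_sh, sum_add_XX ha fun x => f (lf (pg n) x U)]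

theorem pp_sw {h : Nat.Coprime 2 n} {hm : m ∣ n} {c : ℤ} (b lam : ℝ) {f : (ZL → G) → ℝ}
    (hf : ∀ U, f (swZ U) = f U) (U : Gm n × Fin 4 → G) :
    pp μ ρ b lam (XX h hm c) f (swG U) = pp μ ρ b lam (XX h hm c) f U := by
  simp only [pp, aT_swG, lf_swG, hf, sum_sx_XX fun x => f (lf (pg n) x U)]

theorem pp_ga (b lam : ℝ) (X : Finset (Gm n)) {f : (ZL → G) → ℝ} (hf : GI f) (k : Gm n → G)
    (U : Gm n × Fin 4 → G) : pp μ ρ b lam X f (ga (pg n) k U) = pp μ ρ b lam X f U := by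
  simp only [pp, aT_ga, lf_ga, hf _ _]

theorem pp_sum (hρ : Continuous ρ) {h : Nat.Coprime 2 n} {hm : m ∣ n} (c : ℤ) (b lam : ℝ)
    {f : (ZL → G) → ℝ} (hc : Continuous f) (hf : ∀ U, f (swZ U) = f U) :
    I μ (fun U => pp μ ρ b lam (XX h hm c) f U * ∑ x ∈ XX h hm c, f (lf (pg n) x U)) =
      (XX h hm c).card * I μ fun U => pp μ ρ b lam (XX h hm c) f U *
        f (lf (pg n) (pg n (c • un 0)) U) := by
  have dp := (pp_den μ hρ b lam (XX h hm c) hc).cont
  have e0 : l2 h hm (pg n (c • un 0)) = c := by rw [l2_pg]; simp [un]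
  have k1 : ∀ x, l2 h hm x = c → I μ (fun U => pp μ ρ b lam (XX h hm c) f U *
      f (lf (pg n) x U)) = I μ fun U => pp μ ρ b lam (XX h hm c) f U *
        f (lf (pg n) (pg n (c • un 0)) U) := by
    intro x hx
    rw [← I_inv μ dp (F := fun U => f (lf (pg n) (pg n (c • un 0)) U)) (hc.comp (cont_lf _ _))
      (pp_sh μ (a := x - pg n (c • un 0)) (by rw [map_sub, hx, e0, sub_self]) b lam f)]
    simp only [lf_sh, add_sub_cancel]
  simp only [Finset.mul_sum]
  rw [I, integral_finsetSum _ fun x _ => cint _ (f := fun U => pp μ ρ b lam (XX h hm c) f U *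
    f (lf (pg n) x U)) (dp.mul (hc.comp (cont_lf _ _))), ← nsmul_eq_mul, ← Finset.sum_const]
  refine Finset.sum_congr rfl fun x hx => ?_
  rcases mem_XX.1 hx with hx | hx
  · exact k1 x hx
  · rw [← k1 (sx x) (by rw [l2_sx, hx, neg_neg]), ← I_swG μ (F := fun U =>
      pp μ ρ b lam (XX h hm c) f U * f (lf (pg n) (sx x) U)) (dp.mul (hc.comp (cont_lf _ _)))]
    simp only [pp_sw μ b lam hf, lf_swG, sx_sx, hf]
    rfl

theorem pp_rp (hρ : Continuous ρ) {h : Nat.Coprime 2 n} {hm : m ∣ n} (hr : 4 * r + 4 ≤ m) {b : ℝ}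
    (hb : 0 ≤ b) (lam : ℝ) {g f : (ZL → G) → ℝ} (hg : Continuous g) (og : On (box r ∩ plus) g)
    (hc : Continuous f) (of : On (box r) f) (hf : ∀ U, f (swZ U) = f U) :
    0 ≤ I μ fun U => pp μ ρ b lam (XX h hm (2 * r + 2)) f U *
      (g (lf (pg n) 0 U) * g (swZ (lf (pg n) 0 U))) := by
  have mn : m ≤ n := Nat.le_of_dvd (NeZero.pos n) hm
  set Y := (XX h hm (2 * r + 2)).filter fun x => (lv h x).val ≤ n with hY
  have o1 : On (plusG h) fun U => g (lf (pg n) 0 U) := on_lf og _ _ fun e he => by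
    have a0 := abs_le.1 (he.1 0)
    have a1 := abs_le.1 (he.1 1)
    have a2 := he.2.1
    have z : (lv h (0 : Gm n)).val = 0 := by rw [map_zero, ZMod.val_zero]
    have v := val_lv h 0 e.1 (by omega) (by omega)
    exact ⟨by simp only; omega, fun _ => by simp only; omega, fun h1 => by
      have := he.2.2 h1
      simp only; omega⟩
  have o2 : ∀ x ∈ Y, On (plusG h) fun U => f (lf (pg n) x U) := fun x hx =>
    on_lf of _ _ fun e he => by
      have a0 := abs_le.1 (he 0)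
      have a1 := abs_le.1 (he 1)
      have a2 := lev_XX hr (Finset.mem_filter.1 hx).1 (Finset.mem_filter.1 hx).2
      have v := val_lv h x e.1 (by omega) (by omega)
      exact ⟨by simp only; omega, fun _ => by simp only; omega, fun _ => by simp only; omega⟩
  have key := rp_diag μ hρ hb h (by omega)
    (g := fun U => g (lf (pg n) 0 U) * exp (lam * ∑ x ∈ Y, f (lf (pg n) x U)))
    ((hg.comp (cont_lf _ _)).mul (continuous_exp.comp (continuous_const.mul (cont_F Y hc))))
    fun U V h' => by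
      have e1 := o1 U V h'
      have e2 : ∑ x ∈ Y, f (lf (pg n) x U) = ∑ x ∈ Y, f (lf (pg n) x V) :=
        Finset.sum_congr rfl fun x hx => o2 x hx U V h'
      simp only at e1 ⊢
      rw [e1, e2]
  have z0 : 0 ≤ I μ fun V => exp (-(b * aT ρ (pg n) V) +
      lam * ∑ x ∈ XX h hm (2 * r + 2), f (lf (pg n) x V)) := integral_nonneg fun _ => (exp_pos _).le
  refine (div_nonneg key z0).trans_eq ?_
  rw [I, ← integral_div]
  congr 1
  funext U
  have s0 : sx (0 : Gm n) = 0 := rfl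
  simp only [pp, lf_swG, hf, s0]
  rw [sum_half hr fun x => f (lf (pg n) x U), mul_add lam, exp_add, exp_add]
  ring

/-- the cubic torus state is almost reflection positive for the diagonal mirror -/
theorem diag_rp (hρ : Continuous ρ) (hi : Injective ρ) {b : ℝ} (hb : 0 < b) {r m : ℕ}
    (hm : 4 * r + 4 ≤ m) {g : (ZL → G) → ℝ} (hg : Continuous g) (hr : On (box r ∩ plus) g)
    (hG : GI g) {ε : ℝ} (hε : 0 < ε) : ∃ δ > 0, ∃ n₀ : ℕ, ∀ (n : ℕ) [NeZero n] (b' : ℝ), Odd n →
    m ∣ n → n₀ ≤ n → |b' - b| ≤ δ →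
    -ε ≤ ∫ U, g (lf (pc n) 0 U) * g (swZ (lf (pc n) 0 U)) ∂(nu μ ρ 4 n b') := by
  by_contra hc
  push Not at hc
  choose n n0 b' ho hd h1 h2 h3 using fun k : ℕ =>
    hc ((1 / (k + 1)) ^ 2) (by positivity) ((k + 1) ^ 2 + 3)
  set f : (ZL → G) → ℝ := fun U => -(g U * g (swZ U)) with hf
  have cf : Continuous f := (hg.mul (hg.comp cont_swZ)).neg
  have ob : On (box r) g := hr.mono Set.inter_subset_left
  have of : On (box r) f := fun U V h => by
    have := swZ_box ob U V h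
    simp only at this
    simp only [hf, ob U V h, this]
  have sf : ∀ U, f (swZ U) = f U := fun U => by simp only [hf, swZ_swZ, mul_comm]
  have gf : GI f := fun k U => by
    have := swZ_gi hG k U
    simp only at this
    simp only [hf, hG k U, this]
  obtain ⟨M, hM⟩ : ∃ M : ℝ, ∀ U, |f U| ≤ M := ⟨_, (⟨f, cf⟩ : C(_, ℝ)).norm_coe_le_norm⟩
  have M0 : 0 ≤ M := (abs_nonneg _).trans (hM 1)
  have co : ∀ k, Nat.Coprime 2 (n k) := fun k => Nat.coprime_two_left.2 (ho k)
  set t : ℕ → ℝ := fun k => 1 / (k + 1) with ht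
  have t0 : ∀ k, 0 < t k := fun k => by positivity
  have t1 : ∀ k, t k ≤ 1 := fun k => by
    rw [ht, div_le_one (by positivity)]
    linarith [(Nat.cast_nonneg k : (0 : ℝ) ≤ k)]
  have tt : Tendsto t atTop (𝓝 0) := tendsto_one_div_add_atTop_nhds_zero_nat
  set X : ∀ k, Finset (Gm (n k)) := fun k => XX (co k) (hd k) (2 * r + 2) with hX
  set p : ∀ k, (Gm (n k) × Fin 4 → G) → ℝ := fun k => pp μ ρ b (t k) (X k) f with hp
  have dp : ∀ k, Den μ (p k) := fun k => pp_den μ hρ _ _ _ cf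
  have sp : ∀ k (y : Z4), ((2 * m : ℕ) : ℤ) ∣ y 0 - y 1 → ∀ U, p k (sh (pg (n k) y) U) = p k U :=
    fun k y hy => pp_sh μ (by rw [l2_pg, ZMod.intCast_zmod_eq_zero_iff_dvd]; exact hy) _ _ _
  have cs : Continuous fun U => f (sh ((r : ℤ) • (un 0 + un 1)) U) := cf.comp (cont_sh _)
  have key := core μ hρ hi hb (Φ := atTop) (n := n) (tendsto_atTop_mono (fun k => by
      have := h1 k
      change k ≤ n k
      nlinarith) tendsto_id) (fun k => by have := h1 k; omega) dp (fun η hη => ?_)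
    (L := 2 * m) (by omega) (fun k => sp k _ (by simp [un])) (fun k y hy => sp k y
      ((hy 0).sub (hy 1))) (fun k => pp_ga μ _ _ _ gf) (r := 2 * r) cs
    (fun U V h => of _ _ fun e he => h _ ⟨fun j => by
      have := abs_le.1 (he j)
      simp only [Pi.add_apply, Pi.smul_apply, un, Pi.single_apply, smul_eq_mul, abs_le]
      push_cast
      split_ifs <;> constructor <;> omega, by
      have := abs_le.1 (he 0)
      simp only [Pi.add_apply, Pi.smul_apply, un, Pi.single_apply, smul_eq_mul]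
      simp only [if_true, show ¬ (0 : Fin 4) = 1 by decide, if_false]
      omega⟩) (r + 1)
  · obtain ⟨C, hC⟩ := jen μ hρ b cf of
    have lim := key.add (tt.const_mul (2 * |C| * m))
    rw [mul_zero, add_zero] at lim
    obtain ⟨k, hk⟩ := (lim.eventually (gt_mem_nhds hε)).exists
    have iv : ∀ x : Gm (n k), I μ (fun U => p k U * f (lf (pg (n k))
        (x + pg (n k) ((r : ℤ) • (un 0 + un 1))) U)) =
        I μ fun U => p k U * f (lf (pg (n k)) x U) := fun x => by
      rw [← I_inv μ (dp k).cont (F := fun U => f (lf (pg (n k)) x U)) (cf.comp (cont_lf _ _))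
        (sp k ((r : ℤ) • (un 0 + un 1)) (by simp [un]))]
      simp only [lf_sh]
    simp only [sh_lf, iv] at hk
    simp only [zero_add] at hk
    have rp := pp_rp μ hρ (h := co k) (hm := hd k) hm hb.le (t k) hg hr cf of sf
    have r2 : I μ (fun U => p k U * f (lf (pg (n k)) 0 U)) ≤ 0 := by
      simp only [hf, mul_neg, I, integral_neg]
      exact neg_nonpos.2 rp
    have d1 : |b' k - b| ≤ t k ^ 2 := h2 k
    have j := hC (n k) (b' k) (t k) (X k) (d1.trans (pow_le_one₀ (t0 k).le (t1 k))) (t0 k).le (t1 k)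
    have s := pp_sum μ hρ (h := co k) (hm := hd k) (2 * r + 2) b (t k) cf sf
    have e : (2 * ((r + 1 : ℕ) : ℤ)) = 2 * r + 2 := by push_cast; ring
    rw [e] at hk
    change _ ≤ t k * I μ fun U => pp μ ρ b (t k) (X k) f U * _ at j
    rw [s] at j
    have E : ε < ∫ U, f (lf (pc (n k)) 0 U) ∂(nu μ ρ 4 (n k) (b' k)) := by
      simp only [hf, integral_neg]
      linarith [h3 k]
    have c1 : (n k : ℝ) ^ 4 ≤ m * (X k).card := by exact_mod_cast card_XX (co k) (hd k) _
    have n1 : 1 ≤ t k ^ 2 * n k := by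
      have : ((k : ℝ) + 1) ^ 2 ≤ n k := by exact_mod_cast (Nat.le_add_right _ 3).trans (h1 k)
      rw [ht, div_pow, one_pow, div_mul_eq_mul_div, one_mul, one_le_div (by positivity)]
      exact this
    have n2 : (0 : ℝ) < n k := Nat.cast_pos.2 (NeZero.pos _)
    have c0 : (0 : ℝ) < (X k).card := by
      by_contra h
      have : (m : ℝ) * (X k).card ≤ 0 := mul_nonpos_of_nonneg_of_nonpos (by positivity)
        (not_lt.1 h)
      linarith [pow_pos n2 4]
    have c2 : (n k : ℝ) ^ 3 + |b' k - b| * n k ^ 4 ≤ 2 * t k ^ 2 * (m * (X k).card) := by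
      have a1 := mul_le_mul_of_nonneg_right n1 (pow_pos n2 3).le
      have a2 := mul_le_mul_of_nonneg_right d1 (pow_pos n2 4).le
      have a3 := mul_le_mul_of_nonneg_left c1 (sq_nonneg (t k))
      nlinarith
    have c3 : C * ((n k : ℝ) ^ 3 + |b' k - b| * n k ^ 4) ≤ |C| * (2 * t k ^ 2 * (m * (X k).card)) :=
      mul_le_mul (le_abs_self C) c2 (by positivity) (abs_nonneg C)
    have c4 : t k * (X k).card * ε < t k * (X k).card * ε := by
      have a0 : 0 < t k * (X k).card := mul_pos (t0 k) c0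
      have a1 := mul_lt_mul_of_pos_left E a0
      have a2 := mul_lt_mul_of_pos_left hk a0
      have a3 := mul_nonpos_of_nonneg_of_nonpos a0.le r2
      change t k * (X k).card * _ - _ ≤ t k * ((X k).card * I μ fun U => p k U * _) at j
      nlinarith
    exact lt_irrefl _ c4
  · filter_upwards [(tt.const_mul (4 * M)).eventually (ge_mem_nhds (by simpa using hη))] with k hk
    have c1 : ((X k).card : ℝ) ≤ 2 * n k ^ 4 := by
      have := (X k).card_le_univ
      simp only [Fintype.card_prod, Fintype.card_pi, ZMod.card, Finset.prod_const,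
        Fintype.card_fin, Finset.card_univ] at this
      exact_mod_cast this.trans_eq (mul_comm _ _)
    refine (kl_tilt μ hρ (pg (n k)) b (continuous_const.mul (cont_F (X k) cf))
      (B := t k * (2 * n k ^ 4 * M)) fun U => ?_).trans ?_
    · rw [Pi.mul_apply, abs_mul, abs_of_pos (t0 k)]
      refine mul_le_mul_of_nonneg_left ((Finset.abs_sum_le_sum_abs _ _).trans
        ((Finset.sum_le_sum fun x _ => hM _).trans ?_)) (t0 k).le
      rw [Finset.sum_const, nsmul_eq_mul]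
      exact mul_le_mul_of_nonneg_right c1 M0
    · nlinarith [mul_le_mul_of_nonneg_right hk (show (0 : ℝ) ≤ n k ^ 4 by positivity)]

end Pool.Agent.Lib.MP_7f377f_mp.Dg
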