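import Pool.Agent.Lib.MP_7f377f_mp.DgDefs

/-! Calculus of marginals. -/

noncomputable section

namespace Pool.Agent.Lib.MP_7f377f_mp.Dg

open Weak MeasureTheory Real Function

set_option linter.unusedSectionVars false

variable {A : Type} [NormedRing A] [StarRing A] [NormedAlgebra ℝ A] [HS A]
variable {G : Type} [Group G] [TopologicalSpace G] [IsTopologicalGroup G] [CompactSpace G]
  [SecondCountableTopology G] [MeasurableSpace G] [BorelSpace G]
  (μ : Measure G) [μ.IsHaarMeasure] [IsProbabilityMeasure μ] {ρ : G →* unitary A}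
  {E : Type} [Fintype E] {T : Type} [AddCommGroup T] [Fintype T]

variable {S S' : Set E} {F H p : (E → G) → ℝ}

open Classical in
/-- `V` on `S`, `U` outside -/
def mx (S : Set E) (V U : E → G) : E → G := fun e => if e ∈ S then V e else U e

theorem mx_pos {e : E} (h : e ∈ S) (V U : E → G) : mx S V U e = V e := if_pos h

theorem mx_neg {e : E} (h : e ∉ S) (V U : E → G) : mx S V U e = U e := if_neg h

theorem mg_eq (S : Set E) (F : (E → G) → ℝ) (U : E → G) :
    mg μ S F U = I μ fun V => F (mx S V U) := rfl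

theorem cont_mx (S : Set E) : Continuous fun z : (E → G) × (E → G) => mx S z.2 z.1 := by
  refine continuous_pi fun e => ?_
  unfold mx
  split_ifs <;> fun_prop

theorem cont_mx' (S : Set E) (U : E → G) : Continuous fun V => mx S V U :=
  (cont_mx S).comp (Continuous.prodMk_right U)

theorem cont_mg (hF : Continuous F) : Continuous (mg μ S F) := by
  have := continuous_parametric_integral_of_continuous (μ := Measure.pi fun _ : E => μ)
    (f := fun U V => F (mx S V U)) (hF.comp (cont_mx S)) isCompact_univ
  simp only [Measure.restrict_univ] at this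
  exact this

theorem on_mg (hF : On S' F) : On (S' \ S) (mg μ S F) := fun U U' h =>
  congrArg (I μ) (funext fun V => hF (mx S V U) (mx S V U') fun e he => by
    by_cases c : e ∈ S
    · rw [mx_pos c, mx_pos c]
    · rw [mx_neg c, mx_neg c, h e ⟨he, c⟩])

theorem mg_pos (hF : Continuous F) (h : ∀ U, 0 < F U) (U : E → G) : 0 < mg μ S F U :=
  integral_pos_of_integrable_nonneg_nonzero (x := U) (hF.comp (cont_mx' S U))
    (cint _ (hF.comp (cont_mx' S U))) (fun _ => (h _).le) (h _).ne'

theorem I_mg (hF : Continuous F) : I μ (mg μ S F) = I μ F := by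
  classical
  exact (int_merge μ (· ∈ S) hF).symm

theorem mg_mul (hH : On Sᶜ H) : mg μ S (fun U => F U * H U) = fun U => mg μ S F U * H U := by
  funext U
  rw [mg_eq, mg_eq, I, I, ← integral_mul_const]
  exact congrArg _ (funext fun V => congrArg _ (hH _ _ fun e he => mx_neg he V U))

theorem I_mul_mg (hF : Continuous F) (hc : Continuous H) (hH : On Sᶜ H) :
    I μ (fun U => mg μ S F U * H U) = I μ fun U => F U * H U := by
  rw [← mg_mul μ hH, I_mg μ (hF.fun_mul hc)]

theorem mg_mg (hF : Continuous F) : mg μ S (mg μ S' F) = mg μ (S ∪ S') F := by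
  funext U
  rw [mg_eq μ (S ∪ S'), ← I_mg μ (S := S') (hF.comp' (cont_mx' (S ∪ S') U)), mg_eq]
  refine congrArg (I μ) (funext fun W => congrArg (I μ) (funext fun V => congrArg F ?_))
  change mx S' V (mx S W U) = mx (S ∪ S') (mx S' V W) U
  funext e
  by_cases c : e ∈ S' <;> by_cases c' : e ∈ S <;> simp [mx, c, c']

theorem mg_congr {D : Set E} (hF : Continuous F) (h : On D F) (hS : S ∩ D = S' ∩ D) :
    mg μ S F = mg μ S' F := by
  have _ := hF
  funext U
  refine congrArg (I μ) (funext fun V => h (mx S V U) (mx S' V U) fun e he => ?_)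
  by_cases c : e ∈ S
  · rw [mx_pos c, mx_pos (hS.subset ⟨c, he⟩).1]
  · rw [mx_neg c, mx_neg fun c' => c (hS.symm.subset ⟨c', he⟩).1]

theorem Den.mg (hp : Den μ p) (S : Set E) : Den μ (mg μ S p) :=
  ⟨cont_mg μ hp.cont, mg_pos μ hp.cont hp.pos, (I_mg μ hp.cont).trans hp.one⟩

theorem I_comp (hF : Continuous F) (σ : E ≃ E) {c : E → G → G}
    (hm : ∀ e, MeasurePreserving (c e) μ μ) :
    I μ (fun V => F fun e => c e (V (σ e))) = I μ F :=
  int_mp ((measurePreserving_pi (fun _ => μ) (fun _ => μ) hm).comp (mp_reindex μ σ)) hF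

/-- covariance under relabelling `σ` combined with measure preserving maps of the single variables -/
theorem mg_comp (hF : Continuous F) (σ : E ≃ E) {c : E → G → G} (hc : ∀ e, Continuous (c e))
    (hm : ∀ e, MeasurePreserving (c e) μ μ) (U : E → G) :
    mg μ S F (fun e => c e (U (σ e))) = mg μ (σ '' S) (fun V => F fun e => c e (V (σ e))) U := by
  have _ := hc
  rw [mg_eq, ← I_comp μ (hF.comp' (cont_mx' S _)) σ hm, mg_eq]
  refine congrArg (I μ) (funext fun V => congrArg F (funext fun e => ?_))
  by_cases h : e ∈ S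
  · rw [mx_pos h, mx_pos (Set.mem_image_of_mem σ h)]
  · rw [mx_neg h, mx_neg fun h' => h ((σ.injective.mem_set_image).1 h')]

end Pool.Agent.Lib.MP_7f377f_mp.Dg
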