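import Pool.Agent.Lib.MP_7f377f_mp.DgQA

/-! The Markov chain of two time slices on the diagonal torus. -/

noncomputable section

namespace Pool.Agent.Lib.MP_7f377f_mp.Dg

open Weak MeasureTheory Real Function

set_option linter.unusedSectionVars false

variable {A : Type} [NormedRing A] [StarRing A] [NormedAlgebra ℝ A] [HS A]
variable {G : Type} [Group G] {n : ℕ}

/-- plaquette variables on the diagonal torus -/
def ph (U : Gm n × Fin 4 → G) (x : Gm n) (i j : Fin 4) : G :=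
  U (x, i) * U (x + ev n i, j) * (U (x + ev n j, i))⁻¹ * (U (x, j))⁻¹

/-- time plaquettes -/
def tm (ρ : G →* unitary A) (U : Gm n × Fin 4 → G) (x : Gm n) : ℝ :=
  ∑ j : Fin 3, (qq ρ (ph U x 0 j.succ) + qq ρ (ph U x j.succ 0))

/-- space plaquettes -/
def sp (ρ : G →* unitary A) (U : Gm n × Fin 4 → G) (x : Gm n) : ℝ :=
  ∑ i : Fin 3, ∑ j : Fin 3, qq ρ (ph U x i.succ j.succ)

/-- the part of the action which belongs to the time link at `x` -/
def bd (ρ : G →* unitary A) (U : Gm n × Fin 4 → G) (x : Gm n) : ℝ :=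
  tm ρ U x + (sp ρ U x + sp ρ U (x + ev n 0)) / 2

variable (ρ : G →* unitary A)

theorem zd_lf (U : Gm n × Fin 4 → G) (x : Gm n) :
    zd ρ (lf (pg n) x U) = tm ρ U x + sp ρ U x := by
  have e : ∀ i j, zh (lf (pg n) x U) 0 i j = ph U x i j := fun i j => by
    simp only [zh, lf, ph, ev, map_zero, add_zero, zero_add]
  have e0 : ph U x 0 0 = 1 := by simp only [ph]; group
  simp only [zd, e, tm, sp]
  rw [Fin.sum_univ_succ, Fin.sum_univ_succ (fun j => qq ρ (ph U x 0 j)), e0, qq_one, zero_add,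
    Finset.sum_add_distrib, add_assoc]
  simp only [Fin.sum_univ_succ (n := 3) fun j => qq ρ (ph U x (Fin.succ _) j),
    Finset.sum_add_distrib]

theorem ph_sh (a : Gm n) (U : Gm n × Fin 4 → G) (x : Gm n) (i j : Fin 4) :
    ph (sh a U) x i j = ph U (x + a) i j := by
  simp only [ph, sh, add_right_comm x _ a]

theorem bd_sh (a : Gm n) (U : Gm n × Fin 4 → G) (x : Gm n) :
    bd ρ (sh a U) x = bd ρ U (x + a) := by
  simp only [bd, tm, sp, ph_sh, add_right_comm x _ a]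

theorem sp_rf (z : ZMod n) (U : Gm n × Fin 4 → G) (x : Gm n) :
    sp ρ (rf z U) x = sp ρ U (rs z x) := by
  simp only [sp, ph, rf_ne _ _ _ (Fin.succ_ne_zero _), rs_add _ _ (ev_ne (Fin.succ_ne_zero _))]

theorem tm_rf (z : ZMod n) (U : Gm n × Fin 4 → G) (x : Gm n) :
    tm ρ (rf z U) x = tm ρ U (rs z x - ev n 0) := by
  refine Finset.sum_congr rfl fun j _ => ?_
  have hj := Fin.succ_ne_zero j
  have e1 : ph (rf z U) x 0 j.succ = (U (rs z x - ev n 0, 0))⁻¹ *
      ph U (rs z x - ev n 0) j.succ 0 * (U (rs z x - ev n 0, 0))⁻¹⁻¹ := by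
    simp only [ph, rf_ne _ _ _ hj, rf_0, rs_add _ _ (ev_ne hj), rs_e0, sub_add_cancel,
      add_sub_right_comm]
    group
  have e2 : ph (rf z U) x j.succ 0 = (U (rs z x - ev n 0, 0))⁻¹ *
      ph U (rs z x - ev n 0) 0 j.succ * (U (rs z x - ev n 0, 0))⁻¹⁻¹ := by
    simp only [ph, rf_ne _ _ _ hj, rf_0, rs_add _ _ (ev_ne hj), rs_e0, sub_add_cancel,
      add_sub_right_comm]
    group
  rw [e1, e2, qq_conj, qq_conj, add_comm]

theorem bd_rf (z : ZMod n) (U : Gm n × Fin 4 → G) (x : Gm n) :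
    bd ρ (rf z U) x = bd ρ U (rs z x - ev n 0) := by
  simp only [bd, tm_rf, sp_rf, rs_e0, sub_add_cancel, add_comm (sp ρ U (rs z x))]

theorem bd_nonneg (U : Gm n × Fin 4 → G) (x : Gm n) : 0 ≤ bd ρ U x := by
  have h : ∀ x, 0 ≤ sp ρ U x := fun x =>
    Finset.sum_nonneg fun _ _ => Finset.sum_nonneg fun _ _ => qq_nonneg _ _
  have h2 : 0 ≤ tm ρ U x :=
    Finset.sum_nonneg fun _ _ => add_nonneg (qq_nonneg _ _) (qq_nonneg _ _)
  have := h x
  have := h (x + ev n 0)
  unfold bd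
  positivity

theorem bd_le (U : Gm n × Fin 4 → G) (x : Gm n) : bd ρ U x ≤ 128 * ‖(1 : A)‖ ^ 2 := by
  have h : ∀ x, 0 ≤ sp ρ U x := fun x =>
    Finset.sum_nonneg fun _ _ => Finset.sum_nonneg fun _ _ => qq_nonneg _ _
  have h2 : ∀ x, 0 ≤ tm ρ U x := fun x =>
    Finset.sum_nonneg fun _ _ => add_nonneg (qq_nonneg _ _) (qq_nonneg _ _)
  have h3 := zd_le ρ (lf (pg n) x U)
  have h4 := zd_le ρ (lf (pg n) (x + ev n 0) U)
  rw [zd_lf] at h3 h4
  have := h x
  have := h (x + ev n 0)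
  have := h2 (x + ev n 0)
  unfold bd
  linarith

theorem bd_on {z : ZMod n} {x : Gm n} (hx : x.1 0 = z) : On (Sl z) fun U => bd ρ U x := by
  intro U V h
  have h1 : ∀ (y : Gm n) i, y.1 0 = z → U (y, i) = V (y, i) := fun y i hy => h _ (Or.inl hy)
  have h2 : ∀ (y : Gm n) (i : Fin 3), y.1 0 = z + 1 → U (y, i.succ) = V (y, i.succ) :=
    fun y i hy => h _ (Or.inr ⟨hy, Fin.succ_ne_zero i⟩)
  have a1 : ∀ (y : Gm n) (i : Fin 3), (y + ev n i.succ).1 0 = y.1 0 := fun y i => by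
    simp only [Prod.fst_add, Pi.add_apply, ev_ne (Fin.succ_ne_zero i), add_zero]
  have a2 : (x + ev n 0).1 0 = z + 1 := by simp only [Prod.fst_add, Pi.add_apply, ev_0, hx]
  simp only [bd, tm, sp, ph, h1 x _ hx, h1 _ _ ((a1 x _).trans hx), h2 _ _ a2,
    h2 _ _ ((a1 _ _).trans a2)]

variable [NeZero n]

/-- the part of the action between the times `z` and `z + 1` -/
def bz (z : ZMod n) (U : Gm n × Fin 4 → G) : ℝ := ∑ x, if x.1 0 = z then bd ρ U x else 0

theorem aT_bz (U : Gm n × Fin 4 → G) :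
    aT ρ (pg n) U = ∑ j ∈ Finset.range n, bz ρ (j : ZMod n) U := by
  have e1 : ∑ j ∈ Finset.range n, bz ρ (j : ZMod n) U = ∑ z, bz ρ z U :=
    Finset.sum_nbij' (fun j => (j : ZMod n)) (fun z => z.val) (fun _ _ => Finset.mem_univ _)
      (fun z _ => Finset.mem_range.2 (ZMod.val_lt z))
      (fun j hj => ZMod.val_cast_of_lt (Finset.mem_range.1 hj))
      (fun z _ => ZMod.natCast_zmod_val z) fun _ _ => rfl
  have e2 : ∑ x, sp ρ U (x + ev n 0) = ∑ x, sp ρ U x :=
    Equiv.sum_comp (Equiv.addRight (ev n 0)) _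
  rw [e1]
  simp only [bz]
  rw [Finset.sum_comm]
  simp only [Finset.sum_ite_eq, Finset.mem_univ, if_true, aT, zd_lf, bd, Finset.sum_add_distrib,
    ← Finset.sum_div, e2]
  ring

theorem bz_sh (z : ZMod n) {d : Gm n} (d0 : d.1 0 = 1) (U : Gm n × Fin 4 → G) :
    bz ρ z (sh d U) = bz ρ (z + 1) U := by
  rw [bz, bz, ← Equiv.sum_comp (Equiv.addRight d) fun x => if x.1 0 = z + 1 then bd ρ U x else 0]
  simp only [bd_sh, Equiv.coe_addRight, Prod.fst_add, Pi.add_apply, d0, add_left_inj]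

theorem bz_rf (z : ZMod n) (U : Gm n × Fin 4 → G) : bz ρ z (rf (z + 1) U) = bz ρ (z + 1) U := by
  have hi : Involutive fun x : Gm n => rs (z + 1) x - ev n 0 := fun x => by
    simp only [rs_e0', rs_rs, add_sub_cancel_right]
  rw [bz, bz, ← Equiv.sum_comp hi.toPerm fun x => if x.1 0 = z + 1 then bd ρ U x else 0]
  refine Finset.sum_congr rfl fun x _ => if_congr ?_ (bd_rf ρ _ _ _) rfl
  simp only [Involutive.coe_toPerm, Prod.fst_sub, Pi.sub_apply, rs_0, ev_0]
  exact ⟨fun h => by linear_combination -h, fun h => by linear_combination -h⟩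

theorem bz_on (z : ZMod n) : On (Sl z) (bz ρ z) := fun U V h =>
  Finset.sum_congr rfl fun x _ => by
    split_ifs with hx
    · exact bd_on ρ hx U V h
    · rfl

theorem bz_nonneg (z : ZMod n) (U : Gm n × Fin 4 → G) : 0 ≤ bz ρ z U :=
  Finset.sum_nonneg fun x _ => by
    split_ifs
    · exact bd_nonneg ρ U x
    · exact le_rfl

theorem bz_le (z : ZMod n) (U : Gm n × Fin 4 → G) :
    bz ρ z U ≤ 256 * ‖(1 : A)‖ ^ 2 * (n : ℝ) ^ 3 := by
  have c : (Finset.univ.filter fun x : Gm n => x.1 0 = z).card ≤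
      (Finset.univ : Finset ((Fin 3 → ZMod n) × ZMod 2)).card := by
    refine Finset.card_le_card_of_injOn (fun x => (fun i => x.1 i.succ, x.2))
      (fun _ _ => Finset.mem_coe.2 (Finset.mem_univ _)) fun x hx y hy h => ?_
    refine gm_ext (((Finset.mem_filter.1 hx).2).trans ((Finset.mem_filter.1 hy).2).symm)
      (fun l hl => ?_) (Prod.ext_iff.1 h).2
    obtain ⟨i, rfl⟩ := Fin.exists_succ_eq.2 hl
    exact congrFun (Prod.ext_iff.1 h).1 i
  simp only [Finset.card_univ, Fintype.card_prod, Fintype.card_fun, ZMod.card,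
    Fintype.card_fin] at c
  have c' : ((Finset.univ.filter fun x : Gm n => x.1 0 = z).card : ℝ) ≤ (n : ℝ) ^ 3 * 2 := by
    exact_mod_cast c
  rw [bz, ← Finset.sum_filter]
  refine (Finset.sum_le_card_nsmul _ _ _ fun x _ => bd_le ρ U x).trans ?_
  rw [nsmul_eq_mul]
  refine (mul_le_mul_of_nonneg_right c' (by positivity)).trans_eq ?_
  ring

variable {ρ} [TopologicalSpace G] [IsTopologicalGroup G]

theorem cont_bz (hρ : Continuous ρ) (z : ZMod n) : Continuous (bz ρ z) := by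
  have h : ∀ (x : Gm n) i j, Continuous fun U : Gm n × Fin 4 → G => qq ρ (ph U x i j) :=
    fun x i j => (continuous_qq ρ hρ).comp (by unfold ph; fun_prop)
  refine continuous_finsetSum _ fun x _ => ?_
  split_ifs
  · exact (continuous_finsetSum _ fun _ _ => (h _ _ _).add (h _ _ _)).add
      (((continuous_finsetSum _ fun _ _ => continuous_finsetSum _ fun _ _ => h _ _ _).add
        (continuous_finsetSum _ fun _ _ => continuous_finsetSum _ fun _ _ => h _ _ _)).div_const _)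
  · exact continuous_const

variable [CompactSpace G] [SecondCountableTopology G] [MeasurableSpace G] [BorelSpace G]
  (μ : Measure G) [μ.IsHaarMeasure] [IsProbabilityMeasure μ]
  {F p : (Gm n × Fin 4 → G) → ℝ}

theorem I_slab (hp : Den μ p) {j : ℕ} (hj : j + 1 < n) (hF : Continuous F)
    (ho : On (Sl (j : ZMod n)) F) :
    I μ (fun U => ch (kc μ p) (sc μ p) 0 (n - 1) U * F U) = I μ fun U => kc μ p j U * F U := by
  rw [(chain_kc μ hp).I_ch μ (a' := j) (c' := j + 1) (Nat.zero_le _) (Nat.le_succ _) (by omega)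
    le_rfl hF (by rw [← ht_Sl hj] at ho; exact ho)]
  congr 1
  funext U
  rw [ch, Nat.Ico_succ_singleton, Finset.prod_singleton,
    mul_div_cancel₀ _ ((den_sc μ hp j).pos U).ne']

theorem I_zero (hp : Den μ p) (hF : Continuous F) (ho : On (Sl (0 : ZMod n)) F) :
    I μ (fun U => kc μ p 0 U * F U) = I μ fun U => p U * F U :=
  I_mul_mg μ hp.cont hF (by rwa [compl_compl])

theorem I_bz (hρ : Continuous ρ) (hp : Den μ p) {d : Gm n} (hd : ∀ U, p (sh d U) = p U)
    (d0 : d.1 0 = 1) (j : ℕ) :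
    I μ (fun U => kc μ p j U * bz ρ (j : ZMod n) U) = I μ fun U => p U * bz ρ (j : ZMod n) U := by
  induction j with
  | zero => rw [Nat.cast_zero]; exact I_zero μ hp (cont_bz hρ _) (bz_on ρ _)
  | succ j ih =>
    rw [Nat.cast_succ]
    have e1 := I_rf μ ((j : ZMod n) + 1) ((den_kc μ hp j).cont.mul (cont_bz hρ (j : ZMod n)))
    have e2 := I_sh μ d (hp.cont.mul (cont_bz hρ (j : ZMod n)))
    simp only [Pi.mul_apply, bz_rf, bz_sh ρ _ d0, hd] at e1 e2
    exact e1.trans (ih.trans e2.symm)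

theorem I_aT (hρ : Continuous ρ) (hp : Continuous p) : I μ (fun U => p U * aT ρ (pg n) U) =
    ∑ j ∈ Finset.range n, I μ fun U => p U * bz ρ (j : ZMod n) U := by
  simp only [aT_bz, Finset.mul_sum, I]
  exact integral_finsetSum _ fun j _ => cint _ (hp.mul (cont_bz hρ _))

theorem en_q (hρ : Continuous ρ) (hp : Den μ p) {d : Gm n} (hd : ∀ U, p (sh d U) = p U)
    (d0 : d.1 0 = 1) : I μ (fun U => ch (kc μ p) (sc μ p) 0 (n - 1) U * aT ρ (pg n) U) ≤
      I μ (fun U => p U * aT ρ (pg n) U) + 256 * ‖(1 : A)‖ ^ 2 * (n : ℝ) ^ 3 := by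
  have hq := (chain_kc μ hp).den μ (Nat.zero_le _) le_rfl
  have hn : Finset.range n = Finset.range (n - 1 + 1) := by
    rw [Nat.sub_add_cancel (NeZero.pos n)]
  rw [I_aT μ hρ hq.cont, I_aT μ hρ hp.cont, hn, Finset.sum_range_succ, Finset.sum_range_succ,
    add_assoc]
  refine add_le_add (le_of_eq (Finset.sum_congr rfl fun j hj => ?_)) ?_
  · have := Finset.mem_range.1 hj
    rw [I_slab μ hp (by omega) (cont_bz hρ _) (bz_on ρ _), I_bz μ hρ hp hd d0]
  · refine le_add_of_nonneg_of_le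
      (integral_nonneg fun U => mul_nonneg (hp.pos U).le (bz_nonneg ρ _ U)) ?_
    refine (integral_mono (cint _ (hq.cont.mul (cont_bz hρ _)))
      (cint _ (hq.cont.mul continuous_const)) fun U =>
        mul_le_mul_of_nonneg_left (bz_le ρ _ U) (hq.pos U).le).trans_eq ?_
    have := hq.one
    rw [I] at this
    simp only [Pi.mul_apply]
    rw [integral_mul_const, this, one_mul]

theorem ch_two (hp : Den μ p) (a c : ℕ) (U : Gm n × Fin 4 → G) :
    ch (kc μ p) (sc μ p) (a + 2) (c + 2) U =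
      ch (kc μ p) (sc μ p) a c (sh (ev n 0 + ev n 0) U) := by
  rw [ch, ch, ← Finset.prod_Ico_add' _ a c 2]
  simp only [kc_two, sc_two μ hp]

theorem ch_even (hp : Den μ p) (c i : ℕ) : ∀ U : Gm n × Fin 4 → G,
    ch (kc μ p) (sc μ p) (2 * i) (c + 2 * i) U =
      ch (kc μ p) (sc μ p) 0 c (sh (pg n ((2 * i : ℤ) • un 0)) U) := by
  induction i with
  | zero =>
    intro U
    have : sh (pg n ((2 * (0 : ℕ) : ℤ) • un 0)) U = U := by
      funext e
      simp [sh]
    rw [this]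
    rfl
  | succ i ih =>
    intro U
    have e : pg n ((2 * (i + 1 : ℕ) : ℤ) • un 0) =
        pg n ((2 * i : ℤ) • un 0) + (ev n 0 + ev n 0) := by
      rw [ev, ← map_add, ← map_add]
      congr 1
      push_cast
      module
    rw [e, ← sh_sh, ← ih, ← ch_two μ hp]
    rfl

theorem exists_q (hρ : Continuous ρ) : ∃ C : ℝ, ∀ (n : ℕ) [NeZero n], 3 ≤ n →
    ∀ p : (Gm n × Fin 4 → G) → ℝ, Den μ p → (∀ U, p (sh (pg n (un 0 + un 1)) U) = p U) →
    ∃ q : (Gm n × Fin 4 → G) → ℝ, Den μ q ∧ ent μ q ≤ ent μ p ∧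
      I μ (fun U => q U * aT ρ (pg n) U) ≤ I μ (fun U => p U * aT ρ (pg n) U) + C * n ^ 3 ∧
      (∀ F : (Gm n × Fin 4 → G) → ℝ, Continuous F →
        On {e | (e.1.1 0).val = 0 ∨ ((e.1.1 0).val = 1 ∧ e.2 ≠ 0)} F →
        I μ (fun U => q U * F U) = I μ fun U => p U * F U) ∧
      (∀ a : Gm n, a.1 0 = 0 → (∀ U, p (sh a U) = p U) → ∀ U, q (sh a U) = q U) ∧
      ((∀ k U, p (ga (pg n) k U) = p U) → ∀ k U, q (ga (pg n) k U) = q U) ∧
      ∀ (D i : ℕ) (F : (Gm n × Fin 4 → G) → ℝ), Continuous F → On {e | (e.1.1 0).val ≤ D} F →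
        D + 2 * i + 2 ≤ n →
        I μ (fun U => q U * F (sh (pg n ((2 * i : ℤ) • un 0)) U)) = I μ fun U => q U * F U := by
  refine ⟨256 * ‖(1 : A)‖ ^ 2, fun n _ h3 p hp hd => ?_⟩
  have d0 : (pg n (un 0 + un 1)).1 0 = 1 := by
    rw [map_add]
    change (ev n 0).1 0 + (ev n 1).1 0 = 1
    rw [ev_0, ev_ne (by decide), add_zero]
  have hc := chain_kc μ hp
  refine ⟨ch (kc μ p) (sc μ p) 0 (n - 1), hc.den μ (Nat.zero_le _) le_rfl, ent_q μ hp hd d0,
    en_q μ hρ hp hd d0, fun F hF ho => ?_, fun a ha h U => ?_, fun h k U => ?_,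
    fun D i F hF ho hD => ?_⟩
  · have ho' : On (Sl ((0 : ℕ) : ZMod n)) F := by
      refine ho.mono fun e he => ?_
      rw [Sl, ← Nat.cast_succ]
      exact he.imp (eq_cast (by omega) _).2 (And.imp_left (eq_cast (by omega) _).2)
    rw [I_slab μ hp (by omega) hF ho']
    rw [Nat.cast_zero] at ho'
    exact I_zero μ hp hF ho'
  · simp only [ch, kc_sh μ hp ha h, sc_sh μ hp ha h]
  · simp only [ch, kc_ga μ hp h, sc_ga μ hp h]
  · obtain ⟨a, ha⟩ : ∃ a, a = pg n ((2 * i : ℤ) • un 0) := ⟨_, rfl⟩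
    have a0 : a.1 0 = ((2 * i : ℕ) : ZMod n) := by
      rw [ha]
      change ((((2 * i : ℤ) • un 0) 0 : ℤ) : ZMod n) = _
      simp [un]
    have o1 : On {e | 2 * 0 ≤ ht e ∧ ht e ≤ 2 * (D + 1)} F := by
      refine ho.mono fun e he => ⟨Nat.zero_le _, ?_⟩
      have : (e.1.1 0).val ≤ D := he
      unfold ht
      split_ifs <;> omega
    have o2 : On {e | 2 * (2 * i) ≤ ht e ∧ ht e ≤ 2 * (D + 1 + 2 * i)} fun U => F (sh a U) := by
      intro U V h
      refine ho _ _ fun e he => h _ ?_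
      have h1 : (e.1.1 0).val ≤ D := he
      have h2 : ((e.1 + a).1 0).val = (e.1.1 0).val + 2 * i := by
        rw [Prod.fst_add, Pi.add_apply, a0, ZMod.val_add_of_lt] <;>
          rw [ZMod.val_cast_of_lt (by omega)]
        omega
      simp only [ht, Set.mem_ofPred_eq, h2]
      split_ifs <;> omega
    rw [← ha, hc.I_ch μ (F := fun U => F (sh a U)) (Nat.zero_le _) (by omega) (by omega) le_rfl
      (hF.comp (cont_sh a)) o2,
      hc.I_ch μ le_rfl (Nat.zero_le _) (by omega) le_rfl hF o1]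
    simp only [ch_even μ hp, ← ha]
    exact I_sh μ a ((hc.den μ (Nat.zero_le _) (by omega)).cont.mul hF)

end Pool.Agent.Lib.MP_7f377f_mp.Dg
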