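import Pool.Agent.Lib.MP_7f377f_mp.DgCh

/-! Time reflections of the diagonal torus and the reflected two slice densities. -/

noncomputable section

namespace Pool.Agent.Lib.MP_7f377f_mp.Dg

open Weak MeasureTheory Real Function

set_option linter.unusedSectionVars false

variable {n : ℕ}

/-- unit vectors of the diagonal torus -/
def ev (n : ℕ) (i : Fin 4) : Gm n := pg n (un i)

/-- reflection of sites in the time slice `z` -/
def rs (z : ZMod n) (x : Gm n) : Gm n := (update x.1 0 (2 * z - x.1 0), x.2)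

theorem ev_fst (i l : Fin 4) : (ev n i).1 l = if l = i then 1 else 0 := by
  change ((un i l : ℤ) : ZMod n) = _
  simp only [un, Pi.single_apply]
  split_ifs <;> simp

theorem ev_ne {i : Fin 4} (h : i ≠ 0) : (ev n i).1 0 = 0 := by rw [ev_fst, if_neg h.symm]

theorem ev_0 : (ev n 0).1 0 = 1 := by rw [ev_fst, if_pos rfl]

theorem rs_0 (z : ZMod n) (x : Gm n) : (rs z x).1 0 = 2 * z - x.1 0 := by simp [rs]

theorem rs_ne (z : ZMod n) (x : Gm n) {l : Fin 4} (h : l ≠ 0) : (rs z x).1 l = x.1 l := by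
  simp [rs, h]

theorem gm_ext {x y : Gm n} (h0 : x.1 0 = y.1 0) (h : ∀ l, l ≠ 0 → x.1 l = y.1 l)
    (h2 : x.2 = y.2) : x = y := by
  refine Prod.ext (funext fun l => ?_) h2
  by_cases hl : l = 0
  · rw [hl, h0]
  · exact h l hl

theorem rs_rs (z : ZMod n) (x : Gm n) : rs z (rs z x) = x :=
  gm_ext (by rw [rs_0, rs_0]; ring) (fun l h => by rw [rs_ne _ _ h, rs_ne _ _ h]) rfl

theorem rs_fix {z : ZMod n} {x : Gm n} (h : x.1 0 = z) : rs z x = x :=
  gm_ext (by rw [rs_0, h]; ring) (fun l h => rs_ne _ _ h) rfl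

theorem rs_add (z : ZMod n) (x : Gm n) {a : Gm n} (h : a.1 0 = 0) : rs z (x + a) = rs z x + a :=
  gm_ext (by simp only [rs_0, Prod.fst_add, Pi.add_apply, h, add_zero])
    (fun l h => by simp only [rs_ne _ _ h, Prod.fst_add, Pi.add_apply]) rfl

theorem rs_e0 (z : ZMod n) (x : Gm n) : rs z (x + ev n 0) = rs z x - ev n 0 := by
  refine gm_ext ?_ (fun l h => ?_) ?_
  · simp only [rs_0, Prod.fst_add, Pi.add_apply, Prod.fst_sub, Pi.sub_apply]; ring
  · simp only [rs_ne _ _ h, Prod.fst_add, Pi.add_apply, Prod.fst_sub, Pi.sub_apply, ev_fst,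
      if_neg h, add_zero, sub_zero]
  · change x.2 + (ev n 0).2 = x.2 - (ev n 0).2
    rw [sub_eq_add_neg, ZMod.neg_eq_self_mod_two]

theorem rs_e0' (z : ZMod n) (x : Gm n) : rs z (x - ev n 0) = rs z x + ev n 0 := by
  have := rs_e0 z (x - ev n 0)
  rw [sub_add_cancel] at this
  rw [this, sub_add_cancel]

theorem rs_two (z : ZMod n) (x : Gm n) : rs (z + 1) (rs z x) = x + (ev n 0 + ev n 0) := by
  refine gm_ext ?_ (fun l h => ?_) ?_
  · simp only [rs_0, Prod.fst_add, Pi.add_apply, ev_0]; ring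
  · simp only [rs_ne _ _ h, Prod.fst_add, Pi.add_apply, ev_fst, if_neg h, add_zero]
  · change x.2 = x.2 + ((ev n 0).2 + (ev n 0).2)
    rw [CharTwo.add_self_eq_zero, add_zero]

/-- reflection of links -/
def rk (z : ZMod n) (e : Gm n × Fin 4) : Gm n × Fin 4 :=
  (if e.2 = 0 then rs z e.1 - ev n 0 else rs z e.1, e.2)

theorem rk_rk (z : ZMod n) : Involutive (rk z) := by
  rintro ⟨x, i⟩
  by_cases h : i = 0
  · simp only [rk, if_pos h, rs_e0', rs_rs, add_sub_cancel_right]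
  · simp only [rk, if_neg h, rs_rs]

/-- space links at the time `z` -/
def Sc (z : ZMod n) : Set (Gm n × Fin 4) := {e | e.1.1 0 = z ∧ e.2 ≠ 0}

/-- links between the times `z` and `z + 1` -/
def Sl (z : ZMod n) : Set (Gm n × Fin 4) := {e | e.1.1 0 = z ∨ (e.1.1 0 = z + 1 ∧ e.2 ≠ 0)}

theorem rk_Sc {z y y' : ZMod n} (h : y + y' = 2 * z) (e : Gm n × Fin 4) :
    rk z e ∈ (Sc y')ᶜ ↔ e ∈ (Sc y)ᶜ := by
  refine not_congr ?_
  by_cases h0 : e.2 = 0
  · simp [rk, Sc, h0]
  · simp only [rk, Sc, if_neg h0, Set.mem_ofPred_eq, rs_0]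
    refine and_congr_left fun _ => ⟨fun h1 => ?_, fun h1 => ?_⟩
    · linear_combination -h1 - h
    · linear_combination -h1 - h

theorem rk_Sl {y : ZMod n} {e : Gm n × Fin 4} (h : e ∈ Sl y) : rk (y + 1) e ∈ Sl (y + 1) := by
  by_cases h0 : e.2 = 0
  · have h1 : e.1.1 0 = y := h.resolve_right fun h => h.2 h0
    left
    simp only [rk, if_pos h0, Prod.fst_sub, Pi.sub_apply, rs_0, ev_0, h1]
    ring
  · rcases h with h | h
    · refine Or.inr ⟨?_, h0⟩
      simp only [rk, if_neg h0, rs_0, h]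
      ring
    · left
      simp only [rk, if_neg h0, rs_0, h.1]
      ring

theorem sh_Sc {a : Gm n} {y y' : ZMod n} (h : y + a.1 0 = y') (e : Gm n × Fin 4) :
    (e.1 + a, e.2) ∈ (Sc y')ᶜ ↔ e ∈ (Sc y)ᶜ := by
  refine not_congr (and_congr_left fun _ => ?_)
  simp only [Prod.fst_add, Pi.add_apply, ← h, add_left_inj]

theorem sh_Sl {a : Gm n} {y y' : ZMod n} (h : y + a.1 0 = y') (e : Gm n × Fin 4) :
    (e.1 + a, e.2) ∈ (Sl y')ᶜ ↔ e ∈ (Sl y)ᶜ := by
  refine not_congr (or_congr ?_ (and_congr_left fun _ => ?_))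
  · simp only [Prod.fst_add, Pi.add_apply, ← h, add_left_inj]
  · simp only [Prod.fst_add, Pi.add_apply, ← h, add_right_comm y, add_left_inj]

variable {G : Type} [Group G]

/-- time links are inverted -/
def iv (e : Gm n × Fin 4) (g : G) : G := if e.2 = 0 then g⁻¹ else g

/-- reflection of fields in the time slice `z` -/
def rf (z : ZMod n) (U : Gm n × Fin 4 → G) : Gm n × Fin 4 → G := fun e => iv e (U (rk z e))

theorem rf_0 (z : ZMod n) (U : Gm n × Fin 4 → G) (x : Gm n) :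
    rf z U (x, 0) = (U (rs z x - ev n 0, 0))⁻¹ := by simp only [rf, iv, rk, if_true]

theorem rf_ne (z : ZMod n) (U : Gm n × Fin 4 → G) (x : Gm n) {i : Fin 4} (h : i ≠ 0) :
    rf z U (x, i) = U (rs z x, i) := by simp only [rf, iv, rk, if_neg h]

theorem rf_two (z : ZMod n) (U : Gm n × Fin 4 → G) :
    rf z (rf (z + 1) U) = sh (ev n 0 + ev n 0) U := by
  funext ⟨x, i⟩
  by_cases h : i = 0
  · subst h
    rw [rf_0, rf_0, inv_inv, rs_e0', add_sub_cancel_right, rs_two]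
    rfl
  · rw [rf_ne _ _ _ h, rf_ne _ _ _ h, rs_two]
    rfl

theorem rf_sh (z : ZMod n) {a : Gm n} (ha : a.1 0 = 0) (U : Gm n × Fin 4 → G) :
    rf z (sh a U) = sh a (rf z U) := by
  funext ⟨x, i⟩
  by_cases h : i = 0
  · subst h
    simp only [sh, rf_0, rs_add _ _ ha, add_sub_right_comm]
  · simp only [sh, rf_ne _ _ _ h, rs_add _ _ ha]

theorem rf_ga (z : ZMod n) (k : Gm n → G) (U : Gm n × Fin 4 → G) :
    rf z (ga (pg n) k U) = ga (pg n) (fun x => k (rs z x)) (rf z U) := by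
  funext ⟨x, i⟩
  by_cases h : i = 0
  · subst h
    have e1 : rs z (x + pg n (un 0)) = rs z x - ev n 0 := rs_e0 z x
    have e2 : rs z x - ev n 0 + pg n (un 0) = rs z x := sub_add_cancel _ _
    simp only [ga, rf_0, e1, e2]
    group
  · have e1 : rs z (x + pg n (un i)) = rs z x + pg n (un i) := rs_add z x (ev_ne h)
    simp only [ga, rf_ne _ _ _ h, e1]

theorem sh_sh {T : Type} [AddCommGroup T] (a b : T) (U : T × Fin 4 → G) :
    sh a (sh b U) = sh (a + b) U := by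
  funext e
  simp only [sh, add_assoc]

theorem image_of_iff {E : Type} (σ : E ≃ E) {S S' : Set E} (h : ∀ e, σ e ∈ S' ↔ e ∈ S) :
    σ '' S = S' := by
  ext e
  obtain ⟨e, rfl⟩ := σ.surjective e
  rw [h, σ.injective.mem_set_image]

variable [TopologicalSpace G] [IsTopologicalGroup G]

theorem cont_iv (e : Gm n × Fin 4) : Continuous (iv (G := G) e) := by
  unfold iv
  split_ifs
  · exact continuous_inv
  · exact continuous_id

theorem cont_rf (z : ZMod n) : Continuous (rf (G := G) z) :=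
  continuous_pi fun e => (cont_iv e).comp (continuous_apply _)

variable [CompactSpace G] [SecondCountableTopology G] [MeasurableSpace G] [BorelSpace G]
  (μ : Measure G) [μ.IsHaarMeasure] [IsProbabilityMeasure μ] [NeZero n]
  {F p : (Gm n × Fin 4 → G) → ℝ} {S S' : Set (Gm n × Fin 4)}

theorem mp_iv (e : Gm n × Fin 4) : MeasurePreserving (iv (G := G) e) μ μ := by
  have := haar_inv μ
  unfold iv
  split_ifs
  · exact Measure.measurePreserving_inv μ
  · exact MeasurePreserving.id μ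

theorem I_rf (z : ZMod n) (hF : Continuous F) : I μ (fun U => F (rf z U)) = I μ F :=
  I_comp μ hF (rk_rk z).toPerm (mp_iv μ)

theorem mg_rf (z : ZMod n) (hF : Continuous F) (h : ∀ e, rk z e ∈ S' ↔ e ∈ S)
    (U : Gm n × Fin 4 → G) : mg μ S F (rf z U) = mg μ S' (fun V => F (rf z V)) U := by
  have := mg_comp μ (S := S) hF (rk_rk z).toPerm cont_iv (mp_iv μ) U
  rwa [image_of_iff (rk_rk z).toPerm h] at this

theorem mg_sh (a : Gm n) (hF : Continuous F) (h : ∀ e : Gm n × Fin 4, (e.1 + a, e.2) ∈ S' ↔ e ∈ S)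
    (U : Gm n × Fin 4 → G) : mg μ S F (sh a U) = mg μ S' (fun V => F (sh a V)) U := by
  have := mg_comp μ (S := S) hF ((Equiv.addRight a).prodCongr (Equiv.refl _)) (c := fun _ g => g)
    (fun _ => continuous_id) (fun _ => MeasurePreserving.id μ) U
  rwa [image_of_iff ((Equiv.addRight a).prodCongr (Equiv.refl _)) h] at this

theorem mg_ga (k : Gm n → G) (hF : Continuous F) (U : Gm n × Fin 4 → G) :
    mg μ S F (ga (pg n) k U) = mg μ S (fun V => F (ga (pg n) k V)) U := by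
  have := haar_right μ
  have := mg_comp μ (S := S) hF (Equiv.refl _)
    (c := fun e g => k e.1 * g * (k (e.1 + pg n (un e.2)))⁻¹) (fun _ => by fun_prop)
    (fun _ => (measurePreserving_mul_right μ _).comp (measurePreserving_mul_left μ _)) U
  rwa [image_of_iff (S' := S) (Equiv.refl _) fun _ => Iff.rfl] at this

theorem Den.cont_ent {E : Type} [Fintype E] {p : (E → G) → ℝ} (hp : Den μ p) :
    Continuous fun U => p U * log (p U) :=
  hp.cont.mul (hp.cont.log fun U => (hp.pos U).ne')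

theorem on_mgc (S : Set (Gm n × Fin 4)) : On S (mg μ Sᶜ F) :=
  (on_mg μ (S := Sᶜ) (S' := Set.univ) (F := F) fun U V h =>
    congrArg F (funext fun e => h e trivial)).mono fun e he => not_not.1 he.2

/-- the reflected two slice densities -/
def kc (p : (Gm n × Fin 4 → G) → ℝ) : ℕ → (Gm n × Fin 4 → G) → ℝ
  | 0 => mg μ (Sl 0)ᶜ p
  | j + 1 => fun U => kc p j (rf ((j : ZMod n) + 1) U)

/-- their one slice marginals -/
def sc (p : (Gm n × Fin 4 → G) → ℝ) (j : ℕ) : (Gm n × Fin 4 → G) → ℝ :=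
  mg μ (Sc (j : ZMod n))ᶜ (kc μ p j)

theorem kc_succ (j : ℕ) : kc μ p (j + 1) = fun U => kc μ p j (rf ((j : ZMod n) + 1) U) := rfl

theorem den_kc (hp : Den μ p) (j : ℕ) : Den μ (kc μ p j) := by
  induction j with
  | zero => exact hp.mg μ _
  | succ j ih => exact ⟨ih.cont.comp (cont_rf _), fun U => ih.pos _, (I_rf μ _ ih.cont).trans ih.one⟩

theorem den_sc (hp : Den μ p) (j : ℕ) : Den μ (sc μ p j) := (den_kc μ hp j).mg μ _

theorem on_kc (j : ℕ) : On (Sl (j : ZMod n)) (kc μ p j) := by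
  induction j with
  | zero => rw [Nat.cast_zero]; exact on_mgc μ _
  | succ j ih =>
    intro U V h
    refine ih _ _ fun e he => ?_
    rw [Nat.cast_succ] at h
    exact congrArg (iv e) (h _ (rk_Sl he))

theorem sc_succ (hp : Den μ p) (j : ℕ) :
    sc μ p (j + 1) = mg μ (Sc ((j : ZMod n) + 1))ᶜ (kc μ p j) := by
  funext U
  rw [sc, kc_succ, Nat.cast_succ, ← mg_rf μ _ (den_kc μ hp j).cont (rk_Sc (two_mul _).symm)]
  refine on_mgc μ _ _ _ ?_
  rintro ⟨x, i⟩ he
  rw [rf_ne _ _ _ he.2, rs_fix he.1]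

theorem sc_rf (hp : Den μ p) (j : ℕ) :
    sc μ p (j + 2) = fun U => sc μ p j (rf ((j : ZMod n) + 1) U) := by
  funext U
  rw [sc_succ μ hp, kc_succ, sc]
  exact (mg_rf μ _ (den_kc μ hp j).cont (rk_Sc (by push_cast; ring)) U).symm

theorem kc_two (j : ℕ) (U : Gm n × Fin 4 → G) :
    kc μ p (j + 2) U = kc μ p j (sh (ev n 0 + ev n 0) U) := by
  rw [← rf_two ((j : ZMod n) + 1), kc_succ, kc_succ, Nat.cast_succ]

theorem sc_two (hp : Den μ p) (j : ℕ) (U : Gm n × Fin 4 → G) :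
    sc μ p (j + 2) U = sc μ p j (sh (ev n 0 + ev n 0) U) := by
  rw [sc, sc, mg_sh μ _ (den_kc μ hp j).cont (sh_Sc (y' := ((j + 2 : ℕ) : ZMod n)) ?_)]
  · congr 1
    exact funext (kc_two μ j)
  · simp only [Prod.fst_add, Pi.add_apply, ev_0]
    push_cast
    ring

theorem kc_sh (hp : Den μ p) {a : Gm n} (ha : a.1 0 = 0) (h : ∀ U, p (sh a U) = p U) (j : ℕ) :
    ∀ U, kc μ p j (sh a U) = kc μ p j U := by
  induction j with
  | zero =>
    intro U
    change mg μ _ p _ = mg μ _ p _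
    rw [mg_sh μ a hp.cont (sh_Sl (y' := 0) (by rw [ha, add_zero])), funext h]
  | succ j ih =>
    intro U
    simp only [kc_succ, rf_sh _ ha, ih]

theorem sc_sh (hp : Den μ p) {a : Gm n} (ha : a.1 0 = 0) (h : ∀ U, p (sh a U) = p U) (j : ℕ)
    (U : Gm n × Fin 4 → G) : sc μ p j (sh a U) = sc μ p j U := by
  rw [sc, mg_sh μ a (den_kc μ hp j).cont (sh_Sc (y' := (j : ZMod n)) (by rw [ha, add_zero])),
    funext (kc_sh μ hp ha h j)]

theorem kc_ga (hp : Den μ p) (h : ∀ k U, p (ga (pg n) k U) = p U) (j : ℕ) :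
    ∀ k U, kc μ p j (ga (pg n) k U) = kc μ p j U := by
  induction j with
  | zero =>
    intro k U
    change mg μ _ p _ = mg μ _ p _
    rw [mg_ga μ k hp.cont, funext (h k)]
  | succ j ih =>
    intro k U
    simp only [kc_succ, rf_ga, ih]

theorem sc_ga (hp : Den μ p) (h : ∀ k U, p (ga (pg n) k U) = p U) (j : ℕ) (k : Gm n → G)
    (U : Gm n × Fin 4 → G) : sc μ p j (ga (pg n) k U) = sc μ p j U := by
  rw [sc, mg_ga μ k (den_kc μ hp j).cont, funext (kc_ga μ hp h j k)]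

theorem ent_kc (hp : Den μ p) (j : ℕ) : ent μ (kc μ p j) = ent μ (mg μ (Sl 0)ᶜ p) := by
  induction j with
  | zero => rfl
  | succ j ih => exact (I_rf μ _ ((den_kc μ hp j).cont_ent μ)).trans ih

theorem ent_true (hp : Den μ p) {d : Gm n} (hd : ∀ U, p (sh d U) = p U)
    {S : ZMod n → Set (Gm n × Fin 4)}
    (hS : ∀ z (e : Gm n × Fin 4), (e.1 + d, e.2) ∈ S (z + 1) ↔ e ∈ S z) (j : ℕ) :
    ent μ (mg μ (S j) p) = ent μ (mg μ (S 0) p) := by
  induction j with
  | zero => rw [Nat.cast_zero]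
  | succ j ih =>
    have e : mg μ (S ((j : ZMod n) + 1)) p = fun U => mg μ (S j) p (sh d U) := by
      funext U
      rw [mg_sh μ d hp.cont (hS _), funext hd]
    rw [Nat.cast_succ, e, ← ih]
    exact I_sh μ d ((hp.mg μ _).cont_ent μ)

theorem ent_sc (hp : Den μ p) {d : Gm n} (hd : ∀ U, p (sh d U) = p U) (d0 : d.1 0 = 1) (j : ℕ) :
    ent μ (sc μ p j) = ent μ (mg μ (Sc 0)ᶜ p) := by
  induction j using Nat.twoStepInduction with
  | zero =>
    have e : (Sc (0 : ZMod n))ᶜ ∪ (Sl 0)ᶜ = (Sc 0)ᶜ :=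
      Set.union_eq_self_of_subset_right (Set.compl_subset_compl.2 fun e he => Or.inl he.1)
    rw [sc, Nat.cast_zero, kc, mg_mg μ hp.cont, e]
  | one =>
    have e : (Sc (0 + 1 : ZMod n))ᶜ ∪ (Sl 0)ᶜ = (Sc (0 + 1))ᶜ :=
      Set.union_eq_self_of_subset_right (Set.compl_subset_compl.2 fun e he => Or.inr he)
    have := ent_true μ hp hd (S := fun z => (Sc z)ᶜ) (fun z => sh_Sc (by rw [d0])) (0 + 1)
    rw [Nat.cast_succ, Nat.cast_zero] at this
    change ent μ (sc μ p (0 + 1)) = _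
    rw [← this, sc_succ μ hp, Nat.cast_zero, kc, mg_mg μ hp.cont, e]
  | more j ih _ =>
    rw [sc_rf μ hp, ← ih]
    exact I_rf μ _ ((den_sc μ hp j).cont_ent μ)

/-- the height of a link -/
def ht (e : Gm n × Fin 4) : ℕ := 2 * (e.1.1 0).val + if e.2 = 0 then 1 else 0

theorem eq_cast {j : ℕ} (h : j < n) (x : ZMod n) : x = j ↔ x.val = j :=
  ⟨fun e => by rw [e, ZMod.val_cast_of_lt h], fun e => by rw [← e, ZMod.natCast_zmod_val]⟩

theorem ht_Sc {j : ℕ} (h : j < n) : {e : Gm n × Fin 4 | ht e = 2 * j} = Sc (j : ZMod n) := by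
  ext e
  simp only [ht, Sc, Set.mem_ofPred_eq, eq_cast h]
  split_ifs with h0
  · simp only [h0, ne_eq, not_true, and_false, iff_false]; omega
  · simp only [h0, ne_eq, not_false_iff, and_true]; omega

theorem ht_Sc' {j : ℕ} (h : j < n) : {e : Gm n × Fin 4 | ht e ≠ 2 * j} = (Sc (j : ZMod n))ᶜ := by
  rw [← ht_Sc h]; rfl

theorem ht_Sl {j : ℕ} (h : j + 1 < n) :
    {e : Gm n × Fin 4 | 2 * j ≤ ht e ∧ ht e ≤ 2 * j + 2} = Sl (j : ZMod n) := by
  ext e
  simp only [ht, Sl, Set.mem_ofPred_eq, ← Nat.cast_succ, eq_cast h, eq_cast (Nat.lt_of_succ_lt h)]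
  split_ifs with h0
  · simp only [h0, ne_eq, not_true, and_false, or_false]; omega
  · simp only [h0, ne_eq, not_false_iff, and_true]; omega

theorem chain_kc (hp : Den μ p) : Chain μ ht (n - 1) (kc μ p) (sc μ p) where
  dk j _ := den_kc μ hp j
  ds j _ := den_sc μ hp j
  ok j h := by rw [ht_Sl (by omega)]; exact on_kc μ j
  os j h := by
    have := NeZero.pos n
    rw [ht_Sc (by omega)]; exact on_mgc μ _
  lo j h := by rw [ht_Sc' (by omega)]; rfl
  hi j h := by
    have := ht_Sc' (n := n) (j := j + 1) (by omega)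
    rw [Nat.cast_succ] at this
    rw [sc_succ μ hp, ← this]
    rfl

theorem ent_q (hp : Den μ p) {d : Gm n} (hd : ∀ U, p (sh d U) = p U) (d0 : d.1 0 = 1) :
    ent μ (ch (kc μ p) (sc μ p) 0 (n - 1)) ≤ ent μ p := by
  rw [(chain_kc μ hp).ent_ch]
  refine le_trans (le_of_eq ?_) (ent_le μ hp ht (n - 1))
  rw [ht_Sc' (NeZero.pos n), ent_sc μ hp hd d0, Nat.cast_zero]
  congr 1
  refine Finset.sum_congr rfl fun j hj => ?_
  have hj := Finset.mem_range.1 hj
  rw [ht_Sc' (by omega), ht_Sl (by omega), ent_kc μ hp, ent_sc μ hp hd d0,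
    ent_true μ hp hd (S := fun z => (Sc z)ᶜ) (fun z => sh_Sc (by rw [d0])),
    ent_true μ hp hd (S := fun z => (Sl z)ᶜ) (fun z => sh_Sl (by rw [d0]))]

end Pool.Agent.Lib.MP_7f377f_mp.Dg
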