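import Pool.Agent.Lib.MP_7f377f_mp.OddT2

/-! The lattice theorem for bilinears in two arbitrary plaquettes. -/

namespace Pool.Agent.Lib.MP_7f377f_mp.Weak

open MeasureTheory HS Filter Topology
open scoped InnerProductSpace

set_option linter.unusedSectionVars false

variable {d L : ℕ} [NeZero L] [NeZero d]
variable {A : Type} [NormedRing A] [StarRing A] [NormedAlgebra ℝ A] [HS A]
variable {G : Type} [Group G] (ρ : G →* unitary A)

/-- bilinear in the field strengths of two plaquettes, in the comb gauge -/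
noncomputable def BZ (r : ℝ) (p q : Plaq d L) (U : Link d L → G) : ℝ :=
  ⟪ZU ρ r p U, ZU ρ r q U⟫_ℝ

/-- lattice propagator between two plaquettes -/
def kP (k : Fin d → Fin d → (Fin d → ℤ) → ℝ) (p q : Plaq d L) : ℝ :=
  kM k (lift (q.1 - p.1)) p.2 q.2

variable [TopologicalSpace G] [IsTopologicalGroup G] [CompactSpace G]
  [SecondCountableTopology G] [MeasurableSpace G] [BorelSpace G] (μ : Measure G)
  [μ.IsHaarMeasure] [IsProbabilityMeasure μ]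

theorem latZ_of_GD (hρ : Continuous ρ) (d : ℕ) [NeZero d] (m : ℕ) {C : ℝ} (hC : 0 ≤ C) :
    ∃ C' : ℝ, 0 < C' ∧ ∀ (k : Fin d → Fin d → (Fin d → ℤ) → ℝ) (L n s : ℕ) [NeZero L]
      (r τ W : ℝ) (w h : Site d L → ℝ), GD k C n (2 * s + 1) (τ ^ 2) W w h → 0 < r →
      r ^ 2 ≤ L → (n + (2 * s + 1) + 4) * 2 ≤ L → 0 < τ → C' * τ ≤ 1 →
      (∀ i j z, |k i j z| ≤ C) →
      (∀ i j z l, ((2 * s + 1 : ℕ) : ℤ) ≤ |z l| → |k i j z| ≤ τ ^ 2) →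
      ∫ U, err ρ r (n + (2 * s + 1) + 3) W U ^ 2 ∂(nu μ ρ d L (r ^ 2 / 4)) ≤ (τ ^ 2) ^ 2 →
      ∀ p : Fin m × Bool → Plaq d L, (∀ α, inBox (2 * s + 1) (p α).1) →
      |∫ U, ∏ i, (BZ ρ r (p (i, true)) (p (i, false)) U -
          ∫ V, BZ ρ r (p (i, true)) (p (i, false)) V ∂(nu μ ρ d L (r ^ 2 / 4)))
          ∂(nu μ ρ d L (r ^ 2 / 4)) - loopSum (Module.finrank ℝ (lieAlg ρ))
          fun α γ => kP k (p α) (p γ)| ≤ C' * τ := by
  obtain ⟨c₁, p₁, m₁⟩ := moment_EU' ρ μ hρ d 1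
  obtain ⟨c₂, p₂, m₂⟩ := moment_EU' ρ μ hρ d 2
  obtain ⟨c₃, p₃, m₃⟩ := moment_EU' ρ μ hρ d (2 * m + 1 + 1)
  have D0 : (0 : ℝ) ≤ Module.finrank ℝ (lieAlg ρ) := by positivity
  obtain ⟨cW, pW, hW⟩ := wick_alg m (Module.finrank ℝ (lieAlg ρ)) (4 * C) D0 (by positivity)
  obtain ⟨c, hc⟩ : ∃ c, c = c₁ + c₂ := ⟨_, rfl⟩
  have c0 : 0 ≤ c := by rw [hc]; positivity
  obtain ⟨cΞ, hcΞ⟩ : ∃ x : ℝ, x = 2 ^ (2 * m + 1) * ((1 + c) ^ (2 * m + 1 + 1) +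
    (Finset.univ : Finset (Fin m × Bool)).card ^ (2 * m + 1 + 1) * c₃) := ⟨_, rfl⟩
  have cΞ0 : 0 ≤ cΞ := by rw [hcΞ]; positivity
  obtain ⟨cB, hcB⟩ : ∃ x : ℝ, x = 4 * Module.finrank ℝ (lieAlg ρ) *
    (15 + 2 * c + C * (7 + 2 * c)) + 4 * c + 1 := ⟨_, rfl⟩
  have cB1 : 1 ≤ cB := by rw [hcB]; exact le_add_of_nonneg_left (by positivity)
  obtain ⟨cI, hcI⟩ : ∃ x : ℝ, x = (Module.finrank ℝ (lieAlg ρ) * (5 + m) + 1 + 8 * m) *
    (1 + cΞ) * cB := ⟨_, rfl⟩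
  have cI0 : 0 ≤ cI := by rw [hcI]; positivity
  refine ⟨1 + cI + cW * cI, by positivity, ?_⟩
  intro k L n s _ r τ W w h g hr hrL hR hτ ht1 hk hk' he p hx
  have := nu_prob (d := d) (L := L) μ ρ hρ (r ^ 2 / 4)
  have u1 : 0 ≤ cI * τ := by positivity
  have u2 : 0 ≤ cW * cI * τ := by positivity
  have t1 : τ ≤ 1 := by linarith
  have tI : cI * τ ≤ 1 := by linarith
  have t2 : τ ^ 2 ≤ τ := by rw [sq]; exact mul_le_of_le_one_left hτ.le t1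
  have n₁ : ∀ p, ∫ U, EU ρ r p U ∂(nu μ ρ d L (r ^ 2 / 4)) ≤ c := fun p => by
    have := m₁ L r hr hrL p
    simp only [pow_one] at this
    linarith
  have n₂ : ∀ p, ∫ U, EU ρ r p U ^ 2 ∂(nu μ ρ d L (r ^ 2 / 4)) ≤ c := fun p => by
    linarith [m₂ L r hr hrL p]
  have cZ := continuous_ZU (d := d) (L := L) ρ hρ r
  have cE := continuous_EU (d := d) (L := L) ρ hρ r
  set e : Fin m → ℝ := fun i =>
    ∫ U, ⟪ZU ρ r (p (i, true)) U, ZU ρ r (p (i, false)) U⟫_ℝ ∂(nu μ ρ d L (r ^ 2 / 4)) with he'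
  set Ξ : (Link d L → G) → ℝ := fun U => (1 + c) + ∑ α, EU ρ r (p α) U with hΞ
  have cΞ' : Continuous Ξ := by fun_prop
  have cQ := continuous_QU ρ hρ r p e
  have avg : ∀ (f : (Link d L → G) → ℝ) (q q' : Plaq d L),
      (∀ U, |f U| ≤ (EU ρ r q U + EU ρ r q' U) / 2) → |∫ U, f U ∂(nu μ ρ d L (r ^ 2 / 4))| ≤ c := by
    intro f q q' hf
    refine (abs_int_le _ (by fun_prop) hf).trans ?_
    rw [integral_div, integral_add (cint _ (cE _)) (cint _ (cE _))]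
    linarith [n₁ q, n₁ q']
  have sg : ∀ α U, EU ρ r (p α) U ≤ ∑ α, EU ρ r (p α) U := fun α U =>
    Finset.single_le_sum (f := fun α => EU ρ r (p α) U) (fun _ _ => EU_nonneg ρ _ _ _)
      (Finset.mem_univ α)
  have h1 : ∀ U, 1 ≤ Ξ U := fun U => by
    have := Finset.sum_nonneg (s := Finset.univ) fun α _ => EU_nonneg ρ r (p α) U
    simp only [hΞ]; linarith
  have hZ : ∀ α U, ‖ZU ρ r (p α) U‖ ≤ Ξ U := fun α U => by
    have := norm_ZU_le ρ r (p α) U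
    have := sg α U
    simp only [hΞ]; linarith
  have hQ : ∀ i U, |QU ρ r p e i U| ≤ Ξ U := fun i U => by
    have a1 := abs_ZZ_le ρ r (p (i, true)) (p (i, false)) U
    have a2 := avg _ _ _ (abs_ZZ_le ρ r (p (i, true)) (p (i, false)))
    refine (abs_sub _ _).trans ?_
    simp only [hΞ]; linarith [sg (i, true) U, sg (i, false) U]
  have hΞm : ∫ U, (Ξ U ^ (m + 1)) ^ 2 ∂(nu μ ρ d L (r ^ 2 / 4)) ≤ cΞ := by
    have := moment_sum (nu μ ρ d L (r ^ 2 / 4)) Finset.univ (fun α => EU ρ r (p α))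
      (fun α => cE _) (fun α => EU_nonneg ρ r _) (2 * m + 1) (κ := 1 + c) (by positivity)
      fun α => m₃ L r hr hrL _
    simp only [← pow_mul]
    rw [show (m + 1) * 2 = 2 * m + 1 + 1 by ring, hcΞ]
    exact this
  have hH : ∀ y, inBox (2 * s + 1) y → ∀ b, ∫ U, ‖YU ρ r (trl y h) b U‖ ^ 2
      ∂(nu μ ρ d L (r ^ 2 / 4)) ≤ (cB * τ) ^ 2 := by
    intro y hy b
    refine (g.background' ρ μ hρ hr hR (by positivity) (t2.trans t1) c0 n₁ n₂ he rfl hk' hy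
      b).trans ?_
    rw [mul_pow]
    refine mul_le_mul_of_nonneg_right (le_trans ?_ (le_self_pow₀ cB1 two_ne_zero)) (sq_nonneg _)
    rw [hcB]
    linarith
  have hI := g.ibp ρ μ hρ hr hR (by positivity) (δ := cB * τ) (by positivity)
    (t2.trans (le_mul_of_one_le_left hτ.le cB1)) he hH
    p (fun α => hx _) e cΞ' h1 hZ hQ hΞm
  have w1 := hW (fun α γ => kP k (p α) (p γ))
    (fun α γ S => ∫ U, ⟪ZU ρ r (p α) U, ZU ρ r (p γ) U⟫_ℝ * ∏ i ∈ S, QU ρ r p e i U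
      ∂(nu μ ρ d L (r ^ 2 / 4)))
    (fun S => ∫ U, ∏ i ∈ S, QU ρ r p e i U ∂(nu μ ρ d L (r ^ 2 / 4))) e (cI * τ) (by positivity) tI
    (fun α γ => (abs_kM_le _ _ _ _).trans (by
      linarith [hk (p γ).2.1 (p α).2.1 (lift ((p γ).1 - (p α).1)),
        hk (p γ).2.2 (p α).2.1 (lift ((p γ).1 - (p α).1)),
        hk (p γ).2.1 (p α).2.2 (lift ((p γ).1 - (p α).1)),
        hk (p γ).2.2 (p α).2.2 (lift ((p γ).1 - (p α).1))])) (by simp)
    (fun j b S hj => by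
      rw [← integral_const_mul, ← integral_sub (cint _ (by fun_prop)) (cint _ (by fun_prop))]
      refine integral_congr_ae (Eventually.of_forall fun U => ?_)
      simp only [Finset.prod_insert hj, QU, sub_mul]
      cases b
      · rw [real_inner_comm]; rfl
      · rfl)
    (fun j b => by
      simp only [Finset.prod_empty, mul_one, he']
      cases b
      · simp only [Bool.not_false, real_inner_comm (ZU ρ r (p (j, true)) _)]
      · rfl)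
    fun α γ S => (hI α γ S).trans_eq (by rw [hcI]; ring)
  exact w1.trans (by linarith)

theorem latZ (hρ : Continuous ρ) (d : ℕ) [NeZero d] (hd : 2 ≤ d) :
    ∃ k : Fin d → Fin d → (Fin d → ℤ) → ℝ,
      (∀ (i j : Fin d) (y : EuclideanSpace ℝ (Fin d)) (ε : ℕ → ℝ) (x : ℕ → Fin d → ℤ), y ≠ 0 →
        (∀ n, 0 < ε n) → Tendsto ε atTop (𝓝 0) →
        (∀ l, Tendsto (fun n => ε n * x n l) atTop (𝓝 (y l))) →
        Tendsto (fun n => k i j (x n) / ε n ^ d) atTop (𝓝 (hessG y i j))) ∧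
      (∃ C : ℝ, ∀ i j z l, |k i j z| * (1 + |(z l : ℝ)|) ≤ C) ∧
      ∀ m : ℕ, ∃ (C₀ : ℝ) (q : ℕ), 1 ≤ C₀ ∧ 1 ≤ q ∧ ∀ (s L : ℕ) [NeZero L] (r : ℝ), 1 ≤ s →
        C₀ * s ^ q ≤ r → r ^ 2 ≤ L →
        ∀ p : Fin m × Bool → Plaq d L, (∀ α, inBox s (p α).1) →
        |∫ U, ∏ i, (BZ ρ r (p (i, true)) (p (i, false)) U -
            ∫ V, BZ ρ r (p (i, true)) (p (i, false)) V ∂(nu μ ρ d L (r ^ 2 / 4)))
            ∂(nu μ ρ d L (r ^ 2 / 4)) - loopSum (Module.finrank ℝ (lieAlg ρ))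
            fun α γ => kP k (p α) (p γ)| ≤ 1 / s := by
  obtain ⟨k, hlim, C, a, ha, hC, hdec, hT⟩ := torus_green d hd
  refine ⟨k, hlim, ⟨C, hdec⟩, fun m => ?_⟩
  obtain ⟨C', hC', hG⟩ := latZ_of_GD ρ μ hρ d m hC
  obtain ⟨Ce, hCe, hE⟩ := moment_err' ρ μ hρ d
  obtain ⟨N, hN, N1⟩ : ∃ N : ℕ, C' ≤ N ∧ 1 ≤ N :=
    ⟨⌈C'⌉₊, Nat.le_ceil _, Nat.ceil_pos.mpr hC'⟩
  obtain ⟨N₀, hN₀, N₀1⟩ : ∃ N : ℕ, C ≤ N ∧ 1 ≤ N :=
    ⟨⌈C⌉₊ + 1, (Nat.le_ceil _).trans (by push_cast; linarith), by omega⟩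
  obtain ⟨q₁, hq₁, q₁4⟩ : ∃ q : ℕ, 4 ≤ q * a ∧ 4 ≤ q :=
    ⟨⌈4 / a⌉₊ + 4, by
      have := (div_le_iff₀ ha).mp (Nat.le_ceil (4 / a))
      push_cast
      linarith, by omega⟩
  obtain ⟨N₁, hN₁⟩ : ∃ x : ℕ, x = 6 * d * N₀ ^ 2 := ⟨_, rfl⟩
  have N₁3 : 3 * N₀ ≤ N₁ := by rw [hN₁]; nlinarith
  have hc : (12 : ℝ) ≤ Ce * 25 * 33 ^ d + 12 := le_add_of_nonneg_left (by positivity)
  refine ⟨(Ce * 25 * 33 ^ d + 12) * ((N₁ * N) ^ (q₁ * (2 * d + 3)) * N ^ 2 : ℕ),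
    q₁ * (2 * d + 3) + 2, ?_, by omega, ?_⟩
  · refine one_le_mul_of_one_le_of_one_le (by linarith) ?_
    exact_mod_cast Nat.mul_pos (pow_pos (Nat.mul_pos (by omega) N1) _) (pow_pos N1 _)
  intro s L _ r hs hr hrL p hx
  obtain ⟨u, hu⟩ : ∃ u : ℕ, u = N * s := ⟨_, rfl⟩
  obtain ⟨n, hn⟩ : ∃ n : ℕ, n = (N₁ * u) ^ q₁ := ⟨_, rfl⟩
  have u1 : 1 ≤ u := hu ▸ Nat.mul_pos N1 hs
  have su : s ≤ u := hu ▸ Nat.le_mul_of_pos_left _ N1
  have uu : u ≤ u ^ 2 := Nat.le_self_pow two_ne_zero u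
  have Nu : 1 ≤ N₁ * u := Nat.mul_pos (by omega) u1
  have n4 : N₁ * u ^ 4 ≤ (N₁ * u) ^ 4 := by
    rw [mul_pow]; exact Nat.mul_le_mul_right _ (Nat.le_self_pow (by norm_num) _)
  have n1 : 1 ≤ n := hn ▸ Nat.one_le_pow _ _ Nu
  have R1 : 2 * (N₀ * u ^ 2) + 1 ≤ 3 * (N₀ * u ^ 2) := by
    have := Nat.mul_pos N₀1 (u1.trans uu); omega
  have Rn : 2 * (N₀ * u ^ 2) + 1 ≤ n := by
    calc _ ≤ 3 * N₀ * u ^ 2 := by rw [mul_assoc]; exact R1
      _ ≤ N₁ * u ^ 4 := Nat.mul_le_mul N₁3 (Nat.pow_le_pow_right u1 (by norm_num))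
      _ ≤ n := n4.trans (hn ▸ Nat.pow_le_pow_right Nu q₁4)
  have sR : s ≤ 2 * (N₀ * u ^ 2) + 1 := by
    have := Nat.le_mul_of_pos_left (u ^ 2) N₀1; omega
  have hr' : (Ce * 25 * 33 ^ d + 12) * (n ^ (2 * d + 3) * u ^ 2) ≤ r := by
    refine le_trans (le_of_eq ?_) hr
    rw [hn, hu]; push_cast; ring
  have u1' : (1 : ℝ) ≤ u := by exact_mod_cast u1
  have n1' : (1 : ℝ) ≤ n := by exact_mod_cast n1
  have p1 : (n : ℝ) ≤ n ^ (2 * d + 3) := le_self_pow₀ n1' (by omega)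
  have p2 : (u : ℝ) ≤ u ^ 2 := le_self_pow₀ u1' two_ne_zero
  have p3 : 12 * ((n : ℝ) * u) ≤ r := le_trans (by gcongr) hr'
  have p4 : (n : ℝ) ≤ n * u := le_mul_of_one_le_right (by linarith) u1'
  have p5 : (u : ℝ) ≤ n * u := le_mul_of_one_le_left (by linarith) n1'
  have r1 : 1 ≤ r := by linarith
  have rr : r ≤ r ^ 2 := le_self_pow₀ r1 two_ne_zero
  have nL : 12 * n ≤ L := by
    have : (12 * n : ℝ) ≤ L := by linarith
    exact_mod_cast this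
  obtain ⟨w, h, g1, g2, g3, g4, g5, g6, g7, g8⟩ := hT n (2 * (N₀ * u ^ 2) + 1) L n1 (by omega)
  have N₁0 : (0 : ℝ) < N₁ := by exact_mod_cast (by omega : 0 < N₁)
  have θ1 : C / n ^ a ≤ N₀ / (N₁ * u ^ 4) := by
    refine div_le_div₀ (by positivity) hN₀ (by positivity) ?_
    have Nu' : (1 : ℝ) ≤ N₁ * u := by exact_mod_cast Nu
    calc (N₁ : ℝ) * u ^ 4 ≤ (N₁ * u) ^ 4 := by exact_mod_cast n4
      _ = (N₁ * u : ℝ) ^ ((4 : ℕ) : ℝ) := (Real.rpow_natCast _ _).symm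
      _ ≤ (N₁ * u : ℝ) ^ (q₁ * a) := Real.rpow_le_rpow_of_exponent_le Nu' (by exact_mod_cast hq₁)
      _ = _ := by rw [hn, Real.rpow_mul (by positivity), Real.rpow_natCast]; push_cast; rfl
  have θ0 : 0 ≤ C / n ^ a := by positivity
  have θ2 : (6 * d * (N₀ * u ^ 2) : ℕ) * (C / n ^ a) ≤ (1 / u : ℝ) ^ 2 := by
    refine (mul_le_mul_of_nonneg_left θ1 (by positivity)).trans_eq ?_
    have e : (N₁ : ℝ) = 6 * d * N₀ ^ 2 := by rw [hN₁]; push_cast; rfl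
    have d0 : (0 : ℝ) < d := by exact_mod_cast NeZero.pos d
    have : (0 : ℝ) < N₀ := by exact_mod_cast N₀1
    push_cast
    rw [e]
    field_simp
  have θ3 : C / n ^ a ≤ (1 / u : ℝ) ^ 2 := by
    refine le_trans (le_mul_of_one_le_left θ0 ?_) θ2
    exact_mod_cast Nat.mul_pos (by omega) (Nat.mul_pos N₀1 (u1.trans uu))
  have s0 : (0 : ℝ) < s := by exact_mod_cast hs
  have fin : C' * (1 / u) ≤ 1 / s := by
    rw [mul_one_div, div_le_div_iff₀ (by linarith) s0, hu, one_mul]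
    push_cast
    gcongr
  refine (hG k L n (N₀ * u ^ 2) r (1 / u) _ w h ⟨g1, g2, g3, g4, g5, fun x hx => ?_,
    fun i j y => (g7 i j y).trans θ3, fun i j x hx => (g8 i j x hx).trans θ3⟩ (by linarith) hrL
    (by omega) (by positivity) (fin.trans ?_) (fun i j z => ?_) (fun i j z l hl => ?_) ?_ p
    fun i => inBox_mono sR (hx i)).trans fin
  · refine (g6 x).trans (le_trans (mul_le_mul_of_nonneg_right ?_ θ0) θ2)
    exact_mod_cast (ht_le hx).trans (by nlinarith)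
  · rw [div_le_one s0]; exact_mod_cast hs
  · exact (le_mul_of_one_le_right (abs_nonneg _) (le_add_of_nonneg_right (abs_nonneg _))).trans
      (hdec i j z 0)
  · have h1 : ((2 * (N₀ * u ^ 2) + 1 : ℕ) : ℝ) ≤ |(z l : ℝ)| := by exact_mod_cast hl
    have h2 := (hdec i j z l).trans hN₀
    have : (0 : ℝ) < N₀ := by exact_mod_cast N₀1
    push_cast at h1
    rw [one_div, inv_pow, ← one_div, le_div_iff₀ (by positivity)]
    refine le_of_mul_le_mul_left (le_trans ?_ (h2.trans_eq (mul_one _).symm)) this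
    have h3 : (N₀ : ℝ) * u ^ 2 ≤ 1 + |(z l : ℝ)| := by
      have : (0 : ℝ) ≤ N₀ * u ^ 2 := by positivity
      linarith
    have := mul_le_mul_of_nonneg_left h3 (abs_nonneg (k i j z))
    linarith
  · refine (hE L r (by linarith) hrL _ _).trans (pow_le_pow_left₀ (by positivity) ?_ 2)
    have M5 : ((n + (2 * (N₀ * u ^ 2) + 1) + 3 : ℕ) : ℝ) ≤ 5 * n := by
      exact_mod_cast (by omega : n + (2 * (N₀ * u ^ 2) + 1) + 3 ≤ 5 * n)
    have M0 : (0 : ℝ) ≤ ((n + (2 * (N₀ * u ^ 2) + 1) + 3 : ℕ) : ℝ) := by positivity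
    generalize ((n + (2 * (N₀ * u ^ 2) + 1) + 3 : ℕ) : ℝ) = M at M5 M0 ⊢
    rw [one_div, inv_pow, ← one_div, div_le_div_iff₀ (by linarith) (by positivity), one_mul]
    refine le_trans ?_ hr'
    calc _ ≤ Ce * (5 * n) ^ 2 * (11 * n) ^ d * (n * (3 * n) ^ d) * u ^ 2 := by
          gcongr <;> linarith
      _ = Ce * 25 * 33 ^ d * (n ^ (2 * d + 3) * u ^ 2) := by
          rw [show (33 : ℝ) = 11 * 3 by norm_num]; simp only [mul_pow]; ring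
      _ ≤ _ := by gcongr; linarith

end Pool.Agent.Lib.MP_7f377f_mp.Weak
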