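import Pool.Agent.Lib.MP_7f377f_mp.EmLatA

/-! The lattice theorem for observables that are close to quadratic forms in the curvature. -/

namespace Pool.Agent.Lib.MP_7f377f_mp.Weak

open MeasureTheory HS Filter Topology
open scoped InnerProductSpace

set_option linter.unusedSectionVars false

variable {d L : ℕ} [NeZero L] [NeZero d]
variable {A : Type} [NormedRing A] [StarRing A] [NormedAlgebra ℝ A] [HS A]
variable {G : Type} [Group G] (ρ : G →* unitary A)

/-- `O` is close to the quadratic form with coefficients `c` in the pairs of plaquettes `p` -/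
def QA {ι : Type} [Fintype ι] (r : ℝ) (M N : ℕ) (κ : ℝ) (O : (Link d L → G) → ℝ) (c : ι → ℝ)
    (p : ι → Bool → Plaq d L) : Prop :=
  ∀ U, |O U - ∑ j, c j * BZ ρ r (p j true) (p j false) U| ≤ κ / r * (1 + SM ρ r M U) ^ N

theorem EU_le_SM (r : ℝ) {M : ℕ} {p : Plaq d L} (hp : inBox M p.1) (U : Link d L → G) :
    EU ρ r p U ≤ SM ρ r M U := by
  classical
  exact Finset.single_le_sum (f := fun p => EU ρ r p U) (fun p _ => EU_nonneg ρ r p U)
    (a := p) (by simp [hp])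

theorem SM_mono (r : ℝ) {M M' : ℕ} (h : M ≤ M') (U : Link d L → G) :
    SM ρ r M U ≤ SM ρ r M' U := by
  classical
  refine Finset.sum_le_sum_of_subset_of_nonneg (fun p hp => ?_) fun p _ _ => EU_nonneg ρ r p U
  simp only [Finset.mem_product, Finset.mem_filter, Finset.mem_univ, true_and, and_true] at hp ⊢
  exact inBox_mono h hp

theorem abs_BZ_le (r : ℝ) {M : ℕ} {p q : Plaq d L} (hp : inBox M p.1) (hq : inBox M q.1)
    (U : Link d L → G) : |BZ ρ r p q U| ≤ SM ρ r M U := by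
  refine (abs_ZZ_le ρ r p q U).trans ?_
  linarith [EU_le_SM ρ r hp U, EU_le_SM ρ r hq U]

theorem QA.mono {ι : Type} [Fintype ι] {r : ℝ} (hr : 0 ≤ r) {M N M' N' : ℕ} {κ κ' : ℝ}
    {O : (Link d L → G) → ℝ} {c : ι → ℝ} {p : ι → Bool → Plaq d L} (h : QA ρ r M N κ O c p)
    (hM : M ≤ M') (hN : N ≤ N') (h0 : 0 ≤ κ) (hκ : κ ≤ κ') : QA ρ r M' N' κ' O c p := fun U => by
  have h1 := SM_nonneg ρ r M U
  have h2 := SM_mono ρ r hM U
  refine (h U).trans (mul_le_mul (by gcongr) ?_ (by positivity) (div_nonneg (h0.trans hκ) hr))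
  exact (pow_le_pow_left₀ (by linarith) (by linarith) _).trans
    (pow_le_pow_right₀ (by linarith) hN)

variable [TopologicalSpace G] [IsTopologicalGroup G] [CompactSpace G]
  [SecondCountableTopology G] [MeasurableSpace G] [BorelSpace G] (μ : Measure G)
  [μ.IsHaarMeasure] [IsProbabilityMeasure μ]

theorem continuous_BZ (hρ : Continuous ρ) (r : ℝ) (p q : Plaq d L) : Continuous (BZ ρ r p q) :=
  (continuous_ZU ρ hρ r _).inner (continuous_ZU ρ hρ r _)

theorem moment_SM (hρ : Continuous ρ) (d : ℕ) [NeZero d] (n : ℕ) : ∃ C : ℝ, 1 ≤ C ∧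
    ∀ (L : ℕ) [NeZero L] (r : ℝ), 0 < r → r ^ 2 ≤ L → ∀ M : ℕ, 1 ≤ M →
      ∫ U, (1 + SM ρ r M U) ^ (n + 1) ∂(nu μ ρ d L (r ^ 2 / 4)) ≤ C * M ^ (d * (n + 1)) := by
  obtain ⟨C, hC, h⟩ := moment_EU' ρ μ hρ d (n + 1)
  refine ⟨2 ^ n * (1 + (3 ^ d * d ^ 2) ^ (n + 1) * C), one_le_mul_of_one_le_of_one_le
    (one_le_pow₀ one_le_two) (le_add_of_nonneg_right (by positivity)), fun L _ r hr hrL M hM => ?_⟩
  classical
  have := nu_prob (d := d) (L := L) μ ρ hρ (r ^ 2 / 4)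
  have h1 := moment_sum (nu μ ρ d L (r ^ 2 / 4))
    ((Finset.univ.filter fun x : Site d L => inBox M x) ×ˢ Finset.univ) (EU ρ r)
    (continuous_EU ρ hρ r) (EU_nonneg ρ r) n zero_le_one (h L r hr hrL)
  have M1 : (1 : ℝ) ≤ M := by exact_mod_cast hM
  have h2 : (((Finset.univ.filter fun x : Site d L => inBox M x) ×ˢ
      (Finset.univ : Finset (Fin d × Fin d))).card : ℝ) ≤ 3 ^ d * d ^ 2 * M ^ d := by
    have := card_inBox d L M
    rw [Finset.card_product]
    simp only [Finset.card_univ, Fintype.card_prod, Fintype.card_fin]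
    push_cast
    rw [← sq, mul_right_comm, ← mul_pow]
    gcongr
    exact le_trans (by exact_mod_cast this) (pow_le_pow_left₀ (by positivity)
      (show 2 * (M : ℝ) + 1 ≤ 3 * M by linarith) d)
  refine h1.trans ?_
  have h3 : (1 : ℝ) ≤ M ^ (d * (n + 1)) := one_le_pow₀ M1
  have h4 := mul_le_mul_of_nonneg_right (pow_le_pow_left₀ (by positivity) h2 (n + 1)) hC
  rw [mul_pow _ ((M : ℝ) ^ d), ← pow_mul] at h4
  rw [mul_assoc, one_pow]
  refine mul_le_mul_of_nonneg_left ?_ (by positivity)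
  linarith

theorem lat2 (hρ : Continuous ρ) (d : ℕ) [NeZero d] (hd : 2 ≤ d) :
    ∃ k : Fin d → Fin d → (Fin d → ℤ) → ℝ,
      (∀ (i j : Fin d) (y : EuclideanSpace ℝ (Fin d)) (ε : ℕ → ℝ) (x : ℕ → Fin d → ℤ), y ≠ 0 →
        (∀ n, 0 < ε n) → Tendsto ε atTop (𝓝 0) →
        (∀ l, Tendsto (fun n => ε n * x n l) atTop (𝓝 (y l))) →
        Tendsto (fun n => k i j (x n) / ε n ^ d) atTop (𝓝 (hessG y i j))) ∧
      (∃ C : ℝ, ∀ i j z l, |k i j z| * (1 + |(z l : ℝ)|) ≤ C) ∧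
      ∀ m N : ℕ, ∃ (C₀ : ℝ) (q : ℕ), 1 ≤ C₀ ∧ 1 ≤ q ∧ ∀ (s L : ℕ) [NeZero L] (r : ℝ), 1 ≤ s →
        C₀ * s ^ q ≤ r → r ^ 2 ≤ L → ∀ (ι : Type) [Fintype ι] (O : Fin m → (Link d L → G) → ℝ)
        (c : Fin m → ι → ℝ) (p : Fin m → ι → Bool → Plaq d L), (∀ i, Continuous (O i)) →
        (∀ i j b, c i j ≠ 0 → inBox s (p i j b).1) → (∀ i, ∑ j, |c i j| ≤ s ^ N) →
        (∀ i, QA ρ r s N (s ^ N) (O i) (c i) (p i)) →
        |∫ U, ∏ i, (O i U - ∫ V, O i V ∂(nu μ ρ d L (r ^ 2 / 4))) ∂(nu μ ρ d L (r ^ 2 / 4)) -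
          ∑ j : Fin m → ι, (∏ i, c i (j i)) * loopSum (Module.finrank ℝ (lieAlg ρ))
            fun α γ => kP k (p α.1 (j α.1) α.2) (p γ.1 (j γ.1) γ.2)| ≤ 1 / s := by
  obtain ⟨k, h1, h2, h3⟩ := latZ ρ μ hρ d hd
  refine ⟨k, h1, h2, fun m N => ?_⟩
  obtain ⟨C₀, q, hC₀, hq, hZ⟩ := h3 m
  obtain ⟨C₁, hC₁, m₁⟩ := moment_SM ρ μ hρ d N
  obtain ⟨C₂, hC₂, m₂⟩ := moment_SM ρ μ hρ d ((N + 1) * m + N)
  obtain ⟨q₁, hq₁⟩ : ∃ q₁, q₁ = (N + d * (N + 1)) * (m + 1) := ⟨_, rfl⟩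
  obtain ⟨C₃, hC₃⟩ : ∃ C₃ : ℝ, C₃ = m * (2 ^ (m + 1) * (2 ^ m * (C₂ + C₁ ^ (m + 1)))) := ⟨_, rfl⟩
  have C₃0 : 0 ≤ C₃ := by rw [hC₃]; positivity
  have c2 : (1 : ℝ) ≤ C₀ * 2 ^ q := one_le_mul_of_one_le_of_one_le hC₀ (one_le_pow₀ one_le_two)
  refine ⟨C₀ * 2 ^ q + 2 * C₃, (m * N + 1) * q + q₁ + 1, by linarith, by omega, ?_⟩
  intro s L _ r hs hr hrL ι _ O c p hO hp hc hQ
  have := nu_prob (d := d) (L := L) μ ρ hρ (r ^ 2 / 4)
  have s1 : (1 : ℝ) ≤ s := by exact_mod_cast hs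
  have e1 : (s : ℝ) ^ ((m * N + 1) * q) ≤ s ^ ((m * N + 1) * q + q₁ + 1) :=
    pow_le_pow_right₀ s1 (by omega)
  have e2 : (s : ℝ) ^ (q₁ + 1) ≤ s ^ ((m * N + 1) * q + q₁ + 1) := pow_le_pow_right₀ s1 (by omega)
  have e3 : (1 : ℝ) ≤ s ^ ((m * N + 1) * q + q₁ + 1) := one_le_pow₀ s1
  have r1 : C₀ * ((2 * s ^ (m * N + 1) : ℕ) : ℝ) ^ q ≤ r := by
    push_cast
    rw [mul_pow, ← pow_mul, ← mul_assoc]
    nlinarith
  have r2 : 2 * C₃ * s ^ (q₁ + 1) ≤ r := by nlinarith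
  have r3 : 1 ≤ r := by nlinarith
  have ss : s ≤ 2 * s ^ (m * N + 1) := by
    have := Nat.le_self_pow (n := m * N + 1) (by omega) s
    omega
  have cB := continuous_BZ (d := d) (L := L) ρ hρ r
  have cS := continuous_SM (d := d) (L := L) ρ hρ r s
  generalize hν : nu μ ρ d L (r ^ 2 / 4) = ν at *
  set Q : Fin m → (Link d L → G) → ℝ := fun i U =>
    ∑ j, c i j * BZ ρ r (p i j true) (p i j false) U with hQ'
  have cQ : ∀ i, Continuous (Q i) := fun i => by simp only [hQ']; fun_prop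
  have w1 : |∫ U, ∏ i, (Q i U - ∫ V, Q i V ∂ν) ∂ν -
      ∑ j : Fin m → ι, (∏ i, c i (j i)) * loopSum (Module.finrank ℝ (lieAlg ρ))
        fun α γ => kP k (p α.1 (j α.1) α.2) (p γ.1 (j γ.1) γ.2)| ≤ 1 / (2 * s) := by
    have e : ∀ i U, Q i U - ∫ V, Q i V ∂ν = ∑ j, c i j * (BZ ρ r (p i j true) (p i j false) U -
        ∫ V, BZ ρ r (p i j true) (p i j false) V ∂ν) := fun i U => by
      simp only [hQ']
      rw [integral_finsetSum _ fun j _ => cint _ (by fun_prop)]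
      simp only [integral_const_mul, mul_sub, Finset.sum_sub_distrib]
    simp only [e, Fintype.prod_sum, Finset.prod_mul_distrib]
    rw [integral_finsetSum _ fun j _ => cint _ (by fun_prop), ← Finset.sum_sub_distrib]
    simp only [integral_const_mul, ← mul_sub]
    refine (Finset.abs_sum_le_sum_abs _ _).trans ((Finset.sum_le_sum (g := fun j : Fin m → ι =>
      (∏ i, |c i (j i)|) * (1 / ((2 * s ^ (m * N + 1) : ℕ) : ℝ))) fun j _ => ?_).trans ?_)
    · rw [abs_mul, Finset.abs_prod]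
      by_cases h0 : ∏ i, |c i (j i)| = 0
      · rw [h0, zero_mul, zero_mul]
      refine mul_le_mul_of_nonneg_left ?_ (Finset.prod_nonneg fun _ _ => abs_nonneg _)
      have := hZ _ L r (hs.trans ss) r1 hrL (fun α => p α.1 (j α.1) α.2) fun α =>
        inBox_mono ss (hp _ _ _ (abs_ne_zero.1 (Finset.prod_ne_zero_iff.1 h0 _ (Finset.mem_univ _))))
      rwa [hν] at this
    · rw [← Finset.sum_mul, ← Fintype.prod_sum fun i j => |c i j|]
      have : ∏ i, ∑ j, |c i j| ≤ (s : ℝ) ^ (m * N) := by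
        refine (Finset.prod_le_prod (fun i _ => Finset.sum_nonneg fun _ _ => abs_nonneg _)
          fun i _ => hc i).trans_eq ?_
        rw [Fin.prod_const, ← pow_mul, mul_comm]
      refine (mul_le_mul_of_nonneg_right this (by positivity)).trans_eq ?_
      push_cast
      field_simp
      ring
  obtain ⟨T, hT⟩ : ∃ T : ℝ, T = C₁ * s ^ (d * (N + 1)) := ⟨_, rfl⟩
  have T1 : 1 ≤ T := hT ▸ one_le_mul_of_one_le_of_one_le hC₁ (one_le_pow₀ s1)
  have sN : (1 : ℝ) ≤ s ^ N := one_le_pow₀ s1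
  have S1 : ∀ U : Link d L → G, 1 ≤ 1 + SM ρ r s U := fun U => le_add_of_nonneg_right (SM_nonneg ρ r s U)
  have mT : ∫ U, (1 + SM ρ r s U) ^ (N + 1) ∂ν ≤ T := by
    have := m₁ L r (by linarith) hrL s hs
    rwa [hν, ← hT] at this
  have b1 : ∀ i U, |O i U - Q i U| ≤ s ^ N / r * (1 + SM ρ r s U) ^ (N + 1) := fun i U =>
    (hQ i U).trans (mul_le_mul_of_nonneg_left (pow_le_pow_right₀ (S1 U) (by omega))
      (by positivity))
  have b2 : ∀ i U, |Q i U| ≤ s ^ N * (1 + SM ρ r s U) ^ (N + 1) := fun i U => by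
    refine (Finset.abs_sum_le_sum_abs _ _).trans ((Finset.sum_le_sum (g := fun j =>
      |c i j| * (1 + SM ρ r s U) ^ (N + 1)) fun j _ => ?_).trans ?_)
    · rw [abs_mul]
      by_cases h0 : c i j = 0
      · simp [h0]
      refine mul_le_mul_of_nonneg_left ((abs_BZ_le ρ r (hp i j _ h0) (hp i j _ h0) U).trans
        (le_trans (by linarith) (le_self_pow₀ (S1 U) (by omega)))) (abs_nonneg _)
    · rw [← Finset.sum_mul]
      exact mul_le_mul_of_nonneg_right (hc i) (by have := S1 U; positivity)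
  have b3 : ∀ i U, |O i U| ≤ 2 * (s ^ N * (1 + SM ρ r s U) ^ (N + 1)) := fun i U => by
    have h := mul_le_mul_of_nonneg_right (div_le_self (by positivity : (0 : ℝ) ≤ s ^ N) r3)
      (show 0 ≤ (1 + SM ρ r s U) ^ (N + 1) by have := S1 U; positivity)
    have := abs_add_le (O i U - Q i U) (Q i U)
    rw [sub_add_cancel] at this
    linarith [b1 i U, b2 i U]
  have av : ∀ (f : (Link d L → G) → ℝ) (κ : ℝ), 0 ≤ κ →
      (∀ U, |f U| ≤ κ * (1 + SM ρ r s U) ^ (N + 1)) → |∫ U, f U ∂ν| ≤ κ * T := fun f κ h0 hf =>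
    (abs_int_le ν (by fun_prop) hf).trans (by
      rw [integral_const_mul]; exact mul_le_mul_of_nonneg_left mT h0)
  have w2 := abs_int_le ν (f := fun U => ∏ i, (O i U - ∫ V, O i V ∂ν) -
      ∏ i, (Q i U - ∫ V, Q i V ∂ν)) (g := fun U => m * (2 * s ^ N) ^ (m + 1) / r *
        ((1 + SM ρ r s U) ^ (N + 1) + T) ^ (m + 1)) (by fun_prop) fun U => by
    have P1 : 1 ≤ (1 + SM ρ r s U) ^ (N + 1) := one_le_pow₀ (S1 U)
    have a1 := fun i => av _ (2 * s ^ N) (by positivity) fun U => (b3 i U).trans_eq (by ring)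
    have a2 := fun i => av _ (s ^ N) (by positivity) (b2 i)
    have a3 := fun i => av _ (s ^ N / r) (by positivity) (b1 i)
    have b1 := fun i => b1 i U
    have b2 := fun i => b2 i U
    have b3 := fun i => b3 i U
    generalize (1 + SM ρ r s U) ^ (N + 1) = P at *
    have x1 : 0 ≤ (s : ℝ) ^ N * P := by positivity
    have x2 : 0 ≤ (s : ℝ) ^ N * T := by positivity
    have x3 : 0 ≤ (s : ℝ) ^ N / r * (P + T) := by positivity
    refine (abs_prod_sub Finset.univ _ _ (Ξ := 2 * s ^ N * (P + T))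
      (ε := 2 * s ^ N * (P + T) / r) (by nlinarith) (fun i => (abs_sub _ _).trans ?_)
      (fun i => (abs_sub _ _).trans ?_) (by positivity) fun i => ?_).trans_eq ?_
    · linarith [a1 i, b3 i]
    · linarith [a2 i, b2 i]
    · have := a3 i
      rw [integral_sub (cint _ (hO i)) (cint _ (cQ i))] at this
      rw [sub_sub_sub_comm]
      refine (abs_sub _ _).trans ?_
      have e : 2 * (s : ℝ) ^ N * (P + T) / r = 2 * (s ^ N / r * (P + T)) := by ring
      linarith [b1 i]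
    · simp only [Finset.card_univ, Fintype.card_fin]
      rw [mul_pow (2 * (s : ℝ) ^ N)]
      ring
  rw [integral_sub (cint _ (by fun_prop)) (cint _ (by fun_prop)), integral_const_mul] at w2
  have w3 : ∫ U, ((1 + SM ρ r s U) ^ (N + 1) + T) ^ (m + 1) ∂ν ≤
      2 ^ m * (C₂ + C₁ ^ (m + 1)) * s ^ (d * (N + 1) * (m + 1)) := by
    have h4 := m₂ L r (by linarith) hrL s hs
    rw [hν, show (N + 1) * m + N + 1 = (N + 1) * (m + 1) by ring, ← mul_assoc] at h4
    calc _ ≤ ∫ U, 2 ^ m * ((1 + SM ρ r s U) ^ ((N + 1) * (m + 1)) + T ^ (m + 1)) ∂ν := by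
          refine integral_mono (cint _ (by fun_prop)) (cint _ (by fun_prop)) fun U => ?_
          have := add_pow_le (a := (1 + SM ρ r s U) ^ (N + 1)) (b := T)
            (by have := S1 U; positivity) (by linarith) (m + 1)
          simpa only [Nat.add_sub_cancel, ← pow_mul] using this
      _ ≤ _ := by
          rw [integral_const_mul, integral_add (cint _ (by fun_prop)) (integrable_const _),
            mul_assoc]
          refine mul_le_mul_of_nonneg_left ?_ (by positivity)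
          simp only [integral_const, probReal_univ, smul_eq_mul, one_mul]
          rw [hT, mul_pow, ← pow_mul]
          linarith
  have w4 : m * (2 * (s : ℝ) ^ N) ^ (m + 1) / r *
      (2 ^ m * (C₂ + C₁ ^ (m + 1)) * s ^ (d * (N + 1) * (m + 1))) ≤ 1 / (2 * s) := by
    rw [div_mul_eq_mul_div, div_le_div_iff₀ (by linarith) (by linarith), one_mul]
    refine le_trans (le_of_eq ?_) r2
    rw [hC₃, hq₁]
    ring
  have w5 := w2.trans ((mul_le_mul_of_nonneg_left w3 (by positivity)).trans w4)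
  refine (abs_sub_le _ _ _).trans ((add_le_add w5 w1).trans_eq ?_)
  field_simp
  ring

end Pool.Agent.Lib.MP_7f377f_mp.Weak
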