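import Pool.Agent.Lib.MP_7f377f_mp.WeakSD

/-! Pointwise estimates for the derivatives along the flow, and summation by parts. -/

namespace Pool.Agent.Lib.MP_7f377f_mp.Weak

open NormedSpace HS
open scoped InnerProductSpace

set_option linter.unusedSectionVars false

variable {d L : ℕ} [NeZero L] [NeZero d]
variable {A : Type} [NormedRing A] [StarRing A] [NormedAlgebra ℝ A] [HS A]

/-- a curve through the unitary `u` with logarithmic derivative `ξ` -/
structure Tan (c : ℝ → A) (u ξ : A) : Prop where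
  unit : u ∈ unitary A
  zero : c 0 = u
  skew : star ξ = -ξ
  der : HasDerivAt c (ξ * u) 0

theorem hasDerivAt_star {c : ℝ → A} {c' : A} {t : ℝ} (h : HasDerivAt c c' t) :
    HasDerivAt (fun t => star (c t)) (star c') t :=
  (starL' ℝ (A := A)).toContinuousLinearMap.hasFDerivAt.comp_hasDerivAt t h

theorem Tan.mul {c₁ c₂ : ℝ → A} {u₁ u₂ ξ₁ ξ₂ : A} (h₁ : Tan c₁ u₁ ξ₁) (h₂ : Tan c₂ u₂ ξ₂) :
    Tan (fun t => c₁ t * c₂ t) (u₁ * u₂) (ξ₁ + u₁ * ξ₂ * star u₁) where
  unit := mul_mem h₁.unit h₂.unit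
  zero := by rw [h₁.zero, h₂.zero]
  skew := by simp only [star_add, star_mul, star_star, h₁.skew, h₂.skew]; noncomm_ring
  der := by
    have := h₁.der.mul h₂.der
    rw [h₁.zero, h₂.zero] at this
    have e : (ξ₁ + u₁ * ξ₂ * star u₁) * (u₁ * u₂) = ξ₁ * u₁ * u₂ + u₁ * (ξ₂ * u₂) := by
      calc _ = ξ₁ * u₁ * u₂ + u₁ * (ξ₂ * ((star u₁ * u₁) * u₂)) := by noncomm_ring
        _ = _ := by rw [h₁.unit.1, one_mul]
    rw [e]
    exact this

theorem Tan.star {c : ℝ → A} {u ξ : A} (h : Tan c u ξ) :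
    Tan (fun t => star (c t)) (star u) (star u * -ξ * star (star u)) where
  unit := Unitary.star_mem h.unit
  zero := by rw [h.zero]
  skew := by simp only [star_neg, star_mul, star_star, h.skew]; noncomm_ring
  der := by
    have := hasDerivAt_star h.der
    rw [star_mul, h.skew] at this
    rw [star_star, mul_assoc, h.unit.2, mul_one]
    exact this

theorem norm_cj {u : A} (hu : u ∈ unitary A) (ξ : A) : ‖u * ξ * star u‖ = ‖ξ‖ := by
  rw [norm_mul_unit (Unitary.star_mem hu), norm_unit_mul hu]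

theorem cj_near {u : A} (hu : u ∈ unitary A) (ξ a : A) :
    ‖u * ξ * star u - a‖ ≤ ‖ξ - a‖ + 2 * ‖u - 1‖ * ‖ξ‖ := by
  have e : u * ξ * star u - a = (ξ - a) + ((u - 1) * ξ * star u + ξ * (star u - 1)) := by
    noncomm_ring
  rw [e]
  refine (norm_add_le _ _).trans (add_le_add le_rfl ((norm_add_le _ _).trans ?_))
  rw [norm_mul_unit (Unitary.star_mem hu)]
  have h1 := norm_mul_le (u - 1) ξ
  have h2 := norm_mul_le ξ (star u - 1)
  rw [norm_star_sub_one] at h2
  linarith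

theorem tan_flow (ψ : Link d L → ℝ) {v : A} (hv : star v = -v) {B : Link d L → A}
    (hB : ∀ e, B e ∈ unitary A) (e : Link d L) : Tan (fun t => flow ψ v B t e) (B e) (ψ e • v) where
  unit := hB e
  zero := by rw [flow_zero]
  skew := by rw [HS.star_smul, hv]; simp
  der := by simpa only [flow_zero] using flow_deriv_apply ψ v B 0 e

/-- exterior derivative of a one-form -/
def dL (a : Link d L → ℝ) (x : Site d L) (i j : Fin d) : ℝ :=
  a (x, i) + a (x + Pi.single i 1, j) - a (x + Pi.single j 1, i) - a (x, j)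

/-- sum over the links of a plaquette -/
def sP (a : Link d L → ℝ) (x : Site d L) (i j : Fin d) : ℝ :=
  a (x, i) + a (x + Pi.single i 1, j) + a (x + Pi.single j 1, i) + a (x, j)

theorem abs_dL_le (a : Link d L → ℝ) (x : Site d L) (i j : Fin d) :
    |dL a x i j| ≤ sP (fun e => |a e|) x i j := by
  unfold dL sP
  refine (abs_sub _ _).trans (add_le_add ((abs_sub _ _).trans (add_le_add (abs_add_le _ _) le_rfl))
    le_rfl)

theorem tan_hol (ψ : Link d L → ℝ) {v : A} (hv : star v = -v) {B : Link d L → A}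
    (hB : ∀ e, B e ∈ unitary A) (x : Site d L) (i j : Fin d) :
    ∃ ξ, Tan (fun t => holA (flow ψ v B t) x i j) (holA B x i j) ξ ∧ ‖ξ - dL ψ x i j • v‖ ≤
      2 * sP (fun e => ‖B e - 1‖) x i j * sP (fun e => |ψ e|) x i j * ‖v‖ := by
  have t := tan_flow ψ hv hB
  refine ⟨_, (((t (x, i)).mul (t (x + Pi.single i 1, j))).mul (t (x + Pi.single j 1, i)).star).mul
    (t (x, j)).star, ?_⟩
  simp only [dL, sP]
  have h1 := hB (x, i)
  have h2 := hB (x + Pi.single i 1, j)
  have h3 := hB (x + Pi.single j 1, i)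
  have h4 := hB (x, j)
  generalize B (x, i) = u₁ at *
  generalize B (x + Pi.single i 1, j) = u₂ at *
  generalize B (x + Pi.single j 1, i) = u₃ at *
  generalize B (x, j) = u₄ at *
  generalize ψ (x, i) = a₁
  generalize ψ (x + Pi.single i 1, j) = a₂
  generalize ψ (x + Pi.single j 1, i) = a₃
  generalize ψ (x, j) = a₄
  have h12 := mul_mem h1 h2
  have h123 := mul_mem h12 (Unitary.star_mem h3)
  have n12 := norm_mul_sub_one_le h1 u₂
  have n123 := norm_mul_sub_one_le h12 (star u₃)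
  have e2 := cj_near h1 (a₂ • v) (a₂ • v)
  have e3 := cj_near h12 (star u₃ * -(a₃ • v) * star (star u₃)) (-(a₃ • v))
  have e3' := cj_near (Unitary.star_mem h3) (-(a₃ • v)) (-(a₃ • v))
  have e4 := cj_near h123 (star u₄ * -(a₄ • v) * star (star u₄)) (-(a₄ • v))
  have e4' := cj_near (Unitary.star_mem h4) (-(a₄ • v)) (-(a₄ • v))
  rw [norm_cj (Unitary.star_mem h3)] at e3
  rw [norm_cj (Unitary.star_mem h4)] at e4
  simp only [sub_self, norm_zero, zero_add, norm_neg, norm_smul, Real.norm_eq_abs,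
    norm_star_sub_one] at e2 e3 e3' e4 e4' n123
  have e : ∀ p q r : A, a₁ • v + p + q + r - (a₁ + a₂ - a₃ - a₄) • v =
      (p - a₂ • v) + (q - -(a₃ • v)) + (r - -(a₄ • v)) := fun p q r => by module
  rw [e]
  refine (norm_add₃_le).trans ?_
  have p1 := norm_nonneg (u₁ - 1)
  have p2 := norm_nonneg (u₂ - 1)
  have p3 := norm_nonneg (u₃ - 1)
  have p4 := norm_nonneg (u₄ - 1)
  have q1 : 0 ≤ |a₁| * ‖v‖ := by positivity
  have q2 : 0 ≤ |a₂| * ‖v‖ := by positivity
  have q3 : 0 ≤ |a₃| * ‖v‖ := by positivity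
  have q4 : 0 ≤ |a₄| * ‖v‖ := by positivity
  have r3 := mul_le_mul_of_nonneg_right n12 q3
  have r4 := mul_le_mul_of_nonneg_right (n123.trans (add_le_add n12 le_rfl)) q4
  nlinarith [mul_nonneg p1 q1, mul_nonneg p2 q1, mul_nonneg p3 q1, mul_nonneg p4 q1,
    mul_nonneg p2 q2, mul_nonneg p3 q2, mul_nonneg p4 q2, mul_nonneg p4 q3]

theorem norm_holA_le {B : Link d L → A} (hB : ∀ e, B e ∈ unitary A) (x : Site d L) (i j : Fin d) :
    ‖holA B x i j - 1‖ ≤ sP (fun e => ‖B e - 1‖) x i j := by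
  have h12 := mul_mem (hB (x, i)) (hB (x + Pi.single i 1, j))
  have h123 := mul_mem h12 (Unitary.star_mem (hB (x + Pi.single j 1, i)))
  have n12 := norm_mul_sub_one_le (hB (x, i)) (B (x + Pi.single i 1, j))
  have n123 := norm_mul_sub_one_le h12 (star (B (x + Pi.single j 1, i)))
  have n := norm_mul_sub_one_le h123 (star (B (x, j)))
  rw [norm_star_sub_one] at n123 n
  simp only [holA, sP]
  linarith

theorem inner_star_skew {v : A} (hv : star v = -v) (X : A) : ⟪v, star X⟫_ℝ = -⟪v, X⟫_ℝ := by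
  rw [inner_def, inner_def, ← star_mul, tr_star, hv, neg_mul, map_neg, neg_neg, tr_mul_comm]

theorem inner_holA {v : A} (hv : star v = -v) {B : Link d L → A} (hB : ∀ e, B e ∈ unitary A)
    (x : Site d L) (i j : Fin d) :
    |⟪v, holA B x i j - 1⟫_ℝ - dL (fun e => ⟪v, B e - 1⟫_ℝ) x i j| ≤
      ‖v‖ * sP (fun e => ‖B e - 1‖) x i j ^ 2 := by
  simp only [dL, sP, holA]
  have h1 := hB (x, i)
  have h2 := hB (x + Pi.single i 1, j)
  have h3 := hB (x + Pi.single j 1, i)
  generalize B (x, i) = u₁ at *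
  generalize B (x + Pi.single i 1, j) = u₂ at *
  generalize B (x + Pi.single j 1, i) = u₃ at *
  generalize B (x, j) = u₄ at *
  have h12 := mul_mem h1 h2
  have n12 := norm_mul_sub_one_le h1 u₂
  have n123 := norm_mul_sub_one_le h12 (star u₃)
  have e : u₁ * u₂ * star u₃ * star u₄ - 1 = (u₁ - 1) + (u₂ - 1) + star (u₃ - 1) + star (u₄ - 1) +
      ((u₁ - 1) * (u₂ - 1) + (u₁ * u₂ - 1) * (star u₃ - 1) +
        (u₁ * u₂ * star u₃ - 1) * (star u₄ - 1)) := by
    simp only [star_sub, star_one]; noncomm_ring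
  rw [e]
  simp only [inner_add_right _ _ (_ + _ + _ : A), inner_add_right _ _ (star _), inner_star_skew hv,
    inner_add_right _ (u₁ - 1) (u₂ - 1)]
  ring_nf
  refine (abs_real_inner_le_norm _ _).trans ?_
  have m1 := norm_mul_le (u₁ - 1) (u₂ - 1)
  have m2 := norm_mul_le (u₁ * u₂ - 1) (star u₃ - 1)
  have m3 := norm_mul_le (u₁ * u₂ * star u₃ - 1) (star u₄ - 1)
  rw [norm_star_sub_one] at m2 m3 n123
  have p1 := norm_nonneg (u₁ - 1)
  have p2 := norm_nonneg (u₂ - 1)
  have p3 := norm_nonneg (u₃ - 1)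
  have p4 := norm_nonneg (u₄ - 1)
  have r3 := mul_le_mul_of_nonneg_right n12 p3
  have r4 := mul_le_mul_of_nonneg_right (n123.trans (add_le_add n12 le_rfl)) p4
  have key : ‖(u₁ - 1) * (u₂ - 1) + (u₁ * u₂ - 1) * (star u₃ - 1) +
      (u₁ * u₂ * star u₃ - 1) * (star u₄ - 1)‖ ≤
      (‖u₁ - 1‖ + ‖u₂ - 1‖ + ‖u₃ - 1‖ + ‖u₄ - 1‖) ^ 2 := by
    refine (norm_add₃_le).trans ?_
    nlinarith [mul_nonneg p1 p2, mul_nonneg p1 p3, mul_nonneg p1 p4, mul_nonneg p2 p3,
      mul_nonneg p2 p4, mul_nonneg p3 p4]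
  have := mul_le_mul_of_nonneg_left key (norm_nonneg v)
  linarith

variable {G : Type} [Group G] (ρ : G →* unitary A)

/-- the plaquette variable in the comb gauge -/
noncomputable def XX (U : Link d L → G) (x : Site d L) (i j : Fin d) : A :=
  (ρ (hol (fix U) x i j) : A) - 1

/-- size of the links of a plaquette in the comb gauge -/
noncomputable def etaP (U : Link d L → G) (x : Site d L) (i j : Fin d) : ℝ :=
  sP (fun e => ‖rU ρ (fix U) e - 1‖) x i j

theorem etaP_nonneg (U : Link d L → G) (x : Site d L) (i j : Fin d) : 0 ≤ etaP ρ U x i j := by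
  unfold etaP sP; positivity

theorem rU_unit (U : Link d L → G) (e : Link d L) : rU ρ U e ∈ unitary A := (ρ _).2

theorem norm_XX_le (U : Link d L → G) (x : Site d L) (i j : Fin d) :
    ‖XX ρ U x i j‖ ≤ etaP ρ U x i j := by
  rw [XX, ← holA_rU]; exact norm_holA_le (rU_unit ρ _) x i j

theorem norm_XX_sq (U : Link d L → G) (x : Site d L) (i j : Fin d) :
    ‖XX ρ U x i j‖ ^ 2 = qq ρ (hol U x i j) := by
  rw [← qq_conj ρ (cmb Inv.inv U x), ← hol_gauge]; rfl

theorem cmb_deriv (ψ : Link d L → ℝ) {v : A} (hv : star v = -v) {Ψ : ℝ} (hΨ : ∀ e, |ψ e| ≤ Ψ)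
    (U : Link d L → G) (x : Site d L) : ∃ l : ℝ, |l| ≤ ht x * Ψ ∧
      Tan (fun t => cmb star (flow ψ v (rU ρ (fix U)) t) x) 1 (l • v) := by
  induction x using site_induction with
  | h0 =>
    refine ⟨0, by simp [ht], one_mem _, cmb_zero _ _, by simp, ?_⟩
    simp only [cmb_zero, zero_smul, zero_mul]
    exact hasDerivAt_const _ _
  | h x hx ih =>
    obtain ⟨l, h1, h2⟩ := ih
    have t := tan_flow ψ hv (rU_unit ρ (fix U)) (plink x)
    have e : rU ρ (fix U) (plink x) = 1 := by rw [rU, fix_plink U hx, rho_one]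
    have hht : (ht x : ℝ) = ht (par x) + 1 := by rw [← ht_par hx]; push_cast; rfl
    have := hΨ (plink x)
    rw [e] at t
    simp only [cmb_step _ _ hx]
    split_ifs
    · refine ⟨l + ψ (plink x), (abs_add_le _ _).trans (by rw [hht]; linarith), ?_⟩
      simpa [add_smul] using h2.mul t
    · refine ⟨l - ψ (plink x), (abs_sub _ _).trans (by rw [hht]; linarith), ?_⟩
      simpa [sub_smul, sub_eq_add_neg, add_smul] using h2.mul t.star

theorem DD_las (ψ : Link d L → ℝ) {v : A} (hv : star v = -v) {Ψ : ℝ} (hΨ : ∀ e, |ψ e| ≤ Ψ)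
    (U : Link d L → G) (x : Site d L) (i j : Fin d) :
    ‖DD ρ ψ v (fun B => lasA B x i j) U - dL ψ x i j • v‖ ≤
      (2 * ht x + 12) * Ψ * etaP ρ U x i j * ‖v‖ := by
  obtain ⟨l, h1, h2⟩ := cmb_deriv ρ ψ hv hΨ U x
  obtain ⟨ξ, h3, h4⟩ := tan_hol ψ hv (rU_unit ρ (fix U)) x i j
  have h5 := (DD_deriv ρ ψ v (contDiff_lasA x i j) U).unique
    ((((h2.der.mul h3.der).mul (hasDerivAt_star h2.der))).sub_const 1)
  have hX := norm_XX_le ρ U x i j
  rw [h5]
  simp only [Pi.mul_apply, h2.zero, h3.zero, star_one, mul_one, one_mul, h2.skew]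
  rw [XX, ← holA_rU] at hX
  have hu := h3.unit
  have hs : sP (fun e => |ψ e|) x i j ≤ 4 * Ψ := by
    have := hΨ (x, i)
    have := hΨ (x + Pi.single i 1, j)
    have := hΨ (x + Pi.single j 1, i)
    have := hΨ (x, j)
    simp only [sP]; linarith
  have hd := (abs_dL_le ψ x i j).trans hs
  change _ ≤ 2 * etaP ρ U x i j * _ * _ at h4
  have hη := etaP_nonneg ρ U x i j
  generalize holA (rU ρ (fix U)) x i j = u at *
  generalize etaP ρ U x i j = η at *
  generalize dL ψ x i j = a at *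
  have e : ∀ p q : A, p * u + ξ * u + u * -p - q =
      (p * (u - 1) - (u - 1) * p) + (ξ - q) * u + q * (u - 1) := fun p q => by noncomm_ring
  rw [e]
  refine (norm_add₃_le).trans ?_
  rw [norm_mul_unit hu]
  have m0 := norm_sub_le (l • v * (u - 1)) ((u - 1) * l • v)
  have m1 := norm_mul_le (l • v) (u - 1)
  have m2 := norm_mul_le (u - 1) (l • v)
  have m3 := norm_mul_le (a • v) (u - 1)
  simp only [norm_smul, Real.norm_eq_abs] at m1 m2 m3
  have Ψ0 : 0 ≤ Ψ := (abs_nonneg _).trans (hΨ (x, i))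
  have v0 := norm_nonneg v
  have k1 : |l| * ‖v‖ * ‖u - 1‖ ≤ ht x * Ψ * ‖v‖ * η := by gcongr
  have k2 : |a| * ‖v‖ * ‖u - 1‖ ≤ 4 * Ψ * ‖v‖ * η := by gcongr
  have k3 : 2 * η * sP (fun e => |ψ e|) x i j * ‖v‖ ≤ 2 * η * (4 * Ψ) * ‖v‖ := by gcongr
  nlinarith

theorem DD_act (ψ : Link d L → ℝ) {v : A} (hv : star v = -v) (U : Link d L → G) {η : ℝ}
    (h : ∀ x i j, sP (fun e => |ψ e|) x i j ≠ 0 → etaP ρ U x i j ≤ η) :
    |DD ρ ψ v actA U - 2 * ∑ x, ∑ i, ∑ j, dL ψ x i j *
      dL (fun e => ⟪v, rU ρ (fix U) e - 1⟫_ℝ) x i j| ≤ 24 * d * η ^ 2 * ‖v‖ * ∑ e, |ψ e| := by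
  choose ξ h3 h4 using tan_hol ψ hv (rU_unit ρ (fix U))
  have h5 : HasDerivAt (fun t => actA (flow ψ v (rU ρ (fix U)) t))
      (∑ x, ∑ i, ∑ j, 2 * ⟪ξ x i j, XX ρ U x i j⟫_ℝ) 0 := by
    refine HasDerivAt.fun_sum fun x _ => HasDerivAt.fun_sum fun i _ =>
      HasDerivAt.fun_sum fun j _ => HasDerivAt.const_mul _ ?_
    have := ((LinearMap.toContinuousLinearMap (tr : A →ₗ[ℝ] ℝ)).hasFDerivAt.comp_hasDerivAt 0
      (h3 x i j).der).const_sub (tr (1 : A))
    have e : ⟪ξ x i j, XX ρ U x i j⟫_ℝ = -tr (ξ x i j * holA (rU ρ (fix U)) x i j) := by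
      rw [inner_def, (h3 x i j).skew, XX, ← holA_rU, neg_mul, mul_sub, map_neg, map_sub, mul_one,
        tr_skew (h3 x i j).skew, sub_zero]
    rw [e]
    exact this
  rw [(DD_deriv ρ ψ v contDiff_actA U).unique h5]
  simp only [Finset.mul_sum _ _ (2 : ℝ), ← Finset.sum_sub_distrib]
  have key : ∀ x i j, |2 * ⟪ξ x i j, XX ρ U x i j⟫_ℝ - 2 * (dL ψ x i j *
      dL (fun e => ⟪v, rU ρ (fix U) e - 1⟫_ℝ) x i j)| ≤
      6 * η ^ 2 * ‖v‖ * sP (fun e => |ψ e|) x i j := by
    intro x i j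
    have a1 := h4 x i j
    have a2 := inner_holA hv (rU_unit ρ (fix U)) x i j
    have a3 := norm_XX_le ρ U x i j
    have a4 := abs_dL_le ψ x i j
    have a5 := etaP_nonneg ρ U x i j
    rw [holA_rU] at a2
    change _ ≤ 2 * etaP ρ U x i j * _ * _ at a1
    change |⟪v, XX ρ U x i j⟫_ℝ - _| ≤ _ * etaP ρ U x i j ^ 2 at a2
    have a6 : sP (fun e => |ψ e|) x i j * etaP ρ U x i j ^ 2 ≤ sP (fun e => |ψ e|) x i j * η ^ 2 := by
      by_cases h0 : sP (fun e => |ψ e|) x i j = 0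
      · simp [h0]
      · exact mul_le_mul_of_nonneg_left (pow_le_pow_left₀ a5 (h x i j h0) 2)
          ((abs_nonneg _).trans a4)
    generalize dL (fun e => ⟪v, rU ρ (fix U) e - 1⟫_ℝ) x i j = y at *
    generalize sP (fun e => |ψ e|) x i j = s at *
    generalize etaP ρ U x i j = ε at *
    generalize dL ψ x i j = a at *
    generalize XX ρ U x i j = X at *
    have e : 2 * ⟪ξ x i j, X⟫_ℝ - 2 * (a * y) =
        2 * (⟪ξ x i j - a • v, X⟫_ℝ + a * (⟪v, X⟫_ℝ - y)) := by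
      rw [inner_sub_left, real_inner_smul_left]; ring
    rw [e, abs_mul, abs_two]
    have s0 := (abs_nonneg _).trans a4
    have v0 := norm_nonneg v
    have b1 : |⟪ξ x i j - a • v, X⟫_ℝ| ≤ 2 * ε * s * ‖v‖ * ε :=
      (abs_real_inner_le_norm _ _).trans (by gcongr)
    have b2 : |a * (⟪v, X⟫_ℝ - y)| ≤ s * (‖v‖ * ε ^ 2) := by rw [abs_mul]; gcongr
    have b3 := abs_add_le ⟪ξ x i j - a • v, X⟫_ℝ (a * (⟪v, X⟫_ℝ - y))
    have b4 := mul_le_mul_of_nonneg_left a6 v0
    nlinarith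
  refine (Finset.abs_sum_le_sum_abs _ _).trans ((Finset.sum_le_sum fun x _ =>
    (Finset.abs_sum_le_sum_abs _ _).trans (Finset.sum_le_sum fun i _ =>
      (Finset.abs_sum_le_sum_abs _ _).trans (Finset.sum_le_sum fun j _ => key x i j))).trans_eq ?_)
  simp only [← Finset.mul_sum, sP]
  rw [sum_links fun e => |ψ e|]
  ring

/-- forward difference on the torus -/
def dpT (i : Fin d) : (Site d L → ℝ) →ₗ[ℝ] Site d L → ℝ where
  toFun f x := f (x + Pi.single i 1) - f x
  map_add' f g := by funext x; simp only [Pi.add_apply]; ring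
  map_smul' c f := by funext x; simp only [Pi.smul_apply, smul_eq_mul, RingHom.id_apply]; ring

/-- adjoint of the forward difference on the torus -/
def dmT (i : Fin d) : (Site d L → ℝ) →ₗ[ℝ] Site d L → ℝ where
  toFun f x := f (x - Pi.single i 1) - f x
  map_add' f g := by funext x; simp only [Pi.add_apply]; ring
  map_smul' c f := by funext x; simp only [Pi.smul_apply, smul_eq_mul, RingHom.id_apply]; ring

theorem dpT_apply (i : Fin d) (f : Site d L → ℝ) (x : Site d L) :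
    dpT i f x = f (x + Pi.single i 1) - f x := rfl

theorem dmT_apply (i : Fin d) (f : Site d L → ℝ) (x : Site d L) :
    dmT i f x = f (x - Pi.single i 1) - f x := rfl

theorem dT_adj (i : Fin d) (f g : Site d L → ℝ) : f ⬝ᵥ dpT i g = dmT i f ⬝ᵥ g := by
  simp only [dotProduct, dpT_apply, dmT_apply, mul_sub, sub_mul, Finset.sum_sub_distrib]
  congr 1
  rw [← Equiv.sum_comp (Equiv.subRight (Pi.single i 1 : Site d L))]
  simp

theorem dmT_dpT (i j : Fin d) (f : Site d L → ℝ) : dmT i (dpT j f) = dpT j (dmT i f) := by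
  funext x
  simp only [dpT_apply, dmT_apply, sub_add_eq_add_sub]
  ring

theorem dmT_dmT (i j : Fin d) (f : Site d L → ℝ) : dmT i (dmT j f) = dmT j (dmT i f) := by
  funext x
  simp only [dmT_apply, sub_right_comm x (Pi.single i 1)]
  ring

/-- the lattice Laplacian -/
def lapT (w : Site d L → ℝ) : Site d L → ℝ := ∑ l, dmT l (dpT l w)

/-- coderivative of the two-form `w dx^a` -/
def psiW (w : Site d L → ℝ) (a : Fin d × Fin d) (e : Link d L) : ℝ :=
  (if e.2 = a.2 then dmT a.1 w e.1 else 0) - if e.2 = a.1 then dmT a.2 w e.1 else 0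

theorem sbp (w : Site d L → ℝ) (a : Fin d × Fin d) (f : Link d L → ℝ) :
    ∑ x, ∑ i, ∑ j, dL (psiW w a) x i j * dL f x i j = 2 * ∑ x, lapT w x * dL f x a.1 a.2 := by
  set F : Fin d → Site d L → ℝ := fun j x => f (x, j) with hF
  set P : Fin d → Site d L → ℝ := fun j =>
    (if j = a.2 then dmT a.1 w else 0) - if j = a.1 then dmT a.2 w else 0 with hP
  have e1 : ∀ x i j, dL f x i j = (dpT i (F j) - dpT j (F i)) x := fun x i j => by
    simp only [dL, hF, Pi.sub_apply, dpT_apply]; ring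
  have e2 : ∀ x i j, dL (psiW w a) x i j = (dpT i (P j) - dpT j (P i)) x := fun x i j => by
    simp only [dL, hP, Pi.sub_apply, dpT_apply, psiW, ite_apply, Pi.zero_apply]; ring
  have e3 : ∑ x, ∑ i, ∑ j, dL (psiW w a) x i j * dL f x i j =
      ∑ i, ∑ j, (dpT i (P j) - dpT j (P i)) ⬝ᵥ (dpT i (F j) - dpT j (F i)) := by
    simp only [e1, e2, dotProduct]
    rw [Finset.sum_comm]
    exact Finset.sum_congr rfl fun i _ => Finset.sum_comm
  have e4 : ∑ i, ∑ j, (dpT i (P j) - dpT j (P i)) ⬝ᵥ dpT j (F i) =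
      -∑ i, ∑ j, (dpT i (P j) - dpT j (P i)) ⬝ᵥ dpT i (F j) := by
    rw [Finset.sum_comm]
    simp only [← Finset.sum_neg_distrib, ← neg_dotProduct, neg_sub]
  have e5 : ∑ i, dmT i (P i) = 0 := by
    simp only [hP, map_sub, Finset.sum_sub_distrib, apply_ite (dmT _), map_zero,
      Finset.sum_ite_eq', Finset.mem_univ, if_true]
    rw [dmT_dmT, sub_self]
  have e6 : ∀ j, ∑ i, (dpT i (P j) - dpT j (P i)) ⬝ᵥ dpT i (F j) = lapT (P j) ⬝ᵥ F j := by
    intro j
    simp only [dT_adj, ← sum_dotProduct, map_sub, Finset.sum_sub_distrib, dmT_dpT _ j, ← map_sum,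
      e5, map_zero, sub_zero, lapT]
  have e7 : ∀ i, lapT (dmT i w) = dmT i (lapT w) := fun i => by
    simp only [lapT, map_sum, ← dmT_dpT i, dmT_dmT i]
  have e8 : ∀ j, lapT (P j) =
      (if j = a.2 then dmT a.1 (lapT w) else 0) - if j = a.1 then dmT a.2 (lapT w) else 0 := by
    intro j
    rw [← e7, ← e7]
    simp only [hP, lapT, map_sub, Finset.sum_sub_distrib]
    split_ifs <;> simp
  have e9 : ∑ i, ∑ j, (dpT i (P j) - dpT j (P i)) ⬝ᵥ dpT i (F j) =
      ∑ x, lapT w x * dL f x a.1 a.2 := by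
    rw [Finset.sum_comm]
    have : ∀ (p : Prop) [Decidable p] (g h : Site d L → ℝ),
        (if p then g else 0) ⬝ᵥ h = if p then g ⬝ᵥ h else 0 := fun p _ g h => by
      split_ifs <;> simp
    simp only [e6, e8]
    simp only [sub_dotProduct, Finset.sum_sub_distrib, this, Finset.sum_ite_eq', Finset.mem_univ,
      if_true, ← dT_adj, ← dotProduct_sub, e1]
    rfl
  rw [e3]
  simp only [dotProduct_sub, Finset.sum_sub_distrib]
  rw [e4, e9]
  ring

theorem dL_psiW (w : Site d L → ℝ) (a : Fin d × Fin d) (y : Site d L) (i j : Fin d) :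
    dL (psiW w a) y i j = (if a.2 = j then dpT i (dmT a.1 w) y else 0) -
      (if a.2 = i then dpT j (dmT a.1 w) y else 0) - (if a.1 = j then dpT i (dmT a.2 w) y else 0) +
      (if a.1 = i then dpT j (dmT a.2 w) y else 0) := by
  simp only [dL, psiW, dpT_apply, eq_comm (a := a.1), eq_comm (a := a.2)]
  split_ifs <;> ring

theorem sum_abs_dmT (i : Fin d) (w : Site d L → ℝ) : ∑ x, |dmT i w x| ≤ 2 * ∑ x, |w x| := by
  refine (Finset.sum_le_sum fun x _ => abs_sub _ _).trans_eq ?_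
  rw [Finset.sum_add_distrib, two_mul]
  congr 1
  exact Equiv.sum_comp (Equiv.subRight (Pi.single i 1 : Site d L)) fun x => |w x|

theorem sum_abs_dpT (i : Fin d) (w : Site d L → ℝ) : ∑ x, |dpT i w x| ≤ 2 * ∑ x, |w x| := by
  refine (Finset.sum_le_sum fun x _ => abs_sub _ _).trans_eq ?_
  rw [Finset.sum_add_distrib, two_mul]
  congr 1
  exact Equiv.sum_comp (Equiv.addRight (Pi.single i 1 : Site d L)) fun x => |w x|

theorem sum_abs_lapT (w : Site d L → ℝ) : ∑ x, |lapT w x| ≤ 4 * d * ∑ x, |w x| := by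
  simp only [lapT, Finset.sum_apply]
  refine (Finset.sum_le_sum fun x _ => Finset.abs_sum_le_sum_abs _ _).trans ?_
  rw [Finset.sum_comm]
  refine (Finset.sum_le_card_nsmul _ _ (4 * ∑ x, |w x|) fun l _ => ?_).trans_eq (by simp; ring)
  have := sum_abs_dmT l (dpT l w)
  have := sum_abs_dpT l w
  linarith

theorem sum_abs_psiW (w : Site d L → ℝ) (a : Fin d × Fin d) :
    ∑ e, |psiW w a e| ≤ 4 * ∑ x, |w x| := by
  refine (Finset.sum_le_sum fun e _ => abs_sub _ _).trans ?_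
  simp only [Finset.sum_add_distrib, Fintype.sum_prod_type, apply_ite abs, abs_zero,
    Finset.sum_ite_eq', Finset.mem_univ, if_true]
  have := sum_abs_dmT a.1 w
  have := sum_abs_dmT a.2 w
  linarith

end Pool.Agent.Lib.MP_7f377f_mp.Weak
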