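import Pool.Agent.Lib.MP_7f377f_mp.EmSD
import Pool.Agent.Lib.MP_7f377f_mp.WeakEst

/-! Derivative of weighted sums of plaquette energies along a vector field. -/

namespace Pool.Agent.Lib.MP_7f377f_mp.Weak

open HS MeasureTheory
open scoped InnerProductSpace

set_option linter.unusedSectionVars false

variable {d L : ℕ} [NeZero L] [NeZero d]
variable {A : Type} [NormedRing A] [StarRing A] [NormedAlgebra ℝ A] [HS A]
variable {G : Type} [Group G] (ρ : G →* unitary A)

/-- the plaquette which starts with the link `(x, m)` and turns to the direction `-j` -/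
def holN (U : Link d L → G) (x : Site d L) (m j : Fin d) : G :=
  U (x, m) * (U (x - Pi.single j 1 + Pi.single m 1, j))⁻¹ * (U (x - Pi.single j 1, m))⁻¹ *
    U (x - Pi.single j 1, j)

/-- weighted sum of plaquette energies -/
noncomputable def plA (κ : Site d L → Fin d → Fin d → ℝ) (B : Link d L → A) : ℝ :=
  ∑ x, ∑ i, ∑ j, κ x i j * (2 * (tr (1 : A) - tr (holA B x i j)))

theorem contDiff_plA (κ : Site d L → Fin d → Fin d → ℝ) :
    ContDiff ℝ 1 (plA κ : (Link d L → A) → ℝ) :=
  ContDiff.sum fun _ _ => ContDiff.sum fun _ _ => ContDiff.sum fun _ _ =>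
    contDiff_const.mul (contDiff_const.mul (contDiff_const.sub (contDiff_tr (contDiff_holA _ _ _))))

theorem plA_rU (κ : Site d L → Fin d → Fin d → ℝ) (U : Link d L → G) :
    plA κ (rU ρ U) = ∑ x, ∑ i, ∑ j, κ x i j * qq ρ (hol U x i j) := by
  simp only [plA, holA_rU, qq_eq]

theorem plA_one : (plA (fun _ _ _ => 1) : (Link d L → A) → ℝ) = actA := by
  funext B; simp only [plA, actA, one_mul]

theorem tr_skew_mul {v : A} (hv : star v = -v) (a : A) : tr (v * a) = -⟪v, a⟫_ℝ := by
  rw [inner_def, hv, neg_mul, map_neg, neg_neg]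

theorem tr_four {v₁ v₂ v₃ v₄ : A} (h₁ : star v₁ = -v₁) (h₂ : star v₂ = -v₂) (h₃ : star v₃ = -v₃)
    (h₄ : star v₄ = -v₄) (a b c e : A) :
    tr (((v₁ * a * b + a * (v₂ * b)) * star c + a * b * star (v₃ * c)) * star e +
      a * b * star c * star (v₄ * e)) = -(⟪v₁, a * b * star c * star e⟫_ℝ +
        ⟪v₂, b * star c * star e * a⟫_ℝ + ⟪v₃, c * star b * star a * e⟫_ℝ +
        ⟪v₄, e * c * star b * star a⟫_ℝ) := by
  have e1 := tr_skew_mul h₁ (a * b * star c * star e)
  have e2 := tr_skew_mul h₂ (b * star c * star e * a)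
  have e3 := tr_skew_mul h₃ (c * star b * star a * e)
  have e4 := tr_skew_mul h₄ (e * c * star b * star a)
  have f2 := tr_mul_comm a (v₂ * b * star c * star e)
  have f3 := (tr_star (a * b * star (v₃ * c) * star e)).symm.trans
    (show _ = tr (v₃ * c * star b * star a * e) by
      rw [tr_mul_comm _ e]; simp only [star_mul, star_star, mul_assoc])
  have f4 := (tr_star (a * b * star c * star (v₄ * e))).symm.trans
    (show _ = tr (v₄ * e * c * star b * star a) by simp only [star_mul, star_star, mul_assoc])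
  simp only [add_mul, map_add, f3, f4]
  simp only [mul_assoc] at *
  linarith

theorem YD_plA {v : (Link d L → G) → Link d L → A} (U : Link d L → G)
    (hv : ∀ e, star (v U e) = -v U e) (κ : Site d L → Fin d → Fin d → ℝ) :
    YD ρ v (plA κ) U = ∑ x, ∑ m, ∑ j, 2 * ((κ x m j + κ x j m) * ⟪v U (x, m), ρ (hol U x m j)⟫_ℝ +
      (κ (x - Pi.single j 1) m j + κ (x - Pi.single j 1) j m) *
        ⟪v U (x, m), ρ (holN U x m j)⟫_ℝ) := by
  have h0 : ∀ e, HasDerivAt (fun t : ℝ => (rU ρ U + t • fun e => v U e * rU ρ U e) e)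
      (v U e * rU ρ U e) 0 := fun e => by
    simpa using ((hasDerivAt_id (0 : ℝ)).smul_const (v U e * rU ρ U e)).const_add (rU ρ U e)
  have h1 : ∀ x i j, HasDerivAt (fun t : ℝ => κ x i j * (2 * (tr (1 : A) -
      tr (holA (rU ρ U + t • fun e => v U e * rU ρ U e) x i j))))
      (2 * (κ x i j * (⟪v U (x, i), ρ (hol U x i j)⟫_ℝ +
        ⟪v U (x + Pi.single i 1, j), ρ (holN U (x + Pi.single i 1) j i)⟫_ℝ +
        ⟪v U (x + Pi.single j 1, i), ρ (holN U (x + Pi.single j 1) i j)⟫_ℝ +
        ⟪v U (x, j), ρ (hol U x j i)⟫_ℝ))) 0 := fun x i j => by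
    have h2 := (((h0 (x, i)).mul (h0 (x + Pi.single i 1, j))).mul
      (hasDerivAt_star (h0 (x + Pi.single j 1, i)))).mul (hasDerivAt_star (h0 (x, j)))
    have h3 := (((LinearMap.toContinuousLinearMap (tr : A →ₗ[ℝ] ℝ)).hasFDerivAt.comp_hasDerivAt
      0 h2).const_sub (tr (1 : A))).const_mul 2 |>.const_mul (κ x i j)
    refine HasDerivAt.congr_deriv h3 ?_
    simp only [LinearMap.coe_toContinuousLinearMap', Pi.mul_apply, zero_smul, add_zero]
    rw [tr_four (hv _) (hv _) (hv _) (hv _)]
    simp only [hol, holN, rho_mul, rho_inv, rU, add_sub_cancel_right]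
    ring
  have h4 := HasDerivAt.fun_sum (u := Finset.univ) fun x _ => HasDerivAt.fun_sum
    (u := Finset.univ) fun i _ => HasDerivAt.fun_sum (u := Finset.univ) fun j _ => h1 x i j
  rw [(YD_eq ρ v (contDiff_plA κ) U).unique h4]
  have sh : ∀ g : Site d L → Fin d → Fin d → ℝ, ∑ x : Site d L, ∑ m, ∑ j, g (x + Pi.single j 1) m j =
      ∑ x, ∑ m, ∑ j, g x m j := fun g => by
    rw [Finset.sum_comm, Finset.sum_comm (f := fun x m => ∑ j, g x m j)]
    refine Finset.sum_congr rfl fun m _ => ?_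
    rw [Finset.sum_comm, Finset.sum_comm (f := fun x j => g x m j)]
    exact Finset.sum_congr rfl fun j _ => Equiv.sum_comp
      (Equiv.addRight (Pi.single j 1 : Site d L)) fun x => g x m j
  have sw : ∀ g : Site d L → Fin d → Fin d → ℝ, ∑ x, ∑ m, ∑ j, g x j m =
      ∑ x, ∑ m, ∑ j, g x m j := fun g => Finset.sum_congr rfl fun x _ => Finset.sum_comm
  have a1 := sh fun x m j => κ (x - Pi.single j 1) m j * ⟪v U (x, m), ρ (holN U x m j)⟫_ℝ
  have a2 := (sw fun x m j => κ x j m * ⟪v U (x + Pi.single j 1, m),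
    ρ (holN U (x + Pi.single j 1) m j)⟫_ℝ).trans (Eq.trans (by simp only [add_sub_cancel_right])
      (sh fun x m j => κ (x - Pi.single j 1) j m * ⟪v U (x, m), ρ (holN U x m j)⟫_ℝ))
  have a3 := sw fun x m j => κ x j m * ⟪v U (x, m), ρ (hol U x m j)⟫_ℝ
  simp only [add_sub_cancel_right] at a1
  simp only [← Finset.mul_sum, mul_add, add_mul, Finset.sum_add_distrib]
  linarith

variable [TopologicalSpace G] [IsTopologicalGroup G] [CompactSpace G]
  [SecondCountableTopology G] [MeasurableSpace G] [BorelSpace G] (μ : Measure G)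
  [μ.IsHaarMeasure] [IsProbabilityMeasure μ]

theorem sd_far (hρ : Continuous ρ) {v : (Link d L → G) → Link d L → A} (hv : VF ρ v)
    {O : (Link d L → G) → ℝ} (hO : Continuous O)
    (hi : ∀ e, (∀ U, v U e = 0) ∨ ∀ U g, O (Function.update U e g) = O U)
    {f : (Link d L → A) → ℝ} (hf : ContDiff ℝ 1 f) :
    ∫ U, O U * YD ρ v f U ∂(Measure.pi fun _ => μ) = 0 := by
  set b := stdOrthonormalBasis ℝ (lieAlg ρ) with hb
  have e1 : ∀ U, O U * YD ρ v f U = ∑ e, ∑ c, O U * ⟪(b c : A), v U e⟫_ℝ *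
      fderiv ℝ f (rU ρ U) (Pi.single e (b c * rU ρ U e)) := fun U => by
    simp only [mul_assoc, ← Finset.mul_sum]
    congr 1
    simp only [← smul_eq_mul (α := ℝ), ← map_smul, ← map_sum, YD]
    congr 1
    funext e'
    have := congrArg Subtype.val (b.sum_repr' ⟨v U e', hv.mem U e'⟩)
    simp only [Submodule.coe_sum, Submodule.coe_smul, Submodule.coe_inner] at this
    simp only [Finset.sum_apply, Pi.smul_apply, Pi.single_apply, smul_ite, smul_zero]
    rw [Finset.sum_comm]
    simp only [Finset.sum_ite_eq, Finset.mem_univ, if_true, ← smul_mul_assoc,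
      ← Finset.sum_mul, this]
  have h1 := continuous_rU (d := d) (L := L) ρ hρ
  have h2 := hf.continuous_fderiv one_ne_zero
  have h3 := hv.cont
  have h5 : ∀ e c, Continuous fun U : Link d L → G => O U * ⟪(b c : A), v U e⟫_ℝ := fun e c =>
    hO.mul (continuous_const.inner (by fun_prop))
  have h4 : ∀ e c, Continuous fun U : Link d L → G => O U * ⟪(b c : A), v U e⟫_ℝ *
      fderiv ℝ f (rU ρ U) (Pi.single e (b c * rU ρ U e)) := fun e c =>
    (h5 e c).mul ((h2.comp h1).clm_apply ((continuous_single e).comp (by fun_prop)))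
  simp only [e1]
  rw [integral_finsetSum _ fun e _ => cint _ (continuous_finsetSum _ fun c _ => h4 e c)]
  refine Finset.sum_eq_zero fun e _ => ?_
  rw [integral_finsetSum _ fun c _ => cint _ (h4 e c)]
  refine Finset.sum_eq_zero fun c _ => ?_
  rcases hi e with h | h
  · simp [h]
  · exact sd_link ρ μ hρ e (b c).2 (h5 e c) (fun U g => by rw [hv.ind, h]) hf

/-- the equation of motion away from the other insertions -/
theorem sd_wt (hρ : Continuous ρ) {v : (Link d L → G) → Link d L → A} (hv : VF ρ v)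
    {O : (Link d L → G) → ℝ} (hO : Continuous O)
    (hi : ∀ e, (∀ U, v U e = 0) ∨ ∀ U g, O (Function.update U e g) = O U) (b : ℝ) :
    ∫ U, YD ρ v actA U * O U * Real.exp (-(b * act ρ U)) ∂(Measure.pi fun _ => μ) = 0 := by
  have hA := contDiff_actA (A := A) (d := d) (L := L)
  by_cases hb : b = 0
  · simpa [hb, mul_comm] using sd_far ρ μ hρ hv hO hi hA
  have hg : ContDiff ℝ 1 fun B : Link d L → A => Real.exp (-(b * actA B)) :=
    (contDiff_const.mul hA).neg.exp
  have h0 := sd_far ρ μ hρ hv hO hi hg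
  have e : ∀ U, O U * YD ρ v (fun B : Link d L → A => Real.exp (-(b * actA B))) U =
      -b * (YD ρ v actA U * O U * Real.exp (-(b * act ρ U))) := by
    intro U
    rw [(YD_eq ρ v hg U).unique ((YD_eq ρ v hA U).const_mul b).neg.exp]
    simp only [Pi.neg_apply, zero_smul, add_zero, actA_rU]
    ring
  simp only [e, integral_const_mul] at h0
  exact (mul_eq_zero.1 h0).resolve_left (neg_ne_zero.2 hb)

end Pool.Agent.Lib.MP_7f377f_mp.Weak
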