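import Pool.Agent.Lib.MP_7f377f_mp.WeakHS
import Pool.Agent.Lib.MP_7f377f_mp.WeakHaar

/-! The closed subgroup lemma for the image of a compact group in a Hilbert-Schmidt algebra. -/

namespace Pool.Agent.Lib.MP_7f377f_mp.Weak

open Filter Topology NormedSpace

variable {A : Type} [NormedRing A] [StarRing A] [NormedAlgebra ℝ A] [HS A]

/-- the Lie algebra of the image of a representation -/
noncomputable def lieAlg {G : Type} [Group G] (ρ : G →* unitary A) : Submodule ℝ A :=
  Submodule.span ℝ {X : A | ∀ t : ℝ, ∃ g, (ρ g : A) = NormedSpace.exp (t • X)}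

theorem exp_quad : ∃ C : ℝ, 0 ≤ C ∧ ∃ r : ℝ, 0 < r ∧
    ∀ y : A, ‖y‖ < r → ‖exp y - 1 - y‖ ≤ C * ‖y‖ ^ 2 := by
  have h := (exp_hasFPowerSeriesAt_zero (𝕂 := ℝ) (𝔸 := A)).isBigO_sub_partialSum_pow 2
  obtain ⟨C, hC, h⟩ := h.exists_nonneg
  rw [Asymptotics.IsBigOWith, Metric.eventually_nhds_iff] at h
  obtain ⟨r, hr, h⟩ := h
  refine ⟨C, hC, r, hr, fun y hy => ?_⟩
  have := h (y := y) (by simpa using hy)
  simpa [FormalMultilinearSeries.partialSum, Finset.sum_range_succ, expSeries_apply_eq,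
    sub_sub] using this

theorem exp_skew_mem {z : A} (hz : star z = -z) : exp z ∈ unitary A := by
  have h1 : star (exp z) = exp (-z) := by rw [star_exp, hz]
  constructor
  · rw [h1, ← exp_add_of_commute (Commute.refl z).neg_left, neg_add_cancel, exp_zero]
  · rw [h1, ← exp_add_of_commute (Commute.refl z).neg_right, add_neg_cancel, exp_zero]

theorem norm_pow_sub_pow_le {u v : A} (hu : u ∈ unitary A) (hv : v ∈ unitary A) (n : ℕ) :
    ‖u ^ n - v ^ n‖ ≤ n * ‖u - v‖ := by
  induction n with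
  | zero => simp
  | succ n ih =>
    have : u ^ (n + 1) - v ^ (n + 1) = (u ^ n - v ^ n) * u + v ^ n * (u - v) := by
      rw [pow_succ, pow_succ]; noncomm_ring
    rw [this]
    refine (norm_add_le _ _).trans ?_
    rw [norm_mul_unit hu, norm_unit_mul (pow_mem hv n)]
    push_cast
    linarith

theorem tendsto_exp_slope (z : A) :
    Tendsto (fun c : ℝ => c⁻¹ • (exp (c • z) - 1)) (𝓝[>] 0) (𝓝 z) := by
  have h := hasDerivAt_exp_smul_const (𝕂 := ℝ) z 0
  have h2 := h.tendsto_slope_zero_right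
  simpa using h2

theorem skew_of_limit {ι : Type} {l : Filter ι} [l.NeBot] {g : ι → A} {c : ι → ℝ} {z : A}
    (hg : ∀ i, g i ∈ unitary A) (hc : Tendsto c l (𝓝[>] 0))
    (hz : Tendsto (fun i => (c i)⁻¹ • (g i - 1)) l (𝓝 z)) : star z = -z := by
  have hc0 : Tendsto c l (𝓝 0) := hc.mono_right nhdsWithin_le_nhds
  have hp : ∀ᶠ i in l, 0 < c i := hc.eventually self_mem_nhdsWithin
  have h1 := (hz.star.add hz).add (hc0.smul (hz.star.mul hz))
  have h2 : ∀ᶠ i in l, star ((c i)⁻¹ • (g i - 1)) + (c i)⁻¹ • (g i - 1) +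
      c i • (star ((c i)⁻¹ • (g i - 1)) * ((c i)⁻¹ • (g i - 1))) = 0 := by
    filter_upwards [hp] with i hi
    have hu := (hg i).1
    rw [star_smul, star_trivial, star_sub, star_one, smul_mul_smul_comm, smul_smul,
      ← mul_assoc, mul_inv_cancel₀ hi.ne', one_mul, ← smul_add, ← smul_add]
    have : star (g i) - 1 + (g i - 1) + (star (g i) - 1) * (g i - 1) = 0 := by
      rw [sub_mul, mul_sub, hu]; noncomm_ring
    rw [this, smul_zero]
  have h3 := tendsto_nhds_unique h1 (tendsto_const_nhds.congr' (h2.mono fun i hi => hi.symm))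
  rw [zero_smul, add_zero] at h3
  exact eq_neg_of_add_eq_zero_left h3

section

variable {G : Type} [Group G] [TopologicalSpace G] [CompactSpace G]

theorem isCompact_image (ρ : G →* unitary A) (hρ : Continuous ρ) :
    IsCompact (Set.range fun g => (ρ g : A)) :=
  isCompact_range (continuous_subtype_val.comp hρ)

theorem limit_lemma (ρ : G →* unitary A) (hρ : Continuous ρ) {ι : Type} {l : Filter ι} [l.NeBot]
    {g : ι → G} {c : ι → ℝ} {z : A} (hc : Tendsto c l (𝓝[>] 0))
    (hz : Tendsto (fun i => (c i)⁻¹ • ((ρ (g i) : A) - 1)) l (𝓝 z)) (t : ℝ) :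
    ∃ h, (ρ h : A) = exp (t • z) := by
  have hs : star z = -z := skew_of_limit (fun i => (ρ (g i)).2) hc hz
  have hc0 : Tendsto c l (𝓝 0) := hc.mono_right nhdsWithin_le_nhds
  have hp : ∀ᶠ i in l, 0 < c i := hc.eventually self_mem_nhdsWithin
  have key : ∀ t : ℝ, 0 ≤ t → ∃ h, (ρ h : A) = exp (t • z) := by
    intro t ht
    have hn : Tendsto (fun i => (⌊t / c i⌋₊ : ℝ) * c i) l (𝓝 t) := by
      have h1 : Tendsto (fun i => t - c i) l (𝓝 t) := by simpa using tendsto_const_nhds.sub hc0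
      refine tendsto_of_tendsto_of_tendsto_of_le_of_le' h1 tendsto_const_nhds ?_ ?_
      · filter_upwards [hp] with i hi
        have := Nat.lt_floor_add_one (t / c i)
        rw [div_lt_iff₀ hi] at this
        linarith
      · filter_upwards [hp] with i hi
        have := Nat.floor_le (div_nonneg ht hi.le)
        rwa [le_div_iff₀ hi] at this
    have h1 : Tendsto (fun i => exp (((⌊t / c i⌋₊ : ℝ) * c i) • z)) l (𝓝 (exp (t • z))) :=
      (exp_continuous.tendsto _).comp (hn.smul_const z)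
    have h2 : Tendsto (fun i => (c i)⁻¹ • ((ρ (g i) : A) - exp (c i • z))) l (𝓝 0) := by
      have := hz.sub ((tendsto_exp_slope z).comp hc)
      rw [sub_self] at this
      refine this.congr fun i => ?_
      simp only [Function.comp, ← smul_sub]
      congr 1
      abel
    have h3 : Tendsto (fun i => (ρ (g i ^ ⌊t / c i⌋₊) : A) -
        exp (((⌊t / c i⌋₊ : ℝ) * c i) • z)) l (𝓝 0) := by
      rw [tendsto_zero_iff_norm_tendsto_zero]
      have h4 := hn.mul h2.norm
      rw [norm_zero, mul_zero] at h4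
      refine squeeze_zero' (Eventually.of_forall fun _ => norm_nonneg _) ?_ h4
      filter_upwards [hp] with i hi
      have hsk : star (c i • z) = -(c i • z) := by rw [star_smul, star_trivial, hs, smul_neg]
      have := norm_pow_sub_pow_le (ρ (g i)).2 (exp_skew_mem hsk) ⌊t / c i⌋₊
      rw [← exp_nsmul, ← Nat.cast_smul_eq_nsmul ℝ, smul_smul] at this
      rw [map_pow, SubmonoidClass.coe_pow, norm_smul, norm_inv, Real.norm_of_nonneg hi.le,
        mul_assoc, ← mul_assoc (c i), mul_inv_cancel₀ hi.ne', one_mul]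
      exact this
    have h5 := h3.add h1
    rw [zero_add] at h5
    simp only [sub_add_cancel] at h5
    exact (isCompact_image ρ hρ).isClosed.mem_of_tendsto h5 (Eventually.of_forall fun i => ⟨_, rfl⟩)
  rcases le_total 0 t with ht | ht
  · exact key t ht
  · obtain ⟨h, hh⟩ := key (-t) (by linarith)
    refine ⟨h⁻¹, ?_⟩
    rw [map_inv, ← Unitary.star_eq_inv, Unitary.coe_star, hh, star_exp, star_smul, star_trivial,
      hs, neg_smul_neg]

theorem lieAlg_exp (ρ : G →* unitary A) (hρ : Continuous ρ) {v : A} (hv : v ∈ lieAlg ρ) (t : ℝ) :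
    ∃ g, (ρ g : A) = NormedSpace.exp (t • v) := by
  induction hv using Submodule.span_induction generalizing t with
  | mem x hx => exact hx t
  | zero => exact ⟨1, by simp⟩
  | add x y _ _ hx hy =>
    choose a ha using hx
    choose b hb using hy
    refine limit_lemma ρ hρ (l := 𝓝[>] (0 : ℝ)) (g := fun c => a c * b c) (c := id) tendsto_id ?_ t
    have h := (hasDerivAt_exp_smul_const (𝕂 := ℝ) x 0).mul (hasDerivAt_exp_smul_const (𝕂 := ℝ) y 0)
    have h2 := h.tendsto_slope_zero_right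
    simpa [ha, hb] using h2
  | smul r x _ hx =>
    rw [smul_smul]
    exact hx _

theorem lieAlg_skew (ρ : G →* unitary A) (hρ : Continuous ρ) {v : A} (hv : v ∈ lieAlg ρ) :
    star v = -v := by
  choose a ha using lieAlg_exp ρ hρ hv
  refine skew_of_limit (l := 𝓝[>] (0 : ℝ)) (g := fun c => (ρ (a c) : A)) (c := id)
    (fun c => (ρ (a c)).2) tendsto_id ?_
  simpa [ha] using tendsto_exp_slope v

theorem lie_half (ρ : G →* unitary A) (hρ : Continuous ρ) : ∃ r : ℝ, 0 < r ∧ ∀ g,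
    ‖(ρ g : A) - 1‖ < r →
    ‖((ρ g : A) - 1) - (lieAlg ρ).starProjection ((ρ g : A) - 1)‖ ≤ 1 / 2 * ‖(ρ g : A) - 1‖ := by
  by_contra hcon
  push Not at hcon
  choose g hg1 hg2 using fun n : ℕ => hcon (1 / ((n : ℝ) + 1)) Nat.one_div_pos_of_nat
  have hpos : ∀ n, 0 < ‖(ρ (g n) : A) - 1‖ := by
    intro n
    rcases (norm_nonneg ((ρ (g n) : A) - 1)).lt_or_eq with h | h
    · exact h
    · have := hg2 n
      rw [norm_eq_zero.1 h.symm] at this
      simp at this
  obtain ⟨z, _, φ, hφ, hz⟩ := (isCompact_sphere (0 : A) 1).tendsto_subseq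
    (x := fun n => ‖(ρ (g n) : A) - 1‖⁻¹ • ((ρ (g n) : A) - 1)) (fun n => by
      rw [mem_sphere_zero_iff_norm, norm_smul, norm_inv, norm_norm, inv_mul_cancel₀ (hpos n).ne'])
  have hc : Tendsto (fun n => ‖(ρ (g (φ n)) : A) - 1‖) atTop (𝓝[>] 0) := by
    refine tendsto_nhdsWithin_iff.2 ⟨?_, Eventually.of_forall fun n => hpos _⟩
    refine Tendsto.comp (g := fun n => ‖(ρ (g n) : A) - 1‖) ?_ hφ.tendsto_atTop
    exact squeeze_zero (fun _ => norm_nonneg _) (fun n => (hg1 n).le)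
      tendsto_one_div_add_atTop_nhds_zero_nat
  have hmem : z ∈ lieAlg ρ :=
    Submodule.subset_span fun t => limit_lemma ρ hρ (g := fun n => g (φ n)) hc hz t
  have h1 := (hz.sub (((lieAlg ρ).starProjection.continuous.tendsto z).comp hz)).norm
  rw [Submodule.starProjection_eq_self_iff.2 hmem, sub_self, norm_zero] at h1
  have h2 : (1 : ℝ) / 2 ≤ 0 := ge_of_tendsto' h1 fun n => by
    simp only [Function.comp, map_smul, ← smul_sub, norm_smul, norm_inv, norm_norm]
    rw [← div_eq_inv_mul, le_div_iff₀ (hpos _)]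
    exact (hg2 _).le
  linarith

theorem lie_tangent (ρ : G →* unitary A) (hρ : Continuous ρ) : ∃ C : ℝ, 0 ≤ C ∧ ∀ g,
    ‖((ρ g : A) - 1) - (lieAlg ρ).starProjection ((ρ g : A) - 1)‖ ≤ C * ‖(ρ g : A) - 1‖ ^ 2 := by
  obtain ⟨r, hr, h1⟩ := lie_half ρ hρ
  obtain ⟨C, hC, s, hs, h2⟩ := exp_quad (A := A)
  set P := (lieAlg ρ).starProjection with hP
  have hPle : ∀ x, ‖P x‖ ≤ ‖x‖ := fun x => Submodule.norm_starProjection_apply_le _ x
  have hQle : ∀ x, ‖x - P x‖ ≤ ‖x‖ := fun x => by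
    rw [hP, ← Submodule.starProjection_orthogonal_val]
    exact Submodule.norm_starProjection_apply_le _ x
  set r0 := min (min s 1) (r / (2 + C)) with hr0
  have hr0p : 0 < r0 := by positivity
  refine ⟨max (3 * (1 + C)) r0⁻¹, by positivity, fun g => ?_⟩
  set X := (ρ g : A) - 1 with hX
  have hXn := norm_nonneg X
  rcases lt_or_ge ‖X‖ r0 with hlt | hge
  · have hXs : ‖X‖ < s := hlt.trans_le ((min_le_left _ _).trans (min_le_left _ _))
    have hX1 : ‖X‖ < 1 := hlt.trans_le ((min_le_left _ _).trans (min_le_right _ _))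
    have hXr : ‖X‖ * (2 + C) < r := by
      rw [← lt_div_iff₀ (by positivity)]
      exact hlt.trans_le (min_le_right _ _)
    obtain ⟨a, ha⟩ := lieAlg_exp ρ hρ (Submodule.starProjection_apply_mem (lieAlg ρ) X) (-1)
    rw [neg_one_smul, ← hP] at ha
    have hy : ‖-P X‖ ≤ ‖X‖ := by rw [norm_neg]; exact hPle X
    set E := -P X * X + (exp (-P X) - 1 - -P X) * (ρ g : A) with hE
    have hEn : ‖E‖ ≤ (1 + C) * ‖X‖ ^ 2 := by
      refine (norm_add_le _ _).trans ?_
      rw [norm_mul_unit (ρ g).2]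
      have e1 := norm_mul_le (-P X) X
      have e2 := h2 (-P X) (hy.trans_lt hXs)
      have e3 : ‖-P X‖ ^ 2 ≤ ‖X‖ ^ 2 := by gcongr
      nlinarith [mul_le_mul_of_nonneg_right hy hXn, mul_le_mul_of_nonneg_left e3 hC]
    have hX' : (ρ (a * g) : A) - 1 = (X - P X) + E := by
      rw [map_mul, Submonoid.coe_mul, ha, hE, hX]
      noncomm_ring
    have hn' : ‖(X - P X) + E‖ ≤ ‖X - P X‖ + ‖E‖ := norm_add_le _ _
    have h3 := h1 (a * g) (by
      rw [hX']
      have := hQle X
      nlinarith [mul_le_mul_of_nonneg_left hX1.le hXn])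
    rw [hX'] at h3
    have hPP : P (X - P X) = 0 := by
      rw [map_sub, Submodule.starProjection_eq_self_iff.2
        (Submodule.starProjection_apply_mem (lieAlg ρ) X), sub_self]
    have h4 : X - P X = ((X - P X) + E - P ((X - P X) + E)) - (E - P E) := by
      rw [map_add, hPP]; abel
    have h5 : ‖X - P X‖ ≤ ‖(X - P X) + E - P ((X - P X) + E)‖ + ‖E - P E‖ := by
      conv_lhs => rw [h4]
      exact norm_sub_le _ _
    have h6 := hQle E
    calc ‖X - P X‖ ≤ 3 * (1 + C) * ‖X‖ ^ 2 := by linarith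
      _ ≤ _ := by gcongr; exact le_max_left _ _
  · calc ‖X - P X‖ ≤ ‖X‖ := hQle X
      _ ≤ r0⁻¹ * ‖X‖ ^ 2 := by
        rw [← div_eq_inv_mul, le_div_iff₀ hr0p]
        nlinarith
      _ ≤ _ := by gcongr; exact le_max_right _ _

theorem lieAlg_ne_bot (ρ : G →* unitary A) (hρ : Continuous ρ) (hinf : (Set.range ρ).Infinite) :
    lieAlg ρ ≠ ⊥ := by
  intro hbot
  obtain ⟨r, hr, h1⟩ := lie_half ρ hρ
  have h2 : ∀ g h : G, ‖(ρ h : A) - ρ g‖ < r → (ρ h : A) = ρ g := by
    intro g h hgh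
    have e : (ρ h : A) - ρ g = ρ g * ((ρ (g⁻¹ * h) : A) - 1) := by
      rw [mul_sub, mul_one, ← Submonoid.coe_mul, ← map_mul, mul_inv_cancel_left]
    rw [e, norm_unit_mul (ρ g).2] at hgh
    have h3 := h1 _ hgh
    have h4 : (lieAlg ρ).starProjection ((ρ (g⁻¹ * h) : A) - 1) = 0 := by
      have := Submodule.starProjection_apply_mem (lieAlg ρ) ((ρ (g⁻¹ * h) : A) - 1)
      exact (Submodule.eq_bot_iff _).1 hbot _ this
    rw [h4, sub_zero] at h3
    have h5 : ‖(ρ (g⁻¹ * h) : A) - 1‖ = 0 := by linarith [norm_nonneg ((ρ (g⁻¹ * h) : A) - 1)]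
    rw [← sub_eq_zero, e, norm_eq_zero.1 h5, mul_zero]
  obtain ⟨t, ht1, ht2⟩ := (isCompact_image ρ hρ).elim_nhds_subcover (fun x => Metric.ball x r)
    (fun x _ => Metric.ball_mem_nhds x hr)
  refine hinf (Set.Finite.of_finite_image (f := Subtype.val) (t.finite_toSet.subset ?_)
    Subtype.val_injective.injOn)
  rintro _ ⟨_, ⟨h, rfl⟩, rfl⟩
  have := ht2 ⟨h, rfl⟩
  simp only [Set.mem_iUnion, Metric.mem_ball, dist_eq_norm] at this
  obtain ⟨x, hx, hd⟩ := this
  obtain ⟨g, rfl⟩ := ht1 x hx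
  rw [h2 g h hd]
  exact hx

end

end Pool.Agent.Lib.MP_7f377f_mp.Weak
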