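import Pool.Agent.Lib.MP_7f377f_mp.WeakSD
import Pool.Agent.Lib.MP_7f377f_mp.WeakLie

/-! Schwinger-Dyson identities along vector fields whose component at a link does not depend on
that link. -/

namespace Pool.Agent.Lib.MP_7f377f_mp.Weak

open MeasureTheory Measure NormedSpace HS
open scoped InnerProductSpace

set_option linter.unusedSectionVars false

variable {d L : ℕ} [NeZero L] [NeZero d]
variable {A : Type} [NormedRing A] [StarRing A] [NormedAlgebra ℝ A] [HS A]
variable {G : Type} [Group G] (ρ : G →* unitary A)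

/-- derivative of `f` along the vector field `v` -/
noncomputable def YD {F : Type} [NormedAddCommGroup F] [NormedSpace ℝ F]
    (v : (Link d L → G) → Link d L → A) (f : (Link d L → A) → F) (U : Link d L → G) : F :=
  fderiv ℝ f (rU ρ U) fun e => v U e * rU ρ U e

theorem YD_eq {F : Type} [NormedAddCommGroup F] [NormedSpace ℝ F]
    (v : (Link d L → G) → Link d L → A) {f : (Link d L → A) → F} (hf : ContDiff ℝ 1 f)
    (U : Link d L → G) :
    HasDerivAt (fun t : ℝ => f (rU ρ U + t • fun e => v U e * rU ρ U e)) (YD ρ v f U) 0 := by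
  have h1 : HasDerivAt (fun t : ℝ => rU ρ U + t • fun e => v U e * rU ρ U e)
      (fun e => v U e * rU ρ U e) 0 := by
    simpa using ((hasDerivAt_id (0 : ℝ)).smul_const fun e => v U e * rU ρ U e).const_add (rU ρ U)
  have := (hf.differentiable one_ne_zero _).hasFDerivAt.comp_hasDerivAt 0 h1
  simpa only [zero_smul, add_zero, YD, Function.comp_def] using this

variable [TopologicalSpace G] [IsTopologicalGroup G] [CompactSpace G]
  [SecondCountableTopology G] [MeasurableSpace G] [BorelSpace G] (μ : Measure G)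
  [μ.IsHaarMeasure] [IsProbabilityMeasure μ]

/-- admissible vector fields -/
structure VF (v : (Link d L → G) → Link d L → A) : Prop where
  cont : Continuous v
  mem : ∀ U e, v U e ∈ lieAlg ρ
  ind : ∀ U e g, v (Function.update U e g) e = v U e

theorem continuous_YD (hρ : Continuous ρ) {F : Type} [NormedAddCommGroup F] [NormedSpace ℝ F]
    {v : (Link d L → G) → Link d L → A} (hv : Continuous v) {f : (Link d L → A) → F}
    (hf : ContDiff ℝ 1 f) : Continuous (YD ρ v f) := by
  have h1 := continuous_rU (d := d) (L := L) ρ hρ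
  exact ((hf.continuous_fderiv one_ne_zero).comp h1).clm_apply (by fun_prop)

theorem sd_link (hρ : Continuous ρ) (e : Link d L) {v : A} (hv : v ∈ lieAlg ρ)
    {g : (Link d L → G) → ℝ} (hg : Continuous g) (he : ∀ U c, g (Function.update U e c) = g U)
    {f : (Link d L → A) → ℝ} (hf : ContDiff ℝ 1 f) :
    ∫ U, g U * fderiv ℝ f (rU ρ U) (Pi.single e (v * rU ρ U e)) ∂(Measure.pi fun _ => μ) = 0 := by
  choose γ hγ using lieAlg_exp ρ hρ hv
  set ψ : Link d L → ℝ := Pi.single e 1 with hψ
  have inv : ∀ t, ∫ U, g U * f (flow ψ v (rU ρ U) t) ∂(Measure.pi fun _ => μ) =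
      ∫ U, g U * f (rU ρ U) ∂(Measure.pi fun _ => μ) := fun t => by
    have hm := mp_tri μ (fun _ : Link d L => 0) (fun _ e' => if e' = e then γ t else 1)
      (fun _ _ => 1) continuous_const continuous_const fun _ _ _ _ => ⟨rfl, rfl⟩
    rw [← int_mp hm (F := fun U => g U * f (rU ρ U))
      (hg.mul (hf.continuous.comp (continuous_rU ρ hρ)))]
    congr 1
    funext U
    have e1 : (fun e' => (if e' = e then γ t else 1) * U e' * 1) =
        Function.update U e (γ t * U e) := by
      funext e'
      by_cases h : e' = e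
      · subst h; simp
      · simp [h]
    rw [e1, he]
    congr 2
    funext e'
    by_cases h : e' = e
    · subst h; simp [flow, rU, hψ, hγ]
    · simp [flow, rU, hψ, h]
  have h1 := continuous_rU (d := d) (L := L) ρ hρ
  have h2 := hf.continuous_fderiv one_ne_zero
  have h3 : Continuous fun z : ℝ × (Link d L → G) => flow ψ v (rU ρ z.2) z.1 := by
    refine continuous_pi fun e => ?_
    exact ((exp_continuous (𝔸 := A)).comp (continuous_fst.smul continuous_const)).mul
      ((continuous_apply e).comp (h1.comp continuous_snd))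
  set F' : ℝ → (Link d L → G) → ℝ := fun t U => g U * fderiv ℝ f (flow ψ v (rU ρ U) t)
    fun e => ψ e • v * flow ψ v (rU ρ U) t e with hF'
  have h4 : Continuous fun z : ℝ × (Link d L → G) => F' z.1 z.2 :=
    (hg.comp continuous_snd).mul ((h2.comp h3).clm_apply (by fun_prop))
  obtain ⟨C, hC⟩ := ((isCompact_Icc (a := (-1 : ℝ)) (b := 1)).prod
    (isCompact_univ (X := Link d L → G))).exists_bound_of_continuousOn h4.continuousOn
  have hcf : ∀ t, Continuous fun U : Link d L → G => g U * f (flow ψ v (rU ρ U) t) := fun t =>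
    hg.mul (hf.continuous.comp (h3.comp (Continuous.prodMk_right t)))
  have key := (hasDerivAt_integral_of_dominated_loc_of_deriv_le (μ := Measure.pi fun _ => μ)
    (F := fun t U => g U * f (flow ψ v (rU ρ U) t)) (F' := F') (x₀ := 0) (s := Set.Icc (-1) 1)
    (bound := fun _ => C) (Icc_mem_nhds (by norm_num) (by norm_num))
    (Filter.Eventually.of_forall fun t => (hcf t).aestronglyMeasurable) (cint _ (hcf 0))
    (h4.comp (Continuous.prodMk_right 0)).aestronglyMeasurable
    (Filter.Eventually.of_forall fun U t ht => hC (t, U) ⟨ht, Set.mem_univ _⟩)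
    (integrable_const _) (Filter.Eventually.of_forall fun U t _ =>
      ((hf.differentiable one_ne_zero _).hasFDerivAt.comp_hasDerivAt t
        (flow_deriv ψ v (rU ρ U) t)).const_mul _)).2
  simp only [inv] at key
  refine Eq.trans ?_ (key.unique (hasDerivAt_const _ _))
  congr 1
  funext U
  simp only [hF', flow_zero]
  congr 2
  funext e'
  by_cases h : e' = e
  · subst h; simp [hψ]
  · simp [hψ, h]

theorem sd_vec (hρ : Continuous ρ) {v : (Link d L → G) → Link d L → A} (hv : VF ρ v)
    {f : (Link d L → A) → ℝ} (hf : ContDiff ℝ 1 f) :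
    ∫ U, YD ρ v f U ∂(Measure.pi fun _ => μ) = 0 := by
  set b := stdOrthonormalBasis ℝ (lieAlg ρ) with hb
  have e1 : ∀ U, YD ρ v f U = ∑ e, ∑ c, ⟪(b c : A), v U e⟫_ℝ *
      fderiv ℝ f (rU ρ U) (Pi.single e (b c * rU ρ U e)) := fun U => by
    simp only [← smul_eq_mul (α := ℝ), ← map_smul, ← _root_.map_sum, YD]
    congr 1
    funext e'
    have := congrArg Subtype.val (b.sum_repr' ⟨v U e', hv.mem U e'⟩)
    simp only [Submodule.coe_sum, Submodule.coe_smul, Submodule.coe_inner] at this
    simp only [Finset.sum_apply, Pi.smul_apply, Pi.single_apply, smul_ite, smul_zero]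
    rw [Finset.sum_comm]
    simp only [Finset.sum_ite_eq, Finset.mem_univ, if_true, ← smul_mul_assoc,
      ← Finset.sum_mul, this]
  have h1 := continuous_rU (d := d) (L := L) ρ hρ
  have h2 := hf.continuous_fderiv one_ne_zero
  have h3 := hv.cont
  have h4 : ∀ e c, Continuous fun U : Link d L → G => ⟪(b c : A), v U e⟫_ℝ *
      fderiv ℝ f (rU ρ U) (Pi.single e (b c * rU ρ U e)) := fun e c =>
    (continuous_const.inner (by fun_prop)).mul ((h2.comp h1).clm_apply
      ((continuous_single e).comp (by fun_prop)))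
  simp only [e1]
  rw [integral_finsetSum _ fun e _ => cint _ (continuous_finsetSum _ fun c _ => h4 e c)]
  refine Finset.sum_eq_zero fun e _ => ?_
  rw [integral_finsetSum _ fun c _ => cint _ (h4 e c)]
  exact Finset.sum_eq_zero fun c _ => sd_link ρ μ hρ e (b c).2
    (continuous_const.inner (by fun_prop)) (fun U g => by rw [hv.ind]) hf

theorem sd_vec_nu (hρ : Continuous ρ) (b : ℝ) {v : (Link d L → G) → Link d L → A} (hv : VF ρ v)
    {f : (Link d L → A) → ℝ} (hf : ContDiff ℝ 1 f) :
    ∫ U, YD ρ v f U ∂(nu μ ρ d L b) =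
      b * ∫ U, YD ρ v actA U * f (rU ρ U) ∂(nu μ ρ d L b) := by
  have hA := contDiff_actA (A := A) (d := d) (L := L)
  have hg : ContDiff ℝ 1 fun B : Link d L → A => f B * Real.exp (-(b * actA B)) :=
    hf.mul (contDiff_const.mul hA).neg.exp
  have h0 := sd_vec ρ μ hρ hv hg
  have e : ∀ U, YD ρ v (fun B : Link d L → A => f B * Real.exp (-(b * actA B))) U =
      YD ρ v f U * Real.exp (-(b * act ρ U)) -
        b * (YD ρ v actA U * f (rU ρ U) * Real.exp (-(b * act ρ U))) := by
    intro U
    have h1 := (YD_eq ρ v hf U).mul ((YD_eq ρ v hA U).const_mul b).neg.exp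
    rw [(YD_eq ρ v hg U).unique h1]
    simp only [Pi.neg_apply, zero_smul, add_zero, actA_rU]
    ring
  have c1 := continuous_YD ρ hρ hv.cont hf
  have c2 := continuous_YD ρ hρ hv.cont hA
  have c3 := hf.continuous
  have c5 := continuous_rU (d := d) (L := L) ρ hρ
  have c4 := continuous_wt (d := d) (L := L) ρ hρ b
  simp only [e] at h0
  rw [integral_sub (cint _ (by fun_prop)) (cint _ (by fun_prop)), sub_eq_zero,
    integral_const_mul] at h0
  rw [nu_int, nu_int, h0, mul_div_assoc]

/-- the Schwinger-Dyson identity for a product -/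
theorem sd_prod (hρ : Continuous ρ) (b : ℝ) {v : (Link d L → G) → Link d L → A} (hv : VF ρ v)
    {ι : Type} [DecidableEq ι] (S : Finset ι) {f : ι → (Link d L → A) → ℝ}
    (hf : ∀ i, ContDiff ℝ 1 (f i)) (c : ι → ℝ) :
    b * ∫ U, YD ρ v actA U * ∏ i ∈ S, (f i (rU ρ U) - c i) ∂(nu μ ρ d L b) =
      ∑ i ∈ S, ∫ U, YD ρ v (f i) U * ∏ j ∈ S.erase i, (f j (rU ρ U) - c j) ∂(nu μ ρ d L b) := by
  have hg : ContDiff ℝ 1 fun B : Link d L → A => ∏ i ∈ S, (f i B - c i) :=
    contDiff_prod fun i _ => (hf i).sub contDiff_const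
  have c1 := fun i => continuous_YD ρ hρ hv.cont (hf i)
  have c3 := fun i => (hf i).continuous
  have c5 := continuous_rU (d := d) (L := L) ρ hρ
  rw [← sd_vec_nu ρ μ hρ b hv hg, ← integral_finsetSum _ fun i _ => cint _ (by fun_prop)]
  congr 1
  funext U
  have h1 := HasDerivAt.fun_finsetProd (u := S) fun i _ => (YD_eq ρ v (hf i) U).sub_const (c i)
  rw [(YD_eq ρ v hg U).unique h1]
  simp only [zero_smul, add_zero, smul_eq_mul, mul_comm]

end Pool.Agent.Lib.MP_7f377f_mp.Weak
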