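import Mathlib

/-! Quantum Yang-Mills theory on four dimensional space: the lattice approximation, the gauge
invariant local polynomials as Wightman fields, asymptotic freedom, the operator product expansion
and the stress tensor. -/

noncomputable section

namespace Pool.Agent.Lib.MP_7f377f_mp.YZ

open MeasureTheory MvPolynomial Filter Topology Complex Matrix Asymptotics
open scoped ContDiff

/-- space-time -/
abbrev R4 : Type := EuclideanSpace ℝ (Fin 4)

/-- `(⟨n, I⟩, a)` is the component `a` of `D (I 2) .. D (I (n + 1)) F (I 0) (I 1)` -/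
abbrev Var (d : ℕ) : Type := (Σ n : ℕ, Fin (n + 2) → Fin 4) × Fin d

/-- labels: polynomials in the curvature and its covariant derivatives -/
abbrev Lab (d : ℕ) : Type := MvPolynomial (Var d) ℂ

/-- formal polynomials; `X (c, f)` is the field with the label `c` smeared with `f` -/
abbrev Fp (d : ℕ) : Type := MvPolynomial (Lab d × (R4 → ℝ)) ℂ

/-- lattice gauge fields -/
abbrev Cfg (G R : Type) : Type := (Fin 4 → R) × Fin 4 → G

variable {G : Type} [Group G] {N n k d : ℕ} (ρ : G →* unitaryGroup (Fin N) ℂ)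

/-- matrices act on all space-time indices -/
def rho (g : Matrix (Fin 4) (Fin 4) ℂ) : Lab d →ₐ[ℂ] Lab d :=
  aeval fun p => ∑ J, (∏ r, g (J r) (p.1.2 r)) • X (⟨p.1.1, J⟩, p.2)

/-- the gauge invariant polynomials; `e` is an orthonormal basis of the Lie algebra -/
def Inv (e : Fin d → Matrix (Fin N) (Fin N) ℂ) : Subalgebra ℂ (Lab d) :=
  ⨅ g, AlgHom.equalizer (AlgHom.id ℂ _) (aeval fun p : Var d =>
    ∑ b, (-(e p.2 * (ρ g).1 * e b * (ρ g).1ᴴ).trace.re : ℂ) • X (p.1, b))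

/-- the tensor `F μ l F ν l` -/
def FF (μ ν : Fin 4) : Lab d := ∑ l, ∑ a, X (⟨0, ![μ, l]⟩, a) * X (⟨0, ![ν, l]⟩, a)

/-- the Lagrangian -/
def lag : Lab d := (4⁻¹ : ℂ) • ∑ μ, FF μ μ

/-- the field seen from the site `x` of the torus -/
def sh (U : Cfg G (ZMod n)) (x : Fin 4 → ZMod n) : Cfg G ℤ := fun l => U (fun i => x i + l.1 i, l.2)

/-- the action density: the sum of `N - Re tr ρ(U_p)` over the six plaquettes `p` with corner `0` -/
def dens (U : Cfg G ℤ) : ℝ := ∑ i, ∑ j, if i < j then N - (ρ (U (0, i) * U (Pi.single i 1, j) *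
  (U (Pi.single j 1, i))⁻¹ * (U (0, j))⁻¹)).1.trace.re else 0

/-- continuous, gauge invariant and local lattice observables -/
def Obs [TopologicalSpace G] (R : ℕ) (O : Cfg G ℤ → ℂ) : Prop :=
  Continuous O ∧ DependsOn O {l | ∀ i, |l.1 i| ≤ R} ∧ ∀ U (g : (Fin 4 → ℤ) → G),
    O (fun l => g l.1 * U l * (g (l.1 + Pi.single l.2 1))⁻¹) = O U

/-- the Wilson expectation on the torus with `n` sites per side and the lattice spacing `a`; the
variable `X (c, f)` is replaced by the observable `O c` smeared with `f` -/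
def vev [MeasurableSpace G] (h : Measure G) (b : ℝ) (n : ℕ) [NeZero n] (a : ℝ)
    (O : Lab d → Cfg G ℤ → ℂ) (Z : Fp d) : ℂ :=
  ∫ U, eval (fun p : Lab d × (R4 → ℝ) => ∑ x : Fin 4 → ZMod n,
    (a ^ 4 * p.2 (WithLp.toLp 2 fun i => a * (x i).valMinAbs) : ℝ) * O p.1 (sh U x)) Z
    ∂(Measure.pi fun _ => h).tilted fun U => -b * ∑ x, dens ρ (sh U x)

/-- continuously differentiable functions with pairwise disjoint compact supports -/
def Adm (f : Fin k → R4 → ℝ) : Prop :=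
  (∀ i, HasCompactSupport (f i) ∧ ContDiff ℝ 1 (f i)) ∧
    Pairwise fun i j => Disjoint (tsupport (f i)) (tsupport (f j))

variable (V : Subalgebra ℂ (Lab d))

/-- linear combinations of admissible products of fields with supports in `A` -/
def Loc (A : Set R4) : Submodule ℂ (Fp d) := Submodule.span ℂ {Z | ∃ (k : ℕ) (c : Fin k → V)
  (f : Fin k → R4 → ℝ), Adm f ∧ (∀ i, tsupport (f i) ⊆ A) ∧ ∏ i, X ((c i).1, f i) = Z}

/-- insertion of `B i` and its time reflection -/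
def ins {r : ℕ} (B : Fin r → Fp d) (Z : Fp d) : Fp d :=
  ∑ i, rename (fun p => (rho (diagonal ![-1, 1, 1, 1]) (map (starRingEnd ℂ) p.1),
    fun y : R4 => p.2 (WithLp.toLp 2 (Function.update y 0 (-y 0)))))
    (map (starRingEnd ℂ) (B i)) * (Z * B i)

/-- antisymmetrisation in the first two indices -/
def alt (g : (Fin (n + 2) → Fin 4) → ℝ) (I : Fin (n + 2) → Fin 4) : ℝ :=
  g I - g (I ∘ Equiv.swap 0 1)

/-- the propagator of the derivatives of `F = d A` for `d` free Maxwell fields -/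
def pr (p q : Var d) (v : R4) : ℝ := alt (fun I => alt (fun J =>
  if p.2 = q.2 ∧ I 0 = J 0 then (-1) ^ (q.1.1 + 1) * iteratedFDeriv ℝ _
    (fun v : R4 => (4 * Real.pi ^ 2 * ‖v‖ ^ 2)⁻¹) v
      fun r => EuclideanSpace.single (Fin.append (Fin.tail I) (Fin.tail J) r) 1 else 0) q.1.2) p.1.2

/-- the free correlation function of the Wick polynomials `c i` at the points `y i`, smeared -/
def free (k : ℕ) (c : Fin k → Lab d) (f : Fin k → R4 → ℝ) : ℂ :=
  ∫ y : Fin k → R4, (∏ i, (f i (y i) : ℂ)) * ∑ᶠ m : ℕ, constantCoeff ((fun P =>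
    ∑ᶠ (p : Fin k × Var d) (q : Fin k × Var d) (_ : p.1 < q.1),
      (pr p.2 q.2 (y p.1 - y q.1) : ℂ) • pderiv p (pderiv q P))^[m]
        (∏ i, rename (Prod.mk i) (c i))) / m.factorial

/-- Schwartz test functions -/
abbrev Tf : Type := SchwartzMap R4 ℂ

/-- the Minkowski product -/
def mink (x y : R4) : ℝ := x 0 * y 0 - x 1 * y 1 - x 2 * y 2 - x 3 * y 3

/-- proper orthochronous Lorentz matrices -/
def Lor (L : Matrix (Fin 4) (Fin 4) ℝ) : Prop :=
  (∀ x y : R4, mink (WithLp.toLp 2 (L *ᵥ x)) (WithLp.toLp 2 (L *ᵥ y)) = mink x y) ∧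
    L.det = 1 ∧ 0 < L 0 0

variable {H : Type} [NormedAddCommGroup H] [InnerProductSpace ℂ H]

/-- a strongly continuous unitary representation of the Poincare group with spectrum in the closed
forward cone, a unique invariant vector and a non zero Hamiltonian -/
def Poin (U : R4 → Matrix (Fin 4) (Fin 4) ℝ → H →L[ℂ] H) (Ω : H) : Prop :=
  (∀ a L, Lor L → Function.Surjective (U a L) ∧ (∀ x, ‖U a L x‖ = ‖x‖) ∧ U a L Ω = Ω ∧
    ∀ (b : R4) M x, Lor M → U a L (U b M x) = U (a + WithLp.toLp 2 (L *ᵥ b)) (L * M) x) ∧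
  (∀ x, ContinuousOn (fun p : R4 × Matrix _ _ ℝ => U p.1 p.2 x) {p | Lor p.2} ∧
    ∃ μ : Measure R4, IsFiniteMeasure μ ∧ (∀ᵐ p ∂μ, 0 ≤ p 0 ∧ 0 ≤ mink p p) ∧
      ∀ a, inner ℂ x (U a 1 x) = ∫ p, exp (I * mink a p) ∂μ) ∧
  ‖Ω‖ = 1 ∧ (∀ x, (∀ a, U a 1 x = x) → ∃ c : ℂ, x = c • Ω) ∧
  ∃ t x, U (EuclideanSpace.single 0 t) 1 x ≠ x

/-- Wightman fields on the domain `D`: linear in the label and in the test function, tempered, with
adjoints, covariant and mutually local -/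
def Wfield (U : R4 → Matrix (Fin 4) (Fin 4) ℝ → H →L[ℂ] H) (Ω : H) (D : Submodule ℂ H)
    (φ : Lab d × Tf → H → H) : Prop :=
  Ω ∈ D ∧ Dense (Submodule.span ℂ
    {x | ∃ l : List (Lab d × Tf), (∀ p ∈ l, p.1 ∈ V) ∧ l.foldr φ Ω = x} : Set H) ∧
  ∀ x ∈ D, ∀ c ∈ V, ∀ f, φ (c, f) x ∈ D ∧
    (∀ (t : ℂ) g, φ (c, t • f + g) x = t • φ (c, f) x + φ (c, g) x) ∧
    (∀ (t : ℂ), ∀ b ∈ V, φ (t • c + b, f) x = t • φ (c, f) x + φ (b, f) x) ∧
    (∀ y ∈ D, (∀ t : ℂ, φ (c, f) (t • x + y) = t • φ (c, f) x + φ (c, f) y) ∧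
      (Continuous fun g => inner ℂ y (φ (c, g) x)) ∧ ∀ g, (∀ u, g u = starRingEnd ℂ (f u)) →
        inner ℂ y (φ (c, f) x) = inner ℂ (φ (map (starRingEnd ℂ) c, g) y) x) ∧
    (∀ a L, Lor L → U a L x ∈ D ∧ ∀ g, (∀ u : R4, g (a + WithLp.toLp 2 (L *ᵥ u)) = f u) →
      U a L (φ (c, f) x) = φ (rho (L.map (↑)) c, g) (U a L x)) ∧
    ∀ b ∈ V, ∀ g : Tf, (∀ u ∈ tsupport f, ∀ v ∈ tsupport g, mink (u - v) (u - v) < 0) →
      φ (c, f) (φ (b, g) x) = φ (b, g) (φ (c, f) x)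

/-- families of smeared correlation functions -/
abbrev Cor (d : ℕ) : Type := ∀ k, (Fin k → Lab d) → (Fin k → R4 → ℝ) → ℂ

/-- the values of `S` and the vacuum expectation values of the fields are the values at imaginary
times and the boundary values of the same functions, holomorphic in the forward tube -/
def Wrot (S : Cor d) (Ω : H) (φ : Lab d × Tf → H → H) : Prop :=
  ∀ n (c : Fin n → V), ∃ w : (Fin n → Fin 4 → ℂ) → ℂ,
    DifferentiableOn ℂ w {z | ∀ i j, i < j → ∀ y : R4,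
      (∀ μ, y μ = (z j μ - z i μ).im) → 0 < y 0 ∧ 0 < mink y y} ∧
    (∀ f, Adm f → (∀ i j, i < j → ∀ x ∈ tsupport (f i), ∀ y ∈ tsupport (f j), x 0 < y 0) →
      S n (fun i => c i) f = ∫ y : Fin n → R4,
        (∏ i, (f i (y i) : ℂ)) * w fun i μ => if μ = 0 then I * y i μ else y i μ) ∧
    ∀ (f : Fin n → Tf) (G : ℝ → (Fin n → R4) → ℂ),
      (∀ ε x, G ε x =
        (∏ i, f i (x i)) * w fun i μ => x i μ + if μ = 0 then I * ε * (i : ℕ) else 0) →
      (∀ ε > 0, Integrable (G ε)) ∧ Tendsto (fun ε => ∫ x, G ε x) (𝓝[>] 0) (𝓝 (inner ℂ Ω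
        ((List.ofFn fun i => (rho (diagonal ![I, 1, 1, 1]) (c i), f i)).foldr φ Ω)))

/-- `S` is the Wick rotation of a system of Wightman fields -/
def Wightman (S : Cor d) : Prop :=
  ∃ (H : Type) (_ : NormedAddCommGroup H) (_ : InnerProductSpace ℂ H) (_ : CompleteSpace H)
    (U : R4 → _ → H →L[ℂ] H) (Ω : H) (D : Submodule ℂ H) (φ : _ → H → H),
    Poin U Ω ∧ Wfield V U Ω D φ ∧ Wrot V S Ω φ

/-- asymptotic freedom: after the renormalisation `M t`, which preserves the dimension, is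
covariant, slower than any power, logarithmic for the Lagrangian and trivial for the traceless
stress tensor, the correlation functions at the scale `t` converge to the free ones -/
def AF (β : ℝ) (S : Cor d) (M : ℝ → V ≃ₗ[ℂ] V) : Prop :=
  (∀ t (g : Matrix _ _ ℝ) (s : ℝ) (c c' : V), gᵀ * g = s • 1 → c'.1 = rho (g.map (↑)) c.1 →
    (M t c').1 = rho (g.map (↑)) (M t c).1) ∧
  (∀ t ∈ Set.Ioo (0 : ℝ) 1, ∀ c : V, (c.1 = lag → M t c = (β * Real.log t⁻¹) • c) ∧
    ∀ μ ν, c.1 = FF μ ν - (if μ = ν then lag else 0) → M t c = c) ∧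
  (∀ ε > (0 : ℝ), ∀ c m, Tendsto (fun t : ℝ =>
    t ^ ε • (coeff m (M t c).1, coeff m ((M t).symm c).1)) (𝓝[>] 0) (𝓝 0)) ∧
  ∀ k (c : Fin k → V) f, Adm f → Tendsto (fun t : ℝ => S k (fun i => rho ((t : ℂ) • 1) (M t (c i)).1)
    (fun i y => f i (t⁻¹ • y)) / t ^ (4 * k)) (𝓝[>] 0) (𝓝 (free k (fun i => (c i).1) f))

/-- the product of the fields `A t 0`, `A t 1` at the scale `t` is the field `B t` up to the order
`t ^ D` -/
def Exp (S : Cor d) (u : Fin 2 → R4 → ℝ) (A : ℝ → Fin 2 → V) (B : ℝ → V) (D : ℝ) : Prop :=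
  ∀ k (c : Fin k → V) f (g : Fin k → R4 → ℝ), Adm (vecCons f g) →
    (fun t : ℝ => (∫ z, f z * S (2 + k)
      (Fin.append (fun i => rho ((t : ℂ) • 1) (A t i)) fun i => c i)
      (Fin.append (fun i y => u i (t⁻¹ • (y - z))) g)) / t ^ 8 -
        S (k + 1) (vecCons (rho ((t : ℂ) • 1) (B t)) fun i => c i) (vecCons f g))
      =O[𝓝[>] 0] fun t => t ^ D

/-- the operator product expansion to all orders; the coefficients converge to the free ones -/
def Ope (S : Cor d) (M : ℝ → V ≃ₗ[ℂ] V) : Prop :=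
  ∀ (a : Fin 2 → V) u (D : ℕ), Adm u → ∃ δ > (0 : ℝ), ∃ (C : ℝ → V) (B : V),
    (∀ t, (C t).1.weightedTotalDegree (fun p => p.1.1 + 2) ≤ D) ∧
    (∀ m, Tendsto (fun t => coeff m (C t).1) (𝓝[>] 0) (𝓝 (coeff m B.1))) ∧
    Exp V free u (fun _ => a) (fun _ => B) (D + δ) ∧
    Exp V S u (fun t i => M t (a i)) (fun t => M t (C t)) (D + δ)

/-- the stress tensor is conserved and generates the translations -/
def Ward (S : Cor d) : Prop := ∃ s t : ℂ,
  ∀ k (c : Fin k → V) (g : Fin k → R4 → ℝ) (ξ : R4 → ℝ) (e : Fin k → ℝ) ν, Adm g →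
    (∀ i, ContDiff ℝ ∞ (g i) ∧ ∀ᶠ y in 𝓝ˢ (tsupport (g i)), ξ y = e i) → ContDiff ℝ ∞ ξ →
    HasCompactSupport ξ →
    ∑ μ, S (k + 1) (vecCons (s • FF μ ν + if μ = ν then t • lag else 0) fun i => c i)
      (vecCons (fun y => lineDeriv ℝ ξ y (EuclideanSpace.single μ 1)) g) =
      ∑ i, e i * S k (fun i => c i) (Function.update g i
        fun y => lineDeriv ℝ (g i) y (EuclideanSpace.single ν 1))

end Pool.Agent.Lib.MP_7f377f_mp.YZ
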