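import Mathlib

/-! The flux of the free three point function of the stress tensor through an Apollonius sphere. -/

noncomputable section

namespace Pool.Agent.Lib.MP_7f377f_mp.Fx

open MeasureTheory Filter Topology Set Real Metric
open scoped ContDiff

/-- Euclidean space -/
abbrev E4 : Type := EuclideanSpace ℝ (Fin 4)

/-- the conformal vector -/
def vv (z x y : E4) : E4 := (‖x - z‖ ^ 2)⁻¹ • (x - z) - (‖y - z‖ ^ 2)⁻¹ • (y - z)

/-- the free three point function -/
def tt (μ ν : Fin 4) (z x y : E4) : ℝ :=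
  (vv z x y μ * vv z x y ν - if μ = ν then ‖vv z x y‖ ^ 2 / 4 else 0) /
    (‖x - z‖ ^ 2 * ‖y - z‖ ^ 2 * ‖x - y‖ ^ 6)

/-- the first axis -/
def e0 : E4 := EuclideanSpace.single 0 1

/-- a smooth step -/
def th (s : ℝ) : ℝ := smoothTransition (2 - 10 * s)

/-- the argument of the step -/
def ap (z : E4) : ℝ := ‖e0 - z‖ ^ 2 / (‖e0 - z‖ ^ 2 + ‖z‖ ^ 2)

/-- the cutoff: `1` near `e0`, `0` near `0` -/
def xi (z : E4) : ℝ := th (ap z)

/-- derivative along an axis -/
def pd (μ : Fin 4) (f : E4 → ℝ) (y : E4) : ℝ := lineDeriv ℝ f y (EuclideanSpace.single μ 1)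

/-- the flux -/
def flux (x y : E4) : ℝ := ∫ z, ∑ μ, pd μ xi z * tt μ 0 z x y

theorem norm_e0 : ‖e0‖ = 1 := by simp [e0]

theorem den_pos (z : E4) : 0 < ‖e0 - z‖ ^ 2 + ‖z‖ ^ 2 := by
  have := norm_add_le (e0 - z) z
  rw [sub_add_cancel, norm_e0] at this
  nlinarith [sq_nonneg (‖e0 - z‖ - ‖z‖)]

theorem th_smooth : ContDiff ℝ ∞ th := smoothTransition.contDiff.comp (by fun_prop)

theorem ap_smooth : ContDiff ℝ ∞ ap :=
  ((contDiff_const.sub contDiff_id).norm_sq ℝ).div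
    (((contDiff_const.sub contDiff_id).norm_sq ℝ).add (contDiff_norm_sq ℝ)) fun z => (den_pos z).ne'

theorem xi_smooth : ContDiff ℝ ∞ xi := th_smooth.comp ap_smooth

theorem xi_one {z : E4} (h : ‖e0 - z‖ ≤ 4⁻¹) : xi z = 1 := by
  have := norm_add_le (e0 - z) z
  rw [sub_add_cancel, norm_e0] at this
  refine smoothTransition.one_of_one_le ?_
  have : ap z ≤ 10⁻¹ := by
    rw [ap, div_le_iff₀ (den_pos z)]
    nlinarith [norm_nonneg (e0 - z)]
  linarith

theorem xi_zero {z : E4} (h : ‖z‖ ≤ 2 * ‖e0 - z‖) : xi z = 0 := by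
  refine smoothTransition.zero_of_nonpos ?_
  have : 5⁻¹ ≤ ap z := by
    rw [ap, le_div_iff₀ (den_pos z)]
    nlinarith [norm_nonneg z]
  linarith

theorem xi_zero_near {z : E4} (h : ‖z‖ ≤ 2⁻¹) : xi z = 0 := by
  have := norm_add_le (e0 - z) z
  rw [sub_add_cancel, norm_e0] at this
  exact xi_zero (by linarith)

theorem xi_zero_far {z : E4} (h : 1 ≤ ‖e0 - z‖) : xi z = 0 := by
  have := norm_sub_le e0 (e0 - z)
  rw [sub_sub_cancel, norm_e0] at this
  exact xi_zero (by linarith)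

theorem xi_cpt : HasCompactSupport xi :=
  .intro (isCompact_closedBall e0 1) fun z hz => xi_zero_far (by
    rw [mem_closedBall, dist_comm, dist_eq_norm] at hz
    exact (not_le.1 hz).le)

/-- the region which contains the support of the gradient -/
def Kx : Set E4 := closedBall e0 1 \ (ball e0 4⁻¹ ∪ ball 0 2⁻¹)

theorem Kx_cpt : IsCompact Kx := (isCompact_closedBall _ _).diff (isOpen_ball.union isOpen_ball)

theorem pd_const {f : E4 → ℝ} {z : E4} {c : ℝ} (h : ∀ᶠ y in 𝓝 z, f y = c) (μ : Fin 4) :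
    pd μ f z = 0 := by
  rw [pd, EventuallyEq.lineDeriv_eq (f := fun _ => c) h]
  simp [lineDeriv]

theorem pd_xi {z : E4} (h : z ∉ Kx) (μ : Fin 4) : pd μ xi z = 0 := by
  simp only [Kx, Set.mem_sdiff, mem_union, not_and_or, not_not] at h
  rcases h with h | h | h
  · exact pd_const (c := 0) (mem_of_superset (isClosed_closedBall.isOpen_compl.mem_nhds h)
      fun y hy => xi_zero_far (by
        rw [mem_compl_iff, mem_closedBall, dist_comm, dist_eq_norm] at hy
        exact (not_le.1 hy).le)) μ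
  · exact pd_const (c := 1) (mem_of_superset (isOpen_ball.mem_nhds h) fun y hy => xi_one (by
      rw [mem_ball, dist_comm, dist_eq_norm] at hy
      exact hy.le)) μ
  · exact pd_const (c := 0) (mem_of_superset (isOpen_ball.mem_nhds h) fun y hy =>
      xi_zero_near (mem_ball_zero_iff.1 hy).le) μ

theorem pd_eq {f : E4 → ℝ} (h : Differentiable ℝ f) (μ : Fin 4) :
    pd μ f = fun y => fderiv ℝ f y (EuclideanSpace.single μ 1) :=
  funext fun y => (h y).lineDeriv_eq_fderiv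

theorem pd_smooth {f : E4 → ℝ} (h : ContDiff ℝ ∞ f) (μ : Fin 4) : ContDiff ℝ ∞ (pd μ f) := by
  rw [pd_eq (h.differentiable (by simp))]
  exact (h.fderiv_right (m := ∞) le_rfl).clm_apply contDiff_const

theorem tt_cont {X : Type} [TopologicalSpace X] {z x y : X → E4} {p : X} (hz : ContinuousAt z p)
    (hx : ContinuousAt x p) (hy : ContinuousAt y p) (h1 : x p ≠ z p) (h2 : y p ≠ z p)
    (h3 : x p ≠ y p) (μ ν : Fin 4) : ContinuousAt (fun q => tt μ ν (z q) (x q) (y q)) p := by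
  have a1 := pow_ne_zero 2 (norm_ne_zero_iff.2 (sub_ne_zero.2 h1))
  have a2 := pow_ne_zero 2 (norm_ne_zero_iff.2 (sub_ne_zero.2 h2))
  have a3 := pow_ne_zero 6 (norm_ne_zero_iff.2 (sub_ne_zero.2 h3))
  have v : ContinuousAt (fun q => vv (z q) (x q) (y q)) p := by
    unfold vv
    fun_prop (disch := assumption)
  unfold tt
  refine ContinuousAt.div ?_ (by fun_prop) (mul_ne_zero (mul_ne_zero a1 a2) a3)
  split_ifs <;> fun_prop

theorem tt_meas (μ ν : Fin 4) : Measurable fun p : (E4 × E4) × E4 => tt μ ν p.2 p.1.1 p.1.2 := by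
  have v : Measurable fun p : (E4 × E4) × E4 => vv p.2 p.1.1 p.1.2 := by
    unfold vv
    fun_prop
  unfold tt
  split_ifs <;> fun_prop

theorem flux_meas : Measurable fun p : E4 × E4 => flux p.1 p.2 :=
  (StronglyMeasurable.integral_prod_right' (ν := volume) (f := fun p : (E4 × E4) × E4 =>
    ∑ μ, pd μ xi p.2 * tt μ 0 p.2 p.1.1 p.1.2) (Finset.measurable_sum _ fun μ _ =>
      ((pd_smooth xi_smooth μ).continuous.measurable.comp measurable_snd).mul
        (tt_meas μ 0)).stronglyMeasurable).measurable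

theorem far {x y z : E4} (hx : x ∈ ball e0 8⁻¹) (hy : y ∈ ball (0 : E4) 8⁻¹) :
    x ≠ y ∧ (z ∈ Kx → x ≠ z ∧ y ≠ z) := by
  refine ⟨fun e => ?_, fun hz => ⟨fun e => hz.2 (.inl ?_), fun e => hz.2 (.inr ?_)⟩⟩
  · have := dist_triangle_left e0 0 x
    rw [dist_zero_right, norm_e0] at this
    rw [← e] at hy
    linarith [mem_ball.1 hx, mem_ball.1 hy]
  · exact e ▸ ball_subset_ball (by norm_num) hx
  · exact e ▸ ball_subset_ball (by norm_num) hy

theorem int_cont : ContinuousOn (fun p : (E4 × E4) × E4 => ∑ μ, pd μ xi p.2 * tt μ 0 p.2 p.1.1 p.1.2)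
    ((ball e0 8⁻¹ ×ˢ ball 0 8⁻¹) ×ˢ univ) := fun p hp => by
  refine ContinuousAt.continuousWithinAt ?_
  by_cases h : p.2 ∈ Kx
  · obtain ⟨a, b⟩ := far (z := p.2) hp.1.1 hp.1.2
    have c1 : ∀ μ, ContinuousAt (fun q : (E4 × E4) × E4 => pd μ xi q.2) p := fun μ =>
      ((pd_smooth xi_smooth μ).continuous.comp' continuous_snd).continuousAt
    have c2 : ∀ μ, ContinuousAt (fun q : (E4 × E4) × E4 => tt μ 0 q.2 q.1.1 q.1.2) p := fun μ =>
      @tt_cont _ _ (fun q : (E4 × E4) × E4 => q.2) (fun q => q.1.1) (fun q => q.1.2) p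
        continuousAt_snd continuousAt_fst.fst continuousAt_fst.snd (b h).1 (b h).2 a μ 0
    exact tendsto_finsetSum _ fun μ _ => Tendsto.mul (c1 μ) (c2 μ)
  · refine (continuousAt_const (y := (0 : ℝ))).congr ?_
    filter_upwards [continuous_snd.continuousAt (Kx_cpt.isClosed.isOpen_compl.mem_nhds h)] with q hq
    simp only [pd_xi hq, zero_mul, Finset.sum_const_zero]

theorem flux_cont : ContinuousOn (fun p : E4 × E4 => flux p.1 p.2) (ball e0 8⁻¹ ×ˢ ball 0 8⁻¹) :=
  continuousOn_integral_of_compact_support (f := fun (p : E4 × E4) z =>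
    ∑ μ, pd μ xi z * tt μ 0 z p.1 p.2) Kx_cpt int_cont fun _ _ _ hz => by
      simp only [pd_xi hz, zero_mul, Finset.sum_const_zero]

theorem pd_xi_eq (μ : Fin 4) {z : E4} (h1 : e0 ≠ z) (h2 : z ≠ 0) : pd μ xi z = deriv th (ap z) *
    (-2 * (‖e0 - z‖ ^ 2 * ‖z‖ ^ 2) / (‖e0 - z‖ ^ 2 + ‖z‖ ^ 2) ^ 2 * vv z e0 0 μ) := by
  have a1 := norm_ne_zero_iff.2 (sub_ne_zero.2 h1)
  have a2 := norm_ne_zero_iff.2 h2
  have a3 := (den_pos z).ne'
  have A := ((hasFDerivAt_id (𝕜 := ℝ) z).const_sub e0).norm_sq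
  have B := (hasFDerivAt_id (𝕜 := ℝ) z).norm_sq
  have C := ((th_smooth.differentiable (by simp) (ap z)).hasDerivAt.comp_hasFDerivAt z
    (A.mul ((hasDerivAt_inv a3).comp_hasFDerivAt z (A.add B)))).hasLineDerivAt
      (EuclideanSpace.single μ 1)
  refine C.lineDeriv.trans ?_
  simp [vv, EuclideanSpace.inner_single_right]
  field_simp
  ring

theorem norm_vv {z : E4} (h1 : e0 ≠ z) (h2 : z ≠ 0) :
    ‖vv z e0 0‖ ^ 2 = (‖e0 - z‖ ^ 2 * ‖z‖ ^ 2)⁻¹ := by
  have a1 := norm_ne_zero_iff.2 (sub_ne_zero.2 h1)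
  have a2 := norm_ne_zero_iff.2 h2
  have e := norm_add_sq_real (e0 - z) z
  rw [sub_add_cancel, norm_e0] at e
  rw [vv, zero_sub, smul_neg, sub_neg_eq_add, norm_add_sq_real, norm_neg, norm_smul, norm_smul,
    inner_smul_left, inner_smul_right, show inner ℝ (e0 - z) z =
      (1 - ‖e0 - z‖ ^ 2 - ‖z‖ ^ 2) / 2 by linarith]
  simp only [norm_inv, norm_pow, norm_norm, conj_trivial]
  field_simp
  ring

theorem int_eq {z : E4} (h1 : e0 ≠ z) (h2 : z ≠ 0) : ∑ μ, pd μ xi z * tt μ 0 z e0 0 =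
    -3 / 2 * deriv th (ap z) * vv z e0 0 0 /
      ((‖e0 - z‖ ^ 2 + ‖z‖ ^ 2) ^ 2 * (‖e0 - z‖ ^ 2 * ‖z‖ ^ 2)) := by
  have a1 := norm_ne_zero_iff.2 (sub_ne_zero.2 h1)
  have a2 := norm_ne_zero_iff.2 h2
  have a3 := (den_pos z).ne'
  have e := EuclideanSpace.real_norm_sq_eq (vv z e0 0)
  rw [Fin.sum_univ_four, norm_vv h1 h2] at e
  simp only [pd_xi_eq _ h1 h2, tt, Fin.sum_univ_four, norm_vv h1 h2, sub_zero, zero_sub, norm_neg,
    norm_e0]
  simp only [Fin.isValue, if_true, Fin.reduceEq, if_false]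
  generalize vv z e0 0 = V at e
  have e' : V 1 ^ 2 = (‖e0 - z‖ ^ 2 * ‖z‖ ^ 2)⁻¹ - V 0 ^ 2 - V 2 ^ 2 - V 3 ^ 2 := by linarith
  rw [show ∀ a b c : ℝ, a * (b * V 1) * ((V 1 * V 0 - 0) / c) = a * b * V 0 * V 1 ^ 2 / c by
    intros; ring, e']
  field_simp
  ring

/-- the integrand after the inversion -/
def HH (w : E4) : ℝ := -3 / 2 * deriv th (‖w‖ ^ 2 / (‖w‖ ^ 2 + 1)) * (2 + w 0 / ‖w‖ ^ 2 + w 0) /
  ((‖w‖ ^ 2 + 1) ^ 2 * ‖w‖ ^ 2)

open EuclideanGeometry in
theorem inv_eq {z : E4} (h : z ≠ 0) :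
    |((1 / dist z 0) ^ 2 • ((ℝ ∙ (z - 0))ᗮ.reflection : E4 →L[ℝ] E4)).det| •
      ∑ μ, pd μ xi (inversion 0 1 z) * tt μ 0 (inversion 0 1 z) e0 0 = HH (z - e0) := by
  have a2 := norm_ne_zero_iff.2 h
  have d : |((1 / dist z 0) ^ 2 • ((ℝ ∙ (z - 0))ᗮ.reflection : E4 →L[ℝ] E4)).det| =
      (‖z‖ ^ 8)⁻¹ := by
    rw [ContinuousLinearMap.det, ContinuousLinearMap.toLinearMap_smul, LinearMap.det_smul, abs_mul]
    erw [Submodule.det_reflection]
    simp [← pow_mul]
  have i : inversion 0 1 z = (‖z‖ ^ 2)⁻¹ • z := by simp [inversion]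
  rw [d, i]
  by_cases h1 : z = e0
  · subst h1
    simp [HH, norm_e0, pd_xi (z := e0) fun u => u.2 (.inl (mem_ball_self (by norm_num)))]
  have a1 := norm_ne_zero_iff.2 (sub_ne_zero.2 h1)
  have n1 : ‖(‖z‖ ^ 2)⁻¹ • z‖ ^ 2 = (‖z‖ ^ 2)⁻¹ := by
    rw [norm_smul, norm_inv, norm_pow, norm_norm]
    field_simp
  have i0 : inner ℝ z e0 = z 0 := by simp [e0, EuclideanSpace.inner_single_right]
  have n0 : ‖z - e0‖ ^ 2 = ‖z‖ ^ 2 - 2 * z 0 + 1 := by rw [norm_sub_sq_real, i0, norm_e0, one_pow]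
  have n2 : ‖e0 - (‖z‖ ^ 2)⁻¹ • z‖ ^ 2 = ‖z - e0‖ ^ 2 * (‖z‖ ^ 2)⁻¹ := by
    rw [norm_sub_rev, norm_sub_sq_real, n1, inner_smul_left, i0, norm_e0, n0]
    simp only [conj_trivial]
    field_simp
    ring
  have b1 : e0 ≠ (‖z‖ ^ 2)⁻¹ • z := fun e => by
    rw [← e, sub_self, norm_zero] at n2
    exact (show 0 < ‖z - e0‖ ^ 2 * (‖z‖ ^ 2)⁻¹ by positivity).ne (by linarith)
  have b2 : (‖z‖ ^ 2)⁻¹ • z ≠ 0 := smul_ne_zero (by positivity) h
  have b3 : ap ((‖z‖ ^ 2)⁻¹ • z) = ‖z - e0‖ ^ 2 / (‖z - e0‖ ^ 2 + 1) := by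
    rw [ap, n1, n2]
    field_simp
  have b4 : vv ((‖z‖ ^ 2)⁻¹ • z) e0 0 0 = 2 + (z - e0) 0 / ‖z - e0‖ ^ 2 + (z - e0) 0 := by
    rw [vv, zero_sub, norm_neg, n1, n2]
    have : ‖z‖ ^ 2 = ‖z - e0‖ ^ 2 + 2 * z 0 - 1 := by linarith
    simp only [PiLp.sub_apply, PiLp.smul_apply, PiLp.neg_apply, smul_eq_mul,
      show e0 0 = 1 by simp [e0]]
    field_simp
    rw [this]
    ring
  rw [int_eq b1 b2, b3, b4, n1, n2, HH, smul_eq_mul]
  field_simp

theorem flux_val : flux e0 0 = 3 * π ^ 2 := by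
  have hs : MeasurableSet ({0}ᶜ : Set E4) := (measurableSet_singleton _).compl
  have hd := fun z (hz : z ∈ ({0}ᶜ : Set E4)) =>
    (EuclideanGeometry.hasFDerivAt_inversion (R := 1) hz).hasFDerivWithinAt (s := {0}ᶜ)
  have hi := (EuclideanGeometry.inversion_injective (0 : E4) one_ne_zero).injOn (s := {0}ᶜ)
  have im : EuclideanGeometry.inversion (0 : E4) 1 '' {0}ᶜ = {0}ᶜ := by
    rw [image_compl_eq (EuclideanGeometry.inversion_bijective _ one_ne_zero), image_singleton,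
      EuclideanGeometry.inversion_self]
  have c : Continuous fun z => ∑ μ, pd μ xi z * tt μ 0 z e0 0 :=
    int_cont.comp_continuous (f := fun z => ((e0, 0), z)) (by fun_prop) fun z =>
      ⟨⟨mem_ball_self (by norm_num), mem_ball_self (by norm_num)⟩, trivial⟩
  have i1 := (integrableOn_image_iff_integrableOn_abs_det_fderiv_smul volume hs hd hi _).1
    (c.integrable_of_hasCompactSupport (.intro Kx_cpt fun z hz => by
      simp only [pd_xi hz, zero_mul, Finset.sum_const_zero])).integrableOn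
  have e1 := integral_image_eq_integral_abs_det_fderiv_smul volume hs hd hi
    fun z => ∑ μ, pd μ xi z * tt μ 0 z e0 0
  rw [setIntegral_congr_fun hs fun z hz => inv_eq hz, im, restrict_compl_singleton,
    integral_sub_right_eq_self HH] at e1
  have i2 : Integrable HH := by
    have := i1.congr_fun (fun z hz => inv_eq hz) hs
    rw [IntegrableOn, restrict_compl_singleton] at this
    simpa using this.comp_add_right e0
  obtain ⟨F, hF⟩ : ∃ F : ℝ → ℝ, F = fun y => th (y ^ 2 / (y ^ 2 + 1)) := ⟨_, rfl⟩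
  have F1 : ContDiff ℝ 1 F := hF ▸ (th_smooth.of_le (by simp)).comp
    (ContDiff.div (by fun_prop) (by fun_prop) fun y => by positivity)
  have F2 : HasCompactSupport F := .intro (isCompact_Icc (a := -1) (b := 1)) fun y hy => by
    have : 1 ≤ y ^ 2 := (one_le_sq_iff_one_le_abs y).2 (not_le.1 (mt abs_le.1 hy)).le
    have : 5⁻¹ ≤ y ^ 2 / (y ^ 2 + 1) := by
      rw [le_div_iff₀ (by positivity)]
      linarith
    rw [hF]
    exact smoothTransition.zero_of_nonpos (by linarith)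
  have F3 : ∀ y, deriv F y = deriv th (y ^ 2 / (y ^ 2 + 1)) * (2 * y / (y ^ 2 + 1) ^ 2) := fun y => by
    have := ((th_smooth.differentiable (by simp) _).hasDerivAt.comp y ((hasDerivAt_pow 2 y).div
      ((hasDerivAt_pow 2 y).add_const 1) (by positivity))).deriv
    rw [hF]
    refine this.trans ?_
    simp only [Pi.div_apply]
    congr 2
    norm_num
    ring
  have e2 : ∫ w, HH w + HH (-w) = ∫ w : E4, (fun y => -3 * deriv F y / y ^ 3) ‖w‖ := by
    refine integral_congr_ae (.of_forall fun w => ?_)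
    simp only [HH, F3, norm_neg, PiLp.neg_apply]
    by_cases hw : ‖w‖ = 0
    · simp [hw]
    · field_simp
      ring
  rw [integral_add i2 i2.comp_neg, integral_neg_eq_self, integral_fun_norm_addHaar volume fun y => -3 * deriv F y / y ^ 3,
    setIntegral_congr_fun measurableSet_Ioi (g := fun y => -3 * deriv F y) fun y (hy : 0 < y) => by
      simp only [finrank_euclideanSpace, Fintype.card_fin, smul_eq_mul, Nat.reduceSub]
      field_simp, integral_const_mul, F2.integral_Ioi_deriv_eq F1, measureReal_def,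
    InnerProductSpace.volume_ball_of_dim_even (k := 2) (by simp)] at e2
  have F0 : F 0 = 1 := by
    rw [hF]
    exact smoothTransition.one_of_one_le (by norm_num)
  rw [flux, e1]
  simp [F0, ENNReal.toReal_ofReal (show 0 ≤ π ^ 2 / 2 by positivity)] at e2
  linarith

/-- the bump of radius `1 / (n + 9)` -/
def bp (n : ℕ) (c : E4) : ContDiffBump c :=
  ⟨((n : ℝ) + 9)⁻¹ / 2, ((n : ℝ) + 9)⁻¹, by positivity, half_lt_self (by positivity)⟩

/-- the normalised bump -/
def bu (n : ℕ) (c : E4) : E4 → ℝ := (bp n c).normed volume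

theorem bu_adm (n : ℕ) (c : E4) : ContDiff ℝ ∞ (bu n c) ∧ HasCompactSupport (bu n c) ∧
    tsupport (bu n c) ⊆ ball c 8⁻¹ :=
  ⟨(bp n c).contDiff_normed, (bp n c).hasCompactSupport_normed, by
    rw [bu, ContDiffBump.tsupport_normed_eq]
    exact closedBall_subset_ball (inv_strictAnti₀ (by norm_num) (by linarith [n.cast_nonneg (α := ℝ)]))⟩

theorem conc {k : ℕ} (p : Fin k → E4) {F : (Fin k → E4) → ℝ} (hm : Measurable F)
    (hc : ContinuousAt F p) :
    Tendsto (fun n => ∫ y : Fin k → E4, (∏ i, bu n (p i) (y i)) * F y) atTop (𝓝 (F p)) := by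
  refine Metric.tendsto_nhds.2 fun η η0 => ?_
  obtain ⟨δ, δ0, hδ⟩ := Metric.continuousAt_iff.1 hc (η / 2) (half_pos η0)
  have h0 : Tendsto (fun n : ℕ => ((n : ℝ) + 9)⁻¹) atTop (𝓝 0) :=
    (tendsto_atTop_add_const_right _ _ tendsto_natCast_atTop_atTop).inv_tendsto_atTop
  filter_upwards [h0.eventually_le_const δ0] with n hn
  have gi : Integrable fun y : Fin k → E4 => ∏ i, bu n (p i) (y i) :=
    Integrable.fintype_prod fun i => (bp n (p i)).integrable_normed
  have g1 : ∫ y : Fin k → E4, ∏ i, bu n (p i) (y i) = 1 := by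
    rw [integral_fintype_prod_volume_eq_prod]
    exact Finset.prod_eq_one fun i _ => (bp n (p i)).integral_normed
  have b : ∀ y : Fin k → E4, ‖(∏ i, bu n (p i) (y i)) * (F y - F p)‖ ≤
      (∏ i, bu n (p i) (y i)) * (η / 2) := by
    intro y
    have g0 : 0 ≤ ∏ i, bu n (p i) (y i) :=
      Finset.prod_nonneg fun i _ => (bp n (p i)).nonneg_normed _
    by_cases c : ∏ i, bu n (p i) (y i) = 0
    · simp [c]
    rw [norm_mul, Real.norm_of_nonneg g0]
    refine mul_le_mul_of_nonneg_left (hδ ((dist_pi_lt_iff δ0).2 fun i => ?_)).le g0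
    have : y i ∈ Function.support (bu n (p i)) :=
      Finset.prod_ne_zero_iff.1 c i (Finset.mem_univ i)
    rw [bu, ContDiffBump.support_normed_eq] at this
    exact lt_of_lt_of_le this hn
  have hi : Integrable fun y : Fin k → E4 => (∏ i, bu n (p i) (y i)) * (F y - F p) :=
    (gi.mul_const _).mono' (gi.1.mul (hm.sub_const _).aestronglyMeasurable) (.of_forall b)
  have e : ∫ y : Fin k → E4, (∏ i, bu n (p i) (y i)) * F y =
      (∫ y : Fin k → E4, (∏ i, bu n (p i) (y i)) * (F y - F p)) + F p := by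
    have e1 : ∫ y : Fin k → E4, (∏ i, bu n (p i) (y i)) * F p = F p := by
      rw [integral_mul_const, g1, one_mul]
    rw [← sub_eq_iff_eq_add', ← sub_eq_zero, sub_sub]
    nth_rewrite 2 [← e1]
    rw [← integral_add hi (gi.mul_const _)]
    simp only [← mul_add, sub_add_cancel, sub_self]
  have := norm_integral_le_of_norm_le (gi.mul_const _) (.of_forall b)
  rw [integral_mul_const, g1, one_mul] at this
  rw [e, dist_eq_norm, add_sub_cancel_right]
  linarith

/-- smooth sources near `e0` and `0` -/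
def Src (g : Fin 2 → E4 → ℝ) : Prop := ∀ i, ContDiff ℝ ∞ (g i) ∧ HasCompactSupport (g i) ∧
  tsupport (g i) ⊆ ball (![e0, 0] i) 8⁻¹

theorem src_bu (n : ℕ) : Src fun i => bu n (![e0, 0] i) := fun _ => bu_adm n _

theorem flux_lim : Tendsto (fun n => ∫ y : Fin 2 → E4, (∏ i, bu n (![e0, 0] i) (y i)) *
    flux (y 0) (y 1)) atTop (𝓝 (3 * π ^ 2)) := by
  have c := (flux_cont.continuousAt ((isOpen_ball.prod isOpen_ball).mem_nhds (x := (e0, 0))
    ⟨mem_ball_self (by norm_num), mem_ball_self (by norm_num)⟩)).comp_of_eq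
      (f := fun y : Fin 2 → E4 => (y 0, y 1)) (x := ![e0, 0]) (by fun_prop) rfl
  exact flux_val ▸ conc ![e0, 0] (F := fun y => flux (y 0) (y 1))
    (flux_meas.comp (f := fun y : Fin 2 → E4 => (y 0, y 1)) (by fun_prop)) c

theorem flux_ne : ∃ g, Src g ∧ ∫ y : Fin 2 → E4, (∏ i, g i (y i)) * flux (y 0) (y 1) ≠ 0 :=
  let ⟨n, hn⟩ := (flux_lim.eventually_ne (by positivity : 3 * π ^ 2 ≠ 0)).exists
  ⟨_, src_bu n, hn⟩

theorem Src.ne {g : Fin 2 → E4 → ℝ} (h : Src g) {y : Fin 2 → E4}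
    (hy : y ∈ pi univ fun i => tsupport (g i)) : ‖y 0 - y 1‖ ≠ 0 :=
  norm_ne_zero_iff.2 (sub_ne_zero.2
    (far (z := 0) ((h 0).2.2 (hy 0 trivial)) ((h 1).2.2 (hy 1 trivial))).1)

theorem Src.int {g : Fin 2 → E4 → ℝ} (h : Src g) {F : (Fin 2 → E4) → ℝ}
    (hF : ContinuousOn F (pi univ fun i => tsupport (g i)))
    (h0 : ∀ y i, y i ∉ tsupport (g i) → F y = 0) : Integrable F :=
  (integrableOn_iff_integrable_of_support_subset (s := pi univ fun i => tsupport (g i))
    fun y hy i _ => by_contra fun e => hy (h0 y i e)).1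
    (hF.integrableOn_compact (isCompact_univ_pi fun i => (h i).2.1))

theorem Src.ibp {g : Fin 2 → E4 → ℝ} (h : Src g) :
    ∫ y : Fin 2 → E4, pd 0 (g 0) (y 0) * g 1 (y 1) / ‖y 0 - y 1‖ ^ 8 =
      ∫ y : Fin 2 → E4, (∏ i, g i (y i)) * (8 * (y 0 - y 1) 0 / ‖y 0 - y 1‖ ^ 10) := by
  have c0 := (h 0).1.continuous
  have c1 := (h 1).1.continuous
  have c2 := (pd_smooth (h 0).1 0).continuous
  have z0 : ∀ (y : Fin 2 → E4) i, y i ∉ tsupport (g i) → ∏ i, g i (y i) = 0 := fun y i e =>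
    Finset.prod_eq_zero (Finset.mem_univ i) (image_eq_zero_of_notMem_tsupport e)
  have z1 : ∀ (y : Fin 2 → E4) i, y i ∉ tsupport (g i) → pd 0 (g 0) (y 0) * g 1 (y 1) = 0 :=
    fun y => Fin.forall_fin_two.2 ⟨fun e => mul_eq_zero_of_left
      (pd_const (notMem_tsupport_iff_eventuallyEq.1 e) 0) _,
      fun e => mul_eq_zero_of_right _ (image_eq_zero_of_notMem_tsupport e)⟩
  have := integral_bilinear_hasLineDerivAt_right_eq_neg_left_of_integrable (μ := volume)
    (f := fun y : Fin 2 → E4 => ∏ i, g i (y i)) (f' := fun y => pd 0 (g 0) (y 0) * g 1 (y 1))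
    (g := fun y => (‖y 0 - y 1‖ ^ 8)⁻¹) (g' := fun y => -(8 * (y 0 - y 1) 0 / ‖y 0 - y 1‖ ^ 10))
    (v := Pi.single 0 e0) (B := ContinuousLinearMap.mul ℝ ℝ)
    (h.int (fun y hy => ?_) fun y i e => by simp [z1 y i e])
    (h.int (fun y hy => ?_) fun y i e => by simp only [z0 y i e, map_zero]; rfl)
    (h.int (fun y hy => ?_) fun y i e => by simp only [z0 y i e, map_zero]; rfl)
    (fun y _ => ?_) fun y hy => ?_
  · simp only [ContinuousLinearMap.mul_apply', mul_neg, integral_neg, neg_inj] at this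
    exact this.symm
  · have := pow_ne_zero 8 (h.ne hy)
    refine ContinuousAt.continuousWithinAt ?_
    simp only [ContinuousLinearMap.mul_apply']
    fun_prop (disch := assumption)
  · have := pow_ne_zero 10 (h.ne hy)
    refine ContinuousAt.continuousWithinAt ?_
    simp only [ContinuousLinearMap.mul_apply', Fin.prod_univ_two]
    fun_prop (disch := assumption)
  · have := pow_ne_zero 8 (h.ne hy)
    refine ContinuousAt.continuousWithinAt ?_
    simp only [ContinuousLinearMap.mul_apply', Fin.prod_univ_two]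
    fun_prop (disch := assumption)
  · have := (((h 0).1.differentiable (by simp) (y 0)).lineDifferentiableAt
      (v := e0)).hasLineDerivAt
    exact (HasDerivAt.mul_const this (g 1 (y 1))).congr_of_eventuallyEq
      (.of_forall fun t => by simp)
  · have a : ‖y 0 - y 1‖ ≠ 0 := h.ne fun i _ => by_contra fun e =>
      (notMem_tsupport_iff_eventuallyEq.2 (Eventually.mono ((continuous_apply i).continuousAt
        ((isClosed_tsupport _).isOpen_compl.mem_nhds e)) fun x hx => z0 x i hx)) hy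
    have d := (((((hasDerivAt_id (0 : ℝ)).smul_const e0).const_add (y 0 - y 1)).norm_sq.pow 4).inv
      (by simpa using a))
    refine (d.congr_of_eventuallyEq (.of_forall fun t => ?_)).congr_deriv ?_
    · simp [← pow_mul, add_sub_right_comm]
    · simp [e0, EuclideanSpace.inner_single_right]
      field_simp
      ring

/-- the constant in the free Ward identity -/
theorem pin {m : ℝ} (h : ∀ g, Src g → m * ∫ y : Fin 2 → E4, (∏ i, g i (y i)) * flux (y 0) (y 1) =
    ∫ y : Fin 2 → E4, pd 0 (g 0) (y 0) * g 1 (y 1) / ‖y 0 - y 1‖ ^ 8) : m * (3 * π ^ 2) = 8 := by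
  have c := conc ![e0, 0] (F := fun y => 8 * (y 0 - y 1) 0 / ‖y 0 - y 1‖ ^ 10) (by fun_prop)
    (ContinuousAt.div (by fun_prop) (by fun_prop) (by simp [norm_e0]))
  simp only [← (src_bu _).ibp, ← h _ (src_bu _)] at c
  simpa [norm_e0, show e0 0 = 1 by simp [e0]] using tendsto_nhds_unique (flux_lim.const_mul m) c

theorem flux_fub {g : Fin 2 → E4 → ℝ} (h : Src g) :
    ∑ μ, ∫ y : Fin 3 → E4, (∏ i, ![pd μ xi, g 0, g 1] i (y i)) * tt μ 0 (y 0) (y 1) (y 2) =
      ∫ y : Fin 2 → E4, (∏ i, g i (y i)) * flux (y 0) (y 1) := by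
  have mp := (volume_preserving_piFinSuccAbove (fun _ : Fin 3 => E4) 0).symm
  have hi : ∀ μ, Integrable (fun p : E4 × (Fin 2 → E4) =>
      (∏ i, g i (p.2 i)) * (pd μ xi p.1 * tt μ 0 p.1 (p.2 0) (p.2 1))) (volume.prod volume) := by
    intro μ
    have c0 := (h 0).1.continuous
    have c1 := (h 1).1.continuous
    have c2 := (pd_smooth xi_smooth μ).continuous
    refine (integrableOn_iff_integrable_of_support_subset
      (s := Kx ×ˢ pi univ fun i => tsupport (g i)) fun p hp => ?_).1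
      (ContinuousOn.integrableOn_compact (Kx_cpt.prod (isCompact_univ_pi fun i => (h i).2.1))
        fun p hp => ContinuousAt.continuousWithinAt ?_)
    · exact ⟨by_contra fun e => hp (by simp only [pd_xi e, zero_mul, mul_zero]), fun i _ =>
        subset_tsupport _ (Finset.prod_ne_zero_iff.1 (left_ne_zero_of_mul hp) i (Finset.mem_univ i))⟩
    · obtain ⟨a, b⟩ := far (z := p.1) ((h 0).2.2 (hp.2 0 trivial)) ((h 1).2.2 (hp.2 1 trivial))
      have := @tt_cont _ _ (fun q : E4 × (Fin 2 → E4) => q.1) (fun q => q.2 0) (fun q => q.2 1) p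
        (by fun_prop) (by fun_prop) (by fun_prop) (b hp.1).1 (b hp.1).2 a μ 0
      simp only [Fin.prod_univ_two]
      exact .mul (by fun_prop) (.mul (by fun_prop) this)
  have e : ∀ μ, ∫ y : Fin 3 → E4, (∏ i, ![pd μ xi, g 0, g 1] i (y i)) * tt μ 0 (y 0) (y 1) (y 2) =
      ∫ p : E4 × (Fin 2 → E4), (∏ i, g i (p.2 i)) * (pd μ xi p.1 * tt μ 0 p.1 (p.2 0) (p.2 1))
        ∂volume.prod volume := fun μ => by
    rw [← mp.integral_comp']
    refine integral_congr_ae (.of_forall fun p => ?_)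
    simp only [Fin.prod_univ_three, Fin.prod_univ_two]
    change pd μ xi p.1 * g 0 (p.2 0) * g 1 (p.2 1) * tt μ 0 p.1 (p.2 0) (p.2 1) = _
    ring
  simp only [e]
  rw [← integral_finsetSum _ fun μ _ => hi μ, integral_prod_symm _ (integrable_finsetSum _ fun μ _ => hi μ)]
  simp only [← Finset.mul_sum, integral_const_mul, flux]

end Pool.Agent.Lib.MP_7f377f_mp.Fx
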