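import Pool.Agent.Lib.MP_7f377f_mp.StR
import Pool.Agent.Lib.MP_7f377f_mp.StFx

/-! Stage 15: complex relations, polarisation, derivatives along the axes. -/

noncomputable section

namespace Pool.Agent.Lib.MP_7f377f_mp.St

open Filter Topology Set MeasureTheory Metric Fx
open scoped NNReal ContDiff

section
variable {ι X : Type} [Fintype ι] {A : X → ι → ℂ}

theorem netC {P : (ι → ℂ) → Prop} {Q : X → ℂ}
    (h : ∀ (s : Finset X), ∀ ε > 0, ∃ c, P c ∧ ∀ x ∈ s, ‖∑ i, c i * A x i - Q x‖ ≤ ε) :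
    ∃ c : Finset X × ℕ → ι → ℂ, (∀ j, P (c j)) ∧
      ∀ x, Tendsto (fun j => ∑ i, c j i * A x i) atTop (𝓝 (Q x)) := by
  classical
  choose c h1 h2 using fun j : Finset X × ℕ => h j.1 (1 / (j.2 + 1 : ℝ)) (by positivity)
  refine ⟨c, h1, fun x => tendsto_iff_norm_sub_tendsto_zero.2 (squeeze_zero'
    (.of_forall fun _ => norm_nonneg _) ((eventually_ge_atTop ({x}, 0)).mono fun j hj =>
      h2 j x (hj.1 (Finset.mem_singleton_self x))) ?_)⟩
  exact tendsto_one_div_add_atTop_nhds_zero_nat.comp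
    (prod_atTop_atTop_eq (α := Finset X) (β := ℕ) ▸ tendsto_snd)

/-- approximate relations with coefficients in a compact set give a relation -/
theorem relC {P : Set (ι → ℂ)} (hP : IsCompact P)
    (h : ∀ (s : Finset X), ∀ ε > 0, ∃ c ∈ P, ∀ x ∈ s, ‖∑ i, c i * A x i‖ ≤ ε) :
    ∃ c ∈ P, ∀ x, ∑ i, c i * A x i = 0 := by
  classical
  obtain ⟨c, h1, h2⟩ := netC (P := fun c => c ∈ P) (Q := 0) (A := A) (by simpa using h)
  obtain ⟨a, ha, hc⟩ := hP.exists_mapClusterPt (f := atTop) (u := c)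
    (le_principal_iff.2 (mem_map.2 (univ_mem' h1)))
  refine ⟨a, ha, fun x => ?_⟩
  have := (hc.continuousAt_comp (f := fun c : ι → ℂ => ∑ i, c i * A x i)
    (Continuous.continuousAt (by fun_prop))).clusterPt
  exact t2_iff_nhds.1 inferInstance (this.mono (h2 x))

/-- finite dimensional spans are closed -/
theorem spanC {Q : X → ℂ}
    (h : ∀ (s : Finset X), ∀ ε > 0, ∃ c : ι → ℂ, ∀ x ∈ s, ‖∑ i, c i * A x i - Q x‖ ≤ ε) :
    ∃ c : ι → ℂ, ∀ x, Q x = ∑ i, c i * A x i := by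
  classical
  obtain ⟨c, -, h2⟩ := netC (P := fun _ => True) (Q := Q) (A := A) (by simpa using h)
  obtain ⟨a, ha⟩ := (LinearMap.range (Fintype.linearCombination ℂ fun i x => A x i)
    ).closed_of_finiteDimensional.mem_of_tendsto (tendsto_pi_nhds.2 h2) (.of_forall fun j =>
      ⟨c j, by
        ext x
        simp [Fintype.linearCombination_apply]⟩)
  exact ⟨a, fun x => by simp [← ha, Fintype.linearCombination_apply]⟩

end

/-- approximate expansions with approximate vectors -/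
theorem red {X : Type} {A : X → Fin 3 → ℂ} {a₀ : Fin 3 → ℂ}
    (h0 : ∀ c : Fin 3 → ℂ, c 1 = 0 → (∀ x, ∑ i, c i * A x i = 0) → c = 0)
    (ha : ∀ x, ∑ i, a₀ i * A x i = 0) (a1 : a₀ 1 = 1) : ∃ s₀ : Finset X, ∀ s, s₀ ⊆ s →
    ∀ (G : X → Fin 3 → ℂ) (η B : ℝ), (∀ δ > 0, ∃ (a c : Fin 3 → ℂ) (w : X → Fin 3 → ℂ),
      ‖a‖ = 1 ∧ ‖c 1‖ ≤ B ∧ ∀ x ∈ s, ‖∑ i, a i * A x i‖ ≤ δ ∧ ‖w x - A x‖ ≤ δ ∧
        ‖∑ i, a i * G x i - ∑ j, c j * w x j‖ ≤ η) →
    ∃ c : Fin 3 → ℂ, ∀ x ∈ s, ‖∑ j, c j * A x j - ∑ i, a₀ i * G x i‖ ≤ ‖a₀‖ * η := by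
  obtain ⟨s₀, h1⟩ : ∃ s₀ : Finset X, ∀ c : Fin 3 → ℂ, c 1 = 0 →
      (∀ x ∈ s₀, ∑ i, c i * A x i = 0) → c = 0 := by
    by_contra! hc
    obtain ⟨c, ⟨c1, c2⟩, c3⟩ := relC (A := A) ((isCompact_sphere (0 : Fin 3 → ℂ) 1).inter_right
      (isClosed_eq (continuous_apply 1) (continuous_const (y := 0)))) fun s ε e0 => by
        obtain ⟨c, c1, c2, c3⟩ := hc s
        refine ⟨(‖c‖⁻¹ : ℂ) • c, ⟨by simp [norm_smul, c3], by simp [c1]⟩, fun x hx => ?_⟩
        simp only [Pi.smul_apply, smul_eq_mul, mul_assoc, ← Finset.mul_sum, c2 x hx, mul_zero,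
          norm_zero, e0.le]
    simp [h0 c c2 c3] at c1
  refine ⟨s₀, fun s hs G η B h => ?_⟩
  choose a c w h2 h3 h4 using fun n : ℕ => h (1 / (n + 1 : ℝ)) (by positivity)
  have N0 : ∀ n, 0 < max 1 ‖c n‖ := fun n => by positivity
  obtain ⟨⟨a', c', t⟩, -, φ, hφ, l⟩ := ((isCompact_closedBall (0 : Fin 3 → ℂ) 1).prod
    ((isCompact_closedBall (0 : Fin 3 → ℂ) 1).prod (isCompact_Icc (a := (0 : ℝ)) (b := 1)))
    ).tendsto_subseq (x := fun n => (a n, (max 1 ‖c n‖)⁻¹ • c n, (max 1 ‖c n‖)⁻¹)) fun n =>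
      ⟨by simp [h2], by simp [norm_smul, abs_of_pos (N0 n), inv_mul_le_iff₀ (N0 n)],
        by positivity, inv_le_one_of_one_le₀ (le_max_left _ _)⟩
  have la : Tendsto (fun n => a (φ n)) atTop (𝓝 a') := l.fst_nhds
  have lc : Tendsto (fun n => (max 1 ‖c (φ n)‖)⁻¹ • c (φ n)) atTop (𝓝 c') := l.snd_nhds.fst_nhds
  have lt : Tendsto (fun n => (max 1 ‖c (φ n)‖)⁻¹) atTop (𝓝 t) := l.snd_nhds.snd_nhds
  have l0 := (tendsto_one_div_add_atTop_nhds_zero_nat (𝕜 := ℝ)).comp hφ.tendsto_atTop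
  have lw : ∀ x ∈ s, Tendsto (fun n => w (φ n) x) atTop (𝓝 (A x)) := fun x hx =>
    tendsto_iff_norm_sub_tendsto_zero.2 (squeeze_zero (fun _ => norm_nonneg _)
      (fun n => (h4 _ x hx).2.1) l0)
  have ls : ∀ {u v : ℕ → Fin 3 → ℂ} {u' v'}, Tendsto u atTop (𝓝 u') → Tendsto v atTop (𝓝 v') →
      Tendsto (fun n => ∑ i, u n i * v n i) atTop (𝓝 (∑ i, u' i * v' i)) := fun hu hv =>
    tendsto_finsetSum _ fun i _ => (tendsto_pi_nhds.1 hu i).mul (tendsto_pi_nhds.1 hv i)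
  have e1 : ‖a'‖ = 1 := tendsto_nhds_unique la.norm (by simp [h2])
  have e2 : max t ‖c'‖ = 1 := tendsto_nhds_unique (lt.max lc.norm) (tendsto_const_nhds.congr
    fun n => by
      rw [norm_smul, Real.norm_of_nonneg (by positivity), ← mul_one (_⁻¹), mul_assoc, one_mul,
        ← mul_max_of_nonneg _ _ (by positivity), inv_mul_cancel₀ (N0 _).ne'])
  have e3 : ‖c' 1‖ ≤ t * B := le_of_tendsto_of_tendsto' (tendsto_pi_nhds.1 lc 1).norm
    (lt.mul_const B) fun n => by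
      rw [Pi.smul_apply, norm_smul, Real.norm_of_nonneg (by positivity)]
      exact mul_le_mul_of_nonneg_left (h3 _) (by positivity)
  have e4 : ∀ x ∈ s, ∑ i, a' i * A x i = 0 := fun x hx => norm_le_zero_iff.1
    (le_of_tendsto_of_tendsto' (ls la tendsto_const_nhds).norm l0 fun n => (h4 _ x hx).1)
  have e5 : ∀ x ∈ s, ‖t • ∑ i, a' i * G x i - ∑ j, c' j * A x j‖ ≤ t * η := fun x hx =>
    le_of_tendsto_of_tendsto' ((lt.smul (ls la tendsto_const_nhds)).sub (ls lc (lw x hx))).norm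
      (lt.mul_const η) fun n => by
        simp only [Pi.smul_apply, smul_mul_assoc, ← Finset.smul_sum, ← smul_sub, norm_smul]
        rw [Real.norm_of_nonneg (by positivity)]
        exact mul_le_mul_of_nonneg_left (h4 _ x hx).2.2 (by positivity)
  have t0 : 0 < t := (ge_of_tendsto' lt fun n => by positivity).lt_of_ne' fun e => by
    rw [e, h1 c' (by simpa [e] using e3) fun x hx => by simpa [e] using e5 x (hs hx)] at e2
    simp at e2
  have e6 : a' = a' 1 • a₀ := sub_eq_zero.1 (h1 _ (by simp [a1]) fun x hx => by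
    simp only [Pi.sub_apply, Pi.smul_apply, smul_eq_mul, sub_mul, Finset.sum_sub_distrib, mul_assoc,
      ← Finset.mul_sum, e4 x (hs hx), ha, mul_zero, sub_zero])
  rw [e6, norm_smul] at e1
  have a0 : a' 1 ≠ 0 := fun e => by simp [e] at e1
  refine ⟨(t * a' 1 : ℂ)⁻¹ • c', fun x hx => ?_⟩
  have := e5 x hx
  rw [e6] at this
  simp only [Pi.smul_apply, smul_eq_mul, mul_assoc, ← Finset.mul_sum, a1, mul_one] at this ⊢
  rw [show ∀ u v : ℂ, (t * a' 1 : ℂ)⁻¹ * u - v = -(t * a' 1 : ℂ)⁻¹ * (t • (a' 1 * v) - u) from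
    fun u v => by rw [Complex.real_smul]; field_simp [t0.ne']; ring, norm_mul, norm_neg, norm_inv,
    norm_mul, Complex.norm_real, Real.norm_of_nonneg t0.le,
    inv_mul_le_iff₀ (by positivity)]
  exact this.trans_eq (by linear_combination -t * η * e1)

/-- polarisation -/
theorem pol {V : Type} [AddCommGroup V] [Module ℂ V] (p : Submodule ℂ V) {A : Fin 4 → Fin 4 → V}
    (hs : ∀ μ ν, A μ ν = A ν μ)
    (h : ∀ n : E4, ‖n‖ = 1 → ∑ μ, ∑ ν, ((n μ * n ν : ℝ) : ℂ) • A μ ν ∈ p) (μ ν : Fin 4) :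
    A μ ν ∈ p := by
  have h1 : ∀ μ, A μ μ ∈ p := fun μ => by
    simpa [ite_smul] using h (EuclideanSpace.single μ 1) (by simp)
  by_cases e : μ = ν
  · exact e ▸ h1 μ
  have := h (EuclideanSpace.single μ (3 / 5) + EuclideanSpace.single ν (4 / 5)) (by
    rw [EuclideanSpace.norm_eq, Real.sqrt_eq_one]
    fin_cases μ <;> fin_cases ν <;> simp [Fin.sum_univ_four] at e ⊢ <;> norm_num)
  simp only [PiLp.add_apply, PiLp.single_apply, add_mul, mul_add, ite_mul, mul_ite, zero_mul,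
    mul_zero, Complex.ofReal_add, apply_ite Complex.ofReal, Complex.ofReal_zero, add_smul, ite_smul,
    zero_smul, Finset.sum_add_distrib, Finset.sum_ite_eq', Finset.mem_univ, if_true, hs ν μ,
    Finset.sum_ite_irrel, Finset.sum_const_zero] at this
  convert p.smul_mem (25 / 24) (p.sub_mem (p.sub_mem this (p.smul_mem (9 / 25) (h1 μ)))
    (p.smul_mem (16 / 25) (h1 ν))) using 1
  push_cast
  module

variable {K : Set E4}

/-- the distributions of order one form a vector space -/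
def DisS (K : Set E4) : Submodule ℂ ((E4 → ℝ) → ℂ) where
  carrier := {Λ | Dis K Λ}
  add_mem' {Λ Λ'} h h' := ⟨fun g g' c a b => by
    simp only [Pi.add_apply, h.lin g g' c a b, h'.lin g g' c a b]; ring,
    let ⟨C, e⟩ := h.bd
    let ⟨C', e'⟩ := h'.bd
    ⟨C + C', fun g L a b => (norm_add_le _ _).trans
      ((add_le_add (e g L a b) (e' g L a b)).trans_eq (add_mul _ _ _).symm)⟩⟩
  zero_mem' := ⟨by simp, 0, by simp⟩
  smul_mem' c Λ h := ⟨fun g g' t a b => by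
    simp only [Pi.smul_apply, h.lin g g' t a b, smul_eq_mul]; ring,
    let ⟨C, e⟩ := h.bd
    ⟨‖c‖ * C, fun g L a b => (norm_smul_le _ _).trans
      ((mul_le_mul_of_nonneg_left (e g L a b) (norm_nonneg c)).trans_eq (mul_assoc _ _ _).symm)⟩⟩

theorem Dis.congr {Λ Λ' : (E4 → ℝ) → ℂ} (h : Dis K Λ) (e : ∀ g, Ts K g → Λ' g = Λ g) : Dis K Λ' :=
  ⟨fun g g' c a b => by rw [e _ (a.add (b.smul c)), e _ a, e _ b, h.lin g g' c a b],
    h.bd.imp fun _ h g L a b => e g a ▸ h g L a b⟩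

variable {f f' : E4 → ℝ} {μ : Fin 4}

theorem pd_far {c : ℝ} {y : E4} (h : ∀ᶠ z in 𝓝 y, f z = c) : y ∉ tsupport (pd μ f) :=
  notMem_tsupport_iff_eventuallyEq.2 (h.eventually_nhds.mono fun _ hz => pd_const hz μ)

theorem pd_ts : tsupport (pd μ f) ⊆ tsupport f := fun _ hy => by_contra fun e =>
  pd_far (notMem_tsupport_iff_eventuallyEq.1 e) hy

theorem pd_cpt (h : HasCompactSupport f) : HasCompactSupport (pd μ f) :=
  h.of_isClosed_subset (isClosed_tsupport _) pd_ts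

theorem pd_add (h : Differentiable ℝ f) (h' : Differentiable ℝ f') (c : ℝ) :
    pd μ (f + c • f') = pd μ f + c • pd μ f' := by
  rw [pd_eq (h.add (h'.const_smul c)), pd_eq h, pd_eq h']
  funext y
  rw [fderiv_add (h y) ((h' y).const_smul c), fderiv_const_smul (h' y)]
  rfl

theorem pd_rot (h : Differentiable ℝ f) (g : E4 ≃ₗᵢ[ℝ] E4) : (fun y => pd μ f (g.symm y)) =
    ∑ i, g (EuclideanSpace.single μ 1) i • pd i fun y => f (g.symm y) := by
  have h' : Differentiable ℝ fun y => f (g.symm y) := h.comp g.symm.differentiable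
  funext y
  simp only [pd_eq h, pd_eq h', Finset.sum_apply, Pi.smul_apply, ← map_smul, ← map_sum]
  rw [show ∑ i, g (EuclideanSpace.single μ 1) i • EuclideanSpace.single i (1 : ℝ) = _ by
    simpa using (EuclideanSpace.basisFun (Fin 4) ℝ).sum_repr (g (EuclideanSpace.single μ 1)),
    HasFDerivAt.fderiv (f := fun y => f (g.symm y))
      ((h _).hasFDerivAt.comp y g.symm.toContinuousLinearEquiv.hasFDerivAt)]
  simp

theorem pd_sc {D : ℝ} (h : Differentiable ℝ f) :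
    pd μ (fun y => f (D • y)) = D • fun y => pd μ f (D • y) := by
  rw [pd_eq (f := fun y => f (D • y)) (h.comp (by fun_prop)), pd_eq h]
  funext y
  rw [HasFDerivAt.fderiv (f := fun y => f (D • y))
    ((h _).hasFDerivAt.comp y ((hasFDerivAt_id y).const_smul D))]
  simp

theorem pd_sub (v : E4) : pd μ (fun y => f (y - v)) = fun y => pd μ f (y - v) := by
  funext y
  simp only [pd, lineDeriv, add_sub_right_comm]

end Pool.Agent.Lib.MP_7f377f_mp.St
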