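import Pool.Agent.Lib.MP_7f377f_mp.StFx
import Pool.Agent.Lib.MP_7f377f_mp.StS

/-! A second non vanishing functional of the free three point function. -/

noncomputable section

namespace Pool.Agent.Lib.MP_7f377f_mp.Fx

open MeasureTheory Filter Topology Set Real Metric
open scoped ContDiff

/-- three points on the first axis -/
def pk : Fin 3 → E4 := ![(2⁻¹ : ℝ) • e0, e0, -e0]

/-- the three point function as a function of a configuration -/
def t3 (μ ν : Fin 4) (y : Fin 3 → E4) : ℝ := tt μ ν (y 0) (y 1) (y 2)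

/-- its derivative in the first point -/
def d3 (μ ν l : Fin 4) (y : Fin 3 → E4) : ℝ :=
  fderiv ℝ (t3 μ ν) y (Pi.single 0 (EuclideanSpace.single l 1))

theorem pk_far {i j : Fin 3} (h : i ≠ j) : Disjoint (ball (pk i) 8⁻¹) (ball (pk j) 8⁻¹) := by
  refine ball_disjoint_ball ?_
  rw [dist_eq_norm]
  refine le_trans ?_ (PiLp.norm_apply_le (pk i - pk j) 0)
  fin_cases i <;> fin_cases j <;> simp [pk, e0] at h ⊢ <;> norm_num [abs_of_pos, abs_of_neg]

theorem t3_smooth {y : Fin 3 → E4} (h : ∀ i, y i ∈ ball (pk i) 8⁻¹) (μ ν : Fin 4) :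
    ContDiffAt ℝ 2 (t3 μ ν) y := by
  have ne : ∀ i j, i ≠ j → ‖y i - y j‖ ^ 2 ≠ 0 := fun i j e =>
    pow_ne_zero 2 (norm_ne_zero_iff.2 (sub_ne_zero.2 fun z =>
      disjoint_left.1 (pk_far e) (h i) (z ▸ h j)))
  have n : ∀ i j, ContDiffAt ℝ 2 (fun y : Fin 3 → E4 => ‖y i - y j‖ ^ 2) y := fun i j =>
    ContDiffAt.norm_sq ℝ (by fun_prop)
  have v : ContDiffAt ℝ 2 (fun y : Fin 3 → E4 => vv (y 0) (y 1) (y 2)) y :=
    (((n 1 0).inv (ne 1 0 (by decide))).smul (by fun_prop)).sub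
      (((n 2 0).inv (ne 2 0 (by decide))).smul (by fun_prop))
  have c : ∀ μ, ContDiffAt ℝ 2 (fun y : Fin 3 → E4 => vv (y 0) (y 1) (y 2) μ) y := fun μ =>
    (EuclideanSpace.proj (𝕜 := ℝ) μ).contDiff.contDiffAt.comp y v
  have e6 : ∀ x : ℝ, x ^ 6 = (x ^ 2) ^ 3 := fun x => by ring
  unfold t3 tt
  simp only [e6]
  refine ContDiffAt.div (((c μ).mul (c ν)).sub ?_) (((n 1 0).mul (n 2 0)).mul ((n 1 2).pow 3))
    (mul_ne_zero (mul_ne_zero (ne 1 0 (by decide)) (ne 2 0 (by decide)))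
      (pow_ne_zero 3 (ne 1 2 (by decide))))
  split_ifs
  · exact (v.norm_sq ℝ).div_const 4
  · exact contDiffAt_const

theorem d3_cont {y : Fin 3 → E4} (h : ∀ i, y i ∈ ball (pk i) 8⁻¹) (μ ν l : Fin 4) :
    ContinuousAt (d3 μ ν l) y :=
  (((t3_smooth h μ ν).fderiv_right (m := 1) le_rfl).clm_apply contDiffAt_const).continuousAt

theorem ibp3 {g : Fin 3 → E4 → ℝ} (h : ∀ i, ContDiff ℝ ∞ (g i) ∧ HasCompactSupport (g i) ∧
    tsupport (g i) ⊆ ball (pk i) 8⁻¹) (μ ν l : Fin 4) :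
    ∫ y : Fin 3 → E4, (∏ i, ![pd l (g 0), g 1, g 2] i (y i)) * tt μ ν (y 0) (y 1) (y 2) =
      -∫ y : Fin 3 → E4, (∏ i, g i (y i)) * d3 μ ν l y := by
  have c0 := (h 0).1.continuous
  have c1 := (h 1).1.continuous
  have c2 := (h 2).1.continuous
  have c3 := (pd_smooth (h 0).1 l).continuous
  have z0 : ∀ (y : Fin 3 → E4) i, y i ∉ tsupport (g i) → ∏ i, g i (y i) = 0 := fun y i e =>
    Finset.prod_eq_zero (Finset.mem_univ i) (image_eq_zero_of_notMem_tsupport e)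
  have z1 : ∀ (y : Fin 3 → E4) i, y i ∉ tsupport (g i) →
      ∏ i, ![pd l (g 0), g 1, g 2] i (y i) = 0 := fun y i e =>
    Finset.prod_eq_zero (Finset.mem_univ i) (by
      fin_cases i
      · exact pd_const (notMem_tsupport_iff_eventuallyEq.1 e) l
      · exact image_eq_zero_of_notMem_tsupport e
      · exact image_eq_zero_of_notMem_tsupport e)
  have int : ∀ {F G : (Fin 3 → E4) → ℝ}, Continuous F →
      (∀ y, (∀ i, y i ∈ ball (pk i) 8⁻¹) → ContinuousAt G y) →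
      (∀ y i, y i ∉ tsupport (g i) → F y = 0) → Integrable fun y => F y * G y :=
    fun hF hG h0 => (integrableOn_iff_integrable_of_support_subset
      (s := pi univ fun i => tsupport (g i))
      fun y hy i _ => by_contra fun e => hy (by simp only [h0 y i e, zero_mul])).1
      (ContinuousOn.integrableOn_compact (isCompact_univ_pi fun i => (h i).2.1) fun y hy =>
        (hF.continuousAt.mul (hG y fun i => (h i).2.2 (hy i trivial))).continuousWithinAt)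
  have cf : Continuous fun y : Fin 3 → E4 => ∏ i, g i (y i) := by
    simp only [Fin.prod_univ_three]; fun_prop
  have cf' : Continuous fun y : Fin 3 → E4 => ∏ i, ![pd l (g 0), g 1, g 2] i (y i) := by
    simp only [Fin.prod_univ_three]
    show Continuous fun y : Fin 3 → E4 => pd l (g 0) (y 0) * g 1 (y 1) * g 2 (y 2)
    fun_prop
  have := integral_bilinear_hasLineDerivAt_right_eq_neg_left_of_integrable (μ := volume)
    (f := fun y : Fin 3 → E4 => ∏ i, g i (y i))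
    (f' := fun y => ∏ i, ![pd l (g 0), g 1, g 2] i (y i)) (g := t3 μ ν) (g' := d3 μ ν l)
    (v := Pi.single 0 (EuclideanSpace.single l 1)) (B := ContinuousLinearMap.mul ℝ ℝ)
    (int cf' (fun y hy => (t3_smooth hy μ ν).continuousAt) z1)
    (int cf (fun y hy => d3_cont hy μ ν l) z0)
    (int cf (fun y hy => (t3_smooth hy μ ν).continuousAt) z0)
    (fun y _ => ?_) fun y hy => ?_
  · simp only [ContinuousLinearMap.mul_apply'] at this
    rw [this, neg_neg]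
    rfl
  · have := (((h 0).1.differentiable (by simp) (y 0)).lineDifferentiableAt
      (v := EuclideanSpace.single l 1)).hasLineDerivAt
    simp only [Fin.prod_univ_three]
    exact (HasDerivAt.mul_const (HasDerivAt.mul_const this (g 1 (y 1)))
      (g 2 (y 2))).congr_of_eventuallyEq (.of_forall fun t => by simp)
  · refine ((t3_smooth (fun i => (h i).2.2 (by_contra fun e => ?_)) μ ν).differentiableAt
      (by simp)).hasFDerivAt.hasLineDerivAt _
    exact (notMem_tsupport_iff_eventuallyEq.2 (Eventually.mono ((continuous_apply i).continuousAt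
      ((isClosed_tsupport _).isOpen_compl.mem_nhds e)) fun x hx => z0 x i hx)) hy

theorem pk_mem (i : Fin 3) : pk i ∈ ball (pk i) 8⁻¹ := mem_ball_self (by norm_num)

theorem d3_line (μ ν l : Fin 4) : HasDerivAt (fun s : ℝ =>
    tt μ ν ((2⁻¹ : ℝ) • e0 + s • EuclideanSpace.single l 1) e0 (-e0)) (d3 μ ν l pk) 0 :=
  HasDerivAt.congr_of_eventuallyEq
    (((t3_smooth pk_mem μ ν).differentiableAt (by simp)).hasFDerivAt.hasLineDerivAt
      (Pi.single 0 (EuclideanSpace.single l 1))) (.of_forall fun s => by simp [t3, pk])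

theorem d3_zero : d3 1 1 0 pk - d3 0 0 0 pk < 0 := by
  have d := (d3_line 1 1 0).sub (d3_line 0 0 0)
  have d' : HasDerivAt (fun s : ℝ => -16⁻¹ * ((1 - (2⁻¹ + s) ^ 2) ^ 4)⁻¹)
      (-16⁻¹ * (4 * (3 / 4) ^ 3 / ((3 / 4) ^ 4) ^ 2)) 0 := by
    refine ((((((hasDerivAt_id' (0 : ℝ)).const_add 2⁻¹).fun_pow 2).const_sub 1).fun_pow 4).fun_inv
      (by norm_num)).const_mul (-16⁻¹) |>.congr_deriv ?_
    norm_num
  have e := d.unique (d'.congr_of_eventuallyEq ?_)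
  · rw [e]; norm_num
  filter_upwards [Ioo_mem_nhds (show (-4⁻¹ : ℝ) < 0 by norm_num) (show (0 : ℝ) < 4⁻¹ by norm_num)]
    with s hs
  have a1 : (1 - (2⁻¹ + s)) ≠ 0 := by linarith [hs.2]
  have a2 : (1 + (2⁻¹ + s)) ≠ 0 := by linarith [hs.1]
  have n1 : ‖e0 - ((2⁻¹ : ℝ) • e0 + s • EuclideanSpace.single 0 1)‖ ^ 2 = (1 - (2⁻¹ + s)) ^ 2 := by
    simp [EuclideanSpace.real_norm_sq_eq, Fin.sum_univ_four, e0]
  have n2 : ‖-e0 - ((2⁻¹ : ℝ) • e0 + s • EuclideanSpace.single 0 1)‖ ^ 2 =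
      (1 + (2⁻¹ + s)) ^ 2 := by
    simp [EuclideanSpace.real_norm_sq_eq, Fin.sum_univ_four, e0]
    ring
  have n3 : ‖e0 - -e0‖ = 2 := by rw [sub_neg_eq_add, ← two_smul ℝ, norm_smul, norm_e0]; norm_num
  simp only [Pi.sub_apply, tt, vv, n1, n2, n3, if_true]
  rw [← sub_div, sub_sub_sub_cancel_right,
    show (1 - (2⁻¹ + s) ^ 2 : ℝ) = (1 - (2⁻¹ + s)) * (1 + (2⁻¹ + s)) by ring]
  simp only [PiLp.sub_apply, PiLp.smul_apply, PiLp.add_apply, PiLp.neg_apply, e0,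
    EuclideanSpace.single_apply, smul_eq_mul, if_true, one_ne_zero, if_false, mul_one, mul_zero]
  generalize 2⁻¹ + s = t at a1 a2
  have a3 : -1 - t = -(1 + t) := by ring
  rw [a3]
  field_simp
  ring

theorem d3_one : d3 0 1 1 pk < 0 := by
  have d := d3_line 0 1 1
  obtain ⟨F, hF⟩ : ∃ F : ℝ → ℝ, F = fun s => ((4⁻¹ + s ^ 2)⁻¹ * 2⁻¹ + (9 / 4 + s ^ 2)⁻¹ * (3 / 2)) *
    ((9 / 4 + s ^ 2)⁻¹ - (4⁻¹ + s ^ 2)⁻¹) / ((4⁻¹ + s ^ 2) * (9 / 4 + s ^ 2) * 2 ^ 6) := ⟨_, rfl⟩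
  have F1 : DifferentiableAt ℝ F 0 := by
    rw [hF]
    fun_prop (disch := norm_num)
  have d' := (hasDerivAt_id' (0 : ℝ)).fun_mul F1.hasDerivAt
  have e := d.unique (d'.congr_of_eventuallyEq (.of_forall fun s => ?_))
  · rw [e, hF]; norm_num
  have n1 : ‖e0 - ((2⁻¹ : ℝ) • e0 + s • EuclideanSpace.single 1 1)‖ ^ 2 = 4⁻¹ + s ^ 2 := by
    simp [EuclideanSpace.real_norm_sq_eq, Fin.sum_univ_four, e0]
    ring
  have n2 : ‖-e0 - ((2⁻¹ : ℝ) • e0 + s • EuclideanSpace.single 1 1)‖ ^ 2 = 9 / 4 + s ^ 2 := by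
    simp [EuclideanSpace.real_norm_sq_eq, Fin.sum_univ_four, e0]
    ring
  have n3 : ‖e0 - -e0‖ = 2 := by rw [sub_neg_eq_add, ← two_smul ℝ, norm_smul, norm_e0]; norm_num
  simp only [tt, vv, n1, n2, n3, hF]
  simp only [PiLp.sub_apply, PiLp.smul_apply, PiLp.add_apply, PiLp.neg_apply, e0,
    EuclideanSpace.single_apply, smul_eq_mul, if_true, one_ne_zero, zero_ne_one, if_false, mul_one,
    mul_zero]
  ring

theorem ck_ne : ∃ (ξ : E4 → ℝ) (g : Fin 2 → E4 → ℝ),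
    (∀ i, ContDiff ℝ ∞ (![ξ, g 0, g 1] i) ∧ HasCompactSupport (![ξ, g 0, g 1] i)) ∧
    (Pairwise fun i j => Disjoint (tsupport (![ξ, g 0, g 1] i)) (tsupport (![ξ, g 0, g 1] j))) ∧
    (∫ y : Fin 3 → E4, (∏ i, ![pd 0 ξ, g 0, g 1] i (y i)) * tt 1 1 (y 0) (y 1) (y 2)) -
      (∫ y : Fin 3 → E4, (∏ i, ![pd 0 ξ, g 0, g 1] i (y i)) * tt 0 0 (y 0) (y 1) (y 2)) +
      2 * (∫ y : Fin 3 → E4, (∏ i, ![pd 1 ξ, g 0, g 1] i (y i)) * tt 0 1 (y 0) (y 1) (y 2)) ≠ 0 := by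
  have c := fun μ ν l => (conc pk (F := d3 μ ν l) (measurable_fderiv_apply_const ℝ _ _)
    (d3_cont pk_mem μ ν l)).neg
  obtain ⟨n, hn⟩ := ((((c 1 1 0).sub (c 0 0 0)).add ((c 0 1 1).const_mul 2)).eventually_ne
    (show _ ≠ (0 : ℝ) by linarith [d3_zero, d3_one])).exists
  have a : ∀ i, ContDiff ℝ ∞ (bu n (pk i)) ∧ HasCompactSupport (bu n (pk i)) ∧
      tsupport (bu n (pk i)) ⊆ ball (pk i) 8⁻¹ := fun i => bu_adm n _
  have e : ∀ i, ![bu n (pk 0), bu n (pk 1), bu n (pk 2)] i = bu n (pk i) := fun i => by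
    fin_cases i <;> rfl
  refine ⟨bu n (pk 0), ![bu n (pk 1), bu n (pk 2)], fun i => ?_, fun i j h => ?_, ?_⟩
  · exact (e i).symm ▸ ⟨(a i).1, (a i).2.1⟩
  · have := (pk_far h).mono (a i).2.2 (a j).2.2
    rwa [← e i, ← e j] at this
  · simp only [← ibp3 a] at hn
    exact hn

end Pool.Agent.Lib.MP_7f377f_mp.Fx
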