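import Pool.Agent.Lib.MP_7f377f_mp.StFx

/-! The tensor of a pair of radial profiles. -/

noncomputable section

namespace Pool.Agent.Lib.MP_7f377f_mp.Fx

open MeasureTheory Filter Topology Set Real Metric

/-- the coefficient of the traceless part -/
def kap (h : E4 → ℝ) : ℝ :=
  ∫ x, ∫ y, h (x - e0) * h (y - e0) * (((x + y) 0 ^ 2 - (x + y) 1 ^ 2) / ‖x + y‖ ^ 6)

/-- the integrand -/
def kk (h : E4 → ℝ) (n v w : E4) (p : E4 × E4) : ℝ :=
  h (p.1 - n) * h (p.2 - n) * (inner ℝ v (p.1 + p.2) * inner ℝ w (p.1 + p.2) / ‖p.1 + p.2‖ ^ 6)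

variable {h : E4 → ℝ} {n : E4}

theorem sum_ne {x y : E4} (hn : ‖n‖ = 1) (hx : ‖x - n‖ < 1) (hy : ‖y - n‖ < 1) : x + y ≠ 0 :=
  fun e => by
    have := norm_add_le (x - n) (y - n)
    rw [show x - n + (y - n) = x + y - (2 : ℝ) • n by module, e, zero_sub, norm_neg, norm_smul,
      hn] at this
    norm_num at this
    linarith

theorem kk_int (hc : Continuous h) (hs : tsupport h ⊆ ball 0 1) (hn : ‖n‖ = 1) (v w : E4) :
    Integrable (kk h n v w) (volume.prod volume) := by
  have k : IsCompact (tsupport h) :=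
    isCompact_of_isClosed_isBounded (isClosed_tsupport _) (isBounded_ball.subset hs)
  let K := ((fun x => x + n) '' tsupport h) ×ˢ ((fun x => x + n) '' tsupport h)
  have k2 : IsCompact K := (k.image (by fun_prop)).prod (k.image (by fun_prop))
  refine (integrableOn_iff_integrable_of_support_subset (s := K) fun p hp => ?_).1
    (ContinuousOn.integrableOn_compact k2 (ContinuousOn.mul (by fun_prop) (ContinuousOn.div
      (by fun_prop) (by fun_prop) ?_)))
  · exact ⟨⟨_, subset_tsupport _ (left_ne_zero_of_mul (left_ne_zero_of_mul hp)), sub_add_cancel _ _⟩,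
      _, subset_tsupport _ (right_ne_zero_of_mul (left_ne_zero_of_mul hp)), sub_add_cancel _ _⟩
  · rintro ⟨_, _⟩ ⟨⟨x, hx, rfl⟩, y, hy, rfl⟩
    exact pow_ne_zero _ (norm_ne_zero_iff.2 (sum_ne hn (by simpa using hs hx) (by simpa using hs hy)))

theorem kk_rot (hr : ∀ x y, ‖x‖ = ‖y‖ → h x = h y) (R : E4 ≃ₗᵢ[ℝ] E4) (n v w : E4) :
    ∫ p, kk h (R n) (R v) (R w) p ∂volume.prod volume = ∫ p, kk h n v w p ∂volume.prod volume := by
  rw [← (R.measurePreserving.prod R.measurePreserving).integral_comp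
    (R.toHomeomorph.prodCongr R.toHomeomorph).measurableEmbedding]
  refine integral_congr_ae (.of_forall fun p => ?_)
  simp only [kk, Prod.map_fst, Prod.map_snd, ← map_add, ← map_sub, R.inner_map_map, R.norm_map,
    hr _ _ (R.norm_map _)]

theorem kap_tensor (hc : Continuous h) (hs : tsupport h ⊆ ball 0 1)
    (hr : ∀ x y, ‖x‖ = ‖y‖ → h x = h y) (hn : ‖n‖ = 1) : ∃ B : ℝ, ∀ μ ν,
    ∫ x, ∫ y, h (x - n) * h (y - n) * ((x + y) μ * (x + y) ν / ‖x + y‖ ^ 6) =
      kap h * (n μ * n ν) + if μ = ν then B else 0 := by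
  have I := kk_int hc hs norm_e0
  let b := EuclideanSpace.basisFun (Fin 4) ℝ
  let M : E4 →ₗ[ℝ] E4 →ₗ[ℝ] ℝ := LinearMap.mk₂ ℝ
    (fun v w => ∫ p, kk h e0 v w p ∂volume.prod volume)
    (fun _ _ _ => by
      rw [← integral_add (I _ _) (I _ _)]
      simp only [kk, inner_add_left, add_mul, add_div, mul_add])
    (fun _ _ _ => by
      simp only [kk, smul_eq_mul, ← integral_const_mul, real_inner_smul_left]
      exact congrArg _ (funext fun _ => by ring))
    (fun _ _ _ => by
      rw [← integral_add (I _ _) (I _ _)]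
      simp only [kk, inner_add_left, add_div, mul_add])
    fun _ _ _ => by
      simp only [kk, smul_eq_mul, ← integral_const_mul, real_inner_smul_left]
      exact congrArg _ (funext fun _ => by ring)
  have inv : ∀ u v w : E4, u 0 = 0 →
      M ((ℝ ∙ u)ᗮ.reflection v) ((ℝ ∙ u)ᗮ.reflection w) = M v w := fun u v w hu => by
    have := kk_rot hr (ℝ ∙ u)ᗮ.reflection e0 v w
    rwa [Submodule.reflection_mem_subspace_eq_self (by
      simp [Submodule.mem_orthogonal_singleton_iff_inner_right, e0,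
        EuclideanSpace.inner_single_right, hu])] at this
  have fx : ∀ i j, i ≠ j → (ℝ ∙ b i)ᗮ.reflection (b j) = b j := fun i j e =>
    Submodule.reflection_mem_subspace_eq_self
      (Submodule.mem_orthogonal_singleton_iff_inner_right.2 (b.orthonormal.2 e))
  have off : ∀ i j, i ≠ j → M (b i) (b j) = 0 := fun i j e => by
    by_cases h0 : i = 0
    · have := inv (b j) (b i) (b j) (by simp [b, ← h0, e])
      rw [fx j i e.symm, Submodule.reflection_orthogonalComplement_singleton_eq_neg, map_neg] at this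
      linarith
    · have := inv (b i) (b i) (b j) (by simp [b, Ne.symm h0])
      rw [fx i j e, Submodule.reflection_orthogonalComplement_singleton_eq_neg, map_neg,
        LinearMap.neg_apply] at this
      linarith
  have dia : ∀ i, i ≠ 0 → M (b i) (b i) = M (b 1) (b 1) := fun i e => by
    have := inv (b i - b 1) (b i) (b i) (by simp [b, e.symm])
    rw [Submodule.reflection_sub (by simp)] at this
    exact this.symm
  have k : kap h = M (b 0) (b 0) - M (b 1) (b 1) := by
    rw [LinearMap.mk₂_apply, LinearMap.mk₂_apply, ← integral_sub (I _ _) (I _ _),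
      integral_prod (fun a => kk h e0 (b 0) (b 0) a - kk h e0 (b 1) (b 1) a) ((I _ _).sub (I _ _))]
    simp only [kap, kk, b, EuclideanSpace.basisFun_apply, EuclideanSpace.inner_single_left,
      map_one, one_mul, ← mul_sub, ← sub_div, sq]
  have all : ∀ v w, M v w = kap h * (v 0 * w 0) + M (b 1) (b 1) * inner ℝ v w := fun v w => by
    conv_lhs => rw [← b.sum_repr v, ← b.sum_repr w]
    simp only [map_sum, map_smul, LinearMap.sum_apply, LinearMap.smul_apply, smul_eq_mul]
    simp (disch := decide) only [Fin.sum_univ_four, off, dia 2, dia 3, k, PiLp.inner_apply]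
    simp [b]
    ring
  let R := (ℝ ∙ (e0 - n))ᗮ.reflection
  have r1 : R e0 = n := Submodule.reflection_sub (norm_e0.trans hn.symm)
  have r2 : ∀ μ, R.symm (b μ) 0 = n μ := fun μ => by
    have := R.inner_map_map e0 (R.symm (b μ))
    rw [r1] at this
    simpa [e0, b, EuclideanSpace.inner_single_left, EuclideanSpace.inner_single_right]
      using this.symm
  refine ⟨M (b 1) (b 1), fun μ ν => ?_⟩
  have e := kk_rot hr R e0 (R.symm (b μ)) (R.symm (b ν))
  rw [R.apply_symm_apply, R.apply_symm_apply, r1, integral_prod _ (kk_int hc hs hn _ _)] at e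
  have e' := e.trans (all _ _)
  rw [r2, r2, R.symm.inner_map_map, orthonormal_iff_ite.1 b.orthonormal, mul_ite, mul_one,
    mul_zero] at e'
  simpa only [kk, b, EuclideanSpace.basisFun_apply, EuclideanSpace.inner_single_left,
    map_one, one_mul] using e'

theorem kap_pos (hc : Continuous h) (hs : tsupport h ⊆ ball 0 2⁻¹) (h0 : 0 ≤ h) (h1 : h ≠ 0) :
    0 < kap h := by
  have hs' := hs.trans (ball_subset_ball (show (2⁻¹ : ℝ) ≤ 1 by norm_num))
  let b := EuclideanSpace.basisFun (Fin 4) ℝ
  have I := (kk_int hc hs' norm_e0 (b 0) (b 0)).sub (kk_int hc hs' norm_e0 (b 1) (b 1))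
  have e : kk h e0 (b 0) (b 0) - kk h e0 (b 1) (b 1) = fun p => h (p.1 - e0) * h (p.2 - e0) *
      (((p.1 + p.2) 0 ^ 2 - (p.1 + p.2) 1 ^ 2) / ‖p.1 + p.2‖ ^ 6) := funext fun p => by
    simp only [Pi.sub_apply, kk, b, EuclideanSpace.basisFun_apply, EuclideanSpace.inner_single_left,
      map_one, one_mul, ← mul_sub, ← sub_div, sq]
  rw [e] at I
  have p : ∀ x y : E4, h (x - e0) ≠ 0 → h (y - e0) ≠ 0 →
      0 < ((x + y) 0 ^ 2 - (x + y) 1 ^ 2) / ‖x + y‖ ^ 6 := fun x y hx hy => by
    have x1 : ‖x - e0‖ < 2⁻¹ := by simpa using hs (subset_tsupport _ hx)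
    have y1 : ‖y - e0‖ < 2⁻¹ := by simpa using hs (subset_tsupport _ hy)
    have c : ∀ {z : E4} l, ‖z - e0‖ < 2⁻¹ → |z l - e0 l| < 2⁻¹ := fun l e =>
      (PiLp.norm_apply_le (_ - e0) l).trans_lt e
    have a1 := abs_lt.1 (c 0 x1)
    have a2 := abs_lt.1 (c 0 y1)
    have a3 := abs_lt.1 (c 1 x1)
    have a4 := abs_lt.1 (c 1 y1)
    simp [e0] at a1 a2 a3 a4
    refine div_pos ?_ (pow_pos (norm_pos_iff.2 (sum_ne norm_e0 (by linarith) (by linarith))) _)
    simp only [PiLp.add_apply]
    nlinarith [a1.1, a2.1, a3.1, a3.2, a4.1, a4.2]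
  rw [kap, ← integral_prod _ I, integral_pos_iff_support_of_nonneg (fun q => ?_) I]
  · obtain ⟨x, hx⟩ := Function.ne_iff.1 h1
    refine ((isOpen_ne_fun (f := fun q : E4 × E4 => h (q.1 - e0) * h (q.2 - e0)) (by fun_prop)
      continuous_const).measure_pos _ ⟨(x + e0, x + e0), by simpa using hx⟩).trans_le
      (measure_mono fun q hq => mul_ne_zero hq
        (p _ _ (left_ne_zero_of_mul hq) (right_ne_zero_of_mul hq)).ne')
  · by_cases hq : h (q.1 - e0) * h (q.2 - e0) = 0
    · simp only [hq, zero_mul, Pi.zero_apply, le_refl]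
    · exact mul_nonneg (mul_nonneg (h0 _) (h0 _))
        (p _ _ (left_ne_zero_of_mul hq) (right_ne_zero_of_mul hq)).le

/-- radial profiles which are separated from their mirror image -/
theorem rad_pair {u : E4 → ℝ} {p : E4} (hr : ∀ x y, dist x p = dist y p → u x = u y)
    (hd : Disjoint (tsupport u) (tsupport fun y => u (-y))) : tsupport u ⊆ ball p ‖p‖ := by
  have key : ∀ x ∈ tsupport u, ∀ y, dist x p = dist y p → y ∈ tsupport u := fun x hx y e => by
    let R := (ℝ ∙ ((x - p) - (y - p)))ᗮ.reflection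
    have r : R (x - p) = y - p := Submodule.reflection_sub (by simpa only [dist_eq_norm] using e)
    have : u = fun z => u (R (z - p) + p) := funext fun z => hr _ _ (by
      rw [dist_eq_norm, dist_eq_norm, add_sub_cancel_right, R.norm_map])
    rw [this] at hx
    simpa only [mem_preimage, r, sub_add_cancel] using
      tsupport_comp_subset_preimage u (f := fun z => R (z - p) + p) (by fun_prop) hx
  intro x hx
  by_contra c
  rw [mem_ball, not_lt] at c
  obtain ⟨v, v1, v2⟩ : ∃ v : E4, ‖v‖ = 1 ∧ inner ℝ v p = 0 := by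
    obtain ⟨v, hv, v0⟩ := (Submodule.ne_bot_iff (ℝ ∙ p)ᗮ).1 fun e => by
      have := Submodule.finrank_add_finrank_orthogonal (ℝ ∙ p)
      have h2 := finrank_span_le_card (R := ℝ) {p}
      rw [e] at this
      simp at this h2
      omega
    exact ⟨‖v‖⁻¹ • v, norm_smul_inv_norm v0, by
      rw [real_inner_smul_left, Submodule.mem_orthogonal_singleton_iff_inner_left.1 hv, mul_zero]⟩
  have d : ∀ s : ℝ, s ^ 2 = dist x p ^ 2 - ‖p‖ ^ 2 → dist x p = dist (s • v) p := fun s hs => by
    rw [← sq_eq_sq₀ dist_nonneg dist_nonneg, dist_eq_norm (s • v), norm_sub_sq_real,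
      real_inner_smul_left, v2, norm_smul, v1, mul_one, Real.norm_eq_abs, sq_abs, hs]
    ring
  have q := sq_sqrt (sub_nonneg.2 (pow_le_pow_left₀ (norm_nonneg _) c 2))
  refine disjoint_left.1 hd (key x hx _ (d _ q)) ?_
  have := key x hx _ (d (-√_) ((neg_sq _).trans q))
  rw [show u = fun z => (fun y => u (-y)) (-z) by simp] at this
  simpa using tsupport_comp_subset_preimage (fun y => u (-y)) (f := fun z => -z) (by fun_prop) this

end Pool.Agent.Lib.MP_7f377f_mp.Fx
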