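import Mathlib

/-! Stage 15: linear relations, distributions of order one, Riemann sums. -/

noncomputable section

namespace Pool.Agent.Lib.MP_7f377f_mp.St

open Filter Topology Set MeasureTheory Metric BoundedContinuousFunction InnerProductSpace
open scoped NNReal

section
variable {ι X : Type} [Fintype ι] {A : ι → X → ℂ}

theorem net {P : (ι → ℝ) → Prop} {Q : X → ℂ}
    (h : ∀ (s : Finset X), ∀ ε > 0, ∃ c, P c ∧ ∀ x ∈ s, ‖∑ i, c i * A i x - Q x‖ ≤ ε) :
    ∃ c : Finset X × ℕ → ι → ℝ, (∀ j, P (c j)) ∧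
      ∀ x, Tendsto (fun j => ∑ i, c j i * A i x) atTop (𝓝 (Q x)) := by
  classical
  choose c h1 h2 using fun j : Finset X × ℕ => h j.1 (1 / (j.2 + 1 : ℝ)) (by positivity)
  refine ⟨c, h1, fun x => tendsto_iff_norm_sub_tendsto_zero.2 (squeeze_zero'
    (.of_forall fun _ => norm_nonneg _) ((eventually_ge_atTop ({x}, 0)).mono fun j hj =>
      h2 j x (hj.1 (Finset.mem_singleton_self x))) ?_)⟩
  exact tendsto_one_div_add_atTop_nhds_zero_nat.comp
    (prod_atTop_atTop_eq (α := Finset X) (β := ℕ) ▸ tendsto_snd)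

/-- approximate relations with normalised coefficients give a relation -/
theorem rel (h : ∀ (s : Finset X), ∀ ε > 0, ∃ c : ι → ℝ, ‖c‖ = 1 ∧ ∀ x ∈ s, ‖∑ i, c i * A i x‖ ≤ ε) :
    ∃ c : ι → ℝ, c ≠ 0 ∧ ∀ x, ∑ i, c i * A i x = 0 := by
  classical
  obtain ⟨c, h1, h2⟩ := net (P := fun c => ‖c‖ = 1) (Q := 0) (A := A) (by simpa using h)
  obtain ⟨a, ha, hc⟩ := (isCompact_sphere (0 : ι → ℝ) 1).exists_mapClusterPt (f := atTop) (u := c)
    (le_principal_iff.2 (mem_map.2 (univ_mem' fun j => by simpa using h1 j)))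
  refine ⟨a, fun e => by simp [e] at ha, fun x => ?_⟩
  have := (hc.continuousAt_comp (f := fun c : ι → ℝ => ∑ i, c i * A i x)
    (Continuous.continuousAt (by fun_prop))).clusterPt
  exact t2_iff_nhds.1 inferInstance (this.mono (h2 x))

/-- finite dimensional spans are closed -/
theorem span {Q : X → ℂ}
    (h : ∀ (s : Finset X), ∀ ε > 0, ∃ c : ι → ℝ, ∀ x ∈ s, ‖∑ i, c i * A i x - Q x‖ ≤ ε) :
    ∃ c : ι → ℝ, ∀ x, Q x = ∑ i, c i * A i x := by
  classical
  obtain ⟨c, -, h2⟩ := net (P := fun _ => True) (Q := Q) (A := A) (by simpa using h)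
  obtain ⟨a, ha⟩ := (LinearMap.range (Fintype.linearCombination ℝ A)).closed_of_finiteDimensional
    |>.mem_of_tendsto (tendsto_pi_nhds.2 h2) (.of_forall fun j => ⟨c j, by
      ext x
      simp [Fintype.linearCombination_apply]⟩)
  exact ⟨a, fun x => by simp [← ha, Fintype.linearCombination_apply]⟩

end

/-- Euclidean space -/
abbrev E4 : Type := EuclideanSpace ℝ (Fin 4)

/-- test functions -/
def Ts (O : Set E4) (g : E4 → ℝ) : Prop := HasCompactSupport g ∧ ContDiff ℝ 1 g ∧ tsupport g ⊆ O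

/-- distributions of order one -/
structure Dis (K : Set E4) (Λ : (E4 → ℝ) → ℂ) : Prop where
  lin : ∀ g g' (c : ℝ), Ts K g → Ts K g' → Λ (g + c • g') = Λ g + c * Λ g'
  bd : ∃ C : ℝ, ∀ g (L : ℝ≥0), Ts K g → LipschitzWith L g → ‖Λ g‖ ≤ C * L

/-- rescaled and translated functions -/
def sc (h : E4 → ℝ) (d : ℝ) (z y : E4) : ℝ := d⁻¹ ^ 4 * h (d⁻¹ • (y - z))

/-- lattice points -/
def pt (ε : ℝ) (z : Fin 4 → ℤ) : E4 := WithLp.toLp 2 fun l => ε * z l

/-- bounded functions with bounded continuous derivative -/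
def B0 : Submodule ℝ ((E4 →ᵇ ℝ) × (E4 →ᵇ E4)) where
  carrier := {p | ∀ x, HasFDerivAt p.1 (toDual ℝ E4 (p.2 x)) x}
  add_mem' h h' x := ((h x).add (h' x)).congr_fderiv (map_add _ _ _).symm
  zero_mem' x := (hasFDerivAt_const _ x).congr_fderiv (map_zero _).symm
  smul_mem' c _ h x := ((h x).const_smul c).congr_fderiv (by simp)

/-- the same as a type -/
def B1 : Type := B0

instance : NormedAddCommGroup B1 := inferInstanceAs (NormedAddCommGroup B0)

instance : NormedSpace ℝ B1 := inferInstanceAs (NormedSpace ℝ B0)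

instance : CompleteSpace B1 := (show IsClosed (B0 : Set ((E4 →ᵇ ℝ) × (E4 →ᵇ E4))) from
  IsSeqClosed.isClosed fun _ _ h t x => hasFDerivAt_of_tendstoUniformly
    ((toDual ℝ E4).isometry.uniformContinuous.comp_tendstoUniformly
      (tendsto_iff_tendstoUniformly.1 t.snd_nhds)) h (fun x =>
    (tendsto_iff_tendstoUniformly.1 t.fst_nhds).tendsto_at x) x).completeSpace_coe

/-- evaluation -/
def ev (y : E4) : B1 →L[ℝ] ℝ := (evalCLM ℝ y ∘L .fst ℝ _ _) ∘L B0.subtypeL

/-- the underlying function -/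
def fn (p : B1) (y : E4) : ℝ := ev y p

theorem fn_der (p : B1) (x : E4) : HasFDerivAt (fn p) (toDual ℝ E4 (p.1.2 x)) x := p.2 x

theorem b1_ext {p q : B1} (h : ∀ y, ev y p = ev y q) : p = q :=
  Subtype.ext (Prod.ext (BoundedContinuousFunction.ext h) (BoundedContinuousFunction.ext fun x =>
    (toDual ℝ E4).injective ((fn_der p x).unique ((funext h : fn p = fn q) ▸ fn_der q x))))

/-- translation -/
def tr (x : E4) (p : B1) : B1 := ⟨(p.1.1.compContinuous ⟨fun y => y - x, by fun_prop⟩,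
  p.1.2.compContinuous ⟨fun y => y - x, by fun_prop⟩), fun y =>
    ((p.2 (y - x)).comp y (hasFDerivAt_sub_const x)).congr_fderiv (by simp)⟩

theorem ev_tr (x y : E4) (p : B1) : ev y (tr x p) = fn p (y - x) := rfl

theorem norm_tr (x : E4) (p : B1) : ‖tr x p‖ ≤ ‖p‖ :=
  max_le_max (norm_compContinuous_le _ _) (norm_compContinuous_le _ _)

theorem cont_sub {F : Type} [NormedAddCommGroup F] {u : E4 →ᵇ F} (h : UniformContinuous u) :
    Continuous fun x : E4 => u.compContinuous ⟨fun y => y - x, by fun_prop⟩ :=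
  Metric.continuous_iff.2 fun x ε ε0 => by
    obtain ⟨δ, δ0, e⟩ := Metric.uniformContinuous_iff.1 h _ (half_pos ε0)
    refine ⟨δ, δ0, fun a ha => lt_of_le_of_lt ((dist_le (half_pos ε0).le).2 fun y => ?_)
      (half_lt_self ε0)⟩
    exact (e (a := y - a) (b := y - x) (by rwa [dist_sub_left])).le

/-- functions which vanish outside `K` -/
def CK (K : Set E4) : Submodule ℝ B1 := ⨅ y ∈ Kᶜ, (ev y).ker

theorem mem_CK {K : Set E4} {p : B1} : p ∈ CK K ↔ ∀ y ∉ K, fn p y = 0 := by
  simp only [CK, Submodule.mem_iInf]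
  rfl

instance (K : Set E4) : CompleteSpace (CK K) := (show IsClosed (CK K : Set B1) by
  simp only [CK, Submodule.coe_iInf]
  exact isClosed_iInter fun y => isClosed_iInter fun _ => (ev y).isClosed_ker).completeSpace_coe

variable {K O : Set E4} {g g' h : E4 → ℝ} {Λ : (E4 → ℝ) → ℂ}

theorem Ts.mono (hg : Ts K g) (e : K ⊆ O) : Ts O g := ⟨hg.1, hg.2.1, hg.2.2.trans e⟩

theorem Ts.zero : Ts O 0 := ⟨HasCompactSupport.zero, contDiff_const, by simp⟩

theorem Ts.add (hg : Ts O g) (hg' : Ts O g') : Ts O (g + g') :=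
  ⟨hg.1.add hg'.1, hg.2.1.add hg'.2.1, (tsupport_add _ _).trans (union_subset hg.2.2 hg'.2.2)⟩

theorem Ts.smul (hg : Ts O g) (t : ℝ) : Ts O (t • g) :=
  ⟨hg.1.smul_left (f := fun _ => t), hg.2.1.const_smul t,
    (tsupport_smul_subset_right (fun _ => t) g).trans hg.2.2⟩

theorem cont_tr {p : B1} (h1 : UniformContinuous p.1.1) (h2 : UniformContinuous p.1.2) :
    Continuous fun x => tr x p := ((cont_sub h1).prodMk (cont_sub h2)).subtype_mk _

theorem exists_bcf {F : Type} [NormedAddCommGroup F] {f : E4 → F} (c : Continuous f)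
    (s : HasCompactSupport f) : ∃ u : E4 →ᵇ F, ⇑u = f ∧ UniformContinuous u :=
  let ⟨C, hC⟩ := c.bounded_above_of_compact_support s
  ⟨ofNormedAddCommGroup f c C hC, rfl, s.uniformContinuous_of_continuous c⟩

theorem Ts.jet (hg : Ts O g) : ∃ p : B1, fn p = g ∧ p ∈ CK O ∧ Continuous fun x => tr x p := by
  obtain ⟨u, hu, c1⟩ := exists_bcf hg.2.1.continuous hg.1
  obtain ⟨v, hv, c2⟩ := exists_bcf (f := fun x => (toDual ℝ E4).symm (fderiv ℝ g x))
    ((toDual ℝ E4).symm.continuous.comp (hg.2.1.continuous_fderiv one_ne_zero))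
    ((hg.1.fderiv ℝ).mono fun x hx e => hx (by simp [e]))
  obtain ⟨p, p1, p2⟩ : ∃ p : B1, p.1.1 = u ∧ p.1.2 = v := ⟨⟨(u, v), fun x => by
    simpa [hu, hv] using (hg.2.1.differentiable one_ne_zero x).hasFDerivAt⟩, rfl, rfl⟩
  have e : fn p = g := (congrArg (⇑) p1).trans hu
  exact ⟨p, e, mem_CK.2 fun y hy => e ▸ image_eq_zero_of_notMem_tsupport fun e => hy (hg.2.2 e),
    cont_tr (p1 ▸ c1) (p2 ▸ c2)⟩

theorem ts_CK (hK : IsCompact K) (p : CK K) : Ts K (fn p) := by
  have s : tsupport (fn p) ⊆ K := closure_minimal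
    (fun y hy => by_contra fun e => hy (mem_CK.1 p.2 y e)) hK.isClosed
  exact ⟨hK.of_isClosed_subset isClosed_closure s, contDiff_one_iff_hasFDerivAt.2
    ⟨_, (toDual ℝ E4).continuous.comp p.1.1.2.continuous, fn_der p⟩, s⟩

theorem Dis.zero (hΛ : Dis K Λ) : Λ 0 = 0 :=
  let ⟨_, hC⟩ := hΛ.bd
  by simpa using hC 0 0 .zero (.const 0)

theorem Dis.clm (hK : IsCompact K) (hΛ : Dis K Λ) : ∃ L : CK K →L[ℝ] ℂ, ∀ p, L p = Λ (fn p) := by
  obtain ⟨C, hC⟩ := hΛ.bd
  refine ⟨LinearMap.mkContinuous ⟨⟨fun p => Λ (fn p), fun p q => ?_⟩, fun c p => ?_⟩ C fun p =>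
    hC _ ‖p‖₊ (ts_CK hK p) (lipschitzWith_of_nnnorm_fderiv_le (𝕜 := ℝ)
      (fun x => (fn_der p x).differentiableAt) fun x => ?_), fun _ => rfl⟩
  · have := hΛ.lin _ _ 1 (ts_CK hK p) (ts_CK hK q)
    rwa [one_smul, Complex.ofReal_one, one_mul] at this
  · have := hΛ.lin _ _ c .zero (ts_CK hK p)
    rwa [zero_add, hΛ.zero, zero_add] at this
  · rw [(fn_der p x).fderiv, LinearIsometryEquiv.nnnorm_map]
    exact (p.1.1.2.norm_coe_le_norm x).trans (norm_snd_le p.1.1)

/-- Banach-Steinhaus theorem -/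
theorem Dis.lim {κ : Type} {l : Filter κ} [l.NeBot] [l.IsCountablyGenerated]
    {A : κ → (E4 → ℝ) → ℂ} (hK : IsCompact K) (hA : ∀ᶠ j in l, Dis K (A j))
    (h : ∀ g, Ts K g → Tendsto (fun j => A j g) l (𝓝 (Λ g))) : Dis K Λ := by
  choose! L hL using fun j => Dis.clm (Λ := A j) hK
  let M := continuousLinearMapOfTendsto L (f := fun p => Λ (fn p)) (l := l) (tendsto_pi_nhds.2
    fun p => (h _ (ts_CK hK p)).congr' (hA.mono fun j e => (hL j e p).symm))
  obtain ⟨R, hR⟩ := hK.isBounded.subset_ball_lt 0 0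
  refine ⟨fun g g' c hg hg' => tendsto_nhds_unique (h _ (hg.add (hg'.smul c)))
    (((h g hg).add ((h g' hg').const_mul (c : ℂ))).congr'
      (hA.mono fun j e => (e.lin g g' c hg hg').symm)), ‖M‖ * (2 * R + 1), fun g C hg hC => ?_⟩
  obtain ⟨p, rfl, p3, -⟩ := hg.jet
  have R0 := hR.1
  rw [mul_assoc]
  refine M.le_of_opNorm_le_of_le (x := ⟨p, p3⟩) le_rfl (max_le ((norm_le (by positivity)).2
    fun y => show ‖fn p y‖ ≤ _ from ?_) ((norm_le (by positivity)).2 fun y =>
      show ‖p.1.2 y‖ ≤ _ from ?_))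
  · by_cases e : y ∈ K
    · have := hC.dist_le_mul y (EuclideanSpace.single 0 R)
      rw [mem_CK.1 p3 (EuclideanSpace.single 0 R) fun e => by simpa [abs_of_pos R0] using hR.2 e,
        dist_zero_right, mul_comm] at this
      refine this.trans (mul_le_mul_of_nonneg_right ((dist_triangle y 0 _).trans ?_) C.2)
      simp only [dist_zero, PiLp.norm_single, Real.norm_eq_abs, abs_of_pos R0]
      linarith [mem_ball.1 (hR.2 e)]
    · rw [mem_CK.1 p3 y e, norm_zero]
      positivity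
  · rw [← (toDual ℝ E4).norm_map, ← (fn_der p y).fderiv]
    exact (norm_fderiv_le_of_lipschitz ℝ hC).trans (le_mul_of_one_le_left C.2 (by linarith))

theorem Ts.sc (hh : Ts (ball 0 1) h) {d : ℝ} (d0 : 0 < d) (z : E4) : Ts (ball z d) (sc h d z) := by
  have s : tsupport (St.sc h d z) ⊆ ball z d := fun y hy => by
    have := hh.2.2 (tsupport_comp_subset_preimage h (f := fun y => d⁻¹ • (y - z)) (by fun_prop)
      (tsupport_mul_subset_right hy))
    rwa [mem_ball_zero_iff, norm_smul, norm_inv, Real.norm_of_nonneg d0.le, inv_mul_lt_iff₀ d0,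
      mul_one, ← mem_ball_iff_norm] at this
  exact ⟨(isCompact_closedBall z d).of_isClosed_subset isClosed_closure
    (s.trans ball_subset_closedBall), contDiff_const.mul (hh.2.1.comp (by fun_prop)), s⟩

/-- approximation by superpositions of small bumps -/
theorem Dis.appr (hK : IsCompact K) (hΛ : Dis K Λ) (hg : Ts O g) {r : ℝ} (r0 : 0 < r)
    (hr : cthickening r (tsupport g) ⊆ K) (hh : Ts (ball 0 1) h) (h1 : ∫ y, h y = 1) :
    (∀ d ∈ Ioc 0 r, Continuous fun z => g z * Λ (sc h d z)) ∧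
      Tendsto (fun d => ∫ z, g z * Λ (sc h d z)) (𝓝[>] 0) (𝓝 (Λ g)) := by
  obtain ⟨L0, h0⟩ := hΛ.clm hK
  obtain ⟨L, rfl⟩ := L0.exist_extension_of_finiteDimensional_range
  have hL : ∀ p ∈ CK K, L p = Λ (fn p) := fun p hp => h0 ⟨p, hp⟩
  obtain ⟨p, rfl, -, p4⟩ := hg.jet
  have c0 : ∀ d : ℝ, Continuous fun u => h u • tr (d • u) p := fun d =>
    hh.2.1.continuous.smul (p4.comp (continuous_const_smul d))
  have key : ∀ d ∈ Ioc 0 r, (Continuous fun z => fn p z * Λ (sc h d z)) ∧
      ∫ z, fn p z * Λ (sc h d z) = L (∫ u, h u • tr (d • u) p) := fun d hd => by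
    obtain ⟨q, q1, q3, q4⟩ := (hh.sc hd.1 0).jet
    have c : Continuous fun z => fn p z • tr z q := hg.2.1.continuous.smul q4
    have i1 := c.integrable_of_hasCompactSupport (μ := volume) hg.1.smul_right
    have e : ∀ z, fn p z * Λ (sc h d z) = L (fn p z • tr z q) := fun z => by
      by_cases e : fn p z = 0
      · simp [e]
      rw [map_smul, hL _ (mem_CK.2 fun y hy => mem_CK.1 q3 (y - z) fun e' => hy (hr
        (mem_cthickening_of_dist_le y z r _ (subset_closure e)
          ((dist_eq_norm y z).trans_le ((mem_ball_zero_iff.1 e').le.trans hd.2))))), Complex.real_smul]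
      exact congrArg (_ * Λ ·) (funext fun y => ((congrFun q1 (y - z)).trans (by simp [sc])).symm)
    simp only [e]
    refine ⟨L.continuous.comp c, (L.integral_comp_comm i1).trans (congrArg L (b1_ext fun y => ?_))⟩
    rw [← (ev y).integral_comp_comm i1, ← (ev y).integral_comp_comm
      ((c0 d).integrable_of_hasCompactSupport hh.1.smul_right), ← integral_sub_left_eq_self _ _ y]
    have := Measure.integral_comp_smul_of_nonneg volume
      (fun x => h (d⁻¹ • x) * fn p (y - x)) d (hR := hd.1.le)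
    simp only [map_smul, ev_tr, smul_eq_mul, sub_sub_cancel, q1, sc, sub_zero, mul_left_comm,
      integral_const_mul, inv_smul_smul₀ hd.1.ne', finrank_euclideanSpace, Fintype.card_fin,
      ← inv_pow] at this ⊢
    rw [this]
    simp only [mul_comm]
  refine ⟨fun d hd => (key d hd).1, Tendsto.congr' ((eventually_of_mem (Ioc_mem_nhdsGT r0)
    fun d hd => (key d hd).2.symm)) ?_⟩
  have t := tendsto_integral_filter_of_dominated_convergence (l := 𝓝[>] (0 : ℝ)) (μ := volume)
    (F := fun d u => h u • tr (d • u) p) (f := fun u => h u • p) (fun u => ‖h u‖ * ‖p‖)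
    (.of_forall fun d => (c0 d).aestronglyMeasurable)
    (.of_forall fun d => ae_of_all _ fun u => (norm_smul_le _ _).trans
      (mul_le_mul_of_nonneg_left (norm_tr _ _) (norm_nonneg _)))
    ((hh.2.1.continuous.integrable_of_hasCompactSupport hh.1).norm.mul_const _)
    (ae_of_all _ fun u => Tendsto.const_smul (tendsto_nhdsWithin_of_tendsto_nhds
      ((p4.comp (by fun_prop : Continuous fun d : ℝ => d • u)).tendsto' 0 _
        (b1_ext fun y => by simp [ev_tr, fn]))) _)
  rw [integral_smul_const, h1, one_smul] at t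
  rw [← hL p (mem_CK.2 fun y hy => image_eq_zero_of_notMem_tsupport fun e =>
    hy (hr (self_subset_cthickening _ e)))]
  exact (L.continuous.tendsto p).comp t

/-- the corner of the cell of a point -/
def fl (ε : ℝ) (y : E4) (l : Fin 4) : ℤ := ⌊y l / ε⌋

theorem fl_near {ε : ℝ} (hε : 0 < ε) (y : E4) : dist (pt ε (fl ε y)) y ≤ 2 * ε := by
  have h : ∀ l, (ε * fl ε y l - y l) ^ 2 ≤ ε ^ 2 := fun l => by
    have h1 := (le_div_iff₀ hε).1 (Int.floor_le (y l / ε))
    have h2 := (div_lt_iff₀ hε).1 (Int.lt_floor_add_one (y l / ε))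
    exact sq_le_sq' (by rw [fl]; linarith) (by rw [fl]; linarith)
  rw [dist_eq_norm]
  refine le_of_sq_le_sq ?_ (by positivity)
  simp only [EuclideanSpace.real_norm_sq_eq, Fin.sum_univ_four, PiLp.sub_apply, pt]
  linarith [h 0, h 1, h 2, h 3]

/-- Riemann sums -/
theorem riem {F : E4 → ℂ} (hF : Continuous F) (hs : HasCompactSupport F) :
    Tendsto (fun ε : ℝ => ε ^ 4 * ∑' z, F (pt ε z)) (𝓝[>] 0) (𝓝 (∫ y, F y)) := by
  have m : ∀ ε, Measurable (fl ε) := fun ε =>
    measurable_pi_lambda _ fun l => Measurable.floor (Measurable.div_const (by fun_prop) _)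
  have hm : ∀ ε, AEStronglyMeasurable (fun y => F (pt ε (fl ε y))) volume := fun ε =>
    ((Measurable.of_discrete (f := fun z => F (pt ε z))).comp (m ε)).aestronglyMeasurable
  obtain ⟨C, hC⟩ := hF.bounded_above_of_compact_support hs
  have hK := hs.isCompact.cthickening (r := 2)
  have hb : Integrable ((cthickening 2 (tsupport F)).indicator fun _ => C) :=
    (integrable_indicator_iff hK.measurableSet).2 (integrableOn_const hK.measure_lt_top.ne)
  have hd : ∀ᶠ ε in 𝓝[>] (0 : ℝ), 0 < ε ∧ ∀ y, ‖F (pt ε (fl ε y))‖ ≤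
      (cthickening 2 (tsupport F)).indicator (fun _ => C) y := by
    filter_upwards [Ioo_mem_nhdsGT one_pos] with ε hε
    refine ⟨hε.1, fun y => ?_⟩
    by_cases h : F (pt ε (fl ε y)) = 0
    · rw [h, norm_zero]
      exact indicator_nonneg (fun _ _ => (norm_nonneg _).trans (hC 0)) y
    · rw [indicator_of_mem (mem_cthickening_of_dist_le y _ 2 _ (subset_tsupport F h)
        (by linarith [fl_near hε.1 y, dist_comm y (pt ε (fl ε y)), hε.2]))]
      exact hC _
  refine (tendsto_integral_filter_of_dominated_convergence _ (.of_forall hm)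
    (hd.mono fun ε h => ae_of_all _ h.2) hb (ae_of_all _ fun y => (hF.tendsto y).comp
      (tendsto_iff_dist_tendsto_zero.2 (squeeze_zero' (.of_forall fun _ => dist_nonneg)
      (hd.mono fun ε h => fl_near h.1 y) (tendsto_nhdsWithin_of_tendsto_nhds
        (Continuous.tendsto' (by fun_prop) _ _ (by simp))))))).congr' (hd.mono fun ε h => ?_)
  have h0 : AEStronglyMeasurable (fun z => F (pt ε z)) (Measure.map (fl ε) volume) :=
    (Measurable.of_discrete).aestronglyMeasurable
  rw [← integral_map (m ε).aemeasurable h0, integral_countable ((integrable_map_measure h0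
    (m ε).aemeasurable).2 (hb.mono' (hm ε) (ae_of_all _ h.2)))]
  refine (tsum_congr fun z => ?_).trans tsum_mul_left
  have e : fl ε ⁻¹' {z} = WithLp.ofLp ⁻¹' (univ.pi fun l => Ico (z l * ε) ((z l + 1) * ε)) := by
    ext y
    simp only [mem_preimage, mem_singleton_iff, funext_iff, fl, Int.floor_eq_iff, Set.mem_pi,
      mem_univ, true_imp_iff, mem_Ico, le_div_iff₀ h.1, div_lt_iff₀ h.1]
  rw [Measure.real, Measure.map_apply (m ε) (measurableSet_singleton z), e,
    (PiLp.volume_preserving_ofLp (Fin 4)).measure_preimage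
      (MeasurableSet.univ_pi fun _ => measurableSet_Ico).nullMeasurableSet, Real.volume_pi_Ico]
  simp [add_mul, h.1.le]

end Pool.Agent.Lib.MP_7f377f_mp.St
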