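import Pool.Agent.Lib.MP_7f377f_mp.KitHol

/-! The second Taylor coefficient of a function which is holomorphic along lines is a quadratic
form. -/

namespace Pool.Agent.Lib.MP_7f377f_mp.Kit

open Metric Set Filter MeasureTheory Asymptotics
open scoped Topology

/-- the derivative in one variable is holomorphic in the other one -/
theorem deriv_holo {f : ℂ → ℂ → ℂ} {S : Set ℂ} (hS : IsOpen S) {r M : ℝ} (hr : 0 < r)
    (h1 : ∀ s ∈ S, DifferentiableOn ℂ (f s) (ball 0 r))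
    (h2 : ∀ t ∈ ball (0 : ℂ) r, DifferentiableOn ℂ (fun s => f s t) S)
    (hM : ∀ s ∈ S, ∀ t ∈ ball (0 : ℂ) r, ‖f s t‖ ≤ M) :
    DifferentiableOn ℂ (fun s => deriv (f s) 0) S := by
  have r2 : 0 < r / 2 := by positivity
  have hb : closedBall (0 : ℂ) (r / 2) ⊆ ball 0 r := closedBall_subset_ball (by linarith)
  have hc : ∀ θ, circleMap 0 (r / 2) θ ∈ ball (0 : ℂ) r := fun θ =>
    hb (circleMap_mem_closedBall _ r2.le θ)
  have hn : ∀ θ, ‖circleMap 0 (r / 2) θ‖ = r / 2 := fun θ => by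
    rw [norm_circleMap_zero, abs_of_pos r2]
  have key := holo_integral (volume.restrict (Ioc 0 (2 * Real.pi))) (M := r / 2 * (((r / 2) ^ 2)⁻¹ * M))
    (f := fun s θ => deriv (circleMap 0 (r / 2)) θ •
      (((circleMap 0 (r / 2) θ - 0) ^ 2)⁻¹ • f s (circleMap 0 (r / 2) θ))) hS
    (fun s hs => by
      refine Continuous.aestronglyMeasurable ?_
      have c1 : Continuous fun θ => f s (circleMap 0 (r / 2) θ) :=
        (h1 s hs).continuousOn.comp_continuous (continuous_circleMap _ _) hc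
      have c2 : Continuous fun θ => ((circleMap 0 (r / 2) θ - 0) ^ 2)⁻¹ :=
        Continuous.inv₀ (by fun_prop) fun θ => by
          rw [sub_zero, ← norm_ne_zero_iff, norm_pow, hn]; positivity
      simp only [deriv_circleMap]
      exact ((continuous_circleMap _ _).mul continuous_const).smul (c2.smul c1))
    (.of_forall fun θ => ⟨((h2 _ (hc θ)).const_mul _).const_mul _, fun s hs => by
      simp only [deriv_circleMap, norm_smul, norm_mul, norm_inv, norm_pow, sub_zero, hn,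
        Complex.norm_I, mul_one]
      gcongr
      exact hM s hs _ (hc θ)⟩)
  refine (key.const_smul (2 * Real.pi * Complex.I : ℂ)⁻¹).congr fun s hs => ?_
  rw [← Complex.cderiv_eq_deriv isOpen_ball (h1 s hs) r2 hb, Complex.cderiv, circleIntegral,
    intervalIntegral.integral_of_le (by positivity)]
  rfl

variable {E : Type} [AddCommGroup E] [Module ℂ E]

namespace Dom

variable {O : Dom E} {k : E → ℂ} {M : ℝ}

/-- balls of half the radius -/
def half (O : Dom E) : Dom E where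
  D θ := O.D (θ / 2)
  smul c θ B h := by simpa only [mul_div_assoc] using O.smul c h
  add h h' := by simpa only [add_div] using O.add h h'
  mono h hB := O.mono (by linarith) hB

theorem mem_half {θ : ℝ} {B : E} (h : B ∈ O.D θ) : B ∈ O.half.D (2 * θ) := by
  show B ∈ O.D (2 * θ / 2)
  rwa [mul_div_cancel_left₀ _ two_ne_zero]

/-- directional derivative -/
noncomputable def dv (k : E → ℂ) (B v : E) : ℂ := deriv (fun t : ℂ => k (B + t • v)) 0

theorem dv_smul (k : E → ℂ) (B v : E) (c : ℂ) : dv k B (c • v) = c * dv k B v := by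
  have := deriv_comp_mul_left c (fun t : ℂ => k (B + t • v)) 0
  simpa only [dv, smul_smul, mul_comm c, mul_zero, smul_eq_mul, zero_mul] using this

theorem common (hall : ∀ B, ∃ θ, B ∈ O.D θ) (v w : E) : ∃ θ, 0 < θ ∧ v ∈ O.D θ ∧ w ∈ O.D θ := by
  obtain ⟨a, ha⟩ := hall v
  obtain ⟨b, hb⟩ := hall w
  exact ⟨|a| + |b| + 1, by positivity, O.mono (by linarith [le_abs_self a, abs_nonneg b]) ha,
    O.mono (by linarith [le_abs_self b, abs_nonneg a]) hb⟩

theorem LH.dv_add (h : O.LH k) (hM : ∀ B ∈ O.D 1, ‖k B‖ ≤ M) (hall : ∀ B, ∃ θ, B ∈ O.D θ)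
    {B : E} (hB : B ∈ O.half.D 1) (v w : E) : dv k B (v + w) = dv k B v + dv k B w := by
  obtain ⟨θ, -, hv, hw⟩ := common hall v w
  have m : ∀ A ∈ O.half.D 1, B + A ∈ O.D 1 := fun A hA => O.mono (by norm_num) (O.add hB hA)
  exact LH.deriv_add (O := O.half) (k := fun A => k (B + A)) (fun A δ S hS hD => by
    simpa only [add_assoc] using h (B + A) δ S hS fun t ht => by
      simpa only [add_assoc] using m _ (hD t ht)) (fun A hA => hM _ (m A hA))
    (mem_half hv) (mem_half hw)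

theorem LH.dv_lh (h : O.LH k) (hM : ∀ B ∈ O.D 1, ‖k B‖ ≤ M) {θ : ℝ} (h0 : 0 < θ) {v : E}
    (hv : v ∈ O.D θ) : O.half.LH (fun B => dv k B v) ∧
      ∀ B ∈ O.half.D 1, ‖dv k B v‖ ≤ 2 * M / (2 * θ)⁻¹ := by
  have r0 : 0 < (2 * θ)⁻¹ := by positivity
  have m : ∀ B ∈ O.half.D 1, ∀ t ∈ ball (0 : ℂ) (2 * θ)⁻¹, B + t • v ∈ O.D 1 := fun B hB t ht =>
    line (lam := 1 / 2) hB hv h0.le (by field_simp; norm_num) ht
  refine ⟨fun B δ S hS hD => deriv_holo (f := fun s t => k (B + s • δ + t • v)) hS r0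
    (fun s hs => h _ v _ isOpen_ball (m _ (hD s hs))) (fun t ht => ?_)
    (fun s hs t ht => hM _ (m _ (hD s hs) t ht)), fun B hB => ?_⟩
  · simpa only [add_right_comm B (t • v)] using h (B + t • v) δ S hS fun s hs => by
      rw [add_right_comm]
      exact m _ (hD s hs) t ht
  · refine Complex.norm_deriv_le_div_of_mapsTo_ball (h B v _ isOpen_ball (m B hB))
      (fun t ht => ?_) r0
    rw [mem_closedBall_iff_norm]
    linarith [norm_sub_le (k (B + t • v)) (k (B + (0 : ℂ) • v)), hM _ (m B hB t ht),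
      hM _ (m B hB 0 (mem_ball_self r0))]

theorem ev_half (hall : ∀ B, ∃ θ, B ∈ O.D θ) (w : E) : ∀ᶠ s in 𝓝 (0 : ℂ), s • w ∈ O.half.D 1 := by
  obtain ⟨θ, h0, hw, -⟩ := common hall w w
  filter_upwards [ball_mem_nhds (0 : ℂ) (by positivity : 0 < (2 * θ)⁻¹)] with s hs
  have := line (r := 1 / 2) (zero hw le_rfl) hw h0.le (by field_simp; norm_num) hs
  rwa [zero_add] at this

/-- the second derivative at the origin -/
noncomputable def d2 (k : E → ℂ) (v w : E) : ℂ := deriv (fun s : ℂ => dv k (s • w) v) 0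

theorem d2_self (k : E → ℂ) (B : E) : d2 k B B = deriv (deriv fun t : ℂ => k (t • B)) 0 := by
  unfold d2 dv
  congr 1
  funext s
  have := deriv_comp_const_add (fun t : ℂ => k (t • B)) s 0
  simpa only [add_smul, add_zero] using this

theorem LH.bilin (h : O.LH k) (hM : ∀ B ∈ O.D 1, ‖k B‖ ≤ M) (hall : ∀ B, ∃ θ, B ∈ O.D θ) :
    ∃ β : E →ₗ[ℂ] E →ₗ[ℂ] ℂ, ∀ v w, β v w = d2 k v w := by
  have df : ∀ v w, DifferentiableAt ℂ (fun s : ℂ => dv k (s • w) v) 0 := fun v w => by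
    obtain ⟨θ, h0, hv, hw⟩ := common hall v w
    exact (h.dv_lh hM h0 hv).1.diffAt (mem_half hw)
  refine ⟨LinearMap.mk₂ ℂ (d2 k) (fun v v' w => ?_) (fun c v w => ?_) (fun v w w' => ?_)
    (fun c v w => ?_), fun _ _ => rfl⟩
  · rw [d2, d2, d2, ← deriv_fun_add (df v w) (df v' w)]
    exact EventuallyEq.deriv_eq ((ev_half hall w).mono fun s hs => h.dv_add hM hall hs v v')
  · simp only [d2, dv_smul, smul_eq_mul]
    exact deriv_const_mul c (df v w)
  · obtain ⟨θ, h0, hv, -⟩ := common hall v v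
    obtain ⟨η, -, hw, hw'⟩ := common hall w w'
    exact (h.dv_lh hM h0 hv).1.deriv_add (h.dv_lh hM h0 hv).2 (mem_half hw) (mem_half hw')
  · have := deriv_comp_mul_left c (fun s : ℂ => dv k (s • w) v) 0
    simpa only [d2, smul_smul, mul_comm c, mul_zero, smul_eq_mul, zero_mul] using this

theorem taylor_two {g : ℂ → ℂ} {r : ℝ} (hr : 0 < r) (hg : DifferentiableOn ℂ g (ball 0 r))
    (h0 : g 0 = 0) (h1 : deriv g 0 = 0) :
    (fun t => g t - t ^ 2 * (deriv (deriv g) 0 / 2)) =o[𝓝 0] fun t => ‖t‖ ^ 2 := by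
  have hd := ((hg.deriv isOpen_ball).differentiableAt (ball_mem_nhds _ hr)).hasDerivAt
  rw [hasDerivAt_iff_isLittleO] at hd
  have := (convex_ball (0 : ℂ) r).isLittleO_pow_succ (𝕜 := ℂ) (n := 1) (mem_ball_self hr)
    (f := fun t => g t - t ^ 2 * (deriv (deriv g) 0 / 2))
    (f' := fun t => ContinuousLinearMap.toSpanSingleton ℂ (deriv g t - t * deriv (deriv g) 0))
    (fun t ht => by
      refine HasFDerivAt.hasFDerivWithinAt (HasDerivAt.hasFDerivAt ?_)
      refine ((hg.differentiableAt (isOpen_ball.mem_nhds ht)).hasDerivAt.sub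
        ((hasDerivAt_pow 2 t).mul_const _)).congr_deriv ?_
      simp; ring)
    (by
      refine IsLittleO.mono ?_ nhdsWithin_le_nhds
      rw [← isLittleO_norm_left]
      simp only [ContinuousLinearMap.norm_toSpanSingleton, pow_one]
      simpa [h1] using hd.norm_norm)
  rw [nhdsWithin_eq_nhds.2 (ball_mem_nhds _ hr)] at this
  simpa [h0] using this

theorem LH.line_diff (h : O.LH k) {θ : ℝ} {B : E} (hB : B ∈ O.D θ) (h0 : 0 < θ) :
    DifferentiableOn ℂ (fun t : ℂ => k (t • B)) (ball 0 θ⁻¹) ∧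
      ∀ t ∈ ball (0 : ℂ) θ⁻¹, t • B ∈ O.D 1 := by
  have hl : ∀ t ∈ ball (0 : ℂ) θ⁻¹, 0 + t • B ∈ O.D 1 := fun t ht =>
    line (zero hB le_rfl) hB h0.le (by rw [inv_mul_cancel₀ h0.ne', zero_add]) ht
  exact ⟨by simpa using h 0 B _ isOpen_ball hl, by simpa using hl⟩

theorem LH.taylor (h : O.LH k) (k0 : k 0 = 0) {θ : ℝ} {B : E} (hB : B ∈ O.D θ) (h0 : 0 < θ)
    (hd : deriv (fun t : ℂ => k (t • B)) 0 = 0) :
    (fun t : ℂ => k (t • B) - t ^ 2 * (d2 k B B / 2)) =o[𝓝 0] fun t => ‖t‖ ^ 2 := by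
  rw [d2_self]
  exact taylor_two (inv_pos.2 h0) (h.line_diff hB h0).1 (by simpa using k0) hd

theorem LH.d2_le (h : O.LH k) (hM : ∀ B ∈ O.D 1, ‖k B‖ ≤ M) (k0 : k 0 = 0)
    (hd : ∀ B, deriv (fun t : ℂ => k (t • B)) 0 = 0) {θ : ℝ} {B : E} (hB : B ∈ O.D θ)
    (h0 : 0 < θ) : ‖d2 k B B / 2‖ ≤ M * θ ^ 2 := by
  refine le_of_forall_pos_le_add fun ε hε => ?_
  have h1 := ((h.taylor k0 hB h0 (hd B)).bound hε).and (ball_mem_nhds (0 : ℂ) (inv_pos.2 h0))
  obtain ⟨t, ⟨h2, h3⟩, h4⟩ := ((h1.filter_mono nhdsWithin_le_nhds).and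
    (self_mem_nhdsWithin (s := {(0 : ℂ)}ᶜ))).exists
  have t0 : 0 < ‖t‖ := norm_pos_iff.2 h4
  have h5 : ‖t‖ * θ ≤ 1 := by
    have := mul_lt_mul_of_pos_right (mem_ball_zero_iff.1 h3) h0
    rw [inv_mul_cancel₀ h0.ne'] at this
    exact this.le
  have h6 := h.sq (M := M) (by simpa [k0] using hM) (O.smul t hB) (by positivity) h5 (hd _)
  rw [k0, sub_zero] at h6
  have h7 := norm_sub_le (k (t • B)) (k (t • B) - t ^ 2 * (d2 k B B / 2))
  rw [sub_sub_cancel, norm_mul, norm_pow] at h7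
  rw [norm_pow, norm_norm] at h2
  refine le_of_mul_le_mul_left (a := ‖t‖ ^ 2) ?_ (by positivity)
  nlinarith

theorem LH.cubic (h : O.LH k) (hM : ∀ B ∈ O.D 1, ‖k B‖ ≤ M) (k0 : k 0 = 0)
    (hd : ∀ B, deriv (fun t : ℂ => k (t • B)) 0 = 0) {θ : ℝ} {B : E} (hB : B ∈ O.D θ)
    (h0 : 0 < θ) (h1 : θ ≤ 1) : ‖k B - d2 k B B / 2‖ ≤ 2 * M * θ ^ 3 := by
  have hq := h.d2_le hM k0 hd hB h0
  rcases h1.eq_or_lt with rfl | h1
  · linarith [norm_sub_le (k B) (d2 k B B / 2), hM B hB]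
  have M0 : 0 ≤ M := (norm_nonneg _).trans (hM 0 (zero hB zero_le_one))
  have := Complex.dist_le_mul_div_pow_of_mapsTo_ball_of_isLittleO (n := 2) (z := 1) (R₂ := 2 * M)
    (f := fun t : ℂ => k (t • B) - t ^ 2 * (d2 k B B / 2))
    ((h.line_diff hB h0).1.sub (by fun_prop)) (fun t ht => by
      have a := hM _ ((h.line_diff hB h0).2 t ht)
      have b : ‖t‖ ^ 2 * (M * θ ^ 2) ≤ M := by
        have c : ‖t‖ * θ ≤ 1 := by
          have := mul_lt_mul_of_pos_right (mem_ball_zero_iff.1 ht) h0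
          rw [inv_mul_cancel₀ h0.ne'] at this
          exact this.le
        have d : (‖t‖ * θ) ^ 2 ≤ 1 := pow_le_one₀ (by positivity) c
        nlinarith
      have c := norm_sub_le (k (t • B)) (t ^ 2 * (d2 k B B / 2))
      rw [norm_mul, norm_pow] at c
      have d := mul_le_mul_of_nonneg_left hq (sq_nonneg ‖t‖)
      simp only [zero_smul, k0, mem_closedBall_iff_norm]
      simp only [ne_eq, OfNat.ofNat_ne_zero, not_false_eq_true, zero_pow, zero_mul, sub_zero]
      linarith) (by simpa [k0] using h.taylor k0 hB h0 (hd B)) (by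
      rw [mem_ball_zero_iff, norm_one]
      exact (one_lt_inv₀ h0).2 h1)
  simpa [dist_eq_norm, k0] using this

end Dom

end Pool.Agent.Lib.MP_7f377f_mp.Kit
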