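import Pool.Agent.Lib.MP_7f377f_mp.RGBase

/-! Lattice arithmetic, induction along the comb, linear comb gauge. -/

noncomputable section

namespace Pool.Agent.Lib.MP_7f377f_mp.RG

open Finset

theorem mem_box {r : ℕ} {x : St} : x ∈ box r ↔ ∀ i, -(r : ℤ) ≤ x i ∧ x i ≤ r := by simp [box]
theorem mem_lbox {r : ℕ} {e : Lk} : e ∈ lbox r ↔ e.1 ∈ box r := by simp [lbox]
theorem mem_cube {n : ℕ} {x : St} : x ∈ cube n ↔ ∀ i, 0 ≤ x i ∧ x i < n := by simp [cube]
theorem mem_lcube {n : ℕ} {e : Lk} : e ∈ lcube n ↔ e.1 ∈ cube n := by simp [lcube]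
theorem card_box (r : ℕ) : (box r).card = (2 * r + 1) ^ 4 := by
  simp only [box, Fintype.card_piFinset, Int.card_Icc, prod_const, card_univ, Fintype.card_fin]
  congr 1
  omega
theorem card_lbox (r : ℕ) : (lbox r).card = (2 * r + 1) ^ 4 * 4 := by simp [lbox, card_box]
theorem card_cube (n : ℕ) : (cube n).card = n ^ 4 := by simp [cube]
theorem card_lcube (n : ℕ) : (lcube n).card = n ^ 4 * 4 := by simp [lcube, card_cube]
theorem zero_mem_box (r : ℕ) : 0 ∈ box r := by simp [mem_box]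

theorem box_mono {r r' : ℕ} (h : r ≤ r') {x : St} (hx : x ∈ box r) : x ∈ box r' :=
  mem_box.2 fun i => by have := mem_box.1 hx i; omega

theorem lbox_mono {r r' : ℕ} (h : r ≤ r') {e : Lk} (he : e ∈ lbox r) : e ∈ lbox r' :=
  mem_lbox.2 (box_mono h (mem_lbox.1 he))

theorem add_mem_box {r r' : ℕ} {x y : St} (hx : x ∈ box r) (hy : y ∈ box r') :
    x + y ∈ box (r + r') := mem_box.2 fun i => by
  have := mem_box.1 hx i
  have := mem_box.1 hy i
  simp only [Pi.add_apply]
  omega

theorem neg_mem_box {r : ℕ} {x : St} (hx : x ∈ box r) : -x ∈ box r := mem_box.2 fun i => by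
  have := mem_box.1 hx i
  simp only [Pi.neg_apply]
  omega

theorem sub_mem_box {r r' : ℕ} {x y : St} (hx : x ∈ box r) (hy : y ∈ box r') :
    x - y ∈ box (r + r') := sub_eq_add_neg x y ▸ add_mem_box hx (neg_mem_box hy)

theorem un_apply (μ i : Fin 4) : un μ i = if i = μ then 1 else 0 := Pi.single_apply _ _ _
@[simp] theorem un_self (μ : Fin 4) : un μ μ = 1 := Pi.single_eq_same _ _
theorem un_ne {μ i : Fin 4} (h : i ≠ μ) : un μ i = 0 := Pi.single_eq_of_ne h _

theorem un_mem_box (μ : Fin 4) : un μ ∈ box 1 := mem_box.2 fun i => by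
  rw [un_apply]
  split_ifs <;> simp

theorem add_un_mem_box {r : ℕ} {x : St} (hx : x ∈ box r) (μ : Fin 4) : x + un μ ∈ box (r + 1) :=
  add_mem_box hx (un_mem_box μ)

theorem LL_pos (l : ℕ) : 0 < LL l := Nat.succ_pos _
theorem LL_cast (l : ℕ) : (LL l : ℤ) = 2 * l + 1 := by simp [LL]
theorem up_apply (l : ℕ) (y : St) (i : Fin 4) : up l y i = LL l * y i := rfl
theorem up_add (l : ℕ) (y z : St) : up l (y + z) = up l y + up l z := smul_add _ _ _
theorem up_sub (l : ℕ) (y z : St) : up l (y - z) = up l y - up l z := smul_sub _ _ _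
theorem up_neg (l : ℕ) (y : St) : up l (-y) = -up l y := smul_neg _ _
@[simp] theorem up_zero (l : ℕ) : up l 0 = 0 := smul_zero _

theorem yo_add_up (l : ℕ) (x y : St) : yo l (x + up l y) = yo l x + y := by
  funext i
  have : (LL l : ℤ) ≠ 0 := by have := LL_pos l; omega
  simp only [yo, Pi.add_apply, up_apply]
  rw [add_right_comm, Int.add_mul_ediv_left _ _ this]

theorem yo_of_mem {l : ℕ} {x : St} (hx : x ∈ box l) : yo l x = 0 := by
  funext i
  have := mem_box.1 hx i
  exact Int.ediv_eq_zero_of_lt (by omega) (by rw [LL_cast]; omega)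

theorem yo_up_add {l : ℕ} (y : St) {t : St} (ht : t ∈ box l) : yo l (up l y + t) = y := by
  rw [add_comm, yo_add_up, yo_of_mem ht, zero_add]

@[simp] theorem yo_up (l : ℕ) (y : St) : yo l (up l y) = y := by
  simpa using yo_up_add y (zero_mem_box l)

theorem sub_up_yo_mem (l : ℕ) (x : St) : x - up l (yo l x) ∈ box l := mem_box.2 fun i => by
  have h : (0 : ℤ) < LL l := by have := LL_pos l; omega
  have h1 := Int.emod_nonneg (x i + l) h.ne'
  have h2 := Int.emod_lt_of_pos (x i + l) h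
  have h3 := Int.emod_add_mul_ediv (x i + l) (LL l)
  have h4 := LL_cast l
  simp only [Pi.sub_apply, up_apply, yo]
  omega

theorem up_mem_box {l a : ℕ} {y : St} (hy : y ∈ box a) : up l y ∈ box (a * LL l) :=
  mem_box.2 fun i => by
    have := mem_box.1 hy i
    have h : (0 : ℤ) ≤ LL l := by positivity
    rw [up_apply]
    push_cast
    constructor <;> nlinarith

theorem yo_mem_box {l a : ℕ} {x : St} (hx : x ∈ box (a * LL l + l)) : yo l x ∈ box a :=
  mem_box.2 fun i => by
    have h1 := mem_box.1 hx i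
    have h2 := mem_box.1 (sub_up_yo_mem l x) i
    have h3 := LL_cast l
    have h : (0 : ℤ) ≤ l := by positivity
    simp only [Pi.sub_apply, up_apply] at h2
    push_cast at h1
    constructor
    · by_contra h4
      nlinarith [mul_le_mul_of_nonneg_left (show yo l x i + 1 ≤ -(a : ℤ) by omega)
        (show (0 : ℤ) ≤ LL l by positivity)]
    · by_contra h4
      nlinarith [mul_le_mul_of_nonneg_left (show (a : ℤ) + 1 ≤ yo l x i by omega)
        (show (0 : ℤ) ≤ LL l by positivity)]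

theorem mem_box_of_yo {l a : ℕ} {x : St} (hx : yo l x ∈ box a) : x ∈ box (a * LL l + l) := by
  simpa using add_mem_box (up_mem_box (l := l) hx) (sub_up_yo_mem l x)

theorem yo_add_un (l : ℕ) (x : St) (μ : Fin 4) :
    yo l (x + un μ) = yo l x ∨ yo l (x + un μ) = yo l x + un μ := by
  have h := sub_up_yo_mem l x
  set t := x - up l (yo l x) with ht
  have e : x + un μ = up l (yo l x) + (t + un μ) := by rw [ht]; abel
  by_cases h1 : t μ < l
  · refine .inl (e ▸ yo_up_add _ (mem_box.2 fun i => ?_))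
    have := mem_box.1 h i
    rw [Pi.add_apply, un_apply]
    split_ifs with h2
    · subst h2
      omega
    · omega
  · have e2 : x + un μ = up l (yo l x + un μ) + (t + un μ - up l (un μ)) := by
      rw [e, up_add]
      abel
    refine .inr (e2 ▸ yo_up_add _ (mem_box.2 fun i => ?_))
    have := mem_box.1 h i
    have := LL_cast l
    rw [Pi.sub_apply, Pi.add_apply, up_apply, un_apply]
    split_ifs with h2
    · subst h2
      omega
    · omega

theorem tree_add_up (l : ℕ) (x y : St) (μ : Fin 4) : tree l (x + up l y, μ) ↔ tree l (x, μ) := by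
  simp only [tree, add_right_comm x (up l y), yo_add_up, add_left_inj, up_add, Pi.add_apply]

section sh
variable {α : Type}

@[simp] theorem sh_apply (x : St) (U : Lk → α) (e : Lk) : sh x U e = U (e.1 + x, e.2) := rfl
@[simp] theorem sh_zero (U : Lk → α) : sh 0 U = U := by funext e; simp
theorem sh_sh (x y : St) (U : Lk → α) : sh x (sh y U) = sh (x + y) U := by
  funext e
  simp [add_assoc]
theorem shL_apply (x : St) (a : V) : shL x a = sh x a := rfl

theorem Per.sh_smul {n : ℕ} {U : Lk → α} (h : Per n U) (y : St) : sh ((n : ℤ) • y) U = U := by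
  have h1 : ∀ μ (k : ℤ), sh ((n : ℤ) • k • un μ) U = U := fun μ k => by
    induction k using Int.induction_on with
    | zero => simp
    | succ k ih => rw [add_smul, one_smul, smul_add, ← sh_sh, h μ, ih]
    | pred k ih =>
      conv_lhs => rw [← h μ]
      rw [sh_sh, ← smul_add, sub_smul, one_smul, sub_add_cancel, ih]
  have e : y = y 0 • un 0 + (y 1 • un 1 + (y 2 • un 2 + y 3 • un 3)) := by
    funext i
    fin_cases i <;> simp [un_apply]
  rw [e, smul_add, smul_add, smul_add, ← sh_sh, ← sh_sh, ← sh_sh, h1, h1, h1, h1]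

theorem Per.sh {n : ℕ} {U : Lk → α} (h : Per n U) (x : St) : Per n (sh x U) := fun μ => by
  rw [sh_sh, add_comm, ← sh_sh, h μ]

end sh

/-- a sum of a periodic function over the fundamental domain is translation invariant -/
theorem sum_cube_add {M : Type} [AddCommMonoid M] {n : ℕ} {f : St → M}
    (hf : ∀ x y, f (x + (n : ℤ) • y) = f x) (v : St) :
    ∑ x ∈ cube n, f (x + v) = ∑ x ∈ cube n, f x := by
  have key : ∀ (v x : St), x ∈ cube n → (fun i => (x i + v i) % n) ∈ cube n ∧
      (fun i => ((x i + v i) % n + (-v) i) % n) = x := fun v x hx => by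
    have := mem_cube.1 hx
    have n0 : (0 : ℤ) < n := (this 0).1.trans_lt (this 0).2
    refine ⟨mem_cube.2 fun i => ⟨Int.emod_nonneg _ n0.ne', Int.emod_lt_of_pos _ n0⟩, ?_⟩
    funext i
    rw [Int.emod_add_emod, Pi.neg_apply, add_neg_cancel_right,
      Int.emod_eq_of_lt (this i).1 (this i).2]
  refine sum_nbij' (fun x i => (x i + v i) % n) (fun x i => (x i + (-v) i) % n)
    (fun x hx => (key v x hx).1) (fun x hx => (key (-v) x hx).1) (fun x hx => (key v x hx).2)
    (fun x hx => by simpa using (key (-v) x hx).2) fun x _ => ?_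
  rw [← hf (fun i => (x i + v i) % n) fun i => (x i + v i) / n]
  congr 1
  funext i
  exact (Int.emod_add_mul_ediv _ _).symm

/-- links of the comb based at the origin -/
def Tr (p : St) (ν : Fin 4) : Prop := ∀ κ, ν < κ → p κ = 0

/-- graph distance to the origin -/
def ht (x : St) : ℕ := ∑ i, (x i).natAbs

theorem ht_le {R : ℕ} {x : St} (hx : x ∈ box R) : ht x ≤ 4 * R := by
  have := mem_box.1 hx
  have h0 := this 0
  have h1 := this 1
  have h2 := this 2
  have h3 := this 3
  rw [ht, Fin.sum_univ_four]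
  omega

theorem ht_fwd {p : St} {ν : Fin 4} (h : 0 ≤ p ν) : ht (p + un ν) = ht p + 1 := by
  fin_cases ν <;> simp [ht, Fin.sum_univ_four, un_apply] at h ⊢ <;> omega

theorem ht_bwd {p : St} {ν : Fin 4} (h : p ν < 0) : ht p = ht (p + un ν) + 1 := by
  fin_cases ν <;> simp [ht, Fin.sum_univ_four, un_apply] at h ⊢ <;> omega

theorem box_fwd {R : ℕ} {p : St} {ν : Fin 4} (h : 0 ≤ p ν) (hp : p + un ν ∈ box R) : p ∈ box R :=
  mem_box.2 fun i => by
    have := mem_box.1 hp i
    rw [Pi.add_apply, un_apply] at this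
    split_ifs at this with h2
    · subst h2
      omega
    · omega

theorem box_bwd {R : ℕ} {p : St} {ν : Fin 4} (h : p ν < 0) (hp : p ∈ box R) : p + un ν ∈ box R :=
  mem_box.2 fun i => by
    have := mem_box.1 hp i
    rw [Pi.add_apply, un_apply]
    split_ifs with h2
    · subst h2
      omega
    · omega

theorem site_ind {P : St → Prop} (h0 : P 0)
    (hp : ∀ p ν, Tr p ν → 0 ≤ p ν → P p → P (p + un ν))
    (hn : ∀ p ν, Tr p ν → p ν < 0 → P (p + un ν) → P p) (x : St) : P x := by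
  induction hx : ht x using Nat.strong_induction_on generalizing x with
  | _ n ih =>
    by_cases h : x = 0
    · exact h ▸ h0
    obtain ⟨ν, h1, h2⟩ := wellFounded_gt.has_min {k | x k ≠ 0} (Function.ne_iff.mp h)
    have h3 : Tr x ν := fun κ hκ => by_contra fun h' => h2 κ h' hκ
    rcases lt_or_gt_of_ne (show x ν ≠ 0 from h1) with h4 | h4
    · exact hn x ν h3 h4 (ih _ (by rw [← hx, ht_bwd h4]; omega) _ rfl)
    · have h5 : 0 ≤ (x - un ν) ν := by simp; omega
      have := hp (x - un ν) ν (fun κ hκ => by simp [h3 κ hκ, un_ne hκ.ne']) h5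
        (ih _ (by rw [← hx, ← sub_add_cancel x (un ν), ht_fwd h5]; simp) _ rfl)
      rwa [sub_add_cancel] at this

theorem Tr.pre {p : St} {ν : Fin 4} (h : Tr p ν) : pre p ν + p ν • un ν = p := by
  funext i
  rcases lt_trichotomy i ν with h1 | rfl | h1
  · simp [RG.pre, h1, un_ne h1.ne]
  · simp [RG.pre]
  · simp [RG.pre, h1.not_gt, un_ne h1.ne', h i h1]

theorem pre_add_un {p : St} {ν κ : Fin 4} (h : κ ≤ ν) : pre (p + un ν) κ = pre p κ := by
  funext i
  simp only [pre]
  split_ifs with h1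
  · simp [un_ne (h1.trans_le h).ne]
  · rfl

section paths
variable {α : Type} [Monoid α] (iv : α → α) (U : Lk → α)

@[simp] theorem ln_zero (p : St) (μ : Fin 4) : ln iv U p μ 0 = 1 := by simp [ln, lnP, lnN]

theorem ln_fwd (p : St) (μ : Fin 4) {n : ℤ} (h : 0 ≤ n) :
    ln iv U p μ (n + 1) = ln iv U p μ n * U (p + n • un μ, μ) := by
  obtain ⟨k, rfl⟩ := Int.eq_ofNat_of_zero_le h
  have : (-1 + -(k : ℤ)).toNat = 0 := by omega
  simp [ln, lnP, lnN, this]

theorem ln_bwd (p : St) (μ : Fin 4) {n : ℤ} (h : n < 0) :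
    ln iv U p μ n = ln iv U p μ (n + 1) * iv (U (p + n • un μ, μ)) := by
  obtain ⟨k, rfl⟩ : ∃ k : ℕ, n = -(k + 1) := ⟨(-n - 1).toNat, by omega⟩
  have e1 : (-((k : ℤ) + 1)).toNat = 0 := by omega
  have e2 : (-((k : ℤ) + 1) + 1).toNat = 0 := by omega
  have e3 : (-(-((k : ℤ) + 1) + 1)).toNat = k := by omega
  have e4 : (- -((k : ℤ) + 1)).toNat = k + 1 := by omega
  rw [ln, ln, e1, e2, e3, e4, lnN, neg_smul, ← sub_eq_add_neg, mul_assoc]

@[simp] theorem cmb_zero : cmb iv U 0 = 1 := by simp [cmb]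

theorem cmb_tr {p : St} {ν : Fin 4} (h : Tr p ν) : ∃ c, cmb iv U p = c * ln iv U (pre p ν) ν (p ν) ∧
    cmb iv U (p + un ν) = c * ln iv U (pre p ν) ν (p ν + 1) := by
  fin_cases ν
  · exact ⟨1, by simp [cmb, h 1 (by decide), h 2 (by decide), h 3 (by decide), un_apply,
      pre_add_un]⟩
  · exact ⟨ln iv U (pre p 0) 0 (p 0), by simp [cmb, h 2 (by decide), h 3 (by decide), un_apply,
      pre_add_un]⟩
  · exact ⟨ln iv U (pre p 0) 0 (p 0) * ln iv U (pre p 1) 1 (p 1), by
      simp [cmb, h 3 (by decide), un_apply, pre_add_un]⟩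
  · exact ⟨ln iv U (pre p 0) 0 (p 0) * ln iv U (pre p 1) 1 (p 1) * ln iv U (pre p 2) 2 (p 2), by
      simp [cmb, un_apply, pre_add_un]⟩

theorem cmb_fwd {p : St} {ν : Fin 4} (h : Tr p ν) (h0 : 0 ≤ p ν) :
    cmb iv U (p + un ν) = cmb iv U p * U (p, ν) := by
  obtain ⟨c, h1, h2⟩ := cmb_tr iv U h
  rw [h1, h2, ln_fwd _ _ _ _ h0, h.pre, mul_assoc]

theorem cmb_bwd {p : St} {ν : Fin 4} (h : Tr p ν) (h0 : p ν < 0) :
    cmb iv U p = cmb iv U (p + un ν) * iv (U (p, ν)) := by
  obtain ⟨c, h1, h2⟩ := cmb_tr iv U h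
  rw [h1, h2, ln_bwd _ _ _ _ h0, h.pre, mul_assoc]

variable {iv U}

theorem cmb_agr {R : ℕ} {U' : Lk → α} (h : ∀ e ∈ lbox R, U e = U' e) (x : St) :
    x ∈ box R → cmb iv U x = cmb iv U' x := by
  induction x using site_ind with
  | h0 => simp
  | hp p ν h1 h2 ih =>
    intro hx
    rw [cmb_fwd _ _ h1 h2, cmb_fwd _ _ h1 h2, ih (box_fwd h2 hx), h _ (mem_lbox.2 (box_fwd h2 hx))]
  | hn p ν h1 h2 ih =>
    intro hx
    rw [cmb_bwd _ _ h1 h2, cmb_bwd _ _ h1 h2, ih (box_bwd h2 hx), h _ (mem_lbox.2 hx)]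

theorem cmb_map {β : Type} [Monoid β] {iv' : β → β} {f : α → β} (h1 : f 1 = 1)
    (hm : ∀ a b, f (a * b) = f a * f b) (hi : ∀ a, f (iv a) = iv' (f a)) (x : St) :
    cmb iv' (fun e => f (U e)) x = f (cmb iv U x) := by
  induction x using site_ind with
  | h0 => simp [h1]
  | hp p ν h1 h2 ih => rw [cmb_fwd _ _ h1 h2, cmb_fwd _ _ h1 h2, ih, hm]
  | hn p ν h1 h2 ih => rw [cmb_bwd _ _ h1 h2, cmb_bwd _ _ h1 h2, ih, hm, hi]

/-- a property of families which is stable under products holds for the comb transport -/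
theorem cmb_closed {Z : Type} {P : (Z → α) → Prop} (h1 : P fun _ => 1)
    (hm : ∀ f g, P f → P g → P fun z => f z * g z) (hi : ∀ f, P f → P fun z => iv (f z))
    {U : Z → Lk → α} (hU : ∀ e, P fun z => U z e) (x : St) : P fun z => cmb iv (U z) x := by
  induction x using site_ind with
  | h0 => simpa using h1
  | hp p ν h1 h2 ih => simpa only [cmb_fwd _ _ h1 h2] using hm _ _ ih (hU _)
  | hn p ν h1 h2 ih => simpa only [cmb_bwd _ _ h1 h2] using hm _ _ ih (hi _ (hU _))

theorem cmb_gauge (hi : ∀ a b, iv (a * b) = iv b * iv a) (hii : ∀ a, iv (iv a) = a) {h : St → α}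
    (h1 : ∀ x, iv (h x) * h x = 1) (h2 : h 0 * iv (h 0) = 1) (x : St) :
    cmb iv (gauge iv h U) x = h 0 * cmb iv U x * iv (h x) := by
  induction x using site_ind with
  | h0 => simp [h2]
  | hp p ν h3 h4 ih =>
    rw [cmb_fwd _ _ h3 h4, cmb_fwd _ _ h3 h4, ih, gauge]
    simp only [mul_assoc, ← mul_assoc (iv (h p)), h1, one_mul]
  | hn p ν h3 h4 ih =>
    rw [cmb_bwd _ _ h3 h4, cmb_bwd _ _ h3 h4, ih, gauge]
    simp only [hi, hii, mul_assoc, ← mul_assoc (iv (h (p + un ν))), h1, one_mul]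

end paths

/-- growth of a function which vanishes on the comb -/
theorem comb_bound {R : ℕ} {ε : ℝ} (μ : Fin 4) {f : St → ℝ} (h0 : ∀ x, Tr x μ → f x ≤ 0)
    (hs : ∀ p ∈ box R, ∀ ν, μ < ν → Tr p ν → |f (p + un ν) - f p| ≤ ε) (hε : 0 ≤ ε) {x : St}
    (hx : x ∈ box R) : f x ≤ 3 * R * ε := by
  set k : St → ℕ := fun x => ∑ i, if μ < i then (x i).natAbs else 0 with hk
  have key : ∀ x, x ∈ box R → f x ≤ k x * ε := by
    intro x
    induction x using site_ind with
    | h0 => exact fun _ => (h0 0 fun _ _ => rfl).trans (by positivity)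
    | hp p ν h1 h2 ih =>
      intro hx
      by_cases h : μ < ν
      · have : k (p + un ν) = k p + 1 := by
          revert h
          fin_cases ν <;> fin_cases μ <;> simp [hk, Fin.sum_univ_four, un_apply] at h2 ⊢ <;> omega
        rw [this]
        push_cast
        linarith [ih (box_fwd h2 hx), (abs_le.1 (hs p (box_fwd h2 hx) ν h h1)).2]
      · refine (h0 _ fun κ hκ => ?_).trans (by positivity)
        have := (not_lt.1 h).trans_lt hκ
        simp [h1 κ this, un_ne this.ne']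
    | hn p ν h1 h2 ih =>
      intro hx
      by_cases h : μ < ν
      · have : k p = k (p + un ν) + 1 := by
          revert h
          fin_cases ν <;> fin_cases μ <;> simp [hk, Fin.sum_univ_four, un_apply] at h2 ⊢ <;> omega
        rw [this]
        push_cast
        linarith [ih (box_bwd h2 hx), (abs_le.1 (hs p hx ν h h1)).1]
      · exact (h0 _ fun κ hκ => h1 κ ((not_lt.1 h).trans_lt hκ)).trans (by positivity)
  refine (key x hx).trans (mul_le_mul_of_nonneg_right ?_ hε)
  have := mem_box.1 hx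
  have h1 := this 1
  have h2 := this 2
  have h3 := this 3
  have : k x ≤ 3 * R := by
    fin_cases μ <;> simp [hk, Fin.sum_univ_four] <;> omega
  exact_mod_cast this

section additive
variable {W : Type} [AddCommGroup W]

@[simp] theorem pr_zero (g : ℤ → W) : pr g 0 = 0 := by simp [pr]

theorem pr_succ (g : ℤ → W) (n : ℤ) : pr g (n + 1) = pr g n + g n := by
  rcases le_or_gt 0 n with h | h
  · obtain ⟨k, rfl⟩ := Int.eq_ofNat_of_zero_le h
    have : (-1 + -(k : ℤ)).toNat = 0 := by omega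
    simp [pr, this, sum_range_succ]
  · obtain ⟨k, rfl⟩ : ∃ k : ℕ, n = -(k + 1) := ⟨(-n - 1).toNat, by omega⟩
    have e1 : (-((k : ℤ) + 1)).toNat = 0 := by omega
    have e2 : (-((k : ℤ) + 1) + 1).toNat = 0 := by omega
    have e3 : (-(-((k : ℤ) + 1) + 1)).toNat = k := by omega
    have e4 : (- -((k : ℤ) + 1)).toNat = k + 1 := by omega
    rw [pr, pr, e1, e2, e3, e4, sum_range_succ]
    abel

@[simp] theorem lam_zero (a : Lk → W) : lam a 0 = 0 := by simp [lam]

theorem lam_tr (a : Lk → W) {p : St} {ν : Fin 4} (h : Tr p ν) :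
    lam a (p + un ν) = lam a p + a (p, ν) := by
  have e := h.pre
  rw [lam, lam, ← add_sum_erase _ _ (mem_univ ν), ← add_sum_erase _ _ (mem_univ ν),
    pre_add_un le_rfl, Pi.add_apply, un_self, pr_succ, e, add_right_comm]
  congr 2
  refine sum_congr rfl fun κ hκ => ?_
  rcases lt_or_gt_of_ne (ne_of_mem_erase hκ) with h1 | h1
  · rw [pre_add_un h1.le, Pi.add_apply, un_ne h1.ne, add_zero]
  · rw [Pi.add_apply, un_ne h1.ne', add_zero, h κ h1, pr_zero, pr_zero]

theorem lam_unique {a : Lk → W} {u : St → W} (h0 : u 0 = 0)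
    (h : ∀ p ν, Tr p ν → u (p + un ν) = u p + a (p, ν)) : lam a = u := by
  funext x
  induction x using site_ind with
  | h0 => simp [h0]
  | hp p ν h1 _ ih => rw [lam_tr _ h1, h _ _ h1, ih]
  | hn p ν h1 _ ih => rwa [lam_tr _ h1, h _ _ h1, add_left_inj] at ih

theorem cg_apply (a : Lk → W) (e : Lk) : cg a e = lam a e.1 + a e - lam a (e.1 + un e.2) := by
  simp only [cg, gr, Pi.sub_apply]
  abel

theorem cg_tr (a : Lk → W) {p : St} {ν : Fin 4} (h : Tr p ν) : cg a (p, ν) = 0 := by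
  rw [cg_apply, lam_tr _ h, sub_self]

theorem cg_eq_self {a : Lk → W} (h : ∀ p ν, Tr p ν → a (p, ν) = 0) : cg a = a := by
  have : lam a = fun _ => 0 := lam_unique rfl fun p ν h1 => by simp [h p ν h1]
  funext e
  simp [cg_apply, this]

theorem lam_add (a b : Lk → W) : lam (a + b) = lam a + lam b :=
  lam_unique (by simp) fun p ν h => by simp only [Pi.add_apply, lam_tr _ h]; abel

theorem cg_add (a b : Lk → W) : cg (a + b) = cg a + cg b := by
  funext e
  simp only [cg_apply, lam_add, Pi.add_apply]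
  abel

theorem cg_map {W' : Type} [AddCommGroup W'] (f : W →+ W') (a : Lk → W) :
    cg (fun e => f (a e)) = fun e => f (cg a e) := by
  have : lam (fun e => f (a e)) = fun x => f (lam a x) :=
    lam_unique (by simp) fun p ν h => by rw [lam_tr _ h, map_add]
  funext e
  simp [cg_apply, this]

theorem cg_gr {W : Type} [AddCommGroup W] (a : Lk → W) (u : St → W) : cg (a + gr u) = cg a := by
  have : lam (gr u) = fun x => u x - u 0 := lam_unique (by simp) fun p ν _ => by simp [gr]
  funext e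
  simp only [cg_apply, lam_add, this, Pi.add_apply, gr]
  abel

theorem dd_add (a b : Lk → W) (x : St) (μ ν : Fin 4) :
    dd (a + b) x μ ν = dd a x μ ν + dd b x μ ν := by
  simp only [dd, Pi.add_apply]
  abel

theorem dd_sub (a b : Lk → W) (x : St) (μ ν : Fin 4) :
    dd (a - b) x μ ν = dd a x μ ν - dd b x μ ν := by
  simp only [dd, Pi.sub_apply]
  abel

theorem dd_gr (u : St → W) (x : St) (μ ν : Fin 4) : dd (gr u) x μ ν = 0 := by
  simp only [dd, gr, add_right_comm x (un μ)]
  abel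

theorem dd_sh (y : St) (a : Lk → W) (x : St) : dd (sh y a) x = dd a (x + y) := by
  funext μ ν
  simp only [dd, sh_apply, add_right_comm x y]

theorem sh_gr (y : St) (u : St → W) : sh y (gr u) = gr fun x => u (x + y) := by
  funext e
  simp only [gr, sh_apply, add_right_comm e.1 y]

theorem dd_cg {W : Type} [AddCommGroup W] (a : Lk → W) : dd (cg a) = dd a := by
  funext x μ ν
  rw [cg, dd_sub, dd_gr, sub_zero]

theorem cg_cg (a : Lk → W) : cg (cg a) = cg a := cg_eq_self fun _ _ h => cg_tr a h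

theorem lam_agr {R : ℕ} {a b : Lk → W} (h : ∀ e ∈ lbox R, a e = b e) (x : St) :
    x ∈ box R → lam a x = lam b x := by
  induction x using site_ind with
  | h0 => simp
  | hp p ν h1 h2 ih =>
    intro hx
    rw [lam_tr _ h1, lam_tr _ h1, ih (box_fwd h2 hx), h _ (mem_lbox.2 (box_fwd h2 hx))]
  | hn p ν h1 h2 ih =>
    intro hx
    have := ih (box_bwd h2 hx)
    rwa [lam_tr _ h1, lam_tr _ h1, h _ (mem_lbox.2 hx), add_left_inj] at this

theorem cg_agr {R : ℕ} {a b : Lk → W} (h : ∀ e ∈ lbox (R + 1), a e = b e) :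
    ∀ e ∈ lbox R, cg a e = cg b e := fun e he => by
  have h1 := mem_lbox.1 he
  rw [cg_apply, cg_apply, lam_agr h _ (box_mono R.le_succ h1), lam_agr h _ (add_un_mem_box h1 _),
    h e (lbox_mono R.le_succ he)]

theorem cut_of_mem {R : ℕ} (a : Lk → W) {e : Lk} (h : e ∈ lbox R) : cut R a e = a e := if_pos h
theorem cut_of_not_mem {R : ℕ} (a : Lk → W) {e : Lk} (h : e ∉ lbox R) : cut R a e = 0 := if_neg h

end additive

theorem Sm_cg {W : Type} [NormedAddCommGroup W] {R : ℕ} {δ : ℝ} {a : Lk → W} (h : Cv R δ a) :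
    Sm R (3 * R * δ) (cg a) := by
  rintro ⟨x, μ⟩ he
  refine comb_bound μ (f := fun x => ‖cg a (x, μ)‖) (fun x hx => by simp [cg_tr a hx])
    (fun p hp ν h1 h2 => ?_) ((norm_nonneg _).trans (h 0 (zero_mem_box R) 0 0)) (mem_lbox.1 he)
  have := h p hp μ ν
  rw [← dd_cg, dd, cg_tr a h2, cg_tr a (p := p + un μ)
    (fun κ hκ => by simp [h2 κ hκ, un_ne (h1.trans hκ).ne']), add_zero, sub_zero] at this
  exact (abs_norm_sub_norm_le _ _).trans ((norm_sub_rev _ _).trans_le this)

section norms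
variable {W : Type} [NormedAddCommGroup W] {R R' : ℕ} {δ δ' : ℝ} {a b : Lk → W}

theorem Sm.mono (h : Sm R δ a) (hR : R' ≤ R) (hδ : δ ≤ δ') : Sm R' δ' a :=
  fun e he => (h e (lbox_mono hR he)).trans hδ

theorem Cv.mono (h : Cv R δ a) (hR : R' ≤ R) (hδ : δ ≤ δ') : Cv R' δ' a :=
  fun x hx μ ν => (h x (box_mono hR hx) μ ν).trans hδ

theorem Sm.nonneg (h : Sm R δ a) : 0 ≤ δ :=
  (norm_nonneg _).trans (h (0, 0) (mem_lbox.2 (zero_mem_box R)))

theorem Cv.nonneg (h : Cv R δ a) : 0 ≤ δ := (norm_nonneg _).trans (h 0 (zero_mem_box R) 0 0)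

theorem Sm.add (h : Sm R δ a) (h' : Sm R δ' b) : Sm R (δ + δ') (a + b) :=
  fun e he => (norm_add_le _ _).trans (add_le_add (h e he) (h' e he))

theorem Cv.add (h : Cv R δ a) (h' : Cv R δ' b) : Cv R (δ + δ') (a + b) := fun x hx μ ν => by
  rw [dd_add]
  exact (norm_add_le _ _).trans (add_le_add (h x hx μ ν) (h' x hx μ ν))

theorem Sm.sh (h : Sm (R + R') δ a) {y : St} (hy : y ∈ box R') : Sm R δ (sh y a) :=
  fun _ he => h _ (mem_lbox.2 (add_mem_box (mem_lbox.1 he) hy))

theorem Cv.sh (h : Cv (R + R') δ a) {y : St} (hy : y ∈ box R') : Cv R δ (sh y a) :=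
  fun x hx μ ν => by rw [dd_sh]; exact h _ (add_mem_box hx hy) μ ν

theorem Sm.cv (h : Sm (R + 1) δ a) : Cv R (4 * δ) a := fun x hx μ ν => by
  have h1 := fun μ => h (x, μ) (mem_lbox.2 (box_mono R.le_succ hx))
  have h2 := fun μ ν => h (x + un μ, ν) (mem_lbox.2 (add_un_mem_box hx μ))
  refine (norm_sub_le _ _).trans ((add_le_add_left ((norm_sub_le _ _).trans
    (add_le_add_left (norm_add_le _ _) _)) _).trans ?_)
  linarith [h1 μ, h1 ν, h2 μ ν, h2 ν μ]

theorem Cv.congr (h : Cv R δ a) (hab : ∀ e ∈ lbox (R + 1), a e = b e) : Cv R δ b :=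
  fun x hx μ ν => by
    have h1 := fun μ => hab (x, μ) (mem_lbox.2 (box_mono R.le_succ hx))
    have h2 := fun μ ν => hab (x + un μ, ν) (mem_lbox.2 (add_un_mem_box hx μ))
    simpa only [dd, h1, h2] using h x hx μ ν

theorem Sm.cut (h : Sm R δ a) (e : Lk) : ‖cut R a e‖ ≤ δ := by
  by_cases he : e ∈ lbox R
  · rw [cut_of_mem a he]
    exact h e he
  · rw [cut_of_not_mem a he, norm_zero]
    exact h.nonneg

end norms

end Pool.Agent.Lib.MP_7f377f_mp.RG
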