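import Pool.Agent.Lib.MP_7f377f_mp.PChess

/-! The multi-scale block spin model and conditional probabilities given the finest field. -/

namespace Pool.Agent.Lib.MP_7f377f_mp.RGP

open MeasureTheory Measure Function

set_option linter.unusedSectionVars false

variable {d : ℕ} {G : Type} [MeasurableSpace G] [Group G]

/-- block averages on the whole coarse lattice -/
def avg (L : ℤ) (av : Fin d → (Lk d → G) → G) (W : Lk d → G) (e : Lk d) : G :=
  av e.2 (act T0 (L • e.1) W)

/-- data of a sequence of block spin transformations -/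
structure Model (d : ℕ) {G : Type} [MeasurableSpace G] [Group G] (μ : Measure G) where
  L : ℕ → ℤ
  av : ℕ → Fin d → (Lk d → G) → G
  h : ℕ → G → ℝ
  two_le : ∀ j, 2 ≤ L j
  av_meas : ∀ j k, Measurable (av j k)
  av_dep : ∀ j k, DependsOn (av j k)
    {e | ∀ i, 1 - L j ≤ e.1 i ∧ e.1 i + dl i e.2 ≤ L j * dl i k + L j - 1}
  av_refl : ∀ j T W, avg (L j) (av j) (act T 0 W) = act T 0 (avg (L j) (av j) W)
  h_bm : ∀ j, BM (h j)
  h_nonneg : ∀ j g, 0 ≤ h j g
  h_int : ∀ j, ∫ g, h j g ∂μ = 1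
  h_inv : ∀ j g, h j g⁻¹ = h j g
  h_comm : ∀ j g g', h j (g * g') = h j (g' * g)

/-- histories -/
abbrev Hist (d : ℕ) (G : Type) := ℕ × Lk d → G

/-- the field at one level -/
def lvl (w : Hist d G) (j : ℕ) : Lk d → G := fun e => w (j, e)

theorem measurable_lvl (j : ℕ) : Measurable fun w : Hist d G => lvl w j :=
  measurable_pi_lambda _ fun _ => measurable_pi_apply _

/-- motion of the index set of histories -/
def mvH (T : Fin d → Bool) (a : ℕ → St d) (p : ℕ × Lk d) : ℕ × Lk d := (p.1, mv T (a p.1) p.2)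

/-- motion of histories -/
def actH (T : Fin d → Bool) (a : ℕ → St d) (w : Hist d G) : Hist d G :=
  pat (mvH T a) (fun p => T p.2.2) w

/-- reduction of history indices modulo the periods -/
def perH (n : ℕ → St d) (p : ℕ × Lk d) : ℕ × Lk d := (p.1, per (n p.1) p.2)

/-- periodic histories -/
def pcH (n : ℕ → St d) (w : Hist d G) : Hist d G := pat (perH n) (fun _ => false) w

theorem lvl_actH (T : Fin d → Bool) (a : ℕ → St d) (w : Hist d G) (j : ℕ) :
    lvl (actH T a w) j = act T (a j) (lvl w j) := rfl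

theorem lvl_pcH (n : ℕ → St d) (w : Hist d G) (j : ℕ) : lvl (pcH n w) j = pc (n j) (lvl w j) := rfl

theorem hist_ext {w w' : Hist d G} (h : ∀ j, lvl w j = lvl w' j) : w = w' :=
  funext fun p => congrFun (h p.1) p.2

theorem mv_inv (T : Fin d → Bool) (a : St d) (e : Lk d) :
    mv T (fun i => if T i then a i else -a i) (mv T a e) = e := by
  refine Prod.ext (funext fun i => ?_) rfl
  cases h : T i <;> simp [mv, h]
  ring

theorem mv_inv' (T : Fin d → Bool) (a : St d) (e : Lk d) :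
    mv T a (mv T (fun i => if T i then a i else -a i) e) = e := by
  refine Prod.ext (funext fun i => ?_) rfl
  cases h : T i <;> simp [mv, h]
  ring

theorem mvH_inj (T : Fin d → Bool) (a : ℕ → St d) : Injective (mvH T a) := by
  rintro ⟨j, e⟩ ⟨j', e'⟩ h
  simp only [mvH, Prod.mk.injEq] at h
  obtain ⟨rfl, h⟩ := h
  rw [← mv_inv T (a j) e, h, mv_inv]

/-- level zero -/
def lev0 : Set (ℕ × Lk d) := {p | p.1 = 0}

/-- prescribe the finest field -/
noncomputable def join (W : Lk d → G) (w : Hist d G) : Hist d G := mix lev0 (fun p => W p.2) w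

/-- the fundamental domain of all levels up to `k` -/
noncomputable def fund (k : ℕ) (n : ℕ → St d) : Finset (ℕ × Lk d) :=
  (Finset.range (k + 1)).biUnion fun j => {j} ×ˢ box (n j) ×ˢ Finset.univ

theorem mem_fund {k : ℕ} {n : ℕ → St d} {p : ℕ × Lk d} :
    p ∈ fund k n ↔ p.1 ≤ k ∧ p.2.1 ∈ box (n p.1) := by
  simp only [fund, Finset.mem_biUnion, Finset.mem_range, Finset.mem_product, Finset.mem_singleton,
    Finset.mem_univ, and_true, Nat.lt_succ_iff]
  exact ⟨by rintro ⟨j, h1, rfl, h2⟩; exact ⟨h1, h2⟩, fun h => ⟨_, h.1, rfl, h.2⟩⟩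

variable [MeasurableMul₂ G] [MeasurableInv G] {μ : Measure G} [IsProbabilityMeasure μ]
  [μ.IsInvInvariant] [μ.IsMulRightInvariant]

theorem measurable_actH (T : Fin d → Bool) (a : ℕ → St d) : Measurable (actH (G := G) T a) :=
  measurable_pat _ _

theorem measurable_pcH (n : ℕ → St d) : Measurable (pcH (G := G) n) := measurable_pat _ _

theorem measurable_join : Measurable fun p : (Lk d → G) × Hist d G => join p.1 p.2 := by
  have : Measurable fun (p : (Lk d → G) × Hist d G) (q : ℕ × Lk d) => p.1 q.2 := by fun_prop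
  exact (measurable_mix lev0).comp (this.prodMk measurable_snd)

theorem measurable_join' (W : Lk d → G) : Measurable (join W) := measurable_mix_right _ _

theorem join_zero (W : Lk d → G) (w : Hist d G) (e : Lk d) : join W w (0, e) = W e :=
  mix_of_mem (S := lev0) rfl _ _

theorem join_ne (W : Lk d → G) (w : Hist d G) {p : ℕ × Lk d} (h : p.1 ≠ 0) : join W w p = w p :=
  mix_of_not (S := lev0) h _ _

theorem avg_shift (L : ℤ) (av : Fin d → (Lk d → G) → G) (a : St d) (W : Lk d → G) :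
    avg L av (act T0 (L • a) W) = act T0 a (avg L av W) := by
  funext e
  simp only [avg, act_act, Bool.xor_self, Bool.false_eq_true, if_false]
  simp only [act, pat, sg_false, avg, mv, Bool.false_eq_true, if_false]
  congr 3
  funext i
  simp [mul_add]

namespace Model

variable (M : Model d μ)

/-- ratio of two scales -/
def rat (j k : ℕ) : ℤ := ∏ i ∈ Finset.Ico j k, M.L i

/-- a level `k` vector in the units of all levels -/
def sc (k : ℕ) (v : St d) (j : ℕ) : St d := M.rat j k • v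

theorem L_pos (j : ℕ) : 0 < M.L j := by have := M.two_le j; omega

theorem rat_pos (j k : ℕ) : 0 < M.rat j k := Finset.prod_pos fun i _ => M.L_pos i

theorem rat_self (j : ℕ) : M.rat j j = 1 := by simp [rat]

theorem rat_mul {i j k : ℕ} (h : i ≤ j) (h' : j ≤ k) : M.rat i j * M.rat j k = M.rat i k :=
  Finset.prod_Ico_consecutive _ h h'

theorem rat_succ (j : ℕ) : M.rat j (j + 1) = M.L j := by simp [rat]

theorem sc_succ {j k : ℕ} (h : j < k) (v : St d) : M.sc k v j = M.L j • M.sc k v (j + 1) := by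
  simp only [sc, smul_smul, ← M.rat_succ, M.rat_mul (Nat.le_succ j) h]

theorem avg_act (j : ℕ) (T : Fin d → Bool) (a : St d) (W : Lk d → G) :
    avg (M.L j) (M.av j) (act T (M.L j • a) W) = act T a (avg (M.L j) (M.av j) W) := by
  have e : ∀ (b : St d) (V : Lk d → G), act T b V = act T 0 (act T0 b V) := fun b V => by
    rw [act_act]; simp
  rw [e, M.av_refl, avg_shift, ← e]

/-- the block average that the variable with index `p` fluctuates around -/
def pa (p : ℕ × Lk d) (w : Hist d G) : G :=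
  avg (M.L (p.1 - 1)) (M.av (p.1 - 1)) (lvl w (p.1 - 1)) p.2

/-- conditional density of one variable -/
noncomputable def ker (p : ℕ × Lk d) (w : Hist d G) : ℝ :=
  if p.1 = 0 then 1 else M.h (p.1 - 1) (w p * (M.pa p w)⁻¹)

/-- joint conditional density of finitely many variables -/
noncomputable def dens (D : Finset (ℕ × Lk d)) (w : Hist d G) : ℝ := ∏ p ∈ D, M.ker p w

theorem measurable_pa (p : ℕ × Lk d) : Measurable (M.pa p) :=
  (M.av_meas _ _).comp ((measurable_act _ _).comp (measurable_lvl _))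

theorem bm_ker (p : ℕ × Lk d) : BM (M.ker p) := by
  unfold ker
  split_ifs
  · exact BM.const 1
  · exact (M.h_bm _).comp ((measurable_pi_apply p).mul (M.measurable_pa p).inv)

theorem bm_dens (D : Finset (ℕ × Lk d)) : BM (M.dens D) := BM.prod fun p _ => M.bm_ker p

theorem dens_nonneg (D : Finset (ℕ × Lk d)) (w : Hist d G) : 0 ≤ M.dens D w :=
  Finset.prod_nonneg fun p _ => by
    unfold ker
    split_ifs
    · exact zero_le_one
    · exact M.h_nonneg _ _

theorem pa_actH {k : ℕ} {p : ℕ × Lk d} (h0 : p.1 ≠ 0) (hp : p.1 ≤ k) (T : Fin d → Bool) (v : St d)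
    (w : Hist d G) :
    M.pa p (actH T (M.sc k v) w) = sg (T p.2.2) (M.pa (mvH T (M.sc k v) p) w) := by
  obtain ⟨j, e⟩ := p
  obtain ⟨j, rfl⟩ := Nat.exists_eq_succ_of_ne_zero h0
  simp only [pa, mvH, Nat.succ_sub_one, lvl_actH, M.sc_succ hp, avg_act]
  rfl

theorem h_sg (j : ℕ) (b : Bool) (x y : G) : M.h j (sg b x * (sg b y)⁻¹) = M.h j (x * y⁻¹) := by
  cases b
  · rfl
  · rw [← M.h_inv, M.h_comm]
    simp [M.h_comm j y⁻¹]

theorem ker_actH {k : ℕ} {p : ℕ × Lk d} (hp : p.1 ≤ k) (T : Fin d → Bool) (v : St d)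
    (w : Hist d G) : M.ker p (actH T (M.sc k v) w) = M.ker (mvH T (M.sc k v) p) w := by
  unfold ker
  by_cases h0 : p.1 = 0
  · simp [h0, mvH]
  · rw [if_neg h0, if_neg (show ¬ (mvH T (M.sc k v) p).1 = 0 from h0), M.pa_actH h0 hp]
    exact M.h_sg _ _ _ _

theorem pa_per {k : ℕ} {p : ℕ × Lk d} (h0 : p.1 ≠ 0) (hp : p.1 ≤ k) (N : St d) (w : Hist d G) :
    M.pa (perH (M.sc k N) p) (pcH (M.sc k N) w) = M.pa p (pcH (M.sc k N) w) := by
  obtain ⟨j, e⟩ := p
  obtain ⟨j, rfl⟩ := Nat.exists_eq_succ_of_ne_zero h0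
  simp only [pa, perH, Nat.succ_sub_one, lvl_pcH, avg, per]
  congr 1
  refine act_pc_congr (fun i => ?_) _ _
  rw [M.sc_succ hp]
  simp only [Pi.smul_apply, smul_eq_mul, ← mul_sub]
  exact mul_dvd_mul_left _ (by rw [← dvd_neg, neg_sub]; exact Int.dvd_emod_sub_self)

theorem ker_per {k : ℕ} {p : ℕ × Lk d} (hp : p.1 ≤ k) (N : St d) (w : Hist d G) :
    M.ker (perH (M.sc k N) p) (pcH (M.sc k N) w) = M.ker p (pcH (M.sc k N) w) := by
  unfold ker
  by_cases h0 : p.1 = 0
  · simp [h0, perH]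
  · rw [if_neg h0, if_neg (show ¬ (perH (M.sc k N) p).1 = 0 from h0), M.pa_per h0 hp]
    simp [pcH, pat, perH, per]

/-- closed under taking parents -/
def Closed (D : Set (ℕ × Lk d)) : Prop := ∀ j e, (j + 1, e) ∈ D → ∀ e' : Lk d,
  (∀ i, M.L j * e.1 i + 1 - M.L j ≤ e'.1 i ∧
    e'.1 i + dl i e'.2 ≤ M.L j * (e.1 i + dl i e.2) + M.L j - 1) → (j, e') ∈ D

theorem pa_dep {D : Set (ℕ × Lk d)} (hD : M.Closed D) {p : ℕ × Lk d} (hp : p ∈ D) (h0 : p.1 ≠ 0) :
    DependsOn (M.pa p) (D ∩ {q | q.1 < p.1}) := by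
  obtain ⟨j, e⟩ := p
  obtain ⟨j, rfl⟩ := Nat.exists_eq_succ_of_ne_zero h0
  intro w w' h
  refine M.av_dep _ _ fun e' he' => ?_
  simp only [act, pat, sg_false, lvl, Nat.succ_sub_one]
  refine h _ ⟨hD j e hp _ fun i => ?_, by simp⟩
  have := he' i
  simp only [mv, Bool.false_eq_true, if_false, Pi.smul_apply, smul_eq_mul, Nat.succ_sub_one] at this ⊢
  constructor <;> linarith [this.1, this.2]

theorem closed_univ : M.Closed Set.univ := fun _ _ _ _ _ => trivial

theorem dens_dep {D : Finset (ℕ × Lk d)} (hD : M.Closed D) : DependsOn (M.dens D) D := by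
  refine dep_prod fun p hp w w' h => ?_
  unfold ker
  split_ifs with h0
  · rfl
  · rw [h p hp, M.pa_dep hD hp h0 fun q hq => h q hq.1]

/-- conditional expectation given the finest field -/
noncomputable def cf (D : Finset (ℕ × Lk d)) (g : Hist d G → ℝ) (W : Lk d → G) : ℝ :=
  ∫ w, g (join W w) * M.dens D (join W w) ∂PP μ (ℕ × Lk d)

variable {D : Finset (ℕ × Lk d)} {g : Hist d G → ℝ}

theorem bm_cf (hg : BM g) : BM (M.cf D g) :=
  BM.param (F := fun p : (Lk d → G) × Hist d G => g (join p.1 p.2) * M.dens D (join p.1 p.2))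
    ((hg.mul (M.bm_dens D)).comp measurable_join) _

theorem cf_nonneg (hg : ∀ w, 0 ≤ g w) (W : Lk d → G) : 0 ≤ M.cf D g W :=
  integral_nonneg fun _ => mul_nonneg (hg _) (M.dens_nonneg _ _)

theorem cf_dep (hD : M.Closed D) (hg : DependsOn g D) : DependsOn (M.cf D g) {e | (0, e) ∈ D} := by
  intro W W' h
  refine integral_congr_ae (ae_of_all _ fun w => DependsOn.mul' hg (M.dens_dep hD) fun p hp => ?_)
  by_cases h0 : p ∈ lev0
  · obtain ⟨j, e⟩ := p
    obtain rfl : j = 0 := h0
    simp only [join_zero, h e hp]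
  · simp only [join, mix_of_not h0]

theorem dens_filter (D : Finset (ℕ × Lk d)) (w : Hist d G) : M.dens D w =
    ∏ p ∈ D.filter (·.1 ≠ 0), M.h (p.1 - 1) (w p * (M.pa p w)⁻¹) := by
  rw [Finset.prod_filter]
  exact Finset.prod_congr rfl fun p _ => by simp [ker]

theorem cf_one (D : Finset (ℕ × Lk d)) (W : Lk d → G) : M.cf D (fun _ => 1) W = 1 := by
  have mj := measurable_join' W
  have := int_kers μ Prod.fst (h := fun p => M.h (p.1 - 1)) (a := fun p w => M.pa p (join W w))
    (D.filter (·.1 ≠ 0)) (fun p _ => M.h_bm _) (fun p _ => M.h_int _)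
    (fun p _ => (M.measurable_pa p).comp mj) (fun p hp w w' h => M.pa_dep M.closed_univ trivial
      (Finset.mem_filter.mp hp).2 fun q hq => by
        by_cases h0 : q ∈ lev0
        · simp only [join, mix_of_mem h0]
        · simp only [join, mix_of_not h0, h q hq.2]) (BM.const 1) fun _ _ _ => rfl
  simp only [integral_const, probReal_univ, smul_eq_mul, mul_one] at this
  rw [← this]
  refine integral_congr_ae (ae_of_all _ fun w => ?_)
  simp only [dens_filter]
  congr 1
  refine Finset.prod_congr rfl fun p hp => ?_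
  rw [join_ne _ _ (Finset.mem_filter.mp hp).2]

theorem cf_le_one (hg : BM g) (h1 : ∀ w, g w ≤ 1) (W : Lk d → G) : M.cf D g W ≤ 1 := by
  have mj := measurable_join' W
  rw [← M.cf_one D W]
  exact integral_mono (((hg.mul (M.bm_dens D)).comp mj).integrable _)
    ((((BM.const 1).mul (M.bm_dens D)).comp mj).integrable _) fun w =>
      mul_le_mul_of_nonneg_right (h1 _) (M.dens_nonneg _ _)

theorem cf_act {k : ℕ} (hg : BM g) (hk : ∀ p ∈ D, p.1 ≤ k) (T : Fin d → Bool) (v : St d)
    {D' : Finset (ℕ × Lk d)} (hD : ∀ p, p ∈ D ↔ mvH T (M.sc k v) p ∈ D') (W : Lk d → G) :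
    M.cf D g (act T (M.sc k v 0) W) = M.cf D' (fun w => g (actH T (M.sc k v) w)) W := by
  have mj := measurable_join' (act T (M.sc k v 0) W)
  rw [cf, ← int_mp (mp_pat μ (mvH_inj T (M.sc k v)) fun p => T p.2.2)
    ((hg.mul (M.bm_dens D)).comp mj).meas]
  refine integral_congr_ae (ae_of_all _ fun w => ?_)
  have e : join (act T (M.sc k v 0) W) (pat (mvH T (M.sc k v)) (fun p => T p.2.2) w) =
      actH T (M.sc k v) (join W w) := by
    funext p
    by_cases h0 : p ∈ lev0
    · obtain ⟨j, e⟩ := p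
      obtain rfl : j = 0 := h0
      simp only [join_zero, actH, pat, mvH, act]
    · simp only [join, mix_of_not h0, actH, pat,
        mix_of_not (show mvH T (M.sc k v) p ∉ lev0 from h0)]
  simp only [e]
  congr 1
  refine Finset.prod_bij (fun p _ => mvH T (M.sc k v) p) (fun p hp => (hD p).mp hp)
    (fun p _ q _ h => mvH_inj _ _ h) (fun q hq => ?_) fun p hp => M.ker_actH (hk p hp) _ _ _
  have e : mvH T (M.sc k v) (q.1, mv T (fun i => if T i then M.sc k v q.1 i else -M.sc k v q.1 i)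
      q.2) = q := by simp only [mvH, mv_inv']
  exact ⟨_, (hD _).mpr (by rwa [e]), e⟩

/-- unnormalised joint expectation on the torus whose level `k` periods are `N` -/
noncomputable def JZ (u : (Lk d → G) → ℝ) (k : ℕ) (N : St d) (g : Hist d G → ℝ) : ℝ :=
  ∫ w, BW u (M.sc k N 0) (lvl (pcH (M.sc k N) w) 0) *
    (g (pcH (M.sc k N) w) * M.dens (fund k (M.sc k N)) (pcH (M.sc k N) w)) ∂PP μ (ℕ × Lk d)

theorem sc_pos (k : ℕ) {N : St d} (hN : ∀ i, 0 < N i) (j : ℕ) (i : Fin d) : 0 < M.sc k N j i :=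
  mul_pos (M.rat_pos _ _) (hN i)

/-- factorisation of the conditional expectation over separated cones -/
theorem factor {u : (Lk d → G) → ℝ} (hu : Pot u) (k : ℕ) {N : St d} (hN : ∀ i, 0 < N i) {ι : Type}
    (A : Finset ι) {D : ι → Finset (ℕ × Lk d)} {g : ι → Hist d G → ℝ} (hc : ∀ a, M.Closed (D a))
    (hk : ∀ a, ∀ p ∈ D a, p.1 ≤ k) (bg : ∀ a, BM (g a)) (dg : ∀ a, DependsOn (g a) (D a))
    (hs : ∀ a ∈ A, ∀ a' ∈ A, ∀ p ∈ D a, ∀ p' ∈ D a', p.1 ≠ 0 →
      perH (M.sc k N) p = perH (M.sc k N) p' → a = a' ∧ p = p') :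
    M.JZ u k N (fun w => ∏ a ∈ A, g a w) =
      ZZ μ u (M.sc k N 0) fun W => ∏ a ∈ A, M.cf (D a) (g a) W := by
  classical
  set n := M.sc k N with hn
  set Dt : ι → Finset (ℕ × Lk d) := fun a => ((D a).filter (·.1 ≠ 0)).image (perH n) with hDt
  have hdisj : ∀ a ∈ A, ∀ a' ∈ A, a ≠ a' → Disjoint (Dt a) (Dt a') := by
    intro a ha a' ha' hne
    rw [Finset.disjoint_left]
    intro q hq hq'
    obtain ⟨p, hp, rfl⟩ := Finset.mem_image.mp hq
    obtain ⟨p', hp', e⟩ := Finset.mem_image.mp hq'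
    rw [Finset.mem_filter] at hp hp'
    exact hne (hs a ha a' ha' p hp.1 p' hp'.1 hp.2 e.symm).1
  have hsub : A.biUnion Dt ⊆ (fund k n).filter (·.1 ≠ 0) := by
    intro q hq
    obtain ⟨a, -, hq⟩ := Finset.mem_biUnion.mp hq
    obtain ⟨p, hp, rfl⟩ := Finset.mem_image.mp hq
    rw [Finset.mem_filter] at hp ⊢
    exact ⟨mem_fund.mpr ⟨hk a p hp.1, mem_box.mpr fun i => ⟨Int.emod_nonneg _
      (M.sc_pos k hN _ i).ne', Int.emod_lt_of_pos _ (M.sc_pos k hN _ i)⟩⟩, hp.2⟩
  set E := (fund k n).filter (·.1 ≠ 0) \ A.biUnion Dt with hE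
  set F : ι → Hist d G → ℝ := fun a w => g a w * M.dens (D a) w with hF
  have bF : ∀ a, BM (F a) := fun a => (bg a).mul (M.bm_dens _)
  have dF : ∀ a, DependsOn (F a) (D a) := fun a => DependsOn.mul' (dg a) (M.dens_dep (hc a))
  have dF' : ∀ a, DependsOn (fun w => F a (pcH n w)) (lev0 ∪ Dt a) := fun a =>
    (dep_pat (dF a) _ _).mono (by
      rintro _ ⟨p, hp, rfl⟩
      by_cases h0 : p.1 = 0
      · exact Or.inl h0
      · exact Or.inr (Finset.mem_coe.mpr (Finset.mem_image_of_mem _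
          (Finset.mem_filter.mpr ⟨hp, h0⟩))))
  have bB : BM fun w : Hist d G => BW u (n 0) (pc (n 0) (lvl w 0)) :=
    (hu.bw _).comp ((measurable_pc _).comp (measurable_lvl 0))
  have dB : DependsOn (fun w : Hist d G => BW u (n 0) (pc (n 0) (lvl w 0))) lev0 := fun w w' h => by
    simp only [show lvl w 0 = lvl w' 0 from funext fun e => h _ rfl]
  have bP : BM fun w => ∏ a ∈ A, F a (pcH n w) := BM.prod fun a _ => (bF a).comp (measurable_pcH n)
  have e1 : ∀ w : Hist d G, M.dens (fund k n) (pcH n w) = (∏ a ∈ A, M.dens (D a) (pcH n w)) *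
      ∏ p ∈ E, M.h (p.1 - 1) (w p * (M.pa p (pcH n w))⁻¹) := by
    intro w
    have k0 : ∀ (D : Finset (ℕ × Lk d)), M.dens D (pcH n w) =
        ∏ p ∈ D.filter (·.1 ≠ 0), M.ker p (pcH n w) := fun D => by
      rw [Finset.prod_filter]
      exact Finset.prod_congr rfl fun p _ => by by_cases h : p.1 = 0 <;> simp [ker, h]
    rw [k0, ← Finset.prod_sdiff hsub, mul_comm, Finset.prod_biUnion hdisj]
    congr 1
    · refine Finset.prod_congr rfl fun a ha => ?_
      rw [k0, hDt, Finset.prod_image fun p hp q hq e => (hs a ha a ha p (Finset.mem_filter.mp hp).1 q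
        (Finset.mem_filter.mp hq).1 (Finset.mem_filter.mp hp).2 e).2]
      exact Finset.prod_congr rfl fun p hp => M.ker_per (hk a p (Finset.mem_filter.mp hp).1) _ _
    · refine Finset.prod_congr rfl fun p hp => ?_
      have hp' := Finset.mem_filter.mp (Finset.mem_sdiff.mp hp).1
      have : perH n p = p := Prod.ext rfl (Prod.ext (funext fun i =>
        Int.emod_eq_of_lt (mem_box.mp (mem_fund.mp hp'.1).2 i).1
          (mem_box.mp (mem_fund.mp hp'.1).2 i).2) rfl)
      rw [ker, if_neg hp'.2]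
      simp only [pcH, pat, sg_false, this]
  have e2 := int_kers μ Prod.fst (h := fun p => M.h (p.1 - 1)) (a := fun p w => M.pa p (pcH n w)) E
    (fun p _ => M.h_bm _) (fun p _ => M.h_int _)
    (fun p _ => (M.measurable_pa p).comp (measurable_pcH n))
    (fun p hp => (dep_pat (M.pa_dep M.closed_univ trivial
      (Finset.mem_filter.mp (Finset.mem_sdiff.mp hp).1).2) _ _).mono (by
        rintro _ ⟨q, hq, rfl⟩; exact hq.2)) (bB.mul bP)
    (DependsOn.mul' (dB.mono fun p hp hp' =>
      (Finset.mem_filter.mp (Finset.mem_sdiff.mp hp').1).2 hp)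
      (dep_prod fun a ha => (dF' a).mono fun p hp hp' => by
        rcases hp with hp | hp
        · exact (Finset.mem_filter.mp (Finset.mem_sdiff.mp hp').1).2 hp
        · exact (Finset.mem_sdiff.mp hp').2 (Finset.mem_biUnion.mpr ⟨a, ha, hp⟩)))
  have e3 : M.JZ u k N (fun w => ∏ a ∈ A, g a w) =
      ∫ w, BW u (n 0) (pc (n 0) (lvl w 0)) * ∏ a ∈ A, F a (pcH n w) ∂PP μ (ℕ × Lk d) := by
    rw [← e2]
    refine integral_congr_ae (ae_of_all _ fun w => ?_)
    simp only [← hn, e1, lvl_pcH, hF, Finset.prod_mul_distrib, mul_assoc]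
  rw [e3, ← int_cond μ (bB.mul bP) lev0, ZZ, TI, ← int_mp (mp_pat μ (φ := fun e : Lk d => (0, e))
    (fun e e' h => (Prod.ext_iff.mp h).2) fun _ => false)
    (((hu.bw _).mul (BM.prod fun a _ => M.bm_cf (bg a))).comp (measurable_pc _)).meas]
  refine integral_congr_ae (ae_of_all _ fun w => ?_)
  simp only
  rw [cond_mul_left μ dB, cond_prod_indep μ A (fun a _ => (bF a).comp (measurable_pcH n))
    (fun a _ => dF' a) fun a ha a' ha' hne => Finset.disjoint_coe.mpr (hdisj a ha a' ha' hne)]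
  congr 1
  refine Finset.prod_congr rfl fun a ha => ?_
  refine (cond_pat μ (V := lev0) (dF a) (φ := perH n) _ (fun _ _ => Iff.rfl) w).trans ?_
  refine (int_pat μ (F := fun v => F a (mix lev0 (pcH n w) v)) (D := D a \ lev0) (φ' := id)
    (s' := fun _ => false) ((bF a).meas.comp (measurable_mix_right _ _))
    (dep_mix ((dF a).mono (by simp)) _) (fun p hp q hq => ⟨fun e =>
      (hs a ha a ha p hp.1 q hq.1 hp.2 e).2, fun e => congrArg _ e⟩) fun _ _ _ _ _ => rfl).trans ?_
  refine integral_congr_ae (ae_of_all _ fun v => congrArg (F a) (funext fun p => ?_))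
  by_cases h0 : p ∈ lev0
  · obtain ⟨j, e⟩ := p
    obtain rfl : j = 0 := h0
    rw [join_zero, mix_of_mem (show (0, e) ∈ lev0 from rfl)]
    rfl
  · simp only [join, mix_of_not h0]
    rfl

end Model

end Pool.Agent.Lib.MP_7f377f_mp.RGP
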