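import Mathlib

/-! The truncated binomial series for the inverse square root of a positive operator. -/

namespace Pool.Agent.Lib.MP_7f377f_mp.Kit

open Finset Real
open scoped InnerProductSpace

/-- Taylor coefficients of `(1 - t) ^ (-1/2)` -/
noncomputable def bc : ℕ → ℝ
  | 0 => 1
  | i + 1 => bc i * ((2 * i + 1) / (2 * i + 2))

theorem bc_mem (i : ℕ) : 0 < bc i ∧ bc i ≤ 1 := by
  induction i with
  | zero => simp [bc]
  | succ i ih =>
    have : (2 * i + 1 : ℝ) / (2 * i + 2) ≤ 1 := by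
      rw [div_le_one (by positivity)]
      linarith
    exact ⟨mul_pos ih.1 (by positivity), mul_le_one₀ ih.2 (by positivity) this⟩

/-- the truncated series -/
noncomputable def bp (m : ℕ) (t : ℝ) : ℝ := ∑ i ∈ range (m + 1), bc i * t ^ i

theorem bp_deriv (m : ℕ) (t : ℝ) : ∃ p', HasDerivAt (bp m) p' t ∧
    2 * (1 - t) * p' - bp m t = -((2 * m + 1) * bc m * t ^ m) := by
  induction m with
  | zero => exact ⟨0, by unfold bp; simpa using hasDerivAt_const t (bc 0), by simp [bp]⟩
  | succ m ih =>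
    obtain ⟨p', h, e⟩ := ih
    have e0 : bp (m + 1) = fun t => bp m t + bc (m + 1) * t ^ (m + 1) := by
      funext t
      simp only [bp, sum_range_succ _ (m + 1)]
    refine ⟨_, by rw [e0]; exact h.add ((hasDerivAt_pow (m + 1) t).const_mul _), ?_⟩
    have e1 : (2 * m + 1) * bc m = (2 * m + 2) * bc (m + 1) := by
      rw [bc]
      field_simp
    rw [e1] at e
    rw [e0]
    simp only [add_tsub_cancel_right, pow_succ]
    push_cast
    linear_combination e

theorem bp_mem (m : ℕ) {t : ℝ} (h0 : 0 ≤ t) (h1 : t ≤ 1) : 1 ≤ bp m t ∧ bp m t ≤ m + 1 := by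
  constructor
  · have := single_le_sum (f := fun i => bc i * t ^ i) (s := range (m + 1))
      (fun i _ => mul_nonneg (bc_mem i).1.le (pow_nonneg h0 i)) (mem_range.2 (Nat.succ_pos m))
    simpa [bc, bp] using this
  · have := sum_le_card_nsmul (range (m + 1)) (fun i => bc i * t ^ i) 1 fun i _ =>
      mul_le_one₀ (bc_mem i).2 (pow_nonneg h0 i) (pow_le_one₀ h0 h1)
    simpa [bp] using this

/-- the error of the truncation -/
noncomputable def tau (m : ℕ) (δ : ℝ) : ℝ := (m + 1) * (2 * m + 1) * (1 - δ) ^ m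

theorem bp_sq (m : ℕ) {t δ : ℝ} (h0 : 0 ≤ t) (h1 : t ≤ 1 - δ) (hδ : 0 ≤ δ) :
    |bp m t * (1 - t) * bp m t - 1| ≤ tau m δ := by
  choose p' h e using bp_deriv m
  have := norm_image_sub_le_of_norm_deriv_le_segment' (a := 0) (b := t) (C := tau m δ)
    (f := fun s => bp m s * (1 - s) * bp m s)
    (f' := fun s => -(bp m s * ((2 * m + 1) * bc m * s ^ m))) (fun s _ => by
      refine HasDerivAt.hasDerivWithinAt ?_
      refine (((h s).mul ((hasDerivAt_id s).const_sub 1)).mul (h s)).congr_deriv ?_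
      simp only [Pi.mul_apply, id]
      linear_combination (bp m s) * e s) (fun s hs => by
      have b := bp_mem m hs.1 (by linarith [hs.2])
      have c := bc_mem m
      have s0 := hs.1
      rw [norm_neg, Real.norm_of_nonneg (mul_nonneg (by linarith) (by have := c.1; positivity)),
        tau, mul_assoc (m + 1 : ℝ)]
      refine mul_le_mul b.2 ?_ (by have := c.1; positivity) (by positivity)
      exact mul_le_mul (mul_le_of_le_one_right (by positivity) c.2)
        (pow_le_pow_left₀ s0 (by linarith [hs.2]) m) (by positivity) (by positivity))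
    t ⟨h0, le_rfl⟩
  have t0 : 0 ≤ tau m δ := mul_nonneg (by positivity) (pow_nonneg (by linarith) m)
  simp only [bp, sum_range_succ', pow_succ, mul_zero, sum_const_zero, bc, pow_zero, mul_one,
    zero_add, sub_zero, Real.norm_eq_abs] at this ⊢
  exact this.trans (mul_le_of_le_one_right t0 (by linarith))

theorem bp_log (m : ℕ) {t δ : ℝ} (h0 : 0 ≤ t) (h1 : t ≤ 1 - δ) (hδ : 0 < δ)
    (hτ : tau m δ ≤ 1 / 2) :
    |log (bp m t) - ∑ i ∈ range m, t ^ (i + 1) / (2 * (i + 1))| ≤ tau m δ + (1 - δ) ^ m / δ := by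
  have b := (bp_mem m h0 (by linarith)).1
  have h2 := abs_le.1 (bp_sq m h0 h1 hδ.le)
  have h3 := abs_log_sub_add_sum_range_le (x := t) (by rw [abs_of_nonneg h0]; linarith) m
  rw [abs_of_nonneg h0] at h3
  have h4 : t ^ (m + 1) / (1 - t) ≤ (1 - δ) ^ m / δ := by
    refine div_le_div₀ (pow_nonneg (by linarith) m) ?_ hδ (by linarith)
    rw [pow_succ]
    exact (mul_le_of_le_one_right (pow_nonneg h0 m) (by linarith)).trans (pow_le_pow_left₀ h0 h1 m)
  set g := bp m t * (1 - t) * bp m t with hg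
  have g0 : 0 < g := by linarith
  have e : log g = 2 * log (bp m t) + log (1 - t) := by
    rw [hg, log_mul (mul_pos (by linarith) (by linarith)).ne' (by linarith),
      log_mul (by linarith) (by linarith)]
    ring
  have l1 := log_le_sub_one_of_pos g0
  have l2 := one_sub_inv_le_log_of_pos g0
  have l3 : g⁻¹ ≤ 1 + 2 * tau m δ := by
    rw [inv_le_iff_one_le_mul₀ g0]
    nlinarith
  have e2 : ∑ i ∈ range m, t ^ (i + 1) / (2 * (i + 1)) =
      (∑ i ∈ range m, t ^ (i + 1) / (i + 1)) / 2 := by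
    rw [sum_div]
    exact sum_congr rfl fun i _ => by rw [div_div, mul_comm]
  have h5 := abs_le.1 (h3.trans h4)
  have h6 : 0 ≤ (1 - δ) ^ m / δ := div_nonneg (pow_nonneg (by linarith) m) hδ.le
  rw [e2, abs_le]
  constructor <;> linarith

/-- the truncated series in an algebra -/
noncomputable def bP {K A : Type} [RCLike K] [Ring A] [Algebra K A] (m : ℕ) (T : A) : A :=
  ∑ i ∈ range (m + 1), (bc i : K) • T ^ i

variable {E : Type} [NormedAddCommGroup E] [InnerProductSpace ℝ E] [FiniteDimensional ℝ E]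

theorem spec {T : E →ₗ[ℝ] E} (hT : T.IsSymmetric) {δ : ℝ} (hδ : 0 < δ)
    (h0 : ∀ a, 0 ≤ ⟪a, T a⟫_ℝ) (h1 : ∀ a, ⟪a, T a⟫_ℝ ≤ (1 - δ) * ‖a‖ ^ 2) (m : ℕ)
    (hτ : tau m δ ≤ 1 / 2) :
    (bP (K := ℝ) m T).IsSymmetric ∧
    (∀ z, ‖bP (K := ℝ) m T ((1 - T) (bP (K := ℝ) m T z)) - z‖ ≤ tau m δ * ‖z‖) ∧
    (∀ z, |⟪bP (K := ℝ) m T z, (1 - T) (bP (K := ℝ) m T z)⟫_ℝ - ‖z‖ ^ 2| ≤ tau m δ * ‖z‖ ^ 2) ∧
    0 < (bP (K := ℝ) m T).det ∧
    |log (bP (K := ℝ) m T).det - ∑ i ∈ range m, (T ^ (i + 1)).trace ℝ E / (2 * (i + 1))| ≤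
      Module.finrank ℝ E * (tau m δ + (1 - δ) ^ m / δ) := by
  set b := hT.eigenvectorBasis rfl
  set t := hT.eigenvalues rfl
  set P := bP (K := ℝ) m T with hP
  have e1 : ∀ j, T (b j) = t j • b j := hT.apply_eigenvectorBasis rfl
  have e2 : ∀ i j, (T ^ i) (b j) = t j ^ i • b j := fun i j => by
    induction i with
    | zero => simp
    | succ i ih => rw [pow_succ', Module.End.mul_apply, ih, map_smul, e1, smul_smul, pow_succ]
  have e3 : ∀ j, P (b j) = bp m (t j) • b j := fun j => by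
    simp [hP, bP, bp, e2, sum_smul, smul_smul]
  have t0 : ∀ j, 0 ≤ t j := fun j => by simpa [e1, inner_smul_right] using h0 (b j)
  have t1 : ∀ j, t j ≤ 1 - δ := fun j => by simpa [e1, inner_smul_right] using h1 (b j)
  have sP : P.IsSymmetric := LinearMap.isSymmetric_sum _ fun i _ => (hT.pow i).smul (by simp)
  have c1 : ∀ z, ‖P ((1 - T) (P z)) - z‖ ≤ tau m δ * ‖z‖ := by
    intro z
    set R : E →ₗ[ℝ] E := P * (1 - T) * P - 1 with hR
    have sR : R.IsSymmetric := fun x y => by
      simp only [hR, LinearMap.sub_apply, Module.End.mul_apply, Module.End.one_apply,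
        inner_sub_left, inner_sub_right, sP _ _, hT _ _, map_sub]
    have e4 : ∀ j, R (b j) = (bp m (t j) * (1 - t j) * bp m (t j) - 1) • b j := fun j => by
      simp only [hR, LinearMap.sub_apply, Module.End.mul_apply, Module.End.one_apply, e3, map_smul,
        map_sub, e1, smul_smul]
      module
    have τ0 : 0 ≤ tau m δ ∨ ‖z‖ = 0 := by
      by_contra h
      push Not at h
      have := b.sum_sq_inner_right z
      rcases isEmpty_or_nonempty (Fin (Module.finrank ℝ E)) with h' | ⟨⟨j⟩⟩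
      · simp [eq_comm (a := (0 : ℝ))] at this h
        exact h.2 this
      · exact h.1.not_ge ((abs_nonneg _).trans (bp_sq m (t0 j) (t1 j) hδ.le))
    have : ‖R z‖ ^ 2 ≤ (tau m δ * ‖z‖) ^ 2 := by
      rw [mul_pow, ← b.sum_sq_inner_right, ← b.sum_sq_inner_right, mul_sum]
      refine sum_le_sum fun j _ => ?_
      rw [← sR, e4, real_inner_smul_left, mul_pow]
      exact mul_le_mul_of_nonneg_right (sq_le_sq' (abs_le.1 (bp_sq m (t0 j) (t1 j) hδ.le)).1
        (abs_le.1 (bp_sq m (t0 j) (t1 j) hδ.le)).2) (sq_nonneg _)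
    exact (abs_le_of_sq_le_sq' this (τ0.elim (fun h => by positivity) fun h => by simp [h])).2
  have dP : P.det = ∏ j, bp m (t j) := by
    rw [← LinearMap.det_toMatrix b.toBasis, ← Matrix.det_diagonal]
    congr 1
    ext i j
    rw [LinearMap.toMatrix_apply, b.coe_toBasis, e3, Matrix.diagonal_apply]
    by_cases h : i = j <;> simp [h]
  have p0 : ∀ j, 0 < bp m (t j) := fun j =>
    one_pos.trans_le (bp_mem m (t0 j) (by linarith [t1 j])).1
  refine ⟨sP, c1, fun z => ?_, dP ▸ prod_pos fun j _ => p0 j, ?_⟩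
  · rw [sP, ← real_inner_self_eq_norm_sq, ← inner_sub_right, real_inner_self_eq_norm_sq]
    refine (abs_real_inner_le_norm _ _).trans ?_
    nlinarith [c1 z, norm_nonneg z]
  · simp only [dP, log_prod fun j _ => (p0 j).ne', LinearMap.trace_eq_sum_inner _ b, e2,
      real_inner_smul_right, sum_div, b.inner_eq_one, mul_one]
    rw [sum_comm, ← sum_sub_distrib]
    refine (abs_sum_le_sum_abs _ _).trans ((sum_le_card_nsmul _ _ _ fun j _ =>
      bp_log m (t0 j) (t1 j) hδ hτ).trans_eq ?_)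
    simp [mul_add]

end Pool.Agent.Lib.MP_7f377f_mp.Kit
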