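import Mathlib

/-! Schwarz lemma estimates for functions which are holomorphic along lines; holomorphy of
parametric integrals. -/

namespace Pool.Agent.Lib.MP_7f377f_mp.Kit

open Metric Set Filter MeasureTheory
open scoped Topology

/-- a family of balanced convex sets, `D θ` being the ball of radius `θ` -/
structure Dom (E : Type) [AddCommGroup E] [Module ℂ E] where
  D : ℝ → Set E
  smul : ∀ (c : ℂ) {θ : ℝ} {B : E}, B ∈ D θ → c • B ∈ D (‖c‖ * θ)
  add : ∀ {θ θ' : ℝ} {B B' : E}, B ∈ D θ → B' ∈ D θ' → B + B' ∈ D (θ + θ')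
  mono : ∀ {θ θ' : ℝ} {B : E}, θ ≤ θ' → B ∈ D θ → B ∈ D θ'

variable {E F : Type} [AddCommGroup E] [Module ℂ E] [NormedAddCommGroup F] [NormedSpace ℂ F]

namespace Dom

variable (O : Dom E) {k : E → F} {M : ℝ}

/-- holomorphic along complex lines in the unit ball -/
def LH (k : E → F) : Prop := ∀ (B δ : E) (S : Set ℂ), IsOpen S → (∀ t ∈ S, B + t • δ ∈ O.D 1) →
  DifferentiableOn ℂ (fun t : ℂ => k (B + t • δ)) S

variable {O}

theorem zero {θ θ' : ℝ} {B : E} (h : B ∈ O.D θ) (h' : 0 ≤ θ') : (0 : E) ∈ O.D θ' := by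
  have := O.smul 0 h
  rw [zero_smul, norm_zero, zero_mul] at this
  exact O.mono h' this

theorem neg {θ : ℝ} {B : E} (h : B ∈ O.D θ) : -B ∈ O.D θ := by
  simpa using O.smul (-1) h

theorem sub {θ θ' : ℝ} {B B' : E} (h : B ∈ O.D θ) (h' : B' ∈ O.D θ') : B - B' ∈ O.D (θ + θ') := by
  rw [sub_eq_add_neg]
  exact O.add h (neg h')

theorem line {lam θ R r : ℝ} {B δ : E} (hB : B ∈ O.D lam) (hδ : δ ∈ O.D θ) (h0 : 0 ≤ θ)
    (hR : lam + R * θ ≤ r) {t : ℂ} (ht : t ∈ ball (0 : ℂ) R) : B + t • δ ∈ O.D r := by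
  rw [mem_ball_zero_iff] at ht
  exact O.mono (by nlinarith) (O.add hB (O.smul t hδ))

theorem LH.sub {k' : E → F} (h : O.LH k) (h' : O.LH k') : O.LH fun B => k B - k' B :=
  fun B δ S hS hD => (h B δ S hS hD).sub (h' B δ S hS hD)

/-- first order estimate inside the ball of radius `r` -/
theorem LH.lip' (h : O.LH k) {r lam θ : ℝ} (hr : r ≤ 1) {c : F}
    (hM : ∀ B ∈ O.D r, ‖k B - c‖ ≤ M) {B δ : E} (hB : B ∈ O.D lam) (hδ : δ ∈ O.D θ) (h0 : 0 < θ)
    (hθ : lam + θ < r) : ‖k (B + δ) - k B‖ ≤ 2 * M * θ / (r - lam) := by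
  have hl : ∀ t ∈ ball (0 : ℂ) ((r - lam) / θ), B + t • δ ∈ O.D r := fun t ht =>
    line hB hδ h0.le (by rw [div_mul_cancel₀ _ h0.ne']; linarith) ht
  have h1 : (1 : ℂ) ∈ ball (0 : ℂ) ((r - lam) / θ) := by
    rw [mem_ball_zero_iff, norm_one, lt_div_iff₀ h0]
    linarith
  have := Complex.dist_le_div_mul_dist_of_mapsTo_ball (R₂ := 2 * M)
    (h B δ _ isOpen_ball fun t ht => O.mono hr (hl t ht)) (fun t ht => by
      have a := hM _ (hl t ht)
      have b := hM _ (O.mono (by linarith : lam ≤ r) hB)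
      rw [mem_closedBall_iff_norm, zero_smul, add_zero]
      calc _ = ‖(k (B + t • δ) - c) - (k B - c)‖ := by congr 1; abel
        _ ≤ _ := (norm_sub_le _ _).trans (by linarith)) h1
  rw [dist_eq_norm, dist_zero_right, norm_one, one_smul, zero_smul, add_zero, mul_one,
    div_div_eq_mul_div] at this
  exact this

theorem LH.lip (h : O.LH k) (hM : ∀ B ∈ O.D 1, ‖k B‖ ≤ M) {lam θ : ℝ} {B δ : E}
    (hB : B ∈ O.D lam) (hδ : δ ∈ O.D θ) (h0 : 0 < θ) (hθ : lam + θ < 1) :
    ‖k (B + δ) - k B‖ ≤ 2 * M * θ / (1 - lam) :=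
  h.lip' le_rfl (c := 0) (by simpa using hM) hB hδ h0 hθ

theorem LH.diffAt (h : O.LH k) {θ : ℝ} {B : E} (hB : B ∈ O.D θ) :
    DifferentiableAt ℂ (fun t : ℂ => k (t • B)) 0 := by
  have hθ : 0 < |θ| + 1 := by positivity
  have := h 0 B (ball 0 (|θ| + 1)⁻¹) isOpen_ball fun t ht =>
    line (zero hB le_rfl) (O.mono (by linarith [le_abs_self θ]) hB) hθ.le
      (by rw [inv_mul_cancel₀ hθ.ne', zero_add]) ht
  simp only [zero_add] at this
  exact this.differentiableAt (ball_mem_nhds _ (inv_pos.2 hθ))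

/-- the directional derivative at the origin is additive -/
theorem LH.deriv_add (h : O.LH k) (hM : ∀ B ∈ O.D 1, ‖k B‖ ≤ M) {θ : ℝ} {B B' : E}
    (hB : B ∈ O.D θ) (hB' : B' ∈ O.D θ) :
    deriv (fun t : ℂ => k (t • (B + B'))) 0 =
      deriv (fun t : ℂ => k (t • B)) 0 + deriv (fun t : ℂ => k (t • B')) 0 := by
  have hθ : 0 < |θ| + 1 := by positivity
  replace hB := O.mono (by linarith [le_abs_self θ] : θ ≤ |θ| + 1) hB
  replace hB' := O.mono (by linarith [le_abs_self θ] : θ ≤ |θ| + 1) hB'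
  set η := |θ| + 1
  set R := (2 * η)⁻¹ with hR
  have R0 : 0 < R := by positivity
  have RR : R * η = 1 / 2 := by rw [hR]; field_simp
  have hz := zero hB le_rfl
  have m1 : ∀ s ∈ ball (0 : ℂ) R, s • B ∈ O.D (1 / 2) := fun s hs => by
    simpa using line (r := 1 / 2) hz hB hθ.le (by rw [RR, zero_add]) hs
  have m2 : ∀ s ∈ ball (0 : ℂ) R, s • B' ∈ O.D (1 / 2) := fun s hs => by
    simpa using line (r := 1 / 2) hz hB' hθ.le (by rw [RR, zero_add]) hs
  have m3 : ∀ s ∈ ball (0 : ℂ) R, ∀ u ∈ ball (0 : ℂ) R, s • B + u • B' ∈ O.D 1 :=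
    fun s hs u hu => O.mono (by norm_num) (O.add (m1 s hs) (m2 u hu))
  have z := mem_ball_self (x := (0 : ℂ)) R0
  set ψ : ℂ → ℂ → F := fun s u => k (s • B + u • B') - k ((0 : ℂ) • B + u • B') -
    (k (s • B + (0 : ℂ) • B') - k ((0 : ℂ) • B + (0 : ℂ) • B')) with hψ
  have d1 : ∀ u ∈ ball (0 : ℂ) R, DifferentiableOn ℂ (fun s : ℂ => k (s • B + u • B')) (ball 0 R) :=
    fun u hu => by
      simpa only [add_comm] using h (u • B') B _ isOpen_ball fun s hs => by
        rw [add_comm]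
        exact m3 s hs u hu
  have d2 : ∀ s ∈ ball (0 : ℂ) R, DifferentiableOn ℂ (fun u : ℂ => k (s • B + u • B')) (ball 0 R) :=
    fun s hs => h (s • B) B' _ isOpen_ball (m3 s hs)
  have b1 : ∀ s ∈ ball (0 : ℂ) R, ∀ u ∈ ball (0 : ℂ) R, ‖ψ s u‖ ≤ 4 * M / R * ‖s‖ := by
    intro s hs u hu
    have := Complex.dist_le_div_mul_dist_of_mapsTo_ball (f := fun s => ψ s u) (R₂ := 4 * M)
      (((d1 u hu).sub_const _).sub ((d1 0 z).sub_const _)) (fun t ht => by
        have a := hM _ (m3 t ht u hu)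
        have b := hM _ (m3 0 z u hu)
        have c := hM _ (m3 t ht 0 z)
        have d := hM _ (m3 0 z 0 z)
        simp only [hψ, sub_self, mem_closedBall_zero_iff]
        exact (norm_sub_le _ _).trans ((add_le_add (norm_sub_le _ _) (norm_sub_le _ _)).trans
          (by linarith))) hs
    simpa [hψ] using this
  have b2 : ∀ s ∈ ball (0 : ℂ) R, ‖ψ s s‖ ≤ 4 * M / R / R * ‖s‖ * ‖s‖ := by
    intro s hs
    have := Complex.dist_le_div_mul_dist_of_mapsTo_ball (f := fun u => ψ s u)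
      (R₂ := 4 * M / R * ‖s‖) (((d2 s hs).sub (d2 0 z)).sub_const _) (fun t ht => by
        simp only [hψ, sub_self, mem_closedBall_zero_iff]
        exact b1 s hs t ht) hs
    simp only [hψ, sub_self, dist_zero_right] at this
    exact this.trans_eq (by ring)
  have hd : HasDerivAt (fun s => ψ s s) 0 0 := by
    rw [hasDerivAt_iff_isLittleO_nhds_zero]
    simp only [zero_add, smul_zero, sub_zero, show ψ 0 0 = 0 by simp [hψ]]
    refine Asymptotics.IsBigO.trans_isLittleO (g := fun s : ℂ => s ^ 2) ?_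
      (Asymptotics.isLittleO_pow_id one_lt_two)
    refine Asymptotics.IsBigO.of_bound (4 * M / R / R) ?_
    filter_upwards [ball_mem_nhds _ R0] with s hs
    exact (b2 s hs).trans_eq (by rw [norm_pow]; ring)
  have e := ((((h.diffAt (O.add hB hB')).hasDerivAt.sub (h.diffAt hB').hasDerivAt).sub
    ((h.diffAt hB).hasDerivAt.sub_const (k 0))).congr_of_eventuallyEq (f₁ := fun s => ψ s s)
      (Eventually.of_forall fun s => by simp [hψ])).unique hd
  rw [sub_sub, sub_eq_zero] at e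
  rw [e, add_comm]

/-- an invariant function has no linear term -/
theorem LH.deriv_zero (h : O.LH k) (hM : ∀ B ∈ O.D 1, ‖k B‖ ≤ M) {θ : ℝ} {B B₁ B₂ B₃ : E}
    (hB : B ∈ O.D θ) (h₁ : B₁ ∈ O.D θ) (h₂ : B₂ ∈ O.D θ) (h₃ : B₃ ∈ O.D θ)
    (e₁ : ∀ t : ℂ, k (t • B₁) = k (t • B)) (e₂ : ∀ t : ℂ, k (t • B₂) = k (t • B))
    (e₃ : ∀ t : ℂ, k (t • B₃) = k (t • B)) {Z : E} (hs : B + B₁ + (B₂ + B₃) = Z)
    (hZ : Z ∈ O.D 0) : deriv (fun t : ℂ => k (t • B)) 0 = 0 := by
  have := h.deriv_add hM (O.add hB h₁) (O.add h₂ h₃)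
  rw [h.deriv_add hM hB h₁, h.deriv_add hM h₂ h₃, hs] at this
  simp only [e₁, e₂, e₃] at this
  have hz : (fun t : ℂ => k (t • Z)) = fun _ => k 0 := by
    funext t
    have h1 : t • Z ∈ O.D 0 := by simpa using O.smul t hZ
    have M0 : 0 ≤ M := (norm_nonneg _).trans (hM 0 (zero hZ zero_le_one))
    rw [← sub_eq_zero, ← norm_le_zero_iff]
    refine le_of_forall_pos_le_add fun ε hε => ?_
    have h2 : 0 < min (1 / 2) (ε / (2 * M + 1)) := by positivity
    have := h.lip hM (zero hZ le_rfl) (O.mono h2.le h1) h2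
      (by linarith [min_le_left (1 / 2) (ε / (2 * M + 1))])
    rw [zero_add, sub_zero, div_one] at this
    have h3 := (le_div_iff₀ (by positivity)).1 (min_le_right (1 / 2) (ε / (2 * M + 1)))
    nlinarith
  rw [hz, deriv_const] at this
  have h4 : (4 : ℂ) • deriv (fun t : ℂ => k (t • B)) 0 = 0 := by
    rw [this, show (4 : ℂ) = 1 + 1 + (1 + 1) by norm_num]
    simp only [add_smul, one_smul]
  exact (smul_eq_zero.1 h4).resolve_left (by norm_num)

/-- second order Schwarz estimate -/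
theorem LH.sq (h : O.LH k) (hM : ∀ B ∈ O.D 1, ‖k B - k 0‖ ≤ M) {θ : ℝ} {B : E}
    (hB : B ∈ O.D θ) (h0 : 0 < θ) (h1 : θ ≤ 1) (hd : deriv (fun t : ℂ => k (t • B)) 0 = 0) :
    ‖k B - k 0‖ ≤ M * θ ^ 2 := by
  rcases h1.eq_or_lt with rfl | h1
  · simpa using hM B hB
  have hl : ∀ t ∈ ball (0 : ℂ) θ⁻¹, 0 + t • B ∈ O.D 1 := fun t ht =>
    line (zero hB le_rfl) hB h0.le (by rw [inv_mul_cancel₀ h0.ne', zero_add]) ht
  have := Complex.dist_le_mul_div_pow_of_mapsTo_ball_of_isLittleO (n := 1) (z := 1) (R₂ := M)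
    (h 0 B _ isOpen_ball hl) (fun t ht => by
      rw [mem_closedBall_iff_norm, zero_smul, add_zero]
      exact hM _ (hl t ht)) (by
      have := (h.diffAt hB).hasDerivAt
      rw [hd, hasDerivAt_iff_isLittleO] at this
      simpa using this.norm_right) (by
      rw [mem_ball_zero_iff, norm_one]
      exact (one_lt_inv₀ h0).2 h1)
  simpa [dist_eq_norm] using this

/-- third order form: Lipschitz bound near the origin for functions without linear term -/
theorem LH.cube (h : O.LH k) (hM : ∀ B ∈ O.D 1, ‖k B - k 0‖ ≤ M)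
    (hd : ∀ B ∈ O.D 1, deriv (fun t : ℂ => k (t • B)) 0 = 0) {lam θ : ℝ} {B δ : E}
    (hB : B ∈ O.D lam) (hδ : δ ∈ O.D θ) (h0 : 0 < θ) (hθ : θ < lam) (h1 : 2 * lam ≤ 1) :
    ‖k (B + δ) - k B‖ ≤ 8 * M * lam * θ := by
  have l0 : 0 < lam := h0.trans hθ
  have := h.lip' h1 (c := k 0) (M := M * (2 * lam) ^ 2) (fun B' hB' =>
    h.sq hM hB' (by positivity) h1 (hd _ (O.mono h1 hB'))) hB hδ h0 (by linarith)
  refine this.trans_eq ?_
  rw [div_eq_iff (by linarith)]
  ring

end Dom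

/-- holomorphy of parametric integrals -/
theorem holo_integral {Ω : Type} [MeasurableSpace Ω] (ν : Measure Ω) [IsFiniteMeasure ν]
    [CompleteSpace F] {f : ℂ → Ω → F} {S : Set ℂ} (hS : IsOpen S) {M : ℝ}
    (hm : ∀ t ∈ S, AEStronglyMeasurable (f t) ν)
    (hd : ∀ᵐ ω ∂ν, DifferentiableOn ℂ (fun t => f t ω) S ∧ ∀ t ∈ S, ‖f t ω‖ ≤ M) :
    DifferentiableOn ℂ (fun t => ∫ ω, f t ω ∂ν) S := by
  intro t₀ ht₀
  obtain ⟨r, r0, hr⟩ := Metric.isOpen_iff.1 hS t₀ ht₀
  have hn : S ∈ 𝓝 t₀ := hS.mem_nhds ht₀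
  have m' : AEStronglyMeasurable (fun ω => deriv (fun t => f t ω) t₀) ν := by
    set u : ℕ → ℂ := fun n => t₀ + ((r / 2 / (n + 1) : ℝ) : ℂ) with hu
    have up : ∀ n : ℕ, 0 < r / 2 / (n + 1) := fun n => by positivity
    have uS : ∀ n, u n ∈ S := fun n => hr (by
      rw [mem_ball_iff_norm, hu, add_sub_cancel_left, Complex.norm_real, Real.norm_of_nonneg (up n).le]
      have : (1 : ℝ) ≤ n + 1 := by simp
      exact (div_le_self (by positivity) this).trans_lt (by linarith))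
    have ut : Tendsto u atTop (𝓝[≠] t₀) := by
      refine tendsto_nhdsWithin_iff.2 ⟨?_, Eventually.of_forall fun n => ?_⟩
      · have := (Complex.continuous_ofReal.tendsto 0).comp
          (tendsto_const_div_atTop_nhds_zero_nat (r / 2) |>.comp (tendsto_add_atTop_nat 1))
        simpa [hu, Function.comp_def] using this.const_add t₀
      · simpa [hu, -Complex.ofReal_div] using (up n).ne'
    refine aestronglyMeasurable_of_tendsto_ae atTop
      (f := fun n ω => slope (fun t => f t ω) t₀ (u n)) (fun n => ?_) ?_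
    · exact ((hm _ (uS n)).sub (hm _ ht₀)).const_smul _
    · filter_upwards [hd] with ω h
      exact (hasDerivAt_iff_tendsto_slope.1 (h.1.differentiableAt hn).hasDerivAt).comp ut
  refine (hasDerivAt_integral_of_dominated_loc_of_lip (s := ball t₀ (r / 2))
    (bound := fun _ => 2 * M / (r / 2)) (ball_mem_nhds _ (by positivity))
    (mem_of_superset hn hm) ?_ m' ?_ (integrable_const _) ?_).2.differentiableAt.differentiableWithinAt
  · exact Integrable.of_bound (hm _ ht₀) M (hd.mono fun ω h => h.2 _ ht₀)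
  · filter_upwards [hd] with ω h
    have hb : ∀ t ∈ ball t₀ (r / 2), ball t (r / 2) ⊆ S := fun t ht =>
      (ball_subset_ball' (by rw [mem_ball] at ht; linarith)).trans hr
    refine (convex_ball _ _).lipschitzOnWith_of_nnnorm_deriv_le (𝕜 := ℂ) (fun t ht =>
      h.1.differentiableAt (hS.mem_nhds (hb t ht (mem_ball_self (by positivity))))) fun t ht => ?_
    rw [← NNReal.coe_le_coe, coe_nnnorm, Real.coe_nnabs]
    refine (Complex.norm_deriv_le_div_of_mapsTo_ball (h.1.mono (hb t ht)) (fun s hs => ?_)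
      (by positivity)).trans (le_abs_self _)
    rw [mem_closedBall_iff_norm]
    linarith [norm_sub_le (f s ω) (f t ω), h.2 s (hb t ht hs),
      h.2 t (hb t ht (mem_ball_self (by positivity)))]
  · exact hd.mono fun ω h => (h.1.differentiableAt hn).hasDerivAt

end Pool.Agent.Lib.MP_7f377f_mp.Kit
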