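import Pool.Agent.Lib.MP_7f377f_mp.KitHol

/-! Logarithm of the partition function of a small local perturbation of a product measure. -/

namespace Pool.Agent.Lib.MP_7f377f_mp.Kit

open MeasureTheory Set Real ProbabilityTheory

/-- bounded measurable -/
def BM {Ω : Type} [MeasurableSpace Ω] (f : Ω → ℝ) : Prop := Measurable f ∧ ∃ C, ∀ z, |f z| ≤ C

section BM

variable {Ω : Type} [MeasurableSpace Ω] {f g : Ω → ℝ}

theorem BM.int (h : BM f) (P : Measure Ω) [IsFiniteMeasure P] : Integrable f P := by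
  obtain ⟨m, C, h⟩ := h
  exact Integrable.of_bound m.aestronglyMeasurable C (.of_forall h)

theorem BM.const (c : ℝ) : BM fun _ : Ω => c := ⟨measurable_const, |c|, fun _ => le_rfl⟩

theorem BM.mul (h : BM f) (h' : BM g) : BM fun z => f z * g z := by
  obtain ⟨m, C, h⟩ := h
  obtain ⟨m', C', h'⟩ := h'
  exact ⟨m.mul m', C * C', fun z => by
    rw [abs_mul]
    exact mul_le_mul (h z) (h' z) (abs_nonneg _) ((abs_nonneg _).trans (h z))⟩

theorem BM.sub (h : BM f) (h' : BM g) : BM fun z => f z - g z := by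
  obtain ⟨m, C, h⟩ := h
  obtain ⟨m', C', h'⟩ := h'
  exact ⟨m.sub m', C + C', fun z => (abs_sub _ _).trans (add_le_add (h z) (h' z))⟩

theorem BM.exp (h : BM f) : BM fun z => exp (f z) := by
  obtain ⟨m, C, h⟩ := h
  exact ⟨m.exp, Real.exp C, fun z => by
    rw [abs_of_pos (exp_pos _)]
    exact exp_le_exp.2 ((le_abs_self _).trans (h z))⟩

theorem BM.sum {Y : Type} (s : Finset Y) {φ : Y → Ω → ℝ} (h : ∀ y, BM (φ y)) :
    BM fun z => ∑ y ∈ s, φ y z := by
  choose C hC using fun y => (h y).2
  exact ⟨Finset.measurable_fun_sum _ fun y _ => (h y).1, ∑ y ∈ s, C y, fun z =>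
    (Finset.abs_sum_le_sum_abs _ _).trans (Finset.sum_le_sum fun y _ => hC y z)⟩

theorem BM.pos (h : BM f) (P : Measure Ω) [IsProbabilityMeasure P] : 0 < ∫ z, Real.exp (f z) ∂P :=
  integral_exp_pos (h.exp.int P)

/-- tilted expectation -/
noncomputable def tE (P : Measure Ω) (f A : Ω → ℝ) : ℝ :=
  (∫ z, f z * Real.exp (A z) ∂P) / ∫ z, Real.exp (A z) ∂P

theorem log_eq_tE (P : Measure Ω) [IsProbabilityMeasure P] {A : Ω → ℝ} (h : BM A) :
    log (∫ z, Real.exp (A z) ∂P) = ∫ t in (0 : ℝ)..1, tE P A fun z => t * A z := by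
  have hs : interior (integrableExpSet A P) = univ := by
    rw [interior_eq_univ, eq_univ_iff_forall]
    exact fun t => ((BM.const t).mul h).exp.int P
  have ha : ∀ t, AnalyticAt ℝ (cgf A P) t := fun t => analyticAt_cgf (hs ▸ mem_univ t)
  have := intervalIntegral.integral_eq_sub_of_hasDerivAt (a := 0) (b := 1)
    (fun t _ => (ha t).differentiableAt.hasDerivAt)
    ((continuous_iff_continuousAt.2 fun t => (ha t).deriv.continuousAt).intervalIntegrable 0 1)
  simp only [fun t => deriv_cgf (X := A) (μ := P) (hs ▸ mem_univ t)] at this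
  rw [cgf_zero, sub_zero, cgf, mgf] at this
  simpa [tE, mgf] using this.symm

end BM

variable {ι X : Type} [Fintype ι] [MeasurableSpace X] (ν : ι → Measure X)
  [∀ i, IsProbabilityMeasure (ν i)]

theorem indep_dep {f g : (ι → X) → ℝ} {s : Set ι} (hf : DependsOn f s) (hg : DependsOn g sᶜ) :
    ∫ z, f z * g z ∂Measure.pi ν = (∫ z, f z ∂Measure.pi ν) * ∫ z, g z ∂Measure.pi ν := by
  classical
  have h := (measurePreserving_piEquivPiSubtypeProd ν (· ∈ s)).symm
  set e := (MeasurableEquiv.piEquivPiSubtypeProd (fun _ : ι => X) (· ∈ s)).symm with he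
  obtain ⟨z₀⟩ : Nonempty (ι → X) := nonempty_of_isProbabilityMeasure (Measure.pi ν)
  have h1 : ∀ x, f (e x) = f (e (x.1, fun i => z₀ i)) := fun x => hf fun i hi => by
    simp [he, MeasurableEquiv.piEquivPiSubtypeProd, hi]
  have h2 : ∀ x, g (e x) = g (e (fun i => z₀ i, x.2)) := fun x => hg fun i hi => by
    have : i ∉ s := hi
    simp [he, MeasurableEquiv.piEquivPiSubtypeProd, this]
  rw [← h.integral_comp', ← h.integral_comp', ← h.integral_comp']
  simp only [h1, h2]
  rw [integral_prod_mul (fun a => f (e (a, fun i => z₀ i))) fun b => g (e (fun i => z₀ i, b)),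
    integral_fun_fst fun a => f (e (a, fun i => z₀ i)),
    integral_fun_snd fun b => g (e (fun i => z₀ i, b))]
  simp

/-- decoupling through `n` shells -/
theorem shell {f : (ι → X) → ℝ} {A : ℕ → (ι → X) → ℝ} {Λ : ℕ → Set ι} {x u : ℝ} (hf : BM f)
    (hu : ∀ z, |f z| ≤ u) (hA : ∀ i, BM (A i)) (hΛ : Monotone Λ) (df : DependsOn f (Λ 1)) (n : ℕ)
    (dA : ∀ i < n, DependsOn (A i) (Λ (i + 1)))
    (dC : ∀ i < n, DependsOn (fun z => A (i + 1) z - A i z) (Λ i)ᶜ)
    (hx : ∀ i < n, ∀ z, |A (i + 1) z - A i z| ≤ x) :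
    ∀ W, BM W → (∀ z, 0 ≤ W z) → DependsOn W (Λ n)ᶜ →
      |∫ z, (f z - tE (Measure.pi ν) f (A n)) * exp (A n z) * W z ∂Measure.pi ν| ≤
        2 * u * (2 * (exp (2 * x) - 1)) ^ n * ∫ z, exp (A n z) * W z ∂Measure.pi ν := by
  set P := Measure.pi ν
  have key : ∀ (B : (ι → X) → ℝ) (c v : ℝ), BM B →
      |∫ z, (f z - c) * exp (B z) ∂P| ≤ v * ∫ z, exp (B z) ∂P → |tE P f B - c| ≤ v := by
    intro B c v hB h
    have p := hB.pos P
    simp only [sub_mul] at h
    rw [integral_sub ((hf.mul hB.exp).int P) (((BM.const c).mul hB.exp).int P),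
      integral_const_mul] at h
    rwa [tE, div_sub' p.ne', abs_div, abs_of_pos p, div_le_iff₀ p, mul_comm _ c]
  have step : ∀ (B W : (ι → X) → ℝ) (c c' v v' : ℝ), BM B → BM W → (∀ z, 0 ≤ W z) →
      |∫ z, (f z - c) * exp (B z) * W z ∂P| ≤ v * ∫ z, exp (B z) * W z ∂P → |c' - c| ≤ v' →
      |∫ z, (f z - c') * exp (B z) * W z ∂P| ≤ (v + v') * ∫ z, exp (B z) * W z ∂P := by
    intro B W c c' v v' hB hW W0 h h'
    have p : 0 ≤ ∫ z, exp (B z) * W z ∂P := integral_nonneg fun z => mul_nonneg (exp_pos _).le (W0 z)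
    have e : ∀ z, (f z - c') * exp (B z) * W z =
        (f z - c) * exp (B z) * W z - (c' - c) * (exp (B z) * W z) := fun z => by ring
    simp only [e]
    rw [integral_sub ((((hf.sub (.const c)).mul hB.exp).mul hW).int P)
      (((BM.const _).mul (hB.exp.mul hW)).int P), integral_const_mul, add_mul]
    refine (abs_sub _ _).trans (add_le_add h ?_)
    rw [abs_mul, abs_of_nonneg p]
    exact mul_le_mul_of_nonneg_right h' p
  have base : ∀ (B W : (ι → X) → ℝ), BM B → BM W → (∀ z, 0 ≤ W z) →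
      |∫ z, (f z - 0) * exp (B z) * W z ∂P| ≤ u * ∫ z, exp (B z) * W z ∂P := by
    intro B W hB hW W0
    rw [← integral_const_mul]
    refine abs_integral_le_integral_abs.trans (integral_mono
      ((((hf.sub (.const 0)).mul hB.exp).mul hW).int P).abs
      (((BM.const _).mul (hB.exp.mul hW)).int P) fun z => ?_)
    simp only [sub_zero, mul_assoc, abs_mul, abs_of_pos (exp_pos _), abs_of_nonneg (W0 z)]
    exact mul_le_mul_of_nonneg_right (hu z) (mul_nonneg (exp_pos _).le (W0 z))
  induction n with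
  | zero =>
    intro W hW W0 _
    have := step _ W 0 _ u u (hA 0) hW W0 (base _ W (hA 0) hW W0) (key _ 0 u (hA 0) (by
      simpa using base _ _ (hA 0) (.const 1) fun _ => zero_le_one))
    simpa [two_mul] using this
  | succ n ih =>
    replace ih := ih (fun i hi => dA i (by omega)) (fun i hi => dC i (by omega))
      fun i hi => hx i (by omega)
    set c := tE P f (A n) with hc
    set γ := exp (2 * x) - 1 with hγ
    set v := 2 * u * (2 * γ) ^ n with hv
    set G : (ι → X) → ℝ := fun z => exp (A (n + 1) z - A n z + x) - 1 with hG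
    have bG : BM G := by
      simpa only [sub_neg_eq_add] using
        (((hA (n + 1)).sub (hA n)).sub (.const (-x))).exp.sub (.const 1)
    have G0 : ∀ z, 0 ≤ G z := fun z => sub_nonneg.2
      (one_le_exp (by linarith [(abs_le.1 (hx n (by omega) z)).1]))
    have G1 : ∀ z, G z ≤ γ := fun z => sub_le_sub_right
      (exp_le_exp.2 (by linarith [(abs_le.1 (hx n (by omega) z)).2])) 1
    obtain ⟨z₀⟩ : Nonempty (ι → X) := nonempty_of_isProbabilityMeasure P
    have γ0 : 0 ≤ γ := (G0 z₀).trans (G1 z₀)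
    have u0 : 0 ≤ u := (abs_nonneg _).trans (hu z₀)
    have v0 : 0 ≤ v := by positivity
    have eG : ∀ z, exp (A (n + 1) z) = exp (-x) * (exp (A n z) * (1 + G z)) := fun z => by
      rw [hG, add_sub_cancel, ← exp_add, ← exp_add]
      congr 1
      ring
    have main : ∀ W, BM W → (∀ z, 0 ≤ W z) → DependsOn W (Λ (n + 1))ᶜ →
        |∫ z, (f z - c) * exp (A (n + 1) z) * W z ∂P| ≤
          v * γ * ∫ z, exp (A (n + 1) z) * W z ∂P := by
      intro W hW W0 dW
      have b1 := (hf.sub (.const c)).mul (hA n).exp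
      have h0 : ∫ z, (f z - c) * exp (A n z) * W z ∂P = 0 := by
        rw [indep_dep ν (s := Λ (n + 1)) (fun a b h => by
          simp only [df.mono (hΛ (by omega)) h, dA n (by omega) h]) dW]
        simp only [sub_mul]
        rw [integral_sub ((hf.mul (hA n).exp).int P) (((BM.const c).mul (hA n).exp).int P),
          integral_const_mul, hc, tE, div_mul_cancel₀ _ ((hA n).pos P).ne', sub_self, zero_mul]
      have h1 := ih (fun z => G z * W z) (bG.mul hW) (fun z => mul_nonneg (G0 z) (W0 z))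
        fun a b h => by
          have := dC n (by omega) h
          simp only [hG] at this ⊢
          rw [this, dW.mono (compl_subset_compl.2 (hΛ (by omega))) h]
      have e1 : ∀ z, (f z - c) * exp (A (n + 1) z) * W z = exp (-x) *
          ((f z - c) * exp (A n z) * W z + (f z - c) * exp (A n z) * (G z * W z)) := fun z => by
        rw [eG]
        ring
      simp only [e1]
      rw [integral_const_mul, integral_add ((b1.mul hW).int P) ((b1.mul (bG.mul hW)).int P), h0,
        zero_add, abs_mul, abs_of_pos (exp_pos _)]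
      refine (mul_le_mul_of_nonneg_left h1 (exp_pos _).le).trans ?_
      rw [mul_left_comm, mul_assoc v, ← integral_const_mul (exp (-x)), ← integral_const_mul γ]
      refine mul_le_mul_of_nonneg_left (integral_mono
        (((BM.const _).mul ((hA n).exp.mul (bG.mul hW))).int P)
        (((BM.const _).mul ((hA _).exp.mul hW)).int P) fun z => ?_) v0
      simp only [eG]
      have p := mul_nonneg (mul_pos (exp_pos (-x)) (exp_pos (A n z))).le (W0 z)
      nlinarith [mul_nonneg p (mul_nonneg γ0 (G0 z)), mul_nonneg p (sub_nonneg.2 (G1 z))]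
    intro W hW W0 dW
    have := step _ W c _ _ _ (hA _) hW W0 (main W hW W0 dW) (key _ c (v * γ) (hA _) (by
      simpa using main _ (.const 1) (fun _ => zero_le_one) fun _ _ _ => rfl))
    refine this.trans_eq ?_
    rw [hv]
    ring

/-- the logarithm of the partition function is a sum of local terms -/
theorem logZ {Y : Type} [Fintype Y] {φ : Y → (ι → X) → ℝ} {δ : ℝ} (hφ : ∀ y, Measurable (φ y))
    (hδ : ∀ y z, |φ y z| ≤ δ) (n : ℕ) (N : Y → ℕ → Finset Y) (Λ : Y → ℕ → Set ι)
    (hN : ∀ y, Monotone (N y)) (hΛ : ∀ y, Monotone (Λ y)) (h0 : ∀ y, y ∈ N y 0)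
    (din : ∀ y i, ∀ y' ∈ N y i, DependsOn (φ y') (Λ y (i + 1)))
    (dout : ∀ y i, ∀ y' ∉ N y i, DependsOn (φ y') (Λ y i)ᶜ)
    (hx : ∀ y, δ * (N y n).card ≤ 1 / 10) :
    |log (∫ z, exp (∑ y, φ y z) ∂Measure.pi ν) - ∑ y, ∫ t in (0 : ℝ)..1,
      tE (Measure.pi ν) (φ y) fun z => t * ∑ y' ∈ N y n, φ y' z| ≤
        Fintype.card Y * (2 * δ * (1 / 2) ^ n) := by
  classical
  set P := Measure.pi ν
  have b : ∀ y, BM (φ y) := fun y => ⟨hφ y, δ, hδ y⟩
  have ct : ∀ {f A : (ι → X) → ℝ}, BM f → BM A → Continuous fun t => tE P f fun z => t * A z := by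
    intro f A hf hA
    have : ∀ {f : (ι → X) → ℝ}, BM f → Continuous fun t => ∫ z, f z * exp (t * A z) ∂P := by
      intro f hf
      obtain ⟨C, hC⟩ := hA.2
      refine continuous_iff_continuousAt.2 fun t₀ => continuousAt_of_dominated
        (bound := fun z => |f z| * exp ((|t₀| + 1) * C)) (.of_forall fun t =>
          ((hf.mul ((BM.const t).mul hA).exp).int P).1) ?_ ((hf.int P).abs.mul_const _)
          (.of_forall fun z => by fun_prop)
      filter_upwards [Metric.ball_mem_nhds t₀ one_pos] with t ht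
      refine .of_forall fun z => ?_
      rw [Real.norm_eq_abs, abs_mul, abs_of_pos (exp_pos _)]
      refine mul_le_mul_of_nonneg_left (exp_le_exp.2 ((le_abs_self _).trans ?_)) (abs_nonneg _)
      rw [abs_mul]
      have : |t - t₀| < 1 := ht
      exact mul_le_mul (by linarith [abs_sub_abs_le_abs_sub t t₀]) (hC z) (abs_nonneg _)
        (by positivity)
    refine (this hf).div (by simpa using this (.const 1)) fun t => (((BM.const t).mul hA).pos P).ne'
  have bs := BM.sum Finset.univ b
  have e1 : ∀ t, (tE P (fun z => ∑ y, φ y z) fun z => t * ∑ y, φ y z) =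
      ∑ y, tE P (φ y) fun z => t * ∑ y, φ y z := fun t => by
    simp only [tE, Finset.sum_mul]
    rw [integral_finsetSum _ fun y _ => ((b y).mul ((BM.const t).mul bs).exp).int P,
      Finset.sum_div]
  rw [log_eq_tE P bs]
  simp only [e1]
  rw [intervalIntegral.integral_finsetSum fun y _ => (ct (b y) bs).intervalIntegrable _ _,
    ← Finset.sum_sub_distrib, ← nsmul_eq_mul, ← Finset.card_univ, ← Finset.sum_const]
  refine (Finset.abs_sum_le_sum_abs _ _).trans (Finset.sum_le_sum fun y _ => ?_)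
  rw [← intervalIntegral.integral_sub ((ct (b y) bs).intervalIntegrable _ _)
    ((ct (b y) (BM.sum _ b)).intervalIntegrable _ _)]
  rw [← Real.norm_eq_abs]
  refine (intervalIntegral.norm_integral_le_of_norm_le_const (C := 2 * δ * (1 / 2) ^ n)
    fun t ht => ?_).trans_eq (by rw [sub_zero, abs_one, mul_one])
  rw [uIoc_of_le zero_le_one] at ht
  obtain ⟨z₀⟩ : Nonempty (ι → X) := nonempty_of_isProbabilityMeasure P
  have δ0 : 0 ≤ δ := (abs_nonneg _).trans (hδ y z₀)
  have e2 : ∀ {s s' : Finset Y}, s ⊆ s' → ∀ z, t * ∑ y' ∈ s', φ y' z - t * ∑ y' ∈ s, φ y' z =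
      t * ∑ y' ∈ s' \ s, φ y' z := fun h z => by rw [← Finset.sum_sdiff h]; ring
  have := shell ν (f := φ y) (A := fun i z => t * ∑ y' ∈ N y i, φ y' z) (Λ := Λ y) (x := 1 / 10)
    (b y) (hδ y) (fun i => (BM.const t).mul (BM.sum _ b)) (hΛ y) (din y 0 y (h0 y)) n
    (fun i _ a a' h => by
      beta_reduce
      rw [Finset.sum_congr rfl fun y' hy' => din y i y' hy' h])
    (fun i _ a a' h => by
      simp only [e2 (hN y (Nat.le_succ i))]
      rw [Finset.sum_congr rfl fun y' hy' => dout y i y' (Finset.mem_sdiff.1 hy').2 h])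
    (fun i hi z => by
      rw [e2 (hN y (Nat.le_succ i)), abs_mul, abs_of_pos ht.1]
      refine (mul_le_of_le_one_left (abs_nonneg _) ht.2).trans ((Finset.abs_sum_le_sum_abs _ _).trans
        ((Finset.sum_le_card_nsmul _ _ δ fun y' _ => hδ y' z).trans (le_trans ?_ (hx y))))
      rw [nsmul_eq_mul, mul_comm]
      exact mul_le_mul_of_nonneg_left (Nat.cast_le.2 (Finset.card_le_card
        (Finset.sdiff_subset.trans (hN y hi)))) δ0)
    (fun z => exp (t * ∑ y' ∈ Finset.univ \ N y n, φ y' z)) ((BM.const t).mul (BM.sum _ b)).exp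
    (fun z => (exp_pos _).le) fun a a' h => by
      beta_reduce
      rw [Finset.sum_congr rfl fun y' hy' => dout y n y' (Finset.mem_sdiff.1 hy').2 h]
  simp only [mul_assoc, ← exp_add, ← e2 (Finset.subset_univ _), add_sub_cancel, sub_mul] at this
  have p := ((BM.const t).mul bs).pos P
  rw [integral_sub (((b y).mul ((BM.const t).mul bs).exp).int P)
    (((BM.const _).mul ((BM.const t).mul bs).exp).int P), integral_const_mul] at this
  rw [Real.norm_eq_abs, tE, div_sub' p.ne', abs_div, abs_of_pos p, div_le_iff₀ p, mul_comm _ (tE _ _ _)]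
  refine this.trans ?_
  simp only [mul_assoc]
  have h1 : exp (2 * (1 / 10)) - 1 ≤ 1 / 4 := by
    have := Real.exp_bound_div_one_sub_of_interval (x := 2 * (1 / 10)) (by norm_num) (by norm_num)
    norm_num at this ⊢
    linarith
  have h2 : 0 ≤ exp (2 * (1 / 10)) - 1 := sub_nonneg.2 (one_le_exp (by norm_num))
  gcongr
  linarith

/-- the local contribution to the logarithm of the partition function, complex version -/
noncomputable def fl {Ω : Type} [MeasurableSpace Ω] (P : Measure Ω) (f A : Ω → ℂ) : ℂ :=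
  ∫ t in (0 : ℝ)..1, (∫ z, f z * Complex.exp (t * A z) ∂P) / ∫ z, Complex.exp (t * A z) ∂P

theorem fl_ofReal {Ω : Type} [MeasurableSpace Ω] (P : Measure Ω) (f A : Ω → ℝ) :
    fl P (fun z => f z) (fun z => A z) =
      ((∫ t in (0 : ℝ)..1, tE P f fun z => t * A z : ℝ) : ℂ) := by
  simp only [fl, tE, ← intervalIntegral.integral_ofReal, Complex.ofReal_div, ← integral_complex_ofReal]
  simp

theorem fl_comp {Ω Ω' : Type} [MeasurableSpace Ω] [MeasurableSpace Ω'] {P : Measure Ω}
    {P' : Measure Ω'} {Θ : Ω' → Ω} (h : MeasurePreserving Θ P' P) {f A : Ω → ℂ} (hf : Measurable f)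
    (hA : Measurable A) : fl P' (fun z => f (Θ z)) (fun z => A (Θ z)) = fl P f A := by
  simp only [fl, ← h.map_eq]
  refine intervalIntegral.integral_congr fun t _ => ?_
  rw [integral_map h.measurable.aemeasurable (by fun_prop),
    integral_map h.measurable.aemeasurable (by fun_prop)]

section Hol

variable {Ω : Type} [MeasurableSpace Ω] (P : Measure Ω) [IsProbabilityMeasure P]

theorem den_ge {A : Ω → ℂ} (hA : Measurable A) (h : ∀ z, ‖A z‖ ≤ 1 / 10) :
    4 / 5 ≤ ‖∫ z, Complex.exp (A z) ∂P‖ := by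
  have h1 : ∀ z, ‖Complex.exp (A z) - 1‖ ≤ 1 / 5 := fun z =>
    (Complex.norm_exp_sub_one_le ((h z).trans (by norm_num))).trans (by linarith [h z])
  have i1 : Integrable (fun z => Complex.exp (A z) - 1) P :=
    Integrable.of_bound (by fun_prop) _ (.of_forall h1)
  have e : ∫ z, Complex.exp (A z) ∂P = 1 + ∫ z, Complex.exp (A z) - 1 ∂P := by
    have := integral_add (integrable_const (1 : ℂ)) i1
    simpa using this
  have := norm_integral_le_of_norm_le_const (μ := P) (.of_forall h1)
  rw [probReal_univ, mul_one] at this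
  have h2 := norm_sub_norm_le (1 : ℂ) (-∫ z, Complex.exp (A z) - 1 ∂P)
  rw [norm_neg, norm_one, sub_neg_eq_add, ← e] at h2
  linarith

theorem exp_le {a : ℂ} (h : ‖a‖ ≤ 1 / 10) : ‖Complex.exp a‖ ≤ 6 / 5 := by
  have := Complex.norm_exp_sub_one_le (h.trans (by norm_num))
  have h2 := norm_add_le (Complex.exp a - 1) 1
  rw [sub_add_cancel, norm_one] at h2
  linarith

theorem ratio_le {f A : Ω → ℂ} (hA : Measurable A) {δ : ℝ} (hf : ∀ z, ‖f z‖ ≤ δ)
    (h : ∀ z, ‖A z‖ ≤ 1 / 10) :
    ‖(∫ z, f z * Complex.exp (A z) ∂P) / ∫ z, Complex.exp (A z) ∂P‖ ≤ 3 / 2 * δ := by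
  have h1 := den_ge P hA h
  obtain ⟨z₀⟩ : Nonempty Ω := nonempty_of_isProbabilityMeasure P
  have δ0 : 0 ≤ δ := (norm_nonneg _).trans (hf z₀)
  have := norm_integral_le_of_norm_le_const (μ := P) (f := fun z => f z * Complex.exp (A z))
    (C := δ * (6 / 5)) (.of_forall fun z => by
      rw [norm_mul]
      exact mul_le_mul (hf z) (exp_le (h z)) (norm_nonneg _) δ0)
  rw [probReal_univ, mul_one] at this
  rw [norm_div, div_le_iff₀ (by linarith)]
  nlinarith

theorem mul_le_tenth {t : ℝ} (ht : t ∈ uIoc (0 : ℝ) 1) {a : ℂ} (h : ‖a‖ ≤ 1 / 10) :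
    ‖t * a‖ ≤ 1 / 10 := by
  rw [uIoc_of_le zero_le_one] at ht
  rw [norm_mul, Complex.norm_real, Real.norm_of_nonneg ht.1.le]
  exact (mul_le_of_le_one_left (norm_nonneg _) ht.2).trans h

theorem fl_le {f A : Ω → ℂ} (hA : Measurable A) {δ : ℝ} (hf : ∀ z, ‖f z‖ ≤ δ)
    (h : ∀ z, ‖A z‖ ≤ 1 / 10) : ‖fl P f A‖ ≤ 3 / 2 * δ :=
  (intervalIntegral.norm_integral_le_of_norm_le_const fun t ht =>
    ratio_le P (by fun_prop) hf fun z => mul_le_tenth ht (h z)).trans_eq (by simp)

theorem fl_holo {f A : ℂ → Ω → ℂ} {S : Set ℂ} (hS : IsOpen S) {δ : ℝ}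
    (mf : ∀ s ∈ S, Measurable (f s)) (mA : ∀ s ∈ S, Measurable (A s))
    (df : ∀ z, DifferentiableOn ℂ (fun s => f s z) S)
    (dA : ∀ z, DifferentiableOn ℂ (fun s => A s z) S) (hf : ∀ s ∈ S, ∀ z, ‖f s z‖ ≤ δ)
    (h : ∀ s ∈ S, ∀ z, ‖A s z‖ ≤ 1 / 10) :
    DifferentiableOn ℂ (fun s => fl P (f s) (A s)) S := by
  simp only [fl, intervalIntegral.integral_of_le zero_le_one]
  refine holo_integral (M := 3 / 2 * δ) _ hS (fun s hs => ?_) ?_
  · have := mf s hs
    have := mA s hs
    refine (Measurable.div ?_ ?_).aestronglyMeasurable <;>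
      refine (StronglyMeasurable.integral_prod_right ?_).measurable <;>
      refine Measurable.stronglyMeasurable ?_ <;> unfold Function.uncurry <;> fun_prop
  · filter_upwards [ae_restrict_mem measurableSet_Ioc] with t ht
    rw [← uIoc_of_le zero_le_one] at ht
    have h' := fun s hs z => mul_le_tenth ht (h s hs z)
    have m' : ∀ s ∈ S, Measurable fun z => t * A s z := fun s hs => (mA s hs).const_mul _
    refine ⟨DifferentiableOn.div ?_ ?_ fun s hs => ?_,
      fun s hs => ratio_le P (m' s hs) (hf s hs) (h' s hs)⟩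
    · refine holo_integral (M := δ * (6 / 5)) _ hS
        (fun s hs => ((mf s hs).mul (m' s hs).cexp).aestronglyMeasurable)
        (.of_forall fun z => ⟨(df z).mul ((dA z).const_mul _).cexp, fun s hs => ?_⟩)
      rw [norm_mul]
      exact mul_le_mul (hf s hs z) (exp_le (h' s hs z)) (norm_nonneg _)
        ((norm_nonneg _).trans (hf s hs z))
    · exact holo_integral (M := 6 / 5) _ hS (fun s hs => (m' s hs).cexp.aestronglyMeasurable)
        (.of_forall fun z => ⟨((dA z).const_mul _).cexp, fun s hs => exp_le (h' s hs z)⟩)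
    · exact norm_pos_iff.1 (lt_of_lt_of_le (by norm_num) (den_ge P (m' s hs) (h' s hs)))

end Hol

/-- local expectations on a torus are expectations on the infinite lattice -/
theorem fl_lift {κ : Type} (m : Measure X) [IsProbabilityMeasure m] (j : κ → ι) (S : Set κ)
    (hj : InjOn j S) (R : κ → X → X) (hR : ∀ e, MeasurePreserving (R e) m m)
    {f A : (κ → X) → ℂ} (mf : Measurable f) (mA : Measurable A) (df : DependsOn f S)
    (dA : DependsOn A S) :
    fl (Measure.pi fun _ : ι => m) (fun z => f fun e => R e (z (j e)))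
      (fun z => A fun e => R e (z (j e))) = fl (Measure.infinitePi fun _ : κ => m) f A := by
  classical
  obtain ⟨x₀⟩ : Nonempty X := nonempty_of_isProbabilityMeasure m
  set x : (S → X) → κ → X := fun w e => if h : e ∈ S then w ⟨e, h⟩ else x₀ with hx
  have mx : Measurable x := measurable_pi_lambda _ fun e => by
    simp only [hx]
    split_ifs <;> fun_prop
  have h1 : MeasurePreserving (fun (z : ι → X) (e : S) => z (j e)) (Measure.pi fun _ => m)
      (Measure.infinitePi fun _ => m) := ⟨by fun_prop, by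
    rw [← Measure.infinitePi_eq_pi]
    exact Measure.map_infinitePi_infinitePi_of_inj (P := fun _ => m) hj.injective⟩
  have h2 : MeasurePreserving (fun (z : S → X) (e : S) => R e (z e))
      (Measure.infinitePi fun _ => m) (Measure.infinitePi fun _ => m) :=
    ⟨measurable_pi_lambda _ fun e => (hR e).measurable.comp (measurable_pi_apply e), by
      rw [Measure.infinitePi_map_pi _ fun e : S => (hR e).measurable]
      simp only [(hR _).map_eq]⟩
  have h3 : MeasurePreserving (fun (z : κ → X) (e : S) => z e) (Measure.infinitePi fun _ => m)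
      (Measure.infinitePi fun _ => m) := ⟨by fun_prop,
    Measure.map_infinitePi_infinitePi_of_inj (P := fun _ => m) Subtype.val_injective⟩
  have e1 := fl_comp (h2.comp h1) (mf.comp mx) (mA.comp mx)
  have e2 := fl_comp h3 (mf.comp mx) (mA.comp mx)
  rw [← e2] at e1
  convert e1 using 2 <;> funext z
  exacts [df fun e he => by simp [hx, he], dA fun e he => by simp [hx, he],
    df fun e he => by simp [hx, he], dA fun e he => by simp [hx, he]]

end Pool.Agent.Lib.MP_7f377f_mp.Kit
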