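import Pool.Agent.Lib.MP_7f377f_mp.JetTwo

/-! Holomorphic logarithms and the two constants theorem for ratios of positive quantities. -/

noncomputable section

namespace Pool.Agent.Lib.MP_7f377f_mp.RG.Q4.En

open Finset Real Metric

theorem hol_log {R : ℂ → ℂ} {σ A : ℝ} (σ0 : 0 < σ) (A0 : 0 < A)
    (hd : DifferentiableOn ℂ R (ball 0 σ)) (h0 : ∀ t ∈ ball (0 : ℂ) σ, R t ≠ 0)
    (hA : ∀ t ∈ ball (0 : ℂ) σ, ‖R t‖ ≤ exp A * ‖R 0‖)
    (hr : ∀ s : ℝ, |s| < σ → (R s).im = 0 ∧ 0 < (R s).re) :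
    ∃ g : ℂ → ℂ, DifferentiableOn ℂ g (ball 0 (σ / 2)) ∧ (∀ t ∈ ball (0 : ℂ) (σ / 2), ‖g t‖ ≤ 2 * A) ∧
      deriv g 0 = deriv R 0 / R 0 ∧
        ∀ s : ℝ, |s| < σ / 2 → g s = (log (R s).re - log (R 0).re : ℝ) := by
  obtain ⟨g, g0, hg⟩ := ((hd.deriv isOpen_ball).div hd h0).isExactOn_ball.with_val_at 0 0
  have m0 : (0 : ℂ) ∈ ball (0 : ℂ) σ := mem_ball_self σ0
  have gd : DifferentiableOn ℂ g (ball 0 σ) := fun t ht =>
    (hg t ht).differentiableAt.differentiableWithinAt
  have hφ : ∀ t ∈ ball (0 : ℂ) σ, HasDerivAt (fun t => R t * Complex.exp (-g t)) 0 t := fun t ht => by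
    refine (((hd.differentiableAt (isOpen_ball.mem_nhds ht)).hasDerivAt).fun_mul
      (hg t ht).fun_neg.cexp).congr_deriv ?_
    have := h0 t ht
    simp only [Pi.div_apply]
    field_simp
    ring
  have key : ∀ t ∈ ball (0 : ℂ) σ, R t = R 0 * Complex.exp (g t) := fun t ht => by
    have := isOpen_ball.is_const_of_deriv_eq_zero (convex_ball _ _).isPreconnected
      (fun t ht => (hφ t ht).differentiableAt.differentiableWithinAt)
      (fun t ht => (hφ t ht).deriv) ht m0
    rw [g0, neg_zero, Complex.exp_zero, mul_one] at this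
    rw [← this, mul_assoc, ← Complex.exp_add, neg_add_cancel, Complex.exp_zero, mul_one]
  have n0 : 0 < ‖R 0‖ := norm_pos_iff.2 (h0 0 m0)
  refine ⟨g, gd.mono (ball_subset_ball (by linarith)), fun t ht => ?_, (hg 0 m0).deriv,
    fun s hs => ?_⟩
  · have h1 := mem_ball_zero_iff.1 ht
    refine (Complex.borelCaratheodory_zero A0 gd (fun z hz => ?_) σ0
      (mem_ball_zero_iff.2 (by linarith)) g0).trans ?_
    · have := hA z hz
      rw [key z hz, norm_mul, Complex.norm_exp, mul_comm] at this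
      exact exp_le_exp.1 (le_of_mul_le_mul_right this n0)
    · rw [div_le_iff₀ (by linarith)]
      nlinarith
  · obtain ⟨a1, a2⟩ := hr 0 (by simpa)
    rw [Complex.ofReal_zero] at a1 a2
    have mem : ∀ r : ℝ, |r| < σ → (r : ℂ) ∈ ball (0 : ℂ) σ := fun r hr => by simpa using hr
    have im : ∀ r : ℝ, |r| < σ → sin (g r).im = 0 := fun r hr' => by
      have := (hr r hr').1
      rw [key _ (mem r hr'), Complex.mul_im, a1, zero_mul, add_zero, Complex.exp_im] at this
      simpa [a2.ne'] using this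
    have sub : ∀ r ∈ Set.uIcc 0 s, |r| < σ := fun r hr =>
      (by simpa using Set.abs_sub_left_of_mem_uIcc hr : |r| ≤ |s|).trans_lt (by linarith)
    have iv := intermediate_value_uIcc (f := fun r : ℝ => (g r).im) (a := 0) (b := s)
      (Complex.continuous_im.comp_continuousOn (gd.continuousOn.comp
        Complex.continuous_ofReal.continuousOn fun r hr => mem r (sub r hr)))
    simp only [Complex.ofReal_zero, g0, Complex.zero_im] at iv
    have i0 : (g s).im = 0 := by
      by_contra hc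
      rcases lt_or_gt_of_ne hc with h | h
      · obtain ⟨r, h1, h2⟩ := iv (Set.mem_uIcc_of_ge (le_max_left (g s).im (-1))
          (max_le h.le (by norm_num)))
        have h3 := im r (sub r h1)
        rw [show (g r).im = _ from h2] at h3
        exact (sin_neg_of_neg_of_neg_pi_lt (max_lt h (by norm_num))
          (lt_max_of_lt_right (by linarith [pi_gt_three]))).ne h3
      · obtain ⟨r, h1, h2⟩ := iv (Set.mem_uIcc_of_le (le_min h.le zero_le_one)
          (min_le_left (g s).im 1))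
        have h3 := im r (sub r h1)
        rw [show (g r).im = _ from h2] at h3
        exact (sin_pos_of_pos_of_lt_pi (lt_min h one_pos)
          (min_lt_of_right_lt (by linarith [pi_gt_three]))).ne' h3
    refine Complex.ext ?_ (by simpa using i0)
    rw [Complex.ofReal_re, key _ (mem s (by linarith)), Complex.mul_re, a1, zero_mul, sub_zero,
      Complex.exp_re, i0, cos_zero, mul_one, log_mul a2.ne' (exp_ne_zero _), log_exp]
    ring

/-- `u i / v i`, `i = 0, 1` are two ratios of positive quantities -/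
theorem two_log {u v : Fin 2 → ℂ → ℂ} {c A : Fin 2 → ℝ} {σ η M x : ℝ} {a : ℕ} (σ0 : 0 < σ)
    (A0 : ∀ i, 0 < A i) (hu : ∀ i, DifferentiableOn ℂ (u i) (ball 0 σ))
    (hv : ∀ i, DifferentiableOn ℂ (v i) (ball 0 σ))
    (h0 : ∀ i, ∀ t ∈ ball (0 : ℂ) σ, u i t ≠ 0 ∧ v i t ≠ 0 ∧ ‖u i t‖ ≤ exp (A i) * ‖v i t‖ ∧
      ‖v i t‖ ≤ exp (A i) * ‖u i t‖)
    (hr : ∀ i (s : ℝ), |s| < σ → ((u i s).im = 0 ∧ 0 < (u i s).re) ∧ (v i s).im = 0 ∧ 0 < (v i s).re)
    {E : ℝ} (hη : ∀ s : ℝ, |s| < σ → |c 0 * (log (u 0 s).re - log (v 0 s).re) -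
      c 1 * (log (u 1 s).re - log (v 1 s).re) + E| ≤ η) (η0 : 0 < η)
    (hM : 2 ≤ M) (ha : 6 * a ≤ M) (x1 : 1 ≤ x)
    (hx : 2 * (|c 0| * A 0 + |c 1| * A 1) ≤ x ^ a * η) :
    |c 0 * ((deriv (u 0) 0 / u 0 0).re - (deriv (v 0) 0 / v 0 0).re) -
      c 1 * ((deriv (u 1) 0 / u 1 0).re - (deriv (v 1) 0 / v 1 0).re)| ≤ 4 * M * x * η / σ := by
  have m0 : (0 : ℂ) ∈ ball (0 : ℂ) σ := mem_ball_self σ0
  have re : ∀ i (s : ℝ), |s| < σ → u i s / v i s = ((u i s).re / (v i s).re : ℝ) := fun i s hs => by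
    obtain ⟨⟨h1, -⟩, h2, -⟩ := hr i s hs
    rw [Complex.ofReal_div, Complex.conj_eq_iff_re.1 (Complex.conj_eq_iff_im.2 h1),
      Complex.conj_eq_iff_re.1 (Complex.conj_eq_iff_im.2 h2)]
  have ex := fun i => hol_log (R := fun t => u i t / v i t) (A := 2 * A i) σ0
    (mul_pos two_pos (A0 i)) ((hu i).div (hv i) fun t ht => (h0 i t ht).2.1)
    (fun t ht => div_ne_zero (h0 i t ht).1 (h0 i t ht).2.1) (fun t ht => by
      obtain ⟨-, h1, h2, -⟩ := h0 i t ht
      obtain ⟨-, h3, -, h4⟩ := h0 i 0 m0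
      rw [norm_div, norm_div, two_mul, exp_add, mul_assoc]
      refine ((div_le_iff₀ (norm_pos_iff.2 h1)).2 h2).trans
        (le_mul_of_one_le_right (exp_pos _).le ?_)
      rwa [← mul_div_assoc, one_le_div (norm_pos_iff.2 h3)]) fun s hs => by
      rw [re i s hs]
      exact ⟨Complex.ofReal_im _, by
        rw [Complex.ofReal_re]; exact div_pos (hr i s hs).1.2 (hr i s hs).2.2⟩
  choose g gd gA g' gr using ex
  have lg : ∀ i (s : ℝ), |s| < σ → log (u i s / v i s).re = log (u i s).re - log (v i s).re :=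
    fun i s hs => by
      rw [re i s hs, Complex.ofReal_re, log_div (hr i s hs).1.2.ne' (hr i s hs).2.2.ne']
  have x2 : 1 ≤ x ^ a := one_le_pow₀ x1
  have main := Jet.two_const_le (h := fun t => (c 0 : ℂ) * g 0 t - c 1 * g 1 t) (σ := σ / 2)
    (A := x ^ a * (2 * η)) (η := 2 * η) (((gd 0).const_mul _).sub ((gd 1).const_mul _))
    (fun t ht => by
      refine (norm_sub_le _ _).trans ?_
      rw [norm_mul, norm_mul, Complex.norm_real, Complex.norm_real, Real.norm_eq_abs,
        Real.norm_eq_abs]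
      have h1 := mul_le_mul_of_nonneg_left (gA 0 t ht) (abs_nonneg (c 0))
      have h2 := mul_le_mul_of_nonneg_left (gA 1 t ht) (abs_nonneg (c 1))
      linarith)
    (fun s hs => by
      have h1 := abs_le.1 (hη s (by linarith))
      have h2 := abs_le.1 (hη 0 (by simpa))
      have h3 := fun i => lg i 0 (by simpa)
      rw [Complex.ofReal_zero] at h2 h3
      rw [gr 0 s hs, gr 1 s hs, lg 0 s (by linarith), lg 1 s (by linarith), h3, h3,
        ← Complex.ofReal_mul, ← Complex.ofReal_mul, ← Complex.ofReal_sub, Complex.norm_real,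
        Real.norm_eq_abs, abs_le]
      constructor <;> linarith)
    (by linarith) (le_mul_of_one_le_left (by linarith) x2) (by linarith) hM ha x1 le_rfl
  have b0 : ball (0 : ℂ) (σ / 2) ∈ nhds (0 : ℂ) := ball_mem_nhds _ (by linarith)
  have b1 : ball (0 : ℂ) σ ∈ nhds (0 : ℂ) := ball_mem_nhds _ σ0
  have dv : ∀ i, deriv (g i) 0 = deriv (u i) 0 / u i 0 - deriv (v i) 0 / v i 0 := fun i => by
    obtain ⟨h1, h2, -⟩ := h0 i 0 m0
    rw [g' i, (((hu i).differentiableAt b1).hasDerivAt.fun_div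
      ((hv i).differentiableAt b1).hasDerivAt h2).deriv]
    field_simp
  rw [((((gd 0).differentiableAt b0).hasDerivAt.const_mul _).fun_sub
    (((gd 1).differentiableAt b0).hasDerivAt.const_mul _)).deriv, dv, dv] at main
  refine le_trans ?_ (((Complex.abs_re_le_norm _).trans main).trans_eq (by field_simp; ring))
  simp

end Pool.Agent.Lib.MP_7f377f_mp.RG.Q4.En
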