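import Pool.Agent.Lib.MP_7f377f_mp.RGBase

/-! Linear theory in four dimensions: definitions for long chains of steps. -/

noncomputable section

namespace Pool.Agent.Lib.MP_7f377f_mp.RG.Q4

open Finset
open scoped Pointwise

/-- fields of constant curvature -/
def Cst {W : Type} [AddCommGroup W] (a : Lk → W) : Prop := ∀ x, dd a x = dd a 0

/-- on fields of constant curvature the two densities are close -/
def Cd (σ : ℝ) (m m' : BF) : Prop := ∀ a : V, Cst a → |m a a - m' a a| ≤ σ * nd a 0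

/-- distance of two densities -/
def Df (r : ℕ) (σ : ℝ) (m m' : BF) : Prop := ∀ a δ, Cv r δ a → |m a a - m' a a| ≤ σ * δ ^ 2

/-- size of a gauge invariant form of range `R` -/
def Cb (R : ℕ) (κ : ℝ) (k : BF) : Prop :=
  ∀ a b δ δ', Cv R δ a → Cv R δ' b → |k a b| ≤ κ * δ * δ'

/-- the curvature of the approximate minimiser varies slowly -/
def Grad (l r : ℕ) (g : ℝ) (s : V →ₗ[ℝ] V) : Prop :=
  ∀ B δ, Cv (r / 3) δ B →
    ∑ x ∈ box l, ∑ κ, nd (sh (un κ) (mu l s B) - mu l s B) x ≤ (g * δ) ^ 2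

/-- lower bound by the Wilson density of a nearby field -/
def Lw (R : ℕ) (c1 c2 : ℝ) (m : BF) : Prop :=
  ∀ (a : V) (S : Finset St), ∃ b : V,
    c1 * ∑ x ∈ S, nd b x + c2 * ∑ x ∈ S + box 1, ∑ μ, (a - b) (x, μ) ^ 2 ≤
      ∑ x ∈ S + box R, m (sh x a) (sh x a)

/-- average of the translates of a form -/
def avB (k : ℕ) (m : BF) : BF :=
  ((box k).card : ℝ)⁻¹ • ∑ y ∈ box k, m.compl₁₂ (shL y) (shL y)

/-- the new density before the corrections -/
def mb (l ρ : ℕ) (m : BF) (s : V →ₗ[ℝ] V) : BF := (2⁻¹ : ℝ) • (mn l m s + avB ρ (mn l m s))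

/-- invariants of the quadratic density; `v` is its value on constant curvature -/
structure Ch (n r ρ : ℕ) (v e : ℝ) (m : BF) : Prop where
  inv : Inv n r 20 (v * (2⁻¹ + e)) m
  lw : Lw (ρ + 3) (v * (2⁻¹ - e)) (10 ^ 4) m
  cc : Cd (v * e) m (v • m0)
  pos : ∀ a, ∑ x ∈ box (ρ - 2), nd a x ≤ 20 * (2 * ρ + 1) ^ 4 * m a a

end Pool.Agent.Lib.MP_7f377f_mp.RG.Q4
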