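import Pool.Agent.Lib.MP_7f377f_mp.Q4PtZ
import Pool.Agent.Lib.MP_7f377f_mp.Q4LinDefs

namespace Pool.Agent.Lib.MP_7f377f_mp.RG.Q4

theorem grad_of_pt {l r c : ℕ} {s : V →ₗ[ℝ] V} (h : Lin.Pt l r s) (hr : 1 ≤ r) (hc : 3 ≤ c) :
    Grad l r ((r : ℝ) ^ c / LL l) s := fun B δ hB => by
  have r1 : (1 : ℝ) ≤ r := by exact_mod_cast hr
  refine (h.grad B δ hB).trans ?_
  rw [div_mul_eq_mul_div, div_pow, mul_pow, ← pow_mul]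
  gcongr
  omega

/-- `lin_main` with the gradient clause and the sharp pointwise bound -/
theorem lin_main_grad : ∃ c : ℕ, 1 ≤ c ∧ ∀ (l r n : ℕ) (cL cU : ℝ) (m : BF), c ≤ r → r ^ c ≤ l →
    (LL l : ℝ) ^ c * Real.exp (-(r / c)) ≤ 1 →
    1 ≤ cL → cL ≤ 20 → cU ≤ 20 → Inv n (3 * r) cL cU m → ∃ s,
      Lin l r c ((LL l : ℝ) ^ c * Real.exp (-(r / c))) m s ∧ Grad l r ((r : ℝ) ^ c / LL l) s ∧
      Inv (2 * n * l + n + l) r (cL * (1 + 1 / LL l))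
        (cU + (LL l : ℝ) ^ c * Real.exp (-(r / c))) (mn l m s) ∧
      ∀ B δ, Cv (r / 3) δ B → Cv l ((r : ℝ) ^ 4 * δ / (LL l * √(LL l))) (mu l s B) := by
  obtain ⟨c, c60, h⟩ := Lin.lin_pt
  refine ⟨c, by omega, fun l r n cL cU m hr hl hτ c1 hc hU hm => ?_⟩
  obtain ⟨s, h1, h2, h3⟩ := h l r n cL cU m hr hl hτ c1 hc hU hm
  exact ⟨s, h1, grad_of_pt h3 (by omega) (by omega), h2, h3.pt⟩

end Pool.Agent.Lib.MP_7f377f_mp.RG.Q4
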