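import Mathlib

/-! The two sided recursion with a small rate and with sources. -/

namespace Pool.Agent.Lib.MP_7f377f_mp.RG.Q4

open Finset

/-- the two sided system: `x` is controlled from below, `y` from above -/
structure TwS (I : ℕ) (C a : ℝ) (η c s t x y : ℕ → ℝ) : Prop where
  bot : x 0 ≤ C * y 0 + a
  up : ∀ k < I, x (k + 1) ≤ (1 + η k) * x k + η k * (x (k + 1) + y (k + 1)) + s k
  dn : ∀ k < I, y k ≤ c k * (x (k + 1) + y (k + 1)) + t k

/-- a supersolution -/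
structure TwU (I : ℕ) (C a : ℝ) (η c s t x y : ℕ → ℝ) : Prop where
  bot : C * y 0 + a ≤ x 0
  up : ∀ k < I, (1 + η k) * x k + η k * (x (k + 1) + y (k + 1)) + s k ≤ x (k + 1)
  dn : ∀ k < I, c k * (x (k + 1) + y (k + 1)) + t k ≤ y k

/-- smallness of the coefficients -/
structure TwC (I : ℕ) (C : ℝ) (η c : ℕ → ℝ) : Prop where
  C1 : 1 ≤ C
  η0 : ∀ k < I, 0 ≤ η k
  η1 : ∀ k < I, 8 * η k ≤ 1
  c0 : ∀ k < I, 0 ≤ c k
  c1 : ∀ k < I, 8 * (C * c k) ≤ 1

variable {I k : ℕ} {C a σ τ γ : ℝ} {η c s t x y A B : ℕ → ℝ}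

/-- without sources: contraction with the rate `2 c` -/
theorem two_sided_c (p : TwC I C η c) (h : TwS I C 0 η c 0 0 x y) (hx : ∀ k ≤ I, 0 ≤ x k)
    (hy : ∀ k ≤ I, 0 ≤ y k) (hk : k ≤ I) :
    x k ≤ C * y k ∧ (0 < k → x k ≤ y k) ∧ y k ≤ (∏ j ∈ Ico k I, 2 * c j) * y I := by
  have C0 := zero_le_one.trans p.C1
  have a : ∀ k ≤ I, x k ≤ C * y k ∧ (0 < k → x k ≤ y k) := by
    intro k
    induction k with
    | zero => exact fun _ => ⟨by simpa using h.bot, fun h => absurd h (lt_irrefl 0)⟩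
    | succ k ih =>
      intro hk
      have h1 := h.up k hk
      have h2 := mul_le_mul_of_nonneg_left (h.dn k hk) C0
      have h3 := (ih (by omega)).1
      have h4 := add_nonneg (hx _ hk) (hy _ hk)
      have h5 := mul_le_mul_of_nonneg_right (p.η1 k hk) h4
      have h6 := mul_le_mul_of_nonneg_right (p.c1 k hk) h4
      have h7 := mul_le_mul_of_nonneg_right (p.η1 k hk) (hx k (by omega))
      simp only [Pi.zero_apply, add_zero] at h1 h2
      have h8 : x (k + 1) ≤ y (k + 1) := by nlinarith [hy _ hk]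
      exact ⟨h8.trans (le_mul_of_one_le_left (hy _ hk) p.C1), fun _ => h8⟩
  refine ⟨(a k hk).1, (a k hk).2, ?_⟩
  induction hk using Nat.decreasingInduction with
  | self => simp
  | of_succ k hk ih =>
    have h1 := h.dn k hk
    have h2 := mul_le_mul_of_nonneg_left ((a _ hk).2 k.succ_pos) (p.c0 k hk)
    have h3 := mul_le_mul_of_nonneg_left ih (p.c0 k hk)
    rw [prod_eq_prod_Ico_succ_bot hk]
    simp only [Pi.zero_apply, add_zero] at h1
    nlinarith

/-- comparison with a supersolution -/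
theorem two_sided_cmp (p : TwC I C η c) (h : TwS I C a η c s t x y) (u : TwU I C a η c s t A B)
    (hk : k ≤ I) : x k ≤ A k + C * ((∏ j ∈ Ico k I, 2 * c j) * max (y I - B I) 0) ∧
      y k ≤ B k + (∏ j ∈ Ico k I, 2 * c j) * max (y I - B I) 0 := by
  have C0 := zero_le_one.trans p.C1
  have m1 := fun k => le_max_left (x k - A k) 0
  have m2 := fun k => le_max_left (y k - B k) 0
  have m3 := fun k => le_max_right (x k - A k) 0
  have m4 := fun k => le_max_right (y k - B k) 0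
  suffices H : TwS I C 0 η c 0 0 (fun k => max (x k - A k) 0) fun k => max (y k - B k) 0 by
    obtain ⟨h1, -, h2⟩ := two_sided_c p H (fun k _ => m3 k) (fun k _ => m4 k) hk
    exact ⟨by linarith [m1 k, mul_le_mul_of_nonneg_left h2 C0], by linarith [m2 k]⟩
  refine ⟨?_, fun k hk => ?_, fun k hk => ?_⟩
  · exact max_le (by linarith [h.bot, u.bot, mul_le_mul_of_nonneg_left (m2 0) C0])
      (by linarith [mul_nonneg C0 (m4 0)])
  · have e := p.η0 k hk
    have e1 : 0 ≤ 1 + η k := by linarith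
    refine max_le ?_ (by
      simpa using add_nonneg (mul_nonneg e1 (m3 k)) (mul_nonneg e (add_nonneg (m3 _) (m4 _))))
    simp only [Pi.zero_apply]
    linarith [h.up k hk, u.up k hk, mul_le_mul_of_nonneg_left (m1 k) e1,
      mul_le_mul_of_nonneg_left (add_le_add (m1 (k + 1)) (m2 (k + 1))) e]
  · have e := p.c0 k hk
    refine max_le ?_ (by simpa using mul_nonneg e (add_nonneg (m3 _) (m4 _)))
    simp only [Pi.zero_apply]
    linarith [h.dn k hk, u.dn k hk,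
      mul_le_mul_of_nonneg_left (add_le_add (m1 (k + 1)) (m2 (k + 1))) e]

/-- sources in a window where the drift is summable -/
theorem two_sided_src (p : TwC I C η c) (h : TwS I C a η c s t x y) (hη : 8 * ∑ j ∈ range I, η j ≤ 1)
    (a0 : 0 ≤ a) (s0 : ∀ k < I, 0 ≤ s k) (hσ : a + ∑ j ∈ range I, s j ≤ σ) (τ0 : 0 ≤ τ)
    (hτ : ∀ k < I, t k ≤ τ) (γ0 : 0 ≤ γ) (hγ : ∀ k < I, c k ≤ γ) (γ1 : 8 * (C * γ) ≤ 1)
    (y0 : 0 ≤ y I) (hk : k ≤ I) :
    x k ≤ C * ((∏ j ∈ Ico k I, 2 * c j) * y I) + (2 * σ + 6 * (C * τ)) ∧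
      y k ≤ (∏ j ∈ Ico k I, 2 * c j) * y I + (2 * τ + 2 * (γ * σ)) := by
  have C0 := zero_le_one.trans p.C1
  have σ0 : 0 ≤ σ := (add_nonneg a0 (sum_nonneg fun j hj => s0 j (mem_range.1 hj))).trans hσ
  obtain ⟨β, hβ⟩ : ∃ β, β = 2 * τ + 2 * (γ * σ) := ⟨_, rfl⟩
  have β0 : 0 ≤ β := by rw [hβ]; positivity
  obtain ⟨Z, hZ⟩ : ∃ Z, Z = 4 / 3 * (2 * (C * β) + σ) := ⟨_, rfl⟩
  have Z0 : 0 ≤ Z := by rw [hZ]; positivity
  have b1 := le_mul_of_one_le_left β0 p.C1
  have q0 : ∀ k < I, 0 ≤ s k + 2 * η k * Z := fun k hk =>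
    add_nonneg (s0 k hk) (mul_nonneg (mul_nonneg zero_le_two (p.η0 k hk)) Z0)
  have q : ∀ k ≤ I, C * β + a + ∑ j ∈ range k, (s j + 2 * η j * Z) + β ≤ Z := fun k hk => by
    have h1 := sum_le_sum_of_subset_of_nonneg (range_subset_range.2 hk) fun j hj _ =>
      q0 j (mem_range.1 hj)
    rw [sum_add_distrib (s := range I), ← sum_mul, ← mul_sum] at h1
    linarith [mul_le_mul_of_nonneg_right hη Z0]
  have P0 : 0 ≤ ∏ j ∈ Ico k I, 2 * c j :=
    prod_nonneg fun j hj => mul_nonneg zero_le_two (p.c0 j (mem_Ico.1 hj).2)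
  have m := mul_le_mul_of_nonneg_left (max_le (sub_le_self _ β0) y0) P0
  have g1 := mul_le_mul_of_nonneg_right γ1 σ0
  suffices H : TwU I C a η c s t (fun k => C * β + a + ∑ j ∈ range k, (s j + 2 * η j * Z))
      fun _ => β by
    obtain ⟨h1, h2⟩ := two_sided_cmp p h H hk
    refine ⟨?_, by linarith⟩
    have : C * β = 2 * (C * τ) + 2 * (C * γ * σ) := by rw [hβ]; ring
    linarith [q k hk, mul_le_mul_of_nonneg_left m C0, mul_nonneg C0 τ0]
  refine ⟨by simp, fun k hk => ?_, fun k hk => ?_⟩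
  · have := mul_le_mul_of_nonneg_left (add_le_add (q k hk.le) (q _ hk)) (p.η0 k hk)
    simp only [sum_range_succ] at this ⊢
    linarith [mul_nonneg (p.η0 k hk) β0]
  · have h1 := (mul_le_mul_of_nonneg_left (q _ hk) (p.c0 k hk)).trans
      (mul_le_mul_of_nonneg_right (hγ k hk) Z0)
    have h2 : γ * Z = 8 / 3 * (C * γ * β) + 4 / 3 * (γ * σ) := by rw [hZ]; ring
    linarith [hτ k hk, mul_le_mul_of_nonneg_right γ1 β0]

/-- sources which decay geometrically, any number of levels -/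
theorem two_sided_geo {ρ w : ℝ} (p : TwC I C η c) (h : TwS I C a η c s t x y) (ρ0 : 0 ≤ ρ)
    (ρ1 : 2 * ρ ≤ 1) (hρ : ∀ k < I, 6 * (C * c k) ≤ ρ) (w0 : 0 ≤ w) (ha : a ≤ ρ ^ I * w)
    (hs : ∀ k < I, s k ≤ ρ ^ (I - k) * w ∧ t k ≤ ρ ^ (I - k) * w) (hy : y I ≤ 2 * w) (hk : k ≤ I) :
    x k ≤ 4 * C * (ρ ^ (I - k) * w) ∧ y k ≤ 2 * (ρ ^ (I - k) * w) := by
  have C0 := zero_le_one.trans p.C1
  have e : ∀ k < I, ρ ^ (I - k) * w = ρ * (ρ ^ (I - (k + 1)) * w) := fun k hk => by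
    rw [show I - k = I - (k + 1) + 1 by omega]; ring
  have n : ∀ j, 0 ≤ ρ ^ j * w := fun j => by positivity
  have n1 := fun j => le_mul_of_one_le_left (n j) p.C1
  have := two_sided_cmp (A := fun k => 4 * C * (ρ ^ (I - k) * w)) (B := fun k => 2 * (ρ ^ (I - k) * w))
    p h ⟨?_, fun k hk => ?_, fun k hk => ?_⟩ hk
  · simpa [max_eq_right (sub_nonpos.2 hy)] using this
  · simp only [Nat.sub_zero]
    linarith [n1 I, n I]
  · have h1 := (hs k hk).1
    have h2 := n1 (I - (k + 1))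
    have h3 := n (I - (k + 1))
    simp only [e k hk] at h1 ⊢
    generalize ρ ^ (I - (k + 1)) * w = v at *
    have h4 := mul_le_mul_of_nonneg_right ρ1 (mul_nonneg C0 h3)
    have h5 := mul_le_mul_of_nonneg_right (p.η1 k hk) (mul_nonneg C0 h3)
    have h6 := mul_le_mul_of_nonneg_right (p.η1 k hk) h3
    have h7 := mul_le_mul_of_nonneg_right (p.η1 k hk) (mul_nonneg ρ0 (mul_nonneg C0 h3))
    nlinarith [mul_le_mul_of_nonneg_right ρ1 h3]
  · have h1 := (hs k hk).2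
    have h2 := mul_le_mul_of_nonneg_left (n1 (I - (k + 1))) (p.c0 k hk)
    have h3 := mul_le_mul_of_nonneg_right (hρ k hk) (n (I - (k + 1)))
    simp only [e k hk] at h1 ⊢
    nlinarith

/-- constant rate -/
theorem prod_rate (hγ : ∀ j < I, 0 ≤ c j ∧ c j ≤ γ) : ∏ j ∈ Ico k I, 2 * c j ≤ (2 * γ) ^ (I - k) := by
  rw [← Nat.card_Ico, ← prod_const]
  exact prod_le_prod (fun j hj => mul_nonneg zero_le_two (hγ j (mem_Ico.1 hj).2).1) fun j hj =>
    mul_le_mul_of_nonneg_left (hγ j (mem_Ico.1 hj).2).2 zero_le_two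

end Pool.Agent.Lib.MP_7f377f_mp.RG.Q4
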