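import Pool.Agent.Lib.MP_7f377f_mp.StW

/-! The letters of the equation of motion. -/

noncomputable section

namespace Pool.Agent.Lib.MP_7f377f_mp.RG.Wd

open Finset

/-- the plaquette spanned by two signed directions -/
def pq (d e : Dr) : Lp := ⟨[d, e, fl d, fl e], by simp⟩

/-- a loop reached by one step -/
def las (d : Dr) (w : Lp) : Lp := ⟨d :: (w.1 ++ [fl d]), by simp [w.2]⟩

/-- the rectangle made of the two staples of the link in direction `m` -/
def rec6 (m : Fin 4) : Lp :=
  ⟨[(0, true), (m, true), (0, false), (0, false), (m, false), (0, true)], by simp [dv]⟩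

/-- the density of one plaquette -/
def pl (d e : Dr) : Let := lt false 0 (pq d e) (pq d e)

/-- the symmetric action density -/
def phS : Let := (8⁻¹ : ℂ) • ∑ d, ∑ e, pl d e

/-- the variation of the action -/
def jL : Let := ∑ m, ∑ d, lt true 0 (rec6 m) (pq (m, true) d)

/-- the lattice currents -/
def thL (r : Fin 4) : Let := ∑ m, lt true 0 (las (r, true) (rec6 m)) (pq (m, true) (r, true)) +
  if r = 0 then (2⁻¹ : ℂ) • ∑ m, ∑ k,
    lt true 0 (pq (m, true) (k, true)) (las (0, true) (pq (m, true) (k, true))) else 0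

/-- the cubic rest -/
def rL : Let := jL - ∑ r, (thL r - tr (-un r) (thL r))

/-- shift of the corner -/
def cn (d : Dr) : St := if d.2 then 0 else un d.1

theorem pq_act (g : B4) (d e : Dr) : (pq d e).act g = pq (g.1 d) (g.1 e) :=
  Subtype.ext (by simp [pq, Lp.act, g_fl])

theorem las_act (g : B4) (d : Dr) (w : Lp) : (las d w).act g = las (g.1 d) (w.act g) :=
  Subtype.ext (by simp [las, Lp.act, g_fl])

theorem act_pl (g : B4) (d e : Dr) : act g (pl d e) = pl (g.1 d) (g.1 e) := by
  rw [pl, act_lt, pq_act, gv_zero, pl]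

theorem act_phS (g : B4) : act g phS = phS := by
  simp only [phS, map_smul, map_sum, act_pl]
  congr 1
  exact Fintype.sum_equiv g.1 _ _ fun d => Fintype.sum_equiv g.1 _ _ fun e => rfl

theorem per_pb {α : Type} {n : ℕ} {U : Lk → α} (iv : α → α) (g : B4) (hU : Per n U) :
    Per n (pb iv g U) := fun μ => by
  rw [sh_pb, show gv g ((n : ℤ) • un μ) = (n : ℤ) • gv g (un μ) from map_zsmul (gvE g ℤ) _ _,
    hU.sh_smul]

section flux
variable {W : Type} [AddCommGroup W] (a : Lk → W) (x : St)

theorem fx_append (w w' : List Dr) : ∀ x, fx a x (w ++ w') = fx a x w + fx a (x + ed w) w' := by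
  induction w with
  | nil => exact fun _ => by simp [fx]
  | cons d w ih => exact fun x => by simp only [List.cons_append, fx, ih, ed_cons, add_assoc]

theorem fx_las (d : Dr) (w : Lp) : fx a x (las d w).1 = fx a (x + dv d) w.1 := by
  simp [las, fx, fx_append, w.2, stp_fl neg_neg]

theorem fx_pq (m r : Fin 4) : fx a x (pq (m, true) (r, true)).1 = dd a x m r := by
  simp only [pq, fx, stp, dv, fl, dd, if_true, Bool.not_true, Bool.false_eq_true, if_false,
    show x + un m + un r - un m = x + un r by abel, show x + un m + un r + -un m - un r = x by abel]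
  abel

theorem fx_pq' (m r : Fin 4) : fx a x (pq (m, true) (r, false)).1 = -dd a (x - un r) m r := by
  simp only [pq, fx, stp, dv, fl, dd, if_true, Bool.not_true, Bool.false_eq_true, if_false,
    Bool.not_false, show x + un m + -un r - un m = x - un r by abel, sub_add_cancel,
    show x + un m + -un r + -un m = x - un r by abel, show x - un r + un m = x + un m - un r by abel]
  abel

theorem fx_rec (m : Fin 4) : fx a x (rec6 m).1 = dd a x 0 m + dd a (x - un 0) 0 m := by
  simp only [rec6, fx, stp, dv, dd, if_true, Bool.false_eq_true, if_false, sub_add_cancel,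
    show x + un 0 + un m - un 0 = x + un m by abel,
    show x + un 0 + un m + -un 0 - un 0 = x - un 0 + un m by abel,
    show x + un 0 + un m + -un 0 + -un 0 - un m = x - un 0 by abel,
    show x + un 0 + un m + -un 0 + -un 0 + -un m = x - un 0 by abel]
  abel

theorem dd_anti (m r : Fin 4) : dd a x r m = -dd a x m r := by
  simp only [dd]
  abel

theorem bianchi (l m r : Fin 4) : dd a (x + un l) m r - dd a x m r + (dd a (x + un m) r l -
    dd a x r l) + (dd a (x + un r) l m - dd a x l m) = 0 := by
  simp only [dd, add_right_comm x (un m) (un l), add_right_comm x (un r) (un l),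
    add_right_comm x (un r) (un m)]
  abel

end flux

theorem sig_zero {X : Let} (h : ∀ a, sig X a a = 0) : sig X = 0 := by
  ext a b
  have := h (a + b)
  simp only [map_add, LinearMap.add_apply, h a, h b, sig_symm X b a] at this
  simpa using this

theorem sig_rL : sig rL = 0 := sig_zero fun a => by
  obtain ⟨v, hv⟩ : ∃ v : St → Fin 4 → ℝ, ∀ x m, dd a x 0 m + dd a (x - un 0) 0 m = v x m :=
    ⟨_, fun _ _ => rfl⟩
  have e : ∀ m r, v 0 m - v (un r) m - (v 0 r - v (un m) r) =
      dd a (un 0) m r - dd a (-un 0) m r := fun m r => by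
    have h1 := bianchi a 0 0 m r
    have h2 := bianchi a (-un 0) 0 m r
    simp only [← hv, zero_add, zero_sub, neg_add_cancel, neg_add_eq_sub, dd_anti a _ 0 r] at h1 h2 ⊢
    linarith
  have s : ∑ m, ∑ r, (v 0 m - v (un r) m) * dd a 0 m r =
      2⁻¹ * ∑ m, ∑ r, (dd a (un 0) m r - dd a (-un 0) m r) * dd a 0 m r := by
    have : ∑ m, ∑ r, (v 0 m - v (un r) m) * dd a 0 m r =
        -∑ m, ∑ r, (v 0 r - v (un m) r) * dd a 0 m r := by
      rw [sum_comm]
      simp only [← sum_neg_distrib, ← mul_neg, ← dd_anti]
    simp only [← e, sub_mul _ (_ - _), sum_sub_distrib]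
    linarith
  simp only [rL, jL, thL, map_sub, map_sum, map_add, LinearMap.sub_apply, LinearMap.sum_apply,
    LinearMap.add_apply, sig_tr, Fintype.sum_prod_type, Fintype.sum_bool, apply_ite sig,
    DFunLike.ite_apply, map_smul, LinearMap.smul_apply, map_zero, LinearMap.zero_apply, sig_lt,
    fx_las, fx_rec, fx_pq, fx_pq', dd_sh, dv, if_true, zero_add,
    add_neg_cancel, sub_add_eq_add_sub, zero_sub,
    sum_add_distrib, sum_sub_distrib, sum_ite_eq', mem_univ, smul_eq_mul]
  refine Complex.ext ?_ (by simp)
  simp only [Fin.sum_univ_four, ← hv, zero_sub, sub_self] at s ⊢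
  simp
  linarith

end Pool.Agent.Lib.MP_7f377f_mp.RG.Wd
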