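import Mathlib

/-! Stable directions of a linear cocycle. -/

namespace Pool.Agent.Lib.MP_7f377f_mp.Cok

open Finset

variable {𝕜 V E β : Type} [NontriviallyNormedField 𝕜] [AddCommGroup V] [Module 𝕜 V] [NormedAddCommGroup E] [NormedSpace 𝕜 E]
  [Fintype β]

/-- `P k u y`: `u` is admissible at level `k` and its contracting part is at most `y`;
`q k u` are the slow coordinates, `T k` maps the level `k + 1` to the level `k` -/
structure Co (j J : ℕ) (P : ℕ → V → ℝ → Prop) (q : ℕ → V → E) (T : ℕ → V → V)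
    (A : ℕ → E →ₗ[𝕜] E) (W : Submodule 𝕜 E) (a lam η : ℕ → ℝ) : Prop where
  zero : ∀ k, P k 0 0
  nn : ∀ k u y, P k u y → 0 ≤ y
  mono : ∀ k u y y', P k u y → y ≤ y' → P k u y'
  lin : ∀ k u v y y' (t : 𝕜), P k u y → P k v y' →
    P k (u + t • v) (y + ‖t‖ * y') ∧ q k (u + t • v) = q k u + t • q k v
  linT : ∀ k u v y y' (t : 𝕜), j ≤ k → k < J → P (k + 1) u y → P (k + 1) v y' →
    T k (u + t • v) = T k u + t • T k v
  mem : ∀ k u y, P k u y → q k u ∈ W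
  step : ∀ k u x y, j ≤ k → k < J → P (k + 1) u y → ‖q (k + 1) u‖ ≤ x → 0 < x + y →
    P k (T k u) (lam k * (x + y)) ∧ ‖q k (T k u) - A k (q (k + 1) u)‖ ≤ η k * (x + y)
  inv : ∀ k e, j ≤ k → k < J → ‖e‖ ≤ a k * ‖A k e‖
  nl : ∀ k, 0 ≤ a k ∧ 0 ≤ lam k ∧ 0 ≤ η k

variable {j J : ℕ} {P : ℕ → V → ℝ → Prop} {q : ℕ → V → E} {T : ℕ → V → V} {A : ℕ → E →ₗ[𝕜] E}
  {W : Submodule 𝕜 E} {a lam η w : ℕ → ℝ} {C C' : ℝ} {p : β → ℕ → V} {u f : ℕ → V}

theorem Co.q0 (h : Co j J P q T A W a lam η) (k : ℕ) : q k 0 = 0 := by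
  have := (h.lin k 0 0 0 0 1 (h.zero k) (h.zero k)).2
  simpa using this

theorem Co.T0 (h : Co j J P q T A W a lam η) {k : ℕ} (h1 : j ≤ k) (h2 : k < J) : T k 0 = 0 := by
  have := h.linT k 0 0 0 0 1 h1 h2 (h.zero _) (h.zero _)
  simpa using this

omit [Fintype β] in
theorem Co.sum (h : Co j J P q T A W a lam η) {k : ℕ} (S : Finset β) (c : β → 𝕜) (v : β → V)
    (y : β → ℝ) (hv : ∀ b, P k (v b) (y b)) :
    P k (∑ b ∈ S, c b • v b) (∑ b ∈ S, ‖c b‖ * y b) ∧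
      q k (∑ b ∈ S, c b • v b) = ∑ b ∈ S, c b • q k (v b) := by
  classical
  induction S using Finset.induction_on with
  | empty => simpa using ⟨h.zero k, h.q0 k⟩
  | insert b S hb ih =>
    rw [sum_insert hb, sum_insert hb, sum_insert hb, add_comm (c b • v b), add_comm (‖c b‖ * y b),
      add_comm (c b • q k (v b)), ← ih.2]
    exact h.lin k _ _ _ _ (c b) ih.1 (hv b)

omit [Fintype β] in
theorem Co.sumT (h : Co j J P q T A W a lam η) {k : ℕ} (h1 : j ≤ k) (h2 : k < J) (S : Finset β)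
    (c : β → 𝕜) (v : β → V) (y : β → ℝ) (hv : ∀ b, P (k + 1) (v b) (y b)) :
    T k (∑ b ∈ S, c b • v b) = ∑ b ∈ S, c b • T k (v b) := by
  classical
  induction S using Finset.induction_on with
  | empty => simpa using h.T0 h1 h2
  | insert b S hb ih =>
    rw [sum_insert hb, sum_insert hb, add_comm (c b • v b), add_comm (c b • T k (v b)), ← ih]
    exact h.linT k _ _ _ _ (c b) h1 h2 (h.sum S c v y hv).1 (hv b)

theorem down {Q : ℕ → Prop} (h0 : Q J) (hs : ∀ k, j ≤ k → k < J → Q (k + 1) → Q k) :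
    ∀ k, j ≤ k → k ≤ J → Q k := by
  intro k h1 h2
  obtain ⟨d, hd⟩ : ∃ d, J = k + d := ⟨J - k, by omega⟩
  induction d generalizing k with
  | zero => have : k = J := by omega
            exact this ▸ h0
  | succ d ih => exact hs k h1 (by omega) (ih (k + 1) (by omega) (by omega) (by omega))

/-- orbits are admissible -/
theorem Co.adm (h : Co j J P q T A W a lam η) (u0 : ∃ y, P J (u J) y)
    (u2 : ∀ k, j ≤ k → k < J → u k = T k (u (k + 1)) + f k)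
    (f1 : ∀ k, j ≤ k → k < J → ∃ y, P k (f k) y) : ∀ k, j ≤ k → k ≤ J → ∃ y, P k (u k) y := by
  refine down u0 fun k h1 h2 ⟨y, hy⟩ => ?_
  obtain ⟨y', hy'⟩ := f1 k h1 h2
  have y0 := h.nn _ _ _ hy
  have s := (h.step k _ (‖q (k + 1) (u (k + 1))‖ + 1) y h1 h2 hy (by linarith)
    (by positivity)).1
  have := (h.lin k _ _ _ _ 1 s hy').1
  rw [one_smul, ← u2 k h1 h2] at this
  exact ⟨_, this⟩

/-- the a priori estimate for an orbit which vanishes at the bottom -/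
theorem Co.est (h : Co j J P q T A W a lam η) (hj : j ≤ J) {D : ℝ} (D0 : 0 ≤ D) {v : ℕ → V}
    (w0 : ∀ k, 0 < w k) (w1 : ∀ k, j ≤ k → k < J → 2 * a k * w k ≤ w (k + 1) ∧
      4 * lam k * w (k + 1) ≤ w k ∧ 100 * (1 + D) * (a k * η k) ≤ 1)
    (v1 : P J (v J) (w J + D * (‖q J (v J)‖ + w J)))
    (v2 : ∀ k, j ≤ k → k < J → v k = T k (v (k + 1)) + f k) (v0 : q j (v j) = 0)
    (f1 : ∀ k, j ≤ k → k ≤ J → P k (f k) (w k) ∧ ‖q k (f k)‖ ≤ w k) :
    ∀ k, j ≤ k → k ≤ J → P k (v k) (4 * (1 + D) * w k) ∧ ‖q k (v k)‖ ≤ 2 * w k := by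
  obtain ⟨m, hm, hX⟩ := exists_max_image (Icc j J) (fun k => ‖q k (v k)‖ / w k)
    ⟨j, mem_Icc.2 ⟨le_rfl, hj⟩⟩
  obtain ⟨X, eX⟩ : ∃ X, X = ‖q m (v m)‖ / w m := ⟨_, rfl⟩
  rw [← eX] at hX
  have X0 : 0 ≤ X := eX ▸ div_nonneg (norm_nonneg _) (w0 m).le
  have hx : ∀ k, j ≤ k → k ≤ J → ‖q k (v k)‖ ≤ X * w k := fun k h1 h2 =>
    (div_le_iff₀ (w0 k)).1 (hX k (mem_Icc.2 ⟨h1, h2⟩))
  obtain ⟨Y, eY⟩ : ∃ Y, Y = 4 / 3 * (1 + D) * (X + 1) := ⟨_, rfl⟩
  have DX : 0 ≤ D * X := mul_nonneg D0 X0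
  have Y0 : 0 < Y := by rw [eY]; positivity
  have st : ∀ k, j ≤ k → k < J → P (k + 1) (v (k + 1)) (Y * w (k + 1)) →
      P k (T k (v (k + 1))) (lam k * (X * w (k + 1) + Y * w (k + 1))) ∧
        ‖q k (T k (v (k + 1))) - A k (q (k + 1) (v (k + 1)))‖ ≤
          η k * (X * w (k + 1) + Y * w (k + 1)) := fun k h1 h2 hp =>
    h.step k _ _ _ h1 h2 hp (hx (k + 1) (by omega) h2) (by have := w0 (k + 1); positivity)
  have hy : ∀ k, j ≤ k → k ≤ J → P k (v k) (Y * w k) := by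
    refine down (h.mono _ _ _ _ v1 ?_) fun k h1 h2 hp => ?_
    · have a1 := mul_le_mul_of_nonneg_left (hx J hj le_rfl) D0
      have a2 : 0 ≤ (Y - (1 + D * (X + 1))) * w J :=
        mul_nonneg (by rw [eY]; nlinarith) (w0 J).le
      nlinarith
    · have s := (h.lin k _ _ _ _ 1 (st k h1 h2 hp).1 (f1 k h1 h2.le).1).1
      rw [one_smul, ← v2 k h1 h2, norm_one, one_mul] at s
      refine h.mono _ _ _ _ s ?_
      have a1 := mul_le_mul_of_nonneg_left (w1 k h1 h2).2.1 (show 0 ≤ (X + Y) / 4 by positivity)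
      have a2 : 0 ≤ (Y - ((X + Y) / 4 + 1)) * w k :=
        mul_nonneg (by rw [eY]; nlinarith) (w0 k).le
      nlinarith
  have X1 : X ≤ 11 / 10 := by
    rcases (mem_Icc.1 hm).1.eq_or_lt with e | e
    · rw [eX, ← e, v0, norm_zero, zero_div]; norm_num
    · obtain ⟨k, rfl⟩ : ∃ k, m = k + 1 := ⟨m - 1, by omega⟩
      have h1 : j ≤ k := by omega
      have h2 : k < J := (mem_Icc.1 hm).2
      have s := st k h1 h2 (hy (k + 1) (by omega) h2)
      have e1 := (h.lin k _ _ _ _ 1 s.1 (f1 k h1 h2.le).1).2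
      rw [one_smul, ← v2 k h1 h2, one_smul] at e1
      have b1 : ‖A k (q (k + 1) (v (k + 1)))‖ ≤ X * w k + w k +
          η k * (X * w (k + 1) + Y * w (k + 1)) := by
        have : A k (q (k + 1) (v (k + 1))) = q k (v k) - q k (f k) -
            (q k (T k (v (k + 1))) - A k (q (k + 1) (v (k + 1)))) := by rw [e1]; abel
        rw [this]
        refine (norm_sub_le _ _).trans (add_le_add ((norm_sub_le _ _).trans
          (add_le_add (hx k h1 h2.le) (f1 k h1 h2.le).2)) s.2)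
      have b2 := (h.inv k (q (k + 1) (v (k + 1))) h1 h2).trans
        (mul_le_mul_of_nonneg_left b1 (h.nl k).1)
      have b3 : ‖q (k + 1) (v (k + 1))‖ = X * w (k + 1) := by
        rw [eX, div_mul_cancel₀ _ (w0 _).ne']
      have b4 := mul_le_mul_of_nonneg_left (w1 k h1 h2).1 (show 0 ≤ (X + 1) / 2 by positivity)
      have ae : 0 ≤ a k * η k := mul_nonneg (h.nl k).1 (h.nl k).2.2
      have b5 : a k * η k * (X + Y) ≤ 7 / 300 * (X + 1) := by
        have c1 : X + Y ≤ 7 / 3 * (1 + D) * (X + 1) := by rw [eY]; nlinarith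
        have c2 := mul_le_mul_of_nonneg_left c1 ae
        have c3 := mul_le_mul_of_nonneg_left (w1 k h1 h2).2.2
          (show 0 ≤ 7 / 300 * (X + 1) by positivity)
        nlinarith
      have b6 := mul_le_mul_of_nonneg_right b5 (w0 (k + 1)).le
      have b7 : X * w (k + 1) ≤ (157 / 300 * (X + 1)) * w (k + 1) := by nlinarith
      have b8 := le_of_mul_le_mul_right b7 (w0 (k + 1))
      linarith
  intro k h1 h2
  refine ⟨h.mono _ _ _ _ (hy k h1 h2) (mul_le_mul_of_nonneg_right ?_ (w0 k).le),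
    (hx k h1 h2).trans (mul_le_mul_of_nonneg_right (by linarith) (w0 k).le)⟩
  rw [eY]; nlinarith

/-- the estimate for the difference of an orbit and an orbit of the family -/
theorem Co.est2 (h : Co j J P q T A W a lam η) (hj : j ≤ J)
    (hp : ∀ b k, j ≤ k → k < J → p b k = T k (p b (k + 1))) (p1 : ∀ b, P J (p b J) C') (C0 : 0 ≤ C)
    (C1 : 0 ≤ C') (c : β → 𝕜) (s1 : ∑ b, ‖c b‖ ≤ C * ‖∑ b, c b • q J (p b J)‖)
    (w0 : ∀ k, 0 < w k) (w1 : ∀ k, j ≤ k → k < J → 2 * a k * w k ≤ w (k + 1) ∧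
      4 * lam k * w (k + 1) ≤ w k ∧ 100 * (1 + C * C') * (a k * η k) ≤ 1)
    (u1 : u J = f J) (u2 : ∀ k, j ≤ k → k < J → u k = T k (u (k + 1)) + f k)
    (f1 : ∀ k, j ≤ k → k ≤ J → P k (f k) (w k) ∧ ‖q k (f k)‖ ≤ w k)
    (u0 : ∑ b, c b • q j (p b j) = q j (u j)) :
    ‖∑ b, c b • q J (p b J)‖ ≤ 3 * w J ∧ ∀ k, j ≤ k → k ≤ J →
      P k (u k - ∑ b, c b • p b k) (4 * (1 + C * C') * w k) ∧
        ‖q k (u k - ∑ b, c b • p b k)‖ ≤ 2 * w k := by
  have au := h.adm (u := u) (f := f) ⟨_, u1 ▸ (f1 J hj le_rfl).1⟩ u2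
    fun k h1 h2 => ⟨_, (f1 k h1 h2.le).1⟩
  have ap : ∀ b k, j ≤ k → k ≤ J → ∃ y, P k (p b k) y := fun b =>
    h.adm (u := p b) (f := 0) ⟨_, p1 b⟩ (fun k h1 h2 => by simpa using hp b k h1 h2)
      fun k _ _ => ⟨_, h.zero k⟩
  have sb : ∀ x y : V, x - y = x + (-1 : 𝕜) • y := fun x y => by rw [neg_one_smul, sub_eq_add_neg]
  have hq : ∀ k, j ≤ k → k ≤ J →
      q k (u k - ∑ b, c b • p b k) = q k (u k) - ∑ b, c b • q k (p b k) := by
    intro k h1 h2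
    obtain ⟨y, hy⟩ := au k h1 h2
    choose z hz using fun b => ap b k h1 h2
    have s := h.sum univ c (fun b => p b k) z hz
    rw [sb, (h.lin k _ _ _ _ (-1) hy s.1).2, s.2, neg_one_smul, sub_eq_add_neg]
  have eJ : ‖∑ b, c b • q J (p b J)‖ ≤ ‖q J (u J - ∑ b, c b • p b J)‖ + w J := by
    have : ∑ b, c b • q J (p b J) = q J (f J) - q J (u J - ∑ b, c b • p b J) := by
      rw [hq J hj le_rfl, u1]; abel
    rw [this]
    have := norm_sub_le (q J (f J)) (q J (u J - ∑ b, c b • p b J))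
    linarith [(f1 J hj le_rfl).2]
  have r := h.est (f := f) (v := fun k => u k - ∑ b, c b • p b k) hj (mul_nonneg C0 C1) w0 w1
    ?_ ?_ ?_ f1
  · exact ⟨by linarith [(r J hj le_rfl).2], r⟩
  · have s := (h.lin J _ _ _ _ (-1) (u1 ▸ (f1 J hj le_rfl).1 : P J (u J) (w J))
      (h.sum univ c (fun b => p b J) (fun _ => C') p1).1).1
    rw [← sb, norm_neg, norm_one, one_mul, ← sum_mul] at s
    refine h.mono _ _ _ _ s ?_
    have a1 := mul_le_mul_of_nonneg_right (s1.trans (mul_le_mul_of_nonneg_left eJ C0)) C1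
    nlinarith
  · intro k h1 h2
    obtain ⟨y, hy⟩ := au (k + 1) (by omega) h2
    choose z hz using fun b => ap b (k + 1) (by omega) h2
    show u k - ∑ b, c b • p b k = T k (u (k + 1) - ∑ b, c b • p b (k + 1)) + f k
    rw [sb (u (k + 1)), h.linT k _ _ _ _ (-1) h1 h2 hy (h.sum univ c (fun b => p b (k + 1)) z hz).1,
      h.sumT h1 h2 univ c (fun b => p b (k + 1)) z hz, u2 k h1 h2, neg_one_smul,
      sum_congr rfl fun b _ => by rw [hp b k h1 h2]]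
    abel
  · show q j (u j - ∑ b, c b • p b j) = 0
    rw [hq j le_rfl hj, u0, sub_self]

/-- an inhomogeneous orbit is an orbit of the family `p` up to the size of the sources -/
theorem Co.fast [FiniteDimensional 𝕜 E] (h : Co j J P q T A W a lam η) (hj : j ≤ J)
    (hp : ∀ b k, j ≤ k → k < J → p b k = T k (p b (k + 1))) (p1 : ∀ b, P J (p b J) C') (C0 : 0 ≤ C)
    (C1 : 0 ≤ C')
    (s : E →ₗ[𝕜] β → 𝕜) (s1 : ∀ e, ∑ b, ‖s e b‖ ≤ C * ‖e‖)
    (s2 : ∀ e ∈ W, ∑ b, s e b • q J (p b J) = e)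
    (w0 : ∀ k, 0 < w k) (w1 : ∀ k, j ≤ k → k < J → 2 * a k * w k ≤ w (k + 1) ∧
      4 * lam k * w (k + 1) ≤ w k ∧ 100 * (1 + C * C') * (a k * η k) ≤ 1)
    (u1 : u J = f J) (u2 : ∀ k, j ≤ k → k < J → u k = T k (u (k + 1)) + f k)
    (f1 : ∀ k, j ≤ k → k ≤ J → P k (f k) (w k) ∧ ‖q k (f k)‖ ≤ w k) :
    ∃ c : β → 𝕜, ∑ b, ‖c b‖ ≤ 3 * C * w J ∧ ∀ k, j ≤ k → k ≤ J →
      P k (u k - ∑ b, c b • p b k) (4 * (1 + C * C') * w k) ∧
        ‖q k (u k - ∑ b, c b • p b k)‖ ≤ 2 * w k := by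
  have ap : ∀ b, q j (p b j) ∈ W := fun b => by
    obtain ⟨y, hy⟩ := h.adm (u := p b) (f := 0) ⟨_, p1 b⟩
      (fun k h1 h2 => by simpa using hp b k h1 h2) (fun k _ _ => ⟨_, h.zero k⟩) j le_rfl hj
    exact h.mem _ _ _ hy
  have au : q j (u j) ∈ W := by
    obtain ⟨y, hy⟩ := h.adm (u := u) (f := f) ⟨_, u1 ▸ (f1 J hj le_rfl).1⟩ u2
      (fun k h1 h2 => ⟨_, (f1 k h1 h2.le).1⟩) j le_rfl hj
    exact h.mem _ _ _ hy
  let L : W →ₗ[𝕜] W := ((Fintype.linearCombination 𝕜 fun b => q j (p b j)) ∘ₗ s ∘ₗ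
    W.subtype).codRestrict W fun e => by
      simp only [LinearMap.comp_apply, Fintype.linearCombination_apply]
      exact W.sum_mem fun b _ => W.smul_mem _ (ap b)
  have hL : ∀ e : W, (L e : E) = ∑ b, s e b • q j (p b j) := fun e => by
    simp [L, Fintype.linearCombination_apply]
  have inj : Function.Injective L := by
    rw [injective_iff_map_eq_zero]
    intro e he
    have he' : ∑ b, s e b • q j (p b j) = q j 0 := by rw [← hL, he, h.q0]; rfl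
    have key : ∀ ε : ℝ, 0 < ε → ‖(e : E)‖ ≤ 3 * (ε * w J) := fun ε hε => by
      have := (h.est2 (u := fun _ => 0) (f := fun _ => 0) (w := fun k => ε * w k) hj hp p1 C0 C1
        (s e) (by rw [s2 e e.2]; exact s1 e) (fun k => mul_pos hε (w0 k))
        (fun k h1 h2 => ⟨by nlinarith [(w1 k h1 h2).1], by nlinarith [(w1 k h1 h2).2.1],
          (w1 k h1 h2).2.2⟩) rfl (fun k h1 h2 => by rw [h.T0 h1 h2, add_zero])
        (fun k _ _ => ⟨h.mono _ _ _ _ (h.zero k) (mul_pos hε (w0 k)).le, by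
          rw [h.q0, norm_zero]; exact (mul_pos hε (w0 k)).le⟩) he').1
      rwa [s2 e e.2] at this
    have : ‖(e : E)‖ ≤ 0 := le_of_forall_pos_le_add fun δ hδ => by
      have := key (δ / (3 * w J)) (by have := w0 J; positivity)
      have e2 : 3 * (δ / (3 * w J) * w J) = δ := by have := (w0 J).ne'; field_simp
      linarith
    exact Subtype.ext (norm_le_zero_iff.1 this)
  obtain ⟨e, he⟩ := LinearMap.injective_iff_surjective.1 inj ⟨_, au⟩
  have r := h.est2 hj hp p1 C0 C1 (s e) (by rw [s2 e e.2]; exact s1 e) w0 w1 u1 u2 f1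
    (by rw [← hL, he])
  refine ⟨s e, ?_, r.2⟩
  have r1 := r.1
  rw [s2 e e.2] at r1
  have := (s1 e).trans (mul_le_mul_of_nonneg_left r1 C0)
  linarith

/-- the cone: homogeneous orbits which start in the cone follow `A` -/
theorem Co.cone (h : Co j J P q T A W a lam η) {M : ℝ} (M1 : 1 ≤ M)
    (w1 : ∀ k, j ≤ k → k < J → 4 * (a k * lam k) ≤ 1 ∧ 200 * M * (a k * η k) ≤ 1)
    (u2 : ∀ k, j ≤ k → k < J → u k = T k (u (k + 1))) (u0 : q J (u J) ≠ 0)
    (u1 : P J (u J) (M * ‖q J (u J)‖)) : ∀ k, j ≤ k → k ≤ J → q k (u k) ≠ 0 ∧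
      P k (u k) (M * ‖q k (u k)‖) ∧ (k < J → 0.99 * ‖q (k + 1) (u (k + 1))‖ ≤ a k * ‖q k (u k)‖ ∧
        ‖q k (u k) - A k (q (k + 1) (u (k + 1)))‖ ≤ 2 * M * η k * ‖q (k + 1) (u (k + 1))‖) := by
  have st : ∀ k, j ≤ k → k < J → q (k + 1) (u (k + 1)) ≠ 0 →
      P (k + 1) (u (k + 1)) (M * ‖q (k + 1) (u (k + 1))‖) →
      (q k (u k) ≠ 0 ∧ P k (u k) (M * ‖q k (u k)‖)) ∧
        0.99 * ‖q (k + 1) (u (k + 1))‖ ≤ a k * ‖q k (u k)‖ ∧
        ‖q k (u k) - A k (q (k + 1) (u (k + 1)))‖ ≤ 2 * M * η k * ‖q (k + 1) (u (k + 1))‖ := by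
    intro k h1 h2 n0 hp
    have x0 : 0 < ‖q (k + 1) (u (k + 1))‖ := norm_pos_iff.2 n0
    have s := h.step k _ _ _ h1 h2 hp le_rfl (by positivity)
    rw [← u2 k h1 h2] at s
    have i1 := h.inv k (q (k + 1) (u (k + 1))) h1 h2
    obtain ⟨a0, l0, e0⟩ := h.nl k
    obtain ⟨c1, c2⟩ := w1 k h1 h2
    generalize ‖q (k + 1) (u (k + 1))‖ = x at *
    have mx : x + M * x ≤ 2 * M * x := by nlinarith
    have b1 : ‖q k (u k) - A k (q (k + 1) (u (k + 1)))‖ ≤ 2 * M * η k * x :=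
      s.2.trans ((mul_le_mul_of_nonneg_left mx e0).trans_eq (by ring))
    have b2 : ‖A k (q (k + 1) (u (k + 1)))‖ ≤ ‖q k (u k)‖ + 2 * M * η k * x := by
      have := norm_sub_le (q k (u k)) (q k (u k) - A k (q (k + 1) (u (k + 1))))
      rw [sub_sub_cancel] at this
      linarith
    have b3 := i1.trans (mul_le_mul_of_nonneg_left b2 a0)
    have b4 := mul_le_mul_of_nonneg_right c2 x0.le
    have b5 : 0.99 * x ≤ a k * ‖q k (u k)‖ := by nlinarith
    refine ⟨⟨fun z => ?_, h.mono _ _ _ _ s.1 ?_⟩, b5, b1⟩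
    · rw [z, norm_zero, mul_zero] at b5
      linarith
    · have d1 := mul_le_mul_of_nonneg_left mx l0
      have d2 := mul_le_mul_of_nonneg_left b5 (show 0 ≤ 4 * lam k * M by positivity)
      have d3 := mul_le_mul_of_nonneg_right c1
        (show 0 ≤ M * ‖q k (u k)‖ by positivity)
      have d4 : 0 ≤ lam k * M * x := by positivity
      nlinarith
  have hq := down (j := j) (J := J) (Q := fun k => q k (u k) ≠ 0 ∧ P k (u k) (M * ‖q k (u k)‖))
    ⟨u0, u1⟩ fun k h1 h2 hk => (st k h1 h2 hk.1 hk.2).1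
  intro k h1 h2
  refine ⟨(hq k h1 h2).1, (hq k h1 h2).2, fun h3 => ?_⟩
  exact (st k h1 h3 (hq (k + 1) (by omega) h3).1 (hq (k + 1) (by omega) h3).2).2

end Pool.Agent.Lib.MP_7f377f_mp.Cok
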