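import Pool.Agent.Lib.MP_7f377f_mp.StO

/-! Generators of the group, the odd family, letters of a given type, real letters. -/

noncomputable section

namespace Pool.Agent.Lib.MP_7f377f_mp.RG.Wd

open Finset Equiv

/-! ### The group -/

/-- the permutation of the axes -/
def ax (g : B4) : Perm (Fin 4) :=
  ⟨fun i => (g.1 (i, true)).1, fun i => (g⁻¹.1 (i, true)).1,
    fun i => (g_ax g⁻¹ (a := (_, true)) (b := g.1 (i, true)) rfl).trans (by simp),
    fun i => (g_ax g (a := (_, true)) (b := g⁻¹.1 (i, true)) rfl).trans (by simp)⟩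

theorem ax_apply (g : B4) (d : Dr) : ax g d.1 = (g.1 d).1 := g_ax g rfl

theorem ax_mul (g h : B4) (i : Fin 4) : ax (g * h) i = ax g (ax h i) := (ax_apply g _).symm

theorem ax_pe (σ : Perm (Fin 4)) (i : Fin 4) : ax (pe σ) i = σ i := rfl

theorem ax_rf (j i : Fin 4) : ax (rf j) i = i := rf_mem j i i (.inr rfl)

theorem B4_ext {g h : B4} (e : ∀ i, g.1 (i, true) = h.1 (i, true)) : g = h :=
  Subtype.ext <| Equiv.ext fun ⟨i, b⟩ => by
    cases b
    · exact (g_fl g (i, true)).trans ((congrArg fl (e i)).trans (g_fl h (i, true)).symm)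
    · exact e i

/-- the group is generated by the permutations and the reflections -/
theorem B4_ind {P : B4 → Prop} (h1 : ∀ σ, P (pe σ)) (h2 : ∀ i, P (rf i))
    (hm : ∀ g h, P g → P h → P (g * h)) (g : B4) : P g := by
  obtain ⟨r, hr⟩ : ∃ r : Fin 4 → B4, ∀ i, r i = if (g.1 (i, true)).2 then pe 1 else rf i :=
    ⟨_, fun _ => rfl⟩
  have p : ∀ i, P (r i) := fun i => by rw [hr]; split_ifs; exacts [h1 _, h2 _]
  have a : ∀ i d, (r i).1 d = if d.1 = i ∧ (g.1 (i, true)).2 = false then fl d else d := fun i d => by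
    rw [hr]
    cases (g.1 (i, true)).2 <;> simp [rf_apply, pe]
  have : g = pe (ax g) * (r 0 * r 1 * (r 2 * r 3)) := B4_ext fun i => by
    have : (r 0 * r 1 * (r 2 * r 3)).1 (i, true) = (i, (g.1 (i, true)).2) := by
      change (r 0).1 ((r 1).1 ((r 2).1 ((r 3).1 _))) = _
      simp only [a]
      fin_cases i <;> simp <;> split_ifs with k <;> simp_all [fl]
    change _ = (pe _).1 ((r 0 * r 1 * (r 2 * r 3)).1 _)
    rw [this]
    rfl
  rw [this]
  exact hm _ _ (h1 _) (hm _ _ (hm _ _ (p 0) (p 1)) (hm _ _ (p 2) (p 3)))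

/-- the inversion -/
def nI : B4 := ⟨flE, mem_B4 fun _ => rfl⟩

theorem nI_apply (d : Dr) : nI.1 d = fl d := rfl

theorem nI_mem (m : Fin 4) : nI ∈ KK m := fun _ _ => rfl

theorem sg_nI (i : Fin 4) : sg i nI = -1 := by simp [sg, nI_apply, cd, fl, un]

theorem ch_nI (i : Fin 4) : ch i nI = 1 := by simp [ch, sg_nI]

theorem nI_nI : nI * nI = 1 := B4_ext fun _ => rfl

theorem nI_comm (g : B4) : g * nI = nI * g := B4_ext fun _ => g_fl g _

theorem nI_eq : nI = rf 0 * rf 1 * rf 2 * rf 3 := B4_ext (by decide)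

theorem gv_nI {R : Type} [Neg R] (x : Fin 4 → R) : gv nI x = -x := rfl

theorem nI_A (a b : Fin 4) : pb Neg.neg nI (A1 a b) = A1 a b := by
  have := pb_pA nI (a, true) (b, true)
  refine Eq.trans (congrArg _ (funext fun l => ?_)) this
  simp only [A1, pA, nI_apply, cd_fl]
  push_cast
  ring

theorem nI_B (a b c : Fin 4) : pb Neg.neg nI (B1 a b c) = -B1 a b c := by
  have := pb_pB nI (a, false) (b, false) (c, false)
  refine this.trans (funext fun l => ?_)
  simp only [B1, pB, cd, Pi.neg_apply, Bool.false_eq_true, if_false, if_true]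
  push_cast
  ring

theorem avg_act {H : Subgroup B4} {χ : B4 → ℂ} (hχ : ∀ g ∈ H, ∀ h ∈ H, χ (g * h) = χ g * χ h)
    {g : B4} (hg : g ∈ H) (X : Let) : avg H χ (χ g • act g X) = avg H χ X := by
  classical
  rw [avg_apply, avg_apply]
  congr 1
  refine Fintype.sum_equiv (Equiv.mulRight ⟨g, hg⟩) _ _ fun h => ?_
  simp [hχ h h.2 g hg, act_mul, mul_smul]

theorem sig_avg {H : Subgroup B4} {χ : B4 → ℂ} {X : Let} (h : sig X = 0) : sig (avg H χ X) = 0 := by
  ext a b
  simp [avg_apply, sig_act, h]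

/-! ### The odd family -/

/-- the odd part -/
def od : Let →ₗ[ℂ] Let := (2⁻¹ : ℂ) • (LinearMap.id - act nI)

/-- odd letters -/
def Od (X : Let) : Prop := act nI X = -X

theorem od_apply (X : Let) : od X = (2⁻¹ : ℂ) • (X - act nI X) := rfl

theorem od_od (X : Let) : Od (od X) := by
  rw [Od, od_apply, map_smul, map_sub, ← act_mul, nI_nI, act_one, ← smul_neg, neg_sub]

theorem Od.act {X : Let} (h : Od X) (g : B4) : Od (act g X) := by
  rw [Od, ← act_mul, ← nI_comm, act_mul, h, map_neg]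

theorem od_of {X : Let} (h : ∀ g ∈ KK 0, sg 0 g • act g X = X) : Od X := by
  simpa [Od, sg_nI, neg_eq_iff_eq_neg] using h _ (nI_mem 0)

theorem Od.sum {ι : Type} {A : Finset ι} {X : ι → Let} (h : ∀ i, Od (X i)) (c : ι → ℂ) :
    Od (∑ i ∈ A, c i • X i) := by
  simp only [Od, map_sum, map_smul, show ∀ i, Wd.act nI (X i) = -X i from h, smul_neg,
    sum_neg_distrib]

theorem Od.e0 {X : Let} (h : Od X) : E0 (sig X) 0 := fun a b c d => by
  have := sig_act nI X (A1 a b) (A1 c d)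
  rw [h, nI_A, nI_A, map_neg] at this
  change -_ = _ at this
  change _ = 0
  linear_combination -this / 2

theorem avg_od (X : Let) : avg (KK 0) (sg 0) (od X) = avg (KK 0) (sg 0) X := by
  have := avg_act sg0_mul (nI_mem 0) X
  rw [sg_nI, neg_one_smul, map_neg] at this
  rw [od_apply, map_smul, map_sub, sub_eq_add_neg, this]
  module

theorem e1_od (X : Let) : E1 (sig (od X)) (sig X) := fun a b c d e => by
  simp only [od_apply, map_smul, map_sub, LinearMap.smul_apply, LinearMap.sub_apply, sig_act, nI_A,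
    nI_B, map_neg, smul_eq_mul]
  ring

/-- the odd family for the vector expansion -/
def PO (i : Fin 3 ⊕ Iv) : Let := od (PF i)

theorem od_PO (i : Fin 3 ⊕ Iv) : Od (PO i) := od_od _

theorem sum_PO (c : Fin 3 ⊕ Iv → ℂ) : ∑ i, c i • PO i = od (∑ i, c i • PF i) := by
  simp only [PO, map_sum, map_smul]

theorem avg_PO (c : Fin 3 ⊕ Iv → ℂ) :
    avg (KK 0) (sg 0) (∑ i, c i • PO i) = ∑ ρ, c (.inl ρ) • dvg (WW ρ) := by
  rw [sum_PO, avg_od, avg_PF]

theorem onto_PO {k : V →ₗ[ℝ] V →ₗ[ℝ] ℂ} (h : Gk k) : ∃ c : Fin 3 ⊕ Iv → ℂ,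
    E1 (sig (∑ i, c i • PO i)) k := (onto_PF h).imp fun c e a b x d f => by
  rw [sum_PO, e1_od _ a b x d f, e.2 a b x d f]

/-! ### The averaged equation of motion -/

theorem dvg_ro (g : B4) (Y : Fin 4 → Let) : sg 0 g • act g (dvg Y) = dvg (ro g Y) := by
  rw [dvg_eq, dvg_eq, map_smul, smul_comm, map_sum, smul_sum]
  congr 1
  refine Fintype.sum_equiv g.1 _ _ fun d => ?_
  rw [act_tr, gv_dv, ← map_smul, ← cd_ro]

/-- the divergence as a linear map -/
def dvL : (Fin 4 → Let) →ₗ[ℂ] Let :=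
  (2⁻¹ : ℂ) • ∑ m, (tr (un m) - tr (-un m)) ∘ₗ LinearMap.proj m

theorem dvL_apply (Y : Fin 4 → Let) : dvL Y = dvg Y := by simp [dvL, dvg]

theorem avg_dvg (Y : Fin 4 → Let) : avg (KK 0) (sg 0) (dvg Y) = dvg (cov Y) := by
  simp only [avg_apply, cov_apply, dvg_ro]
  simp only [← dvL_apply, map_smul, map_sum]

/-- the second difference -/
def lap (m : Fin 4) : Let →ₗ[ℂ] Let := tr (un m) + tr (-un m) - (2 : ℂ) • LinearMap.id

theorem lap_apply (m : Fin 4) (X : Let) : lap m X = tr (un m) X + tr (-un m) X - (2 : ℂ) • X := rfl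

theorem act_lap (g : B4) (m : Fin 4) (X : Let) : act g (lap m X) = lap (ax g m) (act g X) := by
  have a := gv_dv g (m, true)
  have b := gv_dv g (m, false)
  rw [show (m, false) = fl (m, true) from rfl, g_fl, dv_fl, dv_fl] at b
  simp only [lap_apply, map_sub, map_add, map_smul, act_tr]
  change tr (gv g (dv (m, true))) _ + tr (gv g (-dv (m, true))) _ - _ = _
  rw [a, b, show ax g m = (g.1 (m, true)).1 from rfl, dv]
  split_ifs
  · rfl
  · rw [neg_neg, add_comm]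

/-- the averaged variation of the action -/
def jA : Let := avg (KK 0) (sg 0) jL

/-- the averaged cubic rest -/
def rA : Let := avg (KK 0) (sg 0) rL

/-- the letters of the second differences -/
def lA (m : Fin 4) : Let := open Classical in
  ((Nat.card (KK 0) : ℂ)⁻¹ / 2) • ∑ g : KK 0, sg 0 g • act g (thL ((ax g).symm m))

theorem jL_eq : jL = dvg thL - (2⁻¹ : ℂ) • ∑ r, lap r (thL r) + rL := by
  simp only [rL, dvg, lap_apply, Fin.sum_univ_four]
  module

theorem jA_eq : jA = dvg OT - ∑ m, lap m (lA m) + rA := by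
  classical
  rw [jA, jL_eq, map_add, map_sub, avg_dvg, map_smul, avg_apply]
  refine congrArg₂ _ (congrArg _ ?_) rfl
  simp only [lA, map_smul, map_sum, act_lap]
  rw [← smul_sum]
  rw [sum_comm (s := univ) (t := univ), ← mul_smul, mul_comm, ← div_eq_mul_inv]
  refine congrArg _ (sum_congr rfl fun g _ => ?_)
  rw [← smul_sum, ← Equiv.sum_comp (ax g) fun m => lap m (act g (thL ((ax g).symm m)))]
  simp

theorem sig_rA : sig rA = 0 := sig_avg sig_rL

theorem rA_inv : ∀ g ∈ KK 0, sg 0 g • act g rA = rA := fun _ h => act_avg sg0_mul h _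

theorem od_rA : Od rA := od_of rA_inv

/-! ### Types -/

theorem OT_inv : ∀ g ∈ KK 0, act g (OT 0) = OT 0 := fun g h => by
  have := (cov_cov thL).inv 0 g h
  rwa [ch, sg_sq (h 0 (.inl rfl)), one_smul] at this

/-- the diagonal components -/
def DG (l : Fin 4) : Let := act (pe (swap 0 l)) (OT 0)

theorem act_OT (g : B4) : act g (OT 0) = DG (ax g 0) := by
  have : (pe (swap 0 (ax g 0)))⁻¹ * g ∈ KK 0 := fun i e => by
    rw [e.elim id id]
    change (swap 0 (ax g 0)).symm (ax g 0) = 0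
    simp
  conv_rhs => rw [DG, ← OT_inv _ this, ← act_mul, mul_inv_cancel_left]

theorem act_DG (g : B4) (l : Fin 4) : act g (DG l) = DG (ax g l) := by
  rw [DG, ← act_mul, act_OT, ax_mul, ax_pe, swap_apply_left]

theorem DG_zero : DG 0 = OT 0 := OT_inv _ (pe_mem (by simp) (by simp))

/-- the trace -/
def V1 : Let := (4⁻¹ : ℂ) • ∑ l, DG l

/-- a traceless diagonal component -/
def V3 : Let := DG 0 - DG 1

/-- an off diagonal component -/
def V6 : Let := OT 1

theorem act_V1 (g : B4) : act g V1 = V1 := by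
  simp only [V1, map_smul, map_sum, act_DG, Equiv.sum_comp (ax g) DG]

theorem act_V3 (g : B4) : act g V3 = DG (ax g 0) - DG (ax g 1) := by
  simp only [V3, map_sub, act_DG]

theorem rf_V3 (i : Fin 4) : act (rf i) V3 = V3 := by rw [act_V3, ax_rf, ax_rf, V3]

theorem s01_V3 : act (pe (swap 0 1)) V3 = -V3 := by rw [act_V3, V3, neg_sub]; rfl

theorem s23_V3 : act (pe (swap 2 3)) V3 = V3 := by rw [act_V3]; rfl

theorem V6_inv : ∀ g ∈ KK 1, ch 1 g • act g V6 = V6 := (cov_cov thL).inv 1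

theorem rf_V6 (i : Fin 4) : act (rf i) V6 = ch 1 (rf i) • V6 := by
  have := V6_inv _ (rf_mem i 1)
  have e : ch 1 (rf i) * ch 1 (rf i) = 1 := by simp only [ch, sg_rf]; split_ifs <;> simp
  rw [← one_smul ℂ (act _ _), ← e, mul_smul, this]

theorem s23_V6 : act (pe (swap 2 3)) V6 = V6 := by
  have := V6_inv _ (pe_mem (σ := swap 2 3) rfl rfl)
  rwa [ch, sg_pe rfl, sg_pe rfl, one_mul, one_smul] at this

theorem OT_zero : OT 0 = V1 + (4⁻¹ : ℂ) • ∑ l ∈ univ.erase 0, act (pe (swap 1 l)) V3 := by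
  have e : ∀ l ∈ univ.erase (0 : Fin 4), act (pe (swap 1 l)) V3 = DG 0 - DG l := fun l h => by
    rw [act_V3, ax_pe, ax_pe, swap_apply_left, swap_apply_of_ne_of_ne (by decide)
      (ne_of_mem_erase h).symm]
  rw [sum_congr rfl e, V1, ← add_sum_erase _ _ (mem_univ 0), sum_sub_distrib, sum_const, DG_zero]
  norm_num
  module

theorem OT_ne {l : Fin 4} (h : l ≠ 0) : OT l = act (pe (swap 1 l)) V6 := by
  have a : swap 1 l 0 = 0 := swap_apply_of_ne_of_ne (by decide) h.symm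
  have := cd_ro (pe (swap 1 l)) OT (1, true)
  rwa [OT, cov_cov _ _ (pe_mem a a), sg_pe a, one_smul, pe_apply, swap_apply_left] at this

theorem sig_pe (σ : Perm (Fin 4)) (X : Let) (a b c d : Fin 4) :
    sig (act (pe σ) X) (A1 a b) (A1 c d) =
      sig X (A1 (σ.symm a) (σ.symm b)) (A1 (σ.symm c) (σ.symm d)) := by
  simp [sig_act, ← pe_A σ (σ.symm _)]

theorem sig_V1 : E0 (sig V1) 0 := inv_sca (m := 0) (fun g h => by
    rw [act_V1, ch, sg_sq (h 0 (.inl rfl)), one_smul]) (fun _ => by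
  constructor <;>
    simp [V1, DG, sig_pe, sig_OT, tau, ip_de, de, Fin.sum_univ_four, swap_apply_def])
  fun h => (h rfl).elim

theorem sig_V3' : sig V3 (A1 0 2) (A1 0 2) = -2 := by
  simp [V3, DG, sig_pe, sig_OT, tau, ip_de, de, swap_apply_def]
  norm_num

theorem sig_V6 : sig V6 (A1 0 2) (A1 1 2) = -1 := by simp [V6, sig_OT, tau, ip_de, de]

/-! ### Real letters -/

/-- real letters -/
def Rl : Submodule ℝ Let where
  carrier := {X | ∀ b, (X b).im = 0}
  add_mem' a b c := by simp [a c, b c]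
  zero_mem' _ := rfl
  smul_mem' c X a b := by simp [a b]

section real
variable {X : Let} {Y : Fin 4 → Let}

theorem rl_smul {c : ℂ} (h : c.im = 0) (hX : X ∈ Rl) : c • X ∈ Rl := fun b => by simp [h, hX b]

theorem rl_map (f : Bl → Bl) (hX : X ∈ Rl) : X.mapDomain f ∈ Rl :=
  Rl.sum_mem fun a _ b => by classical rw [Finsupp.single_apply]; split_ifs; exacts [hX a, rfl]

theorem rl_act (g : B4) (hX : X ∈ Rl) : act g X ∈ Rl := rl_map _ hX

theorem rl_tr (v : St) (hX : X ∈ Rl) : tr v X ∈ Rl := rl_map _ hX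

theorem rl_lt (k : Bool) (s : St) (w w' : Lp) : lt k s w w' ∈ Rl := fun b => by
  classical rw [lt, Finsupp.single_apply]; split_ifs <;> rfl

theorem im_sg (i : Fin 4) (g : B4) : (sg i g).im = 0 := Complex.intCast_im _

theorem rl_avg {H : Subgroup B4} {χ : B4 → ℂ} (h : ∀ g, (χ g).im = 0) (hX : X ∈ Rl) :
    avg H χ X ∈ Rl := avg_apply H χ X ▸
  rl_smul (by simp) (Rl.sum_mem fun g _ => rl_smul (h g) (rl_act _ hX))

theorem rl_cov (h : ∀ m, Y m ∈ Rl) (m : Fin 4) : cov Y m ∈ Rl := by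
  rw [cov_apply, Pi.smul_apply, Finset.sum_apply]
  refine rl_smul (by simp) (Rl.sum_mem fun g _ => rl_smul (im_sg _ _) (rl_act _ ?_))
  unfold gv cd
  split_ifs
  exacts [h _, Rl.neg_mem (h _)]

theorem rl_dvg (h : ∀ m, Y m ∈ Rl) : dvg Y ∈ Rl :=
  rl_smul (by simp) (Rl.sum_mem fun m _ => Rl.sub_mem (rl_tr _ (h m)) (rl_tr _ (h m)))

theorem rl_phS : phS ∈ Rl :=
  rl_smul (by simp) (Rl.sum_mem fun _ _ => Rl.sum_mem fun _ _ => rl_lt _ _ _ _)

theorem rl_thL (r : Fin 4) : thL r ∈ Rl := Rl.add_mem (Rl.sum_mem fun _ _ => rl_lt _ _ _ _) (by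
  split_ifs
  exacts [rl_smul (by simp) (Rl.sum_mem fun _ _ => Rl.sum_mem fun _ _ => rl_lt _ _ _ _), Rl.zero_mem])

theorem rl_rA : rA ∈ Rl := rl_avg (im_sg 0) (Rl.sub_mem (Rl.sum_mem fun _ _ => Rl.sum_mem
  fun _ _ => rl_lt _ _ _ _) (Rl.sum_mem fun r _ => Rl.sub_mem (rl_thL r) (rl_tr _ (rl_thL r))))

theorem rl_OT (m : Fin 4) : OT m ∈ Rl := rl_cov rl_thL m

theorem rl_lA (m : Fin 4) : lA m ∈ Rl :=
  rl_smul (by simp) (Rl.sum_mem fun _ _ => rl_smul (im_sg _ _) (rl_act _ (rl_thL _)))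

theorem rl_WW (ρ : Fin 3) (m : Fin 4) : WW ρ m ∈ Rl := by
  have e : ∀ X ∈ Rl, Pi.single (M := fun _ : Fin 4 => Let) 0 X m ∈ Rl := fun X h => by
    rw [Pi.single_apply]; split_ifs; exacts [h, Rl.zero_mem]
  fin_cases ρ
  exacts [e _ rl_phS, e _ (rl_OT 0), Rl.sub_mem (rl_OT m) (e _ (rl_OT 0))]

theorem rl_Vg : ∀ i, Vg i ∈ Rl
  | .inl _ => rl_lt _ _ _ _
  | .inr _ => Rl.sub_mem (rl_lt _ _ _ _) (rl_lt _ _ _ _)

theorem rl_PF : ∀ i, PF i ∈ Rl
  | .inl ρ => rl_dvg (rl_WW ρ)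
  | .inr i => Rl.sub_mem (rl_Vg i) (rl_avg (im_sg 0) (rl_Vg i))

theorem rl_PO (i : Fin 3 ⊕ Iv) : PO i ∈ Rl :=
  rl_smul (by simp) (Rl.sub_mem (rl_PF i) (rl_act _ (rl_PF i)))

theorem rl_OF (m : Fin 4) : ∀ i, OF m i ∈ Rl
  | .inl ρ => rl_WW ρ m
  | .inr i => Rl.sub_mem (rl_Vg i) (rl_avg (fun _ => by simp [ch, im_sg]) (rl_Vg i))

theorem rl_V1 : V1 ∈ Rl := rl_smul (by simp) (Rl.sum_mem fun _ _ => rl_act _ (rl_OT 0))

theorem rl_V3 : V3 ∈ Rl := Rl.sub_mem (rl_act _ (rl_OT 0)) (rl_act _ (rl_OT 0))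

theorem rl_V6 : V6 ∈ Rl := rl_OT 1

end real

end Pool.Agent.Lib.MP_7f377f_mp.RG.Wd
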