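import Pool.Agent.Lib.MP_7f377f_mp.RGAp0

/-! Words in signed directions, the hyperoctahedral group, formal letters and their symbols. -/

noncomputable section

namespace Pool.Agent.Lib.MP_7f377f_mp.RG.Wd

open Finset

/-- signed directions -/
abbrev Dr := Fin 4 × Bool

def fl (d : Dr) : Dr := (d.1, !d.2)

def dv (d : Dr) : St := if d.2 then un d.1 else -un d.1

/-- component of a vector along a signed direction -/
def cd {R : Type} [Neg R] (x : Fin 4 → R) (d : Dr) : R := if d.2 then x d.1 else -x d.1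

/-- one step from `x` -/
def stp {α : Type} (iv : α → α) (U : Lk → α) (x : St) (d : Dr) : α :=
  if d.2 then U (x, d.1) else iv (U (x - un d.1, d.1))

/-- transport along a word -/
def wh {α : Type} [Monoid α] (iv : α → α) (U : Lk → α) : St → List Dr → α
  | _, [] => 1
  | x, d :: w => stp iv U x d * wh iv U (x + dv d) w

/-- line sum along a word -/
def fx {W : Type} [AddCommGroup W] (a : Lk → W) : St → List Dr → W
  | _, [] => 0
  | x, d :: w => stp Neg.neg a x d + fx a (x + dv d) w

def ed (w : List Dr) : St := (w.map dv).sum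

/-- closed words -/
abbrev Lp := {w : List Dr // ed w = 0}

@[simp] theorem fl_fl (d : Dr) : fl (fl d) = d := by simp [fl]

theorem fl_ne (d : Dr) : fl d ≠ d := by simp [fl, Prod.ext_iff]

@[simp] theorem dv_fl (d : Dr) : dv (fl d) = -dv d := by
  obtain ⟨i, b⟩ := d
  cases b <;> simp [dv, fl]

@[simp] theorem cd_fl {R : Type} [InvolutiveNeg R] (x : Fin 4 → R) (d : Dr) :
    cd x (fl d) = -cd x d := by
  obtain ⟨i, b⟩ := d
  cases b <;> simp [cd, fl]

theorem cd_add {R : Type} [AddCommGroup R] (x y : Fin 4 → R) (d : Dr) :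
    cd (x + y) d = cd x d + cd y d := by
  unfold cd
  split_ifs <;> simp [add_comm]

theorem cd_dv (d e : Dr) : cd (dv d) e = if e = d then 1 else if e = fl d then -1 else 0 := by
  revert d e
  decide

@[simp] theorem ed_nil : ed [] = 0 := rfl

@[simp] theorem ed_cons (d : Dr) (w : List Dr) : ed (d :: w) = dv d + ed w := by simp [ed]

@[simp] theorem ed_append (w w' : List Dr) : ed (w ++ w') = ed w + ed w' := by simp [ed]

theorem stp_fl {α : Type} {iv : α → α} (h : ∀ a, iv (iv a) = a) (U : Lk → α) (x : St) (d : Dr) :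
    stp iv U (x + dv d) (fl d) = iv (stp iv U x d) := by
  obtain ⟨i, b⟩ := d
  cases b <;> simp [stp, dv, fl, h, sub_eq_add_neg]

theorem stp_sh {α : Type} (iv : α → α) (U : Lk → α) (v x : St) (d : Dr) :
    stp iv (sh v U) x d = stp iv U (x + v) d := by
  simp only [stp, sh, sub_add_eq_add_sub]

theorem wh_sh {α : Type} [Monoid α] (iv : α → α) (U : Lk → α) (v : St) (w : List Dr) :
    ∀ x, wh iv (sh v U) x w = wh iv U (x + v) w := by
  induction w with
  | nil => exact fun _ => rfl
  | cons d w ih => exact fun x => by rw [wh, wh, stp_sh, ih, add_right_comm]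

theorem wh_append {α : Type} [Monoid α] (iv : α → α) (U : Lk → α) (w w' : List Dr) :
    ∀ x, wh iv U x (w ++ w') = wh iv U x w * wh iv U (x + ed w) w' := by
  induction w with
  | nil => exact fun _ => by simp [wh]
  | cons d w ih => exact fun x => by simp only [List.cons_append, wh, ih, ed_cons, mul_assoc, add_assoc]

theorem wh_map {α β : Type} [Monoid α] [Monoid β] {iv : α → α} {iv' : β → β} (φ : α →* β)
    (h : ∀ a, φ (iv a) = iv' (φ a)) (U : Lk → α) (w : List Dr) :
    ∀ x, wh iv' (fun e => φ (U e)) x w = φ (wh iv U x w) := by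
  induction w with
  | nil => exact fun _ => by simp [wh]
  | cons d w ih =>
    intro x
    rw [wh, wh, ih, map_mul]
    congr 1
    unfold stp
    split_ifs <;> simp [h]

theorem dv_box (d : Dr) : dv d ∈ box 1 := by
  revert d
  simp only [mem_box]
  decide

theorem stp_agr {α : Type} (iv : α → α) {U U' : Lk → α} {R : ℕ} (h : ∀ e ∈ lbox (R + 1), U e = U' e)
    {x : St} (hx : x ∈ box R) (d : Dr) : stp iv U x d = stp iv U' x d := by
  have := add_mem_box hx (dv_box (d.1, false))
  simp only [stp, h (x, d.1) (mem_lbox.2 (box_mono (by omega) hx)),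
    h (x - un d.1, d.1) (mem_lbox.2 (by simpa [dv, sub_eq_add_neg] using this))]

theorem wh_agr {α : Type} [Monoid α] (iv : α → α) {U U' : Lk → α} {R : ℕ}
    (h : ∀ e ∈ lbox R, U e = U' e) (w : List Dr) :
    ∀ r, ∀ x ∈ box r, r + w.length ≤ R → wh iv U x w = wh iv U' x w := by
  induction w with
  | nil => exact fun _ _ _ _ => rfl
  | cons d w ih =>
    intro r x hx h1
    rw [List.length_cons] at h1
    rw [wh, wh, ih (r + 1) _ (add_mem_box hx (dv_box d)) (by omega),
      stp_agr iv (fun e he => h e (lbox_mono (by omega) he)) hx]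

section flux
variable {W W' : Type} [AddCommGroup W] [AddCommGroup W']

theorem fx_sh (a : Lk → W) (v : St) (w : List Dr) : ∀ x, fx (sh v a) x w = fx a (x + v) w := by
  induction w with
  | nil => exact fun _ => rfl
  | cons d w ih => exact fun x => by rw [fx, fx, stp_sh, ih, add_right_comm x]

theorem fx_map (φ : W →+ W') (a : Lk → W) (w : List Dr) :
    ∀ x, fx (fun e => φ (a e)) x w = φ (fx a x w) := by
  induction w with
  | nil => exact fun _ => by simp [fx]
  | cons d w ih =>
    intro x
    rw [fx, fx, ih, map_add]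
    congr 1
    unfold stp
    split_ifs <;> simp

theorem fx_add (a b : Lk → W) (w : List Dr) : ∀ x, fx (a + b) x w = fx a x w + fx b x w := by
  induction w with
  | nil => exact fun _ => by simp [fx]
  | cons d w ih =>
    intro x
    have : stp Neg.neg (a + b) x d = stp Neg.neg a x d + stp Neg.neg b x d := by
      unfold stp
      split_ifs <;> simp [add_comm]
    rw [fx, fx, fx, ih, this]
    abel

theorem fx_gr (u : St → W) (w : List Dr) : ∀ x, fx (gr u) x w = u (x + ed w) - u x := by
  induction w with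
  | nil => exact fun _ => by simp [fx]
  | cons d w ih =>
    intro x
    have : stp Neg.neg (gr u) x d = u (x + dv d) - u x := by
      unfold stp dv
      split_ifs <;> simp [gr, sub_eq_add_neg]
    rw [fx, ih, this, ed_cons, add_assoc]
    abel

theorem fx_cg (a : Lk → W) (w : Lp) (x : St) : fx (cg a) x w.1 = fx a x w.1 := by
  have := fx_add (cg a) (gr (lam a)) w.1 x
  rw [fx_gr, w.2, add_zero, sub_self, add_zero, cg, sub_add_cancel] at this
  exact this.symm

end flux

/-- the line sum as a linear form -/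
def fxL (x : St) (w : List Dr) : V →ₗ[ℝ] ℝ where
  toFun a := fx a x w
  map_add' a b := fx_add a b w x
  map_smul' c a := fx_map (AddMonoidHom.mulLeft c) a w x

/-! ### The group -/

def flE : Equiv.Perm Dr := ⟨fl, fl, fl_fl, fl_fl⟩

/-- the symmetry group of the hypercube -/
def B4 : Subgroup (Equiv.Perm Dr) := Subgroup.centralizer {flE}

instance : Fintype B4 := Fintype.ofFinite _

theorem g_fl (g : B4) (d : Dr) : g.1 (fl d) = fl (g.1 d) :=
  (congrArg (fun e : Equiv.Perm Dr => e d) (Subgroup.mem_centralizer_iff.1 g.2 flE rfl)).symm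

theorem mem_B4 {g : Equiv.Perm Dr} (h : ∀ d, g (fl d) = fl (g d)) : g ∈ B4 :=
  Subgroup.mem_centralizer_iff.2 fun _ e => e ▸ Equiv.ext fun d => (h d).symm

/-- action on vectors -/
def gv {R : Type} [Neg R] (g : B4) (x : Fin 4 → R) : Fin 4 → R := fun j => cd x (g⁻¹.1 (j, true))

section act
variable {R : Type} [AddCommGroup R] (g h : B4) (x y : Fin 4 → R)

theorem cd_gv (d : Dr) : cd (gv g x) d = cd x (g⁻¹.1 d) := by
  obtain ⟨i, b⟩ := d
  cases b
  · rw [show (i, false) = fl (i, true) from rfl, cd_fl, g_fl, cd_fl]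
    rfl
  · rfl

theorem cd_gv' (d : Dr) : cd (gv g x) (g.1 d) = cd x d := by simp [cd_gv]

theorem gv_mul : gv (g * h) x = gv g (gv h x) := funext fun j => by
  rw [gv, gv, cd_gv, mul_inv_rev]
  rfl

@[simp] theorem gv_one : gv 1 x = x := rfl

@[simp] theorem gv_inv : gv g⁻¹ (gv g x) = x := by rw [← gv_mul, inv_mul_cancel, gv_one]

@[simp] theorem gv_inv' : gv g (gv g⁻¹ x) = x := by rw [← gv_mul, mul_inv_cancel, gv_one]

theorem gv_add : gv g (x + y) = gv g x + gv g y := funext fun _ => cd_add _ _ _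

/-- the action as an additive equivalence -/
def gvE (R : Type) [AddCommGroup R] : (Fin 4 → R) ≃+ (Fin 4 → R) :=
  ⟨⟨gv g, gv g⁻¹, gv_inv g, gv_inv' g⟩, gv_add g⟩

@[simp] theorem gv_zero : gv g (0 : Fin 4 → R) = 0 := (gvE g R).map_zero

theorem gv_neg : gv g (-x) = -gv g x := (gvE g R).map_neg x

theorem gv_sub : gv g (x - y) = gv g x - gv g y := (gvE g R).map_sub x y

theorem gv_map {R' : Type} [AddCommGroup R'] (φ : R →+ R') :
    gv g (fun i => φ (x i)) = fun i => φ (gv g x i) := funext fun j => by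
  simp only [gv, cd]
  split_ifs <;> simp

end act

theorem gv_dv (g : B4) (d : Dr) : gv g (dv d) = dv (g.1 d) := funext fun j => by
  have := cd_dv (g.1 d) (j, true)
  rw [← g_fl] at this
  rw [gv, cd_dv]
  refine Eq.trans ?_ this.symm
  simp only [InvMemClass.coe_inv, Equiv.Perm.inv_eq_iff_eq]

theorem box_iff {r : ℕ} {x : St} : x ∈ box r ↔ ∀ d, cd x d ≤ r := by
  simp only [mem_box, Prod.forall, Bool.forall_bool, cd, neg_le]
  simp

theorem gv_box (g : B4) {r : ℕ} {x : St} (h : x ∈ box r) : gv g x ∈ box r :=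
  box_iff.2 fun d => cd_gv g x d ▸ box_iff.1 h _

theorem sum_gv {M : Type} [AddCommMonoid M] (g : B4) (r : ℕ) (F : St → M) :
    ∑ x ∈ box r, F (gv g x) = ∑ x ∈ box r, F x :=
  sum_nbij' (gv g) (gv g⁻¹) (fun _ => gv_box g) (fun _ => gv_box g⁻¹) (fun _ _ => gv_inv _ _)
    (fun _ _ => gv_inv' _ _) fun _ _ => rfl

theorem ed_map (g : B4) (w : List Dr) : ed (w.map g.1) = gv g (ed w) := by
  induction w with
  | nil => simp
  | cons d w ih => rw [List.map_cons, ed_cons, ed_cons, gv_add, gv_dv, ih]

/-- pull back of configurations -/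
def pb {α : Type} (iv : α → α) (g : B4) (U : Lk → α) : Lk → α :=
  fun e => stp iv U (gv g e.1) (g.1 (e.2, true))

section pull
variable {α : Type} {iv : α → α} (hi : ∀ a, iv (iv a) = a) (g : B4) (U : Lk → α)
include hi

theorem stp_pb (x : St) (d : Dr) : stp iv (pb iv g U) x d = stp iv U (gv g x) (g.1 d) := by
  obtain ⟨i, b⟩ := d
  cases b
  · have := stp_fl hi U (gv g x) (g.1 (i, false))
    rw [← gv_dv, ← gv_add, ← g_fl] at this
    rw [← hi (stp iv U _ _), ← this]
    simp [stp, pb, dv, fl, sub_eq_add_neg]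
  · rfl

theorem pb_mul (h : B4) : pb iv (g * h) U = pb iv h (pb iv g U) := funext fun e => by
  rw [pb, pb, stp_pb hi, gv_mul]
  rfl

theorem wh_pb [Monoid α] (w : List Dr) :
    ∀ x, wh iv (pb iv g U) x w = wh iv U (gv g x) (w.map g.1) := by
  induction w with
  | nil => exact fun _ => rfl
  | cons d w ih => exact fun x => by rw [List.map_cons, wh, wh, stp_pb hi, ih, gv_add, gv_dv]

omit hi in
theorem sh_pb (x : St) : sh x (pb iv g U) = pb iv g (sh (gv g x) U) := funext fun e => by
  rw [pb, stp_sh, ← gv_add]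
  rfl

end pull

theorem fx_pb {W : Type} [AddCommGroup W] (g : B4) (a : Lk → W) (w : List Dr) :
    ∀ x, fx (pb Neg.neg g a) x w = fx a (gv g x) (w.map g.1) := by
  induction w with
  | nil => exact fun _ => rfl
  | cons d w ih => exact fun x => by rw [List.map_cons, fx, fx, stp_pb neg_neg, ih, gv_add, gv_dv]

/-! ### Letters -/

/-- basic letters: kind (`true`: Lie algebra parts), base point, two loops -/
abbrev Bl := Bool × St × Lp × Lp

/-- formal letters -/
abbrev Let := Bl →₀ ℂ

def Lp.act (g : B4) (w : Lp) : Lp := ⟨w.1.map g.1, by rw [ed_map, w.2, gv_zero]⟩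

def Bl.act (g : B4) (b : Bl) : Bl := (b.1, gv g b.2.1, b.2.2.1.act g, b.2.2.2.act g)

/-- action of the group -/
def act (g : B4) : Let →ₗ[ℂ] Let := Finsupp.lmapDomain ℂ ℂ (Bl.act g)

/-- translation -/
def tr (v : St) : Let →ₗ[ℂ] Let := Finsupp.lmapDomain ℂ ℂ fun b : Bl => (b.1, b.2.1 + v, b.2.2)

/-- a basic letter -/
def lt (k : Bool) (s : St) (w w' : Lp) : Let := Finsupp.single (k, s, w, w') 1

/-- the symbol of a basic letter -/
def Bl.sig (b : Bl) : V →ₗ[ℝ] V →ₗ[ℝ] ℂ :=
  ((2⁻¹ : ℝ) • ((LinearMap.mul ℝ ℝ).compl₁₂ (fxL b.2.1 b.2.2.1.1) (fxL b.2.1 b.2.2.2.1) +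
    (LinearMap.mul ℝ ℝ).compl₁₂ (fxL b.2.1 b.2.2.2.1) (fxL b.2.1 b.2.2.1.1))).compr₂
    Complex.ofRealAm.toLinearMap

/-- the symbol -/
def sig : Let →ₗ[ℂ] V →ₗ[ℝ] V →ₗ[ℝ] ℂ := Finsupp.linearCombination ℂ Bl.sig

theorem Bl.sig_apply (b : Bl) (a a' : V) : b.sig a a' = (2⁻¹ * (fx a b.2.1 b.2.2.1.1 *
    fx a' b.2.1 b.2.2.2.1 + fx a b.2.1 b.2.2.2.1 * fx a' b.2.1 b.2.2.1.1) : ℝ) := rfl

theorem sig_single (b : Bl) (c : ℂ) : sig (Finsupp.single b c) = c • b.sig :=
  Finsupp.linearCombination_single ..

theorem act_single (g : B4) (b : Bl) (c : ℂ) :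
    act g (Finsupp.single b c) = Finsupp.single (b.act g) c := Finsupp.mapDomain_single

theorem tr_single (v : St) (b : Bl) (c : ℂ) :
    tr v (Finsupp.single b c) = Finsupp.single (b.1, b.2.1 + v, b.2.2) c := Finsupp.mapDomain_single

theorem sig_lt (k : Bool) (s : St) (w w' : Lp) (a a' : V) : sig (lt k s w w') a a' =
    (2⁻¹ * (fx a s w.1 * fx a' s w'.1 + fx a s w'.1 * fx a' s w.1) : ℝ) := by
  rw [lt, sig_single, one_smul, Bl.sig_apply]

theorem act_lt (g : B4) (k : Bool) (s : St) (w w' : Lp) :
    act g (lt k s w w') = lt k (gv g s) (w.act g) (w'.act g) := act_single ..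

theorem tr_lt (v : St) (k : Bool) (s : St) (w w' : Lp) : tr v (lt k s w w') = lt k (s + v) w w' :=
  tr_single ..

theorem act_mul (g h : B4) (X : Let) : act (g * h) X = act g (act h X) := by
  induction X using Finsupp.induction_linear with
  | zero => simp
  | add X Y a b => simp only [map_add, a, b]
  | single b c => simp only [act_single, Bl.act, Lp.act, gv_mul, List.map_map]; rfl

theorem act_one (X : Let) : act 1 X = X := by
  induction X using Finsupp.induction_linear with
  | zero => simp
  | add X Y a b => simp only [map_add, a, b]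
  | single b c => simp [act_single, Bl.act, Lp.act]

theorem act_tr (g : B4) (v : St) (X : Let) : act g (tr v X) = tr (gv g v) (act g X) := by
  induction X using Finsupp.induction_linear with
  | zero => simp
  | add X Y a b => simp only [map_add, a, b]
  | single b c => simp only [act_single, tr_single, Bl.act, gv_add]

theorem tr_tr (u v : St) (X : Let) : tr u (tr v X) = tr (v + u) X := by
  induction X using Finsupp.induction_linear with
  | zero => simp
  | add X Y a b => simp only [map_add, a, b]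
  | single b c => simp only [tr_single, add_assoc]

theorem tr_zero (X : Let) : tr 0 X = X := by
  induction X using Finsupp.induction_linear with
  | zero => simp
  | add X Y a b => simp only [map_add, a, b]
  | single b c => simp only [tr_single, add_zero]

theorem sig_symm (X : Let) (a a' : V) : sig X a a' = sig X a' a := by
  induction X using Finsupp.induction_linear with
  | zero => simp
  | add X Y h h' => simp only [map_add, LinearMap.add_apply, h, h']
  | single b c =>
    simp only [sig_single, LinearMap.smul_apply, Bl.sig_apply]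
    congr 2
    ring

theorem sig_act (g : B4) (X : Let) (a a' : V) :
    sig (act g X) a a' = sig X (pb Neg.neg g a) (pb Neg.neg g a') := by
  induction X using Finsupp.induction_linear with
  | zero => simp
  | add X Y h h' => simp only [map_add, LinearMap.add_apply, h, h']
  | single b c =>
    simp only [act_single, sig_single, LinearMap.smul_apply, Bl.sig_apply, fx_pb]
    rfl

theorem sig_tr (v : St) (X : Let) (a a' : V) : sig (tr v X) a a' = sig X (sh v a) (sh v a') := by
  induction X using Finsupp.induction_linear with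
  | zero => simp
  | add X Y h h' => simp only [map_add, LinearMap.add_apply, h, h']
  | single b c => simp only [tr_single, sig_single, LinearMap.smul_apply, Bl.sig_apply, fx_sh]

theorem sig_cg (X : Let) (a a' : V) : sig X (cg a) a' = sig X a a' := by
  induction X using Finsupp.induction_linear with
  | zero => simp
  | add X Y h h' => simp only [map_add, LinearMap.add_apply, h, h']
  | single b c => simp only [sig_single, LinearMap.smul_apply, Bl.sig_apply, fx_cg]

/-- the letter lives in the box of radius `R` -/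
def Rad (R : ℕ) (X : Let) : Prop := ∀ b ∈ X.support, ∃ r, b.2.1 ∈ box r ∧
  r + b.2.2.1.1.length ≤ R ∧ r + b.2.2.2.1.length ≤ R

theorem Rad.mono {R R' : ℕ} {X : Let} (h : Rad R X) (e : R ≤ R') : Rad R' X := fun b hb =>
  (h b hb).imp fun _ k => ⟨k.1, k.2.1.trans e, k.2.2.trans e⟩

theorem exists_rad (X : Let) : ∃ R, Rad R X := by
  have : ∀ b : Bl, ∃ R r, b.2.1 ∈ box r ∧ r + b.2.2.1.1.length ≤ R ∧ r + b.2.2.2.1.length ≤ R :=
    fun b => ⟨_, ∑ i, (b.2.1 i).natAbs, mem_box.2 fun i => by
      have := single_le_sum (f := fun i => (b.2.1 i).natAbs) (fun _ _ => Nat.zero_le _) (mem_univ i)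
      omega, le_max_left _ _, le_max_right _ _⟩
  choose R hR using this
  exact ⟨X.support.sup R, fun b hb => (hR b).imp fun _ k =>
    ⟨k.1, k.2.1.trans (le_sup hb), k.2.2.trans (le_sup hb)⟩⟩

/-- average over a subgroup with a character -/
def avg (H : Subgroup B4) (χ : B4 → ℂ) : Let →ₗ[ℂ] Let :=
  open Classical in (Nat.card H : ℂ)⁻¹ • ∑ g : H, χ g • act g

theorem avg_apply (H : Subgroup B4) (χ : B4 → ℂ) (X : Let) :
    avg H χ X = open Classical in (Nat.card H : ℂ)⁻¹ • ∑ g : H, χ g • act g X := by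
  simp [avg]

theorem act_avg {H : Subgroup B4} {χ : B4 → ℂ} (hχ : ∀ g ∈ H, ∀ h ∈ H, χ (g * h) = χ g * χ h)
    {g : B4} (hg : g ∈ H) (X : Let) : χ g • act g (avg H χ X) = avg H χ X := by
  classical
  rw [avg_apply, map_smul, smul_comm, map_sum, smul_sum]
  congr 1
  refine Fintype.sum_equiv (Equiv.mulLeft ⟨g, hg⟩) _ _ fun h => ?_
  simp [hχ g hg h h.2, act_mul, mul_smul]

theorem avg_fix {H : Subgroup B4} {χ : B4 → ℂ} {X : Let} (h : ∀ g ∈ H, χ g • act g X = X) :
    avg H χ X = X := by
  classical
  have : (Nat.card H : ℂ) ≠ 0 := Nat.cast_ne_zero.2 Nat.card_pos.ne'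
  rw [avg_apply, sum_congr rfl fun (g : H) _ => h g g.2, sum_const, card_univ,
    ← Nat.card_eq_fintype_card, ← Nat.cast_smul_eq_nsmul ℂ, inv_smul_smul₀ this]

theorem avg_avg {H : Subgroup B4} {χ : B4 → ℂ} (hχ : ∀ g ∈ H, ∀ h ∈ H, χ (g * h) = χ g * χ h)
    (X : Let) : avg H χ (avg H χ X) = avg H χ X := avg_fix fun _ hg => act_avg hχ hg X

end Pool.Agent.Lib.MP_7f377f_mp.RG.Wd
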