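import Pool.Agent.Lib.MP_7f377f_mp.Lb5

/-! All classes of labels occur in products of scalar fields. -/

noncomputable section

namespace Pool.Agent.Lib.MP_7f377f_mp.Lb

set_option linter.unusedSectionVars false

open Finset Function YG Matrix
open scoped Kronecker

section map

variable {K K' : Type} [Field K] [Field K'] (φ : K →+* K') {a b : Lab K}

theorem an_map : (an : Lab K).map φ = an := by
  ext x y
  simp [an, apply_ite φ, map_ofNat]

theorem hs_map : (hs : Lab K).map φ = hs := by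
  ext x y
  simp [hs, map_ofNat]

theorem ip_map : φ (ip a b) = ip (a.map φ) (b.map φ) := by simp [ip]

theorem smul_map (t : K) : (t • a).map φ = φ t • a.map φ := by
  ext x y
  simp

theorem pa_map : (pa a).map φ = pa (a.map φ) := by
  simp only [pa, sy, Matrix.map_mul, an_map, smul_map, Matrix.map_add _ (map_add φ), transpose_map,
    map_inv₀, map_ofNat]

theorem pc_map (l : Cl) : (pc l a).map φ = pc l (a.map φ) := by
  cases l <;> simp only [pc, Matrix.map_mul, an_map, hs_map, smul_map, Matrix.map_add _ (map_add φ),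
    Matrix.map_sub _ (map_sub φ), map_inv₀, map_ofNat, pa_map, map_div₀, ip_map]

end map

/-- rational propagators -/
def mq (v : Fin 4 → ℚ) : M4 ℚ := of fun i j =>
  ((if i = j then 1 else 0) - 2 * v i * v j / ∑ l, v l ^ 2) / ∑ l, v l ^ 2

/-- the product of matrices -/
def m4 (a b : M4 ℚ) : M4 ℚ := of fun i j => a i 0 * b 0 j + a i 1 * b 1 j + a i 2 * b 2 j + a i 3 * b 3 j

theorem m4_eq (a b : M4 ℚ) : m4 a b = a * b := by
  ext i j
  simp [m4, mul_apply, Fin.sum_univ_four]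

/-- sums over complete chains -/
def nq (f : M4 ℚ → ℚ) : (m : ℕ) → (Fin (m + 1) → Fin 4 → ℚ) → Fin (m + 1) → M4 ℚ → ℚ
  | 0, _, _, g => f g
  | m + 1, y, c, g => ∑ j, nq f m (fun i => y (c.succAbove i)) j (m4 g (mq (y (c.succAbove j) - y c)))

/-- incomplete chains do not contribute -/
def ok (f : M4 ℚ → ℚ) : (m : ℕ) → (Fin (m + 1) → Fin 4 → ℚ) → Fin (m + 1) → M4 ℚ → Bool
  | 0, _, _, _ => true
  | m + 1, y, c, g => (m = 0 ∨ f g = 0) ∧
    ∀ j, ok f m (fun i => y (c.succAbove i)) j (m4 g (mq (y (c.succAbove j) - y c)))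

/-- rational points -/
def qpt (v : Fin 4 → ℚ) : R4 := WithLp.toLp 2 fun l => v l

theorem pr_pt (u v : Fin 4 → ℚ) : (2⁻¹ : ℝ) • pr (qpt u - qpt v) =
    (mq (u - v) ⊗ₖ mq (u - v) * an).map (Rat.castHom ℝ) := by
  have h : ‖qpt u - qpt v‖ ^ 2 = ∑ l, ((u l : ℝ) - v l) ^ 2 := by
    simp [EuclideanSpace.norm_sq_eq, qpt]
  have : ∀ i j, (mq (u - v) i j : ℝ) = (‖qpt u - qpt v‖ ^ 2)⁻¹ * mr (qpt u - qpt v) i j := fun i j => by
    simp only [mr, mirror, of_apply, h]
    simp [mq, qpt, apply_ite (Rat.cast (K := ℝ)), div_eq_inv_mul]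
  rw [pr_eq, Matrix.map_mul, an_map, smul_smul, ← Matrix.smul_mul]
  congr 1
  ext a b
  simp only [Matrix.smul_apply, map_apply, kroneckerMap_apply, Rat.coe_castHom, Rat.cast_mul, this,
    smul_eq_mul]
  ring

theorem chain {w : ℝ} {x : Lab ℚ} (hx : x * an = x) {f : M4 ℚ → ℚ}
    (hf : ∀ g, (x * g ⊗ₖ g).trace = f g) : ∀ m y c g, ok f m y c g →
    lq w (col (fun i j => (2⁻¹ : ℝ) • pr (qpt (y j) - qpt (y i))) c ((x * g ⊗ₖ g).map (Rat.castHom ℝ))) =
      w * nq f m y c g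
  | 0, y, c, g, _ => by
    rw [lq_unique (ι := Fin 1), col, if_pos (Subsingleton.elim (α := Fin 1) _ _), nq, ← hf,
      ← AddMonoidHom.map_trace]
    rfl
  | m + 1, y, c, g, h => by
    simp only [ok, decide_eq_true_eq] at h
    rw [lq_chain, nq, Rat.cast_sum, mul_sum, ← AddMonoidHom.map_trace, hf]
    refine (congrArg₂ _ ?_ (sum_congr rfl fun j _ => .trans ?_ (chain hx hf m _ j _ (h.2 j)))).trans
      (zero_add _)
    · rcases h.1 with rfl | e
      · simp [lq_unique, pr_zero]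
      · simp [e]
    · rw [m4_eq, pr_pt (y (c.succAbove j)), ← Matrix.map_mul, Matrix.mul_assoc, ← Matrix.mul_assoc (g ⊗ₖ g),
        ← mul_kronecker_mul, kk_an, ← Matrix.mul_assoc, hx]

theorem pc_B_ne {w : ℝ} (hw : w ≠ 0) {l : Cl} {x : Lab ℚ} (hx : pc l x = x) {f : M4 ℚ → ℚ}
    (hf : ∀ g, (x * g ⊗ₖ g).trace = f g) {m : ℕ} {y : Fin (m + 1) → Fin 4 → ℚ}
    (h : (∀ c, ok f m y c 1) ∧ ∑ c, nq f m y c 1 ≠ 0 ∧ Injective y) :
    ∃ y : Fin (m + 1) → R4, Injective y ∧ pc l (B w y) ≠ 0 := by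
  refine ⟨fun i => qpt (y i), fun i j e => h.2.2 (funext fun a => ?_), fun e => h.2.1 ?_⟩
  · simpa [qpt] using congrArg (· a) e
  have h1 : x * an = x := by rw [← hx, ← pa_pc, pa_an]
  have h2 : xᵀ = x := by rw [← hx, ← pa_pc, pa_tr]
  have h3 := ip_B (w := w) (y := fun i => qpt (y i)) ((2 : ℝ) • x.map (Rat.castHom ℝ))
  have h4 : ((2 : ℝ) • x.map (Rat.castHom ℝ))ᵀ * (2⁻¹ : ℝ) • an =
      (x * (1 : M4 ℚ) ⊗ₖ (1 : M4 ℚ)).map (Rat.castHom ℝ) := by
    rw [transpose_smul, ← transpose_map, h2, ← an_map (Rat.castHom ℝ), Matrix.smul_mul,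
      Matrix.mul_smul, ← Matrix.map_mul, h1]
    simp [smul_smul]
  rw [h4, sum_congr rfl fun c _ => chain h1 hf m y c 1 (h.1 c), ← mul_sum, inv_mul_cancel_left₀ hw,
    ← hx, pc_map, ← pc_smul, ← ip_pc, e] at h3
  exact_mod_cast h3.symm.trans (by simp [ip] : _ = (0 : ℝ))

/-- diagonal labels -/
def dg (u : Fin 4 → Fin 4 → ℤ) : Lab ℚ :=
  of fun a b => u a.1 a.2 * ((if a = b then 1 else 0) - if a = b.swap then 1 else 0)

/-- a component of the stress tensor -/
def xt : Lab ℚ := dg fun i j => ![1, -1, 0, 0] i + ![1, -1, 0, 0] j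

/-- a component of the Weyl part -/
def xw : Lab ℚ := dg fun i j => if i.1 + j.1 = 3 then -1 else if (i.1 + j.1) % 2 = 0 then 1 else 0

theorem pc_xt : pc .t xt = xt := by
  have h : ∀ x y, xt y x = xt x y ∧ (an * xt : Lab ℚ) x y = xt x y ∧
      (hs * xt * hs : Lab ℚ) x y = -xt x y := by decide +kernel
  have h1 : hs * xt * hs = -xt := ext fun x y => (h x y).2.2
  rw [pc, pa_of (c := xt) (ext fun x y => (h x y).1) (ext fun x y => (h x y).2.1), h1]
  module

theorem pc_xw : pc .w xw = xw := by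
  have h : ∀ x y, xw y x = xw x y ∧ (an * xw : Lab ℚ) x y = xw x y ∧
      (hs * xw * hs : Lab ℚ) x y = xw x y := by decide +kernel
  have h1 : hs * xw * hs = xw := ext fun x y => (h x y).2.2
  have h2 : ip an xw = 0 ∧ ip hs xw = 0 := by decide +kernel
  rw [pc, pa_of (c := xw) (ext fun x y => (h x y).1) (ext fun x y => (h x y).2.1), h1, h2.1, h2.2]
  module

/-- the Pfaffian of the antisymmetric part -/
def fq (g : M4 ℚ) : ℚ := -((g 0 1 - g 1 0) * (g 2 3 - g 3 2) - (g 0 2 - g 2 0) * (g 1 3 - g 3 1) +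
  (g 0 3 - g 3 0) * (g 1 2 - g 2 1))

theorem tr_fq (g : M4 ℚ) : (hs * g ⊗ₖ g).trace = fq g := by
  simp only [trace, Matrix.diag, mul_apply, Fintype.sum_prod_type, Fin.sum_univ_four, hs, eps, of_apply,
    kroneckerMap_apply, fq]
  simp [show Int.sign 2 = 1 from rfl, show Int.sign 3 = 1 from rfl]
  ring

/-- every class occurs in the product of `l.m` scalar fields -/
theorem num {w : ℝ} (hw : w ≠ 0) (l : Cl) : ∃ y : Fin l.m → R4, Injective y ∧ pc l (B w y) ≠ 0 := by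
  cases l
  · exact pc_B_ne hw (x := an) (by simp [pc, ip_an, an_an, tr_an]) (fun _ => rfl) (m := 0) (y := 0)
      ⟨fun _ => rfl, by simp [nq, tr_an], injective_of_subsingleton (α := Fin 1) _⟩
  · exact pc_B_ne hw (by simp [pc, ip_hs, hs_hs, tr_an]) tr_fq (m := 4)
      (y := fun i l => if l.1 < i.1 then 1 else 0) (by decide +kernel)
  · exact pc_B_ne hw pc_xt (fun _ => rfl) (m := 1) (y := ![0, ![1, 0, 0, 0]]) (by decide +kernel)
  · exact pc_B_ne hw pc_xw (fun _ => rfl) (m := 2) (y := ![0, ![1, 0, 0, 0], ![0, 0, 1, 0]])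
      (by decide +kernel)

end Pool.Agent.Lib.MP_7f377f_mp.Lb
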