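import Pool.Agent.Lib.MP_7f377f_mp.Lb5

/-! The free two point function of the fields with labels. -/

noncomputable section

namespace Pool.Agent.Lib.MP_7f377f_mp.Lb

set_option linter.unusedSectionVars false

open Finset Function YG Matrix
open scoped Kronecker

theorem lq_two {A K : Type} [Fintype A] [DecidableEq A] [CommRing K] {w : K}
    {k : Fin 2 → Fin 2 → Matrix A A K} (h : ∀ i, k i i = 0) : lq w k = w * (k 1 0 * k 0 1).trace := by
  have h1 := lq_chain (w := w) k 0 (k 1 0)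
  have h2 : lq w (col k 0 (k 1 0)) = lq w k := by
    simp only [lq, ← (Equiv.Perm.decomposeFin (n := 1)).symm.sum_comp, Fintype.sum_prod_type,
      Fin.sum_univ_two, Fintype.sum_unique]
    rw [tm_zero (k := col k 0 _) (i := 1) (by simp [col, h]), tm_zero (k := k) (i := 1) (h 1),
      tm_congr (k := col k 0 _) (k' := k) (Fin.forall_fin_two.2 ⟨rfl, rfl⟩)]
  simpa [h2, lq_unique, h, col] using h1

theorem mr_orth {v : R4} (h : v ≠ 0) : (mr v)ᵀ * mr v = 1 := by
  have h1 : ‖v‖ ^ 2 ≠ 0 := pow_ne_zero _ (norm_ne_zero_iff.2 h)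
  have h2 : ∑ l, v l * v l = ‖v‖ ^ 2 := by
    simp only [EuclideanSpace.norm_sq_eq, Real.norm_eq_abs, sq_abs]
    simp only [sq]
  ext i j
  simp only [mr, mirror, mul_apply, transpose_apply, of_apply, sub_mul, mul_sub, sum_sub_distrib,
    ite_mul, mul_ite, one_mul, zero_mul, mul_one, mul_zero, sum_ite_eq', mem_univ, if_true, one_apply]
  rw [sum_congr rfl (g := fun l => 4 * v i * v j / ‖v‖ ^ 2 / ‖v‖ ^ 2 * (v l * v l))
    fun l _ => by ring, ← mul_sum, h2]
  simp only [eq_comm (a := j)]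
  field_simp
  ring

theorem frL_two {w : ℝ} (c : Fin 2 → Lab ℝ) {y : Fin 2 → R4} (h : y 0 ≠ y 1) : frL w c y =
    4 * w / ‖y 1 - y 0‖ ^ 8 * ip (pa (c 0)) (rho (mr (y 1 - y 0)) (c 1)) := by
  have o := mr_orth (sub_ne_zero.2 h.symm)
  rw [← frL_pa, frL, lq_two fun i => by simp [pr_zero], pr_sub (y 0),
    show ip (pa (c 0)) _ = ip (pa (c 0)) (pa _) by rw [ip_pa, pa_pa], pa_rho o, ip_eq, pa_tr, sy_of pa_tr, sy_of pa_tr, pr_eq, rho, kk_tr, mr_tr]
  simp only [Matrix.smul_mul, Matrix.mul_smul, trace_smul, Matrix.mul_assoc, an_pa, smul_eq_mul]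
  rw [trace_mul_comm]
  simp only [Matrix.mul_assoc]
  ring

theorem ip_self_pos {a : Lab ℝ} (h : a ≠ 0) : 0 < ip a a := by
  obtain ⟨x, y, e⟩ : ∃ x y, a x y ≠ 0 := by simpa [← Matrix.ext_iff] using h
  exact sum_pos' (fun _ _ => sum_nonneg fun _ _ => mul_self_nonneg _) ⟨x, mem_univ _,
    sum_pos' (fun _ _ => mul_self_nonneg _) ⟨y, mem_univ _, mul_self_pos.2 e⟩⟩

theorem ip_self_nonneg (a : Lab ℝ) : 0 ≤ ip a a :=
  sum_nonneg fun _ _ => sum_nonneg fun _ _ => mul_self_nonneg _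

/-- reflection positivity of the two point function -/
theorem frL_pos {w : ℝ} (hw : 0 < w) {a : Lab ℝ} (ha : pa a ≠ 0) {y : Fin 2 → R4} (h : y 0 ≠ y 1) :
    0 < frL w ![a, rho (mr (y 1 - y 0)) a] y := by
  have o := mr_orth (sub_ne_zero.2 h.symm)
  have := norm_pos_iff.2 (sub_ne_zero.2 h.symm)
  have := ip_self_pos ha
  rw [frL_two _ h, cons_val_zero, cons_val_one, cons_val_zero, ← rho_mul, ← mr_tr, mr_tr,
    show mr (y 1 - y 0) * mr (y 1 - y 0) = 1 by simpa only [mr_tr] using o, rho_one, ← pa_pa, ← ip_pa]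
  positivity

end Pool.Agent.Lib.MP_7f377f_mp.Lb
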