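import Pool.Agent.Lib.MP_7f377f_mp.Lb5

/-! The smeared free operator product expansion. -/

noncomputable section

namespace Pool.Agent.Lib.MP_7f377f_mp.Lb

set_option linter.unusedSectionVars false

open Finset Function YG Matrix MeasureTheory Filter Topology

variable {ι S : Type} [Fintype ι] [DecidableEq ι] [Fintype S] [DecidableEq S]
  {κ : S → Type} [∀ s, Fintype (κ s)] [∀ s, DecidableEq (κ s)] {w : ℝ}

theorem mp_curry : MeasurePreserving (MeasurableEquiv.piCurry fun s (_ : κ s) => R4).symm := by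
  refine ⟨MeasurableEquiv.measurable _, (Measure.pi_eq fun t ht => ?_).symm⟩
  rw [MeasurableEquiv.map_apply, Fintype.prod_sigma]
  simp only [← volume_pi_pi]
  congr 1
  ext x
  simp [MeasurableEquiv.coe_piCurry_symm, Sigma.uncurry, Sigma.forall]

theorem int_sigma (F : ∀ s, (κ s → R4) → ℝ) :
    ∫ x : (Σ s, κ s) → R4, ∏ s, F s (fun i => x ⟨s, i⟩) = ∏ s, ∫ y, F s y := by
  rw [← mp_curry.integral_comp', ← integral_fintype_prod_volume_eq_prod]
  rfl

theorem intg_sigma {F : ∀ s, (κ s → R4) → ℝ} (h : ∀ s, Integrable (F s)) :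
    Integrable fun x : (Σ s, κ s) → R4 => ∏ s, F s fun i => x ⟨s, i⟩ :=
  (mp_curry.integrable_comp_emb (MeasurableEquiv.measurableEmbedding _)).1
    (Integrable.fintype_prod_dep h)

theorem frL_basis (c : S → Lab ℝ) (ζ : S → R4) : frL w c ζ =
    ∑ e : S → Pl × Pl, (∏ s, c s (e s).1 (e s).2) * frL w (fun s => single (e s).1 (e s).2 1) ζ := by
  have : c = fun s => ∑ e : Pl × Pl, c s e.1 e.2 • single e.1 e.2 (1 : ℝ) := funext fun s => by
    conv_lhs => rw [matrix_eq_sum_single (c s)]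
    simp [Fintype.sum_prod_type]
  conv_lhs => rw [← frM_apply, this, MultilinearMap.map_sum]
  simp only [MultilinearMap.map_smul_univ, frM_apply, smul_eq_mul]

/-- weights with compact support in the configurations of distinct points -/
structure Wt (Φ : (ι → R4) → ℝ) : Prop where
  cont : Continuous Φ
  sep : ∃ δ > 0, ∃ M, ∀ y, Φ y ≠ 0 → Sep δ M y

/-- the smeared label -/
def Bi (w : ℝ) (Φ : (ι → R4) → ℝ) : Lab ℝ := of fun α β => ∫ y, Φ y * B w y α β

variable {Φ : (ι → R4) → ℝ}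

theorem Wt.mul_cont (h : Wt Φ) {F : (ι → R4) → ℝ} (hF : ∀ y, Injective y → ContinuousAt F y) :
    Continuous fun y => Φ y * F y := by
  obtain ⟨δ, δ0, M, hs⟩ := h.sep
  refine continuous_iff_continuousAt.2 fun y => ?_
  by_cases e : Sep δ M y
  · exact h.cont.continuousAt.mul (hF y (e.inj δ0))
  · refine continuousAt_const.congr (f := fun _ => 0) ?_
    filter_upwards [(sep_cpt δ M).isClosed.isOpen_compl.mem_nhds e] with z hz
    rw [not_not.1 (mt (hs z) hz), zero_mul]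

theorem Wt.cpt (h : Wt Φ) : HasCompactSupport Φ :=
  let ⟨δ, _, M, hs⟩ := h.sep
  .intro (sep_cpt δ M) fun y hy => not_not.1 (mt (hs y) hy)

theorem Wt.mul (h : Wt Φ) {F : (ι → R4) → ℝ} (hF : ∀ y, Injective y → ContinuousAt F y) :
    Wt fun y => Φ y * F y :=
  ⟨h.mul_cont hF, let ⟨δ, δ0, M, hs⟩ := h.sep; ⟨δ, δ0, M, fun y hy => hs y (left_ne_zero_of_mul hy)⟩⟩

theorem Wt.int (h : Wt Φ) : Integrable Φ := h.cont.integrable_of_hasCompactSupport h.cpt

theorem B_cont' (α β : Pl) (y : ι → R4) (h : Injective y) : ContinuousAt (fun y => B w y α β) y :=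
  continuousAt_pi.1 (continuousAt_pi.1 (B_cont h) α) β

theorem ip_B_cont (a : Lab ℝ) (y : ι → R4) (h : Injective y) :
    ContinuousAt (fun y => ip a (B w y)) y :=
  tendsto_finset_sum _ fun α _ => tendsto_finset_sum _ fun β _ => (B_cont' α β y h).const_mul _

theorem Wt.ip_Bi (h : Wt Φ) (a : Lab ℝ) : ip a (Bi w Φ) = ∫ y, Φ y * ip a (B w y) := by
  have := fun α β => ((h.mul (B_cont' (w := w) α β)).int.const_mul (a α β))
  simp only [ip, Bi, of_apply, mul_sum, ← integral_const_mul, mul_left_comm (Φ _)]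
  rw [integral_finset_sum _ fun α _ => integrable_finset_sum _ fun β _ => this α β]
  exact sum_congr rfl fun α _ => (integral_finset_sum _ fun β _ => this α β).symm

theorem Wt.pa_Bi (h : Wt Φ) : pa (Bi w Φ) = Bi w Φ := ip_ext fun a => by
  simp only [ip_pa, h.ip_Bi, ← ip_pa (a := a), pa_B]

theorem mp_rot (R : R4 ≃ₗᵢ[ℝ] R4) : MeasurePreserving fun (y : ι → R4) i => R (y i) :=
  measurePreserving_pi _ _ fun _ => R.measurePreserving

theorem int_rot (R : R4 ≃ₗᵢ[ℝ] R4) (F : (ι → R4) → ℝ) : 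
    ∫ y : ι → R4, F (fun i => R (y i)) = ∫ y, F y :=
  (mp_rot R).integral_comp
    (Homeomorph.piCongrRight fun _ => R.toHomeomorph).measurableEmbedding F

theorem Wt.rot (h : Wt Φ) (R : R4 ≃ₗᵢ[ℝ] R4) : Wt fun y => Φ fun i => R (y i) :=
  ⟨h.cont.comp (by fun_prop), let ⟨δ, δ0, M, hs⟩ := h.sep; ⟨δ, δ0, M, fun y hy => by
    simpa only [Sep, ← map_sub, R.norm_map] using hs _ hy⟩⟩

theorem Wt.Bi_rot (h : Wt Φ) (R : R4 ≃ₗᵢ[ℝ] R4) :
    rho (mx R) (Bi w fun y => Φ fun i => R (y i)) = Bi w Φ := ip_ext fun a => by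
  rw [ip_rho', (h.rot R).ip_Bi, h.ip_Bi, ← int_rot R fun y => Φ y * _]
  simp only [B_rot, ip_rho']

variable {Φ : ∀ s, (κ s → R4) → ℝ} {ζ : S → R4}

theorem int_frL (h : ∀ s, Wt (Φ s)) : ∫ x : (Σ s, κ s) → R4, (∏ s, Φ s fun i => x ⟨s, i⟩) *
    frL w (fun s => B w fun i => x ⟨s, i⟩) ζ = frL w (fun s => Bi w (Φ s)) ζ := by
  simp only [frL_basis (fun s => B w _), frL_basis (fun s => Bi w _), mul_sum, ← mul_assoc,
    ← prod_mul_distrib]
  have := fun e : S → Pl × Pl => (intg_sigma fun s =>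
    ((h s).mul (B_cont' (w := w) (e s).1 (e s).2)).int).mul_const
      (frL w (fun s => single (e s).1 (e s).2 1) ζ)
  refine (integral_finset_sum _ fun e _ => this e).trans (sum_congr rfl fun e _ => ?_)
  rw [integral_mul_const, int_sigma fun s y => Φ s y * B w y (e s).1 (e s).2]
  rfl

theorem fr_meas {X : Type} [MeasurableSpace X] {y : X → ι → R4}
    (hy : ∀ i, Measurable fun x => y x i) : Measurable fun x => fr w (y x) :=
  frL_meas (c := fun _ _ => c0) (fun _ _ _ => measurable_const) hy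

theorem frC_meas {X : Type} [MeasurableSpace X] {y : X → (Σ s, κ s) → R4}
    (hy : ∀ i, Measurable fun x => y x i) : Measurable fun x => frC w (y x) :=
  Finset.measurable_sum _ fun T _ => (Finset.measurable_prod _ fun s _ =>
    (fr_meas (y := fun x i => y x ⟨s, i⟩) fun _ => hy _).neg).mul
      (fr_meas (y := fun x (q : Σ s : T, κ s) => y x ⟨q.1, q.2⟩) fun _ => hy _)

/-- the smeared free operator product expansion -/
theorem fope_int (hw : w ≠ 0) {δ : ℝ} (δ0 : 0 < δ) (M : ℝ) {ε : ℝ} (ε0 : 0 < ε) :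
    ∀ᶠ t in 𝓝[≠] (0 : ℝ), ∀ (ζ : S → R4) (Φ : ∀ s, (κ s → R4) → ℝ), Sep δ M ζ →
      (∀ s, Continuous (Φ s) ∧ ∀ y, Φ s y ≠ 0 → Sep δ M y) →
      Integrable (fun x : (Σ s, κ s) → R4 => (∏ s, Φ s fun i => x ⟨s, i⟩) *
        frC w fun p => t⁻¹ • ζ p.1 + x p) ∧
      |(t ^ 4)⁻¹ ^ Fintype.card S * (∫ x : (Σ s, κ s) → R4, (∏ s, Φ s fun i => x ⟨s, i⟩) *
        frC w fun p => t⁻¹ • ζ p.1 + x p) - frL w (fun s => Bi w (Φ s)) ζ| ≤
        ε * ∏ s, ∫ y, |Φ s y| := by
  filter_upwards [fope (κ := κ) hw δ0 M ε0, self_mem_nhdsWithin] with t ht t0 ζ Φ a b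
  have h : ∀ s, Wt (Φ s) := fun s => ⟨(b s).1, δ, δ0, M, (b s).2⟩
  have h1 : Integrable fun x : (Σ s, κ s) → R4 => (∏ s, Φ s fun i => x ⟨s, i⟩) *
      frL w (fun s => B w fun i => x ⟨s, i⟩) ζ := by
    simp only [frL_basis (fun s => B w _), mul_sum, ← mul_assoc, ← prod_mul_distrib]
    exact integrable_finset_sum _ fun e _ => (intg_sigma fun s =>
      ((h s).mul (B_cont' (e s).1 (e s).2)).int).mul_const _
  have h2 := (intg_sigma fun s => (h s).int.abs).const_mul ε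
  have h3 : ∀ x : (Σ s, κ s) → R4, ‖(t ^ 4)⁻¹ ^ Fintype.card S * ((∏ s, Φ s fun i => x ⟨s, i⟩) *
      frC w fun p => t⁻¹ • ζ p.1 + x p) - (∏ s, Φ s fun i => x ⟨s, i⟩) *
        frL w (fun s => B w fun i => x ⟨s, i⟩) ζ‖ ≤ ε * ∏ s, |Φ s fun i => x ⟨s, i⟩| := fun x => by
    rw [mul_left_comm, ← mul_sub, Real.norm_eq_abs, abs_mul, ← abs_prod, mul_comm]
    rcases eq_or_ne (∏ s, Φ s fun i => x ⟨s, i⟩) 0 with e | e
    · simp [e]
    · exact mul_le_mul_of_nonneg_right (ht ζ x a fun s =>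
        (b s).2 _ (prod_ne_zero_iff.1 e s (mem_univ s))) (abs_nonneg _)
  have h4 : Measurable fun x : (Σ s, κ s) → R4 => (∏ s, Φ s fun i => x ⟨s, i⟩) *
      frC w fun p => t⁻¹ • ζ p.1 + x p := (Finset.measurable_prod _ fun s _ =>
    (b s).1.measurable.comp (by fun_prop)).mul (frC_meas fun _ => by fun_prop)
  have h5 := (h2.mono' ((h4.const_mul _).aestronglyMeasurable.sub h1.1) (.of_forall h3)).add h1
  have h6 := (integrable_const_mul_iff (c := (t ^ 4)⁻¹ ^ Fintype.card S) (Ne.isUnit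
    (pow_ne_zero _ (inv_ne_zero (pow_ne_zero _ t0)))) _).1 (h5.congr (.of_forall fun x => sub_add_cancel _ _))
  refine ⟨h6, ?_⟩
  rw [← int_frL h, ← integral_const_mul, ← integral_sub (h6.const_mul _) h1,
    ← int_sigma fun s y => |Φ s y|, ← integral_const_mul]
  exact norm_integral_le_of_norm_le h2 (.of_forall h3)

end Pool.Agent.Lib.MP_7f377f_mp.Lb
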