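import Pool.Agent.Lib.MP_7f377f_mp.Lb7
import Pool.Agent.Lib.MP_7f377f_mp.Lb8
import Pool.Agent.Lib.MP_7f377f_mp.StFy

/-! The free three point function of the stress tensor and two scalar fields. -/

noncomputable section

namespace Pool.Agent.Lib.MP_7f377f_mp.Lb

set_option linter.unusedSectionVars false

open Finset Function YG Matrix Fx
open scoped Kronecker

variable {w : ℝ}

theorem B_two (h : w ≠ 0) (y : Fin 2 → R4) : B w y = (2⁻¹ : ℝ) • pr (y 1 - y 0) := ip_ext fun a => by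
  simp only [ip_B, Fin.sum_univ_two, lq_chain, lq_unique, Fintype.sum_unique, col, if_true]
  simp [pr_zero, Matrix.mul_assoc, an_pr, pr_sub (y 0), ip_eq]
  field_simp
  ring

theorem lq_three {A K : Type} [Fintype A] [DecidableEq A] [CommRing K] {w : K}
    {k : Fin 3 → Fin 3 → Matrix A A K} (h : ∀ i, k i i = 0) :
    lq w k = w * (k 0 1 * k 1 2 * k 2 0).trace + w * (k 0 2 * k 2 1 * k 1 0).trace := by
  have h1 : ∀ F : (Fin 3 → A) → K, ∑ a, F a = ∑ x, ∑ y, ∑ z, F ![x, y, z] := fun F => by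
    simp only [← (Fin.consEquiv fun _ => A).sum_comp, Fintype.sum_prod_type, univ_unique,
      sum_singleton]
    rfl
  have h2 : (univ.filter fun σ : Equiv.Perm (Fin 3) => ∀ i, σ i ≠ i) =
      {finRotate 3, (finRotate 3)⁻¹} := by decide +kernel
  have h3 : lq w k = ∑ σ with ∀ i, σ i ≠ i, w ^ σ.cycleType.card * tm k σ := by
    rw [lq_der h, sum_filter]
    convert rfl
  rw [h3, h2, sum_pair (by decide), Equiv.Perm.cycleType_inv, cycleType_finRotate]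
  simp only [tm, h1, Fin.prod_univ_three, trace, Matrix.diag, mul_apply, sum_mul, Multiset.card_singleton,
    pow_one]
  refine congrArg₂ _ (congrArg _ (sum_congr rfl fun x _ => sum_comm)) (congrArg _
    (sum_congr rfl fun x _ => sum_congr rfl fun y _ => sum_congr rfl fun z _ => ?_))
  exact mul_right_comm _ _ _

theorem dot_eq (v : R4) : v.ofLp ⬝ᵥ v.ofLp = ‖v‖ ^ 2 := by
  simp only [EuclideanSpace.norm_sq_eq, Real.norm_eq_abs, sq_abs, dotProduct]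
  simp only [sq]

theorem mr_eq (v : R4) : mr v = 1 - (2 / ‖v‖ ^ 2) • vecMulVec v v := by
  ext i j
  simp only [mr, mirror, of_apply, Matrix.sub_apply, one_apply, Matrix.smul_apply, vecMulVec_apply,
    smul_eq_mul]
  ring

theorem mr_three {a b : R4} (ha : a ≠ 0) (hb : b ≠ 0) (h : b - a ≠ 0) :
    mr a * mr (b - a) * mr b = mr ((‖a‖ ^ 2)⁻¹ • a - (‖b‖ ^ 2)⁻¹ • b) := by
  have h1 := norm_ne_zero_iff.2 ha
  have h2 := norm_ne_zero_iff.2 hb
  have h3 := pow_ne_zero 2 (norm_ne_zero_iff.2 h)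
  have h4 : ‖b - a‖ ^ 2 = ‖a‖ ^ 2 + ‖b‖ ^ 2 - 2 * a.ofLp ⬝ᵥ b.ofLp := by
    simp only [← dot_eq, WithLp.ofLp_sub, sub_dotProduct, dotProduct_sub, dotProduct_comm b.ofLp a.ofLp]
    ring
  have h5 : ‖(‖a‖ ^ 2)⁻¹ • a - (‖b‖ ^ 2)⁻¹ • b‖ ^ 2 = ‖b - a‖ ^ 2 / (‖a‖ ^ 2 * ‖b‖ ^ 2) := by
    rw [h4, ← dot_eq (_ - _)]
    simp only [WithLp.ofLp_sub, WithLp.ofLp_smul, sub_dotProduct, dotProduct_sub, smul_dotProduct,
      dotProduct_smul, dotProduct_comm b.ofLp a.ofLp, smul_eq_mul, dot_eq]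
    field_simp
    ring
  simp only [mr_eq, h5, WithLp.ofLp_sub, WithLp.ofLp_smul, sub_vecMulVec, vecMulVec_sub,
    smul_vecMulVec, vecMulVec_smul, Matrix.mul_sub, Matrix.sub_mul, Matrix.mul_smul, Matrix.smul_mul,
    Matrix.one_mul, Matrix.mul_one, vecMulVec_mul_vecMulVec, dotProduct_comm b.ofLp a.ofLp, dot_eq]
  match_scalars <;> field_simp <;> rw [h4] <;> ring

theorem tr_kk (g : M4 ℝ) : (g ⊗ₖ g * an).trace = 2⁻¹ * (g.trace ^ 2 - (g * g).trace) := by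
  refine (sum_congr rfl fun x _ => mul_an (g ⊗ₖ g) x x).trans ?_
  simp only [trace, Matrix.diag, kroneckerMap_apply, Prod.fst_swap, Prod.snd_swap, sq,
    Fintype.sum_prod_type, mul_apply, ← mul_sum, sum_sub_distrib, ← sum_mul]

theorem kk_mul (g h : M4 ℝ) : g ⊗ₖ g * an * (h ⊗ₖ h * an) = (g * h) ⊗ₖ (g * h) * an := by
  rw [Matrix.mul_assoc, ← Matrix.mul_assoc an, ← kk_an h, Matrix.mul_assoc _ an, an_an,
    ← Matrix.mul_assoc, mul_kronecker_mul]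

theorem norm_vv {z x y : R4} (h : x - z ≠ 0) (h' : y - z ≠ 0) :
    ‖vv z x y‖ ^ 2 = ‖y - x‖ ^ 2 / (‖x - z‖ ^ 2 * ‖y - z‖ ^ 2) := by
  have h1 := norm_ne_zero_iff.2 h
  have h2 := norm_ne_zero_iff.2 h'
  rw [show y - x = y - z - (x - z) by abel, vv]
  generalize x - z = a at *
  generalize y - z = b at *
  rw [norm_sub_sq_real, norm_sub_sq_real b, norm_smul, norm_smul, real_inner_smul_left,
    real_inner_smul_right, real_inner_comm a]
  simp only [norm_inv, norm_pow, norm_norm]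
  field_simp

theorem tr_two {u v : R4} (hu : u ≠ 0) (hv : v ≠ 0) : ((mr u * mr v) ⊗ₖ (mr u * mr v) * an).trace =
    8 * (u.ofLp ⬝ᵥ v.ofLp) ^ 2 / (‖u‖ ^ 2 * ‖v‖ ^ 2) - 2 := by
  have h1 := norm_ne_zero_iff.2 hu
  have h2 := norm_ne_zero_iff.2 hv
  simp only [tr_kk, mr_eq, vecMulVec_smul, Matrix.mul_sub, Matrix.sub_mul, Matrix.mul_smul,
    Matrix.smul_mul, Matrix.one_mul, Matrix.mul_one, vecMulVec_mul_vecMulVec, trace_sub, trace_smul,
    trace_vecMulVec, dotProduct_comm v.ofLp u.ofLp, dot_eq, trace_one, smul_eq_mul, Fintype.card_fin]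
  field_simp
  ring

theorem frL_three (x : R4) (y : Fin 3 → R4) :
    frL w ![(2⁻¹ : ℝ) • pr x, (2⁻¹ : ℝ) • an, (2⁻¹ : ℝ) • an] y =
      32 * w * ∑ μ, ∑ ν, x μ * x ν / ‖x‖ ^ 6 * tt μ ν (y 0) (y 1) (y 2) := by
  have s1 : sy ((2⁻¹ : ℝ) • pr x) = (2⁻¹ : ℝ) • pr x := sy_of (by rw [transpose_smul, pr_tr])
  have s2 : sy ((2⁻¹ : ℝ) • an) = (2⁻¹ : ℝ) • (an : Lab ℝ) := sy_of (by rw [transpose_smul, an_tr])
  have h0 : frL w ![(2⁻¹ : ℝ) • pr x, (2⁻¹ : ℝ) • an, (2⁻¹ : ℝ) • an] y =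
      w / 4 * (pr (y 1 - y 0) * pr (y 2 - y 1) * pr (y 2 - y 0) * pr x).trace := by
    rw [frL, lq_three fun i => by simp [pr_zero]]
    simp only [Matrix.cons_val, s1, s2, Matrix.mul_smul, Matrix.smul_mul, pr_an, trace_smul, smul_eq_mul,
      pr_sub (y 0), pr_sub (y 1) (y 2), ← Matrix.mul_assoc]
    rw [← trace_transpose (pr (y 2 - y 0) * _ * _ * _)]
    simp only [transpose_mul, pr_tr, ← Matrix.mul_assoc]
    rw [Matrix.mul_assoc (pr x), Matrix.mul_assoc (pr x), trace_mul_comm (pr x)]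
    ring
  rw [h0]
  by_cases hx : x = 0
  · simp [hx, pr_zero]
  by_cases ha : y 1 - y 0 = 0
  · simp [ha, pr_zero, tt]
  by_cases hb : y 2 - y 0 = 0
  · simp [hb, pr_zero, tt]
  by_cases hc : y 2 - y 1 = 0
  · simp [hc, pr_zero, tt, norm_sub_rev (y 1) (y 2)]
  have e : y 2 - y 1 = y 2 - y 0 - (y 1 - y 0) := by abel
  have h1 := norm_ne_zero_iff.2 hx
  have h2 := norm_ne_zero_iff.2 ha
  have h3 := norm_ne_zero_iff.2 hb
  have h4 := norm_ne_zero_iff.2 hc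
  have h5 := norm_vv ha hb
  have hv : vv (y 0) (y 1) (y 2) ≠ 0 := fun a => by
    rw [a, norm_zero, zero_pow two_ne_zero] at h5
    exact absurd h5.symm (by positivity)
  have h6 : pr (y 1 - y 0) * pr (y 2 - y 1) * pr (y 2 - y 0) * pr x =
      (16 / (‖y 1 - y 0‖ ^ 4 * ‖y 2 - y 1‖ ^ 4 * ‖y 2 - y 0‖ ^ 4 * ‖x‖ ^ 4)) •
        ((mr (vv (y 0) (y 1) (y 2)) * mr x) ⊗ₖ (mr (vv (y 0) (y 1) (y 2)) * mr x) * an) := by
    rw [vv, ← mr_three ha hb (e ▸ hc), ← e]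
    simp only [pr_eq, Matrix.smul_mul, Matrix.mul_smul, smul_smul, kk_mul]
    congr 1
    field_simp
    norm_num
  have h7 : ∑ μ, ∑ ν, x μ * x ν / ‖x‖ ^ 6 * tt μ ν (y 0) (y 1) (y 2) =
      (((vv (y 0) (y 1) (y 2)).ofLp ⬝ᵥ x.ofLp) ^ 2 - x.ofLp ⬝ᵥ x.ofLp * ‖vv (y 0) (y 1) (y 2)‖ ^ 2 / 4) /
        (‖x‖ ^ 6 * (‖y 1 - y 0‖ ^ 2 * ‖y 2 - y 0‖ ^ 2 * ‖y 1 - y 2‖ ^ 6)) := by
    simp [tt, dotProduct, Fin.sum_univ_four]
    ring
  rw [h6, trace_smul, tr_two hv hx, h7, h5, dot_eq, norm_sub_rev (y 1) (y 2), smul_eq_mul]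
  field_simp
  ring

theorem tt_tr (z x y : R4) : ∑ μ, tt μ μ z x y = 0 := by
  simp only [tt, if_true, ← sum_div, sum_sub_distrib, ← dot_eq, dotProduct]
  simp

open Filter Topology in
theorem wt_prod {ι : Type} [Fintype ι] [DecidableEq ι] {f : ι → R4 → ℝ}
    (h1 : ∀ i, HasCompactSupport (f i)) (h2 : ∀ i, Continuous (f i))
    (h3 : Pairwise fun i j => Disjoint (tsupport (f i)) (tsupport (f j))) :
    Wt fun y : ι → R4 => ∏ i, f i (y i) := by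
  have : ∀ᶠ δ in 𝓝[>] (0 : ℝ), ∀ i j, i ≠ j → ∀ x ∈ tsupport (f i), ∀ y ∈ tsupport (f j),
      δ ≤ ‖x - y‖ := by
    refine eventually_all.2 fun i => eventually_all.2 fun j => eventually_all.2 fun hij => ?_
    obtain ⟨r, r0, hr⟩ := Metric.exists_pos_forall_lt_edist (h1 i) (isClosed_tsupport _) (h3 hij)
    filter_upwards [Ioc_mem_nhdsGT (show (0 : ℝ) < r from r0)] with δ hδ x hx y hy
    have := hr x hx y hy
    rw [edist_nndist, ENNReal.coe_lt_coe, ← NNReal.coe_lt_coe, coe_nndist, dist_eq_norm] at this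
    exact hδ.2.trans this.le
  obtain ⟨δ, d, d0⟩ := (this.and self_mem_nhdsWithin).exists
  obtain ⟨M, hM⟩ := (isCompact_iUnion h1).isBounded.exists_norm_le
  refine ⟨by fun_prop, δ, d0, M, fun y hy => ?_⟩
  have := fun i => subset_tsupport _ (prod_ne_zero_iff.1 hy i (mem_univ i))
  exact ⟨fun i => hM _ (Set.mem_iUnion.2 ⟨i, this i⟩), fun i j e => d i j e _ (this i) _ (this j)⟩

end Pool.Agent.Lib.MP_7f377f_mp.Lb
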