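import Pool.Agent.Lib.MP_7f377f_mp.Lb4

/-! The free operator product expansion for clusters. -/

noncomputable section

namespace Pool.Agent.Lib.MP_7f377f_mp.Lb

set_option linter.unusedSectionVars false

open Finset Equiv Function YG Matrix Filter Topology

variable {ι ι' S : Type} [Fintype ι] [DecidableEq ι] [Fintype ι'] [DecidableEq ι'] [Fintype S]
  [DecidableEq S] {w : ℝ} {y : ι → R4}

theorem ip_ext {K : Type} [CommRing K] {b c : Lab K} (h : ∀ a, ip a b = ip a c) : b = c := by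
  ext x y
  simpa [ip, single_apply, ite_and] using h (single x y 1)

theorem ip_B (a : Lab ℝ) : ip a (B w y) = w⁻¹ * ∑ c,
    lq w (col (fun i j => (2⁻¹ : ℝ) • pr (y j - y i)) c (aᵀ * (2⁻¹ : ℝ) • an)) := by
  simp only [lq_col _ aᵀ, ip, B, of_apply, transpose_apply, mul_sum, mul_left_comm w⁻¹]
  exact (sum_congr rfl fun _ _ => sum_comm).trans sum_comm

theorem an_B : an * B w y = B w y := ip_ext fun a => by
  simp only [ip_mul_left, ip_B, transpose_mul, an_tr, Matrix.mul_assoc, Matrix.mul_smul, an_an]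

theorem B_tr : (B w y)ᵀ = B w y := ip_ext fun a => by
  rw [← ip_tr, transpose_transpose, ip_B, ip_B, sum_col]
  refine congrArg _ (sum_congr rfl fun c _ => ?_)
  rw [← lq_tr]
  have h := lq_move (w := w) (fun _ => an)
    (col (fun i j => (2⁻¹ : ℝ) • pr (y j - y i)) c ((2⁻¹ : ℝ) • aᵀ))
  refine .trans (congrArg _ ?_) (h.trans (congrArg _ ?_)) <;> ext1 i <;> ext1 j <;>
    simp only [col] <;> split_ifs <;> simp [an_tr, pr_tr, an_pr, pr_an, pr_sub (y i)]

theorem pa_B : pa (B w y) = B w y := pa_of B_tr an_B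

theorem sy_B : sy (B w y) = B w y := sy_of B_tr

theorem B_rot (R : R4 ≃ₗᵢ[ℝ] R4) : B w (fun i => R (y i)) = rho (mx R) (B w y) := ip_ext fun a => by
  rw [ip_rho', ip_B, ip_B]
  refine congrArg _ (sum_congr rfl fun c _ => .trans (congrArg _ ?_) (lq_rho (mx_orth R) _))
  ext1 i
  ext1 j
  simp only [col]
  split_ifs
  · have : (mx R)ᵀᵀ * (mx R)ᵀ = 1 := mul_eq_one_comm.1 (mx_orth R)
    rw [rho_mul' (mx_orth R), rho_smul, rho_an (mx_orth R), ← rho_tr]
    exact congrArg (·ᵀ * _) (rho_inv this).symm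
  · rw [← map_sub, pr_rot, rho_smul]

theorem B_add (v : R4) : B w (fun i => y i + v) = B w y := by
  simp only [B, add_sub_add_right_eq_sub]

theorem B_smul (t : ℝ) : B w (fun i => t • y i) = (t ^ 4)⁻¹ ^ (Fintype.card ι - 1) • B w y :=
  ip_ext fun a => by
    rw [ip_smul, ip_B, ip_B, mul_left_comm, mul_sum _ _ (_ ^ _)]
    refine congrArg _ (sum_congr rfl fun c _ => ?_)
    have := lq_smul (w := w) (fun j => if j = c then 1 else (t ^ 4)⁻¹)
      (col (fun i j => (2⁻¹ : ℝ) • pr (y j - y i)) c (aᵀ * (2⁻¹ : ℝ) • an))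
    rw [prod_ite, prod_const_one, one_mul, prod_const, filter_ne', card_erase_of_mem (mem_univ c),
      card_univ] at this
    refine .trans (congrArg _ ?_) this
    ext1 i
    ext1 j
    simp only [col]
    split_ifs
    · rw [one_smul]
    · rw [← smul_sub, pr_smul, smul_comm]

theorem B_reindex (e : ι' ≃ ι) : B w (fun i => y (e i)) = B w y := ip_ext fun a => by
  rw [ip_B, ip_B]
  refine congrArg _ (Fintype.sum_equiv e _ _ fun c => .trans (congrArg _ ?_) (lq_reindex e _))
  ext1 i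
  ext1 j
  simp [col]

theorem B_unique [Unique ι] (h : w ≠ 0) : B w y = (2⁻¹ : ℝ) • an := ip_ext fun a => by
  rw [ip_B, Fintype.sum_unique, lq_unique, col, if_pos rfl, inv_mul_cancel_left₀ h, ip_eq]

theorem B_cont (h : Injective y) : ContinuousAt (B w) y :=
  continuousAt_pi.2 fun α => continuousAt_pi.2 fun β => (tendsto_finset_sum _ fun c _ =>
    lq_cont fun i j => by
      simp only [col]
      split_ifs
      · exact continuousAt_const
      · exact (pr_cont' h i j).const_smul (2⁻¹ : ℝ)).const_mul _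

theorem B_meas (α β : Pl) : Measurable fun y : ι → R4 => B w y α β :=
  (Finset.measurable_sum _ fun c _ => lq_meas fun i j a b => by
    simp only [col]
    split_ifs
    · exact measurable_const
    · exact ((pr_meas a b).comp (by fun_prop)).const_mul _).const_mul _

theorem Sep.inj {δ M : ℝ} (h : Sep δ M y) (δ0 : 0 < δ) : Injective y := fun i j e => by
  by_contra a
  simpa [e, δ0.not_ge] using h.2 i j a

theorem sep_cpt (δ M : ℝ) : IsCompact {y : ι → R4 | Sep δ M y} := by
  refine (isCompact_univ_pi fun _ => isCompact_closedBall (0 : R4) M).of_isClosed_subset ?_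
    fun y h i _ => by simpa using h.1 i
  simp only [Sep, Set.setOf_and, Set.setOf_forall]
  exact (isClosed_iInter fun i => isClosed_le (by fun_prop) continuous_const).inter
    (isClosed_iInter fun i => isClosed_iInter fun j => isClosed_iInter fun _ =>
      isClosed_le continuous_const (by fun_prop))

variable {κ : S → Type} [∀ s, Fintype (κ s)] [∀ s, DecidableEq (κ s)]

/-- the rescaled propagators between the points of the clusters -/
def kH (t : ℝ) (ζ : S → R4) (y : (Σ s, κ s) → R4) (i j : Σ s, κ s) : Lab ℝ :=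
  (2⁻¹ : ℝ) • if i.1 = j.1 then pr (y j - y i) else pr (ζ j.1 - ζ i.1 + t • (y j - y i))

/-- the rescaled correlation function of centred clusters -/
def frH (w t : ℝ) (ζ : S → R4) (y : (Σ s, κ s) → R4) : ℝ := ∑ σ : Perm (Σ s, κ s),
  if Gd σ then (t ^ 4) ^ (#(ex σ) - Fintype.card S) * (w ^ nc σ * tm (kH t ζ y) σ) else 0

variable {ζ : S → R4} {y : (Σ s, κ s) → R4}

theorem frC_eq : frC w y = ∑ σ : Perm (Σ s, κ s),
    if Gd σ then w ^ nc σ * tm (fun i j => (2⁻¹ : ℝ) • pr (y j - y i)) σ else 0 := by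
  simp only [frC, fr_eq]
  exact lq_cen fun i j => (2⁻¹ : ℝ) • pr (y j - y i)

theorem frH_eq {t : ℝ} (h : t ≠ 0) :
    (t ^ 4)⁻¹ ^ Fintype.card S * frC w (fun p => t⁻¹ • ζ p.1 + y p) = frH w t ζ y := by
  rw [frC_eq, mul_sum]
  refine sum_congr rfl fun σ _ => ?_
  split_ifs with e
  · have : (fun i j : Σ s, κ s => (2⁻¹ : ℝ) • pr (t⁻¹ • ζ j.1 + y j - (t⁻¹ • ζ i.1 + y i))) =
        fun i j => (if j.1 ≠ i.1 then t ^ 4 else 1) • kH t ζ y i j := by
      ext1 i
      ext1 j
      by_cases a : i.1 = j.1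
      · simp [kH, a]
      · rw [kH, if_neg a, if_pos (Ne.symm a), smul_comm, ← inv_inv (t ^ 4), ← inv_pow, ← pr_smul]
        congr 2
        match_scalars <;> field_simp
    rw [this, tm_smul, prod_ite, prod_const_one, mul_one, prod_const,
      pow_sub₀ _ (pow_ne_zero 4 h) e.le, inv_pow]
    unfold ex
    ring
  · exact mul_zero _

theorem frH_zero (h : w ≠ 0) : frH w 0 ζ y = frL w (fun s => B w fun x => y ⟨s, x⟩) ζ := by
  have := one_exit (w := w) (k := kH 0 ζ y) (n := fun _ => (2⁻¹ : ℝ) • an)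
    (g := fun s t => pr (ζ t - ζ s)) (fun s => by simp [pr_zero]) fun i j e => by
      simp [kH, e, pr_an]
  refine mul_left_cancel₀ (pow_ne_zero (Fintype.card S) h) (.trans (congrArg _ ?_) (this.symm.trans ?_))
  · refine sum_congr rfl fun σ _ => ?_
    by_cases a : Gd σ
    · rcases a.le.eq_or_lt with b | b
      · simp [a, ← b]
      · simp [a, b.ne', Nat.sub_ne_zero_of_lt b]
    · simp [a]
  · rw [← card_univ, ← prod_const, frL, ← lq_smul]
    congr
    ext1 s
    ext1 t
    rw [sy_B, ← Matrix.mul_smul]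
    congr
    ext α β
    simp [B, kH, mul_inv_cancel_left₀ h]

theorem frH_cont {t : ℝ} (h : ∀ s, Injective fun x => y ⟨s, x⟩)
    (h' : ∀ i j : Σ s, κ s, i.1 ≠ j.1 → ζ j.1 - ζ i.1 + t • (y j - y i) ≠ 0) :
    ContinuousAt (fun p : ℝ × (S → R4) × ((Σ s, κ s) → R4) => frH w p.1 p.2.1 p.2.2) (t, ζ, y) := by
  refine tendsto_finset_sum _ fun σ _ => ?_
  split_ifs
  · refine ContinuousAt.mul (by fun_prop) ((tm_cont fun i => ?_).const_mul _)
    generalize σ i = j
    unfold kH
    split_ifs with e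
    · rcases eq_or_ne j i with rfl | a
      · simpa only [sub_self] using continuousAt_const
      · obtain ⟨s, x⟩ := i
        obtain ⟨s', z⟩ := j
        obtain rfl : s = s' := e
        exact (ContinuousAt.comp (f := fun p : ℝ × (S → R4) × ((Σ s, κ s) → R4) =>
          p.2.2 ⟨s, z⟩ - p.2.2 ⟨s, x⟩) (pr_cont (sub_ne_zero.2 ((h s).ne fun b =>
            a (congrArg _ b)))) (by fun_prop)).const_smul (2⁻¹ : ℝ)
    · exact (ContinuousAt.comp (f := fun p : ℝ × (S → R4) × ((Σ s, κ s) → R4) =>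
        p.2.1 j.1 - p.2.1 i.1 + p.1 • (p.2.2 j - p.2.2 i)) (pr_cont (h' i j e))
          (by fun_prop)).const_smul (2⁻¹ : ℝ)
  · exact tendsto_const_nhds

/-- the free operator product expansion -/
theorem fope (h : w ≠ 0) {δ : ℝ} (δ0 : 0 < δ) (M : ℝ) {ε : ℝ} (ε0 : 0 < ε) :
    ∀ᶠ t in 𝓝[≠] (0 : ℝ), ∀ (ζ : S → R4) (y : (Σ s, κ s) → R4), Sep δ M ζ →
      (∀ s, Sep δ M fun x => y ⟨s, x⟩) →
      |(t ^ 4)⁻¹ ^ Fintype.card S * frC w (fun p => t⁻¹ • ζ p.1 + y p) -
        frL w (fun s => B w fun x => y ⟨s, x⟩) ζ| ≤ ε := by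
  have hK : IsCompact ({ζ : S → R4 | Sep δ M ζ} ×ˢ
      {y : (Σ s, κ s) → R4 | ∀ s, Sep δ M fun x => y ⟨s, x⟩}) := by
    refine (sep_cpt δ M).prod ((isCompact_univ_pi fun _ =>
      isCompact_closedBall (0 : R4) M).of_isClosed_subset ?_ fun y h i _ => by simpa using (h i.1).1 i.2)
    simp only [Set.setOf_forall]
    exact isClosed_iInter fun s => (sep_cpt δ M).isClosed.preimage
      (f := fun (y : (Σ s, κ s) → R4) x => y ⟨s, x⟩) (by fun_prop)
  have := hK.eventually_forall_of_forall_eventually (x₀ := (0 : ℝ))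
    (P := fun t p => |frH w t p.1 p.2 - frH w 0 p.1 p.2| ≤ ε) fun p hp => by
      have h1 := frH_cont (w := w) (t := 0) (ζ := p.1) (fun s => (hp.2 s).inj δ0) fun i j e => by
        simpa [sub_eq_zero] using (hp.1.inj δ0).ne e.symm
      have h2 := (h1.sub (h1.comp_of_eq (f := fun q : ℝ × _ => ((0 : ℝ), q.2)) (x := (0, p))
        (by fun_prop) rfl)).abs
      exact (h2.eventually_lt continuousAt_const (by simpa using ε0)).mono fun q hq => hq.le
  filter_upwards [this.filter_mono nhdsWithin_le_nhds, self_mem_nhdsWithin] with t ht t0 ζ y a b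
  rw [frH_eq t0, ← frH_zero h]
  exact ht (ζ, y) ⟨a, b⟩

end Pool.Agent.Lib.MP_7f377f_mp.Lb
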