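import Pool.Agent.Lib.MP_7f377f_mp.G.YGDefs

/-! Labels of the fields of dimension four, loop sums and the free operator product. -/

noncomputable section

namespace Pool.Agent.Lib.MP_7f377f_mp.Lb

open Finset Equiv Matrix YG
open scoped Kronecker

/-- oriented planes -/
abbrev Pl : Type := Fin 4 × Fin 4

/-- tensors of rank four -/
abbrev Lab (K : Type) : Type := Matrix Pl Pl K

/-- matrices -/
abbrev M4 (K : Type) : Type := Matrix (Fin 4) (Fin 4) K

section labels

variable {K : Type} [Field K]

/-- the action of a matrix on the labels -/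
def rho {K : Type} [CommRing K] (g : M4 K) (c : Lab K) : Lab K := g ⊗ₖ g * c * (g ⊗ₖ g)ᵀ

/-- the scalar label -/
def c0 : Lab K := (2⁻¹ : K) • 1

/-- the symmetric part -/
def sy (c : Lab K) : Lab K := (2⁻¹ : K) • (c + cᵀ)

/-- the projection onto two forms -/
def an : Lab K := of fun a b => 2⁻¹ * ((if a = b then 1 else 0) - if a = b.swap then 1 else 0)

/-- the sign of four indices -/
def eps (i j k l : Fin 4) : ℤ :=
  ((j : ℤ) - i).sign * ((k : ℤ) - i).sign * ((l : ℤ) - i).sign * ((k : ℤ) - j).sign *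
    ((l : ℤ) - j).sign * ((l : ℤ) - k).sign

/-- the Hodge star -/
def hs : Lab K := of fun a b => 2⁻¹ * (eps a.1 a.2 b.1 b.2 : K)

/-- the projection onto the symmetric forms on two forms -/
def pa (c : Lab K) : Lab K := an * sy c * an

/-- the pairing -/
def ip {K : Type} [CommRing K] (a b : Lab K) : K := ∑ x, ∑ y, a x y * b x y

/-- the classes: scalar, pseudoscalar, stress tensor, Weyl part -/
inductive Cl
  | s | q | t | w
  deriving DecidableEq, Fintype

/-- the projections onto the classes -/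
def pc : Cl → Lab K → Lab K
  | .s, c => (ip an c / 6) • an
  | .q, c => (ip hs c / 6) • hs
  | .t, c => (2⁻¹ : K) • (pa c - hs * pa c * hs)
  | .w, c => (2⁻¹ : K) • (pa c + hs * pa c * hs) - (ip an c / 6) • an - (ip hs c / 6) • hs

/-- the number of points of the clusters -/
def Cl.m : Cl → ℕ
  | .s => 1
  | .q => 5
  | .t => 2
  | .w => 3

end labels

/-- the matrix of an isometry -/
def mx (R : R4 ≃ₗᵢ[ℝ] R4) : M4 ℝ := of fun i j => R (EuclideanSpace.single j 1) i

/-- the propagator of the field strength -/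
def pr (v : R4) : Lab ℝ := of fun a b =>
  (mirror v a.1 b.1 * mirror v a.2 b.2 - mirror v a.1 b.2 * mirror v a.2 b.1) / ‖v‖ ^ 4

/-- the correlation function of the fields with labels `c i` of `d` free Maxwell fields -/
def freeL {k : ℕ} (d : ℕ) (c : Fin k → Lab ℂ) (y : Fin k → R4) : ℂ :=
  ∑ σ : Perm (Fin k), if ∀ i, σ i ≠ i then (d / 2) ^ σ.cycleType.card *
    ∑ a : Fin k → Pl, ∏ i, ∑ b, pr (y (σ i) - y i) (a i) b *
      (c (σ i) b (a (σ i)) + c (σ i) (a (σ i)) b) / 2 else 0

section loops

variable {ι A K : Type} [Fintype ι] [DecidableEq ι] [Fintype A] [DecidableEq A] [CommRing K]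

/-- the number of orbits -/
def nc (σ : Perm ι) : ℕ := σ.cycleType.card + #{i | σ i = i}

/-- the product of the traces along the orbits -/
def tm (k : ι → ι → Matrix A A K) (σ : Perm ι) : K := ∑ a : ι → A, ∏ i, k i (σ i) (a i) (a (σ i))

/-- the loop sum -/
def lq (w : K) (k : ι → ι → Matrix A A K) : K := ∑ σ : Perm ι, w ^ nc σ * tm k σ

/-- the kernel with the column `c` replaced -/
def col (k : ι → ι → Matrix A A K) (c : ι) (x : Matrix A A K) (i j : ι) : Matrix A A K :=
  if j = c then x else k i j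

end loops

variable {ι S : Type} [Fintype ι] [DecidableEq ι] [Fintype S] [DecidableEq S]

/-- the free correlation function with real labels, `w = d / 2` -/
def frL (w : ℝ) (c : ι → Lab ℝ) (y : ι → R4) : ℝ := lq w fun i j => pr (y j - y i) * sy (c j)

/-- the free correlation function of the scalar field -/
def fr (w : ℝ) (y : ι → R4) : ℝ := frL w (fun _ => c0) y

/-- the leading label in the product of scalar fields at the points `y i` -/
def B (w : ℝ) (y : ι → R4) : Lab ℝ := of fun α β => w⁻¹ * ∑ c,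
  lq w (col (fun i j => (2⁻¹ : ℝ) • pr (y j - y i)) c (single β α 1 * (2⁻¹ : ℝ) • an))

/-- the correlation function of centred clusters -/
def frC {κ : S → Type} [∀ s, Fintype (κ s)] [∀ s, DecidableEq (κ s)] (w : ℝ)
    (p : (Σ s, κ s) → R4) : ℝ :=
  ∑ T : Finset S, (∏ s ∈ Tᶜ, -fr w fun i => p ⟨s, i⟩) * fr w fun q : Σ s : T, κ s => p ⟨q.1, q.2⟩

/-- bounded configurations of separated points -/
def Sep (δ M : ℝ) (y : ι → R4) : Prop := (∀ i, ‖y i‖ ≤ M) ∧ ∀ i j, i ≠ j → δ ≤ ‖y i - y j‖

end Pool.Agent.Lib.MP_7f377f_mp.Lb
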