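import Pool.Agent.Lib.MP_7f377f_mp.S10KA

/-! Spin counting for periodic holomorphic functions on rectangles. -/

noncomputable section

namespace Pool.Agent.Lib.MP_7f377f_mp.S10

open Set Filter Topology Complex ComplexConjugate
open scoped Real

namespace KC

variable {G : ℂ → ℂ} {η β : ℝ}

theorem q1 : π / 4 < 1 := by linarith [Real.pi_lt_four]

theorem q2 : 0 < π / 4 := by positivity

theorem q3 : 3 / 4 < π / 4 := by linarith [Real.pi_gt_three]

theorem mem_rc {x y : ℝ} (hx : |x| ≤ π / 4) (hy : |y| < η) : (x + y * I : ℂ) ∈ Rc 1 η := by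
  simpa [Rc, hy] using hx.trans_lt q1

/-- periodicity on the real axis -/
def Per (G : ℂ → ℂ) : Prop :=
  ∀ x : ℝ, |x| < 1 → |x + π / 2| < 1 → G (x + π / 2 : ℝ) = G x

theorem per_side (hd : DifferentiableOn ℂ G (Rc 1 η)) (hp : Per G) {u : ℝ} (hu : |u| < η) :
    G ((π / 4 : ℝ) + u * I) = G ((-(π / 4) : ℝ) + u * I) := by
  have k : ∀ s : ℝ, |s| ≤ π / 4 →
      DifferentiableOn ℂ (fun z => G (s + z)) (Rc (1 - π / 4) η) := fun s hs =>
    hd.comp (by fun_prop) fun z hz => ⟨by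
      have := abs_add_le s z.re
      have := hz.1
      simp only [add_re, ofReal_re]
      linarith, by simpa using hz.2⟩
  refine rc_id (k _ (abs_of_pos q2).le) (k _ (by rw [abs_neg, abs_of_pos q2])) (sub_pos.2 q1)
    (fun x hx => ?_) (show (u * I : ℂ) ∈ _ from ⟨by simpa using q1, by simpa using hu⟩)
  obtain ⟨h1, h2⟩ := abs_lt.1 hx
  have := hp (-(π / 4) + x) (abs_lt.2 ⟨by linarith, by linarith [q2]⟩)
    (abs_lt.2 ⟨by linarith [q2], by linarith⟩)
  rw [show -(π / 4) + x + π / 2 = π / 4 + x by ring] at this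
  simpa only [ofReal_add] using this

/-- the harmonics -/
def ch (n : ℤ) (z : ℂ) : ℂ := exp (4 * n * I * z)

theorem norm_ch (n : ℤ) (x y : ℝ) : ‖ch n (x + y * I)‖ = Real.exp (-4 * n * y) := by
  rw [ch, norm_exp]
  simp

/-- the Fourier coefficients on the line of height `y` -/
def cf (G : ℂ → ℂ) (n : ℤ) (y : ℝ) : ℂ :=
  (2 / π : ℝ) • ∫ x : ℝ in -(π / 4)..π / 4, ch (-n) (x + y * I) * G (x + y * I)

theorem cf_le {y M : ℝ} (h : ∀ x : ℝ, |x| ≤ π / 4 → ‖G (x + y * I)‖ ≤ M) (n : ℤ) :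
    ‖cf G n y‖ ≤ M * Real.exp (4 * n * y) := by
  have := intervalIntegral.norm_integral_le_of_norm_le_const (a := -(π / 4)) (b := π / 4)
    (C := M * Real.exp (4 * n * y)) (f := fun x : ℝ => ch (-n) (x + y * I) * G (x + y * I))
    fun x hx => by
      rw [uIoc_of_le (by linarith [q2])] at hx
      rw [norm_mul, norm_ch, mul_comm]
      refine mul_le_mul (h x (abs_le.2 ⟨hx.1.le, hx.2⟩)) (le_of_eq ?_) (by positivity)
        ((norm_nonneg _).trans (h x (abs_le.2 ⟨hx.1.le, hx.2⟩)))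
      push_cast
      ring_nf
  rw [cf, norm_smul, Real.norm_of_nonneg (by positivity)]
  refine (mul_le_mul_of_nonneg_left this (by positivity)).trans (le_of_eq ?_)
  rw [abs_of_pos (by linarith [q2])]
  field_simp
  ring

theorem cf_eq (hd : DifferentiableOn ℂ G (Rc 1 η)) (hp : Per G) (n : ℤ) {y : ℝ} (hy : |y| < η) :
    cf G n y = cf G n 0 := by
  have m : ∀ u ∈ uIcc 0 y, |u| < η := fun u hu => by
    have := abs_sub_left_of_mem_uIcc hu
    rw [sub_zero, sub_zero] at this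
    exact this.trans_lt hy
  have := integral_boundary_rect_eq_zero_of_differentiableOn (fun z => ch (-n) z * G z)
    ⟨-(π / 4), 0⟩ ⟨π / 4, y⟩ (DifferentiableOn.mul (by unfold ch; fun_prop)
      (hd.mono fun z hz => ⟨by
        have := hz.1
        rw [mem_preimage, uIcc_of_le (by linarith [q2])] at this
        exact (abs_le.2 this).trans_lt q1, m _ hz.2⟩))
  have e : (∫ u : ℝ in (0 : ℝ)..y, ch (-n) ((π / 4 : ℝ) + u * I) * G ((π / 4 : ℝ) + u * I)) =
      ∫ u : ℝ in (0 : ℝ)..y, ch (-n) ((-(π / 4) : ℝ) + u * I) * G ((-(π / 4) : ℝ) + u * I) := by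
    refine intervalIntegral.integral_congr fun u hu => ?_
    simp only [per_side hd hp (m u hu), ch]
    congr 1
    rw [exp_eq_exp_iff_exists_int]
    exact ⟨-n, by push_cast; ring⟩
  simp only at this
  rw [e, add_sub_cancel_right, sub_eq_zero] at this
  rw [cf, cf, this]

theorem cf_sum (hd : DifferentiableOn ℂ G (Rc 1 η)) (hp : Per G) {u x : ℝ} (hu : |u| < η)
    (hx : x ∈ Ioc (-(π / 4)) (π / 4)) (hs : Summable fun n => cf G n 0 * ch n (u * I)) :
    HasSum (fun n => cf G n 0 * ch n (x + u * I)) (G (x + u * I)) := by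
  have : Fact (0 < π / 2) := ⟨by positivity⟩
  have e : -(π / 4) + π / 2 = π / 4 := by ring
  let f : C(AddCircle (π / 2), ℂ) := ⟨AddCircle.liftIoc (π / 2) (-(π / 4)) fun x => G (x + u * I),
    AddCircle.liftIoc_continuous (by rw [e]; exact (per_side hd hp hu).symm)
      (hd.continuousOn.comp (by fun_prop) fun x hx => mem_rc (abs_le.2 ⟨hx.1, hx.2.trans e.le⟩) hu)⟩
  have hf : ∀ x ∈ Ioc (-(π / 4)) (π / 4), f x = G (x + u * I) := fun x hx =>
    AddCircle.liftIoc_coe_apply (f := fun x : ℝ => G (x + u * I)) (e.symm ▸ hx)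
  have fo : ∀ (n : ℤ) (x : ℝ), fourier n (x : AddCircle (π / 2)) = ch n x := fun n x => by
    rw [fourier_coe_apply, ch]
    congr 1
    have : (π : ℂ) ≠ 0 := by exact_mod_cast Real.pi_ne_zero
    push_cast
    field_simp
    ring
  have hc : ∀ n, fourierCoeff f n = cf G n 0 * ch n (u * I) := fun n => by
    rw [← cf_eq hd hp n hu, fourierCoeff_eq_intervalIntegral _ _ (-(π / 4)), e, cf, smul_mul_assoc,
      ← intervalIntegral.integral_mul_const, one_div_div]
    congr 1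
    refine intervalIntegral.integral_congr_ae (.of_forall fun x hx => ?_)
    rw [uIoc_of_le (by linarith [q2])] at hx
    rw [hf x hx, fo, smul_eq_mul, mul_right_comm, ch, ch, ch, ← exp_add]
    congr 2
    push_cast
    ring
  have := has_pointwise_sum_fourier_series_of_summable (f := f) (hs.congr fun n => (hc n).symm) x
  rw [hf x hx] at this
  refine (congrArg (HasSum · _) (funext fun n => ?_)).mp this
  rw [hc, fo, smul_eq_mul, mul_assoc, ch, ch, ch, ← exp_add]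
  congr 2
  ring

theorem tail {a : ℤ → ℂ} {s : ℂ} {q : ℝ} (h : HasSum a s) (q0 : 0 ≤ q) (hq : q ≤ 1 / 2)
    (ha : ∀ n, ‖a n‖ ≤ β * q ^ n.natAbs) :
    ‖s - a 0‖ ≤ 4 * β * q ∧ ‖s - a 0 - (a 1 + a (-1))‖ ≤ 4 * β * q ^ 2 := by
  have b0 : 0 ≤ β := by simpa using (norm_nonneg _).trans (ha 0)
  have k : ∀ k : ℕ, ‖s + a 0 - ∑ i ∈ Finset.range k, (a i + a (-i))‖ ≤ 4 * β * q ^ k := fun k => by
    refine (((hasSum_nat_add_iff' k).2 h.nat_add_neg).norm_le_of_bounded
      ((hasSum_geometric_of_lt_one q0 (by linarith)).mul_left (2 * β * q ^ k)) fun n => ?_).trans ?_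
    · have h1 := ha (n + k : ℕ)
      have h2 := ha (-(n + k : ℕ))
      rw [Int.natAbs_neg] at h2
      rw [Int.natAbs_natCast, pow_add] at h1 h2
      refine (norm_add_le _ _).trans ?_
      linarith
    · have : (1 - q)⁻¹ ≤ 2 := inv_le_of_inv_le₀ (by norm_num) (by linarith)
      have := mul_le_mul_of_nonneg_left this (show 0 ≤ 2 * β * q ^ k by positivity)
      linarith
  refine ⟨by simpa using k 1, le_trans (le_of_eq ?_) (k 2)⟩
  congr 1
  simp [Finset.sum_range_succ]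
  ring

theorem expand (hd : DifferentiableOn ℂ G (Rc 1 η)) (hb : ∀ z ∈ Rc 1 η, ‖G z‖ ≤ β) (hp : Per G)
    {y u x : ℝ} (hy : y + 1 ≤ η) (hu : |u| ≤ y) (hx : x ∈ Ioc (-(π / 4)) (π / 4)) :
    ‖G (x + u * I) - cf G 0 0‖ ≤ 4 * β * Real.exp (4 * (y - η) + 2) ∧
      ‖G (x + u * I) - cf G 0 0 - (cf G 1 0 * ch 1 (x + u * I) + cf G (-1) 0 * ch (-1) (x + u * I))‖
        ≤ 4 * β * Real.exp (4 * (y - η) + 2) ^ 2 := by
  have y0 := (abs_nonneg u).trans hu
  have hq : Real.exp (4 * (y - η) + 2) ≤ 1 / 2 := by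
    refine (Real.exp_le_exp.2 (show _ ≤ -1 by linarith)).trans ?_
    rw [Real.exp_neg, one_div]
    exact inv_anti₀ two_pos (by linarith [Real.add_one_le_exp 1])
  have ha : ∀ (x : ℝ) (n : ℤ), ‖cf G n 0 * ch n (x + u * I)‖ ≤
      β * Real.exp (4 * (y - η) + 2) ^ n.natAbs := fun x n => by
    have k : ∀ v : ℝ, |v| < η → ‖cf G n 0‖ ≤ β * Real.exp (4 * n * v) := fun v hv =>
      cf_eq hd hp n hv ▸ cf_le (fun x hx => hb _ (mem_rc hx hv)) n
    have b0 : 0 ≤ β := by simpa using (norm_nonneg _).trans (k 0 (by simp; linarith))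
    obtain ⟨u1, u2⟩ := abs_le.1 hu
    rw [norm_mul, norm_ch, ← Real.exp_nat_mul, Nat.cast_natAbs, Int.cast_abs]
    rcases le_total 0 (n : ℝ) with h | h
    · refine (mul_le_mul_of_nonneg_right (k (-(η - 1 / 2)) (abs_lt.2 ⟨by linarith, by linarith⟩))
        (by positivity)).trans ?_
      rw [mul_assoc, ← Real.exp_add, abs_of_nonneg h]
      gcongr
      nlinarith
    · refine (mul_le_mul_of_nonneg_right (k (η - 1 / 2) (abs_lt.2 ⟨by linarith, by linarith⟩))
        (by positivity)).trans ?_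
      rw [mul_assoc, ← Real.exp_add, abs_of_nonpos h]
      gcongr
      nlinarith
  have hs : Summable fun n => cf G n 0 * ch n (u * I) := by
    refine Summable.of_norm_bounded (g := fun n : ℤ => β * Real.exp (4 * (y - η) + 2) ^ n.natAbs)
      (Summable.mul_left _ ?_) fun n => by simpa using ha 0 n
    have := summable_geometric_of_lt_one (Real.exp_pos _).le (hq.trans_lt (by norm_num))
    exact .of_nat_of_neg (by simpa using this) (by simpa using this)
  simpa [ch] using tail (cf_sum hd hp (by linarith) hx hs) (Real.exp_pos _).le hq (ha x)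

theorem red (hp : Per G) {x : ℝ} (hx : |x| < 1) : ∃ x' ∈ Ioc (-(π / 4)) (π / 4), G x = G x' := by
  obtain ⟨h1, h2⟩ := abs_lt.1 hx
  have := q1
  have := q3
  by_cases c : x ≤ -(π / 4)
  · exact ⟨x + π / 2, ⟨by linarith, by linarith⟩,
      (hp x hx (abs_lt.2 ⟨by linarith, by linarith⟩)).symm⟩
  · by_cases c' : x ≤ π / 4
    · exact ⟨x, ⟨not_le.1 c, c'⟩, rfl⟩
    · refine ⟨x - π / 2, ⟨by linarith, by linarith⟩, ?_⟩
      have := hp (x - π / 2) (abs_lt.2 ⟨by linarith, by linarith⟩) (by rwa [sub_add_cancel])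
      rwa [sub_add_cancel] at this

theorem z0 : (0 : ℝ) ∈ Ioc (-(π / 4)) (π / 4) := ⟨neg_neg_of_pos q2, q2.le⟩

end KC

open KC

/-- spin counting, growth below the first harmonic -/
theorem lau1 : ∃ C : ℝ, ∀ (G : ℂ → ℂ) (η β : ℝ), 1 ≤ η → DifferentiableOn ℂ G (Rc 1 η) →
    (∀ z ∈ Rc 1 η, ‖G z‖ ≤ β) → (∀ x : ℝ, |x| < 1 → |x + Real.pi / 2| < 1 → G (x + Real.pi / 2 : ℝ) = G x) →
    ∀ x : ℝ, |x| < 1 → ‖G x - G 0‖ ≤ C * β * Real.exp (-4 * η) := by
  refine ⟨8 * Real.exp 2, fun G η β h1 hd hb hp x hx => ?_⟩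
  obtain ⟨x', hx', e⟩ := red hp hx
  have a := (expand (y := 0) (u := 0) hd hb hp (by linarith) (by simp) hx').1
  have b := (expand (y := 0) (u := 0) hd hb hp (by linarith) (by simp) z0).1
  simp only [ofReal_zero, zero_mul, add_zero, Real.exp_add, zero_sub, mul_neg] at a b
  rw [e, neg_mul]
  linarith [norm_sub_le_norm_sub_add_norm_sub (G x') (cf G 0 0) (G 0), norm_sub_rev (G 0) (cf G 0 0)]

/-- spin counting, growth below the second harmonic -/
theorem lau2 : ∃ C : ℝ, ∀ (G : ℂ → ℂ) (η β B y : ℝ), 0 ≤ y → y + 1 ≤ η → DifferentiableOn ℂ G (Rc 1 η) →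
    (∀ z ∈ Rc 1 η, ‖G z‖ ≤ β) → (∀ x : ℝ, |x| < 1 → |x + Real.pi / 2| < 1 → G (x + Real.pi / 2 : ℝ) = G x) →
    (∀ x : ℝ, |x| < 1 → ‖G x‖ ≤ B) → (∀ u : ℝ, |u| < η → 0 ≤ (G (u * I)).re ∧ (G (u * I)).im = 0 ∧
      0 ≤ (G ((Real.pi / 4 : ℝ) + u * I)).re ∧ (G ((Real.pi / 4 : ℝ) + u * I)).im = 0) →
    ∀ x : ℝ, |x| < 1 → ‖G x - G 0‖ ≤ C * (B * Real.exp (-4 * y) + β * Real.exp (8 * (y - η))) := by
  refine ⟨56 * Real.exp 4, fun G η β B y y0 h1 hd hb hp hB hs x hx => ?_⟩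
  obtain ⟨τ, hτ⟩ : ∃ τ, τ = 4 * β * Real.exp (4 * (y - η) + 2) ^ 2 := ⟨_, rfl⟩
  have ex := fun {u x : ℝ} hu hx => hτ ▸ (expand (u := u) (x := x) hd hb hp h1 hu hx).2
  have c : ∀ n, ‖cf G n 0‖ ≤ B := fun n => by
    simpa using cf_le (y := 0) (fun x hx => by simpa using hB x (hx.trans_lt q1)) n
  have t0 : 0 ≤ τ := (norm_nonneg _).trans (ex (u := 0) (by simpa) z0)
  have B0 : 0 ≤ B := (norm_nonneg _).trans (c 0)
  have k : ∀ u : ℝ, |u| ≤ y →
      ‖cf G 1 0 * ch 1 (u * I) + cf G (-1) 0 * ch (-1) (u * I)‖ ≤ 3 * B + 3 * τ := fun u hu => by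
    have a := ex hu z0
    have b := ex hu ⟨by linarith [q2], le_rfl⟩
    have e : ∀ n : ℤ, n = 1 ∨ n = -1 → ch n ((π / 4 : ℝ) + u * I) = -ch n (u * I) := by
      rintro n (rfl | rfl)
      · rw [ch, ch, ← exp_add_pi_mul_I]
        congr 1
        push_cast
        ring
      · rw [ch, ch, ← exp_sub_pi_mul_I]
        congr 1
        push_cast
        ring
    rw [e 1 (.inl rfl), e (-1) (.inr rfl)] at b
    rw [ofReal_zero, zero_add] at a
    obtain ⟨s1, s2, s3, s4⟩ := hs u (by linarith)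
    have c0 := c 0
    generalize G (u * I) = g at *
    generalize G ((π / 4 : ℝ) + u * I) = g' at *
    generalize cf G 0 0 = c₀ at *
    rw [mul_neg, mul_neg, ← neg_add] at b
    generalize cf G 1 0 * ch 1 (u * I) + cf G (-1) 0 * ch (-1) (u * I) = A at *
    have n1 : ‖g‖ = g.re := by rw [← abs_re_eq_norm.2 s2, abs_of_nonneg s1]
    have n2 := re_le_norm (g - c₀ - A)
    have n3 := re_le_norm (g' - c₀ - -A)
    have n4 := re_le_norm c₀
    have n5 := norm_sub_le (g - c₀) (g - c₀ - A)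
    have n6 := norm_sub_le g c₀
    rw [sub_sub_cancel] at n5
    simp only [sub_re, neg_re] at n2 n3
    linarith
  have r : ∀ a b : ℂ, ∀ s t : ℂ, ‖b‖ ≤ B → ‖s‖ = Real.exp (4 * y) → ‖t‖ = Real.exp (-4 * y) →
      ‖a * s + b * t‖ ≤ 3 * B + 3 * τ → ‖a‖ ≤ 4 * (B * Real.exp (-4 * y)) + 3 * τ := by
    intro a b s t h2 h3 h4 h5
    have e1 : Real.exp (-4 * y) ≤ 1 := Real.exp_le_one_iff.2 (by linarith)
    have e2 : Real.exp (4 * y) * Real.exp (-4 * y) = 1 := by rw [← Real.exp_add]; simp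
    have e3 := Real.exp_pos (-4 * y)
    have h6 := norm_sub_le (a * s + b * t) (b * t)
    rw [add_sub_cancel_right, norm_mul, norm_mul, h3, h4] at h6
    have h7 : ‖b‖ * Real.exp (-4 * y) ≤ B := by nlinarith [norm_nonneg b]
    calc ‖a‖ = ‖a‖ * Real.exp (4 * y) * Real.exp (-4 * y) := by rw [mul_assoc, e2, mul_one]
      _ ≤ (4 * B + 3 * τ) * Real.exp (-4 * y) := by gcongr; linarith
      _ ≤ _ := by nlinarith
  have nc : ∀ (n : ℤ) (u : ℝ), ‖ch n (u * I)‖ = Real.exp (-4 * n * u) := fun n u => by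
    simpa using norm_ch n 0 u
  have c1 := r _ _ _ _ (c (-1)) (by rw [nc]; simp) (by rw [nc]; simp)
    (k (-y) (by rw [abs_neg, abs_of_nonneg y0]))
  have c2 := r _ _ _ _ (c 1) (by rw [nc]; simp) (by rw [nc]; simp)
    (add_comm (cf G 1 0 * _) _ ▸ k y (by rw [abs_of_nonneg y0]))
  have d : ∀ x ∈ Ioc (-(π / 4)) (π / 4),
      ‖G x - cf G 0 0‖ ≤ 8 * (B * Real.exp (-4 * y)) + 7 * τ := fun x hx => by
    have a := ex (u := 0) (by simpa) hx
    have b := norm_add_le (cf G 1 0 * ch 1 (x + (0 : ℝ) * I)) (cf G (-1) 0 * ch (-1) (x + (0 : ℝ) * I))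
    rw [norm_mul, norm_mul, norm_ch, norm_ch] at b
    have := norm_le_norm_sub_add (G (x + (0 : ℝ) * I) - cf G 0 0)
      (cf G 1 0 * ch 1 (x + (0 : ℝ) * I) + cf G (-1) 0 * ch (-1) (x + (0 : ℝ) * I))
    simp only [mul_zero, Real.exp_zero, mul_one, ofReal_zero, zero_mul, add_zero] at a b this
    linarith
  obtain ⟨x', hx', e⟩ := red hp hx
  have a := d _ hx'
  have b := d _ z0
  have e1 : τ = 4 * Real.exp 4 * (β * Real.exp (8 * (y - η))) := by
    rw [hτ, sq, ← Real.exp_add, show 4 * (y - η) + 2 + (4 * (y - η) + 2) = 4 + 8 * (y - η) by ring,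
      Real.exp_add]
    ring
  have e2 : B * Real.exp (-4 * y) ≤ Real.exp 4 * (B * Real.exp (-4 * y)) :=
    le_mul_of_one_le_left (by positivity) (Real.one_le_exp (by norm_num))
  have e3 : 0 ≤ B * Real.exp (-4 * y) := by positivity
  rw [ofReal_zero] at b
  rw [e]
  linarith [norm_sub_le_norm_sub_add_norm_sub (G x') (cf G 0 0) (G 0), norm_sub_rev (G 0) (cf G 0 0)]

end Pool.Agent.Lib.MP_7f377f_mp.S10
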