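import Pool.Agent.Lib.MP_7f377f_mp.S10KA

/-! Self adjoint contraction semigroups are holomorphic. -/

noncomputable section

namespace Pool.Agent.Lib.MP_7f377f_mp.S10

open Set Filter Topology Complex ComplexConjugate

variable {B : Type} [CStarAlgebra B] [PartialOrder B] [StarOrderedRing B]

theorem sg_alg {T : ℝ → B} (hs : ∀ t > 0, IsSelfAdjoint (T t)) (hn : ∀ t > 0, ‖T t‖ ≤ 1)
    (hm : ∀ s > 0, ∀ t > 0, T (s + t) = T s * T t) :
    ∃ A : ℂ → B, DifferentiableOn ℂ A {z | 0 < z.re} ∧ (∀ z, 0 < z.re → ‖A z‖ ≤ 1) ∧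
      ∀ t : ℝ, 0 < t → A t = T t := by
  rcases subsingleton_or_nontrivial B with _ | _
  · exact ⟨fun _ => 0, differentiableOn_const _, by simp, fun _ _ => Subsingleton.elim _ _⟩
  have p0 : ∀ {T : ℝ → B}, (∀ t > 0, IsSelfAdjoint (T t)) → (∀ s > 0, ∀ t > 0, T (s + t) = T s * T t) →
      ∀ t > 0, 0 ≤ T t := fun {T} hs hm t ht => by
    have := star_mul_self_nonneg (T (t / 2))
    rwa [(hs _ (half_pos ht)).star_eq, ← hm _ (half_pos ht) _ (half_pos ht), add_halves] at this
  have ha := hs 1 one_pos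
  have hN : IsStarNormal (T 1) := ha.isStarNormal
  have sp : ∀ x ∈ spectrum ℂ (T 1), x = x.re ∧ 0 ≤ x.re ∧ x.re ≤ 1 := fun x hx =>
    ⟨ha.mem_spectrum_eq_re hx, spectrum_nonneg_of_nonneg (p0 hs hm 1 one_pos)
      (ha.spectrumRestricts.apply_mem hx), (re_le_norm x).trans
      ((spectrum.norm_le_norm_of_mem hx).trans (hn 1 one_pos))⟩
  let f : ℂ → ℂ → ℂ := fun z x => (x.re : ℂ) ^ z
  have fc : ∀ z : ℂ, 0 < z.re → Continuous (f z) := fun z hz =>
    (continuous_ofReal_cpow_const hz).comp continuous_re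
  let A : ℂ → B := fun z => cfc (f z) (T 1)
  have o : IsOpen {z : ℂ | 0 < z.re} := isOpen_lt continuous_const continuous_re
  have dA : DifferentiableOn ℂ A {z | 0 < z.re} := by
    have : DifferentiableOn ℂ (fun z => ContinuousMap.mkD ((spectrum ℂ (T 1)).domRestrict (f z)) 0)
        {z | 0 < z.re} := by
      refine w2s (fun x => ContinuousMap.evalCLM ℂ x) (fun g hg => by ext x; exact hg x) o
        (ContinuousMap.continuousOn_mkD_restrict_of_uncurry _ _ fun p hp => ?_) fun x => ?_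
      · exact ContinuousAt.continuousWithinAt ((continuousAt_ofReal_cpow p.2.re p.1
          (.inl hp.1)).comp_of_eq (f := fun p : ℂ × ℂ => (p.2.re, p.1)) (by fun_prop) rfl)
      · refine DifferentiableOn.congr (f := fun z => f z x) (fun z hz => ?_) fun z hz => ?_
        · by_cases e : (x.1.re : ℂ) = 0
          · refine (differentiableOn_const (0 : ℂ)).congr (fun w hw => ?_) z hz
            simp only [f, e]
            exact zero_cpow fun e' => by simp [e'] at hw
          · exact (differentiableAt_id.const_cpow (.inl e)).differentiableWithinAt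
        · rw [ContinuousMap.mkD_of_continuousOn (fc z hz).continuousOn]
          rfl
    exact ((cfcL hN).differentiable.comp_differentiableOn this).congr fun z _ =>
      cfc_eq_cfcL_mkD _ _
  have As : ∀ t : ℝ, t > 0 → IsSelfAdjoint (A t) := fun t ht => by
    rw [IsSelfAdjoint, ← cfc_star]
    refine cfc_congr fun x hx => ?_
    simp only [f, ← ofReal_cpow (sp x hx).2.1]
    exact conj_ofReal _
  have Am : ∀ s : ℝ, s > 0 → ∀ t : ℝ, t > 0 → A (s + t : ℝ) = A s * A t := fun s hs t ht => by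
    rw [← cfc_mul _ _ _ (fc s hs).continuousOn (fc t ht).continuousOn]
    refine cfc_congr fun x hx => ?_
    simp only [f, ← ofReal_cpow (sp x hx).2.1, ← ofReal_mul]
    rw [Real.rpow_add' (sp x hx).2.1 (add_pos hs ht).ne']
  have d0 : ∀ n : ℕ, A ((2 ^ n)⁻¹ : ℝ) = T (2 ^ n)⁻¹ := fun n => by
    induction n with
    | zero =>
      simp only [pow_zero, inv_one, ofReal_one, A, f, cpow_one]
      exact (cfc_congr fun x hx => (sp x hx).1.symm).trans (cfc_id ℂ (T 1))
    | succ n ih =>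
      have q : (0 : ℝ) < (2 ^ (n + 1))⁻¹ := by positivity
      rw [← CFC.mul_self_eq_mul_self_iff _ _ (p0 As Am _ q) (p0 hs hm _ q), ← Am _ q _ q,
        ← hm _ q _ q, show ((2 : ℝ) ^ (n + 1))⁻¹ + (2 ^ (n + 1))⁻¹ = (2 ^ n)⁻¹ by
          rw [pow_succ]; field_simp; norm_num, ih]
  have d1 : ∀ n k : ℕ, 0 < k → A (k / 2 ^ n : ℝ) = T (k / 2 ^ n) := fun n k hk => by
    induction k, hk using Nat.le_induction with
    | base => simpa using d0 n
    | succ k hk ih =>
      have q : (0 : ℝ) < k / 2 ^ n := by positivity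
      rw [Nat.cast_succ, add_div, one_div, Am _ q _ (by positivity), hm _ q _ (by positivity), ih, d0]
  have mo : ∀ s > 0, ∀ t, s ≤ t → T t ≤ T s := fun s h t ht => by
    rcases ht.eq_or_lt with rfl | ht
    · rfl
    have q := sub_pos.2 ht
    have := (hs _ (half_pos h)).conjugate_le_conjugate
      ((CStarAlgebra.norm_le_one_iff_of_nonneg _ (p0 hs hm _ q)).1 (hn _ q))
    rwa [mul_one, ← hm _ (half_pos h) _ q, ← hm _ (by positivity) _ (half_pos h),
      ← hm _ (half_pos h) _ (half_pos h), add_halves, show s / 2 + (t - s) + s / 2 = t by ring] at this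
  refine ⟨A, dA, fun z hz => norm_cfc_le zero_le_one fun x hx => ?_, fun t ht => ?_⟩
  · rw [norm_cpow_eq_rpow_re_of_nonneg (sp x hx).2.1 hz.ne']
    exact Real.rpow_le_one (sp x hx).2.1 (sp x hx).2.2 hz.le
  have cA : ContinuousAt (fun s : ℝ => A s) t := (dA.continuousOn.continuousAt
    (o.mem_nhds (show 0 < (t : ℂ).re from ht))).comp continuous_ofReal.continuousAt
  have t2 := tendsto_pow_atTop_atTop_of_one_lt (one_lt_two (α := ℝ))
  have l1 := (tendsto_nat_floor_mul_div_atTop ht.le).comp t2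
  have l2 := (tendsto_nat_ceil_mul_div_atTop ht.le).comp t2
  refine le_antisymm (le_of_tendsto' (cA.tendsto.comp l2) fun n => ?_)
    (ge_of_tendsto (cA.tendsto.comp l1) ?_)
  · simp only [Function.comp_apply]
    rw [d1 _ _ (Nat.ceil_pos.2 (by positivity))]
    exact mo t ht _ ((le_div_iff₀ (by positivity)).2 (Nat.le_ceil _))
  · filter_upwards [l1.eventually_const_lt ht] with n hn
    simp only [Function.comp_apply] at hn ⊢
    rw [d1 _ _ (by exact_mod_cast (div_pos_iff_of_pos_right (by positivity)).1 hn)]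
    exact mo _ hn t ((div_le_iff₀ (by positivity)).2 (Nat.floor_le (by positivity)))

variable {H : Type} [NormedAddCommGroup H] [InnerProductSpace ℂ H] [CompleteSpace H]

/-- self adjoint contraction semigroups are holomorphic -/
theorem sg {T : ℝ → H →L[ℂ] H} (hs : ∀ t > 0, IsSelfAdjoint (T t)) (hn : ∀ t > 0, ‖T t‖ ≤ 1)
    (hm : ∀ s > 0, ∀ t > 0, T (s + t) = T s * T t) :
    ∃ A : ℂ → H →L[ℂ] H, DifferentiableOn ℂ A {z | 0 < z.re} ∧ (∀ z, 0 < z.re → ‖A z‖ ≤ 1) ∧
      ∀ t : ℝ, 0 < t → A t = T t := sg_alg hs hn hm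

/-- bounded holomorphic extension to the right half plane -/
def Hol (f : ℝ → ℂ) (M : ℝ) : Prop := ∃ g : ℂ → ℂ, DifferentiableOn ℂ g {z | 0 < z.re} ∧
  (∀ z, 0 < z.re → ‖g z‖ ≤ M) ∧ ∀ t : ℝ, 0 < t → g t = f t

theorem Hol.congr {f f' : ℝ → ℂ} {M M' : ℝ} (h : Hol f M) (e : ∀ t > 0, f t = f' t) (hM : M ≤ M') :
    Hol f' M' :=
  let ⟨g, h1, h2, h3⟩ := h
  ⟨g, h1, fun z hz => (h2 z hz).trans hM, fun t ht => (h3 t ht).trans (e t ht)⟩

theorem Hol.scale {f : ℝ → ℂ} {M c : ℝ} (h : Hol f M) (c0 : 0 < c) : Hol (fun t => f (c * t)) M :=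
  let ⟨g, h1, h2, h3⟩ := h
  have e : ∀ z : ℂ, 0 < z.re → 0 < (c * z).re := fun z hz => by simpa using mul_pos c0 hz
  ⟨fun z => g (c * z), h1.comp (by fun_prop) e, fun z hz => h2 _ (e z hz), fun t ht => by
    simpa using h3 _ (mul_pos c0 ht)⟩

/-- matrix elements of a self adjoint contraction semigroup -/
theorem hol_sg {T : ℝ → H →L[ℂ] H} (hs : ∀ t > 0, IsSelfAdjoint (T t)) (hn : ∀ t > 0, ‖T t‖ ≤ 1)
    (hm : ∀ s > 0, ∀ t > 0, T (s + t) = T s * T t) (x y : H) :
    Hol (fun t => inner ℂ x (T t y)) (‖x‖ * ‖y‖) :=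
  let ⟨A, h1, h2, h3⟩ := sg hs hn hm
  ⟨fun z => inner ℂ x (A z y), (innerSL ℂ x).differentiable.comp_differentiableOn
    (h1.clm_apply (differentiableOn_const y)), fun z hz => (norm_inner_le_norm _ _).trans
      (mul_le_mul_of_nonneg_left (((A z).le_of_opNorm_le (h2 z hz) y).trans_eq (one_mul _))
        (norm_nonneg _)), fun t ht => by simp only [h3 t ht]⟩

end Pool.Agent.Lib.MP_7f377f_mp.S10
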