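import Mathlib

/-! Weak holomorphy, identity theorems, continuation of vector valued functions from kernels. -/

noncomputable section

namespace Pool.Agent.Lib.MP_7f377f_mp.S10

open Set Filter Topology Complex ComplexConjugate Metric BoundedContinuousFunction

/-- rectangles centred at the origin -/
def Rc (a b : ℝ) : Set ℂ := {z | |z.re| < a ∧ |z.im| < b}

variable {E : Type} [NormedAddCommGroup E] [NormedSpace ℂ E] [CompleteSpace E]
  {H : Type} [NormedAddCommGroup H] [InnerProductSpace ℂ H] [CompleteSpace H]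

theorem rc_open (a b : ℝ) : IsOpen (Rc a b) :=
  (isOpen_lt continuous_re.abs continuous_const).inter (isOpen_lt continuous_im.abs continuous_const)

theorem rc_convex (a b : ℝ) : Convex ℝ (Rc a b) := by
  have e : Rc a b = ({z : ℂ | -a < z.re} ∩ {z | z.re < a}) ∩ ({z | -b < z.im} ∩ {z | z.im < b}) := by
    ext z
    simp [Rc, abs_lt]
  rw [e]
  exact ((convex_halfSpace_re_gt _).inter (convex_halfSpace_re_lt _)).inter
    ((convex_halfSpace_im_gt _).inter (convex_halfSpace_im_lt _))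

theorem rc_conj {a b : ℝ} {z : ℂ} (h : z ∈ Rc a b) : conj z ∈ Rc a b := by
  simpa [Rc] using h

theorem rc_neg {a b : ℝ} {z : ℂ} (h : z ∈ Rc a b) : -z ∈ Rc a b := by
  simpa [Rc] using h

theorem rc_real {a b x : ℝ} (h : |x| < a) (b0 : 0 < b) : (x : ℂ) ∈ Rc a b := by
  simpa [Rc, b0] using h

theorem rc_at {F : Type} [NormedAddCommGroup F] [NormedSpace ℂ F] {f : ℂ → F} {a b : ℝ} {z : ℂ}
    (hf : DifferentiableOn ℂ f (Rc a b)) (h : z ∈ Rc a b) : DifferentiableAt ℂ f z :=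
  hf.differentiableAt ((rc_open a b).mem_nhds h)

theorem w2s {ι : Type} (L : ι → E →L[ℂ] ℂ) (hL : ∀ x, (∀ i, L i x = 0) → x = 0) {f : ℂ → E}
    {U : Set ℂ} (hU : IsOpen U) (hc : ContinuousOn f U)
    (hd : ∀ i, DifferentiableOn ℂ (fun z => L i (f z)) U) : DifferentiableOn ℂ f U := by
  intro c hc'
  obtain ⟨R, R0, hR⟩ := nhds_basis_closedBall.mem_iff.1 (hU.mem_nhds hc')
  lift R to NNReal using R0.le
  have i1 : CircleIntegrable f c R :=
    (hc.mono (sphere_subset_closedBall.trans hR)).circleIntegrable R.2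
  have h1 := (hasFPowerSeriesOn_cauchy_integral i1 (by exact_mod_cast R0)).analyticAt
  refine (h1.differentiableAt.congr_of_eventuallyEq ?_).differentiableWithinAt
  filter_upwards [ball_mem_nhds c R0] with w hw
  rw [← sub_eq_zero]
  refine hL _ fun i => ?_
  have h2 := ((hd i).mono hR).circleIntegral_sub_inv_smul hw
  have i2 : CircleIntegrable (fun z => (z - w)⁻¹ • f z) c R := by
    refine ContinuousOn.circleIntegrable R.2 (ContinuousOn.smul (ContinuousOn.inv₀ (by fun_prop)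
      fun z hz e => ?_) (hc.mono (sphere_subset_closedBall.trans hR)))
    rw [sub_eq_zero.1 e] at hz
    exact (mem_ball.1 hw).ne hz
  have h3 : L i (∮ z in C(c, R), (z - w)⁻¹ • f z) = ∮ z in C(c, R), (z - w)⁻¹ • L i (f z) := by
    simp only [circleIntegral]
    rw [← (L i).intervalIntegral_comp_comm i2.out]
    simp
  rw [map_sub, map_smul, h3, h2, smul_smul, inv_mul_cancel₀ two_pi_I_ne_zero, one_smul, sub_self]

/-- identity theorem along a line -/
theorem id_line {f g : ℂ → E} {U : Set ℂ} (hU : IsOpen U) (hc : IsPreconnected U)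
    (hf : DifferentiableOn ℂ f U) (hg : DifferentiableOn ℂ g U) {z d : ℂ} (hz : z ∈ U) (hd : d ≠ 0)
    (h : ∀ᶠ x : ℝ in 𝓝[>] 0, f (z + x * d) = g (z + x * d)) : EqOn f g U := by
  refine (hf.analyticOnNhd hU).eqOn_of_preconnected_of_frequently_eq (hg.analyticOnNhd hU) hc hz ?_
  have t : Tendsto (fun x : ℝ => z + x * d) (𝓝[>] 0) (𝓝[≠] z) := by
    refine tendsto_nhdsWithin_iff.2 ⟨tendsto_nhdsWithin_of_tendsto_nhds ?_, ?_⟩
    · exact Continuous.tendsto' (by fun_prop) _ _ (by simp)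
    · filter_upwards [self_mem_nhdsWithin] with x hx
      simpa [hd] using (show (0 : ℝ) < x from hx).ne'
  exact t.frequently h.frequently

/-- identity theorem on rectangles -/
theorem rc_id {f g : ℂ → E} {a b δ : ℝ} (hf : DifferentiableOn ℂ f (Rc a b))
    (hg : DifferentiableOn ℂ g (Rc a b)) (δ0 : 0 < δ) (h : ∀ x : ℝ, |x| < δ → f x = g x) :
    EqOn f g (Rc a b) := fun z hz => by
  refine id_line (z := 0) (d := 1) (rc_open a b) (rc_convex a b).isPreconnected hf hg
    ⟨by simpa using (abs_nonneg _).trans_lt hz.1, by simpa using (abs_nonneg _).trans_lt hz.2⟩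
    one_ne_zero ?_ hz
  filter_upwards [Ioo_mem_nhdsGT δ0] with x hx
  simpa using h x (by rw [abs_of_pos hx.1]; exact hx.2)

omit [CompleteSpace H] in
/-- `z ↦ ⟪f (conj z), g z⟫` is holomorphic -/
theorem diff_inner {f g : ℂ → H} {z : ℂ} (hf : DifferentiableAt ℂ f (conj z))
    (hg : DifferentiableAt ℂ g z) :
    DifferentiableAt ℂ (fun w => inner ℂ (f (conj w)) (g w)) z := by
  have h := hf.comp_semilinear₁ (starRingEnd ℂ) (innerSL ℂ (E := H))
  rw [conj_conj] at h
  exact h.clm_apply hg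

/-- the unit ball of the bounded holomorphic functions -/
def Ix (U : Set ℂ) : Type := {h : ℂ → ℂ // DifferentiableOn ℂ h U ∧ ∀ z ∈ U, ‖h z‖ ≤ 1}

instance (U : Set ℂ) : TopologicalSpace (Ix U) := ⊥

instance (U : Set ℂ) : DiscreteTopology (Ix U) := ⟨rfl⟩

/-- evaluation -/
def evx (U : Set ℂ) (w : ℂ) : Ix U →ᵇ ℂ :=
  ofNormedAddCommGroupDiscrete (fun h => U.indicator h.1 w) 1 fun h => by
    by_cases e : w ∈ U
    · rw [indicator_of_mem e]
      exact h.2.2 w e
    · simp [e]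

theorem evx_apply {U : Set ℂ} {w : ℂ} (e : w ∈ U) (h : Ix U) : evx U w h = h.1 w :=
  indicator_of_mem e _

theorem evx_diff {U : Set ℂ} (hU : IsOpen U) : DifferentiableOn ℂ (evx U) U := by
  refine w2s (fun h => evalCLM ℂ h) (fun x hx => by ext h; exact hx h) hU (fun c hc => ?_)
    fun h => h.2.1.congr fun z hz => evx_apply hz h
  obtain ⟨R, R0, hR⟩ := Metric.mem_nhds_iff.1 (hU.mem_nhds hc)
  refine ContinuousAt.continuousWithinAt (tendsto_iff_dist_tendsto_zero.2 (squeeze_zero'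
    (.of_forall fun _ => dist_nonneg) (g := fun z => 2 / R * dist z c) ?_ ?_))
  · filter_upwards [ball_mem_nhds c R0] with z hz
    refine (dist_le (by positivity)).2 fun h => ?_
    rw [evx_apply (hR hz), evx_apply hc]
    refine dist_le_div_mul_dist_of_mapsTo_ball (h.2.1.mono hR) (fun y hy => ?_) hz
    rw [mem_closedBall, dist_eq_norm]
    linarith [norm_sub_le (h.1 y) (h.1 c), h.2.2 y (hR hy), h.2.2 c hc]
  · exact Continuous.tendsto' (by fun_prop) _ _ (by simp)

theorem evx_sum {U : Set ℂ} {ι : Type} (s : Finset ι) (c : ι → ℂ) {x : ι → ℂ} (hx : ∀ i, x i ∈ U)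
    {h : ℂ → ℂ} (hd : DifferentiableOn ℂ h U) {M : ℝ} (M0 : 0 ≤ M) (hM : ∀ z ∈ U, ‖h z‖ ≤ M) :
    ‖∑ i ∈ s, c i * h (x i)‖ ≤ M * ‖∑ i ∈ s, c i • evx U (x i)‖ := by
  rcases M0.eq_or_lt with rfl | M1
  · simp [fun i => norm_le_zero_iff.1 (hM _ (hx i))]
  obtain ⟨k, hk⟩ : ∃ k : Ix U, k.1 = fun z => (M : ℂ)⁻¹ * h z := ⟨⟨_, hd.const_mul _, fun z hz => by
      rw [norm_mul, norm_inv, norm_real, Real.norm_of_nonneg M0, inv_mul_le_iff₀ M1, mul_one]
      exact hM z hz⟩, rfl⟩
  have h1 := norm_coe_le_norm (∑ i ∈ s, c i • evx U (x i)) k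
  simp only [coe_sum, Finset.sum_apply, BoundedContinuousFunction.coe_smul, evx_apply (hx _), hk,
    smul_eq_mul, mul_left_comm _ (M : ℂ)⁻¹, ← Finset.mul_sum, norm_mul, norm_inv, norm_real,
    Real.norm_of_nonneg M0] at h1
  rwa [inv_mul_le_iff₀ M1] at h1

/-- continuation of a vector valued function from its kernel -/
theorem kc {ψ : ℝ → H} {K : ℂ → ℂ → ℂ} {a b δ M : ℝ} (δ0 : 0 < δ) (hδ : δ ≤ a) (b0 : 0 < b)
    (h1 : ∀ z ∈ Rc a b, DifferentiableOn ℂ (K z) (Rc a b))
    (h2 : ∀ w ∈ Rc a b, DifferentiableOn ℂ (fun z => K z w) (Rc a b))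
    (hM : ∀ z ∈ Rc a b, ∀ w ∈ Rc a b, ‖K z w‖ ≤ M)
    (hK : ∀ x y : ℝ, |x| < δ → |y| < δ → K x y = inner ℂ (ψ x) (ψ y)) :
    ∃ φ : ℂ → H, DifferentiableOn ℂ φ (Rc a b) ∧ (∀ x : ℝ, |x| < δ → φ x = ψ x) ∧
      ∀ z ∈ Rc a b, ∀ w ∈ Rc a b, inner ℂ (φ (conj z)) (φ w) = K z w := by
  classical
  let J := {x : ℝ // |x| < δ}
  have hJ : ∀ x : J, ((x : ℝ) : ℂ) ∈ Rc a b := fun x => rc_real (x.2.trans_le hδ) b0
  have M0 : 0 ≤ M := (norm_nonneg _).trans (hM _ (hJ ⟨0, by simpa⟩) _ (hJ ⟨0, by simpa⟩))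
  let e := Finsupp.linearCombination ℂ fun x : J => evx (Rc a b) (x : ℝ)
  let f := Finsupp.linearCombination ℂ fun x : J => ψ x
  let V := (LinearMap.range e).topologicalClosure
  have hV : IsClosed (V : Set (Ix (Rc a b) →ᵇ ℂ)) := Submodule.isClosed_topologicalClosure _
  have eV : ∀ l, e l ∈ V := fun l => Submodule.le_topologicalClosure _ ⟨l, rfl⟩
  have e1 : ∀ x : J, e (Finsupp.single x 1) = evx (Rc a b) (x : ℝ) := fun x => by simp [e]
  have d1 := evx_diff (rc_open a b)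
  have mV : ∀ z ∈ Rc a b, evx (Rc a b) z ∈ V := fun z hz => by
    rw [← Submodule.Quotient.mk_eq_zero]
    refine rc_id (f := fun z => V.mkQL (evx (Rc a b) z)) (g := fun _ => 0)
      (V.mkQL.differentiable.comp_differentiableOn d1) (differentiableOn_const _) δ0
      (fun x hx => ?_) hz
    exact (Submodule.Quotient.mk_eq_zero V).2 (e1 ⟨x, hx⟩ ▸ eV _)
  let e' := e.codRestrict V eV
  have de : DenseRange e' := by
    intro y
    rw [IsInducing.subtypeVal.closure_eq_preimage_closure_image, ← range_comp]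
    exact y.2
  have nb : ∀ l, ‖f l‖ ≤ √M * ‖e' l‖ := fun l => by
    refine le_of_sq_le_sq ?_ (by positivity)
    have g1 : DifferentiableOn ℂ (fun z => ∑ j ∈ l.support, l j * K z (j : ℝ)) (Rc a b) :=
      .fun_sum fun j _ => (h2 _ (hJ j)).const_mul _
    have g2 := evx_sum l.support l hJ (h := fun z => conj (∑ j ∈ l.support, l j * K (conj z) (j : ℝ)))
      (fun z hz => by
        have := (rc_at g1 (rc_conj hz)).conj_conj
        rw [conj_conj] at this
        exact this.differentiableWithinAt) (M := M * ‖e l‖) (by positivity) fun z hz => by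
        rw [norm_conj]
        exact evx_sum l.support l hJ (h1 _ (rc_conj hz)) M0 (hM _ (rc_conj hz))
    rw [mul_pow, Real.sq_sqrt M0, ← inner_self_eq_norm_sq (𝕜 := ℂ), sq, ← mul_assoc]
    refine (RCLike.re_le_norm _).trans (le_trans (le_of_eq ?_) g2)
    rw [← norm_conj, inner_conj_symm]
    refine congrArg _ ?_
    simp only [f, Finsupp.linearCombination_apply, Finsupp.sum, conj_ofReal,
      fun i j : J => hK i j i.2 j.2, inner_sum, sum_inner, inner_smul_left, inner_smul_right,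
      map_sum, map_mul, inner_conj_symm]
  let Λ := f.extendOfNorm e'
  let v : ℂ → V := fun z => if h : z ∈ Rc a b then ⟨_, mV z h⟩ else 0
  have hv : ∀ z ∈ Rc a b, (v z : Ix (Rc a b) →ᵇ ℂ) = evx (Rc a b) z := fun z hz => by simp [v, hz]
  have d2 : DifferentiableOn ℂ v (Rc a b) := by
    refine w2s (fun h => (evalCLM ℂ h).comp V.subtypeL) (fun x hx => by ext h; exact hx h)
      (rc_open a b) (IsInducing.subtypeVal.continuousOn_iff.2 (d1.continuousOn.congr hv))
      fun h => h.2.1.congr fun z hz => ?_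
    exact (congrArg (· h) (hv z hz)).trans (evx_apply hz h)
  have d3 : DifferentiableOn ℂ (fun z => Λ (v z)) (Rc a b) :=
    Λ.differentiable.comp_differentiableOn d2
  have r1 : ∀ x : ℝ, |x| < δ → Λ (v x) = ψ x := fun x hx => by
    rw [show v x = e' (Finsupp.single ⟨x, hx⟩ 1) from
      Subtype.ext ((hv _ (hJ ⟨x, hx⟩)).trans (e1 ⟨x, hx⟩).symm),
      LinearMap.extendOfNorm_eq de ⟨_, nb⟩]
    simp [f]
  refine ⟨_, d3, r1, fun z hz w hw => ?_⟩
  refine rc_id (f := fun z => inner ℂ (Λ (v (conj z))) (Λ (v w))) (g := fun z => K z w)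
    (fun z hz => (diff_inner (rc_at d3 (rc_conj hz)) (differentiableAt_const _)).differentiableWithinAt)
    (h2 w hw) δ0 (fun x hx => ?_) hz
  rw [conj_ofReal, r1 x hx]
  refine rc_id (f := fun w => inner ℂ (ψ x) (Λ (v w))) ((innerSL ℂ (ψ x)).differentiable.comp_differentiableOn d3)
    (h1 _ (hJ ⟨x, hx⟩)) δ0 (fun y hy => ?_) hw
  rw [r1 y hy, hK x y hx hy]

end Pool.Agent.Lib.MP_7f377f_mp.S10
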