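import Pool.Agent.Lib.MP_7f377f_mp.WeakLink

/-! Reflection positivity of the Wilson measure on tori of odd side. -/

namespace Pool.Agent.Lib.MP_7f377f_mp.Weak

open Coul MeasureTheory

set_option linter.unusedSectionVars false

variable {A : Type} [NormedRing A] [StarRing A] [NormedAlgebra ℝ A] [HS A]
variable {d L : ℕ} {G : Type} [Group G] [NeZero L] (ρ : G →* unitary A)

theorem dep_hol' {m : ℕ} (hL : m < L) (k i j : Fin d) (x : Site d L) (h1 : (x k).val ≤ m)
    (h2 : i = k ∨ j = k → (x k).val < m) : Dep m k fun U : Link d L → G => hol U x i j := by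
  intro U V h
  by_cases hij : i = j
  · simp only [hij, hol_self]
  have key : ∀ i j : Fin d, i ≠ j → (i = k ∨ j = k → (x k).val < m) →
      half m k (x + Pi.single i 1, j) := by
    intro i j hij h2
    by_cases hi : i = k
    · have := h2 (Or.inl hi)
      have e : ((x + Pi.single i 1 : Site d L) k).val = (x k).val + 1 := by
        rw [hi, Pi.add_apply, Pi.single_eq_same, val_add_one _ (by omega)]
      exact ⟨by simp only [e]; omega, fun hj => absurd (hi.trans hj.symm) hij⟩
    · have e : (x + Pi.single i 1 : Site d L) k = x k := by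
        rw [Pi.add_apply, Pi.single_eq_of_ne (Ne.symm hi), add_zero]
      exact ⟨by simp only [e]; omega, fun hj => by simp only [e]; exact h2 (Or.inr hj)⟩
  simp only [hol]
  rw [h (x, i) ⟨h1, fun hi => h2 (Or.inl hi)⟩, h (x, j) ⟨h1, fun hj => h2 (Or.inr hj)⟩,
    h _ (key i j hij h2), h _ (key j i (Ne.symm hij) fun h => h2 h.symm)]

/-- share of a plaquette in the positive half of the odd torus -/
noncomputable def cwo (m : ℕ) (k i j : Fin d) (x : Site d L) : ℝ :=
  if i = k ∨ j = k then (if (x k).val < m then 1 else 0) else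
    if (x k).val = 0 then 1 / 2 else if (x k).val ≤ m then 1 else 0

theorem cwo_add {m : ℕ} (hL : L = 2 * m + 1) (k i j : Fin d) (x : Site d L) :
    cwo m k i j x + cwo m k i j (rq k i j x) +
      (if (x k).val = m ∧ (i = k ∨ j = k) then 1 else 0) = 1 := by
  have h := ZMod.val_lt (x k)
  unfold cwo rq
  by_cases hk : i = k ∨ j = k
  · simp only [hk, if_true, rc_val, and_true]
    split_ifs <;> first | omega | norm_num
  · simp only [hk, if_false, rf_val, and_false]
    split_ifs <;> first | omega | norm_num

/-- the part of the action in the positive half of the odd torus -/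
noncomputable def acto (m : ℕ) (k : Fin d) (U : Link d L → G) : ℝ :=
  ∑ x, ∑ i, ∑ j, cwo m k i j x * qq ρ (hol U x i j)

theorem acto_add {m : ℕ} (hL : L = 2 * m + 1) (k : Fin d) (U : Link d L → G) :
    acto ρ m k U + acto ρ m k (refl k U) + 2 * ∑ e : Link d L,
      (if (e.1 k).val = m ∧ e.2 ≠ k then qq ρ (hol U e.1 k e.2) else 0) = act ρ U := by
  have : acto ρ m k (refl k U) =
      ∑ x, ∑ i, ∑ j, cwo m k i j (rq k i j x) * qq ρ (hol U x i j) := by
    rw [← sum_rq k]
    simp only [acto, qq_hol_refl, rq_rq]
  have e : ∀ x : Site d L, 2 * ∑ j, (if (x k).val = m ∧ j ≠ k then qq ρ (hol U x k j) else 0) =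
      ∑ i, ∑ j, (if (x k).val = m ∧ (i = k ∨ j = k) then 1 else 0) * qq ρ (hol U x i j) := by
    intro x
    have e1 : ∀ i j, (if (x k).val = m ∧ (i = k ∨ j = k) then 1 else 0) * qq ρ (hol U x i j) =
        (if i = k then (if (x k).val = m ∧ j ≠ k then qq ρ (hol U x k j) else 0) else 0) +
        if j = k then (if (x k).val = m ∧ i ≠ k then qq ρ (hol U x k i) else 0) else 0 := by
      intro i j
      by_cases hi : i = k <;> by_cases hj : j = k
      · simp [hi, hj, hol_self, qq_one]
      · simp [hi, hj]
      · simp [hi, hj, hol_swap U x k i, qq_inv]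
      · simp [hi, hj]
    simp only [e1, Finset.sum_add_distrib, Finset.sum_ite_eq', Finset.mem_univ, if_true]
    rw [Finset.sum_comm, two_mul]
    simp only [Finset.sum_ite_eq', Finset.mem_univ, if_true]
  rw [this, acto, act, Fintype.sum_prod_type, Finset.mul_sum, ← Finset.sum_add_distrib,
    ← Finset.sum_add_distrib]
  refine Finset.sum_congr rfl fun x _ => ?_
  rw [e, ← Finset.sum_add_distrib, ← Finset.sum_add_distrib]
  refine Finset.sum_congr rfl fun i _ => ?_
  rw [← Finset.sum_add_distrib, ← Finset.sum_add_distrib]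
  refine Finset.sum_congr rfl fun j _ => ?_
  rw [← add_mul, ← add_mul, cwo_add hL, one_mul]

theorem dep_acto {m : ℕ} (hL : m < L) (k : Fin d) : Dep m k (acto (L := L) ρ m k) := by
  intro U V h
  refine Finset.sum_congr rfl fun x _ => Finset.sum_congr rfl fun i _ =>
    Finset.sum_congr rfl fun j _ => ?_
  by_cases hc : (x k).val ≤ m ∧ (i = k ∨ j = k → (x k).val < m)
  · have := dep_hol' hL k i j x hc.1 hc.2 U V h
    simp only at this
    rw [this]
  · have : cwo m k i j x = 0 := by
      unfold cwo
      split_ifs <;> first | rfl | (exfalso; apply hc; constructor <;> omega)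
    rw [this, zero_mul, zero_mul]

theorem inner_rho (a b : G) :
    inner ℝ (ρ a : A) (ρ b : A) = HS.tr (1 : A) - qq ρ (a⁻¹ * b) / 2 := by
  rw [qq_eq, inner_def, rho_mul, rho_inv]; ring

variable [TopologicalSpace G] [IsTopologicalGroup G] [CompactSpace G]
  [SecondCountableTopology G] [MeasurableSpace G] [BorelSpace G] (μ : Measure G)
  [μ.IsHaarMeasure] [IsProbabilityMeasure μ]

theorem cont_ker {X κ : Type} [TopologicalSpace X] [Fintype κ] {f g : X → ℝ} {x y : X → κ → A}
    (hf : Continuous f) (hg : Continuous g) (hx : Continuous x) (hy : Continuous y) (β : ℝ) :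
    Continuous fun q => f q * g q * Real.exp (β * dot (x q) (y q)) := by
  simp only [dot]; fun_prop

theorem rp_kernel {E κ : Type} [Fintype E] [Fintype κ] (o : E → Prop) [DecidablePred o]
    {f : (E → G) → ℝ} (hf : Continuous f) {x : (E → G) → κ → A} (hx : Continuous x) {β : ℝ}
    (hβ : 0 ≤ β) :
    0 ≤ ∫ U, ∫ V : E → G, f U * f (fun e => if o e then U e else V e) *
      Real.exp (β * dot (x U) (x fun e => if o e then U e else V e))
      ∂(Measure.pi fun _ => μ) ∂(Measure.pi fun _ => μ) := by
  have cm : Continuous fun q : (E → G) × (E → G) => fun e => if o e then q.1 e else q.2 e :=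
    continuous_pi fun e => by split_ifs <;> fun_prop
  rw [int_merge μ (fun e => ¬ o e) (cont_int _ (cont_ker (hf.comp continuous_fst)
    (hf.comp cm) (hx.comp continuous_fst) (hx.comp cm) β))]
  refine integral_nonneg fun W => ?_
  have cW : Continuous fun V : E → G => fun e => if o e then W e else V e :=
    continuous_pi fun e => by split_ifs <;> fun_prop
  have key := ker_pos (Measure.pi fun _ : E => μ) (hf.comp cW) (hx.comp cW) hβ
  rw [integral_prod _ (cint _ (by
    exact cont_ker ((hf.comp cW).comp continuous_fst) ((hf.comp cW).comp continuous_snd)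
      ((hx.comp cW).comp continuous_fst) ((hx.comp cW).comp continuous_snd) β))] at key
  refine key.trans_eq ?_
  congr 1
  funext V
  congr 1
  funext V'
  have e1 : (fun e => if ¬ o e then V e else W e) = fun e => if o e then W e else V e := by
    funext e; by_cases h : o e <;> simp [h]
  have e2 : (fun e => if o e then (if ¬ o e then V e else W e) else V' e) =
      fun e => if o e then W e else V' e := by
    funext e; by_cases h : o e <;> simp [h]
  simp only [Function.comp, e1, e2]

/-- reflection positivity on the odd torus -/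
theorem rp_pos_odd (hρ : Continuous ρ) {b : ℝ} (hb : 0 ≤ b) {m : ℕ} (hL : L = 2 * m + 1)
    (k : Fin d) {F : (Link d L → G) → ℝ} (hF : Continuous F) (hd : Dep m k F) :
    0 ≤ ∫ U, F U * F (refl k U) ∂(nu μ ρ d L b) := by
  classical
  have := haar_inv μ
  rw [nu_int]
  refine div_nonneg ?_ (ZZ_pos μ ρ hρ b).le
  have hc : Continuous (acto (d := d) (L := L) ρ m k) :=
    continuous_finsetSum _ fun _ _ => continuous_finsetSum _ fun _ _ =>
      continuous_finsetSum _ fun _ _ => continuous_const.mul (continuous_qhol ρ hρ _ _ _)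
  have cρ := continuous_rho ρ hρ
  have cr := continuous_refl (G := G) (L := L) k
  have cw := continuous_wt (d := d) (L := L) ρ hρ b
  set f : (Link d L → G) → ℝ := fun U => F U * Real.exp (-(b * acto ρ m k U)) with hf
  have df : Dep m k f := fun U V h => by
    simp only [hf, hd U V h, dep_acto ρ (show m < L by omega) k U V h]
  set x : (Link d L → G) → Link d L → A := fun V e => if (e.1 k).val = m ∧ e.2 ≠ k then
    (ρ (V (e.1, k) * V e * (V (e.1 + Pi.single e.2 1, k))⁻¹) : A) else 0 with hx
  have cx : Continuous x := continuous_pi fun e => by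
    simp only [hx]; split_ifs <;> fun_prop
  have cf : Continuous f := by fun_prop
  have key := rp_kernel μ (fun e : Link d L => e.2 ≠ k ∧ (e.1 k).val = 0) cf
    cx (β := 4 * b) (by positivity)
  obtain ⟨c, hc0⟩ : ∃ c : ℝ, c = ∑ e : Link d L,
    if (e.1 k).val = m ∧ e.2 ≠ k then HS.tr (1 : A) else 0 := ⟨_, rfl⟩
  rw [int_merge μ (fun e : Link d L => ¬ half m k e) (by fun_prop)]
  refine (mul_nonneg (Real.exp_pos (-(4 * b * c))).le key).trans_eq ?_
  rw [← integral_const_mul]
  congr 1
  funext U
  have mp := (measurePreserving_pi (fun _ : Link d L => μ) (fun _ => μ)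
    (f := fun e g => if e.2 = k ∧ (e.1 k).val = m then U e * g⁻¹ else g) fun e => by
      split_ifs
      · exact (measurePreserving_mul_left μ (U e)).comp (Measure.measurePreserving_inv μ)
      · exact MeasurePreserving.id μ).comp (mp_refl μ k)
  have cm : Continuous fun V : Link d L → G =>
      fun e : Link d L => if e.2 ≠ k ∧ (e.1 k).val = 0 then U e else V e :=
    continuous_pi fun e => by split_ifs <;> fun_prop
  rw [← int_mp mp (by
    exact cont_ker continuous_const (cf.comp cm) continuous_const (cx.comp cm) _),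
    ← integral_const_mul]
  congr 1
  funext Y
  set Z : Link d L → G := fun e => if ¬ half m k e then Y e else U e with hZ
  set V : Link d L → G := fun e => if e.2 ≠ k ∧ (e.1 k).val = 0 then U e else
    if e.2 = k ∧ (e.1 k).val = m then U e * (refl k Y e)⁻¹ else refl k Y e with hV
  change Real.exp _ * (f U * f V * Real.exp (4 * b * dot (x U) (x V))) = _
  have z1 : ∀ e, half m k e → U e = Z e := fun e he => by simp [hZ, he]
  have z2 : ∀ e, half m k e → V e = refl k Z e := by
    rintro ⟨y, j⟩ ⟨h1, h2⟩
    have hv := ZMod.val_lt (y k)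
    simp only at h1 h2
    by_cases hj : j = k
    · have h3 := h2 hj
      have : ¬ half m k (rc k y, k) := fun h => by
        have := h.2 rfl
        simp only [rc_val] at this
        omega
      simp [hV, hZ, hj, refl, rl, h3.ne, this]
    · by_cases h0 : (y k).val = 0
      · have e : rf k y = y := by
          funext l
          by_cases hl : l = k
          · apply ZMod.val_injective
            rw [hl, rf_val, if_pos h0, h0]
          · simp [rf, hl]
        have : half m k (y, j) := ⟨h1, h2⟩
        simp only [hV, hZ, hj, refl, rl, h0, e, this, ne_eq, not_false_eq_true, and_self, if_true,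
          if_false, not_true]
      · have : ¬ half m k (rf k y, j) := fun h => by
          have := h.1
          simp only [rf_val, h0, if_false] at this
          omega
        simp only [hV, hZ, hj, refl, rl, h0, this, ne_eq, not_false_eq_true, and_false, false_and,
          if_true, if_false]
  have z0 : ∀ y : Site d L, (y k).val = m → rc k y = y := by
    intro y hy
    funext l
    by_cases hl : l = k
    · apply ZMod.val_injective
      rw [hl, rc_val]; omega
    · simp [rc, rf, hl]
  have z3 : ∀ y : Site d L, (y k).val = m → V (y, k) = U (y, k) * Z (y, k) := by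
    intro y hy
    have : ¬ half m k (y, k) := fun h => by
      have := h.2 rfl
      simp only at this
      omega
    simp [hV, hZ, refl, rl, hy, z0 y hy, this]
  have z4 : dot (x U) (x V) = c - (∑ e : Link d L,
      (if (e.1 k).val = m ∧ e.2 ≠ k then qq ρ (hol Z e.1 k e.2) else 0)) / 2 := by
    rw [hc0, Finset.sum_div, ← Finset.sum_sub_distrib]
    refine Finset.sum_congr rfl ?_
    rintro ⟨y, j⟩ -
    by_cases h : (y k).val = m ∧ j ≠ k
    · have hh : half m k (y, j) := ⟨h.1.le, fun h' => absurd h' h.2⟩
      have e1 : ((y + Pi.single j 1 : Site d L) k).val = m := by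
        rw [Pi.add_apply, Pi.single_eq_of_ne (Ne.symm h.2), add_zero, h.1]
      have e2 : rf k y = y + Pi.single k 1 := by
        conv_rhs => rw [← z0 y h.1, rc, sub_add_cancel]
      have e3 : V (y, j) = Z (y + Pi.single k 1, j) := by
        rw [z2 _ hh]; simp [refl, rl, h.2, e2]
      simp only [hx, h, ne_eq, not_false_eq_true, and_self, if_true, inner_rho, z3 y h.1, z3 _ e1,
        e3, z1 _ hh, hol]
      rw [← qq_conj ρ (U (y + Pi.single j 1, k) * (Z (y, j))⁻¹) (_ * _ * _ * (Z (y, j))⁻¹)]
      congr 3
      group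
    · simp only [hx, h, if_false, inner_zero_left]
      simp
  rw [df U Z z1, df V _ z2, z4, ← acto_add ρ hL k Z]
  simp only [hf]
  have : ∀ p q a b c e : ℝ, Real.exp a * (p * Real.exp b * (q * Real.exp c) * Real.exp e) =
      p * q * Real.exp (a + b + c + e) := fun _ _ _ _ _ _ => by simp only [Real.exp_add]; ring
  rw [this]
  congr 2
  ring

/-- reflection positivity on all tori -/
theorem rp_pos_all (hρ : Continuous ρ) {b : ℝ} (hb : 0 ≤ b) (k : Fin d)
    {F : (Link d L → G) → ℝ} (hF : Continuous F) (hd : Dep (L / 2) k F) :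
    0 ≤ ∫ U, F U * F (refl k U) ∂(nu μ ρ d L b) := by
  rcases Nat.even_or_odd' L with ⟨m, h | h⟩
  · exact rp_pos μ ρ hρ b h k hF (by rwa [show L / 2 = m by omega] at hd)
  · exact rp_pos_odd ρ μ hρ hb h k hF (by rwa [show L / 2 = m by omega] at hd)

theorem rp_ineq_all (hρ : Continuous ρ) {b : ℝ} (hb : 0 ≤ b) (k : Fin d)
    {F₁ F₂ : (Link d L → G) → ℝ} (h₁ : Continuous F₁) (h₂ : Continuous F₂)
    (d₁ : Dep (L / 2) k F₁) (d₂ : Dep (L / 2) k F₂) :
    (∫ U, F₁ U * F₂ (refl k U) ∂(nu μ ρ d L b)) ^ 2 ≤
      (∫ U, F₁ U * F₁ (refl k U) ∂(nu μ ρ d L b)) * ∫ U, F₂ U * F₂ (refl k U) ∂(nu μ ρ d L b) :=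
  rp_cs _ _ (continuous_refl k) (nu_refl μ ρ hρ b k) (refl_refl k) h₁ h₂ fun t =>
    rp_pos_all ρ μ hρ hb k (F := fun U => t * F₁ U + F₂ U) (by fun_prop) fun U V h => by
      simp only [d₁ U V h, d₂ U V h]

end Pool.Agent.Lib.MP_7f377f_mp.Weak
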