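import Pool.Agent.Lib.MP_7f377f_mp.JtS

/-! The operator of a density on polynomial fields: leading symbol and its right inverse. -/

noncomputable section

namespace Pool.Agent.Lib.MP_7f377f_mp.RG.Jt

open Finset

attribute [local irreducible] box lbox

/-- the leading symbol -/
def M0 : Module.End ℝ V := -∑ ν, D1 ν * io ν

/-- shift of every component in its own direction -/
def tw : Module.End ℝ V := LinearMap.funLeft ℝ ℝ fun e => (e.1 - un e.2, e.2)

/-- forward divergence -/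
def dv : Module.End ℝ V := LinearMap.pi fun e => ∑ μ, LinearMap.proj (e.1, μ) ∘ₗ D1 μ

variable {α : Mi} {ν μ κ : Fin 4} {a b p : V} {R n k ρ : ℕ} {δ δ' ε σ v cL cU : ℝ} {m m' : BF}
  {x : St}

theorem M0_ap (a : V) (e : Lk) : M0 a e = -∑ ν, dd (D1 ν a) e.1 ν e.2 := by
  simp only [M0, LinearMap.neg_apply, LinearMap.sum_apply, Pi.neg_apply, Finset.sum_apply,
    Module.End.mul_apply, ← Dm_ei, ← (cov_io _).dm, io_ap]

theorem tw_ap (a : V) (e : Lk) : tw a e = a (e.1 - un e.2, e.2) := rfl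

theorem dv_ap (a : V) (e : Lk) : dv a e = ∑ μ, D1 μ a (e.1, μ) := by simp [dv]

theorem cov_M0 : Cov M0 := fun x a => funext fun e => by
  simp only [M0_ap, cov_D1 _ x, dd_sh, sh_apply]

theorem cov_tw : Cov tw := fun x a => funext fun e => by
  simp only [tw_ap, sh_apply, add_sub_right_comm]

theorem cov_dv : Cov dv := fun x a => funext fun e => by
  simp only [dv_ap, cov_D1 _ x, sh_apply]

theorem jet_M0 (a : V) (α : Mi) (μ : Fin 4) : jet (M0 a) α μ =
    -∑ ν, (jet a (α + ei ν + ei ν) μ - jet a (α + ei ν + ei μ) ν) := by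
  simp only [jet_ap (M0 a), ← cov_M0.dm, M0_ap, ← Dm_succ_ap', dd_Dm]

theorem jet_dv (a : V) (α : Mi) (μ : Fin 4) : jet (dv a) α μ = ∑ ν, jet a (α + ei ν) ν := by
  simp only [jet_ap, ← cov_dv.dm, dv_ap, ← Dm_succ_ap']

theorem dv_tw (h : Rng R R m) (hs : ∀ a b, m a b = m b a) (hg : ∀ u b, m (gr u) b = 0) (a : V) :
    dv (tw (Mo R m a)) = 0 := funext fun e => by
  simpa only [dv_ap, D1_ap, tw_ap, add_sub_cancel_right, Pi.zero_apply] using Mo_div h hs hg a e.1

theorem closed (h : dd a = dd b) : a = b + gr (lam (a - b)) := by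
  have h1 : cg (a - b) = 0 := funext fun e => by
    obtain ⟨R, hR⟩ := mem_box_ex e.1
    have : Cv R 0 (a - b) := fun x _ μ ν => by simp [La.dd_sub, h]
    simpa using Sm_cg this e (mem_lbox.2 hR)
  rw [← sub_eq_zero.1 h1, add_sub_cancel]

theorem m_closed (hg : ∀ u b, m (gr u) b = 0) (h : dd a = dd b) (c : V) : m a c = m b c := by
  rw [closed h, map_add, LinearMap.add_apply, hg, add_zero]

theorem Mo_closed (hg : ∀ u b, m (gr u) b = 0) (h : dd a = dd b) : Mo R m a = Mo R m b := by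
  rw [closed h, map_add, Mo_gr hg, add_zero]

/-- the size of the operator -/
def KM (R : ℕ) : ℝ := (2 * R + 1) ^ 4 * (5120 * Lin.KK ^ 2 * (2 * R + 3) ^ 4 * (3 * R))

theorem KM_nonneg (R : ℕ) : 0 ≤ KM R := by unfold KM; positivity

theorem Mo_bd (hm : Inv n R cL cU m) (hU : cU ≤ 20) (h : Cv (R + (ρ + R)) δ a) :
    Sm ρ (KM R * δ) (Mo R m a) := fun e he => by
  rw [Mo_ap]
  refine (norm_sum_le _ _).trans ((sum_le_card_nsmul _ _
    (5120 * Lin.KK ^ 2 * (2 * R + 3) ^ 4 * (3 * R * δ) * 1) fun u hu => ?_).trans_eq ?_)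
  · rw [m_closed hm.gauge (dd_cg _).symm]
    exact Lin.m_bd hm hU (Sm_cg (h.sh (sub_mem_box (mem_lbox.1 he) hu))) fun e' _ => by
      rw [Pi.single_apply]; split_ifs <;> simp
  · rw [card_box, nsmul_eq_mul, KM]
    push_cast
    ring

theorem nb0_ap (μ : Fin 4) (e : Lk) : nb 0 μ e = if e.2 = μ then 1 else 0 := by simp [nb]

theorem nb1_ap (ν μ : Fin 4) (e : Lk) : nb (ei ν) μ e = if e.2 = μ then (e.1 ν : ℝ) else 0 := by
  simp only [nb]
  rw [prod_eq_single ν (fun j _ hj => by simp [ei_apply, hj]) (by simp)]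
  simp [ei_apply]

theorem nb0_gr (μ : Fin 4) : nb 0 μ = gr fun x => (x μ : ℝ) := funext fun e => by
  simp only [nb0_ap, gr, Pi.add_apply, un_apply, eq_comm (a := μ)]
  split_ifs <;> simp

theorem cst_of_Pd (h : a ∈ Pd 2) : Q4.Cst a := fun x => by
  funext μ ν
  obtain ⟨R, hR⟩ := mem_box_ex x
  have h1 : ∀ i, D1 i (io μ a) = 0 := fun i => funext fun e => by
    have h2 : ∀ j, D1 j (D1 i a) = 0 := fun j => Pd_zero (Pd_D1 (Pd_D1 h i) j)
    have := dd_sh e.1 (D1 i a) 0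
    rw [zero_add] at this
    rw [← Dm_ei, ← (cov_io μ).dm, io_ap, Dm_ei, ← this, dd_zero]
    simp [jet_ap, Dm_ei, cov_D1 _ e.1, h2]
  have h2 := La.abs_lam_le (b := gr fun x => io μ a (x, ν)) (K := 0) hR fun f _ =>
    (congrArg abs (congrFun (h1 f.2) (f.1, ν))).trans_le (by simp)
  rw [La.lam_gr] at h2
  exact sub_eq_zero.1 (by simpa [io_ap] using h2)

theorem Mo_cst (hr : Rng R R m) (hs : ∀ a b, m a b = m b a) (hg : ∀ u b, m (gr u) b = 0)
    (h : Q4.Cst a) : Mo R m a = 0 := funext fun e => by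
  have h1 := m_exp hr a (nb 0 e.2)
  rw [hs, nb0_gr, hg, ← nb0_gr] at h1
  simp only [nb0_ap, ite_mul, one_mul, zero_mul, sum_ite_eq', mem_univ, if_true] at h1
  rw [Mo_ap, Pi.zero_apply, h1]
  exact sum_congr rfl fun u _ => m_closed hg (funext fun x => by rw [dd_sh, h, h x]) _

theorem Mo_Pd (hr : Rng R R m) (hs : ∀ a b, m a b = m b a) (hg : ∀ u b, m (gr u) b = 0)
    (h : a ∈ Pd (k + 2)) : Mo R m a ∈ Pd k := mem_Pd.2 fun α hα => by
  rw [← (cov_Mo R m).dm, Mo_cst hr hs hg (cst_of_Pd (Pd_Dm (by rwa [hα, add_comm])))]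

theorem M0_Pd (h : a ∈ Pd (k + 2)) : M0 a ∈ Pd k := by
  simp only [M0, LinearMap.neg_apply, LinearMap.sum_apply, Module.End.mul_apply]
  refine neg_mem (sum_mem fun ν _ => Pd_D1 (mem_Pd.2 fun α hα => funext fun e => ?_) ν)
  have := dd_sh e.1 (Dm α a) 0
  rw [zero_add] at this
  rw [← (cov_io ν).dm, io_ap, ← this, ← cov_Dm, dd_Dm]
  simp [jet_ap, cov_Dm _ e.1, mem_Pd.1 h _ (show dg (α + ei _) = k + 2 by simp [dg_add, hα])]

theorem aff (h : b ∈ Pd 2) (x u : St) (μ : Fin 4) :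
    b (x - u, μ) = b (x, μ) - ∑ ν, u ν * D1 ν b (x, μ) := by
  have h1 : ∀ ν y, D1 ν b (y, μ) = D1 ν b (0, μ) := fun ν y => by
    obtain ⟨R, hR⟩ := mem_box_ex y
    have h2 := La.abs_lam_le (b := gr fun x => D1 ν b (x, μ)) (K := 0) hR fun f _ =>
      (congrArg abs (congrFun (Pd_zero (Pd_D1 (Pd_D1 h ν) f.2)) (f.1, μ))).trans_le (by simp)
    rw [La.lam_gr] at h2
    exact sub_eq_zero.1 (by simpa using h2)
  have h2 : ∀ y, b (y, μ) - ∑ ν, y ν * D1 ν b (0, μ) = b (0, μ) := fun y => by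
    obtain ⟨R, hR⟩ := mem_box_ex y
    have h2 := La.abs_lam_le (b := gr fun y => b (y, μ) - ∑ ν, y ν * D1 ν b (0, μ)) (K := 0) hR
      fun f _ => by
        have := h1 f.2 f.1
        rw [D1_ap] at this
        simp only [gr, Pi.add_apply, Int.cast_add, add_mul, sum_add_distrib, un_apply, Int.cast_ite,
          Int.cast_one, Int.cast_zero, ite_mul, one_mul, zero_mul, sum_ite_eq', mem_univ, if_true,
          ← this, abs_nonpos_iff]
        ring
    rw [La.lam_gr] at h2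
    simpa [sub_eq_zero] using h2
  have h3 := h2 (x - u)
  have h4 := h2 x
  simp only [h1 _ x, Pi.sub_apply, Int.cast_sub, sub_mul, sum_sub_distrib] at h3 ⊢
  linarith

theorem io_Pd (h : a ∈ Pd (k + 1)) (ν : Fin 4) : io ν a ∈ Pd k := mem_Pd.2 fun α hα =>
  funext fun e => by
  have := dd_sh e.1 (Dm α a) 0
  rw [zero_add] at this
  rw [← (cov_io ν).dm, io_ap, ← this, ← cov_Dm, dd_Dm]
  simp [jet_ap, cov_Dm _ e.1, mem_Pd.1 h _ (show dg (α + ei _) = k + 1 by simp [dg_add, hα])]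

theorem Mo_quad (hr : Rng R R m) (hs : ∀ a b, m a b = m b a) (hg : ∀ u b, m (gr u) b = 0)
    (h : p ∈ Pd 3) (μ : Fin 4) : Mo R m p (0, μ) = -∑ ν, m (D1 ν p) (nb (ei ν) μ) := by
  have h0 := m_exp hr p (nb 0 μ)
  rw [hs, nb0_gr, hg, ← nb0_gr] at h0
  simp only [m_exp hr (D1 _ p) (nb _ μ), nb1_ap, nb0_ap, ite_mul, one_mul, zero_mul, sum_ite_eq',
    mem_univ, if_true] at h0 ⊢
  rw [Mo_ap, sum_comm, ← zero_sub, h0, ← sum_sub_distrib]
  refine sum_congr rfl fun u _ => ?_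
  rw [m_closed hg (b := p - ∑ ν, (u ν : ℝ) • D1 ν p)]
  · simp
  · funext x κ ν
    have := aff (io_Pd h κ) x u ν
    rw [dd_sh, zero_sub, ← sub_eq_add_neg]
    change io κ p (x - u, ν) = io κ _ (x, ν)
    simpa only [map_sub, map_sum, map_smul, Pi.sub_apply, Finset.sum_apply, Pi.smul_apply,
      smul_eq_mul, ← Dm_ei, (cov_io κ).dm] using this

theorem dd_nb1 (ν μ κ i : Fin 4) : dd (nb (ei ν) μ) 0 κ i =
    (if κ = ν ∧ i = μ then 1 else 0) - if i = ν ∧ κ = μ then 1 else 0 := by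
  simp only [dd, nb1_ap, zero_add, Pi.zero_apply, Int.cast_zero, ite_self, un_apply, sub_zero,
    eq_comm (a := ν), ite_and, Int.cast_ite, Int.cast_one]
  split_ifs <;> simp

theorem m0_nb1 (a : V) (ν μ : Fin 4) : m0 a (nb (ei ν) μ) = dd a 0 ν μ := by
  simp only [Li.m0_apply, dd_nb1, mul_sub, sum_sub_distrib, mul_ite, mul_one, mul_zero, ite_and,
    sum_ite_irrel, sum_ite_eq', mem_univ, if_true, sum_const_zero]
  simp only [dd]
  ring

theorem nb1_Pd (ν μ : Fin 4) : nb (ei ν) μ ∈ Pd 2 := mem_Pd.2 fun α hα =>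
  Dm_nb0 (fun h => by simpa [hα] using dg_mono h) μ

theorem cv_nb1 (ν μ : Fin 4) : Cv 0 1 (nb (ei ν) μ) := fun x hx κ i => by
  obtain rfl : x = 0 := funext fun i => by simpa using La.mem_box.1 hx i
  rw [dd_nb1]
  split_ifs <;> simp

theorem cd_pol (hs : ∀ a b, m a b = m b a) (hs' : ∀ a b, m' a b = m' b a) (h : Q4.Cd σ m m')
    (σ0 : 0 ≤ σ) (ha : Q4.Cst a) (hb : Q4.Cst b) (h1 : Cv 0 δ a) (h2 : Cv 0 1 b) :
    |m a b - m' a b| ≤ 16 * σ * δ := by
  refine le_of_forall_pos_le_add fun ε hε => ?_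
  obtain ⟨t, t0, t1, t2⟩ : ∃ t, 0 < t ∧ δ ≤ t ∧ 16 * σ * t ≤ 16 * σ * δ + ε := by
    have := h1.nonneg
    refine ⟨δ + ε / (16 * σ + 1), by positivity, le_add_of_nonneg_right (by positivity), ?_⟩
    rw [mul_add, add_le_add_iff_left, mul_div_assoc', div_le_iff₀ (by positivity)]
    nlinarith
  have e : ∀ (s : ℝ) x μ ν, dd (a + s • b) x μ ν = dd a x μ ν + s * dd b x μ ν := fun s x μ ν => by
    simp only [dd, Pi.add_apply, Pi.smul_apply, smul_eq_mul]; ring
  have c : ∀ s : ℝ, Q4.Cst (a + s • b) := fun s x => by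
    funext μ ν; rw [e, e, ha x, hb x]
  have k1 := abs_le.1 (h _ (c t))
  have k2 := abs_le.1 (h _ (c (-t)))
  have k3 : nd (a + t • b) 0 + nd (a + (-t) • b) 0 = 2 * nd a 0 + 2 * t ^ 2 * nd b 0 := by
    simp only [nd, e, mul_sum, ← sum_add_distrib]
    exact sum_congr rfl fun _ _ => sum_congr rfl fun _ _ => by ring
  have k4 := La.nd_le_of_cv (h1.mono le_rfl t1) (zero_mem_box 0)
  have k5 := La.nd_le_of_cv h2 (zero_mem_box 0)
  have k6 : σ * (nd (a + t • b) 0 + nd (a + (-t) • b) 0) ≤ σ * (64 * t ^ 2) :=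
    mul_le_mul_of_nonneg_left (by nlinarith) σ0
  simp only [map_add, map_smul, LinearMap.add_apply, LinearMap.smul_apply, smul_eq_mul, hs b a,
    hs' b a] at k1 k2
  refine le_trans (le_of_mul_le_mul_left (a := t) ?_ t0) t2
  rw [← abs_of_pos t0, ← abs_mul, abs_of_pos t0, abs_le]
  constructor <;> nlinarith [k1.1, k1.2, k2.1, k2.2]

/-- the operator is the leading symbol up to small terms -/
theorem Mo_M0 (hm : Inv n R cL cU m) (hU : cU ≤ 20) (hc : Q4.Cd σ m (v • m0)) (σ0 : 0 ≤ σ)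
    (h1 : ∀ ν, Cv 0 δ (D1 ν b)) (h2 : ∀ α, dg α = 2 → Cv (2 * R + 1) ε (Dm α b)) (μ : Fin 4) :
    |tw (Mo R m b) (0, μ) - v * M0 b (0, μ)| ≤ 64 * σ * δ + KM R * ((4 * (2 * R + 1)) ^ 2 * ε) := by
  obtain ⟨p, hp, hj⟩ : ∃ p ∈ Pd 3, ∀ α, dg α < 2 → ∀ κ ν, dd (Dm α p) 0 κ ν = dd (Dm α b) 0 κ ν :=
    ⟨nw 3 (jet b), nw_mem _ _, fun α hα κ ν => by
      simp only [dd_Dm, jet_nw, dg_add, dg_ei, Nat.add_lt_add_right hα 1, if_true]⟩
  have hj1 : ∀ ν κ i, dd (D1 ν p) 0 κ i = dd (D1 ν b) 0 κ i := fun ν => by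
    simpa [Dm_ei] using hj (ei ν) (by simp)
  have t := taylor_cv (a := b - p) (R := 2 * R + 1) (ε := ε) 2 (fun _ => 0)
    (fun α hα x hx κ ν => by
      obtain rfl : x = 0 := funext fun i => by simpa using La.mem_box.1 hx i
      simp [dd_sub, hj α hα]) fun α hα x hx κ ν => by
      have : io κ (Dm α p) = 0 := by
        rw [(cov_io κ).dm, mem_Pd.1 (io_Pd hp κ) α hα]
      rw [map_sub, dd_sub, show dd (Dm α p) x κ ν = 0 from congrFun this (x, ν), sub_zero]
      exact h2 α hα x hx κ ν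
  simp only [mul_zero, sum_const_zero, zero_add] at t
  have t1 := Mo_bd (ρ := 1) hm hU (t.mono (by omega) le_rfl) (0 - un μ, μ)
    (mem_lbox.2 (by rw [zero_sub]; exact neg_mem_box (un_mem_box μ)))
  have t2 : Mo R m p (0 - un μ, μ) = Mo R m p (0, μ) := by
    have := congrFun (Pd_zero (Pd_D1 (Mo_Pd (k := 1) hm.rng hm.symm hm.gauge hp) μ)) (0 - un μ, μ)
    rw [D1_ap, sub_add_cancel] at this
    exact (sub_eq_zero.1 this).symm
  have t3 : |Mo R m p (0, μ) - v * M0 b (0, μ)| ≤ 64 * σ * δ := by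
    rw [Mo_quad hm.rng hm.symm hm.gauge hp, M0_ap, mul_neg, neg_sub_neg, abs_sub_comm, mul_sum,
      ← sum_sub_distrib]
    refine (abs_sum_le_sum_abs _ _).trans ((sum_le_card_nsmul _ _ (16 * σ * δ) fun ν _ => ?_).trans_eq
      (by simp; ring))
    have := cd_pol hm.symm (fun a b => by simp [Li.m0_apply, mul_comm]) hc σ0
      (cst_of_Pd (Pd_D1 hp ν)) (cst_of_Pd (nb1_Pd ν μ)) (δ := δ) (fun x hx κ i => by
        obtain rfl : x = 0 := funext fun i => by simpa using La.mem_box.1 hx i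
        rw [hj1]
        exact h1 ν 0 hx κ i) (cv_nb1 ν μ)
    rwa [LinearMap.smul_apply, LinearMap.smul_apply, m0_nb1, hj1] at this
  rw [map_sub, Pi.sub_apply, t2] at t1
  push_cast at t1
  have := abs_sub_le (Mo R m b (0 - un μ, μ)) (Mo R m p (0, μ)) (v * M0 b (0, μ))
  rw [Real.norm_eq_abs] at t1
  rw [tw_ap]
  linarith

/-! ### The temporal gauge -/

def ev (α : Mi) (i : Fin 4) : Jj →ₗ[ℝ] ℝ := LinearMap.proj i ∘ₗ LinearMap.proj α

/-- solution of the equations by recursion in the time variable -/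
def gt : ℕ → Mi → Fin 4 → (Jj →ₗ[ℝ] ℝ)
  | 0 => fun _ _ => 0
  | 1 => fun α i => if i = 1 ∧ 0 < α 1 then ev (α - ei 1) 0 else 0
  | t + 2 => fun α i => if i = 0 then 0 else -ev (α + t • ei 0) i -
      ∑ k ∈ univ.erase 0, (gt t (α + ei k + ei k) i - gt t (α + ei k + ei i) k)

def G0 : Module.End ℝ Jj := LinearMap.pi fun α => LinearMap.pi fun i => gt (α 0) (α - α 0 • ei 0) i

theorem G0_ap (c : Jj) (h : α 0 = 0) (t : ℕ) (i : Fin 4) : G0 c (α + t • ei 0) i = gt t α i c := by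
  have : (α + t • ei 0) 0 = t := by simp [h, ei_apply]
  simp only [G0, LinearMap.pi_apply, this, add_tsub_cancel_right]

theorem ex_time (α : Mi) : ∃ (β : Mi) (t : ℕ), β 0 = 0 ∧ α = β + t • ei 0 :=
  ⟨α - α 0 • ei 0, α 0, by simp [ei_apply], funext fun j => by
    simp only [Pi.add_apply, Pi.sub_apply, Pi.smul_apply, ei_apply, smul_eq_mul]
    split_ifs with h
    · subst h; omega
    · omega⟩

theorem gt_zero (t : ℕ) (α : Mi) : gt t α 0 = 0 := by
  rcases t with _ | _ | t <;> simp [gt]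

theorem G0_zero (c : Jj) (α : Mi) : G0 c α 0 = 0 := by simp [G0, gt_zero]

theorem G0_eq {c : Jj} (h : ∀ α, ∑ ν, c (α + ei ν) ν = 0) (α : Mi) (μ : Fin 4) :
    -∑ ν, (G0 c (α + ei ν + ei ν) μ - G0 c (α + ei ν + ei μ) ν) = c α μ := by
  obtain ⟨β, t, h0, rfl⟩ := ex_time α
  have z : ∀ k ∈ (univ : Finset (Fin 4)).erase 0, ei k 0 = 0 := fun k hk => by
    simp [ei_apply, (ne_of_mem_erase hk).symm]
  rw [← add_sum_erase _ _ (mem_univ 0)]
  by_cases hμ : μ = 0
  · subst hμ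
    rw [sum_congr rfl fun k hk => show _ = -gt (t + 1) (β + ei k) k c by
      rw [G0_zero, zero_sub, ← G0_ap c (by simp [h0, z k hk]), succ_nsmul]
      congr 2
      abel_nf]
    simp only [G0_zero, sub_self, zero_add, sum_neg_distrib, neg_neg]
    rcases t with _ | t
    · rw [sum_eq_single 1 (fun k _ hk => by simp [gt, hk]) (by simp)]
      simp [gt, ev, ei_apply]
    · have h1 := h (β + t • ei 0)
      rw [← add_sum_erase _ _ (mem_univ 0)] at h1
      rw [sum_congr rfl fun k hk => show gt (t + 1 + 1) (β + ei k) k c = -c (β + t • ei 0 + ei k) k -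
        ∑ j ∈ univ.erase 0, (gt t (β + ei k + ei j + ei j) k c - gt t (β + ei j + ei k + ei k) j c) by
          simp [gt, ne_of_mem_erase hk, ev, add_right_comm]]
      simp only [sum_sub_distrib, sum_neg_distrib]
      rw [sum_comm (f := fun k j => gt t (β + ei j + ei k + ei k) j c), succ_nsmul, ← add_assoc]
      linarith
  · have h1 : ei μ 0 = 0 := by simp [ei_apply, Ne.symm hμ]
    rw [G0_zero, sum_congr rfl fun k hk => show _ = gt t (β + ei k + ei k) μ c -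
      gt t (β + ei k + ei μ) k c by
        rw [← G0_ap c (by simp [h0, z k hk]), ← G0_ap c (by simp [h0, z k hk, h1])]
        congr 2 <;> abel_nf, show β + t • ei 0 + ei 0 + ei 0 = β + (t + 2) • ei 0 by
        rw [add_nsmul, two_nsmul]; abel, G0_ap c h0]
    simp [gt, hμ, ev]

theorem gt_bd {c : Jj} {d : ℕ} {A : ℝ} (A0 : 0 ≤ A) (h : ∀ β i, dg β + 2 = d → |c β i| ≤ A) :
    ∀ (t : ℕ) (α : Mi) (i : Fin 4), dg α + t = d → |gt t α i c| ≤ 7 ^ t * A
  | 0, α, i, _ => by simpa [gt] using A0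
  | 1, α, i, hd => by
    simp only [gt]
    split_ifs with h1
    · obtain ⟨β, rfl⟩ := ex_ei h1.2
      rw [add_tsub_cancel_right]
      exact (h β 0 (by simpa [dg_add] using hd)).trans (by linarith)
    · simpa using A0
  | t + 2, α, i, hd => by
    simp only [gt]
    split_ifs with h1
    · simpa using by positivity
    · have h2 := h (α + t • ei 0) i (by
        rw [dg_add, ← hd, add_assoc]; congr 2; simp [dg, ei_apply])
      have h3 : |∑ k ∈ (univ : Finset (Fin 4)).erase 0,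
          (gt t (α + ei k + ei k) i c - gt t (α + ei k + ei i) k c)| ≤ 6 * (7 ^ t * A) :=
        (abs_sum_le_sum_abs _ _).trans ((sum_le_card_nsmul _ _ (7 ^ t * A + 7 ^ t * A) fun k _ =>
          (abs_sub _ _).trans (add_le_add
            (gt_bd A0 h t _ _ (by simp only [dg_add, dg_ei]; omega))
            (gt_bd A0 h t _ _ (by simp only [dg_add, dg_ei]; omega)))).trans_eq (by simp; ring))
      have h4 : A ≤ 7 ^ t * A := le_mul_of_one_le_left A0 (one_le_pow₀ (by norm_num))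
      simp only [LinearMap.sub_apply, LinearMap.neg_apply, LinearMap.sum_apply]
      refine (abs_sub _ _).trans ?_
      rw [abs_neg, pow_add]
      change |c (α + t • ei 0) i| + _ ≤ _
      linarith

theorem G0_bd {c : Jj} {A : ℝ} (A0 : 0 ≤ A) (h : ∀ β i, dg β + 2 = dg α → |c β i| ≤ A) (i : Fin 4) :
    |G0 c α i| ≤ 7 ^ dg α * A := by
  obtain ⟨β, t, h0, rfl⟩ := ex_time α
  have : dg β + t = dg (β + t • ei 0) := by rw [dg_add]; congr 1; simp [dg, ei_apply]
  rw [G0_ap c h0]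
  exact (gt_bd A0 h t β i this).trans (mul_le_mul_of_nonneg_right
    (pow_le_pow_right₀ (by norm_num) (by omega)) A0)

end Pool.Agent.Lib.MP_7f377f_mp.RG.Jt
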