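import Pool.Agent.Lib.MP_7f377f_mp.JtK
import Pool.Agent.Lib.MP_7f377f_mp.G.JuL

/-! The linear data of a step. -/

noncomputable section

namespace Pool.Agent.Lib.MP_7f377f_mp.RG.Jt

open Finset

attribute [local irreducible] box lbox

/-- polynomial growth -/
def Tm {P : Type} (x f : P → ℝ) : Prop := ∃ C : ℕ, ∀ p, 2 ≤ x p → |f p| ≤ x p ^ C

namespace Tm

variable {P : Type} {x y f g : P → ℝ}

theorem ev (h : Tm x f) : ∀ᶠ C in Filter.atTop, ∀ p, 2 ≤ x p → f p ≤ x p ^ C :=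
  let ⟨C, h⟩ := h
  (Filter.eventually_ge_atTop C).mono fun _ e p hp =>
    (le_abs_self _).trans ((h p hp).trans (pow_le_pow_right₀ (by linarith) e))

theorem cst (a : ℝ) : Tm x fun _ => a :=
  let ⟨C, h⟩ := pow_unbounded_of_one_lt |a| (one_lt_two (α := ℝ))
  ⟨C, fun _ hp => h.le.trans (pow_le_pow_left₀ two_pos.le hp C)⟩

theorem mul (h : Tm x f) (h' : Tm x g) : Tm x fun p => f p * g p :=
  let ⟨C, h⟩ := h
  let ⟨D, h'⟩ := h'
  ⟨C + D, fun p hp => by
    rw [abs_mul, pow_add]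
    exact mul_le_mul (h p hp) (h' p hp) (abs_nonneg _) (by positivity)⟩

theorem add (h : Tm x f) (h' : Tm x g) : Tm x fun p => f p + g p :=
  let ⟨C, h⟩ := h
  let ⟨D, h'⟩ := h'
  ⟨C + D + 1, fun p hp => by
    have a := (h p hp).trans (pow_le_pow_right₀ (by linarith) (Nat.le_add_right C D))
    have b := (h' p hp).trans (pow_le_pow_right₀ (by linarith) (Nat.le_add_left D C))
    have c := mul_le_mul_of_nonneg_left hp ((abs_nonneg _).trans a)
    rw [pow_succ]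
    linarith [abs_add_le (f p) (g p)]⟩

theorem pow (n : ℕ) (h : Tm x f) : Tm x fun p => f p ^ n :=
  let ⟨C, h⟩ := h
  ⟨C * n, fun p hp => by
    rw [abs_pow, pow_mul]
    exact pow_le_pow_left₀ (abs_nonneg _) (h p hp) n⟩

theorem sum (n : ℕ) {F : ℕ → P → ℝ} (h : ∀ i, Tm x (F i)) : Tm x fun p => ∑ i ∈ range n, F i p := by
  induction n with
  | zero => exact cst 0
  | succ n ih => simpa only [sum_range_succ] using ih.add (h n)

theorem nat {f g : P → ℕ} (h : ∀ p, f p ≤ g p ^ 2) : Tm (fun p => g p) fun p => f p :=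
  ⟨2, fun p _ => (Nat.abs_cast _).trans_le (by beta_reduce; exact_mod_cast h p)⟩

theorem up (h : Tm x f) (h1 : ∀ p, 2 ≤ x p) (h2 : ∀ p, x p ≤ y p) : Tm y f :=
  let ⟨C, h⟩ := h
  ⟨C, fun p _ => (h p (h1 p)).trans (pow_le_pow_left₀ (by linarith [h1 p]) (h2 p) C)⟩

variable {u : P → ℕ}

theorem km (h : Tm x fun p => u p) : Tm x fun p => KM (u p) := by
  unfold KM
  repeat' first | assumption | apply cst | apply pow | apply add | apply mul

theorem kg (J : ℕ) (h : Tm x fun p => u p) : Tm x fun p => KG (u p) J := by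
  unfold KG KC
  repeat' first | assumption | apply cst | apply pow | apply add | apply mul

theorem kp (s : ℕ) (h : Tm x fun p => u p) (h' : Tm x f) : Tm x fun p => KP (u p) s (f p) := by
  have := h.km
  unfold KP
  repeat' first | assumption | apply cst | apply pow | apply add | apply mul

theorem kx (c N : ℕ) (h : Tm x fun p => u p) (h' : Tm x fun p => LL (u p)) :
    Tm x fun p => KX c (u p) N := by
  have := h.km
  induction N with
  | zero => exact cst 0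
  | succ N ih =>
    unfold KX
    repeat' first | assumption | apply cst | apply pow | apply add | apply mul

end Tm

/-- the ranges of a step -/
structure Pr where
  l : ℕ
  r : ℕ
  R0 : ℕ
  R1 : ℕ
  R : ℕ
  r2 : 2 ≤ r
  rl : r ≤ l
  h0 : R0 ≤ r ^ 2
  h1 : R1 ≤ r ^ 2
  h : R ≤ r ^ 2

namespace Pr

variable (s c : ℕ) (p : Pr)

def t : ℝ := 2 * (K0 s * ((s + 1) * (KM p.R0 * (4 * (2 * p.R0 + 1)) ^ 2))) +
  2 * (K0 s * ((s + 1) * (KM p.R1 * (4 * (2 * p.R1 + 1)) ^ 2))) + 12 * p.r ^ 2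

def X0 : ℝ := 16 * KG p.R0 (s + 4) ^ (s + 4) * p.r ^ (c + 3) * (8 * (s + 5) * p.r) ^ (s + 3)

def b : ℝ := (s + 1) * (C2 s * p.t s ^ s)

def n : ℝ := C2 s * ((1 + KP p.R0 s (p.t s)) * p.X0 s c)

/-- the constants of polynomial size in the range -/
def F : ℝ := p.t s + p.b s + p.n s c + 2 * (p.n s c * p.b s) + C2 s * (p.t s ^ (s + 1) * (A1 s + 1)) +
  (∑ j ∈ range (s + 1), (4 * p.R) ^ j * KP p.R0 s (p.t s) + (4 * p.R) ^ (s + 1)) * p.X0 s c +
    2 * (p.r * ((2 * s + 10) * (2 * p.r ^ 2 + s + 6)))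

/-- the constants of polynomial size in the block -/
def G : ℝ := 2 ^ (s + 5) * (2592 * (LL p.l : ℝ) ^ 5) * (LL p.l : ℝ) ^ (s + 8) +
  (1 + 6 * (Fintype.card (Ia s) * C2 s)) * e0 c p.l p.r p.R1 s (p.t s) +
    e1 c p.l p.r p.R1 s (p.t s) * (2 * (p.n s c * p.b s)) + 2 * ((LL p.l : ℝ) ^ (s + 2) * (C2 s *
      (p.t s ^ (s + 1) * (KQ p.R0 s (p.t s) * e1 c p.l p.r p.R1 s (p.t s)))))

theorem tm : Tm (fun p : Pr => p.r) (F s c) ∧ Tm (fun p : Pr => LL p.l) (G s c) := by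
  have a0 := Tm.nat Pr.h0
  have a1 := Tm.nat Pr.h1
  have a2 := Tm.nat Pr.h
  have a3 := Tm.nat fun p : Pr => Nat.le_self_pow two_ne_zero p.r
  have k0 := a0.km
  have k1 := a1.km
  have k2 := a0.kg (s + 4)
  have b0 : Tm (fun p : Pr => p.r) (t s) := by
    unfold t
    repeat' first | assumption | apply Tm.cst | apply Tm.pow | apply Tm.add | apply Tm.mul
  have k3 := a0.kp s b0
  have b1 : Tm (fun p : Pr => p.r) (b s) := by
    unfold b
    repeat' first | assumption | apply Tm.cst | apply Tm.pow | apply Tm.add | apply Tm.mul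
  have b2 : Tm (fun p : Pr => p.r) (X0 s c) := by
    unfold X0
    repeat' first | assumption | apply Tm.cst | apply Tm.pow | apply Tm.add | apply Tm.mul
  have b3 : Tm (fun p : Pr => p.r) (n s c) := by
    unfold n
    repeat' first | assumption | apply Tm.cst | apply Tm.pow | apply Tm.add | apply Tm.mul
  refine ⟨?_, ?_⟩
  · have := Tm.sum (s + 1) fun j => ((((Tm.cst 4).mul a2).pow j).mul k3)
    unfold F
    repeat' first | assumption | apply Tm.cst | apply Tm.pow | apply Tm.add | apply Tm.mul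
  have u : ∀ {f}, Tm (fun p : Pr => p.r) f → Tm (fun p : Pr => LL p.l) f := fun h =>
    h.up (fun p => by exact_mod_cast p.r2) fun p => by
      have := p.rl
      exact_mod_cast (show p.r ≤ LL p.l by simp only [LL]; omega)
  have c0 := Tm.nat fun p : Pr => Nat.le_self_pow two_ne_zero (LL p.l)
  have c1 := Tm.nat fun p : Pr => (show p.l ≤ LL p.l by simp only [LL]; omega).trans
    (Nat.le_self_pow two_ne_zero (LL p.l))
  have c2 := u (Tm.nat fun p : Pr => (Nat.div_le_self p.r 3).trans (Nat.le_self_pow two_ne_zero _))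
  have c3 := c1.kx c (s + 1 + 1) c0
  have c4 := u (a1.kp s b0)
  have := u a3
  have := u b0
  have := u b1
  have := u b3
  have := u k0
  have := u k3
  have c5 : Tm (fun p : Pr => LL p.l) fun p => e0 c p.l p.r p.R1 s (p.t s) := by
    simp only [e0, KZ, KY, Nat.cast_add]
    repeat' first | assumption | apply Tm.cst | apply Tm.pow | apply Tm.add | apply Tm.mul
  unfold G e1 KQ
  repeat' first | assumption | apply Tm.cst | apply Tm.pow | apply Tm.add | apply Tm.mul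

theorem X0_one : 1 ≤ p.X0 s c := by
  have := KG_one p.R0 (s + 4)
  have : (1 : ℝ) ≤ p.r := by exact_mod_cast one_le_two.trans p.r2
  have : (1 : ℝ) ≤ 8 * (s + 5) := by linarith [(Nat.cast_nonneg s : (0 : ℝ) ≤ s)]
  unfold X0
  bound

variable {s c p} {R' : ℕ} {m : BF} {S : V →ₗ[ℝ] V} {z : St} {v σ τ g : ℝ}

theorem ir (hm : Lv p.R0 m v σ) (h : Lin p.l p.r c τ m S) (hg : Q4.Grad p.l p.r g S) (g0 : 0 ≤ g)
    (g1 : g * LL p.l ≤ p.r ^ c) (hτ : 0 ≤ τ) (hR : p.r / 3 + 1 ≤ R')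
    (h1 : (2 * s + 10) * (2 * p.r ^ 2 + s + 6) ≤ p.l / p.r)
    (h2 : 2 ^ (s + 5) * (2592 * (LL p.l : ℝ) ^ 5) * (LL p.l : ℝ) ^ (s + 8) * τ ≤ 1)
    (hz : z ∈ box (p.l - p.l / p.r)) :
    Ir s R' (2 * p.r ^ 2 + 1) p.R0 m (shL z ∘ₗ mu p.l S) (LL p.l) (p.X0 s c) := by
  obtain ⟨_, _, _, hL, hU, hI⟩ := hm.inv
  have L1 : (1 : ℝ) ≤ LL p.l := by exact_mod_cast LL_pos p.l
  have r1 : (1 : ℝ) ≤ p.r := by exact_mod_cast one_le_two.trans p.r2
  have a0 := p.h0
  obtain ⟨w, hw⟩ : ∃ w, w = p.l / p.r / (2 * s + 10) := ⟨_, rfl⟩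
  have w1 : 2 * p.r ^ 2 + s + 6 ≤ w :=
    hw ▸ (Nat.le_div_iff_mul_le (by omega)).2 (by rwa [mul_comm])
  have w2 : (2 * s + 10) * w ≤ p.l / p.r := hw ▸ Nat.mul_div_le _ _
  have w3 : p.l / p.r < (2 * s + 10) * (w + 1) := hw ▸ Nat.lt_mul_div_succ _ (by omega)
  have w4 : (2 * s + 10) * (w + 1) ≤ (2 * s + 10) * (2 * w) := Nat.mul_le_mul_left _ (by omega)
  have w8 := Nat.div_le_self p.l p.r
  have w5 : (LL p.l : ℝ) ≤ 8 * (s + 5) * p.r * w := by
    have a := (Nat.lt_mul_div_succ p.l (one_le_two.trans p.r2)).trans_le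
      (Nat.mul_le_mul_left _ (w3.trans_le w4))
    have : 8 * (s + 5) * p.r * w = 2 * (p.r * ((2 * s + 10) * (2 * w))) := by ring
    exact_mod_cast (show LL p.l ≤ 8 * (s + 5) * p.r * w by simp only [LL]; omega)
  have w6 : (2 * s + 10) * w = (2 * (s + 4) + 1) * w + w := by ring
  have w7 : (w : ℝ) ≤ LL p.l := by
    exact_mod_cast (show w ≤ LL p.l by simp only [LL]; omega)
  have w0 : (0 : ℝ) < w := by exact_mod_cast (show 0 < w by omega)
  refine ⟨fun B δ hB α hα => ?_, fun B δ hB α μ hN hα x hx => ?_⟩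
  · have d0 := hB.nonneg
    have := KG_one p.R0 (s + 4)
    rw [LinearMap.comp_apply, shL_apply, cov_Dm]
    refine ((int_mu (J := s + 4) (w := w) (A := p.r ^ (c + 3)) hI hL hU h hg hτ g0 (by omega)
      (one_le_two.trans p.r2) (pow_le_pow_right₀ r1 (by omega)) (((mul_le_mul_of_nonneg_left w7
        g0).trans g1).trans (pow_le_pow_right₀ r1 (by omega))) (le_trans (le_trans ?_ h2)
          (one_le_pow₀ r1)) (by omega) (hB.mono hR le_rfl) (by omega)).sh hz).mono le_rfl ?_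
    · exact (mul_le_mul_of_nonneg_left (pow_le_pow_left₀ w0.le w7 _) (by positivity)).trans_eq
        (by ring)
    · rw [div_le_div_iff₀ (by positivity) (by positivity), X0]
      calc _ ≤ 16 * (KG p.R0 (s + 4) ^ (s + 4) * (p.r ^ (c + 3) * δ)) *
            ((8 * (s + 5) * p.r) ^ (s + 3) * w ^ (2 + dg α)) := by
            refine mul_le_mul_of_nonneg_left ((pow_le_pow_left₀ (by positivity) w5 _).trans ?_)
              (by positivity)
            rw [mul_pow]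
            exact mul_le_mul_of_nonneg_right (pow_le_pow_right₀
              (one_le_mul_of_one_le_of_one_le (by linarith [(Nat.cast_nonneg s : (0 : ℝ) ≤ s)]) r1)
                (by omega)) (by positivity)
        _ = _ := by ring
  · have d0 := hB.nonneg
    rw [LinearMap.comp_apply, shL_apply, cov_Mo, cov_Dm, sh_apply]
    refine (mu_src hI.rng (by omega) h hτ (hB.mono hR le_rfl) (add_mem_box hx hz) (by omega)
      hN).trans ?_
    rw [le_div_iff₀ (by positivity)]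
    calc _ ≤ 2 ^ (s + 5) * (2592 * (LL p.l : ℝ) ^ 5 * τ * δ) * (LL p.l : ℝ) ^ (s + 8) :=
          mul_le_mul (mul_le_mul_of_nonneg_right (pow_le_pow_right₀ one_le_two (by omega))
            (by positivity)) (pow_le_pow_right₀ L1 (by omega)) (by positivity) (by positivity)
      _ = 2 ^ (s + 5) * (2592 * (LL p.l : ℝ) ^ 5) * (LL p.l : ℝ) ^ (s + 8) * τ * δ := by ring
      _ ≤ _ := mul_le_mul_of_nonneg_right (h2.trans (p.X0_one s c)) d0

theorem sc {R : ℕ} (h : R ≤ p.r ^ 2) (h1 : 128 * K0 s * σ ≤ 1) (h2 : 2 * (K0 s * ((s + 1) *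
    (KM R * (4 * (2 * R + 1)) ^ 2))) ≤ p.t s ∧ 12 * (p.r : ℝ) ^ 2 ≤ p.t s) :
    Sc R s σ (p.t s) (K0 s) := by
  have a : (R : ℝ) ≤ p.r ^ 2 := by exact_mod_cast h
  have b : (1 : ℝ) ≤ p.r ^ 2 := one_le_pow₀ (by exact_mod_cast one_le_two.trans p.r2)
  refine ⟨by linarith [h2.2], K0_ge s, ?_⟩
  have := (div_le_iff₀ (by linarith [h2.2] : 0 < p.t s)).2 (show K0 s * ((s + 1) *
    (KM R * (4 * (2 * R + 1)) ^ 2)) ≤ 2⁻¹ * p.t s by linarith [h2.1])
  rw [ep, mul_add, ← mul_div_assoc]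
  linarith

end Pr

/-- the linear data of a step on the slow fields -/
theorem lt_ex (s c : ℕ) (hs : 2 ≤ s) : ∃ C : ℕ, ∀ {l r R0 R1 R R' : ℕ} {m m1 : BF} {S : V →ₗ[ℝ] V}
    {z : St} {v v1 σ σ1 lam τ g X η : ℝ}, Lv R0 m v σ → Lv R1 m1 v1 σ1 → Lin l r c τ m S →
    Q4.Grad l r g S → m1 = lam • Q4.mb l 3 m S → |lam| ≤ 2 → 0 ≤ g → g * LL l ≤ r ^ c → 0 ≤ τ →
    2 ≤ r → R0 ≤ r ^ 2 → R1 ≤ r ^ 2 → R ≤ r ^ 2 → R' ≤ r ^ 2 → r / 3 + 1 ≤ R' → C * σ ≤ 1 →
    C * σ1 ≤ 1 → (r : ℝ) ^ C ≤ LL l → (r : ℝ) ^ C ≤ X → (LL l : ℝ) ^ C * τ ≤ η → η ≤ 1 →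
    z ∈ box (l - l / r) →
    Lt wt R R' (shL z ∘ₗ mu l S) (sec R0 m v s) (sec R1 m1 v1 s)
      (lI s R0 m v (LL l) (shL z ∘ₗ mu l S)) (UU s l R0 R1 m m1 v v1 z)
      (Ring.inverse (UU s l R0 R1 m m1 v v1 z)) (LL l) X X X X (X / LL l ^ (s + 3)) η ∧
    (∀ x ∈ Fo s, UU s l R0 R1 m m1 v v1 z x ∈ Fo s) ∧
    (∀ x ∈ Fo s, Ring.inverse (UU s l R0 R1 m m1 v v1 z) x ∈ Fo s) ∧
    Gr (C * (σ + σ1) + η) (UU s l R0 R1 m m1 v v1 z) ∧
    Gr (C * (σ + σ1) + η) (Ring.inverse (UU s l R0 R1 m m1 v v1 z)) := by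
  obtain ⟨C, ⟨hF, hG⟩, C2', C3, C4⟩ := (((Pr.tm s c).1.ev.and (Pr.tm s c).2.ev).and
    ((Filter.eventually_ge_atTop 2).and ((tendsto_natCast_atTop_atTop.eventually_ge_atTop
      (128 * K0 s)).and (tendsto_natCast_atTop_atTop.eventually_ge_atTop
        (6 * (Fintype.card (Ia s) * (C2 s * (C2 s * 64)))))))).exists
  refine ⟨C, ?_⟩
  intro l r R0 R1 R R' m m1 S z v v1 σ σ1 lam τ g X η hm hm1 h hg e hl g0 g1 hτ r2 h0 h1 h2 h3 h4 s0
    s1 hL hX hη η1 hz
  have r1 : (2 : ℝ) ≤ r := by exact_mod_cast r2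
  have rl : r ≤ l := by
    have : r ^ 2 ≤ LL l := by exact_mod_cast (pow_le_pow_right₀ (by linarith) C2').trans hL
    simp only [LL] at this
    nlinarith
  obtain ⟨p, rfl, rfl, rfl, rfl, rfl⟩ : ∃ p : Pr, p.l = l ∧ p.r = r ∧ p.R0 = R0 ∧ p.R1 = R1 ∧
    p.R = R := ⟨⟨l, r, R0, R1, R, r2, rl, h0, h1, h2⟩, rfl, rfl, rfl, rfl, rfl⟩
  have L2 : (2 : ℝ) ≤ LL p.l := by exact_mod_cast (show 2 ≤ LL p.l by simp only [LL]; omega)
  have c0 := C2_nonneg s
  have k0 : 0 ≤ K0 s := le_trans (by positivity) (K0_ge s)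
  have a0 := A1_nonneg s
  have j0 := KM_nonneg p.R0
  have j1 := KM_nonneg p.R1
  have t0 : 0 ≤ 2 * (K0 s * ((s + 1) * (KM p.R0 * (4 * (2 * p.R0 + 1)) ^ 2))) := by positivity
  have t1 : 0 ≤ 2 * (K0 s * ((s + 1) * (KM p.R1 * (4 * (2 * p.R1 + 1)) ^ 2))) := by positivity
  have t2 : 0 ≤ (p.r : ℝ) ^ 2 := by positivity
  have t3 : 12 * (p.r : ℝ) ^ 2 ≤ p.t s := by unfold Pr.t; linarith
  have ht := Pr.sc h0 ((mul_le_mul_of_nonneg_right C3 hm.σ0).trans s0)
    ⟨by unfold Pr.t; linarith, t3⟩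
  have ht1 := Pr.sc h1 ((mul_le_mul_of_nonneg_right C3 hm1.σ0).trans s1)
    ⟨by unfold Pr.t; linarith, t3⟩
  have t4 := zero_le_one.trans ht.one
  have p0 := KP_nonneg p.R0 s t4
  have p1 := KP_nonneg p.R1 s t4
  have x0 := zero_le_one.trans (p.X0_one s c)
  have z0 := KZ_nonneg c p.l p.r (s + 1) (s + 1)
  have z1 := KX_nonneg c p.l (s + 2)
  have b0 : 0 ≤ p.b s := by unfold Pr.b; positivity
  have n0 : 0 ≤ p.n s c := by unfold Pr.n; positivity
  have f0 : 0 ≤ e0 c p.l p.r p.R1 s (p.t s) := by unfold e0; positivity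
  have f1 : 0 ≤ e1 c p.l p.r p.R1 s (p.t s) := by unfold e1; positivity
  have q0 : 0 ≤ KQ p.R0 s (p.t s) := by unfold KQ; positivity
  have F1 := hF p r1
  have G1 := (mul_le_mul_of_nonneg_right (hG p L2) hτ).trans hη
  rw [Pr.F] at F1
  simp only [Pr.G, add_mul] at G1
  generalize e2 : (∑ j ∈ range (s + 1), (4 * p.R : ℝ) ^ j * KP p.R0 s (p.t s) +
    (4 * p.R) ^ (s + 1)) * p.X0 s c = y at F1
  have y0 : 0 ≤ y := e2 ▸ by positivity
  have u1 : 0 ≤ p.n s c * p.b s := by positivity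
  have u2 : 0 ≤ C2 s * (p.t s ^ (s + 1) * (A1 s + 1)) := by positivity
  have u3 : 0 ≤ (p.r : ℝ) * ((2 * s + 10) * (2 * p.r ^ 2 + s + 6)) := by positivity
  have o1 : 0 ≤ 2 ^ (s + 5) * (2592 * (LL p.l : ℝ) ^ 5) * (LL p.l : ℝ) ^ (s + 8) * τ := by positivity
  have o2 : 0 ≤ e0 c p.l p.r p.R1 s (p.t s) * τ := by positivity
  have o3 : 0 ≤ Fintype.card (Ia s) * C2 s * e0 c p.l p.r p.R1 s (p.t s) * τ := by positivity
  have o4 : 0 ≤ e1 c p.l p.r p.R1 s (p.t s) * (2 * (p.n s c * p.b s)) * τ := by positivity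
  have o5 : 0 ≤ 2 * ((LL p.l : ℝ) ^ (s + 2) * (C2 s * (p.t s ^ (s + 1) * (KQ p.R0 s (p.t s) *
      e1 c p.l p.r p.R1 s (p.t s))))) * τ := by positivity
  have l1 : (2 * s + 10) * (2 * p.r ^ 2 + s + 6) ≤ p.l / p.r := by
    have : 2 * (p.r * ((2 * s + 10) * (2 * p.r ^ 2 + s + 6))) ≤ LL p.l := by
      exact_mod_cast (show (2 * (p.r * ((2 * s + 10) * (2 * p.r ^ 2 + s + 6))) : ℝ) ≤ LL p.l by
        linarith)
    simp only [LL] at this
    rw [Nat.le_div_iff_mul_le (by omega), mul_comm]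
    omega
  have l0 := Nat.div_le_self p.l p.r
  have l2 := Nat.le_mul_of_pos_left (2 * p.r ^ 2 + s + 6) (show 0 < 2 * s + 10 by omega)
  have H := Pr.ir hm h hg g0 g1 hτ h4 l1 (by linarith) hz
  have l3 : p.t s ≤ LL p.l := by linarith
  have l4 : p.R0 ≤ p.l := by omega
  have l5 : z ∈ box p.l := box_mono (Nat.sub_le _ _) hz
  have l6 : ∀ {n : ℕ}, n ≤ p.r ^ 2 → 4 * (n : ℝ) ≤ p.t s := fun hn => by
    have := (Nat.cast_le (α := ℝ)).2 hn
    push_cast at this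
    linarith
  obtain ⟨u, hu⟩ := inv_of_low (UU_low hm ht hm1 ht1 hs h e hl hτ r2 rl l4 l3 l5 H (by omega) x0
    (l6 h3) hz (by omega) (by linarith))
  change ∀ x, _ ≤ 2 * (p.n s c * p.b s) * _ at hu
  have fk := UU_Fk (l := p.l) (z := z) hm ht hm1 ht1 hs
  have gr : Gr _ _ := UU_top hm ht hm1 ht1 hs h e hl hτ r2 rl l4 l3 l5
  have w1 := mul_le_mul_of_nonneg_right C4 hm.σ0
  have w2 := mul_le_mul_of_nonneg_right C4 hm1.σ0
  have w3 := (abs_nonneg _).trans (gr (.inr (.inl 0)) _ rfl)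
  have w4 := le_mul_of_one_le_left w3 (show (1 : ℝ) ≤ Fintype.card (Ia s) by
    exact_mod_cast Fintype.card_pos)
  have w5 := mul_nonneg C.cast_nonneg hm.σ0
  have w6 := mul_nonneg C.cast_nonneg hm1.σ0
  refine ⟨⟨fun x => (hm.sec_cv ht hs (l6 h2) x).mono le_rfl ?_, fun x => (hm1.sec_cv ht1 hs (l6 h3)
    x).mono le_rfl ?_, fun B δ hB => (H.bl hm ht (by omega) l3 x0 hB).trans ?_, fun B δ hB => ?_,
    fun x => ?_, Ring.mul_inverse_cancel _ u, Ring.inverse_mul_cancel _ u, fun a b hab =>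
      mem_Fk.1 (fk _ _ (single_Fk b)) a (Nat.lt_of_add_lt_add_left hab), fun a b hab =>
      mem_Fk.1 (inv_mem u (fk _) (single_Fk b)) a (Nat.lt_of_add_lt_add_left hab), fun x =>
      (UU_bd hm ht hm1 ht1 hs h e hl hτ r2 rl l4 l3 l5 x).trans ?_, fun x => (hu x).trans ?_⟩,
    UU_Fo hm1 ht1, fun x hx => inv_mem u (UU_Fo hm1 ht1) hx, fun a b hab => (gr a b hab).trans ?_,
    fun a b hab => (gr.inv u fk (by linarith) a b hab).trans (by linarith)⟩
  · exact mul_le_mul_of_nonneg_right (show p.b s ≤ X by linarith) (norm_nonneg _)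
  · exact mul_le_mul_of_nonneg_right (show p.b s ≤ X by linarith) (norm_nonneg _)
  · exact mul_le_mul_of_nonneg_right (show p.n s c ≤ X by linarith) hB.nonneg
  · rw [← dil_ap]
    refine (H.int hm ht (by omega) (by positivity) (by omega) hB).mono le_rfl
      (mul_le_mul_of_nonneg_right (div_le_div_of_nonneg_right ?_ (by positivity)) hB.nonneg)
    linarith
  · have := UU_ex (ρ := p.R) hm ht hm1 ht1 hs h e hl hτ r2 rl l4 l3 l5 hz (by omega)
      (Ring.inverse (UU s p.l p.R0 p.R1 m m1 v v1 z) x)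
    rw [← Module.End.mul_apply, Ring.mul_inverse_cancel _ u, Module.End.one_apply] at this
    rw [← dil_ap]
    refine this.mono le_rfl ((mul_le_mul_of_nonneg_left (hu x) (by positivity)).trans ?_)
    rw [← mul_assoc]
    exact mul_le_mul_of_nonneg_right (by linarith) (norm_nonneg _)
  · refine mul_le_mul_of_nonneg_right (le_trans ?_ (show C2 s * (p.t s ^ (s + 1) * (A1 s + 1)) ≤ X
      by linarith)) (norm_nonneg _)
    gcongr
    linarith
  · exact mul_le_mul_of_nonneg_right (by linarith) (norm_nonneg _)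
  · linarith

end Pool.Agent.Lib.MP_7f377f_mp.RG.Jt
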