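import Pool.Agent.Lib.MP_7f377f_mp.JtQ

/-! Exact polynomial solutions and the projection onto them. -/

noncomputable section

namespace Pool.Agent.Lib.MP_7f377f_mp.RG.Jt

open Finset

attribute [local irreducible] box lbox

/-- conserved polynomial currents -/
def Zc (n : ℕ) : Submodule ℝ V := Pd n ⊓ LinearMap.ker dv

def Gp (n : ℕ) : Module.End ℝ V := nw (n + 2) ∘ₗ G0 ∘ₗ jet

/-- weighted bound of the jet -/
def Wb (t A : ℝ) (a : V) : Prop := ∀ α μ, |jet a α μ| ≤ A / t ^ dg α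

/-- tent currents -/
def Tn : Submodule ℝ V where
  carrier := {j | ∀ α μ, NT α μ → ∀ x, Dm α j (x, μ) = 0}
  add_mem' ha hb α μ h x := by rw [map_add, Pi.add_apply, ha α μ h, hb α μ h, add_zero]
  zero_mem' α μ _ x := by simp
  smul_mem' c a ha α μ h x := by rw [map_smul, Pi.smul_apply, ha α μ h, smul_zero]

/-- polynomial fields with curvature of degree at most `s` and tent current -/
def Pk (R : ℕ) (m : BF) (s : ℕ) : Submodule ℝ V := Pd (s + 2) ⊓ Tn.comap (Mo R m)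

/-- polynomial solutions with curvature of degree at most `s` -/
def Pk0 (R : ℕ) (m : BF) (s : ℕ) : Submodule ℝ V := Pd (s + 2) ⊓ LinearMap.ker (Mo R m)

/-- weighted bound of the jet of the curvature -/
def Wc (t A : ℝ) (a : V) : Prop := ∀ α, Cv 0 (A / t ^ dg α) (Dm α a)

/-- the density of a level -/
structure Lv (R : ℕ) (m : BF) (v σ : ℝ) : Prop where
  inv : ∃ k cL cU, cL ≤ 20 ∧ cU ≤ 20 ∧ Inv k R cL cU m
  cd : Q4.Cd σ m (v • m0)
  σ0 : 0 ≤ σ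
  v1 : 2⁻¹ ≤ v
  v2 : v ≤ 2

/-- the relative error of the leading symbol at the scale `t` -/
def ep (R n : ℕ) (σ t : ℝ) : ℝ := 64 * σ + (n + 1) * (KM R * (4 * (2 * R + 1)) ^ 2) / t

/-- an admissible scale -/
structure Sc (R n : ℕ) (σ t K : ℝ) : Prop where
  t1 : 4 * (2 * R + 1) ≤ t
  K1 : 8 * 7 ^ (n + 1) ≤ K
  sm : K * ep R n σ t ≤ 1

def RI (R : ℕ) (m : BF) (n : ℕ) (f : Module.End ℝ V) : Prop :=
  ∀ j ∈ Zc n, ∃ i ∈ Zc n, f j = Gp n i ∧ tw (Mo R m (Gp n i)) = j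

/-- the right inverse -/
def ri (R : ℕ) (m : BF) (n : ℕ) : Module.End ℝ V := Classical.epsilon (RI R m n)

def nT (s : ℕ) : Module.End ℝ V := nw (s + 2) ∘ₗ jet

open Classical in
/-- the part of a jet which is kept -/
def kp (P : Mi → Fin 4 → Prop) : Module.End ℝ Jj :=
  LinearMap.pi fun α => LinearMap.pi fun μ => if P α μ then ev α μ else 0

def Jp (P : Mi → Fin 4 → Prop) (R : ℕ) (m : BF) (s : ℕ) : Module.End ℝ V :=
  (1 - nw s ∘ₗ kp P ∘ₗ jet) * tw * Mo R m * nT s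

def pjP (P : Mi → Fin 4 → Prop) (R : ℕ) (m : BF) (s : ℕ) : Module.End ℝ V :=
  nT s - ri R m s * Jp P R m s

/-- projection onto the polynomial fields with tent current -/
def pj : ℕ → BF → ℕ → Module.End ℝ V := pjP fun α μ => ¬NT α μ

/-- projection onto the polynomial solutions -/
def pj0 : ℕ → BF → ℕ → Module.End ℝ V := pjP fun _ _ => False

/-- the constant of the projection -/
def KP (R s : ℕ) (t : ℝ) : ℝ :=
  8 * 7 ^ (s + 1) * t ^ (s + 2) * (1 + KM R * (4 * (2 * R + 1)) ^ (s + 1))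

variable {α : Mi} {ν μ : Fin 4} {a j : V} {R n k s ρ : ℕ} {t A B σ v K : ℝ} {m : BF}

instance (n : ℕ) : FiniteDimensional ℝ (Zc n) := Submodule.finiteDimensional_of_le inf_le_left

instance (R : ℕ) (m : BF) (s : ℕ) : FiniteDimensional ℝ (Pk R m s) :=
  Submodule.finiteDimensional_of_le inf_le_left

instance (R : ℕ) (m : BF) (s : ℕ) : FiniteDimensional ℝ (Pk0 R m s) :=
  Submodule.finiteDimensional_of_le inf_le_left

theorem mem_Tn : j ∈ Tn ↔ ∀ α μ, NT α μ → ∀ x, Dm α j (x, μ) = 0 := Iff.rfl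

theorem mem_Pk : a ∈ Pk R m s ↔ a ∈ Pd (s + 2) ∧ Mo R m a ∈ Tn := Iff.rfl

theorem mem_Pk0 : a ∈ Pk0 R m s ↔ a ∈ Pd (s + 2) ∧ Mo R m a = 0 := Iff.rfl

theorem Pk0_le : Pk0 R m s ≤ Pk R m s := fun _ h => ⟨h.1, by
  rw [SetLike.mem_coe, Submodule.mem_comap, (mem_Pk0.1 h).2]; exact zero_mem _⟩

theorem Pk_mono (h : s ≤ k) : Pk R m s ≤ Pk R m k := fun _ ha => ⟨Pd_mono (by omega) ha.1, ha.2⟩

theorem Pk0_mono (h : s ≤ k) : Pk0 R m s ≤ Pk0 R m k := fun _ ha => ⟨Pd_mono (by omega) ha.1, ha.2⟩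

theorem Tn_sh (h : j ∈ Tn) (x : St) : sh x j ∈ Tn := fun α μ h1 y => by
  rw [cov_Dm, sh_apply, h α μ h1]

theorem Pk_sh (h : a ∈ Pk R m s) (x : St) : sh x a ∈ Pk R m s :=
  mem_Pk.2 ⟨(cov_sh x).Pd h.1, by rw [cov_Mo]; exact Tn_sh h.2 x⟩

theorem Pk0_sh (h : a ∈ Pk0 R m s) (x : St) : sh x a ∈ Pk0 R m s :=
  mem_Pk0.2 ⟨(cov_sh x).Pd h.1, by rw [cov_Mo, (mem_Pk0.1 h).2]; rfl⟩

theorem tw_back (j : V) (x : St) (μ : Fin 4) : Dm α j (x, μ) = Dm α (tw j) (x + un μ, μ) := by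
  rw [← cov_tw.dm, tw_ap, add_sub_cancel_right]

theorem Lv.rng (h : Lv R m v σ) : Rng R R m := let ⟨_, _, _, _, _, h⟩ := h.inv; h.rng

theorem Lv.symm (h : Lv R m v σ) : ∀ a b, m a b = m b a := let ⟨_, _, _, _, _, h⟩ := h.inv; h.symm

theorem Lv.gauge (h : Lv R m v σ) : ∀ u b, m (gr u) b = 0 :=
  let ⟨_, _, _, _, _, h⟩ := h.inv; h.gauge

theorem Lv.bd (h : Lv R m v σ) (h1 : Cv (R + (ρ + R)) A a) : Sm ρ (KM R * A) (Mo R m a) :=
  let ⟨_, _, _, _, hU, h⟩ := h.inv; Mo_bd h hU h1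

theorem Sc.one (h : Sc R n σ t K) : 1 ≤ t :=
  le_trans (by linarith [(Nat.cast_nonneg R : (0 : ℝ) ≤ R)]) h.t1

theorem ep_nonneg (σ0 : 0 ≤ σ) (t0 : 0 ≤ t) : 0 ≤ ep R n σ t := by
  have := KM_nonneg R
  unfold ep
  positivity

theorem Sc.mono (h : Sc R n σ t K) (σ0 : 0 ≤ σ) {t' K' : ℝ} (ht : t ≤ t') (hK : K' ≤ K)
    (K1 : 8 * 7 ^ (n + 1) ≤ K') : Sc R n σ t' K' := by
  have := KM_nonneg R
  have t1 := h.one
  refine ⟨h.t1.trans ht, K1, le_trans (mul_le_mul hK ?_ (ep_nonneg σ0 (by linarith))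
    (le_trans (by positivity) h.K1)) h.sm⟩
  unfold ep
  gcongr

theorem KP_nonneg (R s : ℕ) (t0 : 0 ≤ t) : 0 ≤ KP R s t := by
  have := KM_nonneg R
  unfold KP
  positivity

theorem box_zero {x : St} (hx : x ∈ box 0) : x = 0 :=
  funext fun i => by simpa using La.mem_box.1 hx i

theorem wc_iff : Wc t A a ↔ ∀ α μ ν, |dd (Dm α a) 0 μ ν| ≤ A / t ^ dg α :=
  ⟨fun h α μ ν => h α 0 (zero_mem_box 0) μ ν, fun h α x hx μ ν => by
    rw [box_zero hx]; exact h α μ ν⟩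

theorem Wc.nonneg (h : Wc t A a) : 0 ≤ A := by simpa using (h 0).nonneg

theorem Wc.mono (h : Wc t A a) (t0 : 0 ≤ t) (hB : A ≤ B) : Wc t B a := fun α =>
  (h α).mono le_rfl (div_le_div_of_nonneg_right hB (by positivity))

theorem Wc.add {b : V} (h : Wc t A a) (h' : Wc t B b) : Wc t (A + B) (a + b) := fun α => by
  rw [map_add, add_div]
  exact (h α).add (h' α)

theorem Wc.smul (h : Wc t A a) (c : ℝ) : Wc t (|c| * A) (c • a) := wc_iff.2 fun α μ ν => by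
  have : dd (Dm α (c • a)) 0 μ ν = c * dd (Dm α a) 0 μ ν := by
    simp only [map_smul, dd, Pi.smul_apply, smul_eq_mul]; ring
  rw [this, abs_mul, mul_div_assoc]
  exact mul_le_mul_of_nonneg_left (wc_iff.1 h α μ ν) (abs_nonneg c)

theorem Wc.sub {b : V} (h : Wc t A a) (h' : Wc t B b) : Wc t (A + B) (a - b) := by
  simpa [sub_eq_add_neg] using h.add (h'.smul (-1))

theorem Wc.congr {b : V} (h : Wc t A a) (e : dd a = dd b) : Wc t A b := wc_iff.2 fun α μ ν => by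
  have : ∀ a, dd (Dm α a) 0 μ ν = Dm α (io μ a) (0, ν) := fun a => by rw [← (cov_io μ).dm, io_ap]
  rw [this, ← show io μ a = io μ b from funext fun _ => by rw [io_ap, e, io_ap], ← this]
  exact wc_iff.1 h α μ ν

theorem Wc.wb (h : Wc t A a) (ν : Fin 4) : Wb t A (io ν a) := fun α μ => by
  rw [jet_ap, ← (cov_io ν).dm]
  exact wc_iff.1 h α ν μ

theorem Pd_of_jet (ha : a ∈ Pd n) (h : ∀ α μ, k ≤ dg α → jet a α μ = 0) : a ∈ Pd k :=
  mem_Pd.2 fun α hα => Pd_ext ((cov_Dm α).Pd ha) fun β μ _ => by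
    rw [jet_Dm, h _ _ (by rw [dg_add]; omega)]

theorem Wb.nonneg (h : Wb t A a) : 0 ≤ A := by simpa using (abs_nonneg _).trans (h 0 0)

theorem M0_Gp (h : j ∈ Zc n) : M0 (Gp n j) = j :=
  sub_eq_zero.1 (Pd_ext (sub_mem (M0_Pd (nw_mem _ _)) h.1) fun α μ hα => by
    have h1 : ∀ ν κ, dg (α + ei ν + ei κ) < n + 2 := fun ν κ => by simp [dg_add, hα]
    rw [map_sub, Pi.sub_apply, Pi.sub_apply, jet_M0, sub_eq_zero]
    simp only [Gp, LinearMap.comp_apply, jet_nw, h1, if_true]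
    exact G0_eq (fun β => by rw [← jet_dv j β 0, LinearMap.mem_ker.1 h.2, map_zero]; rfl) α μ)

theorem Gp_bd (t1 : 1 ≤ t) (h : Wb t A j) : Wb t (7 ^ (n + 1) * t ^ 2 * A) (Gp n j) := fun α μ => by
  have A0 := h.nonneg
  simp only [Gp, LinearMap.comp_apply, jet_nw]
  split_ifs with h1
  · refine (G0_bd (A := t ^ 2 * A / t ^ dg α) (by positivity) (fun β i hβ => (h β i).trans_eq
      (by rw [← hβ, pow_add]; field_simp)) μ).trans ?_
    rw [mul_assoc, mul_div_assoc (7 ^ (n + 1))]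
    exact mul_le_mul_of_nonneg_right (pow_le_pow_right₀ (by norm_num) (by omega)) (by positivity)
  · rw [abs_zero]
    positivity

theorem Wb.io (t1 : 1 ≤ t) (h : Wb t A a) (ν : Fin 4) : Wb t (2 * A / t) (io ν a) := fun α μ => by
  rw [jet_ap, ← (cov_io ν).dm, io_ap, dd_Dm]
  refine (abs_sub _ _).trans ((add_le_add (h _ _) (h _ _)).trans_eq ?_)
  simp only [dg_add, dg_ei, pow_succ]
  field_simp
  ring

theorem Wb.wc (t1 : 1 ≤ t) (h : Wb t A a) : Wc t (2 * A / t) a := wc_iff.2 fun α ν μ => by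
  have := h.io t1 ν α μ
  rwa [jet_ap, ← (cov_io ν).dm] at this

theorem Wb.sm (t1 : 1 ≤ t) (h : Wb t A a) (ha : a ∈ Pd n) (hρ : 4 * (ρ : ℝ) ≤ t) (α : Mi) :
    Sm ρ (n * (A / t ^ dg α)) (Dm α a) := by
  have A0 := h.nonneg
  refine (Pd_sm ((cov_Dm α).Pd ha) (fun i => A / t ^ dg α / t ^ i) (fun β μ _ => ?_) ρ).mono le_rfl
    ((sum_le_card_nsmul _ _ (A / t ^ dg α) fun i _ => ?_).trans_eq (by simp))
  · rw [jet_Dm, div_div, ← pow_add, add_comm β, ← dg_add]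
    exact h _ _
  · rw [mul_div_assoc', div_le_iff₀ (by positivity), mul_comm]
    gcongr

theorem Wc.cv (t1 : 1 ≤ t) (h : Wc t A a) (ha : a ∈ Pd (n + 1)) (hρ : 4 * (ρ : ℝ) ≤ t) (α : Mi) :
    Cv ρ (n * (A / t ^ dg α)) (Dm α a) := cv_iff.2 fun ν => by
  rw [(cov_io ν).dm]
  exact (h.wb ν).sm t1 (io_Pd ha ν) hρ α

theorem Gp_Pd (h : j ∈ Pd k) : Gp n j ∈ Pd (k + 2) := Pd_of_jet (nw_mem _ _) fun α μ hα => by
  simp only [Gp, LinearMap.comp_apply, jet_nw]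
  split_ifs
  · simpa using G0_bd (c := jet j) (α := α) le_rfl (fun β i hβ => by
      rw [jet_ap, Pd_ge h (by omega)]; simp) μ
  · rfl

theorem Lv.pert (hm : Lv R m v σ) (ht : 4 * (2 * R + 1) ≤ t) (ha : a ∈ Pd (n + 2)) (h : Wc t A a)
    (α : Mi) (μ : Fin 4) : |jet (tw (Mo R m a)) α μ - v * jet (M0 a) α μ| ≤
      ep R n σ t * A / t / t ^ dg α := by
  obtain ⟨k, cL, cU, -, hU, hi⟩ := hm.inv
  have t1 : 1 ≤ t := le_trans (by linarith [(Nat.cast_nonneg R : (0 : ℝ) ≤ R)]) ht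
  have h2 := Mo_M0 (b := Dm α a) hi hU hm.cd hm.σ0 (δ := A / t ^ (dg α + 1))
    (ε := (n + 1 : ℕ) * (A / t ^ (dg α + 2)))
    (fun ν => by simpa only [Dm_succ_ap', dg_add, dg_ei] using h (α + ei ν))
    (fun β hβ => by
      have := h.cv (ρ := 2 * R + 1) t1 ha (by exact_mod_cast ht) (β + α)
      rwa [dg_add, hβ, add_comm 2, ← Dm_Dm] at this) μ
  rw [(cov_Mo R m).dm, cov_tw.dm, cov_M0.dm] at h2
  refine h2.trans_eq ?_
  rw [ep]
  push_cast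
  field_simp
  ring

theorem Lv.apri (hm : Lv R m v σ) (ht : Sc R n σ t K) (hj : j ∈ Zc n)
    (h : Wb t B (tw (Mo R m (Gp n j)))) : Wb t (4 * B) j := by
  have t1 := ht.one
  obtain ⟨p, -, hp⟩ := exists_max_image (Ix (n + 1) ×ˢ univ)
    (fun p : Mi × Fin 4 => |jet j p.1 p.2| * t ^ dg p.1)
    ⟨(0, 0), mem_product.2 ⟨mem_Ix.2 (by simp), mem_univ _⟩⟩
  have h1 : Wb t (|jet j p.1 p.2| * t ^ dg p.1) j := fun α μ => by
    by_cases hα : dg α < n + 1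
    · rw [le_div_iff₀ (by positivity)]
      exact hp (α, μ) (mem_product.2 ⟨mem_Ix.2 hα, mem_univ _⟩)
    · rw [jet_ap, Pd_ge hj.1 (by omega), Pi.zero_apply, abs_zero]
      positivity
  have h2 := hm.pert (a := Gp n j) ht.t1 (nw_mem _ _) ((Gp_bd (n := n) t1 h1).wc t1) p.1 p.2
  rw [M0_Gp hj] at h2
  have h6 := mul_le_mul_of_nonneg_right ((mul_le_mul_of_nonneg_right ht.K1
    (ep_nonneg hm.σ0 (by linarith))).trans ht.sm) (abs_nonneg (jet j p.1 p.2))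
  replace h2 := h2.trans_eq (b := _) (c := 8 * 7 ^ (n + 1) * ep R n σ t * |jet j p.1 p.2| / 4)
    (by field_simp; ring)
  have h3 := h p.1 p.2
  have h4 := abs_sub_abs_le_abs_sub (v * jet j p.1 p.2) (jet (tw (Mo R m (Gp n j))) p.1 p.2)
  rw [abs_sub_comm, abs_mul, abs_of_nonneg (by linarith [hm.v1] : 0 ≤ v)] at h4
  have h5 : |jet j p.1 p.2| ≤ 4 * B / t ^ dg p.1 := by
    rw [mul_div_assoc]
    nlinarith [abs_nonneg (jet j p.1 p.2), hm.v1]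
  rw [le_div_iff₀ (by positivity)] at h5
  exact fun α μ => (h1 α μ).trans (div_le_div_of_nonneg_right h5 (by positivity))

theorem Lv.mem (hm : Lv R m v σ) (ha : a ∈ Pd (n + 2)) : tw (Mo R m a) ∈ Zc n :=
  ⟨cov_tw.Pd (Mo_Pd hm.rng hm.symm hm.gauge ha), dv_tw hm.rng hm.symm hm.gauge a⟩

theorem Zc_mono (h : k ≤ n) : Zc k ≤ Zc n := fun _ hj => ⟨Pd_mono h hj.1, hj.2⟩

theorem Lv.inj (hm : Lv R m v σ) (ht : Sc R n σ t K) (hj : j ∈ Zc n)
    (h : tw (Mo R m (Gp n j)) = 0) : j = 0 := Pd_ext hj.1 fun α μ _ => by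
  simpa using hm.apri (B := 0) ht hj (fun α μ => by rw [h]; simp) α μ

theorem Lv.equiv (hm : Lv R m v σ) (ht : Sc R n σ t K) (hk : k ≤ n) : ∃ E : Zc k →ₗ[ℝ] Zc k,
    ∀ j, tw (Mo R m (Gp n (E j))) = j := by
  let T : Zc k →ₗ[ℝ] Zc k := (tw * Mo R m * Gp n).restrict fun j hj => hm.mem (Gp_Pd hj.1)
  have hi : Function.Injective T := (injective_iff_map_eq_zero T).2 fun j hj => Subtype.ext
    (hm.inj ht (Zc_mono hk j.2) (congrArg Subtype.val hj))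
  exact ⟨(LinearEquiv.ofInjectiveEndo T hi).symm.toLinearMap, fun j =>
    congrArg Subtype.val ((LinearEquiv.ofInjectiveEndo T hi).apply_symm_apply j)⟩

theorem Lv.ri (hm : Lv R m v σ) (ht : Sc R n σ t K) : RI R m n (ri R m n) := by
  obtain ⟨E, hE⟩ := hm.equiv ht le_rfl
  obtain ⟨g, hg⟩ := (Zc n).subtype.exists_leftInverse_of_injective (Zc n).ker_subtype
  refine Classical.epsilon_spec ⟨Gp n ∘ₗ (Zc n).subtype ∘ₗ E ∘ₗ g, fun j hj =>
    ⟨E ⟨j, hj⟩, (E _).2, ?_, hE ⟨j, hj⟩⟩⟩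
  rw [← show g j = ⟨j, hj⟩ from LinearMap.congr_fun hg ⟨j, hj⟩]
  rfl

theorem Lv.ri_eq (hm : Lv R m v σ) (ht : Sc R n σ t K) (hj : j ∈ Zc n) :
    tw (Mo R m (Jt.ri R m n j)) = j := by
  obtain ⟨i, -, h1, h2⟩ := hm.ri ht j hj
  rw [h1, h2]

theorem Lv.ri_bd (hm : Lv R m v σ) (ht : Sc R n σ t K) (hj : j ∈ Zc n) (h : Wb t B j) :
    Wc t (8 * 7 ^ (n + 1) * t * B) (Jt.ri R m n j) := by
  obtain ⟨i, hi, h1, h2⟩ := hm.ri ht j hj
  have t1 := ht.one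
  rw [h1]
  exact ((Gp_bd t1 (hm.apri ht hi (h2.symm ▸ h))).wc t1).mono (by linarith)
    (le_of_eq (by field_simp; ring))

theorem Lv.ri_Pd (hm : Lv R m v σ) (ht : Sc R n σ t K) (hk : k ≤ n) (hj : j ∈ Zc k) :
    Jt.ri R m n j ∈ Pd (k + 2) := by
  obtain ⟨i, hi, h1, h2⟩ := hm.ri ht j (Zc_mono hk hj)
  obtain ⟨E, hE⟩ := hm.equiv ht hk
  have := hm.inj ht (sub_mem hi (Zc_mono hk (E ⟨j, hj⟩).2)) (by
    rw [map_sub, map_sub, map_sub, h2, hE, sub_self])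
  rw [h1, sub_eq_zero.1 this]
  exact Gp_Pd (E _).2.1

open Classical in
theorem kp_ap (P : Mi → Fin 4 → Prop) (c : Jj) (α : Mi) (μ : Fin 4) :
    kp P c α μ = if P α μ then c α μ else 0 := by
  simp only [kp, LinearMap.pi_apply]
  split_ifs <;> rfl

theorem newton_jet (a : V) (hα : dg α ≤ s) (κ ν : Fin 4) :
    dd (Dm α (a - nw (s + 2) (jet a))) 0 κ ν = 0 := by
  have : ∀ κ, dg (α + ei κ) < s + 2 := fun κ => by simp only [dg_add, dg_ei]; omega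
  rw [dd_Dm]
  simp [jet_nw, this]

theorem newton_cv (h : ∀ γ, dg γ = s + 1 → Cv ρ A (Dm γ a)) (hρ : 1 ≤ ρ) (hα : dg α ≤ s + 1) :
    Cv ρ ((4 * ρ) ^ (s + 1) * A) (Dm α (a - nw (s + 2) (jet a))) := by
  obtain ⟨i, hi⟩ := Nat.exists_eq_add_of_le hα
  have A0 : 0 ≤ A := (h ((s + 1) • ei 0) (by simp [dg, ei_apply])).nonneg
  have t := taylor_cv (a := Dm α (a - nw (s + 2) (jet a))) (R := ρ) (ε := A) i (fun _ => 0)
    (fun β hβ x hx κ ν => by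
      obtain rfl : x = 0 := funext fun i => by simpa using La.mem_box.1 hx i
      rw [Dm_Dm, newton_jet a (by rw [dg_add]; omega), norm_zero]) fun β hβ x hx κ ν => by
      have h1 : dg (β + α) = s + 1 := by rw [dg_add]; omega
      have : io κ (Dm (β + α) (nw (s + 2) (jet a))) = 0 := by
        rw [(cov_io κ).dm, mem_Pd.1 (io_Pd (nw_mem _ _) κ) _ h1]
      rw [Dm_Dm, map_sub, dd_sub,
        show dd (Dm (β + α) (nw (s + 2) (jet a))) x κ ν = 0 from congrFun this (x, ν), sub_zero]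
      exact h _ h1 x hx κ ν
  simp only [mul_zero, sum_const_zero, zero_add] at t
  refine t.mono le_rfl (mul_le_mul_of_nonneg_right (pow_le_pow_right₀ ?_ (by omega)) A0)
  have : (1 : ℝ) ≤ ρ := by exact_mod_cast hρ
  linarith

theorem nT_eq (ha : a ∈ Pd (s + 2)) : nT s a = a := nw_jet ha

theorem nT_mem (s : ℕ) (a : V) : nT s a ∈ Pd (s + 2) := nw_mem _ _

section P

variable {P : Mi → Fin 4 → Prop}

open Classical in
theorem Lv.jet_Jp (hm : Lv R m v σ) (a : V) (α : Mi) (μ : Fin 4) : jet (Jp P R m s a) α μ =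
    if P α μ then 0 else jet (tw (Mo R m (nT s a))) α μ := by
  change jet (tw (Mo R m (nT s a)) - nw s (kp P (jet (tw (Mo R m (nT s a)))))) α μ = _
  have h : ¬dg α < s → jet (tw (Mo R m (nT s a))) α μ = 0 := fun h => by
    rw [jet_ap, Pd_ge (hm.mem (nT_mem s a)).1 (by omega), Pi.zero_apply]
  rw [map_sub, Pi.sub_apply, Pi.sub_apply, jet_nw, kp_ap]
  split_ifs with h1 <;> simp [*]

theorem Lv.Jp_mem (hm : Lv R m v σ) (hP : ∀ α ν κ, P (α + ei ν) ν → P (α + ei κ) κ)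
    (ha : nT s a ∈ Pd (k + 2)) : Jp P R m s a ∈ Zc k := by
  have h0 : Jp P R m s a ∈ Pd s := sub_mem (hm.mem (nT_mem s a)).1 (nw_mem _ _)
  refine ⟨Pd_of_jet h0 fun α μ hα => ?_, Pd_ext (cov_dv.Pd h0) fun α μ _ => ?_⟩
  · rw [hm.jet_Jp, jet_ap, Pd_ge (hm.mem ha).1 hα, Pi.zero_apply, ite_self]
  · have h1 := jet_dv (tw (Mo R m (nT s a))) α 0
    rw [LinearMap.mem_ker.1 (hm.mem ha).2, map_zero] at h1
    simp only [jet_dv, hm.jet_Jp]
    by_cases h2 : P (α + ei 0) 0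
    · exact sum_eq_zero fun ν _ => if_pos (hP α 0 ν h2)
    · rw [sum_congr rfl fun ν _ => if_neg fun h => h2 (hP α ν 0 h)]
      exact h1.symm

theorem Lv.pjP_Pd (hm : Lv R m v σ) (ht : Sc R s σ t K)
    (hP : ∀ α ν κ, P (α + ei ν) ν → P (α + ei κ) κ) (hk : k ≤ s) (ha : nT s a ∈ Pd (k + 2)) :
    pjP P R m s a ∈ Pd (k + 2) := sub_mem ha (hm.ri_Pd ht hk (hm.Jp_mem hP ha))

theorem Lv.pjP_cur (hm : Lv R m v σ) (ht : Sc R s σ t K)
    (hP : ∀ α ν κ, P (α + ei ν) ν → P (α + ei κ) κ) (a : V) :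
    tw (Mo R m (pjP P R m s a)) = nw s (kp P (jet (tw (Mo R m (nT s a))))) := by
  change tw (Mo R m (nT s a - Jt.ri R m s (Jp P R m s a))) = _
  rw [map_sub, map_sub, hm.ri_eq ht (hm.Jp_mem hP (nT_mem s a))]
  exact sub_sub_cancel _ _

theorem Lv.pjP_bd (hm : Lv R m v σ) (ht : Sc R s σ t K)
    (hP : ∀ α ν κ, P (α + ei ν) ν → P (α + ei κ) κ)
    (h1 : ∀ γ, dg γ = s + 1 → Cv (2 * R + 1) A (Dm γ a))
    (h2 : ∀ α μ, ¬P α μ → dg α < s → ∀ x ∈ box 1, |Dm α (Mo R m a) (x, μ)| ≤ A) (hα : dg α ≤ s) :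
    Cv 0 (KP R s t * A) (Dm α (a - pjP P R m s a)) := by
  have t1 := ht.one
  have K0 := KM_nonneg R
  have A0 : 0 ≤ A := (h1 ((s + 1) • ei 0) (by simp [dg, ei_apply])).nonneg
  have h3 := hm.ri_bd ht (hm.Jp_mem hP (nT_mem s a))
    (B := t ^ s * ((1 + KM R * (4 * (2 * R + 1)) ^ (s + 1)) * A)) (fun β μ => by
    rw [hm.jet_Jp]
    split_ifs with h5
    · rw [abs_zero]
      positivity
    by_cases h4 : dg β < s
    · have x1 : 0 - un μ ∈ box 1 := by rw [zero_sub]; exact neg_mem_box (un_mem_box μ)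
      have e1 := h2 β μ h5 h4 _ x1
      have e2 := hm.bd (ρ := 1) ((newton_cv (α := β) h1 (by omega) (by omega)).mono
        (by omega) le_rfl) (0 - un μ, μ) (mem_lbox.2 x1)
      rw [(cov_Mo R m).dm, map_sub, map_sub, Pi.sub_apply, Real.norm_eq_abs, abs_sub_comm] at e2
      push_cast at e2
      have e3 := abs_sub_abs_le_abs_sub (Dm β (Mo R m (nT s a)) (0 - un μ, μ))
        (Dm β (Mo R m a) (0 - un μ, μ))
      rw [jet_ap, ← cov_tw.dm, tw_ap, le_div_iff₀ (by positivity), mul_comm]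
      exact mul_le_mul (pow_le_pow_right₀ t1 h4.le) (by
        change |Dm β (Mo R m (nT s a)) _ - _| ≤ _ at e2
        linarith) (abs_nonneg _) (by positivity)
    · rw [jet_ap, Pd_ge (hm.mem (nT_mem s a)).1 (by omega), Pi.zero_apply, abs_zero]
      positivity) α
  intro x hx κ ν
  obtain rfl := box_zero hx
  have h4 : dd (Dm α (a - nT s a)) 0 κ ν = 0 := newton_jet a hα κ ν
  change ‖dd (Dm α (a - (nT s a - Jt.ri R m s (Jp P R m s a)))) 0 κ ν‖ ≤ _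
  rw [← sub_add, map_add, dd_add, h4, zero_add]
  refine (h3 0 hx κ ν).trans ((div_le_self (by positivity) (one_le_pow₀ t1)).trans ?_)
  calc _ = KP R s t * A * 1 / t := by rw [KP]; field_simp; ring
    _ ≤ _ := by
      rw [mul_one]
      exact div_le_self (mul_nonneg (KP_nonneg R s (by linarith)) A0) t1

end P

theorem nw_Tn (s : ℕ) (c : Jj) : nw s (kp (fun α μ => ¬NT α μ) c) ∈ Tn := by
  rw [nw_ap]
  refine sum_mem fun α _ => sum_mem fun μ _ => ?_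
  rw [kp_ap]
  split_ifs with h
  · rw [zero_smul]
    exact zero_mem _
  refine Submodule.smul_mem _ _ fun β ν hβ x => ?_
  by_cases h1 : β ≤ α
  · obtain ⟨γ, rfl⟩ := exists_add_of_le h1
    rw [add_comm, Dm_nb, nb, if_neg]
    rintro rfl
    refine h ⟨fun h2 => hβ.1 (add_eq_zero.1 h2).1, fun h2 => ?_⟩
    have h3 := congrArg dg h2
    rw [dg_add, dg_ei] at h3
    rcases Nat.add_eq_one_iff.1 h3 with h4 | h4
    · exact hβ.1 (dg_eq_zero h4.1)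
    · exact hβ.2 (by simpa [dg_eq_zero h4.2] using h2)
  · rw [Dm_nb0 h1, Pi.zero_apply]

theorem hP_NT (α : Mi) (ν κ : Fin 4) (h : ¬NT (α + ei ν) ν) : ¬NT (α + ei κ) κ := fun h1 => h
  ⟨fun h2 => by simpa [dg_add] using congrArg dg h2, fun h2 => h1.2 (by
    rw [add_eq_right.1 h2, zero_add])⟩

theorem tw_inj (h : tw j = 0) : j = 0 := funext fun e => by
  simpa [h] using tw_back (α := 0) j e.1 e.2

theorem Tn_of_tw (h : tw j ∈ Tn) : j ∈ Tn := fun α μ hα x => by rw [tw_back, h α μ hα]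

theorem Tn_tw (h : j ∈ Tn) : tw j ∈ Tn := fun α μ hα x => by rw [← cov_tw.dm, tw_ap, h α μ hα]

theorem Lv.pj_mem (hm : Lv R m v σ) (ht : Sc R s σ t K) (hk : k ≤ s) (ha : nT s a ∈ Pd (k + 2)) :
    pj R m s a ∈ Pk R m k :=
  mem_Pk.2 ⟨hm.pjP_Pd ht hP_NT hk ha, Tn_of_tw (by
    rw [pj, hm.pjP_cur ht hP_NT]; exact nw_Tn _ _)⟩

theorem Lv.pj_bd (hm : Lv R m v σ) (ht : Sc R s σ t K)
    (h1 : ∀ γ, dg γ = s + 1 → Cv (2 * R + 1) A (Dm γ a))
    (h2 : ∀ α μ, NT α μ → dg α < s → ∀ x ∈ box 1, |Dm α (Mo R m a) (x, μ)| ≤ A) (hα : dg α ≤ s) :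
    Cv 0 (KP R s t * A) (Dm α (a - pj R m s a)) :=
  hm.pjP_bd ht hP_NT h1 (fun α μ h => h2 α μ (not_not.1 h)) hα

theorem Lv.pj0_mem (hm : Lv R m v σ) (ht : Sc R s σ t K) (hk : k ≤ s) (ha : nT s a ∈ Pd (k + 2)) :
    pj0 R m s a ∈ Pk0 R m k :=
  mem_Pk0.2 ⟨hm.pjP_Pd ht (fun _ _ _ h => h) hk ha, tw_inj (by
    rw [pj0, hm.pjP_cur ht fun _ _ _ h => h]; simp [nw_ap, kp_ap])⟩

theorem Lv.pj0_bd (hm : Lv R m v σ) (ht : Sc R s σ t K)
    (h1 : ∀ γ, dg γ = s + 1 → Cv (2 * R + 1) A (Dm γ a))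
    (h2 : ∀ α μ, dg α < s → ∀ x ∈ box 1, |Dm α (Mo R m a) (x, μ)| ≤ A) (hα : dg α ≤ s) :
    Cv 0 (KP R s t * A) (Dm α (a - pj0 R m s a)) :=
  hm.pjP_bd ht (fun _ _ _ h => h) h1 (fun α μ _ => h2 α μ) hα

end Pool.Agent.Lib.MP_7f377f_mp.RG.Jt
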