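import Mathlib

/-! Quantum Yang-Mills theory on four dimensional space: the lattice approximation, the fields of
dimension four, the Wightman axioms, asymptotic freedom, the stress tensor. -/

noncomputable section

namespace Pool.Agent.Lib.MP_7f377f_mp.YF

open MeasureTheory MvPolynomial Filter Topology Complex Matrix Asymptotics
open scoped Kronecker ContDiff

/-- space-time -/
abbrev R4 : Type := EuclideanSpace ℝ (Fin 4)

/-- labels: `c` stands for the field `∑ c (i, j) (k, l) tr F i j F k l` -/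
abbrev Lab : Type := Matrix (Fin 4 × Fin 4) (Fin 4 × Fin 4) ℂ

/-- formal polynomials; `X (c, f)` is the field with the label `c` smeared with `f` -/
abbrev Fp : Type := MvPolynomial (Lab × (R4 → ℝ)) ℂ

/-- the scalar field, the sum of `tr F i j F i j` over `i < j` -/
def phi (f : R4 → ℝ) : Fp := X ((2⁻¹ : ℂ) • 1, f)

/-- matrices act on the labels -/
def rho (g : Matrix (Fin 4) (Fin 4) ℂ) (c : Lab) : Lab := g ⊗ₖ g * c * (g ⊗ₖ g)ᵀ

variable {G : Type} [Group G] {N n k : ℕ} (ρ : G →* unitaryGroup (Fin N) ℂ)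

/-- the action density: the sum of `N - Re tr ρ(U_p)` over the six plaquettes `p` with corner `x` -/
def dens (U : (Fin 4 → ZMod n) × Fin 4 → G) (x : Fin 4 → ZMod n) : ℝ :=
  ∑ i, ∑ j, if i < j then N - (ρ (U (x, i) * U (x + Pi.single i 1, j) *
    (U (x + Pi.single j 1, i))⁻¹ * (U (x, j))⁻¹)).1.trace.re else 0

/-- the Wilson measure on the torus with `n` sites per side -/
def wilson [MeasurableSpace G] (h : Measure G) (b : ℝ) (n : ℕ) [NeZero n] :
    Measure ((Fin 4 → ZMod n) × Fin 4 → G) :=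
  (Measure.pi fun _ => h).tilted fun U => -b * ∑ x, dens ρ U x

/-- the Wilson expectation; the variables are replaced by the centred smeared action density, the
torus is the cube of lattice spacing `a` centred at `0` -/
def vev [MeasurableSpace G] (h : Measure G) (b : ℝ) (n : ℕ) [NeZero n] (a : ℝ) (Z : Fp) : ℂ :=
  ∫ U, eval (fun p : Lab × (R4 → ℝ) => ((∑ x : Fin 4 → ZMod n,
    p.2 (WithLp.toLp 2 fun i => a * (x i).valMinAbs) *
      (dens ρ U x - ∫ V, dens ρ V x ∂wilson ρ h b n) : ℝ) : ℂ)) Z ∂wilson ρ h b n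

/-- continuously differentiable functions with pairwise disjoint compact supports -/
def Adm (f : Fin k → R4 → ℝ) : Prop :=
  (∀ i, HasCompactSupport (f i) ∧ ContDiff ℝ 1 (f i)) ∧
    Pairwise fun i j => Disjoint (tsupport (f i)) (tsupport (f j))

/-- linear combinations of admissible products of scalar fields with supports in `O` -/
def Loc (O : Set R4) : Set Fp := Submodule.span ℂ
  {Z | ∃ (k : ℕ) (f : Fin k → R4 → ℝ), Adm f ∧ (∀ i, tsupport (f i) ⊆ O) ∧ ∏ i, phi (f i) = Z}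

/-- insertion of `B i` and its time reflection -/
def ins {r : ℕ} (B : Fin r → Fp) (Z : Fp) : Fp :=
  ∑ i, rename (fun p => (p.1, fun y : R4 => p.2 (WithLp.toLp 2 (Function.update y 0 (-y 0)))))
    (map (starRingEnd ℂ) (B i)) * (Z * B i)

/-- the propagator of the Maxwell field strength -/
def pr (v : R4) (a b : Fin 4 × Fin 4) : ℝ :=
  ((1 - (2 / ‖v‖ ^ 2) • vecMulVec v v).submatrix ![a.1, a.2] ![b.1, b.2]).det / ‖v‖ ^ 4

/-- `π ^ (2 k)` times the correlation function of the fields with labels `c i` at the points `y i`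
for `d` free Maxwell fields -/
def free (d : ℕ) (c : Fin k → Lab) (y : Fin k → R4) : ℂ :=
  ∑ σ : Equiv.Perm (Fin k), if ∀ i, σ i ≠ i then (d / 2) ^ σ.cycleType.card *
    ∑ a : Fin k → Fin 4 × Fin 4, ∏ i, ∑ b, pr (y (σ i) - y i) (a i) b *
      (c (σ i) b (a (σ i)) + c (σ i) (a (σ i)) b) / 2 else 0

/-- Schwartz test functions -/
abbrev Tf : Type := SchwartzMap R4 ℂ

/-- the Minkowski product -/
def mink (x y : R4) : ℝ := x 0 * y 0 - x 1 * y 1 - x 2 * y 2 - x 3 * y 3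

/-- proper orthochronous Lorentz matrices -/
def Lor (L : Matrix (Fin 4) (Fin 4) ℝ) : Prop :=
  (∀ x y : R4, mink (WithLp.toLp 2 (L *ᵥ x)) (WithLp.toLp 2 (L *ᵥ y)) = mink x y) ∧
    L.det = 1 ∧ 0 < L 0 0

variable {H : Type} [NormedAddCommGroup H] [InnerProductSpace ℂ H]

/-- a strongly continuous unitary representation of the Poincare group with spectrum in the closed
forward cone, a unique invariant vector and a non zero Hamiltonian -/
def Poin (U : R4 → Matrix (Fin 4) (Fin 4) ℝ → H →L[ℂ] H) (Ω : H) : Prop :=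
  (∀ a L, Lor L → Function.Surjective (U a L) ∧ (∀ x, ‖U a L x‖ = ‖x‖) ∧ U a L Ω = Ω ∧
    ∀ (b : R4) M x, Lor M → U a L (U b M x) = U (a + WithLp.toLp 2 (L *ᵥ b)) (L * M) x) ∧
  (∀ x, ContinuousOn (fun p : R4 × Matrix _ _ ℝ => U p.1 p.2 x) {p | Lor p.2} ∧
    ∃ μ : Measure R4, IsFiniteMeasure μ ∧ (∀ᵐ p ∂μ, 0 ≤ p 0 ∧ 0 ≤ mink p p) ∧
      ∀ a, inner ℂ x (U a 1 x) = ∫ p, exp (I * mink a p) ∂μ) ∧
  ‖Ω‖ = 1 ∧ (∀ x, (∀ a, U a 1 x = x) → ∃ c : ℂ, x = c • Ω) ∧
  ∃ t x, U (EuclideanSpace.single 0 t) 1 x ≠ x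

/-- Wightman fields on the domain `D`: linear in the label and in the test function, tempered, with
adjoints `φ (star c, conj f)`, covariant and mutually local -/
def Wfield (U : R4 → Matrix (Fin 4) (Fin 4) ℝ → H →L[ℂ] H) (Ω : H) (D : Submodule ℂ H)
    (φ : Lab × Tf → H → H) : Prop :=
  Ω ∈ D ∧ Dense (Submodule.span ℂ (Set.range fun l : List _ => l.foldr φ Ω) : Set H) ∧
  ∀ x ∈ D, ∀ c f, φ (c, f) x ∈ D ∧
    (∀ (t : ℂ) g, φ (c, t • f + g) x = t • φ (c, f) x + φ (c, g) x) ∧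
    (∀ (t : ℂ) b, φ (t • c + b, f) x = t • φ (c, f) x + φ (b, f) x) ∧
    (∀ y ∈ D, (∀ t : ℂ, φ (c, f) (t • x + y) = t • φ (c, f) x + φ (c, f) y) ∧
      (Continuous fun g => inner ℂ y (φ (c, g) x)) ∧ ∀ g, (∀ u, g u = starRingEnd ℂ (f u)) →
        inner ℂ y (φ (c, f) x) = inner ℂ (φ (cᴴ, g) y) x) ∧
    (∀ a L, Lor L → U a L x ∈ D ∧ ∀ g, (∀ u : R4, g (a + WithLp.toLp 2 (L *ᵥ u)) = f u) →
      U a L (φ (c, f) x) = φ (rho (L.map (↑)) c, g) (U a L x)) ∧
    ∀ b (g : Tf), (∀ u ∈ tsupport f, ∀ v ∈ tsupport g, mink (u - v) (u - v) < 0) →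
      φ (c, f) (φ (b, g) x) = φ (b, g) (φ (c, f) x)

/-- the values of `W` and the vacuum expectation values of the fields are the values at imaginary
times and the boundary values of the same functions, holomorphic in the forward tube -/
def Wrot (W : Fp → ℂ) (Ω : H) (φ : Lab × Tf → H → H) : Prop :=
  ∀ n (c : Fin n → Lab), ∃ w : (Fin n → Fin 4 → ℂ) → ℂ,
    DifferentiableOn ℂ w {z | ∀ i j, i < j → ∀ y : R4,
      (∀ μ, y μ = (z j μ - z i μ).im) → 0 < y 0 ∧ 0 < mink y y} ∧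
    (∀ f, Adm f → (∀ i j, i < j → ∀ x ∈ tsupport (f i), ∀ y ∈ tsupport (f j), x 0 < y 0) →
      W (∏ i, X (c i, f i)) = ∫ y : Fin n → R4,
        (∏ i, (f i (y i) : ℂ)) * w fun i μ => if μ = 0 then I * y i μ else y i μ) ∧
    ∀ (f : Fin n → Tf) (G : ℝ → (Fin n → R4) → ℂ),
      (∀ ε x, G ε x =
        (∏ i, f i (x i)) * w fun i μ => x i μ + if μ = 0 then I * ε * (i : ℕ) else 0) →
      (∀ ε > 0, Integrable (G ε)) ∧ Tendsto (fun ε => ∫ x, G ε x) (𝓝[>] 0) (𝓝 (inner ℂ Ω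
        ((List.ofFn fun i => (rho (diagonal ![I, 1, 1, 1]) (c i), f i)).foldr φ Ω)))

/-- `W` is the Wick rotation of a multiplet of Wightman fields -/
def Wightman (W : Fp → ℂ) : Prop :=
  ∃ (H : Type) (_ : NormedAddCommGroup H) (_ : InnerProductSpace ℂ H) (_ : CompleteSpace H)
    (U : R4 → _ → H →L[ℂ] H) (Ω : H) (D : Submodule ℂ H) (φ : _ → H → H),
    Poin U Ω ∧ Wfield U Ω D φ ∧ Wrot W Ω φ

/-- asymptotic freedom: after a covariant renormalisation which is slower than any power and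
logarithmic for the scalar field the correlation functions converge to the free ones -/
def AF (q : ℝ) (d : ℕ) (W : Fp → ℂ) : Prop := ∃ M : ℝ → Lab ≃ₗ[ℂ] Lab,
  (∀ t g c, gᵀ * g = 1 → M t (rho g c) = rho g (M t c)) ∧
  (∀ t ∈ Set.Ioo (0 : ℝ) 1, M t 1 = Real.log t⁻¹ • 1) ∧
  (∀ ε > (0 : ℝ), ∀ c, Tendsto (fun t : ℝ => t ^ ε • (M t c, (M t).symm c)) (𝓝[>] 0) (𝓝 0)) ∧
  ∀ k (c : Fin k → Lab) f, Adm f →
    Tendsto (fun t : ℝ => W (∏ i, X (M t (c i), fun y => f i (t⁻¹ • y)))) (𝓝[>] 0)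
      (𝓝 (q ^ k * ∫ y : Fin k → R4, (∏ i, (f i (y i) : ℂ)) * free d c y))

/-- truncated correlation -/
def cov (W : Fp → ℂ) (Y Z : Fp) : ℂ := W (Y * Z) - W Y * W Z

/-- the stress tensor, a combination of `tr F μ l F ν l` and `δ μ ν tr F i j F i j`, is conserved,
generates the translations and appears in the product of two scalar fields -/
def Stress (κ : ℝ) (W : Fp → ℂ) : Prop := ∃ (s t : ℂ) (T : Fin 4 → Fin 4 → Lab),
  (∀ μ ν, T μ ν = (s • (single μ ν 1 + single ν μ 1) + if μ = ν then t • 1 else 0) ⊗ₖ 1) ∧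
  (∀ (k : ℕ) (g : Fin k → R4 → ℝ) (ξ : R4 → ℝ) (e : Fin k → ℝ) (ν : Fin 4), Adm g →
    (∀ i, ContDiff ℝ ∞ (g i) ∧ ∀ᶠ y in 𝓝ˢ (tsupport (g i)), ξ y = e i) → ContDiff ℝ ∞ ξ →
    HasCompactSupport ξ →
    ∑ μ, cov W (X (T μ ν, fun y => lineDeriv ℝ ξ y (EuclideanSpace.single μ 1))) (∏ i, phi (g i)) =
      ∑ i, e i * W (∏ j, phi (Function.update g i
        (fun y => lineDeriv ℝ (g i) y (EuclideanSpace.single ν 1)) j))) ∧
  ∀ (u : R4 → ℝ) (p : R4), (∀ x y, dist x p = dist y p → u x = u y) → Adm ![u, fun y => u (-y)] →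
    ∃ c : ℝ → ℂ, c =o[𝓝[>] 0] Real.log ∧ ∀ f, Adm ![f] → ∀ Z ∈ Loc (tsupport f)ᶜ,
      Tendsto (fun d : ℝ => (Real.log d ^ 2 / d ^ 4 : ℝ) * (∫ z, f z * cov W
        (phi (fun y => u (d⁻¹ • (y - z))) * phi fun y => u (d⁻¹ • (z - y))) Z) -
          c d * cov W (phi f) Z) (𝓝[>] 0) (𝓝 (∑ μ, ∑ ν, (κ * ∫ x, ∫ y, u x * u y *
            ((x + y) μ * (x + y) ν / ‖x + y‖ ^ 6) : ℝ) * cov W (X (T μ ν, f)) Z))

end Pool.Agent.Lib.MP_7f377f_mp.YF
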