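import Pool.Agent.Lib.MP_7f377f_mp.YF

/-! Asymptotic freedom and the operator product expansion for the fields of dimension four. -/

noncomputable section

namespace Pool.Agent.Lib.MP_7f377f_mp.YF

open MeasureTheory MvPolynomial Filter Topology Complex Matrix Asymptotics

/-- the label of the term with one propagator in the product of two free fields with labels `a` and
`b` at the distance `v` -/
def bl (a b : Lab) (v : R4) : Lab := (4⁻¹ : ℂ) •
  ((a + aᵀ) * (of fun i j => (pr v i j : ℂ)) * (b + bᵀ) +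
    (b + bᵀ) * (of fun i j => (pr v i j : ℂ)) * (a + aᵀ))

/-- after a covariant renormalisation which is slower than any power and logarithmic for the scalar
field the correlation functions converge to the free ones, and the product of two fields is a field
of dimension four up to a power of the distance, with the free coefficient in the limit -/
def AFO (q : ℝ) (d : ℕ) (W : Fp → ℂ) : Prop := ∃ M : ℝ → Lab ≃ₗ[ℂ] Lab,
  (∀ t g c, gᵀ * g = 1 → M t (rho g c) = rho g (M t c)) ∧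
  (∀ t ∈ Set.Ioo (0 : ℝ) 1, M t 1 = Real.log t⁻¹ • 1) ∧
  (∀ ε > (0 : ℝ), ∀ c, Tendsto (fun t : ℝ => t ^ ε • (M t c, (M t).symm c)) (𝓝[>] 0) (𝓝 0)) ∧
  (∀ k (c : Fin k → Lab) f, Adm f →
    Tendsto (fun t : ℝ => W (∏ i, X (M t (c i), fun y => f i (t⁻¹ • y)))) (𝓝[>] 0)
      (𝓝 (q ^ k * ∫ y : Fin k → R4, (∏ i, (f i (y i) : ℂ)) * free d c y))) ∧
  ∃ δ > (0 : ℝ), ∀ a b (u : Fin 2 → R4 → ℝ), Adm u → ∃ C : ℝ → Lab,
    Tendsto C (𝓝[>] 0) (𝓝 (of fun i j =>
      q * ∫ y : Fin 2 → R4, u 0 (y 0) * u 1 (y 1) * bl a b (y 1 - y 0) i j)) ∧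
    ∀ f, Adm ![f] → ∀ Z ∈ Loc (tsupport f)ᶜ, (fun t : ℝ => (∫ z, f z * cov W
      (X (M t a, fun y => u 0 (t⁻¹ • (y - z))) * X (M t b, fun y => u 1 (t⁻¹ • (y - z)))) Z) / t ^ 4 -
        cov W (X (M t (C t), f)) Z) =O[𝓝[>] 0] fun t => t ^ δ

end Pool.Agent.Lib.MP_7f377f_mp.YF
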