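import Pool.Agent.Lib.MP_7f377f_mp.Q4Det

/-! The determinant identity of one renormalisation step. -/

noncomputable section

namespace Pool.Agent.Lib.MP_7f377f_mp.RG.Q4

open Matrix Finset

set_option linter.unusedSectionVars false

variable {i s a w t s' : Type} [Fintype i] [DecidableEq i] [Fintype s] [DecidableEq s]
  [Fintype a] [DecidableEq a] [Fintype w] [DecidableEq w] [Fintype t] [DecidableEq t]
  [Fintype s'] [DecidableEq s']

theorem kap_right (Q : Matrix i i ℝ) (d : Matrix i s ℝ) (C : Matrix s i ℝ) (h : Matrix s s ℝ) :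
    kap Q (d * h) C = kap Q d C / h.det ^ 2 := by
  rw [kap, kap, ← Matrix.mul_assoc, det_mul]
  ring

/-- elimination of the tree variables `t` and of the fluctuation variables `a` -/
theorem kap_tree {J : Matrix (t ⊕ (a ⊕ w)) (t ⊕ (a ⊕ w)) ℝ} (hJ : Jᵀ = J)
    {Dt : Matrix t (t ⊕ s') ℝ} {Da : Matrix a (t ⊕ s') ℝ} {D' : Matrix w s' ℝ}
    {ρ : Matrix s' (t ⊕ s') ℝ} (hd : J * fromRows Dt (fromRows Da (D' * ρ)) = 0)
    (hΘ : (fromRows Dt ρ).det ≠ 0) (hA : J.toBlocks₂₂.toBlocks₁₁.det ≠ 0)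
    {C : Matrix (t ⊕ s') (t ⊕ (a ⊕ w)) ℝ} (hC : (C * fromRows Dt (fromRows Da (D' * ρ))).det ≠ 0)
    {C2 : Matrix s' w ℝ} (hC2 : (C2 * D').det ≠ 0) :
    kap J (fromRows Dt (fromRows Da (D' * ρ))) C * (fromRows Dt ρ).det ^ 2 =
      J.toBlocks₂₂.toBlocks₁₁.det * kap (J.toBlocks₂₂.toBlocks₂₂ -
        J.toBlocks₂₂.toBlocks₂₁ * J.toBlocks₂₂.toBlocks₁₁⁻¹ * J.toBlocks₂₂.toBlocks₁₂) D' C2 ∧
    (J.toBlocks₂₂.toBlocks₂₂ -
        J.toBlocks₂₂.toBlocks₂₁ * J.toBlocks₂₂.toBlocks₁₁⁻¹ * J.toBlocks₂₂.toBlocks₁₂) * D' = 0 := by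
  set Θ := fromRows Dt ρ with hΘ'
  have hu : IsUnit Θ.det := isUnit_iff_ne_zero.2 hΘ
  have h1 : fromRows (Dt * Θ⁻¹) (ρ * Θ⁻¹) = fromRows (fromCols 1 0) (fromCols 0 1) := by
    rw [← fromRows_mul, mul_nonsing_inv _ hu, fromRows_fromCols_eq_fromBlocks, fromBlocks_one]
  obtain ⟨h2, h3⟩ := fromRows_inj h1
  set E := Da * Θ⁻¹ with hE
  have h4 : fromRows Dt (fromRows Da (D' * ρ)) * Θ⁻¹ =
      fromBlocks 1 0 (fromRows E.toCols₁ 0) (fromRows E.toCols₂ D') := by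
    rw [fromRows_mul, fromRows_mul, h2, Matrix.mul_assoc, h3, mul_fromCols, ← hE]
    ext (x | x | x) (y | y) <;> simp
  have hi : Θ⁻¹.det * Θ.det = 1 := by rw [← det_mul, nonsing_inv_mul _ hu, det_one]
  have hi0 : Θ⁻¹.det ≠ 0 := left_ne_zero_of_mul_eq_one hi
  have h5 := kap_right J (fromRows Dt (fromRows Da (D' * ρ))) C Θ⁻¹
  have h6 : J * fromBlocks (1 : Matrix t t ℝ) 0 (fromRows E.toCols₁ 0) (fromRows E.toCols₂ D') = 0 := by
    rw [← h4, ← Matrix.mul_assoc, hd, Matrix.zero_mul]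
  have h7 : (C * fromBlocks (1 : Matrix t t ℝ) 0 (fromRows E.toCols₁ 0)
      (fromRows E.toCols₂ D')).det ≠ 0 := by
    rw [← h4, ← Matrix.mul_assoc, det_mul]
    exact mul_ne_zero hC hi0
  rw [h4] at h5
  have hJ' := hJ
  rw [← fromBlocks_toBlocks J] at h6 hJ'
  have g0 : (1 : Matrix t t ℝ).det ≠ 0 := by simp
  have h8 : (fromCols (0 : Matrix s' a ℝ) C2 * fromRows E.toCols₂ D').det ≠ 0 := by
    rwa [fromCols_mul_fromRows, Matrix.zero_mul, zero_add]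
  have h9 := kap_fix g0 hJ' h6 h7 (C3 := fromCols 0 C2)
    (by rwa [Matrix.mul_zero, sub_zero])
  have h10 := fix_null g0 h6
  simp only [Matrix.mul_zero, sub_zero, det_one, one_pow, div_one, fromBlocks_toBlocks] at h9 h10
  rw [← fromBlocks_toBlocks J.toBlocks₂₂] at h10
  refine ⟨?_, schur_null hA h10⟩
  rw [← kap_schur hA E.toCols₂, fromBlocks_toBlocks, ← h9, h5, div_eq_mul_inv, ← inv_pow,
    eq_inv_of_mul_eq_one_right hi]

/-- one step: `J` is the joint form of the fine variables `i` and the coarse variables `w`;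
`f` splits the fine variables into tree and fluctuation variables, `e` splits the fine gauge
parameters -/
theorem kap_step_gen {J11 : Matrix i i ℝ} {J12 : Matrix i w ℝ} {J21 : Matrix w i ℝ}
    {J22 : Matrix w w ℝ} (hJ : (fromBlocks J11 J12 J21 J22)ᵀ = fromBlocks J11 J12 J21 J22)
    {D : Matrix i s ℝ} {D' : Matrix w s' ℝ} {ρ : Matrix s' s ℝ}
    (hd : fromBlocks J11 J12 J21 J22 * fromRows D (D' * ρ) = 0) (f : t ⊕ a ≃ i) (e : t ⊕ s' ≃ s)
    (hΘ : ((fromRows (D.submatrix (f ∘ Sum.inl) id) ρ).submatrix id e).det ≠ 0)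
    (hA : (J11.submatrix (f ∘ Sum.inr) (f ∘ Sum.inr)).det ≠ 0) (h22 : J22.det ≠ 0)
    {C : Matrix s i ℝ} (hC : (C * D).det ≠ 0) {C2 : Matrix s' w ℝ} (hC2 : (C2 * D').det ≠ 0) :
    J22.det * kap (J11 - J12 * J22⁻¹ * J21) D C *
        ((fromRows (D.submatrix (f ∘ Sum.inl) id) ρ).submatrix id e).det ^ 2 =
      (J11.submatrix (f ∘ Sum.inr) (f ∘ Sum.inr)).det *
        kap (J22 - J21.submatrix id (f ∘ Sum.inr) * (J11.submatrix (f ∘ Sum.inr) (f ∘ Sum.inr))⁻¹ *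
          J12.submatrix (f ∘ Sum.inr) id) D' C2 ∧
    (J22 - J21.submatrix id (f ∘ Sum.inr) * (J11.submatrix (f ∘ Sum.inr) (f ∘ Sum.inr))⁻¹ *
          J12.submatrix (f ∘ Sum.inr) id) * D' = 0 := by
  set g : t ⊕ (a ⊕ w) ≃ i ⊕ w := (Equiv.sumAssoc t a w).symm.trans (f.sumCongr (Equiv.refl w))
    with hg
  have e1 : (fromRows D (D' * ρ)).submatrix g e =
      fromRows (D.submatrix (f ∘ Sum.inl) e)
        (fromRows (D.submatrix (f ∘ Sum.inr) e) (D' * ρ.submatrix id e)) := by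
    ext (x | x | x) y <;> simp [hg, Matrix.mul_apply]
  have e2 : (fromRows (D.submatrix (f ∘ Sum.inl) id) ρ).submatrix id e =
      fromRows (D.submatrix (f ∘ Sum.inl) e) (ρ.submatrix id e) := by
    ext (x | x) y <;> simp
  have e3 : fromCols C (0 : Matrix s w ℝ) * fromRows D (D' * ρ) = C * D := by
    rw [fromCols_mul_fromRows, Matrix.zero_mul, add_zero]
  have key := kap_tree (J := (fromBlocks J11 J12 J21 J22).submatrix g g)
    (by rw [transpose_submatrix, hJ]) (Dt := D.submatrix (f ∘ Sum.inl) e)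
    (Da := D.submatrix (f ∘ Sum.inr) e) (D' := D') (ρ := ρ.submatrix id e)
    (by rw [← e1, submatrix_mul_equiv, hd]; rfl) (e2 ▸ hΘ) hA
    (C := (fromCols C 0).submatrix e g)
    (by rw [← e1, submatrix_mul_equiv, det_submatrix_equiv_self, e3]; exact hC) hC2
  rw [← e1, kap_reindex, kap_schur' h22, ← e2] at key
  exact key

/-- one step for the joint form `x H x + (v - B x) N (v - B x)` -/
theorem kap_step {H : Matrix i i ℝ} {N : Matrix w w ℝ} {B : Matrix w i ℝ} (hH : Hᵀ = H)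
    (hN : Nᵀ = N) {D : Matrix i s ℝ} {D' : Matrix w s' ℝ} {ρ : Matrix s' s ℝ} (hd : H * D = 0)
    (hB : B * D = D' * ρ) (f : t ⊕ a ≃ i) (e : t ⊕ s' ≃ s)
    (hΘ : ((fromRows (D.submatrix (f ∘ Sum.inl) id) ρ).submatrix id e).det ≠ 0)
    (hA : ((H + Bᵀ * N * B).submatrix (f ∘ Sum.inr) (f ∘ Sum.inr)).det ≠ 0) (h22 : N.det ≠ 0)
    {C : Matrix s i ℝ} (hC : (C * D).det ≠ 0) {C2 : Matrix s' w ℝ} (hC2 : (C2 * D').det ≠ 0) :
    N.det * kap H D C * ((fromRows (D.submatrix (f ∘ Sum.inl) id) ρ).submatrix id e).det ^ 2 =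
      ((H + Bᵀ * N * B).submatrix (f ∘ Sum.inr) (f ∘ Sum.inr)).det *
        kap (N - (N * B).submatrix id (f ∘ Sum.inr) *
          ((H + Bᵀ * N * B).submatrix (f ∘ Sum.inr) (f ∘ Sum.inr))⁻¹ *
            (Bᵀ * N).submatrix (f ∘ Sum.inr) id) D' C2 ∧
    (N - (N * B).submatrix id (f ∘ Sum.inr) *
          ((H + Bᵀ * N * B).submatrix (f ∘ Sum.inr) (f ∘ Sum.inr))⁻¹ *
            (Bᵀ * N).submatrix (f ∘ Sum.inr) id) * D' = 0 := by
  have hu : IsUnit N.det := isUnit_iff_ne_zero.2 h22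
  have key := kap_step_gen (J11 := H + Bᵀ * N * B) (J12 := -(Bᵀ * N)) (J21 := -(N * B)) (J22 := N)
    (by
      rw [fromBlocks_transpose]
      simp only [transpose_add, transpose_mul, transpose_neg, transpose_transpose, hH, hN,
        Matrix.mul_assoc])
    (D := D) (D' := D') (ρ := ρ)
    (by
      rw [fromBlocks_mul_fromRows, ← hB, ← fromRows_zero]
      simp only [Matrix.add_mul, Matrix.neg_mul, hd, Matrix.mul_assoc, zero_add, add_neg_cancel,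
        neg_add_cancel]) f e hΘ hA h22 hC hC2
  have e1 : H + Bᵀ * N * B - -(Bᵀ * N) * N⁻¹ * -(N * B) = H := by
    rw [Matrix.neg_mul, Matrix.neg_mul, Matrix.mul_neg, neg_neg, Matrix.mul_assoc Bᵀ N N⁻¹,
      mul_nonsing_inv _ hu, Matrix.mul_one, Matrix.mul_assoc, add_sub_cancel_right]
  rw [e1] at key
  simpa only [submatrix_neg, Pi.neg_apply, Matrix.neg_mul, Matrix.mul_neg, neg_neg] using key

/-- the Schur complement is the minimum of the form over the eliminated variables -/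
theorem schur_form {Haa : Matrix a a ℝ} {Haw : Matrix a w ℝ} {Hwa : Matrix w a ℝ}
    {Hww : Matrix w w ℝ} (hs : (fromBlocks Haa Haw Hwa Hww)ᵀ = fromBlocks Haa Haw Hwa Hww)
    (hA : Haa.det ≠ 0) (x : a → ℝ) (v : w → ℝ) :
    Sum.elim x v ⬝ᵥ fromBlocks Haa Haw Hwa Hww *ᵥ Sum.elim x v =
      v ⬝ᵥ (Hww - Hwa * Haa⁻¹ * Haw) *ᵥ v +
        (x + (Haa⁻¹ * Haw) *ᵥ v) ⬝ᵥ Haa *ᵥ (x + (Haa⁻¹ * Haw) *ᵥ v) := by
  have hu : IsUnit Haa.det := isUnit_iff_ne_zero.2 hA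
  rw [fromBlocks_transpose] at hs
  obtain ⟨h1, h2, h3, -⟩ := fromBlocks_inj.1 hs
  have e1 : Haa *ᵥ (Haa⁻¹ * Haw) *ᵥ v = Haw *ᵥ v := by
    rw [mulVec_mulVec, ← Matrix.mul_assoc, mul_nonsing_inv _ hu, Matrix.one_mul]
  have e2 : ∀ y : a → ℝ, v ⬝ᵥ Hwa *ᵥ y = y ⬝ᵥ Haw *ᵥ v := fun y => by
    rw [← h3, dotProduct_mulVec, vecMul_transpose, dotProduct_comm]
  have e3 : ∀ y z : a → ℝ, y ⬝ᵥ Haa *ᵥ z = z ⬝ᵥ Haa *ᵥ y := fun y z => by
    conv_lhs => rw [← h1, dotProduct_mulVec, vecMul_transpose, dotProduct_comm]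
  rw [fromBlocks_mulVec, sumElim_dotProduct_sumElim]
  simp only [Sum.elim_comp_inl, Sum.elim_comp_inr]
  rw [dotProduct_add, dotProduct_add, sub_mulVec, dotProduct_sub, Matrix.mul_assoc,
    ← mulVec_mulVec _ Hwa, e2, e2, mulVec_add, e1, add_dotProduct, dotProduct_add, dotProduct_add,
    e3 ((Haa⁻¹ * Haw) *ᵥ v) x, e1]
  ring

end Pool.Agent.Lib.MP_7f377f_mp.RG.Q4
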