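import Mathlib

/-! Gauge fixed determinants of degenerate quadratic forms, perturbation of determinants. -/

noncomputable section

namespace Pool.Agent.Lib.MP_7f377f_mp.RG.Q4

open Matrix Finset
open scoped Kronecker

set_option linter.unusedSectionVars false

variable {i s a w t r s2 o i' s' : Type} [Fintype i] [DecidableEq i] [Fintype s] [DecidableEq s]
  [Fintype a] [DecidableEq a] [Fintype w] [DecidableEq w] [Fintype t] [DecidableEq t]
  [Fintype r] [DecidableEq r] [Fintype s2] [DecidableEq s2] [Fintype o] [DecidableEq o]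
  [Fintype i'] [DecidableEq i'] [Fintype s'] [DecidableEq s']

/-- determinant of the form `Q` modulo the null directions `d`, with gauge fixing `C` -/
def kap (Q : Matrix i i ℝ) (d : Matrix i s ℝ) (C : Matrix s i ℝ) : ℝ :=
  (Q + Cᵀ * C).det / (C * d).det ^ 2

section algebra

/-- (a) independence of the gauge fixing -/
theorem kap_indep {Q : Matrix i i ℝ} {d : Matrix i s ℝ} (hQ : Qᵀ = Q) (hd : Q * d = 0)
    {C C2 : Matrix s i ℝ} (hC : (C * d).det ≠ 0) (hC2 : (C2 * d).det ≠ 0) :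
    kap Q d C = kap Q d C2 := by
  have hu : IsUnit (C * d).det := isUnit_iff_ne_zero.2 hC
  set X := (C * d)⁻¹ * (C2 - C) with hX
  have hd' : dᵀ * Q = 0 := by rw [← hQ, ← transpose_mul, hd, transpose_zero]
  have h1 : C * (1 + d * X) = C2 := by
    rw [Matrix.mul_add, Matrix.mul_one, ← Matrix.mul_assoc, hX, ← Matrix.mul_assoc,
      mul_nonsing_inv _ hu, Matrix.one_mul, add_sub_cancel]
  have h2 : Q * (1 + d * X) = Q := by
    rw [Matrix.mul_add, Matrix.mul_one, ← Matrix.mul_assoc, hd, Matrix.zero_mul, add_zero]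
  have h3 : (1 + d * X)ᵀ * Q = Q := by
    rw [transpose_add, transpose_one, transpose_mul, Matrix.add_mul, Matrix.one_mul,
      Matrix.mul_assoc, hd', Matrix.mul_zero, add_zero]
  have h4 : (1 + d * X)ᵀ * (Q + Cᵀ * C) * (1 + d * X) = Q + C2ᵀ * C2 := by
    rw [Matrix.mul_add _ Q, h3, Matrix.add_mul, h2, ← Matrix.mul_assoc, ← transpose_mul, h1,
      Matrix.mul_assoc, h1]
  have h5 : (C * d).det * (1 + d * X).det = (C2 * d).det := by
    rw [det_one_add_mul_comm, ← det_mul, Matrix.mul_add, Matrix.mul_one, hX, Matrix.mul_assoc (C * d)⁻¹,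
      ← Matrix.mul_assoc (C * d), mul_nonsing_inv _ hu, Matrix.one_mul, Matrix.sub_mul,
      add_sub_cancel]
  have h6 : (1 + d * X).det ≠ 0 := fun h => hC2 (by rw [← h5, h, mul_zero])
  rw [kap, kap, ← h4, ← h5, det_mul, det_mul, det_transpose]
  field_simp

/-- (b) elimination of the first block -/
theorem kap_schur {Haa : Matrix a a ℝ} {Haw : Matrix a w ℝ} {Hwa : Matrix w a ℝ}
    {Hww : Matrix w w ℝ} (hA : Haa.det ≠ 0) (da : Matrix a s ℝ) (dw : Matrix w s ℝ)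
    (C : Matrix s w ℝ) :
    kap (fromBlocks Haa Haw Hwa Hww) (fromRows da dw) (fromCols 0 C) =
      Haa.det * kap (Hww - Hwa * Haa⁻¹ * Haw) dw C := by
  have := invertibleOfIsUnitDet Haa (isUnit_iff_ne_zero.2 hA)
  rw [kap, kap, fromCols_mul_fromRows, transpose_fromCols, fromRows_mul_fromCols, fromBlocks_add,
    Matrix.zero_mul, zero_add, transpose_zero, Matrix.zero_mul, Matrix.zero_mul, Matrix.mul_zero,
    add_zero, add_zero, add_zero, det_fromBlocks₁₁, invOf_eq_nonsing_inv, mul_div_assoc,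
    add_sub_right_comm]

theorem schur_null {Haa : Matrix a a ℝ} {Haw : Matrix a w ℝ} {Hwa : Matrix w a ℝ}
    {Hww : Matrix w w ℝ} (hA : Haa.det ≠ 0) {da : Matrix a s ℝ} {dw : Matrix w s ℝ}
    (h : fromBlocks Haa Haw Hwa Hww * fromRows da dw = 0) :
    (Hww - Hwa * Haa⁻¹ * Haw) * dw = 0 := by
  rw [fromBlocks_mul_fromRows, ← fromRows_zero] at h
  obtain ⟨h1, h2⟩ := fromRows_inj h
  have h3 : Haw * dw = -(Haa * da) := eq_neg_of_add_eq_zero_right h1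
  rw [Matrix.sub_mul, Matrix.mul_assoc, h3, Matrix.mul_neg, Matrix.mul_assoc,
    ← Matrix.mul_assoc Haa⁻¹, nonsing_inv_mul _ (isUnit_iff_ne_zero.2 hA), Matrix.one_mul,
    sub_neg_eq_add, add_comm, h2]

theorem schur_symm {Haa : Matrix a a ℝ} {Haw : Matrix a w ℝ} {Hwa : Matrix w a ℝ}
    {Hww : Matrix w w ℝ} (h : (fromBlocks Haa Haw Hwa Hww)ᵀ = fromBlocks Haa Haw Hwa Hww) :
    (Hww - Hwa * Haa⁻¹ * Haw)ᵀ = Hww - Hwa * Haa⁻¹ * Haw ∧
      (Haa - Haw * Hww⁻¹ * Hwa)ᵀ = Haa - Haw * Hww⁻¹ * Hwa := by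
  rw [fromBlocks_transpose] at h
  obtain ⟨h1, h2, h3, h4⟩ := fromBlocks_inj.1 h
  constructor <;>
    simp only [transpose_sub, transpose_mul, transpose_nonsing_inv, h1, h2, h3, h4,
      Matrix.mul_assoc]

/-- (b') elimination of the second block -/
theorem kap_schur' {Haa : Matrix a a ℝ} {Haw : Matrix a w ℝ} {Hwa : Matrix w a ℝ}
    {Hww : Matrix w w ℝ} (hW : Hww.det ≠ 0) (da : Matrix a s ℝ) (dw : Matrix w s ℝ)
    (C : Matrix s a ℝ) :
    kap (fromBlocks Haa Haw Hwa Hww) (fromRows da dw) (fromCols C 0) =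
      Hww.det * kap (Haa - Haw * Hww⁻¹ * Hwa) da C := by
  have := invertibleOfIsUnitDet Hww (isUnit_iff_ne_zero.2 hW)
  rw [kap, kap, fromCols_mul_fromRows, transpose_fromCols, fromRows_mul_fromCols, fromBlocks_add,
    Matrix.zero_mul, add_zero, transpose_zero, Matrix.zero_mul, Matrix.zero_mul, Matrix.mul_zero,
    add_zero, add_zero, add_zero, det_fromBlocks₂₂, invOf_eq_nonsing_inv, mul_div_assoc,
    add_sub_right_comm]

theorem schur_null' {Haa : Matrix a a ℝ} {Haw : Matrix a w ℝ} {Hwa : Matrix w a ℝ}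
    {Hww : Matrix w w ℝ} (hW : Hww.det ≠ 0) {da : Matrix a s ℝ} {dw : Matrix w s ℝ}
    (h : fromBlocks Haa Haw Hwa Hww * fromRows da dw = 0) :
    (Haa - Haw * Hww⁻¹ * Hwa) * da = 0 := by
  rw [fromBlocks_mul_fromRows, ← fromRows_zero] at h
  obtain ⟨h1, h2⟩ := fromRows_inj h
  have h3 : Hwa * da = -(Hww * dw) := eq_neg_of_add_eq_zero_left h2
  rw [Matrix.sub_mul, Matrix.mul_assoc, h3, Matrix.mul_neg, Matrix.mul_assoc,
    ← Matrix.mul_assoc Hww⁻¹, nonsing_inv_mul _ (isUnit_iff_ne_zero.2 hW), Matrix.one_mul,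
    sub_neg_eq_add, h1]

/-- (b) with an arbitrary admissible gauge fixing on the left -/
theorem kap_schur_gen {Haa : Matrix a a ℝ} {Haw : Matrix a w ℝ} {Hwa : Matrix w a ℝ}
    {Hww : Matrix w w ℝ} (hA : Haa.det ≠ 0) {da : Matrix a s ℝ} {dw : Matrix w s ℝ}
    (hs : (fromBlocks Haa Haw Hwa Hww)ᵀ = fromBlocks Haa Haw Hwa Hww)
    (h : fromBlocks Haa Haw Hwa Hww * fromRows da dw = 0) {C0 : Matrix s (a ⊕ w) ℝ}
    {C : Matrix s w ℝ} (h0 : (C0 * fromRows da dw).det ≠ 0) (hC : (C * dw).det ≠ 0) :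
    kap (fromBlocks Haa Haw Hwa Hww) (fromRows da dw) C0 =
      Haa.det * kap (Hww - Hwa * Haa⁻¹ * Haw) dw C := by
  rw [← kap_schur hA da]
  refine kap_indep hs h h0 ?_
  rwa [fromCols_mul_fromRows, Matrix.zero_mul, zero_add]

theorem kap_schur_gen' {Haa : Matrix a a ℝ} {Haw : Matrix a w ℝ} {Hwa : Matrix w a ℝ}
    {Hww : Matrix w w ℝ} (hW : Hww.det ≠ 0) {da : Matrix a s ℝ} {dw : Matrix w s ℝ}
    (hs : (fromBlocks Haa Haw Hwa Hww)ᵀ = fromBlocks Haa Haw Hwa Hww)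
    (h : fromBlocks Haa Haw Hwa Hww * fromRows da dw = 0) {C0 : Matrix s (a ⊕ w) ℝ}
    {C : Matrix s a ℝ} (h0 : (C0 * fromRows da dw).det ≠ 0) (hC : (C * da).det ≠ 0) :
    kap (fromBlocks Haa Haw Hwa Hww) (fromRows da dw) C0 =
      Hww.det * kap (Haa - Haw * Hww⁻¹ * Hwa) da C := by
  rw [← kap_schur' hW da dw]
  refine kap_indep hs h h0 ?_
  rwa [fromCols_mul_fromRows, Matrix.zero_mul, add_zero]

theorem fix_null {Htt : Matrix t t ℝ} {Htr : Matrix t r ℝ} {Hrt : Matrix r t ℝ}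
    {Hrr : Matrix r r ℝ} {d11 : Matrix t t ℝ} {d12 : Matrix t s2 ℝ} {d21 : Matrix r t ℝ}
    {d22 : Matrix r s2 ℝ} (h11 : d11.det ≠ 0)
    (h : fromBlocks Htt Htr Hrt Hrr * fromBlocks d11 d12 d21 d22 = 0) :
    Hrr * (d22 - d21 * d11⁻¹ * d12) = 0 := by
  rw [fromBlocks_multiply, ← fromBlocks_zero] at h
  obtain ⟨-, -, h3, h4⟩ := fromBlocks_inj.1 h
  have h5 : Hrr * d21 = -(Hrt * d11) := eq_neg_of_add_eq_zero_right h3
  rw [Matrix.mul_sub, ← Matrix.mul_assoc, ← Matrix.mul_assoc, h5, Matrix.neg_mul, Matrix.neg_mul,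
    Matrix.mul_assoc Hrt, mul_nonsing_inv _ (isUnit_iff_ne_zero.2 h11), Matrix.mul_one,
    sub_neg_eq_add, add_comm, h4]

/-- (c) fixing a part of the gauge -/
theorem kap_fix {Htt : Matrix t t ℝ} {Htr : Matrix t r ℝ} {Hrt : Matrix r t ℝ}
    {Hrr : Matrix r r ℝ} {d11 : Matrix t t ℝ} {d12 : Matrix t s2 ℝ} {d21 : Matrix r t ℝ}
    {d22 : Matrix r s2 ℝ} (h11 : d11.det ≠ 0)
    (hs : (fromBlocks Htt Htr Hrt Hrr)ᵀ = fromBlocks Htt Htr Hrt Hrr)
    (h : fromBlocks Htt Htr Hrt Hrr * fromBlocks d11 d12 d21 d22 = 0)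
    {C : Matrix (t ⊕ s2) (t ⊕ r) ℝ} {C3 : Matrix s2 r ℝ}
    (hC : (C * fromBlocks d11 d12 d21 d22).det ≠ 0)
    (hC3 : (C3 * (d22 - d21 * d11⁻¹ * d12)).det ≠ 0) :
    kap (fromBlocks Htt Htr Hrt Hrr) (fromBlocks d11 d12 d21 d22) C =
      kap Hrr (d22 - d21 * d11⁻¹ * d12) C3 / d11.det ^ 2 := by
  have hu : IsUnit d11.det := isUnit_iff_ne_zero.2 h11
  set Y := d21 * d11⁻¹ with hY
  set C0 : Matrix (t ⊕ s2) (t ⊕ r) ℝ := fromBlocks 1 0 (-(C3 * Y)) C3 with hC0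
  set T : Matrix (t ⊕ r) (t ⊕ r) ℝ := fromBlocks 1 0 Y 1 with hT
  have e1 : C0 * fromBlocks d11 d12 d21 d22 = fromBlocks d11 d12 0 (C3 * (d22 - Y * d12)) := by
    rw [hC0, fromBlocks_multiply]
    congr 1
    · simp
    · simp
    · rw [hY, Matrix.neg_mul, Matrix.mul_assoc, Matrix.mul_assoc, nonsing_inv_mul _ hu]
      simp
    · rw [Matrix.mul_sub, Matrix.neg_mul, Matrix.mul_assoc, neg_add_eq_sub]
  have e2 : (C0 * fromBlocks d11 d12 d21 d22).det = d11.det * (C3 * (d22 - Y * d12)).det := by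
    rw [e1, det_fromBlocks_zero₂₁]
  have h' := h
  rw [fromBlocks_multiply, ← fromBlocks_zero] at h'
  obtain ⟨h1, -, h3, -⟩ := fromBlocks_inj.1 h'
  have hs' := hs
  rw [fromBlocks_transpose] at hs'
  obtain ⟨-, g2, -, g4⟩ := fromBlocks_inj.1 hs'
  have k1 : Htt + Htr * Y = 0 := by
    have := congrArg (· * d11⁻¹) h1
    simpa only [Matrix.add_mul, Matrix.mul_assoc, mul_nonsing_inv _ hu, Matrix.mul_one,
      Matrix.zero_mul] using this
  have k3 : Hrt + Hrr * Y = 0 := by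
    have := congrArg (· * d11⁻¹) h3
    simpa only [Matrix.add_mul, Matrix.mul_assoc, mul_nonsing_inv _ hu, Matrix.mul_one,
      Matrix.zero_mul] using this
  have k2 : Htr + Yᵀ * Hrr = 0 := by
    have := congrArg transpose k3
    rwa [transpose_add, transpose_mul, g2, g4, transpose_zero] at this
  have e3 : C0 * T = fromBlocks 1 0 0 C3 := by
    rw [hC0, hT, fromBlocks_multiply]
    simp
  have e4 : Tᵀ * fromBlocks Htt Htr Hrt Hrr * T = fromBlocks 0 0 0 Hrr := by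
    rw [Matrix.mul_assoc, hT, fromBlocks_multiply, fromBlocks_transpose, fromBlocks_multiply]
    simp [k1, k2, k3]
  have e5 : Tᵀ * (fromBlocks Htt Htr Hrt Hrr + C0ᵀ * C0) * T =
      fromBlocks 1 0 0 (Hrr + C3ᵀ * C3) := by
    rw [Matrix.mul_add, Matrix.add_mul, e4, ← Matrix.mul_assoc, ← transpose_mul, Matrix.mul_assoc,
      e3, fromBlocks_transpose, fromBlocks_multiply, fromBlocks_add]
    simp
  have e6 : T.det = 1 := by rw [hT, det_fromBlocks_zero₁₂]; simp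
  have e7 := congrArg det e5
  rw [det_mul, det_mul, det_transpose, e6, det_fromBlocks_zero₂₁, det_one] at e7
  rw [kap_indep hs h hC (C2 := C0) (by rw [e2]; exact mul_ne_zero h11 hC3), kap, kap, e2]
  simp only [one_mul, mul_one] at e7
  rw [e7]
  field_simp

/-- (d) change of basis -/
theorem kap_basis (Q : Matrix i i ℝ) (d : Matrix i s ℝ) (C : Matrix s i ℝ) {g : Matrix i i ℝ}
    (hg : g.det ≠ 0) (h : Matrix s s ℝ) :
    kap (gᵀ * Q * g) (g⁻¹ * d * h) (C * g) = g.det ^ 2 * kap Q d C / h.det ^ 2 := by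
  have e1 : gᵀ * Q * g + (C * g)ᵀ * (C * g) = gᵀ * (Q + Cᵀ * C) * g := by
    simp only [transpose_mul, Matrix.mul_add, Matrix.add_mul, Matrix.mul_assoc]
  have e2 : C * g * (g⁻¹ * d * h) = C * d * h := by
    rw [Matrix.mul_assoc g⁻¹, Matrix.mul_assoc C, ← Matrix.mul_assoc g,
      mul_nonsing_inv _ (isUnit_iff_ne_zero.2 hg), Matrix.one_mul, Matrix.mul_assoc]
  rw [kap, kap, e1, e2, det_mul, det_mul, det_mul, det_transpose]
  ring

/-- change of basis, with the new null directions given by an intertwining relation -/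
theorem kap_basis' (Q : Matrix i i ℝ) {d d' : Matrix i s ℝ} (C : Matrix s i ℝ) {g : Matrix i i ℝ}
    {h : Matrix s s ℝ} (hd : g * d' = d * h) :
    kap (gᵀ * Q * g) d' (C * g) = g.det ^ 2 * kap Q d C / h.det ^ 2 := by
  have e1 : gᵀ * Q * g + (C * g)ᵀ * (C * g) = gᵀ * (Q + Cᵀ * C) * g := by
    simp only [transpose_mul, Matrix.mul_add, Matrix.add_mul, Matrix.mul_assoc]
  rw [kap, kap, e1, Matrix.mul_assoc C, hd, ← Matrix.mul_assoc C, det_mul, det_mul, det_mul,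
    det_transpose]
  ring

/-- (g) reindexing -/
theorem kap_reindex (Q : Matrix i i ℝ) (d : Matrix i s ℝ) (C : Matrix s i ℝ) (e : i' ≃ i)
    (f : s' ≃ s) : kap (Q.submatrix e e) (d.submatrix e f) (C.submatrix f e) = kap Q d C := by
  rw [kap, kap, submatrix_mul_equiv, transpose_submatrix, submatrix_mul_equiv, det_submatrix_equiv_self,
    ← det_submatrix_equiv_self e (Q + Cᵀ * C)]
  rfl

/-- (g) direct sum of two forms -/
theorem kap_sum (Q : Matrix i i ℝ) (d : Matrix i s ℝ) (C : Matrix s i ℝ) (Q' : Matrix i' i' ℝ)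
    (d' : Matrix i' s' ℝ) (C' : Matrix s' i' ℝ) :
    kap (fromBlocks Q 0 0 Q') (fromBlocks d 0 0 d') (fromBlocks C 0 0 C') =
      kap Q d C * kap Q' d' C' := by
  rw [kap, kap, kap, fromBlocks_transpose, fromBlocks_multiply, fromBlocks_multiply, fromBlocks_add]
  simp only [Matrix.mul_zero, Matrix.zero_mul, add_zero, zero_add, transpose_zero,
    det_fromBlocks_zero₂₁]
  ring

/-- (g) direct sum of a family of forms -/
theorem kap_blockDiagonal (Q : o → Matrix i i ℝ) (d : o → Matrix i s ℝ) (C : o → Matrix s i ℝ) :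
    kap (blockDiagonal Q) (blockDiagonal d) (blockDiagonal C) = ∏ k, kap (Q k) (d k) (C k) := by
  rw [kap, blockDiagonal_transpose, ← blockDiagonal_mul, ← blockDiagonal_mul, ← blockDiagonal_add,
    det_blockDiagonal, det_blockDiagonal, ← prod_pow, ← prod_div_distrib]
  rfl

theorem kap_kron (Q : Matrix i i ℝ) (d : Matrix i s ℝ) (C : Matrix s i ℝ) :
    kap (Q ⊗ₖ (1 : Matrix o o ℝ)) (d ⊗ₖ (1 : Matrix o o ℝ)) (C ⊗ₖ (1 : Matrix o o ℝ)) =
      kap Q d C ^ Fintype.card o := by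
  rw [kronecker_one, kronecker_one, kronecker_one, kap_blockDiagonal, prod_const, card_univ]

/-- scaling of the form -/
theorem kap_smul {Q : Matrix i i ℝ} {d : Matrix i s ℝ} (hQ : Qᵀ = Q) (hd : Q * d = 0)
    {C : Matrix s i ℝ} (hC : (C * d).det ≠ 0) {c : ℝ} (hc : 0 < c) :
    kap (c • Q) d C = c ^ Fintype.card i / c ^ Fintype.card s * kap Q d C := by
  have hs : 0 < √c := Real.sqrt_pos.2 hc
  have e1 : ((√c • C) * d).det = √c ^ Fintype.card s * (C * d).det := by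
    rw [Matrix.smul_mul, det_smul]
  have e2 : c • Q + (√c • C)ᵀ * (√c • C) = c • (Q + Cᵀ * C) := by
    rw [transpose_smul, Matrix.smul_mul, Matrix.mul_smul, smul_smul, Real.mul_self_sqrt hc.le,
      smul_add]
  rw [kap_indep (C2 := √c • C) (by rw [transpose_smul, hQ]) (by rw [Matrix.smul_mul, hd, smul_zero])
    hC (by rw [e1]; positivity), kap, kap, e1, e2, det_smul, mul_pow, ← pow_mul, mul_comm _ 2,
    pow_mul, Real.sq_sqrt hc.le]
  field_simp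

end algebra

section spectral

theorem diag_sym {M : Matrix i i ℝ} (hM : Mᵀ = M) :
    ∃ (U : Matrix i i ℝ) (μ : i → ℝ), Uᵀ * U = 1 ∧ Uᵀ * M * U = diagonal μ := by
  have hH : M.IsHermitian := by rwa [IsHermitian, conjTranspose_eq_transpose_of_trivial]
  refine ⟨hH.eigenvectorUnitary, hH.eigenvalues, ?_, ?_⟩
  · have := Unitary.coe_star_mul_self hH.eigenvectorUnitary
    rwa [star_eq_conjTranspose, conjTranspose_eq_transpose_of_trivial] at this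
  · have := hH.conjStarAlgAut_star_eigenvectorUnitary
    rw [Unitary.conjStarAlgAut_star_apply, star_eq_conjTranspose,
      conjTranspose_eq_transpose_of_trivial] at this
    simpa using this

theorem form_col (T M : Matrix i i ℝ) (j : i) :
    (T *ᵥ Pi.single j 1) ⬝ᵥ M *ᵥ (T *ᵥ Pi.single j 1) = (Tᵀ * M * T) j j := by
  rw [mulVec_mulVec, ← vecMul_transpose, ← dotProduct_mulVec, mulVec_mulVec, ← Matrix.mul_assoc]
  simp

/-- simultaneous diagonalisation -/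
theorem diag_two {A W : Matrix i i ℝ} (hA : Aᵀ = A) (hW : Wᵀ = W)
    (hp : ∀ x, x ≠ 0 → 0 < x ⬝ᵥ A *ᵥ x) :
    ∃ (T : Matrix i i ℝ) (μ : i → ℝ), Tᵀ * A * T = 1 ∧ Tᵀ * W * T = diagonal μ := by
  obtain ⟨U, ν, hU, hν⟩ := diag_sym hA
  have h0 : ∀ j, 0 < ν j := fun j => by
    have h1 := form_col U A j
    have h2 := form_col U 1 j
    rw [hν, diagonal_apply_eq] at h1
    rw [Matrix.mul_one, hU, one_apply_eq] at h2
    rw [← h1]
    refine hp _ fun h => ?_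
    rw [h] at h2
    simp at h2
  set D : Matrix i i ℝ := diagonal fun j => (√(ν j))⁻¹ with hD
  have h1 : (U * D)ᵀ * A * (U * D) = 1 := by
    rw [transpose_mul, Matrix.mul_assoc, Matrix.mul_assoc, ← Matrix.mul_assoc A,
      ← Matrix.mul_assoc Uᵀ, ← Matrix.mul_assoc Uᵀ, hν, hD, diagonal_transpose,
      diagonal_mul_diagonal, diagonal_mul_diagonal, ← diagonal_one]
    congr 1
    funext j
    have := Real.sqrt_pos.2 (h0 j)
    have h3 := Real.mul_self_sqrt (h0 j).le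
    field_simp
    linarith
  obtain ⟨V, μ, hV, hμ⟩ := diag_sym (M := (U * D)ᵀ * W * (U * D))
    (by simp only [transpose_mul, transpose_transpose, hW, Matrix.mul_assoc])
  refine ⟨U * D * V, μ, ?_, ?_⟩
  · rw [transpose_mul (U * D), Matrix.mul_assoc, Matrix.mul_assoc, ← Matrix.mul_assoc A,
      ← Matrix.mul_assoc (U * D)ᵀ, ← Matrix.mul_assoc (U * D)ᵀ, h1, Matrix.one_mul, hV]
  · rw [← hμ, transpose_mul (U * D)]
    simp only [Matrix.mul_assoc]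

/-- the generalised eigenvalues of a perturbation `W` of a positive form `A` -/
theorem rel_eig {A W : Matrix i i ℝ} (hA : Aᵀ = A) (hW : Wᵀ = W)
    (hp : ∀ x, x ≠ 0 → 0 < x ⬝ᵥ A *ᵥ x) :
    ∃ μ : i → ℝ, 0 < A.det ∧ (A + W).det = A.det * ∏ j, (1 + μ j) ∧
      (∀ n : ℕ, ((A⁻¹ * W) ^ n).trace = ∑ j, μ j ^ n) ∧
      ∀ j, ∃ x, x ⬝ᵥ A *ᵥ x = 1 ∧ x ⬝ᵥ W *ᵥ x = μ j := by
  obtain ⟨T, μ, h1, h2⟩ := diag_two hA hW hp
  have d1 := congrArg det h1
  rw [det_mul, det_mul, det_transpose, det_one] at d1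
  have hT : T.det ≠ 0 := fun h => by simp [h] at d1
  have hT2 : 0 < T.det * T.det := mul_self_pos.2 hT
  have hA0 : 0 < A.det := by
    by_contra h
    nlinarith [mul_nonneg hT2.le (neg_nonneg.2 (not_lt.1 h))]
  have hi : A⁻¹ = T * Tᵀ := by
    refine inv_eq_left_inv ?_
    rw [Matrix.mul_assoc]
    exact mul_eq_one_comm.1 h1
  refine ⟨μ, hA0, ?_, fun n => ?_, fun j => ⟨T *ᵥ Pi.single j 1, ?_, ?_⟩⟩
  · have h3 : Tᵀ * (A + W) * T = diagonal fun j => 1 + μ j := by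
      rw [Matrix.mul_add, Matrix.add_mul, h1, h2, ← diagonal_one, diagonal_add]
    have d3 := congrArg det h3
    rw [det_mul, det_mul, det_transpose, det_diagonal] at d3
    rw [← d3]
    linear_combination (-(A + W).det) * d1
  · have hu : IsUnit T.det := isUnit_iff_ne_zero.2 hT
    have h3 : A⁻¹ * W = T * diagonal μ * T⁻¹ := by
      rw [hi, ← h2]
      simp only [Matrix.mul_assoc, mul_nonsing_inv _ hu, Matrix.mul_one]
    have h4 : (A⁻¹ * W) ^ n = T * diagonal μ ^ n * T⁻¹ := by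
      rw [h3]
      induction n with
      | zero => simp [mul_nonsing_inv _ hu]
      | succ n ih =>
        rw [pow_succ, ih, pow_succ]
        simp only [Matrix.mul_assoc]
        rw [← Matrix.mul_assoc T⁻¹, nonsing_inv_mul _ hu, Matrix.one_mul]
    rw [h4, trace_mul_cycle, nonsing_inv_mul _ hu, Matrix.one_mul, diagonal_pow, trace_diagonal]
    rfl
  · rw [form_col, h1, one_apply_eq]
  · rw [form_col, h2, diagonal_apply_eq]

theorem log_one_add {x η : ℝ} (h : |x| ≤ η) (hη : η ≤ 1 / 2) :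
    0 < 1 + x ∧ |Real.log (1 + x)| ≤ 2 * η ∧ |Real.log (1 + x) - x| ≤ 2 * x ^ 2 ∧
      |Real.log (1 + x) - x + x ^ 2 / 2| ≤ 2 * η * x ^ 2 := by
  have hx : |(-x)| < 1 := by rw [abs_neg]; linarith
  have h0 := abs_nonneg x
  have key : ∀ n : ℕ, |x| ^ (n + 1) / (1 - |x|) ≤ 2 * |x| ^ (n + 1) := fun n => by
    rw [div_le_iff₀ (by linarith)]
    nlinarith [pow_nonneg h0 (n + 1)]
  have a0 := Real.abs_log_sub_add_sum_range_le hx 0
  have a1 := Real.abs_log_sub_add_sum_range_le hx 1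
  have a2 := Real.abs_log_sub_add_sum_range_le hx 2
  rw [abs_neg, sub_neg_eq_add] at a0 a1 a2
  refine ⟨by linarith [(abs_le.1 h).1], ?_, ?_, ?_⟩
  · have := a0.trans (key 0)
    simp only [range_zero, sum_empty, zero_add, pow_one] at this
    linarith
  · have := a1.trans (key 1)
    rw [show 1 + 1 = 2 from rfl, sq_abs] at this
    refine le_trans (le_of_eq ?_) this
    congr 1
    simp
    ring
  · have := a2.trans (key 2)
    rw [pow_succ, sq_abs] at this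
    refine le_trans (le_of_eq ?_) (this.trans ?_)
    · congr 1
      simp [sum_range_succ]
      ring
    · nlinarith [sq_nonneg x]

/-- (e), (f) relative perturbation of a positive form, up to second order -/
theorem logdet_rel {A W : Matrix i i ℝ} (hA : Aᵀ = A) (hW : Wᵀ = W)
    (hp : ∀ x, x ≠ 0 → 0 < x ⬝ᵥ A *ᵥ x) {η : ℝ} (hη : η ≤ 1 / 2)
    (h : ∀ x, |x ⬝ᵥ W *ᵥ x| ≤ η * (x ⬝ᵥ A *ᵥ x)) :
    0 < A.det ∧ 0 < (A + W).det ∧
    |Real.log (A + W).det - Real.log A.det| ≤ 2 * η * Fintype.card i ∧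
    |Real.log (A + W).det - Real.log A.det - (A⁻¹ * W).trace| ≤
      2 * (A⁻¹ * W * (A⁻¹ * W)).trace ∧
    |Real.log (A + W).det - Real.log A.det - (A⁻¹ * W).trace + (A⁻¹ * W * (A⁻¹ * W)).trace / 2| ≤
      2 * η * (A⁻¹ * W * (A⁻¹ * W)).trace ∧
    |(A⁻¹ * W).trace| ≤ η * Fintype.card i ∧ 0 ≤ (A⁻¹ * W * (A⁻¹ * W)).trace ∧
    (A⁻¹ * W * (A⁻¹ * W)).trace ≤ η ^ 2 * Fintype.card i := by
  obtain ⟨μ, h0, h1, h2, h3⟩ := rel_eig hA hW hp
  have hμ : ∀ j, |μ j| ≤ η := fun j => by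
    obtain ⟨x, e1, e2⟩ := h3 j
    have := h x
    rwa [e1, e2, mul_one] at this
  have l := fun j => log_one_add (hμ j) hη
  have hP : 0 < ∏ j, (1 + μ j) := prod_pos fun j _ => (l j).1
  have e0 : Real.log (A + W).det - Real.log A.det = ∑ j, Real.log (1 + μ j) := by
    rw [h1, Real.log_mul h0.ne' hP.ne', Real.log_prod fun j _ => (l j).1.ne', add_sub_cancel_left]
  have t1 : (A⁻¹ * W).trace = ∑ j, μ j := by simpa using h2 1
  have t2 : (A⁻¹ * W * (A⁻¹ * W)).trace = ∑ j, μ j ^ 2 := by rw [← h2 2, sq]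
  have bd : ∀ (f : i → ℝ) (c : ℝ), (∀ j, |f j| ≤ c) → |∑ j, f j| ≤ c * Fintype.card i :=
    fun f c hf => (abs_sum_le_sum_abs _ _).trans ((sum_le_sum fun j _ => hf j).trans (by
      rw [sum_const, card_univ, nsmul_eq_mul, mul_comm]))
  rw [e0, t1, t2]
  refine ⟨h0, h1 ▸ mul_pos h0 hP, bd _ _ fun j => (l j).2.1, ?_, ?_, bd _ _ hμ,
    sum_nonneg fun j _ => sq_nonneg _, (le_abs_self _).trans (bd _ _ fun j => ?_)⟩
  · rw [← sum_sub_distrib, mul_sum]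
    exact (abs_sum_le_sum_abs _ _).trans (sum_le_sum fun j _ => (l j).2.2.1)
  · rw [← sum_sub_distrib, sum_div, ← sum_add_distrib, mul_sum]
    exact (abs_sum_le_sum_abs _ _).trans (sum_le_sum fun j _ => (l j).2.2.2)
  · rw [abs_pow]
    exact pow_le_pow_left₀ (abs_nonneg _) (hμ j) 2

/-- (e) relative version -/
theorem logdet_rel' {A A2 : Matrix i i ℝ} (hA : Aᵀ = A) (hA2 : A2ᵀ = A2)
    (hp : ∀ x, x ≠ 0 → 0 < x ⬝ᵥ A *ᵥ x) {η : ℝ} (hη : η ≤ 1 / 2)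
    (h1 : ∀ x, (1 - η) * (x ⬝ᵥ A *ᵥ x) ≤ x ⬝ᵥ A2 *ᵥ x)
    (h2 : ∀ x, x ⬝ᵥ A2 *ᵥ x ≤ (1 + η) * (x ⬝ᵥ A *ᵥ x)) :
    0 < A.det ∧ 0 < A2.det ∧ |Real.log A2.det - Real.log A.det| ≤ 2 * η * Fintype.card i := by
  have := logdet_rel (W := A2 - A) hA (by rw [transpose_sub, hA, hA2]) hp hη fun x => by
    rw [sub_mulVec, dotProduct_sub, abs_le]
    constructor <;> linarith [h1 x, h2 x]
  rw [add_sub_cancel] at this
  exact ⟨this.1, this.2.1, this.2.2.1⟩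

theorem dot_pos {x : i → ℝ} (hx : x ≠ 0) : 0 < x ⬝ᵥ x :=
  lt_of_le_of_ne (sum_nonneg fun _ _ => mul_self_nonneg _)
    fun h => hx (dotProduct_self_eq_zero.1 h.symm)

theorem dot_nonneg (x : i → ℝ) : 0 ≤ x ⬝ᵥ x := sum_nonneg fun _ _ => mul_self_nonneg _

/-- (e) absolute version -/
theorem logdet_abs {A A2 : Matrix i i ℝ} (hA : Aᵀ = A) (hA2 : A2ᵀ = A2) {γ η : ℝ} (hγ : 0 < γ)
    (hp : ∀ x, γ * (x ⬝ᵥ x) ≤ x ⬝ᵥ A *ᵥ x) (h : ∀ x, |x ⬝ᵥ (A2 - A) *ᵥ x| ≤ η * (x ⬝ᵥ x))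
    (h0 : 0 ≤ η) (hη : 2 * η ≤ γ) :
    0 < A.det ∧ 0 < A2.det ∧
      |Real.log A2.det - Real.log A.det| ≤ 2 * η / γ * Fintype.card i := by
  have := logdet_rel (W := A2 - A) (η := η / γ) hA (by rw [transpose_sub, hA, hA2])
    (fun x hx => (mul_pos hγ (dot_pos hx)).trans_le (hp x))
    (by rw [div_le_iff₀ hγ]; linarith) fun x => by
      refine (h x).trans (le_trans (le_of_eq ?_) (mul_le_mul_of_nonneg_left (hp x) (by positivity)))
      field_simp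
  rw [add_sub_cancel, ← mul_div_assoc] at this
  exact ⟨this.1, this.2.1, this.2.2.1⟩

theorem form_fix (Q : Matrix i i ℝ) (C : Matrix s i ℝ) (x : i → ℝ) :
    x ⬝ᵥ (Q + Cᵀ * C) *ᵥ x = x ⬝ᵥ Q *ᵥ x + (C *ᵥ x) ⬝ᵥ (C *ᵥ x) := by
  rw [add_mulVec, dotProduct_add, ← mulVec_mulVec, dotProduct_mulVec x Cᵀ, vecMul_transpose]

theorem fix_symm {Q : Matrix i i ℝ} (hQ : Qᵀ = Q) (C : Matrix s i ℝ) :
    (Q + Cᵀ * C)ᵀ = Q + Cᵀ * C := by
  rw [transpose_add, hQ, transpose_mul, transpose_transpose]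

/-- (e) for gauge fixed forms -/
theorem logdet_fix {Q Q2 : Matrix i i ℝ} (hQ : Qᵀ = Q) (hQ2 : Q2ᵀ = Q2) (C : Matrix s i ℝ)
    {γ η : ℝ} (hγ : 0 < γ) (hp : ∀ x, γ * (x ⬝ᵥ x) ≤ x ⬝ᵥ (Q + Cᵀ * C) *ᵥ x)
    (h : ∀ x, |x ⬝ᵥ (Q2 - Q) *ᵥ x| ≤ η * (x ⬝ᵥ x)) (h0 : 0 ≤ η) (hη : 2 * η ≤ γ) :
    0 < (Q + Cᵀ * C).det ∧ 0 < (Q2 + Cᵀ * C).det ∧
      |Real.log (Q2 + Cᵀ * C).det - Real.log (Q + Cᵀ * C).det| ≤ 2 * η / γ * Fintype.card i :=
  logdet_abs (fix_symm hQ C) (fix_symm hQ2 C) hγ hp (by rwa [add_sub_add_right_eq_sub]) h0 hη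

theorem log_kap_sub {Q Q2 : Matrix i i ℝ} {d : Matrix i s ℝ} {C : Matrix s i ℝ}
    (hC : (C * d).det ≠ 0) (h1 : 0 < (Q + Cᵀ * C).det) (h2 : 0 < (Q2 + Cᵀ * C).det) :
    0 < kap Q d C ∧ 0 < kap Q2 d C ∧ Real.log (kap Q2 d C) - Real.log (kap Q d C) =
      Real.log (Q2 + Cᵀ * C).det - Real.log (Q + Cᵀ * C).det := by
  have h0 : 0 < (C * d).det ^ 2 := by positivity
  refine ⟨div_pos h1 h0, div_pos h2 h0, ?_⟩
  rw [kap, kap, Real.log_div h2.ne' h0.ne', Real.log_div h1.ne' h0.ne']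
  ring

/-- (e) for `kap`, absolute version -/
theorem log_kap_abs {Q Q2 : Matrix i i ℝ} (hQ : Qᵀ = Q) (hQ2 : Q2ᵀ = Q2) {d : Matrix i s ℝ}
    {C : Matrix s i ℝ} (hC : (C * d).det ≠ 0) {γ η : ℝ} (hγ : 0 < γ)
    (hp : ∀ x, γ * (x ⬝ᵥ x) ≤ x ⬝ᵥ (Q + Cᵀ * C) *ᵥ x)
    (h : ∀ x, |x ⬝ᵥ (Q2 - Q) *ᵥ x| ≤ η * (x ⬝ᵥ x)) (h0 : 0 ≤ η) (hη : 2 * η ≤ γ) :
    0 < kap Q d C ∧ 0 < kap Q2 d C ∧
      |Real.log (kap Q2 d C) - Real.log (kap Q d C)| ≤ 2 * η / γ * Fintype.card i := by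
  obtain ⟨a1, a2, a3⟩ := logdet_fix hQ hQ2 C hγ hp h h0 hη
  obtain ⟨b1, b2, b3⟩ := log_kap_sub hC a1 a2
  exact ⟨b1, b2, b3 ▸ a3⟩

/-- (e) for `kap`, relative version -/
theorem log_kap_rel {Q Q2 : Matrix i i ℝ} (hQ : Qᵀ = Q) (hQ2 : Q2ᵀ = Q2) {d : Matrix i s ℝ}
    {C : Matrix s i ℝ} (hC : (C * d).det ≠ 0)
    (hp : ∀ x, x ≠ 0 → 0 < x ⬝ᵥ (Q + Cᵀ * C) *ᵥ x) {η : ℝ} (h0 : 0 ≤ η) (hη : η ≤ 1 / 2)
    (h1 : ∀ x, (1 - η) * (x ⬝ᵥ Q *ᵥ x) ≤ x ⬝ᵥ Q2 *ᵥ x)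
    (h2 : ∀ x, x ⬝ᵥ Q2 *ᵥ x ≤ (1 + η) * (x ⬝ᵥ Q *ᵥ x)) :
    0 < kap Q d C ∧ 0 < kap Q2 d C ∧
      |Real.log (kap Q2 d C) - Real.log (kap Q d C)| ≤ 2 * η * Fintype.card i := by
  obtain ⟨a1, a2, a3⟩ := logdet_rel' (fix_symm hQ C) (fix_symm hQ2 C) hp hη
    (fun x => by
      rw [form_fix, form_fix]
      nlinarith [h1 x, mul_nonneg h0 (dot_nonneg (C *ᵥ x))])
    (fun x => by
      rw [form_fix, form_fix]
      nlinarith [h2 x, mul_nonneg h0 (dot_nonneg (C *ᵥ x))])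
  obtain ⟨b1, b2, b3⟩ := log_kap_sub hC a1 a2
  exact ⟨b1, b2, b3 ▸ a3⟩

/-- a form which is positive modulo the range of `d` becomes positive after gauge fixing -/
theorem fix_pos {Q : Matrix i i ℝ} {d : Matrix i s ℝ} {C : Matrix s i ℝ} (hC : (C * d).det ≠ 0)
    (h0 : ∀ x, 0 ≤ x ⬝ᵥ Q *ᵥ x) (hk : ∀ x, x ⬝ᵥ Q *ᵥ x = 0 → ∃ u, x = d *ᵥ u) (x : i → ℝ)
    (hx : x ≠ 0) : 0 < x ⬝ᵥ (Q + Cᵀ * C) *ᵥ x := by
  rw [form_fix]
  refine lt_of_le_of_ne (add_nonneg (h0 x) (dot_nonneg _)) fun h => hx ?_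
  have h1 : x ⬝ᵥ Q *ᵥ x = 0 := by linarith [h0 x, dot_nonneg (C *ᵥ x)]
  have h2 : C *ᵥ x = 0 := dotProduct_self_eq_zero.1 (by linarith)
  obtain ⟨u, rfl⟩ := hk x h1
  rw [mulVec_mulVec] at h2
  rw [eq_zero_of_mulVec_eq_zero hC h2, mulVec_zero]

/-- (f) -/
theorem logdet_one_add {M : Matrix i i ℝ} (hM : Mᵀ = M) {η : ℝ} (hη : η ≤ 1 / 2)
    (h : ∀ x, |x ⬝ᵥ M *ᵥ x| ≤ η * (x ⬝ᵥ x)) (h0 : 0 ≤ η) :
    0 < (1 + M).det ∧
    |Real.log (1 + M).det - M.trace + (M * M).trace / 2| ≤ 2 * η * (M * M).trace ∧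
    |Real.log (1 + M).det - M.trace + (M * M).trace / 2| ≤ 2 * η ^ 3 * Fintype.card i := by
  obtain ⟨-, a1, -, -, a2, -, -, a3⟩ := logdet_rel (A := 1) transpose_one hM
    (fun x hx => by rw [one_mulVec]; exact dot_pos hx) hη (fun x => by rw [one_mulVec]; exact h x)
  simp only [inv_one, Matrix.one_mul, det_one, Real.log_one, sub_zero] at a2 a3
  refine ⟨a1, a2, a2.trans ?_⟩
  nlinarith [mul_le_mul_of_nonneg_left a3 h0]

/-- monotonicity of the determinant -/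
theorem det_mono {A B : Matrix i i ℝ} (hA : Aᵀ = A) (hB : Bᵀ = B)
    (hp : ∀ x, x ≠ 0 → 0 < x ⬝ᵥ A *ᵥ x) (h : ∀ x, x ⬝ᵥ A *ᵥ x ≤ x ⬝ᵥ B *ᵥ x) :
    0 < A.det ∧ A.det ≤ B.det := by
  obtain ⟨μ, h0, h1, -, h3⟩ := rel_eig (W := B - A) hA (by rw [transpose_sub, hA, hB]) hp
  rw [add_sub_cancel] at h1
  refine ⟨h0, h1 ▸ le_mul_of_one_le_right h0.le (one_le_prod fun j _ => ?_)⟩
  obtain ⟨x, -, e2⟩ := h3 j
  rw [sub_mulVec, dotProduct_sub] at e2
  linarith [h x]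

end spectral

end Pool.Agent.Lib.MP_7f377f_mp.RG.Q4
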