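import Mathlib

/-! Shooting and the two sided recursion. -/

namespace Pool.Agent.Lib.MP_7f377f_mp.RG.Q4

theorem sub_window {f : ℝ → ℝ} (hf : Continuous f) {a c W : ℝ} (hac : a ≤ c) (hW : 0 ≤ W)
    (ha : f a ≤ -W) (hc : W ≤ f c) : ∃ a' c', a ≤ a' ∧ a' ≤ c' ∧ c' ≤ c ∧ f a' = -W ∧ f c' = W ∧
      ∀ b ∈ Set.Icc a' c', |f b| ≤ W := by
  obtain ⟨a', ⟨h1, h2⟩, h3⟩ := (isCompact_Icc.inter_right
    (isClosed_le hf continuous_const : IsClosed {b | f b ≤ -W})).exists_isGreatest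
    ⟨a, ⟨le_rfl, hac⟩, ha⟩
  obtain ⟨u, hu, hu'⟩ := intermediate_value_Icc h1.2 hf.continuousOn
    (show -W ∈ Set.Icc (f a') (f c) from ⟨h2, by linarith⟩)
  have e1 : f a' = -W := by
    rwa [le_antisymm (h3 ⟨⟨h1.1.trans hu.1, hu.2⟩, hu'.le⟩) hu.1] at hu'
  obtain ⟨c', ⟨k1, k2⟩, k3⟩ := (isCompact_Icc.inter_right
    (isClosed_le continuous_const hf : IsClosed {b | W ≤ f b})).exists_isLeast
    ⟨c, ⟨h1.2, le_rfl⟩, hc⟩
  obtain ⟨v, hv, hv'⟩ := intermediate_value_Icc k1.1 hf.continuousOn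
    (show W ∈ Set.Icc (f a') (f c') from ⟨by linarith, k2⟩)
  have e2 : f c' = W := by
    rwa [le_antisymm hv.2 (k3 ⟨⟨hv.1, hv.2.trans k1.2⟩, hv'.ge⟩)] at hv'
  refine ⟨a', c', h1.1, k1.1, k1.2, e1, e2, fun b hb => abs_le.2 ⟨?_, ?_⟩⟩
  · by_contra h
    have := le_antisymm (h3 ⟨⟨h1.1.trans hb.1, hb.2.trans k1.2⟩, (not_le.1 h).le⟩) hb.1
    exact h (this ▸ e1.ge)
  · by_contra h
    have := le_antisymm hb.2 (k3 ⟨⟨hb.1, hb.2.trans k1.2⟩, (not_le.1 h).le⟩)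
    exact h (this ▸ e2.le)

/-- the shooting argument -/
theorem shoot (J : ℕ) (d : ℕ → ℝ → ℝ) (Wd e : ℕ → ℝ) (b0 b1 : ℝ) (hb : b0 ≤ b1)
    (hc : ∀ k, Continuous (d k)) (he : ∀ k, 0 ≤ e k) (hW : ∀ k, 0 ≤ Wd k ∧ Wd k + e k ≤ Wd (k + 1))
    (h0 : d J b0 ≤ -Wd J) (h1 : Wd J ≤ d J b1)
    (hs : ∀ k < J, ∀ b ∈ Set.Icc b0 b1, (∀ i, k < i → i ≤ J → |d i b| ≤ Wd i) →
      |d k b - d (k + 1) b| ≤ e k) :
    ∃ b ∈ Set.Icc b0 b1, d 0 b = 0 ∧ ∀ i ≤ J, |d i b| ≤ Wd i := by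
  have _ := he
  have key : ∀ t k, k + t = J → ∃ a c, b0 ≤ a ∧ a ≤ c ∧ c ≤ b1 ∧ d k a = -Wd k ∧ d k c = Wd k ∧
      ∀ b ∈ Set.Icc a c, ∀ i, k ≤ i → i ≤ J → |d i b| ≤ Wd i := by
    intro t
    induction t with
    | zero =>
      rintro k rfl
      obtain ⟨a, c, h2, h3, h4, h5, h6, h7⟩ := sub_window (hc _) hb (hW _).1 h0 h1
      exact ⟨a, c, h2, h3, h4, h5, h6, fun b hb i hi hi' => le_antisymm hi hi' ▸ h7 b hb⟩
    | succ t ih =>
      intro k hk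
      obtain ⟨a, c, h2, h3, h4, h5, h6, h7⟩ := ih (k + 1) (by omega)
      have s := fun b (hb : b ∈ Set.Icc a c) => abs_le.1 (hs k (by omega) b
        ⟨h2.trans hb.1, hb.2.trans h4⟩ fun i hi hi' => h7 b hb i hi hi')
      obtain ⟨a', c', k2, k3, k4, k5, k6, k7⟩ := sub_window (hc k) h3 (hW k).1
        (by linarith [(s a ⟨le_rfl, h3⟩).2, (hW k).2]) (by linarith [(s c ⟨h3, le_rfl⟩).1, (hW k).2])
      refine ⟨a', c', h2.trans k2, k3, k4.trans h4, k5, k6, fun b hb i hi hi' => ?_⟩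
      rcases hi.eq_or_lt with rfl | hi
      exacts [k7 b hb, h7 b ⟨k2.trans hb.1, hb.2.trans k4⟩ i hi hi']
  obtain ⟨a, c, h2, h3, h4, h5, h6, h7⟩ := key J 0 (zero_add J)
  obtain ⟨b, hb, hb'⟩ := intermediate_value_Icc h3 (hc 0).continuousOn
    (show (0 : ℝ) ∈ Set.Icc (d 0 a) (d 0 c) from ⟨by linarith [(hW 0).1], by linarith [(hW 0).1]⟩)
  exact ⟨b, ⟨h2.trans hb.1, hb.2.trans h4⟩, hb', fun i hi => h7 b hb i (Nat.zero_le i) hi⟩

theorem two_sided (I : ℕ) (x y : ℕ → ℝ) (C η : ℝ) (hC : 1 ≤ C) (hη : 0 ≤ η) (h : 100 * C ^ 2 * η ≤ 1)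
    (hx : ∀ k, 0 ≤ x k) (hy : ∀ k, 0 ≤ y k) (h0 : x 0 ≤ C * y 0)
    (hxs : ∀ k < I, x (k + 1) ≤ (1 + η) * x k + η * y (k + 1))
    (hys : ∀ k < I, y k ≤ 2⁻¹ * y (k + 1) + C * η * x (k + 1)) :
    ∀ k ≤ I, x k + y k ≤ 10 * C * (2 / 3) ^ (I - k) * y I := by
  have c1 : C * η ≤ C ^ 2 * η := mul_le_mul_of_nonneg_right (by nlinarith) hη
  have c2 : η ≤ C * η := le_mul_of_one_le_left hη hC
  have a : ∀ k ≤ I, x k ≤ C * y k := by
    intro k
    induction k with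
    | zero => exact fun _ => h0
    | succ k ih =>
      intro hk
      have h1 := hxs k hk
      have h2 := mul_le_mul_of_nonneg_left (hys k hk) (zero_le_one.trans hC)
      have h3 := ih (by omega)
      have h4 := hx (k + 1)
      have h5 := mul_nonneg (zero_le_one.trans hC) (hy (k + 1))
      have h6 : η * y (k + 1) ≤ 100⁻¹ * (C * y (k + 1)) :=
        mul_le_mul (by linarith) (le_mul_of_one_le_left (hy _) hC) (hy _) (by norm_num)
      have h7 : C ^ 2 * η * x (k + 1) ≤ 100⁻¹ * x (k + 1) :=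
        mul_le_mul_of_nonneg_right (by linarith) h4
      have h8 : x k ≤ 2⁻¹ * (C * y (k + 1)) + 100⁻¹ * x (k + 1) := by nlinarith
      have h9 : η * x k ≤ 100⁻¹ * x k := mul_le_mul_of_nonneg_right (by linarith) (hx k)
      linarith
  have b : ∀ t k, k + t = I → y k ≤ (2 / 3) ^ t * y I := by
    intro t
    induction t with
    | zero => rintro k rfl; simp
    | succ t ih =>
      intro k hk
      have h1 := hys k (by omega)
      have h2 := mul_le_mul_of_nonneg_left (a (k + 1) (by omega))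
        (mul_nonneg (zero_le_one.trans hC) hη)
      have h3 : C ^ 2 * η * y (k + 1) ≤ 100⁻¹ * y (k + 1) :=
        mul_le_mul_of_nonneg_right (by linarith) (hy _)
      have h4 := ih (k + 1) (by omega)
      have h5 := hy (k + 1)
      rw [pow_succ]
      nlinarith
  intro k hk
  have h1 := b (I - k) k (by omega)
  have h2 := mul_le_mul_of_nonneg_left h1 (zero_le_one.trans hC)
  have h3 := le_mul_of_one_le_left (hy k) hC
  have h4 := a k hk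
  have h5 := mul_nonneg (zero_le_one.trans hC) (hy k)
  linarith

end Pool.Agent.Lib.MP_7f377f_mp.RG.Q4
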