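import Pool.Agent.Lib.MP_7f377f_mp.WeakLT

/-! Continuum limit of the Schwinger functions of the quadratic fields. -/

namespace Pool.Agent.Lib.MP_7f377f_mp.Weak

open MeasureTheory Filter Topology
open scoped InnerProductSpace

set_option linter.unusedSectionVars false

theorem sum_lt_pairs {d : ℕ} (f : Fin d → Fin d → ℝ) (hs : ∀ i j, f j i = f i j)
    (h0 : ∀ i, f i i = 0) : ∑ i, ∑ j, f i j = 2 * ∑ i, ∑ j, if i < j then f i j else 0 := by
  have e : ∀ i j, f i j = (if i < j then f i j else 0) + if j < i then f j i else 0 := by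
    intro i j
    rcases lt_trichotomy i j with h | h | h
    · simp [h, h.le]
    · simp [h, h0]
    · simp [h, h.le, hs i j]
  conv_lhs => enter [2, i, 2, j]; rw [e i j]
  simp only [Finset.sum_add_distrib]
  rw [two_mul]
  congr 1
  exact Finset.sum_comm

theorem hessG_symm {d : ℕ} (y : EuclideanSpace ℝ (Fin d)) (i j : Fin d) :
    hessG y j i = hessG y i j := by
  simp only [hessG, eq_comm (a := j), mul_right_comm _ (y j)]

theorem loopSum_div {m : ℕ} (D c : ℝ) (K : Fin m × Bool → Fin m × Bool → ℝ) :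
    loopSum D K / c ^ m = loopSum D fun α γ => K α γ / c := by
  simp only [loopSum, Finset.sum_div, Finset.prod_div_distrib, Finset.prod_const, Finset.card_univ,
    Fintype.card_fin]
  refine Finset.sum_congr rfl fun σ _ => ?_
  split_ifs
  · rw [mul_div_assoc, Finset.sum_div]
  · simp

theorem loopSum_tendsto {m : ℕ} (D : ℝ) (K : ℕ → Fin m × Bool → Fin m × Bool → ℝ)
    (K' : Fin m × Bool → Fin m × Bool → ℝ)
    (h : ∀ α γ, γ.1 ≠ α.1 → Tendsto (fun n => K n α γ) atTop (𝓝 (K' α γ))) :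
    Tendsto (fun n => loopSum D (K n)) atTop (𝓝 (loopSum D K')) := by
  refine tendsto_finsetSum _ fun σ _ => ?_
  split_ifs with hσ
  · exact (tendsto_finsetSum _ fun s _ => tendsto_finsetProd _ fun i _ =>
      h _ _ (hσ i)).const_mul _
  · exact tendsto_const_nhds

section
variable {A : Type} [NormedRing A] [StarRing A] [NormedAlgebra ℝ A] [HS A]
variable {G : Type} [Group G] (ρ : G →* unitary A)
  [TopologicalSpace G] [IsTopologicalGroup G] [CompactSpace G]
  [SecondCountableTopology G] [MeasurableSpace G] [BorelSpace G] (μ : Measure G)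
  [μ.IsHaarMeasure] [IsProbabilityMeasure μ]

theorem continuum (hρ : Continuous ρ) (d k : ℕ) (hd : 2 ≤ d) :
    ∃ C : ℝ, ∀ (y : Fin k → EuclideanSpace ℝ (Fin d)) (a : Fin k → Bool → Fin d × Fin d)
      (ε β : ℕ → ℝ) (L : ℕ → ℕ) (x : ℕ → Fin k → Fin d → ℤ), Function.Injective y →
      (∀ n, 0 < ε n) → Tendsto ε atTop (𝓝 0) → (∀ n, ε n ^ (-C) ≤ β n) → (∀ n, β n ≤ L n) →
      (∀ i l, Tendsto (fun n => ε n * x n i l) atTop (𝓝 (y i l))) →
      Tendsto (fun n => (∫ U, ∏ i, (OU ρ √(β n) (fun j => (x n i j : ZMod (2 * L n + 2)))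
        (a i true) (a i false) U - ∫ V, OU ρ √(β n) (fun j => (x n i j : ZMod (2 * L n + 2)))
          (a i true) (a i false) V ∂(nu μ ρ d (2 * L n + 2) (√(β n) ^ 2 / 4)))
          ∂(nu μ ρ d (2 * L n + 2) (√(β n) ^ 2 / 4))) / (ε n ^ d) ^ k) atTop
        (𝓝 (loopSum (Module.finrank ℝ (lieAlg ρ))
          fun α γ => maxwell (y γ.1 - y α.1) (a α.1 α.2) (a γ.1 γ.2))) := by
  have : NeZero d := ⟨by omega⟩
  obtain ⟨κ, hlim, hm⟩ := lattice ρ μ hρ d hd
  obtain ⟨C₀, q, hC₀, hq, hL⟩ := hm k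
  obtain ⟨p, hp⟩ : ∃ p, p = d * k + 2 := ⟨_, rfl⟩
  refine ⟨((p * q + 1) * 2 : ℕ), fun y a ε β L x hy hε hε0 hβ hβL hx => ?_⟩
  have hK := loopSum_tendsto (Module.finrank ℝ (lieAlg ρ))
    (fun n α γ => kM κ (x n γ.1 - x n α.1) (a α.1 α.2) (a γ.1 γ.2) / ε n ^ d)
    (fun α γ => maxwell (y γ.1 - y α.1) (a α.1 α.2) (a γ.1 γ.2)) fun α γ h => by
      have key := fun i j => hlim i j (y γ.1 - y α.1) ε (fun n => x n γ.1 - x n α.1)
        (sub_ne_zero.mpr fun h' => h (hy h')) hε hε0 fun l => by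
          simpa [mul_sub] using (hx γ.1 l).sub (hx α.1 l)
      have ki : ∀ (P : Prop) [Decidable P] i j, Tendsto
          (fun n => (if P then κ j i (x n γ.1 - x n α.1) else 0) / ε n ^ d) atTop
          (𝓝 (if P then hessG (y γ.1 - y α.1) i j else 0)) := fun P _ i j => by
        split_ifs
        · rw [← hessG_symm]; exact key j i
        · simp
      simp only [kM, maxwell, add_div, sub_div]
      exact (((ki _ _ _).sub (ki _ _ _)).sub (ki _ _ _)).add (ki _ _ _)
  refine hK.congr_dist (squeeze_zero' (Eventually.of_forall fun _ => dist_nonneg) ?_ hε0)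
  have e1 : ∀ᶠ n in atTop, ε n < 1 / (C₀ * 2 ^ q * 4) := hε0.eventually_lt_const (by positivity)
  have e2 : ∀ᶠ n in atTop, ∀ i l, |ε n * x n i l| * ε n < 1 := by
    simp only [eventually_all]
    intro i l
    exact ((hx i l).abs.mul hε0).eventually_lt_const (by simp)
  filter_upwards [e1, e2] with n h1 h2
  have ε0 := hε n
  obtain ⟨E, hE⟩ : ∃ E, E = (ε n)⁻¹ := ⟨_, rfl⟩
  have c1 : 1 ≤ C₀ * 2 ^ q := one_le_mul_of_one_le_of_one_le hC₀ (one_le_pow₀ one_le_two)
  have E1 : C₀ * 2 ^ q * 4 ≤ E := by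
    rw [hE, ← one_div, le_div_iff₀ ε0]
    rw [lt_div_iff₀ (by positivity)] at h1
    linarith
  have E2 : 1 ≤ E := by linarith
  have Ep : 1 ≤ E ^ p := one_le_pow₀ E2
  obtain ⟨s, hs1, hs2⟩ : ∃ s : ℕ, E ^ p ≤ s ∧ s ≤ 2 * E ^ p :=
    ⟨⌈E ^ p⌉₊, Nat.le_ceil _, by linarith [Nat.ceil_lt_add_one (zero_le_one.trans Ep)]⟩
  have s1 : 1 ≤ s := by exact_mod_cast Ep.trans hs1
  have s1' : (1 : ℝ) ≤ s := Ep.trans hs1
  have hb : (E ^ (p * q + 1)) ^ 2 ≤ β n := by
    have := hβ n
    rwa [Real.rpow_neg ε0.le, Real.rpow_natCast, ← inv_pow, ← hE, pow_mul] at this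
  have hr : 4 * (C₀ * s ^ q) ≤ √(β n) := by
    refine Real.le_sqrt_of_sq_le (le_trans (pow_le_pow_left₀ (by positivity) ?_ 2) hb)
    calc _ ≤ 4 * (C₀ * (2 * E ^ p) ^ q) := by gcongr
      _ = E ^ (p * q) * (C₀ * 2 ^ q * 4) := by rw [mul_pow, ← pow_mul]; ring
      _ ≤ _ := by rw [pow_succ]; gcongr
  have sq : (s : ℝ) ≤ C₀ * s ^ q := (le_self_pow₀ s1' (by omega)).trans
    (le_mul_of_one_le_left (by positivity) hC₀)
  have β0 : 0 ≤ β n := (sq_nonneg _).trans hb
  have r2 : √(β n) ≤ L n := (le_self_pow₀ (by linarith) two_ne_zero).trans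
    ((Real.sq_sqrt β0).trans_le (hβL n))
  have sL : 4 * s ≤ L n := by
    have : (4 * s : ℝ) ≤ L n := by linarith
    exact_mod_cast this
  have xs : ∀ i l, (x n i l).natAbs ≤ s := by
    intro i l
    have h3 := h2 i l
    have : |(x n i l : ℝ)| ≤ s := by
      refine le_trans ?_ ((pow_le_pow_right₀ E2 (show 2 ≤ p by omega)).trans hs1)
      rw [abs_mul, abs_of_pos ε0] at h3
      rw [hE, inv_pow, ← one_div, le_div_iff₀ (by positivity)]
      nlinarith
    rw [← Int.cast_abs, ← Nat.cast_natAbs] at this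
    exact_mod_cast this
  have h4 := hL s (2 * L n + 2) (L n + 1) √(β n) s1 (by ring) (by linarith)
    (by rw [Real.sq_sqrt β0]; push_cast; linarith [hβL n])
    (fun i j => (x n i j : ZMod (2 * L n + 2))) a fun i => inBox_cast _ (xs i)
  have h5 : ∀ i j : Fin k, lift ((fun l => (x n j l : ZMod (2 * L n + 2))) -
      fun l => (x n i l : ZMod (2 * L n + 2))) = x n j - x n i := by
    intro i j
    rw [← lift_cast (L := 2 * L n + 2) (x n j - x n i) fun l => by
      have := xs i l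
      have := xs j l
      rw [Pi.sub_apply]
      omega]
    congr 1
    funext l
    simp
  simp only [h5] at h4
  rw [← loopSum_div, Real.dist_eq, ← sub_div, abs_div, abs_sub_comm,
    abs_of_pos (show 0 < (ε n ^ d) ^ k by positivity), div_le_iff₀ (by positivity)]
  refine h4.trans ?_
  rw [div_le_iff₀ (by linarith)]
  calc (1 : ℝ) ≤ E := E2
    _ = ε n * (ε n ^ d) ^ k * E ^ p := by rw [hE, hp, ← pow_mul, inv_pow]; field_simp; ring
    _ ≤ _ := by gcongr

end

section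
open scoped Matrix.Norms.Frobenius

variable {d L N : ℕ} [NeZero L] {G : Type} [Group G] (ρ : G →* Matrix.unitaryGroup (Fin N) ℂ)

theorem action_eq (U : Link d L → G) : letI := matrixHS N
    action ρ U = (∑ _x : Site d L, ∑ i : Fin d, ∑ j : Fin d, if i < j then (N : ℝ) else 0) -
      act ρ U / 4 := by
  let _ := matrixHS N
  have e : ∀ x : Site d L, ∑ i, ∑ j, qq ρ (hol U x i j) =
      2 * ∑ i, ∑ j, if i < j then qq ρ (hol U x i j) else 0 := fun x =>
    sum_lt_pairs _ (fun i j => by rw [hol_swap, qq_inv]) fun i => by rw [hol_self, qq_one]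
  simp only [act, action, e, Finset.sum_div, Finset.mul_sum, ← Finset.sum_sub_distrib]
  refine Finset.sum_congr rfl fun x _ => Finset.sum_congr rfl fun i _ =>
    Finset.sum_congr rfl fun j _ => ?_
  split_ifs
  · rw [qq_eq]
    change _ = _ - 2 * (2 * ((1 : Matrix (Fin N) (Fin N) ℂ).trace.re -
      (ρ (hol U x i j)).1.trace.re)) / 4
    simp
    ring
  · simp

theorem expect_eq [MeasurableSpace G] (μ : Measure G) (β : ℝ) (F : (Link d L → G) → ℝ) :
    letI := matrixHS N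
    expect μ ρ β F = (∫ U, F U * Real.exp (-(β / 4 * act ρ U)) ∂(Measure.pi fun _ => μ)) /
      ∫ U : Link d L → G, Real.exp (-(β / 4 * act ρ U)) ∂(Measure.pi fun _ => μ) := by
  let _ := matrixHS N
  obtain ⟨c, hc⟩ : ∃ c : ℝ, ∀ U : Link d L → G, Real.exp (β * action ρ U) =
      Real.exp (-(β / 4 * act ρ U)) * Real.exp c :=
    ⟨_, fun U => by rw [action_eq, ← Real.exp_add, mul_sub, sub_eq_neg_add]; congr 2; ring⟩
  simp only [expect, hc, ← mul_assoc, integral_mul_const]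
  rw [mul_div_mul_right _ _ (Real.exp_ne_zero c)]

end

theorem T2 (d N k : ℕ) (hd : 2 ≤ d) (G : Type) [Group G] [TopologicalSpace G]
    [IsTopologicalGroup G] [CompactSpace G] [SecondCountableTopology G] [MeasurableSpace G]
    [BorelSpace G] (μ : Measure G) [μ.IsHaarMeasure] [IsProbabilityMeasure μ]
    (ρ : G →* Matrix.unitaryGroup (Fin N) ℂ) (hρ : Continuous ρ) :
    ∃ C : ℝ, ∀ (y : Fin k → EuclideanSpace ℝ (Fin d)) (a : Fin k → Bool → Fin d × Fin d)
      (ε β : ℕ → ℝ) (L : ℕ → ℕ) (x : ℕ → Fin k → Fin d → ℤ), Function.Injective y →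
      (∀ n, 0 < ε n) → Tendsto ε atTop (𝓝 0) → (∀ n, ε n ^ (-C) ≤ β n) → (∀ n, β n ≤ L n) →
      (∀ i l, Tendsto (fun n => ε n * x n i l) atTop (𝓝 (y i l))) →
      Tendsto (fun n => expect (L := 2 * L n + 2) μ ρ (β n) fun U => ∏ i, β n / ε n ^ d *
          (trFF ρ (x n i) (a i true) (a i false) U -
            expect (L := 2 * L n + 2) μ ρ (β n) (trFF ρ (x n i) (a i true) (a i false)))) atTop
        (𝓝 (∑ σ : Equiv.Perm (Fin k), if ∀ i, σ i ≠ i then
          ((lieDim ρ : ℝ) / 2) ^ σ.cycleType.card * ∑ s : Fin k → Bool,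
            ∏ i, maxwell (y (σ i) - y i) (a i (s i)) (a (σ i) (!s (σ i))) else 0)) := by
  open scoped Matrix.Norms.Frobenius in
  let _ := matrixHS N
  obtain ⟨C, h⟩ := continuum ρ μ hρ d k hd
  refine ⟨C, fun y a ε β L x hy hε hε0 hβ hβL hx => ?_⟩
  refine (h y a ε β L x hy hε hε0 hβ hβL hx).congr fun n => ?_
  have β0 : 0 ≤ β n := (Real.rpow_pos_of_pos (hε n) _).le.trans (hβ n)
  have e : ∀ F, expect (L := 2 * L n + 2) μ ρ (β n) F =
      ∫ U, F U ∂(nu μ ρ d (2 * L n + 2) (β n / 4)) := fun F => by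
    rw [expect_eq, nu_int]; rfl
  simp only [e, OU, Real.sq_sqrt β0, integral_const_mul, ← integral_div]
  congr 1
  funext U
  rw [← Fin.prod_const, ← Finset.prod_div_distrib]
  refine Finset.prod_congr rfl fun i _ => ?_
  rw [← mul_sub, mul_div_right_comm]
  rfl

end Pool.Agent.Lib.MP_7f377f_mp.Weak
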