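import Pool.Agent.Lib.MP_7f377f_mp.JetB

/-! Jets of products over cells and the comparison of centred moments. -/

noncomputable section

namespace Pool.Agent.Lib.MP_7f377f_mp.Jet

open Metric Filter Function Finset
open scoped Topology

variable {κ : Type} [Fintype κ] [DecidableEq κ] {r M w ρ X ε : ℝ} {a e e' : Finset κ → ℂ}
  {q z : (κ → ℂ) → ℂ}

omit [Fintype κ] in
theorem SH.cell {γ : Type} [DecidableEq γ] (h : SH (fun _ => r) M q) (c : γ) :
    SH (fun _ : γ × κ => r) M fun s => q fun i => s (c, i) := by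
  refine ⟨fun p => h.pos p.2, fun s hs p => ?_, fun s hs => h.bd _ fun i => hs _⟩
  by_cases e : p.1 = c
  · obtain ⟨_, i⟩ := p
    subst e
    exact (h.hol (fun j => s (_, j)) (fun j => hs _) i).congr fun t _ => congrArg q
      (update_comp_eq_of_injective s (Prod.mk_right_injective _) i t)
  · exact (differentiableOn_const (q fun i => s (c, i))).congr fun t _ => congrArg q
      (funext fun i => update_of_ne (fun k => e (congrArg Prod.fst k).symm) _ _)

/-- jets of a product over cells -/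
theorem jd_cells {γ : Type} [DecidableEq γ] (r0 : 0 < r) (Y : Finset γ) {φ : γ → (κ → ℂ) → ℂ}
    {m : γ → ℝ} (h : ∀ c, SH (fun _ => r) (m c) (φ c)) (T : γ → Finset κ) :
    jd (Y.biUnion fun c => (T c).image (Prod.mk c)) (fun s => ∏ c ∈ Y, φ c fun i => s (c, i)) =
      ∏ c ∈ Y, jd (T c) (φ c) := by
  induction Y using Finset.induction_on with
  | empty => simp
  | insert c Y hc ih =>
    simp only [prod_insert hc]
    rw [← ih, ← jd_relabel (Prod.mk_right_injective c) (h c) ((h c).cell c)]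
    refine (jd_mul_dep (D := univ.image (Prod.mk c)) ((h c).cell c)
      (SH.prod (fun _ => r0) fun c _ => (h c).cell c) (fun s _ p hp t _ => congrArg _ (funext fun i =>
        update_of_ne (fun k => hp (by simp [← k])) _ _)) (fun s _ p hp t _ => prod_congr rfl
          fun c' hc' => congrArg _ (funext fun i => update_of_ne (fun k => ?_) _ _)) _).trans ?_
    · simp [← k] at hp
      exact hc (hp ▸ hc')
    · congr 2 <;> ext ⟨c', i⟩ <;> simp <;> grind

theorem sh_ma_le (ρ0 : 0 < ρ) (h : ∀ T, ‖a T‖ ≤ X * ρ ^ T.card) :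
    SH (fun _ => ρ⁻¹) (2 ^ Fintype.card κ * X) (ma univ a) :=
  (sh_ma (fun _ => inv_pos.2 ρ0) univ a).mono ((sum_le_card_nsmul _ _ X fun T _ => by
    rw [prod_const, inv_pow, inv_mul_le_iff₀' (by positivity)]
    exact h T).trans_eq (by simp))

omit [Fintype κ] in
theorem SH.jd_pow (h : SH (fun _ => ρ⁻¹) M q) (T : Finset κ) : ‖jd T q‖ ≤ M * ρ ^ T.card := by
  simpa [div_eq_mul_inv] using h.jd_le T

/-- the inverse near the origin -/
theorem ev_inv (h : a ∅ = 1) : ∀ᶠ r in 𝓝[>] (0 : ℝ),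
    SH (fun _ => r) 2 (fun s => (ma univ a s)⁻¹) ∧ ∀ s ∈ Pd fun _ => r, ma univ a s ≠ 0 := by
  have c : Continuous (ma univ a) := by unfold ma mon; fun_prop
  obtain ⟨r0, h0, h1⟩ := Metric.continuousAt_iff.1 (c.continuousAt (x := 0)) 2⁻¹ (by norm_num)
  filter_upwards [Ioo_mem_nhdsGT h0] with r hr
  have k : ∀ s ∈ Pd fun _ : κ => r, 2⁻¹ ≤ ‖ma univ a s‖ := fun s hs => by
    have := h1 (show dist s 0 < r0 from (dist_pi_lt_iff h0).2 fun i => by
      simpa using (hs i).trans hr.2)
    rw [ma_zero, h, dist_comm, dist_eq_norm] at this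
    linarith [norm_sub_norm_le 1 (ma univ a s), norm_one (α := ℂ)]
  have k0 : ∀ s ∈ Pd fun _ : κ => r, ma univ a s ≠ 0 := fun s hs =>
    norm_pos_iff.1 (lt_of_lt_of_le (by norm_num) (k s hs))
  exact ⟨⟨fun _ => hr.1, fun s hs i => (ma_hol a s i).differentiableOn.inv fun t ht =>
    k0 _ (Pd.upd hs ht), fun s hs => by
      rw [norm_inv]; exact inv_le_of_inv_le₀ two_pos (k s hs)⟩, k0⟩

/-- the part of degree at least two -/
def hi (e : Finset κ → ℂ) (T : Finset κ) : ℂ := if 2 ≤ T.card then e T else 0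

theorem ma_hi (h : e ∅ = 0) (s : κ → ℂ) : ma univ e s = ma univ (hi e) s + ∑ i, s i * e {i} := by
  have : ∑ i, s i * e {i} = ∑ T ∈ univ.image (fun i : κ => ({i} : Finset κ)), mon T s • e T := by
    rw [sum_image fun _ _ _ _ => singleton_injective.eq_iff.1]; simp [mon]
  rw [this, ← univ_inter (image _ _), ← sum_ite_mem, ma, ma, powerset_univ, ← sum_add_distrib]
  refine sum_congr rfl fun T _ => ?_
  rcases T.eq_empty_or_nonempty with rfl | hT
  · simp [h, hi]
  · by_cases k : 2 ≤ T.card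
    · rw [hi, if_pos k, if_neg, add_zero]
      simp only [mem_image, not_exists, not_and]
      rintro i - rfl
      simp at k
    · obtain ⟨i, rfl⟩ := card_eq_one.1 (show T.card = 1 by have := hT.card_pos; omega)
      simp [hi]

theorem jd_mul_one {r : κ → ℝ} {M' : ℝ} (h : SH r M q) (h' : SH r M' z) (i : κ) :
    jd {i} (q * z) = q 0 * jd {i} z + jd {i} q * z 0 := by
  rw [jd_mul h h', ← insert_empty_eq, sum_powerset_insert (notMem_empty _)]
  simp

omit [DecidableEq κ] in
theorem ma_diff (a : Finset κ → ℂ) : Differentiable ℂ (ma univ a) := by unfold ma mon; fun_prop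

omit [Fintype κ] [DecidableEq κ] in
theorem hi_le (he : ∀ T, 2 ≤ T.card → ‖e T‖ ≤ X * ρ ^ T.card) (X0 : 0 ≤ X) (ρ0 : 0 < ρ)
    (T : Finset κ) : ‖hi e T‖ ≤ X * ρ ^ T.card := by
  unfold hi
  split_ifs with k
  exacts [he T k, by rw [norm_zero]; positivity]

/-- centring removes the terms of first order -/
theorem centre_le (e0 : e ∅ = 0) (hq : SH (fun _ => w⁻¹) M q) (q0 : q 0 = 1) {μ : κ → ℂ}
    (h1 : ∀ i, jd {i} (fun s => Complex.exp (ma univ e s) * q s) + μ i = 0) (w0 : 0 < w)
    (ρ0 : 0 < ρ) (hw : w ≤ ε * ρ) (ε1 : ε < 1) (he : ∀ T, 2 ≤ T.card → ‖e T‖ ≤ X * ρ ^ T.card)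
    (X0 : 0 ≤ X) :
    ‖jd univ (fun s => Complex.exp (ma univ e s) * q s * Complex.exp (∑ i, s i * μ i)) -
      jd univ fun s => Complex.exp (ma univ (hi e) s)‖ ≤ 2 * (Real.exp (2 ^ Fintype.card κ * X) *
        (2 ^ Fintype.card κ * (M * Real.exp (Fintype.card κ * M)))) * (ε * ρ ^ Fintype.card κ) := by
  have ε0 : 0 < ε := pos_of_mul_pos_left (w0.trans_le hw) ρ0.le
  have hA := (sh_ma_le ρ0 (hi_le he X0 ρ0)).exp
  have h2 : ∀ i, ‖e {i} + μ i‖ ≤ M * w := fun i => by
    have := (jd_mul_one (sh_ma hq.pos univ e).exp hq i).symm.trans (eq_neg_of_add_eq_zero_left (h1 i))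
    simp only [jd_single i fun s => Complex.exp _, ma_single (mem_univ i), ma_zero, e0, q0] at this
    rw [show e {i} + μ i = -jd {i} q by simp at this; linear_combination this, norm_neg]
    simpa using hq.jd_pow {i}
  have hQ := (hq.mul (sh_lin hq.pos univ fun i => e {i} + μ i).exp).mono
    (M' := M * Real.exp (Fintype.card κ * M)) (by
      have := hq.nonneg
      gcongr
      exact (sum_le_card_nsmul _ _ M fun i _ => by
        rw [inv_mul_le_iff₀' w0]; exact h2 i).trans_eq (by simp))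
  generalize hd : (q * fun s => Complex.exp (∑ i, s i * (e {i} + μ i))) = Q at hQ
  have k := jd_lip (r := fun _ => ρ⁻¹) (R := ε⁻¹) (t := 1)
    (g := fun z s => Complex.exp (ma univ (hi e) s) * tr univ Q (z • s))
    (fun z hz => hA.mul ⟨hA.pos, fun s _ i => ((ma_diff _).comp
      (((contDiff_update 1 s i).differentiable one_ne_zero).const_smul z)).differentiableOn,
      fun s hs => tr_le1 (ρ := 1) (D := univ) hQ (fun _ _ k => (k (subset_univ _)).elim) fun i => ?_⟩)
    (fun s _ => (((ma_diff _).comp (differentiable_id.smul_const s)).const_mul _).differentiableOn)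
    (by simpa using (one_lt_inv₀ ε0).2 ε1) univ
  · have r0 := lt_min (inv_pos.2 w0) (inv_pos.2 ρ0)
    have e1 := ((Hb.refl ⟨_, hA.shrink (fun _ => r0) fun _ => min_le_right _ _⟩).mul
      (Hb.tr ⟨_, hQ.shrink (fun _ => r0) fun _ => min_le_left _ _⟩)).eq univ Subset.rfl
    have e2 : Q 0 = 1 := by simp [← hd, q0]
    simp only [one_smul, zero_smul, tr_zero, e2, mul_one, ← e1] at k
    refine (congrArg (fun g => ‖jd univ g - _‖) (funext fun s => ?_)).trans_le (k.trans_eq ?_)
    · simp only [← hd, Pi.mul_apply, ma_hi e0 s, mul_add, sum_add_distrib, Complex.exp_add]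
      ring
    · simp [one_add_one_eq_two, div_eq_mul_inv]
      ring
  · rw [one_mul, Pi.smul_apply, norm_smul]
    exact (mul_le_mul (mem_ball_zero_iff.1 hz).le (hs i).le (norm_nonneg _) (by positivity)).trans
      (by rw [← mul_inv]; exact inv_anti₀ w0 hw)

/-- comparison of the main terms -/
theorem hi_cmp {γ : ℂ} (ρ0 : 0 < ρ) (ε0 : 0 < ε) (ε1 : ε < 1) (hγ : ‖γ‖ ≤ 2)
    (he : ∀ T, 2 ≤ T.card → ‖e' T‖ ≤ ρ ^ T.card ∧ ‖e T - γ ^ T.card * e' T‖ ≤ ε * ρ ^ T.card) :
    ‖jd univ (fun s => Complex.exp (ma univ (hi e) s)) -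
      γ ^ Fintype.card κ * jd univ fun s => Complex.exp (ma univ (hi e') s)‖ ≤
      2 * Real.exp (2 ^ Fintype.card κ * (2 ^ Fintype.card κ + 1)) * (ε * ρ ^ Fintype.card κ) := by
  have k := jd_lip (r := fun _ => ρ⁻¹) (R := ε⁻¹) (t := 1) (g := fun z s => Complex.exp (ma univ
    (hi fun T => γ ^ T.card * e' T + z * (e T - γ ^ T.card * e' T)) s))
    (fun z hz => (sh_ma_le ρ0 (hi_le (X := 2 ^ Fintype.card κ + 1) (fun T hT => ?_) (by positivity)
      ρ0)).exp) (fun s _ => .cexp (.fun_sum fun T _ => by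
        unfold hi; split_ifs <;> fun_prop)) (by simpa using (one_lt_inv₀ ε0).2 ε1) univ
  · have := jd_scale (fun _ => γ) (fun s => Complex.exp (ma univ (hi e') s)) univ
    rw [prod_const, card_univ] at this
    rw [← this]
    refine (congrArg₂ (fun g g' => ‖jd univ g - jd univ g'‖) (by simp) (funext fun s =>
      congrArg _ (sum_congr rfl fun T _ => ?_))).trans_le (k.trans_eq ?_)
    · unfold hi
      split_ifs <;> simp [mon, prod_mul_distrib]
      ring
    · simp [div_eq_mul_inv]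
      ring
  · rw [add_mul, one_mul]
    refine norm_add_le_of_le (norm_mul_le_of_le ((norm_pow _ _).trans_le ((pow_le_pow_left₀
      (norm_nonneg _) hγ _).trans (pow_le_pow_right₀ one_le_two (card_le_univ T)))) (he T hT).1)
      ((norm_mul_le_of_le (mem_ball_zero_iff.1 hz).le (he T hT).2).trans_eq ?_)
    rw [inv_mul_cancel_left₀ ε0.ne']

end Pool.Agent.Lib.MP_7f377f_mp.Jet
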