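import Pool.Agent.Lib.MP_7f377f_mp.S10KB

/-! The flat tube theorem for two right half planes, by a double Fourier series. -/

noncomputable section

namespace Pool.Agent.Lib.MP_7f377f_mp.S10

open Set Filter Topology Complex ComplexConjugate Metric
open scoped Real

namespace Ft

/-- Fourier coefficients -/
def co (φ : ℝ → ℂ) (n : ℤ) : ℂ := (1 / (2 * π) : ℝ) • ∫ x in (0 : ℝ)..2 * π, exp (-(n * (x * I))) * φ x

theorem co_sum {φ : ℝ → ℂ} (hc : Continuous φ) (hp : Function.Periodic φ (2 * π))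
    (hs : Summable (co φ)) (x : ℝ) : HasSum (fun n => co φ n * exp (x * I) ^ n) (φ x) := by
  have : Fact (0 < 2 * π) := ⟨by positivity⟩
  let Φ : C(AddCircle (2 * π), ℂ) := ⟨hp.lift, continuous_coinduced_dom.mpr hc⟩
  have p : (π : ℂ) ≠ 0 := ofReal_ne_zero.2 Real.pi_ne_zero
  have e : ∀ (n : ℤ) (y : ℝ), fourier n (y : AddCircle (2 * π)) = exp (n * (y * I)) := fun n y => by
    rw [fourier_coe_apply]
    push_cast
    congr 1
    field_simp
  have h : fourierCoeff Φ = co φ := funext fun n => by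
    rw [fourierCoeff_eq_intervalIntegral _ n 0, zero_add, co]
    simp only [e, Int.cast_neg, neg_mul]
    rfl
  have := has_pointwise_sum_fourier_series_of_summable (f := Φ) (h ▸ hs) (x : AddCircle (2 * π))
  simp only [h, e, exp_int_mul] at this
  exact this

theorem co_le {φ : ℝ → ℂ} {M : ℝ} (h : ∀ x, ‖φ x‖ ≤ M) (n : ℤ) : ‖co φ n‖ ≤ M := by
  have := intervalIntegral.norm_integral_le_of_norm_le_const (a := 0) (b := 2 * π)
    (f := fun x : ℝ => exp (-(n * (x * I))) * φ x) (C := M) fun x _ => by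
      rw [norm_mul, norm_exp]
      simpa using h x
  rw [sub_zero, abs_of_pos Real.two_pi_pos] at this
  rw [co, norm_smul, Real.norm_of_nonneg (by positivity), one_div, inv_mul_le_iff₀' Real.two_pi_pos]
  exact this

theorem co_decay {g : ℂ → ℂ} {M c : ℝ} (c0 : 0 ≤ c)
    (hd : ∀ z : ℂ, |z.im| ≤ c → DifferentiableAt ℂ g z ∧ ‖g z‖ ≤ M)
    (hp : ∀ z, g ((2 * π : ℝ) + z) = g z) (n : ℤ) :
    ‖co (fun x => g x) n‖ ≤ M * Real.exp (-(c * |(n : ℝ)|)) := by
  obtain ⟨y, y1, y2⟩ : ∃ y : ℝ, |y| ≤ c ∧ n * y = -(c * |(n : ℝ)|) := by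
    rcases le_total 0 (n : ℝ) with h | h
    · exact ⟨-c, by rw [abs_neg, abs_of_nonneg c0], by rw [abs_of_nonneg h]; ring⟩
    · exact ⟨c, (abs_of_nonneg c0).le, by rw [abs_of_nonpos h]; ring⟩
  have h := integral_boundary_rect_eq_zero_of_differentiableOn (fun z => exp (-(n * (z * I))) * g z)
    0 ⟨2 * π, y⟩ fun z hz => by
      refine (DifferentiableAt.mul (by fun_prop) (hd z ?_).1).differentiableWithinAt
      exact (abs_sub_left_of_mem_uIcc hz.2).trans_eq' (by simp) |>.trans (by simpa using y1)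
  have e : ∀ z : ℂ, exp (-(n * (((2 * π : ℝ) + z) * I))) = exp (-(n * (z * I))) := fun z => by
    rw [← one_mul (exp (-(n * (z * I)))), ← exp_int_mul_two_pi_mul_I (-n), ← exp_add]
    congr 1
    push_cast
    ring
  simp only [zero_re, zero_im, ofReal_zero, zero_mul, add_zero, zero_add, hp, e, add_sub_cancel_right,
    sub_eq_zero] at h
  have h2 : co (fun x => g x) n = co (fun x => exp (n * y) * g (x + y * I)) n := by
    rw [co, co, h]
    refine congrArg _ (intervalIntegral.integral_congr fun x _ => ?_)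
    simp only [← mul_assoc, ← exp_add]
    congr 2
    linear_combination (-(n * y : ℂ)) * I_mul_I
  rw [h2]
  refine co_le (fun x => ?_) n
  rw [norm_mul, norm_exp, mul_comm, ← y2]
  exact mul_le_mul (hd _ (by simpa using y1)).2 (by simp) (by positivity)
    ((norm_nonneg _).trans (hd 0 (by simpa)).2)

theorem co_swap {f : ℝ → ℝ → ℂ} (hc : Continuous f.uncurry) (j k : ℤ) :
    co (fun b => co (fun a => f a b) j) k = co (fun a => co (f a) k) j := by
  simp only [co, mul_smul_comm, intervalIntegral.integral_smul, ← intervalIntegral.integral_const_mul]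
  rw [MeasureTheory.intervalIntegral_intervalIntegral_swap]
  · simp only [mul_left_comm]
  · refine (ContinuousOn.integrableOn_compact (isCompact_uIcc.prod isCompact_uIcc)
      (Continuous.continuousOn ?_)).mono_set (prod_mono uIoc_subset_uIcc uIoc_subset_uIcc)
    have := hc.comp continuous_swap
    exact (by fun_prop : Continuous fun p : ℝ × ℝ => exp (-(k * (p.1 * I)))).mul
      ((by fun_prop : Continuous fun p : ℝ × ℝ => exp (-(j * (p.2 * I)))).mul this)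

theorem hol_decay {φ : ℝ → ℂ} {M c t : ℝ} (h : Hol φ M) (c0 : 0 ≤ c) (t0 : 0 < t)
    (hc : t⁻¹ * Real.sinh c < π / 2) (n : ℤ) :
    ‖co (fun a => φ (Real.exp (Real.cos a / t))) n‖ ≤ M * Real.exp (-(c * |(n : ℝ)|)) := by
  obtain ⟨g, g1, g2, g3⟩ := h
  have r : ∀ z : ℂ, |z.im| ≤ c → 0 < (exp (cos z / t)).re := fun z hz => by
    rw [exp_re]
    refine mul_pos (Real.exp_pos _) (Real.cos_pos_of_mem_Ioo (abs_lt.1 (lt_of_le_of_lt ?_ hc)))
    rw [div_ofReal_im, cos_eq, abs_div, abs_of_pos t0, div_eq_inv_mul]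
    refine mul_le_mul_of_nonneg_left ?_ (by positivity)
    simp only [← ofReal_cos, ← ofReal_cosh, ← ofReal_sin, ← ofReal_sinh, ← ofReal_mul, sub_im,
      ofReal_im, mul_I_im, ofReal_re, zero_sub, abs_neg, abs_mul, Real.abs_sinh]
    exact (mul_le_of_le_one_left (by positivity) (Real.abs_sin_le_one _)).trans
      (Real.sinh_le_sinh.2 hz)
  have := co_decay (g := fun z => g (exp (cos z / t))) c0 (fun z hz => ⟨(g1.differentiableAt
    ((isOpen_lt continuous_const continuous_re).mem_nhds (r z hz))).comp z (by fun_prop),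
    g2 _ (r z hz)⟩) (fun z => by rw [add_comm, ofReal_mul, ofReal_ofNat, cos_add_two_pi]) n
  simpa only [← g3 _ (Real.exp_pos _), ofReal_exp, ofReal_div, ofReal_cos] using this

theorem cont_two {F : ℝ → ℝ → ℂ} {M : ℝ} (h1 : ∀ q > 0, Hol (fun p => F p q) M)
    (h2 : ∀ p > 0, Hol (F p) M) {p q : ℝ} (hp : 0 < p) (hq : 0 < q) :
    ContinuousAt F.uncurry (p, q) := by
  have o : IsOpen {z : ℂ | 0 < z.re} := isOpen_lt continuous_const continuous_re
  obtain ⟨g, g1, -, g3⟩ := h2 p hp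
  have c1 : Tendsto (fun x : ℝ × ℝ => g x.2) (𝓝 (p, q)) (𝓝 (g q)) :=
    (g1.continuousOn.continuousAt (o.mem_nhds (show 0 < (q : ℂ).re from hq))).tendsto.comp
      (Continuous.tendsto' (by fun_prop) _ _ rfl)
  have c2 : Tendsto (fun x : ℝ × ℝ => F x.1 x.2 - g x.2) (𝓝 (p, q)) (𝓝 0) := by
    refine squeeze_zero_norm' (a := fun x => (M + M) / p * dist x.1 p) ?_
      (Continuous.tendsto' (by fun_prop) _ _ (by simp))
    filter_upwards [prod_mem_nhds (ball_mem_nhds p hp) (Ioi_mem_nhds hq)] with x hx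
    obtain ⟨k, k1, k2, k3⟩ := h1 x.2 hx.2
    have s : ball (p : ℂ) p ⊆ {z | 0 < z.re} := fun z hz => by
      have := (abs_re_le_norm _).trans_lt (mem_ball_iff_norm.1 hz)
      rw [sub_re, ofReal_re, abs_lt] at this
      exact (by linarith [this.1] : 0 < z.re)
    have m : (x.1 : ℂ) ∈ ball (p : ℂ) p := by simpa [dist_of_im_eq, Real.dist_eq] using hx.1
    have := dist_le_div_mul_dist_of_mapsTo_ball (R₂ := M + M) (k1.mono s) (fun z hz =>
      mem_closedBall_iff_norm.2 ((norm_sub_le _ _).trans (add_le_add (k2 z (s hz)) (k2 p hp)))) m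
    rw [dist_eq_norm, k3 x.1 (s m), k3 p hp, isometry_ofReal.dist_eq] at this
    rwa [g3 _ hx.2]
  have := c2.add c1
  simp only [sub_add_cancel, zero_add, g3 q hq] at this
  exact this

/-- the inverse of the Joukowski map -/
def jk (w : ℂ) : ℂ := w + I * (1 - w ^ 2) ^ (2⁻¹ : ℂ)

theorem jk_mul (w : ℂ) : jk w * (w - I * (1 - w ^ 2) ^ (2⁻¹ : ℂ)) = 1 := by
  have := cpow_ofNat_inv_pow (1 - w ^ 2) 2
  rw [jk]
  linear_combination this - ((1 - w ^ 2) ^ (2⁻¹ : ℂ)) ^ 2 * I_mul_I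

theorem jk_ne (w : ℂ) : jk w ≠ 0 := left_ne_zero_of_mul_eq_one (jk_mul w)

theorem jk_cosh (w : ℂ) : w = (Real.cosh (Real.log ‖jk w‖) * Real.cos (arg (jk w)) : ℝ) +
    (Real.sinh (Real.log ‖jk w‖) * Real.sin (arg (jk w)) : ℝ) * I := by
  have : cosh (log (jk w)) = w := by
    rw [cosh, exp_neg, exp_log (jk_ne w), ← eq_inv_of_mul_eq_one_right (jk_mul w), jk]
    ring
  rw [log, cosh_add, cosh_mul_I, sinh_mul_I] at this
  rw [← this]
  push_cast
  rw [this]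
  linear_combination -this

theorem jk_log {w : ℂ} {m : ℝ} (m0 : 0 ≤ m) (h : w.re ^ 2 + m ^ 2 ≤ 1) :
    m * |Real.log ‖jk w‖| ≤ |w.im| := by
  have e1 := congrArg re (jk_cosh w)
  have e2 := congrArg im (jk_cosh w)
  simp only [add_re, ofReal_re, mul_I_re, ofReal_im, neg_zero, add_zero, add_im, mul_I_im,
    zero_add] at e1 e2
  rw [e2, abs_mul, Real.abs_sinh, mul_comm]
  refine mul_le_mul (Real.self_le_sinh_iff.2 (abs_nonneg _)) (abs_le_of_sq_le_sq' ?_
    (abs_nonneg _)).2 m0 (by positivity)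
  have := one_le_pow₀ (n := 2) (Real.one_le_cosh (Real.log ‖jk w‖))
  rw [e1, mul_pow] at h
  nlinarith [sq_abs (Real.sin (arg (jk w))), Real.sin_sq_add_cos_sq (arg (jk w)),
    sq_nonneg (Real.cos (arg (jk w)))]

theorem jk_diff {w : ℂ} (h : ‖w‖ < 1) : DifferentiableAt ℂ jk w := by
  refine differentiableAt_id.add (DifferentiableAt.const_mul (DifferentiableAt.cpow_const
    (by fun_prop) ?_) _)
  rw [sub_eq_add_neg]
  exact mem_slitPlane_of_norm_lt_one (by simpa using pow_lt_one₀ (norm_nonneg _) h two_ne_zero)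

theorem zpow_le {z : ℂ} {β : ℝ} (h0 : z ≠ 0) (h : |Real.log ‖z‖| ≤ β) (j : ℤ) :
    ‖z ^ j‖ ≤ Real.exp (β * |(j : ℝ)|) := by
  rw [norm_zpow, ← Real.exp_log (zpow_pos (norm_pos_iff.2 h0) j), Real.log_zpow, Real.exp_le_exp,
    mul_comm β]
  exact (le_abs_self _).trans ((abs_mul _ _).trans_le (mul_le_mul_of_nonneg_left h (abs_nonneg _)))

theorem log_bd {z : ℂ} {δ θ : ℝ} (hδ : δ ≤ 1 / 2) (hθ : θ ≤ 1) (h : z ∈ Rc δ θ) :
    0 < (1 + z).re ∧ |(log (1 + z)).re| ≤ 2 ∧ |(log (1 + z)).im| ≤ Real.arctan (θ / (1 - δ)) := by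
  obtain ⟨⟨a1, a2⟩, a3⟩ : (-δ < z.re ∧ z.re < δ) ∧ |z.im| < θ := ⟨abs_lt.1 h.1, h.2⟩
  have r : 1 - δ < (1 + z).re := by simp; linarith
  have r0 : 0 < (1 + z).re := by linarith
  have n1 : 1 / 2 ≤ ‖1 + z‖ := by linarith [re_le_norm (1 + z)]
  have n2 : ‖1 + z‖ ≤ 3 := by
    linarith [norm_add_le 1 z, norm_one (α := ℂ), norm_le_abs_re_add_abs_im z, h.1]
  refine ⟨r0, ?_, ?_⟩
  · rw [log_re, abs_le]
    have := Real.one_sub_inv_le_log_of_pos (x := ‖1 + z‖) (by linarith)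
    have := inv_anti₀ (by norm_num) n1
    constructor <;> linarith [Real.log_le_sub_one_of_pos (x := ‖1 + z‖) (by linarith)]
  · have := abs_lt.1 (abs_arg_lt_pi_div_two_iff.2 (.inl r0))
    rw [log_im, ← Real.arctan_tan this.1 this.2, tan_arg, abs_le, ← Real.arctan_neg,
      Real.arctan_le_arctan_iff, Real.arctan_le_arctan_iff, ← abs_le, abs_div, abs_of_pos r0]
    exact div_le_div₀ ((abs_nonneg _).trans a3.le) (by simpa using a3.le) (by linarith) r.le

theorem exists_par {α : ℝ} (h : α < π / 4) : ∃ t c β : ℝ, 0 < t ∧ t < 1 / 4 ∧ 2 * β < c ∧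
    t⁻¹ * Real.sinh c < π / 2 ∧ α * t = (1 - 2 * t) * β := by
  obtain ⟨g, g1, g2⟩ := exists_between (show 2 * α < π / 2 by linarith)
  have d : HasDerivAt (fun t => Real.sinh (g * t)) g 0 := by
    simpa using ((hasDerivAt_id' (0 : ℝ)).const_mul g).sinh
  have e1 := (d.tendsto_slope_zero_right).eventually_lt_const g2
  have e2 : ∀ᶠ t in 𝓝[>] (0 : ℝ), 2 * α < g * (1 - 2 * t) := nhdsWithin_le_nhds
    ((Continuous.tendsto' (by fun_prop) 0 g (by simp)).eventually_const_lt g1)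
  obtain ⟨t, t1, t2, t3⟩ := (e1.and (e2.and (Ioo_mem_nhdsGT (show (0 : ℝ) < 1 / 4 by
    norm_num)))).exists
  have p : 0 < 1 - 2 * t := by linarith [t3.2]
  refine ⟨t, g * t, α * t / (1 - 2 * t), t3.1, t3.2, ?_, by simpa using t1,
    (mul_div_cancel₀ _ p.ne').symm⟩
  rw [← mul_div_assoc, div_lt_iff₀ p]
  nlinarith [t3.1]

theorem zeta {θ δ t β : ℝ} (θ0 : 0 < θ) (h1 : θ < 1) (d1 : δ ≤ 1 / 2) (t0 : 0 < t) (t1 : t < 1 / 4)
    (c3 : Real.arctan (θ / (1 - δ)) * t = (1 - 2 * t) * β) : ∃ ζ : ℂ → ℂ, (∀ z, ζ z ≠ 0) ∧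
    (∀ z ∈ Rc δ θ, DifferentiableAt ℂ ζ z ∧ |Real.log ‖ζ z‖| ≤ β) ∧
    ∀ s : ℝ, |s| < δ → ∃ a : ℝ, ζ s = exp (a * I) ∧ Real.exp (Real.cos a / t) = 1 + s := by
  refine ⟨fun z => jk (log (1 + z) * t), fun _ => jk_ne _, fun z hz => ?_, fun s hs => ?_⟩
  · obtain ⟨l1, l2, l3⟩ := log_bd d1 h1.le hz
    refine ⟨(jk_diff ?_).comp z (((differentiableAt_id.const_add 1).clog (.inl l1)).mul_const _),
      le_of_mul_le_mul_left (a := 1 - 2 * t) ((jk_log (by linarith) ?_).trans ?_) (by linarith)⟩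
    · rw [norm_mul, norm_real, Real.norm_of_nonneg t0.le]
      nlinarith [norm_le_abs_re_add_abs_im (log (1 + z)), Real.pi_le_four,
        Real.arctan_lt_pi_div_two (θ / (1 - δ))]
    · rw [re_mul_ofReal, mul_pow]
      nlinarith [sq_le_sq' (abs_le.1 l2).1 (abs_le.1 l2).2, sq_nonneg t]
    · rw [im_mul_ofReal, abs_mul, abs_of_pos t0, ← c3]
      exact mul_le_mul_of_nonneg_right l3 t0.le
  have p : 0 < 1 + s := by linarith [(abs_lt.1 hs).1]
  have e : log (1 + s) * t = (Real.log (1 + s) * t : ℝ) := by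
    rw [ofReal_mul, ofReal_log p.le]
    simp
  have l2 := (log_bd d1 h1.le (rc_real hs θ0)).2.1
  have n := jk_log (w := log (1 + s) * t) (m := 1 / 2) (by norm_num) (by
    rw [re_mul_ofReal, mul_pow]
    nlinarith [sq_le_sq' (abs_le.1 l2).1 (abs_le.1 l2).2, sq_nonneg t])
  rw [show (log (1 + s) * t : ℂ).im = 0 by rw [e, ofReal_im], abs_zero] at n
  replace n : Real.log ‖jk (log (1 + s) * t)‖ = 0 := abs_nonpos_iff.1 (by linarith)
  have h2 := congrArg re (jk_cosh (log (1 + s) * t))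
  have h3 := exp_log (jk_ne (log (1 + s) * t))
  rw [log, n, ofReal_zero, zero_add] at h3
  refine ⟨_, h3.symm, ?_⟩
  rw [n] at h2
  simp only [ofReal_re, Real.cosh_zero, one_mul, add_re, mul_I_re, ofReal_im, neg_zero,
    add_zero] at h2
  rw [← h2, e, ofReal_re, mul_div_cancel_right₀ _ t0.ne', Real.exp_log p]

/-- geometric decay -/
def gd (ε : ℝ) (n : ℤ) : ℝ := Real.exp (-(ε * |(n : ℝ)|))

theorem gd_sum {ε : ℝ} (h : 0 < ε) : Summable (gd ε) := by
  have := Real.summable_exp_nat_mul_iff.2 (neg_lt_zero.2 h)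
  refine .of_nat_of_neg ?_ ?_ <;> simpa [gd, mul_comm] using this

theorem term_le {x z w : ℂ} {M c β : ℝ} {j k : ℤ} (β0 : 0 ≤ β) (c1 : 2 * β < c)
    (h1 : ‖x‖ ≤ M * gd c j) (h2 : ‖x‖ ≤ M * gd c k) (z0 : z ≠ 0) (w0 : w ≠ 0)
    (hz : |Real.log ‖z‖| ≤ β) (hw : |Real.log ‖w‖| ≤ β) :
    ‖x * w ^ k * z ^ j‖ ≤ gd (c / 2 - β) j * gd (c / 2 - β) k * M := by
  have e1 := zpow_le z0 hz j
  have e2 := zpow_le w0 hw k
  have M0 : 0 ≤ M := nonneg_of_mul_nonneg_left ((norm_nonneg _).trans h1) (Real.exp_pos _)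
  rw [norm_mul, norm_mul]
  simp only [gd] at *
  rcases le_total |(j : ℝ)| |(k : ℝ)| with h | h
  · refine (mul_le_mul (mul_le_mul h2 e2 (norm_nonneg _) (by positivity)) e1
      (norm_nonneg _) (by positivity)).trans ?_
    simp only [mul_assoc M, mul_comm _ M, ← Real.exp_add]
    refine mul_le_mul_of_nonneg_left (Real.exp_le_exp.2 ?_) M0
    nlinarith
  · refine (mul_le_mul (mul_le_mul h1 e2 (norm_nonneg _) (by positivity)) e1
      (norm_nonneg _) (by positivity)).trans ?_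
    simp only [mul_assoc M, mul_comm _ M, ← Real.exp_add]
    refine mul_le_mul_of_nonneg_left (Real.exp_le_exp.2 ?_) M0
    nlinarith

theorem dbl {f : ℝ → ℝ → ℂ} (fc : Continuous f.uncurry) (p1 : ∀ a b, f (a + 2 * π) b = f a b)
    (p2 : ∀ a b, f a (b + 2 * π) = f a b) {M c : ℝ} (c0 : 0 < c)
    (b1 : ∀ b j, ‖co (fun a => f a b) j‖ ≤ M * gd c j)
    (b2 : ∀ j k, ‖co (fun b => co (fun a => f a b) j) k‖ ≤ M * gd c k) (a b : ℝ)
    (h : Summable fun p : ℤ × ℤ => co (fun b => co (fun a => f a b) p.1) p.2 * exp (b * I) ^ p.2 *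
      exp (a * I) ^ p.1) : ∑' p : ℤ × ℤ, co (fun b => co (fun a => f a b) p.1) p.2 *
      exp (b * I) ^ p.2 * exp (a * I) ^ p.1 = f a b := by
  refine (h.hasSum.prod_fiberwise (g := fun j => co (fun a => f a b) j * exp (a * I) ^ j)
    fun j => ?_).unique (co_sum (φ := fun a => f a b)
      (fc.comp (by fun_prop : Continuous fun a => (a, b))) (fun x => p1 x b)
      (((gd_sum c0).mul_left M).of_norm_bounded (b1 b)) a)
  refine (co_sum (φ := fun b => co (fun a => f a b) j) ?_ (fun x => by simp only [p2])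
    (((gd_sum c0).mul_left M).of_norm_bounded (b2 j)) b).mul_right _
  have : Continuous (Function.uncurry fun b a : ℝ => exp (-(j * (a * I))) * f a b) :=
    (by fun_prop : Continuous fun p : ℝ × ℝ => exp (-(j * (p.2 * I)))).mul (fc.comp continuous_swap)
  exact (intervalIntegral.continuous_parametric_intervalIntegral_of_continuous'
    (μ := MeasureTheory.volume) this _ _).const_smul (1 / (2 * π) : ℝ)

theorem main {θ : ℝ} (θ0 : 0 < θ) (h1 : θ < 1) : ∃ δ > 0, ∃ C : ℝ, ∀ (F : ℝ → ℝ → ℂ) (M : ℝ),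
    (∀ q > 0, Hol (fun p => F p q) M) → (∀ p > 0, Hol (F p) M) →
    ∃ G : ℂ → ℂ, DifferentiableOn ℂ G (Rc δ θ) ∧ (∀ z ∈ Rc δ θ, ‖G z‖ ≤ C * M) ∧
      ∀ s : ℝ, |s| < δ → G s = F (1 + s) (1 - s) := by
  obtain ⟨δ, hδ⟩ : ∃ δ, δ = (1 - θ) / 2 := ⟨_, rfl⟩
  have d1 : δ ≤ 1 / 2 := by linarith
  have a1 : Real.arctan (θ / (1 - δ)) < π / 4 := by
    rw [← Real.arctan_one, Real.arctan_lt_arctan_iff, div_lt_one] <;> linarith
  obtain ⟨t, c, β, t0, t1, c1, c2, c3⟩ := exists_par a1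
  obtain ⟨ζ, z0, z1, z2⟩ := zeta θ0 h1 d1 t0 t1 c3
  have β0 := (abs_nonneg _).trans (z1 0 (by simp [Rc, θ0, hδ, h1])).2
  have c0 : 0 < c := by linarith
  have s1 := gd_sum (show 0 < c / 2 - β by linarith)
  have s2 := s1.mul_of_nonneg s1 (fun _ => (Real.exp_pos _).le) fun _ => (Real.exp_pos _).le
  refine ⟨δ, by linarith, ∑' p : ℤ × ℤ, gd (c / 2 - β) p.1 * gd (c / 2 - β) p.2,
    fun F M f1 f2 => ?_⟩
  obtain ⟨f, hf⟩ : ∃ f : ℝ → ℝ → ℂ, f = fun a b =>
    F (Real.exp (Real.cos a / t)) (Real.exp (Real.cos b / t)) := ⟨_, rfl⟩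
  have fc : Continuous f.uncurry := by
    rw [hf]
    exact continuous_iff_continuousAt.2 fun p => (cont_two f1 f2 (Real.exp_pos _) (Real.exp_pos _)).comp_of_eq (f := fun p : ℝ × ℝ =>
      (Real.exp (Real.cos p.1 / t), Real.exp (Real.cos p.2 / t))) (by fun_prop) rfl
  have b1 : ∀ b j, ‖co (fun a => f a b) j‖ ≤ M * gd c j := fun b j => by
    rw [hf]
    exact hol_decay (f1 _ (Real.exp_pos _)) c0.le t0 c2 j
  have b2 : ∀ j k, ‖co (fun b => co (fun a => f a b) j) k‖ ≤ M * gd c k := fun j k => by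
    rw [co_swap fc, hf]
    exact co_le (fun a => hol_decay (f2 _ (Real.exp_pos _)) c0.le t0 c2 k) j
  have b3 := fun (p : ℤ × ℤ) z hz => term_le β0 c1 (co_le (fun b => b1 b p.1) p.2) (b2 p.1 p.2)
    (z0 z) (z0 (-z)) (z1 z hz).2 (z1 _ (rc_neg hz)).2
  have s3 := s2.mul_right M
  refine ⟨_, differentiableOn_tsum_of_summable_norm s3 (fun p z hz => ?_)
    (rc_open _ _) b3, fun z hz => ?_, fun s hs => ?_⟩
  · exact (((((z1 _ (rc_neg hz)).1.comp z differentiableAt_id.neg).zpow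
      (.inl (z0 _))).const_mul _).mul ((z1 z hz).1.zpow (.inl (z0 _)))).differentiableWithinAt
  · rw [← tsum_mul_right]
    exact tsum_of_norm_bounded s3.hasSum fun p => b3 p z hz
  obtain ⟨a, a1, a2⟩ := z2 s hs
  obtain ⟨b, b4, b5⟩ := z2 (-s) (by rwa [abs_neg])
  have := s3.of_norm_bounded fun p => b3 p s (rc_real hs θ0)
  simp only [← ofReal_neg, a1, b4] at this ⊢
  rw [dbl fc (by simp [hf]) (by simp [hf]) c0 b1 b2 a b this, hf, sub_eq_add_neg, ← a2, ← b5]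

end Ft

/-- the flat tube theorem -/
theorem ft {θ : ℝ} (h1 : θ < 1) : ∃ δ > 0, ∃ C : ℝ, ∀ (F : ℝ → ℝ → ℂ) (M : ℝ),
    (∀ q > 0, Hol (fun p => F p q) M) → (∀ p > 0, Hol (F p) M) →
    ∃ G : ℂ → ℂ, DifferentiableOn ℂ G (Rc δ θ) ∧ (∀ z ∈ Rc δ θ, ‖G z‖ ≤ C * M) ∧
      ∀ s : ℝ, |s| < δ → G s = F (1 + s) (1 - s) := by
  obtain ⟨δ, δ0, C, h⟩ := Ft.main (θ := max θ (1 / 2)) (by positivity) (max_lt h1 (by norm_num))
  refine ⟨δ, δ0, C, fun F M f1 f2 => ?_⟩
  obtain ⟨G, g1, g2, g3⟩ := h F M f1 f2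
  have s : Rc δ θ ⊆ Rc δ (max θ (1 / 2)) := fun z hz => ⟨hz.1, hz.2.trans_le (le_max_left _ _)⟩
  exact ⟨G, g1.mono s, fun z hz => g2 z (s hz), g3⟩

end Pool.Agent.Lib.MP_7f377f_mp.S10
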