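import Pool.Agent.Lib.MP_7f377f_mp.YZ

/-! The anomalous dimensions of the fields of dimension four. -/

noncomputable section

namespace Pool.Agent.Lib.MP_7f377f_mp.YZ

open MvPolynomial Filter Topology Matrix

variable {d : ℕ}

/-- the quadratic form `c i j k l F i j F k l` -/
def quad (c : Matrix (Fin 4 × Fin 4) (Fin 4 × Fin 4) ℂ) : Lab d :=
  ∑ x, ∑ y, c x y • ∑ a, X (⟨0, ![x.1, x.2]⟩, a) * X (⟨0, ![y.1, y.2]⟩, a)

/-- on the quadratic forms of the tensors with the property `P` the renormalisation `M t` is a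
real number whose size behaves like the power `p` of `log (1 / t)` -/
def Dim (V : Subalgebra ℂ (Lab d)) (M : ℝ → V → V)
    (P : Matrix (Fin 4 × Fin 4) (Fin 4 × Fin 4) ℂ → Prop) (p : ℝ) : Prop :=
  ∃ m : ℝ → ℝ, (∀ t c (v : V), P c → v.1 = quad c → (M t v).1 = m t • v.1) ∧
    Tendsto (fun t => Real.log |m t| / Real.log (Real.log t⁻¹)) (𝓝[>] 0) (𝓝 p)

/-- totally antisymmetric tensors: the topological density -/
def Alt (c : Matrix (Fin 4 × Fin 4) (Fin 4 × Fin 4) ℂ) : Prop :=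
  ∀ i j k l, c (j, i) (k, l) = -c (i, j) (k, l) ∧
    c (i, k) (j, l) = -c (i, j) (k, l) ∧ c (i, j) (l, k) = -c (i, j) (k, l)

/-- tensors with the symmetries of the Weyl tensor -/
def Weyl (c : Matrix (Fin 4 × Fin 4) (Fin 4 × Fin 4) ℂ) : Prop :=
  cᵀ = c ∧ ∀ i k, ∑ j, c (i, j) (k, j) = 0 ∧ ∀ j l,
    c (j, i) (k, l) = -c (i, j) (k, l) ∧ c (i, j) (k, l) + c (i, k) (l, j) + c (i, l) (j, k) = 0

end Pool.Agent.Lib.MP_7f377f_mp.YZ
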