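import Pool.Agent.Lib.MP_7f377f_mp.YZ

/-! The stress tensor with its trace anomaly. -/

noncomputable section

namespace Pool.Agent.Lib.MP_7f377f_mp.YZ

open MvPolynomial Filter Topology Matrix
open scoped ContDiff

variable {d : ℕ}

/-- the stress tensor `(1 - q / 4) δ lag - FF`, whose trace is `- q lag`, is conserved and
generates the translations -/
def WardA (V : Subalgebra ℂ (Lab d)) (q : ℝ) (S : Cor d) : Prop :=
  ∀ k (c : Fin k → V) (g : Fin k → R4 → ℝ) (ξ : R4 → ℝ) (e : Fin k → ℝ) ν, Adm g →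
    (∀ i, ContDiff ℝ ∞ (g i) ∧ ∀ᶠ y in 𝓝ˢ (tsupport (g i)), ξ y = e i) → ContDiff ℝ ∞ ξ →
    HasCompactSupport ξ →
    ∑ μ, S (k + 1) (vecCons ((if μ = ν then (1 - q / 4 : ℂ) • lag else 0) - FF μ ν) fun i => c i)
      (vecCons (fun y => lineDeriv ℝ ξ y (EuclideanSpace.single μ 1)) g) =
      ∑ i, e i * S k (fun i => c i) (Function.update g i
        fun y => lineDeriv ℝ (g i) y (EuclideanSpace.single ν 1))

end Pool.Agent.Lib.MP_7f377f_mp.YZ
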