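import Mathlib

/-! Functions on the sphere which are quadratic on all great circles are quadratic forms. -/

noncomputable section

namespace Pool.Agent.Lib.MP_7f377f_mp.Ope

open Real

/-- Euclidean space -/
abbrev E4 : Type := EuclideanSpace ℝ (Fin 4)

/-- the basis vectors -/
abbrev ee (μ : Fin 4) : E4 := EuclideanSpace.single μ 1

/-- proper rotations -/
def Prp (R : E4 ≃ₗᵢ[ℝ] E4) : Prop := LinearMap.det (R.toLinearEquiv : E4 →ₗ[ℝ] E4) = 1

/-- the homogeneous extension of degree two -/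
def hq (q : E4 → ℂ) (x : E4) : ℂ := (‖x‖ ^ 2 : ℝ) * q (‖x‖⁻¹ • x)

/-- the polar form -/
def pl (q : E4 → ℂ) (x y : E4) : ℂ := (hq q (x + y) - hq q (x - y)) / 4

/-- quadratic on the great circle through `u` and `v` -/
def Cir (q : E4 → ℂ) (u v : E4) : Prop := ∃ a b c : ℂ, ∀ θ : ℝ,
  q (cos θ • u + sin θ • v) = a + b * cos (2 * θ) + c * sin (2 * θ)

/-- quadratic on all great circles -/
def Circ (q : E4 → ℂ) : Prop := ∀ u v : E4, ‖u‖ = 1 → ‖v‖ = 1 → inner ℝ u v = 0 → Cir q u v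

variable {q : E4 → ℂ}

theorem hq_one {x : E4} (h : ‖x‖ = 1) : hq q x = q x := by simp [hq, h]

theorem Cir.pla {u v : E4} (h : Cir q u v) (hu : ‖u‖ = 1) (hv : ‖v‖ = 1) (o : inner ℝ u v = 0) :
    ∃ a b c : ℂ, ∀ s t : ℝ, hq q (s • u + t • v) = a * s ^ 2 + b * (s * t) + c * t ^ 2 := by
  obtain ⟨a, b, c, h⟩ := h
  refine ⟨a + b, 2 * c, a - b, fun s t => ?_⟩
  set z : ℂ := ⟨s, t⟩
  have n2 : ‖s • u + t • v‖ ^ 2 = ‖z‖ ^ 2 := by
    rw [norm_add_sq_real, inner_smul_left, inner_smul_right, o, norm_smul, norm_smul, hu, hv,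
      Complex.sq_norm, Complex.normSq_mk]
    simp [sq]
  have n1 : ‖s • u + t • v‖ = ‖z‖ := (sq_eq_sq₀ (norm_nonneg _) (norm_nonneg _)).1 n2
  have e1 : s = ‖z‖ * cos z.arg := by rw [Complex.norm_mul_cos_arg]
  have e2 : t = ‖z‖ * sin z.arg := by rw [Complex.norm_mul_sin_arg]
  by_cases z0 : ‖z‖ = 0
  · rw [z0, zero_mul] at e1 e2
    simp [hq, e1, e2]
  · have e3 : ‖z‖⁻¹ • (s • u + t • v) = cos z.arg • u + sin z.arg • v := by
      rw [smul_add, smul_smul, smul_smul]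
      congr 2
      · rw [e1]; field_simp
      · rw [e2]; field_simp
    rw [hq, n1, e3, h, cos_two_mul', sin_two_mul]
    have e4 : ((‖z‖ : ℂ)) ^ 2 = (s : ℂ) ^ 2 + (t : ℂ) ^ 2 := by
      rw [← Complex.ofReal_pow, Complex.sq_norm, Complex.normSq_mk]
      push_cast
      ring
    have e5 : (s : ℂ) = ‖z‖ * (cos z.arg : ℝ) := by exact_mod_cast e1
    have e6 : (t : ℂ) = ‖z‖ * (sin z.arg : ℝ) := by exact_mod_cast e2
    generalize (cos z.arg) = C at *
    generalize (sin z.arg) = S at *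
    push_cast
    linear_combination a * e4 + (-b * (s + ‖z‖ * C) - 2 * c * t) * e5 +
      (b * (t + ‖z‖ * S) - 2 * c * ‖z‖ * C) * e6

theorem exists_frame (x y : E4) : ∃ (b : OrthonormalBasis (Fin 4) ℝ E4) (r s t : ℝ),
    x = r • b 0 ∧ y = s • b 0 + t • b 1 := by
  have h : Module.finrank ℝ E4 = Fintype.card (Fin 4) := by simp
  set f : Fin 4 → E4 := ![x, y, 0, 0]
  set b := InnerProductSpace.gramSchmidtOrthonormalBasis h f
  have t : ∀ i j : Fin 4, i < j → b.repr (f i) j = 0 := fun i j e =>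
    InnerProductSpace.gramSchmidtOrthonormalBasis_inv_triangular' h f e
  refine ⟨b, b.repr x 0, b.repr y 0, b.repr y 1, ?_, ?_⟩
  · have := b.sum_repr (f 0)
    rw [Fin.sum_univ_four, t 0 1 (by decide), t 0 2 (by decide), t 0 3 (by decide)] at this
    simpa [f] using this.symm
  · have := b.sum_repr (f 1)
    rw [Fin.sum_univ_four, t 1 2 (by decide), t 1 3 (by decide)] at this
    simpa [f] using this.symm

theorem Circ.pla (h : Circ q) (x y : E4) :
    ∃ a b c : ℂ, ∀ s t : ℝ, hq q (s • x + t • y) = a * s ^ 2 + b * (s * t) + c * t ^ 2 := by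
  obtain ⟨B, r, u, v, rfl, rfl⟩ := exists_frame x y
  have n := B.orthonormal.1
  have o : inner ℝ (B 0) (B 1) = 0 := B.orthonormal.2 (by decide)
  obtain ⟨a, b, c, e⟩ := (h _ _ (n 0) (n 1) o).pla (n 0) (n 1) o
  refine ⟨a * r ^ 2, 2 * a * r * u + b * r * v, a * u ^ 2 + b * u * v + c * v ^ 2, fun s t => ?_⟩
  rw [show s • r • B 0 + t • (u • B 0 + v • B 1) = (s * r + t * u) • B 0 + (t * v) • B 1 by module, e]
  push_cast
  ring

theorem Circ.par (h : Circ q) (x y : E4) :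
    hq q (x + y) + hq q (x - y) = 2 * hq q x + 2 * hq q y := by
  obtain ⟨a, b, c, e⟩ := h.pla x y
  have e1 := e 1 1
  have e2 := e 1 (-1)
  have e3 := e 1 0
  have e4 := e 0 1
  simp only [one_smul, neg_smul, zero_smul, add_zero, zero_add, ← sub_eq_add_neg] at e1 e2 e3 e4
  rw [e1, e2, e3, e4]
  push_cast
  ring

theorem Circ.smul (h : Circ q) (r : ℝ) (x y : E4) : pl q (r • x) y = r * pl q x y := by
  obtain ⟨a, b, c, e⟩ := h.pla x y
  have e1 := e 1 1
  have e2 := e 1 (-1)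
  have e3 := e r 1
  have e4 := e r (-1)
  simp only [one_smul, neg_smul, ← sub_eq_add_neg] at e1 e2 e3 e4
  rw [pl, pl, e1, e2, e3, e4]
  push_cast
  ring

theorem hq_neg (h : Circ q) (x : E4) : hq q (-x) = hq q x := by
  obtain ⟨a, b, c, e⟩ := h.pla x 0
  have e1 := e 1 0
  have e2 := e (-1) 0
  simp only [one_smul, neg_smul, zero_smul, add_zero] at e1 e2
  rw [e1, e2]
  push_cast
  ring

theorem Circ.symm (h : Circ q) (x y : E4) : pl q x y = pl q y x := by
  rw [pl, pl, add_comm, ← hq_neg h (x - y), neg_sub]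

theorem Circ.add (h : Circ q) (x z y : E4) : pl q (x + z) y = pl q x y + pl q z y := by
  have e := h.smul 2 ((1 / 2 : ℝ) • (x + z)) y
  have e1 := h.par ((1 / 2 : ℝ) • (x + z) + y) ((1 / 2 : ℝ) • (x - z))
  have e2 := h.par ((1 / 2 : ℝ) • (x + z) - y) ((1 / 2 : ℝ) • (x - z))
  rw [show (1 / 2 : ℝ) • (x + z) + y + (1 / 2 : ℝ) • (x - z) = x + y by module,
    show (1 / 2 : ℝ) • (x + z) + y - (1 / 2 : ℝ) • (x - z) = z + y by module] at e1
  rw [show (1 / 2 : ℝ) • (x + z) - y + (1 / 2 : ℝ) • (x - z) = x - y by module,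
    show (1 / 2 : ℝ) • (x + z) - y - (1 / 2 : ℝ) • (x - z) = z - y by module] at e2
  rw [show (2 : ℝ) • (1 / 2 : ℝ) • (x + z) = x + z by module] at e
  rw [e]
  simp only [pl]
  push_cast
  linear_combination (e2 - e1) / 4

theorem Circ.self (h : Circ q) (x : E4) : pl q x x = hq q x := by
  obtain ⟨a, b, c, e⟩ := h.pla x 0
  have e1 := e 1 0
  have e2 := e 2 0
  have e3 := e 0 0
  simp only [one_smul, zero_smul, add_zero, two_smul] at e1 e2 e3
  rw [pl, sub_self, e1, e2, e3]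
  push_cast
  ring

/-- the polar form as a bilinear map -/
def Circ.bil (h : Circ q) : E4 →ₗ[ℝ] E4 →ₗ[ℝ] ℂ := LinearMap.mk₂ ℝ (pl q) h.add
  (fun r x y => by rw [h.smul, Complex.real_smul])
  (fun x y z => by rw [h.symm, h.add, h.symm y, h.symm z])
  (fun r x y => by rw [h.symm, h.smul, h.symm y, Complex.real_smul])

theorem sum_ee (x : E4) : ∑ μ, x μ • ee μ = x := by
  simpa using (EuclideanSpace.basisFun (Fin 4) ℝ).sum_repr x

theorem Circ.expand (h : Circ q) (x y : E4) :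
    pl q x y = ∑ μ, ∑ ν, (x μ * y ν : ℝ) * pl q (ee μ) (ee ν) := by
  change h.bil x y = ∑ μ, ∑ ν, (x μ * y ν : ℝ) * h.bil (ee μ) (ee ν)
  conv_lhs => rw [← sum_ee x, ← sum_ee y]
  simp only [map_sum, map_smul, LinearMap.sum_apply, LinearMap.smul_apply, Finset.smul_sum,
    Complex.real_smul]
  rw [Finset.sum_comm]
  exact Finset.sum_congr rfl fun μ _ => Finset.sum_congr rfl fun ν _ => by push_cast; ring

theorem Circ.quad (h : Circ q) {n : E4} (hn : ‖n‖ = 1) :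
    q n = ∑ μ, ∑ ν, (n μ * n ν : ℝ) * pl q (ee μ) (ee ν) := by
  rw [← h.expand, h.self, hq_one hn]

theorem pl_cov {q' : E4 → ℂ} (R : E4 ≃ₗᵢ[ℝ] E4) (h : ∀ n, ‖n‖ = 1 → q' (R n) = q n) (x y : E4) :
    pl q' (R x) (R y) = pl q x y := by
  have e : ∀ z, hq q' (R z) = hq q z := fun z => by
    by_cases z0 : z = 0
    · simp [hq, z0]
    · rw [hq, hq, R.norm_map, ← map_smul, h _ (by simp [norm_smul, z0])]
  rw [pl, pl, ← map_add, ← map_sub, e, e]

theorem pl_congr {q' : E4 → ℂ} (h : ∀ n, ‖n‖ = 1 → q' n = q n) (x y : E4) : pl q' x y = pl q x y :=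
  pl_cov (LinearIsometryEquiv.refl ℝ E4) h x y

/-- reflection of the last axis -/
def fl3 : E4 ≃ₗᵢ[ℝ] E4 := (ℝ ∙ ee 3)ᗮ.reflection

theorem exists_rot {u v : E4} (hu : ‖u‖ = 1) (hv : ‖v‖ = 1) (o : inner ℝ u v = 0) :
    ∃ R : E4 ≃ₗᵢ[ℝ] E4, Prp R ∧ R (ee 0) = u ∧ R (ee 1) = v := by
  have on : Orthonormal ℝ (({0, 1} : Set (Fin 4)).domRestrict ![u, v, 0, 0]) := by
    refine ⟨fun ⟨i, hi⟩ => ?_, fun ⟨i, hi⟩ ⟨j, hj⟩ e => ?_⟩
    · rcases hi with rfl | rfl <;> simpa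
    · rcases hi with rfl | rfl <;> rcases hj with rfl | rfl
      exacts [absurd rfl e, o, (real_inner_comm _ _).trans o, absurd rfl e]
  obtain ⟨b, hb⟩ := on.exists_orthonormalBasis_extension_of_card_eq (by simp)
  set R := (EuclideanSpace.basisFun (Fin 4) ℝ).equiv b (Equiv.refl _)
  have r : ∀ i, R (ee i) = b i := fun i => by
    simpa using (EuclideanSpace.basisFun (Fin 4) ℝ).equiv_apply_basis b (Equiv.refl _) i
  have r0 : R (ee 0) = u := by rw [r, hb 0 (by simp)]; rfl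
  have r1 : R (ee 1) = v := by rw [r, hb 1 (by simp)]; rfl
  have f : ∀ i : Fin 4, i ≠ 3 → fl3 (ee i) = ee i := fun i hi =>
    Submodule.reflection_mem_subspace_eq_self (by
      rw [Submodule.mem_orthogonal_singleton_iff_inner_right]
      simp [EuclideanSpace.inner_single_left, hi.symm])
  have d : LinearMap.det (R.toLinearEquiv : E4 →ₗ[ℝ] E4) = 1 ∨
      LinearMap.det (R.toLinearEquiv : E4 →ₗ[ℝ] E4) = -1 := by
    have := (EuclideanSpace.basisFun (Fin 4) ℝ).det_to_matrix_orthonormalBasis_real b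
    rwa [show ⇑b = (R.toLinearEquiv : E4 →ₗ[ℝ] E4) ∘ (EuclideanSpace.basisFun (Fin 4) ℝ).toBasis from
      funext fun i => by simpa using (r i).symm, Module.Basis.det_comp, Module.Basis.det_self,
      mul_one] at this
  have d3 : LinearMap.det (fl3.toLinearEquiv : E4 →ₗ[ℝ] E4) = -1 := by
    have := Submodule.det_reflection (ℝ ∙ ee 3)ᗮ
    rw [Submodule.orthogonal_orthogonal, finrank_span_singleton (by simp)] at this
    simpa [fl3] using this
  rcases d with e | e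
  · exact ⟨R, e, r0, r1⟩
  · refine ⟨fl3.trans R, ?_, by simp [f, r0], by simp [f, r1]⟩
    change LinearMap.det ((R.toLinearEquiv : E4 →ₗ[ℝ] E4) ∘ₗ (fl3.toLinearEquiv : E4 →ₗ[ℝ] E4)) = 1
    rw [LinearMap.det_comp, d3, e]
    norm_num

end Pool.Agent.Lib.MP_7f377f_mp.Ope
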