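import Pool.Agent.Lib.MP_7f377f_mp.Q4PtZ

/-! A sharper pointwise bound and second differences of the curvature of the background field. -/

namespace Pool.Agent.Lib.MP_7f377f_mp.Lin

noncomputable section

open Finset hiding box
open Classical Function RG RG.La
open scoped InnerProductSpace Pointwise

variable {l R n k s : ℕ} {m : BF} {φ ψ : (Fin 4 → ℝ) → ℝ} {δ M C cL cU : ℝ} {sol : F1 →ₗ[ℝ] F1}

/-- the number of averaging segments through a site -/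
def Nn (l : ℕ) (ρ : Fin 4) (w : St) : ℝ :=
  ∑ i ∈ range (LL l), if w - (i : ℤ) • un ρ ∈ box l then 1 else 0

lemma QT_dl (ρ : Fin 4) (z y : St) :
    QT l {ρ} (dl z) y = ((LL l : ℝ) ^ 4)⁻¹ * Nn l ρ (z - up l y) := by
  have h := congrFun (avgA_QT l fun _ => dl z) (y, ρ)
  rw [Li.avgA_apply, sum_comm] at h
  refine h.symm.trans (congrArg _ (sum_congr rfl fun i _ => ?_))
  rw [← sum_ite_eq' (box l) (z - up l y - (i : ℤ) • un ρ) fun _ => (1 : ℝ)]
  refine sum_congr rfl fun t _ => ?_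
  simp only [toV, dl_ap]
  refine if_congr ⟨fun h => ?_, fun h => ?_⟩ rfl rfl
  · rw [← h]; abel
  · rw [h]; abel

lemma Nn_bd (ρ : Fin 4) (w : St) : 0 ≤ Nn l ρ w ∧ Nn l ρ w ≤ LL l :=
  ⟨sum_nonneg fun _ _ => by split_ifs <;> norm_num, (sum_le_card_nsmul _ _ 1 fun _ _ => by
    split_ifs <;> norm_num).trans_eq (by simp)⟩

lemma Nn_zero (ρ : Fin 4) {w : St} (hw : w ∉ box (3 * l)) : Nn l ρ w = 0 :=
  sum_eq_zero fun i hi => if_neg fun h => hw (by
    have := RG.add_mem_box h (Li.smul_un_mem (show i ≤ 2 * l by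
      have := mem_range.1 hi; unfold LL at this; omega) ρ)
    rw [sub_add_cancel] at this
    exact RG.box_mono (by omega) this)

lemma Nn_same (ρ : Fin 4) (w : St) : |Nn l ρ (w + un ρ) - Nn l ρ w| ≤ 1 := by
  obtain ⟨g, hg⟩ : ∃ g : ℕ → ℝ, g = fun i : ℕ =>
    if w + un ρ - (i : ℤ) • un ρ ∈ box l then 1 else 0 := ⟨_, rfl⟩
  have e : Nn l ρ (w + un ρ) - Nn l ρ w = g 0 - g (LL l) := by
    rw [← sum_range_sub', sum_sub_distrib, hg, Nn, Nn]
    congr 1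
    refine sum_congr rfl fun i _ => ?_
    dsimp only
    rw [show w + un ρ - ((i + 1 : ℕ) : ℤ) • un ρ = w - (i : ℤ) • un ρ by
      push_cast; rw [add_smul, one_smul]; abel]
  rw [e, hg]
  dsimp only
  split_ifs <;> norm_num

lemma Nn_oth {μ ρ : Fin 4} (h : μ ≠ ρ) {w : St} (h1 : w μ ≠ l) (h2 : w μ ≠ -l - 1) :
    Nn l ρ (w + un μ) = Nn l ρ w := by
  refine sum_congr rfl fun i _ => if_congr ?_ rfl rfl
  simp only [RG.mem_box]
  refine forall_congr' fun ν => ?_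
  by_cases hν : ν = μ
  · subst hν
    simp only [un, Pi.sub_apply, Pi.add_apply, Pi.smul_apply, Pi.single_eq_same,
      Pi.single_eq_of_ne h, smul_zero, sub_zero]
    omega
  · simp only [un, Pi.sub_apply, Pi.add_apply, Pi.single_eq_of_ne hν, add_zero]

lemma src_ap (ρ : Fin 4) (J : E 4) {z : St} (hz : z ∈ box (2 * l + 1)) :
    star (QT l {ρ}) J z = ∑ y ∈ box 2, ((LL l : ℝ) ^ 4)⁻¹ * Nn l ρ (z - up l y) * J y := by
  rw [← inner_dl, inner_star', (hsi _ _).unique (hasSum_sum_of_ne_finset_zero (s := box 2)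
    fun y hy => ?_)]
  · exact sum_congr rfl fun y _ => by rw [QT_dl]
  rw [QT_dl, Nn_zero, mul_zero, zero_mul]
  refine fun h => hy (yo_up l y ▸ yo_mem_box ?_)
  rw [show up l y = z - (z - up l y) by abel]
  exact RG.box_mono (by simp only [LL]; omega) (sub_mem_box hz h)

lemma src_pt (μ ρ : Fin 4) {J : E 4} {a : ℝ} (hJ : ∀ y ∈ box 2, |J y| ≤ a) {z : St}
    (hz : z ∈ box (2 * l)) : |Dm μ (star (QT l {ρ}) J) z| ≤
      625 * a / LL l ^ 4 * if z μ = l ∨ z μ = -l - 1 then (LL l : ℝ) else 1 := by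
  have hL := LL_posR l
  have hL1 : (1 : ℝ) ≤ LL l := NN_one l
  have a0 : 0 ≤ a := (abs_nonneg _).trans (hJ 0 (zero_mem_box 2))
  rw [Dm_ap, show (Pi.single μ 1 : St) = un μ from rfl, src_ap ρ J (add_un_mem_box hz μ), src_ap ρ J (RG.box_mono (by omega) hz),
    ← sum_sub_distrib]
  refine (abs_sum_le_sum_abs _ _).trans ((sum_le_card_nsmul _ _ (((LL l : ℝ) ^ 4)⁻¹ *
    (if z μ = l ∨ z μ = -l - 1 then (LL l : ℝ) else 1) * a) fun y hy => ?_).trans_eq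
    (by rw [Li.card_box, nsmul_eq_mul]; push_cast; ring))
  rw [← sub_mul, ← mul_sub, abs_mul, abs_mul, abs_of_pos (by positivity), add_sub_right_comm]
  refine mul_le_mul (mul_le_mul_of_nonneg_left ?_ (by positivity)) (hJ y hy) (abs_nonneg _)
    (by split_ifs <;> positivity)
  change |Nn l ρ (_ + un μ) - _| ≤ _
  split_ifs with hf
  · have h1 := Nn_bd (l := l) ρ (z - up l y + un μ)
    have h2 := Nn_bd (l := l) ρ (z - up l y)
    exact abs_le.2 ⟨by linarith [h1.1, h2.2], by linarith [h1.2, h2.1]⟩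
  by_cases h : μ = ρ
  · exact h ▸ Nn_same μ _
  have h3 := RG.mem_box.1 hz μ
  have k : ∀ j : ℤ, z μ ≠ (2 * l + 1) * j + l := fun j hj => by
    have l0 : (0 : ℤ) ≤ l := l.cast_nonneg
    push_cast at h3
    rcases lt_trichotomy j 0 with h4 | h4 | h4
    · rcases (show j = -1 ∨ j ≤ -2 by omega) with h5 | h5
      · exact hf (.inr (by rw [hj, h5]; ring))
      · nlinarith [h3.1]
    · exact hf (.inl (by rw [hj, h4]; ring))
    · nlinarith [h3.2]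
  rw [Nn_oth h (fun h4 => k (y μ) ?_) fun h4 => k (y μ - 1) ?_, sub_self, abs_zero]
  · exact zero_le_one
  all_goals
    simp only [up, LL, Pi.sub_apply, Pi.smul_apply, smul_eq_mul] at h4
    push_cast at h4
    linarith

lemma card_face (W : ℕ) (μ : Fin 4) (a b : ℤ) :
    ((box W).filter fun w => w μ = a ∨ w μ = b).card ≤ 2 * (2 * W + 1) ^ 3 := by
  refine (card_le_card (t := Fintype.piFinset fun ν => if ν = μ then {a, b} else
    Icc (-(W : ℤ)) W) fun w hw => ?_).trans ?_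
  · obtain ⟨h1, h2⟩ := mem_filter.1 hw
    refine Fintype.mem_piFinset.2 fun ν => ?_
    split_ifs with h
    · subst h; simpa using h2
    · exact mem_Icc.2 (RG.mem_box.1 h1 ν)
  rw [Fintype.card_piFinset, ← mul_prod_erase _ _ (mem_univ μ), if_pos rfl]
  refine Nat.mul_le_mul card_le_two ((prod_le_pow_card _ _ (2 * W + 1) fun ν hν => ?_).trans_eq ?_)
  · rw [if_neg (ne_of_mem_erase hν), Int.card_Icc]; omega
  · rw [card_erase_of_mem (mem_univ _)]; simp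

lemma src_sum (μ ρ : Fin 4) {J : E 4} {a : ℝ} (hJ : ∀ y ∈ box 2, |J y| ≤ a) {x : St}
    (hx : x ∈ box l) {W : ℕ} (hW : W ≤ l) : ∑ w ∈ box W, Dm μ (star (QT l {ρ}) J) (w + x) ^ 2 ≤
      3 * (625 * a) ^ 2 * ((2 * W + 1) ^ 3 / LL l ^ 6) := by
  have hL := LL_posR l
  have hL1 : (1 : ℝ) ≤ LL l := NN_one l
  have h1 : ∀ w ∈ box W, Dm μ (star (QT l {ρ}) J) (w + x) ^ 2 ≤ (625 * a / LL l ^ 4) ^ 2 *
      (1 + if w μ = l - x μ ∨ w μ = -l - 1 - x μ then (LL l : ℝ) ^ 2 else 0) := fun w hw => by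
    have := src_pt (l := l) μ ρ hJ (RG.box_mono (by omega) (RG.add_mem_box hw hx))
    rw [← sq_abs]
    refine (pow_le_pow_left₀ (abs_nonneg _) this 2).trans ?_
    rw [mul_pow]
    refine mul_le_mul_of_nonneg_left ?_ (sq_nonneg _)
    simp only [Pi.add_apply, eq_sub_iff_add_eq (c := x μ)]
    split_ifs <;> simp
  refine (sum_le_sum h1).trans ?_
  rw [← mul_sum, sum_add_distrib, ← sum_filter, sum_const, sum_const, Li.card_box, nsmul_eq_mul,
    nsmul_eq_mul]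
  have h2 : (((box W).filter fun w => w μ = l - x μ ∨ w μ = -l - 1 - x μ).card : ℝ) ≤
      2 * (2 * W + 1) ^ 3 := by exact_mod_cast card_face W μ _ _
  have h3 : (2 * W + 1 : ℝ) ≤ LL l ^ 2 := le_trans (by
    have : 2 * W + 1 ≤ LL l := by unfold LL; omega
    exact_mod_cast this) (le_self_pow₀ hL1 two_ne_zero)
  calc _ ≤ (625 * a / LL l ^ 4) ^ 2 * ((2 * W + 1) ^ 3 * LL l ^ 2 +
        2 * (2 * W + 1) ^ 3 * LL l ^ 2) := by
        refine mul_le_mul_of_nonneg_left (add_le_add ?_ (by gcongr)) (sq_nonneg _)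
        push_cast
        rw [mul_one, pow_succ]
        gcongr
    _ = _ := by field_simp; ring

lemma wcmp (hφ : Adm δ φ) (hψ : Adm δ ψ) (h0 : ∀ z, ψ z ≤ 0) {S c : ℝ} (c0 : 0 ≤ c) (x : St)
    (T : Finset St) (h : ∀ z ∉ T, Real.exp (2 * ψ (sc S z)) ≤ c * Real.exp (2 * φ (sc M (z + x))))
    (f : E 4) : nrm ψ S (sh x f) ^ 2 ≤ ∑ z ∈ T, f (z + x) ^ 2 + c * nrm φ M f ^ 2 := by
  have h1 := ((Equiv.addRight x).hasSum_iff.2 (hasSum_nrm (M := M) hφ f)).mul_left c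
  have h2 : HasSum (fun z => if z ∈ T then f (z + x) ^ 2 else 0) (∑ z ∈ T, f (z + x) ^ 2) := by
    rw [← sum_ite_of_true (s := T) (p := (· ∈ T)) (fun _ h => h) _ fun _ => (0 : ℝ)]
    exact hasSum_sum_of_ne_finset_zero fun z hz => if_neg hz
  refine hasSum_le (fun z => ?_) (hasSum_nrm hψ _) (h2.add h1)
  simp only [comp_apply, Equiv.coe_addRight, sh_apply]
  split_ifs with hz
  · refine le_add_of_le_of_nonneg (mul_le_of_le_one_left (sq_nonneg _)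
      (Real.exp_le_one_iff.2 (by linarith [h0 (sc S z)]))) (by positivity)
  · rw [zero_add, ← mul_assoc]
    exact mul_le_mul_of_nonneg_right (h z hz) (sq_nonneg _)

lemma norm_scM (hM : 0 < M) (z : St) : ‖sc M z‖ = ‖sc 1 z‖ / M := by
  rw [show sc M z = M⁻¹ • sc 1 z from funext fun _ => by simp [sc, div_eq_inv_mul], norm_smul,
    Real.norm_eq_abs, abs_of_pos (inv_pos.2 hM), div_eq_inv_mul]

lemma rad_cmp (hs : s ≤ l) {x : St} (hx : x ∈ box l) (z : St) :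
    Real.exp (2 * rad (2 * k) (sc (LL s) z)) ≤ 9 * Real.exp (2 * rad k (sc (LL l) (z + x))) ∧
    (z ∉ box (2 * k * LL s) → Real.exp (2 * rad (2 * k) (sc (LL s) z)) ≤
      9 * Real.exp (-de * k) ^ 2 * Real.exp (2 * rad k (sc (LL l) (z + x)))) := by
  have hL := LL_posR l
  have hS := LL_posR s
  have d0 := de_pos
  have k0 : (0 : ℝ) ≤ k := k.cast_nonneg
  have h1 : ‖sc (LL l) (z + x)‖ ≤ ‖sc (LL s) z‖ + 1 := by
    have h2 : (LL s : ℝ) ≤ LL l := by exact_mod_cast (by unfold LL; omega : LL s ≤ LL l)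
    have h3 : (l : ℝ) ≤ LL l := by exact_mod_cast (by unfold LL; omega : l ≤ LL l)
    rw [show sc (LL l) (z + x) = sc (LL l) z + sc (LL l) x from funext fun _ => by
      simp [sc, add_div]]
    refine (norm_add_le _ _).trans (add_le_add ?_ ?_)
    · rw [norm_scM hL, norm_scM hS]; gcongr
    · rw [norm_scM hL, div_le_one hL]; exact (mem_box_sc.1 hx).trans h3
  have e9 : Real.exp 1 ^ 2 ≤ 9 := (pow_le_pow_left₀ (Real.exp_pos _).le (exp_le_three le_rfl) 2).trans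
    (by norm_num)
  refine ⟨le_trans ?_ (mul_le_mul_of_nonneg_right e9 (Real.exp_pos _).le), fun hz => le_trans ?_
    (mul_le_mul_of_nonneg_right (mul_le_mul_of_nonneg_right e9 (sq_nonneg _)) (Real.exp_pos _).le)⟩
  · rw [← Real.exp_nat_mul, ← Real.exp_add, Real.exp_le_exp, rad, rad]
    have : min ‖sc (LL l) (z + x)‖ k ≤ min ‖sc (LL s) z‖ (2 * k) + 1 := by
      rcases min_cases ‖sc (LL s : ℝ) z‖ (2 * k) with h | h <;> rw [h.1]
      · exact (min_le_left _ _).trans h1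
      · exact (min_le_right _ _).trans (by linarith)
    push_cast
    nlinarith [de_one]
  · rw [← Real.exp_nat_mul, ← Real.exp_nat_mul, ← Real.exp_add, ← Real.exp_add, Real.exp_le_exp,
      rad, rad, min_eq_right (a := ‖sc (LL s : ℝ) z‖)]
    · push_cast
      nlinarith [min_le_right ‖sc (LL l) (z + x)‖ (k : ℝ)]
    · rw [norm_scM hS, le_div_iff₀ hS]
      exact_mod_cast (not_le.1 (mem_box_sc.not.1 hz)).le

lemma nrm_loc (hs : s ≤ l) {x : St} (hx : x ∈ box l) (f : E 4) :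
    nrm (rad (2 * k)) (LL s) (sh x f) ^ 2 ≤ 9 * nrm (rad k) (LL l) f ^ 2 ∧
    nrm (rad (2 * k)) (LL s) (sh x f) ^ 2 ≤ ∑ z ∈ box (2 * k * LL s), f (z + x) ^ 2 +
      9 * Real.exp (-de * k) ^ 2 * nrm (rad k) (LL l) f ^ 2 := by
  have k0 : (0 : ℝ) ≤ k := k.cast_nonneg
  have k2 : (0 : ℝ) ≤ 2 * k := by positivity
  have h0 : ∀ z, rad (2 * k) z ≤ 0 := fun z => by
    rw [rad, neg_mul, neg_nonpos]
    exact mul_nonneg de_pos.le (le_min (norm_nonneg _) k2)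
  exact ⟨by simpa using wcmp (adm_rad k0) (adm_rad k2) h0 (by norm_num) x ∅ (fun z _ =>
    (rad_cmp hs hx z).1) f, wcmp (adm_rad k0) (adm_rad k2) h0 (by positivity) x _ (fun z hz =>
    (rad_cmp hs hx z).2 hz) f⟩

lemma Dm_sh (μ : Fin 4) (x : St) (f : E 4) : Dm μ (sh x f) = sh x (Dm μ f) :=
  eext fun z => by simp only [Dm_ap, sh_apply, add_right_comm]

lemma srcD (hl : 1 ≤ l) (hφ : Adm 1 φ) (J : F1) (μ : Fin 4) :
    s1 φ (LL l) (fun ρ => Dm μ (star (QT l {ρ}) (J ρ))) ≤ KK ^ 2 / LL l ^ 3 * s1 φ 1 J := by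
  have hL := LL_posR l
  have := s1_op (fun ρ => ((gd_QD ρ μ (p := -t (-1)) (by
    rw [dr_neg]; exact (gd_tl μ (by simpa using hl)).neg)).mono (C' := KK * √(LL l) / LL l ^ 2) (by
    rw [sd_four, mul_div_assoc, show (NN l : ℝ) = LL l from rfl]
    gcongr; norm_num [KK])).star.bd) hφ J
  rw [show D * -t (-1) = bar D by rw [bar_D]; ring, ← star_dr] at this
  simp only [star_mul, star_star] at this
  refine this.trans_eq (congrArg (· * _) ?_)
  rw [div_pow, mul_pow, Real.sq_sqrt hL.le]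
  field_simp

/-- second differences of the curvature at an intermediate scale -/
lemma Ctx.loc2 (h : Ctx l R n cL cU m sol) {X : F1} {η lam : ℝ} (hX : s1 (rad k) 1 X ≤ η ^ 2)
    (hR : R ≤ s) (s0 : 1 ≤ s) (hs : s ≤ l) (hW : 2 * k * LL s ≤ l)
    (h1 : (2 * (2 * k * LL s : ℕ) + 1 : ℝ) ^ 3 / LL l ^ 6 ≤ lam ^ 2) (h2 : 1 ≤ lam * (LL l * LL s))
    (h3 : Real.exp (-de * k) ≤ lam * LL l) {x : St} (hx : x ∈ box l) (κ : Fin 4) :
    s2 (rad (2 * k)) (LL s) (fun ρ => Dm κ (sh x (Dm κ (sol X ρ)))) ≤ (GG ^ 5 * η * lam) ^ 2 := by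
  have hL := LL_posR l
  have hS := LL_posR s
  have hL1 : (1 : ℝ) ≤ LL l := NN_one l
  obtain ⟨hG, hG2, hG3, hG4⟩ := GG_ge
  have hK := KK_one
  have ad := adm_rad (k.cast_nonneg : (0 : ℝ) ≤ k)
  obtain ⟨J, hJ⟩ : ∃ J : F1, J = (LL l : ℝ) ^ 2 • (X - QQ l (sol X)) := ⟨_, rfl⟩
  have hj := (agmon h.hm h.hc h.hU h.hR h.hl (h.we X) (h.gd X) ad).2.2
  rw [← hJ] at hj
  replace hj : s1 (rad k) 1 J ≤ 4 * GG ^ 2 * η ^ 2 := hj.trans (by gcongr)
  have we : ∀ Φ, MM R m (sol X) Φ = ∑ ρ, ⟪star (QT l {ρ}) (J ρ), Φ ρ⟫_ℝ := fun Φ => by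
    simp only [(h.we X).eq hJ, inner_star, QQ]
  have we2 : ∀ Φ, MM R m (fun ρ => sh x (Dm κ (sol X ρ))) Φ =
      ∑ ρ, ⟪sh x (Dm κ (star (QT l {ρ}) (J ρ))), Φ ρ⟫_ℝ := fun Φ => by
    rw [MM_sh x fun ρ => Dm κ (sol X ρ), MM_Dm we]
    simp only [← star_sh, inner_star']
  have a1 := cacc h.hm h.hc h.hU hR s0 (adm_rad (K := 2 * k) (by positivity)) we2 κ
  have a2 : ∀ ρ, ∀ y ∈ box 2, |J ρ y| ≤ 6 * GG * |η| := fun ρ y hy => by
    have b1 := ad.pt 1 (J ρ) y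
    have b2 : nrm (rad k) 1 (J ρ) ≤ 2 * GG * |η| := abs_le_of_sq_le_sq' (((single_le_sum
      (f := fun ρ => nrm (rad k) 1 (J ρ) ^ 2) (fun _ _ => sq_nonneg _) (mem_univ ρ)).trans hj).trans_eq
      (by rw [mul_pow, mul_pow, sq_abs]; ring)) (by positivity) |>.2
    have b3 : 1 ≤ 3 * Real.exp (rad k (sc 1 y)) := by
      rw [rad, neg_mul, Real.exp_neg, ← div_eq_mul_inv, one_le_div (Real.exp_pos _)]
      refine exp_le_three ?_
      have := (min_le_left _ (k : ℝ)).trans (mem_box_sc.1 hy)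
      push_cast at this
      nlinarith [de_le, de_pos]
    nlinarith [abs_nonneg (J ρ y)]
  have a3 : s1 (rad (2 * k)) (LL s) (fun ρ => sh x (Dm κ (star (QT l {ρ}) (J ρ)))) ≤
      GG ^ 3 * (η * lam) ^ 2 := by
    refine (sum_le_sum fun ρ _ => (nrm_loc hs hx _).2.trans
      (add_le_add (src_sum κ ρ (a2 ρ) hx hW) le_rfl)).trans ?_
    rw [sum_add_distrib, sum_const, ← mul_sum, card_univ, Fintype.card_fin, nsmul_eq_mul]
    have b1 := (srcD h.hl (ad.mono de_one) J κ).trans (mul_le_mul_of_nonneg_left hj (by positivity))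
    have b2 : Real.exp (-de * k) ^ 2 / LL l ^ 3 ≤ lam ^ 2 := by
      rw [div_le_iff₀ (by positivity)]
      refine (pow_le_pow_left₀ (Real.exp_pos _).le h3 2).trans ?_
      rw [mul_pow]
      gcongr
      norm_num
    calc _ ≤ (4 : ℕ) * (3 * (625 * (6 * GG * |η|)) ^ 2 * lam ^ 2) +
          9 * Real.exp (-de * k) ^ 2 * (KK ^ 2 / LL l ^ 3 * (4 * GG ^ 2 * η ^ 2)) :=
          add_le_add (mul_le_mul_of_nonneg_left (mul_le_mul_of_nonneg_left h1 (by positivity))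
            (by positivity)) (mul_le_mul_of_nonneg_left b1 (by positivity))
      _ = 168750000 * GG ^ 2 * (η * lam) ^ 2 +
          36 * KK ^ 2 * GG ^ 2 * η ^ 2 * (Real.exp (-de * k) ^ 2 / LL l ^ 3) := by
          simp only [mul_pow, sq_abs]; push_cast; ring
      _ ≤ 168750000 * GG ^ 2 * (η * lam) ^ 2 + 36 * KK ^ 2 * GG ^ 2 * η ^ 2 * lam ^ 2 := by gcongr
      _ = (168750000 + 36 * KK ^ 2) * (GG ^ 2 * (η * lam) ^ 2) := by ring
      _ ≤ GG * (GG ^ 2 * (η * lam) ^ 2) := by gcongr; nlinarith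
      _ = _ := by ring
  have a4 : s2 (rad (2 * k)) (LL s) (fun ρ => sh x (Dm κ (sol X ρ))) / LL s ^ 2 ≤
      9 * GG ^ 6 * (η * lam) ^ 2 := by
    have b1 : s2 (rad (2 * k)) (LL s) (fun ρ => sh x (Dm κ (sol X ρ))) ≤
        9 * s2 (rad k) (LL l) fun ρ => Dm κ (sol X ρ) := by
      simp only [s2, mul_sum, d1, Dm_sh, ← map_sub]
      exact sum_le_sum fun _ _ => sum_le_sum fun _ _ => (nrm_loc hs hx _).1
    have b2 := (agmon2 h.hm h.hc h.hU h.hR h.hl (h.we X) (h.gd X) ad κ κ).1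
    have b3 : 1 / (LL l * LL s : ℝ) ^ 2 ≤ lam ^ 2 := by
      rw [div_le_iff₀ (by positivity), ← mul_pow]; exact one_le_pow₀ h2
    calc _ ≤ 9 * (GG ^ 6 * (η ^ 2 / LL l ^ 2)) / LL s ^ 2 := by
          gcongr; exact b1.trans (by gcongr; exact b2.trans (by gcongr))
      _ = 9 * GG ^ 6 * η ^ 2 * (1 / (LL l * LL s : ℝ) ^ 2) := by field_simp
      _ ≤ 9 * GG ^ 6 * η ^ 2 * lam ^ 2 := by gcongr
      _ = _ := by ring
  refine a1.trans ?_
  calc _ ≤ 32 * GG ^ 2 * (GG ^ 6 * (η * lam) ^ 2 + 9 * GG ^ 6 * (η * lam) ^ 2) := by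
        gcongr; exact a3.trans (by gcongr; norm_num)
    _ = 320 * (GG ^ 8 * (η * lam) ^ 2) := by ring
    _ ≤ GG ^ 2 * (GG ^ 8 * (η * lam) ^ 2) := by gcongr; nlinarith
    _ = _ := by ring

lemma M3_eq1 (s : ℕ) :
    M3 s = 1 + (3 : ℝ)⁻¹ • (t (-(s : ℤ)) * Lin.R s * (t (s : ℤ) - 1) * D) := by
  rw [M3_eq, ← R_D]
  congr 2
  ring

lemma KA_step1 {K : ℝ} (hK : 0 ≤ K) {s : ℕ} (hs : s ≤ l) (f : E 4) {x : St} (hx : x ∈ box l)
    {e : ℝ} (he : ∀ μ, nrm (rad K) (LL l) (Dm μ f) ≤ e) :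
    |KA s f x| ≤ |KA (3 * s + 1) f x| + 2 ^ 25 * (e / LL s) := by
  have hφ := (adm_rad hK).mono de_one
  have h0 := LL_posR s
  have hN : LL s ≤ LL l := by unfold LL; omega
  obtain ⟨T, hT⟩ : ∃ T : Fin 4 → Op 4, T = fun μ =>
    dr μ ((3 : ℝ)⁻¹ • (t (-(LL s : ℤ)) * Lin.R (LL s) * (t (LL s : ℤ) - 1))) := ⟨_, rfl⟩
  obtain ⟨Q, hQ⟩ : ∃ Q : Fin 4 → Op 4, Q = fun μ => dr μ (M3 (LL s)) := ⟨_, rfl⟩
  have gQ : ∀ μ g, nrm (rad K) (LL l) (Q μ g) ≤ 3 * nrm (rad K) (LL l) g := fun μ =>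
    hQ ▸ (gd_M3 hN μ).bd _ hφ
  have gT : ∀ μ, nrm (rad K) (LL l) (T μ (Dm μ f)) ≤ 107 * LL s * e := fun μ => by
    rw [hT]
    simp only [dr_smul, dr_mul, dr_sub, dr_one]
    refine (((((gd_t (LL_posR l) μ _ (by simpa using hN)).mul (gd_Rk hN μ)).mul
      ((gd_t (LL_posR l) μ _ (by simpa using hN)).sub gd_one)).smul _).bd _ hφ _).trans
      (mul_le_mul ?_ (he μ) (nrm_nonneg _) (by positivity))
    rw [abs_of_pos (by norm_num)]
    nlinarith
  have eQ : ∀ μ, Q μ f = f + T μ (Dm μ f) := fun μ => by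
    simp only [hQ, hT, M3_eq1, dr_add, dr_smul, dr_mul, dr_one, Dm]
    rfl
  have e1 : KA (3 * s + 1) f = KA s (Q 0 (Q 1 (Q 2 (Q 3 f)))) := by
    simp only [KA, Sc_three, map_mul, prod_mul_distrib, hQ, Fin.prod_univ_four (fun μ =>
      emb μ (M3 _)), dr]
    rfl
  have e2 : f = Q 0 (Q 1 (Q 2 (Q 3 f))) - (Q 0 (Q 1 (Q 2 (T 3 (Dm 3 f)))) +
      Q 0 (Q 1 (T 2 (Dm 2 f))) + Q 0 (T 1 (Dm 1 f)) + T 0 (Dm 0 f)) := by
    rw [eQ 3, map_add, map_add, map_add, eQ 2, map_add, map_add, eQ 1, map_add, eQ 0]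
    abel
  have b3 := (gQ 0 _).trans (mul_le_mul_of_nonneg_left ((gQ 1 _).trans (mul_le_mul_of_nonneg_left
    ((gQ 2 _).trans (mul_le_mul_of_nonneg_left (gT 3) zero_le_three)) zero_le_three)) zero_le_three)
  have b2 := (gQ 0 _).trans (mul_le_mul_of_nonneg_left ((gQ 1 _).trans
    (mul_le_mul_of_nonneg_left (gT 2) zero_le_three)) zero_le_three)
  have b1 := (gQ 0 _).trans (mul_le_mul_of_nonneg_left (gT 1) zero_le_three)
  have b := (nrm_add _ _).trans (add_le_add ((nrm_add _ _).trans (add_le_add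
    ((nrm_add _ _).trans (add_le_add b3 b2)) b1)) (gT 0))
  have e0 := (nrm_nonneg _).trans (he 0)
  nth_rewrite 1 [e2]
  rw [map_sub, ← e1, lp.coeFn_sub, Pi.sub_apply]
  refine (abs_sub _ _).trans (add_le_add le_rfl ((KA_le hK hs _ hx).trans
    ((mul_le_mul_of_nonneg_left b (by positivity)).trans ?_)))
  calc _ = 346680 * (e / LL s) := by field_simp; ring
    _ ≤ _ := by gcongr; norm_num

lemma chain3 {a : ℕ → ℝ} {b e : ℝ} (e0 : 0 ≤ e) (h1 : ∀ s ≤ l, a s ≤ a (3 * s + 1) + e)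
    (h2 : ∀ s ≤ l, LL l ≤ 3 * LL s → a s ≤ b) {j : ℕ} (hj : LL l < 3 ^ j) : a 0 ≤ b + j * e := by
  have key : ∀ j s : ℕ, s ≤ l → LL l < 3 ^ j * LL s → a s ≤ b + j * e := fun j => by
    induction j with
    | zero => exact fun s h1 h2 => absurd h2 (by unfold LL; omega)
    | succ j ih =>
      intro s h3 h4
      by_cases h : 3 * s + 1 ≤ l
      · have := ih _ h (h4.trans_eq (by unfold LL; ring))
        push_cast
        linarith [h1 s h3]
      · exact le_add_of_le_of_nonneg (h2 s h3 (by unfold LL; omega)) (by positivity)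
  exact key j 0 l.zero_le (by simpa [LL] using hj)

/-- the sharper pointwise bound -/
lemma Ctx.pt9 (h : Ctx l R n cL cU m sol) {X : F1} {η lam : ℝ} (hX : s1 (rad k) 1 X ≤ η ^ 2)
    (η0 : 0 ≤ η) (hR : R ≤ s) (s0 : 1 ≤ s) (hs : s ≤ l) (hW : 2 * k * LL s ≤ l)
    (h1 : (2 * (2 * k * LL s : ℕ) + 1 : ℝ) ^ 3 / LL l ^ 6 ≤ lam ^ 2) (h2 : 1 ≤ lam * (LL l * LL s))
    (h3 : Real.exp (-de * k) ≤ lam * LL l) {j : ℕ} (hj : LL l < 3 ^ j) {x : St} (hx : x ∈ box l)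
    (μ ν : Fin 4) : |dd (toV (sol X)) x μ ν| ≤ (1 + j) * 2 ^ 25 * (GG ^ 5 * η * lam) := by
  have hL := LL_posR l
  have hS := LL_posR s
  have hG := GG_ge.1
  have k0 : (0 : ℝ) ≤ k := k.cast_nonneg
  have ad := adm_rad k0
  have l0 : 0 < lam := pos_of_mul_pos_left (one_pos.trans_le h2) (by positivity)
  have a1 : nrm (rad k) (LL l) (d1 (sol X) μ ν) ≤ 2 * GG * η := by
    refine abs_le_of_sq_le_sq' ((nrm_d1_le _ μ ν).trans (((s2_GG h.hm h.hc h.hl (ad.mono de_one)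
      _).trans (agmon h.hm h.hc h.hU h.hR h.hl (h.we _) (h.gd _) ad).1).trans ?_))
      (by positivity) |>.2
    calc _ ≤ 4 * GG ^ 2 * η ^ 2 := by gcongr
      _ = _ := by ring
  have a2 : ∀ κ, nrm (rad k) (LL l) (Dm κ (d1 (sol X) μ ν)) ≤ GG ^ 3 * η / LL l := fun κ => by
    have e : Dm κ (d1 (sol X) μ ν) = d1 (fun ρ => Dm κ (sol X ρ)) μ ν := by
      simp only [d1, map_sub, Dm_comm κ μ, Dm_comm κ ν]
    rw [e]
    refine abs_le_of_sq_le_sq' ((nrm_d1_le _ μ ν).trans ((agmon2 h.hm h.hc h.hU h.hR h.hl (h.we _)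
      (h.gd _) ad κ κ).1.trans ?_)) (by positivity) |>.2
    calc _ ≤ GG ^ 6 * (η ^ 2 / LL l ^ 2) := by gcongr
      _ = _ := by ring
  have a3 : ∀ κ, nrm (rad (2 * k)) (LL s) (Dm κ (Dm κ (sh x (d1 (sol X) μ ν)))) ≤
      GG ^ 5 * η * lam := fun κ => by
    have e : Dm κ (Dm κ (sh x (d1 (sol X) μ ν))) =
        d1 (fun ρ => Dm κ (sh x (Dm κ (sol X ρ)))) μ ν := by
      simp only [d1, map_sub, Dm_comm κ μ, Dm_comm κ ν, Dm_sh]
    rw [e]
    exact abs_le_of_sq_le_sq' ((nrm_d1_le _ μ ν).trans (h.loc2 hX hR s0 hs hW h1 h2 h3 hx κ))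
      (by positivity) |>.2
  have a4 : ∀ (t : ℕ) (f : E 4), KA t (sh x f) 0 = KA t f x := fun t f => by
    simp only [KA, ev_Sc, sh_apply, zero_add, add_comm x]
  have a5 : ∀ T : ℝ, LL s ≤ T → GG ^ 3 * η / LL l / T ≤ GG ^ 5 * η * lam := fun T hT => by
    have T0 := hS.trans_le hT
    rw [div_div, div_le_iff₀ (by positivity)]
    calc _ = GG ^ 3 * η * 1 := by ring
      _ ≤ GG ^ 5 * η * (lam * (LL l * T)) := by
          gcongr
          · norm_num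
          · exact h2.trans (by gcongr)
      _ = _ := by ring
  have := chain3 (a := fun t => |KA t (d1 (sol X) μ ν) x|) (b := 2 ^ 25 * (GG ^ 5 * η * lam))
    (e := 2 ^ 25 * (GG ^ 5 * η * lam)) (by positivity) (fun t ht => by
      by_cases h4 : t ≤ s
      · simpa only [a4] using KA_step (by positivity) h4 _ (zero_mem_box s) a3
      · refine (KA_step1 k0 ht _ hx a2).trans (add_le_add le_rfl (mul_le_mul_of_nonneg_left
          (a5 _ ?_) (by positivity)))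
        exact_mod_cast (by unfold LL; omega : LL s ≤ LL t)) (fun t ht h4 => by
      have h5 : (LL l : ℝ) ≤ 3 * LL t := by exact_mod_cast h4
      have h6 := LL_posR t
      have h7 := a5 (LL l) (by exact_mod_cast (by unfold LL; omega : LL s ≤ LL l))
      refine (KA_le k0 ht _ hx).trans ((mul_le_mul_of_nonneg_left a1 (by positivity)).trans ?_)
      calc _ = 1458 * (GG * η / (3 * LL t) / (3 * LL t)) := by field_simp; ring
        _ ≤ 2 ^ 25 * (GG ^ 3 * η / LL l / LL l) := by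
            have h8 : (0 : ℝ) ≤ 3 * LL t := by linarith
            have h9 := mul_nonneg (zero_le_one.trans hG) η0
            have h10 := mul_le_mul_of_nonneg_right (le_self_pow₀ hG three_ne_zero) η0
            exact mul_le_mul (by norm_num) (div_le_div₀ (div_nonneg (h9.trans h10) hL.le)
              (div_le_div₀ (h9.trans h10) h10 hL h5) hL h5) (div_nonneg (div_nonneg h9 h8) h8)
              (by norm_num)
        _ ≤ _ := mul_le_mul_of_nonneg_left h7 (by positivity)) hj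
  rw [KA, ev_Sc, show box 0 = {0} from by decide, sum_singleton, add_zero, LL, mul_zero, zero_add,
    Nat.cast_one, one_pow, inv_one, one_mul] at this
  rw [dd_toV]
  exact this.trans_eq (by ring)

/-- second differences of the curvature of the minimiser -/
lemma Ctx.hess2 (h : Ctx l R n cL cU m sol) {X : F1} {η : ℝ} (hX : s1 (rad k) 1 X ≤ η ^ 2)
    (κ κ' : Fin 4) : ∑ x ∈ box l, nd (RG.sh (un κ') (RG.sh (un κ) (toV (sol X)) - toV (sol X)) -
      (RG.sh (un κ) (toV (sol X)) - toV (sol X))) x ≤ 6561 * (GG ^ 9 * (η ^ 2 / LL l ^ 3)) := by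
  have hG := GG_ge.1
  have ad := adm_rad (k.cast_nonneg : (0 : ℝ) ≤ k)
  have e : ∀ (A : F1) κ, RG.sh (un κ) (toV A) - toV A = toV fun ρ => Dm κ (A ρ) := fun A κ => by
    funext e; simp [toV, Dm_ap, RG.sh, un]
  rw [e, e]
  refine (sum_le_sum_of_subset_of_nonneg (box_sub l) fun _ _ _ => Li.nd_nonneg _ _).trans
    ((wloc k.cast_nonneg _).trans (mul_le_mul_of_nonneg_left
    ((agmon2 h.hm h.hc h.hU h.hR h.hl (h.we _) (h.gd _) ad κ κ').2.trans ?_) (by norm_num)))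
  gcongr

lemma scale_ex {r : ℕ} (hr : 60 ≤ r) (hl : r ^ 60 ≤ l) : ∃ (s : ℕ) (q : ℝ), q ^ 5 = LL l ∧
    (r : ℝ) ^ 2 ≤ q ∧ 3 * r ≤ s ∧ s ≤ l ∧ 2 * (r / 3) * LL s ≤ l ∧ q ^ 4 ≤ LL s ∧
    (2 * (2 * (r / 3) * LL s : ℕ) + 1 : ℝ) ≤ r ^ 2 * q ^ 4 := by
  have hL := LL_posR l
  obtain ⟨q, q0, q5⟩ : ∃ q : ℝ, 0 ≤ q ∧ q ^ 5 = LL l :=
    ⟨(LL l : ℝ) ^ ((5 : ℕ) : ℝ)⁻¹, by positivity, Real.rpow_inv_natCast_pow hL.le (by norm_num)⟩
  have r1 : (60 : ℝ) ≤ r := by exact_mod_cast hr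
  have h1 : (r : ℝ) ^ 2 ≤ q := by
    refine le_of_pow_le_pow_left₀ (n := 5) (by norm_num) q0 ?_
    have : r ^ 10 ≤ LL l := (Nat.pow_le_pow_right (by omega) (by norm_num)).trans
      (hl.trans (by unfold LL; omega))
    rw [q5, ← pow_mul]
    exact_mod_cast this
  have q1 : 60 * (r : ℝ) ≤ q := by nlinarith
  have q2 : q ≤ q ^ 4 := le_self_pow₀ (by linarith) (by norm_num)
  have h2 := Nat.floor_le (pow_nonneg q0 4)
  have h3 := Nat.lt_floor_add_one (q ^ 4)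
  have h4 : (LL ⌊q ^ 4⌋₊ : ℝ) = 2 * ⌊q ^ 4⌋₊ + 1 := by simp [LL]
  have h5 : (3 * (r / 3 : ℕ) : ℝ) ≤ r := by norm_cast; omega
  have h6 : (2 * (2 * (r / 3) * LL ⌊q ^ 4⌋₊ : ℕ) + 1 : ℝ) ≤ r ^ 2 * q ^ 4 := by
    push_cast
    have : ((r / 3 : ℕ) : ℝ) * LL ⌊q ^ 4⌋₊ ≤ r / 3 * (3 * q ^ 4) :=
      mul_le_mul (by linarith) (by linarith) (by positivity) (by positivity)
    nlinarith [mul_le_mul_of_nonneg_right r1 (by positivity : 0 ≤ r * q ^ 4)]
  have h7 : 2 * (r / 3) * LL ⌊q ^ 4⌋₊ ≤ l := by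
    have : (2 * (2 * (r / 3) * LL ⌊q ^ 4⌋₊ : ℕ) + 1 : ℝ) ≤ LL l :=
      h6.trans (by rw [← q5, pow_succ' q 4]; gcongr)
    have : 2 * (2 * (r / 3) * LL ⌊q ^ 4⌋₊) + 1 ≤ LL l := by exact_mod_cast this
    unfold LL at this ⊢
    omega
  refine ⟨⌊q ^ 4⌋₊, q, q5, h1, Nat.le_floor (by push_cast; linarith), le_trans ?_ h7,
    h7, by rw [h4]; linarith [(⌊q ^ 4⌋₊).cast_nonneg (α := ℝ)], h6⟩
  exact le_trans (by unfold LL; omega) (Nat.le_mul_of_pos_left _ (by omega))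

/-- the explicit minimiser up to a small error has sharp bounds -/
theorem ctx9 : ∃ c : ℕ, 60 ≤ c ∧ ∀ (l r n k : ℕ) (cL cU : ℝ) (m : BF) (sol : F1 →ₗ[ℝ] F1),
    c ≤ r → r ^ c ≤ l → (LL l : ℝ) ^ c * Real.exp (-(r / c)) ≤ 1 → Ctx l (3 * r) n cL cU m sol →
    k + 1 = r / 4 → ∀ B δ, Cv (r / 3) δ B → ∃ a e, RG.mu l (sg l sol ∘ₗ PP k) B = a + e ∧
      Sm (l + 3) (δ / LL l ^ 5) e ∧ Cv l ((r : ℝ) ^ 7 / (LL l : ℝ) ^ (9 / 5 : ℝ) * δ) a ∧
      ∀ κ κ', ∑ x ∈ box l, nd (RG.sh (un κ') (RG.sh (un κ) a - a) - (RG.sh (un κ) a - a)) x ≤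
        (r : ℝ) ^ 5 * (δ ^ 2 / LL l ^ 3) := by
  obtain ⟨c, c60, cW⟩ : ∃ c : ℕ, 60 ≤ c ∧ 2 ^ 40 * WW ^ 2 ≤ c :=
    ⟨⌈2 ^ 40 * WW ^ 2⌉₊ + 60, by omega, (Nat.le_ceil _).trans (by simp)⟩
  refine ⟨c, c60, fun l r n k cL cU m sol hr hl hτ h hk B δ hB => ?_⟩
  obtain ⟨W1, W2, W3, W4⟩ := WW_ge
  have hG := GG_ge.1
  have d0 := de_pos
  have W0 : 1 ≤ WW := (one_le_pow₀ hG).trans W2
  have W5 : WW ≤ WW ^ 2 := le_self_pow₀ W0 two_ne_zero
  have r60 : r ^ 60 ≤ l := (Nat.pow_le_pow_right (by omega) c60).trans hl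
  have rc : (c : ℝ) ≤ r := by exact_mod_cast hr
  have r1 : (60 : ℝ) ≤ r := by exact_mod_cast c60.trans hr
  have rW := cW.trans rc
  have hL := LL_posR l
  have hL1 : (1 : ℝ) ≤ LL l := NN_one l
  have rL : ∀ j ≤ 60, (r : ℝ) ^ j ≤ LL l := fun j hj => by
    have : r ^ j ≤ LL l := (Nat.pow_le_pow_right (by omega) hj).trans (by simp only [LL]; omega)
    exact_mod_cast this
  have Lc : ∀ j ≤ 60, (LL l : ℝ) ^ j ≤ LL l ^ c := fun j hj => pow_le_pow_right₀ hL1 (by omega)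
  have lg : LL l < 3 ^ r := by
    have c1 : (1 : ℝ) ≤ c := by norm_cast; omega
    have h1 : (LL l : ℝ) ≤ Real.exp (r / c) := by
      rw [Real.exp_neg, mul_inv_le_iff₀ (Real.exp_pos _), one_mul] at hτ
      exact ((pow_one _).symm.trans_le (Lc 1 (by norm_num))).trans hτ
    have h2 : Real.exp (r / c) ≤ Real.exp 1 ^ r := by
      rw [← Real.exp_nat_mul, mul_one]
      exact Real.exp_le_exp.2 (div_le_self r.cast_nonneg c1)
    have h3 : Real.exp 1 ^ r < 3 ^ r := pow_lt_pow_left₀ (Real.exp_one_lt_d9.trans (by norm_num))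
      (Real.exp_pos _).le (by omega)
    exact_mod_cast (h1.trans h2).trans_lt h3
  obtain ⟨E, hE⟩ : ∃ E, E = Real.exp (-(r / c)) := ⟨_, rfl⟩
  have E0 : 0 < E := hE ▸ Real.exp_pos _
  rw [← hE] at hτ
  have LE : ∀ j ≤ 60, (LL l : ℝ) ^ j * E ≤ 1 := fun j hj =>
    (mul_le_mul_of_nonneg_right (Lc j hj) E0.le).trans hτ
  have h0 := hB.nonneg
  have k4 : (r : ℝ) ≤ 4 * k + 8 := by norm_cast; omega
  have k5 : Real.exp (-de * k) ≤ 3 * E := by
    have c0 : (0 : ℝ) < c := by norm_cast; omega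
    have : (r : ℝ) / c ≤ de * r / 4 := by
      rw [div_le_div_iff₀ c0 (by norm_num)]
      nlinarith [mul_le_mul_of_nonneg_right cW d0.le, mul_le_mul_of_nonneg_right W5 d0.le]
    rw [hE]
    refine le_trans ?_ (mul_le_mul_of_nonneg_right (exp_le_three le_rfl) (Real.exp_pos _).le)
    rw [← Real.exp_add]
    exact Real.exp_le_exp.2 (by nlinarith [de_le])
  obtain ⟨g, e, h1, -, h3⟩ := h.dec (k := k) (Sm_cg hB) (by omega)
  obtain ⟨s, q, q5, q1, s1', s2', s3, s4, s5⟩ := scale_ex (c60.trans hr) r60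
  have q2 : (1 : ℝ) ≤ r ^ 2 := one_le_pow₀ (by linarith)
  have q0 : 0 < q := by linarith
  have hX := s1_PP hB
  have k1 : (2 * (r / 3 : ℕ) + 1 : ℝ) ≤ r := by norm_cast; omega
  have η1 : 6 * (2 * (r / 3 : ℕ) + 1 : ℝ) ^ 2 * δ / de ≤ 6 * r ^ 2 * δ / de := by gcongr
  have η0 : 0 ≤ 6 * (2 * (r / 3 : ℕ) + 1 : ℝ) ^ 2 * δ / de := by positivity
  generalize 6 * (2 * (r / 3 : ℕ) + 1 : ℝ) ^ 2 * δ / de = η at hX η1 η0
  refine ⟨_, e, h1, h3.mono (by simp only [LL]; omega) ?_, fun x hx μ ν => ?_, fun κ κ' => ?_⟩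
  · have k1 : (2 * (r / 3 : ℕ) + 7 : ℝ) ≤ r := by norm_cast; omega
    have k2 : (8 * k + 9 : ℝ) ≤ 3 * r := by norm_cast; omega
    have k3 : (3 * (r / 3 : ℕ) : ℝ) ≤ r := by norm_cast; omega
    rw [le_div_iff₀ (by positivity)]
    calc _ ≤ 168 * GG ^ 2 * LL l ^ 2 * (2 * r ^ 2 * (3 * E) * (3 * r * (r * δ))) * LL l ^ 5 := by
          gcongr
      _ = 3024 * GG ^ 2 * r ^ 4 * (LL l ^ 7 * E * δ) := by ring
      _ ≤ r * r ^ 4 * (LL l ^ 7 * E * δ) := by gcongr; linarith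
      _ ≤ LL l * (LL l ^ 7 * E * δ) := by gcongr; rw [← pow_succ']; exact rL _ (by norm_num)
      _ = LL l ^ 8 * E * δ := by ring
      _ ≤ _ := mul_le_of_le_one_left h0 (LE 8 (by norm_num))
  · have e9 : (LL l : ℝ) ^ (9 / 5 : ℝ) = q ^ 9 := by
      rw [← q5, ← Real.rpow_natCast, ← Real.rpow_mul q0.le, ← Real.rpow_natCast]; norm_num
    have r3 : (1 : ℝ) ≤ r ^ 3 := one_le_pow₀ (by linarith)
    have := h.pt9 (lam := r ^ 3 / q ^ 9) hX η0 s1' (by omega) s2' s3 (by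
      rw [← q5]
      calc _ ≤ (r ^ 2 * q ^ 4) ^ 3 / (q ^ 5) ^ 6 := by gcongr
        _ = _ := by field_simp) (by
      rw [← q5]
      calc (1 : ℝ) = 1 / q ^ 9 * (q ^ 5 * q ^ 4) := by field_simp
        _ ≤ _ := by gcongr) (by
      have k6 : Real.exp (-de * (r / 3 : ℕ)) ≤ Real.exp (-de * k) := by
        have : (k : ℝ) ≤ (r / 3 : ℕ) := by norm_cast; omega
        exact Real.exp_le_exp.2 (by nlinarith)
      have k7 := LE 1 (by norm_num)
      rw [pow_one, ← q5] at k7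
      refine (k6.trans k5).trans ?_
      rw [← q5, div_mul_eq_mul_div, le_div_iff₀ (by positivity)]
      calc _ = 3 * q ^ 4 * (q ^ 5 * E) := by ring
        _ ≤ q * q ^ 4 * 1 := by gcongr; nlinarith
        _ ≤ _ := by rw [mul_one, ← pow_succ']; exact le_mul_of_one_le_left (by positivity) r3) lg hx μ ν
    have w1 : GG ^ 5 / de ≤ WW := by
      rw [WW, div_le_div_iff₀ d0 (by positivity)]
      nlinarith [mul_le_mul hG de_one d0.le (by linarith), mul_pos (pow_pos (one_pos.trans_le hG) 5) d0]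
    rw [La.dd_add, La.dd_gr, add_zero, e9]
    refine this.trans ?_
    calc _ ≤ (2 * r) * 2 ^ 25 * (GG ^ 5 * (6 * r ^ 2 * δ / de) * (r ^ 3 / q ^ 9)) := by
          gcongr; linarith
      _ = 12 * 2 ^ 25 * (GG ^ 5 / de) * (r ^ 6 / q ^ 9 * δ) := by ring
      _ ≤ r * (r ^ 6 / q ^ 9 * δ) := by gcongr; linarith
      _ = _ := by ring
  · have w1 : GG ^ 9 / de ^ 2 ≤ WW ^ 2 := by
      calc _ = GG ^ 3 * WW := by rw [WW]; ring
        _ ≤ WW * WW := by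
            gcongr
            rw [WW, le_div_iff₀ (by positivity)]
            exact (mul_le_of_le_one_right (by positivity) (pow_le_one₀ d0.le de_one)).trans
              (pow_le_pow_right₀ hG (by norm_num))
        _ = _ := by ring
    refine le_of_eq_of_le (sum_congr rfl fun x _ => ?_) ((h.hess2 hX κ κ').trans ?_)
    · simp only [nd, La.dd_sub, La.dd_add, Pi.sub_apply, Li.dd_sh, La.dd_gr, add_zero]
    calc _ ≤ 6561 * (GG ^ 9 * ((6 * r ^ 2 * δ / de) ^ 2 / LL l ^ 3)) := by gcongr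
      _ = 236196 * (GG ^ 9 / de ^ 2) * (r ^ 4 * (δ ^ 2 / LL l ^ 3)) := by ring
      _ ≤ r * (r ^ 4 * (δ ^ 2 / LL l ^ 3)) := by gcongr; linarith
      _ = _ := by ring

end

end Pool.Agent.Lib.MP_7f377f_mp.Lin
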