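import Mathlib

/-! The Garding-Wightman axioms for one hermitian scalar field on Minkowski space. -/

noncomputable section

namespace Pool.Agent.Lib.MP_7f377f_mp.WA

open MeasureTheory Filter Topology Complex

/-- space-time -/
abbrev M4 : Type := EuclideanSpace ℝ (Fin 4)

/-- real matrices -/
abbrev Mat : Type := Matrix (Fin 4) (Fin 4) ℝ

/-- Schwartz test functions -/
abbrev Tf : Type := SchwartzMap M4 ℂ

/-- the Minkowski product -/
def mink (x y : M4) : ℝ := x 0 * y 0 - x 1 * y 1 - x 2 * y 2 - x 3 * y 3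

/-- matrices act on vectors -/
def act (L : Mat) (x : M4) : M4 := WithLp.toLp 2 (L.mulVec x)

/-- proper orthochronous Lorentz matrices -/
def Lor (L : Mat) : Prop := (∀ x y, mink (act L x) (act L y) = mink x y) ∧ L.det = 1 ∧ 0 < L 0 0

/-- the forward tube: the imaginary parts of the differences lie in the open forward cone -/
def Tube (n : ℕ) : Set (Fin n → Fin 4 → ℂ) := {z | ∀ i j, i < j → ∀ y : M4,
  (∀ μ, y μ = (z j μ - z i μ).im) → 0 < y 0 ∧ 0 < mink y y}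

variable {H : Type} [NormedAddCommGroup H] [InnerProductSpace ℂ H]

/-- a strongly continuous unitary representation of the Poincare group with spectrum in the closed
forward cone, a unique invariant vector and a non zero Hamiltonian -/
def Poin (U : M4 → Mat → H →L[ℂ] H) (Ω : H) : Prop :=
  (∀ a L, Lor L → Function.Surjective (U a L) ∧ (∀ x, ‖U a L x‖ = ‖x‖) ∧ U a L Ω = Ω ∧
    ∀ b M x, Lor M → U a L (U b M x) = U (a + act L b) (L * M) x) ∧
  (∀ x, ContinuousOn (fun p : M4 × Mat => U p.1 p.2 x) {p | Lor p.2} ∧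
    ∃ μ : Measure M4, IsFiniteMeasure μ ∧ (∀ᵐ p ∂μ, 0 ≤ p 0 ∧ 0 ≤ mink p p) ∧
      ∀ a, inner ℂ x (U a 1 x) = ∫ p, exp (I * mink a p) ∂μ) ∧
  ‖Ω‖ = 1 ∧ (∀ x, (∀ a, U a 1 x = x) → ∃ c : ℂ, x = c • Ω) ∧
  ∃ t x, U (EuclideanSpace.single 0 t) 1 x ≠ x

/-- a hermitian scalar Wightman field on the domain `D` -/
def Wfield (U : M4 → Mat → H →L[ℂ] H) (Ω : H) (D : Submodule ℂ H) (φ : Tf → H → H) : Prop :=
  Ω ∈ D ∧ Dense (Submodule.span ℂ (Set.range fun l : List Tf => l.foldr φ Ω) : Set H) ∧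
  ∀ x ∈ D, (∀ f, φ f x ∈ D) ∧ (∀ (c : ℂ) f g, φ (c • f + g) x = c • φ f x + φ g x) ∧
    (∀ y ∈ D, (∀ (c : ℂ) f, φ f (c • x + y) = c • φ f x + φ f y) ∧
      (Continuous fun f => inner ℂ y (φ f x)) ∧
      ∀ f g : Tf, (∀ u, g u = starRingEnd ℂ (f u)) → inner ℂ y (φ f x) = inner ℂ (φ g y) x) ∧
    (∀ a L, Lor L → U a L x ∈ D ∧
      ∀ f g : Tf, (∀ u, g (a + act L u) = f u) → U a L (φ f x) = φ g (U a L x)) ∧
    ∀ f g : Tf, (∀ u ∈ tsupport f, ∀ v ∈ tsupport g, mink (u - v) (u - v) < 0) →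
      φ f (φ g x) = φ g (φ f x)

/-- the Euclidean values `S n f` and the vacuum expectation values of the field are the values at
imaginary times and the boundary values of the same holomorphic functions -/
def Wrot (C : ∀ n, (Fin n → M4 → ℝ) → Prop) (S : ∀ n, (Fin n → M4 → ℝ) → ℂ) (Ω : H)
    (φ : Tf → H → H) : Prop :=
  ∀ n, ∃ w : (Fin n → Fin 4 → ℂ) → ℂ, DifferentiableOn ℂ w (Tube n) ∧
    (∀ f, C n f → (∀ i j, i < j → ∀ x ∈ tsupport (f i), ∀ y ∈ tsupport (f j), x 0 < y 0) →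
      S n f = ∫ y : Fin n → M4,
        (∏ i, (f i (y i) : ℂ)) * w fun i μ => if μ = 0 then I * y i μ else y i μ) ∧
    ∀ (f : Fin n → Tf) (G : ℝ → (Fin n → M4) → ℂ),
      (∀ ε x, G ε x =
        (∏ i, f i (x i)) * w fun i μ => x i μ + if μ = 0 then I * ε * (i : ℕ) else 0) →
      (∀ ε > 0, Integrable (G ε)) ∧ Tendsto (fun ε => ∫ x, G ε x) (𝓝[>] 0)
        (𝓝 (inner ℂ Ω ((List.ofFn f).foldr φ Ω)))

/-- `S` is the Wick rotation of a Wightman field -/
def Wightman (C : ∀ n, (Fin n → M4 → ℝ) → Prop) (S : ∀ n, (Fin n → M4 → ℝ) → ℂ) : Prop :=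
  ∃ (H : Type) (_ : NormedAddCommGroup H) (_ : InnerProductSpace ℂ H) (_ : CompleteSpace H)
    (U : M4 → Mat → H →L[ℂ] H) (Ω : H) (D : Submodule ℂ H) (φ : Tf → H → H),
    Poin U Ω ∧ Wfield U Ω D φ ∧ Wrot C S Ω φ

end Pool.Agent.Lib.MP_7f377f_mp.WA
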