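import Pool.Agent.Lib.MP_7f377f_mp.WAx

/-! The Garding-Wightman axioms for a multiplet of fields `φ (c, f)` with labels `c`. -/

noncomputable section

namespace Pool.Agent.Lib.MP_7f377f_mp.WA

open MeasureTheory Filter Topology Complex

variable {V : Type} [AddCommGroup V] [Module ℂ V] [Star V]
  {H : Type} [NormedAddCommGroup H] [InnerProductSpace ℂ H]

/-- Wightman fields on the domain `D`, linear in the label, with adjoints `φ (star c, conj f)`,
covariant for the action `ρ` of the Lorentz group on the labels and mutually local -/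
def WfieldL (ρ : Mat → V → V) (U : M4 → Mat → H →L[ℂ] H) (Ω : H) (D : Submodule ℂ H)
    (φ : V × Tf → H → H) : Prop :=
  Ω ∈ D ∧ Dense (Submodule.span ℂ (Set.range fun l : List (V × Tf) => l.foldr φ Ω) : Set H) ∧
  ∀ x ∈ D, ∀ c f, φ (c, f) x ∈ D ∧
    (∀ (t : ℂ) g, φ (c, t • f + g) x = t • φ (c, f) x + φ (c, g) x) ∧
    (∀ (t : ℂ) b, φ (t • c + b, f) x = t • φ (c, f) x + φ (b, f) x) ∧
    (∀ y ∈ D, (∀ t : ℂ, φ (c, f) (t • x + y) = t • φ (c, f) x + φ (c, f) y) ∧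
      (Continuous fun g => inner ℂ y (φ (c, g) x)) ∧ ∀ g : Tf, (∀ u, g u = starRingEnd ℂ (f u)) →
        inner ℂ y (φ (c, f) x) = inner ℂ (φ (star c, g) y) x) ∧
    (∀ a L, Lor L → U a L x ∈ D ∧ ∀ g : Tf, (∀ u, g (a + act L u) = f u) →
      U a L (φ (c, f) x) = φ (ρ L c, g) (U a L x)) ∧
    ∀ b (g : Tf), (∀ u ∈ tsupport f, ∀ v ∈ tsupport g, mink (u - v) (u - v) < 0) →
      φ (c, f) (φ (b, g) x) = φ (b, g) (φ (c, f) x)

/-- the Euclidean values `S n a f` and the vacuum expectation values of the fields with the labels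
`κ (a i)` are the values at imaginary times and the boundary values of the same holomorphic
functions -/
def WrotL (κ : V → V) (C : ∀ n, (Fin n → M4 → ℝ) → Prop)
    (S : ∀ n, (Fin n → V) → (Fin n → M4 → ℝ) → ℂ) (Ω : H) (φ : V × Tf → H → H) : Prop :=
  ∀ n a, ∃ w : (Fin n → Fin 4 → ℂ) → ℂ, DifferentiableOn ℂ w (Tube n) ∧
    (∀ f, C n f → (∀ i j, i < j → ∀ x ∈ tsupport (f i), ∀ y ∈ tsupport (f j), x 0 < y 0) →
      S n a f = ∫ y : Fin n → M4,
        (∏ i, (f i (y i) : ℂ)) * w fun i μ => if μ = 0 then I * y i μ else y i μ) ∧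
    ∀ (f : Fin n → Tf) (G : ℝ → (Fin n → M4) → ℂ),
      (∀ ε x, G ε x =
        (∏ i, f i (x i)) * w fun i μ => x i μ + if μ = 0 then I * ε * (i : ℕ) else 0) →
      (∀ ε > 0, Integrable (G ε)) ∧ Tendsto (fun ε => ∫ x, G ε x) (𝓝[>] 0)
        (𝓝 (inner ℂ Ω ((List.ofFn fun i => (κ (a i), f i)).foldr φ Ω)))

/-- `S` is the Wick rotation of a multiplet of Wightman fields -/
def WightmanL (ρ : Mat → V → V) (κ : V → V) (C : ∀ n, (Fin n → M4 → ℝ) → Prop)
    (S : ∀ n, (Fin n → V) → (Fin n → M4 → ℝ) → ℂ) : Prop :=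
  ∃ (H : Type) (_ : NormedAddCommGroup H) (_ : InnerProductSpace ℂ H) (_ : CompleteSpace H)
    (U : M4 → Mat → H →L[ℂ] H) (Ω : H) (D : Submodule ℂ H) (φ : V × Tf → H → H),
    Poin U Ω ∧ WfieldL ρ U Ω D φ ∧ WrotL κ C S Ω φ

end Pool.Agent.Lib.MP_7f377f_mp.WA
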