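import Pool.Agent.Lib.MP_7f377f_mp.WeakChess

/-! A chessboard estimate for short patterns on tori of odd side: the combinatorial part. -/

namespace Pool.Agent.Lib.MP_7f377f_mp.Weak

/-- a letter or its mirror image -/
def lt {α : Type} (r : α → α) (u : ℤ → α) (i p : ℤ) : α := if p % 2 = 0 then u i else r (u i)

/-- the word `u_0 ... u_(n-1) (b b^)^j u_(n-1)^ ... u_0^` with `b = u_n`, starting at `-o` -/
def wd {α : Type} (r : α → α) (u : ℤ → α) (n j o : ℤ) (t : ℤ) : α :=
  lt r u (min (min (t + o) n) (2 * n + 2 * j - 1 - (t + o)))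
    (if t + o < n then 0 else min (t + o - n) (2 * j - 1))

theorem word_lemma {α : Type} (e : α) (r : α → α) (re : r e = e) (rr : ∀ a, r (r a) = a)
    (P : α → Prop) (Pr : ∀ a, P a → P (r a)) (h : ℕ) (Ψ : (ℤ → α) → ℝ) (pos : ∀ w, 0 ≤ Ψ w)
    (sh : ∀ (w : ℤ → α) (s : ℤ),
      (∀ t : ℤ, (t < -h ∨ h < t ∨ t - s < -h ∨ h < t - s) → w t = e) →
      Ψ (fun t => w (t + s)) = Ψ w)
    (cs : ∀ w : ℤ → α, (∀ t : ℤ, (t < -h ∨ h ≤ t) → w t = e) → Ψ w ^ 2 ≤
      Ψ (fun t => if 0 ≤ t then w t else r (w (-t - 1))) *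
        Ψ fun t => if 0 ≤ t then r (w (-t - 1)) else w t)
    (h1 : Ψ (fun _ => e) ≤ 1) {M : ℝ} (M1 : 1 ≤ M) (hM : ∀ w, (∀ t, P (w t)) → Ψ w ≤ M)
    {D s : ℕ} (hD : D + 2 ^ s ≤ h + 1) (u : ℤ → α) (Pu : ∀ t, P (u t))
    (hu : ∀ t : ℤ, (t < 0 ∨ D ≤ t) → u t = e) : Ψ u ^ (2 * 2 ^ s) ≤ M ^ D := by
  have s1 : 1 ≤ 2 ^ s := Nat.one_le_two_pow
  have l0 : ∀ v : ℤ → α, (∀ t < 0, v t = e) → ∀ i p, i < 0 → lt r v i p = e := fun v hv i p hi => by
    simp only [lt, hv i hi, re, ite_self]
  have u0 : ∀ t < 0, u t = e := fun t ht => hu t (Or.inl ht)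
  have l1 : ∀ v : ℤ → α, ∀ i p, r (lt r v i p) = lt r v i (p + 1) := fun v i p => by
    unfold lt; split_ifs <;> first | rfl | omega | exact rr _
  have l2 : ∀ i p i' p', (i = i' ∧ p % 2 = p' % 2) ∨ (i < 0 ∧ i' < 0) →
      lt r u i p = lt r u i' p' := by
    rintro i p i' p' (⟨rfl, h⟩ | ⟨h, h'⟩)
    · simp only [lt, h]
    · rw [l0 u u0 _ _ h, l0 u u0 _ _ h']
  set φ : ℕ → ℕ → ℝ := fun n j => Ψ (wd r u n j (n + j)) with hφ
  have step : ∀ n j : ℕ, n + 2 * j ≤ h → φ n j ^ 2 ≤ φ n (2 * j) * φ n 0 := by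
    intro n j hn
    have a1 := sh (wd r u n j n) j fun t ht => l0 u u0 _ _ (by omega)
    have a2 := cs (wd r u n j n) fun t ht => l0 u u0 _ _ (by omega)
    have e0 : (fun t => wd r u n j n (t + j)) = wd r u n j (n + j) := by
      funext t; simp only [wd, show t + j + n = t + (n + j) by ring]
    have e1 : (fun t => if 0 ≤ t then wd r u n j n t else r (wd r u n j n (-t - 1))) =
        wd r u n (2 * j : ℕ) (n + (2 * j : ℕ)) := by
      funext t
      simp only [wd, l1]
      split_ifs <;> exact l2 _ _ _ _ (by omega)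
    have e2 : (fun t => if 0 ≤ t then r (wd r u n j n (-t - 1)) else wd r u n j n t) =
        wd r u n (0 : ℕ) (n + (0 : ℕ)) := by
      funext t
      simp only [wd, l1]
      split_ifs <;> exact l2 _ _ _ _ (by omega)
    rw [e0] at a1
    rw [e1, e2, ← a1] at a2
    exact a2
  have dbl : ∀ n i : ℕ, n + 2 ^ i ≤ h → φ n 1 ^ 2 ^ i ≤ φ n 0 ^ (2 ^ i - 1) * φ n (2 ^ i) := by
    intro n i
    induction i with
    | zero => simp
    | succ i ih =>
      intro hi
      have i1 : 1 ≤ 2 ^ i := Nat.one_le_two_pow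
      rw [pow_succ' 2 i] at hi ⊢
      rw [pow_mul', show 2 * 2 ^ i - 1 = (2 ^ i - 1) * 2 + 1 by omega, pow_succ (φ n 0), pow_mul]
      refine (pow_le_pow_left₀ (pow_nonneg (pos _) _) (ih (by omega)) 2).trans ?_
      rw [mul_pow, mul_assoc, mul_comm (φ n 0)]
      exact mul_le_mul_of_nonneg_left (step n _ hi) (sq_nonneg _)
  have main : ∀ n : ℕ, n ≤ D → φ n 0 ^ 2 ^ s ≤ M ^ n := by
    intro n
    induction n with
    | zero =>
      intro _
      have : wd r u (0 : ℕ) (0 : ℕ) ((0 : ℕ) + (0 : ℕ)) = fun _ => e :=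
        funext fun t => l0 u u0 _ _ (by omega)
      simp only [hφ, this, pow_zero]
      exact pow_le_one₀ (pos _) h1
    | succ n ih =>
      intro hn
      have e1 : φ (n + 1) 0 = φ n 1 := by
        simp only [hφ]
        congr 1
        funext t
        simp only [wd]
        split_ifs <;> exact l2 _ _ _ _ (by omega)
      have b1 : φ n (2 ^ s) ≤ M := hM _ fun t => by
        simp only [wd, lt]; split_ifs <;> first | exact Pu _ | exact Pr _ (Pu _)
      have b2 : φ n 0 ^ (2 ^ s - 1) ≤ M ^ n := by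
        rcases le_total (φ n 0) 1 with h | h
        · exact (pow_le_one₀ (pos _) h).trans (one_le_pow₀ M1)
        · exact (pow_le_pow_right₀ h (Nat.sub_le _ _)).trans (ih (by omega))
      rw [e1, pow_succ]
      exact (dbl n s (by omega)).trans (mul_le_mul b2 b1 (pos _) (by positivity))
  have a1 := sh u D fun t ht => hu t (by omega)
  have a2 := cs (fun t => u (t + D)) fun t ht => hu _ (by omega)
  have e1 : (fun t => if 0 ≤ t then u (t + D) else r (u (-t - 1 + D))) = fun _ => e := by
    funext t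
    split_ifs
    · exact hu _ (by omega)
    · rw [hu _ (by omega), re]
  have e2 : (fun t => if 0 ≤ t then r (u (-t - 1 + D)) else u (t + D)) =
      wd r u D (0 : ℕ) (D + (0 : ℕ)) := by
    funext t
    have e3 : ∀ i, u i = lt r u i 0 := fun i => rfl
    simp only [wd]
    rw [e3 (-t - 1 + D), e3 (t + D), l1]
    split_ifs <;> exact l2 _ _ _ _ (by omega)
  rw [e1, e2, a1] at a2
  rw [pow_mul]
  exact (pow_le_pow_left₀ (sq_nonneg _) (a2.trans (mul_le_of_le_one_left (pos _) h1)) _).trans
    (main D le_rfl)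

variable {d m : ℕ} [NeZero m]

/-- symmetrisation of a pattern on the odd torus -/
def sy {β : Type} (e : β) (r : β → β) (h : ℕ) (k : Fin d) (σ τ : Site d m → β) (x : Site d m) : β :=
  if (x k).val < h then σ x else if (x k).val = h then e else r (τ (rc k x))

theorem chess_lite_abs {β : Type} (e : β) (r : Fin d → β → β) (re : ∀ k, r k e = e)
    (rr : ∀ k a, r k (r k a) = a) {h : ℕ} (hm : m = 2 * h + 1) (Φ : (Site d m → β) → ℝ)
    (pos : ∀ σ, 0 ≤ Φ σ) (sh : ∀ σ a, Φ (fun x => σ (x + a)) = Φ σ)
    (cs : ∀ σ k, (∀ x, (x k).val = h → σ x = e) → Φ σ ^ 2 ≤ Φ (sy e (r k) h k σ σ) *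
      Φ (sy e (r k) h k (fun x => r k (σ (rc k x))) fun x => r k (σ (rc k x))))
    (h1 : Φ (fun _ => e) ≤ 1) {M : ℝ} (M1 : 1 ≤ M) (hM : ∀ σ, Φ σ ≤ M) {D s : ℕ}
    (hD : D + 2 ^ s ≤ h + 1) (σ : Site d m → β) (hσ : ∀ x k, D ≤ (x k).val → σ x = e) :
    Φ σ ≤ M ^ (((D : ℝ) / (2 * 2 ^ s)) ^ d) := by
  classical
  have s1 : 1 ≤ 2 ^ s := Nat.one_le_two_pow
  obtain ⟨z, hz⟩ : ∃ z : ZMod m → ℤ, ∀ x, z x = if x.val ≤ h then (x.val : ℤ) else x.val - m :=
    ⟨_, fun _ => rfl⟩
  have zc : ∀ x, ((z x : ℤ) : ZMod m) = x := fun x => by rw [hz]; split_ifs <;> simp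
  have zb : ∀ x, -(h : ℤ) ≤ z x ∧ z x ≤ h := fun x => by
    have := ZMod.val_lt x
    rw [hz]; split_ifs <;> omega
  have zi : ∀ t : ℤ, -(h : ℤ) ≤ t → t ≤ h → z t = t := fun t h1 h2 => by
    have h3 := (ZMod.intCast_eq_intCast_iff_dvd_sub _ _ _).1 (zc t)
    have := zb t
    have := Int.eq_zero_of_abs_lt_dvd h3 (abs_lt.2 ⟨by omega, by omega⟩)
    omega
  have key : ∀ K : Finset (Fin d), ∀ σ : Site d m → β,
      (∀ x, ∀ k ∈ K, D ≤ (x k).val → σ x = e) → Φ σ ≤ M ^ (((D : ℝ) / (2 * 2 ^ s)) ^ K.card) := by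
    intro K
    induction K using Finset.induction_on with
    | empty => exact fun σ _ => by simpa using hM σ
    | insert k K hk ih =>
      intro σ hσ
      have uk : ∀ (x a : Site d m), Function.update (x + a) k 0 = Function.update x k 0 +
          Function.update a k 0 := fun x a => by
        funext l; by_cases hl : l = k <;> simp [hl]
      have ur : ∀ x : Site d m, Function.update (rc k x) k 0 = Function.update x k 0 := fun x => by
        funext l; by_cases hl : l = k <;> simp [hl, rc_ne]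
      have zr : ∀ x : Site d m, (x k).val ≠ h → z (rc k x k) = -z (x k) - 1 := fun x hx => by
        have := ZMod.val_lt (x k)
        rw [hz, hz, rc_val]; split_ifs <;> omega
      have w := word_lemma (α := Site d m → β) (fun _ => e) (fun a y => r k (a y))
        (funext fun _ => re k) (fun a => funext fun _ => rr k _)
        (fun a => ∀ x, ∀ l ∈ K, D ≤ (x l).val → a x = e)
        (fun a ha x l hl hx => by simp only [ha x l hl hx, re]) h
        (fun w => Φ fun x => w (z (x k)) (Function.update x k 0)) (fun _ => pos _)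
        (fun w t hw => ?_) (fun w hw => ?_) h1
        (M := M ^ (((D : ℝ) / (2 * 2 ^ s)) ^ K.card)) (Real.one_le_rpow M1 (by positivity))
        (fun w hw => ih _ fun x l hl hx => hw _ _ l hl (by
          rwa [Function.update_of_ne (by rintro rfl; exact hk hl)])) hD
        (fun t y => if 0 ≤ t ∧ t < D then σ (Function.update y k t) else e)
        (fun t x l hl hx => by
          split_ifs
          · exact hσ _ l (Finset.mem_insert_of_mem hl) (by
              rwa [Function.update_of_ne (by rintro rfl; exact hk hl)])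
          · rfl) fun t ht => funext fun _ => if_neg (by omega)
      · have e1 : (fun x : Site d m => if 0 ≤ z (x k) ∧ z (x k) < D then
            σ (Function.update (Function.update x k 0) k (z (x k))) else e) = σ := by
          funext x
          rw [zc, Function.update_idem, Function.update_eq_self]
          split_ifs with hx
          · rfl
          · refine (hσ x k (Finset.mem_insert_self _ _) ?_).symm
            rw [hz] at hx
            split_ifs at hx <;> omega
        rw [e1, ← Real.rpow_natCast _ D, ← Real.rpow_mul (by linarith)] at w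
        rw [Finset.card_insert_of_notMem hk, pow_succ, ← mul_div_assoc, div_eq_mul_inv,
          Real.rpow_mul (by linarith)]
        refine (Real.le_rpow_inv_iff_of_pos (pos _) (by positivity) (by positivity)).2 ?_
        rw [← Real.rpow_natCast] at w
        push_cast at w
        exact w
      · rw [← sh (fun x => w (z (x k)) (Function.update x k 0)) (Pi.single k t)]
        congr 1
        funext x
        rw [uk, Pi.add_apply, Pi.single_eq_same,
          show Function.update (Pi.single k (t : ZMod m) : Site d m) k 0 = 0 by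
            funext l; by_cases hl : l = k <;> simp [hl], add_zero]
        have b1 := zb (x k)
        have b2 := zb (x k + t)
        beta_reduce
        by_cases hc : -(h : ℤ) ≤ z (x k) + t ∧ z (x k) + t ≤ h
        · rw [← zi _ hc.1 hc.2, Int.cast_add, zc]
        · rw [hw (z (x k) + t) (by omega), hw (z (x k + t))]
          by_contra hn
          have := zi (z (x k + t) - t) (by omega) (by omega)
          rw [Int.cast_sub, zc, add_sub_cancel_right] at this
          omega
      · refine (cs _ k fun x hx => ?_).trans_eq ?_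
        · rw [hw _ (by rw [hz]; split_ifs <;> omega)]
        · have h0 : w (-h - 1) = fun _ => e := hw _ (by omega)
          have h0' : w h = fun _ => e := hw _ (by omega)
          have hc : ∀ x : Site d m, ((x k).val < h ∧ 0 ≤ z (x k)) ∨ ((x k).val = h ∧ z (x k) = h) ∨
              (h < (x k).val ∧ z (x k) < 0) := fun x => by
            have := ZMod.val_lt (x k)
            rw [hz]; split_ifs <;> omega
          congr 2 <;> funext x <;> simp only [sy, ur, rc_rc, rr] <;>
            rcases hc x with ⟨c1, c2⟩ | ⟨c1, c2⟩ | ⟨c1, c2⟩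
          · rw [if_pos c1, if_pos c2]
          · rw [if_neg (by omega), if_pos c1, if_pos (by omega), c2, h0']
          · rw [if_neg (by omega), if_neg (by omega), if_neg (by omega), zr x (by omega)]
          · rw [if_pos c1, if_pos c2, zr x (by omega)]
          · rw [if_neg (by omega), if_pos c1, if_pos (by omega), c2, h0, re]
          · rw [if_neg (by omega), if_neg (by omega), if_neg (by omega)]
  simpa using key Finset.univ σ fun x k _ => hσ x k

end Pool.Agent.Lib.MP_7f377f_mp.Weak
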