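import Pool.Agent.Lib.MP_7f377f_mp.OddRP
import Pool.Agent.Lib.MP_7f377f_mp.OddWord

/-! Reflection positivity for bounded measurable functions and a chessboard estimate for short
patterns when the number of cells per side is odd. -/

namespace Pool.Agent.Lib.MP_7f377f_mp.Weak

open MeasureTheory

set_option linter.unusedSectionVars false

/-- bounded measurable functions -/
def BM {Ω : Type} [MeasurableSpace Ω] (F : Ω → ℝ) : Prop := Measurable F ∧ ∃ B, ∀ U, |F U| ≤ B

namespace BM

variable {Ω : Type} [MeasurableSpace Ω] {F F' : Ω → ℝ}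

theorem int (h : BM F) (ν : Measure Ω) [IsFiniteMeasure ν] : Integrable F ν :=
  let ⟨B, hB⟩ := h.2
  Integrable.of_bound h.1.aestronglyMeasurable B (Filter.Eventually.of_forall hB)

theorem const (c : ℝ) : BM fun _ : Ω => c := ⟨measurable_const, |c|, fun _ => le_rfl⟩

theorem mul (h : BM F) (h' : BM F') : BM fun U => F U * F' U :=
  let ⟨B, hB⟩ := h.2
  let ⟨B', hB'⟩ := h'.2
  ⟨h.1.mul h'.1, B * B', fun U => by
    rw [abs_mul]; exact mul_le_mul (hB U) (hB' U) (abs_nonneg _) ((abs_nonneg _).trans (hB U))⟩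

theorem add (h : BM F) (h' : BM F') : BM fun U => F U + F' U :=
  let ⟨B, hB⟩ := h.2
  let ⟨B', hB'⟩ := h'.2
  ⟨h.1.add h'.1, B + B', fun U => (abs_add_le _ _).trans (add_le_add (hB U) (hB' U))⟩

theorem comp (h : BM F) {Θ : Ω → Ω} (hΘ : Measurable Θ) : BM fun U => F (Θ U) :=
  let ⟨B, hB⟩ := h.2
  ⟨h.1.comp hΘ, B, fun _ => hB _⟩

theorem prod {ι : Type} (s : Finset ι) {f : ι → Ω → ℝ} (h : ∀ i, BM (f i)) :
    BM fun U => ∏ i ∈ s, f i U := by
  classical
  induction s using Finset.induction_on with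
  | empty => simpa using const 1
  | insert i s hi ih => simpa only [Finset.prod_insert hi] using (h i).mul ih

theorem of_continuous [TopologicalSpace Ω] [CompactSpace Ω] [OpensMeasurableSpace Ω]
    (h : Continuous F) : BM F :=
  ⟨h.measurable, ‖BoundedContinuousFunction.mkOfCompact ⟨F, h⟩‖, fun U =>
    (BoundedContinuousFunction.mkOfCompact ⟨F, h⟩).norm_coe_le_norm U⟩

theorem mp (h : BM F) {ν : Measure Ω} {Θ : Ω → Ω} (hΘ : MeasurePreserving Θ ν ν) :
    ∫ U, F (Θ U) ∂ν = ∫ U, F U ∂ν := by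
  conv_rhs => rw [← hΘ.map_eq]
  exact (integral_map hΘ.measurable.aemeasurable h.1.aestronglyMeasurable).symm

theorem cs (ν : Measure Ω) [IsFiniteMeasure ν] {Θ : Ω → Ω} (hΘ : MeasurePreserving Θ ν ν)
    (hinv : ∀ U, Θ (Θ U) = U) {F₁ F₂ : Ω → ℝ} (h₁ : BM F₁) (h₂ : BM F₂)
    (hpos : ∀ t : ℝ, 0 ≤ ∫ U, (t * F₁ U + F₂ U) * (t * F₁ (Θ U) + F₂ (Θ U)) ∂ν) :
    (∫ U, F₁ U * F₂ (Θ U) ∂ν) ^ 2 ≤ (∫ U, F₁ U * F₁ (Θ U) ∂ν) * ∫ U, F₂ U * F₂ (Θ U) ∂ν := by
  have m := hΘ.measurable
  have hs : ∫ U, F₂ U * F₁ (Θ U) ∂ν = ∫ U, F₁ U * F₂ (Θ U) ∂ν := by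
    rw [← (h₂.mul (h₁.comp m)).mp hΘ]
    simp only [hinv, mul_comm]
  have : ∀ t : ℝ, 0 ≤ (∫ U, F₁ U * F₁ (Θ U) ∂ν) * (t * t) + (2 * ∫ U, F₁ U * F₂ (Θ U) ∂ν) * t +
      ∫ U, F₂ U * F₂ (Θ U) ∂ν := by
    intro t
    have e : ∀ U, (t * F₁ U + F₂ U) * (t * F₁ (Θ U) + F₂ (Θ U)) =
        F₁ U * F₁ (Θ U) * (t * t) + F₁ U * F₂ (Θ U) * t + F₂ U * F₁ (Θ U) * t +
          F₂ U * F₂ (Θ U) := fun U => by ring
    have h := hpos t
    have i1 := (h₁.mul (h₁.comp m)).mul (const (t * t))
    have i2 := (h₁.mul (h₂.comp m)).mul (const t)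
    have i3 := (h₂.mul (h₁.comp m)).mul (const t)
    simp only [e] at h
    rw [integral_add (((i1.add i2).add i3).int ν) ((h₂.mul (h₂.comp m)).int ν),
      integral_add ((i1.add i2).int ν) (i3.int ν), integral_add (i1.int ν) (i2.int ν),
      integral_mul_const, integral_mul_const, integral_mul_const, hs] at h
    linarith
  have := discrim_le_zero this
  rw [discrim] at this
  nlinarith

end BM

variable {A : Type} [NormedRing A] [StarRing A] [NormedAlgebra ℝ A] [HS A]
variable {d L : ℕ} {G : Type} [Group G] [NeZero L] (ρ : G →* unitary A)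
  [TopologicalSpace G] [IsTopologicalGroup G] [CompactSpace G]
  [SecondCountableTopology G] [MeasurableSpace G] [BorelSpace G] (μ : Measure G)
  [μ.IsHaarMeasure] [IsProbabilityMeasure μ]

/-- reflection positivity on all tori for bounded measurable functions -/
theorem rp_pos_meas (hρ : Continuous ρ) {b : ℝ} (hb : 0 ≤ b) (k : Fin d)
    {F : (Link d L → G) → ℝ} (hF : BM F) (hd : Dep (L / 2) k F) :
    0 ≤ ∫ U, F U * F (refl k U) ∂(nu μ ρ d L b) := by
  classical
  obtain ⟨B, hB⟩ := hF.2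
  have B0 : 0 ≤ B := (abs_nonneg _).trans (hB 1)
  have mr := nu_refl (d := d) (L := L) μ ρ hρ b k
  set p : (Link d L → G) → Link d L → G := fun U e => if half (L / 2) k e then U e else 1 with hp
  have cp : Continuous p := continuous_pi fun e => by simp only [hp]; split_ifs <;> fun_prop
  refine le_of_forall_pos_le_add fun ε hε => ?_
  obtain ⟨g, hg, -⟩ := (hF.int ((nu μ ρ d L b).map p)).exists_boundedContinuous_integral_sub_le
    (show 0 < ε / (2 * B + 1) by positivity)
  rw [integral_map cp.measurable.aemeasurable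
    (by exact (hF.1.sub g.continuous.measurable).norm.aestronglyMeasurable)] at hg
  set H : (Link d L → G) → ℝ := fun U => max (-B) (min B (g (p U))) with hH
  have cH : Continuous H := by fun_prop
  have bH := BM.of_continuous cH
  have key := rp_pos_all ρ μ hρ hb k cH fun U V h => by
    have : p U = p V := funext fun e => by
      simp only [hp]; split_ifs with he
      exacts [h e he, rfl]
    simp only [hH, this]
  set δ : (Link d L → G) → ℝ := fun U => ‖F (p U) - g (p U)‖ with hδ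
  have bδ : BM δ := ⟨((hF.1.sub g.continuous.measurable).comp cp.measurable).norm, B + ‖g‖,
    fun U => by
      rw [hδ, abs_norm]
      exact (norm_sub_le _ _).trans (add_le_add (hB _) (g.norm_coe_le_norm _))⟩
  have h1 : ∀ U, |F U - H U| ≤ δ U ∧ |H U| ≤ B := fun U => by
    have e : F (p U) = F U := hd _ _ fun e he => by simp [hp, he]
    have := abs_le.1 (hB U)
    simp only [hδ, hH, e, Real.norm_eq_abs, abs_le, max_def, min_def]
    have := le_abs_self (F U - g (p U))
    have := neg_abs_le (F U - g (p U))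
    split_ifs <;> refine ⟨⟨?_, ?_⟩, ?_, ?_⟩ <;> linarith
  have h2 : ∫ U, H U * H (refl k U) ∂(nu μ ρ d L b) ≤
      ∫ U, (F U * F (refl k U) + (B * δ U + B * δ (refl k U))) ∂(nu μ ρ d L b) := by
    refine integral_mono ((bH.mul (bH.comp mr.measurable)).int _)
      (((hF.mul (hF.comp mr.measurable)).add (((BM.const B).mul bδ).add
        ((BM.const B).mul (bδ.comp mr.measurable)))).int _) fun U => ?_
    have a1 := mul_le_mul (hB (refl k U)) (h1 U).1 (abs_nonneg _) B0
    have a2 := mul_le_mul (h1 U).2 (h1 (refl k U)).1 (abs_nonneg _) B0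
    rw [← abs_mul] at a1 a2
    have a3 := neg_abs_le (F (refl k U) * (F U - H U))
    have a4 := neg_abs_le (H U * (F (refl k U) - H (refl k U)))
    simp only
    linarith
  rw [integral_add ((hF.mul (hF.comp mr.measurable)).int _) ((((BM.const B).mul bδ).add
    ((BM.const B).mul (bδ.comp mr.measurable))).int _), integral_add (((BM.const B).mul bδ).int _)
    (((BM.const B).mul (bδ.comp mr.measurable)).int _), integral_const_mul, integral_const_mul,
    bδ.mp mr] at h2
  have h3 := mul_le_mul_of_nonneg_left hg (show 0 ≤ 2 * B by positivity)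
  have h4 : 2 * B * (ε / (2 * B + 1)) ≤ ε := by
    rw [← mul_div_assoc, div_le_iff₀ (by positivity)]; nlinarith
  linarith

theorem rp_ineq_meas (hρ : Continuous ρ) {b : ℝ} (hb : 0 ≤ b) (k : Fin d)
    {F₁ F₂ : (Link d L → G) → ℝ} (h₁ : BM F₁) (h₂ : BM F₂)
    (d₁ : Dep (L / 2) k F₁) (d₂ : Dep (L / 2) k F₂) :
    (∫ U, F₁ U * F₂ (refl k U) ∂(nu μ ρ d L b)) ^ 2 ≤
      (∫ U, F₁ U * F₁ (refl k U) ∂(nu μ ρ d L b)) * ∫ U, F₂ U * F₂ (refl k U) ∂(nu μ ρ d L b) :=
  BM.cs _ (nu_refl μ ρ hρ b k) (refl_refl k) h₁ h₂ fun t =>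
    rp_pos_meas ρ μ hρ hb k (((BM.const t).mul h₁).add h₂) fun U V h => by
      simp only [d₁ U V h, d₂ U V h]

theorem prod_third {m h : ℕ} [NeZero m] (hm : m = 2 * h + 1) (k : Fin d) (g : Site d m → ℝ)
    (hg : ∀ x, (x k).val = h → g x = 1) :
    ∏ x, g x = (∏ x with (x k).val < h, g x) * ∏ x with (x k).val < h, g (rc k x) := by
  rw [← Finset.prod_filter_mul_prod_filter_not Finset.univ fun x : Site d m => (x k).val < h]
  congr 1
  rw [← Finset.prod_subset (s₁ := Finset.univ.filter fun x : Site d m => h < (x k).val)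
    (fun x hx => by simp only [Finset.mem_filter, Finset.mem_univ, true_and] at hx ⊢; omega)
    fun x hx hx' => hg x (by
      simp only [Finset.mem_filter, Finset.mem_univ, true_and] at hx hx'; omega)]
  refine Finset.prod_nbij' (rc k) (rc k) (fun x hx => ?_) (fun x hx => ?_) (fun x _ => rc_rc k x)
    (fun x _ => rc_rc k x) fun x _ => by rw [rc_rc]
  · have := ZMod.val_lt (x k)
    simp only [Finset.mem_filter, Finset.mem_univ, true_and, rc_val] at hx ⊢
    omega
  · simp only [Finset.mem_filter, Finset.mem_univ, true_and, rc_val] at hx ⊢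
    omega

/-- chessboard estimate for patterns supported in a box of side `D` -/
theorem chess_lite (hρ : Continuous ρ) {b : ℝ} (hb : 0 ≤ b) {m : ℕ} [NeZero m] (hm : Odd m)
    {β : Type} (e : β) (r : Fin d → β → β) (re : ∀ k, r k e = e) (rr : ∀ k a, r k (r k a) = a)
    (f : β → Site d m → (Link d L → G) → ℝ) (hf : ∀ a x, BM (f a x)) (he : ∀ x U, f e x U = 1)
    (emb : Site d m → Site d L) (hs : ∀ a x y U, f a x (shift (emb y) U) = f a (x + y) U)
    (hr : ∀ a x k U, f a x (refl k U) = f (r k a) (rc k x) U)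
    (hd : ∀ a x k, (x k).val < m / 2 → Dep (L / 2) k (f a x))
    (w : β → ℝ) (w0 : ∀ a, 0 < w a) (we : w e = 1) (wr : ∀ k a, w (r k a) = w a) {C : ℝ}
    (hC : 0 ≤ C) (hM : ∀ σ : Site d m → β,
      |∫ U, ∏ x, f (σ x) x U ∂(nu μ ρ d L b)| ≤ Real.exp (C * m ^ d) * ∏ x, w (σ x))
    (D : ℕ) (x₀ : Site d m) (σ : Site d m → β) (hσ : ∀ x k, D ≤ ((x - x₀) k).val → σ x = e) :
    |∫ U, ∏ x, f (σ x) x U ∂(nu μ ρ d L b)| ≤ Real.exp (C * (4 * D) ^ d) * ∏ x, w (σ x) := by
  have := nu_prob (d := d) (L := L) μ ρ hρ b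
  obtain ⟨h, hm⟩ := hm
  by_cases hD : m ≤ 4 * D
  · refine (hM σ).trans (mul_le_mul_of_nonneg_right (Real.exp_le_exp.2 ?_)
      (Finset.prod_nonneg fun x _ => (w0 _).le))
    gcongr
    exact_mod_cast hD
  obtain ⟨s, s1, s2⟩ : ∃ s, D + 2 ^ s ≤ h + 1 ∧ m ≤ 4 * (2 * 2 ^ s) := by
    have a1 := Nat.pow_log_le_self 2 (x := h + 1 - D) (by omega)
    have a2 := Nat.lt_pow_succ_log_self one_lt_two (h + 1 - D)
    rw [pow_succ'] at a2
    exact ⟨Nat.log 2 (h + 1 - D), by omega, by omega⟩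
  set g : β → Site d m → (Link d L → G) → ℝ := fun a x U => f a x U * (w a)⁻¹ with hg
  have bg : ∀ a x, BM (g a x) := fun a x => (hf a x).mul (BM.const _)
  have eg : ∀ σ : Site d m → β, |∫ U, ∏ x, g (σ x) x U ∂(nu μ ρ d L b)| =
      |∫ U, ∏ x, f (σ x) x U ∂(nu μ ρ d L b)| / ∏ x, w (σ x) := fun σ => by
    simp only [hg, Finset.prod_mul_distrib, integral_mul_const, Finset.prod_inv_distrib, abs_mul]
    rw [abs_inv, abs_of_pos (Finset.prod_pos fun x _ => w0 _), div_eq_mul_inv]
  have sh : ∀ (σ : Site d m → β) a, |∫ U, ∏ x, g (σ (x + a)) x U ∂(nu μ ρ d L b)| =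
      |∫ U, ∏ x, g (σ x) x U ∂(nu μ ρ d L b)| := fun σ a => by
    rw [← (BM.prod _ fun x => bg (σ (x + a)) x).mp (nu_shift μ ρ hρ b (emb a))]
    simp only [hg, hs]
    congr 2
    funext U
    exact Equiv.prod_comp (Equiv.addRight a) fun x => f (σ x) x U * (w (σ x))⁻¹
  have key := chess_lite_abs e r re rr hm (fun σ => |∫ U, ∏ x, g (σ x) x U ∂(nu μ ρ d L b)|)
    (fun _ => abs_nonneg _) sh (fun σ k hσ => ?_) (by simp [hg, he, we])
    (M := Real.exp (C * m ^ d)) (Real.one_le_exp (by positivity))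
    (fun σ => by rw [eg, div_le_iff₀ (Finset.prod_pos fun x _ => w0 _)]; exact hM σ) s1
    (fun x => σ (x + x₀)) fun x k hx => hσ _ k (by simpa using hx)
  · rw [sh, eg, div_le_iff₀ (Finset.prod_pos fun x _ => w0 _), ← Real.exp_mul] at key
    refine key.trans (mul_le_mul_of_nonneg_right (Real.exp_le_exp.2 ?_)
      (Finset.prod_nonneg fun x _ => (w0 _).le))
    rw [mul_assoc, ← mul_pow]
    refine mul_le_mul_of_nonneg_left (pow_le_pow_left₀ (by positivity) ?_ _) hC
    rw [← mul_div_assoc, div_le_iff₀ (by positivity), mul_right_comm]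
    gcongr
    exact_mod_cast s2
  · have e1 : ∀ (τ τ' : Site d m → β) U, (∏ x with (x k).val < h, g (τ x) x U) *
        (∏ x with (x k).val < h, g (τ' x) x (refl k U)) =
        ∏ x, g (sy e (r k) h k τ τ' x) x U := by
      intro τ τ' U
      rw [prod_third hm k _ fun x hx => by simp [sy, hx, hg, he, we]]
      congr 1
      · refine Finset.prod_congr rfl fun x hx => ?_
        rw [sy, if_pos (Finset.mem_filter.mp hx).2]
      · refine Finset.prod_congr rfl fun x hx => ?_
        have := (Finset.mem_filter.mp hx).2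
        rw [sy, if_neg (by rw [rc_val]; omega), if_neg (by rw [rc_val]; omega), rc_rc]
        simp only [hg, hr, wr]
    have dA : ∀ τ : Site d m → β, Dep (L / 2) k fun U => ∏ x with (x k).val < h, g (τ x) x U :=
      fun τ U V hUV => Finset.prod_congr rfl fun x hx => by
        simp only [hg, hd _ x k (by have := (Finset.mem_filter.mp hx).2; omega) U V hUV]
    have := rp_ineq_meas ρ μ hρ hb k (BM.prod _ fun x => bg _ x) (BM.prod _ fun x => bg _ x) (dA σ)
      (dA fun x => r k (σ (rc k x)))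
    simp only [e1] at this
    have e2 : sy e (r k) h k σ (fun x => r k (σ (rc k x))) = σ := by
      funext x
      simp only [sy, rc_rc, rr]
      split_ifs with h1 h2
      exacts [rfl, (hσ x h2).symm, rfl]
    rw [e2] at this
    rw [sq_abs, ← abs_mul]
    exact this.trans (le_abs_self _)

/-- corner of the cell of side `lam` with label `y` -/
def corner {m : ℕ} (lam : ℕ) (y : Site d m) : Site d L := fun k => ((lam * (y k).val : ℕ) : ZMod L)

theorem corner_int {m lam : ℕ} [NeZero m] (hL : L = m * lam) (x : ZMod m) (t : ℤ) (h : x = t) :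
    ((lam * x.val : ℕ) : ZMod L) = ((lam * t : ℤ) : ZMod L) := by
  rw [← Int.cast_natCast, ZMod.intCast_eq_intCast_iff_dvd_sub, hL]
  push_cast
  rw [← mul_sub, mul_comm]
  exact mul_dvd_mul_left _ ((ZMod.intCast_eq_intCast_iff_dvd_sub _ _ _).1 (by simpa using h))

theorem corner_add {m lam : ℕ} [NeZero m] (hL : L = m * lam) (x y : Site d m) :
    (corner lam (x + y) : Site d L) = corner lam x + corner lam y := by
  funext k
  rw [corner, corner_int hL _ ((x k).val + (y k).val) (by simp)]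
  simp [corner, mul_add]

theorem corner_rc {m lam : ℕ} [NeZero m] (hL : L = m * lam) (k : Fin d) (x : Site d m) :
    (Pi.single k (lam : ZMod L) + corner lam (rc k x) : Site d L) = rf k (corner lam x) := by
  funext l
  by_cases hl : l = k
  · subst hl
    rw [Pi.add_apply, corner, corner_int hL _ (-(x l).val - 1) (by simp [rc, rf])]
    simp [corner, rf, mul_sub]
  · simp [corner, rf, hl, rc_ne hl]

theorem shift_shift (a c : Site d L) (U : Link d L → G) : shift a (shift c U) = shift (a + c) U := by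
  funext e; simp only [shift, add_assoc]

theorem shift_refl (k : Fin d) (a : Site d L) (U : Link d L → G) :
    shift a (refl k U) = refl k (shift (rf k a) U) := by
  funext e
  by_cases h : e.2 = k <;> simp [shift, refl, rl, h, rc, rf_add, sub_add_eq_add_sub]

/-- the same for translates of observables of the cell at the origin -/
theorem chess_cell (hρ : Continuous ρ) {b : ℝ} (hb : 0 ≤ b) {m lam : ℕ} [NeZero m] (hm : Odd m)
    (hL : L = m * lam) {β : Type} (e : β) (r : Fin d → β → β) (re : ∀ k, r k e = e)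
    (rr : ∀ k a, r k (r k a) = a) (O : β → (Link d L → G) → ℝ) (hO : ∀ a, BM (O a))
    (he : ∀ U, O e U = 1)
    (hr : ∀ a k U, O (r k a) U = O a (refl k (shift (Pi.single k (lam : ZMod L)) U)))
    (hd : ∀ a U V, (∀ l, (∀ k, half lam k l) → U l = V l) → O a U = O a V)
    (w : β → ℝ) (w0 : ∀ a, 0 < w a) (we : w e = 1) (wr : ∀ k a, w (r k a) = w a) {C : ℝ}
    (hC : 0 ≤ C) (hM : ∀ σ : Site d m → β, |∫ U, ∏ x, O (σ x) (shift (corner lam x) U)
      ∂(nu μ ρ d L b)| ≤ Real.exp (C * m ^ d) * ∏ x, w (σ x))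
    (D : ℕ) (x₀ : Site d m) (σ : Site d m → β) (hσ : ∀ x k, D ≤ ((x - x₀) k).val → σ x = e) :
    |∫ U, ∏ x, O (σ x) (shift (corner lam x) U) ∂(nu μ ρ d L b)| ≤
      Real.exp (C * (4 * D) ^ d) * ∏ x, w (σ x) := by
  refine chess_lite ρ μ hρ hb hm e r re rr (fun a x U => O a (shift (corner lam x) U))
    (fun a x => (hO a).comp (continuous_shift _).measurable) (fun _ _ => he _) (corner lam)
    (fun a x y U => by rw [shift_shift, corner_add hL])
    (fun a x k U => by rw [hr, shift_shift, corner_rc hL, shift_refl])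
    (fun a x k hx U V h => hd _ _ _ fun l hl => h _ ?_) w w0 we wr hC hM D x₀ σ hσ
  obtain ⟨h1, h2⟩ := hl k
  have a1 : lam * ((x k).val + 1) ≤ lam * (m / 2) := Nat.mul_le_mul_left _ hx
  have a2 : 2 * (lam * (m / 2)) ≤ L := by
    rw [hL, mul_left_comm, mul_comm m]; exact Nat.mul_le_mul_left _ (Nat.mul_div_le m 2)
  have a3 := NeZero.pos L
  rw [mul_add_one] at a1
  have a4 : ((l.1 + corner lam x : Site d L) k).val = (l.1 k).val + lam * (x k).val := by
    rw [Pi.add_apply, corner, ← ZMod.natCast_zmod_val (l.1 k), ← Nat.cast_add,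
      ZMod.val_cast_of_lt (by omega), ZMod.natCast_zmod_val]
  exact ⟨by simp only [a4]; omega, fun h => by have := h2 h; simp only [a4]; omega⟩

end Pool.Agent.Lib.MP_7f377f_mp.Weak
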