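import Mathlib

/-! The Garding-Wightman axioms on two dimensional Minkowski space times a torus: fields
`φ (h, f)` with a profile `h` in the compact directions and a test function `f` on the plane. -/

noncomputable section

namespace Pool.Agent.Lib.MP_7f377f_mp.WA2

open MeasureTheory Filter Topology Complex

/-- the plane -/
abbrev M2 : Type := EuclideanSpace ℝ (Fin 2)

/-- real matrices -/
abbrev Mat : Type := Matrix (Fin 2) (Fin 2) ℝ

/-- Schwartz test functions -/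
abbrev Tf : Type := SchwartzMap M2 ℂ

/-- the Minkowski product -/
def mink (x y : M2) : ℝ := x 0 * y 0 - x 1 * y 1

/-- matrices act on vectors -/
def act (L : Mat) (x : M2) : M2 := WithLp.toLp 2 (L.mulVec x)

/-- proper orthochronous Lorentz matrices -/
def Lor (L : Mat) : Prop := (∀ x y, mink (act L x) (act L y) = mink x y) ∧ L.det = 1 ∧ 0 < L 0 0

/-- the forward tube: the imaginary parts of the differences lie in the open forward cone -/
def Tube (n : ℕ) : Set (Fin n → Fin 2 → ℂ) := {z | ∀ i j, i < j → ∀ y : M2,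
  (∀ μ, y μ = (z j μ - z i μ).im) → 0 < y 0 ∧ 0 < mink y y}

/-- continuously differentiable functions with compact support -/
def Cc (h : M2 → ℝ) : Prop := HasCompactSupport h ∧ ContDiff ℝ 1 h

variable {H : Type} [NormedAddCommGroup H] [InnerProductSpace ℂ H]

/-- commuting strongly continuous unitary representations `U` of the Poincare group and `V` of the
torus of side `m` with an invariant unit vector `Ω`; on the orthogonal complement of `Ω`, which is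
not zero, the spectrum of the translations lies in `p 0 > 0`, `p ^ 2 ≥ Δ ^ 2` -/
def Poin (m Δ : ℝ) (U : M2 → Mat → H →L[ℂ] H) (V : M2 → H →L[ℂ] H) (Ω : H) : Prop :=
  (∀ a L, Lor L → Function.Surjective (U a L) ∧ (∀ x, ‖U a L x‖ = ‖x‖) ∧ U a L Ω = Ω ∧
    (∀ b M x, Lor M → U a L (U b M x) = U (a + act L b) (L * M) x) ∧
    ∀ v x, U a L (V v x) = V v (U a L x)) ∧
  (∀ v, (∀ x, ‖V v x‖ = ‖x‖) ∧ V v Ω = Ω ∧ (∀ u x, V v (V u x) = V (v + u) x) ∧
    ((∀ i, ∃ k : ℤ, v i = m * k) → V v = 1)) ∧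
  (∀ x, ContinuousOn (fun p : M2 × Mat => U p.1 p.2 x) {p | Lor p.2} ∧ (Continuous fun v => V v x) ∧
    (inner ℂ Ω x = 0 → ∃ μ : Measure M2, IsFiniteMeasure μ ∧
      (∀ᵐ p ∂μ, 0 < p 0 ∧ Δ ^ 2 ≤ mink p p) ∧
      ∀ a, inner ℂ x (U a 1 x) = ∫ p, exp (I * mink a p) ∂μ)) ∧
  ‖Ω‖ = 1 ∧ ∃ x ≠ 0, inner ℂ Ω x = 0

/-- hermitian, covariant and mutually local Wightman fields on the domain `D` -/
def Wfield (U : M2 → Mat → H →L[ℂ] H) (V : M2 → H →L[ℂ] H) (Ω : H) (D : Submodule ℂ H)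
    (φ : (M2 → ℝ) × Tf → H → H) : Prop :=
  Ω ∈ D ∧ Dense (Submodule.span ℂ
    {x | ∃ l : List ((M2 → ℝ) × Tf), (∀ p ∈ l, Cc p.1) ∧ l.foldr φ Ω = x} : Set H) ∧
  ∀ x ∈ D, ∀ h f, Cc h → φ (h, f) x ∈ D ∧
    (∀ (t : ℂ) g, φ (h, t • f + g) x = t • φ (h, f) x + φ (h, g) x) ∧
    (∀ (t : ℝ) k, Cc k → φ (t • h + k, f) x = (t : ℂ) • φ (h, f) x + φ (k, f) x) ∧
    (∀ y ∈ D, (∀ t : ℂ, φ (h, f) (t • x + y) = t • φ (h, f) x + φ (h, f) y) ∧
      (Continuous fun g => inner ℂ y (φ (h, g) x)) ∧ ∀ g : Tf, (∀ u, g u = starRingEnd ℂ (f u)) →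
        inner ℂ y (φ (h, f) x) = inner ℂ (φ (h, g) y) x) ∧
    (∀ a L, Lor L → U a L x ∈ D ∧ ∀ g : Tf, (∀ u, g (a + act L u) = f u) →
      U a L (φ (h, f) x) = φ (h, g) (U a L x)) ∧
    (∀ v, V v x ∈ D ∧ V v (φ (h, f) x) = φ (fun u => h (u - v), f) (V v x)) ∧
    ∀ k (g : Tf), Cc k → (∀ u ∈ tsupport f, ∀ v ∈ tsupport g, mink (u - v) (u - v) < 0) →
      φ (h, f) (φ (k, g) x) = φ (k, g) (φ (h, f) x)

/-- the Euclidean values `S n h f` and the vacuum expectation values of the fields are the values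
at imaginary times and the boundary values of the same holomorphic functions -/
def Wrot (S : ∀ n, (Fin n → M2 → ℝ) → (Fin n → M2 → ℝ) → ℝ) (Ω : H)
    (φ : (M2 → ℝ) × Tf → H → H) : Prop :=
  ∀ n (h : Fin n → M2 → ℝ), (∀ i, Cc (h i)) →
    ∃ w : (Fin n → Fin 2 → ℂ) → ℂ, DifferentiableOn ℂ w (Tube n) ∧
    (∀ f : Fin n → M2 → ℝ, (∀ i, Cc (f i)) →
      (∀ i j, i < j → ∀ x ∈ tsupport (f i), ∀ y ∈ tsupport (f j), x 0 < y 0) →
      S n h f = ∫ y : Fin n → M2,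
        (∏ i, (f i (y i) : ℂ)) * w fun i μ => if μ = 0 then I * y i μ else y i μ) ∧
    ∀ (f : Fin n → Tf) (G : ℝ → (Fin n → M2) → ℂ),
      (∀ ε x, G ε x =
        (∏ i, f i (x i)) * w fun i μ => x i μ + if μ = 0 then I * ε * (i : ℕ) else 0) →
      (∀ ε > 0, Integrable (G ε)) ∧ Tendsto (fun ε => ∫ x, G ε x) (𝓝[>] 0)
        (𝓝 (inner ℂ Ω ((List.ofFn fun i => (h i, f i)).foldr φ Ω)))

/-- `S` is the Wick rotation of a Wightman theory with the mass gap `Δ` -/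
def Wightman (m Δ : ℝ) (S : ∀ n, (Fin n → M2 → ℝ) → (Fin n → M2 → ℝ) → ℝ) : Prop :=
  ∃ (H : Type) (_ : NormedAddCommGroup H) (_ : InnerProductSpace ℂ H) (_ : CompleteSpace H)
    (U : M2 → Mat → H →L[ℂ] H) (V : M2 → H →L[ℂ] H) (Ω : H) (D : Submodule ℂ H)
    (φ : (M2 → ℝ) × Tf → H → H), Poin m Δ U V Ω ∧ Wfield U V Ω D φ ∧ Wrot S Ω φ

end Pool.Agent.Lib.MP_7f377f_mp.WA2
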