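import Pool.Agent.Lib.MP_7f377f_mp.Lb0

/-! Algebra of the labels. -/

noncomputable section

namespace Pool.Agent.Lib.MP_7f377f_mp.Lb

set_option linter.unusedSectionVars false

open Finset Matrix YG
open scoped Kronecker

section ring

variable {K : Type} [CommRing K] {g h : M4 K} {a b c : Lab K}

theorem kk_tr (g : M4 K) : (g ⊗ₖ g)ᵀ = gᵀ ⊗ₖ gᵀ := (kroneckerMap_transpose ..).symm

theorem rho_mul (g h : M4 K) (c : Lab K) : rho (g * h) c = rho g (rho h c) := by
  simp only [rho, mul_kronecker_mul, transpose_mul, Matrix.mul_assoc]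

theorem rho_one (c : Lab K) : rho 1 c = c := by simp [rho]

/-- the action as a linear map -/
def rhoL (g : M4 K) : Lab K →ₗ[K] Lab K where
  toFun := rho g
  map_add' a b := by simp only [rho, Matrix.mul_add, Matrix.add_mul]
  map_smul' t a := by simp only [rho, Matrix.mul_smul, Matrix.smul_mul, RingHom.id_apply]

theorem rho_add : rho g (a + b) = rho g a + rho g b := (rhoL g).map_add a b

theorem rho_sub : rho g (a - b) = rho g a - rho g b := (rhoL g).map_sub a b

theorem rho_smul (t : K) : rho g (t • a) = t • rho g a := (rhoL g).map_smul t a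

theorem rho_zero : rho g 0 = 0 := (rhoL g).map_zero

theorem rho_tr : (rho g c)ᵀ = rho g cᵀ := by
  simp only [rho, transpose_mul, transpose_transpose, Matrix.mul_assoc]

theorem rho_apply (x y : Pl) :
    rho g c x y = ∑ u, ∑ v, g x.1 u.1 * g x.2 u.2 * (g y.1 v.1 * g y.2 v.2) * c u v := by
  simp only [rho, mul_apply, transpose_apply, kroneckerMap_apply, sum_mul]
  rw [sum_comm]
  exact sum_congr rfl fun _ _ => sum_congr rfl fun _ _ => by ring

theorem rho_map {K' : Type} [CommRing K'] (φ : K →+* K') :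
    (rho g c).map φ = rho (g.map φ) (c.map φ) := by
  ext x y
  simp [rho_apply]

theorem kk_orth (hg : gᵀ * g = 1) : (g ⊗ₖ g)ᵀ * g ⊗ₖ g = 1 := by
  rw [kk_tr, ← mul_kronecker_mul, hg, one_kronecker_one]

theorem rho_mul' (hg : gᵀ * g = 1) : rho g (a * b) = rho g a * rho g b := by
  simp only [rho, Matrix.mul_assoc]
  rw [← Matrix.mul_assoc _ (g ⊗ₖ g), kk_orth hg, Matrix.one_mul]

theorem rho_id (hg : gᵀ * g = 1) : rho g 1 = 1 := by
  rw [rho, Matrix.mul_one, mul_eq_one_comm.1 (kk_orth hg)]

theorem rho_inv (hg : gᵀ * g = 1) : rho gᵀ (rho g c) = c := by rw [← rho_mul, hg, rho_one]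

theorem ip_eq (a b : Lab K) : ip a b = (aᵀ * b).trace := by
  simp only [ip, trace, Matrix.diag, mul_apply, transpose_apply]
  exact sum_comm

theorem ip_comm (a b : Lab K) : ip a b = ip b a := by simp only [ip, mul_comm]

theorem ip_tr (a b : Lab K) : ip aᵀ bᵀ = ip a b := sum_comm

/-- the pairing as a bilinear map -/
def ipL : Lab K →ₗ[K] Lab K →ₗ[K] K := LinearMap.mk₂ K ip
  (fun _ _ _ => by simp [ip, add_mul, sum_add_distrib]) (fun _ _ _ => by simp [ip, mul_sum, mul_assoc])
  (fun _ _ _ => by simp [ip, mul_add, sum_add_distrib]) fun _ _ _ => by simp [ip, mul_sum, mul_left_comm]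

theorem ip_add : ip a (b + c) = ip a b + ip a c := (ipL a).map_add b c

theorem ip_sub : ip a (b - c) = ip a b - ip a c := (ipL a).map_sub b c

theorem ip_smul (t : K) : ip a (t • b) = t * ip a b := (ipL a).map_smul t b

theorem add_ip : ip (a + b) c = ip a c + ip b c := by simp only [ip_comm _ c, ip_add]

theorem sub_ip : ip (a - b) c = ip a c - ip b c := by simp only [ip_comm _ c, ip_sub]

theorem smul_ip (t : K) : ip (t • a) b = t * ip a b := by simp only [ip_comm _ b, ip_smul]

theorem ip_mul_left (x : Lab K) : ip a (x * b) = ip (xᵀ * a) b := by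
  simp only [ip_eq, transpose_mul, transpose_transpose, Matrix.mul_assoc]

theorem ip_mul_right (x : Lab K) : ip a (b * x) = ip (a * xᵀ) b := by
  rw [ip_eq, ip_eq, ← Matrix.mul_assoc, trace_mul_comm, transpose_mul, transpose_transpose,
    Matrix.mul_assoc]

theorem ip_rho' : ip a (rho g b) = ip (rho gᵀ a) b := by
  rw [rho, ip_mul_right, ip_mul_left, rho, ← kk_tr, Matrix.mul_assoc]

theorem ip_rho (hg : gᵀ * g = 1) : ip (rho g a) (rho g b) = ip a b := by rw [ip_rho', rho_inv hg]

theorem det_eps (g : M4 K) :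
    g.det = ∑ x : Pl, ∑ y : Pl, g 0 x.1 * g 1 x.2 * (g 2 y.1 * g 3 y.2) * eps x.1 x.2 y.1 y.2 := by
  simp only [Fintype.sum_prod_type, Fin.sum_univ_four, eps]
  simp [det_succ_row_zero, Fin.sum_univ_succ, Fin.succAbove, show Int.sign 2 = 1 from rfl,
    show Int.sign 3 = 1 from rfl]
  ring

theorem det_sq (hg : gᵀ * g = 1) : g.det * g.det = 1 := by
  simpa using congrArg det hg

end ring

variable {K : Type} [Field K] [CharZero K] {g : M4 K} {a b c : Lab K}

theorem an_mul (c : Lab K) (x y : Pl) : (an * c : Lab K) x y = 2⁻¹ * (c x y - c x.swap y) := by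
  simp [an, mul_apply, mul_assoc, ← mul_sum, sub_mul, ← Prod.swap_eq_iff_eq_swap]

theorem an_tr : (an : Lab K)ᵀ = an := by
  ext x y
  simp only [an, transpose_apply, of_apply, eq_comm (a := y), Prod.swap_eq_iff_eq_swap]

theorem mul_an (c : Lab K) (x y : Pl) : (c * an : Lab K) x y = 2⁻¹ * (c x y - c x y.swap) := by
  rw [← an_tr, ← transpose_transpose c, ← transpose_mul]
  exact an_mul ..

theorem an_an : (an : Lab K) * an = an := by
  ext x y
  rw [an_mul]
  simp only [an, of_apply, Prod.swap_eq_iff_eq_swap, Prod.swap_swap]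
  ring

theorem hs_tr : (hs : Lab K)ᵀ = hs := by
  have : ∀ x y : Pl, eps y.1 y.2 x.1 x.2 = eps x.1 x.2 y.1 y.2 := by decide +kernel
  ext x y
  simp only [hs, transpose_apply, of_apply, this]

theorem an_hs : (an : Lab K) * hs = hs := by
  have : ∀ x y : Pl, eps x.2 x.1 y.1 y.2 = -eps x.1 x.2 y.1 y.2 := by decide +kernel
  ext x y
  simp only [an_mul, hs, of_apply, Prod.fst_swap, Prod.snd_swap, this x y]
  push_cast
  ring

theorem hs_an : (hs : Lab K) * an = hs := by
  simpa only [transpose_mul, hs_tr, an_tr] using congrArg transpose (an_hs (K := K))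

theorem hs_hs : (hs : Lab K) * hs = an := by
  have : ∀ x y : Pl, ∑ u : Pl, eps x.1 x.2 u.1 u.2 * eps u.1 u.2 y.1 y.2 =
      2 * ((if x = y then 1 else 0) - if x = y.swap then 1 else 0) := by decide +kernel
  ext x y
  have := congrArg (Int.cast (R := K)) (this x y)
  push_cast at this
  simp only [hs, an, mul_apply, of_apply, mul_mul_mul_comm _ _ (2⁻¹ : K), ← mul_sum, this]
  field_simp

theorem tr_an : (an : Lab K).trace = 6 := by
  simp [trace, an, Fintype.sum_prod_type, Fin.sum_univ_four]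
  norm_num

theorem tr_hs : (hs : Lab K).trace = 0 := by simp [trace, hs, eps]

theorem ip_an (c : Lab K) : ip an c = (an * c).trace := by rw [ip_eq, an_tr]

theorem ip_hs (c : Lab K) : ip hs c = (hs * c).trace := by rw [ip_eq, hs_tr]

theorem kk_an (g : M4 K) : g ⊗ₖ g * an = an * g ⊗ₖ g := by
  ext x y
  refine (mul_an ..).trans (.trans ?_ (an_mul ..).symm)
  simp only [kroneckerMap_apply, Prod.fst_swap, Prod.snd_swap]
  ring

theorem rho_an (hg : gᵀ * g = 1) : rho g an = an := by
  rw [rho, kk_an, Matrix.mul_assoc, mul_eq_one_comm.1 (kk_orth hg), Matrix.mul_one]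

theorem rho_hs (g : M4 K) : rho g hs = g.det • hs := by
  ext x y
  have h1 := det_eps (g.submatrix ![x.1, x.2, y.1, y.2] id)
  have h2 := det_eps ((1 : M4 K).submatrix ![x.1, x.2, y.1, y.2] id)
  have h3 : g.submatrix ![x.1, x.2, y.1, y.2] id =
      (1 : M4 K).submatrix ![x.1, x.2, y.1, y.2] id * g := by
    rw [← submatrix_id_id g, ← submatrix_mul _ _ _ _ _ Function.bijective_id, Matrix.one_mul,
      submatrix_id_id]
  rw [h3, det_mul, h2, ← h3] at h1
  simp only [submatrix_apply, Matrix.cons_val, id] at h1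
  simp only [rho_apply, hs, of_apply, Matrix.smul_apply, smul_eq_mul, mul_left_comm _ (2⁻¹ : K),
    ← mul_sum, ← h1, mul_comm g.det]
  simp [one_apply, Fintype.sum_prod_type]

theorem sy_tr : (sy c)ᵀ = sy c := by simp [sy, add_comm]

theorem sy_of (h : cᵀ = c) : sy c = c := by
  rw [sy, h, ← two_smul K, smul_smul, inv_mul_cancel₀ two_ne_zero, one_smul]

theorem sy_c0 : sy (c0 : Lab K) = c0 := sy_of (by simp [c0])

theorem sy_rho : sy (rho g c) = rho g (sy c) := by simp only [sy, rho_tr, rho_smul, rho_add]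

theorem rho_c0 (hg : gᵀ * g = 1) : rho g c0 = c0 := by rw [c0, rho_smul, rho_id hg]

/-- the projection as a linear map -/
def paL : Lab K →ₗ[K] Lab K where
  toFun := pa
  map_add' a b := by
    simp only [pa, sy, transpose_add, add_add_add_comm a b, smul_add, Matrix.mul_add, Matrix.add_mul]
  map_smul' t a := by
    simp only [pa, sy, transpose_smul, ← smul_add, smul_comm _ t, Matrix.mul_smul, Matrix.smul_mul,
      RingHom.id_apply]

theorem pa_add : pa (a + b) = pa a + pa b := paL.map_add a b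

theorem pa_sub : pa (a - b) = pa a - pa b := paL.map_sub a b

theorem pa_smul (t : K) : pa (t • a) = t • pa a := paL.map_smul t a

theorem pa_tr : (pa c)ᵀ = pa c := by
  simp only [pa, transpose_mul, an_tr, sy_tr, Matrix.mul_assoc]

theorem an_pa : an * pa c = pa c := by simp only [pa, ← Matrix.mul_assoc, an_an]

theorem pa_an : pa c * an = pa c := by simp only [pa, Matrix.mul_assoc, an_an]

theorem pa_of (h : cᵀ = c) (h' : an * c = c) : pa c = c := by
  rw [pa, sy_of h, h', ← h, ← an_tr, ← transpose_mul, h']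

theorem pa_pa : pa (pa c) = pa c := pa_of pa_tr an_pa

theorem pa_an' : pa (an : Lab K) = an := pa_of an_tr an_an

theorem pa_hs : pa (hs : Lab K) = hs := pa_of hs_tr an_hs

theorem pa_c0 : pa (c0 : Lab K) = (2⁻¹ : K) • an := by simp [pa, sy_c0, c0, an_an, ← sy_c0, sy, smul_smul, ← two_smul K]

theorem pa_conj : pa (hs * pa c * hs) = hs * pa c * hs :=
  pa_of (by simp only [transpose_mul, hs_tr, pa_tr, Matrix.mul_assoc])
    (by simp only [← Matrix.mul_assoc, an_hs])

theorem pa_rho (hg : gᵀ * g = 1) : pa (rho g c) = rho g (pa c) := by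
  simp only [pa, rho_mul' hg, rho_an hg, sy_rho]

theorem ip_pa : ip a (pa b) = ip (pa a) b := by
  have : ∀ a b : Lab K, ip a (sy b) = ip (sy a) b := fun a b => by
    rw [sy, sy, ip_smul, smul_ip, ip_add, add_ip, ← ip_tr a bᵀ, transpose_transpose]
  rw [pa, pa, ip_mul_right, ip_mul_left, an_tr, this]
  simp only [sy, transpose_mul, an_tr, Matrix.mul_smul, Matrix.smul_mul, Matrix.mul_add,
    Matrix.add_mul, Matrix.mul_assoc]

theorem sum_pc (c : Lab K) : ∑ l, pc l c = pa c := by
  rw [show (univ : Finset Cl) = {.s, .q, .t, .w} from rfl]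
  simp only [mem_insert, reduceCtorEq, mem_singleton, or_self, not_false_eq_true, sum_insert,
    sum_singleton, pc]
  module

theorem pa_pc (l : Cl) : pa (pc l c) = pc l c := by
  cases l <;> simp only [pc, pa_smul, pa_sub, pa_add, pa_pa, pa_conj, pa_an', pa_hs]

theorem pc_pa (l : Cl) : pc l (pa c) = pc l c := by
  cases l <;> simp only [pc, ip_pa, pa_pa, pa_an', pa_hs]

/-- the projections as linear maps -/
def pcL (l : Cl) : Lab K →ₗ[K] Lab K where
  toFun := pc l
  map_add' a b := by
    cases l <;> simp only [pc, ip_add, pa_add, Matrix.mul_add, Matrix.add_mul] <;> module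
  map_smul' t a := by
    cases l <;> simp only [pc, ip_smul, pa_smul, Matrix.mul_smul, Matrix.smul_mul, RingHom.id_apply] <;>
      module

theorem pc_add (l : Cl) : pc l (a + b) = pc l a + pc l b := (pcL l).map_add a b

theorem pc_sub (l : Cl) : pc l (a - b) = pc l a - pc l b := (pcL l).map_sub a b

theorem pc_smul (l : Cl) (t : K) : pc l (t • a) = t • pc l a := (pcL l).map_smul t a

theorem pc_rho (hg : gᵀ * g = 1) (l : Cl) : pc l (rho g c) = rho g (pc l c) := by
  have h1 : ip an (rho g c) = ip an c := by rw [← rho_an hg, ip_rho hg, rho_an hg]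
  have h2 : ip hs (rho g c) = g.det * ip hs c := by rw [ip_rho', rho_hs, smul_ip, det_transpose]
  have h3 : g.det * ip hs c / 6 = ip hs c / 6 * g.det := by ring
  have h4 : hs * rho g (pa c) * hs = rho g (hs * pa c * hs) := by
    simp only [rho_mul' hg, rho_hs, Matrix.smul_mul, Matrix.mul_smul, smul_smul, det_sq hg, one_smul]
  cases l <;> simp only [pc, h1, h2, h3, h4, rho_smul, rho_sub, rho_add, rho_an hg, rho_hs, smul_smul,
    pa_rho hg]

theorem ip_pc (l : Cl) : ip a (pc l b) = ip (pc l a) b := by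
  have : ip a (hs * pa b * hs) = ip (hs * pa a * hs) b := by
    rw [ip_mul_right, ip_mul_left, ip_pa, hs_tr]
    simp only [pa, sy, transpose_mul, hs_tr, Matrix.mul_smul, Matrix.smul_mul, Matrix.mul_add,
      Matrix.add_mul, Matrix.mul_assoc, hs_an]
    simp only [← Matrix.mul_assoc, an_hs, hs_an]
  cases l <;> simp only [pc, ip_smul, smul_ip, ip_sub, sub_ip, ip_add, add_ip, ip_pa, this,
    ip_comm a an, ip_comm a hs] <;> ring

theorem pc_pc (l l' : Cl) : pc l (pc l' c) = if l = l' then pc l c else 0 := by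
  have h1 : ip an (pa c) = ip an c := by rw [ip_pa, pa_an']
  have h2 : ip hs (pa c) = ip hs c := by rw [ip_pa, pa_hs]
  have h3 : ip an (hs * pa c * hs) = ip an c := by
    rw [ip_mul_right, ip_mul_left, hs_tr, an_hs, hs_hs, h1]
  have h4 : ip hs (hs * pa c * hs) = ip hs c := by
    rw [ip_mul_right, ip_mul_left, hs_tr, hs_hs, hs_an, h2]
  have h5 : hs * (hs * pa c * hs) * hs = pa c := by
    simp only [← Matrix.mul_assoc, hs_hs, an_pa]
    rw [Matrix.mul_assoc, hs_hs, pa_an]
  have h6 : ip (an : Lab K) an = 6 := by rw [ip_an, an_an, tr_an]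
  have h7 : ip (hs : Lab K) hs = 6 := by rw [ip_hs, hs_hs, tr_an]
  have h8 : ip (an : Lab K) hs = 0 := by rw [ip_an, an_hs, tr_hs]
  have h9 : ip (hs : Lab K) an = 0 := by rw [ip_comm, h8]
  cases l <;> cases l' <;> simp only [pc, pa_smul, pa_sub, pa_add, pa_pa, pa_conj, pa_an', pa_hs,
    ip_smul, ip_sub, ip_add, h1, h2, h3, h4, h5, h6, h7, h8, h9, Matrix.mul_smul, Matrix.smul_mul,
    Matrix.mul_add, Matrix.add_mul, Matrix.mul_sub, Matrix.sub_mul, hs_an, hs_hs, an_hs, reduceCtorEq,
    if_true, if_false] <;> match_scalars <;> ring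

theorem mx_mulVec (R : R4 ≃ₗᵢ[ℝ] R4) (y : R4) (i : Fin 4) : R y i = ∑ j, mx R i j * y j := by
  conv_lhs => rw [← (EuclideanSpace.basisFun (Fin 4) ℝ).sum_repr y]
  simp [mx, mul_comm]

theorem mx_orth (R : R4 ≃ₗᵢ[ℝ] R4) : (mx R)ᵀ * mx R = 1 := by
  ext i j
  have := R.inner_map_map (EuclideanSpace.single j 1) (EuclideanSpace.single i 1)
  rw [EuclideanSpace.inner_single_left, PiLp.inner_apply] at this
  simpa [mx, mul_apply, one_apply, eq_comm] using this

end Pool.Agent.Lib.MP_7f377f_mp.Lb
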