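import Pool.Agent.Lib.MP_7f377f_mp.RGHol1

/-! Decoupling of two far apart regions under small local perturbations of a product measure,
in the form with four configurations. -/

noncomputable section

namespace Pool.Agent.Lib.MP_7f377f_mp.H3

open Finset MeasureTheory
open scoped ENNReal

section pw

variable {ι Z : Type}

open Classical in
/-- take `z` on `A` and `u` elsewhere -/
def pw (A : Set ι) (z u : ι → Z) : ι → Z := fun i => if i ∈ A then z i else u i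

theorem pw_in {A : Set ι} (z u : ι → Z) {i : ι} (h : i ∈ A) : pw A z u i = z i := if_pos h

theorem pw_out {A : Set ι} (z u : ι → Z) {i : ι} (h : i ∉ A) : pw A z u i = u i := if_neg h

theorem pw_mem {A : Set ι} {K : Set Z} {z u : ι → Z} (hz : ∀ i, z i ∈ K) (hu : ∀ i, u i ∈ K)
    (i : ι) : pw A z u i ∈ K := by
  by_cases h : i ∈ A
  · rw [pw_in _ _ h]; exact hz i
  · rw [pw_out _ _ h]; exact hu i

variable [MeasurableSpace Z]

theorem measurable_pw (A : Set ι) : Measurable fun p : (ι → Z) × (ι → Z) => pw A p.1 p.2 :=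
  measurable_pi_lambda _ fun i => by
    by_cases h : i ∈ A
    · simp only [pw_in _ _ h]; fun_prop
    · simp only [pw_out _ _ h]; fun_prop

theorem measurable_pw' (A : Set ι) (z : ι → Z) : Measurable fun u : ι → Z => pw A z u :=
  (measurable_pw A).comp (measurable_prodMk_left (x := z))

variable [Fintype ι] (ν : Measure Z) [IsProbabilityMeasure ν]

theorem mp_pw (A : Set ι) :
    MeasurePreserving (fun p : (ι → Z) × (ι → Z) => pw A p.1 p.2)
      ((Measure.pi fun _ => ν).prod (Measure.pi fun _ => ν)) (Measure.pi fun _ => ν) := by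
  classical
  refine ⟨measurable_pw A, (Measure.pi_eq fun s hs => ?_).symm⟩
  rw [Measure.map_apply (measurable_pw A) (MeasurableSet.univ_pi hs)]
  have : (fun p : (ι → Z) × (ι → Z) => pw A p.1 p.2) ⁻¹' Set.univ.pi s =
      (Set.univ.pi fun i => if i ∈ A then s i else Set.univ) ×ˢ
        Set.univ.pi fun i => if i ∈ A then Set.univ else s i := by
    ext p
    simp only [Set.mem_preimage, Set.mem_pi, Set.mem_univ, forall_true_left, Set.mem_prod,
      ← forall_and]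
    refine forall_congr' fun i => ?_
    by_cases h : i ∈ A
    · simp [pw_in _ _ h, h]
    · simp [pw_out _ _ h, h]
  rw [this, Measure.prod_prod, Measure.pi_pi, Measure.pi_pi, ← prod_mul_distrib]
  refine prod_congr rfl fun i _ => ?_
  by_cases h : i ∈ A <;> simp [h]

theorem lint_pw (A : Set ι) {G : (ι → Z) → ℝ≥0∞} (hG : Measurable G) :
    ∫⁻ z, ∫⁻ u, G (pw A z u) ∂(Measure.pi fun _ => ν) ∂(Measure.pi fun _ => ν) =
      ∫⁻ z, G z ∂Measure.pi fun _ => ν := by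
  rw [← (mp_pw ν A).lintegral_comp hG]
  exact (lintegral_prod _ (hG.comp (measurable_pw A)).aemeasurable).symm

theorem lint_indep (A : Set ι) {G H : (ι → Z) → ℝ≥0∞} (hG : Measurable G) (hH : Measurable H)
    (dG : ∀ z u, G (pw A z u) = G z) (dH : ∀ z u, H (pw A z u) = H u) :
    ∫⁻ z, G z * H z ∂(Measure.pi fun _ => ν) =
      (∫⁻ z, G z ∂Measure.pi fun _ => ν) * ∫⁻ z, H z ∂Measure.pi fun _ => ν := by
  rw [← lint_pw ν A (hG.fun_mul hH)]
  simp only [dG, dH]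
  simp only [lintegral_const_mul _ hH]
  rw [lintegral_mul_const _ hG]

theorem ae_mem {K : Set Z} (hK : ∀ᵐ x ∂ν, x ∈ K) :
    ∀ᵐ z ∂(Measure.pi fun _ : ι => ν), ∀ i, z i ∈ K :=
  ae_all_iff.2 fun i => (measurePreserving_eval (fun _ : ι => ν) i).quasiMeasurePreserving.ae hK

end pw

section int

variable {Ω : Type} [MeasurableSpace Ω] (P : Measure Ω)

theorem one_int {a b : ℝ≥0∞} {p q : Ω → ℝ≥0∞} (hp : Measurable p) (hq : Measurable q)
    (h : ∀ᵐ u ∂P, a * p u ≤ b * q u) : a * ∫⁻ u, p u ∂P ≤ b * ∫⁻ u, q u ∂P := by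
  rw [← lintegral_const_mul _ hp, ← lintegral_const_mul _ hq]
  exact lintegral_mono_ae h

theorem four_int {G : Set Ω} (hG : ∀ᵐ u ∂P, u ∈ G) {t : ℝ≥0∞}
    {f f0 f1 f2 g g0 g1 g2 : Ω → ℝ≥0∞} (mf : Measurable f) (mf0 : Measurable f0)
    (mf1 : Measurable f1) (mf2 : Measurable f2) (mg : Measurable g) (mg0 : Measurable g0)
    (mg1 : Measurable g1) (mg2 : Measurable g2)
    (h : ∀ u ∈ G, ∀ u0 ∈ G, ∀ u1 ∈ G, ∀ u2 ∈ G, t * (f1 u1 * f2 u2) ≤ f u * f0 u0) :
    t * ((∫⁻ u, f1 u * g1 u ∂P) * ∫⁻ u, f2 u * g2 u ∂P) * ((∫⁻ u, g u ∂P) * ∫⁻ u, g0 u ∂P) ≤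
      (∫⁻ u, f u * g u ∂P) * (∫⁻ u, f0 u * g0 u ∂P) * ((∫⁻ u, g1 u ∂P) * ∫⁻ u, g2 u ∂P) := by
  have s1 : ∀ u ∈ G, ∀ u0 ∈ G, ∀ u2 ∈ G,
      t * f2 u2 * ∫⁻ u, f1 u * g1 u ∂P ≤ f u * f0 u0 * ∫⁻ u, g1 u ∂P := fun u hu u0 h0 u2 h2 =>
    one_int P (mf1.fun_mul mg1) mg1 (hG.mono fun u1 h1 =>
      le_trans (le_of_eq (by ring)) (mul_le_mul_left (h u hu u0 h0 u1 h1 u2 h2) (g1 u1)))
  have s2 : ∀ u ∈ G, ∀ u0 ∈ G,
      t * (∫⁻ u, f1 u * g1 u ∂P) * ∫⁻ u, f2 u * g2 u ∂P ≤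
        f u * f0 u0 * (∫⁻ u, g1 u ∂P) * ∫⁻ u, g2 u ∂P := fun u hu u0 h0 =>
    one_int P (mf2.fun_mul mg2) mg2 (hG.mono fun u2 h2 =>
      le_trans (le_of_eq (by ring)) (mul_le_mul_left (s1 u hu u0 h0 u2 h2) (g2 u2)))
  have s3 : ∀ u0 ∈ G,
      t * (∫⁻ u, f1 u * g1 u ∂P) * (∫⁻ u, f2 u * g2 u ∂P) * ∫⁻ u, g u ∂P ≤
        f0 u0 * (∫⁻ u, g1 u ∂P) * (∫⁻ u, g2 u ∂P) * ∫⁻ u, f u * g u ∂P := fun u0 h0 =>
    one_int P mg (mf.fun_mul mg) (hG.mono fun u hu =>
      (mul_le_mul_left (s2 u hu u0 h0) (g u)).trans (le_of_eq (by ring)))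
  have s4 := one_int P (a := t * (∫⁻ u, f1 u * g1 u ∂P) * (∫⁻ u, f2 u * g2 u ∂P) * ∫⁻ u, g u ∂P)
    (b := (∫⁻ u, g1 u ∂P) * (∫⁻ u, g2 u ∂P) * ∫⁻ u, f u * g u ∂P) mg0 (mf0.fun_mul mg0)
    (hG.mono fun u0 h0 => (mul_le_mul_left (s3 u0 h0) (g0 u0)).trans (le_of_eq (by ring)))
  exact le_trans (le_of_eq (by ring)) (s4.trans (le_of_eq (by ring)))

/-- Boltzmann factor -/
def bz (S : Ω → ℝ) (u : Ω) : ℝ≥0∞ := ENNReal.ofReal (Real.exp (-S u))

/-- logarithm of the partition function -/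
def lZ (S : Ω → ℝ) : ℝ := Real.log (∫ u, Real.exp (-S u) ∂P)

theorem measurable_bz {S : Ω → ℝ} (h : Measurable S) : Measurable (bz S) := by
  unfold bz; fun_prop

theorem lint_bz [IsProbabilityMeasure P] {S : Ω → ℝ} (h : Kit.BM S) :
    ∫⁻ u, bz S u ∂P = ENNReal.ofReal (Real.exp (lZ P S)) := by
  have bm : Kit.BM fun z => -S z := by
    obtain ⟨m, C, hC⟩ := h
    exact ⟨m.neg, C, fun z => by rw [abs_neg]; exact hC z⟩
  rw [lZ, Real.exp_log (bm.pos P),
    ofReal_integral_eq_lintegral_ofReal (bm.exp.int _) (.of_forall fun z => (Real.exp_pos _).le)]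
  rfl

end int

/-- the local contribution of the label `j` -/
def wl {Ω J : Type} [MeasurableSpace Ω] (P : Measure Ω) (B : J → Finset J) (S : J → Ω → ℝ)
    (j : J) : ℝ :=
  ∫ t in (0 : ℝ)..1, (∫ z, S j z * Real.exp (-(t * ∑ j' ∈ B j, S j' z)) ∂P) /
    ∫ z, Real.exp (-(t * ∑ j' ∈ B j, S j' z)) ∂P

theorem wl_congr {Ω J : Type} [MeasurableSpace Ω] (P : Measure Ω) {B : J → Finset J}
    {S S' : J → Ω → ℝ} {j : J} (hj : j ∈ B j) (h : ∀ j' ∈ B j, S j' = S' j') :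
    wl P B S j = wl P B S' j := by
  have : ∀ z, ∑ j' ∈ B j, S j' z = ∑ j' ∈ B j, S' j' z := fun z =>
    sum_congr rfl fun j' hj' => by rw [h j' hj']
  simp only [wl, this, h j hj]

/-- a family of small local terms -/
structure Loc {ι J Z : Type} [MeasurableSpace Z] (dep : J → Set ι) (θ : ℝ)
    (S : J → (ι → Z) → ℝ) : Prop where
  m : ∀ j, Measurable (S j)
  d : ∀ j z z', (∀ i ∈ dep j, z i = z' i) → S j z = S j z'
  b : ∀ j z, |S j z| ≤ θ

theorem Loc.pw {ι J Z : Type} [MeasurableSpace Z] {dep : J → Set ι} {θ : ℝ}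
    {S : J → (ι → Z) → ℝ} (h : Loc dep θ S) (A : Set ι) (z : ι → Z) :
    Loc dep θ fun j u => S j (pw A z u) where
  m j := (h.m j).comp (measurable_pw' A z)
  d j u u' e := h.d j _ _ fun i hi => by
    by_cases hA : i ∈ A
    · rw [pw_in _ _ hA, pw_in _ _ hA]
    · rw [pw_out _ _ hA, pw_out _ _ hA, e i hi]
  b j u := h.b j _

theorem Loc.bm {ι J Z : Type} [MeasurableSpace Z] [Fintype J] {dep : J → Set ι} {θ : ℝ}
    {S : J → (ι → Z) → ℝ} (h : Loc dep θ S) : Kit.BM fun z => ∑ j, S j z :=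
  Kit.BM.sum _ fun j => ⟨h.m j, θ, h.b j⟩

theorem Loc.off {ι J Z : Type} [MeasurableSpace Z] {dep : J → Set ι} {θ : ℝ}
    {S : J → (ι → Z) → ℝ} (h : Loc dep θ S) {A : Set ι} (z : ι → Z) {j : J}
    (hj : Disjoint (dep j) A) : (fun u => S j (H3.pw A z u)) = S j :=
  funext fun _ => h.d j _ _ fun _ hi => pw_out _ _ (Set.disjoint_left.1 hj hi)

/-- the four configuration decoupling inequality -/
theorem four {ι J Z : Type} [Fintype ι] [Fintype J] [DecidableEq J] [MeasurableSpace Z]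
    (ν : Measure Z) [IsProbabilityMeasure ν] {K : Set Z} (hK : ∀ᵐ x ∂ν, x ∈ K)
    {dep : J → Set ι} {θ : ℝ} {S S1 S2 : J → (ι → Z) → ℝ} (hS : Loc dep θ S) (hS1 : Loc dep θ S1)
    (hS2 : Loc dep θ S2) {S0 : (ι → Z) → ℝ} (hS0 : Kit.BM S0)
    (d : J → J → ℕ) (d0 : ∀ j, d j j = 0) (dt : ∀ a b c, d a c ≤ d a b + d b c)
    (dd : ∀ a b, 1 < d a b → Disjoint (dep a) (dep b))
    (n : ℕ) (B : J → Finset J) (hB : ∀ j j', d j j' ≤ n → j' ∈ B j)
    (hc : ∀ j, (B j).card * θ ≤ 1 / 100) {A1 A2 : Set ι} (hA : Disjoint A1 A2)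
    (sep : ∀ j, (∀ j' ∈ B j, Disjoint (dep j') A2 ∧ S j' = S1 j') ∨
      (∀ j' ∈ B j, Disjoint (dep j') A1 ∧ S j' = S2 j') ∨
      ∀ j' ∈ B j, Disjoint (dep j') A1 ∧ Disjoint (dep j') A2)
    {F F0 F1 F2 : (ι → Z) → ℝ≥0∞} (mF : Measurable F) (mF0 : Measurable F0)
    (mF1 : Measurable F1) (mF2 : Measurable F2) {t : ℝ≥0∞}
    (h4 : ∀ z z0 z1 z2 : ι → Z, (∀ i, z i ∈ K) → (∀ i, z0 i ∈ K) → (∀ i, z1 i ∈ K) →
      (∀ i, z2 i ∈ K) → (∀ i ∈ A1, z i = z1 i) → (∀ i ∈ A2, z i = z2 i) →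
      t * (F1 z1 * F2 z2) ≤ F z * F0 z0) :
    t * ENNReal.ofReal (Real.exp (lZ (Measure.pi fun _ => ν) (fun z => ∑ j, S j z) +
        lZ (Measure.pi fun _ => ν) S0 - lZ (Measure.pi fun _ => ν) (fun z => ∑ j, S1 j z) -
        lZ (Measure.pi fun _ => ν) (fun z => ∑ j, S2 j z) -
        6 * (Fintype.card J * (8 * θ * 2⁻¹ ^ n)))) *
      ((∫⁻ z, F1 z * bz (fun z => ∑ j, S1 j z) z ∂Measure.pi fun _ => ν) *
        ∫⁻ z, F2 z * bz (fun z => ∑ j, S2 j z) z ∂Measure.pi fun _ => ν) ≤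
      (∫⁻ z, F z * bz (fun z => ∑ j, S j z) z ∂Measure.pi fun _ => ν) *
        ∫⁻ z, F0 z * bz S0 z ∂Measure.pi fun _ => ν := by
  set P : Measure (ι → Z) := Measure.pi fun _ => ν with hP
  set η : ℝ := Fintype.card J * (8 * θ * 2⁻¹ ^ n) with hη
  have dec : ∀ T : J → (ι → Z) → ℝ, Loc dep θ T →
      |lZ P (fun z => ∑ j, T j z) + ∑ j, wl P B T j| ≤ η := fun T hT =>
    RG.decouple ν T hT.m dep hT.d d d0 dt dd hT.b n B hB hc
  have hG := ae_mem (ι := ι) ν hK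
  have m1 := mF1.fun_mul (measurable_bz hS1.bm.1)
  have m2 := mF2.fun_mul (measurable_bz hS2.bm.1)
  have m := mF.fun_mul (measurable_bz hS.bm.1)
  set Q : (ι → Z) → ℝ≥0∞ := fun z =>
    ∫⁻ u, F (pw (A1 ∪ A2) z u) * bz (fun z => ∑ j, S j z) (pw (A1 ∪ A2) z u) ∂P with hQ
  set Q1 : (ι → Z) → ℝ≥0∞ := fun z =>
    ∫⁻ u, F1 (pw A1 z u) * bz (fun z => ∑ j, S1 j z) (pw A1 z u) ∂P with hQ1
  set Q2 : (ι → Z) → ℝ≥0∞ := fun z =>
    ∫⁻ u, F2 (pw A2 z u) * bz (fun z => ∑ j, S2 j z) (pw A2 z u) ∂P with hQ2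
  have mQ : Measurable Q := (m.comp (measurable_pw _)).lintegral_prod_right'
  have mQ1 : Measurable Q1 := (m1.comp (measurable_pw _)).lintegral_prod_right'
  have mQ2 : Measurable Q2 := (m2.comp (measurable_pw _)).lintegral_prod_right'
  rw [← lint_pw ν A1 m1, ← lint_pw ν A2 m2, ← lint_pw ν (A1 ∪ A2) m,
    ← lint_indep ν A1 mQ1 mQ2 (fun z u => ?_) (fun z u => ?_), mul_comm (lintegral _ _)]
  · refine one_int P (mQ1.fun_mul mQ2) mQ (hG.mono fun z hz => ?_)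
    have k := four_int P (G := {z | ∀ i, z i ∈ K}) hG (t := t)
      (mF.comp (measurable_pw' (A1 ∪ A2) z)) mF0 (mF1.comp (measurable_pw' A1 z))
      (mF2.comp (measurable_pw' A2 z)) (measurable_bz (hS.pw (A1 ∪ A2) z).bm.1)
      (measurable_bz hS0.1) (measurable_bz (hS1.pw A1 z).bm.1) (measurable_bz (hS2.pw A2 z).bm.1)
      fun u hu u0 h0 u1 h1 u2 h2 => h4 _ _ _ _ (pw_mem hz hu) h0 (pw_mem hz h1) (pw_mem hz h2)
        (fun i hi => (pw_in _ _ (Set.mem_union_left _ hi)).trans (pw_in _ _ hi).symm)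
        (fun i hi => (pw_in _ _ (Set.mem_union_right _ hi)).trans (pw_in _ _ hi).symm)
    rw [lint_bz P (hS.pw (A1 ∪ A2) z).bm, lint_bz P hS0, lint_bz P (hS1.pw A1 z).bm,
      lint_bz P (hS2.pw A2 z).bm, ← ENNReal.ofReal_mul (Real.exp_pos _).le,
      ← ENNReal.ofReal_mul (Real.exp_pos _).le, ← Real.exp_add, ← Real.exp_add] at k
    have hw : ∑ j, wl P B (fun j u => S j (pw (A1 ∪ A2) z u)) j + ∑ j, wl P B S1 j +
        ∑ j, wl P B S2 j = ∑ j, wl P B (fun j u => S1 j (pw A1 z u)) j +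
        ∑ j, wl P B (fun j u => S2 j (pw A2 z u)) j + ∑ j, wl P B S j := by
      simp only [← sum_add_distrib]
      refine sum_congr rfl fun j _ => ?_
      have hj : j ∈ B j := hB j j (by rw [d0]; exact Nat.zero_le _)
      rcases sep j with h | h | h
      · rw [wl_congr P hj (S := S) fun j' hj' => (h j' hj').2,
          wl_congr P hj (S := fun j u => S2 j (pw A2 z u))
            fun j' hj' => hS2.off z (h j' hj').1,
          wl_congr P hj (S := fun j u => S j (pw (A1 ∪ A2) z u))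
            (S' := fun j u => S1 j (pw A1 z u)) fun j' hj' => funext fun u => ?_]
        · ring
        · rw [(h j' hj').2]
          refine hS1.d _ _ _ fun i hi => ?_
          have := Set.disjoint_left.1 (h j' hj').1 hi
          by_cases h1 : i ∈ A1
          · rw [pw_in _ _ (Set.mem_union_left _ h1), pw_in _ _ h1]
          · rw [pw_out _ _ h1, pw_out _ _ fun h : i ∈ A1 ∪ A2 => h.elim h1 this]
      · rw [wl_congr P hj (S := S) fun j' hj' => (h j' hj').2,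
          wl_congr P hj (S := fun j u => S1 j (pw A1 z u))
            fun j' hj' => hS1.off z (h j' hj').1,
          wl_congr P hj (S := fun j u => S j (pw (A1 ∪ A2) z u))
            (S' := fun j u => S2 j (pw A2 z u)) fun j' hj' => funext fun u => ?_]
        · ring
        · rw [(h j' hj').2]
          refine hS2.d _ _ _ fun i hi => ?_
          have := Set.disjoint_left.1 (h j' hj').1 hi
          by_cases h1 : i ∈ A2
          · rw [pw_in _ _ (Set.mem_union_right _ h1), pw_in _ _ h1]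
          · rw [pw_out _ _ h1, pw_out _ _ fun h : i ∈ A1 ∪ A2 => h.elim this h1]
      · rw [wl_congr P hj (S := fun j u => S1 j (pw A1 z u))
            fun j' hj' => hS1.off z (h j' hj').1,
          wl_congr P hj (S := fun j u => S2 j (pw A2 z u))
            fun j' hj' => hS2.off z (h j' hj').2,
          wl_congr P hj (S := fun j u => S j (pw (A1 ∪ A2) z u))
            fun j' hj' => hS.off z (Set.disjoint_union_right.2 (h j' hj'))]
        ring
    have e1 := abs_le.1 (dec _ (hS.pw (A1 ∪ A2) z))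
    have e2 := abs_le.1 (dec _ (hS1.pw A1 z))
    have e3 := abs_le.1 (dec _ (hS2.pw A2 z))
    have e4 := abs_le.1 (dec _ hS)
    have e5 := abs_le.1 (dec _ hS1)
    have e6 := abs_le.1 (dec _ hS2)
    set x : ℝ := lZ P (fun u => ∑ j, S1 j (pw A1 z u)) + lZ P fun u => ∑ j, S2 j (pw A2 z u)
      with hx
    have x0 : ENNReal.ofReal (Real.exp x) ≠ 0 := (ENNReal.ofReal_pos.2 (Real.exp_pos _)).ne'
    refine (ENNReal.mul_le_mul_iff_left x0 ENNReal.ofReal_ne_top).1 ?_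
    refine le_trans ?_ (k.trans (le_of_eq ?_))
    · rw [mul_right_comm t, mul_assoc (t * _), ← ENNReal.ofReal_mul (Real.exp_pos _).le,
        ← Real.exp_add]
      refine mul_le_mul_right (ENNReal.ofReal_le_ofReal (Real.exp_le_exp.2 ?_)) _
      linarith [e1.1, e2.2, e3.2, e4.2, e5.1, e6.1]
    · rw [mul_comm (lintegral P _) (Q z)]
      rfl
  · simp only [hQ1]
    refine lintegral_congr fun v => ?_
    have : pw A1 (pw A1 z u) v = pw A1 z v := funext fun i => by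
      by_cases hi : i ∈ A1 <;> simp [pw, hi]
    rw [this]
  · simp only [hQ2]
    refine lintegral_congr fun v => ?_
    have : pw A2 (pw A1 z u) v = pw A2 u v := funext fun i => by
      by_cases hi : i ∈ A2
      · simp [pw, hi, Set.disjoint_right.1 hA hi]
      · simp [pw, hi]
    rw [this]

end Pool.Agent.Lib.MP_7f377f_mp.H3
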