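import Pool.Agent.Lib.MP_7f377f_mp.KitHaar
import Pool.Agent.Lib.MP_7f377f_mp.WeakHaar

/-! Product of Haar measures in the gnomonic chart, soft tree gauge. -/

namespace Pool.Agent.Lib.MP_7f377f_mp.Kit

open MeasureTheory Measure Set
open scoped ENNReal

theorem lintegral_fin_prod {n : ℕ} {E : Fin n → Type} {mE : ∀ i, MeasurableSpace (E i)}
    {μ : (i : Fin n) → Measure (E i)} [∀ i, SigmaFinite (μ i)] (f : (i : Fin n) → E i → ℝ≥0∞)
    (hf : ∀ i, Measurable (f i)) :
    ∫⁻ x : (i : Fin n) → E i, ∏ i, f i (x i) ∂(Measure.pi μ) = ∏ i, ∫⁻ x, f i x ∂(μ i) := by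
  induction n with
  | zero => simp
  | succ n ih =>
    rw [Fin.prod_univ_succ, ← ih _ fun i => hf _, ← lintegral_prod_mul (hf 0).aemeasurable
      (g := fun x : (i : Fin n) → E i.succ => ∏ i, f i.succ (x i)) (Finset.measurable_fun_prod _ fun i _ => (hf _).comp (measurable_pi_apply i)).aemeasurable,
      ((measurePreserving_piFinSuccAbove μ 0).symm).lintegral_map_equiv]
    refine lintegral_congr fun x => ?_
    rw [Fin.prod_univ_succ]
    rfl

theorem lintegral_pi_prod {ι : Type} [Fintype ι] {E : ι → Type} {mE : ∀ i, MeasurableSpace (E i)}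
    {μ : (i : ι) → Measure (E i)} [∀ i, SigmaFinite (μ i)] (f : (i : ι) → E i → ℝ≥0∞)
    (hf : ∀ i, Measurable (f i)) :
    ∫⁻ x : (i : ι) → E i, ∏ i, f i (x i) ∂(Measure.pi μ) = ∏ i, ∫⁻ x, f i x ∂(μ i) := by
  let e := (Fintype.equivFin ι).symm
  rw [(measurePreserving_piCongrLeft _ e).lintegral_map_equiv]
  simp_rw [← e.prod_comp, MeasurableEquiv.coe_piCongrLeft, Equiv.piCongrLeft_apply_apply]
  exact lintegral_fin_prod _ fun i => hf _

theorem pi_withDensity {ι X : Type} [Fintype ι] [MeasurableSpace X] (m : Measure X) [SigmaFinite m]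
    {f : ι → X → ℝ≥0∞} (hf : ∀ e, Measurable (f e)) [∀ e, SigmaFinite (m.withDensity (f e))] :
    (Measure.pi fun e => m.withDensity (f e)) =
      (Measure.pi fun _ : ι => m).withDensity fun a => ∏ e, f e (a e) := by
  refine Measure.pi_eq fun s hs => ?_
  rw [withDensity_apply _ (MeasurableSet.univ_pi hs), restrict_pi_pi, lintegral_pi_prod _ hf]
  simp only [fun e => withDensity_apply (μ := m) (f e) (hs e)]

/-- soft tree gauge: a weight `χ` may be inserted on the links of a forest -/
theorem soft_gauge {G : Type} [Group G] [TopologicalSpace G] [IsTopologicalGroup G]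
    [CompactSpace G] [SecondCountableTopology G] [MeasurableSpace G] [BorelSpace G]
    (μ : Measure G) [μ.IsHaarMeasure] [IsProbabilityMeasure μ] {S E : Type} [Fintype S]
    [Fintype E] (src tgt : E → S) (N : Finset S) (pl : S → E) (par : S → S) (H : S → ℕ)
    (hpl : ∀ x ∈ N, src (pl x) = par x ∧ tgt (pl x) = x ∨ src (pl x) = x ∧ tgt (pl x) = par x)
    (hH : ∀ x ∈ N, H (par x) < H x) {χ : G → ℝ≥0∞} (hχ : Measurable χ)
    (hs : ∀ g, χ g⁻¹ = χ g) {F : (E → G) → ℝ≥0∞} (hF : Measurable F)
    (hi : ∀ g : S → G, (∀ x ∉ N, g x = 1) →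
      ∀ U, F (fun e => g (src e) * U e * (g (tgt e))⁻¹) = F U) :
    ∫⁻ U, F U * ∏ x ∈ N, χ (U (pl x)) ∂(Measure.pi fun _ => μ) =
      (∫⁻ g, χ g ∂μ) ^ N.card * ∫⁻ U, F U ∂(Measure.pi fun _ => μ) := by
  classical
  have := Weak.haar_right μ
  set c : (S → G) → S → G := fun g x => if x ∈ N then g x else 1 with hc
  have cc : ∀ x, Continuous fun g => c g x := fun x => by
    simp only [hc]
    split_ifs <;> fun_prop
  set Φ : (E → G) → ℝ≥0∞ := fun U => ∏ x ∈ N, χ (U (pl x)) with hΦ
  have mΦ : Measurable Φ := Finset.measurable_fun_prod _ fun x _ => hχ.comp (measurable_pi_apply _)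
  set T : (S → G) → (E → G) → E → G := fun g U e => c g (src e) * U e * (c g (tgt e))⁻¹ with hT
  have cT : Continuous fun z : (S → G) × (E → G) => T z.1 z.2 := continuous_pi fun e =>
    (((cc _).comp continuous_fst).mul (by fun_prop)).mul ((cc _).comp continuous_fst).inv
  have h1 : ∀ g, ∫⁻ U, F U * Φ U ∂(Measure.pi fun _ => μ) =
      ∫⁻ U, F U * Φ (T g U) ∂(Measure.pi fun _ => μ) := by
    intro g
    have := measurePreserving_pi (fun _ : E => μ) (fun _ => μ) fun e =>
      (measurePreserving_mul_right μ (c g (tgt e))⁻¹).comp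
        (measurePreserving_mul_left μ (c g (src e)))
    rw [← this.lintegral_comp (f := fun U => F U * Φ U) (hF.mul mΦ)]
    exact lintegral_congr fun U => congrArg (· * _) (hi (c g) (fun x hx => if_neg hx) U)
  have h2 : ∀ U, ∫⁻ g, Φ (T g U) ∂(Measure.pi fun _ => μ) = (∫⁻ g, χ g ∂μ) ^ N.card := by
    intro U
    set b : (S → G) → S → G := fun g x => if x ∈ N then
      (if tgt (pl x) = x then (U (pl x))⁻¹ else U (pl x)) * (c g (par x))⁻¹ else 1 with hb
    have h3 := Weak.mp_tri μ H (fun _ _ => 1) b continuous_const (continuous_pi fun x => by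
      simp only [hb]
      split_ifs
      exacts [continuous_const.mul (cc _).inv, continuous_const.mul (cc _).inv, continuous_const])
      fun g g' x h => ⟨rfl, by
        simp only [hb, hc]
        by_cases hx : x ∈ N
        · rw [h _ (hH x hx)]
        · rw [if_neg hx, if_neg hx]⟩
    have h4 := lintegral_pi_prod (μ := fun _ : S => μ) (fun x g => if x ∈ N then χ g else 1)
      fun x => by split_ifs; exacts [hχ, measurable_const]
    rw [← h3.lintegral_comp (Finset.measurable_fun_prod _ fun x _ => by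
      split_ifs; exacts [hχ.comp (measurable_pi_apply _), measurable_const])] at h4
    have h5 : ∀ x, ∫⁻ g, (if x ∈ N then χ g else 1) ∂μ = if x ∈ N then ∫⁻ g, χ g ∂μ else 1 := by
      intro x
      split_ifs <;> simp
    simp only [h5, Finset.prod_ite_mem, Finset.univ_inter, Finset.prod_const] at h4
    rw [← h4]
    refine lintegral_congr fun g => Finset.prod_congr rfl fun x hx => ?_
    have hx' := hH x hx
    have e : c g x = g x := if_pos hx
    simp only [hT, hb, if_pos hx, one_mul]
    rcases hpl x hx with ⟨h, h'⟩ | ⟨h, h'⟩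
    · rw [← hs, if_pos h', h, h', e]
      simp [mul_assoc]
    · rw [if_neg (by rw [h']; rintro h''; rw [h''] at hx'; omega), h, h', e, mul_assoc]
  have m2 : Measurable fun z : (S → G) × (E → G) => F z.2 * Φ (T z.1 z.2) :=
    (hF.comp measurable_snd).mul (mΦ.comp cT.measurable)
  calc _ = ∫⁻ g : S → G, ∫⁻ U, F U * Φ (T g U) ∂(Measure.pi fun _ => μ)
        ∂(Measure.pi fun _ => μ) := by
        simp only [← h1, lintegral_const, measure_univ, mul_one]
        rfl
    _ = _ := by
      rw [lintegral_lintegral_swap m2.aemeasurable, mul_comm, ← lintegral_mul_const _ hF]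
      refine lintegral_congr fun U => ?_
      rw [lintegral_const_mul (f := fun g => Φ (T g U)) _
        (mΦ.comp (cT.comp (.prodMk_left U)).measurable), h2]

variable [MeasurableSpace SU2] [BorelSpace SU2] (μ : Measure SU2) [μ.IsHaarMeasure]
  [IsProbabilityMeasure μ]

/-- product Haar measure in the chart centred at an arbitrary configuration `I` -/
theorem pi_chart : ∃ c : ℝ≥0∞, c ≠ 0 ∧ c ≠ ∞ ∧
    (∀ F : SU2 → ℝ≥0∞, Measurable F → ∫⁻ g in pos, F g ∂μ = c * ∫⁻ a, hd a * F (ex a)) ∧
    ∀ (ι : Type) [Fintype ι] (I : ι → SU2) (F : (ι → SU2) → ℝ≥0∞), Measurable F →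
      ∫⁻ U in {U | ∀ e, U e * (I e)⁻¹ ∈ pos}, F U ∂(Measure.pi fun _ => μ) =
        c ^ Fintype.card ι * ∫⁻ a : ι → R3, (∏ e, hd (a e)) * F fun e => ex (a e) * I e := by
  obtain ⟨c, c0, c1, h⟩ := haar_chart μ
  refine ⟨c, c0, c1, h, fun ι _ I F hF => ?_⟩
  have := Weak.haar_right μ
  have hp := isOpen_pos.measurableSet
  have mex := continuous_ex.measurable
  have md : Measurable fun a => c * hd a := measurable_hd.const_mul c
  have h1 : MeasurePreserving ex ((volume : Measure R3).withDensity fun a => c * hd a)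
      (μ.restrict pos) := by
    refine ⟨mex, Measure.ext fun s hs => ?_⟩
    rw [map_apply mex hs, ← lintegral_indicator_one hs, h _ (measurable_one.indicator hs),
      withDensity_apply _ (mex hs), ← lintegral_indicator (mex hs), ← lintegral_const_mul' _ _ c1]
    refine lintegral_congr fun a => ?_
    by_cases ha : ex a ∈ s <;> simp [indicator, ha]
  have : IsFiniteMeasure ((volume : Measure R3).withDensity fun a => c * hd a) :=
    ⟨(h1.measure_preimage (s := univ) MeasurableSet.univ.nullMeasurableSet).trans_lt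
      (measure_lt_top _ _)⟩
  have h2 := measurePreserving_pi (fun _ : ι => _) (fun _ => _) fun _ => h1
  have h3 := measurePreserving_pi (fun _ : ι => μ) (fun _ => μ)
    fun e => measurePreserving_mul_right μ (I e)
  have hS : MeasurableSet {U : ι → SU2 | ∀ e, U e * (I e)⁻¹ ∈ pos} := by
    rw [ofPred_forall]
    exact MeasurableSet.iInter fun e => ((measurable_pi_apply e).mul_const _) hp
  have e : (fun (a : ι → SU2) i => a i * I i) ⁻¹' {U : ι → SU2 | ∀ e, U e * (I e)⁻¹ ∈ pos} =
      Set.pi univ fun _ => pos := by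
    ext U
    simp
  rw [← h3.setLIntegral_comp_preimage hS hF, e, restrict_pi_pi,
    ← h2.lintegral_comp (f := fun a => F fun i => a i * I i) (hF.comp h3.measurable), pi_withDensity _ fun _ => md,
    lintegral_withDensity_eq_lintegral_mul, ← lintegral_const_mul' _ _ (ENNReal.pow_ne_top c1)]
  · refine lintegral_congr fun a => ?_
    simp [Finset.prod_mul_distrib, mul_assoc]
  · exact Finset.measurable_fun_prod _ fun i _ => md.comp (measurable_pi_apply i)
  · exact (hF.comp h3.measurable).comp h2.measurable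

end Pool.Agent.Lib.MP_7f377f_mp.Kit
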