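import Pool.Agent.Lib.MP_7f377f_mp.R3Step2
import Pool.Agent.Lib.MP_7f377f_mp.KitPi

/-! Ingredients of the renormalisation step: Gaussian on balls, the integrand in the chart. -/

noncomputable section

namespace Pool.Agent.Lib.MP_7f377f_mp.RG.D3.SX

open Finset MeasureTheory
open scoped ENNReal

theorem gauss_ball {ι : Type} [Fintype ι] {ζ : ℝ} (hζ : 0 < ζ) {S : (ι → E3) → ℝ}
    (hS : Measurable S) {M : ℝ} (hM : ∀ z, |S z| ≤ M) (a : ℝ) :
    ∫⁻ z : ι → E3, {z : ι → E3 | ∀ i, ‖z i‖ ≤ ζ}.indicator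
        (fun z => ENNReal.ofReal (Real.exp (a - (∑ i, ‖z i‖ ^ 2) / 2 - S z))) z =
      ENNReal.ofReal (Real.exp (a + Fintype.card ι * Real.log (nu0 ζ Set.univ).toReal +
        Real.log (∫ z, Real.exp (-S z) ∂Measure.pi fun _ : ι => nu ζ))) := by
  have := nu_prob hζ
  set c := nu0 ζ Set.univ with hc
  have c0 : c ≠ 0 := nu0_ne_zero hζ
  have c1 : c ≠ ∞ := nu0_ne_top ζ
  set w : E3 → ℝ≥0∞ := c⁻¹ • (Metric.closedBall (0 : E3) ζ).indicator
    fun v => ENNReal.ofReal (Real.exp (-(‖v‖ ^ 2 / 2))) with hw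
  have mw0 := measurable_gw.indicator (measurableSet_closedBall (x := (0 : E3)) (ε := ζ))
  have mw : Measurable w := mw0.const_smul _
  have h1 : nu ζ = volume.withDensity w := by
    rw [hw, withDensity_smul _ mw0, withDensity_indicator measurableSet_closedBall]
    rfl
  have : SigmaFinite (volume.withDensity w) := h1 ▸ inferInstance
  have h2 : (Measure.pi fun _ : ι => nu ζ) = volume.withDensity fun z => ∏ i, w (z i) := by
    rw [h1, Kit.pi_withDensity (volume : Measure E3) (f := fun _ : ι => w) fun _ => mw]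
    rfl
  have bm : Kit.BM fun z => -S z := ⟨hS.neg, M, fun z => by rw [abs_neg]; exact hM z⟩
  have hpos := bm.pos (Measure.pi fun _ : ι => nu ζ)
  have mE : Measurable fun z => ENNReal.ofReal (Real.exp (-S z)) := by fun_prop
  rw [Real.exp_add, Real.exp_log hpos, ENNReal.ofReal_mul (Real.exp_pos _).le,
    ofReal_integral_eq_lintegral_ofReal (bm.exp.int _) (.of_forall fun z => (Real.exp_pos _).le),
    h2, lintegral_withDensity_eq_lintegral_mul (f := fun z : ι → E3 => ∏ i, w (z i)) _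
      (Finset.measurable_fun_prod _ fun i _ => mw.comp (measurable_pi_apply i)) mE,
    ← lintegral_const_mul' _ _ ENNReal.ofReal_ne_top]
  refine lintegral_congr fun z => ?_
  by_cases hz : ∀ i, ‖z i‖ ≤ ζ
  · have h3 : ∀ i, w (z i) = c⁻¹ * ENNReal.ofReal (Real.exp (-(‖z i‖ ^ 2 / 2))) := fun i => by
      rw [hw, Pi.smul_apply, Set.indicator_of_mem (mem_closedBall_zero_iff.mpr (hz i)), smul_eq_mul]
    have h4 : ENNReal.ofReal (Real.exp (Fintype.card ι * Real.log c.toReal)) =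
        c ^ Fintype.card ι := by
      rw [Real.exp_nat_mul, Real.exp_log (ENNReal.toReal_pos c0 c1),
        ENNReal.ofReal_pow ENNReal.toReal_nonneg, ENNReal.ofReal_toReal c1]
    rw [Set.indicator_of_mem (show z ∈ {z : ι → E3 | ∀ i, ‖z i‖ ≤ ζ} from hz), Pi.mul_apply]
    simp only [h3, prod_mul_distrib, prod_const, card_univ]
    rw [← ENNReal.ofReal_prod_of_nonneg fun i _ => (Real.exp_pos _).le, ← Real.exp_sum,
      Real.exp_add, ENNReal.ofReal_mul (Real.exp_pos _).le, h4, mul_assoc, ← mul_assoc (c ^ _),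
      ← mul_assoc (c ^ _), ← mul_pow, ENNReal.mul_inv_cancel c0 c1, one_pow, one_mul,
      ← ENNReal.ofReal_mul (Real.exp_pos _).le, ← ENNReal.ofReal_mul (Real.exp_pos _).le,
      ← Real.exp_add, ← Real.exp_add, sum_neg_distrib, ← sum_div]
    congr 2
    ring
  · rw [Set.indicator_of_notMem (show z ∉ {z : ι → E3 | ∀ i, ‖z i‖ ≤ ζ} from hz), Pi.mul_apply]
    obtain ⟨i, hi⟩ := not_forall.mp hz
    rw [prod_eq_zero (mem_univ i), zero_mul, mul_zero]
    rw [hw, Pi.smul_apply, Set.indicator_of_notMem (fun h => hi (mem_closedBall_zero_iff.mp h)),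
      smul_zero]

theorem measurable_q : Measurable fun g : S3 => ‖g.q - 1‖ :=
  (S3.continuous_q.sub continuous_const).norm.measurable

theorem measurableSet_good (l : ℕ) (ε : ℝ) (W : Conf) :
    MeasurableSet {U : Conf | curvG ε U ∧ noiseG l ε U W} := by
  have mq := measurable_q
  have mb := measurable_blk l
  refine MeasurableSet.inter (s₁ := {U : Conf | curvG ε U}) (s₂ := {U | noiseG l ε U W}) ?_ ?_
  · simp only [curvG, Set.ofPred_forall]
    refine .iInter fun x => .iInter fun μ => .iInter fun ν => measurableSet_le ?_ measurable_const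
    refine mq.comp (f := fun U : Conf => hol Inv.inv U x μ ν) ?_
    simp only [hol]
    fun_prop
  · simp only [noiseG, Set.ofPred_forall]
    refine .iInter fun b => measurableSet_le ?_ measurable_const
    exact mq.comp (((measurable_pi_apply b).comp mb).inv.const_mul (W b))

theorem curvG_mono {ε δ : ℝ} (h : ε ≤ δ) {U : Conf} (hU : curvG ε U) : curvG δ U :=
  fun x μ ν => (hU x μ ν).trans h

theorem curvG_sh {δ : ℝ} {U : Conf} (hU : curvG δ U) (y : St) : curvG δ (sh y U) := by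
  intro x μ ν
  have := hU (x + y) μ ν
  simp only [hol, sh, add_right_comm x y] at this ⊢
  exact this

theorem ext_map {α β : Type} {l n : ℕ} (φ : α → β) (o : α) (u : fund l n → α) (f : Lk) :
    φ (ext l n o u f) = ext l n (φ o) (fun i => φ (u i)) f := by
  unfold ext
  split_ifs <;> rfl

theorem ext_bd {l n : ℕ} {a : ℝ} (ha : 0 ≤ a) {z : fund l n → E3} (hz : ∀ i, ‖z i‖ ≤ a) (f : Lk) :
    ‖ext l n 0 z f‖ ≤ a := by
  unfold ext
  split_ifs
  exacts [hz _, norm_zero.trans_le ha]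

theorem Az_sh (D : Dat) (y : St) (W : Cf) (z : Lk → E3) :
    D.Az (sh y W) (sh (up D.l y) z) = sh (up D.l y) (D.Az W z) := by
  rw [Dat.Az, show zc D.ζ (sh (up D.l y) z) = sh (up D.l y) (zc D.ζ z) from rfl, Dat.pol_sh]
  rfl

theorem Az_eq {D : Dat} {n : ℕ} (hζ : 0 ≤ D.ζ) {W : Cf}
    {P : (fund D.l n → E3) →ₗ[ℝ] (fund D.l n → E3)}
    (hP : ∀ z, D.pol (pP D.N) W (fun f => cE (ext D.l n 0 z f)) =
      fun f => cE (ext D.l n 0 (P z) f)) {z : fund D.l n → E3} (hz : ∀ i, ‖z i‖ ≤ D.ζ) :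
    D.Az W (ext D.l n 0 z) = (D.g : ℂ) • fun f => cE (ext D.l n 0 (P z) f) := by
  rw [Dat.Az, ← hP]
  congr 2
  funext f
  exact if_pos (ext_bd hζ hz f)

theorem smul_ext {l n : ℕ} (g : ℝ) (v : fund l n → E3) :
    ((g : ℂ) • fun f => cE (ext l n 0 v f)) = fun f => cE (ext l n 0 (g • v) f) := by
  funext f
  rw [Pi.smul_apply, ← cE_smul, ext_map (fun x => g • x), smul_zero]
  rfl

theorem cC_chart {D : Dat} {c R : ℕ} {τ ρ κ : ℝ} (h : D.Ok c τ R ρ κ) {n : ℕ} (hn : 0 < n)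
    {W U₀ : Conf} (hW : Per n W) (hU₀ : cC U₀ = D.Us (cC W)) {e : E3 → S3}
    (he : ∀ v, cS (e v) = ex (cE v)) (v : fund D.l n → E3) :
    cC (ext D.l n 1 fun i => e (v i) * U₀ i) = D.Uz (cC W) fun f => cE (ext D.l n 0 v f) := by
  funext f
  by_cases hf : tree D.l f
  · simp only [cC, Dat.Uz, ext_tree _ _ hf, Dat.Us_tree h _ hf, cS_one, cE_zero, ex_zero, mul_one]
  · have hm := (rp_mem hn).mpr hf
    simp only [cC, Dat.Uz, ext_of_mem _ _ hm, cS_mul, he]
    congr 1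
    obtain ⟨w, hw⟩ := rp_spec D.l n f.1
    have h1 := congrFun (per_smul (per_Us D (per_cC hW)) w) (rp D.l n f.1, f.2)
    rw [← up_smul, sh, ← hw] at h1
    exact (congrFun hU₀ _).trans h1.symm

theorem sum_e4 (D : Dat) (n : ℕ) (v : fund D.l n → E3) :
    ∑ y ∈ cube n, (D.e4 (sh (up D.l y) fun f => cE (ext D.l n 0 v f))).re =
      2 * ∑ i, Real.log (1 + ‖v i‖ ^ 2) := by
  have h1 := sum_fund D.l n (Φ := fun f => Real.log (1 + ‖ext D.l n 0 v f‖ ^ 2))
    fun f hf => by simp [ext_tree _ _ hf]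
  simp only [ext_coe] at h1
  rw [h1, mul_sum]
  refine sum_congr rfl fun y _ => ?_
  have h2 : ∀ x : ℝ, Complex.log (1 + ((x ^ 2 : ℝ) : ℂ)) = (Real.log (1 + x ^ 2) : ℝ) := by
    intro x
    rw [Complex.ofReal_log (by positivity), Complex.ofReal_add, Complex.ofReal_one]
  simp only [Dat.e4, sh, dot_cE_self, h2]
  rw [← Complex.ofReal_sum, ← Complex.ofReal_ofNat, ← Complex.ofReal_mul, Complex.ofReal_re]

theorem card_lcube (n : ℕ) : (lcube n).card = 3 * n ^ 3 := by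
  rw [lcube, card_product, card_cube, card_univ, Fintype.card_fin, mul_comm]

theorem jac_eq {ι : Type} [Fintype ι] {g cH : ℝ} (hg : 0 < g) (hc : 0 < cH)
    {P : (ι → E3) →ₗ[ℝ] (ι → E3)} (hP : 0 < LinearMap.det P) (v : ι → E3) :
    0 < LinearMap.det (g • P) ∧ LinearMap.det (g • P) * ∏ i, cH * ((1 + ‖v i‖ ^ 2) ^ 2)⁻¹ =
      Real.exp (Fintype.card ι * (3 * Real.log g + Real.log cH) + Real.log (LinearMap.det P) -
        2 * ∑ i, Real.log (1 + ‖v i‖ ^ 2)) := by
  have h1 : Module.finrank ℝ (ι → E3) = Fintype.card ι * 3 := by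
    simp [Module.finrank_pi_fintype]
  rw [LinearMap.det_smul, h1]
  refine ⟨by positivity, ?_⟩
  rw [← Real.exp_log (x := g ^ _ * _ * _) (by positivity)]
  congr 1
  rw [Real.log_mul (by positivity) (by positivity), Real.log_mul (by positivity) hP.ne',
    Real.log_prod fun i _ => by positivity]
  simp only [fun i => Real.log_mul hc.ne' (show ((1 + ‖v i‖ ^ 2) ^ 2)⁻¹ ≠ 0 by positivity),
    Real.log_inv, Real.log_pow, sum_add_distrib, sum_const, card_univ, nsmul_eq_mul,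
    sum_neg_distrib, ← mul_sum]
  push_cast
  ring

theorem prod_hk {ι : Type} (s : Finset ι) {a : ℝ} (h0 : 0 < ∫⁻ g, hk0 a g ∂haar)
    (h1 : ∫⁻ g, hk0 a g ∂haar ≤ 1) {u : ι → S3} {X : ι → ℝ}
    (hu : ∀ b, hk0 a (u b) = ENNReal.ofReal (Real.exp (-(a * X b)))) :
    ∏ b ∈ s, hk a (u b) = ENNReal.ofReal (Real.exp (-(a * ∑ b ∈ s, X b) -
      s.card * Real.log (∫⁻ g, hk0 a g ∂haar).toReal)) := by
  have h2 : ∫⁻ g, hk0 a g ∂haar ≠ ∞ := ne_top_of_le_ne_top ENNReal.one_ne_top h1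
  have h3 := ENNReal.toReal_pos h0.ne' h2
  have h4 : ∀ b, hk a (u b) = ENNReal.ofReal (Real.exp (-(a * X b) -
      Real.log (∫⁻ g, hk0 a g ∂haar).toReal)) := by
    intro b
    rw [Real.exp_sub, Real.exp_log h3, ENNReal.ofReal_div_of_pos h3, ENNReal.ofReal_toReal h2,
      hk, hu]
  simp only [h4]
  rw [← ENNReal.ofReal_prod_of_nonneg fun i _ => (Real.exp_pos _).le, ← Real.exp_sum,
    sum_sub_distrib, sum_neg_distrib, ← mul_sum, sum_const, nsmul_eq_mul]

/-- the part of the new action which does not come from the fluctuation integral -/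
def mainA (D : Dat) (n : ℕ) (W : Conf) : ℝ :=
  ∑ y ∈ cube n, (D.β * cx (mn D.l D.m D.s) (Bx y (cC W)) (Bx y (cC W)) +
    ∑ x ∈ box D.l, D.ψ (Bx x (D.Us (sh y (cC W))))).re

theorem actN_eq (D : Dat) (n : ℕ) (W : Conf) : D.actN n W = mainA D n W +
    ∑ y ∈ cube n, (D.wt (sh y (cC W))).re - ∑ y ∈ cube n, (D.dt (sh y (cC W))).re := by
  simp only [Dat.actN, mainA, Complex.sub_re, Complex.add_re, sum_sub_distrib, sum_add_distrib]

theorem g_pos {D : Dat} {c R : ℕ} {τ ρ κ : ℝ} (h : D.Ok c τ R ρ κ) :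
    0 < D.Λ ∧ 0 < D.g ∧ D.β * D.g ^ 2 = 1 / (2 * D.Λ) := by
  have h1 : 0 < D.Λ := by rw [h.lam, LL]; positivity
  have h2 : 0 < D.β := lt_of_lt_of_le one_pos h.beta
  refine ⟨h1, by rw [Dat.g]; positivity, ?_⟩
  rw [Dat.g, inv_pow, Real.sq_sqrt (by positivity)]
  field_simp

theorem exponent2 {D : Dat} {c R : ℕ} {τ ρ κ : ℝ} (h : D.Ok c τ R ρ κ) {n : ℕ} (hn : 0 < n)
    {W U : Conf} (hW : Per n W) {P : (fund D.l n → E3) →ₗ[ℝ] (fund D.l n → E3)}
    (hP : ∀ z, D.pol (pP D.N) (cC W) (fun f => cE (ext D.l n 0 z f)) =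
      fun f => cE (ext D.l n 0 (P z) f)) {z : fund D.l n → E3} (hz : ∀ i, ‖z i‖ ≤ D.ζ)
    (hU : cC U = D.Uz (cC W) fun f => cE (ext D.l n 0 ((D.g • P) z) f)) :
    act D.β D.m D.ψ (LL D.l * n) U +
      D.β * LL D.l ^ 2 * ∑ b ∈ lcube n, (dot (D.res (sh b.1 (cC W)) (sh (up D.l b.1) (cC U)) b.2)
        (D.res (sh b.1 (cC W)) (sh (up D.l b.1) (cC U)) b.2)).re +
      2 * ∑ i, Real.log (1 + ‖(D.g • P) z i‖ ^ 2) =
    mainA D n W + (∑ y ∈ cube n, (cx (hh D.l D.m)
          (D.Ay y (cC W) fun f => cE (ext D.l n 0 (P z) f))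
          (D.Ay y (cC W) fun f => cE (ext D.l n 0 (P z) f))).re / D.Λ) / 2 +
      ∑ y ∈ cube n, (D.s0 (sh y (cC W)) (sh (up D.l y) (ext D.l n 0 z))).re := by
  obtain ⟨hΛ, -, hg⟩ := g_pos h
  have hA := Az_eq (zero_le_one.trans h.zeta) hP hz
  have hA' : D.Az (cC W) (ext D.l n 0 z) = fun f => cE (ext D.l n 0 ((D.g • P) z) f) :=
    hA.trans (smul_ext _ _)
  have hper : Per (LL D.l * n) fun f => cE (ext D.l n 0 ((D.g • P) z) f) := fun μ => by
    funext f
    exact congrArg cE (congrFun (ext_per D.l n 0 ((D.g • P) z) μ) f)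
  rw [exponent h n hn W U _ hW hper hU, ← sum_e4, mainA, sum_div, ← sum_add_distrib,
    ← sum_add_distrib, ← sum_add_distrib]
  refine sum_congr rfl fun y _ => ?_
  have h1 : D.Ay y (cC W) (D.Az (cC W) (ext D.l n 0 z)) =
      (D.g : ℂ) • D.Ay y (cC W) fun f => cE (ext D.l n 0 (P z) f) := by
    rw [hA]
    funext f
    simp only [Dat.Ay, adF, sh, Pi.smul_apply, adq_smul]
  rw [← hA', h1, cx_smul_smul, ← mul_assoc, ← Complex.ofReal_pow, ← Complex.ofReal_mul, hg]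
  simp only [Dat.s0, Az_sh, Complex.add_re, Complex.re_ofReal_mul]
  field_simp
  ring

end Pool.Agent.Lib.MP_7f377f_mp.RG.D3.SX
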