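import Pool.Agent.Lib.MP_7f377f_mp.H3Dec
import Pool.Agent.Lib.MP_7f377f_mp.R3Step3

/-! The four configuration decoupling inequality for the fluctuation integral. -/

noncomputable section

namespace Pool.Agent.Lib.MP_7f377f_mp.RG.D3

open Finset MeasureTheory
open scoped ENNReal

open D3.SX H3

theorem nu_ae (ζ : ℝ) : ∀ᵐ x ∂nu ζ, x ∈ Metric.closedBall (0 : E3) ζ :=
  Measure.ae_smul_measure ((withDensity_absolutelyContinuous _ _).ae_le
    (ae_restrict_mem measurableSet_closedBall)) _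

/-- weighted Gaussian integral over the product of balls -/
def gI {ι : Type} [Fintype ι] (ζ : ℝ) (F : (ι → E3) → ℝ≥0∞) (S : (ι → E3) → ℝ) : ℝ≥0∞ :=
  ∫⁻ z : ι → E3, {z : ι → E3 | ∀ i, ‖z i‖ ≤ ζ}.indicator
    (fun z => F z * ENNReal.ofReal (Real.exp (-(∑ i, ‖z i‖ ^ 2) / 2 - S z))) z

theorem gI_eq {ι : Type} [Fintype ι] {ζ : ℝ} (hζ : 0 < ζ) {F : (ι → E3) → ℝ≥0∞}
    (hF : Measurable F) {S : (ι → E3) → ℝ} (hS : Measurable S) :
    gI ζ F S = nu0 ζ Set.univ ^ Fintype.card ι *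
      ∫⁻ z, F z * bz S z ∂Measure.pi fun _ : ι => nu ζ := by
  have := nu_prob hζ
  set c := nu0 ζ Set.univ with hc
  have c0 : c ≠ 0 := nu0_ne_zero hζ
  have c1 : c ≠ ∞ := nu0_ne_top ζ
  set w : E3 → ℝ≥0∞ := c⁻¹ • (Metric.closedBall (0 : E3) ζ).indicator
    fun v => ENNReal.ofReal (Real.exp (-(‖v‖ ^ 2 / 2))) with hw
  have mw0 := measurable_gw.indicator (measurableSet_closedBall (x := (0 : E3)) (ε := ζ))
  have mw : Measurable w := mw0.const_smul _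
  have h1 : nu ζ = volume.withDensity w := by
    rw [hw, withDensity_smul _ mw0, withDensity_indicator measurableSet_closedBall]
    rfl
  have : SigmaFinite (volume.withDensity w) := h1 ▸ inferInstance
  have h2 : (Measure.pi fun _ : ι => nu ζ) = volume.withDensity fun z => ∏ i, w (z i) := by
    rw [h1, Kit.pi_withDensity (volume : Measure E3) (f := fun _ : ι => w) fun _ => mw]
    rfl
  rw [h2, lintegral_withDensity_eq_lintegral_mul (f := fun z : ι → E3 => ∏ i, w (z i)) _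
      (Finset.measurable_fun_prod _ fun i _ => mw.comp (measurable_pi_apply i))
      (hF.fun_mul (measurable_bz hS)),
    ← lintegral_const_mul' _ _ (ENNReal.pow_ne_top c1)]
  refine lintegral_congr fun z => ?_
  by_cases hz : ∀ i, ‖z i‖ ≤ ζ
  · have h3 : ∀ i, w (z i) = c⁻¹ * ENNReal.ofReal (Real.exp (-(‖z i‖ ^ 2 / 2))) := fun i => by
      rw [hw, Pi.smul_apply, Set.indicator_of_mem (mem_closedBall_zero_iff.mpr (hz i)), smul_eq_mul]
    rw [Set.indicator_of_mem (show z ∈ {z : ι → E3 | ∀ i, ‖z i‖ ≤ ζ} from hz), Pi.mul_apply]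
    simp only [h3, prod_mul_distrib, prod_const, card_univ]
    rw [← ENNReal.ofReal_prod_of_nonneg fun i _ => (Real.exp_pos _).le, ← Real.exp_sum,
      ← mul_assoc (c ^ _), ← mul_assoc (c ^ _), ← mul_pow, ENNReal.mul_inv_cancel c0 c1, one_pow,
      one_mul, mul_left_comm, bz, ← ENNReal.ofReal_mul (Real.exp_pos _).le,
      ← Real.exp_add, sum_neg_distrib, ← sum_div]
    congr 3
    ring
  · rw [Set.indicator_of_notMem (show z ∉ {z : ι → E3 | ∀ i, ‖z i‖ ≤ ζ} from hz), Pi.mul_apply]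
    obtain ⟨i, hi⟩ := not_forall.mp hz
    rw [prod_eq_zero (mem_univ i), zero_mul, mul_zero]
    rw [hw, Pi.smul_apply, Set.indicator_of_notMem (fun h => hi (mem_closedBall_zero_iff.mp h)),
      smul_zero]

/-- the small interaction on the torus -/
def sT (D : Dat) (n : ℕ) (W : Conf) (z : fund D.l n → E3) : ℝ :=
  ∑ y ∈ cube n, (D.s0 (sh y (cC W)) (sh (up D.l y) (ext D.l n 0 z))).re

/-- the sum of the local contributions to the free energy -/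
def wT (D : Dat) (n : ℕ) (W : Conf) : ℝ := ∑ y ∈ cube n, (D.wt (sh y (cC W))).re

theorem sT_bm {D : Dat} {n : ℕ} {θ : ℝ} {V : Conf}
    (hV : ∀ y, (∀ z, ‖D.s0 (sh y (cC V)) z‖ ≤ θ) ∧ Measurable (D.s0 (sh y (cC V)))) :
    Kit.BM (sT D n V) :=
  ⟨Finset.measurable_fun_sum _ fun y _ => Complex.measurable_re.comp
    ((hV y).2.comp ((measurable_sh _).comp (measurable_ext _ _ _))), ∑ _y ∈ cube n, θ,
    fun _ => (abs_sum_le_sum_abs _ _).trans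
      (sum_le_sum fun y _ => (Complex.abs_re_le_norm _).trans ((hV y).1 _))⟩

/-- the four configuration inequality for the fluctuation integral; `T1` and `T2` are periodic
sets of block labels -/
theorem four_core {D : Dat} {c R : ℕ} {τ ρ κ θ : ℝ} (h : D.Ok c τ R ρ κ) (n p : ℕ)
    (hn0 : 0 < n) (hp : p * (2 * D.Rs R + 1) ≤ D.Rb)
    (hθ : (2 * D.Rb + 1) ^ 3 * θ ≤ 1 / 100) {W W0 W1 W2 : Conf}
    (hW : ∀ V, V = W ∨ V = W0 ∨ V = W1 ∨ V = W2 → Per n V ∧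
      ∀ y, (∀ z, ‖D.s0 (sh y (cC V)) z‖ ≤ θ) ∧ Measurable (D.s0 (sh y (cC V))))
    {T1 T2 : Set St} (p1 : ∀ y, md n y ∈ T1 ↔ y ∈ T1) (p2 : ∀ y, md n y ∈ T2 ↔ y ∈ T2)
    (far : ∀ y ∈ T1, ∀ v ∈ box (2 * (D.Rb + D.Rs R)), v + y ∉ T2)
    (a1 : ∀ y ∈ T1, Agr (2 * (D.Rb + D.Rs R)) (sh y W) (sh y W1))
    (a2 : ∀ y ∈ T2, Agr (2 * (D.Rb + D.Rs R)) (sh y W) (sh y W2))
    {F F0 F1 F2 : (fund D.l n → E3) → ℝ≥0∞} (mF : Measurable F) (mF0 : Measurable F0)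
    (mF1 : Measurable F1) (mF2 : Measurable F2) {t : ℝ≥0∞}
    (h4 : ∀ z z0 z1 z2 : fund D.l n → E3, (∀ i, ‖z i‖ ≤ D.ζ) → (∀ i, ‖z0 i‖ ≤ D.ζ) →
      (∀ i, ‖z1 i‖ ≤ D.ζ) → (∀ i, ‖z2 i‖ ≤ D.ζ) → (∀ i, yo D.l i.1.1 ∈ T1 → z i = z1 i) →
      (∀ i, yo D.l i.1.1 ∈ T2 → z i = z2 i) → t * (F1 z1 * F2 z2) ≤ F z * F0 z0) :
    t * ENNReal.ofReal (Real.exp (lZ (Measure.pi fun _ => nu D.ζ) (sT D n W) +
        lZ (Measure.pi fun _ => nu D.ζ) (sT D n W0) - lZ (Measure.pi fun _ => nu D.ζ) (sT D n W1) -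
        lZ (Measure.pi fun _ => nu D.ζ) (sT D n W2) - 6 * (n ^ 3 * (8 * θ * 2⁻¹ ^ p)))) *
      ((∫⁻ z, F1 z * bz (sT D n W1) z ∂Measure.pi fun _ => nu D.ζ) *
        ∫⁻ z, F2 z * bz (sT D n W2) z ∂Measure.pi fun _ => nu D.ζ) ≤
      (∫⁻ z, F z * bz (sT D n W) z ∂Measure.pi fun _ => nu D.ζ) *
        ∫⁻ z, F0 z * bz (sT D n W0) z ∂Measure.pi fun _ => nu D.ζ := by
  classical
  have hζ : 0 < D.ζ := lt_of_lt_of_le one_pos h.zeta
  have := nu_prob hζ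
  have hw : 1 ≤ 2 * D.Rs R + 1 := by omega
  obtain ⟨q, r⟩ := hW W (.inl rfl)
  obtain ⟨q0, r0⟩ := hW W0 (.inr (.inl rfl))
  obtain ⟨q1, r1⟩ := hW W1 (.inr (.inr (.inl rfl)))
  obtain ⟨q2, r2⟩ := hW W2 (.inr (.inr (.inr rfl)))
  have θ0 : 0 ≤ θ := (norm_nonneg _).trans ((r 0).1 0)
  set S : Conf → cube n → (fund D.l n → E3) → ℝ := fun V y z =>
    (D.s0 (sh y (cC V)) (sh (up D.l y) (ext D.l n 0 z))).re with hS
  set B : cube n → Finset (cube n) := fun j =>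
    (box D.Rb).image fun v => ⟨md n (v + j), md_mem hn0 _⟩ with hB
  set dep : cube n → Set (fund D.l n) := fun j =>
    {i | ∃ v ∈ box (D.Rs R), yo D.l i.1.1 = md n (v + j)} with hdep
  have loc : ∀ V : Conf, (∀ y, (∀ z, ‖D.s0 (sh y (cC V)) z‖ ≤ θ) ∧
      Measurable (D.s0 (sh y (cC V)))) → Loc dep θ (S V) := fun V hV =>
    ⟨fun j => Complex.measurable_re.comp ((hV j).2.comp
      ((measurable_sh _).comp (measurable_ext _ _ _))),
    fun j z z' hz => by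
      simp only [hS]
      rw [Dat.s0_agr h (fun _ _ => rfl) (z' := sh (up D.l j) (ext D.l n 0 z')) fun e he => ?_]
      simp only [sh, ext]
      split_ifs with hf
      · exact hz _ ⟨_, yo_mem_box (mem_lbox.mp he), by rw [yo_rp, yo_add_up]⟩
      · rfl,
    fun j z => (Complex.abs_re_le_norm _).trans ((hV _).1 _)⟩
  have eS : ∀ V, (fun z => ∑ j, S V j z) = sT D n V := fun V => funext fun z =>
    sum_coe_sort (cube n) fun y => (D.s0 (sh y (cC V)) (sh (up D.l y) (ext D.l n 0 z))).re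
  have agr : ∀ {V : Conf} {T : Set St}, Per n V →
      (∀ y ∈ T, Agr (2 * (D.Rb + D.Rs R)) (sh y W) (sh y V)) →
      ∀ j : cube n, ∀ v ∈ box (D.Rb + D.Rs R), v + j ∈ T → ∀ j' ∈ B j, S W j' = S V j' := by
    intro V T hV ha j v hv hj j' hj'
    obtain ⟨v', hv', rfl⟩ := mem_image.mp hj'
    funext z
    simp only [hS]
    rw [Dat.s0_agr h (W' := sh (md n (v' + j)) (cC V)) (fun e he => ?_) fun _ _ => rfl]
    rw [← per_sh (per_cC q) _ fun i => (v' + j) i / (n : ℤ),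
      ← per_sh (per_cC hV) _ fun i => (v' + j) i / (n : ℤ), ← md_eq]
    have h1 := ha _ hj (e.1 + v' + -v, e.2) (mem_lbox.mpr (box_mono (by omega)
      (add_mem_box (add_mem_box (mem_lbox.mp he) hv') (neg_mem_box hv))))
    simp only [sh, cC] at h1 ⊢
    have h2 : e.1 + v' + -v + (v + j) = e.1 + (v' + j) := by abel
    rw [h2] at h1
    rw [h1]
  have dis : ∀ {T : Set St}, (∀ y, md n y ∈ T ↔ y ∈ T) → ∀ j : cube n,
      (∀ v ∈ box (D.Rb + D.Rs R), v + j ∉ T) →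
      ∀ j' ∈ B j, Disjoint (dep j') {i | yo D.l i.1.1 ∈ T} := by
    intro T hT j hj j' hj'
    obtain ⟨v', hv', rfl⟩ := mem_image.mp hj'
    refine Set.disjoint_left.mpr fun i ⟨v, hv, h1⟩ h2 => hj (v' + v) (add_mem_box hv' hv) ?_
    have h3 : yo D.l i.1.1 ∈ T := h2
    rw [h1, add_comm v, md_md_add, hT] at h3
    rwa [add_right_comm]
  have key := four (nu D.ζ) (nu_ae D.ζ) (loc W r) (loc W1 r1) (loc W2 r2) (loc W0 r0).bm
    (fun a b => Nat.find (near_ex hw a b))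
    (fun j => (Nat.find_eq_zero _).mpr ⟨0, mem_box.mpr fun i => by simp,
      by rw [zero_add, md_of_mem j.2]⟩)
    (fun a b c => Nat.find_le ((Nat.find_spec (near_ex hw a b)).trans
      (Nat.find_spec (near_ex hw b c))))
    (fun a b hab => Set.disjoint_left.mpr fun i ⟨v, hv, h1⟩ ⟨v', hv', h2⟩ => by
      refine Nat.find_min (near_ex hw a b) hab ⟨v + -v',
        box_mono (by omega) (add_mem_box hv (neg_mem_box hv')), ?_⟩
      rw [add_right_comm, ← md_md_add, ← h1, h2, md_md_add, add_right_comm, add_neg_cancel,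
        zero_add, md_of_mem b.2]) p B
    (fun j j' hj => by
      obtain ⟨v, h1, h2⟩ := (Nat.find_spec (near_ex hw j j')).mono hj
      exact mem_image.mpr ⟨v, box_mono hp h1, Subtype.ext h2⟩)
    (fun j => le_trans (mul_le_mul_of_nonneg_right (by
      have : (B j).card ≤ (2 * D.Rb + 1) ^ 3 := card_image_le.trans (card_box _).le
      exact_mod_cast this) θ0) hθ)
    (A1 := {i | yo D.l i.1.1 ∈ T1}) (A2 := {i | yo D.l i.1.1 ∈ T2})
    (Set.disjoint_left.mpr fun i h1 h2 => far _ h1 0 (Li.zero_mem_box _)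
      (by rw [zero_add]; exact h2))
    (fun j => by
      by_cases c1 : ∃ v ∈ box (D.Rb + D.Rs R), v + j ∈ T1
      · obtain ⟨v, hv, hj⟩ := c1
        refine .inl fun j' hj' => ⟨dis p2 j (fun v' hv' h2 => ?_) j' hj',
          agr q1 a1 j v hv hj j' hj'⟩
        refine far _ hj (v' + -v) (box_mono (by omega) (add_mem_box hv' (neg_mem_box hv))) ?_
        rwa [add_assoc, neg_add_cancel_left]
      have d1 := dis p1 j fun v hv h1 => c1 ⟨v, hv, h1⟩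
      by_cases c2 : ∃ v ∈ box (D.Rb + D.Rs R), v + j ∈ T2
      · obtain ⟨v, hv, hj⟩ := c2
        exact .inr (.inl fun j' hj' => ⟨d1 j' hj', agr q2 a2 j v hv hj j' hj'⟩)
      · exact .inr (.inr fun j' hj' =>
          ⟨d1 j' hj', dis p2 j (fun v hv h1 => c2 ⟨v, hv, h1⟩) j' hj'⟩))
    mF mF0 mF1 mF2 (t := t) fun z z0 z1 z2 k k0 k1 k2 e1 e2 => h4 z z0 z1 z2
      (fun i => mem_closedBall_zero_iff.mp (k i)) (fun i => mem_closedBall_zero_iff.mp (k0 i))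
      (fun i => mem_closedBall_zero_iff.mp (k1 i)) (fun i => mem_closedBall_zero_iff.mp (k2 i))
      e1 e2
  simp only [eS] at key
  rw [Fintype.card_coe, card_cube] at key
  exact_mod_cast key

/-- the same inequality for Gaussian integrals over balls -/
theorem four_fluct {D : Dat} {c R : ℕ} {τ ρ κ θ : ℝ} (h : D.Ok c τ R ρ κ) (n p : ℕ)
    (hn : 2 * (D.Rb + D.Rs R) + 1 ≤ n) (hp : p * (2 * D.Rs R + 1) ≤ D.Rb)
    (hθ : (2 * D.Rb + 1) ^ 3 * θ ≤ 1 / 100) {W W0 W1 W2 : Conf}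
    (hW : ∀ V, V = W ∨ V = W0 ∨ V = W1 ∨ V = W2 → Per n V ∧
      ∀ y, (∀ z, ‖D.s0 (sh y (cC V)) z‖ ≤ θ) ∧ Measurable (D.s0 (sh y (cC V))))
    {T1 T2 : Set St} (p1 : ∀ y, md n y ∈ T1 ↔ y ∈ T1) (p2 : ∀ y, md n y ∈ T2 ↔ y ∈ T2)
    (far : ∀ y ∈ T1, ∀ v ∈ box (2 * (D.Rb + D.Rs R)), v + y ∉ T2)
    (a1 : ∀ y ∈ T1, Agr (2 * (D.Rb + D.Rs R)) (sh y W) (sh y W1))
    (a2 : ∀ y ∈ T2, Agr (2 * (D.Rb + D.Rs R)) (sh y W) (sh y W2))
    {F F0 F1 F2 : (fund D.l n → E3) → ℝ≥0∞} (mF : Measurable F) (mF0 : Measurable F0)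
    (mF1 : Measurable F1) (mF2 : Measurable F2) {t : ℝ≥0∞}
    (h4 : ∀ z z0 z1 z2 : fund D.l n → E3, (∀ i, ‖z i‖ ≤ D.ζ) → (∀ i, ‖z0 i‖ ≤ D.ζ) →
      (∀ i, ‖z1 i‖ ≤ D.ζ) → (∀ i, ‖z2 i‖ ≤ D.ζ) → (∀ i, yo D.l i.1.1 ∈ T1 → z i = z1 i) →
      (∀ i, yo D.l i.1.1 ∈ T2 → z i = z2 i) → t * (F1 z1 * F2 z2) ≤ F z * F0 z0) :
    t * ENNReal.ofReal (Real.exp (wT D n W1 + wT D n W2 - wT D n W - wT D n W0 -
        10 * (n ^ 3 * (8 * θ * 2⁻¹ ^ p)))) *
      (gI D.ζ F1 (sT D n W1) * gI D.ζ F2 (sT D n W2)) ≤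
      gI D.ζ F (sT D n W) * gI D.ζ F0 (sT D n W0) := by
  have key := four_core h n p (by omega) hp hθ hW p1 p2 far a1 a2 mF mF0 mF1 mF2 h4
  have hζ : 0 < D.ζ := lt_of_lt_of_le one_pos h.zeta
  obtain ⟨q, r⟩ := hW W (.inl rfl)
  obtain ⟨q0, r0⟩ := hW W0 (.inr (.inl rfl))
  obtain ⟨q1, r1⟩ := hW W1 (.inr (.inr (.inl rfl)))
  obtain ⟨q2, r2⟩ := hW W2 (.inr (.inr (.inr rfl)))
  have lf : ∀ V : Conf, Per n V → (∀ y, (∀ z, ‖D.s0 (sh y (cC V)) z‖ ≤ θ) ∧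
      Measurable (D.s0 (sh y (cC V)))) →
      |lZ (Measure.pi fun _ : fund D.l n => nu D.ζ) (sT D n V) + wT D n V| ≤
        n ^ 3 * (8 * θ * 2⁻¹ ^ p) := fun V hV hV' =>
    log_fluct h n p hn hp V hV (fun y => (hV' y).1) (fun y => (hV' y).2) hθ
  rw [gI_eq hζ mF (sT_bm r).1, gI_eq hζ mF0 (sT_bm r0).1, gI_eq hζ mF1 (sT_bm r1).1,
    gI_eq hζ mF2 (sT_bm r2).1, mul_mul_mul_comm (_ ^ _), mul_mul_mul_comm (_ ^ _) (lintegral _ _),
    mul_left_comm]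
  refine mul_le_mul_right (le_trans (mul_le_mul_left (mul_le_mul_right
    (ENNReal.ofReal_le_ofReal (Real.exp_le_exp.mpr ?_)) _) _) key) _
  linarith [(abs_le.mp (lf W q r)).1, (abs_le.mp (lf W0 q0 r0)).1, (abs_le.mp (lf W1 q1 r1)).2,
    (abs_le.mp (lf W2 q2 r2)).2]

end Pool.Agent.Lib.MP_7f377f_mp.RG.D3
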