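import Pool.Agent.Lib.MP_7f377f_mp.H3Flu
import Pool.Agent.Lib.MP_7f377f_mp.HDefs

/-! Conditional decoupling of the fluctuation integral. -/

noncomputable section

namespace Pool.Agent.Lib.MP_7f377f_mp.RG.D3.Hq

open Finset MeasureTheory
open scoped ENNReal

open D3.SX H3

theorem lint_tilt {Ω : Type} [MeasurableSpace Ω] (P : Measure Ω) [IsProbabilityMeasure P]
    {S : Ω → ℝ} (hS : Kit.BM S) (F : Ω → ℝ≥0∞) :
    ∫⁻ z, F z ∂(P.tilted fun z => -S z) =
      ENNReal.ofReal (Real.exp (-lZ P S)) * ∫⁻ z, F z * bz S z ∂P := by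
  have bm : Kit.BM fun z => -S z := by
    obtain ⟨m, C, hC⟩ := hS
    exact ⟨m.neg, C, fun z => by rw [abs_neg]; exact hC z⟩
  rw [lintegral_tilted, ← lintegral_const_mul' _ _ ENNReal.ofReal_ne_top]
  refine lintegral_congr fun z => ?_
  rw [mul_comm (F z), ← mul_assoc, bz, ← ENNReal.ofReal_mul (Real.exp_pos _).le, Real.exp_neg (lZ P S),
    lZ, Real.exp_log (bm.pos P), div_eq_inv_mul]

/-- the periodic slab of block labels -/
def PS (n : ℕ) (c : ℤ) (w : ℕ) : Set St := {y | ∃ k : ℤ, |y 0 - c - n * k| ≤ w}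

theorem PS_md (n : ℕ) (c : ℤ) (w : ℕ) (y : St) : md n y ∈ PS n c w ↔ y ∈ PS n c w := by
  have e : md n y 0 = y 0 - n * (y 0 / n) := Int.emod_def _ _
  constructor
  · rintro ⟨k, hk⟩
    refine ⟨k + y 0 / n, ?_⟩
    rw [e] at hk
    rwa [mul_add, ← sub_sub, sub_right_comm, sub_right_comm (y 0)]
  · rintro ⟨k, hk⟩
    refine ⟨k - y 0 / n, ?_⟩
    rw [e]
    have : y 0 - n * (y 0 / n) - c - n * (k - y 0 / n) = y 0 - c - n * k := by ring
    rwa [this]

theorem PS_agr {α : Type} {n w a w' : ℕ} {c : ℤ} {W V : Lk → α} (hW : Per n W) (hV : Per n V)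
    (h : Slab c w' W V) (hw : w + a ≤ w') : ∀ y ∈ PS n c w, Agr a (sh y W) (sh y V) := by
  rintro y ⟨k, hk⟩ e he
  rw [← per_sh hW y (-k • un 0), ← per_sh hV y (-k • un 0)]
  refine h _ ?_
  have h1 := mem_box.mp (mem_lbox.mp he) 0
  have h2 : (w : ℤ) + a ≤ w' := by exact_mod_cast hw
  simp only [Pi.add_apply, Pi.smul_apply, un, Pi.single_eq_same, smul_eq_mul, mul_one]
  rw [abs_le] at hk ⊢
  constructor <;> linarith [hk.1, hk.2, h1.1, h1.2]

theorem PS_ext {α : Type} {l n w : ℕ} {c : ℤ} (o : α) {z z' : fund l n → α}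
    (h : ∀ i : fund l n, yo l i.1.1 ∈ PS n c w → z i = z' i) :
    Slab (LL l * c) (fb l w) (ext l n o z) (ext l n o z') := by
  intro e he
  simp only [ext]
  split_ifs with hf
  · refine h _ ?_
    rw [yo_rp, PS_md]
    refine ⟨0, ?_⟩
    have h2 := mem_box.mp (sub_up_mem l e.1) 0
    simp only [fb, LL, Pi.sub_apply, up_apply] at he h2
    push_cast at he h2
    rw [abs_le] at he ⊢
    rw [mul_zero, sub_zero]
    constructor
    · by_contra h
      have : yo l e.1 0 - c ≤ -(w : ℤ) - 1 := by omega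
      nlinarith [he.1, h2.2]
    · by_contra h
      have : (w : ℤ) + 1 ≤ yo l e.1 0 - c := by omega
      nlinarith [he.2, h2.1]
  · rfl

theorem wdec_main : WDec := by
  intro D c R τ ρ κ θ h n p c0 w w' hp hw hc0 hc1 hθ W W0 W1 W2 hW s1 s2 t F F0 F1 F2 mF mF0 mF1
    mF2 h4
  have := nu_prob (lt_of_lt_of_le one_pos h.zeta)
  obtain ⟨q, r⟩ := hW W (.inl rfl)
  obtain ⟨q0, r0⟩ := hW W0 (.inr (.inl rfl))
  obtain ⟨q1, r1⟩ := hW W1 (.inr (.inr (.inl rfl)))
  obtain ⟨q2, r2⟩ := hW W2 (.inr (.inr (.inr rfl)))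
  have key := four_core h n p (by omega) hp hθ hW (PS_md n 0 w) (PS_md n c0 w)
    (fun y ⟨k, hk⟩ v hv ⟨k', hk'⟩ => by
      have h1 := mem_box.mp hv 0
      have h2 : (w : ℤ) + 2 * (D.Rb + D.Rs R + 2) ≤ w' := by exact_mod_cast hw
      have h3 : 2 * (w' : ℤ) + 1 ≤ c0 := by exact_mod_cast hc0
      have h4 : (c0 : ℤ) + 2 * w' + 1 ≤ n := by exact_mod_cast hc1
      rw [Pi.add_apply, abs_le] at hk'
      rw [abs_le] at hk
      push_cast at h1
      have h5 : (0 : ℤ) ≤ n := Int.natCast_nonneg n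
      have h6 : (0 : ℤ) ≤ D.Rb + D.Rs R := by positivity
      rcases le_or_gt k k' with h7 | h7
      · nlinarith [hk.1, hk.2, hk'.1, hk'.2, mul_le_mul_of_nonneg_left h7 h5]
      · nlinarith [hk.1, hk.2, hk'.1, hk'.2,
          mul_le_mul_of_nonneg_left (Int.add_one_le_of_lt h7) h5])
    (PS_agr q q1 s1 (by omega)) (PS_agr q q2 s2 (by omega)) mF mF0 mF1 mF2 (t := t)
    fun z z0 z1 z2 _ _ _ _ e1 e2 => h4 z z0 z1 z2 (by simpa using PS_ext 0 e1)
      (by exact_mod_cast PS_ext 0 e2)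
  have e : ∀ V, fm D n V = (Measure.pi fun _ => nu D.ζ).tilted fun z => -sT D n V z :=
    fun _ => rfl
  rw [e, e, e, e, lint_tilt _ (sT_bm r), lint_tilt _ (sT_bm r0), lint_tilt _ (sT_bm r1),
    lint_tilt _ (sT_bm r2), mul_mul_mul_comm (ENNReal.ofReal _) (lintegral _ _),
    mul_mul_mul_comm (ENNReal.ofReal _) (lintegral _ _)]
  refine le_trans (le_of_eq ?_) (mul_le_mul_right key _)
  have k : ∀ a b c d e f : ℝ, ∀ X : ℝ≥0∞, a + (b + c) = d + e + f →
      ENNReal.ofReal (Real.exp a) * t *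
        (ENNReal.ofReal (Real.exp b) * ENNReal.ofReal (Real.exp c) * X) =
      ENNReal.ofReal (Real.exp d) * ENNReal.ofReal (Real.exp e) *
        (t * ENNReal.ofReal (Real.exp f) * X) := fun a b c d e f X h => by
    have h1 := congrArg (fun x => ENNReal.ofReal (Real.exp x) * (t * X)) h
    simp only [Real.exp_add, ENNReal.ofReal_mul (Real.exp_pos _).le,
      ENNReal.ofReal_mul (mul_pos (Real.exp_pos _) (Real.exp_pos _)).le] at h1
    exact .trans (by ring) (h1.trans (by ring))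
  exact k _ _ _ _ _ _ _ (by ring)

end Pool.Agent.Lib.MP_7f377f_mp.RG.D3.Hq
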