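import Pool.Agent.Lib.MP_7f377f_mp.RGMeasKer

/-! Measurability and gauge covariance of the block spin map. -/

noncomputable section

namespace Pool.Agent.Lib.MP_7f377f_mp.RG

open MeasureTheory Measure Set
open scoped Quaternion ENNReal

namespace Ms

section grp
variable {G : Type} [Group G]

theorem lnP_gauge (u : St → G) (U : Lk → G) (p : St) (μ : Fin 4) (k : ℕ) :
    lnP (gauge Inv.inv u U) p μ k = u p * lnP U p μ k * (u (p + (k : ℤ) • un μ))⁻¹ := by
  induction k with
  | zero => simp [lnP]
  | succ k ih =>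
    rw [lnP, lnP, ih, gauge]
    simp only [Nat.cast_succ, add_smul, one_smul, add_assoc]
    group

theorem lnN_gauge (u : St → G) (U : Lk → G) (p : St) (μ : Fin 4) (k : ℕ) :
    lnN Inv.inv (gauge Inv.inv u U) p μ k =
      u p * lnN Inv.inv U p μ k * (u (p - (k : ℤ) • un μ))⁻¹ := by
  induction k with
  | zero => simp [lnN]
  | succ k ih =>
    have e : p - ((k : ℤ) + 1) • un μ + un μ = p - (k : ℤ) • un μ := by
      rw [add_smul, one_smul]; abel
    rw [lnN, lnN, ih, gauge]
    simp only [Nat.cast_succ, e]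
    group

theorem ln_gauge (u : St → G) (U : Lk → G) (p : St) (μ : Fin 4) (n : ℤ) :
    ln Inv.inv (gauge Inv.inv u U) p μ n = u p * ln Inv.inv U p μ n * (u (p + n • un μ))⁻¹ := by
  rcases le_total 0 n with h | h
  · have h1 : (-n).toNat = 0 := by omega
    rw [ln, ln, h1, lnP_gauge, Int.toNat_of_nonneg h]
    simp [lnN]
  · have h1 : n.toNat = 0 := by omega
    rw [ln, ln, h1, lnN_gauge, Int.toNat_of_nonneg (by omega)]
    simp [lnP]

theorem pre_0 (x : St) : pre x 0 = 0 := by
  funext i; simp [pre]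

theorem pre_1 (x : St) : pre x 0 + x 0 • un 0 = pre x 1 := by
  funext i; fin_cases i <;> simp [pre, un]

theorem pre_2 (x : St) : pre x 1 + x 1 • un 1 = pre x 2 := by
  funext i; fin_cases i <;> simp [pre, un]

theorem pre_3 (x : St) : pre x 2 + x 2 • un 2 = pre x 3 := by
  funext i; fin_cases i <;> simp [pre, un]

theorem pre_4 (x : St) : pre x 3 + x 3 • un 3 = x := by
  funext i; fin_cases i <;> simp [pre, un]

theorem cmb_gauge (u : St → G) (U : Lk → G) (x : St) :
    cmb Inv.inv (gauge Inv.inv u U) x = u 0 * cmb Inv.inv U x * (u x)⁻¹ := by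
  simp only [cmb, ln_gauge, pre_1, pre_2, pre_3, pre_4]
  rw [pre_0]
  group

theorem sh_gauge (u : St → G) (U : Lk → G) (x : St) :
    sh x (gauge Inv.inv u U) = gauge Inv.inv (fun y => u (y + x)) (sh x U) := by
  funext e
  simp only [sh, gauge, add_right_comm]

theorem hol_gauge (u : St → G) (U : Lk → G) (x : St) (μ ν : Fin 4) :
    hol Inv.inv (gauge Inv.inv u U) x μ ν = u x * hol Inv.inv U x μ ν * (u x)⁻¹ := by
  simp only [hol, gauge, add_right_comm x (un ν) (un μ)]
  group

end grp

theorem avq_gauge (l : ℕ) (μ : Fin 4) (u : St → S3) (U : Conf) :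
    avq l μ (gauge Inv.inv u U) = (u 0).q * avq l μ U * ((u (up l (un μ)))⁻¹).q := by
  rw [avq, avq, mul_smul_comm, smul_mul_assoc, Finset.mul_sum, Finset.sum_mul]
  congr 1
  refine Finset.sum_congr rfl fun t _ => ?_
  rw [← q_mul, ← q_mul, sh_gauge, cmb_gauge, cmb_gauge, lnP_gauge, zero_add]
  congr 1
  rw [show t + up l (un μ) = t + ((LL l : ℕ) : ℤ) • un μ from rfl]
  group

open Classical in
theorem av_eq (l : ℕ) (μ : Fin 4) (U : Conf) :
    av l μ U = if avq l μ U = 0 then lnP U 0 μ (LL l) else nrq (avq l μ U) := by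
  rw [av]
  split_ifs with h
  · rfl
  · rw [nrq, dif_neg h]

theorem av_gauge (l : ℕ) (μ : Fin 4) (u : St → S3) (U : Conf) :
    av l μ (gauge Inv.inv u U) = u 0 * av l μ U * (u (up l (un μ)))⁻¹ := by
  have hn : ‖avq l μ (gauge Inv.inv u U)‖ = ‖avq l μ U‖ := by
    rw [avq_gauge, norm_mul, norm_mul, norm_q, norm_q, one_mul, mul_one]
  rw [av_eq, av_eq]
  by_cases h : avq l μ U = 0
  · rw [if_pos h, if_pos (norm_eq_zero.1 (by rw [hn, h, norm_zero])), lnP_gauge, zero_add]
    rfl
  · have h' : avq l μ (gauge Inv.inv u U) ≠ 0 := fun h' =>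
      h (norm_eq_zero.1 (by rw [← hn, h', norm_zero]))
    rw [if_neg h, if_neg h']
    refine q_inj ?_
    rw [q_mul, q_mul, nrq_q h, nrq_q h', hn, avq_gauge, mul_smul_comm, smul_mul_assoc]

theorem cont_lnP (p : St) (μ : Fin 4) (k : ℕ) : Continuous fun U : Conf => lnP U p μ k := by
  induction k with
  | zero => exact continuous_const
  | succ k ih => exact ih.mul (continuous_apply _)

theorem cont_lnN (p : St) (μ : Fin 4) (k : ℕ) :
    Continuous fun U : Conf => lnN Inv.inv U p μ k := by
  induction k with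
  | zero => exact continuous_const
  | succ k ih => exact ih.mul (continuous_apply _).inv

theorem cont_ln (p : St) (μ : Fin 4) (n : ℤ) : Continuous fun U : Conf => ln Inv.inv U p μ n :=
  (cont_lnP _ _ _).mul (cont_lnN _ _ _)

theorem cont_cmb (x : St) : Continuous fun U : Conf => cmb Inv.inv U x :=
  (((cont_ln _ _ _).mul (cont_ln _ _ _)).mul (cont_ln _ _ _)).mul (cont_ln _ _ _)

theorem cont_sh (x : St) : Continuous fun U : Conf => sh x U :=
  continuous_pi fun _ => continuous_apply _

theorem cont_per (n : ℕ) : Continuous fun U : Conf => per n U :=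
  continuous_pi fun _ => continuous_apply _

theorem cont_hol (x : St) (μ ν : Fin 4) : Continuous fun U : Conf => hol Inv.inv U x μ ν := by
  unfold hol
  fun_prop

theorem cont_avq (l : ℕ) (μ : Fin 4) : Continuous (avq l μ) := by
  have h : Continuous fun U : Conf => ∑ t ∈ box l,
      (cmb Inv.inv U t * lnP U t μ (LL l) * (cmb Inv.inv (sh (up l (un μ)) U) t)⁻¹).q := by
    refine continuous_finsetSum _ fun t _ => ?_
    have h1 : Continuous fun U : Conf => cmb Inv.inv (sh (up l (un μ)) U) t :=
      (cont_cmb t).comp (cont_sh _)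
    exact cont_q.comp (((cont_cmb t).mul (cont_lnP t μ (LL l))).mul h1.inv)
  exact h.const_smul (((LL l : ℝ) ^ 4)⁻¹)

theorem meas_av (l : ℕ) (μ : Fin 4) : Measurable (av l μ) := by
  classical
  borelize ℍ
  have h1 : Measurable nrq := measurable_of_continuousOn_compl_singleton 0 contOn_nrq
  have h2 : Measurable (avq l μ) := (cont_avq l μ).measurable
  rw [funext (av_eq l μ)]
  exact Measurable.ite (h2 (measurableSet_singleton 0)) (cont_lnP _ _ _).measurable (h1.comp h2)

end Ms

open Ms

theorem measurable_blk (l : ℕ) : Measurable (blk l) :=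
  measurable_pi_lambda _ fun b => (meas_av l b.2).comp (cont_sh _).measurable

theorem blk_gauge (l : ℕ) (u : St → S3) (U : Conf) :
    blk l (gauge Inv.inv u U) = gauge Inv.inv (fun y => u (up l y)) (blk l U) := by
  funext b
  rw [blk, sh_gauge, av_gauge, gauge, zero_add, blk]
  congr 3
  simp only [up, smul_add, add_comm]

namespace Ms

instance prob_PP : IsProbabilityMeasure PP := by unfold PP; infer_instance

theorem meas_link (l : ℕ) (b : Lk) :
    Measurable fun p : Conf × Conf => p.1 b * (blk l p.2 b)⁻¹ := by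
  have h1 : Measurable fun p : Conf × Conf => p.1 b := (measurable_pi_apply b).comp measurable_fst
  have h2 : Measurable fun p : Conf × Conf => blk l p.2 b :=
    (measurable_pi_apply b).comp ((measurable_blk l).comp measurable_snd)
  exact h1.mul h2.inv

theorem meas_ker (l : ℕ) (a : ℝ) (n : ℕ) :
    Measurable fun p : Conf × Conf => ∏ b ∈ lcube n, hk a (p.1 b * (blk l p.2 b)⁻¹) :=
  Finset.measurable_fun_prod _ fun b _ => (meas_hk a).comp (meas_link l b)

theorem meas_curv (ε : ℝ) : MeasurableSet {U : Conf | curvG ε U} := by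
  simp only [curvG, ofPred_forall]
  refine MeasurableSet.iInter fun x => MeasurableSet.iInter fun μ => MeasurableSet.iInter fun ν => ?_
  exact measurableSet_le (meas_nsub.comp (cont_hol x μ ν).measurable) measurable_const

theorem meas_noise (l : ℕ) (ε : ℝ) : MeasurableSet {p : Conf × Conf | noiseG l ε p.2 p.1} := by
  simp only [noiseG, ofPred_forall]
  refine MeasurableSet.iInter fun b => ?_
  exact measurableSet_le (meas_nsub.comp (meas_link l b)) measurable_const

theorem meas_good (l : ℕ) (ε : ℝ) :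
    MeasurableSet {p : Conf × Conf | curvG ε p.2 ∧ noiseG l ε p.2 p.1} :=
  (measurable_snd (meas_curv ε)).inter (meas_noise l ε)

/-- the integrand of one step -/
def itg (l : ℕ) (a : ℝ) (n : ℕ) (F : Conf → ℝ≥0∞) (W V : Conf) : ℝ≥0∞ :=
  F V * ∏ b ∈ lcube n, hk a (W b * (blk l V b)⁻¹)

open Classical in
/-- the restricted integrand of one step -/
def itgG (l : ℕ) (a ε : ℝ) (n : ℕ) (F : Conf → ℝ≥0∞) (W V : Conf) : ℝ≥0∞ :=
  (if curvG ε V ∧ noiseG l ε V W then F V else 0) * ∏ b ∈ lcube n, hk a (W b * (blk l V b)⁻¹)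

theorem meas_itg (l : ℕ) (a : ℝ) (n : ℕ) {F : Conf → ℝ≥0∞} (hF : Measurable F) :
    Measurable fun p : Conf × Conf => itg l a n F p.1 p.2 :=
  (hF.comp measurable_snd).mul (meas_ker l a n)

theorem meas_itgG (l : ℕ) (a ε : ℝ) (n : ℕ) {F : Conf → ℝ≥0∞} (hF : Measurable F) :
    Measurable fun p : Conf × Conf => itgG l a ε n F p.1 p.2 :=
  (Measurable.ite (meas_good l ε) (hF.comp measurable_snd) measurable_const).mul (meas_ker l a n)

theorem rho_eq (l : ℕ) (β : ℝ) (j n : ℕ) (W : Conf) : rho l β (j + 1) n W =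
    ∫⁻ U, itg l (β * LL l ^ 2) n (rho l β j (LL l * n)) W (per (LL l * n) U) ∂PP := rfl

theorem rhoG_eq (l : ℕ) (β ε : ℝ) (j n : ℕ) (W : Conf) : rhoG l β ε (j + 1) n W =
    ∫⁻ U, itgG l (β * LL l ^ 2) ε n (rhoG l β ε j (LL l * n)) W (per (LL l * n) U) ∂PP := rfl

theorem meas_wil (n : ℕ) : Measurable (wil n) := by
  refine Finset.measurable_fun_sum _ fun x _ => Finset.measurable_fun_sum _ fun μ _ =>
    Finset.measurable_fun_sum _ fun ν _ => ?_
  split_ifs
  · exact (meas_re.comp (cont_hol x μ ν).measurable).const_mul 2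
  · exact measurable_const

end Ms

theorem measurable_rho (l : ℕ) (β ε : ℝ) (j n : ℕ) :
    Measurable (rho l β j n) ∧ Measurable (rhoG l β ε j n) := by
  induction j generalizing n with
  | zero =>
    have h : Measurable fun U => ENNReal.ofReal (Real.exp (β * wil n U)) :=
      ((meas_wil n).const_mul β).exp.ennreal_ofReal
    exact ⟨h, h⟩
  | succ j ih =>
    have hp : Measurable fun p : Conf × Conf => (p.1, per (LL l * n) p.2) :=
      measurable_fst.prodMk ((cont_per _).measurable.comp measurable_snd)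
    constructor
    · rw [funext (rho_eq l β j n)]
      exact ((meas_itg l _ n (ih _).1).comp hp).lintegral_prod_right'
    · rw [funext (rhoG_eq l β ε j n)]
      exact ((meas_itgG l _ ε n (ih _).2).comp hp).lintegral_prod_right'

end Pool.Agent.Lib.MP_7f377f_mp.RG
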