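import Pool.Agent.Lib.MP_7f377f_mp.RGAp3
import Pool.Agent.Lib.MP_7f377f_mp.RGMeasBlk
import Pool.Agent.Lib.MP_7f377f_mp.PModel

/-! The concrete block spin transformation as a multi-scale model. -/

noncomputable section

namespace Pool.Agent.Lib.MP_7f377f_mp.RG.Pv

open Finset MeasureTheory
open scoped Quaternion ENNReal

instance haar_inv : haar.IsInvInvariant := Weak.haar_inv haar

theorem dl_eq (i μ : Fin 4) : RGP.dl i μ = un μ i := (un_apply μ i).symm

section grp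
variable {G : Type} [Group G] {U : Lk → G}

theorem cmb_step (U : Lk → G) {p : St} {ν : Fin 4} (h : Tr p ν) :
    cmb Inv.inv U (p + un ν) = cmb Inv.inv U p * U (p, ν) := by
  rcases le_or_gt 0 (p ν) with h0 | h0
  · exact cmb_fwd _ _ h h0
  · rw [cmb_bwd _ _ h h0, inv_mul_cancel_right]

theorem cmb_unique {u : St → G} (h0 : u 0 = 1)
    (h : ∀ p ν, Tr p ν → u (p + un ν) = u p * U (p, ν)) (x : St) : cmb Inv.inv U x = u x := by
  induction x using site_ind with
  | h0 => simp [h0]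
  | hp p ν h1 _ ih => rw [cmb_step U h1, h p ν h1, ih]
  | hn p ν h1 _ ih => exact mul_right_cancel (by rw [← cmb_step U h1, ← h p ν h1, ih])

theorem lnP_left (U : Lk → G) (p : St) (μ : Fin 4) (k : ℕ) :
    lnP U p μ (k + 1) = U (p, μ) * lnP U (p + un μ) μ k := by
  induction k with
  | zero => simp [lnP]
  | succ k ih =>
    rw [lnP, ih, lnP, mul_assoc]
    congr 4
    push_cast
    rw [add_smul, one_smul]
    abel

theorem lnP_sh (y : St) (U : Lk → G) (p : St) (μ : Fin 4) (k : ℕ) :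
    lnP (sh y U) p μ k = lnP U (p + y) μ k := by
  induction k with
  | zero => rfl
  | succ k ih => rw [lnP, lnP, ih, sh_apply, add_right_comm]

theorem lnP_agr {U' : Lk → G} {p : St} {μ : Fin 4} {k : ℕ}
    (h : ∀ i < k, U (p + (i : ℤ) • un μ, μ) = U' (p + (i : ℤ) • un μ, μ)) :
    lnP U p μ k = lnP U' p μ k := by
  induction k with
  | zero => rfl
  | succ k ih => rw [lnP, lnP, ih fun i hi => h i (by omega), h k (by omega)]

/-- reflection of sites -/
def rf (T : Fin 4 → Bool) (x : St) : St := fun i => if T i then -x i else x i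

theorem rf_add (T : Fin 4 → Bool) (x y : St) : rf T (x + y) = rf T x + rf T y := by
  funext i
  simp only [rf, Pi.add_apply]
  split_ifs <;> ring

theorem rf_smul (T : Fin 4 → Bool) (c : ℤ) (x : St) : rf T (c • x) = c • rf T x := by
  funext i
  simp only [rf, Pi.smul_apply, smul_eq_mul]
  split_ifs <;> ring

theorem rf_rf (T : Fin 4 → Bool) (x : St) : rf T (rf T x) = x := by
  funext i
  simp only [rf]
  split_ifs <;> ring

theorem rf_un (T : Fin 4 → Bool) (μ : Fin 4) : rf T (un μ) = if T μ then -un μ else un μ := by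
  funext i
  by_cases h : i = μ
  · subst h
    simp only [rf]
    split_ifs <;> rfl
  · simp only [rf, un_ne h]
    split_ifs <;> simp [un_ne h]

theorem rf_zero (T : Fin 4 → Bool) : rf T 0 = 0 := by
  funext i
  simp [rf]

theorem rf_mem_box (T : Fin 4 → Bool) {r : ℕ} {x : St} (h : x ∈ box r) : rf T x ∈ box r :=
  mem_box.2 fun i => by
    have := mem_box.1 h i
    simp only [rf]
    split_ifs <;> omega

theorem Tr_rf (T : Fin 4 → Bool) {p : St} {ν : Fin 4} (h : Tr p ν) : Tr (rf T p) ν :=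
  fun κ hκ => by simp [rf, h κ hκ]

theorem act_T0 (a : St) (U : Lk → G) : RGP.act RGP.T0 a U = sh a U := rfl

theorem act_pos {T : Fin 4 → Bool} {μ : Fin 4} (h : T μ = true) (U : Lk → G) (x : St) :
    RGP.act T 0 U (x, μ) = (U (rf T x - un μ, μ))⁻¹ := by
  simp only [RGP.act, RGP.pat, h, RGP.sg, if_true, RGP.mv]
  congr 3
  funext i
  simp only [rf, Pi.sub_apply, dl_eq, Pi.zero_apply]
  split_ifs with h1
  · ring
  · rw [un_ne (by rintro rfl; exact h1 h)]
    ring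

theorem act_neg {T : Fin 4 → Bool} {μ : Fin 4} (h : ¬ T μ = true) (U : Lk → G) (x : St) :
    RGP.act T 0 U (x, μ) = U (rf T x, μ) := by
  simp only [RGP.act, RGP.pat, RGP.sg, if_neg h, RGP.mv]
  congr 2
  funext i
  simp only [rf, dl_eq, Pi.zero_apply]
  split_ifs with h1
  · rw [un_ne (by rintro rfl; exact h h1)]
    ring
  · ring

theorem sh_act (T : Fin 4 → Bool) (y : St) (U : Lk → G) :
    sh y (RGP.act T 0 U) = RGP.act T 0 (sh (rf T y) U) := by
  funext ⟨x, μ⟩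
  by_cases h : T μ = true
  · simp only [sh_apply, act_pos h, rf_add, add_sub_right_comm]
  · simp only [sh_apply, act_neg h, rf_add]

theorem cmb_act (T : Fin 4 → Bool) (U : Lk → G) (x : St) :
    cmb Inv.inv (RGP.act T 0 U) x = cmb Inv.inv U (rf T x) := by
  refine cmb_unique (u := fun x => cmb Inv.inv U (rf T x)) (by simp [rf_zero]) (fun p ν h => ?_) x
  simp only [rf_add, rf_un]
  split_ifs with h1
  · have h2 : Tr (rf T p - un ν) ν := fun κ hκ => by
      rw [Pi.sub_apply, Tr_rf T h κ hκ, un_ne hκ.ne', sub_zero]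
    have := cmb_step U h2
    rw [sub_add_cancel] at this
    rw [act_pos h1, this, mul_inv_cancel_right, sub_eq_add_neg]
  · rw [act_neg h1, cmb_step U (Tr_rf T h)]

theorem lnP_act_neg {T : Fin 4 → Bool} {μ : Fin 4} (h : ¬ T μ = true) (U : Lk → G) (p : St)
    (k : ℕ) : lnP (RGP.act T 0 U) p μ k = lnP U (rf T p) μ k := by
  induction k with
  | zero => rfl
  | succ k ih => rw [lnP, lnP, ih, act_neg h, rf_add, rf_smul, rf_un, if_neg h]

theorem lnP_act_pos {T : Fin 4 → Bool} {μ : Fin 4} (h : T μ = true) (U : Lk → G) (p : St)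
    (k : ℕ) : lnP (RGP.act T 0 U) p μ k = (lnP U (rf T p - (k : ℤ) • un μ) μ k)⁻¹ := by
  induction k with
  | zero => simp [lnP]
  | succ k ih =>
    rw [lnP, lnP_left, ih, act_pos h, rf_add, rf_smul, rf_un, if_pos h, mul_inv_rev]
    push_cast
    congr 4
    · rw [add_smul, one_smul]
      abel
    · rw [add_smul, one_smul, smul_neg]
      abel

end grp

theorem sum_rf (T : Fin 4 → Bool) (r : ℕ) (f : St → ℍ) :
    ∑ t ∈ box r, f (rf T t) = ∑ t ∈ box r, f t :=
  sum_nbij' (rf T) (rf T) (fun _ => rf_mem_box T) (fun _ => rf_mem_box T)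
    (fun x _ => rf_rf T x) (fun x _ => rf_rf T x) fun _ _ => rfl

theorem av_act_neg (l : ℕ) {T : Fin 4 → Bool} {μ : Fin 4} (h : ¬ T μ = true) (U : Conf) :
    av l μ (RGP.act T 0 U) = av l μ U := by
  have : avq l μ (RGP.act T 0 U) = avq l μ U := by
    simp only [avq, sh_act, cmb_act, lnP_act_neg h, up, rf_smul, rf_un, if_neg h]
    rw [sum_rf T l fun t => (cmb Inv.inv U t * lnP U t μ (LL l) *
      (cmb Inv.inv (sh ((LL l : ℤ) • un μ) U) t)⁻¹).q]
  rw [Ms.av_eq, Ms.av_eq, this, lnP_act_neg h, rf_zero]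

theorem av_act_pos (l : ℕ) {T : Fin 4 → Bool} {μ : Fin 4} (h : T μ = true) (U : Conf) :
    av l μ (RGP.act T 0 U) = (av l μ (sh (-up l (un μ)) U))⁻¹ := by
  have : avq l μ (RGP.act T 0 U) = star (avq l μ (sh (-up l (un μ)) U)) := by
    simp only [avq, sh_act, cmb_act, lnP_act_pos h, up, rf_smul, rf_un, if_pos h,
      Quaternion.star_smul, star_sum, ← S3.q_inv, sh_sh, add_neg_cancel, sh_zero, lnP_sh, smul_neg,
      mul_inv_rev, inv_inv, sub_eq_add_neg, mul_assoc]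
    rw [sum_rf T l fun t => (cmb Inv.inv U t * ((lnP U (t + -((LL l : ℤ) • un μ)) μ (LL l))⁻¹ *
      (cmb Inv.inv (sh (-((LL l : ℤ) • un μ)) U) t)⁻¹)).q]
  rw [Ms.av_eq, Ms.av_eq, this, lnP_act_pos h, rf_zero, lnP_sh]
  by_cases h0 : avq l μ (sh (-up l (un μ)) U) = 0
  · rw [if_pos h0, if_pos (by rw [h0, star_zero]), sub_eq_add_neg]
    rfl
  · have h1 := star_ne_zero.2 h0
    rw [if_neg h0, if_neg h1]
    exact S3.ext (by rw [S3.q_inv, Ms.nrq_q h0, Ms.nrq_q h1, norm_star, Quaternion.star_smul])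

theorem avg_eq (l : ℕ) (U : Conf) : RGP.avg (LL l) (av l) U = blk l U := rfl

theorem blk_act (l : ℕ) (T : Fin 4 → Bool) (U : Conf) :
    blk l (RGP.act T 0 U) = RGP.act T 0 (blk l U) := by
  funext ⟨y, μ⟩
  by_cases h : T μ = true
  · rw [act_pos h, blk, blk, sh_act, av_act_pos l h, sh_sh, up_sub, up, up, up, rf_smul,
      neg_add_eq_sub]
  · rw [act_neg h, blk, blk, sh_act, av_act_neg l h, up, up, rf_smul]

/-- the links which enter the average -/
def Rg (l : ℕ) (μ : Fin 4) (x y : St) : Prop := ∀ i, -(l : ℤ) ≤ x i ∧ y i ≤ LL l * un μ i + l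

theorem cmb_dep {G : Type} [Group G] {U U' : Lk → G} {l : ℕ}
    (h : ∀ p ν, p ∈ box l → p + un ν ∈ box l → U (p, ν) = U' (p, ν)) (x : St) :
    x ∈ box l → cmb Inv.inv U x = cmb Inv.inv U' x := by
  induction x using site_ind with
  | h0 => simp
  | hp p ν h1 h2 ih =>
    intro hx
    rw [cmb_step _ h1, cmb_step _ h1, ih (box_fwd h2 hx), h p ν (box_fwd h2 hx) hx]
  | hn p ν h1 h2 ih =>
    intro hx
    rw [cmb_bwd _ _ h1 h2, cmb_bwd _ _ h1 h2, ih (box_bwd h2 hx), h p ν hx (box_bwd h2 hx)]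

theorem un_nonneg (μ i : Fin 4) : 0 ≤ un μ i := by
  rw [un_apply]
  split_ifs <;> simp

theorem av_dep (l : ℕ) (μ : Fin 4) : DependsOn (av l μ) {e | Rg l μ e.1 (e.1 + un e.2)} := by
  intro U U' h
  have hL : ∀ i, (0 : ℤ) ≤ LL l * un μ i := fun i => mul_nonneg (by positivity) (un_nonneg μ i)
  have h1 : ∀ t ∈ box l, lnP U t μ (LL l) = lnP U' t μ (LL l) := fun t ht =>
    lnP_agr fun k hk => h _ fun i => by
      have := mem_box.1 ht i
      have h2 : ((k : ℤ) + 1) * un μ i ≤ LL l * un μ i :=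
        mul_le_mul_of_nonneg_right (by omega) (un_nonneg μ i)
      have h3 : 0 ≤ (k : ℤ) * un μ i := mul_nonneg (by omega) (un_nonneg μ i)
      simp only [Pi.add_apply, Pi.smul_apply, smul_eq_mul]
      constructor <;> linarith
  have : avq l μ U = avq l μ U' := by
    unfold avq
    congr 1
    refine sum_congr rfl fun t ht => ?_
    rw [h1 t ht, cmb_dep (U := U) (U' := U') (fun p ν hp hq => h _ fun i => ?_) t ht,
      cmb_dep (U := sh _ U) (U' := sh (up l (un μ)) U') (fun p ν hp hq => h _ fun i => ?_) t ht]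
    · have := mem_box.1 hp i
      have := mem_box.1 hq i
      have := hL i
      simp only [Pi.add_apply, up_apply] at *
      omega
    · have := mem_box.1 hp i
      have := mem_box.1 hq i
      have := hL i
      simp only at *
      omega
  rw [Ms.av_eq, Ms.av_eq, this, h1 0 (zero_mem_box l)]

theorem strip (U : Conf) (p : St) (μ ν : Fin 4) {ε : ℝ} (k : ℕ)
    (h : ∀ i < k, ‖(hol Inv.inv U (p + (i : ℤ) • un μ) ν μ).q - 1‖ ≤ ε) :
    ‖(U (p, ν) * lnP U (p + un ν) μ k * (U (p + (k : ℤ) • un μ, ν))⁻¹ * (lnP U p μ k)⁻¹).q - 1‖ ≤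
      k * ε := by
  induction k with
  | zero => simp [lnP, S3.q_one]
  | succ k ih =>
    have e : U (p, ν) * lnP U (p + un ν) μ (k + 1) * (U (p + ((k + 1 : ℕ) : ℤ) • un μ, ν))⁻¹ *
        (lnP U p μ (k + 1))⁻¹ = U (p, ν) * lnP U (p + un ν) μ k * (U (p + (k : ℤ) • un μ, ν))⁻¹ *
          (lnP U p μ k)⁻¹ * (lnP U p μ k * hol Inv.inv U (p + (k : ℤ) • un μ) ν μ *
            (lnP U p μ k)⁻¹) := by
      push_cast
      simp only [lnP, hol, add_smul, one_smul, add_assoc, add_comm (un ν)]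
      group
    rw [e]
    refine (S3.norm_mul_sub _ _).trans ?_
    rw [S3.norm_conj_sub]
    push_cast
    linarith [ih fun i hi => h i (by omega), h k (by omega)]

/-- one term of the average -/
def tm (l : ℕ) (μ : Fin 4) (U : Conf) (t : St) : S3 :=
  cmb Inv.inv U t * lnP U t μ (LL l) * (cmb Inv.inv (sh (up l (un μ)) U) t)⁻¹

theorem tm_step {l : ℕ} {μ : Fin 4} {U : Conf} {ε : ℝ}
    (h : ∀ x ν, Rg l μ x (x + un ν + un μ) → ‖(hol Inv.inv U x ν μ).q - 1‖ ≤ ε) {p : St}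
    {ν : Fin 4} (h1 : Tr p ν) (hp : p ∈ box l) (hq : p + un ν ∈ box l) :
    ‖(tm l μ U (p + un ν)).q - (tm l μ U p).q‖ ≤ LL l * ε := by
  have := strip U p μ ν (LL l) fun k hk => h _ _ fun i => by
    have := mem_box.1 hp i
    have := mem_box.1 hq i
    have h2 : ((k : ℤ) + 1) * un μ i ≤ LL l * un μ i :=
      mul_le_mul_of_nonneg_right (by omega) (un_nonneg μ i)
    have h3 : 0 ≤ (k : ℤ) * un μ i := mul_nonneg (by omega) (un_nonneg μ i)
    simp only [Pi.add_apply, Pi.smul_apply, smul_eq_mul] at *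
    constructor <;> linarith
  rw [← S3.norm_conj_sub (cmb Inv.inv U p)] at this
  rw [S3.norm_sub]
  convert this using 4
  simp only [tm, cmb_step _ h1, sh_apply, up]
  group

theorem tm_near {l : ℕ} {μ : Fin 4} {U : Conf} {ε : ℝ}
    (h : ∀ x ν, Rg l μ x (x + un ν + un μ) → ‖(hol Inv.inv U x ν μ).q - 1‖ ≤ ε) (t : St) :
    t ∈ box l → ‖(tm l μ U t).q - (lnP U 0 μ (LL l)).q‖ ≤ ht t * (LL l * ε) := by
  induction t using site_ind with
  | h0 => simp [tm, ht]
  | hp p ν h1 h2 ih =>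
    intro hx
    have := tm_step h h1 (box_fwd h2 hx) hx
    have := norm_sub_le_norm_sub_add_norm_sub (tm l μ U (p + un ν)).q (tm l μ U p).q
      (lnP U 0 μ (LL l)).q
    rw [ht_fwd h2]
    push_cast
    linarith [ih (box_fwd h2 hx)]
  | hn p ν h1 h2 ih =>
    intro hx
    have := tm_step h h1 hx (box_bwd h2 hx)
    have := norm_sub_le_norm_sub_add_norm_sub (tm l μ U p).q (tm l μ U (p + un ν)).q
      (lnP U 0 μ (LL l)).q
    rw [norm_sub_rev _ (tm l μ U (p + un ν)).q] at this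
    rw [ht_bwd h2]
    push_cast
    linarith [ih (box_bwd h2 hx)]

theorem avq_near {l : ℕ} {μ : Fin 4} {U : Conf} {ε : ℝ} (ε0 : 0 ≤ ε)
    (h : ∀ x ν, Rg l μ x (x + un ν + un μ) → ‖(hol Inv.inv U x ν μ).q - 1‖ ≤ ε) :
    ‖avq l μ U - (lnP U 0 μ (LL l)).q‖ ≤ 4 * l * (LL l * ε) := by
  have hL : (0 : ℝ) < (LL l : ℝ) ^ 4 := by have := LL_pos l; positivity
  have hc : ((box l).card : ℝ) = (LL l : ℝ) ^ 4 := by rw [card_box, LL]; push_cast; ring
  have e : avq l μ U - (lnP U 0 μ (LL l)).q =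
      ((LL l : ℝ) ^ 4)⁻¹ • ∑ t ∈ box l, ((tm l μ U t).q - (lnP U 0 μ (LL l)).q) := by
    rw [sum_sub_distrib, smul_sub, sum_const, ← Nat.cast_smul_eq_nsmul ℝ, smul_smul, hc,
      inv_mul_cancel₀ hL.ne', one_smul]
    rfl
  rw [e, norm_smul, norm_inv, Real.norm_of_nonneg hL.le, inv_mul_le_iff₀ hL, ← hc, ← nsmul_eq_mul]
  refine (norm_sum_le _ _).trans (sum_le_card_nsmul _ _ _ fun t ht => (tm_near h t ht).trans ?_)
  exact mul_le_mul_of_nonneg_right (by exact_mod_cast ht_le ht) (by positivity)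

/-- the block average is close to the transport along the straight line -/
theorem av_near {l : ℕ} {μ : Fin 4} {U : Conf} {ε : ℝ} (ε0 : 0 ≤ ε)
    (h : ∀ x ν, Rg l μ x (x + un ν + un μ) → ‖(hol Inv.inv U x ν μ).q - 1‖ ≤ ε) :
    ‖(av l μ U * (lnP U 0 μ (LL l))⁻¹).q - 1‖ ≤ 4 * (LL l : ℝ) ^ 2 * ε := by
  have h1 := avq_near ε0 h
  rw [← S3.norm_sub, Ms.av_eq]
  split_ifs with h0
  · rw [sub_self, norm_zero]
    positivity
  · have h2 := norm_pos_iff.2 h0
    have h3 : ‖(Ms.nrq (avq l μ U)).q - avq l μ U‖ = |‖avq l μ U‖ - 1| := by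
      have : (Ms.nrq (avq l μ U)).q - avq l μ U = (‖avq l μ U‖⁻¹ - 1) • avq l μ U := by
        rw [Ms.nrq_q h0, sub_smul, one_smul]
      rw [this, norm_smul, ← norm_norm (avq l μ U), ← norm_mul, norm_norm, sub_mul, one_mul,
        inv_mul_cancel₀ h2.ne', Real.norm_eq_abs, abs_sub_comm]
    have h4 := abs_norm_sub_norm_le (avq l μ U) (lnP U 0 μ (LL l)).q
    have h5 := norm_sub_le_norm_sub_add_norm_sub (Ms.nrq (avq l μ U)).q (avq l μ U)
      (lnP U 0 μ (LL l)).q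
    rw [S3.norm_q] at h4
    have h6 : (LL l : ℝ) = 2 * l + 1 := by simp [LL]
    have h7 : 0 ≤ (LL l : ℝ) * ε := by positivity
    nlinarith

theorem blk_near {l : ℕ} {U : Conf} {ε : ℝ} (ε0 : 0 ≤ ε) {y : St} {μ : Fin 4}
    (h : ∀ x ν, Rg l μ x (x + un ν + un μ) → ‖(hol Inv.inv U (x + up l y) ν μ).q - 1‖ ≤ ε) :
    ‖(blk l U (y, μ) * (lnP U (up l y) μ (LL l))⁻¹).q - 1‖ ≤ 4 * (LL l : ℝ) ^ 2 * ε := by
  have := av_near (U := sh (up l y) U) ε0 (by simpa only [hol_sh] using h)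
  rwa [lnP_sh, zero_add] at this

theorem hk0_le {a : ℝ} (ha : 0 ≤ a) (g : S3) : hk0 a g ≤ 1 := by
  unfold hk0
  split_ifs
  · exact ENNReal.ofReal_le_one.2 (Real.exp_le_one_iff.2 (neg_nonpos.2 (by positivity)))
  · exact zero_le_one

theorem hk_le {a : ℝ} (ha : 1 ≤ a) : ∃ C : ℝ≥0∞, C ≠ ∞ ∧ ∀ g, hk a g ≤ C := by
  obtain ⟨C, hC⟩ := hk_tail
  exact ⟨_, ENNReal.div_ne_top ENNReal.one_ne_top (hC a 0 ha le_rfl).2.2.1.ne', fun g =>
    ENNReal.div_le_div_right (hk0_le (by linarith) g) _⟩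

theorem hk_ne_top {a : ℝ} (ha : 1 ≤ a) (g : S3) : hk a g ≠ ∞ := by
  obtain ⟨C, h1, h2⟩ := hk_le ha
  exact ne_top_of_le_ne_top h1 (h2 g)

theorem hk_inv (a : ℝ) (g : S3) : hk a g⁻¹ = hk a g := by
  simp [hk, hk0, S3.q_inv]

/-- the block spin model -/
def model (l : ℕ) (hl : 1 ≤ l) (a : ℝ) (ha : 1 ≤ a) : RGP.Model 4 haar where
  L _ := LL l
  av _ := av l
  h _ g := (hk a g).toReal
  two_le _ := by rw [LL_cast]; omega
  av_meas _ := Ms.meas_av l
  av_dep _ μ := (av_dep l μ).mono fun e he i => by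
    have := he i
    simp only [dl_eq, Pi.add_apply, LL_cast] at *
    omega
  av_refl _ := blk_act l
  h_bm _ := by
    obtain ⟨C, h1, h2⟩ := hk_le ha
    exact ⟨(Ms.meas_hk a).ennreal_toReal, C.toReal, fun g => by
      rw [abs_of_nonneg ENNReal.toReal_nonneg]; exact ENNReal.toReal_mono h1 (h2 g)⟩
  h_nonneg _ _ := ENNReal.toReal_nonneg
  h_int _ := by
    obtain ⟨C, hC⟩ := hk_tail
    rw [integral_toReal (Ms.meas_hk a).aemeasurable (ae_of_all _ fun g => (hk_ne_top ha g).lt_top),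
      (hC a 0 ha le_rfl).2.1, ENNReal.toReal_one]
  h_inv _ g := by rw [hk_inv]
  h_comm _ g g' := by rw [← Ms.hk_conj a g', ← mul_assoc, mul_inv_cancel_right]

end Pool.Agent.Lib.MP_7f377f_mp.RG.Pv
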