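import Pool.Agent.Lib.MP_7f377f_mp.R3Ap3
import Pool.Agent.Lib.MP_7f377f_mp.PAv

/-! The concrete block spin transformation as a multi-scale model. -/

noncomputable section

namespace Pool.Agent.Lib.MP_7f377f_mp.RG.D3.Pv

open Finset MeasureTheory
open scoped Quaternion ENNReal

theorem dl_eq (i μ : Fin 3) : RGP.dl i μ = un μ i := (un_apply μ i).symm

section grp
variable {G : Type} [Group G] {U : Lk → G}

theorem cmb_step (U : Lk → G) {p : St} {ν : Fin 3} (h : Tr p ν) :
    cmb Inv.inv U (p + un ν) = cmb Inv.inv U p * U (p, ν) := by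
  rcases le_or_gt 0 (p ν) with h0 | h0
  · exact cmb_fwd _ _ h h0
  · rw [cmb_bwd _ _ h h0, inv_mul_cancel_right]

theorem cmb_unique {u : St → G} (h0 : u 0 = 1)
    (h : ∀ p ν, Tr p ν → u (p + un ν) = u p * U (p, ν)) (x : St) : cmb Inv.inv U x = u x := by
  induction x using site_ind with
  | h0 => simp [h0]
  | hp p ν h1 _ ih => rw [cmb_step U h1, h p ν h1, ih]
  | hn p ν h1 _ ih => exact mul_right_cancel (by rw [← cmb_step U h1, ← h p ν h1, ih])

theorem lnP_left (U : Lk → G) (p : St) (μ : Fin 3) (k : ℕ) :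
    lnP U p μ (k + 1) = U (p, μ) * lnP U (p + un μ) μ k := by
  induction k with
  | zero => simp [lnP]
  | succ k ih =>
    rw [lnP, ih, lnP, mul_assoc]
    congr 4
    push_cast
    rw [add_smul, one_smul]
    abel

theorem lnP_sh (y : St) (U : Lk → G) (p : St) (μ : Fin 3) (k : ℕ) :
    lnP (sh y U) p μ k = lnP U (p + y) μ k := by
  induction k with
  | zero => rfl
  | succ k ih => rw [lnP, lnP, ih, sh_apply, add_right_comm]

theorem lnP_agr {U' : Lk → G} {p : St} {μ : Fin 3} {k : ℕ}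
    (h : ∀ i < k, U (p + (i : ℤ) • un μ, μ) = U' (p + (i : ℤ) • un μ, μ)) :
    lnP U p μ k = lnP U' p μ k := by
  induction k with
  | zero => rfl
  | succ k ih => rw [lnP, lnP, ih fun i hi => h i (by omega), h k (by omega)]

/-- reflection of sites -/
def rf (T : Fin 3 → Bool) (x : St) : St := fun i => if T i then -x i else x i

theorem rf_add (T : Fin 3 → Bool) (x y : St) : rf T (x + y) = rf T x + rf T y := by
  funext i
  simp only [rf, Pi.add_apply]
  split_ifs <;> ring

theorem rf_smul (T : Fin 3 → Bool) (c : ℤ) (x : St) : rf T (c • x) = c • rf T x := by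
  funext i
  simp only [rf, Pi.smul_apply, smul_eq_mul]
  split_ifs <;> ring

theorem rf_rf (T : Fin 3 → Bool) (x : St) : rf T (rf T x) = x := by
  funext i
  simp only [rf]
  split_ifs <;> ring

theorem rf_un (T : Fin 3 → Bool) (μ : Fin 3) : rf T (un μ) = if T μ then -un μ else un μ := by
  funext i
  by_cases h : i = μ
  · subst h
    simp only [rf]
    split_ifs <;> rfl
  · simp only [rf, un_ne h]
    split_ifs <;> simp [un_ne h]

theorem rf_zero (T : Fin 3 → Bool) : rf T 0 = 0 := by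
  funext i
  simp [rf]

theorem rf_mem_box (T : Fin 3 → Bool) {r : ℕ} {x : St} (h : x ∈ box r) : rf T x ∈ box r :=
  mem_box.2 fun i => by
    have := mem_box.1 h i
    simp only [rf]
    split_ifs <;> omega

theorem Tr_rf (T : Fin 3 → Bool) {p : St} {ν : Fin 3} (h : Tr p ν) : Tr (rf T p) ν :=
  fun κ hκ => by simp [rf, h κ hκ]

theorem act_T0 (a : St) (U : Lk → G) : RGP.act RGP.T0 a U = sh a U := rfl

theorem act_pos {T : Fin 3 → Bool} {μ : Fin 3} (h : T μ = true) (U : Lk → G) (x : St) :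
    RGP.act T 0 U (x, μ) = (U (rf T x - un μ, μ))⁻¹ := by
  simp only [RGP.act, RGP.pat, h, RGP.sg, if_true, RGP.mv]
  congr 3
  funext i
  simp only [rf, Pi.sub_apply, dl_eq, Pi.zero_apply]
  split_ifs with h1
  · ring
  · rw [un_ne (by rintro rfl; exact h1 h)]
    ring

theorem act_neg {T : Fin 3 → Bool} {μ : Fin 3} (h : ¬ T μ = true) (U : Lk → G) (x : St) :
    RGP.act T 0 U (x, μ) = U (rf T x, μ) := by
  simp only [RGP.act, RGP.pat, RGP.sg, if_neg h, RGP.mv]
  congr 2
  funext i
  simp only [rf, dl_eq, Pi.zero_apply]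
  split_ifs with h1
  · rw [un_ne (by rintro rfl; exact h h1)]
    ring
  · ring

theorem sh_act (T : Fin 3 → Bool) (y : St) (U : Lk → G) :
    sh y (RGP.act T 0 U) = RGP.act T 0 (sh (rf T y) U) := by
  funext ⟨x, μ⟩
  by_cases h : T μ = true
  · simp only [sh_apply, act_pos h, rf_add, add_sub_right_comm]
  · simp only [sh_apply, act_neg h, rf_add]

theorem cmb_act (T : Fin 3 → Bool) (U : Lk → G) (x : St) :
    cmb Inv.inv (RGP.act T 0 U) x = cmb Inv.inv U (rf T x) := by
  refine cmb_unique (u := fun x => cmb Inv.inv U (rf T x)) (by simp [rf_zero]) (fun p ν h => ?_) x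
  simp only [rf_add, rf_un]
  split_ifs with h1
  · have h2 : Tr (rf T p - un ν) ν := fun κ hκ => by
      rw [Pi.sub_apply, Tr_rf T h κ hκ, un_ne hκ.ne', sub_zero]
    have := cmb_step U h2
    rw [sub_add_cancel] at this
    rw [act_pos h1, this, mul_inv_cancel_right, sub_eq_add_neg]
  · rw [act_neg h1, cmb_step U (Tr_rf T h)]

theorem lnP_act_neg {T : Fin 3 → Bool} {μ : Fin 3} (h : ¬ T μ = true) (U : Lk → G) (p : St)
    (k : ℕ) : lnP (RGP.act T 0 U) p μ k = lnP U (rf T p) μ k := by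
  induction k with
  | zero => rfl
  | succ k ih => rw [lnP, lnP, ih, act_neg h, rf_add, rf_smul, rf_un, if_neg h]

theorem lnP_act_pos {T : Fin 3 → Bool} {μ : Fin 3} (h : T μ = true) (U : Lk → G) (p : St)
    (k : ℕ) : lnP (RGP.act T 0 U) p μ k = (lnP U (rf T p - (k : ℤ) • un μ) μ k)⁻¹ := by
  induction k with
  | zero => simp [lnP]
  | succ k ih =>
    rw [lnP, lnP_left, ih, act_pos h, rf_add, rf_smul, rf_un, if_pos h, mul_inv_rev]
    push_cast
    congr 4
    · rw [add_smul, one_smul]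
      abel
    · rw [add_smul, one_smul, smul_neg]
      abel

end grp

section meas
open RG.Ms Set

open Classical in
theorem av_eq (l : ℕ) (μ : Fin 3) (U : Conf) :
    av l μ U = if avq l μ U = 0 then lnP U 0 μ (LL l) else nrq (avq l μ U) := by
  split_ifs with h
  · exact dif_pos h
  · exact (dif_neg h).trans (S3.ext (nrq_q h).symm)

theorem cont_lnP (p : St) (μ : Fin 3) (k : ℕ) : Continuous fun U : Conf => lnP U p μ k := by
  induction k with
  | zero => exact continuous_const
  | succ k ih => exact ih.mul (continuous_apply _)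

theorem cont_lnN (p : St) (μ : Fin 3) (k : ℕ) :
    Continuous fun U : Conf => lnN Inv.inv U p μ k := by
  induction k with
  | zero => exact continuous_const
  | succ k ih => exact ih.mul (continuous_apply _).inv

theorem cont_ln (p : St) (μ : Fin 3) (n : ℤ) : Continuous fun U : Conf => ln Inv.inv U p μ n :=
  (cont_lnP _ _ _).mul (cont_lnN _ _ _)

theorem cont_cmb (x : St) : Continuous fun U : Conf => cmb Inv.inv U x :=
  ((cont_ln _ _ _).mul (cont_ln _ _ _)).mul (cont_ln _ _ _)

theorem cont_sh (x : St) : Continuous fun U : Conf => sh x U :=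
  continuous_pi fun _ => continuous_apply _

theorem cont_per (n : ℕ) : Continuous fun U : Conf => per n U :=
  continuous_pi fun _ => continuous_apply _

theorem cont_hol (x : St) (μ ν : Fin 3) : Continuous fun U : Conf => hol Inv.inv U x μ ν := by
  unfold hol
  fun_prop

theorem cont_avq (l : ℕ) (μ : Fin 3) : Continuous (avq l μ) := by
  have h : Continuous fun U : Conf => ∑ t ∈ box l,
      (cmb Inv.inv U t * lnP U t μ (LL l) * (cmb Inv.inv (sh (up l (un μ)) U) t)⁻¹).q := by
    refine continuous_finsetSum _ fun t _ => ?_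
    have h1 : Continuous fun U : Conf => cmb Inv.inv (sh (up l (un μ)) U) t :=
      (cont_cmb t).comp (cont_sh _)
    exact cont_q.comp (((cont_cmb t).mul (cont_lnP t μ (LL l))).mul h1.inv)
  exact h.const_smul (((LL l : ℝ) ^ 3)⁻¹)

theorem meas_av (l : ℕ) (μ : Fin 3) : Measurable (av l μ) := by
  classical
  borelize ℍ
  have h1 : Measurable nrq := measurable_of_continuousOn_compl_singleton 0 contOn_nrq
  have h2 : Measurable (avq l μ) := (cont_avq l μ).measurable
  rw [funext (av_eq l μ)]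
  exact Measurable.ite (h2 (measurableSet_singleton 0)) (cont_lnP _ _ _).measurable (h1.comp h2)

theorem meas_blk (l : ℕ) : Measurable (blk l) :=
  measurable_pi_lambda _ fun b => (meas_av l b.2).comp (cont_sh _).measurable

instance prob_PP : IsProbabilityMeasure PP := by unfold PP; infer_instance

theorem meas_link (l : ℕ) (b : Lk) :
    Measurable fun p : Conf × Conf => p.1 b * (blk l p.2 b)⁻¹ := by
  have h1 : Measurable fun p : Conf × Conf => p.1 b := (measurable_pi_apply b).comp measurable_fst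
  have h2 : Measurable fun p : Conf × Conf => blk l p.2 b :=
    (measurable_pi_apply b).comp ((meas_blk l).comp measurable_snd)
  exact h1.mul h2.inv

theorem meas_ker (l : ℕ) (a : ℝ) (n : ℕ) :
    Measurable fun p : Conf × Conf => ∏ b ∈ lcube n, hk a (p.1 b * (blk l p.2 b)⁻¹) :=
  Finset.measurable_fun_prod _ fun b _ => (meas_hk a).comp (meas_link l b)

theorem meas_curv (ε : ℝ) : MeasurableSet {U : Conf | curvG ε U} := by
  simp only [curvG, ofPred_forall]
  refine MeasurableSet.iInter fun x => MeasurableSet.iInter fun μ => MeasurableSet.iInter fun ν => ?_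
  exact measurableSet_le (meas_nsub.comp (cont_hol x μ ν).measurable) measurable_const

theorem meas_noise (l : ℕ) (ε : ℝ) : MeasurableSet {p : Conf × Conf | noiseG l ε p.2 p.1} := by
  simp only [noiseG, ofPred_forall]
  refine MeasurableSet.iInter fun b => ?_
  exact measurableSet_le (meas_nsub.comp (meas_link l b)) measurable_const

theorem meas_good (l : ℕ) (ε : ℝ) :
    MeasurableSet {p : Conf × Conf | curvG ε p.2 ∧ noiseG l ε p.2 p.1} :=
  (measurable_snd (meas_curv ε)).inter (meas_noise l ε)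

theorem meas_wil (n : ℕ) : Measurable (wil n) := by
  refine Finset.measurable_fun_sum _ fun x _ => Finset.measurable_fun_sum _ fun μ _ =>
    Finset.measurable_fun_sum _ fun ν _ => ?_
  split_ifs
  · exact (meas_re.comp (cont_hol x μ ν).measurable).const_mul 2
  · exact measurable_const

end meas

theorem sum_rf (T : Fin 3 → Bool) (r : ℕ) (f : St → ℍ) :
    ∑ t ∈ box r, f (rf T t) = ∑ t ∈ box r, f t :=
  sum_nbij' (rf T) (rf T) (fun _ => rf_mem_box T) (fun _ => rf_mem_box T)
    (fun x _ => rf_rf T x) (fun x _ => rf_rf T x) fun _ _ => rfl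

theorem av_act_neg (l : ℕ) {T : Fin 3 → Bool} {μ : Fin 3} (h : ¬ T μ = true) (U : Conf) :
    av l μ (RGP.act T 0 U) = av l μ U := by
  have : avq l μ (RGP.act T 0 U) = avq l μ U := by
    simp only [avq, sh_act, cmb_act, lnP_act_neg h, up, rf_smul, rf_un, if_neg h]
    rw [sum_rf T l fun t => (cmb Inv.inv U t * lnP U t μ (LL l) *
      (cmb Inv.inv (sh ((LL l : ℤ) • un μ) U) t)⁻¹).q]
  rw [av_eq, av_eq, this, lnP_act_neg h, rf_zero]

theorem av_act_pos (l : ℕ) {T : Fin 3 → Bool} {μ : Fin 3} (h : T μ = true) (U : Conf) :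
    av l μ (RGP.act T 0 U) = (av l μ (sh (-up l (un μ)) U))⁻¹ := by
  have : avq l μ (RGP.act T 0 U) = star (avq l μ (sh (-up l (un μ)) U)) := by
    simp only [avq, sh_act, cmb_act, lnP_act_pos h, up, rf_smul, rf_un, if_pos h,
      Quaternion.star_smul, star_sum, ← S3.q_inv, sh_sh, add_neg_cancel, sh_zero, lnP_sh, smul_neg,
      mul_inv_rev, inv_inv, sub_eq_add_neg, mul_assoc]
    rw [sum_rf T l fun t => (cmb Inv.inv U t * ((lnP U (t + -((LL l : ℤ) • un μ)) μ (LL l))⁻¹ *
      (cmb Inv.inv (sh (-((LL l : ℤ) • un μ)) U) t)⁻¹)).q]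
  rw [av_eq, av_eq, this, lnP_act_pos h, rf_zero, lnP_sh]
  by_cases h0 : avq l μ (sh (-up l (un μ)) U) = 0
  · rw [if_pos h0, if_pos (by rw [h0, star_zero]), sub_eq_add_neg]
    rfl
  · have h1 := star_ne_zero.2 h0
    rw [if_neg h0, if_neg h1]
    exact S3.ext (by rw [S3.q_inv, Ms.nrq_q h0, Ms.nrq_q h1, norm_star, Quaternion.star_smul])

theorem avg_eq (l : ℕ) (U : Conf) : RGP.avg (LL l) (av l) U = blk l U := rfl

theorem blk_act (l : ℕ) (T : Fin 3 → Bool) (U : Conf) :
    blk l (RGP.act T 0 U) = RGP.act T 0 (blk l U) := by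
  funext ⟨y, μ⟩
  by_cases h : T μ = true
  · rw [act_pos h, blk, blk, sh_act, av_act_pos l h, sh_sh, up_sub, up, up, up, rf_smul,
      neg_add_eq_sub]
  · rw [act_neg h, blk, blk, sh_act, av_act_neg l h, up, up, rf_smul]

/-- the links which enter the average -/
def Rg (l : ℕ) (μ : Fin 3) (x y : St) : Prop := ∀ i, -(l : ℤ) ≤ x i ∧ y i ≤ LL l * un μ i + l

theorem cmb_dep {G : Type} [Group G] {U U' : Lk → G} {l : ℕ}
    (h : ∀ p ν, p ∈ box l → p + un ν ∈ box l → U (p, ν) = U' (p, ν)) (x : St) :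
    x ∈ box l → cmb Inv.inv U x = cmb Inv.inv U' x := by
  induction x using site_ind with
  | h0 => simp
  | hp p ν h1 h2 ih =>
    intro hx
    rw [cmb_step _ h1, cmb_step _ h1, ih (box_fwd h2 hx), h p ν (box_fwd h2 hx) hx]
  | hn p ν h1 h2 ih =>
    intro hx
    rw [cmb_bwd _ _ h1 h2, cmb_bwd _ _ h1 h2, ih (box_bwd h2 hx), h p ν hx (box_bwd h2 hx)]

theorem un_nonneg (μ i : Fin 3) : 0 ≤ un μ i := by
  rw [un_apply]
  split_ifs <;> simp

theorem av_dep (l : ℕ) (μ : Fin 3) : DependsOn (av l μ) {e | Rg l μ e.1 (e.1 + un e.2)} := by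
  intro U U' h
  have hL : ∀ i, (0 : ℤ) ≤ LL l * un μ i := fun i => mul_nonneg (by positivity) (un_nonneg μ i)
  have h1 : ∀ t ∈ box l, lnP U t μ (LL l) = lnP U' t μ (LL l) := fun t ht =>
    lnP_agr fun k hk => h _ fun i => by
      have := mem_box.1 ht i
      have h2 : ((k : ℤ) + 1) * un μ i ≤ LL l * un μ i :=
        mul_le_mul_of_nonneg_right (by omega) (un_nonneg μ i)
      have h3 : 0 ≤ (k : ℤ) * un μ i := mul_nonneg (by omega) (un_nonneg μ i)
      simp only [Pi.add_apply, Pi.smul_apply, smul_eq_mul]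
      constructor <;> linarith
  have : avq l μ U = avq l μ U' := by
    unfold avq
    congr 1
    refine sum_congr rfl fun t ht => ?_
    rw [h1 t ht, cmb_dep (U := U) (U' := U') (fun p ν hp hq => h _ fun i => ?_) t ht,
      cmb_dep (U := sh _ U) (U' := sh (up l (un μ)) U') (fun p ν hp hq => h _ fun i => ?_) t ht]
    · have := mem_box.1 hp i
      have := mem_box.1 hq i
      have := hL i
      simp only [Pi.add_apply, up_apply] at *
      omega
    · have := mem_box.1 hp i
      have := mem_box.1 hq i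
      have := hL i
      simp only at *
      omega
  rw [av_eq, av_eq, this, h1 0 (zero_mem_box l)]

theorem hk0_pos {a : ℝ} (ha : 0 ≤ a) : 0 < ∫⁻ g, hk0 a g ∂haar := by
  obtain ⟨C, hC⟩ := hk_tail
  refine (hC (a + 1) 0 (by linarith) le_rfl).2.2.1.trans_le (lintegral_mono fun g => ?_)
  unfold hk0
  split_ifs
  · exact ENNReal.ofReal_le_ofReal (Real.exp_le_exp.2 (neg_le_neg
      (mul_le_mul_of_nonneg_right (by linarith) (sq_nonneg _))))
  · exact le_rfl

theorem hk_le {a : ℝ} (ha : 0 ≤ a) : ∃ C : ℝ≥0∞, C ≠ ∞ ∧ ∀ g, hk a g ≤ C :=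
  ⟨_, ENNReal.div_ne_top ENNReal.one_ne_top (hk0_pos ha).ne', fun g =>
    ENNReal.div_le_div_right (RG.Pv.hk0_le ha g) _⟩

theorem hk_ne_top {a : ℝ} (ha : 0 ≤ a) (g : S3) : hk a g ≠ ∞ := by
  obtain ⟨C, h1, h2⟩ := hk_le ha
  exact ne_top_of_le_ne_top h1 (h2 g)

theorem hk_int {a : ℝ} (ha : 0 ≤ a) : ∫⁻ g, hk a g ∂haar = 1 := by
  have h : ∫⁻ g, hk0 a g ∂haar ≤ 1 := (lintegral_mono (RG.Pv.hk0_le ha)).trans (by simp)
  simp only [hk, div_eq_mul_inv]
  rw [lintegral_mul_const _ (Ms.meas_hk0 a)]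
  exact ENNReal.mul_inv_cancel (hk0_pos ha).ne' (ne_top_of_le_ne_top ENNReal.one_ne_top h)

/-- the block spin model -/
def model (l : ℕ → ℕ) (hl : ∀ i, 1 ≤ l i) (a : ℕ → ℝ) (ha : ∀ i, 0 ≤ a i) : RGP.Model 3 haar where
  L i := LL (l i)
  av i := av (l i)
  h i g := (hk (a i) g).toReal
  two_le i := by have := hl i; rw [LL_cast]; omega
  av_meas i := meas_av (l i)
  av_dep i μ := (av_dep (l i) μ).mono fun e he k => by
    have := he k
    have := hl i
    simp only [dl_eq, Pi.add_apply, LL_cast] at *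
    omega
  av_refl i := blk_act (l i)
  h_bm i := by
    obtain ⟨C, h1, h2⟩ := hk_le (ha i)
    exact ⟨(Ms.meas_hk _).ennreal_toReal, C.toReal, fun g => by
      rw [abs_of_nonneg ENNReal.toReal_nonneg]; exact ENNReal.toReal_mono h1 (h2 g)⟩
  h_nonneg _ _ := ENNReal.toReal_nonneg
  h_int i := by
    rw [integral_toReal (Ms.meas_hk _).aemeasurable
      (ae_of_all _ fun g => (hk_ne_top (ha i) g).lt_top), hk_int (ha i), ENNReal.toReal_one]
  h_inv _ g := by rw [RG.Pv.hk_inv]
  h_comm _ g g' := by rw [← Ms.hk_conj _ g', ← mul_assoc, mul_inv_cancel_right]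

end Pool.Agent.Lib.MP_7f377f_mp.RG.D3.Pv
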