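import Mathlib

/-! Product measures: mixing, partial integration, patterns, Markov chains of densities. -/

namespace Pool.Agent.Lib.MP_7f377f_mp.RGP

open MeasureTheory Measure Function

set_option linter.unusedSectionVars false

/-- bounded and measurable -/
structure BM {X : Type} [MeasurableSpace X] (f : X → ℝ) : Prop where
  meas : Measurable f
  bdd : ∃ C, ∀ x, |f x| ≤ C

section bm
variable {X Y : Type} [MeasurableSpace X] [MeasurableSpace Y] {f g : X → ℝ}

theorem BM.const (c : ℝ) : BM fun _ : X => c := ⟨measurable_const, |c|, fun _ => le_rfl⟩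

theorem BM.mul (hf : BM f) (hg : BM g) : BM fun x => f x * g x := by
  obtain ⟨C, hC⟩ := hf.bdd
  obtain ⟨D, hD⟩ := hg.bdd
  refine ⟨hf.meas.mul hg.meas, C * D, fun x => ?_⟩
  rw [abs_mul]
  exact mul_le_mul (hC x) (hD x) (abs_nonneg _) ((abs_nonneg _).trans (hC x))

theorem BM.add (hf : BM f) (hg : BM g) : BM fun x => f x + g x := by
  obtain ⟨C, hC⟩ := hf.bdd
  obtain ⟨D, hD⟩ := hg.bdd
  exact ⟨hf.meas.add hg.meas, C + D, fun x => (abs_add_le _ _).trans (add_le_add (hC x) (hD x))⟩

theorem BM.neg (hf : BM f) : BM fun x => -f x := by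
  obtain ⟨C, hC⟩ := hf.bdd
  exact ⟨hf.meas.neg, C, fun x => by rw [abs_neg]; exact hC x⟩

theorem BM.sub (hf : BM f) (hg : BM g) : BM fun x => f x - g x := by
  simpa only [sub_eq_add_neg] using hf.add hg.neg

theorem BM.sq (hf : BM f) : BM fun x => f x ^ 2 := by
  simpa only [pow_two] using hf.mul hf

theorem BM.comp (hf : BM f) {φ : Y → X} (hφ : Measurable φ) : BM fun y => f (φ y) := by
  obtain ⟨C, hC⟩ := hf.bdd
  exact ⟨hf.meas.comp hφ, C, fun _ => hC _⟩

theorem BM.prod {ι : Type} {s : Finset ι} {F : ι → X → ℝ} (h : ∀ i ∈ s, BM (F i)) :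
    BM fun x => ∏ i ∈ s, F i x := by
  classical
  induction s using Finset.induction_on with
  | empty => simpa using BM.const 1
  | insert a s ha ih =>
    simp only [Finset.prod_insert ha]
    exact (h a (by simp)).mul (ih fun i hi => h i (by simp [hi]))

theorem BM.sum {ι : Type} {s : Finset ι} {F : ι → X → ℝ} (h : ∀ i ∈ s, BM (F i)) :
    BM fun x => ∑ i ∈ s, F i x := by
  classical
  induction s using Finset.induction_on with
  | empty => simpa using BM.const 0
  | insert a s ha ih =>
    simp only [Finset.sum_insert ha]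
    exact (h a (by simp)).add (ih fun i hi => h i (by simp [hi]))

theorem BM.exp (hf : BM f) : BM fun x => Real.exp (f x) := by
  obtain ⟨C, hC⟩ := hf.bdd
  refine ⟨hf.meas.exp, Real.exp C, fun x => ?_⟩
  rw [abs_of_pos (Real.exp_pos _)]
  exact Real.exp_le_exp.mpr ((le_abs_self _).trans (hC x))

theorem BM.ind {s : Set X} (hs : MeasurableSet s) : BM (s.indicator fun _ => (1 : ℝ)) :=
  ⟨measurable_const.indicator hs, 1, fun x => by
    by_cases h : x ∈ s <;> simp [h]⟩

theorem BM.integrable (hf : BM f) (ν : Measure X) [IsFiniteMeasure ν] : Integrable f ν := by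
  obtain ⟨C, hC⟩ := hf.bdd
  exact Integrable.of_bound hf.meas.aestronglyMeasurable C (ae_of_all _ hC)

theorem BM.param {F : X × Y → ℝ} (hF : BM F) (ν : Measure Y) [IsProbabilityMeasure ν] :
    BM fun x => ∫ y, F (x, y) ∂ν := by
  obtain ⟨C, hC⟩ := hF.bdd
  refine ⟨(hF.meas.stronglyMeasurable.integral_prod_right' (ν := ν)).measurable, C, fun x => ?_⟩
  have := norm_integral_le_of_norm_le_const (μ := ν) (f := fun y => F (x, y)) (C := C)
    (ae_of_all _ fun y => hC _)
  simpa using this

theorem int_mp {ν : Measure X} {ν' : Measure Y} {φ : Y → X} (h : MeasurePreserving φ ν' ν)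
    (hf : Measurable f) : ∫ y, f (φ y) ∂ν' = ∫ x, f x ∂ν := by
  rw [← h.map_eq, integral_map h.measurable.aemeasurable hf.aestronglyMeasurable]

theorem int_cs (ν : Measure X) [IsFiniteMeasure ν] {ι : Type} (s : Finset ι) {F F' : ι → X → ℝ}
    (hF : ∀ i, BM (F i)) (hF' : ∀ i, BM (F' i)) :
    (∑ i ∈ s, ∫ x, F i x * F' i x ∂ν) ^ 2 ≤
      (∑ i ∈ s, ∫ x, F i x * F i x ∂ν) * ∑ i ∈ s, ∫ x, F' i x * F' i x ∂ν := by
  have key : ∀ t : ℝ, 0 ≤ (∑ i ∈ s, ∫ x, F i x * F i x ∂ν) * (t * t) +
      (2 * ∑ i ∈ s, ∫ x, F i x * F' i x ∂ν) * t + ∑ i ∈ s, ∫ x, F' i x * F' i x ∂ν := by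
    intro t
    rw [Finset.sum_mul, Finset.mul_sum, Finset.sum_mul, ← Finset.sum_add_distrib,
      ← Finset.sum_add_distrib]
    refine Finset.sum_nonneg fun i _ => ?_
    have i1 := ((hF i).mul (hF i)).integrable ν
    have i2 := ((hF i).mul (hF' i)).integrable ν
    have i3 := ((hF' i).mul (hF' i)).integrable ν
    rw [← integral_mul_const, ← integral_const_mul, ← integral_mul_const, ← integral_add,
      ← integral_add]
    · exact integral_nonneg fun x => by
        have := sq_nonneg (F i x * t + F' i x)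
        simp only [Pi.zero_apply]
        nlinarith
    · exact (i1.mul_const _).add ((i2.const_mul _).mul_const _)
    · exact i3
    · exact i1.mul_const _
    · exact (i2.const_mul _).mul_const _
  have := discrim_le_zero key
  rw [discrim] at this
  nlinarith

end bm

variable {G : Type} [MeasurableSpace G] (μ : Measure G) [IsProbabilityMeasure μ] {I J I' : Type}

/-- the product measure -/
noncomputable abbrev PP (I : Type) : Measure (I → G) := Measure.infinitePi fun _ : I => μ

open Classical in
/-- `w` on `S`, `w'` elsewhere -/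
noncomputable def mix (S : Set I) (w w' : I → G) : I → G := fun i => if i ∈ S then w i else w' i

theorem mix_of_mem {S : Set I} {i : I} (h : i ∈ S) (w w' : I → G) : mix S w w' i = w i := if_pos h

theorem mix_of_not {S : Set I} {i : I} (h : i ∉ S) (w w' : I → G) : mix S w w' i = w' i := if_neg h

theorem measurable_mix (S : Set I) :
    Measurable fun p : (I → G) × (I → G) => mix S p.1 p.2 := by
  refine measurable_pi_lambda _ fun i => ?_
  by_cases h : i ∈ S
  · simp only [mix_of_mem h]; fun_prop
  · simp only [mix_of_not h]; fun_prop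

theorem measurable_mix_right (S : Set I) (w : I → G) : Measurable (mix S w) :=
  (measurable_mix S).comp measurable_prodMk_left

theorem mp_mix (S : Set I) : MeasurePreserving (fun p : (I → G) × (I → G) => mix S p.1 p.2)
    ((PP μ I).prod (PP μ I)) (PP μ I) := by
  classical
  refine ⟨measurable_mix S, eq_infinitePi _ fun s t ht => ?_⟩
  rw [map_apply (measurable_mix S) (.pi s.countable_toSet fun _ _ => ht _)]
  have : (fun p : (I → G) × (I → G) => mix S p.1 p.2) ⁻¹' (s : Set I).pi t =
      ((s.filter (· ∈ S) : Finset I) : Set I).pi t ×ˢ ((s.filter (· ∉ S) : Finset I) : Set I).pi t := by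
    ext p
    simp only [Set.mem_preimage, Set.mem_pi, Finset.mem_coe, Set.mem_prod, Finset.mem_filter]
    refine ⟨fun h => ⟨fun i hi => ?_, fun i hi => ?_⟩, fun h i hi => ?_⟩
    · simpa [mix_of_mem hi.2] using h i hi.1
    · simpa [mix_of_not hi.2] using h i hi.1
    · by_cases hS : i ∈ S
      · simpa [mix_of_mem hS] using h.1 i ⟨hi, hS⟩
      · simpa [mix_of_not hS] using h.2 i ⟨hi, hS⟩
  rw [this, Measure.prod_prod, infinitePi_pi _ fun _ _ => ht _, infinitePi_pi _ fun _ _ => ht _,
    Finset.prod_filter_mul_prod_filter_not]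

/-- integrate out the coordinates outside `S` -/
noncomputable def cond (S : Set I) (f : (I → G) → ℝ) (w : I → G) : ℝ :=
  ∫ w', f (mix S w w') ∂PP μ I

variable {f g : (I → G) → ℝ} {S A B : Set I}

theorem BM.cond (hf : BM f) (S : Set I) : BM (cond μ S f) :=
  (hf.comp (measurable_mix S)).param _

theorem int_cond (hf : BM f) (S : Set I) : ∫ w, cond μ S f w ∂PP μ I = ∫ w, f w ∂PP μ I := by
  rw [← int_mp (mp_mix μ S) hf.meas, integral_prod _ ((hf.comp (measurable_mix S)).integrable _)]
  rfl

theorem cond_dep (hf : DependsOn f A) (S : Set I) : DependsOn (cond μ S f) (A ∩ S) := by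
  intro w v h
  refine integral_congr_ae (ae_of_all _ fun w' => hf fun i hi => ?_)
  by_cases hS : i ∈ S
  · simp only [mix_of_mem hS, h i ⟨hi, hS⟩]
  · simp only [mix_of_not hS]

theorem dep_mix_left (hf : DependsOn f S) (w w' : I → G) : f (mix S w w') = f w :=
  hf fun _ hi => mix_of_mem hi _ _

theorem dep_mix_right (hf : DependsOn f A) (h : Disjoint A S) (w w' : I → G) :
    f (mix S w w') = f w' :=
  hf fun _ hi => mix_of_not (fun h' => Set.disjoint_left.mp h hi h') _ _

theorem cond_mul_left (hf : DependsOn f S) (w : I → G) :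
    cond μ S (fun w => f w * g w) w = f w * cond μ S g w := by
  simp only [cond, dep_mix_left hf, integral_const_mul]

theorem int_mul_indep (bf : BM f) (bg : BM g) (hf : DependsOn f A) (hg : DependsOn g B)
    (h : Disjoint A B) :
    ∫ w, f w * g w ∂PP μ I = (∫ w, f w ∂PP μ I) * ∫ w, g w ∂PP μ I := by
  rw [← int_cond μ (bf.mul bg) A]
  simp only [cond, dep_mix_right hg h.symm, dep_mix_left hf, integral_const_mul, integral_mul_const]

theorem DependsOn.mul' (hf : DependsOn f A) (hg : DependsOn g A) :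
    DependsOn (fun w => f w * g w) A := fun _ _ h => by simp only [hf h, hg h]

theorem dep_prod {ι : Type} {s : Finset ι} {F : ι → (I → G) → ℝ} (h : ∀ i ∈ s, DependsOn (F i) A) :
    DependsOn (fun w => ∏ i ∈ s, F i w) A :=
  fun _ _ hw => Finset.prod_congr rfl fun i hi => h i hi hw

theorem dep_sum {ι : Type} {s : Finset ι} {F : ι → (I → G) → ℝ} (h : ∀ i ∈ s, DependsOn (F i) A) :
    DependsOn (fun w => ∑ i ∈ s, F i w) A :=
  fun _ _ hw => Finset.sum_congr rfl fun i hi => h i hi hw

theorem int_prod_indep {ι : Type} (s : Finset ι) {F : ι → (I → G) → ℝ} {D : ι → Set I}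
    (hb : ∀ i ∈ s, BM (F i)) (hd : ∀ i ∈ s, DependsOn (F i) (D i))
    (h : ∀ i ∈ s, ∀ j ∈ s, i ≠ j → Disjoint (D i) (D j)) :
    ∫ w, ∏ i ∈ s, F i w ∂PP μ I = ∏ i ∈ s, ∫ w, F i w ∂PP μ I := by
  classical
  induction s using Finset.induction_on with
  | empty => simp
  | insert a s ha ih =>
    simp only [Finset.prod_insert ha]
    rw [int_mul_indep μ (B := (D a)ᶜ) (hb a (by simp)) (BM.prod fun i hi => hb i (by simp [hi]))
      (hd a (by simp)) (dep_prod fun i hi => (hd i (by simp [hi])).mono ?_) disjoint_compl_right,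
      ih (fun i hi => hb i (by simp [hi])) (fun i hi => hd i (by simp [hi]))
        fun i hi j hj => h i (by simp [hi]) j (by simp [hj])]
    exact (h i (by simp [hi]) a (by simp) fun e => ha (e ▸ hi)).subset_compl_right

theorem dep_mix (hf : DependsOn f (S ∪ A)) (w : I → G) : DependsOn (fun w' => f (mix S w w')) A := by
  intro v v' h
  refine hf fun i hi => ?_
  by_cases hS : i ∈ S
  · simp only [mix_of_mem hS]
  · simp only [mix_of_not hS, h i (hi.resolve_left hS)]

theorem cond_prod_indep {ι : Type} (s : Finset ι) {F : ι → (I → G) → ℝ} {D : ι → Set I}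
    (hb : ∀ i ∈ s, BM (F i)) (hd : ∀ i ∈ s, DependsOn (F i) (S ∪ D i))
    (h : ∀ i ∈ s, ∀ j ∈ s, i ≠ j → Disjoint (D i) (D j)) (w : I → G) :
    cond μ S (fun w => ∏ i ∈ s, F i w) w = ∏ i ∈ s, cond μ S (F i) w :=
  int_prod_indep μ s (F := fun i w' => F i (mix S w w'))
    (fun i hi => (hb i hi).comp (measurable_mix_right S w)) (fun i hi => dep_mix (hd i hi) w) h

theorem cond_mul_indep (bf : BM f) (bg : BM g) (hf : DependsOn f (S ∪ A))
    (hg : DependsOn g (S ∪ B)) (h : Disjoint A B) (w : I → G) :
    cond μ S (fun w => f w * g w) w = cond μ S f w * cond μ S g w :=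
  int_mul_indep μ (bf.comp (measurable_mix_right S w)) (bg.comp (measurable_mix_right S w))
    (dep_mix hf w) (dep_mix hg w) h

theorem cond_nonneg (h : ∀ w, 0 ≤ f w) (w : I → G) : 0 ≤ cond μ S f w :=
  integral_nonneg fun _ => h _

variable [Group G] [MeasurableMul₂ G] [MeasurableInv G] [μ.IsInvInvariant] [μ.IsMulRightInvariant]

/-- optional inverse -/
def sg (b : Bool) (g : G) : G := if b then g⁻¹ else g

@[simp] theorem sg_false (g : G) : sg false g = g := rfl
@[simp] theorem sg_true (g : G) : sg true g = g⁻¹ := rfl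

theorem sg_sg (b c : Bool) (g : G) : sg b (sg c g) = sg (xor b c) g := by
  cases b <;> cases c <;> simp

theorem measurable_sg (b : Bool) : Measurable (sg (G := G) b) := by
  cases b
  · exact measurable_id
  · exact measurable_inv

/-- signed reindexing -/
def pat (φ : J → I) (s : J → Bool) (w : I → G) : J → G := fun j => sg (s j) (w (φ j))

theorem measurable_pat (φ : J → I) (s : J → Bool) : Measurable (pat (G := G) φ s) :=
  measurable_pi_lambda _ fun _ => (measurable_sg _).comp (measurable_pi_apply _)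

theorem pat_pat (φ : J → I) (s : J → Bool) (ψ : I → I') (t : I → Bool) (w : I' → G) :
    pat φ s (pat ψ t w) = pat (ψ ∘ φ) (fun j => xor (s j) (t (φ j))) w := by
  funext j
  simp only [pat, sg_sg, comp_apply]

theorem mp_pat {φ : J → I} (hφ : Injective φ) (s : J → Bool) :
    MeasurePreserving (pat φ s) (PP μ I) (PP μ J) := by
  refine ⟨measurable_pat φ s, ?_⟩
  have h1 := map_infinitePi_infinitePi_of_inj (P := fun _ : I => μ) hφ
  have h2 := infinitePi_map_pi (fun _ : J => μ) (f := fun j => sg (s j))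
    fun j => measurable_sg (s j)
  have h3 : ∀ j, μ.map (sg (s j)) = μ := fun j => by
    cases s j
    · exact Measure.map_id
    · exact map_inv_eq_self μ
  simp only [h3] at h2
  have : pat (G := G) φ s = (fun x j => sg (s j) (x j)) ∘ fun w j => w (φ j) := rfl
  have hm : Measurable fun (x : J → G) j => sg (s j) (x j) := measurable_pat id s
  rw [this, ← Measure.map_map hm (by fun_prop), h1, h2]

/-- the law of a pattern depends only on the partition and on the relative signs -/
theorem int_pat {F : (J → G) → ℝ} (hF : Measurable F) {D : Set J} (hD : DependsOn F D)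
    {φ : J → I} {s : J → Bool} {φ' : J → I'} {s' : J → Bool}
    (h1 : ∀ j ∈ D, ∀ j' ∈ D, φ j = φ j' ↔ φ' j = φ' j')
    (h2 : ∀ j ∈ D, ∀ j' ∈ D, φ j = φ j' → xor (s j) (s j') = xor (s' j) (s' j')) :
    ∫ w, F (pat φ s w) ∂PP μ I = ∫ w, F (pat φ' s' w) ∂PP μ I' := by
  classical
  let Q := {i : I // ∃ j ∈ D, φ j = i}
  let r : Q → J := fun q => q.2.choose
  have hr : ∀ q : Q, r q ∈ D ∧ φ (r q) = q.1 := fun q => q.2.choose_spec
  let ext : (Q → G) → J → G := fun v j =>
    if h : j ∈ D then sg (xor (s j) (s (r ⟨φ j, j, h, rfl⟩))) (v ⟨φ j, j, h, rfl⟩) else 1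
  have hext : Measurable ext := measurable_pi_lambda _ fun j => by
    by_cases h : j ∈ D
    · simp only [ext, dif_pos h]
      exact (measurable_sg _).comp (measurable_pi_apply _)
    · simp only [ext, dif_neg h]
      exact measurable_const
  have e1 : ∀ w : I → G, F (pat φ s w) = F (ext (pat (φ ∘ r) (s ∘ r) w)) := fun w =>
    hD fun j hj => by
      simp only [ext, dif_pos hj, pat, sg_sg, comp_apply, (hr _).2, Bool.xor_assoc, Bool.xor_self,
        Bool.xor_false]
  have e2 : ∀ w : I' → G, F (pat φ' s' w) = F (ext (pat (φ' ∘ r) (s' ∘ r) w)) := fun w =>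
    hD fun j hj => by
      have a := hr ⟨φ j, j, hj, rfl⟩
      simp only [ext, dif_pos hj, pat, sg_sg, comp_apply, h2 j hj _ a.1 a.2.symm,
        ← (h1 j hj _ a.1).mp a.2.symm, Bool.xor_assoc, Bool.xor_self, Bool.xor_false]
  have i1 : Injective (φ ∘ r) := fun q q' h => Subtype.ext (by
    simpa only [comp_apply, (hr _).2] using h)
  have i2 : Injective (φ' ∘ r) := fun q q' h => i1 ((h1 _ (hr q).1 _ (hr q').1).mpr h)
  simp only [e1, e2]
  rw [int_mp (f := fun v => F (ext v)) (mp_pat μ i1 _) (hF.comp hext),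
    int_mp (f := fun v => F (ext v)) (mp_pat μ i2 _) (hF.comp hext)]

/-- normalised kernels can be integrated out from the top level downwards -/
theorem int_kers (lev : I → ℕ) {h : I → G → ℝ} {a : I → (I → G) → G} (E : Finset I)
    (hb : ∀ i ∈ E, BM (h i)) (h1 : ∀ i ∈ E, ∫ x, h i x ∂μ = 1) (ma : ∀ i ∈ E, Measurable (a i))
    (da : ∀ i ∈ E, DependsOn (a i) {i' | lev i' < lev i}) (bg : BM g)
    (dg : DependsOn g (E : Set I)ᶜ) :
    ∫ w, g w * ∏ i ∈ E, h i (w i * (a i w)⁻¹) ∂PP μ I = ∫ w, g w ∂PP μ I := by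
  classical
  induction E using Finset.induction_on_max_value lev with
  | empty => simp
  | insert i E hi hmax ih =>
    have bk : ∀ j ∈ insert i E, BM fun w : I → G => h j (w j * (a j w)⁻¹) := fun j hj =>
      (hb j hj).comp ((measurable_pi_apply j).mul (ma j hj).inv)
    rw [← ih (fun j hj => hb j (by simp [hj])) (fun j hj => h1 j (by simp [hj]))
      (fun j hj => ma j (by simp [hj])) (fun j hj => da j (by simp [hj]))
      (dg.mono (Set.compl_subset_compl.mpr (by simp)))]
    have bR := bg.mul (BM.prod fun j (hj : j ∈ E) => bk j (by simp [hj]))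
    have dR : DependsOn (fun w : I → G => g w * ∏ j ∈ E, h j (w j * (a j w)⁻¹)) {i}ᶜ := by
      refine DependsOn.mul' (dg.mono (Set.compl_subset_compl.mpr (by simp)))
        (dep_prod fun j hj v v' hv => ?_)
      have hji : j ≠ i := fun e => hi (e ▸ hj)
      simp only [hv j hji, da j (by simp [hj]) (x := v) (y := v') fun l hl => hv l fun e => by
        have := hmax j hj
        rw [Set.mem_singleton_iff.mp e] at hl
        exact absurd hl (by simpa using this)]
    simp only [Finset.prod_insert hi, mul_comm (h i _), ← mul_assoc]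
    rw [← int_cond μ (bR.mul (bk i (by simp))) {i}ᶜ]
    refine integral_congr_ae (ae_of_all _ fun w => ?_)
    have da' : ∀ w', a i (mix {i}ᶜ w w') = a i w := fun w' =>
      da i (by simp) fun l hl => mix_of_mem (fun e => by
        rw [Set.mem_singleton_iff.mp e] at hl
        exact absurd hl (by simp)) _ _
    simp only
    rw [cond_mul_left μ dR, cond]
    simp only [da', mix_of_not (show i ∉ ({i}ᶜ : Set I) by simp)]
    rw [int_mp (f := fun x => h i (x * (a i w)⁻¹)) (measurePreserving_eval_infinitePi _ i)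
      ((hb i (by simp)).meas.comp (measurable_mul_const _)),
      integral_mul_right_eq_self (h i), h1 i (by simp), mul_one]

end Pool.Agent.Lib.MP_7f377f_mp.RGP
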