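import Pool.Agent.Lib.MP_7f377f_mp.R3MeasTree

/-! The laws of the averaged fields and their densities. -/

noncomputable section

namespace Pool.Agent.Lib.MP_7f377f_mp.RG.D3

open MeasureTheory Measure Set Ms
open scoped Quaternion ENNReal

namespace M3

theorem hk_one {a : ℝ} (ha : 0 ≤ a) : ∫⁻ g, hk a g ∂haar = 1 := by
  have h1 : ∫⁻ g, hk0 a g ∂haar ≤ 1 := by
    refine (lintegral_mono (g := fun _ => 1) fun g => ?_).trans (by simp)
    unfold hk0
    split_ifs
    · refine ENNReal.ofReal_le_one.2 (Real.exp_le_one_iff.2 ?_)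
      exact neg_nonpos.2 (by positivity)
    · exact zero_le
  have h2 : 0 < ∫⁻ g, hk0 a g ∂haar := by
    rw [lintegral_pos_iff_support (meas_hk0 a)]
    refine (isOpen_pos.measure_pos haar ⟨1, ?_⟩).trans_le (measure_mono fun g hg => ?_)
    · show 0 < (1 : S3).q.re
      rw [q_one]
      simp
    · have hg' : 0 < g.q.re := hg
      simp only [Function.mem_support, hk0, if_pos hg']
      exact (ENNReal.ofReal_pos.2 (Real.exp_pos _)).ne'
  simp only [hk, div_eq_mul_inv]
  rw [lintegral_mul_const _ (meas_hk0 a)]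
  exact ENNReal.mul_inv_cancel h2.ne' (h1.trans_lt ENNReal.one_lt_top).ne

theorem prob_hk {a : ℝ} (ha : 0 ≤ a) : IsProbabilityMeasure (haar.withDensity (hk a)) :=
  ⟨by rw [withDensity_apply _ MeasurableSet.univ, restrict_univ, hk_one ha]⟩

/-- the law of the noise -/
def nz (a : ℝ) : Measure Conf := Measure.infinitePi fun _ : Lk => haar.withDensity (hk a)

theorem prob_nz {a : ℝ} (ha : 0 ≤ a) : IsProbabilityMeasure (nz a) := by
  have := prob_hk ha
  unfold nz
  infer_instance

/-- the map defining a step -/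
def sm (l n : ℕ) (p : Conf × Conf) : Conf := per n fun b => p.2 b * blk l p.1 b

theorem meas_sm (l n : ℕ) : Measurable (sm l n) :=
  (cont_per n).measurable.comp (measurable_pi_lambda _ fun b =>
    ((measurable_pi_apply b).comp measurable_snd).mul
      ((measurable_pi_apply b).comp ((measurable_blk l).comp measurable_fst)))

theorem stepM_eq (l : ℕ) (a : ℝ) (n : ℕ) (μ : Measure Conf) :
    stepM l a n μ = (μ.prod (nz a)).map (sm l n) := rfl

theorem stepM_prob {a : ℝ} (ha : 0 ≤ a) (l n : ℕ) (μ : Measure Conf) [IsProbabilityMeasure μ] :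
    IsProbabilityMeasure (stepM l a n μ) := by
  have := prob_nz ha
  rw [stepM_eq]
  exact isProbabilityMeasure_map (meas_sm l n).aemeasurable

theorem stepM_le {a : ℝ} (ha : 0 ≤ a) (l n : ℕ) (μ μ' : Measure Conf) [IsProbabilityMeasure μ]
    [IsProbabilityMeasure μ'] {η : ℝ} (h : ∀ A, MeasurableSet A → μ.real A - μ'.real A ≤ η)
    (A : Set Conf) (hA : MeasurableSet A) :
    (stepM l a n μ).real A - (stepM l a n μ').real A ≤ η := by
  have := prob_nz ha
  have := stepM_prob ha l n μ'
  have h0 : 0 ≤ η := by simpa using h ∅ MeasurableSet.empty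
  have hS := meas_sm l n hA
  have : stepM l a n μ A ≤ stepM l a n μ' A + ENNReal.ofReal η := by
    rw [stepM_eq, stepM_eq, map_apply (meas_sm l n) hA, map_apply (meas_sm l n) hA,
      prod_apply_symm hS, prod_apply_symm hS]
    refine (lintegral_mono (g := fun w => μ' ((fun x => (x, w)) ⁻¹' (sm l n ⁻¹' A)) +
      ENNReal.ofReal η) fun w => ?_).trans ?_
    · have h1 := h _ (measurable_prodMk_right (y := w) hS)
      beta_reduce
      rw [← ofReal_measureReal (μ := μ), ← ofReal_measureReal (μ := μ'),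
        ← ENNReal.ofReal_add measureReal_nonneg h0]
      exact ENNReal.ofReal_le_ofReal (by linarith)
    · rw [lintegral_add_right _ measurable_const]
      simp
  have h2 := ENNReal.toReal_mono (ENNReal.add_ne_top.2 ⟨measure_ne_top _ _, ENNReal.ofReal_ne_top⟩)
    this
  rw [ENNReal.toReal_add (measure_ne_top _ _) ENNReal.ofReal_ne_top, ENNReal.toReal_ofReal h0] at h2
  simp only [Measure.real]
  linarith

theorem mod_mem {n : ℕ} (hn : 0 < n) (e : Lk) :
    ((fun i => e.1 i % (n : ℤ), e.2) : Lk) ∈ lcube n := by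
  simp only [lcube, cube, Finset.mem_product, Fintype.mem_piFinset, Finset.mem_Ico,
    Finset.mem_univ, and_true]
  exact fun i => ⟨Int.emod_nonneg _ (by omega), Int.emod_lt_of_pos _ (by omega)⟩

theorem per_of_mem {α : Type} {n : ℕ} (W : Lk → α) {b : Lk} (hb : b ∈ lcube n) :
    per n W b = W b := by
  simp only [lcube, cube, Finset.mem_product, Fintype.mem_piFinset, Finset.mem_Ico] at hb
  have : (fun i => b.1 i % (n : ℤ)) = b.1 :=
    funext fun i => Int.emod_eq_of_lt (hb.1 i).1 (hb.1 i).2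
  simp only [per, this]

theorem TT_per (l : ℕ) (a : ℝ) (n : ℕ) (f : Conf → ℝ≥0∞) (W : Conf) :
    TT l a n f (per n W) = TT l a n f W := by
  refine lintegral_congr fun U => ?_
  congr 1
  exact Finset.prod_congr rfl fun b hb => by rw [per_of_mem W hb]

theorem mp_right (V : Conf) : MeasurePreserving (fun (W : Conf) b => W b * V b) PP PP := by
  have h : ∀ e : Lk, MeasurePreserving (fun g : S3 => g * V e) haar haar :=
    fun e => measurePreserving_mul_right haar _
  refine ⟨measurable_pi_lambda _ fun e => (h e).measurable.comp (measurable_pi_apply e), ?_⟩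
  have := infinitePi_map_pi (fun _ : Lk => haar) fun e => (h e).measurable
  simp only [fun e => (h e).map_eq] at this
  exact this

/-- the noise as a density -/
theorem lint_noise {a : ℝ} (ha : 0 ≤ a) {n : ℕ} (hn : 0 < n) {G : Conf → ℝ≥0∞}
    (hG : Measurable G) (V : Conf) :
    ∫⁻ w, G (per n fun b => w b * V b) ∂nz a =
      ∫⁻ W, (∏ b ∈ lcube n, hk a (W b * (V b)⁻¹)) * G (per n W) ∂PP := by
  have := prob_hk ha
  set H : (lcube n → S3) → ℝ≥0∞ := fun u =>
    G fun e => u ⟨_, mod_mem hn e⟩ * V (fun i => e.1 i % (n : ℤ), e.2) with hH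
  have mH : Measurable H := hG.comp (measurable_pi_lambda _ fun e =>
    (measurable_pi_apply _).mul measurable_const)
  have mP : Measurable fun u : lcube n → S3 => ∏ b, hk a (u b) :=
    Finset.measurable_fun_prod _ fun b _ => (meas_hk a).comp (measurable_pi_apply b)
  have mR : Measurable fun W : Conf => (∏ b ∈ lcube n, hk a (W b * (V b)⁻¹)) * G (per n W) :=
    (Finset.measurable_fun_prod _ fun b _ => (meas_hk a).comp
      ((measurable_pi_apply b).mul measurable_const)).mul (hG.comp (cont_per n).measurable)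
  calc _ = ∫⁻ w, H ((lcube n).restrict w) ∂nz a := rfl
    _ = ∫⁻ u, H u ∂(Measure.pi fun _ => haar.withDensity (hk a)) := by
        rw [← lintegral_map mH (Finset.measurable_restrict _), nz, infinitePi_map_restrict]
    _ = ∫⁻ u, (∏ b, hk a (u b)) * H u ∂(Measure.pi fun _ => haar) := by
        rw [pi_dens haar (f := fun _ => hk a) fun _ => meas_hk a,
          lintegral_withDensity_eq_lintegral_mul _ mP mH]
        rfl
    _ = ∫⁻ w, (∏ b, hk a ((lcube n).restrict w b)) * H ((lcube n).restrict w) ∂PP := by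
        rw [← infinitePi_map_restrict (μ := fun _ : Lk => haar)]
        exact lintegral_map (mP.mul mH) (Finset.measurable_restrict _)
    _ = _ := by
        rw [← (mp_right V).lintegral_comp mR]
        refine lintegral_congr fun w => ?_
        simp only [mul_inv_cancel_right, Finset.restrict]
        rw [Finset.prod_coe_sort (lcube n) fun b => hk a (w b)]
        rfl

theorem lint_TT {a : ℝ} (ha : 0 ≤ a) (l : ℕ) {n : ℕ} (hn : 0 < n) {f G : Conf → ℝ≥0∞}
    (hf : Measurable f) (hG : Measurable G) :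
    ∫⁻ W, TT l a n f (per n W) * G (per n W) ∂PP =
      ∫⁻ U, f (per (LL l * n) U) * ∫⁻ w, G (sm l n (per (LL l * n) U, w)) ∂nz a ∂PP := by
  have hp : Measurable fun p : Conf × Conf => (p.1, per (LL l * n) p.2) :=
    measurable_fst.prodMk ((cont_per _).measurable.comp measurable_snd)
  have m1 := (meas_itg l a n hf).comp hp
  have mG : Measurable fun W => G (per n W) := hG.comp (cont_per n).measurable
  calc _ = ∫⁻ W, ∫⁻ U, itg l a n f W (per (LL l * n) U) * G (per n W) ∂PP ∂PP := by
        refine lintegral_congr fun W => ?_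
        rw [TT_per, TT_eq]
        exact (lintegral_mul_const _ (m1.comp measurable_prodMk_left)).symm
    _ = ∫⁻ U, ∫⁻ W, itg l a n f W (per (LL l * n) U) * G (per n W) ∂PP ∂PP :=
        lintegral_lintegral_swap (m1.mul (mG.comp measurable_fst)).aemeasurable
    _ = _ := by
        refine lintegral_congr fun U => ?_
        simp only [itg, mul_assoc, sm]
        rw [lint_noise ha hn hG, lintegral_const_mul]
        exact ((meas_ker l a n).comp measurable_prodMk_right).mul mG

/-- the total mass is preserved -/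
theorem mass_TT {a : ℝ} (ha : 0 ≤ a) (l : ℕ) {n : ℕ} (hn : 0 < n) {f : Conf → ℝ≥0∞}
    (hf : Measurable f) :
    ∫⁻ W, TT l a n f (per n W) ∂PP = ∫⁻ U, f (per (LL l * n) U) ∂PP := by
  have := prob_nz ha
  simpa using lint_TT ha l hn hf (G := fun _ => 1) measurable_const

theorem lint_lawOf (n : ℕ) {f G : Conf → ℝ≥0∞} (hf : Measurable f) (hG : Measurable G) :
    ∫⁻ V, G V ∂lawOf n f =
      (∫⁻ U, f (per n U) ∂PP)⁻¹ * ∫⁻ U, f (per n U) * G (per n U) ∂PP := by
  have hp := (cont_per n).measurable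
  rw [lawOf, lintegral_map hG hp, lintegral_smul_measure,
    lintegral_withDensity_eq_lintegral_mul _ (f := fun U => f (per n U)) (hf.comp hp)
      (g := fun U => G (per n U)) (hG.comp hp)]
  rfl

theorem lawOf_apply (n : ℕ) {f : Conf → ℝ≥0∞} (hf : Measurable f) {A : Set Conf}
    (hA : MeasurableSet A) : lawOf n f A =
      (∫⁻ U, f (per n U) ∂PP)⁻¹ * ∫⁻ U, f (per n U) * A.indicator 1 (per n U) ∂PP := by
  rw [← lint_lawOf n hf (measurable_one.indicator hA), lintegral_indicator_one hA]

theorem lawOf_prob (n : ℕ) {f : Conf → ℝ≥0∞} (hf : Measurable f)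
    (h0 : 0 < ∫⁻ U, f (per n U) ∂PP) (h1 : ∫⁻ U, f (per n U) ∂PP < ∞) :
    IsProbabilityMeasure (lawOf n f) := by
  refine ⟨?_⟩
  rw [lawOf_apply n hf MeasurableSet.univ]
  simpa using ENNReal.inv_mul_cancel h0.ne' h1.ne

/-- a step acts on densities by `TT` -/
theorem stepM_lawOf {a : ℝ} (ha : 0 ≤ a) (l : ℕ) {n : ℕ} (hn : 0 < n) {f : Conf → ℝ≥0∞}
    (hf : GI (LL l * n) f) : stepM l a n (lawOf (LL l * n) f) = lawOf n (TT l a n f) := by
  have := prob_nz ha
  refine Measure.ext fun A hA => ?_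
  have hG : Measurable (A.indicator (1 : Conf → ℝ≥0∞)) := measurable_one.indicator hA
  have hs := hG.comp (meas_sm l n)
  rw [lawOf_apply n (hf.step a 0).1.1 hA, lint_TT ha l hn hf.1 hG, mass_TT ha l hn hf.1,
    ← lint_lawOf _ hf.1 (G := fun V => ∫⁻ w, A.indicator 1 (sm l n (V, w)) ∂nz a)
      hs.lintegral_prod_right', stepM_eq, ← lintegral_indicator_one hA,
    lintegral_map hG (meas_sm l n)]
  exact lintegral_prod _ hs.aemeasurable

theorem mass_wil {β : ℝ} (hβ : 0 ≤ β) (n : ℕ) :
    0 < ∫⁻ U, ENNReal.ofReal (Real.exp (β * wil n (per n U))) ∂PP ∧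
      ∫⁻ U, ENNReal.ofReal (Real.exp (β * wil n (per n U))) ∂PP < ∞ := by
  constructor
  · rw [lintegral_pos_iff_support (f := fun U => ENNReal.ofReal (Real.exp (β * wil n (per n U))))
      ((GI_wil β n).1.comp (cont_per n).measurable)]
    have : Function.support (fun U => ENNReal.ofReal (Real.exp (β * wil n (per n U)))) = univ :=
      eq_univ_of_forall fun U => (ENNReal.ofReal_pos.2 (Real.exp_pos _)).ne'
    rw [this]
    simp
  · refine (lintegral_mono (g := fun _ => ENNReal.ofReal (Real.exp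
      (β * ∑ _ ∈ cube n, ∑ _ : Fin 3, ∑ _ : Fin 3, (2 : ℝ)))) fun U => ?_).trans_lt (by simp)
    refine ENNReal.ofReal_le_ofReal (Real.exp_le_exp.2 (mul_le_mul_of_nonneg_left ?_ hβ))
    refine Finset.sum_le_sum fun x _ => Finset.sum_le_sum fun μ _ => Finset.sum_le_sum fun ν _ => ?_
    split_ifs
    · linarith [re_le_one (hol Inv.inv (per n U) x μ ν)]
    · norm_num

theorem wilson_prob {β : ℝ} (hβ : 0 ≤ β) (n : ℕ) : IsProbabilityMeasure (wilson β n) :=
  lawOf_prob n (GI_wil β n).1 (mass_wil hβ n).1 (mass_wil hβ n).2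

theorem LL_ll (j : ℕ) : LL (ll j) = 3 ^ (2 * j + 1) := by
  have : 3 ^ (2 * j + 1) % 2 = 1 := by simp [Nat.pow_mod]
  simp only [LL, ll]
  omega

theorem nn_succ (j : ℕ) : nn (j + 1) = LL (ll j) * nn j := by
  rw [LL_ll, nn, nn, show (j + 1) ^ 2 = 2 * j + 1 + j ^ 2 by ring, pow_add]
  ring

theorem nn_pos (j : ℕ) : 0 < nn j := by unfold nn; positivity

theorem GI_rr (γ : ℝ) (J l i n : ℕ) : GI n (rr γ J l i n) := (GI_rho _ _ (fun _ => 0) _ i n).1

end M3

open M3

/-- the averaging maps probability measures to probability measures and contracts distances -/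
theorem av1_prob {γ : ℝ} (hγ : 0 < γ) (j l : ℕ) (μ : Measure Conf) [IsProbabilityMeasure μ] :
    IsProbabilityMeasure (av1 γ j l μ) :=
  stepM_prob (by positivity) _ _ μ

theorem av1_contr {γ : ℝ} (hγ : 0 < γ) (j l : ℕ) (μ μ' : Measure Conf) [IsProbabilityMeasure μ]
    [IsProbabilityMeasure μ'] {η : ℝ} (h : ∀ A, MeasurableSet A → |μ.real A - μ'.real A| ≤ η)
    (A : Set Conf) (hA : MeasurableSet A) :
    |(av1 γ j l μ).real A - (av1 γ j l μ').real A| ≤ η := by
  have ha : 0 ≤ γ * nn j * LL l ^ 3 := by positivity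
  refine abs_sub_le_iff.2 ⟨?_, ?_⟩
  · exact stepM_le ha _ _ μ μ' (fun A hA => (abs_sub_le_iff.1 (h A hA)).1) A hA
  · exact stepM_le ha _ _ μ' μ (fun A hA => (abs_sub_le_iff.1 (h A hA)).2) A hA

/-- the laws have the densities `rr` -/
theorem law_eq {γ : ℝ} (hγ : 0 < γ) (J l k : ℕ) (hk : k ≤ J) :
    law γ J l k = lawOf (nn (J - k)) (rr γ J l (k + 1) (nn (J - k))) ∧
    0 < ∫⁻ U, rr γ J l (k + 1) (nn (J - k)) (per (nn (J - k)) U) ∂PP ∧
    ∫⁻ U, rr γ J l (k + 1) (nn (J - k)) (per (nn (J - k)) U) ∂PP < ∞ := by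
  induction k with
  | zero =>
    have ha : 0 ≤ γ * nn J * LL l ^ 3 := by positivity
    have e : rr γ J l (0 + 1) (nn (J - 0)) = TT l (γ * nn J * LL l ^ 3) (nn J) fun U =>
        ENNReal.ofReal (Real.exp (γ * (LL l * nn J) * wil (LL l * nn J) U)) := rfl
    have hm := mass_wil (β := γ * (LL l * nn J)) (by positivity) (LL l * nn J)
    rw [e, Nat.sub_zero, mass_TT ha l (nn_pos J) (GI_wil _ _).1]
    exact ⟨stepM_lawOf ha l (nn_pos J) (GI_wil _ _), hm⟩
  | succ k ih =>
    obtain ⟨h1, h2⟩ := ih (by omega)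
    set j := J - (k + 1) with hj
    have ha : 0 ≤ γ * nn j * LL (ll j) ^ 3 := by positivity
    have e : rr γ J l (k + 1 + 1) (nn j) = TT (ll j) (γ * nn j * LL (ll j) ^ 3) (nn j)
        (rr γ J l (k + 1) (LL (ll j) * nn j)) := rfl
    rw [show J - k = j + 1 by omega, nn_succ] at h1 h2
    rw [e, mass_TT ha _ (nn_pos j) (GI_rr _ _ _ _ _).1]
    refine ⟨?_, h2⟩
    rw [law, h1]
    exact stepM_lawOf ha _ (nn_pos j) (GI_rr _ _ _ _ _)

theorem law_prob {γ : ℝ} (hγ : 0 < γ) (J l k : ℕ) : IsProbabilityMeasure (law γ J l k) := by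
  induction k with
  | zero =>
    have := wilson_prob (β := γ * (LL l * nn J)) (by positivity) (LL l * nn J)
    exact av1_prob hγ _ _ _
  | succ k ih => exact av1_prob hγ _ _ _

end Pool.Agent.Lib.MP_7f377f_mp.RG.D3
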