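import Pool.Agent.Lib.MP_7f377f_mp.HFDefs
import Pool.Agent.Lib.MP_7f377f_mp.R3MeasLaw
import Pool.Agent.Lib.MP_7f377f_mp.P3Av
import Pool.Agent.Lib.MP_7f377f_mp.PBase

/-! Transfer of observables from a level of the renormalisation group to the finest lattice. -/

noncomputable section

namespace Pool.Agent.Lib.MP_7f377f_mp.RG.D3.Hf

open Finset MeasureTheory
open RGP (BM)

/-- dependence on the links well inside the time window from `P` to `Q` -/
def Dep (P Q : ℤ) (F : Conf → ℝ) : Prop := DependsOn F {e | P < e.1 0 ∧ e.1 0 + 2 ≤ Q}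

/-- `A` is a conditional expectation which respects locality in time -/
structure Tr (μ ν : Measure Conf) (Λ n : ℕ) (A : (Conf → ℝ) → Conf → ℝ) : Prop where
  bm : ∀ {F}, BM F → BM (A F)
  pos : ∀ {F}, (∀ U, 0 ≤ F U) → ∀ U, 0 ≤ A F U
  one : A (fun _ => 1) = fun _ => 1
  sub : ∀ {F G}, BM F → BM G → A (fun U => F U - G U) = fun U => A F U - A G U
  int : ∀ {F}, BM F → ∫ U, A F U ∂μ = ∫ U, F U ∂ν
  dep : ∀ {F} {P Q : ℤ}, 0 ≤ P → Q ≤ n → Dep P Q F → Dep (Λ * P) (Λ * Q) (A F)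
  mul : ∀ {F G} {P Q P' Q' : ℤ}, BM F → BM G → 0 ≤ P → P ≤ Q → Q ≤ P' → P' ≤ Q' → Q' ≤ n →
    Dep P Q F → Dep P' Q' G → A (fun U => F U * G U) = fun U => A F U * A G U

theorem Tr.comp {μ ν ν' : Measure Conf} {Λ L n : ℕ} {A B : (Conf → ℝ) → Conf → ℝ}
    (h : Tr μ ν Λ (L * n) A) (h' : Tr ν ν' L n B) : Tr μ ν' (Λ * L) n fun F => A (B F) where
  bm b := h.bm (h'.bm b)
  pos p := h.pos (h'.pos p)
  one := by rw [h'.one, h.one]
  sub b b' := by rw [h'.sub b b', h.sub (h'.bm b) (h'.bm b')]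
  int b := (h.int (h'.bm b)).trans (h'.int b)
  dep p q d := by
    rw [Nat.cast_mul, mul_assoc, mul_assoc]
    exact h.dep (by positivity) (by rw [Nat.cast_mul]; gcongr) (h'.dep p q d)
  mul b b' p1 p2 p3 p4 p5 d d' := by
    rw [h'.mul b b' p1 p2 p3 p4 p5 d d']
    exact h.mul (h'.bm b) (h'.bm b') (by positivity) (by gcongr) (by gcongr) (by gcongr)
      (by rw [Nat.cast_mul]; gcongr) (h'.dep p1 (by omega) d) (h'.dep (by omega) p5 d')

/-- the adjoint of one averaging step -/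
def adj (l : ℕ) (a : ℝ) (n : ℕ) (F : Conf → ℝ) (U : Conf) : ℝ :=
  ∫ ξ, F (M3.sm l n (U, ξ)) ∂M3.nz a

theorem Tr.step {l : ℕ} (hl : 1 ≤ l) {a : ℝ} (ha : 0 ≤ a) (n : ℕ) (μ : Measure Conf)
    [IsProbabilityMeasure μ] : Tr μ (stepM l a n μ) (LL l) n (adj l a n) := by
  have := M3.prob_nz ha
  have := M3.prob_hk ha
  have ms := M3.meas_sm l n
  have b1 : ∀ {F}, BM F → ∀ U, BM fun ξ => F (M3.sm l n (U, ξ)) := fun b U =>
    b.comp (ms.comp measurable_prodMk_left)
  have t0 : ∀ {P Q : ℤ} {e : Lk}, 0 ≤ P → Q ≤ n → P < e.1 0 ∧ e.1 0 + 2 ≤ Q →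
      e.1 0 % (n : ℤ) = e.1 0 := fun p q h => Int.emod_eq_of_lt (by omega) (by omega)
  have d1 : ∀ {F} {P Q : ℤ}, 0 ≤ P → Q ≤ n → Dep P Q F → ∀ U,
      DependsOn (fun ξ => F (M3.sm l n (U, ξ))) {e | P < e.1 0 ∧ e.1 0 + 2 ≤ Q} :=
    fun p q d U ξ ξ' h => d fun e he => by
      have := t0 p q he
      simp only [M3.sm, per]
      rw [h _ (by simpa only [Set.mem_ofPred_eq, this] using he)]
  refine ⟨fun b => (b.comp ms).param _, fun p U => integral_nonneg fun ξ => p _, ?_,
    fun b b' => funext fun U => integral_sub ((b1 b U).integrable _) ((b1 b' U).integrable _),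
    fun b => ?_, fun {F P Q} p q d U U' h => ?_, fun b b' p1 p2 p3 p4 p5 d d' => funext fun U => ?_⟩
  · funext U
    simp [adj]
  · rw [M3.stepM_eq, integral_map ms.aemeasurable b.meas.aestronglyMeasurable,
      integral_prod _ ((b.comp ms).integrable _)]
    rfl
  · refine integral_congr_ae (.of_forall fun ξ => d fun e he => ?_)
    have h0 := t0 p q he
    simp only [M3.sm, per, blk]
    congr 1
    refine Pv.av_dep l e.2 fun f hf => h _ ?_
    obtain ⟨h1, h2⟩ := hf 0
    obtain ⟨h3, h4⟩ := he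
    have h5 := Pv.un_nonneg f.2 0
    have h6 : un e.2 0 ≤ 1 := by
      rw [un, Pi.single_apply]
      split_ifs <;> norm_num
    have h7 : (1 : ℤ) ≤ l := by exact_mod_cast hl
    simp only [Set.mem_ofPred_eq, Pi.add_apply, up, Pi.smul_apply, smul_eq_mul, h0, LL] at h2 ⊢
    push_cast at h2 ⊢
    constructor <;> nlinarith
  · exact RGP.int_mul_indep _ (b1 b U) (b1 b' U) (d1 p1 (by omega) d U) (d1 (by omega) p5 d' U)
      (Set.disjoint_left.2 fun e h h' => by
        have := h.2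
        have := h'.1
        omega)

theorem one_le_ll (j : ℕ) : 1 ≤ ll j := by
  have h1 := M3.LL_ll j
  have h2 : 3 ^ 1 ≤ 3 ^ (2 * j + 1) := Nat.pow_le_pow_right (by norm_num) (by omega)
  rw [LL] at h1
  omega

theorem tr_law {γ : ℝ} (hγ : 0 < γ) {J l : ℕ} (hA : Adm J l) {k : ℕ} (hk : k ≤ J) :
    ∃ (Λ : ℕ) (A : (Conf → ℝ) → Conf → ℝ), Λ * nn (J - k) = LL l * nn J ∧
      Tr (wilson (γ * (LL l * nn J)) (LL l * nn J)) (law γ J l k) Λ (nn (J - k)) A := by
  induction k with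
  | zero =>
    have := M3.wilson_prob (β := γ * (LL l * nn J)) (by positivity) (LL l * nn J)
    have h1 := hA.1
    have h2 := one_le_ll J
    exact ⟨LL l, _, rfl, Tr.step (by simp only [LL] at h1; omega) (by positivity) _ _⟩
  | succ k ih =>
    obtain ⟨Λ, A, h1, h2⟩ := ih (by omega)
    have := law_prob hγ J l k
    rw [show J - k = J - (k + 1) + 1 by omega, M3.nn_succ] at h1 h2
    exact ⟨_, _, by rw [mul_assoc, h1], h2.comp (Tr.step (one_le_ll _) (by positivity) _ _)⟩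

/-- indicator of a sublevel set -/
def il (O : Conf → ℝ) (k : ℕ) : Conf → ℝ := {U | O U ≤ k - 1}.indicator fun _ => 1

theorem il_bm {O : Conf → ℝ} (h : Measurable O) (k : ℕ) : BM (il O k) :=
  .ind (measurableSet_le h measurable_const)

theorem il_dep {O : Conf → ℝ} {S : Set Lk} (h : DependsOn O S) (k : ℕ) : DependsOn (il O k) S :=
  fun U U' e => by simp only [il, Set.indicator, Set.mem_ofPred_eq, h e]

theorem il_of_le {O : Conf → ℝ} {k : ℕ} {U : Conf} (h : O U ≤ k - 1) : il O k U = 1 := if_pos h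

theorem il_of_lt {O : Conf → ℝ} {k : ℕ} {U : Conf} (h : (k : ℝ) - 1 < O U) : il O k U = 0 :=
  if_neg (not_le.2 h)

theorem il_mem (O : Conf → ℝ) (k : ℕ) (U : Conf) : 0 ≤ il O k U ∧ il O k U ≤ 1 := by
  rcases le_or_gt (O U) (k - 1) with h | h
  · simp [il_of_le h]
  · simp [il_of_lt h]

theorem int_le_real {ν : Measure Conf} [IsProbabilityMeasure ν] {F : Conf → ℝ} (b : BM F)
    {S : Set Conf} (hS : MeasurableSet S) (h1 : ∀ U, F U ≤ 1) (h0 : ∀ U ∉ S, F U ≤ 0) :
    ∫ U, F U ∂ν ≤ ν.real S := by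
  rw [← integral_indicator_one hS]
  refine integral_mono (b.integrable _) ((BM.ind hS).integrable _) fun U => ?_
  by_cases h : U ∈ S
  · rw [Set.indicator_of_mem h]; exact h1 U
  · rw [Set.indicator_of_notMem h]; exact h0 U h

theorem tail_small (ν : Measure Conf) [IsProbabilityMeasure ν] {O : Conf → ℝ} (h : Measurable O)
    {e : ℝ} (he : 0 < e) : ∃ K : ℕ, ν.real {U | (K : ℝ) - 1 < O U} ≤ e := by
  have h1 := tendsto_measure_iInter_atTop (μ := ν) (s := fun K : ℕ => {U | (K : ℝ) - 1 < O U})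
    (fun K => (measurableSet_lt measurable_const h).nullMeasurableSet)
    (fun K K' hK U hU => lt_of_le_of_lt (sub_le_sub_right (Nat.cast_le (α := ℝ).2 hK) 1) hU)
    ⟨0, measure_ne_top _ _⟩
  have h2 : (⋂ K : ℕ, {U | (K : ℝ) - 1 < O U}) = ∅ := Set.eq_empty_of_forall_notMem fun U hU => by
    obtain ⟨K, hK⟩ := exists_nat_ge (O U + 1)
    have : (K : ℝ) - 1 < O U := Set.mem_iInter.1 hU K
    linarith
  rw [h2, measure_empty] at h1
  obtain ⟨K, hK⟩ := (h1.eventually (ge_mem_nhds (ENNReal.ofReal_pos.2 he))).exists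
  exact ⟨K, ENNReal.toReal_le_of_le_ofReal he.le hK⟩

theorem pers_of (h : Lev) : Pers := by
  intro γ hγ e he
  obtain ⟨j, h⟩ := h γ hγ e he
  have n0 : (0 : ℝ) < nn j := by exact_mod_cast M3.nn_pos j
  refine ⟨(nn j : ℝ)⁻¹, by positivity, j, fun J l hj hA => ?_⟩
  obtain ⟨s, O, O', mO, mO', dO, dO', hs, O0, h1, h2⟩ := h J l hj hA
  obtain ⟨Λ, A, hΛ, T⟩ := tr_law hγ hA (show J - j ≤ J by omega)
  have := law_prob hγ J l (J - j)
  rw [show J - (J - j) = j by omega] at hΛ T
  obtain ⟨K, hK⟩ := tail_small (law γ J l (J - j)) mO' he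
  have Λ0 : 0 < Λ := Nat.pos_of_mul_pos_right (hΛ ▸ Nat.mul_pos (Nat.succ_pos _) (M3.nn_pos J))
  have hh : LL l * 3 ^ J ^ 2 = Λ * 3 ^ j ^ 2 := by
    simp only [nn] at hΛ
    nlinarith
  have hs' : (s : ℤ) + 7 ≤ (3 ^ j ^ 2 : ℕ) := by exact_mod_cast hs
  have hn : (s : ℤ) + 7 ≤ nn j := by
    rw [nn]
    omega
  have s0 : (0 : ℤ) ≤ s := Int.natCast_nonneg s
  have d1 : ∀ k, Dep s (s + 3) (il O k) := fun k => (il_dep dO k).mono fun e he =>
    ⟨by have := he.1; omega, by have := he.2; omega⟩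
  have d2 : ∀ k, Dep (s + 4) (s + 7) (il O' k) := fun k => (il_dep dO' k).mono fun e he =>
    ⟨by have := he.1; omega, by have := he.2; omega⟩
  have cd : ∀ {P Q F}, Dep P Q F → Dep P Q fun U => 1 - F U := fun d U U' e => by
    simp only [d e]
  have cb : ∀ {F : Conf → ℝ}, BM F → BM fun U => 1 - F U := fun b => (BM.const 1).sub b
  have ce : ∀ {F : Conf → ℝ}, BM F → A (fun U => 1 - F U) = fun U => 1 - A F U := fun b => by
    rw [T.sub (BM.const 1) b, T.one]
  have rg : ∀ {O : Conf → ℝ}, Measurable O → ∀ k U, 0 ≤ A (il O k) U ∧ A (il O k) U ≤ 1 :=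
    fun {O} m k U => ⟨T.pos (fun U => (il_mem O k U).1) U, by
      have := T.pos (F := fun U => 1 - il O k U) (fun U => sub_nonneg.2 (il_mem O k U).2) U
      rw [ce (il_bm m k)] at this
      exact sub_nonneg.1 this⟩
  have mS : MeasurableSet {U | 1 < |O U - O' U|} :=
    measurableSet_lt measurable_const (mO.sub mO').abs
  have L0 : (0 : ℤ) ≤ Λ := Int.natCast_nonneg Λ
  refine ⟨Λ * (s + 3), Λ, K, fun k => A (il O k), fun k => A (il O' k), ?_,
    ⟨by positivity, by rw [hh]; nlinarith, fun k => (T.bm (il_bm mO k)).meas,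
      fun k => (T.bm (il_bm mO' k)).meas, rg mO, rg mO',
      fun k => (T.dep s0 (by omega) (d1 k)).mono fun e he => ?_,
      fun k => (T.dep (by omega) hn (d2 k)).mono fun e he => ?_, ?_, ?_, fun k => ?_,
      fun k => ?_, fun k => ?_⟩⟩
  · rw [← Nat.cast_mul, ← hΛ, Nat.cast_mul, mul_comm, mul_assoc, mul_inv_cancel₀ n0.ne', mul_one]
  · obtain ⟨h3, h4⟩ := he
    push_cast
    exact ⟨by nlinarith, by linarith⟩
  · obtain ⟨h3, h4⟩ := he
    rw [hh]
    refine ⟨by push_cast; linarith, ?_⟩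
    rw [Nat.cast_mul]
    nlinarith
  · rw [T.int (il_bm mO' 0)]
    refine le_trans (le_of_eq ?_) he.le
    refine (integral_congr_ae (.of_forall fun U => il_of_lt ?_)).trans (integral_zero _ _)
    have := O0 U
    simp only [Nat.cast_zero]
    linarith
  · rw [← ce (il_bm mO' K), T.int (cb (il_bm mO' K))]
    exact (int_le_real (cb (il_bm mO' K)) (measurableSet_lt measurable_const mO')
      (fun U => sub_le_self _ (il_mem _ _ U).1)
      fun U hU => by rw [il_of_le (not_lt.1 hU), sub_self]).trans hK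
  · have b := (il_bm mO' (k + 1)).sub (il_bm mO' k)
    have e1 := T.sub (il_bm mO' (k + 1)) (il_bm mO' k)
    have p : ∀ U, 0 ≤ il O' (k + 1) U - il O' k U := fun U => by
      rcases le_or_gt (O' U) (k - 1) with h | h
      · rw [il_of_le h, il_of_le (by push_cast; linarith), sub_self]
      · rw [il_of_lt h, sub_zero]
        exact (il_mem _ _ U).1
    have e2 : ∀ U, |A (il O' (k + 1)) U - A (il O' k) U| =
        A (fun U => il O' (k + 1) U - il O' k U) U := fun U => by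
      have := T.pos p U
      rw [e1] at this ⊢
      exact abs_of_nonneg this
    simp only [e2]
    rw [T.int b]
    refine (int_le_real b ((measurableSet_lt measurable_const mO').inter
      (measurableSet_le mO' measurable_const))
      (fun U => by linarith [(il_mem O' (k + 1) U).2, (il_mem O' k U).1]) fun U hU => ?_).trans
      (h2 (k - 1))
    rcases le_or_gt (O' U) (k - 1) with h | h
    · rw [il_of_le h]
      exact sub_nonpos.2 (il_mem _ _ U).2
    · rw [il_of_lt h, il_of_lt (k := k + 1), sub_self]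
      push_cast
      rw [add_sub_cancel_right]
      exact lt_of_not_ge fun h' => hU ⟨h, show O' U ≤ k - 1 + 1 by linarith⟩
  · have b := (il_bm mO k).mul (cb (il_bm mO' (k + 1)))
    have e1 := T.mul (il_bm mO k) (cb (il_bm mO' (k + 1))) s0 (by omega) (by omega) (by omega) hn
      (d1 k) (cd (d2 (k + 1)))
    rw [ce (il_bm mO' (k + 1))] at e1
    rw [← e1, T.int b]
    refine (int_le_real b mS (fun U => mul_le_one₀ (il_mem _ _ U).2
      (sub_nonneg.2 (il_mem _ _ U).2) (sub_le_self _ (il_mem _ _ U).1)) fun U hU => ?_).trans h1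
    rcases le_or_gt (O U) (k - 1) with h | h
    · have := (abs_le.1 (not_lt.1 (show ¬ 1 < |O U - O' U| from hU))).1
      rw [il_of_le (O := O') (by push_cast; linarith), sub_self, mul_zero]
    · rw [il_of_lt h, zero_mul]
  · have b := (cb (il_bm mO (k + 1))).mul (il_bm mO' k)
    have e1 := T.mul (cb (il_bm mO (k + 1))) (il_bm mO' k) s0 (by omega) (by omega) (by omega) hn
      (cd (d1 (k + 1))) (d2 k)
    rw [ce (il_bm mO (k + 1))] at e1
    rw [← e1, T.int b]
    refine (int_le_real b mS (fun U => mul_le_one₀ (sub_le_self _ (il_mem _ _ U).1)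
      (il_mem _ _ U).1 (il_mem _ _ U).2) fun U hU => ?_).trans h1
    rcases le_or_gt (O' U) (k - 1) with h | h
    · have := (abs_le.1 (not_lt.1 (show ¬ 1 < |O U - O' U| from hU))).2
      rw [il_of_le (O := O) (by push_cast; linarith), sub_self, zero_mul]
    · rw [il_of_lt h, mul_zero]

end Pool.Agent.Lib.MP_7f377f_mp.RG.D3.Hf
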