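import Pool.Agent.Lib.MP_7f377f_mp.R3Model

/-! Interfaces of the proof that the mass on the cylinder is finite. -/

noncomputable section

namespace Pool.Agent.Lib.MP_7f377f_mp.RG.D3.Hf

open Finset MeasureTheory

/-- the links which start at a time in `[p, q)` -/
def Tw (p q : ℤ) : Set Lk := {e | p ≤ e.1 0 ∧ e.1 0 < q}

/-- two families of observables of the slabs `[0, a)` and `[a + s, h)`: `u k` and `v k` are the
conditional probabilities that two almost equal, well spread variables are at most `k` -/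
structure Fam (P : Measure Conf) (a s h K : ℕ) (e : ℝ) (u v : ℕ → Conf → ℝ) : Prop where
  a_pos : 0 < a
  room : a + s < h
  mu : ∀ k, Measurable (u k)
  mv : ∀ k, Measurable (v k)
  ru : ∀ k U, 0 ≤ u k U ∧ u k U ≤ 1
  rv : ∀ k U, 0 ≤ v k U ∧ v k U ≤ 1
  du : ∀ k, DependsOn (u k) (Tw 0 a)
  dv : ∀ k, DependsOn (v k) (Tw (a + s) h)
  bot : ∫ U, v 0 U ∂P ≤ e
  top : ∫ U, (1 - v K U) ∂P ≤ e
  inc : ∀ k, ∫ U, |v (k + 1) U - v k U| ∂P ≤ e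
  uv : ∀ k, ∫ U, u k U * (1 - v (k + 1) U) ∂P ≤ e
  vu : ∀ k, ∫ U, (1 - u (k + 1) U) * v k U ∂P ≤ e

/-- persistence in time of an observable of the Wilson measure, uniformly in the cutoff -/
def Pers : Prop := ∀ γ > (0 : ℝ), ∀ e > (0 : ℝ), ∃ τ > (0 : ℝ), ∃ J0 : ℕ, ∀ J l, J0 ≤ J → Adm J l →
  ∃ (a s K : ℕ) (u v : ℕ → Conf → ℝ), τ * (LL l * nn J) ≤ s ∧
    Fam (wilson (γ * (LL l * nn J)) (LL l * nn J)) a s (LL l * 3 ^ J ^ 2) K e u v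

/-- the same at a fixed level of the renormalisation group -/
def Lev : Prop := ∀ γ > (0 : ℝ), ∀ e > (0 : ℝ), ∃ j : ℕ, ∀ J l, j ≤ J → Adm J l →
  ∃ (s : ℕ) (O O' : Conf → ℝ), Measurable O ∧ Measurable O' ∧ DependsOn O (Tw (s + 1) (s + 2)) ∧
    DependsOn O' (Tw (s + 5) (s + 6)) ∧ s + 7 ≤ 3 ^ j ^ 2 ∧ (∀ U, 0 ≤ O' U) ∧
    (law γ J l (J - j)).real {U | 1 < |O U - O' U|} ≤ e ∧
    ∀ y, (law γ J l (J - j)).real {U | y < O' U ∧ O' U ≤ y + 1} ≤ e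

/-- the median argument: `p k`, `q k`, `c k`, `d k` are the vacuum expectations of `v k`, `u k`,
`u k * v (k + 1)`, `u (k + 1) * v k` -/
theorem med {p q c d : ℕ → ℝ} {ε ρ : ℝ} {K : ℕ} (hε : ε ≤ 1 / 40) (q0 : ∀ k, 0 ≤ q k ∧ q k ≤ 1)
    (h0 : p 0 ≤ ε) (h1 : 1 - p K ≤ ε) (h2 : ∀ k, |p (k + 1) - p k| ≤ ε) (h3 : ∀ k, q k - c k ≤ ε)
    (h4 : ∀ k, p k - d k ≤ ε) (h5 : ∀ k, |c k - q k * p (k + 1)| ≤ ρ)
    (h6 : ∀ k, |d k - q (k + 1) * p k| ≤ ρ) : 1 / 10 ≤ ρ := by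
  have ex : ∃ k, 1 / 4 ≤ p k := ⟨K, by linarith⟩
  obtain ⟨k, hk⟩ : ∃ k, Nat.find ex = k + 1 :=
    Nat.exists_eq_succ_of_ne_zero fun h => by have := Nat.find_spec ex; rw [h] at this; linarith
  have a1 := Nat.find_spec ex
  have a2 := not_le.1 (Nat.find_min ex (show k < Nat.find ex by omega))
  rw [hk] at a1
  have b1 := abs_le.1 (h2 k)
  have b2 := abs_le.1 (h2 (k + 1))
  have b3 := abs_le.1 (h2 (k + 2))
  have b4 := abs_le.1 (h5 (k + 2))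
  have b5 := abs_le.1 (h6 (k + 1))
  have b6 := q0 (k + 2)
  nlinarith [h3 (k + 2), h4 (k + 1), mul_nonneg b6.1 (show 0 ≤ 3 / 4 - p (k + 2 + 1) by linarith),
    mul_nonneg (sub_nonneg.2 b6.2) (sub_nonneg.2 a1)]

end Pool.Agent.Lib.MP_7f377f_mp.RG.D3.Hf
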