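import Pool.Agent.Lib.MP_7f377f_mp.HBr
import Pool.Agent.Lib.MP_7f377f_mp.HFDefs

/-! The second eigenvector of the transfer kernel: finiteness of the mass. -/

noncomputable section

namespace Pool.Agent.Lib.MP_7f377f_mp.Y6

open MeasureTheory Measure Function Filter Topology Pool.Agent.Lib.MP_2d4879_an Hm RGP Ch
open scoped InnerProductSpace Quaternion ENNReal

set_option linter.unusedSectionVars false

theorem second_ev {α : Type} [MeasurableSpace α] {m : Measure α} [IsFiniteMeasure m]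
    [TopologicalSpace.SeparableSpace (Lp ℝ 2 m)] {k : α → α → ℝ} {hk : GK k} {l r : ℝ}
    {e : Lp ℝ 2 m} (V : Vac m hk l r e) (hr : r < 1) (hs : ∀ x y, k x y = k y x)
    (hp : ∀ v, 0 ≤ ⟪v, hk.op m v⟫_ℝ) : ∃ q, q ≤ r ∧ Vac m hk l q e ∧
      (q = 0 ∨ ∃ f : Lp ℝ 2 m, ‖f‖ = 1 ∧ ⟪e, f⟫_ℝ = 0 ∧ hk.op m f = (q * l) • f) := by
  classical
  obtain ⟨ι, b, ev, hb, htr⟩ := ker_spec (μ := m) hk hs
  have hsy := hk.symm_op (μ := m) hs
  have hl := V.pos
  have b1 := b.orthonormal.1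
  have ev0 : ∀ i, 0 ≤ ev i := fun i => by
    have := hp (b i)
    rwa [hb, inner_smul_right, real_inner_self_eq_norm_sq, b1, one_pow, mul_one] at this
  have h1 : ∀ i, ⟪e, b i⟫_ℝ = 0 ∨ b i = ⟪e, b i⟫_ℝ • e := fun i => by
    refine or_iff_not_imp_left.2 fun h => ?_
    have a1 : ⟪hk.op m e, b i⟫_ℝ = ⟪e, hk.op m (b i)⟫_ℝ := hsy e (b i)
    rw [V.eig, hb, inner_smul_left, inner_smul_right, conj_trivial, mul_left_inj' h] at a1
    have a2 : ∀ n : ℕ, ‖b i - ⟪e, b i⟫_ℝ • e‖ ≤ r ^ n := fun n => by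
      have a3 := V.gap (n + 1) (b i)
      rw [← op_pw_eq hk, op_pw hk (hb i), ← a1, mul_smul, ← smul_sub, norm_smul, b1, mul_one,
        mul_pow, mul_comm, Real.norm_of_nonneg (by positivity), mul_le_mul_iff_left₀ (by positivity),
        pow_succ] at a3
      exact a3.trans (mul_le_of_le_one_right (pow_nonneg V.r0 n) V.r1)
    exact sub_eq_zero.1 (norm_le_zero_iff.1 (ge_of_tendsto'
      (tendsto_pow_atTop_nhds_zero_of_lt_one V.r0 hr) a2))
  obtain ⟨i0, h0⟩ : ∃ i, ⟪e, b i⟫_ℝ ≠ 0 := by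
    by_contra h
    push Not at h
    have := hasSum_normsq b e
    simp only [real_inner_comm e, h, V.one, ne_eq, OfNat.ofNat_ne_zero, not_false_eq_true,
      zero_pow] at this
    simpa using this.unique hasSum_zero
  have e0 := (h1 i0).resolve_left h0
  have c1 : ⟪e, b i0⟫_ℝ ^ 2 = 1 := by
    have := b1 i0
    rw [e0, norm_smul, V.one, mul_one, Real.norm_eq_abs] at this
    rw [← sq_abs, this, one_pow]
  have h2 : ∀ i, i ≠ i0 → ⟪e, b i⟫_ℝ = 0 := fun i hi => by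
    have := b.orthonormal.2 hi.symm
    simp only at this
    rw [e0, inner_smul_left, conj_trivial] at this
    exact (mul_eq_zero.1 this).resolve_left h0
  have key : ∀ q, 0 ≤ q → q ≤ 1 → (∀ i, i ≠ i0 → ev i ≤ q * l) → Vac m hk l q e := fun q q0 q1 h => by
    refine ⟨hl, q0, q1, V.one, V.eig, V.nrm, fun n v => ?_⟩
    have a1 := norm_pow_sub_le _ hsy b hb (mul_nonneg q0 hl.le) i0
      (fun i hi => by rw [abs_of_nonneg (ev0 i)]; exact h i hi) n v
    have a2 := hb i0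
    rw [e0, map_smul, V.eig, smul_smul, smul_smul] at a2
    have a3 : ev i0 = l := by
      have := smul_left_injective ℝ (show e ≠ 0 from norm_ne_zero_iff.1 (by simp [V.one])) a2
      simp only [mul_comm _ l] at this
      exact (mul_right_cancel₀ h0 this).symm
    rw [e0, a3, inner_smul_left, smul_smul, conj_trivial] at a1
    rwa [show l ^ n * (⟪e, b i0⟫_ℝ * ⟪e, v⟫_ℝ) * ⟪e, b i0⟫_ℝ = l ^ n * ⟪e, v⟫_ℝ by
      linear_combination l ^ n * ⟪e, v⟫_ℝ * c1] at a1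
  by_cases h : ∀ i, i ≠ i0 → ev i = 0
  · exact ⟨0, V.r0, key 0 le_rfl zero_le_one fun i hi => by simp [h i hi], .inl rfl⟩
  push Not at h
  obtain ⟨j, hj, hj0⟩ := h
  have hf := (htr 0).summable.tendsto_cofinite_zero.eventually_lt_const
    (show 0 < ev j ^ (2 * 0 + 2) from sq_pos_of_ne_zero hj0)
  rw [Filter.eventually_cofinite] at hf
  obtain ⟨i1, a1, a2⟩ := (hf.toFinset.erase i0).exists_max_image ev ⟨j, by simp [hj]⟩
  have n1 := (Finset.mem_erase.1 a1).1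
  have a3 : ev i1 ≤ r * l := by
    have := V.gap 1 (b i1)
    rwa [h2 i1 n1, mul_zero, zero_smul, sub_zero, pow_one, pow_one, hb, norm_smul, b1, mul_one,
      mul_one, Real.norm_of_nonneg (ev0 _)] at this
  have a4 : ev i1 / l ≤ r := (div_le_iff₀ hl).2 a3
  refine ⟨ev i1 / l, a4, key _ (div_nonneg (ev0 _) hl.le) (a4.trans hr.le) fun i hi => ?_,
    .inr ⟨b i1, b1 _, h2 _ n1, by rw [div_mul_cancel₀ _ hl.ne', hb]⟩⟩
  rw [div_mul_cancel₀ _ hl.ne']
  by_cases hi' : ev i ^ 2 < ev j ^ 2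
  · exact (pow_lt_pow_iff_left₀ (ev0 _) (ev0 _) two_ne_zero).1 hi' |>.le.trans (a2 j (by simp [hj]))
  · exact a2 i (by simpa [hi] using hi')

theorem vac_dom {G : Type} [MeasurableSpace G] {μ : Measure G} [IsProbabilityMeasure μ] {E S : Type}
    {W : (E → G) → (S → G) → (E → G) → ℝ} (hW : Wt μ W) {F : (Ix E S → G) → ℝ} {a : ℤ} {N : ℕ}
    {l : ℝ} {e : Lp ℝ 2 (PP μ E)} (he : ‖e‖ = 1) (bF : BM F) (F0 : ∀ w, 0 ≤ F w ∧ F w ≤ 1)
    (dF : DependsOn F (Win a (a + (N + 1 : ℕ)))) :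
    vac W l e a N F ^ 2 ≤ tor μ W a (N + 1 + (N + 1)) F / l ^ (2 * N + 2) := by
  have g := hW.gk_obs bF a N
  rw [hW.vac_eq bF, div_pow, ← pow_mul, show (N + 1) * 2 = 2 * N + 2 by ring, tor, hW.int_tor bF dF]
  refine div_le_div_of_nonneg_right ?_ (Even.pow_nonneg ⟨N + 1, by ring⟩ l)
  have a1 := pow_le_pow_left₀ (abs_nonneg _) (abs_real_inner_le_norm e (g.op _ e)) 2
  rw [sq_abs, he, one_mul, g.norm_op] at a1
  refine a1.trans (integral_mono (g.int_actsq e) (bf_diag (g.cv (hW.gk.pw N))).int fun x => ?_)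
  have a2 := pow_le_pow_left₀ (abs_nonneg _) (abs_real_inner_le_norm (g.row _ x) e) 2
  rw [sq_abs, he, mul_one, g.norm_row] at a2
  refine a2.trans (integral_mono (g.memLp x).integrable_sq
    ((gk_mul g (gk_swap (hW.gk.pw N))).int_row x) fun y => ?_)
  have a3 := ker_abs_le μ (a := a) (b := a + (N + 1 : ℕ)) (bF.mul (hW.bm_wt a (N + 1)))
    (hW.bm_wt a (N + 1)) (fun w => by
      rw [abs_of_nonneg (mul_nonneg (F0 w).1 (hW.wt_pos _ _ _).le)]
      exact mul_le_of_le_one_left (hW.wt_pos _ _ _).le (F0 w).2) x y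
  rw [hW.ker_wt, pw_symm hW.gk hW.symm] at a3
  simp only [sq]
  exact mul_le_mul_of_nonneg_left ((le_abs_self _).trans a3)
    (integral_nonneg fun w => mul_nonneg (F0 _).1 (hW.wt_pos _ _ _).le)

section

variable {n : ℕ} [NeZero n] [MeasurableSpace SU2] [BorelSpace SU2] {h : Measure SU2}
  [h.IsHaarMeasure] [IsProbabilityMeasure h] {β l r : ℝ} {e : Lp ℝ 2 (PP h (Ed n))}

theorem vac_le (V : Vac _ (wt_WW h β).gk l r e) {N : ℕ} {C : ℝ}
    (hC : ∫ x, ∫ y, kk h β N x y ^ 2 ∂PP h (Ed n) ∂PP h (Ed n) ≤ C * l ^ (2 * N + 2))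
    {F : (Link → SU2) → ℝ} (mF : Measurable F) (F0 : ∀ w, 0 ≤ F w ∧ F w ≤ 1) {a : ℤ}
    (dF : DependsOn F (Tm a (a + (N + 1 : ℕ)))) :
    vac (WW β) l e a N (fun w => F (lift w)) ^ 2 ≤
      C * ∫ U, F U ∂wilson h β ![N + 1 + (N + 1), n, n] := by
  have W := wt_WW (n := n) h β
  have bF : BM F := ⟨mF, 1, fun w => abs_le.2 ⟨by linarith [(F0 w).1], (F0 w).2⟩⟩
  have z : tor h (WW (n := n) β) a (N + 1 + (N + 1)) (fun _ => 1) =
      ∫ x, ∫ y, kk h β N x y ^ 2 ∂PP h (Ed n) ∂PP h (Ed n) := by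
    rw [tor, W.int_tor (BM.const 1) fun _ _ _ => rfl]
    simp only [one_mul, W.ker_wt, MP_2d4879_an.cv, sq, pw_symm W.gk W.symm N]
  have z0 : 0 < tor h (WW (n := n) β) a (N + 1 + (N + 1)) (fun _ => 1) := by
    simp only [tor, one_mul]
    exact (integral_pos_iff_support_of_nonneg (fun w => (W.wt_pos _ _ _).le)
      (((W.bm_wt _ _).comp (meas_cyc _ _)).integrable _)).2
        (by rw [support_eq_univ fun g => (W.wt_pos _ _ _).ne']; simp)
  have t0 : 0 ≤ tor h (WW (n := n) β) a (N + 1 + (N + 1)) fun w => F (lift w) :=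
    integral_nonneg fun w => mul_nonneg (F0 _).1 (W.wt_pos _ _ _).le
  refine (vac_dom W V.one (bF.comp meas_lift) (fun _ => F0 _) (dep_lift dF)).trans ?_
  rw [int_wilson h β a mF, ← mul_div_assoc, div_le_div_iff₀ (pow_pos V.pos _) z0, z]
  nlinarith

theorem rate_low (V : Vac _ (wt_WW h β).gk l r e) (hr : r < 1) {N : ℕ} {C : ℝ} (C0 : 0 < C)
    (hC : ∫ x, ∫ y, kk h β N x y ^ 2 ∂PP h (Ed n) ∂PP h (Ed n) ≤ C * l ^ (2 * N + 2))
    {a s K : ℕ} {u v : ℕ → (Link → SU2) → ℝ} (ha : 0 < a) (room : a + s < N + 1)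
    (mu : ∀ k, Measurable (u k)) (mv : ∀ k, Measurable (v k)) (ru : ∀ k U, 0 ≤ u k U ∧ u k U ≤ 1)
    (rv : ∀ k U, 0 ≤ v k U ∧ v k U ≤ 1) (du : ∀ k, DependsOn (u k) (Tm 0 a))
    (dv : ∀ k, DependsOn (v k) (Tm (a + s) (N + 1 : ℕ)))
    (bot : ∫ U, v 0 U ∂wilson h β ![N + 1 + (N + 1), n, n] ≤ (1600 * C)⁻¹)
    (top : ∫ U, (1 - v K U) ∂wilson h β ![N + 1 + (N + 1), n, n] ≤ (1600 * C)⁻¹)
    (inc : ∀ k, ∫ U, |v (k + 1) U - v k U| ∂wilson h β ![N + 1 + (N + 1), n, n] ≤ (1600 * C)⁻¹)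
    (uv : ∀ k, ∫ U, u k U * (1 - v (k + 1) U) ∂wilson h β ![N + 1 + (N + 1), n, n] ≤ (1600 * C)⁻¹)
    (vu : ∀ k, ∫ U, (1 - u (k + 1) U) * v k U ∂wilson h β ![N + 1 + (N + 1), n, n] ≤ (1600 * C)⁻¹) :
    1 / 10 ≤ r ^ s := by
  have W := wt_WW (n := n) h β
  replace V := vac_abs V hr W.symm fun x y => (W.KK_pos x y).le
  let L : ((Link → SU2) → ℝ) → ℝ := fun F => vac (WW β) l |e| 0 N fun w => F (lift w)
  let D : Set Link := Tm 0 (0 + (N + 1 : ℕ))
  have bm : ∀ {F : (Link → SU2) → ℝ}, Measurable F → (∀ w, 0 ≤ F w ∧ F w ≤ 1) → BM F :=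
    fun mF F0 => ⟨mF, 1, fun w => abs_le.2 ⟨by linarith [(F0 w).1], (F0 w).2⟩⟩
  have bu := fun k => bm (mu k) (ru k)
  have bv := fun k => bm (mv k) (rv k)
  have du' : ∀ k, DependsOn (u k) D := fun k => (du k).mono fun _ h => ⟨h.1, by have := h.2; omega⟩
  have dv' : ∀ k, DependsOn (v k) D := fun k => (dv k).mono fun _ h =>
    ⟨by have := h.1; omega, by have := h.2; omega⟩
  have lim : ∀ {F}, BM F → DependsOn F D → Tendsto (fun T => ∫ U, F U ∂wilson h β ![T, n, n])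
    atTop (𝓝 (L F)) := fun bF dF => tendsto_loc V hr bF (dep_lift dF)
  have sub : ∀ {F G}, BM F → BM G → DependsOn F D → DependsOn G D →
      L (fun U => F U - G U) = L F - L G := fun bF bG dF dG => tendsto_nhds_unique
    (lim (bF.sub bG) fun _ _ h => by simp only [dF h, dG h]) <| ((lim bF dF).sub (lim bG dG)).congr
      fun T => (integral_sub (bF.integrable _) (bG.integrable _)).symm
  have mono : ∀ {F G}, BM F → BM G → DependsOn F D → DependsOn G D → (∀ U, F U ≤ G U) →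
      L F ≤ L G := fun bF bG dF dG h => le_of_tendsto_of_tendsto' (lim bF dF) (lim bG dG)
    fun T => integral_mono (bF.integrable _) (bG.integrable _) h
  have one : L (fun _ => 1) = 1 := W.vac_one V
  have zero : L (fun _ => 0) = 0 := by simp [L, vac, Ch.ker]
  have rg : ∀ {F}, BM F → DependsOn F D → (∀ w, 0 ≤ F w ∧ F w ≤ 1) → 0 ≤ L F ∧ L F ≤ 1 :=
    fun bF dF F0 => ⟨zero ▸ mono (BM.const 0) bF (fun _ _ _ => rfl) dF fun U => (F0 U).1,
      one ▸ mono bF (BM.const 1) dF (fun _ _ _ => rfl) fun U => (F0 U).2⟩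
  have dom : ∀ {F}, BM F → DependsOn F D → (∀ w, 0 ≤ F w ∧ F w ≤ 1) →
      ∫ U, F U ∂wilson h β ![N + 1 + (N + 1), n, n] ≤ (1600 * C)⁻¹ → L F ≤ 1 / 40 :=
    fun bF dF F0 hF => by
      refine abs_le_of_sq_le_sq' ((vac_le V hC bF.meas F0 dF).trans
        ((mul_le_mul_of_nonneg_left hF C0.le).trans_eq ?_)) (by norm_num) |>.2
      field_simp
      norm_num
  have cl : ∀ i j, |L (fun U => u i U * v j U) - L (u i) * L (v j)| ≤ r ^ s := fun i j => by
    obtain ⟨k1, rfl⟩ : ∃ k, a = k + 1 := ⟨a - 1, by omega⟩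
    obtain ⟨k2, rfl⟩ : ∃ k, N = k1 + 1 + s + k := ⟨N - (k1 + 1 + s), by omega⟩
    have d1 : DependsOn (u i) (Tm 0 (0 + (k1 + 1 : ℕ))) := by rw [zero_add]; exact du i
    have d2 : DependsOn (v j) (Tm ((k1 + 1 : ℕ) + s) ((k1 + 1 : ℕ) + s + (k2 + 1 : ℕ))) := by
      simpa only [Nat.cast_add, add_assoc] using dv j
    have := W.vac_clus V ((Lp.coeFn_abs e).mono fun x hx => hx ▸ abs_nonneg _)
      ((bu i).comp meas_lift) ((bv j).comp meas_lift) (by rw [zero_add]) (dep_lift d1) (dep_lift d2)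
    have m : ∀ {F : (Link → SU2) → ℝ}, (∀ w, 0 ≤ F w ∧ F w ≤ 1) → ∀ w, 0 ≤ F w * F w ∧ F w * F w ≤ 1 :=
      fun F0 w => ⟨mul_self_nonneg _, mul_le_one₀ (F0 w).2 (F0 w).1 (F0 w).2⟩
    have e1 := tendsto_nhds_unique (tendsto_loc V hr (bu i) (dep_lift d1)) (lim (bu i) (du' i))
    have e2 := tendsto_nhds_unique (tendsto_loc V hr (bv j) (dep_lift d2)) (lim (bv j) (dv' j))
    have e3 := tendsto_nhds_unique (tendsto_loc V hr ((bu i).mul (bu i))
      (dep_lift (DependsOn.mul' d1 d1)))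
      (lim ((bu i).mul (bu i)) (DependsOn.mul' (du' i) (du' i)))
    have e4 := tendsto_nhds_unique (tendsto_loc V hr ((bv j).mul (bv j))
      (dep_lift (DependsOn.mul' d2 d2)))
      (lim ((bv j).mul (bv j)) (DependsOn.mul' (dv' j) (dv' j)))
    rw [e1, e2, e3, e4] at this
    have r1 := rg ((bu i).mul (bu i)) (DependsOn.mul' (du' i) (du' i)) (m (ru i))
    have r2 := rg ((bv j).mul (bv j)) (DependsOn.mul' (dv' j) (dv' j)) (m (rv j))
    refine abs_le_of_sq_le_sq (this.trans ?_) (pow_nonneg V.r0 s)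
    rw [← pow_mul', mul_assoc]
    exact mul_le_of_le_one_right (pow_nonneg V.r0 _) (mul_le_one₀ r1.2 r2.1 r2.2)
  have o1 : ∀ {F : (Link → SU2) → ℝ}, DependsOn F D → DependsOn (fun U => 1 - F U) D :=
    fun dF _ _ h => by simp only [dF h]
  refine RG.D3.Hf.med (p := fun k => L (v k)) (q := fun k => L (u k))
    (c := fun k => L fun U => u k U * v (k + 1) U) (d := fun k => L fun U => u (k + 1) U * v k U)
    (K := K) le_rfl (fun k => rg (bu k) (du' k) (ru k)) (dom (bv 0) (dv' 0) (rv 0) bot) ?_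
    (fun k => ?_) (fun k => ?_) (fun k => ?_) (fun k => cl _ _) fun k => cl _ _
  · have := sub (BM.const 1) (bv K) (fun _ _ _ => rfl) (dv' K)
    rw [one] at this
    rw [← this]
    exact dom ((BM.const 1).sub (bv K)) (o1 (dv' K))
      (fun w => ⟨by linarith [(rv K w).2], by linarith [(rv K w).1]⟩) top
  · have b : BM fun U => |v (k + 1) U - v k U| := bm ((mv _).sub (mv _)).abs fun w =>
      ⟨abs_nonneg _, abs_le.2 ⟨by linarith [(rv (k + 1) w).1, (rv k w).2],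
        by linarith [(rv (k + 1) w).2, (rv k w).1]⟩⟩
    have d : DependsOn (fun U => |v (k + 1) U - v k U|) D := fun _ _ h => by
      simp only [dv' _ h]
    have := dom b d (fun w => ⟨abs_nonneg _, abs_le.2 ⟨by linarith [(rv (k + 1) w).1, (rv k w).2],
      by linarith [(rv (k + 1) w).2, (rv k w).1]⟩⟩) (inc k)
    rw [abs_sub_le_iff, ← sub (bv _) (bv _) (dv' _) (dv' _), ← sub (bv _) (bv _) (dv' _) (dv' _)]
    exact ⟨(mono ((bv _).sub (bv _)) b (fun _ _ h => by simp only [dv' _ h]) d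
      fun U => le_abs_self _).trans this, (mono ((bv _).sub (bv _)) b
        (fun _ _ h => by simp only [dv' _ h]) d fun U => abs_sub_comm (v k U) _ ▸ le_abs_self _).trans this⟩
  · rw [← sub (bu _) ((bu _).mul (bv _)) (du' _) (DependsOn.mul' (du' _) (dv' _))]
    simp only [← mul_one_sub]
    exact dom ((bu _).mul ((BM.const 1).sub (bv _))) (DependsOn.mul' (du' _) (o1 (dv' _)))
      (fun w => ⟨mul_nonneg (ru k w).1 (by linarith [(rv (k + 1) w).2]),
        mul_le_one₀ (ru k w).2 (by linarith [(rv (k + 1) w).2]) (by linarith [(rv (k + 1) w).1])⟩)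
      (uv k)
  · rw [← sub (bv _) ((bu _).mul (bv _)) (dv' _) (DependsOn.mul' (du' _) (dv' _))]
    simp only [← one_sub_mul]
    exact dom (((BM.const 1).sub (bu _)).mul (bv _)) (DependsOn.mul' (o1 (du' _)) (dv' _))
      (fun w => ⟨mul_nonneg (by linarith [(ru (k + 1) w).2]) (rv k w).1,
        mul_le_one₀ (by linarith [(ru (k + 1) w).1]) (rv k w).1 (rv k w).2⟩) (vu k)

variable {μ : Measure (Link → SU2)} [IsProbabilityMeasure μ]

theorem two_pt (V : Vac _ (wt_WW h β).gk l r e) (hr : r < 1)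
    (hμ : ∀ F : (Link → SU2) → ℝ, Continuous F →
      Tendsto (fun T => ∫ U, F U ∂wilson h β ![T, n, n]) atTop (𝓝 (∫ U, F U ∂μ)))
    {f g : (Ed n → SU2) → ℝ} (cf : Continuous f) (cg : Continuous g) {v : Lp ℝ 2 (PP h (Ed n))}
    {c : ℝ} (hv : (wt_WW h β).gk.op _ v = (c * l) • v) (hg : ∀ᵐ y ∂PP h (Ed n), g y * e y = v y)
    (k : ℕ) : ∫ U, f (slc n 0 U) * g (slc n (0 + (k + 1 : ℕ)) U) ∂μ =
      c ^ (k + 1) * ∫ x, f x * e x * v x ∂PP h (Ed n) := by
  have W := wt_WW (n := n) h β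
  have d : ∀ t a b : ℤ, a ≤ t → t ≤ b → ∀ w w' : Ix (Ed n) (Sp n) → SU2,
      (∀ i ∈ Win a b, w i = w' i) → sl t w = sl t w' := fun t a b h1 h2 w w' h => funext fun e =>
    h _ (by simp only [Win, lev, Set.mem_ofPred_eq, Sum.elim_inl]; omega)
  rw [int_loc V hr hμ (by exact (cf.comp (cont_slc _)).mul (cg.comp (cont_slc _))) (a := 0) (k := k)
    fun w w' hw => by
      simp only [slc_lift, d 0 _ _ le_rfl (by omega) w w' hw, d _ _ _ (by omega) le_rfl w w' hw], vac]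
  simp only [slc_lift, ker_ends h (show (0 : ℤ) ≠ 0 + (k + 1 : ℕ) by omega), W.ker_wt]
  rw [div_eq_iff (pow_pos V.pos _).ne', mul_right_comm, ← mul_pow, ← integral_const_mul]
  refine integral_congr_ae ?_
  filter_upwards [(W.gk.pw (μ := PP h (Ed n)) k).op_ae v, Lp.coeFn_smul ((c * l) ^ (k + 1)) v] with x h1 h2
  rw [op_pw _ hv, h2, Pi.smul_apply, smul_eq_mul] at h1
  rw [integral_congr_ae (g := fun y => f x * (kk h β k x y * v y))
    (hg.mono fun y hy => by simp only [← hy]; ring), integral_const_mul, ← h1]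
  ring

theorem cont_rep {v : Lp ℝ 2 (PP h (Ed n))} {c : ℝ} (hc : c ≠ 0)
    (hv : (wt_WW h β).gk.op _ v = c • v) :
    Continuous (fun x => c⁻¹ * ∫ y, KK h (WW β) x y * v y ∂PP h (Ed n)) ∧
      ∀ᵐ x ∂PP h (Ed n), c⁻¹ * ∫ y, KK h (WW β) x y * v y ∂PP h (Ed n) = v x := by
  have W := wt_WW (n := n) h β
  obtain ⟨C, -, hC⟩ := W.gk.bdd
  refine ⟨continuous_const.mul (continuous_of_dominated (bound := fun y => C * ‖v y‖)
    (fun x => (int_act W.gk v x).1) (fun x => .of_forall fun y => ?_)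
    (((Lp.memLp v).integrable one_le_two).norm.const_mul C) (.of_forall fun y =>
      ((cont_KK h β).comp (f := fun x => (x, y)) (by fun_prop)).mul continuous_const)), ?_⟩
  · rw [norm_mul]
    exact mul_le_mul_of_nonneg_right (hC x y) (norm_nonneg _)
  · filter_upwards [W.gk.op_ae v, Lp.coeFn_smul c v] with x h1 h2
    rw [← h1, hv, h2, Pi.smul_apply, smul_eq_mul, inv_mul_cancel_left₀ hc]

theorem slc_shift (t : ℤ) (U : Link → SU2) : slc n 0 (shift (Pi.single 0 t) U) = slc n t U :=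
  funext fun e => congrArg U (Prod.ext (funext fun i => Fin.cases (by simp [st])
    (fun j => by simp [st]) i) rfl)

open ProbabilityTheory in
theorem exists_obs (V : Vac _ (wt_WW h β).gk l r e) (hr : r < 1) (r0 : 0 < r)
    (hμ : ∀ F : (Link → SU2) → ℝ, Continuous F →
      Tendsto (fun T => ∫ U, F U ∂wilson h β ![T, n, n]) atTop (𝓝 (∫ U, F U ∂μ)))
    {f : Lp ℝ 2 (PP h (Ed n))} (f1 : ‖f‖ = 1) (ef : ⟪e, f⟫_ℝ = 0)
    (hf : (wt_WW h β).gk.op _ f = (r * l) • f) :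
    ∃ g : (Ed n → SU2) → ℝ, Continuous g ∧ (∀ u x, g (ga u x) = g x) ∧
      Var[fun U => g (slc n 0 U); μ] = 1 ∧
      ∀ t : ℕ, cov[fun U => g (slc n 0 U), fun U => g (slc n t U); μ] = r ^ t := by
  have W := wt_WW (n := n) h β
  wlog he : 0 ≤ᵐ[PP h (Ed n)] e generalizing e
  · have V' := vac_abs V hr W.symm fun x y => (W.KK_pos x y).le
    refine this V' ?_ ((Lp.coeFn_abs e).mono fun x hx => hx ▸ abs_nonneg _)
    have a1 : ⟪W.gk.op _ |e|, f⟫_ℝ = ⟪|e|, W.gk.op _ f⟫_ℝ := W.gk.symm_op W.symm _ _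
    rw [V'.eig, hf, inner_smul_left, inner_smul_right, conj_trivial] at a1
    exact (mul_eq_zero.1 (show (1 - r) * l * ⟪|e|, f⟫_ℝ = 0 by linarith)).resolve_left
      (mul_pos (sub_pos.2 hr) V.pos).ne'
  obtain ⟨c1, h1⟩ := cont_rep V.pos.ne' V.eig
  obtain ⟨c2, h2⟩ := cont_rep (mul_pos r0 V.pos).ne' hf
  have p : ∀ x, 0 < l⁻¹ * ∫ y, KK h (WW β) x y * e y ∂PP h (Ed n) := fun x => by
    have a1 : 0 ≤ᵐ[PP h (Ed n)] fun y => KK h (WW β) x y * e y :=
      he.mono fun y hy => mul_nonneg (W.KK_pos x y).le hy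
    refine mul_pos (inv_pos.2 V.pos) ((integral_nonneg_of_ae a1).lt_of_ne' fun h0 => ?_)
    have : e = 0 := Lp.eq_zero_iff_ae_eq_zero.2 (((integral_eq_zero_iff_of_nonneg_ae a1
      (int_act W.gk e x)).1 h0).mono fun y hy => (mul_eq_zero.1 hy).resolve_left (W.KK_pos x y).ne')
    simpa [this] using V.one
  have cg := c2.div c1 fun x => (p x).ne'
  set g := (fun x => (r * l)⁻¹ * ∫ y, KK h (WW β) x y * f y ∂PP h (Ed n)) /
    fun x => l⁻¹ * ∫ y, KK h (WW β) x y * e y ∂PP h (Ed n) with hg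
  have ge : ∀ᵐ y ∂PP h (Ed n), g y * e y = f y := by
    filter_upwards [h1, h2] with y a1 a2
    rw [← a1, hg, Pi.div_apply, div_mul_cancel₀ _ (p y).ne', a2]
  have ff : ∫ x, f x * f x ∂PP h (Ed n) = 1 := by
    have := real_inner_self_eq_norm_sq f
    rw [f1, one_pow, L2.inner_def] at this
    simpa [sq] using this
  have ee := fun {f} (cf : Continuous f) => two_pt V hr hμ cf (g := fun _ => 1) continuous_const
    (c := 1) (by rw [one_mul, V.eig]) (.of_forall fun _ => one_mul _) 0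
  simp only [mul_one, one_pow, one_mul] at ee
  have m1 : ∫ U, g (slc n 0 U) ∂μ = 0 := by
    rw [ee cg, ← ef, L2.inner_def]
    exact integral_congr_ae (ge.mono fun x hx => by simp [hx])
  have cs : ∀ t, Continuous fun U => g (slc n t U) := fun t => cg.comp (cont_slc t)
  have ml : ∀ t, MemLp (fun U => g (slc n t U)) 2 μ := fun t =>
    BF.memLp ⟨(cs t).measurable, (bm_of_cont (cs t)).bdd⟩
  have m2 : ∀ t : ℕ, cov[fun U => g (slc n 0 U), fun U => g (slc n t U); μ] = r ^ t := fun t => by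
    rw [covariance_eq_sub (ml _) (ml _), m1, zero_mul, sub_zero]
    cases t with
    | zero =>
      rw [pow_zero, ← ff]
      exact (ee (cg.mul cg)).trans (integral_congr_ae (ge.mono fun x hx => by
        simp only [← hx, Pi.mul_apply]; ring))
    | succ k =>
      have := two_pt V hr hμ cg cg hf ge k
      rw [zero_add, integral_congr_ae (g := fun x => f x * f x) (ge.mono fun x hx => by
        simp only [hx]), ff, mul_one] at this
      exact this
  refine ⟨g, cg, fun u x => ?_, ?_, m2⟩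
  · simp only [hg, Pi.div_apply, W.symm (ga u x), KK_ga, W.symm x]
  · rw [← covariance_self (cs 0).aemeasurable]
    simpa using m2 0

end

open ProbabilityTheory RG RG.D3 in
theorem mass_of (hM : Hq.Mix) (hP : Hf.Pers) [ms : MeasurableSpace SU2] [BorelSpace SU2]
    (h : Measure SU2) [h.IsHaarMeasure] [IsProbabilityMeasure h] (γ : ℝ) (hγ : 0 < γ) :
    ∃ Δ > (0 : ℝ), ∃ M : ℝ, ∃ N₀ : ℕ, ∀ N ≥ N₀, ∀ n : ℕ, n = 2 * 3 ^ N →
      ∃ μ : Measure (Link → SU2), IsProbabilityMeasure μ ∧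
      (∀ F : C(Link → SU2, ℝ), Tendsto (fun T => ∫ U, F U ∂wilson h (γ * n) ![T, n, n]) atTop
        (𝓝 (∫ U, F U ∂μ))) ∧ ∃ m ∈ Set.Icc Δ M,
      (∀ (s : ℤ) (t : ℕ) (F G : C(Link → SU2, ℝ)),
        DependsOn F {e | (e.1 + Pi.single e.2 1 : Fin 3 → ℤ) 0 ≤ s} →
        DependsOn G {e | s + t ≤ e.1 0} →
        |cov[F, G; μ]| ≤ Real.exp (-(m * t / n)) * √Var[F; μ] * √Var[G; μ]) ∧
      ∃ F : C(Link → SU2, ℝ), DependsOn F {e | e.1 0 = 0 ∧ e.2 ≠ 0} ∧
        (∀ u, (∀ x v, u (x + (n : ℤ) • v) = u x) → ∀ U, F (gauge u U) = F U) ∧ Var[F; μ] = 1 ∧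
        ∀ t : ℕ, cov[F, fun U => F (shift (Pi.single 0 t) U); μ] = Real.exp (-(m * t / n)) := by
  obtain ⟨Δ, hΔ, C, C0, J0, H⟩ := vac_main hM h hγ
  obtain ⟨τ, τ0, J1, P⟩ := hP γ hγ (1600 * C)⁻¹ (by positivity)
  refine ⟨Δ, hΔ, Real.log 10 / τ, (J0 + J1 + 2) ^ 2, fun N hN n hn => ?_⟩
  have : NeZero n := ⟨by rw [hn]; positivity⟩
  have n0 : (0 : ℝ) < n := Nat.cast_pos.2 (NeZero.pos n)
  obtain ⟨J, L, hJ, ad, e1, e2⟩ := scale (J0 + J1) N hN
  rw [← hn] at e1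
  obtain ⟨l, r, e, V, hr, hC⟩ := H J _ (by omega) ad n _ e1 e2
  have r1 : r < 1 := hr.trans_lt (Real.exp_lt_one_iff.2 (neg_lt_zero.2 (by positivity)))
  have W := wt_WW (n := n) h (γ * n)
  obtain ⟨q, qr, V, hq⟩ := second_ev V r1 W.symm (KK_psd h _ (by positivity))
  have q1 := qr.trans_lt r1
  obtain ⟨a, s, K, u, v, hs, F⟩ := P J L (by omega) ad
  have lo : 1 / 10 ≤ q ^ s := by
    obtain rfl : ms = Fi.mS := BorelSpace.measurable_eq
    have : (Fi.tr RG.haar).IsHaarMeasure := (inferInstance : RG.haar.IsHaarMeasure)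
    obtain rfl := Measure.isHaarMeasure_eq_of_isProbabilityMeasure h (Fi.tr RG.haar)
    rw [← Nat.cast_mul, ← e1, wilson_eq, ← e2] at F
    have e3 : ![n, n, n] = ![3 ^ N - 1 + 1 + (3 ^ N - 1 + 1), n, n] := by
      rw [Nat.sub_add_cancel (Nat.one_le_pow _ _ (by norm_num)), ← two_mul, ← hn]
    rw [e3] at F
    exact rate_low V q1 C0 hC F.a_pos F.room F.mu F.mv F.ru F.rv F.du F.dv F.bot F.top F.inc F.uv F.vu
  rw [← Nat.cast_mul, ← e1] at hs
  have s0 : (0 : ℝ) < s := (mul_pos τ0 n0).trans_le hs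
  have q0 : 0 < q := V.r0.lt_of_ne' fun h0 => by
    rw [h0, zero_pow (Nat.cast_pos.1 s0).ne'] at lo
    norm_num at lo
  obtain ⟨μ, _, hμ⟩ := exists_lim V q1
  obtain ⟨f, f1, ef, hf⟩ := hq.resolve_left q0.ne'
  obtain ⟨g, cg, gg, g1, g2⟩ := exists_obs V q1 q0 hμ f1 ef hf
  have ex : ∀ t : ℕ, Real.exp (-(-(n * Real.log q) * t / n)) = q ^ t := fun t => by
    rw [← Real.exp_log (pow_pos q0 t), Real.log_pow]
    congr 1
    field_simp
  refine ⟨μ, inferInstance, fun F => hμ F F.continuous, -(n * Real.log q), ⟨?_, ?_⟩,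
    fun s t F G dF dG => ex t ▸ clus_cov V q1 hμ F.continuous G.continuous dF dG,
    ⟨_, cg.comp (cont_slc 0)⟩, fun U U' h => congrArg g (funext fun e => h _ ⟨rfl, Fin.succ_ne_zero _⟩),
    fun u hu U => (congrArg g (slc_gauge 0 hu U)).trans (gg _ _), g1, fun t => ?_⟩
  · have := (Real.log_le_iff_le_exp q0).2 (qr.trans hr)
    rw [le_neg, div_le_iff₀ n0] at this
    linarith
  · have := Real.log_le_log (by norm_num) lo
    rw [Real.log_pow, one_div, Real.log_inv] at this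
    have a1 := Real.log_nonpos q0.le q1.le
    rw [le_div_iff₀ τ0]
    nlinarith
  · rw [ex, ← g2]
    simp only [ContinuousMap.coe_mk, Function.comp_def, slc_shift]

end Pool.Agent.Lib.MP_7f377f_mp.Y6
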