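import Pool.Agent.Lib.MP_7f377f_mp.HStepB
import Pool.Agent.Lib.MP_7f377f_mp.HLevB
import Pool.Agent.Lib.MP_7f377f_mp.HJoin
import Pool.Agent.Lib.MP_7f377f_mp.HDec
import Pool.Agent.Lib.MP_7f377f_mp.HFin
import Pool.Agent.Lib.MP_7f377f_mp.HFTr

/-! The mixing bound of the Wilson measure of the cube, without hypotheses. -/

namespace Pool.Agent.Lib.MP_7f377f_mp.RG.D3.Hq

theorem mix_main : Mix := mix_of (wstep_of wdec_main) join_main

end Pool.Agent.Lib.MP_7f377f_mp.RG.D3.Hq
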