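import Pool.Agent.Lib.MP_7f377f_mp.HBack

/-! The mixing bound from the inequality between four configurations at a fixed level. -/

noncomputable section

namespace Pool.Agent.Lib.MP_7f377f_mp.RG.D3.Hq

open Finset MeasureTheory
open scoped ENNReal

/-- the inequality between four configurations holds at all high levels -/
def Chain : Prop := ∀ a0 : ℕ, ∃ a ≥ a0, ∀ C : ℝ, 1 ≤ C → ∀ γ > (0 : ℝ), ∃ j0 : ℕ, ∀ j ≥ j0,
  ∃ (w : ℕ) (δ t M : ℝ),
    (C ≤ JC.dl a j (γ * nn j) * nn j ∧ C * JC.dl a j (γ * nn j) ≤ 1 ∧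
      2 * w + C / JC.dl a j (γ * nn j) ≤ (3 ^ j ^ 2 : ℕ) ∧
      (3 ^ j ^ 2 : ℕ) + 2 * w + C / JC.dl a j (γ * nn j) ≤ nn j ∧
      (C + 1) * JC.dl a j (γ * nn j) ≤ δ) ∧
    ∀ J l, j ≤ J → Adm J l → ∃ A : Conf → ℝ, (∀ U, Fl (nn j) δ U → |A U| ≤ M) ∧
      ∀ u v : Conf → ℝ≥0∞, GI (LL l * nn J) u → GI (LL l * nn J) v →
        (∀ U U', Slab 0 0 U U' → u U = u U') →
        (∀ U U', Slab (LL l * 3 ^ J ^ 2 : ℕ) 0 U U' → v U = v U') →
        Four (nn j) (3 ^ j ^ 2) w δ t A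
          (tw γ J l (fun U => w0 γ J l U * (u U * v U)) (J + 1 - j))
          (tw γ J l (w0 γ J l) (J + 1 - j))
          (tG γ a J l (fun U => w0 γ J l U * u U) (J + 1 - j))
          (tG γ a J l (fun U => w0 γ J l U * v U) (J + 1 - j))

theorem mix_of_chain (hC : Chain) (hJ : Join) : Mix := by
  classical
  intro γ hγ d hd
  obtain ⟨a0, hbad⟩ := bad_main
  obtain ⟨a, ha, hC⟩ := hC a0
  obtain ⟨C, cB, C1, c0, top⟩ := top4 hJ
  obtain ⟨j1, hC⟩ := hC C C1 γ hγ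
  obtain ⟨j2, hbad⟩ := hbad a ha γ hγ d hd
  obtain ⟨w, δ, t, M, ⟨n1, n2, n3, n4, n5⟩, hC⟩ := hC (j1 + j2) (by omega)
  replace hbad := hbad (j1 + j2) (by omega)
  generalize j1 + j2 = j at *
  set ε := JC.dl a j (γ * nn j) with hε
  have ε0 : 0 < ε := lt_of_not_ge fun h0 => by
    linarith [mul_nonpos_of_nonpos_of_nonneg h0 (Nat.cast_nonneg (α := ℝ) (nn j))]
  refine ⟨Real.exp (-(4 * M + t)) * (cB * (ε / 4) ^ 3) ^ (6 * nn j ^ 3), by positivity, j,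
    fun J l hj hA => ?_⟩
  obtain ⟨A, hM, hC⟩ := hC J l hj hA
  replace hbad := hbad J l hj hA
  have i0 : J + 1 - j ≠ 0 := by omega
  have i1 : J + 1 - j ≤ J + 1 := by omega
  have e1 : J + 1 - (J + 1 - j) = j := by omega
  have e2 : Pv.sz J l (J + 1 - j) = nn j := by rw [Pv.sz, if_neg i0, e1]
  have e3 : ep γ a J l (J + 1 - j) = ε := by rw [ep, bq, if_neg i0, e1, hε, JC.dl]
  obtain ⟨G, mG, G1, hG⟩ := back hγ a J l i1 (G' := fun U => if curvG ε U then 1 else 0)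
    (Measurable.ite (M3.meas_curv ε) measurable_const measurable_const) fun U => by
      split_ifs
      exacts [le_rfl, zero_le]
  simp only [e2, mul_ite, mul_one, mul_zero] at hG
  have g0 := GI_w0 γ J l
  have mass := fun f hf => mass_tw (l := l) (f := f) hγ hf i1
  have gi := fun f hf => GI_tw (γ := γ) (a := a) (l := l) (f := f) hf i1
  simp only [e2] at mass gi
  set Z := ∫⁻ U, w0 γ J l (per (LL l * nn J) U) ∂PP with hZ
  obtain ⟨Z0, Z1⟩ : 0 < Z ∧ Z < ∞ := M3.mass_wil (β := γ * (LL l * nn J)) (by positivity) (LL l * nn J)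
  have law : ∀ F : Conf → ℝ≥0∞, Measurable F →
      ∫⁻ U, F U ∂wilson (γ * (LL l * nn J)) (LL l * nn J) =
        Z⁻¹ * ∫⁻ U, w0 γ J l (per (LL l * nn J) U) * F (per (LL l * nn J) U) ∂PP :=
    fun F hF => M3.lint_lawOf _ g0.1 hF
  have ZZ : Z⁻¹ * Z = 1 := ENNReal.inv_mul_cancel Z0.ne' Z1.ne
  refine ⟨G, mG, G1, ?_, fun u v gu gv su sv => ?_⟩
  · obtain ⟨r1, r2⟩ := tw_w0 (γ := γ) (a := a) (l := l) i1
    rw [e2] at r1 r2
    rw [← r1, ← r2, e3, mass _ g0, hG _ g0] at hbad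
    rw [law G mG, ← one_mul (ENNReal.ofReal _), ← ZZ, mul_assoc, mul_comm Z]
    exact mul_le_mul_right hbad _
  · have k := top (nn j) (3 ^ j ^ 2) w ε δ t M A _ _ _ _ n1 n2 n3 n4 n5 hM
      (gi _ (GI_mul g0 (GI_mul gu gv))).1.1 (gi _ g0).1.1 (gi _ (GI_mul g0 gu)).2.1
      (gi _ (GI_mul g0 gv)).2.1 (hC u v gu gv su sv)
    rw [hG _ (GI_mul g0 gu), hG _ (GI_mul g0 gv), mass _ (GI_mul g0 (GI_mul gu gv)),
      mass _ g0] at k
    rw [law _ (gu.1.fun_mul mG), law _ (gv.1.fun_mul mG), law _ (gu.1.fun_mul gv.1)]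
    simp only [← mul_assoc (w0 γ J l _)] at k ⊢
    refine le_trans (le_of_eq (by ring)) ((mul_le_mul_right k (Z⁻¹ * Z⁻¹)).trans (le_of_eq ?_))
    rw [mul_mul_mul_comm, ZZ, mul_one]

end Pool.Agent.Lib.MP_7f377f_mp.RG.D3.Hq
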