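import Pool.Agent.Lib.MP_7f377f_mp.HTop

/-! Weighted densities along the run and the probability of a history with small fields. -/

noncomputable section

namespace Pool.Agent.Lib.MP_7f377f_mp.RG.D3.Hq

open Finset MeasureTheory
open scoped ENNReal

open M3

attribute [local irreducible] box lbox cube lcube

theorem back_one {a : ℝ} (ha : 0 ≤ a) (l : ℕ) (ε : ℝ) {n : ℕ} (hn : 0 < n) {G' : Conf → ℝ≥0∞}
    (mG : Measurable G') (h1 : ∀ U, G' U ≤ 1) : ∃ G : Conf → ℝ≥0∞, Measurable G ∧ (∀ U, G U ≤ 1) ∧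
      ∀ f : Conf → ℝ≥0∞, Measurable f →
        ∫⁻ W, TG l a ε n f (per n W) * G' (per n W) ∂PP =
          ∫⁻ U, f (per (LL l * n) U) * G (per (LL l * n) U) ∂PP := by
  classical
  have mp := (cont_per n).measurable
  have mq := (cont_per (LL l * n)).measurable
  have m0 : Measurable fun p : Conf × Conf => itgG l a ε n 1 (per n p.2) p.1 * G' (per n p.2) :=
    ((meas_itgG l a ε n measurable_one).comp
      ((mp.comp measurable_snd).prodMk measurable_fst)).mul (mG.comp (mp.comp measurable_snd))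
  refine ⟨fun U => ∫⁻ W, itgG l a ε n 1 (per n W) U * G' (per n W) ∂PP, m0.lintegral_prod_right',
    fun U => ?_, fun f hf => ?_⟩
  · have := prob_nz ha
    have h := lint_noise ha hn (G := fun _ => 1) measurable_const (blk l U)
    rw [lintegral_const, measure_univ, one_mul] at h
    refine (lintegral_mono fun W => ?_).trans h.ge
    refine mul_le_mul' ?_ (h1 _)
    rw [itgG, prod_congr rfl fun b hb => by rw [per_of_mem W hb]]
    refine mul_le_of_le_one_left' ?_
    split_ifs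
    exacts [le_rfl, zero_le]
  · have m1 : Measurable fun p : Conf × Conf =>
        itgG l a ε n f (per n p.1) (per (LL l * n) p.2) :=
      (meas_itgG l a ε n hf).comp
        (f := fun p : Conf × Conf => (per n p.1, per (LL l * n) p.2))
        ((mp.comp measurable_fst).prodMk (mq.comp measurable_snd))
    calc _ = ∫⁻ W, ∫⁻ U, itgG l a ε n f (per n W) (per (LL l * n) U) * G' (per n W) ∂PP ∂PP := by
          refine lintegral_congr fun W => ?_
          rw [TG_eq]
          exact (lintegral_mul_const _ (m1.comp measurable_prodMk_left)).symm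
      _ = ∫⁻ U, ∫⁻ W, itgG l a ε n f (per n W) (per (LL l * n) U) * G' (per n W) ∂PP ∂PP :=
          lintegral_lintegral_swap (m1.mul (mG.comp (mp.comp measurable_fst))).aemeasurable
      _ = _ := by
          refine lintegral_congr fun U => ?_
          generalize per (LL l * n) U = V
          have m2 : Measurable fun W : Conf => itgG l a ε n 1 (per n W) V * G' (per n W) :=
            ((meas_itgG l a ε n measurable_one).comp (f := fun W : Conf => (per n W, V))
              (mp.prodMk measurable_const)).mul (mG.comp mp)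
          refine .trans (lintegral_congr fun W => ?_) (lintegral_const_mul _ m2)
          simp only [itgG, Pi.one_apply]
          split_ifs
          · rw [one_mul, mul_assoc]
          · simp

/-- the density after `i` steps of the run, starting from `f` -/
def tw (γ : ℝ) (J l : ℕ) (f : Conf → ℝ≥0∞) : ℕ → Conf → ℝ≥0∞
  | 0 => f
  | i + 1 => TT (lq J l i) (aq γ J l i) (nn (J - i)) (tw γ J l f i)

/-- the same for histories with small fields -/
def tG (γ : ℝ) (a J l : ℕ) (f : Conf → ℝ≥0∞) : ℕ → Conf → ℝ≥0∞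
  | 0 => f
  | i + 1 => TG (lq J l i) (aq γ J l i) (ep γ a J l i) (nn (J - i)) (tG γ a J l f i)

/-- the Wilson density of the finest lattice -/
def w0 (γ : ℝ) (J l : ℕ) (U : Conf) : ℝ≥0∞ :=
  ENNReal.ofReal (Real.exp (γ * (LL l * nn J) * wil (LL l * nn J) U))

variable {γ : ℝ} {a J l : ℕ} {f : Conf → ℝ≥0∞}

theorem sz_one (J l i : ℕ) : Pv.sz J l (i + 1) = nn (J - i) := by simp [Pv.sz]

theorem GI_w0 (γ : ℝ) (J l : ℕ) : GI (LL l * nn J) (w0 γ J l) := GI_wil _ _

theorem GI_mul {n : ℕ} {f g : Conf → ℝ≥0∞} (hf : GI n f) (hg : GI n g) :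
    GI n fun U => f U * g U :=
  ⟨hf.1.fun_mul hg.1, fun u U hu => congrArg₂ (· * ·) (hf.2 u U hu) (hg.2 u U hu)⟩

theorem GI_tw (hf : GI (LL l * nn J) f) {i : ℕ} (hi : i ≤ J + 1) :
    GI (Pv.sz J l i) (tw γ J l f i) ∧ GI (Pv.sz J l i) (tG γ a J l f i) := by
  induction i with
  | zero => exact ⟨hf, hf⟩
  | succ i ih =>
    obtain ⟨h1, h2⟩ := ih (by omega)
    rw [Pv.sz_succ (by omega)] at h1 h2
    rw [sz_one]
    exact ⟨(h1.step _ 0).1, (h2.step _ _).2⟩

theorem tw_w0 {i : ℕ} (hi : i ≤ J + 1) : tw γ J l (w0 γ J l) i = rr γ J l i (Pv.sz J l i) ∧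
    tG γ a J l (w0 γ J l) i = rG γ a J l i (Pv.sz J l i) := by
  induction i with
  | zero => exact ⟨rfl, rfl⟩
  | succ i ih =>
    obtain ⟨h1, h2⟩ := ih (by omega)
    rw [tw, tG, h1, h2, sz_one, Pv.sz_succ (by omega)]
    exact ⟨rfl, rfl⟩

theorem aq_nonneg (hγ : 0 < γ) (J l i : ℕ) : 0 ≤ aq γ J l i := by unfold aq; positivity

theorem mass_tw (hγ : 0 < γ) (hf : GI (LL l * nn J) f) {i : ℕ} (hi : i ≤ J + 1) :
    ∫⁻ U, tw γ J l f i (per (Pv.sz J l i) U) ∂PP = ∫⁻ U, f (per (LL l * nn J) U) ∂PP := by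
  induction i with
  | zero => rfl
  | succ i ih =>
    rw [← ih (by omega), sz_one, Pv.sz_succ (by omega)]
    exact mass_TT (aq_nonneg hγ J l i) _ (M3.nn_pos _) (GI_tw (a := 0) hf (by omega)).1.1

theorem back (hγ : 0 < γ) (a J l : ℕ) {i : ℕ} (hi : i ≤ J + 1) {G' : Conf → ℝ≥0∞}
    (mG : Measurable G') (h1 : ∀ U, G' U ≤ 1) : ∃ G : Conf → ℝ≥0∞, Measurable G ∧ (∀ U, G U ≤ 1) ∧
      ∀ f : Conf → ℝ≥0∞, GI (LL l * nn J) f →
        ∫⁻ W, tG γ a J l f i (per (Pv.sz J l i) W) * G' (per (Pv.sz J l i) W) ∂PP =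
          ∫⁻ U, f (per (LL l * nn J) U) * G (per (LL l * nn J) U) ∂PP := by
  induction i generalizing G' with
  | zero => exact ⟨G', mG, h1, fun _ _ => rfl⟩
  | succ i ih =>
    obtain ⟨G1, k1, k2, k3⟩ := back_one (aq_nonneg hγ J l i) (lq J l i) (ep γ a J l i)
      (M3.nn_pos (J - i)) mG h1
    obtain ⟨G, k4, k5, k6⟩ := ih (by omega) k1 k2
    refine ⟨G, k4, k5, fun f hf => ?_⟩
    rw [← k6 f hf, sz_one, Pv.sz_succ (by omega)]
    exact k3 _ (GI_tw (γ := γ) hf (by omega)).2.1

end Pool.Agent.Lib.MP_7f377f_mp.RG.D3.Hq
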