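import Pool.Agent.Lib.MP_7f377f_mp.HVac

/-! Spectral gap of a positive symmetric kernel from a minorisation of its square. -/

namespace Pool.Agent.Lib.MP_7f377f_mp.Hm

open Filter Topology MeasureTheory Pool.Agent.Lib.MP_2d4879_an
open scoped InnerProductSpace symmDiff

variable {α : Type} [MeasurableSpace α] {μ : Measure α} [IsFiniteMeasure μ] {k : α → α → ℝ}

theorem ae_of_rect [IsSeparable μ] {F : α → α → ℝ} (hF : GK F)
    (h : ∀ A B, MeasurableSet A → MeasurableSet B → 0 ≤ ∫ x in A, ∫ y in B, F x y ∂μ ∂μ) :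
    ∀ᵐ x ∂μ, ∀ᵐ y ∂μ, 0 ≤ F x y := by
  obtain ⟨𝒜, hc, hd⟩ := exists_countable_measureDense μ
  obtain ⟨C, hC0, hC⟩ := hF.bdd
  have h1 : ∀ B ∈ 𝒜, ∀ᵐ x ∂μ, 0 ≤ ∫ y in B, F x y ∂μ := fun B hB =>
    ae_nonneg_of_forall_setIntegral_nonneg (bf_int (μ := μ.restrict B) hF).int
      fun A hA _ => h A B hA (hd.measurable B hB)
  filter_upwards [(ae_ball_iff hc).2 h1] with x hx
  refine ae_nonneg_of_forall_setIntegral_nonneg (hF.int_row x) fun B hB _ => ?_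
  refine le_of_forall_pos_le_add fun ε hε => ?_
  obtain ⟨t, ht, h2⟩ := hd.approx B hB (measure_ne_top _ _) (ε / (2 * (C + 1))) (by positivity)
  have mt := hd.measurable t ht
  have b1 : ∀ s ⊆ B ∆ t, |∫ y in s, F x y ∂μ| ≤ ε / 2 := fun s hs => by
    have h3 : μ.real s ≤ ε / (2 * (C + 1)) :=
      ENNReal.toReal_le_of_le_ofReal (by positivity) ((measure_mono hs).trans h2.le)
    refine (norm_setIntegral_le_of_norm_le_const (f := F x) (C := C) (measure_lt_top μ s)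
      fun y _ => hC x y).trans ?_
    calc C * μ.real s ≤ (C + 1) * (ε / (2 * (C + 1))) := by gcongr; linarith
      _ = ε / 2 := by field_simp
  have e1 := integral_inter_add_sdiff mt (hF.int_row (μ := μ) x).integrableOn (s := B)
  have e2 := integral_inter_add_sdiff hB (hF.int_row (μ := μ) x).integrableOn (s := t)
  rw [Set.inter_comm] at e2
  have a1 := abs_le.1 (b1 (B \ t) Set.subset_union_left)
  have a2 := abs_le.1 (b1 (t \ B) Set.subset_union_right)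
  linarith [hx t ht, a1.1, a2.2]

/-- a minorisation of the kernel by a product -/
structure Mnr (μ : Measure α) [IsFiniteMeasure μ] (hk : GK k) (c d : ℝ) (H q : α → ℝ) : Prop where
  bH : BF H
  bq : BF q
  H0 : ∀ x, 0 ≤ H x
  low : ∀ x t, |t| ≤ ‖hk.row μ x‖ → t ^ 2 - (‖hk.row μ x‖ ^ 2 - q x) ≤ H x * |t|
  sq : ∀ x, 2 * q x - ‖hk.row μ x‖ ^ 2 ≤ H x ^ 2
  mass : (1 - 2 * d) * ∫ x, ‖hk.row μ x‖ ^ 2 ∂μ ≤ ∫ x, q x ∂μ
  ker : ∀ᵐ x ∂μ, ∀ᵐ y ∂μ, √(c / ∫ x, ‖hk.row μ x‖ ^ 2 ∂μ) * (H x * H y) ≤ k x y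

theorem exists_mnr [IsSeparable μ] (hk : GK k) (hs : ∀ x y, k x y = k y x) (h0 : ∀ x y, 0 ≤ k x y)
    {c d : ℝ} (hc : 0 ≤ c) (hZ : 0 < ∫ x, ‖hk.row μ x‖ ^ 2 ∂μ) {qa qb : α → ℝ}
    (ma : Measurable qa) (mb : Measurable qb) (ha : ∀ x, 0 ≤ qa x ∧ qa x ≤ ‖hk.row μ x‖ ^ 2)
    (hb : ∀ x, 0 ≤ qb x ∧ qb x ≤ ‖hk.row μ x‖ ^ 2)
    (ia : (1 - d) * ∫ x, ‖hk.row μ x‖ ^ 2 ∂μ ≤ ∫ x, qa x ∂μ)
    (ib : (1 - d) * ∫ x, ‖hk.row μ x‖ ^ 2 ∂μ ≤ ∫ x, qb x ∂μ)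
    (h : ∀ A B, MeasurableSet A → MeasurableSet B → c * ((∫ x in A, qa x ∂μ) * ∫ y in B, qb y ∂μ) ≤
      (∫ x, ‖hk.row μ x‖ ^ 2 ∂μ) * ∫ x in A, ∫ y in B, k x y ^ 2 ∂μ ∂μ) :
    ∃ H q, Mnr μ hk c d H q := by
  set Z := ∫ x, ‖hk.row μ x‖ ^ 2 ∂μ with hZd
  have bR := bf_norm (μ := μ) hk hs
  have bR2 : BF fun x => ‖hk.row μ x‖ ^ 2 := by simpa only [sq] using bR.mul bR
  have dom : ∀ f : α → ℝ, Measurable f → (∀ x, 0 ≤ f x ∧ f x ≤ ‖hk.row μ x‖ ^ 2) → BF f :=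
    fun f mf hf => by
      obtain ⟨C, hC⟩ := bR2.bdd
      exact ⟨mf, C, fun x => by
        rw [abs_of_nonneg (hf x).1]; exact (hf x).2.trans ((le_abs_self _).trans (hC x))⟩
  have ba := dom _ ma ha
  have bb := dom _ mb hb
  have hq : ∀ x, 0 ≤ min (qa x) (qb x) ∧ min (qa x) (qb x) ≤ ‖hk.row μ x‖ ^ 2 := fun x =>
    ⟨le_min (ha x).1 (hb x).1, (min_le_left _ _).trans (ha x).2⟩
  have alg : ∀ q R : ℝ, 0 ≤ q → q ≤ R ^ 2 → 0 ≤ R → 0 ≤ q / R ∧ q / R ≤ R ∧ (q / R) ^ 2 ≤ q ∧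
      2 * q - R ^ 2 ≤ (q / R) ^ 2 ∧ ∀ t, |t| ≤ R → t ^ 2 - (R ^ 2 - q) ≤ q / R * |t| := by
    intro q R q0 q1 R0
    rcases R0.eq_or_lt with rfl | R0
    · obtain rfl : q = 0 := by nlinarith
      simp +contextual
    obtain ⟨p, rfl⟩ : ∃ p, q = p * R := ⟨q / R, by field_simp⟩
    rw [mul_div_cancel_right₀ _ R0.ne']
    have p0 : 0 ≤ p := nonneg_of_mul_nonneg_left q0 R0
    have p1 : p ≤ R := by nlinarith
    refine ⟨p0, p1, by nlinarith, by nlinarith [sq_nonneg (p - R)], fun t ht => ?_⟩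
    rw [← sq_abs t]
    have := abs_nonneg t
    nlinarith [mul_nonneg (sub_nonneg.2 ht) (by linarith : 0 ≤ R + |t| - p)]
  have al := fun x => alg _ _ (hq x).1 (hq x).2 (norm_nonneg (hk.row μ x))
  refine ⟨fun x => min (qa x) (qb x) / ‖hk.row μ x‖, fun x => min (qa x) (qb x),
    ⟨(ma.min mb).div bR.meas, ?_⟩, dom _ (ma.min mb) hq, fun x => (al x).1, fun x => (al x).2.2.2.2,
    fun x => (al x).2.2.2.1, ?_, ?_⟩
  · obtain ⟨C, hC⟩ := bR.bdd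
    exact ⟨C, fun x => by
      rw [abs_of_nonneg (al x).1]; exact (al x).2.1.trans ((le_abs_self _).trans (hC x))⟩
  · have h1 : ∫ x, qa x + qb x - ‖hk.row μ x‖ ^ 2 ∂μ ≤ ∫ x, min (qa x) (qb x) ∂μ :=
      integral_mono ((ba.int.add bb.int).sub bR2.int) (dom _ (ma.min mb) hq).int fun x =>
        le_min (by linarith [(hb x).2]) (by linarith [(ha x).2])
    rw [integral_sub (ba.add bb).int bR2.int, integral_add ba.int bb.int] at h1
    linarith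
  · have g1 : GK fun x y => k x y ^ 2 := by simpa only [sq] using gk_mul hk hk
    have g2 : GK fun x y => qa x * qb y := gk_mul ba.gk_fst bb.gk_snd
    have g3 : GK fun x y => Z * k x y ^ 2 - c * (qa x * qb y) := by
      obtain ⟨C, C0, hC⟩ := g1.bdd
      obtain ⟨D, D0, hD⟩ := g2.bdd
      refine ⟨(g1.meas.const_mul Z).sub (g2.meas.const_mul c), Z * C + c * D, by positivity,
        fun x y => (abs_sub _ _).trans (add_le_add ?_ ?_)⟩
      · rw [abs_mul, abs_of_pos hZ]; gcongr; exact hC x y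
      · rw [abs_mul, abs_of_nonneg hc]; gcongr; exact hD x y
    have h1 := ae_of_rect (μ := μ) g3 fun A B hA hB => by
      have e : ∀ x, ∫ y in B, Z * k x y ^ 2 - c * (qa x * qb y) ∂μ =
          Z * ∫ y in B, k x y ^ 2 ∂μ - c * (qa x * ∫ y in B, qb y ∂μ) := fun x => by
        rw [integral_sub ((g1.int_row x).const_mul Z) ((g2.int_row x).const_mul c),
          integral_const_mul, integral_const_mul, integral_const_mul]
      simp only [e]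
      rw [integral_sub ((bf_int g1).int.const_mul Z) ((ba.int.mul_const _).const_mul c),
        integral_const_mul, integral_const_mul, integral_mul_const, sub_nonneg]
      exact h A B hA hB
    filter_upwards [h1] with x hx
    filter_upwards [hx] with y hy
    refine (pow_le_pow_iff_left₀ (mul_nonneg (Real.sqrt_nonneg _) (mul_nonneg (al x).1 (al y).1))
      (h0 x y) two_ne_zero).1 ?_
    rw [mul_pow, Real.sq_sqrt (by positivity), mul_pow, div_mul_eq_mul_div, div_le_iff₀ hZ]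
    have := mul_le_mul ((al x).2.2.1.trans (min_le_left _ _)) ((al y).2.2.1.trans (min_le_right _ _))
      (sq_nonneg _) (ha x).1
    nlinarith

theorem act_cl (hk : GK k) {f : α → ℝ} (hf : BF f) (x : α) :
    ⟪hk.row μ x, hf.cl μ⟫_ℝ = ∫ y, k x y * f y ∂μ := by
  rw [hk.inner_row]
  refine integral_congr_ae ?_
  filter_upwards [hf.cl_ae (μ := μ)] with y hy
  rw [hy]

theorem pure_alg {c Z κ I L : ℝ} (hZ : 0 < Z) (κ0 : 0 ≤ κ) (hκ : κ ^ 2 = c / Z)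
    (h1 : 3 / 4 * Z ≤ I) (h2 : κ * I * I ≤ L * Z) : c * Z / 4 ≤ L ^ 2 := by
  have I0 : 0 ≤ I := le_trans (by positivity) h1
  have h3 : κ * (3 / 4 * Z) * (3 / 4 * Z) ≤ L * Z := le_trans (by gcongr) h2
  have h4 : 9 / 16 * (κ * Z) ≤ L := le_of_mul_le_mul_right (by linarith) hZ
  have h5 := pow_le_pow_left₀ (by positivity) h4 2
  have h6 : (κ * Z) ^ 2 = c * Z := by rw [mul_pow, hκ]; field_simp
  rw [mul_pow, h6] at h5
  nlinarith [sq_nonneg (κ * Z)]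

theorem gap_alg {c d Z L a Q I s t e0 e1 : ℝ} (hc : 0 ≤ c) (hd : d ≤ 1 / 8) (hZ : 0 < Z)
    (L2 : 0 < L) (hp : 8 * d * Z ≤ L) (he : e1 ^ 2 ≤ e0 ^ 2) (hl : e0 ^ 2 ≤ L)
    (hst : s ^ 2 + t ^ 2 = 1) (hm : (1 - 2 * d) * Z ≤ Q) (a2 : 2 * Q - Z ≤ I)
    (a1 : (s * e0) ^ 2 + (t * e1) ^ 2 - (Z - Q) ≤ a)
    (st : (s * e0 * e0) ^ 2 + (t * e1 * e1) ^ 2 + c / Z * a ^ 2 * I ≤
      L * ((s * e0) ^ 2 + (t * e1) ^ 2)) : e1 ^ 2 ≤ (1 - min (1 / 2) (c / 32)) * L := by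
  by_contra hcon
  rw [not_le] at hcon
  have g1 : L / 2 ≤ e1 ^ 2 := by nlinarith [min_le_left (1 / 2 : ℝ) (c / 32)]
  have g2 : L - e1 ^ 2 < c / 32 * L := by nlinarith [min_le_right (1 / 2 : ℝ) (c / 32)]
  obtain ⟨N, hN⟩ : ∃ N, N = (s * e0) ^ 2 + (t * e1) ^ 2 := ⟨_, rfl⟩
  have s2 := sq_nonneg s
  have t2 := sq_nonneg t
  have N1 : e1 ^ 2 ≤ N := by rw [hN]; nlinarith [mul_le_mul_of_nonneg_left he s2]
  have N2 : N ≤ L := by
    rw [hN]; nlinarith [mul_le_mul_of_nonneg_left hl s2, mul_le_mul_of_nonneg_left (he.trans hl) t2]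
  have N3 : e1 ^ 2 * N ≤ (s * e0 * e0) ^ 2 + (t * e1 * e1) ^ 2 := by
    rw [hN]; nlinarith [mul_le_mul_of_nonneg_left he (sq_nonneg (s * e0))]
  rw [← hN] at a1 st
  have a3 : L / 4 ≤ a := by linarith
  have a4 : Z / 2 ≤ I := by nlinarith
  have a5 : c / Z * (L / 4) ^ 2 * (Z / 2) ≤ c / Z * a ^ 2 * I := by gcongr
  have a6 : c / Z * (L / 4) ^ 2 * (Z / 2) = c / 32 * L * L := by field_simp; ring
  have a7 : (L - e1 ^ 2) * N ≤ (L - e1 ^ 2) * L := mul_le_mul_of_nonneg_left N2 (by linarith)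
  nlinarith [mul_lt_mul_of_pos_right g2 L2]

namespace Mnr
variable {hk : GK k} {c d L : ℝ} {H q : α → ℝ}

theorem step (M : Mnr μ hk c d H q) (hc : 0 ≤ c) (hL : ∀ v, ‖hk.op μ v‖ ≤ L * ‖v‖) {u : α → ℝ}
    (hu : BF u) (hs : ∫ x, H x * u x ∂μ = 0) :
    ‖hk.op μ (hu.cl μ)‖ ^ 2 + c / (∫ x, ‖hk.row μ x‖ ^ 2 ∂μ) * (∫ x, H x * |u x| ∂μ) ^ 2 *
      ∫ x, H x ^ 2 ∂μ ≤ L ^ 2 * ‖hu.cl μ‖ ^ 2 := by
  have hZ : 0 ≤ c / ∫ x, ‖hk.row μ x‖ ^ 2 ∂μ := div_nonneg hc (integral_nonneg fun x => sq_nonneg _)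
  have hκ := Real.sq_sqrt hZ
  have κ0 := Real.sqrt_nonneg (c / ∫ x, ‖hk.row μ x‖ ^ 2 ∂μ)
  have hker := M.ker
  set κ := √(c / ∫ x, ‖hk.row μ x‖ ^ 2 ∂μ)
  set a := ∫ x, H x * |u x| ∂μ with ha
  have a0 : 0 ≤ a := integral_nonneg fun x => mul_nonneg (M.H0 x) (abs_nonneg _)
  have bk : ∀ x, BF (k x) := fun x => ⟨hk.meas_row x, hk.bdd.imp fun C h => h.2 x⟩
  have iH : Integrable (fun x => H x ^ 2) μ := by simpa only [pow_two] using (M.bH.mul M.bH).int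
  have h1 : ‖hk.op μ (hu.abs.cl μ)‖ ^ 2 ≤ L ^ 2 * ‖hu.cl μ‖ ^ 2 := by
    have := pow_le_pow_left₀ (norm_nonneg _) (hL (hu.abs.cl μ)) 2
    rw [mul_pow, hu.abs.norm_cl] at this
    simpa only [sq_abs, hu.norm_cl] using this
  refine le_trans ?_ h1
  rw [hk.norm_op, hk.norm_op, ← hκ, ← integral_const_mul,
    ← integral_add (hk.int_actsq _) (iH.const_mul _)]
  refine integral_mono_ae ((hk.int_actsq _).add (iH.const_mul _)) (hk.int_actsq _) ?_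
  filter_upwards [hker] with x hx
  have e : ∀ f : α → ℝ, BF f → ∫ y, (k x y - κ * (H x * H y)) * f y ∂μ =
      ∫ y, k x y * f y ∂μ - κ * H x * ∫ y, H y * f y ∂μ := fun f hf => by
    rw [← integral_const_mul, ← integral_sub ((bk x).mul hf).int ((M.bH.mul hf).int.const_mul _)]
    congr 1; ext y; ring
  have h2 : |∫ y, (k x y - κ * (H x * H y)) * u y ∂μ| ≤
      ∫ y, (k x y - κ * (H x * H y)) * |u y| ∂μ := by
    refine abs_integral_le_integral_abs.trans (le_of_eq (integral_congr_ae ?_))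
    filter_upwards [hx] with y hy
    rw [abs_mul, abs_of_nonneg (sub_nonneg.2 hy)]
  rw [e u hu, e _ hu.abs, hs, mul_zero, sub_zero, ← ha] at h2
  rw [act_cl, act_cl, ← sq_abs (∫ y, k x y * u y ∂μ)]
  have h3 : 0 ≤ κ * H x * a := mul_nonneg (mul_nonneg κ0 (M.H0 x)) a0
  have h4 := abs_nonneg (∫ y, k x y * u y ∂μ)
  nlinarith

theorem pure (M : Mnr μ hk c d H q) (hs : ∀ x y, k x y = k y x) (hc : 0 ≤ c) (hd : d ≤ 1 / 8)
    (hZ : 0 < ∫ x, ‖hk.row μ x‖ ^ 2 ∂μ) (hL : ∀ v, ‖hk.op μ v‖ ≤ L * ‖v‖) :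
    c * (∫ x, ‖hk.row μ x‖ ^ 2 ∂μ) / 4 ≤ L ^ 2 := by
  have bR := bf_norm (μ := μ) hk hs
  have hn := bR.norm_cl (μ := μ)
  have bP := M.bH.mul bR
  have g1 : GK fun x y => ‖hk.row μ x‖ * k x y * ‖hk.row μ y‖ :=
    gk_mul (gk_mul bR.gk_fst hk) bR.gk_snd
  refine pure_alg (I := ∫ x, H x * ‖hk.row μ x‖ ∂μ) hZ (Real.sqrt_nonneg _)
    (Real.sq_sqrt (div_nonneg hc hZ.le)) ?_ ?_
  · refine le_trans (le_trans (mul_le_mul_of_nonneg_right (by linarith) hZ.le) M.mass)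
      (integral_mono M.bq.int bP.int fun x => ?_)
    have := M.low x ‖hk.row μ x‖ (abs_norm _).le
    rw [abs_norm] at this
    simp only
    linarith
  · refine le_trans ?_ ((real_inner_le_norm (bR.cl μ) (hk.op μ (bR.cl μ))).trans
      ((mul_le_mul_of_nonneg_left (hL _) (norm_nonneg _)).trans_eq (by rw [← hn]; ring)))
    rw [bR.inner_op bR, ← integral_const_mul]
    refine integral_mono_ae (bP.int.const_mul _) (bf_int g1).int ?_
    filter_upwards [M.ker] with x hx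
    rw [mul_right_comm, ← integral_const_mul]
    refine integral_mono_ae (bP.int.const_mul _) (g1.int_row x) ?_
    filter_upwards [hx] with y hy
    have := mul_le_mul_of_nonneg_right hy (mul_nonneg (norm_nonneg (hk.row μ x))
      (norm_nonneg (hk.row μ y)))
    linarith

theorem gap (M : Mnr μ hk c d H q) (hs : ∀ x y, k x y = k y x) (hc : 0 ≤ c) (hd : d ≤ 1 / 8)
    (hZ : 0 < ∫ x, ‖hk.row μ x‖ ^ 2 ∂μ) (hL : ∀ v, ‖hk.op μ v‖ ≤ L * ‖v‖) (L0 : 0 < L)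
    (hp : 8 * d * ∫ x, ‖hk.row μ x‖ ^ 2 ∂μ ≤ L ^ 2) {b0 b1 : Lp ℝ 2 μ} {e0 e1 : ℝ} (n0 : ‖b0‖ = 1)
    (n1 : ‖b1‖ = 1) (ho : ⟪b0, b1⟫_ℝ = 0) (h0 : hk.op μ b0 = e0 • b0) (h1 : hk.op μ b1 = e1 • b1)
    (he : e1 ^ 2 ≤ e0 ^ 2) (hl : e0 ^ 2 ≤ L ^ 2) :
    e1 ^ 2 ≤ (1 - min (1 / 2) (c / 32)) * L ^ 2 := by
  have bR := bf_norm (μ := μ) hk hs
  have bR2 : BF fun x => ‖hk.row μ x‖ ^ 2 := by simpa only [pow_two] using bR.mul bR
  obtain ⟨s, t, hst, hz⟩ : ∃ s t : ℝ, s ^ 2 + t ^ 2 = 1 ∧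
      s * ⟪M.bH.cl μ, hk.op μ b0⟫_ℝ + t * ⟪M.bH.cl μ, hk.op μ b1⟫_ℝ = 0 := by
    generalize ⟪M.bH.cl μ, hk.op μ b0⟫_ℝ = x
    generalize ⟪M.bH.cl μ, hk.op μ b1⟫_ℝ = y
    by_cases hy : y = 0
    · exact ⟨0, 1, by norm_num, by simp [hy]⟩
    have h2 : 0 < x ^ 2 + y ^ 2 := by positivity
    refine ⟨y / √(x ^ 2 + y ^ 2), -x / √(x ^ 2 + y ^ 2), ?_, by ring⟩
    rw [div_pow, div_pow, Real.sq_sqrt h2.le]
    field_simp
    ring
  have hn : ∀ s t : ℝ, ‖s • b0 + t • b1‖ ^ 2 = s ^ 2 + t ^ 2 := fun s t => by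
    rw [norm_add_sq_real, norm_smul, norm_smul, n0, n1, inner_smul_left, inner_smul_right, ho]
    simp
  have bu := bf_act hk (s • b0 + t • b1)
  have f1 : ‖s • b0 + t • b1‖ = 1 := by
    have := hn s t
    rw [hst] at this
    exact (sq_eq_sq₀ (norm_nonneg _) zero_le_one).1 (by rw [this, one_pow])
  have ub : ∀ x, |⟪hk.row μ x, s • b0 + t • b1⟫_ℝ| ≤ ‖hk.row μ x‖ := fun x =>
    (abs_real_inner_le_norm _ _).trans_eq (by rw [f1, mul_one])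
  have hu : bu.cl μ = (s * e0) • b0 + (t * e1) • b1 := by
    rw [cl_act, map_add, map_smul, map_smul, h0, h1, smul_smul, smul_smul]
  have st := M.step hc hL bu (by
    rw [← M.bH.inner_cl bu, cl_act, map_add, map_smul, map_smul, inner_add_right, inner_smul_right,
      inner_smul_right, hz])
  have i1 : Integrable (fun x => ‖hk.row μ x‖ ^ 2 - q x) μ := bR2.int.sub M.bq.int
  have a1 : ‖bu.cl μ‖ ^ 2 - (∫ x, ‖hk.row μ x‖ ^ 2 ∂μ - ∫ x, q x ∂μ) ≤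
      ∫ x, H x * |⟪hk.row μ x, s • b0 + t • b1⟫_ℝ| ∂μ := by
    rw [bu.norm_cl, ← integral_sub bR2.int M.bq.int, ← integral_sub (hk.int_actsq _) i1]
    exact integral_mono ((hk.int_actsq _).sub i1) (M.bH.mul bu.abs).int fun x => M.low x _ (ub x)
  have a2 : 2 * ∫ x, q x ∂μ - ∫ x, ‖hk.row μ x‖ ^ 2 ∂μ ≤ ∫ x, H x ^ 2 ∂μ := by
    rw [← integral_const_mul, ← integral_sub (M.bq.int.const_mul _) bR2.int]
    exact integral_mono ((M.bq.int.const_mul _).sub bR2.int)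
      (by simpa only [pow_two] using (M.bH.mul M.bH).int) M.sq
  rw [hu, map_add, map_smul, map_smul, h0, h1, smul_smul, smul_smul, hn, hn] at st
  rw [hu, hn] at a1
  exact gap_alg hc hd hZ (by positivity) hp he hl hst M.mass a2 a1 st

end Mnr

theorem vac_of_mnr [TopologicalSpace.SeparableSpace (Lp ℝ 2 μ)] (hk : GK k)
    (hs : ∀ x y, k x y = k y x) (h0 : ∀ x y, 0 ≤ k x y) (N : ℕ) {c0 c1 : ℝ} (hc0 : 0 < c0)
    (hc1 : 0 < c1) (hZ : 0 < ∫ x, pw μ k (2 * N + 1) x x ∂μ) {H0 q0 H1 q1 : α → ℝ}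
    (M0 : Mnr μ (hk.pw (μ := μ) N) c0 (1 / 8) H0 q0)
    (M1 : Mnr μ (hk.pw (μ := μ) N) c1 (c0 / 32) H1 q1) :
    ∃ l r e, Vac μ hk l r e ∧ r ^ (2 * N + 2) = 1 - min (1 / 2) (c1 / 32) ∧
      c0 * ∫ x, pw μ k (2 * N + 1) x x ∂μ ≤ 4 * l ^ (2 * N + 2) := by
  classical
  obtain ⟨ι, b, ev, hb, htr⟩ := ker_spec (μ := μ) hk hs
  have hsy := hk.symm_op (μ := μ) hs
  have t0 := htr N
  obtain ⟨i0, hi0, hmax⟩ : ∃ i0, ev i0 ≠ 0 ∧ ∀ i, |ev i| ≤ |ev i0| := by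
    obtain ⟨j, hj⟩ : ∃ j, ev j ≠ 0 := by
      by_contra h
      push Not at h
      simp only [h, ne_eq, Nat.add_eq_zero_iff, OfNat.ofNat_ne_zero, and_false, not_false_eq_true,
        zero_pow] at t0
      exact hZ.ne' (t0.unique hasSum_zero)
    have hp : 0 < ev j ^ (2 * 0 + 2) := sq_pos_of_ne_zero hj
    have hf := (htr 0).summable.tendsto_cofinite_zero.eventually_lt_const hp
    rw [eventually_cofinite] at hf
    obtain ⟨i0, h1, h2⟩ := hf.toFinset.exists_max_image (fun i => |ev i|) ⟨j, by simp⟩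
    have hj0 : |ev j| ≤ |ev i0| := h2 j (by simp)
    refine ⟨i0, fun h => hj (by simpa [h] using hj0), fun i => ?_⟩
    by_cases hi : ev i ^ 2 < ev j ^ 2
    · exact (sq_lt_sq.1 hi).le.trans hj0
    · exact h2 i (by simpa using hi)
  set l := |ev i0| with hl
  have hl0 : 0 < l := abs_pos.2 hi0
  have evp : ∀ i n, ev i ^ (2 * n) = |ev i| ^ (2 * n) := fun i n => by
    rw [pow_mul, pow_mul, sq_abs]
  have hN := pw_symm (μ := μ) hk hs N
  have hZe : ∫ x, ‖(hk.pw (μ := μ) N).row μ x‖ ^ 2 ∂μ = ∫ x, pw μ k (2 * N + 1) x x ∂μ := by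
    congr 1; ext x
    rw [← pw_one_diag _ hN, pw_pw hk]; congr 1; ring
  have hL : ∀ v, ‖(hk.pw (μ := μ) N).op μ v‖ ≤ l ^ (N + 1) * ‖v‖ := fun v => by
    rw [op_pw_eq hk]; exact norm_pow_le _ hsy b hb hl0.le hmax _ v
  have eL : (l ^ (N + 1)) ^ 2 = l ^ (2 * N + 2) := by rw [← pow_mul]; congr 1; ring
  have esq : ∀ i, (ev i ^ (N + 1)) ^ 2 = |ev i| ^ (2 * N + 2) := fun i => by
    rw [← pow_mul, mul_comm (N + 1), evp]; congr 1
  have hCl := M0.pure hN hc0.le le_rfl (hZe ▸ hZ) hL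
  have z2 : l ^ (2 * N + 2) ≤ ∫ x, pw μ k (2 * N + 1) x x ∂μ := by
    have := le_hasSum t0 i0 fun j _ => by
      rw [show 2 * N + 2 = 2 * (N + 1) by ring, evp]; positivity
    rwa [show 2 * N + 2 = 2 * (N + 1) by ring, evp] at this
  rw [hZe, eL] at hCl
  have c4 : c0 ≤ 4 := le_of_mul_le_mul_right (by linarith) hZ
  set L := l ^ (2 * N + 2) with hL'
  set q := 1 - min (1 / 2) (c1 / 32) with hq
  have hgap : ∀ i, i ≠ i0 → |ev i| ^ (2 * N + 2) ≤ q * L := fun i hi => by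
    rw [← esq, ← eL]
    refine M1.gap hN hc1.le (by linarith) (hZe ▸ hZ) hL (by positivity) ?_ (b.orthonormal.1 i0)
      (b.orthonormal.1 i) (b.orthonormal.2 hi.symm) (op_pw hk (hb i0) N) (op_pw hk (hb i) N) ?_ ?_
    · rw [hZe, eL]; linarith
    · rw [esq, esq]; exact pow_le_pow_left₀ (abs_nonneg _) (hmax i) _
    · rw [esq, eL]
  have hq0 : 0 < q := by have := min_le_left (1 / 2 : ℝ) (c1 / 32); linarith
  have hq1 : q < 1 := by
    have : 0 < min (1 / 2 : ℝ) (c1 / 32) := lt_min (by norm_num) (by positivity)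
    linarith
  set r := q ^ ((2 * N + 2 : ℕ) : ℝ)⁻¹ with hr
  have hr0 : 0 ≤ r := by positivity
  have hrq : r ^ (2 * N + 2) = q := Real.rpow_inv_natCast_pow hq0.le (by omega)
  have hr1 : r < 1 := by
    by_contra h
    have := one_le_pow₀ (n := 2 * N + 2) (not_lt.1 h)
    linarith
  have hg : ∀ i, i ≠ i0 → |ev i| ≤ r * l := fun i hi => by
    have := hgap i hi
    rw [← hrq, hL', ← mul_pow] at this
    exact (pow_le_pow_iff_left₀ (abs_nonneg _) (by positivity) (by omega)).1 this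
  have hpos : ev i0 = l := by
    rcases abs_choice (ev i0) with h | h
    · exact h.symm
    exfalso
    set u : Lp ℝ 2 μ := |b i0| with hu
    have hu1 : ‖u‖ = 1 := by rw [hu, norm_abs_eq_norm, b.orthonormal.1]
    have a1 : ⟪u, hk.op μ u⟫_ℝ ≤ r * l * ‖u‖ ^ 2 := by
      refine hasSum_le (fun i => ?_) (hasSum_form _ hsy b ev hb u) ((hasSum_normsq b u).mul_left _)
      gcongr
      by_cases hi : i = i0
      · rw [hi]; nlinarith [mul_nonneg hr0 hl0.le]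
      · exact (le_abs_self _).trans (hg i hi)
    have a2 : |⟪b i0, hk.op μ (b i0)⟫_ℝ| ≤ ⟪u, hk.op μ u⟫_ℝ := by
      rw [hk.inner_op, hk.inner_op]
      refine le_trans abs_integral_le_integral_abs (integral_mono_ae ?_ ?_ ?_)
      · have := (MemLp.integrable_mul (Lp.memLp (b i0)) (hk.memLp_act (b i0))).abs
        simpa only [Pi.mul_apply, hk.inner_row] using this
      · have := MemLp.integrable_mul (Lp.memLp u) (hk.memLp_act u)
        simpa only [Pi.mul_def, hk.inner_row] using this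
      filter_upwards [Lp.coeFn_abs (b i0)] with x hx
      rw [abs_mul, hu, hx]
      refine mul_le_mul_of_nonneg_left (le_trans abs_integral_le_integral_abs
        (le_of_eq (integral_congr_ae ?_))) (abs_nonneg _)
      filter_upwards [Lp.coeFn_abs (b i0)] with y hy
      rw [hy, abs_mul, abs_of_nonneg (h0 x y)]
    rw [hb, inner_smul_right, real_inner_self_eq_norm_sq, b.orthonormal.1, one_pow, mul_one] at a2
    rw [hu1] at a1
    nlinarith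
  refine ⟨l, r, b i0, ⟨hl0, hr0, hr1.le, b.orthonormal.1 i0, by rw [hb, hpos],
    norm_pow_le _ hsy b hb hl0.le hmax, fun m v => ?_⟩, hrq, by linarith⟩
  have := norm_pow_sub_le _ hsy b hb (by positivity : 0 ≤ r * l) i0 hg m v
  rwa [hpos] at this

/-- the square of the kernel is mixing outside of improbable events -/
def KMix (μ : Measure α) (k : α → α → ℝ) (c d : ℝ) : Prop := ∃ ga gb : Measure α,
  (∀ A, MeasurableSet A → ga A ≤
    ENNReal.ofReal ((∫ x in A, ∫ y, k x y ^ 2 ∂μ ∂μ) / ∫ x, ∫ y, k x y ^ 2 ∂μ ∂μ)) ∧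
  (∀ A, MeasurableSet A → gb A ≤
    ENNReal.ofReal ((∫ x in A, ∫ y, k x y ^ 2 ∂μ ∂μ) / ∫ x, ∫ y, k x y ^ 2 ∂μ ∂μ)) ∧
  ENNReal.ofReal (1 - d) ≤ ga Set.univ ∧ ENNReal.ofReal (1 - d) ≤ gb Set.univ ∧
  ∀ A B, MeasurableSet A → MeasurableSet B → ENNReal.ofReal c * (ga A * gb B) ≤
    ENNReal.ofReal ((∫ x in A, ∫ y in B, k x y ^ 2 ∂μ ∂μ) / ∫ x, ∫ y, k x y ^ 2 ∂μ ∂μ)

theorem exists_dens {R : α → ℝ} (hR : BF R) (h0 : ∀ x, 0 ≤ R x) {Z : ℝ} (hZ : 0 < Z) {g : Measure α}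
    (h : ∀ A, MeasurableSet A → g A ≤ ENNReal.ofReal ((∫ x in A, R x ∂μ) / Z)) :
    IsFiniteMeasure g ∧ ∃ q : α → ℝ, Measurable q ∧ (∀ x, 0 ≤ q x ∧ q x ≤ R x) ∧
      ∀ A, MeasurableSet A → ∫ x in A, q x ∂μ = Z * g.real A := by
  have fin : IsFiniteMeasure g := ⟨(h _ .univ).trans_lt ENNReal.ofReal_lt_top⟩
  have ac : g ≪ μ := Measure.AbsolutelyContinuous.mk fun A hA h1 => by
    simpa [Measure.restrict_eq_zero.2 h1] using h A hA
  have e : ∀ A, ∫ x in A, Z * (g.rnDeriv μ x).toReal ∂μ = Z * g.real A := fun A => by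
    rw [integral_const_mul, Measure.setIntegral_toReal_rnDeriv ac]
  have i1 : Integrable (fun x => Z * (g.rnDeriv μ x).toReal) μ :=
    Measure.integrable_toReal_rnDeriv.const_mul Z
  have le : (fun x => Z * (g.rnDeriv μ x).toReal) ≤ᵐ[μ] R :=
    ae_le_of_forall_setIntegral_le i1 hR.int fun A hA _ => by
      rw [e, mul_comm, ← le_div_iff₀ hZ]
      exact ENNReal.toReal_le_of_le_ofReal (div_nonneg (integral_nonneg h0) hZ.le) (h A hA)
  refine ⟨fin, fun x => min (Z * (g.rnDeriv μ x).toReal) (R x),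
    ((g.measurable_rnDeriv μ).ennreal_toReal.const_mul Z).min hR.meas,
    fun x => ⟨le_min (by positivity) (h0 x), min_le_right _ _⟩, fun A _ => ?_⟩
  rw [← e]
  refine integral_congr_ae (ae_restrict_of_ae ?_)
  filter_upwards [le] with x hx
  exact min_eq_left hx

theorem KMix.mnr [IsSeparable μ] (hk : GK k) (hs : ∀ x y, k x y = k y x) (h0 : ∀ x y, 0 ≤ k x y)
    {c d : ℝ} (hc : 0 ≤ c) (hZ : 0 < ∫ x, ∫ y, k x y ^ 2 ∂μ ∂μ) (h : KMix μ k c d) :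
    ∃ H q, Mnr μ hk c d H q := by
  obtain ⟨ga, gb, h1, h2, h3, h4, h5⟩ := h
  have bR := bf_norm (μ := μ) hk hs
  have bR2 : BF fun x => ‖hk.row μ x‖ ^ 2 := by simpa only [pow_two] using bR.mul bR
  simp only [← hk.norm_row (μ := μ)] at h1 h2 h5 hZ
  obtain ⟨fa, qa, a1, a2, a3⟩ := exists_dens bR2 (fun x => sq_nonneg _) hZ h1
  obtain ⟨fb, qb, b1, b2, b3⟩ := exists_dens bR2 (fun x => sq_nonneg _) hZ h2
  refine exists_mnr hk hs h0 hc hZ a1 b1 a2 b2 ?_ ?_ fun A B hA hB => ?_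
  · rw [← setIntegral_univ (f := qa), a3 _ .univ, mul_comm]
    exact mul_le_mul_of_nonneg_left
      ((ENNReal.ofReal_le_iff_le_toReal (measure_ne_top _ _)).1 h3) hZ.le
  · rw [← setIntegral_univ (f := qb), b3 _ .univ, mul_comm]
    exact mul_le_mul_of_nonneg_left
      ((ENNReal.ofReal_le_iff_le_toReal (measure_ne_top _ _)).1 h4) hZ.le
  · have h6 := ENNReal.toReal_le_of_le_ofReal (div_nonneg (integral_nonneg fun x =>
      integral_nonneg fun y => sq_nonneg _) hZ.le) (h5 A B hA hB)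
    rw [ENNReal.toReal_mul, ENNReal.toReal_mul, ENNReal.toReal_ofReal hc, le_div_iff₀ hZ] at h6
    rw [a3 A hA, b3 B hB]
    refine le_trans (le_of_eq ?_) (mul_le_mul_of_nonneg_left h6 hZ.le)
    simp only [Measure.real]
    ring

theorem vac_of_mix [IsSeparable μ] (hk : GK k) (hs : ∀ x y, k x y = k y x) (h0 : ∀ x y, 0 ≤ k x y)
    (N : ℕ) {c0 c1 : ℝ} (hc0 : 0 < c0) (hc1 : 0 < c1)
    (hZ : 0 < ∫ x, ∫ y, pw μ k N x y ^ 2 ∂μ ∂μ) (m0 : KMix μ (pw μ k N) c0 (1 / 8))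
    (m1 : KMix μ (pw μ k N) c1 (c0 / 32)) :
    ∃ l r e, Vac μ hk l r e ∧ r ≤ Real.exp (-(min 1 c1 / 100 / (2 * (N + 1)))) ∧
      ∫ x, ∫ y, pw μ k N x y ^ 2 ∂μ ∂μ ≤ 4 / c0 * l ^ (2 * N + 2) ∧
      ∫ x, pw μ k (2 * N + 1) x x ∂μ ≤ 4 / c0 * l ^ (2 * N + 2) := by
  have hN := pw_symm (μ := μ) hk hs N
  obtain ⟨H0, q0, M0⟩ := m0.mnr (hk.pw N) hN (pw_nonneg h0 N) hc0.le hZ
  obtain ⟨H1, q1, M1⟩ := m1.mnr (hk.pw N) hN (pw_nonneg h0 N) hc1.le hZ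
  have e : ∫ x, ∫ y, pw μ k N x y ^ 2 ∂μ ∂μ = ∫ x, pw μ k (2 * N + 1) x x ∂μ := by
    congr 1; ext x
    rw [← (hk.pw N).norm_row, ← pw_one_diag _ hN, pw_pw hk]; congr 1; ring
  have : Fact ((2 : ENNReal) ≠ ⊤) := ⟨ENNReal.ofNat_ne_top⟩
  obtain ⟨l, r, v, V, h1, h2⟩ := vac_of_mnr hk hs h0 N hc0 hc1 (e ▸ hZ) M0 M1
  have h3 : ∫ x, pw μ k (2 * N + 1) x x ∂μ ≤ 4 / c0 * l ^ (2 * N + 2) := by
    rw [div_mul_eq_mul_div, le_div_iff₀ hc0, mul_comm]; exact h2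
  refine ⟨l, r, v, V, ?_, e ▸ h3, h3⟩
  refine (pow_le_pow_iff_left₀ V.r0 (Real.exp_pos _).le (show 2 * N + 2 ≠ 0 by omega)).1 ?_
  rw [h1, ← Real.exp_nat_mul]
  have e2 : ((2 * N + 2 : ℕ) : ℝ) * -(min 1 c1 / 100 / (2 * (N + 1))) = -(min 1 c1 / 100) := by
    push_cast; field_simp
  have h4 : min 1 c1 / 100 ≤ min (1 / 2) (c1 / 32) :=
    le_min (by linarith [min_le_left 1 c1]) (by linarith [min_le_right 1 c1])
  rw [e2]
  linarith [Real.add_one_le_exp (-(min 1 c1 / 100))]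

theorem Vac.abs {hk : GK k} {l r : ℝ} {e : Lp ℝ 2 μ} (V : Vac μ hk l r e) (hr : r < 1)
    (hs : ∀ x y, k x y = k y x) (h0 : ∀ x y, 0 ≤ k x y) : Vac μ hk l r |e| := by
  have n1 : ‖|e|‖ = 1 := by rw [norm_abs_eq_norm, V.one]
  have hl := V.pos
  have a1 : l ≤ ‖hk.op μ |e|‖ := by
    have := op_abs_le hk hk (fun x y => (abs_of_nonneg (h0 x y)).le) e
    rwa [V.eig, norm_smul, V.one, mul_one, Real.norm_of_nonneg hl.le] at this
  obtain ⟨t, ht⟩ : ∃ t, t = ⟪e, |e|⟫_ℝ := ⟨_, rfl⟩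
  have ee : ⟪e, e⟫_ℝ = 1 := by rw [real_inner_self_eq_norm_sq, V.one, one_pow]
  have a2 : ⟪e, |e| - t • e⟫_ℝ = 0 := by
    rw [inner_sub_right, inner_smul_right, ee, ← ht, mul_one, sub_self]
  have a3 : ‖|e| - t • e‖ ^ 2 = 1 - t ^ 2 := by
    rw [norm_sub_sq_real, n1, norm_smul, V.one, inner_smul_right, real_inner_comm, ← ht,
      Real.norm_eq_abs, mul_one, sq_abs]
    ring
  have a4 := V.gap 1 (|e| - t • e)
  rw [a2, mul_zero, zero_smul, sub_zero, pow_one, pow_one] at a4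
  have a5 : ⟪hk.op μ (|e| - t • e), (t * l) • e⟫_ℝ = 0 := by
    have : ⟪hk.op μ (|e| - t • e), e⟫_ℝ = ⟪|e| - t • e, hk.op μ e⟫_ℝ := hk.symm_op hs _ _
    rw [inner_smul_right, this, V.eig, inner_smul_right, real_inner_comm, a2, mul_zero, mul_zero]
  have a6 : hk.op μ |e| = hk.op μ (|e| - t • e) + (t * l) • e := by
    rw [map_sub, map_smul, V.eig, smul_smul, sub_add_cancel]
  have a7 := pow_le_pow_left₀ hl.le a1 2
  have a8 := pow_le_pow_left₀ (norm_nonneg _) a4 2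
  rw [a6, norm_add_sq_real, a5, norm_smul, V.one, mul_one, Real.norm_eq_abs, sq_abs] at a7
  rw [mul_pow, a3] at a8
  have a9 : 0 ≤ 1 - t ^ 2 := a3 ▸ sq_nonneg _
  have r2 : 0 < (1 - r ^ 2) * l ^ 2 := mul_pos (by nlinarith [V.r0]) (by positivity)
  have t1 : t ^ 2 = 1 := by
    have : (1 - r ^ 2) * l ^ 2 * (1 - t ^ 2) ≤ 0 := by linarith
    linarith [nonpos_of_mul_nonpos_right this r2]
  have he : |e| = t • e := by
    rw [t1, sub_self, sq_eq_zero_iff, norm_eq_zero, sub_eq_zero] at a3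
    exact a3
  refine ⟨hl, V.r0, V.r1, n1, by rw [he, map_smul, V.eig, smul_comm], V.nrm, fun m v => ?_⟩
  rw [he, real_inner_smul_left, smul_smul,
    show l ^ m * (t * ⟪e, v⟫_ℝ) * t = t ^ 2 * (l ^ m * ⟪e, v⟫_ℝ) by ring, t1, one_mul]
  exact V.gap m v

end Pool.Agent.Lib.MP_7f377f_mp.Hm
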