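import Pool.Agent.Lib.MP_7f377f_mp.HTwo
import Pool.Agent.Lib.MP_7f377f_mp.HDefs
import Pool.Agent.Lib.MP_7f377f_mp.HMix

/-! From the mixing of opposite slices to the gap of the transfer kernel. -/

noncomputable section

namespace Pool.Agent.Lib.MP_7f377f_mp.Y6

open MeasureTheory Measure Function Filter Topology Pool.Agent.Lib.MP_2d4879_an Hm RGP Ch
open RG RG.D3.Fi
open scoped InnerProductSpace Quaternion ENNReal

theorem wilson_eq (β : ℝ) (n : ℕ) : D3.wilson β n = wilson (tr RG.haar) β ![n, n, n] := by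
  have : (tr RG.haar).IsHaarMeasure := (inferInstance : RG.haar.IsHaarMeasure)
  have e : ![n, n, n] = fun _ => n := funext fun i => by fin_cases i <;> rfl
  have e2 : ∀ U, action (fun _ => n) U = D3.wil n U := fun U => by
    simp only [action, plaq_tc]
    rfl
  rw [e, wilson, tilt_eq ((((BM.const β).mul (bm_of_cont (cont_action _))).comp
    (meas_per _)).exp.integrable _)]
  simp only [e2]
  rfl

theorem km_of (hM : D3.Hq.Mix) {γ : ℝ} (hγ : 0 < γ) {d : ℝ} (hd : 0 < d) : ∃ c > (0 : ℝ), ∃ J0 : ℕ,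
    ∀ J l, J0 ≤ J → D3.Adm J l → ∀ (n N : ℕ) [NeZero n], n = D3.LL l * D3.nn J →
      N + 1 = D3.LL l * 3 ^ J ^ 2 →
      KMix (RGP.PP (tr RG.haar) (Ed n)) (pw (RGP.PP (tr RG.haar) (Ed n)) (KK (tr RG.haar) (WW (γ * n))) N) c d := by
  have : (tr RG.haar).IsHaarMeasure := (inferInstance : RG.haar.IsHaarMeasure)
  obtain ⟨c, hc, J0, H⟩ := hM γ hγ d hd
  refine ⟨c, hc, J0, fun J l hJ hl n N _ hn hN => ?_⟩
  obtain ⟨G, mG, G1, hG, H⟩ := H J l hJ hl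
  have e : N + 1 + (N + 1) = n := by rw [hn, hN, D3.nn]; ring
  rw [← Nat.cast_mul, ← hn, wilson_eq] at hG H
  rw [← hN] at H
  refine kmix (tr RG.haar) (γ * n) mG G1 (by rwa [e]) fun a b ma mb ia ib => ?_
  rw [e]
  have gi : ∀ t {a : (Ed n → SU2) → ℝ≥0∞}, Measurable a → (∀ u x, a (ga u x) = a x) →
      D3.GI n fun U => a (slc n t U) := fun t a ma ia =>
    ⟨ma.comp (cont_slc t).measurable, fun u U hu => (congrArg a (slc_gauge t hu U)).trans (ia _ _)⟩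
  exact H _ _ (gi 0 ma ia) (gi _ mb ib)
    (fun U U' h => congrArg a (funext fun e => h _ (by simp [st])))
    fun U U' h => congrArg b (funext fun e => h _ (by simp [st]))

theorem int_pos {α : Type} [MeasurableSpace α] {m : Measure α} [IsProbabilityMeasure m] {f : α → ℝ}
    (i : Integrable f m) (h : ∀ x, 0 < f x) : 0 < ∫ x, f x ∂m :=
  (integral_pos_iff_support_of_nonneg (fun x => (h x).le) i).2
    (by rw [support_eq_univ fun g => (h g).ne']; simp)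

theorem pw_pos {α : Type} [MeasurableSpace α] {m : Measure α} [IsProbabilityMeasure m]
    {K : α → α → ℝ} (hK : GK K) (h : ∀ x y, 0 < K x y) : ∀ N x y, 0 < pw m K N x y
  | 0, x, y => h x y
  | N + 1, x, y => int_pos (((hK.memLp x).integrable_mul ((gk_swap (hK.pw N)).memLp y)))
    fun z => mul_pos (h x z) (pw_pos hK h N z y)

theorem vac_main (hM : D3.Hq.Mix) [m : MeasurableSpace SU2] [BorelSpace SU2]
    (h : Measure SU2) [h.IsHaarMeasure] [IsProbabilityMeasure h] {γ : ℝ} (hγ : 0 < γ) :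
    ∃ Δ > (0 : ℝ), ∃ C > (0 : ℝ), ∃ J0 : ℕ, ∀ J l, J0 ≤ J → D3.Adm J l → ∀ (n N : ℕ) [NeZero n],
      n = D3.LL l * D3.nn J → N + 1 = D3.LL l * 3 ^ J ^ 2 →
      ∃ l r e, Vac (RGP.PP h (Ed n)) (wt_WW h (γ * n)).gk l r e ∧ r ≤ Real.exp (-(Δ / n)) ∧
        ∫ x, ∫ y, kk h (γ * n) N x y ^ 2 ∂(RGP.PP h (Ed n)) ∂(RGP.PP h (Ed n)) ≤ C * l ^ (2 * N + 2) := by
  obtain rfl : m = mS := BorelSpace.measurable_eq
  have : (tr RG.haar).IsHaarMeasure := (inferInstance : RG.haar.IsHaarMeasure)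
  obtain rfl := Measure.isHaarMeasure_eq_of_isProbabilityMeasure h (tr RG.haar)
  obtain ⟨c0, h0, J0, H0⟩ := km_of hM hγ (d := 1 / 8) (by norm_num)
  obtain ⟨c1, h1, J1, H1⟩ := km_of hM hγ (d := c0 / 32) (by positivity)
  refine ⟨min 1 c1 / 100, by positivity, 4 / c0, by positivity, J0 + J1,
    fun J l hJ hl n N _ hn hN => ?_⟩
  have e : (n : ℝ) = 2 * (N + 1) := by
    rw [hn, D3.nn, ← Nat.cast_succ, Nat.succ_eq_add_one, hN]; push_cast; ring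
  have W := wt_WW (n := n) (tr RG.haar) (γ * n)
  have g0 := W.gk.pw (μ := RGP.PP (tr RG.haar) (Ed n)) N
  have g := gk_mul g0 g0
  obtain ⟨l, r, v, V, hr, hC, -⟩ := vac_of_mix W.gk W.symm (fun x y => (W.KK_pos x y).le) N h0 h1
    (by
      simp only [sq]
      exact int_pos (bf_int g).int fun x => int_pos (g.int_row x) fun y =>
        mul_pos (pw_pos W.gk W.KK_pos N x y) (pw_pos W.gk W.KK_pos N x y))
    (H0 J l (by omega) hl n N hn hN) (H1 J l (by omega) hl n N hn hN)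
  exact ⟨l, r, v, V, e ▸ hr, hC⟩

theorem scale (J0 : ℕ) : ∀ N ≥ (J0 + 2) ^ 2, ∃ J l, J0 ≤ J ∧ D3.Adm J l ∧
    2 * 3 ^ N = D3.LL l * D3.nn J ∧ 3 ^ N - 1 + 1 = D3.LL l * 3 ^ J ^ 2 := fun N hN => by
  obtain ⟨J, hJ⟩ : ∃ J, N.sqrt = J + 1 := ⟨N.sqrt - 1, by
    have := Nat.le_sqrt'.2 hN; omega⟩
  have h1 : (J + 1) ^ 2 ≤ N := hJ ▸ Nat.sqrt_le' N
  have h2 : N < (J + 1 + 1) ^ 2 := hJ ▸ Nat.lt_succ_sqrt' N
  have h3 : J0 + 1 ≤ J := by have := Nat.le_sqrt'.2 hN; omega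
  obtain ⟨k, rfl⟩ : ∃ k, N = k + J ^ 2 := ⟨N - J ^ 2, by
    have : J ^ 2 ≤ (J + 1) ^ 2 := by gcongr; omega
    omega⟩
  have hl : D3.LL (3 ^ k / 2) = 3 ^ k := Nat.two_mul_div_two_add_one_of_odd (Odd.pow (by decide))
  refine ⟨J, 3 ^ k / 2, by omega, ?_, by rw [hl, D3.nn]; ring,
    by rw [hl, Nat.sub_add_cancel (Nat.one_le_pow _ _ (by norm_num))]; ring⟩
  rw [D3.Adm, D3.M3.LL_ll, hl, ← pow_mul]
  exact ⟨Nat.pow_le_pow_right (by norm_num) (by nlinarith),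
    Nat.pow_le_pow_right (by norm_num) (by nlinarith)⟩

open ProbabilityTheory in
theorem lattice_of (hM : D3.Hq.Mix) [MeasurableSpace SU2] [BorelSpace SU2]
    (h : Measure SU2) [h.IsHaarMeasure] [IsProbabilityMeasure h] (γ : ℝ) (hγ : 0 < γ) :
    ∃ Δ > (0 : ℝ), ∃ N₀ : ℕ, ∀ N ≥ N₀, ∃ μ : Measure (Link → SU2), IsProbabilityMeasure μ ∧
      (∀ F : C(Link → SU2, ℝ), Tendsto
        (fun T => ∫ U, F U ∂wilson h (γ * (2 * 3 ^ N)) ![T, 2 * 3 ^ N, 2 * 3 ^ N]) atTop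
        (𝓝 (∫ U, F U ∂μ))) ∧
      ∀ (s : ℤ) (t : ℕ) (F G : C(Link → SU2, ℝ)),
        DependsOn F {e | (e.1 + Pi.single e.2 1 : Fin 3 → ℤ) 0 ≤ s} →
        DependsOn G {e | s + t ≤ e.1 0} →
        |cov[F, G; μ]| ≤ Real.exp (-(Δ * t / (2 * 3 ^ N))) * √Var[F; μ] * √Var[G; μ] := by
  obtain ⟨Δ, hΔ, C, -, J0, H⟩ := vac_main hM h hγ
  refine ⟨Δ, hΔ, (J0 + 2) ^ 2, fun N hN => ?_⟩
  obtain ⟨J, l, hJ, ad, e1, e2⟩ := scale J0 N hN
  obtain ⟨l, r, e, V, hr, -⟩ := H J _ hJ ad _ _ e1 e2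
  have r1 : r < 1 := hr.trans_lt (Real.exp_lt_one_iff.2 (neg_lt_zero.2 (by positivity)))
  obtain ⟨μ, _, hμ⟩ := exists_lim V r1
  push_cast at hr hμ V
  refine ⟨μ, inferInstance, fun F => hμ F F.continuous, fun s t F G dF dG => ?_⟩
  refine (clus_cov V r1 hμ F.continuous G.continuous dF dG).trans ?_
  gcongr
  rw [show -(Δ * t / (2 * 3 ^ N)) = t * -(Δ / (2 * 3 ^ N)) by ring, Real.exp_nat_mul]
  exact pow_le_pow_left₀ V.r0 hr t

end Pool.Agent.Lib.MP_7f377f_mp.Y6
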