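import Pool.Agent.Lib.MP_7f377f_mp.A3PZ
import Pool.Agent.Lib.MP_7f377f_mp.R3DetZ
import Pool.Agent.Lib.MP_7f377f_mp.YMCDefs

/-! Symmetries of the Wilson measures of tori with unequal sides and of the averaged fields. -/

noncomputable section

namespace Pool.Agent.Lib.MP_7f377f_mp.RGP

open MeasureTheory Function

variable {d : ℕ} {G : Type} [MeasurableSpace G] (μ : Measure G) [IsProbabilityMeasure μ]
  [Group G] [MeasurableMul₂ G] [MeasurableInv G] [μ.IsInvInvariant] [μ.IsMulRightInvariant]
  {u : (Lk d → G) → ℝ}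

/-- reflection positivity for the reflection in the planes `x_k = 0` and `x_k = h` -/
theorem Pot.rpN (hu : Pot u) {n : St d} (hn : ∀ i, 0 < n i) {h : ℤ} {k : Fin d} (hk : n k = 2 * h)
    {F : (Lk d → G) → ℝ} (bF : BM F) (dF : DependsOn F (slab k h)) :
    0 ≤ ZZ μ u n fun W => F W * F (RGP.act (T1 k) 0 W) := by
  have h0 : 0 < h := by have := hn k; omega
  set hb : St d := update n k h with hhb
  have e1 : ∀ w : Lk d → G, BW u hb (pc n w) * BW u hb (RGP.act (T1 k) 0 (pc n w)) =
      BW u n (pc n w) := by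
    intro w
    refine Eq.trans ?_ (hu.tile hn hb Finset.univ (fun b : Bool => if b then T1 k else T0)
      (fun _ => 0) (fun b _ b' _ x hx x' hx' H => ?_) ?_ w)
    · simp [act_zero, mul_comm]
    · have a1 := mem_box.mp hx k
      have a2 := mem_box.mp hx' k
      have a3 := H k
      simp only [hhb, update_self] at a1 a2
      have a4 := eq_of_dvd a3 (by rw [hk]; split_ifs <;> simp <;> nlinarith)
        (by rw [hk]; split_ifs <;> simp <;> nlinarith)
      have e : b = b' := by cases b <;> cases b' <;> simp [T1] at a4 ⊢ <;> omega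
      subst e
      refine ⟨rfl, funext fun i => ?_⟩
      by_cases hi : i = k
      · subst hi
        cases b <;> simpa [T1] using a4
      · have b1 := mem_box.mp hx i
        have b2 := mem_box.mp hx' i
        have b3 := H i
        simp only [hhb, update_of_ne hi] at b1 b2
        refine eq_of_dvd (n := n i) ?_ (by omega) (by omega)
        cases b <;> simpa [T1, hi] using b3
    · have : n = update (1 : St d) k 2 * hb := by
        funext i
        by_cases hi : i = k
        · simp [hi, hhb, hk]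
        · simp [hi, hhb]
      conv_lhs => rw [this]
      rw [card_box_mul (fun i => by by_cases hi : i = k <;> simp [hi])
        (fun i => by by_cases hi : i = k <;> simp [hi, hhb, h0, hn]), card_box]
      refine Nat.mul_le_mul_right _ (le_of_eq ?_)
      rw [Finset.prod_eq_single k (fun i _ hi => by simp [hi]) (by simp)]
      simp
  have := sq_KK μ (n := n) (k := k) h0 (by omega) ((hu.bw hb).mul bF)
    (DependsOn.mul' ((hu.bw_dep hb).mono fun e (he : e ∈ cell hb) => by
      simpa [hhb] using he k) dF) T0 0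
  rw [← hk, update_eq_self] at this
  refine (integral_nonneg fun w => mul_self_nonneg _).trans_eq (this.trans ?_)
  exact TI_congr μ _ fun w => by simp only [← e1]; ring

end Pool.Agent.Lib.MP_7f377f_mp.RGP

namespace Pool.Agent.Lib.MP_7f377f_mp.RG.D3.Hc

open MeasureTheory Finset Dt Ds Fi D3.Pv
open RGP (BM)
open scoped Quaternion

/-! ### the definitions of the statement -/

theorem ln_line (U : FH) (c p : St) (i : Fin 3) (k : ℤ) :
    ln star (sh c U) p i k = YC.line U (c + p) i k := by
  have e : ∀ k : ℤ, k • un i = Pi.single i k := fun k => by rw [un, ← Pi.single_smul]; simp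
  have h1 : ∀ k, lnP (sh c U) p i k = YC.line U (c + p) i (.ofNat k) := fun k => by
    induction k with
    | zero => rfl
    | succ k ih =>
      rw [lnP, ih]
      simp [YC.line, List.range_succ, sh, e, add_comm, add_left_comm]
  have h2 : ∀ k, lnN star (sh c U) p i k = ((List.range k).map fun s : ℕ =>
      star (U (c + p - Pi.single i (s + 1 : ℤ), i))).prod := fun k => by
    induction k with
    | zero => rfl
    | succ k ih =>
      rw [lnN, ih, List.range_succ, List.map_append, List.prod_append]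
      simp only [sh, e, add_comm (_ - _), add_sub_assoc]
      simp
  cases k with
  | ofNat k => rw [ln, h1, show (-Int.ofNat k).toNat = 0 by simp, lnN, mul_one]; rfl
  | negSucc k => rw [ln, h2, show (Int.negSucc k).toNat = 0 from rfl, lnP, one_mul]; rfl

theorem smul_un (k : ℤ) (i : Fin 3) : k • un i = Pi.single i k := by
  rw [un, ← Pi.single_smul]
  simp

theorem cmb_comb (U : FH) (c t : St) : cmb star (sh c U) t = YC.comb U c t := by
  simp only [cmb, ln_line, YC.comb, ← M3.pre_2, ← M3.pre_1, M3.pre_0, smul_un, zero_add, add_zero,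
    add_assoc]

theorem block_eq (l : ℕ) : YC.block l = blkH l := by
  funext U b
  have e : ∀ c p, lnP (sh c U) p b.2 (LL l) = YC.line U (c + p) b.2 (2 * l + 1) :=
    fun c p => by rw [← ln_line, ← LL_cast, ln, Int.toNat_natCast,
      show (-(LL l : ℤ)).toNat = 0 by simp, lnN, mul_one]
  rw [blkH, avH, mean, YC.block, YC.avg, box, LL_real]
  congr 3
  funext t
  rw [sh_sh, cmb_comb, cmb_comb, e, up, up, smul_un, add_comm (Pi.single _ _), LL_cast]

theorem iter_eq (l k j : ℕ) (X : FH) : YC.iter l k j X = dnH j k (blkH l X) := by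
  induction k generalizing j with
  | zero => exact congrFun (block_eq l) X
  | succ k ih => rw [YC.iter, Function.comp, ih, dnH, block_eq]; rfl

theorem refl_eq (i : Fin 3) : YC.refl i = rH (RGP.T1 i) := by
  funext X b
  have e : rf (RGP.T1 i) b.1 = Function.update b.1 i (-b.1 i) := funext fun k => by
    by_cases h : k = i <;> simp [rf, RGP.T1, h]
  simp only [rH, YC.refl, e, RGP.T1, decide_eq_true_eq]
  split_ifs with h
  · rw [h]
    congr 3
    funext k
    by_cases h : k = i <;> simp [h, un]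
  · rfl

/-! ### the Wilson measures -/

/-- the Wilson measure -/
def wN (β : ℝ) (N : Fin 3 → ℕ) : Measure Conf := Y6.wilson (tr haar) β N

instance haarH : (tr RG.haar).IsHaarMeasure := (inferInstance : RG.haar.IsHaarMeasure)

instance (β : ℝ) (N : Fin 3 → ℕ) : IsProbabilityMeasure (wN β N) :=
  inferInstanceAs (IsProbabilityMeasure (Y6.wilson (tr haar) β N))

/-- the periods as integers -/
def zN (N : Fin 3 → ℕ) : St := fun i => N i

variable (β : ℝ) {N : Fin 3 → ℕ} (hN : ∀ i, 0 < N i) {F : Conf → ℝ}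
include hN

theorem zN_pos (i : Fin 3) : 0 < zN N i := Int.natCast_pos.2 (hN i)

theorem bw_eq (w : Conf) : RGP.BW (wpot β) (zN N) (RGP.pc (zN N) w) =
    Real.exp (β * Y6.action N (Y6.per N w)) := by
  simp only [RGP.BW, act_T0, sum_wpotN β (zN_pos hN), Y6.action, Y6.plaq_tc]
  rfl

theorem int_wN : ∃ c : ℝ, 0 ≤ c ∧ ∀ F : Conf → ℝ, Measurable F →
    ∫ U, F U ∂wN β N = c * RGP.ZZ haar (wpot β) (zN N) F := by
  refine ⟨(∫ U, Real.exp (β * Y6.action N (Y6.per N U)) ∂(RGP.PP (tr haar) _))⁻¹,
    inv_nonneg.2 (integral_nonneg fun _ => (Real.exp_pos _).le), fun F mF => ?_⟩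
  refine (integral_map (Y6.meas_per N).aemeasurable mF.aestronglyMeasurable).trans ?_
  rw [integral_tilted, RGP.ZZ, RGP.TI, ← integral_const_mul]
  refine integral_congr_ae (ae_of_all _ fun w => ?_)
  simp only [smul_eq_mul, div_eq_inv_mul, mul_assoc]
  exact congrArg₂ (· * ·) rfl (congrArg₂ (· * ·) (bw_eq β hN w).symm rfl)

theorem wN_act (mF : Measurable F) (T : Fin 3 → Bool) (a : St) :
    ∫ U, F (RGP.act T a U) ∂wN β N = ∫ U, F U ∂wN β N := by
  obtain ⟨c, -, h⟩ := int_wN β hN
  rw [h (fun U => F (RGP.act T a U)) (mF.comp (RGP.measurable_act T a)), h _ mF,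
    (pot_wpot β).zz_act haar (zN_pos hN) mF T a]

theorem wN_congr {F' : Conf → ℝ} (mF : Measurable F) (mF' : Measurable F')
    (e : ∀ w, F (RGP.pc (zN N) w) = F' (RGP.pc (zN N) w)) : ∫ U, F U ∂wN β N = ∫ U, F' U ∂wN β N := by
  obtain ⟨c, -, h⟩ := int_wN β hN
  rw [h _ mF, h _ mF', RGP.ZZ_congr _ _ e]

theorem wN_gauge (mF : Measurable F) {g : St → S3}
    (hg : ∀ x y, (∀ i, zN N i ∣ y i - x i) → g x = g y) :
    ∫ U, F (gauge Inv.inv g U) ∂wN β N = ∫ U, F U ∂wN β N := by
  obtain ⟨c, -, h⟩ := int_wN β hN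
  have e : ∀ w, RGP.pc (zN N) (gauge Inv.inv g w) = gauge Inv.inv g (RGP.pc (zN N) w) := fun w => by
    funext e
    change g _ * _ * (g _)⁻¹ = g _ * _ * (g _)⁻¹
    rw [hg e.1 (RGP.per (zN N) e).1 fun i => Int.dvd_emod_sub_self,
      hg (e.1 + un e.2) ((RGP.per (zN N) e).1 + un e.2) fun i => by
        simpa [RGP.per] using Int.dvd_emod_sub_self]
    rfl
  have m : Measurable fun w => RGP.BW (wpot β) (zN N) (RGP.pc (zN N) w) * F (RGP.pc (zN N) w) :=
    (((pot_wpot β).bw _).meas.mul mF).comp (RGP.measurable_pc _)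
  rw [h (fun U => F (gauge Inv.inv g U)) (mF.comp (M3.mp_gauge g).measurable), h _ mF]
  refine congrArg _ (Eq.trans ?_ (RGP.int_mp (M3.mp_gauge g) m))
  refine integral_congr_ae (ae_of_all _ fun w => ?_)
  simp only [RGP.BW, act_T0, sum_wpotN β (zN_pos hN)]
  simp only [e, M3.hol_gauge, Ms.re_conj]

theorem wN_pos (bF : BM F) {k : Fin 3} {h : ℤ} (hk : zN N k = 2 * h)
    (dF : DependsOn F (RGP.slab k h)) : 0 ≤ ∫ U, F U * F (RGP.act (RGP.T1 k) 0 U) ∂wN β N := by
  obtain ⟨c, c0, e⟩ := int_wN β hN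
  rw [e _ (bF.mul (bF.comp (RGP.measurable_act _ _))).meas]
  exact mul_nonneg c0 ((pot_wpot β).rpN haar (zN_pos hN) hk bF dF)

omit hN

/-! ### covariance and locality of the averaging -/

theorem Sl_blkH {i : Fin 3} {a b : ℤ} {l : ℕ} {X X' : FH}
    (h : Sl i (LL l * a - l) (LL l * b + l) X X') : Sl i a b (blkH l X) (blkH l X') :=
  fun e h1 h2 => by
    have L := LL_cast l
    rw [Dt.blkH, Dt.blkH, (h.sh (up l e.1)).avH] <;> rw [up_apply] <;> nlinarith

/-- the structure of the averaging map: a scale `LL r` and a map `φ` of the sites -/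
structure Cov (r : ℕ) (φ : St → St) (A : FH → FH) : Prop where
  shift : ∀ y X, A (sh (up r y) X) = sh y (A X)
  refl : ∀ T X, A (rH T X) = rH T (A X)
  gauge : ∀ g X, A (gH (fun x => g (φ x)) X) = gH g (A X)
  per : ∀ x y, φ (x + up r y) = φ x + y
  loc : ∀ i a b X X', Sl i (LL r * a - r) (LL r * b + r) X X' → Sl i a b (A X) (A X')

theorem cov_blk (l : ℕ) : Cov l (yo l) (blkH l) :=
  ⟨blkH_sh l, fun _ _ => blkH_rH l, fun g X => by rw [blkH_gH]; simp only [yo_up],
    fun x y => yo_add_up l x y, fun _ _ _ _ _ => Sl_blkH⟩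

theorem Cov.comp {r r' : ℕ} {φ φ' : St → St} {A A' : FH → FH} (h : Cov r φ A) (h' : Cov r' φ' A') :
    LL (LL r' * r + r') = LL r' * LL r ∧ Cov (LL r' * r + r') (φ ∘ φ') (A ∘ A') := by
  have e : LL (LL r' * r + r') = LL r' * LL r := by simp only [LL]; ring
  have e1 : ∀ y, up (LL r' * r + r') y = up r' (up r y) := fun y => by
    rw [up, up, up, e, smul_smul, Nat.cast_mul]
  refine ⟨e, fun y X => by rw [Function.comp, Function.comp, e1, h'.shift, h.shift],
    fun T X => by rw [Function.comp, Function.comp, h'.refl, h.refl],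
    fun g X => by
      rw [Function.comp, Function.comp, ← h.gauge, ← h'.gauge]
      rfl,
    fun x y => by rw [Function.comp, Function.comp, e1, h'.per, h.per],
    fun i a b X X' H => h.loc _ _ _ _ _ (h'.loc _ _ _ _ _ ?_)⟩
  convert H using 1 <;> rw [e] <;> push_cast <;> ring

theorem cov_XX {J j : ℕ} (hj : j ≤ J) (l : ℕ) : ∃ r φ, LL r * nn j = LL l * nn J ∧
    Cov r φ fun X => dnH j (J - j) (blkH l X) := by
  obtain ⟨k, rfl⟩ := Nat.exists_eq_add_of_le hj
  rw [Nat.add_sub_cancel_left]
  clear hj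
  induction k generalizing j with
  | zero => exact ⟨l, _, rfl, cov_blk l⟩
  | succ k ih =>
    obtain ⟨r, φ, e, h⟩ := ih (j := j + 1)
    obtain ⟨e1, h1⟩ := (cov_blk (ll j)).comp h
    exact ⟨_, _, by rw [e1, mul_assoc, ← M3.nn_succ, e, add_right_comm, add_assoc], h1⟩

end Pool.Agent.Lib.MP_7f377f_mp.RG.D3.Hc
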