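import Pool.Agent.Lib.MP_7f377f_mp.HC4A

/-! The limit of the averaged fields on the cylinder and its symmetries. -/

noncomputable section

namespace Pool.Agent.Lib.MP_7f377f_mp.RG.D3.Hc

open MeasureTheory Filter Topology BoundedContinuousFunction Dt Ds Fi D3.Pv
open RGP (BM)
open scoped Quaternion ENNReal

/-- the sides of the torus of a run -/
def sds (p : ℕ × ℕ × ℕ) : Fin 3 → ℕ := ![p.2.2, LL p.2.1 * nn p.1, LL p.2.1 * nn p.1]

/-- the Wilson measure of a run -/
def wT (γ : ℝ) (p : ℕ × ℕ × ℕ) : Measure Conf := wN (γ * (LL p.2.1 * nn p.1 : ℕ)) (sds p)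

instance (γ : ℝ) (p : ℕ × ℕ × ℕ) : IsProbabilityMeasure (wT γ p) :=
  inferInstanceAs (IsProbabilityMeasure (wN _ _))

/-- fine lattices with a long time side -/
def Big (k : ℕ) (p : ℕ × ℕ × ℕ) : Prop :=
  k ≤ p.1 ∧ Adm p.1 p.2.1 ∧ k * (LL p.2.1 * nn p.1) ≤ p.2.2

/-- the Cauchy property of the averaged fields -/
def Cvg : Prop := ∀ γ > (0 : ℝ), ∀ (j : ℕ) (F : FH → ℝ), Continuous F → (∀ X, 0 ≤ F X) →
  (∀ X, F X ≤ 1) → ∀ η > (0 : ℝ), ∃ k0 : ℕ, ∀ p q, Big k0 p → Big k0 q →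
    ∫ U, F (XX p.1 p.2.1 j U) ∂wT γ p ≤ ∫ U, F (XX q.1 q.2.1 j U) ∂wT γ q + η

/-- the joint limit -/
def Φ : Filter (ℕ × ℕ × ℕ) := ⨅ k, 𝓟 {p | Big k p}

theorem basis : Φ.HasBasis (fun _ => True) fun k => {p | Big k p} :=
  hasBasis_iInf_principal (directed_of_isDirected_le fun _ _ h _ hp =>
    ⟨h.trans hp.1, hp.2.1, (Nat.mul_le_mul_right _ h).trans hp.2.2⟩)

theorem n_pos (J l : ℕ) : 0 < LL l * nn J := Nat.mul_pos (LL_pos l) (M3.nn_pos J)

theorem freq {P : ℕ × ℕ × ℕ → Prop} (j : ℕ)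
    (h : ∀ J ≥ j, ∀ l, Adm J l → ∃ᶠ T in atTop, P (J, l, T)) : ∃ᶠ p in Φ, P p :=
  basis.frequently_iff.2 fun k _ => by
    obtain ⟨T, h1, h2⟩ := ((h (k + j) (by omega) _ (En.adm _)).and_eventually
      (eventually_ge_atTop (k * (LL (ll (k + j)) * nn (k + j))))).exists
    exact ⟨_, ⟨by simp, En.adm _, h2⟩, h1⟩

instance : Φ.NeBot := (frequently_true_iff_neBot _).1 (freq 0 fun _ _ _ _ => .of_forall fun _ => trivial)

theorem sds_pos {J l T : ℕ} (h : 0 < T) (i : Fin 3) : 0 < sds (J, l, T) i := by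
  have := n_pos J l
  fin_cases i <;> simpa [sds]

theorem norm_XX (J l j : ℕ) (U : Conf) (e : Lk) : ‖XX J l j U e‖ ≤ 1 := by
  rw [XX]
  cases J - j <;> exact norm_nrm _

variable [MeasurableSpace ℍ] [BorelSpace ℍ]

/-- the law of the averaged field -/
def pm (γ : ℝ) (j : ℕ) (p : ℕ × ℕ × ℕ) : ProbabilityMeasure FH :=
  ⟨(wT γ p).map (XX p.1 p.2.1 j),
    Measure.isProbabilityMeasure_map (cont_XX ..).measurable.aemeasurable⟩

theorem int_pm (γ : ℝ) (j : ℕ) (p : ℕ × ℕ × ℕ) {φ : FH → ℝ} (c : Measurable φ) :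
    ∫ X, φ X ∂pm γ j p = ∫ U, φ (XX p.1 p.2.1 j U) ∂wT γ p :=
  integral_map (cont_XX ..).measurable.aemeasurable c.aestronglyMeasurable

theorem exists_lim (hC : Cvg) {γ : ℝ} (hγ : 0 < γ) (j : ℕ) :
    ∃ ν : ProbabilityMeasure FH, Tendsto (pm γ j) Φ (𝓝 ν) := by
  have hK : IsCompact (Set.univ.pi fun _ : Lk => Metric.closedBall (0 : ℍ) 1) :=
    isCompact_univ_pi fun _ => isCompact_closedBall _ _
  obtain ⟨ν, -, hν⟩ := (isCompact_setOfPred_probabilityMeasure_mass_eq_compl_isCompact_le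
    (E := FH) (u := fun _ => 0) tendsto_const_nhds (fun _ => hK)
    (.inr monotone_const)).exists_mapClusterPt (f := Φ) (u := pm γ j) (by
      refine tendsto_principal.2 (.of_forall fun p _ => le_of_eq ?_)
      rw [ProbabilityMeasure.null_iff_toMeasure_null]
      refine (Measure.map_apply (cont_XX ..).measurable hK.isClosed.measurableSet.compl).trans ?_
      rw [show XX p.1 p.2.1 j ⁻¹' (Set.univ.pi fun _ : Lk => Metric.closedBall (0 : ℍ) 1)ᶜ = ∅ from
        Set.eq_empty_of_forall_notMem fun U h => h fun e _ =>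
          mem_closedBall_zero_iff.2 (norm_XX _ _ _ U e), measure_empty])
  refine ⟨ν, ProbabilityMeasure.tendsto_iff_forall_integral_tendsto.2 fun F =>
    Metric.tendsto_nhds.2 fun η hη => ?_⟩
  have M0 : 0 < 2 * ‖F‖ + 1 := by positivity
  have b := fun X => abs_le.1 (F.norm_coe_le_norm X)
  obtain ⟨k0, h⟩ := hC γ hγ j (fun X => (F X + ‖F‖) / (2 * ‖F‖ + 1))
    ((F.continuous.add continuous_const).div_const _)
    (fun X => div_nonneg (by linarith [(b X).1]) M0.le)
    (fun X => (div_le_one M0).2 (by linarith [(b X).2])) _ (div_pos (half_pos hη) M0)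
  have i : ∀ p, ∫ U, (F (XX p.1 p.2.1 j U) + ‖F‖) / (2 * ‖F‖ + 1) ∂wT γ p =
      (∫ X, F X ∂pm γ j p + ‖F‖) / (2 * ‖F‖ + 1) := fun p => by
    rw [← int_pm γ j p (φ := fun X => (F X + ‖F‖) / (2 * ‖F‖ + 1)) (by fun_prop), integral_div,
      integral_add (F.integrable _) (integrable_const _)]
    simp
  simp only [i, ← add_div, div_le_div_iff_of_pos_right M0] at h
  refine basis.eventually_iff.2 ⟨k0, trivial, fun p hp => lt_of_le_of_lt ?_ (half_lt_self hη)⟩
  exact (isClosed_le ((continuous_const (y := ∫ X, F X ∂pm γ j p)).dist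
    (ProbabilityMeasure.continuous_integral_boundedContinuousFunction F))
    (continuous_const (y := η / 2))).mem_of_mapClusterPt hν
    (basis.eventually_iff.2 ⟨k0, trivial, fun q hq => by
      have := h p q hp hq
      have := h q p hq hp
      simp only [Set.mem_ofPred_eq, Real.dist_eq]
      exact abs_sub_le_iff.2 ⟨by linarith, by linarith⟩⟩)

variable {γ : ℝ} {j : ℕ} {ν : ProbabilityMeasure FH} (hν : Tendsto (pm γ j) Φ (𝓝 ν))
include hν

theorem lim_int (F : FH →ᵇ ℝ) :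
    Tendsto (fun p => ∫ U, F (XX p.1 p.2.1 j U) ∂wT γ p) Φ (𝓝 (∫ X, F X ∂ν)) :=
  (ProbabilityMeasure.tendsto_iff_forall_integral_tendsto.1 hν F).congr
    fun p => int_pm γ j p F.continuous.measurable

theorem map_of {j' : ℕ} {ν' : ProbabilityMeasure FH} (h' : Tendsto (pm γ j') Φ (𝓝 ν'))
    {S : FH → FH} (c : Continuous S) (e : ∀ F : FH → ℝ, Continuous F → ∃ᶠ p in Φ,
      ∫ U, F (S (XX p.1 p.2.1 j' U)) ∂wT γ p = ∫ U, F (XX p.1 p.2.1 j U) ∂wT γ p) :
    (ν' : Measure FH).map S = ν := by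
  refine ext_of_forall_integral_eq_of_IsFiniteMeasure fun F => ?_
  rw [integral_map c.measurable.aemeasurable F.continuous.aestronglyMeasurable]
  exact tendsto_nhds_unique_of_frequently_eq (lim_int h' (F.compContinuous ⟨S, c⟩)) (lim_int hν F)
    (e F F.continuous)

theorem closed_ge {C : Set FH} (hC : IsClosed C) {a : ℝ}
    (h : ∃ᶠ p in Φ, a ≤ ∫ U, RGP.ind C (XX p.1 p.2.1 j U) ∂wT γ p) : a ≤ (ν : Measure FH).real C := by
  refine (ENNReal.ofReal_le_iff_le_toReal (measure_ne_top _ _)).1 (le_trans ?_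
    (ProbabilityMeasure.limsup_measure_closed_le_of_tendsto hν hC))
  refine le_limsup_of_frequently_le (h.mono fun p hp => ?_)
  rw [← int_pm γ j p (RGP.bm_ind hC.measurableSet).meas] at hp
  exact (ENNReal.ofReal_le_iff_le_toReal (measure_ne_top _ _)).2
    (hp.trans_eq (integral_indicator_one hC.measurableSet))

theorem consistent {ν' : ProbabilityMeasure FH} (h' : Tendsto (pm γ (j + 1)) Φ (𝓝 ν')) :
    (ν' : Measure FH).map (blkH (ll j)) = ν :=
  map_of hν h' (cont_blkH _) fun F _ => freq (j + 1) fun J hJ l _ => .of_forall fun T => by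
    simp only [XX, show J - j = J - (j + 1) + 1 by omega, dnH]

theorem inv_shift (a : St) : (ν : Measure FH).map (sh a) = ν :=
  map_of hν hν (cont_shH a) fun F c => freq j fun J hJ l _ =>
    ((eventually_gt_atTop 0).mono fun T hT => by
      obtain ⟨r, φ, -, h⟩ := cov_XX hJ l
      dsimp only
      rw [wT, ← wN_act _ (sds_pos hT) (F := fun U => F (XX J l j U))
        (c.comp (cont_XX J l j)).measurable RGP.T0 (up r a)]
      exact congrArg _ (funext fun U => congrArg F (h.shift a (qF U)).symm)).frequently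

omit hν [MeasurableSpace ℍ] [BorelSpace ℍ] in
theorem cont_rH (T : Fin 3 → Bool) : Continuous (rH T) := continuous_pi fun b => by
  simp only [rH]
  split_ifs <;> fun_prop

theorem inv_refl (S : Fin 3 → Bool) : (ν : Measure FH).map (rH S) = ν :=
  map_of hν hν (cont_rH S) fun F c => freq j fun J hJ l _ =>
    ((eventually_gt_atTop 0).mono fun T hT => by
      obtain ⟨r, φ, -, h⟩ := cov_XX hJ l
      dsimp only
      rw [wT, ← wN_act _ (sds_pos hT) (F := fun U => F (XX J l j U))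
        (c.comp (cont_XX J l j)).measurable S 0]
      refine congrArg _ (funext fun U => congrArg F ?_)
      rw [XX, XX, qF_act]
      exact (h.refl S _).symm).frequently

omit hν [MeasurableSpace ℍ] [BorelSpace ℍ] in
theorem cont_gH (g : St → S3) : Continuous (gH g) :=
  continuous_pi fun e => (continuous_const.mul (continuous_apply e)).mul continuous_const

omit hν [MeasurableSpace ℍ] [BorelSpace ℍ] in
theorem freq_dvd {P : ℕ} (hP : 0 < P) : ∃ᶠ T in atTop, 0 < T ∧ P ∣ T :=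
  frequently_atTop.2 fun k => ⟨P * (k + 1), by nlinarith, by positivity, dvd_mul_right _ _⟩

theorem inv_gauge0 {g : St → S3} {P : ℕ} (hP : 0 < P) (hg : ∀ x v : St, (P : ℤ) ∣ v 0 →
    (nn j : ℤ) ∣ v 1 → (nn j : ℤ) ∣ v 2 → g (x + v) = g x) : (ν : Measure FH).map (gH g) = ν :=
  map_of hν hν (cont_gH g) fun F c => freq j fun J hJ l _ => by
    obtain ⟨r, φ, e, h⟩ := cov_XX hJ l
    refine (freq_dvd (Nat.mul_pos (LL_pos r) hP)).mono fun T ⟨hT, t, ht⟩ => ?_
    dsimp only
    rw [wT, ← wN_gauge _ (sds_pos hT) (F := fun U => F (XX J l j U))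
      (c.comp (cont_XX J l j)).measurable (g := fun x => g (φ x)) fun x y H => ?_]
    · refine congrArg _ (funext fun U => congrArg F ?_)
      rw [XX, XX, ← gH_q]
      exact (h.gauge g _).symm
    · obtain ⟨a, h0⟩ := H 0
      obtain ⟨b, h1⟩ := H 1
      obtain ⟨c, h2⟩ := H 2
      simp only [zN, sds, ← e, ht, Matrix.cons_val, Nat.cast_mul] at h0 h1 h2
      rw [show y = x + up r ![P * t * a, nn j * b, nn j * c] from funext fun i => by
        fin_cases i <;> simp [up_apply] <;> linarith, h.per]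
      exact (hg _ _ ⟨t * a, by simp [mul_assoc]⟩ (by simp) (by simp)).symm

theorem inv_gauge {g : St → S3} (hg : ∀ x v : St, v 0 = 0 → g (x + (nn j : ℤ) • v) = g x) :
    (ν : Measure FH).map (gH g) = ν := by
  refine ext_of_forall_integral_eq_of_IsFiniteMeasure fun F => ?_
  rw [integral_map (cont_gH g).measurable.aemeasurable F.continuous.aestronglyMeasurable]
  let G : ℕ → St → S3 := fun m x => g (Function.update x 0 ((x 0 + m) % (2 * m + 1 : ℕ) - m))
  have h1 : ∀ m, ∫ X, F (gH (G m) X) ∂ν = ∫ X, F X ∂ν := fun m => by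
    rw [← integral_map (cont_gH _).measurable.aemeasurable F.continuous.aestronglyMeasurable,
      inv_gauge0 hν (P := 2 * m + 1) (by omega) fun x v ⟨a, h0⟩ ⟨b, h1⟩ ⟨c, h2⟩ => ?_]
    refine Eq.trans (congrArg g (funext fun i => ?_)) (hg _ ![0, b, c] rfl)
    fin_cases i <;> simp [h0, h1, h2, add_right_comm (x 0)]
  have h2 : ∀ x, ∀ᶠ m in atTop, G m x = g x := fun x =>
    (eventually_ge_atTop (x 0).natAbs).mono fun m hm => congrArg g (by
      rw [Int.emod_eq_of_lt (by omega) (by omega), add_sub_cancel_right, Function.update_eq_self])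
  refine tendsto_nhds_unique (tendsto_integral_of_dominated_convergence (fun _ => ‖F‖)
    (fun m => (F.continuous.comp (cont_gH (G m))).aestronglyMeasurable) (integrable_const _)
    (fun _ => .of_forall fun _ => F.norm_coe_le_norm _) (.of_forall fun X =>
      (F.continuous.tendsto _).comp (tendsto_pi_nhds.2 fun e => tendsto_const_nhds.congr' ?_)))
    (tendsto_const_nhds.congr fun m => (h1 m).symm)
  filter_upwards [h2 e.1, h2 (e.1 + un e.2)] with m a b
  simp only [gH, gauge, a, b]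

theorem periodic : ∀ᵐ X ∂(ν : Measure FH), ∀ v : St, v 0 = 0 → sh ((nn j : ℤ) • v) X = X := by
  have hC : IsClosed {X : FH | ∀ v : St, v 0 = 0 → sh ((nn j : ℤ) • v) X = X} := by
    simp only [Set.ofPred_forall]
    exact isClosed_iInter fun v => isClosed_iInter fun _ => isClosed_eq (cont_shH _) continuous_id
  refine (prob_compl_eq_zero_iff hC.measurableSet).2 (le_antisymm prob_le_one ?_)
  rw [← ENNReal.ofReal_one, ENNReal.ofReal_le_iff_le_toReal (measure_ne_top _ _)]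
  refine closed_ge hν hC (freq j fun J hJ l _ => ((eventually_gt_atTop 0).mono fun T hT => ?_).frequently)
  obtain ⟨r, φ, e, h⟩ := cov_XX hJ l
  dsimp only
  rw [wT, wN_congr _ (sds_pos hT) (F := fun U => RGP.ind _ (XX J l j U)) ((RGP.bm_ind hC.measurableSet).meas.comp
    (cont_XX J l j).measurable) (measurable_const (a := (1 : ℝ))) fun w => RGP.ind_of_mem fun v hv => ?_]
  · simp
  · refine (h.shift _ _).symm.trans (congrArg (XX J l j) ?_)
    change sh (up r ((nn j : ℤ) • v)) (RGP.pc _ w) = _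
    rw [← act_T0, RGP.act_pc_congr (a' := 0) fun i => ?_, RGP.act_zero]
    fin_cases i <;> simp [zN, sds, ← e, up_apply, hv, ← mul_assoc]

omit hν [MeasurableSpace ℍ] [BorelSpace ℍ] in
theorem refl_pos1 (k : Fin 3) {b J l : ℕ} (hJ : j ≤ J) (hb : k ≠ 0 → b ≤ 3 ^ j ^ 2) (F : FH →ᵇ ℝ)
    (dF : DependsOn F {e | 1 ≤ e.1 k ∧ e.1 k + 1 < b}) : ∃ᶠ T in atTop,
      0 ≤ ∫ U, F (XX J l j U) * F (rH (RGP.T1 k) (XX J l j U)) ∂wT γ (J, l, T) := by
  obtain ⟨r, φ, e, h⟩ := cov_XX hJ l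
  have L := LL_cast r
  refine ((freq_dvd two_pos).and_eventually (eventually_ge_atTop (2 * (LL r * b)))).mono
    fun T ⟨⟨hT, t, ht⟩, h2⟩ => ?_
  obtain ⟨s, h3, h4⟩ : ∃ s : ℕ, sds (J, l, T) k = 2 * s ∧ LL r * b ≤ s := by
    by_cases h0 : k = 0
    · exact ⟨t, h0 ▸ ht, by omega⟩
    · refine ⟨LL r * 3 ^ j ^ 2, ?_, Nat.mul_le_mul_left _ (hb h0)⟩
      have e2 : LL l * nn J = 2 * (LL r * 3 ^ j ^ 2) := by rw [← e, nn]; ring
      fin_cases k
      exacts [absurd rfl h0, e2, e2]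
  have e3 : ∀ U, XX J l j (RGP.act (RGP.T1 k) 0 U) = rH (RGP.T1 k) (XX J l j U) := fun U => by
    rw [XX, XX, qF_act]
    exact h.refl _ _
  simp only [← e3]
  refine wN_pos _ (sds_pos hT) (F := fun U => F (XX J l j U))
    ⟨(F.continuous.comp (cont_XX ..)).measurable, _, fun _ => F.norm_coe_le_norm _⟩ (k := k) (h := s)
    (by rw [zN, h3]; simp) fun U U' H => dF fun e he => ?_
  have u1 : un e.2 k ≤ 1 := by rw [un_apply]; split_ifs <;> omega
  have h5 : (LL r : ℤ) * b ≤ s := by exact_mod_cast h4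
  refine h.loc k 1 (b - 1) _ _ (fun f a1 a2 => congrArg S3.q (H f ⟨by omega, ?_⟩)) e he.1
    (by have := he.2; omega)
  rw [dl_eq]
  nlinarith

theorem refl_pos0 (k : Fin 3) {b : ℕ} (hb : k ≠ 0 → b ≤ 3 ^ j ^ 2) (F : FH →ᵇ ℝ)
    (dF : DependsOn F {e | 1 ≤ e.1 k ∧ e.1 k + 1 < b}) :
    0 ≤ ∫ X, F X * F (rH (RGP.T1 k) X) ∂ν :=
  isClosed_Ici.mem_of_frequently_of_tendsto
    (f := fun p => ∫ U, F (XX p.1 p.2.1 j U) * F (rH (RGP.T1 k) (XX p.1 p.2.1 j U)) ∂wT γ p)
    (freq j fun _ hJ _ _ => refl_pos1 k hJ hb F dF)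
    (lim_int hν (F * F.compContinuous ⟨_, cont_rH (RGP.T1 k)⟩))

omit hν [MeasurableSpace ℍ] [BorelSpace ℍ] in
/-- cutting off a field at large times -/
def cutH (m : ℕ) (X : FH) : FH := fun e => if e.1 0 + 1 < m then X e else 0

theorem refl_pos (k : Fin 3) (F : FH →ᵇ ℝ)
    (dF : DependsOn F {e | 1 ≤ e.1 k ∧ (k ≠ 0 → e.1 k + 1 < 3 ^ j ^ 2)}) :
    0 ≤ ∫ X, F X * F (rH (RGP.T1 k) X) ∂ν := by
  by_cases h0 : k = 0
  swap
  · exact refl_pos0 hν k (fun _ => le_rfl) F (dF.mono fun e he => ⟨he.1, by simpa using he.2 h0⟩)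
  subst h0
  have c : ∀ m, Continuous (cutH m) := fun m => continuous_pi fun e => by
    unfold cutH
    split_ifs
    exacts [continuous_apply _, continuous_const]
  have t : ∀ X, Tendsto (fun m => F (cutH m X)) atTop (𝓝 (F X)) := fun X =>
    (F.continuous.tendsto _).comp (tendsto_pi_nhds.2 fun e => tendsto_const_nhds.congr'
      ((eventually_gt_atTop ((e.1 0).natAbs + 1)).mono fun m hm => (if_pos (by omega)).symm))
  refine ge_of_tendsto' (tendsto_integral_of_dominated_convergence (fun _ => ‖F‖ * ‖F‖)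
    (fun m => ((F.continuous.comp (c m)).mul (F.continuous.comp ((c m).comp
      (cont_rH _)))).aestronglyMeasurable) (integrable_const _)
    (fun _ => .of_forall fun _ => (norm_mul_le _ _).trans (mul_le_mul (F.norm_coe_le_norm _)
      (F.norm_coe_le_norm _) (norm_nonneg _) (norm_nonneg _)))
    (.of_forall fun X => (t X).mul (t _))) fun m => ?_
  refine refl_pos0 hν 0 (b := m) (fun h => absurd rfl h) (F.compContinuous ⟨_, c m⟩)
    fun X X' H => dF fun e he => ?_
  simp only [ContinuousMap.coe_mk, cutH]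
  split_ifs with h
  exacts [H e ⟨he.1, h⟩, rfl]

end Pool.Agent.Lib.MP_7f377f_mp.RG.D3.Hc
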