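import Pool.Agent.Lib.MP_7f377f_mp.HC4B
import Pool.Agent.Lib.MP_7f377f_mp.HEnd

/-! Exponential clustering of the limit of the averaged fields on the cylinder. -/

noncomputable section

namespace Pool.Agent.Lib.MP_7f377f_mp.RG.D3.Hc

open MeasureTheory Filter Topology BoundedContinuousFunction Dt Ds Fi D3.Pv ProbabilityTheory
open scoped Quaternion ENNReal

/-- locality in time of the averaging -/
theorem dep_XX {α : Type} {J l j r : ℕ} {φ : St → St}
    (h : Cov r φ fun X => dnH j (J - j) (blkH l X)) {F : FH → α} {P Q : Set Lk}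
    (dF : DependsOn F P) (H : ∀ e ∈ P, ∀ f : Lk, LL r * e.1 0 - r ≤ f.1 0 →
      f.1 0 + un f.2 0 ≤ LL r * (e.1 0 + un e.2 0) + r → f ∈ Q) :
    DependsOn (fun U => F (XX J l j U)) Q := fun _ _ hU => dF fun e he =>
  h.loc 0 _ _ _ _ (fun f a1 a2 => congrArg S3.q (hU f (H e he f a1 a2))) e le_rfl le_rfl

theorem lat_clus {γ : ℝ} (hγ : 0 < γ) : ∃ Δ > (0 : ℝ), ∃ J0 : ℕ, ∀ J ≥ J0, ∀ l, Adm J l →
    ∃ μ : Measure Conf, IsProbabilityMeasure μ ∧ (∀ F : Conf → ℝ, Continuous F →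
      Tendsto (fun T => ∫ U, F U ∂wT γ (J, l, T)) atTop (𝓝 (∫ U, F U ∂μ))) ∧
      ∀ (s : ℤ) (t : ℕ) (F G : Conf → ℝ), Continuous F → Continuous G →
        DependsOn F {e | e.1 0 + un e.2 0 ≤ s} → DependsOn G {e | s + t ≤ e.1 0} →
        |cov[F, G; μ]| ≤ Real.exp (-(Δ * t / (LL l * nn J : ℕ))) * √Var[F; μ] * √Var[G; μ] := by
  obtain ⟨Δ, hΔ, C, -, J0, H⟩ := Y6.vac_main Y6.mix_main (tr haar) hγ
  refine ⟨Δ, hΔ, J0, fun J hJ l hl => ?_⟩
  have np := n_pos J l
  have : NeZero (LL l * nn J) := ⟨np.ne'⟩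
  obtain ⟨a, r, e, V, hr, -⟩ := H J l hJ hl _ (LL l * 3 ^ J ^ 2 - 1) rfl
    (Nat.sub_add_cancel (Nat.mul_pos (LL_pos l) (by positivity)))
  have r1 : r < 1 := hr.trans_lt (Real.exp_lt_one_iff.2 (neg_lt_zero.2 (by positivity)))
  obtain ⟨μ, i, hμ⟩ := Y6.exists_lim V r1
  refine ⟨μ, i, hμ, fun s t F G cF cG dF dG => (Y6.clus_cov V r1 hμ cF cG dF dG).trans
    (mul_le_mul_of_nonneg_right (mul_le_mul_of_nonneg_right
      ((pow_le_pow_left₀ V.r0 hr _).trans_eq ?_) (Real.sqrt_nonneg _)) (Real.sqrt_nonneg _))⟩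
  rw [← Real.exp_nat_mul]
  congr 1
  ring

variable [MeasurableSpace ℍ] [BorelSpace ℍ]

theorem cont_cov (F G : FH →ᵇ ℝ) :
    Continuous fun ρ : ProbabilityMeasure FH => cov[F, G; (ρ : Measure FH)] := by
  have m : ∀ (F : FH →ᵇ ℝ) (ρ : ProbabilityMeasure FH), MemLp F 2 (ρ : Measure FH) := fun F ρ =>
    .of_bound F.continuous.aestronglyMeasurable _ (.of_forall F.norm_coe_le_norm)
  simp only [fun ρ => covariance_eq_sub (m F ρ) (m G ρ)]
  exact (ProbabilityMeasure.continuous_integral_boundedContinuousFunction (F * G)).sub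
    ((ProbabilityMeasure.continuous_integral_boundedContinuousFunction F).mul
      (ProbabilityMeasure.continuous_integral_boundedContinuousFunction G))

theorem cont_var (F : FH →ᵇ ℝ) :
    Continuous fun ρ : ProbabilityMeasure FH => Var[F; (ρ : Measure FH)] :=
  (cont_cov F F).congr fun _ => covariance_self F.continuous.aemeasurable

theorem ge_of_lim {γ : ℝ} {j : ℕ} {ν : ProbabilityMeasure FH} (hν : Tendsto (pm γ j) Φ (𝓝 ν))
    {Ψ : ProbabilityMeasure FH → ℝ} (c : Continuous Ψ) (j0 : ℕ)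
    (h : ∀ J ≥ j0, ∀ l, Adm J l → ∃ ρ, 0 ≤ Ψ ρ ∧ Tendsto (fun T => pm γ j (J, l, T)) atTop (𝓝 ρ)) :
    0 ≤ Ψ ν := by
  refine le_of_forall_lt_imp_le_of_dense fun a ha => isClosed_Ici.mem_of_frequently_of_tendsto
    (freq j0 fun J hJ l hl => ?_) ((c.tendsto ν).comp hν)
  obtain ⟨ρ, h1, h2⟩ := h J hJ l hl
  exact (((c.tendsto ρ).comp h2).eventually (eventually_ge_nhds (ha.trans_le h1))).frequently

theorem clustering {γ : ℝ} (hγ : 0 < γ) : ∃ Δ > (0 : ℝ), ∀ (j : ℕ) (ν : ProbabilityMeasure FH),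
    Tendsto (pm γ j) Φ (𝓝 ν) → ∀ (s : ℤ) (t : ℕ) (F G : FH →ᵇ ℝ),
      DependsOn F {e | e.1 0 + un e.2 0 ≤ s} → DependsOn G {e | s + t + 1 ≤ e.1 0} →
      |cov[F, G; (ν : Measure FH)]| ≤
        Real.exp (-(Δ * t / nn j)) * √Var[F; (ν : Measure FH)] * √Var[G; (ν : Measure FH)] := by
  obtain ⟨Δ, hΔ, J0, H⟩ := lat_clus hγ
  refine ⟨Δ, hΔ, fun j ν hν s t F G dF dG => sub_nonneg.1 (ge_of_lim hν
    (Ψ := fun ρ => Real.exp (-(Δ * t / nn j)) * √Var[F; (ρ : Measure FH)] *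
      √Var[G; (ρ : Measure FH)] - |cov[F, G; (ρ : Measure FH)]|)
    (((continuous_const.mul (cont_var F).sqrt).mul (cont_var G).sqrt).sub (cont_cov F G).abs)
    (J0 + j) fun J hJ l hl => ?_)⟩
  obtain ⟨μ, _, hμ, hc⟩ := H J (by omega) l hl
  obtain ⟨R, φ, e1, h⟩ := cov_XX (show j ≤ J by omega) l
  have mX := (cont_XX J l j).measurable
  refine ⟨⟨μ.map (XX J l j), Measure.isProbabilityMeasure_map mX.aemeasurable⟩,
    sub_nonneg.2 ?_, ProbabilityMeasure.tendsto_iff_forall_integral_tendsto.2 fun K => ?_⟩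
  · have L := LL_cast R
    have key := hc (LL R * s + R) (LL R * t) (fun U => F (XX J l j U)) (fun U => G (XX J l j U))
      (F.continuous.comp (cont_XX ..)) (G.continuous.comp (cont_XX ..))
      (dep_XX h dF fun e he f _ a2 => a2.trans (by
        have : e.1 0 + un e.2 0 ≤ s := he
        nlinarith))
      (dep_XX h dG fun e he f a1 _ => le_trans (by
        have : s + t + 1 ≤ e.1 0 := he
        push_cast
        nlinarith) a1)
    rw [ProbabilityMeasure.coe_mk, covariance_map F.continuous.aestronglyMeasurable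
      G.continuous.aestronglyMeasurable mX.aemeasurable, variance_map F.continuous.aemeasurable
      mX.aemeasurable, variance_map G.continuous.aemeasurable mX.aemeasurable]
    have := LL_pos' R
    have := nn_pos' j
    rwa [← e1, show Δ * (LL R * t : ℕ) / (LL R * nn j : ℕ) = Δ * t / nn j by
      push_cast; field_simp] at key
  · simp only [int_pm γ j _ K.continuous.measurable]
    rw [ProbabilityMeasure.coe_mk, integral_map mX.aemeasurable K.continuous.aestronglyMeasurable]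
    exact hμ _ (K.continuous.comp (cont_XX J l j))

end Pool.Agent.Lib.MP_7f377f_mp.RG.D3.Hc
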