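import Pool.Agent.Lib.MP_7f377f_mp.HC4C
import Pool.Agent.Lib.MP_7f377f_mp.A3UV

/-! Regularity and non-degeneracy of the limit of the averaged fields on the cylinder. -/

noncomputable section

namespace Pool.Agent.Lib.MP_7f377f_mp.RG.D3.Hc

open MeasureTheory Filter Topology BoundedContinuousFunction Dt Ds Fi D3.Pv ProbabilityTheory
open scoped Quaternion ENNReal

theorem cvg_main : Cvg := fun γ hγ j F c F0 F1 η hη => by
  obtain ⟨k0, h⟩ := An.cvg hγ j c F0 F1 hη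
  exact ⟨k0, fun p q hp hq => h _ _ _ _ _ _ hp.1 hq.1 hp.2.1 hq.2.1 hp.2.2 hq.2.2⟩

variable [MeasurableSpace ℍ] [BorelSpace ℍ]

theorem big_ge {γ : ℝ} {j : ℕ} {ν : ProbabilityMeasure FH} (hν : Tendsto (pm γ j) Φ (𝓝 ν))
    {C : Set FH} (hC : IsClosed C) {a : ℝ} (h : ∃ k0 : ℕ, ∀ J l T, k0 ≤ J → Adm J l →
      k0 * (LL l * nn J) ≤ T → a ≤ ∫ U, RGP.ind C (XX J l j U) ∂An.wT γ J l T) :
    a ≤ (ν : Measure FH).real C := by
  obtain ⟨k0, h⟩ := h
  exact closed_ge hν hC (basis.eventually_iff.2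
    ⟨k0, trivial, fun p hp => h _ _ _ hp.1 hp.2.1 hp.2.2⟩).frequently

variable {γ : ℝ} (hγ : 0 < γ) {ν : ℕ → ProbabilityMeasure FH}
  (hν : ∀ j, Tendsto (pm γ j) Φ (𝓝 (ν j)))
include hγ hν

theorem regular {α : ℝ} (hα : α < 2⁻¹) : Tendsto (fun j => (ν j).toMeasure.real
    {X | ∀ x : St, |x 0| ≤ nn j → ∀ i, ‖X (x, i)‖ = 1 ∧
      ∀ k, ‖YC.plaq X x i k - 1‖ ≤ (nn j : ℝ) ^ (-α)}) atTop (𝓝 1) := by
  refine tendsto_order.2 ⟨fun b h0 => ?_, fun b h0 => .of_forall fun j =>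
    measureReal_le_one.trans_lt h0⟩
  have hη : 0 < (1 - b) / 2 := by linarith
  filter_upwards [An.reg_T hγ hα hη] with j h1
  refine lt_of_lt_of_le (by linarith) (big_ge (hν j) ?_ h1)
  simp only [Set.ofPred_and, Set.ofPred_forall]
  exact isClosed_iInter fun x => isClosed_iInter fun _ => isClosed_iInter fun i =>
    (isClosed_eq (continuous_apply _).norm continuous_const).inter
      (isClosed_iInter fun k => isClosed_le (An.cont_pl x i k) continuous_const)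

theorem nondeg : ∃ c > 0, ∀ᶠ j in atTop,
    3⁻¹ ≤ (ν j).toMeasure.real {X | c / √(nn j) ≤ ‖YC.plaq X 0 0 1 - 1‖} := by
  obtain ⟨c, c0, h⟩ := An.non_T hγ
  exact ⟨c, c0, h.mono fun j h1 =>
    big_ge (hν j) (isClosed_le continuous_const (An.cont_pl ..)) h1⟩

end Pool.Agent.Lib.MP_7f377f_mp.RG.D3.Hc
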