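import Pool.Agent.Lib.MP_7f377f_mp.HC4D

/-! The continuum limit on the cylinder and its mass gap. -/

noncomputable section

namespace Pool.Agent.Lib.MP_7f377f_mp.RG.D3.Hc

open MeasureTheory Filter Topology BoundedContinuousFunction Dt Ds Fi D3.Pv ProbabilityTheory
open scoped Quaternion ENNReal

variable [MeasurableSpace ℍ] [BorelSpace ℍ]

omit [MeasurableSpace ℍ] [BorelSpace ℍ] in
theorem mean_eq (γ : ℝ) (T l k j : ℕ) (F : FH → ℝ) : @YC.mean mS (tr haar) _ γ T l k j F =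
    ∫ U, F (XX (j + k) l j U) ∂wT γ (j + k, l, T) := by
  simp only [YC.mean, iter_eq, XX, Nat.add_sub_cancel_left]
  rfl

open YC in
/-- the properties of the limit -/
def Lim [MeasurableSpace SU2] (h : Measure SU2) [IsProbabilityMeasure h] (γ : ℝ)
    (ν : ℕ → Measure YC.Fld) : Prop :=
  (∀ j, IsProbabilityMeasure (ν j) ∧ ν j = (ν (j + 1)).map (block (3 ^ (2 * j + 1) / 2))) ∧
  (∀ j (F : YC.Fld →ᵇ ℝ), ∀ η > 0, ∃ k0, ∀ k ≥ k0, ∀ l : ℕ,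
    3 ^ (2 * (j + k) + 1) ≤ 2 * l + 1 → 2 * l + 1 ≤ 27 ^ (2 * (j + k) + 1) →
      ∀ T ≥ k0 * ((2 * l + 1) * side (j + k)), |YC.mean h γ T l k j F - ∫ X, F X ∂ν j| ≤ η) ∧
  (∀ j, (∀ᵐ X ∂ν j, ∀ v : Fin 3 → ℤ, v 0 = 0 → shift ((side j : ℤ) • v) X = X) ∧
    (∀ a, (ν j).map (shift a) = ν j) ∧
    (∀ g, (∀ x v : Fin 3 → ℤ, v 0 = 0 → g (x + (side j : ℤ) • v) = g x) →
      (ν j).map (YC.gauge g) = ν j) ∧
    ∀ k, (ν j).map (YC.refl k) = ν j ∧ ∀ F : YC.Fld →ᵇ ℝ,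
      DependsOn F {e | 1 ≤ e.1 k ∧ (k ≠ 0 → e.1 k + 1 < 3 ^ j ^ 2)} →
        0 ≤ ∫ X, F X * F (YC.refl k X) ∂ν j) ∧
  (∀ α < (2⁻¹ : ℝ), Tendsto (fun j => (ν j).real {X | ∀ x, |x 0| ≤ (side j : ℤ) → ∀ i,
    ‖X (x, i)‖ = 1 ∧ ∀ k, ‖plaq X x i k - 1‖ ≤ (side j : ℝ) ^ (-α)}) atTop (𝓝 1)) ∧
  (∃ c > 0, ∀ᶠ j in atTop, 3⁻¹ ≤ (ν j).real {X | c / √(side j) ≤ ‖plaq X 0 0 1 - 1‖}) ∧
  ∃ Δ > (0 : ℝ), ∀ (j : ℕ) (s : ℤ) (t : ℕ) (F G : YC.Fld →ᵇ ℝ),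
    DependsOn F {e | (e.1 + Pi.single e.2 1 : Fin 3 → ℤ) 0 ≤ s} → DependsOn G {e | s + t < e.1 0} →
      |cov[F, G; ν j]| ≤ Real.exp (-(Δ * t / side j)) * √Var[F; ν j] * √Var[G; ν j]

theorem lim_of {γ : ℝ} (hγ : 0 < γ) {ν : ℕ → ProbabilityMeasure FH}
    (h1 : ∀ j, Tendsto (pm γ j) Φ (𝓝 (ν j))) : @Lim _ mS (tr haar) _ γ fun j => ν j := by
  obtain ⟨Δ, hΔ, hc⟩ := clustering hγ
  refine ⟨fun j => ⟨inferInstance, ?_⟩, fun j F η hη => ?_, fun j => ⟨periodic (h1 j),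
    inv_shift (h1 j), fun g hg => inv_gauge (h1 j) hg, fun k => ?_⟩,
    fun α hα => regular hγ h1 hα, nondeg hγ h1, Δ, hΔ, fun j s t F G dF dG =>
      hc j _ (h1 j) s t F G dF dG⟩
  · rw [block_eq]
    exact (consistent (h1 j) (h1 (j + 1))).symm
  · obtain ⟨k0, -, hk⟩ := basis.eventually_iff.1
      ((lim_int (h1 j) F).eventually (Metric.closedBall_mem_nhds _ hη))
    refine ⟨k0, fun k hk' l h5 h6 T hT => ?_⟩
    rw [mean_eq]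
    exact hk (x := (j + k, l, T)) ⟨by omega, adm_of h5 h6, hT⟩
  · rw [refl_eq]
    exact ⟨inv_refl (h1 j) _, refl_pos (h1 j) k⟩

theorem main [m : MeasurableSpace YC.SU2] [BorelSpace YC.SU2] (h : Measure YC.SU2)
    [h.IsHaarMeasure] [IsProbabilityMeasure h] {γ : ℝ} (hγ : 0 < γ) : ∃ ν, Lim h γ ν := by
  obtain rfl : m = mS := BorelSpace.measurable_eq
  obtain rfl := Measure.isHaarMeasure_eq_of_isProbabilityMeasure h (tr haar)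
  choose ν h1 using exists_lim cvg_main hγ
  exact ⟨_, lim_of hγ h1⟩

end Pool.Agent.Lib.MP_7f377f_mp.RG.D3.Hc
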