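import Pool.Agent.Lib.MP_7f377f_mp.R3DetS

/-! Reflection positivity and logarithmic convexity: a lower bound on a correlation function. -/

noncomputable section

namespace Pool.Agent.Lib.MP_7f377f_mp.RG.D3.Hm5

open MeasureTheory Filter Topology BoundedContinuousFunction Dt Ds D3.Pv ProbabilityTheory
open scoped Quaternion

set_option linter.unusedSectionVars false

theorem log_conv {g : ℕ → ℝ} (g0 : ∀ t, 0 ≤ g t) (h : ∀ t, g (t + 1) ^ 2 ≤ g t * g (t + 2))
    (h1 : 0 < g 1) : ∃ c > (0 : ℝ), ∃ M : ℝ, ∀ t : ℕ, c * Real.exp (-(M * t)) ≤ g t := by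
  have p0 : 0 < g 0 := (g0 0).lt_of_ne' fun e => by
    have := h 0
    rw [e, zero_mul] at this
    nlinarith
  have key : ∀ t, 0 < g t ∧ g 1 / g 0 * g t ≤ g (t + 1) := fun t => by
    induction t with
    | zero => exact ⟨p0, (div_mul_cancel₀ _ p0.ne').le⟩
    | succ t ih =>
      have p : 0 < g (t + 1) := (mul_pos (div_pos h1 p0) ih.1).trans_le ih.2
      refine ⟨p, le_of_mul_le_mul_left (le_trans ?_ (h t)) ih.1⟩
      nlinarith [mul_le_mul_of_nonneg_right ih.2 p.le]
  refine ⟨g 0, p0, -Real.log (g 1 / g 0), fun t => ?_⟩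
  rw [neg_mul, neg_neg, mul_comm (Real.log _), Real.exp_nat_mul, Real.exp_log (div_pos h1 p0)]
  induction t with
  | zero => simp
  | succ t ih =>
    refine le_trans ?_ (key t).2
    rw [pow_succ, ← mul_assoc, mul_comm]
    exact mul_le_mul_of_nonneg_left ih (div_pos h1 p0).le

/-- the reflection of time -/
abbrev th : FH → FH := rH (RGP.T1 0)

theorem cont_th : Continuous th := continuous_pi fun b => by
  simp only [rH]
  split_ifs <;> fun_prop

theorem th_th (X : FH) : th (th X) = X := by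
  funext ⟨x, μ⟩
  simp only [rH]
  split_ifs with h
  · rw [star_star, sub_eq_add_neg (rf _ x), rf_add, rf_rf, ← neg_one_smul ℤ (un μ), rf_smul, rf_un,
      if_pos h]
    simp
  · rw [rf_rf]

/-- translation in time -/
def tau (t : ℤ) : C(FH, FH) := ⟨sh (Pi.single 0 t), cont_shH _⟩

theorem tau_tau (s t : ℤ) (X : FH) : tau s (tau t X) = tau (s + t) X := by
  simp only [tau, ContinuousMap.coe_mk, sh_sh, Pi.single_add]

theorem tau_th (s : ℤ) (X : FH) : tau s (th X) = th (tau (-s) X) := by
  simp only [tau, ContinuousMap.coe_mk, sh_rH]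
  congr 2
  funext i
  by_cases h : i = 0 <;> simp [rf, RGP.T1, h]

theorem dep_tau {α : Type} {F : FH → α} {a : ℤ} (h : DependsOn F {e | a ≤ e.1 0}) (t : ℤ) :
    DependsOn (fun X => F (tau t X)) {e | a + t ≤ e.1 0} := fun _ _ H => h fun e he =>
  H _ (by simpa using he)

variable [MeasurableSpace ℍ] [BorelSpace ℍ] {ν : Measure FH} [IsProbabilityMeasure ν]

theorem int_inv {S : FH → FH} (c : Continuous S) (h : ν.map S = ν) {F : FH → ℝ} (cF : Continuous F) :
    ∫ X, F (S X) ∂ν = ∫ X, F X ∂ν := by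
  rw [← integral_map c.measurable.aemeasurable cF.aestronglyMeasurable, h]

variable (ν) in
/-- the reflected covariance -/
def bf (F G : FH →ᵇ ℝ) : ℝ := ∫ X, F (th X) * G X ∂ν - (∫ X, F X ∂ν) * ∫ X, G X ∂ν

variable (hs : ∀ a, ν.map (sh a) = ν) (hr : ν.map th = ν)
  (hp : ∀ F : FH →ᵇ ℝ, DependsOn F {e | 1 ≤ e.1 0} → 0 ≤ ∫ X, F X * F (th X) ∂ν)

include hr in
theorem bf_cov (F G : FH →ᵇ ℝ) : bf ν F G = cov[fun X => F (th X), G; ν] := by
  have m : ∀ F : FH →ᵇ ℝ, MemLp F 2 ν := fun F =>
    .of_bound F.continuous.aestronglyMeasurable _ (.of_forall F.norm_coe_le_norm)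
  rw [bf, ← int_inv cont_th hr F.continuous]
  exact (covariance_eq_sub (m (F.compContinuous ⟨_, cont_th⟩)) (m G)).symm

include hr hp in
theorem bf_cs {F G : FH →ᵇ ℝ} (dF : DependsOn F {e | 1 ≤ e.1 0})
    (dG : DependsOn G {e | 1 ≤ e.1 0}) : 0 ≤ bf ν F F ∧ bf ν F G ^ 2 ≤ bf ν F F * bf ν G G := by
  have i : ∀ F G : FH →ᵇ ℝ, Integrable (fun X => F (th X) * G X) ν := fun F G =>
    (F.compContinuous ⟨_, cont_th⟩ * G).integrable ν
  have i1 : ∀ F : FH →ᵇ ℝ, Integrable (fun X => F (th X)) ν := fun F =>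
    (F.compContinuous ⟨_, cont_th⟩).integrable ν
  have sy : ∫ X, G (th X) * F X ∂ν = ∫ X, F (th X) * G X ∂ν := by
    rw [← int_inv cont_th hr (F := fun X => G (th X) * F X)
      ((G.continuous.comp cont_th).mul F.continuous)]
    simp only [th_th, mul_comm]
  have q : ∀ s t : ℝ, 0 ≤ bf ν F F * (s * s) + 2 * bf ν F G * (s * t) + bf ν G G * (t * t) := by
    intro s t
    obtain ⟨c, hc⟩ : ∃ c, c = s * ∫ X, F X ∂ν + t * ∫ X, G X ∂ν := ⟨_, rfl⟩
    refine (hp (s • F + t • G - const FH c) fun X X' h => by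
      simp only [coe_sub, coe_add, coe_smul, Pi.sub_apply, Pi.add_apply, const_apply, dF h,
        dG h]).trans_eq ?_
    have e : ∀ X, (s • F + t • G - const FH c) X * (s • F + t • G - const FH c) (th X) =
        s * s * (F (th X) * F X) + s * t * (F (th X) * G X) + s * t * (G (th X) * F X) +
          t * t * (G (th X) * G X) - c * s * F X - c * t * G X - c * s * F (th X) -
          c * t * G (th X) + c * c := fun X => by
      simp only [coe_sub, coe_add, coe_smul, Pi.sub_apply, Pi.add_apply, const_apply, smul_eq_mul]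
      ring
    have a1 := ((i F F).const_mul (s * s)).fun_add ((i F G).const_mul (s * t))
    have a2 := a1.fun_add ((i G F).const_mul (s * t))
    have a3 := a2.fun_add ((i G G).const_mul (t * t))
    have a4 := a3.sub' ((F.integrable ν).const_mul (c * s))
    have a5 := a4.sub' ((G.integrable ν).const_mul (c * t))
    have a6 := a5.sub' ((i1 F).const_mul (c * s))
    have a7 := a6.sub' ((i1 G).const_mul (c * t))
    simp only [e]
    rw [integral_add a7 (integrable_const _), integral_sub a6 ((i1 G).const_mul _),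
      integral_sub a5 ((i1 F).const_mul _), integral_sub a4 ((G.integrable ν).const_mul _),
      integral_sub a3 ((F.integrable ν).const_mul _), integral_add a2 ((i G G).const_mul _),
      integral_add a1 ((i G F).const_mul _),
      integral_add ((i F F).const_mul _) ((i F G).const_mul _)]
    simp only [integral_const_mul, sy, int_inv cont_th hr F.continuous,
      int_inv cont_th hr G.continuous, integral_const, probReal_univ, smul_eq_mul, bf, hc]
    ring
  refine ⟨by simpa using q 1 0, ?_⟩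
  have := discrim_le_zero (a := bf ν F F) (b := 2 * bf ν F G) (c := bf ν G G) fun s => by
    simpa using q s 1
  rw [discrim] at this
  linarith

include hs in
theorem bf_tau (F : FH →ᵇ ℝ) (s t : ℤ) : bf ν (F.compContinuous (tau s)) (F.compContinuous (tau t)) =
    bf ν F (F.compContinuous (tau (s + t))) := by
  have k : ∀ s, ∫ X, F (tau s X) ∂ν = ∫ X, F X ∂ν := fun s =>
    int_inv (tau s).continuous (hs _) F.continuous
  simp only [bf, compContinuous_apply, k, tau_th]
  rw [← int_inv (tau s).continuous (hs _) (F := fun X => F (th (tau (-s) X)) * F (tau t X))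
    ((F.continuous.comp (cont_th.comp (tau _).continuous)).mul
      (F.continuous.comp (tau _).continuous))]
  simp only [tau_tau, neg_add_cancel, add_comm t s]
  simp [tau]

include hs hr hp in
theorem decay {F G : FH →ᵇ ℝ} (dF : DependsOn F {e | 1 ≤ e.1 0}) (dG : DependsOn G {e | 1 ≤ e.1 0})
    (h : bf ν G (F.compContinuous (tau 1)) ≠ 0) : ∃ c > (0 : ℝ), ∃ M : ℝ, ∀ t : ℕ,
      c * Real.exp (-(M * t)) ≤
        cov[fun X => F (th X), fun X => F (sh (Pi.single 0 (2 * t : ℤ)) X); ν] := by
  have d : ∀ t : ℕ, DependsOn (F.compContinuous (tau t)) {e | 1 ≤ e.1 0} := fun t =>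
    (dep_tau dF t).mono fun e he => le_trans (by omega) (show 1 + (t : ℤ) ≤ e.1 0 from he)
  have e : ∀ t : ℕ, cov[fun X => F (th X), fun X => F (sh (Pi.single 0 (2 * t : ℤ)) X); ν] =
      bf ν (F.compContinuous (tau t)) (F.compContinuous (tau t)) := fun t => by
    rw [bf_tau hs, bf_cov hr, two_mul]
    rfl
  simp only [e]
  refine log_conv (fun t => (bf_cs hr hp (d t) (d t)).1) (fun t => le_of_eq_of_le ?_
    (bf_cs hr hp (d t) (d (t + 2))).2) ((bf_cs hr hp (d 1) (d 1)).1.lt_of_ne' fun h0 => h ?_)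
  · rw [bf_tau hs, bf_tau hs]
    congr 4
    push_cast
    ring
  · have := (bf_cs hr hp dG (d 1)).2
    rw [h0, mul_zero] at this
    exact pow_eq_zero_iff two_ne_zero |>.1 (le_antisymm this (sq_nonneg _))

omit [MeasurableSpace ℍ] [BorelSpace ℍ] in
/-- two almost equal and well spread variables are not independent -/
theorem not_indep {Ω : Type} [MeasurableSpace Ω] {μ : Measure Ω} [IsProbabilityMeasure μ]
    {O O' : Ω → ℝ} (mO : Measurable O) (mO' : Measurable O') {ε : ℝ} (hε : ε ≤ 1 / 40)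
    (h1 : 1 - ε ≤ μ.real {x | |O x - O' x| ≤ 2})
    (h2 : ∀ t, 1 - ε ≤ μ.real {x | O' x ≤ t ∨ t + 1 / 2 ≤ O' x}) : ¬ IndepFun O O' μ := fun h => by
  have m : MeasurableSet {p : ℝ × ℝ | |p.1 - p.2| ≤ 2} :=
    measurableSet_le (measurable_fst.sub measurable_snd).abs measurable_const
  have := Measure.isProbabilityMeasure_map (μ := μ) mO.aemeasurable
  have := Measure.isProbabilityMeasure_map (μ := μ) mO'.aemeasurable
  have h3 : ∀ t, μ {x | t < O' x ∧ O' x < t + 1 / 2} ≤ ENNReal.ofReal ε := fun t => by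
    have ms : MeasurableSet {x | O' x ≤ t ∨ t + 1 / 2 ≤ O' x} :=
      (measurableSet_le mO' measurable_const).union (measurableSet_le measurable_const mO')
    have := probReal_compl_eq_one_sub (μ := μ) ms
    simp only [Set.compl_ofPred, not_or, not_le] at this
    rw [ENNReal.le_ofReal_iff_toReal_le (measure_ne_top _ _) (by
      linarith [h2 t, measureReal_le_one (μ := μ) (s := {x | O' x ≤ t ∨ t + 1 / 2 ≤ O' x})])]
    exact this.trans_le (by linarith [h2 t])
  have h4 : ∀ a, μ.map O' (Prod.mk a ⁻¹' {p : ℝ × ℝ | |p.1 - p.2| ≤ 2}) ≤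
      17 * ENNReal.ofReal ε := fun a => by
    rw [Measure.map_apply mO' (measurable_prodMk_left m)]
    refine (measure_mono (t := ⋃ k ∈ Finset.range 17,
      {x | a - 9 / 4 + k / 4 < O' x ∧ O' x < a - 9 / 4 + k / 4 + 1 / 2}) fun x hx => ?_).trans
      ((measure_biUnion_finset_le _ _).trans ((Finset.sum_le_card_nsmul _ _ _ fun k _ => h3 _).trans_eq
        (by simp)))
    have hx := abs_le.1 (show |a - O' x| ≤ 2 from hx)
    have p : 0 ≤ 4 * (O' x - a + 2) := by linarith
    have b1 := Nat.floor_le p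
    have b2 := Nat.lt_floor_add_one (4 * (O' x - a + 2))
    refine Set.mem_biUnion (Finset.mem_coe.2 (Finset.mem_range.2
      ((Nat.floor_lt p).2 (by push_cast; linarith)))) ⟨by linarith, by linarith⟩
  have h5 : μ {x | |O x - O' x| ≤ 2} ≤ 17 * ENNReal.ofReal ε := by
    have := Measure.map_apply (μ := μ) (mO.prodMk mO') m
    rw [(indepFun_iff_map_prod_eq_prod_map_map mO.aemeasurable mO'.aemeasurable).1 h,
      Measure.prod_apply m] at this
    exact this.symm.trans_le ((lintegral_mono h4).trans_eq (by simp))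
  have e0 : 0 ≤ ε := by linarith [measureReal_le_one (μ := μ) (s := {x | |O x - O' x| ≤ 2})]
  have := ENNReal.toReal_mono (by finiteness) h5
  rw [ENNReal.toReal_mul, ENNReal.toReal_ofReal e0] at this
  norm_num at this
  linarith [show μ.real {x | |O x - O' x| ≤ 2} ≤ 17 * ε from this]

end Pool.Agent.Lib.MP_7f377f_mp.RG.D3.Hm5
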