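import Pool.Agent.Lib.MP_7f377f_mp.HC4A
import Pool.Agent.Lib.MP_7f377f_mp.HC5A
import Pool.Agent.Lib.MP_7f377f_mp.HEnd
import Pool.Agent.Lib.MP_7f377f_mp.HFin

/-! The mass of the limit of the averaged fields on the cylinder is finite. -/

noncomputable section

namespace Pool.Agent.Lib.MP_7f377f_mp.RG.D3.Hm5

open MeasureTheory Filter Topology BoundedContinuousFunction Dt Ds Fi D3.Pv ProbabilityTheory Hc
open scoped Quaternion ENNReal

/-- gauge invariant observables which are stable at the scale of the fluctuations of level `j` -/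
structure Ob (j : ℕ) (Λ : ℝ) (O : FH → ℝ) : Prop where
  cont : Continuous O
  gauge : ∀ u X, O (gH u X) = O X
  lip : ∀ (X X' : Conf) (d : ℝ), (∀ f, ‖(X f).q - (X' f).q‖ ≤ d) →
    |O (qF X) - O (qF X')| ≤ Λ * √(nn j) * d

/-- an observable of a time slice which is persistent in time and well spread -/
def LevS : Prop := ∀ γ > (0 : ℝ), ∀ e > (0 : ℝ), ∃ Λ : ℝ, ∀ᶠ j in atTop, ∃ O : FH → ℝ, Ob j Λ O ∧
  DependsOn O (Hf.Tw 0 1) ∧ ∀ J l, j ≤ J → Adm J l → ∃ y : St,
    (law γ J l (J - j)).real {U | 1 < |O (sh y (qF U)) - O (tau 4 (sh y (qF U)))|} ≤ e ∧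
    ∀ t, (law γ J l (J - j)).real
      {U | t < O (tau 4 (sh y (qF U))) ∧ O (tau 4 (sh y (qF U))) ≤ t + 1} ≤ e

variable {j : ℕ} {Λ : ℝ} {O O' : FH → ℝ}

theorem Ob.shift (h : Ob j Λ O) (y : St) : Ob j Λ fun X => O (sh y X) :=
  ⟨h.cont.comp (cont_shH y), fun u X => by rw [sh_gH, h.gauge],
    fun X X' d H => h.lip (sh y X) (sh y X') d fun _ => H _⟩

theorem Ob.comp (h : Ob j Λ O) {φ : ℝ → ℝ} (c : ∀ a b, φ a ≤ φ b + |a - b|) :
    Ob j Λ fun X => φ (O X) :=
  ⟨(LipschitzWith.of_le_add c).continuous.comp h.cont, fun u X => by rw [h.gauge], fun X X' d H =>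
    le_trans (by simpa [Real.dist_eq] using
      (LipschitzWith.of_le_add c).dist_le_mul (O (qF X)) (O (qF X'))) (h.lip X X' d H)⟩

theorem Ob.sub (h : Ob j Λ O) (h' : Ob j Λ O') : Ob j (2 * Λ) fun X => O X - O' X :=
  ⟨h.cont.sub h'.cont, fun u X => by rw [h.gauge, h'.gauge], fun X X' d H => by
    have a := abs_le.1 (h.lip X X' d H)
    have b := abs_le.1 (h'.lip X X' d H)
    exact abs_le.2 ⟨by linarith, by linarith⟩⟩

theorem shift_T (β : ℝ) {N : Fin 3 → ℕ} (hN : ∀ i, 0 < N i) {J : ℕ} (hJ : j ≤ J) (l : ℕ)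
    {F : FH → ℝ} (mF : Measurable fun U => F (XX J l j U)) (y : St) :
    ∫ U, F (sh y (XX J l j U)) ∂wN β N = ∫ U, F (XX J l j U) ∂wN β N := by
  obtain ⟨r, φ, -, h⟩ := cov_XX hJ l
  rw [← wN_act _ hN mF RGP.T0 (up r y)]
  exact congrArg _ (funext fun U => congrArg F (h.shift y (qF U)).symm)

/-- from the law of a level to the averaged field on the cube -/
theorem cube_le {γ η : ℝ} (hγ : 0 < γ) (hη : 0 < η) : ∀ᶠ j in atTop, ∀ J l, j ≤ J → Adm J l →
    ∀ Λ O, Ob j Λ O → ∀ y : St, ∫ U, RGP.ind {X | 2 * Λ * 2⁻¹ ^ j < O X} (XX J l j U)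
      ∂wN (γ * (LL l * nn J : ℕ)) ![LL l * nn J, LL l * nn J, LL l * nn J] ≤
      (law γ J l (J - j)).real {U | 0 < O (sh y (qF U))} + η := by
  obtain ⟨a, hc⟩ := core bad_main
  filter_upwards [hc γ hγ η hη] with j hc J l hJ ad Λ O h y
  have s0 : (0 : ℝ) < √(nn j) := Real.sqrt_pos.2 (nn_pos' j)
  have L0 : 0 ≤ Λ := by
    have := (abs_nonneg _).trans (h.lip 1 1 1 fun _ => by simp)
    rw [mul_one] at this
    exact nonneg_of_mul_nonneg_left this s0
  have n0 : 0 < LL l * nn J := mul_pos (LL_pos l) (M3.nn_pos J)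
  have h' := h.shift y
  have ms : ∀ t, MeasurableSet {U : Conf | O (sh y (qF U)) ≤ t} := fun t =>
    measurableSet_le (h'.cont.comp cont_qF).measurable measurable_const
  have mx : MeasurableSet {U : Conf | O (sh y (XX J l j U)) ≤ 2 * Λ * 2⁻¹ ^ j} :=
    measurableSet_le (h'.cont.comp (cont_XX J l j)).measurable measurable_const
  have a1 := hc j le_rfl J l hJ ad
    (fun k => {U : Conf | O (sh y (qF U)) ≤ 2 * Λ * (2⁻¹ ^ j - 2⁻¹ ^ k)}.indicator 1)
    ({X | O (sh y X) ≤ 2 * Λ * 2⁻¹ ^ j}.indicator 1) (fun _ => measurable_one.indicator (ms _))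
    (fun _ _ => Set.indicator_le_self _ _ _)
    (fun k _ g u X _ n => Set.indicator_apply_le' (fun hX => ind_ge ?_) fun _ => zero_le)
    (fun X _ _ => Set.indicator_apply_le' (fun hX => ind_ge ?_) fun _ => zero_le)
    (measurable_one.indicator mx)
  · have := law_prob hγ J l (J - j)
    simp only [Nat.sub_self, dn, sub_self, mul_zero] at a1
    rw [lintegral_indicator_one (ms _), Y6.wilson_eq, ← Nat.cast_mul] at a1
    have a2 : _ ≤ wN (γ * (LL l * nn J : ℕ)) ![LL l * nn J, LL l * nn J, LL l * nn J]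
        {U | O (sh y (XX J l j U)) ≤ 2 * Λ * 2⁻¹ ^ j} + _ :=
      a1.trans_eq (congrArg (· + _) (lintegral_indicator_one mx))
    have a3 := ENNReal.toReal_mono (by finiteness) a2
    rw [ENNReal.toReal_add (measure_ne_top _ _) (by simp), ENNReal.toReal_ofReal hη.le] at a3
    have e1 := probReal_compl_eq_one_sub (μ := law γ J l (J - j)) (ms 0)
    have e2 := probReal_compl_eq_one_sub (μ := wN (γ * (LL l * nn J : ℕ))
      ![LL l * nn J, LL l * nn J, LL l * nn J]) mx
    simp only [Set.compl_ofPred, not_le] at e1 e2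
    rw [← shift_T _ (fun i => by fin_cases i <;> exact n0) hJ l ((RGP.bm_ind (measurableSet_lt
      measurable_const (h.cont.comp (cont_XX J l j)).measurable)).meas) y, e1]
    refine le_of_eq_of_le ((integral_indicator_one (measurableSet_lt measurable_const
      (h'.cont.comp (cont_XX J l j)).measurable)).trans e2) ?_
    change (law γ J l (J - j)).real _ ≤ (wN _ _).real _ + η at a3
    linarith
  · have := (abs_le.1 (h'.lip (u * X) X (2⁻¹ ^ k / √(nn j)) fun e => by
      rw [S3.norm_sub, Pi.mul_apply, mul_inv_cancel_right]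
      exact n e)).1
    rw [Set.mem_ofPred_eq, ← gH_q, h'.gauge] at hX
    rw [mul_assoc, mul_div_cancel₀ _ s0.ne'] at this
    rw [Set.mem_ofPred_eq, pow_succ]
    linarith
  · rw [Set.mem_ofPred_eq] at hX ⊢
    nlinarith [show (0 : ℝ) < 2⁻¹ ^ (J + 1) by positivity]

/-- events which are rare on the cube are rare on long tori -/
theorem dom {γ : ℝ} (hγ : 0 < γ) : ∃ e > (0 : ℝ), ∃ J0, ∀ J l, J0 ≤ J → Adm J l → ∀ F : Conf → ℝ,
    Measurable F → (∀ U, 0 ≤ F U ∧ F U ≤ 1) → ∀ a : ℤ,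
    DependsOn F (Y6.Tm a (a + (LL l * 3 ^ J ^ 2 : ℕ))) →
    ∫ U, F U ∂wN (γ * (LL l * nn J : ℕ)) ![LL l * nn J, LL l * nn J, LL l * nn J] ≤ 2 * e →
    ∀ᶠ T in atTop, ∫ U, F U ∂wN (γ * (LL l * nn J : ℕ)) ![T, LL l * nn J, LL l * nn J] ≤ 1 / 40 := by
  obtain ⟨Δ, hΔ, C, C0, J0, H⟩ := Y6.vac_main Y6.mix_main (tr haar) hγ
  refine ⟨(4000 * C)⁻¹, by positivity, J0, fun J l hJ ad F mF F0 a dF hF => ?_⟩
  have n0 : 0 < LL l * nn J := mul_pos (LL_pos l) (M3.nn_pos J)
  have : NeZero (LL l * nn J) := ⟨n0.ne'⟩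
  obtain ⟨N, hN⟩ : ∃ N, N + 1 = LL l * 3 ^ J ^ 2 :=
    ⟨_, Nat.sub_add_cancel (mul_pos (LL_pos l) (by positivity))⟩
  obtain ⟨L, r, e, V, hr, hC⟩ := H J l hJ ad _ N rfl hN
  have r1 : r < 1 := hr.trans_lt (Real.exp_lt_one_iff.2 (neg_lt_zero.2 (by positivity)))
  rw [← hN] at dF
  have a1 := Y6.vac_le V hC mF F0 dF
  rw [show N + 1 + (N + 1) = LL l * nn J by rw [hN, nn]; ring] at a1
  have a2 := a1.trans (mul_le_mul_of_nonneg_left hF C0.le)
  rw [show C * (2 * (4000 * C)⁻¹) = 1 / 2000 by field_simp; norm_num] at a2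
  exact (Y6.tendsto_loc V r1 ⟨mF, 1, fun w => abs_le.2 ⟨by linarith [(F0 w).1], (F0 w).2⟩⟩
    (Y6.dep_lift dF)).eventually (eventually_le_nhds (by nlinarith))

variable [MeasurableSpace ℍ] [BorelSpace ℍ]

theorem finite_mass (hL : LevS) {γ : ℝ} (hγ : 0 < γ) : ∀ᶠ j in atTop, ∀ (ν : Measure FH)
    [IsProbabilityMeasure ν], (∀ a, ν.map (sh a) = ν) → ν.map th = ν →
    (∀ F : FH →ᵇ ℝ, DependsOn F {e | 1 ≤ e.1 0} → 0 ≤ ∫ X, F X * F (th X) ∂ν) →
    (∀ C : Set FH, IsClosed C → ∀ (a : ℝ) (J0 : ℕ), (∀ J ≥ J0, ∀ l, Adm J l → ∀ᶠ T in atTop,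
      a ≤ ∫ U, RGP.ind C (XX J l j U) ∂wN (γ * (LL l * nn J : ℕ)) ![T, LL l * nn J, LL l * nn J]) →
      a ≤ ν.real C) →
    ∃ F : FH →ᵇ ℝ, DependsOn F {e | e.1 0 = 1} ∧ (∀ u X, F (gH u X) = F X) ∧ ∃ c > (0 : ℝ), ∃ M : ℝ,
      ∀ t : ℕ, c * Real.exp (-(M * t)) ≤
        cov[fun X => F (th X), fun X => F (sh (Pi.single 0 (2 * t : ℤ)) X); ν] := by
  obtain ⟨e, e0, J0, hd⟩ := dom hγ
  obtain ⟨Λ, hL⟩ := hL γ hγ e e0
  filter_upwards [hL, cube_le hγ e0, eventually_ge_atTop 2, ((tendsto_pow_atTop_nhds_zero_of_lt_one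
    (r := (2⁻¹ : ℝ)) (by norm_num) (by norm_num)).const_mul Λ).eventually
      (ge_mem_nhds (show Λ * 0 < 1 / 8 by norm_num))] with j ⟨O, h, dO, hL⟩ hc hj h2 ν _ hs hr hp hC
  have d : ∀ t : ℤ, DependsOn (fun X => O (tau t X)) {e | e.1 0 = t} := fun t X X' H =>
    dO fun e he => H _ (by
      have := he.1
      have := he.2
      simp
      omega)
  have key : ∀ L' ψ, Ob j L' ψ → DependsOn ψ (Hf.Tw 0 5) → (∀ J l, j ≤ J → Adm J l → ∃ y : St,
      (law γ J l (J - j)).real {U | 0 < ψ (sh y (qF U))} ≤ e) →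
      1 - 1 / 40 ≤ ν.real {X | ψ X ≤ 2 * L' * 2⁻¹ ^ j} := fun L' ψ o dψ H => by
    refine hC _ (isClosed_le o.cont continuous_const) _ (J0 + j) fun J hJ l ad => ?_
    obtain ⟨y, hy⟩ := H J l (by omega) ad
    obtain ⟨r, φ, e1, c⟩ := cov_XX (show j ≤ J by omega) l
    have m := (o.cont.comp (cont_XX J l j)).measurable
    have m1 := measurableSet_lt (measurable_const (a := 2 * L' * 2⁻¹ ^ j)) m
    refine (hd J l (by omega) ad (fun U => RGP.ind {X | 2 * L' * 2⁻¹ ^ j < ψ X} (XX J l j U))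
      (RGP.bm_ind m1).meas (fun _ => ⟨RGP.ind_nonneg _ _, RGP.ind_le_one _ _⟩) (-r)
      (fun U U' hU => RGP.ind_congr ?_)
      ((hc J l (by omega) ad _ _ o y).trans (by linarith))).mono fun T hT => ?_
    · have e2 : LL l * 3 ^ J ^ 2 = LL r * 3 ^ j ^ 2 := by
        simp only [nn] at e1
        linarith
      have e3 : (6 : ℤ) ≤ 3 ^ j ^ 2 := le_trans (by norm_num)
        (pow_le_pow_right₀ (by norm_num) (Nat.pow_le_pow_left hj 2))
      have L := LL_cast r
      rw [Set.mem_ofPred_eq, Set.mem_ofPred_eq, show ψ (XX J l j U) = ψ (XX J l j U') from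
        dψ fun f hf => c.loc 0 0 5 _ _
          (fun g a1 a2 => congrArg S3.q (hU g ⟨by omega, ?_⟩)) f hf.1 ?_]
      · have : 0 ≤ un g.2 0 := by rw [un_apply]; split_ifs <;> omega
        rw [e2]
        push_cast
        nlinarith
      · have := hf.2
        rw [un_apply]
        split_ifs <;> omega
    · have e2 := probReal_compl_eq_one_sub (μ := wN (γ * (LL l * nn J : ℕ))
        ![T, LL l * nn J, LL l * nn J]) m1
      simp only [Set.compl_ofPred, not_lt] at e2
      refine le_of_le_of_eq ?_ ((integral_indicator_one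
        (measurableSet_le m measurable_const)).trans e2).symm
      exact sub_le_sub_left ((integral_indicator_one m1).symm.trans_le hT) _
  have h4 : Ob j Λ fun X => O (tau 4 X) := h.shift _
  have d4 : DependsOn (fun X => O (tau 4 X)) (Hf.Tw 0 5) := (d 4).mono fun e he => by
    have : e.1 0 = 4 := he
    constructor <;> omega
  have d0 : DependsOn O (Hf.Tw 0 5) := dO.mono fun e he => ⟨he.1, he.2.trans (by norm_num)⟩
  have ni := not_indep (μ := ν) h.cont.measurable h4.cont.measurable le_rfl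
    ((key _ _ ((h.sub h4).comp (φ := fun x => |x| - 1) fun a b => by
        linarith [abs_sub_abs_le_abs_sub a b])
      (fun X X' H => by simp only [d0 H, d4 H])
      fun J l a b => (hL J l a b).imp fun y hy => by simpa using hy.1).trans
      (measureReal_mono (fun X hX => by
        rw [Set.mem_ofPred_eq] at hX ⊢
        linarith) (measure_ne_top _ _)))
    fun t => (key _ _ (h4.comp (φ := fun x => min (x - (t - 1 / 4)) (t - 1 / 4 + 1 - x)) fun a b => by
        rw [← min_add_add_right]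
        exact min_le_min (by linarith [le_abs_self (a - b)]) (by linarith [neg_le_abs (a - b)]))
      (fun X X' H => by simp only [d4 H])
      fun J l a b => (hL J l a b).imp fun y hy => by
        have := law_prob hγ J l (J - j)
        refine (measureReal_mono (fun U hU => ?_) (measure_ne_top _ _)).trans (hy.2 (t - 1 / 4))
        rw [Set.mem_ofPred_eq, lt_min_iff] at hU
        exact ⟨by linarith [hU.1], by linarith [hU.2]⟩).trans
      (measureReal_mono (fun X hX => by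
        rw [Set.mem_ofPred_eq, min_le_iff] at hX
        exact hX.imp (fun _ => by linarith) fun _ => by linarith) (measure_ne_top _ _))
  obtain ⟨f, g, hfg⟩ : ∃ f g : ℝ →ᵇ ℝ, ∫ X, f (O X) * g (O (tau 4 X)) ∂ν ≠
      (∫ X, f (O X) ∂ν) * ∫ X, g (O (tau 4 X)) ∂ν := by
    by_contra! H
    exact ni (indepFun_of_bcf h.cont.aemeasurable h4.cont.aemeasurable H)
  have c : ∀ t, Continuous fun X => O (tau t X) := fun t => h.cont.comp (tau t).continuous
  have dF : DependsOn (g.compContinuous ⟨_, c 1⟩) {e | e.1 0 = 1} := fun X X' H => congrArg g (d 1 H)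
  refine ⟨_, dF, fun u X => congrArg g ((h.shift _).gauge u X), decay hs hr hp
    (dF.mono fun e (he : _ = _) => he.ge) (G := f.compContinuous ⟨_, (c (-2)).comp cont_th⟩)
    (fun X X' H => congrArg f (d (-2) fun e (he : _ = _) => ?_)) fun H => hfg ?_⟩
  · simp only [rH]
    split_ifs with h0
    · rw [H _ (by simp [rf, RGP.T1, he, un_apply]; split_ifs <;> omega)]
    · exact H _ (by simp [rf, RGP.T1, he])
  · simp only [bf, compContinuous_apply, ContinuousMap.coe_mk, Function.comp, th_th, tau_tau] at H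
    rw [← int_inv cont_th hr (F := fun X => f (O (tau (-2) (th X))))
      (f.continuous.comp ((c _).comp cont_th))] at H
    rw [← int_inv (tau (-2)).continuous (hs _) (F := fun X => f (O X) * g (O (tau 4 X)))
      ((f.continuous.comp h.cont).mul (g.continuous.comp (c 4))),
      ← int_inv (tau (-2)).continuous (hs _) (F := fun X => f (O X)) (f.continuous.comp h.cont),
      ← int_inv (tau (-2)).continuous (hs _) (F := fun X => g (O (tau 4 X)))
        (g.continuous.comp (c 4))]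
    simp only [th_th, tau_tau] at H ⊢
    exact sub_eq_zero.1 H

end Pool.Agent.Lib.MP_7f377f_mp.RG.D3.Hm5
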