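import Pool.Agent.Lib.MP_7f377f_mp.P3Num

/-! Large fields are improbable. -/

noncomputable section

namespace Pool.Agent.Lib.MP_7f377f_mp.RG.D3.Pv

open Finset MeasureTheory Real
open RGP (cv ind lvl)
open scoped ENNReal

theorem noise_le : ∃ C : ℝ, ∀ (γ : ℝ) (a K J l i : ℕ), 0 < γ → Adm J l → i ≤ J → 1 ≤ K → K ≤ a →
    1 ≤ γ * nn (J - i) → 10 ≤ (LL (ll (J - i)) : ℝ) → C ≤ LL (ll (J - i)) → γ ≤ LL (ll (J - i)) →
    ∫⁻ x in {g : S3 | ep γ a J l i < ‖g.q - 1‖}, hk (aq γ J l i) x ∂haar ≤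
      ENNReal.ofReal (exp (-(LL (ll (J - i)) : ℝ) ^ K)) := by
  obtain ⟨C, hC⟩ := hk_tail
  refine ⟨C, fun γ a K J l i hγ h hi K1 hK h1 h2 h3 h4 => ?_⟩
  have hL : (1 : ℝ) ≤ LL (lq J l i) := Nat.one_le_cast.2 (LL_pos _)
  have hs := Adm.sz_le h i
  have hn : (1 : ℝ) ≤ nn (J - i) := Nat.one_le_cast.2 (nn_pos _)
  have hs' : (LL (lq J l i) : ℝ) ≤ sz J l i := by
    rw [sz_succ hi, Nat.cast_mul]
    exact le_mul_of_one_le_right (by positivity) hn
  have hΛ : (LL (ll (J - i)) : ℝ) ≤ LL (ll (J + 1 - i)) := by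
    rw [show J + 1 - i = J - i + 1 by omega, LL_succ]
    push_cast
    linarith
  have ha : 1 ≤ aq γ J l i := one_le_mul_of_one_le_of_one_le h1 (one_le_pow₀ hL)
  refine (hC _ _ ha (by unfold ep; positivity)).2.2.2.2.trans (ENNReal.ofReal_le_ofReal ?_)
  have hb : 0 < γ * sz J l i := mul_pos hγ (by linarith)
  rw [ep, div_pow, bq_eq, sq_sqrt hb.le, aq_eq γ hi, mul_comm _ (_ / _), ← mul_assoc,
    div_mul_cancel₀ _ hb.ne']
  generalize (LL (ll (J + 1 - i)) : ℝ) = Λ at *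
  generalize (LL (ll (J - i)) : ℝ) = Λ' at *
  have a1 : Λ ≤ exp Λ := by linarith [add_one_le_exp Λ]
  have a2 : γ * sz J l i * LL (lq J l i) ^ 2 ≤ exp Λ * exp Λ * exp Λ ^ 2 := by
    gcongr <;> linarith
  have a3 : Λ' ^ K ≤ Λ ^ a := (pow_le_pow_left₀ (by linarith) hΛ _).trans
    (pow_le_pow_right₀ (by linarith) hK)
  have a4 : Λ ≤ Λ ^ a := le_self_pow₀ (by linarith) (by omega)
  have a5 : (Λ ^ a) ^ 2 ≤ (Λ ^ a) ^ 2 * LL (lq J l i) ^ 2 :=
    le_mul_of_one_le_right (by positivity) (one_le_pow₀ hL)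
  calc _ ≤ exp Λ * (exp Λ * exp Λ * exp Λ ^ 2) ^ 2 * exp (-(Λ ^ a) ^ 2) := by
        gcongr
        linarith
    _ = exp (9 * Λ - (Λ ^ a) ^ 2) := by
        rw [show (9 : ℝ) = (9 : ℕ) by norm_num, sub_eq_add_neg, exp_add, exp_nat_mul]
        ring
    _ ≤ _ := exp_le_exp.2 (by nlinarith)

theorem dvd_one {K v w r : ℕ} (h : w < v) (hw : K + 9 ≤ w) (hr : r * nn w = nn v) :
    9 * (9 ^ 2 ^ 3 * LL (ll v) ^ K) ∣ LL (ll w) ^ K * r := by
  refine Nat.dvd_of_mul_dvd_mul_right (nn_pos w) ?_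
  rw [mul_assoc _ r, hr, LL_ll, LL_ll, nn, nn, show 9 = 3 ^ 2 by norm_num, mul_left_comm,
    mul_left_comm _ 2]
  simp only [← pow_mul, ← pow_add]
  refine Nat.mul_dvd_mul_left _ (pow_dvd_pow _ ?_)
  obtain ⟨t, rfl⟩ := Nat.exists_eq_add_of_lt h
  nlinarith [Nat.mul_le_mul_left t hw]

theorem dvd_two {K v : ℕ} (h : 3 * K + 18 ≤ v) : 2 * (9 * (9 ^ 2 ^ 3 * LL (ll v) ^ K)) ∣ nn v := by
  rw [LL_ll, nn, show 9 = 3 ^ 2 by norm_num]
  simp only [← pow_mul, ← pow_add]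
  refine Nat.mul_dvd_mul_left _ (pow_dvd_pow _ ?_)
  nlinarith [Nat.mul_le_mul_left v h]

open Classical in
theorem bad_of (hs : ∃ K : ℕ, ∀ K2 : ℕ, ∃ a0 : ℕ, ∀ a ≥ a0, ∀ γ > 0, ∃ j0 : ℕ, ∀ J l, j0 ≤ J →
    Adm J l → Sand (lq J l) (aq γ J l) (ep γ a J l) (bq γ J l 0) (J + 1 - j0)
      (fun i => if i = 0 then 27 else LL (ll (J + 1 - i)) ^ K) (fun i => LL (ll (J + 1 - i)))
      (fun i => (LL (ll (J + 1 - i)) : ℝ) ^ K2)) :
    ∃ a0 : ℕ, ∀ a ≥ a0, ∀ γ > 0, ∀ η > 0, ∃ j0 : ℕ, ∀ j ≥ j0, ∀ J l, j ≤ J →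
    Adm J l → ENNReal.ofReal (1 - η) * ∫⁻ U, rr γ J l (J + 1 - j) (nn j) (per (nn j) U) ∂PP ≤
      ∫⁻ U, (if curvG (ep γ a J l (J + 1 - j)) (per (nn j) U) then
        rG γ a J l (J + 1 - j) (nn j) (per (nn j) U) else 0) ∂PP := by
  obtain ⟨K, hK⟩ := hs
  obtain ⟨a0, ha0⟩ := hK (3 * K + 8)
  obtain ⟨C, hC⟩ := noise_le
  refine ⟨a0 + (3 * K + 8), fun a ha γ hγ η hη => ?_⟩
  obtain ⟨j0, hj0⟩ := ha0 a (by omega) γ hγ
  obtain ⟨j1, hj1⟩ := exists_nat_ge (|C| + γ + γ⁻¹ + 400 / η)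
  refine ⟨j0 + j1 + 3 * K + 18 * 9 ^ 8, fun j hj J l hJ h => ?_⟩
  have hS := hj0 J l (by omega) h
  have hl := Adm.lq h
  have hq : ∀ i, 0 ≤ aq γ J l i := fun i => by unfold aq; positivity
  set k := J + 1 - j with hk
  set Λ : ℕ → ℝ := fun i => LL (ll (J + 1 - i)) with hΛ
  set m : ℕ → ℕ := fun i => if i = 0 then 27 else LL (ll (J + 1 - i)) ^ (K + 1) with hm
  set V : ℕ → ℝ := fun i => ((18 * 9 ^ 2 ^ 3 * m i : ℤ) : ℝ) ^ 3 with hV
  set Q : ℕ → ℝ := fun i => Λ i ^ (3 * K + 7) with hQ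
  have hv : ∀ i ≤ k, j ≤ LL (ll (J + 1 - i)) := fun i hi => le_trans (by omega) (le_LL _)
  have hv1 : ∀ i ≤ k, |C| + γ + γ⁻¹ + 400 / η ≤ Λ i := fun i hi =>
    hj1.trans (Nat.cast_le.2 (le_trans (by omega) (hv i hi)))
  have hv2 : ∀ i ≤ k, 18 * 9 ^ 8 ≤ Λ i := fun i hi => by
    have := le_trans (show 18 * 9 ^ 8 ≤ j by omega) (hv i hi)
    simp only [hΛ]
    exact_mod_cast this
  have i1 := abs_nonneg C
  have i2 := inv_pos.2 hγ
  have i3 : 0 < 400 / η := by positivity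
  have hP : ∀ i, Λ i ^ (3 * K + 8) = Λ i * Q i := fun i => pow_succ' _ _
  have hm1 : ∀ i ≤ k, 27 ≤ m i ∧ m i ≤ LL (ll (J + 1 - i)) ^ (K + 1) := fun i hi => by
    have := (hv i hi).trans (Nat.le_self_pow (n := K + 1) (by omega) _)
    simp only [hm]
    split_ifs <;> omega
  have hQ1 : ∀ i ≤ k, Λ i ≤ Q i := fun i hi =>
    le_self_pow₀ (by linarith [hv2 i hi]) (by omega)
  have hV1 : ∀ i ≤ k, Λ i * V i ≤ Q i := fun i hi => by
    have h1 : (m i : ℝ) ≤ Λ i ^ (K + 1) := (Nat.cast_le.2 (hm1 i hi).2).trans_eq (Nat.cast_pow _ _)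
    have h2 := hv2 i hi
    simp only [hV, hQ]
    push_cast
    calc _ ≤ Λ i * (Λ i * Λ i ^ (K + 1)) ^ 3 := by gcongr; linarith
      _ = _ := by ring
  have hN := fun i hi => num_level (by linarith [hv2 i hi]) (hQ1 i hi) (hV1 i hi)
    (show 0 ≤ V i by positivity)
  have hI : ∀ i ≤ k, ∃ E, (bad hl hq (ep γ a J l)).Inp (wpot (bq γ J l 0)) i (m i) E (Λ i)
      (exp (2 * Λ i * V i - Λ i * Q i) + 3 * V i * exp (-(Λ i * Q i))) := fun i hi => by
    rw [← hP]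
    refine Sand.inp hl hq _ hS (by omega) (by linarith [(hm1 i hi).1]) ?_ (by positivity)
      (exp_pos _).le rfl fun h0 => ?_
    · simp only [hm]
      split_ifs
      exacts [le_rfl, Nat.pow_le_pow_right (LL_pos _) K.le_succ]
    · have e : J - (i - 1) = J + 1 - i := by omega
      have h1 := hv1 i hi
      have h2 : γ⁻¹ ≤ nn (J + 1 - i) := by
        have : (j1 : ℝ) ≤ nn (J + 1 - i) := Nat.cast_le.2 (le_trans (by omega) (le_nn _))
        linarith
      have := hC γ a (3 * K + 8) J l (i - 1) hγ h (by omega) (by omega) (by omega)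
      rw [e] at this
      exact this ((inv_le_iff_one_le_mul₀' hγ).1 h2) (by linarith [hv2 i hi])
        (by linarith [le_abs_self C]) (by linarith)
  choose! E hE using hI
  have hsz : nn j = sz J l k := by rw [sz, if_neg (by omega), show J + 1 - k = j by omega]
  have hr : ∀ i' ≤ k, ∀ i ≤ i', (model _ hl _ hq).rat i i' * sz J l i' = sz J l i :=
    fun i' hi' i hi => by
      rw [← pd_sz (by omega) hi]
      exact congrFun (congrFun (sc_model hl hq i' _) i) 0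
  have hz : ∀ i, 0 < sz J l i := fun i => by
    unfold sz
    split_ifs
    exacts [Nat.mul_pos (LL_pos _) (nn_pos _), nn_pos _]
  have hf : ∀ i' ≤ k, ∀ i ≤ i', (((model _ hl _ hq).rat i i' * sz J l i' : ℤ) : ℝ) ^ 3 *
      exp (-(Λ i * Q i / 100)) ≤ exp (-(Λ i * Q i / 200)) := fun i' hi' i hi => by
    rw [hr i' hi' i hi, Int.cast_natCast]
    refine (mul_le_mul_of_nonneg_right (pow_le_pow_left₀ (by positivity) (Adm.sz_le h i) 3)
      (exp_pos _).le).trans ?_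
    rw [← exp_nat_mul, ← exp_add, exp_le_exp]
    have := hv2 i (by omega)
    have := hQ1 i (by omega)
    change (3 : ℕ) * Λ i + _ ≤ _
    push_cast
    nlinarith
  have hsum : ∀ i ≤ k, ∑ s ∈ range i, exp (-(Λ s * Q s / 200)) ≤ exp (-(Λ i * Q i)) := fun i =>
    num_sum (P := fun i => Λ i * Q i) (fun i hi => by nlinarith [hv2 i hi, hQ1 i hi]) fun i hi => by
      have e : Λ i = 9 * Λ (i + 1) := by
        simp only [hΛ]
        rw [show J + 1 - i = J + 1 - (i + 1) + 1 by omega, LL_succ]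
        push_cast
        rfl
      simp only [← hP]
      rw [e, mul_pow]
      exact mul_le_mul_of_nonneg_right (le_trans (by norm_num)
        (pow_le_pow_right₀ (show (1 : ℝ) ≤ 9 by norm_num) (show 3 ≤ 3 * K + 8 by omega)))
        (by positivity)
  have hu := pot_wpot (bq γ J l 0)
  have key := bad_all (bad hl hq (ep γ a J l)) hu (k := k) (m := fun i => m i) (e := E) (γ := Λ)
    (V := V) (Y := fun i => V i * exp (-(Λ i * Q i))) (X := fun i => exp (-(Λ i * Q i / 2)))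
    (p := fun i => exp (-(Λ i * Q i / 100)))
    (fun i hi => ⟨by have := (hm1 i hi).1; omega, by positivity, by positivity, hE i hi, rfl,
      fun s hs => ?_, mul_le_mul_of_nonneg_left (le_trans (sum_le_sum fun s hs => le_trans ?_
        (hf i hi s (mem_range.1 hs).le)) (hsum i hi)) (by positivity), (hN i hi).1⟩)
    (fun i hi => ⟨(hN i hi).2.1, exp_le_one_iff.2 (neg_nonpos.2 (by positivity)), exp_pos _,
      (hN i hi).2.2⟩) (N := sz J l k) (by exact_mod_cast hz k) fun i hi => ?_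
  rotate_left
  · rw [← (model _ hl _ hq).rat_mul (Nat.zero_le s) hs.le, ← mul_assoc 9,
      mul_comm (RGP.Model.rat _ 0 s), ← mul_assoc (m i : ℤ)]
    refine mul_dvd_mul_right ?_ _
    have h1 := hr i hi s hs.le
    have h2 := (model _ hl _ hq).rat_pos s i
    lift (model _ hl _ hq).rat s i to ℕ using h2.le with r
    simp only [hm, if_neg (show i ≠ 0 by omega)]
    split_ifs with h0
    · refine Dvd.dvd.mul_right ?_ _
      rw [LL_ll, ← pow_mul]
      exact_mod_cast pow_dvd_pow 3 (show 21 ≤ _ by nlinarith [show 10 ≤ J + 1 - i by omega])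
    · rw [sz, sz, if_neg h0, if_neg (by omega)] at h1
      exact_mod_cast dvd_one (K := K + 1) (by omega) (by omega) (by exact_mod_cast h1)
  · have := (model _ hl _ hq).rat_pos s i
    have := hz i
    gcongr
    exact le_mul_of_one_le_right (by omega) (by omega)
  · rw [← (model _ hl _ hq).rat_mul (Nat.zero_le i) hi, mul_assoc _ _ (sz J l k : ℤ), hr k le_rfl i hi,
      ← mul_assoc 9, ← mul_assoc 2, mul_comm (RGP.Model.rat _ 0 i)]
    refine mul_dvd_mul_right ?_ _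
    simp only [hm, sz]
    split_ifs with h0
    · have : 2 * 3 ^ 21 ∣ nn J := Nat.mul_dvd_mul_left 2
        (pow_dvd_pow 3 (by nlinarith [show 10 ≤ J by omega]))
      exact_mod_cast this.mul_left (LL l)
    · exact_mod_cast dvd_two (K := K + 1) (by omega)
  have h1 : ∑ i ∈ range (k + 1), (((model _ hl _ hq).rat i k * sz J l k : ℤ) : ℝ) ^ 3 *
      exp (-(Λ i * Q i / 100)) ≤ η := by
    refine (sum_le_sum fun i hi => hf k le_rfl i (Nat.lt_succ_iff.1 (mem_range.1 hi))).trans ?_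
    have a1 := hv1 k le_rfl
    have a2 : Λ k ≤ Λ k * Q k := by nlinarith [hv2 k le_rfl, hQ1 k le_rfl]
    have a3 : exp (-(Λ k * Q k)) ≤ exp (-(Λ k * Q k / 200)) := exp_le_exp.2 (by linarith)
    have a4 : 2 * exp (-(Λ k * Q k / 200)) ≤ η := by
      rw [exp_neg, mul_inv_le_iff₀ (exp_pos _), ← div_le_iff₀' hη]
      have : 400 / η = 200 * (2 / η) := by ring
      linarith [add_one_le_exp (Λ k * Q k / 200)]
    rw [sum_range_succ]
    linarith [hsum k le_rfl]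
  have mB := (bad hl hq (ep γ a J l)).meas_Bd (k + 1)
  have h2 := (model _ hl _ hq).JZ_add hu k (cv (sz J l k)) (RGP.bm_ind mB) (RGP.bm_ind mB.compl)
  rw [show (fun w => ind ((bad hl hq (ep γ a J l)).Bd (k + 1)) w +
    ind ((bad hl hq (ep γ a J l)).Bd (k + 1))ᶜ w) = fun _ => 1 from funext fun w => by
      by_cases h : w ∈ (bad hl hq (ep γ a J l)).Bd (k + 1) <;> simp [ind, h]] at h2
  have h3 : 0 ≤ (model _ hl _ hq).JZ (wpot (bq γ J l 0)) k (cv (sz J l k)) fun _ => 1 := by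
    rw [(model _ hl _ hq).JZ_one hu k fun _ => by simpa using hz k]
    exact (hu.zz_pos haar _).le
  have mc := meas_curv (ep γ a J l k)
  have h4 := (model _ hl _ hq).JZ_mono hu k (cv (sz J l k)) (RGP.bm_ind mB.compl)
    (RGP.bm_ind ((meas_GoodH (lq J l) (ep γ a J l) k).inter (RGP.measurable_lvl k mc)))
    fun w => Set.indicator_le_indicator_of_subset (fun w hw => good_of' hl hq _ hw)
      (fun _ => zero_le_one) _
  rw [hsz, rr, ← JZ_rho _ hl hq, ← ENNReal.ofReal_mul' h3]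
  refine le_trans (ENNReal.ofReal_le_ofReal (le_trans ?_ h4))
    ((JZ_inter _ _ hl hq k _ mc).trans_le (le_of_eq (lintegral_congr fun U => ?_)))
  · nlinarith
  · by_cases h : curvG (ep γ a J l k) (per (sz J l k) U) <;> simp [h, rG]

end Pool.Agent.Lib.MP_7f377f_mp.RG.D3.Pv
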