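import Pool.Agent.Lib.MP_7f377f_mp.R3Fin
import Pool.Agent.Lib.MP_7f377f_mp.CEnd

/-! The continuum limit: construction of the consistent family of limit laws. -/

noncomputable section

namespace Pool.Agent.Lib.MP_7f377f_mp.RG.D3

open MeasureTheory Filter
open scoped ENNReal Topology

namespace En

/-- comparison of two runs -/
def Pair : Prop := ∃ a0 : ℕ, ∀ a ≥ a0, ∀ γ > 0, ∀ η > 0, ∃ j0 : ℕ, ∀ j ≥ j0, ∃ J0 : ℕ,
  ∀ J l J' l', J0 ≤ J → J0 ≤ J' → Adm J l → Adm J' l' → ∃ t t' : ℝ, 0 < t ∧ 0 < t' ∧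
    1 - η ≤ t * t' ∧ ∀ U, Per (nn j) U →
      ENNReal.ofReal t * rG γ a J l (J + 1 - j) (nn j) U ≤ rr γ J' l' (J' + 1 - j) (nn j) U ∧
      ENNReal.ofReal t' * rG γ a J' l' (J' + 1 - j) (nn j) U ≤ rr γ J l (J + 1 - j) (nn j) U

open Classical in
/-- large fields are improbable -/
def Bad : Prop := ∃ a0 : ℕ, ∀ a ≥ a0, ∀ γ > 0, ∀ η > 0, ∃ j0 : ℕ, ∀ j ≥ j0, ∀ J l, j ≤ J →
  Adm J l → ENNReal.ofReal (1 - η) * ∫⁻ U, rr γ J l (J + 1 - j) (nn j) (per (nn j) U) ∂PP ≤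
    ∫⁻ U, (if curvG (ep γ a J l (J + 1 - j)) (per (nn j) U) then
      rG γ a J l (J + 1 - j) (nn j) (per (nn j) U) else 0) ∂PP

/-- lower bound on the fluctuations -/
def Fluct : Prop := ∃ c > 0, ∀ γ > 0, ∃ j0 : ℕ, ∀ j ≥ j0, ∀ J l, j ≤ J → Adm J l →
  (law γ J l (J - j)).real {U | ‖(hol Inv.inv U 0 0 1).q - 1‖ ≤ c / √(γ * nn j)} ≤ 2⁻¹

theorem le_abs {X : Type} [MeasurableSpace X] {μ ν : Measure X} [IsProbabilityMeasure μ]
    [IsProbabilityMeasure ν] {e : ℝ} (he : 0 ≤ e) (h : CE.Le μ ν (ENNReal.ofReal e)) (A : Set X)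
    (hA : MeasurableSet A) : |μ.real A - ν.real A| ≤ e := by
  have k : ∀ B, MeasurableSet B → μ.real B ≤ ν.real B + e := fun B hB => by
    have := ENNReal.toReal_mono (by finiteness) (h B hB)
    rwa [ENNReal.toReal_add (by finiteness) (by finiteness), ENNReal.toReal_ofReal he] at this
  have h1 := k _ hA.compl
  rw [probReal_compl_eq_one_sub hA, probReal_compl_eq_one_sub hA] at h1
  rw [abs_le]
  constructor <;> linarith [k A hA]

theorem contr {γ : ℝ} (hγ : 0 < γ) (j l : ℕ) (μ ν : Measure Conf) (e : ℝ≥0∞)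
    (_ : IsProbabilityMeasure μ) (_ : IsProbabilityMeasure ν) (h : CE.Le μ ν e) :
    CE.Le (av1 γ j l μ) (av1 γ j l ν) e := fun A hA => by
  rcases eq_or_ne e ⊤ with rfl | he
  · simp
  have := av1_prob hγ j l μ
  have := av1_prob hγ j l ν
  have k := av1_contr hγ j l μ ν (le_abs ENNReal.toReal_nonneg
    (by rwa [ENNReal.ofReal_toReal he])) A hA
  rw [← ENNReal.toReal_le_toReal (by finiteness) (by finiteness),
    ENNReal.toReal_add (by finiteness) he]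
  have := (abs_le.1 k).2
  simp only [Measure.real] at this
  linarith

theorem meas_per (n : ℕ) : Measurable (per n : Conf → Conf) :=
  measurable_pi_lambda _ fun _ => measurable_pi_apply _

theorem per_per (n : ℕ) (U : Conf) : Per n (per n U) := fun μ => by
  funext e
  simp only [sh, per, Pi.add_apply, Pi.smul_apply, smul_eq_mul, Int.add_mul_emod_self_left]

theorem meas_pl (x : St) (μ ν : Fin 3) (ε : ℝ) :
    MeasurableSet {U : Conf | ‖(hol Inv.inv U x μ ν).q - 1‖ ≤ ε} :=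
  measurableSet_le (Ms.meas_nsub.comp
    (by unfold hol; fun_prop : Continuous fun U : Conf => hol Inv.inv U x μ ν).measurable)
    measurable_const

theorem meas_cv (ε : ℝ) : MeasurableSet {U : Conf | curvG ε U} := by
  simp only [curvG, Set.ofPred_forall]
  exact .iInter fun x => .iInter fun μ => .iInter fun ν => meas_pl x μ ν ε

theorem law_lev {γ : ℝ} (hγ : 0 < γ) {J j : ℕ} (l : ℕ) (h : j ≤ J) :
    law γ J l (J - j) = lawOf (nn j) (rr γ J l (J + 1 - j) (nn j)) ∧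
    ∫⁻ U, rr γ J l (J + 1 - j) (nn j) (per (nn j) U) ∂PP ≠ 0 ∧
    ∫⁻ U, rr γ J l (J + 1 - j) (nn j) (per (nn j) U) ∂PP ≠ ∞ := by
  have := law_eq hγ J l (J - j) (by omega)
  rw [show J - (J - j) = j by omega, show J - j + 1 = J + 1 - j by omega] at this
  exact ⟨this.1, this.2.1.ne', this.2.2.ne⟩

theorem cauchy (hp : Pair) (hb : Bad) {γ : ℝ} (hγ : 0 < γ) {η : ℝ} (hη : 0 < η) :
    ∃ j0, ∀ j ≥ j0, ∃ J0, ∀ J l J' l', J0 ≤ J → J0 ≤ J' → Adm J l → Adm J' l' →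
      CE.Le (law γ J l (J - j)) (law γ J' l' (J' - j)) (ENNReal.ofReal η) := by
  obtain ⟨a1, h1⟩ := hp
  obtain ⟨a2, h2⟩ := hb
  have h3 : 0 < η / 3 := by positivity
  obtain ⟨j1, h1⟩ := h1 (a1 + a2) (by omega) γ hγ _ h3
  obtain ⟨j2, h2⟩ := h2 (a1 + a2) (by omega) γ hγ _ h3
  refine ⟨j1 + j2, fun j hj => ?_⟩
  obtain ⟨J0, h1⟩ := h1 j (by omega)
  refine ⟨J0 + j, fun J l J' l' hJ hJ' hl hl' => ?_⟩
  obtain ⟨t, t', ht, ht', htt, h1⟩ := h1 J l J' l' (by omega) (by omega) hl hl'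
  obtain ⟨e, z, f⟩ := law_lev hγ l (show j ≤ J by omega)
  obtain ⟨e', z', f'⟩ := law_lev hγ l' (show j ≤ J' by omega)
  rw [e, e', show η = η / 3 + η / 3 + η / 3 by ring]
  exact (CE.end_le PP ht.le ht'.le h3.le h3.le h3.le ((GI_rho ..).2.1.comp (meas_per _))
    ((GI_rho ..).2.1.comp (meas_per _)) (fun _ => rhoG_le ..) (fun U => (h1 _ (per_per _ U)).1)
    (fun U => (h1 _ (per_per _ U)).2) (fun _ => rhoG_le ..)
    ((h2 j (by omega) J' l' (by omega) hl').trans (lintegral_mono fun U => by split_ifs <;> simp [rG]))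
    ((h2 j (by omega) J l (by omega) hl).trans (lintegral_mono fun U => by split_ifs <;> simp [rG]))
    z' f' z f htt).map (meas_per _)

theorem adm (J : ℕ) : Adm J (ll J) := ⟨le_rfl, Nat.le_self_pow (by norm_num) _⟩

theorem ep_le {γ α : ℝ} (hγ : 0 < γ) (hα : α < 2⁻¹) (a : ℕ) : ∀ᶠ j in atTop,
    (LL (ll j) : ℝ) ^ a / √(γ * nn j) ≤ (nn j : ℝ) ^ (-α) := by
  obtain ⟨C, hC⟩ := pow_unbounded_of_one_lt (√γ)⁻¹ (show (1 : ℝ) < 3 by norm_num)
  have hβ : 0 < 2⁻¹ - α := by linarith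
  obtain ⟨j0, h0⟩ := exists_nat_ge ((3 * a + C) / (2⁻¹ - α))
  filter_upwards [eventually_ge_atTop (j0 + 1)] with j hj
  have hj' : (j0 : ℝ) + 1 ≤ j := by exact_mod_cast hj
  have j00 : (0 : ℝ) ≤ j0 := by positivity
  have hn : (0 : ℝ) < nn j := by simp [nn]
  have hs := Real.sqrt_pos.2 hγ
  rw [div_le_iff₀ hβ] at h0
  have k1 : (3 : ℝ) ^ (((2 * j + 1) * a + C : ℕ) : ℝ) ≤ (nn j : ℝ) ^ (2⁻¹ - α) := by
    calc _ ≤ (3 : ℝ) ^ (((j ^ 2 : ℕ) : ℝ) * (2⁻¹ - α)) := by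
          refine Real.rpow_le_rpow_of_exponent_le (by norm_num) ?_
          push_cast
          have a0 : (0 : ℝ) ≤ a := by positivity
          have c0 : (0 : ℝ) ≤ C := by positivity
          have : (3 * a + C) * (j : ℝ) ≤ j * (2⁻¹ - α) * j :=
            mul_le_mul_of_nonneg_right (h0.trans (by gcongr; linarith)) (by positivity)
          nlinarith [mul_nonneg a0 (show (0 : ℝ) ≤ j - 1 by linarith),
            mul_nonneg c0 (show (0 : ℝ) ≤ j - 1 by linarith)]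
      _ ≤ _ := by
          rw [Real.rpow_mul (by norm_num), Real.rpow_natCast]
          gcongr
          simp only [nn]
          push_cast
          linarith [show (0 : ℝ) < 3 ^ j ^ 2 by positivity]
  rw [Real.rpow_natCast, pow_add, pow_mul, sub_eq_add_neg, Real.rpow_add hn] at k1
  rw [M3.LL_ll, Real.sqrt_mul hγ.le, Real.sqrt_eq_rpow (nn j : ℝ), one_div,
    div_le_iff₀ (by positivity)]
  push_cast
  rw [inv_lt_iff_one_lt_mul₀ hs] at hC
  have p : (0 : ℝ) < (3 ^ (2 * j + 1)) ^ a := by positivity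
  nlinarith [mul_le_mul_of_nonneg_left k1 hs.le, mul_le_mul_of_nonneg_left hC.le p.le]

theorem good (hb : Bad) {γ α : ℝ} (hγ : 0 < γ) (hα : α < 2⁻¹) {η : ℝ} (hη : 0 < η) : ∀ᶠ j in atTop,
    ∀ J ≥ j, 1 - η ≤ (law γ J (ll J) (J - j)).real {U | curvG ((nn j : ℝ) ^ (-α)) U} := by
  obtain ⟨a, h2⟩ := hb
  obtain ⟨j0, h2⟩ := h2 a le_rfl γ hγ η hη
  filter_upwards [ep_le hγ hα a, eventually_ge_atTop j0] with j h1 hj J hJ
  obtain ⟨e, z, f⟩ := law_lev hγ (ll J) hJ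
  have := law_prob hγ J (ll J) (J - j)
  have h3 := h2 j hj J _ hJ (adm J)
  have e1 : ep γ a J (ll J) (J + 1 - j) = (LL (ll j) : ℝ) ^ a / √(γ * nn j) := by
    simp only [ep, bq, show J + 1 - (J + 1 - j) = j by omega,
      if_neg (show J + 1 - j ≠ 0 by omega)]
  refine (ENNReal.ofReal_le_iff_le_toReal (by finiteness)).1 ?_
  rw [e, lawOf, Measure.map_apply (meas_per _) (meas_cv _), Measure.smul_apply,
    withDensity_apply _ (meas_per _ (meas_cv _)), smul_eq_mul, ← ENNReal.div_eq_inv_mul,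
    ENNReal.le_div_iff_mul_le (.inl z) (.inl f), ← lintegral_indicator (meas_per _ (meas_cv _))]
  refine h3.trans (lintegral_mono fun U => ?_)
  split_ifs with h
  · rw [Set.indicator_of_mem]
    · exact rhoG_le ..
    · exact fun x μ ν => (h x μ ν).trans (e1.trans_le h1)
  · simp

end En

open En in
theorem continuum_of (hp : Pair) (hb : Bad) (hf : Fluct) (γ : ℝ) (hγ : 0 < γ) :
    ∃ μ : ℕ → Measure Conf,
    (∀ j, IsProbabilityMeasure (μ j) ∧ μ j = av1 γ j (ll j) (μ (j + 1))) ∧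
    (∀ j, ∀ η > 0, ∃ J0, ∀ J l, J0 ≤ J → Adm J l → ∀ A, MeasurableSet A →
      |(law γ J l (J - j)).real A - (μ j).real A| ≤ η) ∧
    (∀ α < (2⁻¹ : ℝ), Filter.Tendsto (fun j => (μ j).real {U | curvG ((nn j : ℝ) ^ (-α)) U})
      Filter.atTop (nhds 1)) ∧
    ∃ c > 0, ∀ᶠ j in Filter.atTop,
      (μ j).real {U | ‖(hol Inv.inv U 0 0 1).q - 1‖ ≤ c / √(nn j)} ≤ 2⁻¹ := by
  obtain ⟨μ, p, h1, h2⟩ := CE.family (fun (c : ℕ → ℕ) k j => law γ (j + k) (c (j + k)) k)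
    (fun j => av1 γ j (ll j)) (fun _ => {c | ∀ J, Adm J (c J)}) ll (fun _ => adm)
    (fun _ _ _ => le_rfl) (fun c k j => law_prob hγ _ _ _) (fun j => contr hγ j _)
    (fun j c _ k => by
      simp only [law, show j + (k + 1) - (k + 1) = j by omega, show j + 1 + k = j + (k + 1) by ring])
    fun e he j => by
      obtain ⟨η, -, h0, hη⟩ := ENNReal.lt_iff_exists_real_btwn.1 he
      obtain ⟨j0, h⟩ := cauchy hp hb hγ (ENNReal.ofReal_pos.1 h0)
      obtain ⟨J0, h⟩ := h (j + j0) (by omega)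
      refine ⟨j + j0, by omega, J0, fun c hc c' hc' k hk k' hk' => ?_⟩
      have := h (j + j0 + k) _ (j + j0 + k') _ (by omega) (by omega) (hc _) (hc' _)
      rw [Nat.add_sub_cancel_left, Nat.add_sub_cancel_left] at this
      exact this.mono hη.le
  have h3 : ∀ j, ∀ η > 0, ∃ J0, ∀ J l, J0 ≤ J → Adm J l → ∀ A, MeasurableSet A →
      |(law γ J l (J - j)).real A - (μ j).real A| ≤ η := fun j η hη => by
    obtain ⟨i, hi⟩ := h2 j _ (ENNReal.ofReal_pos.2 hη)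
    refine ⟨i + j, fun J l hJ hl => ?_⟩
    have := (hi (Function.update ll J l) (fun J' => by
      rcases eq_or_ne J' J with rfl | h
      · simpa
      · simpa [h] using adm J') (J - j) (by omega)).1
    simp only [show j + (J - j) = J by omega, Function.update_self] at this
    have := law_prob hγ J l (J - j)
    exact le_abs hη.le ‹_›
  refine ⟨μ, fun j => ⟨p j, h1 j⟩, h3, fun α hα => ?_, ?_⟩
  · refine tendsto_order.2 ⟨fun b h0 => ?_, fun b h0 => .of_forall fun j =>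
      measureReal_le_one.trans_lt h0⟩
    have hη : 0 < (1 - b) / 3 := by linarith
    filter_upwards [good hb hγ hα hη] with j hj
    obtain ⟨J0, h⟩ := h3 j _ hη
    linarith [hj (J0 + j) (by omega),
      (abs_le.1 (h (J0 + j) _ (by omega) (adm _) _ (meas_cv ((nn j : ℝ) ^ (-α))))).2]
  · obtain ⟨c, hc, h⟩ := hf
    obtain ⟨j0, h⟩ := h γ hγ
    refine ⟨c / √γ, by positivity, ?_⟩
    filter_upwards [eventually_ge_atTop j0] with j hj
    refine le_of_forall_pos_le_add fun η hη => ?_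
    obtain ⟨J0, h'⟩ := h3 j η hη
    rw [div_div, ← Real.sqrt_mul hγ.le]
    linarith [h j hj (J0 + j) _ (by omega) (adm _),
      (abs_le.1 (h' (J0 + j) _ (by omega) (adm _) _ (meas_pl 0 0 1 (c / √(γ * nn j))))).1]

open En Fi YM3 in
/-- the statement on discrete tori -/
theorem torus_of (hp : Pair) (hb : Bad) (hf : Fluct) [m : MeasurableSpace SU2] [BorelSpace SU2]
    (h : Measure SU2) [h.IsHaarMeasure] [IsProbabilityMeasure h] (γ : ℝ) (hγ : 0 < γ) :
    ∃ μ : ∀ j : ℕ, Measure (Cfg (2 * 3 ^ j ^ 2)),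
      (∀ j, IsProbabilityMeasure (μ j) ∧ μ j = step h γ (3 ^ (2 * j + 1) / 2) (μ (j + 1))) ∧
      (∀ j, ∀ η > 0, ∃ k0, ∀ k ≥ k0, ∀ l : ℕ, 3 ^ (2 * (j + k) + 1) ≤ 2 * l + 1 →
        2 * l + 1 ≤ 27 ^ (2 * (j + k) + 1) → ∀ A, MeasurableSet A →
          |(YM3.law h γ l k j).real A - (μ j).real A| ≤ η) ∧
      (∀ α < (2⁻¹ : ℝ), Tendsto (fun j => (μ j).real
        {U | ∀ x i k, ‖(plaq U x i k).1 - 1‖ ≤ (2 * 3 ^ j ^ 2 : ℝ) ^ (-α)}) atTop (𝓝 1)) ∧
      ∃ c > 0, ∀ᶠ j in atTop,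
        (μ j).real {U | ‖(plaq U 0 0 1).1 - 1‖ ≤ c / √(2 * 3 ^ j ^ 2)} ≤ 2⁻¹ := by
  obtain rfl : m = mS := BorelSpace.measurable_eq
  have : (tr haar).IsHaarMeasure := (inferInstance : haar.IsHaarMeasure)
  obtain rfl := Measure.isHaarMeasure_eq_of_isProbabilityMeasure h (tr haar)
  obtain ⟨μ, h1, h2, h3, c, hc, h4⟩ := continuum_of hp hb hf γ hγ
  have fx : ∀ j, ((μ j).map (rs (2 * 3 ^ j ^ 2))).map lf = μ j := fun j => by
    rw [(h1 j).2]
    exact fix_step ..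
  have e : ∀ j, (nn j : ℝ) = 2 * 3 ^ j ^ 2 := fun j => by simp [nn]
  refine ⟨fun j => (μ j).map (rs _), fun j => ?_, fun j η hη => ?_, fun α hα => ?_, c, hc, ?_⟩
  · have := (h1 j).1
    have := (h1 (j + 1)).1
    exact ⟨Measure.isProbabilityMeasure_map meas_rs.aemeasurable,
      (congrArg _ (h1 j).2).trans (av1_res hγ j _ (fx _))⟩
  · obtain ⟨J0, h⟩ := h2 j η hη
    refine ⟨J0, fun k hk l h5 h6 A hA => ?_⟩
    have := h (j + k) l (by omega) ⟨by rwa [M3.LL_ll], by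
      rwa [M3.LL_ll, ← pow_mul, mul_comm _ 3, pow_mul]⟩ _ (meas_rs hA)
    rwa [← law_res hγ, map_measureReal_apply meas_rs hA, map_measureReal_apply meas_rs hA,
      Nat.add_sub_cancel_left] at *
  · refine (h3 α hα).congr fun j => ?_
    rw [← fx j, map_measureReal_apply meas_lf (meas_cv _), e]
    congr 1
    ext U
    refine ⟨fun h x i k => ?_, fun h x i k => ?_⟩
    · rw [← cst_vl x, ← hol_lift]
      exact h _ i k
    · have := h (cst _ x) i k
      rwa [← hol_lift] at this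
  · filter_upwards [h4] with j hj
    rw [← fx j, map_measureReal_apply meas_lf (meas_pl ..), e] at hj
    convert hj using 2
    ext U
    rw [Set.mem_ofPred_eq, ← cst_zero, ← hol_lift]
    rfl

end Pool.Agent.Lib.MP_7f377f_mp.RG.D3
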