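import Pool.Agent.Lib.MP_7f377f_mp.R3LvR
import Pool.Agent.Lib.MP_7f377f_mp.R3End
import Pool.Agent.Lib.MP_7f377f_mp.P3Main
import Pool.Agent.Lib.MP_7f377f_mp.R3MeasLaw

/-! The three inputs of the continuum limit in three dimensions. -/

noncomputable section

namespace Pool.Agent.Lib.MP_7f377f_mp.RG.D3

open MeasureTheory

theorem pair_main : En.Pair := JC.pair_of JC.num_main JC.num_top'

theorem bad_main : En.Bad := Pv.bad_of (JC.sand_of JC.num_main JC.num_top')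

theorem fluct_main : En.Fluct :=
  Nn.fluct_of (JC.lev_of JC.num_main JC.num_top') bad_main law_eq

theorem continuum (γ : ℝ) (hγ : 0 < γ) : ∃ μ : ℕ → Measure Conf,
    (∀ j, IsProbabilityMeasure (μ j) ∧ μ j = av1 γ j (ll j) (μ (j + 1))) ∧
    (∀ j, ∀ η > 0, ∃ J0, ∀ J l, J0 ≤ J → Adm J l → ∀ A, MeasurableSet A →
      |(law γ J l (J - j)).real A - (μ j).real A| ≤ η) ∧
    (∀ α < (2⁻¹ : ℝ), Filter.Tendsto (fun j => (μ j).real {U | curvG ((nn j : ℝ) ^ (-α)) U})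
      Filter.atTop (nhds 1)) ∧
    ∃ c > 0, ∀ᶠ j in Filter.atTop,
      (μ j).real {U | ‖(hol Inv.inv U 0 0 1).q - 1‖ ≤ c / √(nn j)} ≤ 2⁻¹ :=
  continuum_of pair_main bad_main fluct_main γ hγ

end Pool.Agent.Lib.MP_7f377f_mp.RG.D3
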