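import Pool.Agent.Lib.MP_7f377f_mp.HFLevA
import Pool.Agent.Lib.MP_7f377f_mp.HFDefs
import Pool.Agent.Lib.MP_7f377f_mp.R3LvZ

/-! Persistence in time of the smeared curvature at a fixed level. -/

noncomputable section

namespace Pool.Agent.Lib.MP_7f377f_mp.RG.D3.Hf

open Finset MeasureTheory Real
open scoped ENNReal InnerProductSpace

theorem Lv.close {A n k r l N : ℕ} {β ε d g c x : ℝ} {m : BF} {F G : Conf → ℝ≥0∞} {a : Conf → ℝ}
    (H : Lv A n β ε d m F G a) (hm : Inv k r 3 1 m) (hb : Bd r r c m) (c0 : 0 ≤ c) (hl : 1 ≤ l)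
    (hN : 1 ≤ N) (hA : 2 * l + r + 10 ≤ A) (hg : β * g ^ 2 = 1) (g0 : 0 < g) (h1 : 2 * N * g ≤ ε)
    (h2 : A * ε ≤ d) (h3 : 1000 * (10 * A + 1) * ε ≤ 1) (h4 : 10 ^ 6 * ((10 * A + 1) * ε) ^ 2 ≤ ε)
    (h5 : 12 * 10 ^ 12 * l ^ 9 * (c + 1) ^ 2 * (r + 1) ^ 7 * ε ^ 2 ≤ x * A * g ^ 2) :
    ∃ y ∈ box A, PP.withDensity G {U | 112 * N * l ^ 2 * g <
      |‖ov l A y (per n U)‖ - ‖ov l A ((4 : ℤ) • un 0 + y) (per n U)‖|} ≤
      ENNReal.ofReal (6 * exp (5⁻¹ - N ^ 2) + x) * ∫⁻ U, F U ∂PP := by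
  obtain ⟨h, p1, p2⟩ := lin_pers hm hb c0 hl hA
  have l1 : (1 : ℝ) ≤ l := by exact_mod_cast hl
  have N1 : (1 : ℝ) ≤ N := by exact_mod_cast hN
  have A1 : (1 : ℝ) ≤ A := by exact_mod_cast (show 1 ≤ A by omega)
  have x0 : 0 ≤ x := nonneg_of_mul_nonneg_left (a := x) (b := A * g ^ 2)
    (by rw [← mul_assoc]; exact le_trans (by positivity) h5) (by positivity)
  obtain ⟨E, hE⟩ : ∃ E : St → Conf → E3, ∀ y W,
    E y W = ov l A ((4 : ℤ) • un 0 + y) W - ov l A y W - XX m A (h y) W := ⟨_, fun _ _ => rfl⟩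
  have e1 : ∀ y W a, E y W a =
      JJ l (D3.sh y (reF (BB A W) a)) - MM m (5 * A) (h y) (reF (BB A W) a) := fun y W a => by
    rw [hE, JJ_apply, PiLp.sub_apply, PiLp.sub_apply, ov_apply, ov_apply]
    simp only [dd_sh, ph_sh l fun x => dd (reF (BB A W) a) x 1 2, zero_add, XX]
  obtain ⟨y, hy, p3⟩ := pigeon (μ := PP.withDensity G) (Y := box A) ⟨0, zero_mem_box A⟩
    (q := fun y U => ‖E y (per n U)‖ ^ 2 / g ^ 2) (fun y => by
      have : Measurable (E y) := by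
        rw [funext (hE y)]
        exact ((meas_ov _ _ _).sub (meas_ov _ _ _)).sub
          (meas_E3 fun a => (meas_MM hm.rng _ _).comp (meas_BB A a))
      exact ((this.comp (Pv.cont_per n).measurable).norm.pow_const 2).div_const _)
    (fun _ _ => by positivity) (x := x) ((ae_withDensity_iff H.mG).2 (.of_forall fun U hU => by
      have b1 : Cv (6 * A) (2 * ε) (BB A (per n U)) :=
        ((real_fix (R := 10 * A) (H.good U hU) (by push_cast; linarith)).2.2.mono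
          (show 6 * A + 4 * A ≤ _ by omega) (by push_cast; linarith)).sh (ct_mem A)
      simp only [EuclideanSpace.real_norm_sq_eq, e1, ← sum_div]
      rw [sum_comm, div_le_iff₀ (by positivity), card_box]
      refine (sum_le_card_nsmul _ _ _ fun a _ => p2 _ _ (b1.reF a)).trans ?_
      have b2 := mul_le_mul_of_nonneg_right h5 (sq_nonneg (A : ℝ))
      have b3 : (A : ℝ) ^ 3 ≤ (2 * A + 1) ^ 3 := by gcongr; linarith
      have b4 := mul_le_mul_of_nonneg_right b3 (show 0 ≤ x * g ^ 2 by positivity)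
      simp only [card_univ, Fintype.card_fin, nsmul_eq_mul]
      push_cast
      linarith))
  obtain ⟨q1, q2, q3, q4⟩ := p1 y hy
  have l2 : (0 : ℝ) < l ^ 2 := by positivity
  have s1 : N * g / (28 * l ^ 2) * (28 * l ^ 2) = N * g := by field_simp
  have p4 := H.tail hg (s := N * g / (28 * l ^ 2)) (by positivity) s1 q1 q2 q3 q4
    (by nlinarith [mul_le_mul_of_nonneg_left h1 (show (0 : ℝ) ≤ A by positivity)])
    (by nlinarith [mul_pos (show (0 : ℝ) < N by positivity) g0])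
  refine ⟨y, hy, (measure_mono fun U hU => ?_).trans ((measure_union_le _ _).trans
    ((add_le_add p4 p3).trans ?_))⟩
  · by_contra h'
    simp only [Set.mem_union, Set.mem_ofPred_eq, not_or, not_lt] at h' hU
    have b1 : ‖E y (per n U)‖ ≤ g :=
      abs_le_of_sq_le_sq' ((div_le_one (by positivity)).1 h'.2) g0.le |>.2
    have b2 := norm_add_le_of_le b1 h'.1
    rw [hE, sub_add_cancel, norm_sub_rev] at b2
    have b3 := (abs_norm_sub_norm_le _ _).trans b2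
    nlinarith [mul_le_mul_of_nonneg_right (one_le_mul_of_one_le_of_one_le N1 (one_le_pow₀ l1 (n := 2)))
      g0.le]
  · rw [withDensity_apply', Measure.restrict_univ, ENNReal.ofReal_add (by positivity) x0, add_mul,
      ENNReal.ofReal_mul (by norm_num), ENNReal.ofReal_ofNat, mul_assoc]
    exact add_le_add_right (mul_le_mul_right (lintegral_mono H.le) _) _

theorem nums {A g ε R c κ l β : ℝ} (hA : 10 ^ 12 ≤ A) (g0 : 0 < g) (hg : A ^ 20 * g ≤ 1)
    (hβ : β * g ^ 2 = 1) (ε0 : 0 ≤ ε) (hε : ε ≤ A * g) (R0 : 0 ≤ R) (hR : R ≤ A) (c0 : 0 ≤ c)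
    (hc : c ≤ A) (κ0 : 0 ≤ κ) (hκ : κ * A ^ 4 ≤ 1) (l0 : 0 ≤ l) (hl : l ≤ A) :
    10 ^ 6 * (300 * A * ε) ^ 2 ≤ ε ∧ 10 ^ 5 * A * (300 * A * ε) ≤ 1 ∧
      1000 * (R + 1) * (7 * ε) ≤ 1 ∧ 10 ^ 6 * ((R + 1) * (7 * ε)) ^ 2 ≤ 7 * ε ∧
      β * ((10 * A + 1) ^ 3 * (2 * 10 ^ 9 * c * (A * (300 * A * ε)) ^ 3)) ≤ 20⁻¹ ∧
      (6 * A + 2 * R + 7) ^ 3 * (2 * κ) ≤ 20⁻¹ ∧
      l ^ 4 * (2 * (10 ^ 8 * (A * (300 * A * ε)) ^ 2)) ≤ g := by
  have A0 : 0 < A := by linarith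
  have β0 : 0 ≤ β := by nlinarith [sq_nonneg g]
  have h1 : ∀ k ≤ 19, A ^ k * ε ≤ 1 := fun k hk =>
    (mul_le_mul (pow_le_pow_right₀ (by linarith) hk) hε ε0 (by positivity)).trans
      (le_of_eq_of_le (by ring) hg)
  have hR' : R + 1 ≤ 2 * A := by linarith
  refine ⟨?_, le_trans ?_ (h1 3 (by norm_num)), le_trans ?_ (h1 2 (by norm_num)), ?_, ?_, ?_, ?_⟩
  · calc _ = 9 * 10 ^ 10 * A ^ 2 * ε * ε := by ring
      _ ≤ A * A ^ 2 * ε * ε := by gcongr; linarith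
      _ ≤ _ := mul_le_of_le_one_left ε0 (by linarith [h1 3 (by norm_num)])
  · calc _ = 3 * 10 ^ 7 * A ^ 2 * ε := by ring
      _ ≤ A * A ^ 2 * ε := by gcongr; linarith
      _ = _ := by ring
  · calc _ = 7000 * (R + 1) * ε := by ring
      _ ≤ A / 2 * (2 * A) * ε := by gcongr; linarith
      _ = _ := by ring
  · calc _ = 7 * 10 ^ 6 * (R + 1) ^ 2 * ε * (7 * ε) := by ring
      _ ≤ A / 4 * (2 * A) ^ 2 * ε * (7 * ε) := by gcongr; linarith
      _ ≤ _ := mul_le_of_le_one_left (by positivity) (by linarith [h1 3 (by norm_num)])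
  · calc _ = 20⁻¹ * (108 * 10 ^ 16 * (10 * A + 1) ^ 3 * c * A ^ 6 * (β * ε ^ 2) * ε) := by ring
      _ ≤ 20⁻¹ * (A ^ 2 / 11 ^ 3 * (11 * A) ^ 3 * A * A ^ 6 * (β * (A * g) ^ 2) * ε) := by
          gcongr <;> nlinarith
      _ = 20⁻¹ * (A ^ 14 * ε * (β * g ^ 2)) := by ring
      _ ≤ _ := by rw [hβ]; linarith [h1 14 (by norm_num)]
  · calc _ = 20⁻¹ * (κ * (40 * (6 * A + 2 * R + 7) ^ 3)) := by ring
      _ ≤ 20⁻¹ * (κ * (A / 9 ^ 3 * (9 * A) ^ 3)) := by gcongr <;> linarith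
      _ = 20⁻¹ * (κ * A ^ 4) := by ring
      _ ≤ _ := by linarith
  · calc _ = 18 * 10 ^ 12 * l ^ 4 * A ^ 4 * ε * ε := by ring
      _ ≤ A ^ 2 * A ^ 4 * A ^ 4 * ε * (A * g) := by gcongr; nlinarith
      _ = A ^ 11 * ε * g := by ring
      _ ≤ _ := mul_le_of_le_one_left g0.le (h1 11 (by norm_num))

theorem lawOf_le {n : ℕ} {f : Conf → ℝ≥0∞} {B : Set Conf} (mB : MeasurableSet B) {x : ℝ}
    (x0 : 0 ≤ x) (h0 : 0 < ∫⁻ U, f (per n U) ∂PP) (h1 : ∫⁻ U, f (per n U) ∂PP < ∞)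
    (h : ∫⁻ U in per n ⁻¹' B, f (per n U) ∂PP ≤ ENNReal.ofReal x * ∫⁻ U, f (per n U) ∂PP) :
    (lawOf n f).real B ≤ x := by
  rw [lawOf, Measure.real, Measure.map_apply (Pv.cont_per n).measurable mB, Measure.smul_apply,
    withDensity_apply', smul_eq_mul]
  refine ENNReal.toReal_le_of_le_ofReal x0 ?_
  rwa [ENNReal.inv_mul_le_iff h0.ne' h1.ne, mul_comm]

theorem e4_mem {A : ℕ} {y : St} (hy : y ∈ box A) : (4 : ℤ) • un 0 + y ∈ box (A + 4) :=
  add_comm 4 A ▸ add_mem_box (mem_box.2 fun i => by fin_cases i <;> simp [un_apply]) hy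

open Classical in
theorem lev_core {γ e : ℝ} (hγ : 0 < γ) (he : 0 < e) : ∃ N l K j0 : ℕ, 1 ≤ N ∧ 1 ≤ l ∧ ∀ j ≥ j0,
    ∀ A, A = LL (ll j) ^ K → 1 ≤ A ∧ 22 * A + 10 < nn j ∧ ∀ J l', j ≤ J → Adm J l' → ∃ y ∈ box A,
      (law γ J l' (J - j)).real {U | 112 * N * l ^ 2 * (√(γ * nn j))⁻¹ <
        |‖ov l A y U‖ - ‖ov l A ((4 : ℤ) • un 0 + y) U‖|} ≤ e ∧
      ∀ t, (law γ J l' (J - j)).real {U | t < ‖ov l A ((4 : ℤ) • un 0 + y) U‖ ∧
        ‖ov l A ((4 : ℤ) • un 0 + y) U‖ ≤ t + 112 * N * l ^ 2 * (√(γ * nn j))⁻¹} ≤ e := by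
  obtain ⟨a0, ha0⟩ := JC.lev_of JC.num_main JC.num_top'
  obtain ⟨a1, ha1⟩ := bad_main
  obtain ⟨b, hb⟩ := ha0 (a0 + a1 + 1) (by omega)
  replace ha1 := ha1 (a0 + a1 + 1) (by omega)
  have a1' : 1 ≤ a0 + a1 + 1 := by omega
  generalize a0 + a1 + 1 = a at hb ha1 a1'
  obtain ⟨c, hc⟩ := inv_bd
  obtain ⟨C, hC⟩ := inv_U1
  obtain ⟨N, hN⟩ := exists_nat_gt (48 / e)
  have N0 : 0 < N := Nat.cast_pos.1 (lt_trans (by positivity) hN)
  obtain ⟨l, hl⟩ := exists_nat_ge (2 * 10 ^ 12 * (|C| + 1) * N ^ 4)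
  have N1 : (1 : ℝ) ≤ N := by exact_mod_cast N0
  have l2 : 2 * 10 ^ 12 * (N : ℝ) ^ 4 ≤ l := by
    nlinarith [mul_nonneg (abs_nonneg C) (pow_nonneg N.cast_nonneg 4)]
  have l3 : 1120 * (N : ℝ) ^ 2 ≤ l := by nlinarith [one_le_pow₀ N1 (n := 2)]
  have l1 : (1 : ℝ) ≤ l := by nlinarith [one_le_pow₀ N1 (n := 2)]
  have l0 : 1 ≤ l := by exact_mod_cast l1
  obtain ⟨j0, hj0⟩ := hb γ hγ 40⁻¹ (by norm_num)
  obtain ⟨j1, hj1⟩ := ha1 γ hγ (e / 4) (by positivity)
  obtain ⟨j2, hj2⟩ := Nn.big ((a + b + 3 * c + 4) * 23 * 40) hγ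
  obtain ⟨j3, hj3⟩ := Nn.big ((a + b + 3 * c + 4) * 23 * 2) one_pos
  refine ⟨N, l, (a + b + 3 * c + 4) * 23, j0 + j1 + j2 + j3 + c + 10 ^ 13 + 2 * N + l, N0, l0,
    fun j hj A hA => ?_⟩
  replace hj2 := hj2 j (by omega)
  replace hj3 := hj3 j (by omega)
  have hL := Pv.le_LL j
  have hr : j ^ 3 ≤ LL (ll j) ^ 3 := Nat.pow_le_pow_left hL 3
  have hcr : c ≤ j ^ 3 := le_trans (by omega) (Nat.le_self_pow (by norm_num) j)
  have hL1 : 10 ^ 13 + 2 * N + l ≤ LL (ll j) := by omega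
  rw [pow_mul, ← Nat.cast_pow, ← hA] at hj2 hj3
  obtain ⟨P, hP⟩ : ∃ P, P = LL (ll j) ^ (a + b + 3 * c + 4) := ⟨_, rfl⟩
  rw [pow_mul, ← hP] at hA
  have hp : ∀ i, i < a + b + 3 * c + 4 → 2 * LL (ll j) ^ i ≤ P := fun i hi =>
    (Nat.mul_le_mul_right _ (show 2 ≤ LL (ll j) by omega)).trans ((pow_succ' _ i).symm.trans_le
      (hP ▸ Nat.pow_le_pow_right (by omega) hi))
  have p1 : LL (ll j) ≤ P := by have := hp 1 (by omega); rw [pow_one] at this; omega
  have p2 : LL (ll j) ^ a ≤ P := by have := hp a (by omega); omega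
  have p3 : j ^ 3 + 1 ≤ P := by
    have := hp 3 (by omega)
    have := Nat.one_le_pow 3 (LL (ll j)) (by omega)
    omega
  have p5 : (j ^ 3) ^ c + 1 ≤ P := by
    have := hp (3 * c) (by omega)
    have := (Nat.pow_le_pow_left hr c).trans_eq (pow_mul _ _ _).symm
    have := Nat.one_le_pow (3 * c) (LL (ll j)) (by omega)
    omega
  have p6 : 10 ^ 13 * P ≤ A := hA ▸ (Nat.mul_le_mul_right _ (show 10 ^ 13 ≤ P by omega)).trans
    ((sq P).symm.trans_le (Nat.pow_le_pow_right (by omega) (by norm_num)))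
  have hn : 22 * A + 10 < nn j := by
    have : A ^ 2 ≤ nn j := by exact_mod_cast hj3.trans_eq (one_mul _)
    nlinarith only [this, show 10 ^ 13 ≤ A by omega]
  refine ⟨by omega, hn, fun J l' hJ h => ?_⟩
  obtain ⟨k, R, m, φ, E, δ, hm, hR, hφ, hδ, -, hU⟩ := hj0 j (by omega) J l' hJ h
  replace hj1 := hj1 j (by omega) J l' hJ h
  obtain ⟨e1, e2, e3⟩ := law_eq hγ J l' (J - j) (by omega)
  rw [show J - (J - j) = j by omega, show J - j + 1 = J + 1 - j by omega] at e1 e2 e3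
  have e4 : ep γ a J l' (J + 1 - j) = (LL (ll j) : ℝ) ^ a * (√(γ * nn j))⁻¹ := by
    rw [ep, bq, if_neg (by omega), show J + 1 - (J + 1 - j) = j by omega, div_eq_mul_inv]
  have mG : Measurable (rG γ a J l' (J + 1 - j) (nn j)) := Pv.meas_rhoG _ _ _ _ _ _
  have mr : Measurable (rr γ J l' (J + 1 - j) (nn j)) := by
    rw [rr, ← Pv.rhoG_two]
    exact Pv.meas_rhoG _ _ _ _ _ _
  have hle : ∀ U, rG γ a J l' (J + 1 - j) (nn j) U ≤ rr γ J l' (J + 1 - j) (nn j) U :=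
    Nn.rhoG_le _ _ _ _ _ _
  have p4 : R ≤ P := by have := hp b (by omega); omega
  have p7 : 2 * N ≤ LL (ll j) ^ a := le_trans (by omega) (Nat.le_self_pow (by omega) _)
  rw [e1]
  rw [e4] at hj1
  clear e1 e4 hb ha0 ha1 hj0 hp hP hr hR hj3
  generalize rG γ a J l' (J + 1 - j) (nn j) = fG at *
  generalize rr γ J l' (J + 1 - j) (nn j) = f at *
  generalize LL (ll j) = L at *
  generalize nn j = n at *
  generalize j ^ 3 = r at *
  generalize γ * n = β at *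
  have A1 : (10 : ℝ) ^ 12 ≤ A := by exact_mod_cast (show 10 ^ 12 ≤ A by omega)
  have β0 : 0 < β := lt_of_lt_of_le (by positivity) hj2
  have s0 := sqrt_pos.2 β0
  have g1 : β * (√β)⁻¹ ^ 2 = 1 := by rw [inv_pow, sq_sqrt β0.le, mul_inv_cancel₀ β0.ne']
  have g2 : (A : ℝ) ^ 20 * (√β)⁻¹ ≤ 1 :=
    (mul_inv_le_iff₀ s0).2 ((le_sqrt_of_sq_le (by rwa [← pow_mul])).trans_eq (one_mul _).symm)
  rw [← div_le_iff₀ s0, div_eq_mul_inv, pow_succ, mul_right_comm] at hδ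
  have g0 := inv_pos.2 s0
  generalize (√β)⁻¹ = g at *
  have q2 : (L : ℝ) ^ a ≤ P := by exact_mod_cast p2
  have q6 : (P : ℝ) ≤ A := by exact_mod_cast (show P ≤ A by omega)
  have q7 : 2 * (N : ℝ) * g ≤ L ^ a * g := mul_le_mul_of_nonneg_right (by exact_mod_cast p7) g0.le
  have q8 : (L : ℝ) ^ a * g ≤ P * g := mul_le_mul_of_nonneg_right q2 g0.le
  have q9 : (7 : ℝ) ≤ L := by exact_mod_cast (show 7 ≤ L by omega)
  have ε0 : 0 ≤ (L : ℝ) ^ a * g := by positivity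
  generalize (L : ℝ) ^ a * g = ε at *
  obtain ⟨n1, n2, n3, n4, n5, n6, n7⟩ := nums (R := R) (c := r ^ c) (κ := β ^ (-4⁻¹ : ℝ)) (l := l)
    A1 g0 g2 g1 ε0 (q8.trans (by gcongr)) (by positivity) (by exact_mod_cast (show R ≤ A by omega))
    (by positivity) (by exact_mod_cast (show r ^ c ≤ A by omega)) (by positivity) (by
      refine (mul_le_mul_of_nonneg_right (rpow_le_rpow_of_nonpos (by positivity)
        ((pow_le_pow_right₀ (by linarith) (show 16 ≤ 40 by norm_num)).trans hj2) (by norm_num))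
        (by positivity)).trans_eq ?_
      rw [← rpow_natCast, ← rpow_natCast, ← rpow_mul (by positivity), ← rpow_add (by positivity)]
      norm_num) (by positivity) (by exact_mod_cast (show l ≤ A by omega))
  have n8 : 7 * ε ≤ δ := le_trans (by nlinarith only [ε0, q9]) hδ
  have n9 : ε ≤ A * ε := le_mul_of_one_le_left ε0 (by linarith only [A1])
  have hb := hc _ _ _ _ _ hcr (by norm_num) hm
  have mp := (Pv.cont_per n).measurable
  have H : Lv A n β ε (300 * A * ε) m (fun U => f (per n U))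
      (fun U => if curvG ε (per n U) then fG (per n U) else 0)
      fun U => act β m φ n (per n U) - E - 40⁻¹ :=
    { mF := mr.comp mp
      mG := Measurable.ite (mp (Pv.meas_curv ε)) (mG.comp mp) measurable_const
      le := fun U => by
        split_ifs
        exacts [hle _, zero_le]
      good := fun U h => by_contra fun h' => h (if_neg h')
      up := fun U => by
        split_ifs with h'
        · exact (hU _ (Pv.per_per n U) (h'.mono (by linarith))).2.trans_eq (by congr 2; ring)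
        · exact zero_le
      sh := fun h v D h0 h1 h2 h3 => by
        obtain ⟨S, hS, h4⟩ := shift hm hb (by positivity) hφ β0.le (by omega)
          (show 20 * A + 2 * R + 10 < n by omega) h0 h1 h2 h3 (by linarith only [n9, ε0]) n1 n2 n3
          (by linarith only [n4, n8])
        refine ⟨S, hS, fun U h' => ⟨le_trans (ENNReal.ofReal_le_ofReal (exp_le_exp.2 ?_))
          (hU _ (Pv.per_per n _) ((h4 U h').1.mono n8)).1, (h4 U h').2.2⟩⟩
        have := (abs_le.1 (h4 U h').2.1).2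
        rw [inner_XX] at this
        linarith }
  have hN' : 48 < N * e := (div_lt_iff₀ he).1 hN
  have w1 : g ≤ 112 * N * l ^ 2 * g := le_mul_of_one_le_left g0.le (by
    linarith only [one_le_mul_of_one_le_of_one_le N1 (one_le_pow₀ l1 (n := 2))])
  have A2 : A * ε ≤ A * (A * ε) := mul_le_mul_of_nonneg_left n9 (by positivity)
  obtain ⟨y, hy, h1⟩ := H.close hm hb (by positivity) l0 N0 (by omega) g1 g0 q7
    (by linarith only [n9, ε0]) (by linarith only [n2, n9, A2, ε0])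
    (le_trans (by gcongr; linarith only [A1]) n1) (x := e / 4) (by
      have b1 : (l : ℝ) ≤ P := by exact_mod_cast (show l ≤ P by omega)
      have b2 : (r : ℝ) ^ c + 1 ≤ P := by exact_mod_cast p5
      have b3 : (r : ℝ) + 1 ≤ P := by exact_mod_cast p3
      have b4 : (N : ℝ) ≤ P := by exact_mod_cast (show N ≤ P by omega)
      have b5 : (10 : ℝ) ^ 13 ≤ P := by exact_mod_cast (show 10 ^ 13 ≤ P by omega)
      calc _ ≤ N * e / 4 * 10 ^ 12 * P ^ 9 * P ^ 2 * P ^ 7 * (P * g) ^ 2 := by gcongr; linarith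
        _ = e / 4 * (N * 10 ^ 12 * 1 * P ^ 20) * g ^ 2 := by ring
        _ ≤ e / 4 * (P * P * P * P ^ 20) * g ^ 2 := by gcongr <;> linarith
        _ = _ := by rw [hA]; push_cast; ring)
  have fin : ∀ {B : Set Conf} {x : ℝ}, MeasurableSet B → 0 ≤ x → x ≤ e / 2 → PP.withDensity
      (fun U => if curvG ε (per n U) then fG (per n U) else 0) (per n ⁻¹' B) ≤
        ENNReal.ofReal x * ∫⁻ U, f (per n U) ∂PP → (lawOf n f).real B ≤ e := fun mB x0 x1 h => by
    rw [withDensity_apply'] at h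
    exact (lawOf_le mB (by positivity) e2 e3
      (prob_le (mp mB) H.le e3 (by positivity) x0 hj1 h)).trans (by linarith)
  have m1 := fun z => (meas_ov l A z).norm
  refine ⟨y, hy, fin (measurableSet_lt measurable_const ((m1 _).sub (m1 _)).abs) (by positivity)
    ?_ h1, fun t => fin ((measurableSet_lt measurable_const (m1 _)).inter
      (measurableSet_le (m1 _) measurable_const)) (x := 6 * (2 / N)) (by positivity) ?_ ?_⟩
  · have b1 := add_one_le_exp (N ^ 2 - 5⁻¹ : ℝ)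
    have b2 : exp (5⁻¹ - N ^ 2) * exp (N ^ 2 - 5⁻¹) = 1 := by rw [← exp_add]; simp
    have b3 : exp (5⁻¹ - N ^ 2) * N ≤ 1 := b2 ▸ mul_le_mul_of_nonneg_left
      (by nlinarith only [b1, N1]) (exp_pos _).le
    nlinarith only [exp_pos (5⁻¹ - N ^ 2 : ℝ), b3, hN', N1]
  · rw [← mul_div_assoc, div_le_iff₀ (by positivity)]
    linarith
  · have t1 : N * (1120 * N * g / l ^ 2) * l ≤ g := by
      rw [show N * (1120 * N * g / l ^ 2) * l = 1120 * N ^ 2 / l * g by field_simp]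
      exact mul_le_of_le_one_left g0.le ((div_le_one (by positivity)).2 l3)
    have t0 : N * (1120 * N * g / l ^ 2) ≤ g := (le_mul_of_one_le_right (by positivity) l1).trans t1
    have t2 : 2 * g ≤ ε := by linarith only [q7, le_mul_of_one_le_left g0.le N1]
    rw [ENNReal.ofReal_mul (by norm_num), ENNReal.ofReal_ofNat, mul_assoc (6 : ℝ≥0∞)]
    refine H.anti β0.le l0 (e4_mem hy) (by omega) (by positivity)
      (t := 1120 * N * g / l ^ 2) (by field_simp; ring) (tent_en (hC _ _ _ _ _ (by norm_num) hm) l0 _)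
      ?_ (by rw [mul_assoc, mul_comm (l : ℝ)]; linarith only [t1, t2, n9, ε0])
      (by linarith only [t0, t2]) (n7.trans w1) t N0
    rw [show β * ((N * (1120 * N * g / l ^ 2)) ^ 2 * (|C| * (36 * (19 * l) ^ 3))) =
      β * g ^ 2 * (1120 ^ 2 * 36 * 19 ^ 3 * (|C| * N ^ 4) / l) by field_simp, g1, one_mul,
      div_le_iff₀ (by positivity)]
    linarith only [hl, mul_nonneg (abs_nonneg C) (pow_nonneg (N.cast_nonneg (α := ℝ)) 4),
      pow_nonneg (N.cast_nonneg (α := ℝ)) 4]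

theorem lev_main : Lev := fun γ hγ e he => by
  obtain ⟨N, l, K, j, hN, hl, h⟩ := lev_core hγ he
  obtain ⟨A1, hn, h⟩ := h j le_rfl _ rfl
  refine ⟨j, fun J l' hJ hA => ?_⟩
  obtain ⟨y, hy, h1, h2⟩ := h J l' hJ hA
  generalize LL (ll j) ^ K = A at *
  have w0 : 0 < 112 * N * l ^ 2 * (√(γ * nn j))⁻¹ := by
    have : 0 < nn j := by omega
    positivity
  generalize 112 * N * l ^ 2 * (√(γ * nn j))⁻¹ = w at *
  have y0 := mem_box.1 hy 0
  obtain ⟨s, hs⟩ : ∃ s : ℕ, (s : ℤ) + 1 = y 0 + 4 * A := ⟨(y 0 + 4 * A - 1).toNat, by omega⟩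
  refine ⟨s, fun U => ‖ov l A y U‖ / w, fun U => ‖ov l A ((4 : ℤ) • un 0 + y) U‖ / w,
    (meas_ov _ _ _).norm.div_const _, (meas_ov _ _ _).norm.div_const _,
    fun U U' hU => congrArg (· / w) (ov_dep l A y fun e he => hU e ?_),
    fun U U' hU => congrArg (· / w) (ov_dep l A _ fun e he => hU e ?_), ?_,
    fun U => by positivity, ?_, fun t => ?_⟩
  · simp only [Tw, Set.mem_ofPred_eq] at he ⊢
    omega
  · simp only [Tw, Set.mem_ofPred_eq, Pi.add_apply, Pi.smul_apply, un_self, smul_eq_mul] at he ⊢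
    omega
  · unfold nn at hn
    omega
  · simpa only [← sub_div, abs_div, abs_of_pos w0, one_lt_div w0] using h1
  · simpa only [lt_div_iff₀ w0, div_le_iff₀ w0, add_mul, one_mul] using h2 (t * w)

end Pool.Agent.Lib.MP_7f377f_mp.RG.D3.Hf
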