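import Pool.Agent.Lib.MP_7f377f_mp.HC5B
import Pool.Agent.Lib.MP_7f377f_mp.HFLev
import Pool.Agent.Lib.MP_7f377f_mp.HC4E

/-! The smeared magnetic field of a time slice as a gauge invariant observable. -/

noncomputable section

namespace Pool.Agent.Lib.MP_7f377f_mp.RG.D3.Hm5

open Finset Dt Ds Hf MeasureTheory Filter Topology BoundedContinuousFunction ProbabilityTheory
open scoped Quaternion

/-- the plaquette variable transported to the origin -/
def tq (X : FH) (x : St) : ℍ := cmb star X x * hol star X x 1 2 * star (cmb star X x) - 1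

/-- the size of the smeared magnetic field -/
def OO (l : ℕ) (X : FH) : ℝ := ‖ph l (tq X) 0‖

theorem tq_q (U : Conf) (x : St) :
    tq (qF U) x = (cmb Inv.inv U x * hol Inv.inv U x 1 2 * (cmb Inv.inv U x)⁻¹).q - 1 := by
  rw [tq, cmb_q, hol_q, S3.q_mul, S3.q_mul, S3.q_inv]

theorem cmb_lip {R : ℕ} {U U' : Conf} {d : ℝ} (d0 : 0 ≤ d)
    (h : ∀ e ∈ lbox R, ‖(U e).q - (U' e).q‖ ≤ d) {x : St} (hx : x ∈ box R) :
    ‖(cmb Inv.inv U x).q - (cmb Inv.inv U' x).q‖ ≤ 3 * R * d := by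
  simpa using JS.cmb_ind (iv := Inv.inv) (U := fun b : Bool => cond b U U')
    (P := fun n f => ‖(f true).q - (f false).q‖ ≤ n * d) (by simp)
    (fun ha hb => (JS.q_mul_sub _ _ _ _).trans (by push_cast; linarith))
    (fun hab ha => ha.trans (by gcongr)) (fun e he => by simpa [JS.q_inv_sub] using h e he) hx

theorem OO_sub {l : ℕ} {X : FH} {F : St → ℍ} {δ : ℝ} (h : ∀ w ∈ box (l + l), ‖tq X w - F w‖ ≤ δ) :
    |OO l X - ‖ph l F 0‖| ≤ l ^ 4 * δ := by
  refine (abs_norm_sub_norm_le _ _).trans ?_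
  rw [← ph_sub]
  exact ph_norm fun w hw => by simpa using h w hw

theorem OO_gauge (l : ℕ) (u : St → S3) (X : FH) : OO l (gH u X) = OO l X := by
  have e : ∀ x, tq (gH u X) x = (u 0).q * tq X x * star (u 0).q := fun x => by
    have c : ∀ x a, star (u x).q * ((u x).q * a) = a := fun x a => by
      rw [← mul_assoc, star_q, one_mul]
    rw [tq, tq, gH, cmb_gauge star_mul star_star (fun _ => star_q _) (q_star _), mul_sub, sub_mul,
      mul_one, q_star]
    simp only [hol, gauge, star_mul, star_star, mul_assoc, c, add_right_comm x (un 2)]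
  have := ph_map ((AddMonoidHom.mulRight (star (u 0).q)).comp (AddMonoidHom.mulLeft (u 0).q)) l
    (tq X) 0
  simp only [AddMonoidHom.comp_apply, AddMonoidHom.coe_mulLeft, AddMonoidHom.coe_mulRight] at this
  rw [OO, funext e, ← this, norm_mul, norm_mul, norm_star, S3.norm_q, one_mul, mul_one, OO]

theorem OO_dep (l : ℕ) : DependsOn (OO l) (Tw 0 1) := fun X X' H => by
  have h : Sl 0 0 0 X X' := fun e a b => H e ⟨a, by
    rw [un_apply] at b
    split_ifs at b <;> omega⟩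
  refine congrArg norm (ph_congr fun w _ h0 => ?_)
  rw [zero_add, tq, tq, h.cmb le_rfl le_rfl h0.ge h0.le, hol, hol, h, h, h, h] <;> simp [h0, un_apply]

theorem OO_ob {γ κ : ℝ} (hγ : 0 ≤ γ) (hκ : 0 ≤ κ) (j l : ℕ) :
    Ob j (κ * √γ * (l ^ 4 * (12 * l + 4))) fun X => κ * √(γ * nn j) * OO l X := by
  refine ⟨continuous_const.mul (Continuous.norm ?_), fun u X => by rw [OO_gauge], fun U U' d H => ?_⟩
  · have c : ∀ x, Continuous fun X => tq X x := fun x => by
      have := cont_cmbH x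
      unfold tq hol
      fun_prop
    simp only [ph, s2]
    fun_prop
  · have d0 := (norm_nonneg _).trans (H (0, 0))
    have := OO_sub (l := l) (X := qF U) (F := tq (qF U')) (δ := (12 * l + 4) * d) fun w hw => by
      have a := cmb_lip d0 (fun e _ => H e) hw
      rw [tq_q, tq_q, sub_sub_sub_cancel_right, hol, hol]
      refine (JS.q_mul_sub _ _ _ _).trans ((add_le_add ((JS.q_mul_sub _ _ _ _).trans (add_le_add a
        ((JS.q_mul_sub _ _ _ _).trans (add_le_add ((JS.q_mul_sub _ _ _ _).trans (add_le_add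
        ((JS.q_mul_sub _ _ _ _).trans (add_le_add (H _) (H _))) ((JS.q_inv_sub _ _).trans_le (H _))))
        ((JS.q_inv_sub _ _).trans_le (H _)))))) ((JS.q_inv_sub _ _).trans_le a)).trans_eq ?_)
      push_cast
      ring
    rw [← mul_sub, abs_mul, abs_of_nonneg (by positivity), Real.sqrt_mul hγ]
    exact (mul_le_mul_of_nonneg_left this (by positivity)).trans_eq (by ring)

/-- imaginary quaternions -/
def iE : E3 →+ ℍ where
  toFun v := ⟨0, v 0, v 1, v 2⟩
  map_zero' := rfl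
  map_add' _ _ := by ext <;> simp

theorem norm_iE (v : E3) : ‖iE v‖ = ‖v‖ := by
  rw [← sq_eq_sq₀ (norm_nonneg _) (norm_nonneg _), norm_q_sq, EuclideanSpace.real_norm_sq_eq,
    Fin.sum_univ_three]
  simp [iE]

theorem bridge {l A P : ℕ} {ε : ℝ} {W : Conf} (hW : curvG ε W) (hl : l + l ≤ P) (hA : A ≤ P)
    (hP : 1 ≤ P) (h : 10 ^ 4 * P * ε ≤ 1) {y : St} (hy : y ∈ box (2 * P)) :
    |OO l (sh (y + ct A) (qF W)) - ‖ov l A y W‖| ≤ l ^ 4 * (2 * 10 ^ 8 * (P * ε) ^ 2) := by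
  have ε0 := hW.nonneg
  have A1 : (1 : ℝ) ≤ P := by exact_mod_cast hP
  have l1 : (l : ℝ) + l ≤ P := by exact_mod_cast hl
  have l0 : (0 : ℝ) ≤ l := l.cast_nonneg
  have t0 : ε ≤ P * ε := le_mul_of_one_le_left ε0 A1
  obtain ⟨a1, a2, -⟩ := real_fix (R := 7 * P + 1) hW (by push_cast; linarith)
  have a3 : Ap (7 * P + 1) (90 * (P * ε)) (10 * (90 * (P * ε)) ^ 2)
      (cC (gauge Inv.inv (cmb Inv.inv W) W)) (Bx 0 (cC W)) := fun e he => by
    rw [a1 e he]
    exact Ap_exF (a2.mono le_rfl (by push_cast; linarith)) (by linarith) e he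
  have hz := add_mem_box hy (ct_mem A)
  rw [← OO_gauge l (fun x => cmb Inv.inv W (x + (y + ct A))), ← sh_gH, gH_q, ← norm_iE, ov, ph_map,
    ← zero_add y, ← ph_sh, zero_add]
  refine OO_sub fun w hw => ?_
  have hw' : w + (y + ct A) ∈ box (7 * P) := box_mono (by omega) (add_mem_box hw hz)
  have b1 := hol_ap' a3 (by nlinarith) (by linarith) hw' 1 2
  have b2 := hW.gauge (cmb Inv.inv W) (w + (y + ct A)) 1 2
  have b3 := cmb_lip (U := sh (y + ct A) (gauge Inv.inv (cmb Inv.inv W) W)) (U' := 1)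
    (d := 3 * (7 * P : ℕ) * ε) (by positivity) (fun e he => fix_small hW (mem_lbox.2
      (box_mono (by omega) (add_mem_box (mem_lbox.1 he) hz)))) hw
  rw [show cmb Inv.inv (1 : Conf) w = 1 from cmb_closed (Z := Unit) (P := fun f => f () = 1)
    (U := fun _ => 1) rfl (fun f g a b => by simp only [a, b, mul_one])
    (fun f a => by simp only [a, inv_one]) (fun _ => rfl) w, S3.q_one] at b3
  have e : cq (iE (rv (dd (BB A W) (w + y) 1 2))) = io (dd (Bx 0 (cC W)) (w + (y + ct A)) 1 2) := by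
    have r : ∀ e k, ((Bx 0 (cC W) e k).re : ℂ) = Bx 0 (cC W) e k := fun e k =>
      Complex.ext rfl (Bx_real 0 W e k).symm
    rw [BB, dd_sh, add_assoc]
    ext <;> simp [iE, rv, io, cq, dd, r]
  rw [hol_cC, ← e, ← cq_one, cS, ← cq_sub, ← cq_sub] at b1
  replace b1 := (norm_cq _).1.trans b1
  rw [show sh (y + ct A) (qF (gauge Inv.inv (cmb Inv.inv W) W)) =
    qF (sh (y + ct A) (gauge Inv.inv (cmb Inv.inv W) W)) from rfl, tq_q, hol_sh]
  generalize cmb Inv.inv (sh (y + ct A) (gauge Inv.inv (cmb Inv.inv W) W)) w = c at *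
  generalize hol Inv.inv (gauge Inv.inv (cmb Inv.inv W) W) (w + (y + ct A)) 1 2 = p at *
  generalize iE (rv (dd (BB A W) (w + y) 1 2)) = b at *
  have e2 : (c * p * c⁻¹).q - 1 - b = (c.q - 1) * (p.q - 1) * star c.q +
      (p.q - 1) * star (c.q - 1) + (p.q - 1 - b) := by
    have := q_star c
    rw [S3.q_mul, S3.q_mul, S3.q_inv, star_sub, star_one]
    simp only [sub_mul, mul_sub, mul_one, one_mul, this]
    abel
  rw [e2]
  refine norm_add₃_le.trans ?_
  rw [norm_mul, norm_mul, norm_mul, norm_star, norm_star, S3.norm_q, mul_one, mul_comm ‖p.q - 1‖]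
  have b4 := mul_le_mul b3 b2 (norm_nonneg _) (by positivity)
  push_cast at b4
  nlinarith [mul_le_mul_of_nonneg_right l1 (mul_nonneg (mul_nonneg P.cast_nonneg ε0) ε0)]

theorem good : ∃ a : ℕ, ∀ γ > 0, ∀ η > 0, ∃ j0, ∀ j ≥ j0, ∀ J l, j ≤ J → Adm J l →
    (law γ J l (J - j)).real {U | ¬ curvG (LL (ll j) ^ a * (√(γ * nn j))⁻¹) U} ≤ η := by
  classical
  obtain ⟨a, h⟩ := bad_main
  refine ⟨a, fun γ hγ η hη => (h a le_rfl γ hγ η hη).imp fun j0 h j hj J l hJ ad => ?_⟩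
  obtain ⟨e, z, f⟩ := En.law_lev hγ l hJ
  have m := (En.meas_cv (LL (ll j) ^ a * (√(γ * nn j))⁻¹)).compl
  have h1 := h j hj J l hJ ad
  rw [ep, bq, if_neg (by omega), show J + 1 - (J + 1 - j) = j by omega, div_eq_mul_inv] at h1
  rw [e, ← zero_add η]
  refine lawOf_le m (by positivity) z.bot_lt f.lt_top (prob_le (En.meas_per _ m) (fun U => ?_)
    f.lt_top hη.le le_rfl h1 (le_of_eq_of_le (setLIntegral_eq_zero (En.meas_per _ m)
      fun U hU => if_neg hU) zero_le))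
  split_ifs
  exacts [Nn.rhoG_le _ _ _ _ _ _ _, zero_le]

theorem levS_main : LevS := fun γ hγ e he => by
  obtain ⟨N, l, K, j0, hN, hl, h⟩ := lev_core hγ (show 0 < e / 3 by positivity)
  obtain ⟨a, hg⟩ := good
  obtain ⟨j1, hg⟩ := hg γ hγ _ (show 0 < e / 3 by positivity)
  obtain ⟨j2, h2⟩ := Nn.big ((5 + 2 * (K + 1 + a)) * 2) hγ
  refine ⟨_, (eventually_ge_atTop (j0 + j1 + j2 + 10 ^ 9 + 2 * l)).mono fun j hj =>
    ⟨_, OO_ob (κ := (168 * N * l ^ 2)⁻¹) hγ.le (by positivity) j l,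
      fun _ _ H => congrArg (_ * ·) (OO_dep l H), fun J l' hJ ad => ?_⟩⟩
  obtain ⟨A1, -, h⟩ := h j (by omega) _ rfl
  obtain ⟨y, hy, h3, h4⟩ := h J l' hJ ad
  replace hg := hg j (by omega) J l' hJ ad
  replace h2 := h2 j (by omega)
  have := law_prob hγ J l' (J - j)
  have hL : 10 ^ 9 + 2 * l ≤ LL (ll j) := le_trans (by omega) (Pv.le_LL j)
  generalize LL (ll j) = L at *
  have hP : L ^ K + L ≤ L ^ (K + 1) + 1 := by
    rw [pow_succ]
    nlinarith [show 1 ≤ L by omega]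
  have hP' : L ≤ L ^ (K + 1) := Nat.le_self_pow (by omega) _
  have N1 : (1 : ℝ) ≤ N := by exact_mod_cast hN
  have l1 : (1 : ℝ) ≤ l := by exact_mod_cast hl
  have L1 : (10 : ℝ) ^ 9 ≤ L := by exact_mod_cast (show 10 ^ 9 ≤ L by omega)
  have L2 : (l : ℝ) ≤ L := by exact_mod_cast (show l ≤ L by omega)
  have s0 : 0 < √(γ * nn j) := Real.sqrt_pos.2 (mul_pos hγ (nn_pos' j))
  have s1 : (L : ℝ) ^ (5 + 2 * (K + 1 + a)) ≤ √(γ * nn j) :=
    Real.le_sqrt_of_sq_le (by rwa [← pow_mul])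
  generalize √(γ * nn j) = s at *
  have t1 : (1 : ℝ) ≤ L ^ (K + 1 + a) := one_le_pow₀ (by linarith)
  have b : ∀ z ∈ box (L ^ K + 4), ∀ U, curvG (L ^ a * s⁻¹) U →
      |s * OO l (sh (z + ct (L ^ K)) (qF U)) - s * ‖ov l (L ^ K) z U‖| ≤ 1 := fun z hz U hU => by
    have e : ((L ^ (K + 1) : ℕ) : ℝ) * (L ^ a * s⁻¹) = L ^ (K + 1 + a) / s := by
      push_cast
      ring
    rw [pow_add, mul_comm 2, pow_mul] at s1
    rw [← mul_sub, abs_mul, abs_of_pos s0]
    refine (mul_le_mul_of_nonneg_left (bridge (P := L ^ (K + 1)) hU (by omega) (by omega) (by omega)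
      ?_ (box_mono (by omega) hz)) s0.le).trans ?_
    · rw [mul_assoc, e, ← mul_div_assoc, div_le_one s0]
      exact le_trans (mul_le_mul (le_trans (by linarith) (le_self_pow₀ (by linarith) (by norm_num)))
        (le_self_pow₀ t1 (by norm_num)) (by positivity) (by positivity)) s1
    · rw [e, show s * (l ^ 4 * (2 * 10 ^ 8 * (L ^ (K + 1 + a) / s) ^ 2)) =
        l ^ 4 * (2 * 10 ^ 8) * (L ^ (K + 1 + a)) ^ 2 / s by field_simp, div_le_one s0]
      refine le_trans (mul_le_mul_of_nonneg_right ?_ (by positivity)) s1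
      rw [pow_succ _ 4]
      gcongr
      linarith
  have e : ∀ U, tau 4 (sh (y + ct (L ^ K)) (qF U)) = sh ((4 : ℤ) • un 0 + y + ct (L ^ K)) (qF U) :=
    fun U => by rw [tau, ContinuousMap.coe_mk, sh_sh, Hc.smul_un, add_assoc]
  have w1 : (1 : ℝ) ≤ N * l ^ 2 := one_le_mul_of_one_le_of_one_le N1 (one_le_pow₀ l1)
  simp only [mul_assoc (_ : ℝ) N, inv_mul_eq_div, ← div_eq_mul_inv, div_mul_eq_mul_div] at h3 h4 hg b ⊢
  generalize (N : ℝ) * l ^ 2 = w at *
  have w0 : 0 < 168 * w := by linarith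
  have b1 := b y (box_mono (by omega) hy)
  have b2 := b _ (e4_mem hy)
  refine ⟨y + ct (L ^ K), (measureReal_mono (fun U hU => ?_) (measure_ne_top _ _)).trans
    ((measureReal_union_le _ _).trans ((add_le_add hg h3).trans (by linarith))), fun t =>
    (measureReal_mono (fun U hU => ?_) (measure_ne_top _ _)).trans ((measureReal_union_le _ _).trans
      ((add_le_add hg ((measureReal_union_le _ _).trans (add_le_add (h4 ((168 * w * t - 1) / s))
        (h4 ((168 * w * t - 1) / s + 112 * w / s))))).trans (by linarith)))⟩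
  · refine or_iff_not_imp_left.2 fun g => ?_
    have c1 := abs_le.1 (b1 U (not_not.1 g))
    have c2 := abs_le.1 (b2 U (not_not.1 g))
    rw [Set.mem_ofPred_eq, e, ← sub_div, abs_div, abs_of_pos w0, one_lt_div w0, lt_abs] at hU
    rw [Set.mem_ofPred_eq, div_lt_iff₀' s0, ← abs_of_pos s0, ← abs_mul, mul_sub, lt_abs]
    exact hU.imp (fun _ => by linarith) fun _ => by linarith
  · refine or_iff_not_imp_left.2 fun g => ?_
    have c2 := abs_le.1 (b2 U (not_not.1 g))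
    rw [Set.mem_ofPred_eq, e, lt_div_iff₀ w0, div_le_iff₀ w0] at hU
    simp only [Set.mem_union, Set.mem_ofPred_eq, ← add_div, div_lt_iff₀' s0, le_div_iff₀' s0]
    by_cases c : s * ‖ov l (L ^ K) ((4 : ℤ) • un 0 + y) U‖ ≤ 168 * w * t - 1 + 112 * w
    · exact .inl ⟨by linarith [hU.1], c⟩
    · exact .inr ⟨not_le.1 c, by linarith [hU.2]⟩

variable [MeasurableSpace ℍ] [BorelSpace ℍ]

/-- the mass of the limit is finite -/
theorem mass_main {γ : ℝ} (hγ : 0 < γ) : ∀ᶠ j in atTop, ∀ ν : ProbabilityMeasure FH,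
    Tendsto (Hc.pm γ j) Hc.Φ (𝓝 ν) → ∃ F : FH →ᵇ ℝ, DependsOn F {e | e.1 0 = 1} ∧
      (∀ u X, F (gH u X) = F X) ∧ ∃ c > (0 : ℝ), ∃ M : ℝ, ∀ t : ℕ, c * Real.exp (-(M * t)) ≤
        cov[fun X => F (th X), fun X => F (sh (Pi.single 0 (2 * t : ℤ)) X); (ν : Measure FH)] :=
  (finite_mass levS_main hγ).mono fun _ h ν hν => h ν (Hc.inv_shift hν) (Hc.inv_refl hν _)
    (fun F dF => Hc.refl_pos hν 0 F (dF.mono fun _ he => ⟨he, fun h => absurd rfl h⟩)) fun _ hC _ J0 H =>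
      Hc.closed_ge hν hC (Hc.freq J0 fun J hJ l hl => (H J hJ l hl).frequently)

end Pool.Agent.Lib.MP_7f377f_mp.RG.D3.Hm5
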