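import Pool.Agent.Lib.MP_7f377f_mp.HC6A

/-! A bound on the mass which is uniform in the level. -/

noncomputable section

namespace Pool.Agent.Lib.MP_7f377f_mp.RG.D3.Hm5

open MeasureTheory Filter Topology BoundedContinuousFunction Dt Ds Fi D3.Pv ProbabilityTheory Hc
open scoped Quaternion

theorem anti_of {g : ℕ → ℝ} (g0 : ∀ t, 0 ≤ g t) (h : ∀ t, g (t + 1) ^ 2 ≤ g t * g (t + 2)) {B : ℝ}
    (hB : ∀ t, g t ≤ B) : Antitone g := antitone_nat_of_succ_le fun t => by
  by_contra! h1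
  have key : ∀ k : ℕ, g (t + k) + (g (t + 1) - g t) ≤ g (t + k + 1) := fun k => by
    induction k with
    | zero => simp
    | succ k ih =>
      have a := h (t + k)
      have b := g0 (t + k)
      rw [← add_assoc]
      by_contra! c
      nlinarith [mul_le_mul_of_nonneg_left c.le b]
  have key2 : ∀ k : ℕ, k * (g (t + 1) - g t) ≤ g (t + k) := fun k => by
    induction k with
    | zero => simpa using g0 t
    | succ k ih =>
      rw [← add_assoc]
      push_cast
      linarith [key k]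
  obtain ⟨k, hk⟩ := exists_nat_gt (B / (g (t + 1) - g t))
  linarith [(div_lt_iff₀ (sub_pos.2 h1)).1 hk, key2 k, hB (t + k)]

theorem dnH_gH (k j : ℕ) (u : St → S3) : ∃ u', ∀ X, dnH j k (gH u X) = gH u' (dnH j k X) := by
  induction k generalizing j with
  | zero => exact ⟨u, fun _ => rfl⟩
  | succ k ih =>
    obtain ⟨u', h⟩ := ih (j + 1)
    exact ⟨_, fun X => by rw [dnH, h, blkH_gH, dnH]⟩

variable [MeasurableSpace ℍ] [BorelSpace ℍ]

theorem anti_cov {ν : Measure FH} [IsProbabilityMeasure ν] (hs : ∀ a, ν.map (sh a) = ν)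
    (hr : ν.map th = ν)
    (hp : ∀ F : FH →ᵇ ℝ, DependsOn F {e | 1 ≤ e.1 0} → 0 ≤ ∫ X, F X * F (th X) ∂ν) {F : FH →ᵇ ℝ}
    (dF : DependsOn F {e | 1 ≤ e.1 0}) : Antitone fun t : ℕ =>
      cov[fun X => F (th X), fun X => F (sh (Pi.single 0 (2 * t : ℤ)) X); ν] := by
  have d : ∀ t : ℕ, DependsOn (F.compContinuous (tau t)) {e | 1 ≤ e.1 0} := fun t =>
    (dep_tau dF t).mono fun e he => le_trans (by omega) (show 1 + (t : ℤ) ≤ e.1 0 from he)
  have e : ∀ t : ℕ, cov[fun X => F (th X), fun X => F (sh (Pi.single 0 (2 * t : ℤ)) X); ν] =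
      bf ν (F.compContinuous (tau t)) (F.compContinuous (tau t)) := fun t => by
    rw [bf_tau hs, bf_cov hr, two_mul]
    rfl
  simp only [e]
  refine anti_of (fun t => (bf_cs hr hp (d t) (d t)).1) (fun t => le_of_eq_of_le ?_
    (bf_cs hr hp (d t) (d (t + 2))).2) (B := ‖F‖ * ‖F‖) fun t => ?_
  · rw [bf_tau hs, bf_tau hs]
    congr 4
    push_cast
    ring
  · refine (sub_le_self _ (mul_self_nonneg _)).trans ((le_abs_self _).trans ?_)
    simpa using norm_integral_le_of_norm_le_const (μ := ν) (C := ‖F‖ * ‖F‖) (.of_forall fun X =>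
      (norm_mul_le _ _).trans (mul_le_mul (F.norm_coe_le_norm (tau t (th X)))
        (F.norm_coe_le_norm (tau t X)) (norm_nonneg _) (norm_nonneg _)))

theorem mass_unif {γ : ℝ} (hγ : 0 < γ) {ν : ℕ → ProbabilityMeasure FH}
    (hν : ∀ j, Tendsto (pm γ j) Φ (𝓝 (ν j))) : ∃ M : ℝ, ∀ᶠ j in atTop, ∃ F : FH →ᵇ ℝ,
      DependsOn F {e | 1 ≤ e.1 0} ∧ (∀ u X, F (gH u X) = F X) ∧ ∃ c > (0 : ℝ), ∀ t : ℕ,
        c * Real.exp (-(M * t / nn j)) ≤
          cov[fun X => F (th X), fun X => F (sh (Pi.single 0 (2 * t : ℤ)) X); (ν j : Measure FH)] := by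
  obtain ⟨i, hi⟩ := (mass_main hγ).exists
  obtain ⟨F, dF, gF, c, c0, M, h⟩ := hi _ (hν i)
  refine ⟨|M| * nn i, (eventually_gt_atTop i).mono fun j hj => ?_⟩
  obtain ⟨j, rfl⟩ : ∃ k, j = k + 1 := ⟨j - 1, by omega⟩
  obtain ⟨r, φ, e1, H⟩ := cov_XX (show i ≤ j by omega) (ll j)
  have cA : Continuous fun X => dnH i (j - i) (blkH (ll j) X) := (cont_dnH _ _).comp (cont_blkH _)
  have mA := map_of (hν i) (hν (j + 1)) cA fun F _ => freq (j + 1) fun J hJ l _ =>
    .of_forall fun T => by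
      simp only [XX, show J - i = j - i + (J - (j + 1) + 1) by omega, dnH_add i,
        show i + (j - i) = j by omega]
      rfl
  have L := LL_cast r
  have d : DependsOn (F.compContinuous ⟨_, cA⟩) {e | 1 ≤ e.1 0} := fun X X' hX =>
    dF fun e (he : _ = _) => H.loc 0 1 2 _ _ (fun f a _ => hX f (show 1 ≤ f.1 0 by omega)) e he.ge (by
      rw [un_apply]
      split_ifs <;> omega)
  refine ⟨_, d, fun u X => ?_, c * Real.exp (-|M|), by positivity, fun t => ?_⟩
  · obtain ⟨u', h⟩ := dnH_gH (j - i) i fun y => u (up (ll j) y)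
    simp only [compContinuous_apply, ContinuousMap.coe_mk, blkH_gH, h, gF]
  have L0 := LL_pos r
  refine le_trans ?_ (anti_cov (inv_shift (hν _)) (inv_refl (hν _) _) (fun F dF => refl_pos (hν _) 0 F
    (dF.mono fun _ he => ⟨he, fun h => absurd rfl h⟩)) d (Nat.lt_mul_div_succ t L0).le)
  refine le_trans ?_ ((h (t / LL r + 1)).trans_eq ?_)
  · rw [mul_assoc, ← Real.exp_add, M3.nn_succ, ← e1]
    refine mul_le_mul_of_nonneg_left (Real.exp_le_exp.2 ?_) c0.le
    have a1 : ((t / LL r : ℕ) : ℝ) ≤ t / LL r := Nat.cast_div_le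
    have a2 := nn_pos' i
    have a3 := LL_pos' r
    rw [show |M| * nn i * t / (LL r * nn i : ℕ) = |M| * (t / LL r) by push_cast; field_simp]
    push_cast
    nlinarith [mul_le_mul_of_nonneg_left a1 (abs_nonneg M), mul_le_mul_of_nonneg_right (le_abs_self M)
      (show (0 : ℝ) ≤ (t / LL r : ℕ) + 1 by positivity)]
  · rw [← mA]
    refine (covariance_map (F.continuous.comp cont_th).aestronglyMeasurable
      (F.continuous.comp (cont_shH _)).aestronglyMeasurable cA.aemeasurable).trans ?_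
    beta_reduce
    congr 1 <;> funext X
    · exact congrArg F (H.refl _ X).symm
    · refine congrArg F ((H.shift _ X).symm.trans ?_)
      congr 3
      funext k
      by_cases h : k = 0 <;> simp [up_apply, h]
      ring

open YC in
theorem main [m : MeasurableSpace SU2] [BorelSpace SU2] (h : Measure SU2) [h.IsHaarMeasure]
    [IsProbabilityMeasure h] {γ : ℝ} (hγ : 0 < γ) : ∃ ν, Lim h γ ν ∧ ∃ M : ℝ, ∀ᶠ j in atTop,
      ∃ F : YC.Fld →ᵇ ℝ, DependsOn F {e | 1 ≤ e.1 0} ∧ (∀ g X, F (YC.gauge g X) = F X) ∧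
        ∃ c > (0 : ℝ), ∀ t : ℕ, c * Real.exp (-(M * t / side j)) ≤
          cov[fun X => F (YC.refl 0 X), fun X => F (shift (Pi.single 0 (2 * t : ℤ)) X); ν j] := by
  obtain rfl : m = mS := BorelSpace.measurable_eq
  obtain rfl := Measure.isHaarMeasure_eq_of_isProbabilityMeasure h (tr haar)
  choose ν h1 using exists_lim cvg_main hγ
  rw [refl_eq]
  exact ⟨_, lim_of hγ h1, mass_unif hγ h1⟩

end Pool.Agent.Lib.MP_7f377f_mp.RG.D3.Hm5
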