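import Pool.Agent.Lib.MP_7f377f_mp.HVac
import Pool.Agent.Lib.MP_7f377f_mp.PBase

/-! Time slicing of a nearest neighbour chain of slices. -/

noncomputable section

namespace Pool.Agent.Lib.MP_7f377f_mp.Ch

open MeasureTheory Measure Function Filter Topology Pool.Agent.Lib.MP_2d4879_an Hm RGP
open scoped InnerProductSpace

set_option linter.unusedSectionVars false

variable {G : Type} [MeasurableSpace G] (μ : Measure G) [IsProbabilityMeasure μ] {E S : Type}

/-- the variables: at each time a slice and the links to the next slice -/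
abbrev Ix (E S : Type) : Type := ℤ × (E ⊕ S)

def lev (i : Ix E S) : ℤ := 2 * i.1 + Sum.elim (fun _ => 0) (fun _ => 1) i.2

def sl (t : ℤ) (w : Ix E S → G) : E → G := fun e => w (t, .inl e)

def tl (t : ℤ) (w : Ix E S → G) : S → G := fun s => w (t, .inr s)

def put (t : ℤ) (x : E → G) (w : Ix E S → G) : Ix E S → G :=
  fun i => if i.1 = t then Sum.elim x (tl t w) i.2 else w i

def Win (a b : ℤ) : Set (Ix E S) := {i | 2 * a ≤ lev i ∧ lev i ≤ 2 * b}

theorem put_of_ne {t : ℤ} {i : Ix E S} (h : lev i ≠ 2 * t) (x : E → G) (w : Ix E S → G) :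
    put t x w i = w i := by
  obtain ⟨s, e | e⟩ := i
  · exact if_neg fun h' => h (by simpa [lev] using h')
  · by_cases h' : s = t <;> simp [put, h', tl]

theorem put_congr {t : ℤ} {i : Ix E S} (x : E → G) {w w' : Ix E S → G}
    (h : lev i ≠ 2 * t → w i = w' i) : put t x w i = put t x w' i := by
  by_cases hi : lev i = 2 * t
  · obtain ⟨s, e | e⟩ := i
    · obtain rfl : s = t := by simpa [lev] using hi
      simp [put]
    · simp only [lev, Sum.elim_inr] at hi; omega
  · rw [put_of_ne hi, put_of_ne hi, h hi]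

theorem sl_put (t : ℤ) (x : E → G) (w : Ix E S → G) : sl t (put t x w) = x :=
  funext fun _ => by simp [sl, put]

theorem sl_put_ne {s t : ℤ} (h : s ≠ t) (x : E → G) (w : Ix E S → G) : sl s (put t x w) = sl s w :=
  funext fun _ => by simp [sl, put, h]

theorem tl_put (s t : ℤ) (x : E → G) (w : Ix E S → G) : tl s (put t x w) = tl s w :=
  funext fun _ => put_of_ne (by simp only [lev, Sum.elim_inr]; omega) _ _

theorem put_comm {s t : ℤ} (h : s ≠ t) (x y : E → G) (w : Ix E S → G) :
    put s x (put t y w) = put t y (put s x w) := by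
  funext i
  by_cases hi : lev i = 2 * s
  · rw [put_of_ne (t := t) (by omega)]
    exact put_congr x fun h' => absurd hi h'
  · rw [put_of_ne hi]
    exact put_congr y fun _ => (put_of_ne hi _ _).symm

theorem meas_sl (t : ℤ) : Measurable (sl (G := G) (E := E) (S := S) t) :=
  measurable_pi_lambda _ fun _ => measurable_pi_apply _

theorem meas_tl (t : ℤ) : Measurable (tl (G := G) (E := E) (S := S) t) :=
  measurable_pi_lambda _ fun _ => measurable_pi_apply _

theorem meas_put (t : ℤ) : Measurable fun p : (E → G) × (Ix E S → G) => put t p.1 p.2 := by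
  refine measurable_pi_lambda _ fun i => ?_
  obtain ⟨s, e | e⟩ := i <;> by_cases h : s = t <;>
    simp only [put, h, if_true, if_false, Sum.elim_inl, Sum.elim_inr, tl] <;> fun_prop

theorem meas_put' {X : Type} [MeasurableSpace X] (t : ℤ) {f : X → E → G} {g : X → Ix E S → G}
    (hf : Measurable f) (hg : Measurable g) : Measurable fun x => put t (f x) (g x) :=
  (meas_put t).comp (hf.prodMk hg)

theorem mp_sl (t : ℤ) : MeasurePreserving (sl t) (PP μ (Ix E S)) (PP μ E) :=
  ⟨meas_sl t, map_infinitePi_infinitePi_of_inj (P := fun _ : Ix E S => μ)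
    (f := fun e : E => (t, Sum.inl e)) fun _ _ h => by simpa using h⟩

theorem mp_tl (t : ℤ) : MeasurePreserving (tl t) (PP μ (Ix E S)) (PP μ S) :=
  ⟨meas_tl t, map_infinitePi_infinitePi_of_inj (P := fun _ : Ix E S => μ)
    (f := fun e : S => (t, Sum.inr e)) fun _ _ h => by simpa using h⟩

theorem mp_put (t : ℤ) : MeasurePreserving (fun p : (E → G) × (Ix E S → G) => put t p.1 p.2)
    ((PP μ E).prod (PP μ (Ix E S))) (PP μ (Ix E S)) := by
  refine ⟨meas_put t, ?_⟩
  have h := (mp_sl μ (E := E) (S := S) t).prod (MeasurePreserving.id (PP μ (Ix E S)))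
  rw [← h.map_eq, Measure.map_map (meas_put t) h.measurable]
  refine Eq.trans ?_ (mp_mix μ {i : Ix E S | lev i = 2 * t}).map_eq
  congr 1
  funext p i
  by_cases hi : lev i = 2 * t
  · rw [mix_of_mem (by exact hi)]
    obtain ⟨s, e | e⟩ := i
    · obtain rfl : s = t := by simpa [lev] using hi
      simp [put, sl]
    · simp only [lev, Sum.elim_inr] at hi; omega
  · rw [mix_of_not (by exact hi)]
    exact put_of_ne hi _ _

variable {H F F' : (Ix E S → G) → ℝ} {a b c : ℤ}

theorem int_put (hH : BM H) (t : ℤ) :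
    ∫ w, H w ∂PP μ (Ix E S) = ∫ x, ∫ w, H (put t x w) ∂PP μ (Ix E S) ∂PP μ E := by
  rw [← int_mp (mp_put μ t) hH.meas, integral_prod _ ((hH.comp (meas_put t)).integrable _)]

/-- the kernel of a functional of the slab between the times `a` and `b` -/
def ker (a b : ℤ) (H : (Ix E S → G) → ℝ) (x y : E → G) : ℝ :=
  ∫ w, H (put a x (put b y w)) ∂PP μ (Ix E S)

theorem gk_of {X : Type} [MeasurableSpace X] {k : X → X → ℝ} (h : BM fun p : X × X => k p.1 p.2) :
    GK k := by
  obtain ⟨C, hC⟩ := h.bdd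
  exact ⟨h.meas, max C 0, le_max_right _ _, fun x y => (hC (x, y)).trans (le_max_left _ _)⟩

theorem gk_ker (hH : BM H) (a b : ℤ) : GK (ker μ a b H) :=
  gk_of (BM.param (F := fun p : ((E → G) × (E → G)) × (Ix E S → G) => H (put a p.1.1 (put b p.1.2 p.2)))
    (hH.comp (meas_put' a (by fun_prop) (meas_put' b (by fun_prop) measurable_snd))) _)

theorem bm_put (hH : BM H) (a b : ℤ) (x y : E → G) : BM fun w => H (put a x (put b y w)) :=
  hH.comp (meas_put' a measurable_const (meas_put' b measurable_const measurable_id))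

theorem ker_mul (bF : BM F) (bF' : BM F') (dF : DependsOn F (Win a b)) (dF' : DependsOn F' (Win b c))
    (hab : a < b) (hbc : b < c) :
    ker μ a c (fun w => F w * F' w) = cv (PP μ E) (ker μ a b F) (ker μ b c F') := by
  funext x z
  rw [ker, int_put μ (bm_put (bF.mul bF') a c x z) b, cv]
  congr 1
  funext y
  rw [ker, ker, ← int_mul_indep μ (A := {i | lev i < 2 * b}) (B := {i | 2 * b < lev i})
    (bm_put bF a b x y) (bm_put bF' b c y z)
    (fun w w' h => dF fun i hi => put_congr x fun _ => put_congr y fun h' =>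
      h i (lt_of_le_of_ne hi.2 h'))
    (fun w w' h => dF' fun i hi => put_congr y fun h' => put_congr z fun _ =>
      h i (lt_of_le_of_ne hi.1 (Ne.symm h')))
    (Set.disjoint_left.2 fun i h h' => lt_asymm (show lev i < 2 * b from h) h')]
  congr 1
  funext w
  congr 1
  · exact dF fun i hi => put_congr x fun _ => put_of_ne (by have := hi.2; omega) _ _
  · refine dF' fun i hi => ?_
    rw [put_of_ne (by have := hi.1; omega), put_comm hbc.ne']

theorem ker_ends (hab : a ≠ b) (f g : (E → G) → ℝ) (x y : E → G) :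
    ker μ a b (fun w => f (sl a w) * g (sl b w) * H w) x y = f x * g y * ker μ a b H x y := by
  simp only [ker, sl_put, sl_put_ne hab.symm, integral_const_mul]

theorem ker_const_mul (c : ℝ) (x y : E → G) :
    ker μ a b (fun w => c * H w) x y = c * ker μ a b H x y := by
  simp only [ker, integral_const_mul]

theorem ker_abs_le (bF : BM F) (bH : BM H) (h : ∀ w, |F w| ≤ H w) (x y : E → G) :
    |ker μ a b F x y| ≤ ker μ a b H x y :=
  abs_integral_le_integral_abs.trans (integral_mono ((bm_put bF a b x y).integrable _).abs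
    ((bm_put bH a b x y).integrable _) fun _ => h _)

/-- periodic extension of the window starting at time `a` -/
def cyc (a : ℤ) (T : ℕ) (w : Ix E S → G) : Ix E S → G := fun i => w (a + (i.1 - a) % T, i.2)

theorem meas_cyc (a : ℤ) (T : ℕ) : Measurable (cyc (G := G) (E := E) (S := S) a T) :=
  measurable_pi_lambda _ fun _ => measurable_pi_apply _

theorem int_cyc {T : ℕ} (hT : 0 < T) (bH : BM H) (dH : DependsOn H (Win a (a + T))) :
    ∫ w, H (cyc a T w) ∂PP μ (Ix E S) = ∫ x, ker μ a (a + T) H x x ∂PP μ E := by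
  have e : ∀ w, H (cyc a T w) = H (put (a + T) (sl a w) w) := fun w => dH fun i hi => by
    by_cases h : lev i = 2 * (a + T)
    · obtain ⟨s, e | e⟩ := i
      · obtain rfl : s = a + T := by simpa [lev] using h
        simp [put, cyc, sl]
      · simp only [lev, Sum.elim_inr] at h; omega
    · rw [put_of_ne h, cyc, Int.emod_eq_of_lt, add_sub_cancel]
      all_goals
        obtain ⟨h1, h2⟩ := hi
        obtain ⟨s, e | e⟩ := i <;> simp only [lev, Sum.elim_inl, Sum.elim_inr] at h h1 h2 ⊢ <;> omega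
  simp only [e]
  rw [int_put μ (H := fun w => H (put (a + T) (sl a w) w))
    (bH.comp (meas_put' _ (meas_sl a) measurable_id)) a]
  simp only [sl_put, ker, put_comm (show a + T ≠ a by omega)]

variable (W : (E → G) → (S → G) → (E → G) → ℝ)

/-- weight of `k` steps from time `a` -/
def wt (a : ℤ) (k : ℕ) (w : Ix E S → G) : ℝ :=
  ∏ i ∈ Finset.range k, W (sl (a + i) w) (tl (a + i) w) (sl (a + i + 1) w)

/-- the transfer kernel -/
def KK (x y : E → G) : ℝ := ∫ g, W x g y ∂PP μ S

/-- admissible weights -/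
structure Wt : Prop where
  bm : BM fun p : (E → G) × (S → G) × (E → G) => W p.1 p.2.1 p.2.2
  pos : ∀ x g y, 0 < W x g y
  symm : ∀ x y, KK μ W x y = KK μ W y x

variable {μ W}

theorem wt_add (a : ℤ) (k l : ℕ) (w : Ix E S → G) :
    wt W a (k + l) w = wt W a k w * wt W (a + k) l w := by
  simp only [wt, Finset.prod_range_add, Nat.cast_add, add_assoc]

theorem dep_wt (a : ℤ) (k : ℕ) (h1 : b ≤ a) (h2 : a + k ≤ c) : DependsOn (wt W a k) (Win b c) := by
  refine dep_prod fun i hi w w' h => ?_
  have := Finset.mem_range.1 hi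
  have e : ∀ t, b ≤ t → t ≤ c → sl t w = sl t w' := fun t _ _ => funext fun e =>
    h _ ⟨by simp only [lev, Sum.elim_inl]; omega, by simp only [lev, Sum.elim_inl]; omega⟩
  have e' : tl (a + i) w = tl (a + i) w' := funext fun e =>
    h _ ⟨by simp only [lev, Sum.elim_inr]; omega, by simp only [lev, Sum.elim_inr]; omega⟩
  simp only [e (a + i) (by omega) (by omega), e (a + i + 1) (by omega) (by omega), e']

theorem Win.mono {a' b' : ℤ} (h1 : a' ≤ a) (h2 : b ≤ b') : (Win a b : Set (Ix E S)) ⊆ Win a' b' :=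
  fun _ h => ⟨by have := h.1; omega, by have := h.2; omega⟩

namespace Wt
variable (hW : Wt μ W)
include hW

theorem bm_wt (a : ℤ) (k : ℕ) : BM (wt W a k) :=
  BM.prod fun _ _ => hW.bm.comp ((meas_sl _).prodMk ((meas_tl _).prodMk (meas_sl _)))

theorem wt_pos (a : ℤ) (k : ℕ) (w : Ix E S → G) : 0 < wt W a k w :=
  Finset.prod_pos fun _ _ => hW.pos _ _ _

theorem bm_g (x y : E → G) : BM fun g => W x g y :=
  hW.bm.comp (φ := fun g => (x, g, y)) (by fun_prop)

theorem gk : GK (KK μ W) :=
  gk_of (BM.param (F := fun p : ((E → G) × (E → G)) × (S → G) => W p.1.1 p.2 p.1.2)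
    (hW.bm.comp (φ := fun p : ((E → G) × (E → G)) × (S → G) => (p.1.1, p.2, p.1.2)) (by fun_prop)) _)

theorem KK_pos (x y : E → G) : 0 < KK μ W x y :=
  (integral_pos_iff_support_of_nonneg (fun g => (hW.pos x g y).le) ((hW.bm_g x y).integrable _)).2
    (by rw [support_eq_univ fun g => (hW.pos x g y).ne']; simp)

theorem ker_wt (k : ℕ) : ∀ a, ker μ a (a + (k + 1 : ℕ)) (wt W a (k + 1)) = pw (PP μ E) (KK μ W) k := by
  have h1 : ∀ a, ker μ a (a + (1 : ℕ)) (wt W a 1) = KK μ W := fun a => by
    funext x y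
    have : a ≠ a + 1 := by omega
    simp only [ker, wt, Finset.prod_range_one, Nat.cast_zero, add_zero, Nat.cast_one, sl_put,
      tl_put, sl_put_ne this.symm]
    exact int_mp (mp_tl μ a) (hW.bm_g x y).meas
  induction k with
  | zero => exact h1
  | succ k ih =>
    intro a
    rw [pw, ← ih (a + (1 : ℕ)), ← h1 a, ← ker_mul μ (hW.bm_wt _ _) (hW.bm_wt _ _)
      (dep_wt _ _ le_rfl le_rfl) (dep_wt _ _ le_rfl le_rfl) (by omega) (by omega)]
    simp only [← wt_add, add_comm 1 (k + 1)]
    congr 1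
    push_cast
    ring

/-- kernel of an observable of a slab -/
theorem gk_obs (bF : BM F) (a : ℤ) (k : ℕ) :
    GK (ker μ a (a + (k + 1 : ℕ)) fun w => F w * wt W a (k + 1) w) :=
  gk_ker μ (bF.mul (hW.bm_wt _ _)) _ _

theorem int_tor (bF : BM F) {k : ℕ} (dF : DependsOn F (Win a (a + (k + 1 : ℕ)))) (s : ℕ) :
    ∫ w, F (cyc a (k + 1 + (s + 1)) w) * wt W a (k + 1 + (s + 1)) (cyc a (k + 1 + (s + 1)) w)
      ∂PP μ (Ix E S) = ∫ x, cv (PP μ E) (ker μ a (a + (k + 1 : ℕ)) fun w => F w * wt W a (k + 1) w)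
        (pw (PP μ E) (KK μ W) s) x x ∂PP μ E := by
  rw [int_cyc μ (H := fun w => F w * wt W a (k + 1 + (s + 1)) w) (by omega)
    (bF.mul (hW.bm_wt _ _)) (DependsOn.mul' (dF.mono (Win.mono le_rfl (by omega)))
      (dep_wt _ _ le_rfl le_rfl)), ← hW.ker_wt s (a + (k + 1 : ℕ)),
    ← ker_mul μ (bF.mul (hW.bm_wt _ _)) (hW.bm_wt _ _) (DependsOn.mul' dF (dep_wt _ _ le_rfl le_rfl))
      (dep_wt _ _ le_rfl le_rfl) (by omega) (by omega)]
  simp only [wt_add _ (k + 1), mul_assoc, Nat.cast_add _ (s + 1), add_assoc a]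

end Wt

end Pool.Agent.Lib.MP_7f377f_mp.Ch
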