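import Pool.Agent.Lib.MP_7f377f_mp.HChain

/-! Infinite time limit and clustering for a chain of slices. -/

noncomputable section

namespace Pool.Agent.Lib.MP_7f377f_mp.Ch

open MeasureTheory Measure Function Filter Topology Pool.Agent.Lib.MP_2d4879_an Hm RGP
open scoped InnerProductSpace

set_option linter.unusedSectionVars false

section kernels
variable {α : Type} [MeasurableSpace α] {m : Measure α} [IsFiniteMeasure m] {k f f0 f1 f2 : α → α → ℝ}

theorem int_act (hf : GK f) (v : Lp ℝ 2 m) (x : α) : Integrable (fun y => f x y * v y) m :=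
  (hf.memLp x).integrable_mul (Lp.memLp v)

theorem int_form (hf : GK f) (u v : Lp ℝ 2 m) :
    Integrable (fun x => u x * ∫ y, f x y * v y ∂m) m := by
  have := MemLp.integrable_mul (Lp.memLp u) (hf.memLp_act v)
  simpa only [Pi.mul_def, hf.inner_row] using this

theorem adj_op (hf : GK f) (u v : Lp ℝ 2 m) :
    ⟪u, hf.op m v⟫_ℝ = ⟪(gk_swap hf).op m u, v⟫_ℝ := by
  have hu : Integrable u m := (Lp.memLp u).integrable one_le_two
  have hv : Integrable v m := (Lp.memLp v).integrable one_le_two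
  rw [real_inner_comm v, hf.inner_op, (gk_swap hf).inner_op]
  simp_rw [← integral_const_mul]
  rw [integral_integral_swap]
  · congr 1; ext x; congr 1; ext y; ring
  · refine (hf.int_prod hu hv).congr (Eventually.of_forall fun p => ?_)
    simp only [Function.uncurry]; ring

theorem op_congr (hf : GK f) (hk : GK k) (h : f = k) : hf.op m = hk.op m := by
  subst h; rfl

theorem op_sq_le (h0 : GK f0) (h1 : GK f1) (h2 : GK f2)
    (h : ∀ (s : ℝ) x y, 0 ≤ f0 x y * (s * s) + 2 * f1 x y * s + f2 x y) {e : Lp ℝ 2 m}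
    (he : 0 ≤ᵐ[m] e) {c : ℝ} (hc : h0.op m e = c • e) :
    ‖h1.op m e‖ ^ 2 ≤ c * ⟪e, h2.op m e⟫_ℝ := by
  rw [← real_inner_self_eq_norm_sq, h1.inner_op, h2.inner_op, ← integral_const_mul]
  refine integral_mono_ae (int_form h1 _ _) ((int_form h2 _ _).const_mul _) ?_
  filter_upwards [h1.op_ae e, h0.op_ae e, Lp.coeFn_smul c e] with x a1 a0 a2
  rw [hc, a2, Pi.smul_apply, smul_eq_mul] at a0
  have := discrim_le_zero (a := ∫ y, f0 x y * e y ∂m) (b := 2 * ∫ y, f1 x y * e y ∂m)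
    (c := ∫ y, f2 x y * e y ∂m) fun s => by
      rw [← integral_mul_const, ← integral_const_mul, ← integral_mul_const, ← integral_add,
        ← integral_add]
      · refine integral_nonneg_of_ae ?_
        filter_upwards [he] with y hy
        have := mul_nonneg (h s x y) hy
        simp only [Pi.zero_apply]
        linarith
      · exact ((int_act h0 e x).mul_const _).add (((int_act h1 e x).const_mul _).mul_const _)
      · exact int_act h2 e x
      · exact (int_act h0 e x).mul_const _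
      · exact ((int_act h1 e x).const_mul _).mul_const _
  rw [discrim, ← a0] at this
  rw [a1]
  nlinarith

theorem form_abs (hk : GK k) (h0 : ∀ x y, 0 ≤ k x y) (v : Lp ℝ 2 m) :
    |⟪v, hk.op m v⟫_ℝ| ≤ ⟪|v|, hk.op m |v|⟫_ℝ := by
  rw [hk.inner_op, hk.inner_op]
  refine le_trans abs_integral_le_integral_abs (integral_mono_ae (int_form hk _ _).abs
    (int_form hk _ _) ?_)
  filter_upwards [Lp.coeFn_abs v] with x hx
  rw [abs_mul, hx]
  refine mul_le_mul_of_nonneg_left (le_trans abs_integral_le_integral_abs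
    (le_of_eq (integral_congr_ae ?_))) (abs_nonneg _)
  filter_upwards [Lp.coeFn_abs v] with y hy
  rw [hy, abs_mul, abs_of_nonneg (h0 x y)]

variable {hk : GK k} {l r : ℝ} {e : Lp ℝ 2 m}

theorem vac_neg (V : Vac m hk l r e) : Vac m hk l r (-e) :=
  ⟨V.pos, V.r0, V.r1, by rw [norm_neg, V.one], by rw [map_neg, V.eig, smul_neg], V.nrm,
    fun n v => by simpa using V.gap n v⟩

theorem vac_abs (V : Vac m hk l r e) (hr : r < 1) (hs : ∀ x y, k x y = k y x)
    (h0 : ∀ x y, 0 ≤ k x y) : Vac m hk l r |e| := by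
  have hl := V.pos
  have n1 : ‖|e|‖ = 1 := by rw [norm_abs_eq_norm, V.one]
  have ee : ⟪e, e⟫_ℝ = 1 := by rw [real_inner_self_eq_norm_sq, V.one, one_pow]
  have a1 : l ≤ ⟪|e|, hk.op m |e|⟫_ℝ := by
    have := form_abs hk h0 e
    rwa [V.eig, inner_smul_right, ee, mul_one, abs_of_pos hl] at this
  obtain ⟨c, hc⟩ : ∃ c, c = ⟪e, |e|⟫_ℝ := ⟨_, rfl⟩
  obtain ⟨w, hw⟩ : ∃ w, |e| = c • e + w := ⟨|e| - c • e, by abel⟩
  have w0 : ⟪e, w⟫_ℝ = 0 := by
    rw [hw, inner_add_right, inner_smul_right, ee] at hc; linarith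
  have w1 : c ^ 2 + ‖w‖ ^ 2 = 1 := by
    have := norm_add_sq_real (c • e) w
    rw [← hw, n1, inner_smul_left, w0, norm_smul, V.one, Real.norm_eq_abs, mul_one, sq_abs] at this
    linarith
  have a2 := V.gap 1 w
  rw [w0, mul_zero, zero_smul, sub_zero, pow_one, pow_one] at a2
  have a3 : ⟪e, hk.op m w⟫_ℝ = 0 := by
    have : ⟪hk.op m e, w⟫_ℝ = ⟪e, hk.op m w⟫_ℝ := hk.symm_op hs e w
    rw [← this, V.eig, inner_smul_left, w0, mul_zero]
  have a4 : ⟪w, hk.op m w⟫_ℝ ≤ ‖w‖ * (r * l * ‖w‖) := (real_inner_le_norm _ _).trans (by gcongr)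
  rw [hw, map_add, map_smul, V.eig] at a1
  simp only [inner_add_left, inner_add_right, inner_smul_left, inner_smul_right, ee, a3,
    real_inner_comm e w, w0, conj_trivial] at a1
  have a5 : ‖w‖ ^ 2 * ((1 - r) * l) ≤ 0 := by nlinarith
  have a6 : w = 0 := by
    have := nonpos_of_mul_nonpos_left a5 (by nlinarith)
    simpa using le_antisymm this (sq_nonneg _)
  rw [a6, norm_zero, zero_pow two_ne_zero, add_zero, sq_eq_one_iff] at w1
  rw [hw, a6, add_zero]
  rcases w1 with h | h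
  · rwa [h, one_smul]
  · rw [h, neg_one_smul]; exact vac_neg V

theorem clus2 (V : Vac m hk l r e) (he : 0 ≤ᵐ[m] e) (hs : ∀ x y, k x y = k y x)
    {g1 g2 : α → α → ℝ} (h1 : GK f1) (h2 : GK f2) (h1' : GK g1) (h2' : GK g2) {a b : ℕ}
    (h : ∀ (s : ℝ) x y, 0 ≤ pw m k a x y * (s * s) + 2 * f1 x y * s + f2 x y)
    (h' : ∀ (s : ℝ) x y, 0 ≤ pw m k b x y * (s * s) + 2 * g1 x y * s + g2 x y) (t : ℕ) :
    (⟪e, h1.op m ((hk.op m ^ t) (h1'.op m e))⟫_ℝ / l ^ (a + 1 + t + b + 1) -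
      ⟪e, h1.op m e⟫_ℝ / l ^ (a + 1) * (⟪e, h1'.op m e⟫_ℝ / l ^ (b + 1))) ^ 2 ≤
      r ^ (2 * t) * (⟪e, h2.op m e⟫_ℝ / l ^ (a + 1)) * (⟪e, h2'.op m e⟫_ℝ / l ^ (b + 1)) := by
  have hl := V.pos
  have hr := V.r0
  have p : ∀ a, (hk.pw (μ := m) a).op m e = l ^ (a + 1) • e := op_pw hk V.eig
  have b1 := op_sq_le (hk.pw b) h1' h2' h' he (p b)
  have b2 := op_sq_le (gk_swap (hk.pw a)) (gk_swap h1) (gk_swap h2) (fun s x y => h s y x) he
    ((congrArg (fun T : _ →L[ℝ] _ => T e) (op_congr _ (hk.pw a)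
      (funext₂ fun x y => pw_symm hk hs a y x))).trans (p a))
  rw [real_inner_comm, ← adj_op h2] at b2
  have a1 : ⟪e, h1.op m ((hk.op m ^ t) (h1'.op m e))⟫_ℝ - l ^ t * ⟪e, h1.op m e⟫_ℝ *
      ⟪e, h1'.op m e⟫_ℝ = ⟪(gk_swap h1).op m e, (hk.op m ^ t) (h1'.op m e) -
        (l ^ t * ⟪e, h1'.op m e⟫_ℝ) • e⟫_ℝ := by
    rw [← adj_op h1, map_sub, map_smul, inner_sub_right, inner_smul_right]; ring
  have a2 := (abs_real_inner_le_norm _ _).trans
    (mul_le_mul_of_nonneg_left (V.gap t (h1'.op m e)) (norm_nonneg ((gk_swap h1).op m e)))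
  rw [← a1] at a2
  have a3 := pow_le_pow_left₀ (abs_nonneg _) a2 2
  rw [sq_abs, mul_pow, mul_pow] at a3
  have a4 := a3.trans (mul_le_mul b2 (mul_le_mul_of_nonneg_left b1 (sq_nonneg _)) (by positivity)
    ((sq_nonneg _).trans b2))
  have := div_le_div_of_nonneg_right a4 (show 0 ≤ (l ^ (a + 1 + t + b + 1)) ^ 2 by positivity)
  refine le_of_eq_of_le ?_ (this.trans_eq ?_)
  · field_simp
    ring
  · field_simp
    ring

end kernels

variable {G : Type} [MeasurableSpace G] {μ : Measure G} [IsProbabilityMeasure μ] {E S : Type}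
  {W : (E → G) → (S → G) → (E → G) → ℝ} {F F' : (Ix E S → G) → ℝ} {a : ℤ} {k : ℕ}

variable (μ W) in
/-- unnormalised expectation on the torus with `T` time slices -/
def tor (a : ℤ) (T : ℕ) (F : (Ix E S → G) → ℝ) : ℝ :=
  ∫ w, F (cyc a T w) * wt W a T (cyc a T w) ∂PP μ (Ix E S)

variable (W) in
/-- vacuum expectation of an observable of the slab of thickness `k + 1` -/
def vac (l : ℝ) (e : Lp ℝ 2 (PP μ E)) (a : ℤ) (k : ℕ) (F : (Ix E S → G) → ℝ) : ℝ :=
  (∫ x, e x * ∫ y, ker μ a (a + (k + 1 : ℕ)) (fun w => F w * wt W a (k + 1) w) x y * e y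
    ∂PP μ E ∂PP μ E) / l ^ (k + 1)

namespace Wt
variable (hW : Wt μ W) {l r : ℝ} {e : Lp ℝ 2 (PP μ E)}

theorem vac_eq (bF : BM F) : vac W l e a k F = ⟪e, (hW.gk_obs bF a k).op _ e⟫_ℝ / l ^ (k + 1) := by
  rw [GK.inner_op, vac]

theorem vac_one (V : Vac (PP μ E) hW.gk l r e) : vac W l e a k (fun _ => 1) = 1 := by
  have := V.pos
  rw [hW.vac_eq (BM.const 1), op_congr _ (hW.gk.pw k) (by simp only [one_mul]; exact hW.ker_wt k a),
    op_pw _ V.eig, inner_smul_right, real_inner_self_eq_norm_sq, V.one]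
  field_simp

theorem tendsto_tor (V : Vac (PP μ E) hW.gk l r e) (hr : r < 1) (bF : BM F)
    (dF : DependsOn F (Win a (a + (k + 1 : ℕ)))) :
    Tendsto (fun T => tor μ W a T F / l ^ T) atTop (𝓝 (vac W l e a k F)) := by
  have hl := V.pos
  wlog h1 : ∀ w, |F w| ≤ 1 generalizing F
  · obtain ⟨C, hC⟩ := bF.bdd
    have C0 : 0 < |C| + 1 := by positivity
    have := (this (F := fun w => (|C| + 1)⁻¹ * F w) ((BM.const _).mul bF)
      (fun w w' h => by simp only [dF h]) fun w => by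
        rw [abs_mul, abs_of_pos (inv_pos.2 C0), inv_mul_le_iff₀ C0]
        linarith [hC w, le_abs_self C]).const_mul (|C| + 1)
    simp only [tor, vac, mul_assoc, ker_const_mul, integral_const_mul, mul_left_comm _ (|C| + 1)⁻¹,
      mul_div_assoc, inv_mul_cancel_left₀ C0.ne'] at this
    simpa only [tor, vac, mul_assoc] using this
  rw [← tendsto_add_atTop_iff_nat (k + 3), ← tendsto_sub_nhds_zero_iff]
  refine squeeze_zero_norm (a := fun s => r ^ s * ((∫ x, pw (PP μ E) (KK μ W) 1 x x ∂PP μ E) / l ^ 2))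
    (fun s => ?_) (by simpa using (tendsto_pow_atTop_nhds_zero_of_lt_one V.r0 hr).mul_const _)
  have := V.tr_close hW.symm (hW.gk_obs bF a k) (a := k) (fun x y => by
    rw [← hW.ker_wt k a]
    refine ker_abs_le μ (bF.mul (hW.bm_wt _ _)) (hW.bm_wt _ _) (fun w => ?_) x y
    rw [abs_mul, abs_of_pos (hW.wt_pos _ _ _)]
    exact mul_le_of_le_one_left (hW.wt_pos _ _ _).le (h1 w)) 0 s
  rw [← hW.int_tor bF dF, show k + 1 + (2 * 0 + 1 + s + 1) = s + (k + 3) by ring] at this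
  have := div_le_div_of_nonneg_right this (show 0 ≤ l ^ (s + (k + 3)) by positivity)
  rw [← abs_of_pos (show 0 < l ^ (s + (k + 3)) by positivity), ← abs_div,
    abs_of_pos (show 0 < l ^ (s + (k + 3)) by positivity)] at this
  rw [hW.vac_eq bF, Real.norm_eq_abs, tor]
  refine le_of_eq_of_le (congrArg _ ?_) (this.trans_eq ?_)
  · field_simp
    ring
  · simp only [mul_zero, zero_add]
    field_simp
    ring

theorem tendsto_vac (V : Vac (PP μ E) hW.gk l r e) (hr : r < 1) (bF : BM F)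
    (dF : DependsOn F (Win a (a + (k + 1 : ℕ)))) :
    Tendsto (fun T => tor μ W a T F / tor μ W a T fun _ => 1) atTop (𝓝 (vac W l e a k F)) := by
  have h := (hW.tendsto_tor V hr bF dF).div (hW.tendsto_tor (a := a) (k := k) V hr (BM.const 1)
    fun _ _ _ => rfl) (by rw [hW.vac_one V]; exact one_ne_zero)
  rw [hW.vac_one V, div_one] at h
  exact h.congr fun T => div_div_div_cancel_right₀ (pow_pos V.pos T).ne' _ _

theorem op_wt (bF : BM F) {b c : ℤ} (dF : DependsOn F (Win b c)) (hbc : b < c) (t : ℕ) (v) :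
    ∀ a, a + t = b → (gk_ker μ ((hW.bm_wt a t).mul bF) a c).op (PP μ E) v =
      (hW.gk.op _ ^ t) ((gk_ker μ bF b c).op _ v) := by
  induction t with
  | zero =>
    rintro a rfl
    rw [pow_zero, one_apply_eq_self, op_congr _ (gk_ker μ bF (a + (0 : ℕ)) c) (by simp [wt])]
  | succ t ih =>
    intro a h
    rw [pow_succ', mul_apply_eq_comp, ← ih (a + (1 : ℕ)) (by push_cast at h ⊢; omega), ← op_cv]
    refine congrArg (fun T : _ →L[ℝ] _ => T v) (op_congr _ _ ?_)
    have e1 := hW.ker_wt 0 a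
    rw [pw, zero_add] at e1
    rw [← e1, ← ker_mul μ (hW.bm_wt _ _) ((hW.bm_wt _ _).mul bF) (dep_wt _ _ le_rfl le_rfl)
      (DependsOn.mul' (dep_wt _ _ le_rfl (by push_cast at h ⊢; omega))
        (dF.mono (Win.mono (by push_cast at h ⊢; omega) le_rfl))) (by omega)
      (by push_cast at h ⊢; omega)]
    simp only [← mul_assoc, ← wt_add, add_comm 1 t]

include hW in
theorem quad (bF : BM F) (s : ℝ) (x y : E → G) : 0 ≤ pw (PP μ E) (KK μ W) k x y * (s * s) +
    2 * ker μ a (a + (k + 1 : ℕ)) (fun w => F w * wt W a (k + 1) w) x y * s +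
      ker μ a (a + (k + 1 : ℕ)) (fun w => F w * F w * wt W a (k + 1) w) x y := by
  have i0 := (bm_put (hW.bm_wt a (k + 1)) a (a + (k + 1 : ℕ)) x y).integrable (PP μ _)
  have i1 := (bm_put (bF.mul (hW.bm_wt a (k + 1))) a (a + (k + 1 : ℕ)) x y).integrable (PP μ _)
  have i2 := (bm_put ((bF.mul bF).mul (hW.bm_wt a (k + 1))) a (a + (k + 1 : ℕ)) x y).integrable
    (PP μ _)
  rw [← hW.ker_wt k a, ker, ker, ker, ← integral_mul_const, ← integral_const_mul,
    ← integral_mul_const, ← integral_add (i0.mul_const _) ((i1.const_mul _).mul_const _),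
    ← integral_add (by exact (i0.mul_const _).add ((i1.const_mul _).mul_const _)) i2]
  refine integral_nonneg fun w => ?_
  have := mul_nonneg (hW.wt_pos a (k + 1) (put a x (put (a + (k + 1 : ℕ)) y w))).le
    (sq_nonneg (s + F (put a x (put (a + (k + 1 : ℕ)) y w))))
  simp only [Pi.zero_apply]
  linarith

theorem vac_clus (V : Vac (PP μ E) hW.gk l r e) (he : 0 ≤ᵐ[PP μ E] e) (bF : BM F) (bF' : BM F')
    {k' t : ℕ} {b : ℤ} (hb : a + (k + 1 : ℕ) + t = b) (dF : DependsOn F (Win a (a + (k + 1 : ℕ))))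
    (dF' : DependsOn F' (Win b (b + (k' + 1 : ℕ)))) :
    (vac W l e a (k + 1 + t + k') (fun w => F w * F' w) - vac W l e a k F * vac W l e b k' F') ^ 2 ≤
      r ^ (2 * t) * vac W l e a k (fun w => F w * F w) * vac W l e b k' fun w => F' w * F' w := by
  rw [hW.vac_eq bF, hW.vac_eq bF', hW.vac_eq (bF.mul bF), hW.vac_eq (bF'.mul bF'),
    hW.vac_eq (bF.mul bF')]
  have d2 := DependsOn.mul' dF' (dep_wt (W := W) b (k' + 1) le_rfl le_rfl)
  have b2 := bF'.mul (hW.bm_wt b (k' + 1))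
  convert clus2 V he hW.symm (hW.gk_obs bF a k) (hW.gk_obs (bF.mul bF) a k) (hW.gk_obs bF' b k')
    (hW.gk_obs (bF'.mul bF') b k') (hW.quad bF) (hW.quad bF') t using 5
  rw [← hW.op_wt b2 d2 (by omega) t e _ hb, ← op_cv]
  refine congrArg (fun T : _ →L[ℝ] _ => T e) (op_congr _ _ ?_)
  rw [← ker_mul μ (bF.mul (hW.bm_wt _ _)) ((hW.bm_wt _ _).mul b2)
    (DependsOn.mul' dF (dep_wt _ _ le_rfl le_rfl)) (DependsOn.mul' (dep_wt _ _ le_rfl (by omega))
      (d2.mono (Win.mono (by omega) le_rfl))) (by omega) (by omega)]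
  congr 1
  · push_cast at hb ⊢; omega
  · funext w
    rw [show k + 1 + t + k' + 1 = k + 1 + (t + (k' + 1)) by ring, wt_add, wt_add _ t, hb]
    ring

end Wt

end Pool.Agent.Lib.MP_7f377f_mp.Ch
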