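import Pool.Agent.Lib.MP_7f377f_mp.HVac

/-! Cyclic chains of layers with a nearest neighbour weight. -/

noncomputable section

namespace Pool.Agent.Lib.MP_7f377f_mp.Hm

open MeasureTheory Filter Topology BoundedContinuousFunction

variable {α G : Type} [MeasurableSpace α] [MeasurableSpace G]

/-- the transfer kernel -/
def tk (η : Measure G) (σ : α → G → α → ℝ) (x y : α) : ℝ := ∫ g, Real.exp (σ x g y) ∂η

/-- the Gibbs measure of the cyclic chain of length `T` -/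
def cyc (μ : Measure α) (η : Measure G) (σ : α → G → α → ℝ) (T : ℕ) [NeZero T] :
    Measure (ZMod T → α × G) :=
  (Measure.pi fun _ => μ.prod η).tilted fun p => ∑ t, σ (p t).1 (p t).2 (p (t + 1)).1

/-- bounded measurable weights with a symmetric transfer kernel -/
structure Wt (η : Measure G) (σ : α → G → α → ℝ) : Prop where
  meas : Measurable fun q : α × G × α => σ q.1 q.2.1 q.2.2
  bdd : ∃ C, ∀ x g y, |σ x g y| ≤ C
  symm : ∀ x y, tk η σ x y = tk η σ y x

/-- opposite slices of the chain of length `2 * (N + 1)` are mixed -/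
def CMix (μ : Measure α) (η : Measure G) (σ : α → G → α → ℝ) (N : ℕ) (c d : ℝ) : Prop :=
  ∃ ga gb : Measure α, ga ≤ (cyc μ η σ (2 * (N + 1))).map (fun p => (p 0).1) ∧
    gb ≤ (cyc μ η σ (2 * (N + 1))).map (fun p => (p (N + 1 : ℕ)).1) ∧
    ENNReal.ofReal (1 - d) ≤ ga Set.univ ∧ ENNReal.ofReal (1 - d) ≤ gb Set.univ ∧
    ∀ A B, MeasurableSet A → MeasurableSet B → ENNReal.ofReal c * (ga A * gb B) ≤
      cyc μ η σ (2 * (N + 1)) {p | (p 0).1 ∈ A ∧ (p (N + 1 : ℕ)).1 ∈ B}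

/-- mixing at two levels gives the infinite chain and its clustering -/
def ChainMain : Prop := ∀ (α G : Type) [MetricSpace α] [CompactSpace α] [MeasurableSpace α]
    [BorelSpace α] [MetricSpace G] [CompactSpace G] [MeasurableSpace G] [BorelSpace G]
    (μ : Measure α) (η : Measure G) [IsProbabilityMeasure μ] [IsProbabilityMeasure η]
    (σ : α → G → α → ℝ), Wt η σ → ∀ (N : ℕ) (c0 c1 : ℝ), 0 < c0 → 0 < c1 →
    CMix μ η σ N c0 (1 / 8) → CMix μ η σ N c1 (c0 / 32) →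
    ∃ ν : Measure (ℤ → α × G), IsProbabilityMeasure ν ∧
      (∀ F : (ℤ → α × G) →ᵇ ℝ, Tendsto (fun T : ℕ => ∫ p, F (fun t => p t) ∂cyc μ η σ (T + 1))
        atTop (𝓝 (∫ p, F p ∂ν))) ∧
      ∀ (s : ℕ) (F H : (ℤ → α × G) →ᵇ ℝ), DependsOn F {t | t < 0} →
        DependsOn H {t | (s : ℤ) ≤ t} →
        |∫ p, F p * H p ∂ν - (∫ p, F p ∂ν) * ∫ p, H p ∂ν| ≤
          Real.exp (-(min 1 c1 / 100 * s / (2 * (N + 1)))) * √(∫ p, F p ^ 2 ∂ν) *
            √(∫ p, H p ^ 2 ∂ν)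

end Pool.Agent.Lib.MP_7f377f_mp.Hm
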