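import Pool.Agent.Lib.MP_7f377f_mp.OSA

/-! Discrete spectrum of a compatible family of roots of a trace class contraction. -/

noncomputable section

namespace Pool.Agent.Lib.MP_7f377f_mp.Hd

open Filter Topology Set Real YM7

theorem sort_nat {I : Type} [Infinite I] {E : I → ℝ} (h : ∀ a, {i | E i ≤ a}.Finite) :
    ∃ φ : ℕ ≃ I, Monotone (E ∘ φ) := by
  classical
  have : Countable I := countable_univ_iff.1 ((countable_iUnion fun n : ℕ => (h n).countable).mono
    fun i _ => mem_iUnion.2 ⟨_, Nat.le_ceil (E i)⟩)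
  obtain ⟨c, hc⟩ := exists_injective_nat I
  let _ : LinearOrder I := LinearOrder.lift' (fun i => toLex (E i, c i)) fun _ _ e =>
    hc (congrArg (fun p => (ofLex p).2) e)
  have m : Monotone E := fun i j e => Prod.Lex.monotone_fst (toLex (E i, c i)) (toLex (E j, c j)) e
  have f : ∀ i : I, (Iic i).Finite := fun i => (h (E i)).subset fun _ hj => m hj
  let _ := LocallyFiniteOrder.ofFiniteIcc fun a b : I => (f b).subset Icc_subset_Iic_self
  let _ := LinearLocallyFiniteOrder.succOrder I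
  let _ := LinearLocallyFiniteOrder.predOrder I
  have : NoMaxOrder I := ⟨fun i => by
    by_contra! H
    exact infinite_univ ((f i).subset fun j _ => H j)⟩
  obtain ⟨b, hb, hb'⟩ := exists_min_image _ id (f (Classical.arbitrary I)) ⟨_, self_mem_Iic⟩
  let _ : OrderBot I := { bot := b, bot_le := fun j => (le_total j _).elim (hb' j) hb.trans }
  exact ⟨orderIsoNatOfLinearSuccPredArch.symm.toEquiv,
    m.comp (orderIsoNatOfLinearSuccPredArch (ι := I)).symm.monotone⟩

variable {H : Type} [NormedAddCommGroup H] [InnerProductSpace ℂ H]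

theorem pos_pow {S : H →L[ℂ] H} (hS : S.IsPositive) :
    ∀ (k : ℕ) (c : H), 0 ≤ (inner ℂ c ((S ^ k) c)).re
  | 0, c => inner_self_nonneg (𝕜 := ℂ)
  | 1, c => by simpa using hS.re_inner_nonneg_right c
  | k + 2, c => by
    rw [pow_succ', mul_apply_eq_comp, pow_succ, mul_apply_eq_comp]
    exact (pos_pow hS k (S c)).trans_eq (congrArg _ (hS.1 c _))

theorem root_zero {S : H →L[ℂ] H} (hS : S.IsPositive) :
    ∀ (k : ℕ) (b : H), (S ^ (k + 1)) b = 0 → S b = 0
  | 0, b, h => by simpa using h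
  | k + 1, b, h => by
    rw [pow_succ, mul_apply_eq_comp] at h
    have e : inner ℂ (S b) (S b) = inner ℂ b (S (S b)) := hS.1 b (S b)
    rwa [root_zero hS k _ h, inner_zero_right, inner_self_eq_zero] at e

theorem root_eig {S : H →L[ℂ] H} (hS : S.IsPositive) {b : H} {l : ℝ} (hl : 0 < l) {k : ℕ}
    (hk : 0 < k) (h : (S ^ k) b = ((l ^ k : ℝ) : ℂ) • b) : S b = (l : ℂ) • b := by
  have e : ∀ k : ℕ, ∑ i ∈ Finset.range k, ((l ^ (k - 1 - i) : ℝ) : ℂ) • (S ^ i) (S b - (l : ℂ) • b) =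
      (S ^ k) b - ((l ^ k : ℝ) : ℂ) • b := fun k => by
    have := congrArg (fun T : H →L[ℂ] H => T b) (Commute.geom_sum₂_mul
      (show Commute S ((l : ℂ) • 1) from (Commute.one_right S).smul_right _) k)
    simpa only [smul_pow, mul_apply_eq_comp, one_pow, sum_apply, sub_apply, smul_apply,
      one_apply_eq_self, map_smul, Complex.ofReal_pow] using this
  have e1 := congrArg (fun v => (inner ℂ (S b - (l : ℂ) • b) v).re) (e k)
  simp only [h, sub_self, inner_zero_right, Complex.zero_re, inner_sum, inner_smul_right,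
    Complex.re_sum, Complex.re_ofReal_mul] at e1
  have e2 := (Finset.sum_eq_zero_iff_of_nonneg fun i _ =>
    mul_nonneg (by positivity) (pos_pow hS i _)).1 e1 0 (Finset.mem_range.2 hk)
  rw [mul_eq_zero_iff_left (by positivity), pow_zero, one_apply_eq_self] at e2
  exact sub_eq_zero.1 (re_inner_self_nonpos (𝕜 := ℂ).1 e2.le)

theorem re_inner_sum {X : Type} {ψ φ : X → H} {K : X → X → ℝ}
    (h : ∀ x y, inner ℂ (ψ x) (φ y) = K x y) (s : Finset X) (z : X → ℂ) :
    (inner ℂ (∑ x ∈ s, z x • ψ x) (∑ x ∈ s, z x • φ x)).re =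
      qf K s (fun x => (z x).re) + qf K s fun x => (z x).im := by
  rw [← re_qf, sum_inner]
  simp only [inner_sum, inner_smul_left, inner_smul_right, h]
  refine congrArg Complex.re ?_
  refine Finset.sum_congr rfl fun x _ => Finset.sum_congr rfl fun y _ => ?_
  ring

theorem pos_on {X : Type} {ψ : X → H} {B' : X → X → ℝ} {A : H →L[ℂ] H}
    (hd : Dense (Submodule.span ℂ (range ψ) : Set H))
    (h' : ∀ x y, inner ℂ (ψ x) (A (ψ y)) = B' x y) (hp : ∀ s c, 0 ≤ qf B' s c) (v : H) :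
    0 ≤ (inner ℂ v (A v)).re := by
  refine hd.induction (fun v hv => ?_) (isClosed_le continuous_const (by fun_prop)) v
  obtain ⟨z, rfl⟩ := Finsupp.mem_span_range_iff_exists_finsupp.1 hv
  simp only [Finsupp.sum, map_sum, map_smul]
  rw [re_inner_sum h']
  exact add_nonneg (hp _ _) (hp _ _)

theorem frame_on {X : Type} {ψ : X → H} {B B' : X → X → ℝ} {A : H →L[ℂ] H} {C : ℝ}
    (hd : Dense (Submodule.span ℂ (range ψ) : Set H)) (h : ∀ x y, inner ℂ (ψ x) (ψ y) = B x y)
    (h' : ∀ x y, inner ℂ (ψ x) (A (ψ y)) = B' x y)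
    (hf : ∀ (s : Finset X) (r : ℕ) (c : Fin r → X → ℝ) (Λ : ℝ), 0 ≤ Λ →
      (∀ u : Fin r → ℝ, qf B s (fun x => ∑ i, u i * c i x) ≤ Λ * ∑ i, u i ^ 2) →
      ∑ i, qf B' s (c i) ≤ Λ * C)
    (r : ℕ) (e : Fin r → H) (he : Orthonormal ℂ e) :
    ∑ i, (inner ℂ (e i) (A (e i))).re ≤ 8 * C := by
  classical
  by_contra hlt
  have hU : IsOpen {w : Fin r → H | 8 * C < ∑ i, (inner ℂ (w i) (A (w i))).re ∧
      ∑ i, ‖w i - e i‖ ^ 2 < 1} :=
    IsOpen.and (isOpen_lt continuous_const (by fun_prop))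
      (isOpen_lt (by fun_prop) continuous_const)
  obtain ⟨w, ⟨w1, w2⟩, w3⟩ := (dense_pi univ fun (_ : Fin r) _ => hd).inter_open_nonempty _ hU
    ⟨e, not_le.1 hlt, by simp⟩
  choose z hz using fun i => Finsupp.mem_span_range_iff_exists_finsupp.1 (w3 i (mem_univ i))
  set s := Finset.univ.biUnion fun i => (z i).support
  have hw : ∀ i, w i = ∑ x ∈ s, z i x • ψ x := fun i => by
    rw [← hz i, Finsupp.sum_of_support_subset (z i) (s := s)
      (Finset.subset_biUnion_of_mem (fun i => (z i).support) (Finset.mem_univ i))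
      (fun x a => a • ψ x) (fun _ _ => zero_smul _ _)]
  have hp : ∀ c : X → ℝ, 0 ≤ qf B s c := fun c => by
    have := re_inner_sum h s (fun x => (c x : ℂ))
    simp only [Complex.ofReal_re, Complex.ofReal_im] at this
    rw [show qf B s (fun _ => 0) = 0 by simp [qf], add_zero] at this
    rw [← this]
    exact inner_self_nonneg (𝕜 := ℂ)
  have key : ∀ u : Fin r → ℝ, qf B s (fun x => ∑ i, u i * (z i x).re)
      + qf B s (fun x => ∑ i, u i * (z i x).im) ≤ 4 * ∑ i, u i ^ 2 := fun u => by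
    have e1 := re_inner_sum h s (fun x => ∑ i, (u i : ℂ) * z i x)
    simp only [Complex.re_sum, Complex.im_sum, Complex.re_ofReal_mul, Complex.im_ofReal_mul] at e1
    have e2 : ∑ x ∈ s, (∑ i, (u i : ℂ) * z i x) • ψ x = ∑ i, (u i : ℂ) • w i := by
      simp only [hw, Finset.sum_smul, Finset.smul_sum, mul_smul]
      exact Finset.sum_comm
    have e3 : ‖∑ i, (u i : ℂ) • e i‖ ^ 2 = ∑ i, u i ^ 2 := by
      rw [← inner_self_eq_norm_sq (𝕜 := ℂ), he.inner_sum]
      simp [sq]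
    have e4 : ‖∑ i, (u i : ℂ) • (w i - e i)‖ ^ 2 ≤ ∑ i, u i ^ 2 := by
      have a1 : ‖∑ i, (u i : ℂ) • (w i - e i)‖ ≤ ∑ i, |u i| * ‖w i - e i‖ :=
        (norm_sum_le _ _).trans (le_of_eq (by simp [norm_smul]))
      have a2 := Finset.sum_mul_sq_le_sq_mul_sq Finset.univ (fun i => |u i|) (fun i => ‖w i - e i‖)
      simp only [sq_abs] at a2
      exact ((pow_le_pow_left₀ (norm_nonneg _) a1 2).trans a2).trans
        (mul_le_of_le_one_right (Finset.sum_nonneg fun _ _ => sq_nonneg _) w2.le)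
    have e5 : ∑ i, (u i : ℂ) • w i = ∑ i, (u i : ℂ) • e i + ∑ i, (u i : ℂ) • (w i - e i) := by
      rw [← Finset.sum_add_distrib]
      exact Finset.sum_congr rfl fun i _ => by rw [← smul_add, add_sub_cancel]
    have e6 := pow_le_pow_left₀ (norm_nonneg _)
      (norm_add_le (∑ i, (u i : ℂ) • e i) (∑ i, (u i : ℂ) • (w i - e i))) 2
    have e7 := inner_self_eq_norm_sq (𝕜 := ℂ) (∑ i, (u i : ℂ) • w i)
    rw [← e1, e2]
    rw [← e5] at e6
    simp only [RCLike.re_to_complex] at e7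
    nlinarith [sq_nonneg (‖∑ i, (u i : ℂ) • e i‖ - ‖∑ i, (u i : ℂ) • (w i - e i)‖)]
  have f1 := hf s r (fun i x => (z i x).re) 4 (by norm_num) fun u => by
    linarith [key u, hp fun x => ∑ i, u i * (z i x).im]
  have f2 := hf s r (fun i x => (z i x).im) 4 (by norm_num) fun u => by
    linarith [key u, hp fun x => ∑ i, u i * (z i x).re]
  have f3 : ∀ i, (inner ℂ (w i) (A (w i))).re
      = qf B' s (fun x => (z i x).re) + qf B' s fun x => (z i x).im := fun i => by
    rw [← re_inner_sum h' s (z i), hw i, map_sum]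
    simp only [map_smul]
  simp only [f3, Finset.sum_add_distrib] at w1
  linarith

variable [CompleteSpace H]

theorem compact_of_hsC (T : H →L[ℂ] H) (C : ℝ)
    (hC : ∀ (ι : Type) (v : ι → H), Orthonormal ℂ v → ∀ F : Finset ι, ∑ i ∈ F, ‖T (v i)‖ ^ 2 ≤ C) :
    IsCompactOperator T := by
  classical
  obtain ⟨w, b, -⟩ := exists_hilbertBasis ℂ H
  have hs : Summable fun i => ‖T (b i)‖ ^ 2 :=
    summable_of_sum_le (fun i => sq_nonneg _) (hC w b b.orthonormal)
  let TF : Finset w → H →L[ℂ] H := fun F => ∑ i ∈ F, (innerSL ℂ (b i)).smulRight (T (b i))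
  have hTF : ∀ F, IsCompactOperator (TF F) := by
    intro F
    induction F using Finset.induction_on with
    | empty => simpa [TF] using isCompactOperator_zero
    | insert a s ha ih =>
      have h1 : IsCompactOperator ((innerSL ℂ (b a)).smulRight (T (b a))) :=
        (isCompactOperator_of_locallyCompactSpace_dom (innerSL ℂ (b a))).clm_comp
          (ContinuousLinearMap.toSpanSingleton ℂ (T (b a)))
      have := h1.add ih
      simpa [TF, Finset.sum_insert ha] using this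
  refine isCompactOperator_of_tendsto (l := atTop) (F := TF) ?_ (Eventually.of_forall hTF)
  rw [Metric.tendsto_atTop]
  intro ε hε
  obtain ⟨F0, hF0⟩ := summable_iff_vanishing_norm.1 hs ((ε / 2) ^ 2) (by positivity)
  refine ⟨F0, fun F hF => ?_⟩
  rw [dist_comm, dist_eq_norm]
  refine lt_of_le_of_lt (ContinuousLinearMap.opNorm_le_bound _ (by positivity : 0 ≤ ε / 2)
    fun f => ?_) (by linarith)
  have h1 : HasSum (fun i => inner ℂ (b i) f • T (b i)) (T f) := by
    have := (b.hasSum_repr f).mapL T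
    simpa [b.repr_apply_apply] using this
  have h2 : Tendsto (fun G : Finset w => ‖∑ i ∈ G, inner ℂ (b i) f • T (b i) - TF F f‖) atTop
      (𝓝 ‖(T - TF F) f‖) := (Tendsto.sub_const h1 _).norm
  refine le_of_tendsto h2 ?_
  filter_upwards [eventually_ge_atTop F] with G hG
  have h3 : ∑ i ∈ G, inner ℂ (b i) f • T (b i) - TF F f
      = ∑ i ∈ G \ F, inner ℂ (b i) f • T (b i) := by
    rw [← Finset.sum_sdiff hG]
    simp [TF]
  rw [h3]
  have h4 : ∑ i ∈ G \ F, ‖T (b i)‖ ^ 2 ≤ (ε / 2) ^ 2 := by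
    have := hF0 (G \ F) (Finset.disjoint_of_subset_right hF Finset.sdiff_disjoint)
    exact (le_abs_self _).trans this.le
  have h5 : ∑ i ∈ G \ F, ‖inner ℂ (b i) f‖ ^ 2 ≤ ‖f‖ ^ 2 := b.orthonormal.sum_inner_products_le f
  have h6 : ‖∑ i ∈ G \ F, inner ℂ (b i) f • T (b i)‖
      ≤ ∑ i ∈ G \ F, ‖inner ℂ (b i) f‖ * ‖T (b i)‖ := by
    refine (norm_sum_le _ _).trans (le_of_eq ?_)
    simp [norm_smul]
  have h7 := Finset.sum_mul_sq_le_sq_mul_sq (G \ F) (fun i => ‖inner ℂ (b i) f‖)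
    (fun i => ‖T (b i)‖)
  refine h6.trans (abs_le_of_sq_le_sq' ?_ (by positivity)).2
  calc _ ≤ _ := h7
    _ ≤ ‖f‖ ^ 2 * (ε / 2) ^ 2 := by gcongr
    _ = _ := by ring

theorem exists_eigenbasisC (T : H →L[ℂ] H) (hT : IsCompactOperator T)
    (hs : (T : H →ₗ[ℂ] H).IsSymmetric) :
    ∃ (ι : Type) (b : HilbertBasis ι ℂ H) (μ : ι → ℂ), ∀ i, T (b i) = μ i • b i := by
  have hcl : ∀ μ : ℂ, CompleteSpace (Module.End.eigenspace (T : H →ₗ[ℂ] H) μ) := by
    intro μ
    have : IsClosed (Module.End.eigenspace (T : H →ₗ[ℂ] H) μ : Set H) := by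
      have : (Module.End.eigenspace (T : H →ₗ[ℂ] H) μ : Set H) = {x | T x = μ • x} := by
        ext x; simp
      rw [this]
      exact isClosed_eq T.continuous (by fun_prop)
    exact this.completeSpace_coe
  choose w b _hb using fun μ : ℂ =>
    exists_hilbertBasis ℂ (Module.End.eigenspace (T : H →ₗ[ℂ] H) μ)
  let v : (Σ μ : ℂ, w μ) → H := fun a => (b a.1 a.2 : H)
  have hv : Orthonormal ℂ v :=
    hs.orthogonalFamily_eigenspaces.orthonormal_sigma_orthonormal fun μ => (b μ).orthonormal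
  have hsp : (Submodule.span ℂ (Set.range v))ᗮ = ⊥ := by
    rw [eq_bot_iff, ← ContinuousLinearMap.orthogonalComplement_iSup_eigenspaces_eq_bot hT hs,
      ← Submodule.iInf_orthogonal]
    intro x hx
    rw [Submodule.mem_iInf]
    intro μ
    rw [Submodule.mem_orthogonal']
    intro y hy
    have h1 := ((b μ).hasSum_repr ⟨y, hy⟩).mapL ((innerSL ℂ x).comp (Submodule.subtypeL _))
    have h2 : ∀ i : w μ, inner ℂ x (b μ i : H) = 0 := fun i =>
      (Submodule.mem_orthogonal' _ _).1 hx _ (Submodule.subset_span ⟨⟨μ, i⟩, rfl⟩)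
    simp only [ContinuousLinearMap.comp_apply, map_smul, Submodule.subtypeL_apply,
      innerSL_apply_apply, h2, smul_zero] at h1
    exact h1.unique hasSum_zero
  refine ⟨_, HilbertBasis.mkOfOrthogonalEqBot hv hsp, fun a => a.1, fun a => ?_⟩
  rw [HilbertBasis.coe_mkOfOrthogonalEqBot]
  exact Module.End.mem_eigenspace_iff.1 (b a.1 a.2).2

theorem l2_of {W : ℕ → H →L[ℂ] H} {N : ℕ → ℕ} (N0 : ∀ k, 0 < N k) (pos : ∀ k, (W k).IsPositive)
    (con : ‖W 0‖ ≤ 1) (pw : ∀ k, W k ^ N k = W 0) (inj : ∀ b, (∀ k, W k b = 0) → b = 0) {C : ℝ}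
    (hC : ∀ (r : ℕ) (e : Fin r → H), Orthonormal ℂ e →
      ∑ i, (inner ℂ (e i) (W 0 (W 0 (e i)))).re ≤ C)
    {Ω : H} (h1 : ‖Ω‖ = 1) (hΩ : W 0 Ω = Ω) (un : ∀ v, W 0 v = v → ∃ c : ℂ, v = c • Ω)
    (inf : ¬FiniteDimensional ℂ H) : ∃ (e : HilbertBasis ℕ ℂ H) (E : ℕ → ℝ), Monotone E ∧ E 0 = 0 ∧
      0 < E 1 ∧ (Summable fun i => exp (-E i)) ∧
      ∀ k i, W k (e i) = (exp (-(E i / (2 * N k))) : ℂ) • e i := by
  classical
  have sym : ∀ x y, inner ℂ (W 0 x) y = inner ℂ x (W 0 y) := (pos 0).1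
  have hC' : ∀ (ι : Type) (v : ι → H), Orthonormal ℂ v → ∀ F : Finset ι,
      ∑ i ∈ F, ‖W 0 (v i)‖ ^ 2 ≤ C := fun ι v hv F => by
    have := hC F.card (fun a => v (F.equivFin.symm a))
      (hv.comp _ (Subtype.val_injective.comp F.equivFin.symm.injective))
    simp only [← sym _ (W 0 _), ← RCLike.re_to_complex, inner_self_eq_norm_sq] at this
    rwa [F.equivFin.symm.sum_comp (fun a : F => ‖W 0 (v a)‖ ^ 2),
      F.sum_coe_sort (fun a => ‖W 0 (v a)‖ ^ 2)] at this
  obtain ⟨I, e, μ, hμ⟩ := exists_eigenbasisC (W 0) (compact_of_hsC _ C hC') (pos 0).1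
  have e1 := e.orthonormal.1
  have ee : ∀ i, inner ℂ (e i) (e i) = 1 := fun i => by
    rw [inner_self_eq_norm_sq_to_K, e1 i]; simp
  have m1 : ∀ i, inner ℂ (e i) (W 0 (e i)) = μ i := fun i => by
    rw [hμ, inner_smul_right, ee, mul_one]
  have m2 : ∀ i, μ i = (μ i).re := fun i => by
    have := sym (e i) (e i)
    rw [← inner_conj_symm, m1] at this
    exact (Complex.conj_eq_iff_re.1 this).symm
  have m3 : ∀ i, 0 < (μ i).re := fun i => by
    refine lt_of_le_of_ne (m1 i ▸ (pos 0).re_inner_nonneg_right (e i)) fun h => ?_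
    have := inj (e i) fun k => root_zero (pos k) (N k - 1) _ (by
      rw [Nat.sub_add_cancel (N0 k), pw, hμ, m2, ← h]
      simp)
    simpa [this] using e1 i
  have m4 : ∀ i, (μ i).re ≤ 1 := fun i => by
    have := ((W 0).le_opNorm (e i)).trans (mul_le_mul_of_nonneg_right con (norm_nonneg _))
    rw [hμ, norm_smul, e1, mul_one, mul_one] at this
    exact (Complex.re_le_norm _).trans this
  obtain ⟨E, hE⟩ : ∃ E : I → ℝ, ∀ i, (μ i).re = exp (-(E i / 2)) :=
    ⟨fun i => -2 * log (μ i).re, fun i => (exp_log (m3 i)).symm.trans (by congr 1; ring)⟩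
  have E0 : ∀ i, 0 ≤ E i := fun i => by linarith [exp_le_one_iff.1 (hE i ▸ m4 i)]
  have hW : ∀ k i, W k (e i) = (exp (-(E i / (2 * N k))) : ℂ) • e i := fun k i =>
    root_eig (pos k) (exp_pos _) (N0 k) (by
      have : (N k : ℝ) ≠ 0 := Nat.cast_ne_zero.2 (N0 k).ne'
      rw [pw, hμ, m2, hE, ← exp_nat_mul]
      congr 3
      field_simp)
  have hs : Summable fun i => exp (-E i) :=
    summable_of_sum_le (c := C) (fun i => (exp_pos _).le) fun F => by
      refine le_of_eq_of_le (Finset.sum_congr rfl fun i _ => ?_) (hC' I e e.orthonormal F)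
      rw [hμ, m2, hE, norm_smul, e1, mul_one, Complex.norm_real, norm_eq_abs, sq_abs, sq, ← exp_add]
      congr 1
      ring
  have : Infinite I := not_finite_iff_infinite.1 fun _ => inf <| by
    have := Fintype.ofFinite I
    exact Module.Finite.of_basis e.toOrthonormalBasis.toBasis
  obtain ⟨φ, hφ⟩ := sort_nat (E := E) fun a =>
    (hs.tendsto_cofinite_zero.eventually (gt_mem_nhds (exp_pos (-a)))).subset fun i hi =>
      not_lt.2 (exp_le_exp.2 (neg_le_neg hi))
  obtain ⟨i, hi⟩ : ∃ i, inner ℂ (e i) Ω ≠ 0 := by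
    by_contra! g
    have := e.hasSum_repr Ω
    simp only [e.repr_apply_apply, g, zero_smul] at this
    simp [this.unique hasSum_zero] at h1
  have i0 : E i = 0 := by
    have := sym (e i) Ω
    rw [hΩ, hμ, m2, hE, inner_smul_left, Complex.conj_ofReal, mul_eq_right₀ hi,
      Complex.ofReal_eq_one, exp_eq_one_iff] at this
    linarith
  have z0 : E (φ 0) = 0 := (E0 _).antisymm' (by simpa [i0] using hφ (Nat.zero_le (φ.symm i)))
  refine ⟨HilbertBasis.mk (e.orthonormal.comp φ φ.injective) (by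
      rw [φ.surjective.range_comp, e.dense_span]), E ∘ φ, hφ, z0,
    (E0 _).lt_of_ne' fun z1 => ?_, φ.summable_iff.2 hs, fun k i => by simpa using hW k (φ i)⟩
  have fx : ∀ j, E j = 0 → ∃ c : ℂ, c ≠ 0 ∧ e j = c • Ω := fun j hj =>
    (un (e j) (by rw [hμ, m2, hE, hj]; simp)).imp fun c hc =>
      ⟨fun z => by simpa [hc, z] using e1 j, hc⟩
  obtain ⟨c, c0, hc⟩ := fx _ z0
  obtain ⟨d, d0, hd⟩ := fx _ z1
  have := e.orthonormal.2 (φ.injective.ne zero_ne_one)
  simp [hc, hd, c0, d0, inner_smul_left, inner_smul_right, h1] at this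

omit [CompleteSpace H] in
theorem not_fin (h : ∀ r : ℕ, ∃ u v : Fin r → H, ∀ i,
    ∑ k ∈ Finset.univ.erase i, ‖inner ℂ (u i) (v k)‖ < ‖inner ℂ (u i) (v i)‖) :
    ¬FiniteDimensional ℂ H := fun _ => by
  obtain ⟨u, v, h⟩ := h (Module.finrank ℂ H + 1)
  refine absurd (LinearIndependent.fintype_card_le_finrank (R := ℂ) (b := v)
    (Fintype.linearIndependent_iff.2 fun c hc => ?_)) (by simp)
  obtain ⟨i, -, hi⟩ := Finset.univ.exists_max_image (fun i => ‖c i‖) ⟨0, Finset.mem_univ _⟩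
  by_contra! ⟨j, hj⟩
  have c0 : 0 < ‖c i‖ := (norm_pos_iff.2 hj).trans_le (hi j (Finset.mem_univ _))
  have e := congrArg (inner ℂ (u i)) hc
  rw [inner_zero_right, inner_sum, ← Finset.add_sum_erase _ _ (Finset.mem_univ i),
    add_eq_zero_iff_eq_neg] at e
  have e1 := (congrArg norm e).trans_le ((norm_neg _).trans_le (norm_sum_le _ _))
  simp only [inner_smul_right, norm_mul] at e1
  refine ((mul_lt_mul_of_pos_left (h i) c0).trans_le e1).not_ge ?_
  rw [Finset.mul_sum]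
  exact Finset.sum_le_sum fun k hk =>
    mul_le_mul_of_nonneg_right (hi k (Finset.mem_univ _)) (norm_nonneg _)

theorem recon {X : Type} {B : X → X → ℝ} {σ : ℕ → ℕ → X → X} {N : ℕ → ℕ} {o : X} {C : ℝ}
    (N0 : ∀ k, 0 < N k) (sy : ∀ x y, B x y = B y x) (hp : ∀ s c, 0 ≤ qf B s c)
    (sh : ∀ k x y, B (σ k 1 x) y = B x (σ k 1 y))
    (p1 : ∀ k s c, 0 ≤ qf (fun x y => B x (σ k 1 y)) s c)
    (con : ∀ k s c, qf (fun x y => B x (σ k 2 y)) s c ≤ qf B s c)
    (z : ∀ k x y, B x (σ k 0 y) = B x y)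
    (ad : ∀ k t x y, B x (σ k (t + 1) y) = B x (σ k 1 (σ k t y)))
    (pw : ∀ k x y, B x (σ k (N k) y) = B x (σ 0 1 y))
    (mar : ∀ y, ∃ k y', ∀ x, B x y = B x (σ k 1 y'))
    (hf : ∀ (s : Finset X) (r : ℕ) (c : Fin r → X → ℝ) (Λ : ℝ), 0 ≤ Λ →
      (∀ u : Fin r → ℝ, qf B s (fun x => ∑ i, u i * c i x) ≤ Λ * ∑ i, u i ^ 2) →
      ∑ i, qf (fun x y => B x (σ 0 2 y)) s (c i) ≤ Λ * C)
    (one : B o o = 1) (vac : ∀ x, B x (σ 0 1 o) = B x o)
    (clus : ∀ y, Tendsto (fun t => B (σ 0 t y) (σ 0 t y)) atTop (𝓝 (B o y ^ 2)))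
    (rank : ∀ r : ℕ, ∃ u v : Fin r → X, ∀ i,
      ∑ k ∈ Finset.univ.erase i, |B (u i) (v k)| < |B (u i) (v i)|) :
    ∃ (ψ : X → lp (fun _ : ℕ => ℂ) 2) (E : ℕ → ℝ),
      Dense (Submodule.span ℂ (range ψ) : Set (lp (fun _ : ℕ => ℂ) 2)) ∧
      (∀ x y, inner ℂ (ψ x) (ψ y) = B x y) ∧ (∀ y y', (∀ x, B x y = B x y') → ψ y = ψ y') ∧
      Monotone E ∧ E 0 = 0 ∧ 0 < E 1 ∧ (Summable fun i => exp (-E i)) ∧
      ∀ k t x i, ψ (σ k t x) i = exp (-(t * E i / (2 * N k))) * ψ x i := by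
  obtain ⟨H, _, _, _, ψ, hB, hd⟩ := gns B sy hp
  have ex : ∀ y y', (∀ x, B x y = B x y') → ψ y = ψ y' := fun y y' h => by
    rw [← sub_eq_zero, ← inner_self_eq_zero (𝕜 := ℂ)]
    simp only [inner_sub_left, inner_sub_right, hB, h, sub_self]
  choose W W1 hW using fun k => exists_op (Φ := fun x => ψ (σ k 1 x))
    (B' := fun x y => B x (σ k 2 y)) hd hB (fun x y => by
      rw [hB, sh, ad k 1]) (con k)
  have Wt : ∀ k t x, (W k ^ t) (ψ x) = ψ (σ k t x) := fun k t x => by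
    induction t with
    | zero => exact ex _ _ fun y => (z k y x).symm
    | succ t ih =>
      rw [pow_succ', mul_apply_eq_comp, ih, hW]
      exact ex _ _ fun y => (ad k t y x).symm
  have pos : ∀ k, (W k).IsPositive := fun k => by
    have sa : IsSelfAdjoint (W k) := adj_ext hd fun x y => by rw [hW, hW, hB, hB, sh]
    refine ⟨sa.isSymmetric, fun v => ?_⟩
    rw [ContinuousLinearMap.reApplyInnerSelf_apply, inner_re_symm]
    exact pos_on hd (fun x y => by rw [hW, hB]) (p1 k) v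
  have sym : ∀ k x y, inner ℂ (W k x) y = inner ℂ x (W k y) := fun k => (pos k).1
  have orth : ∀ b, (∀ x, inner ℂ b (ψ x) = 0) → b = 0 := fun b h =>
    inner_self_eq_zero (𝕜 := ℂ).1 (congrArg (fun L : H →L[ℂ] ℂ => L b)
      (ContinuousLinearMap.ext_on (f := innerSL ℂ b) (g := 0) hd (by rintro _ ⟨x, rfl⟩; exact h x)))
  have hΩ : W 0 (ψ o) = ψ o := (hW 0 o).trans (ex _ _ vac)
  have ΩΩ : inner ℂ (ψ o) (ψ o) = 1 := by rw [hB, one, Complex.ofReal_one]
  have un : ∀ v, W 0 v = v → ∃ c : ℂ, v = c • ψ o := fun v hv => by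
    refine ⟨inner ℂ (ψ o) v, sub_eq_zero.1 (orth _ fun x => ?_)⟩
    have fix : ∀ u, W 0 u = u → ∀ (t : ℕ) w, inner ℂ u ((W 0 ^ t) w) = inner ℂ u w :=
      fun u hu t w => by
        induction t with
        | zero => rfl
        | succ t ih => rw [pow_succ', mul_apply_eq_comp, ← sym, hu, ih]
    generalize hu : v - inner ℂ (ψ o) v • ψ o = u
    have u1 : W 0 u = u := by rw [← hu, map_sub, map_smul, hv, hΩ]
    have u2 : inner ℂ u (ψ o) = 0 := by
      rw [← inner_conj_symm, ← hu, inner_sub_right, inner_smul_right, ΩΩ]; simp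
    have a1 := ((clus x).sub_const (B o x ^ 2)).const_mul (‖u‖ ^ 2)
    rw [sub_self, mul_zero] at a1
    refine norm_eq_zero.1 (pow_eq_zero_iff two_ne_zero |>.1 (le_antisymm (ge_of_tendsto' a1
      fun t => ?_) (sq_nonneg _)))
    have a2 : inner ℂ u (ψ x) = inner ℂ u (ψ (σ 0 t x) - (B o x : ℂ) • ψ o) := by
      rw [inner_sub_right, inner_smul_right, u2, ← Wt, fix u u1, mul_zero, sub_zero]
    have a3 : B o (σ 0 t x) = B o x := Complex.ofReal_injective (by rw [← hB, ← Wt, fix _ hΩ, hB])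
    have a4 := inner_self_eq_norm_sq (𝕜 := ℂ) (ψ (σ 0 t x) - (B o x : ℂ) • ψ o)
    simp only [inner_sub_left, inner_sub_right, inner_smul_left, inner_smul_right, hB, one, a3,
      sy _ o, Complex.conj_ofReal, RCLike.re_to_complex, ← Complex.ofReal_mul, ← Complex.ofReal_sub,
      Complex.ofReal_re] at a4
    rw [a2]
    refine (pow_le_pow_left₀ (norm_nonneg _) (norm_inner_le_norm _ _) 2).trans_eq ?_
    rw [mul_pow, ← a4]
    ring
  obtain ⟨e, E, h1, h2, h3, h4, h5⟩ := l2_of (W := W) (C := 8 * C) (Ω := ψ o) N0 pos (W1 0)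
    (fun k => ContinuousLinearMap.ext_on hd (by
      rintro _ ⟨x, rfl⟩
      rw [Wt, hW]
      exact ex _ _ fun y => pw k y x))
    (fun b hb => orth b fun x => by
      obtain ⟨k, y, h⟩ := mar x
      rw [ex _ _ h, ← hW, ← sym, hb, inner_zero_left])
    (fun r e he => frame_on (A := W 0 * W 0) hd hB (fun x y => by rw [← sq, Wt, hB]) hf r e he)
    (by rw [@norm_eq_sqrt_re_inner ℂ, ΩΩ]; simp) hΩ un
    (not_fin fun r => (rank r).imp' (fun u => ψ ∘ u) fun u h => h.imp' (fun v => ψ ∘ v) fun v h => by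
      simpa only [Function.comp, hB, Complex.norm_real, norm_eq_abs] using h)
  refine ⟨fun x => e.repr (ψ x), E, ?_, fun x y => by rw [e.repr.inner_map_map, hB],
    fun y y' h => congrArg _ (ex _ _ h), h1, h2, h3, h4, fun k t x i => ?_⟩
  · refine (e.repr.surjective.denseRange.dense_image e.repr.continuous hd).mono ?_
    rintro _ ⟨v, hv, rfl⟩
    rw [show (range fun x => e.repr (ψ x)) = e.repr.toLinearEquiv.toLinearMap '' range ψ from
      range_comp _ _, Submodule.span_image]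
    exact Submodule.mem_map_of_mem hv
  · rw [e.repr_apply_apply, e.repr_apply_apply, ← Wt]
    induction t with
    | zero => simp
    | succ t ih =>
      rw [pow_succ', mul_apply_eq_comp, ← sym, h5, inner_smul_left, ih, Complex.conj_ofReal,
        ← mul_assoc, ← Complex.ofReal_mul, ← exp_add]
      congr 3
      push_cast
      ring

end Pool.Agent.Lib.MP_7f377f_mp.Hd
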