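import Pool.Agent.Lib.MP_7f377f_mp.HC4C
import Pool.Agent.Lib.MP_7f377f_mp.HC5A
import Pool.Agent.Lib.MP_7f377f_mp.CyB

/-! Gram and frame bounds for the limit of the averaged fields on the cylinder. -/

noncomputable section

namespace Pool.Agent.Lib.MP_7f377f_mp.Y6

open MeasureTheory Measure Function Filter Topology Pool.Agent.Lib.MP_2d4879_an Hm RGP Ch
open scoped InnerProductSpace Quaternion

set_option linter.unusedSectionVars false

/-- positivity, contractivity and a frame bound for a family of Gram matrices -/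
def Gr (C : ℝ) (m : ℕ) {q : ℕ} (g : ℕ → Fin q → Fin q → ℝ) : Prop :=
  (∀ s i, 0 ≤ g s i i ∧ g s i i ≤ g 0 i i) ∧ ∀ Λ : ℝ, 0 ≤ Λ →
    (∀ u : Fin q → ℝ, ∑ i, ∑ j, u i * u j * g 0 i j ≤ Λ * ∑ i, u i ^ 2) → ∑ i, g m i i ≤ Λ * C

theorem Gr.closed (C : ℝ) (m q : ℕ) : IsClosed {g : ℕ → Fin q → Fin q → ℝ | Gr C m g} := by
  refine isClosed_of_closure_subset fun g hg => ?_
  rw [mem_closure_iff_frequently] at hg
  have c : ∀ {a b : (ℕ → Fin q → Fin q → ℝ) → ℝ}, Continuous a → Continuous b →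
      (∀ g', Gr C m g' → a g' ≤ b g') → a g ≤ b g := fun ca cb h =>
    (isClosed_le ca cb).mem_of_frequently_of_tendsto (hg.mono h) tendsto_id
  refine ⟨fun s i => ⟨c (a := fun _ => 0) (b := fun g => g s i i) (by fun_prop) (by fun_prop)
    fun _ h => (h.1 s i).1, c (a := fun g => g s i i) (b := fun g => g 0 i i) (by fun_prop)
      (by fun_prop) fun _ h => (h.1 s i).2⟩, fun Λ hΛ h => ?_⟩
  simpa using c (a := fun g => ∑ i, g m i i)
    (b := fun g' => (Λ + ∑ i, ∑ j, |g' 0 i j - g 0 i j|) * C) (by fun_prop) (by fun_prop)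
    fun g' h' => h'.2 _ (by positivity) fun u => by
      rw [add_mul, Finset.sum_mul]
      refine le_trans ?_ (add_le_add_left (h u) _)
      rw [← Finset.sum_add_distrib]
      refine Finset.sum_le_sum fun i _ => ?_
      rw [Finset.sum_mul, ← Finset.sum_add_distrib]
      refine Finset.sum_le_sum fun j _ => ?_
      have a : ∀ i, u i ^ 2 ≤ ∑ i, u i ^ 2 := fun i =>
        Finset.single_le_sum (fun i _ => sq_nonneg (u i)) (Finset.mem_univ i)
      have b : |u i * u j| ≤ ∑ i, u i ^ 2 := abs_le.2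
        ⟨by nlinarith [a i, a j, sq_nonneg (u i + u j)], by nlinarith [a i, a j, sq_nonneg (u i - u j)]⟩
      have := (le_abs_self _).trans ((abs_mul _ (g' 0 i j - g 0 i j)).trans_le
        (mul_le_mul_of_nonneg_right b (abs_nonneg _)))
      linarith

theorem Gr.scale {C : ℝ} {L m q : ℕ} {g : ℕ → Fin q → Fin q → ℝ} (h : Gr C (L * m) g) :
    Gr C m fun s => g (L * s) :=
  ⟨fun _ i => h.1 _ i, h.2⟩

variable {n : ℕ}

theorem lift_rfc (w : Ix (Ed n) (Sp n) → SU2) : lift (rfc 0 w) = act (T1 0) 0 (lift w) := by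
  funext ⟨x, i⟩
  refine Fin.cases ?_ (fun j => ?_) i
  · exact congrArg (fun e => (w e)⁻¹) (Prod.ext (by simp [ix, mv, T1, dl])
      (congrArg Sum.inr (funext fun k => by simp [sp, mv, T1])))
  · rw [act, pat, show T1 0 (x, j.succ).2 = false by simp [T1], sg_false]
    refine congrArg w (Prod.ext ?_ ?_)
    · simp [ix, mv, T1, dl, (Fin.succ_ne_zero j).symm]
    · exact congrArg (fun y => Sum.inl (y, j)) (funext fun k => by simp [sp, mv, T1])

theorem lift_sft (s : ℤ) (w : Ix (Ed n) (Sp n) → SU2) :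
    lift (sft s w) = act T0 (Pi.single 0 s) (lift w) := by
  funext ⟨x, i⟩
  refine congrArg w (Prod.ext (by simp [ix, mv]) ?_)
  simp only [ix, show sp n (mv T0 (Pi.single 0 s) (x, i)).1 = sp n x from
    funext fun k => by simp [sp, mv]]
  rfl

variable [NeZero n]

theorem WW_inv (β : ℝ) (x : Ed n → SU2) (g : Sp n → SU2) (y : Ed n → SU2) :
    WW β x g⁻¹ y = WW β y g x := by
  rw [WW, WW, add_comm (w2 x / 2), ← dt_ga g, ga_ga, dt_comm, mul_inv_cancel, ga_one]

theorem cont_act (T : Fin 3 → Bool) (a : Fin 3 → ℤ) : Continuous (act (G := SU2) T a) :=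
  continuous_pi fun e => by
    unfold act pat sg
    split_ifs <;> fun_prop

variable [MeasurableSpace SU2] [BorelSpace SU2] {h : Measure SU2} [h.IsHaarMeasure]
  [IsProbabilityMeasure h] {β l r : ℝ} {e : Lp ℝ 2 (PP h (Ed n))} {μ : Measure (Link → SU2)}
  [IsProbabilityMeasure μ]

theorem gr_lat (V : Vac _ (wt_WW h β).gk l r e) (hr : r < 1) (hβ : 0 ≤ β)
    (hμ : ∀ F : (Link → SU2) → ℝ, Continuous F →
      Tendsto (fun T => ∫ U, F U ∂wilson h β ![T, n, n]) atTop (𝓝 (∫ U, F U ∂μ))) {N : ℕ} {C : ℝ}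
    (hC : ∫ x, ∫ y, kk h β N x y ^ 2 ∂PP h (Ed n) ∂PP h (Ed n) ≤ C * l ^ (2 * N + 2)) {q k : ℕ}
    {F : Fin q → (Link → SU2) → ℝ} (cF : ∀ i, Continuous (F i))
    (dF : ∀ i, DependsOn (F i) (Tm 0 (k + 1 : ℕ))) : Gr C (2 * N + 2) fun s i j =>
      ∫ U, F i (act (T1 0) 0 U) * F j (act T0 (Pi.single 0 (s : ℤ)) U) ∂μ := by
  have W := wt_WW (n := n) h β
  have b := fun i => (bm_of_cont (cF i)).comp (meas_lift (n := n))
  have d := fun i => dep_lift (n := n) (dF i)
  have e1 : ∀ (s : ℕ) i j, ∫ U, F i (act (T1 0) 0 U) * F j (act T0 (Pi.single 0 (s : ℤ)) U) ∂μ =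
      vac (WW β) l e (-(k + 1 : ℕ)) (k + 1 + s + k)
        fun w => F i (lift (rfc 0 w)) * F j (lift (sft s w)) := fun s i j => by
    simp only [lift_rfc, lift_sft]
    refine int_loc V hr hμ (((cF i).comp (cont_act _ _)).mul ((cF j).comp (cont_act _ _))) ?_
    simp only [Pi.mul_apply, comp, ← lift_rfc, ← lift_sft]
    exact DependsOn.mul' ((dep_rfc (d i) 0).mono (Win.mono (by omega) (by omega)))
      ((dep_sft (d j) s).mono (Win.mono (by omega) (by omega)))
  simp only [Gr, e1]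
  refine ⟨fun s i => W.gram_pos V (KK_psd h β hβ) (WW_inv β) (b i) (d i) s, fun Λ hΛ H =>
    (W.gram_frame (a := 0) V (WW_inv β) b d hΛ H N).trans (mul_le_mul_of_nonneg_left ?_ hΛ)⟩
  rw [div_le_iff₀ (pow_pos V.pos _), show 2 * N + 2 = N + 1 + (N + 1) by ring, tor,
    W.int_tor (BM.const 1) fun _ _ _ => rfl, show N + 1 + (N + 1) = 2 * N + 2 by ring]
  simpa only [one_mul, W.ker_wt, MP_2d4879_an.cv, sq, pw_symm W.gk W.symm N] using hC

end Pool.Agent.Lib.MP_7f377f_mp.Y6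

namespace Pool.Agent.Lib.MP_7f377f_mp.RG.D3.Hm5

open MeasureTheory Filter Topology BoundedContinuousFunction Dt Ds Fi D3.Pv ProbabilityTheory Hc
open scoped Quaternion

variable [MeasurableSpace ℍ] [BorelSpace ℍ]

/-- the reflected product at time distance `s` -/
def gm (ν : Measure FH) (s : ℤ) (F G : FH →ᵇ ℝ) : ℝ := ∫ X, F (th X) * G (tau s X) ∂ν

theorem cont_gm (s : ℤ) (F G : FH →ᵇ ℝ) :
    Continuous fun ρ : ProbabilityMeasure FH => gm ρ s F G :=
  ProbabilityMeasure.continuous_integral_boundedContinuousFunction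
    (F.compContinuous ⟨_, cont_th⟩ * G.compContinuous (tau s))

theorem mem_of_lim {γ : ℝ} {j : ℕ} {ν : ProbabilityMeasure FH} (hν : Tendsto (pm γ j) Φ (𝓝 ν))
    {Y : Type} [TopologicalSpace Y] [RegularSpace Y] {Ψ : ProbabilityMeasure FH → Y}
    (c : Continuous Ψ) {S : Set Y} (hS : IsClosed S) (j0 : ℕ) (h : ∀ J ≥ j0, ∀ l, Adm J l →
      ∃ ρ, Ψ ρ ∈ S ∧ Tendsto (fun T => pm γ j (J, l, T)) atTop (𝓝 ρ)) : Ψ ν ∈ S := by
  by_contra H
  obtain ⟨V, h1, h2, h3⟩ := exists_mem_nhds_isClosed_subset (hS.isOpen_compl.mem_nhds H)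
  refine (freq (P := fun p => Ψ (pm γ j p) ∉ V) j0 fun J hJ l hl => ?_)
    ((((c.tendsto ν).comp hν).eventually h1).mono fun _ => not_not.2)
  obtain ⟨ρ, a, b⟩ := h J hJ l hl
  exact Eventually.frequently (((c.tendsto ρ).comp b) (h2.isOpen_compl.mem_nhds fun z => h3 z a))

omit [MeasurableSpace ℍ] [BorelSpace ℍ] in
theorem lat_gr {γ : ℝ} (hγ : 0 < γ) : ∃ C : ℝ, ∃ J0 : ℕ, ∀ J ≥ J0, ∀ l, Adm J l →
    ∃ μ : Measure Conf, IsProbabilityMeasure μ ∧ (∀ F : Conf → ℝ, Continuous F →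
      Tendsto (fun T => ∫ U, F U ∂Hc.wT γ (J, l, T)) atTop (𝓝 (∫ U, F U ∂μ))) ∧
      ∀ (q k : ℕ) (F : Fin q → Conf → ℝ), (∀ i, Continuous (F i)) →
        (∀ i, DependsOn (F i) (Y6.Tm 0 (k + 1 : ℕ))) → Y6.Gr C (LL l * nn J) fun s i j =>
          ∫ U, F i (RGP.act (RGP.T1 0) 0 U) * F j (sh (Pi.single 0 (s : ℤ)) U) ∂μ := by
  obtain ⟨Δ, hΔ, C, -, J0, H⟩ := Y6.vac_main Y6.mix_main (tr haar) hγ
  refine ⟨C, J0, fun J hJ l hl => ?_⟩
  have np := n_pos J l
  have : NeZero (LL l * nn J) := ⟨np.ne'⟩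
  obtain ⟨N, hN⟩ : ∃ N, N + 1 = LL l * 3 ^ J ^ 2 :=
    ⟨_, Nat.sub_add_cancel (mul_pos (LL_pos l) (by positivity))⟩
  obtain ⟨a, r, e, V, hr, hC⟩ := H J l hJ hl _ N rfl hN
  have r1 : r < 1 := hr.trans_lt (Real.exp_lt_one_iff.2 (neg_lt_zero.2 (by positivity)))
  obtain ⟨μ, i, hμ⟩ := Y6.exists_lim V r1
  refine ⟨μ, i, hμ, fun q k F cF dF => ?_⟩
  have := Y6.gr_lat V r1 (by positivity) hμ hC cF dF
  rwa [show 2 * N + 2 = LL l * nn J by rw [nn, mul_left_comm, ← hN]; ring] at this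

theorem gr_win {γ : ℝ} (hγ : 0 < γ) : ∃ C : ℝ, ∀ (j : ℕ) (ν : ProbabilityMeasure FH),
    Tendsto (pm γ j) Φ (𝓝 ν) → ∀ (q b : ℕ) (F : Fin q → FH →ᵇ ℝ),
      (∀ i, DependsOn (F i) {e | 1 ≤ e.1 0 ∧ e.1 0 + 1 < b}) →
      Y6.Gr C (nn j) fun s i k => gm ν s (F i) (F k) := by
  obtain ⟨C, J0, H⟩ := lat_gr hγ
  refine ⟨C, fun j ν hν q b F dF => mem_of_lim hν (Ψ := fun ρ (s : ℕ) i k => gm ρ s (F i) (F k))
    (continuous_pi fun _ => continuous_pi fun _ => continuous_pi fun _ => cont_gm _ _ _)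
    (Y6.Gr.closed C (nn j) q) (J0 + j) fun J hJ l hl => ?_⟩
  obtain ⟨μ, _, hμ, H⟩ := H J (by omega) l hl
  obtain ⟨R, φ, e1, h⟩ := cov_XX (show j ≤ J by omega) l
  have mX := (cont_XX J l j).measurable
  have L := LL_cast R
  have key := H q (LL R * b + R)
    (fun i U => F i (XX J l j U)) (fun i => (F i).continuous.comp (cont_XX ..))
    fun i => dep_XX h (dF i) fun e he f a1 a2 => by
      have : 0 ≤ un f.2 0 := by rw [un_apply]; split_ifs <;> omega
      have : un e.2 0 ≤ 1 := by rw [un_apply]; split_ifs <;> omega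
      have := he.1
      have := he.2
      constructor
      · nlinarith
      · push_cast
        nlinarith
  rw [← e1] at key
  refine ⟨⟨μ.map (XX J l j), Measure.isProbabilityMeasure_map mX.aemeasurable⟩, ?_,
    ProbabilityMeasure.tendsto_iff_forall_integral_tendsto.2 fun K => ?_⟩
  · rw [Set.mem_ofPred_eq]
    refine (congrArg (Y6.Gr C (nn j)) (funext fun s => funext₂ fun i k => ?_)).mpr key.scale
    refine (integral_map mX.aemeasurable (((F i).continuous.comp cont_th).mul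
      ((F k).continuous.comp (tau s).continuous)).aestronglyMeasurable).trans
      (congrArg _ (funext fun U => congrArg₂ (F i · * F k ·) ?_ ?_))
    · exact (h.refl _ _).symm.trans (congrArg _ (congrArg _ (qF_act _ U).symm))
    · refine (h.shift _ _).symm.trans (congrArg _ (congrArg _ ?_))
      rw [up, ← Pi.single_smul, smul_eq_mul, Nat.cast_mul]
      rfl
  · simp only [int_pm γ j _ K.continuous.measurable]
    rw [ProbabilityMeasure.coe_mk, integral_map mX.aemeasurable K.continuous.aestronglyMeasurable]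
    exact hμ _ (K.continuous.comp (cont_XX J l j))

theorem gr_main {γ : ℝ} (hγ : 0 < γ) : ∃ C : ℝ, ∀ (j : ℕ) (ν : ProbabilityMeasure FH),
    Tendsto (pm γ j) Φ (𝓝 ν) → ∀ (q : ℕ) (F : Fin q → FH →ᵇ ℝ),
      (∀ i, DependsOn (F i) {e | 1 ≤ e.1 0}) → Y6.Gr C (nn j) fun s i k => gm ν s (F i) (F k) := by
  obtain ⟨C, H⟩ := gr_win hγ
  refine ⟨C, fun j ν hν q F dF => ?_⟩
  have c : ∀ m, Continuous (cutH m) := fun m => continuous_pi fun e => by
    unfold cutH
    split_ifs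
    exacts [continuous_apply _, continuous_const]
  have t : ∀ i X, Tendsto (fun m => F i (cutH m X)) atTop (𝓝 (F i X)) := fun i X =>
    ((F i).continuous.tendsto _).comp (tendsto_pi_nhds.2 fun e => tendsto_const_nhds.congr'
      ((eventually_gt_atTop ((e.1 0).natAbs + 1)).mono fun m hm => (if_pos (by omega)).symm))
  change (fun (s : ℕ) i k => gm ν s (F i) (F k)) ∈ {g | Y6.Gr C (nn j) g}
  refine (Y6.Gr.closed C (nn j) q).mem_of_tendsto (b := atTop) (f := fun m (s : ℕ) i k =>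
    gm ν s ((F i).compContinuous ⟨_, c m⟩) ((F k).compContinuous ⟨_, c m⟩))
    (tendsto_pi_nhds.2 fun s => tendsto_pi_nhds.2 fun i => tendsto_pi_nhds.2 fun k =>
      tendsto_integral_of_dominated_convergence (fun _ => ‖F i‖ * ‖F k‖)
        (fun m => (((F i).continuous.comp ((c m).comp cont_th)).mul ((F k).continuous.comp
          ((c m).comp (tau s).continuous))).aestronglyMeasurable) (integrable_const _)
        (fun _ => .of_forall fun _ => (norm_mul_le _ _).trans (mul_le_mul ((F i).norm_coe_le_norm _)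
          ((F k).norm_coe_le_norm _) (norm_nonneg _) (norm_nonneg _)))
        (.of_forall fun X => (t i _).mul (t k _)))
    (.of_forall fun m => H j ν hν q m _ fun i X X' h => dF i fun e he => ?_)
  simp only [ContinuousMap.coe_mk, cutH]
  split_ifs with h'
  exacts [h e ⟨he, h'⟩, rfl]

end Pool.Agent.Lib.MP_7f377f_mp.RG.D3.Hm5
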