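import Pool.Agent.Lib.MP_7f377f_mp.HC5B

/-! Persistent and well spread observables give Gram matrices of arbitrarily large rank. -/

noncomputable section

namespace Pool.Agent.Lib.MP_7f377f_mp.RG.D3.Hm5

open MeasureTheory Filter Topology BoundedContinuousFunction Dt Ds Fi D3.Pv ProbabilityTheory Hc
open scoped Quaternion ENNReal

/-- a bump which vanishes off `(a, b)` and equals one on `[a + 1, b - 1]` -/
def bump (a b : ℝ) : ℝ →ᵇ ℝ :=
  ofNormedAddCommGroup (fun x => max 0 (min 1 (min (x - a) (b - x)))) (by fun_prop) 1 fun _ =>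
    abs_le.2 ⟨le_max_of_le_left (by norm_num), max_le zero_le_one (min_le_left _ _)⟩

theorem bump_01 (a b x : ℝ) : 0 ≤ bump a b x ∧ bump a b x ≤ 1 :=
  ⟨le_max_left _ _, max_le zero_le_one (min_le_left _ _)⟩

theorem bump_zero {a b x : ℝ} (h : x ≤ a ∨ b ≤ x) : bump a b x = 0 :=
  max_eq_left (min_le_of_right_le (min_le_iff.2 (h.imp sub_nonpos.2 sub_nonpos.2)))

theorem bump_one {a b x : ℝ} (h1 : a + 1 ≤ x) (h2 : x ≤ b - 1) : bump a b x = 1 :=
  (congrArg _ (min_eq_left (le_min (by linarith) (by linarith)))).trans (max_eq_right zero_le_one)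

theorem bumps {Ω : Type} [MeasurableSpace Ω] {μ : Measure Ω} [IsProbabilityMeasure μ]
    {O O' : Ω → ℝ} (mO : Measurable O) (mO' : Measurable O') {ε : ℝ} {r : ℕ} (e0 : 0 ≤ ε)
    (hε : (r + 2) * (r + 34) * ε < 1) (h1 : 1 - ε ≤ μ.real {x | |O x - O' x| ≤ 2})
    (h2 : ∀ t, 1 - ε ≤ μ.real {x | O' x ≤ t ∨ t + 1 / 2 ≤ O' x}) :
    ∃ f g : Fin r → ℝ →ᵇ ℝ, ∀ i, r * ε < ∫ x, f i (O x) * g i (O' x) ∂μ ∧
      ∀ k ≠ i, |∫ x, f i (O x) * g k (O' x) ∂μ| ≤ ε := by
  have := Measure.isProbabilityMeasure_map (μ := μ) mO'.aemeasurable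
  have ms : ∀ t, MeasurableSet {x | O' x ≤ t} := fun t => measurableSet_le mO' measurable_const
  have mA : MeasurableSet {x | |O x - O' x| ≤ 2} := measurableSet_le (mO.sub mO').abs measurable_const
  have hA : μ.real {x | |O x - O' x| ≤ 2}ᶜ ≤ ε := by linarith [probReal_compl_eq_one_sub (μ := μ) mA]
  obtain ⟨φ, hφ, p0, p1, pm⟩ : ∃ φ : ℝ → ℝ, (∀ t, φ t = μ.real {x | O' x ≤ t}) ∧
      Tendsto φ atBot (𝓝 0) ∧ Tendsto φ atTop (𝓝 1) ∧ Monotone φ :=
    ⟨cdf (μ.map O'), fun t => (cdf_eq_real _ t).trans (map_measureReal_apply mO' measurableSet_Iic),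
      tendsto_cdf_atBot _, tendsto_cdf_atTop _, monotone_cdf _⟩
  have st : ∀ t, φ (t + 1 / 4) ≤ φ t + ε := fun t => by
    have := probReal_compl_eq_one_sub (μ := μ) (s := {x | O' x ≤ t ∨ t + 1 / 2 ≤ O' x})
      ((ms t).union (measurableSet_le measurable_const mO'))
    rw [hφ, hφ]
    refine (measureReal_mono (fun x (hx : O' x ≤ t + 1 / 4) => or_iff_not_imp_left.2 fun h h' =>
      h'.elim h fun _ => by linarith) (measure_ne_top _ _)).trans ((measureReal_union_le _ _).trans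
        (add_le_add_right (this.trans_le (sub_le_comm.1 (h2 t))) _))
  have it : ∀ (m : ℕ) t, φ (t + m / 4) ≤ φ t + m * ε := fun m t => by
    induction m with
    | zero => simp
    | succ m ih =>
      have := st (t + m / 4)
      push_cast
      rw [add_div, ← add_assoc]
      linarith
  have iv : ∀ v : ℝ, ∃ t, 0 < v → v < 1 → v ≤ φ t ∧ φ t ≤ v + ε := fun v => by
    classical
    by_cases hv : 0 < v ∧ v < 1
    swap
    · exact ⟨0, fun a b => absurd ⟨a, b⟩ hv⟩
    obtain ⟨s, hs⟩ := (p0.eventually (gt_mem_nhds hv.1)).exists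
    have ex : ∃ m : ℕ, v ≤ φ (s + m / 4) := ((p1.comp (tendsto_atTop_add_const_left _ s
      (tendsto_natCast_atTop_atTop.atTop_div_const four_pos))).eventually (eventually_ge_nhds hv.2)).exists
    refine ⟨_, fun _ _ => ⟨Nat.find_spec ex, ?_⟩⟩
    obtain ⟨m, hm⟩ := Nat.exists_eq_succ_of_ne_zero
      ((Nat.find_eq_zero ex).not.2 (by simpa using hs))
    have a := Nat.find_min ex (hm ▸ m.lt_succ_self)
    have b := st (s + m / 4)
    rw [hm, Nat.cast_succ, add_div, ← add_assoc]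
    linarith
  choose τ hτ using iv
  obtain ⟨q, q0, q1, q2⟩ : ∃ q : ℝ, 0 < q ∧ (r + 2) * q = 1 ∧ (r + 34) * ε < q :=
    ⟨(r + 2)⁻¹, by positivity, mul_inv_cancel₀ (by positivity), by
      rw [inv_eq_one_div, lt_div_iff₀ (by positivity)]; linarith⟩
  have r0 : (0 : ℝ) ≤ r * ε := by positivity
  obtain ⟨t, ht⟩ : ∃ t : ℕ → ℝ, ∀ k ≤ r, (k + 1) * q ≤ φ (t k) ∧ φ (t k) ≤ (k + 1) * q + ε :=
    ⟨fun k => τ ((k + 1) * q), fun k hk => hτ _ (by positivity) (by
      have : (k : ℝ) ≤ r := by exact_mod_cast hk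
      nlinarith)⟩
  have tm : ∀ i k, i ≤ k → k ≤ r → t i ≤ t k := fun i k h hk => h.eq_or_lt.elim (fun e => e ▸ le_rfl)
    fun h => not_lt.1 fun z => by
      have : (i : ℝ) + 1 ≤ k := by exact_mod_cast h
      nlinarith [pm z.le, (ht i (by omega)).2, (ht k hk).1]
  have ii : ∀ f g : ℝ →ᵇ ℝ, Integrable (fun x => f (O x) * g (O' x)) μ := fun f g =>
    .of_bound ((f.continuous.measurable.comp mO).mul
      (g.continuous.measurable.comp mO')).aestronglyMeasurable (‖f‖ * ‖g‖) (.of_forall fun x =>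
        (norm_mul_le _ _).trans (mul_le_mul (f.norm_coe_le_norm _) (g.norm_coe_le_norm _)
          (norm_nonneg _) (norm_nonneg _)))
  have p := fun a b x c d y => mul_nonneg (bump_01 a b x).1 (bump_01 c d y).1
  have io : ∀ {s : Set Ω}, MeasurableSet s → ∫ x, RGP.ind s x ∂μ = μ.real s :=
    fun h => integral_indicator_one h
  refine ⟨fun i => bump (t i) (t (i + 1)), fun i => bump (t i + 3) (t (i + 1) - 3),
    fun i => ⟨?_, fun k hk => ?_⟩⟩
  · have b1 := (RGP.bm_ind (ms (t (i + 1) - 4))).integrable μ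
    have b2 := (RGP.bm_ind (ms (t i + 4))).integrable μ
    refine lt_of_lt_of_le ?_ (integral_mono ((b1.sub b2).sub ((RGP.bm_ind mA.compl).integrable μ))
      (ii _ _) fun x => ?_)
    · have a1 := it 16 (t (i + 1) - 4)
      have a2 := it 16 (t i)
      have a3 := (ht (i + 1) i.2).1
      simp only [Pi.sub_apply]
      rw [integral_sub (b1.sub' b2) ((RGP.bm_ind mA.compl).integrable μ), integral_sub b1 b2,
        io (ms _), io (ms _), io mA.compl, ← hφ, ← hφ]
      norm_num at a1 a2 a3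
      linarith [(ht i i.2.le).2]
    · have a0 := p (t i) (t (i + 1)) (O x) (t i + 3) (t (i + 1) - 3) (O' x)
      have a1 := RGP.ind_le_one {x | O' x ≤ t (i + 1) - 4} x
      have a2 := RGP.ind_nonneg {x | O' x ≤ t i + 4} x
      have a3 := RGP.ind_nonneg {x | |O x - O' x| ≤ 2}ᶜ x
      simp only [Pi.sub_apply]
      by_cases c1 : O' x ≤ t (i + 1) - 4
      swap
      · linarith [RGP.ind_of_not (s := {x | O' x ≤ t (i + 1) - 4}) c1]
      by_cases c2 : O' x ≤ t i + 4
      · linarith [RGP.ind_of_mem (s := {x | O' x ≤ t i + 4}) c2]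
      by_cases c3 : |O x - O' x| ≤ 2
      swap
      · linarith [RGP.ind_of_mem (s := {x | |O x - O' x| ≤ 2}ᶜ) c3]
      have := abs_le.1 c3
      rw [bump_one (by linarith) (by linarith), bump_one (by linarith) (by linarith)]
      linarith
  · rw [abs_of_nonneg (integral_nonneg fun x => p ..)]
    refine (integral_mono (ii _ _) ((RGP.bm_ind mA.compl).integrable μ) fun x => ?_).trans
      ((io mA.compl).trans_le hA)
    by_cases c3 : |O x - O' x| ≤ 2
    swap
    · exact (mul_le_one₀ (bump_01 ..).2 (bump_01 ..).1 (bump_01 ..).2).trans_eq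
        (RGP.ind_of_mem (s := {x | |O x - O' x| ≤ 2}ᶜ) c3).symm
    have := abs_le.1 c3
    refine le_of_eq_of_le (mul_eq_zero.2 (or_iff_not_imp_right.2 fun z => bump_zero ?_))
      (RGP.ind_nonneg _ _)
    have z1 := not_or.1 fun h => z (bump_zero h)
    rcases lt_or_gt_of_ne hk with h | h
    · exact .inl (by linarith [tm (k + 1) i h i.2.le, z1.2])
    · exact .inr (by linarith [tm (i + 1) k h k.2.le, z1.1])

/-- events which are rare on the cube are rare on long tori -/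
theorem dom' {γ ε : ℝ} (hγ : 0 < γ) (hε : 0 < ε) :
    ∃ e > (0 : ℝ), ∃ J0, ∀ J l, J0 ≤ J → Adm J l → ∀ F : Conf → ℝ,
    Measurable F → (∀ U, 0 ≤ F U ∧ F U ≤ 1) → ∀ a : ℤ,
    DependsOn F (Y6.Tm a (a + (LL l * 3 ^ J ^ 2 : ℕ))) →
    ∫ U, F U ∂wN (γ * (LL l * nn J : ℕ)) ![LL l * nn J, LL l * nn J, LL l * nn J] ≤ 2 * e →
    ∀ᶠ T in atTop, ∫ U, F U ∂wN (γ * (LL l * nn J : ℕ)) ![T, LL l * nn J, LL l * nn J] ≤ ε := by
  obtain ⟨Δ, hΔ, C, C0, J0, H⟩ := Y6.vac_main Y6.mix_main (tr haar) hγ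
  refine ⟨ε ^ 2 / (4 * C), by positivity, J0, fun J l hJ ad F mF F0 a dF hF => ?_⟩
  have n0 : 0 < LL l * nn J := mul_pos (LL_pos l) (M3.nn_pos J)
  have : NeZero (LL l * nn J) := ⟨n0.ne'⟩
  obtain ⟨N, hN⟩ : ∃ N, N + 1 = LL l * 3 ^ J ^ 2 :=
    ⟨_, Nat.sub_add_cancel (mul_pos (LL_pos l) (by positivity))⟩
  obtain ⟨L, r, e, V, hr, hC⟩ := H J l hJ ad _ N rfl hN
  have r1 : r < 1 := hr.trans_lt (Real.exp_lt_one_iff.2 (neg_lt_zero.2 (by positivity)))
  rw [← hN] at dF
  have a1 := Y6.vac_le V hC mF F0 dF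
  rw [show N + 1 + (N + 1) = LL l * nn J by rw [hN, nn]; ring] at a1
  have a2 := a1.trans (mul_le_mul_of_nonneg_left hF C0.le)
  rw [show C * (2 * (ε ^ 2 / (4 * C))) = ε ^ 2 / 2 by field_simp; norm_num] at a2
  exact (Y6.tendsto_loc V r1 ⟨mF, 1, fun w => abs_le.2 ⟨by linarith [(F0 w).1], (F0 w).2⟩⟩
    (Y6.dep_lift dF)).eventually (eventually_le_nhds (by nlinarith))

variable [MeasurableSpace ℍ]

theorem pers (hL : LevS) {γ ε : ℝ} (hγ : 0 < γ) (hε : 0 < ε) : ∀ᶠ j in atTop, ∀ (ν : Measure FH)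
    [IsProbabilityMeasure ν],
    (∀ C : Set FH, IsClosed C → ∀ (a : ℝ) (J0 : ℕ), (∀ J ≥ J0, ∀ l, Adm J l → ∀ᶠ T in atTop,
      a ≤ ∫ U, RGP.ind C (XX J l j U) ∂wN (γ * (LL l * nn J : ℕ)) ![T, LL l * nn J, LL l * nn J]) →
      a ≤ ν.real C) →
    ∃ O : FH → ℝ, Continuous O ∧ (∀ t : ℤ, DependsOn (fun X => O (tau t X)) {e | e.1 0 = t}) ∧
      1 - ε ≤ ν.real {X | |O X - O (tau 4 X)| ≤ 2} ∧
      ∀ t, 1 - ε ≤ ν.real {X | O (tau 4 X) ≤ t ∨ t + 1 / 2 ≤ O (tau 4 X)} := by
  obtain ⟨e, e0, J0, hd⟩ := dom' hγ hε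
  obtain ⟨Λ, hL⟩ := hL γ hγ e e0
  filter_upwards [hL, cube_le hγ e0, eventually_ge_atTop 2, ((tendsto_pow_atTop_nhds_zero_of_lt_one
    (r := (2⁻¹ : ℝ)) (by norm_num) (by norm_num)).const_mul Λ).eventually
      (ge_mem_nhds (show Λ * 0 < 1 / 8 by norm_num))] with j ⟨O, h, dO, hL⟩ hc hj h2 ν _ hC
  have d : ∀ t : ℤ, DependsOn (fun X => O (tau t X)) {e | e.1 0 = t} := fun t X X' H =>
    dO fun e he => H _ (by
      have := he.1
      have := he.2
      simp
      omega)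
  have key : ∀ L' ψ, Ob j L' ψ → DependsOn ψ (Hf.Tw 0 5) → (∀ J l, j ≤ J → Adm J l → ∃ y : St,
      (law γ J l (J - j)).real {U | 0 < ψ (sh y (qF U))} ≤ e) →
      1 - ε ≤ ν.real {X | ψ X ≤ 2 * L' * 2⁻¹ ^ j} := fun L' ψ o dψ H => by
    refine hC _ (isClosed_le o.cont continuous_const) _ (J0 + j) fun J hJ l ad => ?_
    obtain ⟨y, hy⟩ := H J l (by omega) ad
    obtain ⟨r, φ, e1, c⟩ := cov_XX (show j ≤ J by omega) l
    have m := (o.cont.comp (cont_XX J l j)).measurable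
    have m1 := measurableSet_lt (measurable_const (a := 2 * L' * 2⁻¹ ^ j)) m
    refine (hd J l (by omega) ad (fun U => RGP.ind {X | 2 * L' * 2⁻¹ ^ j < ψ X} (XX J l j U))
      (RGP.bm_ind m1).meas (fun _ => ⟨RGP.ind_nonneg _ _, RGP.ind_le_one _ _⟩) (-r)
      (fun U U' hU => RGP.ind_congr ?_)
      ((hc J l (by omega) ad _ _ o y).trans (by linarith))).mono fun T hT => ?_
    · have e2 : LL l * 3 ^ J ^ 2 = LL r * 3 ^ j ^ 2 := by
        simp only [nn] at e1
        linarith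
      have e3 : (6 : ℤ) ≤ 3 ^ j ^ 2 := le_trans (by norm_num)
        (pow_le_pow_right₀ (by norm_num) (Nat.pow_le_pow_left hj 2))
      have L := LL_cast r
      rw [Set.mem_ofPred_eq, Set.mem_ofPred_eq, show ψ (XX J l j U) = ψ (XX J l j U') from
        dψ fun f hf => c.loc 0 0 5 _ _
          (fun g a1 a2 => congrArg S3.q (hU g ⟨by omega, ?_⟩)) f hf.1 ?_]
      · have : 0 ≤ un g.2 0 := by rw [un_apply]; split_ifs <;> omega
        rw [e2]
        push_cast
        nlinarith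
      · have := hf.2
        rw [un_apply]
        split_ifs <;> omega
    · have e2 := probReal_compl_eq_one_sub (μ := wN (γ * (LL l * nn J : ℕ))
        ![T, LL l * nn J, LL l * nn J]) m1
      simp only [Set.compl_ofPred, not_lt] at e2
      refine le_of_le_of_eq ?_ ((integral_indicator_one
        (measurableSet_le m measurable_const)).trans e2).symm
      exact sub_le_sub_left ((integral_indicator_one m1).symm.trans_le hT) _
  have h4 : Ob j Λ fun X => O (tau 4 X) := h.shift _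
  have d4 : DependsOn (fun X => O (tau 4 X)) (Hf.Tw 0 5) := (d 4).mono fun e he => by
    have : e.1 0 = 4 := he
    constructor <;> omega
  have d0 : DependsOn O (Hf.Tw 0 5) := dO.mono fun e he => ⟨he.1, he.2.trans (by norm_num)⟩
  exact ⟨O, h.cont, d, (key _ _ ((h.sub h4).comp (φ := fun x => |x| - 1) fun a b => by
        linarith [abs_sub_abs_le_abs_sub a b])
      (fun X X' H => by simp only [d0 H, d4 H])
      fun J l a b => (hL J l a b).imp fun y hy => by simpa using hy.1).trans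
      (measureReal_mono (fun X hX => by
        rw [Set.mem_ofPred_eq] at hX ⊢
        linarith) (measure_ne_top _ _)),
    fun t => (key _ _ (h4.comp (φ := fun x => min (x - (t - 1 / 4)) (t - 1 / 4 + 1 - x)) fun a b => by
        rw [← min_add_add_right]
        exact min_le_min (by linarith [le_abs_self (a - b)]) (by linarith [neg_le_abs (a - b)]))
      (fun X X' H => by simp only [d4 H])
      fun J l a b => (hL J l a b).imp fun y hy => by
        have := law_prob hγ J l (J - j)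
        refine (measureReal_mono (fun U hU => ?_) (measure_ne_top _ _)).trans (hy.2 (t - 1 / 4))
        rw [Set.mem_ofPred_eq, lt_min_iff] at hU
        exact ⟨by linarith [hU.1], by linarith [hU.2]⟩).trans
      (measureReal_mono (fun X hX => by
        rw [Set.mem_ofPred_eq, min_le_iff] at hX
        exact hX.imp (fun _ => by linarith) fun _ => by linarith) (measure_ne_top _ _))⟩

end Pool.Agent.Lib.MP_7f377f_mp.RG.D3.Hm5
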