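import Pool.Agent.Lib.MP_7f377f_mp.HC6A
import Pool.Agent.Lib.MP_7f377f_mp.HD1
import Pool.Agent.Lib.MP_7f377f_mp.HD2
import Pool.Agent.Lib.MP_7f377f_mp.HD3

/-! The Hilbert space and the Hamiltonian of the limit on the cylinder. -/

noncomputable section

namespace Pool.Agent.Lib.MP_7f377f_mp.RG.D3.Hm5

open MeasureTheory Filter Topology BoundedContinuousFunction Dt Ds Fi D3.Pv ProbabilityTheory Hc
open YM7 (qf)
open scoped Quaternion

/-- the ratio of two scales -/
def RR (j m : ℕ) : ℕ := 3 ^ (m ^ 2 - j ^ 2)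

theorem RR_mul {i j m : ℕ} (h : i ≤ j) (h' : j ≤ m) : RR j m * RR i j = RR i m := by
  have := Nat.pow_le_pow_left h 2
  have := Nat.pow_le_pow_left h' 2
  rw [RR, RR, RR, ← pow_add]
  congr 1
  omega

theorem cov_dn {j m : ℕ} (h : j ≤ m) : ∃ r φ, LL r = RR j m ∧ Cov r φ (dnH j (m - j)) := by
  obtain ⟨k, rfl⟩ := Nat.exists_eq_add_of_le h
  rw [Nat.add_sub_cancel_left]
  clear h
  induction k generalizing j with
  | zero => exact ⟨0, id, by simp [RR, LL], fun y X => by simp [dnH, up, LL], fun _ _ => rfl,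
      fun _ _ => rfl, fun x y => by simp [up, LL], fun i a b X X' H => by simpa [LL, dnH] using H⟩
  | succ k ih =>
    obtain ⟨r, φ, e, h⟩ := ih (j := j + 1)
    obtain ⟨e1, h1⟩ := (cov_blk (ll j)).comp h
    refine ⟨_, _, ?_, h1⟩
    rw [e1, e, ← RR_mul (show j ≤ j + 1 by omega) (show j + 1 ≤ j + (k + 1) by omega), M3.LL_ll,
      add_right_comm, add_assoc]
    congr 2
    rw [show (j + 1) ^ 2 = j ^ 2 + (2 * j + 1) by ring, Nat.add_sub_cancel_left]

/-- an observable of level `j` as an observable of level `m` -/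
def lf (j : ℕ) (F : FH →ᵇ ℝ) (m : ℕ) : FH →ᵇ ℝ := F.compContinuous ⟨_, cont_dnH j (m - j)⟩

/-- a translated observable -/
def ta (s : ℤ) (F : FH →ᵇ ℝ) : FH →ᵇ ℝ := F.compContinuous (tau s)

variable {i j m : ℕ} {F G : FH →ᵇ ℝ}

theorem ta_zero : ta 0 F = F := by
  ext X
  simp [ta, tau]

theorem lf_self : lf j F j = F := by
  ext X
  simp [lf, dnH]

theorem lf_lf (h : i ≤ j) (h' : j ≤ m) : lf j (lf i F j) m = lf i F m := by
  ext X
  simp only [lf, compContinuous_apply, ContinuousMap.coe_mk, show m - i = j - i + (m - j) by omega,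
    dnH_add, show i + (j - i) = j by omega]

theorem dn_tau (h : j ≤ m) (s : ℤ) (X : FH) :
    dnH j (m - j) (tau (RR j m * s) X) = tau s (dnH j (m - j) X) := by
  obtain ⟨r, φ, e, H⟩ := cov_dn h
  refine Eq.trans ?_ (H.shift _ X)
  rw [up, ← Pi.single_smul, e]
  rfl

theorem lf_ta (h : j ≤ m) (s : ℤ) : lf j (ta s F) m = ta (RR j m * s) (lf j F m) := by
  ext X
  exact congrArg F (dn_tau h s X).symm

theorem dep_lf (h : j ≤ m) (dF : DependsOn F {e | 1 ≤ e.1 0}) {a : ℤ} (ha : 2 * a ≤ RR j m + 1) :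
    DependsOn (lf j F m) {e | a ≤ e.1 0} := fun X X' hX => dF fun e (he : 1 ≤ e.1 0) => by
  obtain ⟨r, φ, e1, H⟩ := cov_dn h
  have L := LL_cast r
  rw [← e1] at ha
  exact H.loc 0 _ _ _ _ (fun f a1 _ => hX f (show a ≤ f.1 0 by nlinarith)) e le_rfl le_rfl

theorem pos_lf (h : j ≤ m) (dF : DependsOn F {e | 1 ≤ e.1 0}) :
    DependsOn (lf j F m) {e | 1 ≤ e.1 0} :=
  dep_lf h dF (by have : 0 < RR j m := by unfold RR; positivity
                  omega)

theorem pos_ta (dF : DependsOn F {e | 1 ≤ e.1 0}) (t : ℕ) : DependsOn (ta t F) {e | 1 ≤ e.1 0} :=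
  (dep_tau dF t).mono fun e he => le_trans (by omega) (show 1 + (t : ℤ) ≤ e.1 0 from he)

theorem dep_th {a : ℤ} {F : FH → ℝ} (dF : DependsOn F {e | a ≤ e.1 0}) :
    DependsOn (fun X => F (th X)) {e | e.1 0 + un e.2 0 ≤ -a} := fun X X' H =>
  dF fun e (he : a ≤ e.1 0) => by
    simp only [rH]
    split_ifs with h0
    · rw [H _ (by simpa [rf, RGP.T1] using he)]
    · exact H _ (by simp [rf, RGP.T1, un_apply] at h0 ⊢; split_ifs <;> omega)

variable [MeasurableSpace ℍ] [BorelSpace ℍ]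

theorem gm_sum (ν : Measure FH) [IsFiniteMeasure ν] (s : ℤ) {X : Type} (S : Finset X) (c : X → ℝ)
    (F : X → FH →ᵇ ℝ) : gm ν s (∑ x ∈ S, c x • F x) (∑ x ∈ S, c x • F x) =
      qf (fun x y => gm ν s (F x) (F y)) S c := by
  have i : ∀ x y, Integrable (fun X => c x * c y * (F x (th X) * F y (tau s X))) ν := fun x y =>
    (((F x).compContinuous ⟨_, cont_th⟩ * (F y).compContinuous (tau s)).integrable ν).const_mul _
  simp only [gm, qf, ← integral_const_mul]
  rw [Finset.sum_congr rfl fun x _ => (integral_finsetSum _ fun y _ => i x y).symm,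
    ← integral_finsetSum _ fun x _ => integrable_finsetSum _ fun y _ => i x y]
  congr 1
  funext X
  simp only [coe_sum, Finset.sum_apply, coe_smul, smul_eq_mul, Finset.sum_mul_sum,
    mul_mul_mul_comm]

theorem gm_ta {ν : Measure FH} [IsProbabilityMeasure ν] (hs : ∀ a, ν.map (sh a) = ν) (a s b : ℤ) :
    gm ν s (ta a F) (ta b G) = gm ν (a + s + b) F G := by
  simp only [gm, ta, compContinuous_apply, tau_th]
  rw [← int_inv (tau a).continuous (hs _) (F := fun X => F (th (tau (-a) X)) * G (tau b (tau s X)))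
    ((F.continuous.comp (cont_th.comp (tau _).continuous)).mul
      (G.continuous.comp ((tau _).continuous.comp (tau _).continuous)))]
  simp only [tau_tau, neg_add_cancel, show b + (s + a) = a + s + b by ring]
  simp [tau]

/-- the observables at positive times -/
structure Lb where
  /-- the level -/
  j : ℕ
  /-- the function -/
  F : FH →ᵇ ℝ
  d : DependsOn F {e | 1 ≤ e.1 0}

/-- translation by `t` lattice units of level `k` -/
def sg (k t : ℕ) (x : Lb) : Lb :=
  ⟨x.j + k, ta (RR k (x.j + k) * t : ℕ) (lf x.j x.F (x.j + k)), pos_ta (pos_lf (by omega) x.d) _⟩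

/-- the reflection positive kernel -/
def BB (ν : ℕ → ProbabilityMeasure FH) (x y : Lb) : ℝ :=
  gm (ν (x.j + y.j)) 0 (lf x.j x.F (x.j + y.j)) (lf y.j y.F (x.j + y.j))

omit [MeasurableSpace ℍ] [BorelSpace ℍ] in
theorem lf_sg {k t : ℕ} {x : Lb} (h : x.j + k ≤ m) :
    lf (sg k t x).j (sg k t x).F m = ta (RR k m * t) (lf x.j x.F m) := by
  simp only [sg]
  rw [lf_ta h, lf_lf (by omega) h, ← RR_mul (show k ≤ x.j + k by omega) h]
  congr 1
  push_cast
  ring

variable {γ : ℝ} {ν : ℕ → ProbabilityMeasure FH} (hν : ∀ j, Tendsto (pm γ j) Φ (𝓝 (ν j)))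
include hν

theorem map_dn (h : j ≤ m) : (ν m : Measure FH).map (dnH j (m - j)) = ν j :=
  map_of (hν j) (hν m) (cont_dnH _ _) fun F _ => freq m fun J hJ l _ => .of_forall fun T => by
    simp only [XX, show J - j = m - j + (J - m) by omega, dnH_add j, show j + (m - j) = m by omega]

theorem gm_lf (h : j ≤ m) : gm (ν m) 0 (lf j F m) (lf j G m) = gm (ν j) 0 F G := by
  obtain ⟨r, φ, -, H⟩ := cov_dn h
  rw [gm, gm, ← map_dn hν h]
  refine Eq.trans (congrArg _ (funext fun X => congrArg₂ (F · * G ·) (H.refl _ X) ?_))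
    (integral_map (cont_dnH _ _).measurable.aemeasurable ((F.continuous.comp cont_th).mul
      (G.continuous.comp (tau 0).continuous)).aestronglyMeasurable).symm
  simpa using dn_tau h 0 X

theorem BB_eq {x y : Lb} (hx : x.j ≤ m) (hy : y.j ≤ m) :
    BB ν x y = gm (ν m) 0 (lf x.j x.F m) (lf y.j y.F m) := by
  rw [BB, ← gm_lf hν (m := x.j + y.j + m) (by omega), ← gm_lf hν (j := m) (Nat.le_add_left ..),
    lf_lf hx (by omega), lf_lf hy (by omega), lf_lf (by omega) (by omega),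
    lf_lf (by omega) (by omega)]

theorem BB_sg {x y : Lb} {k t : ℕ} (hx : x.j ≤ m) (hy : y.j + k ≤ m) :
    BB ν x (sg k t y) = gm (ν m) (RR k m * t) (lf x.j x.F m) (lf y.j y.F m) := by
  rw [BB_eq hν hx (y := sg k t y) hy, lf_sg hy, ← ta_zero (F := lf x.j x.F m),
    gm_ta (inv_shift (hν m)), ta_zero, add_zero, zero_add]

theorem qf_sg (S : Finset Lb) (k : ℕ) : ∃ m, ∀ c, DependsOn (∑ x ∈ S, c x • lf x.j x.F m :
    FH →ᵇ ℝ) {e | 1 ≤ e.1 0} ∧ qf (BB ν) S c =
      gm (ν m) 0 (∑ x ∈ S, c x • lf x.j x.F m) (∑ x ∈ S, c x • lf x.j x.F m) ∧ ∀ t,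
      qf (fun x y => BB ν x (sg k t y)) S c = gm (ν m) (RR k m * t : ℕ)
        (∑ x ∈ S, c x • lf x.j x.F m) (∑ x ∈ S, c x • lf x.j x.F m) := by
  have h : ∀ x ∈ S, x.j ≤ S.sup fun x => x.j := fun x hx => Finset.le_sup (f := fun x : Lb => x.j) hx
  refine ⟨(S.sup fun x => x.j) + k, fun c => ⟨fun X X' H => ?_, ?_, fun t => ?_⟩⟩
  · simp only [coe_sum, Finset.sum_apply, coe_smul]
    exact Finset.sum_congr rfl fun x hx => congrArg _ (pos_lf ((h x hx).trans (by omega)) x.d H)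
  · rw [gm_sum]
    exact Finset.sum_congr rfl fun x hx => Finset.sum_congr rfl fun y hy => congrArg _
      (BB_eq hν ((h x hx).trans (by omega)) ((h y hy).trans (by omega)))
  · rw [gm_sum, Nat.cast_mul]
    exact Finset.sum_congr rfl fun x hx => Finset.sum_congr rfl fun y hy => congrArg _
      (BB_sg hν ((h x hx).trans (by omega)) (Nat.add_le_add_right (h y hy) _))

theorem BB_lev (dF : DependsOn F {e | 1 ≤ e.1 0}) (dG : DependsOn G {e | 1 ≤ e.1 0}) :
    BB ν ⟨j, F, dF⟩ ⟨j, G, dG⟩ = ∫ X, F (th X) * G X ∂ν j := by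
  rw [BB_eq hν (m := j) le_rfl le_rfl, lf_self, lf_self, gm]
  simp [tau]

theorem BB_gauge {g : St → S3} (hg : ∀ x v : St, v 0 = 0 → g (x + (nn j : ℤ) • v) = g x)
    (dF : DependsOn F {e | 1 ≤ e.1 0}) (dG : DependsOn G {e | 1 ≤ e.1 0})
    (H : ∀ X, G X = F (gH g X)) (x : Lb) : BB ν x ⟨j, G, dG⟩ = BB ν x ⟨j, F, dF⟩ := by
  obtain ⟨r, φ, e, c⟩ := cov_dn (show j ≤ x.j + j by omega)
  have e1 : LL r * nn j = nn (x.j + j) := by
    rw [e, nn, nn, mul_left_comm, ← Nat.sub_zero (j ^ 2), ← Nat.sub_zero ((x.j + j) ^ 2)]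
    exact congrArg _ (RR_mul (Nat.zero_le j) (by omega))
  let u : St → S3 := fun y => if 1 ≤ y 0 then g (φ y) else 1
  rw [BB, BB, gm, gm]
  refine Eq.trans (congrArg _ (funext fun X => ?_)) (int_inv (cont_gH u) (inv_gauge (hν _)
    fun y v hv => ?_) (((lf ..).continuous.comp cont_th).mul
      ((lf ..).continuous.comp (tau 0).continuous)))
  · refine congrArg₂ (· * ·) (dep_th (pos_lf (by omega) x.d)
      fun f (hf : f.1 0 + un f.2 0 ≤ -1) => ?_) ?_
    · have : 0 ≤ un f.2 0 := by rw [un_apply]; split_ifs <;> omega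
      simp only [gH, gauge, u, Pi.add_apply]
      rw [if_neg (by omega), if_neg (by omega)]
      change _ = 1 * X f * star 1
      simp
    · simp only [tau, ContinuousMap.coe_mk, Pi.single_zero, sh_zero]
      refine ((H _).trans (congrArg F (c.gauge g X).symm)).trans
        (pos_lf (by omega) dF fun f (hf : 1 ≤ f.1 0) => ?_)
      have : 0 ≤ un f.2 0 := by rw [un_apply]; split_ifs <;> omega
      simp only [gH, gauge, u, Pi.add_apply]
      rw [if_pos hf, if_pos (by omega)]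
  · simp only [u, Pi.add_apply, Pi.smul_apply, hv, smul_zero, add_zero]
    rw [← e1, Nat.cast_mul, mul_smul, ← up, c.per, hg _ _ hv]

theorem hilbert (hγ : 0 < γ) : ∃ (ψ : Lb → lp (fun _ : ℕ => ℂ) 2) (E : ℕ → ℝ),
    Dense (Submodule.span ℂ (Set.range ψ) : Set (lp (fun _ : ℕ => ℂ) 2)) ∧
    (∀ x y, inner ℂ (ψ x) (ψ y) = BB ν x y) ∧ (∀ y y', (∀ x, BB ν x y = BB ν x y') → ψ y = ψ y') ∧
    Monotone E ∧ E 0 = 0 ∧ 0 < E 1 ∧ (Summable fun i => Real.exp (-E i)) ∧
    ∀ k t x i, ψ (sg k t x) i = Real.exp (-(t * E i / (2 * (3 ^ k ^ 2 : ℕ)))) * ψ x i := by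
  obtain ⟨C, hC⟩ := gr_main hγ
  obtain ⟨Δ, hΔ, hc⟩ := clustering hγ
  have hs := fun m => inv_shift (hν m)
  have hr : ∀ m, (ν m : Measure FH).map th = ν m := fun m => inv_refl (hν m) _
  have g1 : ∀ m (F : FH →ᵇ ℝ), DependsOn F {e | 1 ≤ e.1 0} → ∀ s : ℕ,
      0 ≤ gm (ν m) s F F ∧ gm (ν m) s F F ≤ gm (ν m) 0 F F := fun m F dF s =>
    (hC m _ (hν m) 1 (fun _ => F) fun _ => dF).1 s 0
  have R0 : ∀ m, RR 0 m * 2 = nn m := fun m => by simp [RR, nn, mul_comm]
  have o1 : ∀ m s (F : FH →ᵇ ℝ), gm (ν m) s F (lf 0 1 m) = ∫ X, F (th X) ∂ν m := fun m s F => by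
    simp [gm, lf]
  refine Hd.recon (o := ⟨0, 1, fun _ _ _ => rfl⟩) (C := C) (fun _ => by positivity)
    (fun x y => ?_) (fun S c => ?_) (fun k x y => ?_) (fun k S c => ?_) (fun k S c => ?_)
    (fun k x y => ?_) (fun k t x y => ?_) (fun k x y => ?_) (fun y => ?_)
    (fun S r c Λ hΛ H => ?_) ?_ (fun x => ?_) (fun y => ?_) fun r => ?_
  · rw [BB, BB, add_comm y.j, gm, gm]
    refine (int_inv cont_th (hr _) (((lf ..).continuous.comp cont_th).mul
      ((lf ..).continuous.comp (tau 0).continuous))).symm.trans ?_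
    simp [tau, th_th, mul_comm]
  · obtain ⟨m, h⟩ := qf_sg hν S 0
    exact (g1 m _ (h c).1 0).1.trans_eq (h c).2.1.symm
  · rw [BB_sg hν (m := x.j + y.j + k) (by omega) (by omega), BB_eq hν (x := sg k 1 x)
      (m := x.j + y.j + k) (show x.j + k ≤ _ by omega) (by omega), lf_sg (by omega),
      ← ta_zero (F := lf y.j _ _), gm_ta (hs _), ta_zero, add_zero, add_zero]
  · obtain ⟨m, h⟩ := qf_sg hν S k
    exact (g1 m _ (h c).1 _).1.trans_eq ((h c).2.2 1).symm
  · obtain ⟨m, h⟩ := qf_sg hν S k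
    exact ((h c).2.2 2).trans_le ((g1 m _ (h c).1 _).2.trans_eq (h c).2.1.symm)
  · rw [BB_sg hν (m := x.j + y.j + k) (by omega) (by omega),
      BB_eq hν (m := x.j + y.j + k) (by omega) (by omega), Nat.cast_zero, mul_zero]
  · rw [BB_sg hν (m := x.j + y.j + k + k) (by omega) (by omega),
      BB_sg hν (m := x.j + y.j + k + k) (by omega) (show y.j + k + k ≤ _ by omega),
      lf_sg (by omega), ← ta_zero (F := lf x.j _ _), gm_ta (hs _), ta_zero]
    congr 1
    push_cast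
    ring
  · rw [BB_sg hν (m := x.j + y.j + k) (by omega) (by omega),
      BB_sg hν (m := x.j + y.j + k) (by omega) (by omega),
      ← RR_mul (Nat.zero_le k) (show k ≤ x.j + y.j + k by omega)]
    simp [RR]
  · refine ⟨y.j + 1, ⟨y.j + 1, ta (-1) (lf y.j y.F (y.j + 1)),
      dep_tau (dep_lf (a := 2) (by omega) y.d ?_) (-1)⟩, fun x => ?_⟩
    · have : 3 ≤ RR y.j (y.j + 1) := Nat.le_self_pow (by
        rw [show (y.j + 1) ^ 2 = y.j ^ 2 + (2 * y.j + 1) by ring]
        omega) 3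
      omega
    · rw [BB_sg hν (m := x.j + (y.j + 1 + (y.j + 1))) (by omega) (by simp),
        BB_eq hν (m := x.j + (y.j + 1 + (y.j + 1))) (by omega) (by omega)]
      dsimp only
      rw [lf_ta (by omega), lf_lf (by omega) (by omega), ← ta_zero (F := lf x.j _ _), gm_ta (hs _), ta_zero]
      simp
  · obtain ⟨m, h⟩ := qf_sg hν S 0
    simp only [(h _).2.1, (h _).2.2, R0] at H ⊢
    refine (hC m _ (hν m) r _ fun i => (h (c i)).1).2 Λ hΛ fun u => le_of_eq_of_le ?_ (H u)
    refine (gm_sum (ν m) 0 Finset.univ u _).symm.trans ?_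
    simp only [Finset.smul_sum, Finset.sum_smul, mul_smul, Finset.sum_comm (s := S)]
  · simp [BB, gm, lf]
  · rw [BB_sg hν (m := x.j) le_rfl (by simp), BB_eq hν (m := x.j) le_rfl (by simp), o1, o1]
  · obtain ⟨j, F, dF⟩ := y
    have e1 : ∀ t : ℕ, BB ν (sg 0 t ⟨j, F, dF⟩) (sg 0 t ⟨j, F, dF⟩) =
        cov[fun X => F (th X), ta (nn j * t : ℕ) F; (ν j : Measure FH)] + (∫ X, F X ∂ν j) ^ 2 :=
      fun t => by
        rw [BB_sg hν (m := j) le_rfl le_rfl, lf_sg (m := j) le_rfl, lf_self]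
        refine ((congrArg _ ta_zero.symm).trans (gm_ta (hs _) _ _ _)).trans ?_
        rw [← bf_cov (hr j), bf, ← R0, ta, gm]
        simp only [compContinuous_apply, int_inv (tau _).continuous (hs _ _) F.continuous]
        rw [sq, sub_add_cancel]
        congr 5
        push_cast
        ring_nf
    have e2 : BB ν ⟨0, 1, fun _ _ _ => rfl⟩ ⟨j, F, dF⟩ = ∫ X, F X ∂ν j := by
      rw [BB_eq hν (m := j) (Nat.zero_le _) le_rfl, lf_self]
      simp [gm, lf, tau]
    simp only [e1, e2]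
    refine Tendsto.mono_right (Tendsto.add_const _ (squeeze_zero_norm
      (a := fun t : ℕ => Real.exp (-Δ) ^ t * (√Var[fun X => F (th X); (ν j : Measure FH)] *
        √Var[F; (ν j : Measure FH)])) (fun t => ?_) ?_)) (by rw [zero_add])
    · refine (hc j _ (hν j) 0 (nn j * t) (F.compContinuous ⟨_, cont_th⟩) _
        ((dep_th dF).mono fun e (he : _ ≤ _) => he.trans (show (-1 : ℤ) ≤ 0 by norm_num))
        ((dep_tau dF _).mono fun e he => by simpa [add_comm] using he)).trans_eq ?_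
      have := nn_pos' j
      rw [← Real.exp_nat_mul, mul_assoc, ← hs j (Pi.single 0 (nn j * t : ℕ)),
        variance_map F.continuous.aemeasurable (cont_shH _).aemeasurable, hs]
      congr 2
      push_cast
      field_simp
    · simpa using (tendsto_pow_atTop_nhds_zero_of_lt_one (Real.exp_pos _).le
        (Real.exp_lt_one_iff.2 (neg_lt_zero.2 hΔ))).mul_const _
  · have e0 : 0 < ((r + 2) * (r + 35) : ℝ)⁻¹ := by positivity
    obtain ⟨j, h⟩ := (pers levS_main hγ e0).exists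
    obtain ⟨O, cO, d, h1, h2⟩ := h (ν j) fun _ hC _ J0 H =>
      closed_ge (hν j) hC (freq J0 fun J hJ l hl => (H J hJ l hl).frequently)
    have c : ∀ t, Continuous fun X => O (tau t X) := fun t => cO.comp (tau t).continuous
    obtain ⟨f, g, h⟩ := bumps (r := r) cO.measurable (c 4).measurable e0.le (by
      rw [← div_eq_mul_inv, div_lt_one (by positivity)]
      gcongr
      norm_num) h1 h2
    have d1 : ∀ i, DependsOn ((f i).compContinuous ⟨_, (c (-2)).comp cont_th⟩) {e | 1 ≤ e.1 0} :=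
      fun i X X' H => congrArg (f i) (d (-2) fun e (he : _ = _) => by
        simp only [rH]
        split_ifs with h0
        · rw [H _ (by simp [rf, RGP.T1, he, un_apply]; split_ifs <;> omega)]
        · exact H _ (by simp [rf, RGP.T1, he]))
    have d2 : ∀ i, DependsOn ((g i).compContinuous ⟨_, c 2⟩) {e | 1 ≤ e.1 0} :=
      fun i X X' H => congrArg (g i) (d 2 fun e (he : _ = _) => H e (by simp [he]))
    have e : ∀ i k, BB ν ⟨j, _, d1 i⟩ ⟨j, _, d2 k⟩ =
        ∫ X, f i (O X) * g k (O (tau 4 X)) ∂ν j := fun i k => by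
      rw [BB_lev hν, ← int_inv (tau (-2)).continuous (hs _ _)
        (F := fun X => f i (O X) * g k (O (tau 4 X)))
        (((f i).continuous.comp cO).mul ((g k).continuous.comp (c 4)))]
      exact congrArg _ (funext fun X => congrArg₂ (fun a b => f i (O a) * g k (O b))
        (congrArg _ (th_th X)) ((tau_tau 4 (-2) X).trans (by norm_num)).symm)
    refine ⟨fun i => ⟨j, _, d1 i⟩, fun k => ⟨j, _, d2 k⟩, fun i => ?_⟩
    simp only [e]
    refine ((Finset.sum_le_card_nsmul _ _ _ fun k hk => (h i).2 k (Finset.ne_of_mem_erase hk)).trans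
      ?_).trans_lt ((h i).1.trans_le (le_abs_self _))
    rw [nsmul_eq_mul]
    gcongr
    exact (Finset.card_le_univ _).trans_eq (Fintype.card_fin r)

omit hν in
open YC in
theorem main2 [m : MeasurableSpace SU2] [BorelSpace SU2] (h : Measure SU2) [h.IsHaarMeasure]
    [IsProbabilityMeasure h] (hγ : 0 < γ) : ∃ ν, Lim h γ ν ∧
      ∃ (Ψ : ℕ → (YC.Fld →ᵇ ℝ) → lp (fun _ : ℕ => ℂ) 2) (E : ℕ → ℝ),
        Dense (Submodule.span ℂ {x | ∃ j, ∃ F : YC.Fld →ᵇ ℝ, DependsOn F {e | 1 ≤ e.1 0} ∧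
          Ψ j F = x} : Set (lp (fun _ : ℕ => ℂ) 2)) ∧
        (∀ j (F G : YC.Fld →ᵇ ℝ), DependsOn F {e | 1 ≤ e.1 0} →
          (DependsOn G {e | 1 ≤ e.1 0} →
            inner ℂ (Ψ j F) (Ψ j G) = (∫ X, F (YC.refl 0 X) * G X ∂ν j : ℝ)) ∧
          ((∀ X, G X = F (block (3 ^ (2 * j + 1) / 2) X)) → Ψ (j + 1) G = Ψ j F) ∧
          (∀ g, (∀ x v : Fin 3 → ℤ, v 0 = 0 → g (x + (side j : ℤ) • v) = g x) →
            (∀ X, G X = F (YC.gauge g X)) → Ψ j G = Ψ j F) ∧
          ∀ t : ℕ, (∀ X, G X = F (shift (Pi.single 0 t) X)) →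
            ∀ i, Ψ j G i = Real.exp (-(t / side j * E i)) * Ψ j F i) ∧
        Monotone E ∧ E 0 = 0 ∧ 0 < E 1 ∧ Summable fun i => Real.exp (-E i) := by
  classical
  obtain rfl : m = mS := BorelSpace.measurable_eq
  obtain rfl := Measure.isHaarMeasure_eq_of_isProbabilityMeasure h (tr haar)
  choose ν h1 using exists_lim cvg_main hγ
  obtain ⟨ψ, E, a, b, c, d, e, f, g, k⟩ := hilbert h1 hγ
  rw [refl_eq]
  refine ⟨_, lim_of hγ h1, fun j F => if h : DependsOn F {e | 1 ≤ e.1 0} then ψ ⟨j, F, h⟩ else 0,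
    E, a.mono (Submodule.span_mono ?_), fun j F G dF => ⟨fun dG => ?_, fun H => ?_,
      fun u hu H => ?_, fun t H i => ?_⟩,
    d, e, f, g⟩
  · rintro _ ⟨x, rfl⟩
    exact ⟨x.j, x.F, x.d, dif_pos x.d⟩
  · simp only [dif_pos dF, dif_pos dG, b, BB_lev h1]
  · obtain rfl : G = lf j F (j + 1) := by
      ext X
      rw [H, block_eq]
      simp [lf, dnH, ll]
    simp only [dif_pos dF, dif_pos (pos_lf (Nat.le_add_right j 1) dF)]
    refine c _ _ fun x => ?_
    rw [BB_eq h1 (m := x.j + (j + 1)) (by omega) (by simp),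
      BB_eq h1 (m := x.j + (j + 1)) (by omega) (show j ≤ _ by omega), lf_lf (by simp) (by simp)]
  · have dG : DependsOn G {e | 1 ≤ e.1 0} := fun X X' h => by
      rw [H, H]
      exact dF fun e he => by simp only [YC.gauge, h e he]
    simp only [dif_pos dF, dif_pos dG]
    exact c _ _ (BB_gauge h1 hu dF dG H)
  · obtain rfl : G = ta t F := BoundedContinuousFunction.ext H
    simp only [dif_pos dF, dif_pos (pos_ta dF t)]
    rw [c _ (sg j t ⟨j, F, dF⟩) fun x => ?_, k, side]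
    · congr 4
      push_cast
      ring
    · rw [BB_sg h1 (m := x.j + (j + j)) (by omega) (by simp),
        BB_eq h1 (m := x.j + (j + j)) (by omega) (show j ≤ _ by omega), lf_ta (show j ≤ _ by omega),
        ← ta_zero (F := lf x.j _ _), gm_ta (inv_shift (h1 _)), ta_zero]
      simp

end Pool.Agent.Lib.MP_7f377f_mp.RG.D3.Hm5
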