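import Pool.Agent.Lib.MP_7f377f_mp.YMCDefs

/-! Observables at positive times and their states. -/

noncomputable section

namespace Pool.Agent.Lib.MP_7f377f_mp.YC

open MeasureTheory
open scoped Quaternion

/-- bounded continuous functions of the links which start at positive times -/
def Obs (F : Fld → ℝ) : Prop :=
  Continuous F ∧ (∃ C, ∀ X, |F X| ≤ C) ∧ DependsOn F {e | 1 ≤ e.1 0}

/-- the states `Ψ j F` of the observables span the space, their inner product is the reflected
expectation, and the time translations act on the component along `e i` with energy `E i` -/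
def Quantum [MeasurableSpace ℍ] {H : Type} [NormedAddCommGroup H] [InnerProductSpace ℂ H]
    (ν : ℕ → Measure Fld) (e : ℕ → H) (E : ℕ → ℝ) : Prop :=
  ∃ Ψ : ℕ → (Fld → ℝ) → H, Dense (Submodule.span ℂ {x | ∃ j F, Obs F ∧ Ψ j F = x} : Set H) ∧
    ∀ j F, Obs F →
      (∀ G, Obs G → inner ℂ (Ψ j F) (Ψ j G) = (∫ X, F (refl 0 X) * G X ∂ν j : ℝ)) ∧
      Ψ (j + 1) (F ∘ block (3 ^ (2 * j + 1) / 2)) = Ψ j F ∧
      (∀ g, (∀ x v : Fin 3 → ℤ, v 0 = 0 → g (x + (side j : ℤ) • v) = g x) →
        Ψ j (F ∘ gauge g) = Ψ j F) ∧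
      ∀ t i : ℕ, inner ℂ (e i) (Ψ j (F ∘ shift (Pi.single 0 t))) =
        Real.exp (-(t / side j * E i)) * inner ℂ (e i) (Ψ j F)

end Pool.Agent.Lib.MP_7f377f_mp.YC
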