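import Pool.Agent.Lib.MP_7f377f_mp.HD4
import Pool.Agent.Lib.MP_7f377f_mp.YMCObs

/-! The Hilbert space of the limit on the cylinder, in terms of plain functions. -/

noncomputable section

namespace Pool.Agent.Lib.MP_7f377f_mp.RG.D3.Hm5

open MeasureTheory Filter Topology BoundedContinuousFunction Dt Ds Fi D3.Pv ProbabilityTheory Hc
open scoped Quaternion

variable [MeasurableSpace ℍ] [BorelSpace ℍ] {γ : ℝ}

omit [MeasurableSpace ℍ] [BorelSpace ℍ] in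
open YC in
theorem obs_iff {F : YC.Fld → ℝ} :
    Obs F ↔ ∃ G : YC.Fld →ᵇ ℝ, DependsOn G {e | 1 ≤ e.1 0} ∧ G = F :=
  ⟨fun ⟨a, ⟨C, b⟩, c⟩ => ⟨ofNormedAddCommGroup F a C b, c, rfl⟩,
    fun ⟨G, d, e⟩ => e ▸ ⟨G.continuous, ⟨_, G.norm_coe_le_norm⟩, d⟩⟩

open YC in
theorem main3 [MeasurableSpace SU2] [BorelSpace SU2] (h : Measure SU2) [h.IsHaarMeasure]
    [IsProbabilityMeasure h] (hγ : 0 < γ) : ∃ ν, Lim h γ ν ∧
      ∃ (H : Type) (_ : NormedAddCommGroup H) (_ : InnerProductSpace ℂ H)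
        (e : HilbertBasis ℕ ℂ H) (E : ℕ → ℝ), Quantum ν e E ∧ Monotone E ∧ E 0 = 0 ∧ 0 < E 1 ∧
          Summable fun i => Real.exp (-E i) := by
  classical
  obtain ⟨ν, a, Ψ, E, b, c, d⟩ := main2 h hγ
  let P : ℕ → (YC.Fld → ℝ) → lp (fun _ : ℕ => ℂ) 2 := fun j F =>
    if h : ∃ G : YC.Fld →ᵇ ℝ, G = F then Ψ j h.choose else 0
  have hP : ∀ j (G : YC.Fld →ᵇ ℝ), P j G = Ψ j G := fun j G => by
    have h : ∃ G' : YC.Fld →ᵇ ℝ, (G' : YC.Fld → ℝ) = G := ⟨G, rfl⟩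
    simp only [P, dif_pos h]
    exact congrArg _ (DFunLike.coe_injective h.choose_spec)
  refine ⟨ν, a, _, _, _, .ofRepr (.refl ..), E, ⟨P, b.mono (Submodule.span_mono ?_),
    fun j F hF => ?_⟩, d⟩
  · rintro _ ⟨j, F, dF, rfl⟩
    exact ⟨j, F, obs_iff.2 ⟨F, dF, rfl⟩, hP j F⟩
  obtain ⟨F, dF, rfl⟩ := obs_iff.1 hF
  refine ⟨fun G hG => ?_, ?_, fun g hg => ?_, fun t i => ?_⟩
  · obtain ⟨G, dG, rfl⟩ := obs_iff.1 hG
    rw [hP, hP, (c j F G dF).1 dG]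
  · exact (hP _ (F.compContinuous ⟨block _, by rw [block_eq]; exact cont_blkH _⟩)).trans
      (((c j F _ dF).2.1 fun _ => rfl).trans (hP ..).symm)
  · exact (hP _ (F.compContinuous ⟨YC.gauge g, by unfold YC.gauge; fun_prop⟩)).trans
      (((c j F _ dF).2.2.1 g hg fun _ => rfl).trans (hP ..).symm)
  · rw [← HilbertBasis.repr_apply_apply, ← HilbertBasis.repr_apply_apply, hP]
    exact (congrArg (· i) (hP _ (ta t F))).trans ((c j F _ dF).2.2.2 t (fun _ => rfl) i)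

end Pool.Agent.Lib.MP_7f377f_mp.RG.D3.Hm5
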