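import Pool.Agent.Lib.MP_7f377f_mp.HFPr

/-! Concentration and anticoncentration of the smeared curvature at a fixed level. -/

noncomputable section

namespace Pool.Agent.Lib.MP_7f377f_mp.RG.D3.Hf

open Finset MeasureTheory Real
open scoped ENNReal InnerProductSpace

/-- the first variation of the quadratic form -/
def XX (m : BF) (A : ℕ) (h : V) (W : Conf) : E3 :=
  WithLp.toLp 2 fun a => MM m (5 * A) h (reF (BB A W) a)

theorem inner_XX (m : BF) (A : ℕ) (h : V) (W : Conf) (v : E3) :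
    ∑ a, v a * MM m (5 * A) h (reF (BB A W) a) = ⟪XX m A h W, v⟫_ℝ := by
  simp [XX, PiLp.inner_apply]

/-- the properties of the densities which are used -/
structure Lv (A n : ℕ) (β ε d : ℝ) (m : BF) (F G : Conf → ℝ≥0∞) (a : Conf → ℝ) : Prop where
  mF : Measurable F
  mG : Measurable G
  le : ∀ U, G U ≤ F U
  good : ∀ U, G U ≠ 0 → curvG ε (per n U)
  up : ∀ U, G U ≤ ENNReal.ofReal (exp (-a U))
  sh : ∀ (h : V) (v : E3) (D : ℝ), Sp (3 * A + 1) h → (∀ e, 2 * (|h e| * ‖v‖) ≤ d) →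
    Cv (4 * A) D h → D * ‖v‖ ≤ ε → ∃ S : Conf → Conf, MeasurePreserving S PP PP ∧
      ∀ U, curvG ε (per n U) → ENNReal.ofReal (exp (-a U - 5⁻¹ -
        β * (2 * ⟪XX m A h (per n U), v⟫_ℝ + ‖v‖ ^ 2 * MM m (5 * A) h h))) ≤ F (S U) ∧
      ∀ x ∈ box (6 * A), ∀ μ ν, ‖dd (BB A (per n (S U))) x μ ν - dd (BB A (per n U)) x μ ν -
        cE (dd h x μ ν • v)‖ ≤ 10 ^ 8 * (A * d) ^ 2

namespace Lv
variable {A n : ℕ} {β ε d g : ℝ} {m : BF} {F G : Conf → ℝ≥0∞} {a : Conf → ℝ}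
  (H : Lv A n β ε d m F G a)
include H

theorem tail (hg : β * g ^ 2 = 1) {h : V} {σ K D Λ s : ℝ} (s0 : 0 ≤ s) (hs : s * σ = Λ * g)
    (h0 : Sp (3 * A + 1) h) (h1 : ∀ e, |h e| ≤ K) (h2 : MM m (5 * A) h h ≤ σ ^ 2)
    (h3 : Cv (4 * A) D h) (h4 : 2 * (K * s) ≤ d) (h5 : D * s ≤ ε) :
    PP.withDensity G {U | 2 * (Λ * σ * g) < ‖XX m A h (per n U)‖} ≤
      6 * (ENNReal.ofReal (exp (5⁻¹ - Λ ^ 2)) * ∫⁻ U, F U ∂PP) := by
  refine six_le (X := fun U => XX m A h (per n U)) fun p => ?_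
  have hv : ‖(-s) • dir p‖ = s := by rw [norm_smul, norm_dir, mul_one, norm_neg, norm_of_nonneg s0]
  obtain ⟨S, hS, h6⟩ := H.sh h ((-s) • dir p) D h0 (fun e => by
    rw [hv]
    linarith [mul_le_mul_of_nonneg_right (h1 e) s0]) h3 (by rwa [hv])
  rw [withDensity_apply']
  refine tail_le H.mF hS fun U hU => ?_
  by_cases hG : G U = 0
  · simp [hG]
  refine (H.up U).trans (le_trans ?_ (mul_le_mul_right (h6 U (H.good U hG)).1 _))
  rw [← ENNReal.ofReal_mul (exp_pos _).le, ← exp_add, hv, inner_smul_right]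
  refine ENNReal.ofReal_le_ofReal (exp_le_exp.2 ?_)
  have β0 : 0 ≤ β := by nlinarith [sq_nonneg g]
  have b1 : Λ * σ * g ≤ ⟪XX m A h (per n U), dir p⟫_ℝ := by
    have a1 : 2 * (Λ * σ * g) < ‖XX m A h (per n U)‖ := hU.1
    have a2 : ‖XX m A h (per n U)‖ / 2 ≤ _ := hU.2
    linarith
  have b2 := mul_le_mul_of_nonneg_left (mul_le_mul_of_nonneg_left b1 s0) β0
  have b3 := mul_le_mul_of_nonneg_left (mul_le_mul_of_nonneg_left h2 (sq_nonneg s)) β0
  have b4 : β * (s * (Λ * σ * g)) = Λ ^ 2 := by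
    rw [show s * (Λ * σ * g) = s * σ * (Λ * g) by ring, hs]
    linear_combination Λ ^ 2 * hg
  have b5 : β * (s ^ 2 * σ ^ 2) = Λ ^ 2 := by
    rw [← mul_pow, hs]
    linear_combination Λ ^ 2 * hg
  linarith

theorem anti (β0 : 0 ≤ β) {l N : ℕ} (hl : 1 ≤ l) {z : St} (hz : z ∈ box (A + 4)) (hA : 13 * l + 4 ≤ A)
    {w t M : ℝ} (w0 : 0 < w) (ht : t * l ^ 4 = 10 * w) (hM : ∀ y, MM m (5 * A) (D3.sh y (tent l))
      (D3.sh y (tent l)) ≤ M) (h1 : β * ((N * t) ^ 2 * M) ≤ 3 / 10) (h2 : 16 * l * (N * t) ≤ d)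
    (h3 : 2 * (N * t) ≤ ε) (h4 : l ^ 4 * (2 * (10 ^ 8 * (A * d) ^ 2)) ≤ w) (y : ℝ) (hN : 0 < N) :
    PP.withDensity G {U | y < ‖ov l A z (per n U)‖ ∧ ‖ov l A z (per n U)‖ ≤ y + w} ≤
      6 * (ENNReal.ofReal (2 / N) * ∫⁻ U, F U ∂PP) := by
  refine six_le (X := fun U => ov l A z (per n U)) fun p => ?_
  have l0 : (0 : ℝ) < l := by exact_mod_cast hl
  have t0 : 0 < t := (mul_pos_iff_of_pos_right (pow_pos l0 4)).1 (by rw [ht]; positivity)
  obtain ⟨h, hh⟩ : ∃ h, h = D3.sh (-(z + (5 * l : ℤ) • un 2)) (tent l) := ⟨_, rfl⟩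
  have M0 : MM m (5 * A) h h ≤ M := hh ▸ hM _
  have hs : Sp (3 * A + 1) h := hh ▸ ((tent_sp l).sh (k := A + 4 + 5 * l) (neg_mem_box
    (add_mem_box hz (by simpa using pt_mem (l := 5 * l) (p := 0) (Nat.zero_le _) le_rfl)))).mono
      (by omega)
  have hn : ∀ s : ℝ, ‖s • dir p‖ = |s| := fun s => by rw [norm_smul, norm_dir, mul_one, norm_eq_abs]
  have key : ∀ s : ℝ, ∃ S : Conf → Conf, |s| ≤ N * t → MeasurePreserving S PP PP ∧
      ∀ U, curvG ε (per n U) → ENNReal.ofReal (exp (-a U - 2⁻¹ -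
        β * (2 * (s * ⟪XX m A h (per n U), dir p⟫_ℝ)))) ≤ F (S U) ∧
      ‖ov l A z (per n (S U)) + (s * l ^ 4) • dir p - ov l A z (per n U)‖ ≤ w := fun s => by
    by_cases hs' : |s| ≤ N * t
    swap
    · exact ⟨id, fun h => absurd h hs'⟩
    obtain ⟨S, hS, h6⟩ := H.sh h (s • dir p) 2 hs (fun e => by
      rw [hn, hh, sh_apply]
      linarith [mul_le_mul (tent_le l (e.1 + -(z + (5 * l : ℤ) • un 2), e.2)) hs' (abs_nonneg _)
        (by positivity)]) (fun x _ μ ν => by rw [hh, dd_sh]; exact tent_dd l _ μ ν)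
      (by rw [hn]; linarith)
    refine ⟨S, fun _ => ⟨hS, fun U hU => ⟨le_trans (ENNReal.ofReal_le_ofReal (exp_le_exp.2 ?_))
      (h6 U hU).1, ?_⟩⟩⟩
    · rw [hn, inner_smul_right]
      rcases le_total (MM m (5 * A) h h) 0 with h7 | h7
      · nlinarith [mul_nonneg β0 (mul_nonneg (sq_nonneg |s|) (neg_nonneg.2 h7))]
      · have := mul_le_mul_of_nonneg_left (mul_le_mul (pow_le_pow_left₀ (abs_nonneg _) hs' 2) M0 h7
          (sq_nonneg _)) β0
        linarith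
    · have e1 := ph_map (AddMonoidHom.mk' (fun c : ℝ => c • s • dir p) fun _ _ => add_smul _ _ _)
        l (fun x => dd h x 1 2) z
      simp only [AddMonoidHom.mk'_apply] at e1
      rw [show ph l (fun x => dd h x 1 2) z = -l ^ 4 from hh ▸ tent_ph hl z, neg_smul, smul_smul,
        mul_comm, neg_eq_iff_eq_neg] at e1
      rw [e1, ← sub_eq_add_neg, sub_right_comm, ov, ov, ← ph_sub, ← ph_sub]
      refine (ph_norm fun x hx => ?_).trans h4
      rw [← rv_cE (dd h _ 1 2 • _), ← map_sub, ← map_sub]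
      exact (norm_rv _).trans (mul_le_mul_of_nonneg_left
        ((h6 U hU).2 _ (box_mono (by omega) (add_mem_box hz hx)) 1 2) zero_le_two)
  choose S hS using key
  have fam : ∀ σ : ℝ, |σ| = 1 → ∑ k ∈ range N, ∫⁻ U in ({U | y < ‖ov l A z (per n U)‖ ∧
      ‖ov l A z (per n U)‖ ≤ y + w} ∩ {U | ‖ov l A z (per n U)‖ / 2 ≤
        ⟪ov l A z (per n U), dir p⟫_ℝ}) ∩ {U | curvG ε (per n U)},
      F (S (σ * ((k + 1) * t)) U) ∂PP ≤ ∫⁻ U, F U ∂PP := fun σ hσ => by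
    have hk : ∀ k ∈ range N, |σ * ((k + 1) * t)| ≤ N * t := fun k hk => by
      rw [abs_mul, hσ, one_mul, abs_of_nonneg (by positivity)]
      exact mul_le_mul_of_nonneg_right (by exact_mod_cast mem_range.1 hk) t0.le
    refine fam_le H.mF (fun k h => (hS _ (hk k h)).1) (C := fun k => {U | ov l A z (per n U) +
      (σ * ((k + 1) * t) * l ^ 4) • dir p ∈ cap (dir p) y w}) (fun k => (((meas_ov l A z).comp
        (Pv.cont_per n).measurable).add_const _) (meas_cap _ _ _)) (fun i j hij => ?_)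
      fun k h U hU => mem_cap (norm_dir p) hU.1.1.1 hU.1.1.2 hU.1.2 ((hS _ (hk k h)).2 U hU.2).2
    have d1 : ∀ i j : ℕ, 1 ≤ σ * (j - i) → ∀ o : E3, o + (σ * ((i + 1) * t) * l ^ 4) • dir p ∈
        cap (dir p) y w → o + (σ * ((j + 1) * t) * l ^ 4) • dir p ∈ cap (dir p) y w → False :=
      fun i j h o h1 h2 => cap_disj (norm_dir p) w0 (t := σ * (j - i) * (10 * w)) (by nlinarith) h1
        (by rw [add_assoc, ← add_smul, ← ht]; convert h2 using 3; ring)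
    have d2 : (1 : ℝ) ≤ |σ * (j - i)| := by
      rw [abs_mul, hσ, one_mul]
      exact_mod_cast Int.one_le_abs (sub_ne_zero.2 (Int.natCast_inj.ne.2 hij.symm))
    refine Set.disjoint_left.2 fun U h1 h2 => ?_
    rcases le_abs.1 d2 with h | h
    · exact d1 i j h _ h1 h2
    · exact d1 j i (by linarith) _ h2 h1
  have f1 := add_le_add (fam 1 abs_one) (fam (-1) (by simp))
  rw [← sum_add_distrib] at f1
  generalize ({U | y < ‖ov l A z (per n U)‖ ∧ ‖ov l A z (per n U)‖ ≤ y + w} ∩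
    {U | ‖ov l A z (per n U)‖ / 2 ≤ ⟪ov l A z (per n U), dir p⟫_ℝ}) = B at *
  have f2 : PP.withDensity G B = ∫⁻ U in B ∩ {U | curvG ε (per n U)}, G U ∂PP := by
    rw [← withDensity_apply', eq_comm]
    exact measure_congr (inter_ae_eq_left_of_ae_eq_univ (ae_eq_univ.2 ((ae_withDensity_iff H.mG).2
      (.of_forall H.good))))
  have f3 := (card_nsmul_le_sum _ _ (PP.withDensity G B) fun k hk => ?_).trans f1
  · rw [card_range, nsmul_eq_mul, ← two_mul] at f3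
    rw [ENNReal.ofReal_div_of_pos (by exact_mod_cast hN), ENNReal.ofReal_natCast,
      ENNReal.ofReal_ofNat, div_eq_mul_inv, mul_right_comm, ← div_eq_mul_inv,
      ENNReal.le_div_iff_mul_le (by simp [hN.ne']) (by simp), mul_comm]
    exact f3
  have hk : ∀ σ : ℝ, |σ| = 1 → |σ * ((k + 1) * t)| ≤ N * t := fun σ hσ => by
    rw [abs_mul, hσ, one_mul, abs_of_nonneg (by positivity)]
    exact mul_le_mul_of_nonneg_right (by exact_mod_cast mem_range.1 hk) t0.le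
  have g1 := hS _ (hk 1 abs_one)
  have g2 := hS _ (hk (-1) (by simp))
  have m1 := H.mF.comp g1.1.measurable
  rw [f2, ← lintegral_add_left (by exact m1)]
  refine setLIntegral_mono (m1.add (H.mF.comp g2.1.measurable)) fun U hU => (H.up U).trans
    (le_trans ?_ (add_le_add (g1.2 U hU.2).1 (g2.2 U hU.2).1))
  rw [← ENNReal.ofReal_add (exp_pos _).le (exp_pos _).le]
  refine ENNReal.ofReal_le_ofReal ?_
  have k : ∀ x y : ℝ, (y - x + 1) * exp x ≤ exp y := fun x y => by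
    rw [← le_div_iff₀ (exp_pos x), ← exp_sub]
    exact add_one_le_exp _
  refine le_trans (le_of_eq ?_) (add_le_add (k (-a U) _) (k (-a U) _))
  ring

end Lv

end Pool.Agent.Lib.MP_7f377f_mp.RG.D3.Hf
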