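import Pool.Agent.Lib.MP_7f377f_mp.R3Ap2

/-! Smeared curvature and the global quadratic form. -/

noncomputable section

namespace Pool.Agent.Lib.MP_7f377f_mp.RG.D3.Hf

open Finset
open scoped Pointwise

section smear
variable {W W' : Type} [AddCommGroup W] [AddCommGroup W']

/-- sum over a square in a time slice -/
def s2 (l : ℕ) (F : St → W) (y : St) : W :=
  ∑ p ∈ range l, ∑ q ∈ range l, F (y + (p : ℤ) • un 1 + (q : ℤ) • un 2)

/-- sum with tent weights -/
def ph (l : ℕ) (F : St → W) : St → W := s2 l (s2 l F)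

theorem s2_map (f : W →+ W') (l : ℕ) (F : St → W) (y : St) :
    f (s2 l F y) = s2 l (fun x => f (F x)) y := by simp only [s2, map_sum]

theorem ph_map (f : W →+ W') (l : ℕ) (F : St → W) (y : St) :
    f (ph l F y) = ph l (fun x => f (F x)) y := by simp only [ph, s2_map]

theorem ph_add (l : ℕ) (F G : St → W) (y : St) :
    ph l (fun x => F x + G x) y = ph l F y + ph l G y := by simp only [ph, s2, sum_add_distrib]

theorem ph_sub (l : ℕ) (F G : St → W) (y : St) :
    ph l (fun x => F x - G x) y = ph l F y - ph l G y := by simp only [ph, s2, sum_sub_distrib]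

theorem s2_sh (l : ℕ) (F : St → W) (v y : St) : s2 l (fun x => F (x + v)) y = s2 l F (y + v) := by
  simp only [s2, add_right_comm _ v]

theorem ph_sh (l : ℕ) (F : St → W) (v y : St) : ph l (fun x => F (x + v)) y = ph l F (y + v) := by
  simp only [ph, s2, add_right_comm _ v]

theorem pt_mem {l p q : ℕ} (hp : p ≤ l) (hq : q ≤ l) : (p : ℤ) • un 1 + (q : ℤ) • un 2 ∈ box l :=
  mem_box.2 fun i => by fin_cases i <;> simp [un_apply] <;> omega

theorem ph_congr {l : ℕ} {F G : St → W} {y : St}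
    (h : ∀ w ∈ box (l + l), w 0 = 0 → F (y + w) = G (y + w)) : ph l F y = ph l G y := by
  simp only [ph, s2]
  refine sum_congr rfl fun p hp => sum_congr rfl fun q hq => sum_congr rfl fun p' hp' =>
    sum_congr rfl fun q' hq' => ?_
  have := h _ (add_mem_box (pt_mem (mem_range.1 hp).le (mem_range.1 hq).le)
    (pt_mem (mem_range.1 hp').le (mem_range.1 hq').le)) (by simp [un_apply])
  simpa only [add_assoc] using this

theorem tele (l : ℕ) (G : St → W) (z : St) (μ : Fin 3) :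
    ∑ p ∈ range l, (G (z + (p : ℤ) • un μ + un μ) - G (z + (p : ℤ) • un μ)) =
      G (z + (l : ℤ) • un μ) - G z := by
  simpa [add_smul, add_assoc] using sum_range_sub (fun p : ℕ => G (z + (p : ℤ) • un μ)) l

theorem ph_d1 (l : ℕ) (G : St → W) (y : St) : ph l (fun x => G (x + un 1) - G x) y =
    ∑ q ∈ range l, (s2 l G (y + ((l : ℤ) • un 1 + (q : ℤ) • un 2)) -
      s2 l G (y + (((0 : ℕ) : ℤ) • un 1 + (q : ℤ) • un 2))) := by
  have : ∀ z, s2 l (fun x => G (x + un 1) - G x) z = ∑ q ∈ range l,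
      (G (z + ((l : ℤ) • un 1 + (q : ℤ) • un 2)) - G (z + (((0 : ℕ) : ℤ) • un 1 + (q : ℤ) • un 2))) :=
    fun z => by
      rw [s2, sum_comm]
      refine sum_congr rfl fun q _ => ?_
      have := tele l G (z + (q : ℤ) • un 2) 1
      simp only [add_right_comm z ((q : ℤ) • un 2)] at this
      simpa [add_assoc] using this
  simp only [ph, funext this, ← s2_sh l G]
  simp only [s2, sum_sub_distrib]
  congr 1 <;> exact (sum_congr rfl fun _ _ => sum_comm).trans sum_comm

theorem ph_d2 (l : ℕ) (G : St → W) (y : St) : ph l (fun x => G (x + un 2) - G x) y =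
    ∑ p ∈ range l, (s2 l G (y + ((p : ℤ) • un 1 + (l : ℤ) • un 2)) -
      s2 l G (y + ((p : ℤ) • un 1 + ((0 : ℕ) : ℤ) • un 2))) := by
  have : ∀ z, s2 l (fun x => G (x + un 2) - G x) z = ∑ p ∈ range l,
      (G (z + ((p : ℤ) • un 1 + (l : ℤ) • un 2)) - G (z + ((p : ℤ) • un 1 + ((0 : ℕ) : ℤ) • un 2))) :=
    fun z => sum_congr rfl fun p _ => by
      simpa [add_assoc] using tele l G (z + (p : ℤ) • un 1) 2
  simp only [ph, funext this, ← s2_sh l G]
  simp only [s2, sum_sub_distrib]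
  congr 1 <;> exact (sum_congr rfl fun _ _ => sum_comm).trans sum_comm

theorem bianchi (A : Lk → W) (x : St) : dd A (x + un 0) 1 2 - dd A x 1 2 =
    (dd A (x + un 1) 0 2 - dd A x 0 2) - (dd A (x + un 2) 0 1 - dd A x 0 1) := by
  simp only [dd, add_right_comm x (un 1) (un 0), add_right_comm x (un 2) (un 0),
    add_right_comm x (un 2) (un 1)]
  abel

theorem ph_time (l : ℕ) (F : St → W) : ph l F ((4 : ℤ) • un 0) - ph l F 0 =
    ∑ i ∈ range 4, ph l (fun x => F (x + un 0) - F x) ((i : ℤ) • un 0) := by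
  simpa [ph_sub, ph_sh] using (tele 4 (ph l F) 0 0).symm

end smear

theorem ph_norm {W : Type} [NormedAddCommGroup W] {l : ℕ} {F : St → W} {y : St} {δ : ℝ}
    (h : ∀ w ∈ box (l + l), ‖F (y + w)‖ ≤ δ) : ‖ph l F y‖ ≤ l ^ 4 * δ := by
  have k : ∀ {g : ℕ → W} {a : ℝ}, (∀ p ∈ range l, ‖g p‖ ≤ a) → ‖∑ p ∈ range l, g p‖ ≤ l * a :=
    fun h => (norm_sum_le _ _).trans ((sum_le_card_nsmul _ _ _ h).trans_eq (by simp))
  refine (k fun p hp => k fun q hq => k fun p' hp' => k fun q' hq' => ?_).trans_eq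
    (show (l : ℝ) * (l * (l * (l * δ))) = _ by ring)
  simpa only [add_assoc] using h _ (add_mem_box (pt_mem (mem_range.1 hp).le (mem_range.1 hq).le)
    (pt_mem (mem_range.1 hp').le (mem_range.1 hq').le))

theorem sum_inj_le {ι : Type} {s : Finset ι} {g : ι → St} {T : Finset St} {f : St → ℝ}
    (hf : ∀ x, 0 ≤ f x) (hi : Set.InjOn g s) (hm : ∀ i ∈ s, g i ∈ T) :
    ∑ i ∈ s, f (g i) ≤ ∑ x ∈ T, f x := by
  rw [← sum_image hi]
  exact sum_le_sum_of_subset_of_nonneg (image_subset_iff.2 hm) fun x _ _ => hf x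

theorem sum_sh_le {f : St → ℝ} (hf : ∀ x, 0 ≤ f x) {a b : ℕ} {y : St} (hy : y ∈ box a) :
    ∑ x ∈ box b, f (x + y) ≤ ∑ x ∈ box (b + a), f x :=
  sum_inj_le hf (add_left_injective y).injOn fun _ hx => add_mem_box hx hy

theorem sum_conv {f : St → ℝ} (hf : ∀ x, 0 ≤ f x) (a b : ℕ) :
    ∑ y ∈ box a, ∑ w ∈ box b, f (w + y) ≤ (2 * b + 1) ^ 3 * ∑ x ∈ box (a + b), f x := by
  rw [sum_comm]
  refine (sum_le_card_nsmul _ _ (∑ x ∈ box (a + b), f x) fun w hw => ?_).trans_eq
    (by simp [card_box])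
  simpa only [add_comm w] using sum_sh_le hf hw

theorem s2_bd {l a : ℕ} {G f : St → ℝ} (h : ∀ x, G x ^ 2 ≤ f x) {z : St} (hz : z ∈ box a) :
    |s2 l G z| ≤ l * √(∑ x ∈ box (a + l), f x) := by
  refine abs_le_of_sq_le_sq ?_ (by positivity)
  have f0 := fun x => (sq_nonneg _).trans (h x)
  rw [mul_pow, Real.sq_sqrt (sum_nonneg fun x _ => f0 x), s2, ← sum_product']
  refine sq_sum_le_card_mul_sum_sq.trans ?_
  rw [card_product, card_range, Nat.cast_mul, ← sq]
  refine mul_le_mul_of_nonneg_left ((sum_le_sum fun i _ => h _).trans (sum_inj_le f0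
    (fun i _ j _ e => ?_) fun i hi => ?_)) (by positivity)
  · have e1 := congrFun e 1
    have e2 := congrFun e 2
    simp [un_apply] at e1 e2
    exact Prod.ext e1 e2
  · rw [add_assoc]
    exact add_mem_box hz (pt_mem (mem_range.1 (mem_product.1 hi).1).le
      (mem_range.1 (mem_product.1 hi).2).le)

theorem nd_nonneg (a : V) (x : St) : 0 ≤ nd a x := by unfold nd; positivity

theorem row_le_nd (a : V) (x : St) (μ : Fin 3) : ∑ ν, dd a x μ ν ^ 2 ≤ nd a x :=
  single_le_sum (f := fun μ => ∑ ν, dd a x μ ν ^ 2) (fun _ _ => by positivity) (mem_univ μ)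

theorem sq_le_nd (a : V) (x : St) (μ ν : Fin 3) : dd a x μ ν ^ 2 ≤ nd a x :=
  (single_le_sum (f := fun ν => dd a x μ ν ^ 2) (fun _ _ => by positivity) (mem_univ ν)).trans
    (row_le_nd a x μ)

/-- difference of the smeared curvature between two times -/
def JJ (l : ℕ) : V →ₗ[ℝ] ℝ where
  toFun B := ph l (fun x => dd B x 1 2) ((4 : ℤ) • un 0) - ph l (fun x => dd B x 1 2) 0
  map_add' a b := by simp only [dd_add, ph_add]; ring
  map_smul' c a := by
    have := fun y => ph_map (AddMonoidHom.mulLeft c) l (fun x => dd a x 1 2) y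
    simp only [AddMonoidHom.coe_mulLeft] at this
    simp only [RingHom.id_apply, smul_eq_mul, mul_sub, this]
    simp only [dd, Pi.smul_apply, smul_eq_mul, mul_sub, mul_add]

theorem JJ_apply (l : ℕ) (B : V) : JJ l B =
    ph l (fun x => dd B x 1 2) ((4 : ℤ) • un 0) - ph l (fun x => dd B x 1 2) 0 := rfl

theorem tm_mem {i : ℕ} (hi : i ∈ range 4) : (i : ℤ) • un 0 ∈ box 4 := mem_box.2 fun k => by
  have := mem_range.1 hi
  fin_cases k <;> simp [un_apply]
  omega

theorem abs_sum_range {l : ℕ} {g : ℕ → ℝ} {a : ℝ} (h : ∀ p ∈ range l, |g p| ≤ a) :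
    |∑ p ∈ range l, g p| ≤ l * a :=
  (abs_sum_le_sum_abs _ _).trans ((sum_le_card_nsmul _ _ _ h).trans_eq (by simp))

theorem JJ_bd (l : ℕ) (v : V) : |JJ l v| ≤ 16 * l ^ 2 * √(∑ x ∈ box (4 + l + l), nd v x) := by
  rw [JJ_apply, ph_time]
  refine (abs_sum_range (a := 4 * l ^ 2 * √(∑ x ∈ box (4 + l + l), nd v x)) fun i hi => ?_).trans_eq
    (by push_cast; ring)
  have k := fun μ ν p q (hp : p ≤ l) (hq : q ≤ l) => s2_bd (l := l) (fun x => sq_le_nd v x μ ν)
    (add_mem_box (tm_mem hi) (pt_mem hp hq))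
  simp only [bianchi]
  rw [ph_sub, ph_d1 l fun x => dd v x 0 2, ph_d2 l fun x => dd v x 0 1]
  refine (abs_sub _ _).trans ((add_le_add (abs_sum_range fun q hq => (abs_sub _ _).trans (add_le_add
    (k 0 2 l q le_rfl (mem_range.1 hq).le) (k 0 2 0 q l.zero_le (mem_range.1 hq).le)))
    (abs_sum_range fun q hq => (abs_sub _ _).trans (add_le_add
    (k 0 1 q l (mem_range.1 hq).le le_rfl) (k 0 1 q 0 (mem_range.1 hq).le l.zero_le)))).trans_eq ?_)
  ring

/-- the electric field as a one form -/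
def el (A : V) : V := fun e => dd A e.1 0 e.2

theorem el_eq (A : V) : el A = sh (un 0) A - A - gr fun x => A (x, 0) := by
  funext e
  simp only [el, dd, gr, Pi.sub_apply, sh_apply]
  ring

theorem JJ_bd' (l : ℕ) (A : V) :
    JJ l A ^ 2 ≤ 16 * l ^ 6 * ∑ x ∈ box (4 + l + l), nd (el A) x := by
  have : |JJ l A| ≤ 4 * l ^ 3 * √(∑ x ∈ box (4 + l + l), nd (el A) x) := by
    rw [JJ_apply, ph_time]
    refine (abs_sum_range (a := l * (l * (l * √(∑ x ∈ box (4 + l + l), nd (el A) x))))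
      fun i hi => abs_sum_range fun p hp => abs_sum_range fun q hq => ?_).trans_eq
      (by push_cast; ring)
    rw [add_assoc]
    refine s2_bd (fun x => le_of_eq_of_le ?_ (sq_le_nd (el A) x 1 2))
      (add_mem_box (tm_mem hi) (pt_mem (mem_range.1 hp).le (mem_range.1 hq).le))
    rw [el_eq, dd_sub, dd_sub, dd_gr, dd_sh, sub_zero]
  refine (sq_le_sq' (abs_le.1 this).1 (abs_le.1 this).2).trans_eq ?_
  rw [mul_pow, Real.sq_sqrt (sum_nonneg fun x _ => nd_nonneg _ x)]
  ring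

/-- fields supported in a box -/
def Sp (R : ℕ) (a : V) : Prop := ∀ e : Lk, e.1 ∉ box R → a e = 0

/-- the quadratic form summed over a box -/
def MM (m : BF) (ρ : ℕ) : BF := ∑ x ∈ box ρ, m.compl₁₂ (shL x) (shL x)

/-- scalar product -/
def ip (R : ℕ) : BF :=
  ∑ e ∈ lbox R, (LinearMap.mul ℝ ℝ).compl₁₂ (LinearMap.proj e) (LinearMap.proj e)

theorem MM_apply (m : BF) (ρ : ℕ) (a b : V) : MM m ρ a b = ∑ x ∈ box ρ, m (sh x a) (sh x b) := by
  simp [MM, LinearMap.sum_apply, shL_apply]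

theorem ip_apply (R : ℕ) (a b : V) : ip R a b = ∑ e ∈ lbox R, a e * b e := by
  simp [ip, LinearMap.sum_apply]

theorem ip_nonneg (R : ℕ) (a : V) : 0 ≤ ip R a a := by
  rw [ip_apply]
  exact sum_nonneg fun e _ => mul_self_nonneg _

theorem Sp.sq_le {R : ℕ} {a : V} (h : Sp R a) (e : Lk) : a e ^ 2 ≤ ip R a a := by
  by_cases he : e.1 ∈ box R
  · rw [ip_apply, sq]
    exact single_le_sum (f := fun e => a e * a e) (fun e _ => mul_self_nonneg _) (mem_lbox.2 he)
  · simpa [h e he] using ip_nonneg R a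

theorem riesz (M : BF) (hp : ∀ a, 0 ≤ M a a) (R : ℕ) {t : ℝ} (ht : 0 < t) (L : V →ₗ[ℝ] ℝ) :
    ∃ h, Sp R h ∧ ∀ v, Sp R v → M h v + t * ip R h v = L v := by
  let S : Submodule ℝ V :=
    { carrier := {a | Sp R a}
      add_mem' := fun ha hb e he => by simp [ha e he, hb e he]
      zero_mem' := fun _ _ => rfl
      smul_mem' := fun c a ha e he => by simp [ha e he] }
  have : FiniteDimensional ℝ S := FiniteDimensional.of_injective
    ((LinearMap.funLeft ℝ ℝ fun e : lbox R => (e : Lk)) ∘ₗ S.subtype) fun a b h => by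
      ext e
      by_cases he : e.1 ∈ box R
      · exact congrFun h ⟨e, mem_lbox.2 he⟩
      · rw [a.2 e he, b.2 e he]
  have hi : Function.Injective ((M + t • ip R).compl₁₂ S.subtype S.subtype) :=
    (injective_iff_map_eq_zero _).2 fun a ha => by
      have h1 : M a a + t * ip R a a = 0 := congrArg (fun f : S →ₗ[ℝ] ℝ => f a) ha
      ext e
      have h2 := mul_le_mul_of_nonneg_left (Sp.sq_le a.2 e) ht.le
      have h3 : (a : V) e ^ 2 ≤ 0 := nonpos_of_mul_nonpos_right (by linarith [hp a]) ht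
      simpa using le_antisymm h3 (sq_nonneg _)
  obtain ⟨h, hh⟩ := (LinearMap.injective_iff_surjective_of_finrank_eq_finrank
    Subspace.dual_finrank_eq.symm).1 hi (L ∘ₗ S.subtype)
  exact ⟨h, h.2, fun v hv => congrArg (fun f : S →ₗ[ℝ] ℝ => f ⟨v, hv⟩) hh⟩

variable {m : BF} {r R ρ : ℕ} {a : V}

theorem Sp.far (h : Sp R a) (hr : Rng r r m) {x : St} (hx : x ∉ box (R + r)) (b : V) :
    m (sh x a) b = 0 := hr _ _ (.inl fun e he => h _ fun h' => hx (by
      simpa using sub_mem_box h' (mem_lbox.1 he)))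

theorem Sp.mono (h : Sp R a) {R' : ℕ} (hR : R ≤ R') : Sp R' a :=
  fun e he => h e fun h' => he (box_mono hR h')

theorem Sp.sh (h : Sp R a) {k : ℕ} {y : St} (hy : y ∈ box k) : Sp (R + k) (sh y a) :=
  fun e he => h _ fun h' => he (by simpa using sub_mem_box h' hy)

theorem Sp.MM_eq (h : Sp R a) (hr : Rng r r m) (hρ : R + r ≤ ρ) (b : V) :
    MM m ρ a b = ∑ᶠ x, m (D3.sh x a) (D3.sh x b) := by
  rw [MM_apply, finsum_eq_sum_of_support_subset]
  exact fun x hx => by_contra fun h' => hx (h.far hr (fun h2 => h' (box_mono hρ h2)) _)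

theorem Sp.MM_sh (h : Sp R a) (hr : Rng r r m) (hρ : R + 1 + r ≤ ρ) (b : V) :
    MM m ρ a (D3.sh (un 0) b) = MM m ρ (D3.sh (-un 0) a) b := by
  rw [h.MM_eq hr (by omega), (h.sh (neg_mem_box (un_mem_box 0))).MM_eq hr hρ, eq_comm,
    ← finsum_comp_equiv (Equiv.addRight (un 0))]
  simp only [sh_sh, Equiv.coe_addRight, add_neg_cancel_right]

end Pool.Agent.Lib.MP_7f377f_mp.RG.D3.Hf
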