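import Pool.Agent.Lib.MP_7f377f_mp.HFLinA

/-! Approximate representation of the time difference of the smeared curvature by the energy. -/

noncomputable section

namespace Pool.Agent.Lib.MP_7f377f_mp.RG.D3.Hf

open Finset
open scoped Pointwise

theorem norm_le_iff {R : ℕ} {x : St} : ‖x‖ ≤ R ↔ x ∈ box R := by
  rw [pi_norm_le_iff_of_nonneg R.cast_nonneg, mem_box]
  refine forall_congr' fun i => ?_
  rw [Int.norm_eq_abs, ← abs_le]
  norm_cast

/-- the cutoff function -/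
def chi (A : ℕ) (x : St) : ℝ := max 0 (min 1 (3 - ‖x‖ / A))

theorem chi_mem (A : ℕ) (x : St) : 0 ≤ chi A x ∧ chi A x ≤ 1 :=
  ⟨le_max_left _ _, max_le zero_le_one (min_le_left _ _)⟩

theorem chi_one {A : ℕ} (hA : 0 < A) {x : St} (hx : x ∈ box (2 * A)) : chi A x = 1 := by
  have h := norm_le_iff.2 hx
  have : ‖x‖ / A ≤ 2 := (div_le_iff₀ (by positivity)).2 (by exact_mod_cast h)
  rw [chi, min_eq_left (by linarith), max_eq_right zero_le_one]

theorem chi_zero {A : ℕ} (hA : 0 < A) {x : St} (hx : x ∉ box (3 * A)) : chi A x = 0 := by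
  have h := not_le.1 fun h => hx (norm_le_iff.1 h)
  have : 3 ≤ ‖x‖ / A := (le_div_iff₀ (by positivity)).2 (by exact_mod_cast h.le)
  exact max_eq_left ((min_le_right _ _).trans (by linarith))

theorem chi_lip {A r : ℕ} (x : St) {w : St} (hw : w ∈ box r) :
    |chi A (w + x) - chi A x| ≤ r / A := by
  rw [chi, chi, max_comm, max_comm 0]
  refine (abs_max_sub_max_le_abs _ _ _).trans ((abs_min_sub_min_le_max _ _ _ _).trans ?_)
  rw [sub_self, abs_zero, sub_sub_sub_cancel_left, ← sub_div, abs_div, Nat.abs_cast]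
  refine max_le (by positivity) (div_le_div_of_nonneg_right ((abs_norm_sub_norm_le _ _).trans ?_)
    A.cast_nonneg)
  simpa using norm_le_iff.2 hw

theorem box_add {a b ρ : ℕ} (h : a + b ≤ ρ) : box a + box b ⊆ box ρ := fun x hx => by
  obtain ⟨y, hy, z, hz, rfl⟩ := mem_add.1 hx
  exact box_mono h (add_mem_box hy hz)

variable {m : BF} {k r : ℕ} {c : ℝ}

theorem lower (hm : Inv k r 3 1 m) (a : V) {R ρ : ℕ} (h : R + 2 ≤ ρ) :
    ∑ x ∈ box R, nd a x ≤ 3 * MM m ρ a a := by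
  rw [MM_apply]
  exact (hm.lower a _).trans (mul_le_mul_of_nonneg_left
    (sum_le_sum_of_subset_of_nonneg (box_add h) fun x _ _ => hm.psd _) (by norm_num))

theorem MM_symm (hm : Inv k r 3 1 m) (ρ : ℕ) (a b : V) : MM m ρ a b = MM m ρ b a := by
  simp only [MM_apply, hm.symm (sh _ a)]

theorem MM_nonneg (hm : Inv k r 3 1 m) (ρ : ℕ) (a : V) : 0 ≤ MM m ρ a a := by
  rw [MM_apply]
  exact sum_nonneg fun x _ => hm.psd _

theorem MM_gr (hm : Inv k r 3 1 m) (ρ : ℕ) (a : V) (u : St → ℝ) : MM m ρ a (gr u) = 0 := by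
  simp only [MM_apply, sh_gr, hm.symm (sh _ a), hm.gauge, sum_const_zero]

theorem cacc (hm : Inv k r 3 1 m) (hb : Bd r r c m) (c0 : 0 ≤ c) {A : ℕ} (hA : 2 ≤ A) (u : V)
    {R ρ : ℕ} (hR : R + 1 ≤ 2 * A) (hρ : 3 * A + r ≤ ρ) :
    ∑ x ∈ box R, nd u x ≤ 3 * (MM m ρ (fun e => chi A e.1 ^ 2 * u e) u +
      2 * c * (r / A) ^ 2 * ((2 * r + 1) ^ 3 * ∑ x ∈ box (3 * A + r + r), ∑ μ, u (x, μ) ^ 2)) := by
  have s2 : Sp (3 * A) fun e => chi A e.1 ^ 2 * u e := fun e he => by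
    simp [chi_zero (by omega) he]
  have e1 : ∑ x ∈ box R, nd u x = ∑ x ∈ box R, nd (fun e => chi A e.1 * u e) x :=
    sum_congr rfl fun x hx => by
      have a1 := chi_one (A := A) (by omega) (box_mono (by omega) hx)
      have a2 := fun μ => chi_one (A := A) (by omega) (box_mono hR (add_un_mem_box hx μ))
      simp only [nd, dd, a1, a2, one_mul]
  rw [e1, s2.MM_eq hm.rng hρ, ← s2.MM_eq hm.rng le_rfl]
  refine (lower hm _ (ρ := 3 * A + r) (by omega)).trans (mul_le_mul_of_nonneg_left ?_ (by norm_num))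
  refine le_trans ?_ (add_le_add_right (mul_le_mul_of_nonneg_left (sum_conv
    (f := fun x => ∑ μ, u (x, μ) ^ 2) (fun _ => by positivity) (3 * A + r) r) (by positivity)) _)
  rw [MM_apply, MM_apply, mul_sum, ← sum_add_distrib]
  refine sum_le_sum fun x _ => ?_
  obtain ⟨s, hs⟩ : ∃ s, s = √(∑ w ∈ box r, ∑ μ, u (w + x, μ) ^ 2) := ⟨_, rfl⟩
  have s0 : 0 ≤ s := hs ▸ Real.sqrt_nonneg _
  have s1 : Sm r s (sh x u) := fun e he => hs ▸ Real.abs_le_sqrt ((single_le_sum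
    (f := fun μ => u (e.1 + x, μ) ^ 2) (fun _ _ => by positivity) (mem_univ e.2)).trans
      (single_le_sum (f := fun w => ∑ μ, u (w + x, μ) ^ 2) (fun _ _ => by positivity)
        (mem_lbox.1 he)))
  rw [← Real.sq_sqrt (show 0 ≤ ∑ w ∈ box r, ∑ μ, u (w + x, μ) ^ 2 by positivity), ← hs]
  have d1 : ∀ e ∈ lbox r, |chi A (e.1 + x) - chi A x| ≤ r / A := fun e he =>
    chi_lip x (mem_lbox.1 he)
  obtain ⟨d, hd⟩ : ∃ d : V, ∀ e, chi A (e.1 + x) = chi A x + d e :=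
    ⟨fun e => chi A (e.1 + x) - chi A x, fun e => by ring⟩
  simp only [hd, add_sub_cancel_left] at d1
  have b1 : Sm r (r / A * s) (d * sh x u) := fun e he => (abs_mul _ _).trans_le
    (mul_le_mul (d1 e he) (s1 e he) (abs_nonneg _) (by positivity))
  have b2 : Sm r (r / A * (r / A * s)) (d * (d * sh x u)) := fun e he => (abs_mul _ _).trans_le
    (mul_le_mul (d1 e he) (b1 e he) (abs_nonneg _) (by positivity))
  have f1 : sh x (fun e => chi A e.1 * u e) = chi A x • sh x u + d * sh x u := by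
    funext e
    simp [hd, add_mul]
  have f2 : sh x (fun e => chi A e.1 ^ 2 * u e) =
      chi A x ^ 2 • sh x u + (2 * chi A x) • (d * sh x u) + d * (d * sh x u) := by
    funext e
    simp only [sh_apply, hd, Pi.add_apply, Pi.smul_apply, Pi.mul_apply, smul_eq_mul]
    ring
  have g1 := (abs_le.1 (hb _ _ _ _ b1 b1)).2
  have g2 := (abs_le.1 (hb _ _ _ _ b2 s1)).1
  simp only [f1, f2, map_add, map_smul, LinearMap.add_apply, LinearMap.smul_apply, smul_eq_mul,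
    hm.symm (sh x u) (d * sh x u)]
  nlinarith

theorem ip_eq (R : ℕ) (a : V) : ip R a a = ∑ x ∈ box R, ∑ μ, a (x, μ) ^ 2 := by
  simp only [ip_apply, lbox, sum_product, sq]

theorem harm (hm : Inv k r 3 1 m) (hb : Bd r r c m) (c0 : 0 ≤ c) {A : ℕ} (hA : r + 2 ≤ A)
    {B p : V} {δ : ℝ} (hB : Cv (6 * A) δ B) (hp : Sp (3 * A + 1) p)
    (h : ∀ v, Sp (3 * A + 1) v →
      MM m (5 * A) p v + (A : ℝ)⁻¹ ^ 2 * ip (3 * A + 1) p v = MM m (5 * A) B v)
    {R : ℕ} (hR : R + 1 ≤ 2 * A) :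
    ∑ x ∈ box R, nd (el (B - p)) x ≤ 10 ^ 7 * (c + 1) ^ 2 * (r + 1) ^ 7 * A ^ 2 * δ ^ 2 := by
  have A0 : (0 : ℝ) < A := by exact_mod_cast (show 0 < A by omega)
  have A1 : (r : ℝ) + 2 ≤ A := by exact_mod_cast hA
  have r0 : (0 : ℝ) ≤ r := r.cast_nonneg
  obtain ⟨K, hK⟩ : ∃ K, K = MM m (5 * A) B B := ⟨_, rfl⟩
  have K0 : 0 ≤ K := hK ▸ MM_nonneg hm _ _
  have K1 : K ≤ (11 * A) ^ 3 * (c * (3 * r * δ) * (3 * r * δ)) := by
    rw [hK, MM_apply]
    refine (sum_le_card_nsmul _ _ (c * (3 * r * δ) * (3 * r * δ)) fun x hx => ?_).trans ?_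
    · have s := Sm_cg ((hB.mono (show r + 5 * A ≤ _ by omega) le_rfl).sh hx)
      have := (abs_le.1 (hb _ _ _ _ s s)).2
      simpa only [cg, map_sub, LinearMap.sub_apply, hm.gauge, hm.symm _ (gr _), sub_zero] using this
    · rw [card_box, nsmul_eq_mul]
      refine mul_le_mul_of_nonneg_right ?_ (by nlinarith [mul_nonneg c0 (mul_self_nonneg (3 * r * δ))])
      push_cast
      gcongr
      linarith
  have p0 := ip_nonneg (3 * A + 1) p
  have p1 := h p hp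
  have p2 := MM_nonneg hm (5 * A) (B - p)
  have p3 := MM_nonneg hm (5 * A) p
  have p4 : MM m (5 * A) (B - p) (B - p) = K - 2 * MM m (5 * A) B p + MM m (5 * A) p p := by
    simp only [map_sub, LinearMap.sub_apply, hK, MM_symm hm _ p B]
    ring
  have t0 : 0 < (A : ℝ)⁻¹ := inv_pos.2 A0
  have p5 := mul_nonneg (sq_nonneg (A : ℝ)⁻¹) p0
  have u1 : ∑ x ∈ box (3 * A + r + r), ∑ μ, el (B - p) (x, μ) ^ 2 ≤ 3 * K :=
    (sum_le_sum fun x _ => row_le_nd (B - p) x 0).trans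
      ((lower hm _ (ρ := 5 * A) (by omega)).trans (by linarith))
  have u2 := cacc hm hb c0 (by omega) (el (B - p)) hR (ρ := 5 * A) (by omega)
  obtain ⟨w, hw⟩ : ∃ w : V, w = fun e => chi A e.1 ^ 2 * el (B - p) e := ⟨_, rfl⟩
  have w1 : Sp (3 * A) w := fun e he => by simp [hw, chi_zero (by omega) he]
  have w2 := w1.sh (neg_mem_box (un_mem_box 0))
  have w3 : ∀ x, ∑ μ, w (x, μ) ^ 2 ≤ ∑ μ, el (B - p) (x, μ) ^ 2 := fun x => sum_le_sum fun μ _ => by
    have := chi_mem A x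
    rw [hw, mul_pow]
    exact mul_le_of_le_one_left (sq_nonneg _) (pow_le_one₀ (sq_nonneg _) (pow_le_one₀ this.1 this.2))
  have w4 : ∀ y ∈ box 1, ip (3 * A + 1) (sh y w) (sh y w) ≤ 3 * K := fun y hy => by
    rw [ip_eq]
    refine (sum_sh_le (f := fun x => ∑ μ, w (x, μ) ^ 2) (fun _ => by positivity) hy).trans
      ((sum_le_sum fun x _ => w3 x).trans ((sum_le_sum fun x _ => row_le_nd (B - p) x 0).trans
      ((lower hm _ (ρ := 5 * A) (by omega)).trans (by linarith))))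
  have w5 : ∀ v, Sp (3 * A + 1) v → ip (3 * A + 1) v v ≤ 3 * K →
      |MM m (5 * A) v (B - p)| ≤ (A : ℝ)⁻¹ * (2 * K) := fun v hv hv' => by
    have a1 := ip_nonneg (3 * A + 1) (v + (A : ℝ)⁻¹ • p)
    have a2 := ip_nonneg (3 * A + 1) (v - (A : ℝ)⁻¹ • p)
    have a3 : ip (3 * A + 1) v p = ip (3 * A + 1) p v := by simp only [ip_apply, mul_comm]
    simp only [map_add, map_sub, map_smul, LinearMap.add_apply, LinearMap.sub_apply,
      LinearMap.smul_apply, smul_eq_mul, a3] at a1 a2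
    rw [map_sub, MM_symm hm _ v B, MM_symm hm _ v p, ← h v hv, add_sub_cancel_left, sq, mul_assoc,
      abs_mul, abs_of_pos t0]
    exact mul_le_mul_of_nonneg_left (abs_le.2 ⟨by nlinarith, by nlinarith⟩) t0.le
  have w6 : MM m (5 * A) w (el (B - p)) ≤ (A : ℝ)⁻¹ * (4 * K) := by
    rw [el_eq, map_sub, map_sub, MM_gr hm, w1.MM_sh hm.rng (by omega)]
    have a1 := abs_le.1 (w5 _ w2 (w4 _ (neg_mem_box (un_mem_box 0))))
    have a2 := abs_le.1 (w5 _ (w1.mono (by omega)) (by simpa using w4 _ (zero_mem_box 1)))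
    linarith
  rw [← hw] at u2
  refine u2.trans ?_
  have n1 : (r / A : ℝ) ^ 2 ≤ (A : ℝ)⁻¹ * (r + 1) ^ 2 := by
    rw [div_eq_inv_mul, mul_pow, sq, mul_assoc]
    refine mul_le_mul_of_nonneg_left ?_ t0.le
    have := inv_le_one_of_one_le₀ (show (1 : ℝ) ≤ A by linarith)
    nlinarith
  have n2 : (1 : ℝ) ≤ (c + 1) * (r + 1) ^ 5 :=
    one_le_mul_of_one_le_of_one_le (by linarith) (one_le_pow₀ (by linarith))
  calc _ ≤ 3 * ((A : ℝ)⁻¹ * (4 * K) * ((c + 1) * (r + 1) ^ 5) + 2 * (c + 1) *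
        ((A : ℝ)⁻¹ * (r + 1) ^ 2) * ((2 * (r + 1)) ^ 3 * (3 * K))) := by
        gcongr
        · exact w6.trans (le_mul_of_one_le_right (by positivity) n2)
        · linarith
        · linarith
    _ = 156 * (c + 1) * (r + 1) ^ 5 * (A : ℝ)⁻¹ * K := by ring
    _ ≤ 156 * (c + 1) * (r + 1) ^ 5 * (A : ℝ)⁻¹ *
        ((11 * A) ^ 3 * ((c + 1) * (3 * (r + 1)) ^ 2 * δ ^ 2)) := by
        gcongr
        refine K1.trans (mul_le_mul_of_nonneg_left ?_ (by positivity))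
        rw [show c * (3 * r * δ) * (3 * r * δ) = c * (3 * r) ^ 2 * δ ^ 2 by ring]
        gcongr <;> linarith
    _ = 1868724 * ((c + 1) ^ 2 * (r + 1) ^ 7 * A ^ 2 * δ ^ 2) := by field_simp; ring
    _ ≤ _ := by
        nlinarith [show 0 ≤ (c + 1) ^ 2 * (r + 1) ^ 7 * A ^ 2 * δ ^ 2 by positivity]

theorem lin_pers (hm : Inv k r 3 1 m) (hb : Bd r r c m) (c0 : 0 ≤ c) {A l : ℕ} (hl : 1 ≤ l)
    (hA : 2 * l + r + 10 ≤ A) : ∃ h : St → V, (∀ y ∈ box A, Sp (3 * A + 1) (h y) ∧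
      (∀ e, |h y e| ≤ 28 * l ^ 2 * A) ∧ MM m (5 * A) (h y) (h y) ≤ (28 * l ^ 2) ^ 2 ∧
      Cv (4 * A) (50 * l ^ 2) (h y)) ∧
      ∀ (B : V) (δ : ℝ), Cv (6 * A) δ B → ∑ y ∈ box A, (JJ l (sh y B) - MM m (5 * A) (h y) B) ^ 2 ≤
        10 ^ 12 * l ^ 9 * (c + 1) ^ 2 * (r + 1) ^ 7 * A ^ 2 * δ ^ 2 := by
  have A0 : (0 : ℝ) < A := by exact_mod_cast (show 0 < A by omega)
  have l1 : (1 : ℝ) ≤ l := by exact_mod_cast hl
  have R := riesz (MM m (5 * A)) (MM_nonneg hm _) (3 * A + 1) (t := (A : ℝ)⁻¹ ^ 2) (by positivity)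
  choose h h1 h2 using fun y => R (JJ l ∘ₗ shL y)
  refine ⟨h, fun y hy => ?_, fun B δ hB => ?_⟩
  · have a1 := h2 y _ (h1 y)
    have a2 := (le_abs_self _).trans (JJ_bd l (sh y (h y)))
    have a3 : ∑ x ∈ box (4 + l + l), nd (sh y (h y)) x ≤ 3 * MM m (5 * A) (h y) (h y) := by
      simp only [nd, dd_sh]
      exact (sum_sh_le (nd_nonneg (h y)) hy).trans (lower hm _ (by omega))
    have a4 := MM_nonneg hm (5 * A) (h y)
    have a5 := mul_nonneg (sq_nonneg (A : ℝ)⁻¹) (ip_nonneg (3 * A + 1) (h y))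
    have a6 := Real.sq_sqrt (sum_nonneg fun x (_ : x ∈ box (4 + l + l)) => nd_nonneg (sh y (h y)) x)
    rw [LinearMap.comp_apply, shL_apply] at a1
    have a7 : JJ l (sh y (h y)) ≤ 768 * (l ^ 2) ^ 2 := by
      nlinarith [sq_nonneg (√(∑ x ∈ box (4 + l + l), nd (sh y (h y)) x) - 48 * l ^ 2)]
    have a8 : 0 ≤ (l ^ 2 : ℝ) ^ 2 := by positivity
    refine ⟨h1 y, fun e => abs_le_of_sq_le_sq ?_ (by positivity), by nlinarith, fun x hx μ ν =>
      abs_le_of_sq_le_sq ?_ (by positivity)⟩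
    · have b1 := mul_le_mul_of_nonneg_left ((h1 y).sq_le e) (sq_nonneg (A : ℝ)⁻¹)
      rw [mul_pow, ← div_le_iff₀ (by positivity), div_eq_inv_mul, ← inv_pow]
      nlinarith
    · have b1 := (sq_le_nd (h y) x μ ν).trans ((single_le_sum (fun x _ => nd_nonneg (h y) x) hx).trans
        (lower hm _ (ρ := 5 * A) (by omega)))
      nlinarith
  · obtain ⟨p, p1, p2⟩ := R (MM m (5 * A) B)
    have a1 := harm hm hb c0 (by omega) hB p1 p2 (R := A + (4 + l + l)) (by omega)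
    have a2 := sum_conv (nd_nonneg (el (B - p))) A (4 + l + l)
    have a3 : ∀ y, JJ l (sh y B) - MM m (5 * A) (h y) B = JJ l (sh y (B - p)) := fun y => by
      have b1 := h2 y p p1
      have b2 := p2 _ (h1 y)
      have b3 : ip (3 * A + 1) p (h y) = ip (3 * A + 1) (h y) p := by simp only [ip_apply, mul_comm]
      rw [LinearMap.comp_apply, shL_apply] at b1
      rw [show sh y (B - p) = sh y B - sh y p from rfl, map_sub, ← b1, MM_symm hm _ _ B, ← b2, b3,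
        MM_symm hm _ p]
    have a4 : ∀ y, el (sh y (B - p)) = sh y (el (B - p)) := fun y => by
      funext e
      simp only [el, dd_sh, sh_apply]
    simp only [a3]
    refine (sum_le_sum fun y _ => JJ_bd' l _).trans ?_
    simp only [a4, nd, dd_sh, ← mul_sum] at a1 a2 ⊢
    calc _ ≤ 16 * (l : ℝ) ^ 6 * ((13 * l) ^ 3 *
          (10 ^ 7 * (c + 1) ^ 2 * (r + 1) ^ 7 * A ^ 2 * δ ^ 2)) := by
          refine mul_le_mul_of_nonneg_left (a2.trans ?_) (by positivity)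
          push_cast
          gcongr
          linarith
      _ = 35152 * 10 ^ 7 * (l ^ 9 * (c + 1) ^ 2 * (r + 1) ^ 7 * A ^ 2 * δ ^ 2) := by ring
      _ ≤ _ := by
          nlinarith [show 0 ≤ (l : ℝ) ^ 9 * (c + 1) ^ 2 * (r + 1) ^ 7 * A ^ 2 * δ ^ 2 by positivity]

end Pool.Agent.Lib.MP_7f377f_mp.RG.D3.Hf
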