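import Pool.Agent.Lib.MP_7f377f_mp.HFSh

/-! Elementary measure theory, geometry and the observable used for the finite mass. -/

noncomputable section

namespace Pool.Agent.Lib.MP_7f377f_mp.RG.D3.Hf

open Finset MeasureTheory
open scoped ENNReal NNReal InnerProductSpace Pointwise

section abstract
variable {Ω : Type} [MeasurableSpace Ω] {μ : Measure Ω} {f g : Ω → ℝ≥0∞} {B : Set Ω}

theorem prob_le (mB : MeasurableSet B) (h1 : ∀ x, g x ≤ f x) (h2 : ∫⁻ x, f x ∂μ < ∞) {η x : ℝ}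
    (η0 : 0 ≤ η) (x0 : 0 ≤ x) (h3 : ENNReal.ofReal (1 - η) * ∫⁻ x, f x ∂μ ≤ ∫⁻ x, g x ∂μ)
    (h4 : ∫⁻ x in B, g x ∂μ ≤ ENNReal.ofReal x * ∫⁻ x, f x ∂μ) :
    ∫⁻ x in B, f x ∂μ ≤ ENNReal.ofReal (x + η) * ∫⁻ x, f x ∂μ := by
  have a2 := h3.trans ((lintegral_add_compl g mB).symm.trans_le
    (add_le_add h4 (lintegral_mono (μ := μ.restrict Bᶜ) h1)))
  have a3 := lintegral_add_compl f mB (μ := μ)
  have a4 : ENNReal.ofReal 1 ≤ ENNReal.ofReal (1 - η) + ENNReal.ofReal η :=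
    le_of_eq_of_le (by rw [sub_add_cancel]) ENNReal.ofReal_add_le
  have a5 := (mul_le_mul_left a4 (∫⁻ x, f x ∂μ)).trans_eq (add_mul _ _ _)
  rw [ENNReal.ofReal_one, one_mul] at a5
  have a6 := (a3.le.trans a5).trans (add_le_add_left a2 _)
  rw [add_right_comm, ← add_mul, ← ENNReal.ofReal_add x0 η0] at a6
  exact (ENNReal.add_le_add_iff_right ((setLIntegral_le_lintegral _ _).trans_lt h2).ne).1 a6

theorem tail_le (hf : Measurable f) {S : Ω → Ω} (hS : MeasurePreserving S μ μ) {x : ℝ≥0∞}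
    (h : ∀ U ∈ B, g U ≤ x * f (S U)) : ∫⁻ U in B, g U ∂μ ≤ x * ∫⁻ U, f U ∂μ := by
  have m := hf.comp hS.measurable
  refine (setLIntegral_mono (m.const_mul x) h).trans ((setLIntegral_le_lintegral _ _).trans_eq ?_)
  rw [lintegral_const_mul _ m, ← hS.lintegral_comp hf]
  rfl

theorem fam_le (hf : Measurable f) {S : ℕ → Ω → Ω} {N : ℕ}
    (hS : ∀ k ∈ range N, MeasurePreserving (S k) μ μ) {C : ℕ → Set Ω} (mC : ∀ k, MeasurableSet (C k))
    (dC : Pairwise (Function.onFun Disjoint C)) (h : ∀ k ∈ range N, ∀ U ∈ B, S k U ∈ C k) :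
    ∑ k ∈ range N, ∫⁻ U in B, f (S k U) ∂μ ≤ ∫⁻ U, f U ∂μ := by
  refine (sum_le_sum fun k hk => (lintegral_mono_set (h k hk)).trans_eq
    ((hS k hk).setLIntegral_comp_preimage (mC k) hf)).trans ?_
  exact (ENNReal.sum_le_tsum _).trans ((lintegral_iUnion mC dC f).symm.trans_le
    (setLIntegral_le_lintegral _ _))

theorem pigeon {ι : Type} {Y : Finset ι} (hY : Y.Nonempty) {q : ι → Ω → ℝ}
    (mq : ∀ y, Measurable (q y)) (q0 : ∀ y U, 0 ≤ q y U) {x : ℝ}
    (h : ∀ᵐ U ∂μ, ∑ y ∈ Y, q y U ≤ Y.card * x) :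
    ∃ y ∈ Y, μ {U | 1 < q y U} ≤ ENNReal.ofReal x * μ Set.univ := by
  refine ENNReal.exists_le_of_sum_le hY ?_
  calc _ ≤ ∑ y ∈ Y, ∫⁻ U, ENNReal.ofReal (q y U) ∂μ := sum_le_sum fun y _ =>
        le_trans (measure_mono fun U (hU : 1 < q y U) => ENNReal.one_le_ofReal.2 hU.le)
          (meas_le_lintegral₀ (mq y).ennreal_ofReal.aemeasurable fun _ h => h)
    _ ≤ ∫⁻ _, Y.card * ENNReal.ofReal x ∂μ := by
        rw [← lintegral_finsetSum _ fun y _ => (mq y).ennreal_ofReal]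
        refine lintegral_mono_ae (h.mono fun U hU => ?_)
        rw [← ENNReal.ofReal_sum_of_nonneg fun y _ => q0 y U, ← ENNReal.ofReal_natCast,
          ← ENNReal.ofReal_mul (Nat.cast_nonneg _)]
        exact ENNReal.ofReal_le_ofReal hU
    _ = _ := by simp [mul_assoc]

end abstract

/-- the six coordinate directions -/
def dir (p : Fin 3 × Bool) : E3 := EuclideanSpace.single p.1 (if p.2 then 1 else -1)

theorem norm_dir (p : Fin 3 × Bool) : ‖dir p‖ = 1 := by
  rw [dir]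
  split_ifs <;> simp

theorem six (z : E3) : ∃ p, ‖z‖ / 2 ≤ ⟪z, dir p⟫_ℝ := by
  obtain ⟨a, -, ha⟩ := exists_max_image univ (fun a => |z a|) univ_nonempty
  have h : ‖z‖ / 2 ≤ |z a| := by
    refine (div_le_iff₀ two_pos).2 (le_trans (norm_cE z).2 ?_)
    rw [mul_comm]
    exact mul_le_mul_of_nonneg_right ((pi_norm_le_iff_of_nonneg (abs_nonneg _)).2 fun k => by
      simpa [cE] using ha k (mem_univ k)) zero_le_two
  rcases abs_cases (z a) with h1 | h1
  · exact ⟨(a, true), by simpa [dir, EuclideanSpace.inner_single_right, h1.1] using h⟩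
  · exact ⟨(a, false), by simpa [dir, EuclideanSpace.inner_single_right, h1.1] using h⟩

theorem six_le {G : Measure Conf} {B : Set Conf} {X : Conf → E3} {x : ℝ≥0∞}
    (h : ∀ p, G (B ∩ {U | ‖X U‖ / 2 ≤ ⟪X U, dir p⟫_ℝ}) ≤ x) : G B ≤ 6 * x := by
  refine (measure_mono fun U hU => Set.mem_iUnion.2 ((six (X U)).imp fun p hp =>
    (⟨hU, hp⟩ : U ∈ B ∩ {U | ‖X U‖ / 2 ≤ ⟪X U, dir p⟫_ℝ}))).trans
      ((measure_iUnion_fintype_le _ _).trans ((sum_le_card_nsmul _ _ x fun p _ => h p).trans_eq ?_))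
  simp

/-- a fattened piece of a spherical shell -/
def cap (e : E3) (y w : ℝ) : Set E3 := {a | |‖a‖ - y| ≤ 2 * w ∧ ‖a‖ / 2 - 2 * w ≤ ⟪a, e⟫_ℝ}

theorem meas_cap (e : E3) (y w : ℝ) : MeasurableSet (cap e y w) :=
  ((isClosed_le (f := fun a : E3 => |‖a‖ - y|) (by fun_prop) continuous_const).inter
    (isClosed_le (f := fun a : E3 => ‖a‖ / 2 - 2 * w) (g := fun a => ⟪a, e⟫_ℝ) (by fun_prop)
      (by fun_prop))).measurableSet

theorem cap_disj {e a : E3} (he : ‖e‖ = 1) {y w t : ℝ} (w0 : 0 < w) (ht : 10 * w ≤ t)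
    (h1 : a ∈ cap e y w) (h2 : a + t • e ∈ cap e y w) : False := by
  have a1 := norm_add_sq_real a (t • e)
  rw [norm_smul, he, mul_one, Real.norm_eq_abs, sq_abs, inner_smul_right] at a1
  have a2 := abs_le.1 h1.1
  have a3 := abs_le.1 h2.1
  have a4 : ‖a + t • e‖ ^ 2 ≤ (‖a‖ + 4 * w) ^ 2 := by gcongr; linarith
  nlinarith [mul_le_mul_of_nonneg_left h1.2 (show 0 ≤ t by linarith), norm_nonneg a,
    mul_nonneg (norm_nonneg a) (sub_nonneg.2 ht), mul_nonneg (sub_nonneg.2 ht) w0.le,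
    sq_nonneg (t - 10 * w), mul_pos w0 w0]

theorem mem_cap {e a b : E3} (he : ‖e‖ = 1) {y w : ℝ} (h1 : y < ‖a‖) (h2 : ‖a‖ ≤ y + w)
    (h3 : ‖a‖ / 2 ≤ ⟪a, e⟫_ℝ) (h4 : ‖b - a‖ ≤ w) : b ∈ cap e y w := by
  have a1 := abs_le.1 ((abs_norm_sub_norm_le b a).trans h4)
  have a2 := abs_le.1 (abs_real_inner_le_norm (b - a) e)
  rw [he, mul_one, inner_sub_left] at a2
  exact ⟨abs_le.2 ⟨by linarith, by linarith⟩, by linarith⟩

/-- real part -/
def rv : C3 →+ E3 where
  toFun z := WithLp.toLp 2 fun k => (z k).re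
  map_zero' := rfl
  map_add' _ _ := rfl

theorem rv_cE (v : E3) : rv (cE v) = v := rfl

theorem norm_rv (z : C3) : ‖rv z‖ ≤ 2 * ‖z‖ :=
  (norm_cE _).2.trans (mul_le_mul_of_nonneg_left ((pi_norm_le_iff_of_nonneg (norm_nonneg _)).2
    fun k => (Complex.norm_real _).trans_le ((Complex.abs_re_le_norm _).trans
      (norm_le_pi_norm z k))) zero_le_two)

/-- the smeared curvature -/
def ov (l A : ℕ) (z : St) (W : Conf) : E3 := ph l (fun x => rv (dd (BB A W) x 1 2)) z

theorem ov_apply (l A : ℕ) (z : St) (W : Conf) (a : Fin 3) :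
    ov l A z W a = ph l (fun x => dd (reF (BB A W) a) x 1 2) z :=
  ph_map (EuclideanSpace.proj a : E3 →L[ℝ] ℝ).toLinearMap.toAddMonoidHom l _ z

theorem meas_BB (A : ℕ) (a : Fin 3) : Measurable fun W => reF (BB A W) a := by
  have h : Measurable fun W : Conf => Bx 0 (cC W) := Bx_measurable (fun e => by
    have := S3.continuous_q.comp (continuous_apply (A := fun _ : Lk => S3) e)
    refine MQ.of ?_ ?_ ?_ ?_ <;> refine Complex.measurable_ofReal.comp (Continuous.measurable ?_)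
    exacts [Quaternion.continuous_re.comp this, Quaternion.continuous_imI.comp this,
      Quaternion.continuous_imJ.comp this, Quaternion.continuous_imK.comp this]) 0
  exact measurable_pi_lambda _ fun e => Complex.measurable_re.comp (h.eval.eval)

theorem meas_E3 {X : Conf → E3} (h : ∀ a, Measurable fun W => X W a) : Measurable X :=
  (MeasurableEquiv.toLp 2 (Fin 3 → ℝ)).measurable.comp (measurable_pi_lambda _ h)

theorem meas_ov (l A : ℕ) (z : St) : Measurable (ov l A z) := meas_E3 fun a => by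
  simp only [ov_apply]
  have : Measurable fun B : V => ph l (fun x => dd B x 1 2) z := by
    simp only [ph, s2, dd]
    fun_prop
  exact this.comp (meas_BB A a)

theorem meas_MM {m : BF} {r : ℕ} (hr : Rng r r m) (ρ : ℕ) (h : V) :
    Measurable fun B : V => MM m ρ h B := by
  have : ∀ a b : V, m a b = ∑ e ∈ lbox r, b e * m a (Pi.single e 1) := fun a b => by
    rw [hr.congr (fun _ _ => rfl) (agr_sum_single r b), map_sum]
    refine sum_congr rfl fun e _ => ?_
    rw [← smul_eq_mul, ← map_smul, ← Pi.single_smul, smul_eq_mul, mul_one]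
  simp only [MM_apply]
  refine Finset.measurable_sum _ fun x _ => ?_
  rw [funext fun B => this (sh x h) (sh x B)]
  simp only [sh_apply]
  fun_prop

theorem ln_congr {U U' : Conf} {p : St} {μ : Fin 3}
    (h : ∀ s : ℤ, U (p + s • un μ, μ) = U' (p + s • un μ, μ)) (k : ℤ) :
    ln Inv.inv U p μ k = ln Inv.inv U' p μ k := by
  induction k using Int.induction_on with
  | zero => simp
  | succ k ih => rw [ln_fwd _ _ _ _ (by omega), ln_fwd _ _ _ _ (by omega), ih, h]
  | pred k ih =>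
    rw [ln_bwd _ U _ _ (by omega), ln_bwd _ U' _ _ (by omega), sub_add_cancel, ih, h]

theorem ov_dep (l A : ℕ) (z : St) : DependsOn (fun W => ‖ov l A z W‖)
    {e : Lk | e.1 0 = z 0 + 4 * A} := fun U U' h => by
  obtain ⟨b, hb⟩ : ∃ b : S3, ∀ x : St, x 0 = z 0 + 4 * A → cmb Inv.inv U x = b * cmb Inv.inv U' x := by
    refine ⟨ln Inv.inv U (pre z 0) 0 (z 0 + 4 * A) * (ln Inv.inv U' (pre z 0) 0 (z 0 + 4 * A))⁻¹,
      fun x hx => ?_⟩
    rw [cmb, cmb, ln_congr (μ := 1) fun s => h _ (by simpa [pre, un_apply] using hx),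
      ln_congr (μ := 2) fun s => h _ (by simpa [pre, un_apply] using hx), hx,
      show pre x 0 = pre z 0 from funext fun i => by simp [pre]]
    group
  obtain ⟨T, hT⟩ := exists_rot b
  have k : ∀ (x : St) (i : Fin 3), i ≠ 0 → x 0 = z 0 →
      rv (BB A U (x, i)) = T (rv (BB A U' (x, i))) := fun x i hi hx => by
    have h1 : (x + ct A) 0 = z 0 + 4 * A := by simp [ct, hx]
    obtain ⟨u, hu⟩ := exists_cE (Bx_real 0 U' (x + ct A, i))
    rw [BB, BB, sh_apply, sh_apply, ← hu, rv_cE, ← rv_cE (T u), hT, hu, Bx_cC, Bx_cC,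
      ← ch_conj (uni_cS b), ← cS_inv, ← cS_mul, ← cS_mul, gauge, gauge, hb _ h1,
      hb _ (by simpa [un_ne hi.symm] using h1), h _ h1]
    congr 3
    group
  simp only [ov]
  rw [← T.norm_map (ph _ (fun x => rv (dd (BB A U') x 1 2)) _), show T (ph l (fun x => rv (dd (BB A U') x 1 2)) z) = _ from
    ph_map T.toLinearEquiv.toLinearMap.toAddMonoidHom l _ z]
  refine congrArg _ (ph_congr fun w _ hw => ?_)
  have h1 : (z + w) 0 = z 0 := by simp [hw]
  simp only [dd, map_sub, map_add, k _ 1 (by decide) h1, k _ 2 (by decide) h1,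
    k (z + w + un 1) 2 (by decide) (by simpa [un_apply] using h1),
    k (z + w + un 2) 1 (by decide) (by simpa [un_apply] using h1)]
  rfl

/-- the test field -/
def tent (l : ℕ) : V := fun e => if e.2 = 1 then max (8 * l - ‖e.1‖) 0 else 0

theorem tent_sp (l : ℕ) : Sp (8 * l) (tent l) := fun e he => by
  have h := not_le.1 fun h => he (norm_le_iff.1 h)
  push_cast at h
  rw [tent, max_eq_right (by linarith), ite_self]

theorem tent_le (l : ℕ) (e : Lk) : |tent l e| ≤ 8 * l := by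
  rw [tent]
  split_ifs
  · exact abs_le.2 ⟨le_max_of_le_right (by simp), max_le (by simp) (by positivity)⟩
  · simp

theorem tent_dd (l : ℕ) (x : St) (μ ν : Fin 3) : |dd (tent l) x μ ν| ≤ 2 := by
  have h : ∀ μ ν, |tent l (x + un μ, ν) - tent l (x, ν)| ≤ 1 := fun μ ν => by
    simp only [tent]
    split_ifs
    · refine (abs_max_sub_max_le_abs _ _ _).trans ?_
      rw [sub_sub_sub_cancel_left]
      simpa using (abs_norm_sub_norm_le x (x + un μ)).trans
        (by simpa using norm_le_iff.2 (un_mem_box μ))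
    · simp
  have h1 := abs_le.1 (h μ ν)
  have h2 := abs_le.1 (h ν μ)
  rw [dd]
  exact abs_le.2 ⟨by linarith, by linarith⟩

theorem norm_of_last {x : St} (h : ∀ i, |x i| ≤ -x 2) : ‖x‖ = -(x 2 : ℝ) := by
  have h0 : (0 : ℝ) ≤ -(x 2 : ℝ) := by exact_mod_cast (abs_nonneg _).trans (h 0)
  refine le_antisymm ((pi_norm_le_iff_of_nonneg h0).2 fun i => ?_) ?_
  · rw [Int.norm_eq_abs]
    exact_mod_cast h i
  · exact (neg_le_abs _).trans ((Int.norm_eq_abs _).symm.trans_le (norm_le_pi_norm x 2))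

theorem tent_ph {l : ℕ} (hl : 1 ≤ l) (z : St) :
    ph l (fun x => dd (sh (-(z + (5 * l : ℤ) • un 2)) (tent l)) x 1 2) z = -l ^ 4 := by
  rw [ph_congr (G := fun _ => -1) fun w hw h0 => ?_]
  · simp [ph, s2]
    ring
  have h1 := mem_box.1 hw 1
  have h2 := mem_box.1 hw 2
  have e1 : ‖z + w + -(z + (5 * l : ℤ) • un 2)‖ = 5 * l - w 2 := by
    rw [norm_of_last fun i => abs_le.2 (by fin_cases i <;> simp [un_apply, h0] <;> omega)]
    simp
    ring
  have e2 : ‖z + w + -(z + (5 * l : ℤ) • un 2) + un 2‖ = 5 * l - w 2 - 1 := by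
    rw [norm_of_last fun i => abs_le.2 (by fin_cases i <;> simp [un_apply, h0] <;> omega)]
    simp
    ring
  have h3 : -((l : ℝ) + l) ≤ w 2 := by exact_mod_cast h2.1
  have h4 : (0 : ℝ) ≤ l := l.cast_nonneg
  rw [dd_sh, dd, tent, tent, tent, tent, if_pos rfl, if_pos rfl, if_neg (by simp),
    if_neg (by simp), e1, e2, max_eq_left (by linarith), max_eq_left (by linarith)]
  ring

theorem tent_en {m : BF} {C : ℝ} (hC : ∀ (B : V) (S T : Finset St), (∀ e : Lk, e.1 ∉ T → B e = 0) →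
      ∑ x ∈ S, m (sh x B) (sh x B) ≤ C * ∑ x ∈ T + box 1, nd B x) {l : ℕ} (hl : 1 ≤ l) (ρ : ℕ)
    (z : St) : MM m ρ (sh z (tent l)) (sh z (tent l)) ≤ |C| * (36 * (19 * l) ^ 3) := by
  have l1 : (1 : ℝ) ≤ l := by exact_mod_cast hl
  simp only [MM_apply, sh_sh]
  rw [← sum_image (f := fun x => m (sh x (tent l)) (sh x (tent l))) (add_left_injective z).injOn]
  refine (hC _ _ _ (tent_sp l)).trans (mul_le_mul (le_abs_self C) ((sum_le_sum_of_subset_of_nonneg
    (box_add le_rfl) fun x _ _ => nd_nonneg _ x).trans ((sum_le_card_nsmul _ _ 36 fun x _ =>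
      ?_).trans ?_)) (sum_nonneg fun x _ => nd_nonneg _ x) (abs_nonneg C))
  · refine (sum_le_card_nsmul _ _ 12 fun μ _ => (sum_le_card_nsmul _ _ 4 fun ν _ => ?_).trans_eq
      (by norm_num)).trans_eq (by norm_num)
    have := abs_le.1 (tent_dd l x μ ν)
    nlinarith
  · rw [card_box, nsmul_eq_mul, mul_comm]
    push_cast
    gcongr
    linarith

end Pool.Agent.Lib.MP_7f377f_mp.RG.D3.Hf
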