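import Pool.Agent.Lib.MP_7f377f_mp.R3LinC

/-! The finite linear step of the renormalisation group: upper bound and conclusion. -/

noncomputable section

namespace Pool.Agent.Lib.MP_7f377f_mp.RG.D3.La

open Finset
open scoped Pointwise

variable {l r n R c : ℕ} {cL cU C τ δ δ' : ℝ} {m : BF} {s : V →ₗ[ℝ] V} {a B φ : V}

theorem xx_rng (hr : Rng R R m) (hR : R ≤ l) (hs : ∀ a b, m a b = m b a) (hP : Pre l r c τ m s)
    (r2 : 2 ≤ r) : Rng (3 * l + 1) r (xx l m s) := fun a B h => by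
  rw [xx_apply]
  rcases h with h | h
  · exact enB_zero hr hR (sm_zero.2 h) (fun _ => rfl) _
  · rw [enB_symm hs]
    exact enB_zero hr hR (by simpa using mu_sm hP r2 (sm_zero.2 h))
      (fun μ => h _ (mem_lbox.2 (zero_mem_box r))) _

theorem mn_rng (hr : Rng R R m) (hR : R ≤ l) (hs : ∀ a b, m a b = m b a) (hP : Pre l r c τ m s)
    (r2 : 2 ≤ r) : Rng r r (mn l m s) := fun a B h => by
  have : ∀ B : V, (∀ e ∈ lbox r, B e = 0) → ∀ q, enB l m (mu l s B, B) q = 0 := fun B h q =>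
    enB_zero hr hR (by simpa using mu_sm hP r2 (sm_zero.2 h))
      (fun μ => h _ (mem_lbox.2 (zero_mem_box r))) _
  rw [mn_apply]
  rcases h with h | h
  · exact this _ h _
  · rw [enB_symm hs, this _ h]

theorem cross_one (hP : Pre l r c τ m s) (hφ : ∀ f, tree l f → φ f = 0) (hB : Cv (r / 3) δ B) :
    |∑ w ∈ box 2, xx l m s (sh (up l w) (cut l φ)) (sh w B)| ≤ ∑ f ∈ lbox l, |φ f| * (τ * δ) := by
  have h1 : cut l φ = ∑ f ∈ lbox l, φ f • (Pi.single f 1 : V) := by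
    funext e
    simp [cut, Finset.sum_apply, Pi.single_apply]
  have h2 : ∀ w, xx l m s (sh (up l w) (cut l φ)) (sh w B) =
      ∑ f ∈ lbox l, φ f * xx l m s (sh (up l w) (Pi.single f 1)) (sh w B) := fun w => by
    rw [h1, ← shL_apply, map_sum, map_sum, LinearMap.sum_apply]
    simp only [map_smul, LinearMap.smul_apply, smul_eq_mul, shL_apply]
  simp only [h2]
  rw [sum_comm]
  refine (abs_sum_le_sum_abs _ _).trans (sum_le_sum fun f hf => ?_)
  rw [← mul_sum, abs_mul]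
  by_cases ht : tree l f
  · simp [hφ f ht]
  · exact mul_le_mul_of_nonneg_left (hP.stat B δ f hf ht hB) (abs_nonneg _)

theorem decomp {Y : Finset St} (hY : ∀ y ∉ Y, Sm l 0 (sh (up l y) φ)) :
    φ = ∑ z ∈ Y, sh (-up l z) (cut l (sh (up l z) φ)) := by
  funext e
  have h0 : (e.1 + -up l (yo l e.1), e.2) ∈ lbox l :=
    mem_lbox.2 (by simpa only [← sub_eq_add_neg] using sub_up_mem l e.1)
  rw [Finset.sum_apply, sum_eq_single (yo l e.1)]
  · simp [sh, cut_of_mem _ h0]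
  · refine fun z _ hz => cut_of_not_mem _ fun h => hz ?_
    have := yo_add_up (mem_lbox.1 h) z
    rw [neg_add_cancel_right] at this
    exact this.symm
  · intro h
    exact (cut_of_mem _ h0).trans (sm_zero.1 (hY _ h) _ h0)

theorem cross_sum {k : BF} (hk : Rng (3 * l + 1) r k) {Y S : Finset St}
    (hY : ∀ y ∉ Y, Sm l 0 (sh (up l y) φ)) (hS : ∀ z ∈ Y, ∀ w ∈ box 2, z + w ∈ S) (B : V) :
    ∑ y ∈ S, k (sh (up l y) φ) (sh y B) =
      ∑ z ∈ Y, ∑ w ∈ box 2, k (sh (up l w) (cut l (sh (up l z) φ))) (sh w (sh z B)) := by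
  have h1 : ∀ y, k (sh (up l y) φ) (sh y B) = ∑ z ∈ Y,
      k (sh (up l (y - z)) (cut l (sh (up l z) φ))) (sh (y - z) (sh z B)) := fun y => by
    conv_lhs => rw [decomp hY, ← shL_apply, map_sum, map_sum, LinearMap.sum_apply]
    simp only [shL_apply, sh_sh, sub_add_cancel, up_sub, sub_eq_add_neg (up l y)]
  simp only [h1]
  rw [sum_comm]
  refine sum_congr rfl fun z hz => ?_
  have h2 := Li.sum_shift (box 2) z fun y =>
    k (sh (up l (y - z)) (cut l (sh (up l z) φ))) (sh (y - z) (sh z B))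
  simp only [add_sub_cancel_left] at h2
  rw [h2]
  refine (sum_subset (fun y hy => ?_) fun y _ hy => hk _ _ (Or.inl fun e he => ?_)).symm
  · obtain ⟨w, hw, rfl⟩ := mem_image.1 hy
    exact hS z hz w hw
  · refine cut_of_not_mem _ fun h => hy (mem_image.2 ⟨y - z, ?_, by simp⟩)
    have h3 := yo_of_mem (mem_lbox.1 h)
    rw [yo_up_add] at h3
    rw [eq_neg_of_add_eq_zero_right h3]
    exact neg_mem_box (box_mono one_le_two (yo_mem_one (mem_lbox.1 he)))

theorem loc_fin {T : Finset St} (h : ∀ e : Lk, e.1 ∉ T → a e = 0) (l R : ℕ) :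
    ∃ Y : Finset St, ∀ y ∉ Y, Sm R 0 (sh (up l y) a) :=
  ⟨(T + box R).image (yo l), fun y hy => sm_zero.2 fun e he => h _ fun hT => hy (mem_image.2
    ⟨up l y, mem_add.2 ⟨_, hT, _, neg_mem_box (mem_lbox.1 he), by simp⟩, yo_up l y⟩)⟩

/-- the fluctuation field -/
def fl (l : ℕ) (s : V →ₗ[ℝ] V) (b : V) : V := TG l (b - mu l s (avgA l b))

theorem fl_sh (l : ℕ) (s : V →ₗ[ℝ] V) (y : St) (b : V) :
    fl l s (sh (up l y) b) = sh (up l y) (fl l s b) := by
  rw [fl, avgA_sh, mu_sh, ← sh_sub, TG_sh, fl]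

theorem split (hs : ∀ a b, m a b = m b a) (hg : ∀ u b, m (gr u) b = 0) (l : ℕ) (s : V →ₗ[ℝ] V)
    (b : V) : ∑ x ∈ box l, m (sh x b) (sh x b) = mn l m s (avgA l b) (avgA l b) +
      2 * xx l m s (fl l s b) (avgA l b) + hh l m (fl l s b) (fl l s b) := by
  set B := avgA l b with hB
  obtain ⟨u, hu⟩ : ∃ u, fl l s b = b - mu l s B - gr u := ⟨_, rfl⟩
  have h1 : avgA l (gr u) = 0 := by
    have := avgA_TG l (b - mu l s B)
    rwa [← fl, hu, map_sub, sub_eq_self] at this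
  have h2 : (b, B) = (mu l s B, B) + (fl l s b, 0) + (gr u, 0) := by
    rw [hu, Prod.mk_add_mk, Prod.mk_add_mk, add_zero, add_zero]
    congr 1
    funext e
    simp only [Pi.add_apply, Pi.sub_apply]
    ring
  have h3 : enB l m (b, B) (b, B) = ∑ x ∈ box l, m (sh x b) (sh x b) := by
    simp [enB_apply, hB]
  rw [← h3, h2, mn_apply, xx_apply, hh_apply]
  simp only [map_add, LinearMap.add_apply, enB_gr hg h1, enB_symm hs l _ (gr u, 0),
    enB_symm hs l (mu l s B, B) (fl l s b, 0)]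
  ring

theorem LL_mul (l n : ℕ) : (LL (2 * n * l + n + l) : ℝ) = LL l * LL n := by
  simp only [LL]; push_cast; ring

theorem new_upper (hm : Inv n R cL cU m) (cL1 : cL ≤ 20) (hR : R ≤ l) (hl : 5000 ≤ l)
    (hP : Pre l r c τ m s) (r2 : 2 ≤ r) (rl : r ≤ l) (S : Finset St)
    {T : Finset St} (h : ∀ e : Lk, e.1 ∉ T → a e = 0) :
    ∑ y ∈ S, mn l m s (sh y (avgA l (avgA n a))) (sh y (avgA l (avgA n a))) ≤
      (cU + (LL l : ℝ) ^ 20 * τ ^ 2) * (LL n * ∑ x ∈ T + box 1, nd a x) := by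
  have hL := LL_posR l
  set X := LL n * ∑ x ∈ T + box 1, nd a x with hX0
  have X0 : 0 ≤ X := mul_nonneg (LL_posR n).le (sum_nonneg fun _ _ => Li.nd_nonneg _ _)
  have hX : ∀ U : Finset St, ∑ x ∈ U, nd (avgA l (avgA n a)) x ≤ LL l * X := fun U => by
    rw [avgA_avgA, hX0, ← mul_assoc, ← LL_mul]; exact Li.sum_nd_avgA _ h U
  have hup := fun U => (hm.upper a U T h).trans_eq (mul_assoc _ _ _)
  obtain ⟨Tb, hTb⟩ := loc_fin h n (3 * n + 1)
  have hb : ∀ e : Lk, e.1 ∉ Tb → avgA n a e = 0 := fun e he => by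
    simpa [avgA_sh, sh] using avgA_bd0 (hTb _ he) e.2
  generalize avgA n a = b at *
  obtain ⟨Y, hY⟩ := loc_fin hb l (r * LL l + 3 * l + 1)
  have hY2 : ∀ y ∉ Y, Sm l 0 (sh (up l y) (fl l s b)) := fun y hy => by
    have h1 := mu_sm hP r2 (avgA_sm ((hY y hy).mono (Nat.le_succ _) le_rfl))
    rw [mul_zero, mul_zero] at h1
    have h2 : Sm (3 * l + 1) 0 (sh (up l y) b - mu l s (avgA l (sh (up l y) b))) :=
      sm_zero.2 fun e he => by
        rw [Pi.sub_apply, sm_zero.1 ((hY y hy).mono (by omega) le_rfl) e he, sm_zero.1 h1 e he,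
          sub_zero]
    rw [← fl_sh, ← mul_zero (16 * l + 1 : ℝ)]
    exact TG_sm h2
  set B := avgA l b
  set φ := fl l s b with hφ
  have hφ0 : ∀ z f, tree l f → sh (up l z) φ f = 0 := fun z f hf => by
    rw [hφ, ← fl_sh]; exact TG_tree _ hf
  set S' := S ∪ (box 3 + Y)
  have h1 : ∑ y ∈ S', mn l m s (sh y B) (sh y B) + 2 * ∑ y ∈ S', xx l m s (sh (up l y) φ) (sh y B) +
      ∑ y ∈ S', hh l m (sh (up l y) φ) (sh (up l y) φ) ≤ cU * X := by
    refine le_of_eq_of_le ?_ (hup (Blk l S'))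
    rw [sum_Blk, mul_sum, ← sum_add_distrib, ← sum_add_distrib]
    refine sum_congr rfl fun y _ => ?_
    have := split hm.symm hm.gauge l s (sh (up l y) b)
    simp only [sh_sh, avgA_sh, fl_sh] at this
    exact this.symm
  have h2 : ∑ y ∈ S, mn l m s (sh y B) (sh y B) ≤ ∑ y ∈ S', mn l m s (sh y B) (sh y B) :=
    sum_le_sum_of_subset_of_nonneg subset_union_left fun _ _ _ => enB_psd hm.psd _ _
  set H := ∑ y ∈ S', hh l m (sh (up l y) φ) (sh (up l y) φ)
  have h3 : ∑ z ∈ Y, ∑ f ∈ lbox l, sh (up l z) φ f ^ 2 ≤ (LL l : ℝ) ^ 11 * (7 ^ 3 * H) := by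
    refine (sum_le_sum fun z _ => coer hm cL1 (by omega) (hφ0 z)).trans ?_
    rw [← mul_sum]
    refine mul_le_mul_of_nonneg_left ?_ (by positivity)
    simp only [sh_sh, ← up_add]
    refine (sum_conv_le (h := fun y => hh l m (sh (up l y) φ) (sh (up l y) φ)) (M := H)
      fun U hU => sum_le_sum_of_subset_of_nonneg (hU.trans subset_union_right)
        fun _ _ _ => enB_psd hm.psd _ _).trans_eq ?_
    rw [card_box]; norm_num
  set D : St → ℝ := fun z => ∑ x ∈ box (r / 3), nd (sh z B) x with hD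
  have D0 : ∀ z, 0 ≤ D z := fun z => sum_nonneg fun _ _ => Li.nd_nonneg _ _
  have h4 : ∑ z ∈ Y, D z ≤ (LL l : ℝ) ^ 3 * (LL l * X) := by
    simp only [hD, Li.nd_sh]
    refine (sum_conv_le fun U _ => hX U).trans (mul_le_mul_of_nonneg_right ?_ (by positivity))
    rw [← card_box_LL]
    exact_mod_cast card_le_card (Li.box_mono (by omega))
  set K := (LL l : ℝ) ^ 11 * 7 ^ 3 with hK
  have K0 : 0 < K := by positivity
  have h5 : 2 * |∑ y ∈ S', xx l m s (sh (up l y) φ) (sh y B)| ≤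
      ∑ z ∈ Y, ∑ f ∈ lbox l, (K⁻¹ * sh (up l z) φ f ^ 2 + K * τ ^ 2 * D z) := by
    rw [cross_sum (xx_rng hm.rng hR hm.symm hP r2) hY2 fun z hz w hw => mem_union_right _ (by
      rw [add_comm z]; exact add_mem_add (box_mono (by omega) hw) hz)]
    refine (mul_le_mul_of_nonneg_left ((abs_sum_le_sum_abs _ _).trans (sum_le_sum fun z _ =>
      cross_one hP (hφ0 z) (Li.cv_sqrt _ _))) zero_le_two).trans ?_
    simp only [mul_sum]
    refine sum_le_sum fun z _ => sum_le_sum fun f _ => ?_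
    have e : K⁻¹ * sh (up l z) φ f ^ 2 + K * τ ^ 2 * √(D z) ^ 2 -
        2 * (|sh (up l z) φ f| * (τ * √(D z))) =
        K⁻¹ * (|sh (up l z) φ f| - K * τ * √(D z)) ^ 2 := by
      rw [← sq_abs (sh (up l z) φ f)]; field_simp; ring
    have e0 : 0 ≤ K⁻¹ * (|sh (up l z) φ f| - K * τ * √(D z)) ^ 2 := by positivity
    rw [Real.sq_sqrt (D0 z)] at e
    linarith
  have h6 : ((lbox l).card : ℝ) = (LL l : ℝ) ^ 3 * 3 := by simp [card_lbox, LL]
  simp only [sum_add_distrib, ← mul_sum, sum_const, nsmul_eq_mul, h6] at h5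
  have h7 : K⁻¹ * ∑ z ∈ Y, ∑ f ∈ lbox l, sh (up l z) φ f ^ 2 ≤ H := by
    rw [inv_mul_le_iff₀ K0, hK, mul_assoc]; exact h3
  have h8 := mul_le_mul_of_nonneg_left h4 (by positivity : 0 ≤ (LL l : ℝ) ^ 3 * 3 * (K * τ ^ 2))
  have h9 : (1029 : ℝ) ≤ LL l := by
    have : 1029 ≤ LL l := by simp only [LL]; omega
    exact_mod_cast this
  have h10 := mul_le_mul_of_nonneg_right (show (1029 : ℝ) ≤ (LL l : ℝ) ^ 2 by nlinarith)
    (by positivity : 0 ≤ (LL l : ℝ) ^ 18 * τ ^ 2 * X)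
  have h11 := neg_abs_le (∑ y ∈ S', xx l m s (sh (up l y) φ) (sh y B))
  rw [hK] at h8 h5 h7
  linarith

theorem lin_fin (c0 : ℕ) (C : ℝ) : ∃ c1 : ℕ, ∀ (l r n c : ℕ) (τ cL cU : ℝ) (m : BF)
    (s : V →ₗ[ℝ] V), c1 ≤ c → c1 ≤ r → 3 * r ≤ l → 1 ≤ cL → cL ≤ 20 → 0 ≤ τ →
    Inv n (3 * r) cL cU m → U1 C m → Pre l r c0 τ m s → Lin l r c τ m s ∧
      Inv (2 * n * l + n + l) r (cL * (1 + 1 / LL l)) (cU + (LL l : ℝ) ^ c1 * τ ^ 2)
        (mr l m s) := by
  refine ⟨2 * c0 + 5000 + ⌈160000 * |C|⌉₊, fun l r n c τ cL cU m s hc hr hl cL1 cL2 _ hm hU hP => ?_⟩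
  have r2 : 2 ≤ r := by omega
  have L2 : (2 : ℝ) ≤ LL l := by
    have : 2 ≤ LL l := by simp only [LL]; omega
    exact_mod_cast this
  have L1 : (1 : ℝ) ≤ LL l := by linarith
  have hC : 160000 * |C| + 16 ≤ LL l := by
    have : ⌈160000 * |C|⌉₊ + 16 ≤ LL l := by simp only [LL]; omega
    have h : (⌈160000 * |C|⌉₊ : ℝ) + 16 ≤ LL l := by exact_mod_cast this
    linarith [Nat.le_ceil (160000 * |C|)]
  have pw : ∀ {k j : ℕ}, k ≤ j → (LL l : ℝ) ^ k ≤ (LL l : ℝ) ^ j := pow_le_pow_right₀ L1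
  have es := enB_symm hm.symm l
  have ep := enB_psd hm.psd l
  have b1 : ∀ a δ, Sm (3 * l + 1) δ a → enB l m (a, 0) (a, 0) ≤ (LL l : ℝ) ^ c * δ ^ 2 :=
    fun a δ h => (enB_bd hU hm.rng hl hC h fun _ => by simpa using h.nonneg).trans
      (mul_le_mul_of_nonneg_right (pw (by omega)) (sq_nonneg _))
  have b2 : ∀ B δ, Sm r δ B → enB l m (mu l s B, B) (mu l s B, B) ≤ (LL l : ℝ) ^ c * δ ^ 2 :=
    fun B δ h => by
      have d0 := h.nonneg
      have h1 : (1 : ℝ) ≤ (LL l : ℝ) ^ c0 := one_le_pow₀ L1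
      refine (enB_bd hU hm.rng hl hC (mu_sm hP r2 h) fun μ =>
        (h _ (mem_lbox.2 (zero_mem_box r))).trans (by nlinarith)).trans ?_
      rw [mul_pow, ← mul_assoc]
      refine mul_le_mul_of_nonneg_right (le_trans ?_ (pw (show 5 + (c0 + 1) * 2 ≤ c by omega)))
        (sq_nonneg _)
      rw [pow_add, pow_mul, pow_succ _ c0]
      gcongr
      nlinarith
  have cs : ∀ p q (δ δ' : ℝ), 0 ≤ δ → 0 ≤ δ' → enB l m p p ≤ (LL l : ℝ) ^ c * δ ^ 2 →
      enB l m q q ≤ (LL l : ℝ) ^ c * δ' ^ 2 → |enB l m p q| ≤ (LL l : ℝ) ^ c * δ * δ' :=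
    fun p q δ δ' h1 h2 h3 h4 => abs_le.2 (abs_le_of_sq_le_sq' ((cs_one _ es ep p q).trans
      ((mul_le_mul h3 h4 (ep q) (by positivity)).trans_eq (by ring))) (by positivity))
  have mg := mn_rng hm.rng hl hm.symm hP r2
  refine ⟨⟨hm.symm, hm.psd, hm.gauge, hP.s_tree, hP.s_gauge, hP.s_rng, fun a δ f h =>
    (hP.s_bd a δ f h).trans (mul_le_mul_of_nonneg_right (pw (by omega)) h.nonneg), hP.stat,
    hP.energy, hP.point, fun B δ h => (hP.grad B δ h).trans ?_, fun a h => (coer hm cL2 (by omega) h).trans (mul_le_mul_of_nonneg_right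
      (pw (by omega)) (sum_nonneg fun _ _ => ep _)), fun a b h => ?_,
    xx_rng hm.rng hl hm.symm hP r2, mg, fun a => ?_,
    fun a B δ δ' h h' => cs _ _ _ _ h.nonneg h'.nonneg (b1 a δ h) (b2 B δ' h'),
    fun B B' δ δ' h h' => cs _ _ _ _ h.nonneg h'.nonneg (b2 B δ h) (b2 B' δ' h')⟩,
    fun a b => congrArg ((LL l : ℝ) * ·) (es _ _), fun a b h => by rw [mr_apply, mg a b h, mul_zero],
    fun u B => ?_, fun B => mul_nonneg (LL_posR l).le (ep _), new_lower hm cL1 (by omega) s,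
    fun a S T h => ?_⟩
  · have : (1 : ℝ) ≤ r := by exact_mod_cast one_le_two.trans r2
    gcongr
    omega
  · rw [hh_apply]
    rcases h with h | h
    · exact enB_zero hm.rng hl (sm_zero.2 h) (fun _ => rfl) _
    · rw [es]
      exact enB_zero hm.rng hl (sm_zero.2 h) (fun _ => rfl) _
  · have := b1 a (√(∑ f ∈ lbox (3 * l + 1), a f ^ 2)) fun e he => Real.abs_le_sqrt
      (single_le_sum (f := fun f => a f ^ 2) (fun _ _ => sq_nonneg _) he)
    rwa [Real.sq_sqrt (sum_nonneg fun _ _ => sq_nonneg _)] at this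
  · have h1 : mu l s (gr u) = gr fun x => u (yo l x) := by
      funext f
      simp [mu_apply, iz_gr, sh_gr, hP.s_gauge]
    rw [mr_apply, mn_apply, h1]
    refine mul_eq_zero_of_right _ (enB_gr hm.gauge ?_ _)
    rw [avgA_gr]
    congr 1
    funext y
    have := avg0_sub_yo l (fun x => u (yo l x)) u y
    simp only [sub_self, avg0, sum_const_zero, mul_zero] at this
    exact (sub_eq_zero.1 this.symm)
  · simp only [← avgA_avgA, mr_apply, ← mul_sum]
    rw [LL_mul, mul_assoc, mul_assoc, mul_left_comm]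
    refine mul_le_mul_of_nonneg_left ((new_upper hm cL2 hl (by omega) hP r2 (by omega) S h).trans
      (mul_le_mul_of_nonneg_right ?_ (mul_nonneg (LL_posR n).le
        (sum_nonneg fun _ _ => Li.nd_nonneg _ _)))) (LL_posR l).le
    have := mul_le_mul_of_nonneg_right (pw (show 20 ≤ 2 * c0 + 5000 + ⌈160000 * |C|⌉₊ by omega))
      (sq_nonneg τ)
    linarith

end Pool.Agent.Lib.MP_7f377f_mp.RG.D3.La
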