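import Pool.Agent.Lib.MP_7f377f_mp.R3LinK
import Pool.Agent.Lib.MP_7f377f_mp.R3LinD

namespace Pool.Agent.Lib.MP_7f377f_mp.Lin.D3

noncomputable section

open Finset hiding box
open Classical Function RG.D3 RG.D3.La
open scoped InnerProductSpace Pointwise

variable {l R n k : ℕ} {m : BF} {δ cL cU : ℝ} {sol : F1 →ₗ[ℝ] F1}

def WW : ℝ := GG ^ 6 / de ^ 2

lemma WW_ge : GG ^ 2 / de ^ 2 ≤ WW ∧ GG ^ 2 ≤ WW ∧ KK ^ 2 ≤ WW ∧ 1 ≤ WW * de := by
  have hG := GG_ge.1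
  have d0 := de_pos
  have h1 : GG ^ 2 / de ^ 2 ≤ WW := by unfold WW; gcongr; norm_num
  have h2 : GG ^ 2 ≤ WW := (le_div_self (by positivity) (by positivity)
    (pow_le_one₀ d0.le de_one)).trans h1
  refine ⟨h1, h2, (pow_le_pow_left₀ (by linarith [KK_one]) GG_ge.2.2.2 2).trans h2, ?_⟩
  have := (div_le_iff₀ (by positivity)).1 h1
  nlinarith [mul_le_mul_of_nonneg_left de_one (by nlinarith : 0 ≤ WW * de)]

lemma Ctx.ker_bd (h : Ctx l R n cL cU m sol) {a : RG.D3.V} {r : ℕ} (ha : Sm r δ a)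
    (hk : 2 * k + 1 ≤ r) (f : Lk) :
    |(sg l sol ∘ₗ PP k) a f| ≤ (4032 * GG ^ 2 * r ^ 3 * LL l ^ 2 + 12 * r) * δ := by
  have h0 := ha.nonneg
  have hG := GG_ge.1
  have hL := LL_posR l
  have k1 : (2 * k + 1 : ℝ) ≤ r := by exact_mod_cast hk
  have k2 : (k : ℝ) ≤ r := by linarith [(k.cast_nonneg : (0 : ℝ) ≤ k)]
  have h1 : ∀ e, |toV (PP k a) e| ≤ 12 * r * δ := fun e => by
    rw [PP_ap]
    split_ifs with he
    · exact (Sm_cg (ha.mono (R' := k + 1) (by omega) le_rfl).cv e (RG.D3.mem_lbox.2 he)).trans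
        (by nlinarith)
    · rw [abs_zero]; positivity
  have h2 : s1 0 1 (PP k a) ≤ (24 * r ^ 3 * δ) ^ 2 := by
    refine (s1_le (K := (12 * r * δ) ^ 2) (adm_zero le_rfl)
      (fun e he => by rw [PP_ap, if_neg he]) fun e _ => by
      simpa using sq_le_sq' (abs_le.1 (h1 e)).1 (abs_le.1 (h1 e)).2).trans ?_
    calc _ ≤ 4 * ((r : ℝ) ^ 4 * (12 * r * δ) ^ 2) := by gcongr
      _ = _ := by ring
  have h3 := TG_bd l (toV (sol (PP k a))) f fun e _ =>
    h.pt (adm_zero de_pos.le) (by positivity) h2 (by simp)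
  have h4 : |iz l (toV (PP k a)) f| ≤ 12 * r * δ := by
    rw [iz_apply]
    split_ifs
    · rw [abs_zero]; positivity
    · exact h1 _
  have : (16 * l + 1 : ℝ) ≤ 8 * LL l := by simp only [LL]; push_cast; linarith
  exact (abs_sub _ _).trans ((add_le_add (h3.trans (mul_le_mul_of_nonneg_right this
    (by positivity))) h4).trans_eq (by ring))

theorem pre_main : ∃ c : ℕ, 60 ≤ c ∧ ∀ (l r n : ℕ) (cL cU : ℝ) (m : BF), c ≤ r → r ^ c ≤ l →
    (LL l : ℝ) ^ c * Real.exp (-(r / c)) ≤ 1 → cL ≤ 20 → cU ≤ 20 → Inv n (3 * r) cL cU m →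
    ∃ s, Pre l r c ((LL l : ℝ) ^ c * Real.exp (-(r / c))) m s := by
  obtain ⟨c, c60, cW⟩ : ∃ c : ℕ, 60 ≤ c ∧ 2 ^ 40 * WW ≤ c :=
    ⟨⌈2 ^ 40 * WW⌉₊ + 60, by omega, (Nat.le_ceil _).trans (by simp)⟩
  refine ⟨c, c60, fun l r n cL cU m hr hl hτ hc hU hm => ?_⟩
  obtain ⟨W1, W2, W3, W4⟩ := WW_ge
  have hG := GG_ge.1
  have d0 := de_pos
  have r60 : r ^ 60 ≤ l := (Nat.pow_le_pow_right (by omega) c60).trans hl
  have r3 : 3 * r ≤ l := by
    have := (Nat.pow_le_pow_right (by omega) (by norm_num : 2 ≤ 60)).trans r60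
    nlinarith
  have rc : (c : ℝ) ≤ r := by exact_mod_cast hr
  have r1 : (60 : ℝ) ≤ r := by exact_mod_cast c60.trans hr
  have rW := cW.trans rc
  have hL1 : (1 : ℝ) ≤ LL l := NN_one l
  have rL : ∀ j ≤ 60, (r : ℝ) ^ j ≤ LL l := fun j hj => by
    have : r ^ j ≤ LL l := (Nat.pow_le_pow_right (by omega) hj).trans (by simp only [LL]; omega)
    exact_mod_cast this
  have Lc : ∀ j ≤ 60, (LL l : ℝ) ^ j ≤ LL l ^ c := fun j hj => pow_le_pow_right₀ hL1 (by omega)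
  obtain ⟨sol, hs⟩ := exists_sol (l := l) hm hc (by omega)
  have h : Ctx l (3 * r) n cL cU m sol :=
    ⟨hm, hc, hU, r3, by omega, fun B => (hs B).1, fun B => (hs B).2⟩
  obtain ⟨E, hE⟩ : ∃ E, E = Real.exp (-(r / c)) := ⟨_, rfl⟩
  have E0 : 0 < E := hE ▸ Real.exp_pos _
  rw [← hE] at hτ ⊢
  obtain ⟨k, hk⟩ : ∃ k, k + 1 = r / 4 := ⟨r / 4 - 1, by omega⟩
  have dec : ∀ {B δ}, Cv (r / 3) δ B → ∃ g e, RG.D3.mu l (sg l sol ∘ₗ PP k) B =
      toV (sol (PP (r / 3) B)) + gr g + e ∧ avgA l (gr g) = B - cg B ∧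
      Sm (3 * LL l + l) (LL l ^ 3 * E * δ) e := fun {B δ} hB => by
    obtain ⟨g, e, h1, h2, h3⟩ := h.dec (k := k) (Sm_cg hB) (by omega)
    refine ⟨g, e, h1, h2, h3.mono le_rfl ?_⟩
    have h0 := hB.nonneg
    have k1 : (2 * (r / 3 : ℕ) + 7 : ℝ) ≤ r := by norm_cast; omega
    have k2 : (8 * k + 9 : ℝ) ≤ 3 * r := by norm_cast; omega
    have k3 : (3 * (r / 3 : ℕ) : ℝ) ≤ r := by norm_cast; omega
    have k4 : (r : ℝ) ≤ 4 * k + 8 := by norm_cast; omega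
    have k5 : Real.exp (-de * k) ≤ 3 * E := by
      have c0 : (0 : ℝ) < c := by norm_cast; omega
      have : (r : ℝ) / c ≤ de * r / 4 := by
        rw [div_le_div_iff₀ c0 (by norm_num)]
        nlinarith [mul_le_mul_of_nonneg_right cW d0.le]
      rw [hE]
      refine le_trans ?_ (mul_le_mul_of_nonneg_right (exp_le_three le_rfl) (Real.exp_pos _).le)
      rw [← Real.exp_add]
      exact Real.exp_le_exp.2 (by nlinarith [de_le])
    calc _ ≤ 168 * GG ^ 2 * LL l ^ 2 * (2 * r ^ 2 * (3 * E) * (3 * r * (r * δ))) := by gcongr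
      _ = 3024 * GG ^ 2 * r ^ 4 * (LL l ^ 2 * E * δ) := by ring
      _ ≤ r * r ^ 4 * (LL l ^ 2 * E * δ) := by gcongr; linarith
      _ ≤ LL l * (LL l ^ 2 * E * δ) := by gcongr; rw [← pow_succ']; exact rL _ (by norm_num)
      _ = _ := by ring
  have small : ∀ {δ : ℝ}, 0 ≤ δ → LL l ^ 3 * (LL l ^ 3 * E * δ) ≤ δ := fun {δ} h0 => by
    nlinarith [mul_le_mul_of_nonneg_right ((mul_le_mul_of_nonneg_right (Lc 6 (by norm_num))
      E0.le).trans hτ) h0]
  have hL := LL_posR l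
  have hS : ∀ {B δ}, Cv (r / 3) δ B → s1 (rad (r / 3 : ℕ)) 1 (cq l • PP (r / 3) B) ≤
      36 * r ^ 4 * (δ ^ 2 / LL l) / de ^ 2 := fun {B δ} hB => by
    have k1 : (2 * (r / 3 : ℕ) + 1 : ℝ) ≤ r := by norm_cast; omega
    refine (s1_cq _).trans_le ((div_le_div_of_nonneg_right (s1_rad hB) hL.le).trans ?_)
    calc _ ≤ 4 * ((r : ℝ) ^ 4 * (3 * δ / de) ^ 2) / LL l := by gcongr
      _ = _ := by ring
  have ad := adm_rad (r / 3 : ℕ).cast_nonneg
  have hA : ∀ {B δ}, Cv (r / 3) δ B → s2 (rad (r / 3 : ℕ)) (LL l) (sol (PP (r / 3) B)) ≤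
      144 * WW * (r ^ 4 * (δ ^ 2 / LL l)) := fun {B δ} hB =>
    ((s2_GG hm hc h.hl (ad.mono de_one) _).trans
      (agmon hm hc hU r3 h.hl (h.we _) rfl (h.gd _) ad).1).trans
      ((mul_le_mul_of_nonneg_left (hS hB) (by positivity)).trans (by
      calc _ = 144 * (GG ^ 2 / de ^ 2) * (r ^ 4 * (δ ^ 2 / LL l)) := by ring
        _ ≤ _ := by gcongr))
  have hD : ∀ {B δ}, Cv (r / 3) δ B → ∀ κ, s2 (rad (r / 3 : ℕ)) (LL l)
      (fun ρ => Dm κ (sol (PP (r / 3) B) ρ)) ≤ 1152 * WW * (r ^ 4 * (δ ^ 2 / LL l / LL l)) :=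
    fun {B δ} hB κ => (agmonD hm hc hU r3 h.hl (h.we _) rfl (h.gd _) ad κ).trans
      ((mul_le_mul_of_nonneg_left (div_le_div_of_nonneg_right (hS hB) hL.le)
      (by positivity)).trans_eq (by rw [WW]; ring))
  have W0 : 0 ≤ WW := (sq_nonneg _).trans W2
  have r5 : (12288 : ℝ) ≤ r ^ 5 := le_trans (by norm_num) (pow_le_pow_left₀ (by norm_num) r1 5)
  have dm : ∀ (a e : RG.D3.V) (g : St → ℝ), dd (a + gr g + e) = dd (a + e) := fun a e g => by
    rw [La.dd_add, La.dd_add, La.dd_gr, add_zero, La.dd_add]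
  refine ⟨sg l sol ∘ₗ PP k, fun a f hf => ?_, ker_gr, fun a ha => ?_, fun a δ f ha => ?_,
    fun B δ f hf _ hB => ?_, fun B δ hB => ?_, fun B δ hB x hx μ ν => ?_, fun B δ hB => ?_⟩
  · rw [LinearMap.comp_apply, sg_ap, Pi.sub_apply, TG_tree _ hf, iz_tree _ hf, sub_zero]
  · have : PP k a = PP k 0 := funext fun μ => sum_congr rfl fun x hx => by
      rw [cg_agr (b := 0) (hk ▸ ha) (x, μ) (RG.D3.mem_lbox.2 hx)]
    rw [LinearMap.comp_apply, this, map_zero, map_zero]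
  · refine (h.ker_bd ha (by omega) f).trans (mul_le_mul_of_nonneg_right (le_trans ?_
      (Lc 4 (by norm_num))) ha.nonneg)
    have h1 := rL 2 (by norm_num)
    have h2 : (60 : ℝ) ≤ LL l := by nlinarith
    have h3 : 4032 * GG ^ 2 * r ^ 3 ≤ LL l := by
      calc _ ≤ r * (r : ℝ) ^ 3 := by gcongr; linarith
        _ ≤ _ := by rw [← pow_succ']; exact rL _ (by norm_num)
    have h4 : 12 * (r : ℝ) ≤ LL l ^ 3 := le_trans (by nlinarith) (le_self_pow₀ hL1 (by norm_num))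
    nlinarith [mul_le_mul_of_nonneg_right h3 (sq_nonneg (LL l : ℝ)),
      mul_le_mul_of_nonneg_right h2 (pow_pos (LL_posR l) 3).le]
  · obtain ⟨g, e, h1, h2, h3⟩ := dec hB
    have h0 := hB.nonneg
    refine (h.stat h1 (fun b hb => ?_) h3 hf).trans ?_
    · rw [h2, PP_ap, if_pos (RG.D3.box_mono (by omega) hb)]; simp
    have h4 : 625 * (5120 * KK ^ 2 * (2 * (3 * r : ℕ) + 3) ^ 3 + 4) ≤ LL l := by
      have : 1 ≤ KK ^ 2 * r ^ 3 := one_le_mul_of_one_le_of_one_le (one_le_pow₀ KK_one)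
        (one_le_pow₀ (by linarith))
      calc _ ≤ 625 * (5120 * KK ^ 2 * (7 * r) ^ 3 + 4 * (KK ^ 2 * r ^ 3)) := by
            gcongr
            · push_cast; linarith
            · linarith
        _ ≤ 2 ^ 40 * KK ^ 2 * r ^ 3 := by nlinarith
        _ ≤ r * r ^ 3 := by gcongr; linarith
        _ ≤ _ := by rw [← pow_succ']; exact rL _ (by norm_num)
    calc _ = 625 * (5120 * KK ^ 2 * (2 * (3 * r : ℕ) + 3) ^ 3 + 4) * LL l ^ 7 * E * δ := by ring
      _ ≤ LL l * LL l ^ 7 * E * δ := by gcongr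
      _ ≤ _ := by gcongr; rw [← pow_succ']; exact Lc _ (by norm_num)
  · obtain ⟨g, e, h1, -, h3⟩ := dec hB
    have h0 := hB.nonneg
    have h4 := (sum_le_sum_of_subset_of_nonneg (box_sub l) fun _ _ _ => Li.nd_nonneg _ _).trans
      ((wloc (Nat.cast_nonneg _) _).trans (mul_le_mul_of_nonneg_left (hA hB) (by norm_num)))
    have h5 := sum_le_card_nsmul (box l) _ _ fun x hx =>
      nd_le_of_cv (h3.mono (R' := l + 1) (by simp only [LL]; omega) le_rfl).cv hx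
    rw [nsmul_eq_mul, card_box_LL] at h5
    have h6 : LL l ^ 3 * (LL l ^ 3 * E * δ) ^ 2 ≤ δ ^ 2 / LL l := by
      rw [le_div_iff₀ hL]
      refine le_trans ?_ (pow_le_pow_left₀ (by positivity) (small h0) 2)
      rw [mul_pow _ (_ * δ), mul_right_comm, ← pow_succ, ← pow_mul]
      gcongr; norm_num
    have h7 := mul_le_mul_of_nonneg_right r5 (by positivity : 0 ≤ δ ^ 2 / LL l)
    have h8 := mul_le_mul_of_nonneg_right rW (by positivity : 0 ≤ (r : ℝ) ^ 4 * (δ ^ 2 / LL l))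
    have h9 : 0 ≤ WW * (r ^ 4 * (δ ^ 2 / LL l)) := by positivity
    have : 0 ≤ δ ^ 2 / LL l := by positivity
    simp only [h1, nd, dm]
    refine (sum_le_sum fun x _ => nd_add_le _ _ x one_pos).trans ?_
    rw [sum_add_distrib, ← mul_sum, ← mul_sum, mul_div_assoc]
    linarith
  · obtain ⟨g, e, h1, -, h3⟩ := dec hB
    have h0 := hB.nonneg
    have r0 : (0 : ℝ) < r := by linarith
    have q0 := rt_pos l
    have h4 := point_le (r / 3 : ℕ).cast_nonneg (sol (PP (r / 3) B)) (N := r ^ 30)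
      (pow_pos (by omega) _) (by exact_mod_cast rL 30 (by norm_num)) hx μ ν
    have h5 := (hD hB 0).trans (mul_le_mul_of_nonneg_left (mul_le_mul_of_nonneg_left
      (div_le_div_of_nonneg_left (by positivity) (by positivity) (rL 60 le_rfl)) (by positivity))
      (by positivity))
    have h6 : dd (toV (sol (PP (r / 3) B))) x μ ν ^ 2 ≤ (δ / (√(LL l) * r ^ 12) / 2) ^ 2 := by
      refine h4.trans ((add_le_add (mul_le_mul_of_nonneg_left (mul_le_mul_of_nonneg_left (hA hB)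
        (by norm_num)) (by positivity)) (mul_le_mul_of_nonneg_left (mul_le_mul_of_nonneg_left h5
        (by norm_num)) (by positivity))).trans ?_)
      calc _ = 17006112 * WW * (δ ^ 2 / LL l / r ^ 26) := by push_cast; field_simp; ring
        _ ≤ r ^ 2 / 4 * (δ ^ 2 / LL l / r ^ 26) := by gcongr; nlinarith
        _ = _ := by rw [div_pow, div_pow, mul_pow, ← rt_sq]; field_simp; ring
    have h7 := (h3.mono (R' := l + 1) (by simp only [LL]; omega) le_rfl).cv x hx μ ν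
    have h8 : 4 * (LL l ^ 3 * E * δ) ≤ δ / (√(LL l) * r ^ 12) / 2 := by
      rw [div_div, le_div_iff₀ (by positivity)]
      have h9 : (r : ℝ) ^ 12 * 8 ≤ LL l ^ 2 := by
        nlinarith [rL 12 (by norm_num), rL 1 (by norm_num), pow_pos r0 12]
      have h10 : √(LL l) * (r ^ 12 * 8) ≤ LL l * (LL l : ℝ) ^ 2 := by
        gcongr; exact Real.sqrt_le_iff.2 ⟨hL.le, le_self_pow₀ hL1 two_ne_zero⟩
      nlinarith [small h0, mul_le_mul_of_nonneg_right h10 (by positivity : 0 ≤ LL l ^ 3 * E * δ)]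
    rw [h1, dm, RG.D3.dd_add]
    linarith [norm_add_le (dd (toV (sol (PP (r / 3) B))) x μ ν) (dd e x μ ν),
      abs_le_of_sq_le_sq h6 (by positivity), Real.norm_eq_abs (dd (toV (sol (PP (r / 3) B))) x μ ν)]
  · obtain ⟨g, e, h1, -, h3⟩ := dec hB
    have h0 := hB.nonneg
    have h6 : LL l ^ 3 * (LL l ^ 3 * E * δ) ^ 2 ≤ δ ^ 2 / LL l / LL l := by
      rw [le_div_iff₀ hL, le_div_iff₀ hL]
      refine le_trans ?_ (pow_le_pow_left₀ (by positivity) (small h0) 2)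
      rw [mul_pow _ (_ * δ), mul_right_comm (_ ^ 3), mul_right_comm, ← pow_succ, ← pow_succ,
        ← pow_mul]
      gcongr; norm_num
    have h7 := mul_le_mul_of_nonneg_right r5 (by positivity : 0 ≤ δ ^ 2 / LL l / LL l)
    have h8 := mul_le_mul_of_nonneg_right rW
      (by positivity : 0 ≤ (r : ℝ) ^ 4 * (δ ^ 2 / LL l / LL l))
    have h9 : 0 ≤ WW * (r ^ 4 * (δ ^ 2 / LL l / LL l)) := by positivity
    have h10 := mul_le_mul_of_nonneg_right (pow_le_pow_right₀ (by linarith : (1 : ℝ) ≤ r)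
      (by omega : 5 ≤ c)) (by positivity : 0 ≤ δ ^ 2 / LL l / LL l)
    rw [sum_comm, mul_div_assoc, sq (LL l : ℝ), ← div_div]
    refine (sum_le_card_nsmul _ _ (r ^ 5 * (δ ^ 2 / LL l / LL l) / 3) fun κ _ => ?_).trans
      (by simp only [card_univ, Fintype.card_fin, nsmul_eq_mul]; push_cast; linarith)
    have h4 := (sum_le_sum_of_subset_of_nonneg (box_sub l) fun _ _ _ => Li.nd_nonneg _ _).trans
      ((wloc (Nat.cast_nonneg _) _).trans (mul_le_mul_of_nonneg_left (hD hB κ) (by norm_num)))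
    have h5 := sum_le_card_nsmul (box l) _ _ fun x hx => nd_le_of_cv (Sm.cv (R := l)
      (a := RG.D3.sh (un κ) e - e) fun f hf => (norm_sub_le _ _).trans (add_le_add
      ((h3.mono (R' := l + 1 + 1) (by simp only [LL]; omega) le_rfl).sh (un_mem_box κ) f hf)
      (h3.mono (by simp only [LL]; omega) le_rfl f hf))) hx
    rw [nsmul_eq_mul, card_box_LL] at h5
    have e1 : RG.D3.sh (un κ) (toV (sol (PP (r / 3) B)) + gr g + e) -
        (toV (sol (PP (r / 3) B)) + gr g + e) = toV (fun ρ => Dm κ (sol (PP (r / 3) B) ρ)) +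
        gr (fun x => g (x + un κ) - g x) + (RG.D3.sh (un κ) e - e) := funext fun f => by
      simp only [Pi.add_apply, Pi.sub_apply, RG.D3.sh_apply, toV, Dm_ap, gr, un,
        add_right_comm _ (Pi.single κ 1 : St)]
      ring
    simp only [h1, e1, nd, dm]
    refine (sum_le_sum fun x _ => nd_add_le _ _ x one_pos).trans ?_
    rw [sum_add_distrib, ← mul_sum, ← mul_sum]
    linarith

end

end Pool.Agent.Lib.MP_7f377f_mp.Lin.D3

namespace Pool.Agent.Lib.MP_7f377f_mp.RG.D3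

open scoped Pointwise

theorem inv_bd : ∃ c : ℕ, ∀ (n r : ℕ) (cL cU : ℝ) (m : BF), c ≤ r → cU ≤ 20 → Inv n r cL cU m →
    Bd r r ((r : ℝ) ^ c) m := by
  obtain ⟨c, c5, cK⟩ : ∃ c : ℕ, 5 ≤ c ∧ 138240 * Lin.D3.KK ^ 2 ≤ c :=
    ⟨⌈138240 * Lin.D3.KK ^ 2⌉₊ + 5, by omega, (Nat.le_ceil _).trans (by simp)⟩
  refine ⟨c, fun n r cL cU m hr hU hm a b δ δ' ha hb => (Lin.D3.m_bd hm hU ha hb).trans ?_⟩
  have h0 := ha.nonneg
  have h1 := hb.nonneg
  have rc : (c : ℝ) ≤ r := by exact_mod_cast hr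
  have r5 : (5 : ℝ) ≤ r := by exact_mod_cast c5.trans hr
  gcongr
  calc _ ≤ 5120 * Lin.D3.KK ^ 2 * (3 * r) ^ 3 := by gcongr; linarith
    _ = 138240 * Lin.D3.KK ^ 2 * r ^ 3 := by ring
    _ ≤ r * r ^ 3 := by gcongr; linarith
    _ ≤ _ := by rw [← pow_succ']; exact pow_le_pow_right₀ (by linarith) (by omega)

theorem inv_U1 : ∃ C : ℝ, ∀ (n r : ℕ) (cL cU : ℝ) (m : BF), cU ≤ 20 → Inv n r cL cU m →
    ∀ (B : V) (S T : Finset St), (∀ e : Lk, e.1 ∉ T → B e = 0) →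
      ∑ x ∈ S, m (sh x B) (sh x B) ≤ C * ∑ x ∈ T + box 1, nd B x :=
  ⟨_, fun _ _ _ _ _ hU hm => Lin.D3.inv_U1 hm hU⟩

theorem lin_main : ∃ c : ℕ, 1 ≤ c ∧ ∀ (l r n : ℕ) (cL cU : ℝ) (m : BF), c ≤ r → r ^ c ≤ l →
    (LL l : ℝ) ^ c * Real.exp (-(r / c)) ≤ 1 →
    1 ≤ cL → cL ≤ 20 → cU ≤ 20 → Inv n (3 * r) cL cU m → ∃ s,
      Lin l r c ((LL l : ℝ) ^ c * Real.exp (-(r / c))) m s ∧
      Inv (2 * n * l + n + l) r (cL * (1 + 1 / LL l))
        (cU + (LL l : ℝ) ^ c * Real.exp (-(r / c))) (mr l m s) := by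
  obtain ⟨c0, c60, h0⟩ := Lin.D3.pre_main
  obtain ⟨c1, h1⟩ := La.lin_fin c0 (20 * Lin.D3.KK ^ 2)
  refine ⟨c1 + 2 * c0, by omega, fun l r n cL cU m hr hl hτ c1' hc hU hm => ?_⟩
  have hL : (1 : ℝ) ≤ LL l := Lin.NN_one l
  have e1 : Real.exp (-(r / c0)) ≤ Real.exp (-(r / (c1 + 2 * c0 : ℕ))) :=
    Real.exp_le_exp.2 (neg_le_neg (div_le_div_of_nonneg_left r.cast_nonneg
      (by norm_cast; omega) (by norm_cast; omega)))
  have e2 : Real.exp (-(r / c0)) ≤ 1 := Real.exp_le_one_iff.2 (neg_nonpos.2 (by positivity))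
  have t1 : (LL l : ℝ) ^ c0 * Real.exp (-(r / c0)) ≤
      (LL l : ℝ) ^ (c1 + 2 * c0) * Real.exp (-(r / (c1 + 2 * c0 : ℕ))) := by gcongr; omega
  obtain ⟨s, hs⟩ := h0 l r n cL cU m (by omega)
    ((Nat.pow_le_pow_right (by omega) (by omega)).trans hl) (t1.trans hτ) hc hU hm
  have r3 : 3 * r ≤ l := by
    have := (Nat.pow_le_pow_right (by omega) (by omega : 2 ≤ c1 + 2 * c0)).trans hl
    nlinarith
  obtain ⟨h2, h3⟩ := h1 l r n (c1 + 2 * c0) _ cL cU m s (by omega) (by omega) r3 c1' hc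
    (by positivity) hm (Lin.D3.inv_U1 hm hU) hs
  have h4 := fun B δ f hf ht (hB : Cv (r / 3) δ B) => (h2.stat B δ f hf ht hB).trans
    (mul_le_mul_of_nonneg_right t1 hB.nonneg)
  refine ⟨s, { h2 with stat := h4 }, h3.symm, h3.rng, h3.gauge, h3.psd, h3.lower, fun a S T ha =>
    (h3.upper a S T ha).trans (mul_le_mul_of_nonneg_right (mul_le_mul_of_nonneg_right
    (add_le_add le_rfl ?_) (Nat.cast_nonneg _)) (Finset.sum_nonneg fun _ _ => Li.nd_nonneg _ _))⟩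
  rw [mul_pow, ← pow_mul, ← mul_assoc, ← pow_add, mul_comm c0, sq]
  exact mul_le_mul_of_nonneg_left ((mul_le_mul e2 e1 (Real.exp_pos _).le zero_le_one).trans_eq
    (one_mul _)) (by positivity)

end Pool.Agent.Lib.MP_7f377f_mp.RG.D3
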