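import Pool.Agent.Lib.MP_7f377f_mp.R3NonA
import Pool.Agent.Lib.MP_7f377f_mp.R3LinZ

/-! The fluctuations of a plaquette variable are not smaller than the natural size. -/

noncomputable section

namespace Pool.Agent.Lib.MP_7f377f_mp.RG.D3.Nn

open Finset MeasureTheory Real
open scoped ENNReal NNReal Pointwise

theorem abs_fl {Ω : Type} [MeasurableSpace Ω] {μ : Measure Ω} {f g : Ω → ℝ≥0∞} (hf : Measurable f)
    (hg : Measurable g) {S T : Ω → Ω} (hS : MeasurePreserving S μ μ) (hT : MeasurePreserving T μ μ)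
    {A B C : Set Ω} (mA : MeasurableSet A) (mB : MeasurableSet B) (mC : MeasurableSet C)
    (d1 : Disjoint A B) (d2 : Disjoint (A ∪ B) C) (h1 : ∀ x, g x ≤ f x) (h2 : ∫⁻ x, f x ∂μ < ∞)
    (h3 : ENNReal.ofReal (1 - 10⁻¹) * ∫⁻ x, f x ∂μ ≤ ∫⁻ x, g x ∂μ)
    (h4 : ∀ x ∈ A, S x ∈ B ∧ T x ∈ C ∧ ENNReal.ofReal (3 / 2) * g x ≤ f (S x) + f (T x)) :
    2 * ∫⁻ x in A, f x ∂μ ≤ ∫⁻ x, f x ∂μ := by
  have a1 : ∫⁻ x in A, f x ∂μ + ENNReal.ofReal (3 / 2) * ∫⁻ x in A, g x ∂μ ≤ ∫⁻ x, f x ∂μ := by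
    refine le_trans ?_ (setLIntegral_le_lintegral (A ∪ B ∪ C) f)
    rw [lintegral_union mC d2, lintegral_union mB d1, add_assoc, ← lintegral_const_mul _ hg,
      ← hS.setLIntegral_comp_preimage mB hf, ← hT.setLIntegral_comp_preimage mC hf]
    refine add_le_add_right ((setLIntegral_mono' mA fun x hx => (h4 x hx).2.2).trans ?_) _
    rw [lintegral_add_left (f := fun x => f (S x)) (hf.comp hS.measurable)]
    exact add_le_add (lintegral_mono_set fun x hx => (h4 x hx).1)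
      (lintegral_mono_set fun x hx => (h4 x hx).2.1)
  have a2 := h3.trans ((lintegral_add_compl g mA).symm.trans_le
    (add_le_add_right (lintegral_mono (μ := μ.restrict Aᶜ) h1) _))
  have a3 := lintegral_add_compl f mA (μ := μ)
  have a4 := lintegral_mono (μ := μ.restrict A) h1
  rw [← a3] at a1 a2 h2 ⊢
  obtain ⟨b1, b2⟩ := ENNReal.add_lt_top.1 h2
  have b3 := a4.trans_lt b1
  lift ∫⁻ x in A, f x ∂μ to ℝ≥0 using b1.ne with a
  lift ∫⁻ x in Aᶜ, f x ∂μ to ℝ≥0 using b2.ne with a'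
  lift ∫⁻ x in A, g x ∂μ to ℝ≥0 using b3.ne with b
  simp only [ENNReal.ofReal] at a1 a2
  norm_cast at a1 a2 ⊢
  rw [← NNReal.coe_le_coe] at a1 a2 ⊢
  push_cast at a1 a2 ⊢
  rw [Real.coe_toNNReal _ (by norm_num)] at a1 a2
  linarith

theorem mp_mul (G : Conf) : MeasurePreserving (fun U => G * U) PP PP := by
  have h := fun e : Lk => measurePreserving_mul_left haar (G e)
  refine ⟨measurable_pi_lambda _ fun e => (h e).measurable.comp (measurable_pi_apply e), ?_⟩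
  have := Measure.infinitePi_map_pi (fun _ : Lk => haar) fun e => (h e).measurable
  simp only [fun e => (h e).map_eq] at this
  exact this

theorem rhoG_le (l : ℕ → ℕ) (a ε : ℕ → ℝ) (β : ℝ) (i n : ℕ) (U : Conf) :
    rhoG l a ε β i n U ≤ rho l a β i n U := by
  induction i generalizing n U with
  | zero => exact le_rfl
  | succ i ih =>
    refine lintegral_mono fun W => mul_le_mul_left ?_ _
    split_ifs
    exacts [ih _ _, zero_le]

theorem big (N : ℕ) {γ : ℝ} (hγ : 0 < γ) : ∃ j0, ∀ j ≥ j0, (LL (ll j) : ℝ) ^ N ≤ γ * nn j := by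
  obtain ⟨k, hk⟩ := exists_nat_ge γ⁻¹
  refine ⟨k + 3 * N + 1, fun j hj => ?_⟩
  have h1 : k * LL (ll j) ^ N ≤ nn j := by
    rw [Pv.LL_ll, ← pow_mul, nn]
    calc _ ≤ 3 ^ j * 3 ^ ((2 * j + 1) * N) := Nat.mul_le_mul_right _
          ((show k ≤ j by omega).trans (Nat.lt_pow_self (by norm_num)).le)
      _ ≤ 3 ^ j ^ 2 := by
          rw [← pow_add]
          exact Nat.pow_le_pow_right (by norm_num) (by
            nlinarith [Nat.mul_le_mul_left j (show 3 * N + 1 ≤ j by omega),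
              Nat.mul_le_mul_left N (show 1 ≤ j by omega)])
      _ ≤ _ := by omega
  rw [← inv_mul_le_iff₀ hγ]
  exact (mul_le_mul_of_nonneg_right hk (by positivity)).trans (by exact_mod_cast h1)

theorem nums {P s ε r R c κ : ℝ} (hP : 10 ^ 8 ≤ P) (hs : P ^ 20 ≤ s) (ε0 : 0 ≤ ε) (hε : ε * s ≤ P)
    (r0 : 0 ≤ r) (hr : 2 * r + 3 ≤ P) (R0 : 0 ≤ R) (hR : 2 * R + 5 ≤ P) (c0 : 0 ≤ c) (hc : c ≤ P)
    (κ0 : 0 ≤ κ) (hκ : κ * P ^ 10 ≤ 1) :
    31000 * (r + 1) ^ 2 * ε ≤ 1 ∧ 1000 * (R + 1) * (ε + 4 * ε) ≤ 1 ∧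
      10 ^ 6 * ((R + 1) * (ε + 4 * ε)) ^ 2 ≤ 5 * ε ∧
      s ^ 2 * ((2 * r + 3) ^ 3 * (8 * 10 ^ 8 * c * (31 * (r + 1) ^ 2 * ε) ^ 3)) ≤ 10⁻¹ ∧
      (2 * R + 5) ^ 3 * (4 * κ) ≤ 10⁻¹ := by
  have P0 : 0 < P := by linarith
  have s0 : 0 ≤ s := le_trans (by positivity) hs
  have h1 : ∀ k ≤ 19, P ^ k * ε ≤ 1 := fun k hk => by
    refine (mul_le_mul_of_nonneg_right (pow_le_pow_right₀ (by linarith) hk) ε0).trans ?_
    refine le_of_mul_le_mul_left ?_ P0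
    nlinarith [mul_le_mul_of_nonneg_left hs ε0]
  have hr' : r + 1 ≤ P := by linarith
  have hR' : R + 1 ≤ P := by linarith
  refine ⟨le_trans ?_ (h1 3 (by norm_num)), le_trans ?_ (h1 2 (by norm_num)), ?_, ?_, ?_⟩
  · calc _ ≤ P * P ^ 2 * ε := by gcongr; linarith
      _ = _ := by ring
  · calc _ = 5000 * (R + 1) * ε := by ring
      _ ≤ P * P * ε := by gcongr; linarith
      _ = _ := by ring
  · calc _ = 5 * 10 ^ 6 * (R + 1) ^ 2 * ε * (5 * ε) := by ring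
      _ ≤ P * P ^ 2 * ε * (5 * ε) := by gcongr; linarith
      _ ≤ _ := mul_le_of_le_one_left (by positivity) (by linarith [h1 3 (by norm_num)])
  · calc _ = 10⁻¹ * (8 * 10 ^ 9 * 31 ^ 3 * (2 * r + 3) ^ 3 * c * (r + 1) ^ 6 * (ε * s) ^ 2 * ε) := by
          ring
      _ ≤ 10⁻¹ * (P ^ 2 * P ^ 3 * P * P ^ 6 * P ^ 2 * ε) := by gcongr; nlinarith
      _ ≤ _ := by linarith [h1 14 (by norm_num)]
  · calc _ = 10⁻¹ * (κ * (40 * (2 * R + 5) ^ 3)) := by ring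
      _ ≤ 10⁻¹ * (κ * (P ^ 7 * P ^ 3)) := by
          gcongr
          exact le_trans (by linarith) (le_self_pow₀ (by linarith) (by norm_num))
      _ ≤ _ := by linarith

theorem abs_imI_le (q : Quaternion ℝ) : |q.imI| ≤ ‖q‖ := by
  refine abs_le_of_sq_le_sq ?_ (norm_nonneg _)
  linarith [norm_q_sq q, sq_nonneg q.re, sq_nonneg q.imJ, sq_nonneg q.imK]

theorem exists_g {θ : ℝ} (h0 : 0 ≤ θ) (h1 : θ ≤ 1 / 100) : ∃ (g : S3) (v : E3),
    cS g = ex (cE v) ∧ ‖v‖ = θ ∧ ‖g.q - 1‖ ≤ 4 * θ ∧ θ / 2 ≤ g.q.imI := by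
  obtain ⟨g, hg, -⟩ := ex_real (EuclideanSpace.single 0 θ)
  have hv : ‖(EuclideanSpace.single 0 θ : E3)‖ = θ := by simp [abs_of_nonneg h0]
  refine ⟨g, _, hg, hv, (norm_cq _).1.trans ?_, ?_⟩
  · have a1 := (norm_cE _).1.trans hv.le
    have a2 := norm_add_le_of_le (ex_near a1 h1) (norm_io (cE (EuclideanSpace.single 0 θ)))
    rw [sub_add_cancel, ← hg] at a2
    rw [cq_sub, cq_one]
    exact a2.trans (by nlinarith)
  · have a1 := congrArg (fun q : Hc => q.imI.re) hg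
    rw [ex_cE, hv] at a1
    have a2 : g.q.imI = (√(1 + θ ^ 2))⁻¹ * θ := by
      simpa [cS, cE, show (1 : Hc).imI = 0 from rfl] using a1
    have a3 : 2⁻¹ ≤ (√(1 + θ ^ 2))⁻¹ :=
      inv_anti₀ (by positivity) (sqrt_le_iff.2 ⟨zero_le_two, by nlinarith⟩)
    nlinarith

theorem hol_sg {n : ℕ} (hn : 1 < n) (g : S3) (U : Conf) :
    |(hol Inv.inv (sg n g * U) 0 0 1).q.imI - g.q.imI| ≤ ‖(hol Inv.inv U 0 0 1).q - 1‖ := by
  have e : hol Inv.inv (sg n g * U) 0 0 1 = g * hol Inv.inv U 0 0 1 := by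
    simp only [hol, Pi.mul_apply, sg_zero, zero_add]
    rw [sg_box g hn (mem_lbox.2 (un_mem_box 0)) (by simp),
      sg_box g hn (mem_lbox.2 (un_mem_box 1)) (by simp [un]),
      sg_box g hn (mem_lbox.2 (zero_mem_box 1)) (by simp)]
    simp only [one_mul, mul_assoc]
  have := abs_imI_le (g.q * ((hol Inv.inv U 0 0 1).q - 1))
  rwa [norm_mul, S3.norm_q, one_mul, mul_sub, mul_one, ← S3.q_mul, ← e] at this

open Classical in
theorem fluct_of (hlev : ∃ a0 : ℕ, ∀ a ≥ a0, ∃ b : ℕ, ∀ γ > 0, ∀ η > 0, ∃ j0 : ℕ, ∀ j ≥ j0, ∀ J l,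
    j ≤ J → Adm J l → ∃ (n R : ℕ) (m : BF) (φ : Fld → ℂ) (E δ : ℝ), Inv n (j ^ 3) 3 1 m ∧
      R ≤ LL (ll j) ^ b ∧ Tm R (2 * δ) ((γ * nn j) ^ (-4⁻¹ : ℝ)) φ ∧
      (LL (ll j) : ℝ) ^ (a + 1) ≤ δ * √(γ * nn j) ∧ δ * √(γ * nn j) ≤ (LL (ll j) : ℝ) ^ b ∧
      ∀ U, Per (nn j) U → curvG δ U →
        ENNReal.ofReal (Real.exp (E - η - act (γ * nn j) m φ (nn j) U)) ≤
          rr γ J l (J + 1 - j) (nn j) U ∧
        rG γ a J l (J + 1 - j) (nn j) U ≤
          ENNReal.ofReal (Real.exp (E + η - act (γ * nn j) m φ (nn j) U)))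
    (hbad : ∃ a0 : ℕ, ∀ a ≥ a0, ∀ γ > 0, ∀ η > 0, ∃ j0 : ℕ, ∀ j ≥ j0, ∀ J l, j ≤ J →
    Adm J l → ENNReal.ofReal (1 - η) * ∫⁻ U, rr γ J l (J + 1 - j) (nn j) (per (nn j) U) ∂PP ≤
      ∫⁻ U, (if curvG (ep γ a J l (J + 1 - j)) (per (nn j) U) then
        rG γ a J l (J + 1 - j) (nn j) (per (nn j) U) else 0) ∂PP)
    (hlaw : ∀ {γ : ℝ}, 0 < γ → ∀ J l k : ℕ, k ≤ J →
    law γ J l k = lawOf (nn (J - k)) (rr γ J l (k + 1) (nn (J - k))) ∧
    0 < ∫⁻ U, rr γ J l (k + 1) (nn (J - k)) (per (nn (J - k)) U) ∂PP ∧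
    ∫⁻ U, rr γ J l (k + 1) (nn (J - k)) (per (nn (J - k)) U) ∂PP < ∞) :
    ∃ c > 0, ∀ γ > 0, ∃ j0 : ℕ, ∀ j ≥ j0, ∀ J l, j ≤ J → Adm J l →
    (law γ J l (J - j)).real {U | ‖(hol Inv.inv U 0 0 1).q - 1‖ ≤ c / √(γ * nn j)} ≤ 2⁻¹ := by
  obtain ⟨a0, ha0⟩ := hlev
  obtain ⟨a1, ha1⟩ := hbad
  obtain ⟨b, hb⟩ := ha0 (a0 + a1) (by omega)
  replace ha1 := ha1 (a0 + a1) (by omega)
  generalize a0 + a1 = a at hb ha1
  obtain ⟨c, hc⟩ := inv_bd
  obtain ⟨C0, hC0⟩ := inv_U1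
  obtain ⟨C, hC⟩ : ∃ C, C = C0 * ∑ x ∈ {0} + box 1, nd (Pi.single (0, 0) 1) x := ⟨_, rfl⟩
  obtain ⟨t, t0, t1, t2⟩ : ∃ t : ℝ, 0 < t ∧ t ≤ 1 / 100 ∧ 2 * t ^ 2 * C ≤ 10⁻¹ := by
    have h0 := abs_nonneg C
    have h1 : (100 * (|C| + 1))⁻¹ * (100 * (|C| + 1)) = 1 := inv_mul_cancel₀ (by positivity)
    have h2 : 0 < (100 * (|C| + 1))⁻¹ := by positivity
    refine ⟨_, h2, by nlinarith, ?_⟩
    generalize (100 * (|C| + 1))⁻¹ = t at *
    have h3 : t * C ≤ 1 := by nlinarith [le_abs_self C]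
    nlinarith
  refine ⟨t / 5, by positivity, fun γ hγ => ?_⟩
  obtain ⟨j0, hj0⟩ := hb γ hγ 20⁻¹ (by norm_num)
  obtain ⟨j1, hj1⟩ := ha1 γ hγ 10⁻¹ (by norm_num)
  obtain ⟨j2, hj2⟩ := big ((a + b + 3 * c + 4) * 40) hγ
  obtain ⟨j3, hj3⟩ := big 4 one_pos
  refine ⟨j0 + j1 + j2 + j3 + c + 10 ^ 8, fun j hj J l hJ h => ?_⟩
  obtain ⟨k, R, m, φ, E, δ, hm, hR, hφ, hδ, -, hU⟩ := hj0 j (by omega) J l hJ h
  replace hj1 := hj1 j (by omega) J l hJ h
  replace hj2 := hj2 j (by omega)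
  replace hj3 := hj3 j (by omega)
  obtain ⟨e1, e2, e3⟩ := hlaw hγ J l (J - j) (by omega)
  rw [show J - (J - j) = j by omega, show J - j + 1 = J + 1 - j by omega] at e1 e2 e3
  have e4 : ep γ a J l (J + 1 - j) = (LL (ll j) : ℝ) ^ a / √(γ * nn j) := by
    rw [ep, bq, if_neg (by omega), show J + 1 - (J + 1 - j) = j by omega]
  have mG : Measurable (rG γ a J l (J + 1 - j) (nn j)) := Pv.meas_rhoG _ _ _ _ _ _
  have mr : Measurable (rr γ J l (J + 1 - j) (nn j)) := by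
    rw [rr, ← Pv.rhoG_two]
    exact Pv.meas_rhoG _ _ _ _ _ _
  have hle : ∀ U, rG γ a J l (J + 1 - j) (nn j) U ≤ rr γ J l (J + 1 - j) (nn j) U :=
    rhoG_le _ _ _ _ _ _
  have hL := Pv.le_LL j
  have hr : j ^ 3 ≤ LL (ll j) ^ 3 := Nat.pow_le_pow_left hL 3
  have hcr : c ≤ j ^ 3 := le_trans (by omega) (Nat.le_self_pow (by norm_num) j)
  have hL1 : 10 ^ 8 ≤ LL (ll j) := by omega
  rw [e1]
  rw [e4] at hj1
  clear e1 e4 hb ha0 ha1 hlaw hj0
  generalize rG γ a J l (J + 1 - j) (nn j) = fG at *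
  generalize rr γ J l (J + 1 - j) (nn j) = f at *
  generalize LL (ll j) = L at *
  generalize nn j = n at *
  generalize j ^ 3 = r at *
  have hp : ∀ i, i < a + b + 3 * c + 4 → 7 * L ^ i ≤ L ^ (a + b + 3 * c + 4) := fun i hi =>
    (Nat.mul_le_mul_right _ (show 7 ≤ L by omega)).trans ((pow_succ' L i).symm.trans_le
      (Nat.pow_le_pow_right (by omega) hi))
  have hn : 2 * r + 2 < n := by
    have : L ^ 4 ≤ n := by exact_mod_cast hj3.trans_eq (one_mul _)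
    have := Nat.one_le_pow 3 L (by omega)
    have : 10 ^ 8 * L ^ 3 ≤ L ^ 4 := (Nat.mul_le_mul_right _ hL1).trans_eq (pow_succ' L 3).symm
    omega
  rw [pow_mul, ← Nat.cast_pow] at hj2
  have p1 : 10 ^ 8 ≤ L ^ (a + b + 3 * c + 4) := hL1.trans (Nat.le_self_pow (by omega) _)
  have p2 : L ^ a ≤ L ^ (a + b + 3 * c + 4) := by have := hp a (by omega); omega
  have p3 : 2 * r + 3 ≤ L ^ (a + b + 3 * c + 4) := by
    have := hp 3 (by omega)
    have := Nat.one_le_pow 3 L (by omega)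
    omega
  have p4 : 2 * R + 5 ≤ L ^ (a + b + 3 * c + 4) := by
    have := hp b (by omega)
    have := Nat.one_le_pow b L (by omega)
    omega
  have p5 : r ^ c ≤ L ^ (a + b + 3 * c + 4) := by
    have := hp (3 * c) (by omega)
    have := Nat.pow_le_pow_left hr c
    rw [← pow_mul] at this
    omega
  generalize L ^ (a + b + 3 * c + 4) = P at *
  replace p1 : (10 : ℝ) ^ 8 ≤ P := by exact_mod_cast p1
  replace hL1 : (10 : ℝ) ^ 8 ≤ L := by exact_mod_cast hL1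
  generalize γ * n = β at *
  have β0 : 0 < β := lt_of_lt_of_le (by positivity) hj2
  have s1 : (P : ℝ) ^ 20 ≤ √β := le_sqrt_of_sq_le (by rwa [← pow_mul])
  have s0 := sqrt_pos.2 β0
  have s2 : 1 ≤ √β := (one_le_pow₀ (by linarith)).trans s1
  have a1 : (1 : ℝ) ≤ L ^ a := one_le_pow₀ (by linarith)
  obtain ⟨n1, n2, n3, n4, n5⟩ := nums (ε := L ^ a / √β) (r := r) (R := R) (c := r ^ c)
    (κ := β ^ (-4⁻¹ : ℝ)) p1 s1 (by positivity)
    (by rw [div_mul_cancel₀ _ s0.ne']; exact_mod_cast p2) (by positivity) (by exact_mod_cast p3)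
    (by positivity) (by exact_mod_cast p4) (by positivity) (by exact_mod_cast p5) (by positivity)
    (by
      refine (mul_le_mul_of_nonneg_right (rpow_le_rpow_of_nonpos (by positivity) hj2 (by norm_num))
        (by positivity)).trans_eq ?_
      rw [← rpow_natCast, ← rpow_natCast, ← rpow_mul (by positivity), ← rpow_add (by positivity)]
      norm_num)
  have n6 : L ^ a / √β + 4 * (L ^ a / √β) ≤ δ := by
    rw [pow_succ, ← div_le_iff₀ s0, mul_div_right_comm] at hδ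
    nlinarith [div_pos (one_pos.trans_le a1) s0]
  have n7 : 4 * (t / √β) ≤ L ^ a / √β := by
    rw [← mul_div_assoc]
    exact div_le_div_of_nonneg_right (by linarith) s0.le
  have θ0 := div_pos t0 s0
  obtain ⟨g, v, g1, g2, g3, g4⟩ := exists_g θ0.le ((div_le_self t0.le s2).trans t1)
  have g5 : β * ‖v‖ ^ 2 = t ^ 2 := by rw [g2, div_pow, sq_sqrt β0.le, mul_div_cancel₀ _ β0.ne']
  rw [div_right_comm]
  rw [sq_sqrt β0.le] at n4
  generalize L ^ a / √β = ε at *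
  generalize t / √β = θ at *
  have mp := (Pv.cont_per n).measurable
  have mh := S3.continuous_q.comp ((Pv.cont_hol 0 0 1).comp (Pv.cont_per n))
  have mI := Quaternion.continuous_imI.comp mh
  have mA : MeasurableSet {U : Conf | ‖(hol Inv.inv U 0 0 1).q - 1‖ ≤ θ / 5} :=
    measurableSet_le (Ms.meas_nsub.comp (Pv.cont_hol 0 0 1).measurable) measurable_const
  have hI : ∀ U : Conf, |(hol Inv.inv U 0 0 1).q.imI| ≤ ‖(hol Inv.inv U 0 0 1).q - 1‖ := fun U => by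
    simpa [sg_one, show (1 : S3).q.imI = 0 from rfl] using hol_sg (show 1 < n by omega) 1 U
  have key := abs_fl (f := fun U => f (per n U))
    (g := fun U => if curvG ε (per n U) then fG (per n U) else 0) (mr.comp mp)
    (Measurable.ite (mp (Pv.meas_curv ε)) (mG.comp mp) measurable_const)
    (mp_mul (Pi.mulSingle (0, 0) g)) (mp_mul (Pi.mulSingle (0, 0) g⁻¹)) (mp mA)
    (measurableSet_lt (measurable_const (a := θ / 5)) mI.measurable)
    (measurableSet_lt mI.measurable (measurable_const (a := -(θ / 5))))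
    (Set.disjoint_left.2 fun U h1 h2 => absurd ((abs_le.1 ((hI _).trans h1)).2) (not_le.2 h2))
    (Set.disjoint_left.2 fun U h1 h2 => h1.elim
      (fun h1 => absurd ((abs_le.1 ((hI _).trans h1)).1) (not_le.2 h2))
      fun h1 => absurd (lt_trans (show θ / 5 < _ from h1) h2) (by linarith))
    (fun U => by
      split_ifs
      exacts [hle _, zero_le]) e3 hj1 fun U hA => ?_
  · rw [lawOf, Measure.real, Measure.map_apply mp mA, Measure.smul_apply,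
      withDensity_apply _ (mp mA), smul_eq_mul]
    refine ENNReal.toReal_le_of_le_ofReal (by norm_num) ?_
    rw [ENNReal.ofReal_inv_of_pos two_pos, ENNReal.ofReal_ofNat, ENNReal.inv_mul_le_iff e2.ne' e3.ne,
      ← div_eq_mul_inv, ENNReal.le_div_iff_mul_le (by simp) (by simp), mul_comm]
    exact key
  have hW := Pv.per_per n U
  have b1 := abs_le.1 ((hol_sg (show 1 < n by omega) g (per n U)).trans hA)
  have b2 := abs_le.1 ((hol_sg (show 1 < n by omega) g⁻¹ (per n U)).trans hA)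
  rw [S3.q_inv, Quaternion.imI_star] at b2
  refine ⟨show θ / 5 < (hol Inv.inv (sg n g * per n U) 0 0 1).q.imI by linarith [b1.1],
    show (hol Inv.inv (sg n g⁻¹ * per n U) 0 0 1).q.imI < -(θ / 5) by linarith [b2.2], ?_⟩
  change _ ≤ f (sg n g * per n U) + f (sg n g⁻¹ * per n U)
  split_ifs with hε
  swap
  · simp
  generalize per n U = W at *
  have d := act_diff (hC0 _ _ _ _ _ (by norm_num) hm) hm (hc _ _ _ _ _ hcr (by norm_num) hm)
    (by positivity) hφ β0.le hW hε g1 (by linarith) (g3.trans n7) hn n1 n2 (by linarith)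
  have c1 := fun (g : S3) (hg : ‖g.q - 1‖ ≤ ε) => (hU _ (per_sg g hW)
    ((curv_mul (fun e => (sg_norm g e).trans hg) hε).mono n6)).1
  refine le_trans ?_ (add_le_add (c1 g (g3.trans n7))
    (c1 g⁻¹ (((S3.norm_inv_sub g).trans_le g3).trans n7)))
  refine (mul_le_mul_right (hU W hW (hε.mono (by linarith))).2 _).trans ?_
  rw [← ENNReal.ofReal_mul (by norm_num), ← ENNReal.ofReal_add (exp_pos _).le (exp_pos _).le]
  refine ENNReal.ofReal_le_ofReal ?_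
  have k : ∀ x y : ℝ, (y - x + 1) * exp x ≤ exp y := fun x y => by
    rw [← le_div_iff₀ (exp_pos x), ← exp_sub]
    exact add_one_le_exp _
  refine le_trans ?_ (add_le_add (k (E + 20⁻¹ - act β m φ n W) _) (k (E + 20⁻¹ - act β m φ n W) _))
  rw [← add_mul]
  refine mul_le_mul_of_nonneg_right ?_ (exp_pos _).le
  rw [← hC, mul_add, ← mul_assoc β, mul_left_comm β, g5] at d
  linarith

end Pool.Agent.Lib.MP_7f377f_mp.RG.D3.Nn
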