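import Pool.Agent.Lib.MP_7f377f_mp.HFLinB
import Pool.Agent.Lib.MP_7f377f_mp.R3NonB

/-! A measure preserving shift of the gauge field along a finitely supported one form. -/

noncomputable section

namespace Pool.Agent.Lib.MP_7f377f_mp.RG.D3.Hf

open Finset MeasureTheory
open SX (md md_mem md_eq md_of_mem md_md_add per_sh)

theorem mp_skew {T : Set Lk} {F : Conf → Conf} (hF : Measurable F) (h1 : DependsOn F T)
    (h2 : ∀ U, ∀ e ∈ T, F U e = 1) : MeasurePreserving (fun U => F U * U) PP PP := by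
  have a1 : MeasurePreserving (fun p : Conf × Conf => RGP.mix T p.1 p.2) (PP.prod PP) PP :=
    RGP.mp_mix haar T
  have a2 : MeasurePreserving (fun p : Conf × Conf => (p.1, F p.1 * p.2)) (PP.prod PP)
      (PP.prod PP) := (MeasurePreserving.id PP).skew_product (g := fun U U' => F U * U')
    ((hF.comp measurable_fst).mul measurable_snd) (.of_forall fun U => (Nn.mp_mul (F U)).map_eq)
  have hm : Measurable fun U => F U * U := hF.mul measurable_id
  refine ⟨hm, ?_⟩
  conv_lhs => rw [← a1.map_eq]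
  rw [Measure.map_map hm a1.measurable]
  refine Eq.trans (congrArg (fun f => Measure.map f _) ?_) (a1.comp a2).map_eq
  funext p e
  simp only [Function.comp, Pi.mul_apply,
    h1 (fun i hi => RGP.mix_of_mem hi p.1 p.2 : ∀ i ∈ T, RGP.mix T p.1 p.2 i = p.1 i)]
  by_cases he : e ∈ T
  · simp only [RGP.mix_of_mem he, h2 _ e he, one_mul]
  · simp only [RGP.mix_of_not he, Pi.mul_apply]

theorem mp_tri (ρ : Lk → ℕ) (N : ℕ) : ∀ F : Conf → Conf, Measurable F →
    (∀ U U' e, (∀ e', ρ e' < ρ e → U e' = U' e') → F U e = F U' e) →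
    (∀ U e, N ≤ ρ e → F U e = 1) → MeasurePreserving (fun U => F U * U) PP PP := by
  induction N with
  | zero =>
    intro F _ _ h
    simpa only [show ∀ U, F U = 1 from fun U => funext fun e => h U e (Nat.zero_le _), one_mul]
      using! MeasurePreserving.id PP
  | succ N ih =>
    intro F hF h1 h2
    have m : ∀ (p : Lk → Prop) [DecidablePred p],
        Measurable fun (U : Conf) e => if p e then F U e else 1 := fun p _ =>
      measurable_pi_lambda _ fun e => by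
        split_ifs
        exacts [(measurable_pi_apply e).comp hF, measurable_const]
    have a1 := mp_skew (T := {e | ρ e ≠ N}) (m fun e => ρ e = N) (fun U U' h => funext fun e => by
      split_ifs with he
      exacts [h1 _ _ _ fun e' h' => h e' (he ▸ h'.ne), rfl]) fun U e he => if_neg he
    have a2 := ih _ (m fun e => ρ e < N) (fun U U' e h => by rw [h1 U U' e h])
      fun U e he => if_neg he.not_gt
    convert a2.comp a1 using 2 with U
    funext e
    simp only [Function.comp, Pi.mul_apply]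
    rcases lt_trichotomy (ρ e) N with h | h | h
    · rw [if_pos h, if_neg h.ne, one_mul]
      congr 1
      exact h1 _ _ _ fun e' h' => by rw [Pi.mul_apply, if_neg (h'.trans h).ne, one_mul]
    · rw [if_neg h.not_lt, if_pos h, one_mul]
    · rw [if_neg h.not_gt, if_neg h.ne', h2 U e h, one_mul, one_mul]

theorem cmb_rank {n : ℕ} {U U' : Conf} (x : St) : x ∈ cube n →
    (∀ e : Lk, e.1 ∈ cube n → ht e.1 < ht x → U e = U' e) → cmb Inv.inv U x = cmb Inv.inv U' x := by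
  induction x using site_ind with
  | h0 => simp
  | hp p ν h1 h2 ih =>
    intro hx h
    have hp : p ∈ cube n := mem_cube.2 fun i => by
      have := mem_cube.1 hx i
      rw [Pi.add_apply, un_apply] at this
      split_ifs at this with h3
      · subst h3
        omega
      · omega
    rw [ht_fwd h2] at h
    rw [cmb_fwd _ _ h1 h2, cmb_fwd _ _ h1 h2, ih hp fun e he h' => h e he (by omega),
      h (p, ν) hp (Nat.lt_succ_self _)]
  | hn p ν h1 h2 ih => exact fun hx => absurd (mem_cube.1 hx ν).1 h2.not_ge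

/-- the centre of the region -/
def ct (A : ℕ) : St := fun _ => 4 * A

theorem ct_mem (A : ℕ) : ct A ∈ box (4 * A) := mem_box.2 fun i => by simp only [ct]; omega

/-- the field in the comb gauge seen from the centre -/
def BB (A : ℕ) (W : Conf) : Fld := sh (ct A) (Bx 0 (cC W))

def exS (v : E3) : S3 := (ex_real v).choose

theorem cS_exS (v : E3) : cS (exS v) = ex (cE v) := (ex_real v).choose_spec.1

theorem exS_zero : exS 0 = 1 := cS_inj (by rw [cS_exS, cE_zero, ex_zero, cS_one])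

/-- the multiplier of the shift -/
def mu (A : ℕ) (h : V) (v : E3) (W : Conf) : Conf := fun e =>
  (cmb Inv.inv W e.1)⁻¹ * exS (h (e.1 - ct A, e.2) • v) * cmb Inv.inv W e.1

variable {A n : ℕ} {h : V} {v : E3} {W : Conf}

theorem mu_one (hs : Sp (3 * A + 1) h) {e : Lk} (he : e.1 - ct A ∉ box (3 * A + 1)) :
    mu A h v W e = 1 := by simp [mu, hs (e.1 - ct A, e.2) he, exS_zero]

theorem in_cube (hA : 1 ≤ A) (hn : 20 * A < n) {x : St} (hx : x - ct A ∈ box (3 * A + 1)) :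
    x ∈ cube n := mem_cube.2 fun i => by
  have := mem_box.1 hx i
  simp only [Pi.sub_apply, ct] at this
  omega

theorem mp_shift (hA : 1 ≤ A) (hn : 20 * A < n) (hs : Sp (3 * A + 1) h) :
    MeasurePreserving (fun U => mu A h v (per n U) * U) PP PP := by
  refine mp_tri (fun e => ht e.1) (4 * (3 * A + 1 + 4 * A) + 1) _ (measurable_pi_lambda _ fun e =>
    Continuous.measurable ?_) (fun U U' e hU => ?_) fun U e he => mu_one hs fun h' => ?_
  · have := (Pv.cont_cmb e.1).comp (Pv.cont_per n)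
    exact (this.inv.mul continuous_const).mul this
  · by_cases he : e.1 - ct A ∈ box (3 * A + 1)
    · rw [mu, mu, cmb_rank _ (in_cube hA hn he) fun e' h1 h2 => ?_]
      change U (md n e'.1, e'.2) = U' (md n e'.1, e'.2)
      rw [md_of_mem h1]
      exact hU e' h2
    · rw [mu_one hs he, mu_one hs he]
  · have := ht_le (add_mem_box h' (ct_mem A))
    rw [sub_add_cancel] at this
    omega

theorem mu_per (hA : 1 ≤ A) (hn : 20 * A < n) (hs : Sp (3 * A + 1) h) {e : Lk}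
    (he : e ∈ lbox (12 * A)) : per n (mu A h v W) e = mu A h v W e := by
  change mu A h v W (md n e.1, e.2) = _
  by_cases h0 : e.1 ∈ cube n
  · rw [md_of_mem h0]
  · rw [mu_one hs fun h' => h0 (in_cube hA hn h'), mu_one hs fun h' => h0 (mem_cube.2 fun i => ?_)]
    have a1 := mem_box.1 (mem_lbox.1 he) i
    have a2 := mem_box.1 h' i
    simp only [Pi.sub_apply, ct, md] at a2
    refine ⟨by_contra fun a3 => ?_, by omega⟩
    rw [← Int.add_emod_right, Int.emod_eq_of_lt (by omega) (by omega)] at a2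
    omega

theorem near_far (hs : Sp (3 * A + 1) h) (k : ℕ) (x : St) :
    Agr k (sh x (per n (mu A h v W) * W)) (sh x W) ∨
      ∃ z ∈ box (3 * A + 1 + k), md n (z + ct A) = md n x := by
  by_cases h0 : ∀ w ∈ box k, md n (w + x) - ct A ∉ box (3 * A + 1)
  · refine .inl fun e he => ?_
    change mu A h v W (md n (e.1 + x), e.2) * W (e.1 + x, e.2) = W (e.1 + x, e.2)
    rw [mu_one hs (h0 _ (mem_lbox.1 he)), one_mul]
  · push Not at h0
    obtain ⟨w, hw, h1⟩ := h0
    refine .inr ⟨_, sub_mem_box h1 hw, ?_⟩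
    rw [sub_right_comm, sub_add_cancel, sub_eq_add_neg, md_md_add, add_neg_cancel_comm]

theorem sh_md {α : Type} {U : Lk → α} (hU : Per n U) (x : St) : sh (md n x) U = sh x U := by
  conv_rhs => rw [md_eq n x, per_sh hU]

theorem per_mul {G : Conf} (hW : Per n W) : Per n (per n G * W) := fun μ => by
  change sh _ (per n _) * sh _ W = _
  rw [Pv.per_per n _ μ, hW μ]

theorem sum_near (hs : Sp (3 * A + 1) h) (hW : Per n W) {k ρ : ℕ} (hρ : 3 * A + 1 + k ≤ ρ)
    (hn : 2 * ρ < n) {G : Conf → ℝ} (hG : ∀ U U', Agr k U U' → G U = G U') :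
    ∑ x ∈ cube n, (G (sh x (per n (mu A h v W) * W)) - G (sh x W)) =
      ∑ z ∈ box ρ, (G (sh (z + ct A) (per n (mu A h v W) * W)) - G (sh (z + ct A) W)) := by
  have hi : Set.InjOn (fun z => md n (z + ct A)) (box ρ) := fun z hz z' hz' e => funext fun i => by
    have a1 := mem_box.1 hz i
    have a2 := mem_box.1 hz' i
    have a3 := Int.eq_zero_of_abs_lt_dvd (m := n) (Int.dvd_of_emod_eq_zero
      (Int.emod_eq_emod_iff_emod_sub_eq_zero.1 (congrFun e i)))
      (abs_lt.2 ⟨by simp only [Pi.add_apply]; omega, by simp only [Pi.add_apply]; omega⟩)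
    simp only [Pi.add_apply] at a3
    omega
  simp only [← sh_md hW (_ + ct A), ← sh_md (per_mul hW) (_ + ct A)]
  rw [← sum_image (f := fun x => G (sh x (per n (mu A h v W) * W)) - G (sh x W)) hi]
  refine (sum_subset (image_subset_iff.2 fun z _ => md_mem (by omega) _) fun x hx h' => ?_).symm
  rcases near_far (n := n) (v := v) (W := W) hs k x with h1 | ⟨z, hz, h1⟩
  · rw [hG _ _ h1, sub_self]
  · exact absurd (mem_image.2 ⟨z, box_mono hρ hz, h1.trans (md_of_mem hx)⟩) h'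

variable {m : BF} {r : ℕ} {c d ε : ℝ}

theorem quad_ap (hb : Bd r r c m) (c0 : 0 ≤ c) (hs : ∀ a b, m a b = m b a)
    (hg : ∀ u b, m (gr u) b = 0) {U : Cf} {b : Fld} (h : Ap (r + 1) d (21 * d ^ 2) U b)
    (h2 : 1000 * (r + 1) * d ≤ 1) :
    ‖cx m (Bx 0 U) (Bx 0 U) - cx m b b‖ ≤ 10 ^ 9 * c * ((r + 1) * d) ^ 3 := by
  have δ0 := h.nonneg.1
  have r0 : (0 : ℝ) ≤ r := r.cast_nonneg
  have k0 : 0 ≤ r * d := by positivity
  have h1 := Bx_ap h (by nlinarith) h2
  have h3 := Sm_cg (Sm.cv fun e he => (h e he).1)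
  have e : cx m b b = cx m (cg b) (cg b) := by
    simp only [cg, cx_sub_left, cx_sub_right, cx_gr_left hg,
      cx_gr_right fun u b => (hs _ _).trans (hg u b), sub_zero]
  generalize Bx 0 U = X at *
  generalize cg b = Y at *
  have a1 : Sm r (22 * 10 ^ 4 * ((r + 1) * d) ^ 2) (X - Y) := h1.mono le_rfl (by
    nlinarith [mul_nonneg (mul_nonneg r0 (by linarith : (0 : ℝ) ≤ r + 1)) (sq_nonneg d)])
  have a2 : Sm r (12 * ((r + 1) * d)) Y := h3.mono le_rfl (by nlinarith)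
  have h4 : 1000 * ((r + 1) * d) ≤ 1 := by linarith
  have t0 : 0 ≤ (r + 1) * d := by positivity
  generalize (r + 1) * d = t at *
  have a3 : Sm r (220 * t) (X - Y) := a1.mono le_rfl (by nlinarith)
  have b1 := cx_bd hb a1 a3
  have b2 := cx_bd hb a1 a2
  have b3 := cx_bd hb a2 a1
  rw [e, show cx m X X - cx m Y Y = cx m (X - Y) (X - Y) + cx m (X - Y) Y + cx m Y (X - Y) by
    simp only [cx_sub_left, cx_sub_right]; ring]
  refine norm_add₃_le.trans ?_
  nlinarith [mul_nonneg c0 (pow_nonneg t0 3)]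

/-- the one form `h` in the direction `v` -/
def hv (h : V) (v : E3) : Fld := fun e => cE (h e • v)

theorem dd_hv (h : V) (v : E3) (x : St) (μ ν : Fin 3) : dd (hv h v) x μ ν = cE (dd h x μ ν • v) := by
  funext k
  simp [dd, hv, cE]
  ring

theorem ap_shift (hA : 1 ≤ A) (hn : 20 * A < n) (hs : Sp (3 * A + 1) h) (hW : curvG ε W)
    (h1 : ∀ e, 2 * (|h e| * ‖v‖) ≤ d) (h4 : 20 * (12 * A + 1) * ε ≤ d) (h6 : 10 ^ 5 * A * d ≤ 1) :
    Ap (12 * A) d (21 * d ^ 2) (cC (gauge Inv.inv (cmb Inv.inv W) (per n (mu A h v W) * W)))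
      (Bx 0 (cC W) + sh (-ct A) (hv h v)) := fun e he => by
  have A1 : (1 : ℝ) ≤ A := by exact_mod_cast hA
  have d0 : 0 ≤ d := le_trans (by positivity) (h1 e)
  have d1 : 10 ^ 5 * d ≤ 1 := by nlinarith
  obtain ⟨a1, a2, -⟩ := real_fix (R := 12 * A) hW (by push_cast; linarith)
  have b1 : ‖Bx 0 (cC W) e‖ ≤ d / 2 := (a2 e he).trans (by push_cast; linarith)
  have b2 : ‖sh (-ct A) (hv h v) e‖ ≤ d / 2 := (norm_cE _).1.trans (by
    rw [norm_smul, Real.norm_eq_abs]
    linarith [h1 (e.1 + -ct A, e.2)])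
  have b3 : cC (gauge Inv.inv (cmb Inv.inv W) (per n (mu A h v W) * W)) e =
      ex (sh (-ct A) (hv h v) e) * ex (Bx 0 (cC W) e) := by
    have := a1 e he
    rw [exF] at this
    rw [← this, sh_apply, hv, ← cS_exS, cC, cC, ← cS_mul, gauge, gauge, Pi.mul_apply,
      mu_per hA hn hs he, mu, ← sub_eq_add_neg]
    congr 1
    group
  have k : ∀ {b : C3}, ‖b‖ ≤ d / 2 → Nr (2 * d) (10 * (d / 2) ^ 2) (ex b) (io b) := fun {b} hb => by
    have c1 := ex_near hb (by linarith)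
    have c2 := norm_add_le_of_le c1 (norm_io b)
    rw [sub_add_cancel] at c2
    exact .of_le (c2.trans (by nlinarith)) c1
  have := ((k b2).mul (k b1)).le (by positivity) (by linarith)
  rw [← io_add, add_comm (sh _ _ e), ← b3] at this
  exact ⟨(norm_add_le_of_le b1 b2).trans_eq (by ring), this.2.trans (by nlinarith)⟩

theorem loc (hb : Bd r r c m) (c0 : 0 ≤ c) (hs : ∀ a b, m a b = m b a)
    (hg : ∀ u b, m (gr u) b = 0) (hr : Rng r r m) (hA : r + 2 ≤ A) {G : Conf} {u : St → S3}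
    {b : Fld} (h : Ap (12 * A) d (21 * d ^ 2) (cC (gauge Inv.inv u G)) b)
    (h6 : 10 ^ 5 * A * d ≤ 1) {x : St} (hx : x ∈ box (5 * A + 4 * A)) :
    |(cx m (Bx 0 (cC (sh x G))) (Bx 0 (cC (sh x G)))).re - (cx m (sh x b) (sh x b)).re| ≤
      10 ^ 9 * c * (A * d) ^ 3 := by
  have d0 := h.nonneg.1
  have A1 : (r : ℝ) + 2 ≤ A := by exact_mod_cast hA
  have a1 := quad_ap hb c0 hs hg ((h.mono (show r + 1 + (5 * A + 4 * A) ≤ _ by omega) le_rfl
    le_rfl).sh hx) (by nlinarith [r.cast_nonneg (α := ℝ)])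
  rw [← Bx_eq, cC_gauge, Bx_gauge fun x => uni_cS _, cx_adF m hr (uni_cS _), Bx_eq, sh_cC] at a1
  rw [← Complex.sub_re]
  refine (Complex.abs_re_le_norm _).trans (a1.trans ?_)
  gcongr
  linarith

theorem cx_hv (m : BF) (h : V) (v : E3) {X : Fld} (hX : RealF X) :
    (cx m (hv h v) X).re = ∑ a, v a * m h (reF X a) := by
  rw [cx_real m (fun e k => by simp [hv, cE]) hX, Complex.ofReal_re]
  refine sum_congr rfl fun a _ => ?_
  rw [show reF (hv h v) a = v a • h from funext fun e => by simp [reF, hv, cE, mul_comm]]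
  simp

theorem cx_hv' (m : BF) (h : V) (v : E3) : (cx m (hv h v) (hv h v)).re = ‖v‖ ^ 2 * m h h := by
  rw [cx_hv m h v (fun e k => by simp [hv, cE]), EuclideanSpace.real_norm_sq_eq, sum_mul]
  refine sum_congr rfl fun a _ => ?_
  rw [show reF (hv h v) a = v a • h from funext fun e => by simp [reF, hv, cE, mul_comm]]
  simp
  ring

theorem curv_shift {D : ℝ} (hA : 2 ≤ A) (hn : 20 * A < n) (hs : Sp (3 * A + 1) h) (hP : Per n W)
    (hW : curvG ε W) (h1 : ∀ e, 2 * (|h e| * ‖v‖) ≤ d) (h2 : Cv (4 * A) D h)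
    (h3 : D * ‖v‖ ≤ ε) (h4 : 20 * (12 * A + 1) * ε ≤ d) (h5 : 10 ^ 6 * d ^ 2 ≤ ε)
    (h6 : 10 ^ 5 * A * d ≤ 1) : curvG (7 * ε) (per n (mu A h v W) * W) := fun x μ ν => by
  have a1 := ap_shift (by omega) hn hs hW h1 h4 h6
  have hP' := per_mul (G := mu A h v W) hP
  have ε0 := hW.nonneg
  have d0 := a1.nonneg.1
  have A2 : (2 : ℝ) ≤ A := by exact_mod_cast hA
  have d1 : 10 ^ 5 * d ≤ 1 := by nlinarith
  rw [← zero_add x, ← hol_sh]
  rcases near_far (n := n) (v := v) (W := W) hs 1 x with b1 | ⟨z, hz, b1⟩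
  · have b2 := fun μ => b1 (0, μ) (mem_lbox.2 (zero_mem_box 1))
    have b3 := fun μ ν => b1 (0 + un μ, ν) (mem_lbox.2 (add_un_mem_box (zero_mem_box 0) μ))
    rw [hol, b2, b2, b3, b3]
    exact (hW.sh x 0 μ ν).trans (by linarith)
  · have hz' := add_mem_box hz (ct_mem A)
    have b2 := hol_ap' (a1.mono (show 3 * A + 1 + 1 + 4 * A + 1 ≤ _ by omega) le_rfl le_rfl)
      (by nlinarith) (by linarith) hz' μ ν
    have b3 := (real_fix (R := 12 * A) hW (by push_cast; linarith)).2.2 _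
      (box_mono (by omega) hz') μ ν
    have b4 : ‖dd (sh (-ct A) (hv h v)) (z + ct A) μ ν‖ ≤ ε := by
      rw [dd_sh, add_neg_cancel_right, dd_hv]
      refine (norm_cE _).1.trans ((norm_smul_le _ _).trans (le_trans ?_ h3))
      exact mul_le_mul_of_nonneg_right (h2 z (box_mono (by omega) hz) μ ν) (norm_nonneg _)
    have b7 := norm_add_le_of_le b3 b4
    rw [← dd_add] at b7
    have b5 := norm_add_le_of_le b2 ((norm_io _).trans (mul_le_mul_of_nonneg_left b7 (by norm_num)))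
    rw [sub_add_cancel, hol_cC, hol_gauge_inv, ← cq_one, cS, ← cq_sub] at b5
    rw [← sh_md hP', ← b1, sh_md hP', hol_sh, zero_add, ← S3.norm_conj_sub (cmb Inv.inv W (z + ct A))]
    refine ((norm_cq _).1.trans b5).trans ?_
    have b6 : ((12 * A + 1) * ε) ^ 2 ≤ (d / 20) ^ 2 := by gcongr; linarith
    push_cast
    linarith

theorem quad_shift {k : ℕ} {cL cU : ℝ} (hm : Inv k r cL cU m) (hb : Bd r r c m) (c0 : 0 ≤ c)
    (hA : r + 2 ≤ A) (hn : 20 * A < n) (hs : Sp (3 * A + 1) h) (hP : Per n W) (hW : curvG ε W)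
    (h1 : ∀ e, 2 * (|h e| * ‖v‖) ≤ d) (h4 : 20 * (12 * A + 1) * ε ≤ d) (h6 : 10 ^ 5 * A * d ≤ 1) :
    |∑ x ∈ cube n, ((cx m (Bx 0 (cC (sh x (per n (mu A h v W) * W))))
        (Bx 0 (cC (sh x (per n (mu A h v W) * W))))).re -
        (cx m (Bx 0 (cC (sh x W))) (Bx 0 (cC (sh x W)))).re) -
      (2 * ∑ a, v a * MM m (5 * A) h (reF (BB A W) a) + ‖v‖ ^ 2 * MM m (5 * A) h h)| ≤
      (10 * A + 1) ^ 3 * (2 * 10 ^ 9 * c * (A * d) ^ 3) := by
  have a1 := ap_shift (by omega) hn hs hW h1 h4 h6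
  have a2 := ap_shift (v := 0) (by omega) hn hs hW (fun e => by simpa using a1.nonneg.1) h4 h6
  rw [sum_near (v := v) hs hP (k := r + 1) (ρ := 5 * A) (by omega) (by omega)
    (G := fun U => (cx m (Bx 0 (cC U)) (Bx 0 (cC U))).re) fun U U' hU => by
      have : Agr r (Bx 0 (cC U)) (Bx 0 (cC U')) := Bx_agr fun e he => congrArg cS (hU e he)
      simp only [cx_agr hm.rng this this]]
  simp only [MM_apply, mul_sum]
  rw [sum_comm, ← sum_add_distrib, ← sum_sub_distrib]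
  refine (abs_sum_le_sum_abs _ _).trans ((sum_le_card_nsmul _ _ (2 * 10 ^ 9 * c * (A * d) ^ 3)
    fun z hz => ?_).trans_eq (by rw [card_box, nsmul_eq_mul]; push_cast; ring))
  have l1 := abs_le.1 (loc hb c0 hm.symm hm.gauge hm.rng hA a1 h6 (add_mem_box hz (ct_mem A)))
  have l2 := abs_le.1 (loc hb c0 hm.symm hm.gauge hm.rng hA a2 h6 (add_mem_box hz (ct_mem A)))
  have e1 : ∀ v, sh (z + ct A) (Bx 0 (cC W) + sh (-ct A) (hv h v)) =
      sh z (BB A W) + hv (sh z h) v := fun v => by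
    funext e
    simp [BB, hv, add_assoc]
  have e2 : per n (mu A h 0 W) * W = W := funext fun e => by simp [per, mu, exS_zero]
  have e3 : hv (sh z h) 0 = 0 := funext fun e => by simp [hv]
  have e4 : RealF (sh z (BB A W)) := fun e => Bx_real 0 W _
  rw [e1, e2, e3, add_zero] at l2
  rw [e1, cx_add_left, cx_add_right, cx_add_right, cx_symm hm.symm _ (hv _ _), Complex.add_re,
    Complex.add_re, Complex.add_re, cx_hv m _ v e4, cx_hv'] at l1
  simp only [reF_sh] at l1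
  rw [← mul_sum]
  exact abs_le.2 ⟨by linarith [l1.1, l2.2], by linarith [l1.2, l2.1]⟩

theorem phi_shift {R : ℕ} {ρ κ : ℝ} {φ : Fld → ℂ} (hφ : Tm R ρ κ φ) (hn : 20 * A + 2 * R + 10 < n)
    (hs : Sp (3 * A + 1) h) (hP : Per n W) (hW : curvG ε W)
    (hW' : curvG ε (per n (mu A h v W) * W)) (h7 : 1000 * (R + 1) * ε ≤ 1)
    (h8 : ε + 10 ^ 6 * ((R + 1) * ε) ^ 2 ≤ ρ) :
    |∑ x ∈ cube n, ((φ (Bx 0 (cC (sh x (per n (mu A h v W) * W))))).re -
      (φ (Bx 0 (cC (sh x W)))).re)| ≤ (6 * A + 2 * R + 7) ^ 3 * (2 * κ) := by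
  rw [sum_near (v := v) hs hP (k := R + 1 + 1) (ρ := 3 * A + R + 3) (by omega) (by omega)
    (G := fun U => (φ (Bx 0 (cC U))).re) fun U U' hU => by
      have : Agr (R + 1) (Bx 0 (cC U)) (Bx 0 (cC U')) := Bx_agr fun e he => congrArg cS (hU e he)
      refine congrArg _ (hφ.loc _ _ fun y hy μ ν => ?_)
      have b1 := fun μ => this (y, μ) (mem_lbox.2 (box_mono R.le_succ hy))
      have b2 := fun μ ν => this (y + un μ, ν) (mem_lbox.2 (add_un_mem_box hy μ))
      simp only [dd, b1, b2]]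
  have f1 : ∀ G x, curvG ε G → |(φ (Bx 0 (cC (sh x G)))).re| ≤ κ := fun G x hG =>
    (Complex.abs_re_le_norm _).trans (hφ.bd _ ((real_fix (hG.sh x) h7).2.2.mono le_rfl h8))
  exact (abs_sum_le_sum_abs _ _).trans ((sum_le_card_nsmul _ _ (κ + κ) fun z _ =>
    (abs_sub _ _).trans (add_le_add (f1 _ _ hW') (f1 _ _ hW))).trans_eq
      (by rw [card_box, nsmul_eq_mul]; push_cast; ring))

theorem dd_shift (hA : 2 ≤ A) (hn : 20 * A < n) (hs : Sp (3 * A + 1) h) (hW : curvG ε W)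
    (h1 : ∀ e, 2 * (|h e| * ‖v‖) ≤ d) (h4 : 20 * (12 * A + 1) * ε ≤ d) (h6 : 10 ^ 5 * A * d ≤ 1)
    {x : St} (hx : x ∈ box (6 * A)) (μ ν : Fin 3) :
    ‖dd (BB A (per n (mu A h v W) * W)) x μ ν - dd (BB A W) x μ ν - cE (dd h x μ ν • v)‖ ≤
      10 ^ 8 * (A * d) ^ 2 := by
  have a1 := ap_shift (by omega) hn hs hW h1 h4 h6
  have d0 := a1.nonneg.1
  have A2 : (2 : ℝ) ≤ A := by exact_mod_cast hA
  have d1 : 10 ^ 5 * d ≤ 1 := by nlinarith
  have b1 := (Bx_ap (a1.mono (show 6 * A + 4 * A + 1 + 1 ≤ _ by omega) le_rfl le_rfl)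
    (by nlinarith) (by push_cast; nlinarith)).cv _ (add_mem_box hx (ct_mem A)) μ ν
  rw [cC_gauge, Bx_gauge fun x => uni_cS _, dd_sub, dd_cg, dd_add, dd_sh, add_neg_cancel_right,
    dd_hv, cmb_zero, cS_one, show ∀ X : Fld, adF (fun _ => 1) X = X from
      fun X => funext fun e => adq_one _, ← sub_sub] at b1
  rw [BB, BB, dd_sh, dd_sh]
  refine b1.trans ?_
  push_cast
  nlinarith [mul_nonneg (show 0 ≤ (A : ℝ) ^ 2 - 2 * A by nlinarith) (sq_nonneg d),
    mul_nonneg (show 0 ≤ (A : ℝ) - 2 by linarith) (sq_nonneg d), sq_nonneg d]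

theorem shift {k R : ℕ} {cL cU β ρ κ D : ℝ} {φ : Fld → ℂ} (hm : Inv k r cL cU m) (hb : Bd r r c m)
    (c0 : 0 ≤ c) (hφ : Tm R ρ κ φ) (β0 : 0 ≤ β) (hA : r + 2 ≤ A) (hn : 20 * A + 2 * R + 10 < n)
    (hs : Sp (3 * A + 1) h) (h1 : ∀ e, 2 * (|h e| * ‖v‖) ≤ d) (h2 : Cv (4 * A) D h)
    (h3 : D * ‖v‖ ≤ ε) (h4 : 20 * (12 * A + 1) * ε ≤ d) (h5 : 10 ^ 6 * d ^ 2 ≤ ε)
    (h6 : 10 ^ 5 * A * d ≤ 1) (h7 : 1000 * (R + 1) * (7 * ε) ≤ 1)
    (h8 : 7 * ε + 10 ^ 6 * ((R + 1) * (7 * ε)) ^ 2 ≤ ρ) :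
    ∃ S : Conf → Conf, MeasurePreserving S PP PP ∧ ∀ U, curvG ε (per n U) →
      curvG (7 * ε) (per n (S U)) ∧
      |act β m φ n (per n (S U)) - act β m φ n (per n U) -
        β * (2 * ∑ a, v a * MM m (5 * A) h (reF (BB A (per n U)) a) + ‖v‖ ^ 2 * MM m (5 * A) h h)| ≤
        β * ((10 * A + 1) ^ 3 * (2 * 10 ^ 9 * c * (A * d) ^ 3)) + (6 * A + 2 * R + 7) ^ 3 * (2 * κ) ∧
      ∀ x ∈ box (6 * A), ∀ μ ν, ‖dd (BB A (per n (S U))) x μ ν - dd (BB A (per n U)) x μ ν -
        cE (dd h x μ ν • v)‖ ≤ 10 ^ 8 * (A * d) ^ 2 := by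
  refine ⟨_, mp_shift (v := v) (n := n) (by omega) (by omega) hs, fun U hW => ?_⟩
  have hP := Pv.per_per n U
  rw [show per n (mu A h v (per n U) * U) = per n (mu A h v (per n U)) * per n U from rfl]
  generalize per n U = W at *
  have a3 := curv_shift (by omega) (by omega) hs hP hW h1 h2 h3 h4 h5 h6
  refine ⟨a3, ?_, fun x hx => dd_shift (by omega) (by omega) hs hW h1 h4 h6 hx⟩
  have s3 := abs_le.1 (phi_shift hφ hn hs hP (hW.mono (by linarith [hW.nonneg])) a3 h7 h8)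
  have s4 := abs_le.1 (quad_shift hm hb c0 hA (show 20 * A < n by omega) hs hP hW h1 h4 h6)
  have s5 := mul_le_mul_of_nonneg_left s4.1 β0
  have s6 := mul_le_mul_of_nonneg_left s4.2 β0
  have e : ∀ U : Conf, act β m φ n U = β * ∑ x ∈ cube n, (cx m (Bx 0 (cC (sh x U)))
      (Bx 0 (cC (sh x U)))).re + ∑ x ∈ cube n, (φ (Bx 0 (cC (sh x U)))).re := fun U => by
    rw [act, mul_sum, ← sum_add_distrib]
    exact sum_congr rfl fun x _ => by rw [Complex.add_re, Complex.re_ofReal_mul, Bx_eq, sh_cC]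
  rw [sum_sub_distrib] at s3 s5 s6
  rw [e, e]
  exact abs_le.2 ⟨by linarith [s3.1], by linarith [s3.2]⟩

end Pool.Agent.Lib.MP_7f377f_mp.RG.D3.Hf
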