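import Pool.Agent.Lib.MP_2d4879_an.HS

/-! Spectral gap of a positive symmetric kernel from a trace bound and a minorisation on the
cycle of length three. -/

namespace Pool.Agent.Lib.MP_7f377f_mp.Hm

open Filter Topology MeasureTheory Pool.Agent.Lib.MP_2d4879_an
open scoped InnerProductSpace

variable {α : Type} [MeasurableSpace α] {μ : Measure α} [IsFiniteMeasure μ] {k : α → α → ℝ}

omit [IsFiniteMeasure μ] in
theorem pw_nonneg (h0 : ∀ x y, 0 ≤ k x y) : ∀ m x y, 0 ≤ pw μ k m x y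
  | 0, x, y => h0 x y
  | m + 1, x, y => integral_nonneg fun z => mul_nonneg (h0 x z) (pw_nonneg h0 m z y)

theorem row_ae (hk : GK k) (x : α) : hk.row μ x =ᵐ[μ] k x := (hk.memLp (μ := μ) x).coeFn_toLp

theorem cv_inner {f g : α → α → ℝ} (hf : GK f) (hg : GK g) (hs : ∀ x y, g x y = g y x) (x y : α) :
    cv μ f g x y = ⟪hf.row μ x, hg.row μ y⟫_ℝ := by
  rw [hf.inner_row]
  refine integral_congr_ae ?_
  filter_upwards [row_ae (μ := μ) hg y] with z hz
  rw [hz, hs]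

theorem row_pw (hk : GK k) (hs : ∀ x y, k x y = k y x) (y : α) :
    ∀ m, (hk.pw (μ := μ) m).row μ y = (hk.op μ ^ m) (hk.row μ y)
  | 0 => rfl
  | m + 1 => by
    rw [pow_succ', mul_apply_eq_comp, ← row_pw hk hs y m]
    refine Lp.ext ?_
    filter_upwards [row_ae (μ := μ) (hk.pw (μ := μ) (m + 1)) y,
      hk.op_ae' ((hk.pw (μ := μ) m).row μ y)] with z h1 h2
    rw [h1, h2, pw_symm hk hs, ← cv_inner hk (hk.pw m) (pw_symm hk hs m)]
    rfl

theorem pw_inner (hk : GK k) (hs : ∀ x y, k x y = k y x) (m : ℕ) (x y : α) :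
    pw μ k (m + 1) x y = ⟪hk.row μ x, (hk.op μ ^ m) (hk.row μ y)⟫_ℝ := by
  rw [← row_pw hk hs, ← cv_inner hk (hk.pw m) (pw_symm hk hs m)]
  rfl

theorem pw_one_diag (hk : GK k) (hs : ∀ x y, k x y = k y x) (x : α) :
    pw μ k 1 x x = ‖hk.row μ x‖ ^ 2 := by
  have := pw_inner (μ := μ) hk hs 0 x x
  rwa [pow_zero, one_apply_eq_self, real_inner_self_eq_norm_sq] at this

section Sp
variable {H : Type} [NormedAddCommGroup H] [InnerProductSpace ℝ H] {ι : Type}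

theorem inner_pow (T : H →L[ℝ] H) (hs : (T : H →ₗ[ℝ] H).IsSymmetric) {u : H} {c : ℝ}
    (hu : T u = c • u) (v : H) : ∀ m, ⟪u, (T ^ m) v⟫_ℝ = c ^ m * ⟪u, v⟫_ℝ
  | 0 => by simp
  | m + 1 => by
    have : ⟪u, T ((T ^ m) v)⟫_ℝ = ⟪T u, (T ^ m) v⟫_ℝ := (hs u _).symm
    rw [pow_succ', mul_apply_eq_comp, this, hu, inner_smul_left, inner_pow T hs hu v m]
    simp; ring

theorem norm_le_coef (b : HilbertBasis ι ℝ H) {v w : H} {M : ℝ} (hM : 0 ≤ M)
    (h : ∀ i, |⟪b i, w⟫_ℝ| ≤ M * |⟪b i, v⟫_ℝ|) : ‖w‖ ≤ M * ‖v‖ := by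
  have h1 := hasSum_le (fun i => ?_) (hasSum_normsq b w) ((hasSum_normsq b v).mul_left (M ^ 2))
  · rw [← mul_pow] at h1
    exact (pow_le_pow_iff_left₀ (norm_nonneg _) (by positivity) two_ne_zero).1 h1
  · rw [← sq_abs, ← sq_abs ⟪b i, v⟫_ℝ, ← mul_pow]
    gcongr
    exact h i

theorem norm_pow_le (T : H →L[ℝ] H) (hs : (T : H →ₗ[ℝ] H).IsSymmetric) (b : HilbertBasis ι ℝ H)
    {ev : ι → ℝ} (hb : ∀ i, T (b i) = ev i • b i) {M : ℝ} (hM : 0 ≤ M) (h : ∀ i, |ev i| ≤ M)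
    (m : ℕ) (v : H) : ‖(T ^ m) v‖ ≤ M ^ m * ‖v‖ := by
  refine norm_le_coef b (by positivity) fun i => ?_
  rw [inner_pow T hs (hb i), abs_mul, abs_pow]
  gcongr
  exact h i

theorem norm_pow_sub_le (T : H →L[ℝ] H) (hs : (T : H →ₗ[ℝ] H).IsSymmetric)
    (b : HilbertBasis ι ℝ H) {ev : ι → ℝ} (hb : ∀ i, T (b i) = ev i • b i) {M : ℝ} (hM : 0 ≤ M)
    (i0 : ι) (h : ∀ i, i ≠ i0 → |ev i| ≤ M) (m : ℕ) (v : H) :
    ‖(T ^ m) v - (ev i0 ^ m * ⟪b i0, v⟫_ℝ) • b i0‖ ≤ M ^ m * ‖v‖ := by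
  classical
  refine norm_le_coef b (by positivity) fun i => ?_
  rw [inner_sub_right, inner_pow T hs (hb i), inner_smul_right,
    orthonormal_iff_ite.1 b.orthonormal]
  split_ifs with hi
  · subst hi; simp; positivity
  · rw [mul_zero, sub_zero, abs_mul, abs_pow]
    gcongr
    exact h i hi

end Sp

/-- bounded measurable real functions -/
structure BF (f : α → ℝ) : Prop where
  meas : Measurable f
  bdd : ∃ C, ∀ x, |f x| ≤ C

theorem BF.memLp {f : α → ℝ} (hf : BF f) : MemLp f 2 μ := by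
  obtain ⟨C, hC⟩ := hf.bdd
  exact MemLp.of_bound hf.meas.aestronglyMeasurable C (Eventually.of_forall hC)

theorem BF.int {f : α → ℝ} (hf : BF f) : Integrable f μ := hf.memLp.integrable one_le_two

theorem BF.mul {f g : α → ℝ} (hf : BF f) (hg : BF g) : BF fun x => f x * g x := by
  obtain ⟨C, hC⟩ := hf.bdd
  obtain ⟨D, hD⟩ := hg.bdd
  exact ⟨hf.meas.mul hg.meas, C * D, fun x => by
    rw [abs_mul]; exact mul_le_mul (hC x) (hD x) (abs_nonneg _) ((abs_nonneg _).trans (hC x))⟩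

theorem BF.add {f g : α → ℝ} (hf : BF f) (hg : BF g) : BF fun x => f x + g x := by
  obtain ⟨C, hC⟩ := hf.bdd
  obtain ⟨D, hD⟩ := hg.bdd
  exact ⟨hf.meas.add hg.meas, C + D, fun x => (abs_add_le _ _).trans (add_le_add (hC x) (hD x))⟩

theorem BF.const (c : ℝ) : BF fun _ : α => c := ⟨measurable_const, |c|, fun _ => le_rfl⟩

theorem BF.neg {f : α → ℝ} (hf : BF f) : BF fun x => -f x := by
  obtain ⟨C, hC⟩ := hf.bdd
  exact ⟨hf.meas.neg, C, fun x => by rw [abs_neg]; exact hC x⟩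

theorem BF.abs {f : α → ℝ} (hf : BF f) : BF fun x => |f x| := by
  obtain ⟨C, hC⟩ := hf.bdd
  exact ⟨continuous_abs.measurable.comp hf.meas, C, fun x => by rw [abs_abs]; exact hC x⟩

theorem BF.pos {f : α → ℝ} (hf : BF f) : BF fun x => max (f x) 0 := by
  obtain ⟨C, hC⟩ := hf.bdd
  refine ⟨hf.meas.max measurable_const, C, fun x => le_trans ?_ (hC x)⟩
  rw [abs_of_nonneg (le_max_right _ _)]
  exact max_le (le_abs_self _) (abs_nonneg _)

theorem bf_act (hk : GK k) (f : Lp ℝ 2 μ) : BF fun x => ⟪hk.row μ x, f⟫_ℝ := by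
  obtain ⟨C, -, hC⟩ := hk.row_bdd (μ := μ)
  exact ⟨(hk.meas_act f).measurable, C * ‖f‖, fun x =>
    (abs_real_inner_le_norm _ _).trans (by gcongr; exact hC x)⟩

theorem bf_diag (hk : GK k) : BF fun x => k x x := by
  obtain ⟨C, -, hC⟩ := hk.bdd
  exact ⟨hk.meas_comp measurable_id measurable_id, C, fun x => hC x x⟩

theorem bf_norm (hk : GK k) (hs : ∀ x y, k x y = k y x) : BF fun x => ‖hk.row μ x‖ := by
  obtain ⟨C, -, hC⟩ := hk.row_bdd (μ := μ)
  refine ⟨?_, C, fun x => by rw [abs_norm]; exact hC x⟩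
  have : (fun x => ‖hk.row μ x‖) = fun x => √(pw μ k 1 x x) := by
    ext x; rw [pw_one_diag hk hs, Real.sqrt_sq (norm_nonneg _)]
  rw [this]
  exact (bf_diag (hk.pw 1)).meas.sqrt

/-- the class of a bounded function -/
noncomputable def BF.cl (μ : Measure α) [IsFiniteMeasure μ] {f : α → ℝ} (hf : BF f) : Lp ℝ 2 μ :=
  hf.memLp.toLp f

theorem BF.cl_ae {f : α → ℝ} (hf : BF f) : hf.cl μ =ᵐ[μ] f := hf.memLp.coeFn_toLp

theorem BF.inner_cl {f g : α → ℝ} (hf : BF f) (hg : BF g) :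
    ⟪hf.cl μ, hg.cl μ⟫_ℝ = ∫ x, f x * g x ∂μ := by
  rw [L2.inner_def]
  refine integral_congr_ae ?_
  filter_upwards [hf.cl_ae (μ := μ), hg.cl_ae (μ := μ)] with x h1 h2
  simp [h1, h2, mul_comm]

theorem BF.norm_cl {f : α → ℝ} (hf : BF f) : ‖hf.cl μ‖ ^ 2 = ∫ x, f x ^ 2 ∂μ := by
  rw [← real_inner_self_eq_norm_sq, hf.inner_cl hf]; simp only [sq]

theorem BF.inner_op {f g : α → ℝ} (hf : BF f) (hg : BF g) (hk : GK k) :
    ⟪hf.cl μ, hk.op μ (hg.cl μ)⟫_ℝ = ∫ x, ∫ y, f x * k x y * g y ∂μ ∂μ := by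
  rw [hk.inner_op]
  refine integral_congr_ae ?_
  filter_upwards [hf.cl_ae (μ := μ)] with x h1
  rw [h1, ← integral_const_mul]
  refine integral_congr_ae ?_
  filter_upwards [hg.cl_ae (μ := μ)] with y h2
  rw [h2, mul_assoc]

theorem cl_act (hk : GK k) (f : Lp ℝ 2 μ) : (bf_act hk f).cl μ = hk.op μ f := rfl

theorem bf_int {f : α → α → ℝ} (hf : GK f) : BF fun x => ∫ y, f x y ∂μ := by
  obtain ⟨C, -, hC⟩ := hf.bdd
  refine ⟨(hf.meas.stronglyMeasurable.integral_prod_right' (ν := μ)).measurable,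
    C * μ.real Set.univ, fun x => ?_⟩
  exact norm_integral_le_of_norm_le_const (μ := μ) (f := f x) (Eventually.of_forall fun y => hC x y)

theorem gk_mul {f g : α → α → ℝ} (hf : GK f) (hg : GK g) : GK fun x y => f x y * g x y := by
  obtain ⟨C, h0, hC⟩ := hf.bdd
  obtain ⟨D, h1, hD⟩ := hg.bdd
  exact ⟨hf.meas.mul hg.meas, C * D, by positivity, fun x y => by
    rw [abs_mul]; exact mul_le_mul (hC x y) (hD x y) (abs_nonneg _) h0⟩

theorem gk_swap {f : α → α → ℝ} (hf : GK f) : GK fun x y => f y x := by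
  obtain ⟨C, h0, hC⟩ := hf.bdd
  exact ⟨hf.meas_comp measurable_snd measurable_fst, C, h0, fun x y => hC y x⟩

theorem BF.gk_fst {f : α → ℝ} (hf : BF f) : GK fun x (_ : α) => f x := by
  obtain ⟨C, hC⟩ := hf.bdd
  exact ⟨hf.meas.comp measurable_fst, max C 0, le_max_right _ _,
    fun x _ => (hC x).trans (le_max_left _ _)⟩

theorem BF.gk_snd {f : α → ℝ} (hf : BF f) : GK fun (_ : α) y => f y := gk_swap hf.gk_fst

/-- there is an angle at which positive and negative part have the same norm -/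
theorem exists_angle {u v : α → ℝ} (hu : BF u) (hv : BF v) : ∃ θ : ℝ,
    ∫ x, (Real.cos θ * u x + Real.sin θ * v x) * |Real.cos θ * u x + Real.sin θ * v x| ∂μ = 0 := by
  set g : ℝ → ℝ := fun θ =>
    ∫ x, (Real.cos θ * u x + Real.sin θ * v x) * |Real.cos θ * u x + Real.sin θ * v x| ∂μ
  have hg : Continuous g := by
    obtain ⟨C, hC⟩ := hu.bdd
    obtain ⟨D, hD⟩ := hv.bdd
    refine continuous_of_dominated (bound := fun _ => (C + D) * (C + D)) (fun θ => ?_)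
      (fun θ => Eventually.of_forall fun x => ?_) (integrable_const _)
      (Eventually.of_forall fun x => by fun_prop)
    · have := ((BF.const (Real.cos θ)).mul hu).add ((BF.const (Real.sin θ)).mul hv)
      exact (this.mul this.abs).meas.aestronglyMeasurable
    · have : |Real.cos θ * u x + Real.sin θ * v x| ≤ C + D := by
        refine (abs_add_le _ _).trans (add_le_add ?_ ?_)
        · rw [abs_mul]
          exact (mul_le_of_le_one_left (abs_nonneg _) (Real.abs_cos_le_one θ)).trans (hC x)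
        · rw [abs_mul]
          exact (mul_le_of_le_one_left (abs_nonneg _) (Real.abs_sin_le_one θ)).trans (hD x)
      rw [Real.norm_eq_abs, abs_mul, abs_abs]
      exact mul_self_le_mul_self (abs_nonneg _) this
  have h1 : g Real.pi = -g 0 := by
    simp only [g, Real.cos_pi, Real.sin_pi, Real.cos_zero, Real.sin_zero, ← integral_neg]
    congr 1; ext x; simp
  rcases le_total (g 0) 0 with h | h
  · exact intermediate_value_univ 0 Real.pi hg ⟨h, by linarith⟩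
  · exact intermediate_value_univ Real.pi 0 hg ⟨by linarith, h⟩

theorem part_low {w κ z : α → ℝ} (hw : BF w) (hκ : BF κ) (hz : BF z) (h0 : ∀ x, 0 ≤ κ x)
    (h : ∀ x, w x ^ 2 ≤ z x) {δ : ℝ} (hδ : 0 ≤ δ) :
    ∫ x, max (w x) 0 ^ 2 ∂μ - δ ^ 2 * ∫ x, κ x ^ 2 ∂μ ≤ ∫ x in {x | δ * κ x ≤ w x}, z x ∂μ := by
  have hA : MeasurableSet {x | δ * κ x ≤ w x} := measurableSet_le (hκ.meas.const_mul δ) hw.meas
  have i1 : Integrable (fun x => max (w x) 0 ^ 2) μ := by simpa only [sq] using (hw.pos.mul hw.pos).int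
  have i2 : Integrable (fun x => δ ^ 2 * κ x ^ 2) μ := by
    simpa only [sq] using (hκ.mul hκ).int.const_mul _
  rw [← integral_const_mul, ← integral_sub i1 i2, ← integral_indicator hA]
  refine integral_mono (i1.sub i2) (hz.int.indicator hA) fun x => ?_
  have h1 := h x
  have h2 : 0 ≤ δ * κ x := mul_nonneg hδ (h0 x)
  by_cases hx : δ * κ x ≤ w x
  · rw [Set.indicator_of_mem (by exact hx), max_eq_left (h2.trans hx)]
    nlinarith [sq_nonneg (δ * κ x)]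
  · rw [Set.indicator_of_notMem (by exact hx)]
    have h3 : max (w x) 0 ≤ δ * κ x := max_le (not_le.1 hx).le h2
    have := pow_le_pow_left₀ (le_max_right _ _) h3 2
    simp only
    nlinarith

theorem gap_ev (hk : GK k) (hs : ∀ x y, k x y = k y x) (h0 : ∀ x y, 0 ≤ k x y) {ι : Type}
    (b : HilbertBasis ι ℝ (Lp ℝ 2 μ)) {ev : ι → ℝ} (hb : ∀ i, hk.op μ (b i) = ev i • b i)
    {l C c : ℝ} (hl : 0 < l) (hm : ∀ i, ev i ^ 2 ≤ l) {i0 : ι} (hi0 : ev i0 ^ 2 = l)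
    (hC : ∫ x, pw μ k 1 x x ∂μ ≤ C * l)
    (hD : ∀ A B, MeasurableSet A → MeasurableSet B → l ^ 3 / 32 ≤ ∫ x in A, pw μ k 5 x x ∂μ →
      l ^ 3 / 32 ≤ ∫ x in B, pw μ k 5 x x ∂μ →
      c * l ^ 3 ≤ ∫ x in A, ∫ y in B, pw μ k 1 x y * pw μ k 3 y x ∂μ ∂μ)
    {i1 : ι} (h1 : i1 ≠ i0) : ev i1 ^ 2 ≤ (1 - min (1 / 2) (c / C)) * l := by
  classical
  by_contra hcon
  rw [not_le] at hcon
  set T := hk.op μ with hT
  have hsy := hk.symm_op (μ := μ) hs
  set l1 := ev i1 ^ 2 with hl1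
  have hl1l : l1 ≤ l := hm i1
  have hl2 : l / 2 ≤ l1 := by nlinarith [min_le_left (1 / 2 : ℝ) (c / C)]
  have hl3 : l - l1 < c / C * l := by nlinarith [min_le_right (1 / 2 : ℝ) (c / C)]
  have hκ := bf_norm (μ := μ) hk hs
  set t0 := ∫ x, ‖hk.row μ x‖ ^ 2 ∂μ with ht0
  have ht : ∫ x, pw μ k 1 x x ∂μ = t0 := by simp only [pw_one_diag hk hs, ht0]
  rw [ht] at hC
  have ht1 : l ≤ t0 := by
    have := hk.bessel (μ := μ) b.orthonormal {i0}
    rwa [Finset.sum_singleton, hb, norm_smul, b.orthonormal.1 i0, mul_one, Real.norm_eq_abs,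
      sq_abs, hi0] at this
  have hC0 : 0 < C := by nlinarith
  have h2 := hk.pw (μ := μ) 2
  obtain ⟨θ, hθ⟩ := exists_angle (μ := μ) (bf_act h2 (b i0)) (bf_act h2 (b i1))
  set ψ : Lp ℝ 2 μ := Real.cos θ • b i0 + Real.sin θ • b i1 with hψ
  have hn : ∀ s t : ℝ, ‖s • b i0 + t • b i1‖ ^ 2 = s ^ 2 + t ^ 2 := fun s t => by
    rw [norm_add_sq_real, norm_smul, norm_smul, b.orthonormal.1, b.orthonormal.1, inner_smul_left,
      inner_smul_right, b.orthonormal.2 h1.symm]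
    simp
  have hcs := Real.cos_sq_add_sin_sq θ
  set φ : α → ℝ := fun x => ⟪h2.row μ x, ψ⟫_ℝ with hφ
  have bφ : BF φ := bf_act h2 ψ
  have hθ' : ∫ x, φ x * |φ x| ∂μ = 0 := by
    simpa only [hφ, hψ, inner_add_right, inner_smul_right] using hθ
  have hΦ : bφ.cl μ = (Real.cos θ * ev i0 ^ 3) • b i0 + (Real.sin θ * ev i1 ^ 3) • b i1 := by
    have : bφ.cl μ = h2.op μ ψ := rfl
    rw [this, hψ, map_add, map_smul, map_smul, op_pw hk (hb i0), op_pw hk (hb i1), smul_smul,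
      smul_smul]
  set N := ∫ x, φ x ^ 2 ∂μ with hN
  have hN1 : N = Real.cos θ ^ 2 * l ^ 3 + Real.sin θ ^ 2 * l1 ^ 3 := by
    rw [hN, ← bφ.norm_cl, hΦ, hn, ← hi0, hl1]; ring
  have hl10 : 0 < l1 := by linarith
  have hN2 : l ^ 3 / 8 ≤ N := by
    have a1 : (l / 2) ^ 3 ≤ l1 ^ 3 := by gcongr
    have a2 : l1 ^ 3 ≤ l ^ 3 := by gcongr
    have a3 : Real.cos θ ^ 2 * l1 ^ 3 ≤ Real.cos θ ^ 2 * l ^ 3 := by gcongr
    have a4 : Real.cos θ ^ 2 * l1 ^ 3 + Real.sin θ ^ 2 * l1 ^ 3 = l1 ^ 3 := by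
      rw [← add_mul, hcs, one_mul]
    rw [hN1]; linarith
  have hN0 : 0 < N := lt_of_lt_of_le (by positivity) hN2
  have hTΦ : l1 * N ≤ ‖T (bφ.cl μ)‖ ^ 2 := by
    rw [hΦ, map_add, map_smul, map_smul, hb, hb, smul_smul, smul_smul, hn, hN1]
    have e : (Real.cos θ * ev i0 ^ 3 * ev i0) ^ 2 + (Real.sin θ * ev i1 ^ 3 * ev i1) ^ 2 =
        Real.cos θ ^ 2 * l ^ 3 * l + Real.sin θ ^ 2 * l1 ^ 3 * l1 := by rw [← hi0, hl1]; ring
    have : Real.cos θ ^ 2 * l ^ 3 * l1 ≤ Real.cos θ ^ 2 * l ^ 3 * l := by gcongr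
    rw [e]; linarith
  have bp := bφ.pos
  have bq := bφ.neg.pos
  set P := bp.cl μ
  set Q := bq.cl μ
  have hPQ : bφ.cl μ = P - Q := by
    refine Lp.ext ?_
    filter_upwards [bφ.cl_ae (μ := μ), bp.cl_ae (μ := μ), bq.cl_ae (μ := μ), Lp.coeFn_sub P Q]
      with x a1 a2 a3 a4
    rw [a1, a4, Pi.sub_apply, a2, a3, max_zero_sub_max_neg_zero_eq_self]
  have hpq : ⟪P, Q⟫_ℝ = 0 := by
    rw [bp.inner_cl bq]
    refine integral_eq_zero_of_ae (Eventually.of_forall fun x => ?_)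
    rcases le_total (φ x) 0 with h | h
    · simp [max_eq_right h]
    · simp [max_eq_right (neg_nonpos.2 h)]
  have ip : Integrable (fun x => max (φ x) 0 ^ 2) μ := by simpa only [sq] using (bp.mul bp).int
  have iq : Integrable (fun x => max (-φ x) 0 ^ 2) μ := by simpa only [sq] using (bq.mul bq).int
  have hd : ∫ x, max (φ x) 0 ^ 2 ∂μ - ∫ x, max (-φ x) 0 ^ 2 ∂μ = 0 := by
    rw [← integral_sub ip iq]
    refine Eq.trans ?_ hθ'
    congr 1; ext x
    rcases le_total (φ x) 0 with h | h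
    · simp [max_eq_right h, max_eq_left (neg_nonneg.2 h), abs_of_nonpos h, sq]
    · simp [max_eq_left h, max_eq_right (neg_nonpos.2 h), abs_of_nonneg h, sq]
  have hsum : ‖P‖ ^ 2 + ‖Q‖ ^ 2 = N := by
    rw [hN, ← bφ.norm_cl, hPQ, norm_sub_sq_real, hpq]; ring
  have hev : ∀ i, |ev i| ≤ √l := fun i => Real.abs_le_sqrt (hm i)
  have hsq : √l ^ 2 = l := Real.sq_sqrt hl.le
  have hup : ‖T (P + Q)‖ ^ 2 ≤ l * N := by
    have := norm_pow_le T hsy b hb (Real.sqrt_nonneg l) hev 1 (P + Q)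
    rw [pow_one, pow_one] at this
    have := pow_le_pow_left₀ (norm_nonneg _) this 2
    rwa [mul_pow, hsq, norm_add_sq_real P, hpq, mul_zero, add_zero, hsum] at this
  set J := ∫ x, ∫ y, max (φ x) 0 * pw μ k 1 x y * max (-φ y) 0 ∂μ ∂μ with hJ
  have hJ1 : ⟪T P, T Q⟫_ℝ = J := by
    have a1 : ⟪T P, T Q⟫_ℝ = ⟪P, T (T Q)⟫_ℝ := hsy P (T Q)
    rw [a1, hJ, ← bp.inner_op bq (hk.pw 1), hT, ← op_cv hk hk]
    rfl
  have hJ2 : 4 * J ≤ (l - l1) * N := by
    rw [hPQ, map_sub, norm_sub_sq_real, hJ1] at hTΦ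
    rw [map_add, norm_add_sq_real, hJ1] at hup
    linarith
  rw [bp.norm_cl, bq.norm_cl] at hsum
  clear hTΦ hup hJ1 hPQ hΦ hN1 hθ hθ' hcon hpq
  clear_value P Q N l1
  have ht00 : 0 < t0 := by linarith
  set δ := √(N / (4 * t0)) with hδ
  have hδ0 : 0 < δ := Real.sqrt_pos.2 (by positivity)
  have hδ2 : δ ^ 2 * t0 = N / 4 := by
    rw [hδ, Real.sq_sqrt (by positivity)]; field_simp
  have hz : ∀ x, φ x ^ 2 ≤ pw μ k 5 x x := fun x => by
    have a1 : pw μ k 5 x x = ‖h2.row μ x‖ ^ 2 := by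
      rw [← real_inner_self_eq_norm_sq, ← cv_inner h2 h2 (pw_symm hk hs 2), ← pw_add hk]
    have a2 : ‖ψ‖ ^ 2 = 1 := by rw [hψ, hn, hcs]
    have := pow_le_pow_left₀ (abs_nonneg _) (abs_real_inner_le_norm (h2.row μ x) ψ) 2
    rwa [sq_abs, mul_pow, a2, mul_one, ← a1] at this
  have bz := bf_diag (hk.pw (μ := μ) 5)
  have hA := part_low (μ := μ) bφ hκ bz (fun _ => norm_nonneg _) hz hδ0.le
  have hB := part_low (μ := μ) bφ.neg hκ bz (fun _ => norm_nonneg _)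
    (fun x => by rw [neg_sq]; exact hz x) hδ0.le
  have mA : MeasurableSet {x | δ * ‖hk.row μ x‖ ≤ φ x} :=
    measurableSet_le (hκ.meas.const_mul δ) bφ.meas
  have mB : MeasurableSet {x | δ * ‖hk.row μ x‖ ≤ -φ x} :=
    measurableSet_le (hκ.meas.const_mul δ) bφ.neg.meas
  have key := hD _ _ mA mB (by rw [← ht0] at hA; linarith) (by rw [← ht0] at hB; linarith)
  have g1 := gk_mul (hk.pw (μ := μ) 1) (gk_swap (hk.pw (μ := μ) 3))
  have g2 := gk_mul (gk_mul bp.gk_fst (hk.pw (μ := μ) 1)) bq.gk_snd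
  have hK := pw_nonneg (μ := μ) h0 1
  have hfin : δ ^ 2 * ∫ x in {x | δ * ‖hk.row μ x‖ ≤ φ x}, ∫ y in {x | δ * ‖hk.row μ x‖ ≤ -φ x},
      pw μ k 1 x y * pw μ k 3 y x ∂μ ∂μ ≤ l * J := by
    rw [← integral_const_mul, hJ, ← integral_const_mul]
    have n2 : ∀ x y, 0 ≤ max (φ x) 0 * pw μ k 1 x y * max (-φ y) 0 := fun x y =>
      mul_nonneg (mul_nonneg (le_max_right _ _) (hK x y)) (le_max_right _ _)
    refine le_trans (setIntegral_mono_on ?_ ((bf_int g2).int.const_mul l).integrableOn mA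
      fun x hx => ?_) (setIntegral_le_integral ((bf_int g2).int.const_mul l)
        (Eventually.of_forall fun x => mul_nonneg hl.le (integral_nonneg (n2 x))))
    · exact ((bf_int (μ := μ.restrict _) g1).int.const_mul _)
    rw [← integral_const_mul, ← integral_const_mul]
    refine le_trans (setIntegral_mono_on ((g1.int_row x).const_mul _).integrableOn
      ((g2.int_row x).const_mul l).integrableOn mB fun y hy => ?_)
      (setIntegral_le_integral ((g2.int_row x).const_mul l)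
        (Eventually.of_forall fun y => mul_nonneg hl.le (n2 x y)))
    have a1 : pw μ k 3 y x ≤ ‖hk.row μ y‖ * (l * ‖hk.row μ x‖) := by
      have := norm_pow_le T hsy b hb (Real.sqrt_nonneg l) hev 2 (hk.row μ x)
      rw [hsq] at this
      rw [pw_inner hk hs 2]
      exact (real_inner_le_norm _ _).trans (by gcongr)
    have a2 : δ * ‖hk.row μ x‖ ≤ max (φ x) 0 := le_max_of_le_left hx
    have a3 : δ * ‖hk.row μ y‖ ≤ max (-φ y) 0 := le_max_of_le_left hy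
    have := hK x y
    calc δ ^ 2 * (pw μ k 1 x y * pw μ k 3 y x)
        ≤ δ ^ 2 * (pw μ k 1 x y * (‖hk.row μ y‖ * (l * ‖hk.row μ x‖))) := by gcongr
      _ = l * (δ * ‖hk.row μ x‖ * pw μ k 1 x y * (δ * ‖hk.row μ y‖)) := by ring
      _ ≤ _ := by gcongr
  have e1 : δ ^ 2 * (c * l ^ 3) ≤ l * J := le_trans (by gcongr) hfin
  have e2 : C * (l - l1) < c * l := by
    have := mul_lt_mul_of_pos_left hl3 hC0
    rwa [← mul_assoc, mul_div_cancel₀ _ hC0.ne'] at this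
  have e3 : N / 4 * (c * l ^ 3) ≤ t0 * (l * J) := by
    rw [← hδ2, mul_comm (δ ^ 2), mul_assoc]; gcongr
  have e4 : t0 * (l * (4 * J)) ≤ C * l * (l * ((l - l1) * N)) := by
    have : 0 ≤ (l - l1) * N := mul_nonneg (by linarith) hN0.le
    calc t0 * (l * (4 * J)) ≤ t0 * (l * ((l - l1) * N)) := by gcongr
      _ ≤ _ := by gcongr
  have e5 : C * (l - l1) * (l ^ 2 * N) < c * l * (l ^ 2 * N) := by gcongr
  nlinarith

end Pool.Agent.Lib.MP_7f377f_mp.Hm
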