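import Pool.Agent.Lib.MP_7f377f_mp.RGMeasHaar

/-! Contraction of long discrete loops in the three sphere with uniformly small steps. -/

noncomputable section

namespace Pool.Agent.Lib.MP_7f377f_mp.RG.D3.Jn

open Ms
open scoped Quaternion RealInnerProductSpace

theorem nrq_self (g : S3) : nrq g.q = g :=
  q_inj (by rw [nrq_q (norm_ne_zero_iff.1 (by simp [norm_q])), norm_q, inv_one, one_smul])

theorem nrq_lip {u v : ℍ} (hu : 2⁻¹ ≤ ‖u‖) (hv : 2⁻¹ ≤ ‖v‖) :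
    ‖(nrq u).q - (nrq v).q‖ ≤ 4 * ‖u - v‖ := by
  have u0 : 0 < ‖u‖ := by linarith
  have v0 : 0 < ‖v‖ := by linarith
  rw [nrq_q (norm_pos_iff.1 u0), nrq_q (norm_pos_iff.1 v0),
    show ‖u‖⁻¹ • u - ‖v‖⁻¹ • v = ‖u‖⁻¹ • (u - v + ((‖v‖ - ‖u‖) / ‖v‖) • v) by
      match_scalars <;> (field_simp; try ring), norm_smul, norm_inv, norm_norm, inv_mul_le_iff₀ u0]
  refine (norm_add_le _ _).trans ?_
  rw [norm_smul, norm_div, norm_norm, div_mul_cancel₀ _ v0.ne', Real.norm_eq_abs, abs_sub_comm]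
  nlinarith [abs_norm_sub_norm_le u v, norm_nonneg (u - v)]

theorem ex_ch (a b c : ℍ) : ∃ q : ℍ, ‖q‖ = 1 ∧ ⟪1, q⟫ = 0 ∧ 0 ≤ ⟪a, q⟫ ∧ 0 ≤ ⟪b, q⟫ ∧ 0 ≤ ⟪c, q⟫ := by
  obtain ⟨q, hq, q0⟩ := Submodule.exists_mem_ne_zero_of_ne_bot (LinearMap.ker_ne_bot_of_finrank_lt
    (f := LinearMap.pi fun i => (innerSL ℝ (![1, a, b] i)).toLinearMap)
    (by simp [Quaternion.finrank_eq_four]))
  have h := fun i => congrFun (LinearMap.mem_ker.1 hq) i
  have h0 : ⟪1, q⟫ = 0 := h 0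
  have h1 : ⟪a, q⟫ = 0 := h 1
  have h2 : ⟪b, q⟫ = 0 := h 2
  have n := norm_pos_iff.2 q0
  rcases le_total 0 ⟪c, q⟫ with e | e
  · exact ⟨‖q‖⁻¹ • q, by simp [norm_smul, n.ne'], by simp [inner_smul_right, *],
      by simp [inner_smul_right, *], by simp [inner_smul_right, *],
      by rw [inner_smul_right]; positivity⟩
  · exact ⟨‖q‖⁻¹ • -q, by simp [norm_smul, n.ne'], by simp [inner_smul_right, *],
      by simp [inner_smul_right, *], by simp [inner_smul_right, *],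
      by rw [inner_smul_right, inner_neg_right]; exact mul_nonneg (by positivity) (by linarith)⟩

theorem sq_comb (a b : ℝ) (u v : ℍ) :
    ‖a • u + b • v‖ ^ 2 = a ^ 2 * ‖u‖ ^ 2 + 2 * a * b * ⟪u, v⟫ + b ^ 2 * ‖v‖ ^ 2 := by
  rw [norm_add_sq_real, norm_smul, norm_smul, inner_smul_left, inner_smul_right, mul_pow, mul_pow,
    Real.norm_eq_abs, Real.norm_eq_abs, sq_abs, sq_abs]
  simp; ring

theorem seg_norm {a : ℝ} {u v : ℍ} (a0 : 0 ≤ a) (a1 : a ≤ 1) (hu : ‖u‖ = 1) (hv : 2⁻¹ ≤ ‖v‖ ^ 2)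
    (h : -10⁻¹ ≤ ⟪u, v⟫) : 2⁻¹ ≤ ‖a • u + (1 - a) • v‖ := by
  refine le_of_sq_le_sq ?_ (norm_nonneg _)
  rw [sq_comb, hu]
  nlinarith [mul_le_mul_of_nonneg_left h (mul_nonneg a0 (sub_nonneg.2 a1)), sq_nonneg (3 * a - 1),
    mul_le_mul_of_nonneg_left hv (sq_nonneg (1 - a))]

/-- piecewise linear interpolation -/
def pl (q : ℤ → ℍ) (s : ℝ) : ℍ := (1 - Int.fract s) • q ⌊s⌋ + Int.fract s • q (⌊s⌋ + 1)

theorem norm_pl {q : ℤ → ℍ} (hq : ∀ i, ‖q i‖ = 1) (s : ℝ) : ‖pl q s‖ ≤ 1 := by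
  have a := Int.fract_nonneg s
  have b := Int.fract_lt_one s
  refine (norm_add_le _ _).trans ?_
  rw [norm_smul, norm_smul, hq, hq, Real.norm_of_nonneg a, Real.norm_of_nonneg (by linarith)]
  linarith

theorem pl_lip {q : ℤ → ℍ} (hq : ∀ i, ‖q i‖ = 1) (s : ℝ) {h : ℝ} (h0 : 0 ≤ h) :
    ‖pl q (s + h) - pl q s‖ ≤ 2 * h := by
  have a := Int.fract_nonneg s
  have b := Int.fract_lt_one s
  have c := Int.floor_add_fract s
  have d : ∀ i, ‖q (i + 1) - q i‖ ≤ 2 := fun i => (norm_sub_le _ _).trans (by rw [hq, hq]; norm_num)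
  rcases le_or_gt 1 h with h1 | h1
  · exact (norm_sub_le _ _).trans (by linarith [norm_pl hq (s + h), norm_pl hq s])
  rcases lt_or_ge (Int.fract s + h) 1 with h2 | h2
  · have e : ⌊s + h⌋ = ⌊s⌋ := Int.floor_eq_iff.2 ⟨by linarith, by linarith⟩
    rw [show pl q (s + h) - pl q s = h • (q (⌊s⌋ + 1) - q ⌊s⌋) by
      simp only [pl, Int.fract, e]; module, norm_smul, Real.norm_of_nonneg h0]
    nlinarith [d ⌊s⌋]
  · have e : ⌊s + h⌋ = ⌊s⌋ + 1 := Int.floor_eq_iff.2 ⟨by push_cast; linarith, by push_cast; linarith⟩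
    rw [show pl q (s + h) - pl q s = (Int.fract s + h - 1) • (q (⌊s⌋ + 1 + 1) - q (⌊s⌋ + 1)) +
      (1 - Int.fract s) • (q (⌊s⌋ + 1) - q ⌊s⌋) by simp only [pl, Int.fract, e]; push_cast; module]
    refine (norm_add_le _ _).trans ?_
    rw [norm_smul, norm_smul, Real.norm_of_nonneg (by linarith), Real.norm_of_nonneg (by linarith)]
    nlinarith [d ⌊s⌋, d (⌊s⌋ + 1)]

theorem steps {V : ℤ → ℍ} {δ : ℝ} (h : ∀ x, ‖V (x + 1) - V x‖ ≤ δ) (x y : ℤ) :
    ‖V y - V x‖ ≤ |(y : ℝ) - x| * δ := by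
  wlog e : x ≤ y generalizing x y
  · rw [norm_sub_rev, abs_sub_comm]; exact this _ _ (by omega)
  induction y, e using Int.leInduction with
  | base => simp
  | succ y e ih =>
    have : (x : ℝ) ≤ y := by exact_mod_cast e
    rw [abs_of_nonneg (by push_cast; linarith)] at ih ⊢
    have := norm_add_le (V (y + 1) - V y) (V y - V x)
    rw [sub_add_sub_cancel] at this
    push_cast; nlinarith [h y]

/-- a loop of imaginary quaternions which is nowhere opposite to the given loop -/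
theorem ex_P {n : ℕ} {δ : ℝ} {V : ℤ → S3} (h1 : 1 ≤ n * δ) (h2 : 20 * δ ≤ 1)
    (hp : ∀ x, V (x + n) = V x) (h : ∀ x, ‖(V (x + 1)).q - (V x).q‖ ≤ δ) :
    ∃ P : ℤ → ℍ, (∀ x, P (x + n) = P x) ∧ (∀ x, ‖P (x + 1) - P x‖ ≤ 44 * δ) ∧
      ∀ x, ‖P x‖ ≤ 1 ∧ 2⁻¹ ≤ ‖P x‖ ^ 2 ∧ ⟪1, P x⟫ = 0 ∧ -10⁻¹ ≤ ⟪(V x).q, P x⟫ := by
  choose c c1 c2 c3 c4 c5 using ex_ch
  have n0 : (0 : ℝ) < n := lt_of_le_of_ne n.cast_nonneg fun e => by rw [← e] at h1; linarith
  have d0 : 0 < δ := by nlinarith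
  obtain ⟨M, M1, M2⟩ : ∃ M : ℕ, 10 * (n * δ) ≤ M ∧ M ≤ 11 * (n * δ) :=
    ⟨_, Nat.le_ceil _, by linarith [Nat.ceil_lt_add_one (by positivity : 0 ≤ 10 * (n * δ))]⟩
  have M0 : (0 : ℝ) < M := by linarith
  set ρ : ℝ := n / (2 * M) with hρ
  have r0 : 0 < ρ := by positivity
  have r1 : 20 * (ρ * δ) ≤ 1 := by
    rw [hρ, div_mul_eq_mul_div, ← mul_div_assoc, div_le_one (by positivity)]; linarith
  set v : ℤ → ℍ := fun i => (V ⌊i * ρ⌋).q with hv
  set q : ℤ → ℍ := fun i => if Even i then c (v i) 0 0 else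
    c (v i) (c (v (i - 1)) 0 0) (c (v (i + 1)) 0 0) with hq
  have vp : ∀ i, v (i + 2 * M) = v i := fun i => by
    simp only [hv]
    rw [← hp ⌊i * ρ⌋, ← Int.floor_add_natCast]
    congr 3; rw [hρ]; push_cast; field_simp
  have qp : ∀ i, q (i + 2 * M) = q i := fun i => by
    simp only [hq, add_sub_right_comm i, add_right_comm i _ 1, vp, Int.even_add, even_two_mul,
      iff_true]
  have q1 : ∀ i, ‖q i‖ = 1 ∧ ⟪1, q i⟫ = 0 ∧ 0 ≤ ⟪v i, q i⟫ := fun i => by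
    simp only [hq]; split_ifs <;> exact ⟨c1 .., c2 .., c3 ..⟩
  have q2 : ∀ i, 0 ≤ ⟪q i, q (i + 1)⟫ := fun i => by
    by_cases e : Even i
    · simp only [hq, e, Int.even_add_one, not_true, if_true, if_false, add_sub_cancel_right, c4]
    · rw [real_inner_comm]
      simp only [hq, e, Int.even_add_one, not_false_iff, if_true, if_false, c5]
  refine ⟨fun x => pl q (x / ρ), fun x => ?_, fun x => ?_, fun x => ?_⟩ <;> beta_reduce
  · rw [show ((x + n : ℤ) : ℝ) / ρ = x / ρ + (2 * M : ℤ) by rw [hρ]; push_cast; field_simp]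
    simp only [pl, Int.fract_add_intCast, Int.floor_add_intCast, add_right_comm _ _ (1 : ℤ), qp]
  · rw [Int.cast_add, add_div]
    refine (pl_lip (fun i => (q1 i).1) _ (by positivity)).trans ?_
    rw [hρ, Int.cast_one, one_div_div, ← mul_div_assoc, div_le_iff₀ n0]; linarith
  · have a := Int.fract_nonneg (x / ρ)
    have b := Int.fract_lt_one (x / ρ)
    have k : ∀ i : ℤ, |x / ρ - i| ≤ 1 → -10⁻¹ ≤ ⟪(V x).q, q i⟫ := fun i hi => by
      have e1 : |(x : ℝ) - i * ρ| ≤ ρ := by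
        rw [show (x : ℝ) - i * ρ = (x / ρ - i) * ρ by field_simp, abs_mul, abs_of_pos r0]; nlinarith
      have e2 : |(x : ℝ) - ⌊i * ρ⌋| ≤ ρ + 1 := by
        rw [abs_le] at e1 ⊢
        constructor <;> linarith [Int.floor_le (i * ρ), Int.lt_floor_add_one (i * ρ)]
      have e3 := (steps (V := fun x => (V x).q) h ⌊i * ρ⌋ x).trans
        (mul_le_mul_of_nonneg_right e2 d0.le)
      have e4 := abs_real_inner_le_norm ((V x).q - v i) (q i)
      rw [inner_sub_left, (q1 i).1] at e4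
      nlinarith [(q1 i).2.2, neg_abs_le (⟪(V x).q, q i⟫ - ⟪v i, q i⟫)]
    have c := Int.floor_add_fract (x / ρ)
    have k0 := k ⌊x / ρ⌋ (abs_le.2 ⟨by linarith, by linarith⟩)
    have k1 := k (⌊x / ρ⌋ + 1) (abs_le.2 ⟨by push_cast; linarith, by push_cast; linarith⟩)
    refine ⟨norm_pl (fun i => (q1 i).1) _, ?_, ?_, ?_⟩
    · rw [pl, sq_comb, (q1 _).1, (q1 _).1]
      nlinarith [mul_nonneg (mul_nonneg a (sub_nonneg.2 b.le)) (q2 ⌊x / ρ⌋),
        sq_nonneg (2 * Int.fract (x / ρ) - 1)]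
    · simp [pl, inner_add_right, inner_smul_right, q1]
    · rw [pl, inner_add_right, inner_smul_right, inner_smul_right]
      nlinarith

/-- contraction of a loop in time `2 T` -/
theorem loop_main {n T : ℕ} {δ : ℝ} {V : ℤ → S3} (h1 : 1 ≤ n * δ) (h2 : 20 * δ ≤ 1)
    (hT : 1 ≤ T * δ) (hp : ∀ x, V (x + n) = V x) (h : ∀ x, ‖(V (x + 1)).q - (V x).q‖ ≤ δ) :
    ∃ H : ℕ → ℤ → S3, H 0 = V ∧ (∀ t, 2 * T ≤ t → H t = 1) ∧ (∀ t x, H t (x + n) = H t x) ∧
      (∀ t x, ‖(H t (x + 1)).q - (H t x).q‖ ≤ 180 * δ) ∧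
      ∀ t x, ‖(H (t + 1) x).q - (H t x).q‖ ≤ 16 * δ := by
  obtain ⟨P, p1, p2, p3⟩ := ex_P h1 h2 hp h
  have T0 : (0 : ℝ) < T := lt_of_le_of_ne T.cast_nonneg fun e => by rw [← e] at hT; linarith
  have d0 : 0 < δ := by nlinarith
  have iT : (T : ℝ)⁻¹ ≤ δ := by rw [inv_le_iff_one_le_mul₀' T0]; exact hT
  set a : ℕ → ℝ := fun t => max 0 (1 - t / T) with ha
  set c : ℕ → ℝ := fun t => min 1 (max 0 (t / T - 1)) with hc
  have k : ∀ t, 0 ≤ a t ∧ a t ≤ 1 ∧ 0 ≤ c t ∧ c t ≤ 1 ∧ (a t = 0 ∨ c t = 0) := fun t => by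
    have : (0 : ℝ) ≤ t / T := by positivity
    refine ⟨le_max_left _ _, max_le zero_le_one (by linarith), le_min zero_le_one (le_max_left _ _),
      min_le_left _ _, (le_total 1 (t / T : ℝ)).imp (fun e => max_eq_left (by linarith)) fun e => ?_⟩
    simp only [hc, max_eq_left (sub_nonpos.2 e), min_eq_right zero_le_one]
  have l : ∀ t, |a (t + 1) - a t| ≤ δ ∧ |c (t + 1) - c t| ≤ δ := fun t => by
    have e : |(T : ℝ)⁻¹| ≤ δ := (abs_of_pos (inv_pos.2 T0)).trans_le iT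
    refine ⟨(abs_max_sub_max_le_max ..).trans ?_, (abs_min_sub_min_le_max ..).trans
      (max_le (by simpa using d0.le) ((abs_max_sub_max_le_max ..).trans ?_))⟩ <;>
      simpa [add_div, d0.le] using e
  set W : ℕ → ℤ → ℍ := fun t x => a t • (V x).q + (1 - a t - c t) • P x + c t • 1 with hW
  have w : ∀ t x, 2⁻¹ ≤ ‖W t x‖ := fun t x => by
    obtain ⟨k1, k2, k3, k4, e | e⟩ := k t
    · simpa [hW, e, add_comm] using seg_norm k3 k4 norm_one (p3 x).2.1 (by simp [p3])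
    · simpa [hW, e] using seg_norm k1 k2 (norm_q (V x)) (p3 x).2.1 (p3 x).2.2.2
  refine ⟨fun t x => nrq (W t x), funext fun x => ?_, fun t ht => funext fun x => ?_,
    fun t x => by simp only [hW, hp, p1], fun t x => (nrq_lip (w _ _) (w _ _)).trans ?_,
    fun t x => (nrq_lip (w _ _) (w _ _)).trans ?_⟩
  · simp [hW, ha, hc, nrq_self]
  · have : (2 : ℝ) ≤ t / T := by rw [le_div_iff₀ T0]; exact_mod_cast ht
    have e1 : a t = 0 := max_eq_left (by linarith)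
    have e2 : c t = 1 := min_eq_left (le_max_of_le_right (by linarith))
    simpa [hW, e1, e2, q_one] using nrq_self 1
  · obtain ⟨k1, k2, k3, k4, e⟩ := k t
    have b0 : 0 ≤ 1 - a t - c t := by rcases e with e | e <;> linarith
    rw [show W t (x + 1) - W t x = a t • ((V (x + 1)).q - (V x).q) +
      (1 - a t - c t) • (P (x + 1) - P x) by simp only [hW]; module]
    have := norm_add_le (a t • ((V (x + 1)).q - (V x).q)) ((1 - a t - c t) • (P (x + 1) - P x))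
    rw [norm_smul, norm_smul, Real.norm_of_nonneg k1, Real.norm_of_nonneg b0] at this
    nlinarith [h x, p2 x, norm_nonneg ((V (x + 1)).q - (V x).q), norm_nonneg (P (x + 1) - P x)]
  · rw [show W (t + 1) x - W t x = (a (t + 1) - a t) • ((V x).q - P x) +
      (c (t + 1) - c t) • (1 - P x) by simp only [hW]; module]
    have := norm_add_le ((a (t + 1) - a t) • ((V x).q - P x)) ((c (t + 1) - c t) • (1 - P x))
    have e1 := norm_sub_le (V x).q (P x)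
    have e2 := norm_sub_le 1 (P x)
    rw [norm_smul, norm_smul, Real.norm_eq_abs, Real.norm_eq_abs] at this
    rw [norm_q] at e1
    rw [norm_one] at e2
    nlinarith [l t, (p3 x).1, abs_nonneg (a (t + 1) - a t), abs_nonneg (c (t + 1) - c t),
      norm_nonneg ((V x).q - P x), norm_nonneg (1 - P x)]

end Pool.Agent.Lib.MP_7f377f_mp.RG.D3.Jn
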