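import Pool.Agent.Lib.MP_7f377f_mp.R3Ap2

/-! The comb gauge chart: covariance, locality, second order estimates. -/

noncomputable section

namespace Pool.Agent.Lib.MP_7f377f_mp.RG.D3

open Finset
open scoped Quaternion

theorem Bx_eq (x : St) (U : Cf) : Bx x U = Bx 0 (sh x U) := by
  funext e
  simp only [Bx, sh_zero]

theorem Bx_zero (U : Cf) (e : Lk) :
    Bx 0 U e = ch (cmb star U e.1 * U e * star (cmb star U (e.1 + un e.2))) := by
  simp only [Bx, sh_zero, gauge]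

theorem Bx_sh (x y : St) (U : Cf) : Bx x (sh y U) = Bx (x + y) U := by
  rw [Bx_eq, sh_sh, ← Bx_eq]

theorem Bx_tr (U : Cf) {p : St} {ν : Fin 3} (h : Tr p ν) : Bx 0 U (p, ν) = 0 := by
  rw [Bx_zero]
  rcases le_or_gt 0 (p ν) with h0 | h0
  · rw [← cmb_fwd _ _ h h0, Quaternion.self_mul_star, ch_coe]
  · rw [cmb_bwd _ _ h h0, mul_assoc (cmb _ _ _), Quaternion.star_mul_self,
      Quaternion.mul_coe_eq_smul, smul_mul_assoc, Quaternion.self_mul_star, Quaternion.smul_coe,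
      ch_coe]

theorem cg_Bx (U : Cf) : cg (Bx 0 U) = Bx 0 U := cg_eq_self fun _ _ h => Bx_tr U h

theorem sh_gauge {α : Type} [Monoid α] (iv : α → α) (h : St → α) (x : St) (U : Lk → α) :
    sh x (gauge iv h U) = gauge iv (fun y => h (y + x)) (sh x U) := by
  funext e
  simp only [gauge, sh_apply, add_right_comm e.1 x]

theorem cmb_gauge_star {h : St → Hc} (hh : ∀ x, Uni (h x)) (U : Cf) (x : St) :
    cmb star (gauge star h U) x = h 0 * cmb star U x * star (h x) :=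
  cmb_gauge StarMul.star_mul star_star (fun x => (hh x).star_mul) (hh 0) x

theorem Bx_gauge {h : St → Hc} (hh : ∀ x, Uni (h x)) (x : St) (U : Cf) :
    Bx x (gauge star h U) = adF (fun _ => h x) (Bx x U) := by
  funext e
  rw [Bx_eq, sh_gauge, Bx_zero, cmb_gauge_star fun y => hh _, cmb_gauge_star fun y => hh _, adF,
    Bx_eq, Bx_zero, ← ch_conj (hh x), gauge]
  simp only [StarMul.star_mul, star_star, mul_assoc, zero_add, ← mul_assoc (star (h _)) (h _),
    (hh _).star_mul, one_mul]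

theorem Bx_agr {R : ℕ} {U U' : Cf} (h : Agr (R + 1) U U') : Agr R (Bx 0 U) (Bx 0 U') :=
  fun e he => by
    have h1 := mem_lbox.1 he
    rw [Bx_zero, Bx_zero, cmb_agr h _ (box_mono R.le_succ h1), cmb_agr h _ (add_un_mem_box h1 _),
      h e (lbox_mono R.le_succ he)]

theorem cmb_cC (U : Conf) (x : St) : cmb star (cC U) x = cS (cmb Inv.inv U x) :=
  cmb_map cS_one cS_mul cS_inv x

theorem sh_cC (x : St) (U : Conf) : sh x (cC U) = cC (sh x U) := rfl

theorem cC_gauge (u : St → S3) (U : Conf) :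
    cC (gauge Inv.inv u U) = gauge star (fun x => cS (u x)) (cC U) := by
  funext e
  simp only [cC, gauge, cS_mul, cS_inv]

theorem hol_cC (U : Conf) (x : St) (μ ν : Fin 3) :
    hol star (cC U) x μ ν = cS (hol Inv.inv U x μ ν) := by
  simp only [cC, hol, cS_mul, cS_inv]

theorem lnP_cC (U : Conf) (p : St) (μ : Fin 3) (n : ℕ) : lnP (cC U) p μ n = cS (lnP U p μ n) := by
  induction n with
  | zero => exact cS_one.symm
  | succ n ih => rw [lnP, lnP, ih, cS_mul, cC]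

theorem Bx_cC (U : Conf) (e : Lk) :
    Bx 0 (cC U) e = ch (cS (gauge Inv.inv (cmb Inv.inv U) U e)) := by
  simp only [Bx_zero, cmb_cC, gauge, cS_mul, cS_inv, cC]

theorem Bx_real (x : St) (U : Conf) : RealF (Bx x (cC U)) := fun e k => by
  rw [Bx_eq, sh_cC, Bx_cC]
  exact ch_real _ k

@[simp] theorem cmb_one (x : St) : cmb star (1 : Cf) x = 1 := by
  induction x using site_ind with
  | h0 => simp
  | hp p ν h1 h2 ih => simp [cmb_fwd _ _ h1 h2, ih]
  | hn p ν h1 h2 ih => simp [cmb_bwd _ _ h1 h2, ih]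

@[simp] theorem Bx_one (x : St) : Bx x 1 = 0 := by
  funext e
  rw [Bx_eq, show sh x (1 : Cf) = 1 from rfl, Bx_zero]
  simp

@[simp] theorem exF_zero : exF 0 = 1 := funext fun _ => ex_zero

/-- `W = 1 + w + error`, in a form which is additive under products -/
def Nr (s u : ℝ) (W w : Hc) : Prop :=
  ‖W - 1‖ ≤ Real.exp s - 1 ∧ ‖W - 1 - w‖ ≤ u + (Real.exp s - 1 - s)

theorem nr_one : Nr 0 0 1 0 := by simp [Nr]

theorem Nr.of_le {s u : ℝ} {W w : Hc} (h1 : ‖W - 1‖ ≤ s) (h2 : ‖W - 1 - w‖ ≤ u) : Nr s u W w :=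
  ⟨by linarith [Real.add_one_le_exp s], by linarith [Real.add_one_le_exp s]⟩

theorem Nr.mul {s u s' u' : ℝ} {W w W' w' : Hc} (h : Nr s u W w) (h' : Nr s' u' W' w') :
    Nr (s + s') (u + u') (W * W') (w + w') := by
  have h1 : ‖(W - 1) * (W' - 1)‖ ≤ (Real.exp s - 1) * (Real.exp s' - 1) :=
    (norm_mul_le _ _).trans (mul_le_mul h.1 h'.1 (norm_nonneg _) ((norm_nonneg _).trans h.1))
  have e1 : W * W' - 1 = (W - 1) + (W' - 1) + (W - 1) * (W' - 1) := by noncomm_ring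
  have e2 : W * W' - 1 - (w + w') = (W - 1 - w) + (W' - 1 - w') + (W - 1) * (W' - 1) := by
    noncomm_ring
  rw [Nr, e2, e1, Real.exp_add]
  exact ⟨norm_add₃_le.trans (by linarith [h.1, h'.1]), norm_add₃_le.trans (by linarith [h.2, h'.2])⟩

theorem Nr.star {s u : ℝ} {W : Hc} {b : C3} (h : Nr s u W (io b)) : Nr s u (star W) (io (-b)) := by
  constructor
  · rw [← norm_star_Hc, star_sub, star_star, star_one]
    exact h.1
  · rw [← norm_star_Hc, star_sub, star_sub, star_star, star_one, star_io, io_neg, neg_neg]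
    exact h.2

theorem Nr.mono {s u s' u' : ℝ} {W w : Hc} (h : Nr s u W w) (h0 : 0 ≤ s) (hs : s ≤ s')
    (hu : u ≤ u') : Nr s' u' W w := by
  have h1 := Real.add_one_le_exp (s' - s)
  have h2 := Real.one_le_exp h0
  have h3 : Real.exp s' = Real.exp s * Real.exp (s' - s) := by rw [← Real.exp_add]; simp
  exact ⟨by nlinarith [h.1], by nlinarith [h.2]⟩

theorem Nr.le {s u : ℝ} {W w : Hc} (h : Nr s u W w) (h0 : 0 ≤ s) (h1 : s ≤ 1) :
    ‖W - 1‖ ≤ 2 * s ∧ ‖W - 1 - w‖ ≤ u + s ^ 2 := by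
  have := (abs_le.1 (Real.abs_exp_sub_one_sub_id_le (x := s) (by rwa [abs_of_nonneg h0]))).2
  exact ⟨by nlinarith [h.1], by linarith [h.2]⟩

theorem nr_cmb {R : ℕ} {s u : ℝ} {U : Cf} {b : Fld} (h : ∀ e ∈ lbox R, Nr s u (U e) (io (b e)))
    (x : St) : x ∈ box R → Nr (ht x * s) (ht x * u) (cmb star U x) (io (lam b x)) := by
  induction x using site_ind with
  | h0 => simpa [ht] using fun _ => nr_one
  | hp p ν h1 h2 ih =>
    intro hx
    have := (ih (box_fwd h2 hx)).mul (h (p, ν) (mem_lbox.2 (box_fwd h2 hx)))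
    rw [cmb_fwd _ _ h1 h2, lam_tr _ h1, ht_fwd h2, io_add]
    simpa [add_mul] using this
  | hn p ν h1 h2 ih =>
    intro hx
    have := (ih (box_bwd h2 hx)).mul (h (p, ν) (mem_lbox.2 hx)).star
    rw [lam_tr _ h1, ← io_add, add_neg_cancel_right] at this
    rw [cmb_bwd _ _ h1 h2, ht_bwd h2]
    simpa [add_mul] using this

theorem nr_lnP {s u : ℝ} {U : Cf} {b : Fld} {p : St} {μ : Fin 3} (n : ℕ)
    (h : ∀ i < n, Nr s u (U (p + (i : ℤ) • un μ, μ)) (io (b (p + (i : ℤ) • un μ, μ)))) :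
    Nr (n * s) (n * u) (lnP U p μ n) (io (∑ i ∈ range n, b (p + (i : ℤ) • un μ, μ))) := by
  induction n with
  | zero => simpa [lnP] using nr_one
  | succ n ih =>
    have := (ih fun i hi => h i (by omega)).mul (h n (by omega))
    rw [lnP, sum_range_succ, io_add]
    simpa [add_mul] using this

theorem nr_gauge {R : ℕ} {s u : ℝ} {U : Cf} {b : Fld} (s0 : 0 ≤ s) (u0 : 0 ≤ u)
    (h : ∀ e ∈ lbox (R + 1), Nr s u (U e) (io (b e))) {e : Lk} (he : e ∈ lbox R) :
    Nr (9 * (R + 1) * s) (9 * (R + 1) * u)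
      (cmb star U e.1 * U e * star (cmb star U (e.1 + un e.2))) (io (cg b e)) := by
  have h1 := box_mono R.le_succ (mem_lbox.1 he)
  have h2 := add_un_mem_box (mem_lbox.1 he) e.2
  have := ((nr_cmb h _ h1).mul (h e (mem_lbox.2 h1))).mul (nr_cmb h _ h2).star
  rw [← io_add, ← io_add, ← sub_eq_add_neg, ← cg_apply] at this
  have h3 : (ht e.1 : ℝ) + 1 + ht (e.1 + un e.2) ≤ 9 * (R + 1) := by
    have := ht_le h1
    have := ht_le h2
    norm_cast
    omega
  exact this.mono (by positivity) (by nlinarith) (by nlinarith)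

/-- `U = 1 + b + O(η)` on the box of radius `R` -/
def Ap (R : ℕ) (δ η : ℝ) (U : Cf) (b : Fld) : Prop :=
  ∀ e ∈ lbox R, ‖b e‖ ≤ δ ∧ ‖U e - 1 - io (b e)‖ ≤ η

theorem Ap.nonneg {R : ℕ} {δ η : ℝ} {U : Cf} {b : Fld} (h : Ap R δ η U b) : 0 ≤ δ ∧ 0 ≤ η :=
  ⟨(norm_nonneg _).trans (h (0, 0) (mem_lbox.2 (zero_mem_box R))).1,
    (norm_nonneg _).trans (h (0, 0) (mem_lbox.2 (zero_mem_box R))).2⟩

theorem Ap.sub_one {R : ℕ} {δ η : ℝ} {U : Cf} {b : Fld} (h : Ap R δ η U b) (h1 : η ≤ δ) {e : Lk}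
    (he : e ∈ lbox R) : ‖U e - 1‖ ≤ 4 * δ := by
  have := norm_add_le (U e - 1 - io (b e)) (io (b e))
  rw [sub_add_cancel] at this
  linarith [(h e he).1, (h e he).2, norm_io (b e)]

theorem Ap.nr {R : ℕ} {δ η : ℝ} {U : Cf} {b : Fld} (h : Ap R δ η U b) (h1 : η ≤ δ) :
    ∀ e ∈ lbox R, Nr (4 * δ) η (U e) (io (b e)) := fun e he => .of_le (h.sub_one h1 he) (h e he).2

theorem Ap.mono {R R' : ℕ} {δ η δ' η' : ℝ} {U : Cf} {b : Fld} (h : Ap R δ η U b) (hR : R' ≤ R)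
    (hδ : δ ≤ δ') (hη : η ≤ η') : Ap R' δ' η' U b := fun e he =>
  ⟨(h e (lbox_mono hR he)).1.trans hδ, (h e (lbox_mono hR he)).2.trans hη⟩

theorem Ap.sh {R R' : ℕ} {δ η : ℝ} {U : Cf} {b : Fld} (h : Ap (R + R') δ η U b) {y : St}
    (hy : y ∈ box R') : Ap R δ η (sh y U) (sh y b) :=
  fun _ he => h _ (mem_lbox.2 (add_mem_box (mem_lbox.1 he) hy))

theorem Ap_exF {R : ℕ} {δ : ℝ} {b : Fld} (h : Sm R δ b) (h1 : δ ≤ 1 / 100) :
    Ap R δ (10 * δ ^ 2) (exF b) b := fun e he => ⟨h e he, ex_near (h e he) h1⟩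

theorem Nr.ch {s u : ℝ} {W : Hc} {b : C3} (h : Nr s u W (io b)) (h0 : 0 ≤ s) (h1 : s ≤ 1 / 4)
    (h2 : u ≤ 1 / 4) : W.re ≠ 0 ∧ ‖ch W - b‖ ≤ 3 * (u + s ^ 2) := by
  have := h.le h0 (by linarith)
  refine ch_near this.2 (by nlinarith) ?_
  have e : b = co ((W - 1) - (W - 1 - io b)) := by simp
  rw [e]
  exact (norm_co _).trans ((norm_sub_le _ _).trans (by nlinarith))

theorem Bx_ap {R : ℕ} {δ η : ℝ} {U : Cf} {b : Fld} (h : Ap (R + 1) δ η U b) (h1 : η ≤ δ)
    (h2 : 1000 * (R + 1) * δ ≤ 1) :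
    Sm R (10 ^ 4 * ((R + 1) ^ 2 * δ ^ 2 + (R + 1) * η)) (Bx 0 U - cg b) := fun e he => by
  obtain ⟨δ0, η0⟩ := h.nonneg
  have h3 : (R + 1) * η ≤ (R + 1) * δ := mul_le_mul_of_nonneg_left h1 (by positivity)
  have := ((nr_gauge (by positivity) η0 (h.nr h1) he).ch (by positivity) (by linarith)
    (by linarith)).2
  rw [Pi.sub_apply, Bx_zero]
  refine this.trans ?_
  nlinarith [sq_nonneg ((R + 1) * δ), mul_nonneg (by positivity : (0 : ℝ) ≤ R + 1) η0]

theorem Bx_re_ne {R : ℕ} {δ : ℝ} {U : Cf} (h : ∀ e ∈ lbox (R + 1), ‖U e - 1‖ ≤ δ)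
    (h2 : 1000 * (R + 1) * δ ≤ 1) {e : Lk} (he : e ∈ lbox R) :
    (cmb star U e.1 * U e * star (cmb star U (e.1 + un e.2))).re ≠ 0 ∧
      ‖Bx 0 U e‖ ≤ 30 * (R + 1) * δ := by
  have δ0 := (norm_nonneg _).trans (h e (lbox_mono R.le_succ he))
  have := (nr_gauge (b := 0) δ0 δ0 (fun e he => .of_le (h e he) (by simpa using h e he)) he).ch
    (by positivity) (by linarith) (by linarith)
  rw [cg_eq_self fun _ _ _ => rfl, Pi.zero_apply, sub_zero, ← Bx_zero] at this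
  exact ⟨this.1, this.2.trans (by nlinarith [mul_nonneg (by positivity : (0 : ℝ) ≤ R + 1) δ0])⟩

theorem Bx_disc {R : ℕ} {δ : ℝ} {Ω : Set ℂ} {U : ℂ → Cf} (hU : Disc Ω U)
    (h : ∀ t ∈ Ω, ∀ e ∈ lbox (R + 1), ‖U t e - 1‖ ≤ δ) (h2 : 1000 * (R + 1) * δ ≤ 1) :
    Disc Ω fun t => cut R (Bx 0 (U t)) := Disc.cut fun e he => by
  simp only [Bx_zero]
  exact diff_ch (((diff_cmb hU _).mul (hU e)).mul (diff_star (diff_cmb hU _)))
    fun t ht => (Bx_re_ne (h t ht) h2 he).1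

theorem hol_ap' {R : ℕ} {δ η : ℝ} {U : Cf} {b : Fld} (h : Ap (R + 1) δ η U b) (h1 : η ≤ δ)
    (h2 : δ ≤ 1 / 100) {x : St} (hx : x ∈ box R) (μ ν : Fin 3) :
    ‖hol star U x μ ν - 1 - io (dd b x μ ν)‖ ≤ 1000 * (δ ^ 2 + η) := by
  obtain ⟨δ0, η0⟩ := h.nonneg
  have a := fun μ => h.nr h1 (x, μ) (mem_lbox.2 (box_mono R.le_succ hx))
  have c := fun μ ν => h.nr h1 (x + un μ, ν) (mem_lbox.2 (add_un_mem_box hx μ))
  have := ((((a μ).mul (c μ ν)).mul (c ν μ).star).mul (a ν).star).le (by positivity) (by linarith)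
  simp only [← io_add, ← sub_eq_add_neg] at this
  exact this.2.trans (by nlinarith [sq_nonneg δ])

theorem hol_ap {δ η : ℝ} {U : Cf} {b : Fld} (h : Ap 1 δ η U b) (h1 : η ≤ δ) (h2 : δ ≤ 1 / 100)
    (μ ν : Fin 3) : ‖hol star U 0 μ ν - 1 - io (dd b 0 μ ν)‖ ≤ 1000 * (δ ^ 2 + η) :=
  hol_ap' (R := 0) h h1 h2 (zero_mem_box 0) μ ν

section meas
variable {Z : Type} [MeasurableSpace Z]

/-- measurable quaternion valued function -/
def MQ (f : Z → Hc) : Prop := Measurable (fun z => (f z).re) ∧ Measurable fun z => co (f z)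

theorem MQ.of {f : Z → Hc} (h0 : Measurable fun z => (f z).re) (h1 : Measurable fun z => (f z).imI)
    (h2 : Measurable fun z => (f z).imJ) (h3 : Measurable fun z => (f z).imK) : MQ f :=
  ⟨h0, measurable_pi_lambda _ fun k => by
    fin_cases k
    exacts [h1, h2, h3]⟩

theorem MQ.imI {f : Z → Hc} (h : MQ f) : Measurable fun z => (f z).imI := h.2.eval (a := 0)
theorem MQ.imJ {f : Z → Hc} (h : MQ f) : Measurable fun z => (f z).imJ := h.2.eval (a := 1)
theorem MQ.imK {f : Z → Hc} (h : MQ f) : Measurable fun z => (f z).imK := h.2.eval (a := 2)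

theorem mq_const (c : Hc) : MQ fun _ : Z => c := ⟨measurable_const, measurable_const⟩

theorem MQ.mul {f g : Z → Hc} (h : MQ f) (h' : MQ g) : MQ fun z => f z * g z := by
  have := h.1
  have := h.imI
  have := h.imJ
  have := h.imK
  have := h'.1
  have := h'.imI
  have := h'.imJ
  have := h'.imK
  refine .of ?_ ?_ ?_ ?_ <;>
    simp only [Quaternion.re_mul, Quaternion.imI_mul, Quaternion.imJ_mul, Quaternion.imK_mul] <;>
    fun_prop

theorem MQ.add {f g : Z → Hc} (h : MQ f) (h' : MQ g) : MQ fun z => f z + g z :=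
  .of (h.1.add h'.1) (h.imI.add h'.imI) (h.imJ.add h'.imJ) (h.imK.add h'.imK)

theorem MQ.smul {c : Z → ℂ} {g : Z → Hc} (h : Measurable c) (h' : MQ g) : MQ fun z => c z • g z :=
  .of (h.mul h'.1) (h.mul h'.imI) (h.mul h'.imJ) (h.mul h'.imK)

theorem MQ.sum {ι : Type} (s : Finset ι) {f : ι → Z → Hc} (h : ∀ i, MQ (f i)) :
    MQ fun z => ∑ i ∈ s, f i z := by
  induction s using Finset.cons_induction with
  | empty => simpa using mq_const 0
  | cons a s h' ih => simpa only [sum_cons] using (h a).add ih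

theorem MQ.star {f : Z → Hc} (h : MQ f) : MQ fun z => star (f z) :=
  .of (by simpa using h.1) h.imI.neg h.imJ.neg h.imK.neg

theorem mq_io {b : Z → C3} (h : Measurable b) : MQ fun z => io (b z) := ⟨measurable_const, by simpa⟩

theorem measurable_dot {a b : Z → C3} (h : Measurable a) (h' : Measurable b) :
    Measurable fun z => dot (a z) (b z) := by
  unfold dot
  fun_prop

theorem mq_ex {b : Z → C3} (h : Measurable b) : MQ fun z => ex (b z) :=
  .smul (((measurable_dot h h).const_add 1).pow_const _) ((mq_const 1).add (mq_io h))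

theorem MQ.ch {f : Z → Hc} (h : MQ f) : Measurable fun z => ch (f z) := h.1.inv.smul h.2

theorem MQ.adq {f : Z → Hc} {b : Z → C3} (h : MQ f) (h' : Measurable b) :
    Measurable fun z => adq (f z) (b z) := ((h.mul (mq_io h')).mul h.star).2

theorem mq_cmb {U : Z → Cf} (hU : ∀ e, MQ fun z => U z e) (x : St) :
    MQ fun z => cmb star (U z) x :=
  cmb_closed (P := MQ) (mq_const 1) (fun _ _ => MQ.mul) (fun _ => MQ.star) hU x

theorem mq_lnP {U : Z → Cf} (hU : ∀ e, MQ fun z => U z e) (p : St) (μ : Fin 3) (n : ℕ) :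
    MQ fun z => lnP (U z) p μ n := by
  induction n with
  | zero => exact mq_const 1
  | succ n ih => exact ih.mul (hU _)

theorem Bx_measurable {Z : Type} [MeasurableSpace Z] {U : Z → Cf}
    (hU : ∀ e, Measurable (fun z => (U z e).re) ∧ Measurable fun z => co (U z e)) (x : St) :
    Measurable fun z => Bx x (U z) := measurable_pi_lambda _ fun e =>
  have h : ∀ e, MQ fun z => sh x (U z) e := fun _ => hU _
  (((mq_cmb h _).mul (h e)).mul (mq_cmb h _).star).ch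

theorem measurable_cx {m : BF} {r r' : ℕ} (hm : Rng r r' m) {A B : Z → Fld} (hA : Measurable A)
    (hB : Measurable B) : Measurable fun z => cx m (A z) (B z) := by
  simp only [cx_eq_sum m hm]
  exact Finset.measurable_fun_sum _ fun e _ => Finset.measurable_fun_sum _ fun e' _ =>
    (measurable_dot hA.eval hB.eval).const_mul _

theorem measurable_cE : Measurable cE := by
  unfold cE
  fun_prop

end meas

theorem hol_gauge_inv (u : St → S3) (U : Conf) (x : St) (μ ν : Fin 3) :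
    hol Inv.inv (gauge Inv.inv u U) x μ ν = u x * hol Inv.inv U x μ ν * (u x)⁻¹ := by
  simp only [hol, gauge, add_right_comm x (un μ)]
  group

theorem curvG.gauge {ε : ℝ} {U : Conf} (h : curvG ε U) (u : St → S3) :
    curvG ε (gauge Inv.inv u U) := fun x μ ν => by
  rw [hol_gauge_inv, S3.norm_conj_sub]
  exact h x μ ν

theorem hol_sh {α : Type} [Monoid α] (iv : α → α) (U : Lk → α) (y x : St) (μ ν : Fin 3) :
    hol iv (sh y U) x μ ν = hol iv U (x + y) μ ν := by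
  simp only [hol, sh_apply, add_right_comm x y]

theorem curvG.sh {ε : ℝ} {U : Conf} (h : curvG ε U) (y : St) : curvG ε (sh y U) :=
  fun x μ ν => by rw [hol_sh]; exact h _ μ ν

theorem curvG.mono {ε ε' : ℝ} {U : Conf} (h : curvG ε U) (h' : ε ≤ ε') : curvG ε' U :=
  fun x μ ν => (h x μ ν).trans h'

theorem curvG.nonneg {ε : ℝ} {U : Conf} (h : curvG ε U) : 0 ≤ ε :=
  (norm_nonneg _).trans (h 0 0 0)

theorem fix_tr (U : Conf) {p : St} {ν : Fin 3} (h : Tr p ν) :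
    gauge Inv.inv (cmb Inv.inv U) U (p, ν) = 1 := by
  rcases le_or_gt 0 (p ν) with h0 | h0
  · simp [gauge, cmb_fwd _ _ h h0]
  · simp [gauge, cmb_bwd _ _ h h0]

/-- a field equal to one on the comb is close to one -/
theorem comb_small {R : ℕ} {ε : ℝ} {G : Conf} (h0 : ∀ p ν, Tr p ν → p ∈ box (R + 1) → G (p, ν) = 1)
    (h : ∀ x ∈ box R, ∀ μ ν, ‖(hol Inv.inv G x μ ν).q - 1‖ ≤ ε) {e : Lk} (he : e ∈ lbox R) :
    ‖(G e).q - 1‖ ≤ 3 * R * ε := by
  obtain ⟨x, μ⟩ := e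
  have := comb_bound μ (f := fun x => if x ∈ box (R + 1) then ‖(G (x, μ)).q - 1‖ else 0)
    (fun x hx => by
      split_ifs with h1
      · simp [h0 x μ hx h1, S3.q_one]
      · rfl) (fun p hp ν h1 h2 => ?_) ((norm_nonneg _).trans (h 0 (zero_mem_box R) 0 0))
    (mem_lbox.1 he)
  · rwa [if_pos (box_mono R.le_succ (mem_lbox.1 he))] at this
  have := h p hp μ ν
  rw [hol, h0 p ν h2 (box_mono R.le_succ hp), h0 (p + un μ) ν (fun κ hκ => by
    simp [h2 κ hκ, un_ne (h1.trans hκ).ne']) (add_un_mem_box hp μ), mul_one, inv_one, mul_one,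
    ← S3.norm_sub] at this
  rw [if_pos (box_mono R.le_succ hp), if_pos (add_un_mem_box hp ν)]
  refine (abs_norm_sub_norm_le _ _).trans ?_
  rwa [sub_sub_sub_cancel_right, norm_sub_rev]

theorem fix_small {R : ℕ} {ε : ℝ} {U : Conf} (h : curvG ε U) {e : Lk} (he : e ∈ lbox R) :
    ‖(gauge Inv.inv (cmb Inv.inv U) U e).q - 1‖ ≤ 3 * R * ε :=
  comb_small (fun _ _ h _ => fix_tr U h) (fun x _ => h.gauge _ x) he

theorem ch_cS_le {g : S3} {η : ℝ} (h : ‖g.q - 1‖ ≤ η) (h1 : η ≤ 1 / 2) :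
    0 < g.q.re ∧ ‖ch (cS g)‖ ≤ 2 * η := by
  have h2 := (abs_le.1 ((abs_re_le _).trans h)).1
  have h3 := (norm_co_cq _).trans h
  rw [cq_sub, cq_one, co_sub, co_one, sub_zero] at h3
  rw [Quaternion.re_sub, Quaternion.re_one] at h2
  have h4 : 0 < g.q.re := by linarith
  refine ⟨h4, ?_⟩
  rw [ch, norm_smul, cS, cq_re, norm_inv, Complex.norm_real, Real.norm_of_nonneg h4.le,
    inv_mul_le_iff₀ h4]
  nlinarith [(norm_nonneg _).trans h]

theorem real_fix {R : ℕ} {ε : ℝ} {U : Conf} (h : curvG ε U) (h2 : 1000 * (R + 1) * ε ≤ 1) :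
    Agr R (cC (gauge Inv.inv (cmb Inv.inv U) U)) (exF (Bx 0 (cC U))) ∧
      Sm R (10 * (R + 1) * ε) (Bx 0 (cC U)) ∧
      Cv R (ε + 10 ^ 6 * ((R + 1) * ε) ^ 2) (Bx 0 (cC U)) := by
  have ε0 := h.nonneg
  have k0 : 0 ≤ (R + 1) * ε := by positivity
  have a := fun e (he : e ∈ lbox (R + 1)) => ch_cS_le (fix_small h he) (by push_cast; linarith)
  have a1 : Agr (R + 1) (cC (gauge Inv.inv (cmb Inv.inv U) U)) (exF (Bx 0 (cC U))) :=
    fun e he => by rw [exF, Bx_cC, ex_ch (a e he).1, cC]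
  have a2 : Sm (R + 1) (6 * ((R + 1) * ε)) (Bx 0 (cC U)) := fun e he => by
    rw [Bx_cC]
    exact (a e he).2.trans_eq (by push_cast; ring)
  refine ⟨a1.mono R.le_succ, a2.mono R.le_succ (by linarith), fun x hx μ ν => ?_⟩
  have h3 := hol_ap' (Ap_exF a2 (by linarith)) (by nlinarith) (by linarith) hx μ ν
  have h4 : hol star (exF (Bx 0 (cC U))) x μ ν =
      cS (hol Inv.inv (gauge Inv.inv (cmb Inv.inv U) U) x μ ν) := by
    have b1 := fun μ => a1 (x, μ) (mem_lbox.2 (box_mono R.le_succ hx))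
    have b2 := fun μ ν => a1 (x + un μ, ν) (mem_lbox.2 (add_un_mem_box hx μ))
    rw [← hol_cC, hol, hol, b1, b1, b2, b2]
  rw [h4] at h3
  have h5 := (norm_co_cq _).trans (h.gauge (cmb Inv.inv U) x μ ν)
  have h6 := (norm_co _).trans h3
  rw [cq_sub, cq_one] at h5
  rw [co_sub, co_io] at h6
  have h7 := norm_sub_le (co (cS (hol Inv.inv (gauge Inv.inv (cmb Inv.inv U) U) x μ ν) - 1))
    (co (cS (hol Inv.inv (gauge Inv.inv (cmb Inv.inv U) U) x μ ν) - 1) - dd (Bx 0 (cC U)) x μ ν)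
  rw [sub_sub_cancel] at h7
  refine h7.trans ((add_le_add h5 h6).trans ?_)
  nlinarith [sq_nonneg ((R + 1) * ε)]

end Pool.Agent.Lib.MP_7f377f_mp.RG.D3
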