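import Pool.Agent.Lib.MP_7f377f_mp.HJoinA
import Pool.Agent.Lib.MP_7f377f_mp.R3MeasRho
import Pool.Agent.Lib.MP_7f377f_mp.R3Ap3

/-! Extension of almost flat fields from time slabs to the whole torus. -/

noncomputable section

namespace Pool.Agent.Lib.MP_7f377f_mp.RG.D3.Jn

open M3
open scoped Quaternion

variable {n T : ℕ} {δ : ℝ} {U : Conf}

theorem PL_of_per (h : Per n U) : PL n U := fun x y μ e => by
  choose k hk using e
  rw [← congrFun (h.sh_smul k) (y, μ)]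
  exact congrArg (fun z => U (z, μ)) (funext fun i => by simpa [sub_eq_iff_eq_add'] using hk i)

theorem per_of_PL (h : PL n U) : Per n U := fun μ => funext fun e =>
  h _ _ _ fun i => ⟨un μ i, by simp⟩

theorem lnP_cg (h : PL n U) {x y : St} (e : Cg n x y) (μ : Fin 3) (k : ℕ) :
    lnP U x μ k = lnP U y μ k := by
  induction k with
  | zero => rfl
  | succ k ih => rw [lnP, lnP, ih, h _ _ _ (e.add _)]

theorem emod_succ {m : ℤ} (h : 0 < m) (x : ℤ) :
    x % m + 1 < m ∧ (x + 1) % m = x % m + 1 ∨ x % m + 1 = m ∧ (x + 1) % m = 0 := by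
  have a := Int.emod_nonneg x h.ne'
  have b := Int.emod_lt_of_pos x h
  rw [← Int.emod_add_emod]
  rcases lt_or_eq_of_le (show x % m + 1 ≤ m by omega) with e | e
  · exact .inl ⟨e, Int.emod_eq_of_lt (by omega) e⟩
  · exact .inr ⟨e, by rw [e, Int.emod_self]⟩

theorem pos_of (hT : 1 ≤ T * δ) : 0 < δ :=
  pos_of_mul_pos_left (zero_lt_one.trans_le (hT.trans_eq (mul_comm _ _))) T.cast_nonneg

/-- a gauge in which all links of direction one are small -/
theorem ex_gauge (h : PL n U) (h2 : 20 * δ ≤ 1) (hT : 1 ≤ T * δ) (hn : 2 * T ≤ n) :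
    ∃ G : St → S3, PS n G ∧ ∀ x, ‖(gauge Inv.inv G U (x, 1)).q - 1‖ ≤ 16 * δ := by
  have d0 := pos_of hT
  have n0 : (0 : ℤ) < n := by
    rcases T with _ | T
    · simp at hT; linarith
    · omega
  choose p p0 p1 _ _ p4 using fun g : S3 => loop_main (n := T) (V := fun _ => g) hT h2 hT
    (fun _ => rfl) (by simpa using d0.le)
  set F : St → ℕ → S3 := fun x j => p (lnP U (Function.update x 1 0) 1 n) j 0 *
    lnP U (Function.update x 1 0) 1 j with hF
  refine ⟨fun x => F x (x 1 % n).toNat, fun x y e => ?_, fun x => ?_⟩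
  · have : Cg n (Function.update x 1 0) (Function.update y 1 0) := fun i => by
      by_cases k : i = 1
      · simp [k]
      · simpa [k] using e i
    simp only [hF, lnP_cg h this, congrFun e.mod 1]
  · have a := Int.emod_nonneg (x 1) n0.ne'
    have e0 : F (x + un 1) = F x := by
      have : Function.update (x + un 1) 1 0 = Function.update x 1 0 := by
        funext i; fin_cases i <;> simp [un_apply]
      simp only [hF, this]
    have e1 : F x ((x 1 + 1) % n).toNat = F x ((x 1 % n).toNat + 1) := by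
      rcases emod_succ n0 (x 1) with e | e
      · rw [e.2, Int.toNat_add a zero_le_one]; rfl
      · rw [e.2, show (x 1 % n).toNat + 1 = n by omega]
        simp [hF, p0, p1 _ _ hn, lnP]
    have e2 : U (Function.update x 1 0 + ((x 1 % n).toNat : ℤ) • un 1, 1) = U (x, 1) :=
      h _ _ _ fun i => by
        rw [Int.toNat_of_nonneg a]
        fin_cases i <;> simp [un_apply, Int.dvd_emod_sub_self]
    simp only [gauge, Pi.add_apply, un_self, e0, e1]
    simp only [hF, lnP, e2]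
    refine le_trans (le_of_eq ?_) (p4 (lnP U (Function.update x 1 0) 1 n) (x 1 % n).toNat 0)
    rw [norm_sub_rev (p _ _ _).q, S3.norm_sub]
    congr 3; group

theorem curvG_of {ε : ℝ} (h : ∀ x, ‖(hol Inv.inv U x 0 1).q - 1‖ ≤ ε ∧
    ‖(hol Inv.inv U x 0 2).q - 1‖ ≤ ε ∧ ‖(hol Inv.inv U x 1 2).q - 1‖ ≤ ε) : curvG ε U := by
  have e : ∀ x μ ν, ‖(hol Inv.inv U x μ ν).q - 1‖ = ‖(hol Inv.inv U x ν μ).q - 1‖ := fun x μ ν => by
    rw [← S3.norm_inv_sub]; congr 3; simp only [hol]; group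
  have z : ∀ x μ, ‖(hol Inv.inv U x μ μ).q - 1‖ ≤ ε := fun x μ => by
    simpa [hol, S3.q_one] using (norm_nonneg _).trans (h 0).1
  intro x μ ν
  obtain ⟨a, b, c⟩ := h x
  fin_cases μ <;> fin_cases ν
  exacts [z _ _, a, b, (e ..).trans_le a, z _ _, c, (e ..).trans_le b, (e ..).trans_le c, z _ _]

/-- nearest time `c` of a slab and distance `d` to it -/
structure Tim (n T : ℕ) (c : ℤ → ℤ) (d : ℤ → ℕ) : Prop where
  per : ∀ s t, (n : ℤ) ∣ s - t → (n : ℤ) ∣ c s - c t ∧ d s = d t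
  fix : ∀ t, d t = 0 → c t = t
  mem : ∀ t, d (c t) = 0
  step : ∀ t, d t = 0 ∧ d (t + 1) = 0 ∨ 2 * T ≤ d t ∧ 2 * T ≤ d (t + 1) ∨
    c (t + 1) = c t ∧ (d (t + 1) = d t + 1 ∨ d t = d (t + 1) + 1)

variable {c : ℤ → ℤ} {d : ℤ → ℕ}

theorem fill0 (ht : Tim n T c d) (h : PL n U) (h2 : 660 * δ ≤ 1) (hT : 1 ≤ T * δ) (hn : 2 * T ≤ n)
    (hs : ∀ x, ‖(U (x, 1)).q - 1‖ ≤ 16 * δ) (hc : ∀ x μ ν, d (x 0) = 0 →
      d ((x + un μ) 0) = 0 → d ((x + un ν) 0) = 0 → ‖(hol Inv.inv U x μ ν).q - 1‖ ≤ δ) :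
    ∃ W, PL n W ∧ curvG (6000 * δ) W ∧
      ∀ x μ, d (x 0) = 0 → d ((x + un μ) 0) = 0 → W (x, μ) = U (x, μ) := by
  have d0 := pos_of hT
  have nT : (T : ℝ) ≤ n := by exact_mod_cast (by omega : T ≤ n)
  choose! H H0 H1 H2 H3 H4 using fun V => loop_main (n := n) (T := T) (δ := 33 * δ) (V := V)
    (by nlinarith) (by linarith) (by nlinarith)
  set R : ℤ → ℤ → ℤ → S3 := fun t y k => U (![c t, k, y], 2) with hR
  have r1 : ∀ t y k, R t y (k + n) = R t y k := fun t y k =>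
    h _ _ _ fun i => by fin_cases i <;> simp
  have r2 : ∀ t y k, ‖(R t y (k + 1)).q - (R t y k).q‖ ≤ 33 * δ := fun t y k => by
    have a := hc ![c t, k, y] 1 2 (ht.mem t) (by simpa [un_apply] using ht.mem t)
      (by simpa [un_apply] using ht.mem t)
    have e : ![c t, k + 1, y] = ![c t, k, y] + un 1 := by funext i; fin_cases i <;> simp [un_apply]
    simp only [hR, e]
    generalize ![c t, k, y] = x at a
    have b1 := S3.norm_mul_sub (U (x, 1))⁻¹ (hol Inv.inv U x 1 2)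
    have b2 := S3.norm_mul_sub ((U (x, 1))⁻¹ * hol Inv.inv U x 1 2)
      (U (x, 2) * U (x + un 2, 1) * (U (x, 2))⁻¹)
    rw [S3.norm_inv_sub] at b1
    rw [S3.norm_conj_sub] at b2
    rw [S3.norm_sub, show U (x + un 1, 2) * (U (x, 2))⁻¹ = (U (x, 1))⁻¹ * hol Inv.inv U x 1 2 *
      (U (x, 2) * U (x + un 2, 1) * (U (x, 2))⁻¹) by simp only [hol]; group]
    linarith [hs x, hs (x + un 2)]
  set W : Conf := fun e => if e.2 = 2 then H (R (e.1 0) (e.1 2)) (d (e.1 0)) (e.1 1) else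
    if d (e.1 0) = 0 ∧ d ((e.1 + un e.2) 0) = 0 then U e else 1 with hW
  have ag : ∀ x μ, d (x 0) = 0 → d ((x + un μ) 0) = 0 → W (x, μ) = U (x, μ) := fun x μ a b => by
    simp only [hW, a, b, and_self, if_true]
    split_ifs with e
    · rw [H0 _ (r1 _ _) (r2 _ _), hR, e]
      exact congrArg (fun z => U (z, 2)) (funext fun i => by fin_cases i <;> simp [ht.fix _ a])
    · rfl
  have ah : ∀ x μ ν, μ ≠ ν → d (x 0) = 0 → d ((x + un μ) 0) = 0 → d ((x + un ν) 0) = 0 →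
      ‖(hol Inv.inv W x μ ν).q - 1‖ ≤ 6000 * δ := fun x μ ν e a b b' => by
    have k : d ((x + un μ + un ν) 0) = 0 := by
      fin_cases μ <;> fin_cases ν <;> simp_all [un_apply]
    rw [hol, ag _ _ a b, ag _ _ b k, ag _ _ b' (by rwa [add_right_comm]), ag _ _ a b']
    exact (hc x μ ν a b b').trans (by linarith)
  have w1 : ∀ x, ‖(W (x, 1)).q - 1‖ ≤ 16 * δ := fun x => by
    simp only [hW]; split_ifs
    · contradiction
    · exact hs x
    · simpa [S3.q_one] using d0.le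
  refine ⟨W, fun x y μ e => ?_, curvG_of fun x => ?_, ag⟩
  · have a := ht.per _ _ (e 0)
    have b : R (x 0) (x 2) = R (y 0) (y 2) := funext fun k =>
      h _ _ _ fun i => by fin_cases i <;> simp [a.1, e 2]
    obtain ⟨k, hk⟩ := e 1
    have p := Function.Periodic.int_mul (H2 _ (r1 (y 0) (y 2)) (r2 _ _) (d (y 0))) k (y 1)
    simp only [hW, a.2, b, (ht.per _ _ (e.add (un μ) 0)).2, h _ _ _ e, sub_eq_iff_eq_add'.1 hk]
    rw [← p, mul_comm]; rfl
  have z : ¬(d (x 0) = 0 ∧ d (x 0 + 1) = 0) → ∀ μ, μ ≠ 0 →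
      hol Inv.inv W x 0 μ = W (x + un 0, μ) * (W (x, μ))⁻¹ := fun a μ e => by
    have a1 : W (x, 0) = 1 := by simp [hW, a]
    have a2 : W (x + un μ, 0) = 1 := by simp [hW, a, un_ne e.symm]
    simp [hol, a1, a2]
  refine ⟨?_, ?_, ?_⟩
  · by_cases a : d (x 0) = 0 ∧ d (x 0 + 1) = 0
    · exact ah _ _ _ (by simp) a.1 (by simpa using a.2) (by simpa [un_apply] using a.1)
    · rw [z a 1 (by simp)]
      refine (S3.norm_mul_sub _ _).trans ?_
      rw [S3.norm_inv_sub]; linarith [w1 x, w1 (x + un 0)]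
  · by_cases a : d (x 0) = 0 ∧ d (x 0 + 1) = 0
    · exact ah _ _ _ (by simp) a.1 (by simpa using a.2) (by simpa [un_apply] using a.1)
    · rw [z a 2 (by simp), ← S3.norm_sub]
      simp only [hW, if_true, Pi.add_apply, un_apply]
      rcases ht.step (x 0) with b | b | ⟨b, b' | b'⟩
      · exact absurd b a
      · simpa [H1 _ (r1 _ _) (r2 _ _) _ b.1, H1 _ (r1 _ _) (r2 _ _) _ b.2] using d0.le
      · have := H4 _ (r1 (x 0) (x 2)) (r2 _ _) (d (x 0)) (x 1)
        simp [hR, b, b'] at this ⊢; linarith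
      · have := H4 _ (r1 (x 0) (x 2)) (r2 _ _) (d (x 0 + 1)) (x 1)
        rw [norm_sub_rev] at this
        simp [hR, b, b'] at this ⊢; linarith
  · by_cases a : d (x 0) = 0
    · exact ah _ _ _ (by simp) a (by simpa [un_apply] using a) (by simpa [un_apply] using a)
    · have := H3 _ (r1 (x 0) (x 2)) (r2 _ _) (d (x 0)) (x 1)
      rw [S3.norm_sub] at this
      simp [hol, hW, a, un_apply]; linarith

/-- extension of a field which is almost flat on the slabs -/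
theorem fill (ht : Tim n T c d) (h : PL n U) (h2 : 660 * δ ≤ 1) (hT : 1 ≤ T * δ) (hn : 2 * T ≤ n)
    (hc : ∀ x μ ν, d (x 0) = 0 → d ((x + un μ) 0) = 0 → d ((x + un ν) 0) = 0 →
      ‖(hol Inv.inv U x μ ν).q - 1‖ ≤ δ) :
    ∃ W, PL n W ∧ curvG (6000 * δ) W ∧
      ∀ x μ, d (x 0) = 0 → d ((x + un μ) 0) = 0 → W (x, μ) = U (x, μ) := by
  obtain ⟨G, g1, g2⟩ := ex_gauge h (δ := δ) (by nlinarith [T.cast_nonneg (α := ℝ)]) hT hn
  obtain ⟨W, w1, w2, w3⟩ := fill0 ht (PL_gauge g1 h) h2 hT hn g2 fun x μ ν a b b' => by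
    rw [hol_gauge_inv, S3.norm_conj_sub]; exact hc x μ ν a b b'
  refine ⟨gauge Inv.inv G⁻¹ W, PL_gauge (fun x y e => congrArg Inv.inv (g1 x y e)) w1, w2.gauge _,
    fun x μ a b => ?_⟩
  simp [gauge, w3 x μ a b, mul_assoc]

end Pool.Agent.Lib.MP_7f377f_mp.RG.D3.Jn
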