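import Mathlib

/-! `SU(2)` lattice gauge fields on `ℤ ^ 3` and the periodic Wilson measures. -/

noncomputable section

namespace Pool.Agent.Lib.MP_7f377f_mp.Y6

open MeasureTheory Finset
open scoped Quaternion

/-- the group `SU(2)` of unit quaternions -/
abbrev SU2 : Type := Metric.sphere (0 : ℍ) 1

/-- the links of the lattice: a site and a direction -/
abbrev Link : Type := (Fin 3 → ℤ) × Fin 3

/-- holonomy around a plaquette -/
def plaq (U : Link → ℍ) (x : Fin 3 → ℤ) (i j : Fin 3) : ℍ :=
  U (x, i) * U (x + Pi.single i 1, j) * star (U (x + Pi.single j 1, i)) * star (U (x, j))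

/-- the field with periods `N i` which agrees with `U` on the box `0 ≤ x i < N i` -/
def per (N : Fin 3 → ℕ) (U : Link → SU2) : Link → SU2 := fun e => U (fun i => e.1 i % N i, e.2)

/-- sum of the traces of the plaquettes based in the box -/
def action (N : Fin 3 → ℕ) (U : Link → SU2) : ℝ :=
  ∑ x ∈ Fintype.piFinset fun i => Ico (0 : ℤ) (N i), ∑ i, ∑ j,
    if i < j then 2 * (plaq (fun e => U e) x i j).re else 0

/-- the Wilson measure of the torus with sides `N i`, as a measure on periodic fields -/
def wilson [MeasurableSpace SU2] (h : Measure SU2) [IsProbabilityMeasure h] (β : ℝ)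
    (N : Fin 3 → ℕ) : Measure (Link → SU2) :=
  ((Measure.infinitePi fun _ => h).tilted fun U => β * action N (per N U)).map (per N)

/-- translation by `a` -/
def shift (a : Fin 3 → ℤ) (U : Link → SU2) : Link → SU2 := fun e => U (e.1 + a, e.2)

/-- gauge transformation -/
def gauge (u : (Fin 3 → ℤ) → SU2) (U : Link → SU2) : Link → SU2 :=
  fun e => u e.1 * U e * (u (e.1 + Pi.single e.2 1))⁻¹

end Pool.Agent.Lib.MP_7f377f_mp.Y6
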