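import Pool.Agent.Lib.MP_7f377f_mp.HClus
import Pool.Agent.Lib.MP_7f377f_mp.YM6Defs
import Pool.Agent.Lib.MP_7f377f_mp.CoulKer

/-! The transfer kernel of three dimensional `SU(2)` lattice gauge theory. -/

noncomputable section

namespace Pool.Agent.Lib.MP_7f377f_mp.Y6

open MeasureTheory Measure Function Filter Topology Pool.Agent.Lib.MP_2d4879_an Hm RGP Ch Finset
open scoped InnerProductSpace Quaternion

set_option linter.unusedSectionVars false

/-- spatial sites -/
abbrev Sp (n : ℕ) : Type := Fin 2 → ZMod n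
/-- spatial links -/
abbrev Ed (n : ℕ) : Type := Sp n × Fin 2

theorem q_inv (g : SU2) : (g⁻¹).1 = star g.1 := by
  have h : g.1 * star g.1 = 1 := by
    rw [Quaternion.self_mul_star, Quaternion.normSq_eq_norm_mul_self,
      mem_sphere_zero_iff_norm.1 g.2]
    simp
  have e : (g⁻¹).1 * g.1 = 1 := congrArg Subtype.val (inv_mul_cancel g)
  rw [← mul_one (g⁻¹).1, ← h, ← mul_assoc, e, one_mul]

/-- the trace -/
def tc (g : SU2) : ℝ := 2 * g.1.re

theorem tc_comm (g g' : SU2) : tc (g * g') = tc (g' * g) := by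
  have : ∀ g g' : SU2, (g * g').1 = g.1 * g'.1 := fun _ _ => rfl
  simp only [tc, this, Quaternion.re_mul]
  ring

theorem tc_inv (g : SU2) : tc g⁻¹ = tc g := by rw [tc, q_inv, Quaternion.re_star, tc]

theorem tc_conj (u g : SU2) : tc (u * g * u⁻¹) = tc g := by rw [tc_comm, inv_mul_cancel_left]

@[fun_prop] theorem cont_tc : Continuous tc :=
  continuous_const.mul (Quaternion.continuous_re.comp continuous_subtype_val)

/-- the components -/
def cp (i : Fin 4) (g : SU2) : ℝ := ![g.1.re, g.1.imI, g.1.imJ, g.1.imK] i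

@[fun_prop] theorem cont_cp (i : Fin 4) : Continuous (cp i) := by
  fin_cases i
  exacts [Quaternion.continuous_re.comp continuous_subtype_val,
    Quaternion.continuous_imI.comp continuous_subtype_val,
    Quaternion.continuous_imJ.comp continuous_subtype_val,
    Quaternion.continuous_imK.comp continuous_subtype_val]

theorem sum_cp (g g' : SU2) : tc (g * g'⁻¹) = 2 * ∑ i, cp i g * cp i g' := by
  rw [tc, show (g * g'⁻¹).1 = g.1 * (g'⁻¹).1 from rfl, q_inv]
  simp [Fin.sum_univ_four, cp]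

variable {n : ℕ}

/-- gauge transformation of a slice -/
def ga (g : Sp n → SU2) (x : Ed n → SU2) : Ed n → SU2 :=
  fun e => g e.1 * x e * (g (e.1 + Pi.single e.2 1))⁻¹

theorem ga_ga (g g' : Sp n → SU2) (x : Ed n → SU2) : ga g (ga g' x) = ga (g * g') x :=
  funext fun e => by simp only [ga, Pi.mul_apply]; group

theorem ga_one (x : Ed n → SU2) : ga 1 x = x := funext fun e => by simp [ga]

@[fun_prop] theorem cont_ga : Continuous fun p : (Sp n → SU2) × (Ed n → SU2) => ga p.1 p.2 := by
  unfold ga; fun_prop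

variable [NeZero n]

/-- the spatial plaquettes -/
def w2 (x : Ed n → SU2) : ℝ :=
  ∑ s, tc (x (s, 0) * x (s + Pi.single 0 1, 1) * (x (s + Pi.single 1 1, 0))⁻¹ * (x (s, 1))⁻¹)

/-- the coupling of two slices -/
def dt (y x : Ed n → SU2) : ℝ := ∑ e, tc (y e * (x e)⁻¹)

/-- the weight of one time step -/
def WW (β : ℝ) (x : Ed n → SU2) (g : Sp n → SU2) (y : Ed n → SU2) : ℝ :=
  Real.exp (β * (w2 x / 2 + w2 y / 2 + dt (ga g y) x))

theorem w2_ga (g : Sp n → SU2) (x : Ed n → SU2) : w2 (ga g x) = w2 x :=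
  sum_congr rfl fun s _ => by
    rw [← tc_conj (g s) (x _ * _ * _ * _)]
    simp only [ga, add_right_comm s (Pi.single 1 1)]
    congr 1
    group

theorem dt_comm (x y : Ed n → SU2) : dt x y = dt y x :=
  sum_congr rfl fun e _ => by rw [← tc_inv, mul_inv_rev, inv_inv]

theorem dt_ga (g : Sp n → SU2) (x y : Ed n → SU2) : dt (ga g y) (ga g x) = dt y x :=
  sum_congr rfl fun e _ => by
    rw [← tc_conj (g e.1) (y e * _)]
    simp only [ga]
    congr 1
    group

@[fun_prop] theorem cont_w2 : Continuous (w2 (n := n)) := by unfold w2; fun_prop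

@[fun_prop] theorem cont_dt : Continuous fun p : (Ed n → SU2) × (Ed n → SU2) => dt p.1 p.2 := by
  unfold dt; fun_prop

theorem cont_WW (β : ℝ) : Continuous fun p : (Ed n → SU2) × (Sp n → SU2) × (Ed n → SU2) =>
    WW β p.1 p.2.1 p.2.2 := by
  unfold WW; fun_prop

theorem bm_of_cont {X : Type} [TopologicalSpace X] [CompactSpace X] [MeasurableSpace X]
    [OpensMeasurableSpace X] {f : X → ℝ} (hf : Continuous f) : BM f :=
  ⟨hf.measurable, ‖BoundedContinuousFunction.mkOfCompact ⟨f, hf⟩‖, fun x =>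
    (BoundedContinuousFunction.mkOfCompact ⟨f, hf⟩).norm_coe_le_norm x⟩

variable [MeasurableSpace SU2] [BorelSpace SU2] (h : Measure SU2) [h.IsHaarMeasure]
  [IsProbabilityMeasure h] (β : ℝ)

instance : h.IsMulRightInvariant := Weak.haar_right h
instance : h.IsInvInvariant := Weak.haar_inv h

theorem mp_lr {I : Type} (a b : I → SU2) :
    MeasurePreserving (fun (x : I → SU2) i => a i * x i * b i) (PP h I) (PP h I) := by
  have m : ∀ i, MeasurePreserving (fun g => a i * g * b i) h h := fun i =>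
    (measurePreserving_mul_right h (b i)).comp (measurePreserving_mul_left h (a i))
  refine ⟨measurable_pi_lambda _ fun i => (m i).measurable.comp (measurable_pi_apply i), ?_⟩
  rw [infinitePi_map_pi (fun _ : I => h) fun i => (m i).measurable]
  simp only [fun i => (m i).map_eq]

theorem mp_ga (g : Sp n → SU2) : MeasurePreserving (ga g) (PP h (Ed n)) (PP h (Ed n)) :=
  mp_lr h _ _

theorem bm_WW (x y : Ed n → SU2) : BM fun g => WW β x g y :=
  bm_of_cont ((cont_WW β).comp (f := fun g => (x, g, y)) (by fun_prop))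

theorem wt_WW : Wt h (WW (n := n) β) where
  bm := bm_of_cont (cont_WW β)
  pos _ _ _ := Real.exp_pos _
  symm x y := by
    rw [KK, KK, ← int_mp (mp_pat h injective_id fun _ => true) (bm_WW β y x).meas]
    congr 1
    funext g
    rw [WW, WW, add_comm (w2 x / 2), ← dt_ga g y, ga_ga, dt_comm,
      show g * pat id (fun _ => true) g = 1 from mul_inv_cancel g, ga_one]

theorem KK_ga (u : Sp n → SU2) (x y : Ed n → SU2) : KK h (WW β) x (ga u y) = KK h (WW β) x y := by
  rw [KK, KK, ← int_mp (mp_lr h 1 u) (bm_WW β x y).meas]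
  simp only [WW, w2_ga, ga_ga, Pi.one_apply, one_mul]
  rfl

theorem cont_KK : Continuous fun p : (Ed n → SU2) × (Ed n → SU2) => KK h (WW β) p.1 p.2 := by
  obtain ⟨C, hC⟩ := (wt_WW (n := n) h β).bm.bdd
  exact continuous_of_dominated (bound := fun _ => C)
    (fun p => (bm_WW β p.1 p.2).meas.aestronglyMeasurable)
    (fun p => .of_forall fun g => hC (p.1, g, p.2)) (integrable_const _)
    (.of_forall fun g => (cont_WW β).comp (f := fun p : (Ed n → SU2) × (Ed n → SU2) =>
      (p.1, g, p.2)) (by fun_prop))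

theorem exp_psd {X : Type} [TopologicalSpace X] [CompactSpace X] [SecondCountableTopology X]
    [MeasurableSpace X] [OpensMeasurableSpace X] (ν : Measure X) [IsFiniteMeasure ν] {β : ℝ}
    (hβ : 0 ≤ β) {F : X → ℝ} (cF : Continuous F) {Φ : X → Ed n → SU2} (cΦ : Continuous Φ) :
    0 ≤ ∫ q : X × X, F q.1 * F q.2 * Real.exp (β * dt (Φ q.1) (Φ q.2)) ∂ν.prod ν := by
  have key := Coul.ker_exp ν cF (κ := Ed n × Fin 4) (x := fun p i => √(2 * β) * cp i.2 (Φ p i.1))
    (y := fun _ _ => 0) (by fun_prop) continuous_const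
  have e : ∀ a b : Ed n → SU2, ∑ i : Ed n × Fin 4, √(2 * β) * cp i.2 (a i.1) *
      (√(2 * β) * cp i.2 (b i.1)) = β * dt a b := fun a b => by
    simp only [mul_mul_mul_comm √(2 * β), Real.mul_self_sqrt (show 0 ≤ 2 * β by positivity),
      Fintype.sum_prod_type (γ := ℝ) (α₁ := Ed n), dt, sum_cp, mul_sum]
    exact sum_congr rfl fun _ _ => sum_congr rfl fun _ _ => by ring
  simp only [mul_zero, zero_mul, sum_const_zero, Real.exp_zero, mul_one, integral_prod_mul,
    e] at key
  nlinarith [mul_self_nonneg (∫ a, F a ∂ν)]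

theorem KK_psd (hβ : 0 ≤ β) (v : Lp ℝ 2 (PP h (Ed n))) :
    0 ≤ ⟪v, (wt_WW h β).gk.op _ v⟫_ℝ := by
  refine (ContinuousMap.toLp_denseRange ℝ (PP h (Ed n)) ℝ (p := 2) (by simp)).induction_on v
    (isClosed_le continuous_const (by fun_prop)) fun f => ?_
  have bf : BF f := ⟨(bm_of_cont f.continuous).meas, (bm_of_cont f.continuous).bdd⟩
  rw [show ContinuousMap.toLp 2 (PP h (Ed n)) ℝ f = bf.cl _ from rfl, bf.inner_op bf]
  have : BorelSpace ((Ed n → SU2) × (Sp n → SU2)) := inferInstance
  have cF : Continuous fun p : (Ed n → SU2) × (Sp n → SU2) =>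
    f p.1 * Real.exp (β * (w2 p.1 / 2)) := by fun_prop
  refine (exp_psd ((PP h (Ed n)).prod (PP h (Sp n))) hβ cF (Φ := fun p => ga p.2 p.1)
    (by fun_prop)).trans_eq ?_
  rw [integral_prod _ (Weak.cint _ (by fun_prop))]
  have e : ∀ p : (Ed n → SU2) × (Sp n → SU2), ∫ q : (Ed n → SU2) × (Sp n → SU2),
      f p.1 * Real.exp (β * (w2 p.1 / 2)) * (f q.1 * Real.exp (β * (w2 q.1 / 2))) *
        Real.exp (β * dt (ga p.2 p.1) (ga q.2 q.1)) ∂(PP h (Ed n)).prod (PP h (Sp n)) =
      ∫ y, f p.1 * KK h (WW β) p.1 y * f y ∂PP h (Ed n) := fun p => by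
    rw [integral_prod _ (Weak.cint _ (by fun_prop))]
    congr 1
    funext y
    rw [KK, ← int_mp (mp_lr h p.2⁻¹ 1) (bm_WW β p.1 y).meas, ← integral_const_mul,
      ← integral_mul_const]
    congr 1
    funext g
    rw [WW, ← dt_ga p.2 p.1, ga_ga, dt_comm, show p.2 * (fun i => p.2⁻¹ i * g i * (1 : Sp n → SU2) i)
      = g from funext fun i => by simp]
    simp only [mul_add, Real.exp_add]
    ring
  simp only [e]
  exact (integral_fun_fst (fun x => ∫ y, f x * KK h (WW β) x y * f y ∂PP h (Ed n))).trans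
    (by simp)

/-- the spatial part of a site -/
def sp (n : ℕ) (x : Fin 3 → ℤ) : Sp n := fun j => x j.succ

/-- the variable carried by a link -/
def ix (n : ℕ) (e : Link) : Ix (Ed n) (Sp n) :=
  (e.1 0, Fin.cases (.inr (sp n e.1)) (fun j => .inl (sp n e.1, j)) e.2)

/-- the spatially periodic field -/
def lift (w : Ix (Ed n) (Sp n) → SU2) : Link → SU2 := fun e => w (ix n e)

theorem meas_lift : Measurable (lift (n := n)) :=
  measurable_pi_lambda _ fun _ => measurable_pi_apply _

theorem sum_shift {f : ℤ → ℝ} {T : ℕ} (hf : ∀ t, f (t + T) = f t) (a : ℤ) :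
    ∑ i ∈ range T, f (a + i) = ∑ i ∈ range T, f i := by
  have key : ∀ a : ℤ, ∑ i ∈ range T, f (a + 1 + i) = ∑ i ∈ range T, f (a + i) := fun a => by
    have h1 := sum_range_succ (fun i : ℕ => f (a + i)) T
    rw [sum_range_succ', hf] at h1
    simp only [Nat.cast_add, Nat.cast_one, Nat.cast_zero, add_zero] at h1
    simpa only [add_assoc, add_comm (1 : ℤ)] using add_right_cancel h1
  induction a with
  | zero => simp
  | succ a ih => rw [key, ih]
  | pred a ih => rw [← key, sub_add_cancel, ih]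

theorem sum_box (T : ℕ) (f : ℤ → Sp n → ℝ) :
    ∑ x ∈ Fintype.piFinset fun i => Ico (0 : ℤ) (![T, n, n] i : ℕ), f (x 0) (sp n x) =
      ∑ t ∈ range T, ∑ s, f t s := by
  rw [← sum_product']
  symm
  refine sum_bij' (fun p _ => Fin.cons (p.1 : ℤ) fun j => ((p.2 j).val : ℤ))
    (fun x _ => ((x 0).toNat, sp n x)) (fun p hp => Fintype.mem_piFinset.2 fun i => ?_)
    (fun x hx => ?_) (fun p _ => ?_) (fun x hx => ?_) fun p _ => ?_
  · have := mem_range.1 (mem_product.1 hp).1
    refine Fin.cases (by simpa using this) (fun j => ?_) i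
    rw [show ![T, n, n] j.succ = n by fin_cases j <;> rfl, Fin.cons_succ, mem_Ico]
    exact ⟨Int.natCast_nonneg _, Int.ofNat_lt.2 (p.2 j).val_lt⟩
  · have := Fintype.mem_piFinset.1 hx 0
    simp only [mem_Ico, Matrix.cons_val_zero] at this
    simp only [mem_product, mem_range, mem_univ, and_true]
    omega
  · exact Prod.ext (by simp) (funext fun j => by simp [sp])
  · have := fun i => mem_Ico.1 (Fintype.mem_piFinset.1 hx i)
    funext i
    refine Fin.cases (by simpa using (this 0).1) (fun j => ?_) i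
    have h2 := this j.succ
    rw [show ![T, n, n] j.succ = n by fin_cases j <;> rfl] at h2
    simp only [Fin.cons_succ, sp, ZMod.val_intCast, Int.emod_eq_of_lt h2.1 h2.2]
  · congr 1
    exact funext fun j => by simp [sp]

theorem plaq_tc (U : Link → SU2) (x : Fin 3 → ℤ) (i j : Fin 3) :
    2 * (plaq (fun e => U e) x i j).re = tc (U (x, i) * U (x + Pi.single i 1, j) *
      (U (x + Pi.single j 1, i))⁻¹ * (U (x, j))⁻¹) := by
  simp only [plaq, ← q_inv]
  rfl

theorem sp_add (x y : Fin 3 → ℤ) : sp n (x + y) = sp n x + sp n y := funext fun _ => Int.cast_add _ _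

theorem sp_zero : sp n (Pi.single 0 1) = 0 := funext fun j => by simp [sp]

theorem sp_succ (j : Fin 2) : sp n (Pi.single j.succ 1) = Pi.single j 1 :=
  funext fun i => by by_cases h : i = j <;> simp [sp, h]

theorem sum_lt (f : Fin 3 → Fin 3 → ℝ) :
    ∑ i, ∑ j, (if i < j then f i j else 0) = f 1 2 + (f 0 1 + f 0 2) := by
  simp [Fin.sum_univ_three, add_comm]

theorem action_lift (T : ℕ) (w : Ix (Ed n) (Sp n) → SU2) : action ![T, n, n] (lift w) =
    ∑ t ∈ range T, (w2 (sl t w) + dt (ga (tl t w) (sl (t + 1) w)) (sl t w)) := by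
  let d : (Ed n → SU2) → (Ed n → SU2) → Sp n → ℝ := fun x y s => tc (x (s, 0) *
      x (s + Pi.single 0 1, 1) * (x (s + Pi.single 1 1, 0))⁻¹ * (x (s, 1))⁻¹) +
      ∑ j, tc (y (s, j) * (x (s, j))⁻¹)
  have e : ∀ x y : Ed n → SU2, w2 x + dt y x = ∑ s, d x y s := fun x y => by
    rw [sum_add_distrib, w2, dt, Fintype.sum_prod_type]
  simp only [e]
  rw [← sum_box T fun t s => d (sl t w) (ga (tl t w) (sl (t + 1) w)) s, action]
  refine sum_congr rfl fun x _ => ?_
  have e0 : ∀ y, lift w (y, 0) = tl (y 0) w (sp n y) := fun _ => rfl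
  have e1 : ∀ y, lift w (y, 1) = sl (y 0) w (sp n y, 0) := fun _ => rfl
  have e2 : ∀ y, lift w (y, 2) = sl (y 0) w (sp n y, 1) := fun _ => rfl
  have s1 : sp n (Pi.single 1 1) = Pi.single 0 1 := sp_succ 0
  have s2 : sp n (Pi.single 2 1) = Pi.single 1 1 := sp_succ 1
  have t0 : (x + Pi.single 0 1 : Fin 3 → ℤ) 0 = x 0 + 1 := by simp
  have t1 : (x + Pi.single 1 1 : Fin 3 → ℤ) 0 = x 0 := by simp
  have t2 : (x + Pi.single 2 1 : Fin 3 → ℤ) 0 = x 0 := by simp
  rw [sum_lt, plaq_tc, plaq_tc, plaq_tc]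
  simp only [d, Fin.sum_univ_two, ga, e0, e1, e2, sp_add, sp_zero, s1, s2, t0, t1, t2, add_zero]

theorem wt_cyc (a : ℤ) (T : ℕ) (w : Ix (Ed n) (Sp n) → SU2) :
    wt (WW β) a T (cyc a T w) = Real.exp (β * action ![T, n, n] (lift (cyc a T w))) := by
  have p1 : ∀ t, sl (t + T) (cyc a T w) = sl t (cyc a T w) := fun t => funext fun e => by
    simp only [sl, cyc, add_sub_right_comm, Int.add_emod_right]
  have p2 : ∀ t, tl (t + T) (cyc a T w) = tl t (cyc a T w) := fun t => funext fun e => by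
    simp only [tl, cyc, add_sub_right_comm, Int.add_emod_right]
  rw [action_lift, wt]
  generalize cyc a T w = v at p1 p2
  simp only [WW, ← Real.exp_sum, ← mul_sum, sum_add_distrib]
  rw [sum_shift (f := fun t => w2 (sl t v) / 2) (fun t => by simp only [p1]) a,
    sum_shift (f := fun t => dt (ga (tl t v) (sl (t + 1) v)) (sl t v))
      (fun t => by simp only [p1, p2, add_right_comm t T]) a]
  simp only [add_right_comm a _ 1]
  rw [sum_shift (f := fun t => w2 (sl t v) / 2) (fun t => by simp only [p1]) (a + 1),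
    ← sum_add_distrib]
  simp only [add_halves]

theorem meas_per (N : Fin 3 → ℕ) : Measurable (per N) :=
  measurable_pi_lambda _ fun _ => measurable_pi_apply _

theorem cont_action (N : Fin 3 → ℕ) : Continuous (action N) := by
  unfold action
  simp only [plaq_tc]
  refine continuous_finsetSum _ fun _ _ => continuous_finsetSum _ fun _ _ =>
    continuous_finsetSum _ fun _ _ => ?_
  split_ifs <;> fun_prop

theorem int_per {T : ℕ} (a : ℤ) {H : (Link → SU2) → ℝ} (mH : Measurable H) :
    ∫ U, H (per ![T, n, n] U) ∂PP h Link = ∫ w, H (lift (cyc a T w)) ∂PP h (Ix (Ed n) (Sp n)) := by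
  refine int_pat h mH (D := Set.univ) (dependsOn_univ H) (s := fun _ => false)
    (s' := fun _ => false) (φ := fun e : Link => ((fun i => e.1 i % (![T, n, n] i : ℕ), e.2) : Link))
    (φ' := fun e => ((a + ((ix n e).1 - a) % T, (ix n e).2) : Ix (Ed n) (Sp n)))
    (fun e _ e' _ => ?_) fun _ _ _ _ _ => rfl
  obtain ⟨x, i⟩ := e
  obtain ⟨y, j⟩ := e'
  have h0 : a + (x 0 - a) % T = a + (y 0 - a) % T ↔ x 0 % T = y 0 % T := by
    rw [_root_.add_right_inj]
    exact ⟨fun h => by simpa only [sub_add_cancel, Int.ModEq] using Int.ModEq.add_right a h,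
      fun h => Int.ModEq.sub_right a h⟩
  have h1 : sp n x = sp n y ↔ x 1 % n = y 1 % n ∧ x 2 % n = y 2 % n := by
    simp [sp, funext_iff, Fin.forall_fin_two, ZMod.intCast_eq_intCast_iff']
  simp only [Prod.mk.injEq, ix, h0, funext_iff, Fin.forall_fin_succ, Matrix.cons_val_zero,
    Matrix.cons_val_succ, IsEmpty.forall_iff, and_true, and_assoc]
  refine and_congr_right fun _ => ?_
  rw [← and_assoc]
  refine (and_congr_left' h1.symm).trans ?_
  refine Fin.cases ?_ (fun i => ?_) i <;> refine Fin.cases ?_ (fun j => ?_) j <;>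
    simp [Fin.succ_ne_zero, (Fin.succ_ne_zero _).symm]

theorem int_wilson {T : ℕ} (a : ℤ) {F : (Link → SU2) → ℝ} (mF : Measurable F) :
    ∫ U, F U ∂wilson h β ![T, n, n] =
      tor h (WW (n := n) β) a T (fun w => F (lift w)) / tor h (WW (n := n) β) a T fun _ => 1 := by
  have m := ((cont_action ![T, n, n]).measurable.const_mul β).exp
  rw [wilson, integral_map (meas_per _).aemeasurable mF.aestronglyMeasurable, integral_tilted]
  simp only [tor, wt_cyc, one_mul, smul_eq_mul, div_mul_eq_mul_div, integral_div, mul_comm (F _)]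
  rw [← int_per h a m, ← int_per h a (H := fun U => Real.exp (β * action ![T, n, n] U) * F U)
    (m.mul mF)]

end Pool.Agent.Lib.MP_7f377f_mp.Y6
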