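import Pool.Agent.Lib.MP_7f377f_mp.HAsm

/-! One step of the induction over the levels for the inequality between four configurations. -/

noncomputable section

namespace Pool.Agent.Lib.MP_7f377f_mp.RG.D3.Hq

open Finset MeasureTheory
open scoped Quaternion ENNReal Pointwise
open JC

attribute [local irreducible] box lbox

theorem Four.mono {n c w : ℕ} {δ t t' : ℝ} {A A' : Conf → ℝ} {f f0 g1 g2 : Conf → ℝ≥0∞}
    (h : Four n c w δ t A f f0 g1 g2) (ht : t ≤ t') (x : ℝ)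
    (hA : ∀ U, curvG δ U → A U = A' U + x) : Four n c w δ t' A' f f0 g1 g2 :=
  fun U U0 U1 U2 a a0 a1 a2 s1 s2 => le_trans (mul_le_mul_left (ENNReal.ofReal_le_ofReal
    (Real.exp_le_exp.2 (by rw [hA _ a.2, hA _ a0.2, hA _ a1.2, hA _ a2.2]; linarith))) _)
    (h U U0 U1 U2 a a0 a1 a2 s1 s2)

/-- one step preserves the inequality between four configurations -/
def St4 (l K R : ℕ) (β β' ε δ δ' er : ℝ) (m m' : BF) (ψ ψ' : Fld → ℂ) : Prop :=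
  ∀ (n c0 w w' : ℕ) (t : ℝ) (f f0 g1 g2 : Conf → ℝ≥0∞), LL l ^ K ≤ n → w / LL l + 4 * R ≤ w' →
    2 * w' + 1 ≤ c0 → c0 + 2 * w' + 1 ≤ n → GI (LL l * n) f → GI (LL l * n) f0 →
    GI (LL l * n) g1 → GI (LL l * n) g2 →
    Four (LL l * n) (LL l * c0) w δ t (act β m ψ (LL l * n)) f f0 g1 g2 →
    Four n c0 w' δ' (t + 10 * er * n ^ 3) (act β' m' ψ' n) (TT l (β * LL l ^ 2) n f)
      (TT l (β * LL l ^ 2) n f0) (TG l (β * LL l ^ 2) ε n g1) (TG l (β * LL l ^ 2) ε n g2)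

theorem lev4 (hW : WStep) (c : ℕ) : ∃ K : ℕ, ∀ (C v l p : ℕ) (β β' δ δ' ε G κ κ' τ er : ℝ)
    (m : BF) (s : V →ₗ[ℝ] V) (φ : Fld → ℂ), Num c K C v l p β δ δ' ε G κ κ' τ er →
    β = LL l * β' → Lin l (v ^ 3) c τ m s → Rng (3 * v ^ 3) (3 * v ^ 3) m →
    Bd (3 * v ^ 3) (3 * v ^ 3) ((LL l : ℝ) ^ c) m → Cl C (v + 1) (2 * δ) κ φ →
    ∃ φ', Cl C v (2 * δ') κ' φ' ∧ St4 l K (rk v C) β β' ε δ δ' er m (mr l m s) φ φ' := by
  obtain ⟨K1, hpush⟩ := push_tm c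
  obtain ⟨K2, hfresh⟩ := fresh_tm c
  obtain ⟨K3, hstep⟩ := hW c
  obtain ⟨K, k1, k2, k3, k5⟩ : ∃ K, K1 ≤ K ∧ K2 ≤ K ∧ K3 ≤ K ∧ 3 ≤ K :=
    ⟨K1 + K2 + K3 + 3, by omega, by omega, by omega, by omega⟩
  refine ⟨K, ?_⟩
  intro C v l p β β' δ δ' ε G κ κ' τ er m s φ N hβ lin rng bd hφ
  set L : ℝ := ((LL l : ℕ) : ℝ) with hL
  have L2 : 1 ≤ L := one_le_LL l
  have b1 := N.b1
  have b0 : 0 < β := zero_lt_one.trans_le b1
  have d0 := N.d0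
  have d1 := N.d1
  have κ0 := N.k0
  have τ0 := N.t0
  have Lp : ∀ a ≤ K, ∀ x, 0 ≤ x → L ^ a * x ≤ L ^ K * x := fun a ha x hx =>
    mul_le_mul_of_nonneg_right (pow_le_pow_right₀ L2 ha) hx
  have sq : 0 < √(2 * β * L ^ (c + 1)) := Real.sqrt_pos.2 (by positivity)
  have G0 : 0 < G := pos_of_mul_pos_right (a := √(2 * β * L ^ (c + 1)))
    (by rw [mul_comm]; exact zero_lt_one.trans_le N.z1) sq.le
  have κ1 : 0 ≤ κ' := le_trans (by positivity) N.ka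
  have l0 := pow_pos (la_pos v) C
  set κs := 4 * ((C : ℝ) + 1) * κ with hκs
  set ds := 3 * (rk v C : ℝ) * (2 * δ') with hds
  let D : (Fld → ℂ) → Dat := fun ψ => ⟨l, v ^ 3, β, m, s, ψ, L ^ (c + 1), LL l ^ (2 * c + 4),
    G * √(2 * β * L ^ (c + 1)),
    p * (2 * (rk (v + 1) C / LL l + 4 * LL l ^ (2 * c + 4) + v ^ 3 + 10) + 1)⟩
  have gz : ∀ ψ, (D ψ).g * (D ψ).ζ = G := fun ψ => by
    rw [Dat.g, mul_left_comm, inv_mul_cancel₀ sq.ne', mul_one]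
  have rb : ∀ ψ, (D ψ).Rb + (D ψ).Rs (rk (v + 1) C) + 2 ≤ rk v C := fun ψ =>
    le_trans (le_of_eq (by simp only [D, Dat.Rs]; ring)) N.rb
  have hN : ∀ k ≤ C, rk v k ≤ LL l ^ (12 * c + 30) ∧ rk (v + 1) k ≤ LL l ^ (12 * c + 30) :=
    fun k hk => ⟨(rk_succ v k).trans ((rk_mono _ hk).trans N.rad), (rk_mono _ hk).trans N.rad⟩
  have ok : ∀ ψ, Tm (rk (v + 1) C) (2 * δ) κs ψ → (D ψ).Ok c τ (rk (v + 1) C) (2 * δ) κs :=
    fun ψ hψ =>
    { lin := lin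
      m_rng := rng
      m_bd := bd
      m_gauge := fun u b => ⟨lin.gauge u b, (lin.symm _ _).trans (lin.gauge u b)⟩
      psi := hψ
      lam := rfl
      num := rfl
      r_ge := Nat.pow_le_pow_left (show 10 ≤ v by have := N.v1; omega) 3
      r_le := N.r2
      beta := b1
      rad := N.rad
      radb := (Nat.le_of_add_right_le (Nat.le_of_add_right_le (rb ψ))).trans (hN C le_rfl).1
      zeta := N.z1
      tau := τ0
      rho := by positivity }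
  have t0 : ∀ ψ, ∀ a ≤ K, (D ψ).th0 a τ (2 * δ) (2 * δ') κs ds + L ^ a * (2 * δ') ≤
      κ' * la v ^ C / 40 := fun ψ a ha => by
    rw [Dat.th0, gz, ← mul_add]
    exact (Lp a ha _ (by positivity)).trans N.th
  have t00 : ∀ ψ a, 0 ≤ (D ψ).th0 a τ (2 * δ) (2 * δ') κs ds := fun ψ a => by
    rw [Dat.th0, gz]
    show 0 ≤ L ^ a * (β * _ + β * _ * _ * _ + _ + _)
    positivity
  have t1 : ∀ ψ, ∀ a ≤ K,
      (2 * (D ψ).Rb + 1) ^ 3 * (D ψ).th0 a τ (2 * δ) (2 * δ') κs ds ≤ 1 / 100 := fun ψ a ha => by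
    have h1 : ((D ψ).Rb : ℝ) ≤ rk v C :=
      Nat.cast_le.2 (Nat.le_of_add_right_le (Nat.le_of_add_right_le (rb ψ)))
    have h2 : (D ψ).th0 a τ (2 * δ) (2 * δ') κs ds ≤ κ' / 40 := by
      have := t0 ψ a ha
      have := mul_le_of_le_one_right κ1 (la_pow_le v C)
      have : 0 ≤ L ^ a * (2 * δ') := by positivity
      linarith
    have h3 := mul_le_mul (pow_le_pow_left₀ (by positivity)
      (show 2 * ((D ψ).Rb : ℝ) + 1 ≤ 2 * rk v C + 1 by linarith) 3) h2 (t00 ψ a) (by positivity)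
    linarith [N.th2]
  have ρ0 : 0 < 2 * δ' := by positivity
  have s0 : 2 * δ' ≤ √L * (2 * δ) := by linarith [N.s0]
  have s1 : ∀ a ≤ K, L ^ a * (2 * δ') ≤ 1 := fun a ha => (Lp a ha _ ρ0.le).trans N.s1
  have s3 : ∀ a ≤ K, L ^ a * (2 * δ') ^ 2 ≤ δ := fun a ha => (Lp a ha _ (by positivity)).trans N.s3
  have s4 : ∀ ψ, ∀ a ≤ K, L ^ a * ((D ψ).g * (D ψ).ζ) ≤ δ := fun ψ a ha => by
    rw [gz]; exact (Lp a ha _ G0.le).trans N.s4
  have s5 : ∀ ψ, ∀ a ≤ K, L ^ a * ((D ψ).g * (D ψ).ζ) ≤ δ' := fun ψ a ha => by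
    rw [gz]; exact (Lp a ha _ G0.le).trans N.s5
  have dd : δ ≤ 2 * δ := by linarith
  have dd' : δ' ≤ 2 * δ' := by linarith
  have tφ : Tm (rk (v + 1) C) (2 * δ) κs φ := (hφ.tm κ0).mono le_rfl (by
    have : 0 ≤ ((C : ℝ) + 1) * κ := by positivity
    linarith)
  replace hpush := hpush (D φ) _ τ _ _ (2 * δ') (ok φ tφ) (k1.trans N.Kl) ρ0 (s1 _ k1)
    ((s3 _ k1).trans dd) s0
  obtain ⟨φp, p1, p2⟩ := hφ.push κ0 rfl N.v1 N.L1 N.L2 hN hpush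
  have fr := hfresh (D φ) _ (rk v C) τ _ _ (2 * δ') (ok φ tφ) (k2.trans N.Kl) (rb φ)
    (hN C le_rfl).1 ρ0 s0 (s1 _ k2) ((s3 _ k2).trans dd) ((s4 φ _ k2).trans dd)
    ((s5 φ _ k2).trans dd') (t1 φ _ k2)
  have e0 := N.e0
  have he := hstep (D φ) _ (rk v C) τ _ _ (2 * δ') (ok φ tφ) (k3.trans N.Kl) (rb φ)
    (hN C le_rfl).1 ρ0 s0 (s1 _ k3) ((s3 _ k3).trans dd) ((s4 φ _ k3).trans dd)
    ((s5 φ _ k3).trans dd') (t1 φ _ k3) p ε δ δ' le_rfl le_rfl ((Lp _ k3 _ d0.le).trans N.s2)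
    (le_trans (mul_le_mul_of_nonneg_left (pow_le_pow_left₀ d1.le dd' 2) (by positivity))
      (s3 _ k3)) N.s0 (s4 φ _ k3) (by rw [gz]; exact (Lp _ k3 _ e0).trans N.s6)
    ((Lp _ k5 _ e0).trans (N.s6.trans ((le_mul_of_one_le_left G0.le (one_le_pow₀ L2)).trans
      N.s5))) e0
  have act1 : ∀ n (W : Conf), curvG δ' W → (D φ).actN n W =
      act β' (mr l m s) (φp + (D φ).fresh (rk v C)) n W +
        ((D φ).wt 1 - (D φ).dt 1).re * n ^ 3 := by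
    intro n W hW
    rw [Dat.actN, act, ← Nat.cast_pow, ← card_cube, mul_comm (Complex.re _), ← nsmul_eq_mul,
      ← sum_const, ← sum_add_distrib]
    refine sum_congr rfl fun y _ => ?_
    have h1 : curvG (2 * δ' / 2) (sh y W) := (hW.sh y).mono (by linarith)
    rw [← Complex.add_re, Pi.add_apply, Bx_eq y, sh_cC, p2 _ h1, (fr.2 _ h1).1, mr, cx_smul]
    congr 1
    show (β : ℂ) * cx (mn l m s) _ _ + ∑ x ∈ box l, φ (Bx x ((D φ).Us _)) + _ - _ = _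
    rw [hβ, hL]
    push_cast
    ring
  refine ⟨φp + (D φ).fresh (rk v C),
    (p1.add (Cl.one (κ := κ' / 4) le_rfl (by positivity) (fr.1.mono le_rfl ?_))).mono ?_,
    fun n c0 w w' t f f0 g1 g2 hn w1 w2 w3 q q0 q1 q2 h4 => ?_⟩
  · have h1 := t0 φ _ k2
    have h2 : 0 ≤ L ^ K2 * (2 * δ') := by positivity
    show 10 * _ + L ^ K2 * _ ≤ _
    linarith only [h1, h2]
  · linarith only [N.ka, κ1]
  · refine (he n c0 w w' t f f0 g1 g2 ((Nat.pow_le_pow_right (LL_pos l) k3).trans hn) w1 w2 w3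
      q q0 q1 q2 h4).mono ?_ _ (act1 n)
    have h3 := mul_le_mul_of_nonneg_right N.er (show (0 : ℝ) ≤ n ^ 3 by positivity)
    simp only [D, ← hL] at h3 ⊢
    linarith only [h3]

end Pool.Agent.Lib.MP_7f377f_mp.RG.D3.Hq
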