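import Pool.Agent.Lib.MP_7f377f_mp.HDefs

/-! Representation of one renormalisation step as an integral over the fluctuation field. -/

noncomputable section

namespace Pool.Agent.Lib.MP_7f377f_mp.RG.D3.Hq

open Finset MeasureTheory D3.SX
open scoped ENNReal

theorem gauss_fm {ι : Type} [Fintype ι] {ζ : ℝ} (hζ : 0 < ζ) {S : (ι → E3) → ℝ}
    (hS : Measurable S) {M : ℝ} (hM : ∀ z, |S z| ≤ M) (a : ℝ) {F : (ι → E3) → ℝ≥0∞}
    (hF : Measurable F) :
    ∫⁻ z : ι → E3, {z : ι → E3 | ∀ i, ‖z i‖ ≤ ζ}.indicator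
        (fun z => F z * ENNReal.ofReal (Real.exp (a - (∑ i, ‖z i‖ ^ 2) / 2 - S z))) z =
      ENNReal.ofReal (Real.exp (a + Fintype.card ι * Real.log (nu0 ζ Set.univ).toReal +
        Real.log (∫ z, Real.exp (-S z) ∂Measure.pi fun _ : ι => nu ζ))) *
        ∫⁻ z, F z ∂(Measure.pi fun _ : ι => nu ζ).tilted fun z => -S z := by
  have := nu_prob hζ
  set c := nu0 ζ Set.univ with hc
  have c0 : c ≠ 0 := nu0_ne_zero hζ
  have c1 : c ≠ ∞ := nu0_ne_top ζ
  set w : E3 → ℝ≥0∞ := c⁻¹ • (Metric.closedBall (0 : E3) ζ).indicator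
    fun v => ENNReal.ofReal (Real.exp (-(‖v‖ ^ 2 / 2))) with hw
  have mw0 := measurable_gw.indicator (measurableSet_closedBall (x := (0 : E3)) (ε := ζ))
  have mw : Measurable w := mw0.const_smul _
  have h1 : nu ζ = volume.withDensity w := by
    rw [hw, withDensity_smul _ mw0, withDensity_indicator measurableSet_closedBall]
    rfl
  have : SigmaFinite (volume.withDensity w) := h1 ▸ inferInstance
  have h2 : (Measure.pi fun _ : ι => nu ζ) = volume.withDensity fun z => ∏ i, w (z i) := by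
    rw [h1, Kit.pi_withDensity (volume : Measure E3) (f := fun _ : ι => w) fun _ => mw]
    rfl
  have bm : Kit.BM fun z => -S z := ⟨hS.neg, M, fun z => by rw [abs_neg]; exact hM z⟩
  have hpos := bm.pos (Measure.pi fun _ : ι => nu ζ)
  rw [lintegral_tilted]
  set Z := ∫ z, Real.exp (-S z) ∂Measure.pi fun _ : ι => nu ζ with hZ
  have mE : Measurable fun z => ENNReal.ofReal (Real.exp (-S z) / Z) * F z := by fun_prop
  rw [h2, lintegral_withDensity_eq_lintegral_mul (f := fun z : ι → E3 => ∏ i, w (z i)) _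
      (Finset.measurable_fun_prod _ fun i _ => mw.comp (measurable_pi_apply i)) mE,
    ← lintegral_const_mul' _ _ ENNReal.ofReal_ne_top]
  refine lintegral_congr fun z => ?_
  by_cases hz : ∀ i, ‖z i‖ ≤ ζ
  · have h3 : ∀ i, w (z i) = c⁻¹ * ENNReal.ofReal (Real.exp (-(‖z i‖ ^ 2 / 2))) := fun i => by
      rw [hw, Pi.smul_apply, Set.indicator_of_mem (mem_closedBall_zero_iff.mpr (hz i)), smul_eq_mul]
    have h4 : c⁻¹ = ENNReal.ofReal (Real.exp (-Real.log c.toReal)) := by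
      rw [Real.exp_neg, Real.exp_log (ENNReal.toReal_pos c0 c1),
        ENNReal.ofReal_inv_of_pos (ENNReal.toReal_pos c0 c1), ENNReal.ofReal_toReal c1]
    have h5 : ∏ i, w (z i) = ENNReal.ofReal (Real.exp
        (-(Fintype.card ι * Real.log c.toReal) - (∑ i, ‖z i‖ ^ 2) / 2)) := by
      simp only [h3, h4, ← ENNReal.ofReal_mul (Real.exp_pos _).le, ← Real.exp_add]
      rw [← ENNReal.ofReal_prod_of_nonneg fun i _ => (Real.exp_pos _).le, ← Real.exp_sum]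
      congr 2
      simp only [sum_add_distrib, sum_neg_distrib, sum_const, card_univ, nsmul_eq_mul, ← sum_div]
      ring
    have h6 : Real.exp (-S z) / Z = Real.exp (-S z - Real.log Z) := by
      rw [Real.exp_sub, Real.exp_log hpos]
    rw [Set.indicator_of_mem (show z ∈ {z : ι → E3 | ∀ i, ‖z i‖ ≤ ζ} from hz), Pi.mul_apply, h5, h6,
      ← mul_assoc, ← mul_assoc, ← ENNReal.ofReal_mul (Real.exp_pos _).le,
      ← ENNReal.ofReal_mul (by positivity), ← Real.exp_add, ← Real.exp_add, mul_comm]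
    congr 3
    ring
  · rw [Set.indicator_of_notMem (show z ∉ {z : ι → E3 | ∀ i, ‖z i‖ ≤ ζ} from hz), Pi.mul_apply]
    obtain ⟨i, hi⟩ := not_forall.mp hz
    rw [prod_eq_zero (mem_univ i), zero_mul, mul_zero]
    rw [hw, Pi.smul_apply, Set.indicator_of_notMem (fun h => hi (mem_closedBall_zero_iff.mp h)),
      smul_zero]

open Classical in
/-- retraction onto the ball -/
def rt (ζ : ℝ) (v : E3) : E3 := if ‖v‖ ≤ ζ then v else 0

theorem rt_le {ζ : ℝ} (h : 0 ≤ ζ) (v : E3) : ‖rt ζ v‖ ≤ ζ := by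
  unfold rt
  split_ifs with hv
  exacts [hv, norm_zero.trans_le h]

theorem rt_of_le {ζ : ℝ} {v : E3} (h : ‖v‖ ≤ ζ) : rt ζ v = v := if_pos h

theorem measurable_rt (ζ : ℝ) : Measurable (rt ζ) :=
  Measurable.ite (measurableSet_le measurable_norm measurable_const) measurable_id measurable_const

theorem Az_rt (D : Dat) {n : ℕ} (W : Cf) (z : fund D.l n → E3) :
    D.Az W (ext D.l n 0 fun i => rt D.ζ (z i)) = D.Az W (ext D.l n 0 z) := by
  have h0 : rt D.ζ 0 = 0 := by simp [rt]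
  have h1 : zc D.ζ (ext D.l n 0 fun i => rt D.ζ (z i)) = zc D.ζ (ext D.l n 0 z) := by
    funext f
    have h2 := ext_map (rt D.ζ) 0 z f
    rw [h0] at h2
    simp only [zc, ← h2]
    by_cases hv : ‖ext D.l n 0 z f‖ ≤ D.ζ
    · rw [rt_of_le hv]
    · have : rt D.ζ (ext D.l n 0 z f) = 0 := if_neg hv
      rw [this, if_neg hv, cE_zero, ite_self]
  rw [Dat.Az, Dat.Az, h1]

/-- what the step provides for one coarse field -/
def Rep (D : Dat) (n : ℕ) (ε δ e X Y : ℝ) (W : Conf) : Prop :=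
  ∃ (Uc : (fund D.l n → E3) → Conf) (Ψ : (fund D.l n → E3) → ℝ≥0∞), Measurable Uc ∧ Measurable Ψ ∧
    (∀ z, Fl (LL D.l * n) δ (Uc z) ∧
      cC (Uc z) = D.Uz (cC W) (D.Az (cC W) (ext D.l n 0 z)) ∧
      ENNReal.ofReal (Real.exp (act D.β D.m D.ψ (LL D.l * n) (Uc z) - X)) ≤ Ψ z ∧
      Ψ z ≤ ENNReal.ofReal (Real.exp (act D.β D.m D.ψ (LL D.l * n) (Uc z) + X))) ∧
    (∀ f, GI (LL D.l * n) f → ENNReal.ofReal (Real.exp (e - Y - D.actN n W)) *
      ∫⁻ z, f (Uc z) * Ψ z ∂fm D n W ≤ TT D.l (D.β * LL D.l ^ 2) n f W) ∧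
    ∀ f, GI (LL D.l * n) f → TG D.l (D.β * LL D.l ^ 2) ε n f W ≤
      ENNReal.ofReal (Real.exp (e + Y - D.actN n W)) * ∫⁻ z, f (Uc z) * Ψ z ∂fm D n W

open Classical in
theorem rep (c : ℕ) : ∃ K : ℕ, 12 * c + 40 ≤ K ∧ ∀ (D : Dat) (R R' : ℕ) (τ ρ κ ρ' : ℝ),
    D.Ok c τ R ρ κ →
    K ≤ D.l → D.Rb + D.Rs R + 2 ≤ R' → R' ≤ LL D.l ^ (12 * c + 30) → 0 < ρ' →
    ρ' ≤ √(LL D.l) * ρ → (LL D.l : ℝ) ^ K * ρ' ≤ 1 → (LL D.l : ℝ) ^ K * ρ' ^ 2 ≤ ρ →
    (LL D.l : ℝ) ^ K * (D.g * D.ζ) ≤ ρ → (LL D.l : ℝ) ^ K * (D.g * D.ζ) ≤ ρ' →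
    (2 * D.Rb + 1) ^ 3 * D.th0 K τ ρ ρ' κ (3 * R' * ρ') ≤ 1 / 100 →
    ∀ (p : ℕ) (ε δ δ' : ℝ), p * (2 * D.Rs R + 1) ≤ D.Rb → 2 * δ' ≤ ρ' →
    (LL D.l : ℝ) ^ K * δ ≤ 1 → (LL D.l : ℝ) ^ K * δ' ^ 2 ≤ δ → δ' ≤ √(LL D.l) * δ →
    (LL D.l : ℝ) ^ K * (D.g * D.ζ) ≤ δ → (LL D.l : ℝ) ^ K * ε ≤ D.g * D.ζ →
    (LL D.l : ℝ) ^ 3 * ε ≤ δ' → 0 ≤ ε →
    ∃ θ e : ℝ, 8 * θ ≤ 1 ∧ (2 * D.Rb + 1) ^ 3 * θ ≤ 1 / 100 ∧ ∀ n : ℕ, LL D.l ^ K ≤ n →
      ∀ W, Fl n δ' W →
        (∀ y, (∀ z, ‖D.s0 (sh y (cC W)) z‖ ≤ θ) ∧ Measurable (D.s0 (sh y (cC W)))) ∧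
        Rep D n ε δ (e * n ^ 3) (Real.exp (-(D.l : ℝ)) * D.ζ ^ 2 * n ^ 3 / 2)
          ((2⁻¹ ^ p + Real.exp (-(D.l : ℝ)) * D.ζ ^ 2) * n ^ 3) W := by
  obtain ⟨K₁, hK₁⟩ := pol_torus c
  obtain ⟨K₂, hK₂⟩ := geo c
  obtain ⟨K₃, hK₃⟩ := fresh_tm c
  obtain ⟨cH, hcH, hch⟩ := chart_change
  obtain ⟨C, hC⟩ := hk_tail
  choose e he _ using ex_real
  have me : Measurable e := by
    rw [Ms.eq_e0 he]
    exact Ms.continuous_e0.measurable
  obtain ⟨K, hKdef⟩ : ∃ K, K = K₁ + K₂ + K₃ + 12 * c + 40 := ⟨_, rfl⟩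
  refine ⟨K, by omega, ?_⟩
  intro D R R' τ ρ κ ρ' h hK hR hR' hρ' hρ1 hρ hρ2 hgρ hgρ' hθ p ε δ δ' hp hδρ hδ1 hδ2 hδ3 hgδ hεg
    hεδ' hε
  have hL100 := LL_ge h
  have key : ∀ b, R' ≤ LL D.l ^ b → b + 1 ≤ K → R' * 100 ≤ LL D.l ^ K := fun b h1 h2 =>
    (Nat.mul_le_mul h1 hL100).trans ((pow_succ _ _).ge.trans (Nat.pow_le_pow_right (by omega) h2))
  replace hK₃ := hK₃ D R R' τ ρ κ ρ' h (by omega) hR hR'
  replace hR' := key _ hR' (by omega)
  clear key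
  set L : ℝ := (LL D.l : ℝ) with hLdef
  have hL : 100 ≤ L := by rw [hLdef]; exact_mod_cast hL100
  have hL1 : 1 ≤ L := by linarith
  have hpw : ∀ a, a ≤ K → L ^ a ≤ L ^ K := fun a ha => pow_le_pow_right₀ hL1 ha
  have hpw' : ∀ a, a + 1 ≤ K → 100 * L ^ a ≤ L ^ K := fun a ha =>
    ((mul_le_mul_of_nonneg_right hL (by positivity)).trans_eq (pow_succ' L a).symm).trans (hpw _ ha)
  have hK1 : 1 ≤ L ^ K := one_le_pow₀ hL1
  obtain ⟨hΛ, hg, -⟩ := g_pos h
  have hζ1 := h.zeta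
  have hζ : 0 < D.ζ := by linarith
  have hgζ : 0 < D.g * D.ζ := by positivity
  have hρ0 := h.rho
  have hgδ' : D.g * D.ζ ≤ δ := (le_mul_of_one_le_left hgζ.le hK1).trans hgδ
  have hδ0 : 0 < δ := hgζ.trans_le hgδ'
  have hεδ : ε ≤ δ := ((le_mul_of_one_le_left hε hK1).trans hεg).trans hgδ'
  have hδ0' : 0 ≤ δ' := le_trans (by positivity) hεδ'
  have hm : ∀ a x y, a ≤ K → 0 ≤ x → L ^ K * x ≤ y → L ^ a * x ≤ y := fun a x y ha h0 h1 =>
    (mul_le_mul_of_nonneg_right (hpw a ha) h0).trans h1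
  have hδ1' : L ^ K * δ' ≤ 1 :=
    (mul_le_mul_of_nonneg_left (by linarith) (by positivity)).trans hρ
  have hε1 : L ^ K * ε ≤ 1 := (mul_le_mul_of_nonneg_left hεδ (by positivity)).trans hδ1
  have hθ₃ : (2 * D.Rb + 1) ^ 3 * D.th0 K₃ τ ρ ρ' κ (3 * R' * ρ') ≤ 1 / 100 :=
    le_trans (mul_le_mul_of_nonneg_left (th0_mono h (by positivity) hρ'.le (by omega))
      (by positivity)) hθ
  obtain ⟨-, hfr⟩ := hK₃ hρ' hρ1
    (hm _ _ _ (by omega) hρ'.le hρ) (hm _ _ _ (by omega) (by positivity) hρ2)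
    (hm _ _ _ (by omega) hgζ.le hgρ) (hm _ _ _ (by omega) hgζ.le hgρ') hθ₃
  set θ := D.th0 K₃ τ ρ ρ' κ (3 * R' * ρ') with hθdef
  obtain ⟨geo1, -⟩ := hK₂ D R τ ρ κ ε h (by omega) (hm _ _ _ (by omega) hε hε1)
  have geo2 := (hK₂ D R τ ρ κ δ h (by omega) (hm _ _ _ (by omega) hδ0.le hδ1)).2 δ'
    (hm _ _ _ (by omega) hδ0' hδ1') (hm _ _ _ (by omega) (by positivity) hδ2) hδ3
  have hβ := h.beta
  obtain ⟨mhk, -, hz0, hz1, -⟩ := hC (D.β * L ^ 2) 0
    (one_le_mul_of_one_le_of_one_le hβ (one_le_pow₀ hL1)) le_rfl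
  set lz := Real.log (∫⁻ g, hk0 (D.β * L ^ 2) g ∂haar).toReal with hlz
  set lν := Real.log (nu0 D.ζ Set.univ).toReal with hlν
  have hθ1 : 8 * θ ≤ 1 := by
    have : (1 : ℝ) ≤ (2 * D.Rb + 1) ^ 3 := one_le_pow₀ (by linarith [Nat.cast_nonneg (α := ℝ) D.Rb])
    by_contra hc
    nlinarith
  refine ⟨θ, -3 * lz + cnt D.l * (3 * Real.log D.g + Real.log cH + lν), hθ1, hθ₃, ?_⟩
  rintro n hn W ⟨hW, hWc⟩
  have hn0 : 0 < n := lt_of_lt_of_le (by positivity) hn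
  have hnK : ∀ a, a ≤ K → LL D.l ^ a ≤ n := fun a ha =>
    (Nat.pow_le_pow_right (by omega) ha).trans hn
  obtain ⟨P, hP, hdet, hld, hq, hPz, hzP⟩ := hK₁ D R τ ρ κ δ' h (by omega)
    (hm _ _ _ (by omega) hδ0' hδ1') n (hnK _ (by omega)) W hW hWc
  obtain ⟨U₀, hU₀⟩ := Dat.Us_real (D := D) W
  have hs0 : ∀ y, (∀ z, ‖D.s0 (sh y (cC W)) z‖ ≤ θ) ∧ Measurable (D.s0 (sh y (cC W))) := fun y =>
    (hfr (sh y W) (curvG_mono (by linarith) (curvG_sh hWc y))).2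
  refine ⟨hs0, ?_⟩
  have hθ0 : 0 ≤ θ := (norm_nonneg _).trans ((hs0 0).1 0)
  have hn2 : 2 * (D.Rb + D.Rs R) + 1 ≤ n := by omega
  have hlf := log_fluct h n p hn2 hp W hW (fun y => (hs0 y).1) (fun y => (hs0 y).2) hθ₃
  set S : (fund D.l n → E3) → ℝ := fun z =>
    ∑ y ∈ cube n, (D.s0 (sh y (cC W)) (sh (up D.l y) (ext D.l n 0 z))).re with hS
  have hfm : fm D n W = (Measure.pi fun _ : fund D.l n => nu D.ζ).tilted fun z => -S z := rfl
  have mS : Measurable S := Finset.measurable_fun_sum _ fun y _ => Complex.measurable_re.comp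
    ((hs0 y).2.comp ((measurable_sh _).comp (measurable_ext _ _ _)))
  have bS : ∀ z, |S z| ≤ ∑ _y ∈ cube n, θ := fun z => (abs_sum_le_sum_abs _ _).trans
    (sum_le_sum fun y _ => (Complex.abs_re_le_norm _).trans ((hs0 y).1 _))
  have gb := fun a F hF => gauss_fm hζ mS bS a (F := F) hF
  rw [← hfm] at gb
  set lZ := Real.log (∫ z, Real.exp (-S z) ∂Measure.pi fun _ : fund D.l n => nu D.ζ) with hlZ
  set Uc : (fund D.l n → E3) → Conf := fun z =>
    ext D.l n 1 fun i => e ((D.g • P) z i) * U₀ i with hUc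
  set Q : (fund D.l n → E3) → ℝ := fun z => ∑ y ∈ cube n, (cx (hh D.l D.m)
    (D.Ay y (cC W) fun f => cE (ext D.l n 0 (P z) f))
    (D.Ay y (cC W) fun f => cE (ext D.l n 0 (P z) f))).re / D.Λ with hQ
  set c₀ : ℝ := -(3 * n ^ 3 * lz) + n ^ 3 * cnt D.l * (3 * Real.log D.g + Real.log cH) +
    Real.log (LinearMap.det P) - mainA D n W with hc₀
  have hdet' := (jac_eq hg hcH hdet 0).1
  have hcU : ∀ z, cC (Uc z) = D.Uz (cC W) fun f => cE (ext D.l n 0 ((D.g • P) z) f) := fun z =>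
    cC_chart h hn0 hW hU₀ he _
  set Hk : (fund D.l n → E3) → ℝ≥0∞ := fun z =>
    ∏ b ∈ lcube n, hk (D.β * L ^ 2) (W b * (blk D.l (Uc z) b)⁻¹) with hHk
  set Jc : (fund D.l n → E3) → ℝ≥0∞ := fun z => ENNReal.ofReal (LinearMap.det (D.g • P) *
    ∏ i, cH * ((1 + ‖(D.g • P) z i‖ ^ 2) ^ 2)⁻¹) with hJc
  have pw : ∀ z : fund D.l n → E3, (∀ i, ‖z i‖ ≤ D.ζ) → curvG δ (Uc z) ∧ Hk z * Jc z =
      ENNReal.ofReal (Real.exp (act D.β D.m D.ψ (LL D.l * n) (Uc z) + c₀ - Q z / 2 - S z)) := by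
    intro z hz
    have hb : ∀ i, ‖(D.g • P) z i‖ ≤ δ / 100 := by
      intro i
      rw [LinearMap.smul_apply, Pi.smul_apply, norm_smul, Real.norm_of_nonneg hg.le]
      have h1 := mul_le_mul_of_nonneg_left (hPz z _ hz i) hg.le
      have h2 := mul_le_mul_of_nonneg_right (hpw' K₁ (by omega)) hgζ.le
      linarith
    obtain ⟨h1, h2⟩ := geo2 (Uc z) W _ hWc (fun f hf => by rw [ext_tree _ _ hf, cE_zero])
      (fun f => by linarith [(norm_cE _).1.trans (ext_bd (by positivity) hb f)]) (hcU z)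
    refine ⟨h1, ?_⟩
    simp only [hHk, hJc]
    rw [prod_hk _ hz0 hz1 (h2 _), (jac_eq hg hcH hdet _).2,
      ← ENNReal.ofReal_mul (Real.exp_pos _).le, ← Real.exp_add, card_lcube, card_fund]
    congr 2
    have h3 := exponent2 h hn0 hW hP hz (hcU z)
    simp only [hc₀, hQ, hS]
    push_cast
    linarith
  have mx := measurable_ext D.l n (1 : S3)
  have mk : Measurable fun u : fund D.l n → S3 =>
      ∏ b ∈ lcube n, hk (D.β * L ^ 2) (W b * (blk D.l (ext D.l n 1 u) b)⁻¹) :=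
    Finset.measurable_fun_prod _ fun b _ => mhk.comp
      (((measurable_pi_apply b).comp ((measurable_blk D.l).comp mx)).inv.const_mul (W b))
  have mP : Measurable (D.g • P) := (D.g • P).continuous_of_finiteDimensional.measurable
  have mu : Measurable fun (z : fund D.l n → E3) (i : fund D.l n) => e ((D.g • P) z i) * U₀ i :=
    measurable_pi_lambda _ fun i => (me.comp ((measurable_pi_apply i).comp mP)).mul_const _
  have mUc : Measurable Uc := mx.comp mu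
  have mHk : Measurable Hk := mk.comp mu
  have mJc : Measurable Jc := by
    refine ENNReal.measurable_ofReal.comp (Measurable.const_mul
      (Finset.measurable_fun_prod _ fun i _ => ?_) _)
    have := ((measurable_pi_apply i).comp mP).norm
    exact (((this.pow_const 2).const_add 1).pow_const 2).inv.const_mul cH
  set Ψ : (fund D.l n → E3) → ℝ≥0∞ := fun z => Hk z * Jc z *
    ENNReal.ofReal (Real.exp (-(c₀ - (∑ i, ‖z i‖ ^ 2) / 2 - S z))) with hΨ
  have mΨ : Measurable Ψ := by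
    refine (mHk.mul mJc).mul ?_
    fun_prop
  have hΨ1 : ∀ z, Ψ z * ENNReal.ofReal (Real.exp (c₀ - (∑ i, ‖z i‖ ^ 2) / 2 - S z)) =
      Hk z * Jc z := fun z => by
    simp only [hΨ]
    rw [mul_assoc, ← ENNReal.ofReal_mul (Real.exp_pos _).le, ← Real.exp_add, neg_add_cancel,
      Real.exp_zero, ENNReal.ofReal_one, mul_one]
  set r : (fund D.l n → E3) → fund D.l n → E3 := fun z i => rt D.ζ (z i) with hr
  have mr : Measurable r :=
    measurable_pi_lambda _ fun i => (measurable_rt _).comp (measurable_pi_apply i)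
  have rb : ∀ z i, ‖r z i‖ ≤ D.ζ := fun z i => rt_le hζ.le _
  have rid : ∀ z : fund D.l n → E3, (∀ i, ‖z i‖ ≤ D.ζ) → r z = z := fun z hz =>
    funext fun i => rt_of_le (hz i)
  have hX : Real.exp (-(D.l : ℝ)) * n ^ 3 ≤ Real.exp (-(D.l : ℝ)) * D.ζ ^ 2 * n ^ 3 := by
    rw [mul_right_comm]
    exact le_mul_of_one_le_right (by positivity) (one_le_pow₀ hζ1)
  have hY : (n : ℝ) ^ 3 * (8 * θ * 2⁻¹ ^ p) ≤ 2⁻¹ ^ p * n ^ 3 := by
    rw [mul_comm]
    exact mul_le_mul_of_nonneg_right (mul_le_of_le_one_left (by positivity) hθ1) (by positivity)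
  obtain ⟨hlf1, hlf2⟩ := abs_le.mp hlf
  obtain ⟨hld1, hld2⟩ := abs_le.mp hld
  refine ⟨fun z => Uc (r z), fun z => Ψ (r z), mUc.comp mr, mΨ.comp mr, fun z => ?_,
    fun f gi => ?_, fun f gi => ?_⟩
  · obtain ⟨h1, h2⟩ := pw _ (rb z)
    have h3 : Ψ (r z) = ENNReal.ofReal (Real.exp (act D.β D.m D.ψ (LL D.l * n) (Uc (r z)) -
        (Q (r z) - ∑ i, ‖r z i‖ ^ 2) / 2)) := by
      simp only [hΨ]
      rw [h2, ← ENNReal.ofReal_mul (Real.exp_pos _).le, ← Real.exp_add]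
      congr 2
      ring
    obtain ⟨h4, h5⟩ := abs_le.mp (hq _ _ (rb z))
    refine ⟨⟨ext_per _ _ _ _, h1⟩, ?_, ?_, ?_⟩
    · rw [hcU, ← Az_rt D (cC W) z, Az_eq hζ.le hP (rb z), smul_ext]
      rfl
    · exact le_trans (ENNReal.ofReal_le_ofReal (Real.exp_le_exp.mpr
        (by simp only [hQ]; linarith))) h3.ge
    · exact h3.le.trans (ENNReal.ofReal_le_ofReal (Real.exp_le_exp.mpr
        (by simp only [hQ]; linarith)))
  · have mr1 := gi.1
    rw [(gi.tree hn0 (D.β * L ^ 2) ε W).1]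
    refine le_trans ?_ (setLIntegral_le_lintegral
      {u : fund D.l n → S3 | ∀ i, 0 < (u i * (U₀ i)⁻¹).q.re} _)
    refine le_trans ?_ (hch (fun i : fund D.l n => U₀ i) e he _ hdet' _ ((mr1.comp mx).mul mk)).ge
    refine le_trans (le_trans (mul_le_mul_left
      (ENNReal.ofReal_le_ofReal (Real.exp_le_exp.mpr ?_)) _)
      (gb c₀ _ ((mr1.comp (mUc.comp mr)).mul (mΨ.comp mr))).ge) (lintegral_mono fun z => ?_)
    · rw [actN_eq, card_fund, hc₀]
      push_cast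
      linarith
    · by_cases hz : ∀ i, ‖z i‖ ≤ D.ζ
      · rw [Set.indicator_of_mem (show z ∈ {z : fund D.l n → E3 | ∀ i, ‖z i‖ ≤ D.ζ} from hz)]
        change f (Uc (r z)) * Ψ (r z) * _ ≤ f (Uc z) * Hk z * Jc z
        rw [rid z hz, mul_assoc, hΨ1, ← mul_assoc]
      · rw [Set.indicator_of_notMem
          (show z ∉ {z : fund D.l n → E3 | ∀ i, ‖z i‖ ≤ D.ζ} from hz)]
        exact zero_le
  · have mr2 := gi.1
    have hUs : ∀ (u : fund D.l n → S3) (i : fund D.l n),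
        cS (ext D.l n 1 u i) * star (D.Us (cC W) i) = cS (u i * (U₀ i)⁻¹) := by
      intro u i
      rw [ext_coe, ← hU₀, cS_mul, cS_inv]
      rfl
    rw [(gi.tree hn0 (D.β * L ^ 2) ε W).2, ← setLIntegral_eq_of_support_subset
      (s := {u : fund D.l n → S3 | ∀ i, 0 < (u i * (U₀ i)⁻¹).q.re}) fun u hu i => ?_]
    · refine le_trans (hch (fun i : fund D.l n => U₀ i) e he _ hdet' _ ((Measurable.ite
        (mx (measurableSet_good D.l ε W)) (mr2.comp mx) measurable_const).mul mk)).le ?_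
      refine le_trans (lintegral_mono fun z => ?_) (le_trans
        (gb c₀ _ ((mr2.comp (mUc.comp mr)).mul (mΨ.comp mr))).le
        (mul_le_mul_left (ENNReal.ofReal_le_ofReal (Real.exp_le_exp.mpr ?_)) _))
      · by_cases hev : curvG ε (Uc z) ∧ noiseG D.l ε (Uc z) W
        · have hz : ∀ i, ‖z i‖ ≤ D.ζ := by
            have h1 : ∀ i, ‖P z i‖ ≤ 2 * (L ^ K₂ * ε) / D.g := by
              intro i
              have h2 := ((geo1 _ W (ext_one_tree _) hev.1 hev.2).2 i).2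
              rw [hUs, mul_inv_cancel_right, he, ch_ex] at h2
              have h3 := (norm_cE ((D.g • P) z i)).2
              rw [LinearMap.smul_apply, Pi.smul_apply, norm_smul, Real.norm_of_nonneg hg.le] at h3
              rw [LinearMap.smul_apply, Pi.smul_apply] at h2
              rw [le_div_iff₀ hg]
              linarith
            intro i
            refine (hzP z _ h1 i).trans ?_
            rw [← mul_div_assoc, div_le_iff₀ hg]
            have h4 := mul_le_mul_of_nonneg_right (hpw' (K₁ + K₂) (by omega)) hε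
            have h5 : 0 ≤ L ^ K₁ * L ^ K₂ * ε := by positivity
            rw [pow_add] at h4
            linarith
          rw [Set.indicator_of_mem (show z ∈ {z : fund D.l n → E3 | ∀ i, ‖z i‖ ≤ D.ζ} from hz)]
          change _ ≤ f (Uc (r z)) * Ψ (r z) * _
          rw [rid z hz, mul_assoc (f (Uc z)), hΨ1, ← mul_assoc]
          exact mul_le_mul_left (mul_le_mul_left (if_pos hev).le _) _
        · exact le_trans (le_of_eq (mul_eq_zero_of_left
            (mul_eq_zero_of_left (if_neg hev) _) _)) zero_le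
      · rw [actN_eq, card_fund, hc₀]
        push_cast
        linarith
    · by_cases hev : curvG ε (ext D.l n 1 u) ∧ noiseG D.l ε (ext D.l n 1 u) W
      · have h2 := ((geo1 _ W (ext_one_tree _) hev.1 hev.2).2 i).1
        rw [hUs] at h2
        exact h2
      · exact absurd (mul_eq_zero_of_left (if_neg hev) _) hu

end Pool.Agent.Lib.MP_7f377f_mp.RG.D3.Hq
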