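import Pool.Agent.Lib.MP_7f377f_mp.HDec

/-! The inequality between four configurations at the last level gives a mixing bound. -/

noncomputable section

namespace Pool.Agent.Lib.MP_7f377f_mp.RG.D3.Hq

open Finset MeasureTheory
open scoped ENNReal

open D3.SX

/-- the fields which are close to `V` on the torus -/
def nb (n : ℕ) (η : ℝ) (V : Conf) : Set Conf :=
  Set.pi (lcube n) fun e => {g | ‖(g * (V e)⁻¹).q - 1‖ ≤ η}

theorem meas_ball (η : ℝ) (v : S3) : MeasurableSet {g : S3 | ‖(g * v).q - 1‖ ≤ η} :=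
  measurableSet_le (measurable_q.comp (measurable_mul_const v)) measurable_const

theorem meas_nb (n : ℕ) (η : ℝ) (V : Conf) : MeasurableSet (nb n η V) :=
  MeasurableSet.pi (Set.to_countable _) fun _ _ => meas_ball _ _

theorem nb_mass {cB η : ℝ} (hB : ENNReal.ofReal (cB * η ^ 3) ≤ haar {g : S3 | ‖g.q - 1‖ ≤ η})
    (n : ℕ) (V : Conf) : ENNReal.ofReal (cB * η ^ 3) ^ (3 * n ^ 3) ≤ PP (nb n η V) := by
  rw [nb, PP, Measure.infinitePi_pi _ fun _ _ => meas_ball _ _]
  refine le_trans (le_of_eq ?_) (prod_le_prod' (f := fun _ => ENNReal.ofReal (cB * η ^ 3))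
    fun e _ => hB.trans (measure_preimage_mul_right haar (V e)⁻¹ {g : S3 | ‖g.q - 1‖ ≤ η}).ge)
  rw [prod_const, card_lcube, mul_comm 3]

theorem per_md {α : Type} {n : ℕ} {V : Lk → α} (hV : Per n V) (e : Lk) :
    V (md n e.1, e.2) = V e := by
  have := congrFun (per_smul hV fun i => e.1 i / (n : ℤ)) (md n e.1, e.2)
  rw [sh, ← md_eq] at this
  exact this.symm

theorem PS_disj {n c w : ℕ} (h1 : 2 * w < c) (h2 : c + 2 * w < n) {y : St} (a : y ∈ PS n 0 w) :
    y ∉ PS n c w := by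
  rintro ⟨k', hk'⟩
  obtain ⟨k, hk⟩ := a
  have h3 : 2 * (w : ℤ) < c := by exact_mod_cast h1
  have h4 : (c : ℤ) + 2 * w < n := by exact_mod_cast h2
  have h5 : (0 : ℤ) ≤ n := Int.natCast_nonneg n
  rw [abs_le] at hk hk'
  rcases le_or_gt k k' with h7 | h7
  · nlinarith [hk.1, hk.2, hk'.1, hk'.2, mul_le_mul_of_nonneg_left h7 h5]
  · nlinarith [hk.1, hk.2, hk'.1, hk'.2, mul_le_mul_of_nonneg_left (Int.add_one_le_of_lt h7) h5]

theorem PS_val {α : Type} {n w : ℕ} {c : ℤ} {W V : Lk → α} (hW : Per n W) (hV : Per n V)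
    (h : Slab c w W V) {e : Lk} (he : e.1 ∈ PS n c w) : W e = V e := by
  have := PS_agr (a := 0) hW hV h le_rfl e.1 he (0, e.2) (mem_lbox.mpr (Li.zero_mem_box 0))
  simpa only [sh, zero_add] using this

open Classical in
/-- the field equal to `U1` and `U2` on the two slabs and to `u` elsewhere -/
def mg (n c w : ℕ) (U1 U2 u : Conf) : Conf := fun e =>
  if e.1 ∈ PS n 0 w then U1 e else if e.1 ∈ PS n c w then U2 e else u e

theorem lint_mg (n c w : ℕ) {f : Conf → ℝ≥0∞} (hf : Measurable f) :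
    (Measurable fun p : Conf × Conf => ∫⁻ u, f (mg n c w p.1 p.2 u) ∂PP) ∧
      ∫⁻ U1, ∫⁻ U2, ∫⁻ u, f (mg n c w U1 U2 u) ∂PP ∂PP ∂PP = ∫⁻ U, f U ∂PP := by
  classical
  have m1 := M3.mp_merge fun e => e.1 ∉ PS n 0 w
  have m2 := M3.mp_merge fun e => e.1 ∉ PS n c w
  have e : ∀ U1 U2 u, mg n c w U1 U2 u = fun e => if e.1 ∉ PS n 0 w then
      (if e.1 ∉ PS n c w then u e else U2 e) else U1 e := fun U1 U2 u => funext fun e => by
    simp only [mg, ite_not]
  simp only [e]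
  refine ⟨Measurable.lintegral_prod_right' (f := fun q : (Conf × Conf) × Conf =>
    f fun e => if e.1 ∉ PS n 0 w then (if e.1 ∉ PS n c w then q.2 e else q.1.2 e) else q.1.1 e)
    (hf.comp (m1.measurable.comp ((measurable_fst.comp measurable_fst).prodMk
      (m2.measurable.comp ((measurable_snd.comp measurable_fst).prodMk measurable_snd))))), ?_⟩
  rw [← m1.lintegral_comp hf]
  refine .trans (lintegral_congr fun U1 => ?_)
    (lintegral_prod _ (hf.comp m1.measurable).aemeasurable).symm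
  have hg : Measurable fun V : Conf => f fun e => if e.1 ∉ PS n 0 w then V e else U1 e :=
    hf.comp (m1.measurable.comp (measurable_prodMk_left (x := U1)))
  refine .trans ?_ (m2.lintegral_comp hg)
  exact (lintegral_prod _ (hg.comp m2.measurable).aemeasurable).symm

open Classical in
/-- the mixing bound at the last level -/
theorem top4 (hJ : Join) : ∃ C cB : ℝ, 1 ≤ C ∧ 0 < cB ∧ ∀ (n c w : ℕ) (ε δ t M : ℝ)
    (A : Conf → ℝ) (f f0 g1 g2 : Conf → ℝ≥0∞), C ≤ ε * n → C * ε ≤ 1 → 2 * w + C / ε ≤ c →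
    c + 2 * w + C / ε ≤ n → (C + 1) * ε ≤ δ → (∀ U, Fl n δ U → |A U| ≤ M) → Measurable f →
    Measurable f0 → Measurable g1 → Measurable g2 → Four n c w δ t A f f0 g1 g2 →
    ENNReal.ofReal (Real.exp (-(4 * M + t)) * (cB * (ε / 4) ^ 3) ^ (6 * n ^ 3)) *
      ((∫⁻ U, (if curvG ε (per n U) then g1 (per n U) else 0) ∂PP) *
        ∫⁻ U, (if curvG ε (per n U) then g2 (per n U) else 0) ∂PP) ≤
      (∫⁻ U, f (per n U) ∂PP) * ∫⁻ U, f0 (per n U) ∂PP := by
  obtain ⟨C, C1, hJ⟩ := hJ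
  obtain ⟨cB, c0, hB⟩ := haar_ball
  refine ⟨C, cB, C1, c0, fun n c w ε δ t M A f f0 g1 g2 h1 h2 h3 h4 h5 hM mf mf0 mg1 mg2 h => ?_⟩
  have ε0 : 0 < ε := lt_of_not_ge fun h0 => by
    linarith [mul_nonpos_of_nonpos_of_nonneg h0 (Nat.cast_nonneg (α := ℝ) n)]
  have hn : 0 < n := Nat.pos_of_ne_zero fun h => by
    rw [h, Nat.cast_zero, mul_zero] at h1
    linarith
  have q0 : 0 < C / ε := by positivity
  have d1 : 2 * w < c := by
    have : (2 * w : ℝ) < c := by linarith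
    exact_mod_cast this
  have d2 : c + 2 * w < n := by
    have : (c + 2 * w : ℝ) < n := by linarith
    exact_mod_cast this
  have εδ : ε ≤ δ := by nlinarith
  have mp := (M3.cont_per n).measurable
  set p := ENNReal.ofReal (cB * (ε / 4) ^ 3) ^ (3 * n ^ 3) with hp
  have mass := nb_mass (hB (ε / 4) (by positivity) (by nlinarith)) n
  set x := ENNReal.ofReal (Real.exp (-(4 * M + t))) with hx
  have mG : ∀ {g : Conf → ℝ≥0∞}, Measurable g →
      Measurable fun U => if curvG ε (per n U) then g (per n U) else 0 := fun hg =>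
    Measurable.ite (mp (M3.meas_curv ε)) (hg.comp mp) measurable_const
  have low : ∀ {a b : ℝ≥0∞} {F : Conf → ℝ≥0∞} (V : Conf), Measurable F →
      (∀ u ∈ nb n (ε / 4) V, a ≤ b * F u) → a * p ≤ b * ∫⁻ u, F u ∂PP := by
    intro a b F V hF hV
    rw [← lintegral_const_mul _ hF]
    refine le_trans ?_ ((setLIntegral_mono' (meas_nb n _ V) hV).trans
      (setLIntegral_le_lintegral _ _))
    rw [setLIntegral_const]
    exact mul_le_mul_right (mass V) _
  have near : ∀ {V u : Conf}, Per n V → u ∈ nb n (ε / 4) V → ∀ e : Lk,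
      ‖(u (md n e.1, e.2)).q - (V e).q‖ ≤ ε / 4 := fun hV hu e => by
    rw [S3.norm_sub, ← per_md hV e]
    exact hu _ (mem_coe.2 (mem_product.2 ⟨md_mem hn e.1, mem_univ _⟩))
  obtain ⟨k1, k2⟩ := lint_mg n c w (mf.comp mp)
  have key : ∀ U1 U2 : Conf, x * p * p * (if curvG ε (per n U1) then g1 (per n U1) else 0) *
      (if curvG ε (per n U2) then g2 (per n U2) else 0) ≤
      (∫⁻ U, f0 (per n U) ∂PP) * ∫⁻ u, f (per n (mg n c w U1 U2 u)) ∂PP := by
    intro U1 U2
    split_ifs with c1 c2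
    rotate_left
    · simp
    · simp
    · simp
    have p1 := JC.per_per n U1
    have p2 := JC.per_per n U2
    obtain ⟨V, ⟨v1, v2⟩, v3, v4⟩ := hJ n c w ε _ _ h1 h2 h3 h4 ⟨p1, c1⟩ ⟨p2, c2⟩
    have m0 : Measurable (mg n c w U1 U2) := measurable_pi_lambda _ fun e => by
      simp only [mg]
      split_ifs <;> fun_prop
    have mm : Measurable fun u => f (per n (mg n c w U1 U2 u)) := mf.comp (mp.comp m0)
    refine le_trans (le_of_eq (by ring)) (low (a := x * (g1 (per n U1) * g2 (per n U2)) * p) V mm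
      fun u hu => ?_)
    rw [mul_comm (lintegral _ _)]
    refine low 1 (mf0.comp mp) fun u0 hu0 => ?_
    have a0 : Fl n δ (per n u0) := ⟨JC.per_per n u0, (JS.curv_near (V := 1) (ε := 0)
      (fun _ _ _ => by simp [hol, S3.q_one]) (near (fun _ => rfl) hu0)).mono (by linarith)⟩
    have s1 : ∀ e : Lk, e.1 ∈ PS n 0 w → per n (mg n c w U1 U2 u) e = per n U1 e :=
      fun e he => if_pos ((PS_md n 0 w e.1).2 he)
    have s2 : ∀ e : Lk, e.1 ∈ PS n c w → per n (mg n c w U1 U2 u) e = per n U2 e :=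
      fun e he => (if_neg fun h => PS_disj d1 d2 ((PS_md n 0 w e.1).1 h) he).trans
        (if_pos ((PS_md n c w e.1).2 he))
    have a : Fl n δ (per n (mg n c w U1 U2 u)) := ⟨JC.per_per n _,
      (JS.curv_near (η := ε / 4) v2 fun e => ?_).mono (by linarith)⟩
    · have a1 : Fl n δ (per n U1) := ⟨p1, c1.mono εδ⟩
      have a2 : Fl n δ (per n U2) := ⟨p2, c2.mono εδ⟩
      refine le_trans (mul_le_mul_left (ENNReal.ofReal_le_ofReal (Real.exp_le_exp.2 ?_)) _)
        (h _ _ _ _ a a0 a1 a2 (fun e he => s1 e ⟨0, by simpa using he⟩)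
          fun e he => s2 e ⟨0, by simpa using he⟩)
      linarith [(abs_le.1 (hM _ a)).2, (abs_le.1 (hM _ a0)).2, (abs_le.1 (hM _ a1)).1,
        (abs_le.1 (hM _ a2)).1]
    · by_cases e1 : e.1 ∈ PS n 0 w
      · rw [s1 e e1, PS_val v1 p1 v3 e1, sub_self, norm_zero]
        positivity
      by_cases e2 : e.1 ∈ PS n c w
      · rw [s2 e e2, PS_val v1 p2 v4 e2, sub_self, norm_zero]
        positivity
      · have : per n (mg n c w U1 U2 u) e = u (md n e.1, e.2) :=
          (if_neg fun h => e1 ((PS_md n 0 w e.1).1 h)).trans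
            (if_neg fun h => e2 ((PS_md n c w e.1).1 h))
        rw [this]
        exact near v1 hu e
  have e : ENNReal.ofReal (Real.exp (-(4 * M + t)) * (cB * (ε / 4) ^ 3) ^ (6 * n ^ 3)) =
      x * p * p := by
    rw [ENNReal.ofReal_mul (Real.exp_pos _).le, ENNReal.ofReal_pow (by positivity), mul_assoc x,
      hp, ← pow_add]
    congr 2
    ring
  rw [e, mul_comm (lintegral PP fun U => f (per n U)), mul_comm (lintegral _ _) (lintegral _ _),
    ← mul_assoc]
  refine le_trans (H3.one_int PP (mG mg1) k1.lintegral_prod_right' (.of_forall fun U1 => ?_))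
    (mul_le_mul_right k2.le _)
  rw [mul_right_comm]
  exact H3.one_int PP (mG mg2) (k1.comp (measurable_prodMk_left (x := U1))) (.of_forall (key U1))

/-- the effective action is bounded on fields of small curvature -/
theorem act_bd {β ρ κ δ c : ℝ} {m : BF} {r R : ℕ} {φ : Fld → ℂ} (hβ : 0 ≤ β) (hb : Bd r r c m)
    (hφ : Tm R ρ κ φ) (n : ℕ) {U : Conf} (h : curvG δ U) (h1 : 1000 * (r + 1) * δ ≤ 1)
    (h3 : 1000 * (R + 1) * δ ≤ 1) (h4 : δ + 10 ^ 6 * ((R + 1) * δ) ^ 2 ≤ ρ) :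
    |act β m φ n U| ≤ (β * (12 * c * (10 * (r + 1) * δ) ^ 2) + κ) * n ^ 3 := by
  have a1 := JC.act_sub (β := β) m hφ n h h3 h4
  have a2 : |∑ x ∈ cube n, JC.qd m U x| ≤ 12 * c * (10 * (r + 1) * δ) ^ 2 * n ^ 3 := by
    refine (abs_sum_le_sum_abs _ _).trans ((sum_le_card_nsmul _ _
      (12 * c * (10 * (r + 1) * δ) ^ 2) fun x _ => ?_).trans_eq
      (by rw [card_cube, nsmul_eq_mul, mul_comm, Nat.cast_pow]))
    have a3 := (real_fix (R := r) (h.sh x) h1).2.1
    rw [JC.qd, Bx_eq, sh_cC]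
    exact (Complex.abs_re_le_norm _).trans ((cx_bd hb a3 a3).trans_eq (by ring))
  have a4 := mul_le_mul_of_nonneg_left a2 hβ
  rw [← abs_of_nonneg hβ, ← abs_mul, abs_of_nonneg hβ] at a4
  rw [abs_le] at a1 a4 ⊢
  constructor <;> linarith [a1.1, a1.2, a4.1, a4.2]

end Pool.Agent.Lib.MP_7f377f_mp.RG.D3.Hq
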