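import Pool.Agent.Lib.MP_7f377f_mp.HLim

/-! The joint law of two opposite slices. -/

noncomputable section

namespace Pool.Agent.Lib.MP_7f377f_mp.Y6

open MeasureTheory Measure Function Filter Topology Pool.Agent.Lib.MP_2d4879_an Hm RGP Ch
open scoped InnerProductSpace Quaternion ENNReal

set_option linter.unusedSectionVars false

variable {n : ℕ} [NeZero n]

/-- representative of a spatial site at time `t` -/
def st (t : ℤ) (s : Sp n) : Fin 3 → ℤ := Fin.cons t fun j => (s j).val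

/-- the slice at time `t` -/
def slc (n : ℕ) (t : ℤ) (U : Link → SU2) : Ed n → SU2 := fun e => U (st t e.1, e.2.succ)

theorem sp_st (t : ℤ) (s : Sp n) : sp n (st t s) = s := funext fun j => by simp [sp, st]

theorem slc_lift (t : ℤ) (w : Ix (Ed n) (Sp n) → SU2) : slc n t (lift w) = sl t w :=
  funext fun e => by simp only [slc, lift, ix, sp_st, Fin.cases_succ]; rfl

theorem cont_slc (t : ℤ) : Continuous (slc n t) := continuous_pi fun _ => continuous_apply _

variable [MeasurableSpace SU2] [BorelSpace SU2]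

theorem slc_gauge (t : ℤ) {u : (Fin 3 → ℤ) → SU2} (hu : ∀ x v, u (x + (n : ℤ) • v) = u x)
    (U : Link → SU2) : slc n t (fun e => u e.1 * U e * (u (e.1 + Pi.single e.2 1))⁻¹) =
      ga (fun s => u (st t s)) (slc n t U) := by
  funext e
  have : ∀ i, (n : ℤ) ∣ (st t e.1 + Pi.single e.2.succ 1 : Fin 3 → ℤ) i -
      st t (e.1 + Pi.single e.2 1) i := fun i => by
    refine Fin.cases (by simp [st]) (fun j => ?_) i
    rw [← ZMod.intCast_eq_intCast_iff_dvd_sub]
    exact congrFun (show sp n _ = sp n _ by rw [sp_add, sp_st, sp_st, sp_succ]) j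
  choose v hv using this
  simp only [slc, ga]
  rw [← hu (st t (e.1 + _)) v]
  congr 3
  exact funext fun i => eq_add_of_sub_eq' (hv i)

variable (h : Measure SU2) [h.IsHaarMeasure]
  [IsProbabilityMeasure h] (β : ℝ)

instance : TopologicalSpace.SeparableSpace (Lp ℝ 2 (PP h (Ed n))) :=
  have : Fact ((2 : ℝ≥0∞) ≠ ∞) := ⟨by simp⟩
  inferInstance

/-- the kernel for `N + 1` steps -/
abbrev kk (N : ℕ) : (Ed n → SU2) → (Ed n → SU2) → ℝ := pw (PP h (Ed n)) (KK h (WW β)) N

theorem kk_symm (N : ℕ) (x y : Ed n → SU2) : kk h β N x y = kk h β N y x :=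
  pw_symm (wt_WW h β).gk (wt_WW h β).symm N x y

theorem kk_ga (u : Sp n → SU2) : ∀ (N : ℕ) (x y : Ed n → SU2), kk h β N x (ga u y) = kk h β N x y
  | 0, x, y => KK_ga h β u x y
  | N + 1, x, y => by simp only [pw, cv, kk_ga u N]

theorem two_slice (N : ℕ) {f g : (Ed n → SU2) → ℝ} (bf : BM f) (bg : BM g) :
    ∫ U, f (slc n 0 U) * g (slc n (N + 1 : ℕ) U) ∂wilson h β ![N + 1 + (N + 1), n, n] =
      (∫ x, ∫ y, f x * g y * kk h β N x y ^ 2 ∂PP h _ ∂PP h _) /
        ∫ x, ∫ y, kk h β N x y ^ 2 ∂PP h (Ed n) ∂PP h (Ed n) := by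
  have key : ∀ {f g : (Ed n → SU2) → ℝ}, BM f → BM g → tor h (WW (n := n) β) 0 (N + 1 + (N + 1))
      (fun w => f (sl 0 w) * g (sl (0 + (N + 1 : ℕ)) w)) =
      ∫ x, ∫ y, f x * g y * kk h β N x y ^ 2 ∂PP h _ ∂PP h _ := fun {f g} bf bg => by
    rw [tor, (wt_WW h β).int_tor ((bf.comp (meas_sl _)).mul (bg.comp (meas_sl _))) fun w w' hw => by
      rw [show sl 0 w = sl 0 w' from funext fun _ => hw _ ⟨by simp [lev], by simp [lev]; omega⟩,
        show sl (0 + (N + 1 : ℕ)) w = sl (0 + (N + 1 : ℕ)) w' from funext fun _ =>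
          hw _ ⟨by simp [lev]; omega, by simp [lev]⟩]]
    simp only [cv, ker_ends h (show (0 : ℤ) ≠ 0 + (N + 1 : ℕ) by omega), (wt_WW h β).ker_wt]
    exact congrArg _ (funext fun x => congrArg _ (funext fun y => by
      rw [sq, mul_assoc, pw_symm (wt_WW h β).gk (wt_WW h β).symm N y x]))
  have := key (BM.const 1) (BM.const 1)
  simp only [one_mul] at this
  rw [int_wilson h β 0 ((bf.comp (cont_slc _).measurable).mul
    (bg.comp (cont_slc _).measurable)).meas, ← key bf bg, ← this]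
  simp only [slc_lift, zero_add]

/-- average over the gauge group -/
def av (f : (Ed n → SU2) → ℝ) (x : Ed n → SU2) : ℝ := ∫ g, f (ga g x) ∂PP h (Sp n)

theorem bm_av {f : (Ed n → SU2) → ℝ} (bf : BM f) : BM (av h f) :=
  BM.param (F := fun p : (Ed n → SU2) × (Sp n → SU2) => f (ga p.2 p.1))
    (bf.comp (by fun_prop : Continuous fun p : (Ed n → SU2) × (Sp n → SU2) =>
      ga p.2 p.1).measurable) _

theorem av_ga {f : (Ed n → SU2) → ℝ} (bf : BM f) (u : Sp n → SU2) (x : Ed n → SU2) :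
    av h f (ga u x) = av h f x := by
  rw [av, av, ← int_mp (f := fun g => f (ga g x)) (mp_lr h 1 u)
    (bf.meas.comp (by fun_prop : Continuous fun g : Sp n → SU2 => ga g x).measurable)]
  simp only [ga_ga, Pi.one_apply, one_mul]
  rfl

theorem int_av {f Φ : (Ed n → SU2) → ℝ} (bf : BM f) (bΦ : BM Φ) (hΦ : ∀ u x, Φ (ga u x) = Φ x) :
    ∫ x, av h f x * Φ x ∂PP h _ = ∫ x, f x * Φ x ∂PP h _ := by
  simp only [av, ← integral_mul_const]
  rw [integral_integral_swap (((bf.comp (by fun_prop : Continuous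
    fun p : (Ed n → SU2) × (Sp n → SU2) => ga p.2 p.1).measurable).mul
      (bΦ.comp measurable_fst)).integrable _)]
  have : ∀ g, ∫ x, f (ga g x) * Φ x ∂PP h _ = ∫ x, f x * Φ x ∂PP h _ := fun g => by
    rw [← int_mp (mp_ga h g) (bf.mul bΦ).meas]
    simp only [hΦ]
  simp [this]

theorem bm_kk (N : ℕ) : BM fun p : (Ed n → SU2) × (Ed n → SU2) => kk h β N p.1 p.2 := by
  obtain ⟨C, -, hC⟩ := ((wt_WW (n := n) h β).gk.pw (μ := PP h _) N).bdd
  exact ⟨((wt_WW h β).gk.pw N).meas, C, fun _ => hC _ _⟩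

theorem ind_mul {X : Type} (A : Set X) (f : X → ℝ) (x : X) :
    A.indicator (fun _ => 1) x * f x = A.indicator f x := by
  by_cases h : x ∈ A <;> simp [h]

theorem two_av (N : ℕ) {A B : Set (Ed n → SU2)} (hA : MeasurableSet A) (hB : MeasurableSet B) :
    ∫ U, av h (A.indicator fun _ => 1) (slc n 0 U) * av h (B.indicator fun _ => 1)
      (slc n (N + 1 : ℕ) U) ∂wilson h β ![N + 1 + (N + 1), n, n] =
      (∫ x in A, ∫ y in B, kk h β N x y ^ 2 ∂PP h _ ∂PP h _) /
        ∫ x, ∫ y, kk h β N x y ^ 2 ∂PP h (Ed n) ∂PP h (Ed n) := by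
  have b2 := (bm_kk (n := n) h β N).sq
  rw [two_slice h β N (bm_av h (BM.ind hA)) (bm_av h (BM.ind hB))]
  simp only [mul_assoc, integral_const_mul]
  have e : ∀ x, ∫ y, av h (B.indicator fun _ => 1) y * kk h β N x y ^ 2 ∂PP h _ =
      ∫ y in B, kk h β N x y ^ 2 ∂PP h _ := fun x => by
    rw [int_av h (BM.ind hB) (b2.comp measurable_prodMk_left) fun u y => by rw [kk_ga],
      ← integral_indicator hB]
    exact congrArg _ (funext (ind_mul B _))
  rw [int_av h (BM.ind hA) (((bm_av h (BM.ind hB)).comp measurable_snd).mul b2 |>.param _)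
    fun u x => by simp only [kk_symm h β N (ga u x), kk_ga, kk_symm h β N x], ← integral_indicator hA]
  simp only [e]
  exact congrArg (· / _) (congrArg _ (funext (ind_mul A _)))

theorem kmix {N : ℕ} {c d : ℝ} {G : (Link → SU2) → ℝ≥0∞} (mG : Measurable G) (G1 : ∀ U, G U ≤ 1)
    (hd : ENNReal.ofReal (1 - d) ≤ ∫⁻ U, G U ∂wilson h β ![N + 1 + (N + 1), n, n])
    (H : ∀ a b : (Ed n → SU2) → ℝ≥0∞, Measurable a → Measurable b → (∀ u x, a (ga u x) = a x) →
      (∀ u x, b (ga u x) = b x) → ENNReal.ofReal c *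
        ((∫⁻ U, a (slc n 0 U) * G U ∂wilson h β ![N + 1 + (N + 1), n, n]) *
          ∫⁻ U, b (slc n (N + 1 : ℕ) U) * G U ∂wilson h β ![N + 1 + (N + 1), n, n]) ≤
      ∫⁻ U, a (slc n 0 U) * b (slc n (N + 1 : ℕ) U) ∂wilson h β ![N + 1 + (N + 1), n, n]) :
    ∃ ga gb : Measure (Ed n → SU2),
      (∀ A, MeasurableSet A → ga A ≤ ENNReal.ofReal ((∫ x in A, ∫ y, kk h β N x y ^ 2 ∂PP h _ ∂PP h _) /
        ∫ x, ∫ y, kk h β N x y ^ 2 ∂PP h (Ed n) ∂PP h (Ed n))) ∧
      (∀ A, MeasurableSet A → gb A ≤ ENNReal.ofReal ((∫ x in A, ∫ y, kk h β N x y ^ 2 ∂PP h _ ∂PP h _) /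
        ∫ x, ∫ y, kk h β N x y ^ 2 ∂PP h (Ed n) ∂PP h (Ed n))) ∧
      ENNReal.ofReal (1 - d) ≤ ga Set.univ ∧ ENNReal.ofReal (1 - d) ≤ gb Set.univ ∧
      ∀ A B, MeasurableSet A → MeasurableSet B → ENNReal.ofReal c * (ga A * gb B) ≤
        ENNReal.ofReal ((∫ x in A, ∫ y in B, kk h β N x y ^ 2 ∂PP h _ ∂PP h _) /
          ∫ x, ∫ y, kk h β N x y ^ 2 ∂PP h (Ed n) ∂PP h (Ed n)) := by
  set ω := wilson h β ![N + 1 + (N + 1), n, n]
  let i : Set (Ed n → SU2) → (Ed n → SU2) → ℝ := fun A => av h (A.indicator fun _ => 1)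
  have i0 : ∀ A x, 0 ≤ i A x := fun A x => integral_nonneg fun _ =>
    Set.indicator_nonneg (fun _ _ => zero_le_one) _
  have i1 : ∀ x, i Set.univ x = 1 := fun x => by simp [i, av]
  have ib : ∀ A, MeasurableSet A → BM (i A) := fun A hA => bm_av h (BM.ind hA)
  have ms := fun t => (cont_slc (n := n) t).measurable
  let m : ℤ → Measure (Ed n → SU2) := fun t =>
    ((ω.withDensity G).prod (PP h (Sp n))).map fun p => ga p.2 (slc n t p.1)
  have e : ∀ t A, MeasurableSet A → m t A = ∫⁻ U, ENNReal.ofReal (i A (slc n t U)) * G U ∂ω := by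
    intro t A hA
    have c : Measurable fun p : (Link → SU2) × (Sp n → SU2) => ga p.2 (slc n t p.1) :=
      Measurable.comp (g := fun p : (Sp n → SU2) × (Ed n → SU2) => ga p.1 p.2)
        (f := fun p : (Link → SU2) × (Sp n → SU2) => (p.2, slc n t p.1)) cont_ga.measurable
        (measurable_snd.prodMk ((ms t).comp measurable_fst))
    refine (map_apply c hA).trans ((Measure.prod_apply (c hA)).trans
      ((lintegral_withDensity_eq_lintegral_mul _ mG (measurable_measure_prodMk_left (c hA))).trans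
        (lintegral_congr fun U => ?_)))
    have c' : MeasurableSet ((fun g => ga g (slc n t U)) ⁻¹' A) := measurable_prodMk_left (c hA)
    refine (mul_comm _ _).trans (congrArg (· * G U) ?_)
    refine (ENNReal.ofReal_toReal (measure_ne_top (PP h (Sp n)) _)).symm.trans (congrArg _ ?_)
    exact (integral_indicator_one c').symm
  have k : ∀ A B, MeasurableSet A → MeasurableSet B → ∫⁻ U, ENNReal.ofReal (i A (slc n 0 U)) *
      ENNReal.ofReal (i B (slc n (N + 1 : ℕ) U)) ∂ω =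
      ENNReal.ofReal ((∫ x in A, ∫ y in B, kk h β N x y ^ 2 ∂PP h _ ∂PP h _) /
        ∫ x, ∫ y, kk h β N x y ^ 2 ∂PP h (Ed n) ∂PP h (Ed n)) := fun A B hA hB => by
    simp only [← ENNReal.ofReal_mul (i0 _ _)]
    rw [← ofReal_integral_eq_lintegral_ofReal ((((ib A hA).comp (ms _)).mul
      ((ib B hB).comp (ms _))).integrable _) (.of_forall fun _ => mul_nonneg (i0 _ _) (i0 _ _))]
    exact congrArg _ (two_av h β N hA hB)
  refine ⟨m 0, m (N + 1 : ℕ), fun A hA => ?_, fun A hA => ?_, ?_, ?_, fun A B hA hB => ?_⟩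
  · have := k A _ hA .univ
    simp only [i1, ENNReal.ofReal_one, mul_one, restrict_univ] at this
    rw [e _ _ hA, ← this]
    exact lintegral_mono fun U => mul_le_of_le_one_right' (G1 U)
  · have := k _ A .univ hA
    simp only [i1, ENNReal.ofReal_one, one_mul, restrict_univ] at this
    rw [integral_integral_swap (f := fun x y => kk h β N x y ^ 2)
      ((bm_kk (n := n) h β N).sq.integrable _)] at this
    rw [e _ _ hA]
    refine (lintegral_mono fun U => mul_le_of_le_one_right' (G1 U)).trans_eq (this.trans ?_)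
    simp only [kk_symm h β N]
  · simpa only [e _ _ .univ, i1, ENNReal.ofReal_one, one_mul] using hd
  · simpa only [e _ _ .univ, i1, ENNReal.ofReal_one, one_mul] using hd
  · rw [e _ _ hA, e _ _ hB, ← k A B hA hB]
    exact H _ _ (ib A hA).meas.ennreal_ofReal (ib B hB).meas.ennreal_ofReal
      (fun u x => congrArg _ (av_ga h (BM.ind hA) u x)) fun u x => congrArg _ (av_ga h (BM.ind hB) u x)

end Pool.Agent.Lib.MP_7f377f_mp.Y6
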