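import Pool.Agent.Lib.MP_7f377f_mp.HGap

/-! The vacuum of a positive symmetric kernel, convergence of traces and clustering. -/

namespace Pool.Agent.Lib.MP_7f377f_mp.Hm

open Filter Topology MeasureTheory Pool.Agent.Lib.MP_2d4879_an
open scoped InnerProductSpace

variable {α : Type} [MeasurableSpace α] {μ : Measure α} [IsFiniteMeasure μ] {k : α → α → ℝ}

theorem pw_pw (hk : GK k) (N : ℕ) : ∀ m, pw μ (pw μ k N) m = pw μ k ((N + 1) * m + N)
  | 0 => by simp [pw]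
  | m + 1 => by
    rw [pw, pw_pw hk N m, ← pw_add hk]
    congr 1; ring

theorem op_pw_eq (hk : GK k) (v : Lp ℝ 2 μ) :
    ∀ m, (hk.pw (μ := μ) m).op μ v = (hk.op μ ^ (m + 1)) v
  | 0 => by rw [zero_add, pow_one]; rfl
  | m + 1 => by
    rw [pow_succ', mul_apply_eq_comp, ← op_pw_eq hk v m, ← op_cv hk (hk.pw m)]
    rfl

theorem op_abs_le {f g : α → α → ℝ} (hf : GK f) (hg : GK g) (h : ∀ x y, |f x y| ≤ g x y)
    (v : Lp ℝ 2 μ) : ‖hf.op μ v‖ ≤ ‖hg.op μ |v|‖ := by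
  refine Lp.norm_le_norm_of_ae_le ?_
  filter_upwards [hf.op_ae v, hg.op_ae |v|] with x h1 h2
  rw [h1, h2]
  refine le_trans (norm_integral_le_integral_norm _) (le_trans ?_ (le_abs_self _))
  have iv : Integrable v μ := (Lp.memLp v).integrable one_le_two
  have iw : Integrable (|v| : Lp ℝ 2 μ) μ := (Lp.memLp _).integrable one_le_two
  obtain ⟨C, -, hC⟩ := hf.bdd
  obtain ⟨D, -, hD⟩ := hg.bdd
  refine integral_mono_ae (iv.bdd_mul (hf.meas_row x).aestronglyMeasurable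
    (Eventually.of_forall (hC x))).norm (iw.bdd_mul (hg.meas_row x).aestronglyMeasurable
    (Eventually.of_forall (hD x))) ?_
  filter_upwards [Lp.coeFn_abs v] with y hy
  rw [hy, norm_mul]
  exact mul_le_mul_of_nonneg_right (h x y) (abs_nonneg _)

/-- vacuum vector `e` with eigenvalue `l` and gap `r` -/
structure Vac (μ : Measure α) [IsFiniteMeasure μ] (hk : GK k) (l r : ℝ) (e : Lp ℝ 2 μ) : Prop where
  pos : 0 < l
  r0 : 0 ≤ r
  r1 : r ≤ 1
  one : ‖e‖ = 1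
  eig : hk.op μ e = l • e
  nrm : ∀ m v, ‖(hk.op μ ^ m) v‖ ≤ l ^ m * ‖v‖
  gap : ∀ m v, ‖(hk.op μ ^ m) v - (l ^ m * ⟪e, v⟫_ℝ) • e‖ ≤ (r * l) ^ m * ‖v‖

theorem exists_vac [TopologicalSpace.SeparableSpace (Lp ℝ 2 μ)] (hk : GK k)
    (hs : ∀ x y, k x y = k y x) (h0 : ∀ x y, 0 ≤ k x y) (N m : ℕ) {C c : ℝ} (hC : 0 < C)
    (hc : 0 < c) (hZ : 0 < ∫ x, pw μ k (2 * N + 1) x x ∂μ)
    (h1 : (∫ x, pw μ k (2 * N + 1) x x ∂μ) ^ (m + 2) ≤
      C ^ (m + 1) * ∫ x, pw μ k ((N + 1) * (2 * m + 3) + N) x x ∂μ)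
    (hD : ∀ A B, MeasurableSet A → MeasurableSet B →
      (∫ x, pw μ k (6 * N + 5) x x ∂μ) / (32 * C) ≤ ∫ x in A, pw μ k (6 * N + 5) x x ∂μ →
      (∫ x, pw μ k (6 * N + 5) x x ∂μ) / (32 * C) ≤ ∫ x in B, pw μ k (6 * N + 5) x x ∂μ →
      c * ∫ x, pw μ k (6 * N + 5) x x ∂μ ≤
        ∫ x in A, ∫ y in B, pw μ k (2 * N + 1) x y * pw μ k (4 * N + 3) y x ∂μ ∂μ) :
    ∃ l r e, Vac μ hk l r e ∧ r ^ (2 * N + 2) = 1 - min (1 / 2) (c / C) ∧
      ∫ x, pw μ k (2 * N + 1) x x ∂μ ≤ C * l ^ (2 * N + 2) := by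
  classical
  obtain ⟨ι, b, ev, hb, htr⟩ := ker_spec (μ := μ) hk hs
  have hsy := hk.symm_op (μ := μ) hs
  have t0 := htr N
  obtain ⟨i0, hi0, hmax⟩ : ∃ i0, ev i0 ≠ 0 ∧ ∀ i, |ev i| ≤ |ev i0| := by
    obtain ⟨j, hj⟩ : ∃ j, ev j ≠ 0 := by
      by_contra h
      push Not at h
      simp only [h, ne_eq, Nat.add_eq_zero_iff, OfNat.ofNat_ne_zero, and_false, not_false_eq_true,
        zero_pow] at t0
      exact hZ.ne' (t0.unique hasSum_zero)
    have hp : 0 < ev j ^ (2 * 0 + 2) := sq_pos_of_ne_zero hj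
    have hf := (htr 0).summable.tendsto_cofinite_zero.eventually_lt_const hp
    rw [eventually_cofinite] at hf
    obtain ⟨i0, h1, h2⟩ := hf.toFinset.exists_max_image (fun i => |ev i|) ⟨j, by simp⟩
    have hj0 : |ev j| ≤ |ev i0| := h2 j (by simp)
    refine ⟨i0, fun h => hj (by simpa [h] using hj0), fun i => ?_⟩
    by_cases hi : ev i ^ 2 < ev j ^ 2
    · exact (sq_lt_sq.1 hi).le.trans hj0
    · exact h2 i (by simpa using hi)
  set l := |ev i0| with hl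
  have hl0 : 0 < l := abs_pos.2 hi0
  have evp : ∀ i n, ev i ^ (2 * n) = |ev i| ^ (2 * n) := fun i n => by
    rw [pow_mul, pow_mul, sq_abs]
  have up : ∀ n, ∫ x, pw μ k (2 * (N + n) + 1) x x ∂μ ≤
      l ^ (2 * n) * ∫ x, pw μ k (2 * N + 1) x x ∂μ := fun n => by
    refine hasSum_le (fun i => ?_) (htr (N + n)) (t0.mul_left _)
    rw [show 2 * (N + n) + 2 = 2 * n + 2 * (N + 1) by ring, pow_add,
      show 2 * N + 2 = 2 * (N + 1) by ring, evp i n, evp i (N + 1)]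
    gcongr
    exact hmax i
  have hCl : ∫ x, pw μ k (2 * N + 1) x x ∂μ ≤ C * l ^ (2 * N + 2) := by
    have a1 := up ((N + 1) * (m + 1))
    rw [show 2 * (N + (N + 1) * (m + 1)) + 1 = (N + 1) * (2 * m + 3) + N by ring] at a1
    have a2 := h1.trans (mul_le_mul_of_nonneg_left a1 (by positivity))
    rw [pow_succ, ← mul_assoc, mul_le_mul_iff_left₀ hZ,
      show 2 * ((N + 1) * (m + 1)) = (2 * N + 2) * (m + 1) by ring, pow_mul, ← mul_pow] at a2
    exact (pow_le_pow_iff_left₀ hZ.le (by positivity) (Nat.succ_ne_zero m)).1 a2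
  set L := l ^ (2 * N + 2) with hL
  have hL0 : 0 < L := by positivity
  have z1 : ∫ x, pw μ k (6 * N + 5) x x ∂μ ≤ C * L ^ 3 := by
    have a1 := up (2 * N + 2)
    rw [show 2 * (N + (2 * N + 2)) + 1 = 6 * N + 5 by ring, mul_comm 2 (2 * N + 2), pow_mul,
      ← hL] at a1
    calc _ ≤ _ := a1
      _ ≤ L ^ 2 * (C * L) := by gcongr
      _ = _ := by ring
  have z2 : L ^ 3 ≤ ∫ x, pw μ k (6 * N + 5) x x ∂μ := by
    have := le_hasSum (htr (3 * N + 2)) i0 fun j _ => by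
      rw [show 2 * (3 * N + 2) + 2 = 2 * (3 * N + 3) by ring, evp]; positivity
    rwa [show 2 * (3 * N + 2) + 2 = 2 * (3 * N + 3) by ring, evp, ← hl,
      show 2 * (3 * N + 3) = (2 * N + 2) * 3 by ring, pow_mul, ← hL,
      show 2 * (3 * N + 2) + 1 = 6 * N + 5 by ring] at this
  have esq : ∀ i, (ev i ^ (N + 1)) ^ 2 = |ev i| ^ (2 * N + 2) := fun i => by
    rw [← pow_mul, mul_comm (N + 1), evp]; congr 1
  have hgap : ∀ i, i ≠ i0 → |ev i| ^ (2 * N + 2) ≤ (1 - min (1 / 2) (c / C)) * L := fun i hi => by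
    rw [← esq]
    refine gap_ev (hk.pw N) (pw_symm hk hs N) (pw_nonneg h0 N) b (ev := fun i => ev i ^ (N + 1))
      (fun i => op_pw hk (hb i) N) hL0 (fun i => ?_) (i0 := i0) (esq i0) ?_ (fun A B hA hB => ?_) hi
    · rw [esq, hL]; gcongr; exact hmax i
    · rwa [pw_pw hk, show (N + 1) * 1 + N = 2 * N + 1 by ring]
    · rw [pw_pw hk, pw_pw hk, pw_pw hk, show (N + 1) * 1 + N = 2 * N + 1 by ring,
        show (N + 1) * 5 + N = 6 * N + 5 by ring, show (N + 1) * 3 + N = 4 * N + 3 by ring]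
      intro a1 a2
      have a3 : (∫ x, pw μ k (6 * N + 5) x x ∂μ) / (32 * C) ≤ L ^ 3 / 32 := by
        rw [div_le_div_iff₀ (by positivity) (by positivity)]; nlinarith
      exact le_trans (by gcongr) (hD A B hA hB (a3.trans a1) (a3.trans a2))
  set q := 1 - min (1 / 2) (c / C) with hq
  have hq0 : 0 < q := by have := min_le_left (1 / 2 : ℝ) (c / C); linarith
  have hq1 : q < 1 := by
    have : 0 < min (1 / 2 : ℝ) (c / C) := lt_min (by norm_num) (by positivity)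
    linarith
  set r := q ^ ((2 * N + 2 : ℕ) : ℝ)⁻¹ with hr
  have hr0 : 0 ≤ r := by positivity
  have hrq : r ^ (2 * N + 2) = q := Real.rpow_inv_natCast_pow hq0.le (by omega)
  have hr1 : r < 1 := by
    by_contra h
    have := one_le_pow₀ (n := 2 * N + 2) (not_lt.1 h)
    linarith
  have hg : ∀ i, i ≠ i0 → |ev i| ≤ r * l := fun i hi => by
    have := hgap i hi
    rw [← hrq, hL, ← mul_pow] at this
    exact (pow_le_pow_iff_left₀ (abs_nonneg _) (by positivity) (by omega)).1 this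
  have hpos : ev i0 = l := by
    rcases abs_choice (ev i0) with h | h
    · exact h.symm
    exfalso
    set u : Lp ℝ 2 μ := |b i0| with hu
    have hu1 : ‖u‖ = 1 := by rw [hu, norm_abs_eq_norm, b.orthonormal.1]
    have a1 : ⟪u, hk.op μ u⟫_ℝ ≤ r * l * ‖u‖ ^ 2 := by
      refine hasSum_le (fun i => ?_) (hasSum_form _ hsy b ev hb u) ((hasSum_normsq b u).mul_left _)
      gcongr
      by_cases hi : i = i0
      · rw [hi]; nlinarith [mul_nonneg hr0 hl0.le]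
      · exact (le_abs_self _).trans (hg i hi)
    have a2 : |⟪b i0, hk.op μ (b i0)⟫_ℝ| ≤ ⟪u, hk.op μ u⟫_ℝ := by
      rw [hk.inner_op, hk.inner_op]
      refine le_trans abs_integral_le_integral_abs (integral_mono_ae ?_ ?_ ?_)
      · have := (MemLp.integrable_mul (Lp.memLp (b i0)) (hk.memLp_act (b i0))).abs
        simpa only [Pi.mul_apply, hk.inner_row] using this
      · have := MemLp.integrable_mul (Lp.memLp u) (hk.memLp_act u)
        simpa only [Pi.mul_def, hk.inner_row] using this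
      filter_upwards [Lp.coeFn_abs (b i0)] with x hx
      rw [abs_mul, hu, hx]
      refine mul_le_mul_of_nonneg_left (le_trans abs_integral_le_integral_abs
        (le_of_eq (integral_congr_ae ?_))) (abs_nonneg _)
      filter_upwards [Lp.coeFn_abs (b i0)] with y hy
      rw [hy, abs_mul, abs_of_nonneg (h0 x y)]
    rw [hb, inner_smul_right, real_inner_self_eq_norm_sq, b.orthonormal.1, one_pow, mul_one] at a2
    rw [hu1] at a1
    nlinarith
  refine ⟨l, r, b i0, ⟨hl0, hr0, hr1.le, b.orthonormal.1 i0, by rw [hb, hpos],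
    norm_pow_le _ hsy b hb hl0.le hmax, fun m v => ?_⟩, hrq, hCl⟩
  have := norm_pow_sub_le _ hsy b hb (by positivity : 0 ≤ r * l) i0 hg m v
  rwa [hpos] at this

namespace Vac
variable {hk : GK k} {l r : ℝ} {e : Lp ℝ 2 μ} {f g : α → α → ℝ}

theorem op_le (V : Vac μ hk l r e) (hf : GK f) {a : ℕ} (h : ∀ x y, |f x y| ≤ pw μ k a x y)
    (v : Lp ℝ 2 μ) : ‖hf.op μ v‖ ≤ l ^ (a + 1) * ‖v‖ := by
  refine (op_abs_le hf (hk.pw a) h v).trans ?_
  rw [op_pw_eq hk, ← norm_abs_eq_norm v]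
  exact V.nrm _ _

theorem pow_e (V : Vac μ hk l r e) : ∀ m, (hk.op μ ^ m) e = l ^ m • e
  | 0 => by simp
  | m + 1 => by rw [pow_succ', mul_apply_eq_comp, V.pow_e m, map_smul, V.eig, smul_smul, pow_succ]

/-- clustering in the vacuum -/
theorem clus (V : Vac μ hk l r e) (hf : GK f) (hg : GK g) {a b : ℕ}
    (h : ∀ x y, |f x y| ≤ pw μ k a x y) (h' : ∀ x y, |g x y| ≤ pw μ k b x y) (t : ℕ) :
    |⟪e, hf.op μ ((hk.op μ ^ t) (hg.op μ e))⟫_ℝ - l ^ t * ⟪e, hf.op μ e⟫_ℝ * ⟪e, hg.op μ e⟫_ℝ| ≤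
      r ^ t * l ^ (a + b + t + 2) := by
  have hl := V.pos
  have hr := V.r0
  have a1 : ⟪e, hf.op μ ((hk.op μ ^ t) (hg.op μ e))⟫_ℝ - l ^ t * ⟪e, hf.op μ e⟫_ℝ * ⟪e, hg.op μ e⟫_ℝ
      = ⟪e, hf.op μ ((hk.op μ ^ t) (hg.op μ e) - (l ^ t * ⟪e, hg.op μ e⟫_ℝ) • e)⟫_ℝ := by
    rw [map_sub, map_smul, inner_sub_right, inner_smul_right]; ring
  rw [a1]
  refine (abs_real_inner_le_norm _ _).trans ?_
  rw [V.one, one_mul]
  refine (V.op_le hf h _).trans ?_
  have a2 := V.op_le hg h' e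
  rw [V.one, mul_one] at a2
  calc _ ≤ l ^ (a + 1) * ((r * l) ^ t * l ^ (b + 1)) :=
        mul_le_mul_of_nonneg_left ((V.gap t _).trans (by gcongr)) (by positivity)
    _ = _ := by ring

/-- convergence of traces to the vacuum expectation -/
theorem tr_close (V : Vac μ hk l r e) (hs : ∀ x y, k x y = k y x) (hf : GK f) {a : ℕ}
    (h : ∀ x y, |f x y| ≤ pw μ k a x y) (N s : ℕ) :
    |∫ x, cv μ f (pw μ k (2 * N + 1 + s)) x x ∂μ - l ^ (2 * N + 2 + s) * ⟪e, hf.op μ e⟫_ℝ| ≤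
      r ^ s * l ^ (a + 1 + s) * ∫ x, pw μ k (2 * N + 1) x x ∂μ := by
  have hl := V.pos
  have hr := V.r0
  have hN := hk.pw (μ := μ) N
  have hsN := pw_symm (μ := μ) hk hs N
  have hsy := hk.symm_op (μ := μ) hs
  have bφ := bf_act hN e
  have bκ := bf_norm (μ := μ) hN hsN
  have a0 : ∀ x y, pw μ k (2 * N + 1 + s) y x = ⟪hN.row μ y, (hk.op μ ^ s) (hN.row μ x)⟫_ℝ := by
    intro x y
    have : ((hk.op μ ^ N : _ →L[ℝ] _) : Lp ℝ 2 μ →ₗ[ℝ] Lp ℝ 2 μ).IsSymmetric := by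
      rw [ContinuousLinearMap.toLinearMap_pow]; exact hsy.pow N
    have e1 := this (hk.row μ y) ((hk.op μ ^ s) ((hk.op μ ^ N) (hk.row μ x)))
    rw [show 2 * N + 1 + s = N + (s + N) + 1 by ring, pw_inner hk hs, pow_add, pow_add,
      mul_apply_eq_comp, mul_apply_eq_comp, row_pw hk hs y N, row_pw hk hs x N]
    exact e1.symm
  have a1 : l ^ (2 * N + 2 + s) * ⟪e, hf.op μ e⟫_ℝ =
      ∫ x, ∫ y, l ^ s * (⟪hN.row μ x, e⟫_ℝ * f x y * ⟪hN.row μ y, e⟫_ℝ) ∂μ ∂μ := by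
    simp only [integral_const_mul]
    rw [← bφ.inner_op bφ hf, cl_act, op_pw_eq hk, V.pow_e, map_smul, inner_smul_left,
      inner_smul_right]
    simp only [conj_trivial]; ring
  have g1 := gk_mul hf (gk_swap (hk.pw (μ := μ) (2 * N + 1 + s)))
  have g2 := gk_mul (BF.const (α := α) (l ^ s)).gk_fst (gk_mul (gk_mul bφ.gk_fst hf) bφ.gk_snd)
  have g3 := gk_mul (BF.const (α := α) ((r * l) ^ s)).gk_fst
    (gk_mul (gk_mul bκ.gk_fst (hk.pw (μ := μ) a)) bκ.gk_snd)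
  have a2 : ∫ x, ∫ y, (r * l) ^ s * (‖hN.row μ x‖ * pw μ k a x y * ‖hN.row μ y‖) ∂μ ∂μ ≤
      r ^ s * l ^ (a + 1 + s) * ∫ x, pw μ k (2 * N + 1) x x ∂μ := by
    simp only [integral_const_mul]
    have b1 : ∫ x, pw μ k (2 * N + 1) x x ∂μ = ‖bκ.cl μ‖ ^ 2 := by
      rw [bκ.norm_cl]
      congr 1; ext x
      rw [← pw_one_diag hN hsN, pw_pw hk]; congr 1; ring
    rw [← bκ.inner_op bκ (hk.pw a), b1, op_pw_eq hk]
    calc _ ≤ (r * l) ^ s * (‖bκ.cl μ‖ * (l ^ (a + 1) * ‖bκ.cl μ‖)) :=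
          mul_le_mul_of_nonneg_left ((real_inner_le_norm _ _).trans
            (mul_le_mul_of_nonneg_left (V.nrm _ _) (norm_nonneg _))) (by positivity)
      _ = _ := by ring
  refine le_trans ?_ a2
  unfold cv
  rw [a1, ← integral_sub (bf_int g1).int (bf_int g2).int]
  refine le_trans abs_integral_le_integral_abs (integral_mono
    ((bf_int g1).int.sub (bf_int g2).int).abs (bf_int g3).int fun x => ?_)
  simp only
  rw [← integral_sub (g1.int_row x) (g2.int_row x)]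
  refine le_trans abs_integral_le_integral_abs (integral_mono
    ((g1.int_row x).sub (g2.int_row x)).abs (g3.int_row x) fun y => ?_)
  have b2 : f x y * pw μ k (2 * N + 1 + s) y x -
      l ^ s * (⟪hN.row μ x, e⟫_ℝ * f x y * ⟪hN.row μ y, e⟫_ℝ) = f x y * ⟪hN.row μ y,
        (hk.op μ ^ s) (hN.row μ x) - (l ^ s * ⟪e, hN.row μ x⟫_ℝ) • e⟫_ℝ := by
    rw [a0, inner_sub_right, inner_smul_right, real_inner_comm e (hN.row μ x)]; ring
  simp only
  rw [b2, abs_mul]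
  calc _ ≤ pw μ k a x y * (‖hN.row μ y‖ * ((r * l) ^ s * ‖hN.row μ x‖)) :=
        mul_le_mul (h x y) ((abs_real_inner_le_norm _ _).trans
          (mul_le_mul_of_nonneg_left (V.gap _ _) (norm_nonneg _))) (abs_nonneg _)
          ((abs_nonneg _).trans (h x y))
    _ = _ := by ring

end Vac

end Pool.Agent.Lib.MP_7f377f_mp.Hm
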