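import Mathlib

/-! One-dimensional lattice heat kernel and its finite differences. -/

namespace Pool.Agent.Lib.MP_7f377f_mp.Heat

open Complex MeasureTheory Real Filter Topology Set

/-- the symbol -/
noncomputable def sym (a b : ℕ) (t : ℝ) (n : ℤ) (z : ℂ) : ℂ :=
  (cexp (I * z) - 1) ^ a * (cexp (-(I * z)) - 1) ^ b *
    cexp (-(t : ℂ) * (2 - cexp (I * z) - cexp (-(I * z)))) * cexp (I * n * z)

/-- differences of the one-dimensional heat kernel -/
noncomputable def hk (a b : ℕ) (t : ℝ) (n : ℤ) : ℂ :=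
  ((2 * π : ℝ) : ℂ)⁻¹ * ∫ θ in (-π)..π, sym a b t n θ

lemma sym_diff (a b : ℕ) (t : ℝ) (n : ℤ) : Differentiable ℂ (sym a b t n) := by
  unfold sym; fun_prop

lemma sym_cont (a b : ℕ) (t : ℝ) (n : ℤ) : Continuous fun θ : ℝ => sym a b t n θ :=
  (sym_diff a b t n).continuous.comp continuous_ofReal

lemma sym_periodic (a b : ℕ) (t : ℝ) (n : ℤ) (z : ℂ) :
    sym a b t n (z + 2 * π) = sym a b t n z := by
  have h1 : cexp (I * (z + 2 * π)) = cexp (I * z) := by
    rw [mul_add, Complex.exp_add, show I * (2 * (π : ℂ)) = 2 * π * I by ring,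
      Complex.exp_two_pi_mul_I, mul_one]
  have h2 : cexp (-(I * (z + 2 * π))) = cexp (-(I * z)) := by
    rw [Complex.exp_neg, Complex.exp_neg, h1]
  have h3 : cexp (I * n * (z + 2 * π)) = cexp (I * n * z) := by
    rw [mul_add, Complex.exp_add, show I * n * (2 * (π : ℂ)) = n * (2 * π * I) by ring,
      Complex.exp_int_mul_two_pi_mul_I, mul_one]
  unfold sym; rw [h1, h2, h3]

lemma shift (a b : ℕ) (t : ℝ) (n : ℤ) (l : ℝ) :
    ∫ θ in (-π)..π, sym a b t n θ = ∫ θ in (-π)..π, sym a b t n (θ + l * I) := by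
  have h := integral_boundary_rect_eq_zero_of_differentiableOn (sym a b t n) (-π : ℝ)
    (π + l * I) ((sym_diff a b t n).differentiableOn)
  have e : ∀ y : ℝ, sym a b t n (π + y * I) = sym a b t n (-π + y * I) := by
    intro y
    rw [← sym_periodic a b t n (-π + y * I)]
    congr 1; ring
  simp only [ofReal_neg, neg_re, ofReal_re, neg_im, ofReal_im, neg_zero, add_re, mul_re, I_re,
    mul_zero, I_im, mul_one, sub_self, add_zero, add_im, mul_im, zero_add, ofReal_zero, zero_mul,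
    e] at h
  linear_combination h

lemma hk_succ_left (a b : ℕ) (t : ℝ) (n : ℤ) :
    hk (a + 1) b t n = hk a b t (n + 1) - hk a b t n := by
  unfold hk
  rw [← mul_sub, ← intervalIntegral.integral_sub ((sym_cont _ _ _ _).intervalIntegrable _ _)
    ((sym_cont _ _ _ _).intervalIntegrable _ _)]
  congr 2; funext θ
  unfold sym
  have : cexp (I * ((n + 1 : ℤ) : ℂ) * θ) = cexp (I * n * θ) * cexp (I * θ) := by
    rw [← Complex.exp_add]; congr 1; push_cast; ring
  rw [this]; ring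

lemma hk_succ_right (a b : ℕ) (t : ℝ) (n : ℤ) :
    hk a (b + 1) t n = hk a b t (n - 1) - hk a b t n := by
  unfold hk
  rw [← mul_sub, ← intervalIntegral.integral_sub ((sym_cont _ _ _ _).intervalIntegrable _ _)
    ((sym_cont _ _ _ _).intervalIntegrable _ _)]
  congr 2; funext θ
  unfold sym
  have : cexp (I * ((n - 1 : ℤ) : ℂ) * θ) = cexp (I * n * θ) * cexp (-(I * θ)) := by
    rw [← Complex.exp_add]; congr 1; push_cast; ring
  rw [this]; ring

lemma hk_zero (n : ℤ) : hk 0 0 0 n = if n = 0 then 1 else 0 := by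
  unfold hk sym
  have hpi : ((2 * π : ℝ) : ℂ) ≠ 0 := by
    exact_mod_cast (by positivity : (2 * π : ℝ) ≠ 0)
  split_ifs with h
  · subst h
    simp only [pow_zero, mul_one, ofReal_zero, neg_zero, zero_mul, Complex.exp_zero, Int.cast_zero,
      mul_zero, intervalIntegral.integral_const, sub_neg_eq_add, real_smul]
    rw [show ((π + π : ℝ) : ℂ) = ((2 * π : ℝ) : ℂ) by congr 1; ring]
    exact inv_mul_cancel₀ hpi
  · simp only [pow_zero, mul_one, ofReal_zero, neg_zero, zero_mul, Complex.exp_zero, one_mul]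
    have hc : (I * n : ℂ) ≠ 0 := mul_ne_zero I_ne_zero (by exact_mod_cast h)
    rw [integral_exp_mul_complex hc]
    have : cexp (I * n * (π : ℝ)) = cexp (I * n * ((-π : ℝ) : ℂ)) := by
      rw [show I * n * ((π : ℝ) : ℂ) = I * n * ((-π : ℝ) : ℂ) + n * (2 * π * I) by push_cast; ring,
        Complex.exp_add, Complex.exp_int_mul_two_pi_mul_I, mul_one]
    rw [this]; simp

lemma norm_exp_sub_one_le' (θ l : ℝ) (hl : |l| ≤ 1) :
    ‖cexp (I * θ + l) - 1‖ ≤ 3 * (|θ| + |l|) := by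
  have h1 : cexp (I * θ + l) - 1 = (cexp (I * θ) - 1) * cexp l + (cexp l - 1) := by
    rw [Complex.exp_add]; ring
  have h2 : ‖cexp (I * θ) - 1‖ ≤ |θ| := by
    have := Real.norm_exp_I_mul_ofReal_sub_one_le (x := θ)
    simpa using this
  have h3 : ‖cexp l‖ ≤ 3 := by
    rw [Complex.norm_exp, ofReal_re]
    calc Real.exp l ≤ Real.exp 1 := Real.exp_le_exp.2 (le_trans (le_abs_self _) hl)
      _ ≤ 3 := by have := Real.exp_one_lt_d9; linarith
  have h4 : ‖cexp l - 1‖ ≤ 2 * |l| := by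
    have := Complex.norm_exp_sub_one_le (x := (l : ℂ)) (by simpa using hl)
    simpa using this
  rw [h1]
  calc _ ≤ ‖(cexp (I * θ) - 1) * cexp l‖ + ‖cexp l - 1‖ := norm_add_le _ _
    _ ≤ |θ| * 3 + 2 * |l| := by
      rw [norm_mul]; gcongr
    _ ≤ _ := by nlinarith [abs_nonneg l]

lemma cosh_sub_one_le (l : ℝ) (hl : |l| ≤ 1) : Real.cosh l - 1 ≤ l ^ 2 := by
  have h := Real.cosh_le_exp_half_sq l
  have h2 : l ^ 2 ≤ 1 := by
    have := sq_abs l; nlinarith [abs_nonneg l]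
  have h3 : Real.exp (l ^ 2 / 2) ≤ 1 + l ^ 2 := by
    have := Real.abs_exp_sub_one_le (x := l ^ 2 / 2) (by rw [abs_of_nonneg (by positivity)]; linarith)
    rw [abs_of_nonneg (by positivity : (0 : ℝ) ≤ l ^ 2 / 2)] at this
    linarith [le_abs_self (Real.exp (l ^ 2 / 2) - 1)]
  linarith

lemma norm_sym_le (a b : ℕ) {t : ℝ} (ht : 0 ≤ t) (n : ℤ) {θ l : ℝ} (hθ : |θ| ≤ π) (hl : |l| ≤ 1) :
    ‖sym a b t n (θ + l * I)‖ ≤ (3 * (|θ| + |l|)) ^ (a + b) *
      Real.exp (-(4 / π ^ 2) * t * θ ^ 2 + 2 * t * l ^ 2) * Real.exp (-(n * l)) := by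
  unfold sym
  have e1 : I * (θ + l * I) = I * θ + (-l : ℝ) := by
    push_cast; linear_combination (l : ℂ) * I_mul_I
  have e2 : -(I * (θ + l * I)) = I * (-θ : ℝ) + l := by
    push_cast; linear_combination -(l : ℂ) * I_mul_I
  have b1 := norm_exp_sub_one_le' θ (-l) (by simpa using hl)
  have b2 := norm_exp_sub_one_le' (-θ) l hl
  rw [abs_neg] at b1 b2
  rw [norm_mul, norm_mul, norm_mul, norm_pow, norm_pow, e2, e1, pow_add]
  have b3 : ‖cexp (-(t : ℂ) * (2 - cexp (I * θ + (-l : ℝ)) - cexp (I * (-θ : ℝ) + l)))‖ ≤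
      Real.exp (-(4 / π ^ 2) * t * θ ^ 2 + 2 * t * l ^ 2) := by
    rw [Complex.norm_exp]
    apply Real.exp_le_exp.2
    have r1 : (cexp (I * θ + (-l : ℝ))).re = Real.exp (-l) * Real.cos θ := by
      rw [Complex.exp_re]; simp
    have r2 : (cexp (I * (-θ : ℝ) + l)).re = Real.exp l * Real.cos θ := by
      rw [Complex.exp_re]; simp
    have : (-(t : ℂ) * (2 - cexp (I * θ + (-l : ℝ)) - cexp (I * (-θ : ℝ) + l))).re =
        -t * (2 - 2 * Real.cosh l * Real.cos θ) := by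
      rw [show -(t : ℂ) = ((-t : ℝ) : ℂ) by simp, re_ofReal_mul, sub_re, sub_re, r1, r2,
        Real.cosh_eq]
      simp; left; ring
    rw [this]
    have c1 := Real.cos_le_one_sub_mul_cos_sq hθ
    have c2 := cosh_sub_one_le l hl
    have c3 := Real.one_le_cosh l
    have c4 := Real.cos_le_one θ
    have : 2 - 2 * Real.cosh l * Real.cos θ ≥ 4 / π ^ 2 * θ ^ 2 - 2 * l ^ 2 := by
      have : (Real.cosh l - 1) * Real.cos θ ≤ l ^ 2 := by nlinarith
      have e : 4 / π ^ 2 * θ ^ 2 = 2 * (2 / π ^ 2 * θ ^ 2) := by ring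
      rw [e]; nlinarith
    nlinarith
  have b4 : ‖cexp (I * n * (θ + l * I))‖ = Real.exp (-(n * l)) := by
    rw [Complex.norm_exp]; congr 1; simp
  rw [b4]
  gcongr

/-- a Gaussian majorant -/
noncomputable def maj (j : ℕ) (c u : ℝ) : ℝ := (|u| + 1) ^ j * Real.exp (-c * u ^ 2)

lemma maj_nonneg (j : ℕ) (c u : ℝ) : 0 ≤ maj j c u := by unfold maj; positivity

lemma maj_integrable (j : ℕ) {c : ℝ} (hc : 0 < c) : Integrable (maj j c) := by
  have h : Integrable fun u : ℝ => Real.exp (j + j ^ 2 / (2 * c)) * Real.exp (-(c / 2) * u ^ 2) :=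
    (integrable_exp_neg_mul_sq (by positivity)).const_mul _
  refine h.mono' (by unfold maj; fun_prop) (ae_of_all _ fun u => ?_)
  rw [Real.norm_of_nonneg (maj_nonneg _ _ _)]
  unfold maj
  have h1 : (|u| + 1) ^ j ≤ Real.exp (j * |u|) := by
    rw [Real.exp_nat_mul]; gcongr; exact Real.add_one_le_exp _
  calc _ ≤ Real.exp (j * |u|) * Real.exp (-c * u ^ 2) := by gcongr
    _ ≤ _ := by
      rw [← Real.exp_add, ← Real.exp_add]
      apply Real.exp_le_exp.2
      have : (j : ℝ) * |u| ≤ j ^ 2 / (2 * c) + c / 2 * u ^ 2 := by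
        rw [← sq_abs u]
        have : 0 ≤ (c * |u| - j) ^ 2 / (2 * c) := by positivity
        have e : (c * |u| - j) ^ 2 / (2 * c) = j ^ 2 / (2 * c) + c / 2 * |u| ^ 2 - j * |u| := by
          field_simp; ring
        linarith
      have : (0 : ℝ) ≤ j := by positivity
      nlinarith

/-- integral bound used for all kernel estimates -/
lemma int_bound (j : ℕ) {t r : ℝ} (hr : 0 < r) (hrt : r ^ 2 ≤ t + 1) :
    ∫ θ in (-π)..π, (|θ| + r⁻¹) ^ j * Real.exp (-(4 / π ^ 2) * t * θ ^ 2) ≤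
      Real.exp 4 * (∫ u, maj j (4 / π ^ 2) u) * (r⁻¹) ^ (j + 1) := by
  have hc : 0 < 4 / π ^ 2 := by positivity
  have hi : Integrable fun θ : ℝ => Real.exp 4 * (r⁻¹) ^ j * maj j (4 / π ^ 2) (r * θ) :=
    ((maj_integrable j hc).comp_mul_left' hr.ne').const_mul _
  calc _ ≤ ∫ θ in (-π)..π, Real.exp 4 * (r⁻¹) ^ j * maj j (4 / π ^ 2) (r * θ) := by
        apply intervalIntegral.integral_mono_on (by linarith [pi_pos])
          (Continuous.intervalIntegrable (by fun_prop) _ _) hi.intervalIntegrable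
        intro θ hθ
        unfold maj
        have e1 : (|θ| + r⁻¹) = r⁻¹ * (|r * θ| + 1) := by
          rw [abs_mul, abs_of_pos hr]; field_simp
        have hθ2 : θ ^ 2 ≤ π ^ 2 := by nlinarith [hθ.1, hθ.2]
        have e2 : Real.exp (-(4 / π ^ 2) * t * θ ^ 2) ≤
            Real.exp 4 * Real.exp (-(4 / π ^ 2) * (r * θ) ^ 2) := by
          rw [← Real.exp_add]; apply Real.exp_le_exp.2
          have h4 : 4 / π ^ 2 * θ ^ 2 ≤ 4 := by
            rw [div_mul_eq_mul_div, div_le_iff₀ (by positivity)]; nlinarith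
          have h5 : 4 / π ^ 2 * θ ^ 2 * (r ^ 2 - t) ≤ 4 / π ^ 2 * θ ^ 2 * 1 := by
            gcongr; linarith
          nlinarith
        rw [e1, mul_pow]
        calc _ ≤ r⁻¹ ^ j * (|r * θ| + 1) ^ j *
            (Real.exp 4 * Real.exp (-(4 / π ^ 2) * (r * θ) ^ 2)) := by gcongr
          _ = _ := by ring
    _ ≤ ∫ θ, Real.exp 4 * (r⁻¹) ^ j * maj j (4 / π ^ 2) (r * θ) := by
        rw [intervalIntegral.integral_of_le (by linarith [pi_pos])]
        apply setIntegral_le_integral hi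
        exact ae_of_all _ fun θ => by have := maj_nonneg j (4 / π ^ 2) (r * θ); positivity
    _ = _ := by
        rw [integral_const_mul, Measure.integral_comp_mul_left, abs_of_pos (inv_pos.2 hr),
          smul_eq_mul]
        ring

/-- the constant in the kernel bound -/
noncomputable def hC (j : ℕ) : ℝ := 3 ^ j * Real.exp 6 * (∫ u, maj j (4 / π ^ 2) u)

lemma hC_nonneg (j : ℕ) : 0 ≤ hC j := by
  unfold hC
  have : 0 ≤ ∫ u, maj j (4 / π ^ 2) u := integral_nonneg fun u => maj_nonneg j _ u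
  positivity

theorem norm_hk_le (a b : ℕ) {t r : ℝ} (ht : 0 ≤ t) (hr : 1 ≤ r) (h1 : t ≤ r ^ 2)
    (h2 : r ^ 2 ≤ t + 1) (n : ℤ) :
    ‖hk a b t n‖ ≤ hC (a + b) * (r⁻¹) ^ (a + b + 1) * Real.exp (-(|(n : ℝ)| / r)) := by
  have hr0 : 0 < r := by linarith
  obtain ⟨l, hl, hnl⟩ : ∃ l : ℝ, |l| = r⁻¹ ∧ n * l = |(n : ℝ)| / r := by
    rcases le_total 0 (n : ℝ) with h | h
    · exact ⟨r⁻¹, abs_of_pos (inv_pos.2 hr0), by rw [abs_of_nonneg h]; rfl⟩
    · exact ⟨-r⁻¹, by rw [abs_neg, abs_of_pos (inv_pos.2 hr0)], by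
        rw [abs_of_nonpos h, div_eq_mul_inv]; ring⟩
  have hl1 : |l| ≤ 1 := by rw [hl]; exact inv_le_one_of_one_le₀ hr
  have hl2 : t * l ^ 2 ≤ 1 := by
    rw [← sq_abs, hl, inv_pow, ← div_eq_mul_inv, div_le_one (by positivity)]; exact h1
  unfold hk
  rw [shift a b t n l, norm_mul]
  have hn : ‖((2 * π : ℝ) : ℂ)⁻¹‖ ≤ 1 := by
    rw [norm_inv, Complex.norm_real, Real.norm_of_nonneg (by positivity)]
    exact inv_le_one_of_one_le₀ (by linarith [pi_gt_three])
  have hb : ‖∫ θ in (-π)..π, sym a b t n (θ + l * I)‖ ≤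
      ∫ θ in (-π)..π, (3 ^ (a + b) * Real.exp 2 * Real.exp (-(|(n : ℝ)| / r))) *
        ((|θ| + r⁻¹) ^ (a + b) * Real.exp (-(4 / π ^ 2) * t * θ ^ 2)) := by
    apply intervalIntegral.norm_integral_le_of_norm_le (by linarith [pi_pos])
    · refine ae_of_all _ fun θ hθ => ?_
      refine (norm_sym_le a b ht n (abs_le.2 ⟨hθ.1.le, hθ.2⟩) hl1).trans ?_
      rw [hl, hnl, mul_pow, Real.exp_add]
      have : Real.exp (2 * t * l ^ 2) ≤ Real.exp 2 := Real.exp_le_exp.2 (by linarith)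
      calc _ ≤ 3 ^ (a + b) * (|θ| + r⁻¹) ^ (a + b) *
          (Real.exp (-(4 / π ^ 2) * t * θ ^ 2) * Real.exp 2) * Real.exp (-(|(n : ℝ)| / r)) := by
            gcongr
        _ = _ := by ring
    · exact Continuous.intervalIntegrable (by fun_prop) _ _
  rw [intervalIntegral.integral_const_mul] at hb
  have := int_bound (a + b) hr0 h2
  calc _ ≤ 1 * ((3 ^ (a + b) * Real.exp 2 * Real.exp (-(|(n : ℝ)| / r))) *
      (Real.exp 4 * (∫ u, maj (a + b) (4 / π ^ 2) u) * (r⁻¹) ^ (a + b + 1))) := by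
        gcongr
        exact hb.trans (by gcongr)
    _ = _ := by
        unfold hC
        rw [show (6 : ℝ) = 2 + 4 by norm_num, Real.exp_add]; ring

end Pool.Agent.Lib.MP_7f377f_mp.Heat
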