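import Pool.Agent.Lib.MP_7f377f_mp.Heat1

/-! Heat equation and local limit theorem for the one-dimensional lattice heat kernel. -/

namespace Pool.Agent.Lib.MP_7f377f_mp.Heat

open Complex MeasureTheory Real Filter Topology Set

lemma sym_hasDerivAt (a b : ℕ) (t : ℝ) (n : ℤ) (z : ℂ) :
    HasDerivAt (fun t : ℝ => sym a b t n z) (-sym (a + 1) (b + 1) t n z) t := by
  unfold sym
  have h0 : HasDerivAt (fun t : ℝ => (t : ℂ)) 1 t := by
    simpa using (hasDerivAt_id t).ofReal_comp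
  have h1 := ((h0.neg.mul_const (2 - cexp (I * z) - cexp (-(I * z)))).cexp.const_mul
    ((cexp (I * z) - 1) ^ a * (cexp (-(I * z)) - 1) ^ b)).mul_const (cexp (I * n * z))
  have e : cexp (I * z) * cexp (-(I * z)) = 1 := by rw [← Complex.exp_add]; simp
  refine h1.congr_deriv ?_
  simp only [Pi.neg_apply]
  linear_combination ((cexp (I * z) - 1) ^ a * (cexp (-(I * z)) - 1) ^ b *
    cexp (-(t : ℂ) * (2 - cexp (I * z) - cexp (-(I * z)))) * cexp (I * n * z)) * e

lemma sym_cont2 (a b : ℕ) (n : ℤ) : Continuous fun p : ℝ × ℝ => sym a b p.1 n p.2 := by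
  unfold sym; fun_prop

theorem hk_hasDerivAt (a b : ℕ) (t : ℝ) (n : ℤ) :
    HasDerivAt (fun t => hk a b t n) (-hk (a + 1) (b + 1) t n) t := by
  unfold hk
  rw [← mul_neg, ← intervalIntegral.integral_neg]
  apply HasDerivAt.const_mul
  obtain ⟨M, hM⟩ := ((isCompact_closedBall t 1).prod (isCompact_uIcc (a := -π) (b := π))).exists_bound_of_continuousOn
    (sym_cont2 (a + 1) (b + 1) n).continuousOn
  exact (intervalIntegral.hasDerivAt_integral_of_dominated_loc_of_deriv_le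
    (F := fun t θ => sym a b t n θ) (F' := fun t θ => -sym (a + 1) (b + 1) t n θ)
    (bound := fun _ => M) (Metric.closedBall_mem_nhds t one_pos)
    (Eventually.of_forall fun t => (sym_cont _ _ _ _).aestronglyMeasurable)
    ((sym_cont _ _ _ _).intervalIntegrable _ _)
    (sym_cont _ _ _ _).neg.aestronglyMeasurable
    (ae_of_all _ fun θ hθ x hx => by
      rw [norm_neg]; exact hM (x, θ) ⟨hx, uIoc_subset_uIcc hθ⟩)
    intervalIntegrable_const
    (ae_of_all _ fun θ _ x _ => sym_hasDerivAt a b x n θ)).2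

lemma hk_cont (a b : ℕ) (n : ℤ) : Continuous fun t => hk a b t n :=
  continuous_iff_continuousAt.2 fun t => (hk_hasDerivAt a b t n).continuousAt

/-- continuum symbol -/
noncomputable def gsym (a b : ℕ) (s x u : ℝ) : ℂ :=
  (I * u) ^ a * (-(I * u)) ^ b * cexp (-(s : ℂ) * u ^ 2) * cexp (I * x * u)

/-- derivatives of the Gaussian heat kernel -/
noncomputable def gk (a b : ℕ) (s x : ℝ) : ℂ := ((2 * π : ℝ) : ℂ)⁻¹ * ∫ u, gsym a b s x u

lemma slope_tendsto (c : ℂ) {ε : ℕ → ℝ} (hε : ∀ n, 0 < ε n) (hε0 : Tendsto ε atTop (𝓝 0)) :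
    Tendsto (fun n => (cexp (c * ε n) - 1) / ε n) atTop (𝓝 c) := by
  have h0 : HasDerivAt (fun t : ℝ => (t : ℂ)) 1 0 := by
    simpa using (hasDerivAt_id (0 : ℝ)).ofReal_comp
  have h1 := (h0.const_mul c).cexp.tendsto_slope_zero
  have h2 : Tendsto ε atTop (𝓝[≠] 0) :=
    tendsto_nhdsWithin_iff.2 ⟨hε0, Eventually.of_forall fun n => (hε n).ne'⟩
  have h3 := h1.comp h2
  simp only [ofReal_zero, mul_zero, Complex.exp_zero, mul_one, one_mul, zero_add] at h3
  refine h3.congr fun n => ?_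
  simp only [Function.comp, real_smul, ofReal_inv]
  ring

theorem hk_tendsto (a b : ℕ) {s : ℝ} (hs : 0 < s) {ε : ℕ → ℝ} {y : ℕ → ℤ} {x : ℝ}
    (hε : ∀ n, 0 < ε n) (hε0 : Tendsto ε atTop (𝓝 0))
    (hy : Tendsto (fun n => ε n * y n) atTop (𝓝 x)) :
    Tendsto (fun n => hk a b (s / ε n ^ 2) (y n) / (ε n : ℂ) ^ (a + b + 1)) atTop
      (𝓝 (gk a b s x)) := by
  set F : ℕ → ℝ → ℂ := fun n u => (Ioc (-π / ε n) (π / ε n)).indicator
    (fun u : ℝ => sym a b (s / ε n ^ 2) (y n) ((ε n * u : ℝ) : ℂ) / (ε n : ℂ) ^ (a + b)) u with hF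
  have e : ∀ n, hk a b (s / ε n ^ 2) (y n) / (ε n : ℂ) ^ (a + b + 1) =
      ((2 * π : ℝ) : ℂ)⁻¹ * ∫ u, F n u := by
    intro n
    have hne : (ε n : ℂ) ≠ 0 := by exact_mod_cast (hε n).ne'
    unfold hk
    rw [hF, integral_indicator measurableSet_Ioc, ← intervalIntegral.integral_of_le
      (div_le_div_of_nonneg_right (by linarith [pi_pos]) (hε n).le),
      intervalIntegral.integral_div,
      intervalIntegral.integral_comp_mul_left
        (fun θ : ℝ => sym a b (s / ε n ^ 2) (y n) θ) (hε n).ne',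
      mul_div_cancel₀ _ (hε n).ne', mul_div_cancel₀ _ (hε n).ne', real_smul]
    push_cast
    field_simp
    ring
  simp_rw [e]
  unfold gk
  apply Tendsto.const_mul
  have hc : 0 < 4 / π ^ 2 * s := by positivity
  refine tendsto_integral_of_dominated_convergence
    (fun u => 3 ^ (a + b) * maj (a + b) (4 / π ^ 2 * s) u) (fun n => ?_)
    ((maj_integrable _ hc).const_mul _) (fun n => ae_of_all _ fun u => ?_)
    (ae_of_all _ fun u => ?_)
  · apply AEStronglyMeasurable.indicator _ measurableSet_Ioc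
    apply Continuous.aestronglyMeasurable
    exact ((sym_cont _ _ _ _).comp (continuous_const.mul continuous_id)).div_const _
  · have hm := maj_nonneg (a + b) (4 / π ^ 2 * s) u
    by_cases hu : u ∈ Ioc (-π / ε n) (π / ε n)
    · simp only [hF, indicator_of_mem hu]
      have hθ : |ε n * u| ≤ π := by
        have h1 := (div_lt_iff₀ (hε n)).1 hu.1
        have h2 := (le_div_iff₀ (hε n)).1 hu.2
        rw [abs_le]; constructor <;> linarith
      have := norm_sym_le a b (t := s / ε n ^ 2) (by have := hε n; positivity) (y n) hθ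
        (l := 0) (by simp)
      simp only [ofReal_zero, zero_mul, add_zero, abs_zero, mul_zero, neg_zero, Real.exp_zero,
        mul_one, ne_eq, OfNat.ofNat_ne_zero, not_false_eq_true, zero_pow] at this
      rw [norm_div, norm_pow, Complex.norm_real, Real.norm_of_nonneg (hε n).le,
        div_le_iff₀ (pow_pos (hε n) _)]
      refine this.trans ?_
      unfold maj
      have e2 : -(4 / π ^ 2) * (s / ε n ^ 2) * (ε n * u) ^ 2 = -(4 / π ^ 2 * s) * u ^ 2 := by
        have := (hε n).ne'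
        field_simp
      rw [e2, abs_mul, abs_of_pos (hε n), mul_pow, mul_pow]
      have := hε n
      calc _ ≤ 3 ^ (a + b) * (ε n ^ (a + b) * (|u| + 1) ^ (a + b)) *
          Real.exp (-(4 / π ^ 2 * s) * u ^ 2) := by gcongr; linarith
        _ = _ := by ring
    · simp only [hF, indicator_of_notMem hu, norm_zero]; positivity
  · have hev : ∀ᶠ n in atTop, u ∈ Ioc (-π / ε n) (π / ε n) := by
      have h1 : Tendsto (fun n => ε n * u) atTop (𝓝 0) := by simpa using hε0.mul_const u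
      filter_upwards [h1.eventually (Ioo_mem_nhds (neg_lt_zero.2 pi_pos) pi_pos)] with n hn
      exact ⟨(div_lt_iff₀ (hε n)).2 (by linarith [hn.1]), (le_div_iff₀ (hε n)).2 (by linarith [hn.2])⟩
    have hA := slope_tendsto (I * u) hε hε0
    have hB := slope_tendsto (-(I * u)) hε hε0
    have hy' : Tendsto (fun n => ((ε n * y n : ℝ) : ℂ)) atTop (𝓝 (x : ℂ)) :=
      (continuous_ofReal.tendsto x).comp hy
    have hlim := (((hA.pow a).mul (hB.pow b)).mul
      (((hA.mul hB).const_mul (-(s : ℂ))).cexp)).mul (((hy'.const_mul I).mul_const (u : ℂ)).cexp)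
    have e3 : gsym a b s x u = (I * u) ^ a * (-(I * u)) ^ b *
        cexp (-(s : ℂ) * (I * u * -(I * u))) * cexp (I * x * u) := by
      unfold gsym
      rw [show I * u * -(I * u) = (u : ℂ) ^ 2 by linear_combination -(u : ℂ) ^ 2 * I_mul_I]
    rw [e3]
    refine hlim.congr' ?_
    filter_upwards [hev] with n hn
    simp only [hF, indicator_of_mem hn]
    have hne : (ε n : ℂ) ≠ 0 := by exact_mod_cast (hε n).ne'
    unfold sym
    have e4 : I * ((ε n * u : ℝ) : ℂ) = I * u * ε n := by push_cast; ring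
    have e5 : -(I * u) * ε n = -(I * u * ε n) := by ring
    have e6 : cexp (I * u * ε n) * cexp (-(I * u * ε n)) = 1 := by rw [← Complex.exp_add]; simp
    have e7 : -(s : ℂ) * ((cexp (I * u * ε n) - 1) / ε n * ((cexp (-(I * u * ε n)) - 1) / ε n)) =
        -((s / ε n ^ 2 : ℝ) : ℂ) * (2 - cexp (I * u * ε n) - cexp (-(I * u * ε n))) := by
      push_cast
      field_simp
      linear_combination -(s : ℂ) * e6
    have e8 : I * ((ε n * y n : ℝ) : ℂ) * u = I * y n * ((ε n * u : ℝ) : ℂ) := by push_cast; ring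
    rw [e4, e5, e7, e8, div_pow, div_pow, pow_add]
    field_simp

/-- the Gaussian heat kernel -/
noncomputable def gs (s x : ℝ) : ℝ := (4 * π * s) ^ (-(1 / 2 : ℝ)) * Real.exp (-x ^ 2 / (4 * s))

lemma mom_integrable (j : ℕ) {s : ℝ} (hs : 0 < s) (x : ℝ) :
    Integrable fun u : ℝ => (u : ℂ) ^ j * (cexp (I * x * u) * cexp (-(s : ℂ) * u ^ 2)) := by
  refine (maj_integrable j hs).mono' (Continuous.aestronglyMeasurable (by fun_prop))
    (ae_of_all _ fun u => ?_)
  rw [norm_mul, norm_mul, norm_pow, Complex.norm_real, Complex.norm_exp, Complex.norm_exp]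
  have e1 : (I * x * u).re = 0 := by simp
  have e2 : (-(s : ℂ) * u ^ 2).re = -s * u ^ 2 := by
    rw [show -(s : ℂ) * u ^ 2 = ((-s * u ^ 2 : ℝ) : ℂ) by push_cast; ring, ofReal_re]
  rw [e1, e2, Real.exp_zero, one_mul, Real.norm_eq_abs]
  unfold maj
  gcongr; linarith

lemma mom0 {s : ℝ} (hs : 0 < s) (x : ℝ) :
    ((2 * π : ℝ) : ℂ)⁻¹ * ∫ u : ℝ, cexp (I * x * u) * cexp (-(s : ℂ) * u ^ 2) = gs s x := by
  rw [fourierIntegral_gaussian (by simpa using hs)]
  unfold gs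
  have e1 : ((π : ℂ) / s) ^ (1 / 2 : ℂ) = (((π / s) ^ (1 / 2 : ℝ) : ℝ) : ℂ) := by
    rw [ofReal_cpow (by positivity)]; push_cast; rfl
  have e2 : (2 * π)⁻¹ * (π / s) ^ (1 / 2 : ℝ) = (4 * π * s) ^ (-(1 / 2 : ℝ)) := by
    rw [Real.rpow_neg (by positivity), ← Real.sqrt_eq_rpow, ← Real.sqrt_eq_rpow]
    have h1 : √(π / s) * √(4 * π * s) = 2 * π := by
      rw [← Real.sqrt_mul (by positivity), show π / s * (4 * π * s) = (2 * π) ^ 2 by field_simp; ring,
        Real.sqrt_sq (by positivity)]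
    have h2 : 0 < √(4 * π * s) := by positivity
    rw [← h1]; field_simp
  rw [e1, ← e2]; push_cast; ring

lemma base_deriv (s x u : ℝ) : HasDerivAt
    (fun u : ℝ => cexp (I * x * u) * cexp (-(s : ℂ) * u ^ 2))
    ((I * x - 2 * s * u) * (cexp (I * x * u) * cexp (-(s : ℂ) * u ^ 2))) u := by
  have h0 : HasDerivAt (fun t : ℝ => (t : ℂ)) 1 u := by
    simpa using (hasDerivAt_id u).ofReal_comp
  have h1 := ((h0.const_mul (I * x)).cexp).mul (((h0.pow 2).const_mul (-(s : ℂ))).cexp)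
  refine h1.congr_deriv ?_
  simp only [Pi.pow_apply]
  push_cast; ring

lemma mom1 {s : ℝ} (hs : 0 < s) (x : ℝ) :
    ∫ u : ℝ, (u : ℂ) ^ 1 * (cexp (I * x * u) * cexp (-(s : ℂ) * u ^ 2)) =
      I * x / (2 * s) * ∫ u : ℝ, cexp (I * x * u) * cexp (-(s : ℂ) * u ^ 2) := by
  have i0 := mom_integrable 0 hs x
  have i1 := mom_integrable 1 hs x
  simp only [pow_zero, one_mul] at i0
  have i2 := (i0.const_mul (I * x)).sub (i1.const_mul (2 * s))
  have h := integral_eq_zero_of_hasDerivAt_of_integrable (base_deriv s x)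
    (i2.congr (ae_of_all _ fun u => by simp only [Pi.sub_apply]; ring)) i0
  have e : ∫ u : ℝ, (I * x - 2 * s * u) * (cexp (I * x * u) * cexp (-(s : ℂ) * u ^ 2)) =
      I * x * (∫ u : ℝ, cexp (I * x * u) * cexp (-(s : ℂ) * u ^ 2)) -
        2 * s * ∫ u : ℝ, (u : ℂ) ^ 1 * (cexp (I * x * u) * cexp (-(s : ℂ) * u ^ 2)) := by
    rw [← integral_const_mul, ← integral_const_mul,
      ← integral_sub (i0.const_mul _) (i1.const_mul _)]
    congr 1; funext u; ring
  have hne : (s : ℂ) ≠ 0 := by exact_mod_cast hs.ne'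
  rw [e] at h
  generalize (∫ u : ℝ, cexp (I * x * u) * cexp (-(s : ℂ) * u ^ 2)) = J at h ⊢
  generalize (∫ u : ℝ, (u : ℂ) ^ 1 * (cexp (I * x * u) * cexp (-(s : ℂ) * u ^ 2))) = K at h ⊢
  field_simp
  linear_combination -h

lemma mom2 {s : ℝ} (hs : 0 < s) (x : ℝ) :
    ∫ u : ℝ, (u : ℂ) ^ 2 * (cexp (I * x * u) * cexp (-(s : ℂ) * u ^ 2)) =
      (1 / (2 * s) - x ^ 2 / (4 * s ^ 2)) *
        ∫ u : ℝ, cexp (I * x * u) * cexp (-(s : ℂ) * u ^ 2) := by
  have i0 := mom_integrable 0 hs x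
  have i1 := mom_integrable 1 hs x
  have i2 := mom_integrable 2 hs x
  simp only [pow_zero, one_mul] at i0
  have hd : ∀ u : ℝ, HasDerivAt
      (fun u : ℝ => (u : ℂ) ^ 1 * (cexp (I * x * u) * cexp (-(s : ℂ) * u ^ 2)))
      (cexp (I * x * u) * cexp (-(s : ℂ) * u ^ 2) +
        (I * x * ((u : ℂ) ^ 1 * (cexp (I * x * u) * cexp (-(s : ℂ) * u ^ 2))) -
          2 * s * ((u : ℂ) ^ 2 * (cexp (I * x * u) * cexp (-(s : ℂ) * u ^ 2))))) u := by
    intro u
    have h0 : HasDerivAt (fun t : ℝ => (t : ℂ)) 1 u := by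
      simpa using (hasDerivAt_id u).ofReal_comp
    have h1 := h0.mul (base_deriv s x u)
    simp only [pow_one]
    refine h1.congr_deriv ?_
    ring
  have i3 : Integrable fun u : ℝ =>
      I * x * ((u : ℂ) ^ 1 * (cexp (I * x * u) * cexp (-(s : ℂ) * u ^ 2))) -
        2 * s * ((u : ℂ) ^ 2 * (cexp (I * x * u) * cexp (-(s : ℂ) * u ^ 2))) :=
    (i1.const_mul (I * x)).sub (i2.const_mul (2 * s))
  have h := integral_eq_zero_of_hasDerivAt_of_integrable hd (i0.add i3) i1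
  rw [integral_add i0 i3, integral_sub (i1.const_mul _) (i2.const_mul _), integral_const_mul,
    integral_const_mul, mom1 hs] at h
  have hne : (s : ℂ) ≠ 0 := by exact_mod_cast hs.ne'
  generalize (∫ u : ℝ, cexp (I * x * u) * cexp (-(s : ℂ) * u ^ 2)) = J at h ⊢
  generalize (∫ u : ℝ, (u : ℂ) ^ 2 * (cexp (I * x * u) * cexp (-(s : ℂ) * u ^ 2))) = K at h ⊢
  have h2 : 2 * s * K = J + I * x * (I * x / (2 * s) * J) := by linear_combination -h
  have h3 : K = (J + I * x * (I * x / (2 * s) * J)) / (2 * s) := by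
    rw [← h2]; field_simp
  rw [h3]
  field_simp
  linear_combination 4 * (x : ℂ) ^ 2 * J * I_sq

lemma gk00 {s : ℝ} (hs : 0 < s) (x : ℝ) : gk 0 0 s x = gs s x := by
  rw [← mom0 hs]; unfold gk gsym; congr 2; funext u; ring

lemma gk10 {s : ℝ} (hs : 0 < s) (x : ℝ) : gk 1 0 s x = (-(x / (2 * s)) * gs s x : ℝ) := by
  push_cast
  rw [← mom0 hs]; unfold gk gsym
  have : ∫ u : ℝ, (I * u) ^ 1 * (-(I * u)) ^ 0 * cexp (-(s : ℂ) * u ^ 2) * cexp (I * x * u) =
      I * ∫ u : ℝ, (u : ℂ) ^ 1 * (cexp (I * x * u) * cexp (-(s : ℂ) * u ^ 2)) := by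
    rw [← integral_const_mul]; congr 1; funext u; ring
  rw [this, mom1 hs]
  linear_combination (((2 * π : ℝ) : ℂ)⁻¹ * (x / (2 * s)) *
    ∫ u : ℝ, cexp (I * x * u) * cexp (-(s : ℂ) * u ^ 2)) * I_mul_I

lemma gk01 {s : ℝ} (hs : 0 < s) (x : ℝ) : gk 0 1 s x = ((x / (2 * s)) * gs s x : ℝ) := by
  push_cast
  rw [← mom0 hs]; unfold gk gsym
  have : ∫ u : ℝ, (I * u) ^ 0 * (-(I * u)) ^ 1 * cexp (-(s : ℂ) * u ^ 2) * cexp (I * x * u) =
      -I * ∫ u : ℝ, (u : ℂ) ^ 1 * (cexp (I * x * u) * cexp (-(s : ℂ) * u ^ 2)) := by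
    rw [← integral_const_mul]; congr 1; funext u; ring
  rw [this, mom1 hs]
  linear_combination -(((2 * π : ℝ) : ℂ)⁻¹ * (x / (2 * s)) *
    ∫ u : ℝ, cexp (I * x * u) * cexp (-(s : ℂ) * u ^ 2)) * I_mul_I

lemma gk11 {s : ℝ} (hs : 0 < s) (x : ℝ) :
    gk 1 1 s x = ((1 / (2 * s) - x ^ 2 / (4 * s ^ 2)) * gs s x : ℝ) := by
  push_cast
  rw [← mom0 hs]; unfold gk gsym
  have : ∫ u : ℝ, (I * u) ^ 1 * (-(I * u)) ^ 1 * cexp (-(s : ℂ) * u ^ 2) * cexp (I * x * u) =
      ∫ u : ℝ, (u : ℂ) ^ 2 * (cexp (I * x * u) * cexp (-(s : ℂ) * u ^ 2)) := by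
    congr 1; funext u
    linear_combination -((u : ℂ) ^ 2 * (cexp (I * x * u) * cexp (-(s : ℂ) * u ^ 2))) * I_mul_I
  rw [this, mom2 hs]
  ring

end Pool.Agent.Lib.MP_7f377f_mp.Heat
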