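import Pool.Agent.Lib.MP_7f377f_mp.Heat2
import Pool.Agent.Lib.MP_7f377f_mp.WeakDefs

/-! Second differences of the lattice Green function on `ℤ^d` and their scaling limit. -/

namespace Pool.Agent.Lib.MP_7f377f_mp.Heat

open Complex MeasureTheory Real Filter Topology Set

variable {d : ℕ}

/-- differences of the product heat kernel -/
noncomputable def H (a b : Fin d → ℕ) (t : ℝ) (x : Fin d → ℤ) : ℂ := ∏ l, hk (a l) (b l) t (x l)

lemma H_split (a b : Fin d → ℕ) (t : ℝ) (x : Fin d → ℤ) (i : Fin d) :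
    H a b t x = hk (a i) (b i) t (x i) * ∏ l ∈ Finset.univ.erase i, hk (a l) (b l) t (x l) := by
  unfold H; rw [Finset.mul_prod_erase _ (fun l => hk (a l) (b l) t (x l)) (Finset.mem_univ i)]

lemma H_dp (a b : Fin d → ℕ) (t : ℝ) (x : Fin d → ℤ) (i : Fin d) :
    H (a + Pi.single i 1) b t x = H a b t (x + Pi.single i 1) - H a b t x := by
  rw [H_split _ _ _ _ i, H_split _ _ _ _ i, H_split a b t x i]
  simp only [Pi.add_apply, Pi.single_eq_same, hk_succ_left]
  rw [sub_mul]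
  congr 2 <;> refine Finset.prod_congr rfl fun l hl => ?_ <;>
    simp [Pi.single_eq_of_ne (Finset.ne_of_mem_erase hl)]

lemma H_dm (a b : Fin d → ℕ) (t : ℝ) (x : Fin d → ℤ) (i : Fin d) :
    H a (b + Pi.single i 1) t x = H a b t (x - Pi.single i 1) - H a b t x := by
  rw [H_split _ _ _ _ i, H_split _ _ _ _ i, H_split a b t x i]
  simp only [Pi.add_apply, Pi.sub_apply, Pi.single_eq_same, hk_succ_right]
  rw [sub_mul]
  congr 2 <;> refine Finset.prod_congr rfl fun l hl => ?_ <;>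
    simp [Pi.single_eq_of_ne (Finset.ne_of_mem_erase hl)]

lemma H_hasDerivAt (a b : Fin d → ℕ) (t : ℝ) (x : Fin d → ℤ) :
    HasDerivAt (fun t => H a b t x) (-∑ l, H (a + Pi.single l 1) (b + Pi.single l 1) t x) t := by
  have h := HasDerivAt.fun_finsetProd (u := Finset.univ)
    (f := fun l t => hk (a l) (b l) t (x l)) (fun l _ => hk_hasDerivAt (a l) (b l) t (x l))
  refine h.congr_deriv ?_
  rw [← Finset.sum_neg_distrib]
  refine Finset.sum_congr rfl fun l _ => ?_
  rw [H_split _ _ _ _ l]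
  simp only [Pi.add_apply, Pi.single_eq_same, smul_eq_mul]
  rw [mul_neg, mul_comm]
  congr 2
  refine Finset.prod_congr rfl fun m hm => ?_
  simp [Pi.single_eq_of_ne (Finset.ne_of_mem_erase hm)]

lemma H_cont (a b : Fin d → ℕ) (x : Fin d → ℤ) : Continuous fun t => H a b t x :=
  continuous_iff_continuousAt.2 fun t => (H_hasDerivAt a b t x).continuousAt

lemma H_zero (x : Fin d → ℤ) : H 0 0 0 x = if x = 0 then 1 else 0 := by
  unfold H
  simp only [Pi.zero_apply, hk_zero]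
  rw [Finset.prod_boole]
  simp [funext_iff]

lemma norm_H_le (a b : Fin d → ℕ) {t : ℝ} (ht : 0 ≤ t) (x : Fin d → ℤ) (i : Fin d) :
    ‖H a b t x‖ ≤ (∏ l, hC (a l + b l)) * ((√(t + 1))⁻¹) ^ (∑ l, a l + ∑ l, b l + d) *
      Real.exp (-(|(x i : ℝ)| / √(t + 1))) := by
  have hr : 1 ≤ √(t + 1) := Real.one_le_sqrt.2 (by linarith)
  have hs : √(t + 1) ^ 2 = t + 1 := Real.sq_sqrt (by linarith)
  unfold H
  rw [norm_prod]
  calc _ ≤ ∏ l, hC (a l + b l) * ((√(t + 1))⁻¹) ^ (a l + b l + 1) *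
        Real.exp (-(|(x l : ℝ)| / √(t + 1))) :=
        Finset.prod_le_prod (fun _ _ => norm_nonneg _) fun l _ =>
          norm_hk_le _ _ ht hr (by linarith) hs.le _
    _ ≤ _ := by
        rw [Finset.prod_mul_distrib, Finset.prod_mul_distrib, Finset.prod_pow_eq_pow_sum,
          Finset.sum_add_distrib, Finset.sum_add_distrib]
        simp only [Finset.sum_const, Finset.card_univ, Fintype.card_fin, smul_eq_mul, mul_one]
        have : 0 ≤ ∏ l, hC (a l + b l) := Finset.prod_nonneg fun l _ => hC_nonneg _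
        gcongr
        rw [← Real.exp_sum]
        apply Real.exp_le_exp.2
        rw [Finset.sum_neg_distrib, neg_le_neg_iff]
        exact Finset.single_le_sum (f := fun l => |(x l : ℝ)| / √(t + 1))
          (fun l _ => by positivity) (Finset.mem_univ i)

lemma inv_sqrt_cube {t : ℝ} (ht : 0 ≤ t) : ((√(t + 1))⁻¹) ^ 3 = (t + 1) ^ (-(3 / 2) : ℝ) := by
  rw [Real.sqrt_eq_rpow, ← Real.rpow_neg (by linarith), ← Real.rpow_natCast,
    ← Real.rpow_mul (by linarith)]
  norm_num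

lemma maj_int : IntegrableOn (fun t : ℝ => (t + 1) ^ (-(3 / 2) : ℝ)) (Ioi 0) :=
  integrableOn_add_rpow_Ioi_of_lt (by norm_num) (by norm_num)

lemma norm_H_le' (a b : Fin d → ℕ) (hab : 4 ≤ ∑ l, a l + ∑ l, b l + d) {t : ℝ} (ht : 0 ≤ t)
    (x : Fin d → ℤ) (i : Fin d) :
    ‖H a b t x‖ * (1 + |(x i : ℝ)|) ≤ (∏ l, hC (a l + b l)) * (t + 1) ^ (-(3 / 2) : ℝ) := by
  have hr : 1 ≤ √(t + 1) := Real.one_le_sqrt.2 (by linarith)
  have h := norm_H_le a b ht x i
  have h0 : 0 ≤ ∏ l, hC (a l + b l) := Finset.prod_nonneg fun l _ => hC_nonneg _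
  rw [← inv_sqrt_cube ht]
  generalize √(t + 1) = r at *
  have hr0 : 0 < r := by linarith
  have h1 : (r⁻¹) ^ (∑ l, a l + ∑ l, b l + d) ≤ (r⁻¹) ^ 4 :=
    pow_le_pow_of_le_one (by positivity) (inv_le_one_of_one_le₀ hr) hab
  have h2 : Real.exp (-(|(x i : ℝ)| / r)) * (1 + |(x i : ℝ)|) ≤ r := by
    rw [Real.exp_neg, inv_mul_le_iff₀ (Real.exp_pos _)]
    have := Real.add_one_le_exp (|(x i : ℝ)| / r)
    calc 1 + |(x i : ℝ)| ≤ (|(x i : ℝ)| / r + 1) * r := by field_simp; linarith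
      _ ≤ _ := by gcongr
  calc _ ≤ (∏ l, hC (a l + b l)) * (r⁻¹) ^ 4 * Real.exp (-(|(x i : ℝ)| / r)) *
        (1 + |(x i : ℝ)|) := by
        gcongr
        exact h.trans (by gcongr)
    _ = (∏ l, hC (a l + b l)) * (r⁻¹) ^ 4 * (Real.exp (-(|(x i : ℝ)| / r)) *
        (1 + |(x i : ℝ)|)) := by ring
    _ ≤ (∏ l, hC (a l + b l)) * (r⁻¹) ^ 4 * r := by gcongr
    _ = _ := by field_simp

lemma H_int (a b : Fin d → ℕ) (hab : 4 ≤ ∑ l, a l + ∑ l, b l + d) (x : Fin d → ℤ) (i : Fin d) :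
    IntegrableOn (fun t => H a b t x) (Ioi 0) := by
  refine Integrable.mono' (maj_int.const_mul (∏ l, hC (a l + b l)))
    (H_cont a b x).aestronglyMeasurable ?_
  refine (ae_restrict_iff' measurableSet_Ioi).2 (ae_of_all _ fun t ht => ?_)
  refine le_trans ?_ (norm_H_le' a b hab (le_of_lt ht) x i)
  exact le_mul_of_one_le_right (norm_nonneg _) (by linarith [abs_nonneg (x i : ℝ)])

/-- time integral of the kernel -/
noncomputable def K (a b : Fin d → ℕ) (x : Fin d → ℤ) : ℂ := ∫ t in Ioi (0 : ℝ), H a b t x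

lemma norm_K_le (a b : Fin d → ℕ) (hab : 4 ≤ ∑ l, a l + ∑ l, b l + d) (x : Fin d → ℤ) (i : Fin d) :
    ‖K a b x‖ * (1 + |(x i : ℝ)|) ≤
      (∏ l, hC (a l + b l)) * ∫ t in Ioi (0 : ℝ), (t + 1) ^ (-(3 / 2) : ℝ) := by
  unfold K
  rw [← integral_const_mul]
  refine le_trans (mul_le_mul_of_nonneg_right (norm_integral_le_integral_norm _) (by positivity)) ?_
  rw [← integral_mul_const]
  exact setIntegral_mono_on ((H_int a b hab x i).norm.mul_const _) (maj_int.const_mul _)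
    measurableSet_Ioi fun t ht => norm_H_le' a b hab (le_of_lt ht) x i

lemma K_dp (a b : Fin d → ℕ) (hab : 4 ≤ ∑ l, a l + ∑ l, b l + d) (x : Fin d → ℤ) (i : Fin d) :
    K (a + Pi.single i 1) b x = K a b (x + Pi.single i 1) - K a b x := by
  unfold K
  rw [← integral_sub (H_int a b hab _ i) (H_int a b hab _ i)]
  simp_rw [H_dp]

lemma K_dm (a b : Fin d → ℕ) (hab : 4 ≤ ∑ l, a l + ∑ l, b l + d) (x : Fin d → ℤ) (i : Fin d) :
    K a (b + Pi.single i 1) x = K a b (x - Pi.single i 1) - K a b x := by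
  unfold K
  rw [← integral_sub (H_int a b hab _ i) (H_int a b hab _ i)]
  simp_rw [H_dm]

lemma sum_add_single (a : Fin d → ℕ) (i : Fin d) :
    ∑ l, (a + Pi.single i 1 : Fin d → ℕ) l = ∑ l, a l + 1 := by
  simp [Finset.sum_add_distrib]

lemma K_lap (a b : Fin d → ℕ) (hab : 4 ≤ ∑ l, a l + ∑ l, b l + d) (x : Fin d → ℤ) (i : Fin d) :
    ∑ l, K (a + Pi.single l 1) (b + Pi.single l 1) x = H a b 0 x := by
  have hi : ∀ l, IntegrableOn (fun t => H (a + Pi.single l 1) (b + Pi.single l 1) t x) (Ioi 0) :=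
    fun l => H_int _ _ (by rw [sum_add_single, sum_add_single]; omega) x i
  have hs : IntegrableOn (fun t => ∑ l, H (a + Pi.single l 1) (b + Pi.single l 1) t x) (Ioi 0) :=
    integrable_finsetSum _ fun l _ => hi l
  have hl : Tendsto (fun t => H a b t x) atTop (𝓝 0) := by
    have h1 : Tendsto (fun t : ℝ => (∏ l, hC (a l + b l)) * (t + 1) ^ (-(3 / 2) : ℝ)) atTop
        (𝓝 0) := by
      have := ((tendsto_rpow_neg_atTop (y := 3 / 2) (by norm_num)).comp
        (tendsto_atTop_add_const_right atTop (1 : ℝ) tendsto_id)).const_mul (∏ l, hC (a l + b l))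
      simpa using this
    refine squeeze_zero_norm' ?_ h1
    filter_upwards [eventually_ge_atTop (0 : ℝ)] with t ht
    refine le_trans ?_ (norm_H_le' a b hab ht x i)
    exact le_mul_of_one_le_right (norm_nonneg _) (by linarith [abs_nonneg (x i : ℝ)])
  have h := integral_Ioi_of_hasDerivAt_of_tendsto' (fun t _ => H_hasDerivAt a b t x) hs.neg hl
  rw [integral_neg, integral_finsetSum _ fun l _ => hi l] at h
  unfold K
  linear_combination -h

lemma bound_aux (m : ℕ) {δ : ℝ} (hδ : 0 < δ) {v : ℝ} (hv : 0 ≤ v) :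
    (1 + v) ^ m * Real.exp (-(δ * v)) ≤ (1 + m / δ) ^ m := by
  rcases Nat.eq_zero_or_pos m with rfl | hm
  · simp only [pow_zero, one_mul]; exact Real.exp_le_one_iff.2 (by simp; positivity)
  have hm' : (0 : ℝ) < m := by exact_mod_cast hm
  rw [Real.exp_neg, mul_inv_le_iff₀ (Real.exp_pos _),
    show δ * v = m * (δ * v / m) by field_simp, Real.exp_nat_mul, ← mul_pow]
  gcongr
  have h1 := Real.add_one_le_exp (δ * v / m)
  calc 1 + v ≤ (1 + m / δ) * (δ * v / m + 1) := by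
        have e : (1 + m / δ) * (δ * v / m + 1) = 1 + v + (δ * v / m + m / δ) := by
          field_simp; ring
        rw [e]
        have : 0 ≤ δ * v / m + m / δ := by positivity
        linarith
    _ ≤ _ := by gcongr

theorem K_tendsto (a b : Fin d → ℕ) (hab : ∑ l, a l + ∑ l, b l = 2) (hd : 1 ≤ d)
    {ε : ℕ → ℝ} {x : ℕ → Fin d → ℤ} {y : Fin d → ℝ} {i : Fin d} (hy : y i ≠ 0)
    (hε : ∀ n, 0 < ε n) (hε0 : Tendsto ε atTop (𝓝 0))
    (hx : ∀ l, Tendsto (fun n => ε n * x n l) atTop (𝓝 (y l))) :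
    Tendsto (fun n => K a b (x n) / (ε n : ℂ) ^ d) atTop
      (𝓝 (∫ s in Ioi (0 : ℝ), ∏ l, gk (a l) (b l) s (y l))) := by
  have e : ∀ n, K a b (x n) / (ε n : ℂ) ^ d =
      ∫ s in Ioi (0 : ℝ), H a b (s / ε n ^ 2) (x n) / (ε n : ℂ) ^ (2 + d) := by
    intro n
    have hne : (ε n : ℂ) ≠ 0 := by exact_mod_cast (hε n).ne'
    have h := integral_comp_mul_right_Ioi (fun t => H a b t (x n)) 0
      (b := (ε n ^ 2)⁻¹) (by have := hε n; positivity)
    rw [integral_div]
    simp only [div_eq_mul_inv (_ : ℝ)]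
    rw [h, zero_mul, inv_inv, real_smul]
    unfold K
    push_cast
    field_simp
    ring
  simp_rw [e]
  set δ := |y i| / 2 with hδ
  have hδ0 : 0 < δ := by have := abs_pos.2 hy; positivity
  have h0 : 0 ≤ ∏ l, hC (a l + b l) := Finset.prod_nonneg fun l _ => hC_nonneg _
  refine tendsto_integral_filter_of_dominated_convergence
    (fun s => (∏ l, hC (a l + b l)) * (1 + (2 + d : ℕ) / δ) ^ (2 + d) * (s + 1) ^ (-(3 / 2) : ℝ))
    (Eventually.of_forall fun n => Continuous.aestronglyMeasurable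
      (((H_cont a b (x n)).comp (continuous_id.div_const _)).div_const _)) ?_
    (maj_int.const_mul _) ?_
  · have h1 : ∀ᶠ n in atTop, ε n < 1 := hε0.eventually (gt_mem_nhds one_pos)
    have h2 : ∀ᶠ n in atTop, δ < |ε n * x n i| :=
      (hx i).abs.eventually (lt_mem_nhds (by rw [hδ]; linarith [abs_pos.2 hy]))
    filter_upwards [h1, h2] with n h1 h2
    refine (ae_restrict_iff' measurableSet_Ioi).2 (ae_of_all _ fun s hs => ?_)
    have hs0 : 0 < s := hs
    have he := hε n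
    have hb := norm_H_le a b (t := s / ε n ^ 2) (by positivity) (x n) i
    rw [hab] at hb
    rw [norm_div, norm_pow, Complex.norm_real, Real.norm_of_nonneg he.le, ← inv_sqrt_cube hs0.le]
    set r := √(s / ε n ^ 2 + 1) with hr
    have hr0 : 0 < r := by positivity
    have hr2 : r ^ 2 = s / ε n ^ 2 + 1 := Real.sq_sqrt (by positivity)
    set v := (ε n * r)⁻¹ with hv
    have hv0 : 0 < v := by positivity
    have hu2 : (ε n * r) ^ 2 = s + ε n ^ 2 := by rw [mul_pow, hr2]; field_simp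
    have hq : √(s + 1) ≤ ε n * r + 1 := by
      apply Real.sqrt_le_iff.2 ⟨by positivity, ?_⟩
      nlinarith [mul_pos he hr0]
    have hq0 : 0 < √(s + 1) := by positivity
    have k1 : Real.exp (-(|(x n i : ℝ)| / r)) ≤ Real.exp (-(δ * v)) := by
      apply Real.exp_le_exp.2
      rw [neg_le_neg_iff, abs_mul, abs_of_pos he] at *
      calc δ * v ≤ ε n * |(x n i : ℝ)| * v := by gcongr
        _ = _ := by rw [hv]; field_simp
    have k2 : v ≤ (1 + v) * (√(s + 1))⁻¹ := by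
      rw [le_mul_inv_iff₀ hq0]
      calc v * √(s + 1) ≤ v * (ε n * r + 1) := by gcongr
        _ = _ := by rw [hv]; field_simp
    have k3 : v ^ (2 + d) ≤ (1 + v) ^ (2 + d) * ((√(s + 1))⁻¹) ^ 3 := by
      obtain ⟨m, rfl⟩ : ∃ m, d = m + 1 := ⟨d - 1, by omega⟩
      calc v ^ (2 + (m + 1)) = v ^ m * v ^ 3 := by ring
        _ ≤ (1 + v) ^ m * ((1 + v) * (√(s + 1))⁻¹) ^ 3 := by gcongr; linarith
        _ = _ := by ring
    have k4 := bound_aux (2 + d) hδ0 hv0.le
    calc _ ≤ (∏ l, hC (a l + b l)) * (r⁻¹) ^ (2 + d) * Real.exp (-(δ * v)) / ε n ^ (2 + d) := by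
          gcongr
          exact hb.trans (by gcongr)
      _ = (∏ l, hC (a l + b l)) * v ^ (2 + d) * Real.exp (-(δ * v)) := by
          rw [hv, mul_inv, mul_pow, inv_pow (ε n)]; ring
      _ ≤ (∏ l, hC (a l + b l)) * ((1 + v) ^ (2 + d) * ((√(s + 1))⁻¹) ^ 3) *
          Real.exp (-(δ * v)) := by gcongr
      _ = (∏ l, hC (a l + b l)) * ((1 + v) ^ (2 + d) * Real.exp (-(δ * v))) *
          ((√(s + 1))⁻¹) ^ 3 := by ring
      _ ≤ _ := by gcongr
  · refine (ae_restrict_iff' measurableSet_Ioi).2 (ae_of_all _ fun s hs => ?_)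
    have h := tendsto_finsetProd Finset.univ fun l _ =>
      hk_tendsto (a l) (b l) (show 0 < s from hs) hε hε0 (hx l)
    refine h.congr fun n => ?_
    unfold H
    rw [Finset.prod_div_distrib, Finset.prod_pow_eq_pow_sum, Finset.sum_add_distrib,
      Finset.sum_add_distrib, hab]
    simp

lemma gamma_int {α c : ℝ} (hα : 0 < α) (hc : 0 < c) :
    IntegrableOn (fun s : ℝ => s ^ (-α - 1) * Real.exp (-(c / s))) (Ioi 0) ∧
      ∫ s in Ioi (0 : ℝ), s ^ (-α - 1) * Real.exp (-(c / s)) = (1 / c) ^ α * Real.Gamma α := by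
  have e : ∀ s ∈ Ioi (0 : ℝ), (|(-1 : ℝ)| * s ^ ((-1 : ℝ) - 1)) •
      ((s ^ (-1 : ℝ)) ^ (α - 1) * Real.exp (-(c * s ^ (-1 : ℝ)))) =
        s ^ (-α - 1) * Real.exp (-(c / s)) := by
    intro s hs
    have hs0 : 0 < s := hs
    rw [smul_eq_mul, abs_neg, abs_one, one_mul, ← Real.rpow_mul hs0.le, ← mul_assoc,
      ← Real.rpow_add hs0, Real.rpow_neg_one, div_eq_mul_inv]
    congr 2; ring
  constructor
  · have h := (integrableOn_Ioi_comp_rpow_iff
      (fun t : ℝ => t ^ (α - 1) * Real.exp (-(c * t))) (p := -1) (by norm_num)).2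
      ((integrableOn_rpow_mul_exp_neg_mul_rpow (p := 1) (s := α - 1) (b := c) (by linarith)
        one_pos hc).congr_fun (fun t _ => by simp) measurableSet_Ioi)
    exact h.congr_fun e measurableSet_Ioi
  · rw [← Real.integral_rpow_mul_exp_neg_mul_Ioi hα hc,
      ← integral_comp_rpow_Ioi (fun t : ℝ => t ^ (α - 1) * Real.exp (-(c * t))) (p := -1)
        (by norm_num)]
    exact (setIntegral_congr_fun measurableSet_Ioi e).symm

lemma prod_gk (i j : Fin d) {s : ℝ} (hs : 0 < s) (y : EuclideanSpace ℝ (Fin d)) :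
    ∏ l, gk ((Pi.single i 1 : Fin d → ℕ) l) ((Pi.single j 1 : Fin d → ℕ) l) s (y l) =
      ((((if i = j then 1 else 0) / (2 * s) - y i * y j / (4 * s ^ 2)) *
        ((4 * π * s) ^ (-(d / 2 : ℝ)) * Real.exp (-(‖y‖ ^ 2 / 4 / s))) : ℝ) : ℂ) := by
  have hg : ∏ l, gs s (y l) = (4 * π * s) ^ (-(d / 2 : ℝ)) * Real.exp (-(‖y‖ ^ 2 / 4 / s)) := by
    unfold gs
    rw [Finset.prod_mul_distrib, ← Real.exp_sum, Finset.prod_const, Finset.card_univ,
      Fintype.card_fin, ← Real.rpow_natCast, ← Real.rpow_mul (by positivity),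
      EuclideanSpace.real_norm_sq_eq, ← Finset.sum_div, Finset.sum_neg_distrib]
    congr 2
    · ring
    · ring
  rw [← hg]
  by_cases hij : i = j
  · subst hij
    have : ∀ l, gk ((Pi.single i 1 : Fin d → ℕ) l) ((Pi.single i 1 : Fin d → ℕ) l) s (y l) =
        (((if l = i then 1 / (2 * s) - y i * y i / (4 * s ^ 2) else 1) * gs s (y l) : ℝ) : ℂ) := by
      intro l
      by_cases h : l = i
      · subst h; simp only [Pi.single_eq_same, if_true, gk11 hs]; congr 2; ring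
      · simp only [Pi.single_eq_of_ne h, if_neg h, gk00 hs, one_mul]
    simp_rw [this]
    rw [← ofReal_prod, Finset.prod_mul_distrib]
    simp
  · have : ∀ l, gk ((Pi.single i 1 : Fin d → ℕ) l) ((Pi.single j 1 : Fin d → ℕ) l) s (y l) =
        (((if l = i then -(y i / (2 * s)) else 1) * (if l = j then y j / (2 * s) else 1) *
          gs s (y l) : ℝ) : ℂ) := by
      intro l
      by_cases h : l = i
      · subst h
        simp only [Pi.single_eq_same, Pi.single_eq_of_ne hij, if_true, if_neg hij, gk10 hs, mul_one]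
      · by_cases h' : l = j
        · subst h'
          simp only [Pi.single_eq_same, Pi.single_eq_of_ne h, if_true, if_neg h, gk01 hs, one_mul]
        · simp only [Pi.single_eq_of_ne h, Pi.single_eq_of_ne h', if_neg h, if_neg h', gk00 hs,
            one_mul]
    simp_rw [this]
    rw [← ofReal_prod, Finset.prod_mul_distrib, Finset.prod_mul_distrib]
    simp only [Finset.prod_ite_eq', Finset.mem_univ, if_true, if_neg hij]
    congr 2
    field_simp
    ring

theorem int_prod_gk (hd : 1 ≤ d) (i j : Fin d) {y : EuclideanSpace ℝ (Fin d)} (hy : y ≠ 0) :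
    ∫ s in Ioi (0 : ℝ), ∏ l, gk ((Pi.single i 1 : Fin d → ℕ) l) ((Pi.single j 1 : Fin d → ℕ) l) s
      (y l) = (Weak.hessG y i j : ℝ) := by
  have hn : 0 < ‖y‖ := norm_pos_iff.2 hy
  have hc : 0 < ‖y‖ ^ 2 / 4 := by positivity
  have hd2 : (0 : ℝ) < d / 2 := by have : (1 : ℝ) ≤ d := by exact_mod_cast hd
                                   linarith
  obtain ⟨i1, e1⟩ := gamma_int hd2 hc
  obtain ⟨i2, e2⟩ := gamma_int (α := d / 2 + 1) (by linarith) hc
  rw [setIntegral_congr_fun measurableSet_Ioi fun s hs => prod_gk i j (show 0 < s from hs) y,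
    integral_complex_ofReal]
  congr 1
  have e : ∀ s ∈ Ioi (0 : ℝ), ((if i = j then 1 else 0) / (2 * s) - y i * y j / (4 * s ^ 2)) *
        ((4 * π * s) ^ (-(d / 2 : ℝ)) * Real.exp (-(‖y‖ ^ 2 / 4 / s))) =
      (if i = j then 1 else 0) / 2 * (4 * π) ^ (-(d / 2 : ℝ)) *
          (s ^ (-(d / 2 : ℝ) - 1) * Real.exp (-(‖y‖ ^ 2 / 4 / s))) -
        y i * y j / 4 * (4 * π) ^ (-(d / 2 : ℝ)) *
          (s ^ (-(d / 2 + 1 : ℝ) - 1) * Real.exp (-(‖y‖ ^ 2 / 4 / s))) := by
    intro s hs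
    have hs0 : 0 < s := hs
    rw [Real.mul_rpow (by positivity) hs0.le, show -(d / 2 + 1 : ℝ) - 1 = -(d / 2 : ℝ) - 2 by ring,
      Real.rpow_sub hs0, Real.rpow_sub hs0, Real.rpow_one, Real.rpow_two]
    field_simp
  rw [setIntegral_congr_fun measurableSet_Ioi e, integral_sub (i1.const_mul _) (i2.const_mul _),
    integral_const_mul, integral_const_mul, e1, e2, Real.Gamma_add_one hd2.ne',
    Real.rpow_add (by positivity), Real.rpow_one]
  have e3 : (4 * π) ^ (-(d / 2 : ℝ)) * (1 / (‖y‖ ^ 2 / 4)) ^ (d / 2 : ℝ) =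
      (π ^ (d / 2 : ℝ) * ‖y‖ ^ d)⁻¹ := by
    have : ‖y‖ ^ d = (‖y‖ ^ 2) ^ (d / 2 : ℝ) := by
      rw [← Real.rpow_natCast, ← Real.rpow_natCast, ← Real.rpow_mul hn.le]; congr 1; push_cast; ring
    rw [this, ← Real.mul_rpow pi_pos.le (by positivity), Real.rpow_neg (by positivity),
      ← Real.inv_rpow (by positivity), ← Real.inv_rpow (by positivity),
      ← Real.mul_rpow (by positivity) (by positivity)]
    congr 1; field_simp
  unfold Weak.hessG
  have hp : 0 < π ^ (d / 2 : ℝ) * ‖y‖ ^ d := by positivity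
  calc _ = (4 * π) ^ (-(d / 2 : ℝ)) * (1 / (‖y‖ ^ 2 / 4)) ^ (d / 2 : ℝ) * Real.Gamma (d / 2) *
        ((if i = j then 1 else 0) / 2 - y i * y j / 4 * (1 / (‖y‖ ^ 2 / 4)) * (d / 2)) := by ring
    _ = _ := by rw [e3]; field_simp

end Pool.Agent.Lib.MP_7f377f_mp.Heat
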