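import Mathlib

/-! Block averaged `SU(2)` lattice gauge fields on four dimensional discrete tori. -/

noncomputable section

namespace Pool.Agent.Lib.MP_7f377f_mp.YM4

open MeasureTheory Finset Equiv
open scoped Quaternion ENNReal

/-- the group `SU(2)` of unit quaternions -/
abbrev SU2 : Type := Metric.sphere (0 : ℍ) 1

/-- sites of the torus with `n` sites per side -/
abbrev Site (n : ℕ) : Type := Fin 4 → ZMod n

/-- lattice gauge fields on the torus with `n` sites per side -/
abbrev Cfg (n : ℕ) : Type := Site n × Fin 4 → SU2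

/-- the cube of radius `r` in the integer lattice -/
def cube (r : ℕ) : Finset (Fin 4 → ℤ) := Fintype.piFinset fun _ => Icc (-(r : ℤ)) r

variable {m n : ℕ}

/-- the site `x + t` -/
def mv (x : Site n) (t : Fin 4 → ℤ) : Site n := fun k => x k + t k

/-- parallel transport along the straight line from `x` to `x + k e_i` -/
def line (U : Cfg n) (x : Site n) (i : Fin 4) : ℤ → SU2
  | .ofNat k => ((List.range k).map fun s : ℕ => U (x + Pi.single i (s : ZMod n), i)).prod
  | .negSucc k =>
    ((List.range (k + 1)).map fun s : ℕ => (U (x - Pi.single i (s + 1 : ZMod n), i))⁻¹).prod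

/-- parallel transport from `x + p` to `x + t`, along the axes `σ 0`, `σ 1`, `σ 2`, `σ 3`
successively -/
def comb (U : Cfg n) (σ : Perm (Fin 4)) (x : Site n) (p t : Fin 4 → ℤ) : SU2 :=
  (List.ofFn fun j => line U (mv x fun k => if σ.symm k < j then t k else p k) (σ j)
    (t (σ j) - p (σ j))).prod

/-- holonomy around a plaquette -/
def plaq (U : Cfg n) (x : Site n) (i j : Fin 4) : SU2 :=
  U (x, i) * U (x + Pi.single i 1, j) * (U (x + Pi.single j 1, i))⁻¹ * (U (x, j))⁻¹

/-- distance of the holonomy of a plaquette from the identity -/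
def curv (U : Cfg n) (x : Site n) (i j : Fin 4) : ℝ := ‖(plaq U x i j).1 - 1‖

/-- sum of `curv` over the plaquettes which are contained in the cube of radius `3 l + 1` around
`x` and in the hyperplane at height `s` in the direction `i` -/
def mass (l : ℕ) (U : Cfg n) (x : Site n) (i : Fin 4) (s : ℤ) : ℝ :=
  ∑ t ∈ cube (3 * l + 1), ∑ j, ∑ k,
    if t i = s ∧ j ≠ i ∧ k ≠ i ∧ t + Pi.single j 1 + Pi.single k 1 ∈ cube (3 * l + 1) then
      curv U (mv x t) j k else 0

open Classical in
/-- allowed base points of the block of side `2 l + 1` centred at `x`: the centre if the field is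
almost flat in the block, otherwise the points all of whose coordinate hyperplanes carry at most
the average mass -/
def base (l : ℕ) (U : Cfg n) (x : Site n) : Finset (Fin 4 → ℤ) :=
  if ∀ t j k, t ∈ cube l → t + Pi.single j 1 + Pi.single k 1 ∈ cube l →
      curv U (mv x t) j k ≤ ((2 * l + 1 : ℝ) ^ 4)⁻¹ then {0}
  else (cube l).filter fun p => ∀ i,
    (2 * l + 1) * mass l U x i (p i) ≤ ∑ s ∈ Icc (-(l : ℤ)) l, mass l U x i s

/-- sum of the transports from `x + p` to `x' + p'`, where `x' = x + (2 l + 1) e_i`, through the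
points `x + t` and `x' + t`, over the points `t` of the cube of radius `l` and all orders of the
axes -/
def avg (l : ℕ) (U : Cfg n) (x : Site n) (i : Fin 4) (p p' : Fin 4 → ℤ) : ℍ :=
  ∑ σ, ∑ t ∈ cube l, (comb U σ x p t * line U (mv x t) i (2 * l + 1) *
    (comb U σ (x + Pi.single i (2 * l + 1 : ZMod n)) p' t)⁻¹ : SU2)

/-- centre of the block of side `2 l + 1` with label `y` -/
def ctr (l : ℕ) (y : Site n) : Site m := fun k => (2 * l + 1) * (y k).val

open Classical in
/-- the block averaged field; `ω y` is a base point and an order of the axes for the block `y` -/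
def block (l : ℕ) (U : Cfg m) (ω : Site n → (Fin 4 → ℤ) × Perm (Fin 4)) : Cfg n := fun (y, i) =>
  let q := avg l U (ctr l y) i (ω y).1 (ω (y + Pi.single i 1)).1
  if h : q = 0 then line U (ctr l y) i (2 * l + 1) else
    (comb U (ω y).2 (ctr l y) (ω y).1 0)⁻¹ *
      ⟨‖q‖⁻¹ • q, mem_sphere_zero_iff_norm.2 (norm_smul_inv_norm h)⟩ *
      comb U (ω (y + Pi.single i 1)).2 (ctr l y + Pi.single i (2 * l + 1 : ZMod m))
        (ω (y + Pi.single i 1)).1 0

variable [MeasurableSpace SU2] (h : Measure SU2)

/-- the Wilson measure with weight `exp (β ∑ tr U_p)` -/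
def wilson (β : ℝ) (n : ℕ) [NeZero n] : Measure (Cfg n) :=
  (Measure.pi fun _ => h).tilted fun U =>
    β * ∑ x, ∑ i, ∑ j, if i < j then 2 * (plaq U x i j).1.re else 0

/-- law of the block averaged field multiplied by independent noise; given the field, the base
points are independent and uniform among the allowed ones and the orders are uniform -/
def step (a : ℝ) (l : ℕ) [NeZero n] (μ : Measure (Cfg m)) : Measure (Cfg n) :=
  Measure.sum fun ω : Site n → (Fin 4 → ℤ) × Perm (Fin 4) =>
    ((μ.withDensity fun U => ∏ y, if (ω y).1 ∈ base l U (ctr l y) then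
        (24 * (base l U (ctr l y)).card : ℝ≥0∞)⁻¹ else 0).prod
      (Measure.pi fun _ => h.tilted fun g => -(a * ‖g.1 - 1‖ ^ 2))).map
      fun v b => v.2 b * block l v.1 ω b

/-- law on the torus of side `3 ^ e j` of the Wilson field on the torus of side `3 ^ e (j + k)`
averaged `k` times -/
def law (e : ℕ → ℕ) (a β : ℕ → ℝ) : (k j : ℕ) → Measure (Cfg (3 ^ e j))
  | 0, j => wilson h (β j) (3 ^ e j)
  | k + 1, j => step h (a j) (3 ^ (e (j + 1) - e j) / 2) (law e a β k (j + 1))

end Pool.Agent.Lib.MP_7f377f_mp.YM4
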