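import Mathlib

/-! Smeared action density of `SU(2)` lattice gauge fields on four dimensional tori. -/

noncomputable section

namespace Pool.Agent.Lib.MP_7f377f_mp.YM5

open MeasureTheory
open scoped Quaternion

/-- the group `SU(2)` of unit quaternions -/
abbrev SU2 : Type := Metric.sphere (0 : ℍ) 1

/-- lattice gauge fields on the torus with `n` sites per side -/
abbrev Cfg (n : ℕ) : Type := (Fin 4 → ZMod n) × Fin 4 → SU2

/-- the unit torus -/
abbrev T4 : Type := Fin 4 → UnitAddCircle

/-- Euclidean space -/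
abbrev R4 : Type := EuclideanSpace ℝ (Fin 4)

variable {n k : ℕ}

/-- the action density: the sum of `2 - tr U_p` over the six plaquettes `p` with corner `x` -/
def dens (U : Cfg n) (x : Fin 4 → ZMod n) : ℝ :=
  ∑ i, ∑ j, if i < j then 2 - 2 * (U (x, i) * U (x + Pi.single i 1, j) *
    (U (x + Pi.single j 1, i))⁻¹ * (U (x, j))⁻¹).1.re else 0

/-- the action density smeared with a function on the unit torus -/
def field [NeZero n] (f : T4 → ℝ) (U : Cfg n) : ℝ :=
  ∑ x, f (fun i => ZMod.toAddCircle (x i)) * dens U x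

/-- the Wilson measure -/
def wilson [MeasurableSpace SU2] (h : Measure SU2) (b : ℝ) (n : ℕ) [NeZero n] : Measure (Cfg n) :=
  (Measure.pi fun _ => h).tilted fun U => -b * ∑ x, dens U x

/-- correlation function of the centred smeared fields -/
def corr [MeasurableSpace SU2] (h : Measure SU2) (b : ℝ) (n : ℕ) [NeZero n]
    (f : Fin k → T4 → ℝ) : ℝ :=
  ∫ U, ∏ i, (field (f i) U - ∫ V, field (f i) V ∂wilson h b n) ∂wilson h b n

/-- Lipschitz functions with pairwise disjoint compact supports -/
def Adm {X : Type} [MetricSpace X] (f : Fin k → X → ℝ) : Prop :=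
  (∀ i, HasCompactSupport (f i) ∧ ∃ K, LipschitzWith K (f i)) ∧
    Pairwise fun i j => Disjoint (tsupport (f i)) (tsupport (f j))

/-- the function `y ↦ f (y / d)` on the unit cube centred at the origin, seen on the torus -/
def zoom (d : ℝ) (f : R4 → ℝ) (t : T4) : ℝ :=
  f (WithLp.toLp 2 fun i => (AddCircle.equivIoc 1 (-2⁻¹) (t i) : ℝ) / d)

/-- reflection of the axis `0` -/
def theta (f : T4 → ℝ) (t : T4) : ℝ := f (Function.update t 0 (-t 0))

/-- matrix of the reflection in the hyperplane orthogonal to `y` -/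
def mirror (y : R4) (i j : Fin 4) : ℝ := (if i = j then 1 else 0) - 2 * y i * y j / ‖y‖ ^ 2

/-- `π ^ (2 k)` times the correlation function of the action density of three free Maxwell
fields at the points `y i` -/
def free (y : Fin k → R4) : ℝ :=
  ∑ σ : Equiv.Perm (Fin k), if ∀ i, σ i ≠ i then (3 / 2) ^ σ.cycleType.card *
    ∑ a : Fin k → Fin 4 × Fin 4, ∏ i, if (a i).1 < (a i).2 then
      (mirror (y (σ i) - y i) (a i).1 (a (σ i)).1 * mirror (y (σ i) - y i) (a i).2 (a (σ i)).2 -
        mirror (y (σ i) - y i) (a i).1 (a (σ i)).2 * mirror (y (σ i) - y i) (a i).2 (a (σ i)).1) /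
        ‖y (σ i) - y i‖ ^ 4 else 0 else 0

end Pool.Agent.Lib.MP_7f377f_mp.YM5
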