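import Pool.Agent.Lib.MP_7f377f_mp.WeakT2
import Pool.Agent.Lib.MP_7f377f_mp.YM5Defs
import Pool.Agent.Lib.MP_7f377f_mp.YM4Defs

/-! The quaternions as a Hilbert-Schmidt algebra: bridges between the three languages. -/

noncomputable section

namespace Pool.Agent.Lib.MP_7f377f_mp.YM5

open MeasureTheory Weak
open scoped Quaternion InnerProductSpace

set_option linter.unusedSectionVars false

/-- the quaternions with the real part as trace -/
@[reducible] def quatHS : HS ℍ where
  tr := QuaternionAlgebra.reₗ (-1 : ℝ) 0 (-1)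
  tr_mul_comm a b := by
    change (a * b).re = (b * a).re
    simp only [Quaternion.re_mul]
    ring
  tr_star a := Quaternion.re_star a
  norm_sq a := by
    change _ = (star a * a).re
    rw [sq, ← Quaternion.normSq_eq_norm_mul_self, Quaternion.star_mul_self]
    simp
  star_smul r a := by ext <;> simp
  fin := inferInstance

theorem su_norm (g : SU2) : ‖g.1‖ = 1 := mem_sphere_zero_iff_norm.1 g.2

/-- the defining representation -/
def rho : SU2 →* unitary ℍ where
  toFun g := ⟨g.1, by
    have h : Quaternion.normSq g.1 = 1 := by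
      rw [Quaternion.normSq_eq_norm_mul_self, su_norm, mul_one]
    constructor
    · rw [Quaternion.star_mul_self, h]; rfl
    · rw [Quaternion.self_mul_star, h]; rfl⟩
  map_one' := rfl
  map_mul' _ _ := rfl

theorem rho_val (g : SU2) : (rho g : ℍ) = g.1 := rfl

theorem rho_cont : Continuous rho := continuous_subtype_val.subtype_mk _

theorem lie_rho : letI := quatHS
    lieAlg rho = LinearMap.ker (QuaternionAlgebra.reₗ (-1 : ℝ) 0 (-1)) := by
  let _ := quatHS
  rw [lieAlg, ← Submodule.span_eq (LinearMap.ker _)]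
  congr 1
  ext X
  change (∀ t : ℝ, ∃ g, (rho g : ℍ) = NormedSpace.exp (t • X)) ↔ X.re = 0
  constructor
  · intro h
    obtain ⟨g, hg⟩ := h 1
    have h1 := su_norm g
    rw [← rho_val, hg, one_smul, Quaternion.norm_exp, ← Real.exp_eq_exp_ℝ, Real.norm_eq_abs,
      abs_of_pos (Real.exp_pos _)] at h1
    exact Real.exp_eq_one_iff _ |>.1 h1
  · intro h t
    refine ⟨⟨NormedSpace.exp (t • X), mem_sphere_zero_iff_norm.2 ?_⟩, rfl⟩
    rw [Quaternion.norm_exp]
    simp [h]

theorem finrank_lie : letI := quatHS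
    Module.finrank ℝ (lieAlg rho) = 3 := by
  let _ := quatHS
  rw [lie_rho]
  have h := LinearMap.finrank_range_add_finrank_ker (QuaternionAlgebra.reₗ (-1 : ℝ) 0 (-1))
  have h1 : LinearMap.range (QuaternionAlgebra.reₗ (-1 : ℝ) 0 (-1)) = ⊤ :=
    LinearMap.range_eq_top.2 fun r => ⟨⟨r, 0, 0, 0⟩, rfl⟩
  rw [h1, finrank_top, Module.finrank_self, QuaternionAlgebra.finrank_eq_four] at h
  exact Nat.add_left_cancel (n := 1) h

theorem qq_rho (g : SU2) : qq rho g = 2 - 2 * g.1.re := by
  let _ := quatHS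
  rw [qq_eq]
  change 2 * ((1 : ℍ).re - g.1.re) = _
  rw [Quaternion.re_one]
  ring

variable {n k : ℕ}

theorem dens_eq (U : Cfg n) (x : Fin 4 → ZMod n) :
    dens U x = ∑ i, ∑ j, if i < j then qq rho (hol U x i j) else 0 := by
  simp only [qq_rho]
  rfl

theorem dens_nonneg (U : Cfg n) (x : Fin 4 → ZMod n) : 0 ≤ dens U x := by
  let _ := quatHS
  rw [dens_eq]
  refine Finset.sum_nonneg fun i _ => Finset.sum_nonneg fun j _ => ?_
  split_ifs
  · exact qq_nonneg _ _
  · exact le_rfl

theorem dens_curv (U : Cfg n) (x : Fin 4 → ZMod n) :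
    dens U x = ∑ i, ∑ j, if i < j then YM4.curv U x i j ^ 2 else 0 := dens_eq U x

theorem OU_diag {A : Type} [NormedRing A] [StarRing A] [NormedAlgebra ℝ A] [HS A] {G : Type}
    [Group G] (ρ : G →* unitary A) {d L : ℕ} (r : ℝ) (x : Site d L) (a : Fin d × Fin d)
    (U : Link d L → G) : OU ρ r x a a U = r ^ 2 * qq ρ (hol U x a.1 a.2) := by
  rw [OU, real_inner_self_eq_norm_sq, qq]

variable [NeZero n]

theorem act_rho (U : Cfg n) : act rho U = 2 * ∑ x, dens U x := by
  let _ := quatHS
  rw [act, Finset.mul_sum]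
  refine Finset.sum_congr rfl fun x _ => ?_
  rw [dens_eq]
  exact sum_lt_pairs _ (fun i j => by rw [hol_swap, qq_inv]) fun i => by rw [hol_self, qq_one]

variable [MeasurableSpace SU2] (h : Measure SU2)

theorem wilson_nu (b : ℝ) : wilson h b n = nu h rho 4 n (b / 2) := by
  rw [wilson, nu]
  congr 1
  funext U
  rw [act_rho]
  ring

theorem tilted_add_const {α : Type} [MeasurableSpace α] (μ : Measure α) (f : α → ℝ) (c : ℝ) :
    μ.tilted (fun x => f x + c) = μ.tilted f := by
  simp only [Measure.tilted, Real.exp_add, integral_mul_const,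
    mul_div_mul_right _ _ (Real.exp_ne_zero c)]

theorem wilson_ym4 (b : ℝ) : wilson h b n = YM4.wilson h b n := by
  rw [wilson, YM4.wilson, ← tilted_add_const _ _
    (b * ∑ _x : Fin 4 → ZMod n, ∑ i : Fin 4, ∑ j : Fin 4, if i < j then (2 : ℝ) else 0)]
  congr 1
  funext U
  rw [neg_mul, neg_add_eq_sub, ← mul_sub, ← Finset.sum_sub_distrib]
  congr 1
  refine Finset.sum_congr rfl fun x _ => ?_
  rw [dens, ← Finset.sum_sub_distrib]
  refine Finset.sum_congr rfl fun i _ => ?_
  rw [← Finset.sum_sub_distrib]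
  refine Finset.sum_congr rfl fun j _ => ?_
  split_ifs
  · rw [sub_sub_cancel]; rfl
  · rw [sub_zero]

variable [BorelSpace SU2] [h.IsHaarMeasure] [IsProbabilityMeasure h]

theorem wilson_prob (b : ℝ) : IsProbabilityMeasure (wilson h b n) := by
  let _ := quatHS
  rw [wilson_nu]
  exact nu_prob h rho rho_cont _

omit [MeasurableSpace SU2] [BorelSpace SU2] [NeZero n] in
theorem continuous_dens (x : Fin 4 → ZMod n) : Continuous fun U : Cfg n => dens U x := by
  unfold dens
  refine continuous_finsetSum _ fun i _ => continuous_finsetSum _ fun j _ => ?_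
  split_ifs
  · exact continuous_const.sub (continuous_const.mul (Quaternion.continuous_re.comp
      (continuous_subtype_val.comp (by fun_prop))))
  · exact continuous_const

omit [MeasurableSpace SU2] [BorelSpace SU2] in
theorem continuous_field (f : T4 → ℝ) : Continuous fun U : Cfg n => field f U :=
  continuous_finsetSum _ fun x _ => continuous_const.mul (continuous_dens x)

omit [MeasurableSpace SU2] [BorelSpace SU2] in
theorem rep_toAddCircle (x : ZMod n) :
    (AddCircle.equivIoc 1 (-2⁻¹) (ZMod.toAddCircle x) : ℝ) = x.valMinAbs / n := by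
  have n0 : (0 : ℝ) < n := Nat.cast_pos.2 (NeZero.pos n)
  have h := x.valMinAbs_mem_Ioc
  have h1 : (-(n : ℝ)) < x.valMinAbs * 2 := by exact_mod_cast h.1
  have h2 : (x.valMinAbs * 2 : ℝ) ≤ n := by exact_mod_cast h.2
  conv_lhs => rw [← x.coe_valMinAbs, ZMod.toAddCircle_intCast]
  refine AddCircle.equivIoc_coe_of_mem ⟨?_, ?_⟩
  · rw [lt_div_iff₀ n0]; linarith
  · rw [div_le_iff₀ n0]; linarith

omit [MeasurableSpace SU2] [BorelSpace SU2] in
theorem zoom_site (d : ℝ) (f : R4 → ℝ) (x : Fin 4 → ZMod n) :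
    zoom d f (fun i => ZMod.toAddCircle (x i)) =
      f (WithLp.toLp 2 fun i => (n * d)⁻¹ * (lift x i : ℝ)) := by
  simp only [zoom, rep_toAddCircle, lift]
  congr 2
  funext i
  rw [div_div, div_eq_inv_mul]

end Pool.Agent.Lib.MP_7f377f_mp.YM5
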