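import Pool.Agent.Lib.MP_7f377f_mp.InfA

/-! Sizes of sources, multilinear bounds and perturbations. -/

noncomputable section

namespace Pool.Agent.Lib.MP_7f377f_mp.YM7

open MeasureTheory Weak

set_option linter.unusedSectionVars false

variable {n k : ℕ}

/-- sources of size `L` -/
def Sz (L a τ : ℝ) (F : Src n) : Prop :=
  ∃ g : Site 4 n → ℝ, (∀ x, |g x| ≤ L) ∧ (∀ x l, |g (x + Pi.single l 1) - g x| ≤ L * a) ∧
    ∀ x i j, |F x i j - g x| ≤ L * τ

theorem Sz.nonneg {L a τ : ℝ} {F : Src n} (h : Sz L a τ F) : 0 ≤ L :=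
  (abs_nonneg _).trans (h.choose_spec.1 0)

theorem Sz.zero {a τ : ℝ} {F : Src n} (h : Sz 0 a τ F) : F = 0 := by
  obtain ⟨g, h1, -, h3⟩ := h
  funext x i j
  have := h3 x i j
  rwa [abs_nonpos_iff.1 (h1 x), sub_zero, zero_mul, abs_nonpos_iff] at this

theorem Sz.nrm {L a τ : ℝ} {F : Src n} (h : Sz L a τ F) (hL : 0 < L) : Nrm a τ (L⁻¹ • F) := by
  obtain ⟨g, h1, h2, h3⟩ := h
  have e : ∀ u v : ℝ, |u| ≤ L * v → |L⁻¹ * u| ≤ v := fun u v h => by
    rwa [abs_mul, abs_of_pos (inv_pos.2 hL), inv_mul_le_iff₀ hL]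
  exact ⟨fun x => L⁻¹ * g x, fun x => e _ _ (by rw [mul_one]; exact h1 x),
    fun x l => (mul_sub L⁻¹ _ _) ▸ e _ _ (h2 x l), fun x i j => (mul_sub L⁻¹ _ _) ▸ e _ _ (h3 x i j)⟩

theorem Nrm.sz {a τ : ℝ} {F : Src n} (h : Nrm a τ F) : Sz 1 a τ F := by
  simpa only [Sz, Nrm, one_mul] using h

theorem Sz.mono {L L' a τ : ℝ} {F : Src n} (h : Sz L a τ F) (hL : L ≤ L') (ha : 0 ≤ a)
    (hτ : 0 ≤ τ) : Sz L' a τ F := by
  obtain ⟨g, h1, h2, h3⟩ := h
  exact ⟨g, fun x => (h1 x).trans hL, fun x l => (h2 x l).trans (by gcongr),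
    fun x i j => (h3 x i j).trans (by gcongr)⟩

theorem sz_small {L a τ : ℝ} {F : Src n} (hL : 0 ≤ L) (ha : 0 ≤ a)
    (h : ∀ x i j, |F x i j| ≤ L * τ) : Sz L a τ F :=
  ⟨0, fun _ => by simpa, fun _ _ => by simp [mul_nonneg hL ha], fun x i j => by simpa using h x i j⟩

theorem sz_site {L a τ : ℝ} {g : Site 4 n → ℝ} (hτ : 0 ≤ τ) (h1 : ∀ x, |g x| ≤ L)
    (h2 : ∀ x l, |g (x + Pi.single l 1) - g x| ≤ L * a) : Sz L a τ fun x _ _ => g x :=
  ⟨g, h1, h2, fun x _ _ => by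
    rw [sub_self, abs_zero]; exact mul_nonneg ((abs_nonneg _).trans (h1 x)) hτ⟩

theorem Sz.shift {L a τ : ℝ} {F : Src n} (h : Sz L a τ F) (s : Site 4 n) :
    Sz L a τ fun x => F (x - s) := by
  obtain ⟨g, h1, h2, h3⟩ := h
  exact ⟨fun x => g (x - s), fun x => h1 _, fun x l => by
    simpa only [add_sub_right_comm] using h2 (x - s) l, fun x i j => h3 _ i j⟩

theorem Sz.add {L L' a τ : ℝ} {F G : Src n} (h : Sz L a τ F) (h' : Sz L' a τ G) :
    Sz (L + L') a τ (F + G) := by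
  obtain ⟨g, h1, h2, h3⟩ := h
  obtain ⟨g', h4, h5, h6⟩ := h'
  refine ⟨g + g', fun x => (abs_add_le _ _).trans (add_le_add (h1 x) (h4 x)), fun x l => ?_,
    fun x i j => ?_⟩
  · rw [Pi.add_apply, Pi.add_apply, add_sub_add_comm, add_mul]
    exact (abs_add_le _ _).trans (add_le_add (h2 x l) (h5 x l))
  · simp only [Pi.add_apply]
    rw [add_sub_add_comm, add_mul]
    exact (abs_add_le _ _).trans (add_le_add (h3 x i j) (h6 x i j))

/-- product with a slowly varying function bounded by one -/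
theorem Sz.mul {L M a τ : ℝ} {F : Src n} (h : Sz L a τ F) {φ : Site 4 n → ℝ} (hM : 0 ≤ M)
    (hτ : 0 ≤ τ) (h1 : ∀ x, |φ x| ≤ 1) (h2 : ∀ x l, |φ (x + Pi.single l 1) - φ x| ≤ M * a) :
    Sz (L * (1 + M)) a τ fun x i j => φ x * F x i j := by
  have L0 := h.nonneg
  obtain ⟨g, h3, h4, h5⟩ := h
  have e : ∀ x (u v : ℝ), |u| ≤ v → |φ x * u| ≤ v := fun x u v h => by
    rw [abs_mul]
    exact (mul_le_of_le_one_left (abs_nonneg _) (h1 x)).trans h
  refine ⟨fun x => φ x * g x, fun x => (e x _ _ (h3 x)).trans (by nlinarith), fun x l => ?_,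
    fun x i j => ?_⟩
  · have h6 := e (x + Pi.single l 1) _ _ (h4 x l)
    have h7 : |(φ (x + Pi.single l 1) - φ x) * g x| ≤ M * a * L := by
      rw [abs_mul]
      exact mul_le_mul (h2 x l) (h3 x) (abs_nonneg _) ((abs_nonneg _).trans (h2 x l))
    rw [abs_le] at h6 h7 ⊢
    constructor <;> linarith [h6.1, h6.2, h7.1, h7.2]
  · rw [← mul_sub]
    exact (e x _ _ (h5 x i j)).trans (by nlinarith [mul_nonneg (mul_nonneg L0 hM) hτ])

/-- the source lives on a set of sites -/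
def On (s : Set (Site 4 n)) (F : Src n) : Prop := ∀ x i j, F x i j ≠ 0 → x ∈ s

theorem On.sub {s : Set (Site 4 n)} {F G : Src n} (h : On s F) (h' : On s G) : On s (F - G) := by
  intro x i j hx
  by_contra hs
  refine hx ?_
  simp only [Pi.sub_apply]
  rw [of_not_not fun e => hs (h x i j e), of_not_not fun e => hs (h' x i j e), sub_zero]

variable [NeZero n] [MeasurableSpace SU2] [BorelSpace SU2] (h : Measure SU2) [h.IsHaarMeasure]
  [IsProbabilityMeasure h] (b : ℝ)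

/-- a bound for normalised sources living on given sets -/
def Bnd (a τ C : ℝ) (s : Fin k → Set (Site 4 n)) : Prop :=
  ∀ F : Fin k → Src n, (∀ i, Nrm a τ (F i)) → (∀ i, On (s i) (F i)) → |gcorr h b n F| ≤ C

variable {h b}

theorem Bnd.sz {a τ C : ℝ} {s : Fin k → Set (Site 4 n)} (hB : Bnd h b a τ C s) {L : Fin k → ℝ}
    {F : Fin k → Src n} (h1 : ∀ i, Sz (L i) a τ (F i)) (h2 : ∀ i, On (s i) (F i)) :
    |gcorr h b n F| ≤ C * ∏ i, L i := by
  by_cases hL : ∀ i, 0 < L i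
  · have h3 := hB (fun i => (L i)⁻¹ • F i) (fun i => (h1 i).nrm (hL i))
      fun i x μ ν hx => h2 i x μ ν (right_ne_zero_of_mul hx)
    have h4 : 0 < ∏ i, L i := Finset.prod_pos fun i _ => hL i
    rwa [← gM_apply, MultilinearMap.map_smul_univ, gM_apply, Finset.prod_inv_distrib, smul_eq_mul,
      abs_mul, abs_of_pos (inv_pos.2 h4), inv_mul_le_iff₀ h4, mul_comm] at h3
  · obtain ⟨i, hi⟩ := not_forall.1 hL
    have h0 : L i = 0 := le_antisymm (not_lt.1 hi) (h1 i).nonneg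
    rw [← gM_apply, (gM h b k).map_coord_zero i (Sz.zero (h0 ▸ h1 i)),
      Finset.prod_eq_zero (Finset.mem_univ i) h0, mul_zero, abs_zero]

theorem Bnd.pert {a τ C L ε : ℝ} {s : Fin k → Set (Site 4 n)} (hB : Bnd h b a τ C s) (hC : 0 ≤ C)
    (hL : 0 ≤ L) (ε0 : 0 ≤ ε) (ε1 : ε ≤ 1) {F G : Fin k → Src n} (h1 : ∀ i, Sz L a τ (G i))
    (h2 : ∀ i, Sz (ε * L) a τ (F i - G i)) (h3 : ∀ i, On (s i) (F i)) (h4 : ∀ i, On (s i) (G i)) :
    |gcorr h b n F - gcorr h b n G| ≤ 2 ^ k * (C * L ^ k) * ε := by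
  have e : F = (F - G) + G := (sub_add_cancel F G).symm
  rw [← gM_apply, ← gM_apply, e, MultilinearMap.map_add_univ,
    ← Finset.add_sum_erase _ _ (Finset.mem_univ ∅), Finset.piecewise_empty, add_sub_cancel_left]
  refine (Finset.abs_sum_le_sum_abs _ _).trans
    ((Finset.sum_le_card_nsmul _ _ (C * L ^ k * ε) fun t ht => ?_).trans ?_)
  · rw [gM_apply]
    refine (hB.sz (L := t.piecewise (fun _ => ε * L) fun _ => L) (fun i => ?_) fun i => ?_).trans ?_
    · by_cases hi : i ∈ t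
      · rw [t.piecewise_eq_of_mem _ _ hi, t.piecewise_eq_of_mem _ _ hi]; exact h2 i
      · rw [t.piecewise_eq_of_notMem _ _ hi, t.piecewise_eq_of_notMem _ _ hi]; exact h1 i
    · by_cases hi : i ∈ t
      · rw [t.piecewise_eq_of_mem _ _ hi]; exact (h3 i).sub (h4 i)
      · rw [t.piecewise_eq_of_notMem _ _ hi]; exact h4 i
    · rw [mul_assoc]
      refine mul_le_mul_of_nonneg_left ?_ hC
      rw [Finset.prod_piecewise, Finset.univ_inter, Finset.prod_const, Finset.prod_const, mul_pow,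
        mul_assoc, ← pow_add, Finset.card_sdiff_of_subset t.subset_univ, Finset.card_univ,
        Nat.add_sub_cancel' t.card_le_univ, Fintype.card_fin, mul_comm]
      exact mul_le_mul_of_nonneg_left (pow_le_of_le_one ε0 ε1
        (Finset.card_ne_zero.2 (Finset.nonempty_iff_ne_empty.2 (Finset.ne_of_mem_erase ht))))
        (pow_nonneg hL k)
  · rw [nsmul_eq_mul, mul_assoc (2 ^ k)]
    refine mul_le_mul_of_nonneg_right ?_ (by positivity)
    have := Finset.card_erase_le (s := (Finset.univ : Finset (Finset (Fin k)))) (a := ∅)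
    rw [Finset.card_univ, Fintype.card_finset, Fintype.card_fin] at this
    exact_mod_cast this

theorem Bnd.mono {a τ C C' : ℝ} {s : Fin k → Set (Site 4 n)} (hB : Bnd h b a τ C s) (hC : C ≤ C') :
    Bnd h b a τ C' s := fun F h1 h2 => (hB F h1 h2).trans hC

end Pool.Agent.Lib.MP_7f377f_mp.YM7
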