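import Pool.Agent.Lib.MP_7f377f_mp.InfB

/-! From cells to general separated supports: partition of unity and shift of the grid. -/

noncomputable section

namespace Pool.Agent.Lib.MP_7f377f_mp.YM7

open MeasureTheory Filter Topology Weak

set_option linter.unusedSectionVars false

variable {n k : ℕ}

theorem exists_residue (c : Fin k → ℤ) : ∃ j : ℤ, 0 ≤ j ∧ j < 3 * k + 1 ∧
    ∀ i, 2 ≤ (c i + j) % (3 * k + 1) ∧ (c i + j) % (3 * k + 1) ≤ 3 * k - 1 := by
  obtain ⟨j, hj, h⟩ := Finset.exists_mem_notMem_of_card_lt_card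
    (s := Finset.univ.image fun p : Fin k × Fin 3 => ((p.2 : ℤ) - 1 - c p.1) % (3 * k + 1))
    (t := Finset.Ico (0 : ℤ) (3 * k + 1)) (Finset.card_image_le.trans_lt (by simp; omega))
  rw [Finset.mem_Ico] at hj
  refine ⟨j, hj.1, hj.2, fun i => ?_⟩
  have key : ∀ t : Fin 3, ¬ (3 * k + 1 : ℤ) ∣ c i + j - (t - 1) := fun t ht =>
    h (Finset.mem_image.2 ⟨(i, t), Finset.mem_univ _, by
      rw [← Int.emod_eq_of_lt hj.1 hj.2]
      exact (Int.emod_emod_of_dvd _ dvd_rfl).symm.trans ((Int.emod_emod_of_dvd _ dvd_rfl).trans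
        (Int.modEq_of_dvd (by rwa [show j - ((t : ℤ) - 1 - c i) = c i + j - (t - 1) by ring])))⟩)
  have h1 := Int.emod_nonneg (c i + j) (show (3 * k + 1 : ℤ) ≠ 0 by omega)
  have h2 := Int.emod_lt_of_pos (c i + j) (show (0 : ℤ) < 3 * k + 1 by omega)
  have h3 := Int.mul_ediv_add_emod (c i + j) (3 * k + 1)
  generalize (c i + j) % (3 * k + 1) = r at *
  generalize (c i + j) / (3 * k + 1) = q at *
  have h4 : r ≠ 0 := fun e => key 1 ⟨q, by simp [← h3, e]⟩
  have h5 : r ≠ 1 := fun e => key 2 ⟨q, by simp [← h3, e]⟩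
  have h6 : r ≠ 3 * k := fun e => key 0 ⟨q + 1, by simp [← h3, e]; ring⟩
  omega

/-- the ramp function -/
def ramp (t : ℝ) : ℝ := max 0 (min 1 t)

/-- the hat function -/
def hat (t : ℝ) : ℝ := ramp (t + 1) - ramp t

theorem ramp_lip (s t : ℝ) : |ramp s - ramp t| ≤ |s - t| := by
  refine (abs_max_sub_max_le_max _ _ _ _).trans (max_le (by simp) ?_)
  exact (abs_min_sub_min_le_max _ _ _ _).trans (max_le (by simp) le_rfl)

theorem ramp_one {t : ℝ} (h : 1 ≤ t) : ramp t = 1 := by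
  rw [ramp, min_eq_left h, max_eq_right zero_le_one]

theorem ramp_zero {t : ℝ} (h : t ≤ 0) : ramp t = 0 :=
  max_eq_left ((min_le_right _ _).trans h)

theorem abs_hat (t : ℝ) : |hat t| ≤ 1 := by simpa [hat] using ramp_lip (t + 1) t

theorem hat_lip (s t : ℝ) : |hat s - hat t| ≤ 2 * |s - t| := by
  have h1 := ramp_lip (s + 1) (t + 1)
  rw [add_sub_add_right_eq_sub] at h1
  rw [hat, hat, sub_sub_sub_comm, two_mul]
  exact (abs_sub _ _).trans (add_le_add h1 (ramp_lip s t))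

theorem hat_supp {t : ℝ} (h : hat t ≠ 0) : |t| ≤ 1 := by
  by_contra h1
  rcases lt_abs.1 (not_le.1 h1) with h2 | h2
  · exact h (by rw [hat, ramp_one h2.le, ramp_one (by linarith), sub_self])
  · exact h (by rw [hat, ramp_zero (by linarith), ramp_zero (by linarith), sub_self])

theorem sum_hat {D : ℕ} {t : ℝ} (h : |t| ≤ D) :
    ∑ j : Fin (2 * D + 1), hat (t - (((j : ℤ) - D : ℤ) : ℝ)) = 1 := by
  have := Finset.sum_range_sub' (fun j : ℕ => ramp (t + D + 1 - j)) (2 * D + 1)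
  rw [abs_le] at h
  rw [ramp_one (by push_cast; linarith), ramp_zero (by push_cast; linarith), sub_zero,
    ← Fin.sum_univ_eq_sum_range fun j => ramp (t + D + 1 - j) - ramp (t + D + 1 - (j + 1 : ℕ))]
    at this
  rw [← this]
  refine Finset.sum_congr rfl fun j _ => ?_
  rw [hat]
  congr 2 <;> push_cast <;> ring

/-- the product of hat functions centred at `η c` -/
def bump (η : ℝ) (c : Fin 4 → ℤ) (y : R4) : ℝ := ∏ l, hat (y l / η - c l)

theorem abs_prod_hat (s : Finset (Fin 4)) (u : Fin 4 → ℝ) : |∏ l ∈ s, hat (u l)| ≤ 1 := by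
  rw [Finset.abs_prod]
  exact Finset.prod_le_one (fun _ _ => abs_nonneg _) fun _ _ => abs_hat _

theorem bump_lip {η : ℝ} (hη : 0 < η) (c : Fin 4 → ℤ) (y : R4) (l : Fin 4) (t : ℝ) :
    |bump η c (y + EuclideanSpace.single l t) - bump η c y| ≤ 2 / η * |t| := by
  have e : ∏ i ∈ Finset.univ.erase l, hat ((y + EuclideanSpace.single l t : R4) i / η - c i) =
      ∏ i ∈ Finset.univ.erase l, hat (y i / η - c i) := Finset.prod_congr rfl fun i hi => by
    simp [Finset.ne_of_mem_erase hi]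
  rw [bump, bump, ← Finset.mul_prod_erase _ _ (Finset.mem_univ l),
    ← Finset.mul_prod_erase _ _ (Finset.mem_univ l), e, ← sub_mul, abs_mul]
  refine (mul_le_of_le_one_right (abs_nonneg _) (abs_prod_hat _ _)).trans
    ((hat_lip _ _).trans_eq ?_)
  rw [sub_sub_sub_cancel_right, ← sub_div, abs_div, abs_of_pos hη]
  simp only [PiLp.add_apply, PiLp.single_apply, if_true, add_sub_cancel_left]
  ring

theorem bump_supp {η : ℝ} (hη : 0 < η) {c : Fin 4 → ℤ} {y : R4} (h : bump η c y ≠ 0) (l : Fin 4) :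
    |y l - η * c l| ≤ η := by
  have := hat_supp (Finset.prod_ne_zero_iff.1 h l (Finset.mem_univ l))
  rwa [div_sub' hη.ne', abs_div, abs_of_pos hη, div_le_one hη] at this

theorem sum_bump {η : ℝ} (hη : 0 < η) {D : ℕ} {y : R4} (h : ∀ l, |y l| ≤ η * D) :
    ∑ z : Fin 4 → Fin (2 * D + 1), bump η (fun l => z l - D) y = 1 := by
  simp only [bump]
  rw [← Fintype.prod_sum fun (l : Fin 4) (j : Fin (2 * D + 1)) =>
    hat (y l / η - (((j : ℤ) - D : ℤ) : ℝ))]
  refine Finset.prod_eq_one fun l _ => sum_hat ?_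
  rw [abs_div, abs_of_pos hη, div_le_iff₀' hη]
  exact h l

/-- position of a site -/
def xp (a : ℝ) (x : Site 4 n) : R4 := WithLp.toLp 2 fun l => a * (x l).valMinAbs

variable [NeZero n]

theorem vma_add {x : ZMod n} {s : ℤ} (h : |x.valMinAbs + s| * 2 < n) :
    (x + s).valMinAbs = x.valMinAbs + s := by
  rw [← vma_cast (L := n) (z := x.valMinAbs + s) (by linarith [neg_abs_le (x.valMinAbs + s)])
    (by linarith [le_abs_self (x.valMinAbs + s)])]
  simp

theorem grad_site {f : R4 → ℝ} {L ρ a : ℝ} (hL : 0 ≤ L)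
    (hf : ∀ y l t, |f (y + EuclideanSpace.single l t) - f y| ≤ L * |t|)
    (hs : ∀ y, f y ≠ 0 → ∀ l, |y l| ≤ ρ) (ha : 0 < a) (hn : 2 * ρ + 2 * a < a * n) (x : Site 4 n)
    (l : Fin 4) : |f (xp a (x + Pi.single l 1)) - f (xp a x)| ≤ L * a := by
  have h1 := (x l).valMinAbs_mem_Ioc
  by_cases h : ((x l).valMinAbs + 1) * 2 ≤ n
  · have e : xp a (x + Pi.single l 1) = xp a x + EuclideanSpace.single l a := by
      ext i
      by_cases hi : i = l
      · simp [xp, hi, vma_add_one _ h, mul_add]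
      · simp [xp, hi]
    rw [e]
    exact (hf _ _ _).trans_eq (by rw [abs_of_pos ha])
  · have n1 := NeZero.pos n
    have h2 : (n : ℝ) < ((x l).valMinAbs + 1) * 2 := by exact_mod_cast not_le.1 h
    have h3 : ((x l).valMinAbs * 2 : ℝ) ≤ n := by exact_mod_cast h1.2
    have e : (x l + 1).valMinAbs = (x l).valMinAbs + 1 - n := by
      rw [← vma_cast (L := n) (z := (x l).valMinAbs + 1 - n) (by omega) (by linarith [h1.2])]
      simp
    rw [of_not_not (a := f (xp a (x + Pi.single l 1)) = 0) fun h4 => ?_,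
      of_not_not (a := f (xp a x) = 0) fun h4 => ?_, sub_self, abs_zero]
    · positivity
    · have h5 : |a * (x l).valMinAbs| ≤ ρ := hs _ h4 l
      nlinarith [le_abs_self (a * (x l).valMinAbs)]
    · have h5 := (abs_le.1 (hs _ h4 l)).1
      simp only [xp, Pi.add_apply, Pi.single_eq_same, e] at h5
      push_cast at h5
      nlinarith

theorem dist_le_two {y z : R4} {w : ℝ} (h : ∀ l, |y l - z l| ≤ w) : dist y z ≤ 2 * w := by
  have w0 : 0 ≤ w := (abs_nonneg _).trans (h 0)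
  rw [EuclideanSpace.dist_eq]
  refine Real.sqrt_le_iff.2 ⟨by positivity, ?_⟩
  refine (Finset.sum_le_card_nsmul _ _ (w ^ 2) fun l _ =>
    pow_le_pow_left₀ dist_nonneg (h l) 2).trans_eq ?_
  simp only [Finset.card_univ, Fintype.card_fin, nsmul_eq_mul, Nat.cast_ofNat]
  ring

variable [MeasurableSpace SU2] [BorelSpace SU2] (h : Measure SU2) [h.IsHaarMeasure]
  [IsProbabilityMeasure h]

theorem piece {a b τ η w C δ : ℝ} {D : ℕ} (hη : 0 < η) (hw : w = η * (3 * k + 1)) (hδ : 2 * w < δ)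
    (ha : 0 < a) (haη : a ≤ η / 2) (hn : 2 * η * (D + 1) + 2 * w + η < a * n) (hC : 0 ≤ C)
    (H : ∀ (c : Fin k → Fin 4 → ℤ) (F : Fin k → Src n), Function.Injective c →
      (∀ i l, |c i l| ≤ (D + (3 * k + 1) : ℕ)) → (∀ i, Nrm a τ (F i)) →
      (∀ i, InCell a w (η / 2) (c i) (F i)) → |gcorr h b n F| ≤ C)
    {c : Fin k → Fin 4 → ℤ} (hc : ∀ i l, |c i l| ≤ D) {G : Fin k → Src n} {L : ℝ} (hL : 0 ≤ L)
    (h1 : ∀ i, Sz L a τ (G i))
    (h2 : ∀ i x μ ν, G i x μ ν ≠ 0 → ∀ l, |a * (x l).valMinAbs - η * c i l| ≤ η)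
    (h3 : ∀ i j, i ≠ j → ∀ x μ ν y μ' ν', G i x μ ν ≠ 0 → G j y μ' ν' ≠ 0 →
      δ ≤ dist (xp a x) (xp a y)) : |gcorr h b n G| ≤ C * L ^ k := by
  by_cases h0 : ∃ i, G i = 0
  · obtain ⟨i, hi⟩ := h0
    rw [← gM_apply, (gM h b k).map_coord_zero i hi, abs_zero]
    positivity
  choose j j0 j1 hj using fun l => exists_residue fun i => c i l
  have w0 : 0 < w := by rw [hw]; positivity
  obtain ⟨s, s1, s2⟩ : ∃ s : Fin 4 → ℤ, (∀ l, a * s l ≤ η * j l) ∧
      ∀ l, η * j l < a * (s l + 1) :=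
    ⟨fun l => ⌊η * j l / a⌋, fun l => (le_div_iff₀' ha).1 (Int.floor_le _), fun l =>
      (div_lt_iff₀' ha).1 (Int.lt_floor_add_one _)⟩
  have key : ∀ i x μ ν, G i x μ ν ≠ 0 → ∀ l,
      ((c i l + j l) / (3 * k + 1) : ℤ) * w + η / 2 ≤ a * ((x l).valMinAbs + s l) ∧
      a * ((x l).valMinAbs + s l) ≤ (((c i l + j l) / (3 * k + 1) : ℤ) + 1) * w - η / 2 := by
    intro i x μ ν hx l
    have e1 : ((3 * k + 1) * ((c i l + j l) / (3 * k + 1) : ℤ) +
        ((c i l + j l) % (3 * k + 1) : ℤ) : ℝ) = c i l + j l := by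
      exact_mod_cast Int.mul_ediv_add_emod (c i l + j l) (3 * k + 1)
    have e2 : (2 : ℝ) ≤ ((c i l + j l) % (3 * k + 1) : ℤ) := by exact_mod_cast (hj l i).1
    have e3 : (((c i l + j l) % (3 * k + 1) : ℤ) : ℝ) ≤ 3 * k - 1 := by exact_mod_cast (hj l i).2
    have e4 := abs_le.1 (h2 i x μ ν hx l)
    have e5 := congrArg (η * ·) e1
    have e6 := mul_le_mul_of_nonneg_left e2 hη.le
    have e7 := mul_le_mul_of_nonneg_left e3 hη.le
    rw [hw]
    constructor <;> linarith [s1 l, s2 l, e4.1, e4.2]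
  rw [← gcorr_shift h b G fun l => s l, ← Fin.prod_const]
  refine Bnd.sz (s := fun i => {x | ∀ l, ((c i l + j l) / (3 * k + 1) : ℤ) * w + η / 2 ≤
      a * (x l).valMinAbs ∧ a * (x l).valMinAbs ≤
        (((c i l + j l) / (3 * k + 1) : ℤ) + 1) * w - η / 2})
    (fun F => H (fun i l => (c i l + j l) / (3 * k + 1)) F (fun i i' e => ?_) fun i l => ?_)
    (fun i => (h1 i).shift _) fun i x μ ν hx l => ?_
  · by_contra hi
    simp only [not_exists, funext_iff, not_forall] at h0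
    obtain ⟨x, μ, ν, hx⟩ := h0 i
    obtain ⟨y, μ', ν', hy⟩ := h0 i'
    refine (h3 i i' hi x μ ν y μ' ν' hx hy).not_gt ((dist_le_two fun l => ?_).trans_lt hδ)
    have e1 := key i x μ ν hx l
    have e2 := key i' y μ' ν' hy l
    rw [show (c i l + j l) / (3 * k + 1) = (c i' l + j l) / (3 * k + 1) from congrFun e l] at e1
    simp only [xp]
    rw [abs_le]
    constructor <;> linarith [e1.1, e1.2, e2.1, e2.2]
  · have e1 := abs_le.1 (hc i l)
    have e2 := j0 l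
    have e3 := j1 l
    refine (Int.abs_ediv_le_abs _ _).trans ?_
    rw [abs_le]
    push_cast
    constructor <;> linarith [e1.1, e1.2]
  · have e1 := key i _ μ ν hx l
    have e2 := abs_le.1 (h2 i _ μ ν hx l)
    have e3 : |(c i l : ℝ)| ≤ D := by exact_mod_cast hc i l
    have e4 : (0 : ℝ) ≤ j l := by exact_mod_cast j0 l
    have e5 : (j l : ℝ) ≤ 3 * k + 1 := by exact_mod_cast (j1 l).le
    have e6 := mul_le_mul_of_nonneg_left e5 hη.le
    have e7 := mul_le_mul_of_nonneg_left (abs_le.1 e3).1 hη.le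
    have e8 := mul_le_mul_of_nonneg_left (abs_le.1 e3).2 hη.le
    have e9 : (x l).valMinAbs = (x l - s l).valMinAbs + s l := by
      rw [← vma_add, sub_add_cancel]
      have : (|(x l - s l).valMinAbs + (s l : ℝ)| * 2 : ℝ) < n := by
        refine lt_of_mul_lt_mul_left ?_ ha.le
        rw [← mul_assoc, ← abs_of_pos ha, ← abs_mul, abs_of_pos ha, ← lt_div_iff₀ two_pos, abs_lt]
        simp only [Pi.sub_apply] at e2
        constructor <;> linarith [s1 l, s2 l, e2.1, e2.2, mul_nonneg hη.le e4]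
      exact_mod_cast this
    rw [e9]
    push_cast
    exact e1

variable {ι : Type} (Φ : Filter ι) (n : ι → ℕ) [∀ p, NeZero (n p)] (a b τ : ι → ℝ)

/-- uniform bound for normalised sources with separated supports in a cube -/
def Bd7 : Prop := ∀ (k : ℕ) (R δ : ℝ), 0 < δ → ∃ C : ℝ, 0 ≤ C ∧ ∀ᶠ p in Φ,
  ∀ F : Fin k → Src (n p), (∀ i, Nrm (a p) (τ p) (F i)) →
    (∀ i x μ ν, F i x μ ν ≠ 0 → ∀ l, |xp (a p) x l| ≤ R) →
    (∀ i j, i ≠ j → ∀ x μ ν y μ' ν', F i x μ ν ≠ 0 → F j y μ' ν' ≠ 0 →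
      δ ≤ dist (xp (a p) x) (xp (a p) y)) → |gcorr h (b p) (n p) F| ≤ C

variable {h Φ n a b τ}

theorem Fam.pos (hF : Fam Φ n a b τ) : ∀ᶠ p in Φ, 0 < a p ∧ 0 < τ p := by
  filter_upwards [hF.a0.eventually self_mem_nhdsWithin, hF.tau.eventually_gt_atTop 0] with p h1 h2
  exact ⟨h1, (div_pos_iff_of_pos_right h1).1 h2⟩

theorem Fam.small (hF : Fam Φ n a b τ) {r : ℝ} (hr : 0 < r) : ∀ᶠ p in Φ, a p ≤ r :=
  (hF.a0.mono_right nhdsWithin_le_nhds).eventually_le_const hr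

theorem Cell.bd7 (hC : Cell h Φ n a b τ) (hF : Fam Φ n a b τ) : Bd7 h Φ n a b τ := by
  intro k R δ δ0
  obtain ⟨e, he⟩ := exists_pow_lt_of_lt_one (half_pos δ0) (show (3⁻¹ : ℝ) < 1 by norm_num)
  obtain ⟨η, hη⟩ : ∃ η : ℝ, η = (3 ^ e)⁻¹ / (3 * k + 1) := ⟨_, rfl⟩
  have η0 : 0 < η := by rw [hη]; positivity
  have hw : (3 ^ e)⁻¹ = η * (3 * k + 1) := by rw [hη, div_mul_cancel₀ _ (by positivity)]
  obtain ⟨D, hD⟩ := exists_nat_ge (R / η)
  rw [div_le_iff₀' η0] at hD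
  obtain ⟨C, hC⟩ := hC k e (D + (3 * k + 1)) _ (half_pos η0)
  refine ⟨∑ _z : Fin k → Fin 4 → Fin (2 * D + 1), max C 0 * (1 * (1 + 2 / η)) ^ k,
    by positivity, ?_⟩
  filter_upwards [hC, hF.pos, hF.small (half_pos η0),
    hF.vol.eventually_gt_atTop (2 * η * (D + 1) + 2 * (3 ^ e)⁻¹ + η)] with p h1 h2 h3 h4 F h5 h6 h7
  have e1 : F = fun i => ∑ z : Fin 4 → Fin (2 * D + 1),
      fun x μ ν => bump η (fun l => z l - D) (xp (a p) x) * F i x μ ν := by
    funext i x μ ν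
    simp only [Finset.sum_apply, ← Finset.sum_mul]
    by_cases hx : F i x μ ν = 0
    · rw [hx, mul_zero]
    · rw [sum_bump η0 fun l => (h6 i x μ ν hx l).trans hD, one_mul]
  have hz : ∀ j : Fin (2 * D + 1), |(j : ℤ) - D| ≤ D := fun j => by
    have := j.2
    rw [abs_le]
    omega
  rw [← gM_apply, e1, MultilinearMap.map_sum]
  refine (Finset.abs_sum_le_sum_abs _ _).trans (Finset.sum_le_sum fun z _ => ?_)
  rw [gM_apply]
  refine piece h η0 hw (by rw [← inv_pow]; linarith) h2.1 h3 h4 (le_max_right _ _)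
    (fun c F u1 u2 u3 u4 => (h1 c F u1 u2 u3 u4).trans (le_max_left _ _))
    (c := fun i l => z i l - D) (fun i l => hz _) (by positivity)
    (fun i => (h5 i).sz.mul (by positivity) h2.2.le (fun x => abs_prod_hat _ _)
      (grad_site (ρ := η * (D + 1)) (by positivity) (bump_lip η0 _) (fun y hy l => ?_) h2.1 ?_))
    (fun i x μ ν hx => bump_supp η0 (left_ne_zero_of_mul hx))
    fun i j hij x μ ν y μ' ν' hx hy =>
      h7 i j hij x μ ν y μ' ν' (right_ne_zero_of_mul hx) (right_ne_zero_of_mul hy)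
  · have e2 := abs_le.1 (bump_supp η0 hy l)
    have e3 : |(((z i l : ℤ) - D : ℤ) : ℝ)| ≤ D := by exact_mod_cast hz (z i l)
    have e4 := mul_le_mul_of_nonneg_left (abs_le.1 e3).1 η0.le
    have e5 := mul_le_mul_of_nonneg_left (abs_le.1 e3).2 η0.le
    rw [abs_le]
    constructor <;> linarith [e2.1, e2.2]
  · have : (0 : ℝ) < (3 ^ e)⁻¹ := by positivity
    linarith

end Pool.Agent.Lib.MP_7f377f_mp.YM7
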