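import Pool.Agent.Lib.MP_7f377f_mp.YM7Defs

/-! Plaquette dependent sources: the interface between the renormalisation group and the soft
part of the infinite volume limit. -/

noncomputable section

namespace Pool.Agent.Lib.MP_7f377f_mp.YM7

open MeasureTheory Filter Topology Real

/-- plaquette dependent sources -/
abbrev Src (n : ℕ) : Type := (Fin 4 → ZMod n) → Fin 4 → Fin 4 → ℝ

variable {n k : ℕ}

/-- `2 - tr U_p` -/
def pe (U : Cfg n) (x : Fin 4 → ZMod n) (i j : Fin 4) : ℝ :=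
  2 - 2 * (U (x, i) * U (x + Pi.single i 1, j) * (U (x + Pi.single j 1, i))⁻¹ * (U (x, j))⁻¹).1.re

/-- the field smeared with a plaquette dependent source -/
def gfield [NeZero n] (F : Src n) (U : Cfg n) : ℝ :=
  ∑ x, ∑ i, ∑ j, if i < j then F x i j * pe U x i j else 0

/-- centred correlations -/
def gcorr [MeasurableSpace SU2] (h : Measure SU2) (b : ℝ) (n : ℕ) [NeZero n]
    (F : Fin k → Src n) : ℝ :=
  ∫ U, ∏ i, (gfield (F i) U - ∫ V, gfield (F i) V ∂wilson h b n) ∂wilson h b n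

/-- normalised sources: a slowly varying function of the site plus a small perturbation -/
def Nrm (a τ : ℝ) (F : Src n) : Prop :=
  ∃ g : (Fin 4 → ZMod n) → ℝ, (∀ x, |g x| ≤ 1) ∧ (∀ x l, |g (x + Pi.single l 1) - g x| ≤ a) ∧
    ∀ x i j, |F x i j - g x| ≤ τ

/-- the source lives in the cell `c` of the grid of mesh `w`, at distance `δ` from its walls -/
def InCell (a w δ : ℝ) (c : Fin 4 → ℤ) (F : Src n) : Prop :=
  ∀ x i j, F x i j ≠ 0 → ∀ l, c l * w + δ ≤ a * (x l).valMinAbs ∧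
    a * (x l).valMinAbs ≤ (c l + 1) * w - δ

/-- a family of lattices -/
structure Fam {ι : Type} (Φ : Filter ι) (n : ι → ℕ) (a b τ : ι → ℝ) : Prop where
  a0 : Tendsto a Φ (𝓝[>] 0)
  vol : Tendsto (fun p => a p * n p) Φ atTop
  cpl : Tendsto (fun p => b p / log (a p)⁻¹) Φ (𝓝 (11 / (6 * π ^ 2)))
  tau : Tendsto (fun p => τ p / a p) Φ atTop

variable [MeasurableSpace SU2] (h : Measure SU2) {ι : Type} (Φ : Filter ι) (n : ι → ℕ)
  [∀ p, NeZero (n p)] (a b τ : ι → ℝ)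

/-- uniform bound for sources in different cells -/
def Cell : Prop :=
  ∀ (k e d : ℕ) (δ : ℝ), 0 < δ → ∃ C : ℝ, ∀ᶠ p in Φ, ∀ (c : Fin k → Fin 4 → ℤ)
    (F : Fin k → Src (n p)), Function.Injective c → (∀ i l, |c i l| ≤ d) →
    (∀ i, Nrm (a p) (τ p) (F i)) → (∀ i, InCell (a p) (3 ^ e)⁻¹ δ (c i) (F i)) →
    |gcorr h (b p) (n p) F| ≤ C

/-- the short distance law -/
def Short (K : ℕ) : Prop :=
  ∀ k ≤ K, ∀ f : Fin k → R4 → ℝ, Adm f → ∀ η > 0, ∀ᶠ d in 𝓝[>] (0 : ℝ), ∀ᶠ p in Φ,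
    |log d⁻¹ ^ k * corr h (b p) (n p) (a p) (fun i y => f i (d⁻¹ • y)) -
      (6 / 11) ^ k * ∫ y : Fin k → R4, (∏ i, f i (y i)) * free y| ≤ η

end Pool.Agent.Lib.MP_7f377f_mp.YM7
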