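import Pool.Agent.Lib.MP_7f377f_mp.InfE

/-! The infinite volume limit from uniform bounds. -/

noncomputable section

namespace Pool.Agent.Lib.MP_7f377f_mp.YM7

open MeasureTheory Filter Topology Weak Set Real
open scoped NNReal

set_option linter.unusedSectionVars false

variable [MeasurableSpace SU2] [BorelSpace SU2] {h : Measure SU2} [h.IsHaarMeasure]
  [IsProbabilityMeasure h] {ι : Type} {Φ : Filter ι} {n : ι → ℕ} [∀ p, NeZero (n p)]
  {a b τ : ι → ℝ}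

theorem gram_of (hF : Fam Φ n a b τ) {U : Filter ι} [U.NeBot] (hU : U ≤ Φ)
    {S : ∀ {k : ℕ}, (Fin k → R4 → ℝ) → ℝ} (nr : ∀ {k} {f : Fin k → R4 → ℝ}, Adm f →
      ∀ {F : ∀ p, Fin k → Src (n p)}, (∀ᶠ p in Φ, ∀ i, Near (a p) (F p i) (f i)) →
      Tendsto (fun p => gcorr h (b p) (n p) (F p)) U (𝓝 (S f)))
    (m : ℕ) (c : Fin m → ℝ) (k : Fin m → ℕ) (f : ∀ a, Fin (k a) → R4 → ℝ) (h1 : ∀ a, Adm (f a))
    (h2 : ∀ a i, ∀ y ∈ tsupport (f a i), 0 < y 0) :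
    ∀ t ≥ 0, 0 ≤ gram S c f t ∧ gram S c f t ≤ gram S c f 0 := by
  obtain ⟨R, R0, hR⟩ := (isCompact_iUnion fun j : Σ a, Fin (k a) =>
    ((h1 j.1).1 j.2).1).isBounded.exists_pos_norm_le
  have h3 : ∀ a i, ∀ y ∈ tsupport (f a i), ‖y‖ ≤ R := fun a i y hy =>
    hR y (mem_iUnion.2 ⟨⟨a, i⟩, hy⟩)
  have h4 : ∀ a i, ∀ y ∈ tsupport (f a i), y 0 ≤ R := fun a i y hy =>
    (le_abs_self _).trans ((PiLp.norm_apply_le y 0).trans (h3 a i y hy))
  obtain ⟨φ, hφ⟩ : ∃ φ : ι → ℤ → ℝ, ∀ p s, φ p s = gform h (b p) c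
    (fun u i => src (n p) (a p) (f u i)) fun u i => tr s (src (n p) (a p) (f u i)) :=
    ⟨_, fun _ _ => rfl⟩
  have lim : ∀ t : ℝ, (0 ≤ t ∨ t < -2 * R) → ∀ s : ι → ℤ,
      (∀ᶠ p in Φ, |t - a p * s p| ≤ 5 * a p) →
      Tendsto (fun p => φ p (s p)) U (𝓝 (gram S c f t)) := by
    intro t ht s hs
    simp only [hφ]
    refine tendsto_finsetSum _ fun u _ => tendsto_finsetSum _ fun u' _ => Tendsto.const_mul _
      (nr ((h1 u).theta.append (by simpa only [sub_eq_add_neg] using (h1 u').add _) fun i j =>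
        disjoint_left.2 fun y hy hy' => ?_) ?_)
    · have e1 := tsupport_comp (θ := th) (f := f u i) (thL_eq ▸ thL.continuous) hy
      have e2 := tsupport_comp (θ := fun y => y - EuclideanSpace.single 0 t) (by fun_prop) hy'
      have e3 := h2 u i _ e1
      have e4 := h4 u i _ e1
      have e5 := h2 u' j _ e2
      have e6 := h4 u' j _ e2
      rw [th_zero] at e3 e4
      simp only [PiLp.sub_apply, PiLp.single_apply, if_true] at e5 e6
      rcases ht with ht | ht <;> linarith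
    · filter_upwards [hs, hF.pos, hF.big (2 * (R + |t| + |t|))] with p e1 e2 e3
      refine YM5.forall_append₂ (P := Near (a p)) (fun i => ?_) fun i =>
        near_tr (cube_of (h3 u' i)) e2.1 e1 (by linarith)
      have := near_refl (n := n p) (f := theta (f u i)) (R := R) (fun y hy l =>
        (abs_th y l).symm.trans_le (cube_of (h3 u i) _ hy l)) e2.1 (by linarith [abs_nonneg t])
      rwa [show theta (theta (f u i)) = f u i from funext fun y => congrArg _ (th_th y)] at this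
  have cs : ∀ᶠ p in Φ, ∀ r s : ℕ, r + ⌈(R + 1) / a p⌉₊ + 1 ≤ n p / 2 →
      s + ⌈(R + 1) / a p⌉₊ + 1 ≤ n p / 2 →
      0 ≤ φ p (r + r) ∧ φ p (r + s) ^ 2 ≤ φ p (s + s) * φ p (r + r) := by
    filter_upwards [hF.pos, hF.b0] with p e1 e2 r s hr hs
    have e3 := fun (j : ℕ) hj u i => tr_supp (n := n p) (j := j) e1.1 (R := R + 1) (fun y hy =>
      ⟨h2 u i y (subset_tsupport _ hy), (h4 u i y (subset_tsupport _ hy)).trans (by linarith)⟩) hj
    simp only [hφ, ← gform_tr]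
    exact ⟨gform_nonneg h _ e2 c (e3 r hr), gform_cs h _ e2 c (e3 r hr) (e3 s hs)⟩
  have tm : ∀ t ≥ 0, ∀ᶠ p in Φ, ⌊t / a p⌋₊ + ⌈(R + 1) / a p⌉₊ + 1 ≤ n p / 2 := fun t ht => by
    filter_upwards [hF.pos, hF.big (2 * (t + (R + 1)))] with p e1 e2
    exact tmax e1.1 ht (by linarith) (by linarith)
  have fl : ∀ t ≥ 0, ∀ᶠ p in Φ, 0 < a p ∧ a p * ⌊t / a p⌋₊ ≤ t ∧ t ≤ a p * (⌊t / a p⌋₊ + 1) :=
    fun t ht => hF.pos.mono fun p e => ⟨e.1, (le_div_iff₀' e.1).1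
      (Nat.floor_le (div_nonneg ht e.1.le)), (div_le_iff₀' e.1).1 (Nat.lt_floor_add_one _).le⟩
  have l2 : ∀ t ≥ 0, Tendsto (fun p => φ p (⌊t / a p⌋₊ + ⌊t / a p⌋₊)) U
      (𝓝 (gram S c f (2 * t))) := fun t ht => lim _ (Or.inl (by linarith)) _
    ((fl t ht).mono fun p e => by
      push_cast
      rw [abs_le]
      constructor <;> linarith [e.1, e.2.1, e.2.2])
  have l0 : Tendsto (fun p => φ p ((0 : ℕ) + (0 : ℕ))) U (𝓝 (gram S c f 0)) :=
    lim _ (Or.inl le_rfl) _ (hF.pos.mono fun p e => by simp [e.1.le])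
  have p0 : ∀ t ≥ 0, 0 ≤ gram S c f t := fun t ht => by
    rw [← mul_div_cancel₀ t two_ne_zero]
    refine ge_of_tendsto (l2 _ (by linarith)) (Eventually.filter_mono hU ?_)
    filter_upwards [cs, tm (t / 2) (by linarith)] with p e1 e2
    exact (e1 _ _ e2 e2).1
  refine fun t ht => ⟨p0 t ht, contraction (B := max (gram S c f 0) (gram S c f (-2 * (R + 1))))
    p0 (fun t ht => ?_) (fun t ht => ?_) t ht⟩
  · rw [← mul_div_cancel₀ t two_ne_zero]
    refine le_of_tendsto_of_tendsto (l2 _ (by linarith)) (l0.max (lim _ (Or.inr (by linarith))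
      (fun p => -(2 * ⌈(R + 1) / a p⌉₊ + 2 + (n p % 2 : ℕ))) (hF.pos.mono fun p e => ?_)))
      (Eventually.filter_mono hU ?_)
    · have e1 := (div_le_iff₀' e.1).1 (Nat.le_ceil ((R + 1) / a p))
      have e2 := Nat.ceil_lt_add_one (show 0 ≤ (R + 1) / a p by have := e.1; positivity)
      rw [← sub_lt_iff_lt_add, lt_div_iff₀' e.1] at e2
      have e3 : ((n p % 2 : ℕ) : ℝ) ≤ 1 := by exact_mod_cast Nat.le_of_lt_succ (Nat.mod_lt _ two_pos)
      have e4 := mul_le_mul_of_nonneg_left e3 e.1.le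
      have e5 := mul_nonneg e.1.le (Nat.cast_nonneg (n p % 2))
      generalize n p % 2 = r at *
      push_cast
      rw [abs_le]
      constructor <;> linarith [e.1]
    · filter_upwards [cs, tm (t / 2) (by linarith)] with p e1 e2
      obtain ⟨T, hT⟩ : ∃ T, T + ⌈(R + 1) / a p⌉₊ + 1 = n p / 2 :=
        ⟨n p / 2 - (⌈(R + 1) / a p⌉₊ + 1), by omega⟩
      have e3 := max_principle (χ := fun j => φ p (j + j)) (T := T)
        (e1 0 0 (by omega) (by omega)).1 (fun j hj => by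
          have := (e1 j (j + 2) (by omega) (by omega)).2
          rwa [show (j + (j + 2 : ℕ) : ℤ) = (j + 1 : ℕ) + (j + 1 : ℕ) by push_cast; ring] at this)
        (fun j hj => (e1 j j (by omega) (by omega)).1) ⌊t / 2 / a p⌋₊ (by omega)
      refine e3.trans_eq (congrArg (max _) ?_)
      have e4 : ((T + T : ℤ) : ZMod (n p)) =
          (-(2 * ⌈(R + 1) / a p⌉₊ + 2 + (n p % 2 : ℕ)) : ℤ) := by
        rw [show (T + T : ℤ) = -(2 * ⌈(R + 1) / a p⌉₊ + 2 + (n p % 2 : ℕ)) + n p by omega,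
          Int.cast_add, Int.cast_natCast, ZMod.natCast_self, add_zero]
      simp only [hφ]
      unfold tr
      rw [e4]
  · refine le_of_tendsto_of_tendsto ((lim t (Or.inl ht) (fun p => (0 : ℕ) + ⌊t / a p⌋₊)
      ((fl t ht).mono fun p e => ?_)).pow 2) ((l2 t ht).mul l0) (Eventually.filter_mono hU ?_)
    · push_cast
      rw [abs_le]
      constructor <;> linarith [e.1, e.2.1, e.2.2]
    · filter_upwards [cs, tm t ht] with p e1 e2
      exact (e1 0 _ (by omega) e2).2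

theorem infinite_of_bd [Φ.NeBot] (hF : Fam Φ n a b τ) (hB : Bd7 h Φ n a b τ)
    (hS : ∀ K, Short h Φ n a b K) :
    ∃ (n : ℕ → ℕ+) (a b : ℕ → ℝ) (S : ∀ {k : ℕ}, (Fin k → R4 → ℝ) → ℝ),
      Tendsto a atTop (𝓝[>] 0) ∧ Tendsto (fun j => a j * n j) atTop atTop ∧
      Tendsto (fun j => b j / log (a j)⁻¹) atTop (𝓝 (11 / (6 * π ^ 2))) ∧
      (∀ k (f : Fin k → R4 → ℝ), Adm f →
        Tendsto (fun j => corr h (b j) (n j) (a j) f) atTop (𝓝 (S f)) ∧
        (∀ v, S (fun i y => f i (y + v)) = S f) ∧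
        (∀ σ : Equiv.Perm (Fin 4), S (fun i y => f i (WithLp.toLp 2 (y ∘ σ))) = S f) ∧
        S (fun i => theta (f i)) = S f) ∧
      (∀ k R, ∀ δ > 0, ∃ C, ∀ (f : Fin k → R4 → ℝ) (L : Fin k → NNReal), Adm f →
        (∀ i, LipschitzWith (L i) (f i) ∧ ∀ y, f i y ≠ 0 → ‖y‖ ≤ R) →
        (∀ i j, i ≠ j → ∀ x y, f i x ≠ 0 → f j y ≠ 0 → δ ≤ dist x y) → |S f| ≤ C * ∏ i, L i) ∧
      (∀ (m : ℕ) (c : Fin m → ℝ) (k : Fin m → ℕ) (f : ∀ a, Fin (k a) → R4 → ℝ), (∀ a, Adm (f a)) →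
        (∀ a i, ∀ y ∈ tsupport (f a i), 0 < y 0) → ∀ t ≥ 0,
        0 ≤ gram S c f t ∧ gram S c f t ≤ gram S c f 0) ∧
      (∀ k (f : Fin k → R4 → ℝ), Adm f →
        Tendsto (fun d : ℝ => log d⁻¹ ^ k * S fun i y => f i (d⁻¹ • y)) (𝓝[>] 0)
          (𝓝 ((6 / 11) ^ k * ∫ y : Fin k → R4, (∏ i, f i (y i)) * free y))) ∧
      ∀ y : Fin 2 → R4, y 0 ≠ y 1 → free y = 9 / ‖y 0 - y 1‖ ^ 8 := by
  obtain ⟨U, hU⟩ := Φ.exists_ultrafilter_le
  have cv : ∀ {k} {f : Fin k → R4 → ℝ}, Adm f → Tendsto (fun p => corr h (b p) (n p) (a p) f) U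
      (𝓝 (limUnder U fun p => corr h (b p) (n p) (a p) f)) := fun {k f} hf => by
    obtain ⟨D, q, h1, h2, h3⟩ := hf.data
    obtain ⟨C, hC⟩ := hB.lip hF k D (show 0 < 1 / (q + 1 : ℝ) by positivity)
    exact ultra_lim U (Eventually.filter_mono hU (hC.mono fun p hp => hp f (fun _ => D)
      (fun i => ⟨(h2 i).1, fun y hy => h1 i y (subset_tsupport _ hy)⟩) fun i j hij x y hx hy =>
        h3 i j hij x (subset_tsupport _ hx) y (subset_tsupport _ hy)))
  have nr : ∀ {k} {f : Fin k → R4 → ℝ}, Adm f →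
      ∀ {F : ∀ p, Fin k → Src (n p)}, (∀ᶠ p in Φ, ∀ i, Near (a p) (F p i) (f i)) →
      Tendsto (fun p => gcorr h (b p) (n p) (F p)) U
        (𝓝 (limUnder U fun p => corr h (b p) (n p) (a p) f)) := fun hf F hN => by
    simpa using ((hB.near hF hf hN).mono_left hU).add (cv hf)
  obtain ⟨p, hp, hq⟩ := exists_seq (U : Filter ι) jet (fun p _ f => corr h (b p) (n p) (a p) f.1)
    (fun _ f => limUnder U fun p => corr h (b p) (n p) (a p) f.1) (fun _ f => cv f.2.1)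
    (fun I => (hB.equi hF I).imp fun _ => Exists.imp fun _ e => ⟨e.1, e.2.filter_mono hU⟩)
    (comap a (𝓝[>] 0) ⊓ (comap (fun p => a p * n p) atTop ⊓
      comap (fun p => b p / log (a p)⁻¹) (𝓝 (11 / (6 * π ^ 2)))))
    (hU.trans (le_inf hF.a0.le_comap (le_inf hF.vol.le_comap hF.cpl.le_comap)))
  simp only [tendsto_inf, tendsto_comap_iff] at hp
  refine ⟨fun j => ⟨n (p j), NeZero.pos _⟩, a ∘ p, b ∘ p,
    fun f => limUnder U fun p => corr h (b p) (n p) (a p) f, hp.1, hp.2.1, hp.2.2,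
    fun k f hf => ⟨?_, fun v => ?_, fun σ => ?_, ?_⟩, fun k R δ δ0 => ?_, gram_of hF hU nr,
    fun k f hf => ?_, YM5.free_two⟩
  · by_cases h0 : ∀ i, (tsupport (f i)).Nonempty
    · obtain ⟨D, q, h1⟩ := hf.data
      exact hq (k, D, q) ⟨f, hf, h0, h1⟩
    · obtain ⟨i, hi⟩ := not_forall.1 h0
      rw [not_nonempty_iff_eq_empty, tsupport_eq_empty_iff] at hi
      have e : ∀ p, corr h (b p) (n p) (a p) f = 0 := fun p => by
        rw [corr_eq, ← gM_apply]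
        exact (gM h _ k).map_coord_zero i (by rw [hi]; rfl)
      simp only [e, tendsto_const_nhds.limUnder_eq]
      exact tendsto_const_nhds.congr fun j => (e (p j)).symm
  · obtain ⟨D, q, h1, -⟩ := hf.data
    refine Tendsto.limUnder_eq ((nr hf (F := fun p i x => src (n p) (a p) (fun y => f i (y + v))
      (x - fun l => ((⌊v l / a p⌋ : ℤ) : ZMod (n p)))) ?_).congr fun p => ?_)
    · filter_upwards [hF.pos, hF.big (2 * (D + ‖v‖))] with p e1 e2 i
      refine near_shift (cube_of (h1 i)) e1.1 (fun l => ?_) (PiLp.norm_apply_le v) (by linarith)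
      have e3 := (le_div_iff₀' e1.1).1 (Int.floor_le (v l / a p))
      have e4 := (div_lt_iff₀' e1.1).1 (Int.lt_floor_add_one (v l / a p))
      rw [abs_le]
      constructor <;> linarith [e1.1]
    · rw [gcorr_shift, corr_eq]
      rfl
  · refine congrArg (limUnder (U : Filter ι)) (funext fun p => ?_)
    rw [corr_eq, corr_eq]
    exact gcorr_prm h _ σ fun i x => f i (xp (a p) x)
  · obtain ⟨D, q, h1, -⟩ := hf.data
    refine Tendsto.limUnder_eq ((nr hf (F := fun p i => rF 0 (src (n p) (a p) (theta (f i))))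
      ?_).congr fun p => ?_)
    · filter_upwards [hF.pos, hF.big (2 * D)] with p e1 e2 i
      exact near_refl (cube_of (h1 i)) e1.1 (by linarith)
    · rw [gcorr_refl, corr_eq]
      rfl
  · obtain ⟨C, hC⟩ := hB.lip hF k R δ0
    exact ⟨C, fun f L hf h1 h2 => le_of_tendsto (cv hf).abs
      (Eventually.filter_mono hU (hC.mono fun p hp => hp f L h1 h2))⟩
  · refine Metric.tendsto_nhds.2 fun η hη => ?_
    filter_upwards [hS k k le_rfl f hf _ (half_pos hη), self_mem_nhdsWithin] with d h1 (h2 : 0 < d)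
    exact (le_of_tendsto (((cv (hf.smul (inv_ne_zero h2.ne'))).const_mul _).sub_const _).abs
      (h1.filter_mono hU)).trans_lt (half_lt_self hη)

theorem infinite_of [Φ.NeBot] (hF : Fam Φ n a b τ) (hC : Cell h Φ n a b τ)
    (hS : ∀ K, Short h Φ n a b K) :
    ∃ (n : ℕ → ℕ+) (a b : ℕ → ℝ) (S : ∀ {k : ℕ}, (Fin k → R4 → ℝ) → ℝ),
      Tendsto a atTop (𝓝[>] 0) ∧ Tendsto (fun j => a j * n j) atTop atTop ∧
      Tendsto (fun j => b j / log (a j)⁻¹) atTop (𝓝 (11 / (6 * π ^ 2))) ∧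
      (∀ k (f : Fin k → R4 → ℝ), Adm f →
        Tendsto (fun j => corr h (b j) (n j) (a j) f) atTop (𝓝 (S f)) ∧
        (∀ v, S (fun i y => f i (y + v)) = S f) ∧
        (∀ σ : Equiv.Perm (Fin 4), S (fun i y => f i (WithLp.toLp 2 (y ∘ σ))) = S f) ∧
        S (fun i => theta (f i)) = S f) ∧
      (∀ k R, ∀ δ > 0, ∃ C, ∀ (f : Fin k → R4 → ℝ) (L : Fin k → NNReal), Adm f →
        (∀ i, LipschitzWith (L i) (f i) ∧ ∀ y, f i y ≠ 0 → ‖y‖ ≤ R) →
        (∀ i j, i ≠ j → ∀ x y, f i x ≠ 0 → f j y ≠ 0 → δ ≤ dist x y) → |S f| ≤ C * ∏ i, L i) ∧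
      (∀ (m : ℕ) (c : Fin m → ℝ) (k : Fin m → ℕ) (f : ∀ a, Fin (k a) → R4 → ℝ), (∀ a, Adm (f a)) →
        (∀ a i, ∀ y ∈ tsupport (f a i), 0 < y 0) → ∀ t ≥ 0,
        0 ≤ gram S c f t ∧ gram S c f t ≤ gram S c f 0) ∧
      (∀ k (f : Fin k → R4 → ℝ), Adm f →
        Tendsto (fun d : ℝ => log d⁻¹ ^ k * S fun i y => f i (d⁻¹ • y)) (𝓝[>] 0)
          (𝓝 ((6 / 11) ^ k * ∫ y : Fin k → R4, (∏ i, f i (y i)) * free y))) ∧
      ∀ y : Fin 2 → R4, y 0 ≠ y 1 → free y = 9 / ‖y 0 - y 1‖ ^ 8 :=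
  infinite_of_bd hF (hC.bd7 hF) hS

end Pool.Agent.Lib.MP_7f377f_mp.YM7
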