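import Pool.Agent.Lib.MP_7f377f_mp.KitHol

/-! Multi-affine jets at the origin of separately holomorphic functions. -/

noncomputable section

namespace Pool.Agent.Lib.MP_7f377f_mp.Jet

open Metric Filter Function MeasureTheory Finset
open scoped Topology

section one

variable {f : ℂ → ℂ} {r M : ℝ} {t : ℂ} (hf : DifferentiableOn ℂ f (ball 0 r))
  (hM : ∀ t ∈ ball (0 : ℂ) r, ‖f t‖ ≤ M)
include hf hM

theorem deriv_le (r0 : 0 < r) : ‖deriv f 0‖ ≤ M / r := by
  refine ge_of_tendsto (f := fun ρ => M / ρ) (x := 𝓝[<] r) (((continuousAt_const.div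
    continuousAt_id r0.ne').tendsto).mono_left nhdsWithin_le_nhds) ?_
  filter_upwards [Ioo_mem_nhdsLT r0] with ρ h
  exact Complex.norm_deriv_le_of_forall_mem_sphere_norm_le h.1 ((hf.mono
    (closure_ball (0 : ℂ) h.1.ne' ▸ closedBall_subset_ball h.2)).diffContOnCl)
    fun z hz => hM z (closedBall_subset_ball h.2 (sphere_subset_closedBall hz))

omit hf in
theorem maps (r0 : 0 < r) : Set.MapsTo f (ball 0 r) (closedBall (f 0) (2 * M)) := fun s hs =>
  mem_closedBall_iff_norm.2 ((norm_sub_le_of_le (hM s hs) (hM 0 (mem_ball_self r0))).trans_eq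
    (two_mul _).symm)

theorem lip0 (ht : t ∈ ball (0 : ℂ) r) : ‖f t - f 0‖ ≤ 2 * M / r * ‖t‖ := by
  simpa [dist_eq_norm] using Complex.dist_le_div_mul_dist_of_mapsTo_ball hf
    (maps hM (nonempty_ball.1 ⟨t, ht⟩)) ht

theorem dslope_le (ht : t ∈ ball (0 : ℂ) r) : ‖dslope f 0 t‖ ≤ 2 * M / r :=
  Complex.norm_dslope_le_div_of_mapsTo_ball hf (maps hM (nonempty_ball.1 ⟨t, ht⟩)) ht

theorem dslope_sub (ht : t ∈ ball (0 : ℂ) r) :
    ‖dslope f 0 t - deriv f 0‖ ≤ 2 * (2 * M / r) / r * ‖t‖ := by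
  simpa using lip0 ((Complex.differentiableOn_dslope (ball_mem_nhds _
    (nonempty_ball.1 ⟨t, ht⟩))).2 hf) (fun _ => dslope_le hf hM) ht

end one

theorem dslope_eq (f : ℂ → ℂ) {t : ℂ} (h : t ≠ 0) : dslope f 0 t = t⁻¹ * (f t - f 0) := by
  rw [dslope_of_ne _ h, slope_def_module, sub_zero, smul_eq_mul]

theorem ev_ball {r : ℝ} (r0 : 0 < r) : ∀ᶠ t in 𝓝[≠] (0 : ℂ), t ≠ 0 ∧ t ∈ ball (0 : ℂ) r :=
  eventually_mem_nhdsWithin.and (mem_nhdsWithin_of_mem_nhds (ball_mem_nhds _ r0))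

theorem ev_small (C : ℝ) {ε : ℝ} (h : 0 < ε) : ∀ᶠ t in 𝓝[≠] (0 : ℂ), C * ‖t‖ < ε :=
  ((continuous_const.mul continuous_norm).tendsto' 0 0 (by simp)).eventually (gt_mem_nhds h)
    |>.filter_mono nhdsWithin_le_nhds

theorem eq_of_le {a b : ℂ} {C r : ℝ} (r0 : 0 < r)
    (h : ∀ t ∈ ball (0 : ℂ) r, t ≠ 0 → ‖a - b‖ ≤ C * ‖t‖) : a = b := by
  refine sub_eq_zero.1 (norm_le_zero_iff.1 (le_of_forall_pos_le_add fun ε ε0 => ?_))
  obtain ⟨t, h1, h2⟩ := ((ev_ball r0).and (ev_small C ε0)).exists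
  linarith [h t h1.2 h1.1]

/-- derivatives depend holomorphically on parameters -/
theorem deriv_hol {f : ℂ → ℂ → ℂ} {Ω : Set ℂ} {r M : ℝ} (hΩ : IsOpen Ω) (r0 : 0 < r)
    (hf : ∀ z ∈ Ω, DifferentiableOn ℂ (f z) (ball 0 r)) (hM : ∀ z ∈ Ω, ∀ t ∈ ball (0 : ℂ) r, ‖f z t‖ ≤ M)
    (hz : ∀ t ∈ ball (0 : ℂ) r, DifferentiableOn ℂ (f · t) Ω) :
    DifferentiableOn ℂ (fun z => deriv (f z) 0) Ω := by
  refine TendstoLocallyUniformlyOn.differentiableOn (φ := 𝓝[≠] 0) (F := fun t z => dslope (f z) 0 t)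
    (TendstoUniformlyOn.tendstoLocallyUniformlyOn (Metric.tendstoUniformlyOn_iff.2 fun ε ε0 => ?_))
    ?_ hΩ
  · filter_upwards [ev_ball r0, ev_small (2 * (2 * M / r) / r) ε0] with t h1 h2 z hz
    rw [dist_comm, dist_eq_norm]
    exact (dslope_sub (hf z hz) (hM z hz) h1.2).trans_lt h2
  · filter_upwards [ev_ball r0] with t h
    simp only [dslope_eq _ h.1]
    exact ((hz t h.2).sub (hz 0 (mem_ball_self r0))).const_mul _

theorem deriv_meas {Z : Type} [MeasurableSpace Z] {f : Z → ℂ → ℂ} {r : ℝ} (r0 : 0 < r)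
    (hf : ∀ ω, DifferentiableOn ℂ (f ω) (ball 0 r)) (hm : ∀ t ∈ ball (0 : ℂ) r, Measurable (f · t)) :
    Measurable fun ω => deriv (f ω) 0 := by
  classical
  refine measurable_of_tendsto_metrizable' (𝓝[≠] (0 : ℂ))
    (f := fun t ω => if t ∈ ball (0 : ℂ) r then slope (f ω) 0 t else 0) (fun t => ?_)
    (tendsto_pi_nhds.2 fun ω => (hasDerivAt_iff_tendsto_slope.1
      ((hf ω).differentiableAt (ball_mem_nhds _ r0)).hasDerivAt).congr' ?_)
  · split_ifs with h
    exacts [((hm t h).sub (hm 0 (mem_ball_self r0))).const_mul (t - 0)⁻¹, measurable_const]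
  · filter_upwards [ev_ball r0] with t h using (if_pos h.2).symm

theorem deriv_real {f : ℂ → ℂ} {r : ℝ} (r0 : 0 < r) (hf : DifferentiableOn ℂ f (ball 0 r))
    (h : ∀ t ∈ ball (0 : ℂ) r, t.im = 0 → (f t).im = 0) : (deriv f 0).im = 0 := by
  have h1 := (Complex.imCLM.hasFDerivAt.comp_hasDerivAt 0
    (show HasDerivAt f _ ((0 : ℝ) : ℂ) from (hf.differentiableAt (ball_mem_nhds _ r0)).hasDerivAt).comp_ofReal)
  refine h1.unique ((hasDerivAt_const (0 : ℝ) (0 : ℝ)).congr_of_eventuallyEq ?_)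
  filter_upwards [ball_mem_nhds (0 : ℝ) r0] with x hx using h x (by simpa using hx) (by simp)

variable {ι : Type} [DecidableEq ι] {r : ι → ℝ} {M M' : ℝ} {g g' : (ι → ℂ) → ℂ} {s : ι → ℂ}
  {i j : ι} {S A D : Finset ι} {t : ℂ}

/-- the open polydisc -/
def Pd (r : ι → ℝ) : Set (ι → ℂ) := {s | ∀ i, ‖s i‖ < r i}

theorem Pd.upd (hs : s ∈ Pd r) (ht : t ∈ ball (0 : ℂ) (r i)) : update s i t ∈ Pd r := fun j => by
  rcases eq_or_ne j i with rfl | h
  · simpa using ht
  · simpa [h] using hs j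

/-- separately holomorphic and bounded on the polydisc -/
structure SH (r : ι → ℝ) (M : ℝ) (g : (ι → ℂ) → ℂ) : Prop where
  pos : ∀ i, 0 < r i
  hol : ∀ s ∈ Pd r, ∀ i, DifferentiableOn ℂ (fun t => g (update s i t)) (ball 0 (r i))
  bd : ∀ s ∈ Pd r, ‖g s‖ ≤ M

/-- partial derivative on the hyperplane `s i = 0` -/
def pd (i : ι) (g : (ι → ℂ) → ℂ) (s : ι → ℂ) : ℂ := deriv (fun t => g (update s i t)) 0

/-- restriction to the hyperplane `s i = 0` -/
def rs (i : ι) (g : (ι → ℂ) → ℂ) (s : ι → ℂ) : ℂ := g (update s i 0)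

/-- difference quotient -/
def dq (i : ι) (t : ℂ) (g : (ι → ℂ) → ℂ) (s : ι → ℂ) : ℂ := dslope (fun t => g (update s i t)) 0 t

/-- the coefficient of the monomial `∏ i ∈ S, s i` -/
def jd (S : Finset ι) (g : (ι → ℂ) → ℂ) : ℂ := S.toList.foldr pd g 0

omit [DecidableEq ι] in
theorem zero_mem (h : ∀ i, 0 < r i) : 0 ∈ Pd r := fun i => by simpa using h i

theorem pd_congr (h : ∀ i, 0 < r i) (e : Set.EqOn g g' (Pd r)) : Set.EqOn (pd i g) (pd i g') (Pd r) :=
  fun _ hs => EventuallyEq.deriv_eq (mem_of_superset (ball_mem_nhds _ (h i)) fun _ ht =>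
    e (Pd.upd hs ht))

namespace SH

variable (h : SH r M g)
include h

theorem zero : 0 ∈ Pd r := zero_mem h.pos

theorem b0 (i : ι) : 0 ∈ ball (0 : ℂ) (r i) := mem_ball_self (h.pos i)

theorem nonneg : 0 ≤ M := (norm_nonneg _).trans (h.bd 0 h.zero)

theorem mono (e : M ≤ M') : SH r M' g := ⟨h.pos, h.hol, fun s hs => (h.bd s hs).trans e⟩

theorem congr (e : Set.EqOn g' g (Pd r)) : SH r M g' :=
  ⟨h.pos, fun s hs i => (h.hol s hs i).congr fun _ ht => e (Pd.upd hs ht),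
    fun s hs => e hs ▸ h.bd s hs⟩

theorem bdu (hs : s ∈ Pd r) (i : ι) : ∀ t ∈ ball (0 : ℂ) (r i), ‖g (update s i t)‖ ≤ M :=
  fun _ ht => h.bd _ (Pd.upd hs ht)

theorem dAt (hs : s ∈ Pd r) (i : ι) : DifferentiableAt ℂ (fun t => g (update s i t)) 0 :=
  (h.hol s hs i).differentiableAt (ball_mem_nhds _ (h.pos i))

theorem add (h' : SH r M' g') : SH r (M + M') (g + g') :=
  ⟨h.pos, fun s hs i => (h.hol s hs i).add (h'.hol s hs i),
    fun s hs => norm_add_le_of_le (h.bd s hs) (h'.bd s hs)⟩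

theorem sub (h' : SH r M' g') : SH r (M + M') (g - g') :=
  ⟨h.pos, fun s hs i => (h.hol s hs i).sub (h'.hol s hs i),
    fun s hs => norm_sub_le_of_le (h.bd s hs) (h'.bd s hs)⟩

theorem mul (h' : SH r M' g') : SH r (M * M') (g * g') :=
  ⟨h.pos, fun s hs i => (h.hol s hs i).mul (h'.hol s hs i), fun s hs =>
    (norm_mul _ _).trans_le (mul_le_mul (h.bd s hs) (h'.bd s hs) (norm_nonneg _) h.nonneg)⟩

theorem smul (c : ℂ) : SH r (‖c‖ * M) (c • g) :=
  ⟨h.pos, fun s hs i => (h.hol s hs i).const_smul c, fun s hs =>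
    (norm_smul c _).trans_le (mul_le_mul_of_nonneg_left (h.bd s hs) (norm_nonneg _))⟩

theorem exp : SH r (Real.exp M) fun s => Complex.exp (g s) :=
  ⟨h.pos, fun s hs i => (h.hol s hs i).cexp, fun s hs => (Complex.norm_exp_le_exp_norm _).trans
    (Real.exp_le_exp.2 (h.bd s hs))⟩

theorem fix (ht : t ∈ ball (0 : ℂ) (r i)) : SH r M fun s => g (update s i t) := by
  refine ⟨h.pos, fun s hs j => ?_, fun s hs => h.bdu hs i t ht⟩
  rcases eq_or_ne j i with rfl | e
  · simp only [update_idem]; exact differentiableOn_const _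
  · simpa only [update_comm e] using h.hol _ (Pd.upd hs ht) j

theorem rs (i : ι) : SH r M (rs i g) := h.fix (h.b0 i)

theorem pd (i : ι) : SH r (M / r i) (pd i g) :=
  ⟨h.pos, fun s hs _ => deriv_hol isOpen_ball (h.pos i) (fun _ hz => h.hol _ (Pd.upd hs hz) i)
    (fun _ hz => h.bdu (Pd.upd hs hz) i) fun _ ht => (h.fix ht).hol s hs _,
    fun s hs => deriv_le (h.hol s hs i) (h.bdu hs i) (h.pos i)⟩

theorem dq_sub (ht : t ∈ ball (0 : ℂ) (r i)) (h0 : t ≠ 0) :
    SH r (2 * (2 * M / r i) / r i * ‖t‖) (dq i t g - Jet.pd i g) :=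
  ⟨h.pos, fun s hs j => DifferentiableOn.sub (by
      simp only [dq, dslope_eq _ h0]
      exact (((h.fix ht).hol s hs j).sub ((h.rs i).hol s hs j)).const_mul _) ((h.pd i).hol s hs j),
    fun s hs => dslope_sub (h.hol s hs i) (h.bdu hs i) ht⟩

theorem pd_comm (i j : ι) : Set.EqOn (Jet.pd i (Jet.pd j g)) (Jet.pd j (Jet.pd i g)) (Pd r) := by
  intro s hs
  rcases eq_or_ne i j with rfl | e
  · rfl
  have key : ∀ i j, ∃ C, ∀ t ∈ ball (0 : ℂ) (r i), t ∈ ball (0 : ℂ) (r j) → t ≠ 0 →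
      ‖dq i t (dq j t g) s - Jet.pd i (Jet.pd j g) s‖ ≤ C * ‖t‖ := fun i j =>
    ⟨2 * (2 * (2 * M / r j) / r j) / r i + 2 * (2 * (M / r j) / r i) / r i, fun t hi hj h0 => by
    have h1 := h.dq_sub hj h0
    have h2 := dslope_le (h1.hol s hs i) (h1.bdu hs i) hi
    have h3 := ((h.pd j).dq_sub hi h0).bd s hs
    have e : dq i t (dq j t g) s - Jet.pd i (Jet.pd j g) s = dslope (fun t' => (dq j t g - Jet.pd j g)
        (update s i t')) 0 t + (dq i t (Jet.pd j g) - Jet.pd i (Jet.pd j g)) s := by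
      simp only [dq, dslope_eq _ h0, Pi.sub_apply]; ring
    rw [e]
    exact (norm_add_le_of_le h2 h3).trans_eq (by ring)⟩
  obtain ⟨C, h1⟩ := key i j
  obtain ⟨C', h2⟩ := key j i
  refine eq_of_le (C := C + C') (lt_min (h.pos i) (h.pos j)) fun t ht h0 => ?_
  have hi := ball_subset_ball (min_le_left _ _) ht
  have hj := ball_subset_ball (min_le_right _ _) ht
  have e : dq i t (dq j t g) s = dq j t (dq i t g) s := by
    simp only [dq, dslope_eq _ h0, update_comm e]; ring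
  have := norm_sub_le_of_le (e ▸ h2 t hj hi h0) (h1 t hi hj h0)
  rw [sub_sub_sub_cancel_left] at this
  linarith

theorem fold (l : List ι) : SH r (M / (l.map r).prod) (l.foldr Jet.pd g) := by
  induction l with
  | nil => simpa using h
  | cons i l ih => simpa [div_div, mul_comm] using ih.pd i

theorem fold_perm {l l' : List ι} (p : l.Perm l') :
    Set.EqOn (l.foldr Jet.pd g) (l'.foldr Jet.pd g) (Pd r) := by
  induction p with
  | nil => exact fun _ _ => rfl
  | cons i _ ih => exact pd_congr h.pos ih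
  | swap i j l => exact (h.fold l).pd_comm _ _
  | trans _ _ a b => exact a.trans b

theorem jd_insert (hi : i ∉ S) : jd (insert i S) g = jd S (Jet.pd i g) := by
  rw [jd, h.fold_perm ((toList_insert hi).trans (List.perm_append_singleton _ _).symm) h.zero,
    List.foldr_append]
  rfl

theorem jd_le (S : Finset ι) : ‖jd S g‖ ≤ M / ∏ i ∈ S, r i := by
  rw [jd, ← prod_map_toList]
  exact (h.fold S.toList).bd 0 h.zero

end SH

@[simp] theorem jd_empty (g : (ι → ℂ) → ℂ) : jd ∅ g = g 0 := by simp [jd]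

theorem jd_single (i : ι) (g : (ι → ℂ) → ℂ) : jd {i} g = deriv (fun t => g (Pi.single i t)) 0 := by
  simp [jd, pd, Pi.single]

theorem jd_congr (h : ∀ i, 0 < r i) (e : Set.EqOn g g' (Pd r)) (S : Finset ι) : jd S g = jd S g' := by
  have : ∀ l : List ι, Set.EqOn (l.foldr pd g) (l.foldr pd g') (Pd r) := fun l => by
    induction l with
    | nil => exact e
    | cons i l ih => exact pd_congr h ih
  exact this _ (zero_mem h)

theorem sh_const (h : ∀ i, 0 < r i) (c : ℂ) : SH r ‖c‖ fun _ => c :=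
  ⟨h, fun _ _ _ => differentiableOn_const _, fun _ _ => le_rfl⟩

theorem jd_add (h : SH r M g) (h' : SH r M' g') (S : Finset ι) :
    jd S (g + g') = jd S g + jd S g' := by
  induction S using Finset.induction_on generalizing g g' M M' with
  | empty => simp
  | insert i S hi ih =>
    rw [(h.add h').jd_insert hi, h.jd_insert hi, h'.jd_insert hi, ← ih (h.pd i) (h'.pd i)]
    exact jd_congr h.pos (fun s hs => deriv_add (h.dAt hs i) (h'.dAt hs i)) S

theorem jd_smul (c : ℂ) (g : (ι → ℂ) → ℂ) (S : Finset ι) : jd S (c • g) = c * jd S g := by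
  have : ∀ l : List ι, l.foldr pd (c • g) = c • l.foldr pd g := fun l => by
    induction l with
    | nil => rfl
    | cons i l ih => exact funext fun s => by simp [ih, pd]
  rw [jd, this]
  rfl

theorem jd_zero (S : Finset ι) : jd S (0 : (ι → ℂ) → ℂ) = 0 := by
  simpa using jd_smul 0 0 S

theorem jd_sub (h : SH r M g) (h' : SH r M' g') (S : Finset ι) :
    jd S (g - g') = jd S g - jd S g' := by
  rw [sub_eq_add_neg, ← neg_one_smul ℂ g', jd_add h (h'.smul _), jd_smul]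
  ring

/-- on the polydisc `g` depends only on the variables in `D` -/
def Dep (r : ι → ℝ) (D : Set ι) (g : (ι → ℂ) → ℂ) : Prop :=
  ∀ s ∈ Pd r, ∀ i ∉ D, ∀ t ∈ ball (0 : ℂ) (r i), g (update s i t) = g s

theorem jd_indep (h : SH r M g) (hi : i ∈ S)
    (e : ∀ s ∈ Pd r, ∀ t ∈ ball (0 : ℂ) (r i), g (update s i t) = g s) : jd S g = 0 := by
  rw [← insert_erase hi, h.jd_insert (notMem_erase _ _), ← jd_zero (S.erase i)]
  exact jd_congr h.pos (fun s hs => (EventuallyEq.deriv_eq (mem_of_superset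
    (ball_mem_nhds _ (h.pos i)) (e s hs))).trans (deriv_const _ _)) _

theorem jd_dep {D : Set ι} (h : SH r M g) (d : Dep r D g) (hS : ¬ (S : Set ι) ⊆ D) : jd S g = 0 :=
  let ⟨i, hi, h0⟩ := Set.not_subset.1 hS
  jd_indep h hi fun s hs => d s hs i h0

theorem jd_rs (h : SH r M g) (hi : i ∉ S) : jd S (rs i g) = jd S g := by
  induction S using Finset.induction_on generalizing g M with
  | empty => simp [rs]
  | insert j S hj ih =>
    have e : j ≠ i := fun e => hi (e ▸ mem_insert_self _ _)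
    rw [(h.rs i).jd_insert hj, h.jd_insert hj, ← ih (h.pd j) fun h => hi (mem_insert_of_mem h)]
    exact congrArg _ (funext fun s => by simp only [pd, rs, update_comm e])

/-- the Leibniz rule -/
theorem jd_mul (h : SH r M g) (h' : SH r M' g') (S : Finset ι) :
    jd S (g * g') = ∑ T ∈ S.powerset, jd T g * jd (S \ T) g' := by
  induction S using Finset.induction_on generalizing g g' M M' with
  | empty => simp
  | insert i S hi ih =>
    rw [(h.mul h').jd_insert hi, jd_congr h.pos (g := pd i (g * g'))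
      (g' := rs i g * pd i g' + pd i g * rs i g')
      (fun s hs => (deriv_mul (h.dAt hs i) (h'.dAt hs i)).trans (add_comm _ _)),
      jd_add ((h.rs i).mul (h'.pd i)) ((h.pd i).mul (h'.rs i)), ih (h.rs i) (h'.pd i),
      ih (h.pd i) (h'.rs i), sum_powerset_insert hi]
    congr 1 <;> refine sum_congr rfl fun T hT => ?_
    all_goals have hT : i ∉ T := fun e => hi (mem_powerset.1 hT e)
    all_goals have hS : i ∉ S \ T := fun e => hi (mem_sdiff.1 e).1
    · rw [jd_rs h hT, insert_sdiff_of_notMem _ hT, h'.jd_insert hS]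
    · rw [jd_rs h' hS, h.jd_insert hT, insert_sdiff_insert, sdiff_insert_of_notMem hi]

section param

theorem jd_hol {Ω : Set ℂ} (hΩ : IsOpen Ω) {g : ℂ → (ι → ℂ) → ℂ} (h : ∀ z ∈ Ω, SH r M (g z))
    (hz : ∀ s ∈ Pd r, DifferentiableOn ℂ (g · s) Ω) (S : Finset ι) :
    DifferentiableOn ℂ (fun z => jd S (g z)) Ω := by
  rcases Ω.eq_empty_or_nonempty with rfl | ⟨z, hz0⟩
  · exact differentiableOn_empty
  induction S using Finset.induction_on generalizing g M with
  | empty => simpa using hz 0 (h z hz0).zero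
  | insert i S hi ih =>
    exact (ih (fun z hz => (h z hz).pd i) fun s hs => deriv_hol hΩ ((h z hz0).pos i)
      (fun z hz => (h z hz).hol s hs i) (fun z hz => (h z hz).bdu hs i)
        fun t ht => hz _ (Pd.upd hs ht)).congr fun z hz => (h z hz).jd_insert hi

/-- the Schwarz lemma for jets -/
theorem jd_lip {R : ℝ} {g : ℂ → (ι → ℂ) → ℂ} (h : ∀ z ∈ ball (0 : ℂ) R, SH r M (g z))
    (hz : ∀ s ∈ Pd r, DifferentiableOn ℂ (g · s) (ball 0 R)) (ht : t ∈ ball (0 : ℂ) R)
    (S : Finset ι) : ‖jd S (g t) - jd S (g 0)‖ ≤ 2 * (M / ∏ i ∈ S, r i) / R * ‖t‖ :=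
  lip0 (jd_hol isOpen_ball h hz S) (fun z hz => (h z hz).jd_le S) ht

variable {Z : Type} [MeasurableSpace Z] {f : Z → (ι → ℂ) → ℂ} {m : Z → ℝ}

theorem pd_meas (hr : ∀ i, 0 < r i) (h : ∀ ω, SH r (m ω) (f ω))
    (hm : ∀ s ∈ Pd r, Measurable (f · s)) (i : ι) : ∀ s ∈ Pd r, Measurable fun ω => pd i (f ω) s :=
  fun s hs => deriv_meas (hr i) (fun ω => (h ω).hol s hs i) fun _ ht => hm _ (Pd.upd hs ht)

theorem jd_meas (hr : ∀ i, 0 < r i) (h : ∀ ω, SH r (m ω) (f ω))
    (hm : ∀ s ∈ Pd r, Measurable (f · s)) (S : Finset ι) : Measurable fun ω => jd S (f ω) := by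
  induction S using Finset.induction_on generalizing f m with
  | empty => simpa using hm 0 (zero_mem hr)
  | insert i S hi ih =>
    simpa only [fun ω => (h ω).jd_insert hi] using ih (fun ω => (h ω).pd i) (pd_meas hr h hm i)

variable (μ : Measure Z) [IsFiniteMeasure μ] (hr : ∀ i, 0 < r i) (h : ∀ ω, SH r M (f ω))
  (hm : ∀ s ∈ Pd r, Measurable (f · s))
include hr h hm

theorem sh_int : SH r (M * μ.real Set.univ) fun s => ∫ ω, f ω s ∂μ :=
  ⟨hr, fun s hs i => Kit.holo_integral μ isOpen_ball (fun _ ht =>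
    (hm _ (Pd.upd hs ht)).aestronglyMeasurable) (ae_of_all _ fun ω => ⟨(h ω).hol s hs i,
      (h ω).bdu hs i⟩), fun s hs => norm_integral_le_of_norm_le_const (ae_of_all _ fun ω => (h ω).bd s hs)⟩

theorem pd_int (hs : s ∈ Pd r) : pd i (fun s => ∫ ω, f ω s ∂μ) s = ∫ ω, pd i (f ω) s ∂μ := by
  have I : ∀ s ∈ Pd r, Integrable (f · s) μ := fun s hs =>
    .of_bound (hm s hs).aestronglyMeasurable M (ae_of_all _ fun ω => (h ω).bd s hs)
  have k := sh_int μ hr h hm
  refine eq_of_le (C := 2 * (2 * M / r i) / r i * μ.real Set.univ +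
    2 * (2 * (M * μ.real Set.univ) / r i) / r i) (hr i) fun t ht h0 => ?_
  have e : dq i t (fun s => ∫ ω, f ω s ∂μ) s - ∫ ω, pd i (f ω) s ∂μ =
      ∫ ω, (dq i t (f ω) - pd i (f ω)) s ∂μ := by
    have : Integrable (fun ω => f ω (update s i t) - f ω (update s i 0)) μ :=
      (I _ (Pd.upd hs ht)).sub (I _ (Pd.upd hs (k.b0 i)))
    simp only [dq, dslope_eq _ h0, Pi.sub_apply]
    rw [integral_sub (this.const_mul _) (.of_bound (pd_meas hr h hm i s hs).aestronglyMeasurable _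
      (ae_of_all _ fun ω => ((h ω).pd i).bd s hs)), integral_const_mul,
      integral_sub (I _ (Pd.upd hs ht)) (I _ (Pd.upd hs (k.b0 i)))]
  have h1 := norm_integral_le_of_norm_le_const (μ := μ) (ae_of_all _ fun ω =>
    ((h ω).dq_sub ht h0).bd s hs)
  have h2 := norm_sub_le_of_le (e ▸ h1) ((k.dq_sub ht h0).bd s hs)
  rw [Pi.sub_apply, sub_sub_sub_cancel_left, mul_right_comm, ← add_mul] at h2
  exact h2

theorem jd_int (S : Finset ι) : jd S (fun s => ∫ ω, f ω s ∂μ) = ∫ ω, jd S (f ω) ∂μ := by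
  induction S using Finset.induction_on generalizing f M with
  | empty => simp
  | insert i S hi ih =>
    simp only [fun ω => (h ω).jd_insert hi]
    rw [(sh_int μ hr h hm).jd_insert hi, ← ih (fun ω => (h ω).pd i) (pd_meas hr h hm i)]
    exact jd_congr hr (fun s hs => pd_int μ hr h hm hs) S

end param

theorem jd_real (h : SH r M g) (e : ∀ s ∈ Pd r, (∀ i, (s i).im = 0) → (g s).im = 0)
    (S : Finset ι) : (jd S g).im = 0 := by
  induction S using Finset.induction_on generalizing g M with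
  | empty => simpa using e 0 h.zero fun _ => rfl
  | insert i S hi ih =>
    rw [h.jd_insert hi]
    refine ih (h.pd i) fun s hs hr => deriv_real (h.pos i) (h.hol s hs i) fun t ht h0 =>
      e _ (Pd.upd hs ht) fun j => ?_
    rcases eq_or_ne j i with rfl | e
    · simpa using h0
    · simpa [e] using hr j

end Pool.Agent.Lib.MP_7f377f_mp.Jet
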