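import Mathlib

/-! The two constants theorem on half discs. -/

noncomputable section

namespace Pool.Agent.Lib.MP_7f377f_mp.Jet

open Set Metric Complex

variable {E : Type*} [NormedAddCommGroup E] [NormedSpace ℂ E] {h : ℂ → E} {σ A η M : ℝ} {z : ℂ}
  (hd : DifferentiableOn ℂ h (ball 0 σ)) (hA : ∀ s ∈ ball (0 : ℂ) σ, ‖h s‖ ≤ A)
  (hη : ∀ s : ℝ, |s| < σ → ‖h s‖ ≤ η) (η0 : 0 < η) (ηA : η ≤ A) (σ0 : 0 < σ)
include hd hA hη η0 ηA σ0

theorem two_half (hz : ‖z‖ ≤ σ / 2) (z0 : 0 ≤ z.im) : ‖h z‖ ≤ η * (A / η) ^ (6 * ‖z‖ / σ) := by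
  obtain ⟨r, rfl⟩ : ∃ r, σ = 2 * r := ⟨σ / 2, by ring⟩
  have r0 : 0 < r := by linarith
  have q0 : 0 < A / η := div_pos (η0.trans_le ηA) η0
  have l0 : 0 ≤ Real.log (A / η) := Real.log_nonneg ((one_le_div η0).2 ηA)
  set φ : ℂ → ℂ := fun s => (s / r) ^ 2 - 2 * I * (s / r) with hφ
  have hre : ∀ s, (φ s).re = (s.re / r) ^ 2 - (s.im / r) ^ 2 + 2 * (s.im / r) := fun s => by
    simp [hφ, pow_two]
  have hn : ∀ s, ‖cexp (-(Real.log (A / η) * φ s)) • h s‖ =
      Real.exp (-(Real.log (A / η) * (φ s).re)) * ‖h s‖ := fun s => by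
    rw [norm_smul, norm_exp, neg_re, re_ofReal_mul]
  have hq : ∀ s : ℂ, (s.re / r) ^ 2 + (s.im / r) ^ 2 = (‖s‖ / r) ^ 2 := fun s => by
    rw [div_pow, div_pow, div_pow, ← add_div, Complex.sq_norm, normSq_apply, sq, sq]
  have hU : IsClosed (closedBall (0 : ℂ) r ∩ {s | 0 ≤ s.im}) :=
    isClosed_closedBall.inter (isClosed_le continuous_const continuous_im)
  have hb : closedBall (0 : ℂ) r ⊆ ball 0 (2 * r) := closedBall_subset_ball (by linarith)
  have h3 : ‖z‖ ≤ r := by linarith
  have h1 : ‖cexp (-(Real.log (A / η) * φ z)) • h z‖ ≤ η := by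
    refine norm_le_of_forall_mem_frontier_norm_le (isBounded_closedBall.subset inter_subset_left)
      (f := fun s => cexp (-(Real.log (A / η) * φ s)) • h s)
      (DifferentiableOn.diffContOnCl (DifferentiableOn.smul (by fun_prop) (hd.mono
        (hU.closure_subset.trans (inter_subset_left.trans hb))))) (fun w hw => ?_)
      (subset_closure ⟨by simpa using h3, z0⟩)
    obtain ⟨h1, h2⟩ := hU.closure_subset hw.1
    rw [hn, hre]
    rcases eq_or_lt_of_le (show 0 ≤ w.im from h2) with h4 | h4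
    · have e : w = w.re := Complex.ext rfl h4.symm
      have h5 := hη w.re ((abs_re_le_norm w).trans_lt (by simpa using hb h1))
      rw [← e] at h5
      rw [← h4]
      exact (mul_le_of_le_one_left (norm_nonneg _) (Real.exp_le_one_iff.2 (by
        simpa using mul_nonneg l0 (sq_nonneg _)))).trans h5
    · have h5 : ‖w‖ = r := le_antisymm (by simpa using h1) (not_lt.1 fun h5 => hw.2
        (interior_maximal (inter_subset_inter ball_subset_closedBall fun _ h => show _ ≤ _ from
          le_of_lt h) (isOpen_ball.inter (isOpen_lt continuous_const continuous_im))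
          ⟨by simpa, h4⟩))
      have h6 := hq w
      rw [h5, div_self r0.ne'] at h6
      have h7 : 0 ≤ w.im / r := by positivity
      have h8 : w.im / r ≤ 1 := by nlinarith [sq_nonneg (w.re / r)]
      have h9 : 1 ≤ (w.re / r) ^ 2 - (w.im / r) ^ 2 + 2 * (w.im / r) := by nlinarith
      calc _ ≤ Real.exp (-Real.log (A / η)) * A := mul_le_mul (Real.exp_le_exp.2 (neg_le_neg
            (le_mul_of_one_le_right l0 h9))) (hA w (hb h1)) (norm_nonneg _) (Real.exp_nonneg _)
        _ = η := by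
          have := (η0.trans_le ηA).ne'
          rw [Real.exp_neg, Real.exp_log q0]
          field_simp
  rw [hn, Real.exp_neg, inv_mul_le_iff₀ (Real.exp_pos _), mul_comm] at h1
  refine h1.trans (mul_le_mul_of_nonneg_left ?_ η0.le)
  rw [Real.rpow_def_of_pos q0]
  refine Real.exp_le_exp.2 (mul_le_mul_of_nonneg_left ?_ l0)
  have h4 : z.im / r ≤ ‖z‖ / r := by gcongr; exact im_le_norm z
  have h5 : 0 ≤ ‖z‖ / r := by positivity
  rw [hre, show 6 * ‖z‖ / (2 * r) = 3 * (‖z‖ / r) by field_simp; ring]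
  nlinarith [sq_nonneg (z.im / r), hq z, (div_le_one r0).2 h3]

/-- two constants theorem: a bound on the real diameter propagates to the disc -/
theorem two_const (hz : ‖z‖ ≤ σ / 2) : ‖h z‖ ≤ η * (A / η) ^ (6 * ‖z‖ / σ) := by
  rcases le_total 0 z.im with z0 | z0
  · exact two_half hd hA hη η0 ηA σ0 hz z0
  · have m : MapsTo (fun s : ℂ => -s) (ball 0 σ) (ball 0 σ) := fun s hs => by simpa using hs
    simpa using two_half (h := fun s => h (-s)) (z := -z) (hd.comp (by fun_prop) m)
      (fun s hs => hA _ (m hs)) (fun s hs => by simpa using hη (-s) (by simpa)) η0 ηA σ0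
      (by simpa) (by simpa)

/-- two constants theorem for the derivative -/
theorem two_const_deriv (hM : 2 ≤ M) : ‖deriv h 0‖ ≤ M / σ * (η * (A / η) ^ (6 / M)) := by
  have M0 : 0 < M := by linarith
  have h1 : σ / M ≤ σ / 2 := by gcongr
  have h2 := norm_deriv_le_of_forall_mem_sphere_norm_le (c := 0) (R := σ / M) (by positivity)
    (C := η * (A / η) ^ (6 / M)) (DifferentiableOn.diffContOnCl (hd.mono
      (closure_ball_subset_closedBall.trans (closedBall_subset_ball (by linarith))))) fun z hz => by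
      have e : ‖z‖ = σ / M := by simpa using hz
      have := two_const hd hA hη η0 ηA σ0 (e.trans_le h1)
      rwa [e, show 6 * (σ / M) / σ = 6 / M by field_simp] at this
  exact h2.trans_eq (by field_simp)

/-- the form used for large `M`: if `A / η ≤ x ^ a` and `6 a ≤ M` the loss is a factor `x` -/
theorem two_const_le {x : ℝ} {a : ℕ} (hM : 2 ≤ M) (ha : 6 * a ≤ M) (x1 : 1 ≤ x)
    (hx : A ≤ x ^ a * η) : ‖deriv h 0‖ ≤ M * x * η / σ := by
  have M0 : 0 < M := by linarith
  refine (two_const_deriv hd hA hη η0 ηA σ0 hM).trans ?_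
  have : (A / η) ^ (6 / M) ≤ x := by
    calc _ ≤ (x ^ (a : ℝ)) ^ (6 / M) := by
          rw [Real.rpow_natCast]
          exact Real.rpow_le_rpow (div_pos (η0.trans_le ηA) η0).le ((div_le_iff₀ η0).2 hx)
            (by positivity)
      _ = x ^ (6 * a / M) := by rw [← Real.rpow_mul (by linarith)]; congr 1; ring
      _ ≤ x ^ (1 : ℝ) := Real.rpow_le_rpow_of_exponent_le x1 ((div_le_one M0).2 ha)
      _ = x := Real.rpow_one x
  calc _ ≤ M / σ * (η * x) := by gcongr
    _ = _ := by ring

end Pool.Agent.Lib.MP_7f377f_mp.Jet
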