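import Pool.Agent.Lib.MP_7f377f_mp.RGLinZ

/-! Lattice jets: iterated forward differences, Taylor remainder, Newton polynomials. -/

noncomputable section

namespace Pool.Agent.Lib.MP_7f377f_mp.RG.Jt

open Finset

/-- multi-indices -/
abbrev Mi := Fin 4 → ℕ

def ei (i : Fin 4) : Mi := Pi.single i 1

def dg (α : Mi) : ℕ := ∑ i, α i

/-- forward difference -/
def D1 (i : Fin 4) : Module.End ℝ V := shL (un i) - 1

/-- iterated forward differences -/
def Dm (α : Mi) : Module.End ℝ V := D1 0 ^ α 0 * D1 1 ^ α 1 * D1 2 ^ α 2 * D1 3 ^ α 3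

/-- translation covariant operators -/
def Cov (T : Module.End ℝ V) : Prop := ∀ x a, T (sh x a) = sh x (T a)

/-- contraction of the curvature with a direction -/
def io (ν : Fin 4) : Module.End ℝ V where
  toFun a := fun e => dd a e.1 ν e.2
  map_add' a b := by funext e; simp only [dd, Pi.add_apply]; ring
  map_smul' c a := by funext e; simp only [dd, Pi.smul_apply, smul_eq_mul, RingHom.id_apply]; ring

variable {α β : Mi} {i j ν μ : Fin 4} {a b : V} {R n : ℕ} {δ ε : ℝ} {T : Module.End ℝ V}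

@[simp] theorem dg_zero : dg 0 = 0 := by simp [dg]

theorem dg_add (α β : Mi) : dg (α + β) = dg α + dg β := by simp [dg, sum_add_distrib]

@[simp] theorem dg_ei (i : Fin 4) : dg (ei i) = 1 := by simp [dg, ei]

theorem ei_apply (i j : Fin 4) : ei i j = if j = i then 1 else 0 := Pi.single_apply _ _ _

theorem dg_eq_zero (h : dg α = 0) : α = 0 :=
  funext fun i => sum_eq_zero_iff.1 h i (mem_univ i)

theorem dg_mono (h : α ≤ β) : dg α ≤ dg β := sum_le_sum fun i _ => h i

theorem ex_ei (h : 0 < α i) : ∃ β, α = β + ei i :=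
  ⟨α - ei i, funext fun j => by
    simp only [Pi.add_apply, Pi.sub_apply, ei_apply]
    split_ifs with h1
    · subst h1; omega
    · omega⟩

theorem ex_succ (h : dg α = n + 1) : ∃ β i, α = β + ei i ∧ dg β = n := by
  have : ∃ i, 0 < α i := by
    by_contra h1
    have : α = 0 := funext fun i => by simpa using not_exists.1 h1 i
    simp [this] at h
  obtain ⟨i, hi⟩ := this
  obtain ⟨β, rfl⟩ := ex_ei hi
  exact ⟨β, i, rfl, by simpa [dg_add] using h⟩

theorem ind {P : Mi → Prop} (h0 : P 0) (h1 : ∀ β i, P β → P (β + ei i)) (α : Mi) : P α := by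
  induction h : dg α generalizing α with
  | zero => rwa [dg_eq_zero h]
  | succ n ih =>
    obtain ⟨β, i, rfl, hb⟩ := ex_succ h
    exact h1 β i (ih β hb)

theorem D1_apply (i : Fin 4) (a : V) : D1 i a = sh (un i) a - a := rfl

theorem D1_ap (i : Fin 4) (a : V) (e : Lk) : D1 i a e = a (e.1 + un i, e.2) - a e := rfl

theorem Cov.D1 (h : Cov T) (i : Fin 4) : Commute T (D1 i) := LinearMap.ext fun a => by
  simp only [Module.End.mul_apply, D1_apply, map_sub, h (un i)]

theorem cov_sh (x : St) : Cov (shL x) := fun y a => by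
  simp only [shL_apply, sh_sh, add_comm]

theorem cov_D1 (i : Fin 4) : Cov (D1 i) := fun x a => by
  simp only [D1_apply, sh_sh, La.sh_sub, add_comm]

theorem Cov.Dm (h : Cov T) (α : Mi) : Commute T (Dm α) :=
  ((((h.D1 0).pow_right _).mul_right ((h.D1 1).pow_right _)).mul_right
    ((h.D1 2).pow_right _)).mul_right ((h.D1 3).pow_right _)

theorem Cov.dm (h : Cov T) (α : Mi) (a : V) : T (Jt.Dm α a) = Jt.Dm α (T a) :=
  LinearMap.congr_fun (h.Dm α).eq a

theorem cov_Dm (α : Mi) : Cov (Dm α) := fun x a => ((cov_sh x).dm α a).symm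

theorem Cov.mul {S : Module.End ℝ V} (h : Cov T) (h' : Cov S) : Cov (T * S) := fun x a => by
  simp only [Module.End.mul_apply, h' x, h x]

@[simp] theorem Dm_zero : Dm 0 = 1 := by simp [Dm]

theorem Dm_succ (α : Mi) (i : Fin 4) : Dm (α + ei i) = Dm α * D1 i := by
  have c : ∀ j k (m : ℕ), D1 j * D1 k ^ m = D1 k ^ m * D1 j := fun j k m =>
    (((cov_D1 j).D1 k).pow_right m).eq
  fin_cases i <;> simp [Dm, ei, pow_succ, mul_assoc, c]

theorem Dm_succ_ap (α : Mi) (i : Fin 4) (a : V) : Dm (α + ei i) a = Dm α (D1 i a) := by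
  rw [Dm_succ]; rfl

theorem Dm_succ_ap' (α : Mi) (i : Fin 4) (a : V) : Dm (α + ei i) a = D1 i (Dm α a) := by
  rw [Dm_succ_ap, (cov_D1 i).dm]

theorem Dm_ei (i : Fin 4) : Dm (ei i) = D1 i := by simpa using Dm_succ 0 i

theorem Dm_Dm (α β : Mi) (a : V) : Dm α (Dm β a) = Dm (α + β) a := by
  induction β using ind generalizing a with
  | h0 => simp
  | h1 β i ih => rw [← add_assoc, Dm_succ_ap, Dm_succ_ap, ih]

theorem io_ap (ν : Fin 4) (a : V) (e : Lk) : io ν a e = dd a e.1 ν e.2 := rfl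

theorem cov_io (ν : Fin 4) : Cov (io ν) := fun x a => funext fun e => by
  simp only [io_ap, dd_sh, sh_apply]

theorem cv_iff : Cv R δ a ↔ ∀ ν, Sm R δ (io ν a) :=
  ⟨fun h _ _ he => h _ (mem_lbox.1 he) _ _, fun h x hx μ ν => h μ (x, ν) (mem_lbox.2 hx)⟩

/-- Cartan formula -/
theorem cartan (ν : Fin 4) (a : V) : D1 ν a = io ν a + gr fun x => a (x, ν) := by
  funext e
  simp only [D1_ap, io_ap, dd, gr, Pi.add_apply]
  ring

theorem dd_io (ν : Fin 4) (a : V) : dd (io ν a) = dd (D1 ν a) := by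
  rw [cartan, La.dd_add, La.dd_gr, add_zero]

theorem sm_step (h0 : Sm 0 δ a) (h : ∀ i, Sm R ε (D1 i a)) : Sm R (δ + 4 * R * ε) a := by
  intro e he
  have h1 := La.abs_lam_le (b := gr fun x => a (x, e.2)) (mem_lbox.1 he) fun f hf =>
    h f.2 (f.1, e.2) (by simpa [mem_lbox] using hf)
  rw [La.lam_gr] at h1
  have h2 := h0 (0, e.2) (mem_lbox.2 (zero_mem_box 0))
  rw [Real.norm_eq_abs] at h2 ⊢
  have := abs_add_le (a (0, e.2)) (a (e.1, e.2) - a (0, e.2))
  rw [add_sub_cancel] at this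
  linarith

/-- Taylor remainder -/
theorem taylor (n : ℕ) (η : ℕ → ℝ) (h0 : ∀ α, dg α < n → Sm 0 (η (dg α)) (Dm α a))
    (h : ∀ α, dg α = n → Sm R ε (Dm α a)) :
    Sm R (∑ j ∈ range n, (4 * R) ^ j * η j + (4 * R) ^ n * ε) a := by
  induction n generalizing a η with
  | zero => simpa using h 0 rfl
  | succ n ih =>
    have h1 := sm_step (by simpa using h0 0 (by simp)) fun i => ih (a := D1 i a) (fun j => η (j + 1))
      (fun α hα => by simpa [dg_add, Dm_succ_ap] using h0 (α + ei i) (by simpa [dg_add] using hα))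
      fun α hα => by simpa [Dm_succ_ap] using h (α + ei i) (by simp [dg_add, hα])
    refine h1.mono le_rfl (le_of_eq ?_)
    simp only [sum_range_succ', pow_succ, mul_add, mul_sum, pow_zero]
    rw [sum_congr rfl fun j _ => show (4 * R : ℝ) * ((4 * R) ^ j * η (j + 1)) =
      (4 * R) ^ j * (4 * R) * η (j + 1) by ring]
    ring

/-- Taylor remainder for the curvature -/
theorem taylor_cv (n : ℕ) (η : ℕ → ℝ) (h0 : ∀ α, dg α < n → Cv 0 (η (dg α)) (Dm α a))
    (h : ∀ α, dg α = n → Cv R ε (Dm α a)) :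
    Cv R (∑ j ∈ range n, (4 * R) ^ j * η j + (4 * R) ^ n * ε) a := cv_iff.2 fun ν =>
  taylor n η (fun α hα => by rw [← (cov_io ν).dm]; exact cv_iff.1 (h0 α hα) ν)
    fun α hα => by rw [← (cov_io ν).dm]; exact cv_iff.1 (h α hα) ν

/-! ### Newton polynomials -/

/-- the Newton monomials -/
def nb (α : Mi) (μ : Fin 4) : V := fun e =>
  if e.2 = μ then ((∏ i, Ring.choose (e.1 i) (α i) : ℤ) : ℝ) else 0

theorem D1_nb (α : Mi) (i μ : Fin 4) : D1 i (nb (α + ei i) μ) = nb α μ := by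
  funext e
  simp only [D1_ap, nb]
  split_ifs
  · rw [← Int.cast_sub, ← mul_prod_erase _ _ (mem_univ i), ← mul_prod_erase _ _ (mem_univ i),
      ← mul_prod_erase _ _ (mem_univ i)]
    have h : ∀ (x : St) (hx : ∀ j, j ≠ i → x j = e.1 j), ∏ j ∈ univ.erase i,
        Ring.choose (x j) ((α + ei i) j) = ∏ j ∈ univ.erase i, Ring.choose (e.1 j) (α j) :=
      fun x hx => prod_congr rfl fun j hj => by
        have := ne_of_mem_erase hj
        simp [hx j this, ei_apply, this]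
    rw [h _ fun j hj => by simp [un_ne hj], h _ fun _ _ => rfl]
    simp only [Pi.add_apply, un_self, ei_apply, if_true, Ring.choose_succ_succ]
    congr 1
    ring
  · simp

theorem D1_nb0 (h : α i = 0) (μ : Fin 4) : D1 i (nb α μ) = 0 := by
  funext e
  simp only [D1_ap, nb, Pi.zero_apply]
  split_ifs
  · rw [prod_congr rfl fun j _ => show Ring.choose ((e.1 + un i) j) (α j) =
      Ring.choose (e.1 j) (α j) from ?_, sub_self]
    by_cases hj : j = i
    · subst hj; simp [h]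
    · simp [un_ne hj]
  · simp

theorem Dm_nb (α β : Mi) (μ : Fin 4) : Dm β (nb (α + β) μ) = nb α μ := by
  induction β using ind with
  | h0 => simp
  | h1 β i ih => rw [Dm_succ_ap, ← add_assoc, D1_nb, ih]

theorem Dm_nb0 (h : ¬β ≤ α) (μ : Fin 4) : Dm β (nb α μ) = 0 := by
  obtain ⟨i, hi⟩ := not_forall.1 h
  have hi' : α i < β i := not_le.1 hi
  obtain ⟨k, hk⟩ : ∃ k, k = α i := ⟨_, rfl⟩
  have h1 : β = (β - (k + 1) • ei i) + ei i + k • ei i := funext fun j => by
    simp only [Pi.add_apply, Pi.sub_apply, Pi.smul_apply, ei_apply, smul_eq_mul]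
    split_ifs with h2
    · subst h2; omega
    · omega
  have h2 : α = (α - k • ei i) + k • ei i := funext fun j => by
    simp only [Pi.add_apply, Pi.sub_apply, Pi.smul_apply, ei_apply, smul_eq_mul]
    split_ifs with h2
    · subst h2; omega
    · omega
  rw [h1, ← Dm_Dm, h2, Dm_nb, Dm_succ_ap, D1_nb0 (by simp [ei_apply, hk]), map_zero]

theorem nb_zero (α : Mi) (μ ν : Fin 4) : nb α μ (0, ν) = if α = 0 ∧ ν = μ then 1 else 0 := by
  simp only [nb, Pi.zero_apply, Ring.choose_zero_ite]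
  by_cases h : α = 0
  · simp [h]
  · obtain ⟨i, hi⟩ := Function.ne_iff.1 h
    rw [prod_eq_zero (mem_univ i) (if_neg hi)]
    simp [h]

theorem Dm_nb_zero (α β : Mi) (μ ν : Fin 4) :
    Dm β (nb α μ) (0, ν) = if α = β ∧ ν = μ then 1 else 0 := by
  by_cases h : β ≤ α
  · obtain ⟨γ, rfl⟩ := exists_add_of_le h
    rw [add_comm, Dm_nb, nb_zero]
    simp
  · rw [Dm_nb0 h, if_neg fun h1 => h h1.1.ge]
    rfl

/-- multi-indices of degree less than `n` -/
def Ix (n : ℕ) : Finset Mi := (Fintype.piFinset fun _ => range n).filter fun α => dg α < n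

theorem mem_Ix : α ∈ Ix n ↔ dg α < n := by
  simp only [Ix, mem_filter, Fintype.mem_piFinset, mem_range, and_iff_right_iff_imp]
  exact fun h i => (single_le_sum (f := α) (fun _ _ => Nat.zero_le _) (mem_univ i)).trans_lt h

/-- jets -/
abbrev Jj := Mi → Fin 4 → ℝ

/-- the jet at the origin -/
def jet : V →ₗ[ℝ] Jj := LinearMap.pi fun α => LinearMap.pi fun μ => LinearMap.proj (0, μ) ∘ₗ Dm α

theorem jet_ap (a : V) (α : Mi) (μ : Fin 4) : jet a α μ = Dm α a (0, μ) := rfl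

/-- the Newton polynomial of degree less than `n` with a given jet -/
def nw (n : ℕ) : Jj →ₗ[ℝ] V := ∑ α ∈ Ix n, ∑ μ,
  (LinearMap.proj μ ∘ₗ LinearMap.proj α : Jj →ₗ[ℝ] ℝ).smulRight (nb α μ)

theorem nw_ap (n : ℕ) (c : Jj) : nw n c = ∑ α ∈ Ix n, ∑ μ, c α μ • nb α μ := by
  simp [nw]

theorem jet_nw (n : ℕ) (c : Jj) (β : Mi) (ν : Fin 4) :
    jet (nw n c) β ν = if dg β < n then c β ν else 0 := by
  simp only [jet_ap, nw_ap, map_sum, map_smul, Finset.sum_apply, Pi.smul_apply, Dm_nb_zero,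
    smul_eq_mul, mul_ite, mul_one, mul_zero, ite_and, sum_ite_irrel, sum_ite_eq, mem_univ, if_true,
    sum_const_zero, sum_ite_eq', mem_Ix]

/-- polynomial one-forms of degree less than `n` -/
def Pd (n : ℕ) : Submodule ℝ V := ⨅ α ∈ {α : Mi | dg α = n}, LinearMap.ker (Dm α)

theorem mem_Pd : a ∈ Pd n ↔ ∀ α, dg α = n → Dm α a = 0 := by simp [Pd]

theorem nw_mem (n : ℕ) (c : Jj) : nw n c ∈ Pd n := mem_Pd.2 fun β hβ => by
  simp only [nw_ap, map_sum, map_smul]
  exact sum_eq_zero fun α hα => sum_eq_zero fun μ _ => by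
    rw [Dm_nb0 fun h => (mem_Ix.1 hα).not_ge (hβ ▸ dg_mono h), smul_zero]

theorem Pd_ge (h : a ∈ Pd n) (hα : n ≤ dg α) : Dm α a = 0 := by
  induction α using ind with
  | h0 => exact mem_Pd.1 h 0 (by simpa using hα.antisymm' (by simp))
  | h1 β i ih =>
    rcases hα.eq_or_lt with h1 | h1
    · exact mem_Pd.1 h _ h1.symm
    · rw [Dm_succ_ap', ih (by simp [dg_add] at h1; omega), map_zero]

theorem Pd_mono {k : ℕ} (hk : n ≤ k) : Pd n ≤ Pd k := fun _ h =>
  mem_Pd.2 fun _ hα => Pd_ge h (hα ▸ hk)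

theorem Cov.Pd (h : Cov T) (ha : a ∈ Pd n) : T a ∈ Pd n :=
  mem_Pd.2 fun α hα => by rw [← h.dm, mem_Pd.1 ha α hα, map_zero]

theorem Pd_D1 (ha : a ∈ Pd (n + 1)) (i : Fin 4) : D1 i a ∈ Pd n :=
  mem_Pd.2 fun α hα => by rw [← Dm_succ_ap, mem_Pd.1 ha _ (by simp [dg_add, hα])]

theorem Pd_Dm (ha : a ∈ Pd (n + dg α)) : Dm α a ∈ Pd n :=
  mem_Pd.2 fun β hβ => by rw [Dm_Dm, mem_Pd.1 ha _ (by simp [dg_add, hβ])]

theorem Pd_zero (ha : a ∈ Pd 0) : a = 0 := by simpa using mem_Pd.1 ha 0 rfl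

theorem mem_box_ex (x : St) : ∃ R, x ∈ box R :=
  ⟨∑ i, (x i).natAbs, La.mem_box.2 fun i => by
    have := single_le_sum (f := fun i => (x i).natAbs) (fun _ _ => Nat.zero_le _) (mem_univ i)
    rw [Int.abs_eq_natAbs]
    exact_mod_cast this⟩

/-- a polynomial is bounded by its jet -/
theorem Pd_sm (ha : a ∈ Pd n) (η : ℕ → ℝ) (h : ∀ α μ, dg α < n → |jet a α μ| ≤ η (dg α)) (R : ℕ) :
    Sm R (∑ j ∈ range n, (4 * R) ^ j * η j) a := by
  simpa using taylor (R := R) (ε := 0) n η (fun α hα e he => by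
    obtain ⟨x, μ⟩ := e
    have : x = 0 := funext fun i => by simpa using La.mem_box.1 (mem_lbox.1 he) i
    subst this
    exact h α μ hα) fun α hα e _ => by simp [mem_Pd.1 ha α hα]

theorem Pd_ext (ha : a ∈ Pd n) (h : ∀ α μ, dg α < n → jet a α μ = 0) : a = 0 := funext fun e => by
  obtain ⟨R, hR⟩ := mem_box_ex e.1
  simpa using Pd_sm ha (fun _ => 0) (fun α μ hα => by simp [h α μ hα]) R e (mem_lbox.2 hR)

theorem nw_jet (ha : a ∈ Pd n) : nw n (jet a) = a :=
  sub_eq_zero.1 (Pd_ext (sub_mem (nw_mem n _) ha) fun α μ hα => by simp [jet_nw, hα])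

instance (n : ℕ) : FiniteDimensional ℝ (Pd n) := by
  classical
  have : FiniteDimensional ℝ (Submodule.span ℝ
      (((Ix n ×ˢ univ).image fun p : Mi × Fin 4 => nb p.1 p.2 : Finset V) : Set V)) :=
    FiniteDimensional.span_finset ℝ _
  refine Submodule.finiteDimensional_of_le (S₂ := Submodule.span ℝ
    (((Ix n ×ˢ univ).image fun p : Mi × Fin 4 => nb p.1 p.2 : Finset V) : Set V)) fun a ha => ?_
  rw [← nw_jet ha, nw_ap]
  exact sum_mem fun α hα => sum_mem fun μ _ => Submodule.smul_mem _ _ (Submodule.subset_span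
    (mem_coe.2 (mem_image.2 ⟨(α, μ), mem_product.2 ⟨hα, mem_univ _⟩, rfl⟩)))

theorem dd_zero (a : V) (μ ν : Fin 4) : dd a 0 μ ν = jet a (ei μ) ν - jet a (ei ν) μ := by
  simp only [jet_ap, Dm_ei, D1_ap, dd, zero_add]
  ring

theorem jet_Dm (α β : Mi) (a : V) : jet (Dm β a) α = jet a (α + β) := by
  funext μ
  rw [jet_ap, Dm_Dm, jet_ap]

theorem dd_Dm (α : Mi) (a : V) (μ ν : Fin 4) :
    dd (Dm α a) 0 μ ν = jet a (α + ei μ) ν - jet a (α + ei ν) μ := by
  rw [dd_zero, jet_Dm, jet_Dm, add_comm, add_comm (ei ν)]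

end Pool.Agent.Lib.MP_7f377f_mp.RG.Jt
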