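import Pool.Agent.Lib.MP_7f377f_mp.JtA

/-! The operator of a quadratic density; interior estimates. -/

noncomputable section

namespace Pool.Agent.Lib.MP_7f377f_mp.RG.Jt

open Finset
open scoped Pointwise

/-- the operator of the density `m` of range `R` -/
def Mo (R : ℕ) (m : BF) : Module.End ℝ V := LinearMap.pi fun e =>
  ∑ u ∈ box R, m.flip (Pi.single (u, e.2) 1) ∘ₗ shL (e.1 - u)

variable {α : Mi} {ν μ : Fin 4} {a b φ : V} {R n ρ w : ℕ} {δ s X cL cU : ℝ} {m : BF}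

theorem Mo_ap (R : ℕ) (m : BF) (a : V) (e : Lk) :
    Mo R m a e = ∑ u ∈ box R, m (sh (e.1 - u) a) (Pi.single (u, e.2) 1) := by
  simp [Mo, shL_apply]

theorem cov_Mo (R : ℕ) (m : BF) : Cov (Mo R m) := fun x a => funext fun e => by
  simp only [Mo_ap, sh_apply, sh_sh, add_sub_right_comm]

theorem Mo_gr (hg : ∀ u b, m (gr u) b = 0) (u : St → ℝ) : Mo R m (gr u) = 0 := funext fun e => by
  simp [Mo_ap, sh_gr, hg]

theorem Mo_io (hg : ∀ u b, m (gr u) b = 0) (ν : Fin 4) (a : V) :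
    Mo R m (io ν a) = D1 ν (Mo R m a) := by
  rw [← Dm_ei, ← (cov_Mo R m).dm, Dm_ei, cartan, map_add, Mo_gr hg, add_zero]

theorem m_exp (h : Rng R R m) (c φ : V) :
    m c φ = ∑ u ∈ box R, ∑ μ, φ (u, μ) * m c (Pi.single (u, μ) 1) := by
  have k : ∀ e ∈ lbox R, φ e = (∑ e ∈ lbox R, φ e • (Pi.single e 1 : V)) e :=
    fun e he => by simp [Finset.sum_apply, Pi.single_apply, he]
  rw [Lin.m_cut h (fun _ _ => rfl) k, lbox, sum_product]
  simp only [map_sum, map_smul, smul_eq_mul]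

/-- weak form -/
theorem weak (h : Rng R R m) {T S : Finset St} (hT : ∀ e : Lk, e.1 ∉ T → φ e = 0)
    (hS : ∀ x ∈ T, ∀ u ∈ box R, x - u ∈ S) (a : V) :
    ∑ z ∈ S, m (sh z a) (sh z φ) = ∑ x ∈ T, ∑ μ, φ (x, μ) * Mo R m a (x, μ) := by
  simp only [m_exp h (sh _ a) (sh _ φ), Mo_ap, mul_sum, sh_apply]
  rw [sum_comm, sum_congr rfl fun x (_ : x ∈ T) => sum_comm (s := univ) (t := box R),
    sum_comm (s := T)]
  refine sum_congr rfl fun u hu => ?_
  have := Li.sum_shift T (-u) fun z => ∑ μ, φ (u + z, μ) * m (sh z a) (Pi.single (u, μ) 1)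
  simp only [neg_add_eq_sub, add_sub_cancel] at this
  rw [this]
  refine (sum_subset (fun z hz => ?_) fun z _ hz => sum_eq_zero fun μ _ => ?_).symm
  · obtain ⟨x, hx, rfl⟩ := mem_image.1 hz
    exact hS x hx u hu
  · rw [hT _ fun h1 => hz (mem_image.2 ⟨_, h1, by simp⟩), zero_mul]

theorem ex_tr (B : Finset St) (x : St) : ∃ T : Finset St, ∀ y, y ∈ T ↔ y - x ∈ B :=
  ⟨B.image (· + x), fun y => ⟨fun h => by
    obtain ⟨z, hz, rfl⟩ := mem_image.1 h
    rwa [add_sub_cancel_right], fun h => mem_image.2 ⟨_, h, sub_add_cancel _ _⟩⟩⟩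

/-- the current is conserved -/
theorem Mo_div (h : Rng R R m) (hs : ∀ a b, m a b = m b a) (hg : ∀ u b, m (gr u) b = 0) (a : V)
    (x : St) : ∑ μ, (Mo R m a (x, μ) - Mo R m a (x - un μ, μ)) = 0 := by
  obtain ⟨T, hT⟩ := ex_tr (box 1) x
  have t0 : x ∈ T := (hT _).2 (by rw [sub_self]; exact zero_mem_box 1)
  have t1 : ∀ μ, x - un μ ∈ T := fun μ => (hT _).2 (by
    rw [sub_sub_cancel_left]; exact neg_mem_box (un_mem_box _))
  have h1 := weak (φ := gr fun y => if y = x then (1 : ℝ) else 0) h (T := T)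
    (S := box R + T) (fun e he => by
      have h2 : e.1 ≠ x := fun h => he (h ▸ t0)
      have h3 : e.1 + un e.2 ≠ x := fun h => he (by rw [eq_sub_of_add_eq h]; exact t1 _)
      simp [gr, h2, h3])
    (fun y hy u hu => mem_add.2 ⟨-u, neg_mem_box hu, y, hy, by abel⟩) a
  simp only [sh_gr, hs (sh _ a), hg, sum_const_zero] at h1
  rw [sum_comm] at h1
  simp only [gr, sub_mul, sum_sub_distrib, ← eq_sub_iff_add_eq, ite_mul, one_mul, zero_mul,
    sum_ite_eq', t0, t1, if_true] at h1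
  rw [sum_sub_distrib]
  linarith

theorem clamp_lip (s t : ℝ) : |max 0 (min 1 s) - max 0 (min 1 t)| ≤ |s - t| := by
  have h1 := le_abs_self (s - t)
  have h2 := neg_abs_le (s - t)
  have h3 := abs_nonneg (s - t)
  simp only [max_def, min_def, abs_le]
  split_ifs <;> constructor <;> linarith

theorem mem_box_norm {x : St} : x ∈ box R ↔ ‖x‖ ≤ R := by
  rw [La.mem_box, pi_norm_le_iff_of_nonneg (by positivity)]
  refine forall_congr' fun i => ?_
  rw [Int.norm_eq_abs]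
  exact_mod_cast Iff.rfl

theorem ex_cut (ρ : ℕ) (hw : 0 < w) : ∃ χ : St → ℝ, (∀ x, |χ x| ≤ 1) ∧
    (∀ x ∈ box (ρ + 1), χ x = 1) ∧ (∀ x ∉ box (ρ + w), χ x = 0) ∧
    ∀ (R : ℕ) z, ∀ u ∈ box R, |χ (u + z) - χ z| ≤ R / w := by
  have w0 : (0 : ℝ) < w := by positivity
  refine ⟨fun x => max 0 (min 1 ((ρ + 1 + w - ‖x‖) / w)), fun x => ?_, fun x hx => ?_,
    fun x hx => ?_, fun R z u hu => (clamp_lip _ _).trans ?_⟩
  · rw [abs_of_nonneg (le_max_left _ _)]
    exact max_le zero_le_one (min_le_left _ _)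
  · have := mem_box_norm.1 hx
    push_cast at this
    beta_reduce
    rw [min_eq_left (by rw [le_div_iff₀ w0]; linarith), max_eq_right zero_le_one]
  · obtain ⟨i, hi⟩ := not_forall.1 fun h => hx (La.mem_box.2 h)
    have h1 : ((ρ + w + 1 : ℕ) : ℝ) ≤ ‖x‖ := by
      refine le_trans ?_ (norm_le_pi_norm x i)
      rw [Int.norm_eq_abs]
      have : ((ρ + w + 1 : ℕ) : ℤ) ≤ |x i| := by push_cast at hi ⊢; omega
      exact_mod_cast this
    push_cast at h1
    exact max_eq_left ((min_le_right _ _).trans (div_nonpos_of_nonpos_of_nonneg (by linarith) w0.le))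
  · rw [← sub_div, abs_div, abs_of_pos w0]
    refine div_le_div_of_nonneg_right ?_ w0.le
    have := abs_norm_sub_norm_le z (u + z)
    rw [show z - (u + z) = -u by abel, norm_neg] at this
    rw [show (ρ + 1 + w - ‖u + z‖ - (ρ + 1 + w - ‖z‖) : ℝ) = ‖z‖ - ‖u + z‖ by ring]
    exact this.trans (mem_box_norm.1 hu)

/-- the constant of the commutator -/
def KC (R : ℕ) : ℝ := 1 + 10240 * Lin.KK ^ 2 * (2 * R + 3) ^ 10

theorem KC_one (R : ℕ) : 1 ≤ KC R := le_add_of_nonneg_right (by positivity)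

/-- Caccioppoli inequality -/
theorem cacc (hm : Inv n R cL cU m) (hL : cL ≤ 20) (hU : cU ≤ 20) (hw : 0 < w)
    (hs : Sm (ρ + w) s (Mo R m b))
    (hX : ∑ x ∈ box (ρ + w + 2 * R + 2), ∑ μ, b (x, μ) ^ 2 ≤ X) :
    ∑ x ∈ box ρ, nd b x ≤ 20 * (4 * (2 * (ρ + w) + 1) ^ 4 * w ^ 2 * s ^ 2 + KC R / w ^ 2 * X) := by
  obtain ⟨χ, c1, c2, c3, c4⟩ := ex_cut ρ hw
  have w0 : (0 : ℝ) < w := by positivity
  set q : St → ℝ := fun x => ∑ μ, b (x, μ) ^ 2 with hq
  have q0 : ∀ x, 0 ≤ q x := fun x => sum_nonneg fun _ _ => sq_nonneg _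
  have hX' : ∀ U ⊆ box (ρ + w + 2 * R + 2), ∑ x ∈ U, q x ≤ X := fun U hU =>
    (sum_le_sum_of_subset_of_nonneg hU fun x _ _ => q0 x).trans hX
  have X0 : 0 ≤ X := by simpa using hX' ∅ (by simp)
  set K : ℝ := 5120 * Lin.KK ^ 2 * (2 * R + 3) ^ 4 with hK
  have K0 : 0 ≤ K := by positivity
  set b1 : V := fun e => χ e.1 * b e with hb1
  set b2 : V := fun e => χ e.1 ^ 2 * b e with hb2
  have h1 : ∑ x ∈ box ρ, nd b x = ∑ x ∈ box ρ, nd b1 x := sum_congr rfl fun x hx => by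
    simp only [nd, dd, hb1, c2 _ (box_mono (Nat.le_succ ρ) hx), c2 _ (add_un_mem_box hx _), one_mul]
  have h2 : ∀ z, m (sh z b1) (sh z b1) ≤ m (sh z b) (sh z b2) +
      2 * K * (R / w) ^ 2 * ∑ u ∈ box R, q (u + z) := fun z => by
    set c := sh z b with hc
    set p1 : V := fun e => (χ (e.1 + z) - χ z) * c e
    set p2 : V := fun e => (χ (e.1 + z) - χ z) ^ 2 * c e
    have e1 : sh z b1 = χ z • c + p1 := funext fun e => by
      simp only [hb1, hc, p1, sh_apply, Pi.add_apply, Pi.smul_apply, smul_eq_mul]; ring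
    have e2 : sh z b2 = χ z ^ 2 • c + (2 * χ z) • p1 + p2 := funext fun e => by
      simp only [hb2, hc, p1, p2, sh_apply, Pi.add_apply, Pi.smul_apply, smul_eq_mul]; ring
    have d0 : 0 ≤ ∑ u ∈ box R, q (u + z) := sum_nonneg fun _ _ => q0 _
    have s0 : Sm R √(∑ u ∈ box R, q (u + z)) c := fun e he => Real.abs_le_sqrt
      ((single_le_sum (f := fun μ => b (e.1 + z, μ) ^ 2) (fun _ _ => sq_nonneg _)
        (mem_univ e.2)).trans (single_le_sum (f := fun u => q (u + z)) (fun _ _ => q0 _)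
        (mem_lbox.1 he)))
    have s1 : Sm R (R / w * √(∑ u ∈ box R, q (u + z))) p1 := fun e he =>
      (abs_mul _ _).trans_le (mul_le_mul (c4 R z _ (mem_lbox.1 he)) (s0 e he) (abs_nonneg _)
        (by positivity))
    have s2 : Sm R ((R / w) ^ 2 * √(∑ u ∈ box R, q (u + z))) p2 := fun e he =>
      (abs_mul _ _).trans_le (mul_le_mul (by
        rw [abs_pow]; exact pow_le_pow_left₀ (abs_nonneg _) (c4 R z _ (mem_lbox.1 he)) 2)
        (s0 e he) (abs_nonneg _) (by positivity))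
    have t1 := (abs_le.1 (Lin.m_bd hm hU s1 s1)).2
    have t2 := (abs_le.1 (Lin.m_bd hm hU s0 s2)).1
    have t3 := Real.mul_self_sqrt d0
    rw [← hK] at t1 t2
    generalize √(∑ u ∈ box R, q (u + z)) = y at *
    rw [e1, e2, ← t3]
    simp only [map_add, map_smul, LinearMap.add_apply, LinearMap.smul_apply, smul_eq_mul,
      hm.symm p1 c]
    nlinarith
  have h3 := weak (φ := b2) hm.rng (T := box (ρ + w)) (S := box (ρ + w + R + 2))
    (fun e he => by simp [hb2, c3 _ he])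
    (fun x hx u hu => box_mono (by omega) (sub_mem_box hx hu)) b
  have h4 : ∑ x ∈ box (ρ + w), ∑ μ, b2 (x, μ) * Mo R m b (x, μ) ≤
      X / w ^ 2 + 4 * (2 * (ρ + w) + 1) ^ 4 * w ^ 2 * s ^ 2 := by
    have : ∀ x ∈ box (ρ + w), ∑ μ, b2 (x, μ) * Mo R m b (x, μ) ≤ q x / w ^ 2 + 4 * (w ^ 2 * s ^ 2) :=
      fun x hx => by
      have : ∀ μ, b2 (x, μ) * Mo R m b (x, μ) ≤ b (x, μ) ^ 2 / w ^ 2 + w ^ 2 * s ^ 2 := fun μ => by
        have a1 : |Mo R m b (x, μ)| ≤ s := hs (x, μ) (mem_lbox.2 hx)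
        have a2 : |b2 (x, μ)| ≤ |b (x, μ)| := by
          rw [hb2, abs_mul, abs_pow]
          exact mul_le_of_le_one_left (abs_nonneg _) (pow_le_one₀ (abs_nonneg _) (c1 x))
        have a3 := (le_abs_self _).trans ((abs_mul _ _).trans_le
          (mul_le_mul a2 a1 (abs_nonneg _) (abs_nonneg _)))
        have a4 : |b (x, μ)| * s = |b (x, μ)| / w * (w * s) := by field_simp
        rw [← sq_abs (b _), ← div_pow, ← mul_pow]
        nlinarith [sq_nonneg (|b (x, μ)| / w - w * s), sq_nonneg (|b (x, μ)| / w), sq_nonneg (w * s)]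
      refine (sum_le_sum fun μ _ => this μ).trans_eq ?_
      simp [sum_add_distrib, hq, sum_div]
    refine (sum_le_sum this).trans ?_
    rw [sum_add_distrib, ← sum_div, sum_const, card_box, nsmul_eq_mul]
    refine add_le_add (div_le_div_of_nonneg_right (hX' _ fun x hx => box_mono (by omega) hx)
      (by positivity)) (le_of_eq ?_)
    push_cast
    ring
  have h5 := La.sum_conv_le (h := q) (W := box R) (Y := box (ρ + w + R + 2)) (M := X) fun U hU =>
    hX' U fun x hx => by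
      obtain ⟨y, hy, z, hz, rfl⟩ := mem_add.1 (hU hx)
      exact box_mono (by omega) (add_mem_box hy hz)
  have h6 : ∑ z ∈ box ρ + box 2, m (sh z b1) (sh z b1) ≤
      ∑ z ∈ box (ρ + w + R + 2), m (sh z b1) (sh z b1) :=
    sum_le_sum_of_subset_of_nonneg (fun x hx => by
      obtain ⟨y, hy, z, hz, rfl⟩ := mem_add.1 hx
      exact box_mono (by omega) (add_mem_box hy hz)) fun _ _ _ => hm.psd _
  have h7 := sum_le_sum fun z (_ : z ∈ box (ρ + w + R + 2)) => h2 z
  rw [sum_add_distrib, ← mul_sum, h3] at h7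
  have h8 : 2 * K * (R / w) ^ 2 * ∑ z ∈ box (ρ + w + R + 2), ∑ u ∈ box R, q (u + z) ≤
      (KC R - 1) / w ^ 2 * X := by
    refine (mul_le_mul_of_nonneg_left h5 (by positivity)).trans ?_
    rw [card_box, ← mul_assoc]
    refine mul_le_mul_of_nonneg_right ?_ X0
    rw [div_pow, mul_div_assoc', div_mul_eq_mul_div]
    refine div_le_div_of_nonneg_right ?_ (by positivity)
    push_cast
    calc _ ≤ 2 * K * (2 * R + 3) ^ 2 * (2 * R + 3) ^ 4 := by
          gcongr <;> linarith [(Nat.cast_nonneg R : (0 : ℝ) ≤ R)]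
      _ = _ := by rw [hK, KC]; ring
  rw [h1]
  refine (hm.lower _ _).trans ((mul_le_mul_of_nonneg_right hL
    (sum_nonneg fun _ _ => hm.psd _)).trans (mul_le_mul_of_nonneg_left ?_ (by norm_num)))
  have : KC R / w ^ 2 * X = (KC R - 1) / w ^ 2 * X + X / w ^ 2 := by ring
  linarith

/-- partial cubes -/
def Cu (N : ℕ) (A : Finset (Fin 4)) : Finset St :=
  Fintype.piFinset fun j => if j ∈ A then Icc (0 : ℤ) N else {0}

theorem sob_ind {N : ℕ} (hN : 0 < N) (μ : Fin 4) (B : Finset (Fin 4)) : ∀ (a : V) (X : ℝ),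
    (∀ α, dg α ≤ B.card → ∑ x ∈ Cu N univ, Dm α a (x, μ) ^ 2 ≤ X / N ^ (2 * dg α)) →
    ∑ x ∈ Cu N Bᶜ, a (x, μ) ^ 2 ≤ 4 ^ B.card * X / N ^ B.card := by
  have N0 : (0 : ℝ) < N := by positivity
  induction B using Finset.induction with
  | empty => exact fun a X h => by simpa using h 0 (by simp)
  | insert i B hi ih =>
    intro a X h
    rw [card_insert_of_notMem hi] at h ⊢
    have k : ∀ g : St → ℝ, ∑ x ∈ Cu N (insert i B)ᶜ, ∑ s ∈ range N, g (x + (s : ℤ) • un i) ^ 2 ≤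
        ∑ x ∈ Cu N Bᶜ, g x ^ 2 := fun g => by
      have z : ∀ x ∈ Cu N (insert i B)ᶜ, x i = 0 := fun x hx => by
        simpa using Fintype.mem_piFinset.1 hx i
      rw [← sum_product', ← sum_image (f := fun x => g x ^ 2)
        (g := fun p : St × ℕ => p.1 + (p.2 : ℤ) • un i) fun p hp p' hp' h => by
          have h1 := congrFun h i
          simp only [Pi.add_apply, Pi.smul_apply, un_self, smul_eq_mul, mul_one,
            z _ (mem_product.1 hp).1, z _ (mem_product.1 hp').1, zero_add, Nat.cast_inj] at h1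
          exact Prod.ext (by simpa [h1] using h) h1]
      refine sum_le_sum_of_subset_of_nonneg (fun x hx => ?_) fun _ _ _ => sq_nonneg _
      obtain ⟨p, hp, rfl⟩ := mem_image.1 hx
      refine Fintype.mem_piFinset.2 fun j => ?_
      by_cases hj : j = i
      · subst hj
        simpa [hi, z _ (mem_product.1 hp).1] using (mem_range.1 (mem_product.1 hp).2).le
      · simpa [hj, un_ne hj] using Fintype.mem_piFinset.1 (mem_product.1 hp).1 j
    have h1 := ih a X fun α hα => h α (by omega)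
    have h2 := ih (D1 i a) (X / N ^ 2) fun α hα => by
      have := h (α + ei i) (by simpa [dg_add] using hα)
      rw [Dm_succ_ap, dg_add, dg_ei] at this
      exact this.trans_eq (by rw [div_div, ← pow_add]; congr 2; ring)
    have h3 := sum_le_sum fun x (_ : x ∈ Cu N (insert i B)ᶜ) =>
      Lin.sob (fun s => a (x + (s : ℤ) • un i, μ)) hN
    simp only [Nat.cast_zero, zero_smul, add_zero, sum_add_distrib, ← mul_sum, Nat.cast_succ,
      add_smul, one_smul, ← add_assoc] at h3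
    refine h3.trans ((add_le_add (mul_le_mul_of_nonneg_left ((k fun x => a (x, μ)).trans h1)
      (by positivity)) (mul_le_mul_of_nonneg_left ((k fun x => D1 i a (x, μ)).trans h2)
      (by positivity))).trans_eq ?_)
    field_simp
    ring

/-- discrete Sobolev inequality -/
theorem sob4 {N : ℕ} (hN : 0 < N) (μ : Fin 4)
    (h : ∀ α, dg α ≤ 4 → ∑ x ∈ box N, Dm α a (x, μ) ^ 2 ≤ (X / N ^ dg α) ^ 2) (X0 : 0 ≤ X) :
    |a (0, μ)| ≤ 16 * X / N ^ 2 := by
  have h1 := sob_ind hN μ univ a (X ^ 2) fun α hα => by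
    refine (sum_le_sum_of_subset_of_nonneg (fun x hx => mem_box.2 fun i => ?_)
      fun _ _ _ => sq_nonneg _).trans ((h α (by simpa using hα)).trans_eq ?_)
    · have := Fintype.mem_piFinset.1 hx i
      simp only [mem_univ, if_true, mem_Icc] at this
      omega
    · rw [div_pow, ← pow_mul, mul_comm]
  have h2 : Cu N (univ : Finset (Fin 4))ᶜ = {0} := by
    ext x
    simp [Cu, funext_iff]
  rw [h2, sum_singleton] at h1
  refine abs_le_of_sq_le_sq (h1.trans_eq ?_) (by positivity)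
  simp only [card_univ, Fintype.card_fin]
  ring

theorem sum_io (a : V) (x : St) : ∑ ν, ∑ μ, io ν a (x, μ) ^ 2 = nd a x := rfl

theorem sq_io_le (a : V) (x : St) (ν : Fin 4) : ∑ μ, io ν a (x, μ) ^ 2 ≤ nd a x :=
  single_le_sum (f := fun ν => ∑ μ, io ν a (x, μ) ^ 2)
    (fun _ _ => sum_nonneg fun _ _ => sq_nonneg _) (mem_univ ν)

/-- the constant of one differentiation -/
def KG (R J : ℕ) : ℝ := 20 * (4 * (4 * J + 3) ^ 4 + KC R)

theorem KG_one (R J : ℕ) : 1 ≤ KG R J := by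
  have := KC_one R
  have : (0 : ℝ) ≤ 4 * (4 * J + 3) ^ 4 := by positivity
  unfold KG
  linarith

/-- iterated Caccioppoli inequality -/
theorem cacc_it (hm : Inv n R cL cU m) (hL : cL ≤ 20) (hU : cU ≤ 20) (hw : 2 * R + 2 ≤ w) {J : ℕ}
    {A : ℝ} (hE : ∑ x ∈ box ((2 * J + 1) * w), nd a x ≤ A ^ 2)
    (hS : ∀ α, 1 ≤ dg α → dg α ≤ J →
      Sm ((2 * J + 1) * w) (A / w ^ (3 + dg α)) (Dm α (Mo R m a))) (j : ℕ) :
    ∀ k α, dg α = j → j + k = J →
      ∑ x ∈ box ((2 * k + 1) * w), nd (Dm α a) x ≤ (KG R J ^ j * A / w ^ j) ^ 2 := by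
  have w1 : 0 < w := by omega
  have w0 : (0 : ℝ) < w := by positivity
  have G1 := KG_one R J
  induction j with
  | zero =>
    rintro k α hα h
    rw [zero_add] at h
    simpa [dg_eq_zero hα, h] using hE
  | succ j ih =>
    intro k α hα h
    obtain ⟨β, ν, rfl, hβ⟩ := ex_succ hα
    have h1 := ih (k + 1) β hβ (by omega)
    have e1 : (2 * (k + 1) + 1) * w = (2 * k + 1) * w + w + w := by ring
    have e2 : (2 * (k + 1) + 1) * w ≤ (2 * J + 1) * w := Nat.mul_le_mul_right _ (by omega)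
    have h2 := cacc (b := io ν (Dm β a)) (ρ := (2 * k + 1) * w) hm hL hU w1 (by
      rw [Mo_io hm.gauge, (cov_Mo R m).dm, ← Dm_succ_ap']
      exact (hS _ (by omega) (by omega)).mono (by omega) le_rfl)
      ((sum_le_sum fun x _ => sq_io_le _ x ν).trans ((sum_le_sum_of_subset_of_nonneg
        (fun x hx => box_mono (by omega) hx) fun _ _ _ => Li.nd_nonneg _ _).trans h1))
    simp only [nd, dd_io] at h2
    simp only [nd, Dm_succ_ap']
    refine h2.trans ?_
    have e3 : (2 * (((2 * k + 1) * w : ℕ) + w) + 1 : ℝ) ≤ (4 * J + 3) * w := by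
      have : 2 * ((2 * k + 1) * w + w) + 1 ≤ (4 * J + 3) * w := by
        obtain rfl : J = j + 1 + k := h.symm
        nlinarith [Nat.zero_le (j * w)]
      exact_mod_cast this
    have K0 := (KC_one R).trans' zero_le_one
    have g1 : 1 ≤ (KG R J ^ j) ^ 2 := one_le_pow₀ (one_le_pow₀ G1)
    calc _ ≤ 20 * (4 * ((4 * J + 3) * w) ^ 4 * w ^ 2 * ((KG R J ^ j) ^ 2 * (A / w ^ (3 + (j + 1))) ^ 2)
          + KC R / w ^ 2 * (KG R J ^ j * A / w ^ j) ^ 2) := by
          rw [hα]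
          gcongr
          exact le_mul_of_one_le_left (by positivity) g1
      _ = KG R J * (KG R J ^ j * A / w ^ (j + 1)) ^ 2 := by
          nth_rewrite 3 [KG]
          field_simp
          ring
      _ ≤ KG R J ^ 2 * (KG R J ^ j * A / w ^ (j + 1)) ^ 2 := by
          gcongr
          nlinarith
      _ = _ := by ring

theorem cacc_w (hm : Inv n R cL cU m) (hL : cL ≤ 20) (hU : cU ≤ 20) (hw : 2 * R + 2 ≤ w) {J : ℕ}
    {A : ℝ} (A0 : 0 ≤ A) (hE : ∑ x ∈ box ((2 * J + 1) * w), nd a x ≤ A ^ 2)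
    (hS : ∀ α, 1 ≤ dg α → dg α ≤ J →
      Sm ((2 * J + 1) * w) (A / w ^ (3 + dg α)) (Dm α (Mo R m a))) (hα : dg α ≤ J) :
    ∑ x ∈ box w, nd (Dm α a) x ≤ (KG R J ^ J * A / w ^ dg α) ^ 2 := by
  have G1 := KG_one R J
  obtain ⟨k, hk⟩ := Nat.exists_eq_add_of_le hα
  refine (sum_le_sum_of_subset_of_nonneg
    (fun x hx => box_mono (Nat.le_mul_of_pos_left _ (by omega)) hx)
    fun _ _ _ => Li.nd_nonneg _ _).trans ((cacc_it hm hL hU hw hE hS _ k _ rfl hk.symm).trans ?_)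
  gcongr

theorem sup_of_en {J : ℕ} (w1 : 0 < w) (X0 : 0 ≤ X)
    (h : ∀ γ, dg γ ≤ J → ∑ x ∈ box w, nd (Dm γ a) x ≤ (X / w ^ dg γ) ^ 2) (hα : dg α + 4 ≤ J) :
    Cv 0 (16 * X / w ^ (2 + dg α)) (Dm α a) := by
  have w0 : (0 : ℝ) < w := by positivity
  intro x hx ν μ
  obtain rfl : x = 0 := funext fun i => by simpa using La.mem_box.1 hx i
  refine (sob4 (a := io ν (Dm α a)) (X := X / w ^ dg α) w1 μ (fun β hβ => ?_)
    (by positivity)).trans_eq (by rw [pow_add]; field_simp)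
  rw [← (cov_io ν).dm, Dm_Dm]
  refine le_trans (sum_le_sum fun x _ => Li.sq_le_nd _ x ν μ)
    ((h _ (by rw [dg_add]; omega)).trans_eq ?_)
  rw [div_div, ← pow_add, dg_add, add_comm (dg α)]

/-- interior estimate at the origin -/
theorem int_est (hm : Inv n R cL cU m) (hL : cL ≤ 20) (hU : cU ≤ 20) (hw : 2 * R + 2 ≤ w) {J : ℕ}
    {A : ℝ} (A0 : 0 ≤ A) (hE : ∑ x ∈ box ((2 * J + 1) * w), nd a x ≤ A ^ 2)
    (hS : ∀ α, 1 ≤ dg α → dg α ≤ J →
      Sm ((2 * J + 1) * w) (A / w ^ (3 + dg α)) (Dm α (Mo R m a))) (hα : dg α + 4 ≤ J) :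
    Cv 0 (16 * (KG R J ^ J * A) / w ^ (2 + dg α)) (Dm α a) :=
  have G1 := KG_one R J
  sup_of_en (by omega) (by positivity) (fun _ hγ => cacc_w hm hL hU hw A0 hE hS hγ) hα

/-- interior estimate when the first differences are known in the mean -/
theorem int_est2 (hm : Inv n R cL cU m) (hL : cL ≤ 20) (hU : cU ≤ 20) (hw : 2 * R + 2 ≤ w) {J : ℕ}
    {A : ℝ} (A0 : 0 ≤ A) (hE : ∑ x ∈ box w, nd a x ≤ A ^ 2)
    (hE1 : ∀ κ, ∑ x ∈ box ((2 * J + 1) * w), nd (D1 κ a) x ≤ (A / w) ^ 2)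
    (hS : ∀ α, 2 ≤ dg α → dg α ≤ J + 1 →
      Sm ((2 * J + 1) * w) (A / w ^ (3 + dg α)) (Dm α (Mo R m a))) (hα : dg α + 3 ≤ J) :
    Cv 0 (16 * (KG R J ^ J * A) / w ^ (2 + dg α)) (Dm α a) := by
  have G1 := KG_one R J
  have w0 : (0 : ℝ) < w := by exact_mod_cast (show 0 < w by omega)
  refine sup_of_en (J := J + 1) (by omega) (by positivity) (fun γ hγ => ?_) (by omega)
  rcases h : dg γ with _ | j
  · rw [dg_eq_zero h, pow_zero, div_one]
    exact hE.trans (pow_le_pow_left₀ A0 (le_mul_of_one_le_left A0 (one_le_pow₀ G1)) 2)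
  · obtain ⟨β, κ, rfl, hβ⟩ := ex_succ h
    rw [Dm_succ_ap]
    refine (cacc_w hm hL hU hw (by positivity) (hE1 κ) (fun β h1 h2 => ?_)
      (by omega)).trans_eq
      (by rw [hβ]; field_simp; ring)
    rw [← Dm_ei, (cov_Mo R m).dm, Dm_Dm]
    refine (hS _ (by simpa [dg_add] using h1) (by simpa [dg_add] using h2)).mono le_rfl (le_of_eq ?_)
    rw [dg_add, dg_ei, ← add_assoc, pow_succ]
    field_simp

end Pool.Agent.Lib.MP_7f377f_mp.RG.Jt
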