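import Pool.Agent.Lib.MP_7f377f_mp.JtY

/-! The linear step on the slow fields. -/

noncomputable section

namespace Pool.Agent.Lib.MP_7f377f_mp.RG.Jt

open Finset

attribute [local irreducible] box lbox

/-- the dilation of the coordinates -/
def dil (s : ℕ) (L : ℝ) : Module.End ℝ (Ia s → ℝ) :=
  LinearMap.pi fun a => (L ^ wt a)⁻¹ • LinearMap.proj a

/-- the on shell part -/
def Pon (s : ℕ) : Module.End ℝ (Ia s → ℝ) :=
  LinearMap.pi fun a => if a.isLeft then LinearMap.proj a else 0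

/-- the coordinates of the image of a coarse field -/
def lI (s R : ℕ) (m : BF) (v L : ℝ) (T : V →ₗ[ℝ] V) : V →ₗ[ℝ] Ia s → ℝ :=
  dil s L⁻¹ ∘ₗ crd R m v s ∘ₗ pj R m s ∘ₗ T

/-- the coarse field of a slow field -/
def Gs (s l R : ℕ) (m : BF) (v : ℝ) (z : St) : (Ia s → ℝ) →ₗ[ℝ] V :=
  Gm l R m ∘ₗ shL (-z) ∘ₗ sec R m v s ∘ₗ dil s (LL l)

def Ys (s l R R1 : ℕ) (m m1 : BF) (v : ℝ) (z : St) : (Ia s → ℝ) →ₗ[ℝ] V :=
  pj0 R1 m1 s ∘ₗ Gs s l R m v z ∘ₗ Pon s + pj R1 m1 s ∘ₗ Gs s l R m v z ∘ₗ (1 - Pon s)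

/-- the step on the coordinates -/
def UU (s l R R1 : ℕ) (m m1 : BF) (v v1 : ℝ) (z : St) : Module.End ℝ (Ia s → ℝ) :=
  crd R1 m1 v1 s ∘ₗ Ys s l R R1 m m1 v z

/-- coordinates of degree at most `k` -/
def Fk (s k : ℕ) : Submodule ℝ (Ia s → ℝ) := ⨅ a ∈ {a : Ia s | k < dI a}, LinearMap.ker (.proj a)

/-- on shell coordinates -/
def Fo (s : ℕ) : Submodule ℝ (Ia s → ℝ) := ⨅ k, LinearMap.ker (.proj (Sum.inr k))

/-- interior regularity of `T` -/
structure Ir (s R' ρ R : ℕ) (m : BF) (T : V →ₗ[ℝ] V) (L X : ℝ) : Prop where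
  jt : ∀ B δ, Cv R' δ B → ∀ α, dg α ≤ s + 1 → Cv ρ (X * δ / L ^ (2 + dg α)) (Dm α (T B))
  src : ∀ B δ, Cv R' δ B → ∀ α μ, NT α μ → dg α < s → ∀ x ∈ box 1,
    |Dm α (Mo R m (T B)) (x, μ)| ≤ X * δ / L ^ (s + 3)

def KQ (R s : ℕ) (t : ℝ) : ℝ := 2 ^ (s + 1) * (1 + KP R s t * (1 + KM R))

def A1 (s : ℕ) : ℝ := (s + 1) * (4 * (s + 4)) ^ (s + 1) * ((s + 1) * 4 ^ (s + 1) * C2 s)

/-- the defect of the coarse fields -/
def e0 (c l r R s : ℕ) (t : ℝ) : ℝ := 2 * (KP R s t * (2 ^ s * (2 * KZ c l r (s + 1) (s + 1)))) * A1 s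

/-- the defect of the step -/
def e1 (c l r R s : ℕ) (t : ℝ) : ℝ :=
  (s + 1) * (4 * r) ^ (s + 1) * e0 c l r R s t + 4 * (KX c l (s + 2) * A1 s)

variable {α : Mi} {ν μ : Fin 4} {a q B : V} {l r c R R' R1 n k s ρ : ℕ}
  {t A δ τ lam L X v v1 σ σ1 K : ℝ} {m m1 : BF} {T S : V →ₗ[ℝ] V} {z : St}

theorem dil_ap (L : ℝ) (x : Ia s → ℝ) : dil s L x = fun a => x a / L ^ wt a :=
  funext fun a => by simp [dil, div_eq_inv_mul]

theorem dil_dil (h : L ≠ 0) (x : Ia s → ℝ) : dil s L (dil s L⁻¹ x) = x := funext fun a => by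
  simp only [dil_ap, inv_pow, div_inv_eq_mul, mul_div_cancel_right₀ _ (pow_ne_zero _ h)]

theorem Pon_ap (x : Ia s → ℝ) (a : Ia s) : Pon s x a = if a.isLeft then x a else 0 := by
  simp only [Pon, LinearMap.pi_apply]
  split_ifs <;> rfl

theorem mem_Fk {x : Ia s → ℝ} : x ∈ Fk s k ↔ ∀ a, k < dI a → x a = 0 := by simp [Fk]

theorem mem_Fo {x : Ia s → ℝ} : x ∈ Fo s ↔ ∀ k, x (.inr k) = 0 := by simp [Fo]

theorem single_Fk (b : Ia s) : Pi.single b 1 ∈ Fk s (dI b) := mem_Fk.2 fun a h =>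
  Pi.single_eq_of_ne (by rintro rfl; omega) _

theorem norm_le_of {x y : Ia s → ℝ} (h : ∀ a, x a = y a ∨ x a = 0) : ‖x‖ ≤ ‖y‖ :=
  (pi_norm_le_iff_of_nonneg (norm_nonneg _)).2 fun a => by
    rcases h a with h | h <;> rw [h]
    exacts [norm_le_pi_norm y a, by simp]

theorem Pon_or (x : Ia s → ℝ) (a : Ia s) :
    (Pon s x a = x a ∨ Pon s x a = 0) ∧ ((1 - Pon s) x a = x a ∨ (1 - Pon s) x a = 0) := by
  simp only [LinearMap.sub_apply, Module.End.one_apply, Pi.sub_apply, Pon_ap]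
  split_ifs <;> simp

theorem dil_bd (hs : 2 ≤ s) (L1 : 1 ≤ L) (x : Ia s → ℝ) : ‖dil s L⁻¹ x‖ ≤ L ^ (s + 2) * ‖x‖ :=
  (pi_norm_le_iff_of_nonneg (by positivity)).2 fun a => by
    simp only [dil_ap, inv_pow, div_inv_eq_mul, norm_mul, mul_comm (‖x a‖)]
    rw [Real.norm_of_nonneg (by positivity)]
    exact mul_le_mul (pow_le_pow_right₀ L1 (by have := dI_le hs a; unfold wt; omega))
      (norm_le_pi_norm x a) (norm_nonneg _) (by positivity)

theorem cv_sub {b : V} (h : Cv ρ δ a) (h' : Cv ρ A b) : Cv ρ (δ + A) (a - b) := fun x hx μ ν => by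
  rw [La.dd_sub]
  exact (norm_sub_le _ _).trans (add_le_add (h x hx μ ν) (h' x hx μ ν))

theorem cv_top (ha : a ∈ Pd (s + 2)) (h : s < dg α) (A0 : 0 ≤ A) : Cv ρ A (Dm α a) :=
  cv_iff.2 fun ν e _ => by
    rw [(cov_io ν).dm, Pd_ge (io_Pd ha ν) h]
    simpa using A0

theorem wc_of (ha : a ∈ Pd (s + 2)) (A0 : 0 ≤ A) (t0 : 0 ≤ t)
    (h : ∀ α, dg α ≤ s → Cv 0 (A / t ^ dg α) (Dm α a)) : Wc t A a := fun α => by
  by_cases h1 : dg α ≤ s
  exacts [h α h1, cv_top ha (not_le.1 h1) (by positivity)]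

theorem Lv.pj_Pk (hm : Lv R m v σ) (ht : Sc R s σ t K) (a : V) : pj R m s a ∈ Pk R m s :=
  hm.pj_mem ht le_rfl (nT_mem s a)

theorem Lv.crd_le (hm : Lv R m v σ) (ht : Sc R s σ t (K0 s)) (hq : q ∈ Pd (s + 2)) (h : Wc 1 A q) :
    ‖crd R m v s q‖ ≤ C2 s * (t ^ (s + 1) * A) := by
  have t1 := ht.one
  have A0 := h.nonneg
  have c0 := C2_nonneg s
  have := h.scale hq one_pos t1
  rw [mul_one] at this
  exact (pi_norm_le_iff_of_nonneg (by positivity)).2 fun a =>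
    (hm.crd_bd ht hq this a).trans (div_le_self (by positivity) (one_le_pow₀ t1))

theorem Lv.crd_pj (hm : Lv R m v σ) (ht : Sc R s σ t (K0 s)) (hq : q ∈ Pk R m s) :
    crd R m v s (pj R m s q) = crd R m v s q := by
  have h1 := sub_mem hq.1 (hm.pj_Pk ht q).1
  have := hm.crd_le ht h1 (A := 0) (wc_of h1 le_rfl zero_le_one fun α hα => by
    simpa using hm.pj_bd ht (A := 0) (fun γ hγ => cv_top hq.1 (by omega) le_rfl)
      (fun α μ h _ x _ => by rw [hq.2 α μ h, abs_zero]) hα)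
  rw [mul_zero, mul_zero, norm_le_zero_iff, map_sub, sub_eq_zero] at this
  exact this.symm

theorem Lv.pj_wc (hm : Lv R m v σ) (ht : Sc R s σ t K) (h : Cv (2 * R + s + 2) δ a) :
    Wc 1 (KQ R s t * δ) (pj R m s a) := by
  have d0 := h.nonneg
  have k0 := KM_nonneg R
  have p0 := KP_nonneg R s (zero_le_one.trans ht.one)
  refine wc_of (hm.pj_Pk ht a).1 (by unfold KQ; positivity) zero_le_one fun α hα => ?_
  have h1 := cv_sub (cv_Dm (α := α) (ρ := 0) (h.mono (by omega) le_rfl)) (hm.pj_bd ht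
    (A := 2 ^ (s + 1) * ((1 + KM R) * δ)) (fun γ hγ => (cv_Dm (h.mono (by omega) le_rfl)).mono
      le_rfl (by rw [hγ]; gcongr; nlinarith)) (fun β μ _ hβ x hx => (sm_Dm (ρ := 1)
        (hm.bd (h.mono (by omega) le_rfl)) (x, μ) (mem_lbox.2 hx)).trans (by
          gcongr
          exacts [one_le_two, by omega, by linarith])) hα)
  rw [← map_sub, sub_sub_cancel] at h1
  refine h1.mono le_rfl ?_
  have : (2 : ℝ) ^ dg α * δ ≤ 2 ^ (s + 1) * δ := by gcongr; exacts [one_le_two, by omega]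
  rw [one_pow, div_one, KQ]
  linarith

theorem Lv.sec_cv (hm : Lv R m v σ) (ht : Sc R s σ t K) (hs : 2 ≤ s) (hρ : 4 * (ρ : ℝ) ≤ t)
    (x : Ia s → ℝ) : Cv ρ ((s + 1) * (C2 s * t ^ s) * ‖x‖) (sec R m v s x) := by
  have t1 := ht.one
  have := (hm.sec_bd ht hs (c := x) (A := t ^ s * ‖x‖) fun a => by
    rw [le_div_iff₀ (by positivity), mul_comm]
    exact mul_le_mul (pow_le_pow_right₀ t1 (dI_le hs a)) (norm_le_pi_norm x a) (abs_nonneg _)
      (by positivity)).cv t1 (hm.sec_Pk ht hs x).1 hρ 0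
  simpa [mul_assoc] using this

section Int

variable (hm : Lv R m v σ) (ht : Sc R s σ t (K0 s)) (H : Ir s R' ρ R m T L X) (hρ : 2 * R + 1 ≤ ρ)
include hm ht H hρ

theorem Ir.pj (hB : Cv R' δ B) (hα : dg α ≤ s) :
    Cv 0 (KP R s t * (X * δ / L ^ (s + 3))) (Dm α (T B - pj R m s (T B))) :=
  hm.pj_bd ht (fun γ hγ => (H.jt B δ hB γ hγ.le).mono hρ (by rw [hγ, add_comm 2]))
    (H.src B δ hB) hα

theorem Ir.int (hL : L ≠ 0) (hn : n ≤ ρ) (hB : Cv R' δ B) :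
    Cv n ((∑ j ∈ range (s + 1), (4 * n) ^ j * KP R s t + (4 * n) ^ (s + 1)) * X / L ^ (s + 3) * δ)
      (T B - sec R m v s (dil s L (lI s R m v L T B))) := by
  have h1 := taylor_cv (R := n) (ε := X * δ / L ^ (s + 3)) (s + 1) (fun _ => _)
    (fun α hα => H.pj hm ht hρ hB (Nat.lt_succ_iff.1 hα)) fun α hα => by
      have := cv_sub ((H.jt B δ hB α hα.le).mono hn le_rfl)
        (cv_top (α := α) (hm.pj_Pk ht (T B)).1 (by omega) le_rfl)
      rwa [← map_sub, add_zero, hα, add_comm 2] at this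
  intro x hx μ ν
  have h2 := h1 x hx μ ν
  rw [La.dd_sub, ← hm.sec_crd ht (hm.pj_Pk ht _), ← La.dd_sub] at h2
  simp only [lI, LinearMap.comp_apply, dil_dil hL]
  refine h2.trans_eq ?_
  simp only [← mul_assoc, ← sum_mul]
  ring

theorem Ir.bl (hL : t ≤ L) (X0 : 0 ≤ X) (hB : Cv R' δ B) :
    ‖lI s R m v L T B‖ ≤ C2 s * ((1 + KP R s t) * X) * δ := by
  have d0 := hB.nonneg
  have t1 := ht.one
  have L1 := t1.trans hL
  have p0 := KP_nonneg R s (zero_le_one.trans t1)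
  have c0 := C2_nonneg s
  have h1 := hm.crd_bd (ht.mono hm.σ0 hL le_rfl ht.K1) (hm.pj_Pk ht (T B)).1
    (A := (1 + KP R s t) * X * δ / L ^ 2) (wc_of (hm.pj_Pk ht _).1 (by positivity) (by linarith)
      fun α hα => by
        have := cv_sub ((H.jt B δ hB α (by omega)).mono (Nat.zero_le _) le_rfl)
          (H.pj hm ht hρ hB hα)
        rw [← map_sub, sub_sub_cancel] at this
        refine this.mono le_rfl ?_
        have := mul_le_mul_of_nonneg_left (div_le_div_of_nonneg_left (mul_nonneg X0 d0)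
          (by positivity) (pow_le_pow_right₀ L1 (show 2 + dg α ≤ s + 3 by omega))) p0
        rw [div_div, ← pow_add, mul_assoc, mul_div_assoc (1 + _)]
        linarith)
  refine (pi_norm_le_iff_of_nonneg (by positivity)).2 fun a => ?_
  simp only [lI, LinearMap.comp_apply, dil_ap, inv_pow, div_inv_eq_mul, norm_mul]
  rw [Real.norm_of_nonneg (by positivity : 0 ≤ L ^ wt a), ← le_div_iff₀ (by positivity)]
  refine (h1 a).trans_eq ?_
  rw [wt, pow_add]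
  field_simp

end Int

theorem A1_nonneg (s : ℕ) : 0 ≤ A1 s := by
  have := C2_nonneg s
  unfold A1
  positivity

theorem Wc.shf (h : Wc (LL l) A a) (ha : a ∈ Pd (n + 1)) (hz : z ∈ box l) :
    Wc (LL l) (n * 4 ^ n * A) (sh z a) := fun α => by
  rw [cov_Dm]
  exact (h.cv' (κ := 4) (ρ := 0 + l) ha (by exact_mod_cast LL_pos l) (by norm_num)
    (by simp only [LL]; push_cast; linarith [(Nat.cast_nonneg l : (0 : ℝ) ≤ l)]) α).sh hz

theorem cj_sh (h : a ∈ Pd (k + 2)) (z : St) : cj k (sh z a) = cj k a := funext fun p => by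
  rw [cj_ap, cov_Dm, dd_sh, cst_of_Pd (Pd_Dm (α := p.1) (by rwa [mem_Ih.1 p.1.2, add_comm])), cj_ap]

theorem Lv.Gs_wc (hm : Lv R m v σ) (ht : Sc R s σ t K) (hs : 2 ≤ s) (hL : t ≤ LL l)
    (hz : z ∈ box l) (x : Ia s → ℝ) : Wc 1 (A1 s * ‖x‖) (Gs s l R m v z x) := by
  have L0 := La.LL_posR l
  have h0 := hm.sec_Pk ht hs (dil s (LL l) x)
  have h1 := Pk_sh h0 (-z)
  refine ((wc_avgA ((hm.sec_bd (ht.mono hm.σ0 hL le_rfl ht.K1) hs (c := dil s (LL l) x)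
    (A := ‖x‖ / (LL l : ℝ) ^ 2) fun a => ?_).shf h0.1 (neg_mem_box hz)) h1.1).mono zero_le_one
      (le_of_eq ?_)).congr (dd_Gm h1.2 l).symm
  · rw [dil_ap, abs_div, abs_of_pos (by positivity : 0 < (LL l : ℝ) ^ wt a), div_div, ← pow_add]
    exact div_le_div_of_nonneg_right (norm_le_pi_norm x a) (by positivity)
  · rw [A1]
    push_cast
    field_simp
    ring

theorem Lv.Gs_Pd (hm : Lv R m v σ) (ht : Sc R s σ t K) (hs : 2 ≤ s) (hk : k ≤ s) {x : Ia s → ℝ}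
    (hx : x ∈ Fk s k) : Gs s l R m v z x ∈ Pd (k + 2) :=
  Gm_Pd (Pk_sh (hm.sec_mem ht hs hk fun a ha => by simp [dil_ap, mem_Fk.1 hx a ha]) _) l

theorem mem_top (hs : 2 ≤ s) (x : Ia s → ℝ) : x ∈ Fk s s :=
  mem_Fk.2 fun a h => absurd (dI_le hs a) (by omega)

section Step

variable (hm : Lv R m v σ) (ht : Sc R s σ t (K0 s)) (hm1 : Lv R1 m1 v1 σ1)
  (ht1 : Sc R1 s σ1 t (K0 s)) (hs : 2 ≤ s)
include hm ht hm1 ht1 hs

theorem Ys_mem (hk : k ≤ s) {x : Ia s → ℝ} (hx : x ∈ Fk s k) :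
    Ys s l R R1 m m1 v z x ∈ Pk R1 m1 k := by
  have h : ∀ y : Ia s → ℝ, (∀ a, y a = x a ∨ y a = 0) → nT s (Gs s l R m v z y) ∈ Pd (k + 2) :=
    fun y hy => by
      have := hm.Gs_Pd (l := l) (z := z) ht hs hk (x := y) (mem_Fk.2 fun a ha =>
        (hy a).elim (fun h => h.trans (mem_Fk.1 hx a ha)) id)
      rwa [nT_eq (Pd_mono (by omega) this)]
  exact add_mem (Pk0_le (hm1.pj0_mem ht1 hk (h _ fun a => (Pon_or x a).1)))
    (hm1.pj_mem ht1 hk (h _ fun a => (Pon_or x a).2))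

theorem UU_Fk (k : ℕ) : ∀ x ∈ Fk s k, UU s l R R1 m m1 v v1 z x ∈ Fk s k := fun x hx => by
  by_cases hk : k ≤ s
  · exact mem_Fk.2 (hm1.crd_fil ht1 hk (Ys_mem hm ht hm1 ht1 hs hk hx).1)
  · exact mem_Fk.2 fun a h => absurd (dI_le hs a) (by omega)

omit hm ht hs in
theorem UU_Fo : ∀ x ∈ Fo s, UU s l R R1 m m1 v v1 z x ∈ Fo s := fun x hx => mem_Fo.2 fun k => by
  have h : (1 - Pon s) x = 0 := funext fun a => by
    rcases a with a | a <;> simp [Pon_ap, mem_Fo.1 hx]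
  refine crd_on (s := s) ?_ k
  simp only [Ys, LinearMap.add_apply, LinearMap.comp_apply, h, map_zero, add_zero]
  exact (mem_Pk0.1 (hm1.pj0_mem ht1 le_rfl (nT_mem s _))).2

variable (h : Lin l r c τ m S) (e : m1 = lam • Q4.mb l 3 m S) (hl : |lam| ≤ 2) (hτ : 0 ≤ τ)
  (r2 : 2 ≤ r) (hr : r ≤ l) (hR : R ≤ l) (hL : t ≤ LL l) (hz : z ∈ box l)
include h e hl hτ r2 hr hR hL hz

omit ht1 in
theorem Gs_cur (x : Ia s → ℝ) (hα : dg α < s) {y : St} (hy : y ∈ box 1)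
    (h0 : Dm α (rho l (Mo R m (sh (-z) (sec R m v s (dil s (LL l) x))))) (y, μ) = 0) :
    |Dm α (Mo R1 m1 (Gs s l R m v z x)) (y, μ)| ≤
      2 ^ s * (2 * KZ c l r (s + 1) (s + 1)) * τ * (A1 s * ‖x‖) := by
  obtain ⟨_, _, _, _, hU, hI⟩ := hm.inv
  have h1 := near_tent (ρ := s + 1) hI hU hR h hτ r2 hr (Pk_sh (hm.sec_Pk ht hs _) _)
    (hm.Gs_wc ht hs hL hz x)
  have h2 := sm_Dm (α := α) (ρ := 1) (h1.mono (by omega) le_rfl) (y, μ) (mem_lbox.2 hy)
  have h3 := hm1.rng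
  rw [map_sub, Pi.sub_apply, h0, sub_zero] at h2
  subst e
  rw [Mo_mb h.mn_rng h3, map_smul, Pi.smul_apply, smul_eq_mul, abs_mul]
  refine (mul_le_mul hl (h2.trans (mul_le_mul_of_nonneg_right (pow_le_pow_right₀ one_le_two hα.le)
    h1.nonneg)) (abs_nonneg _) two_pos.le).trans_eq (by ring)

theorem Ys_wc (x : Ia s → ℝ) :
    Wc 1 (e0 c l r R1 s t * τ * ‖x‖) (Gs s l R m v z x - Ys s l R R1 m m1 v z x) := by
  have p0 := KP_nonneg R1 s (zero_le_one.trans ht.one)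
  have z0 := KZ_nonneg c l r (s + 1) (s + 1)
  have a0 := A1_nonneg s
  have g := fun y => hm.Gs_Pd (l := l) (z := z) ht hs le_rfl (mem_top hs y)
  refine wc_of (sub_mem (g x) (Ys_mem hm ht hm1 ht1 hs le_rfl (mem_top hs x)).1)
    (by unfold e0; positivity) zero_le_one fun α hα => ?_
  have h1 := hm1.pj0_bd ht1 (fun γ hγ => cv_top (g (Pon s x)) (by omega) (by positivity))
    (fun β μ hβ y hy => Gs_cur hm ht hm1 hs h e hl hτ r2 hr hR hL hz (Pon s x) hβ hy (by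
      rw [cov_Mo, hm.sec_on ht hs fun k => by simp [dil_ap, Pon_ap], ← shL_apply]; simp)) hα
  have h2 := hm1.pj_bd ht1 (fun γ hγ => cv_top (g ((1 - Pon s) x)) (by omega) (by positivity))
    (fun β μ hN hβ y hy => Gs_cur hm ht hm1 hs h e hl hτ r2 hr hR hL hz ((1 - Pon s) x) hβ hy
      (rho_Tn (Pk_sh (hm.sec_Pk ht hs _) _).2 l β μ hN y)) hα
  have h3 : Gs s l R m v z x = Gs s l R m v z (Pon s x) + Gs s l R m v z ((1 - Pon s) x) := by
    rw [← map_add, ← LinearMap.add_apply, add_sub_cancel, Module.End.one_apply]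
  rw [h3, Ys, LinearMap.add_apply, add_sub_add_comm, map_add]
  simp only [LinearMap.comp_apply]
  have h4 := h1.add h2
  generalize Dm α (Gs s l R m v z (Pon s x) - _) = u at h1 h4 ⊢
  generalize Dm α (Gs s l R m v z ((1 - Pon s) x) - _) = u' at h2 h4 ⊢
  refine h4.mono le_rfl ?_
  have n1 := norm_le_of fun a => (Pon_or x a).1
  have n2 := norm_le_of fun a => (Pon_or x a).2
  rw [one_pow, div_one, e0]
  refine (add_le_add (mul_le_mul_of_nonneg_left (mul_le_mul_of_nonneg_left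
    (mul_le_mul_of_nonneg_left n1 a0) (by positivity)) p0) (mul_le_mul_of_nonneg_left
      (mul_le_mul_of_nonneg_left (mul_le_mul_of_nonneg_left n2 a0) (by positivity)) p0)).trans_eq
        (by ring)

theorem UU_bd (x : Ia s → ℝ) : ‖UU s l R R1 m m1 v v1 z x‖ ≤
    C2 s * (t ^ (s + 1) * (A1 s + e0 c l r R1 s t * τ)) * ‖x‖ := by
  have := (hm.Gs_wc ht hs hL hz x).sub (Ys_wc hm ht hm1 ht1 hs h e hl hτ r2 hr hR hL hz x)
  rw [sub_sub_cancel] at this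
  exact (hm1.crd_le ht1 (Ys_mem hm ht hm1 ht1 hs le_rfl (mem_top hs x)).1 this).trans_eq (by ring)

/-- the step is exact up to the defect of the minimiser -/
theorem UU_ex (hn : z ∈ box n) (hρ : ρ + n + 1 ≤ l) (x : Ia s → ℝ) :
    Cv ρ (e1 c l r R1 s t * τ * ‖x‖) ((shL z ∘ₗ mu l S)
      (sec R1 m1 v1 s (UU s l R R1 m m1 v v1 z x)) - sec R m v s (dil s (LL l) x)) := by
  obtain ⟨_, _, _, _, hU, hI⟩ := hm.inv
  have g := hm.Gs_Pd (l := l) (z := z) ht hs le_rfl (mem_top hs x)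
  have y := Ys_mem (l := l) (z := z) hm ht hm1 ht1 hs le_rfl (mem_top hs x)
  have q := Pk_sh (hm.sec_Pk ht hs (dil s (LL l) x)) (-z)
  have h1 := ((Ys_wc hm ht hm1 ht1 hs h e hl hτ r2 hr hR hL hz x).congr
    (b := Gs s l R m v z x - sec R1 m1 v1 s (UU s l R R1 m m1 v v1 z x)) (by
      rw [La.dd_sub, La.dd_sub, ← hm1.sec_crd ht1 y]; rfl)).cv1
        (sub_mem g (hm1.sec_Pk ht1 hs _).1) (ρ := r) (by omega) 0
  have h2 := (h.point _ _ (h1.mono (by omega) le_rfl)).mono (show ρ + n ≤ l by omega)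
    (div_le_self h1.nonneg (one_le_pow₀ (by exact_mod_cast (show 1 ≤ r by omega))))
  have h3 := cv_sub ((exact_mu hI hU hR h hτ hr _ _ _ _ q.1 g (EL_Gm q.2 l)
    (hm.Gs_wc ht hs hL hz x)).mono hρ le_rfl).cv h2
  intro w hw μ ν
  have h4 := h3 _ (add_mem_box hw hn) μ ν
  rw [Dm_zero, Module.End.one_apply, map_sub, sub_sub_sub_cancel_left, La.dd_sub, La.dd_TG,
    ← La.dd_sub, ← dd_sh, La.sh_sub, sh_sh, add_neg_cancel, sh_zero] at h4
  refine h4.trans_eq ?_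
  rw [e1]
  push_cast
  ring

/-- the graded part of the step -/
theorem UU_top (a b : Ia s) (hab : dI a = dI b) :
    |UU s l R R1 m m1 v v1 z (Pi.single b 1) a - (Pi.single b 1 : Ia s → ℝ) a| ≤
      C2 s * (e0 c l r R1 s t * τ + C2 s * (64 * σ) + C2 s * (64 * σ1)) := by
  have L0 := La.LL_posR l
  have k := dI_le hs b
  have y := Ys_mem (l := l) (z := z) hm ht hm1 ht1 hs k (single_Fk b)
  have q := hm.sec_mem ht hs k (mem_Fk.1 (single_Fk b))
  have q1 := hm1.sec_mem ht1 hs k (mem_Fk.1 (single_Fk b))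
  have h1 := wc_cj zero_le_one (Ys_wc hm ht hm1 ht1 hs h e hl hτ r2 hr hR hL hz (Pi.single b 1)) (dI b)
  have h2 : cj (dI b) (Gs s l R m v z (Pi.single b 1)) = cj (dI b) (sec R m v s (Pi.single b 1)) := by
    have : dil s (LL l) (Pi.single b 1) = ((LL l : ℝ) ^ (2 + dI b))⁻¹ • Pi.single b 1 :=
      funext fun a => by
        by_cases h : a = b <;> simp [dil_ap, h, wt]
    simp only [Gs, LinearMap.comp_apply, this, map_smul]
    rw [shL_apply, cj_Gm (Pk_sh q _), cj_sh q.1]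
    exact inv_smul_smul₀ (by positivity) _
  have h3 := hm1.crd_top ht1 k (sub_mem q1.1 y.1) (A := _) (le_of_eq_of_le (congrArg _ (by
    simp only [map_sub, h2]; abel)) ((norm_sub_le _ _).trans (add_le_add ((norm_add_le _ _).trans
      (add_le_add h1 (hm.sec_top ht hs b))) (hm1.sec_top ht1 hs b)))) a hab
  rw [map_sub, hm1.crd_sec ht1 hs, Pi.norm_single, norm_one, mul_one, one_pow, div_one,
    Pi.sub_apply, abs_sub_comm] at h3
  exact h3

/-- the step is bounded below -/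
theorem UU_low (H : Ir s R' ρ R m (shL z ∘ₗ mu l S) (LL l) X) (hρ : 2 * R + 1 ≤ ρ) (X0 : 0 ≤ X)
    (h1 : 4 * (R' : ℝ) ≤ t) (hn : z ∈ box n) (h2 : 2 * R + s + 2 + n + 1 ≤ l) (h3 : 2 * ((LL l : ℝ) ^ (s + 2) *
      (C2 s * (t ^ (s + 1) * (KQ R s t * e1 c l r R1 s t)))) * τ ≤ 1) (x : Ia s → ℝ) :
    ‖x‖ ≤ 2 * (C2 s * ((1 + KP R s t) * X) * ((s + 1) * (C2 s * t ^ s))) *
      ‖UU s l R R1 m m1 v v1 z x‖ := by
  have L1 := ht.one.trans hL
  have a1 := H.bl hm ht hρ hL X0 (hm1.sec_cv ht1 hs h1 (UU s l R R1 m m1 v v1 z x))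
  have a2 := (dil_bd hs L1 _).trans (mul_le_mul_of_nonneg_left (hm.crd_le ht (hm.pj_Pk ht _).1
    (hm.pj_wc ht (UU_ex hm ht hm1 ht1 hs h e hl hτ r2 hr hR hL hz hn h2 x))) (by positivity))
  have a3 := dil_dil (inv_ne_zero (by positivity : (LL l : ℝ) ≠ 0)) x
  rw [inv_inv] at a3
  rw [map_sub, map_sub, hm.crd_pj ht (hm.sec_Pk ht hs _), hm.crd_sec ht hs, map_sub, a3] at a2
  have a4 := norm_sub_norm_le x (lI s R m v (LL l) (shL z ∘ₗ mu l S)
    (sec R1 m1 v1 s (UU s l R R1 m m1 v v1 z x)))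
  have a5 := mul_le_mul_of_nonneg_right h3 (norm_nonneg x)
  rw [norm_sub_rev] at a4
  simp only [lI, LinearMap.comp_apply] at a1 a2 a4
  linarith

end Step

theorem inv_of_low {U : Module.End ℝ (Ia s → ℝ)} (h : ∀ x, ‖x‖ ≤ A * ‖U x‖) :
    IsUnit U ∧ ∀ x, ‖Ring.inverse U x‖ ≤ A * ‖x‖ := by
  have u : IsUnit U := (LinearMap.isUnit_iff_ker_eq_bot _).2 (LinearMap.ker_eq_bot'.2 fun x hx =>
    by simpa [hx] using h x)
  refine ⟨u, fun x => (h _).trans_eq ?_⟩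
  rw [← Module.End.mul_apply, Ring.mul_inverse_cancel _ u, Module.End.one_apply]

/-- the graded part is close to the identity -/
def Gr {s : ℕ} (ε : ℝ) (U : Module.End ℝ (Ia s → ℝ)) : Prop :=
  ∀ a b, dI a = dI b → |U (Pi.single b 1) a - (Pi.single b 1 : Ia s → ℝ) a| ≤ ε

theorem Gr.inv {U : Module.End ℝ (Ia s → ℝ)} (h : Gr δ U) (u : IsUnit U)
    (hF : ∀ k, ∀ x ∈ Fk s k, U x ∈ Fk s k) (h1 : 2 * (Fintype.card (Ia s) * δ) ≤ 1) :
    Gr (2 * (Fintype.card (Ia s) * δ)) (Ring.inverse U) := fun a b hab => by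
  have d0 := (abs_nonneg _).trans (h b b rfl)
  have y1 := mem_Fk.1 (inv_mem u (hF _) (single_Fk b))
  have y2 : U (Ring.inverse U (Pi.single b 1)) = Pi.single b 1 := by
    rw [← Module.End.mul_apply, Ring.mul_inverse_cancel _ u, Module.End.one_apply]
  generalize Ring.inverse U (Pi.single b 1) = y at *
  obtain ⟨p, p1, p2⟩ := exists_max_image (univ.filter fun a : Ia s => dI a = dI b) (fun a => |y a|)
    ⟨b, by simp⟩
  have e : ∀ a, dI a = dI b → |y a - (Pi.single b 1 : Ia s → ℝ) a| ≤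
      Fintype.card (Ia s) * (|y p| * δ) := fun a ha => by
    have e1 : (U - 1) y = ∑ i, y i • (U - 1) (Pi.single i 1) := by
      conv_lhs => rw [pi_eq_sum_univ' y, map_sum]
      simp only [map_smul]
    rw [← y2, abs_sub_comm, show U y a - y a = (U - 1) y a from rfl, e1, Finset.sum_apply,
      ← card_univ, ← nsmul_eq_mul]
    refine (abs_sum_le_sum_abs _ _).trans (sum_le_card_nsmul _ _ _ fun i _ => ?_)
    change |y i * (U (Pi.single i 1) a - (Pi.single i 1 : Ia s → ℝ) a)| ≤ _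
    rcases lt_trichotomy (dI i) (dI b) with h2 | h2 | h2
    · rw [mem_Fk.1 (hF _ _ (single_Fk i)) a (ha ▸ h2), mem_Fk.1 (single_Fk i) a (ha ▸ h2), sub_self,
        mul_zero, abs_zero]
      positivity
    · rw [abs_mul]
      exact mul_le_mul (p2 i (by simp [h2])) (h a i (ha.trans h2.symm)) (abs_nonneg _) (abs_nonneg _)
    · rw [y1 i h2, zero_mul, abs_zero]
      positivity
  have e2 := abs_sub_abs_le_abs_sub (y p) ((Pi.single b 1 : Ia s → ℝ) p)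
  have e3 : |(Pi.single b 1 : Ia s → ℝ) p| ≤ 1 := by rw [Pi.single_apply]; split_ifs <;> simp
  have e4 := e p (mem_filter.1 p1).2
  have e5 := mul_le_mul_of_nonneg_left h1 (abs_nonneg (y p))
  have e6 := mul_le_mul_of_nonneg_left (show |y p| ≤ 2 by linarith)
    (by positivity : 0 ≤ Fintype.card (Ia s) * δ)
  linarith [e a hab]

end Pool.Agent.Lib.MP_7f377f_mp.RG.Jt
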