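import Pool.Agent.Lib.MP_7f377f_mp.JtR

/-! The model space of slow fields, sections and coordinates. -/

noncomputable section

namespace Pool.Agent.Lib.MP_7f377f_mp.RG.Jt

open Finset

attribute [local irreducible] box lbox

def Ih (i : ℕ) : Finset Mi := (Ix (i + 1)).filter fun α => dg α = i

/-- jets of order `i` of two-forms -/
abbrev Hj (i : ℕ) := Ih i × Fin 4 × Fin 4 → ℝ

/-- the jet of order `i` of the curvature -/
def cj (i : ℕ) : V →ₗ[ℝ] Hj i :=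
  LinearMap.pi fun p => LinearMap.proj (0, p.2.2) ∘ₗ io p.2.1 ∘ₗ Dm p.1

/-- homogeneous fields with curvature of degree `i` -/
def Hm (i : ℕ) : Submodule ℝ V where
  carrier := {a | a ∈ Pd (i + 2) ∧ ∀ α μ, dg α ≠ i + 1 → jet a α μ = 0}
  add_mem' ha hb := ⟨add_mem ha.1 hb.1, fun α μ h => by simp [ha.2 α μ h, hb.2 α μ h]⟩
  zero_mem' := ⟨zero_mem _, by simp⟩
  smul_mem' c a ha := ⟨Submodule.smul_mem _ _ ha.1, fun α μ h => by simp [ha.2 α μ h]⟩

/-- on shell jets -/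
def So (i : ℕ) : Submodule ℝ (Hj i) := (Hm i ⊓ LinearMap.ker M0).map (cj i)

def don (i : ℕ) : ℕ := Module.finrank ℝ (So i)

def bo (i : ℕ) : Module.Basis (Fin (don i)) ℝ (So i) := Module.finBasis ℝ _

def eo (i : ℕ) (k : Fin (don i)) : V := (Submodule.mem_map.1 (bo i k).2).choose

def po (i : ℕ) : Hj i →ₗ[ℝ] So i :=
  ((So i).subtype.exists_leftInverse_of_injective (So i).ker_subtype).choose

/-- indices of the on shell fields -/
abbrev On (s : ℕ) := Σ i : Fin (s + 1), Fin (don i)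

/-- indices of the tent currents -/
abbrev Te := Fin 4 ⊕ Fin 3

/-- indices of the slow fields -/
abbrev Ia (s : ℕ) := On s ⊕ Te

/-- position of a tent current in the jet -/
def ta : Te → Mi × Fin 4
  | .inl μ => (0, μ)
  | .inr i => (ei i.succ, i.succ)

def tc : Te → V
  | .inl μ => nb 0 μ
  | .inr i => nb (ei i.succ) i.succ - nb (ei 0) 0

/-- degree of the curvature -/
def dI {s : ℕ} : Ia s → ℕ
  | .inl b => b.1
  | .inr k => dg (ta k).1 + 1

/-- the weights -/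
def wt {s : ℕ} (a : Ia s) : ℕ := 2 + dI a

def p0 (s : ℕ) : (On s → ℝ) →ₗ[ℝ] V := ∑ b, (LinearMap.proj b).smulRight (eo b.1 b.2)

def pi0 (s : ℕ) : V →ₗ[ℝ] On s → ℝ := LinearMap.pi fun b => (bo b.1).coord b.2 ∘ₗ po b.1 ∘ₗ cj b.1

def pT : (Te → ℝ) →ₗ[ℝ] V := ∑ k, (LinearMap.proj k).smulRight (tc k)

def rl (s : ℕ) : (Ia s → ℝ) →ₗ[ℝ] On s → ℝ := LinearMap.funLeft ℝ ℝ Sum.inl

def rr (s : ℕ) : (Ia s → ℝ) →ₗ[ℝ] Te → ℝ := LinearMap.funLeft ℝ ℝ Sum.inr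

/-- the model fields -/
def md (s : ℕ) : (Ia s → ℝ) →ₗ[ℝ] V := p0 s ∘ₗ rl s + Gp s ∘ₗ pT ∘ₗ rr s

/-- removes the current -/
def on (R : ℕ) (m : BF) (s : ℕ) : Module.End ℝ V := 1 - ri R m s * tw * Mo R m

/-- the section of the slow fields of a level -/
def sec (R : ℕ) (m : BF) (v : ℝ) (s : ℕ) : (Ia s → ℝ) →ₗ[ℝ] V :=
  on R m s ∘ₗ p0 s ∘ₗ rl s + ri R m s ∘ₗ (v • pT) ∘ₗ rr s

def E0 (R : ℕ) (m : BF) (s : ℕ) : Module.End ℝ (On s → ℝ) := pi0 s ∘ₗ on R m s ∘ₗ p0 s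

/-- the coordinates of the slow fields of a level -/
def crd (R : ℕ) (m : BF) (v : ℝ) (s : ℕ) : V →ₗ[ℝ] Ia s → ℝ := LinearMap.pi fun
  | .inl b => LinearMap.proj b ∘ₗ Ring.inverse (E0 R m s) ∘ₗ pi0 s ∘ₗ on R m s
  | .inr k => v⁻¹ • ev (ta k).1 (ta k).2 ∘ₗ jet ∘ₗ tw ∘ₗ Mo R m

def C0 (s : ℕ) : ℝ := ∑ b : On s, ‖cj b.1 (eo b.1 b.2)‖

def C1 (s : ℕ) : ℝ := ∑ b : On s, ‖LinearMap.toContinuousLinearMap ((bo b.1).coord b.2 ∘ₗ po b.1)‖

def K0 (s : ℕ) : ℝ := 16 * 7 ^ (s + 1) * (1 + C0 s * C1 s)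

/-- the constant of sections and coordinates -/
def C2 (s : ℕ) : ℝ := 2000 * 49 ^ (s + 1) * (1 + C0 s) * (1 + C1 s)

variable {α : Mi} {ν μ : Fin 4} {a j q : V} {R n k s i : ℕ} {t A B σ v : ℝ} {m : BF}

theorem mem_Ih : α ∈ Ih i ↔ dg α = i := by
  simp only [Ih, mem_filter, mem_Ix, and_iff_right_iff_imp]
  omega

theorem cj_ap (i : ℕ) (a : V) (p : Ih i × Fin 4 × Fin 4) :
    cj i a p = dd (Dm p.1 a) 0 p.2.1 p.2.2 := rfl

theorem cj_Hm (h : a ∈ Hm k) (hi : i ≠ k) : cj i a = 0 := funext fun p => by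
  have : ∀ κ, dg (p.1.1 + ei κ) ≠ k + 1 := fun κ => by simpa [dg_add, mem_Ih.1 p.1.2] using hi
  rw [cj_ap, dd_Dm, h.2 _ _ (this _), h.2 _ _ (this _), sub_self, Pi.zero_apply]

theorem cj_Pd (h : a ∈ Pd (k + 2)) (hi : k < i) : cj i a = 0 := funext fun p => by
  have : ∀ κ, k + 2 ≤ dg (p.1.1 + ei κ) := fun κ => by simpa [dg_add, mem_Ih.1 p.1.2] using hi
  simp only [cj_ap, dd_Dm, jet_ap, Pd_ge h (this _), Pi.zero_apply, sub_self]

theorem cj_congr {b : V} (h : dd a = dd b) (i : ℕ) : cj i a = cj i b := funext fun p => by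
  change io _ (Dm _ a) _ = io _ (Dm _ b) _
  rw [(cov_io _).dm, (cov_io _).dm,
    show io p.2.1 a = io p.2.1 b from funext fun _ => by rw [io_ap, h, io_ap]]

theorem wc_cj (t0 : 0 ≤ t) (h : Wc t A a) (i : ℕ) : ‖cj i a‖ ≤ A / t ^ i :=
  (pi_norm_le_iff_of_nonneg (div_nonneg h.nonneg (pow_nonneg t0 _))).2 fun p => by
    simpa only [mem_Ih.1 p.1.2, cj_ap, Real.norm_eq_abs] using wc_iff.1 h p.1 p.2.1 p.2.2

theorem cj_wc (h : ∀ i, ‖cj i a‖ ≤ A / t ^ i) : Wc t A a := wc_iff.2 fun α μ ν =>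
  (norm_le_pi_norm (cj (dg α) a) (⟨α, mem_Ih.2 rfl⟩, μ, ν)).trans (h _)

theorem dd_ext (h : a ∈ Pd (s + 2)) (h1 : ∀ i ≤ s, cj i a = 0) : dd a = 0 := by
  funext x μ ν
  exact congrFun (Pd_ext (io_Pd h μ) fun α κ hα => by
    rw [jet_ap, ← (cov_io μ).dm]
    exact congrFun (h1 _ (Nat.lt_succ_iff.1 hα)) (⟨α, mem_Ih.2 rfl⟩, μ, κ)) (x, ν)

theorem eo_spec (i : ℕ) (k : Fin (don i)) :
    (eo i k ∈ Hm i ∧ M0 (eo i k) = 0) ∧ cj i (eo i k) = bo i k :=
  (Submodule.mem_map.1 (bo i k).2).choose_spec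

theorem po_coe (x : So i) : po i x = x := LinearMap.congr_fun
  ((So i).subtype.exists_leftInverse_of_injective (So i).ker_subtype).choose_spec x

theorem p0_ap (c : On s → ℝ) : p0 s c = ∑ b, c b • eo b.1 b.2 := by simp [p0]

theorem pT_ap (c : Te → ℝ) : pT c = ∑ k, c k • tc k := by simp [pT]

theorem pi0_ap (a : V) (b : On s) : pi0 s a b = (bo b.1).repr (po b.1 (cj b.1 a)) b.2 := rfl

theorem M0_p0 (c : On s → ℝ) : M0 (p0 s c) = 0 := by simp [p0_ap, (eo_spec _ _).1.2]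

theorem p0_Pd {c : On s → ℝ} (h : ∀ b, k < b.1.1 → c b = 0) : p0 s c ∈ Pd (k + 2) := by
  rw [p0_ap]
  refine sum_mem fun b _ => ?_
  by_cases h1 : k < b.1.1
  · rw [h b h1, zero_smul]
    exact zero_mem _
  · exact Submodule.smul_mem _ _ (Pd_mono (by omega) (eo_spec _ _).1.1.1)

theorem p0_mem (c : On s → ℝ) : p0 s c ∈ Pd (s + 2) := p0_Pd fun b h => absurd b.1.2 (by omega)

theorem cj_p0 (c : On s → ℝ) (i : Fin (s + 1)) :
    cj i (p0 s c) = (∑ k, c ⟨i, k⟩ • bo i k : So i) := by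
  simp only [p0_ap, map_sum, map_smul, Fintype.sum_sigma, AddSubmonoidClass.coe_finsetSum,
    SetLike.val_smul]
  rw [sum_eq_single i (fun i' _ h => sum_eq_zero fun k _ => by
    rw [cj_Hm (eo_spec _ _).1.1 fun h1 => h (Fin.ext h1.symm), smul_zero]) (by simp)]
  simp only [(eo_spec _ _).2]

theorem pi0_p0 (c : On s → ℝ) : pi0 s (p0 s c) = c := funext fun b => by
  rw [pi0_ap, cj_p0, po_coe, Module.Basis.repr_sum_self]

theorem cj_mem (h1 : M0 a = 0) (i : ℕ) : cj i a ∈ So i := by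
  have e : ∀ α μ, jet (nw (i + 2) (kp (fun α _ => dg α = i + 1) (jet a))) α μ =
      if dg α = i + 1 then jet a α μ else 0 := fun α μ => by
    rw [jet_nw, kp_ap]
    split_ifs <;> first | rfl | omega
  refine Submodule.mem_map.2 ⟨nw (i + 2) (kp (fun α _ => dg α = i + 1) (jet a)),
    ⟨⟨nw_mem _ _, fun α μ hα => by rw [e, if_neg hα]⟩,
      Pd_ext (M0_Pd (nw_mem _ _)) fun α μ _ => ?_⟩, funext fun p => ?_⟩
  · have := jet_M0 a α μ
    rw [h1, map_zero] at this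
    simp only [jet_M0, e, dg_add, dg_ei]
    split_ifs
    · exact this.symm
    · simp
  · simp [cj_ap, dd_Dm, e, dg_add, mem_Ih.1 p.1.2]

theorem p0_pi0 (h : a ∈ Pd (s + 2)) (h1 : M0 a = 0) : dd (p0 s (pi0 s a)) = dd a := by
  rw [← sub_eq_zero, ← La.dd_sub]
  refine dd_ext (sub_mem (p0_mem _) h) fun i hi => ?_
  have h2 := cj_p0 (pi0 s a) ⟨i, Nat.lt_succ_of_le hi⟩
  have h3 := po_coe ⟨_, cj_mem h1 i⟩
  rw [map_sub, h2.trans (congrArg Subtype.val (((bo i).sum_repr _).trans h3)), sub_self]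

theorem C0_nonneg (s : ℕ) : 0 ≤ C0 s := sum_nonneg fun _ _ => norm_nonneg _

theorem C1_nonneg (s : ℕ) : 0 ≤ C1 s := sum_nonneg fun _ _ => norm_nonneg _

theorem K0_ge (s : ℕ) : 8 * 7 ^ (s + 1) ≤ K0 s := by
  have := mul_nonneg (C0_nonneg s) (C1_nonneg s)
  have : (0 : ℝ) < 7 ^ (s + 1) := by positivity
  unfold K0
  nlinarith

theorem p0_bd {c : On s → ℝ} (t0 : 0 < t) (A0 : 0 ≤ A) (h : ∀ b, |c b| ≤ A / t ^ b.1.1) :
    Wc t (C0 s * A) (p0 s c) := cj_wc fun i => by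
  rw [p0_ap, map_sum, C0, sum_mul, sum_div]
  refine norm_sum_le_of_le _ fun b _ => ?_
  by_cases h1 : i = b.1.1
  · subst h1
    rw [map_smul, norm_smul, mul_comm, mul_div_assoc]
    exact mul_le_mul_of_nonneg_left (h b) (norm_nonneg _)
  · rw [map_smul, cj_Hm (eo_spec _ _).1.1 h1, smul_zero, norm_zero]
    positivity

theorem pi0_bd (t0 : 0 ≤ t) (h : Wc t A a) (b : On s) : |pi0 s a b| ≤ C1 s * A / t ^ b.1.1 := by
  rw [mul_div_assoc]
  exact ((LinearMap.toContinuousLinearMap ((bo b.1).coord b.2 ∘ₗ po b.1)).le_opNorm _).trans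
    (mul_le_mul (single_le_sum (f := fun b : On s => ‖LinearMap.toContinuousLinearMap
      ((bo b.1).coord b.2 ∘ₗ po b.1)‖) (fun _ _ => norm_nonneg _) (mem_univ b)) (wc_cj t0 h _)
      (norm_nonneg _) (C1_nonneg s))

theorem dv_M0 (a : V) : dv (M0 a) = 0 := funext fun e => by
  have h := jet_dv (M0 (sh e.1 a)) 0 e.2
  simp only [jet_M0, zero_add, sum_neg_distrib, sum_sub_distrib] at h
  rw [sum_comm (f := fun x y => jet (sh e.1 a) (ei x + ei y + ei x) y),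
    sum_congr rfl fun x _ => sum_congr rfl fun y _ => show jet (sh e.1 a) (ei y + ei x + ei y) x =
      jet (sh e.1 a) (ei x + ei y + ei y) x by rw [add_comm (ei y)], sub_self, neg_zero, cov_M0,
    cov_dv, jet_ap] at h
  simpa using h

theorem wb_M0 (h : Wc t A a) : Wb t (4 * A / t) (M0 a) := fun α μ => by
  rw [jet_ap, ← cov_M0.dm, M0_ap, abs_neg]
  refine (abs_sum_le_sum_abs _ _).trans ((sum_le_card_nsmul _ _ (A / t ^ (dg α + 1)) fun ν _ => by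
    simpa only [Dm_succ_ap', dg_add, dg_ei] using wc_iff.1 h (α + ei ν) ν μ).trans_eq ?_)
  simp only [card_univ, Fintype.card_fin, nsmul_eq_mul, pow_succ]
  push_cast
  ring

theorem ex_wc (t1 : 1 ≤ t) (h : a ∈ Pd (s + 2)) : ∃ α μ ν,
    Wc t (|dd (Dm α a) 0 μ ν| * t ^ dg α) a := by
  obtain ⟨p, -, hp⟩ := exists_max_image (Ix (s + 1) ×ˢ univ)
    (fun p : Mi × Fin 4 × Fin 4 => |dd (Dm p.1 a) 0 p.2.1 p.2.2| * t ^ dg p.1)
    ⟨(0, 0, 0), mem_product.2 ⟨mem_Ix.2 (by simp), mem_univ _⟩⟩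
  refine ⟨p.1, p.2.1, p.2.2, wc_iff.2 fun α μ ν => ?_⟩
  by_cases hα : dg α < s + 1
  · rw [le_div_iff₀ (by positivity)]
    exact hp (α, μ, ν) (mem_product.2 ⟨mem_Ix.2 hα, mem_univ _⟩)
  · rw [show dd (Dm α a) 0 μ ν = 0 from congrFun (cj_Pd h (not_lt.1 hα))
      (⟨α, mem_Ih.2 rfl⟩, μ, ν), abs_zero]
    positivity

theorem inv_mem {W : Type} [AddCommGroup W] [Module ℝ W] [FiniteDimensional ℝ W]
    {E : Module.End ℝ W} (h : IsUnit E) {F : Submodule ℝ W} (hF : ∀ x ∈ F, E x ∈ F) {x : W}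
    (hx : x ∈ F) : Ring.inverse E x ∈ F := by
  have hi : Function.Injective (E.restrict hF) := fun y z e => Subtype.ext
    (((Module.End.isUnit_iff E).1 h).1 (congrArg Subtype.val e))
  obtain ⟨y, hy⟩ := LinearMap.surjective_of_injective hi ⟨x, hx⟩
  rw [← show E y = x from congrArg Subtype.val hy, ← Module.End.mul_apply,
    Ring.inverse_mul_cancel _ h]
  exact y.2

theorem jet_tc (k : Te) (α : Mi) (μ : Fin 4) : jet (tc k) α μ = (if (α, μ) = ta k then 1 else 0) -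
    if k.isRight ∧ (α, μ) = (ei 0, 0) then 1 else 0 := by
  rcases k with k | k <;> simp [tc, ta, jet_ap, Dm_nb_zero, eq_comm]

theorem ei_inj {i j : Fin 4} : ei i = ei j ↔ i = j :=
  ⟨fun h => by simpa [ei_apply] using congrFun h i, fun h => h ▸ rfl⟩

theorem ei_ne (i : Fin 4) : ei i ≠ 0 := fun h => by simpa using congrArg dg h

theorem ta_inj : Function.Injective ta := by
  rintro (i | i) (j | j) h <;> simp_all [ta, ei_ne, (ei_ne _).symm]

theorem jet_pT (c : Te → ℝ) (α : Mi) (μ : Fin 4) : jet (pT c) α μ =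
    (∑ k, if (α, μ) = ta k then c k else 0) - if (α, μ) = (ei 0, 0) then ∑ i, c (.inr i) else 0 := by
  simp only [pT_ap, map_sum, map_smul, Finset.sum_apply, Pi.smul_apply, jet_tc, smul_eq_mul,
    mul_sub, sum_sub_distrib, mul_ite, mul_one, mul_zero]
  congr 1
  split_ifs with h <;> simp [h]

theorem jet_pT_ta (c : Te → ℝ) (k : Te) : jet (pT c) (ta k).1 (ta k).2 = c k := by
  rw [jet_pT, if_neg (by rcases k with k | k <;> simp [ta, (ei_ne _).symm])]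
  simp [ta_inj.eq_iff]

theorem jet_pT_NT (c : Te → ℝ) (h : NT α μ) : jet (pT c) α μ = 0 := by
  rw [jet_pT, if_neg fun h1 => h.2 (by simp_all), sum_eq_zero fun k _ => if_neg fun h1 => ?_,
    sub_zero]
  rcases k with k | k
  · exact h.1 (congrArg Prod.fst h1)
  · exact h.2 (by simp_all [ta])

theorem jet_pT_00 (c : Te → ℝ) : jet (pT c) (ei 0) 0 = -∑ i, c (.inr i) := by
  rw [jet_pT, if_pos rfl, sum_eq_zero fun k _ => if_neg ?_, zero_sub]
  rcases k with k | k <;> simp [ta, ei_ne, (Fin.succ_ne_zero _).symm]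

theorem tc_Pd (k : Te) : tc k ∈ Pd (dg (ta k).1 + 1) := by
  rcases k with k | k
  · exact mem_Pd.2 fun α hα => Dm_nb0 (fun h => by simpa [hα] using dg_mono h) _
  · simpa [ta, tc] using sub_mem (nb1_Pd _ _) (nb1_Pd _ _)

theorem ta_le (k : Te) : dg (ta k).1 ≤ 1 := by rcases k with k | k <;> simp [ta]

theorem pT_Z {c : Te → ℝ} (h : ∀ b, k < dg (ta b).1 + 1 → c b = 0) : pT c ∈ Zc k := by
  have h1 : pT c ∈ Pd k := by
    rw [pT_ap]
    refine sum_mem fun b _ => ?_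
    by_cases h1 : k < dg (ta b).1 + 1
    · rw [h b h1, zero_smul]
      exact zero_mem _
    · exact Submodule.smul_mem _ _ (Pd_mono (by omega) (tc_Pd b))
  refine ⟨h1, Pd_ext (cov_dv.Pd h1) fun α μ _ => ?_⟩
  rw [jet_dv]
  by_cases h2 : α = 0
  · subst h2
    simp only [zero_add]
    have e : ∀ i : Fin 3, jet (pT c) (ei i.succ) i.succ = c (.inr i) := fun i => by
      simpa only [ta] using jet_pT_ta c (.inr i)
    simp only [Fin.sum_univ_succ (n := 3), jet_pT_00, e, neg_add_cancel]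
  · exact sum_eq_zero fun ν _ => jet_pT_NT c
      ⟨fun h => ei_ne ν (add_eq_zero.1 h).2, fun h => h2 (add_eq_right.1 h)⟩

theorem pT_mem (hs : 2 ≤ s) (c : Te → ℝ) : pT c ∈ Zc s :=
  pT_Z fun b h => absurd (ta_le b) (by omega)

theorem Tn_Pd (h : j ∈ Tn) : j ∈ Pd 2 := mem_Pd.2 fun α hα =>
  funext fun e => h α e.2 (NT_two hα.ge _) e.1

theorem NT_add (h : NT α μ) (β : Mi) : NT (α + β) μ := by
  refine ⟨fun h2 => h.1 (add_eq_zero.1 h2).1, fun h2 => ?_⟩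
  have h3 := congrArg dg h2
  rw [dg_add, dg_ei] at h3
  rcases Nat.add_eq_one_iff.1 h3 with h4 | h4
  · exact h.1 (dg_eq_zero h4.1)
  · exact h.2 (by simpa [dg_eq_zero h4.2] using h2)

theorem Tn_of_jet (h : j ∈ Pd n) (h1 : ∀ α μ, NT α μ → jet j α μ = 0) : j ∈ Tn := by
  have : j = nw n (kp (fun α μ => ¬NT α μ) (jet j)) := by
    conv_lhs => rw [← nw_jet h]
    congr 1
    funext α μ
    rw [kp_ap]
    split_ifs with h2
    exacts [h1 α μ h2, rfl]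
  rw [this]
  exact nw_Tn _ _

theorem pT_Tn (c : Te → ℝ) : pT c ∈ Tn := Tn_of_jet (pT_mem le_rfl c).1 fun _ _ => jet_pT_NT c

theorem pT_jet (h : j ∈ Tn) (h1 : dv j = 0) : pT (fun k => jet j (ta k).1 (ta k).2) = j :=
  sub_eq_zero.1 (Pd_ext (sub_mem (pT_mem le_rfl _).1 (Tn_Pd h)) fun α μ _ => by
    rw [map_sub, Pi.sub_apply, Pi.sub_apply, sub_eq_zero]
    by_cases h2 : NT α μ
    · rw [jet_pT_NT _ h2, jet_ap, h α μ h2]
    rcases not_and_or.1 h2 with h3 | h3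
    · obtain rfl := not_not.1 h3
      exact jet_pT_ta _ (.inl μ)
    · obtain rfl := not_not.1 h3
      rcases Fin.eq_zero_or_eq_succ μ with rfl | ⟨i, rfl⟩
      · have := jet_dv j 0 0
        rw [h1, map_zero, Fin.sum_univ_succ] at this
        simp only [zero_add, Pi.zero_apply] at this
        rw [jet_pT_00]
        simp only [ta]
        linarith
      · exact jet_pT_ta _ (.inr i))

theorem pT_bd {c : Te → ℝ} (t1 : 1 ≤ t) (A0 : 0 ≤ A) (h : ∀ k, |c k| ≤ A / t ^ (dg (ta k).1 + 1)) :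
    Wb t (3 * A / t) (pT c) := fun α μ => by
  have e : ∀ d : ℕ, 3 * A / t / t ^ d = 3 * (A / t ^ (d + 1)) := fun d => by
    rw [pow_succ]; field_simp
  have e1 : ∀ k, |jet (pT c) (ta k).1 (ta k).2| ≤ 3 * A / t / t ^ dg (ta k).1 := fun k => by
    have : 0 ≤ A / t ^ (dg (ta k).1 + 1) := by positivity
    rw [jet_pT_ta, e]
    linarith [h k]
  by_cases h2 : NT α μ
  · rw [jet_pT_NT _ h2, abs_zero]
    positivity
  rcases not_and_or.1 h2 with h3 | h3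
  · obtain rfl := not_not.1 h3
    exact e1 (.inl μ)
  · obtain rfl := not_not.1 h3
    rcases Fin.eq_zero_or_eq_succ μ with rfl | ⟨i, rfl⟩
    · rw [jet_pT_00, abs_neg, e]
      exact (abs_sum_le_sum_abs _ _).trans ((sum_le_card_nsmul _ _ (A / t ^ (dg (ei 0) + 1))
        fun i _ => by simpa [ta] using h (.inr i)).trans_eq (by simp))
    · exact e1 (.inr i)

end Pool.Agent.Lib.MP_7f377f_mp.RG.Jt
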