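import Pool.Agent.Lib.MP_7f377f_mp.JtM

/-! Properties of the sections and of the coordinates. -/

noncomputable section

namespace Pool.Agent.Lib.MP_7f377f_mp.RG.Jt

open Finset

attribute [local irreducible] box lbox

/-- weighted bound of coordinates -/
def Wi {s : ℕ} (t A : ℝ) (c : Ia s → ℝ) : Prop := ∀ a, |c a| ≤ A / t ^ dI a

variable {α : Mi} {ν μ : Fin 4} {a j q : V} {R n k s i : ℕ} {t A B σ v K : ℝ} {m : BF}

theorem on_ap (a : V) : on R m s a = a - ri R m s (tw (Mo R m a)) := rfl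

theorem sec_ap (c : Ia s → ℝ) :
    sec R m v s c = on R m s (p0 s (rl s c)) + ri R m s (v • pT (rr s c)) := rfl

theorem md_ap (c : Ia s → ℝ) : md s c = p0 s (rl s c) + Gp s (pT (rr s c)) := rfl

theorem crd_inl (q : V) (b : On s) :
    crd R m v s q (.inl b) = Ring.inverse (E0 R m s) (pi0 s (on R m s q)) b := rfl

theorem crd_inr (q : V) (k : Te) :
    crd R m v s q (.inr k) = v⁻¹ * jet (tw (Mo R m q)) (ta k).1 (ta k).2 := rfl

theorem Wi.nonneg {c : Ia s → ℝ} (h : Wi t A c) (t0 : 0 < t) : 0 ≤ A := by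
  have := (abs_nonneg _).trans (h (.inr (.inl 0)))
  rwa [le_div_iff₀ (by positivity), zero_mul] at this

theorem Sc.ep_le (h : Sc R n σ t K) (σ0 : 0 ≤ σ) : 8 * 7 ^ (n + 1) * ep R n σ t ≤ 1 :=
  (mul_le_mul_of_nonneg_right h.K1 (ep_nonneg σ0 (by linarith [h.one]))).trans h.sm

theorem Sc.ep_one (h : Sc R n σ t K) (σ0 : 0 ≤ σ) : ep R n σ t ≤ 1 := by
  have := ep_nonneg (R := R) (n := n) σ0 (by linarith [h.one] : 0 ≤ t)
  have h1 : (1 : ℝ) ≤ 7 ^ (n + 1) := one_le_pow₀ (by norm_num)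
  nlinarith [h.ep_le σ0]

theorem Lv.on_mem (hm : Lv R m v σ) (ht : Sc R s σ t K) (hk : k ≤ s) (ha : a ∈ Pd (k + 2)) :
    on R m s a ∈ Pk0 R m k :=
  mem_Pk0.2 ⟨sub_mem ha (hm.ri_Pd ht hk (hm.mem ha)), tw_inj (by
    rw [on_ap, map_sub, map_sub, hm.ri_eq ht (Zc_mono hk (hm.mem ha)), sub_self])⟩

theorem on_eq (h : Mo R m a = 0) : on R m s a = a := by simp [on_ap, h]

theorem Lv.on_ri (hm : Lv R m v σ) (ht : Sc R s σ t K) (hj : j ∈ Zc s) :
    on R m s (Jt.ri R m s j) = 0 := by rw [on_ap, hm.ri_eq ht hj, sub_self]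

theorem Lv.on_p0 (hm : Lv R m v σ) (ht : Sc R s σ t K) {c : On s → ℝ} (A0 : 0 ≤ A)
    (h : ∀ b, |c b| ≤ A / t ^ b.1.1) :
    Wc t (8 * 7 ^ (s + 1) * ep R s σ t * (C0 s * A)) (p0 s c - on R m s (p0 s c)) := by
  have t1 := ht.one
  rw [on_ap, sub_sub_cancel]
  refine (hm.ri_bd ht (hm.mem (p0_mem c)) (B := ep R s σ t * (C0 s * A) / t) fun α μ => ?_).mono
    (by linarith) (le_of_eq (by field_simp))
  simpa [M0_p0] using hm.pert ht.t1 (p0_mem c) (p0_bd (by linarith) A0 h) α μ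

theorem Lv.E0_apri (hm : Lv R m v σ) (ht : Sc R s σ t (K0 s)) {c : On s → ℝ}
    (h : ∀ b, |E0 R m s c b| ≤ B / t ^ b.1.1) (b : On s) : |c b| ≤ 2 * B / t ^ b.1.1 := by
  have t1 := ht.one
  obtain ⟨p, -, hp⟩ := exists_max_image univ (fun p : On s => |c p| * t ^ p.1.1) ⟨b, mem_univ _⟩
  have h1 : ∀ b, |c b| ≤ |c p| * t ^ p.1.1 / t ^ b.1.1 := fun b => by
    rw [le_div_iff₀ (by positivity)]
    exact hp b (mem_univ _)
  have h2 := pi0_bd (by linarith) (hm.on_p0 ht (by positivity) h1) p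
  rw [map_sub, pi0_p0] at h2
  have h3 := abs_sub_abs_le_abs_sub (c p) (E0 R m s c p)
  have h4 : 16 * 7 ^ (s + 1) * (C0 s * C1 s) * ep R s σ t ≤ 1 :=
    le_trans (mul_le_mul_of_nonneg_right (by rw [K0]; gcongr; linarith)
      (ep_nonneg hm.σ0 (by linarith))) ht.sm
  replace h2 := h2.trans_eq
    (c := 16 * 7 ^ (s + 1) * (C0 s * C1 s) * ep R s σ t * |c p| / 2) (by field_simp; ring)
  have h5 : |c p| ≤ 2 * B / t ^ p.1.1 := by
    have := mul_le_mul_of_nonneg_right h4 (abs_nonneg (c p))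
    change |c p - E0 R m s c p| ≤ _ at h2
    rw [mul_div_assoc]
    linarith [h p]
  rw [le_div_iff₀ (by positivity)] at h5
  exact (h1 b).trans (div_le_div_of_nonneg_right h5 (by positivity))

theorem Lv.E0_unit (hm : Lv R m v σ) (ht : Sc R s σ t (K0 s)) : IsUnit (E0 R m s) :=
  (LinearMap.isUnit_iff_ker_eq_bot _).2 (LinearMap.ker_eq_bot'.2 fun c hc => funext fun b => by
    simpa using hm.E0_apri (B := 0) ht (fun b => by simp [hc]) b)

theorem Lv.E0_inv (hm : Lv R m v σ) (ht : Sc R s σ t (K0 s)) (c : On s → ℝ) :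
    E0 R m s (Ring.inverse (E0 R m s) c) = c := by
  rw [← Module.End.mul_apply, Ring.mul_inverse_cancel _ (hm.E0_unit ht)]
  rfl

theorem Lv.pi0_inj (hm : Lv R m v σ) (ht : Sc R s σ t (K0 s)) (hq : q ∈ Pk0 R m s)
    (h : pi0 s q = 0) : dd q = 0 := by
  have t1 := ht.one
  have e0 := ep_nonneg (R := R) (n := s) hm.σ0 (by linarith : 0 ≤ t)
  obtain ⟨α, μ, ν, h1⟩ := ex_wc t1 hq.1
  generalize hA : |dd (Dm α q) 0 μ ν| * t ^ dg α = A at h1
  have A0 := h1.nonneg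
  have hZ : M0 q ∈ Zc s := ⟨M0_Pd hq.1, dv_M0 q⟩
  have h2 : Wb t (2 * ep R s σ t * A / t) (M0 q) := fun β κ => by
    have := hm.pert ht.t1 hq.1 h1 β κ
    rw [(mem_Pk0.1 hq).2, map_zero, map_zero, Pi.zero_apply, Pi.zero_apply, zero_sub, abs_neg,
      abs_mul, abs_of_nonneg (by linarith [hm.v1])] at this
    rw [mul_assoc, mul_div_assoc, mul_div_assoc]
    nlinarith [abs_nonneg (jet (M0 q) β κ), hm.v1]
  have h3 := ((Gp_bd (n := s) t1 h2).wc t1).mono (by linarith)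
    (le_of_eq (show _ = 4 * 7 ^ (s + 1) * ep R s σ t * A by field_simp; ring))
  have h4 := p0_pi0 (s := s) (sub_mem hq.1 (Gp_Pd (n := s) hZ.1))
    (by rw [map_sub, M0_Gp hZ, sub_self])
  rw [map_sub, h, zero_sub, map_neg] at h4
  have h5 := p0_bd (by linarith) (mul_nonneg (C1_nonneg s) h3.nonneg) (pi0_bd (by linarith) h3)
  have h6 := wc_iff.1 ((h3.sub h5).congr (b := q) (by
    rw [sub_eq_add_neg, La.dd_add, h4, La.dd_sub, add_sub_cancel])) α μ ν
  rw [le_div_iff₀ (by positivity), hA] at h6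
  have h7 := mul_le_mul_of_nonneg_right ht.sm A0
  rw [K0] at h7
  have h8 : A = 0 := by nlinarith
  subst h8
  exact dd_ext hq.1 fun i _ => norm_le_zero_iff.1 ((wc_cj (by linarith) h1 i).trans_eq (by simp))

theorem Lv.sec_cur (hm : Lv R m v σ) (ht : Sc R s σ t K) (hs : 2 ≤ s) (c : Ia s → ℝ) :
    tw (Mo R m (sec R m v s c)) = v • pT (rr s c) := by
  rw [sec_ap, map_add, (mem_Pk0.1 (hm.on_mem ht le_rfl (p0_mem _))).2, zero_add,
    hm.ri_eq ht (Submodule.smul_mem _ _ (pT_mem hs _))]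

/-- the section is filtered -/
theorem Lv.sec_mem (hm : Lv R m v σ) (ht : Sc R s σ t K) (hs : 2 ≤ s) (hk : k ≤ s) {c : Ia s → ℝ}
    (h : ∀ a, k < dI a → c a = 0) : sec R m v s c ∈ Pk R m k :=
  mem_Pk.2 ⟨add_mem (hm.on_mem ht hk (p0_Pd fun b => h (.inl b))).1
    (hm.ri_Pd ht hk (Submodule.smul_mem _ _ (pT_Z fun b => h (.inr b)))),
    Tn_of_tw (by rw [hm.sec_cur ht hs]; exact Submodule.smul_mem _ _ (pT_Tn _))⟩

theorem dI_le (hs : 2 ≤ s) (a : Ia s) : dI a ≤ s := by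
  rcases a with b | k
  · exact Nat.lt_succ_iff.1 b.1.2
  · exact (Nat.succ_le_succ (ta_le k)).trans hs

theorem Lv.sec_Pk (hm : Lv R m v σ) (ht : Sc R s σ t K) (hs : 2 ≤ s) (c : Ia s → ℝ) :
    sec R m v s c ∈ Pk R m s := hm.sec_mem ht hs le_rfl fun a h => absurd (dI_le hs a) (by omega)

/-- the on shell part of the section -/
theorem Lv.sec_on (hm : Lv R m v σ) (ht : Sc R s σ t K) (hs : 2 ≤ s) {c : Ia s → ℝ}
    (h : ∀ k, c (.inr k) = 0) : Mo R m (sec R m v s c) = 0 := tw_inj (by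
  rw [hm.sec_cur ht hs, show rr s c = 0 from funext h, map_zero, smul_zero])

theorem crd_on (h : Mo R m q = 0) (k : Te) : crd R m v s q (.inr k) = 0 := by simp [crd_inr, h]

theorem Lv.crd_sec (hm : Lv R m v σ) (ht : Sc R s σ t (K0 s)) (hs : 2 ≤ s) (c : Ia s → ℝ) :
    crd R m v s (sec R m v s c) = c := by
  funext a
  rcases a with b | k
  · rw [crd_inl, sec_ap, map_add, hm.on_ri ht (Submodule.smul_mem _ _ (pT_mem hs _)), add_zero,
      on_eq (mem_Pk0.1 (hm.on_mem ht le_rfl (p0_mem _))).2]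
    change (Ring.inverse (E0 R m s) * E0 R m s) (rl s c) b = _
    rw [Ring.inverse_mul_cancel _ (hm.E0_unit ht)]
    rfl
  · rw [crd_inr, hm.sec_cur ht hs, map_smul, Pi.smul_apply, Pi.smul_apply, jet_pT_ta, smul_eq_mul,
      inv_mul_cancel_left₀ (by linarith [hm.v1])]
    rfl

theorem Lv.sec_crd (hm : Lv R m v σ) (ht : Sc R s σ t (K0 s)) (hq : q ∈ Pk R m s) :
    dd (sec R m v s (crd R m v s q)) = dd q := by
  have h1 : v • pT (rr s (crd R m v s q)) = tw (Mo R m q) := by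
    rw [← map_smul, ← pT_jet (Tn_tw hq.2) (hm.mem hq.1).2]
    congr 1
    funext k
    exact mul_inv_cancel_left₀ (by linarith [hm.v1]) _
  have h2 := hm.pi0_inj ht (sub_mem (hm.on_mem ht le_rfl (p0_mem (rl s (crd R m v s q))))
    (hm.on_mem ht le_rfl hq.1)) (by
      rw [map_sub, sub_eq_zero]
      exact hm.E0_inv ht _)
  rw [La.dd_sub, sub_eq_zero] at h2
  rw [sec_ap, h1, La.dd_add, h2, ← La.dd_add, on_ap, sub_add_cancel]

/-- the coordinates are filtered -/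
theorem Lv.crd_fil (hm : Lv R m v σ) (ht : Sc R s σ t (K0 s)) (hk : k ≤ s) (hq : q ∈ Pd (k + 2))
    (a : Ia s) (ha : k < dI a) : crd R m v s q a = 0 := by
  rcases a with b | i
  · let F : Submodule ℝ (On s → ℝ) := ⨅ b ∈ {b : On s | k < b.1.1}, LinearMap.ker (.proj b)
    have hF : ∀ c, c ∈ F ↔ ∀ b, k < b.1.1 → c b = 0 := fun c => by simp [F]
    have h1 : ∀ q ∈ Pd (k + 2), pi0 s (on R m s q) ∈ F := fun q hq => (hF _).2 fun b hb => by
      rw [pi0_ap, cj_Pd (hm.on_mem ht hk hq).1 hb]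
      simp
    exact (hF _).1 (inv_mem (hm.E0_unit ht) (fun c hc => h1 _ (p0_Pd ((hF c).1 hc))) (h1 q hq)) b ha
  · rw [crd_inr, jet_ap, Pd_ge (hm.mem hq).1 (Nat.lt_succ_iff.1 ha), Pi.zero_apply, mul_zero]

theorem C2_ge (s : ℕ) : 2 * C1 s * (1 + 72 * 7 ^ (s + 1)) ≤ C2 s ∧ 18 ≤ C2 s ∧
    2 * C0 s + 48 * 7 ^ (s + 1) ≤ C2 s ∧
      8 * 7 ^ (s + 1) * C0 s + 96 * 49 ^ (s + 1) * 4 ≤ C2 s := by
  have := C0_nonneg s
  have := C1_nonneg s
  have h1 : (1 : ℝ) ≤ 7 ^ (s + 1) := one_le_pow₀ (by norm_num)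
  have h2 : (7 : ℝ) ^ (s + 1) ≤ 49 ^ (s + 1) := by gcongr; norm_num
  unfold C2
  generalize (7 : ℝ) ^ (s + 1) = x at *
  generalize (49 : ℝ) ^ (s + 1) = y at *
  have := mul_nonneg (C0_nonneg s) (C1_nonneg s)
  have := mul_le_mul_of_nonneg_right h2 (C0_nonneg s)
  have := mul_le_mul_of_nonneg_right h2 (C1_nonneg s)
  have := mul_le_mul_of_nonneg_right h1 (C0_nonneg s)
  have := mul_le_mul_of_nonneg_right h1 (C1_nonneg s)
  have := mul_nonneg (by linarith : 0 ≤ y) (mul_nonneg (C0_nonneg s) (C1_nonneg s))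
  refine ⟨?_, ?_, ?_, ?_⟩ <;> nlinarith

theorem C2_nonneg (s : ℕ) : 0 ≤ C2 s := le_trans (by norm_num) (C2_ge s).2.1

theorem Lv.cur_bd (hm : Lv R m v σ) (ht : Sc R s σ t K) (hq : q ∈ Pd (s + 2)) (h : Wc t A q) :
    Wb t (9 * A / t) (tw (Mo R m q)) := fun α μ => by
  have t1 := ht.one
  have A0 := h.nonneg
  have h1 := hm.pert ht.t1 hq h α μ
  have h2 := wb_M0 h α μ
  have h3 := abs_sub_abs_le_abs_sub (jet (tw (Mo R m q)) α μ) (v * jet (M0 q) α μ)
  have h4 := mul_le_mul_of_nonneg_right (ht.ep_one hm.σ0) (by positivity : 0 ≤ A / t / t ^ dg α)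
  have h5 := mul_le_mul_of_nonneg_right hm.v2 (abs_nonneg (jet (M0 q) α μ))
  rw [abs_mul, abs_of_nonneg (by linarith [hm.v1] : 0 ≤ v)] at h3
  simp only [mul_div_assoc] at h1 h2 ⊢
  linarith

theorem Lv.crd_bd (hm : Lv R m v σ) (ht : Sc R s σ t (K0 s)) (hq : q ∈ Pd (s + 2)) (h : Wc t A q) :
    Wi t (C2 s * A) (crd R m v s q) := by
  have t1 := ht.one
  have A0 := h.nonneg
  have h1 := hm.cur_bd ht hq h
  rintro (b | k)
  · have h2 := h.sub ((hm.ri_bd ht (hm.mem hq) h1).mono (by linarith)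
      (le_of_eq (show _ = 72 * 7 ^ (s + 1) * A by field_simp; ring)))
    rw [crd_inl]
    refine (hm.E0_apri ht (fun b => by rw [hm.E0_inv ht]; exact pi0_bd (by linarith) h2 b) b).trans
      (div_le_div_of_nonneg_right ?_ (by positivity))
    linarith [mul_le_mul_of_nonneg_right (C2_ge s).1 A0]
  · have v0 : 0 < v := by linarith [hm.v1]
    rw [crd_inr, abs_mul, abs_of_pos (inv_pos.2 v0)]
    refine (mul_le_mul ((inv_le_comm₀ v0 two_pos).2 hm.v1) (h1 _ _) (abs_nonneg _) two_pos.le).trans ?_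
    rw [dI, div_div, ← pow_succ', ← mul_div_assoc]
    refine div_le_div_of_nonneg_right ?_ (by positivity)
    linarith [mul_le_mul_of_nonneg_right (C2_ge s).2.1 A0]

theorem wb_smul (h : Wb t A j) (c : ℝ) : Wb t (|c| * A) (c • j) := fun α μ => by
  rw [map_smul, Pi.smul_apply, Pi.smul_apply, smul_eq_mul, abs_mul, mul_div_assoc]
  exact mul_le_mul_of_nonneg_left (h α μ) (abs_nonneg c)

theorem Lv.sec_bd (hm : Lv R m v σ) (ht : Sc R s σ t K) (hs : 2 ≤ s) {c : Ia s → ℝ} (h : Wi t A c) :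
    Wc t (C2 s * A) (sec R m v s c) := by
  have t1 := ht.one
  have A0 := h.nonneg (by linarith)
  have h1 := (p0_bd (by linarith) A0 fun b => h (.inl b)).sub (hm.on_p0 ht A0 fun b => h (.inl b))
  have h2 := hm.ri_bd ht (Submodule.smul_mem _ v (pT_mem hs _))
    (wb_smul (pT_bd t1 A0 fun k => h (.inr k)) v)
  rw [sub_sub_cancel] at h1
  refine (h1.add h2).mono (by linarith) ?_
  have h3 := mul_le_mul_of_nonneg_right (ht.ep_le hm.σ0) (mul_nonneg (C0_nonneg s) A0)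
  have h4 : 8 * 7 ^ (s + 1) * t * (|v| * (3 * A / t)) ≤ 48 * 7 ^ (s + 1) * A := by
    rw [abs_of_nonneg (by linarith [hm.v1])]
    calc _ = 24 * 7 ^ (s + 1) * A * v := by field_simp; ring
      _ ≤ 24 * 7 ^ (s + 1) * A * 2 := mul_le_mul_of_nonneg_left hm.v2 (by positivity)
      _ = _ := by ring
  linarith [mul_le_mul_of_nonneg_right (C2_ge s).2.2.1 A0]

/-- the section is close to the model -/
theorem Lv.sec_md (hm : Lv R m v σ) (ht : Sc R s σ t K) (hs : 2 ≤ s) {c : Ia s → ℝ} (h : Wi t A c) :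
    Wc t (C2 s * ep R s σ t * A) (md s c - sec R m v s c) := by
  have t1 := ht.one
  have A0 := h.nonneg (by linarith)
  have e0 := ep_nonneg (R := R) (n := s) hm.σ0 (by linarith : 0 ≤ t)
  have v0 : 0 < v := by linarith [hm.v1]
  have h1 := hm.on_p0 ht A0 fun b => h (.inl b)
  obtain ⟨i, hi, h2, h3⟩ := hm.ri ht _ (Submodule.smul_mem _ v (pT_mem hs (rr s c)))
  have h4 := hm.apri ht hi (h3.symm ▸ wb_smul (pT_bd t1 A0 fun k => h (.inr k)) v)
  have h5 : Wb t (ep R s σ t * (24 * 7 ^ (s + 1) * A) / t) (pT (rr s c) - i) := fun α μ => by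
    have := hm.pert (a := Gp s i) ht.t1 (nw_mem _ _) ((Gp_bd (n := s) t1 h4).wc t1) α μ
    rw [h3, M0_Gp hi, map_smul, Pi.smul_apply, Pi.smul_apply, smul_eq_mul, ← mul_sub, abs_mul,
      abs_of_pos v0] at this
    rw [map_sub, Pi.sub_apply, Pi.sub_apply]
    refine le_of_mul_le_mul_left (this.trans_eq ?_) v0
    field_simp
    ring
  have h6 := (Gp_bd (n := s) t1 h5).wc t1
  rw [map_sub] at h6
  refine ((h1.add h6).mono (by linarith) ?_).congr (by
    rw [md_ap, sec_ap, h2, add_sub_add_comm]; rfl)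
  have h7 := mul_le_mul_of_nonneg_right (C2_ge s).2.2.2 (mul_nonneg e0 A0)
  have h8 : 2 * (7 ^ (s + 1) * t ^ 2 * (ep R s σ t * (24 * 7 ^ (s + 1) * A) / t)) / t =
      48 * 49 ^ (s + 1) * (ep R s σ t * A) := by
    rw [show (49 : ℝ) = 7 * 7 by norm_num, mul_pow]
    field_simp
    ring
  have h9 : 0 ≤ 49 ^ (s + 1) * (ep R s σ t * A) := by positivity
  rw [h8]
  linarith

theorem ex_big (x y : ℝ) {η : ℝ} (hη : 0 < η) : ∃ t, x ≤ t ∧ y ≤ η * t :=
  ⟨max x (y / η), le_max_left _ _, by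
    rw [mul_comm, ← div_le_iff₀ hη]; exact le_max_right _ _⟩

/-- the top coordinates are controlled by the top jet -/
theorem Lv.crd_top (hm : Lv R m v σ) (ht : Sc R s σ t (K0 s)) (hk : k ≤ s) (hq : q ∈ Pd (k + 2))
    (h : ‖cj k q‖ ≤ A) (a : Ia s) (ha : dI a = k) : |crd R m v s q a| ≤ C2 s * A := by
  have t1 := ht.one
  have c0 := C2_nonneg s
  have A0 := (norm_nonneg _).trans h
  refine le_of_forall_pos_le_add fun ε hε => ?_
  obtain ⟨η, η0, η1⟩ : ∃ η, 0 < η ∧ C2 s * η ≤ ε := ⟨ε / (C2 s + 1), by positivity, by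
    rw [mul_div_assoc', div_le_iff₀ (by positivity)]; nlinarith⟩
  obtain ⟨u, u1, u2⟩ := ex_big t (∑ i ∈ range k, ‖cj i q‖) η0
  have u0 := t1.trans u1
  have := hm.crd_bd (ht.mono hm.σ0 u1 le_rfl ht.K1) (Pd_mono (by omega) hq)
    (A := (A + η) * u ^ k) (cj_wc fun i => by
      rcases lt_trichotomy i k with h1 | rfl | h1
      · rw [le_div_iff₀ (by positivity)]
        calc _ ≤ η * u * u ^ i := mul_le_mul_of_nonneg_right ((single_le_sum
              (f := fun i => ‖cj i q‖) (fun _ _ => norm_nonneg _) (mem_range.2 h1)).trans u2)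
              (by positivity)
          _ = η * u ^ (i + 1) := by ring
          _ ≤ _ := by gcongr; exacts [by linarith, h1]
      · rw [mul_div_cancel_right₀ _ (by positivity)]
        linarith
      · rw [cj_Pd hq h1, norm_zero]
        positivity) a
  rw [ha, ← mul_assoc, mul_div_cancel_right₀ _ (by positivity)] at this
  linarith

theorem wi_single (t0 : 0 < t) (b : Ia s) : Wi t (t ^ dI b) (Pi.single b 1) := fun a => by
  rw [Pi.single_apply]
  split_ifs with h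
  · rw [h, div_self (by positivity), abs_one]
  · rw [abs_zero]
    positivity

/-- the top jet of the section is the model up to the anisotropy -/
theorem Lv.sec_top (hm : Lv R m v σ) (ht : Sc R s σ t K) (hs : 2 ≤ s) (b : Ia s) :
    ‖cj (dI b) (md s (Pi.single b 1) - sec R m v s (Pi.single b 1))‖ ≤ C2 s * (64 * σ) := by
  have t1 := ht.one
  have c0 := C2_nonneg s
  refine le_of_forall_pos_le_add fun ε hε => ?_
  obtain ⟨u, u1, u2⟩ := ex_big t (C2 s * ((s + 1) * (KM R * (4 * (2 * R + 1)) ^ 2))) hε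
  have u0 := t1.trans u1
  have := wc_cj (by linarith) (hm.sec_md (ht.mono hm.σ0 u1 le_rfl ht.K1) hs
    (wi_single (by linarith) b)) (dI b)
  rw [mul_div_cancel_right₀ _ (by positivity), ep, mul_add, ← mul_div_assoc] at this
  exact this.trans (add_le_add le_rfl ((div_le_iff₀ (by linarith)).2 u2))

end Pool.Agent.Lib.MP_7f377f_mp.RG.Jt
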