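import Pool.Agent.Lib.MP_7f377f_mp.JtI
import Pool.Agent.Lib.MP_7f377f_mp.Q4LinDefs

/-! The equation of the linear minimiser and its interior regularity. -/

noncomputable section

namespace Pool.Agent.Lib.MP_7f377f_mp.RG.Jt

open Finset
open scoped Pointwise

attribute [local irreducible] box lbox

/-- the adjoint of the averaging -/
def avgT (l : ℕ) : Module.End ℝ V := LinearMap.pi fun e =>
  ((LL l : ℝ) ^ 4)⁻¹ • ∑ i ∈ range (LL l), LinearMap.proj (yo l (e.1 - (i : ℤ) • un e.2), e.2)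

/-- the Euler-Lagrange expression of the pair `a`, `B` -/
def EL (l R : ℕ) (m : BF) (a B : V) : V := Mo R m a - (LL l : ℝ) ^ 2 • avgT l (B - avgA l a)

variable {α : Mi} {ν μ κ : Fin 4} {a b φ B : V} {l r c R n ρ w : ℕ} {δ ε τ g cL cU : ℝ} {m : BF}
  {s : V →ₗ[ℝ] V} {x : St}

theorem avgT_ap (l : ℕ) (B : V) (e : Lk) : avgT l B e =
    ((LL l : ℝ) ^ 4)⁻¹ * ∑ i ∈ range (LL l), B (yo l (e.1 - (i : ℤ) • un e.2), e.2) := by
  simp [avgT]

theorem avgT_sh (l : ℕ) (y : St) (B : V) : avgT l (sh y B) = sh (up l y) (avgT l B) :=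
  funext fun e => by simp only [avgT_ap, sh_apply, add_sub_right_comm, yo_add_up]

theorem EL_sh (l R : ℕ) (m : BF) (y : St) (a B : V) :
    EL l R m (sh (up l y) a) (sh y B) = sh (up l y) (EL l R m a B) := by
  rw [EL, La.avgA_sh, ← La.sh_sub, avgT_sh, cov_Mo R m]
  rfl

theorem reix {T S : Finset St} {f : St → ℝ} (g : St → ℝ) (u : St) (hT : ∀ x ∉ T, f x = 0)
    (hS : ∀ x ∈ T, x - u ∈ S) : ∑ z ∈ S, f (u + z) * g z = ∑ x ∈ T, f x * g (x - u) := by
  have := Li.sum_shift T (-u) fun z => f (u + z) * g z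
  simp only [neg_add_eq_sub, add_sub_cancel] at this
  rw [this]
  refine (sum_subset (fun z hz => ?_) fun z _ hz => ?_).symm
  · obtain ⟨x, hx, rfl⟩ := mem_image.1 hz
    exact hS x hx
  · rw [hT _ fun h1 => hz (mem_image.2 ⟨_, h1, by simp⟩), zero_mul]

theorem avg_adj {T Y : Finset St} (hT : ∀ e : Lk, e.1 ∉ T → φ e = 0)
    (hY : ∀ x ∈ T, ∀ u ∈ box (2 * l), yo l (x - u) ∈ Y) (B : V) :
    ∑ y ∈ Y, ∑ μ, avgA l φ (y, μ) * B (y, μ) = ∑ x ∈ T, ∑ μ, φ (x, μ) * avgT l B (x, μ) := by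
  rw [sum_comm, sum_comm (s := T)]
  refine sum_congr rfl fun μ _ => ?_
  simp only [Li.avgA_apply, avgT_ap, mul_assoc, mul_left_comm (φ _), ← mul_sum]
  congr 1
  simp only [sum_mul, mul_sum]
  rw [sum_congr rfl fun y (_ : y ∈ Y) => sum_comm (s := box l) (t := range (LL l)), sum_comm,
    sum_comm (s := T)]
  refine sum_congr rfl fun i hi => ?_
  rw [← reix (f := fun x => φ (x, μ)) (S := La.Blk l Y) (fun z => B (yo l z, μ)) _
    (fun x hx => hT _ hx) fun x hx => La.mem_Blk.2 (hY x hx _ (Li.smul_un_mem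
      (Nat.lt_succ_iff.1 (mem_range.1 hi)) μ)), La.sum_Blk]
  refine sum_congr rfl fun y _ => sum_congr rfl fun t ht => ?_
  rw [La.yo_add_up ht]
  congr 3
  abel

/-- the first variation of the energy -/
theorem var (hr : Rng R R m) (hs : ∀ a b, m a b = m b a) (hR : R ≤ 2 * l) {T Y : Finset St}
    (hT : ∀ e : Lk, e.1 ∉ T → φ e = 0) (hY : ∀ x ∈ T, ∀ u ∈ box (2 * l), yo l (x - u) ∈ Y)
    (a B : V) : ∑ y ∈ Y, enB l m (sh (up l y) φ, 0) (sh (up l y) a, sh y B) =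
      ∑ x ∈ T, ∑ μ, φ (x, μ) * EL l R m a B (x, μ) := by
  have h1 := weak hr hT (S := La.Blk l Y)
    (fun x hx u hu => La.mem_Blk.2 (hY x hx u (box_mono hR hu))) a
  have h2 := avg_adj hT hY (B - avgA l a)
  rw [La.sum_Blk] at h1
  simp only [La.enB_apply, sum_add_distrib, sh_sh, hs (sh _ φ), h1, La.avgA_sh, sh_apply, zero_add,
    Pi.zero_apply, zero_sub, neg_mul, sum_neg_distrib, mul_neg, ← mul_sum, EL, Pi.sub_apply,
    Pi.smul_apply, smul_eq_mul, mul_sub, sum_sub_distrib, mul_left_comm (φ _)] at h2 ⊢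
  rw [← h2]
  ring

theorem enB_TG (hg : ∀ u b, m (gr u) b = 0) (l : ℕ) (φ : V) (q : V × V) :
    enB l m (La.TG l φ, 0) q = enB l m (φ, 0) q := by
  obtain ⟨u, hu⟩ : ∃ u, La.TG l φ = φ - gr u := ⟨_, rfl⟩
  have h1 : avgA l (gr u) = 0 := by
    have := La.avgA_TG l φ
    rwa [hu, map_sub, sub_eq_self] at this
  have h2 : (La.TG l φ, (0 : V)) = (φ, 0) - (gr u, 0) := by rw [hu, Prod.mk_sub_mk, sub_zero]
  rw [h2, map_sub, LinearMap.sub_apply, La.enB_gr hg h1, sub_zero]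

theorem pre_lin (h : Lin l r c τ m s) : La.Pre l r c τ m s :=
  ⟨h.s_tree, h.s_gauge, h.s_rng, h.s_bd, h.stat, h.energy, h.point⟩

/-- the minimiser is stationary on all links -/
theorem mu_EL (hr : Rng R R m) (hR : R ≤ l) (h : Lin l r c τ m s) (hτ : 0 ≤ τ)
    (hB : Cv (r / 3 + 1) δ B) : Sm l (2592 * (LL l : ℝ) ^ 5 * τ * δ) (EL l R m (mu l s B) B) := by
  intro f hf
  have d0 := hB.nonneg
  have f0 := yo_of_mem (mem_lbox.1 hf)
  have h1 := var (φ := Pi.single f 1) hr h.symm (show R ≤ 2 * l by omega) (T := {f.1}) (Y := box 3)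
    (fun e he => Pi.single_eq_of_ne (fun h => he (by simp [h])) _)
    (fun x hx u hu => yo_mem_box (box_mono (by simp only [LL]; omega)
      (sub_mem_box (mem_singleton.1 hx ▸ mem_lbox.1 hf) hu))) (mu l s B) B
  have h2 : ∑ μ, (Pi.single f 1 : V) (f.1, μ) * EL l R m (mu l s B) B (f.1, μ) =
      EL l R m (mu l s B) B f := by
    rw [sum_eq_single f.2 (fun μ _ hμ => by
      rw [Pi.single_eq_of_ne fun h => hμ (congrArg Prod.snd h), zero_mul]) (by simp)]
    simp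
  have h3 : ∀ e, |La.TG l (Pi.single f 1) e| ≤ 8 * LL l := fun e =>
    (La.TG_bd l _ e (K := 1) fun e' _ => by
      rw [Pi.single_apply]; split_ifs <;> simp).trans (by simp only [LL]; push_cast; linarith)
  have h4 : ∀ y ∉ box 1, Sm l 0 (sh (up l y) (La.TG l (Pi.single f 1))) := fun y hy e he => by
    refine (La.TG_bd l _ (e.1 + up l y, e.2) (K := 0) fun e' h' => ?_).trans_eq (mul_zero _)
    rw [Pi.single_eq_of_ne, abs_zero]
    rintro rfl
    have h5 := La.yo_add_up (mem_lbox.1 he) y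
    rcases h' with h' | h'
    · exact hy (by rw [← h5, ← h', f0]; exact zero_mem_box 1)
    · rcases yo_add_un l (e.1 + up l y) e.2 with h6 | h6
      · exact hy (by rw [← h5, ← h6, ← h', f0]; exact zero_mem_box 1)
      · rw [h6, h5, f0] at h'
        exact hy (by rw [eq_neg_of_add_eq_zero_left h'.symm]; exact neg_mem_box (un_mem_box _))
  have h5 := La.cross_sum h.xx_rng h4 (S := box 3) (fun z hz w hw => add_mem_box hz hw) B
  simp only [← La.TG_sh, La.xx_apply, enB_TG h.gauge, La.mu_sh] at h5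
  rw [sum_singleton, h2] at h1
  rw [← h1, h5]
  simp only [← La.mu_sh, ← La.xx_apply, La.TG_sh]
  refine (abs_sum_le_sum_abs _ _).trans ((sum_le_card_nsmul _ _ _ fun z hz =>
    (La.cross_one (pre_lin h) (fun e he => ?_) (hB.sh hz)).trans (sum_le_card_nsmul _ _
      (8 * LL l * (τ * δ)) fun e _ => mul_le_mul_of_nonneg_right (h3 _)
        (by positivity))).trans_eq ?_)
  · exact La.TG_tree _ ((tree_add_up l e.1 z e.2).2 he)
  · simp only [card_box, card_lbox, nsmul_eq_mul, LL]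
    push_cast
    ring

theorem sm_D1 (h : Sm (ρ + 1) ε a) (i : Fin 4) : Sm ρ (2 * ε) (D1 i a) := fun _ he =>
  (norm_sub_le _ _).trans ((add_le_add (h _ (mem_lbox.2 (add_un_mem_box (mem_lbox.1 he) i)))
    (h _ (lbox_mono (Nat.le_succ _) he))).trans_eq (two_mul _).symm)

theorem sm_Dm (h : Sm (ρ + dg α) ε a) : Sm ρ (2 ^ dg α * ε) (Dm α a) := by
  induction α using ind generalizing a ε with
  | h0 => simpa using h
  | h1 β i ih =>
    rw [dg_add, dg_ei] at h ⊢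
    rw [Dm_succ_ap, pow_succ, mul_assoc]
    exact ih (sm_D1 h i)

theorem cv_Dm (h : Cv (ρ + dg α) ε a) : Cv ρ (2 ^ dg α * ε) (Dm α a) := cv_iff.2 fun ν => by
  rw [(cov_io ν).dm]
  exact sm_Dm (cv_iff.1 h ν)

theorem yo_congr {x x' : St} (h : ∀ i, x i = x' i ∨ (|x i| ≤ l ∧ |x' i| ≤ l)) : yo l x = yo l x' :=
  funext fun i => by
    rcases h i with h | ⟨h, h'⟩
    · simp only [yo, h]
    · have k : ∀ t : ℤ, |t| ≤ l → (t + l) / (LL l : ℤ) = 0 := fun t ht =>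
        Int.ediv_eq_zero_of_lt (by linarith [(abs_le.1 ht).1])
          (by rw [LL_cast]; linarith [(abs_le.1 ht).2])
      simp only [yo, k _ h, k _ h']

theorem D1_avgT (B : V) (hx : x ∈ box ρ) (hρ : ρ + 1 ≤ l) : D1 ν (avgT l B) (x, μ) =
    if ν = μ then ((LL l : ℝ) ^ 4)⁻¹ * (B (0, μ) - B (-un μ, μ)) else 0 := by
  have h1 : x + un ν ∈ box l := box_mono hρ (add_un_mem_box hx ν)
  simp only [D1_ap, avgT_ap, ← mul_sub, ← sum_sub_distrib]
  split_ifs with h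
  · subst h
    have := sum_range_sub' (fun i : ℕ => B (yo l (x + un ν - (i : ℤ) • un ν), ν)) (LL l)
    simp only [Nat.cast_succ, add_smul, one_smul, add_sub_add_right_eq_sub, Nat.cast_zero,
      zero_smul, sub_zero, yo_of_mem h1] at this
    rw [this, show x + un ν - (LL l : ℤ) • un ν = x + un ν + up l (-un ν) by
      rw [up, smul_neg, sub_eq_add_neg], yo_add_up, yo_of_mem h1, zero_add]
  · rw [sum_eq_zero fun i _ => ?_, mul_zero]
    rw [yo_congr (x' := x - (i : ℤ) • un μ) fun j => ?_, sub_self]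
    by_cases hj : j = ν
    · subst hj
      refine Or.inr ⟨?_, ?_⟩
      · simpa [un_ne h] using La.mem_box.1 h1 j
      · simpa [un_ne h] using La.mem_box.1 (box_mono ((Nat.le_succ ρ).trans hρ) hx) j
    · exact Or.inl (by simp [un_ne hj])

/-- the multi-index `α` is not seen by the component `μ` of a tent current -/
def NT (α : Mi) (μ : Fin 4) : Prop := α ≠ 0 ∧ α ≠ ei μ

theorem Dm_avgT (B : V) (hx : x ∈ box ρ) (hρ : ρ + dg α ≤ l) (h : NT α μ) :
    Dm α (avgT l B) (x, μ) = 0 := by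
  rcases h1 : dg α with _ | _ | j
  · exact absurd (dg_eq_zero h1) h.1
  · obtain ⟨β, ν, rfl, hβ⟩ := ex_succ h1
    obtain rfl := dg_eq_zero hβ
    rw [zero_add] at h ⊢
    rw [Dm_ei, D1_avgT B hx (by omega), if_neg fun h2 => h.2 (by rw [h2])]
  · obtain ⟨β, ν, rfl, hβ⟩ := ex_succ h1
    obtain ⟨γ, κ, rfl, hγ⟩ := ex_succ hβ
    rw [Dm_succ_ap, Dm_succ_ap]
    have : Sm (ρ + dg γ) 0 (D1 κ (D1 ν (avgT l B))) := fun e he => by
      rw [D1_ap, D1_avgT B (add_un_mem_box (mem_lbox.1 he) κ) (by omega),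
        D1_avgT (ρ := ρ + dg γ) B (mem_lbox.1 he) (by omega), sub_self, norm_zero]
    simpa using sm_Dm this (x, μ) (mem_lbox.2 hx)

/-- inside the block the current of the minimiser is a tent -/
theorem mu_src (hr : Rng R R m) (hR : R ≤ l) (h : Lin l r c τ m s) (hτ : 0 ≤ τ)
    (hB : Cv (r / 3 + 1) δ B) (hx : x ∈ box ρ) (hρ : ρ + dg α ≤ l) (hα : NT α μ) :
    |Dm α (Mo R m (mu l s B)) (x, μ)| ≤ 2 ^ dg α * (2592 * (LL l : ℝ) ^ 5 * τ * δ) := by
  have h1 := sm_Dm ((mu_EL hr hR h hτ hB).mono hρ le_rfl) (x, μ) (mem_lbox.2 hx)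
  rwa [EL, map_sub, map_smul, Pi.sub_apply, Pi.smul_apply, Dm_avgT _ hx hρ hα, smul_zero,
    sub_zero] at h1

theorem NT_two (h : 2 ≤ dg α) (μ : Fin 4) : NT α μ :=
  ⟨by rintro rfl; simp at h, by rintro rfl; simp at h⟩

theorem sum_sh_le {f : St → ℝ} (f0 : ∀ x, 0 ≤ f x) (hx : x ∈ box ρ) (h : w + ρ ≤ l) :
    ∑ z ∈ box w, f (z + x) ≤ ∑ z ∈ box l, f z := by
  simp only [add_comm _ x]
  rw [Li.sum_shift]
  refine sum_le_sum_of_subset_of_nonneg (fun z hz => ?_) fun _ _ _ => f0 _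
  obtain ⟨y, hy, rfl⟩ := mem_image.1 hz
  exact box_mono (by omega) (add_mem_box hx hy)

/-- interior regularity of the linear minimiser -/
theorem int_mu (hm : Inv n R cL cU m) (hL : cL ≤ 20) (hU : cU ≤ 20) (h : Lin l r c τ m s)
    (hg : Q4.Grad l r g s) (hτ : 0 ≤ τ) (g0 : 0 ≤ g) (hw : 2 * R + 2 ≤ w) {J : ℕ} {A : ℝ}
    (r1 : 1 ≤ r) (A1 : (r : ℝ) ^ 3 ≤ A) (A2 : g * w ≤ A)
    (A3 : 2 ^ (J + 1) * (2592 * (LL l : ℝ) ^ 5 * τ) * w ^ (J + 4) ≤ A)
    (hρ : (2 * J + 1) * w + ρ + J + 1 ≤ l) (hB : Cv (r / 3 + 1) δ B) (hα : dg α + 3 ≤ J) :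
    Cv ρ (16 * (KG R J ^ J * (A * δ)) / w ^ (2 + dg α)) (Dm α (mu l s B)) := by
  intro x hx ν μ
  have d0 := hB.nonneg
  have w1 : (1 : ℝ) ≤ w := by exact_mod_cast (show 1 ≤ w by omega)
  have r0 : (1 : ℝ) ≤ r := by exact_mod_cast r1
  have A0 : 0 ≤ A := le_trans (by positivity) A1
  have e1 : w ≤ (2 * J + 1) * w := Nat.le_mul_of_pos_left _ (by omega)
  have hB' := hB.mono (Nat.le_succ _) le_rfl
  have := int_est2 (a := sh x (mu l s B)) hm hL hU hw (mul_nonneg A0 d0) ?_ (fun κ => ?_)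
    (fun β h1 h2 e he => ?_) hα 0 (zero_mem_box 0) ν μ
  · rwa [cov_Dm, dd_sh, zero_add] at this
  · simp only [Li.nd_sh]
    refine (sum_sh_le (Li.nd_nonneg _) hx (by omega)).trans ((h.energy B δ hB').trans ?_)
    rw [mul_pow]
    refine mul_le_mul_of_nonneg_right (le_trans ?_ (pow_le_pow_left₀ (by positivity) A1 2))
      (by positivity)
    rw [← pow_mul]
    exact pow_le_pow_right₀ r0 (by norm_num)
  · simp only [cov_D1 κ x, Li.nd_sh]
    refine (sum_sh_le (Li.nd_nonneg _) hx (by omega)).trans ((sum_le_sum fun z _ =>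
      single_le_sum (f := fun κ => nd (D1 κ (mu l s B)) z) (fun _ _ => Li.nd_nonneg _ _)
        (mem_univ κ)).trans ((hg B δ hB').trans (pow_le_pow_left₀ (by positivity) ?_ 2)))
    rw [le_div_iff₀ (by positivity), mul_right_comm]
    exact mul_le_mul_of_nonneg_right A2 d0
  · rw [cov_Mo, cov_Dm]
    refine (mu_src hm.rng (by omega) h hτ hB (add_mem_box (mem_lbox.1 he) hx) (by omega)
      (NT_two h1 e.2)).trans ?_
    rw [le_div_iff₀ (by positivity)]
    calc _ ≤ 2 ^ (J + 1) * (2592 * (LL l : ℝ) ^ 5 * τ * δ) * w ^ (J + 4) := by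
          refine mul_le_mul (mul_le_mul_of_nonneg_right (pow_le_pow_right₀ one_le_two h2)
            (by positivity)) (pow_le_pow_right₀ w1 (by omega)) (by positivity) (by positivity)
      _ = 2 ^ (J + 1) * (2592 * (LL l : ℝ) ^ 5 * τ) * w ^ (J + 4) * δ := by ring
      _ ≤ _ := mul_le_mul_of_nonneg_right A3 d0

end Pool.Agent.Lib.MP_7f377f_mp.RG.Jt
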