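import Pool.Agent.Lib.MP_7f377f_mp.JtR

/-! The linear step on polynomial fields. -/

noncomputable section

namespace Pool.Agent.Lib.MP_7f377f_mp.RG.Jt

open Finset
open scoped Pointwise

attribute [local irreducible] box lbox

/-- left inverse of the adjoint of the averaging -/
def rho (l : ℕ) : Module.End ℝ V :=
  ((LL l : ℝ) ^ 3) • LinearMap.funLeft ℝ ℝ fun e => (up l e.1 + (l : ℤ) • un e.2, e.2)

/-- the coarse field whose minimiser is `q` -/
def Gm (l R : ℕ) (m : BF) : Module.End ℝ V := avgA l + ((LL l : ℝ) ^ 2)⁻¹ • (rho l * Mo R m)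

def KX (c l : ℕ) : ℕ → ℝ
  | 0 => 0
  | N + 1 => 4802 * (LL l : ℝ) ^ (c + 2) * (2592 * (LL l : ℝ) ^ 5 * (N * (4 * (l + 1)) ^ N) +
      (4 * KM l + 1) * (8 * (KX c l N * (N * 8 ^ N))))

variable {α : Mi} {ν μ : Fin 4} {a j q B : V} {l r c R n N ρ : ℕ} {t A δ τ κ : ℝ} {m : BF}
  {s : V →ₗ[ℝ] V}

theorem Wc.scale (h : Wc t A a) (ha : a ∈ Pd (n + 1)) (t0 : 0 < t) (κ1 : 1 ≤ κ) :
    Wc (κ * t) (κ ^ n * A) a := wc_iff.2 fun α μ ν => by
  have A0 := h.nonneg
  by_cases hα : dg α ≤ n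
  · refine (wc_iff.1 h α μ ν).trans ?_
    rw [mul_pow, ← div_mul_div_comm]
    exact le_mul_of_one_le_left (by positivity)
      ((one_le_div (by positivity)).2 (pow_le_pow_right₀ κ1 hα))
  · rw [Pd_ge ha (by omega)]
    simpa [dd] using by positivity

theorem Wc.cv' (h : Wc t A a) (ha : a ∈ Pd (n + 1)) (t1 : 1 ≤ t) (κ1 : 1 ≤ κ)
    (hρ : 4 * (ρ : ℝ) ≤ κ * t) (α : Mi) : Cv ρ (n * κ ^ n * A / t ^ dg α) (Dm α a) := by
  have A0 := h.nonneg
  refine ((h.scale ha (by linarith) κ1).cv (one_le_mul_of_one_le_of_one_le κ1 t1) ha hρ α).mono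
    le_rfl ?_
  rw [mul_assoc, mul_div_assoc (n : ℝ)]
  gcongr
  exact le_mul_of_one_le_left (by linarith) κ1

theorem Wc.cv1 (h : Wc 1 A a) (ha : a ∈ Pd (n + 1)) (hρ : 1 ≤ ρ) (α : Mi) :
    Cv ρ (n * (4 * ρ) ^ n * A) (Dm α a) := by
  have : (1 : ℝ) ≤ ρ := by exact_mod_cast hρ
  simpa using h.cv' (κ := 4 * ρ) ha le_rfl (by linarith) (mul_one _).ge α

theorem cv_avgA (h : Cv (ρ * LL l + l + LL l + LL l) δ a) :
    Cv ρ ((LL l : ℝ) ^ 2 * δ) (avgA l a) := fun y hy μ ν => by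
  have hL := La.LL_posR l
  rw [Li.dd_avgA, norm_mul, Real.norm_of_nonneg (by positivity), inv_mul_le_iff₀ (by positivity),
    ← La.card_box_LL, ← nsmul_eq_mul]
  refine (norm_sum_le _ _).trans (sum_le_card_nsmul _ _ _ fun t ht => (norm_sum_le _ _).trans
    ((sum_le_card_nsmul _ _ _ fun i hi => (norm_sum_le _ _).trans (sum_le_card_nsmul _ _ δ
      fun j hj => h _ (add_mem_box (add_mem_box (add_mem_box (up_mem_box hy) ht) (Li.smul_un_mem
        (mem_range.1 hi).le μ)) (Li.smul_un_mem (mem_range.1 hj).le ν)) μ ν)).trans_eq ?_))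
  simp only [card_range, nsmul_eq_mul]
  ring

theorem dd_avgA_cst (h : Q4.Cst a) (l : ℕ) (y : St) (μ ν : Fin 4) :
    dd (avgA l a) y μ ν = (LL l : ℝ) ^ 2 * dd a 0 μ ν := by
  have hL := La.LL_posR l
  simp only [Li.dd_avgA, h _, sum_const, card_range, nsmul_eq_mul, La.card_box_LL]
  field_simp

theorem D1_avgA (l : ℕ) (i : Fin 4) (a : V) :
    D1 i (avgA l a) = avgA l (∑ k ∈ range (LL l), sh ((k : ℤ) • un i) (D1 i a)) := by
  rw [D1_apply, ← La.avgA_sh, ← map_sub]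
  congr 1
  have := sum_range_sub (fun k : ℕ => sh ((k : ℤ) • un i) a) (LL l)
  simp only [Nat.cast_succ, add_smul, one_smul, Nat.cast_zero, zero_smul, sh_zero] at this
  simp only [D1_apply, La.sh_sub, sh_sh, this, up]

theorem Dm_avgA (l : ℕ) (α : Mi) : ∃ T : Module.End ℝ V, Cov T ∧
    (∀ a, Dm α (avgA l a) = avgA l (T (Dm α a))) ∧
    (∀ ρ δ a, Cv (ρ + dg α * LL l) δ a → Cv ρ ((LL l : ℝ) ^ dg α * δ) (T a)) ∧
    ∀ a, Q4.Cst a → ∀ x μ ν, dd (T a) x μ ν = (LL l : ℝ) ^ dg α * dd a 0 μ ν := by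
  induction α using ind with
  | h0 => exact ⟨1, fun _ _ => rfl, by simp, by simp, fun a h x μ ν => by simp [h x]⟩
  | h1 β i ih =>
    obtain ⟨T, c1, c2, c3, c4⟩ := ih
    have e : ∀ a x μ ν, dd ((∑ k ∈ range (LL l), shL ((k : ℤ) • un i)) a) x μ ν =
        ∑ k ∈ range (LL l), dd a (x + (k : ℤ) • un i) μ ν := fun a x μ ν => by
      change io μ _ (x, ν) = _
      rw [LinearMap.sum_apply, map_sum, Finset.sum_apply]
      simp only [shL_apply, io_ap, dd_sh]
    refine ⟨(∑ k ∈ range (LL l), shL ((k : ℤ) • un i)) * T, Cov.mul (fun x a => ?_) c1,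
      fun a => ?_, fun ρ δ a h x hx μ ν => ?_, fun a h x μ ν => ?_⟩
    · funext e
      simp only [LinearMap.sum_apply, Finset.sum_apply, shL_apply, sh_apply, add_right_comm]
    · rw [Dm_succ_ap', c2, D1_avgA, Dm_succ_ap', ← Dm_ei, ← c1.dm]
      simp only [Module.End.mul_apply, LinearMap.sum_apply, shL_apply]
    · rw [dg_add, dg_ei, add_mul, one_mul, add_comm _ (LL l), ← add_assoc] at h
      rw [Module.End.mul_apply, e, dg_add, dg_ei, pow_succ', mul_assoc]
      exact (norm_sum_le _ _).trans ((sum_le_card_nsmul _ _ _ fun k hk => c3 _ _ _ h _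
        (add_mem_box hx (Li.smul_un_mem (mem_range.1 hk).le i)) μ ν).trans_eq (by simp))
    · simp only [Module.End.mul_apply, e, c4 a h, sum_const, card_range, nsmul_eq_mul, dg_add, dg_ei]
      ring

theorem avgA_Pd (h : a ∈ Pd n) (l : ℕ) : avgA l a ∈ Pd n := mem_Pd.2 fun α hα => by
  obtain ⟨T, -, c2, -⟩ := Dm_avgA l α
  rw [c2, mem_Pd.1 h α hα, map_zero, map_zero]

theorem wc_avgA (h : Wc (LL l) A a) (ha : a ∈ Pd (n + 1)) :
    Wc 1 (n * (4 * (n + 3)) ^ n * ((LL l : ℝ) ^ 2 * A)) (avgA l a) := fun α => by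
  have A0 := h.nonneg
  have hL : (1 : ℝ) ≤ LL l := by exact_mod_cast LL_pos l
  by_cases hα : dg α ≤ n
  · obtain ⟨T, -, c2, c3, -⟩ := Dm_avgA l α
    have h1 : 0 * LL l + l + LL l + LL l + dg α * LL l ≤ (n + 3) * LL l := by
      have := Nat.mul_le_mul_right (LL l) hα
      have : l ≤ LL l := by simp only [LL]; omega
      rw [add_mul]
      omega
    rw [c2]
    refine (cv_avgA (c3 _ _ _ ((h.cv' (κ := 4 * (n + 3)) (ρ := (n + 3) * LL l) ha hL (by
      linarith [(Nat.cast_nonneg n : (0 : ℝ) ≤ n)]) (by push_cast; linarith) α).mono h1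
      le_rfl))).mono le_rfl (le_of_eq ?_)
    field_simp
    simp
  · rw [Pd_ge (avgA_Pd ha l) (by omega)]
    exact fun x _ μ ν => by simpa [dd] using by positivity

theorem Tn_Pd2 (h : j ∈ Tn) : j ∈ Pd 2 := mem_Pd.2 fun α hα =>
  funext fun e => h α e.2 (NT_two hα.ge _) e.1

theorem NT_ei (h : ν ≠ μ) : NT (ei ν) μ :=
  ⟨fun h1 => by simpa using congrArg dg h1, fun h1 => h (by
    simpa [ei_apply] using congrFun h1 ν)⟩

theorem Tn_D1 (h : j ∈ Tn) (hν : ν ≠ μ) (x : St) : D1 ν j (x, μ) = 0 := by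
  rw [← Dm_ei, h _ _ (NT_ei hν)]

theorem Tn_ap (h : j ∈ Tn) (x : St) (μ : Fin 4) : j (x, μ) = j (0, μ) + x μ * D1 μ j (0, μ) := by
  have := aff (Tn_Pd2 h) 0 (-x) μ
  rw [sum_eq_single μ (fun ν _ hν => by rw [Tn_D1 h hν, mul_zero]) (by simp)] at this
  simpa using this

theorem dd_Tn (h : j ∈ Tn) : dd j = 0 := by
  funext x μ ν
  by_cases e : μ = ν
  · simp [dd, e]
  · have h1 := Tn_D1 h e x
    have h2 := Tn_D1 h (Ne.symm e) x
    simp only [D1_ap, dd, Pi.zero_apply] at h1 h2 ⊢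
    linarith

theorem Tn_of_aff (u w : Fin 4 → ℝ) : (fun e => u e.2 + e.1 e.2 * w e.2 : V) ∈ Tn := by
  have h1 : ∀ ν, D1 ν (fun e => u e.2 + e.1 e.2 * w e.2 : V) =
      fun e => if e.2 = ν then w e.2 else 0 := fun ν => funext fun e => by
    simp only [D1_ap, Pi.add_apply, un_apply]
    split_ifs <;> simp [add_mul]
  intro α μ hα x
  rcases h : dg α with _ | _ | k
  · exact absurd (dg_eq_zero h) hα.1
  · obtain ⟨β, ν, rfl, hβ⟩ := ex_succ h
    obtain rfl := dg_eq_zero hβ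
    rw [zero_add] at hα ⊢
    rw [Dm_ei, h1]
    exact if_neg fun e : μ = ν => hα.2 (by rw [e])
  · obtain ⟨β, ν, rfl, hβ⟩ := ex_succ h
    obtain ⟨γ, κ, rfl, -⟩ := ex_succ hβ
    rw [Dm_succ_ap, Dm_succ_ap, h1, show D1 κ _ = 0 from funext fun e => sub_self _, map_zero]
    rfl

theorem rho_ap (l : ℕ) (j : V) (e : Lk) :
    rho l j e = (LL l : ℝ) ^ 3 * j (up l e.1 + (l : ℤ) • un e.2, e.2) := rfl

theorem rho_tn (h : j ∈ Tn) (l : ℕ) (e : Lk) : rho l j e = (LL l : ℝ) ^ 3 *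
    (j (0, e.2) + l * D1 e.2 j (0, e.2)) + e.1 e.2 * ((LL l : ℝ) ^ 4 * D1 e.2 j (0, e.2)) := by
  rw [rho_ap, Tn_ap h]
  simp only [Pi.add_apply, up_apply, Pi.smul_apply, un_self, smul_eq_mul, mul_one]
  push_cast
  ring

theorem rho_Tn (h : j ∈ Tn) (l : ℕ) : rho l j ∈ Tn := by
  rw [funext (rho_tn h l)]
  exact Tn_of_aff (fun μ => (LL l : ℝ) ^ 3 * (j (0, μ) + l * D1 μ j (0, μ)))
    fun μ => (LL l : ℝ) ^ 4 * D1 μ j (0, μ)

theorem hermite (l : ℕ) (x : ℤ) : ∑ i ∈ range (LL l), (x - i + l) / (LL l : ℤ) = x - l := by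
  have L0 : (LL l : ℤ) ≠ 0 := by exact_mod_cast (LL_pos l).ne'
  have h : ∀ x : ℤ, ∑ i ∈ range (LL l), (x + 1 - i + l) / (LL l : ℤ) =
      ∑ i ∈ range (LL l), (x - i + l) / (LL l : ℤ) + 1 := fun x => by
    have := sum_range_sub' (fun i : ℕ => (x + 1 - i + l) / (LL l : ℤ)) (LL l)
    simp only [Nat.cast_succ, add_sub_add_right_eq_sub, sum_sub_distrib, Nat.cast_zero,
      sub_zero] at this
    rw [show x + 1 + l = x + 1 - LL l + l + 1 * LL l by ring, Int.add_mul_ediv_right _ _ L0] at this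
    linarith
  have h0 : ∀ y : ℤ, ∑ i ∈ range (LL l), (y + l - i + l) / (LL l : ℤ) = y := fun y => by
    induction y using Int.induction_on with
    | zero =>
      exact sum_eq_zero fun i hi => Int.ediv_eq_zero_of_lt
        (by have := mem_range.1 hi; simp only [LL] at this; omega) (by rw [LL_cast]; omega)
    | succ k ih => rw [add_right_comm, h, ih]
    | pred k ih =>
      have := h (-k - 1 + l)
      rw [show -(k : ℤ) - 1 + l + 1 = -k + l by ring, ih] at this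
      linarith
  simpa using h0 (x - l)

theorem avgT_rho (h : j ∈ Tn) (l : ℕ) : avgT l (rho l j) = j := funext fun e => by
  have hL := La.LL_posR l
  have h1 := congrArg (Int.cast : ℤ → ℝ) (hermite l (e.1 e.2))
  rw [avgT_ap, Tn_ap h e.1 e.2]
  simp only [rho_tn h, yo, Pi.sub_apply, Pi.smul_apply, un_self, smul_eq_mul, mul_one,
    sum_add_distrib, sum_const, card_range, nsmul_eq_mul, ← sum_mul, ← Int.cast_sum, h1]
  push_cast
  field_simp
  ring

theorem Gm_ap (q : V) : Gm l R m q = avgA l q + ((LL l : ℝ) ^ 2)⁻¹ • rho l (Mo R m q) := rfl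

theorem EL_Gm (h : Mo R m q ∈ Tn) (l : ℕ) : EL l R m q (Gm l R m q) = 0 := by
  rw [EL, Gm_ap, add_sub_cancel_left, map_smul, avgT_rho h, smul_inv_smul₀
    (pow_ne_zero _ (La.LL_posR l).ne'), sub_self]

theorem dd_Gm (h : Mo R m q ∈ Tn) (l : ℕ) : dd (Gm l R m q) = dd (avgA l q) := by
  rw [Gm_ap, La.dd_add, dd_Tn (Submodule.smul_mem _ _ (rho_Tn h l)), add_zero]

theorem Gm_Pd (h : q ∈ Pk R m n) (l : ℕ) : Gm l R m q ∈ Pd (n + 2) :=
  add_mem (avgA_Pd h.1 l) (Pd_mono (by omega) (Tn_Pd2 (Submodule.smul_mem _ _ (rho_Tn h.2 l))))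

theorem sh_Pd1 (h : a ∈ Pd 1) (x : St) : sh x a = a := funext fun e => by
  have := aff (Pd_mono one_le_two h) e.1 (-x) e.2
  simpa [Pd_zero (Pd_D1 h _)] using this

theorem sh_sub_Pd (h : a ∈ Pd (n + 1)) (x : St) : sh x a - a ∈ Pd n := mem_Pd.2 fun α hα => by
  rw [map_sub, cov_Dm, sh_Pd1 (Pd_Dm (by rwa [hα, add_comm])), sub_self]

theorem EL_sub (a a' B B' : V) : EL l R m (a - a') (B - B') = EL l R m a B - EL l R m a' B' := by
  simp only [EL, map_sub, smul_sub]
  abel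

theorem EL_TG (hg : ∀ u b, m (gr u) b = 0) (q B : V) : EL l R m (La.TG l q) B = EL l R m q B := by
  rw [EL, La.avgA_TG, Mo_closed hg (La.dd_TG l q), EL]

theorem TG_sub (l : ℕ) (a b : V) : La.TG l (a - b) = La.TG l a - La.TG l b := by
  rw [eq_sub_iff_add_eq, ← La.TG_add, sub_add_cancel]

theorem sm_avgT (h : Sm 1 δ B) : Sm l (δ / (LL l : ℝ) ^ 3) (avgT l B) := fun e he => by
  have hL := La.LL_posR l
  rw [avgT_ap, norm_mul, Real.norm_of_nonneg (by positivity), inv_mul_le_iff₀ (by positivity)]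
  refine (norm_sum_le _ _).trans ((sum_le_card_nsmul _ _ δ fun i hi => h _ (mem_lbox.2
    (La.yo_mem_one (box_mono (by omega) (sub_mem_box (mem_lbox.1 he) (Li.smul_un_mem
      (Nat.lt_succ_iff.1 (mem_range.1 hi)) _)))))).trans_eq ?_)
  rw [card_range, nsmul_eq_mul]
  change (LL l : ℝ) * δ = _
  field_simp

theorem KM_mono (h : R ≤ l) : KM R ≤ KM l := by
  unfold KM
  gcongr

theorem KX_nonneg (c l N : ℕ) : 0 ≤ KX c l N := by
  induction N with
  | zero => exact le_rfl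
  | succ N ih =>
    have := KM_nonneg l
    unfold KX
    positivity

theorem mu_tree (hs : ∀ a f, tree l f → s a f = 0) (B : V) {f : Lk} (hf : tree l f) :
    mu l s B f = 0 := by
  rw [La.mu_apply, La.iz_tree _ hf, zero_add]
  refine hs _ _ ((tree_add_up l _ (yo l f.1) f.2).1 ?_)
  rwa [sub_add_cancel]

theorem per_bd (hr : Rng R R m) (hR : R ≤ l) (h : Lin l r c τ m s) {D : V} {ε : ℝ}
    (h0 : ∀ f, tree l f → D f = 0) (hp : ∀ y, sh (up l y) D = D) (h1 : Sm l ε (EL l R m D 0)) :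
    Sm l (4802 * (LL l : ℝ) ^ (c + 2) * ε) D := by
  have ε0 := h1.nonneg
  have h2 := var (φ := cut l D) hr h.symm (show R ≤ 2 * l by omega) (T := box l) (Y := box 3)
    (fun e he => cut_of_not_mem _ fun h => he (mem_lbox.1 h))
    (fun x hx u hu => yo_mem_box (box_mono (by simp only [LL]; omega) (sub_mem_box hx hu))) D 0
  have h3 : ∑ y ∈ box 3, enB l m (sh (up l y) (cut l D), 0) (sh (up l y) D, sh y 0) =
      hh l m D D := by
    simp only [hp, show ∀ y, sh y (0 : V) = 0 from fun _ => rfl, ← La.hh_apply]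
    rw [← LinearMap.sum_apply, ← map_sum]
    refine Lin.m_cut h.hh_rng (fun e he => ?_) fun _ _ => rfl
    have e1 : (e.1 + up l (-yo l e.1), e.2) ∈ lbox l := mem_lbox.2 (by
      rw [up_neg, ← sub_eq_add_neg]; exact sub_up_yo_mem l e.1)
    rw [Finset.sum_apply, sum_eq_single (-yo l e.1) (fun y _ hy => cut_of_not_mem _ fun h => hy
      (eq_neg_of_add_eq_zero_right ((yo_add_up l e.1 y).symm.trans (yo_of_mem (mem_lbox.1 h)))))
      fun h => absurd (neg_mem_box (box_mono (by norm_num) (La.yo_mem_one (mem_lbox.1 he)))) h]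
    exact (cut_of_mem _ e1).trans (congrFun (hp _) e)
  have h4 := h.coer D h0
  simp only [hp, sum_const, card_box, nsmul_eq_mul] at h4
  have h5 : hh l m D D ≤ ∑ f ∈ lbox l, |D f| * ε := by
    rw [← h3, h2, lbox, sum_product]
    refine sum_le_sum fun x hx => sum_le_sum fun μ _ => (le_abs_self _).trans ?_
    rw [abs_mul, cut_of_mem _ (mem_lbox.2 hx)]
    exact mul_le_mul_of_nonneg_left (h1 _ (mem_lbox.2 hx)) (abs_nonneg _)
  have h6 := sq_sum_le_card_mul_sum_sq (s := lbox l) (f := fun f => |D f|)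
  simp only [sq_abs, card_lbox] at h6
  obtain ⟨y, y0, hy⟩ : ∃ y, 0 ≤ y ∧ ∑ f ∈ lbox l, D f ^ 2 = y ^ 2 :=
    ⟨_, Real.sqrt_nonneg _, (Real.sq_sqrt (sum_nonneg fun _ _ => sq_nonneg _)).symm⟩
  have h7 : ∑ f ∈ lbox l, |D f| ≤ 2 * (LL l : ℝ) ^ 2 * y :=
    le_of_abs_le (abs_le_of_sq_le_sq (h6.trans_eq (by rw [hy, LL]; push_cast; ring)) (by positivity))
  have h8 : y ≤ 4802 * (LL l : ℝ) ^ (c + 2) * ε := by
    rw [← sum_mul] at h5
    rcases y0.eq_or_lt with rfl | y1
    · positivity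
    refine le_of_mul_le_mul_left ?_ y1
    calc y * y = ∑ f ∈ lbox l, D f ^ 2 := by rw [hy, sq]
      _ ≤ (LL l : ℝ) ^ c * (2401 * (2 * (LL l : ℝ) ^ 2 * y * ε)) := h4.trans (by
          push_cast
          gcongr
          exact h5.trans (mul_le_mul_of_nonneg_right h7 ε0))
      _ = _ := by ring
  exact fun f hf => (abs_le_of_sq_le_sq ((single_le_sum (f := fun f => D f ^ 2)
    (fun _ _ => sq_nonneg _) hf).trans_eq hy) y0).trans h8

/-- the minimiser of an exactly stationary polynomial pair -/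
theorem exact_mu {k : ℕ} {cL cU : ℝ} (hm : Inv k R cL cU m) (hU : cU ≤ 20) (hR : R ≤ l)
    (h : Lin l r c τ m s) (hτ : 0 ≤ τ) (hr : r ≤ l) (N : ℕ) : ∀ (q B : V) (A : ℝ), q ∈ Pd N →
    B ∈ Pd N → EL l R m q B = 0 → Wc 1 A B →
      Sm l (KX c l N * τ * A) (mu l s B - La.TG l q) := by
  induction N with
  | zero =>
    intro q B A hq hB _ _ e _
    have := La.TG_smul l 0 0
    simp only [zero_smul] at this
    simp [Pd_zero hq, Pd_zero hB, this, KX]
  | succ N ih =>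
    intro q B A hq hB h0 h1
    have A0 := h1.nonneg
    have hL := La.LL_posR l
    have X0 := KX_nonneg c l N
    obtain ⟨D, hD⟩ : ∃ D, D = mu l s B - La.TG l q := ⟨_, rfl⟩
    obtain ⟨P, hP⟩ : ∃ P : V, P = fun f => D (f.1 - up l (yo l f.1), f.2) := ⟨_, rfl⟩
    have e1 : Sm (2 * LL l + l) (4 * (2 : ℕ) * (KX c l N * τ * (N * 8 ^ N * A))) (D - P) := by
      intro f hf
      have := La.abs_lam_le (b := gr fun y => D (f.1 - up l (yo l f.1) + up l y, f.2))
        (yo_mem_box (mem_lbox.1 hf)) fun g hg => by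
          have h2 := ih (sh (up l g.1) (sh (up l (un g.2)) q - q)) (sh g.1 (D1 g.2 B))
            (N * 8 ^ N * A) ((cov_sh _).Pd (sh_sub_Pd hq _)) ((cov_sh _).Pd (Pd_D1 hB _))
            (by rw [EL_sh, D1_apply, EL_sub, EL_sh, h0]; funext e; simp) (fun α => by
              have := h1.cv1 hB (ρ := 0 + 2) (by norm_num) (α + ei g.2)
              rw [cov_Dm, ← Dm_succ_ap, one_pow, div_one]
              exact (this.sh (mem_lbox.1 hg)).mono le_rfl (by norm_num))
            (f.1 - up l (yo l f.1), f.2) (mem_lbox.2 (sub_up_yo_mem l f.1))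
          refine le_of_eq_of_le (congrArg _ ?_) h2
          simp only [hD, gr, La.mu_sh, D1_apply, map_sub, La.TG_sh, TG_sub, Pi.sub_apply, sh_apply,
            up_add, add_assoc]
          ring
      rw [La.lam_gr, up_zero, add_zero, sub_add_cancel] at this
      rw [hP]
      exact this
    have e2 := mu_EL hm.rng hR h hτ (((h1.cv1 hB (ρ := l + 1) (by omega) 0)).mono
      (show r / 3 + 1 ≤ l + 1 by omega) le_rfl)
    have e3 := (Mo_bd (ρ := l) hm hU (Sm.cv (e1.mono (by simp only [LL]; omega) le_rfl)))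
    have e4 := sm_avgT (l := l) (La.avgA_sm (l := l) (k := 1) (e1.mono (by simp only [LL]; omega) le_rfl))
    have e5 : EL l R m P 0 = EL l R m (mu l s B) B - (Mo R m (D - P) +
        (LL l : ℝ) ^ 2 • avgT l (avgA l (D - P))) := by
      have := EL_sub (l := l) (R := R) (m := m) (mu l s B) (La.TG l q) B B
      rw [EL_TG hm.gauge, h0, sub_zero, sub_self, ← hD] at this
      rw [← this]
      simp only [EL, map_sub, smul_sub, map_zero, smul_zero]
      abel
    have e6 := per_bd (D := P) hm.rng hR h (fun f hf => by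
      have : tree l (f.1 - up l (yo l f.1), f.2) := (tree_add_up l _ (yo l f.1) f.2).1 (by
        rwa [sub_add_cancel])
      simp only [hP, hD, Pi.sub_apply, mu_tree h.s_tree B this, La.TG_tree q this, sub_self])
      (fun y => funext fun f => by
        simp only [hP, sh_apply, yo_add_up, up_add, add_sub_add_right_eq_sub])
      (ε := (2592 * (LL l : ℝ) ^ 5 * (N * (4 * (l + 1)) ^ N) +
        (4 * KM l + 1) * (8 * (KX c l N * (N * 8 ^ N)))) * τ * A) fun f hf => by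
        have a1 := e2 f hf
        have a2 := (e3 f hf).trans (mul_le_mul_of_nonneg_right (KM_mono hR) (by positivity))
        have a3 := mul_le_mul_of_nonneg_left (e4 f hf) (by positivity : 0 ≤ (LL l : ℝ) ^ 2)
        rw [Dm_zero, Module.End.one_apply] at a1
        rw [show ∀ x : ℝ, (LL l : ℝ) ^ 2 * (LL l * x / (LL l : ℝ) ^ 3) = x from fun x => by
          field_simp] at a3
        rw [e5, Pi.sub_apply, Pi.add_apply, Pi.smul_apply]
        refine (norm_sub_le _ _).trans ((add_le_add a1 ((norm_add_le _ _).trans (add_le_add a2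
          (((norm_smul _ _).trans (by rw [Real.norm_of_nonneg (by positivity)])).trans_le
            a3)))).trans_eq ?_)
        push_cast
        ring
    intro f hf
    have := e6 f hf
    simp only [hP, yo_of_mem (mem_lbox.1 hf), up_zero, sub_zero] at this
    rw [← hD]
    exact this.trans_eq (by rw [KX]; ring)

end Pool.Agent.Lib.MP_7f377f_mp.RG.Jt
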