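import Pool.Agent.Lib.MP_7f377f_mp.JtX
import Pool.Agent.Lib.MP_7f377f_mp.JtP

/-! The current of the coarse density. -/

noncomputable section

namespace Pool.Agent.Lib.MP_7f377f_mp.RG.Jt

open Finset

attribute [local irreducible] box lbox

def KY (c l r : ℕ) : ℝ :=
  (2 * r + 1) ^ 4 * ((LL l : ℝ) ^ 4 * (4 * ((1 + (LL l : ℝ) ^ c) * (2592 * (LL l : ℝ) ^ 5))))

def KZ (c l r n ρ : ℕ) : ℝ := KY c l r * (n * (4 * (r / 3 + 1 + r + ρ : ℕ)) ^ n) +
  (LL l : ℝ) ^ 3 * (KX c l (n + 1) * (n * (4 * (ρ + 1 : ℕ)) ^ n))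

variable {α : Mi} {ν μ : Fin 4} {a q B : V} {l r c R R1 n k ρ : ℕ} {A δ τ lam cL cU : ℝ} {m : BF}
  {s : V →ₗ[ℝ] V}

theorem Mo_wk (h : Rng R R m) {S : Finset St} {e : Lk} (hS : ∀ u ∈ box R, e.1 - u ∈ S) (a : V) :
    ∑ z ∈ S, m (sh z a) (sh z (Pi.single e 1)) = Mo R m a e := by
  rw [weak h (T := {e.1}) (fun f hf => Pi.single_eq_of_ne (fun h => hf (by simp [h])) _)
    (by simpa using hS), sum_singleton, sum_eq_single e.2 (fun μ _ hμ => by
      rw [Pi.single_eq_of_ne fun h => hμ (congrArg Prod.snd h), zero_mul]) (by simp)]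
  simp

theorem sh_single (w : St) (e : Lk) :
    sh w (Pi.single e 1 : V) = Pi.single (e.1 - w, e.2) 1 := funext fun f => by
  simp only [sh_apply, Pi.single_apply, Prod.ext_iff, eq_sub_iff_add_eq]

/-- the average over translates does not change the current -/
theorem Mo_mb (h : Rng r r (mn l m s)) (h1 : Rng R1 R1 (lam • Q4.mb l ρ m s)) (a : V) :
    Mo R1 (lam • Q4.mb l ρ m s) a = lam • Mo r (mn l m s) a := funext fun e => by
  obtain ⟨N, hN⟩ := mem_box_ex e.1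
  have e1 : ∀ w ∈ box ρ, ∑ z ∈ box (N + ρ + r + R1), mn l m s (sh w (sh z a))
      (sh w (sh z (Pi.single e 1))) = Mo r (mn l m s) a e := fun w hw => by
    have := Mo_wk h (S := box (N + ρ + r + R1)) (e := (e.1 - w, e.2)) (fun u hu => box_mono
      (by omega) (sub_mem_box (sub_mem_box hN hw) hu)) (sh w a)
    rw [cov_Mo, sh_apply, sub_add_cancel, ← sh_single] at this
    simpa only [sh_sh, add_comm w] using this
  have e2 := e1 0 (zero_mem_box _)
  have e3 : ((box ρ).card : ℝ) ≠ 0 := by rw [card_box]; positivity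
  rw [← Mo_wk h1 (S := box (N + ρ + r + R1)) fun u hu => box_mono (by omega) (sub_mem_box hN hu)]
  simp only [sh_zero] at e2
  simp only [Q4.mb, Q4.avB, LinearMap.smul_apply, LinearMap.add_apply, LinearMap.sum_apply,
    LinearMap.compl₁₂_apply, shL_apply, smul_eq_mul, ← mul_sum, sum_add_distrib, e2, Pi.smul_apply]
  rw [sum_comm, sum_congr rfl e1, sum_const, nsmul_eq_mul, inv_mul_cancel_left₀ e3]
  ring

theorem mu_loc (h : Lin l r c τ m s) (hr : 2 ≤ r) (f : Lk) (hB : Sm r δ (sh (yo l f.1) B)) :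
    |mu l s B f| ≤ (1 + (LL l : ℝ) ^ c) * δ := by
  have := La.mu_sm (pre_lin h) hr hB (f.1 - up l (yo l f.1), f.2)
    (mem_lbox.2 (box_mono (by omega) (sub_up_yo_mem l f.1)))
  rwa [La.mu_sh, sh_apply, sub_add_cancel] at this

theorem cur_mn0 (hr : Rng R R m) (hR : R ≤ l) (h : Lin l r c τ m s) (hτ : 0 ≤ τ) (r2 : 2 ≤ r)
    (hB : Cv (r / 3 + 1 + r) δ B) (μ : Fin 4) : |Mo r (mn l m s) B (0, μ) -
      (LL l : ℝ) ^ 2 * (B - avgA l (mu l s B)) (0, μ)| ≤ KY c l r * τ * δ := by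
  have d0 := hB.nonneg
  have h1 := Mo_wk h.mn_rng (S := box (r + 1)) (e := (0, μ))
    (fun u hu => by simpa using box_mono r.le_succ (neg_mem_box hu)) B
  have h2 := var (φ := mu l s (Pi.single (0, μ) 1)) hr h.symm (show R ≤ 2 * l by omega)
    (T := La.Blk l (box r)) (Y := box (r + 1)) (fun e he => by
      simpa using mu_loc h r2 (δ := 0) (B := Pi.single (0, μ) 1) e fun f hf => by
        rw [sh_apply, Pi.single_eq_of_ne fun h1 => he (La.mem_Blk.2 (by
          rw [eq_neg_of_add_eq_zero_right (congrArg Prod.fst h1)]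
          exact neg_mem_box (mem_lbox.1 hf))), norm_zero])
    (fun x hx u hu => by
      rw [show x - u = x - up l (yo l x) - u + up l (yo l x) by abel, yo_add_up, add_comm r]
      exact add_mem_box (La.yo_mem_one (box_mono (by omega) (sub_mem_box (sub_up_yo_mem l x) hu)))
        (La.mem_Blk.1 hx)) (mu l s B) B
  have h3 : ∀ z, mn l m s (sh z B) (sh z (Pi.single (0, μ) 1)) =
      enB l m (sh (up l z) (mu l s (Pi.single (0, μ) 1)), 0) (sh (up l z) (mu l s B), sh z B) +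
        if z = 0 then (LL l : ℝ) ^ 2 * (B - avgA l (mu l s B)) (0, μ) else 0 := fun z => by
    rw [La.mn_apply, La.enB_symm h.symm, La.mu_sh, La.mu_sh]
    simp only [La.enB_apply, La.avgA_sh, sh_apply, zero_add, Pi.zero_apply, Pi.single_apply,
      Prod.ext_iff, sub_mul, sum_sub_distrib, mul_sub, zero_mul, ite_mul, one_mul, Pi.sub_apply]
    split_ifs with hz
    · simp [hz]
      ring
    · simp [hz]
  rw [← h1, sum_congr rfl fun z _ => h3 z, sum_add_distrib, sum_ite_eq', if_pos (zero_mem_box _),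
    add_sub_cancel_right, h2, La.sum_Blk]
  refine (abs_sum_le_sum_abs _ _).trans ((sum_le_card_nsmul _ _ _ fun y hy =>
    (abs_sum_le_sum_abs _ _).trans (sum_le_card_nsmul _ _ _ fun t ht =>
      (abs_sum_le_sum_abs _ _).trans (sum_le_card_nsmul _ _
        ((1 + (LL l : ℝ) ^ c) * 1 * (2592 * (LL l : ℝ) ^ 5 * τ * δ)) fun κ _ => ?_))).trans_eq ?_)
  · have := mu_EL hr hR h hτ (hB.sh hy) (t, κ) (mem_lbox.2 ht)
    rw [La.mu_sh, EL_sh] at this
    rw [abs_mul]
    exact mul_le_mul (mu_loc h r2 _ fun f _ => by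
      rw [sh_apply, Pi.single_apply]; split_ifs <;> simp) this (abs_nonneg _) (by positivity)
  · simp only [card_box, card_univ, Fintype.card_fin, nsmul_eq_mul, KY, LL]
    push_cast
    ring

/-- the current of the new density is the residual of the minimiser -/
theorem cur_mn (hr : Rng R R m) (hR : R ≤ l) (h : Lin l r c τ m s) (hτ : 0 ≤ τ) (r2 : 2 ≤ r)
    (hB : Cv (r / 3 + 1 + r + ρ) δ B) : Sm ρ (KY c l r * τ * δ)
      (Mo r (mn l m s) B - (LL l : ℝ) ^ 2 • (B - avgA l (mu l s B))) := fun e he => by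
  simpa [cov_Mo r _ e.1, La.mu_sh, La.avgA_sh, sh_apply] using
    cur_mn0 hr hR h hτ r2 (hB.sh (mem_lbox.1 he)) e.2

theorem exact_mu2 (hm : Inv k R cL cU m) (hU : cU ≤ 20) (hR : R ≤ l) (h : Lin l r c τ m s)
    (hτ : 0 ≤ τ) (hr : r ≤ l) (hq : q ∈ Pd (n + 1)) (hB : B ∈ Pd (n + 1)) (h0 : EL l R m q B = 0)
    (h1 : Wc 1 A B) (hρ : 1 ≤ ρ) : Sm (ρ * LL l + l) (KX c l (n + 1) * τ * (n * (4 * ρ) ^ n * A))
      (mu l s B - La.TG l q) := fun f hf => by
  have := exact_mu hm hU hR h hτ hr _ (sh (up l (yo l f.1)) q) (sh (yo l f.1) B)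
    (n * (4 * ρ) ^ n * A) ((cov_sh _).Pd hq) ((cov_sh _).Pd hB) (by rw [EL_sh, h0]; rfl)
    (fun α => by
      rw [cov_Dm, one_pow, div_one]
      exact ((h1.cv1 hB hρ α).mono (zero_add ρ).le le_rfl).sh (yo_mem_box (mem_lbox.1 hf)))
    (f.1 - up l (yo l f.1), f.2) (mem_lbox.2 (sub_up_yo_mem l f.1))
  simpa only [La.mu_sh, La.TG_sh, Pi.sub_apply, sh_apply, sub_add_cancel] using this

/-- the coarse current of the image of a slow field is almost a tent -/
theorem near_tent (hm : Inv k R cL cU m) (hU : cU ≤ 20) (hR : R ≤ l) (h : Lin l r c τ m s)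
    (hτ : 0 ≤ τ) (r2 : 2 ≤ r) (hr : r ≤ l) (hq : q ∈ Pk R m n) (h1 : Wc 1 A (Gm l R m q)) :
    Sm ρ (KZ c l r (n + 1) ρ * τ * A) (Mo r (mn l m s) (Gm l R m q) - rho l (Mo R m q)) := by
  intro e he
  have hL := La.LL_posR l
  have a1 := cur_mn hm.rng hR h hτ r2 (h1.cv1 (Gm_Pd hq l) (by omega) 0) e he
  have a2 := La.avgA_sm (l := l) (k := ρ) ((exact_mu2 (ρ := ρ + 1) hm hU hR h hτ hr hq.1
    (Gm_Pd hq l) (EL_Gm hq.2 l) h1 (by omega)).mono (by simp only [LL]; nlinarith) le_rfl) e he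
  have a3 := mul_le_mul_of_nonneg_left a2 (by positivity : 0 ≤ (LL l : ℝ) ^ 2)
  rw [← Real.norm_of_nonneg (by positivity : 0 ≤ (LL l : ℝ) ^ 2), ← norm_mul,
    Real.norm_of_nonneg (by positivity : 0 ≤ (LL l : ℝ) ^ 2)] at a3
  refine le_of_eq_of_le (congrArg _ ?_) ((norm_sub_le _ _).trans ((add_le_add a1 a3).trans_eq ?_))
  · rw [map_sub, La.avgA_TG]
    simp only [Dm_zero, Module.End.one_apply, Pi.sub_apply, Pi.smul_apply, smul_eq_mul]
    rw [show Gm l R m q e = _ from congrFun (Gm_ap q) e]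
    simp only [Pi.add_apply, Pi.smul_apply, smul_eq_mul]
    field_simp
    ring
  · rw [KZ]
    push_cast
    ring

/-- the top jet scales -/
theorem cj_Gm (hq : q ∈ Pk R m k) (l : ℕ) :
    cj k (Gm l R m q) = (LL l : ℝ) ^ (2 + k) • cj k q := funext fun p => by
  obtain ⟨T, -, c2, -, c4⟩ := Dm_avgA l p.1
  have h1 := c4 _ (cst_of_Pd (Pd_Dm (α := p.1) (by rw [mem_Ih.1 p.1.2, add_comm]; exact hq.1)))
  rw [cj_congr (dd_Gm hq.2 l), cj_ap, c2, dd_avgA_cst fun x => funext₂ fun μ ν => by rw [h1, h1],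
    h1, mem_Ih.1 p.1.2, pow_add, ← mul_assoc]
  rfl

theorem KY_nonneg (c l r : ℕ) : 0 ≤ KY c l r := by unfold KY; positivity

theorem KZ_nonneg (c l r n ρ : ℕ) : 0 ≤ KZ c l r n ρ := by
  have := KY_nonneg c l r
  have := KX_nonneg c l (n + 1)
  unfold KZ
  positivity

end Pool.Agent.Lib.MP_7f377f_mp.RG.Jt
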