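import Mathlib

open MeasureTheory Filter Topology

namespace Pool.Agent.Lib.MP_7f377f_mp.KS

variable {Γ : Type} [Group Γ] [TopologicalSpace Γ] {I : Type}

/-- one-parameter subgroup -/
def OneP (δ : ℝ → Γ) : Prop := ∀ s t, δ (s + t) = δ s * δ t

lemma OneP.zero {Γ : Type} [Group Γ] {δ : ℝ → Γ} (h : OneP δ) : δ 0 = 1 := by
  have := h 0 0
  rw [add_zero] at this
  exact left_eq_mul.1 this

/-- derivative along a curve acting from the left -/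
def HasD (δ : ℝ → Γ) (f f' : C(Γ, ℝ)) : Prop :=
  ∀ x, HasDerivAt (fun t => f (δ t * x)) (f' x) 0

lemma HasD.at {δ : ℝ → Γ} (hδ : OneP δ) {f f' : C(Γ, ℝ)} (h : HasD δ f f') (x : Γ) (t : ℝ) :
    HasDerivAt (fun s => f (δ s * x)) (f' (δ t * x)) t := by
  have h1 := h (δ t * x)
  have h2 : HasDerivAt (fun s : ℝ => s - t) 1 t := (hasDerivAt_id t).sub_const t
  have h3 := HasDerivAt.comp_of_eq t h1 h2 (sub_self t).symm
  rw [mul_one] at h3
  refine h3.congr_of_eventuallyEq (Eventually.of_forall fun s => ?_)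
  simp only [Function.comp]
  rw [← mul_assoc, ← hδ, sub_add_cancel]

lemma HasD.unique {δ : ℝ → Γ} {f f' f'' : C(Γ, ℝ)} (h : HasD δ f f') (h' : HasD δ f f'') :
    f' = f'' := ContinuousMap.ext fun x => (h x).unique (h' x)

lemma hasD_const (δ : ℝ → Γ) (c : ℝ) : HasD δ (algebraMap ℝ C(Γ, ℝ) c) 0 := fun x => by
  simpa using hasDerivAt_const (0 : ℝ) c

lemma HasD.add {δ : ℝ → Γ} {f f' g g' : C(Γ, ℝ)} (hf : HasD δ f f') (hg : HasD δ g g') :
    HasD δ (f + g) (f' + g') := fun x => by simpa using (hf x).fun_add (hg x)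

lemma HasD.smul {δ : ℝ → Γ} {f f' : C(Γ, ℝ)} (hf : HasD δ f f') (c : ℝ) :
    HasD δ (c • f) (c • f') := fun x => by simpa using (hf x).const_mul c

lemma HasD.mul {δ : ℝ → Γ} (hδ : OneP δ) {f f' g g' : C(Γ, ℝ)} (hf : HasD δ f f')
    (hg : HasD δ g g') : HasD δ (f * g) (f * g' + g * f') := fun x => by
  refine ((hf x).fun_mul (hg x)).congr_deriv ?_
  simp only [hδ.zero, one_mul, ContinuousMap.add_apply, ContinuousMap.mul_apply]
  ring

lemma HasD.of_tendsto [CompactSpace Γ] {δ : ℝ → Γ} (hδ : OneP δ) {ι : Type*} {l : Filter ι}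
    [NeBot l] {p p' : ι → C(Γ, ℝ)} {f f' : C(Γ, ℝ)} (h : ∀ n, HasD δ (p n) (p' n))
    (h1 : Tendsto p l (𝓝 f)) (h2 : Tendsto p' l (𝓝 f')) : HasD δ f f' := fun x => by
  have := hasDerivAt_of_tendstoUniformly (l := l) (f := fun n t => p n (δ t * x))
    (f' := fun n t => p' n (δ t * x)) (g := fun t => f (δ t * x)) (g' := fun t => f' (δ t * x))
    ((ContinuousMap.tendsto_iff_tendstoUniformly.1 h2).comp _)
    (Eventually.of_forall fun n t => (h n).at hδ x t)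
    (fun t => ((continuous_eval_const (δ t * x)).tendsto f).comp h1) 0
  simpa [hδ.zero] using this

/-- first and second derivative test -/
lemma HasD.max {δ : ℝ → Γ} (hδ : OneP δ) {f f' f'' : C(Γ, ℝ)} (h : HasD δ f f')
    (h' : HasD δ f' f'') {x : Γ} (hx : ∀ y, f y ≤ f x) : f' x = 0 ∧ f'' x ≤ 0 := by
  have hm : IsLocalMax (fun t => f (δ t * x)) 0 :=
    Eventually.of_forall fun t => by simpa [hδ.zero] using hx _
  have h0 : f' x = 0 := hm.hasDerivAt_eq_zero (h x)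
  refine ⟨h0, not_lt.1 fun hpos => ?_⟩
  have h1 := (hasDerivAt_iff_tendsto_slope_zero.1 (h' x)).mono_left
    (nhdsWithin_mono (0 : ℝ) (fun t (ht : t ∈ Set.Ioi (0 : ℝ)) => ne_of_gt ht))
  have h2 : ∀ᶠ t in 𝓝[>] (0 : ℝ), 0 < f' (δ t * x) := by
    filter_upwards [h1.eventually (lt_mem_nhds hpos), self_mem_nhdsWithin] with t ht ht0
    simp only [zero_add, hδ.zero, one_mul, h0, sub_zero, smul_eq_mul] at ht
    exact (mul_pos_iff_of_pos_left (inv_pos.2 ht0)).1 ht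
  obtain ⟨u, hu, hsub⟩ := mem_nhdsGT_iff_exists_Ioc_subset.1 h2
  obtain ⟨c, hc, he⟩ := exists_hasDerivAt_eq_slope (fun t => f (δ t * x)) (fun t => f' (δ t * x)) hu
    (fun t _ => (h.at hδ x t).continuousAt.continuousWithinAt) (fun t _ => h.at hδ x t)
  have h3 : 0 < f' (δ c * x) := hsub ⟨hc.1, hc.2.le⟩
  rw [he, hδ.zero, one_mul, sub_zero] at h3
  have := (div_pos_iff_of_pos_right hu).1 h3
  linarith [hx (δ u * x)]

omit [Group Γ] in
lemma integrable_cont [CompactSpace Γ] [MeasurableSpace Γ] [BorelSpace Γ] (μ : Measure Γ)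
    [IsFiniteMeasure μ] {f : Γ → ℝ} (hf : Continuous f) : Integrable f μ :=
  hf.integrable_of_hasCompactSupport (HasCompactSupport.of_compactSpace _)

lemma HasD.integral_eq_zero [IsTopologicalGroup Γ] [CompactSpace Γ] [MeasurableSpace Γ]
    [BorelSpace Γ] (μ : Measure Γ) [IsFiniteMeasure μ] [μ.IsMulLeftInvariant]
    {δ : ℝ → Γ} (hδ : OneP δ) {F F' : C(Γ, ℝ)} (h : HasD δ F F') : ∫ x, F' x ∂μ = 0 := by
  have hm : ∀ (G : C(Γ, ℝ)) (V : Γ), Continuous fun U => G (V * U) := fun G V => by fun_prop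
  have key := (hasDerivAt_integral_of_dominated_loc_of_deriv_le (μ := μ)
    (F := fun s U => F (δ s * U)) (F' := fun s U => F' (δ s * U)) (x₀ := 0) (s := Set.univ)
    (bound := fun _ => ‖F'‖) Filter.univ_mem
    (Filter.Eventually.of_forall fun s => (hm F _).aestronglyMeasurable)
    (integrable_cont μ (hm F _)) (hm F' _).aestronglyMeasurable
    (Filter.Eventually.of_forall fun U s _ => F'.norm_coe_le_norm _) (integrable_const _)
    (Filter.Eventually.of_forall fun U s _ => h.at hδ U s)).2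
  simp only [integral_mul_left_eq_self (fun U => F U)] at key
  have := key.unique (hasDerivAt_const (0 : ℝ) _)
  simpa [hδ.zero] using this

/-- a family of one-parameter subgroups -/
structure Flows (Γ : Type) [Group Γ] (I : Type) where
  γ : I → ℝ → Γ
  one : ∀ i, OneP (γ i)

namespace Flows
variable (Φ : Flows Γ I)

/-- infinitely differentiable along the flows -/
def Sm (f : C(Γ, ℝ)) : Prop :=
  ∃ S : Set C(Γ, ℝ), f ∈ S ∧ ∀ g ∈ S, ∀ i, ∃ g' ∈ S, HasD (Φ.γ i) g g'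

lemma Sm.deriv {f : C(Γ, ℝ)} (h : Φ.Sm f) (i : I) : ∃ f', Φ.Sm f' ∧ HasD (Φ.γ i) f f' := by
  obtain ⟨S, hf, hS⟩ := h
  obtain ⟨g', h1, h2⟩ := hS f hf i
  exact ⟨g', ⟨S, h1, hS⟩, h2⟩

lemma sm_of_adjoin (S : Set C(Γ, ℝ))
    (h : ∀ g ∈ S, ∀ i, ∃ g' ∈ Algebra.adjoin ℝ S, HasD (Φ.γ i) g g') {f : C(Γ, ℝ)}
    (hf : f ∈ Algebra.adjoin ℝ S) : Φ.Sm f := by
  refine ⟨Algebra.adjoin ℝ S, hf, fun g hg i => ?_⟩
  induction hg using Algebra.adjoin_induction with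
  | mem x hx => exact h x hx i
  | algebraMap r => exact ⟨0, zero_mem _, hasD_const _ r⟩
  | add x y hx hy h1 h2 =>
    obtain ⟨x', a, b⟩ := h1
    obtain ⟨y', c, d⟩ := h2
    exact ⟨_, add_mem a c, b.add d⟩
  | mul x y hx hy h1 h2 =>
    obtain ⟨x', a, b⟩ := h1
    obtain ⟨y', c, d⟩ := h2
    exact ⟨_, add_mem (mul_mem hx c) (mul_mem hy a), b.mul (Φ.one i) d⟩

lemma sm_adjoin_sm {f : C(Γ, ℝ)} (hf : f ∈ Algebra.adjoin ℝ {g | Φ.Sm g}) : Φ.Sm f :=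
  Φ.sm_of_adjoin _ (fun g hg i => by
    obtain ⟨g', h1, h2⟩ := Sm.deriv Φ hg i
    exact ⟨g', Algebra.subset_adjoin h1, h2⟩) hf

/-- the algebra of smooth functions -/
def A : Subalgebra ℝ C(Γ, ℝ) where
  carrier := {f | Φ.Sm f}
  add_mem' ha hb := Φ.sm_adjoin_sm (add_mem (Algebra.subset_adjoin ha) (Algebra.subset_adjoin hb))
  mul_mem' ha hb := Φ.sm_adjoin_sm (mul_mem (Algebra.subset_adjoin ha) (Algebra.subset_adjoin hb))
  algebraMap_mem' r := Φ.sm_adjoin_sm (Subalgebra.algebraMap_mem _ r)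

lemma mem_A_of {f : C(Γ, ℝ)}
    (h : ∀ i, ∃ f' ∈ Algebra.adjoin ℝ (insert f (Φ.A : Set C(Γ, ℝ))), HasD (Φ.γ i) f f') :
    f ∈ Φ.A := by
  refine Φ.sm_of_adjoin (insert f (Φ.A : Set C(Γ, ℝ))) ?_
    (Algebra.subset_adjoin (Set.mem_insert _ _))
  rintro g (rfl | hg) i
  · exact h i
  · obtain ⟨g', h1, h2⟩ := Sm.deriv Φ hg i
    exact ⟨g', Algebra.subset_adjoin (Set.mem_insert_of_mem _ h1), h2⟩

abbrev R : Type := Φ.A

variable {Φ}

@[simp] lemma R_add (f g : Φ.R) (U : Γ) : (f + g).1 U = f.1 U + g.1 U := rfl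
@[simp] lemma R_sub (f g : Φ.R) (U : Γ) : (f - g).1 U = f.1 U - g.1 U := rfl
@[simp] lemma R_neg (f : Φ.R) (U : Γ) : (-f).1 U = -f.1 U := rfl
@[simp] lemma R_mul (f g : Φ.R) (U : Γ) : (f * g).1 U = f.1 U * g.1 U := rfl
@[simp] lemma R_smul (c : ℝ) (f : Φ.R) (U : Γ) : (c • f).1 U = c * f.1 U := rfl
@[simp] lemma R_one (U : Γ) : (1 : Φ.R).1 U = 1 := rfl
@[simp] lemma R_zero (U : Γ) : (0 : Φ.R).1 U = 0 := rfl
@[simp] lemma R_two (U : Γ) : (2 : Φ.R).1 U = 2 := rfl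
@[simp] lemma R_pow (f : Φ.R) (n : ℕ) (U : Γ) : (f ^ n).1 U = f.1 U ^ n := by simp
lemma R_sum {ι : Type*} (s : Finset ι) (f : ι → Φ.R) (U : Γ) :
    (∑ i ∈ s, f i).1 U = ∑ i ∈ s, (f i).1 U := by simp

lemma R_ext {f g : Φ.R} (h : ∀ U, f.1 U = g.1 U) : f = g := by ext U; exact h U

variable (Φ)

/-- the derivation along the `i`-th flow -/
noncomputable def D (i : I) : Derivation ℝ Φ.R Φ.R :=
  Derivation.mk'
    { toFun := fun f => ⟨(Sm.deriv Φ f.2 i).choose, (Sm.deriv Φ f.2 i).choose_spec.1⟩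
      map_add' := fun f g => Subtype.ext ((Sm.deriv Φ (f + g).2 i).choose_spec.2.unique
        ((Sm.deriv Φ f.2 i).choose_spec.2.add (Sm.deriv Φ g.2 i).choose_spec.2))
      map_smul' := fun c f => Subtype.ext ((Sm.deriv Φ (c • f).2 i).choose_spec.2.unique
        ((Sm.deriv Φ f.2 i).choose_spec.2.smul c)) }
    fun f g => Subtype.ext ((Sm.deriv Φ (f * g).2 i).choose_spec.2.unique
      ((Sm.deriv Φ f.2 i).choose_spec.2.mul (Φ.one i) (Sm.deriv Φ g.2 i).choose_spec.2))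

lemma hasD_D (i : I) (f : Φ.R) : HasD (Φ.γ i) f.1 (Φ.D i f).1 := (Sm.deriv Φ f.2 i).choose_spec.2

lemma D_eq {i : I} {f f' : Φ.R} (h : HasD (Φ.γ i) f.1 f'.1) : Φ.D i f = f' :=
  Subtype.ext ((Φ.hasD_D i f).unique h)

lemma D_mul (i : I) (f g : Φ.R) : Φ.D i (f * g) = f * Φ.D i g + g * Φ.D i f := by
  rw [Derivation.leibniz, smul_eq_mul, smul_eq_mul]

lemma exists_inv_log {f : Φ.R} (hf : ∀ x, 0 < f.1 x) :
    ∃ g φ : Φ.R, (∀ x, g.1 x = (f.1 x)⁻¹) ∧ (∀ x, φ.1 x = Real.log (f.1 x)) ∧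
      (∀ i, Φ.D i g = -(g * g * Φ.D i f)) ∧ ∀ i, Φ.D i φ = g * Φ.D i f := by
  let g : C(Γ, ℝ) := ⟨fun x => (f.1 x)⁻¹, f.1.continuous.inv₀ fun x => (hf x).ne'⟩
  let φ : C(Γ, ℝ) := ⟨fun x => Real.log (f.1 x), f.1.continuous.log fun x => (hf x).ne'⟩
  have hg : ∀ i, HasD (Φ.γ i) g (-(g * g * (Φ.D i f).1)) := fun i x => by
    refine ((Φ.hasD_D i f x).fun_inv (hf _).ne').congr_deriv ?_
    simp only [(Φ.one i).zero, one_mul, ContinuousMap.neg_apply, ContinuousMap.mul_apply, g,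
      ContinuousMap.coe_mk]
    have := (hf x).ne'
    field_simp
  have hφ : ∀ i, HasD (Φ.γ i) φ (g * (Φ.D i f).1) := fun i x => by
    refine ((Φ.hasD_D i f x).log (hf _).ne').congr_deriv ?_
    simp only [(Φ.one i).zero, one_mul, ContinuousMap.mul_apply, g, ContinuousMap.coe_mk]
    rw [div_eq_inv_mul]
  have gA : g ∈ Φ.A := Φ.mem_A_of fun i => ⟨_, neg_mem (mul_mem
    (mul_mem (Algebra.subset_adjoin (Set.mem_insert _ _)) (Algebra.subset_adjoin (Set.mem_insert _ _)))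
    (Algebra.subset_adjoin (Set.mem_insert_of_mem _ (Φ.D i f).2))), hg i⟩
  have φA : φ ∈ Φ.A := Φ.mem_A_of fun i =>
    ⟨_, Algebra.subset_adjoin (Set.mem_insert_of_mem _ (mul_mem gA (Φ.D i f).2)), hφ i⟩
  exact ⟨⟨g, gA⟩, ⟨φ, φA⟩, fun _ => rfl, fun _ => rfl, fun i => Φ.D_eq (hg i), fun i => Φ.D_eq (hφ i)⟩

lemma D_max (i : I) {f : Φ.R} {x : Γ} (hx : ∀ y, f.1 y ≤ f.1 x) :
    (Φ.D i f).1 x = 0 ∧ (Φ.D i (Φ.D i f)).1 x ≤ 0 :=
  (Φ.hasD_D i f).max (Φ.one i) (Φ.hasD_D i _) hx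

variable [Fintype I]

/-- the Laplacian -/
noncomputable def Lap : Φ.R →ₗ[ℝ] Φ.R := ∑ i, (Φ.D i).toLinearMap ∘ₗ (Φ.D i).toLinearMap

lemma Lap_apply (f : Φ.R) : Φ.Lap f = ∑ i, Φ.D i (Φ.D i f) := by simp [Lap]

lemma Lap_max {f : Φ.R} {x : Γ} (hx : ∀ y, f.1 y ≤ f.1 x) : (Φ.Lap f).1 x ≤ 0 := by
  rw [Lap_apply, R_sum]
  exact Finset.sum_nonpos fun i _ => (Φ.D_max i hx).2

end Flows

/-- barrier lemma -/
lemma barrier {Y : Type*} [TopologicalSpace Y] [CompactSpace Y] {z z' : ℝ → Y → ℝ}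
    (hc : Continuous fun p : ℝ × Y => z p.1 p.2) (h0 : ∀ y, z 0 y < 0)
    (hd : ∀ t, 0 < t → ∀ y, HasDerivAt (fun s => z s y) (z' t y) t)
    (hs : ∀ t, 0 < t → (∀ y, z t y ≤ 0) → ∀ y, z t y = 0 → z' t y < 0) :
    ∀ t, 0 ≤ t → ∀ y, z t y < 0 := by
  by_contra hcon
  push Not at hcon
  have hcl : IsClosed {t : ℝ | 0 ≤ t ∧ ∃ y, 0 ≤ z t y} := by
    have h1 : IsClosed {p : ℝ × Y | 0 ≤ z p.1 p.2} := isClosed_le continuous_const hc
    have h2 := isClosedMap_fst_of_compactSpace _ h1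
    have : {t : ℝ | 0 ≤ t ∧ ∃ y, 0 ≤ z t y} =
        Set.Ici 0 ∩ Prod.fst '' {p : ℝ × Y | 0 ≤ z p.1 p.2} := by
      ext t; simp
    rw [this]
    exact isClosed_Ici.inter h2
  obtain ⟨t1, ht1, y1, hy1⟩ := hcon
  have hbdd : BddBelow {t : ℝ | 0 ≤ t ∧ ∃ y, 0 ≤ z t y} := ⟨0, fun t ht => ht.1⟩
  obtain ⟨hT0, y, hy⟩ := hcl.csInf_mem ⟨t1, ht1, y1, hy1⟩ hbdd
  set T := sInf {t : ℝ | 0 ≤ t ∧ ∃ y, 0 ≤ z t y} with hT
  have hlt : ∀ t, 0 ≤ t → t < T → ∀ y, z t y < 0 := fun t ht htT y =>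
    not_le.1 fun h => absurd (csInf_le hbdd ⟨ht, y, h⟩) (not_le.2 htT)
  have hTpos : 0 < T := lt_of_le_of_ne hT0 fun h => by
    rw [← h] at hy; exact absurd (h0 y) (not_lt.2 hy)
  have hev : ∀ᶠ t in 𝓝[<] T, 0 ≤ t ∧ t < T := by
    filter_upwards [mem_nhdsWithin_of_mem_nhds (le_mem_nhds hTpos), self_mem_nhdsWithin]
      with t h1 h2 using ⟨h1, h2⟩
  have hle : ∀ y, z T y ≤ 0 := fun y =>
    le_of_tendsto ((hd T hTpos y).continuousAt.continuousWithinAt (s := Set.Iio T))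
      (hev.mono fun t ht => (hlt t ht.1 ht.2 y).le)
  have he : z T y = 0 := le_antisymm (hle y) hy
  have hneg := hs T hTpos hle y he
  have h1 := (hasDerivAt_iff_tendsto_slope.1 (hd T hTpos y)).mono_left
    (nhdsWithin_mono T (fun t (ht : t ∈ Set.Iio T) => ne_of_lt ht))
  have h2 : 0 ≤ z' T y := ge_of_tendsto h1 (hev.mono fun t ht => by
    rw [slope_def_field, he, sub_zero]
    exact div_nonneg_of_nonpos (hlt t ht.1 ht.2 y).le (by linarith [ht.2]))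
  linarith

end Pool.Agent.Lib.MP_7f377f_mp.KS
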