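import Mathlib
import Pool.Agent.Lib.MP_7f377f_mp.KSSmooth

open MeasureTheory Filter Topology

set_option linter.unusedSectionVars false

namespace Pool.Agent.Lib.MP_7f377f_mp.KS

namespace Flows

variable {Γ : Type} [Group Γ] [TopologicalSpace Γ] [CompactSpace Γ] {I : Type} [Fintype I]
  {Φ : Flows Γ I}

/-- commutation relations with totally antisymmetric structure constants -/
structure Lie (Φ : Flows Γ I) (F : I → I → I → ℝ) : Prop where
  comm : ∀ i j f, Φ.D j (Φ.D i f) - Φ.D i (Φ.D j f) = ∑ k, F i j k • Φ.D k f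
  a12 : ∀ i j k, F i j k = -F j i k
  a23 : ∀ i j k, F i j k = -F i k j

lemma sum_antisymm {M : Type*} [AddCommGroup M] [Module ℝ M] (c : I → I → M)
    (h : ∀ a b, c a b = -c b a) : ∑ a, ∑ b, c a b = 0 := by
  have : ∑ a, ∑ b, c a b = -∑ a, ∑ b, c a b := by
    nth_rewrite 1 [Finset.sum_comm]
    rw [← Finset.sum_neg_distrib]
    refine Finset.sum_congr rfl fun b _ => ?_
    rw [← Finset.sum_neg_distrib]
    exact Finset.sum_congr rfl fun k _ => h k b
  rw [eq_neg_iff_add_eq_zero, ← two_smul ℝ, smul_eq_zero] at this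
  exact this.resolve_left two_ne_zero

lemma Lie.a13 {F : I → I → I → ℝ} (h : Lie Φ F) (i j k : I) : F i j k = -F k j i := by
  rw [h.a12, h.a23 j i k, h.a12 j k i, neg_neg]

lemma Lie.D_Lap {F : I → I → I → ℝ} (h : Lie Φ F) (i : I) (f : Φ.R) :
    Φ.D i (Φ.Lap f) = Φ.Lap (Φ.D i f) := by
  have h1 : ∀ b, Φ.D i (Φ.D b (Φ.D b f)) = Φ.D b (Φ.D b (Φ.D i f)) +
      ∑ k, F b i k • (Φ.D b (Φ.D k f) + Φ.D k (Φ.D b f)) := by
    intro b
    have e1 := h.comm b i (Φ.D b f)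
    have e2 := congrArg (Φ.D b) (h.comm b i f)
    rw [map_sub, map_sum] at e2
    simp only [Derivation.map_smul] at e2
    simp only [smul_add, Finset.sum_add_distrib]
    rw [← e1, ← e2]
    abel
  rw [Lap_apply, Lap_apply, map_sum]
  simp_rw [h1]
  rw [Finset.sum_add_distrib, sum_antisymm _ fun b k => by rw [h.a13 b i k, add_comm, neg_smul],
    add_zero]

/-- time derivative of a curve of functions -/
def TD0 (u u' : ℝ → Φ.R) : Prop :=
  (Continuous fun p : ℝ × Γ => (u p.1).1 p.2) ∧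
    ∀ t, 0 < t → ∀ x, HasDerivAt (fun s => (u s).1 x) ((u' t).1 x) t

/-- time derivative commuting with `k` space derivatives -/
def TD : ℕ → (ℝ → Φ.R) → (ℝ → Φ.R) → Prop
  | 0, u, u' => TD0 u u'
  | k + 1, u, u' => TD0 u u' ∧ ∀ i, TD k (fun t => Φ.D i (u t)) (fun t => Φ.D i (u' t))

lemma TD.td0 {k : ℕ} {u u' : ℝ → Φ.R} (h : TD k u u') : TD0 u u' := by
  cases k with
  | zero => exact h
  | succ k => exact h.1

lemma TD.pred {k : ℕ} : ∀ {u u' : ℝ → Φ.R}, TD (k + 1) u u' → TD k u u' := by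
  induction k with
  | zero => exact fun h => h.1
  | succ k ih => exact fun h => ⟨h.1, fun i => ih (h.2 i)⟩

lemma TD.congr {k : ℕ} : ∀ {u u' v' : ℝ → Φ.R}, TD k u u' → (∀ t, 0 < t → u' t = v' t) →
    TD k u v' := by
  have h0 : ∀ {u u' v' : ℝ → Φ.R}, TD0 u u' → (∀ t, 0 < t → u' t = v' t) → TD0 u v' :=
    fun h e => ⟨h.1, fun t ht x => e t ht ▸ h.2 t ht x⟩
  induction k with
  | zero => exact h0
  | succ k ih => exact fun h e => ⟨h0 h.1 e, fun i => ih (h.2 i) fun t ht => by rw [e t ht]⟩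

lemma TD.congr2 {k : ℕ} {u u' v v' : ℝ → Φ.R} (h : TD k u u') (e : ∀ t, u t = v t)
    (e' : ∀ t, u' t = v' t) : TD k v v' := by
  rwa [← funext e, ← funext e']

lemma TD.const (k : ℕ) : ∀ f : Φ.R, TD k (fun _ => f) (fun _ => 0) := by
  have h0 : ∀ f : Φ.R, TD0 (fun _ => f) (fun _ => 0) :=
    fun f => ⟨by fun_prop, fun t _ x => hasDerivAt_const _ _⟩
  induction k with
  | zero => exact h0
  | succ k ih => exact fun f => ⟨h0 f, fun i => by simpa using ih _⟩

lemma TD.add {k : ℕ} : ∀ {u u' v v' : ℝ → Φ.R}, TD k u u' → TD k v v' →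
    TD k (fun t => u t + v t) (fun t => u' t + v' t) := by
  have h0 : ∀ {u u' v v' : ℝ → Φ.R}, TD0 u u' → TD0 v v' →
      TD0 (fun t => u t + v t) (fun t => u' t + v' t) :=
    fun h g => ⟨h.1.add g.1, fun t ht x => (h.2 t ht x).fun_add (g.2 t ht x)⟩
  induction k with
  | zero => exact h0
  | succ k ih => exact fun h g => ⟨h0 h.1 g.1, fun i => by simpa using ih (h.2 i) (g.2 i)⟩

lemma TD.mul {k : ℕ} : ∀ {u u' v v' : ℝ → Φ.R}, TD k u u' → TD k v v' →
    TD k (fun t => u t * v t) (fun t => u' t * v t + u t * v' t) := by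
  have h0 : ∀ {u u' v v' : ℝ → Φ.R}, TD0 u u' → TD0 v v' →
      TD0 (fun t => u t * v t) (fun t => u' t * v t + u t * v' t) :=
    fun h g => ⟨h.1.mul g.1, fun t ht x => (h.2 t ht x).fun_mul (g.2 t ht x)⟩
  induction k with
  | zero => exact h0
  | succ k ih =>
    intro u u' v v' h g
    refine ⟨h0 h.1 g.1, fun i => ?_⟩
    refine ((ih h.pred (g.2 i)).add (ih g.pred (h.2 i))).congr2 (fun t => ?_) fun t => ?_
    · rw [D_mul]
    · simp only [map_add, D_mul]; ring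

lemma TD.tsmul {k : ℕ} {a a' : ℝ → ℝ} (ha : ∀ t, HasDerivAt a (a' t) t) :
    ∀ {u u' : ℝ → Φ.R}, TD k u u' → TD k (fun t => a t • u t) (fun t => a' t • u t + a t • u' t) := by
  have hc : Continuous a := continuous_iff_continuousAt.2 fun t => (ha t).continuousAt
  have h0 : ∀ {u u' : ℝ → Φ.R}, TD0 u u' →
      TD0 (fun t => a t • u t) (fun t => a' t • u t + a t • u' t) :=
    fun h => ⟨(hc.comp continuous_fst).mul h.1, fun t ht x => (ha t).fun_mul (h.2 t ht x)⟩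
  induction k with
  | zero => exact h0
  | succ k ih => exact fun h => ⟨h0 h.1, fun i => by simpa using ih (h.2 i)⟩

lemma TD.smul {k : ℕ} (c : ℝ) {u u' : ℝ → Φ.R} (h : TD k u u') :
    TD k (fun t => c • u t) (fun t => c • u' t) := by
  simpa using h.tsmul (fun t => hasDerivAt_const t c)

lemma TD.neg {k : ℕ} {u u' : ℝ → Φ.R} (h : TD k u u') :
    TD k (fun t => -u t) (fun t => -u' t) := by
  simpa using h.smul (-1)

lemma TD.sub {k : ℕ} {u u' v v' : ℝ → Φ.R} (h : TD k u u') (g : TD k v v') :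
    TD k (fun t => u t - v t) (fun t => u' t - v' t) := by
  simpa [sub_eq_add_neg] using h.add g.neg

lemma TD.sum {k : ℕ} {J : Type*} (s : Finset J) {u u' : J → ℝ → Φ.R}
    (h : ∀ j, TD k (u j) (u' j)) :
    TD k (fun t => ∑ j ∈ s, u j t) (fun t => ∑ j ∈ s, u' j t) := by
  induction s using Finset.cons_induction with
  | empty => simpa using TD.const k (0 : Φ.R)
  | cons a s ha ih => simpa only [Finset.sum_cons] using (h a).add ih

lemma TD.lap {k : ℕ} {u u' : ℝ → Φ.R} (h : TD (k + 2) u u') :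
    TD k (fun t => Φ.Lap (u t)) (fun t => Φ.Lap (u' t)) := by
  simpa only [Lap_apply] using TD.sum Finset.univ fun i => (h.2 i).2 i

lemma exists_inv_log_curve {S S' : ℝ → Φ.R} (h : ∀ k, TD k S S') (hp : ∀ t x, 0 < (S t).1 x) :
    ∃ g φ : ℝ → Φ.R, (∀ t, g t * S t = 1) ∧ (∀ t x, (φ t).1 x = Real.log ((S t).1 x)) ∧
      (∀ t i, Φ.D i (g t) = -(g t * g t * Φ.D i (S t))) ∧
      (∀ t i, Φ.D i (φ t) = g t * Φ.D i (S t)) ∧
      (∀ k, TD k g fun t => -(g t * g t * S' t)) ∧ ∀ k, TD k φ fun t => g t * S' t := by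
  choose g φ h1 h2 h3 h4 using fun t => Φ.exists_inv_log (hp t)
  have hg0 : TD0 g fun t => -(g t * g t * S' t) := by
    refine ⟨?_, fun t ht x => ?_⟩
    · simp only [h1]
      exact (h 0).1.inv₀ fun p => (hp _ _).ne'
    · simp only [h1, R_neg, R_mul]
      refine (((h 0).2 t ht x).fun_inv (hp _ _).ne').congr_deriv ?_
      have := (hp t x).ne'
      field_simp
  have hφ0 : TD0 φ fun t => g t * S' t := by
    refine ⟨?_, fun t ht x => ?_⟩
    · simp only [h2]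
      exact (h 0).1.log fun p => (hp _ _).ne'
    · simp only [h1, h2, R_mul]
      exact (((h 0).2 t ht x).log (hp _ _).ne').congr_deriv (div_eq_inv_mul _ _)
  have hg : ∀ k, TD k g fun t => -(g t * g t * S' t) := by
    intro k
    induction k with
    | zero => exact hg0
    | succ k ih =>
      refine ⟨hg0, fun i => ((ih.mul ih).mul ((h (k + 1)).2 i)).neg.congr2 (fun t => ?_) fun t => ?_⟩
      · rw [h3]
      · simp only [map_neg, D_mul, h3]; ring
  refine ⟨g, φ, fun t => R_ext fun x => ?_, h2, h3, h4, hg, fun k => ?_⟩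
  · rw [R_mul, h1, inv_mul_cancel₀ (hp t x).ne', R_one]
  · cases k with
    | zero => exact hφ0
    | succ k =>
      refine ⟨hφ0, fun i => ((hg k).mul ((h (k + 1)).2 i)).congr2 (fun t => ?_) fun t => ?_⟩
      · rw [h4]
      · simp only [D_mul, h3]; ring

/-- uniform bound on all derivatives of order at most `k` -/
def Bd : ℕ → Φ.R → ℝ → Prop
  | 0, f, c => ∀ x, |f.1 x| ≤ c
  | k + 1, f, c => (∀ x, |f.1 x| ≤ c) ∧ ∀ i, Bd k (Φ.D i f) c

lemma Bd.abs {k : ℕ} {f : Φ.R} {c : ℝ} (h : Bd k f c) : ∀ x, |f.1 x| ≤ c := by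
  cases k with
  | zero => exact h
  | succ k => exact h.1

lemma Bd.nonneg {k : ℕ} {f : Φ.R} {c : ℝ} (h : Bd k f c) : 0 ≤ c := (abs_nonneg _).trans (h.abs 1)

lemma Bd.pred {k : ℕ} : ∀ {f : Φ.R} {c : ℝ}, Bd (k + 1) f c → Bd k f c := by
  induction k with
  | zero => exact fun h => h.1
  | succ k ih => exact fun h => ⟨h.1, fun i => ih (h.2 i)⟩

lemma Bd.mono {k : ℕ} : ∀ {f : Φ.R} {c c' : ℝ}, Bd k f c → c ≤ c' → Bd k f c' := by
  induction k with
  | zero => exact fun h e x => (h x).trans e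
  | succ k ih => exact fun h e => ⟨fun x => (h.1 x).trans e, fun i => ih (h.2 i) e⟩

lemma Bd.add {k : ℕ} : ∀ {f g : Φ.R} {c c' : ℝ}, Bd k f c → Bd k g c' → Bd k (f + g) (c + c') := by
  induction k with
  | zero => exact fun h g x => (abs_add_le _ _).trans (add_le_add (h x) (g x))
  | succ k ih => exact fun h g => ⟨fun x => (abs_add_le _ _).trans (add_le_add (h.1 x) (g.1 x)),
      fun i => by rw [map_add]; exact ih (h.2 i) (g.2 i)⟩

lemma Bd.neg {k : ℕ} : ∀ {f : Φ.R} {c : ℝ}, Bd k f c → Bd k (-f) c := by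
  induction k with
  | zero => exact fun h x => by rw [R_neg, abs_neg]; exact h x
  | succ k ih => exact fun h => ⟨fun x => by rw [R_neg, abs_neg]; exact h.1 x,
      fun i => by rw [map_neg]; exact ih (h.2 i)⟩

lemma Bd.zero (k : ℕ) : Bd k (0 : Φ.R) 0 := by
  induction k with
  | zero => exact fun x => by simp
  | succ k ih => exact ⟨fun x => by simp, fun i => by simpa using ih⟩

lemma Bd.sum {k : ℕ} {J : Type*} (s : Finset J) {f : J → Φ.R} {c : J → ℝ}
    (h : ∀ j, Bd k (f j) (c j)) : Bd k (∑ j ∈ s, f j) (∑ j ∈ s, c j) := by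
  induction s using Finset.cons_induction with
  | empty => simpa using Bd.zero k
  | cons a s ha ih => simpa only [Finset.sum_cons] using (h a).add ih

lemma Bd.lap {k : ℕ} {f : Φ.R} {c : ℝ} (h : Bd (k + 2) f c) :
    Bd k (Φ.Lap f) (Fintype.card I * c) := by
  simpa [Lap_apply] using Bd.sum Finset.univ fun i => (h.2 i).2 i

lemma exists_bd_mul (k : ℕ) : ∀ V : Φ.R, ∃ C, 0 ≤ C ∧ ∀ f c, Bd k f c → Bd k (V * f) (C * c) := by
  have h0 : ∀ (V f : Φ.R) (c : ℝ), (∀ x, |f.1 x| ≤ c) → ∀ x, |(V * f).1 x| ≤ ‖V.1‖ * c :=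
    fun V f c h x => by
      rw [R_mul, abs_mul]
      exact mul_le_mul (V.1.norm_coe_le_norm x) (h x) (abs_nonneg _) (norm_nonneg _)
  induction k with
  | zero => exact fun V => ⟨_, norm_nonneg _, h0 V⟩
  | succ k ih =>
    intro V
    obtain ⟨C, hC, h⟩ := ih V
    choose C' hC' h' using fun i => ih (Φ.D i V)
    have hs : 0 ≤ ∑ i, C' i := Finset.sum_nonneg fun i _ => hC' i
    refine ⟨‖V.1‖ + C + ∑ i, C' i, by positivity, fun f c hf => ⟨fun x => ?_, fun i => ?_⟩⟩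
    · exact (h0 V f c hf.1 x).trans (mul_le_mul_of_nonneg_right (by linarith) hf.nonneg)
    · rw [D_mul, mul_comm f]
      refine ((h _ _ (hf.2 i)).add (h' i _ _ hf.pred)).mono ?_
      rw [← add_mul]
      have := Finset.single_le_sum (fun i _ => hC' i) (Finset.mem_univ i)
      exact mul_le_mul_of_nonneg_right (by linarith [norm_nonneg V.1]) hf.nonneg

lemma exists_bd (k : ℕ) (f : Φ.R) : ∃ c, Bd k f c := by
  obtain ⟨C, -, h⟩ := exists_bd_mul k f
  have : Bd k (1 : Φ.R) 1 := by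
    cases k with
    | zero => exact fun x => by simp
    | succ k => exact ⟨fun x => by simp, fun i => by simpa using (Bd.zero k).mono zero_le_one⟩
  exact ⟨_, by simpa using h 1 1 this⟩

lemma heat_le {u g : ℝ → Φ.R} {b b' : ℝ → ℝ} (h : TD0 u fun t => Φ.Lap (u t) + g t)
    (hb : ∀ t, HasDerivAt b (b' t) t) (h0 : ∀ x, (u 0).1 x ≤ b 0)
    (hg : ∀ t, 0 < t → ∀ x, (g t).1 x ≤ b' t) : ∀ t, 0 ≤ t → ∀ x, (u t).1 x ≤ b t := by
  intro t ht x
  have hc : Continuous b := continuous_iff_continuousAt.2 fun t => (hb t).continuousAt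
  refine le_of_forall_pos_le_add fun ε hε => ?_
  have hε' : 0 < ε / (1 + t) := by positivity
  have := barrier (z := fun s x => (u s).1 x - b s - ε / (1 + t) * (1 + s))
    (z' := fun s x => (Φ.Lap (u s) + g s).1 x - b' s - ε / (1 + t))
    ((h.1.sub (hc.comp continuous_fst)).sub (by fun_prop)) (fun y => by linarith [h0 y])
    (fun s hs y => ((h.2 s hs y).fun_sub (hb s)).fun_sub (by
      simpa using ((hasDerivAt_id s).const_add 1).const_mul (ε / (1 + t))))
    (fun s hs hle y hy => by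
      have := Φ.Lap_max (f := u s) (x := y) fun w => by linarith [hle w]
      rw [R_add]
      linarith [hg s hs y]) t ht x
  rw [div_mul_cancel₀ _ (by positivity)] at this
  linarith

lemma heat_bd {F : I → I → I → ℝ} (hL : Lie Φ F) {b b' : ℝ → ℝ} (hb : ∀ t, HasDerivAt b (b' t) t)
    (k : ℕ) : ∀ {u g : ℝ → Φ.R}, TD k u (fun t => Φ.Lap (u t) + g t) → Bd k (u 0) (b 0) →
    (∀ t, 0 < t → Bd k (g t) (b' t)) → ∀ t, 0 ≤ t → Bd k (u t) (b t) := by
  have h0 : ∀ {u g : ℝ → Φ.R}, TD0 u (fun t => Φ.Lap (u t) + g t) → (∀ x, |(u 0).1 x| ≤ b 0) →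
      (∀ t, 0 < t → ∀ x, |(g t).1 x| ≤ b' t) → ∀ t, 0 ≤ t → ∀ x, |(u t).1 x| ≤ b t := by
    intro u g h h1 h2 t ht x
    have a1 := heat_le h hb (fun x => (abs_le.1 (h1 x)).2) (fun t ht x => (abs_le.1 (h2 t ht x)).2)
      t ht x
    have a2 := heat_le (u := fun t => -u t) (g := fun t => -g t)
      ((TD.neg (k := 0) h).congr2 (fun _ => rfl) fun t => by rw [map_neg]; abel) hb
      (fun x => by simpa using neg_le.1 (abs_le.1 (h1 x)).1)
      (fun t ht x => by simpa using neg_le.1 (abs_le.1 (h2 t ht x)).1) t ht x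
    exact abs_le.2 ⟨neg_le.1 a2, a1⟩
  induction k with
  | zero => exact h0
  | succ k ih =>
    intro u g h h1 h2 t ht
    refine ⟨h0 h.1 h1.1 (fun t ht => (h2 t ht).1) t ht, fun i => ?_⟩
    exact ih (g := fun t => Φ.D i (g t))
      ((h.2 i).congr2 (fun _ => rfl) fun t => by rw [map_add, hL.D_Lap]) (h1.2 i)
      (fun t ht => (h2 t ht).2 i) t ht

/-- summable bounds on all derivatives -/
def SB (a : ℕ → Φ.R) : Prop := ∀ k, ∃ c : ℕ → ℝ, Summable c ∧ ∀ j, Bd k (a j) (c j)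

lemma SB.D {a : ℕ → Φ.R} (h : SB a) (i : I) : SB fun j => Φ.D i (a j) := fun k => by
  obtain ⟨c, hc, h⟩ := h (k + 1)
  exact ⟨c, hc, fun j => (h j).2 i⟩

lemma SB.summable {a : ℕ → Φ.R} (h : SB a) : Summable fun j => (a j).1 := by
  obtain ⟨c, hc, h⟩ := h 0
  exact hc.of_norm_bounded fun j => (ContinuousMap.norm_le _ (h j).nonneg).2 (h j)

lemma SB.hasD {a : ℕ → Φ.R} (h : SB a) (i : I) :
    HasD (Φ.γ i) (∑' j, (a j).1) (∑' j, (Φ.D i (a j)).1) := by
  refine HasD.of_tendsto (Φ.one i) (fun n => ?_) h.summable.hasSum.tendsto_sum_nat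
    (h.D i).summable.hasSum.tendsto_sum_nat
  simpa using Φ.hasD_D i (∑ j ∈ Finset.range n, a j)

lemma SB.exists_sum {a : ℕ → Φ.R} (h : SB a) : ∃ s : Φ.R, HasSum (fun j => (a j).1) s.1 := by
  refine ⟨⟨_, {f | ∃ a : ℕ → Φ.R, SB a ∧ f = ∑' j, (a j).1}, ⟨a, h, rfl⟩, ?_⟩, h.summable.hasSum⟩
  rintro g ⟨a, h, rfl⟩ i
  exact ⟨_, ⟨_, h.D i, rfl⟩, h.hasD i⟩

lemma SB.hasSum_D {a : ℕ → Φ.R} (h : SB a) {s : Φ.R} (hs : HasSum (fun j => (a j).1) s.1) (i : I) :
    HasSum (fun j => (Φ.D i (a j)).1) (Φ.D i s).1 := by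
  have := h.hasD i
  rw [hs.tsum_eq] at this
  rw [(Φ.hasD_D i s).unique this]
  exact (h.D i).summable.hasSum

/-- locally uniform summable bounds -/
def LSB (u : ℕ → ℝ → Φ.R) : Prop :=
  ∀ T k, ∃ c : ℕ → ℝ, Summable c ∧ ∀ j t, t ≤ T → Bd k (u j t) (c j)

lemma LSB.sb {u : ℕ → ℝ → Φ.R} (h : LSB u) (t : ℝ) : SB fun j => u j t := fun k => by
  obtain ⟨c, hc, h⟩ := h t k
  exact ⟨c, hc, fun j => h j t le_rfl⟩

lemma LSB.D {u : ℕ → ℝ → Φ.R} (h : LSB u) (i : I) : LSB fun j t => Φ.D i (u j t) := fun T k => by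
  obtain ⟨c, hc, h⟩ := h T (k + 1)
  exact ⟨c, hc, fun j t ht => (h j t ht).2 i⟩

lemma TD.tsum (k : ℕ) : ∀ {u u' : ℕ → ℝ → Φ.R} {U U' : ℝ → Φ.R}, (∀ j, TD k (u j) (u' j)) →
    LSB u → LSB u' → (∀ t, HasSum (fun j => (u j t).1) (U t).1) →
    (∀ t, HasSum (fun j => (u' j t).1) (U' t).1) → TD k U U' := by
  have ev : ∀ {a : ℕ → Φ.R} {s : Φ.R}, HasSum (fun j => (a j).1) s.1 → ∀ x,
      HasSum (fun j => (a j).1 x) (s.1 x) :=
    fun h x => h.mapL (ContinuousMap.evalCLM ℝ x)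
  have h0 : ∀ {u u' : ℕ → ℝ → Φ.R} {U U' : ℝ → Φ.R}, (∀ j, TD0 (u j) (u' j)) →
      LSB u → LSB u' → (∀ t, HasSum (fun j => (u j t).1) (U t).1) →
      (∀ t, HasSum (fun j => (u' j t).1) (U' t).1) → TD0 U U' := by
    intro u u' U U' h b b' s s'
    simp only [TD0, ← (ev (s _) _).tsum_eq, ← (ev (s' _) _).tsum_eq]
    refine ⟨continuous_iff_continuousAt.2 fun p => ?_, fun t ht x => ?_⟩
    · obtain ⟨c, hc, hb⟩ := b (p.1 + 1) 0
      refine (continuousOn_tsum (s := {q : ℝ × Γ | q.1 < p.1 + 1}) (fun j => (h j).1.continuousOn) hc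
        fun j q hq => hb j q.1 (le_of_lt hq) q.2).continuousAt ?_
      exact (isOpen_lt continuous_fst continuous_const).mem_nhds (by simp)
    · obtain ⟨c, hc, hb⟩ := b' (t + 1) 0
      exact hasDerivAt_tsum_of_isPreconnected (t := Set.Ioo 0 (t + 1)) hc isOpen_Ioo
        isPreconnected_Ioo (fun j y hy => (h j).2 y hy.1 x) (fun j y hy => hb j y hy.2.le x)
        (y₀ := t) ⟨ht, by simp⟩ (ev (s t) x).summable ⟨ht, by simp⟩
  induction k with
  | zero => exact h0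
  | succ k ih =>
    intro u u' U U' h b b' s s'
    exact ⟨h0 (fun j => (h j).1) b b' s s', fun i => ih (fun j => (h j).2 i) (b.D i) (b'.D i)
      (fun t => (b.sb t).hasSum_D (s t) i) fun t => (b'.sb t).hasSum_D (s' t) i⟩

end Flows

end Pool.Agent.Lib.MP_7f377f_mp.KS
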