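import Mathlib
import Pool.Agent.Lib.MP_7f377f_mp.KSTime

open MeasureTheory Filter Topology

set_option linter.unusedSectionVars false

namespace Pool.Agent.Lib.MP_7f377f_mp.KS

namespace Flows

variable {Γ : Type} [Group Γ] [TopologicalSpace Γ] [CompactSpace Γ]

section General
variable {I : Type} [Fintype I] {Φ : Flows Γ I} {F : I → I → I → ℝ}

/-- the generator with drift `2 grad φ` -/
noncomputable def Lg (φ u : Φ.R) : Φ.R := Φ.Lap u + (2 : ℝ) • ∑ j, Φ.D j φ * Φ.D j u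

lemma Lie.D_Lg (h : Lie Φ F) (i : I) (φ u : Φ.R) : Φ.D i (Lg φ u) = Lg φ (Φ.D i u) +
    (2 : ℝ) • ∑ j, Φ.D i (Φ.D j φ) * Φ.D j u + (2 : ℝ) • ∑ j, ∑ k, F j i k • (Φ.D j φ * Φ.D k u) := by
  rw [Lg, Lg, map_add, h.D_Lap, Derivation.map_smul, map_sum, add_assoc, add_assoc, ← smul_add,
    ← smul_add, ← Finset.sum_add_distrib, ← Finset.sum_add_distrib]
  congr 2
  refine Finset.sum_congr rfl fun j _ => ?_
  simp only [← mul_smul_comm, ← Finset.mul_sum]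
  rw [D_mul, ← h.comm]
  ring

lemma Lie.D_HJ (h : Lie Φ F) (i : I) (φ : Φ.R) :
    Φ.D i (Φ.Lap φ + ∑ j, Φ.D j φ * Φ.D j φ) = Lg φ (Φ.D i φ) := by
  have h1 : ∑ j, ∑ k, F j i k • (Φ.D j φ * Φ.D k φ) = 0 :=
    sum_antisymm _ fun j k => by rw [h.a13 j i k, mul_comm, neg_smul]
  rw [Lg, map_add, h.D_Lap, map_sum]
  congr 1
  rw [← add_zero (∑ j, Φ.D j φ * Φ.D j (Φ.D i φ)), ← h1, ← Finset.sum_add_distrib, Finset.smul_sum]
  refine Finset.sum_congr rfl fun j _ => ?_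
  simp only [← mul_smul_comm, ← Finset.mul_sum]
  rw [D_mul, ← h.comm, two_smul]
  ring

lemma Lg_add (φ u v : Φ.R) : Lg φ (u + v) = Lg φ u + Lg φ v := by
  simp only [Lg, map_add, mul_add, Finset.sum_add_distrib, smul_add]; abel

lemma Lg_smul (φ u : Φ.R) (c : ℝ) : Lg φ (c • u) = c • Lg φ u := by
  simp only [Lg, map_smul, Derivation.map_smul, mul_smul_comm, ← Finset.smul_sum, smul_add,
    smul_comm c]

lemma Lg_sum {J : Type*} (s : Finset J) (φ : Φ.R) (u : J → Φ.R) :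
    Lg φ (∑ j ∈ s, u j) = ∑ j ∈ s, Lg φ (u j) := by
  induction s using Finset.cons_induction with
  | empty => simp [Lg]
  | cons a s ha ih => rw [Finset.sum_cons, Finset.sum_cons, Lg_add, ih]

lemma Lg_mul_self (φ g : Φ.R) :
    Lg φ (g * g) = (2 : ℝ) • (g * Lg φ g) + (2 : ℝ) • ∑ j, Φ.D j g * Φ.D j g := by
  simp only [Lg, Lap_apply, D_mul, map_add, two_smul, mul_add, Finset.mul_sum,
    ← Finset.sum_add_distrib]
  exact Finset.sum_congr rfl fun j _ => by ring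

lemma Lg_max (φ : Φ.R) {w : Φ.R} {x : Γ} (hx : ∀ y, w.1 y ≤ w.1 x) : (Lg φ w).1 x ≤ 0 := by
  rw [Lg, R_add, R_smul, R_sum]
  simp only [R_mul, (Φ.D_max _ hx).1, mul_zero, Finset.sum_const_zero, add_zero]
  exact Φ.Lap_max hx

lemma TD.clamp {k : ℕ} : ∀ {u u' : ℝ → Φ.R}, TD k u u' →
    TD k (fun t => u (max t 0)) (fun t => u' (max t 0)) := by
  have h0 : ∀ {u u' : ℝ → Φ.R}, TD0 u u' → TD0 (fun t => u (max t 0)) (fun t => u' (max t 0)) := by
    intro u u' h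
    refine ⟨h.1.comp (f := fun p : ℝ × Γ => (max p.1 0, p.2)) (by fun_prop), fun t ht x => ?_⟩
    beta_reduce
    rw [max_eq_left ht.le]
    refine (h.2 t ht x).congr_of_eventuallyEq ?_
    filter_upwards [lt_mem_nhds ht] with s hs
    rw [max_eq_left hs.le]
  induction k with
  | zero => exact h0
  | succ k ih => exact fun h => ⟨h0 h.1, fun i => ih (h.2 i)⟩

end General

variable {E ι : Type} [Fintype E] [Fintype ι] [DecidableEq E] {Φ : Flows Γ (E × ι)}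
  {F : E × ι → E × ι → E × ι → ℝ}

/-- block structure and lower Ricci bound -/
structure Blk (F : E × ι → E × ι → E × ι → ℝ) (ρ : ℝ) : Prop where
  blk : ∀ i j k, j.1 ≠ k.1 → F i j k = 0
  ric : ∀ e (g : ι → ℝ), 4 * ρ * ∑ a, g a ^ 2 ≤ ∑ a, ∑ b, (∑ c, F (e, a) (e, b) (e, c) * g c) ^ 2

lemma Blk.sum {ρ : ℝ} (h : Blk F ρ) (i : E × ι) (e : E) (a : ι) (g : E × ι → ℝ) :
    ∑ k, F i (e, a) k * g k = ∑ c, F i (e, a) (e, c) * g (e, c) := by
  rw [Fintype.sum_prod_type, Finset.sum_eq_single e]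
  · intro e' _ he
    exact Finset.sum_eq_zero fun c _ => by rw [h.blk _ _ _ (Ne.symm he), zero_mul]
  · simp

/-- squared gradient in one block -/
noncomputable def W2 (e : E) (u : Φ.R) : Φ.R := ∑ a, Φ.D (e, a) u * Φ.D (e, a) u

lemma W2_apply (e : E) (u : Φ.R) (x : Γ) : (W2 e u).1 x = ∑ a, (Φ.D (e, a) u).1 x ^ 2 := by
  simp only [W2, R_sum, R_mul, sq]

lemma W2_nonneg (e : E) (u : Φ.R) (x : Γ) : 0 ≤ (W2 e u).1 x := by
  rw [W2_apply]; positivity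

lemma bochner_max {ρ : ℝ} (hL : Lie Φ F) (hB : Blk F ρ) (φ u : Φ.R) (e : E) {x : Γ}
    (hx : ∀ y, (W2 e u).1 y ≤ (W2 e u).1 x) :
    ∑ a, (Φ.D (e, a) u).1 x * (Φ.D (e, a) (Lg φ u)).1 x ≤ -ρ * (W2 e u).1 x +
      2 * ∑ a, (Φ.D (e, a) u).1 x * ∑ j, (Φ.D (e, a) (Φ.D j φ)).1 x * (Φ.D j u).1 x := by
  have h1 := Lg_max φ hx
  rw [W2, Lg_sum] at h1
  simp only [Lg_mul_self, R_sum, R_add, R_smul, R_mul, Finset.sum_add_distrib,
    ← Finset.mul_sum] at h1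
  have h2 : ∑ a, (Φ.D (e, a) u).1 x *
      ∑ j, ∑ k, F j (e, a) k * ((Φ.D j φ).1 x * (Φ.D k u).1 x) = 0 := by
    simp only [hB.sum, Finset.mul_sum]
    rw [Finset.sum_comm]
    refine Finset.sum_eq_zero fun j _ => sum_antisymm _ fun a c => ?_
    rw [hL.a23 j (e, a)]
    ring
  let s : ι → ι → ℝ := fun a b => (Φ.D (e, b) (Φ.D (e, a) u)).1 x
  have h3 : ∀ a b, s a b - s b a = ∑ c, F (e, a) (e, b) (e, c) * (Φ.D (e, c) u).1 x := fun a b => by
    rw [← hB.sum (e, a) e b fun k => (Φ.D k u).1 x]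
    simp only [s]
    rw [← R_sub, hL.comm, R_sum]
    rfl
  have h4 := hB.ric e fun c => (Φ.D (e, c) u).1 x
  simp only [← h3] at h4
  have h5 : ∑ a, ∑ b, (s a b - s b a) ^ 2 ≤ ∑ a, ∑ b, (2 * s a b ^ 2 + 2 * s b a ^ 2) :=
    Finset.sum_le_sum fun a _ => Finset.sum_le_sum fun b _ => by
      nlinarith [sq_nonneg (s a b + s b a)]
  simp only [Finset.sum_add_distrib, ← Finset.mul_sum] at h5
  rw [Finset.sum_comm (f := fun a b => s b a ^ 2)] at h5
  have h6 : ∑ a, ∑ b, s a b ^ 2 ≤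
      ∑ a, ∑ j, (Φ.D j (Φ.D (e, a) u)).1 x * (Φ.D j (Φ.D (e, a) u)).1 x := by
    refine Finset.sum_le_sum fun a _ => ?_
    rw [Fintype.sum_prod_type]
    simp only [s, sq]
    exact Finset.single_le_sum (f := fun e' => ∑ b, (Φ.D (e', b) (Φ.D (e, a) u)).1 x *
      (Φ.D (e', b) (Φ.D (e, a) u)).1 x)
      (fun e' _ => Finset.sum_nonneg fun b _ => mul_self_nonneg _) (Finset.mem_univ e)
  simp only [hL.D_Lg, R_add, R_smul, R_sum, R_mul, mul_add, Finset.sum_add_distrib,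
    mul_left_comm _ (2 : ℝ), ← Finset.mul_sum]
  rw [h2, W2_apply]
  linarith

/-- directional derivative in one block -/
noncomputable def Dv (e : E) (c : ι → ℝ) (φ : Φ.R) : Φ.R := ∑ b, c b • Φ.D (e, b) φ

/-- bound on the column sums of the Hessian -/
def HB (φ : Φ.R) (m : ℝ) : Prop :=
  ∀ (e0 : E) (x : E → Γ) (c : E → ι → ℝ), (∀ e, ∑ b, c e b ^ 2 ≤ 1) →
    ∑ e, √((W2 e (Dv e0 (c e) φ)).1 (x e)) ≤ m

lemma le_of_sum_le {Y : Type*} {q : E → Y → ℝ} {y : E → Y}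
    (h : ∀ y' : E → Y, ∑ e, q e (y' e) ≤ ∑ e, q e (y e)) (e : E) (p : Y) : q e p ≤ q e (y e) := by
  have := h (Function.update y e p)
  rw [← Finset.add_sum_erase _ _ (Finset.mem_univ e), ← Finset.add_sum_erase _ _ (Finset.mem_univ e),
    Function.update_self, Finset.sum_congr rfl fun e' he' => by
      rw [Function.update_of_ne (Finset.ne_of_mem_erase he')]] at this
  linarith

lemma touch {ρ m ε : ℝ} (hL : Lie Φ F) (hB : Blk F ρ) (hρ : 0 ≤ ρ) (hε : 0 < ε)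
    {φ : Φ.R} (hφ : HB φ m) {Y : Type*} (u : Y → Φ.R) (y : E → Γ × Y)
    (hy : ∀ y' : E → Γ × Y, ∑ e, √((W2 e (u (y' e).2)).1 (y' e).1 + ε ^ 2) ≤
      ∑ e, √((W2 e (u (y e).2)).1 (y e).1 + ε ^ 2)) :
    ∑ e, (∑ a, (Φ.D (e, a) (u (y e).2)).1 (y e).1 * (Φ.D (e, a) (Lg φ (u (y e).2))).1 (y e).1) /
      √((W2 e (u (y e).2)).1 (y e).1 + ε ^ 2) ≤
      (2 * m - ρ) * ∑ e, √((W2 e (u (y e).2)).1 (y e).1 + ε ^ 2) + ρ * (Fintype.card E * ε) := by
  have hmax : ∀ e (p : Γ × Y), (W2 e (u p.2)).1 p.1 ≤ (W2 e (u (y e).2)).1 (y e).1 := fun e p => by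
    have := le_of_sum_le (q := fun e (p : Γ × Y) => √((W2 e (u p.2)).1 p.1 + ε ^ 2)) hy e p
    have h0 := W2_nonneg e (u (y e).2) (y e).1
    rw [Real.sqrt_le_sqrt_iff (by positivity)] at this
    linarith
  set w : E → ℝ := fun e => (W2 e (u (y e).2)).1 (y e).1 with hw
  have w0 : ∀ e, 0 ≤ w e := fun e => W2_nonneg _ _ _
  have σ0 : ∀ e, 0 < √(w e + ε ^ 2) := fun e => Real.sqrt_pos.2 (by have := w0 e; positivity)
  have sσ : ∀ e, √(w e) ≤ √(w e + ε ^ 2) := fun e => Real.sqrt_le_sqrt (by nlinarith)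
  let c : E → E → ι → ℝ := fun e' e b => (Φ.D (e', b) (u (y e).2)).1 (y e).1 / √(w e')
  have hc1 : ∀ e' e, ∑ b, c e' e b ^ 2 ≤ 1 := fun e' e => by
    simp only [c, div_pow, ← Finset.sum_div, ← W2_apply, Real.sq_sqrt (w0 e')]
    exact div_le_one_of_le₀ (hmax e' (y e)) (w0 e')
  have hc2 : ∀ e' e b, (Φ.D (e', b) (u (y e).2)).1 (y e).1 = √(w e') * c e' e b := fun e' e b => by
    by_cases h : √(w e') = 0
    · have h1 := hmax e' (y e)
      rw [show (W2 e' (u (y e').2)).1 (y e').1 = 0 from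
        le_antisymm (Real.sqrt_eq_zero'.1 h) (w0 e'), W2_apply] at h1
      have h2 := Finset.single_le_sum (f := fun b => (Φ.D (e', b) (u (y e).2)).1 (y e).1 ^ 2)
        (fun _ _ => sq_nonneg _) (Finset.mem_univ b)
      rw [h, zero_mul]
      exact pow_eq_zero_iff two_ne_zero |>.1 (le_antisymm (h2.trans h1) (sq_nonneg _))
    · simp only [c]; field_simp
  have key : ∀ e, (∑ a, (Φ.D (e, a) (u (y e).2)).1 (y e).1 *
      (Φ.D (e, a) (Lg φ (u (y e).2))).1 (y e).1) / √(w e + ε ^ 2) ≤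
      -ρ * √(w e + ε ^ 2) + ρ * ε +
        2 * ∑ e', √(w e') * √((W2 e (Dv e' (c e' e) φ)).1 (y e).1) := fun e => by
    have h1 := bochner_max hL hB φ (u (y e).2) e fun z => hmax e (z, (y e).2)
    have h2 : ∑ a, (Φ.D (e, a) (u (y e).2)).1 (y e).1 *
        ∑ j, (Φ.D (e, a) (Φ.D j φ)).1 (y e).1 * (Φ.D j (u (y e).2)).1 (y e).1 ≤
        √(w e + ε ^ 2) * ∑ e', √(w e') * √((W2 e (Dv e' (c e' e) φ)).1 (y e).1) := by
      simp only [Fintype.sum_prod_type, Finset.mul_sum]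
      rw [Finset.sum_comm]
      refine Finset.sum_le_sum fun e' _ => ?_
      have h3 := Real.sum_mul_le_sqrt_mul_sqrt Finset.univ
        (fun a => (Φ.D (e, a) (u (y e).2)).1 (y e).1)
        (fun a => (Φ.D (e, a) (Dv e' (c e' e) φ)).1 (y e).1)
      rw [← W2_apply, ← W2_apply] at h3
      have h4 := mul_le_mul_of_nonneg_left (h3.trans
        (mul_le_mul_of_nonneg_right (sσ e) (Real.sqrt_nonneg _))) (Real.sqrt_nonneg (w e'))
      refine le_trans (le_of_eq ?_) (h4.trans (le_of_eq (by ring)))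
      simp only [Dv, map_sum, Derivation.map_smul, R_sum, R_smul, Finset.mul_sum]
      refine Finset.sum_congr rfl fun a _ => Finset.sum_congr rfl fun b _ => ?_
      rw [hc2 e' e b]
      ring
    rw [div_le_iff₀ (σ0 e)]
    have h5 : √(w e + ε ^ 2) * √(w e + ε ^ 2) = w e + ε ^ 2 :=
      Real.mul_self_sqrt (by have := w0 e; positivity)
    have h6 : ε ≤ √(w e + ε ^ 2) := Real.le_sqrt_of_sq_le (by linarith [w0 e])
    have h7 := mul_le_mul_of_nonneg_left (mul_le_mul_of_nonneg_left h6 hε.le) hρ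
    change _ ≤ -ρ * w e + _ at h1
    nlinarith
  refine (Finset.sum_le_sum fun e _ => key e).trans ?_
  simp only [Finset.sum_add_distrib, ← Finset.mul_sum, Finset.sum_const, Finset.card_univ,
    nsmul_eq_mul]
  rw [Finset.sum_comm]
  have h8 : ∑ e', ∑ e, √(w e') * √((W2 e (Dv e' (c e' e) φ)).1 (y e).1) ≤
      ∑ e', √(w e' + ε ^ 2) * m := Finset.sum_le_sum fun e' _ => by
    rw [← Finset.mul_sum]
    exact mul_le_mul (sσ e') (hφ e' (fun e => (y e).1) (c e') (hc1 e'))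
      (Finset.sum_nonneg fun _ _ => Real.sqrt_nonneg _) (σ0 e').le
  rw [← Finset.sum_mul] at h8
  change _ ≤ (2 * m - ρ) * ∑ e, √(w e + ε ^ 2) + _
  linarith

lemma hasDerivAt_sqrt_W2 {u u' : ℝ → Φ.R} (h : TD 1 u u') {ε : ℝ} (hε : 0 < ε) (e : E) (x : Γ)
    {t : ℝ} (ht : 0 < t) : HasDerivAt (fun s => √((W2 e (u s)).1 x + ε ^ 2))
      ((∑ a, (Φ.D (e, a) (u t)).1 x * (Φ.D (e, a) (u' t)).1 x) / √((W2 e (u t)).1 x + ε ^ 2)) t := by
  have h1 : HasDerivAt (fun s => (W2 e (u s)).1 x + ε ^ 2)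
      (2 * ∑ a, (Φ.D (e, a) (u t)).1 x * (Φ.D (e, a) (u' t)).1 x) t := by
    simp only [W2_apply]
    refine ((HasDerivAt.fun_sum fun a _ => ((h.2 (e, a)).2 t ht x).fun_pow 2).add_const
      _).congr_deriv ?_
    rw [Finset.mul_sum]
    exact Finset.sum_congr rfl fun a _ => by simp [mul_assoc]
  refine (h1.sqrt (by have := W2_nonneg e (u t) x; positivity)).congr_deriv ?_
  rw [mul_div_mul_left _ _ two_ne_zero]

end Flows

end Pool.Agent.Lib.MP_7f377f_mp.KS
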