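import Mathlib
import Pool.Agent.Lib.MP_7f377f_mp.KSBochner

open MeasureTheory Filter Topology

set_option linter.unusedSectionVars false

namespace Pool.Agent.Lib.MP_7f377f_mp.KS

namespace Flows

variable {Γ : Type} [Group Γ] [TopologicalSpace Γ] [CompactSpace Γ]
  {E ι : Type} [Fintype E] [Fintype ι] [DecidableEq E] {Φ : Flows Γ (E × ι)}
  {F : E × ι → E × ι → E × ι → ℝ}

lemma TD.Dv {k : ℕ} {u u' : ℝ → Φ.R} (h : TD (k + 1) u u') (e : E) (c : ι → ℝ) :
    TD k (fun t => Dv e c (u t)) (fun t => Dv e c (u' t)) :=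
  TD.sum Finset.univ fun b => (h.2 (e, b)).smul (c b)

/-- propagation of the Hessian bound along the viscous Hamilton-Jacobi flow -/
theorem hess_bound {ρ m h : ℝ} (hL : Lie Φ F) (hB : Blk F ρ) (hρ : 0 < ρ) (hm : 0 < m)
    {V : Φ.R} (hV : HB V h) (hmh : 2 * m ^ 2 + h < ρ * m) {φ : ℝ → Φ.R} (h0 : φ 0 = 0)
    (hφ : TD 2 φ fun t => Φ.Lap (φ t) + ∑ j, Φ.D j (φ t) * Φ.D j (φ t) - V) :
    ∀ t, 0 ≤ t → HB (φ t) m := by
  obtain ⟨ε, hε, hε1, hε2⟩ : ∃ ε : ℝ, 0 < ε ∧ Fintype.card E * ε < m ∧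
      ρ * (Fintype.card E * ε) < ρ * m - 2 * m ^ 2 - h := by
    have hc : Continuous fun ε : ℝ => (Fintype.card E : ℝ) * ε := by fun_prop
    have h1 := (hc.tendsto 0).eventually (gt_mem_nhds (by simpa using hm))
    have h2 := ((hc.const_mul ρ).tendsto 0).eventually
      (gt_mem_nhds (show _ < ρ * m - 2 * m ^ 2 - h by simp; linarith))
    exact ((h1.and h2).filter_mono (nhdsWithin_le_nhds (s := Set.Ioi 0))).and self_mem_nhdsWithin
      |>.exists.imp fun ε hh => ⟨hh.2, hh.1⟩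
  let B : Set (ι → ℝ) := {c | ∑ b, c b ^ 2 ≤ 1}
  have hBc : IsCompact B := by
    refine (isCompact_Icc (a := fun _ => -1) (b := fun _ => 1)).of_isClosed_subset
      (isClosed_le (by fun_prop) continuous_const) fun c hc => ?_
    have : ∀ b, |c b| ≤ 1 := fun b => (sq_le_one_iff_abs_le_one _).1
      ((Finset.single_le_sum (f := fun b => c b ^ 2) (fun _ _ => sq_nonneg _)
        (Finset.mem_univ b)).trans hc)
    exact ⟨fun b => (abs_le.1 (this b)).1, fun b => (abs_le.1 (this b)).2⟩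
  have : CompactSpace B := isCompact_iff_compactSpace.1 hBc
  let _ : TopologicalSpace E := ⊥
  have : DiscreteTopology E := ⟨rfl⟩
  have hHB : ∀ t, (∀ y : E × (E → Γ × B), ∑ e, √((W2 e (Dv y.1 (y.2 e).2.1 (φ t))).1 (y.2 e).1 +
      ε ^ 2) - m ≤ 0) → HB (φ t) m := fun t hz e0 x c hc => by
    refine le_trans (Finset.sum_le_sum fun e _ => Real.sqrt_le_sqrt ?_)
      (sub_nonpos.1 (hz (e0, fun e => (x e, ⟨c e, hc e⟩))))
    nlinarith
  have key := barrier (Y := E × (E → Γ × B))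
    (z := fun t y => ∑ e, √((W2 e (Dv y.1 (y.2 e).2.1 (φ t))).1 (y.2 e).1 + ε ^ 2) - m)
    (z' := fun t y => ∑ e, (∑ a, (Φ.D (e, a) (Dv y.1 (y.2 e).2.1 (φ t))).1 (y.2 e).1 *
      (Φ.D (e, a) (Dv y.1 (y.2 e).2.1
        (Φ.Lap (φ t) + ∑ j, Φ.D j (φ t) * Φ.D j (φ t) - V))).1 (y.2 e).1) /
        √((W2 e (Dv y.1 (y.2 e).2.1 (φ t))).1 (y.2 e).1 + ε ^ 2)) ?_ ?_ ?_ ?_
  · exact fun t ht => hHB t fun y => (key t ht y).le
  · refine Continuous.comp (g := fun q : E × ℝ × (E → Γ × B) =>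
      ∑ e, √((W2 e (Dv q.1 (q.2.2 e).2.1 (φ q.2.1))).1 (q.2.2 e).1 + ε ^ 2) - m)
      (f := fun p : ℝ × E × (E → Γ × B) => (p.2.1, p.1, p.2.2))
      (continuous_prod_of_discrete_left.2 fun e0 => ?_) (by fun_prop)
    simp only [W2_apply, Dv, map_sum, Derivation.map_smul, R_sum, R_smul]
    refine Continuous.sub (continuous_finsetSum _ fun e _ => Continuous.sqrt (Continuous.add
      (continuous_finsetSum _ fun a _ => Continuous.pow (continuous_finsetSum _ fun b _ =>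
        Continuous.mul ((continuous_apply b).comp (continuous_subtype_val.comp (by fun_prop))) ?_) 2)
        continuous_const)) continuous_const
    exact ((hφ.2 (e0, b)).2 (e, a)).1.comp
      (f := fun p : ℝ × (E → Γ × B) => (p.1, (p.2 e).1)) (by fun_prop)
  · intro y
    simp only [h0, Dv, W2, map_zero, smul_zero, Finset.sum_const_zero, mul_zero, R_zero, zero_add,
      Real.sqrt_sq hε.le, Finset.sum_const, Finset.card_univ, nsmul_eq_mul]
    linarith
  · intro t ht y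
    exact (HasDerivAt.fun_sum fun e _ => hasDerivAt_sqrt_W2 (hφ.Dv _ _) hε e _ ht).sub_const m
  · intro t ht hle y hy
    have h1 := touch hL hB hρ.le hε (hHB t hle) (fun c : B => Dv y.1 c.1 (φ t)) y.2
      fun y' => by linarith [hle (y.1, y')]
    have e1 : ∀ c, Dv y.1 c (Φ.Lap (φ t) + ∑ j, Φ.D j (φ t) * Φ.D j (φ t) - V) =
        Lg (φ t) (Dv y.1 c (φ t)) - Dv y.1 c V := fun c => by
      simp only [Dv, map_sub, hL.D_HJ, Lg_sum, Lg_smul, smul_sub, Finset.sum_sub_distrib]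
    have h2 := hV y.1 (fun e => (y.2 e).1) (fun e => (y.2 e).2.1) fun e => (y.2 e).2.2
    have h3 : ∀ e, -((∑ a, (Φ.D (e, a) (Dv y.1 (y.2 e).2.1 (φ t))).1 (y.2 e).1 *
        (Φ.D (e, a) (Dv y.1 (y.2 e).2.1 V)).1 (y.2 e).1) /
        √((W2 e (Dv y.1 (y.2 e).2.1 (φ t))).1 (y.2 e).1 + ε ^ 2)) ≤
        √((W2 e (Dv y.1 (y.2 e).2.1 V)).1 (y.2 e).1) := fun e => by
      have w0 := W2_nonneg e (Dv y.1 (y.2 e).2.1 (φ t)) (y.2 e).1
      rw [← neg_div, div_le_iff₀ (Real.sqrt_pos.2 (by positivity)), ← Finset.sum_neg_distrib]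
      have h3 := Real.sum_mul_le_sqrt_mul_sqrt Finset.univ
        (fun a => -(Φ.D (e, a) (Dv y.1 (y.2 e).2.1 V)).1 (y.2 e).1)
        (fun a => (Φ.D (e, a) (Dv y.1 (y.2 e).2.1 (φ t))).1 (y.2 e).1)
      simp only [neg_sq, ← W2_apply] at h3
      refine le_trans (le_of_eq (Finset.sum_congr rfl fun a _ => by ring)) (h3.trans ?_)
      exact mul_le_mul_of_nonneg_left (Real.sqrt_le_sqrt (by nlinarith)) (Real.sqrt_nonneg _)
    have h4 := Finset.sum_le_sum fun e (_ : e ∈ Finset.univ) => h3 e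
    rw [Finset.sum_neg_distrib] at h4
    simp only [e1, map_sub, R_sub, mul_sub, Finset.sum_sub_distrib, sub_div]
    rw [sub_eq_zero.1 hy] at h1
    linarith

/-- decay of gradients under the ground state dynamics -/
theorem grad_decay {ρ m K : ℝ} (hL : Lie Φ F) (hB : Blk F ρ) (hρ : 0 < ρ) (hK : K + 2 * m < ρ)
    (hK0 : 0 ≤ K) {φ r : ℝ → Φ.R} (hφ : ∀ t, 0 ≤ t → HB (φ t) m)
    (hr : TD 1 r fun t => Lg (φ t) (r t)) :
    ∃ C, 0 ≤ C ∧ ∀ t, 0 ≤ t → ∀ i x, |(Φ.D i (r t)).1 x| ≤ C * Real.exp (-(K * t)) := by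
  have hd : ∀ t, HasDerivAt (fun t => Real.exp (K * t)) (Real.exp (K * t) * K) t := fun t => by
    simpa using ((hasDerivAt_id t).const_mul K).exp
  have hu := hr.tsmul hd
  set u : ℝ → Φ.R := fun t => Real.exp (K * t) • r t with hu'
  have hu2 : TD 1 u fun t => K • u t + Lg (φ t) (u t) :=
    hu.congr2 (fun _ => rfl) fun t => by simp only [hu', Lg_smul, smul_smul, mul_comm K]
  obtain ⟨C, hC0, hC1, hC2⟩ : ∃ C : ℝ, 0 ≤ C ∧ ∑ e, √(‖(W2 e (u 0)).1‖ + 1 ^ 2) < C ∧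
      ρ * (Fintype.card E * 1) < (ρ - K - 2 * m) * C := by
    have h1 := eventually_gt_atTop (∑ e, √(‖(W2 e (u 0)).1‖ + 1 ^ 2))
    have h2 := (tendsto_id.const_mul_atTop (show 0 < ρ - K - 2 * m by linarith)).eventually
      (eventually_gt_atTop (ρ * (Fintype.card E * 1)))
    exact ((eventually_ge_atTop 0).and (h1.and h2)).exists
  have key := barrier (Y := E → Γ × Unit)
    (z := fun t y => ∑ e, √((W2 e (u t)).1 (y e).1 + 1 ^ 2) - C)
    (z' := fun t y => ∑ e, (∑ a, (Φ.D (e, a) (u t)).1 (y e).1 *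
      (Φ.D (e, a) (K • u t + Lg (φ t) (u t))).1 (y e).1) / √((W2 e (u t)).1 (y e).1 + 1 ^ 2))
    ?_ ?_ ?_ ?_
  · refine ⟨C, hC0, fun t ht i x => ?_⟩
    have h1 := key t ht fun _ => (x, ())
    have h2 := Finset.single_le_sum (f := fun e => √((W2 e (u t)).1 x + 1 ^ 2))
      (fun _ _ => Real.sqrt_nonneg _) (Finset.mem_univ i.1)
    have h3 := Finset.single_le_sum (f := fun a => (Φ.D (i.1, a) (u t)).1 x ^ 2)
      (fun _ _ => sq_nonneg _) (Finset.mem_univ i.2)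
    rw [← W2_apply] at h3
    have h4 : |(Φ.D i (u t)).1 x| ≤ √((W2 i.1 (u t)).1 x + 1 ^ 2) :=
      Real.abs_le_sqrt (by linarith)
    have h5 : |(Φ.D i (u t)).1 x| ≤ C := by linarith
    simp only [hu', Derivation.map_smul, R_smul, abs_mul, abs_of_pos (Real.exp_pos _)] at h5
    rwa [Real.exp_neg, ← div_eq_mul_inv, le_div_iff₀' (Real.exp_pos _)]
  · simp only [W2_apply]
    refine Continuous.sub (continuous_finsetSum _ fun e _ => Continuous.sqrt (Continuous.add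
      (continuous_finsetSum _ fun a _ => Continuous.pow ?_ 2) continuous_const)) continuous_const
    exact (hu2.2 (e, a)).1.comp (f := fun p : ℝ × (E → Γ × Unit) => (p.1, (p.2 e).1)) (by fun_prop)
  · intro y
    refine sub_neg.2 (lt_of_le_of_lt (Finset.sum_le_sum fun e _ => Real.sqrt_le_sqrt ?_) hC1)
    linarith [(le_abs_self _).trans ((W2 e (u 0)).1.norm_coe_le_norm (y e).1)]
  · intro t ht y
    exact (HasDerivAt.fun_sum fun e _ => hasDerivAt_sqrt_W2 hu2 one_pos e _ ht).sub_const C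
  · intro t ht hle y hy
    have h1 := touch hL hB hρ.le one_pos (hφ t ht.le) (fun _ : Unit => u t) y
      fun y' => by linarith [hle y']
    have h3 : ∀ e, (∑ a, (Φ.D (e, a) (u t)).1 (y e).1 * (K * (Φ.D (e, a) (u t)).1 (y e).1)) /
        √((W2 e (u t)).1 (y e).1 + 1 ^ 2) ≤ K * √((W2 e (u t)).1 (y e).1 + 1 ^ 2) := fun e => by
      have w0 := W2_nonneg e (u t) (y e).1
      rw [div_le_iff₀ (Real.sqrt_pos.2 (by positivity)), mul_assoc,
        Real.mul_self_sqrt (by positivity)]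
      simp only [mul_left_comm _ K, ← sq, ← Finset.mul_sum, ← W2_apply]
      exact mul_le_mul_of_nonneg_left (by linarith) hK0
    have h4 := Finset.sum_le_sum fun e (_ : e ∈ Finset.univ) => h3 e
    rw [← Finset.mul_sum] at h4
    simp only [map_add, Derivation.map_smul, R_add, R_smul, mul_add, Finset.sum_add_distrib,
      add_div]
    rw [sub_eq_zero.1 hy] at h1 h4
    linarith

end Flows

end Pool.Agent.Lib.MP_7f377f_mp.KS
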