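import Mathlib

open MeasureTheory

namespace Pool.Agent.Lib.MP_7f377f_mp.KS

/-- links `(x, i)` of the periodic lattice `(ℤ/L)^D`, from `x` to `x + e_i` -/
abbrev Link (D L : ℕ) : Type := (Fin D → ZMod L) × Fin D

variable {D L n : ℕ} {G ι : Type} [Group G]

/-- holonomy around the plaquette at `x` in the plane `i, j` -/
def plaq (U : Link D L → G) (x : Fin D → ZMod L) (i j : Fin D) : G :=
  U (x, i) * U (x + Pi.single i 1, j) * (U (x + Pi.single j 1, i))⁻¹ * (U (x, j))⁻¹

/-- gauge transformation -/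
def gauge (g : (Fin D → ZMod L) → G) (U : Link D L → G) : Link D L → G :=
  fun e => g e.1 * U e * (g (e.1 + Pi.single e.2 1))⁻¹

/-- derivative of a wave function when the link variable `U e` moves along `γ t * U e` -/
noncomputable def dir (γ : ℝ → G) (e : Link D L) (ψ : (Link D L → G) → ℂ) (U : Link D L → G) : ℂ :=
  deriv (fun t => ψ (Function.update U e (γ t * U e))) 0

/-- continuously differentiable wave functions -/
def IsC1 [TopologicalSpace G] (γ : ι → ℝ → G) (ψ : (Link D L → G) → ℂ) : Prop :=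
  Continuous ψ ∧ ∀ a e, Continuous (dir (γ a) e ψ) ∧
    ∀ U, DifferentiableAt ℝ (fun t => ψ (Function.update U e (γ a t * U e))) 0

/-- quadratic form of the Kogut-Susskind Hamiltonian `-Δ - k ∑ Re tr U_p` -/
noncomputable def energy [NeZero L] [Fintype ι] [MeasurableSpace G] (μ : Measure G)
    (π : G →* Matrix (Fin n) (Fin n) ℂ) (γ : ι → ℝ → G) (k : ℝ) (ψ : (Link D L → G) → ℂ) : ℝ :=
  ∫ U, (∑ e, ∑ a, ‖dir (γ a) e ψ U‖ ^ 2 -
    k * (∑ x, ∑ i, ∑ j ∈ Finset.Ioi i, (π (plaq U x i j)).trace.re) * ‖ψ U‖ ^ 2)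
      ∂Measure.pi fun _ => μ

end Pool.Agent.Lib.MP_7f377f_mp.KS
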