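import Mathlib
import Pool.Agent.Lib.MP_7f377f_mp.KSSmooth

open MeasureTheory Filter Topology

set_option linter.unusedSectionVars false

namespace Pool.Agent.Lib.MP_7f377f_mp.KS

open Flows

variable {Γ : Type} [Group Γ] [TopologicalSpace Γ] [IsTopologicalGroup Γ] [CompactSpace Γ]
  [T2Space Γ] [SecondCountableTopology Γ] [MeasurableSpace Γ] [BorelSpace Γ]
  {I : Type} [Fintype I]

/-- polynomial structure on a compact group with flows -/
structure Poly (Φ : Flows Γ I) (F : I → I → I → ℝ) where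
  P1 : Submodule ℝ Φ.R
  fin : FiniteDimensional ℝ P1
  one_mem : 1 ∈ P1
  inv : ∀ i, ∀ p ∈ P1, Φ.D i p ∈ P1
  comm : ∀ i j, ∀ p ∈ P1, Φ.D j (Φ.D i p) - Φ.D i (Φ.D j p) = ∑ k, F i j k • Φ.D k p
  κ : C(Γ, ℝ)
  κ_nonneg : ∀ y, 0 ≤ κ y
  κ_pos : 0 < κ 1
  κ_max : ∀ y, y ≠ 1 → κ y < κ 1
  κ_mem : ∀ y, ∃ p ∈ P1, ∀ x, p.1 x = κ (x⁻¹ * y)
  conn : ∀ x : Γ, ∃ (δ : ℝ → Γ) (c : I → ℝ), OneP δ ∧ δ 1 = x ∧
    ∀ p ∈ P1, HasD δ p.1 (∑ i, c i • Φ.D i p).1

namespace Poly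

variable {Φ : Flows Γ I} {F : I → I → I → ℝ} (P : Poly Φ F)

instance (n : ℕ) : FiniteDimensional ℝ (P.P1 ^ n : Submodule ℝ Φ.R) :=
  Module.Finite.iff_fg.2 (Submodule.FG.pow (Module.Finite.iff_fg.1 P.fin) n)

lemma pow_mono {n m : ℕ} (h : n ≤ m) : P.P1 ^ n ≤ P.P1 ^ m :=
  pow_le_pow_right' (Submodule.one_le.2 P.one_mem) h

lemma mul_mem_pow {n m : ℕ} {f g : Φ.R} (hf : f ∈ P.P1 ^ n) (hg : g ∈ P.P1 ^ m) :
    f * g ∈ P.P1 ^ (n + m) := by
  rw [pow_add]; exact Submodule.mul_mem_mul hf hg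

lemma D_mem_pow (i : I) {n : ℕ} {f : Φ.R} (hf : f ∈ P.P1 ^ n) : Φ.D i f ∈ P.P1 ^ n := by
  induction hf using Submodule.pow_induction_on_left' with
  | algebraMap r => simp
  | add x y i hx hy h1 h2 => rw [map_add]; exact add_mem h1 h2
  | mem_mul m hm i x hx h =>
    rw [D_mul, Nat.succ_eq_add_one, pow_succ']
    exact add_mem (Submodule.mul_mem_mul hm h)
      (by rw [mul_comm x]; exact Submodule.mul_mem_mul (P.inv _ _ hm) hx)

lemma comm_pow (i j : I) {n : ℕ} {f : Φ.R} (hf : f ∈ P.P1 ^ n) :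
    Φ.D j (Φ.D i f) - Φ.D i (Φ.D j f) = ∑ k, F i j k • Φ.D k f := by
  let d : Derivation ℝ Φ.R Φ.R := ⁅Φ.D j, Φ.D i⁆ - ∑ k, F i j k • Φ.D k
  have hd : ∀ f, d f = Φ.D j (Φ.D i f) - Φ.D i (Φ.D j f) - ∑ k, F i j k • Φ.D k f := fun f => by
    simp only [d, Derivation.sub_apply, Derivation.commutator_apply]
    congr 1
    induction (Finset.univ : Finset I) using Finset.cons_induction with
    | empty => simp
    | cons a s ha ih => rw [Finset.sum_cons, Finset.sum_cons, Derivation.add_apply, ih]; rfl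
  rw [← sub_eq_zero, ← hd]
  induction hf using Submodule.pow_induction_on_left' with
  | algebraMap r => simp
  | add x y i hx hy h1 h2 => rw [map_add, h1, h2, add_zero]
  | mem_mul m hm i x hx h =>
    rw [Derivation.leibniz, h, hd m, P.comm _ _ _ hm]
    simp

omit [IsTopologicalGroup Γ] in
lemma dir_pow {δ : ℝ → Γ} (hδ : OneP δ) {c : I → ℝ}
    (h : ∀ p ∈ P.P1, HasD δ p.1 (∑ i, c i • Φ.D i p).1) {n : ℕ} {f : Φ.R} (hf : f ∈ P.P1 ^ n) :
    HasD δ f.1 (∑ i, c i • Φ.D i f).1 := by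
  induction hf using Submodule.pow_induction_on_left' with
  | algebraMap r => simpa using hasD_const δ r
  | add x y i hx hy h1 h2 =>
    simp only [map_add, smul_add, Finset.sum_add_distrib]
    exact h1.add h2
  | mem_mul m hm i x hx h1 =>
    have e : ∑ i, c i • Φ.D i (m * x) = m * (∑ i, c i • Φ.D i x) + x * ∑ i, c i • Φ.D i m := by
      simp only [D_mul, smul_add, Finset.sum_add_distrib, Finset.mul_sum, mul_smul_comm]
    rw [e]
    exact (h m hm).mul hδ h1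

end Poly

/-- right translates -/
noncomputable def rt (f : C(Γ, ℝ)) : C(Γ, C(Γ, ℝ)) :=
  ContinuousMap.curry ⟨fun p => f (p.2 * p.1), by fun_prop⟩

@[simp] lemma rt_apply (f : C(Γ, ℝ)) (y x : Γ) : rt f y x = f (x * y) := rfl

lemma integrable_contE (μ : Measure Γ) [IsFiniteMeasure μ] {f : Γ → C(Γ, ℝ)} (hf : Continuous f) :
    Integrable f μ :=
  hf.integrable_of_hasCompactSupport (HasCompactSupport.of_compactSpace _)

namespace Poly

variable {Φ : Flows Γ I} {F : I → I → I → ℝ} (P : Poly Φ F)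
  (μ : Measure Γ) [IsProbabilityMeasure μ] [μ.IsHaarMeasure]

/-- smoothing operator -/
noncomputable def K (n : ℕ) (f : C(Γ, ℝ)) : C(Γ, ℝ) :=
  (∫ y, P.κ y ^ n ∂μ)⁻¹ • ∫ y, P.κ y ^ n • rt f y ∂μ

lemma K_apply (n : ℕ) (f : C(Γ, ℝ)) (x : Γ) :
    P.K μ n f x = (∫ y, P.κ y ^ n ∂μ)⁻¹ * ∫ y, P.κ y ^ n * f (x * y) ∂μ := by
  rw [K, ContinuousMap.smul_apply,
    ContinuousMap.integral_apply (integrable_contE μ (by fun_prop))]
  rfl

lemma K_tendsto (f : C(Γ, ℝ)) : Tendsto (fun n => P.K μ n f) atTop (𝓝 f) := by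
  have := tendsto_setIntegral_pow_smul_of_unique_maximum_of_isCompact_of_continuousOn (μ := μ)
    (g := rt f) (x₀ := 1) isCompact_univ P.κ.continuous.continuousOn
    (fun y _ hy => P.κ_max y hy) (fun y _ => P.κ_nonneg y) P.κ_pos (by simp)
    (rt f).continuous.continuousOn
  have e : rt f 1 = f := by ext x; simp
  rw [e] at this
  simpa only [Measure.restrict_univ, K] using this

lemma K_hasD (n : ℕ) {δ : ℝ → Γ} (hδ : OneP δ) {f f' : C(Γ, ℝ)} (h : HasD δ f f') :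
    HasD δ (P.K μ n f) (P.K μ n f') := fun x => by
  simp only [K_apply]
  refine HasDerivAt.const_mul _ ?_
  have hm : ∀ (G : C(Γ, ℝ)) (V : Γ), Continuous fun y => P.κ y ^ n * G (V * y) :=
    fun G V => by fun_prop
  have key := (hasDerivAt_integral_of_dominated_loc_of_deriv_le (μ := μ)
    (F := fun s y => P.κ y ^ n * f (δ s * x * y)) (F' := fun s y => P.κ y ^ n * f' (δ s * x * y))
    (x₀ := 0) (s := Set.univ) (bound := fun y => ‖P.κ y ^ n‖ * ‖f'‖) Filter.univ_mem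
    (Filter.Eventually.of_forall fun s => (hm f _).aestronglyMeasurable)
    (integrable_cont μ (hm f _)) (hm f' _).aestronglyMeasurable
    (Filter.Eventually.of_forall fun y s _ => by
      rw [norm_mul]
      exact mul_le_mul_of_nonneg_left (f'.norm_coe_le_norm _) (norm_nonneg _))
    (integrable_cont μ (by fun_prop))
    (Filter.Eventually.of_forall fun y s _ => by
      simp only [mul_assoc]
      exact (h.at hδ (x * y) s).const_mul _)).2
  simpa [hδ.zero] using key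

lemma K_mem (n : ℕ) (f : C(Γ, ℝ)) : ∃ p ∈ P.P1 ^ n, p.1 = P.K μ n f := by
  let k : C(Γ, C(Γ, ℝ)) := ContinuousMap.curry ⟨fun p => P.κ (p.2⁻¹ * p.1), by fun_prop⟩
  let W : Submodule ℝ C(Γ, ℝ) := (P.P1 ^ n).map Φ.A.val.toLinearMap
  have hW : ∫ w, f w • k w ^ n ∂μ ∈ W := by
    refine Convex.integral_mem (s := (W : Set C(Γ, ℝ))) W.convex W.closed_of_finiteDimensional
      (Eventually.of_forall fun w => W.smul_mem _ ?_) (integrable_contE μ (by fun_prop))
    obtain ⟨p, hp, h⟩ := P.κ_mem w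
    refine ⟨p ^ n, Submodule.pow_mem_pow _ hp n, ?_⟩
    ext x
    simp [h, k]
  obtain ⟨p, hp, h⟩ := W.smul_mem (∫ y, P.κ y ^ n ∂μ)⁻¹ hW
  refine ⟨p, hp, h.trans ?_⟩
  ext x
  rw [K_apply, ContinuousMap.smul_apply,
    ContinuousMap.integral_apply (integrable_contE μ (by fun_prop)), smul_eq_mul]
  congr 1
  rw [← integral_mul_left_eq_self _ x]
  simp [k, mul_comm]

/-- the smoothing as a polynomial -/
noncomputable def KR (n : ℕ) (f : C(Γ, ℝ)) : Φ.R := (P.K_mem μ n f).choose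

lemma KR_mem (n : ℕ) (f : C(Γ, ℝ)) : P.KR μ n f ∈ P.P1 ^ n := (P.K_mem μ n f).choose_spec.1

lemma KR_coe (n : ℕ) (f : C(Γ, ℝ)) : (P.KR μ n f).1 = P.K μ n f := (P.K_mem μ n f).choose_spec.2

lemma KR_tendsto (f : C(Γ, ℝ)) : Tendsto (fun n => (P.KR μ n f).1) atTop (𝓝 f) := by
  simpa only [KR_coe] using P.K_tendsto μ f

lemma D_KR (n : ℕ) {i : I} {f f' : C(Γ, ℝ)} (h : HasD (Φ.γ i) f f') :
    Φ.D i (P.KR μ n f) = P.KR μ n f' :=
  Φ.D_eq (by rw [KR_coe, KR_coe]; exact P.K_hasD μ n (Φ.one i) h)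

include P μ in
lemma comm_all (i j : I) (f : Φ.R) :
    Φ.D j (Φ.D i f) - Φ.D i (Φ.D j f) = ∑ k, F i j k • Φ.D k f := by
  have h : ∀ n, (P.KR μ n (Φ.D j (Φ.D i f)).1).1 - (P.KR μ n (Φ.D i (Φ.D j f)).1).1 =
      ∑ k, F i j k • (P.KR μ n (Φ.D k f).1).1 := fun n => by
    have := congrArg Subtype.val (P.comm_pow i j (P.KR_mem μ n f.1))
    simp only [P.D_KR μ n (Φ.hasD_D _ _)] at this
    simpa using this
  have h1 := (P.KR_tendsto μ (Φ.D j (Φ.D i f)).1).sub (P.KR_tendsto μ (Φ.D i (Φ.D j f)).1)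
  have h2 := tendsto_finsetSum Finset.univ fun k _ =>
    (P.KR_tendsto μ (Φ.D k f).1).const_smul (F i j k)
  simp only [h] at h1
  apply Subtype.ext
  simpa using tendsto_nhds_unique h1 h2

include μ in
lemma dir_all {δ : ℝ → Γ} (hδ : OneP δ) {c : I → ℝ}
    (h : ∀ p ∈ P.P1, HasD δ p.1 (∑ i, c i • Φ.D i p).1) {f : C(Γ, ℝ)} {f' : I → C(Γ, ℝ)}
    (hf : ∀ i, HasD (Φ.γ i) f (f' i)) : HasD δ f (∑ i, c i • f' i) := by
  refine HasD.of_tendsto hδ (fun n => P.dir_pow hδ h (P.KR_mem μ n f)) (P.KR_tendsto μ f) ?_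
  have h2 := tendsto_finsetSum Finset.univ fun k _ => (P.KR_tendsto μ (f' k)).const_smul (c k)
  simpa [P.D_KR μ _ (hf _)] using h2

include P μ in
lemma exists_lip : ∃ C : ℝ, 0 ≤ C ∧ ∀ (f : Φ.R) (b : ℝ), 0 ≤ b → (∀ i x, |(Φ.D i f).1 x| ≤ b) →
    ∀ x y, |f.1 x - f.1 y| ≤ C * b := by
  let Z : ℕ → Set Γ := fun j => {x | ∀ (f : Φ.R) (b : ℝ), 0 ≤ b → (∀ i y, |(Φ.D i f).1 y| ≤ b) →
    ∀ y, |f.1 (x * y) - f.1 y| ≤ j * b}
  have hcl : ∀ j, IsClosed (Z j) := fun j => by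
    simp only [Z, Set.ofPred_forall]
    exact isClosed_iInter fun f => isClosed_iInter fun b => isClosed_iInter fun _ =>
      isClosed_iInter fun _ => isClosed_iInter fun y => isClosed_le (by fun_prop) continuous_const
  have hall : ∀ x, ∃ j, x ∈ Z j := fun x => by
    obtain ⟨δ, c, hδ, h1, h⟩ := P.conn x
    obtain ⟨j, hj⟩ := exists_nat_ge (∑ i, |c i|)
    refine ⟨j, fun f b hb hf y => ?_⟩
    have hd := P.dir_all μ hδ h fun i => Φ.hasD_D i f
    have := norm_image_sub_le_of_norm_deriv_le_segment_01' (C := j * b)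
      (fun t _ => (hd.at hδ y t).hasDerivWithinAt) (fun t _ => by
        simp only [ContinuousMap.coe_sum, Finset.sum_apply, ContinuousMap.smul_apply, smul_eq_mul]
        refine (norm_sum_le _ _).trans (le_trans ?_ (mul_le_mul_of_nonneg_right hj hb))
        rw [Finset.sum_mul]
        refine Finset.sum_le_sum fun i _ => ?_
        rw [norm_mul]
        exact mul_le_mul_of_nonneg_left (hf i _) (norm_nonneg _))
    simpa [h1, hδ.zero] using this
  have hmul : ∀ j k x y, x ∈ Z j → y ∈ Z k → x * y ∈ Z (j + k) := fun j k x y hx hy f b hb hf z => by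
    have h1 := hx f b hb hf (y * z)
    have h2 := hy f b hb hf z
    rw [mul_assoc]
    push_cast
    have := abs_sub_le (f.1 (x * (y * z))) (f.1 (y * z)) (f.1 z)
    linarith
  have hmono : Monotone Z := fun j k hjk x hx f b hb hf y =>
    (hx f b hb hf y).trans (mul_le_mul_of_nonneg_right (by exact_mod_cast hjk) hb)
  obtain ⟨j, z, hz⟩ := nonempty_interior_of_iUnion_of_closed hcl
    (Set.eq_univ_of_forall fun x => Set.mem_iUnion.2 (hall x))
  obtain ⟨J, hJ⟩ := isCompact_univ.elim_directed_cover (fun k => interior (Z k))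
    (fun _ => isOpen_interior) (fun x _ => by
      obtain ⟨k, hk⟩ := hall (x * z⁻¹)
      refine Set.mem_iUnion.2 ⟨k + j, mem_interior_iff_mem_nhds.2 ?_⟩
      have h1 : Tendsto (fun w => (x * z⁻¹)⁻¹ * w) (𝓝 x) (𝓝 z) := by
        have : Continuous fun w => (x * z⁻¹)⁻¹ * w := by fun_prop
        simpa using this.tendsto x
      filter_upwards [h1 (mem_interior_iff_mem_nhds.1 hz)] with w hw
      have := hmul _ _ _ _ hk hw
      rwa [mul_inv_cancel_left] at this)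
    (Monotone.directed_le fun j k hjk => interior_mono (hmono hjk))
  refine ⟨J, by positivity, fun f b hb hf x y => ?_⟩
  simpa using interior_subset (hJ (Set.mem_univ (x * y⁻¹))) f b hb hf y

end Poly

end Pool.Agent.Lib.MP_7f377f_mp.KS
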