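import Mathlib
import Pool.Agent.Lib.MP_7f377f_mp.KSPoly
import Pool.Agent.Lib.MP_7f377f_mp.KSTime

open MeasureTheory Filter Topology

set_option linter.unusedSectionVars false

namespace Pool.Agent.Lib.MP_7f377f_mp.KS

open Flows

lemma exists_ode {W : Type*} [NormedAddCommGroup W] [NormedSpace ℝ W] [CompleteSpace W]
    (L : W →L[ℝ] W) {g : ℝ → W} (hg : Continuous g) (u0 : W) :
    ∃ u : ℝ → W, u 0 = u0 ∧ ∀ t, HasDerivAt u (L (u t) + g t) t := by
  let _ : NormedAlgebra ℚ (W →L[ℝ] W) := NormedAlgebra.restrictScalars ℚ ℝ _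
  have hc : Continuous fun s : ℝ => NormedSpace.exp (s • (-L)) (g s) :=
    (differentiable_exp_smul_const ℝ (-L)).continuous.clm_apply hg
  refine ⟨fun t => NormedSpace.exp (t • L) (u0 + ∫ s in (0 : ℝ)..t, NormedSpace.exp (s • (-L)) (g s)),
    by simp, fun t => ?_⟩
  refine ((hasDerivAt_exp_smul_const' L t).clm_apply
    ((hc.integral_hasStrictDerivAt 0 t).hasDerivAt.const_add u0)).congr_deriv ?_
  congr 1
  rw [← mul_apply_eq_comp, ← NormedSpace.exp_add_of_commute
    (((Commute.refl L).neg_right.smul_left t).smul_right t)]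
  simp

variable {Γ : Type} [Group Γ] [TopologicalSpace Γ] [IsTopologicalGroup Γ] [CompactSpace Γ]
  [T2Space Γ] [SecondCountableTopology Γ] [MeasurableSpace Γ] [BorelSpace Γ]
  {I : Type} [Fintype I] {Φ : Flows Γ I} {F : I → I → I → ℝ}

/-- solution of the imaginary-time Schroedinger equation -/
def Sol (V : Φ.R) (u : ℝ → Φ.R) : Prop := ∀ k, TD k u fun t => Φ.Lap (u t) - V * u t

lemma td_of_fin {W : Type} [NormedAddCommGroup W] [NormedSpace ℝ W] [FiniteDimensional ℝ W]
    (ι : W →ₗ[ℝ] Φ.R) (c : W →L[ℝ] C(Γ, ℝ))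
    (hι : ∀ w, (ι w).1 = c w) (d : I → W →ₗ[ℝ] W) (hd : ∀ i w, ι (d i w) = Φ.D i (ι w)) (k : ℕ) :
    ∀ {v v' : ℝ → W}, (∀ t, HasDerivAt v (v' t) t) →
    TD k (fun t => ι (v (max t 0))) (fun t => ι (v' (max t 0))) := by
  have h0 : ∀ {v v' : ℝ → W}, (∀ t, HasDerivAt v (v' t) t) →
      TD0 (fun t => ι (v (max t 0))) (fun t => ι (v' (max t 0))) := by
    intro v v' h
    have hc : Continuous v := continuous_iff_continuousAt.2 fun t => (h t).continuousAt
    simp only [TD0, hι]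
    refine ⟨by fun_prop, fun t ht x => ?_⟩
    have := ((ContinuousMap.evalCLM ℝ x).comp c).hasFDerivAt.comp_hasDerivAt t (h t)
    rw [max_eq_left ht.le]
    refine this.congr_of_eventuallyEq ?_
    filter_upwards [lt_mem_nhds ht] with s hs
    rw [max_eq_left hs.le]
    rfl
  induction k with
  | zero => exact h0
  | succ k ih =>
    intro v v' h
    refine ⟨h0 h, fun i => ?_⟩
    simp only [← hd]
    exact ih (v := fun t => d i (v t)) (v' := fun t => d i (v' t))
      fun t => (d i).toContinuousLinearMap.hasFDerivAt.comp_hasDerivAt t (h t)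

lemma exists_heat_aux {W : Submodule ℝ Φ.R} [FiniteDimensional ℝ W]
    (hW : ∀ i, ∀ f ∈ W, Φ.D i f ∈ W) {g : ℝ → Φ.R} (hg : ∀ t, g t ∈ W)
    (hc : Continuous fun t => (g t).1) {f : Φ.R} (hf : f ∈ W) :
    ∃ u : ℝ → Φ.R, u 0 = f ∧ (∀ t, u t ∈ W) ∧ (Continuous fun t => (u t).1) ∧
      ∀ k, TD k (fun t => u (max t 0)) fun t => Φ.Lap (u (max t 0)) + g (max t 0) := by
  let W' : Submodule ℝ C(Γ, ℝ) := W.map Φ.A.val.toLinearMap
  let e : W ≃ₗ[ℝ] W' := W.equivMapOfInjective Φ.A.val.toLinearMap Subtype.val_injective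
  let ι : W' →ₗ[ℝ] Φ.R := W.subtype ∘ₗ e.symm.toLinearMap
  have he : ∀ w : W, ι (e w) = w.1 := fun w => by simp [ι]
  have hι : ∀ w, (ι w).1 = w.1 := fun w => by
    obtain ⟨w, rfl⟩ := e.surjective w
    rw [he]; rfl
  let d : I → W' →ₗ[ℝ] W' := fun i =>
    e.toLinearMap ∘ₗ (Φ.D i).toLinearMap.restrict (hW i) ∘ₗ e.symm.toLinearMap
  have hd : ∀ i w, ι (d i w) = Φ.D i (ι w) := fun i w => he _
  have : CompleteSpace W' := FiniteDimensional.complete ℝ _
  obtain ⟨v, h0, hv⟩ := exists_ode (∑ i, d i ∘ₗ d i).toContinuousLinearMap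
    (g := fun t => e ⟨g t, hg t⟩) (hc.subtype_mk _) (e ⟨f, hf⟩)
  have hcv : Continuous v := continuous_iff_continuousAt.2 fun t => (hv t).continuousAt
  refine ⟨fun t => ι (v t), by simp only [h0, he], fun t => (e.symm (v t)).2, ?_,
    fun k => (td_of_fin ι W'.subtypeL hι d hd k hv).congr2 (fun _ => rfl) fun t => ?_⟩
  · simp only [hι]; fun_prop
  · simp [he, hd, Lap_apply]

namespace Poly

variable (P : Poly Φ F)

lemma exists_heat {n : ℕ} {g : ℝ → Φ.R} (hg : ∀ t, g t ∈ P.P1 ^ n)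
    (hc : Continuous fun t => (g t).1) {f : Φ.R} (hf : f ∈ P.P1 ^ n) :
    ∃ u : ℝ → Φ.R, u 0 = f ∧ (∀ t, u t ∈ P.P1 ^ n) ∧ (Continuous fun t => (u t).1) ∧
      ∀ k, TD k (fun t => u (max t 0)) fun t => Φ.Lap (u (max t 0)) + g (max t 0) :=
  exists_heat_aux (fun i _ hf => P.D_mem_pow i hf) hg hc hf

theorem exists_sol (hL : Lie Φ F) {V f : Φ.R} {n m : ℕ} (hV : V ∈ P.P1 ^ n) (hf : f ∈ P.P1 ^ m) :
    ∃ u : ℝ → Φ.R, u 0 = f ∧ Sol V u := by
  let St := {p : ℕ × (ℝ → Φ.R) // (∀ t, p.2 t ∈ P.P1 ^ p.1) ∧ Continuous fun t => (p.2 t).1}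
  have step : ∀ s : St, ∃ s' : St, s'.1.2 0 = 0 ∧ ∀ k, TD k (fun t => s'.1.2 (max t 0))
      fun t => Φ.Lap (s'.1.2 (max t 0)) + -(V * s.1.2 (max t 0)) := fun s => by
    obtain ⟨u, h0, h1, h2, h3⟩ := P.exists_heat (g := fun t => -(V * s.1.2 t))
      (fun t => neg_mem (P.mul_mem_pow hV (s.2.1 t))) (continuous_const.mul s.2.2).neg (zero_mem _)
    exact ⟨⟨(_, u), h1, h2⟩, h0, h3⟩
  choose nxt hn0 hn using step
  obtain ⟨u0, h0, h1, h2, h3⟩ := P.exists_heat (g := fun _ => 0) (fun _ => zero_mem _)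
    continuous_const hf
  let sq : ℕ → St := fun j => Nat.rec ⟨(m, u0), h1, h2⟩ (fun _ s => nxt s) j
  let u : ℕ → ℝ → Φ.R := fun j t => (sq j).1.2 (max t 0)
  let g : ℕ → ℝ → Φ.R := fun j t => Nat.rec 0 (fun j _ => -(V * u j t)) j
  have hu : ∀ j k, TD k (u j) fun t => Φ.Lap (u j t) + g j t := fun j k => by
    cases j with
    | zero => exact h3 k
    | succ j => exact hn (sq j) k
  have hb : ∀ k, ∃ c C : ℝ, 0 ≤ c ∧ 0 ≤ C ∧ ∀ j t, 0 ≤ t →
      Bd k (u j t) (c * ((C * t) ^ j / j.factorial)) := fun k => by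
    obtain ⟨c, hc⟩ := exists_bd k f
    obtain ⟨C, hC, h⟩ := exists_bd_mul k V
    refine ⟨c, C, hc.nonneg, hC, fun j => ?_⟩
    induction j with
    | zero =>
      simp only [pow_zero, Nat.factorial_zero, Nat.cast_one, div_one, mul_one]
      refine heat_bd hL (fun t => hasDerivAt_const t c) k (hu 0 k) ?_ fun t _ => Bd.zero k
      simpa [u, sq, h0] using hc
    | succ j ih =>
      refine heat_bd hL (b' := fun t => C * (c * ((C * t) ^ j / j.factorial))) (fun t => ?_) k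
        (hu (j + 1) k) ?_ fun t ht => (h _ _ (ih t ht.le)).neg
      · refine (((((hasDerivAt_id t).const_mul C).fun_pow (j + 1)).div_const _).const_mul
          c).congr_deriv ?_
        rw [Nat.factorial_succ]
        push_cast
        field_simp
        simp
      · have : u (j + 1) 0 = 0 := by simpa [u, sq] using hn0 (sq j)
        rw [this]
        simpa using Bd.zero k
  have hl : LSB u := fun T k => by
    obtain ⟨c, C, hc, hC, h⟩ := hb k
    refine ⟨_, (Real.summable_pow_div_factorial (C * max T 0)).mul_left c, fun j t ht => ?_⟩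
    have := h j (max t 0) (le_max_right _ _)
    have e : u j (max t 0) = u j t := by simp [u]
    rw [e] at this
    refine this.mono ?_
    have : max t 0 ≤ max T 0 := max_le_max_right 0 ht
    have : 0 ≤ max t 0 := le_max_right _ _
    gcongr
  have hl' : LSB fun j t => Φ.Lap (u j t) + g j t := fun T k => by
    obtain ⟨c, hc, h⟩ := hl T (k + 2)
    obtain ⟨C, hC, h'⟩ := exists_bd_mul k V
    let d : ℕ → ℝ := fun j => Nat.rec 0 (fun j _ => C * c j) j
    have hd : Summable d := (summable_nat_add_iff 1).1 (hc.mul_left C)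
    refine ⟨fun j => Fintype.card I * c j + d j, (hc.mul_left _).add hd, fun j t ht => ?_⟩
    refine (h j t ht).lap.add ?_
    cases j with
    | zero => exact Bd.zero k
    | succ j => exact (h' _ _ (h j t ht).pred.pred).neg
  choose U hU using fun t => (hl.sb t).exists_sum
  refine ⟨U, Subtype.ext ((hU 0).unique ?_), fun k => TD.tsum k (fun j => hu j k) hl hl' hU fun t => ?_⟩
  · have e : u 0 0 = f := by simpa [u, sq] using h0
    rw [← e]
    refine hasSum_single 0 fun j hj => ?_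
    obtain ⟨j, rfl⟩ := Nat.exists_eq_succ_of_ne_zero hj
    have : u (j + 1) 0 = 0 := by simpa [u, sq] using hn0 (sq j)
    rw [this]; rfl
  · have a1 : HasSum (fun j => (Φ.Lap (u j t)).1) (Φ.Lap (U t)).1 := by
      simp only [Lap_apply, AddSubmonoidClass.coe_finsetSum]
      exact hasSum_sum fun i _ => ((hl.sb t).D i).hasSum_D ((hl.sb t).hasSum_D (hU t) i) i
    have a2 : HasSum (fun j => (g j t).1) (-(V * U t)).1 := by
      rw [← hasSum_nat_add_iff' 1]
      simpa [g] using ((hU t).mul_left V.1).neg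
    rw [sub_eq_add_neg]
    exact a1.add a2

end Poly

lemma Sol.deriv {V : Φ.R} {u : ℝ → Φ.R} (h : Sol V u) :
    Sol V fun t => Φ.Lap (u t) - V * u t := fun k =>
  ((h (k + 2)).lap.sub ((TD.const k V).mul (h k))).congr2 (fun _ => rfl) fun t => by simp

lemma Sol.pos {V : Φ.R} {S : ℝ → Φ.R} (h : Sol V S) (h0 : S 0 = 1) :
    ∀ t, 0 ≤ t → ∀ x, 0 < (S t).1 x := by
  intro t ht x
  have := barrier (z := fun s x => Real.exp (-((‖V.1‖ + 1) * s)) / 2 - (S s).1 x)
    (z' := fun s x => Real.exp (-((‖V.1‖ + 1) * s)) * (-(‖V.1‖ + 1)) / 2 -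
      (Φ.Lap (S s) - V * S s).1 x)
    (Continuous.sub (by fun_prop) (h 0).1) (fun y => by simp [h0]; norm_num)
    (fun s hs y => HasDerivAt.fun_sub (by
      simpa using (((hasDerivAt_id s).const_mul (‖V.1‖ + 1)).fun_neg.exp).div_const 2)
      ((h 0).2 s hs y))
    (fun s hs hle y hy => by
      have h1 := Φ.Lap_max (f := -S s) (x := y) fun w => by
        simp only [R_neg]; linarith [hle w]
      rw [map_neg, R_neg] at h1
      have h2 := Real.exp_pos (-((‖V.1‖ + 1) * s))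
      have h3 := (le_abs_self _).trans (V.1.norm_coe_le_norm y)
      have h4 : (S s).1 y = Real.exp (-((‖V.1‖ + 1) * s)) / 2 := by linarith
      rw [R_sub, Flows.R_mul, h4]
      nlinarith) t ht x
  linarith [Real.exp_pos (-((‖V.1‖ + 1) * t))]

end Pool.Agent.Lib.MP_7f377f_mp.KS
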