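import Mathlib
import Pool.Agent.Lib.MP_7f377f_mp.KSTime

open MeasureTheory Filter Topology

set_option linter.unusedSectionVars false

namespace Pool.Agent.Lib.MP_7f377f_mp.KS

open Flows

lemma mono_of_deriv {f f' : ℝ → ℝ} (hc : Continuous f) (hd : ∀ t, 0 < t → HasDerivAt f (f' t) t)
    (h : ∀ t, 0 < t → 0 ≤ f' t) {s t : ℝ} (hs : 0 ≤ s) (hst : s ≤ t) : f s ≤ f t :=
  monotoneOn_of_hasDerivWithinAt_nonneg (convex_Ici 0) hc.continuousOn
    (fun x hx => (hd x (by simpa using hx)).hasDerivWithinAt)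
    (fun x hx => h x (by simpa using hx)) hs (hs.trans hst) hst

lemma hasDerivAt_exp_mul (a t : ℝ) :
    HasDerivAt (fun t => Real.exp (a * t)) (Real.exp (a * t) * a) t := by
  simpa using ((hasDerivAt_id t).const_mul a).exp

lemma exp_ode {f : ℝ → ℝ} {a : ℝ} (hc : Continuous f)
    (hd : ∀ t, 0 < t → HasDerivAt f (-a * f t) t) {t : ℝ} (ht : 0 ≤ t) :
    f t = Real.exp (-(a * t)) * f 0 := by
  have hd' : ∀ t, 0 < t → HasDerivAt (fun t => Real.exp (a * t) * f t) 0 t := fun t ht =>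
    ((hasDerivAt_exp_mul a t).fun_mul (hd t ht)).congr_deriv (by ring)
  have h1 := mono_of_deriv (by fun_prop) hd' (fun _ _ => le_rfl) le_rfl ht
  have h2 := mono_of_deriv (by fun_prop) (fun t ht => (hd' t ht).fun_neg) (fun _ _ => by simp)
    le_rfl ht
  simp only [mul_zero, Real.exp_zero, one_mul] at h1 h2
  rw [Real.exp_neg, eq_inv_mul_iff_mul_eq₀ (Real.exp_pos _).ne']
  linarith

/-- the logarithmic convexity argument -/
lemma gap_ode {N Q P : ℝ → ℝ} {l C : ℝ} (hN : Continuous N) (hQ : Continuous Q)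
    (hN' : ∀ t, 0 < t → HasDerivAt N (-2 * Q t) t) (hQ' : ∀ t, 0 < t → HasDerivAt Q (-2 * P t) t)
    (hP : ∀ t, 0 < t → 0 ≤ P t - 2 * l * Q t + l ^ 2 * N t) (h0 : 0 ≤ N 0)
    (hb : ∀ t, 0 ≤ t → N t ≤ C * Real.exp (-(2 * l * t))) : l * N 0 ≤ Q 0 := by
  by_contra hcon
  have hδ : 0 < l * N 0 - Q 0 := by linarith
  have h1 : ∀ t, 0 ≤ t → l * N 0 - Q 0 ≤ Real.exp (2 * l * t) * (l * N t - Q t) := fun t ht => by
    have := mono_of_deriv (f := fun t => Real.exp (2 * l * t) * (l * N t - Q t)) (by fun_prop)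
      (fun t ht => (hasDerivAt_exp_mul (2 * l) t).fun_mul
        (((hN' t ht).const_mul l).fun_sub (hQ' t ht)))
      (fun t ht => by nlinarith [mul_nonneg (Real.exp_pos (2 * l * t)).le (hP t ht)]) le_rfl ht
    simpa using this
  have h2 : ∀ t, 0 ≤ t → N 0 ≤ Real.exp (2 * l * t) * N t - 2 * (l * N 0 - Q 0) * t :=
    fun t ht => by
    have := mono_of_deriv (f := fun t => Real.exp (2 * l * t) * N t - 2 * (l * N 0 - Q 0) * t)
      (by fun_prop)
      (fun t ht => ((hasDerivAt_exp_mul (2 * l) t).fun_mul (hN' t ht)).fun_sub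
        ((hasDerivAt_id t).const_mul _))
      (fun t ht => by nlinarith [h1 t ht.le]) le_rfl ht
    simpa using this
  have ht : 0 ≤ (|C| + 1) / (2 * (l * N 0 - Q 0)) := by positivity
  have h3 := h2 _ ht
  have h4 := mul_le_mul_of_nonneg_left (hb _ ht) (Real.exp_pos (2 * l *
    ((|C| + 1) / (2 * (l * N 0 - Q 0))))).le
  rw [mul_left_comm, ← Real.exp_add, add_neg_cancel, Real.exp_zero, mul_one] at h4
  rw [mul_div_cancel₀ _ (by positivity)] at h3
  linarith [le_abs_self C]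

lemma abs_exp_sub_le {a b M : ℝ} (ha : a ≤ M) (hb : b ≤ M) :
    |Real.exp a - Real.exp b| ≤ Real.exp M * |a - b| := by
  wlog h : b ≤ a generalizing a b
  · rw [abs_sub_comm, abs_sub_comm a]; exact this hb ha (le_of_not_ge h)
  rw [abs_of_nonneg (sub_nonneg.2 (Real.exp_le_exp.2 h)), abs_of_nonneg (sub_nonneg.2 h)]
  have h1 := mul_le_mul_of_nonneg_left (Real.add_one_le_exp (b - a)) (Real.exp_pos a).le
  rw [← Real.exp_add, add_sub_cancel] at h1
  have := mul_le_mul_of_nonneg_right (Real.exp_le_exp.2 ha) (sub_nonneg.2 h)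
  linarith

variable {Γ : Type} [TopologicalSpace Γ] [CompactSpace Γ]

lemma exists_lim {y : ℝ → C(Γ, ℝ)} {y' : ℝ → Γ → ℝ} {C K : ℝ} (hC : 0 ≤ C) (hK : 0 < K)
    (hc : ∀ x, Continuous fun t => y t x)
    (hd : ∀ t, 0 < t → ∀ x, HasDerivAt (fun s => y s x) (y' t x) t)
    (hb : ∀ t, 0 < t → ∀ x, |y' t x| ≤ C * Real.exp (-(K * t))) :
    ∃ z : C(Γ, ℝ), (∀ t, 0 ≤ t → ‖y t - z‖ ≤ C / K * Real.exp (-(K * t))) ∧
      Tendsto y atTop (𝓝 z) := by
  have he : ∀ t, HasDerivAt (fun t => C / K * Real.exp (-(K * t))) (-(C * Real.exp (-(K * t)))) t :=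
    fun t => by
    refine (((hasDerivAt_id t).const_mul K).fun_neg.exp.const_mul (C / K)).congr_deriv ?_
    simp only [id]
    field_simp
  have h1 : ∀ s t, 0 ≤ s → s ≤ t → ‖y s - y t‖ ≤ C / K * Real.exp (-(K * s)) := by
    intro s t hs hst
    refine (ContinuousMap.norm_le _ (by positivity)).2 fun x => ?_
    have a1 := mono_of_deriv (f := fun t => y t x - C / K * Real.exp (-(K * t)))
      ((hc x).sub (by fun_prop)) (fun t ht => (hd t ht x).fun_sub (he t))
      (fun t ht => by linarith [(abs_le.1 (hb t ht x)).1]) hs hst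
    have a2 := mono_of_deriv (f := fun t => -y t x - C / K * Real.exp (-(K * t)))
      ((hc x).neg.sub (by fun_prop)) (fun t ht => (hd t ht x).fun_neg.fun_sub (he t))
      (fun t ht => by linarith [(abs_le.1 (hb t ht x)).2]) hs hst
    have : 0 ≤ C / K * Real.exp (-(K * t)) := by positivity
    rw [ContinuousMap.sub_apply, Real.norm_eq_abs, abs_le]
    constructor <;> linarith
  have h2 : Tendsto (fun t => C / K * Real.exp (-(K * t))) atTop (𝓝 0) := by
    simpa using (Real.tendsto_exp_neg_atTop_nhds_zero.comp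
      (tendsto_id.const_mul_atTop hK)).const_mul (C / K)
  have h3 : CauchySeq y := by
    refine Metric.cauchySeq_iff'.2 fun ε hε => ?_
    obtain ⟨N, hN⟩ := ((h2.eventually (gt_mem_nhds hε)).and (eventually_ge_atTop 0)).exists
    exact ⟨N, fun n hn => by rw [dist_comm, dist_eq_norm]; exact (h1 N n hN.2 hn).trans_lt hN.1⟩
  obtain ⟨z, hz⟩ := cauchySeq_tendsto_of_complete h3
  refine ⟨z, fun t ht => le_of_tendsto (hz.const_sub (y t)).norm ?_, hz⟩
  filter_upwards [eventually_ge_atTop t] with s hs using h1 t s ht hs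

variable [MeasurableSpace Γ] [BorelSpace Γ] (μ : Measure Γ) [IsProbabilityMeasure μ]

/-- integration of continuous functions -/
noncomputable def In : C(Γ, ℝ) →L[ℝ] ℝ :=
  LinearMap.mkContinuous
    { toFun := fun f => ∫ x, f x ∂μ
      map_add' := fun f g => integral_add (integrable_cont μ f.continuous)
        (integrable_cont μ g.continuous)
      map_smul' := fun c f => integral_const_mul c f } 1 fun f => by
    simpa using norm_integral_le_of_norm_le_const (μ := μ)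
      (Eventually.of_forall f.norm_coe_le_norm)

lemma In_apply (f : C(Γ, ℝ)) : In μ f = ∫ x, f x ∂μ := rfl

lemma In_nonneg {f : C(Γ, ℝ)} (h : ∀ x, 0 ≤ f x) : 0 ≤ In μ f := integral_nonneg h

lemma In_mono {f g : C(Γ, ℝ)} (h : ∀ x, f x ≤ g x) : In μ f ≤ In μ g :=
  integral_mono (integrable_cont μ f.continuous) (integrable_cont μ g.continuous) h

lemma In_le_const {f : C(Γ, ℝ)} {c : ℝ} (h : ∀ x, f x ≤ c) : In μ f ≤ c := by
  simpa [In_apply] using In_mono μ (g := ContinuousMap.const Γ c) h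

lemma In_pos {f : C(Γ, ℝ)} (h : ∀ x, 0 < f x) : 0 < In μ f := by
  rw [In_apply, integral_pos_iff_support_of_nonneg (fun x => (h x).le)
    (integrable_cont μ f.continuous),
    Set.eq_univ_of_forall (s := Function.support f) fun x => (h x).ne']
  simp

lemma In_proj_le {Ω : C(Γ, ℝ)} (h : In μ (Ω * Ω) = 1) (v : C(Γ, ℝ)) (a : ℝ) :
    In μ (v * v) - In μ (v * Ω) ^ 2 ≤ In μ ((v - a • Ω) * (v - a • Ω)) ∧
      0 ≤ In μ (v * v) - In μ (v * Ω) ^ 2 := by
  have key : ∀ a : ℝ, In μ ((v - a • Ω) * (v - a • Ω)) =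
      In μ (v * v) - 2 * a * In μ (v * Ω) + a ^ 2 := fun a => by
    simp only [mul_sub, sub_mul, mul_smul_comm, smul_mul_assoc, map_sub, map_smul, smul_eq_mul, h,
      mul_comm Ω v]
    ring
  have h1 := In_nonneg μ (f := (v - In μ (v * Ω) • Ω) * (v - In μ (v * Ω) • Ω))
    fun x => mul_self_nonneg _
  rw [key] at h1 ⊢
  constructor <;> nlinarith [sq_nonneg (a - In μ (v * Ω))]

variable [Group Γ] {I : Type} [Fintype I] {Φ : Flows Γ I}

lemma cont_curve {u : ℝ → Φ.R} (h : Continuous fun p : ℝ × Γ => (u p.1).1 p.2) :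
    Continuous fun t => (u t).1 := ContinuousMap.continuous_of_continuous_uncurry _ h

lemma hasDerivAt_In {u u' : ℝ → Φ.R} (h : TD0 u u')
    (h' : Continuous fun p : ℝ × Γ => (u' p.1).1 p.2) (G : C(Γ, ℝ)) {t : ℝ} (ht : 0 < t) :
    HasDerivAt (fun s => In μ ((u s).1 * G)) (In μ ((u' t).1 * G)) t := by
  obtain ⟨M, hM⟩ := (isCompact_Icc (a := 0) (b := t + 1)).exists_bound_of_continuousOn
    ((cont_curve h').mul (continuous_const (y := G))).continuousOn
  exact (hasDerivAt_integral_of_dominated_loc_of_deriv_le (μ := μ)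
    (F := fun s x => ((u s).1 * G) x) (F' := fun s x => ((u' s).1 * G) x) (x₀ := t)
    (s := Set.Ioo 0 (t + 1)) (bound := fun _ => M) (Ioo_mem_nhds ht (by linarith))
    (Eventually.of_forall fun s => ((u s).1 * G).continuous.aestronglyMeasurable)
    (integrable_cont μ ((u t).1 * G).continuous) ((u' t).1 * G).continuous.aestronglyMeasurable
    (Eventually.of_forall fun x s hs =>
      (ContinuousMap.norm_coe_le_norm _ x).trans (hM s ⟨hs.1.le, hs.2.le⟩))
    (integrable_const _)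
    (Eventually.of_forall fun x s hs => (h.2 s hs.1 x).mul_const _)).2

variable [IsTopologicalGroup Γ] [μ.IsMulLeftInvariant]

lemma In_ibp {δ : ℝ → Γ} (hδ : OneP δ) {f f' g g' : C(Γ, ℝ)} (hf : HasD δ f f')
    (hg : HasD δ g g') : In μ (f' * g) = -In μ (f * g') := by
  have := (hf.mul hδ hg).integral_eq_zero μ hδ
  rw [← In_apply, map_add, mul_comm g] at this
  linarith

lemma In_lap (f : Φ.R) {g : C(Γ, ℝ)} {g' : I → C(Γ, ℝ)} (hg : ∀ i, HasD (Φ.γ i) g (g' i)) :
    In μ ((Φ.Lap f).1 * g) = -In μ (∑ i, (Φ.D i f).1 * g' i) := by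
  rw [Lap_apply, AddSubmonoidClass.coe_finsetSum, Finset.sum_mul, map_sum, map_sum,
    ← Finset.sum_neg_distrib]
  exact Finset.sum_congr rfl fun i _ => In_ibp μ (Φ.one i) (Φ.hasD_D i _) (hg i)

lemma In_symm (V f g : Φ.R) :
    In μ ((Φ.Lap f - V * f).1 * g.1) = In μ (f.1 * (Φ.Lap g - V * g).1) := by
  have h1 := In_lap μ f (Φ.hasD_D · g)
  have h2 := In_lap μ g (Φ.hasD_D · f)
  simp only [mul_comm (Φ.D _ g).1] at h2
  push_cast
  rw [sub_mul, mul_sub, map_sub, map_sub, h1, mul_comm f.1 (Φ.Lap g).1, h2]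
  congr 2
  ring

end Pool.Agent.Lib.MP_7f377f_mp.KS
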