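import Mathlib
import Pool.Agent.Lib.MP_7f377f_mp.KSHeat
import Pool.Agent.Lib.MP_7f377f_mp.KSDecay
import Pool.Agent.Lib.MP_7f377f_mp.KSInt

open MeasureTheory Filter Topology

set_option linter.unusedSectionVars false

namespace Pool.Agent.Lib.MP_7f377f_mp.KS

open Flows

variable {Γ : Type} [Group Γ] [TopologicalSpace Γ] [IsTopologicalGroup Γ] [CompactSpace Γ]
  [T2Space Γ] [SecondCountableTopology Γ] [MeasurableSpace Γ] [BorelSpace Γ]

section General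
variable {I : Type} [Fintype I] {Φ : Flows Γ I} {F : I → I → I → ℝ}

/-- the positive solution with its inverse and logarithm -/
structure Pos (V : Φ.R) (S g φ : ℝ → Φ.R) : Prop where
  sol : Sol V S
  zero : S 0 = 1
  pos : ∀ t x, 0 < (S t).1 x
  inv : ∀ t, g t * S t = 1
  log : ∀ t x, (φ t).1 x = Real.log ((S t).1 x)
  Dg : ∀ t i, Φ.D i (g t) = -(g t * g t * Φ.D i (S t))
  Dφ : ∀ t i, Φ.D i (φ t) = g t * Φ.D i (S t)
  tg : ∀ k, TD k g fun t => -(g t * g t * (Φ.Lap (S t) - V * S t))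
  tφ : ∀ k, TD k φ fun t => g t * (Φ.Lap (S t) - V * S t)

lemma Poly.exists_pos (P : Poly Φ F) (hL : Lie Φ F) {V : Φ.R} {n : ℕ} (hV : V ∈ P.P1 ^ n) :
    ∃ S g φ, Pos V S g φ := by
  obtain ⟨S, h0, hS⟩ := P.exists_sol hL hV (m := 0) (f := 1) (by simp)
  have hS' : Sol V fun t => S (max t 0) := fun k => (hS k).clamp
  have hp : ∀ t x, 0 < (S (max t 0)).1 x := fun t x => hS.pos h0 _ (le_max_right _ _) x
  obtain ⟨g, φ, h1, h2, h3, h4, h5, h6⟩ := exists_inv_log_curve hS' hp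
  exact ⟨_, g, φ, hS', by simp [h0], hp, h1, h2, h3, h4, h5, h6⟩

variable {V : Φ.R} {S g φ : ℝ → Φ.R}

lemma Pos.hj (h : Pos V S g φ) (k : ℕ) :
    TD k φ fun t => Φ.Lap (φ t) + ∑ j, Φ.D j (φ t) * Φ.D j (φ t) - V := by
  refine (h.tφ k).congr2 (fun _ => rfl) fun t => ?_
  rw [mul_sub, mul_left_comm, h.inv, mul_one, Lap_apply, Lap_apply, Finset.mul_sum,
    ← Finset.sum_add_distrib]
  congr 1
  refine Finset.sum_congr rfl fun i _ => ?_
  simp only [h.Dφ, D_mul, h.Dg]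
  ring

lemma Pos.ratio (h : Pos V S g φ) {u : ℝ → Φ.R} (hu : Sol V u) (k : ℕ) :
    TD k (fun t => u t * g t) fun t => Lg (φ t) (u t * g t) := by
  refine ((hu k).mul (h.tg k)).congr2 (fun _ => rfl) fun t => ?_
  have e : (Φ.Lap (u t) - V * u t) * g t + u t * -(g t * g t * (Φ.Lap (S t) - V * S t)) =
      g t * Φ.Lap (u t) - u t * g t * g t * Φ.Lap (S t) := by
    linear_combination (u t * g t * V) * h.inv t
  rw [e, Lg, Lap_apply, Lap_apply, Lap_apply, Finset.mul_sum, Finset.mul_sum, Finset.smul_sum,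
    ← Finset.sum_add_distrib, ← Finset.sum_sub_distrib]
  refine Finset.sum_congr rfl fun i _ => ?_
  simp only [h.Dφ, D_mul, h.Dg, map_add, map_neg, two_smul]
  ring

lemma Pos.φ_zero (h : Pos V S g φ) : φ 0 = 0 := R_ext fun x => by simp [h.log, h.zero]

/-- exponential decay of gradients and oscillations of ratios -/
def Dec (V : Φ.R) (g : ℝ → Φ.R) (K : ℝ) : Prop :=
  ∀ u, Sol V u → ∃ C, 0 ≤ C ∧ ∀ t, 0 ≤ t →
    (∀ i x, |(Φ.D i (u t * g t)).1 x| ≤ C * Real.exp (-(K * t))) ∧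
      ∀ x y, |(u t * g t).1 x - (u t * g t).1 y| ≤ C * Real.exp (-(K * t))

variable (μ : Measure Γ) [IsProbabilityMeasure μ] [μ.IsHaarMeasure]

lemma Pos.ground (h : Pos V S g φ) {K : ℝ} (hK : 0 < K) (hd : Dec V g K) :
    ∃ (Ω : C(Γ, ℝ)) (dΩ : I → C(Γ, ℝ)) (E M C : ℝ), (∀ i, HasD (Φ.γ i) Ω (dΩ i)) ∧
      (∀ x, 0 < Ω x) ∧ (∀ f : Φ.R, In μ ((Φ.Lap f - V * f).1 * Ω) = -E * In μ (f.1 * Ω)) ∧
      0 ≤ C ∧ ∀ t, 0 ≤ t → ∀ x, Real.exp (-M) * (S t).1 1 ≤ (S t).1 x ∧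
        (S t).1 x ≤ Real.exp M * (S t).1 1 ∧
        |(S t).1 x - (S t).1 1 * Ω x| ≤ (S t).1 1 * (C * Real.exp (-(K * t))) := by
  obtain ⟨C, hC, hw⟩ := hd _ h.sol.deriv
  simp only [mul_comm _ (g _)] at hw
  set w : ℝ → Φ.R := fun t => g t * (Φ.Lap (S t) - V * S t) with hw'
  have cx : ∀ {u : ℝ → Φ.R}, (Continuous fun p : ℝ × Γ => (u p.1).1 p.2) → ∀ x,
      Continuous fun t => (u t).1 x :=
    fun h x => h.comp (f := fun t => (t, x)) (by fun_prop)
  obtain ⟨z, hz, hz'⟩ := exists_lim (y := fun t => (φ t).1 - algebraMap ℝ C(Γ, ℝ) ((φ t).1 1))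
    (y' := fun t x => (w t).1 x - (w t).1 1) hC hK
    (fun x => by simpa using (cx (h.tφ 0).1 x).fun_sub (cx (h.tφ 0).1 1))
    (fun t ht x => by simpa [hw'] using ((h.tφ 0).2 t ht x).fun_sub ((h.tφ 0).2 t ht 1))
    fun t ht x => (hw t ht.le).2 x 1
  choose b hb hb' using fun i => exists_lim (y := fun t => (Φ.D i (φ t)).1)
    (y' := fun t x => (Φ.D i (w t)).1 x) hC hK (cx ((h.tφ 1).2 i).1) ((h.tφ 1).2 i).2
    fun t ht x => (hw t ht.le).1 i x
  have hzb : ∀ i, HasD (Φ.γ i) z (b i) := fun i => HasD.of_tendsto (Φ.one i) (fun t => by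
    simpa [sub_eq_add_neg] using (Φ.hasD_D i (φ t)).add (hasD_const _ (-(φ t).1 1))) hz' (hb' i)
  let Ω : C(Γ, ℝ) := ⟨fun x => Real.exp (z x), by fun_prop⟩
  have hΩ : ∀ i, HasD (Φ.γ i) Ω (Ω * b i) := fun i x => by
    simpa [Ω, (Φ.one i).zero] using (hzb i x).exp
  have Ωpos : ∀ x, 0 < Ω x := fun x => Real.exp_pos _
  have hS : ∀ t x, (S t).1 x = (S t).1 1 * Real.exp ((φ t).1 x - (φ t).1 1) := fun t x => by
    rw [h.log, h.log, Real.exp_sub, Real.exp_log (h.pos t x), Real.exp_log (h.pos t 1),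
      mul_div_cancel₀ _ (h.pos t 1).ne']
  have hy : ∀ t, 0 ≤ t → ∀ x, |(φ t).1 x - (φ t).1 1 - z x| ≤ C / K * Real.exp (-(K * t)) :=
    fun t ht x => by simpa using (ContinuousMap.norm_coe_le_norm _ x).trans (hz t ht)
  have hy2 : ∀ t, 0 ≤ t → ∀ x, |(φ t).1 x - (φ t).1 1| ≤ ‖z‖ + C / K := fun t ht x => by
    have h1 := hy t ht x
    have h2 : |z x| ≤ ‖z‖ := z.norm_coe_le_norm x
    have h3 : C / K * Real.exp (-(K * t)) ≤ C / K := mul_le_of_le_one_right (by positivity)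
      (Real.exp_le_one_iff.2 (by nlinarith))
    have := abs_add_le ((φ t).1 x - (φ t).1 1 - z x) (z x)
    rw [sub_add_cancel] at this
    linarith
  have hy3 : ∀ t, 0 ≤ t → ∀ x, |Real.exp ((φ t).1 x - (φ t).1 1) - Ω x| ≤
      Real.exp (‖z‖ + C / K) * (C / K) * Real.exp (-(K * t)) := fun t ht x => by
    refine (abs_exp_sub_le (abs_le.1 (hy2 t ht x)).2 (((le_abs_self _).trans
      (z.norm_coe_le_norm x)).trans (le_add_of_nonneg_right (by positivity)))).trans ?_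
    rw [mul_assoc]
    exact mul_le_mul_of_nonneg_left (hy t ht x) (Real.exp_pos _).le
  have h0 : Tendsto (fun t => Real.exp (-(K * t))) atTop (𝓝 0) :=
    Real.tendsto_exp_neg_atTop_nhds_zero.comp (tendsto_id.const_mul_atTop hK)
  let O : ℝ → C(Γ, ℝ) := fun t => ((S t).1 1)⁻¹ • (S t).1
  have hO : Tendsto O atTop (𝓝 Ω) := by
    rw [tendsto_iff_norm_sub_tendsto_zero]
    refine squeeze_zero' (Eventually.of_forall fun _ => norm_nonneg _) ?_
      (by simpa using h0.const_mul (Real.exp (‖z‖ + C / K) * (C / K)))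
    filter_upwards [eventually_ge_atTop 0] with t ht
    refine (ContinuousMap.norm_le _ (by positivity)).2 fun x => ?_
    have := hy3 t ht x
    rwa [ContinuousMap.sub_apply, ContinuousMap.smul_apply, smul_eq_mul, hS t x,
      inv_mul_cancel_left₀ (h.pos t 1).ne']
  let δ : ℝ → C(Γ, ℝ) := fun t => (w t).1 - algebraMap ℝ C(Γ, ℝ) ((w t).1 1)
  have hδ : Tendsto δ atTop (𝓝 0) := by
    refine squeeze_zero_norm' ?_ (by simpa using h0.const_mul C)
    filter_upwards [eventually_ge_atTop 0] with t ht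
    exact (ContinuousMap.norm_le _ (by positivity)).2 fun x => by
      simpa [δ, hw'] using (hw t ht).2 x 1
  have key : ∀ f : Φ.R, Tendsto (fun t => (w t).1 1 * In μ (f.1 * O t)) atTop
      (𝓝 (In μ ((Φ.Lap f - V * f).1 * Ω))) := fun f => by
    have h1 := ((In μ).continuous.tendsto _).comp (hO.const_mul (Φ.Lap f - V * f).1)
    have h2 := ((In μ).continuous.tendsto _).comp ((hδ.mul hO).const_mul f.1)
    have h3 := h1.sub h2
    simp only [zero_mul, mul_zero, map_zero, sub_zero] at h3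
    refine h3.congr fun t => ?_
    have e : (Φ.Lap (S t) - V * S t).1 = (w t * S t).1 := by
      rw [hw']; beta_reduce; rw [mul_right_comm, h.inv, one_mul]
    simp only [Function.comp, O, mul_smul_comm, map_smul, In_symm, e, δ, smul_eq_mul,
      Algebra.algebraMap_eq_smul_one, sub_mul, mul_sub, smul_mul_assoc, one_mul, map_sub,
      MulMemClass.coe_mul]
    ring
  have hI : ∀ f : Φ.R, Tendsto (fun t => In μ (f.1 * O t)) atTop (𝓝 (In μ (f.1 * Ω))) := fun f =>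
    ((In μ).continuous.tendsto _).comp (hO.const_mul f.1)
  have hp : In μ ((1 : Φ.R).1 * Ω) ≠ 0 := (In_pos μ fun x => by simpa using Ωpos x).ne'
  have hE := (key 1).div (hI 1) hp
  have hE' : Tendsto (fun t => (w t).1 1) atTop
      (𝓝 (In μ ((Φ.Lap 1 - V * 1).1 * Ω) / In μ ((1 : Φ.R).1 * Ω))) := by
    refine hE.congr' ?_
    filter_upwards [(hI 1).eventually_ne hp] with t ht
    exact mul_div_cancel_right₀ _ ht
  refine ⟨Ω, _, -_, ‖z‖ + C / K, _, hΩ, Ωpos, fun f => by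
    rw [neg_neg]; exact tendsto_nhds_unique (key f) (hE'.mul (hI f)),
    (by positivity : 0 ≤ Real.exp (‖z‖ + C / K) * (C / K)), fun t ht x => ⟨?_, ?_, ?_⟩⟩
  · rw [hS t x, mul_comm]
    exact mul_le_mul_of_nonneg_left (Real.exp_le_exp.2 (abs_le.1 (hy2 t ht x)).1) (h.pos t 1).le
  · rw [hS t x, mul_comm (Real.exp _)]
    exact mul_le_mul_of_nonneg_left (Real.exp_le_exp.2 (abs_le.1 (hy2 t ht x)).2) (h.pos t 1).le
  · rw [hS t x, ← mul_sub, abs_mul, abs_of_pos (h.pos t 1)]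
    exact mul_le_mul_of_nonneg_left (hy3 t ht x) (h.pos t 1).le

lemma Pos.upper (h : Pos V S g φ) {K : ℝ} (hd : Dec V g K) {Ω : C(Γ, ℝ)} {E M C : ℝ}
    (hΩ : ∀ x, 0 < Ω x) (hw : ∀ f : Φ.R, In μ ((Φ.Lap f - V * f).1 * Ω) = -E * In μ (f.1 * Ω))
    (hC : 0 ≤ C) (hb : ∀ t, 0 ≤ t → ∀ x, Real.exp (-M) * (S t).1 1 ≤ (S t).1 x ∧
        (S t).1 x ≤ Real.exp M * (S t).1 1 ∧
        |(S t).1 x - (S t).1 1 * Ω x| ≤ (S t).1 1 * (C * Real.exp (-(K * t))))
    {u : ℝ → Φ.R} (hu : Sol V u) : ∃ B, ∀ t, 0 ≤ t → ∃ a : ℝ, ∀ x,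
      |(u t).1 x - a * Ω x| ≤ B * Real.exp (-((E + K) * t)) := by
  have hexp : ∀ {v : ℝ → Φ.R}, Sol V v → ∀ t, 0 ≤ t →
      In μ ((v t).1 * Ω) = Real.exp (-(E * t)) * In μ ((v 0).1 * Ω) := fun {v} hv t ht =>
    exp_ode (f := fun t => In μ ((v t).1 * Ω))
      ((In μ).continuous.comp ((cont_curve (hv 0).1).mul continuous_const))
      (fun t ht => hw (v t) ▸ hasDerivAt_In μ (hv 0) (hv.deriv 0).1 Ω ht) ht
  have hp : 0 < In μ ((S 0).1 * Ω) := In_pos μ fun x => mul_pos (h.pos 0 x) (hΩ x)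
  set c : ℝ := In μ ((u 0).1 * Ω) / In μ ((S 0).1 * Ω) with hc
  obtain ⟨C', hC', hr⟩ := hd u hu
  refine ⟨Real.exp M * (C' * Real.exp M + |c| * C), fun t ht => ⟨c * (S t).1 1, fun x => ?_⟩⟩
  have hur : ∀ y, (u t).1 y = (u t * g t).1 y * (S t).1 y := fun y => by
    rw [← Flows.R_mul, mul_assoc, h.inv, mul_one]
  have hz : In μ (((u t).1 - c • (S t).1) * Ω) = 0 := by
    rw [sub_mul, smul_mul_assoc, map_sub, map_smul, hexp hu t ht, hexp h.sol t ht, hc, smul_eq_mul]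
    field_simp
    ring
  have h1 : ∃ y, (u t * g t).1 y ≤ c := by
    by_contra hcon
    push Not at hcon
    refine (In_pos μ fun y => ?_).ne' hz
    simp only [ContinuousMap.mul_apply, ContinuousMap.sub_apply, ContinuousMap.smul_apply,
      smul_eq_mul]
    rw [hur y, ← sub_mul]
    exact mul_pos (mul_pos (sub_pos.2 (hcon y)) (h.pos t y)) (hΩ y)
  have h2 : ∃ y, c ≤ (u t * g t).1 y := by
    by_contra hcon
    push Not at hcon
    refine (In_pos μ (f := -(((u t).1 - c • (S t).1) * Ω)) fun y => ?_).ne' (by simp [hz])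
    simp only [ContinuousMap.mul_apply, ContinuousMap.sub_apply, ContinuousMap.smul_apply,
      smul_eq_mul, ContinuousMap.neg_apply]
    rw [hur y, ← sub_mul, ← neg_mul, ← neg_mul, neg_sub]
    exact mul_pos (mul_pos (sub_pos.2 (hcon y)) (h.pos t y)) (hΩ y)
  obtain ⟨y1, h1⟩ := h1
  obtain ⟨y2, h2⟩ := h2
  have h3 : |(u t * g t).1 x - c| ≤ C' * Real.exp (-(K * t)) := abs_le.2
    ⟨by linarith [(abs_le.1 ((hr t ht).2 x y1)).1, (abs_le.1 ((hr t ht).2 x y2)).1],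
      by linarith [(abs_le.1 ((hr t ht).2 x y2)).2, (abs_le.1 ((hr t ht).2 x y1)).2]⟩
  have h4 : (S t).1 1 ≤ Real.exp M * Real.exp (-(E * t)) := by
    have a1 := In_mono μ (f := (Real.exp (-M) * (S t).1 1) • ((S 0).1 * Ω)) (g := (S t).1 * Ω)
      fun y => by
        simpa [h.zero] using mul_le_mul_of_nonneg_right (hb t ht y).1 (hΩ y).le
    rw [map_smul, hexp h.sol t ht, smul_eq_mul] at a1
    have a2 := le_of_mul_le_mul_right a1 hp
    rwa [Real.exp_neg, inv_mul_le_iff₀ (Real.exp_pos _)] at a2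
  have e : (u t).1 x - c * (S t).1 1 * Ω x = ((u t * g t).1 x - c) * (S t).1 x +
      c * ((S t).1 x - (S t).1 1 * Ω x) := by
    nth_rewrite 1 [hur x]
    ring
  rw [e]
  refine (abs_add_le _ _).trans ?_
  rw [abs_mul, abs_mul, abs_of_pos (h.pos t x)]
  have a3 := mul_le_mul h3 (hb t ht x).2.1 (h.pos t x).le (by positivity)
  have a4 := mul_le_mul_of_nonneg_left (hb t ht x).2.2 (abs_nonneg c)
  have a5 := mul_le_mul_of_nonneg_right h4
    (show 0 ≤ (C' * Real.exp M + |c| * C) * Real.exp (-(K * t)) by positivity)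
  rw [add_mul E, neg_add, Real.exp_add]
  linarith

lemma gap_sol {Ω : C(Γ, ℝ)} {E K B : ℝ} (h1 : In μ (Ω * Ω) = 1)
    (hw : ∀ f : Φ.R, In μ ((Φ.Lap f - V * f).1 * Ω) = -E * In μ (f.1 * Ω))
    {u : ℝ → Φ.R} (hu : Sol V u) (hb : ∀ t, 0 ≤ t → ∃ a : ℝ, ∀ x,
      |(u t).1 x - a * Ω x| ≤ B * Real.exp (-((E + K) * t))) :
    K * (In μ ((u 0).1 * (u 0).1) - In μ ((u 0).1 * Ω) ^ 2) ≤
      In μ (∑ i, (Φ.D i (u 0)).1 * (Φ.D i (u 0)).1 + V.1 * ((u 0).1 * (u 0).1)) -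
        E * In μ ((u 0).1 * (u 0).1) := by
  set u' : ℝ → Φ.R := fun t => Φ.Lap (u t) - V * u t with hu'
  have hu1 : Sol V u' := hu.deriv
  have c0 := cont_curve (hu 0).1
  have c1 := cont_curve (hu1 0).1
  have dc : ∀ t, 0 < t → HasDerivAt (fun s => In μ ((u s).1 * Ω)) (-E * In μ ((u t).1 * Ω)) t :=
    fun t ht => hw (u t) ▸ hasDerivAt_In μ (hu 0) (hu1 0).1 Ω ht
  have dn : ∀ t, 0 < t → HasDerivAt (fun s => In μ ((u s).1 * (u s).1))
      (2 * In μ ((u t).1 * (u' t).1)) t := fun t ht => by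
    have := hasDerivAt_In μ ((hu 0).mul (hu 0))
      (((hu1 0).mul (hu 0)).add ((hu 0).mul (hu1 0))).1 1 ht
    simp only [mul_one, MulMemClass.coe_mul, AddMemClass.coe_add, map_add] at this
    refine this.congr_deriv ?_
    rw [two_mul, mul_comm (u t).1]
  have dq : ∀ t, 0 < t → HasDerivAt (fun s => In μ ((u s).1 * (u' s).1))
      (2 * In μ ((u' t).1 * (u' t).1)) t := fun t ht => by
    have := hasDerivAt_In μ ((hu 0).mul (hu1 0))
      (((hu1 0).mul (hu1 0)).add ((hu 0).mul (hu1.deriv 0))).1 1 ht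
    simp only [mul_one, MulMemClass.coe_mul, AddMemClass.coe_add, map_add] at this
    refine this.congr_deriv ?_
    rw [two_mul, ← In_symm μ V (u t) (u' t)]
  have key := gap_ode (l := E + K) (C := B ^ 2)
    (N := fun t => In μ ((u t).1 * (u t).1) - In μ ((u t).1 * Ω) ^ 2)
    (Q := fun t => -In μ ((u t).1 * (u' t).1) - E * In μ ((u t).1 * Ω) ^ 2)
    (P := fun t => In μ ((u' t).1 * (u' t).1) - E ^ 2 * In μ ((u t).1 * Ω) ^ 2)
    (by fun_prop) (by fun_prop)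
    (fun t ht => ((dn t ht).fun_sub ((dc t ht).fun_pow 2)).congr_deriv (by simp; ring))
    (fun t ht => ((dq t ht).fun_neg.fun_sub (((dc t ht).fun_pow 2).const_mul E)).congr_deriv
      (by simp; ring))
    (fun t _ => by
      have := (In_proj_le μ h1 ((u' t).1 + (E + K) • (u t).1) 0).2
      have e : In μ ((u' t).1 * Ω) = -E * In μ ((u t).1 * Ω) := hw (u t)
      simp only [add_mul, mul_add, smul_mul_assoc, mul_smul_comm, map_add, map_smul, smul_eq_mul,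
        e, mul_comm (u' t).1 (u t).1] at this
      linarith)
    (In_proj_le μ h1 _ 0).2
    (fun t ht => by
      obtain ⟨a, ha⟩ := hb t ht
      refine (In_proj_le μ h1 _ a).1.trans (In_le_const μ fun x => ?_)
      have := mul_self_le_mul_self (abs_nonneg _) (ha x)
      rw [abs_mul_abs_self] at this
      refine this.trans (le_of_eq ?_)
      rw [mul_mul_mul_comm, ← Real.exp_add, sq]
      congr 2
      ring)
  have e : In μ ((u 0).1 * (u' 0).1) = -In μ (∑ i, (Φ.D i (u 0)).1 * (Φ.D i (u 0)).1 +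
      V.1 * ((u 0).1 * (u 0).1)) := by
    rw [hu']
    push_cast
    rw [mul_sub, map_sub, mul_comm, In_lap μ _ (Φ.hasD_D · (u 0)), map_add, mul_left_comm]
    ring
  simp only [e] at key
  linarith

end General

variable {E ι : Type} [Fintype E] [Fintype ι] [DecidableEq E] {Φ : Flows Γ (E × ι)}
  {F : E × ι → E × ι → E × ι → ℝ} (μ : Measure Γ) [IsProbabilityMeasure μ] [μ.IsHaarMeasure]

theorem Poly.gap (P : Poly Φ F) (a12 : ∀ i j k, F i j k = -F j i k)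
    (a23 : ∀ i j k, F i j k = -F i k j) {ρ h : ℝ} (hB : Blk F ρ) (hρ : 0 < ρ) {V : Φ.R} {n : ℕ}
    (hV : V ∈ P.P1 ^ n) (hh : HB V h) (hρh : 8 * h < ρ ^ 2) :
    ∃ (Ω : C(Γ, ℝ)) (dΩ : E × ι → C(Γ, ℝ)), (∀ i, HasD (Φ.γ i) Ω (dΩ i)) ∧ (∀ x, 0 < Ω x) ∧
      In μ (Ω * Ω) = 1 ∧ ∀ (ψ : C(Γ, ℝ)) (dψ : E × ι → C(Γ, ℝ)), (∀ i, HasD (Φ.γ i) ψ (dψ i)) →
        ρ / 2 * (In μ (ψ * ψ) - In μ (ψ * Ω) ^ 2) ≤ In μ (∑ i, dψ i * dψ i + V.1 * (ψ * ψ)) -
          In μ (∑ i, dΩ i * dΩ i + V.1 * (Ω * Ω)) * In μ (ψ * ψ) := by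
  have hL : Lie Φ F := ⟨P.comm_all μ, a12, a23⟩
  obtain ⟨S, g, φ, hP⟩ := P.exists_pos hL hV
  obtain ⟨m, hm0, hm1, hm2⟩ : ∃ m : ℝ, 0 < m ∧ m < ρ / 4 ∧ 2 * m ^ 2 + h < ρ * m := by
    have hc : Continuous fun m : ℝ => ρ * m - (2 * m ^ 2 + h) := by fun_prop
    have h1 := (hc.tendsto (ρ / 4)).eventually (lt_mem_nhds (show 0 < _ by nlinarith))
    have h2 : ∀ᶠ m in 𝓝 (ρ / 4), 0 < m := lt_mem_nhds (by positivity)
    exact ((h1.and h2).filter_mono (nhdsWithin_le_nhds (s := Set.Iio (ρ / 4)))).and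
      self_mem_nhdsWithin |>.exists.imp fun m hh => ⟨hh.1.2, hh.2, by linarith [hh.1.1]⟩
  have hH := hess_bound hL hB hρ hm0 hh hm2 hP.φ_zero (hP.hj 2)
  obtain ⟨L, hL0, hlip⟩ := P.exists_lip μ
  have hd : Dec V g (ρ / 2) := fun u hu => by
    obtain ⟨C, hC, hb⟩ := grad_decay (K := ρ / 2) hL hB hρ (by linarith) (by positivity) hH
      (hP.ratio hu 1)
    refine ⟨C + L * C, by positivity, fun t ht => ⟨fun i x => (hb t ht i x).trans ?_, fun x y =>
      (hlip _ _ (by positivity) (hb t ht) x y).trans ?_⟩⟩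
    · exact mul_le_mul_of_nonneg_right (le_add_of_nonneg_right (by positivity)) (Real.exp_pos _).le
    · rw [← mul_assoc]
      exact mul_le_mul_of_nonneg_right (le_add_of_nonneg_left hC) (Real.exp_pos _).le
  obtain ⟨Ω0, dΩ0, E0, M, C, h1, h2, h3, h4, h5⟩ := hP.ground μ (by positivity) hd
  have hZ : 0 < In μ (Ω0 * Ω0) := In_pos μ fun x => mul_pos (h2 x) (h2 x)
  set s : ℝ := (√(In μ (Ω0 * Ω0)))⁻¹ with hs
  have s0 : 0 < s := by positivity
  have hn : In μ (s • Ω0 * s • Ω0) = 1 := by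
    rw [smul_mul_smul_comm, map_smul, hs, ← mul_inv, Real.mul_self_sqrt hZ.le, smul_eq_mul,
      inv_mul_cancel₀ hZ.ne']
  have hw : ∀ f : Φ.R, In μ ((Φ.Lap f - V * f).1 * s • Ω0) = -E0 * In μ (f.1 * s • Ω0) := fun f => by
    rw [mul_smul_comm, mul_smul_comm, map_smul, map_smul, h3, smul_eq_mul, smul_eq_mul]; ring
  have hΩ : ∀ i, HasD (Φ.γ i) (s • Ω0) (s • dΩ0 i) := fun i => (h1 i).smul s
  have lim : ∀ {ψ : C(Γ, ℝ)} {dψ : E × ι → C(Γ, ℝ)}, (∀ i, HasD (Φ.γ i) ψ (dψ i)) →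
      ∀ i, Tendsto (fun n => (Φ.D i (P.KR μ n ψ)).1) atTop (𝓝 (dψ i)) := fun h i => by
    simpa only [P.D_KR μ _ (h i)] using P.KR_tendsto μ _
  have cI := fun f => (In μ).continuous.tendsto f
  have hE : In μ (∑ i, s • dΩ0 i * s • dΩ0 i + V.1 * (s • Ω0 * s • Ω0)) = E0 := by
    have a1 := (cI _).comp ((tendsto_finsetSum Finset.univ fun i _ =>
      (lim hΩ i).mul_const (s • dΩ0 i)).add
        (((P.KR_tendsto μ (s • Ω0)).mul_const (s • Ω0)).const_mul V.1))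
    have a2 := ((cI _).comp ((P.KR_tendsto μ (s • Ω0)).mul_const (s • Ω0))).const_mul E0
    rw [hn, mul_one] at a2
    refine tendsto_nhds_unique a1 (a2.congr fun n => ?_)
    have := hw (P.KR μ n (s • Ω0))
    push_cast at this
    rw [sub_mul, map_sub, In_lap μ _ hΩ, mul_assoc] at this
    simp only [Function.comp, map_add]
    linarith
  refine ⟨s • Ω0, fun i => s • dΩ0 i, hΩ, fun x => mul_pos s0 (h2 x), hn, fun ψ dψ hψ => ?_⟩
  rw [hE]
  have k := P.KR_tendsto μ ψ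
  refine le_of_tendsto_of_tendsto' ((((cI _).comp (k.mul k)).sub
    (((cI _).comp (k.mul_const _)).pow 2)).const_mul _)
    (((cI _).comp ((tendsto_finsetSum Finset.univ fun i _ => (lim hψ i).mul (lim hψ i)).add
      ((k.mul k).const_mul V.1))).sub (((cI _).comp (k.mul k)).const_mul E0)) fun n => ?_
  obtain ⟨u, hu0, hu⟩ := P.exists_sol hL hV (P.KR_mem μ n ψ)
  obtain ⟨B, hB⟩ := hP.upper μ hd h2 h3 h4 h5 hu
  have := gap_sol μ hn hw hu (B := B) (K := ρ / 2) fun t ht => by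
    obtain ⟨a, ha⟩ := hB t ht
    refine ⟨a / s, fun x => ?_⟩
    rw [ContinuousMap.smul_apply, smul_eq_mul, ← mul_assoc, div_mul_cancel₀ _ s0.ne']
    exact ha x
  rw [hu0] at this
  exact this

end Pool.Agent.Lib.MP_7f377f_mp.KS
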