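import Mathlib
import Pool.Agent.Lib.MP_7f377f_mp.KSHeat

open Matrix NormedSpace

set_option linter.unusedSectionVars false

namespace Pool.Agent.Lib.MP_7f377f_mp.KS

abbrev Mat (n : ℕ) : Type := Matrix (Fin n) (Fin n) ℂ

variable {n : ℕ}

/-- real part of the trace -/
noncomputable def rtr : Mat n →ₗ[ℝ] ℝ where
  toFun A := (trace A).re
  map_add' A B := by simp
  map_smul' c A := by simp

lemma rtr_apply (A : Mat n) : rtr A = (trace A).re := rfl
@[simp] lemma rtr_one : rtr (1 : Mat n) = n := by simp [rtr_apply]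
lemma rtr_comm (A B : Mat n) : rtr (A * B) = rtr (B * A) := by
  rw [rtr_apply, rtr_apply, trace_mul_comm]
lemma rtr_conjTranspose (A : Mat n) : rtr Aᴴ = rtr A := by simp [rtr_apply, trace_conjTranspose]
@[fun_prop] lemma continuous_rtr : Continuous (rtr : Mat n → ℝ) := by
  change Continuous fun A : Mat n => (trace A).re
  fun_prop

noncomputable def vec (A : Mat n) : EuclideanSpace ℂ (Fin n × Fin n) :=
  WithLp.toLp 2 fun p => A p.1 p.2

/-- Hilbert-Schmidt norm -/
noncomputable def hs (A : Mat n) : ℝ := ‖vec A‖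

lemma inner_vec (A B : Mat n) : inner ℂ (vec B) (vec A) = trace (A * Bᴴ) := by
  simp [vec, PiLp.inner_apply, trace, mul_apply, Fintype.sum_prod_type]

lemma hs_nonneg (A : Mat n) : 0 ≤ hs A := norm_nonneg _

lemma hs_sq (A : Mat n) : hs A ^ 2 = rtr (A * Aᴴ) := by
  rw [rtr_apply, ← inner_vec, hs]
  exact (inner_self_eq_norm_sq (𝕜 := ℂ) (vec A)).symm

lemma hs_eq_of_sq {A B : Mat n} (h : rtr (A * Aᴴ) = rtr (B * Bᴴ)) : hs A = hs B := by
  rw [← hs_sq, ← hs_sq] at h
  exact (pow_left_inj₀ (hs_nonneg _) (hs_nonneg _) two_ne_zero).1 h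

lemma hs_conjTranspose (A : Mat n) : hs Aᴴ = hs A :=
  hs_eq_of_sq (by rw [conjTranspose_conjTranspose, rtr_comm])

lemma abs_rtr_mul_le (A B : Mat n) : |rtr (A * B)| ≤ hs A * hs B := by
  have := norm_inner_le_norm (𝕜 := ℂ) (vec Bᴴ) (vec A)
  rw [inner_vec, conjTranspose_conjTranspose] at this
  rw [mul_comm, ← hs_conjTranspose B]
  exact (Complex.abs_re_le_norm _).trans this

lemma hs_uni_mul {U : Mat n} (h : Uᴴ * U = 1) (A : Mat n) : hs (U * A) = hs A :=
  hs_eq_of_sq (by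
    rw [conjTranspose_mul, ← Matrix.mul_assoc, rtr_comm, Matrix.mul_assoc,
      ← Matrix.mul_assoc _ _ (A * _), h, Matrix.one_mul])

lemma hs_mul_uni {U : Mat n} (h : Uᴴ * U = 1) (A : Mat n) : hs (A * U) = hs A :=
  hs_eq_of_sq (by
    rw [conjTranspose_mul, ← Matrix.mul_assoc, Matrix.mul_assoc A, mul_eq_one_comm.1 h,
      Matrix.mul_one])

lemma hs_eq_zero {A : Mat n} (h : hs A = 0) : A = 0 := by
  have : vec A = 0 := norm_eq_zero.1 h
  ext i j
  exact congrArg (fun v : EuclideanSpace ℂ (Fin n × Fin n) => v (i, j)) this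

lemma rtr_uni {U : Mat n} (h : Uᴴ * U = 1) : -n ≤ rtr U ∧ rtr U ≤ n ∧ (rtr U = n → U = 1) := by
  have h' := mul_eq_one_comm.1 h
  have h1 : hs (U - 1) ^ 2 = 2 * n - 2 * rtr U := by
    simp [hs_sq, mul_sub, sub_mul, h', rtr_conjTranspose]; ring
  have h2 : hs (U + 1) ^ 2 = 2 * n + 2 * rtr U := by
    simp [hs_sq, mul_add, add_mul, h', rtr_conjTranspose]; ring
  refine ⟨by nlinarith [sq_nonneg (hs (U + 1))], by nlinarith [sq_nonneg (hs (U - 1))], fun e => ?_⟩
  rw [e, sub_self] at h1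
  exact sub_eq_zero.1 (hs_eq_zero (pow_eq_zero_iff two_ne_zero |>.1 h1))

/-- unitary, Hilbert-Schmidt and trace class bounds -/
def Cl : ℕ → Mat n → ℝ → Prop
  | 0, M, c => Mᴴ * M = 1 ∧ c = 1
  | 1, M, c => hs M ≤ c
  | 2, M, c => ∃ P Q, M = P * Q ∧ hs P * hs Q ≤ c
  | _ + 3, _, _ => True

lemma Cl.star {k : ℕ} {M : Mat n} {c : ℝ} (h : Cl k M c) : Cl k Mᴴ c := by
  match k, h with
  | 0, h => exact ⟨by rw [conjTranspose_conjTranspose]; exact mul_eq_one_comm.1 h.1, h.2⟩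
  | 1, h => exact (hs_conjTranspose M).trans_le h
  | 2, ⟨P, Q, h1, h2⟩ => exact ⟨Qᴴ, Pᴴ, by rw [h1, conjTranspose_mul],
      by rwa [hs_conjTranspose, hs_conjTranspose, mul_comm]⟩
  | _ + 3, _ => trivial

lemma Cl.mul {k l : ℕ} {M N : Mat n} {c d : ℝ} (h : Cl k M c) (g : Cl l N d) :
    Cl (k + l) (M * N) (c * d) := by
  match k, l, h, g with
  | 0, 0, h, g => exact ⟨by
      rw [conjTranspose_mul, Matrix.mul_assoc, ← Matrix.mul_assoc Mᴴ, h.1, Matrix.one_mul, g.1],
      by rw [h.2, g.2, mul_one]⟩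
  | 0, 1, h, g => exact (hs_uni_mul h.1 N).trans_le (by rw [h.2, one_mul]; exact g)
  | 0, 2, h, ⟨P, Q, h1, h2⟩ => exact ⟨M * P, Q, by rw [h1, Matrix.mul_assoc],
      by rwa [hs_uni_mul h.1, h.2, one_mul]⟩
  | 1, 0, h, g => exact (hs_mul_uni g.1 M).trans_le (by rw [g.2, mul_one]; exact h)
  | 1, 1, h, g => exact ⟨M, N, rfl, mul_le_mul h g (hs_nonneg _) ((hs_nonneg _).trans h)⟩
  | 2, 0, ⟨P, Q, h1, h2⟩, g => exact ⟨P, Q * N, by rw [h1, Matrix.mul_assoc],
      by rwa [hs_mul_uni g.1, g.2, mul_one]⟩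
  | 0, l + 3, _, _ => rw [zero_add]; trivial
  | 1, l + 2, _, _ => rw [show 1 + (l + 2) = l + 3 by ring]; trivial
  | 2, l + 1, _, _ => rw [show 2 + (l + 1) = l + 3 by ring]; trivial
  | k + 3, l, _, _ => rw [show k + 3 + l = k + l + 3 by ring]; trivial

lemma Cl.rtr_le {M : Mat n} {c : ℝ} (h : Cl 2 M c) : |rtr M| ≤ c := by
  obtain ⟨P, Q, rfl, h⟩ := h
  exact (abs_rtr_mul_le P Q).trans h

/-- entrywise derivative at zero -/
def MD (M : ℝ → Mat n) (M' : Mat n) : Prop := ∀ i j, HasDerivAt (fun t => M t i j) (M' i j) 0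

lemma MD.const (A : Mat n) : MD (fun _ => A) 0 := fun _ _ => hasDerivAt_const _ _

lemma MD.mul {M N : ℝ → Mat n} {M' N' : Mat n} (h : MD M M') (g : MD N N') :
    MD (fun t => M t * N t) (M' * N 0 + M 0 * N') := fun i j => by
  simp only [Matrix.add_apply, mul_apply, ← Finset.sum_add_distrib]
  exact HasDerivAt.fun_sum fun k _ => (h i k).fun_mul (g k j)

lemma MD.star {M : ℝ → Mat n} {M' : Mat n} (h : MD M M') : MD (fun t => (M t)ᴴ) M'ᴴ :=
  fun i j => (h j i).star

lemma MD.rtr {M : ℝ → Mat n} {M' : Mat n} (h : MD M M') :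
    HasDerivAt (fun t => rtr (M t)) (rtr M') 0 := by
  have : HasDerivAt (fun s => trace (M s)) (trace M') 0 := HasDerivAt.fun_sum fun i _ => h i i
  exact Complex.reCLM.hasFDerivAt.comp_hasDerivAt 0 this

open scoped Matrix.Norms.Operator in
lemma md_exp (X : Mat n) : MD (fun t : ℝ => exp (t • X)) X := fun i j => by
  have h := hasDerivAt_exp_smul_const (𝕂 := ℝ) X 0
  let L : Mat n →ₗ[ℝ] ℂ := { toFun := fun A => A i j, map_add' := fun _ _ => rfl,
                              map_smul' := fun _ _ => rfl }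
  rw [zero_smul, exp_zero, one_mul] at h
  exact L.toContinuousLinearMap.hasFDerivAt.comp_hasDerivAt 0 h

lemma exp_uni {X : Mat n} (h : Xᴴ = -X) : (exp X)ᴴ * exp X = 1 := by
  rw [← Matrix.exp_conjTranspose, h, ← Matrix.exp_add_of_commute _ _ (Commute.refl X).neg_left,
    neg_add_cancel, exp_zero]

/-- orthonormal basis of a compact matrix Lie algebra with scalar adjoint Casimir -/
structure ONB {ι : Type} [Fintype ι] [DecidableEq ι] (T : ι → Mat n) (ρ : ℝ) : Prop where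
  skew : ∀ a, (T a)ᴴ = -T a
  orth : ∀ a b, rtr (T a * (T b)ᴴ) = if a = b then 1 else 0
  lie : ∀ a b, ⁅T a, T b⁆ ∈ Submodule.span ℝ (Set.range T)
  cas : ∀ b, ∑ a, ⁅T a, ⁅T a, T b⁆⁆ = -(4 * ρ) • T b

namespace ONB
variable {ι : Type} [Fintype ι] [DecidableEq ι] {T : ι → Mat n} {ρ : ℝ} (h : ONB T ρ)
include h

lemma skew_span {X : Mat n} (hX : X ∈ Submodule.span ℝ (Set.range T)) : Xᴴ = -X := by
  obtain ⟨c, rfl⟩ := (Submodule.mem_span_range_iff_exists_fun ℝ).1 hX
  simp [conjTranspose_sum, h.skew]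

lemma expand {X : Mat n} (hX : X ∈ Submodule.span ℝ (Set.range T)) :
    ∑ a, rtr (X * (T a)ᴴ) • T a = X := by
  obtain ⟨c, rfl⟩ := (Submodule.mem_span_range_iff_exists_fun ℝ).1 hX
  simp [Finset.sum_mul, h.orth]

lemma lie_span : ∀ X ∈ Submodule.span ℝ (Set.range T), ∀ Y ∈ Submodule.span ℝ (Set.range T),
    X * Y - Y * X ∈ Submodule.span ℝ (Set.range T) := by
  intro X hX Y hY
  obtain ⟨c, rfl⟩ := (Submodule.mem_span_range_iff_exists_fun ℝ).1 hX
  obtain ⟨d, rfl⟩ := (Submodule.mem_span_range_iff_exists_fun ℝ).1 hY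
  rw [Finset.sum_mul_sum, Finset.sum_mul_sum, Finset.sum_comm (f := fun i j => d i • T i * c j • T j),
    ← Finset.sum_sub_distrib]
  refine Submodule.sum_mem _ fun a _ => ?_
  rw [← Finset.sum_sub_distrib]
  refine Submodule.sum_mem _ fun b _ => ?_
  rw [smul_mul_smul_comm, smul_mul_smul_comm, mul_comm (d b), ← smul_sub]
  exact Submodule.smul_mem _ _ (h.lie a b)

open scoped Matrix.Norms.Operator in
lemma conj_mem {X Y : Mat n} (hX : X ∈ Submodule.span ℝ (Set.range T))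
    (hY : Y ∈ Submodule.span ℝ (Set.range T)) :
    exp Y * X * exp (-Y) ∈ Submodule.span ℝ (Set.range T) := by
  let L : (ι → ℝ) →ₗ[ℝ] (ι → ℝ) :=
    { toFun := fun c b => rtr ((Y * ∑ a, c a • T a - (∑ a, c a • T a) * Y) * (T b)ᴴ)
      map_add' := fun c d => by
        ext b
        simp only [Pi.add_apply, add_smul, Finset.sum_add_distrib, mul_add, add_mul, sub_mul,
          map_add, map_sub]
        ring
      map_smul' := fun r c => by
        ext b
        simp only [Pi.smul_apply, smul_assoc, ← Finset.smul_sum, mul_smul_comm, smul_mul_assoc,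
          ← smul_sub, map_smul, RingHom.id_apply] }
  obtain ⟨W, h0, hW⟩ := exists_ode L.toContinuousLinearMap (g := fun _ => 0) continuous_const
    fun a => rtr (X * (T a)ᴴ)
  have hm : ∀ c : ι → ℝ, ∑ a, c a • T a ∈ Submodule.span ℝ (Set.range T) :=
    fun c => (Submodule.mem_span_range_iff_exists_fun ℝ).2 ⟨c, rfl⟩
  have h1 : ∀ t, HasDerivAt (fun t => ∑ a, W t a • T a)
      (Y * ∑ a, W t a • T a - (∑ a, W t a • T a) * Y) t := fun t => by
    rw [← h.expand (h.lie_span _ hY _ (hm _))]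
    refine HasDerivAt.fun_sum fun a _ => HasDerivAt.smul_const ?_ _
    simpa [L] using hasDerivAt_pi.1 (hW t) a
  have h2 : ∀ t : ℝ, HasDerivAt (fun t : ℝ => exp (t • (-Y)) * (∑ a, W t a • T a) * exp (t • Y))
      0 t := fun t => by
    refine (((hasDerivAt_exp_smul_const (-Y) t).fun_mul (h1 t)).fun_mul
      (hasDerivAt_exp_smul_const' Y t)).congr_deriv ?_
    noncomm_ring
  have h3 := is_const_of_deriv_eq_zero (fun t => (h2 t).differentiableAt) (fun t => (h2 t).deriv) 1 0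
  simp only [one_smul, zero_smul, exp_zero, h0, Matrix.one_mul, Matrix.mul_one, h.expand hX] at h3
  have h4 : exp Y * exp (-Y) = 1 := by
    rw [← Matrix.exp_add_of_commute _ _ (Commute.refl Y).neg_right, add_neg_cancel, exp_zero]
  rw [← h3, ← Matrix.mul_assoc, ← Matrix.mul_assoc, h4, Matrix.one_mul, Matrix.mul_assoc, h4,
    Matrix.mul_one]
  exact hm _

lemma hs_sum (c : ι → ℝ) : hs (∑ a, c a • T a) = √(∑ a, c a ^ 2) := by
  rw [← Real.sqrt_sq (hs_nonneg _), hs_sq]
  simp [conjTranspose_sum, Finset.sum_mul, Finset.mul_sum, h.orth, sq]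

omit h in
/-- structure constants -/
noncomputable def f (T : ι → Mat n) (a b c : ι) : ℝ := rtr (⁅T a, T b⁆ * (T c)ᴴ)

omit h in
lemma f12 (a b c : ι) : f T a b c = -f T b a c := by
  rw [f, f, ← map_neg, ← Matrix.neg_mul, Ring.lie_def, Ring.lie_def, neg_sub]

lemma f23 (a b c : ι) : f T a b c = -f T a c b := by
  simp only [f, h.skew, Ring.lie_def, Matrix.mul_neg, map_neg, Matrix.sub_mul, map_sub]
  rw [Matrix.mul_assoc (T b), rtr_comm (T b), Matrix.mul_assoc (T c), rtr_comm (T c)]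
  ring

lemma ric (g : ι → ℝ) : ∑ a, ∑ b, (∑ c, f T a b c * g c) ^ 2 = 4 * ρ * ∑ a, g a ^ 2 := by
  have h1 : ∀ c d, ∑ a, ∑ b, f T a b c * f T a b d = if c = d then 4 * ρ else 0 := fun c d => by
    have := congrArg (fun X => rtr (X * (T d)ᴴ)) (h.cas c)
    simp only [Finset.sum_mul, map_sum, smul_mul_assoc, map_smul, h.orth, smul_eq_mul] at this
    have e : ∀ a, rtr (⁅T a, ⁅T a, T c⁆⁆ * (T d)ᴴ) = -∑ b, f T a b c * f T a b d := fun a => by
      nth_rewrite 1 [← h.expand (h.lie a c)]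
      rw [Ring.lie_def (T a) (∑ _, _), Finset.mul_sum, Finset.sum_mul, ← Finset.sum_sub_distrib,
        Finset.sum_mul, map_sum, ← Finset.sum_neg_distrib]
      refine Finset.sum_congr rfl fun b _ => ?_
      rw [mul_smul_comm, smul_mul_assoc, ← smul_sub, smul_mul_assoc, map_smul, smul_eq_mul,
        h.f23 a b c, neg_mul, neg_neg]
      rfl
    simp only [e, Finset.sum_neg_distrib] at this
    split_ifs at this ⊢ <;> linarith
  calc ∑ a, ∑ b, (∑ c, f T a b c * g c) ^ 2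
      = ∑ a, ∑ b, ∑ c, ∑ d, g c * g d * (f T a b c * f T a b d) := by
        simp only [sq, Finset.sum_mul_sum]
        exact Finset.sum_congr rfl fun a _ => Finset.sum_congr rfl fun b _ =>
          Finset.sum_congr rfl fun c _ => Finset.sum_congr rfl fun d _ => by ring
    _ = ∑ c, ∑ d, g c * g d * ∑ a, ∑ b, f T a b c * f T a b d := by
        simp only [Finset.mul_sum]
        rw [← Fintype.sum_prod_type', Finset.sum_comm]
        refine Finset.sum_congr rfl fun c _ => ?_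
        rw [Finset.sum_comm]
        refine Finset.sum_congr rfl fun d _ => ?_
        rw [Fintype.sum_prod_type]
    _ = _ := by simp [h1, Finset.mul_sum, sq, mul_comm]

end ONB

end Pool.Agent.Lib.MP_7f377f_mp.KS
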