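import Mathlib
import Pool.Agent.Lib.MP_7f377f_mp.KSMat
import Pool.Agent.Lib.MP_7f377f_mp.KSGap

open Matrix NormedSpace MeasureTheory

set_option linter.unusedSectionVars false

namespace Pool.Agent.Lib.MP_7f377f_mp.KS

open Flows

variable {n : ℕ} {G : Type} [Group G] [TopologicalSpace G] [IsTopologicalGroup G] [CompactSpace G]
  [T2Space G] [SecondCountableTopology G] [MeasurableSpace G] [BorelSpace G]
  {ι : Type} [Fintype ι] [DecidableEq ι]

/-- a compact matrix Lie group with an orthonormal basis of its Lie algebra -/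
structure Rep (π : G →* Mat n) (T : ι → Mat n) (ρ : ℝ) (γ : ι → ℝ → G) : Prop extends ONB T ρ where
  cont : Continuous π
  inj : Function.Injective π
  range : Set.range π = exp '' (Submodule.span ℝ (Set.range T) : Set (Mat n))
  flow : ∀ a t, π (γ a t) = exp (t • T a)

namespace Rep

variable {π : G →* Mat n} {T : ι → Mat n} {ρ : ℝ} {γ : ι → ℝ → G} (h : Rep π T ρ γ)
include h

lemma exists_log (g : G) : ∃ X ∈ Submodule.span ℝ (Set.range T), π g = exp X := by
  obtain ⟨X, h1, h2⟩ := h.range ▸ Set.mem_range_self (f := π) g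
  exact ⟨X, h1, h2.symm⟩

lemma uni (g : G) : (π g)ᴴ * π g = 1 := by
  obtain ⟨X, h1, h2⟩ := h.exists_log g
  rw [h2]; exact exp_uni (h.skew_span h1)

lemma inv (g : G) : π g⁻¹ = (π g)ᴴ := by
  rw [← Matrix.one_mul (π g⁻¹), ← h.uni g, Matrix.mul_assoc, ← map_mul, mul_inv_cancel, map_one,
    Matrix.mul_one]

lemma conj (g : G) {X : Mat n} (hX : X ∈ Submodule.span ℝ (Set.range T)) :
    π g * X * π g⁻¹ ∈ Submodule.span ℝ (Set.range T) := by
  obtain ⟨Y, h1, h2⟩ := h.exists_log g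
  rw [h.inv, h2, ← Matrix.exp_conjTranspose, h.skew_span h1]
  exact h.conj_mem hX h1

variable {E : Type} [Fintype E] [DecidableEq E]

lemma oneP {δ : ℝ → E → G} {X : E → Mat n} (hδ : ∀ t e, π (δ t e) = exp (t • X e)) : OneP δ :=
  fun s t => funext fun e => h.inj (by
    rw [Pi.mul_apply, map_mul, hδ, hδ, hδ, add_smul,
      Matrix.exp_add_of_commute _ _ (((Commute.refl _).smul_left s).smul_right t)])

lemma single_flow (i : E × ι) (t : ℝ) (e : E) :
    π (Pi.mulSingle (M := fun _ => G) i.1 (γ i.2 t) e) = exp (t • Pi.single (M := fun _ => Mat n) i.1 (T i.2) e) := by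
  by_cases he : e = i.1
  · subst he; simp [h.flow]
  · simp [he]

variable (E) in
/-- the flows on the configuration space -/
def Φ : Flows (E → G) (E × ι) where
  γ i t := Pi.mulSingle i.1 (γ i.2 t)
  one i := h.oneP (h.single_flow i)

/-- linear functions of the matrix entries -/
noncomputable def linC (B : E → Mat n) : C(E → G, ℝ) :=
  ⟨fun U => ∑ e, rtr (B e * π (U e)), by have := h.cont; fun_prop⟩

lemma md_flow {δ : ℝ → E → G} {X : E → Mat n} (hδ : ∀ t e, π (δ t e) = exp (t • X e))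
    (B : Mat n) (U : E → G) (e : E) :
    MD (fun t => B * π ((δ t * U) e)) (B * X e * π (U e)) := by
  simpa [hδ, Matrix.mul_assoc] using (MD.const B).mul ((md_exp (X e)).mul (MD.const (π (U e))))

lemma hasD_linC {δ : ℝ → E → G} {X : E → Mat n} (hδ : ∀ t e, π (δ t e) = exp (t • X e))
    (B : E → Mat n) : HasD δ (h.linC B) (h.linC (B * X)) := fun U =>
  HasDerivAt.fun_sum fun e _ => (h.md_flow hδ (B e) U e).rtr

/-- linear functions as smooth functions -/
noncomputable def lin : (E → Mat n) →ₗ[ℝ] (h.Φ E).R where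
  toFun B := ⟨h.linC B, Set.range h.linC, ⟨B, rfl⟩, by
    rintro _ ⟨B, rfl⟩ i
    exact ⟨_, ⟨_, rfl⟩, h.hasD_linC (h.single_flow i) B⟩⟩
  map_add' A B := R_ext fun U => by simp [linC, Matrix.add_mul, Finset.sum_add_distrib]
  map_smul' c A := R_ext fun U => by simp [linC, Finset.mul_sum]

lemma lin_apply (B : E → Mat n) (U : E → G) : (h.lin B).1 U = ∑ e, rtr (B e * π (U e)) := rfl

lemma D_lin (i : E × ι) (B : E → Mat n) :
    (h.Φ E).D i (h.lin B) = h.lin (B * Pi.single i.1 (T i.2)) :=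
  (h.Φ E).D_eq (h.hasD_linC (h.single_flow i) B)

omit h in
/-- structure constants on the configuration space -/
noncomputable def F (T : ι → Mat n) (i j k : E × ι) : ℝ :=
  if i.1 = j.1 ∧ j.1 = k.1 then ONB.f T i.2 j.2 k.2 else 0

omit h in
lemma F12 (i j k : E × ι) : F T i j k = -F T j i k := by
  unfold F
  by_cases h1 : i.1 = j.1
  · rw [h1, ONB.f12]; split_ifs <;> simp
  · simp [h1, Ne.symm h1]

lemma F23 (i j k : E × ι) : F T i j k = -F T i k j := by
  unfold F
  by_cases h1 : j.1 = k.1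
  · rw [h1, h.f23]; split_ifs <;> simp
  · simp [h1, Ne.symm h1]

lemma blk : Blk (F (E := E) T) ρ where
  blk i j k hjk := by simp [F, hjk]
  ric e g := by simpa [F] using (h.ric g).ge

lemma expandE {X : E → Mat n} (hX : ∀ e, X e ∈ Submodule.span ℝ (Set.range T)) :
    ∑ i : E × ι, rtr (X i.1 * (T i.2)ᴴ) • Pi.single (M := fun _ => Mat n) i.1 (T i.2) = X := by
  ext1 e
  rw [Finset.sum_apply, Fintype.sum_prod_type, Finset.sum_eq_single e]
  · simpa using h.expand (hX e)
  · intro e' _ he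
    simp [Ne.symm he]
  · simp

lemma mem_P1 {p : (h.Φ E).R} (hp : p ∈ (1 ⊔ LinearMap.range h.lin : Submodule ℝ (h.Φ E).R)) :
    ∃ (r : ℝ) (B : E → Mat n), p = algebraMap ℝ _ r + h.lin B := by
  obtain ⟨a, ha, b, ⟨A, rfl⟩, rfl⟩ := Submodule.mem_sup.1 hp
  obtain ⟨r, rfl⟩ := Submodule.mem_one.1 ha
  exact ⟨r, A, rfl⟩

lemma hasD_P1 {δ : ℝ → E → G} {X : E → Mat n} (hδ : ∀ t e, π (δ t e) = exp (t • X e))
    (hX : ∀ e, X e ∈ Submodule.span ℝ (Set.range T)) :
    ∀ p ∈ (1 ⊔ LinearMap.range h.lin : Submodule ℝ (h.Φ E).R),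
      HasD δ p.1 (∑ i : E × ι, rtr (X i.1 * (T i.2)ᴴ) • (h.Φ E).D i p).1 := by
  intro p hp
  obtain ⟨r, B, rfl⟩ := h.mem_P1 hp
  have e : ∑ i : E × ι, rtr (X i.1 * (T i.2)ᴴ) • (h.Φ E).D i (algebraMap ℝ _ r + h.lin B) =
      h.lin (B * X) := by
    simp only [map_add, Derivation.map_algebraMap, zero_add, D_lin, ← map_smul, ← map_sum,
      ← mul_smul_comm, ← Finset.mul_sum, h.expandE hX]
  have := (hasD_const δ r).add (h.hasD_linC hδ B)
  rw [zero_add] at this
  rw [e]
  exact this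

variable (E) in
/-- the polynomial structure -/
noncomputable def poly : Poly (h.Φ E) (F T) where
  P1 := 1 ⊔ LinearMap.range h.lin
  fin := Module.Finite.iff_fg.2 (Submodule.FG.sup
    (by rw [Submodule.one_eq_span]; exact Submodule.fg_span (Set.finite_singleton _))
    (Module.Finite.iff_fg.1 inferInstance))
  one_mem := Submodule.mem_sup_left (Submodule.one_le.1 le_rfl)
  inv i p hp := by
    obtain ⟨r, B, rfl⟩ := h.mem_P1 hp
    rw [map_add, Derivation.map_algebraMap, zero_add, D_lin]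
    exact Submodule.mem_sup_right ⟨_, rfl⟩
  comm i j p hp := by
    obtain ⟨r, B, rfl⟩ := h.mem_P1 hp
    simp only [map_add, Derivation.map_algebraMap, zero_add, D_lin, ← map_smul, ← map_sum,
      ← mul_smul_comm, ← Finset.mul_sum, ← map_sub, mul_assoc, ← mul_sub]
    congr 2
    refine (h.expandE fun e => h.lie_span _ ?_ _ ?_).symm.trans ?_
    rotate_right
    · refine Finset.sum_congr rfl fun k _ => ?_
      congr 1
      unfold F
      by_cases h1 : k.1 = i.1 <;> by_cases h2 : k.1 = j.1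
      · rw [if_pos ⟨h1.symm.trans h2, h2.symm⟩]
        simp [Pi.single_apply, if_pos h1, if_pos h2, ONB.f, Ring.lie_def]
      · rw [if_neg fun hh => h2 hh.2.symm]; simp [h2]
      · rw [if_neg fun hh => h1 (hh.2.symm.trans hh.1.symm)]; simp [h1]
      · rw [if_neg fun hh => h2 hh.2.symm]; simp [h2]
    all_goals
      rw [Pi.single_apply]
      split_ifs
      · exact Submodule.subset_span ⟨_, rfl⟩
      · exact zero_mem _
  κ := ⟨fun U => 1 + ∑ e, (n + rtr (π (U e))), by have := h.cont; fun_prop⟩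
  κ_nonneg U := add_nonneg zero_le_one
    (Finset.sum_nonneg fun e _ => by linarith [(rtr_uni (h.uni (U e))).1])
  κ_pos := by
    simp only [ContinuousMap.coe_mk, Pi.one_apply, map_one, rtr_one]
    positivity
  κ_max U hU := by
    obtain ⟨e, he⟩ := Function.ne_iff.1 hU
    simp only [ContinuousMap.coe_mk, Pi.one_apply, map_one, rtr_one, add_lt_add_iff_left]
    refine Finset.sum_lt_sum (fun e _ => by linarith [(rtr_uni (h.uni (U e))).2.1])
      ⟨e, Finset.mem_univ _, ?_⟩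
    rw [add_lt_add_iff_left]
    exact lt_of_le_of_ne (rtr_uni (h.uni (U e))).2.1 fun hh =>
      he (h.inj (((rtr_uni (h.uni (U e))).2.2 hh).trans (map_one π).symm))
  κ_mem y := by
    refine ⟨algebraMap ℝ _ (1 + ∑ _e : E, (n : ℝ)) + h.lin fun e => (π (y e))ᴴ,
      add_mem (Submodule.mem_sup_left (Submodule.algebraMap_mem _))
        (Submodule.mem_sup_right ⟨_, rfl⟩), fun x => ?_⟩
    simp only [R_add, lin_apply, ContinuousMap.coe_mk, Pi.mul_apply, Pi.inv_apply, map_mul, h.inv,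
      Finset.sum_add_distrib, ← add_assoc]
    congr 1
    refine Finset.sum_congr rfl fun e _ => ?_
    rw [← rtr_conjTranspose, conjTranspose_mul, conjTranspose_conjTranspose]
  conn x := by
    choose X hX hx using fun e => h.exists_log (x e)
    have : ∀ (t : ℝ) e, exp (t • X e) ∈ Set.range π := fun t e =>
      h.range ▸ ⟨_, Submodule.smul_mem _ t (hX e), rfl⟩
    choose δ hδ using this
    exact ⟨δ, _, h.oneP hδ, funext fun e => h.inj (by rw [hδ, one_smul, hx]), h.hasD_P1 hδ hX⟩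

/-! ### plaquettes -/

/-- complex valued polynomials -/
def PC (k : ℕ) (f : (E → G) → ℂ) : Prop :=
  ∃ p ∈ (h.poly E).P1 ^ k, ∃ q ∈ (h.poly E).P1 ^ k, ∀ U, (f U).re = p.1 U ∧ (f U).im = q.1 U

lemma PC.mul {k l : ℕ} {f g : (E → G) → ℂ} (hf : h.PC k f) (hg : h.PC l g) :
    h.PC (k + l) fun U => f U * g U := by
  obtain ⟨p, hp, q, hq, h1⟩ := hf
  obtain ⟨r, hr, s, hs, h2⟩ := hg
  exact ⟨p * r - q * s, sub_mem ((h.poly E).mul_mem_pow hp hr) ((h.poly E).mul_mem_pow hq hs),
    p * s + q * r, add_mem ((h.poly E).mul_mem_pow hp hs) ((h.poly E).mul_mem_pow hq hr),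
    fun U => by simp [h1, h2]⟩

lemma PC.sum {k : ℕ} {f : Fin n → (E → G) → ℂ} (hf : ∀ j, h.PC k (f j)) :
    h.PC k fun U => ∑ j, f j U := by
  choose p hp q hq h1 using hf
  exact ⟨∑ j, p j, Submodule.sum_mem _ fun j _ => hp j, ∑ j, q j,
    Submodule.sum_mem _ fun j _ => hq j, fun U => by simp [h1]⟩

lemma PC.star {k : ℕ} {f : (E → G) → ℂ} (hf : h.PC k f) : h.PC k fun U => star (f U) := by
  obtain ⟨p, hp, q, hq, h1⟩ := hf
  exact ⟨p, hp, -q, neg_mem hq, fun U => by simp [h1]⟩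

lemma pc_entry (B : Mat n) (e : E) (i j : Fin n) : h.PC 1 fun U => (B * π (U e)) i j := by
  have key : ∀ (c : ℂ) (U : E → G), (h.lin (Pi.single e (single j i c * B))).1 U =
      (c * (B * π (U e)) i j).re := fun c U => by
    rw [lin_apply, Finset.sum_eq_single e]
    · simp [rtr_apply, Matrix.mul_assoc, trace_single_mul]
    · intro e' _ he; simp [he]
    · simp
  rw [PC, pow_one]
  exact ⟨_, Submodule.mem_sup_right ⟨_, rfl⟩, _, Submodule.mem_sup_right ⟨_, rfl⟩, fun U =>
    ⟨by rw [key 1, one_mul], by rw [key (-Complex.I)]; simp⟩⟩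

lemma exists_Q (l : Fin 4 → E) (B : Fin 4 → Mat n) : ∃ p ∈ (h.poly E).P1 ^ 4, ∀ U, p.1 U =
    rtr (B 0 * π (U (l 0)) * (B 1 * π (U (l 1))) * (B 2 * π (U (l 2)))ᴴ * (B 3 * π (U (l 3)))ᴴ) := by
  have : h.PC (1 + 1 + 1 + 1) fun U => ∑ i, ∑ k, (∑ m, (∑ j, (B 0 * π (U (l 0))) i j *
      (B 1 * π (U (l 1))) j m) * star ((B 2 * π (U (l 2))) k m)) *
        star ((B 3 * π (U (l 3))) i k) :=
    PC.sum h fun i => PC.sum h fun k => PC.mul h (PC.sum h fun m => PC.mul h (PC.sum h fun j =>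
      PC.mul h (h.pc_entry _ _ _ _) (h.pc_entry _ _ _ _)) (PC.star h (h.pc_entry _ _ _ _)))
      (PC.star h (h.pc_entry _ _ _ _))
  obtain ⟨p, hp, _, _, h1⟩ := this
  exact ⟨p, hp, fun U => (h1 U).1.symm⟩

/-- generalised plaquette function -/
noncomputable def Q (l : Fin 4 → E) (B : Fin 4 → Mat n) : (h.Φ E).R := (h.exists_Q l B).choose

lemma Q_mem (l : Fin 4 → E) (B : Fin 4 → Mat n) : h.Q l B ∈ (h.poly E).P1 ^ 4 :=
  (h.exists_Q l B).choose_spec.1

lemma Q_apply (l : Fin 4 → E) (B : Fin 4 → Mat n) (U : E → G) : (h.Q l B).1 U =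
    rtr (B 0 * π (U (l 0)) * (B 1 * π (U (l 1))) * (B 2 * π (U (l 2)))ᴴ * (B 3 * π (U (l 3)))ᴴ) :=
  (h.exists_Q l B).choose_spec.2 U

lemma D_Q (i : E × ι) (l : Fin 4 → E) (B : Fin 4 → Mat n) : (h.Φ E).D i (h.Q l B) =
    ∑ k, h.Q l (Function.update B k (B k * Pi.single (M := fun _ => Mat n) i.1 (T i.2) (l k))) := by
  refine (h.Φ E).D_eq fun U => ?_
  have m := fun k => h.md_flow (h.single_flow i) (B k) U (l k)
  simp only [Q_apply, R_sum]
  refine ((((m 0).mul (m 1)).mul (m 2).star).mul (m 3).star).rtr.congr_deriv ?_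
  have e : (fun t => Pi.mulSingle (M := fun _ => G) i.1 (γ i.2 t)) 0 = 1 := ((h.Φ E).one i).zero
  simp only [e, one_mul, Fin.sum_univ_four, Matrix.add_mul, map_add]
  simp

lemma Dv_Q (e : E) (c : ι → ℝ) (l : Fin 4 → E) (B : Fin 4 → Mat n) : Dv e c (h.Q l B) =
    ∑ k, if l k = e then h.Q l (Function.update B k (B k * ∑ a, c a • T a)) else 0 := by
  simp only [Dv, D_Q, Finset.smul_sum]
  rw [Finset.sum_comm]
  refine Finset.sum_congr rfl fun k _ => R_ext fun U => ?_
  split_ifs with hk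
  · subst hk
    simp only [R_sum, R_smul, Q_apply, Pi.single_eq_same]
    fin_cases k <;>
      simp [Finset.mul_sum, Finset.sum_mul, conjTranspose_sum]
  · simp only [R_sum, R_smul, Q_apply, Pi.single_eq_of_ne hk]
    fin_cases k <;> simp

lemma abs_Q_le (l : Fin 4 → E) (i j : Fin 4) (X Y : Mat n) (U : E → G) :
    |(h.Q l (Function.update (Function.update (1 : Fin 4 → Mat n) i X) j
      (Function.update (1 : Fin 4 → Mat n) i X j * Y))).1 U| ≤ hs X * hs Y := by
  have cU : ∀ e, Cl 0 (π (U e)) 1 := fun e => ⟨h.uni _, rfl⟩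
  have c1 : Cl 0 (1 : Mat n) 1 := ⟨by simp, rfl⟩
  have cX : Cl 1 X (hs X) := le_rfl
  have cY : Cl 1 Y (hs Y) := le_rfl
  have cB : ∀ k, Cl ((if k = i then 1 else 0) + if k = j then 1 else 0)
      (Function.update (Function.update (1 : Fin 4 → Mat n) i X) j
        (Function.update (1 : Fin 4 → Mat n) i X j * Y) k)
      ((if k = i then hs X else 1) * if k = j then hs Y else 1) := fun k => by
    by_cases h1 : k = j <;> by_cases h2 : k = i
    · subst h1; subst h2; simpa using cX.mul cY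
    · subst h1; simpa [h2] using cY
    · subst h2; simpa [h1] using cX
    · simpa [h1, h2] using c1
  have := ((((cB 0).mul (cU (l 0))).mul ((cB 1).mul (cU (l 1)))).mul
    ((cB 2).mul (cU (l 2))).star).mul ((cB 3).mul (cU (l 3))).star
  rw [Q_apply]
  refine Cl.rtr_le ?_
  fin_cases i <;> fin_cases j <;> simpa [mul_comm (hs Y)] using this

lemma hb_plaq {P : Type} [Fintype P] (l : P → Fin 4 → E) (k : P → ℝ) {b : ℝ}
    (hb : ∀ e, 4 * ∑ p, |k p| * ∑ i, (if l p i = e then 1 else 0) ≤ b) :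
    HB (∑ p, k p • h.Q (l p) 1) b := by
  intro e0 x c hc
  have key : ∀ e, √((W2 e (Dv e0 (c e) (∑ p, k p • h.Q (l p) 1))).1 (x e)) ≤
      ∑ p, |k p| * ∑ i, ∑ j, if l p i = e0 then (if l p j = e then 1 else 0) else 0 := fun e => by
    set u := Dv e0 (c e) (∑ p, k p • h.Q (l p) 1) with hu
    have w0 := W2_nonneg e u (x e)
    have h1 : (W2 e u).1 (x e) = (Dv e (fun a => ((h.Φ E).D (e, a) u).1 (x e)) u).1 (x e) := by
      simp only [W2, Dv, R_sum, R_smul, Flows.R_mul]
    set g : ι → ℝ := fun a => ((h.Φ E).D (e, a) u).1 (x e) with hg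
    have hg2 : hs (∑ a, g a • T a) = √((W2 e u).1 (x e)) := by rw [h.hs_sum, W2_apply]
    have hc2 : hs (∑ a, c e a • T a) ≤ 1 := by rw [h.hs_sum]; exact Real.sqrt_le_one.2 (hc e)
    have l1 : ∀ (e : E) (c : ι → ℝ) {J : Type} [Fintype J] (f : J → (h.Φ E).R),
        Dv e c (∑ j, f j) = ∑ j, Dv e c (f j) := fun e c J _ f => by
      simp only [Dv, map_sum, Finset.smul_sum]
      exact Finset.sum_comm
    have l2 : ∀ (e : E) (c : ι → ℝ) (r : ℝ) (f : (h.Φ E).R), Dv e c (r • f) = r • Dv e c f :=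
      fun e c r f => by simp [Dv, Finset.smul_sum, smul_comm r]
    have h2 : Dv e g u = ∑ p, k p • ∑ i, ∑ j, if l p i = e0 then (if l p j = e then
        h.Q (l p) (Function.update (Function.update (1 : Fin 4 → Mat n) i (∑ a, c e a • T a)) j
          (Function.update (1 : Fin 4 → Mat n) i (∑ a, c e a • T a) j * ∑ a, g a • T a))
            else 0) else 0 := by
      rw [hu, l1, l1]
      refine Finset.sum_congr rfl fun p _ => ?_
      rw [l2, l2, Dv_Q, l1]
      congr 1
      refine Finset.sum_congr rfl fun i _ => ?_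
      split_ifs
      · rw [Dv_Q, Pi.one_apply, Matrix.one_mul]
      · simp [Dv]
    have h3 : (W2 e u).1 (x e) ≤ (∑ p, |k p| * ∑ i, ∑ j, if l p i = e0 then
        (if l p j = e then 1 else 0) else 0) * √((W2 e u).1 (x e)) := by
      nth_rewrite 1 [h1]
      rw [h2, R_sum, Finset.sum_mul]
      refine Finset.sum_le_sum fun p _ => (le_abs_self _).trans ?_
      rw [R_smul, abs_mul, mul_assoc]
      refine mul_le_mul_of_nonneg_left ?_ (abs_nonneg _)
      rw [R_sum, Finset.sum_mul]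
      refine (Finset.abs_sum_le_sum_abs _ _).trans (Finset.sum_le_sum fun i _ => ?_)
      rw [R_sum, Finset.sum_mul]
      refine (Finset.abs_sum_le_sum_abs _ _).trans (Finset.sum_le_sum fun j _ => ?_)
      split_ifs
      · refine (h.abs_Q_le _ _ _ _ _ _).trans ?_
        rw [hg2]
        exact mul_le_mul_of_nonneg_right hc2 (Real.sqrt_nonneg _)
      · simp
      · simp
    by_cases h0 : √((W2 e u).1 (x e)) = 0
    · rw [h0]; positivity
    · refine le_of_mul_le_mul_right ?_ (lt_of_le_of_ne (Real.sqrt_nonneg _) (Ne.symm h0))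
      rwa [Real.mul_self_sqrt w0]
  refine (Finset.sum_le_sum fun e _ => key e).trans (le_trans (le_of_eq ?_) (hb e0))
  rw [Finset.sum_comm, Finset.mul_sum]
  refine Finset.sum_congr rfl fun p _ => ?_
  rw [← Finset.mul_sum, mul_left_comm, Finset.sum_comm, Finset.mul_sum _ _ 4]
  congr 1
  refine Finset.sum_congr rfl fun i _ => ?_
  rw [Finset.sum_comm]
  split_ifs <;> simp

end Rep

end Pool.Agent.Lib.MP_7f377f_mp.KS
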