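import Mathlib
import Pool.Agent.Lib.MP_7f377f_mp.KSGroup
import Pool.Agent.Lib.MP_7f377f_mp.KSDefs

open Matrix NormedSpace MeasureTheory

set_option linter.unusedSectionVars false

namespace Pool.Agent.Lib.MP_7f377f_mp.KS

open Flows

section Inv

variable {Γ : Type} [Group Γ] [TopologicalSpace Γ] [IsTopologicalGroup Γ] [CompactSpace Γ]
  [T2Space Γ] [SecondCountableTopology Γ] [MeasurableSpace Γ] [BorelSpace Γ]
  (μ : Measure Γ) [IsProbabilityMeasure μ] [μ.IsHaarMeasure]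

lemma integral_lr (f : Γ → ℝ) (a b : Γ) : ∫ x, f (a * x * b) ∂μ = ∫ x, f x ∂μ := by
  have : IsProbabilityMeasure (μ.map (· * b)) :=
    Measure.isProbabilityMeasure_map (measurable_mul_const b).aemeasurable
  have e : μ.map (· * b) = μ := Measure.isHaarMeasure_eq_of_isProbabilityMeasure _ _
  rw [integral_mul_left_eq_self (fun x => f (x * b)) a]
  nth_rewrite 2 [← e]
  exact ((Homeomorph.mulRight b).measurableEmbedding.integral_map f).symm

lemma ground_inv {I : Type} [Fintype I] {Φ : Flows Γ I} {F : I → I → I → ℝ} (P : Poly Φ F)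
    {V Ω : C(Γ, ℝ)} {dΩ : I → C(Γ, ℝ)} {K : ℝ} (hK : 0 < K) (h1 : ∀ i, HasD (Φ.γ i) Ω (dΩ i))
    (h2 : ∀ x, 0 < Ω x) (h3 : In μ (Ω * Ω) = 1)
    (h4 : ∀ (ψ : C(Γ, ℝ)) (dψ : I → C(Γ, ℝ)), (∀ i, HasD (Φ.γ i) ψ (dψ i)) →
        K * (In μ (ψ * ψ) - In μ (ψ * Ω) ^ 2) ≤ In μ (∑ i, dψ i * dψ i + V * (ψ * ψ)) -
          In μ (∑ i, dΩ i * dΩ i + V * (Ω * Ω)) * In μ (ψ * ψ))
    (a b : Γ) (hV : ∀ x, V (a * x * b) = V x) (O : I → I → ℝ)
    (hO : ∀ v : I → ℝ, ∑ i, (∑ j, O i j * v j) ^ 2 = ∑ j, v j ^ 2)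
    (hd : ∀ i, ∀ p ∈ P.P1, HasD (fun t => a * Φ.γ i t * a⁻¹) p.1 (∑ j, O i j • Φ.D j p).1)
    (x : Γ) : Ω (a * x * b) = Ω x := by
  let τ : C(Γ, Γ) := ⟨fun x => a * x * b, by fun_prop⟩
  have hτ : ∀ f : C(Γ, ℝ), In μ (f.comp τ) = In μ f := fun f => integral_lr μ f a b
  have hψ : ∀ i, HasD (Φ.γ i) (Ω.comp τ) ((∑ j, O i j • dΩ j).comp τ) := fun i x => by
    have := P.dir_all μ (δ := fun t => a * Φ.γ i t * a⁻¹)
      (fun s t => by simp [Φ.one i s t, mul_assoc]) (hd i) h1 (a * x * b)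
    simpa [τ, mul_assoc] using this
  have e1 : In μ (Ω.comp τ * Ω.comp τ) = 1 := (hτ (Ω * Ω)).trans h3
  have e2 : In μ (∑ i, (∑ j, O i j • dΩ j).comp τ * (∑ j, O i j • dΩ j).comp τ +
      V * (Ω.comp τ * Ω.comp τ)) = In μ (∑ i, dΩ i * dΩ i + V * (Ω * Ω)) := by
    rw [← hτ (∑ i, dΩ i * dΩ i + V * (Ω * Ω))]
    congr 1
    ext x
    have := hO fun j => dΩ j (a * x * b)
    simp only [sq] at this
    simp [τ, hV, this]
  have h5 := h4 _ _ hψ
  rw [e1, e2, mul_one, sub_self] at h5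
  have h6 : 0 < In μ (Ω.comp τ * Ω) := In_pos μ fun x => mul_pos (h2 _) (h2 _)
  have h7 : 1 ≤ In μ (Ω.comp τ * Ω) := by
    have := nonpos_of_mul_nonpos_right h5 hK
    nlinarith
  have h8 : In μ ((Ω.comp τ - Ω) * (Ω.comp τ - Ω)) = 0 := by
    refine le_antisymm ?_ (In_nonneg μ fun x => mul_self_nonneg _)
    simp only [mul_sub, sub_mul, map_sub, e1, h3, mul_comm Ω (Ω.comp τ)]
    linarith
  by_contra hx
  exact (Continuous.integral_pos_of_hasCompactSupport_nonneg_nonzero (μ := μ) (x := x)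
    ((Ω.comp τ - Ω) * (Ω.comp τ - Ω)).continuous (HasCompactSupport.of_compactSpace _)
    (fun x => mul_self_nonneg _) (mul_self_ne_zero.2 (sub_ne_zero.2 hx))).ne' h8

end Inv

variable {n : ℕ} {G : Type} [Group G] [TopologicalSpace G] [IsTopologicalGroup G] [CompactSpace G]
  [T2Space G] [SecondCountableTopology G] [MeasurableSpace G] [BorelSpace G]
  {ι : Type} [Fintype ι] [DecidableEq ι]
  {π : G →* Mat n} {T : ι → Mat n} {ρ : ℝ} {γ : ι → ℝ → G}

lemma Rep.exists_rot (h : Rep π T ρ γ) {E : Type} [Fintype E] [DecidableEq E] (a : E → G) :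
    ∃ O : E × ι → E × ι → ℝ, (∀ v : E × ι → ℝ, ∑ i, (∑ j, O i j * v j) ^ 2 = ∑ j, v j ^ 2) ∧
      ∀ i, ∀ p ∈ (h.poly E).P1, HasD (fun t => a * (h.Φ E).γ i t * a⁻¹) p.1
        (∑ j, O i j • (h.Φ E).D j p).1 := by
  let X : E × ι → E → Mat n := fun i e =>
    π (a e) * Pi.single (M := fun _ => Mat n) i.1 (T i.2) e * π (a e)⁻¹
  have hX : ∀ i e, X i e ∈ Submodule.span ℝ (Set.range T) := fun i e => h.conj _ (by
    rw [Pi.single_apply]
    split_ifs
    · exact Submodule.subset_span ⟨_, rfl⟩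
    · exact zero_mem _)
  let O : Matrix (E × ι) (E × ι) ℝ := Matrix.of fun i j => rtr (X i j.1 * (T j.2)ᴴ)
  have hO : O * Oᵀ = 1 := by
    ext i j
    have e1 : ∀ e, ∑ c, rtr (X i e * (T c)ᴴ) * rtr (X j e * (T c)ᴴ) =
        if e = i.1 ∧ i = j then 1 else 0 := fun e => by
      have e2 : ∑ c, rtr (X i e * (T c)ᴴ) * rtr (X j e * (T c)ᴴ) = rtr (X i e * (X j e)ᴴ) := by
        conv_rhs => rw [← h.expand (hX j e)]
        simp [conjTranspose_sum, Finset.mul_sum, mul_comm]
      have e3 : rtr (X i e * (X j e)ᴴ) = rtr (Pi.single (M := fun _ => Mat n) i.1 (T i.2) e *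
          (Pi.single (M := fun _ => Mat n) j.1 (T j.2) e)ᴴ) := by
        simp only [X, h.inv, conjTranspose_mul, conjTranspose_conjTranspose, Matrix.mul_assoc]
        rw [rtr_comm, ← Matrix.mul_assoc (π (a e))ᴴ, h.uni]
        simp [Matrix.mul_assoc, h.uni]
      rw [e2, e3]
      obtain ⟨i1, i2⟩ := i
      obtain ⟨j1, j2⟩ := j
      by_cases h1 : e = i1
      · subst h1
        by_cases h2 : e = j1
        · subst h2; simp [h.orth]
        · simp [h2]
      · simp [h1]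
    simp only [mul_apply, transpose_apply, O, of_apply, Fintype.sum_prod_type, e1, one_apply]
    by_cases hij : i = j <;> simp [hij]
  refine ⟨O, fun v => ?_, fun i => h.hasD_P1 (fun t e => ?_) (hX i)⟩
  · have := mul_eq_one_comm.1 hO
    calc ∑ i, (∑ j, O i j * v j) ^ 2 = (O *ᵥ v) ⬝ᵥ (O *ᵥ v) := by simp [dotProduct, mulVec, sq]
      _ = v ⬝ᵥ v := by rw [dotProduct_mulVec, vecMul_mulVec, this, vecMul_one]
      _ = _ := by simp [dotProduct, sq]
  · have hu : π (a e) * π (a e)⁻¹ = 1 := by rw [← map_mul, mul_inv_cancel, map_one]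
    simp only [X, Pi.mul_apply, Pi.inv_apply, map_mul]
    rw [← smul_mul_assoc, ← mul_smul_comm, ← inv_eq_right_inv hu,
      Matrix.exp_conj _ _ (IsUnit.of_mul_eq_one _ hu)]
    congr 2
    exact h.single_flow i t e

variable {D L : ℕ} [NeZero L]

/-- the four links of a plaquette -/
def pl (p : (Fin D → ZMod L) × Fin D × Fin D) : Fin 4 → Link D L :=
  ![(p.1, p.2.1), (p.1 + Pi.single p.2.1 1, p.2.2), (p.1 + Pi.single p.2.2 1, p.2.1), (p.1, p.2.2)]

lemma count_pl (k : ℝ) (e : Link D L) :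
    4 * ∑ p : (Fin D → ZMod L) × Fin D × Fin D, |if p.2.1 < p.2.2 then -k else 0| *
      ∑ i, (if pl p i = e then 1 else 0) ≤ 8 * (D - 1) * |k| := by
  obtain ⟨y, m⟩ := e
  have h1 : ∀ (v : Fin D → ZMod L) (i : Fin D),
      ∑ x : Fin D → ZMod L, (if (x + v, i) = (y, m) then (1 : ℝ) else 0) =
        if i = m then 1 else 0 := fun v i => by
    by_cases hi : i = m
    · simp [hi, ← eq_sub_iff_add_eq]
    · simp [hi]
  have h0 := h1 0
  simp only [add_zero] at h0
  have hp : ∀ (x : Fin D → ZMod L) (q : Fin D × Fin D),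
      ∑ i, (if pl (x, q) i = (y, m) then (1 : ℝ) else 0) =
      (((if (x, q.1) = (y, m) then 1 else 0) +
        if (x + Pi.single q.1 1, q.2) = (y, m) then 1 else 0) +
        if (x + Pi.single q.2 1, q.1) = (y, m) then 1 else 0) +
        if (x, q.2) = (y, m) then 1 else 0 := fun x q => by
    rw [Fin.sum_univ_four]; rfl
  rw [Fintype.sum_prod_type, Finset.sum_comm]
  change 4 * ∑ q : Fin D × Fin D, ∑ x, |if q.1 < q.2 then -k else 0| *
    ∑ i, (if pl (x, q) i = (y, m) then (1 : ℝ) else 0) ≤ _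
  simp only [← Finset.mul_sum, hp, Finset.sum_add_distrib, h0, h1]
  have h2 : ∀ q : Fin D × Fin D, |if q.1 < q.2 then -k else 0| *
      ((((if q.1 = m then 1 else 0) + if q.2 = m then 1 else 0) + if q.1 = m then 1 else 0) +
        if q.2 = m then 1 else 0) =
      2 * |k| * ((if q.1 = m then (if m < q.2 then 1 else 0) else 0) +
        if q.2 = m then (if q.1 < m then 1 else 0) else 0) := by
    rintro ⟨i, j⟩
    by_cases a : i = m <;> by_cases b : j = m
    · simp [a, b]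
    · subst a; by_cases c : i < j <;> simp [b, c]; ring
    · subst b; by_cases c : i < j <;> simp [a, c]; ring
    · simp [a, b]
  simp only [h2, ← Finset.mul_sum, Finset.sum_add_distrib]
  rw [Fintype.sum_prod_type, Fintype.sum_prod_type_right]
  simp only [Finset.sum_ite_irrel, Finset.sum_const_zero, Finset.sum_ite_eq', Finset.mem_univ,
    if_true]
  rw [← Finset.sum_add_distrib]
  have h3 : ∀ j : Fin D, ((if m < j then (1 : ℝ) else 0) + if j < m then 1 else 0) =
      1 - if j = m then 1 else 0 := fun j => by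
    rcases lt_trichotomy j m with c | c | c
    · simp [c, c.ne, not_lt.2 c.le]
    · simp [c]
    · simp [c, c.ne', not_lt.2 c.le]
  simp only [h3, Finset.sum_sub_distrib, Finset.sum_ite_eq', Finset.mem_univ, if_true,
    Finset.sum_const, Finset.card_univ, Fintype.card_fin, nsmul_eq_mul, mul_one]
  exact le_of_eq (by ring)

lemma Rep.flow_mul (h : Rep π T ρ γ) {E : Type} [Fintype E] [DecidableEq E] (e : E) (a : ι)
    (t : ℝ) (U : E → G) : (h.Φ E).γ (e, a) t * U = Function.update U e (γ a t * U e) := by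
  ext1 e'
  by_cases he : e' = e
  · subst he; simp [Rep.Φ]
  · simp [Rep.Φ, he]

theorem Rep.main (h : Rep π T ρ γ) (μ : Measure G) [IsProbabilityMeasure μ] [μ.IsHaarMeasure]
    (hρ : 0 < ρ) {k : ℝ} (hk : 64 * (D - 1) * |k| < ρ ^ 2) :
    ∃ Ω : (Link D L → G) → ℝ, (∀ U, 0 < Ω U) ∧ (∀ g U, Ω (gauge g U) = Ω U) ∧
      IsC1 γ (fun U => (Ω U : ℂ)) ∧ ∫ U, Ω U ^ 2 ∂(Measure.pi fun _ => μ) = 1 ∧
      ∀ ψ : (Link D L → G) → ℂ, IsC1 γ ψ →
        ρ / 2 * (∫ U, ‖ψ U‖ ^ 2 ∂(Measure.pi fun _ => μ) -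
            ‖∫ U, Ω U * ψ U ∂(Measure.pi fun _ => μ)‖ ^ 2) ≤
          energy μ π γ k ψ -
            energy μ π γ k (fun U => (Ω U : ℂ)) * ∫ U, ‖ψ U‖ ^ 2 ∂(Measure.pi fun _ => μ) := by
  set ν : Measure (Link D L → G) := Measure.pi fun _ => μ with hν
  set V := ∑ p : (Fin D → ZMod L) × Fin D × Fin D,
    (if p.2.1 < p.2.2 then -k else 0) • h.Q (pl p) 1 with hV
  have hV1 : ∀ U, V.1 U =
      -(k * ∑ x, ∑ i, ∑ j ∈ Finset.Ioi i, (π (plaq U x i j)).trace.re) := fun U => by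
    simp only [hV, R_sum, R_smul, Fintype.sum_prod_type, Finset.mul_sum, ← Finset.sum_neg_distrib]
    refine Finset.sum_congr rfl fun x _ => Finset.sum_congr rfl fun i _ => ?_
    rw [← Finset.filter_lt_eq_Ioi, Finset.sum_filter]
    refine Finset.sum_congr rfl fun j _ => ?_
    split_ifs
    · simp [h.Q_apply, plaq, pl, h.inv, rtr_apply]
    · simp
  obtain ⟨Ω, dΩ, h1, h2, h3, h4⟩ := (h.poly (Link D L)).gap ν Rep.F12 h.F23 h.blk hρ
    (V := V) (Submodule.sum_mem _ fun p _ => Submodule.smul_mem _ _ (h.Q_mem _ _))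
    (h.hb_plaq _ _ (count_pl k)) (by linarith)
  have hd : ∀ {f : C(Link D L → G, ℝ)} {f' : Link D L × ι → C(Link D L → G, ℝ)},
      (∀ i, HasD ((h.Φ _).γ i) f (f' i)) → ∀ a e U, HasDerivAt
        (fun t => (f (Function.update U e (γ a t * U e)) : ℂ)) (f' (e, a) U) 0 := fun hf a e U => by
    simpa only [h.flow_mul] using (hf (e, a) U).ofReal_comp
  have hE : ∀ {f g : C(Link D L → G, ℝ)} {f' g' : Link D L × ι → C(Link D L → G, ℝ)},
      (∀ i, HasD ((h.Φ _).γ i) f (f' i)) → (∀ i, HasD ((h.Φ _).γ i) g (g' i)) →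
      energy μ π γ k (fun U => f U + g U * Complex.I) =
        In ν (∑ i, f' i * f' i + V.1 * (f * f)) + In ν (∑ i, g' i * g' i + V.1 * (g * g)) := by
    intro f g f' g' hf hg
    rw [← map_add, In_apply, energy]
    congr 1
    ext U
    have : ∀ a e, dir (γ a) e (fun U => f U + g U * Complex.I) U =
        f' (e, a) U + g' (e, a) U * Complex.I := fun a e =>
      ((hd hf a e U).fun_add ((hd hg a e U).mul_const _)).deriv
    simp only [this, Complex.sq_norm, Complex.normSq_add_mul_I]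
    simp only [ContinuousMap.add_apply, ContinuousMap.coe_sum, Finset.sum_apply, ContinuousMap.mul_apply, hV1,
      Fintype.sum_prod_type, Finset.sum_add_distrib, sq]
    ring
  refine ⟨Ω, h2, fun g U => ?_, ⟨by fun_prop, fun a e => ⟨?_, fun U =>
    (hd h1 a e U).differentiableAt⟩⟩, by simpa [In_apply, sq] using h3, fun ψ hψ => ?_⟩
  · obtain ⟨O, hO, hO'⟩ := h.exists_rot fun e : Link D L => g e.1
    refine ground_inv ν (h.poly _) (half_pos hρ) h1 h2 h3 h4 (fun e => g e.1)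
      (fun e => (g (e.1 + Pi.single e.2 1))⁻¹) (fun U => ?_) O hO hO' U
    rw [hV1, hV1]
    congr 2
    refine Finset.sum_congr rfl fun x _ => Finset.sum_congr rfl fun i _ =>
      Finset.sum_congr rfl fun j _ => ?_
    have : plaq ((fun e => g e.1) * U * fun e => (g (e.1 + Pi.single e.2 1))⁻¹) x i j =
        g x * plaq U x i j * (g x)⁻¹ := by
      simp only [plaq, Pi.mul_apply, add_right_comm x (Pi.single i 1)]
      group
    rw [this, map_mul, map_mul, trace_mul_comm, ← Matrix.mul_assoc, ← map_mul, inv_mul_cancel,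
      map_one, Matrix.one_mul]
  · have : dir (γ a) e (fun U => (Ω U : ℂ)) = fun U => (dΩ (e, a) U : ℂ) :=
      funext fun U => (hd h1 a e U).deriv
    rw [this]
    fun_prop
  · have c0 := hψ.1
    let f : C(Link D L → G, ℝ) := ⟨fun U => (ψ U).re, by fun_prop⟩
    let g : C(Link D L → G, ℝ) := ⟨fun U => (ψ U).im, by fun_prop⟩
    let f' : Link D L × ι → C(Link D L → G, ℝ) := fun i =>
      ⟨fun U => (dir (γ i.2) i.1 ψ U).re, Complex.continuous_re.comp (hψ.2 _ _).1⟩
    let g' : Link D L × ι → C(Link D L → G, ℝ) := fun i =>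
      ⟨fun U => (dir (γ i.2) i.1 ψ U).im, Complex.continuous_im.comp (hψ.2 _ _).1⟩
    have hf : ∀ i, HasD ((h.Φ _).γ i) f (f' i) := fun i U => by
      simp only [h.flow_mul i.1 i.2]
      exact Complex.reCLM.hasFDerivAt.comp_hasDerivAt 0 ((hψ.2 i.2 i.1).2 U).hasDerivAt
    have hg : ∀ i, HasD ((h.Φ _).γ i) g (g' i) := fun i U => by
      simp only [h.flow_mul i.1 i.2]
      exact Complex.imCLM.hasFDerivAt.comp_hasDerivAt 0 ((hψ.2 i.2 i.1).2 U).hasDerivAt
    have e0 : ψ = fun U => f U + g U * Complex.I := funext fun U => (Complex.re_add_im _).symm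
    have e1 := hE h1 (g := 0) (g' := fun _ => 0) fun i => by simpa using hasD_const _ 0
    simp only [ContinuousMap.zero_apply, Complex.ofReal_zero, zero_mul, add_zero, mul_zero,
      Finset.sum_const_zero, map_zero] at e1
    have e2 : ∫ U, ‖ψ U‖ ^ 2 ∂ν = In ν (f * f) + In ν (g * g) := by
      rw [← map_add, In_apply]
      simp [f, g, Complex.sq_norm, Complex.normSq_apply]
    have e3 : ∫ U, Ω U * ψ U ∂ν = In ν (f * Ω) + In ν (g * Ω) * Complex.I := by
      rw [In_apply, In_apply, ← integral_complex_ofReal, ← integral_complex_ofReal,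
        ← integral_mul_const, ← integral_add]
      · congr 1
        ext U
        nth_rewrite 1 [e0]
        simp only [ContinuousMap.mul_apply]
        push_cast
        ring
      · exact Continuous.integrable_of_hasCompactSupport (by fun_prop)
          (HasCompactSupport.of_compactSpace _)
      · exact Continuous.integrable_of_hasCompactSupport (by fun_prop)
          (HasCompactSupport.of_compactSpace _)
    rw [e1, e2, e3, Complex.sq_norm, Complex.normSq_add_mul_I]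
    nth_rewrite 1 [e0]
    rw [hE hf hg]
    linarith [h4 f f' hf, h4 g g' hg]

end Pool.Agent.Lib.MP_7f377f_mp.KS
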