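import Mathlib

/-! Haar measure of `SU(2)` in the gnomonic chart. -/

namespace Pool.Agent.Lib.MP_7f377f_mp.Kit

open MeasureTheory Measure Matrix Complex Set
open scoped ENNReal

abbrev M2 : Type := Matrix (Fin 2) (Fin 2) ℂ
abbrev SU2 : Type := Matrix.specialUnitaryGroup (Fin 2) ℂ
abbrev R3 : Type := EuclideanSpace ℝ (Fin 3)

instance su2Inv : ContinuousInv SU2 where
  continuous_inv := by
    refine Continuous.subtype_mk (f := fun A : SU2 => star A.1) ?_ _
    exact continuous_subtype_val.matrix_conjTranspose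

instance su2Top : IsTopologicalGroup SU2 where

instance su2Compact : CompactSpace SU2 := by
  have h1 : IsCompact ((Metric.closedBall (0 : ℂ) 1).matrix : Set M2) :=
    (isCompact_closedBall 0 1).matrix
  have h2 : IsClosed ((specialUnitaryGroup (Fin 2) ℂ : Submonoid M2) : Set M2) := by
    have : ((specialUnitaryGroup (Fin 2) ℂ : Submonoid M2) : Set M2) =
        {A | A * Aᴴ = 1} ∩ {A | A.det = 1} := by
      ext A
      simp [mem_specialUnitaryGroup_iff, mem_unitaryGroup_iff, star_eq_conjTranspose]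
    rw [this]
    exact (isClosed_eq (continuous_id.matrix_mul continuous_id.matrix_conjTranspose)
      continuous_const).inter (isClosed_eq continuous_id.matrix_det continuous_const)
  refine isCompact_iff_compactSpace.1 (h1.of_isClosed_subset h2 fun A hA => ?_)
  rw [Set.mem_matrix]
  intro i j
  simpa using entry_norm_bound_of_unitary hA.1 i j

instance su2Second : SecondCountableTopology SU2 := by
  have : SecondCountableTopology M2 := inferInstanceAs (SecondCountableTopology (Fin 2 → Fin 2 → ℂ))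
  exact TopologicalSpace.Subtype.secondCountableTopology _

/-- the traceless matrix `i a.sigma` -/
def su (a : Fin 3 → ℂ) : M2 := !![a 2 * I, a 0 * I + a 1; a 0 * I - a 1, -(a 2 * I)]

/-- the real element of the Lie algebra with coordinates `a` -/
def sr (a : R3) : M2 := su fun i => (a i : ℂ)

/-- real quaternions: the adjugate is the Hermitian conjugate -/
def IsQ (M : M2) : Prop := M.adjugate = star M

theorem isQ_iff (M : M2) : IsQ M ↔ M 1 1 = star (M 0 0) ∧ M 1 0 = -star (M 0 1) := by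
  rw [IsQ, adjugate_fin_two]
  constructor
  · intro h
    have h0 := congrFun (congrFun h 0) 0
    have h1 := congrFun (congrFun h 1) 0
    simp [star_apply] at h0 h1
    exact ⟨h0, by simp [← h1]⟩
  · rintro ⟨h0, h1⟩
    ext i j
    fin_cases i <;> fin_cases j <;> simp [star_apply, h0, h1]

theorem IsQ.mul {M N : M2} (h : IsQ M) (h' : IsQ N) : IsQ (M * N) := by
  rw [IsQ, adjugate_mul_distrib, star_mul, h, h']

theorem isQ_su2 (u : SU2) : IsQ u.1 := by
  have h1 : u.1 * star u.1 = 1 := u.2.1.2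
  have h2 : u.1.det = 1 := u.2.2
  rw [IsQ, ← mul_one u.1.adjugate, ← h1, ← mul_assoc, adjugate_mul, h2, one_smul, one_mul]

/-- the quaternion with coordinates `x` -/
noncomputable def qm : ℝ × R3 →ₗ[ℝ] M2 where
  toFun x := x.1 • 1 + sr x.2
  map_add' x y := by
    ext i j
    fin_cases i <;> fin_cases j <;> simp [sr, su] <;> ring
  map_smul' c x := by
    ext i j
    fin_cases i <;> fin_cases j <;> simp [sr, su] <;> ring

/-- the coordinates of a quaternion -/
noncomputable def co : M2 →ₗ[ℝ] ℝ × R3 where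
  toFun M := ((M 0 0).re, WithLp.toLp 2 ![(M 0 1).im, (M 0 1).re, (M 0 0).im])
  map_add' x y := by
    ext i
    · simp
    · fin_cases i <;> simp
  map_smul' c x := by
    ext i
    · simp
    · fin_cases i <;> simp

theorem qm_co {M : M2} (h : IsQ M) : qm (co M) = M := by
  obtain ⟨h0, h1⟩ := (isQ_iff M).1 h
  ext i j
  fin_cases i <;> fin_cases j <;> simp [qm, co, sr, su, h0, h1, Complex.ext_iff]

theorem isQ_qm (x : ℝ × R3) : IsQ (qm x) := by
  rw [isQ_iff]
  simp [qm, sr, su, Complex.ext_iff]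

theorem det_qm (x : ℝ × R3) : (qm x).det = ((x.1 ^ 2 + ‖x.2‖ ^ 2 : ℝ) : ℂ) := by
  rw [EuclideanSpace.real_norm_sq_eq, det_fin_two, Fin.sum_univ_three]
  simp [qm, sr, su]
  ring_nf
  simp only [I_sq]
  ring

theorem trace_qm (x : ℝ × R3) : (qm x).trace = ((2 * x.1 : ℝ) : ℂ) := by
  simp [qm, sr, su, trace_fin_two]
  ring

theorem mem_su2 {M : M2} (h : IsQ M) (hd : M.det = 1) : M ∈ specialUnitaryGroup (Fin 2) ℂ := by
  rw [mem_specialUnitaryGroup_iff, mem_unitaryGroup_iff, ← h, mul_adjugate, hd, one_smul]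
  exact ⟨rfl, rfl⟩

/-- the squared length -/
noncomputable def nq (x : ℝ × R3) : ℝ := x.1 ^ 2 + ‖x.2‖ ^ 2

theorem nq_pos {x : ℝ × R3} (hx : x ≠ 0) : 0 < nq x := by
  by_contra h
  have h0 : x.1 ^ 2 + ‖x.2‖ ^ 2 ≤ 0 := not_lt.1 h
  have h1 : x.1 = 0 := by nlinarith [sq_nonneg x.1, sq_nonneg ‖x.2‖]
  have h2 : ‖x.2‖ = 0 := by nlinarith [sq_nonneg x.1, sq_nonneg ‖x.2‖, norm_nonneg x.2]
  exact hx (Prod.ext h1 (norm_eq_zero.1 h2))

theorem nrm_mem {x : ℝ × R3} (hx : x ≠ 0) :
    (√(nq x))⁻¹ • qm x ∈ specialUnitaryGroup (Fin 2) ℂ := by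
  rw [← map_smul]
  refine mem_su2 (isQ_qm _) ?_
  have h := nq_pos hx
  have h' : (√(nq x)) ^ 2 = nq x := Real.sq_sqrt h.le
  rw [det_qm, Prod.smul_fst, Prod.smul_snd, norm_smul, smul_eq_mul, mul_pow, mul_pow,
    Real.norm_eq_abs, sq_abs, ← mul_add, inv_pow, h']
  rw [show x.1 ^ 2 + ‖x.2‖ ^ 2 = nq x from rfl, inv_mul_cancel₀ h.ne', ofReal_one]

open Classical in
/-- radial projection to the group -/
noncomputable def nrm (x : ℝ × R3) : SU2 := if h : x = 0 then 1 else ⟨_, nrm_mem h⟩

theorem nrm_val {x : ℝ × R3} (hx : x ≠ 0) : (nrm x).1 = (√(nq x))⁻¹ • qm x := by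
  rw [nrm, dif_neg hx]

/-- the gnomonic chart -/
noncomputable def ex (a : R3) : SU2 := nrm (1, a)

theorem ex_val (a : R3) : (ex a).1 = (√(1 + ‖a‖ ^ 2))⁻¹ • (1 + sr a) := by
  rw [ex, nrm_val (by simp)]
  simp [nq, qm]

theorem contOn_nrm : ContinuousOn nrm {0}ᶜ := by
  rw [Topology.IsInducing.subtypeVal.continuousOn_iff]
  have h1 : Continuous (qm : ℝ × R3 → M2) := LinearMap.continuous_of_finiteDimensional _
  have h2 : Continuous nq := by unfold nq; fun_prop
  refine ContinuousOn.congr (f := fun x => (√(nq x))⁻¹ • qm x) ?_ fun x hx => nrm_val hx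
  exact (h2.sqrt.continuousOn.inv₀ fun x hx => (Real.sqrt_pos.2 (nq_pos hx)).ne').smul
    h1.continuousOn

theorem continuous_ex : Continuous ex :=
  contOn_nrm.comp_continuous (f := fun a : R3 => ((1 : ℝ), a)) (by fun_prop) fun a => by simp

theorem nrm_smul {s : ℝ} (hs : 0 < s) (a : R3) : nrm (s, s • a) = ex a := by
  refine Subtype.ext ?_
  have e : ((s, s • a) : ℝ × R3) = s • ((1 : ℝ), a) := by simp
  have e2 : nq (s, s • a) = s ^ 2 * nq (1, a) := by
    simp only [nq, norm_smul, Real.norm_eq_abs, mul_pow, sq_abs]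
    ring
  rw [ex, nrm_val (by simp [hs.ne']), nrm_val (by simp), e2, Real.sqrt_mul (sq_nonneg s),
    Real.sqrt_sq hs.le, e, map_smul, smul_smul]
  congr 1
  field_simp

/-- the half of the group covered by the chart -/
def pos : Set SU2 := {g | 0 < g.1.trace.re}

theorem isOpen_pos : IsOpen pos :=
  isOpen_lt continuous_const (continuous_re.comp continuous_subtype_val.matrix_trace)

theorem nrm_pos {x : ℝ × R3} (hx : x ≠ 0) : nrm x ∈ pos ↔ 0 < x.1 := by
  have h := Real.sqrt_pos.2 (nq_pos hx)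
  rw [pos, mem_ofPred, nrm_val hx, trace_smul, trace_qm, Complex.real_smul, ← ofReal_mul, ofReal_re,
    mul_pos_iff_of_pos_left (inv_pos.2 h)]
  simp

instance haarP : (volume : Measure (ℝ × R3)).IsAddHaarMeasure :=
  Measure.prod.instIsAddHaarMeasure _ _

theorem ae_ne0 : ∀ᵐ x : ℝ × R3, x ≠ 0 := by simp [ae_iff]

theorem mp_mul (u : SU2) : ∃ T : ℝ × R3 →ₗ[ℝ] ℝ × R3,
    MeasurePreserving T volume volume ∧ (∀ x, nq (T x) = nq x) ∧
      ∀ x, x ≠ 0 → nrm (T x) = u * nrm x := by
  set T : ℝ × R3 →ₗ[ℝ] ℝ × R3 := co ∘ₗ LinearMap.mulLeft ℝ u.1 ∘ₗ qm with hT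
  have h1 : ∀ x, qm (T x) = u.1 * qm x := fun x => qm_co ((isQ_su2 u).mul (isQ_qm x))
  have h2 : ∀ x, nq (T x) = nq x := fun x => by
    have := det_qm (T x)
    rw [h1, det_mul, show u.1.det = 1 from u.2.2, one_mul, det_qm] at this
    exact (ofReal_injective this).symm
  have h3 : ∀ x, x ≠ 0 → T x ≠ 0 := fun x hx h => by
    have := h2 x
    rw [h] at this
    have h' := nq_pos hx
    simp [nq] at this h'
    linarith
  have hd : LinearMap.det T ≠ 0 := by
    refine (LinearMap.isUnit_det T ?_).ne_zero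
    rw [LinearMap.isUnit_iff_ker_eq_bot, LinearMap.ker_eq_bot']
    exact fun x hx => by_contra fun h => h3 x h hx
  have hm : Measurable T := (LinearMap.continuous_of_finiteDimensional T).measurable
  have hc : Continuous nq := by unfold nq; fun_prop
  have ho : IsOpen {x | nq x < 1} := isOpen_lt hc continuous_const
  refine ⟨T, ⟨hm, ?_⟩, h2, fun x hx => Subtype.ext ?_⟩
  · have h := map_linearMap_addHaar_eq_smul_addHaar (volume : Measure (ℝ × R3)) hd
    have h' := congrArg (fun m : Measure (ℝ × R3) => m {x | nq x < 1}) h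
    simp only [map_apply hm ho.measurableSet, preimage_ofPred_eq, h2, Measure.smul_apply,
      smul_eq_mul] at h'
    have p1 : volume {x | nq x < 1} ≠ 0 := (ho.measure_pos _ ⟨0, by simp [nq]⟩).ne'
    have p2 : volume {x | nq x < 1} ≠ ∞ := by
      refine (Bornology.IsBounded.measure_lt_top ?_).ne
      refine (Metric.isBounded_closedBall (x := 0) (r := 1)).subset fun x hx => ?_
      have hx' : x.1 ^ 2 + ‖x.2‖ ^ 2 < 1 := hx
      rw [mem_closedBall_zero_iff, Prod.norm_def, max_le_iff, Real.norm_eq_abs, abs_le]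
      refine ⟨⟨?_, ?_⟩, ?_⟩ <;> nlinarith [sq_nonneg x.1, sq_nonneg ‖x.2‖, norm_nonneg x.2]
    rw [h, ← (ENNReal.mul_left_inj p1 p2).1 ((one_mul _).trans h'), one_smul]
  · rw [nrm_val (h3 x hx), h1, h2, Submonoid.coe_mul, nrm_val hx, mul_smul_comm]

/-- density of Haar measure in the chart -/
noncomputable def hd (a : R3) : ℝ≥0∞ := ENNReal.ofReal ((1 + ‖a‖ ^ 2) ^ 2)⁻¹

theorem measurable_hd : Measurable hd := by unfold hd; fun_prop

theorem radial (a : R3) : ∫⁻ s in Ioi (0 : ℝ), ENNReal.ofReal (s ^ 3) *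
    {x | nq x < 1}.indicator 1 (s, s • a) = 4⁻¹ * hd a := by
  set c : ℝ := 1 + ‖a‖ ^ 2 with hc
  have c0 : 0 < c := by positivity
  have r0 : 0 < (√c)⁻¹ := inv_pos.2 (Real.sqrt_pos.2 c0)
  have r2 : (√c)⁻¹ ^ 2 = c⁻¹ := by rw [inv_pow, Real.sq_sqrt c0.le]
  have e : ∀ s ∈ Ioi (0 : ℝ), ENNReal.ofReal (s ^ 3) * {x | nq x < 1}.indicator 1 (s, s • a) =
      (Iio (√c)⁻¹).indicator (fun s => ENNReal.ofReal (s ^ 3)) s := by
    intro s hs
    have e2 : nq (s, s • a) = s ^ 2 * c := by
      simp only [nq, norm_smul, Real.norm_eq_abs, mul_pow, sq_abs, hc]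
      ring
    have : (s, s • a) ∈ {x | nq x < 1} ↔ s ∈ Iio (√c)⁻¹ := by
      rw [mem_ofPred, e2, mem_Iio, ← pow_lt_pow_iff_left₀ (le_of_lt hs) r0.le two_ne_zero, r2,
        ← lt_div_iff₀ c0, one_div]
    by_cases h : s ∈ Iio (√c)⁻¹
    · rw [indicator_of_mem h, indicator_of_mem (this.2 h), Pi.one_apply, mul_one]
    · rw [indicator_of_notMem h, indicator_of_notMem (mt this.1 h), mul_zero]
  rw [setLIntegral_congr_fun measurableSet_Ioi e, lintegral_indicator measurableSet_Iio,
    restrict_restrict measurableSet_Iio, inter_comm, Ioi_inter_Iio,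
    ← ofReal_integral_eq_lintegral_ofReal, ← integral_Ioc_eq_integral_Ioo,
    ← intervalIntegral.integral_of_le r0.le, integral_pow, hd, ← hc]
  · rw [show (3 + 1 : ℕ) = 2 * 2 from rfl, pow_mul, r2, zero_pow (by norm_num), sub_zero,
      div_eq_inv_mul, ENNReal.ofReal_mul (by positivity), inv_pow,
      ENNReal.ofReal_inv_of_pos (by positivity)]
    norm_num
  · exact ((continuous_pow 3).integrableOn_Icc (a := 0) (b := (√c)⁻¹)).mono_set Ioo_subset_Icc_self
  · filter_upwards [ae_restrict_mem measurableSet_Ioo] with s hs using pow_nonneg hs.1.le 3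

variable [MeasurableSpace SU2] [BorelSpace SU2]

theorem measurable_nrm : Measurable nrm := measurable_of_continuousOn_compl_singleton 0 contOn_nrm

theorem haar_chart (μ : Measure SU2) [μ.IsHaarMeasure] : ∃ c : ℝ≥0∞, c ≠ 0 ∧ c ≠ ∞ ∧
    ∀ F : SU2 → ℝ≥0∞, Measurable F → ∫⁻ g in pos, F g ∂μ = c * ∫⁻ a, hd a * F (ex a) := by
  have hc : Continuous nq := by unfold nq; fun_prop
  set B : Set (ℝ × R3) := {x | nq x < 1} with hB
  have ho : IsOpen B := isOpen_lt hc continuous_const
  have p1 : volume B ≠ 0 := (ho.measure_pos _ ⟨0, by simp [nq, hB]⟩).ne'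
  have p2 : volume B < ∞ := by
    refine Bornology.IsBounded.measure_lt_top ?_
    refine (Metric.isBounded_closedBall (x := 0) (r := 1)).subset fun x hx => ?_
    have hx' : x.1 ^ 2 + ‖x.2‖ ^ 2 < 1 := hx
    rw [mem_closedBall_zero_iff, Prod.norm_def, max_le_iff, Real.norm_eq_abs, abs_le]
    refine ⟨⟨?_, ?_⟩, ?_⟩ <;> nlinarith [sq_nonneg x.1, sq_nonneg ‖x.2‖, norm_nonneg x.2]
  set ν : Measure SU2 := map nrm (volume.restrict B) with hν
  have hu : ν univ = volume B := by
    rw [hν, map_apply measurable_nrm MeasurableSet.univ, preimage_univ, restrict_apply_univ]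
  have : IsFiniteMeasure ν := ⟨hu ▸ p2⟩
  have hne : ∀ᵐ x ∂(volume.restrict B), x ≠ 0 := ae_restrict_of_ae ae_ne0
  have : IsMulLeftInvariant ν := by
    refine ⟨fun u => ?_⟩
    obtain ⟨T, hT, h2, h3⟩ := mp_mul u
    have hTB : T ⁻¹' B = B := by ext x; simp [hB, h2]
    have h4 := hT.restrict_preimage ho.measurableSet
    rw [hTB] at h4
    rw [hν, map_map (measurable_const_mul u) measurable_nrm]
    conv_rhs => rw [← h4.map_eq, map_map measurable_nrm h4.measurable]
    refine Measure.map_congr ?_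
    filter_upwards [hne] with x hx using (h3 x hx).symm
  have hμ := isMulInvariant_eq_smul_of_compactSpace ν μ
  set k : ℝ≥0∞ := ((haarScalarFactor ν μ : NNReal) : ℝ≥0∞) with hk
  have k0 : k ≠ 0 := by
    intro h
    have : ν univ = 0 := by
      rw [hμ, Measure.smul_apply, ENNReal.smul_def, ← hk, h, smul_eq_mul, zero_mul]
    exact p1 (hu ▸ this)
  have k1 : k ≠ ∞ := ENNReal.coe_ne_top
  refine ⟨k⁻¹ * 4⁻¹, by simp [k1], ENNReal.mul_ne_top (by simp [k0]) (by simp), fun F hF => ?_⟩
  have hp := isOpen_pos.measurableSet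
  have e1 : ∫⁻ g in pos, F g ∂ν = k * ∫⁻ g in pos, F g ∂μ := by
    conv_lhs => rw [hμ]
    rw [restrict_smul, lintegral_smul_measure]
    rfl
  set Φ : ℝ × R3 → ℝ≥0∞ := fun x => B.indicator 1 x * F (nrm x) with hΦ
  have mΦ : Measurable Φ :=
    (measurable_one.indicator ho.measurableSet).mul (hF.comp measurable_nrm)
  have e2 : ∫⁻ g in pos, F g ∂ν = ∫⁻ s in Ioi (0 : ℝ), ∫⁻ v : R3, Φ (s, v) := by
    rw [← lintegral_indicator hp, hν, lintegral_map (hF.indicator hp) measurable_nrm,
      ← lintegral_prod _ mΦ.aemeasurable, restrict_prod_eq_prod_univ,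
      ← lintegral_indicator (measurableSet_Ioi.prod MeasurableSet.univ),
      ← lintegral_indicator ho.measurableSet]
    refine lintegral_congr_ae ?_
    filter_upwards [ae_ne0] with x hx
    have := nrm_pos hx
    by_cases h1 : x ∈ B <;> by_cases h2 : 0 < x.1 <;> simp [indicator, h1, h2, this, hΦ]
  have e3 : ∀ s ∈ Ioi (0 : ℝ), ∫⁻ v : R3, Φ (s, v) =
      ∫⁻ a : R3, ENNReal.ofReal (s ^ 3) * B.indicator 1 (s, s • a) * F (ex a) := by
    intro s hs
    have hs' : (0 : ℝ) < s := hs
    have h := lintegral_map (μ := (volume : Measure R3)) (g := fun a => s • a)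
      (mΦ.comp (measurable_prodMk_left (x := s))) (measurable_const_smul s)
    rw [map_addHaar_smul _ hs'.ne', lintegral_smul_measure] at h
    simp only [Function.comp, hΦ, nrm_smul hs', mul_assoc] at h ⊢
    rw [lintegral_const_mul' _ _ ENNReal.ofReal_ne_top, ← h, smul_eq_mul, ← mul_assoc,
      ← ENNReal.ofReal_mul (by positivity), finrank_euclideanSpace_fin,
      abs_of_pos (by positivity), mul_inv_cancel₀ (by positivity), ENNReal.ofReal_one, one_mul]
  have mex : Measurable fun a => F (ex a) := hF.comp continuous_ex.measurable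
  have e4 : ∫⁻ g in pos, F g ∂ν = 4⁻¹ * ∫⁻ a, hd a * F (ex a) := by
    rw [e2, setLIntegral_congr_fun measurableSet_Ioi e3, lintegral_lintegral_swap,
      ← lintegral_const_mul' _ _ (by simp)]
    · refine lintegral_congr fun a => ?_
      rw [lintegral_mul_const, radial, mul_assoc]
      exact Measurable.mul (by fun_prop)
        ((measurable_one.indicator ho.measurableSet).comp (by fun_prop))
    · refine Measurable.aemeasurable (Measurable.mul (Measurable.mul (by fun_prop) ?_)
        (mex.comp measurable_snd))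
      exact (measurable_one.indicator ho.measurableSet).comp (by fun_prop)
  rw [mul_assoc, ← e4, e1, ← mul_assoc, ENNReal.inv_mul_cancel k0 k1, one_mul]

end Pool.Agent.Lib.MP_7f377f_mp.Kit
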