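import Mathlib

/-! An approximate Wick recursion determines the sum over derangements. -/

namespace Pool.Agent.Lib.MP_7f377f_mp.Weak

open Equiv Finset

namespace Wick

variable {ι : Type} [Fintype ι] [DecidableEq ι]

lemma cyc_swap_mul (f : Perm ι) (x : ι) (hx : f x ≠ x) :
    f.cycleType.card = (swap x (f x) * f).cycleType.card + if f (f x) = x then 1 else 0 := by
  have hc := Perm.isCycle_cycleOf f hx
  have hd := Perm.disjoint_mul_inv_of_mem_cycleFactorsFinset
    (Perm.cycleOf_mem_cycleFactorsFinset_iff.2 (Perm.mem_support.2 hx))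
  have h1 : f.cycleOf x x = f x := Perm.cycleOf_apply_self f x
  have h2 : f.cycleOf x (f x) = f (f x) := Perm.cycleOf_apply_apply_self f x
  have e0 : f = f.cycleOf x * (f * (f.cycleOf x)⁻¹) := by
    rw [← hd.commute.eq]; simp
  generalize f * (f.cycleOf x)⁻¹ = r at *
  generalize f.cycleOf x = c at *
  have hcx : c x ≠ x := by rwa [h1]
  have e1 : f.cycleType.card = 1 + r.cycleType.card := by
    conv_lhs => rw [e0]
    rw [hd.symm.cycleType_mul, hc.cycleType]; simp [add_comm]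
  have e2 : swap x (f x) * f = (swap x (c x) * c) * r := by
    rw [mul_assoc, ← e0, h1]
  rw [e1, e2]
  split_ifs with h
  · have := hc.eq_swap_of_apply_apply_eq_self hcx (by rw [h1, h2, h])
    rw [← this]
    have e3 : c * c = 1 := by rw [this]; exact swap_mul_self _ _
    rw [e3, one_mul, add_comm]
  · have h3 := hc.swap_mul hcx (by rwa [h1, h2])
    have h4 : Perm.Disjoint (swap x (c x) * c) r := by
      intro y
      by_cases hy : (swap x (c x) * c) y = y
      · exact Or.inl hy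
      · exact Or.inr ((hd y).resolve_right (Perm.ne_and_ne_of_swap_mul_apply_ne_self hy).1)
    rw [h4.cycleType_mul, h3.cycleType]; simp [add_comm]

lemma cyc_mul_swap (σ : Perm ι) {t j : ι} (htj : t ≠ j) (hj : σ j = j) :
    (σ * swap t j).cycleType.card = σ.cycleType.card + if σ t = t then 1 else 0 := by
  have h0 : (σ * swap t j)⁻¹ j = t := by
    rw [Perm.inv_eq_iff_eq]; simp [hj]
  have h := cyc_swap_mul (σ * swap t j)⁻¹ j (by rw [h0]; exact htj)
  rw [h0, Perm.cycleType_inv] at h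
  have e : swap j t * (σ * swap t j)⁻¹ = σ⁻¹ := by
    rw [mul_inv_rev, swap_inv, swap_comm j t, ← mul_assoc, swap_mul_self, one_mul]
  rw [h, e, Perm.cycleType_inv]
  congr 1
  have : ((σ * swap t j)⁻¹ t = j) ↔ σ t = t := by
    rw [Perm.inv_eq_iff_eq]; simp [eq_comm]
  simp only [this]

variable (D : ℝ) (K : ι × Bool → ι × Bool → ℝ)

/-- closed loops -/
noncomputable def Zs (S : Finset ι) (s : ι → Bool) : ℝ :=
  ∑ σ : Perm ι, if ∀ i, σ i ≠ i ↔ i ∈ S then
    (D / 2) ^ σ.cycleType.card * ∏ i ∈ S, 2 * K (i, s i) (σ i, !s (σ i)) else 0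

/-- incoming slot -/
def tg (t : ι) (γ : ι × Bool) (s : ι → Bool) (i : ι) : ι × Bool := if i = t then γ else (i, !s i)

/-- closed loops and one chain -/
noncomputable def Fs (α : ι × Bool) (t : ι) (γ : ι × Bool) (S : Finset ι) (s : ι → Bool) : ℝ :=
  ∑ σ : Perm ι, if ∀ i, i ≠ t → (σ i ≠ i ↔ i ∈ S) then
    (D / 2) ^ (σ.cycleType.card + if σ t = t then 1 else 0) * (2 * K α (tg t γ s (σ t))) *
      ∏ i ∈ S, 2 * K (i, s i) (tg t γ s (σ i)) else 0

lemma Fs_fix (α : ι × Bool) {t : ι} (γ : ι × Bool) {S : Finset ι} (ht : t ∉ S) (s : ι → Bool) :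
    (∑ σ : Perm ι, if (∀ i, i ≠ t → (σ i ≠ i ↔ i ∈ S)) ∧ σ t = t then
      (D / 2) ^ (σ.cycleType.card + if σ t = t then 1 else 0) * (2 * K α (tg t γ s (σ t))) *
        ∏ i ∈ S, 2 * K (i, s i) (tg t γ s (σ i)) else 0) = D * K α γ * Zs D K S s := by
  unfold Zs
  rw [mul_sum]
  refine sum_congr rfl fun σ _ => ?_
  have : ((∀ i, i ≠ t → (σ i ≠ i ↔ i ∈ S)) ∧ σ t = t) ↔ ∀ i, σ i ≠ i ↔ i ∈ S := by
    constructor
    · rintro ⟨h1, h2⟩ i
      by_cases hi : i = t
      · subst hi; simp [h2, ht]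
      · exact h1 i hi
    · intro h
      exact ⟨fun i _ => h i, by by_contra h'; exact ht ((h t).1 h')⟩
  by_cases h : ∀ i, σ i ≠ i ↔ i ∈ S
  · have h2 := (this.2 h).2
    rw [if_pos (this.2 h), if_pos h, if_pos h2, h2]
    have : ∏ i ∈ S, 2 * K (i, s i) (tg t γ s (σ i)) = ∏ i ∈ S, 2 * K (i, s i) (σ i, !s (σ i)) := by
      refine prod_congr rfl fun i hi => ?_
      have : σ i ≠ t := by
        intro h'
        rw [← h2] at h'
        exact ht (σ.injective h' ▸ hi)
      simp [tg, this]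
    rw [this]; simp only [tg, if_true]; ring
  · rw [if_neg (mt this.1 h), if_neg h, mul_zero]

lemma Fs_rec (α : ι × Bool) {t : ι} (γ : ι × Bool) {S : Finset ι} (ht : t ∉ S) (s : ι → Bool) :
    Fs D K α t γ S s = D * K α γ * Zs D K S s +
      ∑ j ∈ S, 2 * K α (j, !s j) * Fs D K (j, s j) t γ (S.erase j) s := by
  rw [← Fs_fix D K α γ ht s]
  have key : ∀ j ∈ S, 2 * K α (j, !s j) * Fs D K (j, s j) t γ (S.erase j) s =
      ∑ σ : Perm ι, if (∀ i, i ≠ t → (σ i ≠ i ↔ i ∈ S)) ∧ σ t = j then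
      (D / 2) ^ (σ.cycleType.card + if σ t = t then 1 else 0) * (2 * K α (tg t γ s (σ t))) *
        ∏ i ∈ S, 2 * K (i, s i) (tg t γ s (σ i)) else 0 := by
    intro j hj
    have htj : t ≠ j := fun h => ht (h ▸ hj)
    unfold Fs
    rw [mul_sum]
    refine Fintype.sum_equiv (Equiv.mulRight (swap t j)) _ _ fun σ => ?_
    simp only [Equiv.coe_mulRight, Perm.mul_apply, swap_apply_left]
    have hiff : (∀ i, i ≠ t → (σ i ≠ i ↔ i ∈ S.erase j)) ↔
        ((∀ i, i ≠ t → (σ (swap t j i) ≠ i ↔ i ∈ S)) ∧ σ j = j) := by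
      constructor
      · intro h
        have h1 : σ j = j := by
          by_contra h'
          simpa using (h j htj.symm).1 h'
        refine ⟨fun i hi => ?_, h1⟩
        by_cases hij : i = j
        · subst hij
          simp only [swap_apply_right, hj, iff_true]
          intro h2
          rw [← h1] at h2
          exact htj (σ.injective h2)
        · rw [swap_apply_of_ne_of_ne hi hij, h i hi]; simp [hij]
      · rintro ⟨h, h1⟩ i hi
        by_cases hij : i = j
        · subst hij; simp [h1]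
        · have := h i hi
          rw [swap_apply_of_ne_of_ne hi hij] at this
          rw [this]; simp [hij]
    by_cases h : ∀ i, i ≠ t → (σ i ≠ i ↔ i ∈ S.erase j)
    · have h1 := (hiff.1 h).2
      rw [if_pos h, if_pos (hiff.1 h), h1, if_neg htj.symm, cyc_mul_swap σ htj h1,
        ← mul_prod_erase S _ hj, swap_apply_right]
      have : ∏ i ∈ S.erase j, 2 * K (i, s i) (tg t γ s (σ (swap t j i))) =
          ∏ i ∈ S.erase j, 2 * K (i, s i) (tg t γ s (σ i)) := by
        refine prod_congr rfl fun i hi => ?_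
        rw [swap_apply_of_ne_of_ne (ne_of_mem_of_not_mem (mem_of_mem_erase hi) ht) (ne_of_mem_erase hi)]
      rw [this]
      simp only [tg, if_neg htj.symm, add_zero]
      ring
    · rw [if_neg h, if_neg (mt hiff.2 h), mul_zero]
  rw [sum_congr rfl key, sum_comm, ← sum_add_distrib]
  unfold Fs
  refine sum_congr rfl fun σ _ => ?_
  by_cases h : ∀ i, i ≠ t → (σ i ≠ i ↔ i ∈ S)
  · simp only [eq_true h, true_and, if_true, sum_ite_eq]
    by_cases h1 : σ t = t
    · have : σ t ∉ S := by rwa [h1]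
      rw [if_neg this, add_zero]
      exact (if_pos h1).symm
    · have : σ t ∈ S := (h _ h1).1 fun h2 => h1 (σ.injective h2)
      rw [if_neg h1, if_neg h1, if_pos this, zero_add]
  · simp only [eq_false h, false_and, if_false, sum_const_zero, add_zero]

lemma Zs_insert {t : ι} {S : Finset ι} (ht : t ∉ S) (s : ι → Bool) :
    Zs D K (insert t S) s =
      Fs D K (t, s t) t (t, !s t) S s - D * K (t, s t) (t, !s t) * Zs D K S s := by
  rw [← Fs_fix D K _ _ ht s]
  unfold Zs Fs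
  rw [← sum_sub_distrib]
  refine sum_congr rfl fun σ _ => ?_
  have htg : ∀ i, tg t (t, !s t) s i = (i, !s i) := by
    intro i; unfold tg; split_ifs with h
    · rw [h]
    · rfl
  by_cases h : ∀ i, i ≠ t → (σ i ≠ i ↔ i ∈ S)
  · by_cases h1 : σ t = t
    · have h2 : ¬∀ i, σ i ≠ i ↔ i ∈ insert t S := fun h2 => (h2 t).2 (mem_insert_self _ _) h1
      rw [if_neg h2, if_pos h, if_pos (And.intro h h1), sub_self]
    · have h2 : ∀ i, σ i ≠ i ↔ i ∈ insert t S := by
        intro i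
        by_cases hi : i = t
        · subst hi; simp [h1]
        · rw [h i hi]; simp [hi]
      have h3 : ¬((∀ i, i ≠ t → (σ i ≠ i ↔ i ∈ S)) ∧ σ t = t) := fun h2 => h1 h2.2
      rw [if_pos h2, if_pos h, if_neg h3, if_neg h1, sub_zero, prod_insert ht]
      simp only [htg, add_zero]; ring
  · have h2 : ¬∀ i, σ i ≠ i ↔ i ∈ insert t S :=
      fun h2 => h fun i hi => by rw [h2 i]; simp [hi]
    have h3 : ¬((∀ i, i ≠ t → (σ i ≠ i ↔ i ∈ S)) ∧ σ t = t) := fun h2 => h h2.1
    rw [if_neg h2, if_neg h, if_neg h3, sub_self]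

lemma Zs_indep {j : ι} {S : Finset ι} (hj : j ∉ S) (s : ι → Bool) (b : Bool) :
    Zs D K S (Function.update s j b) = Zs D K S s := by
  unfold Zs
  refine sum_congr rfl fun σ _ => ?_
  split_ifs with h
  · congr 1
    refine prod_congr rfl fun i hi => ?_
    have h1 : σ i ∈ S := (h _).1 fun h2 => (h i).2 hi (σ.injective h2)
    rw [Function.update_of_ne (ne_of_mem_of_not_mem hi hj),
      Function.update_of_ne (ne_of_mem_of_not_mem h1 hj)]
  · rfl

lemma Fs_indep (α : ι × Bool) (t : ι) (γ : ι × Bool) {j : ι} {S : Finset ι} (hj : j ∉ S)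
    (s : ι → Bool) (b : Bool) :
    Fs D K α t γ S (Function.update s j b) = Fs D K α t γ S s := by
  unfold Fs
  refine sum_congr rfl fun σ _ => ?_
  split_ifs with h h' <;> try rfl
  all_goals
    have htg : ∀ i, (i = t ∨ i ∈ S) → tg t γ (Function.update s j b) (σ i) = tg t γ s (σ i) := by
      intro i hi
      unfold tg
      split_ifs with h1
      · rfl
      · have h2 : σ i ∈ S := by
          refine (h _ h1).1 fun h2 => ?_
          have h3 := σ.injective h2
          rcases hi with rfl | hi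
          · exact h1 h3
          · exact (h i (h3 ▸ h1)).2 hi h3
        rw [Function.update_of_ne (ne_of_mem_of_not_mem h2 hj)]
    rw [htg t (Or.inl rfl)]
    congr 1
    refine prod_congr rfl fun i hi => ?_
    rw [htg i (Or.inr hi), Function.update_of_ne (ne_of_mem_of_not_mem hi hj)]

lemma sum_flip (j : ι) (g : Bool → (ι → Bool) → ℝ)
    (hg : ∀ b s c, g b (Function.update s j c) = g b s) :
    2 * ∑ s, g (s j) s = ∑ b, ∑ s, g b s := by
  have hinv : Function.Involutive fun s : ι → Bool => Function.update s j (!s j) := by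
    intro s; simp
  have h := Equiv.sum_comp hinv.toPerm fun s => g (s j) s
  simp only [Function.Involutive.coe_toPerm, Function.update_self, hg] at h
  rw [two_mul, sum_comm]
  nth_rewrite 1 [← h]
  rw [← sum_add_distrib]
  refine sum_congr rfl fun s _ => ?_
  rw [Fintype.sum_bool]
  cases s j <;> simp [add_comm]

/-- averaged closed loops -/
noncomputable def Z (S : Finset ι) : ℝ := (∑ s, Zs D K S s) / 2 ^ Fintype.card ι

/-- averaged chains -/
noncomputable def F (α : ι × Bool) (t : ι) (γ : ι × Bool) (S : Finset ι) : ℝ :=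
  (∑ s, Fs D K α t γ S s) / 2 ^ Fintype.card ι

lemma F_rec (α : ι × Bool) {t : ι} (γ : ι × Bool) {S : Finset ι} (ht : t ∉ S) :
    F D K α t γ S = D * K α γ * Z D K S +
      ∑ j ∈ S, ∑ b, K α (j, b) * F D K (j, !b) t γ (S.erase j) := by
  unfold F Z
  simp only [Fs_rec D K α γ ht, sum_add_distrib, ← mul_sum]
  rw [add_div, mul_div_assoc, sum_comm, sum_div S]
  refine congrArg _ (sum_congr rfl fun j _ => ?_)
  have h := sum_flip j (fun b s => K α (j, !b) * Fs D K (j, b) t γ (S.erase j) s)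
    (fun b s c => by rw [Fs_indep D K _ _ _ (notMem_erase j S)])
  simp only [mul_assoc, ← mul_sum] at h ⊢
  rw [h, Fintype.sum_bool, Fintype.sum_bool]
  simp only [Bool.not_true, Bool.not_false]
  ring

lemma Z_insert {t : ι} {S : Finset ι} (ht : t ∉ S) :
    2 * Z D K (insert t S) =
      ∑ b, (F D K (t, b) t (t, !b) S - D * K (t, b) (t, !b) * Z D K S) := by
  unfold F Z
  have h := sum_flip t (fun b s => Fs D K (t, b) t (t, !b) S s - D * K (t, b) (t, !b) * Zs D K S s)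
    (fun b s c => by rw [Fs_indep D K _ _ _ ht, Zs_indep D K ht])
  simp only [Zs_insert D K ht]
  rw [← mul_div_assoc, h, sum_div]
  refine sum_congr rfl fun b _ => ?_
  rw [sum_sub_distrib, ← mul_sum]; ring

lemma Z_empty : Z D K ∅ = 1 := by
  unfold Z Zs
  have : ∀ σ : Perm ι, (∀ i, σ i ≠ i ↔ i ∈ (∅ : Finset ι)) ↔ σ = 1 := by
    intro σ; simp [Equiv.ext_iff]
  simp only [this, sum_ite_eq', mem_univ, if_true]
  simp

lemma Z_univ : Z D K univ = ∑ σ : Perm ι, if ∀ i, σ i ≠ i then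
    (D / 2) ^ σ.cycleType.card * ∑ s : ι → Bool, ∏ i, K (i, s i) (σ i, !s (σ i)) else 0 := by
  unfold Z Zs
  rw [sum_comm, sum_div]
  refine sum_congr rfl fun σ _ => ?_
  simp only [mem_univ, iff_true]
  split_ifs with h
  · simp only [prod_mul_distrib, prod_const, card_univ, ← mul_sum]
    field_simp
  · simp

/-- the hypotheses of the approximate recursion -/
structure Hyp (κ : ℝ) (B : ι × Bool → ι × Bool → Finset ι → ℝ) (M : Finset ι → ℝ) (c : ι → ℝ)
    (δ : ℝ) : Prop where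
  h0 : 0 ≤ δ
  h1 : δ ≤ 1
  hK : ∀ α γ, |K α γ| ≤ κ
  hM : M ∅ = 1
  hins : ∀ t b S, t ∉ S → M (insert t S) = B (t, b) (t, !b) S - c t * M S
  hc : ∀ t b, c t = B (t, b) (t, !b) ∅
  hB : ∀ α γ S, |B α γ S - D * K α γ * M S -
    ∑ j ∈ S, ∑ b, K α (j, b) * B (j, !b) γ (S.erase j)| ≤ δ

omit [DecidableEq ι] in
lemma sum_bound {κ C : ℝ} (hκ : 0 ≤ κ) (hC : 0 ≤ C) (S : Finset ι) {u v : ι → Bool → ℝ}
    (hu : ∀ j b, |u j b| ≤ κ) (hv : ∀ j ∈ S, ∀ b, |v j b| ≤ C) :
    |∑ j ∈ S, ∑ b, u j b * v j b| ≤ Fintype.card ι * (2 * (κ * C)) := by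
  calc _ ≤ ∑ j ∈ S, 2 * (κ * C) := by
        refine (abs_sum_le_sum_abs _ _).trans (sum_le_sum fun j hj => ?_)
        refine (abs_sum_le_sum_abs _ _).trans ?_
        refine (sum_le_card_nsmul _ _ (κ * C) fun b _ => ?_).trans (by simp)
        rw [abs_mul]; exact mul_le_mul (hu j b) (hv j hj b) (abs_nonneg _) hκ
    _ ≤ _ := by
        rw [sum_const, nsmul_eq_mul]
        gcongr; exact card_le_univ S

lemma stepB {κ C : ℝ} (hD : 0 ≤ D) (hκ : 0 ≤ κ) (hC : 0 ≤ C) {B M c δ} (H : Hyp D K κ B M c δ)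
    {S : Finset ι} (hM : |M S| ≤ C ∧ |M S - Z D K S| ≤ C * δ)
    (hB : ∀ j ∈ S, ∀ α γ, |B α γ (S.erase j)| ≤ C ∧
      ∀ t ∉ S.erase j, |B α γ (S.erase j) - F D K α t γ (S.erase j)| ≤ C * δ) (α γ : ι × Bool) :
    |B α γ S| ≤ 1 + D * κ * C + Fintype.card ι * (2 * (κ * C)) ∧
      ∀ t ∉ S, |B α γ S - F D K α t γ S| ≤ (1 + D * κ * C + Fintype.card ι * (2 * (κ * C))) * δ := by
  have h := abs_le.1 (H.hB α γ S)
  have hδ := H.h0
  constructor
  · have h1 := abs_le.1 (sum_bound hκ hC S (fun j b => H.hK α (j, b))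
      (fun j hj b => (hB j hj (j, !b) γ).1))
    have h2 : |D * K α γ * M S| ≤ D * κ * C := by
      rw [abs_mul, abs_mul, abs_of_nonneg hD]; gcongr; exacts [H.hK _ _, hM.1]
    have h3 := abs_le.1 h2
    have := H.h1
    rw [abs_le]; constructor <;> linarith
  · intro t ht
    have h1 := abs_le.1 (sum_bound hκ (mul_nonneg hC hδ) S (fun j b => H.hK α (j, b))
      (fun j hj b => (hB j hj (j, !b) γ).2 t fun h => ht (mem_of_mem_erase h)))
    have h2 : |D * K α γ * (M S - Z D K S)| ≤ D * κ * (C * δ) := by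
      rw [abs_mul, abs_mul, abs_of_nonneg hD]; gcongr; exacts [H.hK _ _, hM.2]
    have h3 := abs_le.1 h2
    simp only [mul_sub, sum_sub_distrib] at h1 h3
    rw [F_rec D K α γ ht, abs_le]; constructor <;> linarith

lemma stepM {κ C : ℝ} (hD : 0 ≤ D) (hκ : 0 ≤ κ) {B M c δ} (H : Hyp D K κ B M c δ)
    {S : Finset ι} {t : ι} (ht : t ∉ S) (hM : |M S| ≤ C ∧ |M S - Z D K S| ≤ C * δ)
    (hB : ∀ α γ, |B α γ S| ≤ C ∧ ∀ t ∉ S, |B α γ S - F D K α t γ S| ≤ C * δ) :
    |M (insert t S)| ≤ (2 + D * κ) * C ∧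
      |M (insert t S) - Z D K (insert t S)| ≤ (2 + D * κ) * C * δ := by
  have hδ := H.h0
  have hc : ∀ b, |c t - D * K (t, b) (t, !b)| ≤ δ := by
    intro b
    have := H.hB (t, b) (t, !b) ∅
    rwa [sum_empty, sub_zero, H.hM, mul_one, ← H.hc] at this
  have hDK : ∀ b, |D * K (t, b) (t, !b)| ≤ D * κ := by
    intro b; rw [abs_mul, abs_of_nonneg hD]; gcongr; exact H.hK _ _
  constructor
  · have h1 : |c t| ≤ 1 + D * κ := by
      have h2 := abs_le.1 (hc true)
      have h3 := abs_le.1 (hDK true)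
      have := H.h1
      rw [abs_le]; constructor <;> linarith
    rw [H.hins t true S ht]
    calc _ ≤ |B (t, true) (t, !true) S| + |c t * M S| := abs_sub _ _
      _ ≤ C + (1 + D * κ) * C := by
        rw [abs_mul]; gcongr; exacts [(hB _ _).1, hM.1]
      _ = _ := by ring
  · have key : ∀ b, |M (insert t S) - (F D K (t, b) t (t, !b) S - D * K (t, b) (t, !b) * Z D K S)|
        ≤ (2 + D * κ) * C * δ := by
      intro b
      have h1 := abs_le.1 ((hB (t, b) (t, !b)).2 t ht)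
      have h2 : |(c t - D * K (t, b) (t, !b)) * M S| ≤ δ * C := by
        rw [abs_mul]; gcongr; exacts [hc b, hM.1]
      have h3 : |D * K (t, b) (t, !b) * (M S - Z D K S)| ≤ D * κ * (C * δ) := by
        rw [abs_mul]; gcongr; exacts [hDK b, hM.2]
      have h4 := abs_le.1 h2
      have h5 := abs_le.1 h3
      rw [H.hins t b S ht, abs_le]; constructor <;> linarith
    have h := Z_insert D K ht
    rw [Fintype.sum_bool] at h
    have h1 := abs_le.1 (key true)
    have h2 := abs_le.1 (key false)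
    rw [abs_le]; constructor <;> linarith

lemma main (ι : Type) [Fintype ι] [DecidableEq ι] {D κ : ℝ} (hD : 0 ≤ D) (hκ : 0 ≤ κ) (n : ℕ) :
    ∃ C : ℝ, 0 ≤ C ∧ ∀ (K : ι × Bool → ι × Bool → ℝ) B M c δ, Hyp D K κ B M c δ →
      ∀ S : Finset ι, S.card = n → (|M S| ≤ C ∧ |M S - Z D K S| ≤ C * δ) ∧
        ∀ α γ, |B α γ S| ≤ C ∧ ∀ t ∉ S, |B α γ S - F D K α t γ S| ≤ C * δ := by
  have fin : ∀ C : ℝ, 0 ≤ C → ∃ C' : ℝ, 0 ≤ C' ∧ ∀ (K : ι × Bool → ι × Bool → ℝ) B M c δ,
      Hyp D K κ B M c δ → ∀ S : Finset ι, (|M S| ≤ C ∧ |M S - Z D K S| ≤ C * δ) →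
      (∀ j ∈ S, ∀ α γ, |B α γ (S.erase j)| ≤ C ∧
        ∀ t ∉ S.erase j, |B α γ (S.erase j) - F D K α t γ (S.erase j)| ≤ C * δ) →
      (|M S| ≤ C' ∧ |M S - Z D K S| ≤ C' * δ) ∧
        ∀ α γ, |B α γ S| ≤ C' ∧ ∀ t ∉ S, |B α γ S - F D K α t γ S| ≤ C' * δ := by
    intro C hC
    have h0 : 0 ≤ 1 + D * κ * C + Fintype.card ι * (2 * (κ * C)) := by positivity
    refine ⟨C + (1 + D * κ * C + Fintype.card ι * (2 * (κ * C))), by positivity,
      fun K B M c δ H S hM hB => ⟨⟨by linarith [hM.1], ?_⟩, fun α γ => ?_⟩⟩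
    · nlinarith [hM.2, H.h0]
    · have h := stepB D K hD hκ hC H hM hB α γ
      exact ⟨by linarith [h.1], fun t ht => by nlinarith [h.2 t ht, H.h0]⟩
  induction n with
  | zero =>
    obtain ⟨C, hC, h⟩ := fin 1 zero_le_one
    refine ⟨C, hC, fun K B M c δ H S hS => ?_⟩
    obtain rfl := card_eq_zero.1 hS
    refine h K B M c δ H ∅ ⟨by simp [H.hM], by simp [H.hM, Z_empty, H.h0]⟩ (by simp)
  | succ n ih =>
    obtain ⟨C, hC, ih⟩ := ih
    have h2 : C ≤ (2 + D * κ) * C := by nlinarith [mul_nonneg hD hκ]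
    obtain ⟨C', hC', h⟩ := fin ((2 + D * κ) * C) (hC.trans h2)
    refine ⟨C', hC', fun K B M c δ H S hS => h K B M c δ H S ?_ fun j hj α γ => ?_⟩
    · obtain ⟨t, T, ht, rfl, hT⟩ := card_eq_succ.1 hS
      exact stepM D K hD hκ H ht (ih K B M c δ H T hT).1 (ih K B M c δ H T hT).2
    · have h3 := (ih K B M c δ H (S.erase j) (by rw [card_erase_of_mem hj, hS]; rfl)).2 α γ
      exact ⟨h3.1.trans h2, fun t ht => (h3.2 t ht).trans
        (mul_le_mul_of_nonneg_right h2 H.h0)⟩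

end Wick

theorem wick_alg (k : ℕ) (D κ : ℝ) (hD : 0 ≤ D) (hκ : 0 ≤ κ) : ∃ C : ℝ, 0 ≤ C ∧
    ∀ (K : Fin k × Bool → Fin k × Bool → ℝ) (B : Fin k × Bool → Fin k × Bool → Finset (Fin k) → ℝ)
      (M : Finset (Fin k) → ℝ) (c : Fin k → ℝ) (δ : ℝ), 0 ≤ δ → δ ≤ 1 → (∀ α γ, |K α γ| ≤ κ) →
      M ∅ = 1 → (∀ t b S, t ∉ S → M (insert t S) = B (t, b) (t, !b) S - c t * M S) →
      (∀ t b, c t = B (t, b) (t, !b) ∅) →
      (∀ α γ S, |B α γ S - D * K α γ * M S -
        ∑ j ∈ S, ∑ b, K α (j, b) * B (j, !b) γ (S.erase j)| ≤ δ) →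
      |M Finset.univ - ∑ σ : Equiv.Perm (Fin k), if ∀ i, σ i ≠ i then
        (D / 2) ^ σ.cycleType.card * ∑ s : Fin k → Bool, ∏ i, K (i, s i) (σ i, !s (σ i))
        else 0| ≤ C * δ := by
  obtain ⟨C, hC, h⟩ := Wick.main (Fin k) hD hκ k
  refine ⟨C, hC, fun K B M c δ h0 h1 hK hM hins hc hB => ?_⟩
  have := (h K B M c δ ⟨h0, h1, hK, hM, hins, hc, hB⟩ univ (by simp)).1.2
  rw [Wick.Z_univ] at this
  refine le_of_eq_of_le ?_ this
  exact congrArg (fun x => |M univ - x|) (sum_congr rfl fun σ _ => by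
    by_cases h : ∀ i, σ i ≠ i
    · rw [if_pos h, if_pos h]
    · rw [if_neg h, if_neg h])

end Pool.Agent.Lib.MP_7f377f_mp.Weak
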