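import Pool.Agent.Lib.MP_7f377f_mp.Lb0
import Pool.Agent.Lib.MP_7f377f_mp.WeakWick

/-! Combinatorics of loop sums. -/

noncomputable section

namespace Pool.Agent.Lib.MP_7f377f_mp.Lb

set_option linter.unusedSectionVars false

open Finset Equiv Function
open Matrix hiding swap swap_mul_self

variable {ι ι' S A K : Type} [Fintype ι] [DecidableEq ι] [Fintype ι'] [DecidableEq ι']
  [Fintype S] [DecidableEq S] [Fintype A] [DecidableEq A] [CommRing K]

theorem nc_one : nc (1 : Perm ι) = Fintype.card ι := by simp [nc]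

theorem nc_der {σ : Perm ι} (h : ∀ i, σ i ≠ i) : nc σ = σ.cycleType.card := by simp [nc, h]

theorem nc_fix {τ : Perm ι} {p q : ι} (hp : τ p = p) (hq : q ≠ p) :
    nc (swap p q * τ) + 1 = nc τ := by
  have e1 : (swap p q * τ) p = q := by simp [hp]
  have h := Weak.Wick.cyc_swap_mul (swap p q * τ) p (by rwa [e1])
  rw [e1, ← mul_assoc, swap_mul_self, one_mul] at h
  have e2 : τ q ≠ p := fun e => hq (τ.injective (e.trans hp.symm))
  have e3 : ((swap p q * τ) q = p) ↔ τ q = q := by
    rw [Perm.mul_apply, swap_apply_eq_iff, swap_apply_left]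
  have e4 : ({i | (swap p q * τ) i = i} : Finset ι) = (({i | τ i = i} : Finset ι).erase p).erase q := by
    ext i
    simp only [mem_filter, mem_univ, true_and, mem_erase, Perm.mul_apply, swap_apply_eq_iff]
    by_cases h1 : i = p
    · simp [h1, hp, hq.symm]
    by_cases h2 : i = q
    · simp [h2, e2]
    simp [h1, h2, swap_apply_of_ne_of_ne h1 h2]
  have e5 : 0 < #({i | τ i = i} : Finset ι) := card_pos.2 ⟨p, by simp [hp]⟩
  unfold nc
  rw [h, e4, card_erase_eq_ite, card_erase_of_mem (by simp [hp])]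
  simp only [e3, mem_erase, mem_filter, mem_univ, true_and, ne_eq, hq, not_false_eq_true]
  split_ifs with h3
  · have : 1 < #({i | τ i = i} : Finset ι) := one_lt_card.2 ⟨p, by simp [hp], q, by simp [h3], hq.symm⟩
    omega
  · omega

theorem perm_ind {P : Perm ι → Prop} (h1 : P 1)
    (h : ∀ τ p q, τ p = p → q ≠ p → P τ → P (swap p q * τ)) (σ : Perm ι) : P σ := by
  induction hn : #σ.support using Nat.strong_induction_on generalizing σ with
  | _ n ih =>
    by_cases e : σ = 1
    · exact e ▸ h1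
    obtain ⟨x, hx⟩ : ∃ x, σ x ≠ x := by simpa [Equiv.ext_iff] using e
    have := h (swap x (σ x) * σ) x (σ x) (by simp) hx
      (ih _ (hn ▸ Perm.card_support_swap_mul hx) _ rfl)
    rwa [← mul_assoc, swap_mul_self, one_mul] at this

theorem nc_merge {T : Set ι} {c r : ι} (hc : c ∈ T) (hr : r ∉ T) (σ : Perm ι)
    (hT : ∀ u, σ u ∈ T ↔ u ∈ T) : nc (swap c r * σ) + 1 = nc σ := by
  induction hn : #σ.support using Nat.strong_induction_on generalizing σ with
  | _ n ih =>
    have cr : r ≠ c := fun e => hr (e ▸ hc)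
    by_cases e : σ c = c
    · exact nc_fix e cr
    have hp : σ c ∈ T := (hT c).2 hc
    have hq : σ (σ c) ∈ T := (hT _).2 hp
    have e' : σ (σ c) ≠ σ c := fun h => e (σ.injective h)
    have pr : σ c ≠ r := fun h => hr (h ▸ hp)
    have h1 := ih _ (hn ▸ Perm.card_support_swap_mul e') (swap (σ c) (σ (σ c)) * σ) (fun u => by
      rw [← hT u, Perm.mul_apply, swap_apply_def]
      split_ifs with a b
      · simp [a, hp, hq]
      · simp [b, hp, hq]
      · rfl) rfl
    have h2 := nc_fix (τ := swap (σ c) (σ (σ c)) * σ) (p := σ c) (by simp) e'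
    rw [← mul_assoc, swap_mul_self, one_mul] at h2
    have s1 : swap c r (σ c) = σ c := swap_apply_of_ne_of_ne e pr
    have h3 := nc_fix (τ := swap c r * (swap (σ c) (σ (σ c)) * σ)) (p := σ c)
      (q := swap c r (σ (σ c))) (by simp [s1]) (by
        rw [Ne, swap_apply_eq_iff, s1]; exact e')
    have h4 : swap (σ c) (swap c r (σ (σ c))) * (swap c r * (swap (σ c) (σ (σ c)) * σ)) =
        swap c r * σ := by
      conv_lhs => rw [← s1, swap_apply_apply, s1]
      simp [mul_assoc]
    rw [h4] at h3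
    omega

theorem via_swap (e : S ↪ ι) (p q : S) : (swap p q).viaEmbedding e = swap (e p) (e q) := by
  ext x
  by_cases hx : x ∈ Set.range e
  · obtain ⟨s, rfl⟩ := hx
    rw [Perm.viaEmbedding_apply, e.injective.swap_apply]
  · rw [Perm.viaEmbedding_apply_of_notMem _ _ _ hx,
      swap_apply_of_ne_of_ne (fun h => hx ⟨p, h.symm⟩) fun h => hx ⟨q, h.symm⟩]

theorem via_mul (e : S ↪ ι) (σ τ : Perm S) :
    (σ * τ).viaEmbedding e = σ.viaEmbedding e * τ.viaEmbedding e :=
  (Perm.viaEmbeddingHom e).map_mul σ τ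

theorem nc_emb (e : S ↪ ι) {τ : Perm ι} (h : ∀ s, ∃ T : Set ι, (∀ u, τ u ∈ T ↔ u ∈ T) ∧
    ∀ s', e s' ∈ T ↔ s' = s) (σ : Perm S) :
    nc (σ.viaEmbedding e * τ) + Fintype.card S = nc σ + nc τ := by
  induction σ using perm_ind with
  | h1 => rw [show (1 : Perm S).viaEmbedding e = 1 from (Perm.viaEmbeddingHom e).map_one, one_mul,
      nc_one, add_comm]
  | h σ p q hp hq ih =>
    obtain ⟨T, h1, h2⟩ := h p
    have := nc_merge (c := e p) (r := e q) ((h2 p).2 rfl) (fun a => hq ((h2 q).1 a))
      (σ.viaEmbedding e * τ) fun u => by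
        rw [← h1 u, Perm.mul_apply]
        by_cases hx : τ u ∈ Set.range e
        · obtain ⟨s, hs⟩ := hx
          rw [← hs, Perm.viaEmbedding_apply, h2, h2, ← σ.injective.eq_iff (a := s), hp]
        · rw [Perm.viaEmbedding_apply_of_notMem _ _ _ hx]
    have := nc_fix hp hq
    rw [via_mul, via_swap, mul_assoc]
    omega

theorem nc_congr (e : ι ≃ ι') (σ : Perm ι) : nc (e.permCongr σ) = nc σ := by
  have h := nc_emb e.toEmbedding (τ := 1) (fun s => ⟨{e s}, fun _ => Iff.rfl, fun s' => by simp⟩) σ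
  have : σ.viaEmbedding e.toEmbedding = e.permCongr σ := by
    ext x
    obtain ⟨y, rfl⟩ := e.surjective x
    simpa using σ.viaEmbedding_apply e.toEmbedding y
  rw [this, mul_one, nc_one, Fintype.card_congr e] at h
  omega

theorem nc_inv (σ : Perm ι) : nc σ⁻¹ = nc σ := by
  simp only [nc, Perm.cycleType_inv, Perm.inv_eq_iff_eq, eq_comm (b := σ _)]

variable {κ : S → Type} [∀ s, Fintype (κ s)] [∀ s, DecidableEq (κ s)]

theorem nc_sigma (τ : ∀ s, Perm (κ s)) : nc (Perm.sigmaCongrRight τ) = ∑ s, nc (τ s) := by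
  have key : ∀ U : Finset S, ∀ τ : ∀ s, Perm (κ s), (∀ s ∉ U, τ s = 1) →
      nc (Perm.sigmaCongrRight τ) = ∑ s, nc (τ s) := fun U => by
    induction U using Finset.induction_on with
    | empty =>
      intro τ h
      obtain rfl : τ = 1 := funext fun s => h s (notMem_empty s)
      simp [nc_one, Perm.sigmaCongrRight_one]
    | insert s U hs ih =>
      intro τ h
      have h1 := ih (update τ s 1) fun t ht => by
        by_cases e : t = s
        · subst e; simp
        · rw [update_of_ne e]; exact h t (by simp [e, ht])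
      have h2 := nc_emb (Embedding.sigmaMk s) (τ := Perm.sigmaCongrRight (update τ s 1))
        (fun x => ⟨{⟨s, x⟩}, fun u => by
          have : Perm.sigmaCongrRight (update τ s 1) ⟨s, x⟩ = ⟨s, x⟩ := by
            simp [Perm.sigmaCongrRight]
          rw [Set.mem_singleton_iff, Set.mem_singleton_iff, ← this, EmbeddingLike.apply_eq_iff_eq,
            this], fun x' => by simp⟩) (τ s)
      have h3 : (τ s).viaEmbedding (Embedding.sigmaMk s) * Perm.sigmaCongrRight (update τ s 1) =
          Perm.sigmaCongrRight τ := by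
        ext1 ⟨t, x⟩
        by_cases e : t = s
        · subst e
          simpa [Perm.sigmaCongrRight] using (τ t).viaEmbedding_apply (Embedding.sigmaMk t) x
        · rw [Perm.mul_apply, Perm.viaEmbedding_apply_of_notMem]
          · simp [Perm.sigmaCongrRight, e]
          · rintro ⟨z, hz⟩
            exact e (congrArg Sigma.fst hz).symm
      rw [h3, h1, ← add_sum_erase _ _ (mem_univ s), update_self, nc_one,
        sum_congr rfl fun t ht => by rw [update_of_ne (ne_of_mem_erase ht)]] at h2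
      rw [← add_sum_erase _ _ (mem_univ s)]
      omega
  exact key univ τ fun s hs => absurd (mem_univ s) hs

/-! ### Loop sums -/

variable {w : K} {k k' : ι → ι → Matrix A A K} {σ : Perm ι}

theorem tm_congr (h : ∀ i, k i (σ i) = k' i (σ i)) : tm k σ = tm k' σ := by simp only [tm, h]

theorem tm_zero {i : ι} (h : k i (σ i) = 0) : tm k σ = 0 :=
  sum_eq_zero fun _ _ => prod_eq_zero (mem_univ i) (by rw [h]; rfl)

theorem tm_mul (k k' : ι → ι → Matrix A A K) (σ : Perm ι) : tm (fun i j => k i j * k' i j) σ =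
    ∑ a : ι → A, ∑ b : ι → A, ∏ i, k i (σ i) (a i) (b i) * k' i (σ i) (b i) (a (σ i)) := by
  simp only [tm, mul_apply, prod_univ_sum, Fintype.piFinset_univ]

theorem lq_move (x : ι → Matrix A A K) (k : ι → ι → Matrix A A K) :
    (lq w fun i j => x i * k i j) = lq w fun i j => k i j * x j := by
  refine sum_congr rfl fun σ _ => congrArg _ ?_
  rw [tm_mul, tm_mul, sum_comm]
  refine sum_congr rfl fun a _ => Fintype.sum_equiv (σ.symm.arrowCongr (Equiv.refl A)) _ _ fun b => ?_
  rw [prod_mul_distrib, prod_mul_distrib, mul_comm,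
    ← σ.prod_comp univ (fun i => x i (b i) (a i)) (by simp)]
  simp

theorem tm_reindex (e : ι ≃ ι') (k : ι' → ι' → Matrix A A K) (σ : Perm ι) :
    tm (fun i j => k (e i) (e j)) σ = tm k (e.permCongr σ) :=
  Fintype.sum_equiv (e.arrowCongr (Equiv.refl A)) _ _ fun a =>
    Fintype.prod_equiv e _ _ fun i => by simp

theorem lq_reindex (e : ι ≃ ι') (k : ι' → ι' → Matrix A A K) :
    (lq w fun i j => k (e i) (e j)) = lq w k :=
  Fintype.sum_equiv e.permCongr _ _ fun σ => by rw [nc_congr, tm_reindex]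

theorem lq_der (h : ∀ i, k i i = 0) : lq w k =
    ∑ σ : Perm ι, if ∀ i, σ i ≠ i then w ^ σ.cycleType.card * tm k σ else 0 := by
  refine sum_congr rfl fun σ _ => ?_
  split_ifs with e
  · rw [nc_der e]
  · obtain ⟨i, hi⟩ : ∃ i, σ i = i := by simpa using e
    rw [tm_zero (i := i) (by rw [hi, h]), mul_zero]

theorem lq_tr (k : ι → ι → Matrix A A K) : (lq w fun i j => (k j i)ᵀ) = lq w k := by
  refine Fintype.sum_equiv (Equiv.inv _) _ _ fun σ => ?_
  rw [Equiv.inv_apply, nc_inv]
  refine congrArg _ (sum_congr rfl fun a _ => Fintype.prod_equiv σ _ _ fun i => ?_)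
  simp

theorem tm_smul (c : ι → ι → K) (k : ι → ι → Matrix A A K) (σ : Perm ι) :
    tm (fun i j => c i j • k i j) σ = (∏ i, c i (σ i)) * tm k σ := by
  simp only [tm, Matrix.smul_apply, smul_eq_mul, prod_mul_distrib, mul_sum]

theorem lq_smul (c : ι → K) (k : ι → ι → Matrix A A K) :
    (lq w fun i j => c j • k i j) = (∏ i, c i) * lq w k := by
  simp only [lq, tm_smul fun _ j => c j, mul_sum]
  exact sum_congr rfl fun σ _ => by rw [σ.prod_comp univ _ (by simp)]; ring

theorem lq_map {K' : Type} [CommRing K'] (φ : K →+* K') (k : ι → ι → Matrix A A K) :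
    φ (lq w k) = lq (φ w) fun i j => (k i j).map φ := by
  simp [lq, tm]

theorem lq_empty [IsEmpty ι] : lq w k = 1 := by simp [lq, tm, nc]

theorem lq_unique [Unique ι] : lq w k = w * (k default default).trace := by
  simp only [lq, Fintype.sum_unique, tm, Fintype.prod_unique, show (default : Perm ι) = 1 from rfl,
    nc_one, Fintype.card_unique, pow_one, Perm.one_apply]
  exact congrArg _ (Fintype.sum_equiv (Equiv.funUnique ι A) _ _ fun a => rfl)

theorem tm_col (c : ι) (x : ι → Matrix A A K) : tm (fun i j => if j = c then x i else k i j) σ =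
    ∑ a : ι → A, x (σ⁻¹ c) (a (σ⁻¹ c)) (a c) *
      ∏ i ∈ univ.erase (σ⁻¹ c), k i (σ i) (a i) (a (σ i)) := by
  refine sum_congr rfl fun a _ => ?_
  rw [← mul_prod_erase _ _ (mem_univ (σ⁻¹ c))]
  simp only [Perm.coe_inv, apply_symm_apply, if_true]
  exact congrArg _ (prod_congr rfl fun i hi => by
    rw [if_neg fun e => ne_of_mem_erase hi (by rw [← e, symm_apply_apply])])

/-- the loop sum is linear in each column -/
def lqC (w : K) (k : ι → ι → Matrix A A K) (c : ι) : (ι → Matrix A A K) →ₗ[K] K where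
  toFun x := lq w fun i j => if j = c then x i else k i j
  map_add' x y := by simp only [lq, tm_col, Pi.add_apply, Matrix.add_apply, add_mul,
    sum_add_distrib, mul_add]
  map_smul' t x := by
    simp only [lq, tm_col, Pi.smul_apply, Matrix.smul_apply, smul_eq_mul, mul_assoc, ← mul_sum,
      RingHom.id_apply, mul_left_comm _ t]

theorem lq_col (c : ι) (x n : Matrix A A K) :
    lq w (col k c (x * n)) = ∑ α, ∑ β, x β α * lq w (col k c (single β α 1 * n)) := by
  have h : ∀ x : Matrix A A K, lq w (col k c x) = lqC w k c fun _ => x := fun _ => rfl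
  have : (fun _ : ι => x * n) = ∑ α, ∑ β, x β α • fun _ : ι => single β α (1 : K) * n := by
    ext1 i
    conv_lhs => rw [matrix_eq_sum_single x, sum_comm]
    simp [sum_mul, ← Matrix.smul_mul]
  simp only [h, this, map_sum, map_smul, smul_eq_mul]

theorem sum_col (x : Matrix A A K) :
    ∑ c, lq w (col k c x) = ∑ c, lq w fun i j => if i = c then x else k i j := by
  unfold lq
  rw [sum_comm]
  refine .trans (sum_congr rfl fun σ _ => (Fintype.sum_equiv σ _ _ fun c => ?_).symm) sum_comm
  rw [tm_congr (k' := col k (σ c) x) fun i => by simp [col]]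

theorem exit_of_entry {T : ι → Prop} {i : ι} (h : ¬T i) (h' : T (σ i)) : ∃ j, T j ∧ ¬T (σ j) := by
  by_contra! e
  exact h (by simpa using Perm.perm_symm_mapsTo_of_mapsTo σ (s := {j | T j}) e h')

theorem exists_sigma {σ : Perm (Σ s, κ s)} (h : ∀ i, (σ i).1 = i.1) :
    ∃ τ, Perm.sigmaCongrRight τ = σ := by
  have : ∀ s x, ∃ z, σ ⟨s, x⟩ = ⟨s, z⟩ := fun s x => by
    have := h ⟨s, x⟩
    generalize σ ⟨s, x⟩ = u at this ⊢
    obtain ⟨t, z⟩ := u
    obtain rfl : t = s := this
    exact ⟨z, rfl⟩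
  choose f hf using this
  refine ⟨fun s => ofBijective (f s) (Finite.injective_iff_bijective.1 fun x z e => ?_),
    Equiv.ext fun i => (hf i.1 i.2).symm⟩
  exact sigma_mk_injective (σ.injective ((hf s x).trans (e ▸ (hf s z).symm)))

theorem tm_sigma (k : (Σ s, κ s) → (Σ s, κ s) → Matrix A A K) (τ : ∀ s, Perm (κ s)) :
    tm k (Perm.sigmaCongrRight τ) = ∏ s, tm (fun x z => k ⟨s, x⟩ ⟨s, z⟩) (τ s) := by
  simp only [tm, prod_univ_sum, Fintype.piFinset_univ, Fintype.prod_sigma]
  exact Fintype.sum_equiv (piCurry fun _ _ => A) _ _ fun a => rfl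

theorem lq_sigma {k : (Σ s, κ s) → (Σ s, κ s) → Matrix A A K}
    (h : ∀ (σ : Perm _) i, (σ i).1 ≠ i.1 → tm k σ = 0) :
    lq w k = ∏ s, lq w fun x z => k ⟨s, x⟩ ⟨s, z⟩ := by
  simp only [lq, prod_univ_sum, Fintype.piFinset_univ]
  refine (Fintype.sum_of_injective (Perm.sigmaCongrRightHom κ) Perm.sigmaCongrRightHom_injective _ _
    (fun σ hσ => ?_) fun τ => ?_).symm
  · by_cases e : ∀ i, (σ i).1 = i.1
    · exact (hσ (exists_sigma e)).elim
    · obtain ⟨i, hi⟩ := not_forall.1 e
      rw [h σ i hi, mul_zero]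
  · rw [Perm.sigmaCongrRightHom_apply, nc_sigma, tm_sigma, prod_mul_distrib, prod_pow_eq_pow_sum]

end Pool.Agent.Lib.MP_7f377f_mp.Lb
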