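import Pool.Agent.Lib.MP_7f377f_mp.Lb1

/-! Centred clusters, permutations with one exit from each cluster, removal of a vertex. -/

noncomputable section

namespace Pool.Agent.Lib.MP_7f377f_mp.Lb

set_option linter.unusedSectionVars false

open Finset Equiv Function
open Matrix hiding swap swap_mul_self

variable {ι ι' S A K : Type} [Fintype ι] [DecidableEq ι] [Fintype ι'] [DecidableEq ι']
  [Fintype S] [DecidableEq S] [Fintype A] [DecidableEq A] [CommRing K]
  {κ : S → Type} [∀ s, Fintype (κ s)] [∀ s, DecidableEq (κ s)] {w : K}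

theorem lq_bij {e : ι → ι'} (h : Bijective e) (k : ι' → ι' → Matrix A A K) :
    (lq w fun i j => k (e i) (e j)) = lq w k := lq_reindex (ofBijective e h) k

theorem lq_fib (π : ι → S) {k : ι → ι → Matrix A A K}
    (h : ∀ (σ : Perm ι) i, π (σ i) ≠ π i → tm k σ = 0) :
    lq w k = ∏ s, lq w fun x z : {i // π i = s} => k x z := by
  rw [← lq_reindex (sigmaFiberEquiv π), lq_sigma fun σ i hi => ?_]
  · rfl
  rw [tm_reindex]
  refine h _ (sigmaFiberEquiv π i) ?_
  rw [permCongr_apply, symm_apply_apply]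
  exact fun e => hi ((σ i).2.2.symm.trans (e.trans i.2.2))

theorem lq_cut (T : Finset S) (k : (Σ s, κ s) → (Σ s, κ s) → Matrix A A K) :
    ((∏ s ∈ Tᶜ, lq w fun x z => k ⟨s, x⟩ ⟨s, z⟩) *
      lq w fun q q' : Σ s : T, κ s => k ⟨q.1, q.2⟩ ⟨q'.1, q'.2⟩) =
    ∑ σ : Perm (Σ s, κ s), if ∀ i, i.1 ∉ T → (σ i).1 = i.1 then w ^ nc σ * tm k σ else 0 := by
  let k' : (Σ s, κ s) → (Σ s, κ s) → Matrix A A K := fun i j =>
    if i.1 ∉ T ∧ j.1 ≠ i.1 then 0 else k i j
  let π : (Σ s, κ s) → Option S := fun i => if i.1 ∈ T then none else some i.1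
  have h0 : ∀ (σ : Perm _) i, i.1 ∉ T → (σ i).1 ≠ i.1 → tm k' σ = 0 := fun σ i a b =>
    tm_zero (i := i) (if_pos ⟨a, b⟩)
  have h1 : lq w k' = _ := lq_fib π fun σ i hi => by
    by_cases a : i.1 ∈ T
    · have b : (σ i).1 ∉ T := fun b => hi (by simp [π, a, b])
      obtain ⟨j, c, d⟩ := exit_of_entry (σ := σ) (T := fun j => j.1 = (σ i).1) (i := i)
        (fun e => b (e ▸ a)) rfl
      exact h0 σ j (c ▸ b) (c ▸ d)
    · exact h0 σ i a fun e => hi (by simp [π, e])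
  have h2 : lq w k' = ∑ σ : Perm (Σ s, κ s),
      if ∀ i, i.1 ∉ T → (σ i).1 = i.1 then w ^ nc σ * tm k σ else 0 := by
    refine sum_congr rfl fun σ _ => ?_
    split_ifs with e
    · rw [tm_congr (k' := k) fun i => if_neg fun a => a.2 (e i a.1)]
    · obtain ⟨i, a, b⟩ : ∃ i, i.1 ∉ T ∧ (σ i).1 ≠ i.1 := by simpa using e
      rw [h0 σ i a b, mul_zero]
  rw [← h2, h1, Fintype.prod_option, mul_comm, ← prod_mul_prod_compl T, prod_eq_one (s := T) fun s hs => ?_,
    one_mul]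
  · congr 1
    · rw [← lq_bij (e := fun q : Σ s : T, κ s => (⟨⟨q.1, q.2⟩, by simp [π]⟩ : {i // π i = none}))]
      · simp [k']
      · refine ⟨?_, fun ⟨⟨s, x⟩, h⟩ => ⟨⟨⟨s, by simpa [π] using h⟩, x⟩, rfl⟩⟩
        rintro ⟨⟨s, _⟩, x⟩ ⟨⟨t, _⟩, z⟩ e
        cases e
        rfl
    · refine prod_congr rfl fun s hs => ?_
      rw [← lq_bij (e := fun x : κ s => (⟨⟨s, x⟩, if_neg (mem_compl.1 hs)⟩ : {i // π i = some s}))]
      · simp [k']
      · refine ⟨fun x z e => sigma_mk_injective (congrArg Subtype.val e), fun ⟨⟨t, x⟩, h⟩ => ?_⟩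
        obtain rfl : t = s := by simp only [π] at h; split_ifs at h; simpa using h
        exact ⟨x, rfl⟩
  · have : IsEmpty {i // π i = some s} := ⟨fun ⟨i, h⟩ => by
      simp only [π] at h
      split_ifs at h with a
      exact a ((Option.some.inj h).symm ▸ hs)⟩
    exact lq_empty

/-- the points which leave their cluster -/
def ex (σ : Perm (Σ s, κ s)) : Finset (Σ s, κ s) := {i | (σ i).1 ≠ i.1}

/-- no cluster is closed -/
def Gd (σ : Perm (Σ s, κ s)) : Prop := ∀ s, ∃ x, ⟨s, x⟩ ∈ ex σ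

instance (σ : Perm (Σ s, κ s)) : Decidable (Gd σ) := by unfold Gd; infer_instance

theorem lq_cen (k : (Σ s, κ s) → (Σ s, κ s) → Matrix A A K) :
    ∑ T : Finset S, ((∏ s ∈ Tᶜ, -lq w fun x z => k ⟨s, x⟩ ⟨s, z⟩) *
      lq w fun q q' : Σ s : T, κ s => k ⟨q.1, q.2⟩ ⟨q'.1, q'.2⟩) =
    ∑ σ : Perm (Σ s, κ s), if Gd σ then w ^ nc σ * tm k σ else 0 := by
  simp only [prod_neg, mul_assoc, lq_cut, mul_sum]
  rw [sum_comm]
  refine sum_congr rfl fun σ _ => ?_
  have := Fintype.prod_add (fun _ : S => (1 : K)) fun s => -if ∃ x, ⟨s, x⟩ ∈ ex σ then 0 else 1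
  have h1 : ∀ T : Finset S, (∏ s ∈ Tᶜ, if ∃ x, ⟨s, x⟩ ∈ ex σ then 0 else 1 : K) =
      if ∀ i, i.1 ∉ T → (σ i).1 = i.1 then 1 else 0 := fun T => by
    simp only [← ite_not (∃ _, _), prod_ite_zero, prod_const_one]
    exact if_congr ⟨fun h i hi => by simpa [ex] using (not_exists.1 (h i.1 (mem_compl.2 hi)) i.2),
      fun h s hs => by simpa [ex] using fun x => h ⟨s, x⟩ (mem_compl.1 hs)⟩ rfl rfl
  have h2 : ∀ s, (1 + -if ∃ x, ⟨s, x⟩ ∈ ex σ then 0 else 1 : K) =
      if ∃ x, ⟨s, x⟩ ∈ ex σ then 1 else 0 := fun s => by split_ifs <;> simp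
  simp only [prod_const_one, one_mul, prod_neg, h1, h2, prod_ite_zero, mem_univ,
    forall_true_left] at this
  trans (if Gd σ then 1 else 0) * (w ^ nc σ * tm k σ)
  · refine .trans ?_ (congrArg (· * _) this).symm
    rw [sum_mul]
    exact sum_congr rfl fun T _ => by split_ifs <;> simp
  · simp

theorem Gd.le {σ : Perm (Σ s, κ s)} (h : Gd σ) : Fintype.card S ≤ #(ex σ) :=
  card_le_card_of_surjOn Sigma.fst fun s _ => let ⟨x, hx⟩ := h s; ⟨_, hx, rfl⟩

/-- the permutation glued from permutations of the clusters and of the set of clusters -/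
def glue (c : ∀ s, κ s) (τ : ∀ s, Perm (κ s)) (σ : Perm S) : Perm (Σ s, κ s) :=
  σ.viaEmbedding ⟨fun s => ⟨s, c s⟩, fun _ _ e => congrArg Sigma.fst e⟩ * Perm.sigmaCongrRight τ

variable {c : ∀ s, κ s} {τ : ∀ s, Perm (κ s)} {σ : Perm S}

theorem glue_apply (s : S) (x : κ s) :
    glue c τ σ ⟨s, x⟩ = if τ s x = c s then ⟨σ s, c (σ s)⟩ else ⟨s, τ s x⟩ := by
  split_ifs with e
  · refine .trans ?_ (σ.viaEmbedding_apply ⟨fun s => ⟨s, c s⟩, fun _ _ e => congrArg Sigma.fst e⟩ s)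
    exact congrArg (σ.viaEmbedding _) (congrArg (Sigma.mk s) e)
  · refine σ.viaEmbedding_apply_of_notMem _ _ ?_
    rintro ⟨t, ht⟩
    obtain rfl : t = s := congrArg Sigma.fst ht
    exact e (sigma_mk_injective ht).symm

theorem nc_glue : nc (glue c τ σ) + Fintype.card S = nc σ + ∑ s, nc (τ s) := by
  rw [← nc_sigma]
  exact nc_emb _ (fun s => ⟨{i | i.1 = s}, fun _ => Iff.rfl, fun _ => Iff.rfl⟩) σ

theorem ex_glue (h : ∀ s, σ s ≠ s) :
    ex (glue c τ σ) = univ.image fun s => ⟨s, (τ s)⁻¹ (c s)⟩ := by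
  ext ⟨s, x⟩
  simp only [ex, mem_filter, mem_univ, true_and, glue_apply, mem_image]
  split_ifs with e
  · exact iff_of_true (h s) ⟨s, by simp [← e]⟩
  · refine iff_of_false (by simp) ?_
    rintro ⟨t, ht⟩
    cases ht
    simp at e

theorem exists_glue {ρ : Perm (Σ s, κ s)} (h : Gd ρ) (h' : #(ex ρ) = Fintype.card S) :
    ∃ c τ σ, (∀ s, σ s ≠ s) ∧ glue c τ σ = ρ := by
  have inj := injOn_of_surjOn_of_card_le (s := ex ρ) (t := univ) Sigma.fst (fun _ _ => by simp)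
    (fun s _ => let ⟨x, hx⟩ := h s; ⟨_, hx, rfl⟩) h'.le
  have : ∀ s, ∃ x, (ρ.symm ⟨s, x⟩).1 ≠ s := fun s => by
    obtain ⟨x, hx⟩ := h s
    obtain ⟨⟨t, z⟩, rfl, b⟩ := exit_of_entry (σ := ρ.symm) (T := fun j => j.1 = s) (i := ρ ⟨s, x⟩)
      (by simpa [ex] using hx) (by simp)
    exact ⟨z, b⟩
  choose c hc using this
  have hx : ∀ s, ρ.symm ⟨s, c s⟩ ∈ ex ρ := fun s => by simpa [ex] using (hc s).symm
  let σ : Perm S := ofBijective (fun s => (ρ.symm ⟨s, c s⟩).1)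
    (Finite.injective_iff_bijective.1 fun s t e =>
      congrArg Sigma.fst (ρ.symm.injective (inj (hx s) (hx t) e)))
  let e : S ↪ Σ s, κ s := ⟨fun s => ⟨s, c s⟩, fun _ _ e => congrArg Sigma.fst e⟩
  obtain ⟨τ, hτ⟩ := exists_sigma (σ := σ.viaEmbedding e * ρ) fun i => by
    by_cases a : ρ i ∈ Set.range e
    · obtain ⟨s, hs⟩ := a
      rw [Perm.mul_apply, ← hs, Perm.viaEmbedding_apply]
      exact (congrArg Sigma.fst (ρ.symm_apply_eq.2 hs) :)
    · rw [Perm.mul_apply, Perm.viaEmbedding_apply_of_notMem _ _ _ a]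
      by_contra b
      obtain ⟨s, hs⟩ := σ.surjective i.1
      exact a ⟨s, ρ.symm_apply_eq.1 (inj (hx s) (by simpa [ex] using b) hs)⟩
  refine ⟨c, τ, σ⁻¹, fun s a => hc s (σ.inv_eq_iff_eq.1 a).symm, ?_⟩
  rw [glue, hτ, ← mul_assoc, ← via_mul, inv_mul_cancel]
  exact (congrArg (· * ρ) (Perm.viaEmbeddingHom e).map_one).trans (one_mul ρ)

theorem glue_inj {c' : ∀ s, κ s} {τ' : ∀ s, Perm (κ s)} {σ' : Perm S} (h : ∀ s, σ s ≠ s)
    (e : glue c τ σ = glue c' τ' σ') : c = c' ∧ τ = τ' ∧ σ = σ' := by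
  have h1 : ∀ s, (⟨σ s, c (σ s)⟩ : Σ s, κ s) = ⟨σ' s, c' (σ' s)⟩ := fun s => by
    have := Equiv.congr_fun e ⟨s, (τ s)⁻¹ (c s)⟩
    rw [glue_apply, glue_apply, if_pos (by simp)] at this
    split_ifs at this
    · exact this
    · exact (h s (congrArg Sigma.fst this)).elim
  obtain rfl : σ = σ' := Equiv.ext fun s => congrArg Sigma.fst (h1 s)
  obtain rfl : c = c' := funext fun s => by
    obtain ⟨t, rfl⟩ := σ.surjective s
    exact sigma_mk_injective (h1 t)
  exact ⟨rfl, Perm.sigmaCongrRightHom_injective (mul_left_cancel e), rfl⟩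

variable {k : (Σ s, κ s) → (Σ s, κ s) → Matrix A A K} {n : (Σ s, κ s) → Matrix A A K}
  {g : S → S → Matrix A A K}

theorem tm_glue (h : ∀ s, σ s ≠ s) (hk : ∀ i j, i.1 ≠ j.1 → k i j = g i.1 j.1 * n j) :
    tm k (glue c τ σ) = ∑ β : S → A, ∑ α : S → A, ∏ s, g s (σ s) (β s) (α s) * tm (col
      (fun x z => k ⟨σ s, x⟩ ⟨σ s, z⟩) (c _) (single (β (σ s)) (α s) 1 * n ⟨σ s, c _⟩)) (τ _) := by
  let R : ∀ s, (κ s → A) → K := fun s a =>
    ∏ x ∈ univ.erase ((τ s)⁻¹ (c s)), k ⟨s, x⟩ ⟨s, τ s x⟩ (a x) (a (τ s x))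
  have h1 : ∀ s b a, tm (col (fun x z => k ⟨s, x⟩ ⟨s, z⟩) (c s) (single b a 1 * n ⟨s, c s⟩)) (τ s) =
      ∑ u : κ s → A, (if b = u ((τ s)⁻¹ (c s)) then 1 else 0) * (n ⟨s, c s⟩ a (u (c s)) * R s u) :=
    fun s b a => (tm_col _ fun _ => _).trans (sum_congr rfl fun u _ => by
      split_ifs with e
      · rw [← e, single_mul_apply_same, one_mul, one_mul]
      · rw [single_mul_apply_of_ne _ _ _ _ _ (Ne.symm e), zero_mul, zero_mul])
  have h2 : tm k (glue c τ σ) = ∑ u : ∀ s, κ s → A, (∏ s, R s (u s)) * ∑ α : S → A,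
      ∏ s, g s (σ s) (u s ((τ s)⁻¹ (c s))) (α s) * n ⟨σ s, c _⟩ (α s) (u (σ s) (c _)) := by
    refine Fintype.sum_equiv (piCurry fun _ _ => A) _ _ fun u => ?_
    rw [← Fintype.prod_sum fun s a => g s (σ s) (piCurry (fun _ _ => A) u s ((τ s)⁻¹ (c s))) a *
      n ⟨σ s, c _⟩ a (piCurry (fun _ _ => A) u (σ s) (c _)), ← prod_mul_distrib, Fintype.prod_sigma]
    refine prod_congr rfl fun s _ => ?_
    rw [← prod_erase_mul _ _ (mem_univ ((τ s)⁻¹ (c s))), glue_apply, if_pos (by simp),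
      hk _ _ (h s).symm]
    refine congrArg₂ _ (prod_congr rfl fun x hx => ?_) rfl
    rw [glue_apply, if_neg fun e => ne_of_mem_erase hx (by simp [← e])]
    rfl
  rw [h2, sum_comm]
  simp only [mul_sum]
  rw [sum_comm]
  refine sum_congr rfl fun α _ => ?_
  simp only [← mul_sum, prod_mul_distrib, h1]
  have h3 : ∀ β : S → A, ∏ s, ∑ u : κ (σ s) → A, (if β (σ s) = u ((τ _)⁻¹ (c _)) then 1 else 0) *
      (n ⟨σ s, c _⟩ (α s) (u (c _)) * R _ u) = ∑ u : ∀ s, κ s → A,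
        (if β = fun s => u s ((τ s)⁻¹ (c s)) then 1 else 0) *
          ((∏ s, n ⟨σ s, c _⟩ (α s) (u (σ s) (c _))) * ∏ s, R s (u s)) := fun β => by
    have := σ.prod_comp univ (fun s => ∑ u : κ s → A, (if β s = u ((τ s)⁻¹ (c s)) then 1 else 0) *
      (n ⟨s, c s⟩ (α (σ⁻¹ s)) (u (c s)) * R s u)) (by simp)
    simp only [Perm.coe_inv, symm_apply_apply] at this ⊢
    rw [this, prod_univ_sum, Fintype.piFinset_univ]
    refine sum_congr rfl fun u _ => ?_
    rw [prod_mul_distrib, prod_mul_distrib, ← σ.prod_comp univ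
      (fun s => n ⟨s, c s⟩ (α (σ.symm s)) (u s (c s))) (by simp)]
    simp [prod_ite_zero, funext_iff]
  simp only [h3, mul_sum]
  rw [sum_comm]
  refine sum_congr rfl fun u _ => ?_
  simp only [ite_mul, mul_ite, zero_mul, mul_zero, sum_ite_eq', mem_univ, if_true]
  ring

theorem one_exit (hg : ∀ s, g s s = 0) (hk : ∀ i j, i.1 ≠ j.1 → k i j = g i.1 j.1 * n j) :
    (lq w fun s t => g s t * of fun α β =>
      ∑ c, lq w (col (fun x z => k ⟨t, x⟩ ⟨t, z⟩) c (single β α 1 * n ⟨t, c⟩))) =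
    w ^ Fintype.card S * ∑ ρ : Perm (Σ s, κ s),
      if Gd ρ ∧ #(ex ρ) = Fintype.card S then w ^ nc ρ * tm k ρ else 0 := by
  have h1 : ∀ σ : Perm S, (∀ s, σ s ≠ s) → w ^ nc σ * tm (fun s t => g s t * of fun α β =>
      ∑ c, lq w (col (fun x z => k ⟨t, x⟩ ⟨t, z⟩) c (single β α 1 * n ⟨t, c⟩))) σ =
      ∑ c, ∑ τ, w ^ Fintype.card S * (w ^ nc (glue c τ σ) * tm k (glue c τ σ)) := fun σ h => by
    simp only [tm_mul, tm_glue h hk, ← mul_assoc, ← pow_add, add_comm (Fintype.card S), nc_glue,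
      of_apply, lq, mul_sum]
    symm
    refine (sum_congr rfl fun _ _ => sum_comm).trans (sum_comm.trans (sum_congr rfl fun β _ => ?_))
    refine (sum_congr rfl fun _ _ => sum_comm).trans (sum_comm.trans (sum_congr rfl fun α _ => ?_))
    have := σ.prod_comp univ (fun t => ∑ c, ∑ τ : Perm (κ t), w ^ nc τ *
      tm (col (fun x z => k ⟨t, x⟩ ⟨t, z⟩) c (single (β t) (α (σ⁻¹ t)) 1 * n ⟨t, c⟩)) τ) (by simp)
    simp only [Perm.coe_inv, symm_apply_apply] at this
    simp only [← mul_sum, mul_assoc, prod_mul_distrib]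
    rw [this]
    simp only [prod_univ_sum, Fintype.piFinset_univ, mul_sum, prod_mul_distrib, pow_add,
      prod_pow_eq_pow_sum]
    refine sum_congr rfl fun c _ => sum_congr rfl fun τ _ => ?_
    rw [← σ.prod_comp univ (fun t => tm (col (fun x z => k ⟨t, x⟩ ⟨t, z⟩) (c t)
      (single (β t) (α (σ.symm t)) 1 * n ⟨t, c t⟩)) (τ t)) (by simp)]
    simp only [symm_apply_apply]
    ring
  have h2 : ∀ f : Perm S → K, (∀ σ s, σ s = s → f σ = 0) →
      ∑ σ, f σ = ∑ σ with ∀ s, σ s ≠ s, f σ := fun f hf =>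
    (sum_subset (subset_univ _) fun σ _ h => by
      obtain ⟨s, hs⟩ : ∃ s, σ s = s := by simpa using h
      exact hf σ s hs).symm
  rw [lq, h2 _ fun σ s hs => by rw [tm_zero (i := s) (by rw [hs, hg, Matrix.zero_mul]), mul_zero],
    sum_congr rfl fun σ hσ => h1 σ (mem_filter.1 hσ).2, ← sum_filter, mul_sum]
  simp only [← Fintype.sum_prod_type', ← sum_product']
  refine sum_nbij (fun p => glue p.2.1 p.2.2 p.1) (fun p hp => ?_) (fun p hp q _ e => ?_)
    (fun ρ hρ => ?_) fun _ _ => rfl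
  · have := ex_glue (c := p.2.1) (τ := p.2.2) (mem_filter.1 (mem_product.1 hp).1).2
    refine mem_filter.2 ⟨mem_univ _, fun s => ⟨_, this ▸ mem_image_of_mem _ (mem_univ s)⟩, ?_⟩
    rw [this, card_image_of_injective _ fun _ _ e => congrArg Sigma.fst e, card_univ]
  · obtain ⟨a, b, c⟩ := glue_inj (mem_filter.1 (mem_product.1 hp).1).2 e
    exact Prod.ext c (Prod.ext a b)
  · obtain ⟨c, τ, σ, a, b⟩ := exists_glue (mem_filter.1 hρ).2.1 (mem_filter.1 hρ).2.2
    exact ⟨(σ, c, τ), by simpa using a, b⟩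

theorem nc_option (τ : Perm ι) : nc τ.optionCongr = nc τ + 1 := by
  have h := nc_emb Embedding.some (τ := 1)
    (fun s => ⟨{some s}, fun _ => Iff.rfl, fun s' => by simp⟩) τ
  have : τ.viaEmbedding Embedding.some = τ.optionCongr := by
    ext1 x
    cases x
    · exact τ.viaEmbedding_apply_of_notMem _ _ (by simp)
    · exact τ.viaEmbedding_apply Embedding.some _
  rw [this, mul_one, nc_one, Fintype.card_option] at h
  omega

theorem lq_peel (k : Option ι → Option ι → Matrix A A K) (x : Matrix A A K) :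
    lq w (col k none x) = w * x.trace * (lq w fun i j => k (some i) (some j)) +
      ∑ j, lq w (col (fun i j => k (some i) (some j)) j (x * k none (some j))) := by
  rw [lq, ← Perm.decomposeOption.symm.sum_comp, Fintype.sum_prod_type, Fintype.sum_option, lq, mul_sum]
  simp only [Perm.decomposeOption_symm_apply, swap_self, Perm.refl_mul]
  refine congrArg₂ _ (sum_congr rfl fun τ _ => ?_) (sum_congr rfl fun j _ => sum_congr rfl
    fun τ _ => congrArg₂ _ ?_ ?_)
  · rw [nc_option, tm, ← piOptionEquivProd.symm.sum_comp, Fintype.sum_prod_type]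
    simp only [Fintype.prod_option, col, tm, trace, ← mul_sum, ← sum_mul]
    simp [pow_succ, ← mul_sum, ← sum_mul]
    ring
  · have := nc_fix (τ := τ.optionCongr) (p := none) (q := some j) rfl (by simp)
    rw [nc_option] at this
    rw [Nat.add_right_cancel this]
  · refine .trans ?_ (tm_col j fun _ => _).symm
    rw [tm, ← piOptionEquivProd.symm.sum_comp, Fintype.sum_prod_type, sum_comm]
    refine sum_congr rfl fun a _ => ?_
    rw [mul_apply, sum_mul]
    refine sum_congr rfl fun b _ => ?_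
    rw [Fintype.prod_option, ← mul_prod_erase _ _ (mem_univ (τ⁻¹ j)), ← mul_assoc,
      prod_congr rfl (g := fun i => k (some i) (some (τ i)) (a i) (a (τ i))) fun i hi => ?_]
    · simp [col, mul_comm]
    · have : τ i ≠ j := fun e => ne_of_mem_erase hi (by simp [← e])
      simp [col, swap_apply_of_ne_of_ne, this]

theorem lq_chain {m : ℕ} (k : Fin (m + 1) → Fin (m + 1) → Matrix A A K) (c : Fin (m + 1))
    (x : Matrix A A K) : lq w (col k c x) =
      w * x.trace * (lq w fun i j => k (c.succAbove i) (c.succAbove j)) + ∑ j, lq w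
        (col (fun i j => k (c.succAbove i) (c.succAbove j)) j (x * k c (c.succAbove j))) := by
  rw [← lq_reindex (finSuccEquiv' c).symm]
  have := lq_peel (w := w) (fun i j => k ((finSuccEquiv' c).symm i) ((finSuccEquiv' c).symm j)) x
  simp only [finSuccEquiv'_symm_some, finSuccEquiv'_symm_none] at this
  rw [← this]
  congr 1
  ext1 i
  ext1 j
  simp only [col, symm_apply_eq, finSuccEquiv'_at]

end Pool.Agent.Lib.MP_7f377f_mp.Lb
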