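import Pool.Agent.Lib.MP_7f377f_mp.Lb2
import Pool.Agent.Lib.MP_7f377f_mp.Lb3

/-! Free correlation functions with labels. -/

noncomputable section

namespace Pool.Agent.Lib.MP_7f377f_mp.Lb

set_option linter.unusedSectionVars false

open Finset Equiv Function YG Matrix
open scoped Kronecker

variable {ι ι' : Type} [Fintype ι] [DecidableEq ι] [Fintype ι'] [DecidableEq ι']

/-- the loop sum is multilinear in the vertices -/
def lqM {A K : Type} [Fintype A] [DecidableEq A] [CommRing K] (w : K) (k : ι → ι → Matrix A A K) :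
    MultilinearMap K (fun _ : ι => Matrix A A K) K :=
  have h : ∀ (c : ι → Matrix A A K) j x, (lq w fun i l => k i l * update c j x l) =
      lqC w (fun i l => k i l * c l) j fun i => k i j * x := fun c j x => by
    refine congrArg (lq w) (funext fun i => funext fun l => ?_)
    split_ifs with e
    · rw [e, update_self]
    · rw [update_of_ne e]
  .mk' (fun c => lq w fun i j => k i j * c j)
    (fun c j x y => by simp only [h, Matrix.mul_add, ← map_add]; rfl)
    fun c j t x => by simp only [h, Matrix.mul_smul, ← map_smul]; rfl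

/-- the symmetric part as a linear map -/
def syL {K : Type} [Field K] : Lab K →ₗ[K] Lab K where
  toFun := sy
  map_add' a b := by simp only [sy, transpose_add, add_add_add_comm a b, smul_add]
  map_smul' t a := by simp only [sy, transpose_smul, ← smul_add, smul_comm _ t, RingHom.id_apply]

theorem lq_pa {K : Type} [Field K] [CharZero K] {w : K} {P : ι → ι → Lab K}
    (h : ∀ i j, an * P i j = P i j) (h' : ∀ i j, P i j * an = P i j) (c : ι → Lab K) :
    (lq w fun i j => P i j * sy (pa (c j))) = lq w fun i j => P i j * sy (c j) := by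
  simp only [sy_of pa_tr]
  simp only [pa, ← Matrix.mul_assoc, h']
  rw [← lq_move fun _ => an]
  simp only [← Matrix.mul_assoc, h]

theorem lq_rho {K : Type} [CommRing K] {w : K} {g : M4 K} (hg : gᵀ * g = 1) (k : ι → ι → Lab K) :
    (lq w fun i j => rho g (k i j)) = lq w k := by
  simp only [rho]
  rw [← lq_move fun _ => (g ⊗ₖ g)ᵀ]
  simp only [← Matrix.mul_assoc, kk_orth hg, Matrix.one_mul]

/-- the matrix of the reflection -/
def mr (v : R4) : M4 ℝ := of (mirror v)

theorem pr_eq (v : R4) : pr v = (2 / ‖v‖ ^ 4) • (mr v ⊗ₖ mr v * an) := by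
  ext a b
  refine .trans ?_ (congrArg (2 / ‖v‖ ^ 4 * ·) (mul_an _ a b).symm)
  simp only [pr, mr, of_apply, kroneckerMap_apply, Prod.fst_swap, Prod.snd_swap]
  ring

theorem pr_an (v : R4) : pr v * an = pr v := by
  rw [pr_eq, Matrix.smul_mul, Matrix.mul_assoc, an_an]

theorem an_pr (v : R4) : an * pr v = pr v := by
  rw [pr_eq, kk_an, Matrix.mul_smul, ← Matrix.mul_assoc, an_an]

theorem mr_tr (v : R4) : (mr v)ᵀ = mr v := by
  ext i j
  simp only [mr, mirror, transpose_apply, of_apply, eq_comm (a := j), mul_right_comm 2 (v j)]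

theorem pr_tr (v : R4) : (pr v)ᵀ = pr v := by
  rw [pr_eq, transpose_smul, transpose_mul, an_tr, kk_tr, mr_tr, kk_an]

theorem pr_zero : pr 0 = 0 := by simp [pr_eq]

theorem pr_smul (t : ℝ) (v : R4) : pr (t • v) = (t ^ 4)⁻¹ • pr v := by
  rcases eq_or_ne t 0 with rfl | h
  · simp [pr_zero]
  have : mr (t • v) = mr v := by
    ext i j
    simp only [mr, mirror, of_apply, norm_smul, mul_pow, Real.norm_eq_abs, sq_abs, PiLp.smul_apply,
      smul_eq_mul]
    field_simp
  rw [pr_eq, pr_eq, this, smul_smul, norm_smul, mul_pow, Real.norm_eq_abs,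
    Even.pow_abs ⟨2, rfl⟩]
  congr 1
  field_simp

theorem pr_neg (v : R4) : pr (-v) = pr v := by simpa [show ((-1 : ℝ) ^ 4)⁻¹ = 1 by norm_num] using pr_smul (-1) v

theorem pr_sub (u v : R4) : pr (u - v) = pr (v - u) := by rw [← pr_neg, neg_sub]

theorem mr_rot (R : R4 ≃ₗᵢ[ℝ] R4) (v : R4) : mr (R v) = mx R * mr v * (mx R)ᵀ := by
  have : ∀ v : R4, mr v = 1 - (2 / ‖v‖ ^ 2) • vecMulVec v v := fun v => by
    ext i j
    simp only [mr, mirror, of_apply, Matrix.sub_apply, one_apply, Matrix.smul_apply, vecMulVec_apply,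
      smul_eq_mul]
    ring
  rw [this, this, Matrix.mul_sub, Matrix.sub_mul, Matrix.mul_one, mul_eq_one_comm.1 (mx_orth R),
    R.norm_map, Matrix.mul_smul, Matrix.smul_mul, mul_vecMulVec, vecMulVec_mul, vecMul_transpose]
  congr 3 <;> exact funext (mx_mulVec R v)

theorem pr_rot (R : R4 ≃ₗᵢ[ℝ] R4) (v : R4) : pr (R v) = rho (mx R) (pr v) := by
  rw [pr_eq, pr_eq, R.norm_map, rho_smul, rho_mul' (mx_orth R), rho_an (mx_orth R), mr_rot, rho,
    mul_kronecker_mul, mul_kronecker_mul, kk_tr]

theorem pr_cont {v : R4} (h : v ≠ 0) : ContinuousAt pr v := by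
  have : ‖v‖ ≠ 0 := norm_ne_zero_iff.2 h
  refine continuousAt_pi.2 fun a => continuousAt_pi.2 fun b => ?_
  simp only [pr, mirror, of_apply]
  fun_prop (disch := positivity)

theorem pr_meas (a b : Pl) : Measurable fun v => pr v a b := by
  simp only [pr, mirror, of_apply]
  fun_prop

section top

variable {A X : Type} [Fintype A] [DecidableEq A] {w : ℝ} {k : X → ι → ι → Matrix A A ℝ}

theorem tm_cont [TopologicalSpace X] {x : X} {σ : Perm ι}
    (h : ∀ i, ContinuousAt (fun x => k x i (σ i)) x) : ContinuousAt (fun x => tm (k x) σ) x :=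
  tendsto_finset_sum _ fun _ _ => tendsto_finset_prod _ fun i _ =>
    continuousAt_pi.1 (continuousAt_pi.1 (h i) _) _

theorem lq_cont [TopologicalSpace X] {x : X} (h : ∀ i j, ContinuousAt (fun x => k x i j) x) :
    ContinuousAt (fun x => lq w (k x)) x :=
  tendsto_finset_sum _ fun _ _ => (tm_cont fun _ => h _ _).const_mul _

theorem lq_meas [MeasurableSpace X] (h : ∀ i j a b, Measurable fun x => k x i j a b) :
    Measurable fun x => lq w (k x) :=
  Finset.measurable_sum _ fun _ _ => (Finset.measurable_sum _ fun _ _ =>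
    Finset.measurable_prod _ fun _ _ => h _ _ _ _).const_mul _

end top

variable {w : ℝ} {c : ι → Lab ℝ} {y : ι → R4}

theorem pr_cont' (h : Injective y) (i j : ι) : ContinuousAt (fun y : ι → R4 => pr (y j - y i)) y := by
  rcases eq_or_ne j i with rfl | e
  · simpa only [sub_self] using continuousAt_const
  · exact (pr_cont (sub_ne_zero.2 (h.ne e))).comp (f := fun y : ι → R4 => y j - y i) (by fun_prop)

/-- the free correlation function is multilinear in the labels -/
def frM (w : ℝ) (y : ι → R4) : MultilinearMap ℝ (fun _ : ι => Lab ℝ) ℝ :=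
  (lqM w fun i j => pr (y j - y i)).compLinearMap fun _ => syL

theorem frM_apply : frM w y c = frL w c y := rfl

theorem frL_pa : frL w (fun i => pa (c i)) y = frL w c y :=
  lq_pa (fun _ _ => an_pr _) (fun _ _ => pr_an _) c

theorem frL_congr {c' : ι → Lab ℝ} (h : ∀ i, pa (c i) = pa (c' i)) : frL w c y = frL w c' y := by
  rw [← frL_pa, funext h, frL_pa]

theorem frL_reindex (e : ι' ≃ ι) : frL w (fun i => c (e i)) (fun i => y (e i)) = frL w c y :=
  lq_reindex e fun i j => pr (y j - y i) * sy (c j)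

theorem frL_add (v : R4) : frL w c (fun i => y i + v) = frL w c y := by
  simp only [frL, add_sub_add_right_eq_sub]

theorem frL_smul (t : ℝ) : frL w c (fun i => t • y i) = (t ^ 4)⁻¹ ^ Fintype.card ι * frL w c y := by
  simp only [frL, ← smul_sub, pr_smul, Matrix.smul_mul, lq_smul fun _ => (t ^ 4)⁻¹, prod_const,
    card_univ]

theorem frL_rot (R : R4 ≃ₗᵢ[ℝ] R4) :
    frL w (fun i => rho (mx R) (c i)) (fun i => R (y i)) = frL w c y := by
  simp only [frL, ← map_sub, pr_rot, sy_rho, ← rho_mul' (mx_orth R), lq_rho (mx_orth R)]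

theorem frL_cont (h : Injective y) :
    ContinuousAt (fun p : (ι → Lab ℝ) × (ι → R4) => frL w p.1 p.2) (c, y) :=
  lq_cont fun i j => ((pr_cont' h i j).comp_of_eq continuousAt_snd rfl).mul
    (Continuous.continuousAt (by unfold sy; fun_prop))

theorem frL_meas {X : Type} [MeasurableSpace X] {c : X → ι → Lab ℝ} {y : X → ι → R4}
    (hc : ∀ i a b, Measurable fun x => c x i a b) (hy : ∀ i, Measurable fun x => y x i) :
    Measurable fun x => frL w (c x) (y x) := lq_meas fun i j a b => by
  simp only [mul_apply, sy, Matrix.smul_apply, Matrix.add_apply, transpose_apply]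
  exact Finset.measurable_sum _ fun u _ => ((pr_meas a u).comp ((hy j).sub (hy i))).mul (by fun_prop)

theorem frL_unique [Unique ι] : frL w c y = 0 := by simp [frL, lq_unique, pr_zero]

theorem frL_empty [IsEmpty ι] : frL w c y = 1 := lq_empty

theorem fr_eq : fr w y = lq w fun i j => (2⁻¹ : ℝ) • pr (y j - y i) := by
  simp only [fr, frL, sy_c0]
  simp only [c0, Matrix.mul_smul, Matrix.mul_one]

theorem free_eq {k : ℕ} (d : ℕ) (y : Fin k → R4) : free d y = fr (d / 2) y := by
  let J : Lab ℝ := diagonal fun a => if a.1 < a.2 then 1 else 0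
  have h1 : an * J * an = (2⁻¹ : ℝ) • an := by
    ext ⟨a, b⟩ ⟨c, d⟩
    simp only [mul_an, an_mul, J, diagonal_apply, Prod.swap_prod_mk, Prod.mk.injEq, Matrix.smul_apply,
      smul_eq_mul]
    simp only [an, of_apply, Prod.swap_prod_mk, Prod.mk.injEq]
    split_ifs <;> first | omega | norm_num
  have h2 : (lq (d / 2 : ℝ) fun i j => J * pr (y j - y i)) = fr (d / 2) y := by
    conv_lhs => enter [2, i, j]; rw [← an_pr, ← pr_an, ← Matrix.mul_assoc, ← Matrix.mul_assoc]
    rw [← lq_move fun _ => an, fr_eq]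
    simp only [← Matrix.mul_assoc, h1, Matrix.smul_mul, an_pr]
  rw [← h2, lq_der fun i => by simp [pr_zero]]
  refine sum_congr rfl fun σ _ => ?_
  split_ifs
  · exact congrArg _ (sum_congr rfl fun a _ => prod_congr rfl fun i _ => by simp [J, pr])
  · rfl

theorem freeL_eq {k : ℕ} (d : ℕ) (c : Fin k → Lab ℂ) (y : Fin k → R4) :
    freeL d c y = lq (d / 2 : ℂ) fun i j => (pr (y j - y i)).map (↑) * sy (c j) := by
  rw [lq_der fun i => by simp [pr_zero]]
  refine sum_congr rfl fun σ _ => ?_
  split_ifs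
  · refine congrArg _ (sum_congr rfl fun a _ => prod_congr rfl fun i _ => ?_)
    simp only [sy, map_apply, Matrix.smul_apply, Matrix.add_apply, transpose_apply, smul_eq_mul,
      mul_apply]
    exact sum_congr rfl fun b _ => by ring
  · rfl

/-- the free correlation function is multilinear in the complex labels -/
def freeM {k : ℕ} (d : ℕ) (y : Fin k → R4) : MultilinearMap ℂ (fun _ : Fin k => Lab ℂ) ℂ :=
  (lqM (d / 2 : ℂ) fun i j => (pr (y j - y i)).map (↑)).compLinearMap fun _ => syL

theorem freeM_apply {k : ℕ} (d : ℕ) (y : Fin k → R4) (c : Fin k → Lab ℂ) :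
    freeM d y c = freeL d c y := (freeL_eq d c y).symm

theorem freeL_map {k : ℕ} (d : ℕ) (c : Fin k → Lab ℝ) (y : Fin k → R4) :
    freeL d (fun i => (c i).map (↑)) y = frL (d / 2) c y := by
  have := lq_map (w := (d / 2 : ℝ)) Complex.ofRealHom fun i j => pr (y j - y i) * sy (c j)
  rw [freeL_eq, frL]
  refine .trans ?_ this.symm
  congr 1
  · simp
  · ext i j a b
    simp [sy, mul_apply]

theorem freeL_c0 {k : ℕ} (d : ℕ) (y : Fin k → R4) : freeL d (fun _ => c0) y = free d y := by
  rw [free_eq, fr, ← freeL_map]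
  congr
  ext i a b
  simp [c0, one_apply, apply_ite]

end Pool.Agent.Lib.MP_7f377f_mp.Lb
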