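import Pool.Agent.Lib.MP_7f377f_mp.PurA

/-! Clustering along generic directions from the uniqueness of the vacuum. -/

noncomputable section

namespace Pool.Agent.Lib.MP_7f377f_mp.Lg

open Filter Topology Set ComplexConjugate YM7 Pur Pur.Net

variable {P : Type} [CommRing P] [Algebra ℂ P] {N : Net P} {S : P →ₗ[ℂ] ℂ}

namespace DC

variable {H : Type} [NormedAddCommGroup H] [InnerProductSpace ℂ H] {μ : Fin 4} {X Y : P} {ι : Type}
  {l : Filter ι} {v : ι → R4}

theorem ax_hs (hY : Y ∈ N.loc (Hs μ 0)) {s : ℝ} (hs : 0 ≤ s) : N.τ (ax μ s) Y ∈ N.loc (Hs μ 0) :=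
  τ_hs hY (by simpa using hs)

/-- the orbits of the semigroup of time translations are asymptotically regular -/
theorem reg (hS : N.St S) (r : N.Rep S μ H) (hY : Y ∈ N.loc (Hs μ 0)) {h : ℝ} (h0 : 0 ≤ h) :
    Tendsto (fun s => ‖r.Ψ (N.τ (ax μ (s + h)) Y) - r.Ψ (N.τ (ax μ s) Y)‖) atTop (𝓝 0) := by
  set φ : ℝ → ℝ := fun s => ‖r.Ψ (N.τ (ax μ (max s 0)) Y)‖ ^ 2 with hφ
  have h1 : Antitone φ := fun s t hst => by
    have := r.le (v := ax μ (max t 0 - max s 0)) (by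
      simpa only [PiLp.single_eq_same, sub_nonneg] using max_le_max_right 0 hst)
      (ax_hs hY (le_max_right s 0))
    rw [N.τ_τ, ax_add, sub_add_cancel] at this
    exact pow_le_pow_left₀ (norm_nonneg _) this 2
  have h2 := tendsto_atTop_ciInf h1 ⟨0, by rintro _ ⟨s, rfl⟩; exact sq_nonneg _⟩
  have h3 := ((h2.comp (tendsto_atTop_add_const_right _ h tendsto_id)).sub ((h2.comp
    (tendsto_atTop_add_const_right _ (h / 2) tendsto_id)).const_mul 2)).add h2
  rw [show ∀ x : ℝ, x - 2 * x + x = 0 from fun x => by ring] at h3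
  have h4 := h3.sqrt
  rw [Real.sqrt_zero] at h4
  refine h4.congr' ((eventually_ge_atTop 0).mono fun s hs => ?_)
  have k : 0 ≤ ax μ (h / 2) μ := by simpa using div_nonneg h0 zero_le_two
  have e := r.adj hS k (r.Ψ (N.τ (ax μ (s + h / 2)) Y)) (r.Ψ (N.τ (ax μ s) Y))
  rw [← rf_neg, ← PiLp.single_neg, rf_ax, neg_neg, r.act k (ax_hs hY (by linarith)),
    r.act k (ax_hs hY hs), N.τ_τ, N.τ_τ, ax_add, ax_add, show h / 2 + (s + h / 2) = s + h by ring,
    add_comm (h / 2)] at e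
  simp only [Function.comp, id, hφ]
  rw [max_eq_left hs, max_eq_left (show 0 ≤ s + h by linarith),
    max_eq_left (show 0 ≤ s + h / 2 by linarith), ← Real.sqrt_sq (norm_nonneg (_ - _)),
    norm_sub_sq (𝕜 := ℂ), e, inner_self_eq_norm_sq]

/-- shifts by a nonnegative multiple of a basis vector do not matter far away -/
theorem top0 (hS : N.St S) (hX : X ∈ N.loc univ) (hY : Y ∈ N.loc univ)
    (hv : Tendsto (fun i => v i μ) l atTop) {h : ℝ} (h0 : 0 ≤ h) :
    Tendsto (fun i => S (X * N.τ (v i + ax μ h) Y) - S (X * N.τ (v i) Y)) l (𝓝 0) := by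
  obtain ⟨H, _, _, _, ⟨r⟩⟩ := hS.exists_rep μ
  obtain ⟨R, h1, h2⟩ := ((box hX).and (box hY)).exists
  rw [univ_inter] at h1 h2
  have h3 : N.τ (ax μ R) Y ∈ N.loc (Hs μ 0) := τ_hs (bx_hs h2 μ) (by simp)
  have h4 : N.τ (-rf μ (ax μ R)) (N.Θ μ X) ∈ N.loc (Hs μ 0) := τ_hs (bx_hs (Θ_bx h1 μ) μ) (by simp)
  have h5 := ((reg hS r h3 h0).comp (tendsto_atTop_add_const_right _ (-(2 * R)) hv)).const_mul
    ‖r.Ψ (N.τ (-rf μ (ax μ R)) (N.Θ μ X))‖
  rw [mul_zero] at h5
  refine squeeze_zero_norm' ((hv.eventually_ge_atTop (2 * R)).mono fun i hi => ?_) h5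
  have e : ∀ h : ℝ, N.τ (-ax μ R) (N.τ (v i + ax μ h) Y) = N.τ (v i - ax μ (v i μ))
      (N.τ (ax μ (v i μ + -(2 * R) + h)) (N.τ (ax μ R) Y)) := fun h => by
    simp only [N.τ_τ]
    congr 2
    ext ν
    by_cases hν : ν = μ
    · subst hν
      simp
      ring
    · simp [hν]
  have m : ∀ h : ℝ, 0 ≤ h → N.τ (ax μ (v i μ + -(2 * R) + h)) (N.τ (ax μ R) Y) ∈ N.loc (Hs μ 0) :=
    fun h h0 => ax_hs h3 (by linarith)
  have k : 0 ≤ (v i - ax μ (v i μ)) μ := by simp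
  have e0 := e 0
  have m0 := m 0 le_rfl
  rw [ax_zero, add_zero, add_zero] at e0
  rw [add_zero] at m0
  rw [r.shift hS h4 ((e h).symm ▸ τ_hs (m h h0) (by linarith)),
    r.shift hS h4 (e0.symm ▸ τ_hs m0 (by linarith)), ← inner_sub_right, e, e0, ← map_sub, ← map_sub]
  refine (norm_inner_le_norm _ _).trans (mul_le_mul_of_nonneg_left ?_ (norm_nonneg _))
  exact (r.le k (Submodule.sub_mem _ (m h h0) m0)).trans_eq (by rw [map_sub]; rfl)

theorem top (hS : N.St S) (hX : X ∈ N.loc univ) (hY : Y ∈ N.loc univ)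
    (hv : Tendsto (fun i => v i μ) l atTop) (h : ℝ) :
    Tendsto (fun i => S (X * N.τ (v i + ax μ h) Y) - S (X * N.τ (v i) Y)) l (𝓝 0) := by
  rcases le_total 0 h with h0 | h0
  · exact top0 hS hX hY hv h0
  · have := (top0 (v := fun i => v i + ax μ h) (μ := μ) (l := l) hS hX hY (by
      simpa using tendsto_atTop_add_const_right _ h hv) (neg_nonneg.2 h0)).neg
    simpa only [add_assoc, ax_add, add_neg_cancel, ax_zero, add_zero, neg_sub, neg_zero] using this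

theorem swap (hS : N.St S) (hX : X ∈ N.loc univ) (hY : Y ∈ N.loc univ)
    (hv : Tendsto (fun i => v i μ) l atBot) :
    ∀ᶠ i in l, S (X * N.τ (v i) Y) = S (Y * N.τ (-v i) X) := by
  obtain ⟨R, h1, h2⟩ := ((box hX).and (box hY)).exists
  rw [univ_inter] at h1 h2
  refine (hv.eventually_le_atBot (-(2 * R))).mono fun i hi => ?_
  rw [← hS.ti (-v i) (adm (N.mul h1 (N.τ_mem (v i) h2) (disjoint_left.2 fun y e e' => ?_))), map_mul,
    N.τ_τ, neg_add_cancel, N.τ_zero, mul_comm]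
  have := (abs_lt.1 (e' μ)).2
  rw [PiLp.sub_apply] at this
  linarith [(abs_lt.1 (e μ)).1]

theorem bot (hS : N.St S) (hX : X ∈ N.loc univ) (hY : Y ∈ N.loc univ)
    (hv : Tendsto (fun i => v i μ) l atBot) (h : ℝ) :
    Tendsto (fun i => S (X * N.τ (v i + ax μ h) Y) - S (X * N.τ (v i) Y)) l (𝓝 0) := by
  refine (top (v := fun i => -v i) (μ := μ) hS hY hX (tendsto_neg_atBot_atTop.comp hv)
    (-h)).congr' ?_
  filter_upwards [swap hS hX hY hv, swap (v := fun i => v i + ax μ h) (μ := μ) hS hX hY (by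
    simpa using tendsto_atBot_add_const_right _ h hv)] with i h1 h2
  rw [h1, h2, neg_add, neg_eq_of_add_eq_zero_right ((ax_add μ h (-h)).trans (by simp))]

/-- bounded shifts do not matter far away in a generic direction -/
theorem all (hS : N.St S) (hX : X ∈ N.loc univ) (hY : Y ∈ N.loc univ) {a : R4} (ha : ∀ μ, a μ ≠ 0)
    (w : R4) : Tendsto (fun t : ℝ => S (X * N.τ (t • a + w) Y) - S (X * N.τ (t • a) Y)) atTop
      (𝓝 0) := by
  have k : ∀ (μ : Fin 4) (h : ℝ) (w : R4), Tendsto (fun t : ℝ => S (X * N.τ (t • a + (w + ax μ h)) Y) -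
      S (X * N.τ (t • a + w) Y)) atTop (𝓝 0) := fun μ h w => by
    simp only [← add_assoc]
    rcases (ha μ).lt_or_gt with h0 | h0
    · exact bot hS hX hY (by
        simpa using tendsto_atBot_add_const_right _ (w μ) (tendsto_id.atTop_mul_const_of_neg h0)) h
    · exact top hS hX hY (by
        simpa using tendsto_atTop_add_const_right _ (w μ) (tendsto_id.atTop_mul_const h0)) h
  have e : w = 0 + ax 0 (w 0) + ax 1 (w 1) + ax 2 (w 2) + ax 3 (w 3) := by
    ext ν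
    fin_cases ν <;> simp
  have := (((k 3 (w 3) (0 + ax 0 (w 0) + ax 1 (w 1) + ax 2 (w 2))).add
    (k 2 (w 2) (0 + ax 0 (w 0) + ax 1 (w 1)))).add (k 1 (w 1) (0 + ax 0 (w 0)))).add (k 0 (w 0) 0)
  simpa only [sub_add_sub_cancel, ← e, add_zero] using this

end DC

open DC in
theorem cluster (hS : N.St S) (hu : ∀ (H : Fin 4 → Type)
      [∀ ν, NormedAddCommGroup (H ν)] [∀ ν, InnerProductSpace ℂ (H ν)] [∀ ν, CompleteSpace (H ν)]
      (r : ∀ ν, N.Rep S ν (H ν)) (x : H 0), (∀ v : R4, 0 ≤ v 0 → (r 0).T v x = x) →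
        x = inner ℂ ((r 0).Ψ 1) x • (r 0).Ψ 1) {a : R4} (a0 : 0 < a 0) (ha : ∀ μ, a μ ≠ 0)
    {Y Z : P} (hY : Y ∈ N.loc (Hs 0 0)) (hZ : Z ∈ N.loc (Hs 0 0)) :
    Tendsto (fun t : ℝ => S (N.Θ 0 Y * N.τ (t • a) Z)) atTop (𝓝 (S (N.Θ 0 Y) * S Z)) := by
  choose H i1 i2 i3 hr using hS.exists_rep
  let r := fun ν => Classical.choice (hr ν)
  refine (tendsto_iff_ultrafilter _ _ _).2 fun U hU => ?_
  have t0 : ∀ᶠ t : ℝ in U, 0 ≤ (t • a) 0 := hU ((eventually_ge_atTop 0).mono fun t ht => by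
    simpa using mul_nonneg ht a0.le)
  obtain ⟨L, -, hL⟩ := (WeakDual.isCompact_closedBall (𝕜 := ℂ) (E := H 0) 0
    ‖(r 0).Ψ Z‖).ultrafilter_le_nhds (U.map fun t => StrongDual.toWeakDual
      (InnerProductSpace.toDual ℂ (H 0) ((r 0).Ψ (N.τ (t • a) Z)))) (by
        rw [le_principal_iff]
        exact t0.mono fun t ht => by simpa using (r 0).le ht hZ)
  set x := (InnerProductSpace.toDual ℂ (H 0)).symm (WeakDual.toStrongDual L)
  have h1 : ∀ y, Tendsto (fun t : ℝ => inner ℂ y ((r 0).Ψ (N.τ (t • a) Z))) U (𝓝 (inner ℂ y x)) :=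
    fun y => by
      have := (Complex.continuous_conj.tendsto _).comp
        (((WeakDual.eval_continuous y).tendsto L).comp hL)
      rw [← inner_conj_symm, InnerProductSpace.toDual_symm_apply]
      exact this.congr fun t => inner_conj_symm _ _
  have h2 : ∀ {Y}, Y ∈ N.loc (Hs 0 0) → Tendsto (fun t : ℝ => S (N.Θ 0 Y * N.τ (t • a) Z)) U
      (𝓝 (inner ℂ ((r 0).Ψ Y) x)) := fun hY => (h1 _).congr' (t0.mono fun t ht =>
    (r 0).inn hY (τ_hs hZ (by linarith)))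
  have h3 := hu H r x fun v hv => (r 0).dense.eq_of_inner_right ℂ fun ⟨Y, hY⟩ => by
    have hw : 0 ≤ (-rf 0 v) 0 := by simpa using hv
    have e := (r 0).adj hS hw ((r 0).Ψ Y) x
    rw [rf_neg, rf_rf, neg_neg] at e
    have h4 := ((all hS (Θ_adm 0 hY) (adm hZ) ha v).mono_left hU).add (h2 hY)
    rw [zero_add] at h4
    refine e.symm.trans (tendsto_nhds_unique (h1 _) (h4.congr' (t0.mono fun t ht => ?_)))
    have m := τ_hs (t' := 0) (v := t • a) hZ (by linarith)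
    simp only [sub_add_cancel]
    rw [(r 0).adj hS hw, rf_neg, rf_rf, neg_neg, (r 0).act hv m, N.τ_τ, add_comm v,
      (r 0).inn hY (τ_hs hZ (by rw [PiLp.add_apply]; linarith))]
  have h5 : inner ℂ ((r 0).Ψ 1) x = S Z := tendsto_nhds_unique (h2 (N.one _)) (by
    simp only [map_one, one_mul, hS.ti _ (adm hZ)]
    exact tendsto_const_nhds)
  have h6 := h2 hY
  rwa [h3, inner_smul_right, h5, (r 0).inn hY (N.one _), mul_one, mul_comm (S Z)] at h6

end Pool.Agent.Lib.MP_7f377f_mp.Lg
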