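import Pool.Agent.Lib.MP_7f377f_mp.LgG2
import Pool.Agent.Lib.MP_7f377f_mp.LgX

/-! Density of tensor products in Schwartz space. -/

noncomputable section

namespace Pool.Agent.Lib.MP_7f377f_mp.Lg

open MeasureTheory Filter Topology Set Real YM7 Pur
open scoped NNReal ContDiff Nat FourierTransform

variable {n m : ℕ}

namespace LgD

variable {E : Type} [NormedAddCommGroup E] [NormedSpace ℝ E] {r : ℝ} {g : E → ℝ}

theorem cl_abs (h : Cl m r g) : Cl m |r| g :=
  ⟨h.1, h.2.1, fun l hl x => (h.2.2 l hl x).trans (by rw [← abs_pow]; exact le_abs_self _)⟩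

theorem cl_sub (h : Cl m r g) : Cl m r fun x => 1 - g x := by
  refine ⟨contDiff_const.sub h.1, fun x => by constructor <;> linarith [h.2.1 x], fun l hl x => ?_⟩
  rcases l with _ | l
  · rw [norm_iteratedFDeriv_zero, pow_zero, Real.norm_eq_abs, abs_le]
    constructor <;> linarith [h.2.1 x]
  · have a := iteratedFDeriv_sub_apply (𝕜 := ℝ) (i := l + 1) (x := x) (f := fun _ : E => (1 : ℝ)) (g := g)
      contDiffAt_const (h.1.of_le (by exact_mod_cast le_top)).contDiffAt
    rw [iteratedFDeriv_succ_const, Pi.zero_apply, zero_sub] at a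
    rw [show (fun x => 1 - g x) = (fun _ : E => (1 : ℝ)) - g from rfl, a, norm_neg]
    exact h.2.2 _ hl x

theorem wt_le {F : E → ℂ} (hF : ContDiff ℝ ∞ F) {S : Set E} (hS : Function.support F ⊆ S) {k l : ℕ}
    {M : ℝ} (M0 : 0 ≤ M) (h : ∀ x ∈ S, ‖x‖ ^ k * ‖iteratedFDeriv ℝ l F x‖ ≤ M) (x : E) :
    ‖x‖ ^ k * ‖iteratedFDeriv ℝ l F x‖ ≤ M := by
  by_cases hx : x ∈ closure S
  · exact closure_minimal h (isClosed_le ((continuous_norm.pow k).mul
      (hF.continuous_iteratedFDeriv (by exact_mod_cast le_top)).norm) continuous_const) hx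
  · have : iteratedFDeriv ℝ l F x = 0 := by
      by_contra c
      exact hx (closure_mono hS (support_iteratedFDeriv_subset l c))
    simpa [this] using M0

theorem sm (F : SchwartzMap E ℂ) : ContDiff ℝ ∞ F := F.smooth'

end LgD

open LgD

theorem cut_tendsto {E : Type} [NormedAddCommGroup E] [NormedSpace ℝ E] (F : SchwartzMap E ℂ)
    {A : Set E} (hA : ∀ x ∈ A, ∀ l, iteratedFDeriv ℝ l F x = 0) {g : ℕ → E → ℝ}
    (h1 : ∀ m, ∃ c, ∀ e, Cl m (c * 2 ^ e) (g e))
    (h2 : ∀ e x, g e x ≠ 1 → (∃ y ∈ A, ‖x - y‖ ≤ 8 / 2 ^ e) ∨ 2 ^ e ≤ ‖x‖) :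
    Tendsto (fun e => mul (g e) F) atTop (𝓝 F) := by
  refine ((schwartz_withSeminorms ℂ E ℂ).tendsto_nhds _ _).2 fun ⟨k, l⟩ ε e0 => ?_
  obtain ⟨c, hc⟩ := h1 l
  obtain ⟨C, C0, hC⟩ : ∃ C : ℝ, 0 ≤ C ∧ ∀ j ≤ 2 * l + 1, ∀ z,
      (1 + ‖z‖) ^ (k + (l + 1)) * ‖iteratedFDeriv ℝ j F z‖ ≤ C :=
    ⟨_, by positivity, fun j hj z => SchwartzMap.one_add_le_sup_seminorm_apply (𝕜 := ℂ)
      (m := (k + (l + 1), 2 * l + 1)) le_rfl hj F z⟩
  have t : Tendsto (fun e : ℕ => (1 + |c|) ^ l * (8 ^ (l + 1) * 9 ^ k * C) / 2 ^ e) atTop (𝓝 0) :=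
    tendsto_const_nhds.div_atTop (tendsto_pow_atTop_atTop_of_one_lt one_lt_two)
  filter_upwards [t.eventually (gt_mem_nhds e0)] with e he
  refine lt_of_le_of_lt ?_ he
  have p1 : (1 : ℝ) ≤ 2 ^ e := one_le_pow₀ one_le_two
  have hg : Cl l (|c| * 2 ^ e) fun x => 1 - g e x := by
    simpa [abs_mul] using cl_sub (cl_abs (hc e))
  have q : ⇑(F - mul (g e) F) = fun y => ((1 - g e y : ℝ) : ℂ) * F y := by
    ext y
    rw [sub_apply, mul_apply fun m => (h1 m).elim fun c h => ⟨_, h e⟩]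
    push_cast
    ring
  rw [map_sub_rev]
  refine SchwartzMap.seminorm_le_bound ℂ k l _ (by positivity) (wt_le (sm _)
    (S := {x | g e x ≠ 1}) (fun x hx => by
      by_contra c
      exact hx (by rw [q]; simp [not_not.1 c])) (by positivity) fun x hx => ?_)
  have hB : ∀ a ≤ l, ‖iteratedFDeriv ℝ a F x‖ ≤
      8 ^ (l + 1) * 9 ^ k * C / (2 ^ e) ^ (l + 1) / (1 + ‖x‖) ^ k := fun a ha => by
    rcases h2 e x hx with ⟨y, hy, d⟩ | d
    · refine (taylor_le (sm F) (hA y hy) a (l + 1) (B := 9 ^ k * C / (1 + ‖x‖) ^ k)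
        fun z hz => ?_).trans ?_
      · have u : ‖x - z‖ ≤ ‖x - y‖ := by
          have := dist_add_dist_of_mem_segment hz
          rw [← dist_eq_norm, ← dist_eq_norm]
          linarith [dist_nonneg (x := z) (y := y)]
        have v : 1 + ‖x‖ ≤ 9 * (1 + ‖z‖) := by
          have := div_le_self (show (0 : ℝ) ≤ 8 by norm_num) p1
          linarith [norm_le_norm_add_norm_sub' x z, norm_nonneg z]
        rw [le_div_iff₀' (by positivity)]
        calc _ ≤ (9 * (1 + ‖z‖)) ^ k * ‖iteratedFDeriv ℝ (a + (l + 1)) F z‖ := by gcongr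
          _ ≤ 9 ^ k * ((1 + ‖z‖) ^ (k + (l + 1)) * ‖iteratedFDeriv ℝ (a + (l + 1)) F z‖) := by
            rw [mul_pow, mul_assoc]
            gcongr
            · linarith [norm_nonneg z]
            · omega
          _ ≤ _ := by gcongr; exact hC _ (by omega) z
      · calc _ ≤ (8 / 2 ^ e) ^ (l + 1) * (9 ^ k * C / (1 + ‖x‖) ^ k) := by gcongr
          _ = _ := by rw [div_pow]; ring
    · rw [le_div_iff₀' (by positivity), le_div_iff₀' (by positivity), ← mul_assoc, mul_comm _ (_ ^ k)]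
      calc _ ≤ (1 + ‖x‖) ^ k * (1 + ‖x‖) ^ (l + 1) * ‖iteratedFDeriv ℝ a F x‖ := by
            gcongr; linarith
        _ ≤ C := by rw [← pow_add]; exact hC _ (by omega) x
        _ ≤ _ := le_mul_of_one_le_left C0 (one_le_mul_of_one_le_of_one_le
          (one_le_pow₀ (by norm_num)) (one_le_pow₀ (by norm_num)))
  have a := hg.mul_le (by positivity) (sm F) le_rfl hB
  rw [q]
  calc _ ≤ (1 + ‖x‖) ^ k * (((1 + |c|) * 2 ^ e) ^ l *
        (8 ^ (l + 1) * 9 ^ k * C / (2 ^ e) ^ (l + 1) / (1 + ‖x‖) ^ k)) := by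
        refine mul_le_mul (by gcongr; linarith) (a.trans ?_) (norm_nonneg _) (by positivity)
        gcongr
        linarith
    _ = _ := by
        rw [mul_pow, pow_succ ((2 : ℝ) ^ e)]
        field_simp

namespace LgD

theorem cl_cn (m n : ℕ) : ∃ c : ℝ, 0 ≤ c ∧ ∀ e, ∀ g : (Fin n → R4) → ℝ,
    (g = sepr e ∨ g = shel e ∨ g = far e ∨ g = late e ∨ ∃ z, g = chn e z) → Cl m (c * 2 ^ e) g := by
  obtain ⟨c, c1, h⟩ := cl_cut
  exact ⟨c * (n + 1) ^ 2 * (m + 1) ^ 3, by positivity, fun e => (h m e).2 n⟩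

theorem cl_far (n m : ℕ) : ∃ c : ℝ, ∀ e, Cl m (c * 2 ^ e) (far e : (Fin n → R4) → ℝ) :=
  (cl_cn m n).imp fun _ h e => h.2 e _ (by simp)

theorem cl_chn (e : ℕ) (z : Fin n → Fin 4 → ℤ) (m : ℕ) : ∃ r, Cl m r (chn e z) :=
  (cl_cn m n).elim fun _ h => ⟨_, h.2 e _ (by simp)⟩

theorem prod_cs {g : Fin n → R4 → ℂ} (h : ∀ i, HasCompactSupport (g i)) :
    HasCompactSupport fun x : Fin n → R4 => ∏ i, g i (x i) :=
  HasCompactSupport.intro (isCompact_univ_pi h) fun x hx => by
    by_contra c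
    exact hx fun i _ => subset_tsupport _ (Finset.prod_ne_zero_iff.1 c i (Finset.mem_univ _))

theorem exists_ten {f : Fin n → R4 → ℝ} (h : ∀ i, HasCompactSupport (f i) ∧ ContDiff ℝ ∞ (f i)) :
    ∃ F, Ten f F :=
  ⟨(prod_cs (g := fun i y => (f i y : ℂ)) fun i => (h i).1.comp_left (g := Complex.ofReal) rfl).toSchwartzMap
    (contDiff_prod fun i _ => Complex.ofRealCLM.contDiff.comp ((h i).2.comp (contDiff_apply ℝ _ i))),
    h, fun _ => rfl⟩

theorem mem_span {g : Fin n → R4 → ℂ} (h : ∀ i, HasCompactSupport (g i) ∧ ContDiff ℝ ∞ (g i))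
    {G : Sw n} (hG : ∀ x, G x = ∏ i, g i (x i)) :
    G ∈ Submodule.span ℂ {F : Sw n | ∃ f, Ten f F} := by
  have a (b : Fin n → Bool) := exists_ten (f := fun i y => if b i then (g i y).re else (g i y).im)
    fun i => by
      cases b i
      · exact ⟨(h i).1.comp_left (g := Complex.im) rfl, Complex.imCLM.contDiff.comp (h i).2⟩
      · exact ⟨(h i).1.comp_left (g := Complex.re) rfl, Complex.reCLM.contDiff.comp (h i).2⟩
  choose T hT using a
  have e : G = ∑ b : Fin n → Bool, (∏ i, if b i then 1 else Complex.I) • T b := by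
    ext x
    have := Finset.prod_univ_sum (fun _ : Fin n => (Finset.univ : Finset Bool)) fun i b =>
      (if b then 1 else Complex.I) * ((if b then (g i (x i)).re else (g i (x i)).im : ℝ) : ℂ)
    rw [Fintype.piFinset_univ] at this
    simp only [sum_apply, smul_apply, (hT _).2, smul_eq_mul, ← Finset.prod_mul_distrib, ← this, hG]
    exact Finset.prod_congr rfl fun i _ => by simp [mul_comm Complex.I]
  rw [e]
  exact Submodule.sum_mem _ fun b _ => Submodule.smul_mem _ _ (Submodule.subset_span ⟨_, hT b⟩)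

theorem far_norm {e : ℕ} {x : Fin n → R4} (h : far e x ≠ 0) : ‖x‖ ≤ 4 * 2 ^ e := by
  refine (pi_norm_le_iff_of_nonneg (by positivity)).2 fun i => ?_
  rw [EuclideanSpace.norm_eq, sqrt_le_left (by positivity)]
  calc _ ≤ ∑ _ : Fin 4, ((2 : ℝ) * 2 ^ e) ^ 2 := Finset.sum_le_sum fun μ _ => by
        gcongr; exact far_supp h i μ
    _ = _ := by simp; ring

theorem far_cs (e : ℕ) : HasCompactSupport (far e : (Fin n → R4) → ℝ) :=
  HasCompactSupport.intro (isCompact_closedBall 0 (4 * 2 ^ e)) fun x hx => by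
    by_contra c
    exact hx (mem_closedBall_zero_iff.2 (far_norm c))

theorem far_zero (u : Sw n →L[ℂ] ℂ) (hu : ∀ G ∈ Submodule.span ℂ {F : Sw n | ∃ f, Ten f F}, u G = 0)
    (e : ℕ) (F : Sw n) : u (mul (far e) F) = 0 := by
  classical
  let V := PiLp 2 fun _ : Fin n => R4
  let L : (Fin n → R4) ≃L[ℝ] V := (PiLp.continuousLinearEquiv 2 ℝ _).symm
  have s0 : ContDiff ℝ ∞ fun x : Fin n → R4 => (far e x : ℂ) :=
    (cl_far n 0).elim fun c h => Complex.ofRealCLM.contDiff.comp (h e).1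
  let T : ∀ g : V → ℂ, ContDiff ℝ ∞ g → Sw n := fun g h =>
    HasCompactSupport.toSchwartzMap (f := fun x => far e x * g (L x))
      ((far_cs e).comp_left (g := Complex.ofReal) rfl).mul_right (s0.mul (h.comp L.contDiff))
  have hT : ∀ g h x, T g h x = far e x * g (L x) := fun _ _ _ => rfl
  obtain ⟨s, C, -, hC⟩ := Seminorm.bound_of_continuous (schwartz_withSeminorms ℂ (Fin n → R4) ℂ)
    ((normSeminorm ℂ ℂ).comp u.toLinearMap) u.continuous.norm
  obtain ⟨m, hm⟩ := s.bddAbove
  obtain ⟨c, hc⟩ := cl_far n m.2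
  let R : ℝ := 1 + 4 * 2 ^ e
  have R1 : 1 ≤ R := le_add_of_nonneg_right (by positivity)
  have := exch (m := m.2) ((isCompact_closedBall 0 R).image L.continuous)
    (A := C * (R ^ m.1 * ((1 + |c * 2 ^ e|) ^ m.2 * (1 + ‖L.toContinuousLinearMap‖) ^ m.2)))
    (fun g => if h : ContDiff ℝ ∞ g then u (T g h) else 0) (fun g g' c h h' => by
      have h'' : ContDiff ℝ ∞ (g + c • g') := h.add (h'.const_smul c)
      rw [dif_pos h, dif_pos h', dif_pos h'', ← smul_eq_mul, ← map_smul, ← map_add]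
      congr 1
      ext x
      simp only [hT, add_apply, smul_apply, Pi.add_apply, Pi.smul_apply, smul_eq_mul]
      ring) (fun g M h M0 hM => by
      rw [dif_pos h, mul_assoc]
      refine (hC (T g h)).trans ?_
      rw [smul_apply, NNReal.smul_def, smul_eq_mul]
      refine mul_le_mul_of_nonneg_left (Seminorm.finset_sup_apply_le (by positivity)
        fun i hi => ?_) C.2
      refine SchwartzMap.seminorm_le_bound ℂ _ _ _ (by positivity) (wt_le (sm _)
        (S := Metric.closedBall 0 R) (fun x hx => mem_closedBall_zero_iff.2 ((far_norm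
          fun c => hx (by simp [hT, c])).trans (le_add_of_nonneg_left zero_le_one))) (by positivity)
        fun x hx => ?_)
      have b := (cl_abs (hc e)).mul_le (abs_nonneg _) (h.comp L.contDiff) (hm hi).2 (x := x)
        (B := (1 + ‖L.toContinuousLinearMap‖) ^ m.2 * M) fun a ha => by
          refine (congrArg _ (L.toContinuousLinearMap.iteratedFDeriv_comp_right h x
            (by exact_mod_cast le_top))).trans_le
            ((ContinuousMultilinearMap.norm_compContinuousLinearMap_le _ _).trans ?_)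
          rw [mul_comm, Finset.prod_const, Finset.card_fin]
          exact mul_le_mul ((pow_le_pow_left₀ (norm_nonneg _) (by linarith) _).trans
            (pow_le_pow_right₀ (by linarith [norm_nonneg L.toContinuousLinearMap])
              (ha.trans (hm hi).2))) (hM a (ha.trans (hm hi).2) _ ⟨x, hx, rfl⟩) (norm_nonneg _)
            (by positivity)
      rw [mul_assoc, mul_assoc]
      exact mul_le_mul ((pow_le_pow_left₀ (norm_nonneg _) (mem_closedBall_zero_iff.1 hx) _).trans
        (pow_le_pow_right₀ R1 (hm hi).1)) (b.trans (mul_le_mul_of_nonneg_right (pow_le_pow_right₀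
          (le_add_of_nonneg_right (abs_nonneg _)) (hm hi).2) (by positivity))) (norm_nonneg _)
        (by positivity))
    (SchwartzMap.compCLMOfContinuousLinearEquiv ℂ L.symm F)
  rw [dif_pos (sm _)] at this
  have z (p : V) : (if h : ContDiff ℝ ∞ (wave p) then u (T _ h) else 0) = 0 := by
    rw [dif_pos (wave_smooth p)]
    refine hu _ (mem_span (g := fun i y => far e (fun _ : Fin 1 => y) * wave (p i) y)
      (fun i => ⟨?_, ?_⟩) fun x => ?_)
    · refine HasCompactSupport.intro (isCompact_closedBall 0 (4 * 2 ^ e)) fun y hy => ?_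
      by_contra c
      refine hy (mem_closedBall_zero_iff.2 ((norm_le_pi_norm (fun _ : Fin 1 => y) 0).trans
        (far_norm fun d => c ?_)))
      simp [d]
    · exact (cl_far 1 0).elim fun c h => (Complex.ofRealCLM.contDiff.comp
        ((h e).1.comp (contDiff_pi.2 fun _ => contDiff_id))).mul (wave_smooth _)
    · rw [hT _ (wave_smooth p), Finset.prod_mul_distrib]
      congr 1
      · simp [far]
      · have i : inner ℝ p (L x) = ∑ i, inner ℝ (p i) (x i) := PiLp.inner_apply _ _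
        simp only [wave, i, Real.fourierChar_apply, Finset.mul_sum, Finset.sum_mul,
          Complex.ofReal_sum, Complex.exp_sum]
  simp only [z, mul_zero, integral_zero] at this
  rw [← this]
  congr 1
  ext x
  rw [hT _ (sm _), mul_apply fun m => (cl_far n m).elim fun c h => ⟨_, h e⟩]
  simp

end LgD

theorem dense_ten (n : ℕ) :
    Dense (Submodule.span ℂ {F : Sw n | ∃ f, Ten f F} : Set (Sw n)) := fun F => by
  by_contra hF
  set P := Submodule.span ℂ {F : Sw n | ∃ f, Ten f F}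
  obtain ⟨u, c, h1, h2⟩ := RCLike.geometric_hahn_banach_closed_point (𝕜 := ℂ)
    (P.restrictScalars ℝ).convex.closure isClosed_closure hF
  have h0 (G) (hG : G ∈ P) : u G = 0 := by
    by_contra d
    have := h1 _ (subset_closure (P.smul_mem (c / u G) hG))
    rw [map_smul, smul_eq_mul, div_mul_cancel₀ _ d] at this
    simp at this
  have t := (u.continuous.tendsto F).comp (cut_tendsto F (A := ∅) (by simp) (cl_far n)
    fun e x hx => .inr (le_of_not_ge fun d => hx (far_one d)))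
  have z : u F = 0 := tendsto_nhds_unique t (tendsto_const_nhds.congr fun e => (far_zero u h0 e F).symm)
  have := h1 0 (subset_closure P.zero_mem)
  simp only [map_zero, z] at this h2
  linarith

namespace LgD

theorem chn_mem {O : Set R4} {e : ℕ} {z : Fin n → Fin 4 → ℤ} (h : Good z)
    (hO : ∀ i, tsupport (chi e (z i)) ⊆ O) (G : Sw n) :
    mul (chn e z) G ∈ closure (Vs O n : Set (Sw n)) := by
  refine map_mem_closure (mul (chn e z)).continuous (dense_ten n G) fun G hG => ?_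
  refine Submodule.span_le (p := (Vs O n).comap (mul (chn e z)).toLinearMap) |>.2 ?_ hG
  rintro G ⟨f, hf⟩
  obtain ⟨c, -, hc⟩ := cl_cut
  have a (i) : HasCompactSupport (fun y => chi e (z i) y * f i y) ∧
      ContDiff ℝ ∞ fun y => chi e (z i) y * f i y :=
    ⟨(hf.1 i).1.mul_left, ((hc 0 e).1 (z i)).1.1.mul (hf.1 i).2⟩
  have b (i) : tsupport (fun y => chi e (z i) y * f i y) ⊆ tsupport (chi e (z i)) :=
    tsupport_mul_subset_left
  refine Submodule.subset_span ⟨_, ⟨a, fun x => ?_⟩, ⟨fun i => ⟨(a i).1, (a i).2.of_le (by simp)⟩,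
    fun i j d => ((h.adm (e := e)).2.2 d).mono (b i) (b j)⟩, fun i => (b i).trans (hO i)⟩
  change mul (chn e z) G x = _
  rw [mul_apply (cl_chn e z), hf.2]
  simp [chn, Finset.prod_mul_distrib]

theorem mem_of {O : Set R4} (F : Sw n) {A : Set (Fin n → R4)}
    (hA : ∀ x ∈ A, ∀ l, iteratedFDeriv ℝ l F x = 0) {g : ℕ → (Fin n → R4) → ℝ}
    (h1 : ∀ m, ∃ c, 0 ≤ c ∧ ∀ e, Cl m (c * 2 ^ e) (g e))
    (h2 : ∀ e x, g e x ≠ 1 → ∃ y ∈ A, ‖x - y‖ ≤ 8 / 2 ^ e)
    (h3 : ∀ e x z, g e x ≠ 0 → chn e z x ≠ 0 → Good z ∧ ∀ i, tsupport (chi e (z i)) ⊆ O) :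
    F ∈ closure (Vs O n : Set (Sw n)) := by
  have h4 (m) : ∃ c, ∀ e, Cl m (c * 2 ^ e) fun x => g e x * far e x := by
    obtain ⟨c, c0, hc⟩ := h1 m
    obtain ⟨d, d0, hd⟩ := cl_cn m n
    exact ⟨c + d, fun e => by
      rw [add_mul]
      exact (hc e).mul (hd e _ (by simp)) (by positivity) (by positivity)⟩
  refine isClosed_closure.mem_of_tendsto (cut_tendsto F hA h4 fun e x hx => ?_)
    (.of_forall fun e => ?_)
  · by_cases d : g e x = 1
    · exact .inr (le_of_not_ge fun c => hx (by simp [d, far_one c]))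
    · exact .inl (h2 e x d)
  have h5 := mul_apply (fun m => (h4 m).elim fun c h => ⟨_, h e⟩) F
  set G := mul (fun x => g e x * far e x) F
  have q : G = ∑ z ∈ lab n (16 * 4 ^ e), mul (chn e z) G := by
    ext x
    simp only [sum_apply, mul_apply (cl_chn e _), ← Finset.sum_mul]
    by_cases d : far e x = 0
    · simp [h5, d]
    · rw [← Complex.ofReal_sum, sum_chn fun i μ => ?_]
      · simp
      · rw [abs_mul, abs_of_pos (by positivity)]
        calc _ ≤ 8 * 2 ^ e * (2 * 2 ^ e : ℝ) := by gcongr; exact far_supp d i μ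
          _ = _ := by push_cast; rw [show (4 : ℝ) = 2 * 2 by norm_num, mul_pow]; ring
  rw [q]
  refine (Vs O n).topologicalClosure.sum_mem fun z _ => ?_
  by_cases d : ∃ x, g e x ≠ 0 ∧ chn e z x ≠ 0
  · obtain ⟨x, a, b⟩ := d
    exact chn_mem (h3 e x z a b).1 (h3 e x z a b).2 G
  · have : mul (chn e z) G = 0 := by
      ext x
      rw [mul_apply (cl_chn e _), h5]
      by_cases a : g e x = 0
      · simp [a]
      · simp [not_not.1 fun b => d ⟨x, a, b⟩]
    rw [this]
    exact zero_mem _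

end LgD

theorem Off.mem {F : Sw n} (h : Off F) : F ∈ closure (Vs univ n : Set (Sw n)) :=
  mem_of F (A := {x | ¬x.Injective}) h (g := sepr)
    (fun m => (cl_cn m n).imp fun _ h => ⟨h.1, fun e => h.2 e _ (by simp)⟩)
    (fun _ _ => sepr_near) fun _ _ _ a b => ⟨good_of a b, fun _ => subset_univ _⟩

theorem Fw.mem {F : Sw n} (h : Fw F) : F ∈ closure (Vs (Hs 0 0) n : Set (Sw n)) := by
  refine mem_of F (A := {x | ¬(x.Injective ∧ ∀ i, 0 < x i 0)}) h
    (g := fun e x => sepr e x * late e x) (fun m => ?_) (fun e x hx => ?_) fun e x z a b =>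
      ⟨good_of (left_ne_zero_of_mul a) b, late_pos (right_ne_zero_of_mul a) b⟩
  · obtain ⟨c, c0, hc⟩ := cl_cn m n
    exact ⟨c + c, by positivity, fun e => by
      rw [add_mul]
      exact (hc e _ (by simp)).mul (hc e _ (by simp)) (by positivity) (by positivity)⟩
  · by_cases d : sepr e x = 1
    · obtain ⟨y, ⟨i, a⟩, b⟩ := late_near (e := e) (x := x) fun c => hx (by simp [c, d])
      exact ⟨y, fun c => (c.2 i).not_ge a, b⟩
    · obtain ⟨y, a, b⟩ := sepr_near d
      exact ⟨y, fun c => a c.1, b⟩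

end Pool.Agent.Lib.MP_7f377f_mp.Lg
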