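import Pool.Agent.Lib.MP_7f377f_mp.LgD

/-! The Osterwalder-Schrader axioms for the extended distributions, by density. -/

noncomputable section

namespace Pool.Agent.Lib.MP_7f377f_mp.Lg

open Filter Topology Set YM7 Pur MvPolynomial ComplexConjugate
open scoped NNReal ContDiff Nat ComplexOrder

variable {n m : ℕ} {W : Pol →ₗ[ℂ] ℂ}

namespace LgOS

variable {O O' : Set R4} {F F' : Sw n} {E E' : Sw m} {Y Z : Pol}

theorem adj_apply (F : Sw n) (x : Fin n → R4) : adj F x = conj (F fun i => rf 0 (x i.rev)) := rfl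

theorem mv_apply (v : R4) (F : Sw n) (x : Fin n → R4) : mv v F x = F fun i => x i - v := rfl

theorem tens_apply (F : Sw n) (E : Sw m) (x : Fin (n + m) → R4) :
    tens F E x = F (fun i => x (i.castAdd m)) * E fun j => x (j.natAdd n) := rfl

theorem adj_cont : Continuous (adj : Sw n → Sw n) :=
  (ContinuousLinearMap.continuous _).comp (ContinuousLinearMap.continuous _)

theorem mv_cont (v : R4) : Continuous (mv v : Sw n → Sw n) := ContinuousLinearMap.continuous _

theorem nrm_cont (s : ℕ) : Continuous (nrm s : Sw n → ℝ) :=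
  Seminorm.continuous_finsetSup fun i _ =>
    (schwartz_withSeminorms ℂ (Fin n → R4) ℂ).continuous_seminorm i

theorem tens_sub (F F' : Sw n) (E E' : Sw m) :
    tens F E - tens F' E' = tens (F - F') E + tens F' (E - E') := by
  ext x
  simp only [sub_apply, add_apply, tens_apply]
  ring

theorem tens_cont : Continuous fun p : Sw n × Sw m => tens p.1 p.2 := by
  refine continuous_iff_continuousAt.2 fun p =>
    ((schwartz_withSeminorms ℂ _ _).tendsto_nhds _ _).2 fun i ε e0 => ?_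
  have a : ∀ (F : Sw n) (E : Sw m), schwartzSeminormFamily ℂ _ _ i (tens F E) ≤
      2 ^ max i.1 i.2 * (nrm (max i.1 i.2) F * nrm (max i.1 i.2) E) := fun F E =>
    SchwartzMap.seminorm_le_bound ℂ _ _ _ (mul_nonneg (by positivity)
      (mul_nonneg (nrm_nonneg _ _) (nrm_nonneg _ _))) (tens_le (le_max_left _ _) (le_max_right _ _) F E)
  set s := max i.1 i.2
  have c1 := nrm_cont (n := n) s
  have c2 := nrm_cont (n := m) s
  have c : Continuous fun q : Sw n × Sw m => 2 ^ s * (nrm s (q.1 - p.1) * nrm s q.2) +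
      2 ^ s * (nrm s p.1 * nrm s (q.2 - p.2)) := by fun_prop
  filter_upwards [(c.tendsto p).eventually (gt_mem_nhds (a := ε) (by simpa [nrm] using e0))] with q hq
  rw [tens_sub]
  exact ((map_add_le_add _ _ _).trans (add_le_add (a _ _) (a _ _))).trans_lt hq

/-- pairs of a test function and a polynomial which are the same combination of products -/
def Lp (O : Set R4) (n : ℕ) : Submodule ℂ (Sw n × Pol) := Submodule.span ℂ
  {p | ∃ f, Ten f p.1 ∧ Adm f ∧ (∀ i, tsupport (f i) ⊆ O) ∧ mon f = p.2}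

theorem lift (h : F ∈ Vs O n) : ∃ Z, (F, Z) ∈ Lp O n := by
  induction h using Submodule.span_induction with
  | mem F h => exact let ⟨f, a, b, c⟩ := h; ⟨_, Submodule.subset_span ⟨f, a, b, c, rfl⟩⟩
  | zero => exact ⟨0, Submodule.zero_mem _⟩
  | add _ _ _ _ a b => exact let ⟨_, a⟩ := a; let ⟨_, b⟩ := b; ⟨_, Submodule.add_mem _ a b⟩
  | smul c _ _ a => exact let ⟨_, a⟩ := a; ⟨_, Submodule.smul_mem _ c a⟩

theorem Lp.loc {p : Sw n × Pol} (h : p ∈ Lp O n) : p.2 ∈ net.loc O := by
  induction h using Submodule.span_induction with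
  | mem F h => exact let ⟨_, _, b, c, d⟩ := h; d ▸ mon_mem b c
  | zero => exact Submodule.zero_mem _
  | add _ _ _ _ a b => exact Submodule.add_mem _ a b
  | smul c _ _ a => exact Submodule.smul_mem _ c a

theorem Lp.val {S : Sw n →L[ℂ] ℂ} (hT : ∀ f F, Ten f F → Adm f → S F = W (mon f))
    {p : Sw n × Pol} (h : p ∈ Lp O n) : S p.1 = W p.2 := by
  induction h using Submodule.span_induction with
  | mem F h => exact let ⟨_, a, b, _, d⟩ := h; d ▸ hT _ _ a b
  | zero => simp
  | add _ _ _ _ a b => simp [a, b]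
  | smul c _ _ a => simp [a]

theorem ten_comp {f : Fin n → R4 → ℝ} (h : Ten f F) (θ : R4 ≃ₜ R4) (hθ : ContDiff ℝ ∞ θ)
    (σ : Equiv.Perm (Fin n)) (e : ∀ x, F' x = F fun i => θ (x (σ i))) :
    Ten (fun i y => f (σ.symm i) (θ y)) F' :=
  ⟨fun _ => ⟨(h.1 _).1.comp_homeomorph θ, (h.1 _).2.comp hθ⟩, fun x => by
    rw [e, h.2, ← Equiv.prod_comp σ fun i => (f (σ.symm i) (θ (x i)) : ℂ)]
    simp only [Equiv.symm_apply_apply]⟩

theorem mon_perm (f : Fin n → R4 → ℝ) (σ : Equiv.Perm (Fin n)) : mon (fun i => f (σ i)) = mon f :=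
  Equiv.prod_comp σ fun i => X (f i)

theorem Lp.adj {p : Sw n × Pol} (h : p ∈ Lp O n) :
    (adj p.1, net.Θ 0 p.2) ∈ Lp {y | rf 0 y ∈ O} n := by
  induction h using Submodule.span_induction with
  | mem p h =>
    obtain ⟨f, a, b, c, d⟩ := h
    have e := ten_comp (F' := YM7.adj p.1) a (rfL 0).toHomeomorph (rfL 0).contDiff Fin.revPerm
      fun x => by
        rw [adj_apply, LinearIsometryEquiv.coe_toHomeomorph, rfL_eq, a.2, a.2, map_prod]
        simp
    rw [LinearIsometryEquiv.coe_toHomeomorph, rfL_eq] at e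
    refine Submodule.subset_span ⟨_, e, adm_rf (b.reindex _) 0,
      fun i _ hy => c _ (tsupport_comp (rfL_eq 0 ▸ (rfL 0).continuous) hy), ?_⟩
    rw [← d, Θ_mon]
    exact mon_perm (fun i y => f i (rf 0 y)) _
  | zero =>
    have : YM7.adj (0 : Sw n) = 0 := by ext x; simp [adj_apply]
    simp only [Prod.fst_zero, Prod.snd_zero, this, map_zero]
    exact Submodule.zero_mem _
  | add p q _ _ a b =>
    have : YM7.adj (p.1 + q.1) = YM7.adj p.1 + YM7.adj q.1 := by ext x; simp [adj_apply]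
    simp only [Prod.fst_add, Prod.snd_add, this, map_add]
    exact Submodule.add_mem _ a b
  | smul c p _ a =>
    have : YM7.adj (c • p.1) = conj c • YM7.adj p.1 := by ext x; simp [adj_apply]
    simp only [Prod.smul_fst, Prod.smul_snd, this, net.Θ_smul]
    exact Submodule.smul_mem _ _ a

theorem Lp.mv (v : R4) {p : Sw n × Pol} (h : p ∈ Lp O n) :
    (mv v p.1, net.τ v p.2) ∈ Lp {y | y - v ∈ O} n := by
  induction h using Submodule.span_induction with
  | mem p h =>
    obtain ⟨f, a, b, c, d⟩ := h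
    exact Submodule.subset_span ⟨_, ten_comp (F' := YM7.mv v p.1) a (Homeomorph.subRight v)
      (contDiff_id.sub contDiff_const) 1 fun x => rfl, adm_sub b v,
      fun i _ hy => c _ (tsupport_comp (θ := fun y => y - v) (by fun_prop) hy), by
        rw [← d, τ_mon]; rfl⟩
  | zero =>
    simp only [Prod.fst_zero, Prod.snd_zero, YM7.mv, map_zero]
    exact Submodule.zero_mem _
  | add p q _ _ a b =>
    simp only [Prod.fst_add, Prod.snd_add, YM7.mv, map_add]
    exact Submodule.add_mem _ a b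
  | smul c p _ a =>
    simp only [Prod.smul_fst, Prod.smul_snd, YM7.mv, map_smul]
    exact Submodule.smul_mem _ _ a

theorem Lp.tens {p : Sw n × Pol} {q : Sw m × Pol} (h : p ∈ Lp O n) (h' : q ∈ Lp O' m)
    (hO : Disjoint O O') : (tens p.1 q.1, p.2 * q.2) ∈ Lp univ (n + m) := by
  induction h, h' using Submodule.span_induction₂ with
  | mem_mem p q h h' =>
    obtain ⟨f, a, b, c, d⟩ := h
    obtain ⟨g, a', b', c', d'⟩ := h'
    refine Submodule.subset_span ⟨Fin.append f g, ⟨YM5.forall_append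
      (P := fun u => HasCompactSupport u ∧ ContDiff ℝ ∞ u) a.1 a'.1, fun x => ?_⟩,
      b.append b' fun i j => hO.mono (c i) (c' j), fun _ => subset_univ _, by
        rw [mon_append, d, d']⟩
    simp only [tens_apply, a.2, a'.2, Fin.prod_univ_add, Fin.append_left, Fin.append_right]
  | zero_left q _ =>
    have : YM7.tens (0 : Sw n) q.1 = 0 := by ext x; simp [tens_apply]
    simp only [Prod.fst_zero, Prod.snd_zero, this, zero_mul]
    exact Submodule.zero_mem _
  | zero_right p _ =>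
    have : YM7.tens p.1 (0 : Sw m) = 0 := by ext x; simp [tens_apply]
    simp only [Prod.fst_zero, Prod.snd_zero, this, mul_zero]
    exact Submodule.zero_mem _
  | add_left p p' q _ _ _ a b =>
    have : YM7.tens (p.1 + p'.1) q.1 = YM7.tens p.1 q.1 + YM7.tens p'.1 q.1 := by
      ext x; simp [tens_apply, add_mul]
    simp only [Prod.fst_add, Prod.snd_add, this, add_mul]
    exact Submodule.add_mem _ a b
  | add_right p q q' _ _ _ a b =>
    have : YM7.tens p.1 (q.1 + q'.1) = YM7.tens p.1 q.1 + YM7.tens p.1 q'.1 := by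
      ext x; simp [tens_apply, mul_add]
    simp only [Prod.fst_add, Prod.snd_add, this, mul_add]
    exact Submodule.add_mem _ a b
  | smul_left c p q _ _ a =>
    have : YM7.tens (c • p.1) q.1 = c • YM7.tens p.1 q.1 := by ext x; simp [tens_apply, mul_assoc]
    simp only [Prod.smul_fst, Prod.smul_snd, this, smul_mul_assoc]
    exact Submodule.smul_mem _ c a
  | smul_right c p q _ _ a =>
    have : YM7.tens p.1 (c • q.1) = c • YM7.tens p.1 q.1 := by
      ext x; simp [tens_apply, mul_left_comm]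
    simp only [Prod.smul_fst, Prod.smul_snd, this, mul_smul_comm]
    exact Submodule.smul_mem _ c a

theorem eq_of {A B : Sw n →L[ℂ] ℂ} (h : ∀ f F, Ten f F → Adm f → A F = B F)
    (hF : F ∈ closure (Vs O n : Set (Sw n))) : A F = B F := by
  refine closure_minimal (t := {F | A F = B F}) (fun F hF => ?_)
    (isClosed_eq A.continuous B.continuous) hF
  induction hF using Submodule.span_induction with
  | mem F hF => exact let ⟨f, a, b, _⟩ := hF; h f F a b
  | zero => simp
  | add _ _ _ _ a b => simp_all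
  | smul c _ _ a => simp_all

theorem three {X : Type} [TopologicalSpace X] {s : Set X} {x : X} (hx : x ∈ closure s)
    {u : ℝ → X → ℂ} {l : X → ℂ} {d : X → ℝ} (hl : Continuous l) (hd : Continuous d) (d0 : d x = 0)
    (h1 : ∀ y ∈ s, ∀ᶠ t in atTop, ‖u t x - u t y‖ ≤ d y)
    (h2 : ∀ y ∈ s, Tendsto (fun t => u t y) atTop (𝓝 (l y))) :
    Tendsto (fun t => u t x) atTop (𝓝 (l x)) := by
  refine Metric.tendsto_nhds.2 fun ε e0 => ?_
  have e3 : 0 < ε / 3 := by linarith
  obtain ⟨y, ⟨a, b⟩, hy⟩ := mem_closure_iff_nhds.1 hx _ (((hd.tendsto x).eventually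
    (gt_mem_nhds (d0.trans_lt e3))).and (Metric.tendsto_nhds.1 (hl.tendsto x) _ e3))
  filter_upwards [h1 y hy, Metric.tendsto_nhds.1 (h2 y hy) _ e3] with t c e
  rw [← dist_eq_norm] at c
  linarith [dist_triangle4 (u t x) (u t y) (l y) (l x)]

variable {S : ∀ n, Sw n →L[ℂ] ℂ} (hT : ∀ n f F, Ten f F → Adm f → S n F = W (mon f))

theorem c2 {X : Type} [TopologicalSpace X] (T : Sw (n + m) →L[ℂ] ℂ) {a : X → Sw n} {b : X → Sw m}
    (ha : Continuous a) (hb : Continuous b) : Continuous fun x => T (tens (adj (a x)) (b x)) :=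
  T.continuous.comp (tens_cont.comp ((adj_cont.comp ha).prodMk hb))

include hT

theorem val2 {v : R4} (hv : 0 ≤ v 0) (h : (F, Y) ∈ Lp (Hs 0 0) n) (h' : (E, Z) ∈ Lp (Hs 0 0) m) :
    S _ (tens (adj F) (mv v E)) = W (net.Θ 0 Y * net.τ v Z) :=
  Lp.val (hT _) (Lp.tens (Lp.adj h) (Lp.mv v h') (disjoint_left.2 fun y e e' => by
    simp only [Hs, mem_ofPred_eq, rf_self, PiLp.sub_apply] at e e'
    linarith))

theorem val1 (h : (F, Y) ∈ Lp (Hs 0 0) n) (h' : (E, Z) ∈ Lp (Hs 0 0) m) :
    S _ (tens (adj F) E) = W (net.Θ 0 Y * Z) := by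
  have := val2 hT (v := 0) le_rfl h h'
  rwa [net.τ_zero, show mv 0 E = E by ext x; simp [mv_apply]] at this

theorem schwarz0 (hS : net.St W) {v : R4} (hv : 0 ≤ v 0) (h : F ∈ Vs (Hs 0 0) n)
    (h' : E ∈ Vs (Hs 0 0) m) :
    ‖S _ (tens (adj F) (mv v E))‖ ≤ √‖S _ (tens (adj F) F)‖ * √‖S _ (tens (adj E) E)‖ := by
  obtain ⟨H, _, _, _, ⟨r⟩⟩ := hS.exists_rep 0
  obtain ⟨Y, hY⟩ := lift h
  obtain ⟨Z, hZ⟩ := lift h'
  have a : Y ∈ net.loc (Hs 0 0) := Lp.loc hY
  have b : Z ∈ net.loc (Hs 0 0) := Lp.loc hZ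
  rw [val2 hT hv hY hZ, val1 hT hY hY, val1 hT hZ hZ, ← r.inn a a, ← r.inn b b,
    ← r.inn a (Net.τ_hs b (by linarith)), inner_self_eq_norm_sq_to_K, inner_self_eq_norm_sq_to_K]
  simp only [norm_pow, RCLike.norm_ofReal, abs_norm, norm_nonneg, Real.sqrt_sq]
  exact (norm_inner_le_norm _ _).trans (mul_le_mul_of_nonneg_left (r.le hv b) (norm_nonneg _))

theorem schwarz (hS : net.St W) {v : R4} (hv : 0 ≤ v 0)
    (h : F ∈ closure (Vs (Hs 0 0) n : Set (Sw n))) (h' : E ∈ closure (Vs (Hs 0 0) m : Set (Sw m))) :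
    ‖S _ (tens (adj F) (mv v E))‖ ≤ √‖S _ (tens (adj F) F)‖ * √‖S _ (tens (adj E) E)‖ := by
  have a1 : Continuous fun p : Sw n × Sw m => S _ (tens (adj p.1) (mv v p.2)) :=
    c2 (b := fun p : Sw n × Sw m => mv v p.2) _ continuous_fst ((mv_cont v).comp continuous_snd)
  have a2 : Continuous fun p : Sw n × Sw m => S _ (tens (adj p.1) p.1) :=
    c2 _ continuous_fst continuous_fst
  have a3 : Continuous fun p : Sw n × Sw m => S _ (tens (adj p.2) p.2) :=
    c2 _ continuous_snd continuous_snd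
  have a4 := mk_mem_prod h h'
  rw [← closure_prod_eq] at a4
  have a5 : Continuous fun p : Sw n × Sw m =>
      √‖S _ (tens (adj p.1) p.1)‖ * √‖S _ (tens (adj p.2) p.2)‖ := a2.norm.sqrt.mul a3.norm.sqrt
  have := le_on_closure (fun p hp => schwarz0 hT hS hv hp.1 hp.2) a1.norm.continuousOn
    a5.continuousOn a4
  exact this

end LgOS

open LgOS

theorem osax_of (hS : net.St W) {S : ∀ n, Sw n →L[ℂ] ℂ}
    (hb : ∃ (α : ℝ) (β s : ℕ), ∀ n F, ‖S n F‖ ≤ α * n ! ^ β * nrm (n * s) F)
    (hT : ∀ n f F, Ten f F → Adm f → S n F = W (mon f)) {G : Set (R4 → R4)}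
    (hG : ∀ g ∈ G, (∃ e : R4 ≃ᵃⁱ[ℝ] R4, ⇑e = g) ∧ ∀ k (f : Fin k → R4 → ℝ), Adm f →
      (∀ i, ContDiff ℝ ∞ (f i)) → W (mon fun i y => f i (g y)) = W (mon f)) {D : Set R4}
    (hD : ∀ a ∈ D, 0 ≤ a 0 ∧ ∀ Y ∈ net.loc (Hs 0 0), ∀ Z ∈ net.loc (Hs 0 0), Tendsto
      (fun t : ℝ => W (net.Θ 0 Y * net.τ (t • a) Z)) atTop (𝓝 (W (net.Θ 0 Y) * W Z))) :
    OSax G D S := by
  refine ⟨fun F => ?_, hb, fun n F F' hF => ⟨fun g hg e => ?_, fun σ e => ?_⟩, fun N F hF => ?_,
    fun n m F E hF hE a ha => ?_⟩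
  · by_cases h : F 0 = 0
    · rw [h, show F = 0 by ext x; rw [Subsingleton.elim x 0, h]; rfl, map_zero]
    · have := hT 0 ![] ((F 0)⁻¹ • F) ⟨fun i => i.elim0, fun x => by
        rw [Subsingleton.elim x 0, Fin.prod_univ_zero]; exact inv_mul_cancel₀ h⟩ ⟨fun i => i.elim0, fun i => i.elim0⟩
      rw [mon, Fin.prod_univ_zero, hS.one, map_smul, smul_eq_mul, inv_mul_eq_one₀ h] at this
      exact this.symm
  · obtain ⟨⟨u, rfl⟩, hu⟩ := hG g hg
    let L : (Fin n → R4) ≃L[ℝ] Fin n → R4 :=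
      .piCongrRight fun _ => u.linearIsometryEquiv.toContinuousLinearEquiv
    let C : Sw n →L[ℂ] Sw n := (SchwartzMap.compCLMOfContinuousLinearEquiv ℂ L).comp
      (SchwartzMap.compSubConstCLM ℂ fun _ => -u 0)
    have hC : ∀ (F : Sw n) x, C F x = F fun i => u (x i) := fun F x => congrArg F (funext fun i => by
      have := u.map_vadd 0 (x i)
      simp only [vadd_eq_add, add_zero] at this
      rw [this, ← sub_neg_eq_add]
      rfl)
    have d : ContDiff ℝ ∞ u := u.toContinuousAffineEquiv.toContinuousAffineMap.contDiff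
    rw [show F' = C F by ext x; rw [e, hC]; rfl]
    refine eq_of (A := (S n).comp C) (fun f F a b => ?_) (Off.mem hF)
    rw [hT _ _ _ a b, ← hu _ f b fun i => (a.1 i).2]
    exact hT _ _ _ (ten_comp a u.toHomeomorph d 1 (hC F)) (b.comp u.toHomeomorph (d.of_le (by simp)))
  · let C : Sw n →L[ℂ] Sw n := SchwartzMap.compCLMOfContinuousLinearEquiv ℂ
      (LinearEquiv.funCongrLeft ℝ R4 σ).toContinuousLinearEquiv
    rw [show F' = C F by ext x; rw [e]; rfl]
    refine eq_of (A := (S n).comp C) (fun f F a b => ?_) (Off.mem hF)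
    rw [hT _ _ _ a b, ← mon_perm f σ.symm]
    exact hT _ _ _ (ten_comp a (Homeomorph.refl _) contDiff_id σ fun _ => rfl) (b.reindex _)
  · obtain ⟨H, _, _, _, ⟨r⟩⟩ := hS.exists_rep 0
    refine closure_minimal (t := {F : ∀ n, Sw n | 0 ≤ ∑ n ∈ Finset.range N, ∑ m ∈ Finset.range N,
      S _ (tens (adj (F n)) (F m))}) (s := univ.pi fun n => (Vs (Hs 0 0) n : Set (Sw n))) ?_
      (isClosed_le continuous_const (continuous_finsetSum _ fun n _ => continuous_finsetSum _
        fun m _ => c2 _ (continuous_apply n) (continuous_apply m)))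
      (by rw [closure_pi_set]; exact fun n _ => Fw.mem (hF n))
    intro F hF
    choose Z hZ using fun n => lift (hF n trivial)
    have a : ∑ n ∈ Finset.range N, Z n ∈ net.loc (Hs 0 0) :=
      Submodule.sum_mem _ fun n _ => Lp.loc (hZ n)
    simp only [mem_ofPred_eq, fun n m => val1 hT (hZ n) (hZ m), ← map_sum, ← Finset.mul_sum,
      ← Finset.sum_mul]
    rw [← r.inn a a, inner_self_eq_norm_sq_to_K]
    exact pow_nonneg (RCLike.ofReal_nonneg.2 (norm_nonneg _)) 2
  · obtain ⟨a0, h⟩ := hD a ha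
    have hF' := Fw.mem hF
    have hE' := Fw.mem hE
    have q1 : Continuous fun p : Sw n × Sw m => F - p.1 := continuous_const.sub continuous_fst
    have q2 : Continuous fun p : Sw n × Sw m => E - p.2 := continuous_const.sub continuous_snd
    have a4 := mk_mem_prod hF' hE'
    rw [← closure_prod_eq] at a4
    have a1 : Continuous fun p : Sw n × Sw m => S _ (tens (adj (F - p.1)) (F - p.1)) := c2 _ q1 q1
    have a2 : Continuous fun p : Sw n × Sw m => S _ (tens (adj p.1) p.1) :=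
      c2 _ continuous_fst continuous_fst
    have a3 : Continuous fun p : Sw n × Sw m => S _ (tens (adj (E - p.2)) (E - p.2)) := c2 _ q2 q2
    have a5 : Continuous fun p : Sw n × Sw m => S n (adj p.1) :=
      (S n).continuous.comp (adj_cont.comp continuous_fst)
    have a6 : Continuous fun p : Sw n × Sw m => S m p.2 := (S m).continuous.comp continuous_snd
    refine three a4
      (u := fun t p => S _ (tens (adj p.1) (mv (t • a) p.2))) (l := fun p => S n (adj p.1) * S m p.2)
      (d := fun p => √‖S _ (tens (adj (F - p.1)) (F - p.1))‖ * √‖S _ (tens (adj E) E)‖ +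
        √‖S _ (tens (adj p.1) p.1)‖ * √‖S _ (tens (adj (E - p.2)) (E - p.2))‖)
      (a5.mul a6) ((a1.norm.sqrt.mul continuous_const).add (a2.norm.sqrt.mul a3.norm.sqrt)) ?_ ?_ ?_
    · have : ∀ {k} (F : Sw k), tens F (0 : Sw k) = 0 := fun F => by ext x; simp [tens_apply]
      simp [this]
    · rintro ⟨F', E'⟩ ⟨h1, h2⟩
      filter_upwards [eventually_ge_atTop 0] with t t0
      have hv : 0 ≤ (t • a) 0 := mul_nonneg t0 a0
      rw [← map_sub, tens_sub, map_add, show adj F - adj F' = adj (F - F') by ext x; simp [adj_apply],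
        show mv (t • a) E - mv (t • a) E' = mv (t • a) (E - E') by ext x; simp [mv_apply]]
      exact (norm_add_le _ _).trans (add_le_add
        (schwarz hT hS hv ((Vs _ n).topologicalClosure.sub_mem hF' (subset_closure h1)) hE')
        (schwarz hT hS hv (subset_closure h1)
          ((Vs _ m).topologicalClosure.sub_mem hE' (subset_closure h2))))
    · rintro ⟨F', E'⟩ ⟨h1, h2⟩
      obtain ⟨Y, hY⟩ := lift h1
      obtain ⟨Z, hZ⟩ := lift h2
      have := h Y (Lp.loc hY) Z (Lp.loc hZ)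
      rw [← Lp.val (hT _) (Lp.adj hY), ← Lp.val (hT _) hZ] at this
      refine this.congr' ((eventually_ge_atTop 0).mono fun t t0 => ?_)
      exact (val2 hT (mul_nonneg t0 a0) hY hZ).symm

end Pool.Agent.Lib.MP_7f377f_mp.Lg
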