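import Pool.Agent.Lib.MP_7f377f_mp.PurK

/-! Continuity of the operator bounds in the test functions, and separability. -/

noncomputable section

namespace Pool.Agent.Lib.MP_7f377f_mp.Pur

open MeasureTheory Filter Topology Set Real YM7 MvPolynomial
open scoped NNReal

variable {S : ∀ {k : ℕ}, (Fin k → R4 → ℝ) → ℝ} {S' : Pol →ₗ[ℂ] ℂ} (hS : net.St S')
  (h : ∀ {k} {f : Fin k → R4 → ℝ}, Adm f → S' (mon f) = S f) (hL : LinP S') (hA : ArrS S)
include hS h hL hA

theorem qb_diff (k : ℕ) (R : ℝ) {δ : ℝ} (δ0 : 0 < δ) (L : ℝ≥0) : ∃ C R' : ℝ,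
    ∀ (f g : Fin k → R4 → ℝ) (O : Fin k → Set R4) (ε : ℝ≥0), ε ≤ 1 →
      (∀ i, PN.Gd (O i) (f i) ∧ PN.Gd (O i) (g i) ∧ LipschitzWith L (g i) ∧
        LipschitzWith ε (f i - g i)) → (∀ i, ∀ y ∈ O i, ‖y‖ ≤ R) →
      (∀ i j, i ≠ j → ∀ x ∈ O i, ∀ y ∈ O j, δ ≤ dist x y) →
      net.QB S' (mon f - mon g) R' (C * ε) := by
  obtain ⟨C, R', H⟩ := qb_mon hS h hL hA k R δ0
  refine ⟨∑ _z : Fin k → Bool, |C| * (L + 1) ^ k, max (|R| + 1) R', fun f g O ε ε1 h1 h2 h3 => ?_⟩
  have R2 : 0 ≤ max (|R| + 1) R' := le_max_of_le_left (by positivity)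
  have o1 : Pairwise fun i j => Disjoint (O i) (O j) := fun i j hij => disjoint_left.2
    fun y hy hy' => (h3 i j hij y hy y hy').not_gt ((dist_self y).trans_lt δ0)
  have o2 : ∀ i, O i ⊆ Bx (max (|R| + 1) R') := fun i y hy l =>
    ((PiLp.norm_apply_le y l).trans ((h2 i y hy).trans (le_abs_self R))).trans_lt
      ((lt_add_one _).trans_le (le_max_left _ _))
  have o3 : ∀ {u : Fin k → R4 → ℝ}, (∀ i, PN.Gd (O i) (u i)) → Adm u := fun hu =>
    ⟨fun i => ⟨(hu i).1, (hu i).2.1⟩, fun i j hij => (o1 hij).mono (hu i).2.2 (hu j).2.2⟩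
  obtain ⟨G, hG⟩ : ∃ G : Fin k → Bool → R4 → ℝ, ∀ i z, G i z = bif z then f i - g i else g i :=
    ⟨_, fun _ _ => rfl⟩
  have g1 : ∀ i z, PN.Gd (O i) (G i z) := fun i z => by
    cases z
    · exact hG i _ ▸ (h1 i).2.1
    · simpa only [hG, cond_true, neg_smul, one_smul, sub_eq_add_neg] using
        (h1 i).1.comb (h1 i).2.1 (-1)
  have q1 : net.QB S' (∑ z ∈ Finset.univ.erase fun _ => false, mon fun i => G i (z i)) _
      (∑ _z ∈ Finset.univ.erase fun _ : Fin k => false, |C| * (L + 1) ^ k * ε) :=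
    Net.QB.sum hS _ R2 fun z hz => by
      obtain ⟨j, hj⟩ := Function.ne_iff.1 (Finset.ne_of_mem_erase hz)
      refine (H _ (fun i => bif z i then ε else L) (o3 fun i => g1 i _) (fun i => ⟨?_, fun y hy =>
        h2 i y ((g1 i _).2.2 (subset_tsupport _ hy))⟩) fun i j hij x y hx hy =>
          h3 i j hij x ((g1 i _).2.2 (subset_tsupport _ hx)) y
            ((g1 j _).2.2 (subset_tsupport _ hy))).mono hS (le_max_right _ _) ?_
      · rw [hG]
        cases z i
        · exact (h1 i).2.2.1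
        · exact (h1 i).2.2.2
      · have : ∏ i, (bif z i then ε else L) ≤ ∏ i, (L + 1) * if i = j then ε else 1 :=
          Finset.prod_le_prod' fun i _ => by
            split_ifs with e
            · rw [e, eq_true_of_ne_false hj]
              exact le_mul_of_one_le_left' le_add_self
            · rw [mul_one]
              cases z i
              · exact le_self_add
              · exact ε1.trans le_add_self
        rw [Finset.prod_mul_distrib, Finset.prod_ite_eq', if_pos (Finset.mem_univ j),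
          Fin.prod_const] at this
        rw [mul_assoc]
        exact mul_le_mul (le_abs_self C) (by exact_mod_cast this) (by positivity) (abs_nonneg C)
  have q2 := (Net.qb_null (Submodule.sub_mem _ (Submodule.sub_mem _
    (mon_mem (o3 fun i => (h1 i).1) fun i => (h1 i).1.2.2.trans (o2 i))
    (mon_mem (o3 fun i => (h1 i).2.1) fun i => (h1 i).2.1.2.2.trans (o2 i))) q1.1) R2 hS
    fun Z hZ => ?_).add hS q1
  · rw [sub_add_cancel, zero_add] at q2
    refine q2.mono hS le_rfl ?_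
    rw [Finset.sum_mul]
    exact Finset.sum_le_sum_of_subset_of_nonneg (Finset.subset_univ _) fun _ _ _ => by positivity
  · have := hL.sum o1 g1 (fun _ _ => 1) Z (net.mono hZ (compl_subset_compl.2 (iUnion_subset o2)))
    rw [← Finset.add_sum_erase _ _ (Finset.mem_univ fun _ => false)] at this
    simp only [hG, one_smul, Fintype.sum_bool, cond_true, cond_false, sub_add_cancel,
      Finset.prod_const_one, Complex.ofReal_one, one_mul] at this
    simp only [hG, sub_mul, map_sub, this, Finset.sum_mul, map_sum, add_sub_cancel_left, sub_self]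

theorem qb_near {k : ℕ} {f : Fin k → R4 → ℝ} (hf : Adm f) {ε : ℝ} (e0 : 0 < ε) :
    ∃ (R : ℝ) (η : ℝ≥0), 0 < η ∧ ∀ g : Fin k → R4 → ℝ, (∀ i, HasCompactSupport (g i) ∧
      ContDiff ℝ 1 (g i) ∧ LipschitzWith η (g i - f i) ∧
        ∀ y ∈ tsupport (g i), ∃ x ∈ tsupport (f i), dist x y ≤ η) →
      net.QB S' (mon g - mon f) R ε := by
  obtain ⟨D, q, e1, e2, e3⟩ := hf.data
  obtain ⟨C, R, H⟩ := qb_diff hS h hL hA k (D + 1) (δ := 1 / (q + 1 : ℝ) / 3) (by positivity) D
  obtain ⟨η, η0, η1, η2, η3⟩ : ∃ η : ℝ, 0 < η ∧ η ≤ 1 ∧ η ≤ 1 / (q + 1 : ℝ) / 3 ∧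
      η ≤ ε / (|C| + 1) := ⟨min 1 (min _ _), by positivity, min_le_left _ _,
    (min_le_right _ _).trans (min_le_left _ _), (min_le_right _ _).trans (min_le_right _ _)⟩
  refine ⟨R, ⟨η, η0.le⟩, η0, fun g hg => (H g f
    (fun i => {y | ∃ x ∈ tsupport (f i), dist x y ≤ η}) ⟨η, η0.le⟩ η1 (fun i =>
      ⟨⟨(hg i).1, (hg i).2.1, (hg i).2.2.2⟩, ⟨(hf.1 i).1, (hf.1 i).2, fun y hy =>
        ⟨y, hy, (dist_self y).trans_le η0.le⟩⟩, (e2 i).1, (hg i).2.2.1⟩) ?_ ?_).mono hS le_rfl ?_⟩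
  · rintro i y ⟨x, q1, q2⟩
    rw [dist_comm, dist_eq_norm] at q2
    linarith [e1 i x q1, norm_sub_norm_le y x]
  · rintro i j hij x ⟨x', q1, q2⟩ y ⟨y', q3, q4⟩
    linarith [e3 i j hij x' q1 y' q3, dist_triangle4_right x' y' x y]
  · rw [le_div_iff₀ (by positivity)] at η3
    change C * η ≤ ε
    nlinarith [le_abs_self C]

theorem qb_shift {k : ℕ} {f : Fin k → R4 → ℝ} (hf : Adm f) {ε : ℝ} (e0 : 0 < ε) :
    ∃ R, ∀ᶠ u : Fin k → R4 in 𝓝 0, net.QB S' (mon (fun i y => f i (y - u i)) - mon f) R ε := by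
  obtain ⟨R, η, η0, H⟩ := qb_near hS h hL hA hf e0
  refine ⟨R, ?_⟩
  filter_upwards [eventually_all.2 fun i => ((continuous_apply i).tendsto' 0 0 rfl).eventually
    (lip_shift (hf.1 i).1 (hf.1 i).2 η0), Metric.closedBall_mem_nhds 0 (NNReal.coe_pos.2 η0)]
    with u hu hu'
  refine H _ fun i => ⟨(hf.1 i).1.comp_homeomorph (Homeomorph.subRight (u i)),
    (hf.1 i).2.comp (contDiff_id.sub contDiff_const), hu i, fun y hy =>
      ⟨_, tsupport_comp (θ := fun y => y - u i) (by fun_prop) hy, ?_⟩⟩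
  rw [dist_eq_norm, sub_sub_cancel_left, norm_neg]
  exact (norm_le_pi_norm u i).trans (mem_closedBall_zero_iff.1 hu')

theorem qb_sep : ∃ D : Set Pol, D.Countable ∧ D ⊆ net.loc univ ∧ ∀ k (f : Fin k → R4 → ℝ),
    Adm f → ∀ ε > 0, ∃ Y ∈ D, ∃ R, net.QB S' (mon f - Y) R ε := by
  have hD : ∀ I, ∃ D : Set (Cls I), D.Countable ∧
      ∀ x, ∀ r > 0, ∃ y ∈ D, dist (jet I x) (jet I y) < r := fun I => by
    let _ := PseudoMetricSpace.induced (jet I) inferInstance
    have : SecondCountableTopology (Cls I) := TopologicalSpace.secondCountableTopology_induced _ _ _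
    obtain ⟨D, h, h'⟩ := TopologicalSpace.exists_countable_dense (Cls I)
    exact ⟨D, h, fun x r hr => Metric.mem_closure_iff.1 (h' x) r hr⟩
  choose E E1 E2 using hD
  refine ⟨insert 0 (⋃ I, (fun g : Cls I => mon g.1) '' E I),
    (countable_iUnion fun I => (E1 I).image _).insert _, insert_subset (Submodule.zero_mem _)
      (iUnion_subset fun I => image_subset_iff.2 fun g _ => mon_mem g.2.1 fun _ => subset_univ _),
    fun k f hf ε e0 => ?_⟩
  obtain ⟨D, q, f3, f4, f5⟩ := hf.data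
  by_cases f2 : ∀ i, (tsupport (f i)).Nonempty
  · obtain ⟨R, η, η0, H⟩ := qb_near hS h hL hA hf e0
    obtain ⟨g, hg, hρ⟩ := E2 (k, D, q) ⟨f, hf, f2, f3, f4, f5⟩ η η0
    refine ⟨_, mem_insert_of_mem _ (mem_iUnion.2 ⟨_, g, hg, rfl⟩), R, ?_⟩
    have hj := fun i y => ((ContinuousMap.dist_apply_le_dist y).trans
      (dist_le_pi_dist (jet (k, D, q) _) (jet _ g) i)).trans_lt hρ
    obtain ⟨g, g1, g2, g3, g4, g5⟩ := g
    simp only [jet, ContinuousMap.coe_mk, Prod.dist_eq, max_lt_iff, Subtype.forall,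
      mem_closedBall_zero_iff] at hj
    have := (H g fun i => ⟨(g1.1 i).1, (g1.1 i).2, ?_, fun y hy => ?_⟩).smul (-1)
    · rwa [neg_smul, one_smul, neg_sub, norm_neg, norm_one, one_mul] at this
    · have d1 := (hf.1 i).2.differentiable one_ne_zero
      have d2 := (g1.1 i).2.differentiable one_ne_zero
      refine lipschitzWith_of_nnnorm_fderiv_le (d2.sub d1) fun y => ?_
      rw [fderiv_sub (d2 y) (d1 y), ← NNReal.coe_le_coe, coe_nnnorm, ← dist_eq_norm, dist_comm]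
      by_cases hy : ‖y‖ ≤ D
      · exact (hj i y hy).2.2.le
      · rw [fderiv_of_notMem_tsupport _ fun e => hy (f3 i y e),
          fderiv_of_notMem_tsupport _ fun e => hy (g3 i y e), dist_self]
        exact η.coe_nonneg
    · have h6 := (hj i _ (g3 i _ hy)).2.1
      rw [Metric.infDist_zero_of_mem hy, dist_zero_right] at h6
      obtain ⟨x, hx, h7⟩ := (Metric.infDist_lt_iff (f2 i)).1 ((le_abs_self _).trans_lt h6)
      exact ⟨x, hx, (dist_comm _ _).trans_le h7.le⟩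
  · obtain ⟨i, hi⟩ := not_forall.1 f2
    refine ⟨0, mem_insert _ _, D + 1, ?_⟩
    rw [sub_zero]
    exact (qb_zero hS hL hf (by positivity) (fun j y hy l => ((PiLp.norm_apply_le y l).trans
      (f3 j y hy)).trans_lt (lt_add_one _)) (i := i) (tsupport_eq_empty_iff.1
        (not_nonempty_iff_eq_empty.1 hi))).mono hS le_rfl e0.le

end Pool.Agent.Lib.MP_7f377f_mp.Pur
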