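import Pool.Agent.Lib.MP_7f377f_mp.PurI
import Pool.Agent.Lib.MP_7f377f_mp.LgQM
import Pool.Agent.Lib.MP_7f377f_mp.LgDC
import Pool.Agent.Lib.MP_7f377f_mp.LgEX2
import Pool.Agent.Lib.MP_7f377f_mp.LgOS
import Pool.Agent.Lib.MP_7f377f_mp.LgNG

/-! The quantum theory with a unique vacuum and its Schwinger distributions, from the abstract
input. -/

noncomputable section

namespace Pool.Agent.Lib.MP_7f377f_mp.Lg

open MeasureTheory Filter Topology Set Real YM7 Pur MvPolynomial ComplexConjugate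
open scoped NNReal ContDiff

variable {S W : Pol →ₗ[ℂ] ℂ}

theorem Inp.all (h : Inp S) : ∀ Z ∈ net.loc univ, ∃ R c, net.QB S Z R c := qe_all h.st h.lin h.grow

theorem Inp.af (h : Inp W) (k : ℕ) (f : Fin k → R4 → ℝ) (hf : Adm f) :
    Tendsto (fun d : ℝ => (log d⁻¹ : ℂ) ^ k * W (mon fun i y => f i (d⁻¹ • y))) (𝓝[>] 0)
      (𝓝 ((6 / 11) ^ k * ∫ y : Fin k → R4, (∏ i, f i (y i)) * free y : ℝ)) :=
  Metric.tendsto_nhds.2 fun η η0 => (h.short k f hf _ (half_pos η0)).mono fun d hR => by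
    simpa [h.st.one, dist_eq_norm, kap] using (hR.bound h.st).trans_lt (half_lt_self η0)

theorem Inp.pure (h : Inp S) : ∃ W : Pol →ₗ[ℂ] ℂ, W 1 = 1 ∧ net.Dom S W ∧ Vac W :=
  Net.pure h.st h.all

/-- the dominated functional is a limit of far insertions -/
theorem Inp.ins (h : Inp S) (w1 : W 1 = 1) (hD : net.Dom S W) :
    ∃ (r : ℕ → ℕ) (B : ∀ j, Fin (r j) → Fp), (∀ (j : ℕ) i, B j i ∈ Loc (Fut 0 j)) ∧
      ∀ Z ∈ Loc univ, Tendsto (fun j => S (ins (B j) Z)) atTop (𝓝 (W Z)) ∧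
        ∀ᶠ j in atTop, ins (B j) Z ∈ Loc univ := by
  obtain ⟨D, d1, d2, d3⟩ := qe_sep h.st h.lin h.grow
  obtain ⟨r, B, b1, b2⟩ := hD.seq h.st w1 d1 d2
  refine ⟨r, B, fun j i => net.mono (b1 j i) (Ot.hs 0 le_rfl), fun Z hZ => ⟨?_, ?_⟩⟩
  · obtain ⟨m, c, k, f, f1, -, rfl⟩ := PN.exists_sum hZ
    simp only [YM7.ins, osp, ← mul_assoc]
    refine (map_sum W _ _ ▸ tendsto_finsetSum _ fun i _ => map_smul W _ _ ▸
      (b2 _ (d3 _ _ (f1 i))).const_smul (c i)).congr fun j => ?_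
    simp only [Finset.mul_sum, Finset.sum_mul, mul_smul_comm, smul_mul_assoc, map_sum, map_smul,
      Finset.smul_sum]
    exact Finset.sum_comm
  · filter_upwards [tendsto_natCast_atTop_atTop.eventually (Net.far_adm (N := net) 0 hZ)] with j e
    refine (net.loc univ).sum_mem fun i _ => ?_
    rw [osp, ← mul_assoc]
    exact e _ (b1 j i)

theorem Inp.quantum (hI : Inp W) (hW : Vac W) :
    ∃ (H : Type) (_ : NormedAddCommGroup H) (_ : InnerProductSpace ℂ H) (_ : CompleteSpace H),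
      Quantum H W := by
  have hS' := hI.st
  choose H i1 i2 i3 rp' using hS'.exists_rep
  let ρ := fun ν => (rp' ν).some
  obtain ⟨q1, q2, q3, q4, q5⟩ := (ρ 0).semi hS' (D := Mon (Hs 0 0)) rfl (by
    rintro _ ⟨k, f, f1, f2, rfl⟩ s hs
    have f3 : Pos f := ⟨f1, fun i y hy => f2 i hy⟩
    refine Metric.tendsto_nhds.2 fun ε ε0 => ?_
    have hR := qe_shift hS' hI.lin hI.grow (f3.rp (f3.sh hs)) (half_pos ε0)
    have h1 : Tendsto (fun v : R4 => (Fin.append (fun _ => 0) (fun _ => v - s) : Fin (k + k) → R4))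
        (𝓝 s) (𝓝 0) := tendsto_pi_nhds.2 fun i => by
      induction i using Fin.addCases with
      | left i => simpa only [Fin.append_left, Pi.zero_apply] using tendsto_const_nhds
      | right i =>
        simpa only [Fin.append_right, Pi.zero_apply, id] using
          tendsto_sub_nhds_zero_iff.2 tendsto_id
    refine (h1.eventually hR).mono fun v hv => ?_
    rw [dist_eq_norm, ← map_sub, Θ_mon, τ_mon, τ_mon, ← mon_append, ← mon_append]
    refine lt_of_eq_of_lt (congrArg (fun g => ‖W (mon g - _)‖) (funext fun i => funext fun y => ?_))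
      ((hv.bound hS').trans_lt (half_lt_self ε0))
    induction i using Fin.addCases with
    | left i => simp only [rp, Fin.append_left, sub_zero]; rfl
    | right i => simp only [rp, Fin.append_right, sh, sub_sub, sub_add_cancel])
  have e0 : ∀ {s : ℝ}, 0 ≤ s → 0 ≤ (EuclideanSpace.single 0 s : R4) 0 := fun h => by simpa
  have v1 : ∀ {v : R4}, 0 ≤ v 0 → (ρ 0).T v ((ρ 0).Ψ 1) = (ρ 0).Ψ 1 := fun hv => by
    rw [(ρ 0).act hv (net.one _), map_one]
  obtain ⟨A, r1, r2, r3, r4⟩ := generator (P := fun t => (ρ 0).T (EuclideanSpace.single 0 t))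
    (by simpa [EuclideanSpace.single, PiLp.single] using q1)
    (fun r hr s hs => (congrArg (ρ 0).T (PiLp.single_add ..)).trans (q2 _ (e0 hr) _ (e0 hs)))
    (fun t ht => (ρ 0).nrm (e0 ht)) (fun t ht => (q5 t ht).isSelfAdjoint)
    (fun x => (q3 x).comp (f := fun t : ℝ => (EuclideanSpace.single 0 t : R4))
      ((PiLp.continuous_toLp 2 fun _ : Fin 4 => ℝ).comp (continuous_single 0)).continuousOn
      fun t ht => e0 ht) fun B hB => not_bdd (S := fun f => (W (mon f)).re) (fun f hf => by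
        simpa [← Complex.ofReal_pow, kap, Function.comp_def, Complex.re_ofReal_mul] using
          (Complex.continuous_re.tendsto _).comp (hI.af 2 f hf)) B fun s hs f hf => by
    have m := mon_mem (O := Hs 0 0) hf.1 hf.2
    have e1 : ∀ {s : ℝ}, 0 ≤ s → (W (mon (rp f (sh (EuclideanSpace.single 0 s) f)))).re =
        (inner ℂ ((ρ 0).Ψ (mon f)) ((ρ 0).T (EuclideanSpace.single 0 s) ((ρ 0).Ψ (mon f)))).re :=
      fun hs => by
        rw [(ρ 0).act (e0 hs) m, (ρ 0).inn m (Net.τ_hs m (by simpa)), Θ_mon, τ_mon, ← mon_append]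
        rfl
    generalize (ρ 0).Ψ (mon f) = x at e1
    have e2 := re_inner_le_norm (𝕜 := ℂ) x (x - (ρ 0).T (EuclideanSpace.single 0 s) x)
    have e3 := mul_le_mul_of_nonneg_left (hB s hs x) (norm_nonneg x)
    have e4 := inner_self_eq_norm_mul_norm (𝕜 := ℂ) x
    rw [inner_sub_right, map_sub, norm_sub_rev, e4] at e2
    rw [e1 hs, e1 le_rfl, show (ρ 0).T (EuclideanSpace.single 0 0) = 1 by
      simpa [EuclideanSpace.single, PiLp.single] using q1, one_apply_eq_self]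
    simp only [RCLike.re_to_complex] at e2 e4
    rw [e4]
    linarith
  refine ⟨H 0, inferInstance, inferInstance, inferInstance,
    (ρ 0).Ψ, (ρ 0).T, (ρ 0).Ψ.isLinear, (ρ 0).dense.mono ?_,
    fun Z hZ => ⟨fun Y hY => (ρ 0).inn hY hZ, fun v hv => (ρ 0).act hv hZ⟩, ⟨(ρ 0).one hS', q1,
    fun v hv => ⟨(ρ 0).nrm hv, v1 hv, q2 v hv⟩, q3, q4, q5, A, r1, r2, r3,
    (r2 _ _).2 (by
      rw [neg_zero]
      exact (hasDerivWithinAt_const _ _ _).congr_of_mem (fun t ht => v1 (e0 ht)) self_mem_Ici),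
    r4⟩, fun x hx => ⟨_, hW H ρ x hx⟩⟩
  rintro _ ⟨Z, rfl⟩
  exact ⟨Z, Z.2, rfl⟩

/-- the Schwinger distributions -/
theorem Inp.os (h : Inp W) {G : Set (R4 → R4)}
    (hG : ∀ g ∈ G, (∃ e : R4 ≃ᵃⁱ[ℝ] R4, ⇑e = g) ∧ ∀ k (f : Fin k → R4 → ℝ), Adm f →
      W (mon fun i y => f i (g y)) = W (mon f)) {D : Set R4}
    (hD : ∀ a ∈ D, 0 ≤ a 0 ∧ ∀ Y ∈ net.loc (Hs 0 0), ∀ Z ∈ net.loc (Hs 0 0), Tendsto
      (fun t : ℝ => W (net.Θ 0 Y * net.τ (t • a) Z)) atTop (𝓝 (W (net.Θ 0 Y) * W Z))) :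
    ∃ T : ∀ k, Sw k →L[ℂ] ℂ, OSax G D T ∧
      ∀ k (f : Fin k → R4 → ℝ) (F : Sw k), Adm f → (∀ i, ContDiff ℝ ∞ (f i)) →
        (∀ x, F x = ∏ i, (f i (x i) : ℂ)) → T k F = W (fld f) := by
  obtain ⟨T, t1, t2⟩ := exists_S h.lin (qual_of h.st h.lin h.grow) h.le
  exact ⟨T, osax_of h.st t1 t2 (fun g e => ⟨(hG g e).1, fun k f hf _ => (hG g e).2 k f hf⟩) hD,
    fun k f F f1 f2 f3 => t2 k f F ⟨fun i => ⟨(f1.1 i).1, f2 i⟩, f3⟩ f1⟩

theorem Inp.os_tr (h : Inp W) (hW : Vac W) :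
    ∃ T : ∀ k, Sw k →L[ℂ] ℂ, OSax (range fun v y => y + v) {a | 0 < a 0 ∧ ∀ μ, a μ ≠ 0} T ∧
      ∀ k (f : Fin k → R4 → ℝ) (F : Sw k), Adm f → (∀ i, ContDiff ℝ ∞ (f i)) →
        (∀ x, F x = ∏ i, (f i (x i) : ℂ)) → T k F = W (fld f) := by
  refine h.os ?_ fun a ha => ⟨ha.1.le, fun Y hY Z hZ => cluster h.st hW ha.1 ha.2 hY hZ⟩
  rintro _ ⟨v, rfl⟩
  refine ⟨⟨AffineIsometryEquiv.vaddConst ℝ v, rfl⟩, fun k f hf => ?_⟩
  simpa only [τ_mon, sub_neg_eq_add] using h.st.ti (-v) (mon_mem hf fun _ => subset_univ _)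

end Pool.Agent.Lib.MP_7f377f_mp.Lg
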