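import Pool.Agent.Lib.MP_7f377f_mp.PurQ
import Pool.Agent.Lib.MP_7f377f_mp.PurD

/-! From the lattice array bounds to operator bounds in the limit. -/

noncomputable section

namespace Pool.Agent.Lib.MP_7f377f_mp.Pur

open MeasureTheory Filter Topology Set Real YM7 MvPolynomial
open scoped NNReal

theorem sg_sq (z : ℤ) : (-1 : ℝ) ^ z * (-1) ^ z = 1 := by
  rw [← mul_zpow, neg_mul_neg, one_mul, one_zpow]

theorem fold_rf (w : ℝ) (c : Fin 4 → ℤ) (μ : Fin 4) (y : R4) :
    fold w c (rf μ y) = fold w (Function.update c μ (-c μ - 1)) y := by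
  ext l
  by_cases h : l = μ
  · subst h
    have e : (-1 : ℝ) ^ (-c l - 1) = -(-1) ^ c l := by
      rw [zpow_sub_one₀ (by norm_num), zpow_neg, inv_eq_of_mul_eq_one_left (sg_sq _)]
      norm_num
    simp only [fold, rf_self, Function.update_self, e]
    push_cast
    ring
  · simp [fold, rf_ne h, h]

theorem fold_ax (w : ℝ) (c : Fin 4 → ℤ) (μ : Fin 4) (y : R4) :
    fold w c (y - ax μ (2 * w)) = fold w (c + Pi.single μ 2) y := by
  ext l
  by_cases h : l = μ
  · subst h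
    have e : (-1 : ℝ) ^ (c l + 2) = (-1) ^ c l := by
      rw [zpow_add₀ (by norm_num)]
      norm_num
    simp only [fold, Pi.add_apply, Pi.single_eq_same, e, PiLp.sub_apply, PiLp.single_eq_same]
    push_cast
    ring
  · simp [fold, h]

theorem fold_zero (w : ℝ) (y : R4) : fold w 0 (y + dg (w / 2)) = y := by
  ext l
  simp only [fold, Pi.zero_apply, zpow_zero, PiLp.add_apply, dg_apply]
  push_cast
  ring

theorem fold_smooth (w : ℝ) (c : Fin 4 → ℤ) : ContDiff ℝ 1 (fold w c) :=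
  contDiff_euclidean.2 fun l => by
    simp only [fold]
    fun_prop

/-- the folding as a homeomorphism -/
def foldH (w : ℝ) (c : Fin 4 → ℤ) : R4 ≃ₜ R4 where
  toFun := fold w c
  invFun y := WithLp.toLp 2 fun l => (-1) ^ c l * y l + (c l + 1 / 2) * w
  left_inv y := by
    ext l
    simp only [fold, ← mul_assoc, sg_sq]
    ring
  right_inv y := by
    ext l
    simp only [fold, add_sub_cancel_right, ← mul_assoc, sg_sq, one_mul]
  continuous_toFun := (fold_smooth w c).continuous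
  continuous_invFun := by fun_prop

theorem adm_fold {k : ℕ} {f : Fin k → R4 → ℝ} (hf : Adm f) {d : ℝ} (d0 : 0 < d) (w : ℝ)
    (c : Fin 4 → ℤ) : Adm fun i y => f i (d⁻¹ • fold w c y) :=
  (hf.smul (inv_ne_zero d0.ne')).comp (foldH w c) (fold_smooth w c)

theorem fold_cell {f : R4 → ℝ} {d w : ℝ} (d0 : 0 < d) (hw : ∀ y ∈ tsupport f, d * ‖y‖ < w / 2)
    (c : Fin 4 → ℤ) : tsupport (fun y => f (d⁻¹ • fold w c y)) ⊆
      {y | ∀ l, c l * w < y l ∧ y l < (c l + 1) * w} := fun y hy l => by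
  have h1 := hw _ (tsupport_comp (θ := fun y => d⁻¹ • fold w c y)
    ((fold_smooth w c).continuous.const_smul d⁻¹ :) hy)
  rw [norm_smul, norm_inv, Real.norm_of_nonneg d0.le, mul_inv_cancel_left₀ d0.ne'] at h1
  have h2 := (PiLp.norm_apply_le _ l).trans_lt h1
  simp only [fold, norm_eq_abs, abs_mul, abs_neg_one_zpow, one_mul, abs_lt] at h2
  constructor <;> linarith [h2.1, h2.2]

theorem cell_disj {w : ℝ} (w0 : 0 < w) {c c' : Fin 4 → ℤ} (h : c ≠ c') :
    Disjoint {y : R4 | ∀ l, c l * w < y l ∧ y l < (c l + 1) * w}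
      {y | ∀ l, c' l * w < y l ∧ y l < (c' l + 1) * w} :=
  disjoint_left.2 fun y e1 e2 => h (funext fun l => by
    have e3 : (c l : ℝ) < c' l + 1 := lt_of_mul_lt_mul_right ((e1 l).1.trans (e2 l).2) w0.le
    have e4 : (c' l : ℝ) < c l + 1 := lt_of_mul_lt_mul_right ((e2 l).1.trans (e1 l).2) w0.le
    have e5 : c l < c' l + 1 := by exact_mod_cast e3
    have e6 : c' l < c l + 1 := by exact_mod_cast e4
    omega)

theorem prod_exp {R A I : Type} [CommRing R] [CommRing A] [Algebra R A] [DecidableEq I]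
    (B : Finset I) (x : I → A) (l κ : R) : ∏ c ∈ B, (l • x c - κ • 1) =
      ∑ t ∈ B.powerset, (l ^ t.card * (-κ) ^ (B \ t).card) • ∏ c ∈ t, x c := by
  simp only [sub_eq_add_neg, ← neg_smul, Finset.prod_add, Finset.prod_smul, Finset.prod_const,
    one_pow, smul_mul_smul_comm, mul_one]

theorem ev_choice {ι : Type} {Φ : Filter ι} {X : ι → Type} [∀ p, Nonempty (X p)]
    {P : ∀ p, X p → Prop} (h : ∀ᶠ p in Φ, ∃ x, P p x) : ∃ F : ∀ p, X p, ∀ᶠ p in Φ, P p (F p) :=
  ⟨fun p => Classical.epsilon (P p), h.mono fun _ hp => Classical.epsilon_spec hp⟩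

variable {S : ∀ {k : ℕ}, (Fin k → R4 → ℝ) → ℝ} {S' : Pol →ₗ[ℂ] ℂ}
  [MeasurableSpace SU2] [BorelSpace SU2] {h : Measure SU2} [h.IsHaarMeasure]
  [IsProbabilityMeasure h] {ι : Type} {Φ : Filter ι} {n : ι → ℕ} [∀ p, NeZero (n p)]
  {a b τ : ι → ℝ} {U : Filter ι} [U.NeBot]

set_option linter.unusedSectionVars false

theorem CellA.cell (hC : CellA h Φ n a b τ) : Cell h Φ n a b τ := by
  intro k e d δ δ0
  obtain ⟨C, hC⟩ := hC e δ δ0
  refine ⟨_, (hC (fun _ => -d) fun _ => d + 1).mono fun p hp c F h1 h2 =>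
    hp k c F h1 fun i => Fintype.mem_piFinset.2 fun l => Finset.mem_Ico.2 ?_⟩
  have := abs_le.1 (h2 i l)
  exact ⟨this.1, Int.lt_add_one_of_le this.2⟩

theorem arrS_of (hF : Fam Φ n a b τ) (hC : CellA h Φ n a b τ) (hU : U ≤ Φ)
    (cv : ∀ {k} {f : Fin k → R4 → ℝ}, Adm f →
      Tendsto (fun p => corr h (b p) (n p) (a p) f) U (𝓝 (S f))) : ArrS S := by
  intro e δ δ0
  obtain ⟨C, hC⟩ := hC e δ δ0
  refine ⟨C, fun lo hi k c f hf h1 h2 h3 => le_of_tendsto (cv hf).abs (Eventually.filter_mono hU ?_)⟩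
  obtain ⟨D, -, h4, -⟩ := hf.data
  filter_upwards [hC lo hi, hF.pos, hF.big (2 * D)] with p h5 h6 h7
  rw [corr_eq]
  refine h5 k c (fun i => src (n p) (a p) (f i)) h1 h2 (fun i => ?_) fun i x _ _ hx =>
    ((h3 i).2 _).2 hx
  simpa only [Sz, Nrm, one_mul] using sz_src (n := n p) (M := 1) (h3 i).1.dist_le_mul
    (fun y => ((h3 i).2 y).1) (cube_of (h4 i)) le_rfl h6.1 (by linarith) h6.2.le

theorem lim_prod (nr : ∀ {k} {f : Fin k → R4 → ℝ}, Adm f → ∀ {F : ∀ p, Fin k → Src (n p)},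
      (∀ᶠ p in Φ, ∀ i, Near (a p) (F p i) (f i)) →
      Tendsto (fun p => gcorr h (b p) (n p) (F p)) U (𝓝 (S f)))
    (e : ∀ {k} {f : Fin k → R4 → ℝ}, Adm f → S' (mon f) = S f) {I : Type} {k : ℕ} (t : Finset I)
    {g : I → Fin k → R4 → ℝ} (h1 : ∀ c, Adm (g c))
    (h2 : ∀ c c', c ≠ c' → ∀ i j, Disjoint (tsupport (g c i)) (tsupport (g c' j)))
    {F : ∀ p, I → Fin k → Src (n p)}
    (hN : ∀ᶠ p in Φ, ∀ c ∈ t, ∀ i, Near (a p) (F p c i) (g c i)) :
    Tendsto (fun p => ((∫ V, ∏ c ∈ t, ∏ i, cen h (b p) (F p c i) V ∂wilson h (b p) (n p) : ℝ) : ℂ))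
      U (𝓝 (S' (∏ c ∈ t, mon (g c)))) := by
  let φ := (Fintype.equivFin (t × Fin k)).symm
  have e1 : ∀ {M : Type} [CommMonoid M] (x : I → Fin k → M),
      ∏ c ∈ t, ∏ i, x c i = ∏ j, x (φ j).1 (φ j).2 := fun x => by
    rw [← Finset.prod_coe_sort, φ.prod_comp fun q : t × Fin k => x q.1 q.2, Fintype.prod_prod_type]
  have e2 : Adm fun j => g (φ j).1 (φ j).2 := ⟨fun j => (h1 _).1 _, fun j j' hj => by
    by_cases u : ((φ j).1 : I) = (φ j').1
    · change Disjoint (tsupport (g (φ j).1 (φ j).2)) (tsupport (g (φ j').1 (φ j').2))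
      rw [← u]
      exact (h1 _).2 fun v => hj (φ.injective (Prod.ext (Subtype.ext u) v))
    · exact h2 _ _ u _ _⟩
  simp only [mon, e1]
  rw [← mon, e e2]
  exact Complex.continuous_ofReal.continuousAt.tendsto.comp
    (nr e2 (F := fun p j => F p (φ j).1 (φ j).2) (hN.mono fun p hp j => hp _ (φ j).1.2 _))

theorem qb_short {K : ℕ} (hA : ShortA h Φ n a b K) (hU : U ≤ Φ)
    (nr : ∀ {k} {f : Fin k → R4 → ℝ}, Adm f → ∀ {F : ∀ p, Fin k → Src (n p)},
      (∀ᶠ p in Φ, ∀ i, Near (a p) (F p i) (f i)) →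
      Tendsto (fun p => gcorr h (b p) (n p) (F p)) U (𝓝 (S f)))
    (hS : net.St S') (h : ∀ {k} {f : Fin k → R4 → ℝ}, Adm f → S' (mon f) = S f) :
    ∀ k ≤ K, ∀ f : Fin k → R4 → ℝ, Adm f → ∀ η > 0, ∀ᶠ d in 𝓝[>] (0 : ℝ), ∃ R, net.QB S'
      (((log d⁻¹ ^ k : ℝ) : ℂ) • mon (fun i y => f i (d⁻¹ • y)) - (kap f : ℂ) • 1) R η := by
  intro k hk f hf η η0
  filter_upwards [hA k hk f hf η η0, self_mem_nhdsWithin] with d ⟨w, w0, h1, h2⟩ (d0 : 0 < d)
  have h3 := Net.qb_of_arr hS w0 η0.le (fun c => ((log d⁻¹ ^ k : ℝ) : ℂ) •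
    mon (fun i y => f i (d⁻¹ • fold w c y)) - (kap f : ℂ) • 1)
    (fun c => Submodule.sub_mem _ (Submodule.smul_mem _ _ (mon_mem (adm_fold hf d0 w c)
      fun i => fold_cell d0 (h1 i) c)) (Submodule.smul_mem _ _ (net.one _)))
    (fun μ c => by simp only [map_sub, net.Θ_smul, Complex.conj_ofReal, map_one, Θ_mon, fold_rf])
    (fun μ c => by simp only [map_sub, map_smul, map_one, τ_mon, fold_ax]) fun lo hi => ?_
  · have h4 := h3.tau hS (-dg (w / 2))
    simp only [map_sub, map_smul, map_one, τ_mon, sub_neg_eq_add, fold_zero] at h4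
    exact ⟨_, h4⟩
  · obtain ⟨F, h4⟩ := ev_choice (h2 lo hi)
    simp only [prod_exp, map_sum, map_smul, smul_eq_mul]
    refine le_of_tendsto (tendsto_finsetSum _ fun t ht => (lim_prod nr h t
      (fun c => adm_fold hf d0 w c) (fun c c' u i j => (cell_disj w0 u).mono
        (fold_cell d0 (h1 i) c) (fold_cell d0 (h1 j) c')) (h4.mono fun p hp c hc =>
          hp.1 c (Finset.mem_powerset.1 ht hc))).const_mul _).norm
      ((h4.filter_mono hU).mono fun p hp => le_of_eq_of_le ?_ hp.2)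
    have e := prod_exp (R := ℝ) (A := ℝ) (cells lo hi)
    simp only [smul_eq_mul, mul_one] at e
    simp only [e]
    rw [integral_finsetSum, ← norm_eq_abs, ← Complex.norm_real]
    · simp only [integral_const_mul]
      push_cast
      rfl
    · exact fun t _ => Weak.cint _ (continuous_const.mul (continuous_finsetProd _ fun c _ =>
        continuous_finsetProd _ fun i _ => continuous_cen _ _ _))

theorem ShortA.short {K : ℕ} (hF : Fam Φ n a b τ) (hB : Bd7 h Φ n a b τ)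
    (hA : ShortA h Φ n a b K) : Short h Φ n a b K := by
  intro k hk f hf η η0
  filter_upwards [hA k hk f hf _ (half_pos η0), self_mem_nhdsWithin] with d ⟨w, w0, h1, h2⟩
    (d0 : 0 < d)
  obtain ⟨F, h3⟩ := ev_choice (h2 0 1)
  have e : cells 0 1 = {0} := by decide
  simp only [e, Finset.mem_singleton, forall_eq, Finset.prod_singleton, Finset.card_singleton,
    pow_one] at h3
  have hg := adm_fold hf d0 w 0
  obtain ⟨D, -, h4, -⟩ := hg.data
  have h5 := hB.near hF hg (F := fun p i x => src (n p) (a p)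
    (fun y => f i (d⁻¹ • fold w 0 (y + dg (w / 2))))
    (x - fun _ => ((⌊w / 2 / a p⌋ : ℤ) : ZMod (n p)))) (by
      filter_upwards [hF.pos, hF.big (2 * (D + w / 2))] with p e1 e2 i
      refine near_shift (V := w / 2) (cube_of (h4 i)) e1.1 (fun l => ?_)
        (fun l => (abs_of_pos (half_pos w0)).le) (by linarith)
      have e3 := (le_div_iff₀' e1.1).1 (Int.floor_le (w / 2 / a p))
      have e4 := (div_lt_iff₀' e1.1).1 (Int.lt_floor_add_one (w / 2 / a p))
      rw [dg_apply, abs_le]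
      constructor <;> linarith [e1.1])
  simp only [gcorr_shift, fold_zero] at h5
  have h6 := ((h5.sub (hB.near hF hg (F := fun p => F p 0) (h3.mono fun p hp => hp.1))).const_mul
    (log d⁻¹ ^ k)).abs
  rw [sub_zero, mul_zero, abs_zero] at h6
  filter_upwards [h3, h6.eventually_le_const (half_pos η0)] with p h7 h8
  have h9 := h7.2
  rw [integral_sub ((Weak.cint _ (continuous_finsetProd _ fun i _ =>
    continuous_cen _ _ _)).const_mul _) (integrable_const _), integral_const_mul, ← gcorr_eq,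
    integral_const, probReal_univ, one_smul, abs_le] at h9
  rw [corr_eq]
  change |_ * gcorr h (b p) (n p) (fun i => src (n p) (a p) fun y => f i (d⁻¹ • y)) - kap f| ≤ η
  rw [abs_le] at h8 ⊢
  constructor <;> linarith [h8.1, h8.2, h9.1, h9.2]

end Pool.Agent.Lib.MP_7f377f_mp.Pur
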