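import Pool.Agent.Lib.MP_7f377f_mp.YM13Defs
import Pool.Agent.Lib.MP_7f377f_mp.PurN

/-! Cutoffs, tensor products and the hypotheses of the extension to distributions. -/

noncomputable section

namespace Pool.Agent.Lib.MP_7f377f_mp.Lg

open Filter Topology Set YM7 Pur MvPolynomial
open scoped NNReal ContDiff

/-- smooth step functions of Gevrey class -/
def Step (s : ℝ → ℝ) : Prop := ContDiff ℝ ∞ s ∧ (∀ t ≤ 0, s t = 0) ∧ (∀ t ≥ 1, s t = 1) ∧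
  (∀ t, 0 ≤ s t ∧ s t ≤ 1) ∧ ∃ C : ℝ, ∀ l t, |iteratedDeriv l s t| ≤ (C * (l + 1) ^ 3) ^ l

/-- the step function -/
def st : ℝ → ℝ := Classical.epsilon Step

/-- smooth functions with values in `[0, 1]` and geometric bounds up to order `m` -/
def Cl {E : Type} [NormedAddCommGroup E] [NormedSpace ℝ E] (m : ℕ) (r : ℝ) (g : E → ℝ) : Prop :=
  ContDiff ℝ ∞ g ∧ (∀ x, 0 ≤ g x ∧ g x ≤ 1) ∧ ∀ l ≤ m, ∀ x, ‖iteratedFDeriv ℝ l g x‖ ≤ r ^ l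

/-- one on `[-1, 1]`, zero outside `(-2, 2)` -/
def bet (t : ℝ) : ℝ := st (t + 2) * st (2 - t)

/-- the integer translates sum to one, zero outside `(-1, 1)` -/
def hat (t : ℝ) : ℝ := st (t + 1) * (1 - st t)

variable {n : ℕ}

/-- zero if two points are close on the scale `2 ^ -e` -/
def sepr (e : ℕ) (x : Fin n → R4) : ℝ :=
  ∏ q ∈ Finset.univ.offDiag, (1 - ∏ μ, bet (2 ^ e / 2 * (x q.1 μ - x q.2 μ)))

/-- the minimal distance is of order `2 ^ -e` -/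
def shel : ℕ → (Fin n → R4) → ℝ
  | 0 => sepr 0
  | e + 1 => fun x => sepr (e + 1) x * (1 - sepr e x)

/-- partition of unity of mesh `2 ^ -e / 8` -/
def chi (e : ℕ) (z : Fin 4 → ℤ) (y : R4) : ℝ := ∏ μ, hat (8 * 2 ^ e * y μ - z μ)

/-- one on the support of `chi e z` -/
def frm (e : ℕ) (z : Fin 4 → ℤ) (y : R4) : ℝ := ∏ μ, bet (8 * 2 ^ e * y μ - z μ)

/-- the product partition of unity -/
def chn (e : ℕ) (z : Fin n → Fin 4 → ℤ) (x : Fin n → R4) : ℝ := ∏ i, chi e (z i) (x i)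

/-- cutoff at large distances -/
def far (e : ℕ) (x : Fin n → R4) : ℝ := ∏ i, ∏ μ, bet (x i μ / 2 ^ e)

/-- cutoff at small times -/
def late (e : ℕ) (x : Fin n → R4) : ℝ := ∏ i, st (2 ^ e * x i 0 - 1)

/-- well separated labels -/
def Good (z : Fin n → Fin 4 → ℤ) : Prop := ∀ i j, i ≠ j → ∃ μ, 12 ≤ |z i μ - z j μ|

/-- boxes of labels -/
abbrev lab (n D : ℕ) : Finset (Fin n → Fin 4 → ℤ) :=
  Fintype.piFinset fun _ => Fintype.piFinset fun _ => Finset.Icc (-D : ℤ) D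

/-- multiplication by a real function -/
def mul {E : Type} [NormedAddCommGroup E] [NormedSpace ℝ E] (g : E → ℝ) :
    SchwartzMap E ℂ →L[ℂ] SchwartzMap E ℂ := SchwartzMap.smulLeftCLM ℂ fun x => (g x : ℂ)

/-- `F` is the tensor product of the smooth compactly supported functions `f i` -/
def Ten (f : Fin n → R4 → ℝ) (F : Sw n) : Prop :=
  (∀ i, HasCompactSupport (f i) ∧ ContDiff ℝ ∞ (f i)) ∧ ∀ x, F x = ∏ i, (f i (x i) : ℂ)

/-- the span of the admissible tensor products supported in `O` -/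
def Vs (O : Set R4) (n : ℕ) : Submodule ℂ (Sw n) :=
  Submodule.span ℂ {F | ∃ f, Ten f F ∧ Adm f ∧ ∀ i, tsupport (f i) ⊆ O}

/-- plane waves -/
def wave {V : Type} [NormedAddCommGroup V] [InnerProductSpace ℝ V] (p x : V) : ℂ :=
  Real.fourierChar (inner ℝ p x)

/-- fields smeared with complex functions -/
def monC (g : Fin n → R4 → ℂ) : Pol :=
  ∏ i, (X (fun y => (g i y).re) + Complex.I • X fun y => (g i y).im)

/-- the sum of the integrals of the derivatives -/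
def dI (m : ℕ) (F : Sw n) : ℝ :=
  ∑ l ∈ Finset.range (m + 1), ∫ x, ‖iteratedFDeriv ℝ l F x‖

/-- bound for fixed supports -/
def Qual (W : Pol →ₗ[ℂ] ℂ) : Prop := ∀ k R, ∀ δ > 0, ∃ C : ℝ, ∀ (f : Fin k → R4 → ℝ)
  (L : Fin k → ℝ≥0), Adm f → (∀ i, LipschitzWith (L i) (f i) ∧ ∀ y, f i y ≠ 0 → ‖y‖ ≤ R) →
  (∀ i j, i ≠ j → ∀ x y, f i x ≠ 0 → f j y ≠ 0 → δ ≤ dist x y) → ‖W (mon f)‖ ≤ C * ∏ i, L i

/-- small well separated supports -/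
def Far {k : ℕ} (d : ℝ) (f : Fin k → R4 → ℝ) (L : Fin k → ℝ≥0) : Prop :=
  Adm f ∧ (∀ i, LipschitzWith (L i) (f i) ∧ ∀ x y, f i x ≠ 0 → f i y ≠ 0 → dist x y ≤ d) ∧
    ∀ i j, i ≠ j → ∀ x y, f i x ≠ 0 → f j y ≠ 0 → d ≤ dist x y

/-- the explicit bound -/
def Grow (W : Pol →ₗ[ℂ] ℂ) : Prop := ∃ (C : ℝ) (s : ℕ), 0 ≤ C ∧ ∀ (k : ℕ) (d : ℝ), 0 < d → d ≤ 1 →
  ∀ (f : Fin k → R4 → ℝ) (L : Fin k → ℝ≥0), Far d f L →
    ‖W (mon f)‖ ≤ (C * ((k + 1) / d) ^ s) ^ k * ∏ i, L i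

/-- bound for sources in different slots of width `3 ^ -e / 2` -/
def ProdS (S : ∀ {k : ℕ}, (Fin k → R4 → ℝ) → ℝ) : Prop :=
  ∃ N : ℝ, 0 ≤ N ∧ ∀ᶠ e' : ℕ in atTop, ∀ e < e', ∀ (k : ℕ) (c : Fin k → Fin 4 → ℤ) (z : Fin k → R4)
    (f : Fin k → R4 → ℝ), Adm f → c.Injective → (∀ i, LipschitzWith 1 (f i) ∧ ∀ y, |f i y| ≤ 1 ∧
      (f i y ≠ 0 → ∀ l, |y l - z i l| ≤ (3 ^ e')⁻¹ / 32)) →
    (∀ i l, c i l * ((3 ^ e)⁻¹ / 2) + (3 ^ e')⁻¹ ≤ z i l ∧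
      z i l ≤ (c i l + 1) * ((3 ^ e)⁻¹ / 2) - (3 ^ e')⁻¹) → |S f| ≤ Real.exp (N * e' * k)

end Pool.Agent.Lib.MP_7f377f_mp.Lg
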