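import Pool.Agent.Lib.MP_7f377f_mp.LgST

/-! The chessboard estimate on two scales: a bound for products with explicit constants. -/

noncomputable section

namespace Pool.Agent.Lib.MP_7f377f_mp.Lg

open MeasureTheory Filter Topology Real YM7 Weak

namespace TW

variable {n m u lam : ℕ} {a τ : ℝ} {z c : Fin 4 → ℤ} {F : Src n}

/-- normalised sources whose plaquettes have their corners near `z` -/
def Lc (a τ : ℝ) (u : ℕ) (z : Fin 4 → ℤ) (F : Src n) : Prop :=
  (∃ g : Site 4 n → ℝ, (∀ x, |g x| ≤ 1) ∧ (∀ x l, |g (x + Pi.single l 1) - g x| ≤ a) ∧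
    ∀ x i j y, Cor x i j y → |F x i j - g y| ≤ τ) ∧
  ∀ x i j y, F x i j ≠ 0 → Cor x i j y → ∀ l, ∃ t : ℤ, y l = t ∧ 32 * |t - z l| ≤ u + 64

theorem Lc.sh (h : Lc a τ u z F) (s : Fin 4 → ℤ) :
    Lc a τ u (fun l => z l + s l) fun x => F (x - fun l => (s l : ZMod n)) := by
  obtain ⟨⟨g, g1, g2, g3⟩, h⟩ := h
  have e : ∀ {x y : Site 4 n} {i j}, Cor x i j y → Cor (x - fun l => (s l : ZMod n)) i j
      (y - fun l => (s l : ZMod n)) := fun hy l => (hy l).imp (fun e => by simp [e]) fun e =>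
    ⟨e.1, by simp [e.2, sub_add_eq_add_sub]⟩
  refine ⟨⟨fun y => g (y - fun l => (s l : ZMod n)), fun _ => g1 _, fun x l => ?_,
    fun x i j y hy => g3 _ _ _ _ (e hy)⟩, fun x i j y hx hy l => ?_⟩
  · beta_reduce; rw [add_sub_right_comm]; exact g2 _ _
  · obtain ⟨t, t1, t2⟩ := h _ _ _ _ hx (e hy) l
    exact ⟨t + s l, by rw [Int.cast_add, ← t1]; simp, by rwa [add_sub_add_right_eq_sub]⟩

theorem Lc.re (h : Lc a τ u z F) (ε : Fin 4 → Bool) :
    Lc a τ u (fun l => if ε l then -z l else z l) (rE ε F) := by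
  obtain ⟨⟨g, g1, g2, g3⟩, h⟩ := h
  have e : ∀ {x y : Site 4 n} {i j}, Cor x i j y → Cor (fun l => if ε l then -x l -
      (if i = l ∨ j = l then 1 else 0) else x l) i j fun l => if ε l then -y l else y l :=
    fun {x y i j} hy l => by
      have := hy l
      cases hl : ε l
      · simpa [hl] using this
      · by_cases h : i = l ∨ j = l
        · rcases this with e | e
          · exact Or.inr ⟨h, by simp [hl, h, e]⟩
          · exact Or.inl (by simp [hl, h, e.2]; ring)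
        · exact Or.inl (by simp [hl, h, this.resolve_right fun e => h e.1])
  refine ⟨⟨fun y => g fun l => if ε l then -y l else y l, fun _ => g1 _, fun x l => ?_,
    fun x i j y hy => g3 _ _ _ _ (e hy)⟩, fun x i j y hx hy l => ?_⟩
  · beta_reduce
    cases hl : ε l
    · refine le_of_eq_of_le ?_ (g2 (fun l => if ε l then -x l else x l) l)
      congr 3
      funext k
      by_cases hk : k = l <;> simp [hk, hl]
    · have := g2 (fun k => if ε k then -(x + Pi.single l 1 : Site 4 n) k else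
        (x + Pi.single l 1 : Site 4 n) k) l
      rw [abs_sub_comm] at this
      refine le_of_eq_of_le ?_ this
      congr 3
      funext k
      by_cases hk : k = l <;> simp [hk, hl]
  · obtain ⟨t, t1, t2⟩ := h _ _ _ _ hx (e hy) l
    cases hl : ε l
    · exact ⟨t, by simpa [hl] using t1, by simpa [hl] using t2⟩
    · refine ⟨-t, by rw [Int.cast_neg, ← t1]; simp [hl], ?_⟩
      beta_reduce
      rwa [if_pos hl, neg_sub_neg, abs_sub_comm]

theorem Lc.im (h : Lc a τ u z F) (lam : ℕ) (g : (Fin 4 → Bool) × Site 4 m) : Lc a τ u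
    (fun l => (if g.1 l then -z l else z l) + lam * (g.2 l).val) (img lam g F) := by
  have := (h.re g.1).sh fun l => lam * (g.2 l).val
  rwa [show (fun l => ((lam * (g.2 l).val : ℤ) : ZMod n)) = corner lam g.2 from
    funext fun l => by rw [corner, ← Nat.cast_mul, Int.cast_natCast]] at this

theorem Lc.slot (h : Lc a τ u z F) (hu : 64 ≤ u)
    (hz : ∀ l, 4 * (c l * lam) + u ≤ 8 * z l ∧ 8 * z l + u ≤ 4 * ((c l + 1) * lam)) :
    Slot lam c F := fun x i j y hx hy l => by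
  obtain ⟨t, t1, t2⟩ := h.2 x i j y hx hy l
  have := hz l
  have := le_abs_self (t - z l)
  have := neg_abs_le (t - z l)
  exact ⟨t, t1, by omega, by omega⟩

theorem Lc.cell [NeZero n] [NeZero m] (h : Lc a τ u z F) (hu : 64 ≤ u) (hn : n = m * u) (ha : 0 < a)
    (hz : ∀ l, u ≤ 8 * (z l - u * c l) ∧ 8 * (z l - u * c l) ≤ 7 * u) :
    Nrm a τ F ∧ InT a (a * u / 16) u (fun l => (c l : ZMod m)) F := by
  refine ⟨h.1.imp fun g hg => ⟨hg.1, hg.2.1, fun x i j => hg.2.2 x i j x fun _ => .inl rfl⟩,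
    fun x i j hx l => ?_⟩
  obtain ⟨t, t1, t2⟩ := h.2 x i j x hx (fun _ => .inl rfl) l
  have := hz l
  have := le_abs_self (t - z l)
  have := neg_abs_le (t - z l)
  have : u ≤ n := hn ▸ Nat.le_mul_of_pos_left _ (NeZero.pos m)
  obtain ⟨v, hv⟩ : ∃ v, v = ((x - corner u fun l => (c l : ZMod m) : Site 4 n) l).val := ⟨_, rfl⟩
  have e : (v : ℤ) = t - u * c l := by
    rw [hv, Pi.sub_apply, corner, corner_int hn _ (c l) rfl, t1, ← Int.cast_sub, ZMod.val_intCast,
      Int.emod_eq_of_lt (by omega) (by omega)]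
  have b1 : (u : ℝ) ≤ 16 * v := by exact_mod_cast (by omega : u ≤ 16 * v)
  have b2 : (16 * v : ℝ) ≤ 15 * u := by exact_mod_cast (by omega : 16 * v ≤ 15 * u)
  rw [← hv]
  constructor <;> nlinarith

theorem lc_src [NeZero n] {f : R4 → ℝ} {y : R4} (hN : Nrm a τ (src n a f)) (ha : 0 < a)
    (hτ : 4 * a ≤ τ) (hf : ∀ x, f x ≠ 0 → ∀ l, |x l - y l| ≤ a * u / 32) :
    Lc a (2 * τ) u (fun l => ⌊y l / a⌋) (src n a f) := by
  obtain ⟨g, g1, g2, g3⟩ := hN
  refine ⟨⟨g, g1, g2, fun x i j x' hx => ?_⟩, fun x i j x' hx hx' l => ?_⟩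
  · have := lip_cube g2 (x := x) (y := x') fun l => (hx l).imp_right fun e => e.2
    rw [abs_sub_comm] at this
    exact (abs_sub_le _ _ _).trans (by linarith [g3 x i j])
  · obtain ⟨h1, h2⟩ : _ ≤ a * (x l).valMinAbs - y l ∧ _ := abs_le.1 (hf _ hx l)
    change a * (x l).valMinAbs - y l ≤ _ at h2
    have h3 := (le_div_iff₀' ha).1 (Int.floor_le (y l / a))
    have h4 := (div_lt_iff₀' ha).1 (Int.lt_floor_add_one (y l / a))
    have h5 : 32 * ((x l).valMinAbs - ⌊y l / a⌋) ≤ u + 32 := by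
      have : (32 * ((x l).valMinAbs - ⌊y l / a⌋) : ℝ) ≤ u + 32 :=
        le_of_mul_le_mul_left (by linarith) ha
      exact_mod_cast this
    have h6 : 32 * (⌊y l / a⌋ - (x l).valMinAbs) ≤ u := by
      have : (32 * (⌊y l / a⌋ - (x l).valMinAbs) : ℝ) ≤ u := le_of_mul_le_mul_left (by linarith) ha
      exact_mod_cast this
    rcases hx' l with e | e
    · exact ⟨(x l).valMinAbs, by simp [e], by beta_reduce; rw [abs_eq_max_neg]; omega⟩
    · exact ⟨(x l).valMinAbs + 1, by simp [e.2], by beta_reduce; rw [abs_eq_max_neg]; omega⟩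

theorem ex_shift (hu : 64 ≤ u) (t : ℤ) : ∃ s : ℤ, ∀ e : Bool, ∃ j w : ℤ,
    (if e then -t else t) + s = 3 * u * j + w ∧ u ≤ 8 * |w| ∧ 8 * |w| ≤ 7 * u := by
  obtain ⟨J, D, e, d1, d2⟩ : ∃ J D : ℤ, 2 * t = 3 * u * J + D ∧ -(3 * u) ≤ 2 * D ∧ 2 * D ≤ 3 * u := by
    have h1 := Int.mul_ediv_add_emod (4 * t + 3 * u) (2 * (3 * u))
    have h2 := Int.emod_nonneg (4 * t + 3 * u) (show (2 * (3 * u) : ℤ) ≠ 0 by omega)
    have h3 := Int.emod_lt_of_pos (4 * t + 3 * u) (show (0 : ℤ) < 2 * (3 * u) by omega)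
    rw [mul_assoc] at h1
    exact ⟨(4 * t + 3 * u) / (2 * (3 * u)), _, (add_sub_cancel _ _).symm, by omega, by omega⟩
  obtain ⟨o, ho⟩ : ∃ o : ℤ, o = if 2 * |D| ≤ u then (u : ℤ) / 2 else 0 := ⟨_, rfl⟩
  refine ⟨D / 2 + o - t, fun e => ?_⟩
  rw [abs_eq_max_neg] at ho
  cases e
  · exact ⟨0, D / 2 + o, by simp, by rw [abs_eq_max_neg]; omega, by rw [abs_eq_max_neg]; omega⟩
  · exact ⟨-J, D / 2 - D + o, by rw [if_pos rfl, mul_neg]; omega, by rw [abs_eq_max_neg]; omega,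
      by rw [abs_eq_max_neg]; omega⟩

theorem zm_eq [NeZero m] {x y : ZMod m} {i : ℤ} (h : (y.val : ℤ) - x.val = m * i) : x = y := by
  rw [← ZMod.natCast_zmod_val x, ← ZMod.natCast_zmod_val y, ← Int.cast_natCast,
    ← Int.cast_natCast y.val, ZMod.intCast_eq_intCast_iff_dvd_sub]
  exact ⟨i, h⟩

variable [NeZero n] [NeZero m] [MeasurableSpace SU2] [BorelSpace SU2] {h : Measure SU2}
  [h.IsHaarMeasure] [IsProbabilityMeasure h] {b M K : ℝ}

omit [BorelSpace SU2] [h.IsHaarMeasure] [IsProbabilityMeasure h] in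
/-- the fine array -/
theorem fine {m' : ℕ} [NeZero m'] (hm : m' = 3 * m) (hn : n = m' * u) (hu : 64 ≤ u) (ha : 0 < a)
    (hP : ∀ (A : Finset (Site 4 m')) (G : Site 4 m' → Src n), (∀ c ∈ A, Nrm a τ (G c) ∧
      InT a (a * u / 16) u c (G c)) → |∫ U, ∏ c ∈ A, cen h b (G c) U ∂wilson h b n| ≤ M)
    (hF : Lc a τ u z F) {j w : Fin 4 → ℤ}
    (hz : ∀ l, z l = 3 * u * j l + w l ∧ u ≤ 8 * |w l| ∧ 8 * |w l| ≤ 7 * u) :
    |∫ U, ∏ g : (Fin 4 → Bool) × Site 4 m, cen h b (img (3 * u) g F) U ∂wilson h b n| ≤ M := by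
  classical
  obtain ⟨C, hC⟩ : ∃ C : (Fin 4 → Bool) × Site 4 m → Fin 4 → ℤ, ∀ g l, C g l =
      3 * ((if g.1 l then -j l else j l) + (g.2 l).val) +
        if 0 < (if g.1 l then -w l else w l) then 0 else -1 := ⟨_, fun _ _ => rfl⟩
  have inj : Function.Injective fun g l => (C g l : ZMod m') := fun g g' e => by
    have key : ∀ l, g.1 l = g'.1 l ∧ g.2 l = g'.2 l := fun l => by
      obtain ⟨i, hi⟩ := (ZMod.intCast_eq_intCast_iff_dvd_sub _ _ _).1 (congrFun e l)
      have := (hz l).2.1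
      rw [hC, hC, hm, Nat.cast_mul, mul_assoc] at hi
      rw [abs_eq_max_neg] at this
      cases h1 : g.1 l <;> cases h2 : g'.1 l <;> simp only [h1, h2, if_true, if_false,
        Bool.false_eq_true, Nat.cast_ofNat] at hi
      exacts [⟨rfl, zm_eq (i := i) (by omega)⟩, by omega, by omega, ⟨rfl, zm_eq (i := i) (by omega)⟩]
    exact Prod.ext (funext fun l => (key l).1) (funext fun l => (key l).2)
  have := hP (Finset.univ.image fun g l => (C g l : ZMod m'))
    (Function.extend (fun g l => (C g l : ZMod m')) (fun g => img (3 * u) g F) 0) fun c hc => by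
      obtain ⟨g, -, rfl⟩ := Finset.mem_image.1 hc
      rw [inj.extend_apply]
      refine (hF.im _ g).cell hu hn ha fun l => ?_
      obtain ⟨h1, h2, h3⟩ := hz l
      rw [abs_eq_max_neg] at h2 h3
      have e : (if g.1 l then -z l else z l) + (3 * u : ℕ) * (g.2 l).val - u * C g l =
          (if g.1 l then -w l else w l) +
            if 0 < (if g.1 l then -w l else w l) then 0 else (u : ℤ) := by
        rw [hC, h1]
        push_cast
        split_ifs <;> ring
      rw [e]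
      omega
  simpa only [Finset.prod_image inj.injOn, inj.extend_apply] using this

/-- the coarse array -/
theorem coarse {m' q : ℕ} [NeZero m'] (hb : 0 ≤ b) (hm : m' = m * q) (ho : Odd m')
    (hn : n = m' * (3 * u)) (hu : 64 ≤ u) (K0 : 0 < K) (hP : ∀ (z j w : Fin 4 → ℤ) (F : Src n),
      Lc a τ u z F → (∀ l, z l = 3 * u * j l + w l ∧ u ≤ 8 * |w l| ∧ 8 * |w l| ≤ 7 * u) →
      |∫ U, ∏ g : (Fin 4 → Bool) × Site 4 m', cen h b (img (3 * u) g F) U ∂wilson h b n| ≤
        K ^ ((2 * m') ^ 4)) (hF : Lc a τ u z F) (hl : lam = 3 * u * q)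
    (hz : ∀ l, c l * lam + u ≤ 2 * z l ∧ 2 * z l + u ≤ (c l + 1) * lam) :
    |∫ U, ∏ g : (Fin 4 → Bool) × Site 4 m, cen h b (img lam g F) U ∂wilson h b n| ≤
      K ^ ((2 * m) ^ 4) := by
  choose s j w hs using fun l => ex_shift hu (z l)
  have q0 : (0 : ℤ) < q := by
    exact_mod_cast Nat.pos_of_ne_zero (by rintro rfl; exact NeZero.ne m' hm)
  have hL : (lam : ℤ) = 3 * u * q := by exact_mod_cast hl
  have e : ∀ (g : (Fin 4 → Bool) × Site 4 m) l, (if g.1 l then -z l else z l) +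
      lam * (g.2 l).val + s l = 3 * u * (j l (g.1 l) + q * (g.2 l).val) + w l (g.1 l) :=
    fun g l => by rw [add_right_comm, (hs l _).1, hL]; ring
  have := step (h := h) hb ho hn (fun (g : (Fin 4 → Bool) × Site 4 m) l =>
    2 * (j l (g.1 l) + q * (g.2 l).val) + if 0 < w l (g.1 l) then 0 else -1)
    (fun g x => img lam g F (x - fun l => (s l : ZMod n))) (fun g g' e => ?_)
    (fun g => ((hF.im lam g).sh s).slot hu fun l => ?_) K0 fun g =>
      hP _ _ _ _ ((hF.im lam g).sh s) fun l => ⟨e g l, (hs l _).2⟩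
  · simp only [cen_of h b (mp_shift' h b _) (gfield_shift _ _)] at this
    rw [int_mp (mp_shift' h b _) (continuous_finsetProd _ fun g _ => continuous_cen h b _)] at this
    simpa [mul_pow] using this
  · have key : ∀ l, g.1 l = g'.1 l ∧ g.2 l = g'.2 l := fun l => by
      obtain ⟨i, hi⟩ := (ZMod.intCast_eq_intCast_iff_dvd_sub _ _ _).1 (congrFun e l)
      rw [Nat.cast_mul, mul_assoc, Nat.cast_ofNat] at hi
      have k1 : j l (g'.1 l) + q * (g'.2 l).val - (j l (g.1 l) + q * (g.2 l).val) = m' * i ∧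
          (0 < w l (g.1 l) ↔ 0 < w l (g'.1 l)) := by omega
      have k2 : g.1 l = g'.1 l := by
        by_contra hne
        obtain ⟨I, hI, k3⟩ : ∃ I : ℤ, j l false - j l true = q * I ∧
            (0 < w l false ↔ 0 < w l true) := by
          rw [hm, Nat.cast_mul] at k1
          cases h1 : g.1 l <;> cases h2 : g'.1 l <;> rw [h1, h2] at k1 hne
          exacts [(hne rfl).elim, ⟨(g'.2 l).val - (g.2 l).val - m * i, by linarith [k1.1], k1.2⟩,
            ⟨(g.2 l).val - (g'.2 l).val + m * i, by linarith [k1.1], k1.2.symm⟩, (hne rfl).elim]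
        obtain ⟨a1, a2, a3⟩ := hs l false
        obtain ⟨b1, b2, b3⟩ := hs l true
        obtain ⟨c1, c2⟩ := hz l
        rw [if_neg Bool.false_ne_true] at a1
        rw [if_pos rfl] at b1
        rw [abs_eq_max_neg] at a2 a3 b2 b3
        have d : 2 * z l = I * lam + (w l false - w l true) := by
          rw [hL]; linear_combination a1 - b1 + 3 * u * hI
        have l0 : (0 : ℤ) ≤ lam := by positivity
        have d1 := lt_of_mul_lt_mul_right (show c l * lam < I * lam by omega) l0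
        have d2 := lt_of_mul_lt_mul_right (show I * lam < (c l + 1) * lam by omega) l0
        omega
      refine ⟨k2, zm_eq (i := i) (mul_left_cancel₀ q0.ne' ?_)⟩
      rw [k2, hm, Nat.cast_mul] at k1
      linarith [k1.1]
    exact Prod.ext (funext fun l => (key l).1) (funext fun l => (key l).2)
  · obtain ⟨-, h2, h3⟩ := hs l (g.1 l)
    rw [abs_eq_max_neg] at h2 h3
    rw [e]
    push_cast
    split_ifs <;> constructor <;> ring_nf <;> omega

end TW

open TW

variable [MeasurableSpace SU2] [BorelSpace SU2] {h : Measure SU2} [h.IsHaarMeasure]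
  [IsProbabilityMeasure h] {ι : Type} {Φ : Filter ι} {nn : ι → ℕ} [∀ p, NeZero (nn p)]
  {a b τ : ι → ℝ} {U : Filter ι} [U.NeBot] {S : ∀ {k : ℕ}, (Fin k → R4 → ℝ) → ℝ}

theorem prodS_of (hF : Fam Φ nn a b τ) (hP : PolyC h Φ nn a b fun p => 2 * τ p) (hU : U ≤ Φ)
    (cv : ∀ {k} {f : Fin k → R4 → ℝ}, Adm f →
      Tendsto (fun p => corr h (b p) (nn p) (a p) f) U (𝓝 (S f))) : ProdS S := by
  obtain ⟨N, N0, hP⟩ := hP
  refine ⟨6 * N, by positivity, hP.mono fun e' hP e he k c z f hf hc h1 h2 =>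
    le_of_tendsto (cv hf).abs (Eventually.filter_mono hU ?_)⟩
  beta_reduce at h1 h2
  obtain ⟨D, -, h4, -⟩ := hf.data
  obtain ⟨R, hR⟩ := Finite.exists_le fun q : Fin k × Fin 4 => |c q.1 q.2|
  obtain ⟨E, hE, hb⟩ := hF.big_box (fun _ => -R) fun _ => R
  obtain ⟨r, rfl⟩ := Nat.exists_eq_add_of_lt he
  filter_upwards [hP, hb, hF.pos, hF.big (2 * D), hF.tau.eventually_ge_atTop 4,
    hF.small (show (0 : ℝ) < (3 ^ (e + r + 1))⁻¹ / 64 by positivity)]
    with p ⟨m, u, _, ho, ⟨m', hm⟩, hn, hu, hP⟩ ⟨b0, h5⟩ ⟨ha, τ0⟩ h7 h8 h9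
  rw [le_div_iff₀ ha] at h8
  rw [← hu] at h1 hP h9
  have u0 : 64 ≤ u := by
    have : (64 : ℝ) ≤ u := le_of_mul_le_mul_left (by linarith) ha
    exact_mod_cast this
  have e0 : m = 3 * (3 ^ e * m' * 3 ^ r) := by rw [hm]; ring
  have o1 : Odd (3 ^ e * m' * 3 ^ r) := (Nat.odd_mul.1 (e0 ▸ ho)).2
  have o0 := (Nat.odd_mul.1 o1).1
  have : NeZero (3 ^ e * m' * 3 ^ r) := ⟨o1.pos.ne'⟩
  have : NeZero (3 ^ e * m') := ⟨o0.pos.ne'⟩
  have n0 : nn p = 3 ^ e * m' * (3 * u * 3 ^ r) := by rw [hn, e0]; ring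
  have hl : a p * (3 * u * 3 ^ r : ℕ) = (3 ^ e)⁻¹ := by
    push_cast
    rw [mul_assoc, mul_left_comm, ← mul_assoc (a p), hu]
    field_simp
    ring
  have h6 := (h5 _ _ n0 (hl ▸ inv_le_one_of_one_le₀ (one_le_pow₀ (by norm_num)))).1
  have lc : ∀ i, Lc (a p) (2 * τ p) u (fun l => ⌊z i l / a p⌋) (src (nn p) (a p) (f i)) := fun i =>
    lc_src (by
      simpa only [Sz, Nrm, one_mul] using sz_src (n := nn p) (M := 1) (h1 i).1.dist_le_mul
        (fun y => ((h1 i).2 y).1) (cube_of (h4 i)) le_rfl ha (by linarith) τ0.le) ha h8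
      fun y => ((h1 i).2 y).2
  have hz : ∀ i l, c i l * (3 * u * 3 ^ r : ℕ) + u ≤ 2 * ⌊z i l / a p⌋ ∧
      2 * ⌊z i l / a p⌋ + u ≤ (c i l + 1) * (3 * u * 3 ^ r : ℕ) := fun i l => by
    obtain ⟨a1, a2⟩ := h2 i l
    have a3 := (le_div_iff₀' ha).1 (Int.floor_le (z i l / a p))
    have a4 := (div_lt_iff₀' ha).1 (Int.lt_floor_add_one (z i l / a p))
    rw [← hl, ← hu] at a1 a2
    have a5 : (c i l * (3 * u * 3 ^ r : ℕ) + u : ℝ) ≤ 2 * ⌊z i l / a p⌋ :=
      le_of_mul_le_mul_left (by linarith) ha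
    have a6 : (2 * ⌊z i l / a p⌋ + u : ℝ) ≤ (c i l + 1) * (3 * u * 3 ^ r : ℕ) :=
      le_of_mul_le_mul_left (by linarith) ha
    exact ⟨by exact_mod_cast a5, by exact_mod_cast a6⟩
  have := step (h := h) b0 o0 n0 c (fun i => src (nn p) (a p) (f i))
    (fun i j e => hc (funext fun l => by
      have h3 := (ZMod.intCast_eq_intCast_iff_dvd_sub _ _ _).1 (congrFun e l)
      have := abs_le.1 (show |c i l| ≤ R from hR (i, l))
      have := abs_le.1 (show |c j l| ≤ R from hR (j, l))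
      have := hE l
      have := Int.eq_zero_of_abs_lt_dvd h3 (abs_lt.2 ⟨by omega, by omega⟩)
      omega)) (fun i => (lc i).slot u0 fun l => by have := hz i l; omega)
    (exp_pos (6 * N * (e + r + 1 : ℕ))) fun i => coarse b0 rfl o1 (by rw [hn, e0]; ring) u0
      (exp_pos _) (fun z j w F hF hz => (fine e0 hn u0 ha hP hF hz).trans ?_) (lc i) rfl (hz i)
  · rw [Fintype.card_fin, ← exp_nat_mul, mul_comm] at this
    rw [corr_eq]
    exact this
  · rw [← exp_nat_mul, e0]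
    generalize 3 ^ e * m' * 3 ^ r = m₁
    generalize e + r + 1 = e'
    push_cast
    have : 0 ≤ N * e' * m₁ ^ 4 := by positivity
    exact exp_le_exp.2 (by linarith)

end Pool.Agent.Lib.MP_7f377f_mp.Lg
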