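import Pool.Agent.Lib.MP_7f377f_mp.PurI
import Pool.Agent.Lib.MP_7f377f_mp.LgInp
import Pool.Agent.Lib.MP_7f377f_mp.LgTW
import Pool.Agent.Lib.MP_7f377f_mp.LgQB

/-! The infinite volume limit of the lattice theory satisfies the abstract input. -/

noncomputable section

namespace Pool.Agent.Lib.MP_7f377f_mp.Lg

open MeasureTheory Filter Topology Set Real YM7 Pur MvPolynomial

variable [MeasurableSpace SU2] [BorelSpace SU2] {h : Measure SU2} [h.IsHaarMeasure]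
  [IsProbabilityMeasure h] {ι : Type} {Φ : Filter ι} {n : ι → ℕ} [∀ p, NeZero (n p)]
  {a b τ : ι → ℝ}

theorem inp_of [Φ.NeBot] (hF : Fam Φ n a b τ) (hB : Bd7 h Φ n a b τ)
    (hA : ∀ K, ShortA h Φ n a b K) (hP : PolyC h Φ n a b fun p => 2 * τ p) :
    ∃ (n : ℕ → ℕ+) (a b : ℕ → ℝ) (S : Pol →ₗ[ℂ] ℂ),
      Tendsto a atTop (𝓝[>] 0) ∧ Tendsto (fun j => a j * n j) atTop atTop ∧
      Tendsto (fun j => b j / log (a j)⁻¹) atTop (𝓝 (11 / (6 * π ^ 2))) ∧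
      (∀ Z ∈ Loc univ, Tendsto (fun j => vev h (b j) (n j) (a j) Z) atTop (𝓝 (S Z))) ∧ Inp S := by
  obtain ⟨U, p, S, hU, cv, nr, h1, h2, h3, h4, h5⟩ := infinite_ultra hF hB
  have hO := os_of (n := fun j => ⟨n (p j), NeZero.pos _⟩) (a := a ∘ p) (b := b ∘ p) h4 h5
    (gram_of hF hU nr)
  obtain ⟨S', e⟩ := exists_lift hO
  have hS := st_of hO (fun hf => (h4 _ _ hf).2.2.1) e
  have hL := linP_of (n := fun j => ⟨n (p j), NeZero.pos _⟩) (a := a ∘ p) (b := b ∘ p)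
    (fun hf => (h4 _ _ hf).1) e
  refine ⟨fun j => ⟨n (p j), NeZero.pos _⟩, a ∘ p, b ∘ p, S', h1, h2, h3, fun Z hZ => ?_, hS, hL,
    qb_grow hS e hL (prodS_of hF hP hU cv), fun k => qb_short (hA k) hU nr hS e k le_rfl⟩
  obtain ⟨m, c, k, f, f1, -, rfl⟩ := PN.exists_sum hZ
  simp only [vev_sum, map_sum, map_smul, e (f1 _), smul_eq_mul]
  exact tendsto_finsetSum _ fun i _ =>
    ((Complex.continuous_ofReal.tendsto _).comp (h4 _ _ (f1 i)).1).const_mul _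

end Pool.Agent.Lib.MP_7f377f_mp.Lg
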