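import Pool.Agent.Lib.MP_7f377f_mp.LgInp
import Pool.Agent.Lib.MP_7f377f_mp.PurC
import Pool.Agent.Lib.MP_7f377f_mp.RoDef

/-! Purification keeps the invariance under proper rotations. -/

noncomputable section

namespace Pool.Agent.Lib.MP_7f377f_mp.Lg

open Filter Topology Set YM7 Pur Real ComplexConjugate MvPolynomial
open Ro (Iso act act_act act_one act_mem act_adm act_τ act_mon adm_act)

set_option linter.unusedSectionVars false

namespace PI

variable {S W : Pol →ₗ[ℂ] ℂ} {g g' : Iso} {Z : Pol} {O : Set R4} {n : R4} {μ ν : Fin 4}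

/-- the antilinear action of an isometry -/
def Th (g : Iso) : Pol →+* Pol := (act g).toRingHom.comp (map (starRingEnd ℂ))

/-- the reflection in the hyperplane orthogonal to `n` -/
def rn (n : R4) : Iso := (ℝ ∙ n)ᗮ.reflection

/-- the determinant -/
def dt (g : Iso) : ℝ := LinearMap.det (g.toLinearEquiv : R4 →ₗ[ℝ] R4)

/-- hermiticity -/
def Hm (W : Pol →ₗ[ℂ] ℂ) (g : Iso) : Prop := ∀ Z ∈ net.loc univ, W (Th g Z) = conj (W Z)

/-- directions in the boundary of the positive orthant -/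
def Dir (n : R4) : Prop := n ≠ 0 ∧ (∀ l, 0 ≤ n l) ∧ ∃ ν, n ν = 0

theorem act_Th (g g' : Iso) (Z : Pol) : act g (Th g' Z) = Th (g * g') Z := act_act g g' _

theorem Th_act (g g' : Iso) (Z : Pol) : Th g (act g' Z) = Th (g * g') Z := by
  rw [← act_Th]
  simp only [Th, act, RingHom.comp_apply, map_rename, AlgHom.toRingHom_eq_coe, RingHom.coe_coe]

theorem Th_Th (g g' : Iso) (Z : Pol) : Th g (Th g' Z) = act (g * g') Z := by
  rw [← act_act]
  simp only [Th, act, RingHom.comp_apply, map_rename, AlgHom.toRingHom_eq_coe, RingHom.coe_coe,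
    MvPolynomial.map_map]
  rw [show (starRingEnd ℂ).comp (starRingEnd ℂ) = RingHom.id ℂ from RingHom.ext Complex.conj_conj,
    MvPolynomial.map_id]

theorem rfL_mul (μ : Fin 4) : rfL μ * rfL μ = 1 := LinearIsometryEquiv.ext fun y => by
  rw [LinearIsometryEquiv.coe_mul, Function.comp_apply, rfL_eq, rf_rf]
  rfl

theorem Θ_eq (μ : Fin 4) : net.Θ μ = Th (rfL μ) := by
  have : ⇑(rfL μ).symm = rf μ := by
    rw [← rfL_eq, ← LinearIsometryEquiv.inv_def, inv_eq_of_mul_eq_one_left (rfL_mul μ)]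
  simp only [Th, act, net, thP, this]

theorem Th_τ (g : Iso) (v : R4) (Z : Pol) : Th g (net.τ v Z) = net.τ (g v) (Th g Z) := by
  rw [Th, RingHom.comp_apply, RingHom.comp_apply]
  exact (congrArg (act g) (map_rename _ _ Z)).trans (act_τ g v _)

theorem Th_smul (g : Iso) (c : ℂ) (Z : Pol) : Th g (c • Z) = conj c • Th g Z := by
  simp [Th, act, smul_eq_C_mul]

theorem Th_mem (g : Iso) (h : Z ∈ net.loc O) : Th g Z ∈ net.loc {y | g.symm y ∈ O} := by
  have := act_mem (g * rfL 0) (net.Θ_mem 0 h)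
  rw [Θ_eq, act_Th, mul_assoc, rfL_mul, mul_one] at this
  refine net.mono this fun y hy => ?_
  have e : y = (g * rfL 0) ((g * rfL 0).symm y) := ((g * rfL 0).apply_symm_apply y).symm
  rw [mem_ofPred_eq, e, LinearIsometryEquiv.coe_mul, Function.comp_apply, g.symm_apply_apply, rfL_eq]
  exact hy

theorem Th_adm (g : Iso) (h : Z ∈ net.loc O) : Th g Z ∈ net.loc univ := Net.adm (Th_mem g h)

theorem Hm.mul (h : Hm W g) (h' : Hm W g') : Ro.Inv W (g * g') := fun Z hZ => by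
  rw [← Th_Th, h _ (Th_adm _ hZ), h' _ hZ, Complex.conj_conj]

theorem Hm.mul_inv (h : Hm W g) (h' : Ro.Inv W g') : Hm W (g * g') := fun Z hZ => by
  rw [← Th_act, h _ (act_adm _ hZ), h' _ hZ]

theorem Hm.inv_mul (h : Ro.Inv W g) (h' : Hm W g') : Hm W (g * g') := fun Z hZ => by
  rw [← act_Th, h _ (Th_adm _ hZ), h' _ hZ]

theorem hm_rf (hS : net.St W) (μ : Fin 4) : Hm W (rfL μ) := fun _ hZ => Θ_eq μ ▸ hS.herm μ hZ

theorem rn_apply (n y : R4) : rn n y = y - (2 * (inner ℝ n y / ‖n‖ ^ 2)) • n := by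
  rw [rn, Submodule.reflection_orthogonal_apply, Submodule.reflection_singleton_apply, neg_sub,
    mul_smul, two_smul, two_smul]
  rfl

theorem rn_mul (n : R4) : rn n * rn n = 1 := Submodule.reflection_mul_reflection _

theorem rn_rn (n y : R4) : rn n (rn n y) = y := Submodule.reflection_reflection _ y

theorem rn_conj (g : Iso) (n : R4) : rn (g n) * g = g * rn n := LinearIsometryEquiv.ext fun y => by
  simp only [LinearIsometryEquiv.coe_mul, Function.comp_apply, rn_apply, map_sub, map_smul,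
    g.inner_map_map, g.norm_map]

theorem rn_zero : rn 0 = 1 := LinearIsometryEquiv.ext fun y => by simp [rn_apply]

theorem rn_ax (μ : Fin 4) {t : ℝ} (ht : t ≠ 0) : rn (ax μ t) = rfL μ :=
  LinearIsometryEquiv.ext fun y => by
    rw [rn_apply, rfL_eq]
    ext l
    by_cases h : l = μ
    · simp [h, EuclideanSpace.inner_single_left]
      field_simp
      ring
    · simp [h, rf_ne h]

theorem rn_fix (h : n ν = 0) (y : R4) : rn n y ν = y ν := by simp [rn_apply, h]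

theorem rf_fix (h : n ν = 0) : rfL ν n = n := by
  rw [rfL_eq]
  ext l
  by_cases e : l = ν
  · rw [e, rf_self, h, neg_zero]
  · exact rf_ne e n

theorem dt_mul (g g' : Iso) : dt (g * g') = dt g * dt g' := (LinearMap.det_comp _ _)

theorem dt_one : dt 1 = 1 := LinearMap.det_id

theorem dt_rn (h : n ≠ 0) : dt (rn n) = -1 := by
  refine (Submodule.det_reflection _).trans ?_
  rw [Submodule.orthogonal_orthogonal, finrank_span_singleton h, pow_one]

theorem rot_iff : Rot W ↔ ∀ g, dt g = 1 → Ro.Inv W g := by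
  have e : ∀ g : Iso, dt g = 1 → dt g.symm = 1 := fun g h => by
    rw [← dt_one, ← mul_inv_cancel g, dt_mul, h, one_mul]
    rfl
  refine ⟨fun h g hg => .of_mon fun k f hf => ?_, fun h g hg k f hf => ?_⟩
  · rw [act_mon]
    exact h _ (e g hg) k f hf
  · rw [← h _ (e g hg) _ (mon_mem hf fun _ => subset_univ _), act_mon]
    rfl

theorem Hm.conj (h : Hm W (rn n)) (h' : Hm W g) (e : g * g = 1) : Hm W (rn (g n)) := by
  rw [← mul_one (rn _), ← e, ← mul_assoc, rn_conj]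
  exact Hm.inv_mul (h'.mul h) h'

theorem hm_of_rot (hS : net.St S) (hR : Rot S) (h : n ≠ 0) : Hm S (rn n) := by
  rw [← mul_one (rn _), ← rfL_mul 0, ← mul_assoc]
  refine Hm.inv_mul (rot_iff.1 hR _ ?_) (hm_rf hS 0)
  rw [dt_mul, ← rn_ax 0 one_ne_zero, dt_rn h, dt_rn (by simp)]
  norm_num

theorem hm_all (hS : net.St W) (h : ∀ n, Dir n → Hm W (rn n)) (h0 : n ≠ 0) : Hm W (rn n) := by
  have h1 : ∀ (s : Finset (Fin 4)) (n : R4), n ≠ 0 → (∀ l ∉ s, 0 ≤ n l) → (∃ ν, n ν = 0) →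
      Hm W (rn n) := fun s => by
    induction s using Finset.induction_on with
    | empty => exact fun n e1 e2 e3 => h n ⟨e1, fun l => e2 l (Finset.notMem_empty l), e3⟩
    | insert μ s _ ih =>
      intro n e1 e2 ⟨ν, e3⟩
      by_cases e : 0 ≤ n μ
      · exact ih n e1 (fun l hl => by
          by_cases e' : l = μ
          · rwa [e']
          · exact e2 l (by simp [e', hl])) ⟨ν, e3⟩
      have := (ih (rfL μ n) (by simpa using e1) (fun l hl => by
        rw [rfL_eq]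
        by_cases e' : l = μ
        · rw [e', rf_self]
          linarith
        · rw [rf_ne e']
          exact e2 l (by simp [e', hl])) ⟨ν, by
            rw [rfL_eq, ← abs_eq_zero, abs_rf, e3, abs_zero]⟩).conj (hm_rf hS μ) (rfL_mul μ)
      rwa [rfL_eq, rf_rf] at this
  have h2 : ∀ (n : R4) ν, n ≠ 0 → n ν = 0 → Hm W (rn n) := fun n ν e e' =>
    h1 Finset.univ n e (by simp) ⟨ν, e'⟩
  obtain ⟨m, e1, e2, e3⟩ : ∃ m : R4, ‖n‖ = ‖m‖ ∧ m 1 = 0 ∧ m 2 = n 2 := by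
    refine ⟨WithLp.toLp 2 ![√(n 0 ^ 2 + n 1 ^ 2 + n 3 ^ 2), 0, n 2, 0], ?_, rfl, rfl⟩
    rw [EuclideanSpace.norm_eq, EuclideanSpace.norm_eq]
    simp only [Fin.sum_univ_four, Real.norm_eq_abs, sq_abs, Matrix.cons_val]
    rw [Real.sq_sqrt (by positivity)]
    congr 1
    ring
  have e4 : m ≠ 0 := fun e => h0 (by rwa [e, norm_zero, norm_eq_zero] at e1)
  by_cases e : n - m = 0
  · exact sub_eq_zero.1 e ▸ h2 m 1 e4 e2
  have := (h2 m 1 e4 e2).conj (h2 _ 2 e (by simp [e3])) (rn_mul _)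
  rwa [show rn (n - m) m = n from
    (congrArg _ (Submodule.reflection_sub e1).symm).trans (rn_rn _ _)] at this

theorem rot_of (h : ∀ n ≠ 0, Hm W (rn n)) (g : Iso) :
    dt g = 1 ∧ Ro.Inv W g ∨ dt g = -1 ∧ Hm W g := by
  obtain ⟨l, -, rfl⟩ := g.reflections_generate_dim
  induction l with
  | nil => exact .inl ⟨dt_one, fun Z _ => congrArg W (act_one Z)⟩
  | cons n l ih =>
    rw [List.map_cons, List.prod_cons]
    change dt (rn n * _) = 1 ∧ Ro.Inv W (rn n * _) ∨ dt (rn n * _) = -1 ∧ Hm W (rn n * _)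
    by_cases e : n = 0
    · rwa [e, rn_zero, one_mul]
    rw [dt_mul, dt_rn e]
    rcases ih with ⟨e1, e2⟩ | ⟨e1, e2⟩
    · exact .inr ⟨by rw [e1, mul_one], (h n e).mul_inv e2⟩
    · exact .inl ⟨by rw [e1]; norm_num, (h n e).mul e2⟩

theorem exists_frame (hS : net.St W) (h : ∀ n ≠ 0, Hm W (rn n)) (n : R4) :
    ∃ g, Ro.Inv W g ∧ Ro.Inv W g⁻¹ ∧ g (ax 0 ‖n‖) = n := by
  have e1 : rn (ax 0 ‖n‖ - n) (ax 0 ‖n‖) = n := Submodule.reflection_sub (by simp)
  by_cases e : ax 0 ‖n‖ - n = 0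
  · exact ⟨1, fun Z _ => congrArg W (act_one Z), fun Z _ => congrArg W (act_one Z),
      sub_eq_zero.1 e⟩
  refine ⟨rn _ * rfL 1, (h _ e).mul (hm_rf hS 1), ?_, ?_⟩
  · rw [mul_inv_rev, inv_eq_of_mul_eq_one_left (rfL_mul 1), inv_eq_of_mul_eq_one_left (rn_mul _)]
    exact (hm_rf hS 1).mul (h _ e)
  · rw [LinearIsometryEquiv.coe_mul, Function.comp_apply, rf_fix (by simp), e1]

theorem exists_ext {P : Type} [CommRing P] [Algebra ℂ P] {N : Net P} {S : P →ₗ[ℂ] ℂ} {ι : Type}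
    (T : ι → N.loc univ → N.loc univ) (hS : N.St S) (hA : ∀ X ∈ N.loc univ, ∃ R c, N.QB S X R c)
    (hT : ∀ i X, S (T i X) = conj (S X)) :
    ∃ S' : P →ₗ[ℂ] ℂ, S' 1 = 1 ∧ N.Dom S S' ∧ (∀ i X, S' (T i X) = conj (S' X)) ∧
      ∀ (W : N.loc univ → ℂ) (c : ℝ), IsLinearMap ℂ W → (∀ i X, W (T i X) = conj (W X)) →
      (W ⟨1, N.one _⟩).im = 0 → (∀ (μ : Fin 4) (m : ℕ) (Z : Fin m → N.loc univ)
        (s s' : Fin m → R4) (R : ℝ), (∀ B ∈ N.loc (Ot R),
          0 ≤ (∑ j, S (N.Θ μ (N.τ (s j) B) * Z j * N.τ (s' j) B)).re) →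
        |(∑ j, W (Z j)).re| ≤ c * (∑ j, S' (Z j)).re) →
      ∀ X, W X = W ⟨1, N.one _⟩ * S' X := by
  let K : Set (N.loc univ → ℂ) := {f | ((∀ X Y, f (X + Y) = f X + f Y) ∧
    (∀ (c : ℂ) X, f (c • X) = c • f X) ∧ ∀ i X, f (T i X) = conj (f X)) ∧ f ⟨1, N.one _⟩ = 1 ∧
      ∀ (μ : Fin 4) (m : ℕ)
      (Z : Fin m → N.loc univ) (s s' : Fin m → R4) (R : ℝ), (∀ B ∈ N.loc (Ot R),
        0 ≤ (∑ j, S (N.Θ μ (N.τ (s j) B) * Z j * N.τ (s' j) B)).re) → 0 ≤ (∑ j, f (Z j)).re}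
  have h1 : ∀ f ∈ K, ∃ S' : P →ₗ[ℂ] ℂ, (∀ X : N.loc univ, S' X = f X) ∧ S' 1 = 1 ∧ N.Dom S S' :=
    fun f hf => by
      obtain ⟨S', e⟩ := (IsLinearMap.mk' f ⟨hf.1.1, hf.1.2.1⟩).exists_extend
      replace e : ∀ X : N.loc univ, S' X = f X := fun X => LinearMap.congr_fun e X
      exact ⟨S', e, (e ⟨1, N.one _⟩).trans hf.2.1, fun μ m Z s s' R hZ hB => by
        simpa only [← e] using hf.2.2 μ m (fun j => ⟨Z j, hZ j⟩) s s' R hB⟩
  choose R c hc using fun X : N.loc univ => hA X X.2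
  have h2 : IsCompact K := by
    refine (isCompact_univ_pi fun X => isCompact_closedBall (0 : ℂ) (c X)).of_isClosed_subset ?_
      fun f hf X _ => ?_
    · simp only [K, ofPred_and, ofPred_forall]
      refine ((isClosed_iInter fun _ => isClosed_iInter fun _ => ?_).inter
        ((isClosed_iInter fun _ => isClosed_iInter fun _ => ?_).inter
        (isClosed_iInter fun _ => isClosed_iInter fun _ => ?_))).inter (IsClosed.inter ?_ ?_)
      iterate 4 exact isClosed_eq (by fun_prop) (by fun_prop)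
      iterate 7 refine isClosed_iInter fun _ => ?_
      exact isClosed_le continuous_const (by fun_prop)
    · obtain ⟨S', e1, e2, e3⟩ := h1 f hf
      rw [mem_closedBall_zero_iff, ← e1]
      exact (e3.st hS e2).bound (e3.qb (hc X))
  obtain ⟨f, hf, h3⟩ := h2.extremePoints_nonempty ⟨fun X => S X, ⟨fun X Y => by simp,
    fun c X => by simp, hT⟩, hS.one, fun μ m Z s s' R hB => by simpa using hB 1 (N.one _)⟩
  obtain ⟨S', e1, e2, e3⟩ := h1 f hf
  refine ⟨S', e2, e3, fun i X => by rw [e1, e1, hf.1.2.2], fun W c h4 h0 h5 h6 X => ?_⟩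
  obtain ⟨w, hw⟩ : ∃ w : ℝ, W ⟨1, N.one _⟩ = w := ⟨_, Complex.ext rfl (by simpa using h5)⟩
  have h7 : |w| ≤ c := by
    simpa [hw, e2] using h6 0 1 (fun _ => ⟨1, N.one _⟩) 0 0 0 fun B hB => by
      simpa [N.τ_zero, Net.nq] using hS.pos 0 (N.mono hB (Ot.hs 0 le_rfl))
  have h8 : ∀ ε : ℝ, |ε| * c < 1 → 0 < 1 + ε * w ∧
      (fun X => (((1 + ε * w)⁻¹ : ℝ) : ℂ) * (f X + ε * W X)) ∈ K := fun ε hε => by
    have e4 : 0 < 1 + ε * w := by
      linarith [neg_abs_le (ε * w), abs_mul ε w, mul_le_mul_of_nonneg_left h7 (abs_nonneg ε)]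
    refine ⟨e4, ⟨fun X Y => ?_, fun a X => ?_, fun i X => ?_⟩, ?_, fun μ m Z s s' R hB => ?_⟩
    · simp only [hf.1.1, h4.1]
      ring
    · simp only [hf.1.2.1, h4.2, smul_eq_mul]
      ring
    · simp only [hf.1.2.2, h0, map_mul, map_add, Complex.conj_ofReal]
    · simp only [hf.2.1, hw]
      exact_mod_cast inv_mul_cancel₀ e4.ne'
    · have e5 := h6 μ m Z s s' R hB
      have e6 := hf.2.2 μ m Z s s' R hB
      simp only [e1] at e5
      simp only [← Finset.mul_sum, Finset.sum_add_distrib, Complex.re_ofReal_mul, Complex.add_re]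
      refine mul_nonneg (inv_pos.2 e4).le ?_
      nlinarith [neg_abs_le (ε * (∑ j, W (Z j)).re), abs_mul ε (∑ j, W (Z j)).re,
        mul_le_mul_of_nonneg_left e5 (abs_nonneg ε)]
  have c0 : 0 < c + 1 := by linarith [abs_nonneg w]
  have h9 : |(c + 1)⁻¹| * c < 1 := by
    rw [abs_of_pos (inv_pos.2 c0), inv_mul_lt_iff₀ c0]
    linarith
  obtain ⟨ε, ε0, h9⟩ : ∃ ε : ℝ, ε ≠ 0 ∧ |ε| * c < 1 := ⟨_, (inv_pos.2 c0).ne', h9⟩
  obtain ⟨p1, p2⟩ := h8 ε h9
  obtain ⟨q1, q2⟩ := h8 (-ε) (by rwa [abs_neg])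
  have := congrFun (h3 p2 q2 ⟨(1 + ε * w) / 2, (1 + -ε * w) / 2, by positivity, by positivity,
    by ring, funext fun X => ?_⟩) X
  · rw [Complex.ofReal_inv, inv_mul_eq_iff_eq_mul₀ (Complex.ofReal_ne_zero.2 p1.ne')] at this
    refine mul_left_cancel₀ (Complex.ofReal_ne_zero.2 ε0) ?_
    rw [hw, e1]
    push_cast at this
    linear_combination this
  · simp only [Pi.add_apply, Pi.smul_apply, Complex.real_smul, ← mul_assoc, ← Complex.ofReal_mul,
      div_mul_eq_mul_div, mul_inv_cancel₀ p1.ne', mul_inv_cancel₀ q1.ne']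
    push_cast
    ring

variable {H : Fin 4 → Type} [∀ ν, NormedAddCommGroup (H ν)] [∀ ν, InnerProductSpace ℂ (H ν)]
  [∀ ν, CompleteSpace (H ν)] {r : ∀ ν, net.Rep W ν (H ν)} {Y : ℕ → Pol} {z : ∀ ν, H ν} {U : Pol}
  {R : ℝ}

theorem lim_far (h : Net.Avg r U R Y z) (hS : net.St W) (h1 : net.Θ ν U = U) (u : R4) :
    Tendsto (fun k => W (net.τ u U * Y k)) atTop (𝓝 ((‖z ν‖ : ℂ) ^ 2)) := by
  have e : net.τ (-rf ν (u + ax ν R)) (net.Θ ν (net.τ u U)) = net.τ (ax ν R) U := by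
    rw [net.Θ_τ, h1, net.τ_τ, ← rfL_eq, map_add, rfL_eq, neg_add_rev, neg_rf_ax,
      neg_add_cancel_right]
  have e2 := h.inner_inv hS (ν := ν) (v := ax ν R) (fun _ => h.inv) (by simp)
  rw [inner_self_eq_norm_sq_to_K] at e2
  refine (e2 ▸ tendsto_const_nhds.inner (h.lim (-(u + ax ν R)) ν)).congr'
    ((h.far (-(u + ax ν R)) 0).mono fun k e' => ?_)
  rw [← e]
  exact ((r ν).shift hS (e ▸ Net.τ_hs (Net.bx_hs h.box ν) (by simp))
    (net.mono e' (Ot.hs ν le_rfl))).symm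

theorem anti (h : Net.Avg r U R Y z) (hS : net.St W) (hH : ∀ n ≠ 0, Hm W (rn n)) (n0 : n ≠ 0)
    (hn : ∀ l, 0 ≤ n l) (h1 : net.Θ ν U = U) (h2 : Th (rn n) U = -U) : z ν = 0 := by
  by_contra h3
  obtain ⟨g, g1, g2, g3⟩ := exists_frame hS hH n
  have n1 := norm_pos_iff.2 n0
  have g4 : g * rfL 0 * g⁻¹ = rn n := by
    rw [← g3, ← rn_ax 0 n1.ne', ← rn_conj, mul_inv_cancel_right]
  have g5 : ∀ (v : R4) (t : ℝ), 0 ≤ t → (∀ l, t ≤ v l) → t ≤ g⁻¹ v 0 := fun v t t0 hv => by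
    have e1 : inner ℝ n v = ‖n‖ * g⁻¹ v 0 := by
      conv_lhs => rw [← g3, ← g.apply_symm_apply v, g.inner_map_map]
      simp [EuclideanSpace.inner_single_left]
    have e2 : ‖n‖ ≤ ∑ l, n l := by
      rw [EuclideanSpace.norm_eq]
      refine Real.sqrt_le_iff.2 ⟨Finset.sum_nonneg fun l _ => hn l, ?_⟩
      simp only [Real.norm_eq_abs, sq_abs]
      exact Finset.sum_sq_le_sq_sum_of_nonneg fun l _ => hn l
    refine le_of_mul_le_mul_left ((mul_le_mul_of_nonneg_right e2 t0).trans ?_) n1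
    rw [← e1, Finset.sum_mul, PiLp.inner_apply]
    refine Finset.sum_le_sum fun l _ => ?_
    simpa [mul_comm] using mul_le_mul_of_nonneg_left (hv l) (hn l)
  obtain ⟨R', b1, b2⟩ := ((Net.box (act_adm g⁻¹ h.box)).and (eventually_ge_atTop 0)).exists
  replace b1 := Net.τ_hs (μ := 0) (t' := 0) (v := ax 0 R')
    (Net.bx_hs (net.mono b1 inter_subset_right) 0) (by simp)
  have b3 : ∀ {t X}, R' ≤ t → net.Cv U t X → act g⁻¹ X ∈ net.loc (Hs 0 0) ∧
      ‖(r 0).Ψ (act g⁻¹ X)‖ ≤ ‖(r 0).Ψ (net.τ (ax 0 R') (act g⁻¹ U))‖ := fun {t X} ht hX => by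
    induction hX with
    | base v hv =>
      have e : 0 ≤ (g⁻¹ v - ax 0 R') 0 := by
        simpa using ht.trans (g5 v t (b2.trans ht) hv)
      rw [act_τ, ← sub_add_cancel (g⁻¹ v) (ax 0 R'), ← net.τ_τ]
      exact ⟨Net.τ_hs b1 (by linarith), (r 0).le e b1⟩
    | mid _ _ e e' =>
      simp only [map_smul, map_add]
      refine ⟨Submodule.smul_mem _ _ (Submodule.add_mem _ e.1 e'.1), ?_⟩
      rw [norm_smul, norm_inv, Complex.norm_two]
      linarith [(norm_add_le _ _).trans (add_le_add e.2 e'.2)]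
  have b4 := (tendsto_natCast_atTop_atTop.eventually_ge_atTop R').mono fun k e => b3 e (h.hull k)
  have b5 : ∀ {t X}, net.Cv U t X →
      Tendsto (fun k => W (Th (rn n) X * Y k)) atTop (𝓝 (-(‖z ν‖ : ℂ) ^ 2)) := fun {t X} hX => by
    induction hX with
    | base v hv => simpa only [Th_τ, h2, map_neg, neg_mul] using (lim_far h hS h1 (rn n v)).neg
    | mid _ _ e e' =>
      convert (e.add e').const_mul (2⁻¹ : ℂ) using 2
      · simp [Th_smul, add_mul, mul_add, map_ofNat]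
      · ring
  refine psd_lim (F := fun x y => (W (net.Θ 0 x * y)).re) (net.loc (Hs 0 0)).toAddSubgroup
    (G := atTop.map fun k => act g⁻¹ (Y k)) (δ := ‖z ν‖ ^ 2)
    (C := ‖(r 0).Ψ (net.τ (ax 0 R') (act g⁻¹ U))‖ ^ 2)
    (fun _ _ _ => by simp only [map_add, add_mul, Complex.add_re])
    (fun _ _ _ => by simp only [map_add, mul_add, Complex.add_re])
    (fun _ e => hS.pos 0 e) (eventually_map.2 (b4.mono fun k e => ⟨e.1, ((r 0).nq e.1).trans_le
      (pow_le_pow_left₀ (norm_nonneg _) e.2 2)⟩)) (by positivity)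
    (eventually_map.2 (b4.mono fun j e => eventually_map.2 ?_))
  have b6 := (Complex.continuous_re.tendsto _).comp (b5 (h.hull j))
  filter_upwards [b4, b6.eventually (gt_mem_nhds (a := -(‖z ν‖ ^ 2 / 2)) (by
    norm_cast
    have : 0 < ‖z ν‖ ^ 2 := by positivity
    linarith))] with k e1 e2
  have e3 : W (net.Θ 0 (act g⁻¹ (Y j)) * act g⁻¹ (Y k)) = W (Th (rn n) (Y j) * Y k) := by
    rw [← g1 _ (Net.rp_adm e.1 e1.1), map_mul, act_act, mul_inv_cancel, act_one, Θ_eq, act_Th,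
      Th_act, g4]
  have e4 := hS.herm 0 (Net.rp_adm e.1 e1.1)
  rw [map_mul, net.Θ_Θ, mul_comm] at e4
  rw [e4, Complex.conj_re, e3]
  linarith [show (W (Th (rn n) (Y j) * Y k)).re < _ from e2]

theorem gd_rn (h : Net.Avg r U R Y z) (hS : net.St W) (hH : ∀ n ≠ 0, Hm W (rn n)) (hn : Dir n)
    (hΘ : ∀ μ, net.Θ μ U = U) : Net.Gd r Y z (Th (rn n)) := by
  obtain ⟨n0, n1, ν, n2⟩ := hn
  have c1 : ∀ X, net.Θ ν (Th (rn n) X) = Th (rn n) (net.Θ ν X) := fun X => by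
    rw [Θ_eq, Th_Th, Th_Th, ← rn_conj, rf_fix n2]
  have c2 : ∀ {X}, X ∈ net.loc (Hs ν 0) → Th (rn n) X ∈ net.loc (Hs ν 0) := fun e =>
    net.mono (Th_mem _ e) fun y hy => (show (0 : ℝ) < _ from hy).trans_eq (rn_fix n2 y)
  obtain ⟨R', b1, b2⟩ := ((Net.box (Submodule.sub_mem _ (Net.adm h.box)
    (Th_adm (rn n) h.box))).and (eventually_ge_atTop 0)).exists
  obtain ⟨Y', z', h'⟩ := Net.exists_avg r (net.mono b1 inter_subset_right) b2
  have b3 := anti h' hS hH n0 n1 (ν := ν) (by rw [map_sub, c1, hΘ]) (by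
    rw [map_sub, Th_Th, rn_mul, act_one, neg_sub])
  refine ⟨ν, fun u => ?_⟩
  have e : ∀ X, net.τ u (Th (rn n) X) = Th (rn n) (net.τ (rn n u) X) := fun X => by
    rw [Th_τ, rn_rn]
  generalize rn n u = w at e
  have h1 := (h.far w 0).mono fun _ e => net.mono e (Ot.hs ν le_rfl)
  simp only [e]
  refine ⟨h1.mono fun _ => c2, tendsto_iff_norm_sub_tendsto_zero.2 ?_⟩
  have h2 := (((h.lim w ν).norm.pow 2).sub_const (‖z ν‖ ^ 2)).sqrt
  rw [sub_self, Real.sqrt_zero] at h2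
  refine h2.congr' ?_
  filter_upwards [h1, tendsto_natCast_atTop_atTop.eventually_ge_atTop (R - w ν),
    tendsto_natCast_atTop_atTop.eventually_ge_atTop (R' - w ν)] with k h3 hk hk'
  have h4 : inner ℂ ((r ν).Ψ (Th (rn n) (net.τ w (Y k)))) (z ν) = inner ℂ (z ν) (z ν) := by
    refine (h.hull k).const (φ := fun X => inner ℂ ((r ν).Ψ (Th (rn n) (net.τ w X))) (z ν))
      (fun X Y => ?_) fun v hv => ?_
    · simp [Th_smul, mul_add, mul_comm]
    · have e1 : w ν + k ≤ rn n (w + v) ν := by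
        rw [rn_fix n2, PiLp.add_apply]
        linarith [hv ν]
      have e2 := h'.inner_inv hS (fun _ => h.inv) (v := rn n (w + v)) (ν := ν) (by linarith)
      rw [b3, inner_zero_left, map_sub, map_sub, inner_sub_left, sub_eq_zero] at e2
      rw [net.τ_τ, Th_τ, ← e2]
      exact h.inner_inv hS (fun _ => h.inv) (by linarith)
  rw [← Real.sqrt_sq (norm_nonneg (_ - _)), norm_sub_sq (𝕜 := ℂ), h4, inner_self_eq_norm_sq,
    ← (r ν).nq h3, ← (r ν).nq (c2 h3), Net.nq, Net.nq, c1, ← map_mul,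
    hH n n0 _ (Net.rp_adm h3 h3), Complex.conj_re]
  congr 1
  ring

end PI

open PI Net in
theorem pure_rot {S : Pol →ₗ[ℂ] ℂ} (hS : net.St S) (hA : ∀ X ∈ net.loc univ, ∃ R c, net.QB S X R c)
    (hR : Rot S) : ∃ W : Pol →ₗ[ℂ] ℂ, W 1 = 1 ∧ net.Dom S W ∧ Vac W ∧ Rot W := by
  obtain ⟨S', h1, h2, h0, h3⟩ := PI.exists_ext (N := net) (fun (n : {n // Dir n}) X =>
    ⟨Th (rn n) X, Th_adm _ X.2⟩) hS hA fun n X => hm_of_rot hS hR n.2.1 X X.2
  replace hS := h2.st hS h1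
  have hH : ∀ n ≠ 0, Hm S' (rn n) := fun n =>
    hm_all hS fun n hn X hX => h0 ⟨n, hn⟩ ⟨X, hX⟩
  refine ⟨S', h1, h2, fun H _ _ _ r x hx => ?_, rot_iff.2 fun g hg =>
    (rot_of hH g).elim (·.2) fun e => absurd (hg ▸ e.1) (by norm_num)⟩
  replace hA : ∀ X ∈ net.loc univ, ∃ R c, net.QB S' X R c := fun X hX =>
    (hA X hX).imp fun _ e => e.imp fun _ => h2.qb
  have ext : ∀ {x y : H 0}, (∀ X ∈ net.loc (Hs 0 0),
      inner ℂ ((r 0).Ψ X) x = inner ℂ ((r 0).Ψ X) y) → x = y := fun {x y} e =>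
    ext_inner_left ℂ fun u => (r 0).dense.induction_on
        (p := fun u => inner ℂ u x = inner ℂ u y) u (isClosed_eq (by fun_prop) (by fun_prop))
        fun X => e X X.2
  have key := sym_induction (N := net) (p := fun X => ∀ᶠ t in atTop,
    inner ℂ ((r 0).Ψ (net.τ (ax 0 t) X)) x = conj (S' X) * inner ℂ ((r 0).Ψ 1) x)
    (fun c X e => e.mono fun t e => by
      rw [map_smul, map_smul, inner_smul_left, e, map_smul, smul_eq_mul, map_mul, mul_assoc])
    (fun X Y e e' => (e.and e').mono fun t e => by simp [e.1, e.2, add_mul])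
    (fun U hU hΘ => ?_) fun U hU μ e e' => ?_
  · refine ext fun X hX => ?_
    obtain ⟨t, e1, e2⟩ := ((key X (adm hX)).and (eventually_ge_atTop 0)).exists
    have e3 : 0 ≤ ax 0 t 0 := by simpa
    rw [← (r 0).act e3 hX, (r 0).adj hS e3, hx _ (by simpa)] at e1
    rw [e1, inner_smul_right, ← (r 0).vac hX, inner_conj_symm, mul_comm]
  · obtain ⟨R, c, hQ⟩ := hA U hU
    obtain ⟨Y, z, h⟩ := exists_avg r hQ.1 hQ.2.1
    have e1 : ∀ Z ∈ net.loc univ, Tendsto (fun n => S' (Z * Y n)) atTop (𝓝 (WW S' Y 1 Z)) :=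
      fun Z hZ => by simpa [net.τ_zero, WW] using h.limA hS hQ hΘ hA 0 _ (h.gd_tau 0) Z hZ
    have e2 : ∀ X ∈ net.loc (Hs 0 0), inner ℂ ((r 0).Ψ X) (z 0) = WW S' Y 1 (net.Θ 0 X) :=
      fun X hX => tendsto_nhds_unique_of_eventuallyEq (tendsto_const_nhds.inner (h.lim0 0))
        (e1 _ (Θ_adm 0 hX)) ((h.far0 0).mono fun n e => (r 0).inn hX e)
    have e3 : WW S' Y 1 1 = S' U := by rw [← h.vac hS 0, e2 1 (net.one _), map_one]
    have e4 := h3 (fun X => WW S' Y 1 X) c ⟨fun X X' => tendsto_nhds_unique (e1 _ (X + X').2) (by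
      simpa [add_mul] using (e1 _ X.2).add (e1 _ X'.2)), fun a X => tendsto_nhds_unique
        (e1 _ (a • X).2) (by simpa using (e1 _ X.2).const_mul a)⟩ (fun n X => by
      have g1 := gd_rn h hS hH n.2 hΘ
      refine tendsto_nhds_unique_of_eventuallyEq (e1 _ (Th_adm _ X.2))
        ((Complex.continuous_conj.tendsto _).comp (h.limA hS hQ hΘ hA 0 _ g1 X X.2))
        ((g1.adm X.2).mono fun k e => ?_)
      have := hH n n.2.1 _ e
      rwa [map_mul, Th_Th, rn_mul, act_one] at this) (by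
      rw [e3, ← Complex.conj_eq_iff_im, ← hS.herm 0 hU, hΘ])
      fun μ m Z s s' R hB => h.tilt hS hQ hΘ hA h2 μ m _ s s' R (fun j => (Z j).2) hB
    have e5 : z 0 = S' U • (r 0).Ψ 1 := ext fun X hX => by
      rw [e2 X hX, inner_smul_right, (r 0).inn hX (net.one _), mul_one, ← e3]
      exact e4 ⟨_, Θ_adm 0 hX⟩
    filter_upwards [eventually_ge_atTop R] with t ht
    rw [h.inner_inv hS hx (by simpa), e5, inner_smul_left]
  · obtain ⟨R, c, hQ⟩ := hA U hU
    obtain ⟨Y, z, h⟩ := exists_avg r hQ.1 hQ.2.1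
    filter_upwards [eventually_ge_atTop R] with t ht
    rw [h.inner_inv hS hx (by simpa), ← h.vac hS 0, h.anti hS e e']
    simp

end Pool.Agent.Lib.MP_7f377f_mp.Lg
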