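import Pool.Agent.Lib.MP_7f377f_mp.LgML

/-! The kernel theorem applied to the fields smeared inside a fixed frame. -/

noncomputable section

namespace Pool.Agent.Lib.MP_7f377f_mp.Lg

open MeasureTheory Filter Topology Set Real YM7 Pur Pur.PN MvPolynomial
open scoped NNReal ContDiff

namespace FR

variable {n : ℕ} {W : Pol →ₗ[ℂ] ℂ} {O : Set R4}

/-- real or imaginary part -/
def pt (b : Bool) (u : R4 → ℂ) (y : R4) : ℝ := if b then (u y).im else (u y).re

/-- both parts are test functions supported in `O` -/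
def Gc (O : Set R4) (u : R4 → ℂ) : Prop := ∀ b, Gd O (pt b u)

theorem monC_eq (g : Fin n → R4 → ℂ) : monC g = ∑ s : Fin n → Bool,
    (∏ i, if s i then Complex.I else 1) • mon fun i => pt (s i) (g i) := by
  have e : ∀ i, X (fun y => (g i y).re) + Complex.I • X (fun y => (g i y).im) =
      ∑ b : Bool, (if b then Complex.I else 1) • (X (pt b (g i)) : Pol) := fun i => by
    rw [Fintype.sum_bool, add_comm]
    simp only [if_true, Bool.false_eq_true, if_false, one_smul]
    rfl
  simp only [monC, e, Finset.prod_univ_sum, Fintype.piFinset_univ, mon, Finset.prod_smul]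

theorem adm_pt {g : Fin n → R4 → ℂ} {U : Fin n → Set R4}
    (hU : Pairwise fun i j => Disjoint (U i) (U j)) (hg : ∀ i, Gc (U i) (g i))
    (s : Fin n → Bool) : Adm fun i => pt (s i) (g i) :=
  ⟨fun i => ⟨(hg i _).1, (hg i _).2.1⟩, fun i j e => (hU e).mono (hg i _).2.2 (hg j _).2.2⟩

theorem monC_mem {g : Fin n → R4 → ℂ} {U : Fin n → Set R4}
    (hU : Pairwise fun i j => Disjoint (U i) (U j)) (hg : ∀ i, Gc (U i) (g i))
    (h : ∀ i, U i ⊆ O) : monC g ∈ net.loc O := by
  rw [monC_eq]
  exact Submodule.sum_mem _ fun s _ => Submodule.smul_mem _ _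
    (mon_mem (adm_pt hU hg s) fun i => (hg i _).2.2.trans (h i))

theorem lin2 (hL : LinP W) {u u' : R4 → ℝ} (h : Gd O u) (h' : Gd O u') (c : ℝ) {Z : Pol}
    (hZ : Z ∈ net.loc Oᶜ) : W (X (u + c • u') * Z) = W (X u * Z) + c * W (X u' * Z) :=
  hL _ _ c h.1 h.2.1 h'.1 h'.2.1 Z
    (net.mono hZ (compl_subset_compl.2 (union_subset h.2.2 h'.2.2)))

theorem slot (hL : LinP W) {u u' : R4 → ℂ} (h : Gc O u) (h' : Gc O u') (c : ℂ) {Z : Pol}
    (hZ : Z ∈ net.loc Oᶜ) :
    W ((X (pt false (u + c • u')) + Complex.I • X (pt true (u + c • u'))) * Z) =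
      W ((X (pt false u) + Complex.I • X (pt true u)) * Z) +
        c * W ((X (pt false u') + Complex.I • X (pt true u')) * Z) := by
  have e1 : pt false (u + c • u') = pt false u + c.re • pt false u' + (-c.im) • pt true u' := by
    funext y
    simp [pt]
    ring
  have e2 : pt true (u + c • u') = pt true u + c.re • pt true u' + c.im • pt false u' := by
    funext y
    simp [pt]
    ring
  simp only [add_mul, smul_mul_assoc, map_add, map_smul, smul_eq_mul]
  rw [e1, e2, lin2 hL ((h _).comb (h' _) _) (h' _) _ hZ, lin2 hL (h _) (h' _) _ hZ,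
    lin2 hL ((h _).comb (h' _) _) (h' _) _ hZ, lin2 hL (h _) (h' _) _ hZ]
  conv_rhs => rw [← Complex.re_add_im c]
  push_cast
  linear_combination (-(c.im : ℂ) * W (X (pt true u') * Z)) * Complex.I_mul_I

variable {om : R4 → ℝ} {h : R4 → ℂ}

theorem pt_zero {b : Bool} {y : R4} (e : pt b (fun y => om y * h y) y ≠ 0) : om y ≠ 0 := fun e' =>
  e (by cases b <;> simp [pt, e'])

theorem gc_mul (h1 : HasCompactSupport om) (h2 : ContDiff ℝ 1 om) (h3 : ContDiff ℝ ∞ h) :
    Gc (tsupport om) fun y => om y * h y := fun b => by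
  have s : Function.support (pt b fun y => om y * h y) ⊆ Function.support om :=
    fun y => pt_zero
  have d : ContDiff ℝ 1 fun y => (om y : ℂ) * h y :=
    (Complex.ofRealCLM.contDiff.comp h2).mul (h3.of_le (by exact_mod_cast le_top))
  refine ⟨h1.mono s, ?_, closure_mono s⟩
  cases b
  · exact Complex.reCLM.contDiff.comp d
  · exact Complex.imCLM.contDiff.comp d

theorem lip_mul {Λ M : ℝ} (h1 : Cl 1 Λ om) (h2 : ContDiff ℝ ∞ h) (Λ0 : 0 ≤ Λ) (M0 : 0 ≤ M)
    (h3 : ∀ l ≤ 1, ∀ x ∈ tsupport om, ‖iteratedFDeriv ℝ l h x‖ ≤ M) (b : Bool) :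
    LipschitzWith ((1 + Λ) * M).toNNReal (pt b fun y => om y * h y) := by
  have d1 : Differentiable ℝ om := h1.1.differentiable (by simp)
  have d2 : Differentiable ℝ h := h2.differentiable (by simp)
  have k : LipschitzWith ((1 + Λ) * M).toNNReal fun y => om y • h y := by
    refine lipschitzWith_of_nnnorm_fderiv_le (d1.smul d2) fun x => ?_
    rw [← NNReal.coe_le_coe, coe_nnnorm, Real.coe_toNNReal _ (by positivity)]
    by_cases hx : x ∈ tsupport om
    · have a0 := h3 0 zero_le_one x hx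
      have a1 := h3 1 le_rfl x hx
      have a2 := h1.2.2 1 le_rfl x
      rw [norm_iteratedFDeriv_zero] at a0
      rw [norm_iteratedFDeriv_one] at a1 a2
      rw [pow_one] at a2
      rw [fderiv_fun_smul (d1 x) (d2 x)]
      refine (norm_add_le _ _).trans ?_
      rw [norm_smul, ContinuousLinearMap.norm_smulRight_apply, Real.norm_of_nonneg (h1.2.1 x).1,
        add_mul]
      gcongr
      exact (h1.2.1 x).2
    · rw [fderiv_of_notMem_tsupport ℝ fun e => hx (tsupport_smul_subset_left om h e), norm_zero]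
      positivity
  refine LipschitzWith.of_dist_le_mul fun x y => le_trans ?_ (k.dist_le_mul x y)
  rw [Real.dist_eq, dist_eq_norm]
  simp only [Complex.real_smul]
  cases b
  · exact (Complex.abs_re_le_norm (om x * h x - om y * h y))
  · exact (Complex.abs_im_le_norm (om x * h x - om y * h y))

theorem monC_real (hL : LinP W) {f : Fin n → R4 → ℝ} (hf : Adm f) :
    W (monC fun i y => f i y) = W (mon f) := by
  have a : ∀ s : Fin n → Bool, Adm fun i => pt (s i) fun y => (f i y : ℂ) :=
    adm_pt hf.2 fun i => by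
      simpa using gc_mul (h := fun _ => 1) (hf.1 i).1 (hf.1 i).2 contDiff_const
  rw [monC_eq, map_sum, Finset.sum_eq_single (fun _ => false) ?_ (by simp)]
  · simp only [Bool.false_eq_true, if_false, Finset.prod_const_one, one_smul]
    rfl
  intro s _ hs
  obtain ⟨i, hi⟩ := Function.ne_iff.1 hs
  obtain ⟨k, rfl⟩ : ∃ k, n = k + 1 := ⟨n - 1, by have := i.pos; omega⟩
  have z : (pt (s i) fun y => (f i y : ℂ)) = 0 := by
    funext y
    simp [pt, hi]
  have m : mon (fun j => pt (s (i.succAbove j)) fun y => (f (i.succAbove j) y : ℂ)) ∈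
      net.loc (∅ : Set R4)ᶜ := mon_mem ⟨fun j => (a s).1 _, fun j l e =>
        (a s).2 (Fin.succAbove_right_injective.ne e)⟩ fun j => by simp
  have := lin2 hL (Gd.zero ∅) (Gd.zero ∅) 1 m
  rw [smul_zero, add_zero, left_eq_add, Complex.ofReal_one, one_mul] at this
  rw [map_smul, mon, Fin.prod_univ_succAbove (fun j => X (pt (s j) fun y => (f j y : ℂ))) i, z,
    ← mon, this, smul_zero]

end FR

open FR

theorem frame : ∃ C : ℝ, 0 ≤ C ∧ ∀ (W : Pol →ₗ[ℂ] ℂ) (n : ℕ) (om : Fin n → R4 → ℝ) (A Λ : ℝ), LinP W →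
    Adm om → (∀ i, Cl 1 Λ (om i)) → 0 ≤ A → 0 ≤ Λ → (∀ f (L : Fin n → ℝ≥0), Adm f →
      (∀ i, LipschitzWith (L i) (f i) ∧ ∀ y, f i y ≠ 0 → om i y ≠ 0) → ‖W (mon f)‖ ≤ A * ∏ i, L i) →
    ∃ T : Sw n →L[ℂ] ℂ, (∀ F, ‖T F‖ ≤ A * (C * (1 + Λ)) ^ n * dI (6 * n) F) ∧
      ∀ f F, Ten f F → T F = W (mon fun i y => om i y * f i y) := by
  obtain ⟨C, C0, hC⟩ := kernel
  refine ⟨2 * C, by positivity, fun W n om A Λ hL ha hc A0 Λ0 hb => ?_⟩
  have g : ∀ i {h : R4 → ℂ}, ContDiff ℝ ∞ h → Gc (tsupport (om i)) fun y => om i y * h y :=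
    fun i _ => gc_mul (ha.1 i).1 (ha.1 i).2
  refine (hC n (⋃ i, tsupport (om i)) (A * (2 * (1 + Λ)) ^ n)
    (fun h => W (monC fun i y => om i y * h i y)) (isCompact_iUnion fun i => (ha.1 i).1)
    (by positivity) (fun h i u u' c h1 h2 h3 => ?_) fun h M hM => ?_).imp
      fun T ⟨t1, t2⟩ => ?_
  rotate_right
  · refine ⟨fun F => (t1 F).trans_eq ?_, fun f F hF => ?_⟩
    · rw [mul_assoc A, ← mul_pow, mul_right_comm 2]
    · rw [t2 f F hF, ← monC_real hL]
      · simp only [Complex.ofReal_mul]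
      · exact ⟨fun i => ⟨(ha.1 i).1.mul_right, (ha.1 i).2.mul
          ((hF.1 i).2.of_le (by exact_mod_cast le_top))⟩, fun i j e =>
            (ha.2 e).mono tsupport_mul_subset_left tsupport_mul_subset_left⟩
  · obtain ⟨k, rfl⟩ : ∃ k, n = k + 1 := ⟨n - 1, by have := i.pos; omega⟩
    have e : ∀ v : R4 → ℂ, monC (fun j y => om j y * Function.update h i v j y) =
        (X (pt false fun y => om i y * v y) + Complex.I • X (pt true fun y => om i y * v y)) *
          monC fun j y => om (i.succAbove j) y * h (i.succAbove j) y := fun v => by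
      simp only [monC, Fin.prod_univ_succAbove _ i, Function.update_self,
        Function.update_of_ne (Fin.succAbove_ne i _)]
      rfl
    have e' : (fun y => om i y * (u + c • u') y) =
        (fun y => om i y * u y) + c • fun y => om i y * u' y := by
      funext y
      simp only [Pi.add_apply, Pi.smul_apply, smul_eq_mul]
      ring
    simp only [e]
    rw [e']
    exact slot hL (g i h2) (g i h3) c (monC_mem (fun j l e =>
      ha.2 (Fin.succAbove_right_injective.ne e)) (fun j => g _ (h1 _)) fun j =>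
        (ha.2 (Fin.succAbove_ne i j)).subset_compl_right)
  · rw [monC_eq, map_sum]
    refine (norm_sum_le_of_le _ (n := fun _ => A * ∏ j, (1 + Λ) * M j) fun s _ => ?_).trans_eq ?_
    · have b := hb _ (fun j => ((1 + Λ) * M j).toNNReal) (adm_pt ha.2 (fun j => g j (hM j).1) s)
        fun j => ⟨lip_mul (hc j) (hM j).1 Λ0 (hM j).2.1 (fun l hl x hx => (hM j).2.2 l hl x
          (mem_iUnion.2 ⟨j, hx⟩)) _, fun y => pt_zero⟩
      have e : ‖∏ i, if s i then Complex.I else 1‖ = 1 := by
        rw [norm_prod]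
        exact Finset.prod_eq_one fun i _ => by split_ifs <;> simp
      rw [map_smul, norm_smul, e, one_mul]
      refine b.trans_eq (congrArg _ ?_)
      rw [NNReal.coe_prod]
      exact Finset.prod_congr rfl fun j _ =>
        Real.coe_toNNReal _ (mul_nonneg (by positivity) (hM j).2.1)
    · simp only [Finset.sum_const, Finset.card_univ, Fintype.card_pi, Fintype.card_bool,
        Finset.prod_const, Fintype.card_fin, Finset.prod_mul_distrib, nsmul_eq_mul]
      rw [mul_pow]
      push_cast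
      ring

end Pool.Agent.Lib.MP_7f377f_mp.Lg
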