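import Pool.Agent.Lib.MP_7f377f_mp.YM14Defs
import Pool.Agent.Lib.MP_7f377f_mp.LgAbs

/-! The axioms in pointwise form. -/

noncomputable section

namespace Pool.Agent.Lib.MP_7f377f_mp.Lg

open Filter Topology Set YM7 Pur
open scoped ContDiff ComplexOrder

theorem schwinger_of {G : Set (R4 → R4)} (hG : ∀ g ∈ G, ∃ e : R4 ≃ᵃⁱ[ℝ] R4, ⇑e = g) {D : Set R4}
    {W : Fp → ℂ} (h : ∃ T : ∀ k, Sw k →L[ℂ] ℂ, OSax G D T ∧
      ∀ k (f : Fin k → R4 → ℝ) (F : Sw k), Adm f → (∀ i, ContDiff ℝ ∞ (f i)) →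
        (∀ x, F x = ∏ i, (f i (x i) : ℂ)) → T k F = W (fld f)) :
    Schwinger (fun y : R4 => y 0) (fun y => WithLp.toLp 2 (Function.update y 0 (-y 0))) G D
      (fun _ => Adm) fun _ f => W (fld f) := by
  obtain ⟨T, ⟨h0, ⟨α, β, s, h1⟩, h2, h3, h4⟩, hT⟩ := h
  obtain ⟨U, hU⟩ : ∃ U : ∀ n, ((Fin n → R4) → ℂ) → ℂ, ∀ n (F : Sw n), U n F = T n F :=
    ⟨fun n => Function.extend (⇑) (T n) 0, fun n => DFunLike.coe_injective.extend_apply _ _⟩
  have hV : ∀ {n} {A : Set (Fin n → R4)} {F}, Van A F → ∃ G : Sw n, ⇑G = F ∧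
      ∀ x ∉ A, ∀ q, iteratedFDeriv ℝ q G x = 0 := fun ⟨⟨G, e⟩, e'⟩ =>
    ⟨G, e, fun x hx q => norm_eq_zero.1 (e ▸ e' x hx q)⟩
  refine ⟨U, fun n f f1 f2 => ?_, fun F => ?_, ⟨max α 0, β, s, fun n F hF => ?_⟩, fun n F hF => ?_,
    fun N F hF => ?_, fun n m F B hF hB a ha => ?_⟩
  · obtain ⟨F, -, e⟩ := LgD.exists_ten fun i => ⟨(f1.1 i).1, f2 i⟩
    rw [← funext e, hU]
    exact hT n f F f1 f2 e
  · obtain ⟨c, rfl⟩ : ∃ c, F = fun _ => c := ⟨F 0, funext fun x => congrArg F (Subsingleton.elim _ _)⟩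
    exact (hU 0 ((HasCompactSupport.of_compactSpace _).toSchwartzMap contDiff_const)).trans (h0 _)
  · obtain ⟨F, rfl, -⟩ := hV hF
    refine ⟨fun a G hG => ?_, fun M hM => ?_⟩
    · obtain ⟨G, rfl, -⟩ := hV hG
      rw [hU, hU, ← smul_eq_mul, ← map_smul, ← map_add, ← hU]
      rfl
    · have M0 : 0 ≤ M := le_trans (by positivity) (hM 0 (Nat.zero_le _) 0 (Nat.zero_le _) 0)
      have := nrm_nonneg (n * s) F
      rw [hU]
      refine (h1 n F).trans ?_
      gcongr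
      · exact le_max_left _ _
      · exact Seminorm.finset_sup_apply_le M0 fun i hi => SchwartzMap.seminorm_le_bound ℂ _ _ _ M0
          (hM _ (Finset.mem_Iic.1 hi).1 _ (Finset.mem_Iic.1 hi).2)
  · obtain ⟨F, rfl, e⟩ := hV hF
    refine ⟨fun g hg => ?_, fun σ => ?_⟩
    · obtain ⟨u, rfl⟩ := hG g hg
      let L : (Fin n → R4) ≃L[ℝ] Fin n → R4 :=
        .piCongrRight fun _ => u.linearIsometryEquiv.toContinuousLinearEquiv
      let C : Sw n →L[ℂ] Sw n := (SchwartzMap.compCLMOfContinuousLinearEquiv ℂ L).comp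
        (SchwartzMap.compSubConstCLM ℂ fun _ => -u 0)
      have hC : ∀ x, C F x = F (u ∘ x) := fun x => congrArg F (funext fun i => by
        have := u.map_vadd 0 (x i)
        simp only [vadd_eq_add, add_zero] at this
        rw [Function.comp, this, ← sub_neg_eq_add]
        rfl)
      rw [← funext hC, hU, hU]
      exact (h2 n F _ e).1 _ hg hC
    · rw [hU, ← (h2 n F (SchwartzMap.compCLMOfContinuousLinearEquiv ℂ
        (LinearEquiv.funCongrLeft ℝ R4 σ).toContinuousLinearEquiv F) e).2 σ fun _ => rfl, ← hU]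
      rfl
  · choose F' e e' using fun n => hV (hF n)
    refine (h3 N F' e').trans_eq (Finset.sum_congr rfl fun n _ => Finset.sum_congr rfl fun m _ => ?_)
    rw [← hU, ← e, ← e]
    refine congrArg _ (funext fun x => ?_)
    simp only [otim, sub_zero]
    rfl
  · obtain ⟨F, rfl, e⟩ := hV hF
    obtain ⟨B, rfl, e'⟩ := hV hB
    have := h4 n m F B e e' a ha
    simp only [← hU] at this
    exact this

theorem Inp.schwinger {W : Pol →ₗ[ℂ] ℂ} (h : Inp W) (hW : Vac W) :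
    Schwinger (fun y : R4 => y 0) (fun y => WithLp.toLp 2 (Function.update y 0 (-y 0)))
      (range fun v y => y + v) {a | 0 < a 0 ∧ ∀ μ, a μ ≠ 0} (fun _ => Adm) fun _ f => W (fld f) :=
  schwinger_of (by
    rintro _ ⟨v, rfl⟩
    exact ⟨AffineIsometryEquiv.vaddConst ℝ v, rfl⟩) (h.os_tr hW)

end Pool.Agent.Lib.MP_7f377f_mp.Lg
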