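import Pool.Agent.Lib.MP_7f377f_mp.LgDefs

/-! A smooth step function of Gevrey class. -/

noncomputable section

namespace Pool.Agent.Lib.MP_7f377f_mp.Lg

open Filter Topology Set
open scoped NNReal ContDiff Nat

namespace LgG1

open Polynomial in
theorem glue_aux (l : ℕ) : ∀ (k : ℕ) (x : ℝ), |iteratedDeriv l
    (fun x => x⁻¹ ^ k * expNegInvGlue x) x| ≤ (k + 2 * l + 1) ^ l * (k + 2 * l)! := by
  have sm : ∀ k : ℕ, ContDiff ℝ ∞ fun x : ℝ => x⁻¹ ^ k * expNegInvGlue x := fun k => by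
    simpa using expNegInvGlue.contDiff_polynomial_eval_inv_mul (n := ⊤) (X ^ k)
  induction l with
  | zero =>
    intro k x
    simp only [iteratedDeriv_zero, pow_zero, one_mul, mul_zero, add_zero]
    rcases le_or_gt x 0 with h | h
    · simp [expNegInvGlue.zero_of_nonpos h]
    · have h1 := Real.pow_div_factorial_le_exp x⁻¹ (inv_pos.2 h).le k
      rw [div_le_iff₀ (by positivity)] at h1
      rw [expNegInvGlue, if_neg h.not_ge, abs_of_nonneg (by positivity), Real.exp_neg,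
        ← div_eq_mul_inv, div_le_iff₀' (Real.exp_pos _)]
      exact h1
  | succ l ih =>
    intro k x
    have e : deriv (fun x : ℝ => x⁻¹ ^ k * expNegInvGlue x) = fun x =>
        x⁻¹ ^ (k + 2) * expNegInvGlue x - k * (x⁻¹ ^ (k + 1) * expNegInvGlue x) := by
      funext x
      have := (expNegInvGlue.hasDerivAt_polynomial_eval_inv_mul (X ^ k) x).deriv
      simp only [eval_pow, eval_X, eval_mul, eval_sub, derivative_X_pow, eval_C] at this
      rw [this]
      cases k with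
      | zero => simp
      | succ k => rw [Nat.add_sub_cancel]; ring
    have c : ∀ k : ℕ, ContDiffAt ℝ l (fun x : ℝ => x⁻¹ ^ k * expNegInvGlue x) x := fun k =>
      ((sm k).of_le (by exact_mod_cast le_top)).contDiffAt
    rw [iteratedDeriv_succ', e, iteratedDeriv_fun_sub (c _) (contDiffAt_const.mul (c _)),
      iteratedDeriv_const_mul _ (c _)]
    have h1 := ih (k + 2) x
    have h2 := (ih (k + 1) x).trans (show _ ≤ ((k + 2 : ℕ) + 2 * l + 1 : ℝ) ^ l * (k + 2 + 2 * l)! by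
      gcongr <;> omega)
    refine (abs_sub _ _).trans ?_
    rw [abs_mul, Nat.abs_cast, show k + 2 * (l + 1) = k + 2 + 2 * l by ring]
    push_cast at *
    calc _ ≤ (1 + k) * ((k + 2 + 2 * l + 1 : ℝ) ^ l * (k + 2 + 2 * l)!) := by
          rw [add_mul (1 : ℝ), one_mul]
          exact add_le_add h1 (mul_le_mul_of_nonneg_left h2 k.cast_nonneg)
      _ ≤ (k + 2 + 2 * l + 1) * ((k + 2 + 2 * l + 1 : ℝ) ^ l * (k + 2 + 2 * l)!) := by
          have : (0 : ℝ) ≤ l := l.cast_nonneg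
          exact mul_le_mul_of_nonneg_right (by linarith) (by positivity)
      _ = _ := by ring

theorem glue_le {i l : ℕ} (h : i ≤ l) (x : ℝ) :
    |iteratedDeriv i expNegInvGlue x| ≤ (8 * (l + 1) ^ 3) ^ i := by
  have h1 := glue_aux i 0 x
  simp only [pow_zero, one_mul, zero_add, Nat.cast_zero] at h1
  have h2 : (((2 * i)! : ℕ) : ℝ) ≤ (2 * i) ^ (2 * i) := by exact_mod_cast Nat.factorial_le_pow _
  have h3 : (i : ℝ) ≤ l := by exact_mod_cast h
  calc _ ≤ (2 * i + 1 : ℝ) ^ i * (2 * i) ^ (2 * i) := h1.trans (by gcongr)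
    _ ≤ (2 * (l + 1) : ℝ) ^ i * (2 * (l + 1)) ^ (2 * i) := by gcongr <;> linarith
    _ = _ := by rw [pow_mul, ← mul_pow]; ring

/-- the bump function -/
def bmp (u : ℝ) : ℝ := expNegInvGlue u * expNegInvGlue (1 - u)

theorem bmp_smooth : ContDiff ℝ ∞ bmp :=
  expNegInvGlue.contDiff.mul (expNegInvGlue.contDiff.comp (contDiff_const.sub contDiff_id))

theorem bmp_le (l : ℕ) (x : ℝ) : |iteratedDeriv l bmp x| ≤ (16 * (l + 1) ^ 3) ^ l := by
  have h := norm_iteratedFDeriv_mul_le (𝕜 := ℝ) (N := ∞) (g := fun u : ℝ => expNegInvGlue (1 - u))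
    expNegInvGlue.contDiff (expNegInvGlue.contDiff.comp (contDiff_const.sub contDiff_id)) x (n := l)
    (by exact_mod_cast le_top)
  simp only [norm_iteratedFDeriv_eq_norm_iteratedDeriv, Real.norm_eq_abs] at h
  refine h.trans ?_
  rw [show (16 * (l + 1) ^ 3 : ℝ) = 8 * (l + 1) ^ 3 + 8 * (l + 1) ^ 3 by ring, add_pow]
  refine Finset.sum_le_sum fun i hi => ?_
  rw [iteratedDeriv_comp_const_sub, mul_comm _ (l.choose i : ℝ), mul_assoc]
  simp only [smul_eq_mul, abs_mul, abs_pow, abs_neg, abs_one, one_pow, one_mul]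
  gcongr
  · exact glue_le (by simpa [Nat.lt_succ_iff] using hi) _
  · exact glue_le (Nat.sub_le _ _) _

end LgG1

open LgG1 in
theorem exists_step : ∃ s, Step s := by
  have c := bmp_smooth.continuous
  have I0 : 0 < ∫ u in (0 : ℝ)..1, bmp u :=
    intervalIntegral.intervalIntegral_pos_of_pos_on (c.intervalIntegrable _ _) (fun u hu =>
      mul_pos (expNegInvGlue.pos_of_pos hu.1) (expNegInvGlue.pos_of_pos (sub_pos.2 hu.2))) one_pos
  obtain ⟨I, hI⟩ : ∃ I, I = ∫ u in (0 : ℝ)..1, bmp u := ⟨_, rfl⟩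
  rw [← hI] at I0
  have hd : ∀ t, HasDerivAt (fun t => I⁻¹ * ∫ u in (0 : ℝ)..t, bmp u) (I⁻¹ * bmp t) t := fun t =>
    (c.integral_hasStrictDerivAt 0 t).hasDerivAt.const_mul _
  have e : deriv (fun t => I⁻¹ * ∫ u in (0 : ℝ)..t, bmp u) = fun t => I⁻¹ * bmp t :=
    funext fun t => (hd t).deriv
  have z0 : ∀ t ≤ 0, I⁻¹ * ∫ u in (0 : ℝ)..t, bmp u = 0 := fun t ht => by
    rw [intervalIntegral.integral_congr (g := fun _ => 0) fun u hu => by
      rw [uIcc_of_ge ht] at hu
      simp [bmp, expNegInvGlue.zero_of_nonpos hu.2]]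
    simp
  have z1 : ∀ t ≥ 1, I⁻¹ * ∫ u in (0 : ℝ)..t, bmp u = 1 := fun t ht => by
    rw [← intervalIntegral.integral_add_adjacent_intervals (b := 1) (c.intervalIntegrable _ _)
      (c.intervalIntegrable _ _), intervalIntegral.integral_congr (a := 1) (g := fun _ => 0)
      fun u hu => by
        rw [uIcc_of_le ht] at hu
        simp [bmp, expNegInvGlue.zero_of_nonpos (sub_nonpos.2 hu.1)], ← hI]
    simp [I0.ne']
  have mo : Monotone fun t => I⁻¹ * ∫ u in (0 : ℝ)..t, bmp u :=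
    monotone_of_deriv_nonneg (fun t => (hd t).differentiableAt) fun t => by
      rw [e]
      exact mul_nonneg (inv_pos.2 I0).le
        (mul_nonneg (expNegInvGlue.nonneg _) (expNegInvGlue.nonneg _))
  have bd : ∀ t, 0 ≤ I⁻¹ * ∫ u in (0 : ℝ)..t, bmp u ∧ I⁻¹ * ∫ u in (0 : ℝ)..t, bmp u ≤ 1 := fun t =>
    ⟨(z0 _ (min_le_right t 0)).ge.trans (mo (min_le_left _ _)),
      (mo (le_max_left t 1)).trans (z1 _ (le_max_right _ _)).le⟩
  refine ⟨_, contDiff_infty_iff_deriv.2 ⟨fun t => (hd t).differentiableAt,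
    e ▸ contDiff_const.mul bmp_smooth⟩, z0, z1, bd, 16 + I⁻¹, fun l t => ?_⟩
  cases l with
  | zero => simpa only [iteratedDeriv_zero, pow_zero, abs_of_nonneg (bd t).1] using (bd t).2
  | succ l =>
    have i0 := inv_pos.2 I0
    have l0 : (0 : ℝ) ≤ l := l.cast_nonneg
    rw [iteratedDeriv_succ', e, iteratedDeriv_const_mul _
      (bmp_smooth.of_le (by exact_mod_cast le_top)).contDiffAt, abs_mul, abs_of_pos i0, pow_succ']
    push_cast
    refine mul_le_mul ?_ ((bmp_le l t).trans ?_) (abs_nonneg _) (by positivity)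
    · exact (show I⁻¹ ≤ 16 + I⁻¹ by linarith).trans
        (le_mul_of_one_le_right (by positivity) (one_le_pow₀ (by linarith)))
    · gcongr <;> linarith

theorem st_step : Step st := Classical.epsilon_spec exists_step

end Pool.Agent.Lib.MP_7f377f_mp.Lg
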