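import Pool.Agent.Lib.MP_7f377f_mp.LgG1

/-! Calculus of the cutoff functions. -/

noncomputable section

namespace Pool.Agent.Lib.MP_7f377f_mp.Lg

open MeasureTheory Filter Topology Set Real YM7 Pur MvPolynomial
open scoped NNReal ContDiff Nat FourierTransform

variable {n m : ℕ}

section
variable {E E' : Type} [NormedAddCommGroup E] [NormedSpace ℝ E] [NormedAddCommGroup E']
  [NormedSpace ℝ E'] {r r' : ℝ} {g g' : E → ℝ}

theorem Cl.mono (h : Cl m r g) (r0 : 0 ≤ r) (e : r ≤ r') : Cl m r' g :=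
  ⟨h.1, h.2.1, fun l hl x => (h.2.2 l hl x).trans (pow_le_pow_left₀ r0 e l)⟩

theorem Cl.mul (h : Cl m r g) (h' : Cl m r' g') (r0 : 0 ≤ r) (_r1 : 0 ≤ r') :
    Cl m (r + r') fun x => g x * g' x := by
  refine ⟨h.1.mul h'.1, fun x => ⟨mul_nonneg (h.2.1 x).1 (h'.2.1 x).1,
    mul_le_one₀ (h.2.1 x).2 (h'.2.1 x).1 (h'.2.1 x).2⟩, fun l hl x => ?_⟩
  refine (norm_iteratedFDeriv_mul_le h.1 h'.1 x (by exact_mod_cast le_top)).trans ?_
  rw [add_pow]
  refine Finset.sum_le_sum fun i hi => ?_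
  have := Finset.mem_range.1 hi
  rw [mul_assoc, mul_comm]
  have h1 := h.2.2 i (by omega) x
  have h2 := h'.2.2 (l - i) (by omega) x
  gcongr

theorem Cl.lip (h : Cl 1 r g) : LipschitzWith r.toNNReal g :=
  lipschitzWith_of_nnnorm_fderiv_le (h.1.differentiable (by simp)) fun x => by
    have := h.2.2 1 le_rfl x
    rw [norm_iteratedFDeriv_one, pow_one] at this
    exact this.trans (le_coe_toNNReal r)

theorem mul_apply (h : ∀ m, ∃ r, Cl m r g) (F : SchwartzMap E ℂ) (x : E) :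
    mul g F x = g x * F x := by
  have h1 : g.HasTemperateGrowth := ⟨(h 0).choose_spec.1, fun l =>
    let ⟨r, hr⟩ := h l
    ⟨0, r ^ l, fun x => by simpa using hr.2.2 l le_rfl x⟩⟩
  exact SchwartzMap.smulLeftCLM_apply_apply (Function.Complex.hasTemperateGrowth_ofReal.comp h1) F x

theorem Cl.mul_le (h : Cl m r g) (r0 : 0 ≤ r) {F : E → ℂ} (hF : ContDiff ℝ ∞ F) {l : ℕ}
    (hl : l ≤ m) {x : E} {B : ℝ} (hB : ∀ a ≤ l, ‖iteratedFDeriv ℝ a F x‖ ≤ B) :
    ‖iteratedFDeriv ℝ l (fun y => g y * F y) x‖ ≤ (1 + r) ^ l * B := by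
  have B0 : 0 ≤ B := (norm_nonneg _).trans (hB 0 l.zero_le)
  simp only [← Complex.real_smul]
  refine (norm_iteratedFDeriv_smul_le h.1 hF x (by exact_mod_cast le_top)).trans ?_
  rw [add_comm 1, add_pow, Finset.sum_mul]
  refine Finset.sum_le_sum fun i hi => ?_
  have := Finset.mem_range.1 hi
  have h1 := h.2.2 i (by omega) x
  have h2 := hB (l - i) (by omega)
  rw [one_pow, mul_one, mul_comm (r ^ i)]
  gcongr

theorem taylor_le {F : E → ℂ} (hF : ContDiff ℝ ∞ F) {x y : E}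
    (hy : ∀ l, iteratedFDeriv ℝ l F y = 0) (a M : ℕ) {B : ℝ}
    (hB : ∀ z ∈ segment ℝ x y, ‖iteratedFDeriv ℝ (a + M) F z‖ ≤ B) :
    ‖iteratedFDeriv ℝ a F x‖ ≤ ‖x - y‖ ^ M * B := by
  suffices ∀ z ∈ segment ℝ x y, ‖iteratedFDeriv ℝ a F z‖ ≤ ‖x - y‖ ^ M * B from
    this x (left_mem_segment ..)
  induction M generalizing a with
  | zero => simpa using hB
  | succ M ih =>
    intro z hz
    have h1 := ih (a + 1) (by rwa [add_assoc, add_comm 1])
    have h2 := (convex_segment x y).norm_image_sub_le_of_norm_fderiv_le (𝕜 := ℝ)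
      (f := iteratedFDeriv ℝ a F) (fun u _ => hF.differentiable_iteratedFDeriv
        (by exact_mod_cast ENat.natCast_lt_top a) u)
      (fun u hu => norm_fderiv_iteratedFDeriv.trans_le (h1 u hu)) (right_mem_segment ..) hz
    rw [hy, sub_zero] at h2
    refine h2.trans ?_
    rw [pow_succ, mul_right_comm _ ‖x - y‖]
    exact mul_le_mul_of_nonneg_left (norm_sub_le_of_mem_segment (segment_symm ℝ x y ▸ hz))
      ((norm_nonneg _).trans (h1 x (left_mem_segment ..)))

namespace G2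

theorem one_sub (h : Cl m r g) : Cl m r fun x => 1 - g x := by
  refine ⟨contDiff_const.sub h.1, fun x => ⟨sub_nonneg.2 (h.2.1 x).2, sub_le_self _ (h.2.1 x).1⟩,
    fun l hl x => ?_⟩
  rcases eq_or_ne l 0 with rfl | e
  · rw [norm_iteratedFDeriv_zero, pow_zero, norm_of_nonneg (sub_nonneg.2 (h.2.1 x).2)]
    exact sub_le_self _ (h.2.1 x).1
  · rw [fun_iteratedFDeriv_sub_apply contDiffAt_const
      (h.1.of_le (by exact_mod_cast le_top)).contDiffAt,
      iteratedFDeriv_const_of_ne e, Pi.zero_apply, zero_sub, norm_neg]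
    exact h.2.2 l hl x

theorem one : Cl m 0 fun _ : E => (1 : ℝ) := by
  refine ⟨contDiff_const, fun _ => ⟨zero_le_one, le_rfl⟩, fun l _ x => ?_⟩
  rcases eq_or_ne l 0 with rfl | e
  · simp
  · simp [iteratedFDeriv_const_of_ne e]

theorem prod {ι : Type} (s : Finset ι) {g : ι → E → ℝ} (r0 : 0 ≤ r) (h : ∀ i ∈ s, Cl m r (g i)) :
    Cl m (s.card * r) fun x => ∏ i ∈ s, g i x := by
  classical
  induction s using Finset.induction_on with
  | empty => simpa using one
  | insert i s hi ih =>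
    simp only [Finset.prod_insert hi, Finset.card_insert_of_notMem hi]
    rw [Nat.cast_succ, add_mul, one_mul, add_comm]
    exact (h i (Finset.mem_insert_self ..)).mul
      (ih fun j hj => h j (Finset.mem_insert_of_mem hj)) r0 (by positivity)

theorem comp (h : Cl m r g) (r0 : 0 ≤ r) (A : E' →L[ℝ] E) (hA : ‖A‖ ≤ r') (b : E) :
    Cl m (r * r') fun x => g (A x + b) := by
  have h1 : ContDiff ℝ ∞ fun u => g (u + b) := h.1.comp (by fun_prop)
  refine ⟨h1.comp A.contDiff, fun x => h.2.1 _, fun l hl x => ?_⟩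
  refine (congrArg _ (A.iteratedFDeriv_comp_right h1 x (by exact_mod_cast le_top))).trans_le
    ((ContinuousMultilinearMap.norm_compContinuousLinearMap_le _ _).trans ?_)
  rw [iteratedFDeriv_comp_add_right, Finset.prod_const, Finset.card_univ, Fintype.card_fin, mul_pow]
  have := h.2.2 l hl (A x + b)
  gcongr

/-- scaled form for linear functionals given by a bound -/
theorem comp1 {g : ℝ → ℝ} (h : Cl m r g) (r0 : 0 ≤ r) (r1 : 0 ≤ r') (A : E' →L[ℝ] ℝ)
    (hA : ∀ x, |A x| ≤ r' * ‖x‖) (b : ℝ) {f : E' → ℝ} (hf : ∀ x, f x = A x + b) :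
    Cl m (r * r') fun x => g (f x) := by
  simp only [hf]
  exact comp h r0 A (A.opNorm_le_bound r1 hA) b

theorem cl_st : ∃ c : ℝ, 1 ≤ c ∧ ∀ m : ℕ, Cl m (c * (m + 1) ^ 3) st := by
  obtain ⟨h1, -, -, h2, c, h3⟩ := st_step
  refine ⟨|c| + 1, le_add_of_nonneg_left (abs_nonneg c), fun m => ⟨h1, h2, fun l hl x => ?_⟩⟩
  rw [norm_iteratedFDeriv_eq_norm_iteratedDeriv]
  refine (h3 l x).trans ((le_abs_self _).trans ?_)
  rw [abs_pow, abs_mul, abs_of_nonneg (by positivity : (0 : ℝ) ≤ (l + 1) ^ 3)]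
  gcongr
  exact le_add_of_nonneg_right zero_le_one

theorem cl_bet (h : Cl m r st) (r0 : 0 ≤ r) : Cl m (2 * r) bet := by
  have := (comp1 h r0 zero_le_one (.id ℝ ℝ) (by simp) 2 (f := fun t => t + 2) (by simp)).mul
    (comp1 h r0 zero_le_one (-.id ℝ ℝ) (by simp) 2 (f := fun t => 2 - t) (by simp [sub_eq_neg_add]))
    (by positivity) (by positivity)
  rwa [mul_one, ← two_mul] at this

theorem cl_hat (h : Cl m r st) (r0 : 0 ≤ r) : Cl m (2 * r) hat := by
  have := (comp1 h r0 zero_le_one (.id ℝ ℝ) (by simp) 1 (f := fun t => t + 1) (by simp)).mul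
    (one_sub h) (by positivity) r0
  rwa [mul_one, ← two_mul] at this

theorem abs_le (y : R4) (μ : Fin 4) : |y μ| ≤ ‖y‖ := PiLp.norm_apply_le y μ

theorem abs_le' (x : Fin n → R4) (i : Fin n) (μ : Fin 4) : |x i μ| ≤ ‖x‖ :=
  (abs_le _ μ).trans (norm_le_pi_norm x i)

/-- the coordinate functional -/
def co (i : Fin n) (μ : Fin 4) : (Fin n → R4) →L[ℝ] ℝ :=
  (EuclideanSpace.proj μ).comp (.proj i)

theorem cl_box {g : ℝ → ℝ} (h : Cl m r g) (r0 : 0 ≤ r) (e : ℕ) (z : Fin 4 → ℤ) :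
    Cl m (32 * r * 2 ^ e) fun y : R4 => ∏ μ, g (8 * 2 ^ e * y μ - z μ) := by
  have := prod Finset.univ (r := r * (8 * 2 ^ e)) (by positivity) fun μ _ =>
    comp1 h r0 (by positivity) ((8 * 2 ^ e : ℝ) • EuclideanSpace.proj μ : R4 →L[ℝ] ℝ)
      (fun y => by
        have := abs_le y μ
        simp only [smul_apply, smul_eq_mul, abs_mul, PiLp.proj_apply,
          abs_of_nonneg (by positivity : (0 : ℝ) ≤ 8 * 2 ^ e)]
        gcongr) (-z μ) (f := fun y => 8 * 2 ^ e * y μ - z μ) fun y => by simp [sub_eq_add_neg]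
  refine this.mono (by positivity) (le_of_eq ?_)
  simp only [Finset.card_univ, Fintype.card_fin, Nat.cast_ofNat]
  ring

theorem cl_sepr (h : Cl m r st) (r0 : 0 ≤ r) (e : ℕ) :
    Cl m (8 * (n + 1) ^ 2 * r * 2 ^ e) (sepr e : (Fin n → R4) → ℝ) := by
  have := prod (Finset.univ : Finset (Fin n)).offDiag (by positivity) fun q _ => one_sub
    (prod Finset.univ (r := 2 * r * 2 ^ e) (by positivity) fun μ _ =>
      comp1 (cl_bet h r0) (by positivity) (by positivity)
        ((2 ^ e / 2 : ℝ) • (co q.1 μ - co q.2 μ)) (fun x => by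
          have h1 := abs_le' x q.1 μ
          have h2 := abs_le' x q.2 μ
          have h3 := abs_sub (x q.1 μ) (x q.2 μ)
          have h4 : (0 : ℝ) ≤ 2 ^ e / 2 := by positivity
          change |2 ^ e / 2 * (x q.1 μ - x q.2 μ)| ≤ _
          rw [abs_mul, abs_of_nonneg h4]
          nlinarith) 0 (f := fun x => 2 ^ e / 2 * (x q.1 μ - x q.2 μ)) fun x => (add_zero _).symm)
  refine this.mono (by positivity) ?_
  have h1 : ((Finset.univ : Finset (Fin n)).offDiag.card : ℝ) ≤ (n + 1) ^ 2 := by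
    have : (Finset.univ : Finset (Fin n)).offDiag.card ≤ (n + 1) ^ 2 := by
      rw [Finset.offDiag_card, Finset.card_univ, Fintype.card_fin]
      exact (Nat.sub_le _ _).trans (by nlinarith)
    exact_mod_cast this
  simp only [Finset.card_univ, Fintype.card_fin, Nat.cast_ofNat]
  calc _ ≤ ((n : ℝ) + 1) ^ 2 * (4 * (2 * r * 2 ^ e)) := by gcongr
    _ = _ := by ring

theorem st_zero {t : ℝ} (h : t ≤ 0) : st t = 0 := st_step.2.1 t h

theorem st_one {t : ℝ} (h : 1 ≤ t) : st t = 1 := st_step.2.2.1 t h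

theorem st_pos {t : ℝ} (h : st t ≠ 0) : 0 < t := not_le.1 fun e => h (st_zero e)

theorem st_lt {t : ℝ} (h : st t ≠ 1) : t < 1 := not_le.1 fun e => h (st_one e)

theorem bet_one {t : ℝ} (h : |t| ≤ 1) : bet t = 1 := by
  rw [_root_.abs_le] at h
  rw [bet, st_one (by linarith), st_one (by linarith), mul_one]

theorem bet_lt {t : ℝ} (h : bet t ≠ 0) : |t| < 2 :=
  abs_lt.2 ⟨by linarith [st_pos (left_ne_zero_of_mul h)], by
    linarith [st_pos (right_ne_zero_of_mul h)]⟩

theorem hat_lt {t : ℝ} (h : hat t ≠ 0) : |t| < 1 :=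
  abs_lt.2 ⟨by linarith [st_pos (left_ne_zero_of_mul h)],
    (st_lt (sub_ne_zero.1 (right_ne_zero_of_mul h)).symm)⟩

theorem hat_eq (t : ℝ) : hat t = st (t + 1) - st t := by
  by_cases h : st t = 0
  · simp [hat, h]
  · rw [hat, st_one (by linarith [st_pos h]), one_mul]

theorem sum_hat {D : ℕ} {t : ℝ} (h : |t| ≤ D) :
    ∑ k ∈ Finset.Icc (-D : ℤ) D, hat (t - k) = 1 := by
  have h1 : ∀ N : ℕ, ∑ k ∈ Finset.Ico (-D : ℤ) (-D + N), hat (t - k) =
      st (t + D + 1) - st (t + D + 1 - N) := fun N => by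
    induction N with
    | zero => simp
    | succ N ih =>
      rw [Nat.cast_succ, ← add_assoc, ← Finset.insert_Ico_right_eq_Ico_add_one (by omega),
        Finset.sum_insert (by simp), ih, hat_eq]
      push_cast
      rw [show t - (-D + N) + 1 = t + D + 1 - N by ring,
        show t - (-D + N) = t + D + 1 - (N + 1) by ring]
      ring
  rw [_root_.abs_le] at h
  rw [← Finset.Ico_add_one_right_eq_Icc, show (D : ℤ) + 1 = -D + (2 * D + 1 : ℕ) by push_cast; ring,
    h1, st_one (by linarith), st_zero (by push_cast; linarith), sub_zero]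

theorem norm_le {u : R4} {d : ℝ} (h : ∀ μ, |u μ| ≤ d) : ‖u‖ ≤ 2 * d := by
  have d0 := (abs_nonneg _).trans (h 0)
  rw [EuclideanSpace.norm_eq]
  refine sqrt_le_iff.2 ⟨by positivity, (Finset.sum_le_card_nsmul _ _ (d ^ 2) fun μ _ => ?_).trans
    (le_of_eq ?_)⟩
  · exact pow_le_pow_left₀ (norm_nonneg _) (h μ) 2
  · simp only [Finset.card_univ, Fintype.card_fin, nsmul_eq_mul, Nat.cast_ofNat]
    ring

theorem sepr_sep {e : ℕ} {x : Fin n → R4} (h : sepr e x ≠ 0) {i j : Fin n} (hij : i ≠ j) :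
    ∃ μ, 1 < |2 ^ e / 2 * (x i μ - x j μ)| := by
  by_contra h1
  push Not at h1
  refine Finset.prod_ne_zero_iff.1 h (i, j) (by simpa using hij) ?_
  rw [Finset.prod_eq_one fun μ _ => bet_one (h1 μ), sub_self]

theorem sepr_close {e : ℕ} {x : Fin n → R4} (h : sepr e x ≠ 1) :
    ∃ q ∈ (Finset.univ : Finset (Fin n)).offDiag, ‖x q.1 - x q.2‖ ≤ 8 / 2 ^ e := by
  obtain ⟨q, hq, h1⟩ := Finset.exists_ne_one_of_prod_ne_one h
  refine ⟨q, hq, (norm_le (d := 4 / 2 ^ e) fun μ => ?_).trans (le_of_eq (by ring))⟩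
  have h2 := bet_lt (Finset.prod_ne_zero_iff.1 (fun e => h1 (by rw [e, sub_zero])) μ
    (Finset.mem_univ _))
  rw [abs_mul, abs_of_nonneg (by positivity)] at h2
  rw [PiLp.sub_apply, le_div_iff₀ (by positivity)]
  linarith

theorem near_upd (x : Fin n → R4) (i : Fin n) {u : R4} {d : ℝ} (h : ‖x i - u‖ ≤ d) :
    ‖x - Function.update x i u‖ ≤ d := by
  have d0 := (norm_nonneg _).trans h
  refine (pi_norm_le_iff_of_nonneg d0).2 fun j => ?_
  rcases eq_or_ne j i with rfl | e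
  · simpa using h
  · simpa [e] using d0

theorem near_of {x : Fin n → R4} {d : ℝ}
    (h : ∃ q ∈ (Finset.univ : Finset (Fin n)).offDiag, ‖x q.1 - x q.2‖ ≤ d) :
    ∃ y : Fin n → R4, ¬y.Injective ∧ ‖x - y‖ ≤ d := by
  obtain ⟨q, hq, h1⟩ := h
  have hq' : q.1 ≠ q.2 := (Finset.mem_offDiag.1 hq).2.2
  exact ⟨_, fun h2 => hq' (h2 (by simp [hq'.symm])), near_upd x q.1 h1⟩

end G2

open G2

theorem cl_cut : ∃ c : ℝ, 1 ≤ c ∧ ∀ m e : ℕ, (∀ z, Cl m (c * (m + 1) ^ 3 * 2 ^ e) (chi e z) ∧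
    Cl m (c * (m + 1) ^ 3 * 2 ^ e) (frm e z)) ∧ ∀ n : ℕ, ∀ g : (Fin n → R4) → ℝ,
      (g = sepr e ∨ g = shel e ∨ g = far e ∨ g = late e ∨ ∃ z, g = chn e z) →
      Cl m (c * (n + 1) ^ 2 * (m + 1) ^ 3 * 2 ^ e) g := by
  obtain ⟨c, c1, hc⟩ := cl_st
  refine ⟨64 * c, by linarith, fun m e => ?_⟩
  have h := hc m
  rw [mul_assoc 64]
  simp only [show ∀ n : ℕ, 64 * c * (n + 1) ^ 2 * (m + 1) ^ 3 =
    64 * (n + 1) ^ 2 * (c * (m + 1) ^ 3) from fun n => by ring]
  have r0 : 0 ≤ c * (m + 1) ^ 3 := by positivity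
  generalize c * (m + 1) ^ 3 = r at h r0
  have h1 : ∀ z, Cl m (64 * r * 2 ^ e) (chi e z) := fun z =>
    (cl_box (cl_hat h r0) (by positivity) e z).mono (by positivity) (le_of_eq (by ring))
  refine ⟨fun z => ⟨h1 z,
    (cl_box (cl_bet h r0) (by positivity) e z).mono (by positivity) (le_of_eq (by ring))⟩,
    fun n g hg => ?_⟩
  have n1 : (n : ℝ) ≤ (n + 1) ^ 2 := by nlinarith [n.cast_nonneg (α := ℝ)]
  have e1 : (1 : ℝ) ≤ 2 ^ e := one_le_pow₀ one_le_two
  have p0 : 0 ≤ ((n : ℝ) + 1) ^ 2 * r * 2 ^ e := by positivity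
  have p1 : n * r * 2 ^ e ≤ ((n : ℝ) + 1) ^ 2 * r * 2 ^ e := by gcongr
  rcases hg with rfl | rfl | rfl | rfl | ⟨z, rfl⟩
  · exact (cl_sepr h r0 e).mono (by positivity) (by linarith)
  · cases e with
    | zero => exact (cl_sepr h r0 0).mono (by positivity) (by linarith)
    | succ e =>
      refine ((cl_sepr h r0 (e + 1)).mul (one_sub (cl_sepr h r0 e)) (by positivity)
        (by positivity)).mono (by positivity) ?_
      rw [pow_succ _ e] at p0 ⊢
      linarith
  · refine (prod Finset.univ (by positivity) fun i _ => prod Finset.univ (r := 2 * r * 2 ^ e)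
      (by positivity) fun μ _ => comp1 (cl_bet h r0) (by positivity) (by positivity)
        (((2 ^ e)⁻¹ : ℝ) • co i μ) (fun x => ?_) 0 (f := fun x => x i μ / 2 ^ e)
        fun x => ?_).mono (by positivity) ?_
    · have h2 := abs_le' x i μ
      have h3 : ((2 : ℝ) ^ e)⁻¹ ≤ 2 ^ e := (inv_le_one_of_one_le₀ e1).trans e1
      change |(2 ^ e)⁻¹ * x i μ| ≤ _
      rw [abs_mul, abs_of_nonneg (by positivity)]
      gcongr
    · rw [add_zero, div_eq_inv_mul]
      rfl
    · simp only [Finset.card_univ, Fintype.card_fin, Nat.cast_ofNat]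
      linarith
  · refine (prod Finset.univ (r := r * 2 ^ e) (by positivity) fun i _ => comp1 h r0 (by positivity)
        ((2 ^ e : ℝ) • co i 0) (fun x => ?_) (-1) (f := fun x => 2 ^ e * x i 0 - 1)
        fun x => sub_eq_add_neg _ _).mono (by positivity) ?_
    · have h2 := abs_le' x i 0
      change |2 ^ e * x i 0| ≤ _
      rw [abs_mul, abs_of_nonneg (by positivity)]
      gcongr
    · simp only [Finset.card_univ, Fintype.card_fin]
      linarith
  · have h2 := prod Finset.univ (by positivity) fun (i : Fin n) _ => comp (h1 (z i)) (by positivity)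
      (.proj i : (Fin n → R4) →L[ℝ] R4) (r' := 1) (ContinuousLinearMap.opNorm_le_bound _ zero_le_one
        fun x => by simpa using norm_le_pi_norm x i) 0
    simp only [add_zero, ContinuousLinearMap.proj_apply, Finset.card_univ, Fintype.card_fin] at h2
    exact h2.mono (by positivity) (by linarith)

variable {e D : ℕ} {x : Fin n → R4} {y : R4} {z : Fin n → Fin 4 → ℤ} {w : Fin 4 → ℤ}

theorem chi_supp (h : y ∈ tsupport (chi e w)) (μ : Fin 4) : |8 * 2 ^ e * y μ - w μ| ≤ 1 :=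
  closure_minimal (t := {y : R4 | |8 * 2 ^ e * y μ - w μ| ≤ 1})
    (fun _ hy => (hat_lt (Finset.prod_ne_zero_iff.1 hy μ (Finset.mem_univ _))).le)
    (isClosed_le (by fun_prop) continuous_const) h

theorem frm_supp (h : y ∈ tsupport (frm e w)) (μ : Fin 4) : |8 * 2 ^ e * y μ - w μ| ≤ 2 :=
  closure_minimal (t := {y : R4 | |8 * 2 ^ e * y μ - w μ| ≤ 2})
    (fun _ hy => (bet_lt (Finset.prod_ne_zero_iff.1 hy μ (Finset.mem_univ _))).le)
    (isClosed_le (by fun_prop) continuous_const) h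

theorem chn_supp (h : x ∈ tsupport (chn e z)) (i : Fin n) (μ : Fin 4) :
    |8 * 2 ^ e * x i μ - z i μ| ≤ 1 :=
  closure_minimal (t := {x : Fin n → R4 | |8 * 2 ^ e * x i μ - z i μ| ≤ 1})
    (fun _ hy => chi_supp (subset_tsupport _ (Finset.prod_ne_zero_iff.1 hy i (Finset.mem_univ _))) μ)
    (isClosed_le (by fun_prop) continuous_const) h

theorem G2.frm_one (h : y ∈ tsupport (chi e w)) : frm e w y = 1 :=
  Finset.prod_eq_one fun μ _ => bet_one (chi_supp h μ)

theorem frm_chi (y : R4) : frm e w y * chi e w y = chi e w y := by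
  by_cases h : chi e w y = 0
  · rw [h, mul_zero]
  · rw [frm_one (subset_tsupport _ h), one_mul]

theorem sum_chn (h : ∀ i μ, |8 * 2 ^ e * x i μ| ≤ D) : ∑ z ∈ lab n D, chn e z x = 1 := by
  simp only [chn, chi]
  rw [← Finset.prod_univ_sum _ fun i (w : Fin 4 → ℤ) => ∏ μ, hat (8 * 2 ^ e * x i μ - w μ)]
  refine Finset.prod_eq_one fun i _ => ?_
  rw [← Finset.prod_univ_sum _ fun μ (k : ℤ) => hat (8 * 2 ^ e * x i μ - k)]
  exact Finset.prod_eq_one fun μ _ => sum_hat (h i μ)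

theorem card_chn (x : Fin n → R4) :
    ((lab n D).filter fun z => ∀ i μ, |8 * 2 ^ e * x i μ - z i μ| ≤ 1).card ≤ 81 ^ n := by
  refine (Finset.card_le_card (t := Fintype.piFinset fun i => Fintype.piFinset fun μ =>
    Finset.Icc ⌈8 * 2 ^ e * x i μ - 1⌉ (⌈8 * 2 ^ e * x i μ - 1⌉ + 2)) fun z hz => ?_).trans
    (le_of_eq ?_)
  · simp only [Fintype.mem_piFinset, Finset.mem_Icc]
    intro i μ
    have h1 := _root_.abs_le.1 ((Finset.mem_filter.1 hz).2 i μ)
    have h2 := Int.le_ceil (8 * 2 ^ e * x i μ - 1)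
    refine ⟨Int.ceil_le.2 (by linarith [h1.2]), ?_⟩
    rw [← Int.cast_le (R := ℝ), Int.cast_add, Int.cast_ofNat]
    linarith [h1.1]
  · have : ∀ k : ℤ, (Finset.Icc k (k + 2)).card = 3 := fun k => by
      rw [Int.card_Icc]
      omega
    simp [Fintype.card_piFinset, this]

theorem good_of (h : sepr e x ≠ 0) (h' : chn e z x ≠ 0) : Good z := fun i j hij => by
  obtain ⟨μ, h1⟩ := sepr_sep h hij
  have h2 := _root_.abs_le.1 (chn_supp (subset_tsupport _ h') i μ)
  have h3 := _root_.abs_le.1 (chn_supp (subset_tsupport _ h') j μ)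
  have : (12 : ℝ) ≤ |(z i μ : ℝ) - z j μ| := by
    rcases lt_abs.1 h1 with h1 | h1
    · exact le_abs.2 (.inl (by linarith [h2.2, h3.1]))
    · exact le_abs.2 (.inr (by linarith [h2.1, h3.2]))
  exact ⟨μ, by exact_mod_cast this⟩

theorem Good.far (h : Good z) {i j : Fin n} (hij : i ≠ j) {u v : R4}
    (hu : u ∈ tsupport (frm e (z i))) (hv : v ∈ tsupport (frm e (z j))) :
    (2 ^ e)⁻¹ ≤ dist u v := by
  obtain ⟨μ, h1⟩ := h i j hij
  have h1 : (12 : ℝ) ≤ |(z i μ : ℝ) - z j μ| := by exact_mod_cast h1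
  have h2 := _root_.abs_le.1 (frm_supp hu μ)
  have h3 := _root_.abs_le.1 (frm_supp hv μ)
  have e0 : (0 : ℝ) < 2 ^ e := by positivity
  rw [dist_eq_norm]
  refine le_trans ?_ (G2.abs_le (u - v) μ)
  rw [inv_le_iff_one_le_mul₀' e0, ← abs_of_pos e0, ← abs_mul, PiLp.sub_apply]
  rcases le_abs.1 h1 with h1 | h1
  · exact le_abs.2 (.inl (by linarith [h2.1, h3.2]))
  · exact le_abs.2 (.inr (by linarith [h2.2, h3.1]))

theorem frm_diam {u v : R4} (hu : u ∈ tsupport (frm e w)) (hv : v ∈ tsupport (frm e w)) :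
    dist u v ≤ (2 ^ e)⁻¹ := by
  have e0 : (0 : ℝ) < 2 ^ e := by positivity
  rw [dist_eq_norm]
  refine (norm_le (d := (2 * 2 ^ e)⁻¹) fun μ => ?_).trans (le_of_eq (by field_simp))
  have h2 := _root_.abs_le.1 (frm_supp hu μ)
  have h3 := _root_.abs_le.1 (frm_supp hv μ)
  rw [← one_div, le_div_iff₀' (by positivity), ← abs_of_pos (mul_pos two_pos e0), ← abs_mul,
    PiLp.sub_apply, _root_.abs_le]
  constructor <;> linarith [h2.1, h2.2, h3.1, h3.2]

theorem Good.adm (h : Good z) : Adm (fun i => frm e (z i)) ∧ Adm fun i => chi e (z i) := by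
  obtain ⟨c, -, hc⟩ := cl_cut
  have h1 : ∀ w, tsupport (chi e w) ⊆ tsupport (frm e w) := fun w y hy =>
    subset_tsupport _ (by rw [Function.mem_support, frm_one hy]; exact one_ne_zero)
  have h2 : ∀ w, HasCompactSupport (frm e w) := fun w => Metric.isCompact_of_isClosed_isBounded
    (isClosed_tsupport _) (Metric.isBounded_iff.2 ⟨_, fun _ hu _ hv => frm_diam hu hv⟩)
  have h3 : Pairwise fun i j => Disjoint (tsupport (frm e (z i))) (tsupport (frm e (z j))) :=
    fun i j hij => disjoint_left.2 fun u hu hv => by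
      have := h.far hij hu hv
      rw [dist_self] at this
      exact this.not_gt (by positivity)
  exact ⟨⟨fun i => ⟨h2 _, ((hc 0 e).1 _).2.1.of_le (by exact_mod_cast le_top)⟩, h3⟩,
    fun i => ⟨(h2 _).of_isClosed_subset (isClosed_tsupport _) (h1 _),
      ((hc 0 e).1 _).1.1.of_le (by exact_mod_cast le_top)⟩,
    fun i j hij => (h3 hij).mono (h1 _) (h1 _)⟩

theorem sepr_near (h : sepr e x ≠ 1) :
    ∃ y : Fin n → R4, ¬y.Injective ∧ ‖x - y‖ ≤ 8 / 2 ^ e := near_of (sepr_close h)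

theorem shel_near (h : x ∈ tsupport (shel (e + 1))) :
    ∃ y : Fin n → R4, ¬y.Injective ∧ ‖x - y‖ ≤ 8 / 2 ^ e := by
  have := closure_minimal (t := ⋃ q ∈ (Finset.univ : Finset (Fin n)).offDiag,
      {x : Fin n → R4 | ‖x q.1 - x q.2‖ ≤ 8 / 2 ^ e})
    (fun _ hy => let ⟨q, hq, h1⟩ := sepr_close (sub_ne_zero.1 (right_ne_zero_of_mul hy)).symm
      mem_iUnion₂.2 ⟨q, hq, h1⟩)
    (isClosed_biUnion_finset fun q _ => isClosed_le (by fun_prop) continuous_const) h
  obtain ⟨q, hq, h1⟩ := mem_iUnion₂.1 this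
  exact near_of ⟨q, hq, h1⟩

theorem shel_sepr (h : shel e x ≠ 0) : sepr e x ≠ 0 := by
  cases e with
  | zero => exact h
  | succ e => exact left_ne_zero_of_mul h

theorem sum_shel (E : ℕ) (x : Fin n → R4) :
    ∑ e ∈ Finset.range (E + 1), shel e x = sepr E x := by
  induction E with
  | zero => simp [shel]
  | succ E ih =>
    rw [Finset.sum_range_succ, ih, shel]
    by_cases h : sepr E x = 0
    · simp [h]
    · have : sepr (E + 1) x = 1 := Finset.prod_eq_one fun q hq => by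
        obtain ⟨μ, h1⟩ := sepr_sep h (Finset.mem_offDiag.1 hq).2.2
        rw [Finset.prod_eq_zero (Finset.mem_univ μ), sub_zero]
        by_contra h2
        have h3 := bet_lt h2
        rw [show (2 : ℝ) ^ (E + 1) / 2 * (x q.1 μ - x q.2 μ) =
          2 * (2 ^ E / 2 * (x q.1 μ - x q.2 μ)) by ring, abs_mul, abs_two] at h3
        linarith
      simp [this]

theorem far_one (h : ‖x‖ ≤ 2 ^ e) : far e x = 1 :=
  Finset.prod_eq_one fun i _ => Finset.prod_eq_one fun μ _ => bet_one (by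
    rw [abs_div, abs_of_pos (by positivity : (0 : ℝ) < 2 ^ e), div_le_one (by positivity)]
    exact (abs_le' x i μ).trans h)

theorem far_supp (h : far e x ≠ 0) (i : Fin n) (μ : Fin 4) : |x i μ| ≤ 2 * 2 ^ e := by
  have := bet_lt (Finset.prod_ne_zero_iff.1 (Finset.prod_ne_zero_iff.1 h i (Finset.mem_univ _)) μ
    (Finset.mem_univ _))
  rw [abs_div, abs_of_pos (by positivity : (0 : ℝ) < 2 ^ e), div_lt_iff₀ (by positivity)] at this
  exact this.le

theorem late_near (h : late e x ≠ 1) :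
    ∃ y : Fin n → R4, (∃ i, y i 0 ≤ 0) ∧ ‖x - y‖ ≤ 8 / 2 ^ e := by
  obtain ⟨i, -, h1⟩ := Finset.exists_ne_one_of_prod_ne_one h
  have h2 := st_lt h1
  have e0 : (0 : ℝ) < 2 ^ e := by positivity
  refine ⟨_, ⟨i, ?_⟩, near_upd x i (u := x i - EuclideanSpace.single 0 (8 / 2 ^ e)) ?_⟩
  · simp only [Function.update_self, PiLp.sub_apply, PiLp.single_apply, if_true, sub_nonpos]
    rw [le_div_iff₀ e0]
    linarith
  · rw [sub_sub_cancel, PiLp.norm_single, norm_of_nonneg (by positivity)]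

theorem late_pos (h : late e x ≠ 0) (h' : chn e z x ≠ 0) (i : Fin n) :
    tsupport (chi e (z i)) ⊆ Hs 0 0 := fun y hy => by
  have h1 := st_pos (Finset.prod_ne_zero_iff.1 h i (Finset.mem_univ _))
  have h2 := _root_.abs_le.1 (chn_supp (subset_tsupport _ h') i 0)
  have h3 := _root_.abs_le.1 (chi_supp hy 0)
  have e0 : (0 : ℝ) < 8 * 2 ^ e := by positivity
  exact (mul_pos_iff_of_pos_left e0).1 (by linarith [h2.2, h3.1])

end

end Pool.Agent.Lib.MP_7f377f_mp.Lg
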