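import Pool.Agent.Lib.MP_7f377f_mp.LgLat

/-! Arrays of centred fields with an explicit constant. -/

noncomputable section

namespace Pool.Agent.Lib.MP_7f377f_mp.Lg

open MeasureTheory Filter Topology Real YM7 Weak Jet Finset

variable [MeasurableSpace SU2] [BorelSpace SU2] {h : Measure SU2} [h.IsHaarMeasure]
  [IsProbabilityMeasure h] {ι : Type} {Φ : Filter ι} {nn : ι → ℕ} [∀ p, NeZero (nn p)]
  {a b τ : ι → ℝ}

theorem polyC_of (hF : Fam Φ nn a b τ) (hP : Poly3 h Φ nn a b fun p => 4 * τ p) :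
    PolyC h Φ nn a b fun p => 2 * τ p := by
  obtain ⟨N, N0, hP⟩ := hP
  refine ⟨257 * N + 1, by positivity, ?_⟩
  filter_upwards [hP, eventually_ge_atTop 1] with e hC e1
  have hδ : (0 : ℝ) < (3 ^ e)⁻¹ / 32 := by positivity
  obtain ⟨E, -, hb⟩ := hF.big_box 0 0
  filter_upwards [hC, hb, hF.pos, hF.small hδ, hF.tau.eventually_ge_atTop 2]
    with p ⟨m, lam, _, hm, hd, hn, hl, Λ, hI, hG⟩ ⟨b0, h1⟩ ⟨ha, τ0⟩ h3 h5
  rw [le_div_iff₀ ha] at h5
  obtain ⟨-, m1⟩ := h1 m lam hn (hl ▸ inv_le_one_of_one_le₀ (one_le_pow₀ (by norm_num)))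
  refine ⟨m, lam, inferInstance, hm, hd, hn, hl, fun A F hA => ?_⟩
  have C0 : 0 ≤ N * e := by positivity
  have hz : ∀ c : Site 4 m, ∀ t ≥ 0, ∀ d, Nrm (a p) t (0 : Src (nn p)) ∧ InT (a p) d lam c
    (0 : Src (nn p)) := fun c t ht d => ⟨⟨0, by simp, by simpa using ha.le, by simpa⟩,
      fun _ _ _ e => (e rfl).elim⟩
  have := centre_bound h (b := b p) A F (fun c => (jd {()} fun s =>
    (ma univ (mom Λ fun _ : Unit => F c) s)⁻¹).re) (C := exp (256 * (N * e)))
    (M := exp (N * e * m ^ 4)) (fun B hB => ?_) fun c hc => ?_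
  · refine this.trans ?_
    have e2 : (1 : ℝ) ≤ e := by exact_mod_cast e1
    have x : 1 + exp (256 * (N * e)) ≤ exp (256 * (N * e) + e) := by
      rw [exp_add]
      nlinarith [one_le_exp (show 0 ≤ 256 * (N * e) by positivity), add_one_le_exp (e : ℝ)]
    refine (mul_le_mul_of_nonneg_left ((pow_le_pow_left₀ (by positivity) x _).trans
      (pow_le_pow_right₀ (one_le_exp (by positivity)) (card_le_univ A))) (exp_pos _).le).trans_eq ?_
    rw [← exp_nat_mul, ← exp_add]
    simp only [Fintype.card_pi, ZMod.card, prod_const, card_univ, Fintype.card_fin, Nat.cast_pow]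
    ring_nf
  · have := hG.le hI one_pos (F := fun c _ => if c ∈ B then F c else 0) (fun c => ⟨fun _ => ?_,
      fun _ _ e => (e rfl).elim⟩) fun c => if c ∈ B then {()} else ∅
    · have e : ∀ U, ∏ c ∈ B, (gfield (F c) U - (jd {()} fun s => (ma univ (mom Λ fun _ : Unit => F c)
          s)⁻¹).re) = (-1) ^ B.card * ∏ c, ob Λ (fun _ : Unit => if c ∈ B then F c else 0)
            (if c ∈ B then {()} else ∅) U := fun U => by
        rw [← prod_subset (subset_univ B) fun c _ hc => by simp only [if_neg hc, hI.ob0], ← prod_const,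
          ← prod_mul_distrib]
        exact prod_congr rfl fun c hc => by simp [hc, hI.ob1]
      simpa only [e, integral_const_mul, abs_mul, abs_pow, abs_neg, abs_one, one_pow, one_mul,
        prod_const_one, mul_one] using this
    · split_ifs with hc
      · obtain ⟨⟨g, g1, g2, g3⟩, k⟩ := hA c (hB hc)
        exact ⟨⟨g, g1, g2, fun x i j => (g3 x i j).trans (by linarith)⟩, fun x i j e l =>
          ⟨by linarith [(k x i j e l).1], by linarith [(k x i j e l).2]⟩⟩
      · exact hz c _ (by linarith) _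
  · have := ob_le (F := fun _ => F c) (c := c) b0 hm hn m1 ha hδ.le (δ' := (3 ^ e)⁻¹ / 16)
      (by linarith) (τ' := 2 * τ p) (by linarith) hI one_pos C0 hG ⟨fun _ => hA c hc,
        fun _ _ e => (e rfl).elim⟩ {()}
    simp only [hI.ob1] at this
    rw [integral_sub (integrable_const _) (cint _ (continuous_gfield _)), abs_sub_comm] at this
    simpa using this

end Pool.Agent.Lib.MP_7f377f_mp.Lg
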