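import Pool.Agent.Lib.MP_7f377f_mp.LgLat
import Pool.Agent.Lib.MP_7f377f_mp.WeakChess

/-! The chessboard estimate with half cells on the odd torus. -/


noncomputable section

namespace Pool.Agent.Lib.MP_7f377f_mp.Lg

open MeasureTheory YM7 Weak

variable {n m : ℕ}

namespace LgST

variable [NeZero m]

theorem par (x : ZMod (2 * m)) (y : ℤ) (z : ℤ) (h : Odd (y + z)) :
    ∃ t : ZMod m, x = y + ((2 * t.val : ℕ) : ZMod (2 * m)) ∨
      x = z + ((2 * t.val : ℕ) : ZMod (2 * m)) := by
  have e : ∀ y u : ℤ, x.val - y = 2 * u → x = y + ((2 * (u : ZMod m).val : ℕ) : ZMod (2 * m)) :=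
    fun y u a => by rw [corner_int (mul_comm _ _) _ u rfl, Nat.cast_ofNat, ← a]; simp
  obtain ⟨w, hw⟩ := h
  obtain ⟨u, a | a⟩ := Int.even_or_odd' (x.val - y)
  exacts [⟨u, .inl (e y u a)⟩, ⟨(u + y - w :), .inr (e z _ (by omega))⟩]

theorem corner_rf {L lam : ℕ} [NeZero L] (hL : L = m * lam) (k : Fin 4) (t : Site 4 m) :
    (corner lam (rf k t) : Site 4 L) = rf k (corner lam t) := by
  funext l
  by_cases hl : l = k
  · rw [corner, corner_int hL _ (-(t l).val) (by simp [rf, hl])]
    simp [corner, rf, hl]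
  · simp [corner, rf, hl]

theorem chess_even {β : Type} [Fintype β] (hm : Odd m) (I : (Site 4 (2 * m) → β) → ℝ)
    (hs : ∀ σ s, I (fun x => σ (x + corner 2 (s : Site 4 m))) = I σ)
    (hr : ∀ σ k, I σ ^ 2 ≤ I (symp m k σ σ) *
      I (symp m k (fun x => σ (rc k x)) fun x => σ (rc k x))) (σ : Site 4 (2 * m) → β) :
    ∃ c, |I σ| ≤ |I fun _ => c| := by
  have le : ∀ σ : Site 4 (2 * m) → β, ∀ a, |I fun x => σ (x + a)| ≤ ⨆ a, |I fun x => σ (x + a)| :=
    fun σ => le_ciSup (f := fun a => |I fun x => σ (x + a)|) (Set.finite_range _).bddAbove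
  have l0 : ∀ σ : Site 4 (2 * m) → β, |I σ| ≤ ⨆ a, |I fun x => σ (x + a)| := fun σ => by
    simpa using le σ 0
  refine (chess_abstract rfl (fun σ => ⨆ a, |I fun x => σ (x + a)|)
    (fun σ => (abs_nonneg _).trans (l0 σ)) (fun σ a => ?_) (fun σ k => ?_) σ).imp fun c hc =>
      (l0 σ).trans (by simpa using hc)
  · simp only [add_assoc]
    exact (Equiv.addRight a).iSup_comp (g := fun a => |I fun x => σ (x + a)|)
  obtain ⟨a, ha⟩ := exists_eq_ciSup_of_finite (f := fun a => |I fun x => σ (x + a)|)
  obtain ⟨t, ht⟩ := par (a k) 0 m (by simpa using hm)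
  obtain ⟨a', e, h1⟩ : ∃ a' : Site 4 (2 * m), (∀ x, x + a =
      x + corner 2 (Pi.single k t : Site 4 m) + a') ∧ (a' k = 0 ∨ a' k = m) := ⟨a - corner 2 (Pi.single k t), by simp,
        ht.imp (fun e => by simp [e, corner]) fun e => by simp [e, corner]⟩
  have m2 : -(m : ZMod (2 * m)) = m := by
    rw [neg_eq_iff_add_eq_zero, ← Nat.cast_add, ← two_mul, ZMod.natCast_self]
  have r : ∀ x, rc k (x + a') = rc k x + a' := fun x => by
    funext l
    by_cases hl : l = k
    · rcases h1 with h1 | h1 <;> simp [rc, rf, hl, h1, m2] <;> ring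
    · simp [rc, rf, hl]
  have := hr (fun x => σ (x + a')) k
  simp only [← ha, e]
  rw [hs fun x => σ (x + a'), sq_abs]
  have p : ∀ τ τ', I τ * I τ' ≤ |I τ| * |I τ'| := fun _ _ => abs_mul (I _) _ ▸ le_abs_self _
  rcases h1 with h1 | h1
  · refine ⟨_, (this.trans (p _ _)).trans (mul_le_mul (le_trans (le_of_eq ?_) (le _ a')) (l0 _)
      (abs_nonneg _) ((abs_nonneg _).trans (l0 _)))⟩
    congr 2
    funext x
    simp [symp, r, h1]
  · refine ⟨_, ((this.trans (p _ _)).trans_eq (mul_comm _ _)).trans (mul_le_mul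
      (le_trans (le_of_eq ?_) (le _ a')) (l0 _) (abs_nonneg _) ((abs_nonneg _).trans (l0 _)))⟩
    congr 2
    funext x
    have := ZMod.val_lt (x k)
    have v : ((x + a') k).val < m ↔ ¬(x k).val < m := by
      rw [Pi.add_apply, h1, ZMod.val_add, ZMod.val_natCast, Nat.mod_eq_of_lt (a := m) (by omega)]
      by_cases c : (x k).val < m
      · rw [Nat.mod_eq_of_lt (by omega)]; omega
      · rw [Nat.mod_eq_sub_mod (by omega), Nat.mod_eq_of_lt (by omega)]; omega
    simp only [symp, v, r, rc_rc, ite_not]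

/-- the action on slots -/
def mv2 (y : Site 4 (2 * m)) (g : (Fin 4 → Bool) × Site 4 m) : Site 4 (2 * m) :=
  (fun l => if g.1 l then -y l - 1 else y l) + corner 2 g.2

theorem mv2_bij (y : Site 4 (2 * m)) : (mv2 y).Bijective := by
  refine (Fintype.bijective_iff_surjective_and_card _).2 ⟨fun x => ?_, by simp [mul_pow]⟩
  choose t ht using fun l => par (x l) (y l).val (-(y l).val - 1) ⟨-1, by ring⟩
  classical
  refine ⟨(fun l => decide (x l ≠ y l + ((2 * (t l).val : ℕ) : ZMod (2 * m))), t), funext fun l => ?_⟩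
  have := ht l
  simp only [mv2, corner, Pi.add_apply, decide_eq_true_eq, ite_not] at this ⊢
  split_ifs with c
  · exact c.symm
  · simpa using (this.resolve_left (by simpa using c)).symm

theorem mv2_rc (y : Site 4 (2 * m)) (g : (Fin 4 → Bool) × Site 4 m) (k : Fin 4) :
    mv2 y (Function.update g.1 k (!g.1 k), rf k g.2) = rc k (mv2 y g) := by
  funext l
  simp only [mv2, corner_rf (mul_comm 2 m)]
  by_cases hl : l = k
  · cases h : g.1 k <;> simp [rc, rf, hl, h] <;> ring
  · simp [rc, rf, hl]

variable [NeZero n] {lam : ℕ}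

theorem img_rc (hn : n = m * lam) (F : Src n) (g : (Fin 4 → Bool) × Site 4 m) (k : Fin 4) :
    img lam (Function.update g.1 k (!g.1 k), rf k g.2) F = rF k (img lam g F) := by
  funext x μ ν
  simp only [img, rE, rF, corner_rf hn]
  congr 1
  funext l
  by_cases hl : l = k
  · by_cases c : μ = k ∨ ν = k <;> cases h : g.1 k <;> simp [rq, rc, rf, hl, h, c] <;> ring
  · by_cases c : μ = k ∨ ν = k <;> simp [rq, rc, rf, hl, c]

theorem val_lt (hn : n = m * lam) {z : ZMod n} {x : ZMod (2 * m)} {T X : ℤ} (hz : z = T)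
    (hx : x = X) (h1 : X * lam + 2 ≤ 2 * T) (h2 : 2 * T + 2 ≤ (X + 1) * lam) (h : x.val < m) :
    z.val < n / 2 := by
  obtain ⟨j, hj⟩ := (ZMod.intCast_eq_intCast_iff_dvd_sub (x.val : ℤ) X (2 * m)).1
    (by simpa using hx)
  have e : z = ((T - n * j : ℤ) : ZMod n) := by simp [hz]
  have a : (0 : ℤ) ≤ x.val * lam := by positivity
  have b : ((x.val : ℤ) + 1) * lam ≤ m * lam := by gcongr; omega
  have c : X * lam = x.val * lam + 2 * (n * j) := by
    rw [sub_eq_iff_eq_add'.1 hj, hn]; push_cast; ring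
  have d : (n : ℤ) = m * lam := by exact_mod_cast hn
  have := ZMod.val_intCast (n := n) (T - n * j)
  rw [← e, Int.emod_eq_of_lt (by linarith) (by linarith)] at this
  have : 2 * (z.val : ℤ) + 2 ≤ n := by linarith
  omega

theorem img_dep (hn : n = m * lam) {F : Src n} {c : Fin 4 → ℤ} (hF : Slot lam c F)
    (g : (Fin 4 → Bool) × Site 4 m) (k : Fin 4) (h : (mv2 (fun l => c l) g k).val < m) :
    Dep (n / 2) k (gfield (img lam g F)) := dep_gfield fun z μ ν a => by
  obtain ⟨t, t1, t2, t3⟩ := hF _ μ ν (fun l => if g.1 l then -(z l - corner lam g.2 l) else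
    z l - corner lam g.2 l) a (fun l => by
      by_cases c : μ = l ∨ ν = l <;> cases e : g.1 l <;> simp [c, e]) k
  cases e : g.1 k
  · exact val_lt hn (T := t + lam * (g.2 k).val) (X := c k + 2 * (g.2 k).val)
      (by simpa [e, corner, sub_eq_iff_eq_add] using t1) (by simp [mv2, e, corner])
      (by linarith) (by linarith) h
  · exact val_lt hn (T := -t + lam * (g.2 k).val) (X := -c k - 1 + 2 * (g.2 k).val)
      (by simp [e, corner] at t1; simp [← t1]) (by simp [mv2, e, corner])
      (by linarith) (by linarith) h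

end LgST

open LgST

variable [MeasurableSpace SU2] [BorelSpace SU2] {h : Measure SU2} [h.IsHaarMeasure]
  [IsProbabilityMeasure h]

theorem step [NeZero n] [NeZero m] {b : ℝ} {lam : ℕ} (hb : 0 ≤ b) (hm : Odd m) (hn : n = m * lam)
    {κ : Type} [Fintype κ] (c : κ → Fin 4 → ℤ) (F : κ → Src n)
    (hc : Function.Injective fun i l => (c i l : ZMod (2 * m))) (hF : ∀ i, Slot lam (c i) (F i))
    {K : ℝ} (K0 : 0 < K) (hK : ∀ i, |∫ U, ∏ g : (Fin 4 → Bool) × Weak.Site 4 m,
      cen h b (img lam g (F i)) U ∂wilson h b n| ≤ K ^ ((2 * m) ^ 4)) :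
    |∫ U, ∏ i, cen h b (F i) U ∂wilson h b n| ≤ K ^ Fintype.card κ := by
  classical
  let e := fun i => Equiv.ofBijective _ (mv2_bij fun l => (c i l : ZMod (2 * m)))
  obtain ⟨f, f0, f1⟩ : ∃ f : Option κ → Site 4 (2 * m) → Cfg n → ℝ, (∀ x, f none x = fun _ => 1) ∧
      ∀ i g, f (some i) (e i g) = fun U => cen h b (img lam g (F i)) U / K :=
    ⟨fun o x U => o.elim 1 fun i => cen h b (img lam ((e i).symm x) (F i)) U / K, fun _ => rfl,
      fun i g => by simp only [Equiv.symm_apply_apply, Option.elim]⟩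
  have fc : ∀ o x, Continuous (f o x) := by
    rintro (_ | i) x
    · exact f0 x ▸ continuous_const
    obtain ⟨g, rfl⟩ := (e i).surjective x
    exact f1 i g ▸ (continuous_cen h b _).div_const _
  have fs : ∀ o x s U, f o x (shift (corner lam s) U) = f o (x + corner 2 (s : Site 4 m)) U := by
    rintro (_ | i) x s U
    · simp only [f0]
    obtain ⟨g, rfl⟩ := (e i).surjective x
    have : e i g + corner 2 s = e i (g.1, g.2 + s) := by
      simp [e, mv2, corner_add (mul_comm 2 m), add_assoc]
    have r : img lam (g.1, g.2 + s) (F i) = fun x => img lam g (F i) (x - corner lam s) :=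
      funext fun x => by simp only [img, corner_add hn, sub_sub, add_comm]
    simp only [this, f1, r, cen_of h b (mp_shift' h b _) (gfield_shift _ _)]
  have fr : ∀ o x k U, f o x (refl k U) = f o (rc k x) U := by
    rintro (_ | i) x k U
    · simp only [f0]
    obtain ⟨g, rfl⟩ := (e i).surjective x
    have : rc k (e i g) = e i (Function.update g.1 k (!g.1 k), rf k g.2) := (mv2_rc _ g k).symm
    simp only [this, f1, img_rc hn, cen_of h b (mp_refl' h b _) (gfield_refl _ _)]
  have fd : ∀ o x k, (x k).val < m → Dep (n / 2) k (f o x) := by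
    rintro (_ | i) x k a U V r
    · simp only [f0]
    obtain ⟨g, rfl⟩ := (e i).surjective x
    simp only [f1, cen, img_dep hn (hF i) g k a U V r]
  refine (chess_even hm (fun σ => ∫ U, ∏ x, f (σ x) x U ∂wilson h b n)
    (fun σ s => ?_) (fun σ k => ?_)
    (Function.extend (fun i l => (c i l : ZMod (2 * m))) some fun _ => none)).elim fun o ho => ?_
  rotate_right
  · have p : ∀ U, ∏ i, cen h b (F i) U / K = ∏ x, f (Function.extend
        (fun i l => (c i l : ZMod (2 * m))) some (fun _ => none) x) x U := fun U => by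
      refine Fintype.prod_of_injective _ hc _ _ (fun x a => by
        rw [Function.extend_apply' _ _ _ a, f0]) fun i => ?_
      have : (fun l => (c i l : ZMod (2 * m))) = e i (fun _ => false, 0) := by
        funext l
        simp [e, mv2, corner]
      have r : img lam (fun _ => false, (0 : Site 4 m)) (F i) = F i := by
        funext x μ ν
        simp [img, rE, show (corner lam (0 : Site 4 m) : Site 4 n) = 0 by funext l; simp [corner]]
      rw [hc.extend_apply, this, f1, r]
    have q : |∫ U, ∏ x, f o x U ∂wilson h b n| ≤ 1 := by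
      cases o with
      | none => simp [f0]
      | some i =>
        simp only [← (e i).prod_comp, f1, Finset.prod_div_distrib, integral_div, Finset.prod_const,
          Finset.card_univ, abs_div, abs_of_pos (pow_pos K0 _)]
        exact (div_le_one (pow_pos K0 _)).2 ((hK i).trans_eq (by simp [mul_pow]))
    simp only [← p, Finset.prod_div_distrib, integral_div, Finset.prod_const, Finset.card_univ,
      abs_div, abs_of_pos (pow_pos K0 _)] at ho
    exact (div_le_one (pow_pos K0 _)).1 (ho.trans q)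
  · rw [← int_mp (mp_shift' h b (corner lam s)) (F := fun U => ∏ x, f (σ (x + corner 2 s)) x U)
      (continuous_finsetProd _ fun x _ => fc _ _)]
    simp only [fs]
    congr 1
    funext U
    exact Equiv.prod_comp (Equiv.addRight _) fun x => f (σ x) x U
  · have e : ∀ (τ τ' : Site 4 (2 * m) → Option κ) U, (∏ x with (x k).val < m, f (τ x) x U) *
        (∏ x with (x k).val < m, f (τ' x) x (refl k U)) = ∏ x, f (symp m k τ τ' x) x U := by
      intro τ τ' U
      rw [prod_half rfl k]
      congr 1
      · refine Finset.prod_congr rfl fun x hx => ?_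
        rw [symp, if_pos (Finset.mem_filter.mp hx).2]
      · refine Finset.prod_congr rfl fun x hx => ?_
        have := (Finset.mem_filter.mp hx).2
        rw [symp, if_neg (by rw [rc_val]; omega), rc_rc, fr]
    have cA : ∀ τ : Site 4 (2 * m) → Option κ, BM fun U => ∏ x with (x k).val < m, f (τ x) x U :=
      fun τ => BM.of_continuous (continuous_finsetProd _ fun x _ => fc _ _)
    have dA : ∀ τ : Site 4 (2 * m) → Option κ,
        Dep (n / 2) k fun U => ∏ x with (x k).val < m, f (τ x) x U :=
      fun τ U V h => Finset.prod_congr rfl fun x hx => fd _ x k (Finset.mem_filter.mp hx).2 U V h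
    have := YM5.wilson_rp_ineq h hb k (cA σ) (cA fun x => σ (rc k x)) (dA σ)
      (dA fun x => σ (rc k x))
    simp only [e] at this
    rwa [show symp m k σ (fun x => σ (rc k x)) = σ by funext x; simp [symp, rc_rc]] at this

end Pool.Agent.Lib.MP_7f377f_mp.Lg
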