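import Pool.Agent.Lib.MP_7f377f_mp.LinHom

namespace Pool.Agent.Lib.MP_7f377f_mp.Lin

noncomputable section

open Classical Function Finset
open scoped InnerProductSpace

variable {d : ℕ}

def NN (l : ℕ) : ℕ := 2 * l + 1
def Sc (l : ℕ) : P := t (-(l : ℤ)) * S (NN l)
def be (l : ℕ) : ℝ := NN l / ((l : ℝ) ^ 2 + l + 1)
def cu (l r : ℕ) : ℝ := be l * (1 - 3 * r / NN l)
def U0 (l : ℕ) : P := ∑ r ∈ range (l + 1), cu l r • t (r : ℤ) - (be l / 2) • 1
def uu (l : ℕ) : P := U0 l + bar (U0 l)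
def GU0 (l : ℕ) : P := -∑ r ∈ range (l + 1), cu l r • R r
def GU (l : ℕ) : P := GU0 l - bar (GU0 l) * t (-1)
def aa (l : ℕ) (T : Finset (Fin d)) (μ : Fin d) : P :=
  if μ ∈ T then t (-(l : ℤ)) * uu l else Sc l * uu l
def bb (l : ℕ) (T : Finset (Fin d)) (μ : Fin d) : P := if μ ∈ T then Sc l * S (NN l) else Sc l
def QT (l : ℕ) (T : Finset (Fin d)) : Op d :=
  (NN l : ℝ) ^ T.card • (Vs (NN l) * ev (∏ μ, emb μ (bb l T μ)))
def IT (l : ℕ) (T : Finset (Fin d)) : Op d :=
  ((NN l : ℝ) ^ d / (NN l : ℝ) ^ T.card) • (ev (∏ μ, emb μ (aa l T μ)) * V (NN l))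
def PT (l : ℕ) (T : Finset (Fin d)) (μ : Fin d) : Op d :=
  (NN l : ℝ) • (dr μ (aa l T μ) * pi1 (NN l) μ * dr μ (bb l T μ))
def h0 (l : ℕ) (μ : Fin d) : Op d := dr μ (G (NN l) + S (NN l) * GU l) +
  dr μ (uu l * t (l : ℤ)) * kk (NN l) μ * dr μ (Sc l)
def hb (l : ℕ) (μ : Fin d) : Op d := (1 - PT l ∅ μ) * h0 l μ
def lb (l : ℕ) (ν : Fin d) : Op d := hom (PT l ∅) (hb l) (List.finRange d) ν
def Hb (l : ℕ) (ρ ν : Fin d) : Op d := hom (PT l {ρ}) (hb l) (List.finRange d) ν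

variable {l : ℕ}

lemma NN_pos (l : ℕ) : 0 < NN l := Nat.succ_pos _
lemma NN_cast (l : ℕ) : (NN l : ℝ) = 2 * l + 1 := by simp [NN]
lemma NN_one (l : ℕ) : (1 : ℝ) ≤ NN l := by exact_mod_cast NN_pos l

lemma t_neg (s : ℤ) : (t (-s) * t s : P) = 1 := by rw [← t_add]; simp

lemma Sc_eq (l : ℕ) : Sc l = t (l : ℤ) * bar (S (NN l)) := by
  have h := t_bar_S (NN l)
  have e : (t ((NN l : ℕ) : ℤ) : P) = t 1 * t (l : ℤ) * t (l : ℤ) := by
    rw [← t_add, ← t_add]; congr 1; simp [NN]; ring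
  rw [e] at h
  rw [Sc]
  linear_combination (-(t (-1) * t (-(l : ℤ)))) * h - t (-(l : ℤ)) * S (NN l) * t_neg 1 +
    t (l : ℤ) * bar (S (NN l)) * (t (-1) * t 1 * t_neg l + t_neg 1)

lemma Sc_sq (l : ℕ) : Sc l * Sc l = W (NN l) := by
  nth_rewrite 1 [Sc_eq]
  rw [Sc, W]
  linear_combination S (NN l) * bar (S (NN l)) * t_neg l

lemma sum_cu (l : ℕ) : ∑ r ∈ range (l + 1), cu l r = (1 + be l) / 2 ∧
    ∑ r ∈ range (l + 1), cu l r * r = 0 := by
  have h1 : ∀ n : ℕ, ∑ r ∈ range (n + 1), (r : ℝ) = n * (n + 1) / 2 := fun n => by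
    induction n with
    | zero => simp
    | succ n ih => rw [sum_range_succ, ih]; push_cast; ring
  have h2 : ∀ n : ℕ, ∑ r ∈ range (n + 1), (r : ℝ) ^ 2 = n * (n + 1) * (2 * n + 1) / 6 := fun n => by
    induction n with
    | zero => simp
    | succ n ih => rw [sum_range_succ, ih]; push_cast; ring
  have e1 : ∀ r : ℕ, cu l r = be l - 3 * be l / NN l * r := fun r => by rw [cu]; ring
  have e2 : ∀ r : ℕ, cu l r * r = be l * r - 3 * be l / NN l * r ^ 2 := fun r => by rw [cu]; ring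
  simp only [e2]
  simp only [e1, sum_sub_distrib, ← mul_sum, h1, h2, sum_const, card_range, nsmul_eq_mul, be,
    NN_cast]
  push_cast
  constructor <;> field_simp <;> ring

lemma be_le (l : ℕ) : 0 ≤ be l ∧ be l ≤ 4 / NN l := by
  rw [be, NN_cast]
  refine ⟨by positivity, ?_⟩
  rw [div_le_div_iff₀ (by positivity) (by positivity)]; nlinarith

lemma cu_le {r : ℕ} (hr : r ∈ range (l + 1)) : |cu l r| ≤ 4 / NN l := by
  have h : (r : ℝ) ≤ l := by exact_mod_cast Nat.lt_succ_iff.1 (mem_range.1 hr)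
  have h2 : 3 * (r : ℝ) / NN l ≤ 2 := by rw [NN_cast, div_le_iff₀ (by positivity)]; linarith
  have h3 : 0 ≤ 3 * (r : ℝ) / NN l := by positivity
  rw [cu, abs_mul, abs_of_nonneg (be_le l).1]
  exact (mul_le_of_le_one_right (be_le l).1 (abs_le.2 ⟨by linarith, by linarith⟩)).trans (be_le l).2

lemma GU_D (l : ℕ) : GU l * D = 1 - uu l := by
  have h : GU0 l * D = (1 / 2 : ℝ) • 1 - U0 l := by
    rw [GU0, neg_mul, sum_mul, U0]
    simp only [smul_mul_assoc, R_D, smul_sub, sum_sub_distrib, ← sum_smul, (sum_cu l).1]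
    module
  have h' := congrArg bar h
  rw [map_mul, bar_D, map_sub, map_smul, map_one] at h'
  have e : (1 / 2 : ℝ) • (1 : P) + (1 / 2 : ℝ) • 1 = 1 := by module
  rw [GU, uu]
  linear_combination h + h' + e

lemma pi_Wt {N : ℕ} (hN : 0 < N) (μ : Fin d) {r : ℕ} (hr : r ≤ N) :
    pi1 N μ * dr μ (W N * t (r : ℤ)) * pi1 N μ = (N : ℝ)⁻¹ • pi1 N μ +
      ((N : ℝ)⁻¹ * (N : ℝ)⁻¹ * r) • (dr μ (t (N : ℤ) - 1) * pi1 N μ) := by
  have h : (N : ℝ) ≠ 0 := by positivity
  induction r with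
  | zero => simp [pi_W_pi hN]
  | succ r ih =>
    have e1 : W N * t ((r + 1 : ℕ) : ℤ) = W N * t (r : ℤ) + S N * D * (t (r : ℤ) * bar (S N)) := by
      rw [Nat.cast_succ, t_add, W, D]; ring
    have e2 : pi1 N μ * dr μ (t (r : ℤ)) * ((N : ℝ) • (dr μ (bar (S N)) * pi1 N μ)) = pi1 N μ :=
      oext fun f x => by
        rw [mul_apply_eq_comp, mul_apply_eq_comp, pi1_ap, pi1_ap, ind]
        split_ifs with hx
        · obtain ⟨c, hc⟩ := hx
          rw [dr_t, sh_apply, floor_ap hN, add_assoc, ← Pi.single_add, Pi.add_apply,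
            Pi.single_eq_same, hc, add_comm (_ * c), Int.add_mul_emod_self_left,
            Int.emod_eq_of_lt (by omega) (by omega)]
          simp
        · simp
    rw [mul_smul_comm, ← eq_inv_smul_iff₀ h] at e2
    rw [e1, dr_add, mul_add, add_mul, ih (by omega), dr_mul μ (S N * D), ← mul_assoc, pi1_SD,
      dr_mul μ (t _), mul_assoc (dr μ (S N * D)), mul_assoc (dr μ (S N * D)),
      ← mul_assoc (pi1 N μ), mul_assoc (pi1 N μ * _), e2, S_D, dr_smul]
    simp only [smul_mul_assoc, mul_smul_comm]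
    push_cast
    module

lemma pi_key (μ : Fin d) : pi1 (NN l) μ * dr μ (W (NN l) * uu l) * pi1 (NN l) μ =
    (NN l : ℝ)⁻¹ • pi1 (NN l) μ := by
  have h : pi1 (NN l) μ * dr μ (W (NN l) * U0 l) * pi1 (NN l) μ =
      ((NN l : ℝ)⁻¹ / 2) • pi1 (NN l) μ := by
    simp only [U0, mul_sub, mul_sum, mul_smul_comm, dr_sub, dr_sum, dr_smul, sub_mul, sum_mul,
      smul_mul_assoc, mul_one, pi_W_pi (NN_pos l)]
    rw [sum_congr rfl fun r hr => by
      rw [pi_Wt (NN_pos l) μ (by have := mem_range.1 hr; unfold NN; omega)]]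
    simp only [smul_add, sum_add_distrib, smul_smul, ← sum_smul, ← sum_mul, mul_left_comm (cu l _),
      ← mul_sum, (sum_cu l).1, (sum_cu l).2]
    module
  have h' := congrArg star h
  rw [star_mul, star_mul, star_pi1, star_dr, map_mul, bar_W, star_smul, star_pi1, star_trivial,
    ← mul_assoc] at h'
  rw [uu, mul_add, dr_add, mul_add, add_mul, h, h']
  module

lemma bb_aa (T : Finset (Fin d)) (μ : Fin d) : bb l T μ * aa l T μ = W (NN l) * uu l := by
  rw [← Sc_sq, aa, bb]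
  split_ifs
  · nth_rewrite 3 [Sc]; ring
  · ring

lemma pis_pis {N : ℕ} {c : ℝ} {p : Fin d → P}
    (h : ∀ μ, pi1 N μ * dr μ (p μ) * pi1 N μ = c • pi1 N μ) (s : Finset (Fin d)) :
    pis N s * ev (∏ μ ∈ s, emb μ (p μ)) * pis N s = c ^ s.card • pis N s := by
  induction s using Finset.induction_on with
  | empty => simp [pis_empty]
  | insert μ s hμ ih =>
    have e1 := pi1_ev N (prod_off hμ p)
    have e2 := pis_ev N s (p := emb μ (p μ)) fun ν hν => emb_off (by rintro rfl; exact hμ hν) _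
    have e3 : pis N s * pi1 N μ = pi1 N μ * pis N s := oext fun f x => by
      simp only [mul_apply_eq_comp, pis_ap, pi1_ap]; ring
    rw [prod_insert hμ, pis_insert N hμ, card_insert_of_notMem hμ, pow_succ', mul_smul, map_mul,
      ← mul_smul_comm, ← ih, ← smul_mul_assoc, ← h, dr]
    simp only [mul_assoc]
    rw [← mul_assoc (pis N s), e2, ← mul_assoc (ev _) (pi1 N μ), ← e1]
    simp only [mul_assoc]
    rw [← mul_assoc (pis N s), e3, mul_assoc]

lemma QT_IT (T : Finset (Fin d)) : QT l T * IT l T = 1 := by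
  have hN := NN_pos l
  have h : (NN l : ℝ) ≠ 0 := by positivity
  have e : pis (NN l) univ * V (NN l) = (V (NN l) : Op d) := by
    rw [← V_Vs hN, mul_assoc, Vs_V hN, mul_one]
  have := pis_pis (pi_key (l := l) (d := d)) univ
  rw [card_univ, Fintype.card_fin] at this
  rw [QT, IT, smul_mul_assoc, mul_smul_comm, smul_smul, mul_assoc, ← mul_assoc (ev _), ← map_mul,
    ← prod_mul_distrib]
  simp only [← map_mul, bb_aa]
  rw [← Vs_pis hN univ, ← e, mul_assoc (Vs _), ← mul_assoc (pis _ _), ← mul_assoc (_ * _), this,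
    smul_mul_assoc, e, mul_smul_comm, Vs_V hN, smul_smul]
  rw [mul_div_cancel₀ _ (by positivity), ← mul_pow, mul_inv_cancel₀ h, one_pow, one_smul]

lemma prod_ins {T : Finset (Fin d)} {μ : Fin d} (a : Finset (Fin d) → Fin d → P) {p q : P}
    (h : ∀ ν, ν ≠ μ → a (insert μ T) ν = a T ν) (h' : a (insert μ T) μ * p = a T μ * q) :
    (∏ ν, emb ν (a (insert μ T) ν)) * emb μ p = (∏ ν, emb ν (a T ν)) * emb μ q := by
  rw [← mul_prod_erase _ _ (mem_univ μ), ← mul_prod_erase _ _ (mem_univ μ),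
    prod_congr rfl fun ν hν => by rw [h ν (ne_of_mem_erase hν)], mul_right_comm, ← map_mul, h',
    map_mul, mul_right_comm]

lemma prod_bb {T : Finset (Fin d)} {μ : Fin d} (hμ : μ ∉ T) :
    ∏ ν, emb ν (bb l (insert μ T) ν) = (∏ ν, emb ν (bb l T ν)) * emb μ (S (NN l)) := by
  simpa using prod_ins (T := T) (μ := μ) (bb l) (p := 1) (q := S (NN l))
    (fun ν hν => by simp [bb, hν]) (by simp [bb, hμ])

lemma QT_D {T : Finset (Fin d)} {μ : Fin d} (hμ : μ ∉ T) :
    QT l (insert μ T) * Dm μ = Dm μ * QT l T := by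
  rw [QT, QT, prod_bb hμ, card_insert_of_notMem hμ, pow_succ, mul_smul, smul_mul_assoc,
    Vs_SD (NN_pos l), mul_smul_comm]

lemma IT_D {T : Finset (Fin d)} {μ : Fin d} (hμ : μ ∉ T) :
    IT l (insert μ T) * Dm μ = Dm μ * IT l T := by
  have hN := NN_pos l
  have h : (NN l : ℝ) ≠ 0 := by positivity
  have e := prod_ins (T := T) (μ := μ) (aa l) (p := S (NN l) * D) (q := D)
    (fun ν hν => by simp [aa, hν]) (by simp only [aa, mem_insert_self, if_true, if_neg hμ, Sc]; ring)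
  rw [IT, IT, smul_mul_assoc, mul_smul_comm, mul_assoc, Dm, ← dr_V hN, dil_D hN, dr_smul,
    smul_mul_assoc, mul_smul_comm, smul_smul, ← mul_assoc, ← mul_assoc, dr, dr, ← map_mul, e,
    ← map_mul, mul_comm (emb μ D), card_insert_of_notMem hμ]
  congr 1
  rw [pow_succ]
  field_simp

lemma prod_PT (T : Finset (Fin d)) : ((List.finRange d).map (PT l T)).prod = IT l T * QT l T := by
  have hN := NN_pos l
  have := prod_P (N := NN l) (aa l T) (bb l T) _ (List.nodup_finRange d)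
  rw [List.toFinset_finRange, List.length_finRange, ← V_Vs hN] at this
  rw [IT, QT, smul_mul_assoc, mul_smul_comm, smul_smul, div_mul_cancel₀ _ (by positivity)]
  exact this.trans (by simp only [mul_assoc])

lemma h0_D (μ : Fin d) : h0 l μ * Dm μ = 1 - PT l ∅ μ := by
  have hN := NN_pos l
  have e : PT l ∅ μ = dr μ (uu l * t (l : ℤ)) * (1 - kk (NN l) μ * Dm μ) * dr μ (Sc l) := by
    rw [← floor_eq hN, PT, aa, bb, if_neg (notMem_empty _), if_neg (notMem_empty _)]
    nth_rewrite 1 [Sc_eq]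
    simp only [mul_smul_comm, smul_mul_assoc, ← mul_assoc, ← dr_mul]
    congr 4; ring
  have e2 : (G (NN l) + S (NN l) * GU l) * D = 1 - uu l * t (l : ℤ) * Sc l := by
    rw [Sc]; linear_combination G_D hN + S (NN l) * GU_D l + uu l * S (NN l) * t_neg l
  have e3 := congrArg (dr μ) e2
  rw [dr_mul, dr_sub, dr_mul _ _ (Sc l), dr_one] at e3
  rw [e, h0, add_mul, Dm, e3, mul_assoc _ (dr μ (Sc l)), dr_comm μ μ (Sc l) D]
  noncomm_ring

lemma pi_PT (μ : Fin d) : pi1 (NN l) μ * dr μ (Sc l) * PT l ∅ μ = pi1 (NN l) μ * dr μ (Sc l) := by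
  have h : (NN l : ℝ) ≠ 0 := by have := NN_pos l; positivity
  have := pi_key (l := l) μ
  rw [← bb_aa ∅ μ, dr_mul, ← mul_assoc] at this
  rw [PT, mul_smul_comm, ← mul_assoc, ← mul_assoc]
  simp only [bb, if_neg (notMem_empty μ)] at this ⊢
  rw [this, smul_mul_assoc, smul_smul, mul_inv_cancel₀ h, one_smul]

lemma hb_D (μ : Fin d) : hb l μ * Dm μ = 1 - PT l ∅ μ := by
  have : PT l ∅ μ * PT l ∅ μ = PT l ∅ μ := by
    nth_rewrite 1 [PT]
    nth_rewrite 2 [PT]
    simp only [bb, if_neg (notMem_empty μ), smul_mul_assoc, mul_assoc _ (pi1 _ _)]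
    rw [mul_assoc, pi_PT]
  rw [hb, mul_assoc, h0_D, sub_mul, mul_sub, mul_sub, this]
  simp

lemma D_PT (ρ μ : Fin d) : Dm ρ * PT l ∅ μ = PT l {ρ} μ * Dm ρ := by
  rw [PT, PT, mul_smul_comm, smul_mul_assoc, Dm]
  congr 1
  by_cases h : μ = ρ
  · subst h
    simp only [aa, bb, if_neg (notMem_empty μ), mem_singleton, if_true]
    have e1 : dr μ D * dr μ (Sc l * uu l) = dr μ (t (-(l : ℤ)) * uu l) * dr μ (S (NN l) * D) := by
      rw [← dr_mul, ← dr_mul, Sc]; congr 1; ring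
    have e2 : dr μ (Sc l * S (NN l)) * dr μ D = dr μ (S (NN l) * D) * dr μ (Sc l) := by
      rw [← dr_mul, ← dr_mul]; congr 1; ring
    rw [← mul_assoc, ← mul_assoc, e1, mul_assoc _ _ (dr μ D), e2, mul_assoc _ _ (pi1 _ μ),
      ← pi1_SD]
    simp only [mul_assoc]
  · simp only [aa, bb, if_neg (notMem_empty μ), mem_singleton, if_neg h]
    have e : pi1 (NN l) μ * dr ρ D = dr ρ D * pi1 (NN l) μ := pi1_ev _ (emb_off (Ne.symm h) _)
    rw [mul_assoc _ _ (dr ρ D), dr_comm μ ρ, mul_assoc _ (pi1 _ μ) (_ * _), ← mul_assoc (pi1 _ μ),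
      e, ← mul_assoc, ← mul_assoc, ← mul_assoc, ← mul_assoc, dr_comm μ ρ]

lemma PT_off {ρ μ : Fin d} (h : ρ ≠ μ) : PT l {ρ} μ = PT l ∅ μ := by
  simp [PT, aa, bb, Ne.symm h]

lemma hb_comm {μ ρ : Fin d} (h : ρ ≠ μ) : hb l μ * Dm ρ = Dm ρ * hb l μ := by
  have e : Commute (kk (NN l) μ) (Dm ρ) := Commute.sum_left _ _ _ fun s _ =>
    Commute.mul_left (Off.comm (emb_off h D) ⟨1, fun x => lo_le s (x μ)⟩)
      (by rw [← dr_t]; exact dr_comm _ _ _ _)
  have c : ∀ p, Commute (dr μ p) (Dm ρ) := fun p => dr_comm _ _ _ _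
  have c2 : Commute (PT l ∅ μ) (Dm ρ) := by rw [Commute, SemiconjBy, D_PT, PT_off h]
  exact ((Commute.one_left _).sub_left c2).mul_left
    ((c _).add_left (((c _).mul_left e).mul_left (c _)))

lemma D_hb (ρ : Fin d) : Dm ρ * hb l ρ = 1 - PT l {ρ} ρ := by
  rw [← sub_eq_zero]
  apply cancel_D (ρ := ρ)
  rw [sub_mul, mul_assoc, hb_D, mul_sub, D_PT, sub_mul, one_mul, mul_one, sub_self]

theorem homotopy (A : Fin d → E d) (ρ : Fin d) :
    A ρ - Dm ρ (∑ ν, lb l ν (A ν)) = IT l {ρ} (QT l {ρ} (A ρ)) + ∑ ν, Hb l ρ ν (d1 A ν ρ) := by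
  have k : ∀ L : List (Fin d), A ρ - Dm ρ (∑ ν, hom (PT l ∅) (hb l) L ν (A ν)) =
      (L.map (PT l {ρ})).prod (A ρ) + ∑ ν, hom (PT l {ρ}) (hb l) L ν (d1 A ν ρ) := fun L => by
    induction L with
    | nil => simp [hom]
    | cons μ L ih =>
      have e1 := fun f => congrArg (fun T : Op d => T f) (D_PT (l := l) ρ μ)
      simp only [mul_apply_eq_comp] at e1
      have e2 : A ρ - PT l {ρ} μ (A ρ) = hb l μ (d1 A μ ρ) + Dm ρ (hb l μ (A μ)) := by
        by_cases h : ρ = μ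
        · subst h
          have := congrArg (fun T : Op d => T (A ρ)) (D_hb (l := l) ρ)
          simp only [mul_apply_eq_comp, sub_apply, one_apply_eq_self] at this
          simp [d1, this]
        · have h1 := congrArg (fun T : Op d => T (A ρ)) (hb_D (l := l) μ)
          have h2 := congrArg (fun T : Op d => T (A μ)) (hb_comm (l := l) h)
          simp only [mul_apply_eq_comp, sub_apply, one_apply_eq_self] at h1 h2
          rw [d1, map_sub, h1, h2, PT_off h]
          abel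
      rw [hom_sum, hom_sum, List.map_cons, List.prod_cons, mul_apply_eq_comp, map_add, e1,
        add_left_comm, ← map_add, ← ih, map_sub, eq_sub_of_add_eq e2.symm]
      abel
  have h := k (List.finRange d)
  rwa [prod_PT] at h

lemma Q0_lb (ν : Fin d) : QT l ∅ * lb l ν = 0 := by
  have e : ∀ μ : Fin d, QT l ∅ * PT l ∅ μ = QT l ∅ := fun μ => by
    have : QT l ∅ = Vs (NN l) * ev (∏ ν ∈ univ.erase μ, emb ν (Sc l)) *
        (pi1 (NN l) μ * dr μ (Sc l)) := by
      rw [← mul_assoc, mul_assoc (Vs _), ← pi1_ev _ (prod_off (notMem_erase μ univ) _),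
        ← mul_assoc, ← mul_one (pi1 _ μ), ← pis_empty (NN l), ← pis_insert _ (notMem_empty μ),
        Vs_pis (NN_pos l), mul_assoc, dr, ← map_mul, prod_erase_mul _ _ (mem_univ μ)]
      simp [QT, bb]
    rw [this, mul_assoc, pi_PT]
  have k : ∀ L : List (Fin d), QT l ∅ * hom (PT l ∅) (hb l) L ν = 0 := fun L => by
    induction L with
    | nil => simp [hom]
    | cons μ L ih =>
      rw [hom, mul_add, ← mul_assoc, e, ih, add_zero]
      split_ifs
      · rw [hb, ← mul_assoc, mul_sub, e]; simp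
      · simp
  exact k _

lemma gd_tl (μ : Fin d) {s : ℤ} (hs : |s| ≤ l) : Gd (NN l) (NN l) (dr μ (t s) : Op d) 4 :=
  gd_t (by linarith [NN_one l]) μ s (by
    have : |(s : ℝ)| ≤ l := by exact_mod_cast hs
    rw [NN_cast]; linarith [abs_nonneg (s : ℝ)])

lemma gd_pi (μ : Fin d) : Gd (NN l) (NN l) (pi1 (NN l) μ) 4 := by
  have := gd_mu_sh (M := NN l) (by linarith [NN_one l]) (fun x : Z d => ind_le (NN l) (x μ)) μ 0
    (by simp)
  rwa [← dr_t, t_zero, dr_one, mul_one] at this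

lemma gd_U0 (μ : Fin d) : Gd (NN l) (NN l) (dr μ (U0 l) : Op d) 18 := by
  have h1 := NN_one l
  have h2 := be_le l
  have h3 : 4 / (NN l : ℝ) ≤ 4 := div_le_self (by norm_num) h1
  simp only [U0, dr_sub, dr_sum, dr_smul, dr_one]
  refine (((Gd.sum (C := fun _ => 4 / NN l * 4) _ fun (r : ℕ) hr => ((gd_tl μ (s := r) ?_).smul _).mono
    (by gcongr; exact cu_le hr))).sub (gd_one.smul _)).mono ?_
  · have := mem_range.1 hr
    rw [Nat.abs_cast]; omega
  · have : ((l + 1 : ℕ) : ℝ) * (4 / NN l * 4) ≤ 16 := by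
      rw [NN_cast]; push_cast; field_simp; linarith [(Nat.cast_nonneg l : (0 : ℝ) ≤ l)]
    rw [sum_const, card_range, nsmul_eq_mul, abs_of_nonneg (by linarith)]; linarith

lemma gd_uu (μ : Fin d) : Gd (NN l) (NN l) (dr μ (uu l) : Op d) 36 := by
  rw [uu, dr_add]; exact ((gd_U0 μ).add (gd_U0 μ).bar).mono (by norm_num)

lemma gd_pi_uu (μ : Fin d) : Gd (NN l) (NN l) (pi1 (NN l) μ * dr μ (uu l)) (48 / √(NN l)) := by
  have hN := NN_pos l
  have h1 := NN_one l
  have h0 : 0 < √(NN l : ℝ) := by positivity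
  have hq := Real.mul_self_sqrt (Nat.cast_nonneg (NN l) : (0 : ℝ) ≤ NN l)
  have k : ∀ ε : ℤ, ε = 1 ∨ ε = -1 → Gd (NN l) (NN l) (pi1 (NN l) μ *
      dr μ (∑ r ∈ range (l + 1), cu l r • t (ε * r) - (be l / 2) • 1)) (24 / √(NN l)) := by
    intro ε hε
    have e : ∑ r ∈ range (l + 1), cu l r • (t (ε * r) : P) = (4 / NN l : ℝ) • ∑ r ∈ range (NN l),
        (if r ∈ range (l + 1) then cu l r * (NN l / 4) else 0) • t (ε * r) := by
      simp only [ite_smul, zero_smul]
      rw [sum_ite_mem, inter_eq_right.2 (range_mono (by unfold NN; omega)), smul_sum]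
      refine sum_congr rfl fun r _ => ?_
      rw [smul_smul]; congr 1; field_simp
    have p := gd_pi (l := l) μ
    rw [e, dr_sub, dr_smul, dr_smul, dr_one, mul_sub, mul_smul_comm, mul_smul_comm, mul_one]
    refine (((gd_pi_aux hN μ hε _ fun r => ?_).smul _).sub (p.smul _)).mono ?_
    · split_ifs with hr
      · rw [abs_mul, abs_of_pos (by positivity : (0 : ℝ) < NN l / 4)]
        exact (mul_le_mul_of_nonneg_right (cu_le hr) (by positivity)).trans_eq (by field_simp)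
      · simp
    · have h4 : 1 ≤ √(NN l : ℝ) := Real.one_le_sqrt.2 h1
      have h5 : 4 / (NN l : ℝ) ≤ 4 / √(NN l : ℝ) := by gcongr; nlinarith
      have h6 : 4 / (NN l : ℝ) * (4 * √(NN l : ℝ)) = 16 / √(NN l : ℝ) := by field_simp; nlinarith
      rw [abs_of_pos (by positivity), abs_of_nonneg (by linarith [(be_le l).1]), h6]
      have := (be_le l).2
      have e7 : 24 / √(NN l : ℝ) = 16 / √(NN l : ℝ) + 2 * (4 / √(NN l : ℝ)) := by ring
      linarith
  have a := k 1 (Or.inl rfl)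
  have b := k (-1) (Or.inr rfl)
  rw [uu, dr_add, mul_add]
  refine Gd.mono (Gd.add (C := 24 / √(NN l)) (C' := 24 / √(NN l)) ?_ ?_) (le_of_eq (by ring))
  · simpa [U0] using a
  · simpa [U0] using b

lemma gd_Sc (μ : Fin d) : Gd (NN l) (NN l) (dr μ (Sc l) : Op d) 32 := by
  rw [Sc, dr_mul]; exact ((gd_tl μ (by simp)).mul (gd_S (NN_pos l) μ)).mono (by norm_num)

lemma gd_pi_Sc (μ : Fin d) : Gd (NN l) (NN l) (pi1 (NN l) μ * dr μ (Sc l)) (32 / √(NN l)) := by
  rw [Sc, mul_comm (t _), dr_mul, ← mul_assoc]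
  exact ((gd_pi_S (NN_pos l) μ).mul (gd_tl μ (by simp))).mono (le_of_eq (by ring))

lemma gd_pi_bb (T : Finset (Fin d)) (μ : Fin d) :
    Gd (NN l) (NN l) (pi1 (NN l) μ * dr μ (bb l T μ)) (256 / √(NN l)) := by
  rw [bb]
  split_ifs
  · rw [dr_mul, ← mul_assoc]
    exact ((gd_pi_Sc μ).mul (gd_S (NN_pos l) μ)).mono (le_of_eq (by ring))
  · exact (gd_pi_Sc μ).mono (by gcongr; norm_num)

lemma gd_pi_aa (T : Finset (Fin d)) (μ : Fin d) :
    Gd (NN l) (NN l) (pi1 (NN l) μ * dr μ (bar (aa l T μ))) (3072 / √(NN l)) := by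
  have e : bar (uu l) = uu l := by rw [uu, map_add, bar_bar, add_comm]
  rw [aa]
  split_ifs
  · rw [map_mul, e, mul_comm (bar _), dr_mul, ← mul_assoc]
    exact ((gd_pi_uu μ).mul (gd_tl μ (by simp)).bar).mono (by
      rw [show 2 * (48 / √(NN l : ℝ)) * 4 = 384 / √(NN l : ℝ) by ring]; gcongr; norm_num)
  · rw [map_mul, e, mul_comm (bar _), dr_mul, ← mul_assoc]
    exact ((gd_pi_uu μ).mul (gd_Sc μ).bar).mono (le_of_eq (by ring))

lemma prod_sd (c : ℝ) (N : ℕ) : ∏ _μ : Fin d, 2 * (c / √(N : ℝ)) = (2 * c) ^ d / sd d N := by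
  rw [prod_const, card_univ, Fintype.card_fin, sd, ← div_pow, mul_div_assoc]

lemma gd_QT (T : Finset (Fin d)) :
    Gd 1 (NN l) (QT l T) (8 * 512 ^ d * ((NN l : ℝ) ^ T.card / sd d (NN l))) := by
  refine ((gd_Vs_prod (NN_pos l) _ _ (gd_pi_bb T)).smul _).mono (le_of_eq ?_)
  rw [prod_sd, abs_of_nonneg (by positivity)]; norm_num; ring

lemma gd_IT (T : Finset (Fin d)) :
    Gd (NN l) 1 (IT l T) (8 * 6144 ^ d * (sd d (NN l) / (NN l : ℝ) ^ T.card)) := by
  have h := (gd_Vs_prod (NN_pos l) _ _ (gd_pi_aa (l := l) T)).star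
  rw [star_mul, star_ev, map_prod, prod_sd] at h
  simp only [bar_emb, bar_bar] at h
  have := sd_pos (d := d) (NN_pos l)
  have := NN_one l
  refine (h.smul _).mono (le_of_eq ?_)
  rw [abs_of_nonneg (by positivity), ← sd_sq]; norm_num; field_simp

lemma gd_QD (ρ μ : Fin d) {p : P} (hp : Gd (NN l) (NN l) (dr μ p) 4) :
    Gd 1 (NN l) (QT l {ρ} * dr μ (D * p)) (2 ^ 18 * 512 ^ d * (√(NN l) / sd d (NN l))) := by
  have hN := NN_pos l
  have h1 := NN_one l
  have h0 : 0 < √(NN l : ℝ) := by positivity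
  have hq := Real.mul_self_sqrt (Nat.cast_nonneg (NN l) : (0 : ℝ) ≤ NN l)
  have p4 := gd_pi (l := l) μ
  have k := gd_Vs_prod hN (fun ν => if ν = μ then Sc l * D else Sc l)
    (fun ν => if ν = μ then 512 / NN l else 256 / √(NN l)) fun ν => by
      split_ifs with h
      · rw [Sc, mul_assoc, dr_mul, ← mul_assoc, h]
        exact ((p4.mul (gd_tl μ (by simp))).mul (gd_SD hN μ)).mono (by
          rw [show 2 * (2 * 4 * 4) * (5 / (NN l : ℝ)) = 320 / NN l by ring]; gcongr; norm_num)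
      · exact (gd_pi_Sc ν).mono (by gcongr; norm_num)
  have e1 : ∏ ν, emb ν (if ν = μ then Sc l * D else Sc l) =
      (∏ ν, emb ν (bb l ∅ ν)) * emb μ D := by
    simpa [bb] using prod_ins (T := ∅) (μ := μ) (fun T ν => if ν ∈ T then Sc l * D else Sc l)
      (p := 1) (q := D) (fun ν hν => by simp [hν]) (by simp)
  have e2 : ∏ ν, 2 * (if ν = μ then 512 / (NN l : ℝ) else 256 / √(NN l)) =
      2 / √(NN l) * (512 ^ d / sd d (NN l)) := by
    have := prod_sd (d := d) 256 (NN l)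
    norm_num at this
    rw [← this, ← mul_prod_erase _ _ (mem_univ μ), if_pos rfl,
      prod_congr rfl fun ν hν => by rw [if_neg (ne_of_mem_erase hν)], prod_const,
      card_erase_of_mem (mem_univ _), card_univ, Fintype.card_fin]
    obtain ⟨n, rfl⟩ : ∃ n, d = n + 1 := ⟨d - 1, by have := μ.pos; omega⟩
    rw [pow_succ, Nat.add_sub_cancel]
    field_simp
    nlinarith
  rw [e1, e2] at k
  refine Gd.mono (by
    convert ((k.mul (gd_S hN ρ)).mul hp).smul (NN l : ℝ) using 1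
    rw [QT, ← insert_empty_eq, prod_bb (notMem_empty ρ), smul_mul_assoc]
    simp only [card_insert_of_notMem (notMem_empty ρ), card_empty, zero_add, pow_one, mul_assoc,
      dr, ← map_mul ev, map_mul (emb μ)]
    congr 3; ring) ?_
  have hs := sd_pos (d := d) hN
  rw [abs_of_pos (by positivity)]
  refine le_trans (le_of_eq (?_ : _ = 1024 * 512 ^ d * (√(NN l) / sd d (NN l)))) (by gcongr; norm_num)
  field_simp
  nlinarith

lemma gd_PT (T : Finset (Fin d)) (μ : Fin d) : Gd (NN l) (NN l) (PT l T μ) (2 ^ 21) := by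
  have e : pi1 (NN l) μ = pi1 (NN l) μ * pi1 (NN l) μ := oext fun f x => by
    simp only [mul_apply_eq_comp, pi1_ap, ind]; split_ifs <;> simp
  have h := (gd_pi_aa (l := l) T μ).star
  rw [star_mul, star_pi1, star_dr, bar_bar] at h
  rw [PT, e, ← mul_assoc, mul_assoc]
  refine ((h.mul (gd_pi_bb T μ)).smul _).mono ?_
  have h0 : 0 < √(NN l : ℝ) := by have := NN_one l; positivity
  have := Real.sq_sqrt (Nat.cast_nonneg (NN l) : (0 : ℝ) ≤ NN l)
  rw [abs_of_nonneg (Nat.cast_nonneg _)]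
  field_simp
  nlinarith

lemma gd_hb (μ : Fin d) : Gd (NN l) (NN l) (hb l μ) (2 ^ 43 * NN l) := by
  have hN := NN_pos l
  have h1 := NN_one l
  have k : Gd (NN l) (NN l) (kk (NN l) μ) (4 * NN l) := by
    refine (Gd.sum (C := fun _ => 4) _ fun s hs => gd_mu_sh (by positivity)
      (fun x => lo_le s (x μ)) μ _ ?_).mono (by simp [mul_comm])
    have : ((s + 1 : ℕ) : ℝ) ≤ NN l := by exact_mod_cast mem_range.1 hs
    rw [Int.cast_neg, abs_neg, abs_of_nonneg (by positivity)]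
    simpa using this
  have g0 : Gd (NN l) (NN l) (dr μ (GU0 l) : Op d) (16 * NN l) := by
    simp only [GU0, dr_neg, dr_sum, dr_smul]
    refine (Gd.sum (C := fun _ => 4 / NN l * (4 * NN l)) _ fun r hr => ((gd_R hN ?_ μ).smul _).mono
      (by gcongr; exact cu_le hr)).neg.mono ?_
    · have := mem_range.1 hr
      unfold NN; omega
    · rw [sum_const, card_range, nsmul_eq_mul, NN_cast]; push_cast; field_simp
      linarith [(Nat.cast_nonneg l : (0 : ℝ) ≤ l)]
  have g1 : Gd (NN l) (NN l) (dr μ (GU l) : Op d) (144 * NN l) := by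
    rw [GU, dr_sub, dr_mul]
    exact (g0.sub (g0.bar.mul (gd_t (by positivity) μ (-1) (by simpa using hN.nat_succ_le)))).mono
      (le_of_eq (by ring))
  rw [hb, h0, dr_add, dr_mul, dr_mul]
  exact ((gd_one.sub (gd_PT ∅ μ)).mul (((gd_G hN μ).add ((gd_S hN μ).mul g1)).add
    ((((gd_uu μ).mul (gd_tl μ (by simp))).mul k).mul (gd_Sc μ)))).mono (by nlinarith)

lemma gd_hom' {M c p : ℝ} {P h : Fin d → Op d} (hP : ∀ μ, Gd M M (P μ) p)
    (hh : ∀ μ, Gd M M (h μ) c) (L : List (Fin d)) (ν : Fin d) :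
    Gd M M (hom P h L ν) ((2 * p + 1) ^ L.length * c) := by
  have hc := (hh ν).nn
  have hp := (hP ν).nn
  induction L with
  | nil => exact gd_zero.mono (by simpa using hc)
  | cons μ L ih =>
    have k : Gd M M (if ν = μ then h μ else 0) c := by
      split_ifs
      exacts [hh μ, gd_zero.mono hc]
    refine (k.add ((hP μ).mul ih)).mono ?_
    have : c ≤ (2 * p + 1) ^ L.length * c := le_mul_of_one_le_left hc (one_le_pow₀ (by linarith))
    rw [List.length_cons, pow_succ]; linarith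

lemma gd_Hb (ρ ν : Fin d) : Gd (NN l) (NN l) (Hb l ρ ν) ((2 ^ 22 + 1) ^ d * 2 ^ 43 * NN l) := by
  have := gd_hom' (gd_PT (l := l) {ρ}) gd_hb (List.finRange d) ν
  rw [List.length_finRange] at this
  exact this.mono (le_of_eq (by ring))

end

end Pool.Agent.Lib.MP_7f377f_mp.Lin
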