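import Pool.Agent.Lib.MP_7f377f_mp.LinWt

namespace Pool.Agent.Lib.MP_7f377f_mp.Lin

noncomputable section

open Classical Function Finset
open scoped InnerProductSpace

variable {d : ℕ}

def D : P := t 1 - 1
def R (s : ℕ) : P := ∑ r ∈ range s, t (r : ℤ)
def S (N : ℕ) : P := (N : ℝ)⁻¹ • R N
def G (N : ℕ) : P := -((N : ℝ)⁻¹ • ∑ s ∈ range N, R s)
def W (N : ℕ) : P := S N * bar (S N)
def GW (N : ℕ) : P := G N - S N * (bar (G N) * t (-1))
def G3 (N : ℕ) : P := G N + S N * GW N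
def dil (N : ℕ) : P →ₐ[ℝ] P := mp ((N : ℤ) • AddMonoidHom.id ℤ)

lemma R_D (s : ℕ) : R s * D = t (s : ℤ) - 1 := by
  induction s with
  | zero => simp [R]
  | succ s ih =>
    rw [R, sum_range_succ, add_mul, ← R, ih, D, Nat.cast_succ, t_add]; ring

lemma S_D (N : ℕ) : S N * D = (N : ℝ)⁻¹ • (t (N : ℤ) - 1) := by rw [S, smul_mul_assoc, R_D]

lemma G_D {N : ℕ} (hN : 0 < N) : G N * D = 1 - S N := by
  have h : (N : ℝ) ≠ 0 := by positivity
  rw [G, neg_mul, smul_mul_assoc, sum_mul]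
  simp only [R_D, sum_sub_distrib, sum_const, card_range, S, smul_sub]
  rw [R, ← Nat.cast_smul_eq_nsmul ℝ, smul_smul, inv_mul_cancel₀ h, one_smul, neg_sub]

lemma bar_D : bar D = -(t (-1) * D) := by
  rw [D, map_sub, bar_t, map_one, mul_sub, ← t_add]; simp

lemma GW_D {N : ℕ} (hN : 0 < N) : GW N * D = 1 - W N := by
  have h := congrArg bar (G_D hN)
  rw [map_mul, map_sub, map_one, bar_D] at h
  rw [GW, W]
  linear_combination G_D hN + S N * h

lemma G3_D {N : ℕ} (hN : 0 < N) : G3 N * D = 1 - S N * W N := by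
  rw [G3]; linear_combination G_D hN + S N * GW_D hN

@[simp] lemma bar_W (N : ℕ) : bar (W N) = W N := by rw [W, map_mul, bar_bar, mul_comm]

@[simp] lemma dil_t (N : ℕ) (s : ℤ) : dil N (t s) = t (N * s) := by simp [dil]

lemma D_ne : D ≠ 0 := by
  rw [D, sub_ne_zero, ← t_zero, t, t]
  intro h
  have := AddMonoidAlgebra.single_left_injective (one_ne_zero (α := ℝ)) h
  simp at this

lemma dil_D {N : ℕ} (hN : 0 < N) : dil N D = (N : ℝ) • (S N * D) := by
  have h : (N : ℝ) ≠ 0 := by positivity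
  rw [S_D, smul_smul, mul_inv_cancel₀ h, one_smul, D, map_sub, dil_t, map_one, mul_one]

lemma dil_S {N : ℕ} (hN : 0 < N) (L : ℕ) : dil N (S L) * S N = S (N * L) := by
  have h : (N : ℝ) ≠ 0 := by positivity
  apply mul_right_cancel₀ D_ne
  have e : S N * D = (N : ℝ)⁻¹ • dil N D := by
    rw [dil_D hN, smul_smul, inv_mul_cancel₀ h, one_smul]
  rw [mul_assoc, e, mul_smul_comm, ← map_mul, S_D, S_D, map_smul, map_sub, dil_t, map_one,
    smul_smul]
  push_cast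
  rw [mul_inv]

lemma bar_dil (N : ℕ) (p : P) : bar (dil N p) = dil N (bar p) := bar_mp _ p

lemma dil_W {N : ℕ} (hN : 0 < N) (L : ℕ) : dil N (W L) * W N = W (N * L) := by
  have h := congrArg bar (dil_S hN L)
  rw [map_mul, bar_dil] at h
  rw [W, W, W, map_mul, ← h, ← dil_S hN]; ring

lemma t_bar_S (N : ℕ) : t (N : ℤ) * bar (S N) = t 1 * S N := by
  rw [S, map_smul, mul_smul_comm, mul_smul_comm, R, map_sum, mul_sum, mul_sum,
    ← sum_range_reflect]
  congr 1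
  refine sum_congr rfl fun i hi => ?_
  have := mem_range.1 hi
  rw [bar_t, ← t_add, ← t_add]
  congr 1
  omega

def dr (μ : Fin d) (p : P) : Op d := ev (emb μ p)
def ind (N : ℕ) (s : ℤ) : ℝ := if (N : ℤ) ∣ s then 1 else 0
def pi1 (N : ℕ) (μ : Fin d) : Op d := mu fun x => ind N (x μ)
def pis (N : ℕ) (s : Finset (Fin d)) : Op d := mu fun x => ∏ μ ∈ s, ind N (x μ)
def nm (N : ℕ) : Z d →+ Z d := (N : ℤ) • AddMonoidHom.id (Z d)
def Vs (N : ℕ) : Op d := pull (nm N)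
def V (N : ℕ) : Op d := star (Vs N)

@[simp] lemma dr_t (μ : Fin d) (s : ℤ) : dr μ (t s) = sh (Pi.single μ s) := by simp [dr]
lemma dr_mul (μ : Fin d) (p q : P) : dr μ (p * q) = dr μ p * dr μ q := by simp [dr]
lemma dr_add (μ : Fin d) (p q : P) : dr μ (p + q) = dr μ p + dr μ q := by simp [dr]
lemma dr_sub (μ : Fin d) (p q : P) : dr μ (p - q) = dr μ p - dr μ q := by simp [dr]
lemma dr_neg (μ : Fin d) (p : P) : dr μ (-p) = -dr μ p := by simp [dr]
lemma dr_smul (μ : Fin d) (a : ℝ) (p : P) : dr μ (a • p) = a • dr μ p := by simp [dr]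
@[simp] lemma dr_one (μ : Fin d) : dr μ 1 = 1 := by simp [dr]
lemma dr_sum {ι : Type} (μ : Fin d) (s : Finset ι) (p : ι → P) :
    dr μ (∑ i ∈ s, p i) = ∑ i ∈ s, dr μ (p i) := by simp [dr]
lemma star_dr (μ : Fin d) (p : P) : star (dr μ p) = dr μ (bar p) := by rw [dr, star_ev, bar_emb, dr]
lemma dr_comm (μ ν : Fin d) (p q : P) : dr μ p * dr ν q = dr ν q * dr μ p := ev_comm _ _

lemma ind_le (N : ℕ) (s : ℤ) : |ind N s| ≤ 1 := by unfold ind; split_ifs <;> simp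

lemma bdd_ind (N : ℕ) (μ : Fin d) : Bdd fun x : Z d => ind N (x μ) := ⟨1, fun _ => ind_le _ _⟩

lemma bdd_pis (N : ℕ) (s : Finset (Fin d)) : Bdd fun x : Z d => ∏ μ ∈ s, ind N (x μ) :=
  ⟨1, fun _ => by rw [abs_prod]; exact prod_le_one (fun _ _ => abs_nonneg _) fun _ _ => ind_le _ _⟩

lemma pi1_ap (N : ℕ) (μ : Fin d) (f : E d) (x : Z d) : pi1 N μ f x = ind N (x μ) * f x :=
  mu_apply (bdd_ind N μ) f x

lemma pis_ap (N : ℕ) (s : Finset (Fin d)) (f : E d) (x : Z d) :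
    pis N s f x = (∏ μ ∈ s, ind N (x μ)) * f x := mu_apply (bdd_pis N s) f x

lemma pis_empty (N : ℕ) : pis N (∅ : Finset (Fin d)) = 1 := oext fun f x => by simp [pis_ap]

lemma pis_insert (N : ℕ) {s : Finset (Fin d)} {μ : Fin d} (h : μ ∉ s) :
    pis N (insert μ s) = pi1 N μ * pis N s :=
  oext fun f x => by simp [pis_ap, pi1_ap, prod_insert h, mul_assoc]

lemma star_pi1 (N : ℕ) (μ : Fin d) : star (pi1 N μ) = pi1 N μ := star_mu (bdd_ind N μ)

lemma pi1_ev (N : ℕ) {μ : Fin d} {p : Al d} (hp : p ∈ Off μ) : pi1 N μ * ev p = ev p * pi1 N μ :=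
  Off.comm hp (bdd_ind N μ)

lemma pis_ev (N : ℕ) (s : Finset (Fin d)) {p : Al d} (hp : ∀ μ ∈ s, p ∈ Off μ) :
    pis N s * ev p = ev p * pis N s := by
  induction s using Finset.induction_on with
  | empty => simp [pis_empty]
  | insert μ s hμ ih =>
    rw [pis_insert N hμ, mul_assoc, ih fun ν hν => hp ν (mem_insert_of_mem hν), ← mul_assoc,
      pi1_ev N (hp μ (mem_insert_self _ _)), mul_assoc]

lemma prod_off {s : Finset (Fin d)} {μ : Fin d} (h : μ ∉ s) (a : Fin d → P) :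
    ∏ ν ∈ s, emb ν (a ν) ∈ Off μ :=
  Subalgebra.prod_mem _ fun ν hν => emb_off (by rintro rfl; exact h hν) _

lemma pi1_tN (N : ℕ) (μ : Fin d) : pi1 N μ * dr μ (t (N : ℤ)) = dr μ (t (N : ℤ)) * pi1 N μ :=
  oext fun f x => by simp [pi1_ap, ind]

@[simp] lemma nm_ap (N : ℕ) (y : Z d) (μ : Fin d) : nm N y μ = N * y μ := by simp [nm]

lemma nm_inj {N : ℕ} (hN : 0 < N) : Injective (nm N : Z d → Z d) := fun x y h =>
  funext fun μ => by
    have := congrFun h μ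
    simp only [nm_ap] at this
    exact mul_left_cancel₀ (by positivity) this

lemma Vs_ap {N : ℕ} (hN : 0 < N) (f : E d) (y : Z d) : Vs N f y = f (nm N y) :=
  pull_apply (nm_inj hN) f y

lemma Vs_V {N : ℕ} (hN : 0 < N) : (Vs N * V N : Op d) = 1 :=
  oext fun f y => by
    rw [mul_apply_eq_comp, Vs_ap hN]; exact star_pull_im (nm_inj hN) f y

lemma Vs_pis {N : ℕ} (hN : 0 < N) (s : Finset (Fin d)) : Vs N * pis N s = Vs N :=
  oext fun f y => by simp [Vs_ap hN, pis_ap, ind]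

lemma V_Vs {N : ℕ} (hN : 0 < N) : (V N * Vs N : Op d) = pis N univ :=
  oext fun f x => by
    rw [mul_apply_eq_comp, pis_ap]
    by_cases h : ∃ y, nm N y = x
    · obtain ⟨y, rfl⟩ := h
      rw [V, Vs, star_pull_im (nm_inj hN), pull_apply (nm_inj hN)]; simp [ind]
    · rw [V, Vs, star_pull_out (nm_inj hN) _ (not_exists.1 h)]
      have : ∃ μ, ¬(N : ℤ) ∣ x μ := by
        by_contra hc
        push Not at hc
        choose y hy using hc
        exact h ⟨y, funext fun μ => by simp [hy]⟩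
      obtain ⟨μ, hμ⟩ := this
      rw [prod_eq_zero (mem_univ μ) (by simp [ind, hμ]), zero_mul]

lemma nm_emb (N : ℕ) (μ : Fin d) (p : P) : mp (nm N) (emb μ p) = emb μ (dil N p) := by
  rw [emb, dil, mp_mp, mp_mp]; congr 2; ext ν
  by_cases h : ν = μ <;> simp [h]

lemma Vs_dr {N : ℕ} (hN : 0 < N) (μ : Fin d) (p : P) :
    Vs N * dr μ (dil N p) = dr μ p * Vs N := by
  rw [dr, ← nm_emb]; exact pull_ev (nm_inj hN) _

lemma dr_V {N : ℕ} (hN : 0 < N) (μ : Fin d) (p : P) :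
    dr μ (dil N p) * V N = V N * dr μ p := by
  rw [dr, ← nm_emb]; exact ev_pull (nm_inj hN) _

lemma Vs_Vs {N L : ℕ} (hN : 0 < N) (hL : 0 < L) : (Vs L * Vs N : Op d) = Vs (N * L) :=
  oext fun f y => by
    rw [mul_apply_eq_comp, Vs_ap hL, Vs_ap hN, Vs_ap (mul_pos hN hL)]
    exact congrArg f (funext fun μ => by simp [mul_assoc])

lemma norm_sc {M : ℝ} (hM : 0 < M) (x : Z d) (μ : Fin d) (s : ℤ) :
    ‖sc M x - sc M (x + Pi.single μ s)‖ ≤ |(s : ℝ)| / M := by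
  refine (pi_norm_le_iff_of_nonneg (by positivity)).2 fun ν => ?_
  rw [Pi.sub_apply, sc, sc, ← sub_div, Real.norm_eq_abs, abs_div, abs_of_pos hM]
  refine div_le_div_of_nonneg_right ?_ hM.le
  by_cases h : ν = μ <;> simp [h]

lemma loc_mu_sh {M : ℝ} (hM : 0 < M) {c : Z d → ℝ} (hc : Bdd c) (μ : Fin d) (s : ℤ) {r : ℝ}
    (h : |(s : ℝ)| ≤ r * M) : Loc M M r (mu c * sh (Pi.single μ s)) := by
  refine ⟨c, fun x => x + Pi.single μ s, fun f x => ?_, fun x => ?_⟩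
  · rw [mul_apply_eq_comp, mu_apply hc, sh_apply]
  · have := norm_sc hM x μ s
    have := (div_le_iff₀ hM).2 h
    linarith

lemma loc_sh {M : ℝ} (hM : 0 < M) (μ : Fin d) (s : ℤ) {r : ℝ} (h : |(s : ℝ)| ≤ r * M) :
    Loc M M r (sh (Pi.single μ s) : Op d) := by
  refine ⟨fun _ => 1, fun x => x + Pi.single μ s, fun f x => ?_, fun x => ?_⟩
  · rw [sh_apply, one_mul]
  · have := norm_sc hM x μ s
    have := (div_le_iff₀ hM).2 h
    linarith

lemma norm_mu_sh {c : Z d → ℝ} (hc : ∀ x, |c x| ≤ 1) (v : Z d) (g : E d) :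
    ‖(mu c * sh v) g‖ ≤ ‖g‖ := by
  simpa using norm_le_cmp ((mu c * sh v) g) g (add_left_injective v) zero_le_one fun x => by
    simp only [mul_apply_eq_comp, mu_apply ⟨1, hc⟩, sh_apply, abs_mul]
    exact mul_le_mul_of_nonneg_right (hc x) (abs_nonneg _)

lemma norm_sh (v : Z d) (g : E d) : ‖sh v g‖ ≤ ‖g‖ := by
  simpa using norm_le_cmp (sh v g) g (add_left_injective v) zero_le_one fun x => by simp

lemma gd_mu_sh {M : ℝ} (hM : 0 < M) {c : Z d → ℝ} (hc : ∀ x, |c x| ≤ 1) (μ : Fin d) (s : ℤ)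
    (h : |(s : ℝ)| ≤ M) : Gd M M (mu c * sh (Pi.single μ s)) 4 :=
  (loc_mu_sh hM ⟨1, hc⟩ μ s (by simpa using h)).gd (norm_mu_sh hc _)

lemma gd_t {M : ℝ} (hM : 0 < M) (μ : Fin d) (s : ℤ) (h : |(s : ℝ)| ≤ M) :
    Gd M M (dr μ (t s) : Op d) 4 := by
  rw [dr_t]; exact (loc_sh hM μ s (by simpa using h)).gd (norm_sh _)

lemma gd_one {M : ℝ} : Gd M M (1 : Op d) 1 :=
  ⟨zero_le_one, fun φ _ f => by simp, fun δ φ _ hφ u f => by
    have := hφ.nn
    have := nrm_nonneg (φ := φ) (N := M) u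
    have := nrm_nonneg (φ := φ) (N := M) f
    simp only [one_apply_eq_self, hφ.inner_wt, sub_self, abs_zero]; positivity⟩

lemma gd_Vs {N : ℕ} (hN : 0 < N) : Gd 1 N (Vs N : Op d) 4 := by
  refine Loc.gd ⟨fun _ => 1, nm N, fun f x => by simp [Vs_ap hN], fun x => ?_⟩ fun g => ?_
  · have : (N : ℝ) ≠ 0 := by positivity
    have e : sc 1 x = sc N (nm N x) := funext fun μ => by simp [sc]; field_simp
    simp [e]
  · simpa using norm_le_cmp (Vs N g) g (nm_inj hN) zero_le_one fun x => by simp [Vs_ap hN]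

lemma window (N : ℕ) (μ : Fin d) {ε : ℤ} (hε : ε = 1 ∨ ε = -1) (g : E d) :
    ∑ s ∈ range N, ‖(pi1 N μ * sh (Pi.single μ (ε * s))) g‖ ≤ √N * ‖g‖ := by
  have k : ∑ s ∈ range N, ‖(pi1 N μ * sh (Pi.single μ (ε * s))) g‖ ^ 2 ≤ ‖g‖ ^ 2 := by
    have h1 : ∀ s : ℕ, HasSum (fun x : Z d => ind N (x μ - ε * s) * g x ^ 2)
        (‖(pi1 N μ * sh (Pi.single μ (ε * s))) g‖ ^ 2) := fun s => by
      rw [← (Equiv.addRight (Pi.single μ (ε * s) : Z d)).hasSum_iff]
      convert hs _ using 2 with x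
      simp only [comp, Equiv.coe_addRight, Pi.add_apply, Pi.single_eq_same, add_sub_cancel_right,
        mul_apply_eq_comp, pi1_ap, sh_apply, ind]
      split_ifs <;> simp
    refine hasSum_le (fun x => ?_) (hasSum_sum fun s _ => h1 s) (hs g)
    rw [← sum_mul]
    refine mul_le_of_le_one_left (sq_nonneg _) ?_
    simp only [ind, sum_boole]
    norm_cast
    refine card_le_one.2 fun a ha b hb => ?_
    simp only [mem_filter, mem_range] at ha hb
    have h2 : (N : ℤ) ∣ (a : ℤ) - b := by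
      have := dvd_sub hb.2 ha.2
      rcases hε with rfl | rfl
      · rwa [show x μ - 1 * (b : ℤ) - (x μ - 1 * a) = a - b by ring] at this
      · rwa [show x μ - -1 * (b : ℤ) - (x μ - -1 * a) = -(a - b) by ring, dvd_neg] at this
    have := Int.eq_zero_of_abs_lt_dvd h2 (by rw [abs_lt]; omega)
    omega
  have := sq_sum_le_card_mul_sum_sq (s := range N)
    (f := fun s => ‖(pi1 N μ * sh (Pi.single μ (ε * s))) g‖)
  rw [card_range] at this
  refine (pow_le_pow_iff_left₀ (by positivity) (by positivity) two_ne_zero).1 (this.trans ?_)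
  rw [mul_pow, Real.sq_sqrt (by positivity)]
  gcongr

lemma R_eq {s N : ℕ} (h : s ≤ N) :
    R s = ∑ r ∈ range N, (if r < s then (1 : ℝ) else 0) • (t (r : ℤ) : P) := by
  simp only [ite_smul, one_smul, zero_smul]
  rw [← sum_filter, R]
  congr 1; ext r; simp only [mem_range, mem_filter]; omega

lemma gd_pi_aux {N : ℕ} (hN : 0 < N) (μ : Fin d) {ε : ℤ} (hε : ε = 1 ∨ ε = -1) (a : ℕ → ℝ)
    (ha : ∀ r, |a r| ≤ 1) :
    Gd N N (pi1 N μ * dr μ (∑ r ∈ range N, a r • t (ε * r))) (4 * √N) := by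
  simp only [dr_sum, dr_smul, dr_t, mul_sum, mul_smul_comm]
  refine gd_of_loc _ _ _ (fun r _ => ha r) (fun r hr => loc_mu_sh (by positivity) (bdd_ind N μ) μ _ ?_)
    (by positivity) (window N μ hε)
  have : (r : ℝ) ≤ N := by exact_mod_cast (mem_range.1 hr).le
  rcases hε with rfl | rfl <;> simpa using this

lemma gd_pi_R {N s : ℕ} (hN : 0 < N) (h : s ≤ N) (μ : Fin d) :
    Gd N N (pi1 N μ * dr μ (R s)) (4 * √N) := by
  simpa [R_eq h] using gd_pi_aux hN μ (Or.inl rfl) (fun r => if r < s then 1 else 0)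
    fun r => by split_ifs <;> simp

lemma inv_sqrt {N : ℕ} (hN : 0 < N) : |(N : ℝ)⁻¹| * (4 * √N) = 4 / √N := by
  have h : 0 < √(N : ℝ) := by positivity
  rw [abs_of_pos (by positivity), eq_div_iff h.ne', mul_assoc, mul_assoc,
    Real.mul_self_sqrt (by positivity)]
  field_simp

lemma gd_pi_S {N : ℕ} (hN : 0 < N) (μ : Fin d) : Gd N N (pi1 N μ * dr μ (S N)) (4 / √N) := by
  rw [S, dr_smul, mul_smul_comm, ← inv_sqrt hN]; exact (gd_pi_R hN le_rfl μ).smul _

lemma gd_pi_Sb {N : ℕ} (hN : 0 < N) (μ : Fin d) :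
    Gd N N (pi1 N μ * dr μ (bar (S N))) (4 / √N) := by
  rw [S, map_smul, dr_smul, mul_smul_comm, ← inv_sqrt hN]
  refine Gd.smul ?_ _
  simpa [R] using gd_pi_aux hN μ (Or.inr rfl) (fun _ => 1) fun r => by simp

lemma gd_pi_G {N : ℕ} (hN : 0 < N) (μ : Fin d) : Gd N N (pi1 N μ * dr μ (G N)) (4 * √N) := by
  rw [G, dr_neg, mul_neg, dr_smul, mul_smul_comm, dr_sum, mul_sum]
  refine ((Gd.sum _ fun s hs => gd_pi_R hN (mem_range.1 hs).le μ).smul _).neg.mono (le_of_eq ?_)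
  rw [sum_const, card_range, abs_of_pos (by positivity), nsmul_eq_mul]
  field_simp

lemma gd_R {N s : ℕ} (hN : 0 < N) (h : s ≤ N) (μ : Fin d) : Gd N N (dr μ (R s) : Op d) (4 * N) := by
  rw [R, dr_sum]
  refine (Gd.sum (C := fun _ => 4) _ fun (r : ℕ) hr => gd_t (by positivity) μ (r : ℤ) ?_).mono ?_
  · simpa using ((mem_range.1 hr).le.trans h)
  · have : (s : ℝ) ≤ N := by exact_mod_cast h
    rw [sum_const, card_range, nsmul_eq_mul]; linarith

lemma gd_S {N : ℕ} (hN : 0 < N) (μ : Fin d) : Gd N N (dr μ (S N) : Op d) 4 := by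
  rw [S, dr_smul]
  refine ((gd_R hN le_rfl μ).smul _).mono (le_of_eq ?_)
  rw [abs_of_pos (by positivity)]; field_simp

lemma gd_G {N : ℕ} (hN : 0 < N) (μ : Fin d) : Gd N N (dr μ (G N) : Op d) (4 * N) := by
  rw [G, dr_neg, dr_smul, dr_sum]
  refine ((Gd.sum _ fun s hs => gd_R hN (mem_range.1 hs).le μ).smul _).neg.mono (le_of_eq ?_)
  rw [sum_const, card_range, abs_of_pos (by positivity), nsmul_eq_mul]
  field_simp

lemma Gd.bar {M C : ℝ} {μ : Fin d} {p : P} (h : Gd M M (dr μ p) C) : Gd M M (dr μ (bar p)) C := by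
  rw [← star_dr]; exact h.star

lemma gd_W {N : ℕ} (hN : 0 < N) (μ : Fin d) : Gd N N (dr μ (W N) : Op d) 32 := by
  rw [W, dr_mul]; exact ((gd_S hN μ).mul (gd_S hN μ).bar).mono (by norm_num)

lemma gd_D {M : ℝ} (hM : 1 ≤ M) (μ : Fin d) : Gd M M (dr μ D : Op d) 5 := by
  rw [D, dr_sub, dr_one]
  exact ((gd_t (by linarith) μ 1 (by simpa using hM)).sub gd_one).mono (by norm_num)

lemma gd_SD {N : ℕ} (hN : 0 < N) (μ : Fin d) : Gd N N (dr μ (S N * D) : Op d) (5 / N) := by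
  rw [S_D, dr_smul, dr_sub, dr_one]
  refine (((gd_t (by positivity) μ N (by simp)).sub gd_one).smul _).mono (le_of_eq ?_)
  rw [abs_of_pos (by positivity)]; field_simp; norm_num

lemma gd_Gt {N : ℕ} (hN : 0 < N) (μ : Fin d) :
    Gd N N (dr μ (bar (G N) * t (-1)) : Op d) (32 * N) := by
  rw [dr_mul]
  exact ((gd_G hN μ).bar.mul (gd_t (by positivity) μ (-1) (by simpa using hN.nat_succ_le))).mono
    (le_of_eq (by ring))

lemma gd_GW {N : ℕ} (hN : 0 < N) (μ : Fin d) : Gd N N (dr μ (GW N) : Op d) (260 * N) := by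
  rw [GW, dr_sub, dr_mul]
  exact ((gd_G hN μ).sub ((gd_S hN μ).mul (gd_Gt hN μ))).mono (le_of_eq (by ring))

lemma gd_pi_GW {N : ℕ} (hN : 0 < N) (μ : Fin d) :
    Gd N N (pi1 N μ * dr μ (GW N)) (260 * √N) := by
  rw [GW, dr_sub, dr_mul, mul_sub, ← mul_assoc]
  refine ((gd_pi_G hN μ).sub ((gd_pi_S hN μ).mul (gd_Gt hN μ))).mono (le_of_eq ?_)
  have h : 0 < √(N : ℝ) := by positivity
  have e := Real.mul_self_sqrt (Nat.cast_nonneg N : (0 : ℝ) ≤ N)
  field_simp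
  nlinarith

lemma gd_G3 {N : ℕ} (hN : 0 < N) (μ : Fin d) : Gd N N (dr μ (G3 N) : Op d) (2084 * N) := by
  rw [G3, dr_add, dr_mul]
  exact ((gd_G hN μ).add ((gd_S hN μ).mul (gd_GW hN μ))).mono (le_of_eq (by ring))

lemma cm_D {M : ℝ} (hM : 1 ≤ M) (μ : Fin d) : Cm M M (dr μ D : Op d) (4 / M) :=
  fun δ φ h1 hφ u f => by
    have h0 : 0 < M := by linarith
    have hδ := hφ.nn
    have n1 := nrm_nonneg (φ := φ) (N := M) u
    have := (loc_sh h0 μ 1 (r := 1 / M) (by simp [h0.ne'])).cm ((div_le_one h0).2 hM) h1 hφ u f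
    rw [D, dr_sub, dr_t, dr_one]
    simp only [sub_apply, one_apply_eq_self, inner_sub_right]
    rw [← hφ.inner_wt M u (wt φ M f), ← hφ.inner_wt M _ f, sub_sub_sub_cancel_right]
    refine this.trans ?_
    calc _ ≤ 4 * (1 / M) * δ * nrm φ M u * nrm φ M f := by
          gcongr; exact norm_sh _ _
      _ = _ := by ring

lemma gd_pis {N : ℕ} (s : Finset (Fin d)) (a : Fin d → P) (c : Fin d → ℝ)
    (h : ∀ μ, Gd N N (pi1 N μ * dr μ (a μ)) (c μ)) :
    Gd N N (pis N s * ev (∏ μ ∈ s, emb μ (a μ))) (∏ μ ∈ s, 2 * c μ) := by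
  induction s using Finset.induction_on with
  | empty => simpa [pis_empty] using gd_one
  | insert μ s hμ ih =>
    rw [prod_insert hμ, prod_insert hμ, pis_insert N hμ, map_mul, mul_assoc, ← mul_assoc (pis N s),
      pis_ev N s fun ν hν => emb_off (by rintro rfl; exact hμ hν) _, mul_assoc, ← mul_assoc]
    exact (h μ).mul ih

lemma gd_prod {M : ℝ} (s : Finset (Fin d)) (a : Fin d → P) {c : ℝ}
    (h : ∀ μ, Gd M M (dr μ (a μ)) c) : Gd M M (ev (∏ μ ∈ s, emb μ (a μ))) ((2 * c) ^ s.card) := by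
  induction s using Finset.induction_on with
  | empty => simpa using gd_one
  | insert μ s hμ ih =>
    rw [prod_insert hμ, map_mul, card_insert_of_notMem hμ, pow_succ']
    exact (h μ).mul ih

lemma gd_Vs_prod {N : ℕ} (hN : 0 < N) (a : Fin d → P) (c : Fin d → ℝ)
    (h : ∀ μ, Gd N N (pi1 N μ * dr μ (a μ)) (c μ)) :
    Gd 1 N (Vs N * ev (∏ μ, emb μ (a μ))) (8 * ∏ μ, 2 * c μ) := by
  rw [← Vs_pis hN univ, mul_assoc]
  exact ((gd_Vs hN).mul (gd_pis univ a c h)).mono (le_of_eq (by ring))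

end

end Pool.Agent.Lib.MP_7f377f_mp.Lin
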