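import Pool.Agent.Lib.MP_7f377f_mp.LinDir

namespace Pool.Agent.Lib.MP_7f377f_mp.Lin

noncomputable section

open Classical Function Finset
open scoped InnerProductSpace

variable {d : ℕ}

def Dm (μ : Fin d) : Op d := dr μ D

def lo (N s : ℕ) (z : ℤ) : ℝ := if (s : ℤ) < z % N then 1 else 0

def kk (N : ℕ) (μ : Fin d) : Op d :=
  ∑ s ∈ range N, (mu fun x => lo N s (x μ)) * sh (Pi.single μ (-((s : ℤ) + 1)))

def d0 (θ : E d) (ρ : Fin d) : E d := Dm ρ θ

def d1 (A : Fin d → E d) (μ ν : Fin d) : E d := Dm μ (A ν) - Dm ν (A μ)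

variable {N : ℕ}

lemma Dm_ap (μ : Fin d) (f : E d) (x : Z d) : Dm μ f x = f (x + Pi.single μ 1) - f x := by
  simp [Dm, D, dr_sub]

lemma Dm_comm (μ ν : Fin d) (f : E d) : Dm μ (Dm ν f) = Dm ν (Dm μ f) :=
  congrArg (fun T : Op d => T f) (dr_comm μ ν D D)

lemma Vs_SD (hN : 0 < N) (ρ : Fin d) (p : Al d) :
    (N : ℝ) • (Vs N * ev (p * emb ρ (S N))) * Dm ρ = Dm ρ * (Vs N * ev p) := by
  rw [← mul_assoc, Dm, ← Vs_dr hN, dil_D hN, dr_smul, mul_smul_comm, smul_mul_assoc,
    smul_mul_assoc, mul_assoc, mul_assoc, dr, dr, ← map_mul, ← map_mul, map_mul (emb ρ)]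
  congr 3; ring

lemma lo_le (s : ℕ) (z : ℤ) : |lo N s z| ≤ 1 := by unfold lo; split_ifs <;> simp

lemma floor_ap (hN : 0 < N) (μ : Fin d) (f : E d) (x : Z d) :
    ((N : ℝ) • (dr μ (bar (S N)) * pi1 N μ)) f x = f (x + Pi.single μ (-(x μ % N))) := by
  have h : (N : ℝ) ≠ 0 := by positivity
  have h' : (0 : ℤ) < N := by positivity
  have h0 := Int.emod_nonneg (x μ) h'.ne'
  have h1 := Int.emod_lt_of_pos (x μ) h'
  simp only [S, R, map_smul, map_sum, bar_t, dr_smul, dr_sum, dr_t, smul_mul_assoc, smul_smul,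
    mul_inv_cancel₀ h, one_smul, sum_mul, _root_.sum_apply, sum_ap, mul_apply_eq_comp, sh_apply,
    pi1_ap, Pi.add_apply, Pi.single_eq_same]
  rw [sum_eq_single (x μ % N).toNat]
  · rw [Int.toNat_of_nonneg h0, ind, if_pos, one_mul]
    exact ⟨x μ / N, by linarith [Int.emod_add_mul_ediv (x μ) N]⟩
  · intro s hs hne
    rw [ind, if_neg, zero_mul]
    rintro ⟨c, hc⟩
    have := mem_range.1 hs
    have : x μ % N = s := by
      rw [show x μ = s + N * c by linarith, Int.add_mul_emod_self_left]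
      exact Int.emod_eq_of_lt (by omega) (by omega)
    omega
  · intro hs
    exact absurd (mem_range.2 (by omega)) hs

lemma floor_eq (hN : 0 < N) (μ : Fin d) :
    (N : ℝ) • (dr μ (bar (S N)) * pi1 N μ) = 1 - kk N μ * Dm μ := oext fun f x => by
  have h' : (0 : ℤ) < N := by positivity
  have h0 := Int.emod_nonneg (x μ) h'.ne'
  have h1 := Int.emod_lt_of_pos (x μ) h'
  rw [floor_ap hN]
  have hb : ∀ (s : ℕ) (f : E d) x, mu (fun x => lo N s (x μ)) f x = lo N s (x μ) * f x :=
    fun s => mu_apply ⟨1, fun x : Z d => lo_le _ (x μ)⟩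
  simp only [kk, sub_apply, one_apply_eq_self, sub_ap, mul_apply_eq_comp, _root_.sum_apply, sum_ap,
    hb, sh_apply, Dm_ap]
  simp only [lo, ite_mul, one_mul, zero_mul]
  rw [← sum_filter]
  have e : (range N).filter (fun s : ℕ => (s : ℤ) < x μ % N) = range (x μ % N).toNat := by
    ext s; simp only [mem_filter, mem_range]; omega
  have e2 := sum_range_sub' (fun s : ℕ => f (x + Pi.single μ (-(s : ℤ)))) (x μ % N).toNat
  simp only [Nat.cast_zero, neg_zero, Pi.single_zero, add_zero, Int.toNat_of_nonneg h0] at e2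
  rw [e, eq_sub_iff_add_eq, ← eq_sub_iff_add_eq', ← e2]
  refine sum_congr rfl fun s _ => ?_
  rw [add_assoc, ← Pi.single_add]
  push_cast
  ring_nf

lemma pi1_SD (μ : Fin d) : pi1 N μ * dr μ (S N * D) = dr μ (S N * D) * pi1 N μ := by
  rw [S_D, dr_smul, dr_sub, dr_one, mul_smul_comm, smul_mul_assoc, mul_sub, sub_mul, pi1_tN]
  simp

lemma cancel_D {T : Op d} {ρ : Fin d} (h : T * Dm ρ = 0) : T = 0 := by
  rw [← star_eq_zero]
  have h1 := congrArg star h
  rw [star_mul, star_zero, Dm, star_dr, D, map_sub, bar_t, map_one, dr_sub, dr_t, dr_one] at h1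
  refine oext fun g x => ?_
  set u := star T g
  have h2 : ∀ y, u (y + Pi.single ρ (-1)) = u y := fun y => by
    have := congrArg (fun S : Op d => S g y) h1
    simpa [sub_eq_zero] using this
  have h3 : ∀ n : ℕ, u (x + Pi.single ρ (-(n : ℤ))) = u x := fun n => by
    induction n with
    | zero => simp
    | succ n ih =>
      have := h2 (x + Pi.single ρ (-(n : ℤ)))
      rw [add_assoc, ← Pi.single_add, ih] at this
      rw [← this]; push_cast; ring_nf
  have h4 : Injective fun n : ℕ => x + Pi.single ρ (-(n : ℤ)) := fun a b hab => by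
    have := congrFun hab ρ
    simpa using this
  have h5 := ((hs u).summable.comp_injective h4).tendsto_atTop_zero
  simp only [comp_def, h3] at h5
  simpa using tendsto_nhds_unique tendsto_const_nhds h5

def hom (P h : Fin d → Op d) : List (Fin d) → Fin d → Op d
  | [], _ => 0
  | μ :: l, ν => (if ν = μ then h μ else 0) + P μ * hom P h l ν

lemma hom_sum (P h : Fin d → Op d) (μ : Fin d) (l : List (Fin d)) (u : Fin d → E d) :
    ∑ ν, hom P h (μ :: l) ν (u ν) = h μ (u μ) + P μ (∑ ν, hom P h l ν (u ν)) := by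
  simp only [hom, add_apply, sum_add_distrib, mul_apply_eq_comp, map_sum]
  congr 1
  rw [sum_eq_single μ] <;> simp +contextual

lemma prod_P (a b : Fin d → P) (l : List (Fin d)) (hl : l.Nodup) :
    (l.map fun μ => (N : ℝ) • (dr μ (a μ) * pi1 N μ * dr μ (b μ))).prod =
      (N : ℝ) ^ l.length • (ev (∏ μ ∈ l.toFinset, emb μ (a μ)) * pis N l.toFinset *
        ev (∏ μ ∈ l.toFinset, emb μ (b μ))) := by
  induction l with
  | nil => simp [pis_empty]
  | cons μ l ih =>
    have hμ : μ ∉ l.toFinset := by simpa using (List.nodup_cons.1 hl).1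
    rw [List.map_cons, List.prod_cons, ih (List.nodup_cons.1 hl).2, List.toFinset_cons,
      prod_insert hμ, prod_insert hμ, pis_insert N hμ, List.length_cons, pow_succ', mul_smul,
      smul_mul_assoc, mul_smul_comm, map_mul, map_mul]
    have e1 := pi1_ev N (prod_off hμ a)
    have e2 := pis_ev N l.toFinset (p := emb μ (b μ))
      fun ν hν => emb_off (by rintro rfl; exact hμ hν) _
    have e3 := ev_comm (emb μ (b μ)) (∏ μ ∈ l.toFinset, emb μ (a μ))
    simp only [dr, mul_assoc]
    rw [← mul_assoc (ev (emb μ (b μ))), e3, mul_assoc, ← mul_assoc (pi1 N μ), e1,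
      ← mul_assoc (ev (emb μ (b μ))), ← e2]
    simp only [mul_assoc]

lemma pi_W_pi (hN : 0 < N) (μ : Fin d) :
    pi1 N μ * dr μ (W N) * pi1 N μ = (N : ℝ)⁻¹ • pi1 N μ := by
  have h : (N : ℝ) ≠ 0 := by positivity
  have e : pi1 N μ * dr μ (S N) * ((N : ℝ) • (dr μ (bar (S N)) * pi1 N μ)) = pi1 N μ :=
    oext fun f x => by
      rw [mul_apply_eq_comp, mul_apply_eq_comp, pi1_ap, pi1_ap, ind]
      split_ifs with hx
      · simp only [S, R, dr_smul, dr_sum, dr_t, smul_apply, _root_.sum_apply, smul_ap, sum_ap,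
          sh_apply]
        rw [sum_congr rfl (g := fun _ => f x) fun s hs => ?_]
        · simp [h]
        · have := floor_ap hN μ f (x + Pi.single μ (s : ℤ))
          simp only [S, R, smul_apply, smul_ap] at this
          obtain ⟨c, hc⟩ := hx
          have hs := mem_range.1 hs
          rw [this, add_assoc, ← Pi.single_add, Pi.add_apply, Pi.single_eq_same, hc, add_comm (_ * c),
            Int.add_mul_emod_self_left, Int.emod_eq_of_lt (by omega) (by omega)]
          simp
      · simp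
  rw [eq_inv_smul_iff₀ h, W, dr_mul]
  refine Eq.trans ?_ e
  simp only [mul_smul_comm, mul_assoc]

def sd (d N : ℕ) : ℝ := √N ^ d

lemma sd_pos (hN : 0 < N) : 0 < sd d N := by unfold sd; positivity

lemma sd_sq (d N : ℕ) : sd d N * sd d N = (N : ℝ) ^ d := by
  rw [sd, ← mul_pow, Real.mul_self_sqrt (Nat.cast_nonneg _)]

end

end Pool.Agent.Lib.MP_7f377f_mp.Lin
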