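import Mathlib

namespace Pool.Agent.Lib.MP_7f377f_mp.Lin

noncomputable section

open Classical Function Finset
open scoped InnerProductSpace

abbrev Z (d : ℕ) := Fin d → ℤ
abbrev E (d : ℕ) := lp (fun _ : Z d => ℝ) 2
abbrev Op (d : ℕ) := E d →L[ℝ] E d

variable {d : ℕ}

lemma hs (f : E d) : HasSum (fun x => f x ^ 2) (‖f‖ ^ 2) := by
  have h2 : (2 : ENNReal).toReal = 2 := by simp
  simpa [h2] using lp.hasSum_norm (by simp) f

lemma hsi (f g : E d) : HasSum (fun x => f x * g x) ⟪f, g⟫_ℝ := by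
  simpa [mul_comm] using lp.hasSum_inner (𝕜 := ℝ) f g

lemma abs_le_norm (f : E d) (x : Z d) : |f x| ≤ ‖f‖ :=
  lp.norm_apply_le_norm (by simp) f x

lemma mem_of {u : Z d → ℝ} (h : Summable fun x => u x ^ 2) : Memℓp u 2 := by
  apply memℓp_gen
  have h2 : (2 : ENNReal).toReal = 2 := by simp
  simpa [h2] using h

lemma sum_cmp {u : Z d → ℝ} (f : E d) {σ : Z d → Z d} (hσ : Injective σ) {c : ℝ}
    (h : ∀ x, |u x| ≤ c * |f (σ x)|) :
    Summable (fun x => u x ^ 2) ∧ ∑' x, u x ^ 2 ≤ (c * ‖f‖) ^ 2 := by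
  have s1 : Summable fun x => c ^ 2 * f (σ x) ^ 2 :=
    ((hs f).summable.comp_injective hσ).mul_left _
  have l1 : ∀ x, u x ^ 2 ≤ c ^ 2 * f (σ x) ^ 2 := fun x => by
    rw [← sq_abs (u x), ← sq_abs (f (σ x)), ← mul_pow]
    exact pow_le_pow_left₀ (abs_nonneg _) (h x) 2
  have s2 : Summable fun x => u x ^ 2 := .of_nonneg_of_le (fun _ => sq_nonneg _) l1 s1
  refine ⟨s2, (s2.tsum_le_tsum l1 s1).trans ?_⟩
  rw [tsum_mul_left, mul_pow, ← (hs f).tsum_eq]
  exact mul_le_mul_of_nonneg_left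
    (tsum_comp_le_tsum_of_inj (hs f).summable (fun _ => sq_nonneg _) hσ) (sq_nonneg _)

lemma norm_le_cmp (u f : E d) {σ : Z d → Z d} (hσ : Injective σ) {c : ℝ} (hc : 0 ≤ c)
    (h : ∀ x, |u x| ≤ c * |f (σ x)|) : ‖u‖ ≤ c * ‖f‖ := by
  have := (sum_cmp f hσ h).2
  rw [(hs u).tsum_eq] at this
  exact (pow_le_pow_iff_left₀ (norm_nonneg _) (by positivity) two_ne_zero).1 this

lemma cmp_ex (c : Z d → ℝ) {σ : Z d → Z d} (hσ : Injective σ) (hc : ∃ M, ∀ x, |c x| ≤ M) :
    ∃ T : Op d, ∀ f x, T f x = c x * f (σ x) := by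
  obtain ⟨M, hM⟩ := hc
  have h0 : 0 ≤ M := (abs_nonneg _).trans (hM 0)
  have k : ∀ (f : E d) x, |c x * f (σ x)| ≤ M * |f (σ x)| := fun f x => by
    rw [abs_mul]; exact mul_le_mul_of_nonneg_right (hM x) (abs_nonneg _)
  let T : E d →ₗ[ℝ] E d :=
    { toFun := fun f => ⟨fun x => c x * f (σ x), mem_of (sum_cmp f hσ (k f)).1⟩
      map_add' := fun f g => lp.ext (funext fun x => by
        simp only [lp.coeFn_add, Pi.add_apply, mul_add])
      map_smul' := fun a f => lp.ext (funext fun x => by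
        simp only [lp.coeFn_smul, Pi.smul_apply, smul_eq_mul, RingHom.id_apply]; ring) }
  exact ⟨T.mkContinuous M fun f => norm_le_cmp _ f hσ h0 (k f), fun f x => rfl⟩

def cmp (c : Z d → ℝ) (σ : Z d → Z d) : Op d :=
  if h : ∃ T : Op d, ∀ f x, T f x = c x * f (σ x) then h.choose else 0

lemma cmp_apply {c : Z d → ℝ} {σ : Z d → Z d} (hσ : Injective σ) (hc : ∃ M, ∀ x, |c x| ≤ M)
    (f : E d) (x : Z d) : cmp c σ f x = c x * f (σ x) := by
  rw [cmp, dif_pos (cmp_ex c hσ hc)]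
  exact (cmp_ex c hσ hc).choose_spec f x

def pull (σ : Z d → Z d) : Op d := cmp (fun _ => 1) σ
def mu (c : Z d → ℝ) : Op d := cmp c id
def sh (v : Z d) : Op d := pull fun x => x + v
def Bdd (c : Z d → ℝ) : Prop := ∃ M, ∀ x, |c x| ≤ M

lemma pull_apply {σ : Z d → Z d} (hσ : Injective σ) (f : E d) (x : Z d) :
    pull σ f x = f (σ x) := by
  rw [pull, cmp_apply hσ ⟨1, fun _ => by simp⟩, one_mul]

lemma mu_apply {c : Z d → ℝ} (hc : Bdd c) (f : E d) (x : Z d) : mu c f x = c x * f x :=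
  cmp_apply injective_id hc f x

@[simp] lemma sh_apply (v : Z d) (f : E d) (x : Z d) : sh v f x = f (x + v) :=
  pull_apply (add_left_injective v) f x

lemma eext {f g : E d} (h : ∀ x, f x = g x) : f = g := lp.ext (funext h)

lemma oext {S T : Op d} (h : ∀ f x, S f x = T f x) : S = T :=
  ContinuousLinearMap.ext fun f => eext (h f)

@[simp] lemma add_ap (f g : E d) (x : Z d) : (f + g) x = f x + g x := rfl
@[simp] lemma sub_ap (f g : E d) (x : Z d) : (f - g) x = f x - g x := rfl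
@[simp] lemma neg_ap (f : E d) (x : Z d) : (-f) x = -f x := rfl
@[simp] lemma smul_ap (a : ℝ) (f : E d) (x : Z d) : (a • f) x = a * f x := rfl
@[simp] lemma zero_ap (x : Z d) : (0 : E d) x = 0 := rfl
lemma sum_ap {ι : Type} (s : Finset ι) (f : ι → E d) (x : Z d) :
    (∑ i ∈ s, f i) x = ∑ i ∈ s, f i x := by
  rw [lp.coeFn_sum, Finset.sum_apply]

lemma inner_star (T : Op d) (f g : E d) : ⟪star T f, g⟫_ℝ = ⟪f, T g⟫_ℝ :=
  ContinuousLinearMap.adjoint_inner_left T g f

lemma inner_star' (T : Op d) (f g : E d) : ⟪f, star T g⟫_ℝ = ⟪T f, g⟫_ℝ :=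
  ContinuousLinearMap.adjoint_inner_right T f g

lemma eq_star {S T : Op d} (h : ∀ f g, ⟪S f, g⟫_ℝ = ⟪f, T g⟫_ℝ) : star T = S :=
  ((ContinuousLinearMap.eq_adjoint_iff S T).2 h).symm

lemma star_mu {c : Z d → ℝ} (hc : Bdd c) : star (mu c) = mu c :=
  eq_star fun f g => (hsi _ _).unique (by
    convert hsi f (mu c g) using 2 with x
    rw [mu_apply hc, mu_apply hc]; ring)

lemma star_pull (e : Z d ≃ Z d) : star (pull e) = pull e.symm :=
  eq_star fun f g => (hsi _ _).unique (by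
    rw [← e.hasSum_iff]
    convert hsi f (pull e g) using 2 with x
    simp [pull_apply e.injective, pull_apply e.symm.injective])

lemma star_sh (v : Z d) : star (sh v) = sh (-v) := by
  have := star_pull (Equiv.addRight v)
  simpa [sh] using this

def dl (x : Z d) : E d := lp.single 2 x 1

lemma dl_ap (x y : Z d) : dl x y = if y = x then 1 else 0 := by
  simp [dl, lp.single_apply, Pi.single_apply]

lemma inner_dl (x : Z d) (f : E d) : ⟪dl x, f⟫_ℝ = f x := by
  simp [dl, lp.inner_single_left]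

lemma norm_dl (x : Z d) : ‖dl x‖ = 1 := by simp [dl, lp.norm_single]

lemma star_pull_im {σ : Z d → Z d} (hσ : Injective σ) (u : E d) (y : Z d) :
    star (pull σ) u (σ y) = u y := by
  rw [← inner_dl, inner_star', ← inner_dl y]
  congr 1
  exact eext fun z => by rw [pull_apply hσ, dl_ap, dl_ap]; simp [hσ.eq_iff]

lemma star_pull_out {σ : Z d → Z d} (hσ : Injective σ) (u : E d) {x : Z d}
    (hx : ∀ y, σ y ≠ x) : star (pull σ) u x = 0 := by
  rw [← inner_dl, inner_star']
  have : pull σ (dl x) = 0 := eext fun z => by rw [pull_apply hσ, dl_ap]; simp [hx z]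
  rw [this, inner_zero_left]

abbrev Al (d : ℕ) := AddMonoidAlgebra ℝ (Z d)
abbrev P := AddMonoidAlgebra ℝ ℤ

def mp {G H : Type} [AddCommGroup G] [AddCommGroup H] (g : G →+ H) :
    AddMonoidAlgebra ℝ G →ₐ[ℝ] AddMonoidAlgebra ℝ H := AddMonoidAlgebra.mapDomainAlgHom ℝ ℝ g

def t {G : Type} [AddCommGroup G] (v : G) : AddMonoidAlgebra ℝ G := .single v 1

section
variable {G H K : Type} [AddCommGroup G] [AddCommGroup H] [AddCommGroup K]

@[simp] lemma mp_t (g : G →+ H) (v : G) : mp g (t v) = t (g v) := by simp [mp, t]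

lemma t_add (v w : G) : t (v + w) = t v * t w := by simp [t, AddMonoidAlgebra.single_mul_single]

@[simp] lemma t_zero : t (0 : G) = 1 := rfl

lemma t_ind {p : AddMonoidAlgebra ℝ G → Prop} (h0 : p 0) (ha : ∀ x y, p x → p y → p (x + y))
    (ht : ∀ (a : ℝ) v, p (a • t v)) (x : AddMonoidAlgebra ℝ G) : p x := by
  induction x using AddMonoidAlgebra.induction_linear with
  | zero => exact h0
  | add x y hx hy => exact ha _ _ hx hy
  | single m a => simpa [t] using ht a m

lemma mp_mp (g : H →+ K) (g' : G →+ H) (p : AddMonoidAlgebra ℝ G) :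
    mp g (mp g' p) = mp (g.comp g') p := by
  induction p using t_ind with
  | h0 => simp
  | ha x y hx hy => simp [hx, hy]
  | ht a v => simp

lemma mp_id (p : AddMonoidAlgebra ℝ G) : mp (AddMonoidHom.id G) p = p := by
  induction p using t_ind with
  | h0 => simp
  | ha x y hx hy => simp [hx, hy]
  | ht a v => simp

def bar : AddMonoidAlgebra ℝ G →ₐ[ℝ] AddMonoidAlgebra ℝ G := mp (-AddMonoidHom.id G)

@[simp] lemma bar_t (v : G) : bar (t v) = t (-v) := by simp [bar]

lemma bar_mp (g : G →+ H) (p : AddMonoidAlgebra ℝ G) : bar (mp g p) = mp g (bar p) := by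
  rw [bar, bar, mp_mp, mp_mp]; congr 2; ext; simp

@[simp] lemma bar_bar (p : AddMonoidAlgebra ℝ G) : bar (bar p) = p := by
  rw [bar, mp_mp]; convert mp_id p; ext; simp
end

def ev : Al d →ₐ[ℝ] Op d := AddMonoidAlgebra.lift ℝ (Op d) (Z d)
  { toFun := fun v => sh v.toAdd
    map_one' := oext fun f x => by simp
    map_mul' := fun v w => oext fun f x => by simp [add_assoc] }

@[simp] lemma ev_t (v : Z d) : ev (t v) = sh v := by simp [ev, t]

lemma star_ev (p : Al d) : star (ev p) = ev (bar p) := by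
  induction p using t_ind with
  | h0 => simp
  | ha x y hx hy => simp [hx, hy]
  | ht a v => simp [star_sh]

lemma ev_comm (p q : Al d) : ev p * ev q = ev q * ev p := by rw [← map_mul, mul_comm, map_mul]

lemma pull_ev {g : Z d →+ Z d} (hg : Injective g) (p : Al d) :
    pull g * ev (mp g p) = ev p * pull g := by
  induction p using t_ind with
  | h0 => simp
  | ha x y hx hy => simp [hx, hy, mul_add, add_mul]
  | ht a v =>
    simp only [map_smul, mp_t, ev_t, mul_smul_comm, smul_mul_assoc]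
    congr 1
    exact oext fun f x => by simp [pull_apply hg]

lemma ev_pull {g : Z d →+ Z d} (hg : Injective g) (p : Al d) :
    ev (mp g p) * star (pull g) = star (pull g) * ev p := by
  have := congrArg star (pull_ev hg (bar p))
  rwa [star_mul, star_mul, star_ev, star_ev, bar_mp, bar_bar] at this

def emb (μ : Fin d) : P →ₐ[ℝ] Al d := mp (AddMonoidHom.single (fun _ => ℤ) μ)

@[simp] lemma emb_t (μ : Fin d) (s : ℤ) : emb μ (t s) = t (Pi.single μ s) := by simp [emb]

lemma bar_emb (μ : Fin d) (p : P) : bar (emb μ p) = emb μ (bar p) := bar_mp _ p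

def Off (μ : Fin d) : Subalgebra ℝ (Al d) :=
  (Subalgebra.centralizer ℝ {T : Op d | ∃ c : ℤ → ℝ, Bdd (fun x : Z d => c (x μ)) ∧
    T = mu fun x => c (x μ)}).comap ev

lemma Off.comm {μ : Fin d} {p : Al d} (hp : p ∈ Off μ) {c : ℤ → ℝ}
    (hc : Bdd fun x : Z d => c (x μ)) : (mu fun x => c (x μ)) * ev p = ev p * mu fun x => c (x μ) :=
  (Subalgebra.mem_centralizer_iff ℝ).1 hp _ ⟨c, hc, rfl⟩

lemma emb_off {μ ν : Fin d} (h : ν ≠ μ) (p : P) : emb ν p ∈ Off μ := by
  induction p using t_ind with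
  | h0 => simp
  | ha x y hx hy => rw [map_add]; exact add_mem hx hy
  | ht a v =>
    rw [map_smul]
    refine Subalgebra.smul_mem _ ?_ a
    rw [Off, Subalgebra.mem_comap, Subalgebra.mem_centralizer_iff]
    rintro _ ⟨c, hc, rfl⟩
    exact oext fun f x => by simp [mu_apply hc, Pi.single_eq_of_ne h.symm]

end

end Pool.Agent.Lib.MP_7f377f_mp.Lin
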