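import Pool.Agent.Lib.MP_7f377f_mp.LinOps

namespace Pool.Agent.Lib.MP_7f377f_mp.Lin

noncomputable section

open Classical Function Finset
open scoped InnerProductSpace

variable {d : ℕ}

structure Adm (δ : ℝ) (φ : (Fin d → ℝ) → ℝ) : Prop where
  nn : 0 ≤ δ
  lip : ∀ x y, |φ x - φ y| ≤ δ * ‖x - y‖
  bdd : ∃ M, ∀ x, |φ x| ≤ M

def sc (N : ℝ) (x : Z d) : Fin d → ℝ := fun μ => x μ / N
def wt (φ : (Fin d → ℝ) → ℝ) (N : ℝ) : Op d := mu fun x => Real.exp (φ (sc N x))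
def nrm (φ : (Fin d → ℝ) → ℝ) (N : ℝ) (f : E d) : ℝ := ‖wt φ N f‖

variable {δ : ℝ} {φ : (Fin d → ℝ) → ℝ} {N N₁ N₂ N₃ C C' : ℝ} {S T : Op d}

lemma Adm.mono (h : Adm δ φ) {δ' : ℝ} (h' : δ ≤ δ') : Adm δ' φ :=
  ⟨h.nn.trans h', fun x y => (h.lip x y).trans (mul_le_mul_of_nonneg_right h' (norm_nonneg _)),
    h.bdd⟩

lemma Adm.neg (h : Adm δ φ) : Adm δ (-φ) :=
  ⟨h.nn, fun x y => by
    rw [Pi.neg_apply, Pi.neg_apply, neg_sub_neg, abs_sub_comm]; exact h.lip x y,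
    by simpa using h.bdd⟩

lemma adm_zero (h : 0 ≤ δ) : Adm δ (0 : (Fin d → ℝ) → ℝ) :=
  ⟨h, fun x y => by simp only [Pi.zero_apply, sub_self, abs_zero]; positivity, ⟨0, by simp⟩⟩

lemma Adm.scale (h : Adm δ φ) {M : ℝ} (hM : 0 < M) : Adm (δ / M) fun x => φ (M⁻¹ • x) :=
  ⟨div_nonneg h.nn hM.le, fun x y => (h.lip _ _).trans (le_of_eq (by
    rw [← smul_sub, norm_smul, Real.norm_eq_abs, abs_of_pos (inv_pos.2 hM)]; ring)),
    h.bdd.imp fun _ hb _ => hb _⟩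

lemma Adm.scale' (h : Adm δ φ) {M : ℝ} (hM : 1 ≤ M) : Adm δ fun x => φ (M⁻¹ • x) :=
  (h.scale (by linarith)).mono (div_le_self h.nn hM)

lemma Adm.shift (h : Adm δ φ) (v : Fin d → ℝ) : Adm δ fun x => φ (x + v) :=
  ⟨h.nn, fun x y => by simpa using h.lip (x + v) (y + v), h.bdd.imp fun _ hb _ => hb _⟩

lemma Adm.wb (h : Adm δ φ) (N : ℝ) : Bdd fun x : Z d => Real.exp (φ (sc N x)) := by
  obtain ⟨M, hM⟩ := h.bdd
  exact ⟨Real.exp M, fun x => by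
    rw [abs_of_pos (Real.exp_pos _)]; exact Real.exp_le_exp.2 (le_of_abs_le (hM _))⟩

lemma Adm.wt_ap (h : Adm δ φ) (N : ℝ) (f : E d) (x : Z d) :
    wt φ N f x = Real.exp (φ (sc N x)) * f x := mu_apply (h.wb N) f x

lemma Adm.neg_wt (h : Adm δ φ) (N : ℝ) (f : E d) : wt (-φ) N (wt φ N f) = f :=
  eext fun x => by rw [h.neg.wt_ap, h.wt_ap, ← mul_assoc, ← Real.exp_add]; simp

lemma Adm.wt_neg (h : Adm δ φ) (N : ℝ) (f : E d) : wt φ N (wt (-φ) N f) = f := by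
  simpa using h.neg.neg_wt N f

lemma Adm.inner_wt (h : Adm δ φ) (N : ℝ) (f g : E d) :
    ⟪wt φ N f, g⟫_ℝ = ⟪f, wt φ N g⟫_ℝ := by
  rw [← inner_star, wt, star_mu (h.wb N)]

lemma Adm.inner_ww (h : Adm δ φ) (N : ℝ) (f : E d) :
    ⟪wt φ N (wt φ N f), f⟫_ℝ = nrm φ N f ^ 2 := by
  rw [h.inner_wt, real_inner_self_eq_norm_sq, nrm]

lemma Adm.inner_ww_le (h : Adm δ φ) (N : ℝ) (f g : E d) :
    |⟪wt φ N (wt φ N f), g⟫_ℝ| ≤ nrm φ N f * nrm φ N g := by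
  rw [h.inner_wt]; exact abs_real_inner_le_norm _ _

lemma wt_scale (φ : (Fin d → ℝ) → ℝ) (N M : ℝ) :
    wt φ (N * M) = wt (fun x => φ (M⁻¹ • x)) N := by
  unfold wt; congr 1; funext x; congr 2; funext μ
  simp only [sc, Pi.smul_apply, smul_eq_mul]; ring

lemma nrm_scale (φ : (Fin d → ℝ) → ℝ) (N M : ℝ) (f : E d) :
    nrm φ (N * M) f = nrm (fun x => φ (M⁻¹ • x)) N f := by rw [nrm, nrm, wt_scale]

lemma nrm_nonneg (f : E d) : 0 ≤ nrm φ N f := norm_nonneg _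
lemma nrm_add (f g : E d) : nrm φ N (f + g) ≤ nrm φ N f + nrm φ N g := by
  simp only [nrm, map_add]; exact norm_add_le _ _
lemma nrm_sub (f g : E d) : nrm φ N (f - g) ≤ nrm φ N f + nrm φ N g := by
  simp only [nrm, map_sub]; exact norm_sub_le _ _
lemma nrm_neg (f : E d) : nrm φ N (-f) = nrm φ N f := by simp [nrm]
lemma nrm_smul (a : ℝ) (f : E d) : nrm φ N (a • f) = |a| * nrm φ N f := by
  simp [nrm, norm_smul]
lemma nrm_sum {ι : Type} (s : Finset ι) (f : ι → E d) :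
    nrm φ N (∑ i ∈ s, f i) ≤ ∑ i ∈ s, nrm φ N (f i) := by
  simp only [nrm, map_sum]; exact norm_sum_le _ _
@[simp] lemma nrm_zero : nrm φ N 0 = 0 := by simp [nrm]
lemma wt_zero (N : ℝ) (f : E d) : wt 0 N f = f :=
  eext fun x => by rw [(adm_zero le_rfl).wt_ap]; simp
lemma nrm_zero' (f : E d) : nrm 0 N f = ‖f‖ := by rw [nrm, wt_zero]

lemma Adm.pt (h : Adm δ φ) (N : ℝ) (f : E d) (x : Z d) :
    Real.exp (φ (sc N x)) * |f x| ≤ nrm φ N f := by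
  have := abs_le_norm (wt φ N f) x
  rwa [h.wt_ap, abs_mul, abs_of_pos (Real.exp_pos _)] at this

def Bd (N₁ N₂ : ℝ) (T : Op d) (C : ℝ) : Prop :=
  ∀ φ, Adm 1 φ → ∀ f, nrm φ N₁ (T f) ≤ C * nrm φ N₂ f

def Cm (N₁ N₂ : ℝ) (T : Op d) (C : ℝ) : Prop :=
  ∀ δ φ, δ ≤ 1 → Adm δ φ → ∀ u f, |⟪u, T (wt φ N₂ (wt φ N₂ f))⟫_ℝ -
    ⟪wt φ N₁ (wt φ N₁ u), T f⟫_ℝ| ≤ C * δ * nrm φ N₁ u * nrm φ N₂ f

lemma Bd.star (h : Bd N₁ N₂ T C) (hC : 0 ≤ C) : Bd N₂ N₁ (star T) C := fun φ hφ g => by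
  set u := wt φ N₂ (Star.star T g) with hu
  have k : ‖u‖ ^ 2 ≤ C * nrm φ N₁ g * ‖u‖ := by
    have e : ‖u‖ ^ 2 = ⟪wt φ N₁ g, wt (-φ) N₁ (T (wt φ N₂ u))⟫_ℝ := by
      rw [hφ.inner_wt, hφ.wt_neg, ← inner_star, ← hφ.inner_wt, real_inner_self_eq_norm_sq]
    have := h _ hφ.neg (wt φ N₂ u)
    rw [nrm, nrm, hφ.neg_wt] at this
    rw [e]
    refine (real_inner_le_norm _ _).trans ?_
    calc _ ≤ nrm φ N₁ g * (C * ‖u‖) := mul_le_mul_of_nonneg_left this (norm_nonneg _)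
      _ = _ := by ring
  change ‖u‖ ≤ _
  rcases (norm_nonneg u).eq_or_lt with h0 | h0
  · rw [← h0]; exact mul_nonneg hC (nrm_nonneg _)
  · rw [sq] at k; exact le_of_mul_le_mul_right k h0

lemma Cm.star (h : Cm N₁ N₂ T C) : Cm N₂ N₁ (star T) C := fun δ φ h1 hφ u f => by
  have := h δ φ h1 hφ f u
  rw [inner_star', inner_star', real_inner_comm, real_inner_comm f, abs_sub_comm]
  linarith

lemma Bd.mono (h : Bd N₁ N₂ T C) (hC : C ≤ C') : Bd N₁ N₂ T C' := fun φ hφ f =>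
  (h φ hφ f).trans (mul_le_mul_of_nonneg_right hC (nrm_nonneg _))

lemma Bd.mul (h : Bd N₁ N₂ S C) (hC : 0 ≤ C) (h' : Bd N₂ N₃ T C') : Bd N₁ N₃ (S * T) (C * C') :=
  fun φ hφ f => (h φ hφ (T f)).trans (by
    rw [mul_assoc]; exact mul_le_mul_of_nonneg_left (h' φ hφ f) hC)

lemma Bd.add (h : Bd N₁ N₂ S C) (h' : Bd N₁ N₂ T C') : Bd N₁ N₂ (S + T) (C + C') :=
  fun φ hφ f => (nrm_add (S f) (T f)).trans (by have := h φ hφ f; have := h' φ hφ f; linarith)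

lemma Bd.smul (h : Bd N₁ N₂ T C) (a : ℝ) : Bd N₁ N₂ (a • T) (|a| * C) := fun φ hφ f => by
  rw [smul_apply, nrm_smul, mul_assoc]
  exact mul_le_mul_of_nonneg_left (h φ hφ f) (abs_nonneg _)

lemma Bd.scale (h : Bd N₁ N₂ T C) {M : ℝ} (hM : 1 ≤ M) : Bd (N₁ * M) (N₂ * M) T C :=
  fun φ hφ f => by rw [nrm_scale, nrm_scale]; exact h _ (hφ.scale' hM) f

lemma Bd.norm_le (h : Bd N₁ N₂ T C) (f : E d) : ‖T f‖ ≤ C * ‖f‖ := by
  simpa [nrm_zero'] using h 0 (adm_zero zero_le_one) f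

structure Gd (N₁ N₂ : ℝ) (T : Op d) (C : ℝ) : Prop where
  nn : 0 ≤ C
  bd : Bd N₁ N₂ T C
  cm : Cm N₁ N₂ T C

lemma Cm.mono (h : Cm N₁ N₂ T C) (hC : C ≤ C') : Cm N₁ N₂ T C' := fun δ φ h1 hφ u f =>
  (h δ φ h1 hφ u f).trans (by
    have := hφ.nn; have := nrm_nonneg (φ := φ) (N := N₁) u; have := nrm_nonneg (φ := φ) (N := N₂) f
    gcongr)

lemma Gd.mono (h : Gd N₁ N₂ T C) (hC : C ≤ C') : Gd N₁ N₂ T C' :=
  ⟨h.nn.trans hC, h.bd.mono hC, h.cm.mono hC⟩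

lemma Gd.star (h : Gd N₁ N₂ T C) : Gd N₂ N₁ (star T) C := ⟨h.nn, h.bd.star h.nn, h.cm.star⟩

lemma Cm.add (h : Cm N₁ N₂ S C) (h' : Cm N₁ N₂ T C') : Cm N₁ N₂ (S + T) (C + C') :=
  fun δ φ h1 hφ u f => by
    have a := abs_le.1 (h δ φ h1 hφ u f)
    have b := abs_le.1 (h' δ φ h1 hφ u f)
    simp only [add_apply, inner_add_right]
    exact abs_le.2 ⟨by linarith [a.1, b.1], by linarith [a.2, b.2]⟩

lemma Cm.smul (h : Cm N₁ N₂ T C) (a : ℝ) : Cm N₁ N₂ (a • T) (|a| * C) := fun δ φ h1 hφ u f => by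
  simp only [smul_apply, inner_smul_right]
  rw [← mul_sub, abs_mul]
  exact (mul_le_mul_of_nonneg_left (h δ φ h1 hφ u f) (abs_nonneg a)).trans (le_of_eq (by ring))

lemma Gd.add (h : Gd N₁ N₂ S C) (h' : Gd N₁ N₂ T C') : Gd N₁ N₂ (S + T) (C + C') :=
  ⟨add_nonneg h.nn h'.nn, h.bd.add h'.bd, h.cm.add h'.cm⟩

lemma Gd.smul (h : Gd N₁ N₂ T C) (a : ℝ) : Gd N₁ N₂ (a • T) (|a| * C) :=
  ⟨mul_nonneg (abs_nonneg _) h.nn, h.bd.smul a, h.cm.smul a⟩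

lemma Gd.neg (h : Gd N₁ N₂ T C) : Gd N₁ N₂ (-T) C := by simpa using h.smul (-1)

lemma Gd.sub (h : Gd N₁ N₂ S C) (h' : Gd N₁ N₂ T C') : Gd N₁ N₂ (S - T) (C + C') := by
  rw [sub_eq_add_neg]; exact h.add h'.neg

lemma gd_zero : Gd N₁ N₂ (0 : Op d) 0 :=
  ⟨le_rfl, fun φ _ f => by simp, fun δ φ _ _ u f => by simp⟩

lemma Gd.sum {ι : Type} (s : Finset ι) {T : ι → Op d} {C : ι → ℝ}
    (h : ∀ i ∈ s, Gd N₁ N₂ (T i) (C i)) : Gd N₁ N₂ (∑ i ∈ s, T i) (∑ i ∈ s, C i) := by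
  induction s using Finset.induction_on with
  | empty => simpa using gd_zero
  | insert i s hi ih =>
    rw [sum_insert hi, sum_insert hi]
    exact (h i (mem_insert_self _ _)).add (ih fun j hj => h j (mem_insert_of_mem hj))

lemma Gd.mul (h : Gd N₁ N₂ S C) (h' : Gd N₂ N₃ T C') : Gd N₁ N₃ (S * T) (2 * C * C') := by
  have hC := h.nn
  have hC' := h'.nn
  refine ⟨by positivity, (h.bd.mul hC h'.bd).mono (by nlinarith [mul_nonneg hC hC']),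
    fun δ φ h1 hφ u f => ?_⟩
  have a := h'.cm δ φ h1 hφ (Star.star S u) f
  have b := h.cm δ φ h1 hφ u (T f)
  have a' := h.bd.star hC φ (hφ.mono h1) u
  have b' := h'.bd φ (hφ.mono h1) f
  have hδ := hφ.nn
  have n1 := nrm_nonneg (φ := φ) (N := N₁) u
  have n2 := nrm_nonneg (φ := φ) (N := N₃) f
  rw [inner_star, hφ.inner_wt, hφ.inner_wt, inner_star] at a
  have a2 : C' * δ * nrm φ N₂ (Star.star S u) * nrm φ N₃ f ≤
      C' * δ * (C * nrm φ N₁ u) * nrm φ N₃ f := by gcongr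
  have b2 : C * δ * nrm φ N₁ u * nrm φ N₂ (T f) ≤ C * δ * nrm φ N₁ u * (C' * nrm φ N₃ f) := by
    gcongr
  have a3 := abs_le.1 (a.trans a2)
  have b3 := abs_le.1 (b.trans b2)
  simp only [mul_apply_eq_comp]
  exact abs_le.2 ⟨by linarith [a3.1, b3.1], by linarith [a3.2, b3.2]⟩

lemma Gd.scale (h : Gd N₁ N₂ T C) {M : ℝ} (hM : 1 ≤ M) : Gd (N₁ * M) (N₂ * M) T C :=
  ⟨h.nn, h.bd.scale hM, fun δ φ h1 hφ u f => by
    rw [nrm_scale, nrm_scale, wt_scale, wt_scale]; exact h.cm δ _ h1 (hφ.scale' hM) u f⟩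

def Loc (N₁ N₂ r : ℝ) (T : Op d) : Prop :=
  ∃ (c : Z d → ℝ) (σ : Z d → Z d), (∀ f x, T f x = c x * f (σ x)) ∧
    ∀ x, ‖sc N₁ x - sc N₂ (σ x)‖ ≤ r

lemma exp_le_three {a : ℝ} (h : a ≤ 1) : Real.exp a ≤ 3 :=
  (Real.exp_le_exp.2 h).trans Real.exp_one_lt_three.le

lemma Loc.bd {r : ℝ} (h : Loc N₁ N₂ r T) (hr : r ≤ 1) (hφ : Adm 1 φ) (f : E d) :
    nrm φ N₁ (T f) ≤ 3 * ‖T (wt φ N₂ f)‖ := by
  obtain ⟨c, σ, e, hσ⟩ := h
  refine norm_le_cmp _ _ injective_id (by norm_num) fun x => ?_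
  rw [id, hφ.wt_ap, e, e, hφ.wt_ap]
  have k : Real.exp (φ (sc N₁ x)) ≤ 3 * Real.exp (φ (sc N₂ (σ x))) := by
    have := le_of_abs_le (hφ.lip (sc N₁ x) (sc N₂ (σ x)))
    calc _ = Real.exp (φ (sc N₁ x) - φ (sc N₂ (σ x))) * Real.exp (φ (sc N₂ (σ x))) := by
          rw [← Real.exp_add]; simp
      _ ≤ _ := mul_le_mul_of_nonneg_right (exp_le_three (by linarith [hσ x])) (Real.exp_pos _).le
  simp only [abs_mul, abs_of_pos (Real.exp_pos _)]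
  calc _ ≤ 3 * Real.exp (φ (sc N₂ (σ x))) * (|c x| * |f (σ x)|) := by gcongr
    _ = _ := by ring

lemma sinh_le {a : ℝ} (h : |a| ≤ 1) : |Real.exp a - Real.exp (-a)| ≤ 4 * |a| := by
  have h1 := Real.abs_exp_sub_one_le (x := a) h
  have h2 := Real.abs_exp_sub_one_le (x := -a) (by rwa [abs_neg])
  rw [abs_neg] at h2
  have := abs_sub (Real.exp a - 1) (Real.exp (-a) - 1)
  rw [sub_sub_sub_cancel_right] at this
  linarith

lemma Loc.cm {r : ℝ} (h : Loc N₁ N₂ r T) (hr : r ≤ 1) (h1 : δ ≤ 1) (hφ : Adm δ φ) (u f : E d) :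
    |⟪u, T (wt φ N₂ (wt φ N₂ f))⟫_ℝ - ⟪wt φ N₁ (wt φ N₁ u), T f⟫_ℝ| ≤
      4 * r * δ * nrm φ N₁ u * ‖T (wt φ N₂ f)‖ := by
  obtain ⟨c, σ, e, hσ⟩ := h
  have hδ := hφ.nn
  have hr0 : 0 ≤ r := (norm_nonneg _).trans (hσ 0)
  have e1 : ⟪u, T (wt φ N₂ (wt φ N₂ f))⟫_ℝ - ⟪wt φ N₁ (wt φ N₁ u), T f⟫_ℝ =
      ⟪wt φ N₁ u, wt (-φ) N₁ (T (wt φ N₂ (wt φ N₂ f))) - wt φ N₁ (T f)⟫_ℝ := by
    rw [inner_sub_right, hφ.inner_wt N₁ u, hφ.wt_neg, hφ.inner_wt N₁ (wt φ N₁ u)]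
  rw [e1]
  refine (abs_real_inner_le_norm _ _).trans ?_
  have k : ‖wt (-φ) N₁ (T (wt φ N₂ (wt φ N₂ f))) - wt φ N₁ (T f)‖ ≤
      4 * r * δ * ‖T (wt φ N₂ f)‖ := by
    refine norm_le_cmp _ _ injective_id (by positivity) fun x => ?_
    set a := φ (sc N₂ (σ x)) - φ (sc N₁ x) with ha
    have l1 : |a| ≤ r * δ := by
      rw [ha, abs_sub_comm]
      exact (hφ.lip _ _).trans (by rw [mul_comm]; exact mul_le_mul_of_nonneg_right (hσ x) hδ)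
    have l2 := sinh_le (l1.trans (by nlinarith))
    have e2 : (wt (-φ) N₁ (T (wt φ N₂ (wt φ N₂ f))) - wt φ N₁ (T f)) x =
        (Real.exp a - Real.exp (-a)) * T (wt φ N₂ f) x := by
      rw [sub_ap, hφ.neg.wt_ap, hφ.wt_ap]
      simp only [e, hφ.wt_ap, ha, neg_sub, Real.exp_sub, Pi.neg_apply, Real.exp_neg]
      field_simp
    rw [e2, abs_mul, id]
    exact mul_le_mul_of_nonneg_right (by linarith) (abs_nonneg _)
  calc _ ≤ nrm φ N₁ u * (4 * r * δ * ‖T (wt φ N₂ f)‖) :=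
        mul_le_mul_of_nonneg_left k (norm_nonneg _)
    _ = _ := by ring

lemma gd_of_loc {ι : Type} (s : Finset ι) (T : ι → Op d) (a : ι → ℝ) (ha : ∀ i ∈ s, |a i| ≤ 1)
    (h : ∀ i ∈ s, Loc N₁ N₂ 1 (T i)) (hC : 0 ≤ C) (hn : ∀ g, ∑ i ∈ s, ‖T i g‖ ≤ C * ‖g‖) :
    Gd N₁ N₂ (∑ i ∈ s, a i • T i) (4 * C) := by
  refine ⟨by positivity, fun φ hφ f => ?_, fun δ φ h1 hφ u f => ?_⟩
  · rw [_root_.sum_apply]
    refine (nrm_sum _ _).trans ((sum_le_sum fun i hi => ?_).trans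
      (?_ : ∑ i ∈ s, 4 * ‖T i (wt φ N₂ f)‖ ≤ _))
    · rw [smul_apply, nrm_smul]
      have := (h i hi).bd le_rfl hφ f
      nlinarith [ha i hi, nrm_nonneg (φ := φ) (N := N₁) (T i f), norm_nonneg (T i (wt φ N₂ f))]
    · rw [← mul_sum, mul_assoc]; exact mul_le_mul_of_nonneg_left (hn _) (by norm_num)
  · have hδ := hφ.nn
    have n1 := nrm_nonneg (φ := φ) (N := N₁) u
    simp only [_root_.sum_apply, inner_sum, smul_apply,
      inner_smul_right]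
    rw [← sum_sub_distrib]
    refine (abs_sum_le_sum_abs _ _).trans ((sum_le_sum fun i hi => ?_).trans
      (?_ : ∑ i ∈ s, 4 * δ * nrm φ N₁ u * ‖T i (wt φ N₂ f)‖ ≤ _))
    · rw [← mul_sub, abs_mul]
      have := (h i hi).cm le_rfl h1 hφ u f
      rw [mul_one] at this
      exact (mul_le_mul (ha i hi) this (abs_nonneg _) zero_le_one).trans_eq (one_mul _)
    · rw [← mul_sum]
      calc _ ≤ 4 * δ * nrm φ N₁ u * (C * ‖wt φ N₂ f‖) :=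
            mul_le_mul_of_nonneg_left (hn _) (by positivity)
        _ = _ := by rw [nrm.eq_1 φ N₂]; ring

lemma Loc.gd (h : Loc N₁ N₂ 1 T) (hn : ∀ g, ‖T g‖ ≤ ‖g‖) : Gd N₁ N₂ T 4 := by
  simpa using gd_of_loc (C := 1) {()} (fun _ => T) (fun _ => 1) (by simp) (by simpa using h)
    zero_le_one (by simpa using hn)

end

end Pool.Agent.Lib.MP_7f377f_mp.Lin
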