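import Pool.Agent.Lib.MP_7f377f_mp.OddYM

/-! The chessboard estimate for patterns in boxes with different sides. -/

namespace Pool.Agent.Lib.MP_7f377f_mp.Weak

open MeasureTheory

section
variable {d m : ℕ} [NeZero m]

theorem chess_box_abs {β : Type} (e : β) (r : Fin d → β → β) (re : ∀ k, r k e = e)
    (rr : ∀ k a, r k (r k a) = a) {h : ℕ} (hm : m = 2 * h + 1) (Φ : (Site d m → β) → ℝ)
    (pos : ∀ σ, 0 ≤ Φ σ) (sh : ∀ σ a, Φ (fun x => σ (x + a)) = Φ σ)
    (cs : ∀ σ k, (∀ x, (x k).val = h → σ x = e) → Φ σ ^ 2 ≤ Φ (sy e (r k) h k σ σ) *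
      Φ (sy e (r k) h k (fun x => r k (σ (rc k x))) fun x => r k (σ (rc k x))))
    (h1 : Φ (fun _ => e) ≤ 1) {M : ℝ} (M1 : 1 ≤ M) (hM : ∀ σ, Φ σ ≤ M) {D : Fin d → ℕ} {s : ℕ}
    (hD : ∀ k, D k + 2 ^ s ≤ h + 1) (σ : Site d m → β) (hσ : ∀ x k, D k ≤ (x k).val → σ x = e) :
    Φ σ ≤ M ^ (∏ k, (D k : ℝ) / (2 * 2 ^ s)) := by
  classical
  have s1 : 1 ≤ 2 ^ s := Nat.one_le_two_pow
  obtain ⟨z, hz⟩ : ∃ z : ZMod m → ℤ, ∀ x, z x = if x.val ≤ h then (x.val : ℤ) else x.val - m :=
    ⟨_, fun _ => rfl⟩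
  have zc : ∀ x, ((z x : ℤ) : ZMod m) = x := fun x => by rw [hz]; split_ifs <;> simp
  have zb : ∀ x, -(h : ℤ) ≤ z x ∧ z x ≤ h := fun x => by
    have := ZMod.val_lt x
    rw [hz]; split_ifs <;> omega
  have zi : ∀ t : ℤ, -(h : ℤ) ≤ t → t ≤ h → z t = t := fun t h1 h2 => by
    have h3 := (ZMod.intCast_eq_intCast_iff_dvd_sub _ _ _).1 (zc t)
    have := zb t
    have := Int.eq_zero_of_abs_lt_dvd h3 (abs_lt.2 ⟨by omega, by omega⟩)
    omega
  have key : ∀ K : Finset (Fin d), ∀ σ : Site d m → β,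
      (∀ x, ∀ k ∈ K, D k ≤ (x k).val → σ x = e) → Φ σ ≤ M ^ (∏ k ∈ K, (D k : ℝ) / (2 * 2 ^ s)) := by
    intro K
    induction K using Finset.induction_on with
    | empty => exact fun σ _ => by simpa using hM σ
    | insert k K hk ih =>
      intro σ hσ
      have uk : ∀ (x a : Site d m), Function.update (x + a) k 0 = Function.update x k 0 +
          Function.update a k 0 := fun x a => by
        funext l; by_cases hl : l = k <;> simp [hl]
      have ur : ∀ x : Site d m, Function.update (rc k x) k 0 = Function.update x k 0 := fun x => by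
        funext l; by_cases hl : l = k <;> simp [hl, rc_ne]
      have zr : ∀ x : Site d m, (x k).val ≠ h → z (rc k x k) = -z (x k) - 1 := fun x hx => by
        have := ZMod.val_lt (x k)
        rw [hz, hz, rc_val]; split_ifs <;> omega
      have w := word_lemma (α := Site d m → β) (fun _ => e) (fun a y => r k (a y))
        (funext fun _ => re k) (fun a => funext fun _ => rr k _)
        (fun a => ∀ x, ∀ l ∈ K, D l ≤ (x l).val → a x = e)
        (fun a ha x l hl hx => by simp only [ha x l hl hx, re]) h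
        (fun w => Φ fun x => w (z (x k)) (Function.update x k 0)) (fun _ => pos _)
        (fun w t hw => ?_) (fun w hw => ?_) h1
        (M := M ^ (∏ k ∈ K, (D k : ℝ) / (2 * 2 ^ s))) (Real.one_le_rpow M1 (by positivity))
        (fun w hw => ih _ fun x l hl hx => hw _ _ l hl (by
          rwa [Function.update_of_ne (by rintro rfl; exact hk hl)])) (hD k)
        (fun t y => if 0 ≤ t ∧ t < D k then σ (Function.update y k t) else e)
        (fun t x l hl hx => by
          split_ifs
          · exact hσ _ l (Finset.mem_insert_of_mem hl) (by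
              rwa [Function.update_of_ne (by rintro rfl; exact hk hl)])
          · rfl) fun t ht => funext fun _ => if_neg (by omega)
      · have e1 : (fun x : Site d m => if 0 ≤ z (x k) ∧ z (x k) < D k then
            σ (Function.update (Function.update x k 0) k (z (x k))) else e) = σ := by
          funext x
          rw [zc, Function.update_idem, Function.update_eq_self]
          split_ifs with hx
          · rfl
          · refine (hσ x k (Finset.mem_insert_self _ _) ?_).symm
            have := hD k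
            rw [hz] at hx
            split_ifs at hx <;> omega
        rw [e1, ← Real.rpow_natCast _ (D k), ← Real.rpow_mul (by linarith)] at w
        rw [Finset.prod_insert hk, mul_comm, ← mul_div_assoc, div_eq_mul_inv,
          Real.rpow_mul (by linarith)]
        refine (Real.le_rpow_inv_iff_of_pos (pos _) (by positivity) (by positivity)).2 ?_
        rw [← Real.rpow_natCast] at w
        push_cast at w
        exact w
      · rw [← sh (fun x => w (z (x k)) (Function.update x k 0)) (Pi.single k t)]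
        congr 1
        funext x
        rw [uk, Pi.add_apply, Pi.single_eq_same,
          show Function.update (Pi.single k (t : ZMod m) : Site d m) k 0 = 0 by
            funext l; by_cases hl : l = k <;> simp [hl], add_zero]
        have b1 := zb (x k)
        have b2 := zb (x k + t)
        beta_reduce
        by_cases hc : -(h : ℤ) ≤ z (x k) + t ∧ z (x k) + t ≤ h
        · rw [← zi _ hc.1 hc.2, Int.cast_add, zc]
        · rw [hw (z (x k) + t) (by omega), hw (z (x k + t))]
          by_contra hn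
          have := zi (z (x k + t) - t) (by omega) (by omega)
          rw [Int.cast_sub, zc, add_sub_cancel_right] at this
          omega
      · refine (cs _ k fun x hx => ?_).trans_eq ?_
        · rw [hw _ (by rw [hz]; split_ifs <;> omega)]
        · have h0 : w (-h - 1) = fun _ => e := hw _ (by omega)
          have h0' : w h = fun _ => e := hw _ (by omega)
          have hc : ∀ x : Site d m, ((x k).val < h ∧ 0 ≤ z (x k)) ∨ ((x k).val = h ∧ z (x k) = h) ∨
              (h < (x k).val ∧ z (x k) < 0) := fun x => by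
            have := ZMod.val_lt (x k)
            rw [hz]; split_ifs <;> omega
          congr 2 <;> funext x <;> simp only [sy, ur, rc_rc, rr] <;>
            rcases hc x with ⟨c1, c2⟩ | ⟨c1, c2⟩ | ⟨c1, c2⟩
          · rw [if_pos c1, if_pos c2]
          · rw [if_neg (by omega), if_pos c1, if_pos (by omega), c2, h0']
          · rw [if_neg (by omega), if_neg (by omega), if_neg (by omega), zr x (by omega)]
          · rw [if_pos c1, if_pos c2, zr x (by omega)]
          · rw [if_neg (by omega), if_pos c1, if_pos (by omega), c2, h0, re]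
          · rw [if_neg (by omega), if_neg (by omega), if_neg (by omega)]
  exact key Finset.univ σ fun x k _ => hσ x k

end

variable {A : Type} [NormedRing A] [StarRing A] [NormedAlgebra ℝ A] [HS A]
variable {d L : ℕ} {G : Type} [Group G] [NeZero L] (ρ : G →* unitary A)
  [TopologicalSpace G] [IsTopologicalGroup G] [CompactSpace G]
  [SecondCountableTopology G] [MeasurableSpace G] [BorelSpace G] (μ : Measure G)
  [μ.IsHaarMeasure] [IsProbabilityMeasure μ]

/-- chessboard estimate for patterns supported in a box with sides `D k` -/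
theorem chess_box (hρ : Continuous ρ) {b : ℝ} (hb : 0 ≤ b) {m : ℕ} [NeZero m] (hm : Odd m)
    {β : Type} (e : β) (r : Fin d → β → β) (re : ∀ k, r k e = e) (rr : ∀ k a, r k (r k a) = a)
    (f : β → Site d m → (Link d L → G) → ℝ) (hf : ∀ a x, BM (f a x)) (he : ∀ x U, f e x U = 1)
    (emb : Site d m → Site d L) (hs : ∀ a x y U, f a x (shift (emb y) U) = f a (x + y) U)
    (hr : ∀ a x k U, f a x (refl k U) = f (r k a) (rc k x) U)
    (hd : ∀ a x k, (x k).val < m / 2 → Dep (L / 2) k (f a x))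
    (w : β → ℝ) (w0 : ∀ a, 0 < w a) (we : w e = 1) (wr : ∀ k a, w (r k a) = w a) {C : ℝ}
    (hC : 0 ≤ C) (hM : ∀ σ : Site d m → β,
      |∫ U, ∏ x, f (σ x) x U ∂(nu μ ρ d L b)| ≤ Real.exp (C * m ^ d) * ∏ x, w (σ x))
    (D : Fin d → ℕ) {E : ℕ} (hE : ∀ k, D k ≤ E) (hD : 4 * E < m) (x₀ : Site d m)
    (σ : Site d m → β) (hσ : ∀ x k, D k ≤ ((x - x₀) k).val → σ x = e) :
    |∫ U, ∏ x, f (σ x) x U ∂(nu μ ρ d L b)| ≤ Real.exp (C * ∏ k, 4 * (D k : ℝ)) * ∏ x, w (σ x) := by
  have := nu_prob (d := d) (L := L) μ ρ hρ b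
  obtain ⟨h, hm⟩ := hm
  obtain ⟨s, s1, s2⟩ : ∃ s, E + 2 ^ s ≤ h + 1 ∧ m ≤ 4 * (2 * 2 ^ s) := by
    have a1 := Nat.pow_log_le_self 2 (x := h + 1 - E) (by omega)
    have a2 := Nat.lt_pow_succ_log_self one_lt_two (h + 1 - E)
    rw [pow_succ'] at a2
    exact ⟨Nat.log 2 (h + 1 - E), by omega, by omega⟩
  set g : β → Site d m → (Link d L → G) → ℝ := fun a x U => f a x U * (w a)⁻¹ with hg
  have bg : ∀ a x, BM (g a x) := fun a x => (hf a x).mul (BM.const _)
  have eg : ∀ σ : Site d m → β, |∫ U, ∏ x, g (σ x) x U ∂(nu μ ρ d L b)| =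
      |∫ U, ∏ x, f (σ x) x U ∂(nu μ ρ d L b)| / ∏ x, w (σ x) := fun σ => by
    simp only [hg, Finset.prod_mul_distrib, integral_mul_const, Finset.prod_inv_distrib, abs_mul]
    rw [abs_inv, abs_of_pos (Finset.prod_pos fun x _ => w0 _), div_eq_mul_inv]
  have sh : ∀ (σ : Site d m → β) a, |∫ U, ∏ x, g (σ (x + a)) x U ∂(nu μ ρ d L b)| =
      |∫ U, ∏ x, g (σ x) x U ∂(nu μ ρ d L b)| := fun σ a => by
    rw [← (BM.prod _ fun x => bg (σ (x + a)) x).mp (nu_shift μ ρ hρ b (emb a))]
    simp only [hg, hs]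
    congr 2
    funext U
    exact Equiv.prod_comp (Equiv.addRight a) fun x => f (σ x) x U * (w (σ x))⁻¹
  have key := chess_box_abs e r re rr hm (fun σ => |∫ U, ∏ x, g (σ x) x U ∂(nu μ ρ d L b)|)
    (fun _ => abs_nonneg _) sh (fun σ k hσ => ?_) (by simp [hg, he, we])
    (M := Real.exp (C * m ^ d)) (Real.one_le_exp (by positivity))
    (fun σ => by rw [eg, div_le_iff₀ (Finset.prod_pos fun x _ => w0 _)]; exact hM σ)
    (fun k => (Nat.add_le_add_right (hE k) _).trans s1)
    (fun x => σ (x + x₀)) fun x k hx => hσ _ k (by simpa using hx)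
  · rw [sh, eg, div_le_iff₀ (Finset.prod_pos fun x _ => w0 _), ← Real.exp_mul] at key
    refine key.trans (mul_le_mul_of_nonneg_right (Real.exp_le_exp.2 ?_)
      (Finset.prod_nonneg fun x _ => (w0 _).le))
    rw [mul_assoc, ← Fin.prod_const, ← Finset.prod_mul_distrib]
    refine mul_le_mul_of_nonneg_left (Finset.prod_le_prod (fun _ _ => by positivity)
      fun k _ => ?_) hC
    rw [← mul_div_assoc, div_le_iff₀ (by positivity), mul_right_comm]
    gcongr
    exact_mod_cast s2
  · have e1 : ∀ (τ τ' : Site d m → β) U, (∏ x with (x k).val < h, g (τ x) x U) *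
        (∏ x with (x k).val < h, g (τ' x) x (refl k U)) =
        ∏ x, g (sy e (r k) h k τ τ' x) x U := by
      intro τ τ' U
      rw [prod_third hm k _ fun x hx => by simp [sy, hx, hg, he, we]]
      congr 1
      · refine Finset.prod_congr rfl fun x hx => ?_
        rw [sy, if_pos (Finset.mem_filter.mp hx).2]
      · refine Finset.prod_congr rfl fun x hx => ?_
        have := (Finset.mem_filter.mp hx).2
        rw [sy, if_neg (by rw [rc_val]; omega), if_neg (by rw [rc_val]; omega), rc_rc]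
        simp only [hg, hr, wr]
    have dA : ∀ τ : Site d m → β, Dep (L / 2) k fun U => ∏ x with (x k).val < h, g (τ x) x U :=
      fun τ U V hUV => Finset.prod_congr rfl fun x hx => by
        simp only [hg, hd _ x k (by have := (Finset.mem_filter.mp hx).2; omega) U V hUV]
    have := rp_ineq_meas ρ μ hρ hb k (BM.prod _ fun x => bg _ x) (BM.prod _ fun x => bg _ x) (dA σ)
      (dA fun x => r k (σ (rc k x)))
    simp only [e1] at this
    have e2 : sy e (r k) h k σ (fun x => r k (σ (rc k x))) = σ := by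
      funext x
      simp only [sy, rc_rc, rr]
      split_ifs with h1 h2
      exacts [rfl, (hσ x h2).symm, rfl]
    rw [e2] at this
    rw [sq_abs, ← abs_mul]
    exact this.trans (le_abs_self _)

/-- the same for translates of observables of the cell at the origin -/
theorem chess_cbox (hρ : Continuous ρ) {b : ℝ} (hb : 0 ≤ b) {m lam : ℕ} [NeZero m] (hm : Odd m)
    (hL : L = m * lam) {β : Type} (e : β) (r : Fin d → β → β) (re : ∀ k, r k e = e)
    (rr : ∀ k a, r k (r k a) = a) (O : β → (Link d L → G) → ℝ) (hO : ∀ a, BM (O a))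
    (he : ∀ U, O e U = 1)
    (hr : ∀ a k U, O (r k a) U = O a (refl k (shift (Pi.single k (lam : ZMod L)) U)))
    (hd : ∀ a U V, (∀ l, (∀ k, half lam k l) → U l = V l) → O a U = O a V)
    (w : β → ℝ) (w0 : ∀ a, 0 < w a) (we : w e = 1) (wr : ∀ k a, w (r k a) = w a) {C : ℝ}
    (hC : 0 ≤ C) (hM : ∀ σ : Site d m → β, |∫ U, ∏ x, O (σ x) (shift (corner lam x) U)
      ∂(nu μ ρ d L b)| ≤ Real.exp (C * m ^ d) * ∏ x, w (σ x))
    (D : Fin d → ℕ) {E : ℕ} (hE : ∀ k, D k ≤ E) (hD : 4 * E < m) (x₀ : Site d m)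
    (σ : Site d m → β) (hσ : ∀ x k, D k ≤ ((x - x₀) k).val → σ x = e) :
    |∫ U, ∏ x, O (σ x) (shift (corner lam x) U) ∂(nu μ ρ d L b)| ≤
      Real.exp (C * ∏ k, 4 * (D k : ℝ)) * ∏ x, w (σ x) := by
  refine chess_box ρ μ hρ hb hm e r re rr (fun a x U => O a (shift (corner lam x) U))
    (fun a x => (hO a).comp (continuous_shift _).measurable) (fun _ _ => he _) (corner lam)
    (fun a x y U => by rw [shift_shift, corner_add hL])
    (fun a x k U => by rw [hr, shift_shift, corner_rc hL, shift_refl])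
    (fun a x k hx U V h => hd _ _ _ fun l hl => h _ ?_) w w0 we wr hC hM D hE hD x₀ σ hσ
  obtain ⟨h1, h2⟩ := hl k
  have a1 : lam * ((x k).val + 1) ≤ lam * (m / 2) := Nat.mul_le_mul_left _ hx
  have a2 : 2 * (lam * (m / 2)) ≤ L := by
    rw [hL, mul_left_comm, mul_comm m]; exact Nat.mul_le_mul_left _ (Nat.mul_div_le m 2)
  have a3 := NeZero.pos L
  rw [mul_add_one] at a1
  have a4 : ((l.1 + corner lam x : Site d L) k).val = (l.1 k).val + lam * (x k).val := by
    rw [Pi.add_apply, corner, ← ZMod.natCast_zmod_val (l.1 k), ← Nat.cast_add,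
      ZMod.val_cast_of_lt (by omega), ZMod.natCast_zmod_val]
  exact ⟨by simp only [a4]; omega, fun h => by have := h2 h; simp only [a4]; omega⟩

end Pool.Agent.Lib.MP_7f377f_mp.Weak

namespace Pool.Agent.Lib.MP_7f377f_mp.YM5

open MeasureTheory Weak

theorem wilson_cbox {n : ℕ} [NeZero n] [MeasurableSpace SU2] [BorelSpace SU2] (h : Measure SU2)
    [h.IsHaarMeasure] [IsProbabilityMeasure h] {b : ℝ} (hb : 0 ≤ b) {m lam : ℕ} [NeZero m]
    (hm : Odd m) (hL : n = m * lam) {β : Type} (e : β) (r : Fin 4 → β → β) (re : ∀ k, r k e = e)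
    (rr : ∀ k a, r k (r k a) = a) (O : β → Cfg n → ℝ) (hO : ∀ a, BM (O a)) (he : ∀ U, O e U = 1)
    (hr : ∀ a k U, O (r k a) U = O a (refl k (shift (Pi.single k (lam : ZMod n)) U)))
    (hd : ∀ a U V, (∀ l, (∀ k, half lam k l) → U l = V l) → O a U = O a V)
    (w : β → ℝ) (w0 : ∀ a, 0 < w a) (we : w e = 1) (wr : ∀ k a, w (r k a) = w a) {C : ℝ}
    (hC : 0 ≤ C) (hM : ∀ σ : Site 4 m → β, |∫ U, ∏ x, O (σ x) (shift (corner lam x) U)
      ∂(wilson h b n)| ≤ Real.exp (C * m ^ 4) * ∏ x, w (σ x))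
    (D : Fin 4 → ℕ) {E : ℕ} (hE : ∀ k, D k ≤ E) (hD : 4 * E < m) (x₀ : Site 4 m)
    (σ : Site 4 m → β) (hσ : ∀ x k, D k ≤ ((x - x₀) k).val → σ x = e) :
    |∫ U, ∏ x, O (σ x) (shift (corner lam x) U) ∂(wilson h b n)| ≤
      Real.exp (C * ∏ k, 4 * (D k : ℝ)) * ∏ x, w (σ x) := by
  let _ := quatHS
  rw [wilson_nu] at hM ⊢
  exact chess_cbox rho h rho_cont (by positivity) hm hL e r re rr O hO he hr hd w w0 we wr hC hM
    D hE hD x₀ σ hσ

end Pool.Agent.Lib.MP_7f377f_mp.YM5
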