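import Pool.Agent.Lib.MP_7f377f_mp.OddYM
import Pool.Agent.Lib.MP_7f377f_mp.InfA

/-! From a bound exponential in the volume to a uniform bound for sources in different cells. -/

noncomputable section

namespace Pool.Agent.Lib.MP_7f377f_mp.YM7

open MeasureTheory Weak Filter Topology Real

set_option linter.unusedSectionVars false

variable {n m : ℕ}

/-- the source lives in the cell `c` of side `lam` of the torus, at distance `δ` from its walls -/
def InT (a δ : ℝ) (lam : ℕ) (c : Site 4 m) (F : Src n) : Prop :=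
  ∀ x i j, F x i j ≠ 0 → ∀ l, δ ≤ a * ((x - corner lam c : Site 4 n) l).val ∧
    a * ((x - corner lam c : Site 4 n) l).val ≤ a * lam - δ

/-- reflection symmetric class of sources in the cell at the origin -/
def Lab (a τ : ℝ) (lam μ : ℕ) (F : Src n) : Prop :=
  (∃ g : Site 4 n → ℝ, (∀ x, |g x| ≤ 1) ∧ (∀ x l, |g (x + Pi.single l 1) - g x| ≤ a) ∧
    ∀ x i j (y : Site 4 n), (∀ l, y l = x l ∨ ((i = l ∨ j = l) ∧ y l = x l + 1)) →
      |F x i j - g y| ≤ τ) ∧
  ∀ x i j, F x i j ≠ 0 → ∀ l, μ ≤ (x l).val ∧ (x l).val + (if i = l ∨ j = l then 1 else 0) + μ ≤ lam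

/-- reflection of the cell at the origin -/
def rL (lam : ℕ) (k : Fin 4) (F : Src n) : Src n := fun x => rF k F (x - Pi.single k (lam : ZMod n))

theorem rL_rL (lam : ℕ) (k : Fin 4) (F : Src n) : rL lam k (rL lam k F) = F := by
  funext x i j
  simp only [rL, rF]
  congr 1
  funext l
  by_cases hl : l = k <;> by_cases h : i = k ∨ j = k <;> simp [rq, rc, rf, hl, h]
  ring

theorem Lab.rL [NeZero n] {a τ : ℝ} {lam μ : ℕ} (hn : lam < n) {F : Src n} (h : Lab a τ lam μ F)
    (k : Fin 4) : Lab a τ lam μ (rL lam k F) := by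
  obtain ⟨⟨g, g1, g2, g3⟩, h⟩ := h
  refine ⟨⟨fun y => g (rf k (y - Pi.single k (lam : ZMod n))), fun _ => g1 _, fun x l => ?_,
    fun x i j y hy => g3 _ _ _ _ fun l => ?_⟩, fun x i j hx l => ?_⟩
  · beta_reduce
    rw [add_sub_right_comm, rf_add]
    by_cases hl : l = k
    · have := g2 (rf k (x - Pi.single k (lam : ZMod n)) + -Pi.single k 1) k
      rw [neg_add_cancel_right, abs_sub_comm] at this
      rw [hl, rf_single]
      exact this
    · rw [rf_single_ne hl]; exact g2 _ _
  · have := hy l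
    by_cases hl : l = k
    · subst hl
      by_cases h : i = l ∨ j = l
      · rcases this with e | e
        · exact Or.inr ⟨h, by simp [rq, rc, rf, h, e]⟩
        · exact Or.inl (by simp [rq, rc, rf, h, e.2]; ring)
      · exact Or.inl (by simp [rq, rf, h, this.resolve_right fun e => h e.1])
    · by_cases h : i = k ∨ j = k <;> simpa [rq, rc, rf, hl, h] using this
  · have := h _ _ _ hx l
    by_cases hl : l = k
    · subst hl
      obtain ⟨t, ht⟩ : ∃ t, t = (rq l i j (x - Pi.single l (lam : ZMod n)) l).val := ⟨_, rfl⟩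
      rw [← ht] at this
      have e : x l = ((lam - (if i = l ∨ j = l then 1 else 0) - t : ℕ) : ZMod n) := by
        rw [Nat.cast_sub (by omega), Nat.cast_sub (by omega), ht, ZMod.natCast_zmod_val]
        by_cases h : i = l ∨ j = l <;> simp [rq, rc, rf, h]
      rw [e, ZMod.val_cast_of_lt (by omega)]
      omega
    · by_cases h : i = k ∨ j = k <;> simpa [rq, rc, rf, hl, h] using this

theorem lip_cube {a : ℝ} {g : Site 4 n → ℝ} (g2 : ∀ x l, |g (x + Pi.single l 1) - g x| ≤ a)
    {x y : Site 4 n} (h : ∀ l, y l = x l ∨ y l = x l + 1) : |g y - g x| ≤ 4 * a := by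
  have a0 : 0 ≤ a := (abs_nonneg _).trans (g2 0 0)
  have key : ∀ S : Finset (Fin 4), |g (S.piecewise y x) - g x| ≤ S.card * a := by
    intro S
    induction S using Finset.induction_on with
    | empty => simp
    | insert l S hl ih =>
      rw [Finset.card_insert_of_notMem hl, Nat.cast_succ, add_mul, one_mul, add_comm]
      refine (abs_sub_le _ (g (S.piecewise y x)) _).trans (add_le_add ?_ ih)
      rcases h l with e | e
      · rw [Finset.piecewise_insert, e, ← S.piecewise_eq_of_notMem y x hl, Function.update_eq_self]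
        simpa using a0
      · refine le_of_eq_of_le ?_ (g2 (S.piecewise y x) l)
        congr 3
        funext j
        by_cases hj : j = l
        · simp [hj, e, S.piecewise_eq_of_notMem y x hl]
        · simp [hj, Finset.piecewise_insert_of_ne]
  simpa using key Finset.univ

variable [NeZero n]

theorem Lab.dep {a τ : ℝ} {lam μ : ℕ} (hn : lam < n) {F : Src n} (h : Lab a τ lam μ F) (U V : Cfg n)
    (hUV : ∀ l, (∀ k, half lam k l) → U l = V l) : gfield F U = gfield F V := by
  refine Finset.sum_congr rfl fun x _ => Finset.sum_congr rfl fun i _ =>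
    Finset.sum_congr rfl fun j _ => ?_
  split_ifs with hij
  swap
  · rfl
  by_cases h0 : F x i j = 0
  · simp only [h0, zero_mul]
  have h1 := h.2 x i j h0
  have k1 : ∀ i' : Fin 4, (i' = i ∨ i' = j) → U (x, i') = V (x, i') := fun i' hi' =>
    hUV _ fun k => by
      have := h1 k
      refine ⟨by simp only; omega, fun e => ?_⟩
      simp only at e ⊢
      rw [if_pos (by rw [← e]; tauto)] at this
      omega
  have k2 : ∀ i' j' : Fin 4, (i' = i ∨ i' = j) → (j' = i ∨ j' = j) → i' ≠ j' →
      U (x + Pi.single i' 1, j') = V (x + Pi.single i' 1, j') := fun i' j' hi' hj' hne =>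
    hUV _ fun k => by
      have := h1 k
      by_cases hk : i' = k
      · rw [if_pos (by rw [← hk]; tauto)] at this
        have e : ((x + Pi.single i' 1 : Site 4 n) k).val = (x k).val + 1 := by
          rw [hk, Pi.add_apply, Pi.single_eq_same, val_add_one _ (by omega)]
        exact ⟨by simp only [e]; omega, fun e' => absurd (hk.trans e'.symm) hne⟩
      · have e : (x + Pi.single i' 1 : Site 4 n) k = x k := by
          rw [Pi.add_apply, Pi.single_eq_of_ne (Ne.symm hk), add_zero]
        refine ⟨by simp only [e]; omega, fun e' => ?_⟩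
        simp only [e] at e' ⊢
        rw [if_pos (by rw [← e']; tauto)] at this
        omega
  simp only [pe, k1 i (Or.inl rfl), k1 j (Or.inr rfl), k2 i j (Or.inl rfl) (Or.inr rfl) hij.ne,
    k2 j i (Or.inr rfl) (Or.inl rfl) hij.ne']

variable [MeasurableSpace SU2] [BorelSpace SU2] (h : Measure SU2) [h.IsHaarMeasure]
  [IsProbabilityMeasure h]

theorem centre_bound {ι : Type} [DecidableEq ι] {b M C : ℝ} (A : Finset ι) (F : ι → Src n)
    (al : ι → ℝ) (h1 : ∀ B ⊆ A, |∫ U, ∏ c ∈ B, (gfield (F c) U - al c) ∂wilson h b n| ≤ M)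
    (h2 : ∀ c ∈ A, |∫ U, gfield (F c) U ∂wilson h b n - al c| ≤ C) :
    |∫ U, ∏ c ∈ A, cen h b (F c) U ∂wilson h b n| ≤ M * (1 + C) ^ A.card := by
  have cg := continuous_gfield (n := n)
  have e : ∀ U, ∏ c ∈ A, cen h b (F c) U = ∑ B ∈ A.powerset, (∏ c ∈ B, (gfield (F c) U - al c)) *
      ∏ c ∈ A \ B, (al c - ∫ U, gfield (F c) U ∂wilson h b n) := fun U => by
    rw [← Finset.prod_add]
    simp only [cen, sub_add_sub_cancel]
  simp only [e]
  rw [integral_finsetSum _ fun B _ => cint _ (by fun_prop), ← Finset.prod_const, Finset.prod_add,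
    Finset.mul_sum]
  refine (Finset.abs_sum_le_sum_abs _ _).trans (Finset.sum_le_sum fun B hB => ?_)
  rw [integral_mul_const, abs_mul, Finset.prod_const_one, one_mul, Finset.abs_prod]
  have := h1 B (Finset.mem_powerset.1 hB)
  refine mul_le_mul this (Finset.prod_le_prod (fun _ _ => abs_nonneg _) fun c hc => ?_)
    (Finset.prod_nonneg fun _ _ => abs_nonneg _) ((abs_nonneg _).trans this)
  rw [abs_sub_comm]
  exact h2 c (Finset.mem_sdiff.1 hc).1

/-- the mean of the field from the generating function of the periodised source -/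
theorem mean_of_tiling [NeZero m] (b : ℝ) (lam : ℕ) (F : Src n) {al C σ : ℝ} (hσ : 0 < σ)
    (hs : ∀ s, s = σ ∨ s = -σ → ∫ U, exp (s * (∑ c : Site 4 m,
      gfield (fun x => F (x - corner lam c)) U - m ^ 4 * al)) ∂wilson h b n ≤ exp (C * m ^ 4)) :
    |∫ U, gfield F U ∂wilson h b n - al| ≤ C / σ := by
  have cg := continuous_gfield (n := n)
  have m0 : (0 : ℝ) < m ^ 4 := by have := NeZero.pos m; positivity
  have key : ∀ s, s = σ ∨ s = -σ → s * (∫ U, gfield F U ∂wilson h b n - al) ≤ C := by
    intro s hh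
    have j := convexOn_exp.map_integral_le (μ := wilson h b n) continuous_exp.continuousOn
      isClosed_univ (f := fun U => s * (∑ c : Site 4 m,
        gfield (fun x => F (x - corner lam c)) U - m ^ 4 * al)) (Eventually.of_forall fun _ => trivial)
      (cint _ (by fun_prop)) (cint _ (by fun_prop))
    have k := exp_le_exp.1 (j.trans (hs s hh))
    rw [integral_const_mul, integral_sub (cint _ (by fun_prop)) (integrable_const _),
      integral_finsetSum _ fun c _ => cint _ (cg _)] at k
    simp only [gfield_shift, int_mp (mp_shift' h b _) (cg F), Finset.sum_const, Finset.card_univ,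
      Fintype.card_pi, ZMod.card, Finset.prod_const, Fintype.card_fin, nsmul_eq_mul, Nat.cast_pow,
      integral_const, probReal_univ, one_smul] at k
    refine le_of_mul_le_mul_right ?_ m0
    linarith
  rw [le_div_iff₀ hσ, ← abs_of_pos hσ, ← abs_mul, abs_le]
  constructor <;> linarith [key σ (Or.inl rfl), key (-σ) (Or.inr rfl)]

/-- one lattice -/
theorem cell_one [NeZero m] {a b τ δ C : ℝ} {lam d k : ℕ} (hb : 0 ≤ b) (hm : Odd m)
    (hn : n = m * lam) (ha : 0 < a) (hδ : 0 < δ) (haδ : a ≤ δ) (haτ : 4 * a ≤ τ) (hd : 2 * d + 1 < m)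
    (hC : 0 ≤ C) (hP : ∀ (A : Finset (Site 4 m)) (F : Site 4 m → Src n),
      (∀ c ∈ A, Nrm a (2 * τ) (F c) ∧ InT a δ lam c (F c)) → ∃ al : Site 4 m → ℝ,
        (∀ B ⊆ A, |∫ U, ∏ c ∈ B, (gfield (F c) U - al c) ∂wilson h b n| ≤ exp (C * m ^ 4)) ∧
        ∀ c ∈ A, |∫ U, gfield (F c) U ∂wilson h b n - al c| ≤ C)
    (c : Fin k → Fin 4 → ℤ) (F : Fin k → Src n) (hc : Function.Injective c)
    (hcd : ∀ i l, |c i l| ≤ d) (hN : ∀ i, Nrm a τ (F i))
    (hI : ∀ i, InCell a (a * lam) (2 * δ) (c i) (F i)) :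
    |gcorr h b n F| ≤ exp (2 * C * (4 * (2 * d + 1 : ℕ)) ^ 4) := by
  classical
  have l0 : 0 < lam := Nat.pos_of_ne_zero (by rintro rfl; exact NeZero.ne n hn)
  have ln : lam < n := by rw [hn]; nlinarith
  obtain ⟨μ, μ1, μ2⟩ : ∃ μ : ℕ, δ ≤ a * μ ∧ ∀ t : ℤ, δ ≤ a * t → μ ≤ t :=
    ⟨⌈δ / a⌉₊, by rw [← div_le_iff₀' ha]; exact Nat.le_ceil _, fun t ht => by
      rw [← div_le_iff₀' ha] at ht
      rw [Int.natCast_ceil_eq_ceil (by positivity)]
      exact Int.ceil_le.2 ht⟩
  set cb : Fin k → Site 4 m := fun i l => (c i l : ZMod m) with hcb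
  have cbi : Function.Injective cb := fun i j e => hc (funext fun l => by
    have h3 := (ZMod.intCast_eq_intCast_iff_dvd_sub _ _ _).1 (congrFun e l)
    have := abs_le.1 (hcd i l)
    have := abs_le.1 (hcd j l)
    have := Int.eq_zero_of_abs_lt_dvd h3 (abs_lt.2 ⟨by omega, by omega⟩)
    omega)
  have lab : ∀ i, Lab a (2 * τ) lam μ fun x => F i (x + corner lam (cb i)) := by
    intro i
    obtain ⟨g, g1, g2, g3⟩ := hN i
    refine ⟨⟨fun x => g (x + corner lam (cb i)), fun _ => g1 _, fun x l => ?_,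
      fun x j j' y hy => ?_⟩, fun x j j' hx l => ?_⟩
    · beta_reduce; rw [add_right_comm]; exact g2 _ _
    · have := lip_cube g2 (x := x + corner lam (cb i)) (y := y + corner lam (cb i)) fun l => by
        rcases hy l with e | e
        · exact Or.inl (by simp [e])
        · exact Or.inr (by simp [e.2]; ring)
      rw [abs_sub_comm] at this
      exact (abs_sub_le _ _ _).trans (by linarith [g3 (x + corner lam (cb i)) j j'])
    · obtain ⟨h1, h2⟩ := hI i _ _ _ hx l
      obtain ⟨t, ht⟩ : ∃ t : ℤ, t = ((x + corner lam (cb i) : Site 4 n) l).valMinAbs - lam * c i l :=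
        ⟨_, rfl⟩
      have t1 := μ2 t (by rw [ht]; push_cast; linarith)
      have t2 := μ2 (lam - t - 1) (by rw [ht]; push_cast; linarith)
      have e : x l = (t : ZMod n) := by
        rw [ht, Int.cast_sub, ZMod.coe_valMinAbs, Pi.add_apply, corner,
          corner_int hn _ (c i l) rfl, add_sub_cancel_right]
      have e2 : ((x l).val : ℤ) = t := by
        rw [e, ZMod.val_intCast, Int.emod_eq_of_lt (by omega) (by omega)]
      split_ifs <;> omega
  let β := Option {F : Src n // Lab a (2 * τ) lam μ F}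
  let O : β → Cfg n → ℝ := fun o U => o.elim 1 fun F => cen h b F.1 U
  have cs : ∀ (G : Src n) s U, cen h b G (shift s U) = cen h b (fun x => G (x - s)) U :=
    fun G s U => (cen_of h b (mp_shift' h b s) (gfield_shift G s) U).symm
  have key := YM5.wilson_chess_cell h hb hm hn (β := β) none
    (fun k o => o.map fun F => ⟨rL lam k F.1, F.2.rL ln k⟩) (fun _ => rfl)
    (fun k o => by cases o <;> simp [rL_rL]) O
    (fun o => by
      cases o
      · exact BM.const 1
      · exact BM.of_continuous (continuous_cen h b _)) (fun _ => rfl)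
    (fun o k U => by
      cases o
      · rfl
      · exact cen_of h b ((mp_refl' h b k).comp (mp_shift' h b _)) (fun U => by
          rw [Function.comp, ← gfield_refl, ← gfield_shift]; rfl) U)
    (fun o U V hUV => by
      rcases o with _ | G
      · rfl
      · exact congrArg (· - _) (G.2.dep ln U V hUV)) (fun _ => 1) (fun _ => one_pos) rfl
    (fun _ _ => rfl) (C := 2 * C) (by positivity) (fun σ => ?_) (2 * d + 1) (fun _ => -(d : ZMod m))
    (fun x => if hx : ∃ i, cb i = x then some ⟨_, lab hx.choose⟩ else none) fun x l hx => dif_neg ?_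
  · rw [Finset.prod_const_one, mul_one] at key
    refine le_trans (le_of_eq ?_) key
    rw [gcorr_eq]
    congr 2
    funext U
    rw [← Finset.prod_subset (Finset.subset_univ (Finset.univ.image cb)) fun x _ hx => by
      rw [dif_neg (by simpa using hx)]; rfl, Finset.prod_image cbi.injOn]
    refine Finset.prod_congr rfl fun i _ => ?_
    have hx : ∃ j, cb j = cb i := ⟨i, rfl⟩
    rw [dif_pos hx]
    simp only [O, Option.elim, cs, cbi hx.choose_spec, sub_add_cancel]
  · obtain ⟨al, a1, a2⟩ := hP (Finset.univ.filter fun x => σ x ≠ none)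
      (fun x y => (σ x).elim 0 fun G => G.1 (y - corner lam x)) fun x hx => by
        obtain ⟨G, hG⟩ := Option.ne_none_iff_exists'.1 (Finset.mem_filter.1 hx).2
        obtain ⟨⟨g, g1, g2, g3⟩, g4⟩ := G.2
        rw [hG]
        refine ⟨⟨fun y => g (y - corner lam x), fun _ => g1 _, fun y l => ?_,
          fun y i j => g3 _ _ _ _ fun _ => Or.inl rfl⟩, fun y i j hy l => ?_⟩
        · beta_reduce; rw [add_sub_right_comm]; exact g2 _ _
        · obtain ⟨b1, b2⟩ := g4 _ _ _ hy l
          have b3 : (μ : ℝ) ≤ ((y - corner lam x : Site 4 n) l).val := by exact_mod_cast b1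
          have b4 : (((y - corner lam x : Site 4 n) l).val : ℝ) + μ ≤ lam := by
            exact_mod_cast (by omega : ((y - corner lam x : Site 4 n) l).val + μ ≤ lam)
          have b5 := mul_le_mul_of_nonneg_left b3 ha.le
          have b6 := mul_le_mul_of_nonneg_left b4 ha.le
          constructor <;> linarith
    have := centre_bound h _ _ al a1 a2
    rw [Finset.prod_const_one, mul_one]
    refine le_trans (le_of_eq ?_) (this.trans ?_)
    · congr 2
      funext U
      rw [Finset.prod_filter]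
      refine Finset.prod_congr rfl fun x _ => ?_
      rcases σ x with _ | G
      · rfl
      · simp only [O, Option.elim, cs, ne_eq, reduceCtorEq, not_false_eq_true, if_true]
    · rw [two_mul C, add_mul, exp_add]
      refine mul_le_mul_of_nonneg_left ?_ (by positivity)
      rw [exp_mul, ← Nat.cast_pow, rpow_natCast]
      refine (pow_le_pow_left₀ (by positivity) (by linarith [add_one_le_exp C]) _).trans
        (pow_le_pow_right₀ (one_le_exp hC) ((Finset.card_le_univ _).trans (by simp)))
  · rintro ⟨i, rfl⟩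
    have := abs_le.1 (hcd i l)
    have e : (((cb i - fun _ => -(d : ZMod m) : Site 4 m) l).val : ℤ) = c i l + d := by
      rw [show (cb i - fun _ => -(d : ZMod m) : Site 4 m) l = ((c i l + d : ℤ) : ZMod m) by
        simp [hcb], ZMod.val_intCast, Int.emod_eq_of_lt (by omega) (by omega)]
    omega

variable {ι : Type} (Φ : Filter ι) (n : ι → ℕ) [∀ p, NeZero (n p)] (a b τ : ι → ℝ)

/-- bound exponential in the volume for sources in different cells of the torus -/
def Poly : Prop :=
  ∀ (e : ℕ) (δ : ℝ), 0 < δ → ∃ C : ℝ, ∀ᶠ p in Φ, ∃ m lam : ℕ, Odd m ∧ n p = m * lam ∧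
    a p * lam = (3 ^ e)⁻¹ ∧ ∀ (A : Finset (Site 4 m)) (F : Site 4 m → Src (n p)),
      (∀ c ∈ A, Nrm (a p) (τ p) (F c) ∧ InT (a p) δ lam c (F c)) → ∃ al : Site 4 m → ℝ,
        (∀ B ⊆ A, |∫ U, ∏ c ∈ B, (gfield (F c) U - al c) ∂wilson h (b p) (n p)| ≤
          exp (C * m ^ 4)) ∧ ∀ c ∈ A, |∫ U, gfield (F c) U ∂wilson h (b p) (n p) - al c| ≤ C

theorem cell_of_poly (hF : Fam Φ n a b τ) (hP : Poly h Φ n a b fun p => 2 * τ p) :
    Cell h Φ n a b τ := by
  intro k e d δ hδ
  obtain ⟨C, hC⟩ := hP e (δ / 2) (half_pos hδ)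
  obtain ⟨a1, a2⟩ := tendsto_nhdsWithin_iff.1 hF.a0
  refine ⟨exp (2 * |C| * (4 * (2 * d + 1 : ℕ)) ^ 4), ?_⟩
  filter_upwards [hC, a2, a1.eventually_lt_const (lt_min (half_pos hδ) one_pos),
    hF.vol.eventually_gt_atTop (2 * d + 1), hF.tau.eventually_ge_atTop 4,
    hF.cpl.eventually_const_lt (show (0 : ℝ) < _ by positivity)] with p h1 h2 h3 h4 h5 h6
  obtain ⟨m, lam, hm, hn, hl, hP⟩ := h1
  have : NeZero m := ⟨hm.pos.ne'⟩
  have ha : 0 < a p := h2
  rw [lt_min_iff] at h3
  intro c F hc hcd hN hI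
  refine cell_one h (δ := δ / 2) ?_ hm hn ha (half_pos hδ) h3.1.le ((le_div_iff₀ ha).1 h5) ?_
    (abs_nonneg C) (fun A G hG => ?_) c F hc hcd hN fun i => ?_
  · exact ((div_pos_iff_of_pos_right (log_pos ((one_lt_inv₀ ha).2 h3.2))).1 h6).le
  · rw [hn, Nat.cast_mul, mul_left_comm, hl] at h4
    have : (m : ℝ) * (3 ^ e)⁻¹ ≤ m :=
      mul_le_of_le_one_right (by positivity) (inv_le_one_of_one_le₀ (one_le_pow₀ (by norm_num)))
    exact_mod_cast h4.trans_le this
  · obtain ⟨al, b1, b2⟩ := hP A G hG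
    exact ⟨al, fun B hB => (b1 B hB).trans (by gcongr; exact le_abs_self C),
      fun c hc => (b2 c hc).trans (le_abs_self C)⟩
  · rw [hl, mul_div_cancel₀ _ two_ne_zero]
    exact hI i

end Pool.Agent.Lib.MP_7f377f_mp.YM7
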