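import Pool.Agent.Lib.MP_7f377f_mp.WeakBG
import Pool.Agent.Lib.MP_7f377f_mp.WeakWick

/-! The lattice theorem: correlations of the quadratic fields are those of the lattice Maxwell
field, up to distances that are a power of the coupling. -/

namespace Pool.Agent.Lib.MP_7f377f_mp.Weak

open MeasureTheory HS Filter Topology
open scoped InnerProductSpace

set_option linter.unusedSectionVars false

variable {d L : ℕ} [NeZero L] [NeZero d]
variable {A : Type} [NormedRing A] [StarRing A] [NormedAlgebra ℝ A] [HS A]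
variable {G : Type} [Group G] (ρ : G →* unitary A)

theorem abs_prod_sub {ι : Type} [DecidableEq ι] (S : Finset ι) (a b : ι → ℝ) {Ξ ε : ℝ}
    (h1 : 1 ≤ Ξ) (ha : ∀ i, |a i| ≤ Ξ) (hb : ∀ i, |b i| ≤ Ξ) (hε : 0 ≤ ε)
    (h : ∀ i, |a i - b i| ≤ ε) : |∏ i ∈ S, a i - ∏ i ∈ S, b i| ≤ S.card * ε * Ξ ^ S.card := by
  induction S using Finset.induction_on with
  | empty => simp
  | insert j S hj ih =>
    rw [Finset.prod_insert hj, Finset.prod_insert hj, Finset.card_insert_of_notMem hj]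
    have e : a j * ∏ i ∈ S, a i - b j * ∏ i ∈ S, b i =
        a j * (∏ i ∈ S, a i - ∏ i ∈ S, b i) + (a j - b j) * ∏ i ∈ S, b i := by ring
    have Ξ0 : 0 ≤ Ξ := by linarith
    have h2 : |a j * (∏ i ∈ S, a i - ∏ i ∈ S, b i)| ≤ Ξ * (S.card * ε * Ξ ^ S.card) := by
      rw [abs_mul]; exact mul_le_mul (ha j) ih (abs_nonneg _) Ξ0
    have h3 : |(a j - b j) * ∏ i ∈ S, b i| ≤ ε * Ξ ^ (S.card + 1) := by
      rw [abs_mul]; exact mul_le_mul (h j) (abs_prod_le S b h1 hb (by omega)) (abs_nonneg _) hε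
    rw [e]
    refine (abs_add_le _ _).trans ((add_le_add h2 h3).trans_eq ?_)
    push_cast
    ring

/-- the rescaled quadratic field -/
noncomputable def OU (r : ℝ) (x : Site d L) (a b : Fin d × Fin d) (U : Link d L → G) : ℝ :=
  r ^ 2 * ⟪(ρ (hol U x a.1 a.2) : A) - 1, (ρ (hol U x b.1 b.2) : A) - 1⟫_ℝ

theorem OU_eq (r : ℝ) (x : Site d L) (a b : Fin d × Fin d) (U : Link d L → G) :
    OU ρ r x a b U = r ^ 2 * ⟪XX ρ U x a.1 a.2, XX ρ U x b.1 b.2⟫_ℝ := by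
  have hu := (ρ (cmb Inv.inv U x)).2
  have e : ∀ c : Fin d × Fin d, XX ρ U x c.1 c.2 = (ρ (cmb Inv.inv U x) : A) *
      ((ρ (hol U x c.1 c.2) : A) - 1) * star (ρ (cmb Inv.inv U x) : A) := fun c => by
    rw [XX, fix, hol_gauge, rho_mul, rho_mul, rho_inv, mul_sub, sub_mul, mul_one, hu.2]
  rw [OU, e, e, inner_def, inner_def]
  generalize (ρ (cmb Inv.inv U x) : A) = u at *
  generalize (ρ (hol U x a.1 a.2) : A) - 1 = X
  generalize (ρ (hol U x b.1 b.2) : A) - 1 = Y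
  congr 1
  calc tr (star X * Y) = tr ((star X * (star u * u) * Y) * (star u * u)) := by
        rw [hu.1, mul_one, mul_one]
    _ = tr (u * (star X * (star u * u) * Y * star u)) := by rw [← mul_assoc, tr_mul_comm]
    _ = _ := by simp only [star_mul, star_star, mul_assoc]

theorem abs_inner_le_half (x y : A) : |⟪x, y⟫_ℝ| ≤ (‖x‖ ^ 2 + ‖y‖ ^ 2) / 2 := by
  have := abs_real_inner_le_norm x y
  nlinarith [sq_nonneg (‖x‖ - ‖y‖)]

theorem abs_OU_le (r : ℝ) (x : Site d L) (a b : Fin d × Fin d) (U : Link d L → G) :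
    |OU ρ r x a b U| ≤ (EU ρ r (x, a) U + EU ρ r (x, b) U) / 2 := by
  rw [OU, abs_mul, abs_of_nonneg (sq_nonneg r), EU, EU, ← mul_add, mul_div_assoc]
  exact mul_le_mul_of_nonneg_left (abs_inner_le_half _ _) (sq_nonneg r)

theorem abs_ZZ_le (r : ℝ) (p q : Plaq d L) (U : Link d L → G) :
    |⟪ZU ρ r p U, ZU ρ r q U⟫_ℝ| ≤ (EU ρ r p U + EU ρ r q U) / 2 := by
  have := abs_inner_le_half (ZU ρ r p U) (ZU ρ r q U)
  linarith [norm_ZU_sq ρ r p U, norm_ZU_sq ρ r q U]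

theorem OU_near {c : ℝ} (hc : ∀ g, ‖((ρ g : A) - 1) - (lieAlg ρ).starProjection ((ρ g : A) - 1)‖ ≤
      c * ‖(ρ g : A) - 1‖ ^ 2) {r : ℝ} (hr : 0 < r) (x : Site d L) (a b : Fin d × Fin d)
    (U : Link d L → G) : |OU ρ r x a b U - ⟪ZU ρ r (x, a) U, ZU ρ r (x, b) U⟫_ℝ| ≤
      c ^ 2 / r ^ 2 * (EU ρ r (x, a) U * EU ρ r (x, b) U) := by
  have h1 := hc (hol (fix U) x a.1 a.2)
  have h2 := hc (hol (fix U) x b.1 b.2)
  change ‖XX ρ U x a.1 a.2 - (lieAlg ρ).starProjection (XX ρ U x a.1 a.2)‖ ≤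
    c * ‖XX ρ U x a.1 a.2‖ ^ 2 at h1
  change ‖XX ρ U x b.1 b.2 - (lieAlg ρ).starProjection (XX ρ U x b.1 b.2)‖ ≤
    c * ‖XX ρ U x b.1 b.2‖ ^ 2 at h2
  rw [OU_eq, EU, EU, ← norm_XX_sq, ← norm_XX_sq]
  simp only [ZU, real_inner_smul_left, real_inner_smul_right]
  generalize XX ρ U x a.1 a.2 = X at *
  generalize XX ρ U x b.1 b.2 = Y at *
  have o1 := (lieAlg ρ).starProjection_inner_eq_zero X _ ((lieAlg ρ).starProjection_apply_mem Y)
  have o2 := (lieAlg ρ).starProjection_inner_eq_zero Y _ ((lieAlg ρ).starProjection_apply_mem X)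
  have e : r ^ 2 * ⟪X, Y⟫_ℝ - r * (r * ⟪(lieAlg ρ).starProjection X,
      (lieAlg ρ).starProjection Y⟫_ℝ) =
      r ^ 2 * ⟪X - (lieAlg ρ).starProjection X, Y - (lieAlg ρ).starProjection Y⟫_ℝ := by
    rw [inner_sub_right, o1, inner_sub_left]
    rw [inner_sub_left, real_inner_comm, real_inner_comm _ ((lieAlg ρ).starProjection Y)] at o2
    rw [sub_eq_zero.mp o2, real_inner_comm]
    ring
  rw [e, abs_mul, abs_of_nonneg (sq_nonneg r)]
  calc _ ≤ r ^ 2 * (c * ‖X‖ ^ 2 * (c * ‖Y‖ ^ 2)) := mul_le_mul_of_nonneg_left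
        ((abs_real_inner_le_norm _ _).trans
          (mul_le_mul h1 h2 (norm_nonneg _) ((norm_nonneg _).trans h1))) (sq_nonneg r)
    _ = _ := by field_simp

variable [TopologicalSpace G] [IsTopologicalGroup G] [CompactSpace G]
  [SecondCountableTopology G] [MeasurableSpace G] [BorelSpace G] (μ : Measure G)
  [μ.IsHaarMeasure] [IsProbabilityMeasure μ]

theorem continuous_OU (hρ : Continuous ρ) (r : ℝ) (x : Site d L) (a b : Fin d × Fin d) :
    Continuous (OU ρ r x a b) :=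
  continuous_const.mul ((((continuous_rho ρ hρ).comp (continuous_hol _ _ _)).sub
    continuous_const).inner (((continuous_rho ρ hρ).comp (continuous_hol _ _ _)).sub
      continuous_const))

theorem abs_int_le {Ω : Type} [TopologicalSpace Ω] [CompactSpace Ω] [MeasurableSpace Ω]
    [OpensMeasurableSpace Ω] (ν : Measure Ω) [IsFiniteMeasure ν] {f g : Ω → ℝ}
    (hg : Continuous g) (h : ∀ U, |f U| ≤ g U) : |∫ U, f U ∂ν| ≤ ∫ U, g U ∂ν :=
  abs_integral_le_integral_abs.trans (integral_mono_of_nonneg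
    (Eventually.of_forall fun _ => abs_nonneg _) (cint _ hg) (Eventually.of_forall h))

theorem int_lin {Ω ι : Type} [TopologicalSpace Ω] [CompactSpace Ω] [MeasurableSpace Ω]
    [OpensMeasurableSpace Ω] (ν : Measure Ω) [IsFiniteMeasure ν] {F M : Ω → ℝ} (hF : Continuous F)
    (hM : Continuous M) (c : ℝ) (S : Finset ι) (K : ι → Bool → ℝ) (B : ι → Bool → Ω → ℝ)
    (hB : ∀ j b, Continuous (B j b)) :
    ∫ U, (F U - c * M U - ∑ j ∈ S, ∑ b, K j b * B j b U) ∂ν =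
      ∫ U, F U ∂ν - c * ∫ U, M U ∂ν - ∑ j ∈ S, ∑ b, K j b * ∫ U, B j b U ∂ν := by
  rw [integral_sub (cint _ (by fun_prop)) (cint _ (by fun_prop)),
    integral_sub (cint _ (by fun_prop)) (cint _ (by fun_prop)), integral_const_mul,
    integral_finsetSum _ fun j _ => cint _ (by fun_prop)]
  congr 1
  refine Finset.sum_congr rfl fun j _ => ?_
  rw [integral_finsetSum _ fun j _ => cint _ (by fun_prop)]
  simp only [integral_const_mul]

variable {k : Fin d → Fin d → (Fin d → ℤ) → ℝ} {C : ℝ} {n R : ℕ} {t W : ℝ} {w h : Site d L → ℝ}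

theorem GD.ibp (g : GD k C n R t W w h) (hρ : Continuous ρ) {r : ℝ} (hr : 0 < r)
    (hR : (n + R + 4) * 2 ≤ L) (ht : 0 < t) {δ : ℝ} (hδ : 0 < δ) (htδ : t ≤ δ)
    (he : ∫ U, err ρ r (n + R + 3) W U ^ 2 ∂(nu μ ρ d L (r ^ 2 / 4)) ≤ t ^ 2)
    (hH : ∀ x, inBox R x → ∀ a, ∫ U, ‖YU ρ r (trl x h) a U‖ ^ 2 ∂(nu μ ρ d L (r ^ 2 / 4)) ≤ δ ^ 2)
    {m : ℕ} (p : Fin m × Bool → Plaq d L) (hp : ∀ α, inBox R (p α).1) (c : Fin m → ℝ)
    {Ξ : (Link d L → G) → ℝ} (hΞ : Continuous Ξ) (h1 : ∀ U, 1 ≤ Ξ U)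
    (hZ : ∀ α U, ‖ZU ρ r (p α) U‖ ≤ Ξ U) (hQ : ∀ i U, |QU ρ r p c i U| ≤ Ξ U) {c' : ℝ}
    (hc' : ∫ U, (Ξ U ^ (m + 1)) ^ 2 ∂(nu μ ρ d L (r ^ 2 / 4)) ≤ c') (α γ : Fin m × Bool)
    (S : Finset (Fin m)) :
    |∫ U, ⟪ZU ρ r (p α) U, ZU ρ r (p γ) U⟫_ℝ * ∏ i ∈ S, QU ρ r p c i U ∂(nu μ ρ d L (r ^ 2 / 4)) -
      Module.finrank ℝ (lieAlg ρ) * kM k (lift ((p γ).1 - (p α).1)) (p α).2 (p γ).2 *
        ∫ U, ∏ i ∈ S, QU ρ r p c i U ∂(nu μ ρ d L (r ^ 2 / 4)) -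
      ∑ j ∈ S, ∑ b, kM k (lift ((p (j, b)).1 - (p α).1)) (p α).2 (p (j, b)).2 *
        ∫ U, ⟪ZU ρ r (p (j, !b)) U, ZU ρ r (p γ) U⟫_ℝ * ∏ i ∈ S.erase j, QU ρ r p c i U
          ∂(nu μ ρ d L (r ^ 2 / 4))| ≤
      (Module.finrank ℝ (lieAlg ρ) * (5 + m) + 1 + 8 * m) * (1 + c') * δ := by
  have := nu_prob (d := d) (L := L) μ ρ hρ (r ^ 2 / 4)
  have cZ := continuous_ZU (d := d) (L := L) ρ hρ r
  have cQ := continuous_QU ρ hρ r p c
  have cY := continuous_YU (d := d) (L := L) ρ hρ r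
  have a1 := ibp_Y ρ μ hρ hr hR (trl_supp g.sw (hp α)) (W := W)
    (by rw [← sum_trl (p α).1]; simpa [trl] using g.w1) (p α).2 p
    (fun β => inBox_mono (by omega) (hp β)) (p γ) (inBox_mono (by omega) (hp γ)) c S hΞ h1 hZ
    (hZ γ) hQ
  have a2 := cs_small _ (continuous_err ρ hρ r _ W) (g := fun U => Ξ U ^ (m + 1)) (by fun_prop)
    ht he hc'
  have a3 := cs_small _ (f := fun U => ‖YU ρ r (trl (p α).1 h) (p α).2 U‖)
    (g := fun U => Ξ U ^ (m + 1)) (by fun_prop) (by fun_prop) hδ (hH _ (hp α) _) hc'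
  have a4 : ∫ U, Ξ U ^ (m + 1) ∂(nu μ ρ d L (r ^ 2 / 4)) ≤ c' :=
    (integral_mono (g := fun U => (Ξ U ^ (m + 1)) ^ 2) (cint _ (hΞ.pow _))
      (cint _ ((hΞ.pow _).pow _)) fun U =>
      le_self_pow₀ (one_le_pow₀ (h1 U)) two_ne_zero).trans hc'
  have c0 : 0 ≤ c' := (integral_nonneg fun U => sq_nonneg _).trans hc'
  have hS : S.card ≤ m := (Finset.card_le_univ S).trans_eq (by simp)
  have D0 : (0 : ℝ) ≤ Module.finrank ℝ (lieAlg ρ) := by positivity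
  generalize (Module.finrank ℝ (lieAlg ρ) : ℝ) = D at *
  have a5 := abs_int_le (nu μ ρ d L (r ^ 2 / 4))
    (f := fun U => ⟪YU ρ r (trl (p α).1 h) (p α).2 U, ZU ρ r (p γ) U⟫_ℝ * ∏ i ∈ S, QU ρ r p c i U +
      (D * (KT (trl (p α).1 w) (p α).2 (p γ) - kM k (lift ((p γ).1 - (p α).1)) (p α).2 (p γ).2) *
        ∏ i ∈ S, QU ρ r p c i U + ∑ j ∈ S, ∑ b, (KT (trl (p α).1 w) (p α).2 (p (j, b)) -
          kM k (lift ((p (j, b)).1 - (p α).1)) (p α).2 (p (j, b)).2) *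
        (⟪ZU ρ r (p (j, !b)) U, ZU ρ r (p γ) U⟫_ℝ * ∏ i ∈ S.erase j, QU ρ r p c i U)))
    (g := fun U => ‖YU ρ r (trl (p α).1 h) (p α).2 U‖ * Ξ U ^ (m + 1) +
      (D * (4 * t) + m * (2 * (4 * t))) * Ξ U ^ (m + 1)) (by fun_prop) fun U => by
      have Ξ0 : 0 ≤ Ξ U := by linarith [h1 U]
      refine (abs_add_le _ _).trans (add_le_add ?_ ((abs_add_le _ _).trans ?_))
      · rw [abs_mul, pow_succ', ← mul_assoc]
        exact mul_le_mul ((abs_real_inner_le_norm _ _).trans (by gcongr; exact hZ _ _))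
          (abs_prod_le S _ (h1 U) (fun i => hQ i U) hS) (abs_nonneg _) (by positivity)
      rw [add_mul]
      refine add_le_add ?_ ?_
      · rw [abs_mul, abs_mul, abs_of_nonneg D0]
        exact mul_le_mul (mul_le_mul_of_nonneg_left (g.KT_near _ _ _) D0)
          (abs_prod_le S _ (h1 U) (fun i => hQ i U) (by omega)) (abs_nonneg _) (by positivity)
      · refine (Finset.abs_sum_le_sum_abs _ _).trans ((Finset.sum_le_card_nsmul _ _
          (2 * (4 * t) * Ξ U ^ (m + 1)) fun j hj => ?_).trans ?_)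
        · refine (Finset.abs_sum_le_sum_abs _ _).trans ((Finset.sum_le_card_nsmul _ _
            (4 * t * Ξ U ^ (m + 1)) fun b _ => ?_).trans_eq (by simp; ring))
          obtain ⟨n, hn⟩ : ∃ n, m = n + 1 := ⟨m - 1, by have := j.pos; omega⟩
          rw [abs_mul, abs_mul]
          refine mul_le_mul (g.KT_near _ _ _) ?_ (by positivity) (by positivity)
          calc _ ≤ Ξ U * Ξ U * Ξ U ^ n := mul_le_mul ((abs_real_inner_le_norm _ _).trans
                (mul_le_mul (hZ _ _) (hZ _ _) (norm_nonneg _) Ξ0)) (abs_prod_le _ _ (h1 U)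
                (fun i => hQ i U) (by rw [Finset.card_erase_of_mem hj]; omega)) (abs_nonneg _)
                (by positivity)
            _ = _ := by rw [hn]; ring
        · rw [nsmul_eq_mul, mul_assoc (m : ℝ)]
          gcongr
  rw [integral_add (cint _ (by fun_prop)) (cint _ (by fun_prop)) (f := fun U =>
    ‖YU ρ r (trl (p α).1 h) (p α).2 U‖ * Ξ U ^ (m + 1)), integral_const_mul] at a5
  have a6 := (abs_add_le _ _).trans (add_le_add a1 a5)
  rw [← integral_add (cint _ (by fun_prop)) (cint _ (by fun_prop))] at a6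
  refine le_trans (le_of_eq ?_) (a6.trans ?_)
  · congr 1
    rw [← int_lin _ (by fun_prop) (by fun_prop) _ S _ _ (by fun_prop)]
    refine integral_congr_ae (Eventually.of_forall fun U => ?_)
    simp only [g.YU_lap, inner_sub_left, sub_mul, mul_sub, Finset.sum_sub_distrib]
    ring
  · have b1 := mul_le_mul_of_nonneg_left a2 (show 0 ≤ D * (2 + 2 * m) by positivity)
    have b2 := mul_le_mul_of_nonneg_left a4
      (show 0 ≤ D * (4 * t) + m * (2 * (4 * t)) by positivity)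
    have b3 : (D * (5 + m) + 8 * m) * (1 + c') * t ≤ (D * (5 + m) + 8 * m) * (1 + c') * δ := by
      gcongr
    have b4 : 0 ≤ (D * 4 + 8 * m) * t := by positivity
    have b5 : 0 ≤ δ * (1 + c') := by positivity
    nlinarith

/-- the sum over closed index loops -/
noncomputable def loopSum {m : ℕ} (D : ℝ) (K : Fin m × Bool → Fin m × Bool → ℝ) : ℝ :=
  ∑ σ : Equiv.Perm (Fin m), if ∀ i, σ i ≠ i then
    (D / 2) ^ σ.cycleType.card * ∑ s : Fin m → Bool, ∏ i, K (i, s i) (σ i, !s (σ i)) else 0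

theorem lattice_of_GD (hρ : Continuous ρ) (d : ℕ) [NeZero d] (m : ℕ) {C : ℝ} (hC : 0 ≤ C) :
    ∃ C' : ℝ, 0 < C' ∧ ∀ (k : Fin d → Fin d → (Fin d → ℤ) → ℝ) (L l n s : ℕ) [NeZero L]
      (r τ W : ℝ) (w h : Site d L → ℝ), GD k C n (2 * s + 1) (τ ^ 2) W w h → L = 2 * l → 0 < r →
      r ^ 2 ≤ L → (n + (2 * s + 1) + 4) * 2 ≤ L → 0 < τ → C' * τ ≤ 1 → 1 ≤ τ * r ^ 2 →
      (∀ i j z, |k i j z| ≤ C) →
      (∀ i j z l, ((2 * s + 1 : ℕ) : ℤ) ≤ |z l| → |k i j z| ≤ τ ^ 2) →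
      ∫ U, err ρ r (n + (2 * s + 1) + 3) W U ^ 2 ∂(nu μ ρ d L (r ^ 2 / 4)) ≤ (τ ^ 2) ^ 2 →
      ∀ (x : Fin m → Site d L) (a : Fin m → Bool → Fin d × Fin d), (∀ i, inBox (2 * s + 1) (x i)) →
      |∫ U, ∏ i, (OU ρ r (x i) (a i true) (a i false) U -
          ∫ V, OU ρ r (x i) (a i true) (a i false) V ∂(nu μ ρ d L (r ^ 2 / 4)))
          ∂(nu μ ρ d L (r ^ 2 / 4)) - loopSum (Module.finrank ℝ (lieAlg ρ))
          fun α γ => kM k (lift (x γ.1 - x α.1)) (a α.1 α.2) (a γ.1 γ.2)| ≤ C' * τ := by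
  obtain ⟨c₁, p₁, m₁⟩ := moment_EU ρ μ hρ d 1
  obtain ⟨c₂, p₂, m₂⟩ := moment_EU ρ μ hρ d 2
  obtain ⟨c₃, p₃, m₃⟩ := moment_EU ρ μ hρ d (2 * m + 1 + 1)
  obtain ⟨cL, pL, hLie⟩ := lie_tangent ρ hρ
  have D0 : (0 : ℝ) ≤ Module.finrank ℝ (lieAlg ρ) := by positivity
  obtain ⟨cW, pW, hW⟩ := wick_alg m (Module.finrank ℝ (lieAlg ρ)) (4 * C) D0 (by positivity)
  obtain ⟨c, hc⟩ : ∃ c, c = c₁ + c₂ := ⟨_, rfl⟩
  have c0 : 0 ≤ c := by rw [hc]; positivity
  obtain ⟨cΞ, hcΞ⟩ : ∃ x : ℝ, x = 2 ^ (2 * m + 1) * ((1 + c) ^ (2 * m + 1 + 1) +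
    (Finset.univ : Finset (Fin m × Bool)).card ^ (2 * m + 1 + 1) * c₃) := ⟨_, rfl⟩
  have cΞ0 : 0 ≤ cΞ := by rw [hcΞ]; positivity
  obtain ⟨cB, hcB⟩ : ∃ x : ℝ, x = 4 * Module.finrank ℝ (lieAlg ρ) *
    (15 + 2 * c + C * (7 + 2 * c)) + 4 * c + 1 := ⟨_, rfl⟩
  have cB1 : 1 ≤ cB := by rw [hcB]; exact le_add_of_nonneg_left (by positivity)
  obtain ⟨cI, hcI⟩ : ∃ x : ℝ, x = (Module.finrank ℝ (lieAlg ρ) * (5 + m) + 1 + 8 * m) *
    (1 + cΞ) * cB := ⟨_, rfl⟩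
  have cI0 : 0 ≤ cI := by rw [hcI]; positivity
  obtain ⟨cF, hcF⟩ : ∃ x : ℝ, x = m * (cL ^ 2 * (1 + c)) := ⟨_, rfl⟩
  have cF0 : 0 ≤ cF := by rw [hcF]; positivity
  refine ⟨1 + cI + cW * cI + cF * cΞ, by positivity, ?_⟩
  intro k L l n s _ r τ W w h g hL hr hrL hR hτ ht1 hτr hk hk' he x a hx
  have := nu_prob (d := d) (L := L) μ ρ hρ (r ^ 2 / 4)
  have u1 : 0 ≤ cI * τ := by positivity
  have u2 : 0 ≤ cW * cI * τ := by positivity
  have u3 : 0 ≤ cF * cΞ * τ := by positivity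
  have t1 : τ ≤ 1 := by linarith
  have tI : cI * τ ≤ 1 := by linarith
  have t2 : τ ^ 2 ≤ τ := by rw [sq]; exact mul_le_of_le_one_left hτ.le t1
  have n₁ : ∀ p, ∫ U, EU ρ r p U ∂(nu μ ρ d L (r ^ 2 / 4)) ≤ c := fun p => by
    have := m₁ L l r hL hr hrL p
    simp only [pow_one] at this
    linarith
  have n₂ : ∀ p, ∫ U, EU ρ r p U ^ 2 ∂(nu μ ρ d L (r ^ 2 / 4)) ≤ c := fun p => by
    linarith [m₂ L l r hL hr hrL p]
  have cZ := continuous_ZU (d := d) (L := L) ρ hρ r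
  have cE := continuous_EU (d := d) (L := L) ρ hρ r
  have cO := continuous_OU (d := d) (L := L) ρ hρ r
  set p : Fin m × Bool → Plaq d L := fun α => (x α.1, a α.1 α.2) with hp
  set e : Fin m → ℝ := fun i =>
    ∫ U, ⟪ZU ρ r (p (i, true)) U, ZU ρ r (p (i, false)) U⟫_ℝ ∂(nu μ ρ d L (r ^ 2 / 4)) with he'
  set Ξ : (Link d L → G) → ℝ := fun U => (1 + c) + ∑ α, EU ρ r (p α) U with hΞ
  have cΞ' : Continuous Ξ := by fun_prop
  have cQ := continuous_QU ρ hρ r p e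
  have avg : ∀ (f : (Link d L → G) → ℝ) (q q' : Plaq d L),
      (∀ U, |f U| ≤ (EU ρ r q U + EU ρ r q' U) / 2) → |∫ U, f U ∂(nu μ ρ d L (r ^ 2 / 4))| ≤ c := by
    intro f q q' hf
    refine (abs_int_le _ (by fun_prop) hf).trans ?_
    rw [integral_div, integral_add (cint _ (cE _)) (cint _ (cE _))]
    linarith [n₁ q, n₁ q']
  have sg : ∀ α U, EU ρ r (p α) U ≤ ∑ α, EU ρ r (p α) U := fun α U =>
    Finset.single_le_sum (f := fun α => EU ρ r (p α) U) (fun _ _ => EU_nonneg ρ _ _ _)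
      (Finset.mem_univ α)
  have h1 : ∀ U, 1 ≤ Ξ U := fun U => by
    have := Finset.sum_nonneg (s := Finset.univ) fun α _ => EU_nonneg ρ r (p α) U
    simp only [hΞ]; linarith
  have hZ : ∀ α U, ‖ZU ρ r (p α) U‖ ≤ Ξ U := fun α U => by
    have := norm_ZU_le ρ r (p α) U
    have := sg α U
    simp only [hΞ]; linarith
  have hQ : ∀ i U, |QU ρ r p e i U| ≤ Ξ U := fun i U => by
    have a1 := abs_ZZ_le ρ r (p (i, true)) (p (i, false)) U
    have a2 := avg _ _ _ (abs_ZZ_le ρ r (p (i, true)) (p (i, false)))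
    refine (abs_sub _ _).trans ?_
    simp only [hΞ]; linarith [sg (i, true) U, sg (i, false) U]
  have hΞm : ∫ U, (Ξ U ^ (m + 1)) ^ 2 ∂(nu μ ρ d L (r ^ 2 / 4)) ≤ cΞ := by
    have := moment_sum (nu μ ρ d L (r ^ 2 / 4)) Finset.univ (fun α => EU ρ r (p α))
      (fun α => cE _) (fun α => EU_nonneg ρ r _) (2 * m + 1) (κ := 1 + c) (by positivity)
      fun α => m₃ L l r hL hr hrL _
    simp only [← pow_mul]
    rw [show (m + 1) * 2 = 2 * m + 1 + 1 by ring, hcΞ]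
    exact this
  have hH : ∀ y, inBox (2 * s + 1) y → ∀ b, ∫ U, ‖YU ρ r (trl y h) b U‖ ^ 2
      ∂(nu μ ρ d L (r ^ 2 / 4)) ≤ (cB * τ) ^ 2 := by
    intro y hy b
    refine (g.background ρ μ hρ hr hL hR (by positivity) (t2.trans t1) c0 n₁ n₂ he rfl hk' hy
      b).trans ?_
    rw [mul_pow]
    refine mul_le_mul_of_nonneg_right (le_trans ?_ (le_self_pow₀ cB1 two_ne_zero)) (sq_nonneg _)
    rw [hcB]
    linarith
  have hI := g.ibp ρ μ hρ hr hR (by positivity) (δ := cB * τ) (by positivity)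
    (t2.trans (le_mul_of_one_le_left hτ.le cB1)) he hH
    p (fun α => hx _) e cΞ' h1 hZ hQ hΞm
  have w1 := hW (fun α γ => kM k (lift (x γ.1 - x α.1)) (a α.1 α.2) (a γ.1 γ.2))
    (fun α γ S => ∫ U, ⟪ZU ρ r (p α) U, ZU ρ r (p γ) U⟫_ℝ * ∏ i ∈ S, QU ρ r p e i U
      ∂(nu μ ρ d L (r ^ 2 / 4)))
    (fun S => ∫ U, ∏ i ∈ S, QU ρ r p e i U ∂(nu μ ρ d L (r ^ 2 / 4))) e (cI * τ) (by positivity) tI
    (fun α γ => (abs_kM_le _ _ _ _).trans (by
      linarith [hk (a γ.1 γ.2).1 (a α.1 α.2).1 (lift (x γ.1 - x α.1)),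
        hk (a γ.1 γ.2).2 (a α.1 α.2).1 (lift (x γ.1 - x α.1)),
        hk (a γ.1 γ.2).1 (a α.1 α.2).2 (lift (x γ.1 - x α.1)),
        hk (a γ.1 γ.2).2 (a α.1 α.2).2 (lift (x γ.1 - x α.1))])) (by simp)
    (fun j b S hj => by
      rw [← integral_const_mul, ← integral_sub (cint _ (by fun_prop)) (cint _ (by fun_prop))]
      refine integral_congr_ae (Eventually.of_forall fun U => ?_)
      simp only [Finset.prod_insert hj, QU, sub_mul]
      cases b
      · rw [real_inner_comm]; rfl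
      · rfl)
    (fun j b => by
      simp only [Finset.prod_empty, mul_one, he']
      cases b
      · simp only [Bool.not_false, real_inner_comm (ZU ρ r (p (j, true)) _)]
      · rfl)
    fun α γ S => (hI α γ S).trans_eq (by rw [hcI]; ring)
  have hc2 : ∀ i U, |OU ρ r (x i) (a i true) (a i false) U -
      ⟪ZU ρ r (p (i, true)) U, ZU ρ r (p (i, false)) U⟫_ℝ| ≤ cL ^ 2 * τ *
        (EU ρ r (p (i, true)) U * EU ρ r (p (i, false)) U) := fun i U =>
    (OU_near ρ hLie hr _ _ _ U).trans (mul_le_mul_of_nonneg_right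
      (by rw [div_le_iff₀ (by positivity), mul_assoc]
          exact le_mul_of_one_le_right (sq_nonneg _) hτr)
      (mul_nonneg (EU_nonneg ρ _ _ _) (EU_nonneg ρ _ _ _)))
  have hc3 : ∀ i, |∫ V, OU ρ r (x i) (a i true) (a i false) V ∂(nu μ ρ d L (r ^ 2 / 4)) - e i| ≤
      cL ^ 2 * τ * c := by
    intro i
    rw [he', ← integral_sub (cint _ (cO _ _ _)) (cint _ (by fun_prop))]
    refine (abs_int_le _ (g := fun U => cL ^ 2 * τ *
      ((EU ρ r (p (i, true)) U ^ 2 + EU ρ r (p (i, false)) U ^ 2) / 2)) (by fun_prop)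
      fun U => (hc2 i U).trans (mul_le_mul_of_nonneg_left ?_ (by positivity))).trans ?_
    · nlinarith [sq_nonneg (EU ρ r (p (i, true)) U - EU ρ r (p (i, false)) U)]
    · rw [integral_const_mul, integral_div,
        integral_add (cint _ (by fun_prop)) (cint _ (by fun_prop))]
      refine mul_le_mul_of_nonneg_left ?_ (by positivity)
      linarith [n₂ (p (i, true)), n₂ (p (i, false))]
  have w2 := abs_int_le (nu μ ρ d L (r ^ 2 / 4)) (f := fun U =>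
    ∏ i, (OU ρ r (x i) (a i true) (a i false) U -
      ∫ V, OU ρ r (x i) (a i true) (a i false) V ∂(nu μ ρ d L (r ^ 2 / 4))) -
      ∏ i, QU ρ r p e i U) (g := fun U => cF * τ * (Ξ U ^ (m + 1)) ^ 2)
    (by fun_prop) fun U => by
      have Ξ1 := h1 U
      have Ξ2 : 1 ≤ Ξ U ^ 2 := one_le_pow₀ Ξ1
      refine (abs_prod_sub Finset.univ _ _ Ξ1 (ε := cL ^ 2 * τ * (1 + c) * Ξ U ^ 2) (fun i => ?_)
        (fun i => hQ i U) (by positivity) fun i => ?_).trans ?_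
      · have a1 := abs_OU_le ρ r (x i) (a i true) (a i false) U
        have a2 := avg _ _ _ (abs_OU_le ρ r (x i) (a i true) (a i false))
        refine (abs_sub _ _).trans ?_
        simp only [hΞ]; linarith [sg (i, true) U, sg (i, false) U]
      · have a1 := hc2 i U
        have a2 := hc3 i
        have a3 : EU ρ r (p (i, true)) U * EU ρ r (p (i, false)) U ≤ Ξ U ^ 2 := by
          rw [sq]
          refine mul_le_mul ?_ ?_ (EU_nonneg ρ _ _ _) (by linarith) <;> simp only [hΞ]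
          · linarith [sg (i, true) U]
          · linarith [sg (i, false) U]
        have a4 := mul_le_mul_of_nonneg_left a3 (show 0 ≤ cL ^ 2 * τ by positivity)
        have a5 := mul_le_mul_of_nonneg_left Ξ2 (show 0 ≤ cL ^ 2 * τ * c by positivity)
        rw [QU, sub_sub_sub_comm]
        refine (abs_sub _ _).trans ?_
        linarith
      · simp only [Finset.card_univ, Fintype.card_fin]
        have : Ξ U ^ 2 * Ξ U ^ m ≤ (Ξ U ^ (m + 1)) ^ 2 := by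
          rw [← pow_mul, ← pow_add]; exact pow_le_pow_right₀ Ξ1 (by omega)
        refine le_trans (le_of_eq ?_) (mul_le_mul_of_nonneg_left this (by positivity))
        rw [hcF]
        ring
  rw [integral_sub (cint _ (by fun_prop)) (cint _ (by fun_prop)), integral_const_mul] at w2
  have w3 := mul_le_mul_of_nonneg_left hΞm (show 0 ≤ cF * τ by positivity)
  refine (abs_sub_le _ (∫ U, ∏ i, QU ρ r p e i U ∂(nu μ ρ d L (r ^ 2 / 4))) _).trans
    ((add_le_add (w2.trans w3) w1).trans ?_)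
  linarith

end Pool.Agent.Lib.MP_7f377f_mp.Weak
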