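import Pool.Agent.Lib.MP_7f377f_mp.OddMom
import Pool.Agent.Lib.MP_7f377f_mp.WeakLat

/-! The lattice theorem on tori of arbitrary side, first part. -/

namespace Pool.Agent.Lib.MP_7f377f_mp.Weak

open MeasureTheory HS Filter Topology
open scoped InnerProductSpace

set_option linter.unusedSectionVars false

variable {d L : ℕ} [NeZero L] [NeZero d]
variable {A : Type} [NormedRing A] [StarRing A] [NormedAlgebra ℝ A] [HS A]
variable {G : Type} [Group G] (ρ : G →* unitary A)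

theorem cmb_dep_axis' {m : ℕ} (hL : 2 * m ≤ L) (k : Fin d) (s : ℕ) (hs : s ≤ m) :
    Dep m k fun U : Link d L → G => cmb Inv.inv U (Pi.single k (s : ZMod L)) := by
  induction s with
  | zero => intro U V _; simp [cmb_zero]
  | succ s ih =>
    intro U V h
    obtain ⟨a1, a2, a3, a4⟩ := axis_pos (L := L) k s (by omega)
    have h1 := ih (by omega) U V h
    have e : ((Pi.single k (s : ZMod L) : Site d L) k).val = s := by
      rw [Pi.single_eq_same, ZMod.val_cast_of_lt (by omega)]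
    have h2 := h (Pi.single k (s : ZMod L), k) ⟨by simp only [e]; omega, fun _ => by
      simp only [e]; omega⟩
    simp only at h1 ⊢
    rw [cmb_step _ _ a1, cmb_step _ _ a1, if_pos a2, if_pos a2, a3, a4, h1, h2]

theorem lasso_dep_axis' {m : ℕ} (hL : 2 * m ≤ L) (k j : Fin d) (s : ℕ) (hs : s < m) :
    Dep m k fun U : Link d L → G => hol (fix U) (Pi.single k (s : ZMod L)) k j := by
  intro U V h
  have e : ((Pi.single k (s : ZMod L) : Site d L) k).val = s := by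
    rw [Pi.single_eq_same, ZMod.val_cast_of_lt (by omega)]
  have h1 := cmb_dep_axis' hL k s hs.le U V h
  have h2 := dep_hol' (m := m) (by omega) k k j (Pi.single k (s : ZMod L)) (by omega) (fun _ => by omega) U V h
  simp only at h1 h2 ⊢
  rw [fix, fix, hol_gauge, hol_gauge, h1, h2]

variable [TopologicalSpace G] [IsTopologicalGroup G] [CompactSpace G]
  [SecondCountableTopology G] [MeasurableSpace G] [BorelSpace G] (μ : Measure G)
  [μ.IsHaarMeasure] [IsProbabilityMeasure μ]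

theorem moment_EU' (hρ : Continuous ρ) (d : ℕ) [NeZero d] (n : ℕ) : ∃ C : ℝ, 0 ≤ C ∧
    ∀ (L : ℕ) [NeZero L] (r : ℝ), 0 < r → r ^ 2 ≤ L → ∀ p : Plaq d L,
      ∫ U, EU ρ r p U ^ n ∂(nu μ ρ d L (r ^ 2 / 4)) ≤ C := by
  have d0 : (0 : ℝ) < d := by exact_mod_cast NeZero.pos d
  obtain ⟨C, hC, h⟩ := haar_doubling μ ρ hρ (16 * d) (by positivity)
  refine ⟨n.factorial * (2 ^ (d + 3)) ^ n *
    (C ^ d * Real.exp ((d + 1) * (16 * d * (4 * ‖(1 : A)‖ ^ 2)))) ^ 2 ^ d, by positivity, ?_⟩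
  intro L _ r hr hrL p
  have hb : 0 < r ^ 2 / 4 := by positivity
  have h1 := exp_moment_all ρ μ hρ hb.le
    (one_le_mul_of_one_le_of_one_le (one_le_pow₀ hC) (Real.one_le_exp (by positivity)))
    (Z_ratio (d := d) (L := L) μ ρ hρ hC hb.le (by linarith) (h _ hb)) p.2.1 p.2.2 p.1
  refine le_trans ?_ (mul_le_mul_of_nonneg_left h1 (by positivity))
  rw [← integral_const_mul]
  have c1 := continuous_EU ρ hρ r p
  have c2 := continuous_qhol ρ hρ p.1 p.2.1 p.2.2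
  refine integral_mono (cint _ (by fun_prop)) (cint _ (by fun_prop)) fun U => ?_
  have e : r ^ 2 / 4 / 2 ^ (d + 1) * qq ρ (hol U p.1 p.2.1 p.2.2) = EU ρ r p U / 2 ^ (d + 3) := by
    rw [EU]; field_simp; ring
  have h2 := Real.pow_div_factorial_le_exp (EU ρ r p U / 2 ^ (d + 3))
    (div_nonneg (EU_nonneg ρ r p U) (by positivity)) n
  rw [div_le_iff₀ (by positivity), div_pow, div_le_iff₀ (by positivity)] at h2
  simp only [e]
  linarith

theorem moment_err' (hρ : Continuous ρ) (d : ℕ) [NeZero d] : ∃ C : ℝ, 0 < C ∧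
    ∀ (L : ℕ) [NeZero L] (r : ℝ), 0 < r → r ^ 2 ≤ L → ∀ (M : ℕ) (W : ℝ),
      ∫ U, err ρ r M W U ^ 2 ∂(nu μ ρ d L (r ^ 2 / 4)) ≤
        (C * M ^ 2 * (2 * M + 1) ^ d * W / r) ^ 2 := by
  obtain ⟨C, hC, h⟩ := moment_EU' ρ μ hρ d 2
  have d0 : (0 : ℝ) < d := by exact_mod_cast NeZero.pos d
  refine ⟨448 * d ^ 3 * (2 + d ^ 4 * C), by positivity, fun L _ r hr hrL M W => ?_⟩
  classical
  have := nu_prob (d := d) (L := L) μ ρ hρ (r ^ 2 / 4)
  have h1 := moment_sum (nu μ ρ d L (r ^ 2 / 4))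
    ((Finset.univ.filter fun x : Site d L => inBox M x) ×ˢ Finset.univ) (EU ρ r)
    (continuous_EU ρ hρ r) (EU_nonneg ρ r) 1 zero_le_one (h L r hr hrL)
  have h2 : (((Finset.univ.filter fun x : Site d L => inBox M x) ×ˢ
      (Finset.univ : Finset (Fin d × Fin d))).card : ℝ) ≤ (2 * M + 1) ^ d * d ^ 2 := by
    have := card_inBox d L M
    rw [Finset.card_product]
    simp only [Finset.card_univ, Fintype.card_prod, Fintype.card_fin]
    push_cast
    rw [← sq]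
    gcongr
    exact_mod_cast this
  simp only [err, mul_pow, integral_const_mul]
  have h3 : (1 : ℝ) ≤ (2 * M + 1) ^ d := one_le_pow₀ (by have : (0 : ℝ) ≤ M := by positivity
                                                         linarith)
  have h4 : ∫ U, (1 + SM ρ r M U) ^ 2 ∂(nu μ ρ d L (r ^ 2 / 4)) ≤
      ((2 + d ^ 4 * C) * (2 * M + 1) ^ d) ^ 2 := by
    refine h1.trans ?_
    generalize (2 * (M : ℝ) + 1) ^ d = N at *
    have h5 := pow_le_pow_left₀ (by positivity) h2 2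
    have h6 := mul_le_mul_of_nonneg_right h5 hC
    have h7 : 1 ≤ N ^ 2 := one_le_pow₀ h3
    have h8 : 0 ≤ (d : ℝ) ^ 4 * C * N ^ 2 := by positivity
    have h9 : 0 ≤ ((d : ℝ) ^ 4 * C * N) ^ 2 := by positivity
    norm_num at h6 ⊢
    nlinarith
  refine (mul_le_mul_of_nonneg_left h4 (by positivity)).trans_eq ?_
  ring

theorem rp_ZU' (hρ : Continuous ρ) (r : ℝ) {b : ℝ} (hb : 0 ≤ b) {a : Fin d × Fin d}
    (ha : a.2 ≠ a.1) {s : ℕ} (hs : (s + 1) * 2 < L) :
    ∫ U, ⟪ZU ρ r (Pi.single a.1 (s : ZMod L), a) U,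
      ZU ρ r (Pi.single a.1 (-((s + 1 : ℕ) : ZMod L)), a) U⟫_ℝ ∂(nu μ ρ d L b) ≤ 0 := by
  have cZ := continuous_ZU (d := d) (L := L) ρ hρ r
  simp only [← sum_basis _ (ZU_mem ρ r _ _) (ZU_mem ρ r _ _)]
  rw [integral_finsetSum _ fun n _ => cint _ (by fun_prop)]
  refine Finset.sum_nonpos fun n _ => ?_
  have hv := (stdOrthonormalBasis ℝ (lieAlg ρ) n).2
  generalize (stdOrthonormalBasis ℝ (lieAlg ρ) n : A) = v at hv
  have := rp_pos_all ρ μ hρ hb a.1
    (F := fun U => ⟪v, ZU ρ r (Pi.single a.1 (s : ZMod L), a) U⟫_ℝ)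
    (by fun_prop) fun U V h => by
      have := lasso_dep_axis' (m := L / 2) (by omega) a.1 a.2 s (by omega) U V h
      simp only at this
      simp only [ZU, XX, this]
  have e : ∀ U, ⟪v, ZU ρ r (Pi.single a.1 (s : ZMod L), a) (refl a.1 U)⟫_ℝ =
      -⟪v, ZU ρ r (Pi.single a.1 (-((s + 1 : ℕ) : ZMod L)), a) U⟫_ℝ := by
    intro U
    rw [inner_ZU ρ hv, inner_ZU ρ hv, ← mul_neg, ← inner_star_skew (lieAlg_skew ρ hρ hv)]
    simp only [XX, lasso_refl_axis ha U s hs, rho_inv, star_sub, star_one]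
  simp only [e, mul_neg, integral_neg] at this
  linarith

variable {k : Fin d → Fin d → (Fin d → ℤ) → ℝ} {C : ℝ} {n R : ℕ} {t W : ℝ} {w h : Site d L → ℝ}

theorem GD.background' (g : GD k C n R t W w h) (hρ : Continuous ρ) {r : ℝ} (hr : 0 < r)
    (hR : (n + R + 4) * 2 ≤ L) (ht : 0 < t) (ht1 : t ≤ 1) {c : ℝ} (c0 : 0 ≤ c)
    (hc1 : ∀ p, ∫ U, EU ρ r p U ∂(nu μ ρ d L (r ^ 2 / 4)) ≤ c)
    (hc : ∀ p, ∫ U, EU ρ r p U ^ 2 ∂(nu μ ρ d L (r ^ 2 / 4)) ≤ c)
    (he : ∫ U, err ρ r (n + R + 3) W U ^ 2 ∂(nu μ ρ d L (r ^ 2 / 4)) ≤ t ^ 2)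
    {s : ℕ} (hs : R = 2 * s + 1) (hk : ∀ i j z l, (R : ℤ) ≤ |z l| → |k i j z| ≤ t)
    {x : Site d L} (hx : inBox R x) (a : Fin d × Fin d) :
    ∫ U, ‖YU ρ r (trl x h) a U‖ ^ 2 ∂(nu μ ρ d L (r ^ 2 / 4)) ≤
      (4 * Module.finrank ℝ (lieAlg ρ) * (15 + 2 * c + C * (7 + 2 * c)) + 4 * c) * t := by
  have D0 : (0 : ℝ) ≤ Module.finrank ℝ (lieAlg ρ) := by positivity
  have C0 : 0 ≤ C := (Finset.sum_nonneg fun _ _ => abs_nonneg _).trans g.h1
  by_cases ha : a.2 = a.1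
  · have : ∀ U, YU ρ r (trl x h) a U = 0 := fun U => by
      simp [YU, ZU, XX, ha, hol_self]
    simp only [this, norm_zero]
    simp only [ne_eq, OfNat.ofNat_ne_zero, not_false_eq_true, zero_pow, integral_zero]
    positivity
  set xp : Site d L := Pi.single a.1 (s : ZMod L) with hxp
  set xm : Site d L := Pi.single a.1 (-((s + 1 : ℕ) : ZMod L)) with hxm
  have box : ∀ z : ℤ, z.natAbs ≤ R → inBox R (Pi.single a.1 (z : ZMod L) : Site d L) := by
    intro z hz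
    have := inBox_cast (L := L) (M := R) (Pi.single a.1 z : Fin d → ℤ) fun l => by
      by_cases hl : l = a.1 <;> simp [hl, hz]
    refine (congrArg _ ?_).mp this
    funext l
    by_cases hl : l = a.1 <;> simp [hl]
  have bp : inBox R xp := by simpa using box s (by omega)
  have bm : inBox R xm := by simpa [hxm] using box (-(s + 1)) (by omega)
  have bd : inBox R (xp - xm) := by
    have := box R le_rfl
    refine (congrArg _ ?_).mp this
    rw [hxp, hxm, ← Pi.single_sub, hs]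
    congr 1
    push_cast
    ring
  have far : (R : ℤ) ≤ |lift (xm - xp) a.1| := by
    have e : (xm - xp) a.1 = ((-R : ℤ) : ZMod L) := by
      simp only [hxp, hxm, Pi.sub_apply, Pi.single_eq_same, hs]; push_cast; ring
    rw [lift, e, vma_cast (by omega) (by omega)]
    simp
  have cZ := continuous_ZU (d := d) (L := L) ρ hρ r
  have cY := continuous_YU (d := d) (L := L) ρ hρ r
  have t1 := g.two_point ρ μ hρ hr hR ht hc he bp a (γ := (xm, a)) (inBox_mono (by omega) bm)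
  have t1' : |kM k (lift (xm - xp)) a a| ≤ 4 * t := (abs_kM_le _ _ _ _).trans (by
    linarith [hk a.1 a.1 _ _ far, hk a.2 a.1 _ _ far, hk a.1 a.2 _ _ far, hk a.2 a.2 _ _ far])
  have t2 : |∫ U, ⟪YU ρ r (lapT (trl xm w)) a U, YU ρ r (trl xp h) a U⟫_ℝ
      ∂(nu μ ρ d L (r ^ 2 / 4))| ≤
      Module.finrank ℝ (lieAlg ρ) * (4 * t + C * ((7 + 2 * c) * t)) := by
    simp only [YU.eq_1 ρ r (trl xp h), inner_sum, real_inner_smul_right]
    rw [integral_finsetSum _ fun y _ => cint _ (by fun_prop)]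
    refine (Finset.abs_sum_le_sum_abs _ _).trans ?_
    have key : ∀ y, |∫ U, trl xp h y * ⟪YU ρ r (lapT (trl xm w)) a U, ZU ρ r (y, a) U⟫_ℝ
        ∂(nu μ ρ d L (r ^ 2 / 4))| ≤ Module.finrank ℝ (lieAlg ρ) *
          (|kM k (lift (y - xm)) a a| * |trl xp h y| + (7 + 2 * c) * t * |trl xp h y|) := by
      intro y
      by_cases h0 : trl xp h y = 0
      · simp [h0]
      rw [integral_const_mul, abs_mul, ← add_mul, ← mul_assoc, mul_comm]
      exact mul_le_mul_of_nonneg_right (g.two_point ρ μ hρ hr hR ht hc he bm a (γ := (y, a))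
        (inBox_mono (by omega) (trl_supp g.sh bp y h0))) (abs_nonneg _)
    refine (Finset.sum_le_sum fun y _ => key y).trans ?_
    rw [← Finset.mul_sum, Finset.sum_add_distrib, ← Finset.mul_sum]
    refine mul_le_mul_of_nonneg_left (add_le_add ?_ ?_) D0
    · rw [← sum_trl xp]
      simp only [trl, add_sub_cancel_right, add_sub_assoc]
      refine (Finset.sum_le_sum fun y _ => mul_le_mul_of_nonneg_right (abs_kM_le _ _ _ _)
        (abs_nonneg _)).trans ?_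
      simp only [add_mul, Finset.sum_add_distrib]
      linarith [g.conv a.1 a.1 _ bd, g.conv a.2 a.1 _ bd, g.conv a.1 a.2 _ bd, g.conv a.2 a.2 _ bd]
    · rw [mul_comm C, ← sum_trl xp]
      simp only [trl, add_sub_cancel_right]
      exact mul_le_mul_of_nonneg_left g.h1 (by positivity)
  have t3 : ∀ x x' : Site d L, inBox R x → inBox R x' →
      ∫ U, ‖YU ρ r (trl x h) a U - YU ρ r (trl x' h) a U‖ ^ 2 ∂(nu μ ρ d L (r ^ 2 / 4)) ≤
        t * c := by
    intro x x' hx hx'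
    simp only [← YU_sub]
    refine (moment_YU ρ μ hρ r _ hc1 _ a).trans (mul_le_mul_of_nonneg_right ?_ c0)
    refine (pow_le_pow_left₀ (Finset.sum_nonneg fun _ _ => abs_nonneg _) (g.trl_diff hx hx')
      2).trans (by nlinarith)
  have t4 := rp_ZU' (L := L) ρ μ hρ r (b := r ^ 2 / 4) (by positivity) ha (s := s) (by omega)
  have t5 : ∫ U, ‖YU ρ r (trl x h) a U‖ ^ 2 ∂(nu μ ρ d L (r ^ 2 / 4)) ≤
      ∫ U, (4 * (⟪ZU ρ r (xp, a) U, ZU ρ r (xm, a) U⟫_ℝ -
        ⟪YU ρ r (lapT (trl xp w)) a U, ZU ρ r (xm, a) U⟫_ℝ -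
        ⟪YU ρ r (lapT (trl xm w)) a U, YU ρ r (trl xp h) a U⟫_ℝ) +
        2 * ‖YU ρ r (trl xp h) a U - YU ρ r (trl xm h) a U‖ ^ 2 +
        2 * ‖YU ρ r (trl x h) a U - YU ρ r (trl xp h) a U‖ ^ 2) ∂(nu μ ρ d L (r ^ 2 / 4)) := by
    refine integral_mono (cint _ (by fun_prop)) (cint _ (by fun_prop)) fun U => ?_
    simp only [g.YU_lap]
    generalize YU ρ r (trl x h) a U = H
    generalize YU ρ r (trl xp h) a U = P
    generalize YU ρ r (trl xm h) a U = M
    generalize ZU ρ r (xp, a) U = Zp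
    generalize ZU ρ r (xm, a) U = Zm
    have e1 := norm_sub_sq_real P M
    have e2 := norm_sub_sq_real H P
    have e3 := norm_sub_sq_real H ((2 : ℝ) • P)
    rw [real_inner_smul_right, norm_smul, Real.norm_two] at e3
    simp only [inner_sub_left, real_inner_comm Zm P, real_inner_comm P M] at *
    nlinarith [sq_nonneg ‖M‖, sq_nonneg ‖H - (2 : ℝ) • P‖]
  rw [integral_add (cint _ (by fun_prop)) (cint _ (by fun_prop)),
    integral_add (cint _ (by fun_prop)) (cint _ (by fun_prop)), integral_const_mul,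
    integral_const_mul, integral_const_mul,
    integral_sub (cint _ (by fun_prop)) (cint _ (by fun_prop)),
    integral_sub (cint _ (by fun_prop)) (cint _ (by fun_prop))] at t5
  have u1 := neg_abs_le (∫ U, ⟪YU ρ r (lapT (trl xp w)) a U, ZU ρ r (xm, a) U⟫_ℝ
    ∂(nu μ ρ d L (r ^ 2 / 4)))
  have u2 := neg_abs_le (∫ U, ⟪YU ρ r (lapT (trl xm w)) a U, YU ρ r (trl xp h) a U⟫_ℝ
    ∂(nu μ ρ d L (r ^ 2 / 4)))
  have u3 := mul_le_mul_of_nonneg_left t1' D0
  have u4 := t3 _ _ bp bm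
  have u5 := t3 _ _ hx bp
  nlinarith

theorem lattice_of_GD' (hρ : Continuous ρ) (d : ℕ) [NeZero d] (m : ℕ) {C : ℝ} (hC : 0 ≤ C) :
    ∃ C' : ℝ, 0 < C' ∧ ∀ (k : Fin d → Fin d → (Fin d → ℤ) → ℝ) (L n s : ℕ) [NeZero L]
      (r τ W : ℝ) (w h : Site d L → ℝ), GD k C n (2 * s + 1) (τ ^ 2) W w h → 0 < r →
      r ^ 2 ≤ L → (n + (2 * s + 1) + 4) * 2 ≤ L → 0 < τ → C' * τ ≤ 1 → 1 ≤ τ * r ^ 2 →
      (∀ i j z, |k i j z| ≤ C) →
      (∀ i j z l, ((2 * s + 1 : ℕ) : ℤ) ≤ |z l| → |k i j z| ≤ τ ^ 2) →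
      ∫ U, err ρ r (n + (2 * s + 1) + 3) W U ^ 2 ∂(nu μ ρ d L (r ^ 2 / 4)) ≤ (τ ^ 2) ^ 2 →
      ∀ (x : Fin m → Site d L) (a : Fin m → Bool → Fin d × Fin d), (∀ i, inBox (2 * s + 1) (x i)) →
      |∫ U, ∏ i, (OU ρ r (x i) (a i true) (a i false) U -
          ∫ V, OU ρ r (x i) (a i true) (a i false) V ∂(nu μ ρ d L (r ^ 2 / 4)))
          ∂(nu μ ρ d L (r ^ 2 / 4)) - loopSum (Module.finrank ℝ (lieAlg ρ))
          fun α γ => kM k (lift (x γ.1 - x α.1)) (a α.1 α.2) (a γ.1 γ.2)| ≤ C' * τ := by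
  obtain ⟨c₁, p₁, m₁⟩ := moment_EU' ρ μ hρ d 1
  obtain ⟨c₂, p₂, m₂⟩ := moment_EU' ρ μ hρ d 2
  obtain ⟨c₃, p₃, m₃⟩ := moment_EU' ρ μ hρ d (2 * m + 1 + 1)
  obtain ⟨cL, pL, hLie⟩ := lie_tangent ρ hρ
  have D0 : (0 : ℝ) ≤ Module.finrank ℝ (lieAlg ρ) := by positivity
  obtain ⟨cW, pW, hW⟩ := wick_alg m (Module.finrank ℝ (lieAlg ρ)) (4 * C) D0 (by positivity)
  obtain ⟨c, hc⟩ : ∃ c, c = c₁ + c₂ := ⟨_, rfl⟩
  have c0 : 0 ≤ c := by rw [hc]; positivity
  obtain ⟨cΞ, hcΞ⟩ : ∃ x : ℝ, x = 2 ^ (2 * m + 1) * ((1 + c) ^ (2 * m + 1 + 1) +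
    (Finset.univ : Finset (Fin m × Bool)).card ^ (2 * m + 1 + 1) * c₃) := ⟨_, rfl⟩
  have cΞ0 : 0 ≤ cΞ := by rw [hcΞ]; positivity
  obtain ⟨cB, hcB⟩ : ∃ x : ℝ, x = 4 * Module.finrank ℝ (lieAlg ρ) *
    (15 + 2 * c + C * (7 + 2 * c)) + 4 * c + 1 := ⟨_, rfl⟩
  have cB1 : 1 ≤ cB := by rw [hcB]; exact le_add_of_nonneg_left (by positivity)
  obtain ⟨cI, hcI⟩ : ∃ x : ℝ, x = (Module.finrank ℝ (lieAlg ρ) * (5 + m) + 1 + 8 * m) *
    (1 + cΞ) * cB := ⟨_, rfl⟩
  have cI0 : 0 ≤ cI := by rw [hcI]; positivity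
  obtain ⟨cF, hcF⟩ : ∃ x : ℝ, x = m * (cL ^ 2 * (1 + c)) := ⟨_, rfl⟩
  have cF0 : 0 ≤ cF := by rw [hcF]; positivity
  refine ⟨1 + cI + cW * cI + cF * cΞ, by positivity, ?_⟩
  intro k L n s _ r τ W w h g hr hrL hR hτ ht1 hτr hk hk' he x a hx
  have := nu_prob (d := d) (L := L) μ ρ hρ (r ^ 2 / 4)
  have u1 : 0 ≤ cI * τ := by positivity
  have u2 : 0 ≤ cW * cI * τ := by positivity
  have u3 : 0 ≤ cF * cΞ * τ := by positivity
  have t1 : τ ≤ 1 := by linarith
  have tI : cI * τ ≤ 1 := by linarith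
  have t2 : τ ^ 2 ≤ τ := by rw [sq]; exact mul_le_of_le_one_left hτ.le t1
  have n₁ : ∀ p, ∫ U, EU ρ r p U ∂(nu μ ρ d L (r ^ 2 / 4)) ≤ c := fun p => by
    have := m₁ L r hr hrL p
    simp only [pow_one] at this
    linarith
  have n₂ : ∀ p, ∫ U, EU ρ r p U ^ 2 ∂(nu μ ρ d L (r ^ 2 / 4)) ≤ c := fun p => by
    linarith [m₂ L r hr hrL p]
  have cZ := continuous_ZU (d := d) (L := L) ρ hρ r
  have cE := continuous_EU (d := d) (L := L) ρ hρ r
  have cO := continuous_OU (d := d) (L := L) ρ hρ r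
  set p : Fin m × Bool → Plaq d L := fun α => (x α.1, a α.1 α.2) with hp
  set e : Fin m → ℝ := fun i =>
    ∫ U, ⟪ZU ρ r (p (i, true)) U, ZU ρ r (p (i, false)) U⟫_ℝ ∂(nu μ ρ d L (r ^ 2 / 4)) with he'
  set Ξ : (Link d L → G) → ℝ := fun U => (1 + c) + ∑ α, EU ρ r (p α) U with hΞ
  have cΞ' : Continuous Ξ := by fun_prop
  have cQ := continuous_QU ρ hρ r p e
  have avg : ∀ (f : (Link d L → G) → ℝ) (q q' : Plaq d L),
      (∀ U, |f U| ≤ (EU ρ r q U + EU ρ r q' U) / 2) → |∫ U, f U ∂(nu μ ρ d L (r ^ 2 / 4))| ≤ c := by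
    intro f q q' hf
    refine (abs_int_le _ (by fun_prop) hf).trans ?_
    rw [integral_div, integral_add (cint _ (cE _)) (cint _ (cE _))]
    linarith [n₁ q, n₁ q']
  have sg : ∀ α U, EU ρ r (p α) U ≤ ∑ α, EU ρ r (p α) U := fun α U =>
    Finset.single_le_sum (f := fun α => EU ρ r (p α) U) (fun _ _ => EU_nonneg ρ _ _ _)
      (Finset.mem_univ α)
  have h1 : ∀ U, 1 ≤ Ξ U := fun U => by
    have := Finset.sum_nonneg (s := Finset.univ) fun α _ => EU_nonneg ρ r (p α) U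
    simp only [hΞ]; linarith
  have hZ : ∀ α U, ‖ZU ρ r (p α) U‖ ≤ Ξ U := fun α U => by
    have := norm_ZU_le ρ r (p α) U
    have := sg α U
    simp only [hΞ]; linarith
  have hQ : ∀ i U, |QU ρ r p e i U| ≤ Ξ U := fun i U => by
    have a1 := abs_ZZ_le ρ r (p (i, true)) (p (i, false)) U
    have a2 := avg _ _ _ (abs_ZZ_le ρ r (p (i, true)) (p (i, false)))
    refine (abs_sub _ _).trans ?_
    simp only [hΞ]; linarith [sg (i, true) U, sg (i, false) U]
  have hΞm : ∫ U, (Ξ U ^ (m + 1)) ^ 2 ∂(nu μ ρ d L (r ^ 2 / 4)) ≤ cΞ := by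
    have := moment_sum (nu μ ρ d L (r ^ 2 / 4)) Finset.univ (fun α => EU ρ r (p α))
      (fun α => cE _) (fun α => EU_nonneg ρ r _) (2 * m + 1) (κ := 1 + c) (by positivity)
      fun α => m₃ L r hr hrL _
    simp only [← pow_mul]
    rw [show (m + 1) * 2 = 2 * m + 1 + 1 by ring, hcΞ]
    exact this
  have hH : ∀ y, inBox (2 * s + 1) y → ∀ b, ∫ U, ‖YU ρ r (trl y h) b U‖ ^ 2
      ∂(nu μ ρ d L (r ^ 2 / 4)) ≤ (cB * τ) ^ 2 := by
    intro y hy b
    refine (g.background' ρ μ hρ hr hR (by positivity) (t2.trans t1) c0 n₁ n₂ he rfl hk' hy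
      b).trans ?_
    rw [mul_pow]
    refine mul_le_mul_of_nonneg_right (le_trans ?_ (le_self_pow₀ cB1 two_ne_zero)) (sq_nonneg _)
    rw [hcB]
    linarith
  have hI := g.ibp ρ μ hρ hr hR (by positivity) (δ := cB * τ) (by positivity)
    (t2.trans (le_mul_of_one_le_left hτ.le cB1)) he hH
    p (fun α => hx _) e cΞ' h1 hZ hQ hΞm
  have w1 := hW (fun α γ => kM k (lift (x γ.1 - x α.1)) (a α.1 α.2) (a γ.1 γ.2))
    (fun α γ S => ∫ U, ⟪ZU ρ r (p α) U, ZU ρ r (p γ) U⟫_ℝ * ∏ i ∈ S, QU ρ r p e i U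
      ∂(nu μ ρ d L (r ^ 2 / 4)))
    (fun S => ∫ U, ∏ i ∈ S, QU ρ r p e i U ∂(nu μ ρ d L (r ^ 2 / 4))) e (cI * τ) (by positivity) tI
    (fun α γ => (abs_kM_le _ _ _ _).trans (by
      linarith [hk (a γ.1 γ.2).1 (a α.1 α.2).1 (lift (x γ.1 - x α.1)),
        hk (a γ.1 γ.2).2 (a α.1 α.2).1 (lift (x γ.1 - x α.1)),
        hk (a γ.1 γ.2).1 (a α.1 α.2).2 (lift (x γ.1 - x α.1)),
        hk (a γ.1 γ.2).2 (a α.1 α.2).2 (lift (x γ.1 - x α.1))])) (by simp)
    (fun j b S hj => by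
      rw [← integral_const_mul, ← integral_sub (cint _ (by fun_prop)) (cint _ (by fun_prop))]
      refine integral_congr_ae (Eventually.of_forall fun U => ?_)
      simp only [Finset.prod_insert hj, QU, sub_mul]
      cases b
      · rw [real_inner_comm]; rfl
      · rfl)
    (fun j b => by
      simp only [Finset.prod_empty, mul_one, he']
      cases b
      · simp only [Bool.not_false, real_inner_comm (ZU ρ r (p (j, true)) _)]
      · rfl)
    fun α γ S => (hI α γ S).trans_eq (by rw [hcI]; ring)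
  have hc2 : ∀ i U, |OU ρ r (x i) (a i true) (a i false) U -
      ⟪ZU ρ r (p (i, true)) U, ZU ρ r (p (i, false)) U⟫_ℝ| ≤ cL ^ 2 * τ *
        (EU ρ r (p (i, true)) U * EU ρ r (p (i, false)) U) := fun i U =>
    (OU_near ρ hLie hr _ _ _ U).trans (mul_le_mul_of_nonneg_right
      (by rw [div_le_iff₀ (by positivity), mul_assoc]
          exact le_mul_of_one_le_right (sq_nonneg _) hτr)
      (mul_nonneg (EU_nonneg ρ _ _ _) (EU_nonneg ρ _ _ _)))
  have hc3 : ∀ i, |∫ V, OU ρ r (x i) (a i true) (a i false) V ∂(nu μ ρ d L (r ^ 2 / 4)) - e i| ≤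
      cL ^ 2 * τ * c := by
    intro i
    rw [he', ← integral_sub (cint _ (cO _ _ _)) (cint _ (by fun_prop))]
    refine (abs_int_le _ (g := fun U => cL ^ 2 * τ *
      ((EU ρ r (p (i, true)) U ^ 2 + EU ρ r (p (i, false)) U ^ 2) / 2)) (by fun_prop)
      fun U => (hc2 i U).trans (mul_le_mul_of_nonneg_left ?_ (by positivity))).trans ?_
    · nlinarith [sq_nonneg (EU ρ r (p (i, true)) U - EU ρ r (p (i, false)) U)]
    · rw [integral_const_mul, integral_div,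
        integral_add (cint _ (by fun_prop)) (cint _ (by fun_prop))]
      refine mul_le_mul_of_nonneg_left ?_ (by positivity)
      linarith [n₂ (p (i, true)), n₂ (p (i, false))]
  have w2 := abs_int_le (nu μ ρ d L (r ^ 2 / 4)) (f := fun U =>
    ∏ i, (OU ρ r (x i) (a i true) (a i false) U -
      ∫ V, OU ρ r (x i) (a i true) (a i false) V ∂(nu μ ρ d L (r ^ 2 / 4))) -
      ∏ i, QU ρ r p e i U) (g := fun U => cF * τ * (Ξ U ^ (m + 1)) ^ 2)
    (by fun_prop) fun U => by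
      have Ξ1 := h1 U
      have Ξ2 : 1 ≤ Ξ U ^ 2 := one_le_pow₀ Ξ1
      refine (abs_prod_sub Finset.univ _ _ Ξ1 (ε := cL ^ 2 * τ * (1 + c) * Ξ U ^ 2) (fun i => ?_)
        (fun i => hQ i U) (by positivity) fun i => ?_).trans ?_
      · have a1 := abs_OU_le ρ r (x i) (a i true) (a i false) U
        have a2 := avg _ _ _ (abs_OU_le ρ r (x i) (a i true) (a i false))
        refine (abs_sub _ _).trans ?_
        simp only [hΞ]; linarith [sg (i, true) U, sg (i, false) U]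
      · have a1 := hc2 i U
        have a2 := hc3 i
        have a3 : EU ρ r (p (i, true)) U * EU ρ r (p (i, false)) U ≤ Ξ U ^ 2 := by
          rw [sq]
          refine mul_le_mul ?_ ?_ (EU_nonneg ρ _ _ _) (by linarith) <;> simp only [hΞ]
          · linarith [sg (i, true) U]
          · linarith [sg (i, false) U]
        have a4 := mul_le_mul_of_nonneg_left a3 (show 0 ≤ cL ^ 2 * τ by positivity)
        have a5 := mul_le_mul_of_nonneg_left Ξ2 (show 0 ≤ cL ^ 2 * τ * c by positivity)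
        rw [QU, sub_sub_sub_comm]
        refine (abs_sub _ _).trans ?_
        linarith
      · simp only [Finset.card_univ, Fintype.card_fin]
        have : Ξ U ^ 2 * Ξ U ^ m ≤ (Ξ U ^ (m + 1)) ^ 2 := by
          rw [← pow_mul, ← pow_add]; exact pow_le_pow_right₀ Ξ1 (by omega)
        refine le_trans (le_of_eq ?_) (mul_le_mul_of_nonneg_left this (by positivity))
        rw [hcF]
        ring
  rw [integral_sub (cint _ (by fun_prop)) (cint _ (by fun_prop)), integral_const_mul] at w2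
  have w3 := mul_le_mul_of_nonneg_left hΞm (show 0 ≤ cF * τ by positivity)
  refine (abs_sub_le _ (∫ U, ∏ i, QU ρ r p e i U ∂(nu μ ρ d L (r ^ 2 / 4))) _).trans
    ((add_le_add (w2.trans w3) w1).trans ?_)
  linarith

end Pool.Agent.Lib.MP_7f377f_mp.Weak
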