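import Pool.Agent.Lib.MP_7f377f_mp.OddRP
import Pool.Agent.Lib.MP_7f377f_mp.WeakChess

/-! Exponential moment of one plaquette on tori of arbitrary side. -/

namespace Pool.Agent.Lib.MP_7f377f_mp.Weak

open MeasureTheory
open scoped InnerProductSpace

set_option linter.unusedSectionVars false

variable {A : Type} [NormedRing A] [StarRing A] [NormedAlgebra ℝ A] [HS A]
variable {d L : ℕ} {G : Type} [Group G] [NeZero L] (ρ : G →* unitary A)
  [TopologicalSpace G] [IsTopologicalGroup G] [CompactSpace G]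
  [SecondCountableTopology G] [MeasurableSpace G] [BorelSpace G] (μ : Measure G)
  [μ.IsHaarMeasure] [IsProbabilityMeasure μ]

theorem blk_dep' {m : ℕ} (hL : m < L) (i j : Fin d) (x : Site d L) (k : Fin d)
    (hx : (x k).val < m) : Dep m k (blk ρ i j x) := by
  intro U V h
  refine Finset.sum_congr rfl fun y _ => ?_
  have := dep_hol' hL k i j (x + vec i j y) ?_ ?_ U V h
  · simp only at this
    rw [this]
  · simp only [Pi.add_apply, vec]
    split_ifs
    · rw [add_zero]; omega
    · rw [val_add_one _ (by omega)]; omega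
    · rw [add_zero]; omega
  · intro hk
    have : k = i ∨ k = j := by tauto
    simpa [vec, this] using hx

/-- doubling of a pattern of cells -/
theorem doubling (hρ : Continuous ρ) {b : ℝ} (hb : 0 ≤ b) {g : Site d L → (Link d L → G) → ℝ}
    (hc : ∀ x, Continuous (g x)) (hs : ∀ x a U, g x (shift a U) = g (x + a) U)
    (hr : ∀ x k U, g x (refl k U) = g (rc k x) U)
    (hd : ∀ x k, (x k).val < L / 2 → Dep (L / 2) k (g x)) (k : Fin d) {n : ℕ} (hn : 2 * n ≤ L)
    (S : Finset (Site d L)) (hS : ∀ x ∈ S, (x k).val < n) :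
    ∃ S' : Finset (Site d L), (∀ x ∈ S', (x k).val < 2 * n ∧ ∃ y ∈ S, ∀ l, l ≠ k → x l = y l) ∧
      (∫ U, Real.exp (∑ x ∈ S, g x U) ∂(nu μ ρ d L b)) ^ 2 ≤
        ∫ U, Real.exp (∑ x ∈ S', g x U) ∂(nu μ ρ d L b) := by
  classical
  have := nu_prob (d := d) (L := L) μ ρ hρ b
  have hinj : Function.Injective (rc (L := L) k) := Function.Involutive.injective (rc_rc k)
  refine ⟨(S ∪ S.image (rc k)).image (· + Pi.single k (n : ZMod L)), fun x hx => ?_, ?_⟩
  · simp only [Finset.mem_image, Finset.mem_union] at hx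
    obtain ⟨y, hy | ⟨z, hz, rfl⟩, rfl⟩ := hx
    · have := hS y hy
      refine ⟨?_, y, hy, fun l hl => by simp [hl]⟩
      rw [Pi.add_apply, Pi.single_eq_same, ← ZMod.natCast_zmod_val (y k), ← Nat.cast_add,
        ZMod.val_cast_of_lt (by omega)]
      omega
    · have := hS z hz
      refine ⟨?_, z, hz, fun l hl => by simp [hl, rc_ne hl]⟩
      have e : (rc k z + Pi.single k (n : ZMod L) : Site d L) k =
          ((n - 1 - (z k).val : ℕ) : ZMod L) := by
        rw [Nat.cast_sub (by omega), Nat.cast_sub (by omega)]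
        simp [rc, rf]
        ring
      rw [e, ZMod.val_cast_of_lt (by omega)]
      omega
  · have h := rp_ineq_all ρ μ hρ hb k (F₁ := fun U => Real.exp (∑ x ∈ S, g x U))
      (F₂ := fun _ => 1) (by fun_prop) continuous_const
      (fun U V h => congrArg Real.exp (Finset.sum_congr rfl fun x hx =>
        hd x k (by have := hS x hx; omega) U V h)) fun _ _ _ => rfl
    simp only [mul_one, integral_const, probReal_univ, one_smul] at h
    refine h.trans_eq ?_
    simp only [Finset.sum_image (add_left_injective (Pi.single k (n : ZMod L) : Site d L)).injOn, ← hs]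
    rw [int_mp (nu_shift μ ρ hρ b (Pi.single k (n : ZMod L)))
      (F := fun U => Real.exp (∑ x ∈ S ∪ S.image (rc k), g x U)) (by fun_prop)]
    congr 1
    funext U
    rw [Finset.sum_union, Finset.sum_image hinj.injOn, Real.exp_add]
    · simp only [hr]
    · rw [Finset.disjoint_left]
      intro x hx hx'
      obtain ⟨y, hy, rfl⟩ := Finset.mem_image.mp hx'
      have h1 := hS _ hx
      have h2 := hS _ hy
      rw [rc_val] at h1
      omega

theorem one_cell (hρ : Continuous ρ) {b : ℝ} (hb : 0 ≤ b) {g : Site d L → (Link d L → G) → ℝ}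
    (hc : ∀ x, Continuous (g x)) (h0 : ∀ x U, 0 ≤ g x U)
    (hs : ∀ x a U, g x (shift a U) = g (x + a) U) (hr : ∀ x k U, g x (refl k U) = g (rc k x) U)
    (hd : ∀ x k, (x k).val < L / 2 → Dep (L / 2) k (g x)) {C : ℝ} (hC : 1 ≤ C)
    (hZ : ∫ U, Real.exp (∑ x, g x U) ∂(nu μ ρ d L b) ≤ C ^ L ^ d) (x : Site d L) :
    ∫ U, Real.exp (g x U) ∂(nu μ ρ d L b) ≤ C ^ 2 ^ d := by
  classical
  set a := ∫ U, Real.exp (g 0 U) ∂(nu μ ρ d L b) with ha
  have a0 : 0 ≤ a := integral_nonneg fun U => (Real.exp_pos _).le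
  have ex : ∫ U, Real.exp (g x U) ∂(nu μ ρ d L b) = a := by
    rw [ha, ← int_mp (nu_shift μ ρ hρ b x) (F := fun U => Real.exp (g 0 U)) (by fun_prop)]
    simp only [hs, zero_add]
  obtain ⟨s, s1, s2⟩ : ∃ s, 2 ^ s ≤ L ∧ L ≤ 2 * 2 ^ s :=
    ⟨Nat.log 2 L, Nat.pow_log_le_self 2 (NeZero.ne L), by
      rw [← pow_succ']; exact (Nat.lt_pow_succ_log_self one_lt_two L).le⟩
  have key : ∀ K : Finset (Fin d), ∃ S : Finset (Site d L), (∀ x ∈ S, ∀ l ∉ K, x l = 0) ∧
      a ^ (2 ^ s) ^ K.card ≤ ∫ U, Real.exp (∑ x ∈ S, g x U) ∂(nu μ ρ d L b) := by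
    intro K
    induction K using Finset.induction_on with
    | empty => exact ⟨{0}, by simp, by simp [ha]⟩
    | insert k K hk ih =>
      have inner : ∀ e, e ≤ s → ∃ S : Finset (Site d L),
          (∀ x ∈ S, (x k).val < 2 ^ e ∧ ∀ l ∉ insert k K, x l = 0) ∧
          (a ^ (2 ^ s) ^ K.card) ^ 2 ^ e ≤ ∫ U, Real.exp (∑ x ∈ S, g x U) ∂(nu μ ρ d L b) := by
        intro e
        induction e with
        | zero =>
          obtain ⟨S, h1, h2⟩ := ih
          exact fun _ => ⟨S, fun x hx => ⟨by simp [h1 x hx k hk], fun l hl =>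
            h1 x hx l fun h => hl (Finset.mem_insert_of_mem h)⟩, by simpa using h2⟩
        | succ e ihe =>
          intro he
          obtain ⟨S, h1, h2⟩ := ihe (by omega)
          have : 2 ^ (e + 1) ≤ 2 ^ s := Nat.pow_le_pow_right two_pos he
          obtain ⟨S', h3, h4⟩ := doubling ρ μ hρ hb hc hs hr hd k (n := 2 ^ e)
            (by rw [pow_succ'] at this; omega) S fun x hx => (h1 x hx).1
          refine ⟨S', fun x hx => ⟨by rw [pow_succ']; exact (h3 x hx).1, fun l hl => ?_⟩, ?_⟩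
          · obtain ⟨y, hy, h⟩ := (h3 x hx).2
            rw [h l fun h' => hl (by simp [h']), (h1 y hy).2 l hl]
          · rw [pow_succ, pow_mul]
            exact (pow_le_pow_left₀ (by positivity) h2 2).trans h4
      obtain ⟨S, h1, h2⟩ := inner s le_rfl
      exact ⟨S, fun x hx => (h1 x hx).2, by
        rwa [Finset.card_insert_of_notMem hk, pow_succ, pow_mul]⟩
  obtain ⟨S, -, h⟩ := key Finset.univ
  rw [Finset.card_univ, Fintype.card_fin] at h
  have h2 : ∫ U, Real.exp (∑ x ∈ S, g x U) ∂(nu μ ρ d L b) ≤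
      ∫ U, Real.exp (∑ x, g x U) ∂(nu μ ρ d L b) :=
    integral_mono (cint _ (by fun_prop)) (cint _ (by fun_prop)) fun U => Real.exp_le_exp.mpr
      (Finset.sum_le_sum_of_subset_of_nonneg (Finset.subset_univ _) fun x _ _ => h0 x U)
  rw [ex]
  refine le_of_pow_le_pow_left₀ (n := (2 ^ s) ^ d) (by positivity) (by positivity)
    (h.trans (h2.trans (hZ.trans ?_)))
  rw [← pow_mul, ← mul_pow]
  exact pow_le_pow_right₀ hC (Nat.pow_le_pow_left s2 d)

/-- exponential moment of the energy of one plaquette -/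
theorem exp_moment_all (hρ : Continuous ρ) {b : ℝ} (hb : 0 ≤ b) {C : ℝ} (hC : 1 ≤ C)
    (hZ : ZZ μ ρ d L (b / 2) ≤ C ^ (L ^ d) * ZZ μ ρ d L b) (i j : Fin d) (x : Site d L) :
    ∫ U, Real.exp (b / 2 ^ (d + 1) * qq ρ (hol U x i j)) ∂(nu μ ρ d L b) ≤ C ^ 2 ^ d := by
  have cb : ∀ x : Site d L, Continuous (blk ρ i j x) := fun x =>
    continuous_finsetSum _ fun y _ => continuous_qhol ρ hρ _ _ _
  have ca := continuous_act (d := d) (L := L) ρ hρ
  have L0 := NeZero.pos L
  have key := one_cell ρ μ hρ hb (g := fun x U => b / 2 ^ (d + 1) * blk ρ i j x U)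
    (fun x => by have := cb x; fun_prop)
    (fun x U => mul_nonneg (by positivity) ((qq_nonneg _ _).trans (le_blk ρ i j x U)))
    (fun x a U => by simp only [blk_shift]) (fun x k U => by simp only [blk_refl])
    (fun x k hx U V h => by simp only [blk_dep' ρ (by omega) i j x k hx U V h]) hC ?_ x
  · have := cb x
    have := continuous_qhol (L := L) ρ hρ x i j
    refine le_trans (integral_mono (cint _ (by fun_prop)) (cint _ (by fun_prop)) fun U => ?_) key
    exact Real.exp_le_exp.mpr (mul_le_mul_of_nonneg_left (le_blk ρ i j x U) (by positivity))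
  · simp only [← Finset.mul_sum]
    rw [nu_int, div_le_iff₀ (ZZ_pos μ ρ hρ b)]
    refine le_trans (integral_mono (cint _ (by fun_prop)) (cint _ (continuous_wt ρ hρ _))
      fun U => ?_) hZ
    simp only [← Real.exp_add]
    refine Real.exp_le_exp.mpr ?_
    have h1 := mul_le_mul_of_nonneg_left (sum_blk ρ i j U)
      (show 0 ≤ b / 2 ^ (d + 1) by positivity)
    have h2 : b / 2 ^ (d + 1) * (2 ^ d * act ρ U) = b / 2 * act ρ U := by
      rw [pow_succ]; field_simp
    linarith

end Pool.Agent.Lib.MP_7f377f_mp.Weak
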