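import Pool.Agent.Lib.MP_7f377f_mp.YM3Det

/-! Symmetries of link fields and expectations of block averaged fields. -/

noncomputable section

namespace Pool.Agent.Lib.MP_7f377f_mp.YD

open MeasureTheory
open scoped Quaternion

/-- the side of the torus of level `j` -/
abbrev side (j : ℕ) : ℕ := 2 * 3 ^ j ^ 2

variable {n : ℕ}

/-- translation of a link field -/
def shift (a : Fin 3 → ZMod n) (U : Fld n) : Fld n := fun b => U (b.1 + a, b.2)

/-- gauge transformation of a link field -/
def gauge (g : (Fin 3 → ZMod n) → SU2) (U : Fld n) : Fld n := fun b =>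
  g b.1 * U b * star (g (b.1 + Pi.single b.2 1) : ℍ)

/-- expectation of a function of the field averaged down to level `j`, for the Wilson measure on
the torus of side `(2 l + 1) side (j + k)` -/
def mean [MeasurableSpace SU2] (h : Measure SU2) (γ : ℝ) (l k j : ℕ) (F : Fld (side j) → ℝ) : ℝ :=
  ∫ U, F (iter l k j fun b => U b) ∂wilson h γ ((2 * l + 1) * side (j + k))

end Pool.Agent.Lib.MP_7f377f_mp.YD
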