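import Pool.Agent.Lib.MP_7f377f_mp.R3DetZ
import Pool.Agent.Lib.MP_7f377f_mp.R3LvZ
import Pool.Agent.Lib.MP_7f377f_mp.YM3Sym

open MeasureTheory Filter Topology BoundedContinuousFunction Pool.Agent.Lib.MP_7f377f_mp.YD
open scoped Quaternion

theorem Pool.Agent.Lib.MP_7f377f_mp.oldContinuum3 [MeasurableSpace ℍ] [BorelSpace ℍ]
    (h : Measure SU2) [h.IsHaarMeasure] [IsProbabilityMeasure h] (γ : ℝ) (hγ : 0 < γ) :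
    ∃ ν : ∀ j : ℕ, Measure (Fld (side j)),
      (∀ j, IsProbabilityMeasure (ν j) ∧ ν j = (ν (j + 1)).map (block (3 ^ (2 * j + 1) / 2))) ∧
      (∀ j (F : Fld (side j) →ᵇ ℝ), ∀ η > 0, ∃ k0, ∀ k ≥ k0, ∀ l : ℕ,
        3 ^ (2 * (j + k) + 1) ≤ 2 * l + 1 → 2 * l + 1 ≤ 27 ^ (2 * (j + k) + 1) →
          |mean h γ l k j F - ∫ X, F X ∂ν j| ≤ η) ∧
      (∀ j, (∀ a, (ν j).map (shift a) = ν j) ∧ (∀ g, (ν j).map (gauge g) = ν j) ∧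
        ∀ k, (ν j).map (refl k) = ν j ∧ ∀ F : Fld (side j) →ᵇ ℝ,
          DependsOn F {e | 1 ≤ (e.1 k).val ∧ (e.1 k).val + 1 < 3 ^ j ^ 2} →
            0 ≤ ∫ X, F X * F (refl k X) ∂ν j) ∧
      (∀ α < (2⁻¹ : ℝ), Tendsto (fun j => (ν j).real {X | (∀ e, ‖X e‖ = 1) ∧
        ∀ x i k, ‖plaq X x i k - 1‖ ≤ (side j : ℝ) ^ (-α)}) atTop (𝓝 1)) ∧
      ∃ c > 0, ∀ᶠ j in atTop, 3⁻¹ ≤ (ν j).real {X | c / √(side j) ≤ ‖plaq X 0 0 1 - 1‖} := by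
  have e : ∀ j : ℕ, (side j : ℝ) = 2 * 3 ^ j ^ 2 := fun j => by simp [side]
  simp only [e]
  exact open Pool.Agent.Lib.MP_7f377f_mp.RG.D3 in
    Dt.main_of pair_main bad_main fluct_main h γ hγ
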