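import Pool.Agent.Lib.MP_7f377f_mp.Q4EFinM

/-! The ultraviolet limit of four dimensional `SU(2)` lattice Yang-Mills theory on tori. -/

open MeasureTheory Filter Topology Real BoundedContinuousFunction Pool.Agent.Lib.MP_7f377f_mp.YM4

theorem Pool.Agent.Lib.MP_7f377f_mp.OldContinuum4.result [MeasurableSpace SU2] [BorelSpace SU2]
    (h : Measure SU2) [h.IsHaarMeasure] [IsProbabilityMeasure h] :
    ∃ (e : ℕ → ℕ) (a : ℕ → ℝ) (c : ℝ), StrictMono e ∧ Tendsto (fun j => a j / e j) atTop atTop ∧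
      0 < c ∧ ∀ (m : ℕ) (n l : ℕ → ℕ) [∀ j, NeZero (n j)], Odd m → (∀ j, n j = m * 3 ^ e j) →
        (∀ j, n (j + 1) = (2 * l j + 1) * n j) → ∃ (β : ℕ → ℝ) (μ : ∀ j, Measure (Cfg (n j))),
      Tendsto (fun j => β j / log (n j)) atTop (𝓝 (11 / (6 * π ^ 2))) ∧
      (∀ j, IsProbabilityMeasure (μ j) ∧ μ j = step h (a j) (l j) (μ (j + 1))) ∧
      (∀ j, ∀ η > 0, ∃ k0, ∀ k ≥ k0, ∀ A, MeasurableSet A →
        |(flow h n l a β k j).real A - (μ j).real A| ≤ η) ∧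
      (∀ j, (∀ x, (μ j).map (shift x) = μ j) ∧ (∀ σ, (μ j).map (perm σ) = μ j) ∧
        (∀ u, (μ j).map (gauge u) = μ j) ∧ ∀ k, (μ j).map (refl k) = μ j ∧
          ∀ F : Cfg (n j) →ᵇ ℝ, DependsOn F {b | 2 ≤ (b.1 k).val ∧ 2 * (b.1 k).val + 6 ≤ n j} →
            0 ≤ ∫ U, F U * F (refl k U) ∂μ j) ∧
      ∀ j x i k, i ≠ k → c ≤ (μ j).real {U | c ≤ e j * curv U x i k ^ 2} ∧
        ∀ M > 0, (μ j).real {U | M ≤ e j * curv U x i k ^ 2} ≤ 1 / (c * √M) := by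
  obtain ⟨e, a, c, h1, h2, h3, H⟩ := Pool.Agent.Lib.MP_7f377f_mp.RG.Q4.En.main_m h
  refine ⟨e, a, c, h1, h2, h3, fun m n l _ a1 a2 a3 => ?_⟩
  obtain ⟨β, μ, b1, b2, b3, b4, b5, b6⟩ := H m n l a1 a2 a3
  exact ⟨β, μ, b1, b2, b3, fun j => ⟨(b4 j).1, (b4 j).2.1, (b4 j).2.2.2, fun k =>
    ⟨(b4 j).2.2.1 k, fun F => b5 j k F F.continuous.measurable ⟨_, F.norm_coe_le_norm⟩⟩⟩, b6⟩
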