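import Pool.Agent.Lib.MP_7f377f_mp.WeakT2

/-! Continuum limit of pure lattice Yang-Mills theory at weak coupling, uniformly in the volume:
all Schwinger functions of the fields `Tr F_a F_b` at non-coinciding points converge to those of
the free Maxwell field with values in the Lie algebra. -/

open MeasureTheory Filter Topology Pool.Agent.Lib.MP_7f377f_mp.Weak

theorem Pool.Agent.Lib.MP_7f377f_mp.Weak.continuum_limit (d N k : ℕ) (hd : 2 ≤ d) (G : Type)
    [Group G] [TopologicalSpace G] [IsTopologicalGroup G] [CompactSpace G]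
    [SecondCountableTopology G] [MeasurableSpace G] [BorelSpace G] (μ : Measure G)
    [μ.IsHaarMeasure] [IsProbabilityMeasure μ]
    (ρ : G →* Matrix.unitaryGroup (Fin N) ℂ) (hρ : Continuous ρ) :
    ∃ C : ℝ, ∀ (y : Fin k → EuclideanSpace ℝ (Fin d)) (a : Fin k → Bool → Fin d × Fin d)
      (ε β : ℕ → ℝ) (L : ℕ → ℕ) (x : ℕ → Fin k → Fin d → ℤ), Function.Injective y →
      (∀ n, 0 < ε n) → Tendsto ε atTop (𝓝 0) → (∀ n, ε n ^ (-C) ≤ β n) → (∀ n, β n ≤ L n) →
      (∀ i l, Tendsto (fun n => ε n * x n i l) atTop (𝓝 (y i l))) →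
      Tendsto (fun n => expect (L := 2 * L n + 2) μ ρ (β n) fun U => ∏ i, β n / ε n ^ d *
          (trFF ρ (x n i) (a i true) (a i false) U -
            expect (L := 2 * L n + 2) μ ρ (β n) (trFF ρ (x n i) (a i true) (a i false)))) atTop
        (𝓝 (∑ σ : Equiv.Perm (Fin k), if ∀ i, σ i ≠ i then
          ((lieDim ρ : ℝ) / 2) ^ σ.cycleType.card * ∑ s : Fin k → Bool,
            ∏ i, maxwell (y (σ i) - y i) (a i (s i)) (a (σ i) (!s (σ i))) else 0)) :=
  T2 d N k hd G μ ρ hρ
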