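import Pool.Agent.Lib.MP_7f377f_mp.WeakXi

/-! The correlation length of lattice Yang-Mills theory diverges at weak coupling: the plaquette
two-point function is at least `β^(-3) exp (-t / β^a)` at every distance `t`, uniformly in the
volume. -/

open MeasureTheory Pool.Agent.Lib.MP_7f377f_mp.Weak

theorem Pool.Agent.Lib.MP_7f377f_mp.OldCorrelationLength.result (n N : ℕ) (G : Type) [Group G]
    [TopologicalSpace G] [IsTopologicalGroup G] [CompactSpace G] [SecondCountableTopology G]
    [MeasurableSpace G] [BorelSpace G] (μ : Measure G) [μ.IsHaarMeasure] [IsProbabilityMeasure μ]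
    (ρ : G →* Matrix.unitaryGroup (Fin N) ℂ) (hρ : Continuous ρ) (hinf : (Set.range ρ).Infinite)
    (i j : Fin n) (hij : i ≠ j) :
    ∃ a β₀ : ℝ, 0 < a ∧ ∀ β, β₀ ≤ β → ∀ L : ℕ, β ≤ L → ∀ t : ℕ, t ≤ 2 * L + 2 →
      Real.exp (-(t / β ^ a)) / β ^ 3 ≤
        expect (d := n + 1) (L := 2 * L + 2) μ ρ β (fun U =>
          (ρ (hol U 0 i.succ j.succ)).1.trace.re *
            (ρ (hol U (Pi.single 0 t) i.succ j.succ)).1.trace.re) -
        expect (d := n + 1) (L := 2 * L + 2) μ ρ β (fun U =>
          (ρ (hol U 0 i.succ j.succ)).1.trace.re) *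
        expect (d := n + 1) (L := 2 * L + 2) μ ρ β (fun U =>
          (ρ (hol U (Pi.single 0 t) i.succ j.succ)).1.trace.re) :=
  xi_main n N G μ ρ hρ hinf i j hij
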