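import Pool.Agent.Lib.MP_7f377f_mp.HD5

open MeasureTheory Filter Topology BoundedContinuousFunction
  Pool.Agent.Lib.MP_7f377f_mp.YC
open scoped Quaternion

theorem Pool.Agent.Lib.MP_7f377f_mp.OldCylinder3.main [MeasurableSpace ℍ] [BorelSpace ℍ]
    [MeasurableSpace SU2] [BorelSpace SU2]
    (h : Measure SU2) [h.IsHaarMeasure] [IsProbabilityMeasure h] (γ : ℝ) (hγ : 0 < γ) :
    ∃ ν : ℕ → Measure Fld,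
      (∀ j, IsProbabilityMeasure (ν j) ∧ ν j = (ν (j + 1)).map (block (3 ^ (2 * j + 1) / 2))) ∧
      (∀ j (F : Fld →ᵇ ℝ), ∀ η > 0, ∃ k0, ∀ k ≥ k0, ∀ l : ℕ,
        3 ^ (2 * (j + k) + 1) ≤ 2 * l + 1 → 2 * l + 1 ≤ 27 ^ (2 * (j + k) + 1) →
          ∀ T ≥ k0 * ((2 * l + 1) * side (j + k)), |mean h γ T l k j F - ∫ X, F X ∂ν j| ≤ η) ∧
      (∀ j, (∀ᵐ X ∂ν j, ∀ v : Fin 3 → ℤ, v 0 = 0 → shift ((side j : ℤ) • v) X = X) ∧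
        (∀ a, (ν j).map (shift a) = ν j) ∧
        (∀ g, (∀ x v : Fin 3 → ℤ, v 0 = 0 → g (x + (side j : ℤ) • v) = g x) →
          (ν j).map (gauge g) = ν j) ∧
        ∀ k, (ν j).map (refl k) = ν j ∧ ∀ F : Fld →ᵇ ℝ,
          DependsOn F {e | 1 ≤ e.1 k ∧ (k ≠ 0 → e.1 k + 1 < 3 ^ j ^ 2)} →
            0 ≤ ∫ X, F X * F (refl k X) ∂ν j) ∧
      (∀ α < (2⁻¹ : ℝ), Tendsto (fun j => (ν j).real {X | ∀ x, |x 0| ≤ (side j : ℤ) → ∀ i,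
        ‖X (x, i)‖ = 1 ∧ ∀ k, ‖plaq X x i k - 1‖ ≤ (side j : ℝ) ^ (-α)}) atTop (𝓝 1)) ∧
      (∃ c > 0, ∀ᶠ j in atTop, 3⁻¹ ≤ (ν j).real {X | c / √(side j) ≤ ‖plaq X 0 0 1 - 1‖}) ∧
      ∃ (H : Type) (_ : NormedAddCommGroup H) (_ : InnerProductSpace ℂ H)
        (e : HilbertBasis ℕ ℂ H) (E : ℕ → ℝ), Quantum ν e E ∧ Monotone E ∧ E 0 = 0 ∧ 0 < E 1 ∧
          Summable fun i => Real.exp (-E i) :=
  have ⟨ν, ⟨a, b, c, d, e, _⟩, g⟩ := Pool.Agent.Lib.MP_7f377f_mp.RG.D3.Hm5.main3 h hγ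
  ⟨ν, a, b, c, d, e, g⟩
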