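import Pool.Agent.Lib.MP_7f377f_mp.RGSmF
import Pool.Agent.Lib.MP_7f377f_mp.PAv

/-! Geometry of real fields in the tree gauge. -/

noncomputable section

namespace Pool.Agent.Lib.MP_7f377f_mp.RG.JS

open Finset
open scoped Quaternion

attribute [local irreducible] box lbox

theorem q_mul_sub (a b a' b' : S3) :
    ‖(a * b).q - (a' * b').q‖ ≤ ‖a.q - a'.q‖ + ‖b.q - b'.q‖ := by
  have : (a * b).q - (a' * b').q = (a.q - a'.q) * b.q + a'.q * (b.q - b'.q) := by
    simp only [S3.q_mul]; noncomm_ring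
  rw [this]
  exact (norm_add_le _ _).trans_eq (by rw [norm_mul, norm_mul, S3.norm_q, S3.norm_q]; ring)

theorem q_inv_sub (a b : S3) : ‖a⁻¹.q - b⁻¹.q‖ = ‖a.q - b.q‖ := by
  rw [S3.q_inv, S3.q_inv, ← star_sub, norm_star]

theorem curv_near {U V : Conf} {ε η : ℝ} (h : curvG ε V) (hUV : ∀ e, ‖(U e).q - (V e).q‖ ≤ η) :
    curvG (4 * η + ε) U := fun x μ ν => by
  refine (norm_sub_le_norm_sub_add_norm_sub _ (hol Inv.inv V x μ ν).q _).trans
    (add_le_add ?_ (h x μ ν))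
  refine (q_mul_sub _ _ _ _).trans ((add_le_add ((q_mul_sub _ _ _ _).trans (add_le_add
    (q_mul_sub _ _ _ _) le_rfl)) le_rfl).trans ?_)
  rw [q_inv_sub, q_inv_sub]
  linarith [hUV (x, μ), hUV (x + un μ, ν), hUV (x + un ν, μ), hUV (x, ν)]

variable {l : ℕ} {δ : ℝ} {U W : Conf}

theorem rect (h : curvG δ U) (p : St) (μ ν : Fin 4) (k m : ℕ) :
    ‖(lnP U p ν m * lnP U (p + (m : ℤ) • un ν) μ k * (lnP U (p + (k : ℤ) • un μ) ν m)⁻¹ *
      (lnP U p μ k)⁻¹).q - 1‖ ≤ m * (k * δ) := by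
  induction m with
  | zero => simp [lnP, S3.q_one]
  | succ m ih =>
    have := Pv.strip U (p + (m : ℤ) • un ν) μ ν k fun _ _ => h _ _ _
    rw [← S3.norm_conj_sub (lnP U p ν m)] at this
    refine le_trans (le_of_eq ?_) ((S3.norm_mul_sub _ _).trans ((add_le_add this ih).trans_eq
      (by push_cast; ring)))
    congr 3
    push_cast
    simp only [lnP, add_smul, one_smul, add_assoc, add_comm ((k : ℤ) • un μ)]
    group

theorem lnP_small {η : ℝ} {p : St} {μ : Fin 4} {k : ℕ}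
    (h : ∀ i < k, ‖(U (p + (i : ℤ) • un μ, μ)).q - 1‖ ≤ η) : ‖(lnP U p μ k).q - 1‖ ≤ k * η := by
  induction k with
  | zero => simp [lnP, S3.q_one]
  | succ k ih =>
    refine (S3.norm_mul_sub _ _).trans ?_
    push_cast
    linarith [ih fun i hi => h i (by omega), h k (by omega)]

theorem cmb_tree (hU : ∀ f, tree l f → U f = 1) (y t : St) :
    t ∈ box l → cmb Inv.inv (sh (up l y) U) t = 1 := by
  have key : ∀ p ν, Tr p ν → p ∈ box l → p + un ν ∈ box l → sh (up l y) U (p, ν) = 1 :=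
    fun p ν h1 h2 h3 => hU _ ((tree_add_up l p y ν).2 ⟨by rw [yo_of_mem h2, yo_of_mem h3],
      fun κ hκ => by rw [yo_of_mem h2, up_zero]; exact h1 κ hκ⟩)
  induction t using site_ind with
  | h0 => simp
  | hp p ν h1 h2 ih =>
    intro hx
    rw [Pv.cmb_step _ h1, ih (box_fwd h2 hx), key p ν h1 (box_fwd h2 hx) hx, one_mul]
  | hn p ν h1 h2 ih =>
    intro hx
    have := ih (box_bwd h2 hx)
    rwa [Pv.cmb_step _ h1, key p ν h1 hx (box_bwd h2 hx), mul_one] at this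

theorem inner_small (hU : ∀ f, tree l f → U f = 1) (h : curvG δ U) {x : St} {μ : Fin 4}
    (hx : yo l (x + un μ) = yo l x) : ‖(U (x, μ)).q - 1‖ ≤ 3 * l * δ := by
  have h1 := sub_up_mem l x
  have h2 := sub_up_mem l (x + un μ)
  rw [hx, add_sub_right_comm] at h2
  have := fix_small (h.sh (up l (yo l x))) (e := (x - up l (yo l x), μ)) (mem_lbox.2 h1)
  simpa only [gauge, cmb_tree hU _ _ h1, cmb_tree hU _ _ h2, one_mul, inv_one, mul_one, sh_apply,
    sub_add_cancel] using this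

theorem cross_near (hU : ∀ f, tree l f → U f = 1) (h : curvG δ U) {x : St} {μ : Fin 4}
    (hx : yo l (x + un μ) ≠ yo l x) :
    ‖(blk l U (yo l x, μ)).q - (U (x, μ)).q‖ ≤ 8 * (LL l : ℝ) ^ 2 * δ := by
  have δ0 := h.nonneg
  obtain ⟨t, ht, y, rfl⟩ : ∃ t ∈ box l, ∃ y, x = t + up l y :=
    ⟨_, sub_up_mem l x, _, (sub_add_cancel _ _).symm⟩
  rw [add_right_comm, yo_add_up, yo_add_up, yo_of_mem ht, Ne, add_left_inj] at hx
  rw [yo_add_up, yo_of_mem ht, zero_add]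
  have tμ : t μ = l := by
    by_contra hne
    refine hx (yo_of_mem (mem_box.2 fun i => ?_))
    have := mem_box.1 ht i
    rw [Pi.add_apply, un_apply]
    split_ifs with hi
    · subst hi; omega
    · omega
  have y1 : ∀ i ≤ 2 * l, yo l (t + un μ + (i : ℤ) • un μ + up l y) = un μ + y := fun i hi => by
    have : t + un μ + (i : ℤ) • un μ - up l (un μ) ∈ box l := mem_box.2 fun j => by
      have := mem_box.1 ht j
      simp only [Pi.add_apply, Pi.sub_apply, Pi.smul_apply, up_apply, un_apply, LL_cast,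
        smul_eq_mul]
      split_ifs with hj
      · subst hj; omega
      · omega
    rw [← sub_add_cancel (t + un μ + (i : ℤ) • un μ) (up l (un μ)), add_assoc, ← up_add, yo_add_up,
      yo_of_mem this, zero_add]
  have k1 := Pv.blk_near (l := l) (y := y) (μ := μ) δ0 fun x ν _ => h _ _ _
  have k2 := Pv.tm_near (l := l) (μ := μ) (fun x ν _ => h.sh (up l y) x ν μ) t ht
  have k3 := lnP_small (U := sh (up l y) U) (p := t + un μ) (μ := μ) (k := 2 * l) fun i hi =>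
    inner_small hU h (x := t + un μ + (i : ℤ) • un μ + up l y) (μ := μ) (by
      have := y1 (i + 1) hi
      push_cast at this
      rw [y1 i hi.le, ← this, add_smul, one_smul]
      congr 1
      abel)
  rw [← S3.norm_sub] at k1
  rw [Pv.tm, sh_sh, ← up_add, cmb_tree hU _ _ ht, cmb_tree hU _ _ ht, one_mul, inv_one, mul_one,
    Pv.lnP_sh _ _ 0, zero_add, norm_sub_rev, show lnP (sh (up l y) U) t μ (LL l) = _ from
      Pv.lnP_left _ _ _ _] at k2
  have k4 := q_mul_sub (U (t + up l y, μ)) (lnP (sh (up l y) U) (t + un μ) μ (2 * l))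
    (U (t + up l y, μ)) 1
  rw [mul_one, sub_self, norm_zero, zero_add] at k4
  refine (norm_sub_le_norm_sub_add_norm_sub _ _ _).trans ((add_le_add k1
    ((norm_sub_le_norm_sub_add_norm_sub _ _ _).trans (add_le_add k2 (k4.trans k3)))).trans ?_)
  have k5 : (RG.ht t : ℝ) ≤ 4 * l := by exact_mod_cast ht_le ht
  have k6 : (LL l : ℝ) = 2 * l + 1 := by simp [LL]
  have k7 : (0 : ℝ) ≤ l := l.cast_nonneg
  have k8 := mul_le_mul_of_nonneg_right k5 (show 0 ≤ LL l * δ by positivity)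
  rw [k6] at k8 ⊢
  push_cast
  nlinarith [mul_nonneg k7 δ0]

theorem cS_near {g h : S3} {η : ℝ} (e : ‖g.q - h.q‖ ≤ η) : ‖cS g * star (cS h) - 1‖ ≤ 2 * η := by
  rw [← cS_inv, ← cS_mul, cS, ← cq_one, ← cq_sub]
  exact (norm_cq _).2.trans (by rw [← S3.norm_sub]; linarith)

theorem q_near {g : S3} {η : ℝ} (e : ‖cS g - 1‖ ≤ η) : ‖g.q - 1‖ ≤ η := by
  rw [cS, ← cq_one, ← cq_sub] at e
  exact (norm_cq _).1.trans e

theorem ex_small {b : C3} {η : ℝ} (h : ‖b‖ ≤ η) (h1 : η ≤ 1 / 100) : ‖ex b - 1‖ ≤ 4 * η :=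
  (near_one ⟨h, ex_near h h1⟩).trans (by nlinarith [norm_nonneg b])

variable {D : Dat} {c R : ℕ} {τ ρ κ P : ℝ}

theorem s_small (h : D.Ok c τ R ρ κ) (b : Big D c R P) (hW : curvG δ W) (h1 : P ^ 2 * δ ≤ 1)
    (y : St) (f : Lk) : ‖cxL D.s (Bx y (cC W)) f‖ ≤ 10 * (P ^ 2 * δ) := by
  have δ0 := hW.nonneg
  have r := b.r h
  have P0 := b.p0
  have := (real_fix (R := D.r) (hW.sh y) (by nlinarith)).2.1
  rw [Bx_eq]
  refine (cxL_bd (fun k => h.lin.s_bd _ _ f (this.reF k))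
    fun k => h.lin.s_bd _ _ f (this.imF k)).trans ?_
  calc _ = 2 * (LL D.l : ℝ) ^ c * (10 * (D.r + 1) * δ) := by ring
    _ ≤ P * (10 * P * δ) := by gcongr; exacts [b.pc, by linarith]
    _ = _ := by ring

theorem Us_curv (h : D.Ok c τ R ρ κ) (p : Pre D c R P (10 * (D.r + 1) * δ)) (h5 : P ^ 5 * δ ≤ 1)
    (hW : curvG δ W) {S : Conf} (hS : cC S = D.Us (cC W)) : curvG (δ / 2) S := fun x μ ν => by
  have δ0 := hW.nonneg
  have r := p.big.r h
  have P0 := p.big.p0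
  have P1 := p.big.one
  have r0 : (1000 : ℝ) ≤ D.r := by exact_mod_cast h.r_ge
  have r1 := h.r_ge
  obtain ⟨t, ht, y, rfl⟩ : ∃ t ∈ box D.l, ∃ y, x = t + up D.l y :=
    ⟨_, sub_up_mem _ x, _, (sub_add_cancel _ _).symm⟩
  have q0 : 10 ^ 6 * (P ^ 4 * δ) ≤ 1 := by
    refine le_trans ?_ ((by ring : P * (P ^ 4 * δ) = _).trans_le h5)
    gcongr
  have q1 : P ^ 2 * δ ≤ P ^ 4 * δ := by gcongr; norm_num
  have q2 : P * δ ≤ P ^ 2 * δ := by gcongr; nlinarith
  obtain ⟨f1, f2, f3⟩ := real_fix (R := D.r) (hW.sh y) (by nlinarith)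
  set B := Bx 0 (cC (sh y W))
  have hB : ∀ e, ‖cut D.r B e‖ ≤ 10 * (D.r + 1) * δ := fun e => by
    simp only [cut]
    split_ifs with he
    · exact f2 e he
    · rw [norm_zero]; positivity
  have hc : Cv (D.r / 3) (2 * δ) (cut D.r B) := fun x hx μ ν => by
    rw [dd_agr (agr_mono (agr_cut D.r B) (by omega)) hx]
    refine (f3 x (box_mono (by omega) hx) μ ν).trans ?_
    have : ((D.r + 1) * δ) ^ 2 ≤ (P * δ) ^ 2 := by gcongr; linarith
    nlinarith
  have a1 : Agr (fb D.l 1) (cC (gauge Inv.inv (fun x => cmb Inv.inv (sh y W) (yo D.l x))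
      (sh (up D.l y) S))) (D.Us (exF (cut D.r B))) := by
    rw [cC_gauge, ← sh_cC, hS, ← Dat.Us_sh, ← Dat.Us_gauge h fun x => uni_cS _, sh_cC, ← cC_gauge]
    exact Dat.Us_agr h fun e he => by
      rw [f1 e (lbox_mono (by omega) he), exF, exF, agr_cut _ _ e (lbox_mono (by omega) he)]
  have d1 : 10 * (D.r + 1) * δ ≤ 10 * (P * δ) := by nlinarith
  have d2 : P * (10 * (D.r + 1) * δ) ≤ 10 * (P ^ 2 * δ) := by nlinarith
  have a2 := hol_ap' (R := D.l) (fun e _ => p.us hB e)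
    (by rw [sq, ← mul_assoc]; exact mul_le_of_le_one_right (by positivity) (by linarith))
    (by linarith) ht μ ν
  have a3 : ‖dd (cxL (mu D.l D.s) (cut D.r B)) t μ ν‖ ≤ δ / 100 := by
    have k : 2 * δ / (D.r : ℝ) ^ 12 ≤ δ / 200 := by
      rw [div_le_div_iff₀ (by positivity) (by norm_num)]
      nlinarith [le_self_pow₀ (show (1 : ℝ) ≤ D.r by linarith) (show 12 ≠ 0 by norm_num)]
    refine (pi_norm_le_iff_of_nonneg (by positivity)).2 fun j => ?_
    have b1 := (h.lin.point _ _ (hc.reF j) t ht μ ν).trans k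
    have b2 := (h.lin.point _ _ (hc.imF j) t ht μ ν).trans k
    rw [← reF_cxL] at b1
    rw [← imF_cxL] at b2
    exact (Complex.norm_le_abs_re_add_abs_im _).trans ((add_le_add b1 b2).trans_eq (by ring))
  have l1 : ∀ ν, ((t, ν) : Lk) ∈ lbox (fb D.l 1) := fun _ =>
    mem_lbox.2 (box_mono (by simp [fb]) ht)
  have l2 : ∀ μ ν, ((t + un μ, ν) : Lk) ∈ lbox (fb D.l 1) := fun μ _ =>
    mem_lbox.2 (box_mono (by simp [fb, LL]) (add_un_mem_box ht μ))
  rw [hol, ← a1 _ (l1 _), ← a1 _ (l1 _), ← a1 _ (l2 _ _), ← a1 _ (l2 _ _), ← hol, hol_cC] at a2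
  have a4 := q_near (near_one ⟨a3, a2⟩)
  rw [hol_gauge_inv, S3.norm_conj_sub, hol_sh] at a4
  refine a4.trans ?_
  have e1 : (P * (10 * (D.r + 1) * δ)) ^ 2 ≤ (10 * (P ^ 2 * δ)) ^ 2 := by gcongr
  have e2 : P * (10 * (D.r + 1) * δ) ^ 2 ≤ P ^ 2 * (10 * (P * δ)) ^ 2 := by gcongr; nlinarith
  nlinarith

theorem hk0_res (hU : ∀ f, tree D.l f → U f = 1) (a : ℝ) (b : Lk)
    (h0 : avq D.l b.2 (sh (up D.l b.1) U) ≠ 0) (h1 : 0 < (W b * (blk D.l U b)⁻¹).q.re) :
    hk0 a (W b * (blk D.l U b)⁻¹) = ENNReal.ofReal (Real.exp (-(a *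
      (dot (D.res (sh b.1 (cC W)) (sh (up D.l b.1) (cC U)) b.2)
        (D.res (sh b.1 (cC W)) (sh (up D.l b.1) (cC U)) b.2)).re))) := by
  have e1 : cq (avq D.l b.2 (sh (up D.l b.1) U)) = ((LL D.l : ℂ) ^ 4)⁻¹ •
      ∑ t ∈ box D.l, lnP (sh (up D.l b.1) (cC U)) t b.2 (LL D.l) := by
    rw [avq, cq_smul, cq_sum]
    push_cast
    congr 1
    refine sum_congr rfl fun t ht => ?_
    rw [sh_sh, ← up_add, cmb_tree hU _ _ ht, cmb_tree hU _ _ ht, one_mul, inv_one, mul_one, sh_cC,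
      lnP_cC, cS]
  have e2 : D.res (sh b.1 (cC W)) (sh (up D.l b.1) (cC U)) b.2 =
      ch (cS (W b * (blk D.l U b)⁻¹)) := by
    rw [cS_mul, cS_inv, blk, Ms.av_eq, if_neg h0, cS, cS, Ms.nrq_q h0, cq_smul,
      Quaternion.star_smul, mul_smul_comm, ch_smul (by simpa using h0), Dat.res, ← e1, sh_apply,
      zero_add]
    rfl
  rw [e2, hk0, if_pos h1]
  congr 4
  generalize W b * (blk D.l U b)⁻¹ = g at h1
  rw [div_pow, norm_q_sq]
  simp [dot_def, ch, cS, ← Complex.ofReal_inv, ← Complex.ofReal_mul]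
  field_simp

theorem _root_.Pool.Agent.Lib.MP_7f377f_mp.RG.geo (c : ℕ) :
    ∃ K : ℕ, ∀ (D : Dat) (R : ℕ) (τ ρ κ δ : ℝ), D.Ok c τ R ρ κ →
    K ≤ D.l → (LL D.l : ℝ) ^ K * δ ≤ 1 →
      (∀ U W : Conf, (∀ f, tree D.l f → U f = 1) → curvG δ U → noiseG D.l δ U W →
        curvG ((LL D.l : ℝ) ^ 3 * δ) W ∧ ∀ f, 0 < (cS (U f) * star (D.Us (cC W) f)).re.re ∧
          ‖ch (cS (U f) * star (D.Us (cC W) f))‖ ≤ (LL D.l : ℝ) ^ K * δ) ∧
      ∀ (U W : Conf) (A : Fld), curvG δ W → (∀ f, tree D.l f → A f = 0) →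
        (∀ f, 100 * ‖A f‖ ≤ δ) → cC U = D.Uz (cC W) A → curvG δ U ∧ ∀ (a : ℝ) (b : Lk),
          hk0 a (W b * (blk D.l U b)⁻¹) = ENNReal.ofReal (Real.exp (-(a *
            (dot (D.res (sh b.1 (cC W)) (sh (up D.l b.1) (cC U)) b.2)
              (D.res (sh b.1 (cC W)) (sh (up D.l b.1) (cC U)) b.2)).re))) := by
  obtain ⟨K, hK⟩ := exists_pre c
  refine ⟨K * 5, fun D R τ ρ κ δ h hl h5 => ?_⟩
  rw [pow_mul] at h5 ⊢
  have b := (hK D R τ ρ κ 0 h (by omega) le_rfl (by simp)).big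
  have L1 := one_le_LL D.l
  have L6 := LL_ge h
  have hK' := fun δ => hK D R τ ρ κ δ h (by omega)
  generalize (LL D.l : ℝ) ^ K = P at *
  have P0 := b.p0
  have P1 := b.one
  have L2 : 324 * (LL D.l : ℝ) ^ 2 ≤ P := le_trans (by gcongr; norm_num) b.pL
  have L3 : 324 * (LL D.l : ℝ) ^ 3 ≤ P := le_trans (by gcongr; norm_num) b.pL
  have L4 : (1 : ℝ) ≤ LL D.l ^ 2 := one_le_pow₀ L1
  have sm : 0 ≤ δ → 10 ^ 6 * (P ^ 4 * δ) ≤ P ^ 5 * δ ∧ P ^ 3 * δ ≤ P ^ 4 * δ ∧
      P ^ 2 * δ ≤ P ^ 3 * δ ∧ P * δ ≤ P ^ 2 * δ ∧ δ ≤ P * δ := fun δ0 =>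
    ⟨le_trans (by gcongr) (le_of_eq (by ring : P * (P ^ 4 * δ) = _)), by gcongr; norm_num,
      by gcongr; norm_num,
      by gcongr; nlinarith, by nlinarith⟩
  refine ⟨fun U W hU hc hn => ?_, fun U W A hW hA hδ hU => ?_⟩
  · have δ0 := hc.nonneg
    obtain ⟨s1, s2, s3, s4, s5⟩ := sm δ0
    have n1 : ∀ b, ‖(W b).q - (blk D.l U b).q‖ ≤ δ := fun b => (S3.norm_sub _ _).trans_le (hn b)
    have cW : curvG ((LL D.l : ℝ) ^ 3 * δ) W := by
      refine (curv_near (V := fun b => lnP U (up D.l b.1) b.2 (LL D.l))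
        (ε := LL D.l * (LL D.l * δ)) (η := δ + 4 * (LL D.l : ℝ) ^ 2 * δ) (fun y μ ν => ?_)
        fun b => ?_).mono ?_
      · simpa only [hol, smul_add, up] using rect hc (up D.l y) ν μ (LL D.l) (LL D.l)
      · refine (norm_sub_le_norm_sub_add_norm_sub _ _ _).trans (add_le_add (n1 b) ?_)
        rw [S3.norm_sub]
        exact Pv.blk_near δ0 fun x ν _ => hc _ _ _
      · have := mul_le_mul_of_nonneg_right L6 (show 0 ≤ (LL D.l : ℝ) ^ 2 * δ by positivity)
        nlinarith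
    refine ⟨cW, fun f => ?_⟩
    have l3 : P ^ 2 * ((LL D.l : ℝ) ^ 3 * δ) ≤ P ^ 3 * δ := by
      calc _ ≤ P ^ 2 * (P * δ) := by gcongr; linarith [pow_pos (zero_lt_one.trans_le L1) 3]
        _ = _ := by ring
    have k1 := ex_small ((s_small h b cW (by linarith) (yo D.l f.1)
      (f.1 - up D.l (yo D.l f.1), f.2)).trans (mul_le_mul_of_nonneg_left l3 (by norm_num)))
      (by linarith)
    have k2 : ‖cS (U f) * star (if yo D.l (f.1 + un f.2) = yo D.l f.1 then 1 else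
        cC W (yo D.l f.1, f.2)) - 1‖ ≤ 2 * (P * δ) := by
      have := mul_le_mul_of_nonneg_right L2 δ0
      split_ifs with hf
      · rw [← cS_one]
        refine cS_near ((inner_small hU hc hf).trans ?_)
        have : (LL D.l : ℝ) = 2 * D.l + 1 := by simp [LL]
        nlinarith [b.pL, le_self_pow₀ L1 (show 4 ≠ 0 by norm_num)]
      · refine cS_near ((norm_sub_le_norm_sub_add_norm_sub _ (blk D.l U (yo D.l f.1, f.2)).q
          _).trans ?_)
        rw [norm_sub_rev, norm_sub_rev _ (W _).q]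
        nlinarith [cross_near hU hc hf, n1 (yo D.l f.1, f.2)]
    rw [← star_near] at k1
    have k3 := mul_near k2 k1
    rw [mul_assoc, ← star_mul, ← Dat.Us] at k3
    have k4 := k3.trans (show _ ≤ 100 * (P ^ 3 * δ) by
      nlinarith [mul_nonneg (zero_le_one.trans P1) δ0])
    refine ⟨?_, (sub_zero (ch _) ▸ ch_ap (b := 0) (by simp) (by simpa using k4)
      (by linarith)).trans (by nlinarith [mul_nonneg (zero_le_one.trans P1) δ0])⟩
    have := (abs_le.1 ((Complex.abs_re_le_norm _).trans ((norm_re _).trans k4))).1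
    simp only [Quaternion.re_sub, Complex.sub_re, Quaternion.re_one, Complex.one_re] at this
    linarith
  · have δ0 := hW.nonneg
    obtain ⟨s1, s2, s3, s4, s5⟩ := sm δ0
    have r := b.r h
    obtain ⟨S, hS⟩ := D.Us_real W
    have cS' := Us_curv h (hK' _ (by positivity) (by
      calc _ ≤ P ^ 3 * (10 * P * δ) := by gcongr; linarith
        _ = 10 * (P ^ 4 * δ) := by ring
        _ ≤ 1 := by nlinarith [mul_nonneg (zero_le_one.trans P1) δ0])) h5 hW hS
    have k1 : ∀ f, ‖(U f).q - (S f).q‖ ≤ 4 * (δ / 100) := fun f => by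
      rw [S3.norm_sub]
      refine q_near ?_
      rw [cS_mul, cS_inv, ← cC, hU, Dat.Uz, ← hS, cC, mul_assoc, uni_cS, mul_one]
      exact ex_small (by linarith [hδ f]) (by linarith)
    have cU : curvG δ U := (curv_near cS' k1).mono (by linarith)
    have tU : ∀ f, tree D.l f → U f = 1 := fun f hf => cS_inj (by
      rw [← cC, hU, Dat.Uz, hA f hf, Dat.Us_tree h _ hf, ex_zero, one_mul, cS_one])
    refine ⟨cU, fun a ⟨y, μ⟩ => hk0_res tU a _ (fun e => ?_) ?_⟩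
    · have := Pv.avq_near (l := D.l) (μ := μ) δ0 fun x ν _ => cU.sh (up D.l y) x ν μ
      rw [e, zero_sub, norm_neg, S3.norm_q] at this
      have : (LL D.l : ℝ) = 2 * D.l + 1 := by simp [LL]
      nlinarith [mul_le_mul_of_nonneg_right L2 δ0, Nat.cast_nonneg (α := ℝ) D.l]
    · have y0 : yo D.l ((D.l : ℤ) • un μ + up D.l y) = y := by
        rw [yo_add_up, yo_of_mem (Li.smul_un_mem le_rfl μ), zero_add]
      have y1 : yo D.l ((D.l : ℤ) • un μ + up D.l y + un μ) ≠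
          yo D.l ((D.l : ℤ) • un μ + up D.l y) := fun e => by
        have := (mem_box.1 (sub_up_mem D.l ((D.l : ℤ) • un μ + up D.l y + un μ)) μ).2
        rw [e, y0] at this
        simp at this
      have k2 := cross_near tU cU y1
      have k3 : ‖(S ((D.l : ℤ) • un μ + up D.l y, μ)).q - (W (y, μ)).q‖ ≤
          4 * (10 * (P ^ 2 * δ)) := by
        rw [S3.norm_sub]
        refine q_near ?_
        rw [cS_mul, cS_inv, ← cC, hS, Dat.Us, if_neg y1, y0, cC, mul_assoc, uni_cS, mul_one]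
        exact ex_small (s_small h b hW (by linarith) _ _) (by linarith)
      rw [y0] at k2
      have k4 := (norm_sub_le_norm_sub_add_norm_sub _ _ _).trans (add_le_add k2
        ((norm_sub_le_norm_sub_add_norm_sub _ _ _).trans (add_le_add (k1 _) k3)))
      rw [norm_sub_rev, S3.norm_sub] at k4
      refine (ch_cS_le k4 ?_).1
      nlinarith [mul_le_mul_of_nonneg_right L2 δ0]

end Pool.Agent.Lib.MP_7f377f_mp.RG.JS
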