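import Pool.Agent.Lib.MP_7f377f_mp.Q4Hole
import Pool.Agent.Lib.MP_7f377f_mp.Q4Rob
import Pool.Agent.Lib.MP_7f377f_mp.Q4MeasCov
import Pool.Agent.Lib.MP_7f377f_mp.RGGeo
import Pool.Agent.Lib.MP_7f377f_mp.RGOp0

/-! Local geometric lemmas for the budget. -/

noncomputable section

namespace Pool.Agent.Lib.MP_7f377f_mp.RG.Q4

open Finset Rb
open scoped Quaternion

attribute [local irreducible] box lbox

theorem fs_nonneg (U : Conf) (x : St) : 0 ≤ fs U x :=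
  sum_nonneg fun _ _ => sum_nonneg fun _ _ => fq_nonneg _ _ _ _

theorem fq_le_fs (U : Conf) (x : St) (μ ν : Fin 4) : fq U x μ ν ≤ fs U x :=
  (single_le_sum (f := fun ν => fq U x μ ν) (fun _ _ => fq_nonneg _ _ _ _) (mem_univ ν)).trans
    (single_le_sum (f := fun μ => ∑ ν, fq U x μ ν)
      (fun _ _ => sum_nonneg fun _ _ => fq_nonneg _ _ _ _) (mem_univ μ))

theorem fq_near {U V : Conf} {x : St} {μ ν : Fin 4} {η : ℝ} (h1 : Rb.Nr η (U (x, μ)) (V (x, μ)))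
    (h2 : Rb.Nr η (U (x + un μ, ν)) (V (x + un μ, ν))) (h3 : Rb.Nr η (U (x + un ν, μ)) (V (x + un ν, μ)))
    (h4 : Rb.Nr η (U (x, ν)) (V (x, ν))) : fq U x μ ν ≤ fq V x μ ν + 4 * η :=
  ((((h1.mul h2).mul h3.inv).mul h4.inv).trans (k := 1) (η' := fq V x μ ν) le_rfl).mono (by linarith)

theorem fq_blkN (l : ℕ) (U : Conf) (ω : St → Om) (x : St) (μ ν : Fin 4) :
    fq (blkN l U ω) x μ ν = fq (blk l U ω) x μ ν := Mx.fq_gauge _ _ _ _ _

/-- (G1) the robust bound for the noisy block field -/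
theorem m4n {l : ℕ} (hl : 4 ≤ l) (U W : Conf) (ω : St → Om)
    (h : ∀ y ∈ box 1, wt l (sh (up l y) U) (ω y) ≠ 0) :
    fs W 0 ≤ 10 ^ 6 / LL l * ∑ x ∈ box (5 * l + 2), fs U x +
      64 * ∑ y ∈ box 1, ∑ μ, ‖(W (y, μ) * (blkN l U ω (y, μ))⁻¹).q - 1‖ := by
  set S := ∑ y ∈ box 1, ∑ μ, ‖(W (y, μ) * (blkN l U ω (y, μ))⁻¹).q - 1‖
  have a : ∀ y ∈ box 1, ∀ μ, Rb.Nr S (W (y, μ)) (blkN l U ω (y, μ)) := fun y hy μ =>
    (S3.norm_sub _ _).trans_le ((single_le_sum (f := fun μ =>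
      ‖(W (y, μ) * (blkN l U ω (y, μ))⁻¹).q - 1‖) (fun _ _ => norm_nonneg _) (mem_univ μ)).trans
        (single_le_sum (f := fun y => ∑ μ, ‖(W (y, μ) * (blkN l U ω (y, μ))⁻¹).q - 1‖)
          (fun _ _ => sum_nonneg fun _ _ => norm_nonneg _) hy))
  have z := zero_mem_box 1
  have u := fun μ => add_un_mem_box (zero_mem_box 0) μ
  have b : ∀ μ ν, fq W 0 μ ν ≤ 30000 / LL l * ∑ x ∈ box (5 * l + 2), fs U x + 4 * S :=
    fun μ ν => (fq_near (a 0 z μ) (a _ (u μ) ν) (a _ (u ν) μ) (a 0 z ν)).trans (add_le_add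
      ((fq_blkN ..).trans_le (robust_corners hl U ω μ ν fun y hy => h y (mem_box.2 fun i => by
        rcases hy i with e | e <;> simp [e]))) le_rfl)
  refine (sum_le_card_nsmul _ _ _ fun μ _ => sum_le_card_nsmul _ _ _ fun ν _ => b μ ν).trans ?_
  have := div_nonneg (sum_nonneg fun x (_ : x ∈ box (5 * l + 2)) => fs_nonneg U x) (LR l).le
  simp only [card_univ, Fintype.card_fin, nsmul_eq_mul, div_mul_eq_mul_div, mul_div_assoc]
  push_cast
  linarith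

/-- the comb gauge under a local bound of the curvature -/
theorem fix_loc {R : ℕ} {ε : ℝ} {U : Conf} (h : ∀ x ∈ box R, ∀ μ ν, fq U x μ ν ≤ ε) {e : Lk}
    (he : e ∈ lbox R) : Rb.Nr (3 * R * ε) (gauge Inv.inv (cmb Inv.inv U) U e) 1 :=
  comb_small (fun _ _ h _ => fix_tr U h) (fun x hx μ ν => (Mx.fq_gauge _ U x μ ν).trans_le
    (h x hx μ ν)) he

theorem Bx_loc {R : ℕ} {ε : ℝ} {U : Conf} (h : ∀ x ∈ box R, ∀ μ ν, fq U x μ ν ≤ ε)
    (h1 : 6 * R * ε ≤ 1) : Sm R (6 * R * ε) (Bx 0 (cC U)) ∧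
      Agr R (cC (gauge Inv.inv (cmb Inv.inv U) U)) (exF (Bx 0 (cC U))) :=
  ⟨fun e he => by
    rw [Bx_cC]
    exact (ch_cS_le (fix_loc h he) (by linarith)).2.trans_eq (by ring), fun e he => by
    rw [exF, Bx_cC, ex_ch (ch_cS_le (fix_loc h he) (by linarith)).1, cC]⟩

/-- (G2) positivity -/
theorem cx_Bx_nonneg {m : BF} (hm : ∀ a, 0 ≤ m a a) (x : St) (U : Conf) :
    0 ≤ (cx m (Bx x (cC U)) (Bx x (cC U))).re := by
  rw [cx_real m (Bx_real x U) (Bx_real x U), Complex.ofReal_re]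
  exact sum_nonneg fun k _ => hm _

/-- (G2) upper bound -/
theorem cx_Bx_le {m : BF} {R : ℕ} {M ε : ℝ} (hm : Bd R R M m) {U : Conf}
    (h : ∀ x ∈ box R, ∀ μ ν, fq U x μ ν ≤ ε) (h1 : 6 * R * ε ≤ 1) :
    ‖cx m (Bx 0 (cC U)) (Bx 0 (cC U))‖ ≤ 432 * M * R ^ 2 * ε ^ 2 :=
  (cx_bd hm (Bx_loc h h1).1 (Bx_loc h h1).1).trans_eq (by ring)

/-- (G2) one site lower bound -/
theorem pos1 {m : BF} {c ε : ℝ} (hm : ∀ a, nd a 0 ≤ c * m a a) {U : Conf}
    (h : ∀ x ∈ box 1, ∀ μ ν, fq U x μ ν ≤ ε) (h1 : 600 * ε ≤ 1) :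
    fs U 0 ^ 2 ≤ 288 * c * (cx m (Bx 0 (cC U)) (Bx 0 (cC U))).re + 10 ^ 14 * ε ^ 4 := by
  have ε0 := (fq_nonneg _ _ _ _).trans (h 0 (zero_mem_box 1) 0 0)
  obtain ⟨a, b⟩ := Bx_loc h (by push_cast; linarith)
  rw [Nat.cast_one, mul_one] at a
  have hr := Bx_real 0 U
  rw [cx_real m hr hr, Complex.ofReal_re]
  set B := Bx 0 (cC U)
  have k : ∀ μ ν, fq U 0 μ ν ^ 2 ≤ 18 * ∑ k, dd (reF B k) 0 μ ν ^ 2 + 2 * (396000 * ε ^ 2) ^ 2 :=
    fun μ ν => by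
    have h3 := hol_ap (Ap_exF a (by linarith)) (by nlinarith) (by linarith) μ ν
    have b1 := fun μ => b (0, μ) (mem_lbox.2 (zero_mem_box 1))
    have b2 := fun μ ν => b (0 + un μ, ν) (mem_lbox.2 (add_un_mem_box (zero_mem_box 0) μ))
    rw [hol, ← b1, ← b1, ← b2, ← b2, ← hol, hol_cC] at h3
    have h4 := JS.q_near (JS.near_one ⟨le_rfl, h3⟩)
    have h5 : ‖dd B 0 μ ν‖ ^ 2 ≤ ∑ k, dd (reF B k) 0 μ ν ^ 2 := by
      refine (pow_le_pow_left₀ (norm_nonneg _) ((pi_norm_le_iff_of_nonneg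
        (Real.sqrt_nonneg _)).2 fun k => ?_) 2).trans_eq (Real.sq_sqrt (by positivity))
      have e : dd B 0 μ ν k = (dd (reF B k) 0 μ ν : ℝ) :=
        Complex.ext (by simp [dd, reF]) (by simp [dd, hr _ k])
      rw [e, Complex.norm_real]
      exact Real.abs_le_sqrt (single_le_sum (f := fun k => dd (reF B k) 0 μ ν ^ 2)
        (fun _ _ => sq_nonneg _) (mem_univ k))
    have h6 : fq U 0 μ ν ≤ 3 * ‖dd B 0 μ ν‖ + 396000 * ε ^ 2 :=
      (Mx.fq_gauge _ U 0 μ ν).symm.trans_le (h4.trans_eq (by ring))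
    have h7 := pow_le_pow_left₀ (fq_nonneg _ _ _ _) h6 2
    nlinarith [sq_nonneg (3 * ‖dd B 0 μ ν‖ - 396000 * ε ^ 2)]
  have s1 := sq_sum_le_card_mul_sum_sq (s := (univ : Finset (Fin 4 × Fin 4)))
    (f := fun p => fq U 0 p.1 p.2)
  have s2 := sum_le_sum fun (p : Fin 4 × Fin 4) (_ : p ∈ univ) => k p.1 p.2
  have s3 : ∑ p : Fin 4 × Fin 4, ∑ k, dd (reF B k) 0 p.1 p.2 ^ 2 ≤
      c * ∑ k, m (reF B k) (reF B k) := by
    rw [sum_comm, mul_sum]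
    exact sum_le_sum fun k _ => (Fintype.sum_prod_type' _).trans_le (hm _)
  rw [sum_add_distrib, ← mul_sum, sum_const] at s2
  rw [Fintype.sum_prod_type'] at s1
  simp only [card_univ, Fintype.card_prod, Fintype.card_fin, nsmul_eq_mul] at s1 s2
  push_cast at s1 s2
  have := pow_nonneg ε0 4
  unfold fs
  nlinarith

namespace Bg3

variable {l : ℕ} {η : ℝ} {V : Conf}

theorem nr_one {q : ℍ} (h : ‖q - 1‖ ≤ η) : Rb.Nr (8 * η) (nr q 1) 1 := by
  simpa using nr_near (a := 1) (a' := 1) (X := 1) (G := nr q 1) (V := q) (ε := η)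
    (by simpa [S3.q_one] using h) (by norm_num) (by norm_num) fun _ => rfl

theorem nr_smul {c : ℝ} (hc : 0 < c) (q : ℍ) (d : S3) : nr (c • q) d = nr q d := by
  by_cases h : q = 0
  · simp [h]
  · refine S3.ext ?_
    rw [nr_q h, nr_q (smul_ne_zero hc.ne' h), norm_smul, Real.norm_of_nonneg hc.le, smul_smul,
      mul_inv, mul_right_comm, inv_mul_cancel₀ hc.ne', one_mul]

theorem cmb_nr (h0 : 0 ≤ η) (h : ∀ e ∈ lbox l, Rb.Nr η (V e) 1) {t : St} (ht : t ∈ box l) :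
    Rb.Nr (4 * l * η) (cmb Inv.inv V t) 1 := by
  have := Op.cmb_ind (iv := Inv.inv) (fun n (a : S3) => Rb.Nr (n * η) a 1)
    (fun n => Rb.Nr.rfl' (by positivity) rfl)
    (fun i j a b ha hb => ((ha.mul hb).congr rfl (one_mul 1)).mono (by push_cast; linarith))
    (U := V) (fun e he => by simpa using ⟨h e he, (h e he).inv.congr rfl inv_one⟩) ht
  simpa using this

theorem cms_nr (h0 : 0 ≤ η) (h : ∀ e ∈ lbox l, Rb.Nr η (V e) 1) (s : Equiv.Perm (Fin 4)) {t : St}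
    (ht : t ∈ box l) : Rb.Nr (4 * l * η) (cms Inv.inv s V 0 t) 1 := by
  rw [cms, sh_zero, sub_zero]
  exact cmb_nr h0 (fun e he => h _ (mem_lbox.2 ((Mx.pz_box _ _).2 (mem_lbox.1 he))))
    (mem_box.2 fun i => mem_box.1 ht _)

theorem avs_nr {f : Rb.Pm → St → S3} (h : ∀ s, ∀ t ∈ box l, Rb.Nr η (f s t) 1) :
    ‖avs l (fun s t => (f s t).q) - 1‖ ≤ η := by
  rw [← avs_const (l := l) (1 : ℍ), ← avs_sub, ← avs_const (l := l) η]
  exact norm_avs h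

theorem uh_nr (h0 : 0 ≤ η) (h : ∀ e ∈ lbox l, Rb.Nr η (V e) 1) : Rb.Nr (64 * l * η) (uh l V) 1 := by
  have := LR l
  rw [uh, ← nr_smul (c := (24 * (LL l : ℝ) ^ 4)⁻¹) (by positivity)]
  exact (nr_one (avs_nr fun s t ht => ((cms_nr h0 h s ht).mul (cmb_nr h0 h ht).inv).congr rfl
    (by simp))).mono (by linarith)

theorem sh_up (h : ∀ e ∈ lbox (3 * l + 1), Rb.Nr η (V e) 1) (μ : Fin 4) :
    ∀ e ∈ lbox l, Rb.Nr η (sh (up l (un μ)) V e) 1 := fun e he =>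
  h _ (mem_lbox.2 (box_mono (by simp [LL]; omega)
    (add_mem_box (mem_lbox.1 he) (up_mem_box (un_mem_box μ)))))

theorem av_nr (h0 : 0 ≤ η) (h : ∀ e ∈ lbox (3 * l + 1), Rb.Nr η (V e) 1) (μ : Fin 4) {o o' : Om}
    (ho : o.1 = 0) (ho' : o'.1 = 0) : Rb.Nr (40 * LL l * η) (av l μ V o o') 1 := by
  have L : (LL l : ℝ) = 2 * l + 1 := by simp [LL]
  have l0 : (0 : ℝ) ≤ l * η := by positivity
  have a : ∀ t ∈ box l, Rb.Nr (LL l * η) (lnP V t μ (LL l)) 1 := fun t ht =>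
    JS.lnP_small fun i hi => h _ (mem_lbox.2 (mem_box.2 fun j => by
      have := mem_box.1 ht j
      simp only [Pi.add_apply, Pi.smul_apply, un_apply, smul_eq_mul]
      unfold LL at hi
      split_ifs <;> omega))
  rw [av, ho, ho', cms_self, cms_self, inv_one, one_mul, mul_one]
  split_ifs
  · exact (a 0 (zero_mem_box l)).mono (by rw [L]; linarith)
  · exact (nr_one (avs_nr fun s t ht => (((cms_nr h0 (fun e he => h e (lbox_mono (by omega) he))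
      s ht).mul (a t ht)).mul (cms_nr h0 (sh_up h μ) s ht).inv).congr rfl (by simp))).mono
        (by rw [L]; linarith)

theorem blkN_nr (h0 : 0 ≤ η) (h : ∀ e ∈ lbox (5 * l + 2), Rb.Nr η (V e) 1) {ω : St → Om} {y : St}
    (hy : y ∈ box 1) (μ : Fin 4) (ho : (ω y).1 = 0) (ho' : (ω (y + un μ)).1 = 0) :
    Rb.Nr (104 * LL l * η) (blkN l V ω (y, μ)) 1 := by
  have L : (LL l : ℝ) = 2 * l + 1 := by simp [LL]
  have a : ∀ e ∈ lbox (3 * l + 1), Rb.Nr η (sh (up l y) V e) 1 := fun e he =>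
    h _ (mem_lbox.2 (box_mono (by simp [LL]; omega) (add_mem_box (mem_lbox.1 he) (up_mem_box hy))))
  have b := sh_up a μ
  rw [sh_sh, ← up_add, add_comm] at b
  exact ((((uh_nr h0 fun e he => a e (lbox_mono (by omega) he)).inv.mul (av_nr h0 a μ ho ho')).mul
    (uh_nr h0 b).inv.inv).congr rfl (by simp)).mono (by rw [L]; linarith)

end Bg3

open Bg3

theorem om_zero {l : ℕ} {U : Conf} {o : Om} {d : ℝ} (h : ∀ x ∈ box l, ∀ μ ν, fq U x μ ν ≤ d)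
    (hd : (LL l : ℝ) ^ 4 * d ≤ 1) (hw : wt l U o ≠ 0) : o.1 = 0 := by
  have := LR l
  have f : Fl l ((LL l : ℝ) ^ 4)⁻¹ U := fun x μ ν hx _ => (h x hx μ ν).trans (by
    rwa [← one_div, le_div_iff₀' (by positivity)])
  by_contra e
  exact hw ((if_pos f).trans (if_neg e))

/-- (G3) local geometry in the tree gauge -/
theorem geo_loc {l : ℕ} {U W : Conf} {ω : St → Om} {d : ℝ} (hU : ∀ f, tree l f → U f = 1)
    (h : ∀ x ∈ box (5 * l + 2), ∀ μ ν, fq U x μ ν ≤ d) (hd : (LL l : ℝ) ^ 4 * d ≤ 1)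
    (hw : ∀ y ∈ box 1, wt l (sh (up l y) U) (ω y) ≠ 0)
    (hn : ∀ b ∈ lbox 1, ‖(W b * (blkN l U ω b)⁻¹).q - 1‖ ≤ d) :
    (∀ y ∈ box 1, (ω y).1 = 0) ∧
    (∀ f ∈ lbox l, ‖(U f).q - (if yo l (f.1 + un f.2) = yo l f.1 then 1 else W (0, f.2)).q‖ ≤
      1000 * (LL l : ℝ) ^ 2 * d) ∧
    ∀ μ ν, fq W 0 μ ν ≤ 4000 * (LL l : ℝ) ^ 2 * d := by
  have d0 := (fq_nonneg _ _ _ _).trans (h 0 (zero_mem_box _) 0 0)
  have L : (LL l : ℝ) = 2 * l + 1 := by simp [LL]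
  have l0 : (0 : ℝ) ≤ l := l.cast_nonneg
  have o : ∀ y ∈ box 1, (ω y).1 = 0 := fun y hy => om_zero (fun x hx μ ν => by
    rw [Rb.fq_sh]
    exact h _ (box_mono (by simp [LL]; omega) (add_mem_box hx (up_mem_box hy))) μ ν) hd (hw y hy)
  set u := cmb Inv.inv U with hu
  have η0 : 0 ≤ 8 * LL l * d := by positivity
  have g : ∀ e ∈ lbox (5 * l + 2), Rb.Nr (8 * LL l * d) (gauge Inv.inv u U e) 1 := fun e he =>
    (fix_loc h he).mono (mul_le_mul_of_nonneg_right (by rw [L]; push_cast; linarith) d0)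
  have n : ∀ b ∈ lbox 1, Rb.Nr d (W b) (blkN l U ω b) := fun b hb =>
    (S3.norm_sub _ _).trans_le (hn b hb)
  have z := zero_mem_box 1
  have u1 := fun μ => add_un_mem_box (zero_mem_box 0) μ
  have c := (blk_gauge l u U ω).2.1
  have t0 : ∀ x ∈ box l, u x = 1 := fun x hx => by simpa using JS.cmb_tree hU 0 x hx
  have p : d ≤ (LL l : ℝ) ^ 2 * d := le_mul_of_one_le_left d0 (by rw [L]; nlinarith)
  refine ⟨o, fun ⟨x, μ⟩ hf => ?_, fun μ ν => ?_⟩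
  · have hx := mem_lbox.1 hf
    have g1 := g (x, μ) (lbox_mono (by omega) hf)
    rw [gauge, t0 x hx, one_mul] at g1
    dsimp only at hx g1 ⊢
    rw [yo_of_mem hx]
    split_ifs with e
    · rw [t0 _ (by simpa [e] using JS.sub_up_mem l (x + un μ)), inv_one, mul_one] at g1
      exact g1.mono (by nlinarith)
    · have e1 : yo l (x + un μ) = un μ := by
        simpa [yo_of_mem hx] using JS.yo_add_un l x μ (by rwa [yo_of_mem hx])
      have e2 := JS.sub_up_mem l (x + un μ)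
      rw [e1] at e2
      have g2 := cmb_nr η0 (sh_up (fun e he => g e (lbox_mono (by omega) he)) μ) e2
      rw [Ms.sh_gauge, Ms.cmb_gauge, JS.cmb_tree hU _ _ e2, mul_one, zero_add, sub_add_cancel] at g2
      have g3 := blkN_nr η0 g z μ (o 0 z) (o _ (u1 μ))
      rw [c, gauge, up_zero, t0 0 (zero_mem_box l), one_mul, zero_add] at g3
      have g4 := (g1.right (u (x + un μ))).trans (g2.right (u (x + un μ))).symm
      have g5 := (g3.right (u (up l (un μ)))).symm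
      simp only [inv_mul_cancel_right, one_mul] at g4 g5
      refine ((g4.trans g5).trans (n (0, μ) (mem_lbox.2 z)).symm).mono ?_
      rw [L] at p ⊢
      nlinarith [mul_nonneg l0 d0, mul_nonneg l0 (mul_nonneg l0 d0)]
  · by_cases e : μ = ν
    · rw [e, Mx.fq_self]
      positivity
    have u2 : ∀ μ ν, μ ≠ ν → 0 + un μ + un ν ∈ box 1 := fun μ ν e => mem_box.2 fun i => by
      simp only [Pi.add_apply, un_apply, Pi.zero_apply]
      split_ifs <;> simp_all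
    have k1 := fq_near (n _ (mem_lbox.2 z) : Rb.Nr d (W (0, μ)) _) (n (_, ν) (mem_lbox.2 (u1 μ)))
      (n (_, μ) (mem_lbox.2 (u1 ν))) (n (_, ν) (mem_lbox.2 z))
    have k2 := fq_near (V := 1) (blkN_nr η0 g z μ (o 0 z) (o _ (u1 μ)))
      (blkN_nr η0 g (u1 μ) ν (o _ (u1 μ)) (o _ (u2 μ ν e)))
      (blkN_nr η0 g (u1 ν) μ (o _ (u1 ν)) (o _ (u2 ν μ (Ne.symm e))))
      (blkN_nr η0 g z ν (o 0 z) (o _ (u1 ν)))
    rw [c, Mx.fq_gauge, show fq 1 0 μ ν = 0 by simp [fq, hol, S3.q_one]] at k2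
    nlinarith

end Pool.Agent.Lib.MP_7f377f_mp.RG.Q4
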