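import Pool.Agent.Lib.MP_7f377f_mp.Q4LinB

/-! The invariants of the quadratic density along arbitrarily long chains of steps. -/

noncomputable section

namespace Pool.Agent.Lib.MP_7f377f_mp.RG.La.Q

open Finset Q4
open scoped Pointwise

variable {l r n R c ρ : ℕ} {cL cU c1 c2 τ η t : ℝ} {m k : BF} {s : V →ₗ[ℝ] V}

/-- lower bound with range `R` -/
def Lo (R : ℕ) (cL : ℝ) (m : BF) : Prop :=
  ∀ (a : V) (S : Finset St), ∑ x ∈ S, nd a x ≤ cL * ∑ x ∈ S + box R, m (sh x a) (sh x a)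

theorem sq_nonneg' (a : V) (x : St) : 0 ≤ ∑ μ, a (x, μ) ^ 2 := sum_nonneg fun _ _ => sq_nonneg _

theorem lw_lo (h : Lw R c1 c2 m) (h1 : 0 < c1) (h2 : 6400 * c1 ≤ c2) : Lo R (1.01 / c1) m :=
  fun a S => by
  obtain ⟨b, hb⟩ := h a S
  have h3 := sum_le_sum (s := S) fun y _ => nd_add_le b (a - b) y (show (0 : ℝ) < 100 by norm_num)
  rw [add_sub_cancel, sum_add_distrib, ← mul_sum, ← mul_sum] at h3
  have h4 := sum_nd_sq (a - b) S
  have q0 : 0 ≤ ∑ y ∈ S + box 1, ∑ μ, (a - b) (y, μ) ^ 2 := sum_nonneg fun _ _ => sq_nonneg' _ _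
  rw [div_mul_eq_mul_div, le_div_iff₀ h1]
  nlinarith [mul_le_mul_of_nonneg_right h2 q0]

theorem blk_add (hR : R ≤ 2 * l + 1) (S : Finset St) (j : ℕ) :
    Blk l (S + box j) + box R ⊆ Blk l (S + box (j + 1)) := fun x' hx' => by
  obtain ⟨x, hx, z, hz, rfl⟩ := mem_add.1 hx'
  obtain ⟨y, hy, w, hw, e⟩ := mem_add.1 (mem_Blk.1 hx)
  have e2 : x + z = x - up l (yo l x) + z + up l (yo l x) := by abel
  rw [mem_Blk, e2, yo_up_add, add_comm _ (yo l x), ← e, add_assoc y, e]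
  have h0 := yo_mem_one (l := l) (box_mono (by omega) (add_mem_box (sub_up_mem l x) hz))
  exact add_mem_add hy (add_mem_box hw h0)

theorem blk_mono {S S' : Finset St} (h : S ⊆ S') : Blk l S ⊆ Blk l S' :=
  fun _ hx => mem_Blk.2 (h (mem_Blk.1 hx))

theorem sub_add_box (S : Finset St) (j : ℕ) : S ⊆ S + box j :=
  fun x hx => mem_add.2 ⟨x, hx, 0, zero_mem_box j, add_zero x⟩

theorem add_box_box (S : Finset St) {i j k : ℕ} (h : i + j ≤ k) : S + box i + box j ⊆ S + box k := by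
  rw [add_assoc]
  exact add_subset_add_left (box_add h)

theorem lo_mn (hp : ∀ a, 0 ≤ m a a) (h : Lo R cL m) (cL1 : 1 ≤ cL) (hl : 32 ≤ l)
    (hR : R ≤ 2 * l + 1) (s : V →ₗ[ℝ] V) : Lo 2 (cL * (1 + 1 / LL l)) (mn l m s) := fun B S => by
  have hL := LL_posR l
  have hL2 : (64 : ℝ) ≤ LL l := by
    have : 64 ≤ LL l := by simp only [LL]; omega
    exact_mod_cast this
  simp only [mn_apply, mu_sh, sum_enB]
  set A := mu l s B
  have h1 := sum_le_sum (s := S) fun y _ => nd_add_le (avgA l A) (B - avgA l A) y hL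
  rw [add_sub_cancel, sum_add_distrib, ← mul_sum, ← mul_sum] at h1
  have h2 : ∑ x ∈ Blk l (S + box 1) + box R, m (sh x A) (sh x A) ≤
      ∑ x ∈ Blk l (S + box 2), m (sh x A) (sh x A) :=
    sum_le_sum_of_subset_of_nonneg (blk_add hR S 1) fun _ _ _ => hp _
  have h3 := (nd_avgA l A S).trans ((h A _).trans (mul_le_mul_of_nonneg_left h2 (by linarith)))
  have h4 : ∑ y ∈ S + box 1, ∑ μ, (B - avgA l A) (y, μ) ^ 2 ≤
      ∑ y ∈ S + box 2, ∑ μ, (B - avgA l A) (y, μ) ^ 2 :=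
    sum_le_sum_of_subset_of_nonneg (add_subset_add_left (Li.box_mono one_le_two))
      fun _ _ _ => sq_nonneg' _ _
  have h5 := (sum_nd_sq (B - avgA l A) S).trans (mul_le_mul_of_nonneg_left h4 (by norm_num))
  have q0 : 0 ≤ ∑ y ∈ S + box 2, ∑ μ, (B - avgA l A) (y, μ) ^ 2 :=
    sum_nonneg fun _ _ => sq_nonneg' _ _
  have h6 : (1 + LL l) * 64 ≤ cL * (1 + 1 / LL l) * (LL l : ℝ) ^ 2 := by
    have : cL * (1 + 1 / LL l) * (LL l : ℝ) ^ 2 = (1 + LL l) * (cL * LL l) := by field_simp; ring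
    rw [this]
    gcongr
    nlinarith
  have h7 := mul_le_mul_of_nonneg_left h3 (by positivity : 0 ≤ 1 + 1 / (LL l : ℝ))
  have h8 := mul_le_mul_of_nonneg_left h5 (by positivity : 0 ≤ 1 + (LL l : ℝ))
  have h9 := mul_le_mul_of_nonneg_right h6 q0
  linarith

/-- the averaging contracts the square norm -/
theorem sq_avgA (l : ℕ) (a : V) (S : Finset St) : (LL l : ℝ) ^ 2 * ∑ y ∈ S, ∑ μ,
    avgA l a (y, μ) ^ 2 ≤ ∑ x ∈ Blk l (S + box 1), ∑ μ, a (x, μ) ^ 2 := by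
  have hL := LL_posR l
  rw [sum_comm, sum_comm (s := Blk l _), mul_sum]
  refine sum_le_sum fun μ _ => ?_
  have h1 : ∀ y, (LL l : ℝ) ^ 2 * avgA l a (y, μ) ^ 2 ≤ (LL l : ℝ)⁻¹ *
      ∑ i ∈ range (LL l), ∑ t ∈ box l, a (up l y + t + (i : ℤ) • un μ, μ) ^ 2 := fun y => by
    have h2 := sq_sum_le_card_mul_sum_sq (s := box l ×ˢ range (LL l))
      (f := fun q => a (up l y + q.1 + (q.2 : ℤ) • un μ, μ))
    rw [sum_product, sum_product, card_product, card_range, Nat.cast_mul, card_box_LL,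
      sum_comm (t := range _) (f := fun _ _ => _ ^ 2)] at h2
    rw [Li.avgA_apply, mul_pow]
    calc _ ≤ (LL l : ℝ) ^ 2 * (((LL l : ℝ) ^ 4)⁻¹ ^ 2 * ((LL l : ℝ) ^ 4 * LL l * _)) := by gcongr
      _ = _ := by field_simp
  rw [mul_sum]
  refine (sum_le_sum fun y _ => h1 y).trans ?_
  rw [← mul_sum, sum_comm, inv_mul_le_iff₀ hL]
  refine (sum_le_card_nsmul _ _ _ fun i hi => Li.sum_blocks_le (f := fun x => a (x, μ) ^ 2)
    (fun _ => sq_nonneg _) S _ _ fun y hy t ht => ?_).trans_eq (by rw [card_range, nsmul_eq_mul])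
  have h2 : i ≤ 2 * l := by have := mem_range.1 hi; simp only [LL] at this; omega
  have h3 := blk_add (l := l) (R := 2 * l) (by omega) S 0
    (add_mem_add (mem_Blk.2 (by rw [yo_up_add' ht]; exact sub_add_box S 0 hy))
      (Li.smul_un_mem h2 μ))
  exact h3

theorem lw_mn (hp : ∀ a, 0 ≤ m a a) (h : Lw R c1 c2 m) (h1 : 0 ≤ c1) (h2 : 1 ≤ c2)
    (hR : R ≤ 2 * l + 1) (s : V →ₗ[ℝ] V) : Lw 3 c1 ((LL l : ℝ) ^ 2 / 2) (mn l m s) := fun B S => by
  simp only [mn_apply, mu_sh, sum_enB]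
  set A := mu l s B
  obtain ⟨b, hb⟩ := h A (Blk l (S + box 2))
  refine ⟨avgA l b, ?_⟩
  have k1 := (nd_avgA l b S).trans (sum_le_sum_of_subset_of_nonneg
    (blk_mono (add_subset_add_left (Li.box_mono one_le_two))) fun _ _ _ => Li.nd_nonneg b _)
  have k2 := (sq_avgA l (A - b) (S + box 1)).trans (sum_le_sum_of_subset_of_nonneg
    ((blk_mono (add_box_box S (k := 2) le_rfl)).trans (sub_add_box _ 1))
    fun _ _ _ => sq_nonneg' _ _)
  have k3 : ∑ x ∈ Blk l (S + box 2) + box R, m (sh x A) (sh x A) ≤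
      ∑ x ∈ Blk l (S + box 3), m (sh x A) (sh x A) :=
    sum_le_sum_of_subset_of_nonneg (blk_add hR S 2) fun _ _ _ => hp _
  have k4 : ∑ y ∈ S + box 1, ∑ μ, (B - avgA l A) (y, μ) ^ 2 ≤
      ∑ y ∈ S + box 3, ∑ μ, (B - avgA l A) (y, μ) ^ 2 :=
    sum_le_sum_of_subset_of_nonneg (add_subset_add_left (Li.box_mono (by norm_num)))
      fun _ _ _ => sq_nonneg' _ _
  have k5 : ∑ y ∈ S + box 1, ∑ μ, (B - avgA l b) (y, μ) ^ 2 ≤
      2 * ∑ y ∈ S + box 1, ∑ μ, (B - avgA l A) (y, μ) ^ 2 +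
        2 * ∑ y ∈ S + box 1, ∑ μ, avgA l (A - b) (y, μ) ^ 2 := by
    simp only [mul_sum, ← sum_add_distrib, map_sub, Pi.sub_apply]
    exact sum_le_sum fun y _ => sum_le_sum fun μ _ => by
      nlinarith [sq_nonneg (B (y, μ) - 2 * avgA l A (y, μ) + avgA l b (y, μ))]
  have q0 : 0 ≤ ∑ x ∈ Blk l (S + box 2) + box 1, ∑ μ, (A - b) (x, μ) ^ 2 :=
    sum_nonneg fun _ _ => sq_nonneg' _ _
  have L2 := sq_nonneg (LL l : ℝ)
  linarith [mul_le_mul_of_nonneg_left k1 h1, mul_le_mul_of_nonneg_right h2 q0,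
    mul_le_mul_of_nonneg_left k4 L2, mul_le_mul_of_nonneg_left k5 L2]

theorem sum_avB (m : BF) (ρ : ℕ) (a : V) (S : Finset St) :
    ∑ x ∈ S, avB ρ m (sh x a) (sh x a) = ((box ρ).card : ℝ)⁻¹ *
      ∑ y ∈ box ρ, ∑ x ∈ S.image (y + ·), m (sh x a) (sh x a) := by
  simp only [avB_apply, ← mul_sum, sh_sh]
  rw [sum_comm]
  congr 1
  exact sum_congr rfl fun y _ => Li.sum_shift S y fun z => m (sh z a) (sh z a)

theorem le_sum_avB (hp : ∀ a, 0 ≤ m a a) (ρ : ℕ) (a : V) (S : Finset St) :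
    ∑ x ∈ S, m (sh x a) (sh x a) ≤ ∑ x ∈ S + box ρ, avB ρ m (sh x a) (sh x a) := by
  rw [sum_avB, le_inv_mul_iff₀ (card_pos' ρ), ← nsmul_eq_mul]
  refine card_nsmul_le_sum _ _ _ fun y hy => sum_le_sum_of_subset_of_nonneg (fun x hx => ?_)
    fun _ _ _ => hp _
  exact mem_image.2 ⟨x + -y, add_mem_add hx (neg_mem_box hy), by abel⟩

theorem avB_psd (hp : ∀ a, 0 ≤ m a a) (ρ : ℕ) (a : V) : 0 ≤ avB ρ m a a := by
  rw [avB_apply]
  exact mul_nonneg (by positivity) (sum_nonneg fun _ _ => hp _)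

/-- all clauses of `Inv` except the lower bound for the average -/
theorem inv_avB (h : Inv n r cL cU m) (ρ : ℕ) {cL' : ℝ} (hl : Lo 2 cL' (avB ρ m)) :
    Inv n (r + ρ) cL' cU (avB ρ m) := by
  refine ⟨fun a b => ?_, fun a b hab => ?_, fun u b => ?_, avB_psd h.psd ρ, hl, fun a S T ha => ?_⟩
  · simp only [avB_apply, h.symm (sh _ a)]
  · have s2 : ∀ c : V, (∀ e ∈ lbox (r + ρ), c e = 0) → ∀ x ∈ box ρ, ∀ e ∈ lbox r, sh x c e = 0 :=
      fun c hc x hx e he => hc _ (mem_lbox.2 (add_mem_box (mem_lbox.1 he) hx))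
    rw [avB_apply, sum_eq_zero fun x hx => h.rng _ _ (hab.imp (s2 a · x hx) (s2 b · x hx)),
      mul_zero]
  · simp [avB_apply, sh_gr, h.gauge]
  · rw [sum_avB, inv_mul_le_iff₀ (card_pos' ρ), ← nsmul_eq_mul]
    exact sum_le_card_nsmul _ _ _ fun y _ => h.upper a _ T ha

theorem rng_mono {r' : ℕ} (h : Rng r r m) (hr : r ≤ r') : Rng r' r' m := fun a b hab =>
  h a b (hab.imp (fun h e he => h e (lbox_mono hr he)) fun h e he => h e (lbox_mono hr he))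

theorem inv_mono {r' : ℕ} {cL' cU' : ℝ} (h : Inv n r cL cU m) (h0 : r ≤ r') (h1 : cL ≤ cL')
    (h2 : cU ≤ cU') : Inv n r' cL' cU' m :=
  { h with
    rng := rng_mono h.rng h0
    lower := fun a S => (h.lower a S).trans
      (mul_le_mul_of_nonneg_right h1 (sum_nonneg fun _ _ => h.psd _))
    upper := fun a S T hT => (h.upper a S T hT).trans
      (mul_le_mul_of_nonneg_right h2 (sum_nonneg fun _ _ => Li.nd_nonneg _ _)) }

theorem lw_mono {R' : ℕ} {c1' c2' : ℝ} {m' : BF} (h : Lw R c1 c2 m) (hp : ∀ a, 0 ≤ m' a a)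
    (ht : 0 ≤ t) (hm : ∀ a, t * m a a ≤ m' a a) (hR : R ≤ R') (h1 : c1' ≤ t * c1)
    (h2 : c2' ≤ t * c2) : Lw R' c1' c2' m' := fun a S => by
  obtain ⟨b, hb⟩ := h a S
  refine ⟨b, le_trans ?_ (sum_le_sum_of_subset_of_nonneg (add_subset_add_left (Li.box_mono hR))
    fun _ _ _ => hp _)⟩
  have k1 := sum_le_sum (s := S + box R) fun x _ => hm (sh x a)
  rw [← mul_sum] at k1
  linarith [mul_le_mul_of_nonneg_left hb ht,
    mul_le_mul_of_nonneg_right h1 (sum_nonneg (s := S) fun x _ => Li.nd_nonneg b x),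
    mul_le_mul_of_nonneg_right h2 (sum_nonneg (s := S + box 1) fun x _ => sq_nonneg' (a - b) x)]

theorem lw_avB (hp : ∀ a, 0 ≤ m a a) (h : Lw R c1 c2 m) (ρ : ℕ) : Lw (ρ + R) c1 c2 (avB ρ m) :=
  fun a S => by
  obtain ⟨b, hb⟩ := h a S
  exact ⟨b, hb.trans ((le_sum_avB hp ρ a _).trans (sum_le_sum_of_subset_of_nonneg
    (add_box_box S (by omega)) fun _ _ _ => avB_psd hp ρ _))⟩

theorem pos_avB (hp : ∀ a, 0 ≤ m a a) (h : Lo 2 cL m) (h0 : 0 ≤ cL) (hρ : 2 ≤ ρ) (a : V) :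
    ∑ x ∈ box (ρ - 2), nd a x ≤ cL * (2 * ρ + 1) ^ 4 * avB ρ m a a := by
  refine (h a _).trans ?_
  have e : ((box ρ).card : ℝ) = (2 * ρ + 1) ^ 4 := by rw [card_box]; push_cast; rfl
  rw [avB_apply, mul_assoc, ← e, mul_inv_cancel_left₀ (card_pos' ρ).ne']
  exact mul_le_mul_of_nonneg_left (sum_le_sum_of_subset_of_nonneg (box_add (by omega))
    fun _ _ _ => hp _) h0

theorem cb_rng {σ : ℝ} (h : Cb R σ k) : Rng (R + 1) (R + 1) k := fun a b hab => by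
  have key : ∀ c : V, (∀ e ∈ lbox (R + 1), c e = 0) → ∀ x ∈ box R, dd c x = 0 := fun c hc x hx => by
    funext μ ν
    simpa using (sm_zero.2 hc).cv x hx μ ν
  exact hab.elim (fun h1 => cb_left h (key a h1) b) fun h1 => cb_right h (key b h1) a

/-- a dominated perturbation followed by a rescaling -/
theorem inv_dom {r' : ℕ} {σ cL' cU' : ℝ} (h : Inv n r cL cU m) (hs : ∀ a b, k a b = k b a)
    (hk : Cb R σ k) (hd : ∀ a, |k a a| ≤ η * m a a) (η0 : 0 ≤ η) (η1 : η ≤ 1) (ht : 0 ≤ t)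
    (h1 : r ≤ r') (h2 : R + 1 ≤ r') (c0 : 0 ≤ cL') (h3 : cL ≤ cL' * (t * (1 - η)))
    (h4 : t * (1 + η) * cU ≤ cU') :
    Inv n r' cL' cU' (t • (m + k)) ∧ ∀ a, t * (1 - η) * m a a ≤ (t • (m + k)) a a := by
  have e : ∀ a b, (t • (m + k)) a b = t * (m a b + k a b) := fun _ _ => rfl
  have low : ∀ a, t * (1 - η) * m a a ≤ (t • (m + k)) a a := fun a => by
    rw [e, mul_assoc]
    exact mul_le_mul_of_nonneg_left (by linarith [(abs_le.1 (hd a)).1]) ht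
  refine ⟨⟨fun a b => by rw [e, e, h.symm, hs], fun a b hab => ?_, fun u b => ?_,
    fun a => (mul_nonneg (mul_nonneg ht (by linarith)) (h.psd a)).trans (low a), fun a S => ?_,
    fun a S T ha => ?_⟩, low⟩
  · rw [e, rng_mono h.rng h1 a b hab, rng_mono (cb_rng hk) h2 a b hab]; simp
  · rw [e, h.gauge, cb_left hk fun x _ => by rw [dd_gr]; rfl]; simp
  · refine (h.lower a S).trans ((mul_le_mul_of_nonneg_right h3
      (sum_nonneg fun _ _ => h.psd _)).trans ?_)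
    rw [mul_assoc, mul_sum]
    exact mul_le_mul_of_nonneg_left (sum_le_sum fun x _ => low _) c0
  · have k1 : ∀ a, (t • (m + k)) a a ≤ t * (1 + η) * m a a := fun a => by
      rw [e, mul_assoc]
      exact mul_le_mul_of_nonneg_left (by linarith [(abs_le.1 (hd a)).2]) ht
    refine (sum_le_sum fun x _ => k1 _).trans ?_
    rw [← mul_sum]
    refine (mul_le_mul_of_nonneg_left (h.upper a S T ha) (by positivity)).trans ?_
    rw [← mul_assoc]
    exact mul_le_mul_of_nonneg_right h4 (sum_nonneg fun _ _ => Li.nd_nonneg _ _)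

theorem le_mb (hp : ∀ a, 0 ≤ mn l m s a a) (ρ : ℕ) (a : V) :
    2⁻¹ * mn l m s a a ≤ mb l ρ m s a a ∧ 2⁻¹ * avB ρ (mn l m s) a a ≤ mb l ρ m s a a := by
  rw [mb_apply]
  constructor <;> linarith [hp a, avB_psd hp ρ a]

theorem inv_mb (h : Inv n r cL cU (mn l m s)) (ρ : ℕ) {cL' : ℝ} (h0 : 0 ≤ cL')
    (hl : Lo 2 cL' (mn l m s)) : Inv n (r + ρ) (2 * cL') cU (mb l ρ m s) := by
  have r1 := rng_mono h.rng (Nat.le_add_right r ρ)
  refine ⟨fun a b => ?_, fun a b hab => ?_, fun u b => ?_, fun a => ?_, fun a S => ?_,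
    fun a S T ha => ?_⟩
  · simp only [mb_apply, avB_apply, h.symm a, h.symm (sh _ a)]
  · have s2 : ∀ c : V, (∀ e ∈ lbox (r + ρ), c e = 0) → ∀ x ∈ box ρ, ∀ e ∈ lbox r, sh x c e = 0 :=
      fun c hc x hx e he => hc _ (mem_lbox.2 (add_mem_box (mem_lbox.1 he) hx))
    rw [mb_apply, r1 a b hab, avB_apply,
      sum_eq_zero fun x hx => h.rng _ _ (hab.imp (s2 a · x hx) (s2 b · x hx))]
    simp
  · simp [mb_apply, avB_apply, sh_gr, h.gauge]
  · linarith [(le_mb h.psd ρ a).1, h.psd a]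
  · refine (hl a S).trans ?_
    have := sum_le_sum (s := S + box 2) fun x _ => (le_mb h.psd ρ (sh x a)).1
    rw [← mul_sum] at this
    nlinarith
  · have k1 := h.upper a S T ha
    have k2 : ∑ x ∈ S, avB ρ (mn l m s) (sh x (avgA n a)) (sh x (avgA n a)) ≤
        cU * ∑ x ∈ T + box 1, nd a x := by
      rw [sum_avB, inv_mul_le_iff₀ (card_pos' ρ), ← nsmul_eq_mul]
      exact sum_le_card_nsmul _ _ _ fun y _ => h.upper a _ T ha
    simp only [mb_apply, ← mul_sum, sum_add_distrib]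
    linarith

theorem lw_mb (hp : ∀ a, 0 ≤ mn l m s a a) (h : Lw R c1 c2 (mn l m s)) (ρ : ℕ) :
    Lw (ρ + R) c1 c2 (mb l ρ m s) := fun a S => by
  obtain ⟨b, hb⟩ := h a S
  have k1 := hb.trans ((le_sum_avB hp ρ a _).trans (sum_le_sum_of_subset_of_nonneg
    (add_box_box S (k := ρ + R) (by omega)) fun _ _ _ => avB_psd hp ρ _))
  have k2 := hb.trans (sum_le_sum_of_subset_of_nonneg
    (add_subset_add_left (Li.box_mono (Nat.le_add_left R ρ))) fun _ _ _ => hp _)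
  refine ⟨b, ?_⟩
  simp only [mb_apply, ← mul_sum, sum_add_distrib]
  linarith

end Pool.Agent.Lib.MP_7f377f_mp.RG.La.Q

namespace Pool.Agent.Lib.MP_7f377f_mp.RG.Q4

open Finset La La.Q
open scoped Pointwise

theorem ch_zero {r : ℕ} (hr : 1 ≤ r) {v : ℝ} (h1 : 2⁻¹ ≤ v) : Ch 0 r 2 v 0 (v • m0) := by
  have h := inv_dom (k := 0) (R := 0) (σ := 0) (η := 0) (t := v) (r' := r) (cL' := 20)
    (cU' := v * (2⁻¹ + 0)) (inv_zero r hr) (fun _ _ => rfl) (fun _ _ _ _ _ _ => by simp)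
    (fun _ => by simp) le_rfl zero_le_one (by linarith) le_rfl hr (by norm_num) (by linarith)
    (by linarith)
  rw [add_zero m0] at h
  have e : ∀ a x, (v • m0) (sh x a) (sh x a) = v * 2⁻¹ * nd a x := fun a x => by
    rw [mul_assoc, ← Li.m0_sh]; rfl
  refine ⟨h.1, fun a S => ⟨a, ?_⟩, fun a _ => by simp, fun a => ?_⟩
  · simp only [e, ← mul_sum, sub_self, Pi.zero_apply, sub_zero]
    simpa using mul_le_mul_of_nonneg_left (sum_le_sum_of_subset_of_nonneg (sub_add_box S (2 + 3))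
      fun x _ _ => Li.nd_nonneg a x) (by linarith : 0 ≤ v * 2⁻¹)
  · have := e a 0
    rw [Li.sh_zero] at this
    rw [this, show box (2 - 2) = {0} by ext; simp [Li.mem_box, funext_iff], sum_singleton]
    push_cast
    nlinarith [Li.nd_nonneg a 0]

theorem Ch.mono {n r r' ρ : ℕ} {v e e' : ℝ} {m : BF} (h : Ch n r ρ v e m) (hv : 0 ≤ v)
    (hr : r ≤ r') (he : e ≤ e') : Ch n r' ρ v e' m :=
  ⟨inv_mono h.inv hr le_rfl (by nlinarith), lw_mono h.lw h.inv.psd zero_le_one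
    (fun _ => (one_mul _).le) le_rfl (by nlinarith) (one_mul _).ge,
    fun a ha => (h.cc a ha).trans (mul_le_mul_of_nonneg_right (by nlinarith) (Li.nd_nonneg _ _)),
    h.pos⟩

theorem ch_step (c : ℕ) : ∃ c1 : ℕ, ∀ (l r n ρ ρ' : ℕ) (τ cL v e σ lam : ℝ) (m k : BF)
    (s : V →ₗ[ℝ] V), c1 ≤ l → ρ + 3 ≤ l → 2 ≤ ρ' → 0 ≤ τ → 0 ≤ σ → 2⁻¹ ≤ v → v ≤ 2 →
    2⁻¹ ≤ lam * v → 0 ≤ e → e + (LL l : ℝ) ^ c1 * τ + 100 * (2 * ρ' + 1) ^ 4 * σ ≤ 100⁻¹ →
    Ch n (3 * r) ρ v e m → Lin l r c τ m s →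
    Inv (2 * n * l + n + l) r cL (v * (2⁻¹ + e) + τ) (mn l m s) →
    (∀ a b, k a b = k b a) → Cb (ρ' - 2) σ k →
      Ch (2 * n * l + n + l) (r + ρ') ρ' (lam * v)
        (e + (LL l : ℝ) ^ c1 * τ + 100 * (2 * ρ' + 1) ^ 4 * σ) (lam • (mb l ρ' m s + k)) := by
  obtain ⟨c2, H⟩ := lin_cc c
  refine ⟨c2 + 1000, fun l r n ρ ρ' τ cL v e σ lam m k s hl hρ hρ' t0 s0 v1 v2 v3 e0 he h hm hn
    hs hk => ?_⟩
  have hL : ((1000 : ℕ) : ℝ) ≤ LL l := LL_ge (by omega)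
  push_cast at hL
  have L1 : (1 : ℝ) ≤ LL l := by linarith
  obtain ⟨w, hw⟩ : ∃ w : ℝ, w = (2 * ρ' + 1) ^ 4 := ⟨_, rfl⟩
  have w1 : 1 ≤ w := hw ▸ one_le_pow₀ (by linarith [(ρ'.cast_nonneg : (0 : ℝ) ≤ ρ')])
  obtain ⟨A, hA⟩ : ∃ A : ℝ, A = (LL l : ℝ) ^ (c2 + 1000) * τ := ⟨_, rfl⟩
  rw [← hw, ← hA] at he ⊢
  have A1 : 4 * ((LL l : ℝ) ^ c2 * τ) ≤ A := by
    rw [hA, ← mul_assoc, pow_add, mul_comm 4]
    gcongr
    exact le_trans (by linarith) (le_self_pow₀ L1 (by norm_num))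
  have A2 : τ ≤ (LL l : ℝ) ^ c2 * τ := le_mul_of_one_le_left t0 (one_le_pow₀ L1)
  have ws : 0 ≤ w * σ := by positivity
  have l0 : 4⁻¹ ≤ lam := by nlinarith
  have v0 : 0 < v := by linarith
  have c0 : 0 < v * (2⁻¹ - e) := mul_pos v0 (by linarith)
  have c3 : 0.24 ≤ v * (2⁻¹ - e) := by nlinarith
  have c4 : v * (2⁻¹ - e) ≤ 1 := by nlinarith
  have k1 := lo_mn h.inv.psd (lw_lo h.lw c0 (by linarith)) ((one_le_div c0).2 (by linarith))
    (l := l) (by omega) (by omega) s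
  obtain ⟨q, hq⟩ : ∃ q, q = 1.01 / (v * (2⁻¹ - e)) * (1 + 1 / LL l) := ⟨_, rfl⟩
  rw [← hq] at k1
  have q0 : 0 ≤ q := by rw [hq]; positivity
  have q1 : q * (v * (2⁻¹ - e)) ≤ 1.02 := by
    have : (1 : ℝ) / LL l ≤ 1 / 1000 := one_div_le_one_div_of_le (by norm_num) hL
    rw [hq, mul_right_comm, div_mul_cancel₀ _ c0.ne']
    linarith
  have q2 : q ≤ 5 := by nlinarith
  have k2 := inv_mb hn ρ' q0 k1
  have k3 := lw_mb hn.psd (lw_mn h.inv.psd h.lw c0.le (by norm_num) (l := l) (by omega) s) ρ'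
  have k4 : ∀ a, ∑ x ∈ box (ρ' - 2), nd a x ≤ 2 * q * w * mb l ρ' m s a a := fun a => by
    have := pos_avB hn.psd k1 q0 hρ' a
    rw [← hw] at this
    nlinarith [mul_le_mul_of_nonneg_left (le_mb hn.psd ρ' a).2 (by positivity : 0 ≤ q * w)]
  have k5 : ∀ a, |k a a| ≤ 10 * (w * σ) * mb l ρ' m s a a := fun a => by
    have := hk _ _ _ _ (cv_sqrt_box _ a) (cv_sqrt_box _ a)
    rw [mul_assoc, Real.mul_self_sqrt (sum_nonneg fun _ _ => Li.nd_nonneg _ _)] at this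
    refine this.trans ((mul_le_mul_of_nonneg_left (k4 a) s0).trans ?_)
    nlinarith [mul_le_mul_of_nonneg_right q2 (mul_nonneg ws (k2.psd a))]
  have q3 : 2 * q ≤ 20 * (lam * (1 - 10 * (w * σ))) := by
    have z1 : q * v ≤ 2.1 := by nlinarith [mul_nonneg q0 v0.le]
    have z2 : 0.49 ≤ lam * v * (1 - 10 * (w * σ)) := by nlinarith
    refine le_of_mul_le_mul_right ?_ v0
    nlinarith
  obtain ⟨k6, k7⟩ := inv_dom (r' := r + ρ') (cL' := 20) (t := lam)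
    (cU' := lam * v * (2⁻¹ + (e + A + 100 * w * σ))) k2 hs hk k5 (by positivity) (by linarith)
    (by linarith) le_rfl (by omega) (by norm_num) q3 (by
      rw [mul_assoc lam, mul_assoc lam]
      refine mul_le_mul_of_nonneg_left ?_ (by linarith)
      have z1 : τ ≤ v * (A / 2) := by nlinarith
      have z2 : v * (2⁻¹ + e) + τ ≤ v * (2⁻¹ + e + A / 2) := by linarith
      have z3 : (1 + 10 * (w * σ)) * (2⁻¹ + e + A / 2) ≤ 2⁻¹ + (e + A + 100 * w * σ) := by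
        nlinarith
      calc _ ≤ (1 + 10 * (w * σ)) * (v * (2⁻¹ + e + A / 2)) := by gcongr
        _ = v * ((1 + 10 * (w * σ)) * (2⁻¹ + e + A / 2)) := by ring
        _ ≤ _ := by gcongr)
  have t1 : 0.2 ≤ lam * (1 - 10 * (w * σ)) := by nlinarith
  refine ⟨k6, lw_mono k3 k6.psd (by linarith) k7 le_rfl ?_ ?_, fun a ha => ?_, fun a => ?_⟩
  · have z3 : 2⁻¹ - (e + A + 100 * w * σ) ≤ (1 - 10 * (w * σ)) * (2⁻¹ - e) := by nlinarith
    calc _ ≤ lam * v * ((1 - 10 * (w * σ)) * (2⁻¹ - e)) := by gcongr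
      _ = _ := by ring
  · nlinarith
  · have n0 := Li.nd_nonneg a 0
    have z1 := abs_le.1 (h.cc a ha)
    have z2 := abs_le.1 ((H l r τ m s (by omega) t0 (by linarith) hm).2 ρ' a ha)
    have z3 := abs_le.1 (cb_cst hk ha)
    have e1 : (lam • (mb l ρ' m s + k)) a a - ((lam * v) • m0) a a =
        lam * (mb l ρ' m s a a + k a a - (v • m0) a a) := by
      simp only [LinearMap.smul_apply, LinearMap.add_apply, smul_eq_mul]
      ring
    rw [e1, abs_mul, abs_of_nonneg (by linarith : 0 ≤ lam), mul_assoc lam, mul_assoc lam]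
    refine mul_le_mul_of_nonneg_left ?_ (by linarith)
    have z4 : (LL l : ℝ) ^ c2 * τ + σ ≤ v * (A + 100 * w * σ) := by
      nlinarith [mul_le_mul_of_nonneg_right w1 s0]
    have z5 := mul_le_mul_of_nonneg_right z4 n0
    rw [abs_le]
    constructor <;> linarith [z1.1, z1.2, z2.1, z2.2, z3.1, z3.2]
  · rw [← hw]
    refine (k4 a).trans ?_
    nlinarith [mul_le_mul_of_nonneg_right q3 (mul_nonneg (by linarith : 0 ≤ w) (k2.psd a)),
      mul_le_mul_of_nonneg_left (k7 a) (by linarith : 0 ≤ w)]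

end Pool.Agent.Lib.MP_7f377f_mp.RG.Q4
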