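import Pool.Agent.Lib.MP_7f377f_mp.RGDefs

/-! Quaternion algebra: charts, adjoint action, real elements. -/

noncomputable section

namespace Pool.Agent.Lib.MP_7f377f_mp.RG

open Finset
open scoped Quaternion

/-- unit gauge transformations -/
def Uni (h : Hc) : Prop := h * star h = 1

theorem Uni.star_mul {h : Hc} (hh : Uni h) : star h * h = 1 := by
  rw [star_comm_self']
  exact hh

theorem Uni.star {h : Hc} (hh : Uni h) : Uni (star h) := by
  rw [Uni, star_star]
  exact hh.star_mul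

theorem Uni.mul {g h : Hc} (hg : Uni g) (hh : Uni h) : Uni (g * h) := by
  rw [Uni, StarMul.star_mul, mul_assoc, ← mul_assoc h, hh, one_mul, hg]

theorem uni_one : Uni 1 := by simp [Uni]

@[simp] theorem io_re (b : C3) : (io b).re = 0 := rfl
@[simp] theorem io_imI (b : C3) : (io b).imI = b 0 := rfl
@[simp] theorem io_imJ (b : C3) : (io b).imJ = b 1 := rfl
@[simp] theorem io_imK (b : C3) : (io b).imK = b 2 := rfl
@[simp] theorem co_zero' (q : Hc) : co q 0 = q.imI := rfl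
@[simp] theorem co_one' (q : Hc) : co q 1 = q.imJ := rfl
@[simp] theorem co_two' (q : Hc) : co q 2 = q.imK := rfl

theorem c3_ext {a b : C3} (h0 : a 0 = b 0) (h1 : a 1 = b 1) (h2 : a 2 = b 2) : a = b := by
  funext k
  fin_cases k
  exacts [h0, h1, h2]

/-- `io` as a linear map -/
def ioL : C3 →L[ℂ] Hc := LinearMap.toContinuousLinearMap
  { toFun := io
    map_add' := fun a b => by ext <;> simp
    map_smul' := fun a b => by ext <;> simp }

/-- `co` as a linear map -/
def coL : Hc →L[ℂ] C3 := LinearMap.toContinuousLinearMap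
  { toFun := co
    map_add' := fun a b => c3_ext (by simp) (by simp) (by simp)
    map_smul' := fun a b => c3_ext (by simp) (by simp) (by simp) }

/-- the scalar part as a linear map -/
def reL : Hc →L[ℂ] ℂ := LinearMap.toContinuousLinearMap
  { toFun := fun q => q.re
    map_add' := fun a b => by simp
    map_smul' := fun a b => by simp }

/-- conjugation as a linear map -/
def stL : Hc →L[ℂ] Hc := LinearMap.toContinuousLinearMap
  { toFun := star
    map_add' := star_add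
    map_smul' := fun a b => Quaternion.star_smul a b }

instance : CompleteSpace Hc := FiniteDimensional.complete ℂ Hc

theorem io_add (a b : C3) : io (a + b) = io a + io b := ioL.map_add a b
theorem io_sub (a b : C3) : io (a - b) = io a - io b := ioL.map_sub a b
theorem io_neg (a : C3) : io (-a) = -io a := ioL.map_neg a
theorem io_smul (c : ℂ) (a : C3) : io (c • a) = c • io a := ioL.map_smul c a
@[simp] theorem io_zero : io 0 = 0 := ioL.map_zero
theorem co_add (a b : Hc) : co (a + b) = co a + co b := coL.map_add a b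
theorem co_sub (a b : Hc) : co (a - b) = co a - co b := coL.map_sub a b
theorem co_smul (c : ℂ) (a : Hc) : co (c • a) = c • co a := coL.map_smul c a
@[simp] theorem co_io (b : C3) : co (io b) = b := c3_ext rfl rfl rfl
@[simp] theorem co_one : co 1 = 0 := c3_ext rfl rfl rfl
@[simp] theorem co_zero : co 0 = 0 := c3_ext rfl rfl rfl
theorem co_star (q : Hc) : co (star q) = -co q := c3_ext rfl rfl rfl
theorem star_io (b : C3) : star (io b) = -io b := by ext <;> simp
theorem re_add_io (q : Hc) : q.re • (1 : Hc) + io (co q) = q := by ext <;> simp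

theorem norm_io (b : C3) : ‖io b‖ ≤ 3 * ‖b‖ := by
  have := norm_le_pi_norm b 0
  have := norm_le_pi_norm b 1
  have := norm_le_pi_norm b 2
  simp only [norm_Hc, io_re, io_imI, io_imJ, io_imK, norm_zero]
  linarith

theorem norm_re (q : Hc) : ‖q.re‖ ≤ ‖q‖ := by
  rw [norm_Hc]
  linarith [norm_nonneg q.imI, norm_nonneg q.imJ, norm_nonneg q.imK]

theorem norm_co (q : Hc) : ‖co q‖ ≤ ‖q‖ := by
  refine (pi_norm_le_iff_of_nonneg (norm_nonneg _)).2 fun k => ?_
  have := norm_nonneg q.re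
  have := norm_nonneg q.imI
  have := norm_nonneg q.imJ
  have := norm_nonneg q.imK
  rw [norm_Hc]
  fin_cases k <;> simp <;> linarith

theorem dot_def (a b : C3) : dot a b = a 0 * b 0 + a 1 * b 1 + a 2 * b 2 := Fin.sum_univ_three _
theorem dot_comm (a b : C3) : dot a b = dot b a := by simp only [dot_def]; ring
theorem dot_add (a b c : C3) : dot a (b + c) = dot a b + dot a c := by simp [dot_def]; ring
theorem add_dot (a b c : C3) : dot (a + b) c = dot a c + dot b c := by simp [dot_def]; ring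
theorem dot_smul (t : ℂ) (a b : C3) : dot a (t • b) = t * dot a b := by simp [dot_def]; ring
theorem smul_dot (t : ℂ) (a b : C3) : dot (t • a) b = t * dot a b := by simp [dot_def]; ring
@[simp] theorem dot_zero (a : C3) : dot a 0 = 0 := by simp [dot]
@[simp] theorem zero_dot (a : C3) : dot 0 a = 0 := by simp [dot]

theorem norm_dot (a b : C3) : ‖dot a b‖ ≤ 3 * ‖a‖ * ‖b‖ := by
  refine (norm_sum_le _ _).trans ((sum_le_card_nsmul _ _ (‖a‖ * ‖b‖) fun k _ => ?_).trans_eq
    (by simp [mul_assoc]))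
  rw [norm_mul]
  exact mul_le_mul (norm_le_pi_norm a k) (norm_le_pi_norm b k) (norm_nonneg _) (norm_nonneg _)

theorem dot_cE (u v : E3) : dot (cE u) (cE v) = ((inner ℝ u v : ℝ) : ℂ) := by
  simp [dot, cE, PiLp.inner_apply, mul_comm]

theorem dot_cE_self (v : E3) : dot (cE v) (cE v) = ((‖v‖ ^ 2 : ℝ) : ℂ) := by
  rw [dot_cE, real_inner_self_eq_norm_sq]

theorem norm_cE (v : E3) : ‖cE v‖ ≤ ‖v‖ ∧ ‖v‖ ≤ 2 * ‖cE v‖ := by
  constructor
  · exact (pi_norm_le_iff_of_nonneg (norm_nonneg _)).2 fun k => by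
      simpa [cE] using PiLp.norm_apply_le v k
  · have := norm_dot (cE v) (cE v)
    rw [dot_cE_self, Complex.norm_real, Real.norm_of_nonneg (sq_nonneg _)] at this
    nlinarith [norm_nonneg v, norm_nonneg (cE v)]

theorem cE_add (u v : E3) : cE (u + v) = cE u + cE v := by funext k; simp [cE]
theorem cE_smul (t : ℝ) (v : E3) : cE (t • v) = (t : ℂ) • cE v := by funext k; simp [cE]
@[simp] theorem cE_zero : cE 0 = 0 := by funext k; simp [cE]
theorem cE_inj {u v : E3} (h : cE u = cE v) : u = v := by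
  ext k
  exact Complex.ofReal_injective (congrFun h k)

theorem exists_cE {b : C3} (h : ∀ k, (b k).im = 0) : ∃ v, cE v = b :=
  ⟨WithLp.toLp 2 fun k => (b k).re, funext fun k => Complex.ext rfl (by simp [cE, h])⟩

@[simp] theorem cq_re (q : ℍ) : (cq q).re = q.re := rfl
@[simp] theorem cq_imI (q : ℍ) : (cq q).imI = q.imI := rfl
@[simp] theorem cq_imJ (q : ℍ) : (cq q).imJ = q.imJ := rfl
@[simp] theorem cq_imK (q : ℍ) : (cq q).imK = q.imK := rfl
theorem cq_mul (p q : ℍ) : cq (p * q) = cq p * cq q := by ext <;> simp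
theorem cq_add (p q : ℍ) : cq (p + q) = cq p + cq q := by ext <;> simp
theorem cq_sub (p q : ℍ) : cq (p - q) = cq p - cq q := by ext <;> simp
theorem cq_smul (t : ℝ) (q : ℍ) : cq (t • q) = (t : ℂ) • cq q := by
  ext <;> simp [-Complex.coe_smul]
theorem cq_star (q : ℍ) : cq (star q) = star (cq q) := by ext <;> simp
theorem cq_one : cq 1 = 1 := by ext <;> simp
theorem cq_zero : cq 0 = 0 := by ext <;> simp
theorem cq_sum {ι : Type} (s : Finset ι) (f : ι → ℍ) : cq (∑ i ∈ s, f i) = ∑ i ∈ s, cq (f i) := by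
  induction s using Finset.cons_induction with
  | empty => simp [cq_zero]
  | cons a s h ih => rw [sum_cons, sum_cons, cq_add, ih]
theorem cq_inj {p q : ℍ} (h : cq p = cq q) : p = q := by
  ext <;> apply Complex.ofReal_injective
  exacts [congrArg (·.re) h, congrArg (·.imI) h, congrArg (·.imJ) h, congrArg (·.imK) h]

theorem S3.ext {g h : S3} (e : g.q = h.q) : g = h := Subtype.ext e
theorem S3.norm_q (g : S3) : ‖g.q‖ = 1 := mem_sphere_zero_iff_norm.1 g.2
theorem S3.q_mul (g h : S3) : (g * h).q = g.q * h.q := rfl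
theorem S3.q_one : (1 : S3).q = 1 := rfl
theorem S3.normSq_q (g : S3) : Quaternion.normSq g.q = 1 := by
  rw [Quaternion.normSq_eq_norm_mul_self, g.norm_q, one_mul]
theorem S3.q_inv (g : S3) : g⁻¹.q = star g.q := by
  have : g.q * star g.q = 1 := by rw [Quaternion.self_mul_star, g.normSq_q]; rfl
  rw [← mul_one g⁻¹.q, ← this, ← mul_assoc, ← S3.q_mul, inv_mul_cancel, S3.q_one, one_mul]
theorem S3.continuous_q : Continuous S3.q := continuous_subtype_val

theorem S3.norm_mul_sub (g h : S3) : ‖(g * h).q - 1‖ ≤ ‖g.q - 1‖ + ‖h.q - 1‖ := by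
  have : (g * h).q - 1 = (g.q - 1) + g.q * (h.q - 1) := by rw [S3.q_mul]; noncomm_ring
  rw [this]
  exact (norm_add_le _ _).trans (by rw [norm_mul, g.norm_q, one_mul])

theorem S3.norm_inv_sub (g : S3) : ‖g⁻¹.q - 1‖ = ‖g.q - 1‖ := by
  rw [S3.q_inv, ← norm_star, star_sub, star_star, star_one]

theorem S3.norm_conj_sub (u g : S3) : ‖(u * g * u⁻¹).q - 1‖ = ‖g.q - 1‖ := by
  have : (u * g * u⁻¹).q - 1 = u.q * (g.q - 1) * u⁻¹.q := by
    rw [mul_sub, sub_mul, mul_one, ← S3.q_mul u u⁻¹, mul_inv_cancel]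
    rfl
  rw [this, norm_mul, norm_mul, u.norm_q, u⁻¹.norm_q, one_mul, mul_one]

theorem S3.norm_sub (g h : S3) : ‖g.q - h.q‖ = ‖(g * h⁻¹).q - 1‖ := by
  have : g.q - h.q = ((g * h⁻¹).q - 1) * h.q := by
    rw [sub_mul, one_mul, ← S3.q_mul, inv_mul_cancel_right]
  rw [this, norm_mul, h.norm_q, mul_one]

theorem cS_mul (g h : S3) : cS (g * h) = cS g * cS h := cq_mul _ _
theorem cS_inv (g : S3) : cS g⁻¹ = star (cS g) := by rw [cS, S3.q_inv, cq_star, cS]
theorem cS_one : cS 1 = 1 := cq_one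
theorem uni_cS (g : S3) : Uni (cS g) := by rw [Uni, ← cS_inv, ← cS_mul, mul_inv_cancel, cS_one]
theorem cS_inj {g h : S3} (e : cS g = cS h) : g = h := S3.ext (cq_inj e)

theorem norm_q_sq (q : ℍ) : ‖q‖ ^ 2 = q.re ^ 2 + q.imI ^ 2 + q.imJ ^ 2 + q.imK ^ 2 := by
  rw [sq, ← Quaternion.normSq_eq_norm_mul_self, Quaternion.normSq_def']

theorem norm_cq (q : ℍ) : ‖q‖ ≤ ‖cq q‖ ∧ ‖cq q‖ ≤ 2 * ‖q‖ := by
  have h := norm_q_sq q
  have e : ‖cq q‖ = |q.re| + |q.imI| + |q.imJ| + |q.imK| := by simp [norm_Hc]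
  rw [← sq_abs q.re, ← sq_abs q.imI, ← sq_abs q.imJ, ← sq_abs q.imK] at h
  rw [e]
  generalize hq : ‖q‖ = n at *
  have n0 : 0 ≤ n := hq ▸ norm_nonneg q
  have a0 := abs_nonneg q.re
  have a1 := abs_nonneg q.imI
  have a2 := abs_nonneg q.imJ
  have a3 := abs_nonneg q.imK
  generalize |q.re| = a, |q.imI| = b, |q.imJ| = c, |q.imK| = d at *
  constructor
  · refine (abs_le_of_sq_le_sq' ?_ (by positivity)).2
    nlinarith [mul_nonneg a0 a1, mul_nonneg a0 a2, mul_nonneg a0 a3, mul_nonneg a1 a2,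
      mul_nonneg a1 a3, mul_nonneg a2 a3]
  · refine (abs_le_of_sq_le_sq' ?_ (by positivity)).2
    nlinarith [sq_nonneg (a - b), sq_nonneg (a - c), sq_nonneg (a - d), sq_nonneg (b - c),
      sq_nonneg (b - d), sq_nonneg (c - d)]

theorem norm_co_cq (q : ℍ) : ‖co (cq q)‖ ≤ ‖q‖ := by
  refine (pi_norm_le_iff_of_nonneg (norm_nonneg _)).2 fun k => ?_
  have h := norm_q_sq q
  have := sq_nonneg q.re
  have := sq_nonneg q.imI
  have := sq_nonneg q.imJ
  have := sq_nonneg q.imK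
  fin_cases k <;> simp <;> refine abs_le.2 (abs_le_of_sq_le_sq' ?_ (norm_nonneg _)) <;> linarith

theorem abs_re_le (q : ℍ) : |q.re| ≤ ‖q‖ := by
  have h := norm_q_sq q
  refine abs_le.2 (abs_le_of_sq_le_sq' ?_ (norm_nonneg _))
  nlinarith [sq_nonneg q.imI, sq_nonneg q.imJ, sq_nonneg q.imK]

theorem io_adq (h : Hc) (b : C3) : io (adq h b) = h * io b * star h := by
  ext <;> simp [adq]
  ring

theorem adq_mul (g h : Hc) (b : C3) : adq (g * h) b = adq g (adq h b) := by
  rw [adq, adq, io_adq, star_mul]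
  simp only [mul_assoc]

theorem adq_one (b : C3) : adq 1 b = b := by simp [adq]

theorem adq_add (h : Hc) (a b : C3) : adq h (a + b) = adq h a + adq h b := by
  simp only [adq, io_add, mul_add, add_mul, co_add]

theorem adq_smul (h : Hc) (t : ℂ) (a : C3) : adq h (t • a) = t • adq h a := by
  simp only [adq, io_smul, mul_smul_comm, smul_mul_assoc, co_smul]

@[simp] theorem adq_zero (h : Hc) : adq h 0 = 0 := by simp [adq]

/-- the adjoint action as a linear map -/
def adL (h : Hc) : C3 →ₗ[ℂ] C3 := ⟨⟨adq h, adq_add h⟩, adq_smul h⟩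

theorem adq_sub (h : Hc) (a b : C3) : adq h (a - b) = adq h a - adq h b := (adL h).map_sub a b

theorem adq_sum (h : Hc) {ι : Type} (s : Finset ι) (f : ι → C3) :
    adq h (∑ i ∈ s, f i) = ∑ i ∈ s, adq h (f i) := map_sum (adL h) f s

theorem dot_adq (h : Hc) (a b : C3) : dot (adq h a) b = dot a (adq (star h) b) := by
  simp [dot_def, adq]
  ring

theorem adq_star_adq {h : Hc} (hh : Uni h) (b : C3) : adq (star h) (adq h b) = b := by
  rw [← adq_mul, hh.star_mul, adq_one]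

theorem dot_adq_adq {h : Hc} (hh : Uni h) (a b : C3) : dot (adq h a) (adq h b) = dot a b := by
  rw [dot_adq, adq_star_adq hh]

theorem conj_eq {h : Hc} (hh : Uni h) (q : Hc) :
    h * q * star h = q.re • (1 : Hc) + io (adq h (co q)) := by
  conv_lhs => rw [← re_add_io q]
  rw [io_adq, mul_add, add_mul, mul_smul_comm, smul_mul_assoc, mul_one, hh]

theorem ch_conj {h : Hc} (hh : Uni h) (q : Hc) : ch (h * q * star h) = adq h (ch q) := by
  rw [conj_eq hh, ch, ch, adq_smul, co_add, co_smul]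
  simp

theorem ex_adq {h : Hc} (hh : Uni h) (b : C3) : ex (adq h b) = h * ex b * star h := by
  rw [ex, ex, dot_adq_adq hh, io_adq, mul_smul_comm, smul_mul_assoc, mul_add, add_mul, mul_one, hh]

theorem norm_adq_sub {h : Hc} {δ : ℝ} (hh : ‖h - 1‖ ≤ δ) (h1 : δ ≤ 1) (b : C3) :
    ‖adq h b - b‖ ≤ 10 * δ * ‖b‖ := by
  have e : adq h b - b = co ((h - 1) * io b * (star (h - 1) + 1) + io b * star (h - 1)) := by
    conv_lhs => rw [adq, ← co_io b, ← co_sub, co_io]
    congr 1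
    rw [star_sub, star_one]
    noncomm_ring
  have h2 : ‖star (h - 1)‖ ≤ δ := (norm_star_Hc _).trans_le hh
  have h3 : ‖star (h - 1) + 1‖ ≤ 2 := (norm_add_le _ _).trans (by rw [norm_one]; linarith)
  have h0 : 0 ≤ δ := (norm_nonneg _).trans hh
  have h4 := norm_io b
  have h5 := norm_nonneg b
  rw [e]
  refine (norm_co _).trans ((norm_add_le _ _).trans ?_)
  have a1 : ‖(h - 1) * io b * (star (h - 1) + 1)‖ ≤ δ * (3 * ‖b‖) * 2 :=
    (norm_mul_le _ _).trans (mul_le_mul ((norm_mul_le _ _).trans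
      (mul_le_mul hh h4 (norm_nonneg _) h0)) h3 (norm_nonneg _) (by positivity))
  have a2 : ‖io b * star (h - 1)‖ ≤ 3 * ‖b‖ * δ :=
    (norm_mul_le _ _).trans (mul_le_mul h4 h2 (norm_nonneg _) (by positivity))
  nlinarith [mul_nonneg h0 h5]

theorem adq_real (q : ℍ) {b : C3} (hb : ∀ k, (b k).im = 0) (k : Fin 3) :
    (adq (cq q) b k).im = 0 := by
  fin_cases k <;> simp [adq, hb]

theorem exists_rot (g : S3) : ∃ T : E3 ≃ₗᵢ[ℝ] E3, ∀ v, cE (T v) = adq (cS g) (cE v) := by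
  choose T hT using fun v : E3 => exists_cE (adq_real g.q (b := cE v) fun k => by simp [cE])
  let T' : E3 →ₗᵢ[ℝ] E3 :=
    { toFun := T
      map_add' := fun u v => cE_inj (by rw [cE_add, hT, hT, hT, cE_add, adq_add])
      map_smul' := fun t v => cE_inj (by rw [RingHom.id_apply, cE_smul, hT, hT, cE_smul, adq_smul])
      norm_map' := fun v => by
        have := dot_adq_adq (uni_cS g) (cE v) (cE v)
        rw [cS, ← hT, dot_cE_self, dot_cE_self, Complex.ofReal_inj] at this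
        exact (pow_left_inj₀ (norm_nonneg _) (norm_nonneg _) two_ne_zero).1 this }
  exact ⟨T'.toLinearIsometryEquiv rfl, hT⟩

theorem cpow_real {x : ℝ} (hx : 0 ≤ x) : (x : ℂ) ^ (-2⁻¹ : ℂ) = (((√x)⁻¹ : ℝ) : ℂ) := by
  rw [Real.sqrt_eq_rpow, ← Real.rpow_neg hx, Complex.ofReal_cpow hx]
  simp

theorem ex_cE (v : E3) : ex (cE v) = (((√(1 + ‖v‖ ^ 2))⁻¹ : ℝ) : ℂ) • (1 + io (cE v)) := by
  rw [ex, dot_cE_self, ← cpow_real (by positivity)]
  simp

theorem ex_real (v : E3) : ∃ g : S3, cS g = ex (cE v) ∧ 0 < g.q.re := by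
  have h : 0 < √(1 + ‖v‖ ^ 2) := Real.sqrt_pos.2 (by positivity)
  have h2 : √(1 + ‖v‖ ^ 2) ^ 2 = 1 + ‖v‖ ^ 2 := Real.sq_sqrt (by positivity)
  set q : ℍ := ⟨1, v 0, v 1, v 2⟩ with hq
  have n : ‖q‖ = √(1 + ‖v‖ ^ 2) := by
    refine (pow_left_inj₀ (norm_nonneg _) h.le two_ne_zero).1 ?_
    rw [h2, norm_q_sq, EuclideanSpace.real_norm_sq_eq, Fin.sum_univ_three]
    simp [hq, add_assoc]
  refine ⟨(⟨(√(1 + ‖v‖ ^ 2))⁻¹ • q, ?_⟩ : Metric.sphere (0 : ℍ) 1), ?_, ?_⟩
  · rw [mem_sphere_zero_iff_norm, norm_smul, n, Real.norm_of_nonneg (inv_pos.2 h).le,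
      inv_mul_cancel₀ h.ne']
  · rw [ex_cE]
    refine (cq_smul _ _).trans ?_
    congr 1
    ext <;> simp [cE] <;> rfl
  · exact mul_pos (inv_pos.2 h) one_pos

theorem ch_smul {c : ℂ} (hc : c ≠ 0) (q : Hc) : ch (c • q) = ch q := by
  rw [ch, ch, co_smul, smul_smul, Quaternion.re_smul, smul_eq_mul, mul_inv, mul_right_comm,
    inv_mul_cancel₀ hc, one_mul]

theorem ch_ex' {b : C3} (h : 1 + dot b b ≠ 0) : ch (ex b) = b := by
  rw [ex, ch_smul (Complex.cpow_ne_zero_iff.2 (.inl h)), ch, co_add]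
  simp

theorem ch_ex (v : E3) : ch (ex (cE v)) = cE v := ch_ex' (by
  rw [dot_cE_self, ← Complex.ofReal_one, ← Complex.ofReal_add, Complex.ofReal_ne_zero]
  positivity)

theorem ch_real (q : ℍ) (k : Fin 3) : (ch (cq q) k).im = 0 := by
  fin_cases k <;> simp [ch, ← Complex.ofReal_inv]

theorem ex_ch {g : S3} (hg : 0 < g.q.re) : ex (ch (cS g)) = cS g := by
  have h := norm_q_sq g.q
  rw [g.norm_q] at h
  have r0 : (g.q.re : ℂ) ≠ 0 := Complex.ofReal_ne_zero.2 hg.ne'
  have e : 1 + dot (ch (cS g)) (ch (cS g)) = ((g.q.re⁻¹ ^ 2 : ℝ) : ℂ) := by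
    have := congrArg (fun x : ℝ => (x : ℂ)) h
    simp [dot_def, ch, cS] at this ⊢
    field_simp
    linear_combination -this
  rw [ex, e, cpow_real (by positivity), Real.sqrt_sq (by positivity), inv_inv, ch, io_smul,
    smul_add, smul_smul, cS, cq_re, mul_inv_cancel₀ r0, one_smul]
  exact re_add_io (cq g.q)

@[simp] theorem ex_zero : ex 0 = 1 := by simp [ex]
@[simp] theorem ch_one : ch 1 = 0 := by simp [ch]

theorem ch_coe (c : ℂ) : ch (c : Hc) = 0 := by
  rw [ch, show co (c : Hc) = 0 from c3_ext rfl rfl rfl, smul_zero]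

theorem uni_ex {b : C3} (h : 1 + dot b b ≠ 0) : Uni (ex b) := by
  have e : (1 + io b) * star (1 + io b) = (1 + dot b b) • (1 : Hc) := by
    ext <;> simp [dot_def] <;> ring
  rw [Uni, ex, Quaternion.star_smul, smul_mul_smul_comm, e, smul_smul, ← Complex.cpow_add _ _ h,
    show (-2⁻¹ + -2⁻¹ : ℂ) = -1 by norm_num, Complex.cpow_neg_one, inv_mul_cancel₀ h, one_smul]

theorem star_ex (b : C3) : star (ex b) = ex (-b) := by
  rw [ex, ex, Quaternion.star_smul, star_add, star_one, star_io, io_neg]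
  simp [dot]

theorem norm_cpow_sub {w : ℂ} (h : ‖w‖ ≤ 1 / 2) : ‖(1 + w) ^ (-2⁻¹ : ℂ) - 1‖ ≤ 2 * ‖w‖ := by
  set t := (1 + w) ^ (2⁻¹ : ℂ) with ht
  have t2 : t ^ 2 = 1 + w := Complex.cpow_ofNat_inv_pow _ 2
  have t0 : 0 ≤ t.re := by rw [ht, Complex.cpow_inv_two_re]; positivity
  have n1 : 1 / 2 ≤ ‖t‖ ^ 2 := by
    have := norm_sub_norm_le (1 : ℂ) (-w)
    rw [norm_one, norm_neg, sub_neg_eq_add, ← t2, norm_pow] at this
    linarith
  have n2 : 1 / 2 ≤ ‖t‖ := by nlinarith [norm_nonneg t]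
  have n3 : 1 ≤ ‖t + 1‖ := le_trans (by simpa using t0) (Complex.re_le_norm _)
  have tn : t ≠ 0 := norm_pos_iff.1 (by linarith)
  have e : (t⁻¹ - 1) * (t * (t + 1)) = -w := by
    field_simp
    linear_combination -t2
  have := congrArg norm e
  rw [norm_mul, norm_mul, norm_neg] at this
  rw [Complex.cpow_neg, ← ht, ← this]
  have : 1 / 2 * 1 ≤ ‖t‖ * ‖t + 1‖ := mul_le_mul n2 n3 zero_le_one (norm_nonneg _)
  nlinarith [norm_nonneg (t⁻¹ - 1)]

theorem ex_near {b : C3} {δ : ℝ} (h : ‖b‖ ≤ δ) (h1 : δ ≤ 1 / 100) :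
    ‖ex b - 1 - io b‖ ≤ 10 * δ ^ 2 := by
  have b0 := norm_nonneg b
  have h2 : ‖dot b b‖ ≤ 3 * δ ^ 2 := (norm_dot b b).trans (by nlinarith)
  have h3 := norm_cpow_sub (w := dot b b) (by nlinarith)
  have h4 : ‖1 + io b‖ ≤ 3 / 2 := (norm_add_le _ _).trans (by rw [norm_one]; linarith [norm_io b])
  have e : ex b - 1 - io b = ((1 + dot b b) ^ (-2⁻¹ : ℂ) - 1) • (1 + io b) := by
    rw [ex, sub_smul, one_smul, sub_sub]
  rw [e, norm_smul]
  exact (mul_le_mul (h3.trans (by linarith : _ ≤ 6 * δ ^ 2)) h4 (norm_nonneg _)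
    (by positivity)).trans (by nlinarith [sq_nonneg δ])

theorem ch_near {W : Hc} {w : C3} {η : ℝ} (h : ‖W - 1 - io w‖ ≤ η) (h1 : η ≤ 1 / 3)
    (h2 : ‖w‖ ≤ 1) : W.re ≠ 0 ∧ ‖ch W - w‖ ≤ 3 * η := by
  set E := W - 1 - io w with hE
  have e1 : W.re = 1 + E.re := by simp [hE]
  have e2 : co W = w + co E := by simp [hE, co_sub]
  have a1 := (norm_re E).trans h
  have a2 := (norm_co E).trans h
  have n : 2 / 3 ≤ ‖W.re‖ := by
    have := norm_sub_norm_le (1 : ℂ) (-E.re)
    rw [norm_one, norm_neg, sub_neg_eq_add, ← e1] at this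
    linarith
  have r0 : W.re ≠ 0 := norm_pos_iff.1 (by linarith)
  have e3 : W.re • (ch W - w) = co E - E.re • w := by
    rw [smul_sub, ch, smul_smul, mul_inv_cancel₀ r0, one_smul, e2, e1, add_smul, one_smul]
    abel
  have e4 := congrArg norm e3
  have a3 := norm_sub_le (co E) (E.re • w)
  rw [norm_smul] at e4 a3
  have η0 : 0 ≤ η := (norm_nonneg _).trans h
  refine ⟨r0, ?_⟩
  nlinarith [norm_nonneg (ch W - w), mul_le_mul a1 h2 (norm_nonneg _) η0]

end Pool.Agent.Lib.MP_7f377f_mp.RG
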