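import Pool.Agent.Lib.MP_7f377f_mp.RGStep0
import Pool.Agent.Lib.MP_7f377f_mp.RGAp1

/-! Regrouping of the exponent in the renormalisation step. -/

noncomputable section

namespace Pool.Agent.Lib.MP_7f377f_mp.RG

open Finset

namespace SX

theorem Bx_sh' (x y : St) (U : Cf) : Bx x (sh y U) = Bx (x + y) U := by
  funext e
  simp only [Bx, sh_sh]

theorem Us_sh' (D : Dat) (y : St) (W : Cf) : D.Us (sh y W) = sh (up D.l y) (D.Us W) := by
  funext f
  simp only [Dat.Us, sh, Bx_sh']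
  rw [add_right_comm f.1 (up D.l y), yo_add_up, yo_add_up, up_add]
  simp only [add_left_inj, add_sub_add_right_eq_sub]

theorem Uz_sh (D : Dat) (y : St) (W : Cf) (A : Fld) :
    D.Uz (sh y W) (sh (up D.l y) A) = sh (up D.l y) (D.Uz W A) := by
  funext f
  simp only [Dat.Uz, Us_sh']
  rfl

theorem Ay_zero_sh (D : Dat) (y : St) (W : Cf) (A : Fld) :
    D.Ay 0 (sh y W) (sh (up D.l y) A) = D.Ay y W A := by
  simp only [Dat.Ay, up_zero, sh_zero]

theorem cC_sh (y : St) (W : Conf) : cC (sh y W) = sh y (cC W) := rfl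

theorem per_cC {n : ℕ} {W : Conf} (h : Per n W) : Per n (cC W) := fun μ => by
  rw [← cC_sh, h μ]

theorem per_Us (D : Dat) {n : ℕ} {W : Cf} (h : Per n W) : Per (LL D.l * n) (D.Us W) :=
  per_of_smul fun v => by rw [← up_smul, ← Us_sh', per_smul h]

theorem per_Uz (D : Dat) {n : ℕ} {W : Cf} {A : Fld} (h : Per n W) (hA : Per (LL D.l * n) A) :
    Per (LL D.l * n) (D.Uz W A) :=
  per_of_smul fun v => by rw [← up_smul, ← Uz_sh, per_smul h, up_smul, per_smul hA]

theorem Bx_per {n : ℕ} {U : Cf} (h : Per n U) (x v : St) : Bx (x + (n : ℤ) • v) U = Bx x U := by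
  rw [← Bx_sh', per_smul h]

theorem cx_form_add (m k : BF) (A B : Fld) : cx (m + k) A B = cx m A B + cx k A B := by
  simp only [cx, LinearMap.add_apply, ← sum_add_distrib]
  refine sum_congr rfl fun i _ => ?_
  push_cast
  ring

theorem cx_form_smul (c : ℝ) (m : BF) (A B : Fld) : cx (c • m) A B = c * cx m A B := by
  simp only [cx, LinearMap.smul_apply, smul_eq_mul, mul_sum]
  refine sum_congr rfl fun i _ => ?_
  push_cast
  ring

theorem cx_add_left (m : BF) (A A' B : Fld) : cx m (A + A') B = cx m A B + cx m A' B := by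
  have h1 : ∀ k, reF (A + A') k = reF A k + reF A' k := fun k => rfl
  have h2 : ∀ k, imF (A + A') k = imF A k + imF A' k := fun k => rfl
  simp only [cx, h1, h2, map_add, LinearMap.add_apply, ← sum_add_distrib]
  refine sum_congr rfl fun i _ => ?_
  push_cast
  ring

theorem cx_zero_left (m : BF) (B : Fld) : cx m 0 B = 0 := by
  have h1 : ∀ k, reF 0 k = 0 := fun k => rfl
  have h2 : ∀ k, imF 0 k = 0 := fun k => rfl
  simp [cx, h1, h2]

theorem cx_sum_left (m : BF) {ι : Type} (s : Finset ι) (A : ι → Fld) (B : Fld) :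
    cx m (∑ i ∈ s, A i) B = ∑ i ∈ s, cx m (A i) B := by
  induction s using Finset.cons_induction with
  | empty => simp [cx_zero_left]
  | cons a s ha ih => rw [sum_cons, sum_cons, cx_add_left, ih]

theorem cx_congr_left {m : BF} {r r' : ℕ} (hm : Rng r r' m) {A A' : Fld} (h : Agr r A A')
    (B : Fld) : cx m A B = cx m A' B := by
  have key : ∀ a a' b : V, (∀ e ∈ lbox r, a e = a' e) → m a b = m a' b := by
    intro a a' b h
    have := hm (a - a') b (.inl fun e he => by simp [h e he])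
    rwa [map_sub, LinearMap.sub_apply, sub_eq_zero] at this
  have h1 : ∀ k b, m (reF A k) b = m (reF A' k) b := fun k b =>
    key _ _ _ fun e he => by simp only [reF, h e he]
  have h2 : ∀ k b, m (imF A k) b = m (imF A' k) b := fun k b =>
    key _ _ _ fun e he => by simp only [imF, h e he]
  simp only [cx, h1, h2]

theorem cx_smul_smul (m : BF) (g : ℝ) (A B : Fld) :
    cx m ((g : ℂ) • A) ((g : ℂ) • B) = (g : ℂ) ^ 2 * cx m A B := by
  have h1 : ∀ (A : Fld) k, reF ((g : ℂ) • A) k = g • reF A k := fun A k => by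
    funext e; simp [reF]
  have h2 : ∀ (A : Fld) k, imF ((g : ℂ) • A) k = g • imF A k := fun A k => by
    funext e; simp [imF]
  simp only [cx, h1, h2, map_smul, LinearMap.smul_apply, smul_eq_mul, mul_sum]
  refine sum_congr rfl fun i _ => ?_
  push_cast
  ring

theorem sum_cut (l : ℕ) (h : St → Hc) (A : Fld) : Agr (3 * l + 1)
    (∑ y ∈ box 2, adF h fun e => if (e.1 + up l y, e.2) ∈ lbox l then A e else 0) (adF h A) := by
  intro e he
  have h1 : yo l e.1 ∈ box 2 := by
    refine yo_mem_box (mem_box.mpr fun i => ?_)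
    have := mem_box.mp (mem_lbox.mp he) i
    simp only [fb, LL] at this ⊢
    push_cast at this ⊢
    omega
  rw [Finset.sum_apply, sum_eq_single (-yo l e.1)]
  · have : e.1 + up l (-yo l e.1) ∈ box l := by
      have := sub_up_mem l e.1
      rwa [sub_eq_add_neg, up, ← smul_neg] at this
    simp only [adF, mem_lbox, if_pos this]
  · intro y _ hy
    have : e.1 + up l y ∉ box l := fun h => hy (by
      have := yo_box h
      rw [yo_add_up] at this
      exact eq_neg_of_add_eq_zero_right this)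
    simp only [adF, mem_lbox, if_neg this, adq_zero]
  · intro hn
    refine absurd (mem_box.mpr fun i => ?_) hn
    have := mem_box.mp h1 i
    simp only [Pi.neg_apply]
    omega

theorem sum_e2 {D : Dat} {r : ℕ} (hx : Rng (3 * D.l + 1) r (xx D.l D.mm D.s)) {n : ℕ} (hn : 0 < n)
    {W : Cf} {A : Fld} (hW : Per n W) (hA : Per (LL D.l * n) A) :
    ∑ y ∈ cube n, D.e2 (sh y W) (sh (up D.l y) A) =
      ∑ y ∈ cube n, 2 * D.β * cx (xx D.l D.mm D.s) (D.Ay y W A) (Bx y W) := by
  set H : St → St → ℂ := fun Y y => cx (xx D.l D.mm D.s)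
    (adF (fun x => cmb star (sh Y W) (yo D.l x))
      fun e => if (e.1 + up D.l y, e.2) ∈ lbox D.l then sh (up D.l Y) A e else 0) (Bx Y W) with hH
  have h1 : ∀ y, D.e2 (sh y W) (sh (up D.l y) A) = 2 * D.β * ∑ y' ∈ box 2, H (y + y') y' := by
    intro y
    have e1 : ∀ y', sh (up D.l y') (cut D.l (sh (up D.l y) A)) = fun e =>
        if (e.1 + up D.l y', e.2) ∈ lbox D.l then sh (up D.l (y' + y)) A e else 0 := by
      intro y'
      funext e
      simp only [sh, cut, up_add, add_assoc]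
    simp only [Dat.e2, hH, Dat.Ay, sh_sh, Bx_sh', add_comm y, e1]
  have h2 : ∀ y' Y v, H (Y + (n : ℤ) • v) y' = H Y y' := by
    intro y' Y v
    simp only [hH, per_sh hW, Bx_per hW, up_add, up_smul, per_sh hA]
  simp only [h1, ← mul_sum]
  congr 1
  rw [sum_comm, sum_congr rfl fun y' _ => sum_shift hn (f := fun Y => H Y y') (h2 y') y', sum_comm]
  refine sum_congr rfl fun Y _ => ?_
  simp only [hH]
  rw [← cx_sum_left]
  exact cx_congr_left hx (sum_cut _ _ _) _

theorem sum_act1 (D : Dat) {n : ℕ} (hn : 0 < n) {U : Cf} (hU : Per (LL D.l * n) U) :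
    ∑ y ∈ cube n, ∑ x ∈ box D.l, D.act1 (sh (up D.l y) U) x =
      ∑ x ∈ cube (LL D.l * n), (cx D.m (Bx x U) (Bx x U) + cx D.k (Bx x U) (Bx x U)) := by
  have hL : 0 < LL D.l * n := Nat.mul_pos (Nat.succ_pos _) hn
  have h1 : ∀ y x, D.act1 (sh (up D.l y) U) x = D.act1 U (x + up D.l y) := by
    intro y x
    simp only [Dat.act1, Bx_sh', add_right_comm x (up D.l y)]
  have h2 : ∀ x v, D.act1 U (x + ((LL D.l * n : ℕ) : ℤ) • v) = D.act1 U x := by
    intro x v
    simp only [Dat.act1, add_right_comm x (((LL D.l * n : ℕ) : ℤ) • v), Bx_per hU]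
  simp only [h1]
  rw [← sum_blocks D.l hn h2]
  simp only [Dat.act1, cx_form_add, cx_form_smul, sum_add_distrib, ← mul_sum]
  rw [sum_comm, sum_congr rfl fun x' _ => sum_shift hL
    (f := fun x => cx D.m (Bx x U) (Bx x U)) (fun x v => by simp only [Bx_per hU]) x',
    sum_const, nsmul_eq_mul]
  have hc : ((box (D.r + 2)).card : ℂ) ≠ 0 := by
    rw [card_box]
    exact Nat.cast_ne_zero.mpr (by positivity)
  push_cast
  field_simp
  ring

end SX

open SX

/-- regrouping of the exponent -/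
theorem exponent {D : Dat} {c R : ℕ} {τ ρ κ : ℝ} (h : D.Ok c τ R ρ κ) (n : ℕ) (hn : 0 < n)
    (W U : Conf) (A : Fld) (hW : Per n W) (hA : Per (LL D.l * n) A) (hU : cC U = D.Uz (cC W) A) :
    act D.β D.m (fun B => D.ψ B + D.β * cx D.k B B) (LL D.l * n) U +
      D.β * LL D.l ^ 2 * ∑ b ∈ lcube n, (dot (D.res (sh b.1 (cC W)) (sh (up D.l b.1) (cC U)) b.2)
        (D.res (sh b.1 (cC W)) (sh (up D.l b.1) (cC U)) b.2)).re =
    ∑ y ∈ cube n, (D.β * cx (hh D.l D.mm) (D.Ay y (cC W) A) (D.Ay y (cC W) A) +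
      D.β * cx (mn D.l D.mm D.s) (Bx y (cC W)) (Bx y (cC W)) +
      ∑ x ∈ box D.l, D.ψ (Bx x (D.Us (sh y (cC W)))) +
      D.e1 (sh y (cC W)) (sh (up D.l y) A) + D.e2 (sh y (cC W)) (sh (up D.l y) A) +
      D.e3 (sh y (cC W)) (sh (up D.l y) A)).re := by
  have hW' := per_cC hW
  have hP : Per (LL D.l * n) (cC U) := hU ▸ per_Uz D hW' hA
  have h1 := sum_e2 h.lin.xx_rng hn hW' hA
  have h2 := sum_act1 D hn hP
  have h3 := sum_blocks D.l hn (f := fun x => D.ψ (Bx x (cC U))) fun x v => by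
    simp only [Bx_per hP]
  have key : ∑ x ∈ cube (LL D.l * n), (D.β * cx D.m (Bx x (cC U)) (Bx x (cC U)) +
      (D.ψ (Bx x (cC U)) + D.β * cx D.k (Bx x (cC U)) (Bx x (cC U)))) +
      ((D.β * LL D.l ^ 2 : ℝ) : ℂ) * ∑ b ∈ lcube n,
        dot (D.res (sh b.1 (cC W)) (sh (up D.l b.1) (cC U)) b.2)
          (D.res (sh b.1 (cC W)) (sh (up D.l b.1) (cC U)) b.2) =
      ∑ y ∈ cube n, (D.β * cx (hh D.l D.mm) (D.Ay y (cC W) A) (D.Ay y (cC W) A) +
      D.β * cx (mn D.l D.mm D.s) (Bx y (cC W)) (Bx y (cC W)) +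
      ∑ x ∈ box D.l, D.ψ (Bx x (D.Us (sh y (cC W)))) +
      D.e1 (sh y (cC W)) (sh (up D.l y) A) + D.e2 (sh y (cC W)) (sh (up D.l y) A) +
      D.e3 (sh y (cC W)) (sh (up D.l y) A)) := by
    simp only [sum_add_distrib] at h2 ⊢
    rw [h1, h3, lcube, sum_product]
    simp only [Dat.e1, Dat.e3, Uz_sh, ← hU, Ay_zero_sh, Bx_sh', zero_add, sum_sub_distrib,
      sum_add_distrib, ← mul_sum, h2]
    push_cast
    ring
  rw [act, ← Complex.re_sum, ← Complex.re_sum, ← Complex.re_sum, ← key, Complex.add_re,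
    Complex.re_ofReal_mul]

end Pool.Agent.Lib.MP_7f377f_mp.RG
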