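import Pool.Agent.Lib.MP_7f377f_mp.RGAp3
import Pool.Agent.Lib.MP_7f377f_mp.RGLinInv
import Pool.Agent.Lib.MP_7f377f_mp.RGStep1

/-! Level zero of the renormalisation group. -/

noncomputable section

namespace Pool.Agent.Lib.MP_7f377f_mp.RG.JT

open Finset MeasureTheory
open scoped Quaternion ENNReal Pointwise

attribute [local irreducible] box lbox

theorem zero_lbox (r : ℕ) (κ : Fin 4) : ((0 : St), κ) ∈ lbox r := mem_lbox.2 (zero_mem_box r)

theorem un_lbox (κ κ' : Fin 4) : ((0 : St) + un κ, κ') ∈ lbox 1 := by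
  rw [mem_lbox, zero_add]
  exact un_mem_box κ

theorem cg_sub {W : Type} [AddCommGroup W] (a b : Lk → W) : cg (a - b) = cg a - cg b := by
  rw [eq_sub_iff_add_eq, ← cg_add, sub_add_cancel]

theorem cg_loc {W : Type} [NormedAddCommGroup W] {R : ℕ} {a b : Lk → W}
    (h : ∀ x ∈ box R, ∀ μ ν, dd a x μ ν = dd b x μ ν) : Agr R (cg a) (cg b) := by
  intro e he
  have := Sm_cg (R := R) (δ := 0) (a := a - b) (fun x hx μ ν => by simp [dd_sub, h x hx]) e he
  rwa [mul_zero, cg_sub, norm_le_zero_iff, Pi.sub_apply, sub_eq_zero] at this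

theorem cx_m0 (B : Fld) : cx m0 B B = ∑ μ, ∑ ν, 2⁻¹ * dot (dd B 0 μ ν) (dd B 0 μ ν) := by
  have h1 : ∀ k μ ν, dd (reF B k) 0 μ ν = (dd B 0 μ ν k).re := fun k μ ν => by simp [dd, reF]
  have h2 : ∀ k μ ν, dd (imF B k) 0 μ ν = (dd B 0 μ ν k).im := fun k μ ν => by simp [dd, imF]
  simp only [cx, m0, LinearMap.mk₂_apply, h1, h2, dot, mul_sum]
  rw [show (∑ μ : Fin 4, ∑ ν : Fin 4, ∑ k, (2⁻¹ : ℂ) * (dd B 0 μ ν k * dd B 0 μ ν k)) =
    ∑ k, ∑ μ : Fin 4, ∑ ν : Fin 4, (2⁻¹ : ℂ) * (dd B 0 μ ν k * dd B 0 μ ν k) by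
      simp only [sum_comm (γ := Fin 3)]]
  refine sum_congr rfl fun k _ => ?_
  push_cast
  simp only [← sum_add_distrib, ← sum_sub_distrib, sum_mul]
  refine sum_congr rfl fun μ _ => sum_congr rfl fun ν _ => ?_
  conv_rhs => rw [← Complex.re_add_im (dd B 0 μ ν k)]
  linear_combination (-2⁻¹ * ((dd B 0 μ ν k).im : ℂ) ^ 2) * Complex.I_mul_I

theorem hol_agr {α : Type} [Monoid α] (iv : α → α) {U U' : Lk → α} (h : Agr 1 U U') (μ ν : Fin 4) :
    hol iv U 0 μ ν = hol iv U' 0 μ ν := by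
  have h0 : ∀ κ, U (0, κ) = U' (0, κ) := fun κ => h _ (zero_lbox 1 κ)
  have h1 : ∀ κ κ', U (0 + un κ, κ') = U' (0 + un κ, κ') := fun κ κ' =>
    h _ (un_lbox κ κ')
  simp only [hol, h0, h1]

theorem hol_cC (U : Conf) (x : St) (μ ν : Fin 4) :
    hol star (cC U) x μ ν = cS (hol Inv.inv U x μ ν) := by
  simp only [hol, cC, cS_mul, cS_inv]

theorem hol_sh {α : Type} [Monoid α] (iv : α → α) (U : Lk → α) (y x : St) (μ ν : Fin 4) :
    hol iv (sh y U) x μ ν = hol iv U (x + y) μ ν := by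
  simp only [hol, sh, add_right_comm x _ y]

theorem curvG_sh {δ : ℝ} {U : Conf} (h : curvG δ U) (y : St) : curvG δ (sh y U) :=
  fun x μ ν => by rw [hol_sh]; exact h _ _ _

theorem curvG_mono {δ δ' : ℝ} {U : Conf} (h : curvG δ U) (hδ : δ ≤ δ') : curvG δ' U :=
  fun x μ ν => (h x μ ν).trans hδ

theorem hol_gauge (h : St → S3) (U : Conf) (x : St) (μ ν : Fin 4) :
    hol Inv.inv (gauge Inv.inv h U) x μ ν = h x * hol Inv.inv U x μ ν * (h x)⁻¹ := by
  simp only [hol, gauge, add_right_comm x (un ν) (un μ)]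
  group

/-- the non quadratic part of the Wilson action -/
def phi0 (β : ℝ) (B : Fld) : ℂ :=
  β * ∑ μ, ∑ ν, (1 - (hol star (exF (cg B)) 0 μ ν).re) - β * cx m0 B B

theorem cubic {h : Hc} (hu : Uni h) {d : C3} {ρ η : ℝ} (hd : ‖d‖ ≤ ρ) (he : ‖h - 1 - io d‖ ≤ η) :
    ‖1 - h.re - 2⁻¹ * dot d d‖ ≤ 3 * ρ * η + 2 * η ^ 2 := by
  set E := h - 1 - io d with hE
  have e0 : h = E + 1 + io d := by rw [hE]; abel
  have e1 : h.re ^ 2 + dot (co h) (co h) = 1 := by
    have := congrArg (·.re) hu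
    simp only [Quaternion.re_mul, Quaternion.re_star, Quaternion.imI_star, Quaternion.imJ_star,
      Quaternion.imK_star, Quaternion.re_one] at this
    simp only [dot_def, co_zero', co_one', co_two']
    linear_combination this
  have e2 : h.re = E.re + 1 := by rw [e0]; simp
  have e3 : co h = co E + d := by rw [e0, co_add, co_add]; simp
  have e4 : 1 - h.re - 2⁻¹ * dot d d =
      dot (co E) d + 2⁻¹ * dot (co E) (co E) + 2⁻¹ * E.re ^ 2 := by
    rw [e3, add_dot, dot_add, dot_add, dot_comm d (co E)] at e1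
    rw [e2] at e1 ⊢
    linear_combination (-2⁻¹ : ℂ) * e1
  have n1 := (norm_co E).trans he
  have n2 := (norm_re E).trans he
  have n3 := norm_dot (co E) d
  have n4 := norm_dot (co E) (co E)
  have a0 := norm_nonneg (co E)
  have a1 := norm_nonneg d
  have a2 := norm_nonneg E.re
  rw [e4]
  refine norm_add₃_le.trans ?_
  simp only [norm_mul, norm_pow, norm_inv, Complex.norm_ofNat]
  have : ‖co E‖ * ‖d‖ ≤ η * ρ := mul_le_mul n1 hd a1 (a0.trans n1)
  nlinarith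

theorem phi0_tm {β ρ : ℝ} (hβ : 0 ≤ β) (h1 : ρ ≤ 1 / 10 ^ 5) {r : ℕ} (hr : 1 ≤ r) :
    Tm r ρ (10 ^ 8 * β * ρ ^ 3) (phi0 β) := by
  have sm : ∀ B : Fld, Cv r ρ B → Sm 1 (3 * ρ) (cg B) := fun B hB => by
    simpa using Sm_cg (hB.mono hr le_rfl)
  have m0 : ∀ κ : Fin 4, ((0 : St), κ) ∈ lbox 1 := zero_lbox 1
  have m1 : ∀ κ κ' : Fin 4, ((0 : St) + un κ, κ') ∈ lbox 1 := un_lbox
  refine ⟨fun A B h => ?_, fun Ω γ _ hγ hc => ?_, fun B hB => ?_, ?_, fun h B => ?_,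
    fun B hB => ?_⟩
  · have h2 : Agr 1 (exF (cg A)) (exF (cg B)) := fun e he =>
      congrArg ex (cg_loc h e (lbox_mono hr he))
    simp only [phi0, cx_m0, hol_agr star h2, h 0 (zero_mem_box r)]
  · have h2 : ∀ e ∈ lbox 1, DifferentiableOn ℂ (fun t => exF (cg (γ t)) e) Ω := fun e he =>
      diff_ex (hγ.cg e) fun t ht => (sm _ (hc t ht) e he).trans (by linarith)
    have h3 : ∀ e ∈ lbox 1, DifferentiableOn ℂ (fun t => star (exF (cg (γ t)) e)) Ω := fun e he =>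
      stL.differentiable.comp_differentiableOn (h2 e he)
    have h4 : ∀ μ ν, DifferentiableOn ℂ (fun t => (hol star (exF (cg (γ t))) 0 μ ν).re) Ω :=
      fun μ ν => reL.differentiable.comp_differentiableOn
        ((((h2 _ (m0 μ)).mul (h2 _ (m1 μ ν))).mul (h3 _ (m1 ν μ))).mul (h3 _ (m0 ν)))
    have h5 : ∀ e k, DifferentiableOn ℂ (fun t => γ t e k) Ω := fun e =>
      differentiableOn_pi.1 (hγ e)
    simp only [phi0, cx_m0, dot_def, dd, Pi.add_apply, Pi.sub_apply]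
    fun_prop
  · have r0 := hB.nonneg
    have u : ∀ e ∈ lbox 1, Uni (exF (cg B) e) := fun e he =>
      uni_ex (Complex.slitPlane_ne_zero (one_add_dot_mem ((sm B hB e he).trans (by linarith))))
    have key : ∀ μ ν, ‖1 - (hol star (exF (cg B)) 0 μ ν).re -
        2⁻¹ * dot (dd B 0 μ ν) (dd B 0 μ ν)‖ ≤ 10 ^ 6 * ρ ^ 3 := fun μ ν => by
      have h2 := hol_ap (Ap_exF (sm B hB) (by linarith)) (by nlinarith) (by linarith) μ ν
      rw [dd_cg] at h2
      refine (cubic ((((u _ (m0 μ)).mul (u _ (m1 μ ν))).mul (u _ (m1 ν μ)).star).mul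
        (u _ (m0 ν)).star) (hB 0 (zero_mem_box r) μ ν) h2).trans ?_
      have : ρ ^ 4 ≤ ρ ^ 3 / 10 ^ 5 := by nlinarith [pow_nonneg r0 3]
      nlinarith [pow_nonneg r0 3]
    rw [phi0, cx_m0, ← mul_sub, ← sum_sub_distrib, norm_mul, Complex.norm_real,
      Real.norm_of_nonneg hβ, mul_comm _ β, mul_assoc]
    refine mul_le_mul_of_nonneg_left ((norm_sum_le_of_le _ fun μ _ =>
      (?_ : _ ≤ 4 * (10 ^ 6 * ρ ^ 3))).trans ?_) hβ
    · rw [← sum_sub_distrib]
      exact (norm_sum_le_of_le _ fun ν _ => key μ ν).trans (by simp)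
    · simp only [sum_const, card_univ, Fintype.card_fin, nsmul_eq_mul, Nat.cast_ofNat]
      nlinarith [pow_nonneg r0 3]
  · have : cg (0 : Fld) = 0 := cg_eq_self fun _ _ _ => rfl
    simp [phi0, this, hol, exF]
  · have h2 : cg (adF (fun _ => cS h) B) = adF (fun _ => cS h) (cg B) :=
      cg_map (adL (cS h)).toAddMonoidHom B
    have h3 : ∀ μ ν, hol star (exF (adF (fun _ => cS h) (cg B))) 0 μ ν =
        cS h * hol star (exF (cg B)) 0 μ ν * star (cS h) := fun μ ν => by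
      have e : ∀ q : Hc, star (cS h) * (cS h * q) = q := fun q => by
        rw [← mul_assoc, (uni_cS h).star_mul, one_mul]
      simp only [hol, exF, adF, ex_adq (uni_cS h), star_mul, star_star, mul_assoc, e]
    simp only [phi0, h2, h3, cx_adF _ (inv_zero 1 le_rfl).rng (uni_cS h), conj_eq (uni_cS h)]
    simp
  · have h2 : ∀ e, ∃ g : S3, cS g = ex (cg B e) := fun e => by
      obtain ⟨v, hv⟩ := exists_cE (b := cg B e) fun k => by
        simp [cg, gr, lam, pr, hB _ k]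
      exact hv ▸ (ex_real v).imp fun _ h => h.1
    choose U hU using h2
    have h3 : exF (cg B) = cC U := funext fun e => (hU e).symm
    simp [phi0, h3, hol_cC, cx_real _ hB hB, cS]

theorem norm_sub_sq (g : S3) : ‖g.q - 1‖ ^ 2 = 2 * (1 - g.q.re) := by
  have h := norm_q_sq g.q
  rw [g.norm_q] at h
  rw [norm_q_sq]
  simp only [Quaternion.re_sub, Quaternion.imI_sub, Quaternion.imJ_sub, Quaternion.imK_sub,
    Quaternion.re_one, Quaternion.imI_one, Quaternion.imJ_one, Quaternion.imK_one]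
  linarith

theorem wil_eq (n : ℕ) (U : Conf) :
    wil n U = 12 * n ^ 4 - ∑ x ∈ cube n, ∑ μ, ∑ ν, (1 - (hol Inv.inv U x μ ν).q.re) := by
  have h : ∀ x, ∑ μ, ∑ ν, (if μ < ν then 2 * (hol Inv.inv U x μ ν).q.re else 0) =
      12 - ∑ μ, ∑ ν, (1 - (hol Inv.inv U x μ ν).q.re) := fun x => by
    have h1 : ∀ μ, (hol Inv.inv U x μ μ).q.re = 1 := fun μ => by
      simp [hol, S3.q_one]
    have h2 : ∀ μ ν, (hol Inv.inv U x μ ν).q.re = (hol Inv.inv U x ν μ).q.re := fun μ ν => by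
      have : hol Inv.inv U x μ ν = (hol Inv.inv U x ν μ)⁻¹ := by simp only [hol]; group
      rw [this, S3.q_inv, Quaternion.re_star]
    simp only [Fin.sum_univ_four, h1, h2 1 0, h2 2 0, h2 3 0, h2 2 1, h2 3 1, h2 3 2]
    simp
    ring
  simp only [wil, h, sum_sub_distrib, sum_const, card_cube, nsmul_eq_mul]
  push_cast
  ring

theorem act_zero (β : ℝ) (n : ℕ) {δ : ℝ} {U : Conf} (h : curvG δ U) (hδ : 2000 * δ ≤ 1) :
    act β m0 (phi0 β) n U = 12 * β * n ^ 4 - β * wil n U := by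
  rw [wil_eq, act, mul_sub, mul_sum]
  have : ∀ x, (β * cx m0 (Bx x (cC U)) (Bx x (cC U)) + phi0 β (Bx x (cC U))).re =
      β * ∑ μ, ∑ ν, (1 - (hol Inv.inv U x μ ν).q.re) := fun x => by
    have h2 := (real_fix (R := 1) (curvG_sh h x) (by norm_num; linarith)).1
    have h3 : Bx x (cC U) = Bx 0 (cC (sh x U)) := by rw [SX.cC_sh, Bx_sh, zero_add]
    rw [phi0, add_sub_cancel, h3, cg_Bx]
    simp only [← hol_agr star h2, hol_cC, hol_gauge, cmb_zero, hol_sh]
    simp [cS]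
  simp only [this]
  ring

theorem sum_cube_ge {n : ℕ} (hn : 0 < n) {f : St → ℝ} (hf : ∀ x v, f (x + (n : ℤ) • v) = f x)
    (h0 : ∀ x, 0 ≤ f x) (x : St) : f x ≤ ∑ y ∈ cube n, f y := by
  rw [SX.md_eq n x, hf]
  exact single_le_sum (fun y _ => h0 y) (SX.md_mem hn x)

theorem wil_bad {n : ℕ} (hn : 0 < n) {δ : ℝ} (h0 : 0 ≤ δ) {U : Conf} (hU : Per n U)
    (h : ¬ curvG δ U) : wil n U ≤ 12 * n ^ 4 - δ ^ 2 / 2 := by
  simp only [curvG, not_forall, not_le] at h
  obtain ⟨x, μ, ν, h⟩ := h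
  have p : ∀ g : S3, 0 ≤ 1 - g.q.re := fun g => by nlinarith [norm_sub_sq g]
  have h1 := sum_cube_ge hn (f := fun x => ∑ μ, ∑ ν, (1 - (hol Inv.inv U x μ ν).q.re))
    (fun x v => by simp only [← hol_sh, hU.sh_smul])
    (fun x => sum_nonneg fun _ _ => sum_nonneg fun _ _ => p _) x
  have h2 := single_le_sum (f := fun μ => ∑ ν, (1 - (hol Inv.inv U x μ ν).q.re))
    (fun _ _ => sum_nonneg fun _ _ => p _) (mem_univ μ)
  have h3 := single_le_sum (f := fun ν => 1 - (hol Inv.inv U x μ ν).q.re) (fun _ _ => p _)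
    (mem_univ ν)
  have h4 := norm_sub_sq (hol Inv.inv U x μ ν)
  rw [wil_eq]
  nlinarith

end Pool.Agent.Lib.MP_7f377f_mp.RG.JT
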