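import Pool.Agent.Lib.MP_7f377f_mp.RGModel

/-! Haar measure of the unit quaternions in the gnomonic chart; the noise kernel. -/

noncomputable section

namespace Pool.Agent.Lib.MP_7f377f_mp.RG

open MeasureTheory Measure Set
open scoped Quaternion ENNReal

namespace Ms

theorem q_mul (g h : S3) : (g * h).q = g.q * h.q := rfl

theorem q_one : (1 : S3).q = 1 := rfl

theorem norm_q (g : S3) : ‖g.q‖ = 1 :=
  mem_sphere_zero_iff_norm.1 (show Metric.sphere (0 : ℍ) 1 from g).2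

theorem q_inj {g h : S3} (e : g.q = h.q) : g = h := Subtype.ext e

theorem cont_q : Continuous S3.q := continuous_subtype_val

theorem ind_q : Topology.IsInducing S3.q := Topology.IsInducing.subtypeVal

theorem normSq_q (g : S3) : Quaternion.normSq g.q = 1 := by
  rw [Quaternion.normSq_eq_norm_mul_self, norm_q, mul_one]

theorem q_inv (g : S3) : (g⁻¹).q = star g.q := by
  have h1 : g.q * (g⁻¹).q = 1 := by rw [← q_mul, mul_inv_cancel, q_one]
  have h2 : star g.q * g.q = 1 := by rw [Quaternion.star_mul_self, normSq_q]; rfl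
  rw [← one_mul (g⁻¹).q, ← h2, mul_assoc, h1, mul_one]

open Classical in
/-- radial projection to the group -/
def nrq (q : ℍ) : S3 :=
  if h : q = 0 then 1 else
    (⟨‖q‖⁻¹ • q, by simp [norm_smul, norm_ne_zero_iff.mpr h]⟩ : Metric.sphere (0 : ℍ) 1)

theorem nrq_q {q : ℍ} (h : q ≠ 0) : (nrq q).q = ‖q‖⁻¹ • q := by
  rw [nrq, dif_neg h]; rfl

theorem contOn_nrq : ContinuousOn nrq {0}ᶜ := by
  rw [ind_q.continuousOn_iff]
  refine ContinuousOn.congr (f := fun x : ℍ => ‖x‖⁻¹ • x) ?_ fun x hx => nrq_q hx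
  exact (continuous_norm.continuousOn.inv₀ fun x hx => norm_ne_zero_iff.2 hx).smul continuousOn_id

theorem nrq_smul {s : ℝ} (hs : 0 < s) (q : ℍ) : nrq (s • q) = nrq q := by
  by_cases h : q = 0
  · rw [h, smul_zero]
  · refine q_inj ?_
    rw [nrq_q h, nrq_q (smul_ne_zero hs.ne' h), norm_smul, smul_smul, Real.norm_eq_abs,
      abs_of_pos hs]
    congr 1
    have := norm_ne_zero_iff.2 h
    field_simp

/-- the quaternion with coordinates `x` -/
def qm : ℝ × E3 →ₗ[ℝ] ℍ where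
  toFun x := ⟨x.1, x.2 0, x.2 1, x.2 2⟩
  map_add' x y := by ext <;> simp
  map_smul' c x := by ext <;> simp

/-- the coordinates of a quaternion -/
def qc : ℍ →ₗ[ℝ] ℝ × E3 where
  toFun q := (q.re, WithLp.toLp 2 ![q.imI, q.imJ, q.imK])
  map_add' x y := by
    ext i
    · simp
    · fin_cases i <;> simp
  map_smul' c x := by
    ext i
    · simp
    · fin_cases i <;> simp

theorem qm_qc (q : ℍ) : qm (qc q) = q := by ext <;> simp [qm, qc]

/-- the squared length -/
def nq (x : ℝ × E3) : ℝ := x.1 ^ 2 + ‖x.2‖ ^ 2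

theorem norm_qm (x : ℝ × E3) : ‖qm x‖ ^ 2 = nq x := by
  rw [sq, ← Quaternion.normSq_eq_norm_mul_self, Quaternion.normSq_def', nq,
    EuclideanSpace.real_norm_sq_eq, Fin.sum_univ_three]
  simp [qm]
  ring

theorem nq_pos {x : ℝ × E3} (hx : x ≠ 0) : 0 < nq x := by
  by_contra h
  have h0 : x.1 ^ 2 + ‖x.2‖ ^ 2 ≤ 0 := not_lt.1 h
  have h1 : x.1 = 0 := by nlinarith [sq_nonneg x.1, sq_nonneg ‖x.2‖]
  have h2 : ‖x.2‖ = 0 := by nlinarith [sq_nonneg x.1, sq_nonneg ‖x.2‖, norm_nonneg x.2]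
  exact hx (Prod.ext h1 (norm_eq_zero.1 h2))

theorem qm_ne {x : ℝ × E3} (hx : x ≠ 0) : qm x ≠ 0 := by
  intro h
  have := norm_qm x
  rw [h, norm_zero] at this
  have := nq_pos hx
  linarith

theorem cont_qm : Continuous (qm : ℝ × E3 → ℍ) := LinearMap.continuous_of_finiteDimensional _

def nrm (x : ℝ × E3) : S3 := nrq (qm x)

theorem contOn_nrm : ContinuousOn nrm {0}ᶜ :=
  contOn_nrq.comp cont_qm.continuousOn fun _ hx => qm_ne hx

theorem measurable_nrm : Measurable nrm := measurable_of_continuousOn_compl_singleton 0 contOn_nrm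

/-- the gnomonic chart -/
def e0 (a : E3) : S3 := nrm (1, a)

theorem continuous_e0 : Continuous e0 :=
  contOn_nrm.comp_continuous (f := fun a : E3 => ((1 : ℝ), a)) (by fun_prop) fun a => by simp

theorem nrm_smul {s : ℝ} (hs : 0 < s) (a : E3) : nrm (s, s • a) = e0 a := by
  have e : ((s, s • a) : ℝ × E3) = s • ((1 : ℝ), a) := by simp
  rw [e0, nrm, nrm, e, map_smul, nrq_smul hs]

theorem e0_q (a : E3) : (e0 a).q = (√(1 + ‖a‖ ^ 2))⁻¹ • qm (1, a) := by
  rw [e0, nrm, nrq_q (qm_ne (by simp)), ← Real.sqrt_sq (norm_nonneg _), norm_qm, nq, one_pow]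

theorem cS_e0 (a : E3) : cS (e0 a) = ex (cE a) := by
  have h0 : (0 : ℝ) ≤ 1 + ‖a‖ ^ 2 := by positivity
  have h1 : 1 + dot (cE a) (cE a) = ((1 + ‖a‖ ^ 2 : ℝ) : ℂ) := by
    rw [EuclideanSpace.real_norm_sq_eq]
    simp [dot, cE, sq]
  have h2 : (1 + dot (cE a) (cE a)) ^ (-2⁻¹ : ℂ) = (((√(1 + ‖a‖ ^ 2))⁻¹ : ℝ) : ℂ) := by
    rw [h1, Real.sqrt_eq_rpow, ← Real.rpow_neg h0, Complex.ofReal_cpow h0]
    norm_num
  rw [ex, h2, cS, e0_q]
  ext <;> simp [cq, qm, io, cE]

theorem cS_inj {g h : S3} (e : cS g = cS h) : g = h := by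
  refine q_inj ?_
  have h0 := congrArg (·.re) e
  have h1 := congrArg (·.imI) e
  have h2 := congrArg (·.imJ) e
  have h3 := congrArg (·.imK) e
  simp only [cS, cq, Complex.ofReal_inj] at h0 h1 h2 h3
  ext <;> assumption

theorem eq_e0 {e : E3 → S3} (h : ∀ v, cS (e v) = ex (cE v)) : e = e0 :=
  funext fun v => cS_inj ((h v).trans (cS_e0 v).symm)

/-- the half of the group covered by the chart -/
def pos : Set S3 := {g | 0 < g.q.re}

theorem isOpen_pos : IsOpen pos :=
  isOpen_lt continuous_const (Quaternion.continuous_re.comp cont_q)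

theorem nrm_pos {x : ℝ × E3} (hx : x ≠ 0) : nrm x ∈ pos ↔ 0 < x.1 := by
  have h := norm_pos_iff.2 (qm_ne hx)
  rw [pos, mem_ofPred, nrm, nrq_q (qm_ne hx), Quaternion.re_smul, smul_eq_mul,
    mul_pos_iff_of_pos_left (inv_pos.2 h)]
  rfl

instance haarP : (volume : Measure (ℝ × E3)).IsAddHaarMeasure :=
  Measure.prod.instIsAddHaarMeasure _ _

theorem ae_ne0 : ∀ᵐ x : ℝ × E3, x ≠ 0 := by simp [ae_iff]

theorem ball_facts : IsOpen {x | nq x < 1} ∧ volume {x | nq x < 1} ≠ 0 ∧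
    volume {x | nq x < 1} < ∞ := by
  have hc : Continuous nq := by unfold nq; fun_prop
  have ho : IsOpen {x | nq x < 1} := isOpen_lt hc continuous_const
  refine ⟨ho, (ho.measure_pos _ ⟨0, by simp [nq]⟩).ne', Bornology.IsBounded.measure_lt_top ?_⟩
  refine (Metric.isBounded_closedBall (x := 0) (r := 1)).subset fun x hx => ?_
  have hx' : x.1 ^ 2 + ‖x.2‖ ^ 2 < 1 := hx
  rw [mem_closedBall_zero_iff, Prod.norm_def, max_le_iff, Real.norm_eq_abs, abs_le]
  refine ⟨⟨?_, ?_⟩, ?_⟩ <;> nlinarith [sq_nonneg x.1, sq_nonneg ‖x.2‖, norm_nonneg x.2]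

theorem mp_mul (u : S3) : ∃ T : ℝ × E3 →ₗ[ℝ] ℝ × E3,
    MeasurePreserving T volume volume ∧ (∀ x, nq (T x) = nq x) ∧
      ∀ x, x ≠ 0 → nrm (T x) = u * nrm x := by
  set T : ℝ × E3 →ₗ[ℝ] ℝ × E3 := qc ∘ₗ LinearMap.mulLeft ℝ u.q ∘ₗ qm with hT
  have h1 : ∀ x, qm (T x) = u.q * qm x := fun x => qm_qc _
  have h1' : ∀ x, ‖qm (T x)‖ = ‖qm x‖ := fun x => by rw [h1, norm_mul, norm_q, one_mul]
  have h2 : ∀ x, nq (T x) = nq x := fun x => by rw [← norm_qm, ← norm_qm, h1']
  have h3 : ∀ x, x ≠ 0 → T x ≠ 0 := fun x hx h => by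
    have := h2 x
    rw [h] at this
    have h' := nq_pos hx
    simp [nq] at this h'
    linarith
  have hd : LinearMap.det T ≠ 0 := by
    refine (LinearMap.isUnit_det T ?_).ne_zero
    rw [LinearMap.isUnit_iff_ker_eq_bot, LinearMap.ker_eq_bot']
    exact fun x hx => by_contra fun h => h3 x h hx
  have hm : Measurable T := (LinearMap.continuous_of_finiteDimensional T).measurable
  obtain ⟨ho, p1, p2⟩ := ball_facts
  refine ⟨T, ⟨hm, ?_⟩, h2, fun x hx => q_inj ?_⟩
  · have h := map_linearMap_addHaar_eq_smul_addHaar (volume : Measure (ℝ × E3)) hd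
    have h' := congrArg (fun m : Measure (ℝ × E3) => m {x | nq x < 1}) h
    simp only [map_apply hm ho.measurableSet, preimage_ofPred_eq, h2, Measure.smul_apply,
      smul_eq_mul] at h'
    rw [h, ← (ENNReal.mul_left_inj p1 p2.ne).1 ((one_mul _).trans h'), one_smul]
  · rw [q_mul, nrm, nrm, nrq_q (qm_ne (h3 x hx)), nrq_q (qm_ne hx), h1', h1, mul_smul_comm]

/-- density of Haar measure in the chart -/
def hd (a : E3) : ℝ≥0∞ := ENNReal.ofReal ((1 + ‖a‖ ^ 2) ^ 2)⁻¹

theorem measurable_hd : Measurable hd := by unfold hd; fun_prop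

theorem radial (a : E3) : ∫⁻ s in Ioi (0 : ℝ), ENNReal.ofReal (s ^ 3) *
    {x | nq x < 1}.indicator 1 (s, s • a) = 4⁻¹ * hd a := by
  set c : ℝ := 1 + ‖a‖ ^ 2 with hc
  have c0 : 0 < c := by positivity
  have r0 : 0 < (√c)⁻¹ := inv_pos.2 (Real.sqrt_pos.2 c0)
  have r2 : (√c)⁻¹ ^ 2 = c⁻¹ := by rw [inv_pow, Real.sq_sqrt c0.le]
  have e : ∀ s ∈ Ioi (0 : ℝ), ENNReal.ofReal (s ^ 3) * {x | nq x < 1}.indicator 1 (s, s • a) =
      (Iio (√c)⁻¹).indicator (fun s => ENNReal.ofReal (s ^ 3)) s := by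
    intro s hs
    have e2 : nq (s, s • a) = s ^ 2 * c := by
      simp only [nq, norm_smul, Real.norm_eq_abs, mul_pow, sq_abs, hc]
      ring
    have : (s, s • a) ∈ {x | nq x < 1} ↔ s ∈ Iio (√c)⁻¹ := by
      rw [mem_ofPred, e2, mem_Iio, ← pow_lt_pow_iff_left₀ (le_of_lt hs) r0.le two_ne_zero, r2,
        ← lt_div_iff₀ c0, one_div]
    by_cases h : s ∈ Iio (√c)⁻¹
    · rw [indicator_of_mem h, indicator_of_mem (this.2 h), Pi.one_apply, mul_one]
    · rw [indicator_of_notMem h, indicator_of_notMem (fun h' => h (this.1 h')), mul_zero]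
  rw [setLIntegral_congr_fun measurableSet_Ioi e, lintegral_indicator measurableSet_Iio,
    restrict_restrict measurableSet_Iio, inter_comm, Ioi_inter_Iio,
    ← ofReal_integral_eq_lintegral_ofReal, ← integral_Ioc_eq_integral_Ioo,
    ← intervalIntegral.integral_of_le r0.le, integral_pow, hd, ← hc]
  · rw [show (3 + 1 : ℕ) = 2 * 2 from rfl, pow_mul, r2, zero_pow (by norm_num), sub_zero,
      div_eq_inv_mul, ENNReal.ofReal_mul (by positivity), inv_pow,
      ENNReal.ofReal_inv_of_pos (by positivity)]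
    norm_num
  · exact ((continuous_pow 3).integrableOn_Icc (a := 0) (b := (√c)⁻¹)).mono_set Ioo_subset_Icc_self
  · filter_upwards [ae_restrict_mem measurableSet_Ioo] with s hs using pow_nonneg hs.1.le 3

theorem chart0 : ∃ c : ℝ≥0∞, c ≠ 0 ∧ c ≠ ∞ ∧
    ∀ F : S3 → ℝ≥0∞, Measurable F → ∫⁻ g in pos, F g ∂haar = c * ∫⁻ a, hd a * F (e0 a) := by
  obtain ⟨ho, p1, p2⟩ := ball_facts
  set B : Set (ℝ × E3) := {x | nq x < 1} with hB
  set ν : Measure S3 := map nrm (volume.restrict B) with hν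
  have hu : ν univ = volume B := by
    rw [hν, map_apply measurable_nrm MeasurableSet.univ, preimage_univ, restrict_apply_univ]
  have : IsFiniteMeasure ν := ⟨hu ▸ p2⟩
  have hne : ∀ᵐ x ∂(volume.restrict B), x ≠ 0 := ae_restrict_of_ae ae_ne0
  have : IsMulLeftInvariant ν := by
    refine ⟨fun u => ?_⟩
    obtain ⟨T, hT, h2, h3⟩ := mp_mul u
    have hTB : T ⁻¹' B = B := by ext x; simp [hB, h2]
    have h4 := hT.restrict_preimage ho.measurableSet
    rw [hTB] at h4
    rw [hν, map_map (measurable_const_mul u) measurable_nrm]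
    conv_rhs => rw [← h4.map_eq, map_map measurable_nrm h4.measurable]
    refine Measure.map_congr ?_
    filter_upwards [hne] with x hx using (h3 x hx).symm
  have hμ := isMulInvariant_eq_smul_of_compactSpace ν haar
  set k : ℝ≥0∞ := ((haarScalarFactor ν haar : NNReal) : ℝ≥0∞) with hk
  have k0 : k ≠ 0 := by
    intro h
    have : ν univ = 0 := by
      rw [hμ, Measure.smul_apply, ENNReal.smul_def, ← hk, h, smul_eq_mul, zero_mul]
    exact p1 (hu ▸ this)
  have k1 : k ≠ ∞ := ENNReal.coe_ne_top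
  refine ⟨k⁻¹ * 4⁻¹, by simp [k1], ENNReal.mul_ne_top (by simp [k0]) (by simp), fun F hF => ?_⟩
  have hp := isOpen_pos.measurableSet
  have e1 : ∫⁻ g in pos, F g ∂ν = k * ∫⁻ g in pos, F g ∂haar := by
    conv_lhs => rw [hμ]
    rw [restrict_smul, lintegral_smul_measure]
    rfl
  set Φ : ℝ × E3 → ℝ≥0∞ := fun x => B.indicator 1 x * F (nrm x) with hΦ
  have mΦ : Measurable Φ :=
    (measurable_one.indicator ho.measurableSet).mul (hF.comp measurable_nrm)
  have e2 : ∫⁻ g in pos, F g ∂ν = ∫⁻ s in Ioi (0 : ℝ), ∫⁻ v : E3, Φ (s, v) := by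
    rw [← lintegral_indicator hp, hν, lintegral_map (hF.indicator hp) measurable_nrm,
      ← lintegral_prod _ mΦ.aemeasurable, restrict_prod_eq_prod_univ,
      ← lintegral_indicator (measurableSet_Ioi.prod MeasurableSet.univ),
      ← lintegral_indicator ho.measurableSet]
    refine lintegral_congr_ae ?_
    filter_upwards [ae_ne0] with x hx
    have := nrm_pos hx
    by_cases h1 : x ∈ B <;> by_cases h2 : 0 < x.1 <;> simp [indicator, h1, h2, this, hΦ]
  have e3 : ∀ s ∈ Ioi (0 : ℝ), ∫⁻ v : E3, Φ (s, v) =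
      ∫⁻ a : E3, ENNReal.ofReal (s ^ 3) * B.indicator 1 (s, s • a) * F (e0 a) := by
    intro s hs
    have hs' : (0 : ℝ) < s := hs
    have h := lintegral_map (μ := (volume : Measure E3)) (g := fun a => s • a)
      (mΦ.comp (measurable_prodMk_left (x := s))) (measurable_const_smul s)
    rw [map_addHaar_smul _ hs'.ne', lintegral_smul_measure] at h
    simp only [Function.comp, hΦ, nrm_smul hs', mul_assoc] at h ⊢
    rw [lintegral_const_mul' _ _ ENNReal.ofReal_ne_top, ← h, smul_eq_mul, ← mul_assoc,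
      ← ENNReal.ofReal_mul (by positivity), finrank_euclideanSpace_fin,
      abs_of_pos (by positivity), mul_inv_cancel₀ (by positivity), ENNReal.ofReal_one, one_mul]
  have mex : Measurable fun a => F (e0 a) := hF.comp continuous_e0.measurable
  have e4 : ∫⁻ g in pos, F g ∂ν = 4⁻¹ * ∫⁻ a, hd a * F (e0 a) := by
    rw [e2, setLIntegral_congr_fun measurableSet_Ioi e3, lintegral_lintegral_swap,
      ← lintegral_const_mul' _ _ (by simp)]
    · refine lintegral_congr fun a => ?_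
      rw [lintegral_mul_const, radial, mul_assoc]
      exact Measurable.mul (by fun_prop)
        ((measurable_one.indicator ho.measurableSet).comp (by fun_prop))
    · refine Measurable.aemeasurable (Measurable.mul (Measurable.mul (by fun_prop) ?_)
        (mex.comp measurable_snd))
      exact (measurable_one.indicator ho.measurableSet).comp (by fun_prop)
  rw [mul_assoc, ← e4, e1, ← mul_assoc, ENNReal.inv_mul_cancel k0 k1, one_mul]

end Ms

open Ms in
theorem haar_chart : ∃ cH : ℝ, 0 < cH ∧ ∀ F : S3 → ℝ≥0∞, Measurable F → ∀ e : E3 → S3,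
    (∀ v, cS (e v) = ex (cE v)) →
      ∫⁻ g in {g : S3 | 0 < g.q.re}, F g ∂haar =
        ∫⁻ v, F (e v) * ENNReal.ofReal (cH * ((1 + ‖v‖ ^ 2) ^ 2)⁻¹) := by
  obtain ⟨c, c0, c1, h⟩ := chart0
  refine ⟨c.toReal, ENNReal.toReal_pos c0 c1, fun F hF e he => ?_⟩
  rw [eq_e0 he]
  refine (h F hF).trans ?_
  rw [← lintegral_const_mul' _ _ c1]
  refine lintegral_congr fun a => ?_
  rw [ENNReal.ofReal_mul ENNReal.toReal_nonneg, ENNReal.ofReal_toReal c1, hd]
  ring

end Pool.Agent.Lib.MP_7f377f_mp.RG
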