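import Pool.Agent.Lib.MP_7f377f_mp.Q4Kit
import Pool.Agent.Lib.MP_7f377f_mp.RGMeasHaar

/-! The fluctuation operator on the active links, its traces and its walk expansion: definitions. -/

noncomputable section

namespace Pool.Agent.Lib.MP_7f377f_mp.RG.Q4

open Finset Polynomial

/-- data of the fluctuation operator; `h` is the quadratic form of a block, `hh l m` -/
structure Od where
  l : ℕ
  h : BF
  Λ : ℝ
  N : ℕ

structure Od.Ok (O : Od) (c : ℕ) : Prop where
  symm : ∀ a b, O.h a b = O.h b a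
  psd : ∀ a, 0 ≤ O.h a a
  rng : Rng (3 * O.l + 1) (3 * O.l + 1) O.h
  bd : ∀ a, O.h a a ≤ (LL O.l : ℝ) ^ c * ∑ f ∈ lbox (3 * O.l + 1), a f ^ 2
  coer : ∀ a : V, (∀ f, tree O.l f → a f = 0) → ∑ f ∈ lbox O.l, a f ^ 2 ≤
    (LL O.l : ℝ) ^ c * ∑ y ∈ box 3, O.h (sh (up O.l y) a) (sh (up O.l y) a)
  lam : O.Λ = (LL O.l : ℝ) ^ (c + 1)
  num : O.N = LL O.l ^ (2 * c + 4)
  big : 10 ^ 6 * (c + 1) ≤ O.l

/-- free blocks: the distance to the holes is larger than three -/
def Fr (H : Set St) (y : St) : Prop := ∀ v ∈ box 3, y + v ∉ H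

/-- active links -/
def Act (l : ℕ) (H : Set St) (f : Lk) : Prop := ¬ tree l f ∧ Fr H (yo l f.1)

/-- the holes seen from `y` -/
def shS (y : St) (H : Set St) : Set St := {x | x + y ∈ H}

/-- the holes agree in the box of radius `R` -/
def AgS (R : ℕ) (H H' : Set St) : Prop := ∀ x ∈ box R, x ∈ H ↔ x ∈ H'

/-- near the origin `W` is close to the real field `W0` of small curvature -/
def Gp (δ : ℝ) (W : Cf) (W0 : Conf) : Prop :=
  (∀ x ∈ box 5, ∀ μ ν, fq W0 x μ ν ≤ δ) ∧ ∀ e ∈ lbox 5, ‖W e * star (cS (W0 e)) - 1‖ ≤ δ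

open Classical in
/-- projection on the active links -/
def pj (l : ℕ) (H : Set St) (A : Fld) : Fld := fun f => if Act l H f then A f else 0

/-- the fluctuation field in the comb gauge based at `y` -/
def Ay (l : ℕ) (y : St) (W : Cf) (A : Fld) : Fld :=
  adF (fun x => cmb star (sh y W) (yo l x)) (sh (up l y) A)

/-- `1 - P (1 - X) P` -/
def pU (N : ℕ) : ℂ[X] := 1 - pP N ^ 2 * (1 - X)

/-- `pA N m * X ^ (N * m)` is a block of the series of `- log (1 - X) / 2` -/
def pA (N m : ℕ) : ℂ[X] :=
  ∑ s ∈ range N, monomial (N + s + 1) (1 / (2 * ((m + 1) * N + s + 1)) : ℂ)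

/-- weighted norm of a polynomial -/
def wn (θ : ℝ) (p : ℂ[X]) : ℝ := p.sum fun k c => ‖c‖ * θ ^ k

section torus

/-- the cubic period vector -/
abbrev cu (n : ℕ) : Fin 4 → ℕ := fun _ => n

/-- periods of the fine lattice -/
abbrev fi (l : ℕ) (n : Fin 4 → ℕ) : Fin 4 → ℕ := fun i => LL l * n i

variable (n : Fin 4 → ℕ)

/-- the lattice of periods -/
def pv (v : St) : St := fun i => n i * v i

def Dv (x : St) : Prop := ∀ i, (n i : ℤ) ∣ x i

instance : DecidablePred (Dv n) := fun x => by unfold Dv; infer_instance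

def PerV {α : Type} (U : Lk → α) : Prop := ∀ v, sh (pv n v) U = U

def PerS (H : Set St) : Prop := ∀ v, shS (pv n v) H = H

/-- centred residues; `rcv (cu n) = rc n` -/
def rcv (x : St) : St := fun i => (x i + (n i / 2 : ℕ)) % (n i : ℤ) - (n i / 2 : ℕ)

/-- centred periodisation; `pcv (cu n) = pc n` -/
def pcv {α : Type} (W : Lk → α) : Lk → α := fun e => W (rcv n e.1, e.2)

/-- the sites of the torus with odd periods; `domv (cu n) = box (n / 2)` -/
def domv : Finset St := Fintype.piFinset fun i => Icc (-((n i / 2 : ℕ) : ℤ)) (n i / 2 : ℕ)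

open Classical in
/-- the active links of the fine torus -/
def alk (l : ℕ) (H : Set St) : Finset Lk := (domv (fi l n) ×ˢ univ).filter (Act l H)

/-- periodic extension from the active links -/
def exa {α : Type} (l : ℕ) (H : Set St) (o : α) (u : alk n l H → α) : Lk → α :=
  fun f => if h : (rcv (fi l n) f.1, f.2) ∈ alk n l H then u ⟨_, h⟩ else o

/-- periodic point mass -/
def pd (f : Lk) (b : C3) : Fld := fun e => if Dv n (e.1 - f.1) ∧ e.2 = f.2 then b else 0

/-- restriction to the images of the block `y` -/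
def ind (l : ℕ) (y : St) (A : Fld) : Fld := fun f => if Dv n (yo l f.1 - y) then A f else 0

/-- trace over the block `y` of an operator on periodic fields -/
def trB (l : ℕ) (y : St) (G : Fld → Fld) : ℂ := ∑ t ∈ lbox l, ∑ k,
  G (pd (fi l n) (t.1 + up l y, t.2) (Pi.single k 1)) (t.1 + up l y, t.2) k

/-- Euclidean norm of a field on the fine torus -/
def nrm2 (l : ℕ) (A : Fld) : ℝ := √(∑ y ∈ domv n, ∑ t ∈ lbox l, ∑ k, ‖A (t.1 + up l y, t.2) k‖ ^ 2)

end torus

/-- words of length `m` with letters in `Y` -/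
def wks (Y : Finset St) : ℕ → Finset (List St)
  | 0 => {[]}
  | m + 1 => (Y ×ˢ wks Y m).image fun a => a.1 :: a.2

namespace Od

variable (O : Od)

/-- the quadratic form of a block as an operator -/
def hL : V →ₗ[ℝ] V := LinearMap.pi fun f => O.h (Pi.single f 1)

/-- the sum of the transported forms of the neighbouring blocks as an operator -/
def ham (W : Cf) (A : Fld) : Fld := fun f => ∑ y ∈ box 2,
  adq (star (cmb star (sh (yo O.l f.1 + y) W) (-y)))
    (cxL O.hL (Ay O.l (yo O.l f.1 + y) W A) (f.1 - up O.l (yo O.l f.1 + y), f.2))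

def top (H : Set St) (W : Cf) (A : Fld) : Fld :=
  pj O.l H (A - (O.Λ : ℂ)⁻¹ • O.ham W (pj O.l H A))

/-- a polynomial in the operator `top` -/
def pol (p : ℂ[X]) (H : Set St) (W : Cf) (A : Fld) : Fld :=
  p.sum fun k c => c • (O.top H W)^[k] (pj O.l H A)

/-- bound of `top` in the Euclidean norm -/
def θ (c : ℕ) : ℝ := 1 - (2 * (LL O.l : ℝ) ^ (2 * c + 2))⁻¹

/-- local part of the logarithm of the determinant, for the block at the origin -/
def dt (H : Set St) (W : Cf) : ℂ :=
  ∑ f ∈ lbox O.l, ∑ k, O.pol (pQ O.N) H W (Pi.single f (Pi.single k 1)) f k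

variable (n : Fin 4 → ℕ)

/-- product of the factors `1_y p(top)` along a word -/
def chn (p : ℂ[X]) (H : Set St) (W : Cf) : List St → Fld → Fld
  | [], A => A
  | y :: ω, A => ind n O.l y (O.pol p H W (chn p H W ω A))

/-- trace of `1_y p0(top)` times the product along the rest of the word -/
def wk (p0 p : ℂ[X]) (H : Set St) (W : Cf) : List St → ℂ
  | [] => 0
  | y :: ω => trB n O.l y fun A => O.pol p0 H W (O.chn n p H W ω A)

/-- weight of a closed walk -/
def ww (H : Set St) (W : Cf) (ω : List St) : ℂ :=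
  O.wk n (pA O.N (ω.length - 1)) (X ^ O.N) H W ω -
    O.wk n (pU O.N) (pU O.N) H W ω / (2 * ω.length)

/-- the part of the logarithm of the determinant carried by the walks which visit exactly `Y` -/
def qd (H : Set St) (W : Cf) (Y : Finset St) : ℂ :=
  ∑' m : ℕ, ∑ ω ∈ (wks Y m).filter fun ω => ω.toFinset = Y, O.ww n H W ω

/-- the real fluctuation field `P z` for the periodisation of `z` -/
def fl (H : Set St) (W : Conf) (z : Lk → E3) : Lk → E3 := fun f => WithLp.toLp 2 fun k =>
  (O.pol (pP O.N) H (cC W) (fun e => cE (pcv (fi O.l n) z e)) f k).re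

open Classical in
/-- the field with active links `exp (g P z) b` and the other links taken from `U` -/
def uz (H : Set St) (W : Conf) (g : ℝ) (b U : Conf) (z : Lk → E3) : Conf :=
  fun f => if Act O.l H f then Ms.e0 (g • O.fl n H W z f) * b f else U f

end Od

end Pool.Agent.Lib.MP_7f377f_mp.RG.Q4
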