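import Pool.Agent.Lib.MP_7f377f_mp.RGAp3

/-! Background field: lattice arithmetic and the linear background field. -/

noncomputable section

namespace Pool.Agent.Lib.MP_7f377f_mp.RG.Bg

open Finset

theorem yo_mem {l a : ℕ} {x : St} (h : x ∈ box (fb l a)) : yo l x ∈ box a := yo_mem_box h

theorem le_fb (l a : ℕ) : l + a ≤ fb l (a / LL l + 1) := by
  have := Nat.lt_div_mul_add (a := a) (b := LL l) (LL_pos l)
  simp only [fb, add_mul]
  omega

theorem fb_mono (l : ℕ) {a b : ℕ} (h : a ≤ b) : fb l a ≤ fb l b := by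
  simp only [fb]
  have := Nat.mul_le_mul_right (LL l) h
  omega

theorem yo_step {l : ℕ} {x : St} {μ : Fin 4} (h : yo l (x + un μ) ≠ yo l x) :
    yo l (x + un μ) = yo l x + un μ := (yo_add_un l x μ).resolve_left h

theorem tree_loc {l : ℕ} {f : Lk} (h : tree l f) : tree l (f.1 - up l (yo l f.1), f.2) := by
  rw [← tree_add_up l _ (yo l f.1), sub_add_cancel]
  exact h

theorem dd_agr {α : Type} [AddCommGroup α] {R : ℕ} {a b : Lk → α} (h : Agr (R + 1) a b) {x : St}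
    (hx : x ∈ box R) (μ ν : Fin 4) : dd a x μ ν = dd b x μ ν := by
  have h1 := fun μ => h (x, μ) (mem_lbox.2 (box_mono R.le_succ hx))
  have h2 := fun μ ν => h (x + un μ, ν) (mem_lbox.2 (add_un_mem_box hx μ))
  simp only [dd, h1, h2]

theorem cg_sub {α : Type} [AddCommGroup α] (a b : Lk → α) : cg (a - b) = cg a - cg b := by
  rw [eq_sub_iff_add_eq, ← cg_add, sub_add_cancel]

variable {T : V →ₗ[ℝ] V}

theorem cxL_congr {R : ℕ} (hT : ∀ a, (∀ e ∈ lbox R, a e = 0) → T a = 0) {A B : Fld}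
    (h : Agr R A B) : cxL T A = cxL T B :=
  funext fun f => cxL_agr (fun a ha => congrFun (hT a ha) f) h

theorem norm_le_of {b : C3} {δ : ℝ} (h1 : ∀ k, |(b k).re| ≤ δ) (h2 : ∀ k, |(b k).im| ≤ δ) :
    ‖b‖ ≤ 2 * δ := by
  have h0 : 0 ≤ δ := (abs_nonneg _).trans (h1 0)
  refine (pi_norm_le_iff_of_nonneg (by positivity)).2 fun k => ?_
  linarith [Complex.norm_le_abs_re_add_abs_im (b k), h1 k, h2 k]

theorem cxL_re (A : Fld) (f : Lk) (k : Fin 3) : (cxL T A f k).re = T (reF A k) f := by simp [cxL]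

theorem cxL_im (A : Fld) (f : Lk) (k : Fin 3) : (cxL T A f k).im = T (imF A k) f := by simp [cxL]

theorem cxL_sm {r : ℕ} {C δ : ℝ} (hT : ∀ a δ f, Sm r δ a → |T a f| ≤ C * δ) {A : Fld}
    (hA : Sm r δ A) (f : Lk) : ‖cxL T A f‖ ≤ 2 * (C * δ) :=
  cxL_bd (fun k => hT _ _ _ (hA.reF k)) fun k => hT _ _ _ (hA.imF k)

theorem cxL_cg (hT : ∀ u, T (gr u) = 0) (A : Fld) : cxL T (cg A) = cxL T A := by
  rw [cg, cxL_sub, cxL_gr hT, sub_zero]

theorem mu_apply (l : ℕ) (s : V →ₗ[ℝ] V) (a : V) (f : Lk) :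
    mu l s a f = (if yo l (f.1 + un f.2) = yo l f.1 then 0 else a (yo l f.1, f.2)) +
      s (sh (yo l f.1) a) (f.1 - up l (yo l f.1), f.2) := by
  simp only [mu, iz, LinearMap.add_apply, Pi.add_apply, LinearMap.pi_apply]
  congr 1
  split_ifs <;> rfl

theorem cxL_mu (l : ℕ) (s : V →ₗ[ℝ] V) (B : Fld) (f : Lk) :
    cxL (mu l s) B f = (if yo l (f.1 + un f.2) = yo l f.1 then 0 else B (yo l f.1, f.2)) +
      cxL s (sh (yo l f.1) B) (f.1 - up l (yo l f.1), f.2) := by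
  funext k
  apply Complex.ext
  · simp only [Pi.add_apply, Complex.add_re, cxL_re, mu_apply]
    congr 1
    split_ifs <;> rfl
  · simp only [Pi.add_apply, Complex.add_im, cxL_im, mu_apply]
    congr 1
    split_ifs <;> rfl

theorem mu_sh (l : ℕ) (s : V →ₗ[ℝ] V) (y : St) (a : V) :
    mu l s (sh y a) = sh (up l y) (mu l s a) := by
  funext f
  simp only [sh, mu_apply]
  rw [add_right_comm f.1, yo_add_up, yo_add_up, up_add, add_sub_add_right_eq_sub]
  simp only [add_left_inj, sh_sh]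

theorem dd_cxL_re (A : Fld) (x : St) (μ ν : Fin 4) (k : Fin 3) :
    (dd (cxL T A) x μ ν k).re = dd (T (reF A k)) x μ ν := by simp [dd, cxL_re]

theorem dd_cxL_im (A : Fld) (x : St) (μ ν : Fin 4) (k : Fin 3) :
    (dd (cxL T A) x μ ν k).im = dd (T (imF A k)) x μ ν := by simp [dd, cxL_im]

theorem cv_sh {W : Type} [NormedAddCommGroup W] {R a b : ℕ} {δ : ℝ} {A : Lk → W} (h : Cv R δ A)
    {y : St} (hy : y ∈ box a) (hab : b + a ≤ R) : Cv b δ (sh y A) := (h.mono hab le_rfl).sh hy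

theorem agr_sh {α : Type} {R a b : ℕ} {U U' : Lk → α} (h : Agr R U U') {x : St} (hx : x ∈ box a)
    (hab : b + a ≤ R) : Agr b (sh x U) (sh x U') := (h.mono hab).sh hx

variable {l r c : ℕ} {τ : ℝ} {m : BF} {s : V →ₗ[ℝ] V}

/-- pointwise bound of the curvature of the linear background field -/
theorem mu_point (h : Lin l r c τ m s) {a R : ℕ} {δ : ℝ} {B : Fld} (hB : Cv R δ B)
    (hR : r / 3 + a ≤ R) : Cv (fb l a) (2 * (δ / (r : ℝ) ^ 12)) (cxL (mu l s) B) := by
  have key : ∀ b : V, Cv R δ b → Cv (fb l a) (δ / (r : ℝ) ^ 12) (mu l s b) := fun b hb x hx μ ν => by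
    have := h.point _ _ (cv_sh hb (yo_mem hx) hR) _ (sub_up_yo_mem l x) μ ν
    rwa [mu_sh, dd_sh, sub_add_cancel] at this
  intro x hx μ ν
  refine norm_le_of (fun k => ?_) fun k => ?_
  · rw [dd_cxL_re]; exact key _ (hB.reF k) x hx μ ν
  · rw [dd_cxL_im]; exact key _ (hB.imF k) x hx μ ν

theorem sum_fb_le (l a : ℕ) {g : St → ℝ} (hg : ∀ x, 0 ≤ g x) :
    ∑ x ∈ box (fb l a), g x ≤ ∑ y ∈ box a, ∑ t ∈ box l, g (t + up l y) := by
  rw [← sum_product']
  have hi : Set.InjOn (fun x => (yo l x, x - up l (yo l x))) (box (fb l a)) := by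
    intro x _ y _ hxy
    simp only [Prod.mk.injEq] at hxy
    have := hxy.2
    rwa [hxy.1, sub_left_inj] at this
  calc _ = ∑ p ∈ (box (fb l a)).image (fun x => (yo l x, x - up l (yo l x))),
        g (p.2 + up l p.1) := by rw [sum_image hi]; simp
    _ ≤ _ := by
      refine sum_le_sum_of_subset_of_nonneg (fun p hp => ?_) fun p _ _ => hg _
      obtain ⟨x, hx, rfl⟩ := mem_image.1 hp
      exact mem_product.2 ⟨yo_mem hx, sub_up_yo_mem l x⟩

/-- energy bound of the linear background field -/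
theorem mu_energy (h : Lin l r c τ m s) {R : ℕ} {δ : ℝ} {B : Fld} (hB : Cv R δ B)
    (hR : r / 3 + 1 ≤ R) :
    ∑ x ∈ box (fb l 1), ∑ μ, ∑ ν, ‖dd (cxL (mu l s) B) x μ ν‖ ^ 2 ≤
      486 * ((r : ℝ) ^ 5 * δ ^ 2) := by
  have key : ∀ b : V, Cv R δ b → ∑ x ∈ box (fb l 1), nd (mu l s b) x ≤
      81 * ((r : ℝ) ^ 5 * δ ^ 2) := fun b hb => by
    refine (sum_fb_le l 1 fun x => by unfold nd; positivity).trans ?_
    refine (sum_le_card_nsmul _ _ ((r : ℝ) ^ 5 * δ ^ 2) fun y hy => ?_).trans ?_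
    · have := h.energy _ _ (cv_sh hb hy hR)
      rw [mu_sh] at this
      simpa only [nd, dd_sh] using this
    · rw [card_box]; norm_num
  have h1 : ∀ b : C3, ‖b‖ ^ 2 ≤ ∑ k, ((b k).re ^ 2 + (b k).im ^ 2) := fun b => by
    rw [← Real.le_sqrt (norm_nonneg _) (by positivity)]
    refine (pi_norm_le_iff_of_nonneg (Real.sqrt_nonneg _)).2 fun k => Real.le_sqrt_of_sq_le ?_
    rw [Complex.sq_norm, Complex.normSq_apply, ← sq, ← sq]
    exact single_le_sum (f := fun k => (b k).re ^ 2 + (b k).im ^ 2) (fun _ _ => by positivity)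
      (mem_univ k)
  calc _ ≤ ∑ x ∈ box (fb l 1), ∑ k, (nd (mu l s (reF B k)) x + nd (mu l s (imF B k)) x) := by
        refine sum_le_sum fun x _ => ?_
        simp only [nd, ← sum_add_distrib]
        rw [sum_comm (s := (univ : Finset (Fin 3)))]
        refine sum_le_sum fun μ _ => ?_
        rw [sum_comm (s := (univ : Finset (Fin 3)))]
        refine sum_le_sum fun ν _ => (h1 _).trans_eq ?_
        simp only [dd_cxL_re, dd_cxL_im]
    _ ≤ ∑ _k : Fin 3, (81 * ((r : ℝ) ^ 5 * δ ^ 2) + 81 * ((r : ℝ) ^ 5 * δ ^ 2)) := by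
        rw [sum_comm]
        refine sum_le_sum fun k _ => ?_
        rw [sum_add_distrib]
        exact add_le_add (key _ (hB.reF k)) (key _ (hB.imF k))
    _ = _ := by simp; ring

end Pool.Agent.Lib.MP_7f377f_mp.RG.Bg
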