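import Pool.Agent.Lib.MP_7f377f_mp.RGDefs
import Pool.Agent.Lib.MP_7f377f_mp.RGLinInv
import Pool.Agent.Lib.MP_7f377f_mp.KitHol
import Pool.Agent.Lib.MP_7f377f_mp.KitMix

/-! Holomorphic local terms: first estimates, and the decoupling lemma. -/

noncomputable section

namespace Pool.Agent.Lib.MP_7f377f_mp.RG

open Finset MeasureTheory
open scoped Quaternion ENNReal Pointwise

theorem hol_integral {Z : Type} [MeasurableSpace Z] (ν : Measure Z) [IsFiniteMeasure ν] {Ω : Set ℂ}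
    (hΩ : IsOpen Ω) {f : ℂ → Z → ℂ} (hf : ∀ z, DifferentiableOn ℂ (fun t => f t z) Ω)
    (hm : ∀ t ∈ Ω, AEStronglyMeasurable (f t) ν) {M : ℝ} (hb : ∀ t ∈ Ω, ∀ z, ‖f t z‖ ≤ M) :
    DifferentiableOn ℂ (fun t => ∫ z, f t z ∂ν) Ω :=
  Kit.holo_integral ν hΩ hm (.of_forall fun z => ⟨hf z, fun t ht => hb t ht z⟩)

namespace Ho

variable {W : Type} [NormedAddCommGroup W]

theorem dd_add {W : Type} [AddCommGroup W] (a b : Lk → W) (x : St) (μ ν : Fin 4) :
    dd (a + b) x μ ν = dd a x μ ν + dd b x μ ν := by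
  simp only [dd, Pi.add_apply]; abel

theorem dd_sub {W : Type} [AddCommGroup W] (a b : Lk → W) (x : St) (μ ν : Fin 4) :
    dd (a - b) x μ ν = dd a x μ ν - dd b x μ ν := by
  simp only [dd, Pi.sub_apply]; abel

theorem dd_smul (c : ℂ) (a : Fld) (x : St) (μ ν : Fin 4) :
    dd (c • a) x μ ν = c • dd a x μ ν := by
  simp only [dd, Pi.smul_apply, smul_add, smul_sub]

theorem dd_zero {W : Type} [AddCommGroup W] (x : St) (μ ν : Fin 4) :
    dd (0 : Lk → W) x μ ν = 0 := by simp [dd]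

theorem cv_nonneg {R : ℕ} {δ : ℝ} {a : Lk → W} (h : Cv R δ a) : 0 ≤ δ :=
  (norm_nonneg _).trans (h 0 (Li.zero_mem_box R) 0 0)

theorem cv_mono {R R' : ℕ} {δ δ' : ℝ} {a : Lk → W} (h : Cv R' δ a) (hR : R ≤ R') (hδ : δ ≤ δ') :
    Cv R δ' a := fun x hx μ ν => (h x (Li.box_mono hR hx) μ ν).trans hδ

theorem cv_add {R : ℕ} {δ δ' : ℝ} {a b : Lk → W} (h : Cv R δ a) (h' : Cv R δ' b) :
    Cv R (δ + δ') (a + b) := fun x hx μ ν => by
  rw [dd_add]
  exact (norm_add_le _ _).trans (add_le_add (h x hx μ ν) (h' x hx μ ν))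

theorem cv_smul {R : ℕ} {δ : ℝ} {a : Fld} (c : ℂ) (h : Cv R δ a) : Cv R (‖c‖ * δ) (c • a) :=
  fun x hx μ ν => by
    rw [dd_smul, norm_smul]
    exact mul_le_mul_of_nonneg_left (h x hx μ ν) (norm_nonneg _)

theorem cv_zero (R : ℕ) {δ : ℝ} (h : 0 ≤ δ) : Cv R δ (0 : Lk → W) := fun x _ μ ν => by
  rw [dd_zero, norm_zero]; exact h

theorem cv_exists (R : ℕ) (a : Lk → W) : ∃ δ, Cv R δ a :=
  ⟨∑ x ∈ box R, ∑ μ, ∑ ν, ‖dd a x μ ν‖, fun x hx μ ν =>
    ((single_le_sum (f := fun ν => ‖dd a x μ ν‖) (fun _ _ => norm_nonneg _) (mem_univ ν)).trans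
      (single_le_sum (f := fun μ => ∑ ν, ‖dd a x μ ν‖)
        (fun _ _ => sum_nonneg fun _ _ => norm_nonneg _) (mem_univ μ))).trans
      (single_le_sum (f := fun x => ∑ μ, ∑ ν, ‖dd a x μ ν‖)
        (fun _ _ => sum_nonneg fun _ _ => sum_nonneg fun _ _ => norm_nonneg _) hx)⟩

/-- the balls of the curvature seminorm -/
def dom (R : ℕ) (ρ : ℝ) (hρ : 0 < ρ) : Kit.Dom Fld where
  D θ := {B | Cv R (θ * ρ) B}
  smul c θ B h := by simpa only [Set.mem_ofPred_eq, mul_assoc] using cv_smul c h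
  add h h' := by simpa only [Set.mem_ofPred_eq, add_mul] using cv_add h h'
  mono h hB := cv_mono hB le_rfl (mul_le_mul_of_nonneg_right h hρ.le)

theorem mem_dom {R : ℕ} {ρ δ : ℝ} (hρ : 0 < ρ) {B : Fld} (h : Cv R δ B) :
    B ∈ (dom R ρ hρ).D (δ / ρ) := by
  show Cv R (δ / ρ * ρ) B
  rwa [div_mul_cancel₀ _ hρ.ne']

theorem mem_dom_one {R : ℕ} {ρ : ℝ} {hρ : 0 < ρ} {B : Fld} :
    B ∈ (dom R ρ hρ).D 1 ↔ Cv R ρ B := by
  show Cv R (1 * ρ) B ↔ _
  rw [one_mul]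

theorem disc_line (Ω : Set ℂ) (B δ : Fld) : Disc Ω fun t => B + t • δ := fun e => by
  simp only [Pi.add_apply, Pi.smul_apply]
  fun_prop

theorem lh {R : ℕ} {ρ κ : ℝ} {φ : Fld → ℂ} (h : Tm R ρ κ φ) (hρ : 0 < ρ) : (dom R ρ hρ).LH φ :=
  fun B δ S hS hD => h.hol S _ hS (disc_line S B δ) fun t ht => mem_dom_one.1 (hD t ht)

theorem bd_dom {R : ℕ} {ρ κ : ℝ} {φ : Fld → ℂ} (h : Tm R ρ κ φ) (hρ : 0 < ρ) :
    ∀ B ∈ (dom R ρ hρ).D 1, ‖φ B‖ ≤ κ := fun B hB => h.bd B (mem_dom_one.1 hB)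

end Ho

open Ho

theorem Tm.nonneg {R : ℕ} {ρ κ : ℝ} {φ : Fld → ℂ} (h : Tm R ρ κ φ) (hρ : 0 ≤ ρ) : 0 ≤ κ :=
  (norm_nonneg _).trans (h.bd 0 (cv_zero R hρ))

theorem Tm.mono {R R' : ℕ} {ρ κ κ' : ℝ} {φ : Fld → ℂ} (h : Tm R ρ κ φ) (hR : R ≤ R')
    (hκ : κ ≤ κ') : Tm R' ρ κ' φ where
  loc A B e := h.loc A B fun x hx => e x (Li.box_mono hR hx)
  hol Ω γ hΩ hγ hc := h.hol Ω γ hΩ hγ fun t ht => cv_mono (hc t ht) hR le_rfl
  bd B hB := (h.bd B (cv_mono hB hR le_rfl)).trans hκ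
  zero := h.zero
  ad := h.ad
  real := h.real

theorem Tm.add {R : ℕ} {ρ κ κ' : ℝ} {φ φ' : Fld → ℂ} (h : Tm R ρ κ φ) (h' : Tm R ρ κ' φ') :
    Tm R ρ (κ + κ') (φ + φ') where
  loc A B e := by simp only [Pi.add_apply, h.loc A B e, h'.loc A B e]
  hol Ω γ hΩ hγ hc := (h.hol Ω γ hΩ hγ hc).add (h'.hol Ω γ hΩ hγ hc)
  bd B hB := (norm_add_le _ _).trans (add_le_add (h.bd B hB) (h'.bd B hB))
  zero := by simp [h.zero, h'.zero]
  ad g B := by simp only [Pi.add_apply, h.ad, h'.ad]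
  real B hB := by simp [h.real B hB, h'.real B hB]

theorem Tm.lip {R : ℕ} {ρ κ δ : ℝ} {φ : Fld → ℂ} (h : Tm R ρ κ φ) (hρ : 0 < ρ) {A B : Fld}
    (hA : Cv R (ρ / 2) A) (hB : Cv R δ (B - A)) (hδ : δ ≤ ρ / 4) :
    ‖φ B - φ A‖ ≤ 8 * κ * δ / ρ := by
  have κ0 := h.nonneg hρ.le
  rcases (cv_nonneg hB).eq_or_lt with rfl | δ0
  · rw [h.loc B A fun x hx μ ν => by
      have := hB x hx μ ν
      rwa [dd_sub, norm_le_zero_iff, sub_eq_zero] at this]
    simp
  have h1 : δ / ρ ≤ 1 / 4 := by rw [div_le_iff₀ hρ]; linarith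
  have h2 : ρ / 2 / ρ = 1 / 2 := by field_simp
  have := (lh h hρ).lip (bd_dom h hρ) (mem_dom hρ hA) (mem_dom hρ hB) (by positivity)
    (by linarith)
  rw [add_sub_cancel, h2] at this
  refine this.trans ?_
  have h3 : 0 ≤ κ * (δ / ρ) := by positivity
  rw [mul_div_assoc (8 * κ), div_le_iff₀ (by norm_num)]
  linarith

theorem Tm.continuousOn {R : ℕ} {ρ κ : ℝ} {φ : Fld → ℂ} (h : Tm R ρ κ φ) (hρ : 0 < ρ) :
    ContinuousOn φ {A | Cv R (ρ / 2) A} := by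
  intro A hA
  have κ0 := h.nonneg hρ.le
  refine ContinuousAt.continuousWithinAt (Metric.continuousAt_iff'.2 fun ε hε => ?_)
  set δ := min (ρ / 4) (ε * ρ / (16 * κ + 1)) with hδ
  have δ0 : 0 < δ := by positivity
  have : ∀ᶠ B in nhds A, Cv R δ (B - A) := by
    simp only [Cv, Filter.eventually_all_finset, Filter.eventually_all]
    intro x _ μ ν
    have c : Continuous fun B : Fld => ‖dd (B - A) x μ ν‖ := by
      simp only [dd, Pi.sub_apply]; fun_prop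
    exact (c.continuousAt.eventually_lt continuousAt_const (by simpa [dd_zero] using δ0)).mono
      fun B hB => hB.le
  filter_upwards [this] with B hB
  rw [dist_eq_norm]
  refine (h.lip hρ hA hB (min_le_left _ _)).trans_lt ?_
  have h3 := (le_div_iff₀ (by positivity)).1 (min_le_right (ρ / 4) (ε * ρ / (16 * κ + 1)))
  rw [div_lt_iff₀ hρ]
  nlinarith

theorem Tm.measurable {R : ℕ} {ρ κ : ℝ} {φ : Fld → ℂ} (h : Tm R ρ κ φ) (hρ : 0 < ρ) {Z : Type}
    [MeasurableSpace Z] {γ : Z → Fld} (hγ : Measurable γ) (hb : ∀ z, Cv R (ρ / 2) (γ z)) :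
    Measurable fun z => φ (γ z) :=
  (continuousOn_iff_continuous_domRestrict.1 (h.continuousOn hρ)).measurable.comp
    (hγ.subtype_mk (h := hb))

theorem decouple {ι J Z : Type} [Fintype ι] [Fintype J] [DecidableEq J] [MeasurableSpace Z]
    (ν : Measure Z) [IsProbabilityMeasure ν] (S : J → (ι → Z) → ℝ) (hS : ∀ j, Measurable (S j))
    (dep : J → Set ι) (hd : ∀ j z z', (∀ i ∈ dep j, z i = z' i) → S j z = S j z')
    (d : J → J → ℕ) (d0 : ∀ j, d j j = 0) (dt : ∀ a b c, d a c ≤ d a b + d b c)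
    (dd : ∀ a b, 1 < d a b → Disjoint (dep a) (dep b)) {θ : ℝ} (hθ : ∀ j z, |S j z| ≤ θ)
    (n : ℕ) (B : J → Finset J) (hB : ∀ j j', d j j' ≤ n → j' ∈ B j)
    (hc : ∀ j, (B j).card * θ ≤ 1 / 100) :
    |Real.log (∫ z, Real.exp (-∑ j, S j z) ∂Measure.pi fun _ => ν) +
      ∑ j, ∫ t in (0 : ℝ)..1,
        (∫ z, S j z * Real.exp (-(t * ∑ j' ∈ B j, S j' z)) ∂Measure.pi fun _ => ν) /
          ∫ z, Real.exp (-(t * ∑ j' ∈ B j, S j' z)) ∂Measure.pi fun _ => ν| ≤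
      Fintype.card J * (8 * θ * 2⁻¹ ^ n) := by
  classical
  let N : J → ℕ → Finset J := fun j i =>
    if i < n then univ.filter (d j · ≤ i) else if i = n then B j else univ
  let Λ : J → ℕ → Set ι := fun j i => ⋃ k < i, ⋃ j' ∈ N j k, dep j'
  have hN : ∀ j i j', i ≤ n → d j j' ≤ i → j' ∈ N j i := fun j i j' hi h => by
    simp only [N]
    split_ifs with h1 h2
    · simpa using h
    · exact hB _ _ (h2 ▸ h)
    · exact mem_univ _
  have hN' : ∀ j i j', i < n → j' ∈ N j i → d j j' ≤ i := fun j i j' hi h => by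
    simpa [N, hi] using h
  have hN'' : ∀ j i j', n < i → j' ∈ N j i := fun j i j' hi => by
    simp [N, hi.not_gt, hi.ne']
  have key := Kit.logZ (fun _ : ι => ν) (φ := fun j z => -S j z) (δ := θ) (fun j => (hS j).neg)
    (fun j z => by rw [abs_neg]; exact hθ j z) n N Λ
    (fun j i k hik j' h => by
      rcases lt_or_ge n k with hk | hk
      · exact hN'' _ _ _ hk
      rcases hik.eq_or_lt with rfl | hik'
      · exact h
      · exact hN _ _ _ hk ((hN' _ _ _ (by omega) h).trans hik))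
    (fun j i k hik => Set.biUnion_subset_biUnion_left fun _ h => lt_of_lt_of_le h hik)
    (fun j => hN _ _ _ (Nat.zero_le _) (d0 j).le)
    (fun j i j' h z z' e => by
      beta_reduce
      rw [hd j' z z' fun x hx => e x (Set.mem_biUnion (Nat.lt_succ_self i)
        (Set.mem_biUnion (s := (N j i : Set J)) h hx))])
    (fun j i j' h z z' e => by
      beta_reduce
      rw [hd j' z z' fun x hx => e x fun hΛ => ?_]
      simp only [Λ, Set.mem_iUnion] at hΛ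
      obtain ⟨k, hk, j'', h1, h2⟩ := hΛ
      have hi : i ≤ n := le_of_not_gt fun hi => h (hN'' _ _ _ hi)
      have h3 := hN' _ _ _ (by omega) h1
      have h4 : i < d j j' := lt_of_not_ge fun h' => h (hN _ _ _ hi h')
      have h5 := dt j j'' j'
      exact Set.disjoint_left.1 (dd j'' j' (by omega)) h2 hx)
    (fun j => by
      have : N j n = B j := by simp [N]
      rw [this, mul_comm]
      exact (hc j).trans (by norm_num))
  have e : ∀ j, N j n = B j := fun j => by simp [N]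
  simp only [e, Kit.tE, sum_neg_distrib, mul_neg, neg_mul, integral_neg, neg_div,
    intervalIntegral.integral_neg, sub_neg_eq_add] at key
  refine key.trans ?_
  rcases isEmpty_or_nonempty J with hJ | ⟨⟨j⟩⟩
  · simp
  obtain ⟨z⟩ : Nonempty (ι → Z) := nonempty_of_isProbabilityMeasure (Measure.pi fun _ => ν)
  have θ0 : 0 ≤ θ := (abs_nonneg _).trans (hθ j z)
  rw [one_div]
  gcongr
  norm_num

end Pool.Agent.Lib.MP_7f377f_mp.RG
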