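import Pool.Agent.Lib.MP_7f377f_mp.RGSmC
import Pool.Agent.Lib.MP_7f377f_mp.RGSmE
import Pool.Agent.Lib.MP_7f377f_mp.RGOp5
import Pool.Agent.Lib.MP_7f377f_mp.RGHol1

/-! Size, measurability and holomorphy of the small interaction. -/

noncomputable section

namespace Pool.Agent.Lib.MP_7f377f_mp.RG.JS

open Finset

attribute [local irreducible] box lbox

variable {D : Dat} {c R : ℕ} {τ ρ κ P δ : ℝ} {B : Fld}

/-- the input from the estimates on the background field and on the operators -/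
structure Pre (D : Dat) (c R : ℕ) (P δ : ℝ) : Prop where
  big : Big D c R P
  small : P ^ 3 * δ ≤ 1
  az : ∀ B : Fld, (∀ e, ‖B e‖ ≤ δ) → ∀ z f, ‖D.Az (exF B) z f‖ ≤ P * (D.g * D.ζ)
  dt : ∀ B : Fld, (∀ e, ‖B e‖ ≤ δ) → ‖D.dt (exF B) - D.dt 1‖ ≤ P ^ 2 * δ
  uz : ∀ B A : Fld, (∀ e, ‖B e‖ ≤ δ) → (∀ e, ‖A e‖ ≤ δ) → ∀ e,
    ‖(A + cxL (mu D.l D.s) B) e‖ ≤ P * δ ∧
      ‖D.Uz (exF B) A e - 1 - io ((A + cxL (mu D.l D.s) B) e)‖ ≤ P * δ ^ 2
  disc : ∀ (Ω : Set ℂ) (B A : ℂ → Fld), Disc Ω B → Disc Ω A → (∀ t ∈ Ω, ∀ e, ‖B t e‖ ≤ δ) →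
    (∀ t ∈ Ω, ∀ e, ‖A t e‖ ≤ δ) → Disc Ω fun t => D.Uz (exF (B t)) (A t)

theorem exists_lbox (e : Lk) : ∃ a, e ∈ lbox a :=
  ⟨univ.sup fun i => (e.1 i).natAbs, Li.mem_lbox.2 (Li.mem_box.2 fun i => by
    rw [← Int.natCast_natAbs]
    exact_mod_cast le_sup (f := fun i => (e.1 i).natAbs) (mem_univ i))⟩

theorem g_nonneg (D : Dat) : 0 ≤ D.g := inv_nonneg.2 (Real.sqrt_nonneg _)

theorem norm_zc (h : D.Ok c τ R ρ κ) (z : Lk → E3) (f : Lk) : ‖zc D.ζ z f‖ ≤ D.ζ := by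
  have := h.zeta
  simp only [zc]
  split_ifs with hz
  · refine (pi_norm_le_iff_of_nonneg (by linarith)).2 fun k => le_trans ?_ hz
    simpa [cE] using PiLp.norm_apply_le (z f) k
  · rw [norm_zero]; linarith

theorem LL_ge (h : D.Ok c τ R ρ κ) : (10 : ℝ) ^ 6 ≤ LL D.l := by
  have h1 := h.r_ge
  have h2 := h.r_le
  have : 10 ^ 6 ≤ LL D.l := by unfold LL; nlinarith
  exact_mod_cast this

theorem exists_pre (c : ℕ) : ∃ K : ℕ, ∀ (D : Dat) (R : ℕ) (τ ρ κ δ : ℝ), D.Ok c τ R ρ κ →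
    K ≤ D.l → 0 ≤ δ → ((LL D.l : ℝ) ^ K) ^ 3 * δ ≤ 1 → Pre D c R ((LL D.l : ℝ) ^ K) δ := by
  obtain ⟨K1, h1⟩ := pol_bd c
  obtain ⟨K2, h2⟩ := Us_ap c
  refine ⟨K1 + K2 + 2 * c + 9, fun D R τ ρ κ δ h hK δ0 hδ => ?_⟩
  have L1 := one_le_LL D.l
  have L6 := LL_ge h
  have pw : ∀ n, n ≤ K1 + K2 + 2 * c + 8 →
      10 ^ 6 * (LL D.l : ℝ) ^ n ≤ LL D.l ^ (K1 + K2 + 2 * c + 9) := fun n hn => by
    rw [pow_succ' _ (K1 + K2 + 2 * c + 8)]
    gcongr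
  have p1 : ∀ n, (1 : ℝ) ≤ LL D.l ^ n := fun n => one_le_pow₀ L1
  set P := (LL D.l : ℝ) ^ (K1 + K2 + 2 * c + 9)
  have b : Big D c R P := by
    have : (R : ℝ) ≤ LL D.l ^ (2 * c + 8) := by exact_mod_cast h.rad
    exact ⟨by simpa using pw 0 (by omega), by linarith [pw 4 (by omega), p1 4],
      by linarith [pw c (by omega), p1 c], by linarith [pw (2 * c + 8) (by omega), p1 (2 * c + 8)]⟩
  obtain ⟨s1, s2, s3⟩ := pow_small b.p0 δ0 hδ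
  have a1 : (LL D.l : ℝ) ^ K1 ≤ P := by linarith [pw K1 (by omega), p1 K1]
  have a2 : (LL D.l : ℝ) ^ K2 ≤ P := by linarith [pw K2 (by omega), p1 K2]
  have k1 := fun (B : Fld) (hB : ∀ e, ‖B e‖ ≤ δ) => h1 D R τ ρ κ (4 * δ) h (by omega)
    (by nlinarith) (exF B) fun e => (exF_ap b.p0 hδ hB e).1
  obtain ⟨k2, k3⟩ := h2 D R τ ρ κ δ h (by omega) (by nlinarith)
  refine ⟨b, hδ, fun B hB z f => ?_, fun B hB => (k1 B hB).2.trans ?_, fun B A hB hA e => ?_, k3⟩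
  · rw [Dat.Az, Pi.smul_apply, norm_smul, Complex.norm_real, Real.norm_of_nonneg (g_nonneg D),
      mul_left_comm]
    refine mul_le_mul_of_nonneg_left (((k1 B hB).1 _ _ (norm_zc h z) f).trans ?_) (g_nonneg D)
    exact mul_le_mul_of_nonneg_right a1 (zero_le_one.trans h.zeta)
  · calc _ ≤ P * (4 * δ) := by gcongr
      _ = 4 * (P * δ) := by ring
      _ ≤ P * (P * δ) := by gcongr; linarith [b.p0]
      _ = _ := by ring
  · obtain ⟨a, ha⟩ := exists_lbox e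
    exact ⟨(k2 B A hB hA a e ha).1.trans (by gcongr), (k2 B A hB hA a e ha).2.trans (by gcongr)⟩

theorem ex_zero : ex 0 = 1 := by simp [ex, dot, show io 0 = 0 from ioL.map_zero]

theorem Uz_zero (D : Dat) (W : Cf) : D.Uz W 0 = D.Us W := by
  funext f; simp [Dat.Uz]

theorem Pre.us (p : Pre D c R P δ) (hB : ∀ e, ‖B e‖ ≤ δ) (e : Lk) :
    ‖cxL (mu D.l D.s) B e‖ ≤ P * δ ∧
      ‖D.Us (exF B) e - 1 - io (cxL (mu D.l D.s) B e)‖ ≤ P * δ ^ 2 := by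
  simpa only [Uz_zero, zero_add] using p.uz B 0 hB
    (fun e => by simpa using (norm_nonneg _).trans (hB e)) e

/-- curvature bounds used for the old small term -/
theorem Pre.cv (p : Pre D c R P δ) (h : D.Ok c τ R ρ κ) (h0 : ρ ≤ δ) (h6 : P ^ 6 * δ ^ 2 ≤ ρ)
    (h2 : P * (P * (D.g * D.ζ)) ≤ ρ) (hB : ∀ e, ‖B e‖ ≤ δ) (hc : Cv (D.Rs R) ρ B) (z : Lk → E3) :
    (∀ e, ‖D.Az (exF B) z e‖ ≤ δ) ∧ 8 * (P ^ 5 * δ ^ 2) + 4 * (P * (D.g * D.ζ)) ≤ ρ / 4 ∧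
    ∀ x ∈ box D.l, Cv R (ρ / 4) (Bx x (D.Us (exF B))) ∧
      Cv R (8 * (P ^ 5 * δ ^ 2) + 4 * (P * (D.g * D.ζ)))
        (Bx x (D.Uz (exF B) (D.Az (exF B) z)) - Bx x (D.Us (exF B))) ∧
      Cv R (ρ / 2) (Bx x (D.Uz (exF B) (D.Az (exF B) z))) := by
  have hA := p.az B hB z
  have α0 := (norm_nonneg _).trans (hA (0, 0))
  have q1 := mul_le_mul_of_nonneg_right p.big.p0 α0
  have q2 := mul_le_mul_of_nonneg_right p.big.p0
    (show 0 ≤ P ^ 5 * δ ^ 2 by have := p.big.one; positivity)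
  have hA' : ∀ e, ‖D.Az (exF B) z e‖ ≤ δ := fun e => (hA e).trans (by linarith)
  have q3 : 8 * (P ^ 5 * δ ^ 2) + 4 * (P * (D.g * D.ζ)) ≤ ρ / 4 := by nlinarith [h.rho]
  refine ⟨hA', q3, fun x hx => ?_⟩
  have c1 := cv_Us h p.big p.small h6 hc (p.us hB) hx
  have c2 := cv_Uz p.big p.small hA (p.uz B _ hB hA') (p.us hB) x
  refine ⟨c1, c2, ?_⟩
  have := cv_add c2 c1
  rw [sub_add_cancel] at this
  exact cv_mono this le_rfl (by linarith)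

theorem s0_bd (p : Pre D c R P δ) (h : D.Ok c τ R ρ κ) (h0 : ρ ≤ δ) (h6 : P ^ 6 * δ ^ 2 ≤ ρ)
    (h2 : P * (P * (D.g * D.ζ)) ≤ ρ) (hB : ∀ e, ‖B e‖ ≤ δ) (hc : Cv (D.Rs R) ρ B) (z : Lk → E3) :
    ‖D.s0 (exF B) z‖ ≤ P ^ 13 * (D.β * δ ^ 3 + D.β * τ * ρ * (D.g * D.ζ) +
      κ * (D.g * D.ζ + δ ^ 2) / ρ + (D.g * D.ζ) ^ 2) := by
  obtain ⟨hA', q3, hx⟩ := p.cv h h0 h6 h2 hB hc z
  have hA := p.az B hB z
  have δ0 : 0 ≤ δ := (norm_nonneg _).trans (hB (0, 0))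
  have P1 := p.big.one
  have P6 := p.big.p0
  have γ0 : 0 ≤ D.g * D.ζ := mul_nonneg (g_nonneg D) (zero_le_one.trans h.zeta)
  obtain ⟨s1, s2, s3⟩ := pow_small P6 δ0 p.small
  have s4 : P * (D.g * D.ζ) ≤ δ := by nlinarith [mul_nonneg (zero_le_one.trans P1) γ0]
  have k1 := e1_bd h p.big p.small hB hA' (p.uz B _ hB hA')
  have k2 := e2_bd h p.big p.small hB hA s4 (fun f hf => by simp [Dat.Az, Dat.pol_tree _ _ _ hf])
    (cv_mono hc (by unfold Dat.Rs; generalize R / LL D.l = q; omega) le_rfl)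
  have k3 := norm_sum_le_of_le (box D.l) fun x hx' => h.psi.lip h.rho
    (cv_mono (hx x hx').1 le_rfl (by linarith [h.rho])) (hx x hx').2.1 q3
  have k4 := e4_bd p.big hA (by linarith)
  rw [sum_const, nsmul_eq_mul, card_boxR] at k3
  refine (norm_add_le_of_le (norm_add_le_of_le (norm_add_le_of_le k1 k2) k3) k4).trans ?_
  have β0 := zero_le_one.trans h.beta
  have κ0 := kappa_nonneg h
  have τ0 := h.tau
  have ρ0 := h.rho
  have pw : ∀ n ≤ 13, P ^ n ≤ P ^ 13 := fun n hn => pow_le_pow_right₀ P1 hn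
  set γ := D.g * D.ζ
  have t1 : 2 * (D.β * (P ^ 12 * δ ^ 3)) ≤ P ^ 13 * (D.β * δ ^ 3) := by
    calc _ ≤ P * (D.β * (P ^ 12 * δ ^ 3)) := by gcongr; linarith
      _ = _ := by ring
  have t2 : P * (D.β * τ * ρ * (P * γ)) ≤ P ^ 13 * (D.β * τ * ρ * γ) := by
    calc _ = P ^ 2 * (D.β * τ * ρ * γ) := by ring
      _ ≤ _ := by gcongr; norm_num
  have t3 : (LL D.l : ℝ) ^ 4 * (8 * κ * (8 * (P ^ 5 * δ ^ 2) + 4 * (P * γ)) / ρ) ≤
      P ^ 13 * (κ * (γ + δ ^ 2) / ρ) := by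
    calc _ ≤ (LL D.l : ℝ) ^ 4 * (8 * κ * (8 * (P ^ 5 * δ ^ 2) + 8 * (P ^ 5 * γ)) / ρ) := by
          gcongr
          · norm_num
          · exact le_self_pow₀ P1 (by norm_num)
      _ = 64 * (LL D.l : ℝ) ^ 4 * P ^ 5 * (κ * (γ + δ ^ 2) / ρ) := by ring
      _ ≤ P * P ^ 5 * (κ * (γ + δ ^ 2) / ρ) := by
          gcongr
          linarith [p.big.pL, pow_nonneg (Nat.cast_nonneg (α := ℝ) (LL D.l)) 4]
      _ ≤ _ := by gcongr; exact (pow_succ' P 5).ge.trans (pw 6 (by norm_num))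
  have t4 : P * (P * γ) ^ 2 ≤ P ^ 13 * γ ^ 2 := by
    calc _ = P ^ 3 * γ ^ 2 := by ring
      _ ≤ _ := by gcongr; norm_num
  simp only [mul_add (P ^ 13)]
  linarith

theorem clMeas {Z : Type} [MeasurableSpace Z] : Cl fun f : Z → ℂ => Measurable f :=
  ⟨fun _ => measurable_const, fun a b => a.add b, fun a b => a.mul b⟩

theorem s0_meas (h : D.Ok c τ R ρ κ) {W : Cf}
    (hc : ∀ x ∈ box D.l, ∀ z, Cv R (ρ / 2) (Bx x (D.Uz W (D.Az W z)))) : Measurable (D.s0 W) := by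
  have m1 : Measurable (zc D.ζ) := measurable_pi_lambda _ fun f =>
    Measurable.ite (measurableSet_le (measurable_pi_apply f).norm measurable_const)
      (measurable_pi_lambda _ fun k => by simp only [cE]; fun_prop) measurable_const
  have m2 : Measurable (D.Az W) := ((Dat.pol_cont h _ W).measurable.comp m1).const_smul (D.g : ℂ)
  have m3 : ∀ e, PV (fun f => Measurable f) fun z => D.Az W z e := fun e k =>
    (measurable_pi_apply k).comp ((measurable_pi_apply e).comp m2)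
  have mc : ∀ q : Hc, PQ (fun f : (Lk → E3) → ℂ => Measurable f) fun _ => q := fun q =>
    ⟨measurable_const, measurable_const, measurable_const, measurable_const⟩
  have m4 : ∀ e, PQ (fun f => Measurable f) fun z => D.Uz W (D.Az W z) e := fun e =>
    clMeas.qmul (clMeas.qsmul ((clMeas.add clMeas.one (clMeas.dot (m3 e) (m3 e))).pow_const _)
      (clMeas.qadd clMeas.qone (clMeas.io (m3 e)))) (mc _)
  have m5 := Bx_measurable fun e => ⟨(m4 e).1, measurable_pi_lambda _ (Cl.co (m4 e))⟩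
  exact clMeas.s0 h (W := fun _ => W) (A := D.Az W) (fun _ _ => mc _) (fun e _ => m3 e)
    (fun e _ => m4 e) (fun x _ e _ k => (measurable_pi_apply k).comp
      ((measurable_pi_apply e).comp (m5 x))) (fun _ _ _ _ _ => measurable_const)
    (fun _ a => a.inv) (fun x hx => ⟨h.psi.measurable h.rho (m5 x) (hc x hx), measurable_const⟩)
    fun f _ => (clMeas.add clMeas.one (clMeas.dot (m3 f) (m3 f))).clog

variable {Ω : Set ℂ}

theorem clDiff (Ω : Set ℂ) : Cl fun f : ℂ → ℂ => DifferentiableOn ℂ f Ω :=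
  ⟨fun _ => differentiableOn_const _, fun a b => a.add b, fun a b => a.mul b⟩

theorem PQ_diff {q : ℂ → Hc} (h : DifferentiableOn ℂ q Ω) :
    PQ (fun f => DifferentiableOn ℂ f Ω) q := by
  have h1 := (LinearMap.mkContinuous (⟨⟨fun q : Hc => q.re, fun _ _ => rfl⟩, fun _ _ => rfl⟩ :
    Hc →ₗ[ℂ] ℂ) 1 fun q => (norm_re q).trans_eq (one_mul _).symm).differentiable.comp_differentiableOn h
  have h2 := differentiableOn_pi.1 ((LinearMap.mkContinuous (⟨⟨co, fun _ _ => by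
    funext k; fin_cases k <;> rfl⟩, fun _ _ => by funext k; fin_cases k <;> rfl⟩ :
    Hc →ₗ[ℂ] C3) 1 fun q => (norm_co q).trans_eq (one_mul _).symm).differentiable.comp_differentiableOn h)
  exact ⟨h1, h2 0, h2 1, h2 2⟩

theorem slit {b : C3} (h : ‖b‖ ≤ 1 / 10) : 1 + dot b b ∈ Complex.slitPlane :=
  Complex.mem_slitPlane_of_norm_lt_one ((norm_dot b b).trans_lt (by nlinarith [norm_nonneg b]))

theorem exF_disc {B : ℂ → Fld} (hB : Disc Ω B) (h : ∀ t ∈ Ω, ∀ e, ‖B t e‖ ≤ 1 / 10) :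
    Disc Ω fun t => exF (B t) := fun e => by
  have d := differentiableOn_pi.1 (hB e)
  exact (((clDiff Ω).add (clDiff Ω).one ((clDiff Ω).dot d d)).cpow_const
    fun t ht => slit (h t ht e)).smul (((ioL.mkContinuous 3 norm_io).differentiable
      |>.comp_differentiableOn (hB e)).const_add 1)

theorem agr_cut {W : Type} [AddCommGroup W] (n : ℕ) (a : Lk → W) : Agr n (cut n a) a :=
  fun _ he => if_pos he

theorem Bx_disc' (hP : 10 ^ 6 ≤ P) (δ0 : 0 ≤ δ) (h3 : P ^ 3 * δ ≤ 1) {U : ℂ → Cf} (hU : Disc Ω U)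
    (h : ∀ t ∈ Ω, ∀ e, ‖U t e - 1‖ ≤ 4 * (P * δ)) {n : ℕ} (hn : n + 1 ≤ P) (x : St) :
    Disc Ω fun t => cut n (Bx x (U t)) := by
  simp only [Bx_eq x]
  refine Bx_disc (fun e => hU _) (fun t ht e _ => h t ht _) ?_
  have P0 : 0 ≤ P := le_trans (by norm_num) hP
  calc _ ≤ 1000 * P * (4 * (P * δ)) := by gcongr
    _ = 4000 * (P ^ 2 * δ) := by ring
    _ ≤ 1 := by linarith [(pow_small hP δ0 h3).1, mul_nonneg (sq_nonneg P) δ0]

theorem PF_cut {n : ℕ} {A : ℂ → Fld} (h : Disc Ω fun t => cut n (A t)) :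
    PF (fun f => DifferentiableOn ℂ f Ω) n A := fun e he => by
  have := h e
  simp only [cut, if_pos he] at this
  exact differentiableOn_pi.1 this

theorem psi_diff {ψ : Fld → ℂ} (h : Tm R ρ κ ψ) (hΩ : IsOpen Ω) {A : ℂ → Fld}
    (hA : Disc Ω fun t => cut (R + 1) (A t)) (hc : ∀ t ∈ Ω, Cv R ρ (A t)) :
    DifferentiableOn ℂ (fun t => ψ (A t)) Ω :=
  (h.hol Ω _ hΩ hA fun t ht x hx μ ν => by
    rw [dd_agr (agr_cut _ _) hx]; exact hc t ht x hx μ ν).congr fun t _ =>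
      h.loc _ _ fun _ hx μ ν => (dd_agr (agr_cut _ _) hx μ ν).symm

theorem s0_diff (p : Pre D c R P δ) (h : D.Ok c τ R ρ κ) (h0 : ρ ≤ δ) (h6 : P ^ 6 * δ ^ 2 ≤ ρ)
    (h2 : P * (P * (D.g * D.ζ)) ≤ ρ) (hΩ : IsOpen Ω) {B : ℂ → Fld} (dB : Disc Ω B)
    (hB : ∀ t ∈ Ω, ∀ e, ‖B t e‖ ≤ δ) (hc : ∀ t ∈ Ω, Cv (D.Rs R) ρ (B t)) (z : Lk → E3) :
    DifferentiableOn ℂ (fun t => D.s0 (exF (B t)) z) Ω := by
  have k := fun t ht => p.cv h h0 h6 h2 (hB t ht) (hc t ht) z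
  have δ0 : 0 ≤ δ := h.rho.le.trans h0
  have P6 := p.big.p0
  obtain ⟨s1, s2, s3⟩ := pow_small P6 δ0 p.small
  have dW := exF_disc dB fun t ht e => (hB t ht e).trans (by linarith)
  have dA : Disc Ω fun t => D.Az (exF (B t)) z := fun e =>
    (Dat.pol_disc h _ dW _ e).const_smul (D.g : ℂ)
  have dU := p.disc Ω B _ dB dA hB fun t ht => (k t ht).1
  have dS := p.disc Ω B (fun _ => 0) dB (fun _ => differentiableOn_const _) hB
    fun t ht e => by simpa using δ0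
  simp only [Uz_zero] at dS
  have s4 : 3 * (P * δ) + P * δ ^ 2 ≤ 4 * (P * δ) := by nlinarith
  have bU := @Bx_disc' _ _ _ P6 δ0 p.small _ dU fun t ht e =>
    (near_one (p.uz _ _ (hB t ht) (k t ht).1 e)).trans s4
  have bS := @Bx_disc' _ _ _ P6 δ0 p.small _ dS fun t ht e => (near_one (p.us (hB t ht) e)).trans s4
  have bW := @Bx_disc' _ _ _ P6 δ0 p.small _ dW fun t ht e =>
    (exF_ap P6 p.small (hB t ht) e).1.trans (by linarith)
  have r1 := p.big.r h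
  have r2 : ((R + 1 : ℕ) : ℝ) + 1 ≤ P := by push_cast; linarith [p.big.pR]
  refine (clDiff Ω).s0 h (W := fun t => exF (B t)) (A := fun t => D.Az (exF (B t)) z)
    (fun e _ => PQ_diff (dW e)) (fun e _ => differentiableOn_pi.1 (dA e))
    (fun e _ => PQ_diff (dU e)) (fun x _ => PF_cut (bU (by push_cast; linarith) x))
    (fun x _ => PF_cut (bW (by linarith) x)) (fun μ a => a.inv fun t ht => ?_)
    (fun x hx => ⟨psi_diff h.psi hΩ (bU r2 x) fun t ht =>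
      cv_mono ((k t ht).2.2 x hx).2.2 le_rfl (by linarith [h.rho]),
      psi_diff h.psi hΩ (bS r2 x) fun t ht =>
      cv_mono ((k t ht).2.2 x hx).1 le_rfl (by linarith [h.rho])⟩) fun f _ => ?_
  · have := near_one (rq_ap P6 p.small p.big.L (p.uz _ _ (hB t ht) (k t ht).1) (hB t ht) μ)
    refine norm_pos_iff.1 ((re_ne (this.trans ?_)).trans_lt' (by norm_num))
    have : 0 ≤ P ^ 2 * δ := by positivity
    nlinarith
  · have d := differentiableOn_pi.1 (dA f)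
    exact ((clDiff Ω).add (clDiff Ω).one ((clDiff Ω).dot d d)).clog fun t ht =>
      slit (((k t ht).1 f).trans (by linarith))

theorem _root_.Pool.Agent.Lib.MP_7f377f_mp.RG.s0_main (c : ℕ) :
    ∃ K : ℕ, ∀ (D : Dat) (R : ℕ) (τ ρ κ δ : ℝ), D.Ok c τ R ρ κ →
    K ≤ D.l → ρ ≤ δ → (LL D.l : ℝ) ^ K * δ ≤ 1 → (LL D.l : ℝ) ^ K * δ ^ 2 ≤ ρ →
    (LL D.l : ℝ) ^ K * (D.g * D.ζ) ≤ ρ →
      (∀ B : Fld, (∀ e, ‖B e‖ ≤ δ) → Cv (D.Rs R) ρ B →
        (∀ z, ‖D.s0 (exF B) z‖ ≤ D.th0 K τ ρ κ δ) ∧ Measurable (D.s0 (exF B))) ∧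
      (∀ (Ω : Set ℂ) (B : ℂ → Fld), IsOpen Ω → Disc Ω B → (∀ t ∈ Ω, ∀ e, ‖B t e‖ ≤ δ) →
        (∀ t ∈ Ω, Cv (D.Rs R) ρ (B t)) → ∀ z,
          DifferentiableOn ℂ (fun t => D.s0 (exF (B t)) z) Ω) := by
  obtain ⟨K, hK⟩ := exists_pre c
  refine ⟨K * 13, fun D R τ ρ κ δ h hl h0 h1 h2 h3 => ?_⟩
  have δ0 : 0 ≤ δ := h.rho.le.trans h0
  have γ0 : 0 ≤ D.g * D.ζ := mul_nonneg (g_nonneg D) (zero_le_one.trans h.zeta)
  have P1 : (1 : ℝ) ≤ LL D.l ^ K := one_le_pow₀ (one_le_LL _)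
  rw [pow_mul] at h1 h2 h3
  have p := hK D R τ ρ κ δ h (by omega) δ0 (le_trans (by gcongr; norm_num) h1)
  have h6 : ((LL D.l : ℝ) ^ K) ^ 6 * δ ^ 2 ≤ ρ := le_trans (by gcongr; norm_num) h2
  have h7 : (LL D.l : ℝ) ^ K * ((LL D.l : ℝ) ^ K * (D.g * D.ζ)) ≤ ρ := by
    rw [← mul_assoc, ← sq]
    exact le_trans (by gcongr; norm_num) h3
  refine ⟨fun B hB hc => ⟨fun z => ?_, s0_meas h fun x hx z =>
    ((p.cv h h0 h6 h7 hB hc z).2.2 x hx).2.2⟩, fun Ω B hΩ dB hB hc z =>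
      s0_diff p h h0 h6 h7 hΩ dB hB hc z⟩
  rw [Dat.th0, pow_mul]
  exact s0_bd p h h0 h6 h7 hB hc z

end Pool.Agent.Lib.MP_7f377f_mp.RG.JS
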