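import Pool.Agent.Lib.MP_7f377f_mp.Q4TrD

/-! The tree step: gauge covariance, reality and holomorphy on good fields. -/

noncomputable section

namespace Pool.Agent.Lib.MP_7f377f_mp.RG.Q4

open Finset

attribute [local irreducible] box lbox

/-- real gauge transformations of the block field -/
abbrev gS (u : St → S3) (W : Cf) : Cf := gauge star (fun x => cS (u x)) W

/-- the corresponding rotations of the fluctuation field -/
abbrev aS (l : ℕ) (u : St → S3) (A : Fld) : Fld := adF (fun x => cS (u (yo l x))) A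

theorem nsq_adq (g : S3) (b : C3) : ∑ k, ‖adq (cS g) b k‖ ^ 2 = ∑ k, ‖b k‖ ^ 2 := by
  have h1 : ∀ b : C3, ((∑ k, ‖b k‖ ^ 2 : ℝ) : ℂ) = dot b (star b) := fun b => by
    simp [dot, Complex.mul_conj, Complex.normSq_eq_norm_sq]
  have h2 : star (adq (cS g) b) = adq (cS g) (star b) := by
    funext k
    fin_cases k <;> simp [adq, co, io, cS, cq]
  exact Complex.ofReal_injective (by rw [h1, h1, h2, dot_adq_adq (uni_cS g)])

theorem nsq_le (b : C3) : ∑ k, ‖b k‖ ^ 2 ≤ 3 * ‖b‖ ^ 2 :=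
  (sum_le_card_nsmul _ _ _ fun k _ => pow_le_pow_left₀ (norm_nonneg _) (norm_le_pi_norm b k) 2).trans_eq
    (by simp)

theorem norm_adq_two (g : S3) (b : C3) : ‖adq (cS g) b‖ ≤ 2 * ‖b‖ :=
  abs_le_of_sq_le_sq' ((norm_sq_le _).trans ((nsq_adq g b).trans_le ((nsq_le b).trans
    (by nlinarith)))) (by positivity) |>.2

theorem aS_inv (l : ℕ) (u : St → S3) (A : Fld) : aS l u (aS l (fun x => (u x)⁻¹) A) = A :=
  funext fun e => by simp only [adF, cS_inv, Op.adq_adq_star (uni_cS _)]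

theorem aS_inv' (l : ℕ) (u : St → S3) (A : Fld) : aS l (fun x => (u x)⁻¹) (aS l u A) = A :=
  funext fun e => by simp only [adF, cS_inv, adq_star_adq (uni_cS _)]

theorem sm_aS {l R : ℕ} {α : ℝ} {A : Fld} (h : Sm R α A) (u : St → S3) : Sm R (2 * α) (aS l u A) :=
  fun e he => (norm_adq_two _ _).trans (by linarith [h e he])

theorem aS_zero (l : ℕ) (u : St → S3) : aS l u 0 = 0 := funext fun _ => adq_zero _

theorem sh_gS (y : St) (u : St → S3) (W : Cf) : sh y (gS u W) = gS (fun x => u (x + y)) (sh y W) :=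
  sh_gauge _ _ _ _

theorem gS_inv (u : St → S3) (W : Cf) : gS (fun x => (u x)⁻¹) (gS u W) = W := funext fun e => by
  simp only [gauge, cS_inv, star_star, mul_assoc, (uni_cS _).star_mul, mul_one]
  rw [← mul_assoc, (uni_cS _).star_mul, one_mul]

theorem Gd.mono {R R' : ℕ} {d d' : ℝ} {W : Cf} (h : Gd R d W) (hR : R' ≤ R) (hd : d ≤ d') :
    Gd R' d' W :=
  let ⟨u, B, h1, h2⟩ := h; ⟨u, B, fun e => (h1 e).trans hd, h2.mono hR⟩

theorem Gd.sh {R n : ℕ} {d : ℝ} {W : Cf} (h : Gd (R + n) d W) {y : St} (hy : y ∈ box n) :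
    Gd R d (sh y W) :=
  let ⟨u, B, h1, h2⟩ := h; ⟨fun x => u (x + y), RG.sh y B, fun _ => h1 _, by
    have := h2.sh hy
    rwa [sh_gS] at this⟩

theorem gd_exF {d : ℝ} {B : Fld} (h : ∀ e, ‖B e‖ ≤ d) (R : ℕ) : Gd R d (exF B) :=
  ⟨1, B, h, fun e _ => by simp [gauge, cS_one]⟩

/-- real fields of small curvature in the comb gauge -/
theorem comb_real {R : ℕ} {ε : ℝ} {W : Conf} (h : ∀ x ∈ box R, ∀ μ ν, fq W x μ ν ≤ ε)
    (h1 : 6 * R * ε ≤ 1) : (∀ e, ‖cut R (Bx 0 (cC W)) e‖ ≤ 6 * R * ε) ∧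
      Agr R (cC W) (gS (fun x => (cmb Inv.inv W x)⁻¹) (exF (cut R (Bx 0 (cC W))))) := by
  have a := fun e (he : e ∈ lbox R) => ch_cS_le (comb_small (ε := ε) (fun _ _ h _ => fix_tr W h)
    (fun x hx μ ν => by rw [hol_gauge_inv, S3.norm_conj_sub]; exact h x hx μ ν) he) (by linarith)
  refine ⟨Sm.cut fun e he => ?_, fun e he => ?_⟩
  · rw [Bx_cC]
    exact (a e he).2.trans_eq (by ring)
  · rw [← congrFun (gS_inv (cmb Inv.inv W) (cC W)) e, gS, gS, ← cC_gauge]
    have := ex_ch (a e he).1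
    simp only [gauge] at this
    simp only [gauge, exF, cut_of_mem _ he, Bx_cC, cC, this]

theorem gd_real {R : ℕ} {ε : ℝ} {W : Conf} (h : ∀ x ∈ box R, ∀ μ ν, fq W x μ ν ≤ ε)
    (h1 : 6 * R * ε ≤ 1) : Gd R (6 * R * ε) (cC W) := ⟨_, _, comb_real h h1⟩

theorem Gd.real {R : ℕ} {d : ℝ} {W : Conf} (h : Gd R d (cC W)) (h1 : d ≤ 1 / 2) :
    ∃ (u : St → S3) (B : Fld) (W1 : Conf), (∀ e, ‖B e‖ ≤ d) ∧ RealF B ∧ cC W1 = gS u (exF B) ∧
      Agr R (cC W) (cC W1) := by
  obtain ⟨u, B, h2, h3⟩ := h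
  have h4 : RealF (cut R B) := fun e k => by
    simp only [cut]
    split_ifs with he
    · have e1 := congrFun (gS_inv u (exF B)) e
      rw [gS, gauge, gS, ← h3 e he, cC, ← cS_inv, ← cS_mul, ← cS_mul, exF] at e1
      rw [← ch_ex' (b := B e) fun h0 => by
        have := norm_dot (B e) (B e)
        rw [eq_neg_of_add_eq_zero_right h0, norm_neg, norm_one] at this
        nlinarith [h2 e, norm_nonneg (B e)], ← e1]
      exact ch_real _ k
    · rfl
  obtain ⟨U, hU⟩ := JS.exF_real h4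
  refine ⟨u, cut R B, gauge Inv.inv u U, Sm.cut fun e _ => h2 e, h4, by rw [cC_gauge, hU],
    fun e he => ?_⟩
  rw [h3 e he, cC_gauge, hU]
  simp only [gauge, exF, cut_of_mem _ he]

namespace Nt

/-- the jets are linear along the Newton iteration -/
def Gw (t : Nt) (W : Cf) : Prop := ∀ j y, t.Lj W y ((t.nw W)^[j] 0)

variable {t : Nt} {r c : ℕ} {τ P δ d α β : ℝ} {m : BF} {s : V →ₗ[ℝ] V} {B A v a b : Fld}
  {W : Cf} {W0 : Conf} {y y' : St}

theorem Gw.As (g : t.Gw W) (y : St) : t.Lj W y (t.As W) := g _ y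

theorem Gw.zero (g : t.Gw W) (y : St) : t.Lj W y 0 := g 0 y

theorem Lj.sh (j : t.Lj W (y + y') A) : t.Lj (sh y' W) y (sh (up t.O.l y') A) := by
  obtain ⟨k, L, σ, hL, hσ⟩ := j
  have e : ∀ a : Fld, RG.sh (up t.O.l y') (RG.sh (-up t.O.l y') a) = a := fun a => by
    rw [sh_sh, add_neg_cancel, sh_zero]
  refine ⟨HasK.self (by
    convert k.comp ((shF (-up t.O.l y')).restrictScalars ℝ) using 2 with w
    rw [← t.FF_sh, ← e w]
    simp only [e]
    exact congrArg _ (congrArg _ (e w).symm)), L ∘ₗ shF (-up t.O.l y'),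
    σ.compl₁₂ (shF (-up t.O.l y')) (shF (-up t.O.l y')), fun a => ?_, fun a b => ?_⟩
  · rw [← e a, j1_sh, hL, e]; rfl
  · rw [← e a, ← e b, j2_sh, hσ, e, e]; rfl

theorem Gw.sh (g : t.Gw W) (z : St) : t.Gw (sh z W) := fun j y => by
  rw [iter_sh]
  exact (g j (y + z)).sh

section cov

variable (h : t.Ok r c τ m s P δ) (u : St → S3)
include h

theorem FF_cov : t.FF (gS u W) y (aS t.O.l u A) = t.FF W y A := by
  rw [FF, sh_gS, sh_adF (u := fun x => cS (u x))]
  exact h.ge.cov (fun x => u (x + y)) _ _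

theorem j1_cov : j1 (t.FF (gS u W) y) (aS t.O.l u A) (aS t.O.l u v) = j1 (t.FF W y) A v :=
  k1_congr fun x => by
    rw [← FF_cov h u (W := W), aS, aS, aS, Ho.adF_add, rsm, rsm, Ho.adF_smul]

theorem j2_cov : j2 (t.FF (gS u W) y) (aS t.O.l u A) (aS t.O.l u a) (aS t.O.l u b) =
    j2 (t.FF W y) A a b := kq_congr fun x x' => by
  rw [← FF_cov h u (W := W), aS, aS, aS, aS, Ho.adF_add, Ho.adF_add, rsm, rsm, rsm x a, rsm x' b,
    Ho.adF_smul, Ho.adF_smul]

theorem Lj.cov (j : t.Lj W y A) : t.Lj (gS u W) y (aS t.O.l u A) := by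
  obtain ⟨k, L, σ, hL, hσ⟩ := j
  let g := adFL fun x => cS (u (yo t.O.l x))⁻¹
  refine ⟨HasK.self (by
    convert k.comp (g.restrictScalars ℝ) using 2 with w
    rw [← FF_cov h u (W := W), aS, aS, Ho.adF_add]
    exact congrArg _ (congrArg _ (aS_inv _ u w).symm)), L ∘ₗ g, σ.compl₁₂ g g, fun a => ?_,
    fun a b => ?_⟩
  · rw [← aS_inv _ u a, j1_cov h, hL, aS_inv]; rfl
  · rw [← aS_inv _ u a, ← aS_inv _ u b, j2_cov h, hσ, aS_inv, aS_inv]; rfl

theorem grad_cov (j : ∀ y, t.Lj W y A) :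
    t.grad (gS u W) (aS t.O.l u A) = aS t.O.l u (t.grad W A) := by
  funext f k
  have e : eb f k = aS t.O.l u (Pi.single f (adq (star (cS (u (yo t.O.l f.1)))) (Pi.single k 1))) := by
    rw [aS, adF_single, Op.adq_adq_star (uni_cS _), eb]
  rw [aS, aS, adF, ← dot_eb k (adq _ _), dot_comm, dot_adq, dot]
  simp only [grad, e, j1_cov h, ← (j _).single, sum_mul]
  exact sum_comm

theorem nw_cov (j : ∀ y, t.Lj W y A) : t.nw (gS u W) (aS t.O.l u A) = aS t.O.l u (t.nw W A) := by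
  rw [nw, grad_cov h u j, Od.pol_gauge h.op (u := fun x => cS (u x)) fun _ => uni_cS _, nw]
  rw [sub_eq_add_neg, sub_eq_add_neg, ← neg_smul, ← neg_smul, aS, aS, Ho.adF_add, Ho.adF_smul]

theorem xi_cov (j : t.Lj W y A) :
    t.xi (gS u W) (aS t.O.l u A) (aS t.O.l u v) y y' = t.xi W A v y y' := by
  rw [(j.cov h u).xi_eq, j.xi_eq]
  refine sum_congr rfl fun e _ => ?_
  rw [← j1_cov h u (W := W), aS, aS, aS, adF_single, adF]

theorem L1_cov (j : t.Lj W y A) : t.L1 (gS u W) (aS t.O.l u A) (aS t.O.l u v) y = t.L1 W A v y :=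
  sum_congr rfl fun _ _ => xi_cov h u j

theorem gv_cov (j : ∀ y, t.Lj W y A) :
    t.gv (gS u W) (aS t.O.l u A) (aS t.O.l u v) y = t.gv W A v y :=
  sum_congr rfl fun _ _ => xi_cov h u (j _)

variable (g : t.Gw W)
include g

theorem iter_cov (j : ℕ) : (t.nw (gS u W))^[j] 0 = aS t.O.l u ((t.nw W)^[j] 0) := by
  induction j with
  | zero => simp only [Function.iterate_zero, id, aS_zero]
  | succ j ih => rw [Function.iterate_succ_apply', Function.iterate_succ_apply', ih, nw_cov h u (g j)]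

theorem As_cov : t.As (gS u W) = aS t.O.l u (t.As W) := iter_cov h u g _

theorem Gw.cov : t.Gw (gS u W) := fun j y => iter_cov h u g j ▸ (g j y).cov h u

theorem Yb_cov : t.Yb (gS u W) y (aS t.O.l u a) (aS t.O.l u b) = t.Yb W y a b := by
  rw [Yb, As_cov h u g, j2_cov h, Ay_gauge (u := fun x => cS (u x)) fun _ => uni_cS _,
    Ay_gauge (u := fun x => cS (u x)) fun _ => uni_cS _, cx_adF _ h.op.rng (uni_cS _), Yb]

theorem kd_cov (y : St) : Kg t.O.l (fun x => cS (u x)) y (t.kd (sh y W)) (t.kd (sh y (gS u W))) :=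
  fun a b => by
    rw [(((g.cov h u).sh y).As 0).qk_eq h, ((g.sh y).As 0).qk_eq h, sh_gS, As_cov h _ (g.sh y)]
    exact j2_cov h _

theorem Yq_cov : t.Yq (gS u W) (aS t.O.l u v) y = t.Yq W v y := by
  rw [(((g.cov h u).sh y).As 0).Yq_eq h, ((g.sh y).As 0).Yq_eq h, Yb_cov h u g]

theorem rem3_cov : t.rem3 (gS u W) (aS t.O.l u v) y = t.rem3 W v y := by
  rw [rem3, Yq_cov h u g, As_cov h u g, L1_cov h u (g.As y), FF_cov h,
    Ay_gauge (u := fun x => cS (u x)) fun _ => uni_cS _, cx_adF _ h.op.rng (uni_cS _), aS, aS,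
    ← Ho.adF_add, FF_cov h, rem3]

theorem a0_cov : t.a0 (gS u W) = t.a0 W := by
  have h1 := L1_cov h u (g.zero 0) (v := t.As W)
  have h2 := gv_cov h u g.zero (v := t.As W) (y := 0)
  rw [aS_zero] at h1 h2
  rw [a0, As_cov h u g, h1, h2, FF_cov h, a0]

theorem tn_cov : t.tn (gS u W) = t.tn W := by
  simp only [tn, a0_cov h u g, sh_gS, a0_cov h _ (g.sh _)]

end cov

theorem gw_exF (h : t.Ok r c τ m s P δ) (z : t.Sz c τ P δ d) (hB : ∀ e, ‖B e‖ ≤ d) :
    t.Gw (exF B) := fun j => lj_all h z hB (iter_small h z hB j)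

/-! ### reality -/

section real

variable (hr : GR t.G)
include hr

theorem FF_real (hA : RealF A) : (t.FF (cC W0) y A).im = 0 := hr (sh y W0) _ fun _ => hA _

theorem j1_real (j : t.Lj (cC W0) y A) (hA : RealF A) (hv : RealF v) :
    (j1 (t.FF (cC W0) y) A v).im = 0 :=
  k1_real j.1 fun x => FF_real hr fun e k => by simp [hA e k, hv e k]

theorem j2_real (j : t.Lj (cC W0) y A) (hA : RealF A) (ha : RealF a) (hb : RealF b) :
    (j2 (t.FF (cC W0) y) A a b).im = 0 :=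
  kq_real j.1 fun x x' => FF_real hr fun e k => by simp [hA e k, ha e k, hb e k]

theorem grad_real (j : ∀ y, t.Lj (cC W0) y A) (hA : RealF A) : RealF (t.grad (cC W0) A) :=
  fun f k => by
    rw [grad, Complex.im_sum]
    exact sum_eq_zero fun _ _ => j1_real hr (j _) hA (real_eb f k)

theorem xi_real (j : t.Lj (cC W0) y A) (hA : RealF A) (hv : RealF v) :
    (t.xi (cC W0) A v y y').im = 0 := by
  simp only [xi, Complex.im_sum, Complex.mul_im, j1_real hr j hA (real_eb _ _), hv _ _, mul_zero,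
    zero_mul, add_zero, sum_const_zero]

theorem L1_real (j : t.Lj (cC W0) y A) (hA : RealF A) (hv : RealF v) :
    (t.L1 (cC W0) A v y).im = 0 := by
  simp only [L1, Complex.im_sum, xi_real hr j hA hv, sum_const_zero]

theorem gv_real (j : ∀ y, t.Lj (cC W0) y A) (hA : RealF A) (hv : RealF v) :
    (t.gv (cC W0) A v y).im = 0 := by
  simp only [gv, Complex.im_sum, xi_real hr (j _) hA hv, sum_const_zero]

variable (g : t.Gw (cC W0))
include g

theorem iter_real (j : ℕ) : RealF ((t.nw (cC W0))^[j] 0) := by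
  induction j with
  | zero => exact fun _ _ => by simp
  | succ j ih =>
    intro e k
    have := Od.pol_real (O := t.O) (H := ∅) (W0 := W0) (p := pP t.O.N ^ 2) (fun k => by
      simp [sq, Polynomial.coeff_mul, Complex.im_sum, (Od.coeff_real t.O.N _).1])
      (grad_real hr (g j) ih) e k
    have e2 : (2 * t.O.Λ : ℂ)⁻¹ = ((2 * t.O.Λ)⁻¹ : ℝ) := by push_cast; rfl
    rw [Function.iterate_succ_apply', nw, e2]
    simp only [Pi.sub_apply, Pi.smul_apply, smul_eq_mul, Complex.sub_im, ih e k, Complex.mul_im,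
      Complex.ofReal_im, this, mul_zero, zero_mul, add_zero, sub_zero]

theorem As_real : RealF (t.As (cC W0)) := iter_real hr g _

theorem Yb_real (ha : RealF a) (hb : RealF b) : (t.Yb (cC W0) y a b).im = 0 := by
  rw [Yb, Complex.sub_im, j2_real hr (g.As y) (As_real hr g) ha hb,
    cx_im _ (Ay_real _ ha) (Ay_real _ hb), sub_zero]

theorem kd_real : Kr (t.kd (cC W0)) := fun _ _ _ _ =>
  j2_real hr (g.As 0) (As_real hr g) (real_eb _ _) (real_eb _ _)

theorem Yq_real (hv : RealF v) : (t.Yq (cC W0) v y).im = 0 := by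
  simp only [Yq, Complex.im_sum, Complex.mul_im, Yb_real hr g (real_eb _ _) (real_eb _ _), hv _ _,
    mul_zero, zero_mul, add_zero, sum_const_zero]

theorem rem3_real (hv : RealF v) : (t.rem3 (cC W0) v y).im = 0 := by
  have := As_real hr g
  simp only [rem3, Complex.sub_im, Complex.add_im, FF_real hr this, L1_real hr (g.As y) this hv,
    Yq_real hr g hv, cx_im _ (Ay_real _ hv) (Ay_real _ hv), sub_zero, add_zero]
  exact FF_real hr fun e k => by simp [this e k, hv e k]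

theorem a0_real : (t.a0 (cC W0)).im = 0 := by
  have := As_real hr g
  simp only [a0, Complex.sub_im, Complex.add_im, FF_real hr this,
    L1_real hr (g.zero 0) (fun _ _ => rfl) this, gv_real hr g.zero (fun _ _ => rfl) this, sub_zero,
    add_zero]

theorem tn_real : (t.tn (cC W0)).im = 0 := by
  have h1 : ∀ z, (t.a0 (sh z (cC W0))).im = 0 := fun z => a0_real hr (W0 := sh z W0) (g.sh z)
  have e : ∀ n : ℕ, ((n : ℂ)⁻¹).im = 0 := fun n => by simp
  have e2 : ((2 : ℂ)⁻¹).im = 0 := by simp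
  simp only [tn, Complex.mul_im, Complex.add_im, Complex.im_sum, h1, a0_real hr g, e, e2,
    sum_const_zero, mul_zero, zero_mul, add_zero]

end real

end Nt

end Pool.Agent.Lib.MP_7f377f_mp.RG.Q4
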