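import Pool.Agent.Lib.MP_7f377f_mp.Q4Num
import Pool.Agent.Lib.MP_7f377f_mp.Q4En
import Pool.Agent.Lib.MP_7f377f_mp.Q4TrE

/-! The standing assumptions of the tree step hold for admissible tree data. -/

noncomputable section

namespace Pool.Agent.Lib.MP_7f377f_mp.RG.Q4

open Filter

/-- the constant in the expansion of the energy of a block -/
def Td.P (S : Td) : ℝ := S.L ^ (2 * S.Kt)

theorem Ge.mono {l r : ℕ} {m : BF} {s : V →ₗ[ℝ] V} {P P' δ : ℝ} {G : Cf → Fld → ℂ}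
    (h : Ge l r m s P δ G) (hP : P ≤ P') : Ge l r m s P' δ G :=
  ⟨h.loc, h.cov, h.meas, h.hol, fun B A d h1 h2 h3 => (h.exp B A d h1 h2 h3).trans
    (mul_le_mul_of_nonneg_right hP (pow_nonneg ((norm_nonneg _).trans (h2 (0, 0))) 3))⟩

theorem Gz.mono {l r : ℕ} {m : BF} {s : V →ₗ[ℝ] V} {C C' P P' δ : ℝ} {G : Cf → Fld → ℂ}
    (h : Gz l r m s C P δ G) (hC : C ≤ C') (hP : P ≤ P') : Gz l r m s C' P' δ G :=
  fun B d d' h1 h2 h3 => (h B d d' h1 h2 h3).trans (add_le_add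
    (mul_le_mul_of_nonneg_right hC
      (pow_nonneg ((norm_nonneg _).trans (h3 0 (zero_mem_box r) 0 0)) 3))
    (mul_le_mul_of_nonneg_right hP (pow_nonneg ((norm_nonneg _).trans (h2 (0, 0))) 3)))

namespace Sd

variable {S : Sd} {a : ℕ}

theorem TOk.lin (h : S.TOk) : Lin S.l S.r S.c S.τ S.m S.s :=
  let ⟨_, _, _, _, _, _, _, _, h⟩ := h
  h.lin

theorem TOk.tc (h : S.TOk) :
    Tc (3 * S.r) (((S.M : ℝ) ^ S.K0)⁻¹) ((S.M : ℝ) ^ S.Kt) S.T :=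
  let ⟨_, _, _, _, _, _, _, h, _⟩ := h
  h.tc

theorem TOk.real (h : S.TOk) : ∀ B, RealF B → (S.T B).im = 0 :=
  let ⟨_, _, _, _, _, _, _, h, _⟩ := h
  h.real

theorem TOk.rng (h : S.TOk) : Rng (3 * S.r) (3 * S.r) S.m :=
  let ⟨_, _, _, _, _, _, _, ⟨⟨_, _, _, h⟩, _, _⟩, _⟩ := h
  h.inv.rng

theorem P1 (S : Td) : 1 ≤ S.P := one_le_pow₀ (L1 S)

theorem q_eq (S : Td) : S.t.q S.c S.P = S.L ^ (10 * S.c + 30 + 2 * S.Kt) := (pow_add _ _ _).symm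

namespace Nu

variable (h : S.Nu a)
include h

theorem r_3 : 1000 ≤ S.r ∧ 3 * S.r ≤ S.l := by have := h.lens; omega

theorem hy (ht : S.TOk) {n : ℕ} (hn : S.c + 5 ≤ n) : En.Hy S.l S.r S.c S.τ S.m S.s (S.L ^ n) :=
  En.hy_pow ht.lin h.r_3.1 h.r_3.2 hn

theorem op (ht : S.TOk) : S.t.O.Ok S.c := Od.ok_of_lin ht.lin (by have := h.l_big; omega)

theorem q_le : S.t.q S.c S.P ≤ S.D0 := q_eq _ ▸ h.LD (by have := h.exps; omega)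

theorem sz {d : ℝ} (h0 : 0 < d) (h1 : 8 * d ≤ S.δ) : S.t.Sz S.c S.τ S.P S.δ d := by
  refine ⟨h0, h1, ?_⟩
  have h2 := h.δ_le (k := 10 * S.c + 30 + 2 * S.Kt) (by have := h.exps; omega)
  have h3 := h.τ_g (i := 2) (j := 0) (by norm_num) (by omega)
  have h4 := h.q_le.trans h.D_le_Q
  have h5 := h.cQ' (C := 2) (by norm_num)
  have h6 := mul_pos S.Q0 (τ0 (S := S))
  rw [← q_eq] at h2
  have h7 : 0 < S.t.q S.c S.P := q_eq _ ▸ pow_pos (L0 _) _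
  nlinarith [mul_le_mul_of_nonneg_right h4 (τ0 (S := S)).le]

theorem δ_ρ : S.δ ≤ (S.r : ℝ) ^ 10 * ((S.M : ℝ) ^ S.K0)⁻¹ := by
  have h0 : (0 : ℝ) < S.D0 := by exact_mod_cast D1 _
  have h1 : (0 : ℝ) < (S.M : ℝ) ^ S.K0 := (pow_pos (L0 _) _).trans_le (h.ok.LM_pow _)
  have r1 := h.r1'
  rw [Td.δ, ← div_eq_mul_inv, div_le_div_iff₀ h0 h1]
  calc _ ≤ (S.r : ℝ) ^ 3 * (S.r * S.D0) := by gcongr; exact h.MD_le
    _ = (S.r : ℝ) ^ 4 * S.D0 := by ring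
    _ ≤ _ := by gcongr; norm_num

end Nu

end Sd

open Sd

/-- the assumptions of the tree step -/
structure Sd.TK (S : Sd) : Prop where
  ok : S.t.Ok S.r S.c S.τ S.m S.s S.P S.δ
  gr : GR S.t.G
  gz : Gz S.l S.r S.m S.s (S.L ^ S.Kt / S.r) (S.L ^ S.Kt / S.L) S.δ S.t.G
  sz : ∀ d, 0 < d → 8 * d ≤ S.δ → S.t.Sz S.c S.τ S.P S.δ d
  gh : ∀ Sx T, TH (3 * S.r) (((S.M : ℝ) ^ S.K0)⁻¹) Sx T →
    GH S.l S.δ Sx fun t => Gc S.l S.m S.s (T t)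

theorem tk0 (c : ℕ) : ∀ᶠ S in ev0 c, S.TOk → S.TK := by
  obtain ⟨K, hK⟩ := ge_main c
  filter_upwards [ev_nu c 0, ev_Kt (K + 2), ev_c] with S h hk hc ht
  subst hc
  have ex := h.exps
  have L1 := L1 S.toTd
  have r1 := h.r1'
  obtain ⟨k1, k2⟩ := hK S.l S.r S.τ _ S.δ S.m S.s ht.lin ht.rng h.r_3.1 (h.rl (by omega))
    (h.δ_le (by omega)) h.δ_ρ
  obtain ⟨k3, k4⟩ := k2 _ _ ht.tc (by positivity)
  have m1 := h.MT_le
  have m2 : (S.M : ℝ) ^ S.Kt ≤ S.r * S.L ^ S.Kt := h.M_pow (by omega)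
  have p1 : 1 ≤ S.L ^ S.Kt := one_le_pow₀ L1
  refine ⟨⟨ht.lin, h.op ht, rfl, k3.mono ?_, P1 _, Nu.τ0.le, h.r_3.1, h.r_3.2⟩, gr_main ht.real,
    (k4 ?_).mono ?_ ?_, fun d => h.sz, k1⟩
  · calc _ ≤ S.L ^ K * (S.L * (S.L * S.L ^ S.Kt)) := mul_le_mul_of_nonneg_left (by
          nlinarith [h.cL' (C := 2) (by norm_num), mul_le_mul L1 p1 zero_le_one (by linarith)])
          (by positivity)
      _ = S.L ^ (K + 2 + S.Kt) := by ring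
      _ ≤ _ := pw _ (by omega)
  · refine le_trans ?_ (h.δ_le (k := S.Kt + 1) (by omega))
    exact mul_le_mul_of_nonneg_right (m1.trans_eq (pow_succ' _ _).symm) h.δ0.le
  · rw [div_le_div_iff₀ (by positivity) (by positivity)]
    calc _ ≤ S.r * (S.r * S.L ^ S.Kt) * S.r := by gcongr; exact h.cr' (by norm_num)
      _ = _ := by ring
  · rw [le_div_iff₀ (by linarith)]
    exact (pow_succ _ _).ge.trans (pw _ (by omega))

theorem tk (c : ℕ) : ∀ᶠ S in ev c, S.TK := ev_iff.2 (tk0 c)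

theorem tok (c : ℕ) : ∀ᶠ S in ev c, S.t.Ok S.r S.c S.τ S.m S.s S.P S.δ ∧ GR S.t.G ∧
    Gz S.l S.r S.m S.s (S.L ^ S.Kt / S.r) (S.L ^ S.Kt / S.L) S.δ S.t.G ∧
    (∀ d, 0 < d → 8 * d ≤ S.δ → S.t.Sz S.c S.τ S.P S.δ d) ∧
    ∀ Sx T, TH (3 * S.r) (((S.M : ℝ) ^ S.K0)⁻¹) Sx T →
      GH S.l S.δ Sx fun t => Gc S.l S.m S.s (T t) :=
  (tk c).mono fun _ h => ⟨h.ok, h.gr, h.gz, h.sz, h.gh⟩

end Pool.Agent.Lib.MP_7f377f_mp.RG.Q4
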