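import Pool.Agent.Lib.MP_7f377f_mp.Q4FldA
import Pool.Agent.Lib.MP_7f377f_mp.Q4TOk

/-! The fields of one step: bounds, reality, and their form in calm regions. -/

noncomputable section

namespace Pool.Agent.Lib.MP_7f377f_mp.RG.Q4

open Finset Polynomial

attribute [local irreducible] box lbox

theorem sm_blocks {W : Type} [NormedAddCommGroup W] {l a : ℕ} {α : ℝ} {A : Lk → W}
    (h : ∀ y ∈ box a, Sm l α (sh (up l y) A)) : Sm (fb l a) α A := fun e he => by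
  simpa only [sh_apply, sub_add_cancel] using h _ (yo_mem_box (mem_lbox.1 he))
    (e.1 - up l (yo l e.1), e.2) (mem_lbox.2 (sub_up_yo_mem _ _))

theorem at_block {α : Type} {l : ℕ} {A : Lk → α} {φ : α → Prop} {f : Lk}
    (h : ∀ e ∈ lbox l, φ (sh (up l (yo l f.1)) A e)) : φ (A f) := by
  simpa only [sh_apply, sub_add_cancel] using
    h (f.1 - up l (yo l f.1), f.2) (mem_lbox.2 (sub_up_yo_mem _ _))

namespace Nt

variable {t : Nt} {r c n : ℕ} {τ P δ d : ℝ} {m : BF} {s : V →ₗ[ℝ] V} {W : Cf} {W0 : Conf}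
  (h : t.Ok r c τ m s P δ) (z : t.Sz c τ P δ d)
include h z

theorem As_good (g : Gd (n + t.rA r) d W) : Sm (fb t.O.l n) (2 * t.al c τ P d) (t.As W) := by
  obtain ⟨u, B, hB, e⟩ := g
  intro f hf
  rw [As_agr h e f hf, As_cov h u (gw_exF h z hB)]
  exact sm_aS (fun e _ => As_bd h z hB e) u f hf

theorem kd_good (g : Gd (1 + t.rA r) d W) :
    Kc t.O.l (4 * (LL t.O.l : ℝ) ^ (c + 7) * (P * d)) (t.kd W) (kh t.O.l t.O.h W) := by
  obtain ⟨u, B, hB, e⟩ := g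
  intro a _ i b _ j
  have e1 : ∀ a i, Sm (3 * t.O.l + 1) (2 * 1) (sh (up t.O.l 0) (aS t.O.l (fun x => (u x)⁻¹) (eb a i))) :=
    fun a i => by
      rw [up_zero, sh_zero]
      exact sm_aS (fun e _ => norm_eb a e i) _
  have := Yb_bd h z hB (e1 a i) (by norm_num) (e1 b j) (by norm_num)
  rw [← Yb_cov h u (gw_exF h z hB), aS_inv, aS_inv,
    ← Yb_agr h (zero_mem_box 0) e (fun _ _ => rfl) fun _ _ => rfl] at this
  exact this.trans_eq (by ring)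

theorem As_good_real (hr : GR t.G) (g : Gd (n + t.rA r) d (cC W0)) {f : Lk}
    (hf : f ∈ lbox (fb t.O.l n)) (k : Fin 3) : (t.As (cC W0) f k).im = 0 := by
  obtain ⟨u, B, W1, hB, -, e1, e⟩ := g.real ((h.d_le z).trans (by norm_num))
  rw [As_agr h e f hf]
  exact As_real hr (e1 ▸ (gw_exF h z hB).cov h u) f k

end Nt

/-- standing assumptions for the estimates of the fields -/
structure Sd.Fo (S : Sd) (P : ℝ) : Prop where
  nu : S.Nu 0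
  ok : S.t.Ok S.r S.c S.τ S.m S.s P S.δ
  gr : GR S.t.G
  sz : ∀ d, 0 < d → 8 * d ≤ S.δ → S.t.Sz S.c S.τ P S.δ d
  le : P ≤ S.L ^ (2 * S.Kt)

namespace Sd

variable {S : Sd} {P ε α η : ℝ} {W : Conf} {A B : Fld} {p : ℂ[X]} {a d : ℕ} {x y : St}
  {z : Lk → E3} {v : VB} {f : Lk} {H : Set St}

theorem fq_of_not (hy : y ∉ S.H W) {R : ℕ} (hR : R ≤ S.p'.R + 1) : Fq R S.p'.ε (sh y W) :=
  (not_mem_H.1 hy).mono hR le_rfl

theorem not_of_fr (hy : Fr H y) : y ∉ H := by simpa using hy 0 (zero_mem_box _)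

theorem not_of_act (hf : Act S.l H f) : yo S.l f.1 ∉ H := not_of_fr hf.2

theorem fq_of_nf (hy : Nf (S.H W) y) {R : ℕ} (hR : R ≤ S.p'.R) : Fq R S.p'.ε (sh y W) := by
  obtain ⟨u, hu, h1⟩ := hy
  have := (fq_of_not (not_of_fr h1) le_rfl).sh (neg_mem_box hu)
  rw [sh_sh, neg_add_cancel_comm_assoc] at this
  exact this.mono hR le_rfl

namespace Fo

variable (h : S.Fo P)
include h

theorem op : S.t.O.Ok S.c := h.ok.op

theorem lin : Lin S.l S.r S.c S.τ S.m S.s := h.ok.lin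

theorem rA : S.t.rA S.r ≤ S.p'.R := by have := h.nu.lens; rw [R_eq]; omega

theorem num {C : ℝ} {j : ℕ} (hC : C ≤ 10 ^ 20) (hj : j ≤ 100 * (S.c + 1)) :
    C * S.L ^ j * P ≤ S.D0 := by
  have h1 := L0 S.toTd
  have h2 := h.ok.P1
  have h3 := h.nu.exps
  calc _ ≤ S.L * S.L ^ j * S.L ^ (2 * S.Kt) := by gcongr; exacts [h.nu.cL' hC, h.le]
    _ = S.L ^ (j + 1 + 2 * S.Kt) := by ring
    _ ≤ _ := h.nu.LD (by omega)

theorem ε0 : 0 < S.p'.ε := by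
  rw [p'_ε]
  exact mul_pos (pow_pos S.Q0 _) h.nu.ok.g'0

/-- admissible sizes of the curvature -/
theorem size (h1 : S.g' ≤ ε) (h2 : ε ≤ S.Q ^ 100 * S.g') :
    S.t.Sz S.c S.τ P S.δ (6 * S.w * ε) ∧ 6 * S.w * ε ≤ 1 ∧ S.τ ≤ ε ∧ 0 < ε := by
  have e0 := h.nu.ok.g'0.trans_le h1
  have q0 := S.Q0
  have w1 : (1 : ℝ) ≤ S.w := w_eq S.toTd ▸ one_le_pow₀ (L1 _)
  have h3 : 48 * (S.w : ℝ) ≤ S.Q := by
    simpa only [pow_zero, mul_one, ← w_eq] using h.nu.mon (C := 48) (i := 2 * S.c + 6) (j := 0)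
      (by norm_num) (by have := h.nu.exps; omega) (by omega)
  have h4 : 48 * S.w * ε ≤ S.Q ^ 101 * S.g' := by
    calc _ ≤ S.Q * (S.Q ^ 100 * S.g') := by gcongr
      _ = _ := by ring
  have z := h.sz (6 * S.w * ε) (by positivity) (by linarith [h.nu.Qg_δ (i := 101) (by omega)])
  have h5 := h.nu.τ_g (i := 0) (j := 1) (by omega) (by omega)
  exact ⟨z, (h.ok.d_le z).trans (by norm_num), by linarith [h.nu.ok.gg'], e0⟩

theorem size_ε : S.g' ≤ S.p'.ε ∧ S.p'.ε ≤ S.Q ^ 100 * S.g' := by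
  have := h.nu.ok.g'0
  rw [p'_ε]
  exact ⟨le_mul_of_one_le_left this.le (one_le_pow₀ S.Q1),
    mul_le_mul_of_nonneg_right (S.Qw (by omega)) this.le⟩

section local_bounds

variable (h1 : S.g' ≤ ε) (h2 : ε ≤ S.Q ^ 100 * S.g')
include h1 h2

/-- the minimiser is small where the curvature is small -/
theorem As_fq (hW : Fq (S.w + a) ε W) : Sm (fb S.l a) (S.D0 * ε ^ 2) (S.t.As (cC W)) ∧
    ∀ f ∈ lbox (fb S.l a), ∀ k, (S.t.As (cC W) f k).im = 0 := by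
  obtain ⟨z, h3, h4, e0⟩ := h.size h1 h2
  have hl := h.nu.lens
  have g : ∀ y ∈ box a, Gd (0 + S.t.rA S.r) (6 * S.w * ε) (cC (sh y W)) := fun y hy =>
    ((hW.sh hy).gd h3).mono (by omega) le_rfl
  refine ⟨sm_blocks fun y hy => ?_, fun f hf k => at_block (l := S.l)
    (φ := fun b : C3 => (b k).im = 0) fun e he => ?_⟩
  · rw [← Td.As_sh, sh_cC]
    refine (Nt.As_good h.ok z (g y hy)).mono (fb_zero _).ge ?_
    have w1 : (1 : ℝ) ≤ S.w := w_eq S.toTd ▸ one_le_pow₀ (L1 _)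
    have l0 := L0 S.toTd
    have p1 := h.ok.P1
    have t0 := h.ok.τ0
    calc _ = 2 * (S.L ^ (8 * S.c + 24) * (P * ((6 * S.w * ε) ^ 2 + S.τ * (6 * S.w * ε)))) := rfl
      _ ≤ 2 * (S.L ^ (8 * S.c + 24) * (P * ((6 * S.w * ε) ^ 2 + 6 * S.w * ε * (6 * S.w * ε)))) := by
        gcongr
        nlinarith
      _ = 144 * S.L ^ (12 * S.c + 36) * P * ε ^ 2 := by rw [w_eq]; ring
      _ ≤ _ := by gcongr; exact h.num (by norm_num) (by omega)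
  · rw [← Td.As_sh, sh_cC]
    exact Nt.As_good_real h.ok z h.gr (g _ (yo_mem_box (mem_lbox.1 hf))) (mem_fb_zero he) k

theorem kd_fq (hW : Fq S.w ε W) :
    Kc S.l (S.D0 * ε) (S.kd (cC W)) (kh S.l S.t.O.h (cC W)) ∧ Q4.Kr (S.kd (cC W)) := by
  obtain ⟨z, h3, h4, e0⟩ := h.size h1 h2
  have hl := h.nu.lens
  have g : Gd (1 + S.t.rA S.r) (6 * S.w * ε) (cC W) := (hW.gd h3).mono (by omega) le_rfl
  refine ⟨(Nt.kd_good h.ok z g).mono ?_, ?_⟩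
  · calc _ = 4 * S.L ^ (S.c + 7) * (P * (6 * S.w * ε)) := rfl
      _ = 24 * S.L ^ (3 * S.c + 13) * P * ε := by rw [w_eq]; ring
      _ ≤ _ := by gcongr; exact h.num (by norm_num) (by omega)
  · obtain ⟨u, B, W1, hB, -, e1, e⟩ := g.real ((h.ok.d_le z).trans (by norm_num))
    rw [Td.kd_agr h.ok e]
    exact Nt.kd_real h.gr (e1 ▸ (Nt.gw_exF h.ok z hB).cov h.ok u)

theorem gk_fq (hW : Fq S.w ε (sh y W)) (H : Set St) :
    Gk S.t.O (S.D0 * ε) H (S.ka (cC W)) (cC W) W y := by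
  have e0 := (h.size h1 h2).2.2.2
  have hl := h.nu.lens
  have d1 : (1 : ℝ) ≤ S.D0 := by exact_mod_cast D1 _
  refine ⟨fun _ => sh_cC y W ▸ Gp.real (by positivity)
    (hW.mono (by omega) (le_mul_of_one_le_left e0.le d1)), fun _ => ?_⟩
  have := (h.kd_fq h1 h2 hW).1
  rw [← sh_cC] at this
  exact this

theorem hδ_fq : (LL S.t.O.l : ℝ) ^ (2 * S.c + 10) * (S.D0 * ε) ≤ 1 := by
  have e0 := (h.size h1 h2).2.2.2
  have q0 := S.Q0
  have := h.nu.mon (C := 1) (i := 2 * S.c + 10) (j := 1) (by norm_num)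
    (by have := h.nu.exps; omega) (by omega)
  show S.L ^ (2 * S.c + 10) * (S.D0 * ε) ≤ 1
  calc _ = 1 * S.L ^ (2 * S.c + 10) * (S.D0 : ℝ) ^ 1 * ε := by ring
    _ ≤ S.Q ^ 1 * (S.Q ^ 100 * S.g') := by rw [pow_one S.Q]; gcongr
    _ ≤ 1 := h.nu.ok.Qg'_le (by omega)

end local_bounds

/-! ### all real fields -/

theorem hδ : (LL S.t.O.l : ℝ) ^ (2 * S.c + 10) * (S.D0 * S.p'.ε) ≤ 1 :=
  h.hδ_fq h.size_ε.1 h.size_ε.2

theorem w_R : S.w ≤ S.p'.R := by have := h.nu.lens; rw [R_eq]; omega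

/-- the setting of the operator bounds holds everywhere -/
theorem gk (W : Conf) (y : St) : Gk S.t.O (S.D0 * S.p'.ε) (S.H W) (S.ka (cC W)) (cC W) W y :=
  ⟨fun hy => (h.gk_fq h.size_ε.1 h.size_ε.2 (fq_of_not (not_of_fr hy) (h.w_R.trans (by omega)))
    _).1 hy, fun hy => (h.gk_fq h.size_ε.1 h.size_ε.2 (fq_of_nf hy h.w_R) _).2 hy⟩

theorem kr (W : Conf) (y : St) (hy : Nf (S.H W) y) : Q4.Kr (S.ka (cC W) y) := by
  have := (h.kd_fq h.size_ε.1 h.size_ε.2 (fq_of_nf hy h.w_R)).2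
  rw [← sh_cC] at this
  exact this

theorem As_not (hf : yo S.l f.1 ∉ S.H W) : ‖S.t.As (cC W) f‖ ≤ S.D0 * S.p'.ε ^ 2 ∧
    ∀ k, (S.t.As (cC W) f k).im = 0 := by
  have := h.As_fq (a := 0) h.size_ε.1 h.size_ε.2 (fq_of_not hf (h.w_R.trans (by omega)))
  rw [← sh_cC, Td.As_sh] at this
  exact at_block (l := S.l) (φ := fun b => ‖b‖ ≤ S.D0 * S.p'.ε ^ 2 ∧ ∀ k, (b k).im = 0)
    fun e he => ⟨this.1 e (mem_fb_zero he), this.2 e (mem_fb_zero he)⟩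

theorem Dε : S.D0 * S.p'.ε ^ 2 ≤ S.Q ^ 5 * S.g' ^ 2 ∧ S.D0 * S.p'.ε ^ 2 ≤ S.g ∧ S.g ≤ 1 := by
  have q0 := S.Q0
  have g0 := h.nu.ok.g'0
  have e : S.D0 * S.p'.ε ^ 2 ≤ S.Q ^ 5 * S.g' ^ 2 := by
    calc _ ≤ S.Q * (S.Q ^ 2 * S.g') ^ 2 := by rw [p'_ε]; gcongr; exact h.nu.D_le_Q
      _ = _ := by ring
  have e1 := h.nu.ok.Qg'_le (i := 5) (j := 1) (by omega)
  have e2 := h.nu.cQ' (C := 2) (by norm_num)
  have e3 : 2 * (S.Q ^ 5 * S.g') ≤ 1 := le_trans (by rw [pow_one]; gcongr) e1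
  exact ⟨e, e.trans (by nlinarith [h.nu.ok.g'g]), h.nu.ok.g1⟩

theorem As_act (hf : Act S.l (S.H W) f) : ‖S.t.As (cC W) f‖ ≤ 1 :=
  (h.As_not (not_of_act hf)).1.trans (h.Dε.2.1.trans h.Dε.2.2)

theorem pol_real (hp : ∀ k, (p.coeff k).im = 0) (hA : RealF A) : RealF (S.pol p W A) :=
  polK_real hp (h.kr W) hA

theorem vH_real (W : Conf) (z : Lk → E3) : RealF (S.vH W z) := fun e k => by
  simp [vH, h.pol_real (fun i => (Od.coeff_real _ i).1) (cF_real z) e k]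

theorem dtH_real (W : Conf) : (dtK S.l S.Λ S.N (S.H W) (S.ka (cC W))).im = 0 := dtK_real (h.kr W)

theorem dtH_le (W : Conf) : ‖dtK S.l S.Λ S.N (S.H W) (S.ka (cC W))‖ ≤ S.L ^ (2 * S.c + 9) :=
  (dtK_bound h.op h.hδ fun y _ => h.gk W y :)

theorem pol_le (hA : Sm (fb S.l (4 * S.N + 2)) α (sh (up S.l (yo S.l f.1)) A)) :
    ‖S.pol (pP S.N) W A f‖ ≤ S.L ^ (6 * S.c + 16) * α ∧
      ‖S.pol (pU S.N) W A f‖ ≤ Real.exp (-(S.l : ℝ) ^ 2) * α :=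
  have := polK_pP h.op h.hδ f (fun _ _ => h.gk W _) hA
  ⟨this.1, this.2.2⟩

theorem vH_le (hz : ∀ e ∈ lbox (fb S.l (4 * S.N + 2)), ¬ tree S.l e →
    ‖sh (up S.l (yo S.l f.1)) z e‖ ≤ α) (h0 : 0 ≤ α) :
    ‖S.vH W z f‖ ≤ S.gt * (S.L ^ (6 * S.c + 16) * α) := by
  rw [vH, Pi.smul_apply, norm_smul, Complex.norm_real, Real.norm_of_nonneg h.nu.ok.gt0.le, pol,
    ← polK_pj]
  refine mul_le_mul_of_nonneg_left (h.pol_le fun e he => ?_).1 h.nu.ok.gt0.le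
  by_cases h1 : Act S.l (S.H W) (e.1 + up S.l (yo S.l f.1), e.2)
  · rw [sh_apply, pj_act h1]
    exact (norm_cE _).1.trans (hz e he fun h2 => h1.1 ((Cov.tree_up _ _ _).2 h2))
  · rwa [sh_apply, pj_not h1, norm_zero]

/-- the variable is controlled by the fluctuation field -/
theorem z_le (hz : ∃ M, ∀ e, ‖z e‖ ≤ M) (hv : ∀ e, ‖S.vH W z e‖ ≤ α) (hf : Act S.l (S.H W) f) :
    S.gt * ‖z f‖ ≤ 2 * S.L ^ (6 * S.c + 16) * α := by
  have g0 := h.nu.ok.gt0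
  have := polK_inv h.op h.hδ (h.gk W) (A := cF z) (a := α / S.gt)
    (hz.imp fun M hM e => (norm_cE _).1.trans (hM e)) (fun e => by
      have := hv e
      rw [vH, Pi.smul_apply, norm_smul, Complex.norm_real, Real.norm_of_nonneg g0.le] at this
      exact (le_div_iff₀' g0).2 this) hf
  calc _ ≤ S.gt * (2 * (S.L ^ (6 * S.c + 16) * (α / S.gt))) := by
        gcongr
        exact (norm_cE _).2.trans (mul_le_mul_of_nonneg_left this zero_le_two)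
    _ = _ := by field_simp

theorem cE_Af (hf : yo S.l f.1 ∉ S.H W) : cE (S.Af W z f) = S.t.As (cC W) f + S.vH W z f :=
  cE_reE fun k => by simp [(h.As_not hf).2 k, h.vH_real W z f k]

theorem cC_Uv (hf : Act S.l (S.H W) f) : cC (S.Uv W v) f =
    ex (S.t.As (cC W) f + S.vH W (vz S.l v) f) * cS (q8 (vs S.l v f)) * Us S.l S.s (cC W) f := by
  rw [cC, Uv_act hf, cS_mul, cS_mul, Ms.cS_e0, h.cE_Af (not_of_act hf), ← cC_Ub, cC]

/-! ### fields close to one -/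

section flat

variable (η0 : 0 < η) (η1 : 8 * η ≤ S.δ) (hB : ∀ e, ‖B e‖ ≤ η)
include η0 η1 hB

theorem gk_exF (H : Set St) (y : St) :
    Gk S.t.O (S.L ^ (S.c + 7) * (P * η)) H (S.ka (exF B)) (exF B) 1 y := by
  have z := h.sz η η0 η1
  have p1 := h.ok.P1
  refine ⟨fun _ => (gp_exF hB ((h.ok.d_le z).trans (by norm_num)) y).mono ?_,
    fun _ => Nt.kd_kc h.ok z (B := sh y B) fun _ => hB _⟩
  have := (h.nu.cL' (C := 10) (by norm_num)).trans (le_self_pow₀ (L1 _) (S.c + 6).succ_ne_zero)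
  calc 10 * η = 10 * (1 * η) := by ring
    _ ≤ _ := by gcongr

omit hB in
theorem hδ_exF : (LL S.t.O.l : ℝ) ^ (2 * S.c + 10) * (S.L ^ (S.c + 7) * (P * η)) ≤ 1 := by
  have := h.ok.small (h.sz η η0 η1) (j := 3 * S.c + 17) (by omega)
  have t0 := h.ok.τ0
  have p1 := h.ok.P1
  have l0 := L0 S.toTd
  show S.L ^ (2 * S.c + 10) * (S.L ^ (S.c + 7) * (P * η)) ≤ 1
  calc _ = 1 * (S.L ^ (3 * S.c + 17) * (P * (η + 0))) := by ring
    _ ≤ 10 ^ 6 * (S.L ^ (3 * S.c + 17) * (P * (η + S.τ))) := by gcongr; norm_num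
    _ ≤ 1 := this

theorem pol0_le (hA : Sm (fb S.l (4 * S.N + 2)) α (sh (up S.l (yo S.l f.1)) A)) :
    ‖S.pol0 (pP S.N) (exF B) A f‖ ≤ S.L ^ (6 * S.c + 16) * α ∧
      ‖S.pol0 (pU S.N) (exF B) A f‖ ≤ Real.exp (-(S.l : ℝ) ^ 2) * α :=
  have := polK_pP h.op (h.hδ_exF η0 η1) f (fun _ _ => h.gk_exF η0 η1 hB ∅ _) hA
  ⟨this.1, this.2.2⟩

theorem v0_le (z : Lk → E3) (f : Lk) :
    ‖S.v0 (exF B) z f‖ ≤ S.gt * (S.L ^ (6 * S.c + 16) * S.ζ) := by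
  rw [v0, P0, Pi.smul_apply, norm_smul, Complex.norm_real, Real.norm_of_nonneg h.nu.ok.gt0.le]
  exact mul_le_mul_of_nonneg_left (h.pol0_le η0 η1 hB (A := zc S.ζ z) (f := f) (α := S.ζ)
    fun e _ => norm_zc S.Q0.le z _).1 h.nu.ok.gt0.le

theorem dt0_le : ‖S.dt0 (exF B)‖ ≤ S.L ^ (2 * S.c + 9) :=
  (dtK_bound h.op (h.hδ_exF η0 η1) fun y _ => h.gk_exF η0 η1 hB ∅ y :)

end flat

end Fo

/-! ### calm regions -/

namespace Calm

variable (c : S.Calm W v 0)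
include c

theorem fq (hy : y ∈ box S.D0) : Fq (S.p'.R + 1) S.p'.ε (sh y W) := by simpa using (c y hy).1

theorem not_H (hy : y ∈ box S.D0) : y ∉ S.H W := not_mem_H.2 (c.fq hy)

theorem agS (ha : a ≤ S.D0) : AgS a (S.H W) ∅ := fun _ hy =>
  iff_of_false (c.not_H (box_mono ha hy)) id

theorem act (ha : a + 3 ≤ S.D0) (hf : f ∈ lbox (fb S.l a)) : Act S.l (S.H W) f ↔ ¬ tree S.l f :=
  ((c.agS ha).act hf).trans act_empty

theorem gd (hy : y ∈ box S.D0) : gd S.l S.ζ (v y) = 1 := by simpa using (c y hy).2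

theorem vo (hy : y ∈ box S.D0) : (vo v y).1 = 0 :=
  (Cov.gd_iff.1 ((c.gd hy).trans_ne one_ne_zero)).2

theorem vz (hf : f ∈ lbox (fb S.l S.D0)) (ht : ¬ tree S.l f) :
    ‖vz S.l v f‖ ≤ S.ζ ∧ vs S.l v f = 0 :=
  (Cov.gd_iff.1 ((c.gd (yo_mem_box (mem_lbox.1 hf))).trans_ne one_ne_zero)).1 f rfl ht

theorem zc (hf : f ∈ lbox (fb S.l S.D0)) (ht : ¬ tree S.l f) :
    zc S.ζ (Q4.vz S.l v) f = cF (Q4.vz S.l v) f := if_pos (c.vz hf ht).1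

theorem polA (hp : p.natDegree ≤ d) (ha : a + 2 * d + 3 ≤ S.D0) (A : Fld) :
    Agr (fb S.l a) (S.pol p W A) (S.pol0 p (cC W) A) :=
  polK_agr hp (c.agS ha) (fun _ _ _ => Kc.refl _ le_rfl) fun _ _ => rfl

theorem pol (hp : p.natDegree ≤ d) (ha : a + 2 * d + 3 ≤ S.D0) : Agr (fb S.l a)
    (S.pol p W (cF (Q4.vz S.l v))) (S.pol0 p (cC W) (RG.zc S.ζ (Q4.vz S.l v))) := by
  refine (c.polA hp ha _).trans ?_
  rw [Td.pol0, Td.pol0, ← polK_pj, ← polK_pj (A := RG.zc _ _)]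
  refine polK_agr hp (fun _ _ => Iff.rfl) (fun _ _ _ => Kc.refl _ le_rfl) fun e he => ?_
  by_cases h1 : Act S.l ∅ e
  · rw [pj_act h1, pj_act h1, c.zc (lbox_mono (Op.fb_mono _ (by omega)) he) h1.1]
  · rw [pj_not h1, pj_not h1]

theorem vH (ha : a + 2 * S.N + 3 ≤ S.D0) :
    Agr (fb S.l a) (S.vH W (Q4.vz S.l v)) (S.v0 (cC W) (Q4.vz S.l v)) := fun e he =>
  congrArg ((S.gt : ℂ) • ·) (c.pol (Op.natDegree_pP _) ha e he)

theorem dt (ha : 2 * S.N + 3 ≤ S.D0) : dtK S.l S.Λ S.N (S.H W) (S.ka (cC W)) = S.dt0 (cC W) :=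
  dtK_agr (c.agS ha) fun _ _ _ => Kc.refl _ le_rfl

theorem fr (ha : a + 3 ≤ S.D0) (hy : y ∈ box a) : Fr (S.H W) y := fun _ hu =>
  c.not_H (box_mono ha (add_mem_box hy hu))

theorem Uv_eq (ha : a + 3 ≤ S.D0) (hf : f ∈ lbox (fb S.l a)) (ht : ¬ tree S.l f) :
    S.Uv W v f = Ms.e0 (S.Af W (Q4.vz S.l v) f) * Ub S.l S.s W f := by
  rw [Uv_act ((c.act ha hf).2 ht), (c.vz (lbox_mono (Op.fb_mono _ (by omega)) hf) ht).2, q8_zero,
    mul_one]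

variable (h : S.Fo P)
include h

/-- in a calm region the fine field is the field without holes -/
theorem Uv (ha : a + 2 * S.N + 3 ≤ S.D0) :
    Agr (fb S.l a) (cC (S.Uv W v)) (S.U0 (cC W) (Q4.vz S.l v)) := fun f hf => by
  by_cases ht : tree S.l f
  · rw [cC, Uv_tree ht, U0_tree h.ok ht, cS_one]
  · rw [h.cC_Uv ((c.act (by omega) hf).2 ht), c.vH ha f hf,
      (c.vz (lbox_mono (Op.fb_mono _ (by omega)) hf) ht).2, q8_zero, cS_one, mul_one]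
    rfl

theorem cE_Af (ha : a + 2 * S.N + 3 ≤ S.D0) (hf : f ∈ lbox (fb S.l a)) :
    cE (S.Af W (Q4.vz S.l v) f) = (S.t.As (cC W) + S.v0 (cC W) (Q4.vz S.l v)) f := by
  rw [h.cE_Af (c.not_H (box_mono (by omega) (yo_mem_box (mem_lbox.1 hf)))), c.vH ha f hf]
  rfl

theorem vH_le (ha : a + 4 * S.N + 2 ≤ S.D0) :
    Sm (fb S.l a) (S.gt * (S.L ^ (6 * S.c + 16) * S.ζ)) (S.vH W (Q4.vz S.l v)) := fun _ hf =>
  h.vH_le (fun _ he ht => (c.vz (lbox_mono (Op.fb_mono _ ha)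
    (mem_up he (yo_mem_box (mem_lbox.1 hf)))) fun h1 => ht ((Cov.tree_up _ _ _).1 h1)).1) S.Q0.le

theorem Af_le (ha : a + 4 * S.N + 2 ≤ S.D0) :
    Sm (fb S.l a) (S.D0 * S.Q * S.g) (S.Af W (Q4.vz S.l v)) := fun f hf => by
  have hy := c.not_H (box_mono (by omega) (yo_mem_box (mem_lbox.1 hf)))
  have h1 := norm_add_le_of_le ((h.As_not hy).1.trans h.Dε.2.1) (c.vH_le h ha f hf)
  rw [← h.cE_Af hy] at h1
  have g0 := h.nu.ok.g0
  have l0 := L0 S.toTd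
  have q1 := S.Q1
  have h2 : S.gt * (S.L ^ (6 * S.c + 16) * S.ζ) ≤ S.g * (S.L ^ (6 * S.c + 16) * S.Q) := by
    gcongr
    exacts [h.nu.ok.gt_le, le_rfl]
  have h3 : S.g * (1 * 1) ≤ S.g * (S.L ^ (6 * S.c + 16) * S.Q) := by
    gcongr
    exact one_le_pow₀ (L1 _)
  have h4 : 4 * S.L ^ (6 * S.c + 16) * 1 ≤ S.D0 :=
    le_trans (by gcongr; exact h.ok.P1) (h.num (by norm_num) (by omega))
  calc _ ≤ 4 * S.L ^ (6 * S.c + 16) * 1 * S.Q * S.g := by linarith [(norm_cE (S.Af W (Q4.vz S.l v) f)).2]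
    _ ≤ _ := by gcongr

end Calm

theorem TK.fo (h : S.TK) (hn : S.Nu 0) : S.Fo S.P := ⟨hn, h.ok, h.gr, h.sz, le_rfl⟩

end Sd

theorem ev_fo0 (c : ℕ) : ∀ᶠ S in ev0 c, S.TOk → S.Fo S.P := by
  filter_upwards [ev_nu c 0, tk0 c] with S h1 h2 ht using (h2 ht).fo h1

theorem ev_fo (c : ℕ) : ∀ᶠ S in ev c, S.Fo S.P := ev_iff.2 (ev_fo0 c)

end Pool.Agent.Lib.MP_7f377f_mp.RG.Q4
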