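import Pool.Agent.Lib.MP_7f377f_mp.Q4Defs
import Pool.Agent.Lib.MP_7f377f_mp.Q4RepA
import Pool.Agent.Lib.MP_7f377f_mp.Q4BudG

/-! Bounds for the polymer representation at a fixed field. -/

noncomputable section

namespace Pool.Agent.Lib.MP_7f377f_mp.RG.Q4

open Finset Real

variable {p : Pa} {n : ℕ} {k k' d : Mj} {K K' : Ac} {θ θ' b δ : ℝ} {Φ Φ' : Lx} {U : Conf}

theorem KM.add (h : KM p n k K) (h' : KM p n k' K') : KM p n (k + k') (K + K') where
  meas X c := (h.meas X c).add (h'.meas X c)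
  per X c U := by simp only [Pi.add_apply, h.per, h'.per]
  dep X c U U' e := by simp only [Pi.add_apply, h.dep X c e, h'.dep X c e]
  gi X c u U hu := by simp only [Pi.add_apply, h.gi X c u U hu, h'.gi X c u U hu]
  bd X c U hU := (norm_add_le _ _).trans
    ((add_le_add (h.bd X c U hU) (h'.bd X c U hU)).trans_eq (add_mul ..).symm)

theorem KM.smul (h : KM p n k K) (s : ℂ) : KM p n (‖s‖ • k) (s • K) where
  meas X c := (h.meas X c).const_smul s
  per X c U := by simp only [Pi.smul_apply, h.per]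
  dep X c U U' e := by simp only [Pi.smul_apply, h.dep X c e]
  gi X c u U hu := by simp only [Pi.smul_apply, h.gi X c u U hu]
  bd X c U hU := by
    simp only [Pi.smul_apply, smul_eq_mul, norm_mul, mul_assoc]
    exact mul_le_mul_of_nonneg_left (h.bd X c U hU) (norm_nonneg _)

theorem KM.mono (h : KM p n k K) (e : ∀ X c, k X c ≤ k' X c) : KM p n k' K :=
  ⟨h.meas, h.per, h.dep, h.gi, fun X c U hU =>
    (h.bd X c U hU).trans (mul_le_mul_of_nonneg_right (e X c) (exp_pos _).le)⟩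

theorem KM.sub (h : KM p n k K) (h' : KM p n k' K') : KM p n (k + k') (K - K') := by
  simpa [sub_eq_add_neg] using h.add (h'.smul (-1))

theorem kN.add (h : kN p n k θ) (h' : kN p n k' θ') : kN p n (k + k') (θ + θ') :=
  ⟨fun X c => add_nonneg (h.1 X c) (h'.1 X c), fun x => by
    simp only [Pi.add_apply, add_mul, sum_add_distrib]
    exact add_le_add (h.2 x) (h'.2 x)⟩

theorem kN.smul (h : kN p n k θ) {s : ℝ} (hs : 0 ≤ s) : kN p n (s • k) (s * θ) :=
  ⟨fun X c => mul_nonneg hs (h.1 X c), fun x => by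
    simp only [Pi.smul_apply, smul_eq_mul, mul_assoc, ← mul_sum]
    exact mul_le_mul_of_nonneg_left (h.2 x) hs⟩

theorem kN.mono (h : kN p n k θ) (e : θ ≤ θ') : kN p n k θ' := ⟨h.1, fun x => (h.2 x).trans e⟩

theorem kN.nonneg (h : kN p n k θ) : 0 ≤ θ :=
  (sum_nonneg fun _ _ => mul_nonneg (h.1 _ _) (exp_pos _).le).trans (h.2 0)

namespace En

theorem pc_eq {α : Type} {U : Lk → α} (h : Per n U) : pc n U = U := funext fun e => by
  obtain ⟨v, hv⟩ := rc_exists n e.1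
  rw [pc, hv]
  exact congrFun (h.sh_smul v) e

theorem card_dom (hn : Odd n) : ((box (n / 2)).card : ℝ) = n ^ 4 := by
  obtain ⟨m, rfl⟩ := hn
  rw [card_box, show (2 * m + 1) / 2 = m by omega]
  simp

/-- the weights dominate the volumes -/
structure Pg (p : Pa) (b : ℝ) : Prop where
  D : 1 ≤ p.D
  a : 1 ≤ p.a
  G0 : 0 ≤ p.G0
  b0 : 0 ≤ b
  G2 : (b + 1) * (2 * p.D + 1) ^ 4 ≤ p.G2
  lam : 0 ≤ p.lam

def ee (p : Pa) : ℝ := ((2 * p.D + 1 : ℝ) ^ 4)⁻¹

theorem ee_pos (p : Pa) : 0 < ee p := by unfold ee; positivity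

theorem ee_le (p : Pa) : ee p ≤ 1 :=
  inv_le_one_of_one_le₀ (one_le_pow₀ (by linarith [(p.D.cast_nonneg : (0 : ℝ) ≤ p.D)]))

theorem wgt_ge (h : Pg p b) (hn : Odd n) {o : LP St} (ho : o ∈ lps (box (n / 2))) :
    exp ((b + 1) * (o.2.biUnion id).card) * exp (ee p * o.1.card) ≤ wgt p n o.1 o.2 := by
  obtain ⟨a1, -, a2⟩ := mem_lps.1 ho
  have c : ∀ X ⊆ box (n / 2), (X.card : ℝ) ≤ tau n p.D X * (2 * p.D + 1) ^ 4 := fun X hX => by
    exact_mod_cast card_le_tau h.D fun x hx => rc_eq hn (hX hx)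
  rw [← exp_add, wgt, exp_le_exp, add_comm]
  refine add_le_add ?_ ?_
  · rw [ee, inv_mul_le_iff₀ (by positivity), mul_comm]
    exact (c _ a1).trans (mul_le_mul_of_nonneg_right
      (le_mul_of_one_le_left (Nat.cast_nonneg _) h.a) (by positivity))
  · have := h.b0
    have e : ((o.2.biUnion id).card : ℝ) ≤ ∑ C ∈ o.2, (C.card : ℝ) := by
      exact_mod_cast card_biUnion_le
    refine (mul_le_mul_of_nonneg_left e (by positivity)).trans ?_
    rw [mul_sum]
    refine sum_le_sum fun C hC => ?_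
    have := mul_le_mul_of_nonneg_left (c C (((mem_fams.1 a2).1 C hC).trans a1)) (by positivity : 0 ≤ b + 1)
    have := mul_le_mul_of_nonneg_right h.G2 (Nat.cast_nonneg (α := ℝ) (tau n p.D C))
    linarith [h.G0]

theorem Rg_eq {X : Finset St} {c : Finset (Finset St)} (h : c ∈ fams X) (U : Conf) :
    Rg c U = ∑ x ∈ c.biUnion id, fs U x := (sum_biUnion (mem_fams.1 h).2.2).symm

theorem km_le (h : KM p n k K) (hl : 0 ≤ p.lam) (h0 : kN p n k θ) (hU : Per n U) (X : Finset St)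
    (c : Finset (Finset St)) : ‖K X c U‖ ≤ k X c :=
  (h.bd X c U hU).trans (mul_le_of_le_one_right (h0.1 X c) (exp_le_one_iff.2 (neg_nonpos.2
    (mul_nonneg hl (sum_nonneg fun _ _ => sum_nonneg fun _ _ => fs_nonneg _ _)))))

theorem nm_of (h : Pg p b) (hn : Odd n) (h0 : kN p n k θ) : Nm (box (n / 2))
    (fun X c => k X c * exp ((b + 1) * (c.biUnion id).card) * exp (ee p * X.card)) θ :=
  Nm.mono (k := fun X c => k X c * wgt p n X c) h0.2 fun o ho => by
    rw [mul_assoc]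
    exact mul_le_mul_of_nonneg_left (wgt_ge h hn ho) (h0.1 _ _)

/-- upper bound for complex data -/
theorem rep_le (h : Pg p b) (hn : Odd n) (hK : KM p n k K) (h0 : kN p n k θ) (hU : Per n U) {c C : ℝ}
    (hc : c ≤ p.lam) (hC : 0 ≤ C) (hΦ : ∀ x ∈ box (n / 2), Fq (p.R + 1) p.ε (sh x U) →
      c * fs U x - C ≤ (Φ x (Bx x (cC U))).re) (h1 : ∀ x, c * fs U x ≤ p.lam * fs U x) :
    ‖Rep p n Φ K U‖ ≤ exp ((C + θ) * n ^ 4 - c * ∑ x ∈ box (n / 2), fs U x) := by
  have _ := hc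
  have e : Ix p Φ U = fun y => (exp (C - c * fs U y) : ℝ) *
      (Ix p Φ U y * ((exp (C - c * fs U y) : ℝ) : ℂ)⁻¹) := funext fun y => by
    have : ((exp (C - c * fs U y) : ℝ) : ℂ) ≠ 0 := Complex.ofReal_ne_zero.2 (exp_pos _).ne'
    field_simp
  rw [Rep, pc_eq hU, e, ZL_fac fun y _ => Complex.ofReal_ne_zero.2 (exp_pos _).ne', norm_mul,
    show (C + θ) * n ^ 4 - c * ∑ x ∈ box (n / 2), fs U x =
      ∑ x ∈ box (n / 2), (C - c * fs U x) + θ * (box (n / 2)).card by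
        rw [sum_sub_distrib, ← mul_sum, sum_const, nsmul_eq_mul, card_dom hn]; ring,
    exp_add, exp_sum, norm_prod]
  simp only [Complex.norm_real, norm_eq_abs, abs_exp]
  refine mul_le_mul_of_nonneg_left (ZL_le (k := k) (fun y hy => ?_) (fun o ho => ?_)
    ((nm_of h hn h0).mono fun o _ => ?_)) (prod_nonneg fun _ _ => (exp_pos _).le)
  · rw [norm_mul, norm_inv, Complex.norm_real, norm_eq_abs, abs_exp, ← div_eq_mul_inv,
      div_le_one (exp_pos _), Ix, chi]
    split_ifs with h2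
    · rw [one_mul, Complex.norm_exp, exp_le_exp, Complex.neg_re]
      linarith [hΦ y hy h2]
    · simpa using (exp_pos _).le
  · rw [norm_mul, norm_prod]
    simp only [norm_inv, Complex.norm_real, norm_eq_abs, abs_exp, ← exp_neg, ← exp_sum]
    refine (mul_le_mul_of_nonneg_right (hK.bd _ _ U hU) (exp_pos _).le).trans ?_
    rw [mul_assoc, ← exp_add, Rg_eq (mem_lps.1 ho).2.2, mul_sum, ← sum_neg_distrib, ← sum_add_distrib]
    exact mul_le_of_le_one_right (h0.1 _ _)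
      (exp_le_one_iff.2 (sum_nonpos fun x _ => by linarith [h1 x]))
  · have := h.b0
    have := ee_pos p
    rw [mul_assoc]
    exact le_mul_of_one_le_right (h0.1 _ _) (one_le_mul_of_one_le_of_one_le
      (one_le_exp (by positivity)) (one_le_exp (by positivity)))

theorem rep_fac (hU : Per n U) (hχ : ∀ x, Fq (p.R + 1) p.ε (sh x U)) {z : St → ℝ}
    (hz : ∀ x, Φ x (Bx x (cC U)) = z x) :
    Rep p n Φ K U = (exp (-∑ x ∈ box (n / 2), z x) : ℝ) * ZL (box (n / 2))
      (fun X c => K X c U * (exp (∑ x ∈ c.biUnion id, z x) : ℝ)) 1 := by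
  have e : Ix p Φ U = fun y => (exp (-z y) : ℝ) * (1 : St → ℂ) y := funext fun y => by
    simp [Ix, chi, hχ, hz]
  rw [Rep, pc_eq hU, e, ZL_fac fun y _ => Complex.ofReal_ne_zero.2 (exp_pos _).ne']
  simp only [← Complex.ofReal_inv, ← Complex.ofReal_prod, ← exp_neg, ← exp_sum, neg_neg,
    sum_neg_distrib]

theorem exp_sub_le {s t M D : ℝ} (h1 : s ≤ M) (h2 : t ≤ M) (h3 : |t - s| ≤ D) :
    |exp t - exp s| ≤ D * exp M := by
  have k : ∀ s t, t ≤ M → |t - s| ≤ D → exp t - exp s ≤ D * exp M := fun s t h2 h3 => by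
    have a : exp t * (1 - (t - s)) ≤ exp s := by
      have := mul_le_mul_of_nonneg_left (add_one_le_exp (s - t)) (exp_pos t).le
      rw [← exp_add, add_sub_cancel] at this
      linarith
    have := mul_le_mul ((le_abs_self _).trans h3) (exp_le_exp.2 h2) (exp_pos t).le
      ((abs_nonneg _).trans h3)
    linarith
  exact abs_le.2 ⟨by linarith [k t s h1 (abs_sub_comm t s ▸ h3)], k s t h2 h3⟩

/-- comparison of two real data at a field with small curvature -/
theorem rep_cmp (h : Pg p b) (hn : Odd n) (hK : KM p n k K) (hK' : KM p n k K')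
    (hd : KM p n d (K' - K)) (r : RealA K) (r' : RealA K') (h0 : kN p n k θ) (h1 : kN p n d θ')
    (hθ : 2 * θ ≤ ee p) (hU : Per n U) (hχ : ∀ x, Fq (p.R + 1) p.ε (sh x U)) {z z' : St → ℝ}
    (hz : ∀ x, Φ x (Bx x (cC U)) = z x) (hz' : ∀ x, Φ' x (Bx x (cC U)) = z' x)
    (hb : ∀ x, |z x| ≤ b ∧ |z' x| ≤ b ∧ |z' x - z x| ≤ δ) :
    0 < (Rep p n Φ K U).re ∧ 0 < (Rep p n Φ' K' U).re ∧
      |log (Rep p n Φ' K' U).re - log (Rep p n Φ K U).re + ∑ x ∈ box (n / 2), (z' x - z x)| ≤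
        2 * (θ' + δ * θ) * n ^ 4 := by
  have δ0 : 0 ≤ δ := (abs_nonneg _).trans (hb 0).2.2
  have s : ∀ (z : St → ℝ) (b : ℝ) (C : Finset St), (∀ x, |z x| ≤ b) → |∑ x ∈ C, z x| ≤ b * C.card :=
    fun z b C hz => (abs_sum_le_sum_abs _ _).trans ((sum_le_card_nsmul _ _ _ fun x _ => hz x).trans_eq
      (by rw [nsmul_eq_mul, mul_comm]))
  have t : ∀ {K : Ac} {k : Mj} {θ : ℝ}, KM p n k K → kN p n k θ → ∀ (z : St → ℝ), (∀ x, |z x| ≤ b) →
      ∀ X c, ‖K X c U * (exp (∑ x ∈ c.biUnion id, z x) : ℝ)‖ ≤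
        k X c * exp ((b + 1) * (c.biUnion id).card) := fun hK h0 z hz X c => by
    rw [norm_mul, Complex.norm_real, norm_eq_abs, abs_exp]
    exact mul_le_mul (km_le hK h.lam h0 hU X c) (exp_le_exp.2 (((le_abs_self _).trans
      (s z b _ hz)).trans (by gcongr; linarith))) (exp_pos _).le (h0.1 X c)
  obtain ⟨a1, a2, a3, a4, a5⟩ := ZL_cmp (Λ := box (n / 2))
    (K := fun X c => K X c U * (exp (∑ x ∈ c.biUnion id, z x) : ℝ))
    (K' := fun X c => K' X c U * (exp (∑ x ∈ c.biUnion id, z' x) : ℝ))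
    (d := fun X c => (d + δ • k) X c * exp ((b + 1) * (c.biUnion id).card)) (ee_pos p) (ee_le p) hθ
    (fun o _ => ⟨t hK h0 z (fun x => (hb x).1) _ _, t hK' h0 z' (fun x => (hb x).2.1) _ _, by
      set C := o.2.biUnion id
      rw [show ∀ a a' u u' : ℂ, a' * u' - a * u = (a' - a) * u' + a * (u' - u) from
        fun _ _ _ _ => by ring, Pi.add_apply, Pi.add_apply, add_mul]
      refine norm_add_le_of_le (t hd h1 z' (fun x => (hb x).2.1) _ _) ?_
      rw [norm_mul, ← Complex.ofReal_sub, Complex.norm_real, norm_eq_abs, Pi.smul_apply,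
        Pi.smul_apply, smul_eq_mul, mul_comm δ, mul_assoc]
      refine mul_le_mul (km_le hK h.lam h0 hU _ _) ((exp_sub_le (D := δ * C.card)
        ((le_abs_self _).trans (s z b C fun x => (hb x).1))
        ((le_abs_self _).trans (s z' b C fun x => (hb x).2.1))
        (by rw [← sum_sub_distrib]; exact s _ δ C fun x => (hb x).2.2)).trans ?_) (abs_nonneg _)
        (h0.1 _ _)
      rw [add_mul, one_mul, exp_add, mul_assoc, mul_comm (C.card : ℝ)]
      gcongr
      linarith [add_one_le_exp (C.card : ℝ)], by simp [r _ _ U, -Complex.ofReal_exp],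
      by simp [r' _ _ U, -Complex.ofReal_exp]⟩)
    (nm_of h hn h0) (nm_of h hn (h1.add (h0.smul δ0)))
  rw [rep_fac hU hχ hz, rep_fac hU hχ hz', Complex.re_ofReal_mul, Complex.re_ofReal_mul,
    log_mul (exp_pos _).ne' a3.ne', log_mul (exp_pos _).ne' a4.ne', log_exp, log_exp,
    sum_sub_distrib, ← card_dom hn]
  refine ⟨mul_pos (exp_pos _) a3, mul_pos (exp_pos _) a4, ?_⟩
  rw [show ∀ a b c d : ℝ, -b + d - (-a + c) + (b - a) = d - c from fun _ _ _ _ => by ring]
  exact a5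

/-- the logarithm of the representation at a field with small curvature -/
theorem rep_log (h : Pg p b) (hn : Odd n) (hK : KM p n k K) (r : RealA K) (h0 : kN p n k θ)
    (hθ : 2 * θ ≤ ee p) (hU : Per n U) (hχ : ∀ x, Fq (p.R + 1) p.ε (sh x U)) {z : St → ℝ}
    (hz : ∀ x, Φ x (Bx x (cC U)) = z x) (hb : ∀ x, |z x| ≤ b) : 0 < (Rep p n Φ K U).re ∧
      |log (Rep p n Φ K U).re + ∑ x ∈ box (n / 2), z x| ≤ 2 * θ * n ^ 4 := by
  obtain ⟨-, a1, a2⟩ := ZL_log (Λ := box (n / 2))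
    (K := fun X c => K X c U * (exp (∑ x ∈ c.biUnion id, z x) : ℝ)) (ee_pos p) (ee_le p) hθ
    (fun o _ => ⟨by
      rw [norm_mul, Complex.norm_real, norm_eq_abs, abs_exp]
      refine mul_le_mul (km_le hK h.lam h0 hU _ _) (exp_le_exp.2 ((sum_le_card_nsmul _ _ (b + 1)
        fun x _ => by linarith [(abs_le.1 (hb x)).2]).trans_eq ?_)) (exp_pos _).le (h0.1 _ _)
      rw [nsmul_eq_mul, mul_comm], by simp [r _ _ U, -Complex.ofReal_exp]⟩) (nm_of h hn h0)
  rw [rep_fac hU hχ hz, Complex.re_ofReal_mul, log_mul (exp_pos _).ne' a1.ne', log_exp, ← card_dom hn]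
  exact ⟨by positivity, (le_of_eq (by congr 1; ring)).trans a2⟩

theorem rep_diff {Ω : Set ℂ} {Φ : ℂ → Lx} {K : ℂ → Ac}
    (hK : ∀ X c, DifferentiableOn ℂ (K · X c U) Ω) (hΦ : ∀ x B, DifferentiableOn ℂ (Φ · x B) Ω) :
    DifferentiableOn ℂ (fun s => Rep p n (Φ s) (K s) U) Ω :=
  ZL_diff hK fun y => (hΦ y _).neg.cexp.const_mul _

end En

end Pool.Agent.Lib.MP_7f377f_mp.RG.Q4
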