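import Pool.Agent.Lib.MP_7f377f_mp.Q4Def2
import Pool.Agent.Lib.MP_7f377f_mp.Q4FldB
import Pool.Agent.Lib.MP_7f377f_mp.Q4RepB
import Pool.Agent.Lib.MP_7f377f_mp.Q4PsE
import Pool.Agent.Lib.MP_7f377f_mp.Q4TrZ

/-! Basic properties of the polymer representation. -/

noncomputable section

namespace Pool.Agent.Lib.MP_7f377f_mp.RG.Q4

open Finset MeasureTheory Filter

attribute [local irreducible] box lbox

section rep

variable {p : Pa} {n : ℕ} {Φ Ψ : Lx} {K : Ac} {k : Mj} {U U' : Conf} {x : St}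

theorem Pa.Ok.ρ0 (hp : p.Ok) : 0 < p.ρ := lt_of_lt_of_le (by have := hp.1; positivity) hp.2.1

theorem Fq.cv (hp : p.Ok) (h : Fq (p.R + 1) p.ε (RG.sh x U)) :
    Cv p.R (p.ρ / 10) (Bx x (cC U)) := by
  have h1 := hp.2.1
  have h2 : 0 ≤ (p.R + 1) * p.ε := by have := hp.1; positivity
  rw [Bx_eq, sh_cC]
  exact (JS.cv_of_sm (Bx_loc h (by push_cast; linarith [hp.2.2])).1).mono le_rfl
    (by push_cast; linarith)

theorem Fq.cv' (hp : p.Ok) (h : Fq (p.R + 1) p.ε (RG.sh x U)) : Cv p.R p.ρ (Bx x (cC U)) :=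
  (h.cv hp).mono le_rfl (by linarith [hp.ρ0])

theorem Ix_pos (h : Fq (p.R + 1) p.ε (sh x U)) : Ix p Φ U x = Complex.exp (-Φ x (Bx x (cC U))) := by
  rw [Ix, chi, if_pos h, one_mul]

theorem Ix_neg (h : ¬ Fq (p.R + 1) p.ε (sh x U)) : Ix p Φ U x = 0 := by
  rw [Ix, chi, if_neg h, zero_mul]

theorem Ix_agr (hp : p.Ok) (h : LO p Φ) (e : Agr (p.R + 2) (sh x U) (sh x U')) :
    Ix p Φ U x = Ix p Φ U' x := by
  by_cases h1 : Fq (p.R + 1) p.ε (sh x U)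
  · rw [Ix_pos h1, Ix_pos ((fq_agr_iff e).1 h1), (h.la x).loc _ _ (Bx_real x U) (Bx_real x U')
      (h1.cv' hp) fun y hy μ ν => ?_]
    have a : Agr (p.R + 1) (Bx x (cC U)) (Bx x (cC U')) := by
      rw [Bx_eq, Bx_eq x (cC U')]
      exact Bx_agr (agr_cC e)
    simp only [dd, a _ (mem_lbox.2 (box_mono p.R.le_succ hy) : (y, _) ∈ _),
      a _ (mem_lbox.2 (add_un_mem_box hy _) : (y + un _, _) ∈ _)]
  · rw [Ix_neg h1, Ix_neg fun h2 => h1 ((fq_agr_iff e).2 h2)]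

theorem Ix_gauge (hp : p.Ok) (h : LO p Φ) (u : St → S3) :
    Ix p Φ (gauge Inv.inv u U) x = Ix p Φ U x := by
  have e : Fq (p.R + 1) p.ε (sh x (gauge Inv.inv u U)) ↔ Fq (p.R + 1) p.ε (sh x U) := by
    rw [sh_gauge, fq_gauge_iff]
  by_cases h1 : Fq (p.R + 1) p.ε (sh x U)
  · have h2 := (e.2 h1).cv' hp
    rw [Ix_pos h1, Ix_pos (e.2 h1)]
    rw [cC_gauge, Bx_gauge fun _ => uni_cS _] at h2 ⊢
    rw [(h.la x).ad _ _ (Bx_real x U) (h1.cv' hp) h2]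
  · rw [Ix_neg h1, Ix_neg fun h2 => h1 (e.1 h2)]

theorem chi_meas (p : Pa) (x : St) : Measurable fun U => chi p U x :=
  Measurable.ite (meas_Fq (W := fun U : Conf => sh x U)
    (measurable_pi_lambda _ fun _ => measurable_pi_apply _) _ _) measurable_const measurable_const

theorem Ix_meas (h : LO p Φ) : Measurable fun U => Ix p Φ U x :=
  (chi_meas p x).mul ((h.meas x).comp (Bx_measurable (mq_cC measurable_id) x)).neg.cexp

theorem Ix_bd (hp : p.Ok) (h : LO p Φ) (x : St) : ∃ M, ∀ U, ‖Ix p Φ U x‖ ≤ M := by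
  obtain ⟨M, hM⟩ := h.bd x
  refine ⟨Real.exp M, fun U => ?_⟩
  by_cases h1 : Fq (p.R + 1) p.ε (sh x U)
  · rw [Ix_pos h1]
    exact (Complex.norm_exp_le_exp_norm _).trans (Real.exp_le_exp.2
      ((norm_neg _).trans_le (hM _ (Bx_real x U) (h1.cv' hp))))
  · rw [Ix_neg h1, norm_zero]
    positivity

theorem Rg_gauge (c : Finset (Finset St)) (u : St → S3) : Rg c (gauge Inv.inv u U) = Rg c U := by
  simp only [Rg, fs, Mx.fq_gauge]

theorem Rg_nonneg (c : Finset (Finset St)) (U : Conf) : 0 ≤ Rg c U :=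
  sum_nonneg fun _ _ => sum_nonneg fun _ _ => fs_nonneg _ _

variable {f g : Conf → ℂ}

theorem GI.const (n : ℕ) (a : ℂ) : GI n fun _ => a :=
  ⟨measurable_const, ⟨_, fun _ => le_rfl⟩, fun _ _ _ _ => rfl⟩

theorem GI.add (h : GI n f) (h' : GI n g) : GI n fun U => f U + g U :=
  let ⟨_, a⟩ := h.2.1
  let ⟨_, b⟩ := h'.2.1
  ⟨h.1.add h'.1, ⟨_, fun U => norm_add_le_of_le (a U) (b U)⟩,
    fun u U a b => congrArg₂ _ (h.2.2 u U a b) (h'.2.2 u U a b)⟩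

theorem GI.mul (h : GI n f) (h' : GI n g) : GI n fun U => f U * g U :=
  let ⟨_, a⟩ := h.2.1
  let ⟨_, b⟩ := h'.2.1
  ⟨h.1.mul h'.1, ⟨_, fun U => norm_mul_le_of_le (a U) (b U)⟩,
    fun u U a b => congrArg₂ _ (h.2.2 u U a b) (h'.2.2 u U a b)⟩

theorem GI.sum {ι : Type} {s : Finset ι} {f : ι → Conf → ℂ} (h : ∀ i ∈ s, GI n (f i)) :
    GI n fun U => ∑ i ∈ s, f i U := by
  induction s using Finset.cons_induction with
  | empty => exact .const n 0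
  | cons a s _ ih =>
    simp only [sum_cons]
    exact (h a (mem_cons_self ..)).add (ih fun i hi => h i (mem_cons_of_mem hi))

theorem GI.prod {ι : Type} {s : Finset ι} {f : ι → Conf → ℂ} (h : ∀ i ∈ s, GI n (f i)) :
    GI n fun U => ∏ i ∈ s, f i U := by
  induction s using Finset.cons_induction with
  | empty => exact .const n 1
  | cons a s _ ih =>
    simp only [prod_cons]
    exact (h a (mem_cons_self ..)).mul (ih fun i hi => h i (mem_cons_of_mem hi))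

theorem KM.le (hK : KM p n k K) (hl : 0 ≤ p.lam) (X : Finset St) (c : Finset (Finset St))
    (U : Conf) : ‖K X c U‖ ≤ |k X c| := by
  rw [← hK.per]
  exact (hK.bd X c _ (Mx.per_pc n U)).trans ((mul_le_mul_of_nonneg_right (le_abs_self _)
    (Real.exp_pos _).le).trans (mul_le_of_le_one_right (abs_nonneg _) (Real.exp_le_one_iff.2
      (neg_nonpos.2 (mul_nonneg hl (Rg_nonneg _ _))))))

theorem KM.toGI (hK : KM p n k K) (hl : 0 ≤ p.lam) (X : Finset St) (c : Finset (Finset St)) :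
    GI n (K X c) := ⟨hK.meas X c, ⟨_, hK.le hl X c⟩, fun u U hu _ => hK.gi X c u U hu⟩

theorem Ix_GI (hp : p.Ok) (h : LO p Φ) (n : ℕ) (x : St) : GI n fun U => Ix p Φ (pc n U) x :=
  ⟨(Ix_meas h).comp (Cov.meas_pc n), (Ix_bd hp h x).imp fun _ a _ => a _, fun u U hu _ => by
    simp only [Mx.pc_gauge (Mx.PS_iff.1 hu), Ix_gauge hp h]⟩

theorem Rep_GI (hp : p.Ok) (hl : 0 ≤ p.lam) (hn : Odd n) (h : LO p Φ) (hK : KM p n k K) :
    GI n (Rep p n Φ K) :=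
  have _ := hn
  .sum fun _ _ => .mul (.prod fun X _ => .sum fun c _ => .mul (hK.toGI hl X c)
    (.prod fun x _ => Ix_GI hp h n x)) (.prod fun x _ => Ix_GI hp h n x)

theorem Rep_per (hn : Odd n) (hU : Per n U) :
    Rep p n Φ K U = ZL (box (n / 2)) (fun X c => K X c U) (Ix p Φ U) := by
  have _ := hn
  rw [Rep, En.pc_eq hU]

theorem LO.add (h : LO p Φ) (h' : LO p Ψ) : LO p fun x B => Φ x B + Ψ x B :=
  ⟨fun x => (h.la x).map₂ (h'.la x) (· + ·), fun x => (h.meas x).add (h'.meas x), fun x =>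
    let ⟨_, a⟩ := h.bd x
    let ⟨_, b⟩ := h'.bd x
    ⟨_, fun B c d => norm_add_le_of_le (a B c d) (b B c d)⟩⟩

theorem LO.smul (h : LO p Φ) (t : ℂ) : LO p fun x B => t * Φ x B :=
  ⟨fun x => (h.la x).map (t * ·), fun x => (h.meas x).const_mul t, fun x =>
    let ⟨_, a⟩ := h.bd x
    ⟨_, fun B c d => norm_mul_le_of_le le_rfl (a B c d)⟩⟩

theorem PM.lo {xb xk xr : ℝ} (h : PM p xb xk xr Φ) : LO p Φ :=
  ⟨fun x => (h x).1.toLA, fun x => (h x).2, fun x => ⟨_, fun _ a b => (h x).1.bd a b le_rfl⟩⟩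

theorem PU.lo {b : ℝ} (h : PU p b Φ) : LO p Φ :=
  let ⟨_, _, _, h⟩ := h.1
  h.lo

theorem Tc.lo {R : ℕ} {ρ C : ℝ} {T : Fld → ℂ} (h : Tc R ρ C T) (hR : R ≤ p.R) (hρ : p.ρ ≤ ρ) :
    LO p fun _ => T :=
  ⟨fun _ => (h.la _).mono hR le_rfl, fun _ => h.meas,
    fun _ => ⟨_, fun B _ b => h.bd B _ (b.mono hR le_rfl) hρ⟩⟩

theorem lo_cx {r : ℕ} {m : BF} (hs : ∀ a b, m a b = m b a) (hr : Rng r r m)
    (hg : ∀ u b, m (gr u) b = 0) (hR : r ≤ p.R) : LO p fun _ B => cx m B B := by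
  have e : ∀ B, cx m B B = cx m (cg B) (cg B) := fun B => by
    rw [JS.cx_cg_left hg, JS.cx_cg_right fun u b => (hs _ _).trans (hg u b)]
  refine ⟨fun _ => ⟨fun A B _ _ _ d => ?_, fun u B _ _ _ => cx_adF m hr (uni_cS u) B B⟩,
    fun _ => measurable_cx hr measurable_id measurable_id, fun _ => ⟨∑ f ∈ lbox r,
      ∑ f' ∈ lbox r, ‖(m (Pi.single f 1) (Pi.single f' 1) : ℂ)‖ *
        (3 * (3 * r * p.ρ) * (3 * r * p.ρ)), fun B _ b => ?_⟩⟩
  · have : Agr r (cg A) (cg B) := fun f hf => by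
      have := Sm_cg (R := r) (δ := 0) (a := A - B)
        (fun x hx μ ν => by simp [dd_sub, d x (box_mono hR hx)]) f hf
      rwa [mul_zero, Bg.cg_sub, norm_le_zero_iff, Pi.sub_apply, sub_eq_zero] at this
    rw [e A, e B, cx_agr hr this this]
  · have s := Sm_cg (b.mono hR le_rfl)
    rw [e, cx_eq_sum m hr]
    exact norm_sum_le_of_le _ fun f hf => norm_sum_le_of_le _ fun f' hf' => norm_mul_le_of_le le_rfl
      ((norm_dot _ _).trans (mul_le_mul (mul_le_mul_of_nonneg_left (s f hf) zero_le_three) (s f' hf')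
        (norm_nonneg _) (mul_nonneg zero_le_three ((norm_nonneg _).trans (s f hf)))))

open La.Q in
theorem lo_mb {l j r ρ : ℕ} {cL cU : ℝ} {m : BF} {s : V →ₗ[ℝ] V} (h : Inv j r cL cU (mn l m s))
    (hR : r + ρ ≤ p.R) : LO p fun _ B => cx (mb l ρ m s) B B := by
  refine lo_cx (fun a b => ?_) (fun a b hab => ?_) (fun u b => ?_) hR
  · simp only [mb_apply, avB_apply, h.symm a, h.symm (sh _ a)]
  · have s2 : ∀ c : V, (∀ e ∈ lbox (r + ρ), c e = 0) → ∀ x ∈ box ρ, ∀ e ∈ lbox r, sh x c e = 0 :=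
      fun c hc x hx e he => hc _ (mem_lbox.2 (add_mem_box (mem_lbox.1 he) hx))
    have s1 := fun (c : V) (hc : ∀ e ∈ lbox (r + ρ), c e = 0) e he =>
      hc e (lbox_mono (Nat.le_add_right r ρ) he)
    rw [mb_apply, h.rng a b (hab.imp (s1 a) (s1 b)), avB_apply,
      sum_eq_zero fun x hx => h.rng _ _ (hab.imp (s2 a · x hx) (s2 b · x hx))]
    simp
  · simp [mb_apply, avB_apply, sh_gr, h.gauge]

end rep

namespace Sd.Nu

variable {S : Sd} {a : ℕ} (h : S.Nu a)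
include h

theorem lv_ok {q g R : ℝ} (g0 : 0 < g) (hq : S.Q ≤ q) (h1 : q ≤ S.Q ^ 2) (h2 : g ≤ S.g')
    (hR : R ≤ S.L * S.D0) (R1 : 1 ≤ R) : 0 < q ^ 2 * g ∧ 1000 * (4 * R + 1) * (q ^ 2 * g) ≤ q ^ 3 * g ∧
      1000 * (q ^ 3 * g) ≤ 1 ∧ 40 * (q ^ 3 * g) ≤ R⁻¹ := by
  have q0 := S.Q0
  have q1 := q0.trans_le hq
  have h3 := (h.mono a.zero_le).mon (C := 5000) (i := 1) (j := 1) (by norm_num)
    (by have := h.exps; omega) (by omega)
  have h4 : 5000 * R ≤ S.Q := by rw [pow_one, pow_one] at h3; linarith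
  have h5 : S.Q * (q ^ 3 * g) ≤ 1 := by
    calc _ ≤ S.Q ^ 1 * ((S.Q ^ 2) ^ 3 * S.g') := by rw [pow_one]; gcongr
      _ ≤ 1 := pow_mul S.Q 2 3 ▸ h.ok.Qg'_le (by omega)
  have h6 : 0 < q ^ 3 * g := by positivity
  refine ⟨by positivity, ?_, by nlinarith, ?_⟩
  · calc _ ≤ q * (q ^ 2 * g) := by gcongr; linarith
      _ = _ := by ring
  · rw [inv_eq_one_div, le_div_iff₀ (by linarith)]
    nlinarith

theorem p_ok : S.p.Ok ∧ 40 * S.p.ρ ≤ ((S.M : ℝ) ^ S.K0)⁻¹ := by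
  have := h.lv_ok h.ok.g0 h.ok.QQM (by simpa using h.QM_pow' (k := 1) (by omega)) h.ok.gg' h.MD_le'
    ((one_le_pow₀ (L1 _)).trans (h.ok.LM_pow _))
  exact ⟨⟨this.1, by rw [p_R]; push_cast; exact this.2.1, this.2.2.1⟩, this.2.2.2⟩

theorem p'_ok : S.p'.Ok ∧ 40 * S.p'.ρ ≤ (S.D0 : ℝ)⁻¹ := by
  have := h.lv_ok h.ok.g'0 le_rfl (le_self_pow₀ S.Q1 two_ne_zero) le_rfl
    (le_mul_of_one_le_left (D0' _).le (L1 _)) (by exact_mod_cast D1 _)
  exact ⟨⟨this.1, by rw [p'_R]; push_cast; exact this.2.1, this.2.2.1⟩, this.2.2.2⟩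

theorem lo_Φ (ht : S.TOk) {ψ : Lx} (hψ : LO S.p ψ) : LO S.p (S.Φ ψ) := by
  obtain ⟨_, _, -, i⟩ := ht.inv
  have hR : 3 * S.r ≤ S.p.R := by have := h.lens; rw [p_R]; omega
  exact (((lo_cx i.symm i.rng i.gauge hR).add
    (ht.tc.lo hR (by linarith [h.p_ok.2, h.p_ok.1.ρ0]))).smul _).add hψ

theorem lo_Φ' (ht : S.TOk) (k : S.TK) {ψ : Lx} {K : Ac} (h1 : LO S.p' fun _ => S.ol)
    (h2 : LO S.p' (S.PL ψ K)) : LO S.p' (S.Φ' ψ K) := by
  obtain ⟨_, _, _, -, -, -, -, -, i⟩ := ht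
  have hR : S.r + 5 ≤ S.p'.R := by have := h.lens; rw [p'_R]; omega
  exact ((((lo_mb i.inv (by omega)).add
    ((h.T1_tc k).lo hR (by linarith [h.p'_ok.2, h.p'_ok.1.ρ0]))).smul _).add h1).add h2

end Sd.Nu

theorem lo_fine (c : ℕ) :
    ∀ᶠ S in ev c, S.p.Ok ∧ S.p'.Ok ∧ ∀ b ψ, PU S.p b ψ → LO S.p (S.Φ ψ) := by
  filter_upwards [ev_nu' c 0, ev_tok] with S h ht using
    ⟨h.p_ok.1, h.p'_ok.1, fun _ _ hψ => h.lo_Φ ht hψ.lo⟩

end Pool.Agent.Lib.MP_7f377f_mp.RG.Q4
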