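import Pool.Agent.Lib.MP_7f377f_mp.Q4FluxB
import Pool.Agent.Lib.MP_7f377f_mp.Q4EMaj
import Pool.Agent.Lib.MP_7f377f_mp.Q4EStp

/-! Majorant and total variation bounds for represented densities. -/

noncomputable section

namespace Pool.Agent.Lib.MP_7f377f_mp.RG.Q4.En

open Finset Real

theorem ps_nonneg (n : ℕ) (U : Conf) : 0 ≤ ps n id U :=
  sum_nonneg fun _ _ => sum_nonneg fun μ _ => sum_nonneg fun ν _ => by
    split_ifs
    exacts [(fq_le ..).1, le_rfl]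

theorem maj_main : ∃ c C : ℝ, 0 < c ∧ c ≤ 1 ∧ ∀ (S : Sd) (v e b θ : ℝ) (k : Mj) (ψ : Lx) (K : Ac)
    (f : Conf → ℂ), LF S v e → S.Sml b θ k ψ K → Re S.p S.nf ψ K → Rp S ψ K f →
      Maj S.nf f c C S.g := by
  obtain ⟨c, C, c0, c1, -, H⟩ := maj_rep
  refine ⟨c, C, c0, c1, fun S v e b θ k ψ K f h s r ⟨κ, κ0, p⟩ => ?_⟩
  refine ⟨κ, κ0, fun U hU => ?_, fun U hU h1 => ?_⟩ <;>
    rw [p U hU, Complex.re_ofReal_mul] <;> refine mul_le_mul_of_nonneg_left ?_ κ0.le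
  · exact (Complex.re_le_norm _).trans (H S v e b θ k ψ K h s U hU).1
  · exact (H S v e b θ k ψ K h s U hU).2 r.1 r.2.1 fun f =>
      (h1 f).trans (mul_le_of_le_one_left h.nu.ok.g0.le c1)

theorem tv_main : ∃ C : ℕ → ℝ → ℝ → ℝ, ∀ (S : Sd) (v e u ω x y ω' : ℝ) (ψ ψ' : Lx) (K K' : Ac)
    (f f' : Conf → ℂ), LF S v e → Sz S.p S.nf S.Q S.g u u ω ψ K → Sz S.p S.nf S.Q S.g x y ω' ψ' K' →
    S.Q ^ 300 * u * S.g ^ 2 ≤ 1 → S.Q ^ 100 * ω ≤ 1 → S.Q ^ 100 * ω' ≤ 1 → 0 < y →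
    S.Q ^ 300 * (x + y) * S.g ^ 2 ≤ 1 → Re S.p S.nf ψ K → GI S.nf f → Pos f → GI S.nf f' → Pos f' →
    Rp S ψ K f → Rp S (ψ + ψ') (K + K') f' → ∀ A, MeasurableSet A →
      |(lawOf S.nf f).real A - (lawOf S.nf f').real A| ≤ C S.nf S.β S.Q * (x + y) := by
  obtain ⟨c, C, c0, -, -, H⟩ := maj_rep
  obtain ⟨a, a0, -, hz⟩ := z_low
  refine ⟨fun n β Q => 4 * exp (C * n ^ 4) * Q ^ 220 * (√β)⁻¹ ^ 2 /
    (exp (-(C * n ^ 4)) * (a * min a (√β)⁻¹) ^ (9 * n ^ 4 + 3)),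
    fun S v e u ω x y ω' ψ ψ' K K' f f' h z z' hu hω hω' y0 hx r gf pf gf' pf' ⟨κ, κ0, p⟩
      ⟨κ', κ0', p'⟩ A hA => ?_⟩
  have g0 := h.nu.ok.g0
  have q0 := S.Q0
  have q1 := S.Q1
  have q2 := h.nu.cQ' (C := 4) (by norm_num)
  have ρ0 : 0 < S.p.ρ := by rw [h.ρ]; positivity
  have x0 := ((z'.1 0).1.nonneg ρ0).1
  have u0 := ((z.1 0).1.nonneg ρ0).1
  have b1 := Sz.pu h.nu (h.QM ▸ z) hω
  have b2 := Sz.pu h.nu (h.QM ▸ z') hω'
  obtain ⟨-, k, km, kn⟩ := z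
  obtain ⟨-, d, dm, dn⟩ := z'
  obtain ⟨T, hT⟩ : ∃ T, T = (x + y) * S.g ^ 2 := ⟨_, rfl⟩
  have T0 : 0 < T := by rw [hT]; positivity
  have qi : ∀ i j : ℕ, i < j → 4 * S.Q ^ i ≤ S.Q ^ j := fun i j e =>
    (mul_le_mul_of_nonneg_right q2 (by positivity)).trans ((pow_succ' _ _).symm.trans_le (S.Qw e))
  have G0 : 0 ≤ u * S.g ^ 2 := by positivity
  have k1 : 4 * (S.Q ^ 110 * (u * S.g ^ 2)) ≤ 1 := by
    nlinarith [mul_le_mul_of_nonneg_right (qi 110 300 (by norm_num)) G0]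
  have k2 : 4 * (u * S.g ^ 2) ≤ 1 := by
    nlinarith [mul_le_mul_of_nonneg_right (qi 0 300 (by norm_num)) G0]
  have k3 : S.Q ^ 100 * (ω * u * S.g ^ 2) ≤ 4⁻¹ := by
    nlinarith [mul_le_mul_of_nonneg_right hω G0]
  have k4 : S.Q ^ 100 * (S.Q ^ 10 * (u + u) * S.g ^ 2) ≤ 2⁻¹ := by linarith
  have s : S.Sml _ _ k ψ K := ⟨by linarith, by linarith, b1, km, kn⟩
  obtain ⟨R, hR⟩ : ∃ R, R = (S.Q ^ 220 * T)⁻¹ := ⟨_, rfl⟩
  have R0 : 0 < R := by rw [hR]; positivity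
  have e1 : R * (S.Q ^ 220 * T) = 1 := by rw [hR]; field_simp
  have RT : 0 < R * T := mul_pos R0 T0
  have R1 : 1 < R := by
    rw [hR, one_lt_inv₀ (by positivity)]
    nlinarith [mul_le_mul_of_nonneg_right (qi 220 300 (by norm_num)) T0.le]
  have k5 : 4 * (S.Q ^ 110 * (R * T)) ≤ 1 := by
    nlinarith [mul_le_mul_of_nonneg_right (qi 110 220 (by norm_num)) RT.le]
  have k6 : 4 * (R * T) ≤ 1 := by
    nlinarith [mul_le_mul_of_nonneg_right (qi 0 220 (by norm_num)) RT.le]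
  have k7 : R * (y * S.g ^ 2) ≤ R * T := by rw [hT]; gcongr; linarith
  have F := fam_sml h.nu s b2 dm dn R0.le
    (by rw [mul_assoc _ (x + y), ← hT]; linarith)
    (by nlinarith [mul_le_mul_of_nonneg_right hω' (show 0 ≤ R * (y * S.g ^ 2) by positivity)])
  have hd : ∀ U, Per S.nf U → |(f U).re - κ / κ' * (f' U).re| ≤
      κ * (2 * exp (C * S.nf ^ 4) * (S.Q ^ 220 * T)) := fun U hU => by
    have bd : ∀ t ∈ Metric.ball (0 : ℂ) R,
        ‖Rep S.p S.nf (S.Φ (ψ + t • ψ')) (K + t • K') U‖ ≤ exp (C * S.nf ^ 4) := fun t ht =>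
      (H S v e _ _ _ _ _ h (F t ht) U hU).1.trans (exp_le_exp.2 (sub_le_self _
        (mul_nonneg (div_pos c0 g0).le (ps_nonneg _ _))))
    have := Complex.dist_le_div_mul_dist_of_mapsTo_ball (c := 0) (z := 1) (R₁ := R)
      (R₂ := 2 * exp (C * S.nf ^ 4))
      (f := fun t : ℂ => Rep S.p S.nf (S.Φ (ψ + t • ψ')) (K + t • K') U)
      (rep_diff (Φ := fun t => S.Φ (ψ + t • ψ')) (K := fun t => K + t • K')
        (fun X c => by simp only [Pi.add_apply, Pi.smul_apply, smul_eq_mul]; fun_prop)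
        (fun x B => by simp only [Sd.Φ, Pi.add_apply, Pi.smul_apply, smul_eq_mul]; fun_prop))
      (fun t ht => mem_closedBall_iff_norm.2 ((norm_sub_le _ _).trans
        (by linarith [bd t ht, bd 0 (Metric.mem_ball_self R0)]))) (by simpa using R1)
    simp only [one_smul, zero_smul, add_zero, dist_zero_right, norm_one, mul_one] at this
    rw [p U hU, p' U hU, Complex.re_ofReal_mul, Complex.re_ofReal_mul, ← mul_assoc,
      div_mul_cancel₀ _ κ0'.ne', ← mul_sub, abs_mul, abs_of_pos κ0, ← Complex.sub_re]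
    refine mul_le_mul_of_nonneg_left ((Complex.abs_re_le_norm _).trans ?_) κ0.le
    rwa [dist_comm, dist_eq_norm, hR, div_inv_eq_mul] at this
  have m0 := lt_min a0 g0
  have lo := hz S.nf f (κ * exp (-(C * S.nf ^ 4))) _ h.nu.ok.odd_nf gf pf (by positivity) m0
    (min_le_left _ _) fun U hU h1 => by
      rw [p U hU, Complex.re_ofReal_mul]
      exact mul_le_mul_of_nonneg_left ((H S v e _ _ _ _ _ h s U hU).2 r.1 r.2.1 fun f =>
        (h1 f).trans (min_le_right _ _)) κ0.le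
  refine (tv_of gf pf gf' pf' hd hA).trans
    ((div_le_div_of_nonneg_left (by positivity) (by positivity) lo).trans_eq ?_)
  simp only [hT, show (√S.β)⁻¹ = S.g from rfl]
  field_simp
  norm_num

end Pool.Agent.Lib.MP_7f377f_mp.RG.Q4.En
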