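import Pool.Agent.Lib.MP_7f377f_mp.RGMeasRho
import Pool.Agent.Lib.MP_7f377f_mp.Q4OpDefs

/-! Change of variables from links to Gaussian fluctuation variables. -/

noncomputable section

namespace Pool.Agent.Lib.MP_7f377f_mp.RG.Q4

open MeasureTheory Measure Set Ms
open scoped ENNReal

/-- density of the Haar measure at the origin of the chart -/
def cHa : ℝ := Classical.choose haar_chart

theorem cHa_pos : 0 < cHa := (Classical.choose_spec haar_chart).1

/-- density of the Haar measure in the chart -/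
def dH (v : E3) : ℝ := cHa * ((1 + ‖v‖ ^ 2) ^ 2)⁻¹

theorem dH_pos (v : E3) : 0 < dH v := mul_pos cHa_pos (by positivity)

theorem dH_le (v : E3) : dH v ≤ cHa :=
  mul_le_of_le_one_right cHa_pos.le (inv_le_one_of_one_le₀ (one_le_pow₀ (by
    linarith [sq_nonneg ‖v‖])))

theorem dH_eq (v : E3) : dH v = Real.exp (Real.log cHa - 2 * Real.log (1 + ‖v‖ ^ 2)) := by
  have h : 0 < 1 + ‖v‖ ^ 2 := by positivity
  rw [Real.exp_sub, Real.exp_log cHa_pos, two_mul, Real.exp_add, Real.exp_log h, dH, sq (1 + _)]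
  rfl

theorem cont_dH : Continuous dH := by
  unfold dH
  exact continuous_const.mul (Continuous.inv₀ (by fun_prop) fun v => by positivity)

theorem mp_e0 : MeasurePreserving e0
    ((volume : Measure E3).withDensity fun v => ENNReal.ofReal (dH v)) (haar.restrict pos) := by
  have h := (Classical.choose_spec haar_chart).2
  have mex := continuous_e0.measurable
  refine ⟨mex, Measure.ext fun s hs => ?_⟩
  rw [map_apply mex hs, ← lintegral_indicator_one hs, withDensity_apply _ (mex hs),
    ← lintegral_indicator (mex hs)]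
  refine Eq.trans ?_ (h _ (measurable_one.indicator hs) e0 cS_e0).symm
  refine lintegral_congr fun a => ?_
  by_cases ha : e0 a ∈ s <;> simp [indicator, ha, dH, cHa]

/-- total mass of the truncated Gaussian weight -/
def zn (ζ : ℝ) : ℝ := (nu0 ζ univ).toReal

theorem nu0_fin (ζ : ℝ) : nu0 ζ univ ≠ ∞ := by
  have : IsFiniteMeasure (nu0 ζ) := isFiniteMeasure_withDensity (ne_top_of_le_ne_top
    (by simpa using (measure_closedBall_lt_top (μ := volume) (x := (0 : E3))).ne)
    (lintegral_mono (g := fun _ => 1) fun v =>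
      ENNReal.ofReal_le_one.2 (Real.exp_le_one_iff.2 (neg_nonpos.2 (by positivity)))))
  exact measure_ne_top _ _

theorem nu0_pos {ζ : ℝ} (h : 0 < ζ) : nu0 ζ univ ≠ 0 := by
  rw [nu0, withDensity_apply _ MeasurableSet.univ, Measure.restrict_univ, ← pos_iff_ne_zero,
    lintegral_pos_iff_support (by fun_prop)]
  have : (Function.support fun v : E3 => ENNReal.ofReal (Real.exp (-(‖v‖ ^ 2 / 2)))) = univ :=
    eq_univ_of_forall fun v => (ENNReal.ofReal_pos.mpr (Real.exp_pos _)).ne'
  rw [this, Measure.restrict_apply_univ]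
  exact Metric.measure_closedBall_pos _ _ h

theorem zn_pos {ζ : ℝ} (h : 0 < ζ) : 0 < zn ζ := ENNReal.toReal_pos (nu0_pos h) (nu0_fin ζ)

theorem nu_prob {ζ : ℝ} (h : 0 < ζ) : IsProbabilityMeasure (nu ζ) :=
  ⟨by rw [nu, Measure.smul_apply, smul_eq_mul, ENNReal.inv_mul_cancel (nu0_pos h) (nu0_fin ζ)]⟩

theorem nuI_prob {ζ : ℝ} (h : 0 < ζ) : IsProbabilityMeasure (nuI ζ) := by
  have := nu_prob h
  unfold nuI
  infer_instance

/-- density of the Lebesgue measure with respect to the truncated Gaussian measure -/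
def dG (ζ : ℝ) (v : E3) : ℝ := zn ζ * Real.exp (‖v‖ ^ 2 / 2)

theorem dG_pos {ζ : ℝ} (h : 0 < ζ) (v : E3) : 0 < dG ζ v := mul_pos (zn_pos h) (Real.exp_pos _)

theorem cont_dG (ζ : ℝ) : Continuous (dG ζ) := by
  unfold dG
  fun_prop

theorem nu_dens {ζ : ℝ} (h : 0 < ζ) :
    ((nu ζ).withDensity fun v => ENNReal.ofReal (dG ζ v)) =
      volume.restrict (Metric.closedBall 0 ζ) := by
  have e : (fun v : E3 => ENNReal.ofReal (dG ζ v)) =
      nu0 ζ univ • fun v : E3 => ENNReal.ofReal (Real.exp (‖v‖ ^ 2 / 2)) := by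
    funext v
    rw [dG, ENNReal.ofReal_mul (zn_pos h).le, zn, ENNReal.ofReal_toReal (nu0_fin ζ)]
    rfl
  rw [e, withDensity_smul _ (by fun_prop), nu, withDensity_smul_measure, smul_smul,
    ENNReal.mul_inv_cancel (nu0_pos h) (nu0_fin ζ), one_smul, nu0,
    ← withDensity_mul _ (by fun_prop) (by fun_prop)]
  convert withDensity_one
  funext v
  rw [Pi.mul_apply, ← ENNReal.ofReal_mul (Real.exp_pos _).le, ← Real.exp_add]
  simp

/-- `ν` is a probability measure equivalent to the Lebesgue measure on `B`, with density `1 / d` -/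
structure Ref (ν : Measure E3) (B : Set E3) (d : E3 → ℝ) : Prop where
  prob : IsProbabilityMeasure ν
  mB : MeasurableSet B
  md : Measurable d
  nn : ∀ v, 0 ≤ d v
  dens : (ν.withDensity fun v => ENNReal.ofReal (d v)) = volume.restrict B

theorem ref_nu {ζ : ℝ} (h : 0 < ζ) : Ref (nu ζ) (Metric.closedBall 0 ζ) (dG ζ) :=
  ⟨nu_prob h, measurableSet_closedBall, (cont_dG ζ).measurable, fun v => (dG_pos h v).le, nu_dens h⟩

/-- the Gaussian weight -/
def gam0 : Measure E3 := volume.withDensity fun v => ENNReal.ofReal (Real.exp (-(‖v‖ ^ 2 / 2)))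

/-- the standard Gaussian measure -/
def gam : Measure E3 := (gam0 univ)⁻¹ • gam0

/-- total mass of the Gaussian weight -/
def zf : ℝ := (gam0 univ).toReal

theorem gam0_fin : gam0 univ ≠ ∞ := by
  have h := (GaussianFourier.integrable_cexp_neg_mul_sq_norm_add (V := E3) (b := 1 / 2)
    (by norm_num) 0 0).norm
  rw [gam0, withDensity_apply _ MeasurableSet.univ, Measure.restrict_univ]
  refine ne_of_lt (lt_of_eq_of_lt (lintegral_congr fun v => ?_) h.lintegral_lt_top)
  congr 1
  rw [Complex.norm_exp]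
  congr 1
  simp [← Complex.ofReal_pow]
  ring

theorem gam0_pos : gam0 univ ≠ 0 := by
  rw [gam0, withDensity_apply _ MeasurableSet.univ, Measure.restrict_univ, ← pos_iff_ne_zero,
    lintegral_pos_iff_support (by fun_prop)]
  have : (Function.support fun v : E3 => ENNReal.ofReal (Real.exp (-(‖v‖ ^ 2 / 2)))) = univ :=
    eq_univ_of_forall fun v => (ENNReal.ofReal_pos.mpr (Real.exp_pos _)).ne'
  rw [this]
  exact isOpen_univ.measure_pos _ univ_nonempty

theorem zf_pos : 0 < zf := ENNReal.toReal_pos gam0_pos gam0_fin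

theorem ref_gam : Ref gam univ fun v => zf * Real.exp (‖v‖ ^ 2 / 2) := by
  refine ⟨⟨by rw [gam, Measure.smul_apply, smul_eq_mul, ENNReal.inv_mul_cancel gam0_pos gam0_fin]⟩,
    MeasurableSet.univ, by fun_prop, fun v => (mul_pos zf_pos (Real.exp_pos _)).le, ?_⟩
  have e : (fun v : E3 => ENNReal.ofReal (zf * Real.exp (‖v‖ ^ 2 / 2))) =
      gam0 univ • fun v : E3 => ENNReal.ofReal (Real.exp (‖v‖ ^ 2 / 2)) := by
    funext v
    rw [ENNReal.ofReal_mul zf_pos.le, zf, ENNReal.ofReal_toReal gam0_fin]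
    rfl
  rw [e, withDensity_smul _ (by fun_prop), gam, withDensity_smul_measure, smul_smul,
    ENNReal.mul_inv_cancel gam0_pos gam0_fin, one_smul, gam0,
    ← withDensity_mul _ (by fun_prop) (by fun_prop), Measure.restrict_univ]
  convert withDensity_one
  funext v
  rw [Pi.mul_apply, ← ENNReal.ofReal_mul (Real.exp_pos _).le, ← Real.exp_add]
  simp

/-! ### the eight charts -/

/-- the units -/
def q8q : Fin 8 → Quaternion ℝ :=
  ![⟨1, 0, 0, 0⟩, ⟨-1, 0, 0, 0⟩, ⟨0, 1, 0, 0⟩, ⟨0, -1, 0, 0⟩, ⟨0, 0, 1, 0⟩, ⟨0, 0, -1, 0⟩,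
    ⟨0, 0, 0, 1⟩, ⟨0, 0, 0, -1⟩]

theorem norm_q8q (s : Fin 8) : ‖q8q s‖ = 1 := by
  have h : ‖q8q s‖ * ‖q8q s‖ = 1 := by
    rw [← Quaternion.normSq_eq_norm_mul_self, Quaternion.normSq_def']
    fin_cases s <;> simp [q8q]
  nlinarith [norm_nonneg (q8q s)]

/-- the centres of the charts -/
def q8 (s : Fin 8) : S3 := (⟨q8q s, by simp [norm_q8q]⟩ : Metric.sphere (0 : Quaternion ℝ) 1)

theorem q8_zero : q8 0 = 1 := q_inj rfl

theorem ex_q8 (g : S3) : ∃ s, 1 / 2 ≤ (g * (q8 s)⁻¹).q.re := by
  have h := normSq_q g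
  rw [Quaternion.normSq_def'] at h
  have e : ∀ s, (g * (q8 s)⁻¹).q.re = (g.q * star (q8q s)).re := fun s => by
    rw [q_mul, q_inv]
    rfl
  by_contra hc
  have hc' : ∀ s, g.q.re * (q8q s).re + g.q.imI * (q8q s).imI + g.q.imJ * (q8q s).imJ +
      g.q.imK * (q8q s).imK < 1 / 2 := fun s => lt_of_not_ge fun h => hc ⟨s, by
    rw [e, Quaternion.re_mul, Quaternion.re_star, Quaternion.imI_star, Quaternion.imJ_star,
      Quaternion.imK_star]
    linarith⟩
  have h0 := hc' 0
  have h1 := hc' 1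
  have h2 := hc' 2
  have h3 := hc' 3
  have h4 := hc' 4
  have h5 := hc' 5
  have h6 := hc' 6
  have h7 := hc' 7
  simp [q8q] at h0 h1 h2 h3 h4 h5 h6 h7
  nlinarith

/-- the part of the sphere attributed to the chart `s` -/
def pie (s : Fin 8) : Set S3 :=
  {g | 1 / 2 ≤ (g * (q8 s)⁻¹).q.re ∧ ∀ t < s, (g * (q8 t)⁻¹).q.re < 1 / 2}

theorem meas_pie (s : Fin 8) : MeasurableSet (pie s) := by
  have m : ∀ t, Measurable fun g : S3 => (g * (q8 t)⁻¹).q.re := fun t =>
    meas_re.comp (measurable_mul_const _)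
  simp only [pie, ofPred_and, ofPred_forall]
  exact (measurableSet_le measurable_const (m s)).inter (MeasurableSet.iInter fun t =>
    MeasurableSet.iInter fun _ => measurableSet_lt (m t) measurable_const)

theorem pie_unique (g : S3) : ∃! s, g ∈ pie s := by
  classical
  obtain ⟨s, hs, hm⟩ := (wellFounded_lt (α := Fin 8)).has_min
    {s | 1 / 2 ≤ (g * (q8 s)⁻¹).q.re} (ex_q8 g)
  refine ⟨s, ⟨hs, fun t ht => lt_of_not_ge fun h => hm t h ht⟩, fun t ht => ?_⟩
  rcases lt_trichotomy t s with h | h | h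
  exacts [absurd h (hm t ht.1), h, absurd hs (not_le.2 (ht.2 s h))]

open Classical in
/-- the weight of the chart `s` at the point with coordinate `v` -/
def th (s : Fin 8) (v : E3) : ℝ := if e0 v * q8 s ∈ pie s then 1 else 0

theorem th_cases (s : Fin 8) (v : E3) : th s v = 0 ∨ th s v = 1 := by
  unfold th
  split_ifs <;> simp

theorem th_nonneg (s : Fin 8) (v : E3) : 0 ≤ th s v := by
  rcases th_cases s v with h | h <;> simp [h]

theorem th_le (s : Fin 8) (v : E3) : th s v ≤ 1 := by
  rcases th_cases s v with h | h <;> simp [h]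

theorem meas_th : Measurable fun p : Fin 8 × E3 => th p.1 p.2 := by
  refine measurable_from_prod_countable_right fun s => ?_
  have m : Measurable fun v : E3 => e0 v * q8 s := continuous_e0.measurable.mul_const _
  have m' : MeasurableSet {v : E3 | e0 v * q8 s ∈ pie s} := m (meas_pie s)
  exact Measurable.ite m' measurable_const measurable_const

theorem re_e0 (v : E3) : (e0 v).q.re = (√(1 + ‖v‖ ^ 2))⁻¹ := by
  rw [e0_q, Quaternion.re_smul, smul_eq_mul]
  exact mul_one _

theorem half_le (v : E3) : 1 / 2 ≤ (e0 v).q.re ↔ ‖v‖ ^ 2 ≤ 3 := by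
  have h : 0 < √(1 + ‖v‖ ^ 2) := Real.sqrt_pos.2 (by positivity)
  rw [re_e0, one_div, inv_le_inv₀ two_pos h, Real.sqrt_le_iff]
  constructor
  · intro h
    linarith [h.2]
  · intro h
    exact ⟨two_pos.le, by linarith⟩

theorem th_supp {s : Fin 8} {v : E3} (h : th s v ≠ 0) : ‖v‖ ^ 2 ≤ 3 := by
  have h1 : e0 v * q8 s ∈ pie s := by_contra fun hc => h (if_neg hc)
  have := h1.1
  rwa [mul_inv_cancel_right, half_le] at this

theorem th_zero (v : E3) : th 0 v = if ‖v‖ ^ 2 ≤ 3 then 1 else 0 := by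
  simp only [th, pie, mem_ofPred_eq, mul_inv_cancel_right, half_le, Fin.not_lt_zero,
    IsEmpty.forall_iff, implies_true, and_true]

/-- near the base point only the first chart is used -/
theorem th_first {s : Fin 8} {v : E3} (h : th s v ≠ 0) (h1 : ‖(e0 v * q8 s).q - 1‖ ≤ 1) : s = 0 := by
  have h2 : e0 v * q8 s ∈ pie s := by_contra fun hc => h (if_neg hc)
  by_contra hs
  have h3 := h2.2 0 (Fin.pos_iff_ne_zero.2 hs)
  rw [q8_zero, inv_one, mul_one] at h3
  have h4 := norm_sub_one_sq (e0 v * q8 s)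
  nlinarith [norm_nonneg ((e0 v * q8 s).q - 1)]

/-- the variable of a link -/
abbrev XQ : Type := E3 × Fin 8

/-- the uniform law of the chart -/
def u8 : Measure (Fin 8) := (8 : ℝ≥0∞)⁻¹ • count

instance : IsProbabilityMeasure u8 :=
  ⟨by simp [u8, ENNReal.inv_mul_cancel]⟩

/-- the law of the variable of a link -/
def lq (ν : Measure E3) : Measure XQ := ν.prod u8

/-- the law of the variables of all links -/
def ZQ (ν : Measure E3) : Measure (Lk → XQ) := infinitePi fun _ => lq ν

instance (ν : Measure E3) [IsProbabilityMeasure ν] : IsProbabilityMeasure (lq ν) := by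
  unfold lq
  infer_instance

instance (ν : Measure E3) [IsProbabilityMeasure ν] : IsProbabilityMeasure (ZQ ν) := by
  unfold ZQ
  infer_instance

section fin

variable {ι : Type} [Fintype ι] {ν : Measure E3} {B : Set E3} {d : E3 → ℝ}

/-- the chart map -/
def chm (b : ι → S3) (a : ι → E3) (P : (ι → E3) →ₗ[ℝ] (ι → E3)) (z : ι → E3) : ι → S3 :=
  fun i => e0 (a i + P z i) * b i

/-- the Jacobian with respect to the reference measure -/
def jac (d : E3 → ℝ) (a : ι → E3) (P : (ι → E3) →ₗ[ℝ] (ι → E3)) (z : ι → E3) : ℝ :=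
  |LinearMap.det P| * ∏ i, dH (a i + P z i) * d (z i)

theorem jac_nonneg (h : Ref ν B d) (a : ι → E3) (P : (ι → E3) →ₗ[ℝ] (ι → E3)) (z : ι → E3) :
    0 ≤ jac d a P z :=
  mul_nonneg (abs_nonneg _) (Finset.prod_nonneg fun _ _ => mul_nonneg (dH_pos _).le (h.nn _))

theorem cont_chm (b : ι → S3) (a : ι → E3) (P : (ι → E3) →ₗ[ℝ] (ι → E3)) :
    Continuous (chm b a P) := by
  have := LinearMap.continuous_of_finiteDimensional P
  exact continuous_pi fun i => (continuous_e0.comp (by fun_prop)).mul continuous_const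

theorem meas_jac (h : Ref ν B d) (a : ι → E3) (P : (ι → E3) →ₗ[ℝ] (ι → E3)) :
    Measurable (jac d a P) := by
  have := LinearMap.continuous_of_finiteDimensional P
  exact measurable_const.mul (Finset.measurable_fun_prod _ fun i _ =>
    (cont_dH.comp (by fun_prop)).measurable.mul (h.md.comp (measurable_pi_apply i)))

theorem mp_chm (b : ι → S3) (a : ι → E3) {P : (ι → E3) →ₗ[ℝ] (ι → E3)}
    (hP : LinearMap.det P ≠ 0) :
    MeasurePreserving (chm b a P) ((volume : Measure (ι → E3)).withDensity fun z =>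
      ENNReal.ofReal (|LinearMap.det P| * ∏ i, dH (a i + P z i)))
      ((Measure.pi fun _ => haar).restrict {u | ∀ i, 0 < (u i * (b i)⁻¹).q.re}) := by
  set d : E3 → ℝ≥0∞ := fun v => ENNReal.ofReal (dH v) with hd
  have md : Measurable d := cont_dH.measurable.ennreal_ofReal
  have : IsFiniteMeasure ((volume : Measure E3).withDensity d) :=
    ⟨(mp_e0.measure_preimage (s := univ) MeasurableSet.univ.nullMeasurableSet).trans_lt
      (measure_lt_top _ _)⟩
  have h2 := measurePreserving_pi (fun _ : ι => _) (fun _ => _) fun _ => mp_e0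
  have h3 := measurePreserving_pi (fun _ : ι => haar) (fun _ => haar)
    fun i => measurePreserving_mul_right haar (b i)
  have hS : MeasurableSet {u : ι → S3 | ∀ i, 0 < (u i * (b i)⁻¹).q.re} := by
    rw [ofPred_forall]
    refine MeasurableSet.iInter fun i => ?_
    have m1 : Measurable fun u : ι → S3 => u i * (b i)⁻¹ := (measurable_pi_apply i).mul_const _
    exact m1 isOpen_pos.measurableSet
  have e1 : (fun (a : ι → S3) i => a i * b i) ⁻¹' {u : ι → S3 | ∀ i, 0 < (u i * (b i)⁻¹).q.re} =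
      Set.pi univ fun _ => pos := by
    ext U
    simp [pos]
  have h4 := h3.restrict_preimage hS
  rw [e1, restrict_pi_pi] at h4
  have mD : Measurable fun v : ι → E3 => ∏ i, d (v i) :=
    Finset.measurable_fun_prod _ fun i _ => md.comp (measurable_pi_apply i)
  have mP : Measurable P := (LinearMap.continuous_of_finiteDimensional P).measurable
  have h5 : MeasurePreserving (fun z => a + P z)
      ((volume : Measure (ι → E3)).withDensity fun z =>
        ENNReal.ofReal (|LinearMap.det P| * ∏ i, dH (a i + P z i)))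
      (Measure.pi fun _ : ι => (volume : Measure E3).withDensity d) := by
    have m5 : Measurable fun z => a + P z := mP.const_add a
    refine ⟨m5, Measure.ext fun s hs => ?_⟩
    have mI : Measurable fun v : ι → E3 => s.indicator (fun v => ∏ i, d (v i)) (a + v) :=
      (mD.indicator hs).comp (measurable_const_add a)
    have hG := lintegral_map (μ := (volume : Measure (ι → E3))) mI mP
    rw [map_linearMap_addHaar_eq_smul_addHaar _ hP, lintegral_smul_measure, smul_eq_mul,
      lintegral_add_left_eq_self (μ := (volume : Measure (ι → E3)))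
        (s.indicator fun v => ∏ i, d (v i)) a, lintegral_indicator hs] at hG
    rw [map_apply m5 hs, withDensity_apply _ (m5 hs), pi_dens _ fun _ => md, ← volume_pi,
      withDensity_apply _ hs, ← lintegral_indicator (m5 hs)]
    have e2 : ∀ z : ι → E3, ((fun z => a + P z) ⁻¹' s).indicator (fun z =>
        ENNReal.ofReal (|LinearMap.det P| * ∏ i, dH (a i + P z i))) z =
        ENNReal.ofReal |LinearMap.det P| * s.indicator (fun v => ∏ i, d (v i)) (a + P z) := by
      intro z
      by_cases hz : a + P z ∈ s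
      · rw [indicator_of_mem (show z ∈ (fun z => a + P z) ⁻¹' s from hz), indicator_of_mem hz,
          ENNReal.ofReal_mul (abs_nonneg _),
          ENNReal.ofReal_prod_of_nonneg fun i _ => (dH_pos _).le]
        rfl
      · rw [indicator_of_notMem (show z ∉ (fun z => a + P z) ⁻¹' s from hz),
          indicator_of_notMem hz, mul_zero]
    simp only [e2]
    rw [lintegral_const_mul' _ _ ENNReal.ofReal_ne_top, ← hG, ← mul_assoc,
      ← ENNReal.ofReal_mul (abs_nonneg _), ← abs_mul, mul_inv_cancel₀ hP, abs_one,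
      ENNReal.ofReal_one, one_mul]
  exact (h4.comp h2).comp h5

theorem dens_eq (h : Ref ν B d) (a : ι → E3) (P : (ι → E3) →ₗ[ℝ] (ι → E3)) :
    ((Measure.pi fun _ : ι => ν).withDensity fun z => ENNReal.ofReal (jac d a P z)) =
      ((volume : Measure (ι → E3)).withDensity fun z =>
        ENNReal.ofReal (|LinearMap.det P| * ∏ i, dH (a i + P z i))).restrict
        (Set.pi univ fun _ => B) := by
  have := h.prob
  have mP := LinearMap.continuous_of_finiteDimensional P
  have mg : Measurable fun v => ENNReal.ofReal (d v) := h.md.ennreal_ofReal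
  have : SigmaFinite (ν.withDensity fun v => ENNReal.ofReal (d v)) := by
    rw [h.dens]
    infer_instance
  have h1 := pi_dens (ι := ι) ν fun _ => mg
  simp only [h.dens] at h1
  have m1 : Measurable fun z : ι → E3 => ∏ i, ENNReal.ofReal (d (z i)) :=
    Finset.measurable_fun_prod _ fun i _ => mg.comp (measurable_pi_apply i)
  have m2 : Measurable fun z : ι → E3 =>
      ENNReal.ofReal (|LinearMap.det P| * ∏ i, dH (a i + P z i)) :=
    (Continuous.measurable (continuous_const.mul (continuous_finsetProd _ fun i _ =>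
      cont_dH.comp (by fun_prop)))).ennreal_ofReal
  rw [restrict_withDensity (MeasurableSet.univ_pi fun _ => h.mB), volume_pi,
    restrict_pi_pi, h1, ← withDensity_mul _ m1 m2]
  congr 1
  funext z
  rw [Pi.mul_apply, ← ENNReal.ofReal_prod_of_nonneg fun i _ => h.nn _,
    ← ENNReal.ofReal_mul (Finset.prod_nonneg fun i _ => h.nn _), jac, Finset.prod_mul_distrib]
  congr 1
  ring

/-- one chart -/
theorem lint_chm (h : Ref ν B d) (b : ι → S3) (a : ι → E3) {P : (ι → E3) →ₗ[ℝ] (ι → E3)}
    (hP : LinearMap.det P ≠ 0) {G : (ι → S3) → ℝ≥0∞} (hG : Measurable G)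
    (h0 : ∀ u, G u ≠ 0 → ∀ i, 0 < (u i * (b i)⁻¹).q.re)
    (h1 : ∀ z, G (chm b a P z) ≠ 0 → ∀ i, z i ∈ B) :
    ∫⁻ u, G u ∂(Measure.pi fun _ => haar) =
      ∫⁻ z, ENNReal.ofReal (jac d a P z) * G (chm b a P z) ∂(Measure.pi fun _ => ν) := by
  have hm := mp_chm b a hP
  have mF : Measurable fun z => G (chm b a P z) := hG.comp hm.measurable
  rw [← setLIntegral_eq_of_support_subset (s := {u : ι → S3 | ∀ i, 0 < (u i * (b i)⁻¹).q.re})
    fun u hu => h0 u hu, ← hm.lintegral_comp hG,
    ← setLIntegral_eq_of_support_subset (s := Set.pi univ fun _ : ι => B)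
      fun z hz i _ => h1 z hz i, ← dens_eq h,
    lintegral_withDensity_eq_lintegral_mul _ (meas_jac h a P).ennreal_ofReal mF]
  rfl

/-- one chart, complex functions -/
theorem int_chm (h : Ref ν B d) (b : ι → S3) (a : ι → E3) {P : (ι → E3) →ₗ[ℝ] (ι → E3)}
    (hP : LinearMap.det P ≠ 0) {F : (ι → S3) → ℂ} (hF : Measurable F)
    (h0 : ∀ u, F u ≠ 0 → ∀ i, 0 < (u i * (b i)⁻¹).q.re)
    (h1 : ∀ z, F (chm b a P z) ≠ 0 → ∀ i, z i ∈ B) :
    ∫ u, F u ∂(Measure.pi fun _ => haar) =
      ∫ z, F (chm b a P z) * (jac d a P z : ℝ) ∂(Measure.pi fun _ => ν) := by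
  have hm := mp_chm b a hP
  have o1 : ∀ z, z ∉ (Set.pi univ fun _ : ι => B) → F (chm b a P z) = 0 := fun z hz =>
    by_contra fun hc => hz fun i _ => h1 z hc i
  have o0 : ∀ u, u ∉ {u : ι → S3 | ∀ i, 0 < (u i * (b i)⁻¹).q.re} → F u = 0 := fun u hu =>
    by_contra fun hc => hu (h0 u hc)
  rw [← setIntegral_eq_integral_of_forall_compl_eq_zero o0, ← hm.map_eq,
    integral_map hm.measurable.aemeasurable hF.aestronglyMeasurable,
    ← setIntegral_eq_integral_of_forall_compl_eq_zero o1, ← dens_eq h,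
    integral_withDensity_eq_integral_toReal_smul (meas_jac h a P).ennreal_ofReal
      (.of_forall fun _ => ENNReal.ofReal_lt_top)]
  refine integral_congr_ae (.of_forall fun z => ?_)
  simp only [ENNReal.toReal_ofReal (jac_nonneg h a P z), Complex.real_smul]
  ring

/-- the global chart map -/
def chq (b : ι → S3) (a : ι → E3) (P : (ι → E3) →ₗ[ℝ] (ι → E3)) (w : ι → XQ) : ι → S3 :=
  fun i => e0 (a i + P (fun i => (w i).1) i) * q8 (w i).2 * b i

/-- its Jacobian -/
def jq (d : E3 → ℝ) (a : ι → E3) (P : (ι → E3) →ₗ[ℝ] (ι → E3)) (w : ι → XQ) : ℝ :=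
  |LinearMap.det P| * ∏ i, 8 * th (w i).2 (a i + P (fun i => (w i).1) i) *
    dH (a i + P (fun i => (w i).1) i) * d (w i).1

theorem jq_eq (d : E3 → ℝ) (a : ι → E3) (P : (ι → E3) →ₗ[ℝ] (ι → E3)) (w : ι → XQ) :
    jq d a P w = jac d a P (fun i => (w i).1) *
      ∏ i, 8 * th (w i).2 (a i + P (fun i => (w i).1) i) := by
  simp only [jq, jac, Finset.prod_mul_distrib]
  ring

theorem jq_nonneg (h : Ref ν B d) (a : ι → E3) (P : (ι → E3) →ₗ[ℝ] (ι → E3)) (w : ι → XQ) :
    0 ≤ jq d a P w := by
  rw [jq_eq]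
  exact mul_nonneg (jac_nonneg h _ _ _)
    (Finset.prod_nonneg fun _ _ => mul_nonneg (by norm_num) (th_nonneg _ _))

omit [Fintype ι] in
theorem meas_fst : Measurable fun (w : ι → XQ) i => (w i).1 :=
  measurable_pi_lambda _ fun i => (measurable_pi_apply i).fst

theorem meas_aff (a : ι → E3) (P : (ι → E3) →ₗ[ℝ] (ι → E3)) (i : ι) :
    Measurable fun w : ι → XQ => a i + P (fun i => (w i).1) i :=
  (((measurable_pi_apply i).comp
    (LinearMap.continuous_of_finiteDimensional P).measurable).comp meas_fst).const_add _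

theorem meas_chq (b : ι → S3) (a : ι → E3) (P : (ι → E3) →ₗ[ℝ] (ι → E3)) :
    Measurable (chq b a P) := measurable_pi_lambda _ fun i =>
  ((continuous_e0.measurable.comp (meas_aff a P i)).mul
    ((measurable_of_countable q8).comp (measurable_pi_apply i).snd)).mul_const _

theorem meas_jq (h : Ref ν B d) (a : ι → E3) (P : (ι → E3) →ₗ[ℝ] (ι → E3)) :
    Measurable (jq d a P) :=
  measurable_const.mul (Finset.measurable_fun_prod _ fun i _ =>
    (((meas_th.comp ((measurable_pi_apply i).snd.prodMk (meas_aff a P i))).const_mul 8).mul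
      (cont_dH.measurable.comp (meas_aff a P i))).mul (h.md.comp (measurable_pi_apply i).fst))

/-- the global change of variables for finitely many links -/
theorem mp_chq (h : Ref ν B d) (b : ι → S3) (a : ι → E3) {P : (ι → E3) →ₗ[ℝ] (ι → E3)}
    (hP : LinearMap.det P ≠ 0) (hB : ∀ z, (∀ i, ‖a i + P z i‖ ^ 2 ≤ 3) → ∀ i, z i ∈ B) :
    MeasurePreserving (chq b a P)
      ((Measure.pi fun _ => lq ν).withDensity fun w => ENNReal.ofReal (jq d a P w))
      (Measure.pi fun _ => haar) := by
  classical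
  have := h.prob
  have mc := meas_chq b a P
  have mj := (meas_jq h a P).ennreal_ofReal
  refine ⟨mc, Measure.ext_of_lintegral _ fun G hG => ?_⟩
  have mG : Measurable fun w => G (chq b a P w) := hG.comp mc
  have hA := (measurePreserving_arrowProdEquivProdArrow E3 (Fin 8) ι (fun _ => ν)
    fun _ => u8).symm
  set I : (ι → Fin 8) → (ι → S3) → ℝ≥0∞ := fun σ u =>
    ∏ i, (pie (σ i)).indicator 1 (u i * (b i)⁻¹) with hI
  have mI : ∀ σ, Measurable (I σ) := fun σ => Finset.measurable_fun_prod _ fun i _ =>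
    (measurable_one.indicator (meas_pie _)).comp ((measurable_pi_apply i).mul_const _)
  have sI : ∀ u, ∑ σ, I σ u = 1 := by
    intro u
    rw [hI, ← Fintype.piFinset_univ, ← Finset.prod_univ_sum (fun _ => Finset.univ)
      fun i s => (pie s).indicator (1 : S3 → ℝ≥0∞) (u i * (b i)⁻¹)]
    refine Finset.prod_eq_one fun i _ => ?_
    obtain ⟨s, hs, hu⟩ := pie_unique (u i * (b i)⁻¹)
    rw [Finset.sum_eq_single s (fun t _ ht => indicator_of_notMem (fun hc => ht (hu t hc)) _)
      (by simp), indicator_of_mem hs, Pi.one_apply]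
  have nI : ∀ σ u, I σ u ≠ 0 → ∀ i, u i * (b i)⁻¹ ∈ pie (σ i) := fun σ u hu i =>
    by_contra fun hc => hu (Finset.prod_eq_zero (Finset.mem_univ i) (indicator_of_notMem hc _))
  have key : ∀ σ, ∫⁻ u, I σ u * G u ∂(Measure.pi fun _ => haar) =
      ∫⁻ z, ENNReal.ofReal (jac d a P z) * (I σ (chm (fun i => q8 (σ i) * b i) a P z) *
        G (chm (fun i => q8 (σ i) * b i) a P z)) ∂(Measure.pi fun _ => ν) := by
    intro σ
    refine lint_chm h _ a hP ((mI σ).mul hG) (fun u hu i => ?_) fun z hz => hB z fun i => ?_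
    · have := (nI σ u (left_ne_zero_of_mul hu) i).1
      rw [mul_inv_rev, ← mul_assoc]
      linarith
    · have := (nI σ _ (left_ne_zero_of_mul hz) i).1
      rwa [chm, ← mul_assoc, mul_inv_cancel_right, mul_inv_cancel_right, half_le] at this
  have w8 : ∀ σ : ι → Fin 8, (Measure.pi fun _ : ι => u8) {σ} = ∏ _i : ι, (8 : ℝ≥0∞)⁻¹ := by
    intro σ
    rw [← univ_pi_singleton, pi_pi]
    simp [u8]
  rw [lintegral_map hG mc, lintegral_withDensity_eq_lintegral_mul _ mj mG]
  unfold lq
  rw [← hA.lintegral_comp (mj.mul mG)]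
  refine ((lintegral_prod_symm _ ((mj.mul mG).comp hA.measurable).aemeasurable).trans
    (lintegral_fintype _)).trans ?_
  symm
  calc ∫⁻ u, G u ∂(Measure.pi fun _ => haar)
      = ∫⁻ u, ∑ σ, I σ u * G u ∂(Measure.pi fun _ => haar) := by
        simp only [← Finset.sum_mul, sI, one_mul]
    _ = ∑ σ, ∫⁻ u, I σ u * G u ∂(Measure.pi fun _ => haar) :=
        lintegral_finsetSum _ fun σ _ => (mI σ).mul hG
    _ = _ := by
        refine Finset.sum_congr rfl fun σ _ => ?_
        rw [key, w8, ← lintegral_mul_const' _ _ (ENNReal.prod_ne_top fun _ _ => by simp)]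
        refine lintegral_congr fun z => ?_
        have e1 : chm (fun i => q8 (σ i) * b i) a P z = chq b a P fun i => (z i, σ i) := by
          funext i
          simp only [chm, chq, mul_assoc]
        have e2 : I σ (chq b a P fun i => (z i, σ i)) =
            ENNReal.ofReal (∏ i, 8 * th (σ i) (a i + P z i)) * ∏ _i : ι, (8 : ℝ≥0∞)⁻¹ := by
          rw [ENNReal.ofReal_prod_of_nonneg fun i _ => mul_nonneg (by norm_num) (th_nonneg _ _),
            ← Finset.prod_mul_distrib, hI]
          refine Finset.prod_congr rfl fun i _ => ?_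
          simp only [chq, mul_inv_cancel_right, th, indicator]
          split_ifs
          · simp [ENNReal.mul_inv_cancel]
          · simp
        change _ = ENNReal.ofReal (jq d a P fun i => (z i, σ i)) *
          G (chq b a P fun i => (z i, σ i)) * _
        rw [e1, e2, jq_eq, ENNReal.ofReal_mul (jac_nonneg h _ _ _)]
        ring

/-- action of a matrix on vector fields -/
def mv (M : Matrix (ι × Fin 3) (ι × Fin 3) ℝ) : (ι → E3) →ₗ[ℝ] (ι → E3) where
  toFun z i := WithLp.toLp 2 fun k => ∑ q, M (i, k) q * z q.1 q.2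
  map_add' z w := by
    ext i k
    simp [mul_add, Finset.sum_add_distrib]
  map_smul' c z := by
    ext i k
    simp [Finset.mul_sum, mul_left_comm]

theorem mv_apply (M : Matrix (ι × Fin 3) (ι × Fin 3) ℝ) (z : ι → E3) (i : ι) (k : Fin 3) :
    mv M z i k = ∑ q, M (i, k) q * z q.1 q.2 := rfl

/-- coordinates of a vector field -/
def crd : (ι → E3) ≃ₗ[ℝ] (ι × Fin 3 → ℝ) where
  toFun z q := z q.1 q.2
  invFun v i := WithLp.toLp 2 fun k => v (i, k)
  map_add' _ _ := rfl
  map_smul' _ _ := rfl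
  left_inv _ := rfl
  right_inv _ := rfl

theorem det_mv [DecidableEq ι] (M : Matrix (ι × Fin 3) (ι × Fin 3) ℝ) :
    LinearMap.det (mv M) = M.det := by
  rw [← LinearMap.det_toLin' M, ← LinearMap.det_conj (mv M) crd]
  congr 1

end fin

end Pool.Agent.Lib.MP_7f377f_mp.RG.Q4
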