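import Pool.Agent.Lib.MP_7f377f_mp.RGAp0
import Pool.Agent.Lib.MP_7f377f_mp.RGAp1

/-! Complexification of real bilinear forms and linear maps; holomorphic families. -/

noncomputable section

namespace Pool.Agent.Lib.MP_7f377f_mp.RG

open Finset Complex
open scoped Quaternion

theorem reF_add (A B : Fld) (k : Fin 3) : reF (A + B) k = reF A k + reF B k := rfl
theorem imF_add (A B : Fld) (k : Fin 3) : imF (A + B) k = imF A k + imF B k := rfl
theorem reF_smul (c : ℂ) (A : Fld) (k : Fin 3) :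
    reF (c • A) k = c.re • reF A k - c.im • imF A k := by funext e; simp [reF, imF]
theorem imF_smul (c : ℂ) (A : Fld) (k : Fin 3) :
    imF (c • A) k = c.re • imF A k + c.im • reF A k := by funext e; simp [reF, imF]
theorem reF_gr (u : St → C3) (k : Fin 3) : reF (gr u) k = gr fun x => (u x k).re := rfl
theorem imF_gr (u : St → C3) (k : Fin 3) : imF (gr u) k = gr fun x => (u x k).im := rfl
theorem reF_sh (x : St) (A : Fld) (k : Fin 3) : reF (sh x A) k = sh x (reF A k) := rfl
theorem imF_sh (x : St) (A : Fld) (k : Fin 3) : imF (sh x A) k = sh x (imF A k) := rfl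
theorem RealF.imF {A : Fld} (h : RealF A) (k : Fin 3) : imF A k = 0 := funext fun e => h e k

theorem Sm.reF {r : ℕ} {δ : ℝ} {A : Fld} (h : Sm r δ A) (k : Fin 3) : Sm r δ (reF A k) :=
  fun e he => ((abs_re_le_norm _).trans (norm_le_pi_norm (A e) k)).trans (h e he)
theorem Sm.imF {r : ℕ} {δ : ℝ} {A : Fld} (h : Sm r δ A) (k : Fin 3) : Sm r δ (imF A k) :=
  fun e he => ((abs_im_le_norm _).trans (norm_le_pi_norm (A e) k)).trans (h e he)
theorem Cv.reF {r : ℕ} {δ : ℝ} {A : Fld} (h : Cv r δ A) (k : Fin 3) : Cv r δ (reF A k) :=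
  fun x hx μ ν => ((abs_re_le_norm _).trans (norm_le_pi_norm (dd A x μ ν) k)).trans (h x hx μ ν)
theorem Cv.imF {r : ℕ} {δ : ℝ} {A : Fld} (h : Cv r δ A) (k : Fin 3) : Cv r δ (imF A k) :=
  fun x hx μ ν => ((abs_im_le_norm _).trans (norm_le_pi_norm (dd A x μ ν) k)).trans (h x hx μ ν)

/-- the complexification of a form is complex bilinear -/
def cxB (m : BF) : Fld →ₗ[ℂ] Fld →ₗ[ℂ] ℂ := LinearMap.mk₂ ℂ (cx m)
  (fun A B C => by
    simp only [cx, ← sum_add_distrib, reF_add, imF_add, map_add, LinearMap.add_apply]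
    exact sum_congr rfl fun k _ => by push_cast; ring)
  (fun c A B => by
    simp only [cx, smul_eq_mul, mul_sum, reF_smul, imF_smul, map_add, map_sub, map_smul,
      LinearMap.add_apply, LinearMap.sub_apply, LinearMap.smul_apply]
    exact sum_congr rfl fun k _ => by apply Complex.ext <;> simp <;> ring)
  (fun A B C => by
    simp only [cx, ← sum_add_distrib, reF_add, imF_add, map_add]
    exact sum_congr rfl fun k _ => by push_cast; ring)
  (fun c A B => by
    simp only [cx, smul_eq_mul, mul_sum, reF_smul, imF_smul, map_add, map_sub, map_smul]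
    exact sum_congr rfl fun k _ => by apply Complex.ext <;> simp <;> ring)

theorem cxB_apply (m : BF) (A B : Fld) : cxB m A B = cx m A B := rfl
theorem cx_add_left (m : BF) (A B C : Fld) : cx m (A + B) C = cx m A C + cx m B C :=
  (cxB m).map_add₂ A B C
theorem cx_add_right (m : BF) (A B C : Fld) : cx m A (B + C) = cx m A B + cx m A C :=
  (cxB m A).map_add B C
theorem cx_sub_left (m : BF) (A B C : Fld) : cx m (A - B) C = cx m A C - cx m B C :=
  (cxB m).map_sub₂ A B C
theorem cx_sub_right (m : BF) (A B C : Fld) : cx m A (B - C) = cx m A B - cx m A C :=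
  (cxB m A).map_sub B C
theorem cx_smul_left (m : BF) (c : ℂ) (A B : Fld) : cx m (c • A) B = c * cx m A B :=
  (cxB m).map_smul₂ c A B
theorem cx_smul_right (m : BF) (c : ℂ) (A B : Fld) : cx m A (c • B) = c * cx m A B :=
  (cxB m A).map_smul c B
theorem cx_sum_left (m : BF) {ι : Type} (s : Finset ι) (A : ι → Fld) (B : Fld) :
    cx m (∑ i ∈ s, A i) B = ∑ i ∈ s, cx m (A i) B := (cxB m).map_sum₂ s A B
theorem cx_sum_right (m : BF) {ι : Type} (s : Finset ι) (A : Fld) (B : ι → Fld) :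
    cx m A (∑ i ∈ s, B i) = ∑ i ∈ s, cx m A (B i) := map_sum (cxB m A) B s
@[simp] theorem cx_zero_left (m : BF) (B : Fld) : cx m 0 B = 0 := (cxB m).map_zero₂ B
@[simp] theorem cx_zero_right (m : BF) (A : Fld) : cx m A 0 = 0 := (cxB m A).map_zero

theorem cx_add (m m' : BF) (A B : Fld) : cx (m + m') A B = cx m A B + cx m' A B := by
  simp only [cx, ← sum_add_distrib, LinearMap.add_apply]
  exact sum_congr rfl fun k _ => by push_cast; ring

theorem cx_smul (t : ℝ) (m : BF) (A B : Fld) : cx (t • m) A B = t * cx m A B := by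
  simp only [cx, mul_sum, LinearMap.smul_apply, smul_eq_mul]
  exact sum_congr rfl fun k _ => by push_cast; ring

theorem cx_sum {ι : Type} (s : Finset ι) (m : ι → BF) (A B : Fld) :
    cx (∑ i ∈ s, m i) A B = ∑ i ∈ s, cx (m i) A B := by
  induction s using Finset.cons_induction with
  | empty => simp [cx]
  | cons a s h ih => rw [sum_cons, sum_cons, cx_add, ih]

theorem cx_symm {m : BF} (h : ∀ a b, m a b = m b a) (A B : Fld) : cx m A B = cx m B A := by
  simp only [cx]
  exact sum_congr rfl fun k _ => by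
    rw [h (reF A k) (reF B k), h (imF A k) (imF B k), h (reF A k) (imF B k), h (imF A k) (reF B k),
      add_comm (m (imF B k) (reF A k))]

theorem cx_gr_left {m : BF} (h : ∀ u b, m (gr u) b = 0) (u : St → C3) (B : Fld) :
    cx m (gr u) B = 0 := by simp [cx, reF_gr, imF_gr, h]

theorem cx_gr_right {m : BF} (h : ∀ u b, m b (gr u) = 0) (u : St → C3) (B : Fld) :
    cx m B (gr u) = 0 := by simp [cx, reF_gr, imF_gr, h]

theorem cx_real (m : BF) {A B : Fld} (hA : RealF A) (hB : RealF B) :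
    cx m A B = ((∑ k, m (reF A k) (reF B k) : ℝ) : ℂ) := by simp [cx, hA.imF, hB.imF]

theorem cx_im (m : BF) {A B : Fld} (hA : RealF A) (hB : RealF B) : (cx m A B).im = 0 := by
  rw [cx_real m hA hB, ofReal_im]

theorem Rng.congr {m : BF} {r r' : ℕ} (hm : Rng r r' m) {a a' b b' : V} (ha : Agr r a a')
    (hb : Agr r' b b') : m a b = m a' b' := by
  have h1 := hm (a - a') b (.inl fun e he => sub_eq_zero.2 (ha e he))
  have h2 := hm a' (b - b') (.inr fun e he => sub_eq_zero.2 (hb e he))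
  rw [map_sub, LinearMap.sub_apply, sub_eq_zero] at h1
  rw [map_sub, sub_eq_zero] at h2
  rw [h1, h2]

theorem cx_agr {m : BF} {r r' : ℕ} (hm : Rng r r' m) {A A' B B' : Fld} (hA : Agr r A A')
    (hB : Agr r' B B') : cx m A B = cx m A' B' := by
  have a1 : ∀ k, Agr r (reF A k) (reF A' k) := fun k e he => by simp only [reF, hA e he]
  have a2 : ∀ k, Agr r (imF A k) (imF A' k) := fun k e he => by simp only [imF, hA e he]
  have b1 : ∀ k, Agr r' (reF B k) (reF B' k) := fun k e he => by simp only [reF, hB e he]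
  have b2 : ∀ k, Agr r' (imF B k) (imF B' k) := fun k e he => by simp only [imF, hB e he]
  simp only [cx, hm.congr (a1 _) (b1 _), hm.congr (a1 _) (b2 _), hm.congr (a2 _) (b1 _),
    hm.congr (a2 _) (b2 _)]

theorem agr_sum_single {W : Type} [AddCommMonoid W] (r : ℕ) (a : Lk → W) :
    Agr r a (∑ e ∈ lbox r, Pi.single e (a e)) := fun e he => by
  simp [Finset.sum_apply, Pi.single_apply, he]

theorem cx_single (m : BF) (e e' : Lk) (a b : C3) : cx m (Pi.single e a) (Pi.single e' b) =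
    (m (Pi.single e 1) (Pi.single e' 1) : ℂ) * dot a b := by
  have h1 : ∀ (e : Lk) (a : C3) k, reF (Pi.single e a) k = (a k).re • Pi.single e 1 := by
    intro e a k
    funext f
    by_cases h : f = e <;> simp [reF, h]
  have h2 : ∀ (e : Lk) (a : C3) k, imF (Pi.single e a) k = (a k).im • Pi.single e 1 := by
    intro e a k
    funext f
    by_cases h : f = e <;> simp [imF, h]
  simp only [cx, h1, h2, map_smul, LinearMap.smul_apply, smul_eq_mul, dot, mul_sum]
  exact sum_congr rfl fun k _ => by apply Complex.ext <;> simp <;> ring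

theorem cx_eq_sum (m : BF) {r r' : ℕ} (hm : Rng r r' m) (A B : Fld) :
    cx m A B = ∑ e ∈ lbox r, ∑ e' ∈ lbox r',
      (m (Pi.single e 1) (Pi.single e' 1) : ℂ) * dot (A e) (B e') := by
  rw [cx_agr hm (agr_sum_single r A) (agr_sum_single r' B), cx_sum_left]
  simp only [cx_sum_right, cx_single]

theorem cx_adF (m : BF) {r r' : ℕ} (hm : Rng r r' m) {h : Hc} (hh : Uni h) (A B : Fld) :
    cx m (adF (fun _ => h) A) (adF (fun _ => h) B) = cx m A B := by
  simp only [cx_eq_sum m hm, adF, dot_adq_adq hh]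

theorem cx_bd {m : BF} {r r' : ℕ} {c δ δ' : ℝ} (hm : Bd r r' c m) {A B : Fld} (hA : Sm r δ A)
    (hB : Sm r' δ' B) : ‖cx m A B‖ ≤ 12 * c * δ * δ' := by
  refine (norm_sum_le _ _).trans ((sum_le_card_nsmul _ _ (4 * (c * δ * δ')) fun k _ => ?_).trans_eq
    (by simp; ring))
  refine (norm_add_le _ _).trans ?_
  rw [norm_mul, norm_I, mul_one, norm_real, norm_real, Real.norm_eq_abs, Real.norm_eq_abs]
  linarith [abs_sub (m (reF A k) (reF B k)) (m (imF A k) (imF B k)),
    abs_add_le (m (reF A k) (imF B k)) (m (imF A k) (reF B k)), hm _ _ _ _ (hA.reF k) (hB.reF k),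
    hm _ _ _ _ (hA.reF k) (hB.imF k), hm _ _ _ _ (hA.imF k) (hB.reF k),
    hm _ _ _ _ (hA.imF k) (hB.imF k)]

theorem reF_cxL (T : V →ₗ[ℝ] V) (A : Fld) (k : Fin 3) : reF (cxL T A) k = T (reF A k) := by
  funext f
  simp [reF, cxL]

theorem imF_cxL (T : V →ₗ[ℝ] V) (A : Fld) (k : Fin 3) : imF (cxL T A) k = T (imF A k) := by
  funext f
  simp [imF, cxL]

theorem fld_ext {A B : Fld} (h1 : ∀ k, reF A k = reF B k) (h2 : ∀ k, imF A k = imF B k) : A = B :=
  funext fun e => funext fun k => Complex.ext (congrFun (h1 k) e) (congrFun (h2 k) e)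

theorem cx_compl (m : BF) (S T : V →ₗ[ℝ] V) (A B : Fld) :
    cx (m.compl₁₂ S T) A B = cx m (cxL S A) (cxL T B) := by
  simp only [cx, reF_cxL, imF_cxL, LinearMap.compl₁₂_apply]

/-- the complexification of a linear map is complex linear -/
def cxLL (T : V →ₗ[ℝ] V) : Fld →ₗ[ℂ] Fld where
  toFun := cxL T
  map_add' A B := fld_ext (fun k => by simp only [reF_cxL, reF_add, map_add])
    fun k => by simp only [imF_cxL, imF_add, map_add]
  map_smul' c A := fld_ext
    (fun k => by simp only [reF_cxL, imF_cxL, reF_smul, map_sub, map_smul, RingHom.id_apply])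
    fun k => by simp only [reF_cxL, imF_cxL, imF_smul, map_add, map_smul, RingHom.id_apply]

theorem cxL_add (T : V →ₗ[ℝ] V) (A B : Fld) : cxL T (A + B) = cxL T A + cxL T B :=
  (cxLL T).map_add A B
theorem cxL_sub (T : V →ₗ[ℝ] V) (A B : Fld) : cxL T (A - B) = cxL T A - cxL T B :=
  (cxLL T).map_sub A B
theorem cxL_smul (T : V →ₗ[ℝ] V) (c : ℂ) (A : Fld) : cxL T (c • A) = c • cxL T A :=
  (cxLL T).map_smul c A
@[simp] theorem cxL_zero (T : V →ₗ[ℝ] V) : cxL T 0 = 0 := (cxLL T).map_zero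
theorem cxL_shL (x : St) (A : Fld) : cxL (shL x) A = sh x A :=
  fld_ext (fun k => reF_cxL _ _ k) fun k => imF_cxL _ _ k
theorem cxL_id (A : Fld) : cxL LinearMap.id A = A :=
  fld_ext (fun k => reF_cxL _ _ k) fun k => imF_cxL _ _ k
theorem cxL_comp (S T : V →ₗ[ℝ] V) (A : Fld) : cxL (S ∘ₗ T) A = cxL S (cxL T A) :=
  fld_ext (fun k => by simp only [reF_cxL, LinearMap.comp_apply])
    fun k => by simp only [imF_cxL, LinearMap.comp_apply]
theorem cxL_add' (S T : V →ₗ[ℝ] V) (A : Fld) : cxL (S + T) A = cxL S A + cxL T A :=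
  fld_ext (fun k => by simp only [reF_cxL, reF_add, LinearMap.add_apply])
    fun k => by simp only [imF_cxL, imF_add, LinearMap.add_apply]
theorem cxL_real (T : V →ₗ[ℝ] V) {A : Fld} (h : RealF A) : RealF (cxL T A) := fun e k => by
  simp [cxL, h.imF]
theorem cxL_gr {T : V →ₗ[ℝ] V} (h : ∀ u, T (gr u) = 0) (u : St → C3) : cxL T (gr u) = 0 :=
  fld_ext (fun k => by rw [reF_cxL, reF_gr, h]; rfl) fun k => by rw [imF_cxL, imF_gr, h]; rfl

theorem cxL_agr {T : V →ₗ[ℝ] V} {r : ℕ} {f : Lk} (h : ∀ a, (∀ e ∈ lbox r, a e = 0) → T a f = 0)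
    {A B : Fld} (hA : Agr r A B) : cxL T A f = cxL T B f := by
  rw [← sub_eq_zero, ← Pi.sub_apply, ← cxL_sub]
  funext k
  rw [cxL, h _ fun e he => by simp [reF, hA e he], h _ fun e he => by simp [imF, hA e he]]
  simp

theorem cxL_single (T : V →ₗ[ℝ] V) (e f : Lk) (a : C3) :
    cxL T (Pi.single e a) f = (T (Pi.single e 1) f : ℂ) • a := by
  have h1 : ∀ k, reF (Pi.single e a) k = (a k).re • Pi.single e 1 := fun k => by
    funext f
    by_cases h : f = e <;> simp [reF, h]
  have h2 : ∀ k, imF (Pi.single e a) k = (a k).im • Pi.single e 1 := fun k => by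
    funext f
    by_cases h : f = e <;> simp [imF, h]
  funext k
  apply Complex.ext <;> simp [cxL, h1, h2, mul_comm]

theorem cxL_eq_sum {T : V →ₗ[ℝ] V} {r : ℕ} {f : Lk}
    (h : ∀ a, (∀ e ∈ lbox r, a e = 0) → T a f = 0) (A : Fld) :
    cxL T A f = ∑ e ∈ lbox r, (T (Pi.single e 1) f : ℂ) • A e := by
  rw [cxL_agr h (agr_sum_single r A)]
  refine (congrFun (map_sum (cxLL T) _ _) f).trans ?_
  rw [Finset.sum_apply]
  exact sum_congr rfl fun e _ => cxL_single T e f _

theorem cxL_adF {T : V →ₗ[ℝ] V} {r : ℕ} {f : Lk} (h : ∀ a, (∀ e ∈ lbox r, a e = 0) → T a f = 0)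
    (u : Hc) (A : Fld) : cxL T (adF (fun _ => u) A) f = adq u (cxL T A f) := by
  simp only [cxL_eq_sum h, adq_sum, adq_smul, adF]

theorem cxL_bd {T : V →ₗ[ℝ] V} {f : Lk} {A : Fld} {c : ℝ} (h1 : ∀ k, |T (reF A k) f| ≤ c)
    (h2 : ∀ k, |T (imF A k) f| ≤ c) : ‖cxL T A f‖ ≤ 2 * c := by
  refine (pi_norm_le_iff_of_nonneg (by linarith [abs_nonneg (T (reF A 0) f), h1 0])).2 fun k => ?_
  refine (norm_add_le _ _).trans ?_
  rw [norm_mul, norm_I, mul_one, norm_real, norm_real, Real.norm_eq_abs, Real.norm_eq_abs]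
  linarith [h1 k, h2 k]

theorem cg_smul (c : ℂ) (A : Fld) : cg (c • A) = c • cg A :=
  cg_map (DistribSMul.toAddMonoidHom C3 c) A

theorem cg_adF (u : Hc) (A : Fld) : cg (adF (fun _ => u) A) = adF (fun _ => u) (cg A) :=
  cg_map (adL u).toAddMonoidHom A

theorem cg_real {A : Fld} (h : RealF A) : RealF (cg A) := fun e k => by
  have := congrFun (cg_map ((Complex.imLm ∘ₗ (LinearMap.proj k : C3 →ₗ[ℝ] ℂ)).toAddMonoidHom) A) e
  refine Eq.trans this.symm ?_
  have e0 : (fun e => (Complex.imLm ∘ₗ (LinearMap.proj k : C3 →ₗ[ℝ] ℂ)).toAddMonoidHom (A e)) = 0 :=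
    funext fun e => h e k
  rw [e0, cg_eq_self fun _ _ _ => rfl]
  rfl

theorem dd_smul (c : ℂ) (A : Fld) (x : St) (μ ν : Fin 4) : dd (c • A) x μ ν = c • dd A x μ ν := by
  simp only [dd, Pi.smul_apply, smul_add, smul_sub]

theorem dd_adF (u : Hc) (A : Fld) (x : St) (μ ν : Fin 4) :
    dd (adF (fun _ => u) A) x μ ν = adq u (dd A x μ ν) := by
  simp only [dd, adF, adq_add, adq_sub]

theorem Cv.smul {R : ℕ} {δ : ℝ} {A : Fld} (h : Cv R δ A) (c : ℂ) : Cv R (‖c‖ * δ) (c • A) :=
  fun x hx μ ν => by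
    rw [dd_smul, norm_smul]
    exact mul_le_mul_of_nonneg_left (h x hx μ ν) (norm_nonneg c)

theorem Agr.mono {α : Type} {R R' : ℕ} {U U' : Lk → α} (h : Agr R U U') (hR : R' ≤ R) :
    Agr R' U U' := fun e he => h e (lbox_mono hR he)
theorem Agr.symm {α : Type} {R : ℕ} {U U' : Lk → α} (h : Agr R U U') : Agr R U' U :=
  fun e he => (h e he).symm
theorem Agr.trans {α : Type} {R : ℕ} {U U' U'' : Lk → α} (h : Agr R U U') (h' : Agr R U' U'') :
    Agr R U U'' := fun e he => (h e he).trans (h' e he)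
theorem Agr.sh {α : Type} {R R' : ℕ} {U U' : Lk → α} (h : Agr (R + R') U U') {y : St}
    (hy : y ∈ box R') : Agr R (sh y U) (sh y U') :=
  fun _ he => h _ (mem_lbox.2 (add_mem_box (mem_lbox.1 he) hy))
theorem agr_cut {W : Type} [AddCommGroup W] (R : ℕ) (a : Lk → W) : Agr R (cut R a) a :=
  fun _ he => cut_of_mem a he

section disc
variable {Ω : Set ℂ}

theorem diff_io {f : ℂ → C3} (h : DifferentiableOn ℂ f Ω) :
    DifferentiableOn ℂ (fun t => io (f t)) Ω := ioL.differentiable.comp_differentiableOn h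
theorem diff_co {f : ℂ → Hc} (h : DifferentiableOn ℂ f Ω) :
    DifferentiableOn ℂ (fun t => co (f t)) Ω := coL.differentiable.comp_differentiableOn h
theorem diff_re {f : ℂ → Hc} (h : DifferentiableOn ℂ f Ω) :
    DifferentiableOn ℂ (fun t => (f t).re) Ω := reL.differentiable.comp_differentiableOn h
theorem diff_star {f : ℂ → Hc} (h : DifferentiableOn ℂ f Ω) :
    DifferentiableOn ℂ (fun t => star (f t)) Ω := stL.differentiable.comp_differentiableOn h
theorem diff_dot {f g : ℂ → C3} (h : DifferentiableOn ℂ f Ω) (h' : DifferentiableOn ℂ g Ω) :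
    DifferentiableOn ℂ (fun t => dot (f t) (g t)) Ω :=
  DifferentiableOn.fun_sum fun k _ => (differentiableOn_pi.1 h k).mul (differentiableOn_pi.1 h' k)
theorem diff_adq {f : ℂ → Hc} {g : ℂ → C3} (h : DifferentiableOn ℂ f Ω)
    (h' : DifferentiableOn ℂ g Ω) : DifferentiableOn ℂ (fun t => adq (f t) (g t)) Ω :=
  diff_co ((h.mul (diff_io h')).mul (diff_star h))
theorem diff_ch {f : ℂ → Hc} (h : DifferentiableOn ℂ f Ω) (h0 : ∀ t ∈ Ω, (f t).re ≠ 0) :
    DifferentiableOn ℂ (fun t => ch (f t)) Ω := ((diff_re h).inv h0).smul (diff_co h)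

theorem one_add_dot_mem {b : C3} (h : ‖b‖ ≤ 1 / 2) : 1 + dot b b ∈ slitPlane := by
  refine mem_slitPlane_of_norm_lt_one ((norm_dot b b).trans_lt ?_)
  nlinarith [norm_nonneg b]

theorem diff_ex {f : ℂ → C3} (h : DifferentiableOn ℂ f Ω) (h0 : ∀ t ∈ Ω, ‖f t‖ ≤ 1 / 2) :
    DifferentiableOn ℂ (fun t => ex (f t)) Ω :=
  (((diff_dot h h).const_add 1).cpow_const fun t ht => one_add_dot_mem (h0 t ht)).smul
    ((diff_io h).const_add 1)

theorem diff_cmb {U : ℂ → Cf} (hU : Disc Ω U) (x : St) :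
    DifferentiableOn ℂ (fun t => cmb star (U t) x) Ω :=
  cmb_closed (P := fun f => DifferentiableOn ℂ f Ω) (differentiableOn_const 1)
    (fun _ _ h h' => h.mul h') (fun _ => diff_star) hU x

theorem diff_lnP {U : ℂ → Cf} (hU : Disc Ω U) (p : St) (μ : Fin 4) (n : ℕ) :
    DifferentiableOn ℂ (fun t => lnP (U t) p μ n) Ω := by
  induction n with
  | zero => exact differentiableOn_const 1
  | succ n ih => exact ih.mul (hU _)

theorem diff_cx {m : BF} {r r' : ℕ} (hm : Rng r r' m) {A B : ℂ → Fld}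
    (hA : ∀ e ∈ lbox r, DifferentiableOn ℂ (fun t => A t e) Ω)
    (hB : ∀ e ∈ lbox r', DifferentiableOn ℂ (fun t => B t e) Ω) :
    DifferentiableOn ℂ (fun t => cx m (A t) (B t)) Ω := by
  simp only [cx_eq_sum m hm]
  exact .fun_sum fun e he => .fun_sum fun e' he' => (diff_dot (hA e he) (hB e' he')).const_mul _

theorem diff_cxL {T : V →ₗ[ℝ] V} {r : ℕ} {f : Lk} (h : ∀ a, (∀ e ∈ lbox r, a e = 0) → T a f = 0)
    {A : ℂ → Fld} (hA : ∀ e ∈ lbox r, DifferentiableOn ℂ (fun t => A t e) Ω) :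
    DifferentiableOn ℂ (fun t => cxL T (A t) f) Ω := by
  simp only [cxL_eq_sum h]
  exact .fun_sum fun e he => (hA e he).fun_const_smul _

theorem Disc.sh {F : Type} [NormedAddCommGroup F] [NormedSpace ℂ F] {U : ℂ → Lk → F}
    (h : Disc Ω U) (x : St) : Disc Ω fun t => sh x (U t) := fun _ => h _

theorem Disc.cut {A : ℂ → Fld} {R : ℕ} (h : ∀ e ∈ lbox R, DifferentiableOn ℂ (fun t => A t e) Ω) :
    Disc Ω fun t => cut R (A t) := fun e => by
  by_cases he : e ∈ lbox R
  · simpa only [cut_of_mem _ he] using h e he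
  · simpa only [cut_of_not_mem _ he] using differentiableOn_const 0

theorem Disc.cg {A : ℂ → Fld} (h : Disc Ω A) : Disc Ω fun t => cg (A t) := by
  have : ∀ x, DifferentiableOn ℂ (fun t => lam (A t) x) Ω := fun x => by
    unfold lam pr
    exact .fun_sum fun _ _ => .sub (.fun_sum fun _ _ => h _) (.fun_sum fun _ _ => h _)
  intro e
  simp only [cg_apply]
  exact ((this _).add (h e)).sub (this _)

theorem Disc.exF {A : ℂ → Fld} (h : Disc Ω A) (h0 : ∀ t ∈ Ω, ∀ e, ‖A t e‖ ≤ 1 / 2) :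
    Disc Ω fun t => exF (A t) := fun e => diff_ex (h e) fun t ht => h0 t ht e

theorem disc_const {ι F : Type} [NormedAddCommGroup F] [NormedSpace ℂ F] (c : ι → F) :
    Disc Ω fun _ => c := fun _ => differentiableOn_const _

end disc

end Pool.Agent.Lib.MP_7f377f_mp.RG
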