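import Pool.Agent.Lib.MP_7f377f_mp.Q4Op2
import Pool.Agent.Lib.MP_7f377f_mp.RGOp5

/-! Euclidean bounds for the fluctuation operator on the torus. -/

noncomputable section

namespace Pool.Agent.Lib.MP_7f377f_mp.RG.Q4

open Finset Polynomial
open scoped InnerProductSpace

attribute [local irreducible] box lbox cube

variable {O O' : Od} {c l : ℕ} {H : Set St} {W : Cf} {W0 : Conf} {A A' : Fld} {p q : ℂ[X]}
  {δ θ : ℝ} {f : Lk} {n : Fin 4 → ℕ}

section wn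

theorem wn_eq {s : Finset ℕ} (hs : p.support ⊆ s) : wn θ p = ∑ k ∈ s, ‖p.coeff k‖ * θ ^ k :=
  sum_eq_of_subset _ (fun _ => by simp) hs

theorem wn_nonneg (h0 : 0 ≤ θ) : 0 ≤ wn θ p := sum_nonneg fun _ _ => by positivity

theorem wn_add (h0 : 0 ≤ θ) : wn θ (p + q) ≤ wn θ p + wn θ q := by
  rw [wn_eq support_add, wn_eq (p := p) (s := p.support ∪ q.support) subset_union_left,
    wn_eq (p := q) (s := p.support ∪ q.support) subset_union_right, ← sum_add_distrib]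
  exact sum_le_sum fun k _ => by
    rw [← add_mul, coeff_add]
    exact mul_le_mul_of_nonneg_right (norm_add_le _ _) (by positivity)

theorem wn_monomial (k : ℕ) (a : ℂ) : wn θ (monomial k a) = ‖a‖ * θ ^ k :=
  sum_monomial_index _ _ (by simp)

theorem wn_sum (h0 : 0 ≤ θ) {ι : Type} (s : Finset ι) (p : ι → ℂ[X]) :
    wn θ (∑ i ∈ s, p i) ≤ ∑ i ∈ s, wn θ (p i) := by
  induction s using Finset.cons_induction with
  | empty => simp [wn]
  | cons a s ha ih => rw [sum_cons, sum_cons]; exact (wn_add h0).trans (by linarith)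

theorem wn_mul (h0 : 0 ≤ θ) : wn θ (p * q) ≤ wn θ p * wn θ q := by
  rw [mul_eq_sum_sum, wn_eq (p := p) subset_rfl, wn_eq (p := q) subset_rfl, sum_mul_sum]
  refine (wn_sum h0 _ _).trans (sum_le_sum fun i _ => (wn_sum h0 _ _).trans_eq ?_)
  exact sum_congr rfl fun j _ => by rw [wn_monomial, norm_mul, pow_add]; ring

theorem wn_mono {θ' : ℝ} (h0 : 0 ≤ θ) (h : θ ≤ θ') : wn θ p ≤ wn θ' p :=
  sum_le_sum fun _ _ => by dsimp only; gcongr

theorem norm_eval_le {x : ℂ} (h : ‖x‖ ≤ θ) : ‖p.eval x‖ ≤ wn θ p := by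
  rw [eval_eq_sum]
  exact (norm_sum_le _ _).trans (sum_le_sum fun k _ => by
    rw [norm_mul, norm_pow]
    exact mul_le_mul_of_nonneg_left (pow_le_pow_left₀ (norm_nonneg _) h k) (norm_nonneg _))

theorem wn_le (h0 : 0 ≤ θ) (h1 : θ ≤ 1) {N j : ℕ} {d : ℕ → ℕ} {a : ℕ → ℂ} {M : ℝ} (hM : 0 ≤ M)
    (ha : ∀ i, ‖a i‖ ≤ M) (hd : ∀ i, j ≤ d i) :
    wn θ (∑ i ∈ range N, monomial (d i) (a i)) ≤ N * (M * θ ^ j) := by
  refine (wn_sum h0 _ _).trans ((sum_le_card_nsmul _ _ (M * θ ^ j) fun i _ => ?_).trans_eq (by simp))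
  rw [wn_monomial]
  exact mul_le_mul (ha i) (pow_le_pow_of_le_one h0 h1 (hd i)) (by positivity) hM

theorem norm_bin (i : ℕ) : ‖(bin i : ℂ)‖ ≤ 1 := by simpa using Op.norm_bin i

theorem pP_ode (N : ℕ) :
    2 * (1 - X) * derivative (pP N) - pP N = -monomial N ((2 * N + 1) * bin N : ℂ) := by
  induction N with
  | zero => simp [pP, bin]
  | succ N ih =>
    have e : ((2 * N + 1) * bin N : ℂ) = 2 * (bin (N + 1) * (N + 1)) := by
      have : (2 * N + 2 : ℂ) ≠ 0 := by exact_mod_cast (by omega : 2 * N + 2 ≠ 0)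
      rw [bin]
      push_cast
      field_simp
    rw [pP, sum_range_succ, ← pP, derivative_add, derivative_monomial_succ]
    rw [e] at ih
    simp only [← C_mul_X_pow_eq_monomial, map_mul, map_add, map_one, map_ofNat, map_natCast,
      Nat.cast_add, Nat.cast_one] at ih ⊢
    linear_combination ih

theorem pU_eq (N : ℕ) : pU N = ∑ i ∈ range (N + 1),
    monomial (N + i + 1) ((2 * N + 1) * bin N * bin i / (N + i + 1) : ℂ) := by
  rw [← sub_eq_zero, eq_C_of_derivative_eq_zero (p := _ - _), C_eq_zero]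
  · have : (pP N).coeff 0 = 1 := by simp [pP, finsetSum_coeff, coeff_monomial, bin]
    simp [pU, finsetSum_coeff, coeff_monomial, sq, this]
  · have h1 : derivative (pU N) = monomial N ((2 * N + 1) * bin N : ℂ) * pP N := by
      have := pP_ode N
      simp only [pU, derivative_sub, derivative_mul, derivative_one, derivative_X, sq]
      linear_combination (-pP N) * this
    rw [derivative_sub, h1, derivative_sum, pP, mul_sum, sub_eq_zero]
    refine sum_congr rfl fun i _ => ?_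
    have : (N + i + 1 : ℂ) ≠ 0 := by exact_mod_cast (by omega : N + i + 1 ≠ 0)
    rw [monomial_mul_monomial, derivative_monomial_succ, Nat.cast_add, div_mul_cancel₀ _ this]

theorem wn_pP (h0 : 0 ≤ θ) (h1 : θ ≤ 1) (N : ℕ) : wn θ (pP N) ≤ N + 1 :=
  (wn_le h0 h1 zero_le_one norm_bin fun _ => Nat.zero_le _).trans_eq (by simp)

theorem norm_inv_le (a : ℕ) : ‖(1 / (2 * (a + 1)) : ℂ)‖ ≤ 1 := by
  rw [show (1 / (2 * (a + 1)) : ℂ) = ((1 / (2 * (a + 1)) : ℝ) : ℂ) by push_cast; rfl,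
    Complex.norm_real, Real.norm_of_nonneg (by positivity), div_le_one (by positivity)]
  linarith [Nat.cast_nonneg (α := ℝ) a]

theorem wn_pQ (h0 : 0 ≤ θ) (h1 : θ ≤ 1) (N : ℕ) : wn θ (pQ N) ≤ N :=
  (wn_le h0 h1 zero_le_one norm_inv_le fun _ => Nat.zero_le _).trans_eq (by simp)

theorem wn_pA (h0 : 0 ≤ θ) (h1 : θ ≤ 1) (N m : ℕ) : wn θ (pA N m) ≤ N * θ ^ N :=
  (wn_le h0 h1 (j := N) zero_le_one (fun i => by simpa using norm_inv_le ((m + 1) * N + i))
    fun _ => by omega).trans_eq (by rw [one_mul])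

theorem wn_X_pow (N : ℕ) : wn θ (X ^ N) = θ ^ N := by
  rw [X_pow_eq_monomial, wn_monomial, norm_one, one_mul]

theorem wn_one_sub (h0 : 0 ≤ θ) (h1 : θ ≤ 1) : wn θ (1 - X) ≤ 2 := by
  rw [sub_eq_add_neg, ← monomial_zero_one, ← monomial_one_one_eq_X, ← monomial_neg]
  refine (wn_add h0).trans ?_
  simp only [wn_monomial, norm_neg, norm_one]
  linarith

theorem wn_pU (h0 : 0 ≤ θ) (h1 : θ ≤ 1) (N : ℕ) : wn θ (pU N) ≤ 2 * (N + 1) * θ ^ N := by
  rw [pU_eq]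
  refine (wn_le h0 h1 (j := N) zero_le_two (fun i => ?_) fun _ => by omega).trans_eq
    (by push_cast; ring)
  have e1 : (2 * N + 1 : ℂ) = (2 * N + 1 : ℕ) := by push_cast; rfl
  have e2 : (N + i + 1 : ℂ) = (N + i + 1 : ℕ) := by push_cast; rfl
  rw [norm_div, norm_mul, norm_mul, e1, e2, Complex.norm_natCast, Complex.norm_natCast,
    div_le_iff₀ (by positivity), mul_assoc]
  refine (mul_le_of_le_one_right (by positivity)
    (mul_le_one₀ (norm_bin N) (norm_nonneg _) (norm_bin i))).trans ?_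
  exact_mod_cast (by omega : 2 * N + 1 ≤ 2 * (N + i + 1))

theorem wn_facts (h0 : 0 ≤ θ) (h1 : θ ≤ 1) (N : ℕ) :
    wn θ (p * q) ≤ wn θ p * wn θ q ∧ wn θ (p + q) ≤ wn θ p + wn θ q ∧ 0 ≤ wn θ p ∧
    wn θ (pP N) ≤ N + 1 ∧ wn θ (pQ N) ≤ N ∧ wn θ (1 - X) ≤ 2 ∧ wn θ (X ^ N) = θ ^ N ∧
    wn θ (pU N) ≤ 2 * (N + 1) * θ ^ N ∧ (pU N).natDegree ≤ 2 * N + 1 ∧
    ∀ k, ((pP N).coeff k).im = 0 ∧ ((pQ N).coeff k).im = 0 ∧ ((pU N).coeff k).im = 0 :=
  ⟨wn_mul h0, wn_add h0, wn_nonneg h0, wn_pP h0 h1 N, wn_pQ h0 h1 N, wn_one_sub h0 h1, wn_X_pow N,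
    wn_pU h0 h1 N, natDegree_pU N, Od.coeff_real N⟩

end wn

/-- restriction to the torus -/
def toE (n : Fin 4 → ℕ) (l : ℕ) : Fld →ₗ[ℂ] EuclideanSpace ℂ (domv n × lbox l × Fin 3) where
  toFun A := WithLp.toLp 2 fun i => A (i.2.1.1.1 + up l i.1, i.2.1.1.2) i.2.2
  map_add' _ _ := rfl
  map_smul' _ _ := rfl

theorem nrm2_eq : nrm2 n l A = ‖toE n l A‖ := by
  rw [EuclideanSpace.norm_eq, nrm2, ← sum_coe_sort (domv n), Fintype.sum_prod_type]
  refine congrArg _ (sum_congr rfl fun y _ => ?_)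
  rw [← sum_coe_sort (lbox l), Fintype.sum_prod_type]
  rfl

theorem nrm2_nonneg : 0 ≤ nrm2 n l A := Real.sqrt_nonneg _

theorem nrm2_sq : nrm2 n l A ^ 2 =
    ∑ y ∈ domv n, ∑ t ∈ lbox l, ∑ k, ‖A (t.1 + up l y, t.2) k‖ ^ 2 :=
  Real.sq_sqrt (by positivity)

theorem nrm2_mono (h : ∀ e k, ‖A e k‖ ≤ ‖A' e k‖) : nrm2 n l A ≤ nrm2 n l A' :=
  Real.sqrt_le_sqrt (by gcongr; exact h _ _)

theorem nrm2_pj : nrm2 n l (pj l H A) ≤ nrm2 n l A := nrm2_mono fun e k => by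
  simp only [pj]
  split_ifs <;> simp

theorem norm_sq_le (b : C3) : ‖b‖ ^ 2 ≤ ∑ k, ‖b k‖ ^ 2 := by
  rw [← Real.le_sqrt (norm_nonneg _) (by positivity)]
  exact (pi_norm_le_iff_of_nonneg (Real.sqrt_nonneg _)).2 fun k => Real.le_sqrt_of_sq_le
    (single_le_sum (f := fun k => ‖b k‖ ^ 2) (fun _ _ => sq_nonneg _) (mem_univ k))

/-- operators of short range with small matrix elements -/
theorem nrm2_ker (hn : ∀ i, Odd (n i)) (hl : (10 : ℝ) ^ 6 ≤ LL l) (hA : PerV (fi l n) A) {κ : ℝ}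
    (κ0 : 0 ≤ κ) (h : ∀ f, ‖A' f‖ ≤ κ * ∑ y ∈ box 2, ∑ e ∈ lbox (3 * l + 1),
      ‖A (e.1 + up l (yo l f.1 + y), e.2)‖) : nrm2 n l A' ≤ κ * (LL l : ℝ) ^ 5 * nrm2 n l A := by
  refine (abs_le_of_sq_le_sq' ?_ (mul_nonneg (by positivity) nrm2_nonneg)).2
  have h1 : ∀ y, ∀ t ∈ lbox l, ∑ k, ‖A' (t.1 + up l y, t.2) k‖ ^ 2 ≤
      3 * κ ^ 2 * (625 * (324 * (LL l : ℝ) ^ 4)) * ∑ x ∈ box 2, ∑ e ∈ lbox (fb l 1),
        ∑ k, ‖A (e.1 + up l (y + x), e.2) k‖ ^ 2 := fun y t ht => by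
    have h2 := pow_le_pow_left₀ (norm_nonneg _) (h (t.1 + up l y, t.2)) 2
    rw [Op.yo_add_box (mem_lbox.1 ht), mul_pow, ← sum_product'] at h2
    have h3 := h2.trans (mul_le_mul_of_nonneg_left sq_sum_le_card_mul_sum_sq (sq_nonneg κ))
    rw [card_product, card_box, card_lbox, sum_product,
      show 2 * (3 * l + 1) + 1 = 3 * LL l by unfold LL; ring] at h3
    refine (sum_le_card_nsmul _ _ _ fun k _ =>
      (pow_le_pow_left₀ (norm_nonneg _) (norm_le_pi_norm _ k) 2).trans h3).trans ?_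
    rw [Op.fb_one, nsmul_eq_mul, card_univ, Fintype.card_fin]
    refine le_trans (le_of_eq (by push_cast; ring)) (mul_le_mul_of_nonneg_left
      (sum_le_sum fun x _ => sum_le_sum fun e _ => norm_sq_le _) (by positivity))
  rw [nrm2_sq]
  refine (sum_le_sum fun y _ => sum_le_card_nsmul _ _ _ (h1 y)).trans ?_
  rw [← smul_sum, ← mul_sum, sum_comm, sum_congr rfl fun x _ =>
    sum_per hn (hA.map fun b => ∑ k, ‖b k‖ ^ 2) 1 x, ← nrm2_sq, sum_const, card_box, card_lbox,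
    show 2 * l + 1 = LL l from rfl, nsmul_eq_mul, nsmul_eq_mul]
  have h4 : (10 : ℝ) ^ 12 ≤ (LL l : ℝ) ^ 2 := by nlinarith
  calc _ = κ ^ 2 * (LL l : ℝ) ^ 8 * nrm2 n l A ^ 2 * 123018750000 := by push_cast; ring
    _ ≤ κ ^ 2 * (LL l : ℝ) ^ 8 * nrm2 n l A ^ 2 * (LL l : ℝ) ^ 2 := by gcongr; linarith
    _ = _ := by ring

theorem norm_cS (g : S3) : ‖cS g‖ ≤ 2 := (norm_cq g.q).2.trans_eq (by rw [g.norm_q, mul_one])

theorem norm_adq_cS (g : S3) (b : C3) : ‖adq (cS g) b‖ ≤ 12 * ‖b‖ :=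
  (norm_co _).trans ((norm_mul_le_of_le (norm_mul_le_of_le (norm_cS g) (norm_io b))
    ((norm_star_Hc _).trans_le (norm_cS g))).trans_eq (by ring))

theorem cmb_rel {R : ℕ} {x : St} (h0 : 0 ≤ δ) (h1 : 16 * R * δ ≤ 1)
    (h : ∀ e ∈ lbox R, ‖W e * star (cS (W0 e)) - 1‖ ≤ δ) (hx : x ∈ box R) :
    ‖cmb star W x * star (cS (cmb Inv.inv W0 x)) - 1‖ ≤ 32 * R * δ := by
  have b0 : ∀ (k : S3) (E : Hc), ‖E‖ ≤ δ → ‖cS k * E * star (cS k)‖ ≤ (1 + 4 * δ) ^ 1 - 1 :=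
    fun k E hE => (norm_mul_le_of_le (norm_mul_le_of_le (norm_cS k) hE)
      ((norm_star_Hc _).trans_le (norm_cS k))).trans_eq (by ring)
  have u1 : ∀ (k : S3) a, star (cS k) * (cS k * a) = a := fun k a => by
    rw [← mul_assoc, (uni_cS k).star_mul, one_mul]
  have u2 : ∀ k : S3, cS k * star (cS k) = 1 := uni_cS
  have := Op.cmb_ind (iv := Prod.map star Inv.inv) (fun j (a : Hc × S3) => ∀ k : S3,
    ‖cS k * (a.1 * star (cS a.2) - 1) * star (cS k)‖ ≤ (1 + 4 * δ) ^ j - 1) (fun j k => by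
      simpa [cS_one] using one_le_pow₀ (by linarith))
    (fun i j a b ha hb k => ?_) (U := fun e => (W e, W0 e)) (fun e he => ⟨fun k => b0 k _ (h e he),
      fun k => ?_⟩) hx 1
  · have e1 := Op.cmb_map (MonoidHom.fst Hc S3) (iv := Prod.map star Inv.inv) (iv' := star)
      (fun _ => rfl) (fun e => (W e, W0 e)) x
    have e2 := Op.cmb_map (MonoidHom.snd Hc S3) (iv := Prod.map star Inv.inv) (iv' := Inv.inv)
      (fun _ => rfl) (fun e => (W e, W0 e)) x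
    simp only [MonoidHom.coe_fst, MonoidHom.coe_snd] at e1 e2
    rw [cS_one, star_one, one_mul, mul_one, e1, e2] at this
    have h2 : (1 + 4 * δ) ^ (4 * R) ≤ Real.exp (16 * R * δ) := by
      rw [show 16 * R * δ = (4 * R : ℕ) * (4 * δ) by push_cast; ring, Real.exp_nat_mul]
      exact pow_le_pow_left₀ (by linarith) (by linarith [Real.add_one_le_exp (4 * δ)]) _
    have h3 : 0 ≤ 16 * R * δ := by positivity
    have h4 := (abs_le.1 (Real.abs_exp_sub_one_le (x := 16 * R * δ) (by rwa [abs_of_nonneg h3]))).2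
    rw [abs_of_nonneg h3] at h4
    linarith
  · have ha := ha k
    have hb := hb (k * a.2)
    generalize hu : cS k * (a.1 * star (cS a.2) - 1) * star (cS k) = u at ha
    generalize hv : cS (k * a.2) * (b.1 * star (cS b.2) - 1) * star (cS (k * a.2)) = v at hb
    have e : cS k * ((a * b).1 * star (cS (a * b).2) - 1) * star (cS k) = u * v + u + v := by
      rw [← hu, ← hv]
      simp only [Prod.fst_mul, Prod.snd_mul, cS_mul, star_mul, mul_sub, sub_mul, mul_assoc, u1,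
        mul_one, one_mul, u2, ← mul_assoc (cS a.2) (star (cS a.2))]
      abel
    have := norm_mul_le u v
    have h3 := norm_add₃_le (a := u * v) (b := u) (c := v)
    have := mul_le_mul ha hb (norm_nonneg _) ((norm_nonneg _).trans ha)
    rw [e, pow_add]
    nlinarith
  · refine le_trans (le_of_eq ?_) (b0 (k * (W0 e)⁻¹) _ (h e he))
    rw [← norm_star_Hc]
    simp only [Prod.map, cS_mul, cS_inv, star_mul, star_star, star_sub, mul_sub, sub_mul,
      mul_assoc, u1, mul_one]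

theorem adq_rel {u v : Hc} {g k : S3} (h1 : δ ≤ 1 / 3) (hu : ‖u * star (cS g) - 1‖ ≤ δ)
    (hv : ‖v * star (cS k) - 1‖ ≤ δ) (b : C3) :
    ‖adq (star u) (adq v b) - adq (star (cS g)) (adq (cS k) b)‖ ≤ 4320 * δ * ‖b‖ := by
  have δ0 := (norm_nonneg _).trans hu
  have e1 : u = u * star (cS g) * cS g := by rw [mul_assoc, (uni_cS g).star_mul, mul_one]
  have e2 : v = v * star (cS k) * cS k := by rw [mul_assoc, (uni_cS k).star_mul, mul_one]
  rw [e1, e2]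
  generalize u * star (cS g) = u at hu
  generalize v * star (cS k) = v at hv
  have h6 : ‖star u - 1‖ = ‖u - 1‖ := by rw [← norm_star_Hc, star_sub, star_star, star_one]
  have h7 : ‖star u * v - 1‖ ≤ 3 * δ := by
    have e : star u * v - 1 = (star u - 1) * (v - 1) + (star u - 1) + (v - 1) := by noncomm_ring
    have := norm_mul_le (star u - 1) (v - 1)
    have := norm_add₃_le (a := (star u - 1) * (v - 1)) (b := star u - 1) (c := v - 1)
    have := mul_le_mul hu hv (norm_nonneg _) δ0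
    rw [e]
    nlinarith
  rw [star_mul, adq_mul, adq_mul, ← adq_mul (star u), ← adq_sub, ← cS_inv]
  refine (norm_adq_cS _ _).trans ?_
  have := (norm_adq_sub h7 (by linarith) (adq (cS k) b)).trans
    (mul_le_mul_of_nonneg_left (norm_adq_cS k b) (by positivity))
  linarith

namespace Od

variable {z : HH n O.l H}

theorem Ok.LL_ge (h : O.Ok c) : (10 : ℝ) ^ 6 ≤ LL O.l := by
  have := h.big
  exact_mod_cast (by unfold LL; omega : 10 ^ 6 ≤ LL O.l)

theorem Ok.lam_pos (h : O.Ok c) : 0 < O.Λ := h.lam ▸ pow_pos (by linarith [h.LL_ge]) _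

theorem Ok.N_cast (h : O.Ok c) : (O.N : ℝ) = (LL O.l : ℝ) ^ (2 * c + 4) := by
  rw [h.num, Nat.cast_pow]

theorem Ok.pow_le (h : O.Ok c) {C : ℝ} (hC : C ≤ 10 ^ 6) {i j : ℕ} (hij : i < j) :
    C * (LL O.l : ℝ) ^ i ≤ (LL O.l : ℝ) ^ j := by
  have hL := h.LL_ge
  calc _ ≤ LL O.l * (LL O.l : ℝ) ^ i := by gcongr; linarith
    _ = (LL O.l : ℝ) ^ (i + 1) := by ring
    _ ≤ _ := pow_le_pow_right₀ (by linarith) hij

theorem Ok.small (h : O.Ok c) (δ0 : 0 ≤ δ) (hδ : (LL O.l : ℝ) ^ (2 * c + 10) * δ ≤ 1) {j : ℕ}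
    (hj : j ≤ 2 * c + 8) : (LL O.l : ℝ) ^ j * δ ≤ 1 / 10 ^ 12 := by
  have h1 := mul_le_mul_of_nonneg_right (h.pow_le le_rfl (i := j + 1) (j := 2 * c + 10) (by omega)) δ0
  have h2 := mul_le_mul_of_nonneg_right (h.pow_le le_rfl (i := j) (j := j + 1) (by omega)) δ0
  linarith

theorem θ_mem (h : O.Ok c) : 0 ≤ O.θ c ∧ O.θ c ≤ 1 := by
  have h1 : 1 ≤ (LL O.l : ℝ) ^ (2 * c + 2) := one_le_pow₀ (by linarith [h.LL_ge])
  exact ⟨sub_nonneg.2 (inv_le_one_of_one_le₀ (by linarith)), sub_le_self _ (by positivity)⟩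

theorem θ_pow' (h : O.Ok c) {j : ℕ} (hj : j ≤ O.l) :
    (LL O.l : ℝ) ^ j * O.θ c ^ O.N ≤ Real.exp (-(O.l : ℝ) ^ 2 - 2 * O.l) := by
  have hL := h.LL_ge
  have h5 : (LL O.l : ℝ) = 2 * O.l + 1 := by simp [LL]
  have h2 : O.θ c ^ O.N ≤ Real.exp (-((LL O.l : ℝ) ^ 2 / 2)) := by
    refine (pow_le_pow_left₀ (θ_mem h).1 (Real.one_sub_le_exp_neg _) _).trans_eq ?_
    rw [← Real.exp_nat_mul, h.N_cast]
    congr 1
    field_simp
    ring
  have h3 : (LL O.l : ℝ) ^ j ≤ Real.exp (j * O.l) := by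
    rw [Real.exp_nat_mul]
    refine pow_le_pow_left₀ (by positivity) ?_ _
    have := Real.quadratic_le_exp_of_nonneg (Nat.cast_nonneg (α := ℝ) O.l)
    nlinarith
  refine (mul_le_mul h3 h2 (pow_nonneg (θ_mem h).1 _) (by positivity)).trans ?_
  rw [← Real.exp_add, Real.exp_le_exp, h5]
  have h4 : (j : ℝ) ≤ O.l := by exact_mod_cast hj
  nlinarith [Nat.cast_nonneg (α := ℝ) j]

theorem θ_pow (h : O.Ok c) {j : ℕ} (hj : j ≤ O.l) :
    (LL O.l : ℝ) ^ j * O.θ c ^ O.N ≤ Real.exp (-(O.l : ℝ) ^ 2) :=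
  (θ_pow' h hj).trans (Real.exp_le_exp.2 (sub_le_self _ (by positivity)))

theorem nq_Ay (y : St) (e : Lk) : Op.nq (Ay l y (cC W0) A e) = Op.nq (A (e.1 + up l y, e.2)) := by
  rw [Ay, adF, sh_cC, cmb_cC, Op.nq_adq (uni_cS _), sh]

theorem norm_emb (hn : ∀ i, Odd (n i)) (hH : PerS n H) :
    ‖z‖ ^ 2 = ∑ y ∈ domv n, ∑ t ∈ lbox O.l, Op.nq (emb n O.l H z (t.1 + up O.l y, t.2)) := by
  have := congrArg Complex.re (inner_emb (z := z) (z' := z) hn hH)
  rwa [Complex.ofReal_re, real_inner_self_eq_norm_sq, bp, Complex.re_sum,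
    sum_congr rfl fun _ _ => Complex.re_sum _ _] at this

theorem cx_nonneg (h : O.Ok c) (hA : RealF A) : 0 ≤ (cx O.h A A).re := by
  rw [cx_real _ hA hA, Complex.ofReal_re]
  exact sum_nonneg fun _ _ => h.psd _

theorem cx_le (h : O.Ok c) (hA : RealF A) :
    (cx O.h A A).re ≤ (LL O.l : ℝ) ^ c * ∑ e ∈ lbox (fb O.l 1), Op.nq (A e) := by
  rw [cx_real _ hA hA, Complex.ofReal_re, sum_congr rfl fun e _ => Op.nq_real (hA e), sum_comm,
    mul_sum, Op.fb_one]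
  exact sum_le_sum fun _ _ => h.bd _

theorem QQ_nonneg (h : O.Ok c) (hA : RealF A) : 0 ≤ (O.QQ n (cC W0) A A).re := by
  rw [QQ, Complex.re_sum]
  exact sum_nonneg fun _ _ => cx_nonneg h (Ay_real _ hA)

theorem QQ_le (h : O.Ok c) (hn : ∀ i, Odd (n i)) (hH : PerS n H) :
    (O.QQ n (cC W0) (emb n O.l H z) (emb n O.l H z)).re ≤ O.Λ * ‖z‖ ^ 2 := by
  rw [QQ, Complex.re_sum]
  refine (sum_le_sum fun y _ => cx_le h (Ay_real _ emb_real)).trans ?_
  have := sum_per hn ((emb_per (z := z)).map Op.nq) 1 0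
  simp only [add_zero] at this
  simp only [nq_Ay]
  rw [← mul_sum, this, ← norm_emb hn hH, h.lam, pow_succ (LL O.l : ℝ) c, mul_assoc]
  have := h.LL_ge
  refine mul_le_mul_of_nonneg_left (mul_le_mul_of_nonneg_right ?_ (sq_nonneg _)) (by positivity)
  push_cast
  linarith

theorem coer_loc (h : O.Ok c) {ε : ℝ} (ε0 : 0 ≤ ε) (ε1 : ε ≤ 1 / 8)
    (hW : ∀ e ∈ lbox 4, ‖cC W0 e - 1‖ ≤ ε) (hA : RealF A) (ht : ∀ f, tree O.l f → A f = 0) :
    ∑ t ∈ lbox O.l, Op.nq (A t) ≤ (LL O.l : ℝ) ^ c * ∑ y ∈ box 3,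
      (2 * (cx O.h (Ay O.l y (cC W0) A) (Ay O.l y (cC W0) A)).re +
        2 * ((LL O.l : ℝ) ^ c * (19200 * ε ^ 2 *
          ∑ e ∈ lbox (fb O.l 1), Op.nq (A (e.1 + up O.l y, e.2))))) := by
  have h1 : ∑ t ∈ lbox O.l, Op.nq (A t) ≤ (LL O.l : ℝ) ^ c * ∑ y ∈ box 3,
      (cx O.h (sh (up O.l y) A) (sh (up O.l y) A)).re := by
    have hr : ∀ y, RealF (sh y A) := fun y e => hA _
    simp only [cx_real _ (hr _) (hr _), Complex.ofReal_re, Op.nq_real (hA _)]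
    rw [sum_comm, sum_comm (s := box 3), mul_sum]
    exact sum_le_sum fun k _ => h.coer (reF A k) fun f hf => by simp [reF, ht f hf]
  refine h1.trans (mul_le_mul_of_nonneg_left (sum_le_sum fun y hy => ?_) (by positivity))
  set B := Ay O.l y (cC W0) A with hB
  set d := sh (up O.l y) A - B with hd
  have rB : RealF B := Ay_real _ hA
  have rd : RealF d := fun e k => by simp [hd, rB e k, sh, hA _ k]
  have h2 := cx_nonneg h (A := B - d) fun e k => by simp [rB e k, rd e k]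
  have h3 : (cx O.h d d).re ≤ (LL O.l : ℝ) ^ c * (19200 * ε ^ 2 *
      ∑ e ∈ lbox (fb O.l 1), Op.nq (A (e.1 + up O.l y, e.2))) := by
    refine (cx_le h rd).trans (mul_le_mul_of_nonneg_left ?_ (by positivity))
    rw [mul_sum]
    refine sum_le_sum fun e he => (Op.nq_le _).trans ?_
    have h4 := Op.cmb_near' (R := 1) (U := sh y (cC W0)) ε0 (by push_cast; linarith)
      (fun e' he' => hW _ (mem_lbox.2 (add_mem_box (mem_lbox.1 he') hy)))
      (Op.mem_fb.1 (mem_lbox.1 he))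
    have h5 := norm_adq_sub h4 (by push_cast; linarith) (A (e.1 + up O.l y, e.2))
    have h6 : ‖d e‖ ≤ 80 * ε * ‖A (e.1 + up O.l y, e.2)‖ := by
      rw [hd, Pi.sub_apply, norm_sub_rev]
      exact h5.trans_eq (by push_cast; ring)
    have h7 := pow_le_pow_left₀ (norm_nonneg _) h6 2
    have h8 := mul_le_mul_of_nonneg_left (Op.le_nq (hA (e.1 + up O.l y, e.2))) (sq_nonneg ε)
    nlinarith
  have e : sh (up O.l y) A = B + d := by rw [hd]; abel
  rw [e]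
  simp only [cx_add_left, cx_add_right, cx_sub_left, cx_sub_right, Complex.add_re,
    Complex.sub_re] at h2 ⊢
  linarith

theorem QQ_ge (h : O.Ok c) (hn : ∀ i, Odd (n i)) (hH : PerS n H) (hW : PerV n W0) (δ0 : 0 ≤ δ)
    (hδ : ∀ y, Fr H y → ∀ x ∈ box 5, ∀ μ ν, fq (sh y W0) x μ ν ≤ δ)
    (hs : (LL O.l : ℝ) ^ c * δ ≤ 1 / 10 ^ 7) : ‖z‖ ^ 2 ≤
      10 ^ 4 * (LL O.l : ℝ) ^ c * (O.QQ n (cC W0) (emb n O.l H z) (emb n O.l H z)).re := by
  have L1 : 1 ≤ (LL O.l : ℝ) ^ c := one_le_pow₀ (by linarith [h.LL_ge])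
  have δ1 : δ ≤ 1 / 10 ^ 7 := by nlinarith
  set A := emb n O.l H z with hA
  have q0 : ∀ e, 0 ≤ Op.nq (A e) := fun e => (sq_nonneg _).trans (Op.le_nq (emb_real e))
  let F : St → ℝ := fun y => 2 * (cx O.h (Ay O.l y (cC W0) A) (Ay O.l y (cC W0) A)).re +
    2 * ((LL O.l : ℝ) ^ c * (19200 * (24 * δ) ^ 2 *
      ∑ e ∈ lbox (fb O.l 1), Op.nq (A (e.1 + up O.l y, e.2))))
  have h1 : ∀ x, ∑ t ∈ lbox O.l, Op.nq (A (t.1 + up O.l x, t.2)) ≤
      (LL O.l : ℝ) ^ c * ∑ y ∈ box 3, F (x + y) := fun x => by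
    by_cases hx : Fr H x
    swap
    · rw [sum_eq_zero fun t ht => by
        rw [hA, emb_not hn hH fun h' => hx (Op.yo_add_box (mem_lbox.1 ht) x ▸ h'.2)]
        simp [Op.nq]]
      exact mul_nonneg (by positivity) (sum_nonneg fun y _ => add_nonneg (mul_nonneg zero_le_two
        (cx_nonneg h (Ay_real _ emb_real))) (mul_nonneg zero_le_two (mul_nonneg (by positivity)
          (mul_nonneg (by positivity) (sum_nonneg fun _ _ => q0 _)))))
    set u := cmb Inv.inv (sh x W0)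
    have hu : ∀ y, Uni (cS (u y)) := fun _ => uni_cS _
    have := coer_loc h (W0 := gauge Inv.inv u (sh x W0)) (ε := 24 * δ) (by positivity) (by linarith)
      (fun e he => by
        have := comb_small (G := gauge Inv.inv u (sh x W0)) (fun _ _ h _ => fix_tr _ h)
          (fun v hv μ ν => by
            rw [hol_gauge_inv, S3.norm_conj_sub]
            exact hδ x hx v (box_mono (by norm_num) hv) μ ν) he
        rw [cC, cS, ← cq_one, ← cq_sub]
        exact (norm_cq _).2.trans (by push_cast at this; linarith))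
      (A := adF (fun y => cS (u (yo O.l y))) (sh (up O.l x) A))
      (fun e => adq_real _ (emb_real _)) fun f hf => by
        rw [adF, sh, hA, emb_not hn hH fun h' => h'.1 ((tree_add_up _ _ _ _).2 hf), adq_zero]
    simp only [cC_gauge, Ay_gauge hu, cx_adF _ h.rng (hu _), ← sh_cC, Ay_sh] at this
    simpa only [adF, Op.nq_adq (hu _), sh, F, add_comm x, up_add, add_assoc] using this
  have hp : PerV (fi O.l n) fun e => Op.nq (A e) := emb_per.map _
  have h2 : ∀ y, ∑ x ∈ domv n, F (x + y) = ∑ x ∈ domv n, F x := sum_dom_add hn fun x v => by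
    simp only [F, Ay_per hW.cC emb_per, hA, up_add, ← add_assoc, up_pv, emb_per.app]
  have h3 : ∑ x ∈ domv n, F x = 2 * (O.QQ n (cC W0) A A).re +
      2 * ((LL O.l : ℝ) ^ c * (19200 * (24 * δ) ^ 2 * (81 * ‖z‖ ^ 2))) := by
    have := sum_per hn hp 1 0
    simp only [add_zero] at this
    simp only [F, sum_add_distrib, ← mul_sum, this, QQ, Complex.re_sum, norm_emb hn hH, ← hA]
    norm_num
  have h4 := sum_le_sum fun x (_ : x ∈ domv n) => h1 x
  rw [← norm_emb hn hH, ← mul_sum, sum_comm, sum_congr rfl fun y _ => h2 y, sum_const, card_box, h3,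
    nsmul_eq_mul] at h4
  have h5 := mul_le_mul_of_nonneg_right (pow_le_pow_left₀ (by positivity) hs 2) (sq_nonneg ‖z‖)
  have h6 := mul_nonneg (zero_le_one.trans L1) (QQ_nonneg (n := n) (W0 := W0) h (emb_real (z := z)))
  push_cast at h4
  nlinarith

theorem TT_mem (h : O.Ok c) (hn : ∀ i, Odd (n i)) (hH : PerS n H) (hW : PerV n W0) (δ0 : 0 ≤ δ)
    (hs : (LL O.l : ℝ) ^ (2 * c + 10) * δ ≤ 1)
    (hδ : ∀ y, Fr H y → ∀ x ∈ box 5, ∀ μ ν, fq (sh y W0) x μ ν ≤ δ) (z : HH n O.l H) :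
    0 ≤ ⟪z, O.TT n H W0 z⟫_ℝ ∧
      ⟪z, O.TT n H W0 z⟫_ℝ ≤ (1 - ((LL O.l : ℝ) ^ (2 * c + 2))⁻¹) * ‖z‖ ^ 2 := by
  have hL := h.LL_ge
  have h1 := QQ_ge (z := z) h hn hH hW δ0 hδ ((h.small δ0 hs (by omega)).trans (by norm_num))
  have h2 := QQ_nonneg (n := n) (W0 := W0) h (emb_real (z := z))
  rw [inner_TT h hn hH hW, real_inner_self_eq_norm_sq]
  refine ⟨sub_nonneg.2 ((div_le_iff₀' h.lam_pos).2 (QQ_le h hn hH)), ?_⟩
  rw [sub_mul, one_mul, sub_le_sub_iff_left, le_div_iff₀ h.lam_pos, h.lam, inv_mul_eq_div,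
    div_mul_eq_mul_div, div_le_iff₀ (by positivity)]
  generalize (O.QQ n (cC W0) (emb n O.l H z) (emb n O.l H z)).re = Q at h1 h2
  calc _ ≤ 10 ^ 4 * (LL O.l : ℝ) ^ c * Q * (LL O.l : ℝ) ^ (c + 1) := by gcongr
    _ ≤ LL O.l * (LL O.l : ℝ) ^ c * Q * (LL O.l : ℝ) ^ (c + 1) := by gcongr; linarith
    _ = _ := by ring

theorem norm_le_of_inner {E : Type} [NormedAddCommGroup E] [InnerProductSpace ℝ E] {T : E →ₗ[ℝ] E}
    (hT : T.IsSymmetric) {γ : ℝ} (γ0 : 0 < γ)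
    (h : ∀ z, 0 ≤ ⟪z, T z⟫_ℝ ∧ ⟪z, T z⟫_ℝ ≤ γ * ‖z‖ ^ 2) (z : E) : ‖T z‖ ≤ γ * ‖z‖ := by
  have h1 := (h (γ • z + T z)).2
  have h2 := (h (γ • z - T z)).1
  have h3 : ⟪z, T (T z)⟫_ℝ = ‖T z‖ ^ 2 := by rw [← hT, real_inner_self_eq_norm_sq]
  simp only [map_add, map_sub, map_smul, inner_add_left, inner_add_right, inner_sub_left,
    inner_sub_right, real_inner_self_eq_norm_sq, real_inner_smul_left, real_inner_smul_right,
    h3] at h1 h2
  have h4 := pow_le_pow_left₀ (norm_nonneg _) (norm_add_le (γ • z) (T z)) 2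
  rw [norm_smul, Real.norm_of_nonneg γ0.le] at h4
  have h5 : (2 * ‖T z‖) ^ 2 ≤ (γ * ‖z‖ + ‖T z‖) ^ 2 := le_of_mul_le_mul_left (by nlinarith) γ0
  linarith [(abs_le_of_sq_le_sq' h5 (by positivity)).2]

theorem nrm2_emb (hn : ∀ i, Odd (n i)) (hH : PerS n H) (x x' : HH n O.l H) :
    nrm2 n O.l (emb n O.l H x + Complex.I • emb n O.l H x') ^ 2 = ‖x‖ ^ 2 + ‖x'‖ ^ 2 := by
  rw [nrm2_sq, norm_emb hn hH, norm_emb hn hH, ← sum_add_distrib]
  refine sum_congr rfl fun y _ => ?_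
  rw [← sum_add_distrib]
  refine sum_congr rfl fun t _ => ?_
  rw [Op.nq_real (emb_real _), Op.nq_real (emb_real _), ← sum_add_distrib]
  refine sum_congr rfl fun k _ => ?_
  rw [Complex.sq_norm, Complex.normSq_apply]
  simp [emb_real (z := x) _ k, emb_real (z := x') _ k, sq]

theorem top_l2_real (h : O.Ok c) (hs : (LL O.l : ℝ) ^ (2 * c + 10) * δ ≤ 1) (hn : ∀ i, Odd (n i))
    (hH : PerS n H) (hW : PerV n W0) (δ0 : 0 ≤ δ)
    (hδ : ∀ y, Fr H y → ∀ x ∈ box 5, ∀ μ ν, fq (sh y W0) x μ ν ≤ δ) (hA : PerV (fi O.l n) A) :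
    nrm2 n O.l (O.top H (cC W0) A) ≤ (1 - ((LL O.l : ℝ) ^ (2 * c + 2))⁻¹) * nrm2 n O.l A := by
  have γ0 : 0 < 1 - ((LL O.l : ℝ) ^ (2 * c + 2))⁻¹ :=
    sub_pos.2 (inv_lt_one_of_one_lt₀ (one_lt_pow₀ (by linarith [h.LL_ge]) (by omega)))
  have h1 := norm_le_of_inner (TT_symm h hn hH hW) γ0 (TT_mem h hn hH hW δ0 hs hδ)
  set x := res n O.l H fun e k => (A e k).re with hx
  set x' := res n O.l H fun e k => (A e k).im with hx'
  have h2 : pj O.l H A = emb n O.l H x + Complex.I • emb n O.l H x' := by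
    rw [hx, hx', emb_res hn hH (fun _ _ => Complex.ofReal_im _) (hA.map fun b k => ((b k).re : ℂ)),
      emb_res hn hH (fun _ _ => Complex.ofReal_im _) (hA.map fun b k => ((b k).im : ℂ)),
      ← pjL_apply, ← pjL_apply, ← pjL_apply, ← map_smul, ← map_add]
    congr 1
    funext e k
    simp [mul_comm Complex.I]
  refine le_trans (abs_le_of_sq_le_sq' ?_ (mul_nonneg γ0.le nrm2_nonneg)).2
    (mul_le_mul_of_nonneg_left (nrm2_pj (H := H)) γ0.le)
  rw [← top_pj, h2, ← topL_apply, map_add, map_smul, topL_apply, topL_apply, ← emb_TT hn hH hW,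
    ← emb_TT hn hH hW, mul_pow, nrm2_emb hn hH, nrm2_emb hn hH, mul_add, ← mul_pow, ← mul_pow]
  gcongr <;> exact h1 _

theorem kr_le (h : O.Ok c) (f e : Lk) : |O.kr f e| ≤ (LL O.l : ℝ) ^ c := by
  have h1 : ∀ f : Lk, O.h (Pi.single f 1) (Pi.single f 1) ≤ (LL O.l : ℝ) ^ c := fun f => by
    refine (h.bd _).trans (mul_le_of_le_one_right (by positivity) ?_)
    simp only [Pi.single_apply, ite_pow, one_pow, ne_eq, OfNat.ofNat_ne_zero, not_false_eq_true,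
      zero_pow, sum_ite_eq']
    split_ifs <;> simp
  have h2 := h.psd (Pi.single f 1 + Pi.single e 1)
  have h3 := h.psd (Pi.single f 1 - Pi.single e 1)
  simp only [map_add, map_sub, LinearMap.add_apply, LinearMap.sub_apply,
    h.symm (Pi.single e 1) (Pi.single f 1)] at h2 h3
  rw [kr, abs_le]
  constructor <;> linarith [h1 f, h1 e]

theorem adq_pert (h1 : δ ≤ 1 / 200) (hg : Gp δ (sh (yo l f.1) W) (sh (yo l f.1) W0)) {y : St}
    (hy : y ∈ box 2) {e : Lk} (he : e ∈ lbox (3 * l + 1)) (b : C3) :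
    ‖adq (star (cmb star (sh (yo l f.1 + y) W) (-y)))
        (adq (cmb star (sh (yo l f.1 + y) W) (yo l e.1)) b) -
      adq (star (cmb star (sh (yo l f.1 + y) (cC W0)) (-y)))
        (adq (cmb star (sh (yo l f.1 + y) (cC W0)) (yo l e.1)) b)‖ ≤ 276480 * δ * ‖b‖ := by
  have h3 := fun x hx => cmb_rel (R := 2) (W := sh (yo l f.1 + y) W) (W0 := sh (yo l f.1 + y) W0)
    hg.nonneg (by push_cast; linarith) (fun e' he' => by
      have := hg.2 (e'.1 + y, e'.2) (mem_lbox.2 (box_mono (by norm_num)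
        (add_mem_box (mem_lbox.1 he') hy)))
      simpa only [sh, add_comm y, add_assoc] using this) (x := x) hx
  rw [sh_cC, cmb_cC, cmb_cC]
  exact (adq_rel (by push_cast; linarith) (h3 _ (neg_mem_box hy))
    (h3 _ (box_mono one_le_two (yo_mem_one he))) b).trans_eq (by push_cast; ring)

theorem top_pert (h : O.Ok c) (δ0 : 0 ≤ δ) (h1 : δ ≤ 1 / 200)
    (hg : ∀ y, Fr H y → Gp δ (sh y W) (sh y W0)) (f : Lk) :
    ‖(O.top H W A - O.top H (cC W0) A) f‖ ≤ δ * ∑ y ∈ box 2, ∑ e ∈ lbox (3 * O.l + 1),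
      ‖A (e.1 + up O.l (yo O.l f.1 + y), e.2)‖ := by
  have hL := h.LL_ge
  by_cases hf : Act O.l H f
  swap
  · rw [Pi.sub_apply, top_not hf, top_not hf, sub_self, norm_zero]
    positivity
  rw [Pi.sub_apply, top_act hf, top_act hf, sub_sub_sub_cancel_left, ← smul_sub, norm_smul,
    norm_sub_rev, norm_inv, Complex.norm_real, Real.norm_of_nonneg h.lam_pos.le,
    inv_mul_le_iff₀ h.lam_pos, h.lam, ham_ker h, ham_ker h, ← sum_sub_distrib, mul_sum, mul_sum]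
  refine (norm_sum_le _ _).trans (sum_le_sum fun y hy => ?_)
  rw [← sum_sub_distrib, mul_sum, mul_sum]
  refine (norm_sum_le _ _).trans (sum_le_sum fun e he => ?_)
  rw [← smul_sub, norm_smul, Complex.norm_real, pow_succ, mul_assoc]
  refine mul_le_mul (kr_le h _ _) ((adq_pert h1 (hg _ hf.2) hy he _).trans ?_) (norm_nonneg _)
    (by positivity)
  rw [mul_assoc]
  gcongr
  · linarith
  · exact norm_pj _

theorem top_l2 (h : O.Ok c) (hδ : (LL O.l : ℝ) ^ (2 * c + 10) * δ ≤ 1) (hn : ∀ i, Odd (n i))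
    (hH : PerS n H) (h0 : PerV n W0) (hg : ∀ y, Fr H y → Gp δ (sh y W) (sh y W0))
    (hA : PerV (fi O.l n) A) : nrm2 n O.l (O.top H W A) ≤ O.θ c * nrm2 n O.l A := by
  wlog δ0 : 0 ≤ δ generalizing δ
  · exact this (δ := 0) (by simp) (fun y hy => absurd (hg y hy).nonneg δ0) le_rfl
  have hL := h.LL_ge
  have h1 := top_l2_real h hδ hn hH h0 δ0 (fun y hy => (hg y hy).1) hA
  have h2 := nrm2_ker hn hL hA δ0 (top_pert h δ0
    (by linarith [h.small δ0 hδ (j := 0) (by omega)]) hg)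
  have h3 : δ * (LL O.l : ℝ) ^ 5 ≤ (2 * (LL O.l : ℝ) ^ (2 * c + 2))⁻¹ := by
    rw [← one_div, le_div_iff₀ (by positivity)]
    have := h.small δ0 hδ (j := 2 * c + 7) (by omega)
    calc _ = 2 * ((LL O.l : ℝ) ^ (2 * c + 7) * δ) := by ring
      _ ≤ _ := by linarith
  have h4 := mul_le_mul_of_nonneg_right h3 (nrm2_nonneg (n := n) (l := O.l) (A := A))
  rw [nrm2_eq, map_sub] at h2
  rw [nrm2_eq] at h1 ⊢
  have h5 := norm_sub_norm_le (toE n O.l (O.top H W A)) (toE n O.l (O.top H (cC W0) A))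
  rw [Od.θ, mul_inv] at *
  linarith

theorem iter_per (hH : PerS n H) (hW : PerV n W) (hA : PerV (fi O.l n) A) (k : ℕ) :
    PerV (fi O.l n) ((O.top H W)^[k] (pj O.l H A)) := pol_X_pow (O := O) k ▸ pol_per hH hW hA

theorem pol_l2 (h : O.Ok c) (hδ : (LL O.l : ℝ) ^ (2 * c + 10) * δ ≤ 1) (hn : ∀ i, Odd (n i))
    (hH : PerS n H) (hW : PerV n W) (h0 : PerV n W0)
    (hg : ∀ y, Fr H y → Gp δ (sh y W) (sh y W0)) (hA : PerV (fi O.l n) A) :
    nrm2 n O.l (O.pol p H W A) ≤ wn (O.θ c) p * nrm2 n O.l A := by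
  have h1 : ∀ k, nrm2 n O.l ((O.top H W)^[k] (pj O.l H A)) ≤ O.θ c ^ k * nrm2 n O.l A := fun k => by
    induction k with
    | zero => simpa using nrm2_pj
    | succ k ih =>
      rw [Function.iterate_succ_apply', pow_succ', mul_assoc]
      exact (top_l2 h hδ hn hH h0 hg (iter_per hH hW hA k)).trans
        (mul_le_mul_of_nonneg_left ih (θ_mem h).1)
  rw [nrm2_eq, pol, Polynomial.sum, map_sum, wn_eq subset_rfl, sum_mul]
  refine (norm_sum_le _ _).trans (sum_le_sum fun k _ => ?_)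
  rw [map_smul, norm_smul, ← nrm2_eq, mul_assoc]
  exact mul_le_mul_of_nonneg_left (h1 k) (norm_nonneg _)

end Od

end Pool.Agent.Lib.MP_7f377f_mp.RG.Q4
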