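import Pool.Agent.Lib.MP_7f377f_mp.Q4En
import Pool.Agent.Lib.MP_7f377f_mp.Q4BudG
import Pool.Agent.Lib.MP_7f377f_mp.Q4Cov
import Pool.Agent.Lib.MP_7f377f_mp.Q4MeasLoc
import Pool.Agent.Lib.MP_7f377f_mp.Q4Op3

/-! Local geometry of real fields around the background field. -/

noncomputable section

namespace Pool.Agent.Lib.MP_7f377f_mp.RG.Q4

open Finset En

attribute [local irreducible] box lbox

variable {l r c : ℕ} {τ P d a : ℝ} {m : BF} {s : V →ₗ[ℝ] V} {U W : Conf} {A : Fld} {ω : St → Om}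

/-- the real fine field with background `W` and fluctuation `A` -/
def Ur (l : ℕ) (s : V →ₗ[ℝ] V) (W : Conf) (A : Fld) : Conf := fun f =>
  Ms.e0 (WithLp.toLp 2 fun k => (A f k).re) * Ub l s W f

theorem cC_Ur (W : Conf) (hA : RealF A) : cC (Ur l s W A) = Uz l s (cC W) A := Uz_real W hA

theorem Ub_sh (y : St) (W : Conf) : Ub l s (sh y W) = sh (up l y) (Ub l s W) := by
  funext f
  simp only [Ub, ← sh_cC, sh_apply, Bx_sh, add_right_comm f.1 (up l y), yo_add_up, add_left_inj,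
    up_add, add_sub_add_right_eq_sub]

theorem Ur_sh (y : St) (W : Conf) (A : Fld) :
    Ur l s (sh y W) (sh (up l y) A) = sh (up l y) (Ur l s W A) := by
  funext f
  simp only [Ur, Ub_sh, sh_apply]

theorem Ub_tree (h : Lin l r c τ m s) (W : Conf) {f : Lk} (hf : tree l f) : Ub l s W f = 1 :=
  S3.ext (cq_inj ((congrFun (cC_Ub l s W) f).trans ((Us_tree h _ hf).trans cS_one.symm)))

theorem Ur_tree (h : Lin l r c τ m s) (W : Conf) {f : Lk} (hf : tree l f) (hA : A f = 0) :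
    Ur l s W A f = 1 := by
  rw [Ur, Ub_tree h W hf, mul_one, hA]
  exact cS_inj (by rw [Ms.cS_e0, cE_re fun _ => rfl, ex_zero, cS_one])

theorem gd_of {R : ℕ} (h : ∀ x ∈ box R, ∀ μ ν, fq W x μ ν ≤ d) (h1 : 6 * R * d ≤ 1) :
    RealF (cut R (Bx 0 (cC W))) ∧ (∀ e, ‖cut R (Bx 0 (cC W)) e‖ ≤ 6 * R * d) ∧ Agr R (cC W)
      (gauge star (fun x => cS (cmb Inv.inv W x)⁻¹) (exF (cut R (Bx 0 (cC W))))) := by
  obtain ⟨h2, h3⟩ := Bx_loc h h1
  refine ⟨fun e k => ?_, cut_le h2, fun e he => ?_⟩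
  · rw [cut]
    split_ifs
    exacts [Bx_real 0 W e k, rfl]
  · rw [gauge, exF, cut_of_mem _ he, ← exF, ← h3 e he, cC, cC, gauge, ← cS_inv, ← cS_mul, ← cS_mul]
    congr 1
    group

theorem gd_fq {R : ℕ} (h : ∀ x ∈ box R, ∀ μ ν, fq W x μ ν ≤ d) (h1 : 6 * R * d ≤ 1) :
    Gd R (6 * R * d) (cC W) := ⟨_, _, (gd_of h h1).2⟩

namespace Geo

theorem e0_le {b : C3} (h : ‖b‖ ≤ a) :
    Rb.Nr (2 * a) (Ms.e0 (WithLp.toLp 2 fun k => (b k).re)) 1 := by
  refine (Ms.e0_near _).trans ((norm_cE _).2.trans (mul_le_mul_of_nonneg_left ?_ two_pos.le))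
  refine (pi_norm_le_iff_of_nonneg ((norm_nonneg _).trans h)).2 fun k => ?_
  exact (Complex.norm_real _).trans_le
    ((Complex.abs_re_le_norm _).trans ((norm_le_pi_norm b k).trans h))

theorem small (b : Hy l r c τ m s P) (d0 : 0 ≤ d) {n k : ℕ} (h : P ^ n * d ≤ 1) (hk : k ≤ n) :
    P ^ k * d ≤ 1 := le_trans (by gcongr; exact b.one) h

theorem r_le (b : Hy l r c τ m s P) : 300 * (r : ℝ) ≤ P := by linarith [b.rr]

theorem half (d0 : 0 ≤ d) : 6 * (r / 2 : ℕ) * d ≤ 6 * r * d := by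
  gcongr
  exact Nat.div_le_self _ _

theorem LP (b : Hy l r c τ m s P) : 4000 * (LL l : ℝ) ^ 2 ≤ P := by
  have L6 : (1000 : ℝ) ≤ LL l := by
    exact_mod_cast (by have := b.r_ge; have := b.r_le; unfold LL; omega : 1000 ≤ LL l)
  nlinarith [b.pL, mul_le_mul_of_nonneg_right (show 1000 ≤ (LL l : ℝ) ^ 2 by nlinarith)
    (sq_nonneg (LL l : ℝ))]

/-- a gauge which is constant on the blocks -/
theorem blk_fix (hU : ∀ f, tree l f → U f = 1) (h : ∀ x ∈ box (5 * l + 2), ∀ μ ν, fq U x μ ν ≤ d)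
    {e : Lk} (he : e ∈ lbox (3 * l + 1)) : Rb.Nr (32 * (LL l : ℝ) ^ 2 * d)
      (gauge Inv.inv (fun x => cmb Inv.inv U (up l (yo l x))) U e) 1 := by
  have d0 := (Rb.fq_nonneg _ _ _ _).trans (h 0 (zero_mem_box _) 0 0)
  have L : (LL l : ℝ) = 2 * l + 1 := by simp [LL]
  have l0 : (0 : ℝ) ≤ l := l.cast_nonneg
  set u := cmb Inv.inv U with hu
  have η0 : 0 ≤ 8 * LL l * d := by positivity
  have g : ∀ e ∈ lbox (5 * l + 2), Rb.Nr (8 * LL l * d) (gauge Inv.inv u U e) 1 := fun e he =>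
    (fix_loc h he).mono (mul_le_mul_of_nonneg_right (by rw [L]; push_cast; linarith) d0)
  have k : ∀ x ∈ box (5 * l + 2), Rb.Nr (4 * l * (8 * LL l * d)) (u (up l (yo l x))) (u x) :=
    fun x hx => by
    have hy : yo l x ∈ box 2 := yo_mem_box (box_mono (by simp [LL]; omega) hx)
    have g2 := Bg3.cmb_nr (V := sh (up l (yo l x)) (gauge Inv.inv u U)) η0 (fun e he => g _
      (mem_lbox.2 (box_mono (by simp [LL]; omega) (add_mem_box (mem_lbox.1 he) (up_mem_box hy)))))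
      (JS.sub_up_mem l x)
    rw [Ms.sh_gauge, Ms.cmb_gauge, JS.cmb_tree hU _ _ (JS.sub_up_mem l x), mul_one, zero_add,
      sub_add_cancel] at g2
    simpa using g2.right (u x)
  have hx := mem_lbox.1 he
  have k1 := k e.1 (box_mono (by omega) hx)
  have k2 := k (e.1 + un e.2) (box_mono (by omega) (add_un_mem_box hx e.2))
  refine (((k1.right (U e)).mul k2.inv).trans (g e (lbox_mono (by omega) he))).mono ?_
  rw [L]
  nlinarith [mul_nonneg l0 d0]

end Geo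

open Geo

/-- the background field is close to the lift of the coarse field -/
theorem Ub_near (b : Hy l r c τ m s P) (hW : ∀ y ∈ box (r / 2), ∀ μ ν, fq W y μ ν ≤ d)
    (h : P * d ≤ 1) {f : Lk} (hf : f ∈ lbox l) : Rb.Nr (P ^ 2 * d) (Ub l s W f)
      (if yo l (f.1 + un f.2) = yo l f.1 then 1 else W (0, f.2)) := by
  have d0 := (Rb.fq_nonneg _ _ _ _).trans (hW 0 (zero_mem_box _) 0 0)
  have r1 := mul_le_mul_of_nonneg_right (r_le b) d0
  have r0 : 0 ≤ r * d := by positivity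
  have r2 := half (r := r) d0
  have k := b.cxs_bd (fun e _ => ((gd_of hW (by linarith)).2.1 e).trans r2) (f.1 - up l 0, f.2)
  rw [cxL_agr (srng b.lin _) fun e he => cut_of_mem _ (lbox_mono (by omega) he)] at k
  rw [Ub, yo_of_mem (mem_lbox.1 hf)]
  refine (((e0_le k).right _).congr rfl (one_mul _)).mono ?_
  nlinarith [b.one]

theorem Vh_ne (hU : ∀ f, tree l f → U f = 1) (h : ∀ x ∈ box (5 * l + 2), ∀ μ ν, fq U x μ ν ≤ d)
    (hd : 10 ^ 4 * (LL l : ℝ) ^ 3 * d ≤ 1) (μ : Fin 4) : Vh l μ (cC U) ≠ 0 := fun h0 => by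
  have d0 := (Rb.fq_nonneg _ _ _ _).trans (h 0 (zero_mem_box _) 0 0)
  have k : Ap (3 * l + 1) (64 * (LL l : ℝ) ^ 2 * d) (64 * (LL l : ℝ) ^ 2 * d)
      (gauge star (fun x => cS (cmb Inv.inv U (up l (yo l x)))) (cC U)) 0 := fun e he => by
    refine ⟨norm_zero.trans_le (by positivity), ?_⟩
    rw [← cC_gauge, Pi.zero_apply, io_zero, sub_zero, cC, cS, ← cq_one, ← cq_sub]
    have := blk_fix hU h he
    rw [Rb.Nr, S3.q_one] at this
    linarith [(norm_cq ((gauge Inv.inv (fun x => cmb Inv.inv U (up l (yo l x))) U e).q - 1)).2]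
  have q : 0 ≤ (LL l : ℝ) ^ 3 * d := by positivity
  have := (Nz.Vn_ap (μ := μ) k le_rfl (by nlinarith)).1
  rw [Nz.Vn, Nz.Vh_gauge (g := fun y => cS (cmb Inv.inv U (up l y))) fun _ => uni_cS _, h0,
    mul_zero, zero_mul, smul_zero, zero_sub, norm_neg, norm_one] at this
  nlinarith

/-- the noise functional of a real field of small curvature -/
theorem nz_loc (hU : ∀ f, tree l f → U f = 1) (h : ∀ x ∈ box (5 * l + 2), ∀ μ ν, fq U x μ ν ≤ d)
    (hd : 10 ^ 4 * (LL l : ℝ) ^ 3 * d ≤ 1) {μ : Fin 4} (h0 : (ω 0).1 = 0) (h1 : (ω (un μ)).1 = 0)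
    {w : S3} (hw : ‖(w * (blkN l U ω (0, μ))⁻¹).q - 1‖ ≤ 1 / 2) :
    nz l μ (cS w) (cC U) = (‖(w * (blkN l U ω (0, μ))⁻¹).q - 1‖ ^ 2 : ℝ) := by
  have := (Nz.nz_real (y := 0) hU h0 (by rwa [zero_add])
    (by rw [up_zero, sh_zero]; exact Vh_ne hU h hd μ) (ch_cS_le hw le_rfl).1).2
  rwa [up_zero, sh_zero] at this

/-- `geo_loc` at the block `y` -/
theorem geo_at {R : ℕ} (hU : ∀ f, tree l f → U f = 1)
    (h : ∀ x ∈ box (fb l (R + 2)), ∀ μ ν, fq U x μ ν ≤ d) (hd : (LL l : ℝ) ^ 4 * d ≤ 1)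
    (hw : ∀ y ∈ box (R + 1), wt l (sh (up l y) U) (ω y) ≠ 0)
    (hn : ∀ b ∈ lbox (R + 1), ‖(W b * (blkN l U ω b)⁻¹).q - 1‖ ≤ d) {y : St} (hy : y ∈ box R) :
    (ω y).1 = 0 ∧ (∀ f ∈ lbox l, Rb.Nr (1000 * (LL l : ℝ) ^ 2 * d) (sh (up l y) U f)
      (if yo l (f.1 + un f.2) = yo l f.1 then 1 else sh y W (0, f.2))) ∧
    ∀ μ ν, fq W y μ ν ≤ 4000 * (LL l : ℝ) ^ 2 * d := by
  obtain ⟨k1, k2, k3⟩ := geo_loc (l := l) (U := sh (up l y) U) (W := sh y W)
    (ω := fun x => ω (x + y)) (fun f hf => hU _ ((tree_add_up l f.1 y f.2).2 hf))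
    (fun x hx μ ν => (Rb.fq_sh ..).trans_le (h _ (box_mono (by simp only [fb, LL]; nlinarith)
      (add_mem_box hx (up_mem_box hy))) μ ν)) hd
    (fun x hx => by
      rw [sh_sh, ← up_add]
      exact hw _ (JS.mem_le hx hy (by omega)))
    fun b hb => by
      rw [Mx.blkN_sh]
      exact hn _ (mem_lbox.2 (JS.mem_le (mem_lbox.1 hb) hy (by omega)))
  exact ⟨by simpa using k1 0 (zero_mem_box 1), k2, fun μ ν => by
    simpa [Rb.fq_sh] using k3 μ ν⟩

/-- without large curvature and large noise the field is close to the background field -/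
theorem geo_A (b : Hy l r c τ m s P) (hU : ∀ f, tree l f → U f = 1)
    (h : ∀ x ∈ box (fb l (r / 2 + 2)), ∀ μ ν, fq U x μ ν ≤ d) (hd : P ^ 4 * d ≤ 1)
    (hw : ∀ y ∈ box (r / 2 + 1), wt l (sh (up l y) U) (ω y) ≠ 0)
    (hn : ∀ b ∈ lbox (r / 2 + 1), ‖(W b * (blkN l U ω b)⁻¹).q - 1‖ ≤ d) {f : Lk} (hf : f ∈ lbox l) :
    Rb.Nr (P ^ 4 * d) (U f) (Ub l s W f) := by
  have d0 := (Rb.fq_nonneg _ _ _ _).trans (h 0 (zero_mem_box _) 0 0)
  have P0 := b.p0
  have q := mul_le_mul_of_nonneg_right (LP b) d0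
  have s1 := small b d0 hd (k := 1) (by norm_num)
  have s2 := small b d0 hd (k := 2) (by norm_num)
  have k := fun y (hy : y ∈ box (r / 2)) => geo_at hU h (by
    nlinarith [mul_le_mul_of_nonneg_right b.pL d0, mul_nonneg (pow_nonneg (Rb.LR l).le 4) d0])
    hw hn hy
  have k1 := (k 0 (zero_mem_box _)).2.1 f hf
  rw [up_zero, sh_zero, sh_zero] at k1
  refine (k1.trans (Ub_near b (d := P * d) (fun y hy μ ν => ((k y hy).2.2 μ ν).trans q)
    (by linarith) hf).symm).mono ?_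
  have : P * d ≤ P ^ 2 * (P * d) := le_mul_of_one_le_left (by positivity) (one_le_pow₀ b.one)
  nlinarith [mul_nonneg (sq_nonneg (LL l : ℝ)) d0]

/-- the variables of a link which is close to the base point of the charts -/
theorem chart_small {σ : Fin 8} {v : E3} {g g0 : S3} (hσ : th σ v ≠ 0)
    (e : g = Ms.e0 v * q8 σ * g0) (h : Rb.Nr a g g0) (h1 : a ≤ 1 / 2) : σ = 0 ∧ ‖v‖ ≤ 4 * a := by
  rw [Rb.Nr, S3.norm_sub, e, mul_inv_cancel_right] at h
  obtain rfl := th_first hσ (h.trans (by linarith))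
  rw [q8_zero, mul_one] at h
  have := (ch_cS_le h h1).2
  rw [Ms.cS_e0, ch_ex] at this
  exact ⟨rfl, by linarith [(norm_cE v).2]⟩

/-- the fine field in the comb gauge of the coarse field -/
theorem Ur_fix (b : Hy l r c τ m s P) {R k : ℕ} (hW : ∀ y ∈ box R, ∀ μ ν, fq W y μ ν ≤ d)
    (h1 : 6 * R * d ≤ 1) (hA : RealF A) {n : ℕ} (hn : n ≤ fb l k) (hR : k + r / 4 + 1 ≤ R) :
    Agr n (cC (gauge Inv.inv (fun x => cmb Inv.inv W (yo l x)) (Ur l s W A)))
      (Uz l s (exF (cut R (Bx 0 (cC W))))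
        (cut n (adF (fun x => cS (cmb Inv.inv W (yo l x))) A))) := fun f hf => by
  rw [cC_gauge, cC_Ur W hA, ← Uz_gauge b.lin (u := fun y => cS (cmb Inv.inv W y)) fun _ => uni_cS _,
    ← cC_gauge, Uz, Uz, cut_of_mem _ hf, Us_agr b.lin (a := k)
      (W' := exF (cut R (Bx 0 (cC W)))) (fun e he => ?_) f (lbox_mono hn hf)]
  rw [(Bx_loc hW h1).2 e (lbox_mono hR he), exF, exF, cut_of_mem _ (lbox_mono hR he)]

/-- the curvature of the fine field -/
theorem fq_Ur (b : Hy l r c τ m s P) (hW : ∀ y ∈ box (r / 2), ∀ μ ν, fq W y μ ν ≤ d)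
    (hA : RealF A) (ha : Sm (l + 1) a A) (had : a ≤ d) (hd : P ^ 24 * d ≤ 1) {x : St} (hx : x ∈ box l)
    (μ ν : Fin 4) : fq (Ur l s W A) x μ ν ≤ d / (r : ℝ) ^ 10 + 144 * a := by
  have a0 := ha.nonneg
  have d0 := a0.trans had
  have P0 := b.p0
  have P1 := b.one
  have r0 : (1000 : ℝ) ≤ r := by exact_mod_cast b.r_ge
  have r1 := b.r_ge
  have r2 := mul_le_mul_of_nonneg_right (r_le b) d0
  have r3 := mul_le_mul_of_nonneg_right r0 d0
  have s1 := small b d0 hd (k := 1) (by norm_num)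
  have s10 := small b d0 hd (k := 10) (by norm_num)
  have s11 := small b d0 hd (k := 11) (by norm_num)
  have h5 := half (r := r) d0
  have h6 : 6 * (r / 2 : ℕ) * d ≤ 1 := by linarith
  have hB := fun e => ((gd_of hW h6).2.1 e).trans h5
  have hA' : ∀ e, ‖cut (l + 1) (adF (fun x => cS (cmb Inv.inv W (yo l x))) A) e‖ ≤ 12 * a :=
    cut_le fun e he => (norm_adq_cS _ _).trans (by linarith [ha e he])
  have ag := Ur_fix b hW h6 hA (n := l + 1) (k := 1) (by rw [fb_one]; omega) (by omega)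
  set B := cut (r / 2) (Bx 0 (cC W))
  set A' := cut (l + 1) (adF (fun x => cS (cmb Inv.inv W (yo l x))) A)
  have ap := fun f => (b.Uz_ap (δ := P * d) (by linarith) (fun e => (hB e).trans (by linarith))
    (fun e => (hA' e).trans (by nlinarith)) f).2
  have p9 : 1 ≤ P ^ 9 := one_le_pow₀ P1
  have k := hol_ap' (R := l) (δ := P ^ 9 * (P * d)) (η := P ^ 9 * (P * d) ^ 2)
    (b := A' + cxL (mu l s) B) (fun e he => (ag e he).symm ▸ ap e)
    (by rw [sq, ← mul_assoc]; exact mul_le_of_le_one_right (by positivity) (by linarith))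
    (by nlinarith [mul_nonneg (pow_nonneg (zero_le_one.trans P1) 10) d0]) hx μ ν
  have c3 := Bg.mu_point b.lin (a := 0) (R := r) (JS.cv_of_sm fun e _ => hB e) (by omega)
  have c4 := JS.cv_add (a := l) (JS.cv_of_sm fun e _ => hA' e) (JS.cv_mono c3 (by simp [fb]) le_rfl)
  rw [hol_cC] at k
  refine ((Mx.fq_gauge _ _ x μ ν).symm.trans_le
    (JS.q_near (JS.near_one ⟨c4 x hx μ ν, k⟩))).trans ?_
  have r4 : 0 < (r : ℝ) ^ 10 := by positivity
  have e1 : 3 * (2 * (4 * (6 * r * d) / (r : ℝ) ^ 12)) ≤ d / r ^ 10 / 2 := by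
    rw [show 3 * (2 * (4 * (6 * r * d) / (r : ℝ) ^ 12)) = d / r ^ 10 * (144 / r) by field_simp; ring,
      div_eq_mul_inv _ (2 : ℝ)]
    gcongr
    rw [div_le_iff₀ (by linarith)]
    linarith
  have e2 : 1000 * ((P ^ 9 * (P * d)) ^ 2 + P ^ 9 * (P * d) ^ 2) ≤ d / r ^ 10 / 2 := by
    have r5 : (r : ℝ) ^ 4 ≤ P := by
      have : (r : ℝ) ≤ LL l := by exact_mod_cast (by have := b.r_le; unfold LL; omega : r ≤ LL l)
      linarith [pow_le_pow_left₀ r.cast_nonneg this 4, b.pL, pow_nonneg (Rb.LR l).le 4]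
    have r6 : (r : ℝ) ^ 10 ≤ P ^ 3 := (pow_le_pow_right₀ (by linarith) (by norm_num : 10 ≤ 4 * 3)).trans
      (by rw [pow_mul]; gcongr)
    rw [le_div_iff₀ two_pos, le_div_iff₀ r4]
    calc _ = 2000 * (P ^ 20 + P ^ 11) * r ^ 10 * d * d := by ring
      _ ≤ 2000 * (P ^ 20 + P ^ 20) * P ^ 3 * d * d := by gcongr; norm_num
      _ = 4000 * (P ^ 23 * d) * d := by ring
      _ ≤ P * (P ^ 23 * d) * d := by gcongr; linarith
      _ = P ^ 24 * d * d := by ring
      _ ≤ d := mul_le_of_le_one_left d0 hd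
  linarith

/-- the noise which goes with the fine field -/
theorem noise_Ur (b : Hy l r c τ m s P) (hW : ∀ y ∈ box (r / 2), ∀ μ ν, fq W y μ ν ≤ d)
    (hA : RealF A) (ha : Sm (5 * l + 2) d A) (hd : P ^ 12 * d ≤ 1) (hU : Agr (5 * l + 2) U (Ur l s W A))
    {y : St} (hy : y ∈ box 1) {μ : Fin 4} (h0 : (ω y).1 = 0) (h1 : (ω (y + un μ)).1 = 0) :
    ‖(W (y, μ) * (blkN l U ω (y, μ))⁻¹).q - 1‖ ≤ P ^ 12 * d := by
  have d0 := ha.nonneg
  have P0 := b.p0
  have P1 := b.one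
  have r0 : (1000 : ℝ) ≤ r := by exact_mod_cast b.r_ge
  have r1 := b.r_ge
  have r2 := mul_le_mul_of_nonneg_right (r_le b) d0
  have r3 := mul_le_mul_of_nonneg_right r0 d0
  have s1 := small b d0 hd (k := 1) (by norm_num)
  have s10 := small b d0 hd (k := 10) (by norm_num)
  have h5 := half (r := r) d0
  have h6 : 6 * (r / 2 : ℕ) * d ≤ 1 := by linarith
  have hB := fun e => ((gd_of hW h6).2.1 e).trans h5
  have ag := Ur_fix b hW h6 hA (n := 5 * l + 2) (k := 2) (by simp only [fb, LL]; omega) (by omega)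
  have ap := fun f => (b.Uz_ap (δ := P * d) (by linarith) (fun e => (hB e).trans (by linarith))
    (A := cut (5 * l + 2) (adF (fun x => cS (cmb Inv.inv W (yo l x))) A))
    (cut_le fun e he => (norm_adq_cS _ _).trans (by linarith [ha e he])) f).2
  set u := cmb Inv.inv W with hu
  have k1 : ∀ e ∈ lbox (5 * l + 2), Rb.Nr (4 * (P ^ 10 * d))
      (gauge Inv.inv (fun x => u (yo l x)) U e) 1 := fun e he => by
    have := JS.near_one (ap e)
    rw [← ag e he, cC, gauge, ← hU e he] at this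
    refine (JS.q_near this).trans ?_
    have : P ^ 10 * d * (P * d) ≤ P ^ 10 * d := mul_le_of_le_one_right (by positivity) (by linarith)
    linarith
  have k2 := Bg3.blkN_nr (by positivity) k1 hy μ h0 h1
  have k3 := fix_loc hW (e := (y, μ)) (mem_lbox.2 (box_mono (by omega) hy))
  have e : ∀ y, yo l (up l y) = y := fun y => by
    rw [← zero_add (up l y), yo_add_up, yo_of_mem (zero_mem_box l), zero_add]
  rw [(blk_gauge l _ U ω).2.1] at k2
  rw [← hu] at k3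
  have k4 := ((k3.trans k2.symm).left (u y)⁻¹).right (u (y + un μ))
  simp only [gauge, e, mul_assoc, inv_mul_cancel_left, inv_mul_cancel, mul_one] at k4
  refine ((S3.norm_sub _ _).symm.trans_le k4).trans ?_
  have p1 : P * d ≤ P ^ 10 * d := by gcongr; exact le_self_pow₀ P1 (by norm_num)
  have p2 : LL l * (P ^ 10 * d) ≤ P * (P ^ 10 * d) := by gcongr; linarith [b.L, Rb.LR l]
  have p3 : P ^ 10 * d ≤ P * (P ^ 10 * d) := le_mul_of_one_le_left (by positivity) P1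
  have p4 : 0 ≤ P * (P ^ 10 * d) := by positivity
  nlinarith

/-- the curvature of the fine field on several blocks -/
theorem fq_Ur_box (b : Hy l r c τ m s P) {k : ℕ}
    (hW : ∀ y ∈ box (r / 2 + k), ∀ μ ν, fq W y μ ν ≤ d) (hA : RealF A) (ha : Sm (fb l k + 1) a A) (had : a ≤ d) (hd : P ^ 24 * d ≤ 1) {x : St}
    (hx : x ∈ box (fb l k)) (μ ν : Fin 4) :
    fq (Ur l s W A) x μ ν ≤ d / (r : ℝ) ^ 10 + 144 * a := by
  have hy : yo l x ∈ box k := yo_mem_box hx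
  have := fq_Ur b (W := sh (yo l x) W) (A := sh (up l (yo l x)) A)
    (fun y h μ ν => (Rb.fq_sh ..).trans_le (hW _ (add_mem_box h hy) μ ν)) (fun e => hA _)
    (fun e he => ha _ (mem_lbox.2 (JS.mem_le (mem_lbox.1 he) (up_mem_box hy)
      (by rw [fb]; omega)))) had hd (JS.sub_up_mem l x) μ ν
  rwa [Ur_sh, Rb.fq_sh, sub_add_cancel] at this

theorem wt_calm (h : ∀ x ∈ box l, ∀ μ ν, fq U x μ ν ≤ d) (hd : (LL l : ℝ) ^ 4 * d ≤ 1) (o : Om) :
    wt l U o = if o.1 = 0 then (LL l : ℝ) ^ 4 else 0 := by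
  have := Rb.LR l
  exact if_pos fun x μ ν hx _ => (h x hx μ ν).trans (by
    rwa [← one_div, le_div_iff₀' (by positivity)])

/-- the weight and the noise of a calm block -/
theorem calm_loc (b : Hy l r c τ m s P) (hW : ∀ y ∈ box r, ∀ μ ν, fq W y μ ν ≤ d)
    (hA : RealF A) (ha : Sm (fb l 3) d A) (hd : P ^ 24 * d ≤ 1) (hU : ∀ f, tree l f → U f = 1)
    (hU' : Agr (fb l 3) U (Ur l s W A)) :
    (∀ o, wt l U o = if o.1 = 0 then (LL l : ℝ) ^ 4 else 0) ∧
    ∀ μ, (ω 0).1 = 0 → (ω (un μ)).1 = 0 →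
      nz l μ (cS (W (0, μ))) (cC U) = (‖(W (0, μ) * (blkN l U ω (0, μ))⁻¹).q - 1‖ ^ 2 : ℝ) ∧
        ‖(W (0, μ) * (blkN l U ω (0, μ))⁻¹).q - 1‖ ≤ P ^ 12 * d := by
  have d0 := ha.nonneg
  have P0 := b.p0
  have r1 := b.r_ge
  have r2 := b.r_le
  have L1 := JS.one_le_LL l
  have f2 : fb l 2 = 5 * l + 2 := by simp only [fb, LL]; omega
  have f3 : fb l 3 = 7 * l + 3 := by simp only [fb, LL]; omega
  have k : ∀ x ∈ box (5 * l + 2), ∀ μ ν, fq U x μ ν ≤ 145 * d := fun x hx μ ν => by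
    have := fq_Ur_box b (k := 2) (fun y hy => hW y (box_mono (by omega) hy)) hA
      (fun e he => ha e (lbox_mono (by omega) he)) le_rfl hd (f2 ▸ hx) μ ν
    rw [Mx.fq_agr hU' (box_mono (by omega) hx)
      (box_mono (by omega) (add_un_mem_box (add_un_mem_box hx μ) ν))]
    linarith [div_le_self d0 (one_le_pow₀ (by exact_mod_cast (by omega : 1 ≤ r)) :
      1 ≤ (r : ℝ) ^ 10)]
  have s2 := small b d0 hd (k := 2) (by norm_num)
  have s13 := small b d0 hd (k := 13) (by norm_num)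
  have q1 : (LL l : ℝ) ^ 3 * d ≤ LL l ^ 4 * d := by gcongr; norm_num
  have q2 := mul_le_mul_of_nonneg_right b.pL d0
  have q3 : 10 ^ 6 * (P * d) ≤ P ^ 2 * d := by
    rw [sq, mul_assoc]
    gcongr
  have q4 : 0 ≤ (LL l : ℝ) ^ 3 * d := by positivity
  refine ⟨wt_calm (fun x hx => k x (box_mono (by omega) hx)) (by linarith), fun μ h0 h1 => ?_⟩
  have n := noise_Ur b (fun y hy => hW y (box_mono (by omega) hy)) hA
    (fun e he => ha e (lbox_mono (by omega) he)) (small b d0 hd (by norm_num))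
    (hU'.mono (by omega)) (zero_mem_box 1) (μ := μ) h0 (by rwa [zero_add])
  refine ⟨nz_loc hU k (by linarith) h0 h1 (n.trans ?_), n⟩
  have : 10 ^ 6 * (P ^ 12 * d) ≤ P * (P ^ 12 * d) := by gcongr
  linarith

/-- no large curvature and no large noise: the variables of the links are small -/
theorem geo_in (b : Hy l r c τ m s P) {R : ℕ} {v : Lk → E3} {σ : Lk → Fin 8}
    (hU : ∀ f, tree l f → U f = 1) (h : ∀ x ∈ box (fb l (R + r)), ∀ μ ν, fq U x μ ν ≤ d)
    (hd : P ^ 5 * d ≤ 1) (hw : ∀ y ∈ box (R + r), wt l (sh (up l y) U) (ω y) ≠ 0)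
    (hn : ∀ b ∈ lbox (R + r), ‖(W b * (blkN l U ω b)⁻¹).q - 1‖ ≤ d) :
    (∀ y ∈ box (R + r), (ω y).1 = 0) ∧ (∀ y ∈ box (R + r / 2), ∀ μ ν, fq W y μ ν ≤ P * d) ∧
    ∀ f ∈ lbox (fb l R), U f = Ms.e0 (v f) * q8 (σ f) * Ub l s W f → th (σ f) (v f) ≠ 0 →
      σ f = 0 ∧ ‖v f‖ ≤ P ^ 5 * d := by
  have d0 := (Rb.fq_nonneg _ _ _ _).trans (h 0 (zero_mem_box _) 0 0)
  have P0 := b.p0
  have r1 := b.r_ge
  have fm : ∀ {i j : ℕ}, i ≤ j → fb l i ≤ fb l j := fun h =>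
    Nat.add_le_add_right (Nat.mul_le_mul_right _ h) _
  have s1 := small b d0 hd (k := 1) (by norm_num)
  have q : (LL l : ℝ) ^ 4 * d ≤ 1 := by
    nlinarith [mul_le_mul_of_nonneg_right b.pL d0, mul_nonneg (pow_nonneg (Rb.LR l).le 4) d0]
  refine ⟨fun y hy => om_zero (fun x hx μ ν => (Rb.fq_sh ..).trans_le (h _ (JS.mem_le hx
    (up_mem_box hy) (by rw [fb]; omega)) μ ν)) q (hw y hy), fun y hy μ ν => ((geo_at hU
      (fun x hx => h x (box_mono (fm (by omega)) hx)) q (fun y hy => hw y (box_mono (by omega) hy))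
      (fun e he => hn e (lbox_mono (by omega) he)) hy).2.2 μ ν).trans (mul_le_mul_of_nonneg_right
        (LP b) d0), fun f hf e ht => ?_⟩
  have hy : yo l f.1 ∈ box R := yo_mem_box (mem_lbox.1 hf)
  have k := geo_A b (U := sh (up l (yo l f.1)) U) (W := sh (yo l f.1) W)
    (ω := fun x => ω (x + yo l f.1)) (fun f' hf => hU _ ((tree_add_up l f'.1 _ f'.2).2 hf))
    (fun x hx μ ν => (Rb.fq_sh ..).trans_le (h _ (JS.mem_le hx (up_mem_box hy) (le_trans
      (by simp only [fb, add_mul]; omega) (fm (by omega : R + (r / 2 + 2) ≤ R + r)))) μ ν))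
    (small b d0 hd (by norm_num))
    (fun x hx => by
      rw [sh_sh, ← up_add]
      exact hw _ (JS.mem_le hx hy (by omega)))
    (fun b hb => by
      rw [Mx.blkN_sh]
      exact hn _ (mem_lbox.2 (JS.mem_le (mem_lbox.1 hb) hy (by omega))))
    (f := (f.1 - up l (yo l f.1), f.2)) (mem_lbox.2 (JS.sub_up_mem l _))
  rw [Ub_sh, sh_apply, sh_apply, sub_add_cancel] at k
  have : 10 ^ 6 * (P ^ 4 * d) ≤ P * (P ^ 4 * d) := by gcongr
  have p : 0 ≤ P ^ 4 * d := by positivity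
  obtain ⟨k1, k2⟩ := chart_small ht e k (by linarith)
  exact ⟨k1, by linarith⟩

/-- small coarse curvature and small fluctuation: small fine curvature and small noise -/
theorem geo_out (b : Hy l r c τ m s P) {R : ℕ} {v : Lk → E3} (hU : ∀ f, tree l f → U f = 1)
    (hW : ∀ y ∈ box (R + r), ∀ μ ν, fq W y μ ν ≤ d) (ha : ∀ f ∈ lbox (fb l (R + 3)), ¬ tree l f →
      U f = Ms.e0 (v f) * Ub l s W f ∧ ‖v f‖ ≤ a) (a0 : 0 ≤ a) (had : a ≤ d) (hd : P ^ 24 * d ≤ 1) :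
    (∀ x ∈ box (fb l R), ∀ μ ν, fq U x μ ν ≤ d / (r : ℝ) ^ 10 + 144 * a) ∧ ∀ y ∈ box R,
      (∀ o, wt l (sh (up l y) U) o = if o.1 = 0 then (LL l : ℝ) ^ 4 else 0) ∧
      ∀ μ, (ω y).1 = 0 → (ω (y + un μ)).1 = 0 →
        ‖(W (y, μ) * (blkN l U ω (y, μ))⁻¹).q - 1‖ ≤ P ^ 12 * d ∧
        nz l μ (cS (W (y, μ))) (sh (up l y) (cC U)) =
          (‖(W (y, μ) * (blkN l U ω (y, μ))⁻¹).q - 1‖ ^ 2 : ℝ) := by
  have r1 := b.r_ge
  set A : Fld := fun f => if tree l f then 0 else cE (v f) with e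
  have hA : RealF A := fun f k => by
    simp only [e]
    split_ifs <;> simp [cE]
  have h1 : Sm (fb l (R + 3)) a A := fun f hf => by
    simp only [e]
    split_ifs with t
    exacts [norm_zero.trans_le a0, (norm_cE _).1.trans (ha f hf t).2]
  have h2 : Agr (fb l (R + 3)) U (Ur l s W A) := fun f hf => by
    by_cases t : tree l f
    · rw [hU f t, Ur_tree b.lin W t (if_pos t)]
    · rw [(ha f hf t).1, Ur, e]
      simp only [if_neg t]
      rfl
  have f3 : fb l (R + 3) = fb l R + 6 * l + 3 := by simp only [fb, LL]; ring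
  refine ⟨fun x hx μ ν => ?_, fun y hy => ?_⟩
  · rw [Mx.fq_agr h2 (box_mono (by omega) hx)
      (box_mono (by omega) (add_un_mem_box (add_un_mem_box hx μ) ν))]
    exact fq_Ur_box b (fun y hy => hW y (box_mono (by omega) hy)) hA
      (fun e he => h1 e (lbox_mono (by omega) he)) had hd hx μ ν
  · have f4 : fb l 3 + R * LL l ≤ fb l (R + 3) := by simp only [fb, add_mul]; omega
    obtain ⟨k1, k2⟩ := calm_loc b (U := sh (up l y) U) (W := sh y W) (A := sh (up l y) A)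
      (ω := fun x => ω (x + y))
      (fun x hx μ ν => (Rb.fq_sh ..).trans_le (hW _ (JS.mem_le hx hy (by omega)) μ ν))
      (fun e => hA _)
      (fun e he => (h1 _ (mem_lbox.2 (JS.mem_le (mem_lbox.1 he) (up_mem_box hy) f4))).trans had) hd
      (fun f hf => hU _ ((tree_add_up l f.1 y f.2).2 hf))
      (by rw [Ur_sh]; exact JS.agr_sh h2 (up_mem_box hy) f4)
    refine ⟨k1, fun μ h0 h1 => ?_⟩
    have := k2 μ (by rwa [zero_add]) (by rwa [add_comm])
    simp only [Mx.blkN_sh, sh_apply, zero_add] at this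
    exact this.symm

end Pool.Agent.Lib.MP_7f377f_mp.RG.Q4
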