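import Pool.Agent.Lib.MP_7f377f_mp.Q4Defs
import Pool.Agent.Lib.MP_7f377f_mp.Q4TrE
import Pool.Agent.Lib.MP_7f377f_mp.Q4Geo

/-! The fields of one step: translations, periods, locality and measurability. -/

noncomputable section

namespace Pool.Agent.Lib.MP_7f377f_mp.RG.Q4

open Finset Polynomial

attribute [local irreducible] box lbox

section fq

variable {R R' : ℕ} {ε ε' : ℝ} {W W' : Conf}

theorem Fq.mono (h : Fq R ε W) (hR : R' ≤ R) (hε : ε ≤ ε') : Fq R' ε' W :=
  fun x hx μ ν => (h x (box_mono hR hx) μ ν).trans hε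

theorem Fq.sh (h : Fq (R + R') ε W) {y : St} (hy : y ∈ box R') : Fq R ε (sh y W) :=
  fun x hx μ ν => (Mx.fq_sh y W x μ ν).trans_le (h _ (add_mem_box hx hy) μ ν)

theorem Fq.nonneg (h : Fq R ε W) : 0 ≤ ε := (norm_nonneg _).trans (h 0 (zero_mem_box _) 0 0)

theorem fq_agr_iff (h : Agr (R + 1) W W') : Fq R ε W ↔ Fq R ε W' := by
  have e : ∀ x ∈ box R, ∀ μ ν, fq W x μ ν = fq W' x μ ν := fun x hx μ ν => by
    have h1 : ∀ κ μ, W (x + un κ, μ) = W' (x + un κ, μ) := fun κ μ =>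
      h _ (mem_lbox.2 (add_mem_box hx (un_mem_box κ)))
    have h0 : ∀ μ, W (x, μ) = W' (x, μ) := fun μ => h _ (mem_lbox.2 (box_mono R.le_succ hx))
    simp only [fq, hol, h0, h1]
  exact forall₂_congr fun x hx => forall₂_congr fun μ ν => by rw [e x hx]

theorem fq_gauge_iff (u : St → S3) : Fq R ε (gauge Inv.inv u W) ↔ Fq R ε W := by
  simp only [Fq, Mx.fq_gauge]

theorem meas_Fq {Z : Type} [MeasurableSpace Z] {W : Z → Conf} (hW : Measurable W) (R : ℕ) (ε : ℝ) :
    MeasurableSet {z | Fq R ε (W z)} := by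
  simp only [Fq, Set.ofPred_forall]
  exact .iInter fun x => .iInter fun _ => .iInter fun μ => .iInter fun ν =>
    measurableSet_le ((Mx.cont_fq x μ ν).measurable.comp hW) measurable_const

theorem Fq.gd (h : Fq R ε W) (h1 : 6 * R * ε ≤ 1) : Gd R (6 * R * ε) (cC W) := gd_real h h1

end fq

theorem shv_shv {α : Type} (x y : St) (v : St → α) : shv x (shv y v) = shv (x + y) v :=
  funext fun _ => congrArg v (add_assoc _ _ _)

@[simp] theorem shv_zero {α : Type} (v : St → α) : shv 0 v = v :=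
  funext fun _ => congrArg v (add_zero _)

theorem ps_pcs {α : Type} (n : ℕ) (v : St → α) : PS n (pcs n v) := Mx.PS_iff.2 (Mx.PS_pcs n v)

theorem PS.shv {α : Type} {n : ℕ} {v : St → α} (h : PS n v) (y : St) : PS n (shv y v) :=
  fun x w => by rw [Q4.shv, add_right_comm, h]; rfl

theorem up_per (l n : ℕ) (w : St) : up l ((n : ℤ) • w) = ((LL l * n : ℕ) : ℤ) • w := by
  rw [up, smul_smul, Nat.cast_mul]

theorem per_lnk {l n : ℕ} {v : VB} (h : PS n v) : Per (LL l * n) (lnk l v) := fun μ => by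
  rw [← up_per, ← Cov.lnk_sh, funext fun y => h y (un μ)]

theorem per_vz {l n : ℕ} {v : VB} (h : PS n v) : Per (LL l * n) (vz l v) := fun μ =>
  funext fun e => congrArg (·.2.1) (congrFun (per_lnk h μ) e)

theorem agr_lnk0 {l a : ℕ} {v v' : VB} (h : ∀ y ∈ box a, v y = v' y) :
    Agr (fb l a) (lnk l v) (lnk l v') := fun e he => by
  simp only [lnk, h _ (yo_mem_box (mem_lbox.1 he))]

theorem agr_vz0 {l a : ℕ} {v v' : VB} (h : ∀ y ∈ box a, v y = v' y) :
    Agr (fb l a) (vz l v) (vz l v') := fun e he => congrArg (·.2.1) (agr_lnk0 h e he)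

theorem agr_cC {R : ℕ} {W W' : Conf} (h : Agr R W W') : Agr R (cC W) (cC W') :=
  fun e he => congrArg cS (h e he)

theorem agr_cF {R : ℕ} {z z' : Lk → E3} (h : Agr R z z') : Agr R (cF z) (cF z') :=
  fun e he => congrArg cE (h e he)

theorem cF_real (z : Lk → E3) : RealF (cF z) := fun e k => by simp [cF, cE]

theorem zc_real (ζ : ℝ) (z : Lk → E3) : RealF (zc ζ z) := fun e k => by
  unfold zc
  split_ifs <;> simp [cE]

theorem norm_zc {ζ : ℝ} (h : 0 ≤ ζ) (z : Lk → E3) (e : Lk) : ‖zc ζ z e‖ ≤ ζ := by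
  unfold zc
  split_ifs with h1
  exacts [(norm_cE _).1.trans h1, by simpa using h]

theorem agr_zc {R : ℕ} (ζ : ℝ) {z z' : Lk → E3} (h : Agr R z z') : Agr R (zc ζ z) (zc ζ z') :=
  fun e he => by simp only [zc, h e he]

theorem cE_reE {A : Fld} {f : Lk} (h : ∀ k, (A f k).im = 0) : cE (reE A f) = A f := cE_re h

theorem meas_cF {Z : Type} [MeasurableSpace Z] {z : Z → Lk → E3} (hz : Measurable z) :
    Measurable fun x => cF (z x) :=
  measurable_pi_lambda _ fun _ => measurable_cE.comp hz.eval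

theorem meas_reE {Z : Type} [MeasurableSpace Z] {A : Z → Fld} (hA : Measurable A) :
    Measurable fun x => reE (A x) :=
  measurable_pi_lambda _ fun _ => (PiLp.continuous_toLp 2 _).measurable.comp
    (measurable_pi_lambda _ fun _ => Complex.measurable_re.comp hA.eval.eval)

theorem meas_zc {Z : Type} [MeasurableSpace Z] (ζ : ℝ) {z : Z → Lk → E3} (hz : Measurable z) :
    Measurable fun x => zc ζ (z x) := measurable_pi_lambda _ fun _ =>
  Measurable.ite (measurableSet_le hz.eval.norm measurable_const) (measurable_cE.comp hz.eval)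
    measurable_const

theorem mq_cC {Z : Type} [MeasurableSpace Z] {W : Z → Conf} (hW : Measurable W) (e : Lk) :
    MQ fun x => cC (W x) e := Smo.mq_cS hW.eval

section ub

variable {l r c : ℕ} {τ : ℝ} {m : BF} {s : V →ₗ[ℝ] V} (h : Lin l r c τ m s)
include h

theorem Ub_agr {a : ℕ} {W W' : Conf} (hW : Agr (a + r / 4 + 1) W W') :
    Agr (fb l a) (Ub l s W) (Ub l s W') := fun f hf => cS_inj <| by
  have := En.Us_agr h (agr_cC hW) f hf
  rwa [← cC_Ub, ← cC_Ub] at this

theorem meas_Ub {Z : Type} [MeasurableSpace Z] {W : Z → Conf} (hW : Measurable W) :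
    Measurable fun x => Ub l s (W x) := measurable_pi_lambda _ fun f => by
  refine (Ms.continuous_e0.measurable.comp ((PiLp.continuous_toLp 2 _).measurable.comp
    (measurable_pi_lambda _ fun k => Complex.measurable_re.comp (Measurable.eval ?_)))).mul ?_
  · simp only [cxL_eq_sum (En.srng h _)]
    exact Finset.measurable_fun_sum _ fun e _ =>
      (Bx_measurable (mq_cC hW) _).eval.fun_const_smul _
  · split_ifs
    exacts [measurable_const, hW.eval]

end ub

namespace Td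

variable {S : Td} {τ P δ : ℝ} {W W' : Cf} {A A' : Fld} {p : ℂ[X]} {a d n : ℕ} {y : St}

theorem kd_eq (S : Td) : S.kd = S.t.kd := rfl

theorem ka_sh (y : St) (W : Cf) : S.ka (sh y W) = shK y (S.ka W) :=
  funext fun x => by simp only [ka, shK, sh_sh]

theorem ka_zero (W : Cf) : S.ka W 0 = S.kd W := by rw [ka, sh_zero]

theorem ka_per (hW : Per n W) : PerK (cu n) (S.ka W) := fun y v => by
  rw [ka, ka, ← sh_sh, perV_cu.2 hW v]

theorem ka_symm (W : Cf) (y : St) : Ks (S.ka W y) := Nt.kd_symm _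

theorem As_sh (y : St) (W : Cf) : S.t.As (sh y W) = sh (up S.l y) (S.t.As W) := S.t.As_sh W y

theorem As_per (hW : Per n W) : Per (LL S.l * n) (S.t.As W) := fun μ => by
  rw [← up_per, ← As_sh, hW μ]

theorem pol0_sh (y : St) : S.pol0 p (sh y W) (sh (up S.l y) A) = sh (up S.l y) (S.pol0 p W A) := by
  rw [pol0, pol0, ← polK_sh, ka_sh, shS_empty]

theorem pol0_tree {f : Lk} (hf : tree S.l f) : S.pol0 p W A f = 0 := polK_not fun h => h.1 hf

variable (h : S.t.Ok S.r S.c τ S.m S.s P δ)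
include h

theorem lin : Lin S.l S.r S.c τ S.m S.s := h.lin

theorem kd_agr (hW : Agr (1 + S.t.rA S.r) W W') : S.kd W = S.kd W' := by
  funext e i e' j
  exact Nt.j2_agr h (zero_mem_box 0) (hW.mono (by simp only [Nt.rA]; omega)) (Nt.As_agr h hW)
    (fun _ _ => rfl) fun _ _ => rfl

theorem ka_agr (hW : Agr (a + 1 + S.t.rA S.r) W W') (hy : y ∈ box a) : S.ka W y = S.ka W' y :=
  kd_agr h (JS.agr_sh hW hy (by omega))

theorem ka_kc (hW : Agr (a + 1 + S.t.rA S.r) W W') (hy : y ∈ box a) :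
    Kc S.l 0 (S.ka W y) (S.ka W' y) := by
  rw [ka_agr h hW hy]
  exact Kc.refl _ le_rfl

theorem pol0_agr (hp : p.natDegree ≤ d) (hW : Agr (a + 2 * d + 1 + S.t.rA S.r) W W')
    (hA : Agr (fb S.l (a + 2 * d)) A A') : Agr (fb S.l a) (S.pol0 p W A) (S.pol0 p W' A') :=
  polK_agr hp (fun _ _ => Iff.rfl) (fun _ hy _ => ka_kc h hW hy) hA

theorem dt0_agr (hW : Agr (2 * S.N + 1 + S.t.rA S.r) W W') : S.dt0 W = S.dt0 W' :=
  dtK_agr (fun _ _ => Iff.rfl) fun _ hy _ => ka_kc h hW hy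

variable {Z : Type} [MeasurableSpace Z] {W : Z → Cf} {A : Z → Fld} (hW : ∀ e, MQ fun x => W x e)
include hW

theorem kd_meas (e : Lk) (i : Fin 3) (e' : Lk) (j : Fin 3) :
    Measurable fun x => S.kd (W x) e i e' j :=
  Nt.j2_meas h hW (Nt.As_meas h hW) measurable_const measurable_const 0

theorem ka_meas (y : St) (e : Lk) (i : Fin 3) (e' : Lk) (j : Fin 3) :
    Measurable fun x => S.ka (W x) y e i e' j :=
  kd_meas h (W := fun x => sh y (W x)) (fun _ => hW _) e i e' j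

theorem pol0_meas (hA : Measurable A) : Measurable fun x => S.pol0 p (W x) (A x) :=
  polK_meas (fun _ => by simp) (ka_meas h hW) hA

theorem dt0_meas : Measurable fun x => S.dt0 (W x) := dtK_meas (fun _ => by simp) (ka_meas h hW)

end Td

namespace Sd

variable {S : Sd} {τ P δ : ℝ} {W W' : Conf} {A A' : Fld} {p : ℂ[X]} {a d : ℕ} {x y : St}
  {z z' : Lk → E3} {v v' : VB} {f : Lk}

theorem R_eq (S : Sd) : S.p'.R = 4 * S.D0 := rfl

theorem not_mem_H : y ∉ S.H W ↔ Fq (S.p'.R + 1) S.p'.ε (sh y W) := not_not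

/-! ### translations and periods -/

theorem H_sh (y : St) (W : Conf) : S.H (sh y W) = shS y (S.H W) := by
  ext x
  simp only [H, shS, Set.mem_ofPred_eq, sh_sh]

theorem H_gauge (u : St → S3) (W : Conf) : S.H (gauge Inv.inv u W) = S.H W := by
  simp only [H, sh_gauge, fq_gauge_iff]

theorem act_sh (y : St) (W : Conf) : Act S.l (S.H (sh y W)) = sh (up S.l y) (Act S.l (S.H W)) :=
  funext fun _ => propext (H_sh y W ▸ act_shS)

theorem pol_sh (y : St) : S.pol p (sh y W) (sh (up S.l y) A) = sh (up S.l y) (S.pol p W A) := by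
  rw [pol, pol, ← polK_sh, H_sh, ← sh_cC, Td.ka_sh]

theorem vH_sh (y : St) : S.vH (sh y W) (sh (up S.l y) z) = sh (up S.l y) (S.vH W z) := by
  rw [vH, show cF (sh (up S.l y) z) = sh (up S.l y) (cF z) from rfl, pol_sh]
  rfl

theorem Af_sh (y : St) : S.Af (sh y W) (sh (up S.l y) z) = sh (up S.l y) (S.Af W z) := by
  rw [Af, vH_sh, ← sh_cC, Td.As_sh]
  rfl

theorem vz_shv (y : St) (v : VB) : vz S.l (shv y v) = sh (up S.l y) (vz S.l v) := Cov.vz_sh _ v y

theorem Uv_sh (y : St) : S.Uv (sh y W) (shv y v) = sh (up S.l y) (S.Uv W v) := by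
  rw [Uv, Uv, Cov.uq_sh, act_sh, Ub_sh, vz_shv, Af_sh, ← Cov.vs_sh]
  congr 1
  funext f
  rw [show vU S.l (shv y v) = _ from Cov.vU_sh _ v y]
  simp only [trz, sh_apply, tree_add_up]

theorem calm_sh : S.Calm (sh y W) (shv y v) x ↔ S.Calm W v (x + y) := by
  simp only [Calm, sh_sh, shv, add_assoc]

theorem P0_sh {W : Cf} (y : St) : S.P0 (sh y W) (sh (up S.l y) A) = sh (up S.l y) (S.P0 W A) :=
  congrArg ((S.gt : ℂ) • ·) (Td.pol0_sh y)

theorem v0_sh {W : Cf} (y : St) : S.v0 (sh y W) (sh (up S.l y) z) = sh (up S.l y) (S.v0 W z) := by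
  rw [v0, show zc S.ζ (sh (up S.l y) z) = sh (up S.l y) (zc S.ζ z) from rfl, P0_sh, v0]

theorem U0_sh {W : Cf} (y : St) : S.U0 (sh y W) (sh (up S.l y) z) = sh (up S.l y) (S.U0 W z) := by
  rw [U0, U0, ← En.Uz_sh, v0_sh, Td.As_sh]
  rfl

theorem H_per (hW : Per S.n W) : PerS (cu S.n) (S.H W) := fun v => by
  rw [← H_sh, perV_cu.2 hW v]

theorem ka_per (hW : Per S.n W) : PerK (cu S.n) (S.ka (cC W)) :=
  Td.ka_per (perV_cu.1 (perV_cu.2 hW).cC)

theorem As_per (hW : Per S.n W) : Per S.nf (S.t.As (cC W)) :=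
  Td.As_per (perV_cu.1 (perV_cu.2 hW).cC)

theorem Ub_per (hW : Per S.n W) : Per S.nf (Ub S.l S.s W) := fun μ => by
  rw [nf, ← up_per, ← Ub_sh, hW μ]

theorem pol_per (hW : Per S.n W) (hA : Per S.nf A) : Per S.nf (S.pol p W A) := fun μ => by
  have := hA μ
  rw [nf, ← up_per] at this ⊢
  rw [← pol_sh, hW μ, this]

theorem vH_per (hW : Per S.n W) (hz : Per S.nf z) : Per S.nf (S.vH W z) := fun μ => by
  have := hz μ
  rw [nf, ← up_per] at this ⊢
  rw [← vH_sh, hW μ, this]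

theorem Af_per (hW : Per S.n W) (hz : Per S.nf z) : Per S.nf (S.Af W z) := fun μ => by
  have := hz μ
  rw [nf, ← up_per] at this ⊢
  rw [← Af_sh, hW μ, this]

theorem Uv_per (hW : Per S.n W) (hv : PS S.n v) : Per S.nf (S.Uv W v) := fun μ => by
  rw [nf, ← up_per, ← Uv_sh, hW μ, show shv _ v = v from funext fun y => hv y _]

/-! ### trees and active links -/

theorem pol_not (hf : ¬ Act S.l (S.H W) f) : S.pol p W A f = 0 := polK_not hf

theorem vH_not (hf : ¬ Act S.l (S.H W) f) : S.vH W z f = 0 := by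
  rw [vH, Pi.smul_apply, pol_not hf, smul_zero]

theorem vH_tree (hf : tree S.l f) : S.vH W z f = 0 := vH_not fun h => h.1 hf

theorem v0_tree {W : Cf} (hf : tree S.l f) : S.v0 W z f = 0 := by
  rw [v0, P0, Pi.smul_apply, Td.pol0_tree hf, smul_zero]

theorem Uv_act (hf : Act S.l (S.H W) f) : S.Uv W v f =
    Ms.e0 (S.Af W (vz S.l v) f) * q8 (vs S.l v f) * Ub S.l S.s W f := if_pos hf

theorem Uv_not (hf : ¬ Act S.l (S.H W) f) : S.Uv W v f = trz S.l (vU S.l v) f := if_neg hf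

theorem Uv_tree (hf : tree S.l f) : S.Uv W v f = 1 := (Uv_not fun h => h.1 hf).trans (if_pos hf)

theorem trz_Uv : trz S.l (S.Uv W v) = S.Uv W v := funext fun f => by
  unfold trz
  split_ifs with hf
  exacts [(Uv_tree hf).symm, rfl]

/-! ### locality -/

theorem H_agr (hW : Agr (a + S.p'.R + 2) W W') : AgS a (S.H W) (S.H W') := fun _ hy =>
  not_congr (fq_agr_iff (JS.agr_sh hW hy (by omega)))

variable (h : S.t.Ok S.r S.c τ S.m S.s P δ)
include h

theorem U0_tree {W : Cf} (hf : tree S.l f) : S.U0 W z f = 1 := by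
  rw [U0, Uz, Pi.add_apply, v0_tree hf, S.t.As_tree W hf, En.Us_tree (Td.lin h) W hf]
  simp

theorem P0_agr {W W' : Cf} (hW : Agr (a + 2 * S.N + 1 + S.t.rA S.r) W W')
    (hA : Agr (fb S.l (a + 2 * S.N)) A A') : Agr (fb S.l a) (S.P0 W A) (S.P0 W' A') := fun e he =>
  congrArg ((S.gt : ℂ) • ·) (Td.pol0_agr h (Op.natDegree_pP _) hW hA e he)

theorem v0_agr {W W' : Cf} (hW : Agr (a + 2 * S.N + 1 + S.t.rA S.r) W W')
    (hz : Agr (fb S.l (a + 2 * S.N)) z z') : Agr (fb S.l a) (S.v0 W z) (S.v0 W' z') :=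
  P0_agr h hW (agr_zc _ hz)

theorem U0_agr {W W' : Cf} (hW : Agr (a + 2 * S.N + 1 + S.t.rA S.r) W W')
    (hz : Agr (fb S.l (a + 2 * S.N)) z z') : Agr (fb S.l a) (S.U0 W z) (S.U0 W' z') :=
  En.Uz_agr h.lin (hW.mono (by simp only [Nt.rA]; omega)) fun e he =>
    congrArg₂ (· + ·) (Nt.As_agr h (hW.mono (by omega)) e he) (v0_agr h hW hz e he)

section
variable (hr : S.t.rA S.r ≤ S.p'.R)
include hr

theorem pol_agr (hp : p.natDegree ≤ d) (hW : Agr (a + 2 * d + S.p'.R + 5) W W')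
    (hA : Agr (fb S.l (a + 2 * d)) A A') : Agr (fb S.l a) (S.pol p W A) (S.pol p W' A') :=
  polK_agr hp (H_agr (hW.mono (by omega)))
    (fun _ hy _ => Td.ka_kc h (agr_cC (hW.mono (by omega))) hy) hA

theorem dtH_agr (hW : Agr (2 * S.N + S.p'.R + 5) W W') :
    dtK S.l S.Λ S.N (S.H W) (S.ka (cC W)) = dtK S.l S.Λ S.N (S.H W') (S.ka (cC W')) :=
  dtK_agr (H_agr (hW.mono (by omega))) fun _ hy _ => Td.ka_kc h (agr_cC (hW.mono (by omega))) hy

theorem vH_agr (hW : Agr (a + 2 * S.N + S.p'.R + 5) W W') (hz : Agr (fb S.l (a + 2 * S.N)) z z') :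
    Agr (fb S.l a) (S.vH W z) (S.vH W' z') := fun e he =>
  congrArg ((S.gt : ℂ) • ·) (pol_agr h hr (Op.natDegree_pP _) hW (agr_cF hz) e he)

theorem Af_agr (hW : Agr (a + 2 * S.N + S.p'.R + 5) W W') (hz : Agr (fb S.l (a + 2 * S.N)) z z') :
    Agr (fb S.l a) (S.Af W z) (S.Af W' z') := fun e he => by
  simp only [Af, reE, Pi.add_apply, vH_agr h hr hW hz e he,
    Nt.As_agr h (n := a) (agr_cC (hW.mono (by omega))) e he]

theorem Uv_agr (hW : Agr (a + 2 * S.N + S.p'.R + 5) W W')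
    (hv : ∀ y ∈ box (a + 2 * S.N), v y = v' y) : Agr (fb S.l a) (S.Uv W v) (S.Uv W' v') :=
  fun e he => by
  have h1 := agr_lnk0 (l := S.l) (fun y hy => hv y (box_mono (Nat.le_add_right _ _) hy)) e he
  have h2 : S.r / 4 + 4 ≤ S.t.rA S.r := by simp only [Nt.rA]; omega
  have h3 := (H_agr (S := S) (hW.mono (by omega))).act he
  by_cases h4 : Act S.l (S.H W) e
  · rw [Uv_act h4, Uv_act (h3.1 h4), Af_agr h hr hW (agr_vz0 hv) e he,
      Ub_agr (Td.lin h) (hW.mono (by omega)) e he, vs, vs, h1]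
  · rw [Uv_not h4, Uv_not fun h5 => h4 (h3.2 h5), trz, trz, vU, vU, h1]

theorem dZ_agr (hW : Per S.n W) (hW' : Per S.n W') {Z : Finset St}
    (e : ∀ y ∈ Z, Agr (4 * S.N + S.p'.R + 9) (sh y W) (sh y W')) : S.dZ W Z = S.dZ W' Z := by
  rw [dZ, dZ, dmK, dmK, qdK_agr (H_per hW) (H_per hW') (ka_per hW) (ka_per hW')
    (fun y hy => ?_) fun y hy x hx _ => ?_]
  · rw [← H_sh, ← H_sh]
    exact H_agr ((e y hy).mono (by omega))
  · have := Td.ka_kc h (agr_cC ((e y hy).mono (by omega))) hx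
    rwa [← sh_cC, ← sh_cC, Td.ka_sh, Td.ka_sh] at this

end

/-! ### measurability -/

variable {Z : Type} [MeasurableSpace Z]

theorem P0_meas {W : Z → Cf} {A : Z → Fld} (hW : ∀ e, MQ fun x => W x e) (hA : Measurable A) :
    Measurable fun x => S.P0 (W x) (A x) := (Td.pol0_meas h hW hA).fun_const_smul _

theorem v0_meas {W : Z → Cf} {z : Z → Lk → E3} (hW : ∀ e, MQ fun x => W x e) (hz : Measurable z) :
    Measurable fun x => S.v0 (W x) (z x) := P0_meas h hW (meas_zc _ hz)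

theorem U0_meas {W : Z → Cf} {z : Z → Lk → E3} (hW : ∀ e, MQ fun x => W x e) (hz : Measurable z)
    (e : Lk) : MQ fun x => S.U0 (W x) (z x) e :=
  En.mq_Uz h.lin hW ((Nt.As_meas h hW).add (v0_meas h hW hz)) e

variable {W : Z → Conf} {A : Z → Fld} {z : Z → Lk → E3} {v : Z → VB} (hW : Measurable W)
include hW

omit h in
theorem H_meas (y : St) : MeasurableSet {x | y ∈ S.H (W x)} :=
  (meas_Fq (measurable_pi_lambda _ fun _ => hW.eval) _ _).compl

theorem pol_meas (hA : Measurable A) : Measurable fun x => S.pol p (W x) (A x) :=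
  polK_meas (H_meas hW) (Td.ka_meas h (mq_cC hW)) hA

theorem dtH_meas : Measurable fun x => dtK S.l S.Λ S.N (S.H (W x)) (S.ka (cC (W x))) :=
  dtK_meas (H_meas hW) (Td.ka_meas h (mq_cC hW))

theorem dZ_meas (Y : Finset St) : Measurable fun x => S.dZ (W x) Y :=
  dmK_meas (H_meas hW) (Td.ka_meas h (mq_cC hW))

theorem vH_meas (hz : Measurable z) : Measurable fun x => S.vH (W x) (z x) :=
  (pol_meas h hW (meas_cF hz)).fun_const_smul _

theorem Af_meas (hz : Measurable z) : Measurable fun x => S.Af (W x) (z x) :=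
  meas_reE ((Nt.As_meas h (mq_cC hW)).add (vH_meas h hW hz))

theorem Uv_meas (hv : Measurable v) : Measurable fun x => S.Uv (W x) (v x) :=
  measurable_pi_lambda _ fun f => Measurable.ite (measurableSet_act (H_meas hW) f)
    (((Ms.continuous_e0.measurable.comp (Af_meas h hW ((Cov.meas_vz _).comp hv)).eval).mul
      ((measurable_of_countable q8).comp ((Cov.meas_vs _).comp hv).eval)).mul
      (meas_Ub h.lin hW).eval)
    ((Mx.cont_trz _).measurable.comp ((Cov.meas_vU _).comp hv)).eval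

end Sd

end Pool.Agent.Lib.MP_7f377f_mp.RG.Q4
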