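import Pool.Agent.Lib.MP_7f377f_mp.Q4IniC
import Pool.Agent.Lib.MP_7f377f_mp.Q4Num
import Pool.Agent.Lib.MP_7f377f_mp.Q4FldA

/-! Level zero: the polymer representation of the Wilson weight. -/

noncomputable section

namespace Pool.Agent.Lib.MP_7f377f_mp.RG.Q4

open Finset Filter In

attribute [local irreducible] box lbox

/-- the activities of a product of weights of sites -/
def KI (p : Pa) (n : ℕ) (w : St → Conf → ℂ) : Ac := fun X c U =>
  K0 n (p.R + 1) (2 * p.R + 4) (fun x U => chi p U x) w X c (pc n U)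

/-- their majorant -/
def kI (p : Pa) (n : ℕ) (b0 : ℝ) : Mj := k0 n (p.R + 1) (2 * p.R + 4)
  (b0 * p.ε ^ 2 / (64 * (2 * p.R + 3) ^ 4) - 16 * (2 * p.R + 3) ^ 4 * p.lam ^ 2 / b0)

/-- weights which depend on the plaquettes at one site and have Gaussian decay -/
structure Wz (b0 : ℝ) (w : St → Conf → ℂ) : Prop where
  meas : ∀ x, Measurable (w x)
  loc : ∀ y U U', (∀ μ ν, fq U y μ ν = fq U' y μ ν) → w y U = w y U'
  bd : ∀ x U, ‖w x U‖ ≤ Real.exp (-(b0 / 32 * fs U x ^ 2))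

variable {p : Pa} {n : ℕ} {w w' : St → Conf → ℂ} {b0 : ℝ} {U U' : Conf}

theorem wz_ww {b : St → Fin 4 → Fin 4 → ℂ} (h0 : 0 ≤ b0) (h : ∀ x μ ν, b0 ≤ (b x μ ν).re) :
    Wz b0 (ww b) :=
  ⟨meas_ww b, fun _ _ _ => ww_fq rfl, fun x => norm_ww h0 (h x)⟩

theorem In.pc_per {α : Type} {U : Lk → α} (hU : Per n U) : pc n U = U :=
  funext fun e => Mx.per_iff.1 hU _ _ _ (Mx.cg_rc n e.1)

theorem In.chi_fq {y y' : St}
    (h : ∀ z ∈ box (p.R + 1), ∀ μ ν, fq U (y + z) μ ν = fq U' (y' + z) μ ν) :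
    chi p U y = chi p U' y' := by
  rw [chi, chi, show Fq (p.R + 1) p.ε (sh y U) ↔ Fq (p.R + 1) p.ε (sh y' U') from
    forall₂_congr fun z hz => by simp only [Mx.fq_sh, add_comm z, h z hz]]

theorem In.chi_cases (p : Pa) (U : Conf) (y : St) :
    chi p U y = 1 ∨ chi p U y = 0 ∧ ∃ z ∈ box (p.R + 1), p.ε < fs U (y + z) := by
  unfold chi
  split_ifs with h
  · exact .inl rfl
  · simp only [Fq, not_forall, not_le, Mx.fq_sh] at h
    obtain ⟨z, hz, μ, ν, h⟩ := h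
    exact .inr ⟨rfl, z, hz, add_comm z y ▸ h.trans_le (fq_le_fs U _ μ ν)⟩

theorem In.chi_meas (p : Pa) (y : St) : Measurable fun U => chi p U y :=
  .ite (meas_Fq (measurable_pi_lambda _ fun _ => measurable_pi_apply _) _ _) measurable_const
    measurable_const

theorem KI_km (hn : Odd n) (h : Wz b0 w) (h0 : 0 < b0) (hε : 0 ≤ p.ε) :
    KM p n (kI p n b0) (KI p n w) := by
  refine ⟨fun X c => (K0_meas (chi_meas p) h.meas).comp (Mx.cont_pc n).measurable,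
    fun X c U => by rw [KI, KI, pc_per (Mx.per_pc n U)], fun X c U U' e => K0_dep hn
      (d := p.R + 1) (by omega) (fun y U U' => chi_fq) h.loc fun b hb => e (rc n b.1, b.2) ?_,
    fun X c u U hu => ?_, fun X c U hU => ?_⟩
  · simpa only [Set.mem_ofPred_eq, rc_rc, rc_add_rc] using hb
  · rw [KI, KI, Mx.pc_gauge (Mx.PS_iff.1 hu)]
    exact K0_congr hn (d := 0) (by omega) fun y _ _ =>
      ⟨chi_fq fun _ _ => Mx.fq_gauge _ _ _, h.loc _ _ _ (Mx.fq_gauge _ _ _)⟩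
  · rw [KI, pc_per hU]
    refine (K0_le hn hU h0 hε (fun x _ => h.bd x U) (chi_cases p U) (lam := p.lam)).trans_eq ?_
    rw [kI, Rg]
    push_cast
    ring_nf

theorem KI_rep (hn : Odd n) (hU : Per n U) {Φ : Lx}
    (h : ∀ x, Fq (p.R + 1) p.ε (sh x U) → w x U = Complex.exp (-Φ x (Bx x (cC U)))) :
    ∏ x ∈ box (n / 2), w x U = Rep p n Φ (KI p n w) U := by
  rw [init_eq hn (show p.R + 1 ≤ 2 * p.R + 4 by omega) (fun x U => chi p U x) w U, Rep]
  simp only [KI, pc_per hU]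
  congr 1
  funext x
  unfold Ix chi
  split_ifs with h1
  · rw [h x h1]
  · simp

theorem KI_real (h : ∀ x U, (w x U).im = 0) : RealA (KI p n w) := fun _ _ U =>
  K0_real (fun x => by unfold chi; split_ifs <;> simp) fun x => h x _

theorem KI_diff {Ω : Set ℂ} {w : ℂ → St → Conf → ℂ}
    (h : ∀ x U, DifferentiableOn ℂ (w · x U) Ω) (X : Finset St) (c : Finset (Finset St))
    (U : Conf) : DifferentiableOn ℂ (fun s => KI p n (w s) X c U) Ω := K0_diff fun x => h x _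

/-- equivariance -/
theorem KI_tr (hn : Odd n) (v : St) (h : ∀ y ∈ box (n / 2), ∀ U U', (∀ μ ν,
      fq U (rc n (y + v)) μ ν = fq U' y μ ν) → w (rc n (y + v)) U = w' y U')
    {o : LP St} (ho : o ∈ lps (box (n / 2))) :
    trA n v (KI p n w) o.1 o.2 = KI p n w' o.1 o.2 := by
  obtain ⟨h1, -, h2⟩ := mem_lps.1 ho
  funext U
  have hU := (Mx.per_pc n U).sh (-v)
  rw [trA, KI, KI, pc_per hU]
  have e : ∀ y z μ ν, fq (sh (-v) (pc n U)) (rc n (y + v) + z) μ ν = fq (pc n U) (y + z) μ ν :=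
    fun y z μ ν => by
    rw [← fq_rc hU, rc_add_rc, fq_rc hU, Mx.fq_sh, add_right_comm y, add_neg_cancel_right]
  exact K0_sh hn v h1 (fun C hC => ((mem_fams.1 h2).1 C hC).trans h1) fun y hy =>
    ⟨chi_fq fun z _ => e y z, h y hy _ _ (by simpa using e y 0)⟩

/-- locality in the weights -/
theorem KI_loc (hn : Odd n) {X : Finset St} (h : ∀ y ∈ X, w y = w' y) (c : Finset (Finset St)) :
    KI p n w X c = KI p n w' X c := funext fun _ =>
  K0_congr hn (d := 0) (by omega) fun y hy e => ⟨rfl, by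
    rw [h y (e (mem_tb_single.2 ⟨rc_eq hn hy, nearT.refl _ _ _⟩))]⟩

theorem Tc.weak {R : ℕ} {ρ C C' : ℝ} {T : Fld → ℂ} (h : Tc R ρ C T) (hC : C ≤ C') : Tc R ρ C' T :=
  ⟨h.loc, h.hol, fun B d a b => (h.bd B d a b).trans
    (mul_le_mul_of_nonneg_right hC (pow_nonneg a.nonneg 3)), h.ad, h.meas⟩

namespace Sd.Nu

variable {S : Sd} {a : ℕ} (h : S.Nu a)
include h

theorem ε_small : 10 ^ 6 * S.p.ε ≤ 1 := by
  have h1 := h.ok.Qg_le (i := 3) (j := 1) (by norm_num)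
  have h2 := mul_le_mul_of_nonneg_right h.r_le_Q (mul_pos (pow_pos S.Q0 2) h.ok.g0).le
  have h3 := mul_le_mul_of_nonneg_right (h.cQ' (C := 10 ^ 6) (by norm_num))
    (mul_pos (pow_pos S.Q0 3) h.ok.g0).le
  nlinarith [h.ε_le]

theorem vol_R : 10 ^ 4 * (4 * S.p.R + 9 : ℝ) ^ 4 ≤ S.Q := by
  have h1 : (1 : ℝ) ≤ S.D0 := by exact_mod_cast D1 _
  have h2 : 1 ≤ S.L * S.D0 := one_le_mul_of_one_le_of_one_le (L1 _) h1
  have h3 := mul_le_mul_of_nonneg_right (h.crL (C := 250) (k := 1)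
    (le_trans (by norm_num) (pow_le_pow_right₀ (by norm_num) (Nat.le_add_left 20 a))) (by omega))
    (Nat.cast_nonneg S.D0)
  have h4 := one_le_mul_of_one_le_of_one_le h.r1' h1
  have := h.vol (x := 10 * (4 * S.p.R + 9)) (j := 4) (by positivity)
    (by nlinarith [h.R_le]) (by omega)
  linarith

/-- the norm of the majorant, with slack in the weight -/
theorem kI_sum {b0 s : ℝ} (h1 : S.β / 4 ≤ b0) (s0 : 0 ≤ s) (hs : s ≤ S.Q) {j : ℕ} (h3 : j ≤ 30) :
    kN { S.p with a := S.p.a + s } S.nf (kI S.p S.nf b0) (S.g ^ (j + 1)) := by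
  have hv := h.vol_R
  have g0 := h.ok.g0
  have β0 := h.ok.β0
  have q1 := h.ok.QQM
  have q2 := h.cQ' (C := 100) (by norm_num)
  have q3 : 0 < S.QM := by linarith
  have l0 := h.logQ_ge
  have a0 : 0 ≤ S.p.a := le_trans (by rw [p'_a]; linarith) h.a_ge
  have a1 : S.p.a ≤ 4 * S.Q := h.a_le.trans (by linarith [Real.log_le_self S.Q0.le])
  obtain ⟨M, hM⟩ : ∃ M : ℝ, M = (2 * S.p.R + 3) ^ 4 := ⟨_, rfl⟩
  have M0 : 0 < M := by rw [hM]; positivity
  have M1 : M ≤ (4 * S.p.R + 9) ^ 4 := hM ▸ pow_le_pow_left₀ (by positivity)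
    (by linarith [(Nat.cast_nonneg S.p.R : (0 : ℝ) ≤ _)]) 4
  have e : (2 * (2 * S.p.R + 4 : ℕ) + 1 : ℝ) = 4 * S.p.R + 9 := by push_cast; ring
  have hD := h.ok.DM.trans' (D1 _)
  refine ⟨k0_nonneg _ _ _ _, fun x => ?_⟩
  have := k0_sum h.ok.odd_nf (R := S.p.R + 1) (R' := 2 * S.p.R + 4) (DD := S.p.D)
    (γ := b0 * S.p.ε ^ 2 / (64 * M) - 16 * M * S.p.lam ^ 2 / b0) (a := S.p.a + s) (G0 := S.p.G0)
    (G2 := S.p.G2) (θ := S.g ^ (j + 1)) (by omega) (by rw [p_R, p_D]; omega) (by rw [p_D]; omega)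
    (by linarith) (by rw [p_G0]; positivity) (by rw [p_G2]; linarith) ?_ ?_ x
  · rw [hM] at this
    convert this using 2
    rfl
  · have b1 : 30 * S.QM ^ 3 ≤ b0 * S.p.ε ^ 2 / (64 * M) := by
      rw [le_div_iff₀ (by positivity), p_ε]
      calc _ = S.QM ^ 3 / 4 * (7680 * M) := by ring
        _ ≤ S.QM ^ 3 / 4 * S.QM := by gcongr; linarith
        _ = S.β / 4 * (S.QM ^ 2 * S.g) ^ 2 := by linear_combination (-S.QM ^ 4 / 4) * h.ok.βg
        _ ≤ _ := by gcongr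
    have b2 : 16 * M * S.p.lam ^ 2 / b0 ≤ S.QM := by
      rw [div_le_iff₀ (by linarith), p_lam, inv_pow, inv_eq_of_mul_eq_one_left h.ok.βg]
      nlinarith
    have b3 : 2 * S.QM ≤ S.QM ^ 3 := by
      rw [pow_succ]
      exact mul_le_mul_of_nonneg_right (by nlinarith) q3.le
    rw [e, p_G0, p_G2]
    refine le_trans ?_ (h.exp_g (i := 1) h.r_le_Q (by norm_num) (by omega))
    rw [pow_one]
    exact mul_le_mul (by linarith) (Real.exp_le_exp.2 (by linarith)) (Real.exp_nonneg _) S.Q0.le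
  · have b1 : S.g ^ (j + 1) ≤ S.g := pow_le_of_le_one g0.le h.ok.g1 (by omega)
    have b2 := h.ok.Qg_le (i := 0) (j := 1) (by norm_num)
    rw [e]
    simp only [pow_one, pow_zero, one_mul] at b2
    exact (mul_le_mul (by linarith) b1 (by positivity) S.Q0.le).trans b2

theorem kI_kn {b0 : ℝ} (h1 : S.β / 4 ≤ b0) {j : ℕ} (h3 : j ≤ 30) :
    kN S.p S.nf (kI S.p S.nf b0) (S.g ^ (j + 1)) := by
  simpa using h.kI_sum h1 le_rfl S.Q0.le h3

theorem ε0 : 0 < S.p.ε := (mul_pos (pow_pos S.Q0 2) h.ok.g0).trans_le h.ε_ge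

theorem KI_km' {w : St → Conf → ℂ} {b0 : ℝ} (h1 : S.β / 4 ≤ b0) (hw : Wz b0 w) :
    KM S.p S.nf (kI S.p S.nf b0) (KI S.p S.nf w) :=
  KI_km h.ok.odd_nf hw (by linarith [h.ok.β0]) h.ε0.le

theorem wd_chart {U : Conf} {x : St} (hx : Fq (S.p.R + 1) S.p.ε (sh x U)) :
    cx m0 (Bx x (cC U)) (Bx x (cC U)) + TW (Bx x (cC U)) = wd (sh x U) :=
  wd_eq (fun y hy μ ν => by
    rw [add_comm, ← Mx.fq_sh]; exact hx y (box_mono (by omega) hy) μ ν)
    (by linarith [h.ε_small, h.ε0])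

/-- the tree data at level zero -/
theorem tr_zero {v : ℝ} (h1 : 2⁻¹ ≤ v) (h2 : v ≤ 2) (hm : S.m = v • m0)
    (hT : S.T = fun B => v * TW B) : S.Tr S.M 0 v 0 := by
  have e := h.exps
  have r1 := h.r1
  have a : ∀ k, 1 ≤ k → (10 : ℝ) ^ 9 ≤ (S.M : ℝ) ^ k := fun k hk =>
    ((h.cL' (by norm_num)).trans (le_self_pow₀ (L1 _) (by omega))).trans (h.ok.LM_pow k)
  refine ⟨⟨2, le_rfl, by norm_num, hm ▸ ch_zero (by omega) h1⟩, ?_, fun B hB => by
    simp [hT, TW_real B hB]⟩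
  rw [hT]
  refine ((tc_TW (by omega) ?_).smul v).weak ?_
  · rw [one_div]
    exact inv_anti₀ (by norm_num) (le_trans (by norm_num) (a _ (by omega)))
  · rw [abs_of_nonneg (by linarith)]
    linarith [a S.Kt (by omega)]

/-- the Wilson weight with a coupling which depends on the site -/
theorem init_rep {v : ℝ} (hm : S.m = v • m0) (hT : S.T = fun B => v * TW B) (s : St → ℂ)
    {U : Conf} (hU : Per S.nf U) :
    ∏ x ∈ box (S.nf / 2), ww (fun x _ _ => v * S.β + s x) x U =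
      Rep S.p S.nf (S.Φ fun x B => s x * (cx m0 B B + TW B))
        (KI S.p S.nf (ww fun x _ _ => v * S.β + s x)) U :=
  KI_rep h.ok.odd_nf hU fun x hx => by
    refine (ww_const _ x U).trans ?_
    rw [Φ, hm, hT, cx_smul, ← h.wd_chart hx]
    congr 1
    ring

/-- the Wilson weight -/
theorem init {v : ℝ} (h1 : 2⁻¹ ≤ v) (hm : S.m = v • m0) (hT : S.T = fun B => v * TW B) :
    ∃ k K, KM S.p S.nf k K ∧ kN S.p S.nf k (S.g ^ 3) ∧ RealA K ∧ TCov S.nf 0 K ∧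
      ∀ U, Per S.nf U → (wil (v * S.β) S.nf U : ℂ) = Rep S.p S.nf (S.Φ 0) K U := by
  have b : S.β / 4 ≤ v * S.β := by nlinarith [h.ok.β0]
  refine ⟨_, _, h.KI_km' b (wz_ww (b := fun _ _ _ => (v * S.β : ℝ)) (by linarith [h.ok.β0])
    fun _ _ _ => le_rfl), h.kI_kn b (by norm_num), KI_real fun x U => ww_real fun _ _ => rfl,
    fun v => ⟨rfl, fun o ho => KI_tr h.ok.odd_nf v (fun _ _ _ _ => ww_fq rfl) ho⟩, fun U hU => ?_⟩
  have := h.init_rep hm hT 0 hU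
  simp only [Pi.zero_apply, add_zero, zero_mul] at this
  rw [wil_eq_prod]
  push_cast
  exact this

end Sd.Nu

end Pool.Agent.Lib.MP_7f377f_mp.RG.Q4
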