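import Pool.Agent.Lib.MP_7f377f_mp.Q4TorA
import Pool.Agent.Lib.MP_7f377f_mp.Q4Ini

/-! Cross torus locality of one step. -/

noncomputable section

namespace Pool.Agent.Lib.MP_7f377f_mp.RG.Q4

open Finset MeasureTheory Filter
open scoped Classical

attribute [local irreducible] box lbox tb tau rc

/-- the same step on another torus -/
def Sd.tor (S : Sd) (n : ℕ) : Sd := { S with n := n }

/-- the data agree in the box of radius `R` -/
def AgT (R : ℕ) (ψ ψ' : Lx) (K K' : Ac) : Prop :=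
  (∀ x ∈ box R, ψ x = ψ' x) ∧ ∀ o ∈ lps (box R), K o.1 o.2 = K' o.1 o.2

theorem AgT.mono {R R' : ℕ} {ψ ψ' : Lx} {K K' : Ac} (h : AgT R ψ ψ' K K') (hR : R' ≤ R) :
    AgT R' ψ ψ' K K' :=
  ⟨fun x hx => h.1 x (box_mono hR hx), fun o ho => h.2 o (mem_lps.2
    ⟨fun _ hx => box_mono hR ((mem_lps.1 ho).1 hx), (mem_lps.1 ho).2⟩)⟩

theorem Sd.Ok.tor {S : Sd} (h : S.Ok) {n : ℕ} (hn : Odd n) (hl : S.n ≤ n) : (S.tor n).Ok :=
  ⟨h.c1, h.size, hn, h.vol.trans hl, h.low, h.le, h.two, h.upp⟩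

theorem Sd.Nu.tor {S : Sd} {a : ℕ} (h : S.Nu a) {n : ℕ} (hn : Odd n) (hl : S.n ≤ n) :
    (S.tor n).Nu a := ⟨h.ok.tor hn hl, h.Kt_ge, h.K0_ge, h.K_ge, h.r_ge, h.r_le, h.ex⟩

theorem ev0_tor {c : ℕ} {P : Sd → Prop} (h : ∀ᶠ S in ev0 c, P S) :
    ∀ᶠ S in ev0 c, ∀ n, Odd n → S.n ≤ n → P (S.tor n) :=
  h.imp fun _ h Kt h0 => (h Kt h0).imp fun _ h K0 h1 => (h K0 h1).imp fun _ h K h2 B =>
    (h K h2 B).imp fun _ h S o e0 e1 e2 e3 e4 e5 n hn hl =>
      h (S.tor n) (o.tor hn hl) e0 e1 e2 e3 e4 e5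

theorem ev_tor {c : ℕ} {P : Sd → Prop} (h : ∀ᶠ S in ev c, P S) :
    ∀ᶠ S in ev c, ∀ n, Odd n → S.n ≤ n → P (S.tor n) :=
  eventually_inf_principal.2 ((ev0_tor (eventually_inf_principal.1 h)).mono
    fun _ h ht n hn hl => h n hn hl ht)

namespace Tor

variable {S : Sd} {n' R : ℕ} {ψ ψ' : Lx} {K K' : Ac} {W : Conf} {ω : VB} {O : Finset Ob}
  {X Y : Finset St} {y : St} {o : Ob} {k : Mj} {P : ℝ}

/-- both tori are larger than the box of radius `R` -/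
structure Tw (S : Sd) (n' R : ℕ) : Prop where
  u : S.Nu 0
  u' : (S.tor n').Nu 0
  big : 2 * (R + 20 * S.D0) < S.n
  big' : 2 * (R + 20 * S.D0) < n'

theorem bs_dom (hn : Odd S.n) (ho : o ∈ S.obs) : S.bs o ⊆ box (S.n / 2) := by
  have a : ∀ X, dn S.l S.n X ⊆ box (S.n / 2) := fun X => image_subset_iff.2 fun _ _ => rc_mem hn _
  rcases o with (o | y | y) | y | q | q | Z <;>
    simp only [Sd.obs, Sd.mks, Sd.Λ', inl_mem_disjSum, inr_mem_disjSum, mem_product, mem_erase,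
      mem_powerset] at ho <;>
    simp only [Sd.bs, a, singleton_subset_iff, insert_subset_iff, ho, rc_mem hn, and_self]

theorem bs_sp (hn : Odd S.n) (ho : o ∈ S.obs) : S.bs o ⊆ S.sp o :=
  sub_tb fun _ hx => rc_eq hn (bs_dom hn ho hx)

namespace Tw

variable (h : Tw S n' R)
include h

theorem symm : Tw (S.tor n') S.n R := ⟨h.u', h.u, h.big', h.big⟩

theorem odd : Odd S.n := h.u.ok.odd

theorem odd' : Odd n' := h.u'.ok.odd

theorem tb {D : ℕ} (hD : D ≤ 20 * S.D0) (hX : X ⊆ box R) : tb n' D X = tb S.n D X :=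
  tb_tor h.odd' h.odd (by have := h.big'; omega) (by have := h.big; omega) hX

theorem dn {a : ℕ} (ha : a ≤ R + 20 * S.D0) (hX : X ⊆ box (fb S.l a)) :
    dn S.l n' X = dn S.l S.n X :=
  dn_tor h.odd' h.odd (by have := h.big'; omega) (by have := h.big; omega) hX

theorem fb_le {a : ℕ} (ha : a ≤ R + 20 * S.D0) : fb S.l a ≤ S.nf / 2 :=
  Sd.nf_half h.odd ▸ Op.fb_mono _ (by have := h.big; omega)

theorem X1 (hX : X ∈ S.X1s) : X ∈ (S.tor n').X1s := by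
  have a := Sd.X1_sub h.u hX
  have l := h.u.lens
  have b := Nat.mul_le_mul_left (LL S.l) h.u.ok.vol
  have d := Nat.mul_le_mul_left (LL S.l) (Sd.D1 S.toTd)
  refine mem_filter.2 ⟨mem_powerset.2 fun x hx => box_mono (h.symm.fb_le (a := S.D0) ?_) (a hx),
    tau_tor ?_ a (mem_filter.1 hX).2.1 _, (h.dn (by omega) a).symm ▸ (mem_filter.1 hX).2.2⟩
  · change _ ≤ R + 20 * S.D0
    omega
  rw [mul_left_comm] at b
  rw [Sd.p_D, fb, Sd.nf, mul_comm S.D0]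
  generalize LL S.l * S.D0 = x at *
  unfold LL at *
  omega

theorem X1s : (S.tor n').X1s = S.X1s := Subset.antisymm (fun _ => h.symm.X1) fun _ => h.X1

theorem Fs (hX : X ∈ S.X1s) (K : Ac) : (S.tor n').Fs K X = S.Fs K X := funext fun B =>
  congrArg (fun Z : Finset St => ctr S.p'.R S.p'.ρ (S.Fsr K X) B / Z.card)
    (h.dn (by omega) (Sd.X1_sub h.u hX))

theorem Pl (ψ : Lx) (K : Ac) : (S.tor n').Pl ψ K = S.Pl ψ K := funext fun B => by
  rw [Sd.Pl, Sd.Pl, h.X1s, sum_congr rfl fun X hX => by rw [h.Fs hX]]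
  rfl

theorem cX (ψ : Lx) (K : Ac) : (S.tor n').cX ψ K = S.cX ψ K := by
  rw [Sd.cX, Sd.cX, h.X1s, sum_congr rfl fun X hX => by rw [h.Fs hX]]
  rfl

theorem X1_up (hX : X ∈ S.X1s) (hy : y ∈ box R) {x : St} (hx : x ∈ X) :
    x + up S.l y ∈ box (fb S.l (S.D0 + R)) := by
  rw [Op.mem_fb, yo_add_up]
  exact add_mem_box (Op.mem_fb.1 (Sd.X1_sub h.u hX hx)) hy

theorem trS (hX : X ∈ S.X1s) (hy : y ∈ box R) :
    trS (S.tor n').nf (up S.l y) X = trS S.nf (up S.l y) X :=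
  img_tor h.u'.ok.odd_nf h.u.ok.odd_nf (h.symm.fb_le (a := S.D0 + R) (by
    change _ ≤ R + 20 * S.D0
    omega)) (h.fb_le (by omega)) fun _ => h.X1_up hX hy

theorem old {o : LP St} (ho : o ∈ lps (box (S.nf / 2))) (hs : RG.Q4.dn S.l S.n o.1 ⊆ box R) :
    o ∈ lps (box (fb S.l R)) :=
  mem_lps.2 ⟨dn_sub h.odd (Sd.nf_half h.odd ▸ (mem_lps.1 ho).1) hs, (mem_lps.1 ho).2⟩

theorem smk {q : St × Finset St} (ho : (.inr (.inr (.inr (.inl q))) : Ob) ∈ S.obs)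
    (hs : S.bs (.inr (.inr (.inr (.inl q)))) ⊆ box R) : q.1 ∈ box R ∧ q.2 ∈ S.X1s := by
  have a := hs (Fx.smk_bs ho)
  simp only [Sd.obs, Sd.mks, inl_mem_disjSum, inr_mem_disjSum, mem_product] at ho
  exact ⟨rc_eq h.odd ho.1 ▸ a, ho.2⟩

theorem obs (ho : o ∈ S.obs) (hs : S.sp o ⊆ box R) :
    o ∈ (S.tor n').obs ∧ S.sp o = (S.tor n').sp o := by
  have a := (bs_sp h.odd ho).trans hs
  have b := h.big
  have b' := h.big'
  have c : ∀ {y}, y ∈ box R → y ∈ box (n' / 2) := box_mono (by omega)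
  suffices H : o ∈ (S.tor n').obs ∧ (S.tor n').bs o = S.bs o from
    ⟨H.1, by rw [Sd.sp, Sd.sp, H.2]; exact (h.tb (by omega) a).symm⟩
  have ho' := ho
  rcases o with (o | y | y) | y | q | q | Z <;>
    simp only [Sd.obs, Sd.mks, Sd.Λ', inl_mem_disjSum, inr_mem_disjSum, mem_product, mem_erase,
      mem_powerset] at ho ⊢
  · have d := mem_lps.1 (h.old ho a)
    exact ⟨mem_lps.2 ⟨fun x hx => box_mono (h.symm.fb_le (Nat.le_add_right _ _)) (d.1 hx), d.2⟩,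
      h.dn (Nat.le_add_right _ _) d.1⟩
  · exact ⟨c (a (mem_singleton_self _)), rfl⟩
  · exact ⟨c (a (mem_singleton_self _)), rfl⟩
  · exact ⟨c (a (mem_singleton_self _)), rfl⟩
  · have d := a (mem_insert_self _ _)
    have e := add_mem_box d (mem_erase.1 ho.2).2
    exact ⟨⟨c d, ho.2⟩, congrArg (fun z => ({q.1, z} : Finset St))
      ((rc_box h.odd' (by omega) e).trans (rc_box h.odd (by omega) e).symm)⟩
  · have d := (h.smk ho' a).1
    refine ⟨⟨c d, h.X1 ho.2⟩, (congrArg (RG.Q4.dn S.l n') (h.trS ho.2 d)).trans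
      (h.dn (a := S.D0 + R) (by omega) (image_subset_iff.2 fun x hx => ?_))⟩
    have e := h.X1_up ho.2 d hx
    rwa [rc_box h.u.ok.odd_nf (h.fb_le (by omega)) e]
  · exact ⟨⟨ho.1, fun _ hx => c (a hx)⟩, rfl⟩

theorem clus (hY : Y ⊆ box R) : clus (S.tor n').sp (S.tor n').obs Y = clus S.sp S.obs Y :=
  Subset.antisymm (clus_sub fun _ ho hs => h.symm.obs ho (hs.trans hY))
    (clus_sub fun _ ho hs => h.obs ho (hs.trans hY))

theorem Din (hY : Y ⊆ box R) : (S.tor n').Din Y = S.Din Y := filter_congr fun y hy => by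
  have := Sd.D1 S.toTd
  rw [← h.tb (by rw [Sd.p'_R]; omega) (singleton_subset_iff.2 (hY hy))]
  rfl

theorem near (hy : y ∈ box R) (hs : RG.Q4.tb S.n S.D0 {y} ⊆ box R) :
    ∀ u ∈ box S.D0, u + y ∈ box R := fun u hu => by
  have := h.big
  exact hs (mem_tb_single.2 ⟨rc_box h.odd (by omega) (add_mem_box hu hy),
    add_comm y u ▸ nearT_add hu⟩)

section fam

variable (hO : O ⊆ S.obs) (hY : RG.Q4.us S.sp O ⊆ box R)
include hO hY

theorem bs (ho : o ∈ O) : S.bs o ⊆ box R :=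
  (bs_sp h.odd (hO ho)).trans ((sp_sub_us _ ho).trans hY)

theorem olds {o : LP St} (ho : o ∈ olds O) : o ∈ lps (box (fb S.l R)) :=
  h.old (Xp.olds_sub hO ho) (h.bs hO hY (Xp.mem_olds.1 ho))

theorem dnC {C : Finset St} (hC : C ∈ CC O) : RG.Q4.dn S.l n' C = RG.Q4.dn S.l S.n C := by
  obtain ⟨o, ho, hC⟩ := mem_biUnion.1 hC
  have a := mem_lps.1 (h.olds hO hY ho)
  exact h.dn (Nat.le_add_right _ _) (((mem_fams.1 a.2.2).1 C hC).trans a.1)

theorem us : us (S.tor n').sp O = us S.sp O :=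
  us_congr fun _ ho => (h.obs (hO ho) ((sp_sub_us _ ho).trans hY)).2.symm

theorem hole : Hh S.l S.n (CC O) (Wk O) ∪ Dbl O ⊆ box R :=
  (Xp.hole_bs hO).trans (biUnion_subset.2 fun _ => h.bs hO hY)

theorem Oh : (S.tor n').Oh O = S.Oh O := by
  rw [Sd.Oh, Sd.Oh, ← h.tb (by omega) (h.hole hO hY), Hh, Hh,
    ← biUnion_congr rfl fun _ => h.dnC hO hY]
  rfl

theorem lab (W : Conf) : (S.tor n').lab W O = S.lab W O := by
  have a : ∀ o ∈ (CC O).disjSum (Wk O), zsp S.l n' (3 * S.D0) o = zsp S.l S.n (3 * S.D0) o := by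
    rintro (C | y) ho
    · have b := inl_mem_disjSum.1 ho
      rw [zsp, zsp, pb, pb, h.dnC hO hY b]
      exact h.tb (by omega) fun x hx => h.hole hO hY
        (mem_union_left _ (mem_union_left _ (mem_biUnion.2 ⟨C, b, hx⟩)))
    · exact h.tb (by omega) (singleton_subset_iff.2 (h.hole hO hY
        (mem_union_left _ (mem_union_right _ (inr_mem_disjSum.1 ho)))))
  have e : zones S.l n' (3 * S.D0) (CC O) (Wk O) = zones S.l S.n (3 * S.D0) (CC O) (Wk O) := by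
    rw [zones, zones, comps_congr a]
    exact image_congr fun O1 h1 => us_congr fun o ho => a o ((mem_comps.1 h1).1 ho)
  refine (congrArg (filter _) e).trans (filter_congr fun Z hZ => not_congr (and_congr_left' ?_))
  have b : Z ⊆ box R := fun y hy => hY (Xp.Oh_sp hO (tb_mono subset_union_left (by omega)
    (zones_union ▸ mem_biUnion.2 ⟨Z, hZ, hy⟩)))
  exact ⟨fun e => tau_tor h.big' b e _, fun e => tau_tor h.big b e _⟩

theorem wf (W : Conf) : (S.tor n').wf W O = S.wf W O := by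
  rw [Sd.wf, Sd.wf, h.lab hO hY]
  rfl

end fam

variable (hd : S.n ∣ n')
include hd

theorem dZ (hX : X ⊆ box R) (W : Conf) : (S.tor n').dZ W X = S.dZ W X := by
  have l := h.u.lens
  have b := h.big
  exact congrArg (fun z => Complex.exp z - 1) (qG_tor (D := 4 * S.N + 2) h.odd h.odd'
    (Nat.div_le_div_right (Nat.le_of_dvd h.odd'.pos hd)) (by omega) rn_topK hX)

variable (hK : KM S.p (S.tor n').nf k K') (ag : AgT (fb S.l R) ψ ψ' K K')
include hK ag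

theorem Ky (hX : X ∈ S.X1s) (hy : y ∈ box R)
    (hs : RG.Q4.dn S.l S.n (RG.Q4.trS S.nf (up S.l y) X) ⊆ box R) :
    S.Ky K y X ∅ = (S.tor n').Ky K' y X ∅ := funext fun U => by
  have a := ag.2 _ (h.old (Sh.trP_mem h.u.ok.odd_nf (Sh.X1_lps hX) _) hs)
  refine (congrFun a _).trans ?_
  change K' (RG.Q4.trS S.nf (up S.l y) X) ∅ _ = K' (RG.Q4.trS (S.tor n').nf (up S.l y) X) ∅ _
  rw [← h.trS hX hy]
  refine hK.dep _ _ fun b hb => ?_
  obtain ⟨x, hx, e⟩ := mem_image.1 hb.1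
  have e1 : rc (S.tor n').nf (b.1 + -up S.l y) = x := by
    rw [← rc_add_rc, ← e, rc_add_rc, add_neg_cancel_right]
    exact rc_eq h.u'.ok.odd_nf (Sd.X1_dom (h.X1 hX) hx)
  change U (rc S.nf (b.1 + -up S.l y), b.2) = U (rc (S.tor n').nf (b.1 + -up S.l y), b.2)
  rw [← rc_dvd (show S.nf ∣ (S.tor n').nf from Nat.mul_dvd_mul_left (LL S.l) hd), e1,
    rc_eq h.u.ok.odd_nf (Sd.X1_dom hX hx)]

omit h hd hK in
theorem blk (hy : y ∈ box R) {x : St} (hx : x ∈ box S.l) : ψ (x + up S.l y) = ψ' (x + up S.l y) :=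
  ag.1 _ (by rwa [Op.mem_fb, Op.yo_add_box hx])

omit hd hK in
theorem ψy (hy : y ∈ box R) {x : St} (hx : x ∈ box S.l) :
    S.ψy ψ y x = (S.tor n').ψy ψ' y x := by
  have a : x + up S.l y ∈ box (fb S.l R) := by rwa [Op.mem_fb, Op.yo_add_box hx]
  change ψ (rc S.nf (x + up S.l y)) = ψ' (rc (S.tor n').nf (x + up S.l y))
  rw [rc_box h.u.ok.odd_nf (h.fb_le (Nat.le_add_right _ _)) a,
    rc_box h.u'.ok.odd_nf (h.symm.fb_le (Nat.le_add_right _ _)) a]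
  exact ag.1 _ a

theorem ag0 (hy : ∀ u ∈ box S.D0, u + y ∈ box R) :
    Sh.Ag0 S (S.ψy ψ y) ((S.tor n').ψy ψ' y) (S.Ky K y) ((S.tor n').Ky K' y) := by
  have a : y ∈ box R := zero_add y ▸ hy 0 (zero_mem_box _)
  refine ⟨fun x => h.ψy ag a, fun X hX => h.Ky hd hK ag hX a fun z hz => ?_⟩
  rw [Sd.nf, Sh.dn_trS, RG.Q4.trS, RG.Q4.dn, image_image] at hz
  obtain ⟨x, hx, rfl⟩ := mem_image.1 hz
  have b := hy _ (Op.mem_fb.1 (Sd.X1_sub h.u hX hx))
  have c := h.big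
  rwa [Function.comp, rc_add_rc, rc_box h.odd (by omega) b]

theorem PL (hy : ∀ u ∈ box S.D0, u + y ∈ box R) : S.PL ψ K y = (S.tor n').PL ψ' K' y :=
  (Sh.Pl_ag (h.ag0 hd hK ag hy)).trans (h.Pl _ _).symm

theorem cXy (hy : ∀ u ∈ box S.D0, u + y ∈ box R) : S.cX (S.ψy ψ y) (S.Ky K y) =
    (S.tor n').cX ((S.tor n').ψy ψ' y) ((S.tor n').Ky K' y) :=
  (Sh.cX_ag (h.ag0 hd hK ag hy)).trans (h.cX _ _).symm

theorem Ey (hy : ∀ u ∈ box S.D0, u + y ∈ box R) : S.Ey ψ K y = (S.tor n').Ey ψ' K' y := by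
  rw [Sd.Ey, Sd.Ey, h.cXy hd hK ag hy]
  rfl

theorem FO (hO : O ⊆ S.obs) (hY : RG.Q4.us S.sp O ⊆ box R) :
    (S.tor n').FO ψ' K' W O ω = S.FO ψ K W O ω := by
  have e1 : ∀ o ∈ RG.Q4.olds O, K' o.1 o.2 (S.Uv W ω) = K o.1 o.2 (S.Uv W ω) := fun o ho =>
    (congrFun (ag.2 o (h.olds hO hY ho)) _).symm
  have e2 : ∀ y ∈ S.Oh O, (S.tor n').hf ψ' K' W ω O y = S.hf ψ K W ω O y := fun y hy => by
    have a := hY (Xp.Oh_sp hO hy)
    have b := h.near a (((tb_mono (singleton_subset_iff.2 hy) (by omega)).trans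
      (Xp.tb_Oh hO)).trans hY)
    have e : ∀ co U, (S.tor n').Ib ψ' co U y = S.Ib ψ co U y := fun co U =>
      prod_congr rfl fun x hx => by
        simp only [Ix, Sd.Φ, blk ag a (mem_filter.1 hx).1]
        rfl
    rw [Sd.hf, Sd.hf, e, h.cXy hd hK ag b, h.lab hO hY, Sd.Φ', Sd.Φ', h.PL hd hK ag b]
    rfl
  have e3 : ∀ m ∈ O.toRight, (S.tor n').jm ψ' K' W ω (S.Oh O) m = S.jm ψ K W ω (S.Oh O) m :=
    fun m hm => by
    have b := mem_toRight.1 hm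
    have a := h.bs hO hY b
    rcases m with y | q | q | Z
    · have c := h.near (a (mem_singleton_self y))
        (((tb_mono Subset.rfl (by omega)).trans (sp_sub_us S.sp b)).trans hY)
      rw [Sd.jm, Sd.jm, Sh.fm_ag (h.ag0 hd hK ag c)]
      rfl
    · rfl
    · obtain ⟨c, d⟩ := h.smk (hO b) a
      rw [Sd.jm, Sd.jm, h.Fs d, Sd.Fs_congr (h.Ky hd hK ag d c a)]
    · exact h.dZ hd a W
  rw [Sd.FO, Sd.FO, h.Oh hO hY, h.us hO hY, ← prod_congr rfl e1, prod_congr rfl e2,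
    prod_congr rfl e3]
  rfl

variable (fo : (S.tor n').Fo P) (hI : Fx.IxL S.p (S.Φ ψ'))
include fo hI

theorem wO (hO : O ⊆ S.obs) (hY : RG.Q4.us S.sp O ⊆ box R) (hW : Per S.n W) :
    (S.tor n').wO ψ' K' W O = S.wO ψ K W O := by
  have b := h.big
  have e : ∀ v, (S.tor n').FO ψ' K' W O (pcs n' v) = S.FO ψ K W O (pcs S.n v) := fun v =>
    (Fx.FO_agr fo hI hK (fun o ho => (h.obs (hO ho) ((sp_sub_us _ ho).trans hY)).1)
      (per_dvd hd hW) (per_dvd hd hW) (ps_pcs _ _) (fun _ _ _ => rfl) fun x hx => by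
        rw [h.us hO hY] at hx
        exact congrArg v ((rc_box h.odd (by omega) (hY hx)).symm.trans (rc_dvd hd x))).trans (h.FO hd hK ag hO hY)
  rw [Sd.wO, Sd.wO, h.wf hO hY, ← funext e]
  rfl

theorem Kr (hY : Y ⊆ box R) (c : Finset (Finset St)) (hW : Per S.n W) :
    (S.tor n').Kr ψ' K' Y c W = S.Kr ψ K Y c W := by
  rw [Sd.Kr, Sd.Kr, h.clus hY, h.Din hY, sum_filter, sum_filter, sum_congr rfl fun O hO => ?_]
  · rfl
  obtain ⟨h1, -, rfl⟩ := mem_clus.1 hO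
  rw [h.lab h1 hY, h.wO hd hK ag fo hI h1 hY hW]

theorem KK (hY : Y ⊆ box R) (c : Finset (Finset St)) :
    S.KK ψ K Y c = (S.tor n').KK ψ' K' Y c := funext fun U => by
  have b := h.big
  have b' := h.big'
  have d := Sd.D1 S.toTd
  refine integral_congr_ae (.of_forall fun γ => (h.Kr hd hK ag fo hI hY c (Mx.per_pc _ _)).symm.trans
    (Fx.Kr_agr fo hI hK (per_dvd hd (Mx.per_pc _ _)) (Mx.per_pc _ _) (fun e h1 _ => ?_) c))
  have a1 : rc n' e.1 ∈ box R := hY h1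
  have a2 := add_un_mem_box a1 e.2
  change γ (rc S.n (rc S.n e.1)) * U (rc S.n e.1, e.2) * (γ (rc S.n (rc S.n e.1 + un e.2)))⁻¹ =
    γ (rc n' (rc n' e.1)) * U (rc n' e.1, e.2) * (γ (rc n' (rc n' e.1 + un e.2)))⁻¹
  rw [← rc_dvd hd e.1, rc_box h.odd (by omega) a1, rc_box h.odd (by omega) a1, rc_rc,
    rc_box h.odd (by omega) a2, rc_box h.odd' (by omega) a2]

end Tw

theorem tw (u : S.Nu 0) (hd : S.n ∣ n') (hn : Odd n') (hR : 2 * (R + 20 * S.D0) < S.n) :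
    Tw S n' R :=
  have := Nat.le_of_dvd hn.pos hd
  ⟨u, u.tor hn this, hR, hR.trans_le this⟩

end Tor

/-- cross torus locality of one step -/
theorem step_tor (c : ℕ) : ∀ᶠ S in ev c, ∀ n', S.n ∣ n' → Odd n' → ∀ R,
    2 * (R + 20 * S.D0) < S.n → ∀ b k ψ ψ' K K', PU S.p b ψ' → KM S.p (S.tor n').nf k K' →
      AgT (fb S.l R) ψ ψ' K K' →
      (∀ y, (∀ u ∈ box S.D0, u + y ∈ box R) →
        S.PL ψ K y = (S.tor n').PL ψ' K' y ∧ S.Ey ψ K y = (S.tor n').Ey ψ' K' y) ∧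
      ∀ Y ⊆ box R, ∀ c', S.KK ψ K Y c' = (S.tor n').KK ψ' K' Y c' := by
  filter_upwards [ev_nu' c 0, ev_tor (Fx.ev_dt c)] with S u H n' hd hn R hR b k ψ ψ' K K' h1 h2 ag
  have h := Tor.tw u hd hn hR
  have d := H n' hn (Nat.le_of_dvd hn.pos hd) b k ψ' K' h1 h2
  exact ⟨fun y hy => ⟨h.PL hd h2 ag hy, h.Ey hd h2 ag hy⟩,
    fun Y hY c' => h.KK hd h2 ag d.fo d.ix hY c'⟩

/-- the activities at level zero do not depend on the torus -/
theorem KI_tor {p : Pa} {n n' R : ℕ} {b0 : ℝ} {w : St → Conf → ℂ} {X : Finset St} (hn : Odd n)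
    (hn' : Odd n') (hd : n ∣ n') (hR : R + (2 * p.R + 4) ≤ n / 2) (h : Wz b0 w) (hX : X ⊆ box R)
    (c : Finset (Finset St)) : KI p n w X c = KI p n' w X c := funext fun U => by
  have hl : n / 2 ≤ n' / 2 := Nat.div_le_div_right (Nat.le_of_dvd hn'.pos hd)
  have a : ∀ {m m' : ℕ}, Odd m → Odd m' → n / 2 ≤ m / 2 → n / 2 ≤ m' / 2 →
      clus (fun x => tb m (2 * p.R + 4) {x}) (box (m / 2)) X ⊆
        clus (fun x => tb m' (2 * p.R + 4) {x}) (box (m' / 2)) X := fun hm hm' g g' =>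
    Tor.clus_sub fun x hx hs => by
      have b := hX (hs (mem_tb_single.2 ⟨rc_eq hm hx, nearT.refl _ _ _⟩))
      exact ⟨box_mono (by omega) b,
        Tor.tb_tor hm hm' (by omega) (by omega) (singleton_subset_iff.2 b)⟩
  refine Eq.trans ?_ (K0_dep hn' (d := p.R + 1) (by omega) (fun y U U' => In.chi_fq) h.loc
    (x := pc n U) fun e he => ?_)
  · rw [KI, K0, K0, iK, iK, Subset.antisymm (a hn' hn hl le_rfl) (a hn hn' le_rfl hl), sum_filter,
      sum_filter]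
    refine sum_congr rfl fun O hO => ?_
    obtain ⟨h1, -, h2⟩ := mem_clus.1 hO
    have e : us (fun x => tb n (p.R + 1) {x}) O = us (fun x => tb n' (p.R + 1) {x}) O :=
      Tor.us_congr fun x hx => Tor.tb_tor hn hn' (R := R) (by omega) (by omega)
        (singleton_subset_iff.2 (hX (h2 ▸ mem_us.2 ⟨x, hx,
          mem_tb_single.2 ⟨rc_eq hn (h1 hx), nearT.refl _ _ _⟩⟩)))
    rw [iw, iw, e]
  · rw [pc, pc, ← Tor.rc_dvd hd, Tor.rc_box hn (by omega) (hX he.1)]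

/-- a radius which can be used at all levels -/
def rad (n : ℕ) : ℕ := n / 4 - 1

theorem fb_rad (l : ℕ) {n : ℕ} (hl : 1 ≤ l) (h : 8 ≤ n) : fb l (rad n) ≤ rad (LL l * n) := by
  obtain ⟨q, hq⟩ : ∃ q, n / 4 = q + 1 := ⟨n / 4 - 1, by omega⟩
  have a := Nat.mul_le_mul_left (LL l) (show 4 * (q + 1) ≤ n by omega)
  rw [mul_left_comm, mul_add, mul_one] at a
  rw [rad, rad, hq, fb, Nat.add_sub_cancel, mul_comm q]
  generalize LL l * q = x at *
  unfold LL at *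
  omega

theorem AgT.ini {p : Pa} {n n' : ℕ} {b0 : ℝ} {w : St → Conf → ℂ} (hn : Odd n) (hn' : Odd n')
    (hd : n ∣ n') (hR : 8 * p.R + 16 ≤ n) (h : Wz b0 w) (ψ : Lx) :
    AgT (rad n) ψ ψ (KI p n w) (KI p n' w) :=
  ⟨fun _ _ => rfl, fun _ ho => KI_tor hn hn' hd (by unfold rad; omega) h (mem_lps.1 ho).1 _⟩

/-- what is used of two steps on two tori -/
def Sd.Tor (S : Sd) (n' : ℕ) : Prop := ∀ b k ψ ψ' K K', PU S.p b ψ' → KM S.p (S.tor n').nf k K' →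
  TCov S.n (S.PL ψ K) (S.KK ψ K) → TCov n' ((S.tor n').PL ψ' K') ((S.tor n').KK ψ' K') →
  AgT (rad S.nf) ψ ψ' K K' → S.Ey ψ K 0 = (S.tor n').Ey ψ' K' 0 ∧
    AgT (rad S.n) (S.PL ψ K) ((S.tor n').PL ψ' K') (S.KK ψ K) ((S.tor n').KK ψ' K')

/-- the iterable form, for translation covariant data -/
theorem step_tor_cov (c : ℕ) : ∀ᶠ S in ev c, ∀ n', S.n ∣ n' → Odd n' → S.Tor n' := by
  filter_upwards [ev_nu' c 0, step_tor c] with S u H n' hd hn b k ψ ψ' K K' h1 h2 t t' ag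
  have l := u.lens
  have hl := Nat.le_of_dvd hn.pos hd
  obtain ⟨a1, a2⟩ := H n' hd hn (rad S.n) (by unfold rad; omega) b k ψ ψ' K K' h1 h2
    (ag.mono (fb_rad _ (by omega) (by omega)))
  have a := a1 0 fun u hu => by
    rw [add_zero]
    exact box_mono (by unfold rad; omega) hu
  have e : ∀ {m : ℕ} {φ : Lx} {A : Ac}, Odd m → S.n ≤ m → TCov m φ A → ∀ x ∈ box (rad S.n),
      φ x = φ 0 := fun hm g t x hx => by
    rw [← congrFun (t x).1 0, trL, zero_add, Tor.rc_box hm (by unfold rad; omega) hx]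
  exact ⟨a.2, fun x hx => by rw [e u.ok.odd le_rfl t x hx, e hn hl t' x hx, a.1],
    fun o ho => a2 _ (mem_lps.1 ho).1 _⟩

end Pool.Agent.Lib.MP_7f377f_mp.RG.Q4
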