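import Mathlib

/-! The action density of four dimensional `SU(2)` lattice gauge fields, smeared with test
functions on Euclidean space. -/

noncomputable section

namespace Pool.Agent.Lib.MP_7f377f_mp.YM7

open MeasureTheory
open scoped Quaternion

/-- the group `SU(2)` of unit quaternions -/
abbrev SU2 : Type := Metric.sphere (0 : ℍ) 1

/-- lattice gauge fields on the torus with `n` sites per side -/
abbrev Cfg (n : ℕ) : Type := (Fin 4 → ZMod n) × Fin 4 → SU2

/-- Euclidean space -/
abbrev R4 : Type := EuclideanSpace ℝ (Fin 4)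

variable {n k : ℕ}

/-- the action density: the sum of `2 - tr U_p` over the six plaquettes `p` with corner `x` -/
def dens (U : Cfg n) (x : Fin 4 → ZMod n) : ℝ :=
  ∑ i, ∑ j, if i < j then 2 - 2 * (U (x, i) * U (x + Pi.single i 1, j) *
    (U (x + Pi.single j 1, i))⁻¹ * (U (x, j))⁻¹).1.re else 0

/-- the smeared action density; the torus is the cube of lattice spacing `a` centred at `0` -/
def field [NeZero n] (a : ℝ) (f : R4 → ℝ) (U : Cfg n) : ℝ :=
  ∑ x : Fin 4 → ZMod n, f (WithLp.toLp 2 fun i => a * (x i).valMinAbs) * dens U x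

/-- the Wilson measure -/
def wilson [MeasurableSpace SU2] (h : Measure SU2) (b : ℝ) (n : ℕ) [NeZero n] : Measure (Cfg n) :=
  (Measure.pi fun _ => h).tilted fun U => -b * ∑ x, dens U x

/-- correlation function of the centred smeared fields -/
def corr [MeasurableSpace SU2] (h : Measure SU2) (b : ℝ) (n : ℕ) [NeZero n] (a : ℝ)
    (f : Fin k → R4 → ℝ) : ℝ :=
  ∫ U, ∏ i, (field a (f i) U - ∫ V, field a (f i) V ∂wilson h b n) ∂wilson h b n

/-- continuously differentiable functions with pairwise disjoint compact supports -/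
def Adm (f : Fin k → R4 → ℝ) : Prop :=
  (∀ i, HasCompactSupport (f i) ∧ ContDiff ℝ 1 (f i)) ∧
    Pairwise fun i j => Disjoint (tsupport (f i)) (tsupport (f j))

/-- reflection of the axis `0` -/
def theta (f : R4 → ℝ) (y : R4) : ℝ := f (WithLp.toLp 2 (Function.update y 0 (-y 0)))

/-- the Osterwalder-Schrader form of `∑ c a * ∏ i, field (f a i)` and its time translate -/
def gram (S : ∀ {k : ℕ}, (Fin k → R4 → ℝ) → ℝ) {m : ℕ} (c : Fin m → ℝ) {k : Fin m → ℕ}
    (f : ∀ a, Fin (k a) → R4 → ℝ) (t : ℝ) : ℝ :=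
  ∑ a, ∑ a', c a * c a' * S (Fin.append (fun i => theta (f a i))
    fun i y => f a' i (y - EuclideanSpace.single 0 t))

/-- matrix of the reflection in the hyperplane orthogonal to `y` -/
def mirror (y : R4) (i j : Fin 4) : ℝ := (if i = j then 1 else 0) - 2 * y i * y j / ‖y‖ ^ 2

/-- `π ^ (2 k)` times the correlation function of the action density of three free Maxwell
fields at the points `y i` -/
def free (y : Fin k → R4) : ℝ :=
  ∑ σ : Equiv.Perm (Fin k), if ∀ i, σ i ≠ i then (3 / 2) ^ σ.cycleType.card *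
    ∑ a : Fin k → Fin 4 × Fin 4, ∏ i, if (a i).1 < (a i).2 then
      (mirror (y (σ i) - y i) (a i).1 (a (σ i)).1 * mirror (y (σ i) - y i) (a i).2 (a (σ i)).2 -
        mirror (y (σ i) - y i) (a i).1 (a (σ i)).2 * mirror (y (σ i) - y i) (a i).2 (a (σ i)).1) /
        ‖y (σ i) - y i‖ ^ 4 else 0 else 0

end Pool.Agent.Lib.MP_7f377f_mp.YM7
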