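import Pool.Agent.Lib.MP_7f377f_mp.Q4EOne
import Pool.Agent.Lib.MP_7f377f_mp.Q4ETv
import Pool.Agent.Lib.MP_7f377f_mp.Q4Tor
import Pool.Agent.Lib.MP_7f377f_mp.YM7Defs

/-! Comparison of the partition functions of two tori. -/

noncomputable section

namespace Pool.Agent.Lib.MP_7f377f_mp.RG.Q4.En

open Finset Real MeasureTheory Sd

theorem zz_TT {l n : ℕ} {a : ℝ} (ha : 0 ≤ a) (hn : Odd n) {f : Conf → ℂ} (h : GI (LL l * n) f)
    (hp : Pos f) (hp' : Pos (TT l a n f)) :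
    (zz n (TT l a n f) fun _ => 1) = zz (LL l * n) f fun _ => 1 := by
  have hm := Mx.lint_TT a hn h (fun U => (hp U).2.le) (G := fun _ => 1) measurable_const
  simp only [Mx.Pk_one, mul_one] at hm
  simp only [zz, mul_one]
  rw [integral_eq_lintegral_of_nonneg_ae (.of_forall fun U => (hp' _).2.le)
    ((BM.re (h.step ha hn)).int n).aestronglyMeasurable, integral_eq_lintegral_of_nonneg_ae
    (.of_forall fun U => (hp _).2.le) ((BM.re h).int _).aestronglyMeasurable, hm]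

theorem Ey_cov {S : Sd} {ψ : Lx} {K : Ac} (h : TCov S.nf ψ K) (y : St) :
    S.Ey ψ K y = S.Ey ψ K 0 := by
  have a : ∀ v, Sh.Ag0 S (S.ψy ψ v) ψ (S.Ky K v) K := fun v =>
    ⟨fun x _ => congrFun (h _).1 x, fun X hX => (h _).2 _ (Sh.X1_lps hX)⟩
  rw [Sd.Ey, Sd.Ey, Sh.cX_ag (a y), Sh.cX_ag (a 0)]

/-- two sided bound for the mass of a represented density -/
theorem zz_rep : ∃ c C : ℕ → ℝ → ℝ, (∀ n β, 0 < β → 0 < c n β ∧ 0 < C n β) ∧
    ∀ (S : Sd) (v e b θ κ : ℝ) (k : Mj) (ψ : Lx) (K : Ac) (f : Conf → ℂ), LF S v e →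
      S.Sml b θ k ψ K → Re S.p S.nf ψ K → GI S.nf f → Pos f → 0 < κ →
      (∀ U, Per S.nf U → f U = κ * Rep S.p S.nf (S.Φ ψ) K U) →
        κ * c S.nf S.β ≤ (zz S.nf f fun _ => 1) ∧ (zz S.nf f fun _ => 1) ≤ κ * C S.nf S.β := by
  obtain ⟨c, C, c0, -, -, H⟩ := maj_rep
  obtain ⟨a, a0, -, hz⟩ := z_low
  refine ⟨fun n β => exp (-(C * n ^ 4)) * (a * min a (√β)⁻¹) ^ (9 * n ^ 4 + 3),
    fun n _ => exp (C * n ^ 4), fun n β b => ⟨by positivity, exp_pos _⟩,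
    fun S v e b θ κ k ψ K f h s r gf pf κ0 p => ⟨?_, ?_⟩⟩
  · rw [← mul_assoc]
    exact hz S.nf f _ _ h.nu.ok.odd_nf gf pf (by positivity) (lt_min a0 h.nu.ok.g0)
      (min_le_left _ _) fun U hU h1 => by
        rw [p U hU, Complex.re_ofReal_mul]
        exact mul_le_mul_of_nonneg_left ((H S v e _ _ _ _ _ h s U hU).2 r.1 r.2.1 fun f =>
          (h1 f).trans (min_le_right _ _)) κ0.le
  · refine (le_abs_self _).trans ((norm_integral_le_of_norm_le_const (μ := PP)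
      (f := fun U => (f (pc S.nf U)).re * 1) (C := κ * exp (C * S.nf ^ 4))
      (.of_forall fun U => ?_)).trans_eq (by rw [probReal_univ, mul_one]))
    rw [mul_one, p _ (per_pc _ U), Complex.re_ofReal_mul, norm_mul, Real.norm_of_nonneg κ0.le]
    exact mul_le_mul_of_nonneg_left ((Complex.abs_re_le_norm _).trans
      ((H S v e _ _ _ _ _ h s _ (per_pc _ U)).1.trans (exp_le_exp.2 (sub_le_self _
        (mul_nonneg (div_pos c0 h.nu.ok.g0).le (ps_nonneg _ _)))))) κ0.le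

/-- the same tree data with other small terms -/
def Z.up (z : Z) (ψ : Lx) (K : Ac) : Z := { z with ψ := ψ, K := K }

namespace Gl

/-- the same parameters on a larger torus -/
def mul (G : Gl) (r : ℕ) : Gl := { G with m := r * G.m }

/-- the representation with an explicit constant -/
def Rk (G : Gl) (k : ℕ) (z : Z) (κ : ℝ) (f : Conf → ℂ) : Prop := ∀ U, Per (G.N k) U →
  f U = κ * Rep (G.p k) (G.N k) ((G.sl k z).Φ z.ψ) z.K U

/-- cross torus locality holds for the steps of `G` -/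
def HT (G : Gl) : Prop := ∀ S : Sd, S.Ok → S.c = G.c → S.Kt = G.Kt → S.K0 = G.K0 → S.K = G.K →
  S.B = 4 * G.B S.l → G.l0 ≤ S.l → S.TOk → ∀ n', S.n ∣ n' → Odd n' → S.Tor n'

variable {G : Gl} {r J k : ℕ} {b κ : ℝ} {z : Z} {f : Conf → ℂ}

theorem mul_N (G : Gl) (r k : ℕ) : (G.mul r).N k = r * G.N k := mul_assoc _ _ _

theorem one_mul' (G : Gl) : G.one.mul G.m = G := by simp only [mul, one, mul_one]

theorem nx_mul {ψ : Lx} {K : Ac} (e : (G.mul r).kp k (z.up ψ K) = G.kp k z) :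
    (G.mul r).nx k (z.up ψ K) = (G.nx k z).up (stp ((G.sd k z).tor ((G.mul r).N k)) (G.kp k z) ψ K)
      (((G.sd k z).tor ((G.mul r).N k)).KK ψ K) := by
  have a : (G.mul r).lam k (z.up ψ K) = G.lam k z :=
    congrArg (fun x => (G.bb (k + 1) + x) / G.bb k) e
  have t : ((G.mul r).sd k (z.up ψ K)).toTd = (G.sd k z).toTd := Eq.refl (G.td k z)
  rw [nx, a, e, t]
  rfl

namespace Ok

variable (h : G.Ok)
include h

theorem mul (hr : Odd r) : (G.mul r).Ok := ⟨h.sch, h.all, h.c1, h.l1, h.B1, hr.mul h.odd⟩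

theorem one : G.one.Ok := ⟨h.sch, h.all, h.c1, h.l1, h.B1, odd_one⟩

theorem ht : G.HT := fun S o e0 e1 e2 e3 e4 e5 => (h.all S o e0 e1 e2 e3 e4 e5).tor

theorem sml (d : G.Gd b J (k + 1) z) : ∃ b θ k0, (G.sd k z).Sml b θ k0 z.ψ z.K := by
  have q0 := h.Q0 k
  have g0 := h.g0 (k + 1)
  have w : ∀ i < 1000, 1000 * (G.Q k ^ i * √(G.g (k + 1))) ≤ 1 := fun i hi => by
    rw [← mul_assoc]
    exact (mul_le_mul_of_nonneg_right ((h.qpw k hi).trans (pow_le_pow_left₀ q0.le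
      (h.Q_mono k.le_succ) _)) (sqrt_nonneg _)).trans (h.Qsg (k + 1))
  have s0 := sqrt_nonneg (G.g (k + 1))
  have s2 : G.g (k + 1) ^ 2 ≤ √(G.g (k + 1)) * √(G.g (k + 1)) := by
    rw [mul_self_sqrt g0.le]; nlinarith only [h.g1 (k + 1), g0]
  refine (ball_step (h.sd_all k z).nu (h.st2 d.tz) (h.sz_sd d.dt.sz z) le_rfl le_rfl ?_ ?_).1
  · change G.Q k ^ 100 * _ ≤ 1
    linarith [w 100 (by norm_num)]
  · change G.Q k ^ 115 * 1 * G.g (k + 1) ^ 2 ≤ _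
    nlinarith only [mul_le_mul_of_nonneg_left s2 (pow_pos q0 115).le, w 115 (by norm_num), s0]

theorem sml0 (d : G.Gd b J k z) : ∃ b θ k0, (G.sl k z).Sml b θ k0 z.ψ z.K := by
  have g0 := h.g0 k
  have q1 := h.Q1 k
  have a : ∀ {i}, i ≤ 2000 → G.Q k ^ i * G.g k ≤ 1 := fun hi =>
    (mul_le_mul_of_nonneg_right (pow_le_pow_right₀ q1 hi) g0.le).trans (h.Qg k)
  have w : G.Q k ^ 100 * √(G.g k) ≤ 1 :=
    (mul_le_mul_of_nonneg_right (pow_le_pow_right₀ q1 (by norm_num)) (sqrt_nonneg _)).trans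
      (h.Qsg k)
  have s : En.Sz (G.sl k z).p (G.sl k z).nf (G.sl k z).QM (G.sl k z).g 1 1 √(G.g k) z.ψ z.K :=
    h.sz_sl d.dt.sz z
  obtain ⟨κ, k1, k2⟩ := s.2
  refine ⟨_, _, κ, ?_, ?_, s.pu (h.lf d.tz).nu w, k1, k2⟩
  · change G.Q k ^ 100 * (G.Q k ^ 10 * (1 + 1) * G.g k ^ 2) ≤ 1
    have := h.cQ k (C := 2) (by norm_num)
    calc _ = 2 * G.g k * (G.Q k ^ 110 * G.g k) := by ring
      _ ≤ G.Q k ^ 1 * G.g k * 1 := by rw [pow_one]; gcongr; exact a (by norm_num)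
      _ ≤ 1 := by rw [mul_one]; exact a (by norm_num)
  · change G.Q k ^ 100 * (√(G.g k) * 1 * G.g k ^ 2) ≤ 1
    rw [mul_one, ← mul_assoc]
    exact mul_le_one₀ w (sq_nonneg _) (pow_le_one₀ g0.le (h.g1 k))

theorem rk_step (hk : k < J) (d : G.Gd b J (k + 1) z) (p : G.Rk (k + 1) z κ (G.f b J (k + 1))) :
    G.Rk k (G.nx k z) (κ * exp (G.N k ^ 4 * ((G.sd k z).Ey z.ψ z.K 0).re)) (G.f b J k) :=
  fun W hW => by
  have s := h.st2 d.tz
  obtain ⟨b', θ, k0, sm⟩ := h.sml d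
  obtain ⟨-, -, r3⟩ := s.real _ _ _ _ _ sm d.dt.re.1 d.dt.re.2.1
  have t : TCov (G.sd k z).nf z.ψ z.K := by rw [h.sd_nf]; exact d.dt.re.2.2
  rw [Rk, ← h.sd_nf k z] at p
  rw [h.f_step b hk]
  refine ((TT_mul p W).trans (congrArg ((κ : ℂ) * ·) (s.id _ _ _ _ _ sm W hW))).trans ?_
  rw [Complex.ofReal_mul, mul_assoc (κ : ℂ), Complex.ofReal_exp, sum_congr rfl fun y _ =>
    Ey_cov t y, sum_const, nsmul_eq_mul]
  congr 3
  · have c : (((G.sd k z).Λ'.card : ℝ) : ℂ) = ((G.N k ^ 4 : ℝ) : ℂ) :=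
      congrArg _ (card_dom (h.N_odd k))
    rw [Complex.ofReal_mul, ← c]
    exact congrArg₂ _ rfl (Complex.ext rfl (by simp [r3]))
  · funext y B
    have : (G.bb k : ℂ) ≠ 0 := Complex.ofReal_ne_zero.2 (h.b0 k).ne'
    change (G.bb (k + 1) : ℂ) * _ + _ + _ = (G.bb k : ℂ) * (cx (G.lam k z • _) B B +
      G.lam k z * _) + (_ + src _ _ B)
    rw [src, cx_smul, lam]
    push_cast
    field_simp
    ring

theorem rk_top : G.Rk J (G.top b J) 1 (G.f b J J) := fun U hU => by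
  have a5 := fun U => (h.sl_all J (G.top b J)).nu.init_rep (v := b / G.bb J) rfl rfl 0 (U := U)
  rw [h.sl_nf] at a5
  have := a5 U hU
  have e : ((b / G.bb J : ℝ) : ℂ) * (G.sl J (G.top b J)).β = b := by
    rw [← Complex.ofReal_mul]; exact congrArg _ (div_mul_cancel₀ _ (h.b0 J).ne')
  simp only [Pi.zero_apply, add_zero, zero_mul, e] at this
  rw [f_top, Complex.ofReal_one, one_mul]
  exact (wil_eq_prod ..).trans this

theorem zz_f (b0 : 0 ≤ b) : ∀ k ≤ J, (En.zz (G.N k) (G.f b J k) fun _ => 1) =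
    En.zz (G.N J) (G.f b J J) fun _ => 1 := dw_ind rfl fun k hk ih => by
  have a := (h.f_facts J (k + 1)).1 b b0
  have c := ((h.f_facts J k).1 b b0).2.2
  rw [h.f_step b hk] at c ⊢
  rw [zz_TT (h.a0 k) (h.N_odd k) (h.N_succ k ▸ a.1) a.2.2 c, ← ih, ← h.N_succ k]
  rfl

variable (ht : G.HT) (hr : Odd r) (b0 : 0 ≤ b) (hv : ∀ k ≤ J, |(G.zz b J k).v - 1| ≤ 20⁻¹)
include ht hr b0 hv

/-- the runs on the two tori agree -/
theorem twin : ∀ k ≤ J, ∃ ψ K κ, (G.mul r).zz b J k = (G.zz b J k).up ψ K ∧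
    G.Gd b J k (G.zz b J k) ∧ (G.mul r).Gd b J k ((G.mul r).zz b J k) ∧
    AgT (rad (G.N k)) (G.zz b J k).ψ ψ (G.zz b J k).K K ∧ 0 < κ ∧
    G.Rk k (G.zz b J k) κ (G.f b J k) ∧
    (G.mul r).Rk k ((G.mul r).zz b J k) (κ ^ r ^ 4) ((G.mul r).f b J k) := by
  have h' := h.mul hr
  have dv : ∀ k, G.N k ∣ (G.mul r).N k := fun k => G.mul_N r k ▸ dvd_mul_left _ _
  refine dw_ind ?_ fun k hk ⟨ψ, K, κ, e, d, d', ag, κ0, p, p'⟩ => ?_
  · have v := hv J le_rfl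
    rw [zz_top] at v
    have v' := v.trans (show (20⁻¹ : ℝ) ≤ 10⁻¹ by norm_num)
    rw [zz_top, zz_top]
    refine ⟨_, _, 1, rfl, h.gd_top v', h'.gd_top v', AgT.ini (h.N_odd J) (h'.N_odd J) (dv J) ?_
      (wz_ww (b := fun _ _ _ => (b : ℝ)) b0 fun _ _ _ => le_rfl) _, one_pos, h.rk_top,
      by rw [one_pow]; exact h'.rk_top⟩
    have a := h.D_le J (h.bN J)
    have c : 1 ≤ G.L J ^ G.K0 := Nat.one_le_pow _ _ (by have := h.L_big J; omega)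
    change 8 * (4 * G.L J ^ G.K0) + 16 ≤ _
    omega
  have v := hv (k + 1) hk
  rw [zz_step b hk, zz_step b hk]
  generalize G.zz b J (k + 1) = z at *
  rw [e] at d' p' ⊢
  obtain ⟨b1, θ1, k1, s⟩ := h.sml d
  obtain ⟨b2, θ2, k2, s'⟩ := h'.sml d'
  obtain ⟨a1, a2⟩ := ht (G.sd k z) (h.sd_all k z).nu.ok rfl rfl rfl rfl rfl (h.sch.big k)
    ⟨_, _, _, (v12 d.tz).1, (v12 d.tz).2, ze0 d.tz, h.ze2 d.tz, d.tz.tr k (.inr rfl),
      h.ln d.tz (.inr rfl)⟩ _ (dv k) (h'.N_odd k) b2 k2 z.ψ ψ z.K K s'.pu s'.km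
    ((h.st2 d.tz).cov _ _ _ _ _ s (by rw [h.sd_nf]; exact d.dt.re.2.2))
    ((h'.st2 d'.tz).cov _ _ _ _ _ s' (by rw [h'.sd_nf]; exact d'.dt.re.2.2))
    (by rw [h.sd_nf]; exact ag)
  have e1 : (G.mul r).kp k (z.up ψ K) = G.kp k z :=
    congrArg (fun φ => ((qc (G.sd k z).ol e1 e1).re + (qc φ e1 e1).re) / z.v)
      (a2.1 0 (zero_mem_box _)).symm
  refine ⟨_, _, _, nx_mul e1, (h.gd_step b0 hk d v).1, (h'.gd_step b0 hk d' v).1,
    ⟨fun x hx => ?_, a2.2⟩, mul_pos κ0 (exp_pos _), h.rk_step hk d p, ?_⟩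
  · exact congrArg (· + src (G.sd k z) (G.kp k z)) (a2.1 x hx)
  · convert h'.rk_step hk d' p' using 1
    rw [mul_pow, ← exp_nat_mul, a1, ← mul_assoc, Nat.cast_pow, ← mul_pow, ← Nat.cast_mul,
      ← mul_N]
    rfl

/-- one step for data which agree near the origin -/
theorem twin_hs (hk : k < J) {d d' : Lx × Ac}
    (s : ∃ b1 θ k0, (G.sd k (G.zz b J (k + 1))).Sml b1 θ k0 d.1 d.2)
    (s' : ∃ b1 θ k0, ((G.mul r).sd k ((G.mul r).zz b J (k + 1))).Sml b1 θ k0 d'.1 d'.2)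
    (c : TCov (G.N (k + 1)) d.1 d.2) (c' : TCov ((G.mul r).N (k + 1)) d'.1 d'.2)
    (ag : AgT (rad (G.N (k + 1))) d.1 d'.1 d.2 d'.2) :
    AgT (rad (G.N k)) (G.hs k (G.zz b J (k + 1)) d).1
      ((G.mul r).hs k ((G.mul r).zz b J (k + 1)) d').1 (G.hs k (G.zz b J (k + 1)) d).2
      ((G.mul r).hs k ((G.mul r).zz b J (k + 1)) d').2 := by
  have h' := h.mul hr
  obtain ⟨ψ, K, -, e, g, g', ag0, -⟩ := h.twin ht hr b0 hv (k + 1) hk
  generalize G.zz b J (k + 1) = z at *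
  rw [e] at s' g' ⊢
  have T : ∀ {ψ1 ψ2 : Lx} {K1 K2 : Ac}, (∃ b1 θ k0, (G.sd k z).Sml b1 θ k0 ψ1 K1) →
      (∃ b1 θ k0, ((G.mul r).sd k (z.up ψ K)).Sml b1 θ k0 ψ2 K2) → TCov (G.N (k + 1)) ψ1 K1 →
      TCov ((G.mul r).N (k + 1)) ψ2 K2 → AgT (rad (G.N (k + 1))) ψ1 ψ2 K1 K2 → _ :=
    fun ⟨_, _, _, s⟩ ⟨_, _, _, s'⟩ c c' ag => (ht (G.sd k z) (h.sd_all k z).nu.ok rfl rfl rfl rfl
      rfl (h.sch.big k) ⟨_, _, _, (v12 g.tz).1, (v12 g.tz).2, ze0 g.tz, h.ze2 g.tz,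
        g.tz.tr k (.inr rfl), h.ln g.tz (.inr rfl)⟩ _ (G.mul_N r k ▸ dvd_mul_left _ _) (h'.N_odd k)
      _ _ _ _ _ _ s'.pu s'.km ((h.st2 g.tz).cov _ _ _ _ _ s (by rw [h.sd_nf]; exact c))
      ((h'.st2 g'.tz).cov _ _ _ _ _ s' (by rw [h'.sd_nf]; exact c')) (by rw [h.sd_nf]; exact ag)).2
  have e1 : (G.mul r).kp k (z.up ψ K) = G.kp k z :=
    congrArg (fun φ => ((qc (G.sd k z).ol e1 e1).re + (qc φ e1 e1).re) / z.v)
      ((T (h.sml g) (h'.sml g') g.dt.re.2.2 g'.dt.re.2.2 ag0).1 0 (zero_mem_box _)).symm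
  have a := T s s' c c' ag
  rw [hs, hs, e1]
  exact ⟨fun x hx => congrArg (· + src (G.sd k z) (G.kp k z)) (a.1 x hx), a.2⟩

end Ok

theorem Tu1.v20 (h : G.Ok) (A : G.Tu1 b J) : ∀ k ≤ J, |(G.zz b J k).v - 1| ≤ 20⁻¹ := fun k hk =>
  (A.v k hk).trans (inv_anti₀ (by norm_num)
    ((h.cQ k (by norm_num)).trans (le_self_pow₀ (h.Q1 k) (by norm_num))))

theorem Tu1.mul (h : G.Ok) (A : G.Tu1 b J) (hr : Odd r) : (G.mul r).Tu1 b J := by
  have T := h.twin h.ht hr A.b0 (A.v20 h)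
  have D : ∀ k ≤ J, (G.mul r).Gd b J k ((G.mul r).zz b J k) := fun k hk =>
    let ⟨_, _, _, _, _, d, _⟩ := T k hk; d
  have V : ∀ k ≤ J, ((G.mul r).zz b J k).v = (G.zz b J k).v := fun k hk => by
    obtain ⟨_, _, _, e, _⟩ := T k hk
    rw [e, Z.up]
  refine ⟨A.b0, D, fun k hk => by rw [V k hk]; exact A.v k hk, fun k hk => ?_⟩
  have := (h.mul hr).gd_step A.b0 hk (D _ hk) (by rw [V _ hk]; exact A.v20 h _ hk)
  exact ⟨this.2.1, this.2.2.1⟩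

/-- a run which is tuned on the unit torus is tuned on all tori -/
theorem Ok.tu_of (h : G.Ok) (A : G.one.Tu b J) : G.Tu b J :=
  ⟨by simpa only [one_mul'] using A.toTu1.mul h.one h.odd, A.toTu1, A.d0⟩

end Gl

/-- the partition functions of the tori of sides `N` and `r * N` -/
theorem zin0 (G : Gl) (h : G.Ok) (ht : G.HT) {r : ℕ} (hr : Odd r) : ∃ C > (0 : ℝ), ∀ b J, 0 ≤ b →
    (∀ k ≤ J, |(G.zz b J k).v - 1| ≤ 20⁻¹) →
    (zz (G.N J) (fun U => (wil b (G.N J) U : ℝ)) fun _ => 1) ^ r ^ 4 ≤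
      C * (zz (r * G.N J) (fun U => (wil b (r * G.N J) U : ℝ)) fun _ => 1) ∧
    (zz (r * G.N J) (fun U => (wil b (r * G.N J) U : ℝ)) fun _ => 1) ≤
      C * (zz (G.N J) (fun U => (wil b (G.N J) U : ℝ)) fun _ => 1) ^ r ^ 4 := by
  obtain ⟨c, C, p, H⟩ := zz_rep
  have h' := h.mul hr
  obtain ⟨c1, C1⟩ := p (G.N 0) _ (h.b0 0)
  obtain ⟨c2, C2⟩ := p ((G.mul r).N 0) _ (h.b0 0)
  refine ⟨max (C (G.N 0) (G.bb 0) ^ r ^ 4 / c ((G.mul r).N 0) (G.bb 0))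
    (C ((G.mul r).N 0) (G.bb 0) / c (G.N 0) (G.bb 0) ^ r ^ 4), by positivity,
    fun b J b0 hv => ?_⟩
  obtain ⟨ψ, K, κ, -, d, d', -, κ0, q, q'⟩ := h.twin ht hr b0 hv 0 J.zero_le
  have k : ∀ {G : Gl} {κ : ℝ}, G.Ok → G.Gd b J 0 (G.zz b J 0) → 0 < κ →
      G.Rk 0 (G.zz b J 0) κ (G.f b J 0) →
      κ * c (G.N 0) (G.bb 0) ≤ (zz (G.N J) (fun U => (wil b (G.N J) U : ℝ)) fun _ => 1) ∧
      (zz (G.N J) (fun U => (wil b (G.N J) U : ℝ)) fun _ => 1) ≤ κ * C (G.N 0) (G.bb 0) :=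
    fun {G κ} h d κ0 q => by
    obtain ⟨b1, θ1, k1, s⟩ := h.sml0 d
    have a := (h.f_facts J 0).1 b b0
    have e := h.sl_nf 0 (G.zz b J 0)
    have := H _ _ _ _ _ κ _ _ _ (G.f b J 0) (h.lf d.tz) s (h.re_sl d.dt.re _) (e ▸ a.1) a.2.2 κ0
      (e ▸ q)
    rwa [e, h.zz_f b0 0 J.zero_le, Gl.f_top] at this
  obtain ⟨a1, a2⟩ := k h d κ0 q
  obtain ⟨a3, a4⟩ := k h' d' (pow_pos κ0 _) q'
  rw [G.mul_N r J] at a3 a4
  change _ * c _ (G.bb 0) ≤ _ at a3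
  change _ ≤ _ * C _ (G.bb 0) at a4
  have z1 := (mul_pos κ0 c1).trans_le a1
  have z2 := (mul_pos (pow_pos κ0 _) c2).trans_le a3
  refine ⟨(pow_le_pow_left₀ z1.le a2 _).trans (le_trans ?_
    (mul_le_mul (le_max_left _ _) a3 (by positivity) (by positivity))), a4.trans (le_trans ?_
    (mul_le_mul (le_max_right _ _) (pow_le_pow_left₀ (by positivity) a1 _) (by positivity)
      (by positivity)))⟩ <;> rw [mul_pow] <;> refine le_of_eq ?_ <;> field_simp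

open Fi in
theorem zz_wil [m : MeasurableSpace YM7.SU2] [BorelSpace YM7.SU2] (h : Measure YM7.SU2)
    [h.IsHaarMeasure] [IsProbabilityMeasure h] (b : ℝ) {n : ℕ} [NeZero n] (hn : Odd n) :
    (zz n (fun U => (wil b n U : ℝ)) fun _ => 1) =
      ∫ U : YM7.Cfg n, exp (-b * ∑ x, YM7.dens U x) ∂Measure.pi fun _ => h := by
  obtain rfl : m = mS := BorelSpace.measurable_eq
  have : (tr haar).IsHaarMeasure := (inferInstance : haar.IsHaarMeasure)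
  obtain rfl := Measure.isHaarMeasure_eq_of_isProbabilityMeasure h (tr haar)
  have e : ∀ U : YM4.Cfg n, exp (-b * ∑ x, YM7.dens U x) = wil b n (Fi.lf U) := fun U => by
    rw [wil, sum_vl hn, neg_mul]
    refine congrArg (fun t => exp (-(b * t))) (sum_congr rfl fun x _ => sum_congr rfl fun i _ =>
      sum_congr rfl fun j _ => ?_)
    split_ifs
    · rw [fq_sh, zero_add, fq_lf, cst_vl, YM4.curv]
      exact (RG.Ms.norm_sub_one_sq (YM4.plaq U x i j)).symm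
    · rfl
  simp only [e, zz, mul_one, Complex.ofReal_re]
  rw [← map_res]
  refine .trans ?_ (integral_map (f := fun U => wil b n (Fi.lf U)) meas_rs.aemeasurable
    ((cont_wil b).measurable.comp meas_lf).aestronglyMeasurable).symm
  simp only [lf_rs, PP]

/-- the comparison of the partition functions of the Wilson theory -/
theorem zin [MeasurableSpace YM7.SU2] [BorelSpace YM7.SU2] (μ : Measure YM7.SU2)
    [μ.IsHaarMeasure] [IsProbabilityMeasure μ] (G : Gl) (h : G.Ok) (ht : G.HT) :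
    ∃ C > (0 : ℝ), ∀ b J, G.Tu b J → ∀ n [NeZero n], n = G.N J →
      (∫ U : YM7.Cfg n, exp (-b * ∑ x, YM7.dens U x) ∂Measure.pi fun _ => μ) ^ 81 ≤
        C * ∫ U : YM7.Cfg (3 * n), exp (-b * ∑ x, YM7.dens U x) ∂Measure.pi fun _ => μ := by
  have o3 : Odd 3 := by decide
  obtain ⟨C, C0, H⟩ := zin0 G h ht o3
  refine ⟨C, C0, fun b J t n _ e => ?_⟩
  subst e
  rw [← zz_wil μ b (h.N_odd J), ← zz_wil μ b (o3.mul (h.N_odd J))]
  exact (H b J t.b0 fun k hk => (t.v k hk).trans (inv_anti₀ (by norm_num)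
    ((h.cQ k (by norm_num)).trans (le_self_pow₀ (h.Q1 k) (by norm_num))))).1

theorem ev_HT (c : ℕ) : {S : Sd | ∀ n', S.n ∣ n' → Odd n' → S.Tor n'} ∈ ev c := step_tor_cov c

end Pool.Agent.Lib.MP_7f377f_mp.RG.Q4.En
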