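import Pool.Agent.Lib.MP_7f377f_mp.Q5TanD

/-! The flux lemma for directions. -/

noncomputable section

namespace Pool.Agent.Lib.MP_7f377f_mp.RG.Q4.En

open Finset Real La La.Q Sd Metric

theorem cexp_sub_le {s t : ℂ} {M D : ℝ} (h1 : ‖s‖ ≤ M) (h2 : ‖t‖ ≤ M) (h3 : ‖t - s‖ ≤ D) :
    ‖Complex.exp t - Complex.exp s‖ ≤ D * exp M :=
  ((convex_closedBall (0 : ℂ) M).norm_image_sub_le_of_norm_deriv_le (C := exp M)
    (fun _ _ => Complex.differentiableAt_exp) (fun x hx => by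
      rw [Complex.deriv_exp]
      exact (Complex.norm_exp_le_exp_norm x).trans (exp_le_exp.2 (mem_closedBall_zero_iff.1 hx)))
    (mem_closedBall_zero_iff.2 h1) (mem_closedBall_zero_iff.2 h2)).trans
    (by rw [mul_comm]; gcongr)

/-- holomorphic families of partition functions -/
theorem ZL_hol1 {σ : Type} [DecidableEq σ] {Λ : Finset σ} {e θ θ' : ℝ} {Ω : Set ℂ}
    {k d : Finset σ → Finset (Finset σ) → ℝ} {K : ℂ → Finset σ → Finset (Finset σ) → ℂ}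
    (o : IsOpen Ω) (z : 0 ∈ Ω) (e0 : 0 < e) (e1 : e ≤ 1) (hθ : 2 * θ ≤ e)
    (hd : ∀ X c, DifferentiableOn ℂ (K · X c) Ω)
    (hK : ∀ s ∈ Ω, ∀ o ∈ lps Λ, ‖K s o.1 o.2‖ ≤ k o.1 o.2 ∧ ‖K s o.1 o.2 - K 0 o.1 o.2‖ ≤ d o.1 o.2)
    (h : Nm Λ (fun X c => k X c * exp (e * X.card)) θ)
    (h' : Nm Λ (fun X c => d X c * exp (e * X.card)) θ') : ZL Λ (K 0) 1 ≠ 0 ∧
      ∃ ζ : ℂ → ℂ, DifferentiableOn ℂ ζ Ω ∧ ∀ s ∈ Ω,
        ZL Λ (K s) 1 = ZL Λ (K 0) 1 * Complex.exp (ζ s) ∧ ‖ζ s‖ ≤ 2 * θ' * Λ.card := by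
  have a : ∀ K : Finset σ → Finset (Finset σ) → ℂ, ZL Λ K 1 = Zp Λ (act Λ K 1) 1 := fun K =>
    Zp_congr (fun _ a b => (if_pos ⟨a, b⟩).symm) fun _ _ => rfl
  have u : ∀ y ∈ Λ, ‖(1 : σ → ℂ) y‖ ≤ 1 := by simp
  have s : ∀ t X, act Λ (K t) 1 X - act Λ (K 0) 1 X = act Λ (fun X c => K t X c - K 0 X c) 1 X :=
    fun t X => by
      unfold act
      split_ifs
      · simp only [← sum_sub_distrib, sub_mul]
      · simp
  obtain ⟨ζ, h1, hζ⟩ := dobrushin Λ (fun _ => act Λ (K 0) 1) (fun t => act Λ (K t) 1) (maj Λ k)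
    (maj Λ d) o e0 e1 (fun _ => differentiableOn_const _) (fun X => by
      unfold act
      split_ifs
      exacts [.fun_sum fun c _ => (hd X c).mul_const _, differentiableOn_const _])
    (fun t ht X => ⟨act_le u (fun o ho => (hK 0 z o ho).1) X, act_le u (fun o ho => (hK t ht o ho).1) X,
      s t X ▸ act_le u (fun o ho => (hK t ht o ho).2) X⟩) fun x => (maj_sum h x).trans (by linarith)
  simp only [← a] at hζ
  refine ⟨norm_pos_iff.1 ((exp_pos _).trans_le (hζ 0 z).2.2.1), ζ, h1, fun t ht => ⟨(hζ t ht).1,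
    (hζ t ht).2.1.trans ?_⟩⟩
  rw [mul_assoc]
  exact mul_le_mul_of_nonneg_left (sum_pow_le (fun X _ => mul_nonneg ((norm_nonneg _).trans
    (s t X ▸ act_le u (fun o ho => (hK t ht o ho).2) X)) (exp_pos _).le) (by simp [maj])
    (maj_sum h')) zero_le_two

section rep

variable {p : Pa} {n : ℕ} {k k' : Mj} {K K' : Ac} {Φ Φ' : Lx} {U : Conf} {b θ θ' δ : ℝ}

theorem rep_facC (hχ : ∀ x, Fq (p.R + 1) p.ε (sh x U)) (hU : Per n U) :
    Rep p n Φ K U = Complex.exp (-∑ x ∈ box (n / 2), Φ x (Bx x (cC U))) * ZL (box (n / 2))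
      (fun X c => K X c U * Complex.exp (∑ x ∈ c.biUnion id, Φ x (Bx x (cC U)))) 1 := by
  have e : Ix p Φ U = fun y => Complex.exp (-Φ y (Bx y (cC U))) * (1 : St → ℂ) y :=
    funext fun y => by simp [Ix, chi, hχ]
  rw [Rep, pc_eq hU, e, ZL_fac fun y _ => Complex.exp_ne_zero _]
  simp only [← Complex.exp_neg, ← Complex.exp_sum, neg_neg, sum_neg_distrib]

/-- the logarithmic derivative of the representation at a field with small curvature -/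
theorem rep_der (h : Pg p b) (hn : Odd n) (hK : KM p n k K) (hK' : KM p n k' K') (h0 : kN p n k θ)
    (h1 : kN p n k' θ') (θ0 : 0 < θ) (hθ : 4 * θ ≤ ee p) (hU : Per n U)
    (hχ : ∀ x, Fq (p.R + 1) p.ε (sh x U)) (b0 : 0 < b)
    (hb : ∀ x, ‖Φ x (Bx x (cC U))‖ ≤ b / 2 ∧ ‖Φ' x (Bx x (cC U))‖ ≤ δ) : Rep p n Φ K U ≠ 0 ∧
      ‖deriv (fun t : ℂ => Rep p n (Φ + t • Φ') (K + t • K') U) 0 / Rep p n Φ K U +
        ∑ x ∈ box (n / 2), Φ' x (Bx x (cC U))‖ ≤ 2 * (θ' + 2 * δ * θ) * n ^ 4 := by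
  have δ0 : 0 ≤ δ := (norm_nonneg _).trans (hb 0).2
  have θ1 := h1.nonneg
  obtain ⟨r, r0, r3, r4⟩ : ∃ r, 0 < r ∧ r * θ' ≤ θ ∧ r * δ ≤ b / 2 := by
    have w : ∀ {r x y : ℝ}, 0 < x → 0 ≤ y → r ≤ x / (y + 1) → r * y ≤ x := fun hx hy h =>
      (mul_le_mul_of_nonneg_right h hy).trans (by
        rw [div_mul_eq_mul_div, div_le_iff₀ (by linarith)]; nlinarith)
    exact ⟨min _ _, lt_min (by positivity) (by positivity), w θ0 θ1 (min_le_left _ _),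
      w (half_pos b0) δ0 (min_le_right _ _)⟩
  have s : ∀ (z : St → ℂ) (b : ℝ) (C : Finset St), (∀ x, ‖z x‖ ≤ b) → ‖∑ x ∈ C, z x‖ ≤ b * C.card :=
    fun z b C hz => (norm_sum_le _ _).trans ((sum_le_card_nsmul _ _ _ fun x _ => hz x).trans_eq
      (by rw [nsmul_eq_mul, mul_comm]))
  have t : ∀ {K : Ac} {k : Mj} {θ : ℝ}, KM p n k K → kN p n k θ → ∀ (z : St → ℂ), (∀ x, ‖z x‖ ≤ b) →
      ∀ X c, ‖K X c U * Complex.exp (∑ x ∈ c.biUnion id, z x)‖ ≤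
        k X c * exp ((b + 1) * (c.biUnion id).card) := fun hK h0 z hz X c => by
    rw [norm_mul]
    exact mul_le_mul (km_le hK h.lam h0 hU X c) ((Complex.norm_exp_le_exp_norm _).trans
      (exp_le_exp.2 ((s z b _ hz).trans (by gcongr; linarith)))) (norm_nonneg _) (h0.1 X c)
  have w1 : ∀ t ∈ ball (0 : ℂ) r, ∀ x, ‖(t • Φ') x (Bx x (cC U))‖ ≤ r * δ := fun t ht x =>
    norm_mul_le_of_le (mem_ball_zero_iff.1 ht).le (hb x).2
  have w2 : ∀ t ∈ ball (0 : ℂ) r, ∀ x, ‖(Φ + t • Φ') x (Bx x (cC U))‖ ≤ b := fun t ht x =>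
    (norm_add_le_of_le (hb x).1 (w1 t ht x)).trans (by linarith)
  have w3 : ∀ t ∈ ball (0 : ℂ) r, KM p n (r • k') (t • K') := fun t ht => (hK'.smul t).mono
    fun X c => mul_le_mul_of_nonneg_right (mem_ball_zero_iff.1 ht).le (h1.1 X c)
  have n1 := h1.smul r0.le
  have n2 := h0.add n1
  obtain ⟨a1, ζ, a2, a3⟩ := ZL_hol1 (Λ := box (n / 2)) (Ω := ball 0 r)
    (K := fun t X c => (K + t • K') X c U *
      Complex.exp (∑ x ∈ c.biUnion id, (Φ + t • Φ') x (Bx x (cC U))))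
    (d := fun X c => (r • k' + (r * δ) • k) X c * exp ((b + 1) * (c.biUnion id).card))
    isOpen_ball (mem_ball_self r0) (ee_pos p) (ee_le p) (θ := θ + r * θ') (by linarith)
    (fun X c => by simp only [Pi.add_apply, Pi.smul_apply, smul_eq_mul]; fun_prop)
    (fun u hu o _ => ⟨t (hK.add (w3 u hu)) n2 _ (w2 u hu) _ _, by
      set C := o.2.biUnion id
      rw [zero_smul, zero_smul, add_zero, add_zero, show ∀ a a' u u' : ℂ, a' * u' - a * u =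
        (a' - a) * u' + a * (u' - u) from fun _ _ _ _ => by ring, Pi.add_apply (r • k'),
        Pi.add_apply ((r • k') o.1), add_mul,
        show (K + u • K') o.1 o.2 U - K o.1 o.2 U = (u • K') o.1 o.2 U by simp]
      refine norm_add_le_of_le (t (w3 u hu) n1 _ (w2 u hu) o.1 o.2) ?_
      rw [norm_mul, Pi.smul_apply, Pi.smul_apply, smul_eq_mul, mul_comm (r * δ), mul_assoc]
      refine mul_le_mul (km_le hK h.lam h0 hU _ _) ((cexp_sub_le (D := r * δ * C.card)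
        (s _ b C fun x => (hb x).1.trans (by linarith)) (s _ b C (w2 u hu))
        (by rw [← sum_sub_distrib]; exact s _ _ C fun x => by simpa using w1 u hu x)).trans ?_)
        (norm_nonneg _) (h0.1 _ _)
      rw [add_mul, one_mul, exp_add, mul_assoc, mul_comm (C.card : ℝ)]
      gcongr
      linarith [add_one_le_exp (C.card : ℝ)]⟩)
    (nm_of h hn n2) (nm_of h hn (n1.add (h0.smul (mul_nonneg r0.le δ0))))
  simp only [zero_smul, add_zero] at a1 a3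
  have a4 : Complex.exp (ζ 0) = 1 := by
    have := (a3 0 (mem_ball_self r0)).1
    simp only [zero_smul, add_zero] at this
    exact mul_left_cancel₀ a1 (this.symm.trans (mul_one _).symm)
  have a5 : Rep p n Φ K U ≠ 0 := by
    rw [rep_facC hχ hU]; exact mul_ne_zero (Complex.exp_ne_zero _) a1
  have a6 : HasDerivAt (fun t : ℂ => Rep p n (Φ + t • Φ') (K + t • K') U) (Rep p n Φ K U *
      (deriv ζ 0 - ∑ x ∈ box (n / 2), Φ' x (Bx x (cC U)))) 0 := by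
    have := ((((a2.differentiableAt (ball_mem_nhds _ r0)).hasDerivAt).fun_sub ((hasDerivAt_id' 0).mul_const
      (∑ x ∈ box (n / 2), Φ' x (Bx x (cC U))))).cexp).const_mul (Rep p n Φ K U)
    simp only [zero_mul, sub_zero, a4, one_mul] at this
    refine this.congr_of_eventuallyEq ?_
    filter_upwards [ball_mem_nhds _ r0] with u hu
    rw [rep_facC hχ hU, rep_facC hχ hU, (a3 u hu).1]
    simp only [Pi.add_apply, Pi.smul_apply, smul_eq_mul, sum_add_distrib, ← mul_sum, neg_add,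
      Complex.exp_add, sub_eq_add_neg]
    ring
  refine ⟨a5, ?_⟩
  rw [a6.deriv, mul_div_cancel_left₀ _ a5, sub_add_cancel, ← card_dom hn]
  refine (Jet.deriv_le a2 (fun u hu => (a3 u hu).2) r0).trans ?_
  rw [div_le_iff₀ r0]
  have : (0 : ℝ) ≤ (box (n / 2)).card := Nat.cast_nonneg _
  nlinarith [mul_nonneg (mul_nonneg (mul_nonneg r0.le δ0) θ0.le) this]

end rep

variable {S : Sd} {v e xb xk xr d x y u ω ω' η P D : ℝ} {n : ℕ} {ψ : Lx} {F : Mt} {ϑ : Lk → Angle}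

theorem fw_zero (t0 : 0 < tq n x) : Fw n x 0 :=
  ⟨0, fun _ _ => by simp, by rw [norm_zero]; linarith, fx_zero⟩

theorem fw_of (t0 : 0 < tq n x) (hF : As F) (h1 : ‖F‖ ≤ 2) (h : Fx n (tq n x • F) ϑ) : Fw n x ϑ :=
  ⟨_, hF.smul _, by rw [norm_smul, norm_of_nonneg t0.le, mul_comm]; gcongr, h⟩

theorem fw_fl (hn : n ≠ 0) (t0 : 0 < tq n x) : Fw n x (fl n x) :=
  fw_of t0 (as_EE _) ((norm_EE _).trans one_le_two) (fx_fl hn x)

theorem Fw.pm (h : Fw n x ϑ) (σ : Equiv.Perm (Fin 4)) : Fw n x (pm σ ϑ) :=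
  let ⟨_, a, b, c⟩ := h
  ⟨_, a.pM σ, (norm_pM σ).trans b, c.pm σ⟩

theorem Fw.rf (h : Fw n x ϑ) (j : Fin 4) : Fw n x (rfl1 Neg.neg j ϑ) :=
  let ⟨_, a, b, c⟩ := h
  ⟨_, a.rM j, (norm_rM j).trans b, c.rf j⟩

theorem Fw.per (h : Fw n x ϑ) : Per n (ab ϑ) := let ⟨_, _, _, c⟩ := h; c.per

theorem asy_of_sym {f f' : Conf → ℂ} (s : Sym n f) (s' : Sym n f') : Asy n x 0 (lg f f') :=
  fun ϑ h => ⟨fun σ => by
    rw [lg, lg, show ab (pm σ ϑ) = pm σ (ab ϑ) from rfl, (s _ h.per).2.1, (s' _ h.per).2.1]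
    simp, fun j => by rw [lg, lg, ab_rf, (s _ h.per).2.2, (s' _ h.per).2.2]; simp⟩

theorem iso_def {G : Conf → ℝ} {k : BF} {c : ℝ} (hn : n ≠ 0) (t0 : 0 < tq n x)
    (hs : ∀ a b, k a b = k b a) (H : ∀ F ϑ, As F → ‖F‖ ≤ 2 * tq n x → Fx n F ϑ →
      |G (ab ϑ) - c + n ^ 4 * k (pt F) (pt F)| ≤ η * tq n x ^ 2 * n ^ 4) :
    |(G (ab 0) - G (ab (fl n x))) / (n ^ 4 * tq n x ^ 2) - k e1 e1| ≤ 2 * η ∧
      (Asy n x D G → ∀ a b δ δ', Cv 0 δ a → Cv 0 δ' b →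
        |k (cc a) (cc b) - k e1 e1 * m0 a b| ≤ 64 * (2 * η + D) * δ * δ') := by
  have f0 := fx_fl hn x
  have f1 : ∀ p, ∃ ϑ, Fx n (tq n x • EE p) ϑ := fx_EE hn _
  have f2 := fun F ϑ => fw_of (F := F) (ϑ := ϑ) t0
  unfold Asy
  generalize Fw n x = W, tq n x = t at *
  have n0 : (0 : ℝ) < n ^ 4 * t ^ 2 := by positivity
  have a : ∀ {F ϑ}, As F → ‖F‖ ≤ 2 → Fx n (t • F) ϑ →
      |G (ab ϑ) - c + n ^ 4 * t ^ 2 * k (pt F) (pt F)| ≤ n ^ 4 * t ^ 2 * η := fun hF h1 h2 => by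
    have := H _ _ (hF.smul t) (by
      rw [norm_smul, norm_of_nonneg t0.le, mul_comm]; gcongr) h2
    simp only [map_smul, LinearMap.smul_apply, smul_eq_mul] at this
    convert this using 1
    · congr 1; ring
    · ring
  have b : ∀ {F F' ϑ ϑ'}, As F → As F' → ‖F‖ ≤ 2 → ‖F'‖ ≤ 2 → Fx n (t • F) ϑ → Fx n (t • F') ϑ' →
      |G (ab ϑ') - G (ab ϑ)| ≤ D * t ^ 2 * n ^ 4 →
        |k (pt F') (pt F') - k (pt F) (pt F)| ≤ 2 * η + D := fun h1 h2 h3 h4 h5 h6 h7 => by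
      have a1 := abs_le.1 (a h1 h3 h5)
      have a2 := abs_le.1 (a h2 h4 h6)
      have a3 := abs_le.1 h7
      refine abs_le.2 ⟨le_of_mul_le_mul_left ?_ n0, le_of_mul_le_mul_left ?_ n0⟩ <;> linarith
  have m : ∀ p, ‖EE p‖ ≤ 2 := fun p => (norm_EE p).trans one_le_two
  refine ⟨?_, fun hG _ _ δ δ' ha hb => iso hs (fun σ => ?_) (fun p q j => ?_) ha hb⟩
  · have a1 := abs_le.1 (a (F := 0) (fun _ _ => by simp) (by simp) (by simpa using fx_zero))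
    have a2 := abs_le.1 (a (as_EE _) (m _) f0)
    simp only [map_zero, mul_zero, add_zero] at a1
    rw [abs_le, e1, le_sub_iff_add_le, le_div_iff₀ n0, sub_le_iff_le_add, div_le_iff₀ n0]
    constructor <;> linarith
  · exact b (as_EE _) ((as_EE _).pM σ) (m _) ((norm_pM σ).trans (m _)) f0 (f0.pm σ)
      ((hG _ (f2 _ _ (as_EE _) (m _) f0)).1 σ)
  · obtain ⟨_, h1⟩ := f1 p
    obtain ⟨_, h2⟩ := f1 q
    have h3 := h1.add h2
    have h4 : ‖EE p + EE q‖ ≤ 2 := (norm_add_le_of_le (norm_EE p) (norm_EE q)).trans_eq (by norm_num)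
    rw [← smul_add] at h3
    exact b ((as_EE p).add (as_EE q)) (((as_EE p).add (as_EE q)).rM j) h4 ((norm_rM j).trans h4) h3
      (by convert h3.rf j using 1; funext μ ν; simp [rM]; ring)
      ((hG _ (f2 _ _ ((as_EE p).add (as_EE q)) h4 h3)).2 j)

namespace LF

variable (h : LF S v e)
include h

/-- the exponent on a constant flux, for complex data -/
theorem val2 (hψ : PM S.p xb xk xr ψ) (hx : (xb + xk) * S.g ^ 2 ≤ 1) (hr : xr ≤ 1) (hF : As F)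
    (hd : ‖F‖ ≤ d) (d0 : 0 < d) (h1 : S.Q * d ≤ 4 * S.g) (x : St) :
    ‖S.Φ ψ x (Ho.em 0 (tF F))‖ ≤ 2⁻¹ := by
  have ρ0 := h.ρ0
  obtain ⟨a1, a2⟩ := h.val (ψ := 0) (xb := 0) (xk := 0) (xr := 0)
    (fun _ => ⟨(ps_zero _ _ ρ0).1, measurable_const⟩) (fun _ _ _ _ => rfl) hF hd d0 h1 x
  obtain ⟨c1, c2, -⟩ := h.small d0.le h1
  obtain ⟨k0, k1, -⟩ := (hψ x).1.elim
  have a3 := (hψ x).1.bd (Ho.real_em 0 (tF F)) (Ho.cv_em 0 (cc_val k1.cc hF hd c1).1) c2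
  have c := (cv_pt hF (3 * S.r)).mono le_rfl hd
  have a4 := h.cb _ _ _ _ c c
  obtain ⟨x0, x1, x2⟩ := (hψ x).1.nonneg ρ0
  have b0 := h.nu.ok.β0
  have g0 := h.nu.ok.g0
  have q := h.nu.cQ' (C := 10000) (by norm_num)
  have b1 : S.Q ^ 2 * d ^ 2 ≤ 16 * S.g ^ 2 := by
    rw [← mul_pow]; exact (pow_le_pow_left₀ (by positivity) h1 2).trans_eq (by ring)
  have b2 : S.Q ^ 2 * (S.β * d ^ 2) ≤ 16 := by
    nlinarith [mul_le_mul_of_nonneg_left b1 b0.le, h.nu.ok.βg]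
  have b3 : S.Q ^ 2 * ((xb + xk) * d ^ 2) ≤ 16 := by
    nlinarith [mul_le_mul_of_nonneg_left b1 (add_nonneg x0 x1)]
  have b4 : S.Q * (S.β * d ^ 2) ≤ 1 / 10 := by
    refine le_of_mul_le_mul_left ?_ S.Q0; nlinarith
  have b5 : (xb + xk) * d ^ 2 ≤ 1 / 1000 := by
    refine le_of_mul_le_mul_left ?_ (pow_pos S.Q0 2); nlinarith
  have b6 : d ≤ 1 := by nlinarith [h.nu.ok.g1]
  have b7 : d ^ 2 ≤ 1 := pow_le_one₀ d0.le b6
  have b8 : 2 * d / S.p.ρ ≤ 1 / 2 := by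
    rw [div_le_iff₀ ρ0, h.ρ]
    nlinarith [mul_le_mul_of_nonneg_right (le_self_pow₀ S.Q1 three_ne_zero) g0.le]
  have b9 : xr * (2 * d / S.p.ρ) ^ 3 ≤ 1 * (1 / 2) ^ 3 := by gcongr
  have c1 : |S.β * S.m (pt F) (pt F)| ≤ 1 / 10 := by
    rw [abs_mul, abs_of_pos b0]
    nlinarith [mul_le_mul_of_nonneg_left a4 b0.le,
      mul_le_mul_of_nonneg_right h.nu.L_le_Q (show 0 ≤ S.β * d ^ 2 by positivity)]
  have c3 : S.β * S.Q * d ^ 4 ≤ 1 / 10 := by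
    nlinarith [mul_le_mul_of_nonneg_left b7
      (show 0 ≤ S.Q * (S.β * d ^ 2) by have := S.Q0; positivity)]
  rw [qc] at a2
  erw [(ps_zero S.p.R 6 ρ0).2] at a2
  rw [show S.Φ ψ x (Ho.em 0 (tF F)) = S.Φ 0 x (Ho.em 0 (tF F)) + ψ x (Ho.em 0 (tF F)) by
    simp [Sd.Φ]]
  refine (norm_add_le_of_le (Complex.abs_re_eq_norm.2 a1).ge a3).trans ?_
  simp only [Complex.zero_re, add_zero, zero_mul] at a2
  have := abs_le.1 a2
  have := abs_le.1 c1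
  have : |(S.Φ 0 x (Ho.em 0 (tF F))).re| ≤ 1 / 5 := abs_le.2 ⟨by linarith, by linarith⟩
  linarith

theorem fd_num {t : ℝ} (t0 : 0 < t) (t2 : P * t ≤ 2 * S.g)
    (c3 : (S.p.R + 1 : ℝ) ≤ 5 * S.D0) (x0 : 0 ≤ x) (y0 : 0 ≤ y) (h2 : √S.g ≤ ω')
    (h3 : S.Q ^ 100 * ω' ≤ 1) (P1 : S.Q ^ 14 ≤ P) :
    324 * (x + S.Q ^ 2 * y) * (S.p.R + 1) ^ 3 * (2 * t) ^ 4 ≤ P ^ 2 * ω' * (x + y) * t ^ 2 ∧
      S.Q ^ 50 * ω' * y * S.g ^ 2 * (2 * (2 * t) / S.p.ρ) ^ 3 ≤ S.Q ^ 28 * ω' * (x + y) * t ^ 2 ∧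
      3 * (x + S.Q ^ 2 * y) * (2 * (2 * t)) ^ 2 + S.Q ^ 28 * ω' * (x + y) * t ^ 2 ≤
        49 * S.Q ^ 2 * (x + y) * t ^ 2 := by
  have Q0 := S.Q0
  have g0 := h.nu.ok.g0
  have s0 := sqrt_pos.2 g0
  have ω0 := s0.trans_le h2
  have P0 := (pow_pos Q0 14).trans_le P1
  have P2 : 1 ≤ P := (one_le_pow₀ S.Q1).trans P1
  have t3 : S.Q ^ 14 * t ≤ 2 * S.g := (mul_le_mul_of_nonneg_right P1 t0.le).trans t2
  have m := h.nu.mon (C := 10 ^ 12) (i := 0) (j := 3) (by norm_num) (by omega) (by omega)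
  have w0 : (S.p.R + 1 : ℝ) ^ 3 ≤ (5 * S.D0) ^ 3 := by gcongr
  have w1 : (x + S.Q ^ 2 * y) ≤ S.Q ^ 2 * (x + y) := by
    linarith only [mul_le_mul_of_nonneg_right (one_le_pow₀ (n := 2) S.Q1) x0]
  have xy := mul_nonneg (add_nonneg x0 y0) (sq_nonneg t)
  have g2 : S.g ≤ ω' := le_trans (le_sqrt_of_sq_le (by nlinarith only [h.nu.ok.g1, g0])) h2
  have w2 : S.Q ^ 3 * t ^ 2 ≤ P ^ 2 * ω' := by
    have a : S.Q ^ 3 * t ≤ 2 * S.g := (mul_le_mul_of_nonneg_right (S.Qw (by norm_num)) t0.le).trans t3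
    have b : 1000 * t ≤ 2 * S.g := by
      simpa using (mul_le_mul_of_nonneg_right (qpw h.nu (i := 0) (j := 14) (by norm_num)) t0.le).trans t3
    nlinarith only [mul_le_mul a (show t ≤ 2⁻¹ by linarith [h.nu.ok.g1]) t0.le (by positivity), g2,
      mul_le_mul_of_nonneg_right (one_le_pow₀ (n := 2) P2) ω0.le]
  refine ⟨?_, ?_, ?_⟩
  · calc _ ≤ 324 * (S.Q ^ 2 * (x + y)) * (S.Q * 125 / 10 ^ 12) * (2 * t) ^ 4 := by
          gcongr; linarith only [w0, m]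
      _ = 648 / 10 ^ 9 * ((x + y) * t ^ 2) * (S.Q ^ 3 * t ^ 2) := by ring
      _ ≤ 1 * ((x + y) * t ^ 2) * (P ^ 2 * ω') := by gcongr; norm_num
      _ = _ := by ring
  · rw [h.ρ, show S.Q ^ 50 * ω' * y * S.g ^ 2 * (2 * (2 * t) / (S.Q ^ 3 * S.g)) ^ 3 =
      64 * S.Q ^ 27 * (S.Q ^ 14 * t / S.g) * ω' * y * t ^ 2 by field_simp; norm_num]
    have a := (div_le_iff₀ g0).2 t3
    have b := qpw h.nu (i := 27) (j := 28) (by norm_num)
    gcongr ?_ * _ * ?_ * _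
    · nlinarith only [mul_le_mul_of_nonneg_left a (pow_pos Q0 27).le, b, pow_pos Q0 27]
    · linarith only [x0]
  · have a := qom h.nu h3 (i := 28) (by norm_num)
    nlinarith only [mul_le_mul_of_nonneg_right w1 (sq_nonneg t), mul_le_mul_of_nonneg_right a xy,
      mul_le_mul_of_nonneg_right (one_le_pow₀ (n := 2) S.Q1) xy, xy]

/-- the flux lemma for directions -/
theorem fd {b d : Lx × Ac} {f f' : Conf → ℂ}
    (z : Sz S.p S.nf S.Q S.g u u ω b.1 b.2) (c : ∀ x, b.1 x = b.1 0)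
    (z' : Sz S.p S.nf S.Q S.g x y ω' d.1 d.2) (r : Re S.p S.nf d.1 d.2) (p : Rt S b d f f')
    (f0 : f (ab 0) ≠ 0) (hu : S.Q ^ 300 * u * S.g ^ 2 ≤ 1) (h1 : ω ≤ ω') (h2 : √S.g ≤ ω')
    (h3 : S.Q ^ 100 * ω' ≤ 1) (P1 : S.Q ^ 14 ≤ P) (P2 : P ^ 2 ≤ S.β) :
    |gm S.nf (S.g / P) f f' - (qc (d.1 0) En.e1 En.e1).re| ≤ 10 * P ^ 2 * ω' * (x + y) ∧
      ∀ D, Asy S.nf (S.g / P) D (lg f f') → ∀ a a' δ δ', Cv 0 δ a → Cv 0 δ' a' →
        ‖qc (d.1 0) a a' - ((qc (d.1 0) En.e1 En.e1).re * m0 a a' : ℝ)‖ ≤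
          64 * (10 * P ^ 2 * ω' * (x + y) + D) * δ * δ' := by
  have _ := c
  have Q0 := S.Q0
  obtain ⟨t0, t1, t2, t3⟩ := h.tq_bd ((le_self_pow₀ S.Q1 (by norm_num)).trans P1) P2
  obtain ⟨κ, κ', p⟩ := p
  obtain ⟨hψ, k, hK, h0⟩ := z
  obtain ⟨hψ', k', hK', h0'⟩ := z'
  have ρ0 := h.ρ0
  obtain ⟨k0, k1, k2, -⟩ := (hψ' 0).1.elim
  obtain ⟨x0, y0, -⟩ := (hψ' 0).1.nonneg ρ0
  obtain ⟨u0, -, -⟩ := (hψ 0).1.nonneg ρ0
  replace y0 := (mul_nonneg_iff_of_pos_left (pow_pos Q0 2)).1 y0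
  have o := h.nu.ok.odd_nf
  have g0 := h.nu.ok.g0
  have ω0 := (sqrt_pos.2 g0).trans_le h2
  have κ0 : κ ≠ 0 := fun e => f0 (by rw [(p _ fx_zero.per).1, e, zero_mul])
  have cd := TCov.cx o r.2.2
  have s1 : 1000 * (S.Q ^ 2 * (u * S.g ^ 2)) ≤ 1 := by
    linarith only [mul_le_mul_of_nonneg_right (qpw h.nu (i := 2) (j := 300) (by norm_num))
      (show 0 ≤ u * S.g ^ 2 by positivity), hu]
  have s2 : u * S.g ^ 2 ≤ S.Q ^ 2 * (u * S.g ^ 2) :=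
    le_mul_of_one_le_left (by positivity) (one_le_pow₀ S.Q1)
  have s3 : ω * u * S.g ^ 2 ≤ ω' := by
    rw [mul_assoc]
    exact (mul_le_mul_of_nonneg_right h1 (by positivity)).trans
      (mul_le_of_le_one_right ω0.le (by linarith only [s1, s2]))
  have s4 := qom h.nu h3 (i := 50) (by norm_num)
  have s5 := qom h.nu h3 (i := 1) (by norm_num)
  have key := fun D => iso_def (G := lg f f') (k := reK k0) (c := κ'.re) (D := D)
    (η := 5 * P ^ 2 * ω' * (x + y)) h.n0 t0 (fun a b => by simp [k1.symm a]) fun F ϑ hF hd hϑ => by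
      obtain ⟨c1, c2, -, -, c3⟩ := h.small (by linarith only [t0]) t3
      obtain ⟨w1, w2, w3⟩ := h.fd_num t0 t2 c3 x0 y0 h2 h3 P1
      have v := ps_val (hψ' 0).1 hF hd c1 c2
      have v1 := (hψ' 0).1.bd (Ho.real_em 0 (tF F)) (Ho.cv_em 0 (cc_val k1.cc hF hd c1).1) c2
      obtain ⟨b1, b2⟩ := rep_der (Φ := S.Φ b.1) (Φ' := d.1) (δ := 49 * S.Q ^ 2 * (x + y) *
        tq S.nf (S.g / P) ^ 2) h.pg1.1 o hK hK' (h0.mono s3) h0' ω0
        (le_trans (by rw [inv_eq_one_div, le_div_iff₀ Q0]; linarith only [s5, mul_pos Q0 ω0])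
          h.pg1.2) hϑ.per (h.chi hϑ hd t3) one_pos fun x => ⟨by
          rw [hϑ.bx hF, one_div]
          exact h.val2 hψ (by linarith only [s1, s2]) (by
            linarith only [mul_le_mul_of_nonneg_left s3 (pow_pos Q0 50).le, s4]) hF hd
            (by linarith only [t0]) t3 x, by
          rw [hϑ.bx hF, cd]
          exact v1.trans (by linarith only [w2, w3])⟩
      simp only [hϑ.bx hF, cd, sum_const, nsmul_eq_mul] at b2
      have e : f' (ab ϑ) / f (ab ϑ) = dR S b d (ab ϑ) / Rep S.p S.nf (S.Φ b.1) b.2 (ab ϑ) + κ' := by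
        rw [(p _ hϑ.per).2, (p _ hϑ.per).1]
        field_simp
      have e' : ∀ t : ℂ, S.Φ b.1 + t • d.1 = S.Φ (b.1 + t • d.1) := fun t => by
        funext x B; simp [Sd.Φ, add_assoc]
      simp only [e'] at b2
      have b3 := (Complex.abs_re_le_norm _).trans b2
      have v2 := (Complex.abs_re_le_norm _).trans v
      rw [qc, k2, cc_eq hF, Complex.sub_re] at v2
      rw [Complex.add_re, ← Complex.ofReal_natCast, card_dom o, Complex.re_ofReal_mul] at b3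
      rw [lg, e, Complex.add_re, add_sub_cancel_right, reK_apply, dR]
      have n0 : (0 : ℝ) ≤ S.nf ^ 4 := by positivity
      generalize tq S.nf (S.g / P) = t at *
      have xy := mul_nonneg (add_nonneg x0 y0) (sq_nonneg t)
      have P3 : S.Q ^ 28 ≤ P ^ 2 := by
        rw [show 28 = 14 * 2 from rfl, pow_mul]; gcongr
      have w4 := mul_le_mul_of_nonneg_right P3 (mul_nonneg ω0.le xy)
      have w5 := mul_le_mul_of_nonneg_right (qpw h.nu (i := 2) (j := 28) (by norm_num))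
        (mul_nonneg ω0.le xy)
      have w6 : ω' * y * S.g ^ 2 ≤ ω' * (x + y) * (P * t) ^ 2 := by
        gcongr
        linarith only [x0]
      have w7 := mul_nonneg (pow_pos Q0 2).le (mul_nonneg ω0.le xy)
      have b4 := abs_le.1 (b3.trans (mul_le_mul_of_nonneg_right (show _ ≤
        3 * (P ^ 2 * ω' * (x + y) * t ^ 2) by linarith only [w4, w5, w6, w7]) n0))
      have w8 := mul_le_mul_of_nonneg_right (v2.trans (show _ ≤
        2 * (P ^ 2 * ω' * (x + y) * t ^ 2) by linarith only [w1, w2, w4])) n0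
      rw [← abs_of_nonneg n0, ← abs_mul, abs_of_nonneg n0, abs_le] at w8
      exact abs_le.2 ⟨by linarith only [b4.1, w8.1, w8.2], by linarith only [b4.2, w8.1, w8.2]⟩
  have e1 : (qc (d.1 0) En.e1 En.e1).re = reK k0 En.e1 En.e1 := by rw [qc, k2, cc_e1]; rfl
  rw [e1]
  refine ⟨(key 0).1.trans_eq (by ring), fun D hD a a' δ δ' ha ha' => ?_⟩
  have i := (hψ' 0).1.real_q2 ρ0 (r.1 0) (cc a) (cc a')
  rw [← Complex.abs_re_eq_norm.2 (by simpa [qc] using i), Complex.sub_re, Complex.ofReal_re, qc, k2]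
  exact ((key D).2 hD a a' δ δ' ha ha').trans_eq (by ring)

end LF

end Pool.Agent.Lib.MP_7f377f_mp.RG.Q4.En
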