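import Pool.Agent.Lib.MP_7f377f_mp.Q5TanA
import Pool.Agent.Lib.MP_7f377f_mp.Q5Sch

/-! Real motion in the marginal direction: the run without symmetry. -/

noncomputable section

namespace Pool.Agent.Lib.MP_7f377f_mp.RG.Q4.En

open Finset Real Sd

/-- a state with rescaled tree data -/
def Z.sc (z : Z) (s : ℝ) : Z := { z with v := s * z.v, m := s • z.m, T := fun B => s * z.T B }

/-- the invariant of a run without symmetry -/
structure Gl.Ow (G : Gl) (J k : ℕ) (z : Z) (u C : ℝ) (f : Conf → ℂ) : Prop where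
  tz : G.Tz J k z
  dt : G.Dt k z u u √(G.g k) z.ψ z.K f
  cb : ∀ a b δ δ', Cv 0 δ a → Cv 0 δ' b → ‖qc (z.ψ 0) a b‖ ≤ C * δ * δ'
  q : |(qc (z.ψ 0) e1 e1).re| ≤ G.g k ^ 2

theorem Gl.nx_m (G : Gl) (k : ℕ) (z : Z) : (G.nx k z).m = G.lam k z • (G.td k z).m1 :=
  congrArg (fun t : Td => G.lam k z • t.m1) (show (G.sd k z).toTd = G.td k z from rfl)

theorem Gl.nx_T (G : Gl) (k : ℕ) (z : Z) :
    (G.nx k z).T = fun B => G.lam k z * (G.td k z).T1 B := rfl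

namespace Gl.Ok

variable {G : Gl} (h : G.Ok) {b s u C : ℝ} {J i j k : ℕ} {z : Z} {f : Conf → ℂ}
include h

theorem vz_le (A : G.Tu b J) (hk : k ≤ J) : |(G.zz b J k).v - 1| ≤ 1000⁻¹ :=
  (A.v k hk).trans (by
    have := h.inv_le k (i := 0) (j := 409) (by norm_num)
    rw [pow_zero, inv_one] at this
    linarith)

theorem tz_sc (A : G.Tu b J) (hi : i ≤ J) (hs : |s - 1| ≤ 200⁻¹) :
    G.Tz J i ((G.zz b J i).sc s) ∧ |((G.zz b J i).sc s).v - 1| ≤ 100⁻¹ := by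
  have v := abs_le.1 (h.vz_le A hi)
  have s1 := abs_le.1 hs
  have c : |s * (G.zz b J i).v - 1| ≤ 100⁻¹ := abs_le.2 ⟨by nlinarith, by nlinarith⟩
  have c' := abs_le.1 c
  refine ⟨⟨fun j hj => ?_, (A.gd i hi).tz.e, c.trans (by norm_num)⟩, c⟩
  rcases hi.eq_or_lt with rfl | hi
  · rw [zz_top] at c' ⊢
    have e : (fun B => (s : ℂ) * ((b / G.bb i : ℝ) * TW B)) = fun B => (s * (b / G.bb i) : ℝ) * TW B :=
      funext fun B => by rw [Complex.ofReal_mul, mul_assoc]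
    change _ ≤ s * (b / G.bb i) - 1 ∧ s * (b / G.bb i) - 1 ≤ _ at c'
    rcases hj with rfl | rfl
    · exact (h.sl_all j ((G.top b j).sc s)).nu.tr_zero (v := s * (b / G.bb j)) (by linarith)
        (by linarith) (smul_smul ..) e
    · exact (h.sd_all j ((G.top b (j + 1)).sc s)).nu.tr_zero (v := s * (b / G.bb (j + 1)))
        (by linarith) (by linarith) (smul_smul ..) e
  · have t := (A.gd _ hi).tz
    have a := abs_le.1 (h.lam_le' (A.lam i hi).1)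
    rw [zz_step b hi] at c' ⊢
    generalize G.zz b J (i + 1) = z at *
    change _ ≤ s * (G.lam i z * z.v) - 1 ∧ _ at c'
    have := ((h.sd_all i z).s1 _ _ _ (s * G.lam i z) (v12 t).1 (v12 t).2 (ze0 t) (h.ze2 t)
      (t.tr i (.inr rfl)) (h.ln t (.inr rfl)) (by linarith [c'.1])
      (abs_le.2 ⟨by nlinarith, by nlinarith⟩)).2 (G.td j ((G.nx i z).sc s)) rfl rfl ?_
      (smul_smul ..) (funext fun B => by rw [Complex.ofReal_mul, mul_assoc]; rfl)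
    · rwa [mul_assoc s] at this
    · rcases hj with rfl | rfl
      exacts [.inl rfl, h.sch.size j]

theorem ow_top (A : G.Tu b J) (hi : i ≤ J) {t : ℝ} (ht : |t| ≤ G.bb i / 200) (u1 : 1 ≤ u) :
    G.Ow J i ((G.zz b J i).sc (1 + t / G.bb i)) u 1 (G.wf i (G.zz b J i) i t) ∧
      |((G.zz b J i).sc (1 + t / G.bb i)).v - 1| ≤ 100⁻¹ := by
  have b0 := h.b0 i
  obtain ⟨a1, a2⟩ := h.tz_sc A hi (s := 1 + t / G.bb i) (by
    rw [add_sub_cancel_left, abs_div, abs_of_pos b0, div_le_iff₀ b0]; linarith)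
  have d := A.gd i hi
  generalize G.zz b J i = z at *
  refine ⟨⟨a1, ⟨Pos.sz_mono (h.ρ0 i) (h.Q0 i).le (sqrt_nonneg _) d.dt.sz u1 u1, d.dt.re, 1, one_pos,
    fun U _ => ?_⟩, (d.dt.sz.1 0).1.cb, d.q⟩, a2⟩
  rw [h.sl_nf, wf, tt_top, Complex.ofReal_one, one_mul]
  congr 1
  funext y B
  have : (G.bb i : ℂ) ≠ 0 := Complex.ofReal_ne_zero.2 b0.ne'
  change (G.bb i : ℂ) * (cx z.m B B + z.T B) + (z.ψ y B + t * (cx z.m B B + z.T B)) =
    (G.bb i : ℂ) * (cx ((1 + t / G.bb i) • z.m) B B + (1 + t / G.bb i : ℝ) * z.T B) + z.ψ y B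
  rw [cx_smul]
  push_cast
  field_simp
  ring

theorem ow_step (hk : k < J) (d : G.Ow J (k + 1) z u C f) (hv : |z.v - 1| ≤ 20⁻¹) (u1 : 1 ≤ u)
    (u3 : u ≤ G.Q k ^ 3) (hC : 64 * (C + 2 * G.Q k ^ 2) ≤ u) :
    G.Ow J k (G.nx k z) u (C + 2 * G.Q k ^ 2) (TT (G.l k) (G.a k) (G.N k) f) ∧
      |G.lam k z - 1| ≤ 3 * G.Q k / G.bb k ∧ |G.bb k * (G.nx k z).v - G.bb (k + 1) * z.v -
        (qc (G.sd k z).ol e1 e1).re| ≤ (G.Q k ^ 900)⁻¹ := by
  have nu := (h.sd_all k z).nu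
  have s := h.st2 d.tz
  have q0 := h.Q0 k
  have g0 := h.g0 (k + 1)
  have v := abs_le.1 hv
  have w : ∀ i < 1000, 1000 * (G.Q k ^ i * √(G.g (k + 1))) ≤ 1 := fun i hi => by
    rw [← mul_assoc]
    exact (mul_le_mul_of_nonneg_right ((h.qpw k hi).trans (pow_le_pow_left₀ q0.le
      (h.Q_mono k.le_succ) _)) (sqrt_nonneg _)).trans (h.Qsg (k + 1))
  have s0 := sqrt_nonneg (G.g (k + 1))
  have s1 : √(G.g (k + 1)) ≤ 1 := by linarith [w 0 (by norm_num)]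
  have s2 : G.g (k + 1) ^ 2 ≤ √(G.g (k + 1)) * √(G.g (k + 1)) := by
    rw [mul_self_sqrt g0.le]; nlinarith only [h.g1 (k + 1), g0]
  have hω : G.Q k ^ 100 * √(G.g (k + 1)) ≤ 1 := by linarith [w 100 (by norm_num)]
  obtain ⟨p1, p2⟩ := lin_step nu s (h.sz_sd d.dt.sz z) le_rfl hω
  have p3 : ∀ a b δ δ', Cv 0 δ a → Cv 0 δ' b → ‖qc ((G.sd k z).PL z.ψ z.K 0) a b - qc (z.ψ 0) a b‖ ≤
      2 * (G.Q k ^ 53 * √(G.g (k + 1))) * δ * δ' := fun a b δ δ' ha hb => by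
    refine (p2 (TCov.cx (h.N_odd _) d.dt.re.2.2) a b δ δ' ha hb).trans ?_
    refine mul_le_mul_of_nonneg_right (mul_le_mul_of_nonneg_right ?_ ha.nonneg) hb.nonneg
    change G.Q k ^ 50 * √(G.g (k + 1)) * _ ≤ _
    linarith only [mul_le_mul_of_nonneg_left u3 (mul_nonneg (pow_pos q0 50).le s0)]
  have a1 := (Complex.abs_re_le_norm _).trans (p3 _ _ _ _ cv_e1 cv_e1)
  have a2 : |(qc ((G.sd k z).PL z.ψ z.K 0) e1 e1).re| ≤ (G.Q k ^ 900)⁻¹ := by
    rw [Complex.sub_re] at a1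
    refine ((abs_sub_abs_le_abs_sub _ _).trans a1 |> sub_le_iff_le_add.1).trans ?_
    rw [inv_eq_one_div, le_div_iff₀ (pow_pos q0 _)]
    linarith only [w 953 (by norm_num), w 900 (by norm_num), mul_le_mul_of_nonneg_right
      (d.q.trans (s2.trans (mul_le_of_le_one_right s0 s1))) (pow_pos q0 900).le]
  have a3 : |(qc (G.sd k z).ol e1 e1).re| ≤ G.Q k := by
    exact ((Complex.abs_re_le_norm _).trans ((s.ol.1 0).1.cb _ _ _ _ cv_e1 cv_e1)).trans_eq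
      ((mul_one _).trans (mul_one _))
  have e : G.kp k z * z.v = _ := div_mul_cancel₀ _ (by linarith)
  have a4 : |G.kp k z| ≤ 2 * G.Q k := by
    have := (abs_add_le _ _).trans (add_le_add a3 (a2.trans (inv_le_one_of_one_le₀
      (one_le_pow₀ (h.Q1 k)))))
    rw [← e, abs_mul, abs_of_pos (show 0 < z.v by linarith)] at this
    nlinarith only [this, v, abs_nonneg (G.kp k z), h.cQ k (C := 10) (by norm_num)]
  obtain ⟨t, a5⟩ := h.tree1 d.tz hk hv a4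
  have gg := h.g_succ k
  have D := h.step1 d.tz hk hv a4 d.dt u1 le_rfl hω (by
    nlinarith only [mul_le_mul u3 s2 (sq_nonneg _) (pow_pos q0 3).le, w 118 (by norm_num), s0,
      pow_pos q0 115, mul_le_mul_of_nonneg_left (mul_le_mul u3 s2 (sq_nonneg _) (pow_pos q0 3).le)
        (pow_pos q0 115).le]) (u' := u) (by linarith) u1 (by gcongr) le_rfl
  obtain ⟨c1, -, c2⟩ := h.src_ps d.tz hk hv a4
  have c3 : ∀ a b, qc ((G.nx k z).ψ 0) a b = _ := (PM.add (h.ρ0 k) p1 c1).2 0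
  have cb : ∀ a b δ δ', Cv 0 δ a → Cv 0 δ' b → ‖qc ((G.nx k z).ψ 0) a b‖ ≤
      (C + 2 * G.Q k ^ 2) * δ * δ' := fun a b δ δ' ha hb => by
    rw [c3]
    refine (norm_add_le_of_le ((norm_le_norm_add_norm_sub' _ _).trans (add_le_add
      (d.cb a b δ δ' ha hb) (p3 a b δ δ' ha hb))) ((c1 0).1.cb a b δ δ' ha hb)).trans ?_
    linarith only [mul_le_mul_of_nonneg_right (show 2 * (G.Q k ^ 53 * √(G.g (k + 1))) ≤ G.Q k ^ 2 by
      linarith only [w 53 (by norm_num), one_le_pow₀ (n := 2) (h.Q1 k)])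
      (mul_nonneg ha.nonneg hb.nonneg)]
  refine ⟨⟨t, h.imp D cb hC, cb, ?_⟩, a5, (congrArg _ ?_).trans_le a2⟩
  · rw [c3, Complex.add_re]
    rw [e] at c2
    exact (congrArg _ (by ring)).trans_le c2
  · change G.bb k * (G.lam k z * z.v) - _ - _ = _
    rw [lam, ← mul_assoc, mul_div_cancel₀ _ (h.b0 k).ne', add_mul, e]
    ring

theorem ow_flux (d : G.Ow J k z u C f) (u3 : u ≤ G.Q k ^ 3) :
    (∀ ϑ, Fw (G.N k) (G.fx k) ϑ → (f (ab ϑ)).im = 0 ∧ 0 < (f (ab ϑ)).re) ∧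
    |bh (G.N k) (G.fx k) f - G.bb k * z.v| ≤ (G.Q k ^ 490)⁻¹ ∧
      Asy (G.N k) (G.fx k) (G.Q k ^ 5) fun U => log (f U).re := by
  obtain ⟨a1, k0, a2, a3⟩ := h.sz_sl d.dt.sz z
  have q0 := h.Q0 k
  have q1 := h.Q1 k
  have g0 := h.g0 k
  have nu := (h.sl_all k z).nu
  have u0 : 0 ≤ u := ((d.dt.sz.1 0).1.nonneg (h.ρ0 k)).1
  have w : ∀ i < 997, 1000 * (G.Q k ^ i * (√(G.g k) * u)) ≤ 1 := fun i hi => by
    refine le_trans ?_ (h.Qsg k)
    calc _ ≤ 1000 * (G.Q k ^ i * (√(G.g k) * G.Q k ^ 3)) := by gcongr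
      _ = 1000 * G.Q k ^ (i + 3) * √(G.g k) := by ring
      _ ≤ _ := mul_le_mul_of_nonneg_right (h.qpw k (by omega)) (sqrt_nonneg _)
  have w' : ∀ i < 4000, 1000 * (G.Q k ^ i * G.g k ^ 2) ≤ 1 := fun i hi => by
    rw [← mul_assoc]
    exact (mul_le_mul_of_nonneg_right (h.Qbb k hi) (sq_nonneg _)).trans_eq (h.bg k)
  have g1 : G.g k ^ 2 ≤ 1 := by linarith [w' 0 (by norm_num), sq_nonneg (G.g k)]
  obtain ⟨c1, c2, c3⟩ := (h.lf d.tz).flux2 a1 a2 a3 (h.re_sl d.dt.re z) d.dt.rp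
    (P := G.Q k ^ 250) (η := (G.Q k ^ 495)⁻¹) (by
      change (u + G.Q k ^ 2 * u) * G.g k ^ 2 ≤ 1
      linarith only [mul_le_mul_of_nonneg_right u3 (sq_nonneg (G.g k)), w' 5 (by norm_num),
        w' 3 (by norm_num), mul_le_mul_of_nonneg_right u3
          (mul_nonneg (sq_nonneg (G.Q k)) (sq_nonneg (G.g k)))]) (by
      change G.Q k ^ 50 * √(G.g k) * u * G.g k ^ 2 ≤ 1
      linarith only [mul_le_mul_of_nonneg_left g1
        (show 0 ≤ G.Q k ^ 50 * (√(G.g k) * u) by positivity), w 50 (by norm_num)]) (by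
      change 2 * G.Q k * (√(G.g k) * u * G.g k ^ 2) ≤ 1
      linarith only [mul_le_mul_of_nonneg_left g1 (show 0 ≤ G.Q k * (√(G.g k) * u) by positivity),
        w 1 (by norm_num)]) (le_self_pow₀ q1 (by norm_num))
    (by rw [← pow_mul]; exact (pow_le_pow_right₀ q1 (by norm_num)).trans (h.Qb k)) (by
      change G.Q k ^ 2 / (G.Q k ^ 250) ^ 2 + G.Q k ^ 50 * √(G.g k) * u * G.g k ^ 2 /
        (G.Q k ^ 9 * G.g k ^ 2) + 2 * (G.Q k ^ 250) ^ 2 * (√(G.g k) * u * G.g k ^ 2) / G.g k ^ 2 ≤ _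
      rw [inv_eq_one_div, le_div_iff₀ (pow_pos q0 _)]
      calc _ = (G.Q k ^ 3)⁻¹ + G.Q k ^ 536 * (√(G.g k) * u) +
            2 * (G.Q k ^ 995 * (√(G.g k) * u)) := by field_simp
        _ ≤ _ := by
          linarith only [w 536 (by norm_num), w 995 (by norm_num), (h.inv_le k (i := 0) (j := 3)
            (by norm_num)).trans_eq (by simp : _ = (1 : ℝ))])
  rw [h.sl_nf] at c1 c2 c3
  have c4 := h.inv_le k (i := 490) (j := 495) (by norm_num)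
  have c5 := h.inv_le k (i := 495) (j := 4000) (by norm_num)
  have c6 := inv_pos.2 (pow_pos q0 4000)
  have c7 : (G.Q k ^ 495)⁻¹ ≤ 1 := inv_le_one_of_one_le₀ (one_le_pow₀ q1)
  have c8 : 10 * (G.Q k ^ 495)⁻¹ + 8 * u ≤ G.Q k ^ 5 := by
    linarith only [c7, u3, h.qpw k (i := 3) (j := 5) (by norm_num), one_le_pow₀ (n := 3) q1]
  have q := abs_le.1 (d.q.trans (h.g_le k))
  have c9 := mul_le_mul_of_nonneg_right (mul_le_mul_of_nonneg_right c8
    (sq_nonneg (tq (G.N k) (G.fx k)))) (show (0 : ℝ) ≤ G.N k ^ 4 by positivity)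
  refine ⟨c1, ?_, fun ϑ a => ⟨fun σ => ((c3 ϑ a).1 σ).trans c9, fun j => ((c3 ϑ a).2 j).trans c9⟩⟩
  change |bh _ (G.fx k) f - (G.bb k * z.v + _)| ≤ _ at c2
  rw [abs_le] at c2 ⊢
  constructor <;> linarith only [c2.1, c2.2, q.1, q.2, c4, c5, c6]

/-- the one loop term at the end of a chain of states -/
theorem af_seq {y : ℕ → Z} (go : G.l (k + G.l k) = G.l k)
    (tz : ∀ j, k < j → j ≤ k + G.l k + 1 → G.Tz J j (y j))
    (nx : ∀ j, k < j → j ≤ k + G.l k → y j = G.nx j (y (j + 1)) ∧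
      |G.lam j (y (j + 1)) - 1| ≤ 3 * G.Q j / G.bb j) :
    |(qc (G.sd k (y (k + 1))).ol e1 e1).re + G.bn (G.l k)| ≤ (G.Q k ^ 500)⁻¹ := by
  have eL : ∀ j, k ≤ j → j ≤ k + G.l k → G.L j = G.L k := fun j h1 h2 =>
    le_antisymm ((h.L_mono h2).trans_eq (congrArg LL go)) (h.L_mono h1)
  have el : ∀ j, k ≤ j → j ≤ k + G.l k → G.l j = G.l k := fun j h1 h2 => by
    have := eL j h1 h2
    unfold L LL at this
    omega
  obtain ⟨t, ht⟩ : ∃ t : ℕ → Td, ∀ s, t s = G.td (k + G.l k - s) (y (k + G.l k - s + 1)) :=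
    ⟨_, fun _ => rfl⟩
  have L0 : (0 : ℝ) < G.L k := by linarith [h.L1 k]
  have := (h.sd_all k (y (k + 1))).af (G.l k) t le_rfl ⟨fun s hs => by
    rw [ht]; exact ⟨rfl, rfl, rfl, el _ (by omega) (by omega)⟩, fun s hs => ?_, fun s hs => ?_⟩
  · rwa [ht, Nat.add_sub_cancel] at this
  · have a := tz (k + G.l k - s + 1) (by omega) (by omega)
    refine ⟨_, _, _, _, ?_, a.v, ze0 a, ?_, ht s ▸ a.tr _ (.inr rfl), ht s ▸ h.ln a (.inr rfl)⟩
    · rcases Nat.eq_zero_or_pos s with rfl | s0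
      · exact (h.sch.size (k + G.l k)).imp (·.trans (congrArg LL go)) fun e =>
          ⟨rfl, e.trans (congrArg (3 * LL ·) go)⟩
      · exact .inl (eL _ (by omega) (by omega))
    · have b1 := (h.Lb k (i := G.κ) (by have := h.B1; omega)).trans
        (h.b_mono (show k ≤ k + G.l k - s + 1 by omega))
      have b2 := (one_le_pow₀ (h.Q1 _)).trans (h.Qb (k + G.l k - s + 1))
      change _ ≤ ((G.L k : ℝ) ^ G.κ)⁻¹
      rw [inv_eq_one_div, le_div_iff₀ (by positivity)]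
      exact (mul_le_mul_of_nonneg_left (b1.trans (le_self_pow₀ b2 two_ne_zero)) (ze0 a)).trans
        (h.ze1 a)
  · obtain ⟨j, hj⟩ : ∃ j, j = k + G.l k - s := ⟨_, rfl⟩
    obtain ⟨a1, a2⟩ := nx j (by omega) (by omega)
    have a3 : |G.lam j (y (j + 1)) - 1| ≤ ((G.L k : ℝ) ^ G.κ)⁻¹ := by
      have b1 := h.Lb j (i := G.K + G.κ + 1) (by have := h.B1; omega)
      refine a2.trans ?_
      rw [inv_eq_one_div, div_le_div_iff₀ (h.b0 _) (by positivity), one_mul, Q]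
      rw [eL _ (by omega) (by omega)] at b1 ⊢
      refine le_trans ?_ b1
      rw [pow_succ', pow_add, mul_assoc]
      gcongr
      linarith [h.L1 k]
    refine ⟨G.lam j (y (j + 1)), a3, ?_⟩
    rw [ht, ht, show k + G.l k - (s + 1) + 1 = j by omega, ← hj]
    exact ⟨(congrArg Z.m a1).trans (G.nx_m ..), (congrArg Z.T a1).trans (G.nx_T ..)⟩

theorem w_real (A : G.Tu b J) (go : G.Go J k) (hi : i = k + G.l k + 1) (t : ℝ)
    (ht : |t| ≤ G.bb i / 200) :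
    (∀ j, j = k ∨ j = k + 1 → ∀ ϑ, Fw (G.N j) (G.fx j) ϑ →
      (G.wf i (G.zz b J i) j t (ab ϑ)).im = 0 ∧ 0 < (G.wf i (G.zz b J i) j t (ab ϑ)).re) ∧
    |bh (G.N k) (G.fx k) (G.wf i (G.zz b J i) k t) -
      bh (G.N (k + 1)) (G.fx (k + 1)) (G.wf i (G.zz b J i) (k + 1) t) + G.bn (G.l k)| ≤
        (G.Q k ^ 485)⁻¹ ∧
    Asy (G.N (k + 1)) (G.fx (k + 1)) (G.Q k ^ 5)
      fun U => log (G.wf i (G.zz b J i) (k + 1) t U).re := by
  have iJ : i ≤ J := hi ▸ go.1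
  have q0 := h.Q0 k
  have q1 := h.Q1 k
  have eQ : ∀ j, k ≤ j → j < i → G.Q j = G.Q k := fun j h1 h2 =>
    le_antisymm ((h.Q_mono (show j ≤ k + G.l k by omega)).trans_eq (by rw [Q, L, go.2]; rfl))
      (h.Q_mono h1)
  obtain ⟨a1, a2⟩ := h.ow_top A iJ ht (one_le_pow₀ (n := 3) q1)
  obtain ⟨y, hy⟩ : ∃ y : ℕ → Z, ∀ j, y j = dw G.nx ((G.zz b J i).sc (1 + t / G.bb i)) i j :=
    ⟨_, fun _ => rfl⟩
  have y1 : ∀ j < i, y j = G.nx j (y (j + 1)) := fun j hj => by rw [hy, hy, dw_step _ _ hj]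
  have n1 : ∀ j, k ≤ j → 1000 * ((i - j : ℕ) : ℝ) ≤ G.Q k := fun j hj => by
    have : ((i - j : ℕ) : ℝ) ≤ G.L k := by exact_mod_cast (by unfold L LL; omega)
    nlinarith [h.LQ' k (i := 2) (by norm_num), h.L1 k]
  have st : ∀ j < i, k ≤ j → G.Ow J (j + 1) (y (j + 1)) (G.Q k ^ 3)
      (1 + (i - (j + 1) : ℕ) * (2 * G.Q k ^ 2)) (G.wf i (G.zz b J i) (j + 1) t) →
      |(y (j + 1)).v - 1| ≤ 100⁻¹ + (i - (j + 1) : ℕ) / G.Q k → _ := fun j hj kj c1 c2 =>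
    h.ow_step (hj.trans_le iJ) c1 (c2.trans (by
      have := (div_le_iff₀ q0).2 (show ((i - (j + 1) : ℕ) : ℝ) ≤ 1000⁻¹ * G.Q k by
        linarith [n1 (j + 1) (by omega)])
      linarith)) (one_le_pow₀ q1) (eQ j kj hj ▸ le_rfl) (by
        rw [eQ j kj hj]
        nlinarith [n1 (j + 1) (by omega), h.qpw k (i := 2) (j := 3) (by norm_num),
          one_le_pow₀ (n := 2) q1])
  have inv : ∀ j ≤ i, k ≤ j → G.Ow J j (y j) (G.Q k ^ 3) (1 + (i - j : ℕ) * (2 * G.Q k ^ 2))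
      (G.wf i (G.zz b J i) j t) ∧ |(y j).v - 1| ≤ 100⁻¹ + (i - j : ℕ) / G.Q k :=
    dw_ind (fun _ => by rw [hy, dw_top]; simpa using ⟨a1, a2⟩) fun j hj ih kj => by
      obtain ⟨c1, c2⟩ := ih (by omega)
      obtain ⟨c3, c4, -⟩ := st j hj kj c1 c2
      have e : ((i - j : ℕ) : ℝ) = (i - (j + 1) : ℕ) + 1 := by
        exact_mod_cast (by omega : i - j = i - (j + 1) + 1)
      rw [eQ j kj hj] at c3 c4
      rw [y1 j hj, wf, tt_step _ hj, e, add_one_mul, ← add_assoc, add_div, ← add_assoc]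
      refine ⟨c3, ?_⟩
      have c5 : 3 * G.Q k / G.bb j * 2 ≤ 1 / G.Q k := by
        rw [div_mul_eq_mul_div, div_le_div_iff₀ (h.b0 j) q0]
        linarith [h.Qbb j (i := 2) (by norm_num), eQ j kj hj ▸ pow_pos q0 2,
          show G.Q j ^ 2 = G.Q k * G.Q k by rw [eQ j kj hj, sq]]
      change |G.lam j _ * _ - 1| ≤ _
      rw [show ∀ a v : ℝ, a * v - 1 = v - 1 + (a - 1) * v from fun _ _ => by ring]
      refine (abs_add_le _ _).trans (add_le_add c2 (le_trans ?_ c5))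
      rw [abs_mul]
      exact mul_le_mul c4 (abs_le.2 ⟨by linarith [(v12 c1.tz).1], (v12 c1.tz).2⟩) (abs_nonneg _)
        ((abs_nonneg _).trans c4)
  have l1 : k + 1 < i := by have := h.sch.big k; have := h.l1; unfold l at hi; omega
  have st' := fun j hj kj => st j hj kj (inv _ hj (by omega)).1 (inv _ hj (by omega)).2
  obtain ⟨f1, f2, -⟩ := h.ow_flux (inv k (by omega) le_rfl).1 le_rfl
  obtain ⟨f3, f4, f5⟩ := h.ow_flux (inv (k + 1) l1.le k.le_succ).1 (eQ _ k.le_succ l1 ▸ le_rfl)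
  have f6 := abs_le.1 (st' k (by omega) le_rfl).2.2
  have f7 := abs_le.1 (h.af_seq go.2 (fun j h1 h2 => (inv j (by omega) h1.le).1.tz)
    fun j h1 h2 => ⟨y1 j (by omega), (st' j (by omega) h1.le).2.1⟩)
  rw [eQ _ k.le_succ l1] at f4 f5
  rw [← y1 k (by omega)] at f6
  refine ⟨by rintro j (rfl | rfl); exacts [f1, f3], ?_, f5⟩
  have c1 := h.inv_le k (i := 485) (j := 490) (by norm_num)
  have c2 := h.inv_le k (i := 490) (j := 500) (by norm_num)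
  have c3 := h.inv_le k (i := 500) (j := 900) (by norm_num)
  have c4 := inv_pos.2 (pow_pos q0 900)
  rw [abs_le] at f2 f4 ⊢
  constructor <;> linarith only [f2.1, f2.2, f4.1, f4.2, f6.1, f6.2, f7.1, f7.2, c1, c2, c3, c4]

end Gl.Ok

end Pool.Agent.Lib.MP_7f377f_mp.RG.Q4.En
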