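import Pool.Agent.Lib.MP_7f377f_mp.Q4EG
import Pool.Agent.Lib.MP_7f377f_mp.Q4EPs

/-! One step of the flow. -/

noncomputable section

namespace Pool.Agent.Lib.MP_7f377f_mp.RG.Q4.En

open Finset Real MeasureTheory Sd

theorem TT_mul {l n : ℕ} {a : ℝ} {f f' : Conf → ℂ} {κ : ℂ}
    (h : ∀ U, Per (LL l * n) U → f U = κ * f' U) (W : Conf) :
    TT l a n f W = κ * TT l a n f' W := by
  rw [TT, TT, ← integral_const_mul]
  exact congrArg _ (funext fun v => by rw [h _ (per_pc _ _), mul_assoc])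

theorem TCov.add {n : ℕ} {ψ : Lx} {K : Ac} (h : TCov n ψ K) (φ : Fld → ℂ) :
    TCov n (ψ + fun _ => φ) K := fun v =>
  ⟨funext fun x => congrArg (· + φ) (congrFun (h v).1 x), (h v).2⟩

namespace Gl.Ok

variable {G : Gl} (h : G.Ok) {b b' x x' y u u' ω ω' C : ℝ} {J J' i k : ℕ} {z : Z} {ψ : Lx} {K : Ac}
  {f : Conf → ℂ}
include h

theorem ρ0 (k : ℕ) : 0 < (G.p k).ρ := (h.sl_all k (G.top0 0 0)).nu.p_ok.1.ρ0

theorem g1 (k : ℕ) : G.g k ≤ 1 := (h.sl_all k (G.top0 0 0)).nu.ok.g1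

theorem qpw (k : ℕ) {i j : ℕ} (e : i < j) : 1000 * G.Q k ^ i ≤ G.Q k ^ j :=
  En.qpw (h.sl_all k (G.top0 0 0)).nu e

theorem sz_sd (d : G.Sz (k + 1) x y ω ψ K) (z : Z) : En.Sz (G.sd k z).p (G.sd k z).nf (G.sd k z).QM
    (G.sd k z).g x y ω ψ K := by rw [h.sd_nf]; exact d

theorem sz_sl (d : G.Sz k x y ω ψ K) (z : Z) : En.Sz (G.sl k z).p (G.sl k z).nf (G.sl k z).Q
    (G.sl k z).g x y ω ψ K := by rw [h.sl_nf]; exact d

theorem re_sl (d : Re (G.p k) (G.N k) ψ K) (z : Z) : Re (G.sl k z).p (G.sl k z).nf ψ K := by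
  rw [h.sl_nf]; exact d

theorem Qbb (k : ℕ) {i : ℕ} (hi : i < 4000) : 1000 * G.Q k ^ i ≤ G.bb k :=
  (h.qpw k hi).trans (h.Qb k)

theorem lam_le (hκ : |G.kp k z| ≤ 2 * G.Q k) : |G.lam k z - 1| ≤ 3 * G.Q k / G.bb k := by
  have b0 := h.b0 k
  have a : G.bb k ≤ G.bb (k + 1) ∧ G.bb (k + 1) ≤ G.bb k + G.L k := h.sch.le k
  rw [lam, div_sub_one b0.ne', abs_div, abs_of_pos b0]
  gcongr
  rw [abs_le] at *
  constructor <;> linarith [h.LQ k]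

theorem lam_le' (hκ : |G.kp k z| ≤ 2 * G.Q k) : |G.lam k z - 1| ≤ 100⁻¹ :=
  (h.lam_le hκ).trans ((div_le_iff₀ (h.b0 k)).2 (by
    linarith [h.Qbb k (i := 1) (by norm_num), h.Q0 k]))

theorem tree1 (t : G.Tz J (k + 1) z) (hk : k < J) (hv : |z.v - 1| ≤ 20⁻¹)
    (hκ : |G.kp k z| ≤ 2 * G.Q k) :
    G.Tz J k (G.nx k z) ∧ |G.lam k z - 1| ≤ 3 * G.Q k / G.bb k := by
  have a := h.lam_le' hκ
  have c : |G.lam k z * z.v - 1| ≤ 10⁻¹ := by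
    rw [abs_le] at *
    constructor <;> nlinarith
  refine ⟨⟨fun i hi => ((h.sd_all k z).s1 _ _ _ _ (v12 t).1 (v12 t).2 (ze0 t) (h.ze2 t)
    (t.tr k (.inr rfl)) (h.ln t (.inr rfl)) (by linarith [(abs_le.1 c).1])
    (a.trans (by norm_num))).2 _ rfl rfl ?_ rfl rfl, ?_, c⟩, h.lam_le hκ⟩
  · rcases hi with rfl | rfl
    exacts [.inl rfl, h.sch.size i]
  · rw [sum_eq_sum_Ico_succ_bot hk, add_comm, ← t.e]; rfl

theorem src_ps (t : G.Tz J (k + 1) z) (hk : k < J) (hv : |z.v - 1| ≤ 20⁻¹)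
    (hκ : |G.kp k z| ≤ 2 * G.Q k) :
    PM (G.p k) (G.Q k ^ 2) (G.Q k ^ 2 / 4) (G.Q k ^ 50 * √(G.g k) * G.g k ^ 2 / 4)
        (fun _ => src (G.sd k z) (G.kp k z)) ∧
      RealP (G.p k) (fun _ => src (G.sd k z) (G.kp k z)) ∧
      |(qc (src (G.sd k z) (G.kp k z)) e1 e1).re - ((qc (G.sd k z).ol e1 e1).re -
        G.kp k z * z.v)| ≤ G.g k ^ 2 := by
  have a := abs_le.1 (h.lam_le' hκ)
  have l0 : 0 < G.lam k z := by linarith
  have lf := h.lf (h.tree1 t hk hv hκ).1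
  have k1 : |G.kp k z / G.lam k z| ≤ 4 * G.Q k := by
    rw [abs_div, abs_of_pos l0, div_le_iff₀ l0]
    nlinarith [h.Q0 k]
  obtain ⟨a1, a2, a3⟩ := lf.src_ps (h.st2 t).ol.1 (h.st2 t).ol.2 k1
  have e : src (G.sd k z) (G.kp k z) = fun B => (G.sd k z).ol B - (G.kp k z / G.lam k z : ℝ) *
      (cx (G.lam k z • (G.sd k z).m1) B B + G.lam k z * (G.sd k z).T1 B) := funext fun B => by
    have : (G.lam k z : ℂ) ≠ 0 := Complex.ofReal_ne_zero.2 l0.ne'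
    rw [src, cx_smul]
    push_cast
    field_simp
  rw [e]
  refine ⟨a1, a2, ?_⟩
  have c := lf.cd cv_e1 cv_e1
  have e2 := congrArg Complex.re (a3 e1 e1)
  rw [← Complex.ofReal_mul, Complex.sub_re, Complex.ofReal_re] at e2
  rw [m0_e1, mul_one, ← mul_sub, abs_mul] at c
  erw [e2]
  rw [show ∀ o p m v : ℝ, o - p / G.lam k z * m - (o - p * v) = -(p / G.lam k z *
    (m - G.lam k z * v)) from fun _ _ _ _ => by field_simp; ring, abs_neg, abs_mul]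
  refine le_of_mul_le_mul_left ?_ (h.b0 k)
  change |G.bb k| * |_ - G.lam k z * z.v| ≤ 64 * G.g k ^ 2 * 1 * 1 at c
  rw [abs_of_pos (h.b0 k)] at c
  rw [mul_left_comm, h.bg]
  refine (mul_le_mul k1 c (mul_nonneg (h.b0 k).le (abs_nonneg _)) (by linarith [h.Q0 k])).trans ?_
  linarith [mul_le_mul_of_nonneg_right (h.Qbb k (i := 1) (by norm_num)) (sq_nonneg (G.g k)), h.bg k,
    mul_nonneg (h.Q0 k).le (sq_nonneg (G.g k))]

/-- one step without symmetry -/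
theorem step1 (t : G.Tz J (k + 1) z) (hk : k < J) (hv : |z.v - 1| ≤ 20⁻¹)
    (hκ : |G.kp k z| ≤ 2 * G.Q k) (d : G.Dt (k + 1) z u u ω ψ K f) (u1 : 1 ≤ u)
    (h1 : √(G.g (k + 1)) ≤ ω) (hω : G.Q k ^ 100 * ω ≤ 1)
    (h2 : G.Q k ^ 115 * u * G.g (k + 1) ^ 2 ≤ ω) (h3 : u ≤ 2 * u') (u1' : 1 ≤ u')
    (h4 : ω * u * G.g (k + 1) ^ 2 ≤ ω' * u' * G.g k ^ 2) (h5 : √(G.g k) ≤ ω') :
    G.Dt k (G.nx k z) (G.Q k ^ 2 + 2 * u) u' ω' (G.hs k z (ψ, K)).1 (G.hs k z (ψ, K)).2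
      (TT (G.l k) (G.a k) (G.N k) f) := by
  have nu := (h.sd_all k z).nu
  have s := h.st2 t
  have sz := h.sz_sd d.sz z
  obtain ⟨a1, -⟩ := lin_step nu s sz h1 hω
  obtain ⟨⟨b, θ, k0, sm⟩, k', b1, b2⟩ := ball_step nu s sz u1 h1 hω h2
  obtain ⟨c1, c2, -⟩ := h.src_ps t hk hv hκ
  obtain ⟨r1, r2, r3⟩ := s.real _ _ _ _ _ sm d.re.1 d.re.2.1
  have ω0 : 0 ≤ ω := (sqrt_nonneg _).trans h1
  have q0 := h.Q0 k
  have w := qom nu hω (i := 50) (by norm_num)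
  have w0 : 0 ≤ ω * u * G.g (k + 1) ^ 2 := by positivity
  refine ⟨⟨PM.mono (h.ρ0 k) (PM.add (h.ρ0 k) a1 c1).1 ?_ ?_ ?_, k', b1, b2.mono ?_⟩,
    ⟨fun x B h1 h2 => ?_, r2, TCov.add (s.cov _ _ _ _ _ sm (by rw [h.sd_nf]; exact d.re.2.2)) _⟩,
    ?_⟩
  · change u + G.Q k ^ 50 * ω * (u + u) + _ ≤ _
    change 1000 * (G.Q k ^ 50 * ω) ≤ 1 at w
    linarith only [mul_le_mul_of_nonneg_right w (zero_le_one.trans u1), u1]
  · change G.Q k ^ 2 * _ + _ ≤ _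
    linarith only [mul_le_mul_of_nonneg_left h3 (pow_pos q0 2).le, pow_pos q0 2,
      mul_le_mul_of_nonneg_left u1' (pow_pos q0 2).le]
  · change G.Q k ^ 50 * ω * _ * G.g (k + 1) ^ 2 + _ ≤ _
    have := mul_le_mul_of_nonneg_left h4 (pow_pos q0 50).le
    have := mul_le_mul_of_nonneg_left (mul_le_mul h5 u1' zero_le_one ((sqrt_nonneg _).trans h5))
      (show 0 ≤ G.Q k ^ 50 * G.g k ^ 2 by positivity)
    have := mul_nonneg (pow_pos q0 50).le w0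
    linarith
  · change ω * u * G.g (k + 1) ^ 2 / 2 ≤ _
    linarith
  · exact (Complex.add_im _ _).trans (by rw [r1 x B h1 h2, c2 x B h1 h2, add_zero])
  · obtain ⟨κ, κ0, p⟩ := d.rp
    refine ⟨κ * exp (∑ y ∈ (G.sd k z).Λ', (G.sd k z).Ey ψ K y).re, by positivity, fun W hW => ?_⟩
    rw [h.sl_nf] at p hW ⊢
    rw [← h.sd_nf k z] at p
    refine ((TT_mul p W).trans (congrArg ((κ : ℂ) * ·) (s.id _ _ _ _ _ sm W hW))).trans ?_
    rw [Complex.ofReal_mul, mul_assoc (κ : ℂ), Complex.ofReal_exp]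
    congr 3
    · exact Complex.ext rfl (by simp [r3])
    · funext y B
      have : (G.bb k : ℂ) ≠ 0 := Complex.ofReal_ne_zero.2 (h.b0 k).ne'
      change (G.bb (k + 1) : ℂ) * _ + _ + _ = (G.bb k : ℂ) * (cx (G.lam k z • _) B B +
        G.lam k z * _) + (_ + src _ _ B)
      rw [src, cx_smul, lam]
      push_cast
      field_simp
      ring

/-- improvement of the size of the marginal part -/
theorem imp (d : G.Dt k z x y ω ψ K f)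
    (hC : ∀ a b δ δ', Cv 0 δ a → Cv 0 δ' b → ‖qc (ψ 0) a b‖ ≤ C * δ * δ') (hx : 64 * C ≤ x') :
    G.Dt k z x' y ω ψ K f := by
  have c : 0 ≤ C := by simpa using (norm_nonneg _).trans (hC _ _ _ _ cv_e1 cv_e1)
  refine ⟨⟨fun w => ⟨?_, (d.sz.1 w).2⟩, d.sz.2⟩, d.re, d.rp⟩
  rw [TCov.cx (h.N_odd k) d.re.2.2 w]
  exact { (d.sz.1 0).1 with cb := fun a b δ δ' ha hb => (hC a b δ δ' ha hb).trans (by
    have := ha.nonneg; have := hb.nonneg; gcongr; linarith) }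

theorem gd_top (hb : |b / G.bb J - 1| ≤ 10⁻¹) : G.Gd b J J (G.top b J) := by
  have v := abs_le.1 hb
  have z0 := ps_zero (G.p J).R 6 (h.ρ0 J)
  have g0 := h.g0 J
  have q0 := h.Q0 J
  have nu := (h.sl_all J (G.top b J)).nu
  have b0 := h.b0 J
  have b1 : G.bb J / 4 ≤ b := by
    have := (le_div_iff₀ b0).1 (show 2⁻¹ ≤ b / G.bb J by linarith)
    linarith
  have a1 := nu.KI_km' b1 (wz_ww (b := fun _ _ _ => (b : ℝ)) (by linarith) fun _ _ _ => le_rfl)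
  have a2 := nu.kI_kn b1 (j := 2) (by norm_num)
  have a5 := fun U => nu.init_rep (v := b / G.bb J) rfl rfl 0 (U := U)
  rw [h.sl_nf] at a1 a2 a5
  refine ⟨⟨fun i hi => ?_, (sum_empty.symm.trans (by rw [Ico_self]) : (0 : ℝ) = _), hb⟩,
    ⟨⟨fun _ => ⟨z0.1.mono' (h.ρ0 J) zero_le_one (mul_nonneg (sq_nonneg _) zero_le_one) (mul_nonneg
    (mul_nonneg (mul_nonneg (pow_pos q0 _).le (sqrt_nonneg _)) zero_le_one) (sq_nonneg _)),
    measurable_const⟩, _, a1, a2.mono ?_⟩, ⟨fun _ _ _ _ => rfl,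
    KI_real fun x U => ww_real fun _ _ => rfl, fun v => ⟨rfl, fun o ho =>
      KI_tr (h.N_odd J) v (fun _ _ _ _ => ww_fq rfl) ho⟩⟩, 1, one_pos, fun U hU => ?_⟩, ?_⟩
  · rcases hi with rfl | rfl
    · exact nu.tr_zero (v := b / G.bb i) (by linarith) (by linarith) rfl rfl
    · exact (h.sd_all i (G.top b (i + 1))).nu.tr_zero (v := b / G.bb (i + 1)) (by linarith)
        (by linarith) rfl rfl
  · rw [mul_one, pow_succ']
    exact mul_le_mul_of_nonneg_right (le_sqrt_of_sq_le (show G.g J ^ 2 ≤ _ by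
      nlinarith only [h.g1 J, g0])) (sq_nonneg _)
  · rw [h.sl_nf] at hU ⊢
    have := a5 U hU
    have e : ((b / G.bb J : ℝ) : ℂ) * (G.sl J (G.top b J)).β = b := by
      rw [← Complex.ofReal_mul]; exact congrArg _ (div_mul_cancel₀ _ b0.ne')
    simp only [Pi.zero_apply, add_zero, zero_mul, e] at this
    rw [f_top, Complex.ofReal_one, one_mul]
    exact (wil_eq_prod ..).trans this
  · rw [qc]
    erw [z0.2]
    simp [sq_nonneg]

theorem flux1 (t : G.Tz J k z) (d : G.Dt k z x 1 √(G.g k) ψ K f) (s : Sym (G.N k) f)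
    (hx : x ≤ G.Q k ^ 3) {P : ℝ} (P1 : G.Q k ≤ P) (P2 : P ≤ G.Q k ^ 250) :
    |bh (G.N k) (G.g k / P) f - (G.bb k * z.v + (qc (ψ 0) e1 e1).re)| ≤
      3 * (G.Q k ^ 2 / P ^ 2 + (G.Q k ^ 497)⁻¹) ∧ ∀ a b δ δ', Cv 0 δ a → Cv 0 δ' b →
        ‖qc (ψ 0) a b‖ ≤ (8 * |(qc (ψ 0) e1 e1).re| + 300 * (G.Q k ^ 2 / P ^ 2 +
          (G.Q k ^ 497)⁻¹)) * δ * δ' := by
  obtain ⟨a1, k0, a2, a3⟩ := h.sz_sl d.sz z
  have q0 := h.Q0 k
  have g0 := h.g0 k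
  have nu := (h.sl_all k z).nu
  have w : ∀ i < 1000, 1000 * (G.Q k ^ i * √(G.g k)) ≤ 1 := fun i hi => by
    rw [← mul_assoc]
    exact (mul_le_mul_of_nonneg_right (h.qpw k hi) (sqrt_nonneg _)).trans (h.Qsg k)
  have w' : ∀ i < 4000, 1000 * (G.Q k ^ i * G.g k ^ 2) ≤ 1 := fun i hi => by
    rw [← mul_assoc]
    exact (mul_le_mul_of_nonneg_right (h.Qbb k hi) (sq_nonneg _)).trans_eq (h.bg k)
  have g1 : G.g k ^ 2 ≤ 1 := by linarith [w' 0 (by norm_num), sq_nonneg (G.g k)]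
  have P3 : P ^ 2 ≤ G.Q k ^ 500 := (pow_le_pow_left₀ (q0.le.trans P1) P2 2).trans_eq (by ring)
  rw [← h.sl_nf k z] at s ⊢
  refine (h.lf t).flux a1 a2 a3 (h.re_sl d.re z) s d.rp ?_ ?_ ?_ P1
    (P3.trans (by linarith [h.Qbb k (i := 500) (by norm_num), pow_pos q0 500] : _ ≤ G.bb k)) ?_
  · change (x + G.Q k ^ 2 * 1) * G.g k ^ 2 ≤ 1
    linarith only [mul_le_mul_of_nonneg_right hx (sq_nonneg (G.g k)), w' 2 (by norm_num),
      w' 3 (by norm_num)]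
  · change G.Q k ^ 50 * √(G.g k) * 1 * G.g k ^ 2 ≤ 1
    linarith only [mul_le_mul_of_nonneg_left g1 (show 0 ≤ G.Q k ^ 50 * √(G.g k) by positivity),
      w 50 (by norm_num)]
  · change 2 * G.Q k * (√(G.g k) * 1 * G.g k ^ 2) ≤ 1
    linarith only [mul_le_mul_of_nonneg_left g1 (show 0 ≤ G.Q k * √(G.g k) by positivity),
      w 1 (by norm_num)]
  · change G.Q k ^ 2 / P ^ 2 + G.Q k ^ 50 * √(G.g k) * 1 * G.g k ^ 2 / (G.Q k ^ 9 * G.g k ^ 2) +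
      2 * P ^ 2 * (√(G.g k) * 1 * G.g k ^ 2) / G.g k ^ 2 ≤ _
    rw [add_assoc, add_le_add_iff_left, inv_eq_one_div, le_div_iff₀ (pow_pos q0 _)]
    calc _ = G.Q k ^ 538 * √(G.g k) + 2 * (P ^ 2 * (G.Q k ^ 497 * √(G.g k))) := by field_simp
      _ ≤ G.Q k ^ 538 * √(G.g k) + 2 * (G.Q k ^ 500 * (G.Q k ^ 497 * √(G.g k))) := by gcongr
      _ ≤ _ := by linarith only [w 538 (by norm_num), w 997 (by norm_num)]

theorem inv_le (k : ℕ) {i j : ℕ} (e : i < j) : 1000 * (G.Q k ^ j)⁻¹ ≤ (G.Q k ^ i)⁻¹ := by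
  have q0 := h.Q0 k
  rw [← div_eq_mul_inv, div_le_iff₀ (pow_pos q0 _), le_inv_mul_iff₀ (pow_pos q0 _), mul_comm]
  exact h.qpw k e

theorem g_le (k : ℕ) : G.g k ^ 2 ≤ (G.Q k ^ 4000)⁻¹ := by
  rw [inv_eq_one_div, le_div_iff₀' (pow_pos (h.Q0 k) _)]
  exact (mul_le_mul_of_nonneg_right (h.Qb k) (sq_nonneg _)).trans_eq (h.bg k)

theorem Q498 (k : ℕ) : G.Q k ^ 2 / (G.Q k ^ 250) ^ 2 = (G.Q k ^ 498)⁻¹ := by
  have := h.Q0 k
  field_simp

theorem meas (b0 : 0 ≤ b) (d : G.Gd b J k z) :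
    |bh (G.N k) (G.g k / G.Q k) (G.f b J k) - G.bb k * z.v| ≤ 7 ∧
      |bh (G.N k) (G.g k / G.Q k ^ 250) (G.f b J k) - G.bb k * z.v| ≤ (G.Q k ^ 490)⁻¹ := by
  have s := ((h.f_facts J k).1 b b0).2.1
  have q1 := h.Q1 k
  have a1 := abs_le.1 (h.flux1 d.tz d.dt s (one_le_pow₀ q1) le_rfl (le_self_pow₀ q1 (by norm_num))).1
  have a2 := abs_le.1 (h.flux1 d.tz d.dt s (one_le_pow₀ q1) (le_self_pow₀ q1 (by norm_num)) le_rfl).1
  rw [div_self (pow_pos (h.Q0 k) _).ne'] at a1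
  rw [h.Q498] at a2
  have q := abs_le.1 (d.q.trans (h.g_le k))
  have c1 := h.inv_le k (i := 0) (j := 490) (by norm_num)
  have c2 := h.inv_le k (i := 490) (j := 497) (by norm_num)
  have c3 := h.inv_le k (i := 497) (j := 498) (by norm_num)
  have c4 := h.inv_le k (i := 498) (j := 4000) (by norm_num)
  have c5 := inv_pos.2 (pow_pos (h.Q0 k) 4000)
  rw [pow_zero, inv_one] at c1
  generalize (G.Q k ^ 490)⁻¹ = w1, (G.Q k ^ 497)⁻¹ = w2, (G.Q k ^ 498)⁻¹ = w3,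
    (G.Q k ^ 4000)⁻¹ = w4 at *
  exact ⟨abs_le.2 ⟨by linarith, by linarith⟩, abs_le.2 ⟨by linarith, by linarith⟩⟩

theorem gd_step (b0 : 0 ≤ b) (hk : k < J) (d : G.Gd b J (k + 1) z) (hv : |z.v - 1| ≤ 20⁻¹) :
    G.Gd b J k (G.nx k z) ∧ |G.kp k z| ≤ 2 * G.Q k ∧ |G.lam k z - 1| ≤ 3 * G.Q k / G.bb k ∧
      |(qc (G.sd k z).ol e1 e1).re| ≤ G.Q k ∧ |G.bb k * (G.nx k z).v - G.bb (k + 1) * z.v -
        (qc (G.sd k z).ol e1 e1).re| ≤ (G.Q k ^ 900)⁻¹ := by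
  have nu := (h.sd_all k z).nu
  have s := h.st2 d.tz
  have q0 := h.Q0 k
  have g0 := h.g0 (k + 1)
  have v := abs_le.1 hv
  have w : ∀ i < 1000, 1000 * (G.Q k ^ i * √(G.g (k + 1))) ≤ 1 := fun i hi => by
    rw [← mul_assoc]
    exact (mul_le_mul_of_nonneg_right ((h.qpw k hi).trans (pow_le_pow_left₀ q0.le
      (h.Q_mono k.le_succ) _)) (sqrt_nonneg _)).trans (h.Qsg (k + 1))
  have s0 := sqrt_nonneg (G.g (k + 1))
  have s1 : √(G.g (k + 1)) ≤ 1 := by linarith [w 0 (by norm_num)]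
  have s2 : G.g (k + 1) ^ 2 ≤ √(G.g (k + 1)) * √(G.g (k + 1)) := by
    rw [mul_self_sqrt g0.le]; nlinarith only [h.g1 (k + 1), g0]
  have hω : G.Q k ^ 100 * √(G.g (k + 1)) ≤ 1 := by linarith [w 100 (by norm_num)]
  obtain ⟨p1, p2⟩ := lin_step nu s (h.sz_sd d.dt.sz z) le_rfl hω
  have a1 := (Complex.abs_re_le_norm _).trans
    (p2 (TCov.cx (h.N_odd _) d.dt.re.2.2) _ _ _ _ cv_e1 cv_e1)
  have a2 : |(qc ((G.sd k z).PL z.ψ z.K 0) e1 e1).re| ≤ (G.Q k ^ 900)⁻¹ := by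
    change _ ≤ G.Q k ^ 50 * _ * (1 + 1) * 1 * 1 at a1
    rw [Complex.sub_re] at a1
    refine ((abs_sub_abs_le_abs_sub _ _).trans a1 |> sub_le_iff_le_add.1).trans ?_
    rw [inv_eq_one_div, le_div_iff₀ (pow_pos q0 _)]
    linarith only [w 950 (by norm_num), w 900 (by norm_num), mul_le_mul_of_nonneg_right
      (d.q.trans (s2.trans (mul_le_of_le_one_right s0 s1))) (pow_pos q0 900).le]
  have a3 : |(qc (G.sd k z).ol e1 e1).re| ≤ G.Q k := by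
    exact ((Complex.abs_re_le_norm _).trans ((s.ol.1 0).1.cb _ _ _ _ cv_e1 cv_e1)).trans_eq
      ((mul_one _).trans (mul_one _))
  have e : G.kp k z * z.v = _ := div_mul_cancel₀ _ (by linarith)
  have a4 : |G.kp k z| ≤ 2 * G.Q k := by
    have := (abs_add_le _ _).trans (add_le_add a3 (a2.trans (inv_le_one_of_one_le₀
      (one_le_pow₀ (h.Q1 k)))))
    rw [← e, abs_mul, abs_of_pos (show 0 < z.v by linarith)] at this
    nlinarith only [this, v, abs_nonneg (G.kp k z), h.cQ k (C := 10) (by norm_num)]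
  obtain ⟨t, a5⟩ := h.tree1 d.tz hk hv a4
  have gg := h.g_succ k
  have D := h.step1 d.tz hk hv a4 d.dt le_rfl le_rfl hω (by
    nlinarith only [mul_le_mul_of_nonneg_left s2 (pow_pos q0 115).le, w 115 (by norm_num), s0])
    (by norm_num) le_rfl (by gcongr) le_rfl
  rw [← h.f_step b hk] at D
  obtain ⟨c1, -, c2⟩ := h.src_ps d.tz hk hv a4
  have q : |(qc ((G.nx k z).ψ 0) e1 e1).re| ≤ G.g k ^ 2 := by
    erw [(PM.add (h.ρ0 k) p1 c1).2, Complex.add_re]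
    rw [e] at c2
    exact (congrArg _ (by ring)).trans_le c2
  refine ⟨⟨t, h.imp D (h.flux1 t D ((h.f_facts J k).1 b b0).2.1 ?_ (le_self_pow₀ (h.Q1 k)
    (by norm_num)) le_rfl).2 ?_, q⟩, a4, a5, a3, (congrArg _ ?_).trans_le a2⟩
  · linarith only [h.qpw k (i := 2) (j := 3) (by norm_num), one_le_pow₀ (n := 2) (h.Q1 k)]
  · have c1 := h.inv_le k (i := 0) (j := 1) (by norm_num)
    have c2 := h.inv_le k (i := 1) (j := 497) (by norm_num)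
    have c3 := h.inv_le k (i := 497) (j := 498) (by norm_num)
    have c4 := h.inv_le k (i := 498) (j := 4000) (by norm_num)
    have c5 := inv_pos.2 (pow_pos (h.Q0 k) 4000)
    have := q.trans (h.g_le k)
    rw [pow_zero, inv_one] at c1
    rw [h.Q498]
    change 64 * (8 * |(qc ((G.nx k z).ψ 0) e1 e1).re| + _) ≤ 1
    generalize (G.Q k ^ 1)⁻¹ = w1, (G.Q k ^ 497)⁻¹ = w2, (G.Q k ^ 498)⁻¹ = w3,
      (G.Q k ^ 4000)⁻¹ = w4 at *
    linarith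
  · change G.bb k * (G.lam k z * z.v) - _ - _ = _
    rw [lam, ← mul_assoc, mul_div_cancel₀ _ (h.b0 k).ne', add_mul, e]
    ring

end Gl.Ok

end Pool.Agent.Lib.MP_7f377f_mp.RG.Q4.En
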