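import Pool.Agent.Lib.MP_7f377f_mp.Q4FinA
import Pool.Agent.Lib.MP_7f377f_mp.Q4MeasKer

/-! Transfer from periodic fields to fields on discrete tori: measures. -/

noncomputable section

namespace Pool.Agent.Lib.MP_7f377f_mp.RG.Q4.Fi

open MeasureTheory Measure Finset YM4 Ms
open scoped Quaternion ENNReal

theorem meas2 {A B C D : Type} [MeasurableSpace A] [MeasurableSpace B] [MeasurableSpace C]
    [MeasurableSpace D] (f : A → B → C) (h : Measurable fun v : A × B => f v.1 v.2) {g : D → A}
    {k : D → B} (hg : Measurable g) (hk : Measurable k) : Measurable fun x => f (g x) (k x) :=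
  h.comp (hg.prodMk hk)

theorem abs_step {X X' Ω Ω' Z Z' : Type} [MeasurableSpace X] [MeasurableSpace X']
    [MeasurableSpace Ω] [Countable Ω'] [MeasurableSpace Z] [MeasurableSpace Z'] (ν : Measure X')
    (O : Measure Ω) (N : Measure Z) [IsProbabilityMeasure ν] [IsProbabilityMeasure O]
    [IsProbabilityMeasure N] {i : X' → X} {D : X × Ω → ℝ≥0∞} {Φ : (X × Ω) × Z → Z'} {r : Z → Z'}
    (v : Ω → Ω') (c : Ω' → ℝ≥0∞) {E : Ω' → X' → ℝ≥0∞} {Ψ : Ω' → X' × Z' → Z'}
    (mi : Measurable i) (mD : Measurable D) (mΦ : Measurable Φ) (mr : Measurable r)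
    (mE : ∀ ω, Measurable (E ω)) (mΨ : ∀ ω, Measurable (Ψ ω))
    (hO : ∀ H : Ω' → ℝ≥0∞, ∫⁻ ω, H (v ω) ∂O = ∑' ω, H ω * c ω)
    (hD : ∀ U ω, D (i U, ω) = E (v ω) U) (hΦ : ∀ U ω ξ, Φ ((i U, ω), ξ) = Ψ (v ω) (U, r ξ)) :
    ((((ν.map i).prod O).withDensity D).prod N).map Φ = Measure.sum fun ω =>
      ((ν.withDensity fun U => E ω U * c ω).prod (N.map r)).map (Ψ ω) := by
  have : IsProbabilityMeasure (N.map r) := isProbabilityMeasure_map mr.aemeasurable
  refine Measure.ext_of_lintegral _ fun F hF => ?_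
  have mG : ∀ ω, Measurable fun U => ∫⁻ ξ, F (Ψ ω (U, ξ)) ∂N.map r := fun ω =>
    (hF.comp (mΨ ω)).lintegral_prod_right'
  have m1 : Measurable fun p => F (Φ p) := hF.comp mΦ
  have m2 : Measurable fun p => D p * ∫⁻ ξ, F (Φ (p, ξ)) ∂N := mD.mul m1.lintegral_prod_right'
  rw [lintegral_map hF mΦ, lintegral_prod _ m1.aemeasurable,
    lintegral_withDensity_eq_lintegral_mul _ mD m1.lintegral_prod_right', lintegral_sum_measure]
  refine (lintegral_prod _ m2.aemeasurable).trans ?_
  rw [lintegral_map m2.lintegral_prod_right' mi]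
  refine Eq.trans (lintegral_congr fun U => ?_) ((lintegral_tsum (μ := ν) fun ω =>
    (((mE ω).mul (mG ω)).mul_const (c ω)).aemeasurable).trans (tsum_congr fun ω => ?_))
  · rw [← hO]
    refine lintegral_congr fun ω => ?_
    have m3 : Measurable fun ξ => F (Ψ (v ω) (U, ξ)) :=
      (hF.comp (mΨ _)).comp measurable_prodMk_left
    simp only [Pi.mul_apply, hD, hΦ, lintegral_map m3 mr]
  · have m3 : Measurable fun p => F (Ψ ω p) := hF.comp (mΨ ω)
    rw [lintegral_map hF (mΨ ω), lintegral_prod _ m3.aemeasurable,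
      lintegral_withDensity_eq_lintegral_mul _ ((mE ω).mul_const _) (mG ω)]
    refine lintegral_congr fun U => ?_
    simp only [Pi.mul_apply]
    ring

variable {m n : ℕ}

instance mS : MeasurableSpace SU2 := borel _

instance bS : BorelSpace SU2 := ⟨rfl⟩

instance cO : Countable Om := inferInstanceAs (Countable (St × Equiv.Perm (Fin 4)))

instance sO : MeasurableSingletonClass Om := ⟨fun _ => trivial⟩

/-- change of type -/
def tr (ν : Measure S3) : Measure SU2 := ν

instance (ν : Measure S3) [h : IsProbabilityMeasure ν] : IsProbabilityMeasure (tr ν) := h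

theorem meas_rs : Measurable (rs n) := measurable_pi_lambda _ fun _ => measurable_pi_apply _

theorem meas_lf : Measurable (lf (n := n)) := measurable_pi_lambda _ fun _ => measurable_pi_apply _

theorem meas_pc : Measurable (pc n : Conf → Conf) :=
  measurable_pi_lambda _ fun _ => measurable_pi_apply _

theorem meas_pcs : Measurable (pcs n : (St → Om) → St → Om) :=
  measurable_pi_lambda _ fun _ => measurable_pi_apply _

theorem unO_single (l : ℕ) (o : Om) :
    unO l {o} = if o.1 ∈ box l then (24 * (LL l : ℝ≥0∞) ^ 4)⁻¹ else 0 := by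
  classical
  obtain ⟨S, e, c⟩ : ∃ S : Finset Om, (∀ ω : Om, ω ∈ S ↔ ω.1 ∈ box l) ∧
      S.card = 24 * LL l ^ 4 := by
    refine ⟨box l ×ˢ (univ : Finset (Equiv.Perm (Fin 4))),
      fun ω => ⟨fun h => (mem_product.1 h).1, fun h => mem_product.2 ⟨h, mem_univ _⟩⟩,
      (card_product _ _).trans ?_⟩
    rw [card_univ, Fintype.card_perm, box, Fintype.card_piFinset]
    simp only [Int.card_Icc, prod_const, card_univ, Fintype.card_fin]
    rw [show ((l : ℤ) + 1 - -(l : ℤ)).toNat = LL l by unfold LL; omega, mul_comm]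
    rfl
  rw [unO, show {ω : Om | ω.1 ∈ box l} = S from Set.ext fun ω => (e ω).symm, ← coe_singleton,
    ProbabilityTheory.uniformOn_apply_finset, c]
  split_ifs with h
  · rw [inter_singleton_of_mem ((e o).2 h)]
    simp
  · rw [inter_singleton_of_notMem fun h' => h ((e o).1 h')]
    simp

theorem cont_hk0 (a : ℝ) : Continuous (hk0 a) := by
  have := cont_q
  unfold hk0
  fun_prop

theorem prob_noise {a : ℝ} (ha : 0 ≤ a) :
    IsProbabilityMeasure (haar.withDensity fun g => ENNReal.ofReal (hk a g)) := ⟨by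
  have c : Continuous (hk a) := (cont_hk0 a).div_const _
  rw [withDensity_apply _ .univ, restrict_univ, ← ofReal_integral_eq_lintegral_ofReal
    (c.integrable_of_hasCompactSupport (HasCompactSupport.of_compactSpace _))
    (.of_forall fun g => ((hk_int ha).1 g).le), (hk_int ha).2, ENNReal.ofReal_one]⟩

variable [NeZero n]

theorem map_res (ν : Measure S3) [IsProbabilityMeasure ν] :
    (infinitePi fun _ : Lk => ν).map (rs n) = Measure.pi fun _ => tr ν := by
  rw [← infinitePi_eq_pi]
  exact map_infinitePi_infinitePi_of_inj (f := fun b : Site n × Fin 4 => (vl b.1, b.2))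
    fun a b h => Prod.ext (vl_inj (Prod.mk.inj h).1) (Prod.mk.inj h).2

theorem lint_OO (l : ℕ) (H : (Site n → Om) → ℝ≥0∞) :
    ∫⁻ ω, H (fun y => ω (vl y)) ∂OO l = ∑' ω, H ω * ∏ y, unO l {ω y} := by
  have := (wt_int l 1).2.2
  have e : (OO l).map (fun ω (y : Site n) => ω (vl y)) = Measure.pi fun _ => unO l := by
    rw [← infinitePi_eq_pi]
    exact map_infinitePi_infinitePi_of_inj vl_inj
  rw [← lintegral_map (measurable_of_countable H)
    (measurable_pi_lambda _ fun _ => measurable_pi_apply _), e, lintegral_countable']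
  simp only [pi_singleton]

theorem meas_block (l : ℕ) (hm : LL l * n = m) (ω : Site n → Om) :
    Measurable fun U : Cfg m => block l U ω := by
  have bl : (fun U : Cfg m => block l U ω) = rs n ∘ (fun v : Conf × (St → Om) => blk l v.1 v.2) ∘
      fun U => (lf U, pcs n fun x => ω (cst n x)) := funext fun U => by
    simp only [Function.comp]
    rw [blk_lift l hm]
    simp only [cst_vl]
  rw [bl]
  exact meas_rs.comp ((measurable_blk l).comp (meas_lf.prodMk measurable_const))

theorem noise_res {a : ℝ} (ha : 0 ≤ a) :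
    (infinitePi fun _ : Lk => haar.withDensity fun g => ENNReal.ofReal (hk a g)).map (rs n) =
      Measure.pi fun _ => (tr haar).tilted fun g => -(a * ‖g.1 - 1‖ ^ 2) := by
  have := prob_noise ha
  rw [map_res]
  rfl

omit [NeZero n] in
theorem meas_sm (l : ℕ) : Measurable fun v : (Conf × (St → Om)) × Conf =>
    pc n fun b => v.2 b * blk l v.1.1 (pcs n v.1.2) b := by
  have h2 : Measurable fun v : (Conf × (St → Om)) × Conf => blk l v.1.1 (pcs n v.1.2) :=
    meas2 (blk l) (measurable_blk l) measurable_fst.fst (meas_pcs.comp measurable_fst.snd)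
  have h3 : Measurable fun v : (Conf × (St → Om)) × Conf =>
      v.2 * blk l v.1.1 (pcs n v.1.2) := measurable_snd.mul h2
  exact meas_pc.comp h3

theorem meas_wt1 (l : ℕ) (x y : St) :
    Measurable fun v : Conf × (St → Om) => wt l (sh x v.1) (v.2 y) :=
  meas2 (wt l) (measurable_wt l) ((cont_sh x).measurable.comp measurable_fst)
    ((measurable_pi_apply y).comp measurable_snd)

theorem meas_wt2 (l : ℕ) (x : St) (o : Om) : Measurable fun U : Cfg m => wt l (sh x (lf U)) o :=
  meas2 (wt l) (measurable_wt l) ((cont_sh x).measurable.comp meas_lf) measurable_const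

theorem step_res {a : ℝ} (ha : 0 ≤ a) (l : ℕ) (hn : Odd n) (hm : LL l * n = m)
    (ν : Measure (Cfg m)) [IsProbabilityMeasure ν] :
    (stepM l a n (ν.map lf)).map (rs n) = step (tr haar) a l ν := by
  classical
  have := prob_noise ha
  have := (wt_int l 1).2.2
  have : IsProbabilityMeasure (OO l) := by unfold OO; infer_instance
  have mb : ∀ ω : Site n → Om, Measurable fun v : Cfg m × Cfg n => v.2 * block l v.1 ω :=
    fun ω => measurable_snd.mul ((meas_block l hm ω).comp measurable_fst)
  have eD : ∀ (U : Cfg m) (ω : Site n → Om), (∏ y, if (ω y).1 ∈ base l U (ctr l y) then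
      (24 * (base l U (ctr l y)).card : ℝ≥0∞)⁻¹ else 0) =
      (∏ y, ENNReal.ofReal (wt l (sh (up l (vl y)) (lf U)) (ω y))) * ∏ y, unO l {ω y} :=
    fun U ω => by
      rw [← prod_mul_distrib]
      refine prod_congr rfl fun y _ => ?_
      rw [unO_single, wt_lift, cst_up l hm]
  rw [stepM, map_map meas_rs (meas_sm l), step, ← noise_res ha]
  refine (abs_step ν (OO l) _ (fun ω (y : Site n) => ω (vl y)) _ meas_lf
    (Finset.measurable_prod _ fun y _ => meas_wt1 l _ y).ennreal_ofReal (meas_rs.comp (meas_sm l))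
    meas_rs (fun ω => Finset.measurable_prod univ fun y _ =>
      (meas_wt2 l (up l (vl y)) (ω y)).ennreal_ofReal) mb
    (lint_OO l) (fun U ω => ?_) fun U ω ξ => ?_).trans ?_
  · rw [prod_vl hn, ENNReal.ofReal_prod_of_nonneg fun y _ => ((wt_int l _).1 _).1]
  · simp only [Function.comp, rs_pc, ← blk_lift l hm]
    rfl
  · simp only [← eD]
    rfl

theorem fix_step (l : ℕ) (a : ℝ) (μ : Measure Conf) :
    ((stepM l a n μ).map (rs n)).map lf = stepM l a n μ := by
  rw [stepM, map_map meas_rs (meas_sm l), map_map meas_lf (meas_rs.comp (meas_sm l))]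
  congr 1
  funext p
  simp only [Function.comp, rs_pc, lf_rs]

theorem fix_law (f : Conf → ℂ) : ((lawOf n f).map (rs n)).map lf = lawOf n f := by
  rw [lawOf, map_map meas_rs meas_pc, map_map meas_lf (meas_rs.comp meas_pc)]
  congr 1
  funext p
  simp only [Function.comp, rs_pc, lf_rs]

theorem lint_PP {F : Conf → ℝ≥0∞} (hF : Measurable F) :
    ∫⁻ U, F (pc n U) ∂PP = ∫⁻ U : Cfg n, F (lf U) ∂Measure.pi fun _ => tr haar := by
  rw [← map_res, lintegral_map (f := fun U => F (lf U)) (hF.comp meas_lf) meas_rs]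
  simp only [lf_rs, PP]

theorem lawOf_res {f : Conf → ℂ} (hf : Measurable f) : (lawOf n f).map (rs n) =
    (∫⁻ U : Cfg n, ENNReal.ofReal (f (lf U)).re ∂Measure.pi fun _ => tr haar)⁻¹ •
      (Measure.pi fun _ => tr haar).withDensity fun U => ENNReal.ofReal (f (lf U)).re := by
  have m1 : Measurable fun U => ENNReal.ofReal (f U).re :=
    (Complex.measurable_re.comp hf).ennreal_ofReal
  refine Measure.ext_of_lintegral _ fun F hF => ?_
  have m2 : Measurable fun U => F (rs n U) := hF.comp meas_rs
  rw [lintegral_map hF meas_rs, lawOf, lintegral_map m2 meas_pc, lintegral_smul_measure,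
    lintegral_smul_measure, lint_PP m1,
    lintegral_withDensity_eq_lintegral_mul _ (f := fun U => ENNReal.ofReal (f (pc n U)).re)
      (g := fun U => F (rs n (pc n U))) (m1.comp meas_pc) (m2.comp meas_pc),
    lintegral_withDensity_eq_lintegral_mul _ (f := fun U => ENNReal.ofReal (f (lf U)).re)
      (m1.comp meas_lf) hF]
  congr 1
  refine (lint_PP (m1.mul m2)).trans ?_
  simp only [Pi.mul_apply, rs_lf]

omit [NeZero n] in
theorem cont_fq (x : St) (μ ν : Fin 4) : Continuous fun U : Conf => fq U x μ ν :=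
  ((cont_q.comp (cont_hol x μ ν)).sub continuous_const).norm

omit [NeZero n] in
theorem cont_wil (β : ℝ) : Continuous (wil β n) := by
  have h : Continuous wd := by
    refine continuous_finsetSum _ fun μ _ => continuous_finsetSum _ fun ν _ => ?_
    split_ifs
    exacts [(cont_fq 0 μ ν).pow 2, continuous_const]
  exact ((continuous_finsetSum (box (n / 2)) fun x _ => h.comp (cont_sh x)).const_mul β).neg.rexp

theorem wilson_res (β : ℝ) (hn : Odd n) :
    (lawOf n fun U => (wil β n U : ℝ)).map (rs n) = wilson (tr haar) β n := by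
  obtain ⟨c, hc⟩ : ∃ c : ℝ, ∀ U : Cfg n, wil β n (lf U) = Real.exp c * Real.exp
      (β * ∑ x, ∑ i, ∑ j, if i < j then 2 * (plaq U x i j).1.re else 0) := by
    refine ⟨-(β * ∑ _x : Site n, ∑ i : Fin 4, ∑ j, if i < j then 2 else 0), fun U => ?_⟩
    rw [← Real.exp_add, wil, sum_vl hn, neg_add_eq_sub, ← mul_sub, ← mul_neg, ← sum_sub_distrib,
      ← sum_neg_distrib]
    congr 2
    refine sum_congr rfl fun x _ => ?_
    rw [wd, ← sum_sub_distrib, ← sum_neg_distrib]
    refine sum_congr rfl fun i _ => ?_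
    rw [← sum_sub_distrib, ← sum_neg_distrib]
    refine sum_congr rfl fun j _ => ?_
    split_ifs
    · rw [fq_sh, zero_add, fq_lf, cst_vl, curv]
      have : ‖(plaq U x i j).1 - 1‖ ^ 2 = 2 - 2 * (plaq U x i j).1.re :=
        norm_sub_one_sq (plaq U x i j)
      linarith
    · simp
  have mw : Continuous fun U : Cfg n => wil β n (lf U) :=
    (cont_wil β).comp (continuous_pi fun _ => continuous_apply _)
  have i1 : Integrable (fun U : Cfg n => wil β n (lf U)) (Measure.pi fun _ => tr haar) :=
    mw.integrable_of_hasCompactSupport (HasCompactSupport.of_compactSpace _)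
  have p : 0 < ∫ U : Cfg n, wil β n (lf U) ∂Measure.pi fun _ => tr haar := integral_exp_pos i1
  rw [lawOf_res (f := fun U => (wil β n U : ℝ))
    (Complex.measurable_ofReal.comp (cont_wil β).measurable), wilson, Measure.tilted]
  simp only [Complex.ofReal_re]
  rw [← ofReal_integral_eq_lintegral_ofReal i1 (.of_forall fun _ => (Real.exp_pos _).le),
    ← withDensity_smul' _ _ (by simpa using p)]
  congr 1
  funext U
  rw [Pi.smul_apply, smul_eq_mul, ← ENNReal.div_eq_inv_mul, ← ENNReal.ofReal_div_of_pos p]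
  simp only [hc, integral_const_mul, mul_div_mul_left _ _ (Real.exp_pos c).ne']

end Pool.Agent.Lib.MP_7f377f_mp.RG.Q4.Fi
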