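import Pool.Agent.Lib.MP_7f377f_mp.Q4Num

/-! Abbreviations for the statements about one step. -/

noncomputable section

namespace Pool.Agent.Lib.MP_7f377f_mp.RG.Q4

open Finset

/-- the parameters with a larger weight of the size -/
def Pa.up (p : Pa) : Pa := { p with a := p.a + 1 }

/-- holomorphic families of local terms -/
def HolL (Ω : Set ℂ) (ψ : ℂ → Lx) : Prop := ∀ x B, DifferentiableOn ℂ (fun t => ψ t x B) Ω

/-- holomorphic families of activities -/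
def HolA (Ω : Set ℂ) (K : ℂ → Ac) : Prop := ∀ X c U, DifferentiableOn ℂ (fun t => K t X c U) Ω

/-- the domain of the local terms contains the small fields -/
def Pa.Ok (p : Pa) : Prop := 0 < p.ε ∧ 1000 * (p.R + 1) * p.ε ≤ p.ρ ∧ 1000 * p.ρ ≤ 1

/-- local exponents which are invariant, measurable and bounded -/
structure LO (p : Pa) (Φ : Lx) : Prop where
  la : ∀ x, LA p.R p.ρ (Φ x)
  meas : ∀ x, Measurable (Φ x)
  bd : ∀ x, ∃ M, ∀ B, RealF B → Cv p.R p.ρ B → ‖Φ x B‖ ≤ M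

/-- reality on the domain -/
def RealP (p : Pa) (ψ : Lx) : Prop := ∀ x B, RealF B → Cv p.R p.ρ B → (ψ x B).im = 0

namespace Sd

variable (S : Sd)

/-- the weights of the sites at the coarse level -/
def Ic (ψ : Lx) (K : Ac) (W : Conf) (y : St) : ℂ := Ix S.p' (S.Φ' ψ K) W y

/-- the decay which goes with the new cores -/
def hw (W : Conf) (O : Finset Ob) : ℝ := Real.exp (-(S.p'.lam * Rg (S.lab W O) W +
  ∑ C ∈ S.lab W O, (S.p'.G0 + S.p'.G2 * tau S.n S.p'.D C)))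

/-- the drift of the marginal part -/
def xd (xb xk xr θ : ℝ) : ℝ := S.Q ^ 10 * √S.g * (xb + xk) + S.cs * xr / S.p.ρ ^ 2 +
  S.Q ^ 40 * θ / S.g ^ 2

/-- the new size of the irrelevant quadratic part -/
def xk' (xb xk xr θ : ℝ) : ℝ := (S.r : ℝ) ^ 20 * xb + S.cs * xk +
  S.Q ^ 40 * (√S.g * (xb + xk) + xr / S.p.ρ ^ 2 + θ / S.g ^ 2)

/-- the new size of the remainder -/
def xr' (xb xk xr θ : ℝ) : ℝ := S.Q ^ 10 * √S.g * (xb + xk) * S.p.ρ ^ 2 + S.cs * xr +
  S.Q ^ 40 * θ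

/-- the data agree on the blocks of `Y` -/
def AgD (Y : Finset St) (ψ ψ' : Lx) (K K' : Ac) : Prop :=
  (∀ x ∈ box (S.nf / 2), yo S.l x ∈ Y → ψ x = ψ' x) ∧
    ∀ o ∈ lps (box (S.nf / 2)), dn S.l S.n o.1 ⊆ Y → K o.1 o.2 = K' o.1 o.2

end Sd

end Pool.Agent.Lib.MP_7f377f_mp.RG.Q4
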