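import Pool.Agent.Lib.MP_7f377f_mp.Q4StepA
import Pool.Agent.Lib.MP_7f377f_mp.Q4Def2

/-! Geometry of the families of objects. -/

noncomputable section

namespace Pool.Agent.Lib.MP_7f377f_mp.RG.Q4

open Finset MeasureTheory Filter
open scoped Classical

attribute [local irreducible] box lbox tb tau rc

namespace Xp

variable {S : Sd} {ψ : Lx} {K : Ac} {W : Conf} {v : VB} {O O' : Finset Ob} {y : St}

theorem us_sp : us S.sp O = tb S.n (13 * S.D0) (O.biUnion S.bs) := by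
  ext y
  simp only [mem_us, Sd.sp, mem_tb, mem_biUnion]
  exact ⟨fun ⟨o, h1, h2, x, h3, h4⟩ => ⟨h2, x, ⟨o, h1, h3⟩, h4⟩,
    fun ⟨h2, x, ⟨o, h1, h3⟩, h4⟩ => ⟨o, h1, h2, x, h3, h4⟩⟩

theorem hole_bs (h : O ⊆ S.obs) : Hh S.l S.n (CC O) (Wk O) ∪ Dbl O ⊆ O.biUnion S.bs :=
  fun x hx => by
  simp only [Hh, CC, mem_union, mem_biUnion] at hx
  rcases hx with (⟨C, ⟨o, ho, hC⟩, hx⟩ | hx) | hx
  · exact mem_biUnion.2 ⟨_, mem_olds.1 ho, image_subset_image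
      ((mem_fams.1 (mem_lps.1 (olds_sub h ho)).2.2).1 C hC) hx⟩
  · exact mem_biUnion.2 ⟨_, mem_Wk.1 hx, mem_singleton_self _⟩
  · exact mem_biUnion.2 ⟨_, mem_Dbl.1 hx, mem_singleton_self _⟩

theorem tb_Oh (h : O ⊆ S.obs) : tb S.n (8 * S.D0) (S.Oh O) ⊆ us S.sp O := by
  rw [Sd.Oh, tb_tb, us_sp]
  exact tb_mono (hole_bs h) (by omega)

theorem Wk_dom (h : O ⊆ S.obs) : Wk O ⊆ S.Λ' := fun y hy => by
  simpa [Sd.obs] using h (mem_Wk.1 hy)

theorem Dbl_dom (h : O ⊆ S.obs) : Dbl O ⊆ S.Λ' := fun y hy => by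
  simpa [Sd.obs] using h (mem_Dbl.1 hy)

theorem Wk_sp (hn : Odd S.n) (h : O ⊆ S.obs) : Wk O ⊆ us S.sp O := fun _ hy =>
  mem_sp hn (mem_Wk.1 hy) (Wk_dom h hy) (mem_singleton_self _)

theorem Dbl_sp (hn : Odd S.n) (h : O ⊆ S.obs) : Dbl O ⊆ us S.sp O := fun _ hy =>
  mem_sp hn (mem_Dbl.1 hy) (Dbl_dom h hy) (mem_singleton_self _)

theorem lab_sp (h : O ⊆ S.obs) : (S.lab W O).biUnion id ⊆ us S.sp O := lab_sub.trans (Oh_sp h)

theorem olds_union : olds (O ∪ O') = olds O ∪ olds O' := by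
  ext; simp [mem_olds]

theorem Wk_union : Wk (O ∪ O') = Wk O ∪ Wk O' := by
  ext; simp [mem_Wk]

theorem Dbl_union : Dbl (O ∪ O') = Dbl O ∪ Dbl O' := by
  ext; simp [mem_Dbl]

theorem CC_union : CC (O ∪ O') = CC O ∪ CC O' := by rw [CC, olds_union, union_biUnion, CC, CC]

theorem Oh_union : S.Oh (O ∪ O') = S.Oh O ∪ S.Oh O' := by
  simp only [Sd.Oh, ← tb_union, Hh, CC_union, Wk_union, Dbl_union, union_biUnion]
  congr 1
  ac_rfl

theorem obs_disj (h : O ⊆ S.obs) (hd : Disjoint (us S.sp O) (us S.sp O')) : Disjoint O O' :=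
  disjoint_left.2 fun _ ho ho' =>
    let ⟨_, hx⟩ := sp_ne (h ho)
    disjoint_left.1 hd (sp_sub_us _ ho hx) (sp_sub_us _ ho' hx)

theorem wf_union (hn : Odd S.n) (h : O ⊆ S.obs) (h' : O' ⊆ S.obs)
    (hd : Disjoint (us S.sp O) (us S.sp O')) : S.wf W (O ∪ O') = S.wf W O * S.wf W O' := by
  have a := hd.mono (lab_sp (W := W) h) (Wk_sp hn h')
  have a' := hd.symm.mono (lab_sp (W := W) h') (Wk_sp hn h)
  have e : ((S.lab W O).biUnion id ∪ (S.lab W O').biUnion id) \ (Wk O ∪ Wk O') =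
      (S.lab W O).biUnion id \ Wk O ∪ (S.lab W O').biUnion id \ Wk O' := by
    rw [union_sdiff_distrib, sdiff_union_distrib, sdiff_union_distrib, a.sdiff_eq_left,
      a'.sdiff_eq_left, inter_eq_left.2 sdiff_subset, inter_eq_right.2 sdiff_subset]
  rw [Sd.wf, lab_union h h' hd, Wk_union, union_biUnion, e,
    prod_union (hd.mono (Wk_sp hn h) (Wk_sp hn h')), prod_union
      (hd.mono (sdiff_subset.trans (lab_sp h)) (sdiff_subset.trans (lab_sp h'))), Sd.wf, Sd.wf]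
  ring

/-- blocks which meet an old polymer lie in the support -/
theorem old_sp {o : LP St} (ho : o ∈ olds O) {x : St} (hx : x ∈ o.1) :
    rc S.n (yo S.l x) ∈ us S.sp O := mem_us.2 ⟨_, mem_olds.1 ho,
  mem_tb.2 ⟨rc_rc _ _, _, mem_image_of_mem _ hx, nearT.refl _ _ _⟩⟩

theorem hf_union (hn : Odd S.n) (h : O ⊆ S.obs) (h' : O' ⊆ S.obs)
    (hd : Disjoint (us S.sp O) (us S.sp O')) (hy : y ∈ us S.sp O) :
    S.hf ψ K W v (O ∪ O') y = S.hf ψ K W v O y := by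
  have e : S.Ib ψ ((CC (O ∪ O')).biUnion id) (S.Uv W v) y =
      S.Ib ψ ((CC O).biUnion id) (S.Uv W v) y := by
    refine prod_congr (filter_congr fun x hx => not_congr ?_) fun _ _ => rfl
    rw [CC_union, union_biUnion, mem_union, or_iff_left fun h1 => ?_]
    obtain ⟨C, hC, h1⟩ := mem_biUnion.1 h1
    obtain ⟨o, ho, hC⟩ := mem_biUnion.1 hC
    have := old_sp (S := S) ho ((mem_fams.1 (mem_lps.1 (olds_sub h' ho)).2.2).1 C hC h1)
    rw [Mx.yo_blk hx, rc_dom hn (sp_sub hn hy)] at this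
    exact disjoint_left.1 hd hy this
  simp only [Sd.hf, e, lab_union h h' hd, union_biUnion, mem_union,
    or_iff_left fun h1 => disjoint_left.1 hd hy (lab_sp (W := W) h' h1)]

/-- the base point of a smoothing mark -/
theorem oS_bs (hn : Odd S.n) (hy : y ∈ S.Λ') {X : Finset St} (hX : X ∈ S.X1s) :
    y ∈ dn S.l S.n (trS S.nf (up S.l y) X) := by
  obtain ⟨x, hx, e⟩ := mem_image.1 (mem_filter.1 hX).2.2
  refine mem_image.2 ⟨_, mem_image_of_mem _ hx, ?_⟩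
  rw [Sd.nf, rc_yo, Ms.yo_add_up, ← rc_add_rc, e, zero_add, rc_dom hn hy]

theorem jm_union (hn : Odd S.n) (h : O ⊆ S.obs) (h' : O' ⊆ S.obs)
    (hd : Disjoint (us S.sp O) (us S.sp O')) {m : Mk} (hm : m ∈ O.toRight) :
    S.jm ψ K W v (S.Oh O ∪ S.Oh O') m = S.jm ψ K W v (S.Oh O) m := by
  have k : ∀ y ∈ S.Λ', y ∈ S.bs (.inr m) → (y ∈ S.Oh O ∪ S.Oh O' ↔ y ∈ S.Oh O) := fun y a b => by
    rw [mem_union, or_iff_left fun h1 =>
      disjoint_left.1 hd (mem_sp hn (mem_toRight.1 hm) a b) (Oh_sp h' h1)]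
  have h1 := h (mem_toRight.1 hm)
  rcases m with y | q | q | Z
  · simp only [Sd.jm, k y (by simpa [Sd.obs, Sd.mks] using h1) (mem_singleton_self _)]
  · rfl
  · simp only [Sd.obs, Sd.mks, inr_mem_disjSum, inl_mem_disjSum, mem_product] at h1
    simp only [Sd.jm, k q.1 h1.1 (oS_bs hn h1.1 h1.2)]
  · rfl

theorem df_union (hn : Odd S.n) (h' : O' ⊆ S.obs) (hd : Disjoint (us S.sp O) (us S.sp O'))
    (hy : y ∈ us S.sp O) : S.df v (O ∪ O') y = S.df v O y := by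
  simp only [Sd.df, Dbl_union, mem_union, or_iff_left fun h1 => disjoint_left.1 hd hy (Dbl_sp hn h' h1)]

theorem FO_union (hn : Odd S.n) (h : O ⊆ S.obs) (h' : O' ⊆ S.obs)
    (hd : Disjoint (us S.sp O) (us S.sp O')) :
    S.FO ψ K W (O ∪ O') v = S.FO ψ K W O v * S.FO ψ K W O' v := by
  have d := obs_disj h hd
  have d1 : Disjoint (olds O) (olds O') :=
    disjoint_left.2 fun o a b => disjoint_left.1 d (mem_olds.1 a) (mem_olds.1 b)
  have d2 : Disjoint O.toRight O'.toRight :=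
    disjoint_left.2 fun o a b => disjoint_left.1 d (mem_toRight.1 a) (mem_toRight.1 b)
  have e : ((olds O ∪ olds O' : Finset (LP St)) : Set (LP St)).PairwiseDisjoint (fun o => o.1) ↔
      (olds O : Set (LP St)).PairwiseDisjoint (fun o => o.1) ∧
        (olds O' : Set (LP St)).PairwiseDisjoint (fun o => o.1) := by
    rw [coe_union, Set.pairwiseDisjoint_union, ← and_assoc]
    exact and_iff_left fun o a o' b _ =>
      disjoint_left.2 fun x c c' => disjoint_left.1 hd (old_sp a c) (old_sp b c')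
  have e2 : (O ∪ O').toRight = O.toRight ∪ O'.toRight := by
    ext; simp
  rw [Sd.FO, olds_union, Oh_union, us_union, e2, prod_union d1, prod_union d2,
    prod_union hd, prod_union (hd.mono (Oh_sp h) (Oh_sp h')),
    prod_congr rfl fun y hy => hf_union hn h h' hd (Oh_sp h hy),
    prod_congr rfl fun m hm => jm_union hn h h' hd hm,
    prod_congr rfl fun y hy => df_union hn h' hd hy, union_comm O, union_comm (S.Oh O),
    prod_congr rfl fun y hy => hf_union hn h' h hd.symm (Oh_sp h' hy),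
    prod_congr rfl fun m hm => jm_union hn h' h hd.symm hm,
    prod_congr rfl fun y hy => df_union hn h hd.symm hy, Sd.FO, Sd.FO]
  simp only [e, ite_and]
  split_ifs <;> ring

theorem calm_loc (h2 : 2 ≤ S.D0) (hW : Per S.n W) (hv : PS S.n v)
    (hs : S.Sup W O) (hf : ∀ y ∈ us S.sp O, S.df v O y ≠ 0)
    (hy : y ∈ tb S.n (7 * S.D0) (O.biUnion S.bs)) (h : y ∉ S.Oh O) : S.Calm W v y := fun u hu => by
  obtain ⟨y1, x, hx, y2⟩ := mem_tb.1 hy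
  have k : nearT S.n S.D0 y (rc S.n (u + y)) := nearT_rc_right.2 (add_comm y u ▸ nearT_add hu)
  have h3 : rc S.n (u + y) ∉ tb S.n (3 * S.D0) (Hh S.l S.n (CC O) (Wk O) ∪ Dbl O) := fun h3 =>
    let ⟨_, z, hz, a⟩ := mem_tb.1 h3
    h (mem_tb.2 ⟨y1, z, hz, (a.trans k.symm).mono (by omega)⟩)
  have h4 : tb S.n (S.p'.R + 2) {rc S.n (u + y)} ⊆ us S.sp O := fun z hz => by
    rw [us_sp]
    exact mem_tb.2 ⟨(mem_tb_single.1 hz).1, x, hx, ((y2.trans k).trans (mem_tb_single.1 hz).2).mono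
      (by rw [Sd.p'_R]; omega)⟩
  have h5 := h4 (mem_tb_single.2 ⟨rc_rc _ _, nearT.refl _ _ _⟩)
  refine ⟨sh_rc hW _ ▸ hs.2 _ (mem_sdiff.2 ⟨mem_filter.2 ⟨h5, h4⟩, fun a =>
    h3 (tb_mono subset_union_left le_rfl (ncs_sub a))⟩), ?_⟩
  have h6 := hf _ h5
  rw [Sd.df, if_neg fun a => h3 (mem_tb.2 ⟨rc_rc _ _, _, mem_union_right _ a, nearT.refl _ _ _⟩)]
    at h6
  obtain ⟨w, hw⟩ := rc_exists S.n (u + y)
  rw [← hv _ w, ← hw]
  exact (Cov.gd_cases _ _ _).resolve_left fun e => h6 (by rw [e, zero_div, Complex.ofReal_zero])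

theorem wk_loc (h0 : S.Ok) (hW : Per S.n W) (h : O ⊆ S.obs) (a0 : ∀ y ∈ Wk O, chi S.p' W y = 0)
    (a1 : ∀ y ∈ tb S.n (S.p'.R + 1) (Wk O), y ∉ Wk O → chi S.p' W y = 1) :
    Wk O ⊆ (S.lab W O).biUnion id := by
  intro y hy
  by_contra h1
  have k : ∀ y ∈ Wk O, y ∈ zsp S.l S.n (3 * S.D0) (.inr y) := fun y hy =>
    sub_tb (by simpa [pb] using rc_dom h0.odd (Wk_dom h hy)) (mem_singleton_self y)
  obtain ⟨hh, h1, h2, h3⟩ := healed_of (o := .inr y) (by simpa using hy) (k y hy) h1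
  have h4 := chi_ne.not.1 (not_not.2 (a0 y hy))
  simp only [Fq, not_forall, not_le] at h4
  obtain ⟨x, hx, μ, ν, h4⟩ := h4
  have h5 : S.p'.ε < fq (sh (rc S.n (x + y)) W) 0 μ ν := by
    rw [sh_rc hW, ← sh_sh, Mx.fq_sh, zero_add]
    exact h4
  have n1 : nearT S.n (S.p'.R + 1) y (rc S.n (x + y)) :=
    nearT_rc_right.2 (add_comm y x ▸ nearT_add hx)
  have h6 : rc S.n (x + y) ∈ Wk O := not_not.1 fun h7 => h5.not_ge (chi_ne.1
    (by rw [a1 _ (mem_tb.2 ⟨rc_rc _ _, y, hy, n1⟩) h7]; exact one_ne_zero) 0 (zero_mem_box _) μ ν)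
  have h7 := h3 _ (comp_closed h1 h2 (o' := .inr (rc S.n (x + y))) (by simpa using h6) (zsp_meet
    (mem_singleton_self y) (mem_singleton_self _)
      (n1.mono (show 4 * S.D0 + 1 ≤ _ by have := Sd.D1 S.toTd; omega)))) _ (k _ h6)
  rw [Mx.fq_sh, zero_add, Sd.p'_ε] at h5
  have := mul_le_mul_of_nonneg_right (S.Qw one_le_two) h0.g'0.le
  rw [pow_one, ← Sd.ε2_eq] at this
  linarith [fq_le_fs W (rc S.n (x + y)) μ ν]

theorem D2 {a : ℕ} (h : S.Nu a) : 2 ≤ S.D0 := by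
  have h1 := h.w_le
  have : 1 ≤ S.w := Nat.one_le_pow _ _ (by unfold LL; omega)
  omega

end Xp

variable (c : ℕ)

theorem sp_ok : ∀ᶠ S in ev0 c, ∀ o ∈ S.obs, (S.sp o).Nonempty ∧ S.sp o ⊆ S.Λ' :=
  ev_ok.mono fun _ h _ ho => ⟨Xp.sp_ne ho, tb_dom h.odd⟩

theorem lab_ok : ∀ᶠ S in ev0 c, ∀ W, ∀ O ⊆ S.obs, S.lab W O ∈ fams (us S.sp O) ∧
    (S.lab W O).biUnion id ⊆ S.Oh O ∧ tb S.n (8 * S.D0) (S.Oh O) ⊆ us S.sp O :=
  .of_forall fun _ _ _ h => ⟨Xp.lab_fams h, Xp.lab_sub, Xp.tb_Oh h⟩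

theorem lab_union : ∀ᶠ S in ev0 c, ∀ W, ∀ O ⊆ S.obs, ∀ O' ⊆ S.obs,
    Disjoint (us S.sp O) (us S.sp O') → S.lab W (O ∪ O') = S.lab W O ∪ S.lab W O' ∧
      S.Oh (O ∪ O') = S.Oh O ∪ S.Oh O' ∧ S.wf W (O ∪ O') = S.wf W O * S.wf W O' ∧
      ∀ ψ K v, S.FO ψ K W (O ∪ O') v = S.FO ψ K W O v * S.FO ψ K W O' v :=
  ev_ok.mono fun _ h _ _ a _ b d => ⟨Xp.lab_union a b d, Xp.Oh_union, Xp.wf_union h.odd a b d,
    fun _ _ _ => Xp.FO_union h.odd a b d⟩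

theorem calm_of : ∀ᶠ S in ev0 c, ∀ W v, Per S.n W → PS S.n v → ∀ O ⊆ S.obs, S.Sup W O →
    (∀ y ∈ us S.sp O, S.df v O y ≠ 0) → ∀ y ∈ tb S.n (7 * S.D0) (O.biUnion S.bs),
      y ∉ S.Oh O → S.Calm W v y :=
  (ev_nu c 0).mono fun _ h _ _ hW hv _ _ hs hf _ hy hn =>
    Xp.calm_loc (Xp.D2 h) hW hv hs hf hy hn

/-- large block fields lie in the new cores -/
theorem wk_sub : ∀ᶠ S in ev0 c, ∀ W, Per S.n W → ∀ O ⊆ S.obs,
    (∀ y ∈ Wk O, chi S.p' W y = 0) →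
    (∀ y ∈ tb S.n (S.p'.R + 1) (Wk O), y ∉ Wk O → chi S.p' W y = 1) →
      Wk O ⊆ (S.lab W O).biUnion id :=
  ev_ok.mono fun _ h _ hW _ a b b' => Xp.wk_loc h hW a b b'

end Pool.Agent.Lib.MP_7f377f_mp.RG.Q4
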