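import Pool.Agent.Lib.MP_7f377f_mp.Q4ShA
import Pool.Agent.Lib.MP_7f377f_mp.Q4Obj

/-! Translation covariance and locality in the data of one step. -/

noncomputable section

namespace Pool.Agent.Lib.MP_7f377f_mp.RG.Q4

open Finset MeasureTheory Filter
open scoped Classical

attribute [local irreducible] box lbox

namespace Sh

variable {S : Sd} {v w y : St} {ψ : Lx} {K K' : Ac} {W : Conf} {ω : VB} {O : Finset Ob}
  {Y : Finset St} {c : Finset (Finset St)}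

theorem bi_sub (h : ∀ C ∈ c, C ⊆ Y) : c.biUnion id ⊆ Y := biUnion_subset.2 h

theorem ψy_ψy (S : Sd) (ψ : Lx) (v y : St) : S.ψy (S.ψy ψ v) y = S.ψy ψ (tp S.n v y) :=
  (trL_trL _ _ _ _).trans (by rw [← up_add]; exact (trL_up_rc _ _ _ _).symm)

theorem Ky_Ky (S : Sd) (K : Ac) (v y : St) : S.Ky (S.Ky K v) y = S.Ky K (tp S.n v y) :=
  (trA_trA _ _ _ _).trans (by rw [← up_add]; exact (trA_up_rc _ _ _ _).symm)

theorem PL_tr (S : Sd) (ψ : Lx) (K : Ac) (v y : St) :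
    S.PL (S.ψy ψ v) (S.Ky K v) y = S.PL ψ K (tp S.n v y) := by
  simp only [Sd.PL, ψy_ψy, Ky_Ky]

theorem Ey_tr (S : Sd) (ψ : Lx) (K : Ac) (v y : St) :
    S.Ey (S.ψy ψ v) (S.Ky K v) y = S.Ey ψ K (tp S.n v y) := by
  simp only [Sd.Ey, ψy_ψy, Ky_Ky]

theorem Φ'_tr (S : Sd) (ψ : Lx) (K : Ac) (v y : St) :
    S.Φ' (S.ψy ψ v) (S.Ky K v) y = S.Φ' ψ K (tp S.n v y) := by
  funext B
  simp only [Sd.Φ', PL_tr]

/-! ### translation of the objects -/

/-- translation of marks -/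
def trM (n : ℕ) (v : St) : Mk → Mk :=
  Sum.map (tp n v) (Sum.map (Prod.map (tp n v) id) (Sum.map (Prod.map (tp n v) id) (trS n v)))

/-- translation of objects -/
def trO (S : Sd) (v : St) : Ob → Ob :=
  Sum.map (Sum.map (trP S.nf (up S.l v)) (Sum.map (tp S.n v) (tp S.n v))) (trM S.n v)

theorem trO_trO (S : Sd) (v w : St) (o : Ob) : trO S w (trO S v o) = trO S (v + w) o := by
  rcases o with (o | y | y) | y | q | q | Z <;>
    simp only [trO, trM, Sum.map_inl, Sum.map_inr, Prod.map, id, trP_trP, tp_tp, trS_trS, up_add]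

theorem olds_tr (S : Sd) (v : St) (O : Finset Ob) :
    olds (O.image (trO S v)) = (olds O).image (trP S.nf (up S.l v)) := by
  simp only [olds, trO, left_image]

theorem Dbl_tr (S : Sd) (v : St) (O : Finset Ob) :
    Dbl (O.image (trO S v)) = trS S.n v (Dbl O) := by
  simp only [Dbl, trO, left_image, right_image, trS]

theorem Wk_tr (S : Sd) (v : St) (O : Finset Ob) : Wk (O.image (trO S v)) = trS S.n v (Wk O) := by
  simp only [Wk, trO, left_image, right_image, trS]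

theorem CC_tr (S : Sd) (v : St) (O : Finset Ob) :
    CC (O.image (trO S v)) = (CC O).image (trS S.nf (up S.l v)) := by
  rw [CC, CC, olds_tr, image_biUnion, biUnion_image]
  rfl

theorem Oh_tr (S : Sd) (v : St) (O : Finset Ob) :
    S.Oh (O.image (trO S v)) = trS S.n v (S.Oh O) := by
  rw [Sd.Oh, Sd.Oh, CC_tr, Wk_tr, Dbl_tr, Sd.nf, Hh_tr, trS, trS, ← image_union, In.tb_image, trS]

theorem bs_tr (S : Sd) (v : St) (o : Ob) : S.bs (trO S v o) = (S.bs o).image (tp S.n v) := by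
  rcases o with (o | y | y) | y | q | q | Z
  · exact dn_trS _ _ _ _
  · exact (image_singleton _ _).symm
  · exact (image_singleton _ _).symm
  · exact (image_singleton _ _).symm
  · simp only [trO, trM, Sum.map_inr, Sum.map_inl, Sd.bs, Prod.map, id, image_insert,
      image_singleton, tp, rc_add_rc, add_right_comm]
  · change dn _ _ (trS (LL S.l * S.n) (up S.l (rc _ _)) q.2) =
      trS _ v (dn _ _ (trS (LL S.l * S.n) _ q.2))
    rw [trS_up_rc, dn_trS, dn_trS, trS_trS]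
  · rfl

theorem sp_tr (S : Sd) (v : St) (o : Ob) : S.sp (trO S v o) = (S.sp o).image (tp S.n v) := by
  rw [Sd.sp, Sd.sp, bs_tr, In.tb_image]

theorem olds_sub (h : O ⊆ S.obs) : olds O ⊆ lps (box (S.nf / 2)) := fun o ho => by
  simpa [Sd.obs] using h (mem_toLeft.1 (mem_toLeft.1 ho))

theorem Dbl_sub (h : O ⊆ S.obs) : Dbl O ⊆ box (S.n / 2) := fun o ho => by
  simpa [Sd.obs, Sd.Λ'] using h (mem_toLeft.1 (mem_toRight.1 (mem_toLeft.1 ho)))

theorem Wk_sub (h : O ⊆ S.obs) : Wk O ⊆ box (S.n / 2) := fun o ho => by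
  simpa [Sd.obs, Sd.Λ'] using h (mem_toLeft.1 (mem_toRight.1 (mem_toRight.1 ho)))

theorem mks_sub (h : O ⊆ S.obs) : O.toRight ⊆ S.mks := fun o ho => by
  simpa [Sd.obs] using h (mem_toRight.1 ho)

theorem CC_sub (h : O ⊆ S.obs) : ∀ C ∈ CC O, C ⊆ box (S.nf / 2) := fun C hC => by
  obtain ⟨o, ho, hC⟩ := mem_biUnion.1 hC
  obtain ⟨h1, -, h2⟩ := mem_lps.1 (olds_sub h ho)
  exact ((mem_fams.1 h2).1 C hC).trans h1

variable (hn : Odd S.n)
include hn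

theorem onf : Odd S.nf := Odd.mul ⟨S.l, rfl⟩ hn

theorem trO_mem {o : Ob} (ho : o ∈ S.obs) (v : St) : trO S v o ∈ S.obs := by
  have a : ∀ x, tp S.n v x ∈ box (S.n / 2) := fun x => rc_mem hn _
  rcases o with (o | y | y) | y | q | q | Z <;>
    simp only [Sd.obs, Sd.mks, Sd.Λ', trO, trM, Sum.map_inl, Sum.map_inr, inl_mem_disjSum,
      inr_mem_disjSum, mem_product, Prod.map, id, a, mem_erase, mem_powerset, true_and] at ho ⊢
  exacts [trP_mem (onf hn) ho _, ho.2, ho.2, ⟨fun e => ho.1 (image_eq_empty.1 e), trS_dom hn⟩]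

theorem trO_zero {o : Ob} (ho : o ∈ S.obs) : trO S 0 o = o := by
  rcases o with (o | y | y) | y | q | q | Z <;>
    simp only [Sd.obs, Sd.mks, Sd.Λ', trO, trM, Sum.map_inl, Sum.map_inr, inl_mem_disjSum,
      inr_mem_disjSum, mem_product, Prod.map, id, mem_erase, mem_powerset, up_zero] at ho ⊢
  · rw [trP_zero (onf hn) ho]
  · rw [tp_zero hn ho]
  · rw [tp_zero hn ho]
  · rw [tp_zero hn ho]
  · rw [tp_zero hn ho.1]
  · rw [tp_zero hn ho.1]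
  · rw [trS_zero hn ho.2]

theorem trO_inj (v : St) : Set.InjOn (trO S v) S.obs := fun a ha b hb e => by
  rw [← trO_zero hn ha, ← trO_zero hn hb, ← add_neg_cancel v, ← trO_trO, e, trO_trO]

theorem obs_tr (v : St) : S.obs.image (trO S v) = S.obs :=
  eq_of_subset_of_card_le (image_subset_iff.2 fun _ h => trO_mem hn h v)
    (card_image_of_injOn (trO_inj hn v)).ge

theorem lab_dom : ∀ C ∈ S.lab W O, C ⊆ box (S.n / 2) := fun _ h => zone_dom hn (mem_filter.1 h).1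

theorem lab_tr (hW : Per S.n W) (h : O ⊆ S.obs) (v : St) :
    S.lab W (O.image (trO S v)) = (S.lab (sh v W) O).image (trS S.n v) := by
  rw [Sd.lab, Sd.lab, CC_tr, Wk_tr]
  exact ncs_tr hn (CC_sub h) (Wk_sub h) _ _ _ v (fs_tp hW v)

theorem lab_mem (hW : Per S.n W) (h : O ⊆ S.obs) (hy : y ∈ box (S.n / 2)) :
    tp S.n v y ∈ (S.lab W (O.image (trO S v))).biUnion id ↔
      y ∈ (S.lab (sh v W) O).biUnion id := by
  rw [lab_tr hn hW h, trS_bi]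
  exact mem_img (In.sh_inj hn v) (bi_sub (lab_dom hn)) hy

theorem blk_mem {x : St} (hx : x ∈ box S.l) (hy : y ∈ box (S.n / 2)) :
    x + up S.l y ∈ box (S.nf / 2) := by
  rwa [Sd.nf_half hn, Op.mem_fb, yo_add_up, Op.yo_eq_zero.2 hx, zero_add]

theorem Ib_tr {U : Conf} {co : Finset St} (hU : Per S.nf U) (hc : co ⊆ box (S.nf / 2))
    (hy : y ∈ box (S.n / 2)) : S.Ib ψ (trS S.nf (up S.l v) co) U (tp S.n v y) =
      S.Ib (S.ψy ψ v) co (sh (up S.l v) U) y := by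
  have e : ∀ x ∈ box S.l, x + up S.l (tp S.n v y) = tp S.nf (up S.l v) (x + up S.l y) :=
    fun x hx => by
    rw [← rc_eq (onf hn) (blk_mem hn hx (rc_mem hn (y + v)))]
    exact (congrFun (tp_up_rc _ _ _) x).trans (by simp only [tp, up_add, add_assoc, Sd.nf])
  refine prod_congr (filter_congr fun x hx => ?_) fun x hx => ?_
  · rw [e x hx]
    exact not_congr (mem_img (In.sh_inj (onf hn) _) hc (blk_mem hn hx hy))
  · rw [e x (mem_filter.1 hx).1, Ix_tp _ _ hU]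
    rfl

variable (hW : Per S.n W)
include hW

theorem dZ_tr {Z : Finset St} (hZ : Z ⊆ box (S.n / 2)) :
    S.dZ W (trS S.n v Z) = S.dZ (sh v W) Z := by
  rw [Sd.dZ, Sd.dZ, dmK, dmK, Sd.H_sh, ← sh_cC, Td.ka_sh,
    qdK_sh (n := cu S.n) (fun _ => hn) (Sd.H_per hW) (Sd.ka_per hW) v (by unfold box at hZ; exact hZ)]
  rfl

theorem wf_tr (h : O ⊆ S.obs) : S.wf W (O.image (trO S v)) = S.wf (sh v W) O := by
  have i := In.sh_inj hn v
  have a := bi_sub (lab_dom (W := sh v W) (O := O) hn)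
  rw [Sd.wf, Sd.wf, lab_tr hn hW h, trS_bi, Wk_tr, trS, trS, prod_image (i.mono (Wk_sub h)),
    ← image_sdiff_of_inj i a (Wk_sub h), prod_image (i.mono (sdiff_subset.trans a))]
  simp only [chi_tp _ hW]

variable (hω : PS S.n ω)
include hω

theorem jm_tr {Ω : Finset St} (hΩ : Ω ⊆ box (S.n / 2)) {m : Mk} (hm : m ∈ S.mks) :
    S.jm ψ K W ω (trS S.n v Ω) (trM S.n v m) =
      S.jm (S.ψy ψ v) (S.Ky K v) (sh v W) (shv v ω) Ω m := by
  rcases m with y | q | q | Z <;>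
    simp only [Sd.mks, Sd.Λ', inl_mem_disjSum, inr_mem_disjSum, mem_product, mem_erase,
      mem_powerset] at hm <;>
    simp only [trM, Sum.map_inl, Sum.map_inr, Sd.jm, Prod.map, id, ψy_ψy, Ky_Ky, trS]
  · rw [sh_cC, sh_cC, sh_tp hW, sh_up_tp (per_vz hω), Sd.vz_shv]
    exact if_congr (mem_img (In.sh_inj hn v) hΩ hm) rfl rfl
  · rw [Bx_tp hW]
    exact if_congr (mem_img (In.sh_inj hn v) hΩ hm.1) rfl rfl
  · exact dZ_tr hn hW hm.2

theorem hf_tr (h : O ⊆ S.obs) (hy : y ∈ box (S.n / 2)) :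
    S.hf ψ K W ω (O.image (trO S v)) (tp S.n v y) =
      S.hf (S.ψy ψ v) (S.Ky K v) (sh v W) (shv v ω) O y := by
  rw [Sd.hf, Sd.hf, sh_tp hW, shv_tp hω, CC_tr, trS_bi,
    Ib_tr hn (Sd.Uv_per hW hω) (bi_sub (CC_sub h)) hy, Sd.Uv_sh, ψy_ψy, Ky_Ky, Φ'_tr,
    Bx_tp hW, if_congr (lab_mem hn hW h hy) rfl rfl]

theorem FO_tr (h : O ⊆ S.obs) : S.FO ψ K W (O.image (trO S v)) ω =
    S.FO (S.ψy ψ v) (S.Ky K v) (sh v W) O (shv v ω) := by
  have i := In.sh_inj hn v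
  have j := (trP_inj (onf hn) (up S.l v)).mono (olds_sub h)
  have a : S.Oh O ⊆ box (S.n / 2) := tb_dom hn
  have b : us S.sp O ⊆ box (S.n / 2) := us_sub.2 fun _ _ => tb_dom hn
  have d : ∀ o ∈ olds O, o.1 ⊆ box (S.nf / 2) := fun o ho => (mem_lps.1 (olds_sub h ho)).1
  have e0 : ((olds O).image (trP S.nf (up S.l v)) : Set (LP St)).PairwiseDisjoint (fun o => o.1) ↔
      (olds O : Set (LP St)).PairwiseDisjoint fun o => o.1 := by
    rw [coe_image, j.pairwiseDisjoint_image]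
    exact forall₂_congr fun o ho => forall₂_congr fun o' ho' => imp_congr_right fun _ =>
      disj_image (In.sh_inj (onf hn) _) (d o ho) (d o' ho')
  have e1 : ∏ o ∈ (olds O).image (trP S.nf (up S.l v)), K o.1 o.2 (S.Uv W ω) =
      ∏ o ∈ olds O, S.Ky K v o.1 o.2 (S.Uv (sh v W) (shv v ω)) := by
    rw [prod_image j]
    simp only [Sd.Ky, trA, trP, Sd.Uv_sh, pc_per ((Sd.Uv_per hW hω).sh _), sh_sh,
      neg_add_cancel, sh_zero]
  have e2 : ∏ y ∈ trS S.n v (S.Oh O), S.hf ψ K W ω (O.image (trO S v)) y =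
      ∏ y ∈ S.Oh O, S.hf (S.ψy ψ v) (S.Ky K v) (sh v W) (shv v ω) O y :=
    (prod_image (i.mono a)).trans (prod_congr rfl fun y hy => hf_tr hn hW hω h (a hy))
  have e3 : ∏ m ∈ (O.image (trO S v)).toRight, S.jm ψ K W ω (trS S.n v (S.Oh O)) m =
      ∏ m ∈ O.toRight, S.jm (S.ψy ψ v) (S.Ky K v) (sh v W) (shv v ω) (S.Oh O) m := by
    rw [trO, right_image, prod_image fun a ha b hb e => Sum.inr.inj (trO_inj hn v
      (h (mem_toRight.1 ha)) (h (mem_toRight.1 hb)) (congrArg Sum.inr e))]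
    exact prod_congr rfl fun m hm => jm_tr hn hW hω a (mks_sub h hm)
  have e4 : ∏ y ∈ us S.sp (O.image (trO S v)), S.df ω (O.image (trO S v)) y =
      ∏ y ∈ us S.sp O, S.df (shv v ω) O y := by
    rw [us_image fun o _ => sp_tr S v o, prod_image (i.mono b)]
    refine prod_congr rfl fun y hy => ?_
    rw [Sd.df, Sd.df, Dbl_tr, ps_tp hω, trS, if_congr (mem_img i (Dbl_sub h) (b hy)) rfl rfl]
  rw [Sd.FO, Sd.FO, olds_tr, Oh_tr, e1, e2, e3, e4, if_congr e0 rfl rfl]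

omit hω

theorem wO_tr (h : O ⊆ S.obs) :
    S.wO ψ K W (O.image (trO S v)) = S.wO (S.ψy ψ v) (S.Ky K v) (sh v W) O := by
  rw [Sd.wO, Sd.wO, wf_tr hn hW h, PB, ← int_tr _ hn v (S.FO (S.ψy ψ v) (S.Ky K v) (sh v W) O)]
  simp only [FO_tr hn hW (ps_pcs _ _) h]

theorem Kr_tr (hY : Y ⊆ box (S.n / 2)) (hc : ∀ C ∈ c, C ⊆ box (S.n / 2)) :
    S.Kr ψ K (trS S.n v Y) (c.image (trS S.n v)) W = S.Kr (S.ψy ψ v) (S.Ky K v) Y c (sh v W) := by
  have i := In.sh_inj hn v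
  have a : S.Din Y ⊆ box (S.n / 2) := (filter_subset _ _).trans hY
  have e : S.Din (trS S.n v Y) = (S.Din Y).image (tp S.n v) := by
    rw [Sd.Din, Sd.Din, trS, filter_image]
    congr 1
    refine filter_congr fun y _ => ?_
    rw [← image_singleton (tp S.n v), In.tb_image]
    exact image_subset_image_iff_of_injOn i (tb_dom hn) hY
  have e1 : ∏ y ∈ S.Din (trS S.n v Y) \ (c.image (trS S.n v)).biUnion id, chi S.p' W y =
      ∏ y ∈ S.Din Y \ c.biUnion id, chi S.p' (sh v W) y := by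
    rw [e, trS_bi, trS, ← image_sdiff_of_inj i a (bi_sub hc),
      prod_image (i.mono (sdiff_subset.trans a))]
    exact prod_congr rfl fun y _ => chi_tp _ hW v y
  have e2 := sum_clus_image (sp := S.sp) (sp' := S.sp) (trO_inj hn v) i (fun _ _ => tb_dom hn) hY
    (fun o _ => sp_tr S v o) fun O => if S.lab W O = c.image (trS S.n v) then S.wO ψ K W O else 0
  rw [obs_tr hn v] at e2
  rw [Sd.Kr, Sd.Kr, e1, sum_filter, sum_filter]
  refine congrArg (· * _) (e2.trans (sum_congr rfl fun O hO => ?_))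
  have h := (mem_clus.1 hO).1
  rw [wO_tr hn hW h, lab_tr hn hW h]
  exact if_congr (image_eq_image_iff_of_injOn (trS_inj hn v)
    (fun C hC => mem_powerset.2 (lab_dom hn C hC)) fun C hC => mem_powerset.2 (hc C hC)) rfl rfl

omit hW

theorem KK_tr {o : LP St} (ho : o ∈ lps S.Λ') :
    S.KK (S.ψy ψ v) (S.Ky K v) o.1 o.2 = trA S.n v (S.KK ψ K) o.1 o.2 := by
  obtain ⟨h1, -, h2⟩ := mem_lps.1 ho
  funext U
  have e : ∀ γ : St → S3, S.Kr ψ K (trS S.n v o.1) (o.2.image (trS S.n v))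
      (pc S.n (gauge Inv.inv (pcs S.n γ) (sh (-v) (pc S.n U)))) =
      S.Kr (S.ψy ψ v) (S.Ky K v) o.1 o.2 (gauge Inv.inv (shv v (pcs S.n γ)) (pc S.n U)) := fun γ => by
    rw [Kr_tr hn (Mx.per_pc _ _) h1 fun C hC => ((mem_fams.1 h2).1 C hC).trans h1,
      Mx.pc_gauge (Mx.PS_pcs _ _), pc_per ((Mx.per_pc S.n U).sh _), sh_gauge, sh_sh, add_neg_cancel,
      sh_zero]
    rfl
  rw [trA]
  unfold Sd.KK Mx.gav Mx.GG
  simp only [e, Mx.pc_gauge (Mx.PS_pcs S.n _) U]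
  exact (int_tr haar hn v fun γ => S.Kr (S.ψy ψ v) (S.Ky K v) o.1 o.2
    (gauge Inv.inv γ (pc S.n U))).symm

/-! ### locality -/

omit hn

variable {ψ' : Lx} {a : ℕ} {X : Finset St}

/-- the data agree near the block at the origin -/
def Ag0 (S : Sd) (ψ ψ' : Lx) (K K' : Ac) : Prop :=
  (∀ x ∈ box S.l, ψ x = ψ' x) ∧ ∀ X ∈ S.X1s, K X ∅ = K' X ∅

theorem sP_ag (h : Ag0 S ψ ψ' K K') : S.sP ψ = S.sP ψ' :=
  funext₂ fun _ _ => sum_congr rfl fun x hx => by rw [h.1 x hx]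

theorem pz_ag (h : Ag0 S ψ ψ' K K') : S.pz ψ = S.pz ψ' := by
  unfold Sd.pz Sd.pzr
  rw [sP_ag h]

theorem fm_ag (h : Ag0 S ψ ψ' K K') : S.fm ψ = S.fm ψ' := by
  unfold Sd.fm
  rw [sP_ag h, pz_ag h]

theorem Pl_ag (h : Ag0 S ψ ψ' K K') : S.Pl ψ K = S.Pl ψ' K' := funext fun B => by
  rw [Sd.Pl, Sd.Pl, pz_ag h, sum_congr rfl fun X hX => by rw [Sd.Fs_congr (h.2 X hX)]]

theorem cX_ag (h : Ag0 S ψ ψ' K K') : S.cX ψ K = S.cX ψ' K' := by
  rw [Sd.cX, Sd.cX, pz_ag h, sum_congr rfl fun X hX => by rw [Sd.Fs_congr (h.2 X hX)]]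

theorem X1_lps (hX : X ∈ S.X1s) : (⟨X, ∅⟩ : LP St) ∈ lps (box (S.nf / 2)) :=
  mem_lps.2 ⟨Sd.X1_dom hX, image_nonempty.1 ⟨0, (mem_filter.1 hX).2.2⟩, by simp [mem_fams]⟩

variable (h : S.AgD Y ψ ψ' K K')
include h

theorem blk_ag (hn : Odd S.n) (hy : y ∈ box (S.n / 2)) (hY : y ∈ Y) {x : St} (hx : x ∈ box S.l) :
    ψ (x + up S.l y) = ψ' (x + up S.l y) :=
  h.1 _ (blk_mem hn hx hy) (by rwa [yo_add_up, Op.yo_eq_zero.2 hx, zero_add])

theorem Ky_ag (hn : Odd S.n) (hX : X ∈ S.X1s) (hY : dn S.l S.n (trS S.nf (up S.l y) X) ⊆ Y) :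
    S.Ky K y X ∅ = S.Ky K' y X ∅ :=
  funext fun _ => congrFun (h.2 _ (trP_mem (onf hn) (X1_lps hX) _) hY) _

variable (u : S.Nu a)
include u

theorem ag0 (hy : y ∈ box (S.n / 2)) (hY : tb S.n S.D0 {y} ⊆ Y) :
    Ag0 S (S.ψy ψ y) (S.ψy ψ' y) (S.Ky K y) (S.Ky K' y) := by
  have hn := u.ok.odd
  refine ⟨fun x hx => ?_, fun X hX => Ky_ag h hn hX (Subset.trans (fun z hz => ?_) hY)⟩
  · rw [Sd.ψy, Sd.ψy, trL, trL, rc_eq (onf hn) (blk_mem hn hx hy)]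
    exact blk_ag h hn hy (hY (mem_tb_single.2 ⟨rc_eq hn hy, nearT.refl _ _ _⟩)) hx
  · rw [Sd.nf, dn_trS, trS, dn, image_image] at hz
    obtain ⟨x, hx, rfl⟩ := mem_image.1 hz
    exact mem_image.2 ⟨_, add_mem_add (mem_singleton_self y) (Op.mem_fb.1 (Sd.X1_sub u hX hx)),
      by rw [add_comm]; exact (rc_add_rc _ _ _).symm⟩

theorem FO_ag (hO : O ⊆ S.obs) (hY : us S.sp O ⊆ Y) : S.FO ψ K W O ω = S.FO ψ' K' W O ω := by
  have hn := u.ok.odd
  have d : ∀ o ∈ O, ∀ Z : Finset St, S.bs o = dn S.l S.n Z → dn S.l S.n Z ⊆ Y := fun o ho Z e => by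
    refine Subset.trans ?_ ((sp_sub_us S.sp ho).trans hY)
    rw [Sd.sp, e]
    exact sub_tb fun x hx => by
      obtain ⟨z, -, rfl⟩ := mem_image.1 hx
      exact rc_rc _ _
  have e1 : ∏ o ∈ olds O, K o.1 o.2 (S.Uv W ω) = ∏ o ∈ olds O, K' o.1 o.2 (S.Uv W ω) :=
    prod_congr rfl fun o ho => congrFun (h.2 o (olds_sub hO ho) (d _ (Xp.mem_olds.1 ho) _ rfl)) _
  have e2 : ∏ y ∈ S.Oh O, S.hf ψ K W ω O y = ∏ y ∈ S.Oh O, S.hf ψ' K' W ω O y :=
    prod_congr rfl fun y hy => by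
      have a := tb_dom hn hy
      have b := ag0 h u a (((tb_mono (singleton_subset_iff.2 hy) (by omega)).trans
        (Xp.tb_Oh hO)).trans hY)
      have e : ∀ co U, S.Ib ψ co U y = S.Ib ψ' co U y := fun co U => prod_congr rfl fun x hx => by
        simp only [Ix, Sd.Φ, blk_ag h hn a (hY (Xp.Oh_sp hO hy)) (mem_filter.1 hx).1]
      simp only [Sd.hf, Sd.Φ', Sd.PL, e, cX_ag b, Pl_ag b]
  have e3 : ∏ m ∈ O.toRight, S.jm ψ K W ω (S.Oh O) m = ∏ m ∈ O.toRight, S.jm ψ' K' W ω (S.Oh O) m :=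
    prod_congr rfl fun m hm => by
      have a := mks_sub hO hm
      have b := mem_toRight.1 hm
      rcases m with y | q | q | Z <;>
        simp only [Sd.mks, inl_mem_disjSum, inr_mem_disjSum, mem_product] at a <;>
        simp only [Sd.jm]
      · rw [fm_ag (ag0 h u a (((tb_mono Subset.rfl (by omega)).trans (sp_sub_us S.sp b)).trans hY))]
      · rw [Sd.Fs_congr (Ky_ag h hn a.2 (d _ b _ rfl))]
  rw [Sd.FO, Sd.FO, e1, e2, e3]

theorem KK_ag : S.KK ψ K Y c = S.KK ψ' K' Y c := by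
  have e : ∀ W, S.Kr ψ K Y c W = S.Kr ψ' K' Y c W := fun W =>
    congrArg (· * _) (sum_congr rfl fun O hO => by
      obtain ⟨h1, -, h2⟩ := mem_clus.1 (mem_filter.1 hO).1
      simp only [Sd.wO, FO_ag h u h1 h2.le])
  simp only [Sd.KK, e]

end Sh

variable (c : ℕ)

theorem step_sh : ∀ᶠ S in ev c, ∀ b θ k ψ K, S.Sml b θ k ψ K → ∀ v,
    S.PL (trL S.nf (up S.l v) ψ) (trA S.nf (up S.l v) K) = trL S.n v (S.PL ψ K) ∧
    (∀ y, S.Ey (trL S.nf (up S.l v) ψ) (trA S.nf (up S.l v) K) y = S.Ey ψ K (rc S.n (y + v))) ∧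
    ∀ o ∈ lps S.Λ', S.KK (trL S.nf (up S.l v) ψ) (trA S.nf (up S.l v) K) o.1 o.2 =
      trA S.n v (S.KK ψ K) o.1 o.2 :=
  (ev_ok.filter_mono ev_le).mono fun S h _ _ _ ψ K _ v =>
    ⟨funext (Sh.PL_tr S ψ K v), Sh.Ey_tr S ψ K v, fun _ => Sh.KK_tr h.odd⟩

theorem step_loc : ∀ᶠ S in ev0 c, ∀ ψ ψ' K K',
    (∀ y ∈ S.Λ', S.AgD (tb S.n S.D0 {y}) ψ ψ' K K' →
      S.PL ψ K y = S.PL ψ' K' y ∧ S.Ey ψ K y = S.Ey ψ' K' y) ∧
    ∀ Y c', S.AgD Y ψ ψ' K K' → S.KK ψ K Y c' = S.KK ψ' K' Y c' :=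
  (ev_nu c 0).mono fun _ u _ _ _ _ => ⟨fun _ hy h =>
    have a := Sh.ag0 h u hy Subset.rfl
    ⟨Sh.Pl_ag a, by rw [Sd.Ey, Sd.Ey, Sh.cX_ag a]⟩, fun _ _ h => Sh.KK_ag h u⟩

theorem step_cov : ∀ᶠ S in ev c, ∀ b θ k ψ K, S.Sml b θ k ψ K → TCov S.nf ψ K →
    TCov S.n (S.PL ψ K) (S.KK ψ K) ∧ ∀ y, S.Ey ψ K y = S.Ey ψ K 0 :=
  (ev_nu' c 0).mono fun S u _ _ _ ψ K _ hc => by
    have a : ∀ v, Sh.Ag0 S (S.ψy ψ v) ψ (S.Ky K v) K := fun v =>
      ⟨fun x _ => congrFun (hc _).1 x, fun X hX => (hc _).2 _ (Sh.X1_lps hX)⟩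
    refine ⟨fun v => ⟨funext fun y => (Sh.Pl_ag (a _)).trans (Sh.Pl_ag (a y)).symm,
      fun o ho => (Sh.KK_tr u.ok.odd ho).symm.trans (Sh.KK_ag
        ⟨fun x _ _ => congrFun (hc _).1 x, fun o ho _ => (hc _).2 o ho⟩ u)⟩, fun y => ?_⟩
    rw [Sd.Ey, Sd.Ey, Sh.cX_ag (a y), Sh.cX_ag (a 0)]

end Pool.Agent.Lib.MP_7f377f_mp.RG.Q4
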