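import Pool.Agent.Lib.MP_7f377f_mp.Q4EStp
import Pool.Agent.Lib.MP_7f377f_mp.Q4Sh

/-! Lipschitz bounds and the derivative of the new activities with respect to the data. -/

noncomputable section

namespace Pool.Agent.Lib.MP_7f377f_mp.RG.Q4

open Finset Filter Topology Real Metric

section schwarz

variable {p : Pa} {n : ℕ} {k : Mj} {F : ℂ → Ac} {e M : ℝ} {f : ℂ → ℂ}

theorem mem_ball_inv (e0 : 0 < e) {t : ℂ} : t ∈ ball (0 : ℂ) e⁻¹ ↔ ‖t‖ * e < 1 := by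
  rw [mem_ball_zero_iff, ← one_div, lt_div_iff₀ e0]

theorem schwarz3 (e0 : 0 < e) (hd : DifferentiableOn ℂ f (ball 0 e⁻¹))
    (hb : ∀ t ∈ ball (0 : ℂ) e⁻¹, ‖f t‖ ≤ M) : ‖deriv f 0‖ ≤ 2 * e * M ∧ ∀ t : ℂ, ‖t‖ * e < 1 →
      ‖f t - f 0‖ ≤ 2 * (‖t‖ * e) * M ∧ ‖f t - f 0 - t * deriv f 0‖ ≤ 4 * (‖t‖ * e) ^ 2 * M := by
  have r0 := inv_pos.2 e0
  have m : Set.MapsTo f (ball 0 e⁻¹) (closedBall (f 0) (2 * M)) := fun t ht => by
    rw [mem_closedBall_iff_norm, two_mul]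
    exact norm_sub_le_of_le (hb t ht) (hb 0 (mem_ball_self r0))
  have a : ‖deriv f 0‖ ≤ 2 * e * M :=
    (Complex.norm_deriv_le_div_of_mapsTo_ball hd m r0).trans_eq (by field_simp)
  refine ⟨a, fun t ht => ⟨?_, ?_⟩⟩
  · have := Complex.dist_le_div_mul_dist_of_mapsTo_ball hd m ((mem_ball_inv e0).2 ht)
    rw [dist_eq_norm, dist_zero_right] at this
    exact this.trans_eq (by field_simp)
  · have := Complex.dist_le_mul_div_pow_of_mapsTo_ball_of_isLittleO (n := 1) (R₂ := 4 * M)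
      (f := fun s => f s - s * deriv f 0) (hd.sub (by fun_prop)) (fun s hs => by
        have b := mem_closedBall_iff_norm.1 (m hs)
        have c := mul_le_mul ((mem_ball_inv e0).1 hs).le (le_refl (2 * M))
          ((norm_nonneg _).trans b) zero_le_one
        rw [mem_closedBall_iff_norm, zero_mul, sub_zero, sub_right_comm]
        refine (norm_sub_le _ _).trans ?_
        rw [norm_mul]
        nlinarith [mul_le_mul_of_nonneg_left a (norm_nonneg s)]) (by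
        have := (hd.differentiableAt (ball_mem_nhds _ r0)).hasDerivAt
        rw [hasDerivAt_iff_isLittleO] at this
        simpa [sub_right_comm] using this.norm_right) ((mem_ball_inv e0).2 ht)
    rw [dist_eq_norm, dist_zero_right, zero_mul, sub_zero, sub_right_comm] at this
    exact this.trans_eq (by rw [div_inv_eq_mul]; ring)

/-- the derivative at zero of a family of activities -/
def dA (F : ℂ → Ac) : Ac := fun X c U => deriv (fun t => F t X c U) 0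

theorem meas_deriv {Z : Type} [MeasurableSpace Z] {g : ℂ → Z → ℂ} {r : ℝ} (r0 : 0 < r)
    (hm : ∀ t ∈ ball (0 : ℂ) r, Measurable (g t))
    (hd : ∀ z, DifferentiableAt ℂ (fun t => g t z) 0) :
    Measurable fun z => deriv (fun t => g t z) 0 := by
  have up : ∀ j : ℕ, 0 < r / 2 / (j + 1) := fun j => by positivity
  have ut : Tendsto (fun j : ℕ => ((r / 2 / (j + 1) : ℝ) : ℂ)) atTop (𝓝[≠] 0) := by
    refine tendsto_nhdsWithin_iff.2 ⟨?_, .of_forall fun j => Complex.ofReal_ne_zero.2 (up j).ne'⟩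
    simpa [Function.comp_def] using (Complex.continuous_ofReal.tendsto 0).comp
      (tendsto_const_div_atTop_nhds_zero_nat (r / 2) |>.comp (tendsto_add_atTop_nat 1))
  refine measurable_of_tendsto_metrizable
    (f := fun (j : ℕ) z => slope (fun t => g t z) 0 ((r / 2 / (j + 1) : ℝ) : ℂ)) (fun j => ?_)
    (tendsto_pi_nhds.2 fun z => (hasDerivAt_iff_tendsto_slope.1 (hd z).hasDerivAt).comp ut)
  refine ((hm _ ?_).sub (hm 0 (mem_ball_self r0))).const_mul _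
  rw [mem_ball_zero_iff, Complex.norm_real, norm_of_nonneg (up j).le]
  exact (div_le_self (by positivity) (by simp)).trans_lt (by linarith)

/-- the Schwarz lemma for families of activities -/
theorem km_schwarz (e0 : 0 < e) (hK : ∀ t ∈ ball (0 : ℂ) e⁻¹, KM p n k (F t))
    (hH : HolA (ball 0 e⁻¹) F) : KM p n ((2 * e) • k) (dA F) ∧ ∀ t : ℂ, ‖t‖ * e < 1 →
      KM p n ((2 * (‖t‖ * e)) • k) (F t - F 0) ∧
        KM p n ((4 * (‖t‖ * e) ^ 2) • k) (F t - F 0 - t • dA F) := by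
  have r0 := inv_pos.2 e0
  have s := fun X c U (hU : Per n U) => schwarz3 e0 (hH X c U) fun t ht => (hK t ht).bd X c U hU
  have q : ∀ {X c U U'}, (∀ t ∈ ball (0 : ℂ) e⁻¹, F t X c U = F t X c U') →
      dA F X c U = dA F X c U' := fun h =>
    EventuallyEq.deriv_eq (mem_of_superset (ball_mem_nhds _ r0) h)
  have a : KM p n ((2 * e) • k) (dA F) :=
    ⟨fun X c => meas_deriv r0 (fun t ht => (hK t ht).meas X c)
        fun U => (hH X c U).differentiableAt (ball_mem_nhds _ r0),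
      fun X c U => q fun t ht => (hK t ht).per X c U,
      fun X c U U' h => q fun t ht => (hK t ht).dep X c h,
      fun X c u U hu => q fun t ht => (hK t ht).gi X c u U hu,
      fun X c U hU => (s X c U hU).1.trans_eq (mul_assoc _ _ _).symm⟩
  refine ⟨a, fun t ht => ?_⟩
  have b := (hK t ((mem_ball_inv e0).2 ht)).sub (hK 0 (mem_ball_self r0))
  have b' := b.sub (a.smul t)
  exact ⟨⟨b.meas, b.per, b.dep, b.gi, fun X c U hU =>
      ((s X c U hU).2 t ht).1.trans_eq (mul_assoc _ _ _).symm⟩,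
    ⟨b'.meas, b'.per, b'.dep, b'.gi, fun X c U hU =>
      ((s X c U hU).2 t ht).2.trans_eq (mul_assoc _ _ _).symm⟩⟩

theorem holL_line (Ω : Set ℂ) (ψ ψ' : Lx) : HolL Ω fun t => ψ + t • ψ' := fun v B => by
  simp only [Pi.add_apply, Pi.smul_apply, smul_eq_mul]
  fun_prop

theorem holA_line (Ω : Set ℂ) (K K' : Ac) : HolA Ω fun t => K + t • K' := fun X c U => by
  simp only [Pi.add_apply, Pi.smul_apply, smul_eq_mul]
  fun_prop

end schwarz

namespace En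

variable {S : Sd} {b θ b' θ' e : ℝ} {ψ ψ' ψ'' φ φ' : Lx} {K K' K'' J J' : Ac} {k d : Mj}

/-- the derivative of the new activities in the direction `(ψ', K')` -/
def dK (S : Sd) (ψ : Lx) (K : Ac) (ψ' : Lx) (K' : Ac) : Ac :=
  dA fun t => S.KK (ψ + t • ψ') (K + t • K')

/-- admissible radii -/
structure Bl (S : Sd) (b θ : ℝ) : Prop where
  g_le : S.g ≤ b
  sq_le : 5 * S.Q ^ 91 * b ^ 2 ≤ θ
  b_le : S.Q ^ 100 * (2 * b) ≤ 1
  θ_le : S.Q ^ 100 * (2 * θ) ≤ 1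

theorem Bl.th (h : S.Nu 100) (B : Bl S b θ) : S.θ' (2 * b) (2 * θ) ≤ 4 * θ / S.Q := by
  have Q0 := S.Q0
  have g0 := h.ok.g0
  have b0 := g0.trans_le B.g_le
  have θ0 : 0 ≤ θ := le_trans (by positivity) B.sq_le
  have a1 := qom h B.θ_le (i := 91) (by norm_num)
  have a2 : 1000 * (S.Q ^ 91 * S.g) ≤ 1 :=
    qom h (by simpa using h.ok.Qg_le (i := 100) (j := 0) (by norm_num)) (by norm_num)
  have a3 : S.g ≤ S.Q ^ 91 * S.g := le_mul_of_one_le_left g0.le (one_le_pow₀ S.Q1)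
  rw [le_div_iff₀ Q0]
  calc _ = S.Q ^ 91 * (S.g * S.g ^ 2 + 2 * (S.g * b) + 4 * b ^ 2) +
        (2 * (S.Q ^ 91 * (2 * θ)) + 2 * (S.Q ^ 91 * S.g) + 2) * θ := by
        rw [Sd.θ']; field_simp; ring
    _ ≤ S.Q ^ 91 * (1 * b ^ 2 + 2 * (b * b) + 4 * b ^ 2) + (2 / 1000 + 2 / 1000 + 2) * θ := by
        gcongr
        exacts [by linarith, B.g_le, B.g_le, by linarith, by linarith]
    _ ≤ _ := by linarith [B.sq_le]

/-- one majorant for the values, the differences and the derivative -/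
theorem lipK (h : S.Nu 100) (f : St2 S) (B : Bl S b θ) (k1 : kN S.p S.nf k θ)
    (d1 : kN S.p S.nf d (e * θ)) (e0 : 0 < e) : ∃ m, kN S.p'.up S.n m (8 * θ / S.Q) ∧
      ∀ ψ K ψ' K', S.Sml b θ k ψ K → PU S.p (e * b) ψ' → KM S.p S.nf d K' →
        KM S.p' S.n (e • m) (dK S ψ K ψ' K') ∧ ∀ t : ℂ, ‖t‖ * e < 1 →
          KM S.p' S.n m (S.KK (ψ + t • ψ') (K + t • K')) ∧
          KM S.p' S.n ((‖t‖ * e) • m) (S.KK (ψ + t • ψ') (K + t • K') - S.KK ψ K) ∧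
          KM S.p' S.n ((2 * (‖t‖ * e) ^ 2) • m)
            (S.KK (ψ + t • ψ') (K + t • K') - S.KK ψ K - t • dK S ψ K ψ' K') := by
  have r0 := inv_pos.2 e0
  have e1 : ∀ x : ℝ, x + e⁻¹ * (e * x) = 2 * x := fun x => by field_simp; ring
  obtain ⟨m, q1, q2⟩ := f.K (2 * b) (2 * θ) (k + e⁻¹ • d) B.b_le B.θ_le
    (by linarith [h.ok.g0, B.g_le]) (e1 θ ▸ k1.add (d1.smul r0.le))
  refine ⟨(2 : ℝ) • m, (q1.smul zero_le_two).mono ((mul_le_mul_of_nonneg_left (B.th h)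
    zero_le_two).trans_eq (by ring)), fun ψ K ψ' K' s p1 p2 => ?_⟩
  have F := fam_sml h s p1 p2 d1 r0.le (e1 b ▸ B.b_le) (e1 θ ▸ B.θ_le)
  rw [e1, e1] at F
  obtain ⟨a1, a2⟩ := km_schwarz e0 (fun t ht => q2 _ _ (F t ht))
    (f.hol _ _ _ _ _ _ isOpen_ball F (holL_line _ _ _) (holA_line _ _ _))
  simp only [zero_smul, add_zero] at a2
  simp only [smul_smul]
  refine ⟨mul_comm 2 e ▸ a1, fun t ht => ⟨(q2 _ _ (F t ((mem_ball_inv e0).2 ht))).mono fun X c => ?_,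
    mul_comm 2 (‖t‖ * e) ▸ (a2 t ht).1, ?_⟩⟩
  · simpa using by linarith [q1.1 X c]
  · rw [show 2 * (‖t‖ * e) ^ 2 * 2 = 4 * (‖t‖ * e) ^ 2 by ring]
    exact (a2 t ht).2

/-- directions -/
def Dir (S : Sd) (ψ : Lx) (K : Ac) : Prop :=
  ∃ b θ k, PU S.p b ψ ∧ KM S.p S.nf k K ∧ kN S.p S.nf k θ

/-- interior points of the domain of the step -/
def Rm (S : Sd) (ψ : Lx) (K : Ac) : Prop :=
  ∃ b θ k, S.Sml b θ k ψ K ∧ S.Q ^ 100 * b < 1 ∧ S.Q ^ 100 * θ < 1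

theorem pu_add (h : S.Nu 100) (a : PU S.p b ψ) (a' : PU S.p b' ψ') : PU S.p (b + b') (ψ + ψ') :=
  let ⟨_, _, _, p⟩ := a.1
  let ⟨_, _, _, q⟩ := a'.1
  ⟨⟨_, _, _, fun v => ⟨((p v).1.add (q v).1 (rho_pos h)).1, (p v).2.add (q v).2⟩⟩,
    fun v B r c => norm_add_le_of_le (a.2 v B r c) (a'.2 v B r c)⟩

theorem pu_smul (h : S.Nu 100) (a : PU S.p b ψ) (t : ℂ) : PU S.p (‖t‖ * b) (t • ψ) :=
  let ⟨_, _, _, p⟩ := a.1
  ⟨⟨_, _, _, fun v => ⟨((p v).1.smul (rho_pos h) t).1, (p v).2.const_mul t⟩⟩,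
    fun v B r c => norm_mul_le_of_le le_rfl (a.2 v B r c)⟩

theorem Dir.add (h : S.Nu 100) (a : Dir S ψ K) (a' : Dir S ψ' K') : Dir S (ψ + ψ') (K + K') :=
  let ⟨_, _, _, p1, p2, p3⟩ := a
  let ⟨_, _, _, q1, q2, q3⟩ := a'
  ⟨_, _, _, pu_add h p1 q1, p2.add q2, p3.add q3⟩

theorem Dir.smul (h : S.Nu 100) (a : Dir S ψ K) (t : ℂ) : Dir S (t • ψ) (t • K) :=
  let ⟨_, _, _, p1, p2, p3⟩ := a
  ⟨_, _, _, pu_smul h p1 t, p2.smul t, p3.smul (norm_nonneg t)⟩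

theorem Dir.sub (h : S.Nu 100) (a : Dir S ψ K) (a' : Dir S ψ' K') : Dir S (ψ - ψ') (K - K') := by
  simpa [sub_eq_add_neg] using a.add h (a'.smul h (-1))

theorem Rm.dir (a : Rm S ψ K) : Dir S ψ K :=
  let ⟨_, _, _, s, _⟩ := a
  ⟨_, _, _, s.pu, s.km, s.kn⟩

theorem Dir.zero (h : S.Nu 100) (a : Dir S ψ K) : Dir S 0 0 := by simpa using a.smul h 0

theorem dK_zero (S : Sd) (ψ : Lx) (K : Ac) : dK S ψ K 0 0 = 0 := by
  funext X c U
  simp [dK, dA]

theorem dK_smul (S : Sd) (ψ : Lx) (K : Ac) (ψ' : Lx) (K' : Ac) (t : ℂ) :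
    dK S ψ K (t • ψ') (t • K') = t • dK S ψ K ψ' K' := by
  funext X c U
  simp only [dK, dA, smul_smul, Pi.smul_apply, smul_eq_mul]
  simpa [mul_comm] using deriv_comp_mul_left t (fun s => S.KK (ψ + s • ψ') (K + s • K') X c U) 0

/-- balls in the plane -/
def pl2 (r : NNReal) : Kit.Dom (ℂ × ℂ) where
  D θ := {s | ‖s‖ ≤ r * θ}
  smul c θ s h := by
    simp only [Set.mem_ofPred_eq, norm_smul] at h ⊢
    rw [mul_left_comm]
    exact mul_le_mul_of_nonneg_left h (norm_nonneg _)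
  add h h' := (norm_add_le_of_le h h').trans_eq (mul_add _ _ _).symm
  mono h h' := le_trans h' (mul_le_mul_of_nonneg_left h r.2)

theorem room {q b b' θ θ' : ℝ} (h1 : q * b < 1) (h2 : q * θ < 1) :
    ∃ r, 0 < r ∧ q * (b + r * b') ≤ 1 ∧ q * (θ + r * θ') ≤ 1 := by
  have t : ∀ {b : ℝ} (b' : ℝ), q * b < 1 → ∀ᶠ r in 𝓝[>] (0 : ℝ), q * (b + r * b') ≤ 1 :=
    fun {b} b' h => nhdsWithin_le_nhds (((by fun_prop : Continuous fun r : ℝ =>
      q * (b + r * b')).tendsto' 0 (q * b) (by simp)).eventually_le_const h)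
  exact (eventually_mem_nhdsWithin.and ((t b' h1).and (t θ' h2))).exists

theorem dK_add (h : S.Nu 100) (f : St2 S) (a : Rm S ψ K) (a' : Dir S ψ' K') (a'' : Dir S ψ'' K'') :
    dK S ψ K (ψ' + ψ'') (K' + K'') = dK S ψ K ψ' K' + dK S ψ K ψ'' K'' := by
  obtain ⟨b, θ, k, s, s1, s2⟩ := a
  obtain ⟨b', θ', k', p1, p2, p3⟩ := a'
  obtain ⟨b'', θ'', k'', q1, q2, q3⟩ := a''
  obtain ⟨r, r0, r1, r2⟩ := room (b' := b' + b'') (θ' := θ' + θ'') s1 s2
  lift r to NNReal using r0.le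
  have F : ∀ z ∈ (pl2 r).D 1, S.Sml (b + r * (b' + b'')) (θ + r * (θ' + θ''))
      (k + (r : ℝ) • (k' + k'')) (ψ + (z.1 • ψ' + z.2 • ψ'')) (K + (z.1 • K' + z.2 • K'')) := by
    intro z hz
    have z1 : ‖z.1‖ ≤ r := (norm_fst_le z).trans (le_trans hz (mul_one _).le)
    have z2 : ‖z.2‖ ≤ r := (norm_snd_le z).trans (le_trans hz (mul_one _).le)
    refine ⟨r1, r2, pu_mono (pu_add h s.pu (pu_add h (pu_smul h p1 _) (pu_smul h q1 _))) ?_,
      (s.km.add ((p2.smul _).add (q2.smul _))).mono fun X c => ?_, s.kn.add ((p3.add q3).smul r.2)⟩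
    · have := pu_nn h p1
      have := pu_nn h q1
      rw [mul_add]
      gcongr
    · have := p3.1 X c
      have := q3.1 X c
      simp only [Pi.add_apply, Pi.smul_apply, smul_eq_mul, mul_add]
      gcongr
  have m0 : (0 : ℂ × ℂ) ∈ (pl2 r).D 1 := by simp [pl2]
  obtain ⟨m, -, m2⟩ := f.K _ _ _ r1 r2 (pu_nn h (F 0 m0).pu) (F 0 m0).kn
  funext X c U
  have := Kit.Dom.LH.deriv_add (O := pl2 r) (k := fun z : ℂ × ℂ =>
    S.KK (ψ + (z.1 • ψ' + z.2 • ψ'')) (K + (z.1 • K' + z.2 • K'')) X c U)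
    (fun B δ Ω o hΩ => f.hol _ _ _ Ω _ _ o (fun t ht => F _ (hΩ t ht)) (fun v B => by
      simp only [Pi.add_apply, Pi.smul_apply, smul_eq_mul]
      fun_prop) (fun X c U => by
      simp only [Pi.add_apply, Pi.smul_apply, smul_eq_mul]
      fun_prop) X c U)
    (fun z hz => ((m2 _ _ (F z hz)).per X c U) ▸ (m2 _ _ (F z hz)).bd X c _ (Mx.per_pc _ _))
    (θ := (r : ℝ)⁻¹) (B := (1, 0)) (B' := (0, 1)) (by simp [pl2, r0.ne']) (by simp [pl2, r0.ne'])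
  simpa [dK, dA] using this

theorem Dir.sum {ι : Type} (h : S.Nu 100) (a : Dir S ψ K) (s : Finset ι) {φ : ι → Lx} {J : ι → Ac}
    (hs : ∀ i ∈ s, Dir S (φ i) (J i)) : Dir S (∑ i ∈ s, φ i) (∑ i ∈ s, J i) := by
  induction s using Finset.cons_induction with
  | empty => exact a.zero h
  | cons i s hi ih =>
    rw [sum_cons, sum_cons]
    exact (hs i (mem_cons_self i s)).add h (ih fun j hj => hs j (mem_cons_of_mem hj))

theorem dK_sum {ι : Type} (h : S.Nu 100) (f : St2 S) (a : Rm S ψ K) (s : Finset ι) {φ : ι → Lx}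
    {J : ι → Ac} (hs : ∀ i ∈ s, Dir S (φ i) (J i)) :
    dK S ψ K (∑ i ∈ s, φ i) (∑ i ∈ s, J i) = ∑ i ∈ s, dK S ψ K (φ i) (J i) := by
  induction s using Finset.cons_induction with
  | empty => exact dK_zero S ψ K
  | cons i s hi ih =>
    have q := fun j hj => hs j (mem_cons_of_mem hj)
    rw [sum_cons, sum_cons, sum_cons, dK_add h f a (hs i (mem_cons_self i s)) (a.dir.sum h s q), ih q]

theorem dK_sub (h : S.Nu 100) (f : St2 S) (a : Rm S ψ K) (a' : Dir S ψ' K') (a'' : Dir S ψ'' K'') :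
    dK S ψ K (ψ' - ψ'') (K' - K'') = dK S ψ K ψ' K' - dK S ψ K ψ'' K'' := by
  have := dK_add h f a a' (a''.smul h (-1))
  rw [dK_smul] at this
  simpa [sub_eq_add_neg] using this

/-- locality -/
theorem dK_loc (h : S.Nu 100) {Y : Finset St} (a : S.AgD Y ψ φ K J) (a' : S.AgD Y ψ' φ' K' J')
    (c : Finset (Finset St)) : dK S ψ K ψ' K' Y c = dK S φ J φ' J' Y c := by
  funext U
  have : ∀ t : ℂ, S.KK (ψ + t • ψ') (K + t • K') Y c = S.KK (φ + t • φ') (J + t • J') Y c :=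
    fun t => Sh.KK_ag ⟨fun x hx hy => by simp only [Pi.add_apply, Pi.smul_apply, a.1 x hx hy,
      a'.1 x hx hy], fun o ho hy => by simp only [Pi.add_apply, Pi.smul_apply, a.2 o ho hy,
      a'.2 o ho hy]⟩ (h.mono (Nat.zero_le _))
  simp only [dK, dA, this]

theorem dK_van (h : S.Nu 100) {Y : Finset St} (a' : S.AgD Y ψ' 0 K' 0) (c : Finset (Finset St)) :
    dK S ψ K ψ' K' Y c = 0 := by
  rw [dK_loc h ⟨fun _ _ _ => rfl, fun _ _ _ => rfl⟩ a', dK_zero]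
  rfl

/-- translation covariance -/
theorem dK_sh (h : S.Ok) (v : St) {o : LP St} (ho : o ∈ lps S.Λ') :
    dK S (trL S.nf (up S.l v) ψ) (trA S.nf (up S.l v) K) (trL S.nf (up S.l v) ψ')
      (trA S.nf (up S.l v) K') o.1 o.2 = trA S.n v (dK S ψ K ψ' K') o.1 o.2 := by
  funext U
  have := fun t : ℂ => congrFun (Sh.KK_tr (ψ := ψ + t • ψ') (K := K + t • K') (v := v) h.odd ho) U
  exact congrArg (deriv · 0) (funext this)

theorem line_sml (h : S.Nu 100) (a : Rm S ψ K) (a' : Dir S ψ' K') : ∃ r b θ k, 0 < r ∧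
    ∀ t ∈ ball (0 : ℂ) r, S.Sml b θ k (ψ + t • ψ') (K + t • K') := by
  obtain ⟨b, θ, k, s, s1, s2⟩ := a
  obtain ⟨b', θ', k', p1, p2, p3⟩ := a'
  obtain ⟨r, r0, r1, r2⟩ := room (b' := b') (θ' := θ') s1 s2
  exact ⟨r, _, _, _, r0, fam_sml h s p1 p2 p3 r0.le r1 r2⟩

theorem dK_diff (h : S.Nu 100) (f : St2 S) (a : Rm S ψ K) (a' : Dir S ψ' K') (X : Finset St)
    (c : Finset (Finset St)) (U : Conf) :
    HasDerivAt (fun t : ℂ => S.KK (ψ + t • ψ') (K + t • K') X c U) (dK S ψ K ψ' K' X c U) 0 := by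
  obtain ⟨r, b, θ, k, r0, F⟩ := line_sml h a a'
  exact ((f.hol _ _ _ _ _ _ isOpen_ball F (holL_line _ _ _) (holA_line _ _ _) X c U).differentiableAt
    (ball_mem_nhds _ r0)).hasDerivAt

theorem dK_real (h : S.Nu 100) (f : St2 S) (a : Rm S ψ K) (a' : Dir S ψ' K') (r1 : RealP S.p ψ)
    (r2 : RealA K) (r3 : RealP S.p ψ') (r4 : RealA K') : RealA (dK S ψ K ψ' K') := fun X c U => by
  obtain ⟨r, b, θ, k, r0, F⟩ := line_sml h a a'
  have d := Complex.imCLM.hasFDerivAt.comp_hasDerivAt (0 : ℝ)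
    (dK_diff h f a a' X c U).comp_ofReal
  refine d.unique ((hasDerivAt_const (0 : ℝ) (0 : ℝ)).congr_of_eventuallyEq ?_)
  filter_upwards [ball_mem_nhds (0 : ℝ) r0] with t ht
  exact (f.real _ _ _ _ _ (F t (by simpa using ht)) (fun x B u v => by simp [r1 x B u v, r3 x B u v])
    fun X c U => by simp [r2 X c U, r4 X c U]).2.1 X c U

theorem dK_cov (u : S.Nu 100) (a : TCov S.nf ψ K) (a' : TCov S.nf ψ' K') (v : St)
    {o : LP St} (ho : o ∈ lps S.Λ') :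
    trA S.n v (dK S ψ K ψ' K') o.1 o.2 = dK S ψ K ψ' K' o.1 o.2 := by
  rw [← dK_sh u.ok v ho]
  exact dK_loc u ⟨fun x _ _ => congrFun (a _).1 x, fun q hq _ => (a _).2 q hq⟩
    ⟨fun x _ _ => congrFun (a' _).1 x, fun q hq _ => (a' _).2 q hq⟩ _

end En

end Pool.Agent.Lib.MP_7f377f_mp.RG.Q4
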