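import Pool.Agent.Lib.MP_7f377f_mp.Q4OpK1

/-! Bounds for polynomials in the operator built from kernels. -/

noncomputable section

namespace Pool.Agent.Lib.MP_7f377f_mp.RG.Q4

open Finset Polynomial Od

attribute [local irreducible] box lbox cube

variable {l c R : ℕ} {Λ δ : ℝ} {H H' : Set St} {ka ka' : St → Kf} {A A' : Fld} {p : ℂ[X]} {f : Lk}
  {n : Fin 4 → ℕ} {O : Od} {W : Cf} {W0 : Conf}

/-- the setting of the bounds at the block `y` -/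
def Gk (O : Od) (δ : ℝ) (H : Set St) (ka : St → Kf) (W : Cf) (W0 : Conf) (y : St) : Prop :=
  (Fr H y → Gp δ (sh y W) (sh y W0)) ∧ (Nf H y → Kc O.l δ (ka y) (kh O.l O.h (sh y W)))

theorem Fr.anti {y : St} (h : Fr H' y) (hH : H ⊆ H') : Fr H y := fun v hv h' => h v hv (hH h')

theorem Nf.anti {y : St} (h : Nf H' y) (hH : H ⊆ H') : Nf H y :=
  let ⟨v, hv, h⟩ := h
  ⟨v, hv, h.anti hH⟩

theorem Gk.mono {y : St} (h : Gk O δ H ka W W0 y) (hH : H ⊆ H') : Gk O δ H' ka W W0 y :=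
  ⟨fun h' => h.1 (h'.anti hH), fun h' => h.2 (h'.anti hH)⟩

theorem Gk.le {y : St} {δ' : ℝ} (h : Gk O δ H ka W W0 y) (h' : δ ≤ δ') : Gk O δ' H ka W W0 y :=
  ⟨fun h1 => (h.1 h1).mono h', fun h1 => (h.2 h1).mono h'⟩

theorem gk_sh {x y : St} :
    Gk O δ (shS y H) (shK y ka) (sh y W) (sh y W0) x ↔ Gk O δ H ka W W0 (x + y) := by
  simp only [Gk, fr_shS, nf_shS, sh_sh, shK]

theorem Gk.zero {y : St} (h : Gk O δ H ka W W0 y) (h0 : ¬ 0 ≤ δ) : Gk O 0 H ka W W0 y :=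
  ⟨fun h1 => absurd (h.1 h1).nonneg h0, fun h1 => absurd (h.2 h1).nonneg h0⟩

theorem topK_sub {η : ℝ} (hΛ : 3 ≤ Λ) (η0 : 0 ≤ η) (hk : ∀ y, Nf H y → Kc l η (ka y) (ka' y))
    (f : Lk) : ‖(topK l Λ H ka A - topK l Λ H ka' A) f‖ ≤ η * ∑ y ∈ box 2,
      ∑ e ∈ lbox (3 * l + 1), ‖A (e.1 + up l (yo l f.1 + y), e.2)‖ := by
  by_cases hf : Act l H f
  swap
  · rw [Pi.sub_apply, topK_not hf, topK_not hf, sub_self, norm_zero]
    positivity
  have Λ0 : 0 < Λ := by linarith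
  rw [Pi.sub_apply, topK_act hf, topK_act hf, sub_sub_sub_cancel_left, ← smul_sub, norm_smul,
    norm_sub_rev, norm_inv, Complex.norm_real, Real.norm_of_nonneg Λ0.le, inv_mul_le_iff₀ Λ0]
  refine (pi_norm_le_iff_of_nonneg (by positivity)).2 fun i => ?_
  rw [Pi.sub_apply, hamK_ker, hamK_ker, ← sum_sub_distrib, mul_sum, mul_sum]
  refine (norm_sum_le _ _).trans (le_trans (sum_le_sum fun y hy => ?_)
    (sum_le_sum_of_subset_of_nonneg (fun _ => box_mono one_le_two) fun _ _ _ => by positivity))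
  rw [← sum_sub_distrib, mul_sum, mul_sum]
  refine (norm_sum_le _ _).trans (sum_le_sum fun e he => ?_)
  rw [← sum_sub_distrib]
  refine (norm_sum_le _ _).trans ((sum_le_card_nsmul _ _
    (η * ‖A (e.1 + up l (yo l f.1 + y), e.2)‖) fun j _ => ?_).trans ?_)
  · rw [← sub_mul, norm_mul]
    exact mul_le_mul (hk _ (hf.2.nf hy) _ (rel_mem hy) i e he j)
      ((norm_le_pi_norm _ j).trans (norm_pj _)) (norm_nonneg _) η0
  · rw [nsmul_eq_mul, card_univ, Fintype.card_fin]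
    exact mul_le_mul_of_nonneg_right (by exact_mod_cast hΛ) (by positivity)

theorem Od.Ok.lam_ge (h : O.Ok c) : 3 ≤ O.Λ :=
  h.lam ▸ le_trans (by linarith [h.LL_ge]) (le_self_pow₀ (by linarith [h.LL_ge]) c.succ_ne_zero)

theorem topK_l2 (h : O.Ok c) (hδ : (LL O.l : ℝ) ^ (2 * c + 10) * δ ≤ 1) (hn : ∀ i, Odd (n i))
    (hH : PerS n H) (h0 : PerV n W0) (hg : ∀ y, Gk O δ H ka W W0 y) (hA : PerV (fi O.l n) A) :
    nrm2 n O.l (topK O.l O.Λ H ka A) ≤ O.θ c * nrm2 n O.l A := by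
  wlog δ0 : 0 ≤ δ generalizing δ
  · exact this (δ := 0) (by simp) (fun y => (hg y).zero δ0) le_rfl
  have hL := h.LL_ge
  have h1 := top_l2_real h hδ hn hH h0 δ0 (fun y hy => ((hg y).1 hy).1) hA
  have h2 := nrm2_ker hn hL hA δ0 (top_pert h δ0
    (by linarith [h.small δ0 hδ (j := 0) (by omega)]) fun y => (hg y).1)
  have h2' := nrm2_ker hn hL hA δ0 (topK_sub h.lam_ge δ0 fun y => (hg y).2)
  have h3 : 2 * (δ * (LL O.l : ℝ) ^ 5) ≤ (2 * (LL O.l : ℝ) ^ (2 * c + 2))⁻¹ := by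
    rw [← one_div, le_div_iff₀ (by positivity)]
    have := h.small δ0 hδ (j := 2 * c + 7) (by omega)
    calc _ = 4 * ((LL O.l : ℝ) ^ (2 * c + 7) * δ) := by ring
      _ ≤ _ := by linarith
  have h4 := mul_le_mul_of_nonneg_right h3 (nrm2_nonneg (n := n) (l := O.l) (A := A))
  rw [nrm2_eq, map_sub] at h2 h2'
  rw [← Od.top_eq h] at h2'
  rw [nrm2_eq] at h1 ⊢
  have h5 := norm_sub_norm_le (toE n O.l (O.top H W A)) (toE n O.l (O.top H (cC W0) A))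
  have h6 := norm_sub_norm_le (toE n O.l (topK O.l O.Λ H ka A)) (toE n O.l (O.top H W A))
  rw [Od.θ, mul_inv] at *
  linarith

theorem iterK_per (hH : PerS n H) (hk : PerK n ka) (hA : PerV (fi l n) A) (k : ℕ) :
    PerV (fi l n) ((topK l Λ H ka)^[k] (pj l H A)) := polK_X_pow (Λ := Λ) k ▸ polK_per hH hk hA

theorem polK_l2' {θ : ℝ} (θ0 : 0 ≤ θ) (hH : PerS n H) (hk : PerK n ka)
    (h : ∀ A, PerV (fi l n) A → nrm2 n l (topK l Λ H ka A) ≤ θ * nrm2 n l A) (hA : PerV (fi l n) A) :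
    nrm2 n l (polK l Λ p H ka A) ≤ wn θ p * nrm2 n l A := by
  have h1 : ∀ k, nrm2 n l ((topK l Λ H ka)^[k] (pj l H A)) ≤ θ ^ k * nrm2 n l A := fun k => by
    induction k with
    | zero => simpa using nrm2_pj
    | succ k ih =>
      rw [Function.iterate_succ_apply', pow_succ', mul_assoc]
      exact (h _ (iterK_per hH hk hA k)).trans (mul_le_mul_of_nonneg_left ih θ0)
  rw [nrm2_eq, polK, Polynomial.sum, map_sum, wn_eq subset_rfl, sum_mul]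
  refine (norm_sum_le _ _).trans (sum_le_sum fun k _ => ?_)
  rw [map_smul, norm_smul, ← nrm2_eq, mul_assoc]
  exact mul_le_mul_of_nonneg_left (h1 k) (norm_nonneg _)

theorem polK_l2 (h : O.Ok c) (hδ : (LL O.l : ℝ) ^ (2 * c + 10) * δ ≤ 1) (hn : ∀ i, Odd (n i))
    (hH : PerS n H) (hk : PerK n ka) (h0 : PerV n W0) (hg : ∀ y, Gk O δ H ka W W0 y)
    (hA : PerV (fi O.l n) A) :
    nrm2 n O.l (polK O.l O.Λ p H ka A) ≤ wn (O.θ c) p * nrm2 n O.l A :=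
  polK_l2' (θ_mem h).1 hH hk (fun _ => topK_l2 h hδ hn hH h0 hg) hA

theorem perK_rcv : PerK n fun y => ka (rcv n y) := fun y v => by simp only [rcv_add]

theorem tH_nf {y : St} (hy : Nf (tH R H) y) :
    rcv (tn R) y ∈ box (R + 1) ∧ Nf H (rcv (tn R) y) := by
  obtain ⟨v, hv, hy⟩ := hy
  obtain ⟨w, hw⟩ := rcv_spec (tn R) (y + v)
  rw [hw, tH_per.fr] at hy
  have h0 := dom_tn R ▸ rcv_mem (tn_odd R) (y + v)
  have e : Dv (tn R) (y - (rcv (tn R) (y + v) - v)) := by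
    convert dv_rcv (tn R) (y + v) using 1
    abel
  rw [rcv_congr e]
  generalize rcv (tn R) (y + v) = x at hy h0
  have h1 : x ∈ box (R + 3) := by
    have := hy 0 (zero_mem_box 3)
    rw [add_zero, tH, Set.mem_ofPred_eq, rcv_tn h0, not_or, not_not] at this
    exact this.2
  have h2 : ∀ v ∈ box 3, x + v ∉ H ∧ x + v ∈ box (R + 3) := fun v hv => by
    have := hy v hv
    rwa [tH, Set.mem_ofPred_eq, rcv_tn (R := R) (add_mem_box h1 hv :), not_or, not_not] at this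
  have h3 : x ∈ box R := mem_box.2 fun i => by
    have a := mem_box.1 (h2 (fun _ => 3) (mem_box.2 fun _ => by norm_num)).2 i
    have b := mem_box.1 (h2 (fun _ => -3) (mem_box.2 fun _ => by norm_num)).2 i
    simp only [Pi.add_apply] at a b
    omega
  have h4 := sub_mem_box h3 hv
  rw [rcv_tn (box_mono (by omega) h4)]
  exact ⟨h4, v, hv, by rw [sub_add_cancel]; exact fun v hv => (h2 v hv).1⟩

theorem tH_gk (h : O.Ok c) (hg : ∀ y ∈ box (R + 1), Gk O δ H ka W W0 y) (y : St) :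
    Gk O δ (tH R H) (fun y => ka (rcv (tn R) y)) (pcv (tn R) W) (pcv (tn R) W0) y := by
  refine ⟨tH_gp (fun y hy => (hg y (box_mono R.le_succ hy)).1) y, fun hy => ?_⟩
  obtain ⟨h1, h2⟩ := tH_nf hy
  obtain ⟨v, hv⟩ := rcv_spec (tn R) y
  have : kh O.l O.h (sh y (pcv (tn R) W)) = kh O.l O.h (sh (rcv (tn R) y) W) := by
    conv_lhs => rw [hv, ← sh_sh, pcv_per _ v]
    exact (kh_agr h.rng (((pcv_agr (R := R) W).mono (by omega)).sh h1)).symm
  rw [this]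
  exact (hg _ h1).2 h2

theorem polK_tn {d r : ℕ} (hp : p.natDegree ≤ d) (hR : r + 2 * d ≤ R)
    (hA : Agr (fb l (r + 2 * d)) A A') : Agr (fb l r) (polK l Λ p H ka A)
      (polK l Λ p (tH R H) (fun y => ka (rcv (tn R) y)) (pcv (fi l (tn R)) A')) :=
  polK_agr hp (tH_ag.mono (by omega))
    (fun y hy _ => by rw [rcv_tn (box_mono (by omega) hy)]; exact Kc.refl _ le_rfl)
    (hA.trans ((pcv_agr' A').mono (Op.fb_mono _ (by omega))))

theorem agr_cut0 : Agr (fb l (0 + R)) A (cut (fb l R) A) := by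
  rw [zero_add]; exact (agr_cut _ _).symm

theorem polK_loc (h : O.Ok c) (hδ : (LL O.l : ℝ) ^ (2 * c + 10) * δ ≤ 1) {d : ℕ}
    (hp : p.natDegree ≤ d) (hg : ∀ y ∈ box (2 * d + 1), Gk O δ H ka W W0 y) :
    ∑ f ∈ lbox O.l, ∑ k, ‖polK O.l O.Λ p H ka A f k‖ ^ 2 ≤
      wn (O.θ c) p ^ 2 * ∑ e ∈ lbox (fb O.l (2 * d)), ∑ k, ‖A e k‖ ^ 2 :=
  loc_of (polK_tn hp (by omega) agr_cut0) fun _ =>
    polK_l2 h hδ (tn_odd _) tH_per perK_rcv (pcv_per _) (tH_gk h hg)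

theorem polK_sup (h : O.Ok c) (hδ : (LL O.l : ℝ) ^ (2 * c + 10) * δ ≤ 1) {d : ℕ} {a : ℝ}
    (hp : p.natDegree ≤ d) (hg : ∀ y ∈ box (2 * d + 1), Gk O δ H ka W W0 y)
    (hA : Sm (fb O.l (2 * d)) a A) : Sm O.l
      (wn (O.θ c) p * (4 * (4 * d + 1) ^ 2 * (LL O.l : ℝ) ^ 2 * a)) (polK O.l O.Λ p H ka A) :=
  (sm_of_sq (wn_nonneg (θ_mem h).1) hA (polK_loc h hδ hp hg)).mono le_rfl
    (le_of_eq (by push_cast; ring))

/-- the bound at an arbitrary link -/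
theorem polK_at (h : O.Ok c) (hδ : (LL O.l : ℝ) ^ (2 * c + 10) * δ ≤ 1) {d : ℕ} {a : ℝ}
    (hp : p.natDegree ≤ d) (f : Lk)
    (hg : ∀ y ∈ box (2 * d + 1), Gk O δ H ka W W0 (y + yo O.l f.1))
    (hA : Sm (fb O.l (2 * d)) a (sh (up O.l (yo O.l f.1)) A)) :
    ‖polK O.l O.Λ p H ka A f‖ ≤ wn (O.θ c) p * (4 * (4 * d + 1) ^ 2 * (LL O.l : ℝ) ^ 2 * a) := by
  have := polK_sup h hδ hp (fun y hy => gk_sh.2 (hg y hy)) hA (f.1 - up O.l (yo O.l f.1), f.2)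
    (mem_lbox.2 (sub_up_yo_mem _ _))
  rwa [polK_sh, sh, sub_add_cancel] at this

theorem Od.Ok.deg_le' (h : O.Ok c) :
    (4 : ℝ) * (4 * (2 * O.N + 1 : ℕ) + 1) ^ 2 * (LL O.l : ℝ) ^ 2 ≤ (LL O.l : ℝ) ^ (4 * c + 11) :=
  le_trans (by gcongr; norm_num) h.deg_le

/-- the whitening operator, locally -/
theorem polK_pP (h : O.Ok c) (hδ : (LL O.l : ℝ) ^ (2 * c + 10) * δ ≤ 1) {a : ℝ} (f : Lk)
    (hg : ∀ y ∈ box (4 * O.N + 3), Gk O δ H ka W W0 (y + yo O.l f.1))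
    (hA : Sm (fb O.l (4 * O.N + 2)) a (sh (up O.l (yo O.l f.1)) A)) :
    ‖polK O.l O.Λ (pP O.N) H ka A f‖ ≤ (LL O.l : ℝ) ^ (6 * c + 16) * a ∧
    ‖polK O.l O.Λ (pP O.N * (1 - X)) H ka A f‖ ≤ (LL O.l : ℝ) ^ (6 * c + 16) * a / 2 ∧
    ‖polK O.l O.Λ (pU O.N) H ka A f‖ ≤ Real.exp (-(O.l : ℝ) ^ 2) * a := by
  obtain ⟨θ0, θ1⟩ := θ_mem h
  have a0 := hA.nonneg
  have h2 := h.deg_le'
  have h4 := h.N_le
  have N0 := Nat.cast_nonneg (α := ℝ) O.N
  have key : ∀ p : ℂ[X], p.natDegree ≤ 2 * O.N + 1 → ∀ w, wn (O.θ c) p ≤ w →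
      ‖polK O.l O.Λ p H ka A f‖ ≤ w * ((LL O.l : ℝ) ^ (4 * c + 11) * a) := fun p hp w hw =>
    (polK_at h hδ hp f (fun y hy => hg y (box_mono (by omega) hy))
      (hA.mono (Op.fb_mono _ (by omega)) le_rfl)).trans
      (mul_le_mul hw (by gcongr) (by positivity) ((wn_nonneg θ0).trans hw))
  refine ⟨(key _ ((Op.natDegree_pP _).trans (by omega)) ((LL O.l : ℝ) ^ (2 * c + 5))
    ((wn_pP θ0 θ1 _).trans (by linarith))).trans_eq (by ring),
    (key _ (natDegree_mul_le.trans ((add_le_add (Op.natDegree_pP _)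
      ((natDegree_sub_le _ _).trans (c := 1) (by simp))).trans (by omega)))
      ((LL O.l : ℝ) ^ (2 * c + 5) / 2) (((wn_mul θ0).trans (mul_le_mul (wn_pP θ0 θ1 O.N)
        (wn_one_sub θ0 θ1) (wn_nonneg θ0) (by positivity))).trans (by linarith))).trans_eq (by ring),
    (key _ (natDegree_pU _) ((LL O.l : ℝ) ^ (2 * c + 5) * O.θ c ^ O.N)
      ((wn_pU θ0 θ1 _).trans (by gcongr; linarith))).trans ?_⟩
  refine le_trans (le_of_eq (by ring)) (mul_le_mul_of_nonneg_right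
    (θ_pow h (j := 6 * c + 16) (le_trans (by omega) h.big)) a0)

theorem pj_eq_polK (N : ℕ) : pj l H A = polK l Λ (pP N * (1 - X)) H ka (polK l Λ (pP N) H ka A) +
    polK l Λ (pU N) H ka (pj l H A) := by
  rw [polK_pj, ← polK_mul, ← polK_add, ← polK_one (Λ := Λ) (ka := ka), pU]
  congr 1
  ring

/-- local inverse bound -/
theorem polK_inv_loc (h : O.Ok c) (hδ : (LL O.l : ℝ) ^ (2 * c + 10) * δ ≤ 1) {a b : ℝ}
    (hg : ∀ y ∈ box (4 * O.N + 3), Gk O δ H ka W W0 (y + yo O.l f.1))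
    (ha : Sm (fb O.l (4 * O.N + 2)) a (sh (up O.l (yo O.l f.1)) (polK O.l O.Λ (pP O.N) H ka A)))
    (hb : Sm (fb O.l (4 * O.N + 2)) b (sh (up O.l (yo O.l f.1)) (pj O.l H A))) :
    ‖pj O.l H A f‖ ≤ (LL O.l : ℝ) ^ (6 * c + 16) * a / 2 + Real.exp (-(O.l : ℝ) ^ 2) * b := by
  rw [pj_eq_polK (Λ := O.Λ) (ka := ka) O.N]
  exact (norm_add_le _ _).trans (add_le_add (polK_pP h hδ f hg ha).2.1 (polK_pP h hδ f hg hb).2.2)

theorem polK_inv (h : O.Ok c) (hδ : (LL O.l : ℝ) ^ (2 * c + 10) * δ ≤ 1) {a : ℝ}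
    (hg : ∀ y, Gk O δ H ka W W0 y) (hA : ∃ M, ∀ e, ‖A e‖ ≤ M)
    (ha : ∀ e, ‖polK O.l O.Λ (pP O.N) H ka A e‖ ≤ a) (hf : Act O.l H f) :
    ‖A f‖ ≤ (LL O.l : ℝ) ^ (6 * c + 16) * a := by
  obtain ⟨M, hM⟩ := hA
  have hb : BddAbove (Set.range fun e => ‖pj O.l H A e‖) :=
    ⟨M, Set.forall_mem_range.2 fun e => (norm_pj e).trans (hM e)⟩
  obtain ⟨s, h1, h5⟩ : ∃ s, (∀ e, ‖pj O.l H A e‖ ≤ s) ∧ ∀ t, (∀ e, ‖pj O.l H A e‖ ≤ t) → s ≤ t :=
    ⟨_, le_ciSup hb, fun _ => ciSup_le⟩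
  have h3 := h5 _ fun e => polK_inv_loc h hδ (f := e) (fun _ _ => hg _) (sm_of_all ha _ _)
    (sm_of_all h1 _ _)
  have h4 := mul_le_mul_of_nonneg_right h.exp_le ((norm_nonneg _).trans (h1 f))
  rw [← pj_act (A := A) hf]
  linarith [h1 f]

/-- matrix elements -/
theorem polK_entry (h : O.Ok c) (hδ : (LL O.l : ℝ) ^ (2 * c + 10) * δ ≤ 1) {d : ℕ}
    (hp : p.natDegree ≤ d) (hg : ∀ y ∈ box (2 * d + 1), Gk O δ H ka W W0 y) (e : Lk) (i : Fin 3)
    (hf : f ∈ lbox O.l) (j : Fin 3) : ‖polK O.l O.Λ p H ka (eb e i) f j‖ ≤ wn (O.θ c) p := by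
  have h1 := polK_loc h hδ hp hg (A := eb e i)
  have h2 : ∑ e' ∈ lbox (fb O.l (2 * d)), ∑ j, ‖eb e i e' j‖ ^ 2 ≤ 1 := by
    refine (sum_le_sum (g := fun e' => if e' = e then 1 else 0) fun e' _ => ?_).trans ?_
    · by_cases he : e' = e <;> simp [eb_apply, he, apply_ite]
    · rw [sum_ite_eq']
      split_ifs <;> simp
  refine (abs_le_of_sq_le_sq' (le_trans ?_ (h1.trans (mul_le_of_le_one_right (sq_nonneg _) h2)))
    (wn_nonneg (θ_mem h).1)).2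
  exact (single_le_sum (f := fun j => ‖polK O.l O.Λ p H ka (eb e i) f j‖ ^ 2)
    (fun _ _ => sq_nonneg _) (mem_univ j)).trans (single_le_sum (f := fun f => ∑ j,
      ‖polK O.l O.Λ p H ka (eb e i) f j‖ ^ 2) (fun _ _ => by positivity) hf)

theorem dtK_bound (h : O.Ok c) (hδ : (LL O.l : ℝ) ^ (2 * c + 10) * δ ≤ 1)
    (hg : ∀ y ∈ box (2 * O.N + 1), Gk O δ H ka W W0 y) :
    ‖dtK O.l O.Λ O.N H ka‖ ≤ (LL O.l : ℝ) ^ (2 * c + 9) := by
  refine (norm_sum_le _ _).trans ((sum_le_card_nsmul _ _ _ fun f hf => (norm_sum_le _ _).trans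
    (sum_le_card_nsmul _ _ (O.N : ℝ) fun k _ => (polK_entry h hδ (Op.natDegree_pQ _) hg f k hf k).trans
      (wn_pQ (θ_mem h).1 (θ_mem h).2 _))).trans ?_)
  refine le_trans (le_of_eq ?_) (h.pow_le (C := 12) (by norm_num) (i := 2 * c + 8) (by omega))
  rw [card_lbox, show 2 * O.l + 1 = LL O.l from rfl, nsmul_eq_mul, nsmul_eq_mul, h.N_cast,
    card_univ, Fintype.card_fin]
  push_cast
  ring

theorem polK_symm (hs : ∀ y, Ks (ka y)) (e f : Lk) (b b' : C3) :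
    dot b (polK l Λ p H ka (Pi.single e b') f) = dot b' (polK l Λ p H ka (Pi.single f b) e) := by
  obtain ⟨a, he, hf⟩ : ∃ a, e ∈ lbox (fb l a) ∧ f ∈ lbox (fb l a) :=
    let ⟨a, ha⟩ := mem_some_fb l e
    let ⟨a', ha'⟩ := mem_some_fb l f
    ⟨max a a', lbox_mono (Op.fb_mono _ (le_max_left _ _)) ha,
      lbox_mono (Op.fb_mono _ (le_max_right _ _)) ha'⟩
  set R := a + 2 * p.natDegree with hR
  have key : ∀ {e f : Lk} (b b' : C3), f ∈ lbox (fb l a) →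
      dot b (polK l Λ p H ka (Pi.single e b') f) = bp (tn R) l (pcv (fi l (tn R)) (Pi.single f b))
        (polK l Λ p (tH R H) (fun y => ka (rcv (tn R) y)) (pcv (fi l (tn R)) (Pi.single e b'))) :=
    fun {e f} b b' hf => by
    rw [polK_tn le_rfl hR.ge (fun _ _ => rfl) f hf,
      ← (polK_per (Λ := Λ) (p := p) tH_per perK_rcv (pcv_per (Pi.single e b'))).pcv]
    generalize polK l Λ p (tH R H) (fun y => ka (rcv (tn R) y))
      (pcv (fi l (tn R)) (Pi.single e b')) = B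
    have h1 := lbox_mono (Op.fb_mono l (by omega : a ≤ R + 6)) hf
    refine Eq.trans ?_ (sum_tn (g := fun e => dot ((Pi.single f b : Fld) e) (B e)) {f}
      (singleton_subset_iff.2 h1) fun e he => by
        rw [Pi.single_eq_of_ne (notMem_singleton.1 he), zero_dot]).symm
    rw [sum_singleton, Pi.single_eq_same, ← pcv_agr' B f h1]
  rw [key b b' hf, key b' b he, bp_polK (tn_odd R) tH_per perK_rcv (fun _ => hs _) (pcv_per _)
    (pcv_per _), bp_comm]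

theorem polK_lip2 {η : ℝ} (η0 : 0 ≤ η) (hH : PerS n H) (hk : PerK n ka) (hk' : PerK n ka')
    (h1 : ∀ A, PerV (fi l n) A → nrm2 n l (topK l Λ H ka A) ≤ 1 * nrm2 n l A)
    (h2 : ∀ A, PerV (fi l n) A → nrm2 n l (topK l Λ H ka' A) ≤ 1 * nrm2 n l A)
    (h3 : ∀ A, PerV (fi l n) A → nrm2 n l (topK l Λ H ka A - topK l Λ H ka' A) ≤ η * nrm2 n l A)
    {d : ℕ} (hp : p.natDegree ≤ d) (hA : PerV (fi l n) A) :
    nrm2 n l (polK l Λ p H ka A - polK l Λ p H ka' A) ≤ wn 1 p * (d * η) * nrm2 n l A := by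
  have h4 : ∀ k : ℕ, nrm2 n l ((topK l Λ H ka)^[k] (pj l H A) - (topK l Λ H ka')^[k] (pj l H A)) ≤
      k * η * nrm2 n l A := fun k => by
    induction k with
    | zero => simp [nrm2_eq]
    | succ k ih =>
      have p1 := iterK_per (Λ := Λ) hH hk hA k
      have p2 := iterK_per (Λ := Λ) hH hk' hA k
      have b1 := polK_l2' (p := X ^ k) zero_le_one hH hk' h2 hA
      rw [polK_X_pow, wn_X_pow, one_pow, one_mul] at b1
      rw [Function.iterate_succ_apply', Function.iterate_succ_apply']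
      generalize (topK l Λ H ka)^[k] (pj l H A) = B at p1 ih
      generalize (topK l Λ H ka')^[k] (pj l H A) = B' at p2 ih b1
      have b2 := (h3 _ p2).trans (mul_le_mul_of_nonneg_left b1 η0)
      have b3 := (h1 (B - B') fun v => congrArg₂ (· - ·) (p1 v) (p2 v)).trans
        ((one_mul _).trans_le ih)
      rw [← topKL_apply, map_sub, topKL_apply, topKL_apply, nrm2_eq, map_sub] at b3
      rw [nrm2_eq, map_sub] at b2
      rw [nrm2_eq, map_sub]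
      refine (norm_sub_le_norm_sub_add_norm_sub _ _ _).trans ((add_le_add b3 b2).trans_eq ?_)
      push_cast
      ring
  rw [nrm2_eq, polK, polK, Polynomial.sum, Polynomial.sum, ← sum_sub_distrib, map_sum,
    wn_eq subset_rfl, sum_mul, sum_mul]
  refine (norm_sum_le _ _).trans (sum_le_sum fun k hk => ?_)
  rw [← smul_sub, map_smul, norm_smul, ← nrm2_eq, one_pow, mul_one, mul_assoc]
  refine mul_le_mul_of_nonneg_left ((h4 k).trans ?_) (norm_nonneg _)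
  have : (k : ℝ) ≤ d := by exact_mod_cast (le_natDegree_of_mem_supp k hk).trans hp
  exact mul_le_mul_of_nonneg_right (mul_le_mul_of_nonneg_right this η0) nrm2_nonneg

/-- dependence on the kernels; the two families may come from different data -/
theorem polK_lip_loc {O' : Od} {W' : Cf} {W0' : Conf} (h : O.Ok c) (h' : O'.Ok c) (hl : O'.l = O.l)
    (hδ : (LL O.l : ℝ) ^ (2 * c + 10) * δ ≤ 1) {d : ℕ} {η : ℝ} (η0 : 0 ≤ η) (hp : p.natDegree ≤ d)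
    (hg : ∀ y ∈ box (2 * d + 1), Gk O δ H ka W W0 y)
    (hg' : ∀ y ∈ box (2 * d + 1), Gk O' δ H ka' W' W0' y)
    (hk : ∀ y ∈ box (2 * d + 1), Nf H y → Kc O.l η (ka y) (ka' y)) :
    ∑ f ∈ lbox O.l, ∑ k, ‖(polK O.l O.Λ p H ka A - polK O.l O.Λ p H ka' A) f k‖ ^ 2 ≤
      (wn 1 p * (d * (η * (LL O.l : ℝ) ^ 5))) ^ 2 *
        ∑ e ∈ lbox (fb O.l (2 * d)), ∑ k, ‖A e k‖ ^ 2 := by
  have e1 : O'.Λ = O.Λ := by rw [h'.lam, h.lam, hl]
  refine loc_of (G := fun A => polK O.l O.Λ p (tH (2 * d) H) (fun y => ka (rcv (tn (2 * d)) y)) A -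
      polK O.l O.Λ p (tH (2 * d) H) (fun y => ka' (rcv (tn (2 * d)) y)) A)
    (fun e he => congrArg₂ (· - ·) (polK_tn hp (by omega) agr_cut0 e he)
      (polK_tn hp (by omega) agr_cut0 e he))
    fun B => polK_lip2 (by positivity) tH_per perK_rcv perK_rcv (fun A hA => ?_) (fun A hA => ?_)
      (fun A hA => nrm2_ker (tn_odd _) h.LL_ge hA η0 (topK_sub h.lam_ge η0 fun y hy =>
        hk _ (tH_nf hy).1 (tH_nf hy).2)) hp
  · exact (topK_l2 h hδ (tn_odd _) tH_per (pcv_per _) (tH_gk h hg) hA).trans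
      (mul_le_mul_of_nonneg_right (θ_mem h).2 nrm2_nonneg)
  · have := topK_l2 h' (hl ▸ hδ) (tn_odd _) tH_per (pcv_per _) (tH_gk h' hg') (hl ▸ hA)
    rw [hl, e1] at this
    exact this.trans (mul_le_mul_of_nonneg_right (θ_mem h').2 nrm2_nonneg)

theorem polK_lip {O' : Od} {W' : Cf} {W0' : Conf} (h : O.Ok c) (h' : O'.Ok c) (hl : O'.l = O.l)
    (hδ : (LL O.l : ℝ) ^ (2 * c + 10) * δ ≤ 1) {d : ℕ} {a η : ℝ} (η0 : 0 ≤ η)
    (hp : p.natDegree ≤ d) (hg : ∀ y ∈ box (2 * d + 1), Gk O δ H ka W W0 y)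
    (hg' : ∀ y ∈ box (2 * d + 1), Gk O' δ H ka' W' W0' y)
    (hk : ∀ y ∈ box (2 * d + 1), Nf H y → Kc O.l η (ka y) (ka' y)) (hA : Sm (fb O.l (2 * d)) a A) :
    Sm O.l (wn 1 p * (d * (4 * d + 1) ^ 2 * (LL O.l : ℝ) ^ 8 * η * a))
      (polK O.l O.Λ p H ka A - polK O.l O.Λ p H ka' A) := by
  have a0 := hA.nonneg
  have w0 := wn_nonneg (p := p) zero_le_one
  refine (sm_of_sq (by positivity) hA (polK_lip_loc h h' hl hδ η0 hp hg hg' hk)).mono le_rfl ?_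
  calc _ = wn 1 p * (d * (4 * d + 1) ^ 2 * (4 * (LL O.l : ℝ) ^ 7) * η * a) := by push_cast; ring
    _ ≤ _ := by gcongr; exact h.pow_le (by norm_num) (by omega)

theorem dtK_lip {O' : Od} {W' : Cf} {W0' : Conf} (h : O.Ok c) (h' : O'.Ok c) (hl : O'.l = O.l)
    (hδ : (LL O.l : ℝ) ^ (2 * c + 10) * δ ≤ 1) {η : ℝ} (η0 : 0 ≤ η)
    (hg : ∀ y ∈ box (2 * O.N + 1), Gk O δ H ka W W0 y)
    (hg' : ∀ y ∈ box (2 * O.N + 1), Gk O' δ H ka' W' W0' y)
    (hk : ∀ y ∈ box (2 * O.N + 1), Nf H y → Kc O.l η (ka y) (ka' y)) :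
    ‖dtK O.l O.Λ O.N H ka - dtK O.l O.Λ O.N H ka'‖ ≤ (LL O.l : ℝ) ^ (4 * c + 18) * η := by
  simp only [dtK, ← sum_sub_distrib]
  refine (norm_sum_le _ _).trans ((sum_le_card_nsmul _ _ _ fun f hf => (norm_sum_le _ _).trans
    (sum_le_card_nsmul _ _ (O.N * (O.N * (η * (LL O.l : ℝ) ^ 5))) fun k _ => ?_)).trans ?_)
  · have h1 := polK_lip_loc h h' hl hδ η0 (Op.natDegree_pQ O.N) hg hg' hk (A := eb f k)
    have h2 : ∑ e' ∈ lbox (fb O.l (2 * O.N)), ∑ j, ‖eb f k e' j‖ ^ 2 ≤ 1 := by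
      refine (sum_le_sum (g := fun e' => if e' = f then 1 else 0) fun e' _ => ?_).trans ?_
      · by_cases he : e' = f <;> simp [eb_apply, he, apply_ite]
      · rw [sum_ite_eq']
        split_ifs <;> simp
    have w0 := wn_nonneg (p := pQ O.N) zero_le_one
    refine (abs_le_of_sq_le_sq' (le_trans ?_ (h1.trans (mul_le_of_le_one_right (sq_nonneg _) h2)))
      (by positivity)).2.trans (mul_le_mul_of_nonneg_right (wn_pQ zero_le_one le_rfl _)
        (by positivity))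
    generalize hB : polK O.l O.Λ (pQ O.N) H ka (eb f k) - polK O.l O.Λ (pQ O.N) H ka' (eb f k) = B
    refine le_trans (le_of_eq (by rw [← hB]; rfl)) ((single_le_sum (f := fun j => ‖B f j‖ ^ 2)
      (fun _ _ => sq_nonneg _) (mem_univ k)).trans (single_le_sum (f := fun f => ∑ j, ‖B f j‖ ^ 2)
        (fun _ _ => by positivity) hf))
  · refine le_trans (le_of_eq ?_) (mul_le_mul_of_nonneg_right
      (h.pow_le (C := 12) (by norm_num) (i := 4 * c + 17) (by omega)) η0)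
    rw [card_lbox, show 2 * O.l + 1 = LL O.l from rfl, nsmul_eq_mul, nsmul_eq_mul, h.N_cast,
      card_univ, Fintype.card_fin]
    push_cast
    ring

end Pool.Agent.Lib.MP_7f377f_mp.RG.Q4
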