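import Pool.Agent.Lib.MP_7f377f_mp.Q4MeasTT
import Pool.Agent.Lib.MP_7f377f_mp.Q4LocO

/-! The Gaussian change of variables built from a family of kernels. -/

noncomputable section

namespace Pool.Agent.Lib.MP_7f377f_mp.RG.Q4

open MeasureTheory Finset Polynomial

/-- the real fluctuation field `As + g P z` -/
def aK (l : ℕ) (Λ : ℝ) (N : ℕ) (H : Set St) (ka : St → Kf) (g : ℝ) (As : Fld) (z : Lk → E3) :
    Lk → E3 := fun f => Op.reE (As f + (g : ℂ) • polK l Λ (pP N) H ka (fun e => cE (z e)) f)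

/-- the Gaussian exponent of the block at the origin -/
def gex (l : ℕ) (Λ : ℝ) (N : ℕ) (H : Set St) (ka : St → Kf) (Z : Fld) : ℂ :=
  dtK l Λ N H ka + (2 * Λ : ℂ)⁻¹ * qk l (ka 0) (polK l Λ (pP N) H ka Z) (polK l Λ (pP N) H ka Z) +
    2⁻¹ * ∑ t ∈ lbox l, dot (Z t) (polK l Λ (pU N) H ka Z t)

open Classical in
/-- the Jacobian of the links of the block at the origin -/
def jk (l : ℕ) (H : Set St) (κ : ℝ) (A : Lk → E3) (s : Lk → Fin 8) : ℝ :=
  ∏ t ∈ lbox l, if Act l H t then κ * th (s t) (A t) * dH (A t) else 1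

/-- the factor of the block at the origin -/
def gb (l : ℕ) (Λ : ℝ) (N : ℕ) (H : Set St) (ka : St → Kf) (κ α : ℝ) (W U : Conf) (ω : St → Om)
    (A z : Lk → E3) (s : Lk → Fin 8) : ℂ :=
  (wt l U (ω 0) * (∏ μ, hk α (W (0, μ) * (blkN l U ω (0, μ))⁻¹)) * jk l H κ A s : ℝ) *
    Complex.exp (gex l Λ N H ka fun e => cE (z e))

namespace Mx

variable {l n N c : ℕ} {Λ g δ : ℝ} {H : Set St} {ka : St → Kf} {As : Fld} {O : Od} {W : Cf}
  {W0 : Conf}

theorem cE_aK (hr : ∀ y, Nf H y → Kr (ka y)) (hA : RealF As) (z : Lk → E3) (f : Lk) :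
    cE (aK l Λ N H ka g As z f) = As f + (g : ℂ) • polK l Λ (pP N) H ka (fun e => cE (z e)) f :=
  Op.cE_reE fun k => by
    have := polK_real (l := l) (Λ := Λ) (fun i => (Od.coeff_real N i).1) hr
      (A := fun e => cE (z e)) (fun _ _ => Op.cE_im _ _) f k
    simp [hA f k, this]

theorem aK_sh (y : St) (z : Lk → E3) : aK l Λ N (shS y H) (shK y ka) g (sh (up l y) As)
    (sh (up l y) z) = sh (up l y) (aK l Λ N H ka g As z) := by
  funext f
  have := congrFun (polK_sh (l := l) (Λ := Λ) (p := pP N) (H := H) (ka := ka)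
    (A := fun e => cE (z e)) y) f
  exact congrArg (fun b => Op.reE (As (f.1 + up l y, f.2) + (g : ℂ) • b)) this

theorem meas_reE : Measurable Op.reE := by
  unfold Op.reE
  fun_prop

theorem meas_aK {Z : Type} [MeasurableSpace Z] {H : Z → Set St} {ka : Z → St → Kf} {As : Z → Fld}
    {z : Z → Lk → E3} (hH : ∀ y, MeasurableSet {x | y ∈ H x})
    (hk : ∀ y e i e' j, Measurable fun x => ka x y e i e' j) (hA : Measurable As)
    (hz : Measurable z) : Measurable fun x => aK l Λ N (H x) (ka x) g (As x) (z x) := by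
  refine measurable_pi_lambda _ fun f => meas_reE.comp ?_
  have h1 := polK_meas (l := l) (Λ := Λ) (p := pP N) hH hk (A := fun x e => cE (z x e))
    (measurable_pi_lambda _ fun e => measurable_cE.comp ((measurable_pi_apply e).comp hz))
  have h2 := ((measurable_pi_apply f).comp h1).const_smul (g : ℂ)
  simp only [Function.comp_def, Pi.smul_def] at h2
  exact ((measurable_pi_apply f).comp hA).add h2

theorem pj_exa {n : Fin 4 → ℕ} (hn : ∀ i, Odd (n i)) (hH : PerS n H) (z : Lk → E3) :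
    pj l H (fun e => cE (pcv (fi l n) z e)) =
      fun e => cE (exa n l H 0 (fun i : alk n l H => z i) e) := by
  funext f
  by_cases hf : Act l H f
  · rw [pj_act hf, exa_act hn hH hf]
    rfl
  · rw [pj_not hf, exa_not hn hH hf, cE_zero]

theorem alk_sub : alk (cu n) l H ⊆ ldom (LL l * n) := fun _ hf => mem_lbox.2 (mem_alk.1 hf).1

theorem domv_cu (n : ℕ) : domv (cu n) = box (n / 2) := rfl

/-- the hypotheses of the change of variables -/
theorem covOk_K (h : O.Ok c) (hδ : (LL O.l : ℝ) ^ (2 * c + 10) * δ ≤ 1) (hn : Odd n)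
    (hN : 2 * O.N < n) (hH : PerS (cu n) H) (hk : PerK (cu n) ka) (hr : ∀ y, Nf H y → Kr (ka y))
    (hs : ∀ y, Ks (ka y)) (h0 : Per n W0) (hg : ∀ y, Gk O δ H ka W W0 y) (g0 : 0 < g)
    (hA : RealF As) (hp : Per (LL O.l * n) As) {a0 : ℝ} (ha : ∀ f, Act O.l H f → ‖As f‖ ≤ a0)
    {b : Conf} (hb : Per (LL O.l * n) b) {B : Set E3}
    (hB : ∀ v : E3, g * ‖v‖ ≤ 2 * (LL O.l : ℝ) ^ (6 * c + 16) * (2 + |a0|) → v ∈ B) :
    CovOk O.l n B (alk (cu n) O.l H) (Act O.l H) b (fun i => Op.reE (As i))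
      (g • pAct (cu n) O.l O.Λ (pP O.N) H ka) (aK O.l O.Λ O.N H ka g As) := by
  have hn' : ∀ i, Odd (cu n i) := fun _ => hn
  have hP := pAct_spec (l := O.l) (Λ := O.Λ) hn' hH hk hr fun i => (Od.coeff_real O.N i).1
  refine ⟨hn, alk_sub, fun f => (rcv_alk hn' hH).symm, hb, fun z f hf => ?_, ?_,
    fun z hz i => hB _ ?_⟩
  · have hf' := (rcv_alk hn' hH).1 hf
    refine cE_inj ?_
    rw [cE_aK hr hA, ← polK_pj]
    erw [pj_exa hn' hH, hP]
    beta_reduce
    rw [exa_act hn' hH hf', cE_add, Op.cE_reE (hA _), LinearMap.smul_apply, Pi.smul_apply, cE_smul]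
    congr 1
    exact (congrFun (PerV.pcv (n := fi O.l (cu n)) (perV_cu.2 hp)) f).symm
  · rw [LinearMap.det_smul]
    exact mul_ne_zero (pow_ne_zero _ g0.ne')
      (det_pAct_ne h hδ hn' (fun _ => hN) hH hk hr hs (perV_cu.2 h0) hg)
  · have h1 : ∀ e, ‖polK O.l O.Λ (pP O.N) H ka (fun f => cE (exa (cu n) O.l H 0 z f)) e‖ ≤
        (2 + |a0|) / g := fun e => by
      rw [hP]
      beta_reduce
      by_cases he : Act O.l H e
      · rw [exa_act hn' hH he, le_div_iff₀' g0]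
        set j : alk (cu n) O.l H := ⟨_, (rcv_alk hn' hH).2 he⟩
        have h2 := (norm_cE _).1.trans (abs_le_of_sq_le_sq' ((hz j).trans
          (show (3 : ℝ) ≤ 2 ^ 2 by norm_num)) zero_le_two).2
        rw [cE_add, Op.cE_reE (hA _), LinearMap.smul_apply, Pi.smul_apply, cE_smul] at h2
        have h3 := norm_sub_le (As j + (g : ℂ) • cE (pAct (cu n) O.l O.Λ (pP O.N) H ka z j)) (As j)
        rw [add_sub_cancel_left, norm_smul, Complex.norm_real, Real.norm_of_nonneg g0.le] at h3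
        linarith [ha j (mem_alk.1 j.2).2, le_abs_self a0]
      · rw [exa_not hn' hH he, cE_zero, norm_zero]
        positivity
    have h2 := polK_inv h hδ hg ⟨‖z‖, fun e => (norm_cE _).1.trans ?_⟩ h1 (mem_alk.1 i.2).2
    · rw [exa_coe hn', ← mul_div_assoc, le_div_iff₀' g0] at h2
      nlinarith [(norm_cE (z i)).2]
    · unfold exa
      split_ifs
      exacts [norm_le_pi_norm z _, by simp]

/-- the Gaussian exponent, block by block -/
theorem gauss_id (hΛ : Λ ≠ 0) (hn : Odd n) (hH : PerS (cu n) H) (hk : PerK (cu n) ka)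
    (hs : ∀ y, Ks (ka y)) {z : Lk → E3} (hz : Per (LL l * n) z) :
    ∑ y ∈ box (n / 2), dtK l Λ N (shS y H) (shK y ka) +
      ((∑ f ∈ alk (cu n) l H, ‖z f‖ ^ 2 / 2 : ℝ) : ℂ) =
      ∑ y ∈ box (n / 2), gex l Λ N (shS y H) (shK y ka) (sh (up l y) fun e => cE (z e)) := by
  have hn' : ∀ i, Odd (cu n i) := fun _ => hn
  have h1 := quad_idK (N := N) hΛ hn' hH hk hs (PerV.map (n := fi l (cu n)) (perV_cu.2 hz) cE)
  have h2 : ((∑ f ∈ alk (cu n) l H, ‖z f‖ ^ 2 / 2 : ℝ) : ℂ) =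
      2⁻¹ * bp (cu n) l (fun e => cE (z e)) (pj l H fun e => cE (z e)) := by
    have := sum_alk (n := cu n) (l := l) (H := H) hn'
      (Φ := fun f => dot (cE (z f)) (pj l H (fun e => cE (z e)) f))
      fun f hf => by rw [pj_not hf, dot_zero]
    rw [sum_coe_sort (alk (cu n) l H) fun f => dot (cE (z f)) (pj l H (fun e => cE (z e)) f),
      sum_congr rfl fun f hf => by rw [pj_act (mem_alk.1 hf).2, dot_cE_self]] at this
    refine Eq.trans ?_ (congrArg _ this)
    push_cast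
    rw [mul_sum]
    exact sum_congr rfl fun _ _ => by ring
  replace h1 := h1.trans (congrArg _ ((bpL (cu n) l _).map_sub _ _))
  have hΛ' : (Λ : ℂ) ≠ 0 := Complex.ofReal_ne_zero.2 hΛ
  simp only [gex, polK_sh, sum_add_distrib, ← mul_sum, add_assoc, shK, zero_add, h2]
  congr 1
  change _ = _ * QK (cu n) l ka _ _ + _ * bp (cu n) l _ _
  rw [h1]
  change _ = _ * (_ * (bp _ _ _ _ - bp _ _ _ _)) + _
  field_simp
  ring

/-- the Jacobian, block by block -/
theorem jb_blocks (h : O.Ok c) (hδ : (LL O.l : ℝ) ^ (2 * c + 10) * δ ≤ 1) (hn : Odd n)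
    (hN : 2 * O.N < n) (hH : PerS (cu n) H) (hk : PerK (cu n) ka) (hr : ∀ y, Nf H y → Kr (ka y))
    (hs : ∀ y, Ks (ka y)) (h0 : Per n W0) (hg : ∀ y, Gk O δ H ka W W0 y) (g0 : 0 ≤ g) (Z : ℝ)
    (A : Lk → E3) {z : Lk → E3} (hz : Per (LL O.l * n) z) (s : Lk → Fin 8) :
    (jb (fun v => Z * Real.exp (‖v‖ ^ 2 / 2)) (alk (cu n) O.l H)
      (LinearMap.det (g • pAct (cu n) O.l O.Λ (pP O.N) H ka)) A z s : ℂ) =
      (∏ y ∈ box (n / 2), (jk O.l (shS y H) (8 * g ^ 3 * Z) (sh (up O.l y) A) (sh (up O.l y) s) : ℝ) *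
        Complex.exp (gex O.l O.Λ O.N (shS y H) (shK y ka) (sh (up O.l y) fun e => cE (z e)))) *
      ∏ S ∈ (box (n / 2)).powerset, (1 + dmK (cu n) O.l O.Λ O.N H ka S) := by
  have hn' : ∀ i, Odd (cu n i) := fun _ => hn
  have h1 := det_pAct h hδ hn' (fun _ => hN) hH hk hr hs (perV_cu.2 h0) hg
  have h2 := prod_act (l := O.l) (act := Act O.l H) hn alk_sub
    (fun f => (rcv_alk hn' hH).symm) fun f => 8 * g ^ 3 * Z * th (s f) (A f) * dH (A f)
  have h3 : ∏ y ∈ box (n / 2), jk O.l (shS y H) (8 * g ^ 3 * Z) (sh (up O.l y) A) (sh (up O.l y) s) =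
      _ := Eq.trans (prod_congr rfl fun y _ => prod_congr rfl fun t _ => by
        by_cases ht : Act O.l H (t.1 + up O.l y, t.2)
        · rw [if_pos ht, if_pos (act_shS.2 ht)]
          rfl
        · rw [if_neg ht, if_neg fun h => ht (act_shS.1 h)]) h2.symm
  rw [prod_mul_distrib, ← Complex.ofReal_prod, ← Complex.exp_sum, h3,
    ← gauss_id (by linarith [h.lam_ge]) hn hH hk hs hz, Complex.exp_add, jb, LinearMap.det_smul,
    abs_mul, abs_pow, abs_of_nonneg g0, Module.finrank_pi_fintype, finrank_euclideanSpace_fin]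
  rw [← Complex.ofReal_exp, Real.exp_sum, Complex.ofReal_mul, Complex.ofReal_mul, h1]
  simp only [prod_mul_distrib, prod_const, sum_const, card_univ, Fintype.card_coe, smul_eq_mul,
    domv_cu]
  push_cast
  ring

/-- divergences have total sum zero -/
theorem tel_zero {M : Type} [AddCommGroup M] (hn : Odd n) {ξ : St → St → M}
    (h : ∀ y y' w, ξ (y + (n : ℤ) • w) (y' + (n : ℤ) • w) = ξ y y') (r : ℕ) :
    ∑ y ∈ box (n / 2), (∑ w ∈ box r, ξ (y + w) y - ∑ w ∈ box r, ξ y (y + w)) = 0 := by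
  rw [sum_sub_distrib, sub_eq_zero, sum_comm, sum_comm (s := box (n / 2))]
  refine sum_nbij' (fun x => -x) (fun x => -x) (fun _ => neg_mem_box) (fun _ => neg_mem_box)
    (fun _ _ => neg_neg _) (fun _ _ => neg_neg _) fun w _ => ?_
  have := sum_dom_add (n := cu n) (fun _ => hn) (g := fun y => ξ y (y + -w))
    (fun y v => by rw [add_right_comm]; exact h _ _ v) w
  simpa only [add_neg_cancel_right, domv_cu] using this

end Mx

open Mx in
/-- one step as an integral of a product over the blocks -/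
theorem TT_K {n c : ℕ} {g δ α Z a0 : ℝ} {H : Set St} {ka : St → Kf} {As : Fld} {O : Od} {W' : Cf}
    {W W0 b : Conf} {ν : Measure E3} {B : Set E3} {f : Conf → ℂ} {G : VB → ℂ}
    (h : O.Ok c) (hδ : (LL O.l : ℝ) ^ (2 * c + 10) * δ ≤ 1) (hn : Odd n)
    (hN : 2 * O.N < n) (hH : PerS (cu n) H) (hk : PerK (cu n) ka) (hr : ∀ y, Nf H y → Kr (ka y))
    (hs : ∀ y, Ks (ka y)) (h0 : Per n W0) (hg : ∀ y, Gk O δ H ka W' W0 y) (g0 : 0 < g)
    (hA : RealF As) (hp : Per (LL O.l * n) As) (ha : ∀ f, Act O.l H f → ‖As f‖ ≤ a0)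
    (hb : Per (LL O.l * n) b) (hν : Ref ν B fun v => Z * Real.exp (‖v‖ ^ 2 / 2))
    (hB : ∀ v : E3, g * ‖v‖ ≤ 2 * (LL O.l : ℝ) ^ (6 * c + 16) * (2 + |a0|) → v ∈ B)
    (hα : 0 ≤ α) (hf : GI (LL O.l * n) f) (hW : Per n W)
    (hG : ∀ v : VB, Ms.PS n v → G v = f (fU O.l (Act O.l H) b (aK O.l O.Λ O.N H ka g As) v) *
      (∏ y ∈ box (n / 2), gb O.l O.Λ O.N (shS y H) (shK y ka) (8 * g ^ 3 * Z) α (sh y W)
        (sh (up O.l y) (fU O.l (Act O.l H) b (aK O.l O.Λ O.N H ka g As) v)) (fun x => vo v (x + y))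
        (sh (up O.l y) (aK O.l O.Λ O.N H ka g As (vz O.l v))) (sh (up O.l y) (vz O.l v))
        (sh (up O.l y) (vs O.l v))) *
      ∏ S ∈ (box (n / 2)).powerset, (1 + dmK (cu n) O.l O.Λ O.N H ka S)) :
    TT O.l α n f W = ∫ v, G (pcs n v) ∂PB O.l ν ∧ Integrable (fun v => G (pcs n v)) (PB O.l ν) := by
  have := TT_cov hν (covOk_K h hδ hn hN hH hk hr hs h0 hg g0 hA hp ha hb hB)
    (meas_aK (fun _ => MeasurableSet.const _) (fun _ _ _ _ _ => measurable_const) measurable_const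
      measurable_id) (fun _ hf => hf.1) hα hf hW fun _ => rfl
  refine (funext fun v => ?_ : _ = fun v => G (pcs n v)) ▸ this
  rw [hG _ (PS_pcs n v), jb_blocks h hδ hn hN hH hk hr hs h0 hg g0.le Z _
    (Cov.vz_pcs hn v ▸ per_pc _ _), ker_blocks, Complex.ofReal_prod, ← mul_assoc, mul_assoc (f _),
    mul_assoc (f _), ← prod_mul_distrib]
  rw [mul_assoc (f _)]
  refine congrArg (fun x => _ * (x * _)) (prod_congr rfl fun y _ => ?_)
  simp only [gb, blkN_sh, sh_apply, zero_add]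
  rw [Complex.ofReal_mul (_ * _), ← mul_assoc]
  rfl

end Pool.Agent.Lib.MP_7f377f_mp.RG.Q4
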