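import Pool.Agent.Lib.MP_7f377f_mp.Q4C3
import Pool.Agent.Lib.MP_7f377f_mp.Q4S1

/-! The small polymers: cancellation, and the small local term of one polymer. -/

noncomputable section

namespace Pool.Agent.Lib.MP_7f377f_mp.RG.Q4

open Finset MeasureTheory Filter
open scoped Classical

attribute [local irreducible] box lbox

theorem kN.le {p : Pa} {n : ℕ} {k : Mj} {θ : ℝ} (h : kN p n k θ) (ha : 0 ≤ p.a) {X : Finset St}
    (hX : X ⊆ box (n / 2)) (h0 : X.Nonempty) : k X ∅ ≤ θ :=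
  let ⟨x, hx⟩ := h0
  (le_mul_of_one_le_right (h.1 _ _) (Real.one_le_exp (by rw [sum_empty]; positivity))).trans
    ((single_le_sum (f := fun o : LP St => k o.1 o.2 * wgt p n o.1 o.2) (a := ⟨X, ∅⟩)
      (fun _ _ => mul_nonneg (h.1 _ _) (Real.exp_pos _).le)
      (mem_filter.2 ⟨mem_lps.2 ⟨hX, h0, empty_mem_fams _⟩, hx⟩)).trans (h.2 x))

theorem trS_neg {n : ℕ} (hn : Odd n) {X : Finset St} (hX : X ⊆ box (n / 2)) (v : St) :
    trS n (-v) (trS n v X) = X := by simpa only [neg_neg] using trS_trS hn hX (-v)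

theorem Sd.Nu.a0 {S : Sd} {a : ℕ} (u : S.Nu a) : 0 ≤ S.p.a := by
  linarith [u.a_ge, u.logQ_ge, S.p'_a]

variable (c : ℕ)

theorem canc3 : ∀ᶠ S in ev c, ∀ b θ k ψ K, S.Sml b θ k ψ K → ∀ W, Per S.n W →
    ∀ X ⊆ box (S.nf / 2), X.Nonempty → tau S.nf S.p.D X = 1 → S.In W {oX X} →
      ‖S.wO ψ K W {oX X} + ∑ y ∈ dn S.l S.n X, S.wO ψ K W {oS y (trS S.nf (-up S.l y) X)}‖ ≤
        k X ∅ * ((S.Q ^ 10)⁻¹ + 10 * θ) := by
  filter_upwards [ev_fo c] with S h b θ k ψ K s W hW X hX h0 ht i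
  have k0 := s.kn.1 X ∅
  have k1 := s.kn.le h.nu.a0 hX h0
  have q := (h.nu.cQ' (C := 2) (by norm_num)).trans (le_self_pow₀ S.Q1 (n := 100) (by norm_num))
  have g : S.g ^ 30 ≤ (S.Q ^ 10)⁻¹ := by
    rw [← one_div, le_div_iff₀' (pow_pos S.Q0 _)]
    refine le_trans ?_ (h.nu.ok.Qg_le (i := 0) (j := 10) (by norm_num))
    simpa [pow_pos S.Q0] using pow_le_of_le_one h.nu.ok.g0.le h.nu.ok.g1 (n := 30) (by norm_num)
  refine (Sd.c3 h hW hX h0 ht i (s.km.k1 X) (by nlinarith [s.θ_le])).trans ?_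
  nlinarith

theorem pl_one : ∀ᶠ S in ev c, ∀ k K X0, KM S.p S.nf k K → X0 ⊆ box (S.nf / 2) →
    (∀ X ⊆ box (S.nf / 2), X ≠ X0 → K X ∅ = 0) →
      (∀ y ∈ S.Λ', y ∉ dn S.l S.n X0 → S.PL 0 K y = 0) ∧
      PM S.p' (S.Q ^ 40 * (k X0 ∅ / (dn S.l S.n X0).card) / S.g ^ 2)
        (S.Q ^ 40 * (k X0 ∅ / (dn S.l S.n X0).card) / S.g ^ 2)
        (S.Q ^ 40 * (k X0 ∅ / (dn S.l S.n X0).card)) (S.PL 0 K) := by
  filter_upwards [ev_pu c] with S h k K X0 hK h0 hz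
  have o := h.nu.ok.odd_nf
  have ρ0 := h.ρ0
  have k0 := (norm_nonneg _).trans ((hK.k1 X0).bd 1)
  have q0 := S.Q0
  have e : ∀ y, S.PL 0 K y = fun B => -1 * ∑ X ∈ S.X1s with trS S.nf (up S.l y) X = X0,
      (S.Fs (S.Ky K y) X B - S.Fs (S.Ky K y) X 0) := fun y => funext fun B => by
    have : ∀ B, S.pz (S.ψy 0 y) B = 0 := fun B => by
      simp [Sd.pz, ctr, ctf, Sd.pzr, Sd.sP, Sd.ψy, trL]
    rw [sum_filter_of_ne fun X _ => Not.imp_symm fun hX => ?_]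
    · simp [Sd.PL, Sd.Pl, this]
    have : S.Ky K y X ∅ = 0 := funext fun _ =>
      congrFun (hz _ (image_subset_iff.2 fun _ _ => rc_mem o _) hX) _
    rw [Sd.Fs_zero this, Sd.Fs_zero this, sub_zero]
  have d : ∀ y X, trS S.nf (up S.l y) X = X0 → dn S.l S.n X0 = trS S.n y (dn S.l S.n X) :=
    fun y X hX => hX ▸ dn_trS _ _ _ _
  refine ⟨fun y hy hn => ?_, fun y => ?_⟩ <;> rw [e]
  · rw [filter_eq_empty_iff.2 fun X hX e => hn (d y X e ▸ mem_image.2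
      ⟨0, (mem_filter.1 hX).2.2, by rw [zero_add, rc_eq h.nu.ok.odd hy]⟩)]
    simp [Pi.zero_def]
  rcases subset_singleton_iff.1 (show S.X1s.filter (trS S.nf (up S.l y) · = X0) ⊆
    {trS S.nf (-up S.l y) X0} from fun X hX => by
      rw [← (mem_filter.1 hX).2, trS_neg o (Sd.X1_dom (mem_filter.1 hX).1), mem_singleton])
    with e | e <;> rw [e]
  · simpa using (ps_zero _ _ ρ0).1.mono' ρ0 (by positivity) (by positivity) (by positivity)
  obtain ⟨h1, h2⟩ := mem_filter.1 (e ▸ mem_singleton_self _)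
  obtain ⟨a1, a2⟩ := h.Fs_ps h1 (Sd.k1y h.nu.ok hK y h1)
  rw [h2, ← card_trS (v := y) fun y hy => ?_, ← d y _ h2,
    eq_inv_of_mul_eq_one_left h.nu.ok.βg, mul_right_comm, ← div_eq_mul_inv] at a1
  · simp only [sum_singleton]
    refine ⟨(a1.smul ρ0 _).1.mono' ρ0 ?_ ?_ ?_, (a2.sub_const _).const_mul _⟩ <;>
    rw [norm_neg, norm_one, one_mul] <;>
    gcongr <;> first | exact S.Q1 | norm_num
  · obtain ⟨x, -, rfl⟩ := mem_image.1 hy
    exact rc_rc _ _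

end Pool.Agent.Lib.MP_7f377f_mp.RG.Q4
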