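import Pool.Agent.Lib.MP_7f377f_mp.Q4Kit

/-! Cubes: the algebra of finite difference jets. -/

noncomputable section

namespace Pool.Agent.Lib.MP_7f377f_mp.RG.Q4

open Finset

section diff
variable {E E' E'' : Type} [AddCommGroup E] [AddCommGroup E'] [AddCommGroup E'']

@[simp] theorem dS_empty (f : Vx → E) (T : Vx) : dS ∅ f T = f T := by simp [dS]

theorem dS_insert {i : Fin 3} {S : Finset (Fin 3)} (hi : i ∉ S) (f : Vx → E) (T : Vx) :
    dS (insert i S) f T =
      dS S f (Function.update T i true) - dS S f (Function.update T i false) := by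
  simp only [dS]
  rw [sum_powerset_insert hi, ← sum_sub_distrib, ← sum_add_distrib]
  refine sum_congr rfl fun S' hS' => ?_
  have hs := mem_powerset.1 hS'
  have hi' : i ∉ S' := fun h => hi (hs h)
  have hc := card_le_card hs
  have e1 : (fun j => if j ∈ insert i S then decide (j ∈ S') else T j) =
      fun j => if j ∈ S then decide (j ∈ S') else Function.update T i false j := by
    funext j
    by_cases h : j = i
    · subst h; simp [hi, hi']
    · simp [h]
  have e2 : (fun j => if j ∈ insert i S then decide (j ∈ insert i S') else T j) =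
      fun j => if j ∈ S then decide (j ∈ S') else Function.update T i true j := by
    funext j
    by_cases h : j = i
    · subst h; simp [hi]
    · simp [h]
  rw [e1, e2, card_insert_of_notMem hi, card_insert_of_notMem hi', Nat.add_sub_add_right,
    Nat.succ_sub hc, pow_succ]
  simp only [mul_neg, mul_one, neg_smul]
  abel

theorem dS_single (i : Fin 3) (f : Vx → E) (T : Vx) :
    dS {i} f T = f (Function.update T i true) - f (Function.update T i false) := by
  have := dS_insert (notMem_empty i) f T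
  simpa using this

theorem dS_map (L : E →+ E') (S : Finset (Fin 3)) (f : Vx → E) (T : Vx) :
    dS S (fun T => L (f T)) T = L (dS S f T) := by simp [dS, map_sum]

theorem dS_add (S : Finset (Fin 3)) (f g : Vx → E) (T : Vx) :
    dS S (fun T => f T + g T) T = dS S f T + dS S g T := by simp [dS, sum_add_distrib]

theorem dS_neg (S : Finset (Fin 3)) (f : Vx → E) (T : Vx) :
    dS S (fun T => -f T) T = -dS S f T := by simp [dS]

theorem dS_sub (S : Finset (Fin 3)) (f g : Vx → E) (T : Vx) :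
    dS S (fun T => f T - g T) T = dS S f T - dS S g T := by
  simp [dS, smul_sub, sum_sub_distrib]

theorem dS_sum {ι : Type} (s : Finset ι) (S : Finset (Fin 3)) (f : ι → Vx → E) (T : Vx) :
    dS S (fun T => ∑ i ∈ s, f i T) T = ∑ i ∈ s, dS S (f i) T := by
  simp only [dS, smul_sum]
  exact sum_comm

theorem dS_const {S : Finset (Fin 3)} (hS : S ≠ ∅) (c : E) (T : Vx) : dS S (fun _ => c) T = 0 := by
  obtain ⟨i, hi⟩ := nonempty_iff_ne_empty.2 hS
  rw [← insert_erase hi, dS_insert (notMem_erase i S)]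
  simp [dS]

theorem dS_sub_const {S : Finset (Fin 3)} (hS : S ≠ ∅) (f : Vx → E) (c : E) (T : Vx) :
    dS S (fun T => f T - c) T = dS S f T := by
  rw [dS_sub, dS_const hS, sub_zero]

/-- the vertex `T` with the coordinates in `S` set to `b` -/
def stv (S : Finset (Fin 3)) (b : Bool) (T : Vx) : Vx := fun i => if i ∈ S then b else T i

/-- the Leibniz rule -/
theorem dS_leibniz (k : E →+ E' →+ E'') (f : Vx → E) (g : Vx → E') (S : Finset (Fin 3)) (T : Vx) :
    dS S (fun T => k (f T) (g T)) T =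
      ∑ S1 ∈ S.powerset, k (dS S1 f (stv S false T)) (dS (S \ S1) g (stv S true T)) := by
  induction S using Finset.induction_on generalizing T with
  | empty =>
    have e : ∀ b, stv ∅ b T = T := fun b => by funext i; simp [stv]
    simp [e]
  | insert i S hi ih =>
    have e1 : ∀ b c, Function.update (stv (insert i S) b T) i c =
        stv S b (Function.update T i c) := fun b c => by
      funext j
      by_cases h : j = i
      · subst h; simp [stv, hi]
      · simp [stv, h]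
    have e2 : ∀ b, stv (insert i S) b T = stv S b (Function.update T i b) := fun b => by
      rw [← e1]
      funext j
      by_cases h : j = i
      · subst h; simp [stv]
      · simp [h]
    rw [dS_insert hi, ih, ih, sum_powerset_insert hi, ← sum_sub_distrib, ← sum_add_distrib]
    refine sum_congr rfl fun S1 hS1 => ?_
    have hs := mem_powerset.1 hS1
    have hi1 : i ∉ S1 := fun h => hi (hs h)
    have hi2 : i ∉ S \ S1 := fun h => hi (mem_sdiff.1 h).1
    have e3 : insert i S \ S1 = insert i (S \ S1) := insert_sdiff_of_notMem S hi1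
    have e4 : insert i S \ insert i S1 = S \ S1 := by
      rw [insert_sdiff_insert, sdiff_insert_of_notMem hi]
    rw [e3, e4, dS_insert hi1, dS_insert hi2, e1, e1, e1, e1, e2, e2]
    simp only [map_sub, AddMonoidHom.sub_apply]
    abel

end diff

variable {A B : Type} [NormedAddCommGroup A] [NormedAddCommGroup B] {η : Fin 3 → ℝ} {η0 : ℝ}

/-- size of the mixed differences in the directions `S` -/
def sN (S : Finset (Fin 3)) (f : Vx → A) : ℝ := ⨆ T, ‖dS S f T‖

theorem cN_eq (f : Vx → A) : cN η f = ∑ S : Finset (Fin 3), sN S f / ∏ i ∈ S, η i := rfl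

theorem le_sN (S : Finset (Fin 3)) (f : Vx → A) (T : Vx) : ‖dS S f T‖ ≤ sN S f :=
  le_ciSup (f := fun T => ‖dS S f T‖) (Finite.bddAbove_range _) T

theorem sN_le {S : Finset (Fin 3)} {f : Vx → A} {c : ℝ} (h : ∀ T, ‖dS S f T‖ ≤ c) : sN S f ≤ c :=
  ciSup_le h

theorem sN_nonneg (S : Finset (Fin 3)) (f : Vx → A) : 0 ≤ sN S f :=
  (norm_nonneg _).trans (le_sN S f o3)

theorem Eta.pos (h : Eta η0 η) (S : Finset (Fin 3)) : 0 < ∏ i ∈ S, η i :=
  prod_pos fun i _ => (h i).1

theorem Eta.pos0 (h : Eta η0 η) : 0 < η0 := (h 0).1.trans_le (h 0).2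

theorem Eta.mono (h : Eta η0 η) {η1 : ℝ} (h1 : η0 ≤ η1) : Eta η1 η :=
  fun i => ⟨(h i).1, (h i).2.trans h1⟩

theorem Eta.scale (h : Eta η0 η) {Λ : ℝ} (hΛ : 0 < Λ) : Eta (Λ * η0) fun i => Λ * η i :=
  fun i => ⟨mul_pos hΛ (h i).1, mul_le_mul_of_nonneg_left (h i).2 hΛ.le⟩

theorem sN_div_nonneg (h : Eta η0 η) (S : Finset (Fin 3)) (f : Vx → A) :
    0 ≤ sN S f / ∏ i ∈ S, η i := div_nonneg (sN_nonneg S f) (h.pos S).le

/-- termwise bound for the norm of a cube -/
theorem cN_le_sum (h : Eta η0 η) {f : Vx → A} {c : Finset (Fin 3) → ℝ}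
    (hc : ∀ S T, ‖dS S f T‖ ≤ c S * ∏ i ∈ S, η i) : cN η f ≤ ∑ S, c S :=
  sum_le_sum fun S _ => (div_le_iff₀ (h.pos S)).2 (sN_le (hc S))

theorem cN_le_of (h : Eta η0 η) {f : Vx → A} {c : ℝ}
    (hc : ∀ S T, ‖dS S f T‖ ≤ c * ∏ i ∈ S, η i) : cN η f ≤ 8 * c := by
  simpa using cN_le_sum h (c := fun _ => c) hc

theorem cN_nonneg (h : Eta η0 η) (f : Vx → A) : 0 ≤ cN η f :=
  sum_nonneg fun S _ => sN_div_nonneg h S f

theorem sN_le_cN (h : Eta η0 η) (f : Vx → A) (S : Finset (Fin 3)) :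
    sN S f ≤ cN η f * ∏ i ∈ S, η i :=
  (div_le_iff₀ (h.pos S)).1
    (single_le_sum (f := fun S => sN S f / ∏ i ∈ S, η i) (fun S _ => sN_div_nonneg h S f)
      (mem_univ S))

theorem dS_le_cN (h : Eta η0 η) (f : Vx → A) (S : Finset (Fin 3)) (T : Vx) :
    ‖dS S f T‖ ≤ cN η f * ∏ i ∈ S, η i := (le_sN S f T).trans (sN_le_cN h f S)

theorem norm_le_cN (h : Eta η0 η) (f : Vx → A) (T : Vx) : ‖f T‖ ≤ cN η f := by
  simpa using dS_le_cN h f ∅ T

theorem cN_mono (h : Eta η0 η) {f : Vx → A} {g : Vx → B} {C : ℝ}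
    (hc : ∀ S, sN S f ≤ C * sN S g) : cN η f ≤ C * cN η g := by
  rw [cN_eq, cN_eq, mul_sum]
  exact sum_le_sum fun S _ => by
    rw [← mul_div_assoc]
    exact div_le_div_of_nonneg_right (hc S) (h.pos S).le

theorem cN_add (h : Eta η0 η) (f g : Vx → A) :
    cN η (fun T => f T + g T) ≤ cN η f + cN η g := by
  rw [cN_eq, cN_eq, cN_eq, ← sum_add_distrib]
  refine sum_le_sum fun S _ => ?_
  rw [← add_div]
  refine div_le_div_of_nonneg_right (sN_le fun T => ?_) (h.pos S).le
  rw [dS_add]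
  exact norm_add_le_of_le (le_sN S f T) (le_sN S g T)

theorem cN_neg (f : Vx → A) : cN η (fun T => -f T) = cN η f := by
  simp only [cN, dS_neg, norm_neg]

theorem cN_sub (h : Eta η0 η) (f g : Vx → A) :
    cN η (fun T => f T - g T) ≤ cN η f + cN η g := by
  simpa only [sub_eq_add_neg, cN_neg] using cN_add h f fun T => -g T

theorem cN_const (c : A) : cN η (fun _ => c) = ‖c‖ := by
  rw [cN, sum_eq_single ∅]
  · simp
  · intro S _ hS
    simp [dS_const hS]
  · simp

theorem cN_zero : cN η (fun _ => (0 : A)) = 0 := by rw [cN_const, norm_zero]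

theorem cN_sum {ι : Type} (h : Eta η0 η) (s : Finset ι) (f : ι → Vx → A) :
    cN η (fun T => ∑ i ∈ s, f i T) ≤ ∑ i ∈ s, cN η (f i) := by
  classical
  induction s using Finset.induction_on with
  | empty => simp [cN_zero]
  | insert i s hi ih =>
    simp only [sum_insert hi]
    exact (cN_add h _ _).trans (by linarith)

theorem cV_nonneg (h : Eta η0 η) (f : Vx → A) : 0 ≤ cV η f := cN_nonneg h _

theorem cN_le_cV (h : Eta η0 η) (f : Vx → A) : cN η f ≤ ‖f o3‖ + cV η f := by
  have := cN_add h (fun _ => f o3) fun T => f T - f o3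
  simpa only [add_sub_cancel, cN_const, cV] using this

theorem cV_le_cN (h : Eta η0 η) (f : Vx → A) : cV η f ≤ 2 * cN η f := by
  have := cN_sub h f fun _ => f o3
  rw [cN_const] at this
  exact this.trans (by linarith [norm_le_cN h f o3])

theorem cV_const (c : A) : cV η (fun _ => c) = 0 := by simp [cV, cN_zero]

theorem cV_add (h : Eta η0 η) (f g : Vx → A) :
    cV η (fun T => f T + g T) ≤ cV η f + cV η g := by
  have := cN_add h (fun T => f T - f o3) fun T => g T - g o3
  simpa only [cV, add_sub_add_comm] using this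

theorem cV_neg (f : Vx → A) : cV η (fun T => -f T) = cV η f := by
  rw [cV, cV, ← cN_neg]
  simp only [neg_sub_neg, neg_sub]

theorem cV_sub (h : Eta η0 η) (f g : Vx → A) :
    cV η (fun T => f T - g T) ≤ cV η f + cV η g := by
  simpa only [sub_eq_add_neg, cV_neg] using cV_add h f fun T => -g T

theorem cV_sum {ι : Type} (h : Eta η0 η) (s : Finset ι) (f : ι → Vx → A) :
    cV η (fun T => ∑ i ∈ s, f i T) ≤ ∑ i ∈ s, cV η (f i) := by
  have := cN_sum h s fun i T => f i T - f i o3
  simpa only [cV, sum_sub_distrib] using this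

theorem cV_add_const (f : Vx → A) (c : A) : cV η (fun T => f T + c) = cV η f := by
  simp only [cV, add_sub_add_right_eq_sub]

theorem cV_sub_const (f : Vx → A) (c : A) : cV η (fun T => f T - c) = cV η f := by
  simp only [cV, sub_sub_sub_cancel_right]

theorem dS_le (h : Eta η0 η) (f : Vx → A) {S : Finset (Fin 3)} (hS : S ≠ ∅) (T : Vx) :
    ‖dS S f T‖ ≤ cV η f * ∏ i ∈ S, η i := by
  rw [← dS_sub_const hS f (f o3)]
  exact dS_le_cN h _ S T

/-- telescoping along the edges of the cube -/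
theorem sub_le_sN (f : Vx → A) (T T' : Vx) : ‖f T - f T'‖ ≤ ∑ i, sN {i} f := by
  have key : ∀ (i : Fin 3) (U : Vx) (b : Bool), ‖f U - f (Function.update U i b)‖ ≤ sN {i} f := by
    intro i U b
    have h1 := le_sN {i} f U
    rw [dS_single] at h1
    have h0 := sN_nonneg {i} f
    have e := Function.update_eq_self i U
    cases hU : U i <;> cases b <;> rw [hU] at e
    · simpa [e] using h0
    · rw [norm_sub_rev]; simpa [e] using h1
    · simpa [e] using h1
    · simpa [e] using h0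
  have e : Function.update (Function.update (Function.update T 0 (T' 0)) 1 (T' 1)) 2 (T' 2) =
      T' := by
    funext j
    fin_cases j <;> simp
  have a0 := key 0 T (T' 0)
  have a1 := key 1 (Function.update T 0 (T' 0)) (T' 1)
  have a2 := key 2 (Function.update (Function.update T 0 (T' 0)) 1 (T' 1)) (T' 2)
  rw [e] at a2
  rw [Fin.sum_univ_three]
  have t1 := norm_sub_le_norm_sub_add_norm_sub (f T) (f (Function.update T 0 (T' 0))) (f T')
  have t2 := norm_sub_le_norm_sub_add_norm_sub (f (Function.update T 0 (T' 0)))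
    (f (Function.update (Function.update T 0 (T' 0)) 1 (T' 1))) (f T')
  linarith

theorem sub_le_cN (h : Eta η0 η) (f : Vx → A) (T T' : Vx) : ‖f T - f T'‖ ≤ η0 * cN η f := by
  refine (sub_le_sN f T T').trans ?_
  have h1 : ∑ i : Fin 3, sN {i} f / ∏ j ∈ ({i} : Finset (Fin 3)), η j ≤ cN η f := by
    rw [cN_eq, ← sum_image (s := univ) (g := fun i : Fin 3 => ({i} : Finset (Fin 3)))
      (f := fun S => sN S f / ∏ j ∈ S, η j) fun i _ j _ e => singleton_injective e]
    exact sum_le_sum_of_subset_of_nonneg (subset_univ _) fun S _ _ => sN_div_nonneg h S f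
  refine le_trans ?_ (mul_le_mul_of_nonneg_left h1 h.pos0.le)
  rw [mul_sum]
  refine sum_le_sum fun i _ => ?_
  rw [prod_singleton, ← mul_div_assoc, le_div_iff₀ (h i).1, mul_comm]
  exact mul_le_mul_of_nonneg_right (h i).2 (sN_nonneg _ _)

theorem sub_le_cV (h : Eta η0 η) (f : Vx → A) (T T' : Vx) : ‖f T - f T'‖ ≤ η0 * cV η f := by
  simpa [cV] using sub_le_cN h (fun T => f T - f o3) T T'

theorem near_o3 (h : Eta η0 η) (_h1 : η0 ≤ 1) (f : Vx → A) (T : Vx) :
    ‖f T - f o3‖ ≤ η0 * cV η f := sub_le_cV h f T o3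

/-- termwise bound for the variation of a cube -/
theorem cV_le_of (h : Eta η0 η) (h1 : η0 ≤ 1) {f : Vx → A} {c : ℝ}
    (hc : ∀ S, S ≠ ∅ → ∀ T, ‖dS S f T‖ ≤ c * ∏ i ∈ S, η i) : cV η f ≤ 10 * c := by
  have c0 : 0 ≤ c := by
    have := (norm_nonneg _).trans (hc univ (by decide) o3)
    exact nonneg_of_mul_nonneg_left this (h.pos _)
  have := cN_le_sum h (f := fun T => f T - f o3) (c := fun S => if S = ∅ then 3 * c else c)
    fun S T => by
      split_ifs with hS
      · subst hS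
        rw [dS_empty, prod_empty, mul_one]
        refine (sub_le_sN f T o3).trans ?_
        have : ∀ i : Fin 3, sN {i} f ≤ c := fun i => sN_le fun T =>
          (hc {i} (singleton_ne_empty i) T).trans (by
            rw [prod_singleton]
            exact mul_le_of_le_one_right c0 ((h i).2.trans h1))
        rw [Fin.sum_univ_three]
        linarith [this 0, this 1, this 2]
      · rw [dS_sub_const hS]
        exact hc S hS T
  refine this.trans (le_of_eq ?_)
  rw [← add_sum_erase _ _ (mem_univ ∅), if_pos rfl,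
    sum_congr rfl fun S hS => if_neg (ne_of_mem_erase hS)]
  simp
  ring

/-- additive maps -/
theorem cN_map (h : Eta η0 η) (L : A →+ B) {C : ℝ} (hL : ∀ a, ‖L a‖ ≤ C * ‖a‖) (f : Vx → A) :
    cN η (fun T => L (f T)) ≤ C * cN η f := by
  refine cN_mono h fun S => sN_le fun T => ?_
  rw [dS_map]
  refine (hL _).trans ?_
  rcases le_or_gt 0 C with hC | hC
  · exact mul_le_mul_of_nonneg_left (le_sN S f T) hC
  · have z : ∀ a : A, ‖a‖ ≤ 0 := fun a => by
      have := (norm_nonneg _).trans (hL a)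
      nlinarith [norm_nonneg a]
    rw [le_antisymm (z _) (norm_nonneg _), le_antisymm (sN_le fun T => z _) (sN_nonneg S f)]

theorem cV_map (h : Eta η0 η) (L : A →+ B) {C : ℝ} (hL : ∀ a, ‖L a‖ ≤ C * ‖a‖) (f : Vx → A) :
    cV η (fun T => L (f T)) ≤ C * cV η f := by
  simpa only [cV, map_sub] using cN_map h L hL fun T => f T - f o3

/-- an additive map bounded by a finite sum of seminorms -/
theorem cN_map_sum {E J : Type} [AddCommGroup E] (h : Eta η0 η) (s : Finset J) (ℓ : J → E →+ A)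
    (L : E →+ B) {c : J → ℝ} (hc : ∀ j ∈ s, 0 ≤ c j) (hL : ∀ a, ‖L a‖ ≤ ∑ j ∈ s, c j * ‖ℓ j a‖)
    (γ : Vx → E) : cN η (fun T => L (γ T)) ≤ ∑ j ∈ s, c j * cN η fun T => ℓ j (γ T) := by
  simp only [cN_eq, mul_sum]
  rw [sum_comm]
  refine sum_le_sum fun S _ => ?_
  simp only [← mul_div_assoc]
  rw [← sum_div]
  refine div_le_div_of_nonneg_right (sN_le fun T => ?_) (h.pos S).le
  rw [dS_map]
  refine (hL _).trans (sum_le_sum fun j hj => mul_le_mul_of_nonneg_left ?_ (hc j hj))
  rw [← dS_map]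
  exact le_sN _ _ _

/-- an additive map bounded by a family of seminorms -/
theorem cN_map_sup {E J : Type} [AddCommGroup E] (h : Eta η0 η) (ℓ : J → E →+ A) (L : E →+ B)
    {C : ℝ} (hL : ∀ a δ, (∀ j, ‖ℓ j a‖ ≤ δ) → ‖L a‖ ≤ C * δ) (γ : Vx → E) {d : ℝ}
    (hd : ∀ j, cN η (fun T => ℓ j (γ T)) ≤ d) : cN η (fun T => L (γ T)) ≤ 8 * C * d := by
  rw [mul_assoc]
  refine cN_le_of h fun S T => ?_
  rw [dS_map, mul_assoc]
  refine hL _ _ fun j => ?_
  rw [← dS_map]
  exact (dS_le_cN h _ S T).trans (mul_le_mul_of_nonneg_right (hd j) (h.pos S).le)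

theorem cV_map_sup {E J : Type} [AddCommGroup E] (h : Eta η0 η) (ℓ : J → E →+ A) (L : E →+ B)
    {C : ℝ} (hL : ∀ a δ, (∀ j, ‖ℓ j a‖ ≤ δ) → ‖L a‖ ≤ C * δ) (γ : Vx → E) {d : ℝ}
    (hd : ∀ j, cV η (fun T => ℓ j (γ T)) ≤ d) : cV η (fun T => L (γ T)) ≤ 8 * C * d := by
  simpa only [cV, map_sub] using cN_map_sup h ℓ L hL (fun T => γ T - γ o3) (d := d) fun j => by
    simpa only [cV, map_sub] using hd j

/-- biadditive maps of two spaces, bounded by two families of seminorms -/
theorem cN_bilin' {E E' J J' A' : Type} [AddCommGroup E] [AddCommGroup E'] [NormedAddCommGroup A']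
    (h : Eta η0 η) (ℓ : J → E →+ A) (ℓ' : J' → E' →+ A') (k : E →+ E' →+ B) {C : ℝ}
    (hk : ∀ a b δ δ', (∀ j, ‖ℓ j a‖ ≤ δ) → (∀ j, ‖ℓ' j b‖ ≤ δ') → ‖k a b‖ ≤ C * δ * δ')
    (γ : Vx → E) (γ' : Vx → E') {d d' : ℝ} (hd : ∀ j, cN η (fun T => ℓ j (γ T)) ≤ d)
    (hd' : ∀ j, cN η (fun T => ℓ' j (γ' T)) ≤ d') :
    cN η (fun T => k (γ T) (γ' T)) ≤ 64 * C * d * d' := by
  have key : ∀ S1 S2 T1 T2, ‖k (dS S1 γ T1) (dS S2 γ' T2)‖ ≤
      C * (d * ∏ i ∈ S1, η i) * (d' * ∏ i ∈ S2, η i) := fun S1 S2 T1 T2 =>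
    hk _ _ _ _ (fun j => by
      rw [← dS_map]
      exact (dS_le_cN h _ S1 T1).trans (mul_le_mul_of_nonneg_right (hd j) (h.pos S1).le))
      fun j => by
        rw [← dS_map]
        exact (dS_le_cN h _ S2 T2).trans (mul_le_mul_of_nonneg_right (hd' j) (h.pos S2).le)
  have c0 : 0 ≤ C * d * d' := by simpa using (norm_nonneg _).trans (key ∅ ∅ o3 o3)
  have := cN_le_of h (f := fun T => k (γ T) (γ' T)) (c := 8 * (C * d * d')) fun S T => by
    rw [dS_leibniz]
    refine (norm_sum_le_of_le _ (n := fun _ => C * d * d' * ∏ i ∈ S, η i) fun S1 hS1 => ?_).trans ?_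
    · refine (key _ _ _ _).trans (le_of_eq ?_)
      rw [← prod_sdiff (mem_powerset.1 hS1)]
      ring
    · rw [sum_const, nsmul_eq_mul, mul_assoc 8]
      refine mul_le_mul_of_nonneg_right ?_ (mul_nonneg c0 (h.pos S).le)
      have : S.powerset.card ≤ 8 := (card_le_univ _).trans (by simp)
      exact_mod_cast this
  linarith

theorem cN_bilin {E J : Type} [AddCommGroup E] (h : Eta η0 η) (ℓ : J → E →+ A) (k : E →+ E →+ B)
    {C : ℝ} (hk : ∀ a b δ δ', (∀ j, ‖ℓ j a‖ ≤ δ) → (∀ j, ‖ℓ j b‖ ≤ δ') → ‖k a b‖ ≤ C * δ * δ')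
    (γ γ' : Vx → E) {d d' : ℝ} (hd : ∀ j, cN η (fun T => ℓ j (γ T)) ≤ d)
    (hd' : ∀ j, cN η (fun T => ℓ j (γ' T)) ≤ d') :
    cN η (fun T => k (γ T) (γ' T)) ≤ 64 * C * d * d' := cN_bilin' h ℓ ℓ k hk γ γ' hd hd'

theorem cN_scale_le (h : Eta η0 η) {Λ : ℝ} (hΛ : 1 ≤ Λ) (f : Vx → A) :
    cN (fun i => Λ * η i) f ≤ sN ∅ f + cN η f / Λ := by
  have h0 : 0 < Λ := by linarith
  rw [cN_eq, cN_eq, sum_div, ← add_sum_erase _ _ (mem_univ ∅), prod_empty, div_one]
  refine add_le_add le_rfl (le_trans (sum_le_sum fun S hS => ?_)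
    (sum_le_sum_of_subset_of_nonneg (erase_subset _ _) fun S _ _ =>
      div_nonneg (sN_div_nonneg h S f) h0.le))
  rw [prod_mul_distrib, prod_const, div_div, mul_comm]
  refine div_le_div_of_nonneg_left (sN_nonneg S f) (mul_pos (h.pos S) h0) ?_
  exact mul_le_mul_of_nonneg_left (le_self_pow₀ hΛ (card_ne_zero.2
    (nonempty_iff_ne_empty.2 (ne_of_mem_erase hS)))) (h.pos S).le

theorem cN_scale (h : Eta η0 η) {Λ : ℝ} (hΛ : 1 ≤ Λ) (f : Vx → A) :
    cN η f ≤ Λ ^ 3 * cN (fun i => Λ * η i) f ∧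
      (η0 * Λ ≤ 1 → cV (fun i => Λ * η i) f ≤ 2 * cV η f / Λ + η0 * cV η f) := by
  have h0 : 0 < Λ := by linarith
  refine ⟨?_, fun _ => ?_⟩
  · rw [cN_eq, cN_eq, mul_sum]
    refine sum_le_sum fun S _ => ?_
    have hp := h.pos S
    have : Λ ^ S.card ≤ Λ ^ 3 := pow_le_pow_right₀ hΛ ((card_le_univ S).trans (by simp))
    rw [prod_mul_distrib, prod_const, ← mul_div_assoc, le_div_iff₀ (by positivity),
      mul_comm (Λ ^ S.card), ← mul_assoc, div_mul_cancel₀ _ hp.ne', mul_comm]
    exact mul_le_mul_of_nonneg_right this (sN_nonneg S f)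
  · have h1 := cN_scale_le h hΛ fun T => f T - f o3
    have h2 : sN ∅ (fun T => f T - f o3) ≤ η0 * cV η f := sN_le fun T => by
      rw [dS_empty]
      exact sub_le_cV h f T o3
    have h3 : 0 ≤ cV η f / Λ := div_nonneg (cV_nonneg h f) h0.le
    rw [mul_div_assoc]
    unfold cV at *
    linarith

/-- bounded biadditive maps of normed groups -/
theorem cN_bil {A' : Type} [NormedAddCommGroup A'] (h : Eta η0 η) (k : A →+ A' →+ B) {C : ℝ}
    (hC : 0 ≤ C) (hk : ∀ a b, ‖k a b‖ ≤ C * ‖a‖ * ‖b‖) (f : Vx → A) (g : Vx → A') :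
    cN η (fun T => k (f T) (g T)) ≤ C * cN η f * cN η g := by
  set a : Finset (Fin 3) → ℝ := fun S => sN S f / ∏ i ∈ S, η i with ha
  set b : Finset (Fin 3) → ℝ := fun S => sN S g / ∏ i ∈ S, η i with hb
  have a0 : ∀ S, 0 ≤ a S := fun S => sN_div_nonneg h S f
  have b0 : ∀ S, 0 ≤ b S := fun S => sN_div_nonneg h S g
  refine (cN_le_sum h (c := fun S => C * ∑ S1 ∈ S.powerset, a S1 * b (S \ S1))
    fun S T => ?_).trans ?_
  · rw [dS_leibniz, mul_assoc, sum_mul, mul_sum]
    refine norm_sum_le_of_le _ fun S1 hS1 => (hk _ _).trans ?_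
    have p1 := h.pos S1
    have p2 := h.pos (S \ S1)
    have e : a S1 * b (S \ S1) * ∏ i ∈ S, η i = sN S1 f * sN (S \ S1) g := by
      rw [← prod_sdiff (mem_powerset.1 hS1), ha, hb]
      field_simp
    rw [e, mul_assoc]
    exact mul_le_mul_of_nonneg_left (mul_le_mul (le_sN _ _ _) (le_sN _ _ _) (norm_nonneg _)
      (sN_nonneg _ _)) hC
  · rw [← mul_sum, mul_assoc]
    refine mul_le_mul_of_nonneg_left ?_ hC
    have e : ∑ S : Finset (Fin 3), ∑ S1 ∈ S.powerset, a S1 * b (S \ S1) =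
        ∑ S1 : Finset (Fin 3), ∑ S ∈ univ.filter (S1 ⊆ ·), a S1 * b (S \ S1) :=
      sum_comm' fun S S1 => by simp
    rw [e, cN_eq, cN_eq, sum_mul]
    refine sum_le_sum fun S1 _ => ?_
    rw [← mul_sum]
    refine mul_le_mul_of_nonneg_left ?_ (a0 S1)
    rw [← sum_image (g := fun S => S \ S1) (f := b) fun S hS S' hS' e => by
      rw [← sdiff_union_of_subset (mem_filter.1 hS).2, ← sdiff_union_of_subset (mem_filter.1 hS').2]
      exact congrArg (· ∪ S1) e]
    exact sum_le_sum_of_subset_of_nonneg (subset_univ _) fun S _ _ => b0 S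

theorem cN_mul {R : Type} [NormedRing R] (h : Eta η0 η) (f g : Vx → R) :
    cN η (fun T => f T * g T) ≤ cN η f * cN η g := by
  simpa using cN_bil h (AddMonoidHom.mul (R := R)) zero_le_one
    (fun a b => by simpa using norm_mul_le a b) f g

theorem cN_smul {𝕜 : Type} [NormedRing 𝕜] [Module 𝕜 A] [IsBoundedSMul 𝕜 A] (h : Eta η0 η)
    (f : Vx → 𝕜) (g : Vx → A) : cN η (fun T => f T • g T) ≤ cN η f * cN η g := by
  simpa using cN_bil h (smulAddHom 𝕜 A) zero_le_one
    (fun a b => by simpa using norm_smul_le a b) f g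

theorem cN_const_smul {𝕜 : Type} [NormedRing 𝕜] [Module 𝕜 A] [IsBoundedSMul 𝕜 A] (h : Eta η0 η)
    (c : 𝕜) (g : Vx → A) : cN η (fun T => c • g T) ≤ ‖c‖ * cN η g := by
  simpa only [cN_const] using cN_smul h (fun _ => c) g

theorem cN_const_mul {R : Type} [NormedRing R] (h : Eta η0 η) (c : R) (g : Vx → R) :
    cN η (fun T => c * g T) ≤ ‖c‖ * cN η g := by
  simpa only [cN_const] using cN_mul h (fun _ => c) g

theorem cV_const_mul {R : Type} [NormedRing R] (h : Eta η0 η) (c : R) (g : Vx → R) :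
    cV η (fun T => c * g T) ≤ ‖c‖ * cV η g := by
  simpa only [cV, mul_sub] using cN_const_mul h c fun T => g T - g o3

theorem cV_mul {R : Type} [NormedRing R] (h : Eta η0 η) (f g : Vx → R) :
    cV η (fun T => f T * g T) ≤ cV η f * cN η g + ‖f o3‖ * cV η g := by
  have e : (fun T => f T * g T - f o3 * g o3) =
      fun T => (f T - f o3) * g T + f o3 * (g T - g o3) := by
    funext T
    noncomm_ring
  rw [cV, e]
  exact (cN_add h _ _).trans (add_le_add (cN_mul h _ _) (cN_const_mul h _ _))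

theorem cN_prod {ι R : Type} [NormedCommRing R] [NormOneClass R] (h : Eta η0 η) (s : Finset ι)
    (f : ι → Vx → R) : cN η (fun T => ∏ i ∈ s, f i T) ≤ ∏ i ∈ s, cN η (f i) := by
  classical
  induction s using Finset.induction_on with
  | empty => simp [cN_const]
  | insert i s hi ih =>
    simp only [prod_insert hi]
    exact (cN_mul h _ _).trans (mul_le_mul_of_nonneg_left ih (cN_nonneg h _))

theorem cN_pow {R : Type} [NormedRing R] [NormOneClass R] (h : Eta η0 η) (f : Vx → R) (n : ℕ) :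
    cN η (fun T => f T ^ n) ≤ cN η f ^ n := by
  induction n with
  | zero => simp [cN_const]
  | succ n ih =>
    simp only [pow_succ]
    exact (cN_mul h _ _).trans (mul_le_mul_of_nonneg_right ih (cN_nonneg h _))

theorem cN_ofReal (f : Vx → ℝ) : cN η (fun T => (f T : ℂ)) = cN η f := by
  have : ∀ S T, dS S (fun T => (f T : ℂ)) T = ((dS S f T : ℝ) : ℂ) := fun S T =>
    dS_map Complex.ofRealHom.toAddMonoidHom S f T
  simp only [cN, this, Complex.norm_real]

theorem cV_ofReal (f : Vx → ℝ) : cV η (fun T => (f T : ℂ)) = cV η f := by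
  rw [cV, cV, ← cN_ofReal]
  simp only [Complex.ofReal_sub]

end Pool.Agent.Lib.MP_7f377f_mp.RG.Q4
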