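import Pool.Agent.Lib.MP_7f377f_mp.Q4Psi
import Pool.Agent.Lib.MP_7f377f_mp.Q4LinB
import Pool.Agent.Lib.MP_7f377f_mp.Q4CubeA
import Pool.Agent.Lib.MP_7f377f_mp.RGAp3

/-! Algebra of the class of small local terms. -/

noncomputable section

namespace Pool.Agent.Lib.MP_7f377f_mp.RG.Q4

open Finset Filter La La.Q
open scoped Topology

section kq

variable {E : Type} [AddCommGroup E] [Module ℝ E]

theorem half_ev {t0 : ℝ} (h : 0 < t0) : ∀ᶠ n : ℕ in atTop, (2⁻¹ : ℝ) ^ n ≤ t0 :=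
  (tendsto_pow_atTop_nhds_zero_of_lt_one (by norm_num) (by norm_num)).eventually_le_const h

/-- a function which is quadratic up to a cubic error has the expected quadratic part -/
theorem kq_of_cubic {φ : E → ℂ} (k : E →ₗ[ℝ] E →ₗ[ℝ] ℂ) (hs : ∀ a b, k a b = k b a)
    (h : ∀ c, ∃ C t0 : ℝ, 0 < t0 ∧ ∀ t : ℝ, 0 ≤ t → t ≤ t0 →
      ‖φ (t • c) - k (t • c) (t • c)‖ ≤ C * t ^ 3) (a b : E) : kq φ a b = k a b := by
  obtain ⟨C1, t1, p1, h1⟩ := h (a + b)
  obtain ⟨C2, t2, p2, h2⟩ := h a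
  obtain ⟨C3, t3, p3, h3⟩ := h b
  have h0 : φ 0 = 0 := by simpa using h2 0 le_rfl p2.le
  refine Tendsto.limUnder_eq (tendsto_iff_norm_sub_tendsto_zero.2 (squeeze_zero'
    (g := fun n : ℕ => (C1 + C2 + C3) / 2 * (2⁻¹ : ℝ) ^ n) (Eventually.of_forall fun _ =>
      norm_nonneg _) ?_ ?_))
  · filter_upwards [half_ev p1, half_ev p2, half_ev p3] with n n1 n2 n3
    obtain ⟨t, ht⟩ : ∃ t : ℝ, t = 2⁻¹ ^ n := ⟨_, rfl⟩
    have t0 : 0 < t := by rw [ht]; positivity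
    have e4 : (4 : ℂ) ^ n = ((t ^ 2)⁻¹ : ℝ) := by
      rw [ht, ← pow_mul, mul_comm, pow_mul, ← inv_pow]; norm_num
    rw [← ht] at n1 n2 n3 ⊢
    have b1 := h1 t t0.le n1
    have b2 := h2 t t0.le n2
    have b3 := h3 t t0.le n3
    have tc : (t : ℂ) ≠ 0 := by exact_mod_cast t0.ne'
    have e : (4 : ℂ) ^ n / 2 * (φ (t • a + t • b) - φ (t • a) - φ (t • b) + φ 0) - k a b =
        ((t ^ 2)⁻¹ / 2 : ℝ) * ((φ (t • (a + b)) - k (t • (a + b)) (t • (a + b))) -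
          (φ (t • a) - k (t • a) (t • a)) - (φ (t • b) - k (t • b) (t • b))) := by
      simp only [e4, h0, smul_add, map_add, map_smul, LinearMap.add_apply, LinearMap.smul_apply,
        hs b a, Complex.real_smul]
      push_cast
      field_simp
      ring
    rw [e, norm_mul, Complex.norm_real, Real.norm_of_nonneg (by positivity)]
    refine (mul_le_mul_of_nonneg_left ((norm_sub_le _ _).trans (add_le_add ((norm_sub_le _ _).trans
      (add_le_add b1 b2)) b3)) (by positivity)).trans_eq ?_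
    field_simp
  · simpa using (tendsto_pow_atTop_nhds_zero_of_lt_one (r := (2⁻¹ : ℝ)) (by norm_num)
      (by norm_num)).const_mul ((C1 + C2 + C3) / 2)

theorem kq_congr_ev {E' : Type} [AddCommGroup E'] [Module ℝ E'] {φ : E → ℂ} {ψ : E' → ℂ} {a b : E}
    {a' b' : E'} {t0 : ℝ} (h0 : 0 < t0) (h : ∀ s t : ℝ, 0 ≤ s → s ≤ t0 → 0 ≤ t → t ≤ t0 →
      φ (s • a + t • b) = ψ (s • a' + t • b')) : kq φ a b = kq ψ a' b' := by
  unfold kq limUnder
  congr 1
  refine Filter.map_congr ?_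
  filter_upwards [half_ev h0] with n hn
  have p : (0 : ℝ) ≤ 2⁻¹ ^ n := by positivity
  have e0 := h 0 0 le_rfl h0.le le_rfl h0.le
  have e1 := h _ 0 p hn le_rfl h0.le
  have e2 := h 0 _ le_rfl h0.le p hn
  simp only [zero_smul, add_zero, zero_add] at e0 e1 e2
  rw [h _ _ p hn p hn, e0, e1, e2]

theorem k1_congr_ev {E' : Type} [AddCommGroup E'] [Module ℝ E'] {φ : E → ℂ} {ψ : E' → ℂ} {a : E}
    {a' : E'} {t0 : ℝ} (h0 : 0 < t0) (h : ∀ t : ℝ, 0 ≤ t → t ≤ t0 → φ (t • a) = ψ (t • a')) :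
    k1 φ a = k1 ψ a' := by
  unfold k1 limUnder
  congr 1
  refine Filter.map_congr ?_
  filter_upwards [half_ev h0] with n hn
  have e0 := h 0 le_rfl h0.le
  simp only [zero_smul] at e0
  rw [h _ (by positivity) hn, e0]

end kq

variable {R R' s : ℕ} {ρ ρ' xb xk xr xb' xk' xr' δ δ' d M : ℝ} {ψ ψ' φ : Fld → ℂ} {k k' : CF}
  {a b : V} {A B : Fld} {η : Fin 3 → ℝ} {γ : Vx → Fld}

theorem cc_eq' (a : V) : cc a = cf4 a := rfl

theorem cc_cc (a : V) : cc (cc a) = cc a := funext fun e => by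
  simp only [cc_eq', cf_apply, dd_cf]

theorem Cw.zero (h : Cw R s δ a) : Cv 0 δ a := by simpa using h 0 R.zero_le

theorem Cw.nonneg (h : Cw R s δ a) : 0 ≤ δ := h.zero.nonneg

theorem wt_one (j s : ℕ) : (1 : ℝ) ≤ (j + 1 : ℝ) ^ s :=
  one_le_pow₀ (by linarith [(j.cast_nonneg : (0 : ℝ) ≤ j)])

theorem cw_of_cv (h : Cv R δ a) (s : ℕ) : Cw R s δ a := fun j hj =>
  h.mono hj (le_mul_of_one_le_right h.nonneg (wt_one j s))

theorem Cw.cv (h : Cw R s δ a) : Cv R (δ * (R + 1 : ℝ) ^ s) a := h R le_rfl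

theorem Cw.mono (h : Cw R s δ a) (hR : R' ≤ R) (hδ : δ ≤ δ') : Cw R' s δ' a := fun j hj =>
  (h j (hj.trans hR)).mono le_rfl (by gcongr)

theorem Cw.cc (h : Cv 0 δ a) (R s : ℕ) : Cw R s δ (cc a) := cw_of_cv (cv_cf h R) s

theorem Cw.add (h : Cw R s δ a) (h' : Cw R s δ' b) : Cw R s (δ + δ') (a + b) := fun j hj => by
  rw [add_mul]
  exact (h j hj).add (h' j hj)

/-- real and imaginary parts of a form -/
def reK (k : CF) : BF := k.compr₂ Complex.reLm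

def imK (k : CF) : BF := k.compr₂ Complex.imLm

/-- a real form as a complex one -/
def ofB (m : BF) : CF := m.compr₂ Complex.ofRealCLM.toLinearMap

@[simp] theorem reK_apply (k : CF) (a b : V) : reK k a b = (k a b).re := rfl
@[simp] theorem imK_apply (k : CF) (a b : V) : imK k a b = (k a b).im := rfl
@[simp] theorem ofB_apply (m : BF) (a b : V) : ofB m a b = m a b := rfl

/-- the complex bilinear extension -/
def cK (k : CF) (A B : Fld) : ℂ := cx (reK k) A B + Complex.I * cx (imK k) A B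

theorem cK_real (k : CF) (hA : RealF A) (hB : RealF B) :
    cK k A B = ∑ j, k (reF A j) (reF B j) := by
  rw [cK, cx_real _ hA hB, cx_real _ hA hB]
  push_cast
  rw [mul_sum, ← sum_add_distrib]
  exact sum_congr rfl fun j _ => by simp [mul_comm Complex.I]

theorem qf_cK (k : CF) (hB : RealF B) : qf k B = cK k B B := (cK_real k hB hB).symm

theorem qf_ofB (m : BF) (hB : RealF B) : qf (ofB m) B = cx m B B := by
  rw [cx_real _ hB hB]
  simp [qf]

theorem real_ad (u : S3) (hB : RealF B) : RealF (adF (fun _ => cS u) B) := fun e k =>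
  adq_real u.q (hB e) k

theorem real_add (hA : RealF A) (hB : RealF B) : RealF (A + B) := fun e k => by
  simp [hA e k, hB e k]

theorem real_sub (hA : RealF A) (hB : RealF B) : RealF (A - B) := fun e k => by
  simp [hA e k, hB e k]

theorem real_rsmul (t : ℝ) (hB : RealF B) : RealF (t • B) := fun e k => by simp [hB e k]

theorem realF_zero : RealF 0 := fun _ _ => rfl

/-- size of a complex form -/
def Cc (R : ℕ) (κ : ℝ) (k : CF) : Prop :=
  ∀ a b δ δ', Cv R δ a → Cv R δ' b → ‖k a b‖ ≤ κ * δ * δ'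

theorem Cc.re {κ : ℝ} (h : Cc R κ k) : Cb R κ (reK k) := fun a b δ δ' ha hb =>
  (Complex.abs_re_le_norm _).trans (h a b δ δ' ha hb)

theorem Cc.im {κ : ℝ} (h : Cc R κ k) : Cb R κ (imK k) := fun a b δ δ' ha hb =>
  (Complex.abs_im_le_norm _).trans (h a b δ δ' ha hb)

theorem Cc.nonneg {κ : ℝ} (h : Cc R κ k) : 0 ≤ κ := cb_nonneg h.re

theorem Cb.rng {κ : ℝ} {m : BF} (h : Cb R κ m) : Rng (R + 1) (R + 1) m := fun a b e => by
  rcases e with e | e
  · exact cb_left h (fun x hx => funext₂ fun μ ν => Ho.dd_eq_zero e hx μ ν) b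
  · exact cb_right h (fun x hx => funext₂ fun μ ν => Ho.dd_eq_zero e hx μ ν) a

theorem Cc.cK {κ : ℝ} (h : Cc R κ k) (hA : Cv R δ A) (hB : Cv R δ' B) :
    ‖cK k A B‖ ≤ 24 * κ * δ * δ' := by
  refine (norm_add_le _ _).trans ?_
  rw [norm_mul, Complex.norm_I, one_mul]
  linarith [cx_cb h.re hA hB, cx_cb h.im hA hB]

theorem Cc.qf {κ : ℝ} (h : Cc R κ k) (hB : Cv R δ B) : ‖qf k B‖ ≤ 3 * κ * δ ^ 2 := by
  refine (norm_sum_le _ _).trans ((sum_le_card_nsmul _ _ _ fun j _ =>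
    h _ _ _ _ (hB.reF j) (hB.reF j)).trans_eq ?_)
  simp
  ring

theorem Cc.congr {κ : ℝ} (h : Cc R κ k) {a' b' : V} (ha : ∀ x ∈ box R, ∀ μ ν, dd a x μ ν = dd a' x μ ν)
    (hb : ∀ x ∈ box R, ∀ μ ν, dd b x μ ν = dd b' x μ ν) : k a b = k a' b' := by
  obtain ⟨c, hc⟩ := Ho.cv_exists R b
  obtain ⟨c', hc'⟩ := Ho.cv_exists R a'
  have h1 := h (a - a') b 0 c (fun x hx μ ν => by simp [RG.dd_sub, ha x hx]) hc
  have h2 := h a' (b - b') c' 0 hc' fun x hx μ ν => by simp [RG.dd_sub, hb x hx]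
  simp only [map_sub, LinearMap.sub_apply, mul_zero, zero_mul, norm_le_zero_iff, sub_eq_zero]
    at h1 h2
  rw [h1, h2]

theorem dd_reF (A : Fld) (j : Fin 3) (x : St) (μ ν : Fin 4) :
    dd (reF A j) x μ ν = (dd A x μ ν j).re := rfl

theorem Cc.la {κ : ℝ} (h : Cc R κ k) (ρ : ℝ) : LA R ρ (Q4.qf k) where
  loc A B _ _ _ e := sum_congr rfl fun j _ =>
    h.congr (fun x hx μ ν => by rw [dd_reF, dd_reF, e x hx])
      fun x hx μ ν => by rw [dd_reF, dd_reF, e x hx]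
  ad u B hB _ _ := by
    rw [qf_cK k hB, qf_cK k (real_ad u hB), Q4.cK, Q4.cK, cx_adF _ h.re.rng (uni_cS u),
      cx_adF _ h.im.rng (uni_cS u)]

/-- the curvature as an additive map -/
def ddA (x : St) (μ ν : Fin 4) : Fld →+ C3 where
  toFun B := dd B x μ ν
  map_zero' := Ho.dd_zero x μ ν
  map_add' A B := Ho.dd_add A B x μ ν

/-- the quadratic function as a biadditive map -/
def qfA (k : CF) : Fld →+ Fld →+ ℂ := AddMonoidHom.mk' (fun A => AddMonoidHom.mk'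
  (fun B => ∑ j, k (reF A j) (reF B j)) fun B C => by simp [reF_add, sum_add_distrib])
  fun A B => by ext C; simp [reF_add, sum_add_distrib]

theorem Cc.cN {κ : ℝ} (h : Cc R κ k) (hη : Eta 1 η)
    (hγ : ∀ x ∈ box R, ∀ μ ν, cN η (fun T => dd (γ T) x μ ν) ≤ d) :
    cN η (fun T => Q4.qf k (γ T)) ≤ 192 * κ * d ^ 2 := by
  have := cN_bilin hη (fun j : box R × Fin 4 × Fin 4 => ddA j.1 j.2.1 j.2.2) (qfA k) (C := 3 * κ)
    (fun A B δ δ' hA hB => by
      have a : Cv R δ A := fun x hx μ ν => hA (⟨x, hx⟩, μ, ν)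
      have b : Cv R δ' B := fun x hx μ ν => hB (⟨x, hx⟩, μ, ν)
      refine (norm_sum_le _ _).trans ((sum_le_card_nsmul _ _ _ fun j _ =>
        h _ _ _ _ (a.reF j) (b.reF j)).trans_eq ?_)
      simp
      ring) γ γ (fun j => hγ _ j.1.2 _ _) fun j => hγ _ j.1.2 _ _
  exact this.trans_eq (by ring)

theorem Fm.cc (h : Fm R s xb xk k) : Cc R (xb + xk) k := fun a b δ δ' ha hb => by
  have h1 := h.cb a b δ δ' (ha.mono R.zero_le le_rfl) (hb.mono R.zero_le le_rfl)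
  have h2 := h.ck a b δ δ' (cw_of_cv ha s) (cw_of_cv hb s)
  have h3 := norm_add_le (k a b - k (Q4.cc a) (Q4.cc b)) (k (Q4.cc a) (Q4.cc b))
  rw [sub_add_cancel] at h3
  linarith

theorem Fm.xb0 (h : Fm R s xb xk k) : 0 ≤ xb :=
  (norm_nonneg _).trans ((h.cb 0 0 1 1 (Ho.cv_zero _ zero_le_one)
    (Ho.cv_zero _ zero_le_one)).trans_eq (by ring))

theorem Fm.xk0 (h : Fm R s xb xk k) : 0 ≤ xk := by
  have := h.ck 0 0 1 1 (cw_of_cv (Ho.cv_zero _ zero_le_one) s) (cw_of_cv (Ho.cv_zero _ zero_le_one) s)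
  exact (norm_nonneg _).trans (this.trans_eq (by ring))

theorem Fm.mono (h : Fm R s xb xk k) (hR : R ≤ R') (h1 : xb ≤ xb') (h2 : xk ≤ xk') :
    Fm R' s xb' xk' k where
  symm := h.symm
  cb a b δ δ' ha hb := (h.cb a b δ δ' ha hb).trans (by
    have := ha.nonneg; have := hb.nonneg; gcongr)
  ck a b δ δ' ha hb := (h.ck a b δ δ' (ha.mono hR le_rfl) (hb.mono hR le_rfl)).trans (by
    have := ha.nonneg; have := hb.nonneg; gcongr)

theorem Fm.add (h : Fm R s xb xk k) (h' : Fm R s xb' xk' k') :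
    Fm R s (xb + xb') (xk + xk') (k + k') where
  symm a b := by simp only [LinearMap.add_apply, h.symm a, h'.symm a]
  cb a b δ δ' ha hb := (norm_add_le _ _).trans
    ((add_le_add (h.cb a b δ δ' ha hb) (h'.cb a b δ δ' ha hb)).trans_eq (by ring))
  ck a b δ δ' ha hb := by
    simp only [LinearMap.add_apply, add_sub_add_comm]
    exact (norm_add_le _ _).trans
      ((add_le_add (h.ck a b δ δ' ha hb) (h'.ck a b δ δ' ha hb)).trans_eq (by ring))

theorem Fm.smul (h : Fm R s xb xk k) (c : ℂ) : Fm R s (‖c‖ * xb) (‖c‖ * xk) (c • k) where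
  symm a b := by simp only [LinearMap.smul_apply, h.symm a]
  cb a b δ δ' ha hb := by
    simp only [LinearMap.smul_apply, norm_smul, mul_assoc]
    exact mul_le_mul_of_nonneg_left ((h.cb a b δ δ' ha hb).trans_eq (by ring)) (norm_nonneg _)
  ck a b δ δ' ha hb := by
    simp only [LinearMap.smul_apply, ← smul_sub, norm_smul, mul_assoc]
    exact mul_le_mul_of_nonneg_left ((h.ck a b δ δ' ha hb).trans_eq (by ring)) (norm_nonneg _)

/-- a bound in the curvature norm gives a bound in the weighted norm -/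
theorem Cc.fm {κ : ℝ} (h : Cc R κ k) (hs : ∀ a b, k a b = k b a) (s : ℕ) :
    Fm R s κ (2 * (R + 1 : ℝ) ^ (2 * s) * κ) k where
  symm := hs
  cb a b δ δ' ha hb := h _ _ _ _ (cv_cf ha R) (cv_cf hb R)
  ck a b δ δ' ha hb := by
    have h1 := h _ _ _ _ ha.cv hb.cv
    have h2 := h _ _ _ _ (Cw.cc ha.zero R s).cv (Cw.cc hb.zero R s).cv
    refine (norm_sub_le _ _).trans ((add_le_add h1 h2).trans_eq ?_)
    ring

theorem cu_const (hB : RealF B) (h : Cv R d B) : Cu R η d fun _ => B :=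
  ⟨fun _ => hB, fun x hx μ ν => by rw [cN_const]; exact h x hx μ ν⟩

theorem eta_one : Eta 1 fun _ => 1 := fun _ => ⟨one_pos, le_rfl⟩

theorem Cu.cv (h : Cu R η d γ) (hη : Eta 1 η) (T : Vx) : Cv R d (γ T) := fun x hx μ ν =>
  (norm_le_cN hη (fun T => dd (γ T) x μ ν) T).trans (h.2 x hx μ ν)

theorem H3.bd (h : H3 R ρ M φ) (hB : RealF B) (hd : Cv R d B) (hρ : d ≤ ρ) :
    ‖φ B‖ ≤ M * (d / ρ) ^ 3 := by
  simpa only [cN_const] using h _ eta_one _ d (cu_const hB hd) hρ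

theorem H3.nonneg (h : H3 R ρ M φ) (hρ : 0 < ρ) : 0 ≤ M := by
  have := h.bd realF_zero (Ho.cv_zero R hρ.le) le_rfl
  rw [div_self hρ.ne', one_pow, mul_one] at this
  exact (norm_nonneg _).trans this

theorem H3.congr (h : H3 R ρ M φ) (e : ∀ B, RealF B → Cv R ρ B → ψ B = φ B) : H3 R ρ M ψ :=
  fun η hη γ d hγ hd => by
    simpa only [fun T => e _ (hγ.1 T) ((hγ.cv hη T).mono le_rfl hd)] using h η hη γ d hγ hd

theorem H3.add {M' : ℝ} (h : H3 R ρ M φ) (h' : H3 R ρ M' ψ) :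
    H3 R ρ (M + M') fun B => φ B + ψ B := fun η hη γ d hγ hd =>
  (cN_add hη _ _).trans ((add_le_add (h η hη γ d hγ hd) (h' η hη γ d hγ hd)).trans_eq (by ring))

theorem H3.smul (h : H3 R ρ M φ) (c : ℂ) : H3 R ρ (‖c‖ * M) fun B => c * φ B :=
  fun η hη γ d hγ hd => (cN_const_mul hη _ _).trans
    ((mul_le_mul_of_nonneg_left (h η hη γ d hγ hd) (norm_nonneg _)).trans_eq (by ring))

theorem H3.mono {M' : ℝ} (h : H3 R ρ M φ) (hR : R ≤ R') (h0 : 0 < ρ') (hρ : ρ' ≤ ρ)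
    (hM : M * (ρ' / ρ) ^ 3 ≤ M') : H3 R' ρ' M' φ := fun η hη γ d hγ hd => by
  have d0 := (hγ.cv hη o3).nonneg
  have := h0.trans_le hρ
  refine (h η hη γ d ⟨hγ.1, fun x hx => hγ.2 x (Li.box_mono hR hx)⟩ (hd.trans hρ)).trans ?_
  calc _ = M * (ρ' / ρ) ^ 3 * (d / ρ') ^ 3 := by field_simp
    _ ≤ _ := by gcongr

theorem reF_em (a : V) (j : Fin 3) : reF (Ho.em 0 a) j = if j = 0 then a else 0 := by
  funext e
  by_cases h : j = 0 <;> simp [reF, Ho.em, h]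

theorem qf_em (k : CF) (a : V) : qf k (Ho.em 0 a) = k a a := by
  simp [qf, reF_em, Fin.sum_univ_three]

/-- the quadratic part of a function with a cubic remainder -/
theorem q2_of_bd (hs : ∀ a b, k a b = k b a) (hρ : 0 < ρ) (h : ∀ B d, RealF B → Cv R d B → d ≤ ρ →
    ‖ψ B - qf k B‖ ≤ M * d ^ 3) (a b : V) : q2 ψ a b = k a b := by
  refine kq_of_cubic k hs (fun c => ?_) a b
  obtain ⟨D, hD⟩ := Ho.cv_exists R c
  have D0 := hD.nonneg
  refine ⟨M * (D + 1) ^ 3, ρ / (D + 1), by positivity, fun t t0 t1 => ?_⟩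
  have := h _ (t * (D + 1)) (Ho.real_em 0 (t • c)) (Ho.cv_em 0 ((cv_smul' t hD).mono le_rfl
    (by rw [abs_of_nonneg t0]; nlinarith))) ((le_div_iff₀ (by positivity)).1 t1)
  rw [qf_em] at this
  exact this.trans_eq (by ring)

theorem q2_of_h3 (hs : ∀ a b, k a b = k b a) (hρ : 0 < ρ) (h : H3 R ρ M fun B => ψ B - qf k B)
    (a b : V) : q2 ψ a b = k a b :=
  q2_of_bd (M := M / ρ ^ 3) hs hρ (fun B d hB hd h1 => (h.bd hB hd h1).trans_eq (by ring)) a b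

theorem rem_eq (e : ∀ a b, q2 ψ a b = k a b) : rem ψ = fun B => ψ B - qf k B :=
  funext fun B => by simp only [rem, e, qf]

theorem Ps.intro (hρ : 0 < ρ) (h1 : LA R ρ ψ) (h2 : Fm R s xb xk k)
    (h3 : H3 R ρ xr fun B => ψ B - qf k B) : Ps R s ρ xb xk xr ψ := by
  have e := q2_of_h3 h2.symm hρ h3
  exact ⟨h1, ⟨k, h2.symm, e⟩, by simpa only [qc, e] using h2.cb, by simpa only [qc, e] using h2.ck,
    rem_eq e ▸ h3⟩

theorem Ps.elim (h : Ps R s ρ xb xk xr ψ) : ∃ k : CF, Fm R s xb xk k ∧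
    (∀ a b, q2 ψ a b = k a b) ∧ H3 R ρ xr fun B => ψ B - qf k B := by
  obtain ⟨k, hs, e⟩ := h.bil
  exact ⟨k, ⟨hs, by simpa only [qc, e] using h.cb, by simpa only [qc, e] using h.ck⟩, e,
    rem_eq e ▸ h.jr⟩

theorem LA.congr (h : LA R ρ φ) (e : ∀ B, RealF B → Cv R ρ B → ψ B = φ B) : LA R ρ ψ where
  loc A B hA hB c d := by
    rw [e A hA c, e B hB fun x hx μ ν => d x hx μ ν ▸ c x hx μ ν, h.loc A B hA hB c d]
  ad u B hB c c' := by rw [e _ (real_ad u hB) c', e B hB c, h.ad u B hB c c']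

theorem LA.map₂ (h : LA R ρ φ) (h' : LA R ρ ψ) (f : ℂ → ℂ → ℂ) :
    LA R ρ fun B => f (φ B) (ψ B) where
  loc A B hA hB c d := by rw [h.loc A B hA hB c d, h'.loc A B hA hB c d]
  ad u B hB c c' := by rw [h.ad u B hB c c', h'.ad u B hB c c']

theorem LA.map (h : LA R ρ φ) (f : ℂ → ℂ) : LA R ρ fun B => f (φ B) := h.map₂ h fun x _ => f x

theorem LA.mono (h : LA R ρ φ) (hR : R ≤ R') (hρ : ρ' ≤ ρ) : LA R' ρ' φ where
  loc A B hA hB c d := h.loc A B hA hB (c.mono hR hρ) fun x hx => d x (Li.box_mono hR hx)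
  ad u B hB c c' := h.ad u B hB (c.mono hR hρ) (c'.mono hR hρ)

theorem qf_add (k k' : CF) (B : Fld) : qf (k + k') B = qf k B + qf k' B := by
  simp [qf, sum_add_distrib]

theorem qf_smul (c : ℂ) (k : CF) (B : Fld) : qf (c • k) B = c * qf k B := by
  simp [qf, mul_sum]

theorem Ps.nonneg (h : Ps R s ρ xb xk xr ψ) (hρ : 0 < ρ) : 0 ≤ xb ∧ 0 ≤ xk ∧ 0 ≤ xr :=
  let ⟨_, h1, _, h2⟩ := h.elim; ⟨h1.xb0, h1.xk0, h2.nonneg hρ⟩

theorem Ps.congr (h : Ps R s ρ xb xk xr φ) (hρ : 0 < ρ) (e : ∀ B, RealF B → Cv R ρ B → ψ B = φ B) :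
    Ps R s ρ xb xk xr ψ ∧ ∀ a b, q2 ψ a b = q2 φ a b := by
  obtain ⟨k, h1, h2, h3⟩ := h.elim
  have h4 : H3 R ρ xr fun B => ψ B - qf k B := h3.congr fun B hB c => by rw [e B hB c]
  exact ⟨Ps.intro hρ (h.toLA.congr e) h1 h4, fun a b => by rw [h2, q2_of_h3 h1.symm hρ h4]⟩

theorem Ps.add (h : Ps R s ρ xb xk xr ψ) (h' : Ps R s ρ xb' xk' xr' ψ') (hρ : 0 < ρ) :
    Ps R s ρ (xb + xb') (xk + xk') (xr + xr') (fun B => ψ B + ψ' B) ∧
      ∀ a b, q2 (fun B => ψ B + ψ' B) a b = q2 ψ a b + q2 ψ' a b := by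
  obtain ⟨k, h1, h2, h3⟩ := h.elim
  obtain ⟨k', g1, g2, g3⟩ := h'.elim
  have h4 : H3 R ρ (xr + xr') fun B => ψ B + ψ' B - qf (k + k') B :=
    (h3.add g3).congr fun B _ _ => by rw [qf_add]; ring
  exact ⟨Ps.intro hρ (h.toLA.map₂ h'.toLA (· + ·)) (h1.add g1) h4, fun a b => by
    rw [h2, g2, q2_of_h3 (h1.add g1).symm hρ h4]; rfl⟩

theorem Ps.smul (h : Ps R s ρ xb xk xr ψ) (hρ : 0 < ρ) (c : ℂ) :
    Ps R s ρ (‖c‖ * xb) (‖c‖ * xk) (‖c‖ * xr) (fun B => c * ψ B) ∧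
      ∀ a b, q2 (fun B => c * ψ B) a b = c * q2 ψ a b := by
  obtain ⟨k, h1, h2, h3⟩ := h.elim
  have h4 : H3 R ρ (‖c‖ * xr) fun B => c * ψ B - qf (c • k) B :=
    (h3.smul c).congr fun B _ _ => by rw [qf_smul]; ring
  exact ⟨Ps.intro hρ (h.toLA.map (c * ·)) (h1.smul c) h4, fun a b => by
    rw [h2, q2_of_h3 (h1.smul c).symm hρ h4]; rfl⟩

theorem Ps.sub (h : Ps R s ρ xb xk xr ψ) (h' : Ps R s ρ xb' xk' xr' ψ') (hρ : 0 < ρ) :
    Ps R s ρ (xb + xb') (xk + xk') (xr + xr') (fun B => ψ B - ψ' B) ∧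
      ∀ a b, q2 (fun B => ψ B - ψ' B) a b = q2 ψ a b - q2 ψ' a b := by
  obtain ⟨g1, g2⟩ := h'.smul hρ (-1)
  have := h.add g1 hρ
  simp only [g2] at this
  simpa only [norm_neg, norm_one, one_mul, neg_mul, ← sub_eq_add_neg] using this

theorem Ps.mono (h : Ps R s ρ xb xk xr ψ) (hR : R ≤ R') (h0 : 0 < ρ') (hρ : ρ' ≤ ρ) (h1 : xb ≤ xb')
    (h2 : xk ≤ xk') (h3 : xr * (ρ' / ρ) ^ 3 ≤ xr') : Ps R' s ρ' xb' xk' xr' ψ :=
  let ⟨_, g1, _, g3⟩ := h.elim
  Ps.intro h0 (h.toLA.mono hR hρ) (g1.mono hR h1 h2) (g3.mono hR h0 hρ h3)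

theorem Ps.mono' (h : Ps R s ρ xb xk xr ψ) (h0 : 0 < ρ) (h1 : xb ≤ xb') (h2 : xk ≤ xk')
    (h3 : xr ≤ xr') : Ps R s ρ xb' xk' xr' ψ :=
  h.mono le_rfl h0 le_rfl h1 h2 (by rwa [div_self h0.ne', one_pow, mul_one])

/-- better bounds for the quadratic part -/
theorem Ps.reform (h : Ps R s ρ xb xk xr ψ) (h0 : 0 < ρ) (h1 : Fm R s xb' xk' k)
    (e : ∀ a b, q2 ψ a b = k a b) : Ps R s ρ xb' xk' xr ψ :=
  Ps.intro h0 h.toLA h1 (rem_eq e ▸ h.jr)

theorem Fm.ps (h : Fm R s xb xk k) (h0 : 0 < ρ) :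
    Ps R s ρ xb xk 0 (qf k) ∧ ∀ a b, q2 (qf k) a b = k a b := by
  have h3 : H3 R ρ 0 fun B => qf k B - qf k B := fun η _ γ d _ _ => by simp [cN_zero]
  exact ⟨Ps.intro h0 (h.cc.la ρ) h h3, q2_of_h3 h.symm h0 h3⟩

theorem fm_zero (R s : ℕ) : Fm R s 0 0 0 := ⟨fun _ _ => rfl, by simp, by simp⟩

theorem ps_zero (R s : ℕ) (h0 : 0 < ρ) :
    Ps R s ρ 0 0 0 (fun _ => 0) ∧ ∀ a b, q2 (fun _ => 0) a b = 0 := by
  simpa [show qf 0 = fun _ => 0 from funext fun B => by simp [qf]] using (fm_zero R s).ps h0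

theorem Ps.sum {ι : Type} (S : Finset ι) {f : ι → Fld → ℂ} {yb yk yr : ι → ℝ} (h0 : 0 < ρ)
    (h : ∀ i ∈ S, Ps R s ρ (yb i) (yk i) (yr i) (f i)) :
    Ps R s ρ (∑ i ∈ S, yb i) (∑ i ∈ S, yk i) (∑ i ∈ S, yr i) (fun B => ∑ i ∈ S, f i B) ∧
      ∀ a b, q2 (fun B => ∑ i ∈ S, f i B) a b = ∑ i ∈ S, q2 (f i) a b := by
  induction S using Finset.cons_induction with
  | empty => simpa using ps_zero R s h0
  | cons i S hi ih =>
    obtain ⟨g1, g2⟩ := ih fun j hj => h j (mem_cons_of_mem hj)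
    simpa only [sum_cons, g2] using (h i (mem_cons_self i S)).add g1 h0

/-- a real form of range `R` -/
theorem Cb.ps {κ : ℝ} {m : BF} (h : Cb R κ m) (hs : ∀ a b, m a b = m b a) (s : ℕ) (h0 : 0 < ρ) :
    Ps R s ρ κ (2 * (R + 1 : ℝ) ^ (2 * s) * κ) 0 (fun B => cx m B B) ∧
      ∀ a b, q2 (fun B => cx m B B) a b = m a b := by
  have c : Cc R κ (ofB m) := fun a b δ δ' ha hb => by simpa using h a b δ δ' ha hb
  obtain ⟨g1, g2⟩ := (c.fm (fun a b => by simp [hs a]) s).ps h0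
  obtain ⟨g3, g4⟩ := g1.congr h0 (ψ := fun B => cx m B B) fun B hB _ => (qf_ofB m hB).symm
  exact ⟨g3, fun a b => by rw [g4, g2, ofB_apply]⟩

theorem Ps.bd (h : Ps R s ρ xb xk xr ψ) (hB : RealF B) (hd : Cv R d B) (hρ : d ≤ ρ) :
    ‖ψ B‖ ≤ 3 * (xb + xk) * d ^ 2 + xr * (d / ρ) ^ 3 := by
  obtain ⟨k, h1, -, h3⟩ := h.elim
  have := norm_add_le (qf k B) (ψ B - qf k B)
  rw [add_sub_cancel] at this
  linarith [h1.cc.qf hd, h3.bd hB hd hρ]

theorem Ps.zero (h : Ps R s ρ xb xk xr ψ) (hρ : 0 ≤ ρ) : ψ 0 = 0 := by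
  simpa using h.bd realF_zero (Ho.cv_zero R le_rfl) hρ

theorem Ps.cN (h : Ps R s ρ xb xk xr ψ) (hη : Eta 1 η) (hγ : Cu R η d γ) (hρ : d ≤ ρ) :
    cN η (fun T => ψ (γ T)) ≤ 192 * (xb + xk) * d ^ 2 + xr * (d / ρ) ^ 3 := by
  obtain ⟨k, h1, -, h3⟩ := h.elim
  have := cN_add hη (fun T => qf k (γ T)) fun T => ψ (γ T) - qf k (γ T)
  simp only [add_sub_cancel] at this
  linarith [h1.cc.cN hη hγ.2, h3 η hη γ d hγ hρ]

/-- the cube with two values -/
theorem cN_two {W : Type} [NormedAddCommGroup W] (hη : Eta 1 η) (u v : W) :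
    cN η (fun T => if T 0 then u else v) ≤ ‖v‖ + ‖u - v‖ + ‖u - v‖ / η 0 ∧
      ‖u - v‖ ≤ cN η (fun T => if T 0 then u else v) * η 0 := by
  have e1 : ∀ T, dS {0} (fun T : Vx => if T 0 then u else v) T = u - v := fun T => by
    simp [dS_single]
  refine ⟨(cN_le_sum hη (c := fun S => (if S = ∅ then ‖v‖ + ‖u - v‖ else 0) +
    if S = {0} then ‖u - v‖ / η 0 else 0) fun S T => ?_).trans_eq (by simp [sum_add_distrib]), ?_⟩
  · by_cases h1 : S = ∅
    · subst h1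
      have := norm_add_le v (u - v)
      rw [add_sub_cancel] at this
      cases h : T 0 <;> simp [h, this]
    by_cases h2 : S = {0}
    · subst h2
      simp [e1, (hη 0).1.ne']
    obtain ⟨i, hi, i0⟩ : ∃ i ∈ S, i ≠ 0 := by
      by_contra hc
      push Not at hc
      rcases subset_singleton_iff.1 (fun i hi => mem_singleton.2 (hc i hi) : S ⊆ {0}) with h | h
      exacts [h1 h, h2 h]
    rw [if_neg h1, if_neg h2, ← insert_erase hi, dS_insert (notMem_erase i S)]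
    simp [dS, Function.update_of_ne i0.symm]
  · simpa [e1] using dS_le_cN hη (fun T => if T 0 then u else v) {0} o3

/-- Lipschitz bound from jets -/
theorem lip_of_cN {t : ℝ} (h0 : LA R ρ φ) (h : ∀ η, Eta 1 η → ∀ γ, Cu R η (d + 2 * t) γ →
    cN η (fun T => φ (γ T)) ≤ M) (hA : RealF A) (hB : RealF B) (cA : Cv R d A)
    (cB : Cv R δ (B - A)) (t0 : 0 < t) (ht : δ ≤ t) (hρ : d ≤ ρ) : ‖φ B - φ A‖ ≤ δ / t * M := by
  rcases cB.nonneg.eq_or_lt with rfl | δ0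
  · rw [h0.loc A B hA hB (cA.mono le_rfl hρ) fun x hx μ ν => by
      have := cB x hx μ ν
      rw [RG.dd_sub, norm_le_zero_iff, sub_eq_zero] at this
      exact this.symm]
    simp
  have hη : Eta 1 fun _ => δ / t := fun i => ⟨by positivity, (div_le_one t0).2 ht⟩
  have h1 := h _ hη (fun T => if T 0 then B else A) ⟨fun T => by
      dsimp only; split_ifs <;> assumption,
    fun x hx μ ν => by
      have c := cB x hx μ ν
      rw [RG.dd_sub] at c
      simp only [apply_ite fun C => dd C x μ ν]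
      refine (cN_two hη _ _).1.trans ?_
      have : ‖dd B x μ ν - dd A x μ ν‖ / (δ / t) ≤ t := by
        rw [div_le_iff₀ (by positivity), mul_div_cancel₀ _ t0.ne']
        exact c
      linarith [cA x hx μ ν]⟩
  simp only [apply_ite φ] at h1
  refine (cN_two hη _ _).2.trans ?_
  rw [mul_comm]
  gcongr

theorem Ps.lip (h : Ps R s ρ xb xk xr ψ) (hA : RealF A) (hB : RealF B) (cA : Cv R d A)
    (cB : Cv R δ (B - A)) {t : ℝ} (t0 : 0 < t) (ht : δ ≤ t) (hρ : d + 2 * t ≤ ρ) :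
    ‖ψ B - ψ A‖ ≤ δ / t * (192 * (xb + xk) * (d + 2 * t) ^ 2 + xr * ((d + 2 * t) / ρ) ^ 3) :=
  lip_of_cN h.toLA (fun _ hη _ hγ => h.cN hη hγ hρ) hA hB cA cB t0 ht (by linarith)

theorem cont_of_cN {t : ℝ} (h0 : LA R ρ φ) (h : ∀ η, Eta 1 η → ∀ γ, Cu R η (d + 2 * t) γ →
    cN η (fun T => φ (γ T)) ≤ M) (t0 : 0 < t) (hρ : d ≤ ρ) :
    ContinuousOn φ {A | RealF A ∧ Cv R d A} := by
  intro A hA
  refine Metric.continuousWithinAt_iff'.2 fun ε hε => ?_
  have p : 0 < min t (ε * t / (|M| + 1)) := by positivity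
  have : ∀ᶠ B in nhds A, Cv R (min t (ε * t / (|M| + 1))) (B - A) := by
    simp only [Cv, eventually_all_finset, eventually_all]
    intro x _ μ ν
    have c : Continuous fun B : Fld => ‖dd (B - A) x μ ν‖ := by
      simp only [dd, Pi.sub_apply]; fun_prop
    exact (c.continuousAt.eventually_lt continuousAt_const
      (by simpa [Ho.dd_zero] using p)).mono fun B hB => hB.le
  filter_upwards [mem_nhdsWithin_of_mem_nhds this, self_mem_nhdsWithin] with B hB hB'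
  rw [dist_eq_norm]
  refine (lip_of_cN h0 h hA.1 hB'.1 hA.2 hB t0 (min_le_left _ _) hρ).trans_lt ?_
  calc _ ≤ min t (ε * t / (|M| + 1)) / t * |M| := by gcongr; exact le_abs_self M
    _ ≤ ε * t / (|M| + 1) / t * |M| := by gcongr; exact min_le_right _ _
    _ = ε * (|M| / (|M| + 1)) := by field_simp
    _ < ε := mul_lt_of_lt_one_right hε ((div_lt_one (by positivity)).2 (by linarith))

theorem Ps.continuousOn (h : Ps R s ρ xb xk xr ψ) (hd : d < ρ) :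
    ContinuousOn ψ {A | RealF A ∧ Cv R d A} :=
  cont_of_cN (t := (ρ - d) / 2) h.toLA (fun _ hη _ hγ => h.cN hη hγ (by linarith)) (by linarith)
    hd.le

theorem Ps.measurable (h : Ps R s ρ xb xk xr ψ) (hd : d < ρ) {Z : Type} [MeasurableSpace Z]
    {G : Z → Fld} (hG : Measurable G) (hb : ∀ z, RealF (G z) ∧ Cv R d (G z)) :
    Measurable fun z => ψ (G z) :=
  (continuousOn_iff_continuous_domRestrict.1 (h.continuousOn hd)).measurable.comp
    (hG.subtype_mk (h := hb))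

open Classical in
theorem Ps.measurable_ite (h : Ps R s ρ xb xk xr ψ) (d0 : 0 ≤ d) (hd : d < ρ) {Z : Type}
    [MeasurableSpace Z] {G : Z → Fld} (hG : Measurable G) {S : Set Z} (hS : MeasurableSet S)
    (hb : ∀ z ∈ S, RealF (G z) ∧ Cv R d (G z)) :
    Measurable fun z => if z ∈ S then ψ (G z) else 0 := by
  have := h.measurable hd (G := fun z => if z ∈ S then G z else 0) (hG.ite hS measurable_const)
    fun z => by
      split_ifs with hz
      exacts [hb z hz, ⟨realF_zero, Ho.cv_zero R d0⟩]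
  simpa only [apply_ite ψ, h.zero (d0.trans hd.le)] using this

end Pool.Agent.Lib.MP_7f377f_mp.RG.Q4
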