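import Pool.Agent.Lib.MP_7f377f_mp.Q4CalmC
import Pool.Agent.Lib.MP_7f377f_mp.Q4BudG
import Pool.Agent.Lib.MP_7f377f_mp.Q4Fs

/-! The functionals of a calm block on real fields of small curvature. -/

noncomputable section

namespace Pool.Agent.Lib.MP_7f377f_mp.RG.Q4

open Finset Polynomial MeasureTheory

namespace Cm

variable {S : Sd} {b ε : ℝ} {B : Fld} {W : Cf} {U : Conf} {z : Lk → E3} {u : St → S3} {y : St}
  {ψ : Lx} {R : ℕ}

/-- near the origin `W` is the gauge transform by `u` of the small field `exF B` -/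
structure Ga (S : Sd) (W : Cf) (u : St → S3) (B : Fld) : Prop where
  bd : ∀ e, ‖B e‖ ≤ S.Q ^ 4 * S.g
  agr : Agr S.D0 W (gS u (exF B))

/-- the chart coordinates of a real field -/
def Bc (S : Sd) (U : Conf) : Fld := cut (4 * S.D0) (Bx 0 (cC U))

/-- the gauge transformation from the chart to the field -/
def uc (U : Conf) : St → S3 := fun x => (cmb Inv.inv U x)⁻¹

/-- the fluctuation variable in the gauge of the chart -/
def zi (S : Sd) (u : St → S3) : (Lk → E3) → Lk → E3 := rz S.l fun x => (u x)⁻¹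

theorem zc_zi (u : St → S3) (z : Lk → E3) : zc S.ζ z = aS S.l u (zc S.ζ (zi S u z)) := by
  rw [zi, ← zc_inv]

theorem wB_Bx (U : Conf) : S.wB (Bx 0 (cC U)) = exF (Bc S U) := by rw [Td.wB, cg_Bx, Bc]

theorem zi_sh (u : St → S3) (z : Lk → E3) (y : St) :
    zi S (fun x => u (x + y)) (sh (up S.l y) z) = sh (up S.l y) (zi S u z) := by
  rw [zi, zi, rz_sh]

theorem mp_zi (u : St → S3) : MeasurePreserving (zi S u) (nuI S.ζ) (nuI S.ζ) :=
  mp_rz S.l S.Q0 fun x => (u x)⁻¹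

theorem cut_congr {A A' : Fld} (h : Agr R A A') : cut R A = cut R A' := funext fun e => by
  simp only [cut]
  split_ifs with he
  exacts [h e he, rfl]

theorem cut_real {A : Fld} (h : ∀ e ∈ lbox R, ∀ k, (A e k).im = 0) : RealF (cut R A) := fun e k => by
  simp only [cut]
  split_ifs with he
  exacts [h e he k, rfl]

/-- the chart of a real field of small curvature -/
theorem cut_Bx (h : Fq (R + 1) ε U) (h1 : 6 * (R + 1 : ℕ) * ε ≤ 1) (g : S3) :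
    RealF (adF (fun _ => cS g) (cut (R + 1) (Bx 0 (cC U)))) ∧
      Cv R (48 * (R + 1 : ℕ) * ε) (adF (fun _ => cS g) (cut (R + 1) (Bx 0 (cC U)))) := by
  have e : adF (fun _ => cS g) (cut (R + 1) (Bx 0 (cC U))) =
      cut (R + 1) (Bx 0 (cC (gauge Inv.inv (fun _ => g) U))) := by
    rw [cC_gauge, Bx_gauge fun _ => uni_cS _, JS.cut_adF]
  refine ⟨e ▸ cut_real fun e _ => Bx_real _ _ e, (Sm.cv (δ := 2 * (6 * (R + 1 : ℕ) * ε))
    fun e _ => (norm_adq_two _ _).trans (mul_le_mul_of_nonneg_left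
      (En.cut_le (Bx_loc h h1).1 e) zero_le_two)).mono le_rfl (le_of_eq (by ring))⟩

theorem Bx_agr_at {V V' : Cf} {a n : ℕ} (h : Agr n V V') {x : St} (hx : x ∈ box a)
    (hn : R + 1 + a ≤ n) : cut R (Bx x V) = cut R (Bx x V') := by
  rw [Bx_eq, Bx_eq x V']
  exact cut_congr (Bx_agr ((h.mono hn).sh hx))

theorem meas_cut {Z : Type} [MeasurableSpace Z] {A : Z → Fld} (h : Measurable A) (R : ℕ) :
    Measurable fun z => cut R (A z) := measurable_pi_lambda _ fun e => by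
  simp only [cut]
  split_ifs
  exacts [h.eval, measurable_const]

theorem int_zi (u : St → S3) {f : (Lk → E3) → ℂ} (hf : Measurable f) :
    ∫ z, f (zi S u z) ∂nuI S.ζ = ∫ z, f z ∂nuI S.ζ := by
  rw [← integral_map_of_stronglyMeasurable (mp_zi u).measurable hf.stronglyMeasurable,
    (mp_zi u).map_eq]

theorem pu_tr {p : Pa} (h : PU p b ψ) (n : ℕ) (v : St) : PU p b (trL n v ψ) :=
  ⟨h.1.imp fun _ h => h.imp fun _ h => h.imp fun _ h _ => h _, fun _ => h.2 _⟩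

theorem pu_nonneg {p : Pa} (h : PU p b ψ) (h0 : 0 ≤ p.ρ) : 0 ≤ b :=
  (norm_nonneg _).trans (h.2 0 0 (fun _ _ => rfl) (Ho.cv_zero _ h0))

namespace Hp

variable (h : Hp S)
include h

theorem ε'_le : 6 * (4 * S.D0 + 1 : ℕ) * S.p'.ε ≤ S.Q ^ 3 * S.g ∧
    48 * (4 * S.D0 + 1 : ℕ) * S.p'.ε ≤ S.p'.ρ := by
  have h1 := h.nu.mon (C := 240) (i := 0) (j := 1) (by norm_num) (by omega) (by norm_num)
  have h2 : (1 : ℝ) ≤ S.D0 := by exact_mod_cast Sd.D1 _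
  have h3 := h.nu.ok.g'g
  have g0 := h.nu.ok.g'0
  have q0 := S.Q0
  have h4 : 48 * (4 * S.D0 + 1 : ℕ) * (S.Q ^ 2 * S.g') ≤ S.Q * (S.Q ^ 2 * S.g') := by
    push_cast; gcongr; linarith
  rw [Sd.p'_ε, Sd.p'_ρ]
  have h5 := mul_le_mul_of_nonneg_left h3 (pow_pos q0 3).le
  exact ⟨by linarith [mul_pos (pow_pos q0 3) h.g0], by linarith⟩

theorem Q34 : S.Q ^ 3 * S.g ≤ S.Q ^ 4 * S.g ∧ S.Q ^ 4 * S.g ≤ 1 :=
  ⟨mul_le_mul_of_nonneg_right (Sd.Qw S (by norm_num)) h.g0.le, by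
    simpa using h.Qg (i := 4) (j := 1) (by norm_num) le_rfl⟩

theorem ε_le : 48 * (S.p.R + 1 : ℕ) * S.p.ε ≤ S.p.ρ ∧ 6 * (S.p.R + 1 : ℕ) * S.p.ε ≤ 1 := by
  have h1 := h.nu.mon (C := 240) (i := 1) (j := 1) (by norm_num) (by have := h.nu.exps; omega)
    (by norm_num)
  have h2 : (1 : ℝ) ≤ S.D0 := by exact_mod_cast Sd.D1 _
  have h3 := h.nu.R_le
  have h4 := h.nu.r_le_L
  have h5 := h.nu.ok.QQM
  have h6 := h.nu.ρ_le
  have L1 := Sd.L1 S.toTd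
  have g0 := h.g0
  have q0 := S.Q0
  have h7 : 48 * (S.p.R + 1 : ℕ) * S.p.ε ≤ S.p.ρ := by
    rw [Sd.p_ε, Sd.p_ρ, pow_succ' _ 2, mul_assoc S.QM]
    push_cast
    gcongr
    nlinarith [mul_le_mul_of_nonneg_right h4 h.D0.le]
  have h8 : S.r * S.Q ^ 3 * S.g ≤ S.Q * S.Q ^ 3 * S.g := by gcongr; exact h.nu.r_le_Q
  exact ⟨h7, by nlinarith [h.Q34.2]⟩

theorem ga (hU : Fq (4 * S.D0) S.p'.ε U) (hy : y ∈ box (3 * S.D0)) :
    Ga S (sh y (cC U)) (fun x => uc U (x + y)) (sh y (Bc S U)) := by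
  have e0 := hU.nonneg
  have h1 : 6 * (4 * S.D0 : ℕ) * S.p'.ε ≤ S.Q ^ 4 * S.g :=
    le_trans (by gcongr; omega) (h.ε'_le.1.trans h.Q34.1)
  obtain ⟨h2, h3⟩ := comb_real hU (h1.trans h.Q34.2)
  refine ⟨fun e => (h2 _).trans h1, ?_⟩
  have := (h3.mono (show S.D0 + 3 * S.D0 ≤ _ by omega)).sh hy
  rwa [sh_gS] at this

theorem ga0 (hU : Fq (4 * S.D0) S.p'.ε U) : Ga S (cC U) (uc U) (Bc S U) := by
  simpa only [sh_zero, add_zero] using h.ga hU (zero_mem_box _)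

section ga

variable (a : Ga S W u B)
include a

theorem ga_agr : Agr (4 * S.N + 5 + S.t.rA S.r) W (gS u (exF B)) :=
  a.agr.mono (by have := h.nu.lens; omega)

theorem s1_ga (z : Lk → E3) : S.s1 W z = S.s1 (exF B) (zi S u z) :=
  (s1_agr h.ok (h.ga_agr a) fun _ _ => rfl).trans
    (s1_cov h.ok (h.gw (h.big a.bd)) u (zc_zi u z))

theorem gg_ga (z : Lk → E3) : gg S W z = gg S (exF B) (zi S u z) :=
  (gg_agr h.ok (h.ga_agr a) fun _ _ => rfl).trans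
    (gg_cov h.ok (h.gw (h.big a.bd)) u (zc_zi u z))

theorem uu_ga (z : Lk → E3) : uu S W z = uu S (exF B) (zi S u z) :=
  (uu_agr h.ok (h.ga_agr a) fun _ _ => rfl).trans
    (uu_cov h.ok (h.gw (h.big a.bd)) u (zc_zi u z))

theorem dt0_ga : S.dt0 W = S.dt0 (exF B) :=
  (Td.dt0_agr h.ok ((h.ga_agr a).mono (by omega))).trans (dt0_cov h.ok (h.gw (h.big a.bd)) u)

theorem U0_ga (z : Lk → E3) : Agr (fb S.l (S.D0 / 2)) (S.U0 W z)
    (gauge star (fun x => cS (u (yo S.l x))) (S.U0 (exF B) (zi S u z))) := by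
  rw [← U0_cov h.ok (h.gw (h.big a.bd)) u (zc_zi u z)]
  exact Sd.U0_agr h.ok (a.agr.mono (by have := h.nu.lens; omega)) fun _ _ => rfl

theorem s1_le (z : Lk → E3) : ‖S.s1 W z‖ ≤ 3 * (S.Q ^ 7 * S.g) := by
  rw [h.s1_ga a, ← sub_add_cancel (S.s1 _ _) (e4 S.l (S.t.As (exF B)))]
  exact (norm_add_le_of_le (h.s1_sub (h.big a.bd) _) (h.e4_As a.bd)).trans (by linarith [h.g3])

end ga

/-- the fine field is real and has small curvature -/
theorem fine (hU : Fq S.D0 S.p'.ε U) (z : Lk → E3) : ∃ U1 : Conf,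
    Agr (fb S.l (S.D0 / 2)) (cC U1) (S.U0 (cC U) z) ∧ Fq (fb S.l (S.D0 / 4)) S.p.ε U1 := by
  have f := h.fo
  have hl := h.nu.lens
  have e := h.nu.exps
  have g0 := h.g0
  have q0 := S.Q0
  have q1 := S.Q1
  have L0 := Sd.L0 S.toTd
  obtain ⟨a1, a2⟩ := f.As_fq (a := S.D0 / 2) f.size_ε.1 f.size_ε.2 (hU.mono (by omega) le_rfl)
  have G : ∀ y ∈ box (3 * S.D0 / 4), Fq S.w S.p'.ε (sh y U) := fun y hy =>
    (hU.mono (by omega) le_rfl).sh hy
  have a3 : Sm (fb S.l (S.D0 / 2)) (S.g * (S.L ^ (6 * S.c + 16) * S.Q)) (S.v0 (cC U) z) := by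
    intro f' hf
    rw [Sd.v0, Sd.P0, Pi.smul_apply, norm_smul, Complex.norm_real, Real.norm_of_nonneg h.nu.ok.gt0.le]
    exact mul_le_mul h.nu.ok.gt_le (polK_pP f.op f.hδ f' (fun y hy => f.gk_fq f.size_ε.1 f.size_ε.2
      (G _ (box_mono (by change 4 * S.N + 3 + _ ≤ _; omega)
        (add_mem_box hy (yo_mem_box (mem_lbox.1 hf))))) ∅)
          (sm_of_all (norm_zc h.ζ0 z) _ _)).1 (norm_nonneg _) g0.le
  have a4 : ∀ f' ∈ lbox (fb S.l (S.D0 / 2)), ∀ k, (S.v0 (cC U) z f' k).im = 0 := by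
    have h1 : 6 * S.D0 * S.p'.ε ≤ S.Q ^ 3 * S.g :=
      le_trans (by have := f.ε0; gcongr; omega) h.ε'_le.1
    obtain ⟨u, B, W1, hB, -, e1, e2⟩ := (hU.gd (h1.trans (h.Q34.1.trans h.Q34.2))).real
      (by linarith [h.Qg1 (i := 3) (by norm_num)])
    have g : S.t.Gw (cC W1) :=
      e1 ▸ (h.gw fun e => ((hB e).trans h1).trans (h.Qg_D (by norm_num))).cov h.ok u
    intro f' hf k
    rw [Sd.v0_agr h.ok (e2.mono (by omega)) (fun _ _ => rfl) f' hf]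
    simp [Sd.v0, Sd.P0, (show RealF (S.pol0 (pP S.N) (cC W1) (zc S.ζ z)) from polK_real
      (fun i => (Od.coeff_real _ i).1) (fun y _ => Nt.kd_real h.gr (g.sh y)) (zc_real _ _)) f' k]
  have a5 : S.D0 * S.p'.ε ^ 2 + S.g * (S.L ^ (6 * S.c + 16) * S.Q) ≤ S.Q ^ 2 * S.g / 288 := by
    have h1 := h.cq (C := 576) (i := 6 * S.c + 16) (by norm_num) (by omega)
    have h2 : 1 ≤ S.L ^ (6 * S.c + 16) * S.Q := one_le_mul_of_one_le_of_one_le
      (one_le_pow₀ (Sd.L1 _)) q1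
    nlinarith [f.Dε.2.1, mul_le_mul_of_nonneg_left h2 g0.le,
      mul_le_mul_of_nonneg_left h1 (mul_pos g0 q0).le]
  set A := cut (fb S.l (S.D0 / 2)) (S.t.As (cC U) + S.v0 (cC U) z)
  have rA : RealF A := cut_real fun f' hf k => by simp [a2 f' hf k, a4 f' hf k]
  have e2 : S.Q ^ 2 * S.g ≤ S.p'.ε := by rw [Sd.p'_ε]; gcongr; exact h.nu.ok.gg'
  refine ⟨Ur S.l S.s U A, cC_Ur U rA ▸ fun f' hf => congrArg (fun x => ex x * _) (agr_cut _ _ f' hf),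
    fun x hx μ ν => (fq_Ur_box (h.nu.hy h.tok (n := S.c + 5) le_rfl) (k := S.D0 / 4)
      (a := S.Q ^ 2 * S.g / 288) (hU.mono (by omega) le_rfl) rA (fun f' _ => En.cut_le
        (fun f' hf => (norm_add_le_of_le (a1 f' hf) (a3 f' hf)).trans a5) f')
      (by linarith [mul_pos (pow_pos q0 2) g0]) ?_ hx μ ν).trans ?_⟩
  · rw [← pow_mul, Sd.p'_ε]
    exact (mul_le_mul_of_nonneg_right ((h.nu.LQ (by omega)).trans_eq (pow_one _).symm)
      (mul_pos (pow_pos q0 2) h.nu.ok.g'0).le).trans (h.nu.ok.Qg'_le (by norm_num))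
  · have h1 : (3 : ℝ) ≤ S.r ^ 10 := (h.nu.cr' (by norm_num)).trans
      (le_self_pow₀ h.nu.r1' (by norm_num))
    have h2 := div_le_div_of_nonneg_left f.ε0.le three_pos h1
    have h3 := mul_le_mul_of_nonneg_left h.nu.ok.g'g (pow_pos q0 2).le
    rw [← Sd.p'_ε] at h3
    linarith [h.nu.ε_ge]

theorem R_fb : S.p.R + 2 + S.l ≤ fb S.l (S.D0 / 4) := by
  have hl := h.nu.lens
  have : S.D0 * LL S.l ≤ 5 * (S.D0 / 4) * LL S.l := Nat.mul_le_mul_right _ (by omega)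
  rw [Sd.p_R, fb]
  nlinarith

theorem site (hU : Fq S.D0 S.p'.ε U) (z : Lk → E3) {x : St} (hx : x ∈ box S.l) : ∃ U1 : Conf,
    Fq (S.p.R + 1) S.p.ε U1 ∧
      cut (S.p.R + 1) (Bx x (S.U0 (cC U) z)) = cut (S.p.R + 1) (Bx 0 (cC U1)) := by
  obtain ⟨U1, h1, h2⟩ := h.fine hU z
  have := h.R_fb
  exact ⟨sh x U1, (h2.mono (by omega) le_rfl).sh hx, (Bx_agr_at h1.symm hx (this.trans
    (Op.fb_mono _ (by omega)))).trans (by rw [Bx_eq, sh_cC])⟩

theorem site_ad (hU : Fq S.D0 S.p'.ε U) (z : Lk → E3) {x : St} (hx : x ∈ box S.l) (g : S3) :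
    RealF (adF (fun _ => cS g) (cut (S.p.R + 1) (Bx x (S.U0 (cC U) z)))) ∧
      Cv S.p.R S.p.ρ (adF (fun _ => cS g) (cut (S.p.R + 1) (Bx x (S.U0 (cC U) z)))) := by
  obtain ⟨U1, h1, h2⟩ := h.site hU z hx
  rw [h2]
  exact (cut_Bx h1 h.ε_le.2 g).imp_right fun c => c.mono le_rfl h.ε_le.1

theorem site_cv (hU : Fq S.D0 S.p'.ε U) (z : Lk → E3) {x : St} (hx : x ∈ box S.l) :
    RealF (cut (S.p.R + 1) (Bx x (S.U0 (cC U) z))) ∧
      Cv S.p.R S.p.ρ (cut (S.p.R + 1) (Bx x (S.U0 (cC U) z))) := by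
  simpa only [cS_one, adF_one] using h.site_ad hU z hx 1

theorem sP_meas (hψ : PU S.p b ψ) {Z : Type} [MeasurableSpace Z] {W : Z → Cf} {z : Z → Lk → E3}
    (hW : ∀ e, MQ fun x => W x e) (hz : Measurable z) : Measurable fun x => S.sP ψ (W x) (z x) := by
  obtain ⟨_, _, _, m⟩ := hψ.1
  exact Finset.measurable_sum _ fun x _ => (m x).2.comp (meas_cut (Bx_measurable
    (Sd.U0_meas h.ok hW hz) x) _)

theorem sP_le (hψ : PU S.p b ψ) (hU : Fq S.D0 S.p'.ε U) (z : Lk → E3) :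
    ‖S.sP ψ (cC U) z‖ ≤ S.L ^ 4 * b :=
  (norm_sum_le _ _).trans ((sum_le_card_nsmul _ _ _ fun _ hx => hψ.2 _ _ (h.site_cv hU z hx).1
    (h.site_cv hU z hx).2).trans_eq (by rw [card_box, nsmul_eq_mul]; push_cast [Td.L, LL]; rfl))

theorem sP_ga (hψ : PU S.p b ψ) (hU : Fq S.D0 S.p'.ε U) (a : Ga S (cC U) u B) (z : Lk → E3) :
    S.sP ψ (cC U) z = S.sP ψ (exF B) (zi S u z) := sum_congr rfl fun x hx => by
  obtain ⟨_, _, _, m⟩ := hψ.1
  rw [← (m x).1.ad (u 0)⁻¹ _ (h.site_cv hU z hx).1 (h.site_cv hU z hx).2 (h.site_ad hU z hx _).2,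
    Bx_agr_at (h.U0_ga a z) hx (h.R_fb.trans (Op.fb_mono _ (by omega))),
    Bx_gauge fun _ => uni_cS _, JS.cut_adF, yo_of_mem hx]
  exact congrArg _ (aS_inv' 0 (fun _ => u 0) _)

/-- the counterterm is the mean of the small terms -/
theorem pz_eq (hψ : PU S.p b ψ) (hU : Fq (S.p'.R + 1) S.p'.ε U) :
    S.pz ψ (Bx 0 (cC U)) = ∫ z, S.sP ψ (cC U) z ∂nuI S.ζ := by
  have c := (cut_Bx hU (h.ε'_le.1.trans (h.Q34.1.trans h.Q34.2)) 1).2
  simp only [cS_one, adF_one] at c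
  have R := S.R_eq
  rw [Sd.pz, ctr_of (Bx_real _ _) ((c.congr (agr_cut _ _)).mono le_rfl h.ε'_le.2), Sd.pzr, wB_Bx,
    ← int_zi (S := S) (uc U) (f := S.sP ψ (exF (Bc S U)))
      (h.sP_meas hψ (fun _ => mq_const _) measurable_id)]
  exact integral_congr_ae (ae_of_all _ fun z => (h.sP_ga hψ (hU.mono (by omega) le_rfl)
    (h.ga0 (hU.mono (by omega) le_rfl)) z).symm)

theorem pz_le (hψ : PU S.p b ψ) (hU : Fq (S.p'.R + 1) S.p'.ε U) :
    ‖S.pz ψ (Bx 0 (cC U))‖ ≤ S.L ^ 4 * b := by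
  have := nuI_prob (ζ := S.ζ) S.Q0
  have R := S.R_eq
  rw [h.pz_eq hψ hU]
  simpa using norm_integral_le_of_norm_le_const (μ := nuI S.ζ) (ae_of_all _ fun z =>
    h.sP_le hψ (hU.mono (by omega) le_rfl) z)

end Hp

end Cm

end Pool.Agent.Lib.MP_7f377f_mp.RG.Q4
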