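import Pool.Agent.Lib.MP_7f377f_mp.Q4HoD
import Pool.Agent.Lib.MP_7f377f_mp.Q4CalmD
import Pool.Agent.Lib.MP_7f377f_mp.Q4Ol
import Pool.Agent.Lib.MP_7f377f_mp.Q4S1

/-! Crude bounds for the factors of a block which is not calm. -/

noncomputable section

namespace Pool.Agent.Lib.MP_7f377f_mp.RG.Q4

open Finset MeasureTheory Filter
open scoped Classical

theorem Fq.cv48 {R : ℕ} {ε : ℝ} {U : Conf} (h : Fq (R + 1) ε U) (h1 : 6 * (R + 1 : ℕ) * ε ≤ 1) :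
    Cv R (48 * (R + 1 : ℕ) * ε) (Bx 0 (cC U)) := by
  have c := (Cm.cut_Bx h h1 1).2
  simp only [cS_one, adF_one] at c
  exact c.congr (agr_cut _ _)

theorem fq_one {R : ℕ} {ε : ℝ} (h : 0 ≤ ε) : Fq R ε 1 := fun x _ μ ν => by
  simpa [fq, hol, S3.q_one] using h

theorem norm_log_mean {Z : Type} [MeasurableSpace Z] {ν : Measure Z} [IsProbabilityMeasure ν]
    {f : Z → ℂ} (hf : Measurable f) (h : ∀ z, ‖f z‖ ≤ 1 / 4) :
    ‖Complex.log (∫ z, Complex.exp (-f z) ∂ν)‖ ≤ 1 := by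
  have h1 : ∀ z, ‖Complex.exp (-f z) - 1‖ ≤ 1 / 2 := fun z =>
    (Complex.norm_exp_sub_one_le (by rw [norm_neg]; linarith [h z])).trans (by
      rw [norm_neg]; linarith [h z])
  have h2 : Integrable (fun z => Complex.exp (-f z) - 1) ν := .of_bound
    (hf.neg.cexp.sub_const 1).aestronglyMeasurable _ (ae_of_all _ h1)
  have h3 := norm_integral_le_of_norm_le_const (μ := ν) (ae_of_all _ h1)
  have h4 := integral_add (integrable_const (1 : ℂ)) h2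
  simp only [add_sub_cancel, integral_const, probReal_univ, one_smul, mul_one] at h3 h4
  rw [h4]
  linarith [Complex.norm_log_one_add_half_le_self h3]

namespace Cm.Hp

variable {S : Sd} {b θ : ℝ} {k : Mj} {ψ : Lx} {K : Ac} {U : Conf} (h : Hp S)
include h

theorem meas_s1 {Z : Type} [MeasurableSpace Z] {W : Z → Cf} {z : Z → Lk → E3}
    (hW : ∀ e, MQ fun x => W x e) (hz : Measurable z) : Measurable fun x => S.s1 (W x) (z x) := by
  have h1 := Sd.v0_meas h.ok hW hz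
  have h2 := (Nt.As_meas h.ok hW).add h1
  exact ((Nt.rem3_meas h.ok hW h1 0).const_mul _).add ((Finset.measurable_fun_sum _ fun f _ =>
    Complex.measurable_log.comp ((measurable_dot h2.eval h2.eval).const_add 1)).const_mul _)

theorem cv_fine (hU : Fq (S.p.R + 1) S.p.ε U) : Cv S.p.R S.p.ρ (Bx 0 (cC U)) :=
  (hU.cv48 h.ε_le.2).mono le_rfl h.ε_le.1

theorem cv_coarse (hU : Fq (S.p'.R + 1) S.p'.ε U) : Cv S.p'.R S.p'.ρ (Bx 0 (cC U)) :=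
  (hU.cv48 (h.ε'_le.1.trans (h.Q34.1.trans h.Q34.2))).mono le_rfl h.ε'_le.2

theorem cube {x y : ℝ} (x0 : 0 ≤ x) (hx : x ≤ S.Q ^ 4 * S.g) (hy : y ≤ S.Q ^ 2) :
    y * (S.β * x ^ 3) ≤ 1 / 10 := by
  have g0 := h.g0
  have b0 := h.nu.ok.β0
  have q0 := S.Q0
  have h1 := h.nu.ok.Qg_le (i := 14) (j := 1) (by norm_num)
  have h2 := mul_le_mul_of_nonneg_right (h.nu.cQ' (C := 10) (by norm_num))
    (show 0 ≤ S.Q ^ 14 * S.g by positivity)
  calc _ ≤ S.Q ^ 2 * (S.β * (S.Q ^ 4 * S.g) ^ 3) := by gcongr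
    _ = S.Q ^ 14 * S.g * (S.β * S.g ^ 2) := by ring
    _ ≤ _ := by rw [h.nu.ok.βg]; linarith

theorem ρ_le : S.p.ρ ≤ S.Q ^ 4 * S.g := h.nu.ρ_le.trans (by
  rw [pow_succ' _ 3]
  have := h.g0
  have := S.Q0
  gcongr
  exact h.nu.r_le_Q)

theorem T_fine (hU : Fq (S.p.R + 1) S.p.ε U) :
    S.L ^ 4 * (S.β * ‖S.T (Bx 0 (cC U))‖) ≤ 1 / 10 := by
  have c := h.cv_fine hU
  have l := h.nu.lens
  have e := h.nu.exps
  have l0 := Sd.L0 S.toTd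
  have b0 := h.nu.ok.β0
  have m0 : (0 : ℝ) < (S.M : ℝ) ^ S.K0 := (pow_pos l0 _).trans_le (h.nu.ok.LM_pow _)
  have h1 := h.tok.tc.bd _ _ (c.mono (by rw [Sd.p_R]; omega) le_rfl) (by
    have h2 := h.nu.ok.Qg_le (i := 4) (j := 1) (by norm_num)
    have h3 : (S.M : ℝ) ^ S.K0 ≤ S.Q ^ 1 := (h.nu.M_pow' (by omega)).trans
      ((h.nu.LQ (by omega)).trans_eq (pow_one _).symm)
    rw [inv_eq_one_div, le_div_iff₀ m0, mul_comm]
    exact (mul_le_mul h3 h.ρ_le c.nonneg (by have := S.Q0; positivity)).trans h2)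
  refine le_trans ?_ (h.cube (y := S.L ^ 4 * (S.M : ℝ) ^ S.Kt) c.nonneg h.ρ_le ?_)
  · calc _ ≤ S.L ^ 4 * (S.β * ((S.M : ℝ) ^ S.Kt * S.p.ρ ^ 3)) := by gcongr
      _ = _ := by ring
  · rw [sq]
    exact mul_le_mul (h.nu.LQ (by omega)) ((h.nu.M_pow' (by omega)).trans (h.nu.LQ (by omega)))
      (by positivity) S.Q0.le

theorem b_le (s : S.Sml b θ k ψ K) : 0 ≤ b ∧ 100 * (S.L ^ 4 * b) ≤ 1 := by
  have b0 := pu_nonneg s.pu (h.cv_fine (fq_one (h.nu.ε_ge.trans' (by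
    have := h.g0; have := S.Q0; positivity)))).nonneg
  have h1 := h.nu.mon (C := 100) (i := 4) (j := 0) (by norm_num) (by have := h.nu.exps; omega)
    (by omega)
  have h2 := mul_le_mul_of_nonneg_right (h1.trans (le_self_pow₀ S.Q1 (n := 100) (by norm_num))) b0
  exact ⟨b0, by linarith [s.b_le]⟩

theorem Ix_le (s : S.Sml b θ k ψ K) (x : St) : ‖Ix S.p (S.Φ ψ) U x‖ ≤
    Real.exp (2 - S.β * (cx S.m (Bx x (cC U)) (Bx x (cC U))).re) := by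
  rw [Ix, chi]
  split_ifs with hU
  · rw [one_mul, Complex.norm_exp, Real.exp_le_exp, Bx_eq, sh_cC]
    have h1 := h.T_fine hU
    have h2 := s.pu.2 x _ (Bx_real _ _) (h.cv_fine hU)
    have h3 := h.b_le s
    have h4 : (1 : ℝ) ≤ S.L ^ 4 := one_le_pow₀ (Sd.L1 _)
    have h5 := mul_le_mul_of_nonneg_left (neg_le_of_abs_le (Complex.abs_re_le_norm
      (S.T (Bx 0 (cC (sh x U)))))) h.nu.ok.β0.le
    have h6 := neg_le_of_abs_le (Complex.abs_re_le_norm (ψ x (Bx 0 (cC (sh x U)))))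
    simp only [Sd.Φ, Complex.neg_re, Complex.add_re, Complex.re_ofReal_mul]
    nlinarith [mul_nonneg h.nu.ok.β0.le (norm_nonneg (S.T (Bx 0 (cC (sh x U)))))]
  · simpa using (Real.exp_pos _).le

theorem Ib_le (s : S.Sml b θ k ψ K) (co : Finset St) (y : St) : ‖S.Ib ψ co U y‖ ≤
    Real.exp (2 * S.L ^ 4 - S.β * ∑ x ∈ (box S.l).filter fun x => ¬ x + up S.l y ∈ co,
      (cx S.m (Bx x (cC (sh (up S.l y) U))) (Bx x (cC (sh (up S.l y) U)))).re) := by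
  rw [Sd.Ib, norm_prod]
  refine (prod_le_prod (fun _ _ => norm_nonneg _) fun x _ => h.Ix_le s _).trans ?_
  rw [← Real.exp_sum, Real.exp_le_exp, sum_sub_distrib, mul_sum]
  simp only [← sh_cC, Bx_sh]
  refine sub_le_sub_right ?_ _
  have : (((box S.l).filter fun x => x + up S.l y ∉ co).card : ℝ) ≤ (box S.l).card := by
    exact_mod_cast card_filter_le _ _
  rw [card_box] at this
  rw [sum_const, nsmul_eq_mul, Td.L, LL]
  push_cast at this ⊢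
  linarith

theorem ε'0 : 0 ≤ S.p'.ε := (mul_pos (pow_pos S.Q0 2) h.nu.ok.g'0).le

theorem c1_le : ‖S.c1‖ ≤ 1 := by
  have := nuI_prob (ζ := S.ζ) S.Q0
  have a := h.ga0 (fq_one h.ε'0)
  rw [show cC 1 = 1 from funext fun _ => cS_one] at a
  have h1 := h.nu.ok.Qg_le (i := 7) (j := 1) (by norm_num)
  have h2 := mul_le_mul_of_nonneg_right (h.nu.cQ' (C := 12) (by norm_num))
    (mul_pos (pow_pos S.Q0 7) h.g0).le
  rw [Sd.c1, norm_neg]
  exact norm_log_mean (h.meas_s1 (fun _ => mq_const _) measurable_id) fun z =>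
    (h.s1_le a z).trans (by linarith)

theorem pz_zero (hψ : PU S.p b ψ) : ‖S.pz ψ 0‖ ≤ S.L ^ 4 * b := by
  have := h.pz_le hψ (fq_one h.ε'0)
  rwa [show cC 1 = 1 from funext fun _ => cS_one, Bx_one] at this

theorem Fs_sum (hK : KM S.p S.nf k K) (hk : ∀ X c, 0 ≤ k X c) (y : St) (B : Fld) :
    ‖∑ X ∈ S.X1s, S.Fs (S.Ky K y) X B‖ ≤ 2 * ∑ X ∈ S.X1s, k (trS S.nf (up S.l y) X) ∅ := by
  rw [mul_sum]
  exact norm_sum_le_of_le _ fun X hX => (Sd.Fs_bd h.nu h.ok h.gr (h.nu.LQ (by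
    have := h.nu.exps; omega)) hX (hK.k1_tr h.nu.ok.odd_nf (Sd.X1_dom hX) _) B).trans
    (div_le_self (mul_nonneg zero_le_two (hk _ _)) (Sd.X1_card hX))

variable (s : S.Sml b θ k ψ K) {y : St}
  (hx : ∑ X ∈ S.X1s, k (trS S.nf (up S.l y) X) ∅ ≤ S.L ^ 4 * θ)
include s hx

theorem Fs_small (B : Fld) : ‖∑ X ∈ S.X1s, S.Fs (S.Ky K y) X B‖ ≤ 1 := by
  have h0 := h.Fs_sum s.km s.kn.1 y B
  have h1 := h.nu.mon (C := 2) (i := 4) (j := 0) (by norm_num) (by have := h.nu.exps; omega)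
    (by omega)
  have θ0 : 0 ≤ θ := (sum_nonneg fun _ _ => mul_nonneg (s.kn.1 _ _) (Real.exp_pos _).le).trans
    (s.kn.2 0)
  have h2 := mul_le_mul_of_nonneg_right (h1.trans (le_self_pow₀ S.Q1 (n := 100) (by norm_num))) θ0
  linarith [s.θ_le]

omit s hx in
theorem ten_le : 10 + S.L ^ (2 * S.c + 9) ≤ S.L ^ (2 * S.c + 10) := by
  have h1 : (1 : ℝ) ≤ S.L ^ (2 * S.c + 9) := one_le_pow₀ (Sd.L1 _)
  rw [pow_succ _ (2 * S.c + 9)]
  nlinarith [h.nu.cL' (C := 11) (by norm_num)]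

theorem cX_le : ‖S.cX (S.ψy ψ y) (S.Ky K y)‖ ≤ S.L ^ (2 * S.c + 10) :=
  (norm_sub_le_of_le (norm_add_le_of_le (norm_sub_le_of_le
    (h.fo.dt0_wB (Ho.cv_zero _ (by positivity))) (h.pz_zero (pu_tr s.pu _ _))) (h.Fs_small s hx 0))
    h.c1_le).trans (by linarith [h.ten_le, (h.b_le s).2])

theorem Φ'_le (hU : Fq (S.p'.R + 1) S.p'.ε U) : ‖S.Φ' ψ K y (Bx 0 (cC U)) -
    S.β * cx S.m1 (Bx 0 (cC U)) (Bx 0 (cC U))‖ ≤ 10 := by
  have c := h.cv_coarse hU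
  have l := h.nu.lens
  have e := h.nu.exps
  have b0 := h.nu.ok.β0
  have d1 : (1 : ℝ) ≤ S.D0 := by exact_mod_cast Sd.D1 _
  have r1 := h.fo.ρ_small
  have r2 : 1 / (S.D0 : ℝ) ^ 2 ≤ (S.D0 : ℝ)⁻¹ := by
    rw [one_div]
    exact inv_anti₀ (by linarith) (le_self_pow₀ d1 two_ne_zero)
  have r3 : S.p'.ρ ≤ S.Q ^ 4 * S.g := by
    have := mul_le_mul_of_nonneg_right (h.nu.cQ' (C := 2) (by norm_num)) h.g0.le
    rw [Sd.p'_ρ, pow_succ _ 3, mul_assoc]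
    exact mul_le_mul_of_nonneg_left (by linarith [h.nu.ok.g'g, h.g0]) (pow_pos S.Q0 3).le
  have h1 := (h.nu.T1_tc h.tk).bd _ _ (c.mono (by rw [Sd.p'_R]; omega) le_rfl)
    (by linarith [c.nonneg])
  have h2 := h.cube (y := S.L ^ S.Kt / 2) c.nonneg r3 ((half_le_self (pow_pos (Sd.L0 _) _).le).trans
    ((h.nu.LQ (by omega)).trans (le_self_pow₀ S.Q1 two_ne_zero)))
  have h3 : ‖S.β * S.T1 (Bx 0 (cC U))‖ ≤ 1 / 10 := by
    rw [norm_mul, Complex.norm_real, Real.norm_of_nonneg b0.le]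
    linarith [mul_le_mul_of_nonneg_left h1 b0.le]
  have h4 : ‖S.ol (Bx 0 (cC U))‖ ≤ 1 := (h.fo.ol_le c (by linarith [c.nonneg])).trans (by
    have := h.nu.ok.Qg'_le (i := 3) (j := 1) (by norm_num)
    rw [pow_one, ← Sd.p'_ρ] at this
    nlinarith [c.nonneg, S.Q1])
  have h5 := norm_sub_le_of_le (norm_sub_le_of_le (h.pz_le (pu_tr s.pu S.nf (up S.l y)) hU)
    (h.pz_zero (pu_tr s.pu S.nf (up S.l y))))
    (norm_sub_le_of_le (h.Fs_small s hx (Bx 0 (cC U))) (h.Fs_small s hx 0))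
  refine le_of_eq_of_le (congrArg _ ?_) ((norm_add_le_of_le (norm_add_le_of_le h3 h4) h5).trans
    (by linarith [(h.b_le s).2]))
  simp only [Sd.Φ', Sd.PL, Sd.Pl, Sd.ψy, sum_sub_distrib]
  ring

end Cm.Hp

/-- the sites of a block -/
theorem site_bd (c : ℕ) : ∀ᶠ S in ev c,
    (∀ U, Fq (S.p.R + 1) S.p.ε U → S.L ^ 4 * (S.β * ‖S.T (Bx 0 (cC U))‖) ≤ 1 / 10) ∧
    ∀ b θ k ψ K, S.Sml b θ k ψ K → ∀ co U y, ‖S.Ib ψ co U y‖ ≤
      Real.exp (2 * S.L ^ 4 - S.β * ∑ x ∈ (box S.l).filter fun x => ¬ x + up S.l y ∈ co,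
        (cx S.m (Bx x (cC (sh (up S.l y) U))) (Bx x (cC (sh (up S.l y) U)))).re) :=
  (Cm.ev_hp c).mono fun _ h => ⟨fun _ => h.T_fine, fun _ _ _ _ _ s co _ y => h.Ib_le s co y⟩

/-- the constants and the non quadratic part of the new exponent -/
theorem ex_bd (c : ℕ) : ∀ᶠ S in ev c, ∀ b θ k ψ K, S.Sml b θ k ψ K → ∀ y,
    ‖S.cX (S.ψy ψ y) (S.Ky K y)‖ ≤ S.L ^ (2 * S.c + 10) ∧
    ∀ W, Fq (S.p'.R + 1) S.p'.ε W → ‖S.Φ' ψ K y (Bx 0 (cC W)) -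
      S.β * cx S.m1 (Bx 0 (cC W)) (Bx 0 (cC W))‖ ≤ S.L ^ (2 * S.c + 10) := by
  filter_upwards [Cm.ev_hp c, x1_sum c] with S h hx b θ k ψ K s y
  exact ⟨h.cX_le s (hx k θ s.kn y), fun W hW => (h.Φ'_le s (hx k θ s.kn y) hW).trans
    (le_trans (le_add_of_nonneg_right (pow_pos (Sd.L0 _) _).le) h.ten_le)⟩

end Pool.Agent.Lib.MP_7f377f_mp.RG.Q4
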