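import Pool.Agent.Lib.MP_7f377f_mp.Q4Tree
import Pool.Agent.Lib.MP_7f377f_mp.Q4Op1

/-! The tree step: translation covariance, locality and measurability, for all fields. -/

noncomputable section

namespace Pool.Agent.Lib.MP_7f377f_mp.RG.Q4

open Finset

attribute [local irreducible] box lbox

theorem sh_eb_add (x : St) (f : Lk) (k : Fin 3) : sh x (eb (f.1 + x, f.2) k) = eb f k := by
  funext e
  by_cases h : e = f
  · simp [h, eb]
  · have : ((e.1 + x, e.2) : Lk) ≠ (f.1 + x, f.2) := fun h' => h (by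
      simpa [Prod.ext_iff] using h')
    simp [eb, Pi.single_eq_of_ne h, Pi.single_eq_of_ne this]

theorem norm_eb (f e : Lk) (k : Fin 3) : ‖eb f k e‖ ≤ 1 := by
  by_cases h : e = f
  · simp [h, eb, Pi.norm_single]
  · simp [eb, Pi.single_eq_of_ne h]

theorem real_eb (f : Lk) (k : Fin 3) : RealF (eb f k) := Od.single_real f k

theorem shS_empty (y : St) : shS y ∅ = ∅ := rfl

theorem act_empty {l : ℕ} {f : Lk} : Act l ∅ f ↔ ¬ tree l f :=
  ⟨fun h => h.1, fun h => ⟨h, fun _ _ h => h⟩⟩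

theorem agr_up {α : Type} {l a b : ℕ} {A A' : Lk → α} (h : Agr (fb l (a + b)) A A') {y : St}
    (hy : y ∈ box a) : Agr (fb l b) (sh (up l y) A) (sh (up l y) A') :=
  Agr.sh (R' := a * LL l) (h.mono (by unfold fb; ring_nf; rfl)) (up_mem_box hy)

theorem mem_up {l a b : ℕ} {e : Lk} (he : e ∈ lbox (fb l b)) {y : St} (hy : y ∈ box a) :
    (e.1 + up l y, e.2) ∈ lbox (fb l (a + b)) :=
  mem_lbox.2 (box_mono (by unfold fb; ring_nf; rfl) (add_mem_box (mem_lbox.1 he) (up_mem_box hy)))

theorem fb_zero (l : ℕ) : fb l 0 = l := by simp [fb]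

theorem Ay_agr {l a : ℕ} {W W' : Cf} {A A' : Fld} {y : St} (hy : y ∈ box a) (hW : Agr (a + 1) W W')
    (hA : Agr (fb l (a + 1)) A A') : Agr (3 * l + 1) (Ay l y W A) (Ay l y W' A') := fun e he => by
  have h1 := agr_up hA hy e (by rwa [Op.fb_one])
  have h2 := Op.cmb_agr (iv := star) (Agr.sh (R := 1) (hW.mono (by omega)) hy) (yo_mem_one he)
  simp only [Ay, adF, h1, h2]

section meas

variable {Z : Type} [MeasurableSpace Z] {W : Z → Cf} {A : Z → Fld}

theorem meas_sh (hA : Measurable A) (x : St) : Measurable fun z => sh x (A z) :=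
  measurable_pi_lambda _ fun _ => hA.eval

theorem meas_Ay (hW : ∀ e, MQ fun z => W z e) (hA : Measurable A) (l : ℕ) (y : St) :
    Measurable fun z => Ay l y (W z) (A z) :=
  measurable_pi_lambda _ fun _ => (mq_cmb (U := fun z => sh y (W z)) (fun _ => hW _) _).adq hA.eval

theorem meas_pj (hA : Measurable A) (l : ℕ) (H : Set St) : Measurable fun z => pj l H (A z) :=
  measurable_pi_lambda _ fun e => by
    simp only [pj]
    split_ifs
    exacts [hA.eval, measurable_const]

theorem Od.pol_meas {O : Od} {c : ℕ} (h : O.Ok c) (hW : ∀ e, MQ fun z => W z e) (hA : Measurable A)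
    (p : Polynomial ℂ) (H : Set St) : Measurable fun z => O.pol p H (W z) (A z) := by
  have h1 : ∀ {A : Z → Fld}, Measurable A → Measurable fun z => O.ham (W z) (A z) := fun hA =>
    measurable_pi_lambda _ fun e => by
      simp only [Od.ham_ker h]
      exact Finset.measurable_fun_sum _ fun y _ => Finset.measurable_fun_sum _ fun e' _ =>
        ((mq_cmb (U := fun z => sh _ (W z)) (fun _ => hW _) _).star.adq
          ((mq_cmb (U := fun z => sh _ (W z)) (fun _ => hW _) _).adq hA.eval)).fun_const_smul _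
  have h2 : ∀ k, Measurable fun z => (O.top H (W z))^[k] (pj O.l H (A z)) := fun k => by
    induction k with
    | zero => exact meas_pj hA _ _
    | succ k ih =>
      simp only [Function.iterate_succ_apply']
      exact meas_pj (ih.sub ((h1 (meas_pj ih _ _)).const_smul (O.Λ : ℂ)⁻¹)) _ _
  refine measurable_pi_lambda _ fun e => ?_
  simp only [Od.pol_apply]
  exact Finset.measurable_fun_sum _ fun k _ => (h2 k).eval.fun_const_smul _

end meas

namespace Nt

variable (t : Nt) (W : Cf) (A v a b : Fld) (y y' z : St)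

/-! ### translations -/

theorem FF_sh : t.FF (sh z W) y (sh (up t.O.l z) A) = t.FF W (y + z) A := by
  simp only [FF, sh_sh, up_add]

theorem j1_sh : j1 (t.FF (sh z W) y) (sh (up t.O.l z) A) (sh (up t.O.l z) v) =
    j1 (t.FF W (y + z)) A v := k1_congr fun s => t.FF_sh W (A + s • v) y z

theorem j2_sh : j2 (t.FF (sh z W) y) (sh (up t.O.l z) A) (sh (up t.O.l z) a) (sh (up t.O.l z) b) =
    j2 (t.FF W (y + z)) A a b := kq_congr fun s s' => t.FF_sh W (A + (s • a + s' • b)) y z

theorem grad_sh : t.grad (sh z W) (sh (up t.O.l z) A) = sh (up t.O.l z) (t.grad W A) := by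
  funext f k
  simp only [grad, sh_apply, yo_add_up, add_right_comm _ z, ← j1_sh, sh_eb_add]

theorem nw_sh : t.nw (sh z W) (sh (up t.O.l z) A) = sh (up t.O.l z) (t.nw W A) := by
  rw [nw, grad_sh, ← shS_empty z, Od.pol_sh]
  rfl

theorem iter_sh (j : ℕ) : (t.nw (sh z W))^[j] 0 = sh (up t.O.l z) ((t.nw W)^[j] 0) := by
  induction j with
  | zero => simp only [Function.iterate_zero, id]; rfl
  | succ j ih => rw [Function.iterate_succ_apply', Function.iterate_succ_apply', ih, nw_sh]

theorem As_sh : t.As (sh z W) = sh (up t.O.l z) (t.As W) := t.iter_sh W z _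

theorem Yb_sh : t.Yb (sh z W) y (sh (up t.O.l z) a) (sh (up t.O.l z) b) = t.Yb W (y + z) a b := by
  rw [Yb, As_sh, j2_sh, Ay_sh, Ay_sh, Yb]

theorem xi_sh : t.xi (sh z W) (sh (up t.O.l z) A) (sh (up t.O.l z) v) y y' =
    t.xi W A v (y + z) (y' + z) := by
  simp only [xi, sh_apply, up_add, ← add_assoc, ← j1_sh]
  refine sum_congr rfl fun e _ => sum_congr rfl fun k _ => ?_
  rw [sh_eb_add _ (e.1 + up t.O.l y', e.2)]

theorem L1_sh : t.L1 (sh z W) (sh (up t.O.l z) A) (sh (up t.O.l z) v) y = t.L1 W A v (y + z) := by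
  simp only [L1, xi_sh, add_right_comm _ z]

theorem gv_sh : t.gv (sh z W) (sh (up t.O.l z) A) (sh (up t.O.l z) v) y = t.gv W A v (y + z) := by
  simp only [gv, xi_sh, add_right_comm _ z]

theorem Yq_sh : t.Yq (sh z W) (sh (up t.O.l z) v) y = t.Yq W v (y + z) := by
  simp only [Yq, sh_apply, up_add, ← add_assoc, ← Yb_sh]
  refine sum_congr rfl fun e _ => sum_congr rfl fun k _ => sum_congr rfl fun f _ =>
    sum_congr rfl fun j _ => ?_
  rw [sh_eb_add _ (e.1 + up t.O.l y, e.2), sh_eb_add _ (f.1 + up t.O.l y, f.2)]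

theorem rem3_sh : t.rem3 (sh z W) (sh (up t.O.l z) v) y = t.rem3 W v (y + z) := by
  rw [rem3, As_sh, L1_sh, Yq_sh, Ay_sh, FF_sh, rem3, ← t.FF_sh W (t.As W + v)]
  rfl

theorem a0_sh : t.a0 (sh z W) = t.FF W z (t.As W) - t.L1 W 0 (t.As W) z + t.gv W 0 (t.As W) z := by
  have h1 := t.L1_sh W 0 (t.As W) 0 z
  have h2 := t.gv_sh W 0 (t.As W) 0 z
  have h3 := t.FF_sh W (t.As W) 0 z
  rw [zero_add] at h1 h2 h3
  rw [a0, As_sh, ← h1, ← h2, ← h3]
  rfl

theorem gv_eq : t.gv W A v y = ∑ e ∈ lbox t.O.l, ∑ k,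
    t.grad W A (e.1 + up t.O.l y, e.2) k * v (e.1 + up t.O.l y, e.2) k := by
  simp only [gv, xi, grad, sum_mul]
  rw [sum_comm]
  refine sum_congr rfl fun e he => ?_
  rw [sum_comm, Op.yo_add_box (mem_lbox.1 he)]

theorem nw_tree {f : Lk} (hf : tree t.O.l f) : t.nw W A f = A f := by
  simp [nw, Od.pol_not fun h => act_empty.1 h hf]

theorem iter_tree (j : ℕ) {f : Lk} (hf : tree t.O.l f) : (t.nw W)^[j] 0 f = 0 := by
  induction j with
  | zero => simp only [Function.iterate_zero, id, Pi.zero_apply]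
  | succ j ih => rw [Function.iterate_succ_apply', t.nw_tree _ _ hf, ih]

theorem As_tree {f : Lk} (hf : tree t.O.l f) : t.As W f = 0 := t.iter_tree W _ hf

theorem nw_fix (h : pj t.O.l ∅ (t.grad W A) = 0) : t.nw W A = A := by
  rw [nw, ← Od.pol_pj, h, Od.pol_zero, smul_zero, sub_zero]

variable {t W A v a b y y'} {r c n : ℕ} {τ P δ : ℝ} {m : BF} {s : V →ₗ[ℝ] V} {W' : Cf}
  {A' v' a' b' : Fld}

theorem Yb_symm (h : t.Ok r c τ m s P δ) : t.Yb W y a b = t.Yb W y b a := by
  rw [Yb, Yb, j2, kq_symm, cx_symm h.op.symm, j2]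

/-! ### locality -/

section loc

variable (h : t.Ok r c τ m s P δ)
include h

theorem FF_agr (hy : y ∈ box n) (hW : Agr (n + r / 4 + 2) W W') (hA : Agr (fb t.O.l (n + 1)) A A') :
    t.FF W y A = t.FF W' y A' :=
  h.ge.loc _ _ _ _ (Agr.sh (hW.mono (by omega)) hy) (Op.fb_one _ ▸ agr_up hA hy)

theorem j1_agr (hy : y ∈ box n) (hW : Agr (n + r / 4 + 2) W W') (hA : Agr (fb t.O.l (n + 1)) A A')
    (hv : Agr (fb t.O.l (n + 1)) v v') : j1 (t.FF W y) A v = j1 (t.FF W' y) A' v' :=
  k1_congr fun s => FF_agr h hy hW fun e he => by simp only [Pi.add_apply, Pi.smul_apply, hA e he, hv e he]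

theorem j2_agr (hy : y ∈ box n) (hW : Agr (n + r / 4 + 2) W W') (hA : Agr (fb t.O.l (n + 1)) A A')
    (ha : Agr (fb t.O.l (n + 1)) a a') (hb : Agr (fb t.O.l (n + 1)) b b') :
    j2 (t.FF W y) A a b = j2 (t.FF W' y) A' a' b' :=
  kq_congr fun s s' => FF_agr h hy hW fun e he => by
    simp only [Pi.add_apply, Pi.smul_apply, hA e he, ha e he, hb e he]

theorem grad_agr (hW : Agr (n + r / 4 + 4) W W') (hA : Agr (fb t.O.l (n + 3)) A A') :
    Agr (fb t.O.l n) (t.grad W A) (t.grad W' A') := fun f hf => funext fun k =>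
  sum_congr rfl fun w hw => j1_agr h (add_mem_box (Op.mem_fb.1 (mem_lbox.1 hf)) hw)
    (hW.mono (by omega)) hA fun _ _ => rfl

theorem nw_agr (hW : Agr (n + 6 * t.O.N + r / 4 + 4) W W')
    (hA : Agr (fb t.O.l (n + 6 * t.O.N + 3)) A A') : Agr (fb t.O.l n) (t.nw W A) (t.nw W' A') :=
  fun f hf => by
    have := Od.pol_agr (H := ∅) (H' := ∅) (d := 2 * t.O.N) (a := n) (p := pP t.O.N ^ 2) h.op
      (Polynomial.natDegree_pow_le.trans (by gcongr; exact Op.natDegree_pP _)) (fun _ _ => Iff.rfl)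
      (hW.mono (by omega)) (grad_agr h (hW.mono (by omega))
        (hA.mono (Op.fb_mono _ (by omega)))) f hf
    simp only [nw, Pi.sub_apply, Pi.smul_apply, this, hA f (lbox_mono (Op.fb_mono _ (by omega)) hf)]

theorem iter_agr (j : ℕ) : ∀ {n : ℕ}, Agr (n + j * (6 * t.O.N + 3) + r / 4 + 1) W W' →
    Agr (fb t.O.l n) ((t.nw W)^[j] 0) ((t.nw W')^[j] 0) := by
  induction j with
  | zero => intro n _ e _; simp only [Function.iterate_zero, id]
  | succ j ih =>
    intro n hW
    rw [Function.iterate_succ_apply', Function.iterate_succ_apply']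
    exact nw_agr h (hW.mono (by rw [add_mul]; omega)) (ih (hW.mono (by rw [add_mul]; omega)))

theorem As_agr (hW : Agr (n + t.rA r) W W') : Agr (fb t.O.l n) (t.As W) (t.As W') :=
  iter_agr h _ (hW.mono (by unfold rA; omega))

theorem Yb_agr (hy : y ∈ box n) (hW : Agr (n + 1 + t.rA r) W W')
    (ha : Agr (fb t.O.l (n + 1)) a a') (hb : Agr (fb t.O.l (n + 1)) b b') :
    t.Yb W y a b = t.Yb W' y a' b' := by
  rw [Yb, Yb, j2_agr h hy (hW.mono (by unfold rA; omega)) (As_agr h hW) ha hb,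
    cx_agr h.op.rng (Ay_agr hy (hW.mono (by omega)) ha) (Ay_agr hy (hW.mono (by omega)) hb)]

theorem Yb_zero (hy : y ∈ box n) (ha : Agr (fb t.O.l (n + 1)) a 0) : t.Yb W y a b = 0 := by
  rw [Yb_agr h hy (fun _ _ => rfl) ha (fun _ _ => rfl), Yb, show Ay t.O.l y W 0 = 0 from
    (AyL t.O.l y W).map_zero, cx_zero_left, sub_zero, j2, kq]
  simp only [smul_zero, zero_add, add_zero]
  exact (tendsto_const_nhds.congr fun n => by ring).limUnder_eq

theorem xi_agr (hy : y ∈ box n) {n' : ℕ} (hy' : y' ∈ box n') (hW : Agr (n + r / 4 + 2) W W')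
    (hA : Agr (fb t.O.l (n + 1)) A A') (hv : Agr (fb t.O.l n') v v') :
    t.xi W A v y y' = t.xi W' A' v' y y' := sum_congr rfl fun e he => sum_congr rfl fun k _ => by
  rw [j1_agr h hy hW hA fun _ _ => rfl, hv _ (mem_up (b := 0) (by rwa [fb_zero]) hy')]

theorem L1_agr (hy : y ∈ box n) (hW : Agr (n + r / 4 + 2) W W') (hA : Agr (fb t.O.l (n + 1)) A A')
    (hv : Agr (fb t.O.l (n + 2)) v v') : t.L1 W A v y = t.L1 W' A' v' y :=
  sum_congr rfl fun _ hw => xi_agr h hy (add_mem_box hy hw) hW hA hv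

theorem gv_agr (hy : y ∈ box n) (hW : Agr (n + r / 4 + 4) W W') (hA : Agr (fb t.O.l (n + 3)) A A')
    (hv : Agr (fb t.O.l n) v v') : t.gv W A v y = t.gv W' A' v' y :=
  sum_congr rfl fun _ hw => xi_agr h (add_mem_box hy hw) hy (hW.mono (by omega)) hA hv

theorem Yq_agr (hy : y ∈ box n) (hW : Agr (n + 1 + t.rA r) W W')
    (hv : Agr (fb t.O.l (n + 1)) v v') : t.Yq W v y = t.Yq W' v' y :=
  sum_congr rfl fun e he => sum_congr rfl fun k _ => sum_congr rfl fun f hf =>
    sum_congr rfl fun j _ => by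
      rw [Yb_agr h hy hW (fun _ _ => rfl) fun _ _ => rfl, hv _ (mem_up (by rwa [Op.fb_one]) hy),
        hv _ (mem_up (by rwa [Op.fb_one]) hy)]

theorem rem3_agr (hy : y ∈ box n) (hW : Agr (n + 1 + t.rA r) W W')
    (hv : Agr (fb t.O.l (n + 2)) v v') : t.rem3 W v y = t.rem3 W' v' y := by
  have h1 := As_agr h hW
  have h2 : Agr (n + r / 4 + 2) W W' := hW.mono (by unfold rA; omega)
  have h3 : Agr (fb t.O.l (n + 1)) v v' := hv.mono (Op.fb_mono _ (by omega))
  have h4 := Ay_agr hy (hW.mono (by omega)) h3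
  rw [rem3, rem3, FF_agr h hy h2 h1, L1_agr h hy h2 h1 hv, Yq_agr h hy hW h3, cx_agr h.op.rng h4 h4,
    FF_agr h hy h2 (A' := t.As W' + v') fun e he => by simp only [Pi.add_apply, h1 e he, h3 e he]]

theorem a0_agr (hW : Agr (2 + t.rA r) W W') : t.a0 W = t.a0 W' := by
  have h1 := As_agr h hW
  have h0 := zero_mem_box 0
  rw [a0, a0, FF_agr h h0 (hW.mono (by unfold rA; omega)) (h1.mono (Op.fb_mono _ (by omega))),
    L1_agr h h0 (hW.mono (by unfold rA; omega)) (fun _ _ => rfl) h1,
    gv_agr h h0 (hW.mono (by unfold rA; omega)) (fun _ _ => rfl)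
      (h1.mono (Op.fb_mono _ (by omega)))]

theorem tn_agr (hW : Agr (5 + t.rA r) W W') : t.tn W = t.tn W' := by
  rw [tn, tn, a0_agr h (hW.mono (by omega)), sum_congr rfl fun z hz =>
    a0_agr h (Agr.sh (hW.mono (by omega)) hz)]

end loc

/-! ### measurability -/

section meas

variable {Z : Type} [MeasurableSpace Z] {W : Z → Cf} {A v a b : Z → Fld} (h : t.Ok r c τ m s P δ)
  (hW : ∀ e, MQ fun z => W z e)
include h hW

theorem FF_meas (hA : Measurable A) (y : St) : Measurable fun z => t.FF (W z) y (A z) :=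
  h.ge.meas Z _ _ (fun _ => hW _) (meas_sh hA _)

theorem j1_meas (hA : Measurable A) (hv : Measurable v) (y : St) :
    Measurable fun z => j1 (t.FF (W z) y) (A z) (v z) :=
  k1_meas fun s => FF_meas h hW (hA.add (hv.const_smul s)) y

theorem j2_meas (hA : Measurable A) (ha : Measurable a) (hb : Measurable b) (y : St) :
    Measurable fun z => j2 (t.FF (W z) y) (A z) (a z) (b z) :=
  kq_meas fun s s' => FF_meas h hW (hA.add ((ha.const_smul s).add (hb.const_smul s'))) y

theorem grad_meas (hA : Measurable A) : Measurable fun z => t.grad (W z) (A z) :=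
  measurable_pi_lambda _ fun _ => measurable_pi_lambda _ fun _ =>
    Finset.measurable_fun_sum _ fun _ _ => j1_meas h hW hA measurable_const _

theorem As_meas : Measurable fun z => t.As (W z) := by
  unfold As
  induction t.p with
  | zero => exact measurable_const
  | succ j ih =>
    simp only [Function.iterate_succ_apply']
    exact ih.sub ((Od.pol_meas h.op hW (grad_meas h hW ih) _ _).const_smul (2 * t.O.Λ : ℂ)⁻¹)

theorem Yb_meas (ha : Measurable a) (hb : Measurable b) (y : St) :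
    Measurable fun z => t.Yb (W z) y (a z) (b z) :=
  (j2_meas h hW (As_meas h hW) ha hb y).sub
    (measurable_cx h.op.rng (meas_Ay hW ha _ _) (meas_Ay hW hb _ _))

theorem xi_meas (hA : Measurable A) (hv : Measurable v) (y y' : St) :
    Measurable fun z => t.xi (W z) (A z) (v z) y y' :=
  Finset.measurable_fun_sum _ fun _ _ => Finset.measurable_fun_sum _ fun _ _ =>
    (j1_meas h hW hA measurable_const _).mul hv.eval.eval

theorem L1_meas (hA : Measurable A) (hv : Measurable v) (y : St) :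
    Measurable fun z => t.L1 (W z) (A z) (v z) y :=
  Finset.measurable_fun_sum _ fun _ _ => xi_meas h hW hA hv _ _

theorem gv_meas (hA : Measurable A) (hv : Measurable v) (y : St) :
    Measurable fun z => t.gv (W z) (A z) (v z) y :=
  Finset.measurable_fun_sum _ fun _ _ => xi_meas h hW hA hv _ _

theorem Yq_meas (hv : Measurable v) (y : St) : Measurable fun z => t.Yq (W z) (v z) y :=
  Finset.measurable_fun_sum _ fun _ _ => Finset.measurable_fun_sum _ fun _ _ =>
    Finset.measurable_fun_sum _ fun _ _ => Finset.measurable_fun_sum _ fun _ _ =>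
      (Yb_meas h hW measurable_const measurable_const _).mul (hv.eval.eval.mul hv.eval.eval)

theorem rem3_meas (hv : Measurable v) (y : St) : Measurable fun z => t.rem3 (W z) (v z) y :=
  (((FF_meas h hW ((As_meas h hW).add hv) y).sub (FF_meas h hW (As_meas h hW) y)).sub
    (L1_meas h hW (As_meas h hW) hv y)).sub
    ((measurable_cx h.op.rng (meas_Ay hW hv _ _) (meas_Ay hW hv _ _)).add (Yq_meas h hW hv y))

theorem a0_meas : Measurable fun z => t.a0 (W z) :=
  ((FF_meas h hW (As_meas h hW) 0).sub (L1_meas h hW measurable_const (As_meas h hW) 0)).add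
    (gv_meas h hW measurable_const (As_meas h hW) 0)

theorem tn_meas : Measurable fun z => t.tn (W z) :=
  ((a0_meas h hW).add ((Finset.measurable_fun_sum _ fun x _ =>
    a0_meas h (W := fun z => sh x (W z)) fun _ => hW _).const_mul _)).const_mul _

end meas

end Nt

end Pool.Agent.Lib.MP_7f377f_mp.RG.Q4
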