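import Pool.Agent.Lib.MP_7f377f_mp.Q4OpK2
import Pool.Agent.Lib.MP_7f377f_mp.Q4TrB
import Pool.Agent.Lib.MP_7f377f_mp.Q4BudA

/-! The Gaussian exponent of a region is bounded by the Gaussian weight of its neighbourhood. -/

noncomputable section

namespace Pool.Agent.Lib.MP_7f377f_mp.RG.Q4

open Finset Polynomial Od

/-- the part of the Gaussian exponent carried by the block `y` -/
def gx (l : ℕ) (Λ : ℝ) (N : ℕ) (H : Set St) (ka : St → Kf) (z : Fld) (y : St) : ℂ :=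
  (2 * Λ : ℂ)⁻¹ * qk l (ka y) (sh (up l y) (polK l Λ (pP N) H ka z))
      (sh (up l y) (polK l Λ (pP N) H ka z)) +
    2⁻¹ * ∑ t ∈ lbox l, dot (sh (up l y) z t) (sh (up l y) (polK l Λ (pU N) H ka z) t)

variable {l N c n : ℕ} {Λ δ ζ : ℝ} {H : Set St} {ka : St → Kf} {z z' : Fld} {y : St} {O : Od}
  {W0 : Conf}

theorem domv_cu (n : ℕ) : domv (cu n) = box (n / 2) := rfl

theorem gx_total {n : Fin 4 → ℕ} (hΛ : Λ ≠ 0) (hn : ∀ i, Odd (n i)) (hH : PerS n H)
    (hk : PerK n ka) (hs : ∀ y, Ks (ka y)) (hz : PerV (fi l n) z) :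
    ∑ y ∈ domv n, gx l Λ N H ka z y = 2⁻¹ * bp n l z (pj l H z) := by
  have h := quad_idK (N := N) hΛ hn hH hk hs hz
  have h2 := (bpL n l z).map_sub (pj l H z) (polK l Λ (pU N) H ka z)
  have hΛ' : (Λ : ℂ) ≠ 0 := by exact_mod_cast hΛ
  simp only [gx, sum_add_distrib, ← mul_sum]
  change _ * QK n l ka _ _ + _ * bp n l z _ = _
  change bp n l z _ = bp n l z _ - bp n l z _ at h2
  rw [h, h2]
  field_simp
  ring

theorem gx_pj : gx l Λ N H ka (pj l H z) y = gx l Λ N H ka z y := by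
  simp only [gx, polK_pj]
  congr 2
  refine sum_congr rfl fun t _ => ?_
  by_cases ht : Act l H (t.1 + up l y, t.2)
  · simp only [sh, pj_act ht]
  · simp only [sh, polK_not ht, dot_zero]

theorem gx_agr (h : Agr (fb l (4 * N + 2)) (sh (up l y) z) (sh (up l y) z')) (N1 : 1 ≤ N) :
    gx l Λ N H ka z y = gx l Λ N H ka z' y := by
  have key : ∀ (p : ℂ[X]) (d r : ℕ), p.natDegree ≤ d → r + 2 * d ≤ 4 * N + 2 →
      Agr (fb l r) (sh (up l y) (polK l Λ p H ka z)) (sh (up l y) (polK l Λ p H ka z')) := by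
    intro p d r hp hr
    rw [← polK_sh, ← polK_sh]
    exact polK_agr hp (fun _ _ => Iff.rfl) (fun _ _ _ => Kc.refl _ le_rfl)
      (h.mono (Op.fb_mono _ hr))
  have h1 := key _ N 1 (Op.natDegree_pP N) (by omega)
  have h2 := key _ (2 * N + 1) 0 (natDegree_pU N) (by omega)
  rw [fb_zero] at h2
  rw [show fb l 1 = 3 * l + 1 by simp [fb, LL]; ring] at h1
  rw [gx, gx, qk_agr h1 h1]
  congr 2
  refine sum_congr rfl fun t ht => ?_
  rw [h2 t ht, h.mono (R' := l) (by simp [fb]) t ht]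

theorem gx_zero : gx l Λ N H ka 0 y = 0 := by
  simp [gx, polK_zero, qk, sh, dot]

theorem qk_sub {k k' : Kf} {a : Fld} {σ : ℝ} (h : Kc l δ k k') (ha : Sm (3 * l + 1) σ a) :
    ‖qk l k a a - qk l k' a a‖ ≤ δ * (12 * (3 * LL l : ℝ) ^ 4 * σ) ^ 2 := by
  have hc : ((lbox (3 * l + 1)).card : ℝ) = 4 * (3 * LL l : ℝ) ^ 4 := by
    rw [card_lbox]; push_cast [LL]; ring
  have δ0 := h.nonneg
  have σ0 := ha.nonneg
  simp only [qk, ← sum_sub_distrib, ← sub_mul]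
  have key : ∀ e ∈ lbox (3 * l + 1), ∀ i, ∀ e' ∈ lbox (3 * l + 1), ∀ j,
      ‖(k e i e' j - k' e i e' j) * (a e i * a e' j)‖ ≤ δ * (σ * σ) := fun e he i e' he' j => by
    rw [norm_mul, norm_mul]
    exact mul_le_mul (h e he i e' he' j) (mul_le_mul ((norm_le_pi_norm _ i).trans (ha e he))
      ((norm_le_pi_norm _ j).trans (ha e' he')) (norm_nonneg _) σ0) (by positivity) δ0
  refine (norm_sum_le_of_le _ fun e he => norm_sum_le_of_le _ fun i _ =>
    norm_sum_le_of_le _ fun e' he' => norm_sum_le_of_le _ fun j _ => key e he i e' he' j).trans_eq ?_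
  simp only [sum_const, card_univ, Fintype.card_fin, nsmul_eq_mul, hc]
  push_cast
  ring

theorem qk_not (h : ¬ Nf H y) {a : Fld} (ha : ∀ f, ¬ Act l H f → a f = 0) (k : Kf) :
    qk l k (sh (up l y) a) (sh (up l y) a) = 0 := by
  have : Agr (3 * l + 1) (sh (up l y) a) 0 := fun e he => ha _ fun hf => h
    ⟨yo l e.1, yo_mem_one he, by
      have := hf.2
      rwa [Op.yo_add_up, add_comm] at this⟩
  rw [qk_agr this this]
  simp [qk]

/-- lower bound of the exponent of a calm block -/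
theorem gx_low (h : O.Ok c) (hδ : (LL O.l : ℝ) ^ (2 * c + 10) * δ ≤ 1) (δ0 : 0 ≤ δ)
    (hr : ∀ y, Nf H y → Kr (ka y)) (hz : RealF z)
    (hg : ∀ x ∈ box (4 * O.N + 4), Gk O δ H ka (cC W0) W0 (x + y))
    (hA : Sm (fb O.l (4 * O.N + 3)) ζ (sh (up O.l y) z)) :
    -(((LL O.l : ℝ) ^ (12 * c + 42) * δ + 6 * (LL O.l : ℝ) ^ 4 * Real.exp (-(O.l : ℝ) ^ 2)) * ζ ^ 2) ≤
      (gx O.l O.Λ O.N H ka z y).re := by
  have ζ0 := hA.nonneg
  have key := fun (t : Lk) (ht : t ∈ lbox (3 * O.l + 1)) => polK_pP (A := z) (a := ζ) h hδ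
    (t.1 + up O.l y, t.2) (fun x hx => by
      rw [Op.yo_add_up, ← add_assoc]
      exact hg _ (box_mono (by omega) (add_mem_box hx (yo_mem_one ht)))) (by
      rw [Op.yo_add_up, up_add, ← sh_sh]
      exact fun e he => hA _ (lbox_mono (Op.fb_mono _ (by omega)) (mem_up he (yo_mem_one ht))))
  have hL := h.LL_ge
  have h3 := h.lam_ge
  have h1 : -((LL O.l : ℝ) ^ (12 * c + 42) * δ * ζ ^ 2) ≤ ((2 * O.Λ : ℂ)⁻¹ * qk O.l (ka y)
      (sh (up O.l y) (polK O.l O.Λ (pP O.N) H ka z))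
      (sh (up O.l y) (polK O.l O.Λ (pP O.N) H ka z))).re := by
    by_cases hy : Nf H y
    · have hk := (hg 0 (zero_mem_box _)).2
      rw [zero_add] at hk
      have h4 := qk_sub (hk hy) (a := sh (up O.l y) (polK O.l O.Λ (pP O.N) H ka z))
        fun t ht => (key t ht).1
      rw [qk_kh_sh h.rng] at h4
      have h5 := cx_nonneg h (Ay_real (l := O.l) (W0 := W0) y
        (polK_real (l := O.l) (Λ := O.Λ) (fun k => (coeff_real O.N k).1) hr hz))
      have h6 := (abs_le.1 ((Complex.abs_re_le_norm _).trans h4)).1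
      rw [Complex.sub_re] at h6
      rw [show (2 * O.Λ : ℂ)⁻¹ = (((2 * O.Λ)⁻¹ : ℝ) : ℂ) by push_cast; rfl, Complex.re_ofReal_mul]
      have h7 : (2 * O.Λ)⁻¹ ≤ 1 := inv_le_one_of_one_le₀ (by linarith)
      have h8 : 0 ≤ (2 * O.Λ)⁻¹ := by positivity
      have h9 : δ * (12 * (3 * LL O.l : ℝ) ^ 4 * ((LL O.l : ℝ) ^ (6 * c + 16) * ζ)) ^ 2 ≤
          (LL O.l : ℝ) ^ (12 * c + 42) * δ * ζ ^ 2 := by
        calc _ = 972 ^ 2 * ((LL O.l : ℝ) ^ (12 * c + 40) * δ * ζ ^ 2) := by ring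
          _ ≤ (LL O.l : ℝ) ^ 2 * ((LL O.l : ℝ) ^ (12 * c + 40) * δ * ζ ^ 2) := by gcongr; linarith
          _ = _ := by ring
      have h10 : 0 ≤ (LL O.l : ℝ) ^ (12 * c + 42) * δ * ζ ^ 2 := by positivity
      nlinarith
    · rw [qk_not hy fun f => polK_not, mul_zero, Complex.zero_re, neg_nonpos]
      positivity
  have h2 : ‖∑ t ∈ lbox O.l, dot (sh (up O.l y) z t)
      (sh (up O.l y) (polK O.l O.Λ (pU O.N) H ka z) t)‖ ≤
      12 * (LL O.l : ℝ) ^ 4 * Real.exp (-(O.l : ℝ) ^ 2) * ζ ^ 2 := by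
    refine (norm_sum_le_of_le _ fun t ht => (norm_dot _ _).trans (mul_le_mul
      (mul_le_mul_of_nonneg_left (hA.mono (R' := O.l) (by simp [fb]) le_rfl t ht) (by norm_num))
      (key t (lbox_mono (by omega) ht)).2.2 (norm_nonneg _) (by positivity))).trans_eq ?_
    rw [sum_const, card_lbox, nsmul_eq_mul]
    push_cast [LL]
    ring
  have h4 := (abs_le.1 ((Complex.abs_re_le_norm _).trans h2)).1
  rw [gx, Complex.add_re, show (2⁻¹ : ℂ) = ((2⁻¹ : ℝ) : ℂ) by push_cast; rfl,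
    Complex.re_ofReal_mul]
  linarith

/-- the exponent of a region `Om` with calm surroundings -/
theorem gauss_loc (h : O.Ok c) (hδ : (LL O.l : ℝ) ^ (2 * c + 10) * δ ≤ 1) (δ0 : 0 ≤ δ)
    (hn : Odd n) (hH : PerS (cu n) H) (hk : PerK (cu n) ka) (hs : ∀ y, Ks (ka y))
    (hr : ∀ y, Nf H y → Kr (ka y)) (hg : ∀ y, Gk O δ H ka (cC W0) W0 y) {z : Lk → E3}
    (hz : Per (LL O.l * n) z) {Om : Finset St} (hO : ∀ y ∈ Om, rc n y = y) (ζ0 : 0 ≤ ζ)
    (hc : ∀ y ∈ tb n (8 * O.N + 4) Om, y ∉ Om → ∀ e ∈ lbox (fb O.l (4 * O.N + 3)),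
      Act O.l H (e.1 + up O.l y, e.2) → ‖z (e.1 + up O.l y, e.2)‖ ≤ ζ) :
    ∑ y ∈ Om, (gx O.l O.Λ O.N H ka (fun f => cE (z f)) y).re ≤
      ∑ f ∈ (ldom (LL O.l * n)).filter fun f => yo O.l f.1 ∈ tb n (4 * O.N + 2) Om, ‖z f‖ ^ 2 / 2 +
      (tb n (8 * O.N + 4) Om).card * (((LL O.l : ℝ) ^ (12 * c + 42) * δ +
        6 * (LL O.l : ℝ) ^ 4 * Real.exp (-(O.l : ℝ) ^ 2)) * ζ ^ 2) := by
  classical
  set S := tb n (4 * O.N + 2) Om with hS
  set η := ((LL O.l : ℝ) ^ (12 * c + 42) * δ +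
    6 * (LL O.l : ℝ) ^ 4 * Real.exp (-(O.l : ℝ) ^ 2)) * ζ ^ 2 with hη
  have η0 : 0 ≤ η := by positivity
  have N1 : 1 ≤ O.N := by rw [h.num]; exact Nat.one_le_pow _ _ (by simp [LL])
  have hn' : ∀ i, Odd (cu n i) := fun _ => hn
  have hzp : PerV (fi O.l (cu n)) z := perV_cu.2 hz
  let zt : Fld := pj O.l H fun f => if rc n (yo O.l f.1) ∈ S then cE (z f) else 0
  have hp : PerV (fi O.l (cu n)) zt := pj_per hH fun v => funext fun f => by
    have h1 : rc n (yo O.l (f.1 + pv (fi O.l (cu n)) v)) = rc n (yo O.l f.1) := by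
      rw [← up_pv, Op.yo_add_up]
      exact rcv_add (n := cu n) _ v
    simp only [sh, h1, hzp.app f.1 v f.2]
  have hre : RealF zt := pj_real fun e k => by split_ifs <;> simp [cE]
  have hsub : Om ⊆ box (n / 2) := fun y hy => hO y hy ▸ rcv_mem hn' y
  have e1 : ∀ y ∈ Om, gx O.l O.Λ O.N H ka (fun f => cE (z f)) y = gx O.l O.Λ O.N H ka zt y :=
    fun y hy => by
      rw [gx_pj]
      refine gx_agr (fun e he => ?_) N1
      rw [sh, sh, if_pos]
      rw [Op.yo_add_up, add_comm]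
      exact mem_image_of_mem _ (add_mem_add hy (Op.mem_fb.1 (mem_lbox.1 he)))
  have e2 : ∀ y ∈ box (n / 2) \ Om, -(gx O.l O.Λ O.N H ka zt y).re ≤
      if y ∈ tb n (8 * O.N + 4) Om then η else 0 := fun y hy => by
    split_ifs with h1
    · rw [neg_le]
      refine gx_low h hδ δ0 hr hre (fun x _ => hg _) fun e he => ?_
      by_cases ha : Act O.l H (e.1 + up O.l y, e.2)
      · simp only [sh, zt, pj_act ha]
        split_ifs
        · exact (norm_cE _).1.trans (hc y h1 (mem_sdiff.1 hy).2 e he ha)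
        · simpa
      · simpa only [sh, zt, pj_not ha, norm_zero]
    · rw [gx_pj, gx_agr (z' := 0) (fun e he => ?_) N1, gx_zero]
      · simp
      rw [sh, sh, if_neg, Pi.zero_apply]
      intro h2
      refine h1 (mem_tb'.2 ⟨rcv_eq hn' (mem_sdiff.1 hy).1, fun h3 => (mem_tb'.1 h2).2 ?_⟩)
      rw [far_rc, Op.yo_add_up, add_comm (yo _ _)]
      exact Far.add (h3.mono (by omega)) (Op.mem_fb.1 (mem_lbox.1 he))
  have e3 := congrArg Complex.re (gx_total (N := O.N) h.lam_pos.ne' hn' hH hk hs hp)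
  rw [domv_cu, Complex.re_sum, ← sum_sdiff hsub] at e3
  have e4 := sum_le_sum e2
  rw [sum_neg_distrib, ← sum_filter, sum_const, nsmul_eq_mul] at e4
  have e5 : (((box (n / 2) \ Om).filter fun y => y ∈ tb n (8 * O.N + 4) Om).card : ℝ) * η ≤
      (tb n (8 * O.N + 4) Om).card * η := mul_le_mul_of_nonneg_right
    (Nat.cast_le.2 (card_le_card fun y hy => (mem_filter.1 hy).2)) η0
  have e6 : (2⁻¹ * bp (cu n) O.l zt (pj O.l H zt)).re ≤
      ∑ f ∈ (ldom (LL O.l * n)).filter fun f => yo O.l f.1 ∈ S, ‖z f‖ ^ 2 / 2 := by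
    rw [sum_filter, show ldom (LL O.l * n) = domv (fi O.l (cu n)) ×ˢ univ from rfl,
      sum_fine hn', show (2⁻¹ : ℂ) = ((2⁻¹ : ℝ) : ℂ) by push_cast; rfl, Complex.re_ofReal_mul, bp,
      pj_pj, Complex.re_sum, mul_sum]
    refine sum_le_sum fun y hy => ?_
    rw [Complex.re_sum, mul_sum]
    refine sum_le_sum fun t ht => ?_
    have h1 : yo O.l (t.1 + up O.l y) = y := Op.yo_add_box (mem_lbox.1 ht) y
    have h2 : rc n y = y := rcv_eq hn' hy
    by_cases ha : Act O.l H (t.1 + up O.l y, t.2)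
    · simp only [sh, zt, pj_act ha, h1, h2]
      split_ifs
      · rw [dot_cE_self, Complex.ofReal_re]
        linarith
      · simp
    · simp only [sh, zt, pj_not ha, dot_zero, Complex.zero_re, mul_zero]
      positivity
  rw [sum_congr rfl fun y hy => congrArg Complex.re (e1 y hy)]
  linarith

end Pool.Agent.Lib.MP_7f377f_mp.RG.Q4
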