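import Pool.Agent.Lib.MP_7f377f_mp.Q4HoB
import Pool.Agent.Lib.MP_7f377f_mp.Q4Int

/-! The Gaussian exponent of the region which is not calm. -/

noncomputable section

namespace Pool.Agent.Lib.MP_7f377f_mp.RG.Q4.Sd.Hs

open Finset Hj
open scoped Classical

attribute [local irreducible] box tb rc tau

variable {S : Sd} {W : Conf} {v : VB} {O : Finset Ob} {ψ : Lx} (h : S.Hs)
include h

theorem Eg_le (W : Conf) (v : VB) (y : St) : (S.Eg (sh y W) (vz S.l (shv y v))).re ≤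
    (gx S.l S.Λ S.N (S.H W) (S.ka (cC W)) (cF (vz S.l v)) y).re + S.L ^ (2 * S.c + 9) -
      S.β * (S.tel (cC (sh y W)) (S.vy W v y)).re := by
  have h1 := (Complex.re_le_norm _).trans (h.fo.dtH_le (sh y W))
  have h2 : (2 * S.Λ : ℂ)⁻¹ = S.β * (S.gt * S.gt) := by
    refine inv_eq_of_mul_eq_one_right ?_
    have := congrArg Complex.ofReal h.ok.βgt
    push_cast at this
    linear_combination this
  have h3 : S.β * qk S.l (S.kd (cC (sh y W))) (S.vy W v y) (S.vy W v y) +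
      (∑ f ∈ lbox S.l, dot (cF (vz S.l (shv y v)) f)
        (S.pol (pU S.N) (sh y W) (cF (vz S.l (shv y v))) f)) / 2 =
      gx S.l S.Λ S.N (S.H W) (S.ka (cC W)) (cF (vz S.l v)) y := by
    have e : cF (vz S.l (shv y v)) = sh (up S.l y) (cF (vz S.l v)) := by rw [vz_shv]; rfl
    rw [gx, h2, vy, vH, e, pol_sh, pol_sh, div_eq_inv_mul, mul_assoc]
    congr 2
    exact ((qkL S.l _).map_smul₂ _ _ _).trans ((congrArg _ ((qkL S.l _ _).map_smul _ _)).trans
      (mul_assoc _ _ _).symm)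
  rw [Eg, ← vy, h3, Complex.sub_re, Complex.add_re, Complex.re_ofReal_mul]
  linarith

theorem gx_le (H : S.Nv W v O ψ) :
    ∑ y ∈ S.Oh O, (gx S.l S.Λ S.N (S.H W) (S.ka (cC W)) (cF (vz S.l v)) y).re ≤
      ∑ f ∈ (ldom (LL S.l * S.n)).filter fun f => yo S.l f.1 ∈ tb S.n (6 * S.D0) (S.HD O),
        ‖vz S.l v f‖ ^ 2 / 2 + (tb S.n (6 * S.D0) (S.HD O)).card := by
  have ln := h.nu.lens
  have Q0 := S.Q0
  have g0 := h.ok.g'0
  have L0 := L0 S.toTd
  have sub : ∀ a ≤ S.D0, tb S.n a (S.Oh O) ⊆ tb S.n (6 * S.D0) (S.HD O) := fun a ha => by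
    rw [Oh, tb_tb]; exact tb_mono Subset.rfl (by omega)
  refine (gauss_loc (O := S.t.O) h.fo.op h.fo.hδ (mul_nonneg (Nat.cast_nonneg _) h.fo.ε0.le) h.ok.odd
    (H_per H.per) (ka_per H.per) (Td.ka_symm _) (h.fo.kr W) (h.fo.gk W) (per_vz H.ps)
    (fun y hy => (mem_tb'.1 hy).1) Q0.le fun y hy hn e he ha => ?_).trans (add_le_add
      (sum_le_sum_of_subset_of_nonneg (monotone_filter_right _ fun f _ hf =>
        sub _ (show 4 * S.N + 2 ≤ _ by omega) hf) fun _ _ _ => by positivity) ?_)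
  · have hu := Op.mem_fb.1 (mem_lbox.1 he)
    obtain ⟨h1, h2⟩ := mem_tb'.1 (sub _ (show 8 * S.N + 4 ≤ _ by omega) hy)
    have h3 : Far S.n (5 * S.D0) (S.HD O) y := not_not.1 fun h' => hn (mem_tb'.2 ⟨h1, h'⟩)
    have h4 := H.gd1 (near_mono (near_add h2 hu) (show 6 * S.D0 + (4 * S.N + 3) ≤ _ by omega)
      Subset.rfl) fun hd => (Far.add' (a := 0) (h3.mono (show 0 + (4 * S.N + 3) ≤ _ by omega))
        hu).not_mem (mem_union_right _ hd)
    exact ((Cov.gd_iff.1 (h4 ▸ one_ne_zero)).1 _ (yo_add_up _ _ _) ha.1).1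
  · refine (mul_le_of_le_one_right (Nat.cast_nonneg _) ?_).trans (by
      exact_mod_cast card_le_card (sub _ (show 8 * S.N + 4 ≤ _ by omega)))
    have h1 := h.nu.mon (C := 2) (i := 12 * S.c + 42) (j := 1) (by norm_num)
      (by have := h.nu.exps; omega) (by norm_num)
    have h2 := h.nu.mon (C := 12) (i := 4) (j := 0) (by norm_num)
      (by have := h.nu.exps; omega) (by norm_num)
    have h3 := h.nu.exp_g (i := 3) (j := 0) h.nu.r_le_lsq (by norm_num) (by norm_num)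
    have h4 := h.ok.Qg'_le (i := 4) (j := 1) (by norm_num)
    change (S.L ^ _ * (S.D0 * (S.Q ^ 2 * S.g')) + 6 * S.L ^ 4 * Real.exp (-(S.l : ℝ) ^ 2)) *
      S.Q ^ 2 ≤ 1
    nlinarith [mul_le_mul_of_nonneg_right h1 (show 0 ≤ S.Q ^ 4 * S.g' by positivity),
      mul_le_mul_of_nonneg_right h2
        (show 0 ≤ S.Q ^ 2 * Real.exp (-(S.l : ℝ) ^ 2) by positivity)]

end Pool.Agent.Lib.MP_7f377f_mp.RG.Q4.Sd.Hs
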