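import Pool.Agent.Lib.MP_7f377f_mp.Q4HoM
import Pool.Agent.Lib.MP_7f377f_mp.Q4HoM2
import Pool.Agent.Lib.MP_7f377f_mp.Q4HoBig
import Pool.Agent.Lib.MP_7f377f_mp.Q4HoO
import Pool.Agent.Lib.MP_7f377f_mp.Q4HoX
import Pool.Agent.Lib.MP_7f377f_mp.Q4HoN
import Pool.Agent.Lib.MP_7f377f_mp.Q4HoG
import Pool.Agent.Lib.MP_7f377f_mp.Q4Obj
import Pool.Agent.Lib.MP_7f377f_mp.Q4CalmF

/-! The bound of the weight of a family of objects. -/

noncomputable section

namespace Pool.Agent.Lib.MP_7f377f_mp.RG.Q4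

open Finset Hj MeasureTheory
open scoped Classical

attribute [local irreducible] box tb rc tau

namespace Sd.Hs

variable {S : Sd} {W : Conf} {v : VB} {O : Finset Ob} {ψ : Lx} {K : Ac} {y : St} {b : ℝ} {k : Mj}
  (h : S.Hs) (H : S.Nv W v O ψ)
include h H

/-- the functions of the budget -/
theorem bf : Bf S.bp (CC O) (Wk O) (Dbl O) (S.Nz W v O) (S.Oh O) (S.eE W v O) (S.rE W v O)
    (S.tE W) (S.tE W) (S.hE W v) (fs W) (S.xE W v) where
  om := rfl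
  cc C hC := let ⟨h1, _, _, h2, h3⟩ := cc_sub H.sub hC
    ⟨h1, fun _ hx => rc_eq h.ok.odd_nf (h3 (h2 hx))⟩
  wm _ hy := rc_eq h.ok.odd (wk_dom H.sub hy)
  dd _ hy := rc_eq h.ok.odd (dbl_dom H.sub hy)
  nz := filter_subset _ _
  pe := H.pf fun W v y => eG S.l S.m S.β (fun x => x + up S.l y ∈ cor O) (S.Uv W v) W (vo v)
  prg := H.pf fun W v y => S.p.lam * rG S.l (fun x => x + up S.l y ∈ cor O) (S.Uv W v)
  pt := H.pf fun W _ _ => S.β * (cx S.m1 (Bx 0 (cC W)) (Bx 0 (cC W))).re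
  ph := H.pf fun W v _ => S.β * (cx (hh S.l S.m) (Ay S.l 0 (cC W) (S.vH W (vz S.l v)))
    (Ay S.l 0 (cC W) (S.vH W (vz S.l v)))).re
  prW y := by
    have := H.pf (fun W _ _ => fs W 0) y
    simp only [fs_sh, zero_add] at this
    exact this
  pxi u := H.pf fun W v _ => S.β * (S.xf (cC W) (S.vH W (vz S.l v)) u).re
  e0 _ _ := eG_nonneg h.tok.lin.psd h.ok.β0.le _ _ _ _
  rg0 _ _ := mul_nonneg (Real.sqrt_nonneg _) (sum_nonneg fun _ _ => fs_nonneg _ _)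
  rW0 := fs_nonneg W
  tay y hy hf := let ⟨a1, a2, a3, a4⟩ := h.bf_tay H hy hf
    ⟨a1, by linarith [h.tE0 W y], h.hE0 W v y, a2, by linarith, a3, fun u hu _ => a4 u hu⟩
  m4 _ hy := h.bf_m4 H hy
  bad _ hy := h.bf_bad H hy
  new _ := h.bf_new H
  noi _ := h.bf_noi H
  m1 _ hy hw := (h.bf_m1 H hy hw).1
  m2 _ hy hw := (h.bf_m1 H hy hw).2
  big _ hy hf := h.bf_big H hy (hf.mono (by
    show S.D0 + S.w ≤ S.D0 + _ + _ + S.w; omega))

/-- the factor of a block which is not calm -/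
theorem hf_le (p0 : 0 < S.p0) (gn : ∀ W v, ‖S.Gn W v‖ ≤ S.p0 * Real.exp (S.L ^ 5 -
      S.β * (LL S.l : ℝ) ^ 2 * ∑ μ, noG S.l (S.Uv W v) W (vo v) μ ^ 2 + (S.Eg W (vz S.l v)).re))
    (ib : ∀ co U y, ‖S.Ib ψ co U y‖ ≤
      Real.exp (2 * S.L ^ 4 - S.β * ∑ x ∈ (box S.l).filter fun x => ¬ x + up S.l y ∈ co,
        (cx S.m (Bx x (cC (sh (up S.l y) U))) (Bx x (cC (sh (up S.l y) U)))).re))
    (ex : ‖S.cX (S.ψy ψ y) (S.Ky K y)‖ ≤ S.L ^ (2 * S.c + 10) ∧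
      ∀ W, Fq (S.p'.R + 1) S.p'.ε W → ‖S.Φ' ψ K y (Bx 0 (cC W)) -
        S.β * cx S.m1 (Bx 0 (cC W)) (Bx 0 (cC W))‖ ≤ S.L ^ (2 * S.c + 10)) (hy : y ∈ S.Oh O) :
    ‖S.hf ψ K W v O y‖ ≤ S.p0 * Real.exp (6 * S.L ^ (2 * S.c + 10) +
      (gx S.l S.Λ S.N (S.H W) (S.ka (cC W)) (cF (vz S.l v)) y).re +
      (if y ∈ (S.lab W O).biUnion id then 0 else S.tE W y) -
      (S.eE W v O y + ∑ u ∈ box 3, (S.xE W v (y + u) (-u) - S.xE W v y u))) := by
  have e1 := h.Eg_le W v y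
  have e2 := (Complex.re_le_norm (-_)).trans ((norm_neg _).trans_le ex.1)
  have e3 : (if y ∈ (S.lab W O).biUnion id then 0 else S.Φ' ψ K y (Bx y (cC W))).re ≤
      S.L ^ (2 * S.c + 10) + if y ∈ (S.lab W O).biUnion id then 0 else S.tE W y := by
    split_ifs with hl
    · simpa using (pow_pos (L0 S.toTd) _).le
    have := (Complex.re_le_norm _).trans (ex.2 _ (H.sup.2 y (mem_sdiff.2 ⟨hd_din H.sub (by
      have := h.nu.lens; omega) hy, hl⟩)))
    rw [Complex.sub_re, Complex.re_ofReal_mul, ← sh_cC, Bx_sh, zero_add] at this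
    rw [tE, ← sh_cC, Bx_sh, zero_add]
    linarith
  rw [hf, norm_mul, norm_mul, Complex.norm_exp]
  refine (mul_le_mul_of_nonneg_right (mul_le_mul (gn _ _) (ib _ _ _) (norm_nonneg _)
    (by positivity)) (Real.exp_pos _).le).trans ?_
  rw [mul_assoc, mul_assoc, ← Real.exp_add, ← Real.exp_add, Complex.add_re, sum_xE, eE, eG]
  refine mul_le_mul_of_nonneg_left (Real.exp_le_exp.2 ?_) p0.le
  simp only [cy, (mem_tb'.1 hy).1, ← Uy_eq, cor]
  unfold Uy at *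
  linarith [pw S.toTd (show 5 ≤ 2 * S.c + 10 by omega), pw S.toTd (show 4 ≤ 2 * S.c + 10 by omega),
    pw S.toTd (show 2 * S.c + 9 ≤ 2 * S.c + 10 by omega)]

theorem df_le (p0 : 0 < S.p0) : ∏ y ∈ us S.sp O, ‖S.df v O y‖ ≤
    S.p0⁻¹ ^ (tb S.n (6 * S.D0) (S.HD O)).card *
      ∏ y ∈ us S.sp O \ tb S.n (6 * S.D0) (S.HD O), gd S.l S.ζ (v y) / S.p0 := by
  rw [← prod_sdiff ((tb_mono Subset.rfl (show 6 * S.D0 ≤ 13 * S.D0 by omega)).trans (hd_sp H.sub)),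
    mul_comm, ← prod_const]
  have g : ∀ y, 0 ≤ gd S.l S.ζ (v y) ∧ gd S.l S.ζ (v y) ≤ 1 := fun y => by
    rcases Cov.gd_cases S.l S.ζ (v y) with e | e <;> simp [e]
  refine mul_le_mul (prod_le_prod (fun _ _ => norm_nonneg _) fun y _ => ?_)
    (prod_le_prod (fun _ _ => norm_nonneg _) fun y hy => ?_)
    (prod_nonneg fun _ _ => norm_nonneg _) (prod_nonneg fun _ _ => (inv_pos.2 p0).le)
  · rw [Sd.df, Complex.norm_real, norm_div, Real.norm_of_nonneg p0.le, inv_eq_one_div]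
    refine div_le_div_of_nonneg_right (abs_le.2 ?_) p0.le
    split_ifs <;> constructor <;> linarith [(g y).1, (g y).2]
  · rw [Sd.df, if_neg fun hd => (mem_sdiff.1 hy).2 (mem_tb.2 ⟨rc_eq h.ok.odd (dbl_dom H.sub hd), y,
      mem_union_right _ hd, nearT.refl _ _ _⟩), Complex.norm_real,
      Real.norm_of_nonneg (div_nonneg (g y).1 p0.le)]

end Sd.Hs

open Sd

/-- a majorant which does not depend on the data -/
theorem hole_dom (c : ℕ) : ∀ᶠ S in ev c, ∀ W, Per S.n W → ∀ O ⊆ S.obs, S.Sup W O →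
    ∃ h : VB → ℝ, Integrable h (PB S.l (nu S.zm)) ∧ ∫ v, h v ∂PB S.l (nu S.zm) ≤ 1 ∧
      ∀ b θ k ψ K, S.Sml b θ k ψ K → ∀ᵐ v ∂PB S.l (nu S.zm),
        ‖S.FO ψ K W O (pcs S.n v)‖ ≤ (∏ o ∈ O, S.wo b k o) * S.hw W O * h v := by
  filter_upwards [ev_fo c, ev_tok, ev_nu' c 10, site_bd c, gn_bd c, ex_bd c, bp_ok c, mark_bd c]
    with S fo tok nu sb ⟨p0, p1, p2, gn⟩ ex bp mk W hW O hO sup
  have h : S.Hs := ⟨fo, tok, nu, sb.1⟩
  have hn := h.ok.odd
  have ln := nu.lens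
  set T := tb S.n (6 * S.D0) (S.HD O) with hT
  obtain ⟨i1, i2, i3⟩ := vol_gd (l := S.l) hn S.Q1 h.ok.ζ_zm (T := T) (Y := us S.sp O \ T)
    (tb_dom hn) (sdiff_subset.trans (Xp.sp_sub hn)) disjoint_sdiff
  have e0 := Real.exp_pos (S.L ^ 5 * T.card)
  refine ⟨fun v => vh S.l S.n S.Q S.zm T (us S.sp O \ T) v / Real.exp (S.L ^ 5 * T.card),
    i1.div_const _, ?_, fun b θ k ψ K s => ?_⟩
  · rw [integral_div, div_le_one e0, mul_comm, Real.exp_nat_mul]
    exact i2.trans (pow_le_pow_left₀ (by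
      have := zn_pos (S.Q0.trans_le h.ok.ζ_zm); have := S.Q0.trans_le h.ok.ζ_zm; positivity) p2 _)
  filter_upwards [i3] with v hz
  have mO : ∀ m ∈ O.toRight, m ∈ S.mks := fun m hm => by simpa [obs] using hO (mem_toRight.1 hm)
  have w0 : ∀ m ∈ O.toRight, 0 ≤ S.wk b k m := fun m hm => (norm_nonneg _).trans
    (mk b θ k ψ K s W v hW S.Λ' m (mO m hm) fun y e hy => absurd (by
      simpa [mks, e] using mO m hm) hy)
  have g0 : 0 ≤ ∏ y ∈ us S.sp O \ T, gd S.l S.ζ (pcs S.n v y) / S.p0 := prod_nonneg fun y _ =>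
    div_nonneg (by rcases Cov.gd_cases S.l S.ζ (pcs S.n v y) with e | e <;> simp [e]) p0.le
  rw [prod_sum_eq_prod_toLeft_mul_prod_toRight]
  have l0 : 0 ≤ ∏ o ∈ O.toLeft, S.wo b k (.inl o) := prod_nonneg fun o _ => by
    rcases o with o | o
    exacts [mul_nonneg (s.kn.1 _ _) (Real.exp_pos _).le, (Real.exp_pos _).le]
  by_cases hF : S.FO ψ K W O (pcs S.n v) = 0
  · rw [hF, norm_zero]
    exact mul_nonneg (mul_nonneg (mul_nonneg l0 (prod_nonneg w0)) (Real.exp_pos _).le)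
      (div_nonneg (mul_nonneg (Real.exp_pos _).le g0) e0.le)
  have f1 := prod_ne_zero_iff.1 (right_ne_zero_of_mul (left_ne_zero_of_mul (left_ne_zero_of_mul hF)))
  have H : S.Nv W (pcs S.n v) O ψ := ⟨hW, funext fun x => congrArg v (rc_rc _ _), hO, sup, hz,
    fun y hy => left_ne_zero_of_mul (left_ne_zero_of_mul (f1 y hy)),
    fun y hy => right_ne_zero_of_mul (left_ne_zero_of_mul (f1 y hy)),
    prod_ne_zero_iff.1 (right_ne_zero_of_mul hF)⟩
  have b1 := budget bp (h.bf H)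
  have b2 := h.olds_le (b := b) H s.km s.kn.1
  have b3 := h.gx_le H
  have b4 := prod_le_prod (fun _ _ => norm_nonneg _) fun y hy =>
    h.hf_le H p0 gn (sb.2 b θ k ψ K s) (ex b θ k ψ K s y) hy
  have b5 := prod_le_prod (fun _ _ => norm_nonneg _) fun m hm =>
    mk b θ k ψ K s W (pcs S.n v) hW (S.Oh O) m (mO m hm) fun y e hy =>
      Xp.calm_loc (by omega) hW H.ps sup H.df (mem_tb.2 ⟨rc_eq hn (by
        simpa [mks, e, Λ'] using mO m hm), y, mem_biUnion.2 ⟨_, mem_toRight.1 hm, by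
          rw [e]; exact mem_singleton_self _⟩, nearT.refl _ _ _⟩) hy
  have b6 := h.df_le H p0
  have OT : S.Oh O ⊆ T := tb_mono Subset.rfl (by omega)
  have cT : ((S.Oh O).card : ℝ) ≤ T.card := by exact_mod_cast card_le_card OT
  have b7 : S.p0 ^ (S.Oh O).card * S.p0⁻¹ ^ T.card ≤ Real.exp (S.L ^ 5 * T.card) := by
    obtain ⟨j, hj⟩ := Nat.exists_eq_add_of_le (card_le_card OT)
    rw [hj, pow_add, ← mul_assoc, ← mul_pow, mul_inv_cancel₀ p0.ne', one_pow, one_mul]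
    refine (pow_le_pow_left₀ (inv_pos.2 p0).le p1 _).trans ?_
    rw [← Real.exp_nat_mul, mul_comm]
    have := L0 S.toTd
    gcongr
    omega
  have b8 := mul_le_mul_of_nonneg_right (h.LQ (C := 9) (k := 2 * S.c + 10) (by norm_num)
    (by omega)) (Nat.cast_nonneg (α := ℝ) T.card)
  have b9 : ‖if (olds O : Set (LP St)).PairwiseDisjoint (fun o => o.1) then
      ∏ o ∈ olds O, K o.1 o.2 (S.Uv W (pcs S.n v)) else 0‖ ≤ _ := le_trans (by
    split_ifs
    exacts [(norm_prod _ _).le, norm_zero.trans_le (prod_nonneg fun _ _ => norm_nonneg _)])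
    ((le_div_iff₀ (Real.exp_pos _)).2 b2)
  rw [prod_mul_distrib, prod_const, ← Real.exp_sum] at b4
  rw [FO, norm_mul, norm_mul, norm_mul, norm_prod, norm_prod, norm_prod]
  refine (mul_le_mul (mul_le_mul (mul_le_mul b9 b4 (prod_nonneg fun _ _ => norm_nonneg _)
    (by positivity)) b5 (prod_nonneg fun _ _ => norm_nonneg _) (by positivity)) b6
    (prod_nonneg fun _ _ => norm_nonneg _) (mul_nonneg (by positivity) (prod_nonneg w0))).trans ?_
  have key : ∀ {l w G p q X E A B C : ℝ}, 0 ≤ l → 0 ≤ w → 0 ≤ G → p * q ≤ Real.exp C →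
      E - X + C ≤ A + B - C → l / Real.exp X * (p * Real.exp E) * w * (q * G) ≤
        l * w * Real.exp A * (Real.exp B * G / Real.exp C) := by
    intro l w G p q X E A B C _ _ _ h1 h2
    calc _ = l * w * G * (Real.exp (E - X) * (p * q)) := by rw [Real.exp_sub]; ring
      _ ≤ l * w * G * (Real.exp (E - X) * Real.exp C) := by gcongr
      _ ≤ l * w * G * Real.exp (A + B - C) := by rw [← Real.exp_add]; gcongr
      _ = _ := by rw [Real.exp_sub, Real.exp_add]; ring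
  refine key l0 (prod_nonneg w0) g0 b7 ?_
  rw [sum_sub_distrib, sum_add_distrib, sum_add_distrib, sum_const, nsmul_eq_mul, sum_ite,
    sum_const_zero, zero_add, ← sdiff_eq_filter, sum_add_distrib, Rg, mul_sum]
  simp only [sum_add_distrib] at b1 ⊢
  have c1 := mul_le_mul_of_nonneg_right (pw S.toTd (show 5 ≤ 2 * S.c + 10 by omega))
    (Nat.cast_nonneg (α := ℝ) T.card)
  have c2 := mul_le_mul_of_nonneg_right (one_le_pow₀ (n := 2 * S.c + 10) (L1 S.toTd))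
    (Nat.cast_nonneg (α := ℝ) T.card)
  have c3 := mul_le_mul_of_nonneg_right cT (pow_pos (L0 S.toTd) (2 * S.c + 10)).le
  simp only [Sd.bp] at b1
  rw [← HD, ← hT] at b1
  rw [← hT] at b3
  unfold lab nf at *
  linarith

end Pool.Agent.Lib.MP_7f377f_mp.RG.Q4
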