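import Pool.Agent.Lib.MP_7f377f_mp.Q4CovD
import Pool.Agent.Lib.MP_7f377f_mp.Q4LocO

/-! The change of variables for the fluctuation operator built from kernels. -/

noncomputable section

namespace Pool.Agent.Lib.MP_7f377f_mp.RG.Q4

open MeasureTheory Ms Finset

variable {O : Od} {c n : ℕ} {δ g ζ : ℝ} {H : Set St} {ka : St → Kf} {W : Cf} {W0 b : Conf}
  {As : Fld} {A : (Lk → E3) → Lk → E3}

theorem det_gP {ι : Type} [Fintype ι] (g : ℝ) (P : (ι → E3) →ₗ[ℝ] (ι → E3)) :
    LinearMap.det (g • P) = (g ^ 3) ^ Fintype.card ι * LinearMap.det P := by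
  have h1 : Module.finrank ℝ (ι → E3) = 3 * Fintype.card ι := by
    simp [Module.finrank_pi_fintype, mul_comm]
  rw [LinearMap.det_smul, h1, pow_mul]

theorem pj_pc {l : ℕ} (hn : Odd n) (hH : PerS (cu n) H) (z : Lk → E3) :
    (pj l H fun e => cE (pc (LL l * n) z e)) =
      fun e => cE (exa (cu n) l H 0 (fun i => z i) e) := by
  funext e
  by_cases he : Act l H e
  · rw [exa_act (fun _ => hn) hH he, pj, if_pos he]
    rfl
  · rw [exa_not (fun _ => hn) hH he, pj, if_neg he, cE_zero]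

theorem covOk_K (h : O.Ok c) (hδ : (LL O.l : ℝ) ^ (2 * c + 10) * δ ≤ 1) (hn : Odd n)
    (hN : 2 * O.N < n) (hH : PerS (cu n) H) (hk : PerK (cu n) ka) (hr : ∀ y, Nf H y → Kr (ka y))
    (hs : ∀ y, Ks (ka y)) (h0 : PerV (cu n) W0) (hg : ∀ y, Gk O δ H ka W W0 y)
    (hb : Per (LL O.l * n) b) (hp : Per (LL O.l * n) As) (h1 : ∀ f, Act O.l H f → ‖As f‖ ≤ 1)
    (g0 : 0 < g) (hζ : 6 * (LL O.l : ℝ) ^ (6 * c + 16) / g ≤ ζ)
    (hA : ∀ z f k, Act O.l H f → A z f k =
      (As f k + g * polK O.l O.Λ (pP O.N) H ka (fun e => cE (z e)) f k).re) :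
    CovOk O.l n (Metric.closedBall 0 ζ) (alk (cu n) O.l H) (Act O.l H) b
      (fun i => WithLp.toLp 2 fun k => (As i k).re) (g • pAct (cu n) O.l O.Λ (pP O.N) H ka) A := by
  have hn' : ∀ i, Odd (cu n i) := fun _ => hn
  have hsp := pAct_spec (l := O.l) (Λ := O.Λ) hn' hH hk hr fun i => (Od.coeff_real O.N i).1
  refine ⟨hn, fun f hf => mem_product.2 ⟨(mem_alk.1 hf).1, mem_univ _⟩,
    fun f => (rcv_alk hn' hH).symm, hb, fun z f hf => ?_, ?_, fun z hz i => ?_⟩
  · have ha := (rcv_alk hn' hH).1 hf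
    ext k
    have e : As f = As (rc (LL O.l * n) f.1, f.2) :=
      Mx.per_iff.1 hp _ _ _ (Mx.cg_of_rc (rc_rc _ _).symm)
    rw [hA _ _ _ ha, ← polK_pj, pj_pc hn hH, hsp, e]
    simp only [exa_act hn' hH ha]
    simp only [cE, Complex.add_re, Complex.re_ofReal_mul, Complex.ofReal_re]
    rfl
  · rw [det_gP]
    exact mul_ne_zero (by positivity) (det_pAct_ne h hδ hn' (fun _ => hN) hH hk hr hs h0 hg)
  · have h2 : ∀ j, ‖cE (pAct (cu n) O.l O.Λ (pP O.N) H ka z j)‖ ≤ 3 / g := by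
      intro j
      rw [le_div_iff₀ g0]
      have h3 : ∀ k, ‖cE (pAct (cu n) O.l O.Λ (pP O.N) H ka z j) k‖ ≤ 3 / g := by
        intro k
        have h4 := PiLp.norm_apply_le ((WithLp.toLp 2 fun k => (As j k).re : E3) +
          (g • pAct (cu n) O.l O.Λ (pP O.N) H ka) z j) k
        have h5 : ‖(WithLp.toLp 2 fun k => (As j k).re : E3) +
          (g • pAct (cu n) O.l O.Λ (pP O.N) H ka) z j‖ ≤ 2 :=
          abs_le_of_sq_le_sq' ((hz j).trans (by norm_num)) two_pos.le |>.2
        have h6 : |(As j k).re| ≤ 1 := (Complex.abs_re_le_norm _).trans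
          ((norm_le_pi_norm _ k).trans (h1 _ (mem_alk.1 j.2).2))
        have h7 := abs_le.1 (h4.trans h5)
        have h8 := abs_le.1 h6
        simp only [PiLp.add_apply, LinearMap.smul_apply, Pi.smul_apply, PiLp.smul_apply,
          smul_eq_mul] at h7
        rw [cE, Complex.norm_real, Real.norm_eq_abs, le_div_iff₀ g0, ← abs_of_pos g0, ← abs_mul,
          abs_le]
        constructor <;> linarith [h7.1, h7.2]
      rw [← le_div_iff₀ g0]
      exact (pi_norm_le_iff_of_nonneg (by positivity)).2 h3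
    have h3 := polK_inv (A := fun f => cE (exa (cu n) O.l H 0 z f)) (a := 3 / g) h hδ hg
      ⟨‖z‖, fun e => (norm_cE _).1.trans (by
        unfold exa
        split_ifs
        exacts [norm_le_pi_norm _ _, norm_zero.trans_le (norm_nonneg _)])⟩ (fun e => by
        rw [hsp]
        simp only [exa]
        split_ifs
        exacts [h2 _, by rw [cE_zero, norm_zero]; positivity]) (mem_alk.1 i.2).2
    simp only [exa_coe hn'] at h3
    rw [mem_closedBall_zero_iff]
    refine ((norm_cE _).2.trans (mul_le_mul_of_nonneg_left h3 two_pos.le)).trans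
      (le_of_eq_of_le (by ring) hζ)

/-- the complex form of the fluctuation field -/
theorem cE_fld (hr : ∀ y, Nf H y → Kr (ka y)) (hR : RealF As) {l N : ℕ} {Λ : ℝ} {z A : Lk → E3}
    {f : Lk} (hA : ∀ k, A f k = (As f k + g * polK l Λ (pP N) H ka (fun e => cE (z e)) f k).re) :
    cE (A f) = As f + (g : ℂ) • polK l Λ (pP N) H ka (fun e => cE (z e)) f := by
  funext k
  have := polK_real (l := l) (Λ := Λ) (A := fun e => cE (z e))
    (fun i => (Od.coeff_real N i).1) hr (fun _ _ => by simp [cE]) f k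
  refine Complex.ext (by simp [cE, hA]) ?_
  simp [cE, hR f k, this]

end Pool.Agent.Lib.MP_7f377f_mp.RG.Q4
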