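import Pool.Agent.Lib.MP_7f377f_mp.Q4PolyA
import Pool.Agent.Lib.MP_7f377f_mp.Q4PolyB

/-! Polymers labelled by cores: factorisation into labelled clusters. -/

noncomputable section

namespace Pool.Agent.Lib.MP_7f377f_mp.RG.Q4

open Finset

variable {σ Ω : Type} [DecidableEq σ] [DecidableEq Ω]

/-- partition function of polymers labelled by families of cores -/
def ZL (Λ : Finset σ) (K : Finset σ → Finset (Finset σ) → ℂ) (I : σ → ℂ) : ℂ :=
  Zp Λ (fun X => ∑ c ∈ fams X, K X c * ∏ y ∈ X \ c.biUnion id, I y) I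

theorem fams_sub {X : Finset σ} {c : Finset (Finset σ)} (h : c ∈ fams X) : c.biUnion id ⊆ X :=
  biUnion_subset.2 (mem_fams.1 h).1

theorem empty_mem_fams (X : Finset σ) : ∅ ∈ fams X := mem_fams.2 (by simp)

theorem disj_of_us {sp : Ω → Finset σ} {O O' : Finset Ω} (hs : ∀ o ∈ O, (sp o).Nonempty)
    (hd : Disjoint (us sp O) (us sp O')) : Disjoint O O' := disjoint_left.2 fun o h1 h2 =>
  (hs o h1).ne_empty (disjoint_self.1 (disjoint_us.1 hd o h1 o h2))

/-- factorisation into labelled clusters -/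
theorem factorL (sp : Ω → Finset σ) (Ω0 : Finset Ω) (Λ : Finset σ)
    (hs : ∀ o ∈ Ω0, (sp o).Nonempty ∧ sp o ⊆ Λ) (w : Finset Ω → ℂ) (h0 : w ∅ = 1)
    (hw : ∀ O ⊆ Ω0, ∀ O' ⊆ Ω0, Disjoint (us sp O) (us sp O') → w (O ∪ O') = w O * w O')
    (lab : Finset Ω → Finset (Finset σ))
    (hl : ∀ O ⊆ Ω0, ∀ O' ⊆ Ω0, Disjoint (us sp O) (us sp O') →
      (lab (O ∪ O')).biUnion id = (lab O).biUnion id ∪ (lab O').biUnion id)
    (hc : ∀ O ⊆ Ω0, (lab O).biUnion id ⊆ us sp O)
    (hf : ∀ O ⊆ Ω0, Conn sp O → w O ≠ 0 → lab O ∈ fams (us sp O)) (I : σ → ℂ) :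
    ∑ O ∈ Ω0.powerset, w O * ∏ y ∈ Λ \ (lab O).biUnion id, I y =
      ZL Λ (fun X c => ∑ O ∈ (clus sp Ω0 X).filter (lab · = c), w O) I := by
  have hf' := factor sp Ω0 Λ hs (fun O => w O * ∏ y ∈ us sp O \ (lab O).biUnion id, I y)
    (by simp [h0]) (fun O hO O' hO' hd => ?_) I
  · rw [ZL, Zp_congr (K' := fun X => ∑ O ∈ clus sp Ω0 X,
      w O * ∏ y ∈ us sp O \ (lab O).biUnion id, I y) (I' := I) (fun X _ _ => ?_) fun _ _ => rfl,
      ← hf']
    · refine sum_congr rfl fun O hO => ?_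
      have h1 := mem_powerset.1 hO
      rw [mul_assoc, ← prod_union (disjoint_sdiff.mono_left sdiff_subset)]
      congr 2
      ext y
      have a1 := @hc O h1 y
      have a2 : y ∈ us sp O → y ∈ Λ := fun hy => us_sub.2 (fun o ho => (hs o (h1 ho)).2) hy
      simp only [mem_sdiff, mem_union]
      tauto
    · symm
      rw [← sum_filter_ne_zero, ← sum_fiberwise_of_maps_to (g := lab) (t := fams X) fun O hO => ?_]
      · refine sum_congr rfl fun c _ => ?_
        rw [sum_mul, filter_comm, sum_filter_ne_zero]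
        refine sum_congr rfl fun O hO => ?_
        rw [(mem_filter.1 hO).2, (mem_clus.1 (mem_filter.1 hO).1).2.2]
      · obtain ⟨a1, a2⟩ := mem_filter.1 hO
        obtain ⟨b1, b2, b3⟩ := mem_clus.1 a1
        exact b3 ▸ hf O b1 b2 (left_ne_zero_of_mul a2)
  · rw [hw O hO O' hO' hd, hl O hO O' hO' hd, us_union, mul_mul_mul_comm,
      ← prod_union (hd.mono sdiff_subset sdiff_subset)]
    congr 2
    ext y
    have a1 := @hc O hO y
    have a2 := @hc O' hO' y
    have a3 := @disjoint_left.1 hd y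
    simp only [mem_sdiff, mem_union]
    tauto

/-- labelled polymers -/
abbrev LP (σ : Type) : Type := Σ _ : Finset σ, Finset (Finset σ)

/-- the labelled polymers in `Λ` -/
def lps (Λ : Finset σ) : Finset (LP σ) := (Λ.powerset.filter Finset.Nonempty).sigma fams

theorem mem_lps {Λ : Finset σ} {o : LP σ} :
    o ∈ lps Λ ↔ o.1 ⊆ Λ ∧ o.1.Nonempty ∧ o.2 ∈ fams o.1 := by simp [lps, and_assoc]

end Pool.Agent.Lib.MP_7f377f_mp.RG.Q4
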