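import Pool.Agent.Lib.MP_7f377f_mp.Q4MeasLaw
import Pool.Agent.Lib.MP_7f377f_mp.Q4ExA

/-! Independence under product measures, averages of polymer activities. -/

noncomputable section

namespace Pool.Agent.Lib.MP_7f377f_mp.RG.Q4

open Finset Ms MeasureTheory Measure
open scoped Quaternion ENNReal

namespace Mx

section indep
variable {ι : Type} {X : ι → Type} [∀ i, MeasurableSpace (X i)] (m : ∀ i, Measure (X i))
  [∀ i, IsProbabilityMeasure (m i)]

open Classical in
theorem mp_piece (A : Set ι) : MeasurePreserving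
    (fun z : (∀ i, X i) × (∀ i, X i) => A.piecewise z.1 z.2)
    ((infinitePi m).prod (infinitePi m)) (infinitePi m) := by
  have hm : Measurable fun z : (∀ i, X i) × (∀ i, X i) => A.piecewise z.1 z.2 := by
    refine measurable_pi_lambda _ fun e => ?_
    unfold Set.piecewise
    split_ifs <;> fun_prop
  refine ⟨hm, eq_infinitePi _ fun s t ht => ?_⟩
  rw [map_apply hm (MeasurableSet.pi s.countable_toSet fun e _ => ht e)]
  have : (fun z : (∀ i, X i) × (∀ i, X i) => A.piecewise z.1 z.2) ⁻¹' Set.pi s t
      = (Set.pi s fun e => if e ∈ A then t e else Set.univ) ×ˢ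
        (Set.pi s fun e => if e ∈ A then Set.univ else t e) := by
    ext z
    simp only [Set.mem_preimage, Set.mem_pi, Set.mem_prod, Set.piecewise]
    constructor
    · intro h
      constructor <;> intro e he <;> have := h e he <;> split_ifs at this ⊢ <;> simp_all
    · rintro ⟨h1, h2⟩ e he
      have := h1 e he
      have := h2 e he
      split_ifs at * <;> simp_all
  rw [this, prod_prod, infinitePi_pi, infinitePi_pi, ← prod_mul_distrib]
  · refine prod_congr rfl fun e _ => ?_
    split_ifs <;> simp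
  all_goals
    intro e _
    split_ifs
    all_goals first | exact ht e | exact MeasurableSet.univ

variable {m}

omit [∀ i, MeasurableSpace (X i)] in
open Classical in
theorem piece_mul {M : Type} [Mul M] {f g : (∀ i, X i) → M} {A B : Set ι} (hA : DependsOn f A)
    (hB : DependsOn g B) (h : Disjoint A B) (z : (∀ i, X i) × (∀ i, X i)) :
    f (A.piecewise z.1 z.2) * g (A.piecewise z.1 z.2) = f z.1 * g z.2 := by
  rw [hA (y := z.1) fun i hi => Set.piecewise_eq_of_mem _ _ _ hi, hB (y := z.2) fun i hi =>
    Set.piecewise_eq_of_notMem _ _ _ (Set.disjoint_right.1 h hi)]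

/-- functions of disjoint sets of coordinates are independent -/
theorem int_indep {f g : (∀ i, X i) → ℂ} {A B : Set ι} (hf : Measurable f) (hg : Measurable g)
    (hA : DependsOn f A) (hB : DependsOn g B) (h : Disjoint A B) :
    ∫ v, f v * g v ∂infinitePi m = (∫ v, f v ∂infinitePi m) * ∫ v, g v ∂infinitePi m := by
  have := integral_map (μ := (infinitePi m).prod (infinitePi m)) (mp_piece m A).aemeasurable
    (hf.mul hg).aestronglyMeasurable
  rw [(mp_piece m A).map_eq] at this
  simpa only [Pi.mul_apply, piece_mul hA hB h, integral_prod_mul] using this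

theorem lint_indep {f g : (∀ i, X i) → ℝ≥0∞} {A B : Set ι} (hf : Measurable f)
    (hg : Measurable g) (hA : DependsOn f A) (hB : DependsOn g B) (h : Disjoint A B) :
    ∫⁻ v, f v * g v ∂infinitePi m = (∫⁻ v, f v ∂infinitePi m) * ∫⁻ v, g v ∂infinitePi m := by
  rw [← lintegral_prod_mul hf.aemeasurable hg.aemeasurable,
    ← (mp_piece m A).lintegral_comp (f := fun v => f v * g v) (hf.mul hg)]
  simp only [piece_mul hA hB h]

theorem integrable_indep {f g : (∀ i, X i) → ℂ} {A B : Set ι} (hf : Measurable f)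
    (hg : Measurable g) (hA : DependsOn f A) (hB : DependsOn g B) (h : Disjoint A B)
    (h1 : Integrable f (infinitePi m)) (h2 : Integrable g (infinitePi m)) :
    Integrable (fun v => f v * g v) (infinitePi m) := by
  refine ((mp_piece m A).integrable_comp (hf.mul hg).aestronglyMeasurable).1 ?_
  simpa only [Function.comp_def, Pi.mul_apply, piece_mul hA hB h] using h1.mul_prod h2

omit [∀ i, MeasurableSpace (X i)] in
theorem dep_prod {J M : Type} [CommMonoid M] (s : Finset J) {f : J → (∀ i, X i) → M}
    {A : J → Set ι} (hA : ∀ j ∈ s, DependsOn (f j) (A j)) :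
    DependsOn (fun v => ∏ j ∈ s, f j v) (⋃ j ∈ s, A j) := fun _ _ h =>
  prod_congr rfl fun j hj => hA j hj fun i hi => h i (Set.mem_biUnion hj hi)

theorem int_prod {J : Type} (s : Finset J) {f : J → (∀ i, X i) → ℂ} {A : J → Set ι}
    (hf : ∀ j ∈ s, Measurable (f j)) (hA : ∀ j ∈ s, DependsOn (f j) (A j))
    (h : (s : Set J).PairwiseDisjoint A) :
    ∫ v, ∏ j ∈ s, f j v ∂infinitePi m = ∏ j ∈ s, ∫ v, f j v ∂infinitePi m ∧
      ((∀ j ∈ s, Integrable (f j) (infinitePi m)) →
        Integrable (fun v => ∏ j ∈ s, f j v) (infinitePi m)) := by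
  classical
  induction s using Finset.induction_on with
  | empty => simp
  | insert j s hj ih =>
    have s1 : ∀ k ∈ s, k ∈ insert j s := fun k => mem_insert_of_mem
    have s0 := mem_insert_self j s
    obtain ⟨i1, i2⟩ := ih (fun k hk => hf k (s1 k hk)) (fun k hk => hA k (s1 k hk))
      (h.subset (coe_subset.2 (subset_insert _ _)))
    have hd : Disjoint (A j) (⋃ k ∈ s, A k) := Set.disjoint_iUnion₂_right.2 fun k hk =>
      h s0 (s1 k hk) fun e => hj (e ▸ hk)
    have hm := measurable_fun_prod s fun k hk => hf k (s1 k hk)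
    have hp := dep_prod s fun k hk => hA k (s1 k hk)
    simp only [prod_insert hj]
    exact ⟨by rw [int_indep (hf j s0) hm (hA j s0) hp hd, i1], fun hi =>
      integrable_indep (hf j s0) hm (hA j s0) hp hd (hi j s0) (i2 fun k hk => hi k (s1 k hk))⟩

end indep

section polymers
variable {σ G : Type} [DecidableEq σ] [MeasurableSpace G] {m : Measure G} [IsProbabilityMeasure m]

/-- activities depending on independent local variables may be averaged -/
theorem int_Zp (Λ : Finset σ) {K : (σ → G) → Finset σ → ℂ} (hm : ∀ X, Measurable (K · X))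
    (hi : ∀ X, Integrable (K · X) (infinitePi fun _ => m)) (hd : ∀ X, DependsOn (K · X) X)
    (I : σ → ℂ) : ∫ γ, Zp Λ (K γ) I ∂(infinitePi fun _ => m) =
      Zp Λ (fun X => ∫ γ, K γ X ∂(infinitePi fun _ => m)) I := by
  have h : ∀ 𝒳 ∈ fams Λ, _ := fun 𝒳 h𝒳 => int_prod (m := fun _ : σ => m) 𝒳
    (f := fun X γ => K γ X) (A := fun X => X) (fun X _ => hm X) (fun X _ => hd X)
    fun X hX Y hY hXY => disjoint_coe.2 ((mem_fams.1 h𝒳).2.2 hX hY hXY)
  simp only [Zp]
  rw [integral_finsetSum _ fun 𝒳 h𝒳 => ((h 𝒳 h𝒳).2 fun X _ => hi X).mul_const _]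
  exact sum_congr rfl fun 𝒳 h𝒳 => by rw [integral_mul_const, (h 𝒳 h𝒳).1]

theorem int_ZL (Λ : Finset σ) {K : (σ → G) → Finset σ → Finset (Finset σ) → ℂ}
    (hm : ∀ X c, Measurable (K · X c)) (hi : ∀ X c, Integrable (K · X c) (infinitePi fun _ => m))
    (hd : ∀ X c, DependsOn (K · X c) X) (I : σ → ℂ) :
    ∫ γ, ZL Λ (K γ) I ∂(infinitePi fun _ => m) =
      ZL Λ (fun X c => ∫ γ, K γ X c ∂(infinitePi fun _ => m)) I := by
  simp only [ZL]
  rw [int_Zp Λ (K := fun γ X => ∑ c ∈ fams X, K γ X c * ∏ y ∈ X \ c.biUnion id, I y)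
    (fun X => measurable_fun_sum _ fun c _ => (hm X c).mul_const _)
    (fun X => integrable_finsetSum _ fun c _ => (hi X c).mul_const _)
    fun X γ γ' h => sum_congr rfl fun c _ => by rw [show K γ X c = K γ' X c from hd X c h]]
  congr 1
  funext X
  rw [integral_finsetSum _ fun c _ => (hi X c).mul_const _]
  simp only [integral_mul_const]

end polymers

/-- product Haar measure on gauge transformations -/
def GG : Measure (St → S3) := infinitePi fun _ => haar

instance prob_GG : IsProbabilityMeasure GG := by unfold GG; infer_instance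

/-- average over the gauge transformations of period `n` -/
def gav (n : ℕ) (K : Conf → ℂ) (W : Conf) : ℂ := ∫ γ, K (gauge Inv.inv (pcs n γ) W) ∂GG

theorem cont_gp (n : ℕ) :
    Continuous fun z : Conf × (St → S3) => gauge Inv.inv (pcs n z.2) z.1 :=
  continuous_pi fun b => by unfold gauge pcs; fun_prop

theorem meas_gp (n : ℕ) (W : Conf) : Measurable fun γ : St → S3 => gauge Inv.inv (pcs n γ) W :=
  ((cont_gp n).comp (Continuous.prodMk_right W)).measurable

theorem meas_gav (n : ℕ) {K : Conf → ℂ} (hK : Measurable K) : Measurable (gav n K) :=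
  ((hK.comp (cont_gp n).measurable).stronglyMeasurable.integral_prod_right' (ν := GG)).measurable

theorem gav_gauge {n : ℕ} {K : Conf → ℂ} (hK : Measurable K) {u : St → S3} (hu : PS n u)
    (W : Conf) : gav n K (gauge Inv.inv u W) = gav n K W := by
  have hp : ∀ y, MeasurePreserving (fun g => g * u y) haar haar :=
    fun y => measurePreserving_mul_right haar _
  have e := infinitePi_map_pi (fun _ : St => haar) fun y => (hp y).measurable
  simp only [fun y => (hp y).map_eq] at e
  rw [gav, gav]
  conv_rhs => rw [GG, ← e]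
  refine Eq.trans ?_ (integral_map (measurable_pi_lambda _ fun y => (hp y).measurable.comp
    (measurable_pi_apply y)).aemeasurable (hK.comp (meas_gp n W)).aestronglyMeasurable).symm
  refine integral_congr_ae (.of_forall fun γ => ?_)
  simp only [gauge_gauge, Function.comp]
  congr 2
  funext y
  simp only [pcs, PS_iff.1 hu _ _ (cg_rc n y)]

theorem gav_le {n : ℕ} {K : Conf → ℂ} {W : Conf} {b : ℝ}
    (h : ∀ u, PS n u → ‖K (gauge Inv.inv u W)‖ ≤ b) : ‖gav n K W‖ ≤ b := by
  simpa [gav] using norm_integral_le_of_norm_le_const (μ := GG)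
    (.of_forall fun γ => h _ (PS_iff.2 (PS_pcs n γ)))

theorem gav_dep {n : ℕ} {K : Conf → ℂ} {S : Set Lk} (h : DependsOn K S) : DependsOn (gav n K) S :=
  fun _ _ e => integral_congr_ae (.of_forall fun _ => h fun b hb => by simp only [gauge, e b hb])

theorem gav_congr {n : ℕ} {K K' : Conf → ℂ} {W W' : Conf}
    (h : ∀ u, PS n u → K (gauge Inv.inv u W) = K' (gauge Inv.inv u W')) :
    gav n K W = gav n K' W' :=
  integral_congr_ae (.of_forall fun γ => h _ (PS_iff.2 (PS_pcs n γ)))

theorem gav_sh (n : ℕ) {K : Conf → ℂ} (hK : Measurable K) (x : St) (W : Conf) :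
    gav n (fun V => K (sh x V)) W = gav n K (sh x W) := by
  have e : GG.map (fun γ y => pcs n γ (y + x)) = GG.map (pcs n) :=
    map_rel haar (T := fun _ => id) (fun _ => MeasurePreserving.id _)
      (rc_rc n) (fun _ _ => by simp only [rc_iff, cg_add_iff]) fun _ => rfl
  have mg : Measurable fun u : St → S3 => K (gauge Inv.inv u (sh x W)) :=
    hK.comp (measurable_pi_lambda _ fun b => by unfold gauge; fun_prop)
  have e1 := integral_map (μ := GG) (φ := fun γ y => pcs n γ (y + x))
    (measurable_pi_lambda _ fun _ => measurable_pi_apply _).aemeasurable mg.aestronglyMeasurable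
  have e2 := integral_map (μ := GG) (meas_pcs n).aemeasurable mg.aestronglyMeasurable
  rw [e, e2] at e1
  simp only [gav, sh_gauge]
  exact e1.symm

/-- a function of the links with both ends in `X` sees only the gauge variables in `X` -/
theorem dep_gp {n : ℕ} {K : Conf → ℂ} {X : Set St}
    (h : DependsOn K {b | rc n b.1 ∈ X ∧ rc n (b.1 + un b.2) ∈ X}) (W : Conf) :
    DependsOn (fun γ : St → S3 => K (gauge Inv.inv (pcs n γ) W)) X := fun _ _ e =>
  h fun b hb => by simp only [gauge, pcs, e _ hb.1, e _ hb.2]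

/-- the activities of an invariant partition function may be taken gauge invariant -/
theorem ZL_gav {n : ℕ} (Λ : Finset St) {K : Finset St → Finset (Finset St) → Conf → ℂ}
    {I : St → Conf → ℂ} {W : Conf} {Z : ℂ} (hm : ∀ X c, Measurable (K X c))
    (hb : ∀ X c, ∃ M, ∀ V, ‖K X c V‖ ≤ M)
    (hd : ∀ X c, DependsOn (K X c) {b | rc n b.1 ∈ X ∧ rc n (b.1 + un b.2) ∈ X})
    (hI : ∀ u, PS n u → ∀ y, I y (gauge Inv.inv u W) = I y W)
    (hZ : ∀ u, PS n u →
      ZL Λ (K · · (gauge Inv.inv u W)) (I · (gauge Inv.inv u W)) = Z) :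
    ZL Λ (fun X c => gav n (K X c) W) (I · W) = Z := by
  have h := int_ZL (m := haar) Λ (K := fun γ X c => K X c (gauge Inv.inv (pcs n γ) W))
    (fun X c => (hm X c).comp (meas_gp n W)) (fun X c => by
      obtain ⟨M, hM⟩ := hb X c
      exact .of_bound ((hm X c).comp (meas_gp n W)).aestronglyMeasurable M
        (.of_forall fun γ => hM _)) (fun X c => dep_gp (hd X c) W) (I · W)
  have e : ∀ γ, ZL Λ (K · · (gauge Inv.inv (pcs n γ) W)) (I · W) = Z := fun γ => by
    have hu := PS_iff.2 (PS_pcs n γ)
    simpa only [hI _ hu] using hZ _ hu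
  simpa [e, gav, GG] using h.symm

end Mx

end Pool.Agent.Lib.MP_7f377f_mp.RG.Q4
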