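import Pool.Agent.Lib.MP_7f377f_mp.Q4CovB
import Pool.Agent.Lib.MP_7f377f_mp.Q4MeasLoc
import Pool.Agent.Lib.MP_7f377f_mp.Q4MeasInd

/-! One step written on the product space of the block variables. -/

noncomputable section

namespace Pool.Agent.Lib.MP_7f377f_mp.RG.Q4

open MeasureTheory Measure Finset Ms

namespace Mx

variable {l n : ℕ}

theorem up_mem (hn : Odd n) {y t : St} (hy : y ∈ box (n / 2)) (ht : t ∈ box l) :
    t + up l y ∈ box (LL l * n / 2) := by
  obtain ⟨m, rfl⟩ := hn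
  have e1 : LL l * (2 * m + 1) / 2 = LL l * m + l := by
    rw [show LL l * (2 * m + 1) = 2 * (LL l * m + l) + 1 by simp only [LL]; ring]
    omega
  rw [e1]
  rw [show (2 * m + 1) / 2 = m by omega] at hy
  refine mem_box.2 fun i => ?_
  have h := mem_box.1 hy i
  have h' := mem_box.1 ht i
  have h0 := Ms.LL_pos l
  simp only [up, Pi.add_apply, Pi.smul_apply, smul_eq_mul]
  push_cast
  constructor <;> nlinarith [h.1, h.2, h'.1, h'.2]

theorem yo_blk {t : St} (ht : t ∈ box l) (y : St) : yo l (t + up l y) = y := by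
  rw [yo_add_up, yo_of_mem ht, zero_add]

/-- the sites of the fine torus, block by block -/
theorem prod_sites {M : Type} [CommMonoid M] (hn : Odd n) (g : St → M) :
    ∏ x ∈ box (LL l * n / 2), g x = ∏ y ∈ box (n / 2), ∏ t ∈ box l, g (t + up l y) := by
  rw [← prod_product' (s := box (n / 2))]
  refine prod_bij' (fun x _ => (yo l x, x - up l (yo l x))) (fun p _ => p.2 + up l p.1)
    ?_ ?_ ?_ ?_ ?_
  · exact fun x hx => mem_product.2 ⟨Cov.yo_mem hn hx, sub_up_yo_mem l _⟩
  · exact fun p hp => up_mem hn (mem_product.1 hp).1 (mem_product.1 hp).2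
  · exact fun x _ => sub_add_cancel _ _
  · intro p hp
    simp only [yo_blk (mem_product.1 hp).2, add_sub_cancel_right]
  · intro x _
    simp only [sub_add_cancel]

theorem sum_sites {M : Type} [AddCommMonoid M] (hn : Odd n) (g : St → M) :
    ∑ x ∈ box (LL l * n / 2), g x = ∑ y ∈ box (n / 2), ∑ t ∈ box l, g (t + up l y) :=
  prod_sites (M := Multiplicative M) hn g

theorem prod_lbox {M : Type} [CommMonoid M] (r : ℕ) (g : Lk → M) :
    ∏ e ∈ lbox r, g e = ∏ x ∈ box r, ∏ μ, g (x, μ) := prod_product' _ _ fun x μ => g (x, μ)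

/-- the links of the fine torus, block by block -/
theorem prod_links {M : Type} [CommMonoid M] (hn : Odd n) (g : Lk → M) :
    ∏ e ∈ ldom (LL l * n), g e = ∏ y ∈ box (n / 2), ∏ t ∈ lbox l, g (t.1 + up l y, t.2) := by
  rw [ldom, prod_lbox, prod_sites hn]
  simp only [prod_lbox]

theorem sum_links {M : Type} [AddCommMonoid M] (hn : Odd n) (g : Lk → M) :
    ∑ e ∈ ldom (LL l * n), g e = ∑ y ∈ box (n / 2), ∑ t ∈ lbox l, g (t.1 + up l y, t.2) :=
  prod_links (M := Multiplicative M) hn g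

open Classical in
/-- the active links, block by block -/
theorem prod_act {M : Type} [CommMonoid M] (hn : Odd n) {S : Finset Lk} {act : Lk → Prop}
    (hS : S ⊆ ldom (LL l * n)) (ha : ∀ f, act f ↔ (rc (LL l * n) f.1, f.2) ∈ S) (g : Lk → M) :
    ∏ e ∈ S, g e = ∏ y ∈ box (n / 2), ∏ t ∈ lbox l,
      if act (t.1 + up l y, t.2) then g (t.1 + up l y, t.2) else 1 := by
  rw [← prod_links hn fun e => if act e then g e else 1, ← prod_filter]
  congr 1
  ext e
  rw [mem_filter, ha]
  refine ⟨fun h => ⟨hS h, ?_⟩, fun h => ?_⟩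
  · rwa [rc_eq (Cov.odd_fine hn) (mem_lbox.1 (hS h))]
  · have := h.2
    rwa [rc_eq (Cov.odd_fine hn) (mem_lbox.1 h.1)] at this

/-- the kernel, block by block -/
theorem ker_blocks (bk : Conf → (St → Om) → Conf) (l : ℕ) (a : ℝ) (n : ℕ) (W U : Conf)
    (ω : St → Om) : ker bk l a n W U ω = ∏ y ∈ box (n / 2),
      (wt l (sh (up l y) U) (ω y) * ∏ μ, hk a (W (y, μ) * (bk U ω (y, μ))⁻¹)) := by
  rw [ker, ldom, prod_lbox, prod_mul_distrib]

end Mx

open Mx

/-- the fine field as a function of the block variables -/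
def fU (l : ℕ) (act : Lk → Prop) (b : Conf) (A : (Lk → E3) → Lk → E3) (v : VB) : Conf :=
  uq act b (A (vz l v)) (vs l v) (trz l (vU l v))

/-- one step as an integral over the block variables -/
theorem TT_cov {ν : Measure E3} {B : Set E3} {d : E3 → ℝ} {l n : ℕ} {S : Finset Lk}
    {act : Lk → Prop} {b : Conf} {a : S → E3} {P : (S → E3) →ₗ[ℝ] (S → E3)}
    {A : (Lk → E3) → Lk → E3} (h : Ref ν B d) (hc : CovOk l n B S act b a P A) (hA : Measurable A)
    (ht : ∀ f, act f → ¬ tree l f) {α : ℝ} (hα : 0 ≤ α) {f : Conf → ℂ} (hf : GI (LL l * n) f)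
    {W : Conf} (hW : Per n W) {G : VB → ℂ}
    (hG : ∀ v, G v = f (fU l act b A v) * (ker (blkN l) l α n W (fU l act b A v) (vo v) : ℝ) *
      (jb d S (LinearMap.det P) (A (vz l v)) (vz l v) (vs l v) : ℝ)) :
    TT l α n f W = ∫ v, G (pcs n v) ∂PB l ν ∧ Integrable (fun v => G (pcs n v)) (PB l ν) := by
  obtain ⟨M, hM⟩ := hf.2.1
  obtain ⟨C, -, hC⟩ := Itg_bd l α n
  have m0 := (meas_Itg' l α n (measurable_blkN l) hf.1 W).comp
    (((cont_trz l).measurable.comp measurable_fst).prodMk measurable_snd)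
  have := cov8 h hc hA m0 (G := G) fun v => by
    rw [hG, Function.comp_apply, Function.comp_apply, Cov.trz_uq ht]
    rfl
  exact ⟨(hf.tree hα hc.odd W hW).trans this.1, this.2 ⟨M * C, fun v => hC _ _ M _ _ hM⟩⟩

end Pool.Agent.Lib.MP_7f377f_mp.RG.Q4
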