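import Pool.Agent.Lib.MP_7f377f_mp.Q4FldB
import Pool.Agent.Lib.MP_7f377f_mp.Q4CovE
import Pool.Agent.Lib.MP_7f377f_mp.Q4MeasTT

/-! The change of variables of one step. -/

noncomputable section

namespace Pool.Agent.Lib.MP_7f377f_mp.RG.Q4

open Finset MeasureTheory Polynomial Ms Sd

namespace Cov

variable {S : Sd} {W : Conf}

/-- the telescoping terms cancel on the torus -/
theorem sum_tel (hn : Odd S.n) {W : Cf} (hW : PerV (cu S.n) W) {a : Fld}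
    (ha : PerV (fi S.l (cu S.n)) a) : ∑ y ∈ S.Λ', S.tel (sh y W) (sh (up S.l y) a) = 0 := by
  simp only [Td.tel, sum_sub_distrib, sh_sh, ← up_add]
  rw [sub_eq_zero, sum_comm, sum_comm (s := S.Λ')]
  refine sum_nbij' (fun x => -x) (fun x => -x) (fun _ => neg_mem_box) (fun _ => neg_mem_box)
    (fun _ _ => neg_neg _) (fun _ _ => neg_neg _) fun u _ => ?_
  simp only [add_comm u]
  exact sum_dom_add (n := cu S.n) (fun _ => hn)
    (g := fun y => S.xf (sh y W) (sh (up S.l y) a) (-u))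
    (fun y v => by simp only [up_add, ← sh_sh, up_pv, hW v, ha v]) u

theorem prod_alk {M : Type} [CommMonoid M] {n : Fin 4 → ℕ} (hn : ∀ i, Odd (n i)) (l : ℕ)
    (H : Set St) [DecidablePred (Fr H)] (φ : Lk → M) : ∏ f ∈ alk n l H, φ f =
      ∏ y ∈ domv n, if Fr H y then ∏ t ∈ ntr l, φ (t.1 + up l y, t.2) else 1 := by
  classical
  rw [alk, prod_filter]
  have h0 : ∏ f ∈ domv (fi l n) ×ˢ univ, (if Act l H f then φ f else 1) = ∏ y ∈ domv n,
      ∏ t ∈ lbox l, if Act l H (t.1 + up l y, t.2) then φ (t.1 + up l y, t.2) else 1 :=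
    sum_fine (M := Additive M) hn l fun f => Additive.ofMul (if Act l H f then φ f else 1)
  refine h0.trans (prod_congr rfl fun y _ => ?_)
  have e : ∀ t ∈ lbox l, Act l H (t.1 + up l y, t.2) ↔ ¬ tree l t ∧ Fr H y := fun t ht => by
    rw [Act, tree_up, yo_add_up, yo_of_mem (mem_product.1 ht).1, zero_add]
  split_ifs with hy
  · rw [ntr, prod_filter]
    exact prod_congr rfl fun t ht => by simp only [e t ht, hy, and_true]
  · exact prod_eq_one fun t ht => by simp only [e t ht, hy, and_false, if_false]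

/-- the Gaussian exponent -/
theorem sum_Eg (h : S.Ok) (hW : Per S.n W) {z : Lk → E3} (hz : Per S.nf z) : ∑ y ∈ S.Λ', S.Eg (sh y W) (sh (up S.l y) z) =
      ((∑ f ∈ alk (cu S.n) S.l (S.H W), ‖z f‖ ^ 2 / 2 : ℝ) : ℂ) +
        ∑ y ∈ domv (cu S.n), dtK S.l S.Λ S.N (shS y (S.H W)) (shK y (S.ka (cC W))) := by
  have hn' : ∀ i, Odd (cu S.n i) := fun _ => h.odd
  have hΛ : 0 < S.Λ := pow_pos (L0 _) _
  have hc : PerV (fi S.l (cu S.n)) (cF z) := (perV_cu.2 hz).map cE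
  have h1 := quad_idK (l := S.l) (N := S.N) hΛ.ne' hn' (H_per hW) (ka_per hW) (Td.ka_symm _) hc
  have h2 := sum_tel h.odd (perV_cu.2 hW).cC (perV_cu.2 (vH_per hW hz))
  have h3 : ∑ y ∈ S.Λ', qk S.l (S.kd (sh y (cC W))) (sh (up S.l y) (S.vH W z))
      (sh (up S.l y) (S.vH W z)) = S.gt ^ 2 * QK (cu S.n) S.l (S.ka (cC W))
        (S.pol (pP S.N) W (cF z)) (S.pol (pP S.N) W (cF z)) := by
    simp only [QK, qk, mul_sum, Sd.vH, sh, Pi.smul_apply, smul_eq_mul, Td.ka]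
    refine sum_congr rfl fun _ _ => sum_congr rfl fun _ _ => sum_congr rfl fun _ _ =>
      sum_congr rfl fun _ _ => sum_congr rfl fun _ _ => by ring
  have h4 : bp (cu S.n) S.l (cF z) (pj S.l (S.H W) (cF z)) =
      ((∑ f ∈ alk (cu S.n) S.l (S.H W), ‖z f‖ ^ 2 : ℝ) : ℂ) := by
    rw [← sum_coe_sort, Complex.ofReal_sum, sum_congr rfl (g := fun i : alk (cu S.n) S.l (S.H W) =>
      dot (cF z i) (pj S.l (S.H W) (cF z) i)) fun i _ => by
        rw [pj_act (mem_alk.1 i.2).2, cF, dot_cE_self]]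
    exact (sum_alk hn' (Φ := fun f => dot (cF z f) (pj S.l (S.H W) (cF z) f)) fun f hf => by
      simp [pj_not hf, dot]).symm
  have h5 : bp (cu S.n) S.l (cF z) (pj S.l (S.H W) (cF z) - S.pol (pU S.N) W (cF z)) =
      bp (cu S.n) S.l (cF z) (pj S.l (S.H W) (cF z)) -
        bp (cu S.n) S.l (cF z) (S.pol (pU S.N) W (cF z)) := (bpL _ _ _).map_sub _ _
  have h6 := congrArg Complex.ofReal h.βgt
  have e : ∀ y, cF (sh (up S.l y) z) = sh (up S.l y) (cF z) := fun _ => rfl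
  simp only [Sd.Eg, vH_sh, e, pol_sh, ← sh_cC, H_sh, Td.ka_sh, sum_add_distrib, sum_sub_distrib,
    ← mul_sum, ← sum_div, h2, h3]
  change _ * (_ * QK _ _ _ (polK _ _ _ _ _ _) (polK _ _ _ _ _ _)) +
    bp (cu S.n) S.l (cF z) (S.pol (pU S.N) W (cF z)) / 2 + ∑ y ∈ domv (cu S.n), _ - _ = _
  rw [h1]
  change _ * (_ * (_ * bp _ _ _ (_ - S.pol _ _ _))) + _ + _ - _ = _
  rw [h5, h4]
  push_cast at h6 ⊢
  linear_combination ((∑ f ∈ alk (cu S.n) S.l (S.H W), (‖z f‖ : ℂ) ^ 2) -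
    bp (cu S.n) S.l (cF z) (S.pol (pU S.N) W (cF z))) / 2 * h6

theorem C0_pos (h : S.Ok) : 0 < S.C0 :=
  pow_pos (mul_pos (mul_pos cHa_pos (pow_pos h.gt0 _)) (zn_pos S.Q0)) _

theorem p0_pos (h : S.Ok) : 0 < S.p0 := cgd_pos _ S.Q0 (zn_pos (S.Q0.trans_le h.ζ_zm))

theorem zm_ge {a : ℕ} (h : S.Nu a) : 6 * S.L ^ (6 * S.c + 16) / S.gt ≤ S.zm := by
  have e := h.exps
  have g0 := h.ok.g0
  have h1 := h.mon (C := 12) (i := 7 * S.c + 17) (j := 0)
    (le_trans (by norm_num) (pow_le_pow_right₀ (by norm_num) (Nat.le_add_left 20 a))) (by omega)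
    (by omega)
  have h2 := mul_le_mul_of_nonneg_left h.ok.le_gt
    (mul_pos (by norm_num : (0 : ℝ) < 6) (pow_pos (L0 S.toTd) (6 * S.c + 16))).le
  rw [zm_eq, ← div_eq_mul_inv, div_le_div_iff₀ h.ok.gt0 g0]
  refine h2.trans (le_trans (le_of_eq ?_) (mul_le_mul_of_nonneg_right h1 h.ok.gt0.le))
  rw [Λ_eq]
  ring

theorem prod_Gw (v : VB) : ∏ y ∈ S.Λ', S.Gw (sh y W) (shv y v) /
    (∫ g, hk0 (S.β * S.L ^ 2) g ∂haar) ^ 4 =
      ker (blkN S.l) S.l (S.β * S.L ^ 2) S.n W (S.Uv W v) (vo v) := by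
  rw [Mx.ker_blocks, Sd.Λ']
  refine prod_congr rfl fun y _ => ?_
  have e : vo (shv y v) = fun x => vo v (x + y) := rfl
  rw [Sd.Gw, Uv_sh, e, Mx.blkN_sh, mul_div_assoc]
  simp only [sh_apply, zero_add, hk, prod_div_distrib, prod_const, card_univ, Fintype.card_fin]

theorem prod_Jk (hn : Odd S.n) (v : VB) : ∏ y ∈ S.Λ', S.Jk (sh y W) (shv y v) =
    ∏ f ∈ alk (cu S.n) S.l (S.H W), 8 * th (vs S.l v f) (S.Af W (vz S.l v) f) *
      dH (S.Af W (vz S.l v) f) * (S.gt ^ 3 * zn S.zm) := by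
  classical
  rw [prod_alk fun _ => hn]
  refine prod_congr rfl fun y _ => ?_
  have e2 : vs S.l (shv y v) = sh (up S.l y) (vs S.l v) := vs_sh _ _ _
  simp only [Sd.Jk, H_sh, fr_shS, zero_add, vz_shv, e2, Af_sh, sh]

end Cov

open Cov

/-- the change of variables of a step, with explicit hypotheses -/
theorem cov_step_of {S : Sd} {W : Conf} {δ : ℝ} {a : ℕ} (h : S.Nu a) (hO : S.t.O.Ok S.c)
    (hδ : S.L ^ (2 * S.c + 10) * δ ≤ 1) (hW : Per S.n W)
    (hr : ∀ y, Nf (S.H W) y → Kr (S.ka (cC W) y))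
    (hg : ∀ y, Gk S.t.O δ (S.H W) (S.ka (cC W)) (cC W) W y)
    (h1 : ∀ f, Act S.l (S.H W) f → ‖S.t.As (cC W) f‖ ≤ 1) {f : Conf → ℂ} (hf : GI S.nf f) :
    TT S.l (S.β * S.L ^ 2) S.n f W = ∫ v, S.IT f W (pcs S.n v) ∂PB S.l (nu S.zm) ∧
      Integrable (fun v => S.IT f W (pcs S.n v)) (PB S.l (nu S.zm)) := by
  have hn := h.ok.odd
  have hn' : ∀ i, Odd (cu S.n i) := fun _ => hn
  have hN : 2 * S.N < S.n := by have := h.lens; omega
  have hβ := h.ok.β0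
  have g0 := h.ok.gt0
  have z0 : 0 < S.zm := S.Q0.trans_le h.ok.ζ_zm
  have hc := covOk_K (A := S.Af W) hO hδ hn hN (H_per hW) (ka_per hW) hr (Td.ka_symm _)
    (perV_cu.2 hW) hg (Ub_per hW) (As_per hW) h1 g0 (zm_ge h) fun z f k _ => rfl
  have m : Measurable fun z => S.pol (pP S.N) W (cF z) := polK_meas
    (fun _ => MeasurableSet.const _) (fun _ _ _ _ _ => measurable_const) (meas_cF measurable_id)
  have mA : Measurable fun z => S.Af W z :=
    meas_reE (measurable_const.fun_add (m.fun_const_smul (S.gt : ℂ)))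
  have a1 := TT_cov (ref_nu z0) hc mA (fun _ h => h.1) (α := S.β * S.L ^ 2) (by positivity) hf hW
    fun _ => rfl
  have hd := det_pAct hO hδ hn' (fun _ => hN) (H_per hW) (ka_per hW) hr (Td.ka_symm _)
    (perV_cu.2 hW) hg
  have p0 := p0_pos h.ok
  have c0 := C0_pos h.ok
  have key : ∀ v : VB, PS S.n v → S.IT f W v =
      f (S.Uv W v) * (ker (blkN S.l) S.l (S.β * S.L ^ 2) S.n W (S.Uv W v) (vo v) : ℝ) *
        (jb (dG S.zm) (alk (cu S.n) S.l (S.H W))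
          (LinearMap.det (S.gt • pAct (cu S.n) S.l S.Λ (pP S.N) (S.H W) (S.ka (cC W))))
          (S.Af W (vz S.l v)) (vz S.l v) (vs S.l v) : ℝ) := by
    intro v hv
    have e1 : ∀ y, ((S.C0 / (S.p0 * (∫ g, hk0 (S.β * S.L ^ 2) g ∂haar) ^ 4) : ℝ) : ℂ) *
        S.Gn (sh y W) (shv y v) = ((S.Gw (sh y W) (shv y v) /
          (∫ g, hk0 (S.β * S.L ^ 2) g ∂haar) ^ 4 * S.Jk (sh y W) (shv y v) : ℝ) : ℂ) *
          Complex.exp (S.Eg (sh y W) (sh (up S.l y) (vz S.l v))) := by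
      intro y
      rw [Sd.Gn, ← mul_assoc, ← Complex.ofReal_mul, vz_shv]
      congr 2
      field_simp
    have e2 : ∏ Z ∈ S.Λ'.powerset.erase ∅, (1 + S.dZ W Z) =
        ∏ Z ∈ (domv (cu S.n)).powerset, (1 + dmK (cu S.n) S.l S.Λ S.N (S.H W) (S.ka (cC W)) Z) :=
      prod_erase _ (by rw [Sd.dZ, dmK_empty, add_zero])
    have e3 : ∏ f ∈ alk (cu S.n) S.l (S.H W), 8 * th (vs S.l v f) (S.Af W (vz S.l v) f) *
        dH (S.Af W (vz S.l v) f) * (S.gt ^ 3 * zn S.zm) * Real.exp (‖vz S.l v f‖ ^ 2 / 2) =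
        (S.gt ^ 3) ^ Fintype.card (alk (cu S.n) S.l (S.H W)) *
          ∏ f ∈ alk (cu S.n) S.l (S.H W), 8 * th (vs S.l v f) (S.Af W (vz S.l v) f) *
            dH (S.Af W (vz S.l v) f) * dG S.zm (vz S.l v f) := by
      rw [Fintype.card_coe, ← prod_const, ← prod_mul_distrib]
      exact prod_congr rfl fun f _ => by rw [dG]; ring
    rw [prod_mul_distrib, ← Real.exp_sum] at e3
    rw [Sd.IT, prod_congr rfl fun y _ => e1 y, prod_mul_distrib, ← Complex.ofReal_prod,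
      prod_mul_distrib, prod_Gw, prod_Jk hn, ← Complex.exp_sum, sum_Eg h.ok hW (per_vz hv), e2,
      Complex.exp_add, ← Complex.ofReal_exp, jb, det_gP, abs_mul, abs_of_pos (by positivity),
      mul_right_comm _ |_|, ← e3]
    simp only [Complex.ofReal_mul]
    change _ = _ * (_ * ((|LinearMap.det (pAct _ S.t.O.l S.t.O.Λ (pP S.t.O.N) _ _)| : ℝ) : ℂ))
    rw [hd]
    change _ = _ * (_ * (Complex.exp (∑ y ∈ domv (cu S.n), dtK S.l S.Λ S.N _ _) *
      ∏ Z ∈ (domv (cu S.n)).powerset, (1 + dmK (cu S.n) S.l S.Λ S.N _ _ Z)))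
    ring
  simp only [key _ (ps_pcs _ _)]
  exact a1

/-- the change of variables of a step -/
theorem cov_fo {S : Sd} {P : ℝ} (h : S.Fo P) {W : Conf} (hW : Per S.n W) {f : Conf → ℂ}
    (hf : GI S.nf f) :
    TT S.l (S.β * S.L ^ 2) S.n f W = ∫ v, S.IT f W (pcs S.n v) ∂PB S.l (nu S.zm) ∧
      Integrable (fun v => S.IT f W (pcs S.n v)) (PB S.l (nu S.zm)) :=
  cov_step_of h.nu h.op h.hδ hW (h.kr W) (h.gk W) (fun _ => h.As_act) hf

theorem cov_step (c : ℕ) : ∀ᶠ S in ev c, ∀ f W, GI S.nf f → Per S.n W →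
    TT S.l (S.β * S.L ^ 2) S.n f W = ∫ v, S.IT f W (pcs S.n v) ∂PB S.l (nu S.zm) ∧
      Integrable (fun v => S.IT f W (pcs S.n v)) (PB S.l (nu S.zm)) :=
  (ev_fo c).mono fun _ h _ _ hf hW => cov_fo h hW hf

end Pool.Agent.Lib.MP_7f377f_mp.RG.Q4
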