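import Pool.Agent.Lib.MP_7f377f_mp.Q4Kp
import Pool.Agent.Lib.MP_7f377f_mp.Q4FoC
import Pool.Agent.Lib.MP_7f377f_mp.Q4FsB
import Pool.Agent.Lib.MP_7f377f_mp.Q4Canc1
import Pool.Agent.Lib.MP_7f377f_mp.Q4HoC

/-! The bounds for the activities of the holes and of the new polymers. -/

noncomputable section

namespace Pool.Agent.Lib.MP_7f377f_mp.RG.Q4

open Finset MeasureTheory Filter
open scoped Classical

variable (c : ℕ)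

theorem hole_bd : ∀ᶠ S in ev c, ∀ b θ k ψ K, S.Sml b θ k ψ K → ∀ W, Per S.n W → ∀ O ⊆ S.obs,
    S.Sup W O → Integrable (fun v => S.FO ψ K W O (pcs S.n v)) (PB S.l (nu S.zm)) ∧
      ‖S.wO ψ K W O‖ ≤ (∏ o ∈ O, S.wo b k o) * S.hw W O :=
  Kp.hole_bd_of (hole_dom c) ((fo_meas c).mono fun _ h b θ k ψ K a O o => (h b θ k ψ K a O o).1)

theorem kp_sum : ∀ᶠ S in ev c, ∀ b θ k, S.Q ^ 100 * b ≤ 1 → S.Q ^ 100 * θ ≤ 1 → 0 ≤ b →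
    kN S.p S.nf k θ → ∃ k', kN S.p'.up S.n k' (S.θ' b θ) ∧ ∀ ψ K, S.Sml b θ k ψ K →
      ∀ Y c' W, Per S.n W →
        ‖S.Kr ψ K Y c' W‖ ≤ k' Y c' * Real.exp (-(S.p'.lam * Rg c' W)) := Kp.kp_sum_of <| by
  filter_upwards [hole_bd c, canc1 c, canc2 c, canc2far c, canc3 c] with S h0 h1 h2 h3 h4
    b θ k ψ K H W hW
  exact ⟨fun O hO s => (h0 b θ k ψ K H W hW O hO s).2, h1 b θ k ψ K H W hW, h2 b θ k ψ K H W hW,
    h3 b θ k ψ K H W hW, h4 b θ k ψ K H W hW⟩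

end Pool.Agent.Lib.MP_7f377f_mp.RG.Q4
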