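import Pool.Agent.Lib.MP_7f377f_mp.Q4StepB
import Pool.Agent.Lib.MP_7f377f_mp.Q4RepL
import Pool.Agent.Lib.MP_7f377f_mp.Q4J2
import Pool.Agent.Lib.MP_7f377f_mp.Q4FoC
import Pool.Agent.Lib.MP_7f377f_mp.Q4CalmF
import Pool.Agent.Lib.MP_7f377f_mp.Q4KpZ
import Pool.Agent.Lib.MP_7f377f_mp.Q4Hol

/-! One step preserves the polymer representation. -/

noncomputable section

namespace Pool.Agent.Lib.MP_7f377f_mp.RG.Q4

open Finset MeasureTheory Filter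
open scoped Classical

variable (c : ℕ)

theorem expand : ∀ᶠ S in ev c, ∀ b ψ K W v, PU S.p b ψ → Per S.n W → PS S.n v →
    S.IT (Rep S.p S.nf (S.Φ ψ) K) W v = Complex.exp (∑ y ∈ S.Λ', S.Ey ψ K y) *
      ∑ O ∈ S.obs.powerset, (S.wf W O * ∏ y ∈ S.Λ' \ (S.lab W O).biUnion id, S.Ic ψ K W y) *
        (S.FO ψ K W O v * ∏ y ∈ S.Λ' \ us S.sp O, ((gd S.l S.ζ (v y) / S.p0 : ℝ) : ℂ)) := by
  filter_upwards [ev_le ev_ok, calm_id c] with S h0 hc b ψ K W v hψ hW hv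
  exact Xp.expand' h0 hW hv (hc b ψ K W v hψ)

theorem step_K : ∀ᶠ S in ev c, ∀ b θ k, S.Q ^ 100 * b ≤ 1 → S.Q ^ 100 * θ ≤ 1 → 0 ≤ b →
    kN S.p S.nf k θ → ∃ k', kN S.p'.up S.n k' (S.θ' b θ) ∧ ∀ ψ K, S.Sml b θ k ψ K →
      KM S.p' S.n k' (S.KK ψ K) := by
  filter_upwards [kp_sum c, kr_loc c] with S h1 h2 b θ k a1 a2 a3 a4
  obtain ⟨k', b1, b2⟩ := h1 b θ k a1 a2 a3 a4
  exact ⟨k', b1, fun ψ K h => Xp.km_of (fun Y c' => (h2 b θ k ψ K h Y c').1)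
    (fun Y c' => (h2 b θ k ψ K h Y c').2) (b2 ψ K h)⟩

theorem step_id : ∀ᶠ S in ev c, ∀ b θ k ψ K, S.Sml b θ k ψ K → ∀ W, Per S.n W →
    TT S.l (S.β * S.L ^ 2) S.n (Rep S.p S.nf (S.Φ ψ) K) W =
      Complex.exp (∑ y ∈ S.Λ', S.Ey ψ K y) * Rep S.p' S.n (S.Φ' ψ K) (S.KK ψ K) W := by
  filter_upwards [ev_le ev_ok, lo_fine c, lo_coarse c, cov_step c, calm_id c, fo_meas c, fo_dep c,
    wo_mul c, kr_loc c, hole_bd c, kp_sum c] with S h0 lf lc cv ci fm fd wm kl hb kp b θ k ψ K h W hW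
  have g : GI S.nf (Rep S.p S.nf (S.Φ ψ) K) := Rep_GI lf.1 (Real.sqrt_nonneg _)
    (Odd.mul ⟨S.l, rfl⟩ h0.odd) (lf.2.2 b ψ h.pu) h.km
  obtain ⟨k', -, b2⟩ := kp b θ k h.b_le h.θ_le h.b0 h.kn
  refine Xp.avg' (GI.step (mul_nonneg h0.β0.le (sq_nonneg _)) h0.odd g) (fun W hW => ?_)
    (kl b θ k ψ K h) (b2 ψ K h) (fun u W y => Ix_gauge lf.2.1 (lc b θ k ψ K h) u) hW
  rw [(cv _ W g hW).1]
  exact Xp.raw_of h0 hW (fun v _ y hy a => Xp.CalmP.id (ci b ψ K W v h.pu y hy a))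
    (fun O a => Xp.meas_v (F := fun W v => S.FO ψ K W O v) (fm b θ k ψ K h O a).1 _ W)
    (fd b θ k ψ K h W hW) (fun O a s => (hb b θ k ψ K h W hW O a s).1) (wm b θ k ψ K h W hW).2

end Pool.Agent.Lib.MP_7f377f_mp.RG.Q4
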