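import Pool.Agent.Lib.MP_7f377f_mp.JetB
import Pool.Agent.Lib.MP_7f377f_mp.Q4LipK
import Pool.Agent.Lib.MP_7f377f_mp.Q4Step
import Pool.Agent.Lib.MP_7f377f_mp.Q4Real

/-! Jets of families of data of the polymer representation. -/

noncomputable section

namespace Pool.Agent.Lib.MP_7f377f_mp.RG.Q4

open Finset MeasureTheory Function Metric Filter
open _root_.Pool.Agent.Lib.MP_7f377f_mp.Jet

attribute [local irreducible] box lbox

variable {ι : Type} [DecidableEq ι] {r : ι → ℝ} {A T : Finset ι} {p : Pa} {n : ℕ} {k k' : Mj}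
  {K K' : (ι → ℂ) → Ac} {Φ Φ' : (ι → ℂ) → Lx} {s : ι → ℂ} {ρ θ M b : ℝ}
  {f f' g g' : (ι → ℂ) → Conf → ℂ}

/-- families of local terms which are holomorphic in each variable -/
def SL (r : ι → ℝ) (Φ : (ι → ℂ) → Lx) : Prop :=
  ∀ s ∈ Pd r, ∀ i, HolL (ball 0 (r i)) fun t => Φ (update s i t)

/-- families of activities which are holomorphic in each variable -/
def SA (r : ι → ℝ) (K : (ι → ℂ) → Ac) : Prop :=
  ∀ s ∈ Pd r, ∀ i, HolA (ball 0 (r i)) fun t => K (update s i t)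

theorem sl_ma (r : ι → ℝ) (A : Finset ι) (a : Finset ι → Lx) : SL r (ma A a) := fun s _ i x B => by
  simpa only [ma_apply] using (ma_hol (a · x B) s i).differentiableOn

theorem sa_ma (r : ι → ℝ) (A : Finset ι) (a : Finset ι → Ac) : SA r (ma A a) :=
  fun s _ i X c U => by simpa only [ma_apply] using (ma_hol (a · X c U) s i).differentiableOn

/-- bounded holomorphic families of activities -/
structure FA (r : ι → ℝ) (p : Pa) (n : ℕ) (k : Mj) (K : (ι → ℂ) → Ac) : Prop where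
  pos : ∀ i, 0 < r i
  hol : SA r K
  km : ∀ s ∈ Pd r, KM p n k (K s)

/-- jets of activities -/
def jA (T : Finset ι) (K : (ι → ℂ) → Ac) : Ac := fun X c U => jd T (K · X c U)

/-- jets of local terms -/
def jL (T : Finset ι) (Φ : (ι → ℂ) → Lx) : Lx := fun x B => jd T (Φ · x B)

/-- truncation of activities -/
def trK (A : Finset ι) (K : (ι → ℂ) → Ac) : (ι → ℂ) → Ac := ma A fun T => jA T K

omit [DecidableEq ι] in
theorem ma_A (a : Finset ι → Ac) (X : Finset St) (c : Finset (Finset St)) (U : Conf) :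
    (fun s => ma A a s X c U) = ma A (a · X c U) := funext fun _ => by simp only [ma_apply]

omit [DecidableEq ι] in
theorem ma_L (a : Finset ι → Lx) (x : St) (B : Fld) :
    (fun s => ma A a s x B) = ma A (a · x B) := funext fun _ => by simp only [ma_apply]

theorem trK_eq (X : Finset St) (c : Finset (Finset St)) (U : Conf) :
    (fun s => trK A K s X c U) = tr A (K · X c U) := ma_A _ X c U

theorem jA_empty : jA ∅ K = K 0 := by ext; simp [jA]

theorem jA_ma (a : Finset ι → Ac) (hT : T ⊆ A) : jA T (ma A a) = a T := by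
  ext X c U; simp only [jA, ma_A, jd_ma _ hT]

theorem jL_ma (a : Finset ι → Lx) (hT : T ⊆ A) : jL T (ma A a) = a T := by
  ext x B; simp only [jL, ma_L, jd_ma _ hT]

theorem jA_trK (hT : T ⊆ A) : jA T (trK A K) = jA T K := jA_ma _ hT

theorem trK_zero : trK A K 0 = K 0 := by rw [trK, ma_zero, jA_empty]

theorem jA_single (i : ι) : jA {i} K = dA fun t => K (Pi.single i t) := by
  ext; simp only [jA, jd_single, dA]

theorem jA_congr (hr : ∀ i, 0 < r i) {X X' : Finset St} {c c' : Finset (Finset St)} {U U' : Conf}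
    (e : ∀ s ∈ Pd r, K s X c U = K' s X' c' U') : jA T K X c U = jA T K' X' c' U' := jd_congr hr e T

theorem jA_trA (v : St) : jA T (fun s => trA n v (K s)) = trA n v (jA T K) := rfl

namespace FA

variable (h : FA r p n k K)
include h

theorem sh (X : Finset St) (c : Finset (Finset St)) (U : Conf) :
    SH r (k X c * Real.exp (-(p.lam * Rg c (pc n U)))) (K · X c U) :=
  ⟨h.pos, fun s hs i => h.hol s hs i X c U, fun s hs => by
    rw [← (h.km s hs).per]; exact (h.km s hs).bd X c _ (Mx.per_pc n U)⟩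

theorem km_of {F : ((ι → ℂ) → ℂ) → ℂ} (e : ∀ g g', Set.EqOn g g' (Pd r) → F g = F g')
    (m : ∀ X c, Measurable fun U => F (K · X c U))
    (b : ∀ X c U M, SH r (k X c * M) (K · X c U) → ‖F (K · X c U)‖ ≤ k' X c * M) :
    KM p n k' fun X c U => F (K · X c U) :=
  ⟨m, fun X c U => e _ _ fun s hs => (h.km s hs).per X c U,
    fun X c _ _ a => e _ _ fun s hs => (h.km s hs).dep X c a,
    fun X c u U hu => e _ _ fun s hs => (h.km s hs).gi X c u U hu,
    fun X c U hU => b X c U _ (by simpa only [En.pc_eq hU] using h.sh X c U)⟩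

theorem km_jA (T : Finset ι) : KM p n (fun X c => k X c / ∏ i ∈ T, r i) (jA T K) :=
  h.km_of (fun _ _ e => jd_congr h.pos e T)
    (fun X c => jd_meas h.pos (h.sh X c) (fun s hs => (h.km s hs).meas X c) T)
    fun _ _ _ _ a => (a.jd_le T).trans_eq (mul_div_right_comm _ _ _)

theorem km_trK {D : Finset St → Finset (Finset St) → Finset ι}
    (d : ∀ X c, ∀ T ⊆ A, ¬ T ⊆ D X c → jA T K X c = 0) (hs : ∀ i, ‖s i‖ ≤ ρ * r i) :
    KM p n (fun X c => (1 + ρ) ^ (D X c).card * k X c) (trK A K s) := by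
  have : trK A K s = fun X c U => tr A (K · X c U) s := by
    ext X c U; exact congrFun (trK_eq X c U) s
  rw [this]
  exact h.km_of (F := fun g => tr A g s)
    (fun _ _ e => congrFun (ma_congr fun T _ => jd_congr h.pos e T) s)
    (fun X c => tr_meas h.pos (h.sh X c) (fun s hs => (h.km s hs).meas X c) s) fun X c U _ a =>
      (tr_le1 a (fun T a b => congrFun (d X c T a b) U) hs).trans_eq (mul_assoc _ _ _).symm

theorem jA_dep {X : Finset St} {c : Finset (Finset St)} {D : Set ι}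
    (d : ∀ s ∈ Pd r, ∀ i ∉ D, ∀ t ∈ ball (0 : ℂ) (r i), K (update s i t) X c = K s X c)
    (hT : ¬ (T : Set ι) ⊆ D) : jA T K X c = 0 :=
  funext fun U => jd_dep (h.sh X c U) (fun s hs i hi t ht => congrFun (d s hs i hi t ht) U) hT

theorem trK {r' : ι → ℝ} {D : Finset St → Finset (Finset St) → Finset ι}
    (d : ∀ X c, ∀ T ⊆ A, ¬ T ⊆ D X c → jA T K X c = 0) (hr : ∀ i, 0 < r' i)
    (e : ∀ i, r' i ≤ ρ * r i) : FA r' p n (fun X c => (1 + ρ) ^ (D X c).card * k X c) (trK A K) :=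
  ⟨hr, sa_ma _ _ _, fun _ hs => h.km_trK d fun i => (hs i).le.trans (e i)⟩

theorem real_jA (e : ∀ s ∈ Pd r, (∀ i, (s i).im = 0) → RealA (K s)) (T : Finset ι) :
    RealA (jA T K) := fun X c U => jd_real (h.sh X c U) (fun s hs a => e s hs a X c U) T

theorem sub (h' : FA r p n k' K') : FA r p n (k + k') (K - K') :=
  ⟨h.pos, fun s hs i X c U => (h.hol s hs i X c U).sub (h'.hol s hs i X c U),
    fun s hs => (h.km s hs).sub (h'.km s hs)⟩

theorem jA_sub (h' : FA r p n k' K') (T : Finset ι) : jA T (K - K') = jA T K - jA T K' := by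
  ext X c U; exact jd_sub (h.sh X c U) (h'.sh X c U) T

end FA

omit [DecidableEq ι] in
theorem real_ma {a : Finset ι → Ac} (h : ∀ T ⊆ A, RealA (a T)) (hs : ∀ i, (s i).im = 0) :
    RealA (ma A a s) := fun X c U => by
  have : ∀ T, (mon T s).im = 0 := fun T => prod_induction _ (fun z : ℂ => z.im = 0)
    (fun _ _ h h' => by simp [h, h']) rfl fun i _ => hs i
  simpa [ma, this] using sum_eq_zero fun T hT => by rw [h T (mem_powerset.1 hT), mul_zero]

/-- the slack in the weight absorbs a factor -/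
theorem kN_slack (h : kN p.up n k θ) {w : Mj} {C : ℝ} (w0 : ∀ X c, 0 ≤ w X c)
    (hw : ∀ o ∈ lps (box (n / 2)), w o.1 o.2 ≤ C * Real.exp (tau n p.D o.1)) (C0 : 0 ≤ C) :
    kN p n (fun X c => w X c * k X c) (C * θ) := by
  refine ⟨fun X c => mul_nonneg (w0 X c) (h.1 X c), fun x => le_trans ?_
    (mul_le_mul_of_nonneg_left (h.2 x) C0)⟩
  rw [mul_sum]
  refine sum_le_sum fun o ho => ?_
  have e : wgt p.up n o.1 o.2 = Real.exp (tau n p.D o.1) * wgt p n o.1 o.2 := by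
    simp only [wgt, Pa.up, ← Real.exp_add]; congr 1; ring
  have := mul_le_mul_of_nonneg_right (hw o (mem_filter.1 ho).1)
    (mul_nonneg (h.1 o.1 o.2) (Real.exp_pos _).le : 0 ≤ k o.1 o.2 * wgt p n o.1 o.2)
  rw [e]
  linarith

/-! ### Families of densities -/

/-- bounded holomorphic families of measurable functions -/
def HD (r : ι → ℝ) (f : (ι → ℂ) → Conf → ℂ) : Prop :=
  (∃ M, ∀ U, SH r M (f · U)) ∧ ∀ s ∈ Pd r, Measurable (f s)

/-- equal jets on fields of period `n` -/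
structure EqD (r : ι → ℝ) (A : Finset ι) (n : ℕ) (f g : (ι → ℂ) → Conf → ℂ) : Prop where
  fst : HD r f
  snd : HD r g
  eq : ∀ U, Per n U → ∀ T ⊆ A, jd T (f · U) = jd T (g · U)

theorem _root_.Pool.Agent.Lib.MP_7f377f_mp.Jet.Hb.hd {c : (ι → ℂ) → ℂ} (h : Hb r c) : HD r fun s _ => c s :=
  ⟨h.imp fun _ a _ => a, fun _ _ => measurable_const⟩

namespace HD

variable (h : HD r f)
include h

theorem hb (U : Conf) : Hb r (f · U) := h.1.imp fun _ a => a U

theorem pos (i : ι) : 0 < r i := (h.1.choose_spec 1).pos i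

theorem refl : EqD r A n f f := ⟨h, h, fun _ _ _ _ => rfl⟩

theorem add (h' : HD r g) : HD r fun s U => f s U + g s U :=
  ⟨⟨_, fun U => (h.1.choose_spec U).add (h'.1.choose_spec U)⟩,
    fun s hs => (h.2 s hs).add (h'.2 s hs)⟩

theorem mul (h' : HD r g) : HD r fun s U => f s U * g s U :=
  ⟨⟨_, fun U => (h.1.choose_spec U).mul (h'.1.choose_spec U)⟩,
    fun s hs => (h.2 s hs).mul (h'.2 s hs)⟩

theorem meas_jd (T : Finset ι) : Measurable fun U => jd T (f · U) :=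
  jd_meas h.pos h.1.choose_spec h.2 T

variable (l : ℕ) (a : ℝ) (n : ℕ)

theorem itg : ∃ M, ∀ W v, SH r M fun s => Mx.Itg (blk l) l a n (f s) W v := by
  obtain ⟨C, -, hC⟩ := Mx.Itg_bd l a n
  obtain ⟨M, hM⟩ := h.1
  exact ⟨M * C, fun W v => ⟨h.pos, fun s hs i => ((hM _).hol s hs i).mul_const _,
    fun s hs => hC _ _ _ _ _ fun U => (hM U).bd s hs⟩⟩

theorem tt : HD r fun s => TT l a n (f s) :=
  let ⟨_, hM⟩ := h.itg l a n
  ⟨⟨_, fun W => sh_int _ h.pos (fun v => hM W (pc (LL l * n) v.1, pcs n v.2)) fun s hs =>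
    (Mx.meas_Itg' l a n (measurable_blk l) (h.2 s hs) W).comp (Mx.meas_pp _ _)⟩,
    fun s hs => Mx.meas_TT l a n (h.2 s hs)⟩

/-- the step commutes with jets -/
theorem jd_tt (W : Conf) (T : Finset ι) :
    jd T (fun s => TT l a n (f s) W) = TT l a n (fun U => jd T (f · U)) W := by
  obtain ⟨_, hM⟩ := h.itg l a n
  refine (jd_int _ h.pos (fun _ => hM W _) (fun s hs =>
    (Mx.meas_Itg' l a n (measurable_blk l) (h.2 s hs) W).comp (Mx.meas_pp _ _)) T).trans
    (congrArg _ (funext fun v => ?_))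
  simp only [Mx.Itg, mul_comm (f _ _)]
  exact (jd_smul _ _ T).trans (mul_comm _ _)

end HD

section

variable {α : Type} (hr : ∀ i, 0 < r i) {X : Finset α} {f : α → (ι → ℂ) → Conf → ℂ}
  (h : ∀ x ∈ X, HD r (f x))
include hr h

theorem HD.sum : HD r fun s U => ∑ x ∈ X, f x s U := by
  choose! M hM using fun x hx => (h x hx).1
  exact ⟨⟨_, fun U => SH.sum hr fun x hx => hM x hx U⟩,
    fun s hs => measurable_sum _ fun x hx => (h x hx).2 s hs⟩

theorem HD.prod : HD r fun s U => ∏ x ∈ X, f x s U := by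
  choose! M hM using fun x hx => (h x hx).1
  exact ⟨⟨_, fun U => SH.prod hr fun x hx => hM x hx U⟩,
    fun s hs => measurable_fun_prod _ fun x hx => (h x hx).2 s hs⟩

end

namespace EqD

variable (h : EqD r A n f g)
include h

theorem eqv {U : Conf} (hU : Per n U) : Eqv r A (f · U) (g · U) := ⟨h.fst.hb U, h.snd.hb U, h.eq U hU⟩

theorem symm : EqD r A n g f := ⟨h.snd, h.fst, fun U hU T hT => (h.eq U hU T hT).symm⟩

theorem trans (h' : EqD r A n g g') : EqD r A n f g' :=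
  ⟨h.fst, h'.snd, fun U hU T hT => (h.eq U hU T hT).trans (h'.eq U hU T hT)⟩

theorem mul (h' : EqD r A n f' g') :
    EqD r A n (fun s U => f s U * f' s U) fun s U => g s U * g' s U :=
  ⟨h.fst.mul h'.fst, h.snd.mul h'.snd, fun _ hU => ((h.eqv hU).mul (h'.eqv hU)).eq⟩

theorem congr (h' : HD r g') (e : ∀ s ∈ Pd r, ∀ U, Per n U → g s U = g' s U) : EqD r A n f g' :=
  ⟨h.fst, h', fun U hU T hT => (h.eq U hU T hT).trans
    (jd_congr h'.pos (fun s hs => e s hs U hU) T)⟩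

/-- expectations -/
theorem int (μ : Measure Conf) [IsFiniteMeasure μ] :
    Eqv r A (fun s => ∫ U, f s (pc n U) ∂μ) fun s => ∫ U, g s (pc n U) ∂μ :=
  eqv_int μ h.fst.pos (fun U => h.fst.1.choose_spec (pc n U)) (fun U => h.snd.1.choose_spec (pc n U))
    (fun s hs => (h.fst.2 s hs).comp (Cov.meas_pc n)) (fun s hs => (h.snd.2 s hs).comp (Cov.meas_pc n))
    fun T hT => ae_of_all _ fun U => h.eq _ (Mx.per_pc n U) T hT

end EqD

theorem EqD.tt {l : ℕ} (h : EqD r A (LL l * n) f g) (a : ℝ) :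
    EqD r A n (fun s => TT l a n (f s)) fun s => TT l a n (g s) :=
  ⟨h.fst.tt l a n, h.snd.tt l a n, fun W _ T hT => by
    rw [h.fst.jd_tt, h.snd.jd_tt]
    simp only [TT, h.eq _ (Mx.per_pc _ _) T hT]⟩

theorem TT_mul (l : ℕ) (a : ℝ) (n : ℕ) (c : ℂ) (f : Conf → ℂ) (W : Conf) :
    TT l a n (fun U => c * f U) W = c * TT l a n f W := by
  simp only [TT, mul_assoc, integral_const_mul]

/-- bounded holomorphic families of local terms -/
structure FL (r : ι → ℝ) (p : Pa) (Φ : (ι → ℂ) → Lx) : Prop where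
  pos : ∀ i, 0 < r i
  hol : SL r Φ
  meas : ∀ s ∈ Pd r, ∀ x, Measurable (Φ s x)
  bd : ∀ x, ∃ M, ∀ s ∈ Pd r, ∀ B, RealF B → Cv p.R p.ρ B → ‖Φ s x B‖ ≤ M

theorem fl_pu (hr : ∀ i, 0 < r i) (h : SL r Φ) (hb : ∀ s ∈ Pd r, PU p b (Φ s)) : FL r p Φ :=
  ⟨hr, h, fun s hs => (hb s hs).lo.meas, fun x => ⟨b, fun s hs => (hb s hs).2 x⟩⟩

theorem fl_ma (hr : ∀ i, 0 < r i) {a : Finset ι → Lx} (h : ∀ T ⊆ A, LO p (a T)) :
    FL r p (ma A a) := by
  refine ⟨hr, sl_ma _ _ _, fun s _ x => ?_, fun x => ?_⟩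
  · have : ma A a s x = fun B => ∑ T ∈ A.powerset, mon T s * a T x B := by ext; simp [ma]
    exact this ▸ measurable_sum _ fun T hT => ((h T (mem_powerset.1 hT)).meas x).const_mul _
  · choose! M hM using fun T hT => (h T hT).bd x
    refine ⟨∑ T ∈ A.powerset, (∏ i ∈ T, r i) * M T, fun s hs B a b => ?_⟩
    rw [congrFun (ma_L _ x B) s]
    exact ((sh_ma hr A _).bd s hs).trans (sum_le_sum fun T hT => mul_le_mul_of_nonneg_left
      (hM T (mem_powerset.1 hT) B a b) (prod_nonneg fun i _ => (hr i).le))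

theorem FL.add (h : FL r p Φ) {Ψ : Lx} (h' : LO p Ψ) : FL r p fun s x B => Ψ x B + Φ s x B :=
  ⟨h.pos, fun s hs i x B => (h.hol s hs i x B).const_add _,
    fun s hs x => (h'.meas x).add (h.meas s hs x), fun x =>
      let ⟨_, a⟩ := h.bd x
      let ⟨_, b⟩ := h'.bd x
      ⟨_, fun s hs B c d => norm_add_le_of_le (b B c d) (a s hs B c d)⟩⟩

theorem FL.hb (h : FL r p Φ) (x : St) {B : Fld} (a : RealF B) (b : Cv p.R p.ρ B) : Hb r (Φ · x B) :=
  (h.bd x).imp fun _ m => ⟨h.pos, fun s hs i => h.hol s hs i x B, fun s hs => m s hs B a b⟩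

theorem FL.ix (h : FL r p Φ) (hp : p.Ok) (n : ℕ) (x : St) :
    HD r fun s U => Ix p (Φ s) (pc n U) x := by
  obtain ⟨M, hM⟩ := h.bd x
  refine ⟨⟨Real.exp M, fun U => ⟨h.pos, fun s hs i => (h.hol s hs i x _).neg.cexp.const_mul _,
    fun s hs => ?_⟩⟩, fun s hs => ((chi_meas p x).mul ((h.meas s hs x).comp
      (Bx_measurable (mq_cC measurable_id) x)).neg.cexp).comp (Cov.meas_pc n)⟩
  beta_reduce
  by_cases h1 : Fq (p.R + 1) p.ε (sh x (pc n U))
  · rw [Ix_pos h1]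
    exact (Complex.norm_exp_le_exp_norm _).trans (Real.exp_le_exp.2
      ((norm_neg _).trans_le (hM s hs _ (Bx_real x _) (h1.cv' hp))))
  · rw [Ix_neg h1, norm_zero]
    positivity

theorem FA.hd (h : FA r p n k K) (hl : 0 ≤ p.lam) (X : Finset St) (c : Finset (Finset St)) :
    HD r fun s U => K s X c U :=
  ⟨⟨_, fun U => ⟨h.pos, (h.sh X c U).hol, fun s hs => (h.km s hs).le hl X c U⟩⟩,
    fun s hs => (h.km s hs).meas X c⟩

theorem hd_rep (hp : p.Ok) (hl : 0 ≤ p.lam) (h : FL r p Φ) (hK : FA r p n k K) :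
    HD r fun s => Rep p n (Φ s) (K s) :=
  .sum h.pos fun _ _ => .mul (.prod h.pos fun X _ => .sum h.pos fun c _ => .mul (hK.hd hl X c)
    (.prod h.pos fun x _ => h.ix hp n x)) (.prod h.pos fun x _ => h.ix hp n x)

/-- the representation respects the equivalence of jets -/
theorem rep_eqd (hp : p.Ok) (hl : 0 ≤ p.lam) (h : FL r p Φ) (h' : FL r p Φ') (hK : FA r p n k K)
    (hK' : FA r p n k' K') (e : ∀ T ⊆ A, ∀ x B, RealF B → Cv p.R p.ρ B → jL T Φ x B = jL T Φ' x B)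
    (e' : ∀ T ⊆ A, jA T K = jA T K') :
    EqD r A n (fun s => Rep p n (Φ s) (K s)) fun s => Rep p n (Φ' s) (K' s) := by
  refine ⟨hd_rep hp hl h hK, hd_rep hp hl h' hK', fun U _ => ?_⟩
  have a : ∀ x, Eqv r A (fun s => Ix p (Φ s) (pc n U) x) fun s => Ix p (Φ' s) (pc n U) x := fun x => by
    by_cases h1 : Fq (p.R + 1) p.ε (sh x (pc n U))
    · simp only [Ix_pos h1]
      exact (Eqv.mk (h.hb x (Bx_real x _) (h1.cv' hp)) (h'.hb x (Bx_real x _) (h1.cv' hp))
        fun T hT => e T hT x _ (Bx_real x _) (h1.cv' hp)).neg.exp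
    · simp only [Ix_neg h1]
      exact eqv_const h.pos 0
  exact (Eqv.sum h.pos fun _ _ => .mul (.prod h.pos fun X _ => .sum h.pos fun c _ =>
    .mul ⟨(hK.hd hl X c).hb U, (hK'.hd hl X c).hb U, fun T hT =>
      congrFun (congrFun (congrFun (e' T hT) X) c) U⟩ (.prod h.pos fun x _ => a x))
      (.prod h.pos fun x _ => a x)).eq

theorem rep_trK (hp : p.Ok) (hl : 0 ≤ p.lam) (h : FL r p Φ) (hK : FA r p n k K) :
    EqD r A n (fun s => Rep p n (Φ s) (K s)) fun s => Rep p n (Φ s) (trK A K s) :=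
  rep_eqd hp hl h h hK (hK.trK (ρ := 1) (D := fun _ _ => A) (fun _ _ _ a b => (b a).elim) h.pos
    fun _ => (one_mul _).ge) (fun _ _ _ _ _ _ => rfl) fun _ hT => (jA_trK hT).symm

namespace En

variable {S : Sd} {a : Finset ι → Lx} {d : Finset ι → Ac}

omit [DecidableEq ι] in
theorem Dir.ma (h : S.Nu 100) (e : ∀ T ⊆ A, Dir S (a T) (d T)) (s : ι → ℂ) :
    Dir S (ma A a s) (ma A d s) :=
  Dir.sum h (e ∅ (empty_subset _)) _ fun T hT => (e T (mem_powerset.1 hT)).smul h _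

/-- linear maps commute with multi-affine extensions -/
theorem lin_ma {V : Type} [AddCommMonoid V] [Module ℂ V] {F : Lx → Ac → V} (h : S.Nu 100)
    (hF : ∀ ψ K ψ' K' (t : ℂ), Dir S ψ K → Dir S ψ' K' →
      F (ψ + t • ψ') (K + t • K') = F ψ K + t • F ψ' K')
    (e : ∀ T ⊆ A, Dir S (a T) (d T)) (s : ι → ℂ) :
    F (ma A a s) (ma A d s) = ma A (fun T => F (a T) (d T)) s := by
  induction A using Finset.induction_on generalizing a d with
  | empty => simp [ma, mon]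
  | insert i A hi ih =>
    have e1 := fun T hT => e T (Subset.trans hT (subset_insert i A))
    have e2 := fun T (hT : T ⊆ A) => e _ (insert_subset_insert i hT)
    rw [ma_insert hi, ma_insert hi, ma_insert hi, hF _ _ _ _ _ (.ma h e1 s) (.ma h e2 s), ih e1, ih e2]

theorem pl_ma (h : S.Nu 100) (f : St2 S) (e : ∀ T ⊆ A, Dir S (a T) (d T)) (s : ι → ℂ) :
    S.PL (ma A a s) (ma A d s) = ma A (fun T => S.PL (a T) (d T)) s :=
  lin_ma h (fun _ _ _ _ t ⟨_, _, _, a, b, _⟩ ⟨_, _, _, a', b', _⟩ => f.lin _ _ _ _ _ _ _ _ t a a' b b')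
    e s

theorem Dir.pm (f : St2 S) {ψ : Lx} {K : Ac} (e : Dir S ψ K) : ∃ x y z, PM S.p' x y z (S.PL ψ K) :=
  let ⟨_, _, _, ⟨⟨_, _, _, a⟩, _⟩, b, c⟩ := e
  ⟨_, _, _, (f.ps _ _ _ _ _ _ _ a b c).1⟩

/-- the new activities of a family -/
theorem fa_KK (f : St2 S) {ψ : (ι → ℂ) → Lx} (hr : ∀ i, 0 < r i) (h1 : SL r ψ) (h2 : SA r K)
    (sm : ∀ s ∈ Pd r, S.Sml b θ k (ψ s) (K s))
    (hk : ∀ ψ K, S.Sml b θ k ψ K → KM S.p' S.n k' (S.KK ψ K)) :
    FA r S.p' S.n k' fun s => S.KK (ψ s) (K s) :=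
  ⟨hr, fun s hs i => f.hol _ _ _ _ _ _ isOpen_ball (fun _ ht => sm _ (Pd.upd hs ht)) (h1 s hs i)
    (h2 s hs i), fun s hs => hk _ _ (sm s hs)⟩

/-- one step for a family -/
theorem fam_step (h : S.Nu 100) (st : St2 S) {ψ : (ι → ℂ) → Lx} {c : (ι → ℂ) → ℂ} (h1 : SL r ψ)
    (h2 : SA r K) (sm : ∀ s ∈ Pd r, S.Sml b θ k (ψ s) (K s)) (hc : Hb r c)
    (h3 : FL r S.p' fun s => S.Φ' (ψ s) (K s)) (h4 : ∀ y, Hb r fun s => S.Ey (ψ s) (K s) y)
    (e : EqD r A S.nf f fun s U => c s * Rep S.p S.nf (S.Φ (ψ s)) (K s) U) :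
    EqD r A S.n (fun s => TT S.l (S.β * S.L ^ 2) S.n (f s)) fun s U =>
      c s * Complex.exp (∑ y ∈ S.Λ', S.Ey (ψ s) (K s) y) *
        Rep S.p' S.n (S.Φ' (ψ s) (K s)) (trK A (fun s => S.KK (ψ s) (K s)) s) U := by
  have z := sm 0 (zero_mem h3.pos)
  obtain ⟨k', -, hk⟩ := st.K b θ k z.b_le z.θ_le z.b0 z.kn
  have a := rep_trK (A := A) h.p'_ok.1 (Real.sqrt_nonneg _) h3 (fa_KK st h3.pos h1 h2 sm hk)
  have b := (hc.refl.mul (Eqv.sum (A := A) (X := S.Λ') h3.pos fun y _ => (h4 y).refl).exp).fst.hd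
  refine ((e.tt _).congr (b.mul a.fst) fun s hs U hU => ?_).trans (b.refl.mul a)
  rw [TT_mul, mul_assoc, ← st.id _ _ _ _ _ (sm s hs) U hU]

end En

open En in
/-- multi-affine families satisfy the hypotheses of `fam_step` -/
theorem fam_ma (c : ℕ) : ∀ᶠ S in ev c, St2 S → ∀ (ι : Type) [DecidableEq ι] (r : ι → ℝ)
    (A : Finset ι) (a : Finset ι → Lx) (d : Finset ι → Ac), (∀ i, 0 < r i) →
    (∀ T ⊆ A, Dir S (a T) (d T)) → (FL r S.p' fun s => S.Φ' (ma A a s) (ma A d s)) ∧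
      ∀ y, (Hb r fun s => S.Ey (ma A a s) (ma A d s) y) ∧ ∀ s, S.Ey (ma A a s) (ma A d s) y =
        S.Ey 0 0 y + ma A (fun T => S.Ey (a T) (d T) y - S.Ey 0 0 y) s := by
  filter_upwards [ev_nu' c 100, pl_lin c, ev_tok, tk c] with S h hl ht k st ι _ r A a d hr e
  refine ⟨?_, fun y => ?_⟩
  · have z := (e ∅ (empty_subset _)).zero h
    obtain ⟨_, _, _, z1⟩ := z.pm st
    have := (fl_ma hr fun T hT => (Dir.pm st (e T hT)).choose_spec.choose_spec.choose_spec.lo).add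
      (h.lo_Φ' ht k st.ol.1.lo z1.lo)
    obtain ⟨_, _, _, u, v, -⟩ := z
    simp only [Sd.Φ', ← pl_ma h st e, (hl _ _ _ _ _ _ _ _ 0 u u v v).2.1, Pi.zero_apply,
      add_zero] at this
    exact this
  · have : ∀ s, S.Ey (ma A a s) (ma A d s) y =
        S.Ey 0 0 y + ma A (fun T => S.Ey (a T) (d T) y - S.Ey 0 0 y) s := fun s => by
      rw [← lin_ma (F := fun ψ K => S.Ey ψ K y - S.Ey 0 0 y) h (fun _ _ _ _ t ⟨_, _, _, a, b, _⟩
        ⟨_, _, _, a', b', _⟩ => by rw [(hl _ _ _ _ _ _ _ _ t a a' b b').2.2, smul_eq_mul]; ring) e s]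
      ring
    exact ⟨⟨_, ((sh_const hr _).add (sh_ma hr _ _)).congr fun s _ => this s⟩, this⟩

end Pool.Agent.Lib.MP_7f377f_mp.RG.Q4
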