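import Pool.Agent.Lib.MP_7f377f_mp.Q4EG
import Pool.Agent.Lib.MP_7f377f_mp.Q4JetR
import Pool.Agent.Lib.MP_7f377f_mp.Q4FinB
import Pool.Agent.Lib.MP_7f377f_mp.WeakRP

/-! Covariance of the block spin transformation and means at the flat field. -/

noncomputable section

open Pool.Agent.Lib.MP_7f377f_mp.Jet

namespace Pool.Agent.Lib.MP_7f377f_mp.RG.Q4

open Finset MeasureTheory Mx

namespace Sg

variable {l n : ℕ} {f g : Conf → ℂ} {W : Conf}

theorem cont_rfl (k : Fin 4) : Continuous fun U : Conf => rfl1 Inv.inv k U :=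
  continuous_pi fun e => by
    unfold rfl1
    split_ifs <;> fun_prop

variable (a : ℝ) (hn : Odd n) (hf : Measurable f) (hW : Per n W)
include hn hf hW

theorem TT_sh (x : St) : TT l a n f (sh x W) = TT l a n (fun U => f (sh (up l x) U)) W := by
  rw [TT_eq, TT_eq, ← int_rel (meas_Itg' l a n (measurable_blk l) hf _)
    ((Ms.cont_sh _).measurable.comp (cont_pc (LL l * n)).measurable)
    (S' := fun ω y => pcs n ω (y + x)) (measurable_pi_lambda _ fun _ => measurable_pi_apply _)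
    (map_sh _ (up l x)) (map_rel (unO l) (T := fun _ => id) (fun _ => MeasurePreserving.id _)
      (rc_rc n) (fun _ _ => by simp only [rc_iff, cg_add_iff]) fun _ => rfl)]
  refine integral_congr_ae (.of_forall fun v => ?_)
  simp only [Itg, Function.comp]
  rw [ker_rel hn (per_iff.1 hW) (PL_pc _ _) (PS_pcs _ _) (fun _ _ => cg_add_iff x) (rel_sh n x)
    (fun y => by rw [sh_sh, up_add]) fun b => by rw [blk_sh]; rfl]

theorem TT_pm (σ : Equiv.Perm (Fin 4)) :
    TT l a n f (pm σ W) = TT l a n (fun U => f (pm σ U)) W := by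
  have hT := mp_unO l (T := opm σ⁻¹) (Function.bijective_iff_has_inverse.2
    ⟨opm σ, opm_inv σ, opm_inv σ⁻¹⟩) fun ω => pz_box _ _
  rw [TT_eq, TT_eq, ← int_rel (meas_Itg' l a n (measurable_blk l) hf _)
    ((cont_pm _).measurable.comp (cont_pc (LL l * n)).measurable)
    (S' := fun ω y => opm σ⁻¹ (pcs n ω (pz σ y)))
    (measurable_pi_lambda _ fun _ => hT.measurable.comp (measurable_pi_apply _))
    (map_pm _ σ) (map_rel (unO l) (fun _ => hT)
      (rc_rc n) (fun _ _ => by simp only [rc_iff, cg_pz]) fun _ => rfl)]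
  refine integral_congr_ae (.of_forall fun v => ?_)
  simp only [Itg, Function.comp]
  rw [ker_rel hn (per_iff.1 hW) (PL_pc _ _) (PS_pcs _ _) (fun _ _ => cg_pz σ) (rel_pm n σ)
    (fun y => by rw [sh_pm, wt_pm, opm_inv, pz_up]) fun b => by
      rw [blk_pm σ l _ fun y => opm_inv _ _]; rfl]

theorem TT_rfl (k : Fin 4) :
    TT l a n f (rfl1 Inv.inv k W) = TT l a n (fun U => f (rfl1 Inv.inv k U)) W := by
  have hT := mp_unO l (T := orf k) (Function.Involutive.bijective (orf_orf k))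
    fun ω => rz_box _ _
  rw [TT_eq, TT_eq, ← int_rel (meas_Itg' l a n (measurable_blk l) hf _)
    ((cont_rfl k).measurable.comp (cont_pc (LL l * n)).measurable)
    (S' := fun ω y => orf k (pcs n ω (rz k y)))
    (measurable_pi_lambda _ fun _ => hT.measurable.comp (measurable_pi_apply _))
    (map_rfl _ k) (map_rel (unO l) (fun _ => hT)
      (rc_rc n) (fun _ _ => by simp only [rc_iff, cg_rz]) fun _ => rfl)]
  refine integral_congr_ae (.of_forall fun v => ?_)
  simp only [Itg, Function.comp]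
  rw [ker_rel hn (per_iff.1 hW) (PL_pc _ _) (PS_pcs _ _) (fun _ _ => cg_rz k) (rel_rfl n k)
    (fun y => by rw [sh_rfl, wt_rfl, orf_orf, rz_up]) fun b => ?_]
  rw [blk_rfl k l _ fun y => orf_orf _ _, rfl1_eq, rfl1_eq]
  split_ifs
  · rw [← hk_inv, ← Mx.hk_conj a (blk l (pc (LL l * n) v.1) (pcs n v.2) (rlk k b))]
    congr 1
    group
  · rfl

omit hn hf hW

theorem TT_congr (h : ∀ U, Per (LL l * n) U → f U = g U) : TT l a n f = TT l a n g :=
  funext fun _ => by simp only [TT, h _ (per_pc _ _)]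

/-- bounded measurable functions -/
def BC (f : Conf → ℂ) : Prop := Measurable f ∧ ∃ M, ∀ U, ‖f U‖ ≤ M

theorem BC.tt (h : BC f) (l : ℕ) (a : ℝ) (n : ℕ) : BC (TT l a n f) :=
  let ⟨_, hM⟩ := h.2
  let ⟨_, hC⟩ := TT_bd l a n
  ⟨meas_TT l a n h.1, _, fun W => hC f _ W hM⟩

theorem TT_add (h : BC f) (h' : BC g) (W : Conf) :
    TT l a n (fun U => f U + g U) W = TT l a n f W + TT l a n g W := by
  obtain ⟨C, -, hC⟩ := Itg_bd l a n
  have k : ∀ {f}, BC f → Integrable (fun v : Conf × (St → Om) => Itg (blk l) l a n f W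
      (pc (LL l * n) v.1, pcs n v.2)) (PP.prod (OO l)) := fun ⟨hm, M, hM⟩ =>
    .of_bound ((meas_Itg' l a n (measurable_blk l) hm W).comp (meas_pp _ _)).aestronglyMeasurable _
      (.of_forall fun v => hC _ _ M _ _ hM)
  rw [TT_eq, TT_eq, TT_eq, ← integral_add (k h) (k h')]
  simp only [Itg, add_mul]

theorem TT_real (h : ∀ U, (f U).im = 0) (W : Conf) : (TT l a n f W).im = 0 := by
  have : f = fun U => ((f U).re : ℂ) := funext fun U => Complex.ext rfl (h U)
  rw [this, TT]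
  simp only [← Complex.ofReal_mul, integral_complex_ofReal, Complex.ofReal_im]

variable [NeZero n]

theorem rs_sh (hW : Per n W) (v : St) :
    Fi.rs n (sh v W) = Weak.shift (Fi.cst n v) (Fi.rs n W) := funext fun b => by
  have : b.1 + Fi.cst n v = Fi.cst n (Fi.vl b.1 + v) := by rw [Fi.cst_add, Fi.cst_vl]
  simp only [Fi.rs, Fi.res, Weak.shift, this, Fi.vl_cst, sh]
  exact (congrFun (Sh.pc_per hW) (_, _)).symm

theorem rs_rfl (hW : Per n W) (k : Fin 4) :
    Fi.rs n (rfl1 Inv.inv k W) = Weak.refl k (Fi.rs n W) := funext fun b => by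
  have h1 : Weak.rc k b.1 = Fi.cst n (Function.update (Fi.vl b.1) k (-Fi.vl b.1 k - 1)) := by
    funext i
    have := congrFun (Fi.cst_vl b.1) i
    by_cases h : i = k
    · subst h
      simp_all [Weak.rc, Weak.rf, Fi.cst]
    · simp_all [Weak.rc, Weak.rf, Fi.cst]
  have h2 : Weak.rf k b.1 = Fi.cst n (Function.update (Fi.vl b.1) k (-Fi.vl b.1 k)) := by
    funext i
    have := congrFun (Fi.cst_vl b.1) i
    by_cases h : i = k
    · subst h
      simp_all [Weak.rf, Fi.cst]
    · simp_all [Weak.rf, Fi.cst]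
  have h3 : ∀ x μ, W (rc n x, μ) = W (x, μ) := fun x μ => congrFun (Sh.pc_per hW) (x, μ)
  simp only [Fi.rs, Fi.res, Weak.refl, Weak.rl, rfl1]
  split_ifs with h
  · rw [h1, Fi.vl_cst, h3, h]
    rfl
  · rw [h2, Fi.vl_cst, h3]

end Sg

namespace En.Gl

open Sg

variable (G : Gl)

/-- the function `f` at level `J` carried down to level `k` -/
def tt (f : Conf → ℂ) (J k : ℕ) : Conf → ℂ :=
  dw (fun k g => TT (G.l k) (G.a k) (G.N k) g) f J k

/-- the mean of an observable of level `J` when the field at level `j` is flat -/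
def al (b : ℝ) (J j : ℕ) (O : YM4.Cfg (G.N J) → ℝ) : ℝ :=
  (G.tt (fun U => (O (Fi.rs _ U) * wil b (G.N J) U : ℝ)) J j 1).re / (G.f b J j 1).re

variable {G} {f g : Conf → ℂ} {J k : ℕ} {b : ℝ} {O O' : YM4.Cfg (G.N J) → ℝ}

theorem tt_top (f : Conf → ℂ) (J : ℕ) : G.tt f J J = f := dw_top ..

theorem tt_step (f : Conf → ℂ) (h : k < J) :
    G.tt f J k = TT (G.l k) (G.a k) (G.N k) (G.tt f J (k + 1)) := dw_step _ _ h

theorem tt_meas (hf : Measurable f) (hk : k ≤ J) : Measurable (G.tt f J k) :=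
  dw_ind (P := fun k => Measurable (G.tt f J k)) (by rwa [tt_top])
    (fun _ h a => tt_step f h ▸ meas_TT _ _ _ a) k hk

theorem tt_bc (hf : BC f) (hk : k ≤ J) : BC (G.tt f J k) :=
  dw_ind (P := fun k => BC (G.tt f J k)) (by rwa [tt_top])
    (fun _ h a => tt_step f h ▸ a.tt _ _ _) k hk

theorem tt_real (hf : ∀ U, (f U).im = 0) (hk : k ≤ J) : ∀ U, (G.tt f J k U).im = 0 :=
  dw_ind (P := fun k => ∀ U, (G.tt f J k U).im = 0) (by rwa [tt_top])
    (fun _ h a => tt_step f h ▸ TT_real _ a) k hk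

theorem tt_mul (c : ℂ) (f : Conf → ℂ) (hk : k ≤ J) :
    G.tt (fun U => c * f U) J k = fun U => c * G.tt f J k U :=
  dw_ind (P := fun k => G.tt (fun U => c * f U) J k = fun U => c * G.tt f J k U)
    (by rw [tt_top, tt_top]) (fun _ h a => by
      rw [tt_step _ h, tt_step f h, a]; exact funext (TT_mul _ _ _ _ _)) k hk

theorem tt_add (hf : BC f) (hg : BC g) (hk : k ≤ J) :
    G.tt (fun U => f U + g U) J k = fun U => G.tt f J k U + G.tt g J k U :=
  dw_ind (P := fun k => G.tt (fun U => f U + g U) J k = fun U => G.tt f J k U + G.tt g J k U)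
    (by rw [tt_top, tt_top, tt_top]) (fun _ h a => by
      rw [tt_step _ h, tt_step f h, tt_step g h, a]
      exact funext (TT_add _ (tt_bc hf h) (tt_bc hg h))) k hk

section jets

variable {ι : Type} [DecidableEq ι] {r : ι → ℝ} {F : (ι → ℂ) → Conf → ℂ}

theorem tt_hd (h : HD r F) (hk : k ≤ J) : HD r fun s => G.tt (F s) J k :=
  dw_ind (P := fun k => HD r fun s => G.tt (F s) J k) (by simpa only [tt_top] using h)
    (fun _ h a => by simpa only [tt_step _ h] using a.tt _ _ _) k hk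

theorem jd_tt (h : HD r F) (hk : k ≤ J) (T : Finset ι) :
    ∀ W, jd T (fun s => G.tt (F s) J k W) = G.tt (fun U => jd T (F · U)) J k W :=
  dw_ind (P := fun k => ∀ W, jd T (fun s => G.tt (F s) J k W) =
    G.tt (fun U => jd T (F · U)) J k W) (fun _ => by simp only [tt_top])
    (fun _ e a W => by
      simp only [tt_step _ e]
      rw [(tt_hd h e).jd_tt, funext a]) k hk

end jets

namespace Ok

variable (h : G.Ok)
include h

theorem f_tt (b : ℝ) (hk : k ≤ J) : G.f b J k = G.tt (fun U => (wil b (G.N J) U : ℝ)) J k :=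
  dw_ind (P := fun k => G.f b J k = G.tt (fun U => (wil b (G.N J) U : ℝ)) J k)
    (by rw [tt_top, f_top]) (fun _ e a => by rw [tt_step _ e, h.f_step b e, a]) k hk

theorem tt_congr (e : ∀ U, Per (G.N J) U → f U = g U) (hk : k ≤ J) :
    ∀ W, Per (G.N k) W → G.tt f J k W = G.tt g J k W :=
  dw_ind (P := fun k => ∀ W, Per (G.N k) W → G.tt f J k W = G.tt g J k W)
    (by simpa only [tt_top] using e) (fun k e a W _ => by
      rw [tt_step f e, tt_step g e, TT_congr _ fun U hU => a U (h.N_succ k ▸ hU)]) k hk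

omit h in
/-- a family of symmetries which commutes with the steps -/
theorem tt_cov {σ : ℕ → Conf → Conf} (hf : Measurable f) {j : ℕ}
    (hσ : ∀ k, j ≤ k → k < J → ∀ g, Measurable g → ∀ W, Per (G.N k) W →
      TT (G.l k) (G.a k) (G.N k) g (σ k W) = TT (G.l k) (G.a k) (G.N k) (fun U => g (σ (k + 1) U)) W)
    (hN : ∀ k, G.L k * G.N k = G.N (k + 1)) (hj : j ≤ J) :
    ∀ W, Per (G.N j) W → G.tt f J j (σ j W) = G.tt (fun U => f (σ J U)) J j W :=
  dw_ind (P := fun k => j ≤ k → ∀ W, Per (G.N k) W →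
    G.tt f J k (σ k W) = G.tt (fun U => f (σ J U)) J k W) (fun _ _ _ => by simp only [tt_top])
    (fun k e a hk W hW => by
      rw [tt_step f e, tt_step _ e, hσ k hk e _ (tt_meas hf e) W hW,
        TT_congr _ fun U hU => a (by omega) U (hN k ▸ hU)]) j hj le_rfl

theorem N_div (hk : k ≤ J) : G.N J / G.N k = 3 ^ (G.e J - G.e k) := by
  rw [N, N, Nat.mul_div_mul_left _ _ h.odd.pos,
    Nat.pow_div (h.sch.mono.monotone hk) (by norm_num)]

theorem tt_sh (hf : Measurable f) (hk : k ≤ J) {W : Conf} (hW : Per (G.N k) W) (x : St) :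
    G.tt f J k (sh x W) = G.tt (fun U => f (sh (((G.N J / G.N k : ℕ) : ℤ) • x) U)) J k W := by
  have := tt_cov (σ := fun i => sh (((G.N i / G.N k : ℕ) : ℤ) • x)) hf (fun i hi _ g hg W hW => by
    rw [TT_sh _ (h.N_odd i) hg hW, up, smul_smul, ← Nat.cast_mul, h.N_div hi,
      h.N_div (hi.trans i.le_succ), l, LL_ll, ← pow_add]
    have := h.sch.mono.monotone hi
    have := h.sch.mono.monotone (i.le_add_right 1)
    rw [show G.e (i + 1) - G.e i + (G.e i - G.e k) = G.e (i + 1) - G.e k by omega])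
    h.N_succ hk W hW
  rwa [Nat.div_self (h.N_odd k).pos, Nat.cast_one, one_smul] at this

theorem tt_pm (hf : Measurable f) (hk : k ≤ J) {W : Conf} (hW : Per (G.N k) W)
    (σ : Equiv.Perm (Fin 4)) : G.tt f J k (pm σ W) = G.tt (fun U => f (pm σ U)) J k W :=
  tt_cov (σ := fun _ => pm σ) hf (fun i _ _ _ hg _ hW => TT_pm _ (h.N_odd i) hg hW σ)
    h.N_succ hk W hW

theorem tt_rfl (hf : Measurable f) (hk : k ≤ J) {W : Conf} (hW : Per (G.N k) W) (i : Fin 4) :
    G.tt f J k (rfl1 Inv.inv i W) = G.tt (fun U => f (rfl1 Inv.inv i U)) J k W :=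
  tt_cov (σ := fun _ => rfl1 Inv.inv i) hf (fun j _ _ _ hg _ hW => TT_rfl _ (h.N_odd j) hg hW i)
    h.N_succ hk W hW

omit h in
theorem bc_obs (hO : Continuous O) (b : ℝ) :
    BC fun U => ((O (Fi.rs _ U) * wil b (G.N J) U : ℝ) : ℂ) := by
  have h1 : Continuous (Fi.rs (G.N J)) :=
    continuous_pi fun b => continuous_apply (Fi.vl b.1, b.2)
  have h2 : Continuous (wil b (G.N J)) := ((cont_wact _).const_mul b).neg.rexp
  have : Continuous fun U => ((O (Fi.rs _ U) * wil b (G.N J) U : ℝ) : ℂ) :=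
    Complex.continuous_ofReal.comp ((hO.comp h1).mul h2)
  exact ⟨this.measurable, (isCompact_univ.exists_bound_of_continuousOn this.continuousOn).imp
    fun _ h U => h U trivial⟩

theorem al_cov {σ : Conf → Conf} (hj : k ≤ J) (e : ∀ U, Per (G.N J) U →
      O' (Fi.rs _ U) = O (Fi.rs _ (σ U)) ∧ wact (G.N J) (σ U) = wact (G.N J) U)
    (c : G.tt (fun U => (O (Fi.rs _ U) * wil b (G.N J) U : ℝ)) J k 1 =
      G.tt (fun U => (O (Fi.rs _ (σ U)) * wil b (G.N J) (σ U) : ℝ)) J k 1) :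
    G.al b J k O' = G.al b J k O := by
  rw [al, al, c, h.tt_congr (fun U hU => ?_) hj 1 fun _ => rfl]
  rw [(e U hU).1]
  exact congrArg (fun x => ((_ * Real.exp (-(b * x)) : ℝ) : ℂ)) (e U hU).2.symm

theorem al_shift (hO : Continuous O) (hj : k ≤ J) (v : St) :
    G.al b J k (fun U => O (Weak.shift (Fi.cst _ (((G.N J / G.N k : ℕ) : ℤ) • v)) U)) =
      G.al b J k O :=
  have : NeZero (G.N J) := ⟨(h.N_odd J).pos.ne'⟩
  h.al_cov hj (fun U hU => ⟨by rw [rs_sh hU], (wact_sym (h.N_odd J) hU).1 _⟩)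
    (h.tt_sh (bc_obs hO b).1 hj (W := 1) (fun _ => rfl) v)

/-- invariance under the translations by multiples of the side of the blocks -/
theorem al_shift' (hO : Continuous O) (hj : k ≤ J) {s : YM4.Site (G.N J)}
    (hs : ∀ i, ∃ t : ℤ, s i = ((G.N J / G.N k : ℕ) * t : ℤ)) :
    G.al b J k (fun U => O (Weak.shift s U)) = G.al b J k O := by
  choose t ht using hs
  exact (funext ht : s = Fi.cst _ (((G.N J / G.N k : ℕ) : ℤ) • t)) ▸ h.al_shift hO hj t

theorem al_refl (hO : Continuous O) (hj : k ≤ J) (i : Fin 4) :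
    G.al b J k (fun U => O (Weak.refl i U)) = G.al b J k O := by
  have : NeZero (G.N J) := ⟨(h.N_odd J).pos.ne'⟩
  refine h.al_cov hj (fun U hU => ⟨by rw [rs_rfl hU], (wact_sym (h.N_odd J) hU).2.2 _⟩)
    (Eq.trans (congrArg _ (funext fun e => ?_)) (h.tt_rfl (bc_obs hO b).1 hj (fun _ => rfl) i))
  simp [rfl1]

omit h in
theorem al_add (hO : Continuous O) (hO' : Continuous O') (hj : k ≤ J) :
    G.al b J k (fun U => O U + O' U) = G.al b J k O + G.al b J k O' := by
  simp only [al, add_mul, Complex.ofReal_add, tt_add (bc_obs hO b) (bc_obs hO' b) hj,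
    Complex.add_re, add_div]

omit h in
theorem al_mul (c : ℝ) (O : YM4.Cfg (G.N J) → ℝ) (hj : k ≤ J) :
    G.al b J k (fun U => c * O U) = c * G.al b J k O := by
  simp only [al, mul_assoc, Complex.ofReal_mul c, tt_mul _ _ hj, Complex.re_ofReal_mul,
    mul_div_assoc]

theorem al_const (b0 : 0 ≤ b) (c : ℝ) (hj : k ≤ J) : G.al b J k (fun _ => c) = c := by
  simp only [al, Complex.ofReal_mul c, tt_mul _ _ hj, Complex.re_ofReal_mul, ← h.f_tt b hj]
  exact mul_div_cancel_right₀ _ (((h.f_facts J k).1 b b0).2.2 1).2.ne'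

/-- the mean as a quotient of complex numbers -/
theorem al_eq (b0 : 0 ≤ b) (O : YM4.Cfg (G.N J) → ℝ) (hj : k ≤ J) : (G.al b J k O : ℂ) =
    G.tt (fun U => (O (Fi.rs _ U) * wil b (G.N J) U : ℝ)) J k 1 / G.f b J k 1 := by
  rw [al, Complex.ofReal_div]
  congr 1 <;> refine Complex.ext rfl ?_
  exacts [(tt_real (fun _ => Complex.ofReal_im _) hj 1).symm,
    (((h.f_facts J k).1 b b0).2.2 1).1.symm]

end Ok

end En.Gl

end Pool.Agent.Lib.MP_7f377f_mp.RG.Q4
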