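import Pool.Agent.Lib.MP_7f377f_mp.Q4PosW
import Pool.Agent.Lib.MP_7f377f_mp.Q4EG

/-! Slowly varying multiples of a direction through many levels. -/

noncomputable section

namespace Pool.Agent.Lib.MP_7f377f_mp.RG.Q4.En

open Finset Real Pos

namespace Gl

variable {G : Gl} {i j k : ℕ}

/-- the tangent map of the step from level `k + 1` to level `k` at the base point `b` -/
def ts (G : Gl) (k : ℕ) (z : Z) (b d : Lx × Ac) : Lx × Ac :=
  ((G.sd k z).PL d.1 d.2, dK (G.sd k z) b.1 b.2 d.1 d.2)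

/-- the ratio of the scales of two levels -/
def rt (G : Gl) (i k : ℕ) : ℕ := 3 ^ (G.e i - G.e k)

/-- a function on the lattice of level `i` seen on the lattice of level `k` -/
def fd (G : Gl) (i k : ℕ) (F : St → ℂ) (y : St) : ℂ := F ((G.rt i k : ℤ) • y)

theorem rt_top : G.rt i i = 1 := by simp [rt]

theorem fd_top (F : St → ℂ) : G.fd i i F = F := funext fun y => by simp [fd, rt]

namespace Ok

variable (h : G.Ok)
include h

theorem rt_N (hk : k ≤ i) : G.rt i k * G.N k = G.N i := by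
  rw [rt, N, N, mul_left_comm, ← pow_add, Nat.sub_add_cancel (h.sch.mono.monotone hk)]

theorem rt_step (hk : k < i) : G.rt i k = G.L k * G.rt i (k + 1) :=
  Nat.eq_of_mul_eq_mul_right (h.N_odd k).pos (by
    rw [h.rt_N hk.le, mul_right_comm, h.N_succ, mul_comm, h.rt_N hk])

theorem fd_step (hk : k < i) (F : St → ℂ) :
    G.fd i k F = fun y => G.fd i (k + 1) F (up (G.l k) y) := funext fun y => by
  rw [fd, fd, h.rt_step hk, up, smul_smul, mul_comm]
  rfl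

theorem fd_lip {a : ℝ} {F : St → ℂ} (hL : LipT (G.N i) a F) :
    ∀ k ≤ i, LipT (G.N k) (G.rt i k * a) (G.fd i k F) :=
  dw_ind (by rwa [fd_top, rt_top, Nat.cast_one, one_mul]) fun k hk ih => by
    rw [h.fd_step hk, h.rt_step hk, Nat.cast_mul, mul_assoc]
    exact LipT.up (by rwa [← h.N_succ] at ih)

theorem sz_fine {x y ω : ℝ} {ψ : Lx} {K : Ac} (z : Z) (s : G.Sz (k + 1) x y ω ψ K) :
    En.Sz (G.sd k z).p (G.sd k z).nf (G.sd k z).QM (G.sd k z).g x y ω ψ K := by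
  rw [h.sd_nf]
  exact s

/-- the tangent flow of a slowly varying multiple -/
theorem pos_chain {z : ℕ → Z} {b u v : ℕ → Lx × Ac} {ω : ℕ → ℝ} {F : St → ℂ} {a A N E : ℝ}
    (st : ∀ k, j ≤ k → k < i → St2 (G.sd k (z (k + 1))) ∧
      Tg (G.sd k (z (k + 1))) (ω (k + 1)) (b (k + 1)).1 (b (k + 1)).2 ∧ ω (k + 1) ≤ ω k)
    (hu : ∀ k, j ≤ k → k < i → u k = G.ts k (z (k + 1)) (b (k + 1)) (u (k + 1)))
    (hv : ∀ k, j ≤ k → k < i → v k = G.ts k (z (k + 1)) (b (k + 1)) (v (k + 1)))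
    (hN : ∀ k, j < k → k ≤ i → G.Sz k N N (ω k) (u k).1 (u k).2) (N0 : 0 < N)
    (hF : ∀ x, ‖F x‖ ≤ A) (hL : LipT (G.N i) a F) (a0 : 0 < a) (E0 : 0 ≤ E)
    (e : G.Sz i (E + 2 * G.Q i * a * N) (E + 2 * G.Q i * a * N) (ω i)
      ((v i).1 - mL F (u i).1) ((v i).2 - mA F (u i).2)) : ∀ k ≤ i, j ≤ k →
    G.Sz k (1.01 ^ (i - k) * E + 2 * G.Q k * (G.rt i k * a) * N)
      (1.01 ^ (i - k) * E + 2 * G.Q k * (G.rt i k * a) * N) (ω k)
      ((v k).1 - mL (G.fd i k F) (u k).1) ((v k).2 - mA (G.fd i k F) (u k).2) :=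
  dw_ind (fun _ => by simpa [fd_top, rt_top] using e) fun k hk ih hj => by
    obtain ⟨s1, s2, s3⟩ := st k hj hk
    have n := h.sd_nf k (z (k + 1))
    have := pos_step_w (h.sd_all k _).nu s1 s2 (h.sz_fine _ (hN (k + 1) (by omega) hk)) N0
      (F := G.fd i (k + 1) F) (fun _ => hF _) (n ▸ h.fd_lip hL _ hk)
      (mul_pos (Nat.cast_pos.2 (pow_pos three_pos _)) a0) (by positivity) s3
      (h.sz_fine _ (ih (by omega)))
    rw [hu k hj hk, hv k hj hk, h.fd_step hk, h.rt_step hk, Nat.cast_mul,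
      show i - k = i - (k + 1) + 1 by omega, pow_succ', mul_assoc 1.01, mul_assoc (G.L k : ℝ)]
    exact this

/-- growth of a direction along the tangent flow -/
theorem tan_chain {z : ℕ → Z} {b u : ℕ → Lx × Ac} {ω : ℕ → ℝ} {N : ℝ}
    (st : ∀ k, j ≤ k → k < i → St2 (G.sd k (z (k + 1))) ∧
      Tg (G.sd k (z (k + 1))) (ω (k + 1)) (b (k + 1)).1 (b (k + 1)).2 ∧ ω (k + 1) ≤ ω k)
    (hu : ∀ k, j ≤ k → k < i → u k = G.ts k (z (k + 1)) (b (k + 1)) (u (k + 1))) (N0 : 0 < N)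
    (e : G.Sz i N N (ω i) (u i).1 (u i).2) : ∀ k ≤ i, j ≤ k →
    G.Sz k (1.01 ^ (i - k) * N) (1.01 ^ (i - k) * N) (ω k) (u k).1 (u k).2 :=
  dw_ind (fun _ => by simpa using e) fun k hk ih hj => by
    obtain ⟨s1, s2, s3⟩ := st k hj hk
    have := s2.step1 (h.sd_all k _).nu s1 (h.sz_fine _ (ih (by omega))) (by positivity) s3
    rw [hu k hj hk, show i - k = i - (k + 1) + 1 by omega, pow_succ', mul_assoc 1.01]
    exact this

/-- the data of a good state are base points -/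
theorem gd_tg {b : ℝ} {J : ℕ} {z : Z} (d : G.Gd b J (k + 1) z) : St2 (G.sd k z) ∧
    Tg (G.sd k z) (√(G.g (k + 1))) z.ψ z.K ∧ √(G.g (k + 1)) ≤ √(G.g k) :=
  have n := (h.sd_all k z).nu
  ⟨h.st2 d.tz, (bs_of_sz n (h.sz_fine _ d.dt.sz) (qsq n (by norm_num))
    (pow_zero (G.sd k z).Q ▸ qsq n (i := 0) (by norm_num))).tg n (h.st2 d.tz), sqrt_le_sqrt (h.g_succ k)⟩

end Ok

end Gl

end Pool.Agent.Lib.MP_7f377f_mp.RG.Q4.En
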