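import Pool.Agent.Lib.MP_7f377f_mp.Q5TanD
import Pool.Agent.Lib.MP_7f377f_mp.Q5Fam

/-! Tangent flows: derivatives of the representation. -/

noncomputable section

open Pool.Agent.Lib.MP_7f377f_mp.Jet

namespace Pool.Agent.Lib.MP_7f377f_mp.RG.Q4.En

open Finset Real Metric Sg Pos

/-- curves of data with the derivative `d` -/
def Cu (γ : ℂ → Lx × Ac) (d : Lx × Ac) : Prop :=
  (∀ x B, HasDerivAt (fun t => (γ t).1 x B) (d.1 x B) 0) ∧
    ∀ X c U, HasDerivAt (fun t => (γ t).2 X c U) (d.2 X c U) 0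

/-- functionals of the data which are differentiable along curves -/
def Dv (F : Lx × Ac → ℂ) : Prop := ∀ b, ∃ L : Lx × Ac →ₗ[ℂ] ℂ, ∀ γ d, γ 0 = b → Cu γ d →
  HasDerivAt (fun t => F (γ t)) (L d) 0

section calculus

variable {F F' : Lx × Ac → ℂ} {S : Sd} {b d d' : Lx × Ac} {γ : ℂ → Lx × Ac}

theorem dv_const (c : ℂ) : Dv fun _ => c := fun _ => ⟨0, fun _ _ _ _ => hasDerivAt_const _ _⟩

theorem Dv.add (h : Dv F) (h' : Dv F') : Dv fun d => F d + F' d := fun b =>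
  let ⟨L, a⟩ := h b
  let ⟨L', a'⟩ := h' b
  ⟨L + L', fun γ d e c => (a γ d e c).add (a' γ d e c)⟩

theorem Dv.mul (h : Dv F) (h' : Dv F') : Dv fun d => F d * F' d := fun b =>
  let ⟨L, a⟩ := h b
  let ⟨L', a'⟩ := h' b
  ⟨F' b • L + F b • L', fun γ d e c => by
    simpa [e, mul_comm] using (a γ d e c).fun_mul (a' γ d e c)⟩

theorem Dv.exp (h : Dv F) : Dv fun d => Complex.exp (-F d) := fun b =>
  let ⟨L, a⟩ := h b
  ⟨-Complex.exp (-F b) • L, fun γ d e c => by simpa [e] using (a γ d e c).fun_neg.cexp⟩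

theorem Dv.sum {α : Type} {s : Finset α} {F : α → Lx × Ac → ℂ} (h : ∀ i, Dv (F i)) :
    Dv fun d => ∑ i ∈ s, F i d := by
  induction s using Finset.cons_induction with
  | empty => exact dv_const 0
  | cons i s hi ih => simpa only [sum_cons] using (h i).add ih

theorem Dv.prod {α : Type} {s : Finset α} {F : α → Lx × Ac → ℂ} (h : ∀ i, Dv (F i)) :
    Dv fun d => ∏ i ∈ s, F i d := by
  induction s using Finset.cons_induction with
  | empty => exact dv_const 1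
  | cons i s hi ih => simpa only [prod_cons] using (h i).mul ih

theorem dv_rep (S : Sd) (U : Conf) : Dv fun d => Rep S.p S.nf (S.Φ d.1) d.2 U :=
  have a : ∀ x, Dv fun d => Ix S.p (S.Φ d.1) (pc S.nf U) x := fun x =>
    (dv_const _).mul ((dv_const _).add fun _ => ⟨⟨⟨fun d => d.1 x _, fun _ _ => rfl⟩,
      fun _ _ => rfl⟩, fun _ _ _ c => c.1 x _⟩).exp
  .sum fun _ => .mul (.prod fun X => .sum fun c => .mul (fun _ => ⟨⟨⟨fun d => d.2 X c U,
    fun _ _ => rfl⟩, fun _ _ => rfl⟩, fun _ _ _ e => e.2 X c U⟩) (.prod a)) (.prod a)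

theorem der_line (a c : ℂ) : HasDerivAt (fun t : ℂ => a + t * c) c 0 := by
  simpa using ((hasDerivAt_id' (0 : ℂ)).mul_const c).const_add a

theorem dR_lin (S : Sd) (b : Lx × Ac) (U : Conf) : ∃ L : Lx × Ac →ₗ[ℂ] ℂ, (∀ d, dR S b d U = L d) ∧
    ∀ γ d, γ 0 = b → Cu γ d →
      HasDerivAt (fun t => Rep S.p S.nf (S.Φ (γ t).1) (γ t).2 U) (L d) 0 :=
  (dv_rep S U b).imp fun _ a => ⟨fun d => (a (fun t => b + t • d) d (by simp)
    ⟨fun _ _ => der_line _ _, fun _ _ _ => der_line _ _⟩).deriv, a⟩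

/-- the derivative of the representation along a curve of data -/
theorem rep_deriv (e : γ 0 = b) (c : Cu γ d) (U : Conf) :
    HasDerivAt (fun t => Rep S.p S.nf (S.Φ (γ t).1) (γ t).2 U) (dR S b d U) 0 :=
  let ⟨_, a, a'⟩ := dR_lin S b U
  a d ▸ a' γ d e c

theorem dR_sub (t : ℂ) (U : Conf) : dR S b (d - t • d') U = dR S b d U - t * dR S b d' U := by
  obtain ⟨L, a, -⟩ := dR_lin S b U
  simp [a]

end calculus

section families

variable {r : ℝ} {F : ℂ → Conf → ℂ} {p : Pa} {n : ℕ} {Φ φ : Lx} {K J : Ac} {k k' : Mj}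
  {f : Conf → ℂ}

theorem H1.diff (a : H1 r F) (U : Conf) : DifferentiableOn ℂ (F · U) (ball 0 r) := by
  simpa using (a.1.choose_spec U).hol 0 (zero_mem a.pos) ()

theorem jd_unit (F : ℂ → ℂ) : jd {()} (fun s : Unit → ℂ => F (s ())) = deriv F 0 := by
  simp [jd_single]

theorem H1.bc (a : H1 r F) : BC (F 0) ∧ BC (dF F) := by
  obtain ⟨M, hM⟩ := a.1
  have := fun U => jd_unit (F · U)
  refine ⟨⟨a.2 0 (zero_mem a.pos), M, fun U => (hM U).bd 0 (zero_mem a.pos)⟩, ?_, _,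
    fun U => (congrArg norm (this U)).ge.trans ((hM U).jd_le {()})⟩
  exact (funext this : _ = dF F) ▸ a.meas_jd {()}

theorem H1.tt (a : H1 r F) (l : ℕ) (c : ℝ) (n : ℕ) (W : Conf) :
    HasDerivAt (fun t => TT l c n (F t) W) (TT l c n (dF F) W) 0 := by
  have e := HD.jd_tt a l c n W {()}
  simp only [fun U => jd_unit (F · U), jd_unit fun t => TT l c n (F t) W] at e
  exact e ▸ ((H1.diff (F := fun t => TT l c n (F t)) (HD.tt a l c n) W).differentiableAt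
    (ball_mem_nhds _ (a.pos ()))).hasDerivAt

theorem _root_.Pool.Agent.Lib.MP_7f377f_mp.RG.Q4.Sg.BC.cm (a : BC f) (c : ℂ) :
    BC fun U => c * f U :=
  ⟨a.1.const_mul c, a.2.imp' (‖c‖ * ·) fun _ m U => norm_mul_le_of_le le_rfl (m U)⟩

theorem h1_line (hp : p.Ok) (hl : 0 ≤ p.lam) (a : LO p Φ) (a' : LO p φ) (c : KM p n k K)
    (c' : KM p n k' J) (k0 : ∀ X c, 0 ≤ k' X c) (r0 : 0 < r) :
    H1 r fun t => Rep p n (Φ + t • φ) (K + t • J) :=
  hd_rep (k := k + r • k') (Φ := fun s => Φ + s () • φ) (K := fun s => K + s () • J) hp hl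
    ⟨fun _ => r0, fun s _ i => by simpa using holL_line _ Φ φ,
      fun s _ x => (a.meas x).add ((a'.meas x).const_mul _), fun x =>
        let ⟨_, m⟩ := a.bd x
        let ⟨_, m'⟩ := a'.bd x
        ⟨_, fun s hs B u v => norm_add_le_of_le (m B u v) (norm_mul_le_of_le (hs ()).le (m' B u v))⟩⟩
    ⟨fun _ => r0, fun s _ i => by simpa using holA_line _ K J, fun s hs =>
      (c.add (c'.smul _)).mono fun X c => add_le_add le_rfl
        (mul_le_mul_of_nonneg_right (hs ()).le (k0 X c))⟩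

theorem phi_line (S : Sd) (ψ φ : Lx) (t : ℂ) : S.Φ (ψ + t • φ) = S.Φ ψ + t • φ :=
  funext fun _ => funext fun _ => (add_assoc _ _ _).symm

theorem Re.comb {ψ : Lx} (a : Re p n ψ K) (a' : Re p n φ J) (t : ℝ) :
    Re p n (ψ + (t : ℂ) • φ) (K + (t : ℂ) • J) :=
  ⟨fun x B u v => by simp [a.1 x B u v, a'.1 x B u v], fun X c U => by simp [a.2.1 X c, a'.2.1 X c],
    fun v => ⟨(congrArg₂ (· + (t : ℂ) • ·) (a.2.2 v).1 (a'.2.2 v).1 :), fun o ho =>
      (congrArg₂ (· + (t : ℂ) • ·) ((a.2.2 v).2 o ho) ((a'.2.2 v).2 o ho) :)⟩⟩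

end families

theorem pl_re {S : Sd} {ψ φ : Lx} {K J : Ac} (h : S.Nu 100) (f : St2 S) (a : Rm S ψ K)
    (a' : Dir S φ J) (r : Re S.p S.nf ψ K) (r' : Re S.p S.nf φ J) :
    Re S.p' S.n (S.PL φ J) (dK S ψ K φ J) := by
  obtain ⟨t, _, _, _, t0, s⟩ := line_sml h a a'
  have t1 : ((t / 2 : ℝ) : ℂ) ≠ 0 := Complex.ofReal_ne_zero.2 (half_pos t0).ne'
  have s1 := s (t / 2 : ℝ) (by
    rw [mem_ball_zero_iff, Complex.norm_real, norm_of_nonneg (half_pos t0).le]; linarith)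
  have s0 := s 0 (mem_ball_self t0)
  rw [zero_smul, zero_smul, add_zero, add_zero] at s0
  have c := r.comb r' (t / 2)
  obtain ⟨_, _, _, p, q, -⟩ := id a'
  have e := f.lin _ _ _ _ _ _ _ _ (t / 2 : ℝ) s0.pu p s0.km q
  refine ⟨fun x B u v => ?_, dK_real h f a a' r.1 r.2.1 r'.1 r'.2.1,
    fun v => ⟨?_, fun o ho => dK_cov h r.2.2 r'.2.2 v ho⟩⟩
  · have := (f.real _ _ _ _ _ s1 c.1 c.2.1).1 x B u v
    rw [e] at this
    simpa [(f.real _ _ _ _ _ s0 r.1 r.2.1).1 x B u v, t0.ne'] using this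
  · have := (f.cov _ _ _ _ _ s1 c.2.2 v).1
    rw [e] at this
    exact smul_right_injective _ t1 (add_left_cancel
      ((congrArg (· + _) (f.cov _ _ _ _ _ s0 r.2.2 v).1).symm.trans this))

theorem sO_one (n : ℕ) (U : Conf) : sO n 1 U = Mx.wact n U := by
  simp [sO, Mx.wact, Mx.wd_sh, mul_sum]

theorem Rt.next {S S' : Sd} {b d : Lx × Ac} {φ : Lx} {g g' : Conf → ℂ} (h : S.Nu 100) (f : St2 S)
    (u : S.Pu) (ht : S.TOk) (a : Rm S b.1 b.2) (a' : Dir S d.1 d.2) (e1 : S'.p = S.p')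
    (e2 : S'.nf = S.n) (e3 : ∀ ψ K, S.Φ' ψ K = S'.Φ (S.PL ψ K + φ)) (p : Rt S b d g g') :
    Rt S' (S.PL b.1 b.2 + φ, S.KK b.1 b.2) (S.PL d.1 d.2, dK S b.1 b.2 d.1 d.2)
      (TT S.l (S.β * S.L ^ 2) S.n g) (TT S.l (S.β * S.L ^ 2) S.n g') := by
  obtain ⟨κ, μ, p⟩ := p
  obtain ⟨r, _, _, _, r0, sm⟩ := line_sml h a a'
  obtain ⟨_, _, _, s0, -⟩ := id a
  obtain ⟨_, _, _, d1, d2, d3⟩ := id a'
  have H := h1_line h.p_ok.1 (sqrt_nonneg _) (h.lo_Φ ht s0.pu.lo) d1.lo s0.km d2 d3.1 r0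
  simp only [← phi_line] at H
  refine ⟨κ * Complex.exp (∑ y ∈ S.Λ', S.Ey b.1 b.2 y),
    μ + ∑ y ∈ S.Λ', (S.Ey d.1 d.2 y - S.Ey 0 0 y), fun W hW => ?_⟩
  have D := rep_deriv (S := S') (γ := fun t => (S.PL (b.1 + t • d.1) (b.2 + t • d.2) + φ,
    S.KK (b.1 + t • d.1) (b.2 + t • d.2))) (d := (S.PL d.1 d.2, dK S b.1 b.2 d.1 d.2)) rfl
    ⟨fun x B => by
      simp only [f.lin _ _ _ _ _ _ _ _ _ s0.pu d1 s0.km d2, add_right_comm _ (_ • _)]
      exact der_line _ _, dK_diff h f a a'⟩ W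
  rw [e1, e2] at *
  have i := fun t ht => f.id _ _ _ _ _ (sm t ht) W hW
  simp only [e3, ey_lin u a.dir a', sum_add_distrib, ← mul_sum] at i
  have e := (TT_mul (fun U hU => (p U hU).1) W).trans (congrArg (κ * ·) (f.id _ _ _ _ _ s0 W hW))
  rw [e3, ← mul_assoc] at e
  have D' := ((H.tt _ _ _ W).congr_of_eventuallyEq (Filter.mem_of_superset (ball_mem_nhds _ r0)
    fun t ht => (i t ht).symm)).unique ((der_line _ _).cexp.fun_mul D)
  have B := H.bc
  change _ ∧ BC (dR S b d) at B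
  change TT _ _ _ (dR S b d) W = _ at D'
  simp only [zero_smul, add_zero, zero_mul] at B D'
  refine ⟨e, ?_⟩
  rw [TT_congr (f := g') _ fun U hU => (p U hU).2.trans (by rw [(p U hU).1]),
    TT_add _ (B.2.cm κ) ((B.1.cm κ).cm μ), Q4.TT_mul, Q4.TT_mul,
    ← TT_congr _ fun U hU => (p U hU).1, D', e]
  ring

namespace Gl.Ok

variable {G : Gl} (h : G.Ok) {b x y x' y' ω ω' α r : ℝ} {J i j k : ℕ} {z : Z} {c d d' : Lx × Ac}
  {f f' g' : Conf → ℂ} {F : ℂ → Conf → ℂ}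
include h

/-- linear combinations -/
theorem tn_sub (a : G.Tn k z c f x y ω d f') (a' : G.Tn k z c f x' y' ω d' g') (_ : 0 ≤ ω)
    (f0 : f 1 ≠ 0) : G.Tn k z c f (x + |α| * x') (y + |α| * y') ω (d - (α : ℂ) • d')
      fun U => f' U - α * g' U := by
  obtain ⟨κ, μ, p⟩ := a.rt
  obtain ⟨κ', μ', p'⟩ := a'.rt
  have e := (p 1 fun _ => rfl).1
  obtain rfl : κ = κ' := mul_right_cancel₀ (right_ne_zero_of_mul (e ▸ f0))
    (e.symm.trans (p' 1 fun _ => rfl).1)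
  refine ⟨by simpa [Gl.Sz] using sz_sub (h.ρ0 k) a.sz (sz_smul (h.ρ0 k) a'.sz α),
    by simpa [sub_eq_add_neg] using a.re.comb a'.re (-α), κ, μ - α * μ', fun U hU => ⟨(p U hU).1, ?_⟩⟩
  simp only [(p U hU).2, (p' U hU).2, dR_sub]
  ring

theorem tn_step (hp : G.Pu) (t : G.Tz J (k + 1) z) (_ : k < J) (_ : |z.v - 1| ≤ 20⁻¹)
    (_ : |G.kp k z| ≤ 2 * G.Q k) (rc : Re (G.p (k + 1)) (G.N (k + 1)) c.1 c.2)
    (tg : Pos.Tg (G.sd k z) ω c.1 c.2) (a : G.Tn (k + 1) z c f x y ω d f') (h0 : 0 < x + y)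
    (e : ω ≤ ω') : G.Tn k (G.nx k z) (G.hs k z c) (TT (G.l k) (G.a k) (G.N k) f)
      (x + G.Q k ^ 50 * ω * (x + y)) ((G.sd k z).cr * (x + y)) ω' (G.ts k z c d)
      (TT (G.l k) (G.a k) (G.N k) f') ∧ ∀ a a' δ δ', Cv 0 δ a → Cv 0 δ' a' →
        ‖qc ((G.ts k z c d).1 0) a a' - qc (d.1 0) a a'‖ ≤ G.Q k ^ 50 * ω * (x + y) * δ * δ' := by
  have nu := (h.sd_all k z).nu
  have s := h.st2 t
  have sz := h.sz_sd a.sz z
  have dr := tg.dir nu sz
  have n := h.sd_nf k z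
  have p : Rt (G.sd k z) c d f f' := by
    have := a.rt
    unfold Rt dR at this ⊢
    rw [h.sl_nf] at this
    rw [n]
    exact this
  have a1 := tg.step nu s sz h0 e
  have a2 := pl_re nu s tg.rm dr (by rw [n]; exact rc) (by rw [n]; exact a.re)
  have a3 := Rt.next (S' := G.sl k (G.nx k z)) nu s
    (hp k z (h.tok_sd t)) (h.tok_sd t) tg.rm dr rfl (h.sl_nf ..) h.phi_eq p
  have a4 := (lin_step nu s sz tg.lo tg.hi).2 (TCov.cx (h.N_odd _) a.re.2.2)
  exact ⟨⟨a1, a2, a3⟩, a4⟩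

/-- the top level -/
theorem tn_top (a : G.Gd b J J (G.top b J)) : G.Tn J (G.top b J) (G.top b J).d (G.f b J J) (10 ^ 37) 1
    √(G.g J) (G.tu b J J) (G.df b J J) ∧ qc ((G.tu b J J).1 0) e1 e1 = 1 := by
  have nu := (h.sl_all J (G.top b J)).nu
  have n := h.sl_nf J (G.top b J)
  have b0 := h.b0 J
  have v : 2⁻¹ ≤ b / G.bb J := (v12 a.tz).1
  have e : b / G.bb J * (G.sl J (G.top b J)).β = b := div_mul_cancel₀ _ b0.ne'
  have a1 := src_sz nu (β := b) (F := 1) (A := 1) (show G.bb J / 2 ≤ b by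
    rw [le_div_iff₀ b0] at v; linarith) fun _ _ _ => norm_one.le
  have d := fun X c U => (sK_diff (p := G.p J) (n := G.N J) (β := b) (F := fun t : ℂ => t • (1 : Sr))
    (fun x μ ν => by simp) X c U 0).hasDerivAt
  rw [n, mul_one] at a1
  rw [tu, tc_top, df, tt_top, f_top]
  refine ⟨⟨a1, ⟨fun x B u _ => sL_real (fun _ _ _ => rfl) x B u, fun X c U => ?_,
    src_cov (h.N_odd J)⟩, 1, 0, fun U hU => ?_⟩, ?_⟩
  · refine (Complex.imCLM.hasFDerivAt.comp_hasDerivAt (0 : ℝ) (d X c U).comp_ofReal).unique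
      ((hasDerivAt_const (0 : ℝ) (0 : ℝ)).congr_of_eventuallyEq (.of_forall fun t => ?_))
    exact sK_real (fun _ _ _ => by simp) X c U
  · have i := fun t : ℂ => init_src nu (v := b / G.bb J) rfl rfl (t • 1) hU
    have D := rep_deriv (S := G.sl J (G.top b J)) (b := (G.top b J).d)
      (γ := fun t => (sL (t • 1), sK (G.p J) (G.N J) b (t • 1)))
      (d := (sL 1, Pos.dS (G.p J) (G.N J) b 1)) (by rw [zero_smul, sL_zero, sK_zero]; rfl)
      ⟨fun x B => by simpa [sL_smul] using der_line 0 (sL 1 x B), d⟩ U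
    have s : ∀ t : ℂ, sO (G.N J) (t • 1) U = 0 + t * sO (G.N J) 1 U := fun t => by
      simp [sO, mul_sum]
    rw [n] at D
    rw [n, e] at i
    have i0 := i 0
    rw [zero_smul, sL_zero, sK_zero] at i0
    simp only [s] at i
    simp only [sO, Pi.zero_apply, zero_mul, sum_const_zero, neg_zero, Complex.exp_zero,
      mul_one] at i0
    refine ⟨by rw [n, one_mul]; exact i0, ?_⟩
    rw [D.unique (((der_line _ _).fun_neg.cexp.const_mul _).congr_of_eventuallyEq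
      (.of_forall fun t => (i t).symm))]
    simp [mul_comm]
  · have := (h.lf (h.gd_top (b := G.bb J) (J := J) (by simp [b0.ne'])).tz).tree_ps.2.2 e1 e1
    simpa [sl, td, top, top0, b0.ne', m0_cc, m0_e1, sL_one] using this

theorem df_sym (hk : k ≤ J) : Sym (G.N k) (G.df b J k) := fun W hW => by
  have c := Mx.cont_wact (G.N J)
  have m : Measurable fun U => -sO (G.N J) 1 U * (wil b (G.N J) U : ℝ) := by
    simp only [sO_one]
    exact ((Complex.continuous_ofReal.comp c).neg.mul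
      (Complex.continuous_ofReal.comp (c.const_mul b).neg.rexp)).measurable
  have w : ∀ {σ : Conf → Conf}, (∀ U, Per (G.N J) U → Mx.wact (G.N J) (σ U) = Mx.wact (G.N J) U) →
      G.tt (fun U => -sO (G.N J) 1 (σ U) * (wil b (G.N J) (σ U) : ℝ)) J k W = G.df b J k W :=
    fun e => h.tt_congr (fun U hU => by
      rw [sO_one, sO_one, e U hU]
      exact congrArg (fun x => _ * ((exp (-(b * x)) : ℝ) : ℂ)) (e U hU)) hk W hW
  have s := fun U hU => Mx.wact_sym (U := U) (h.N_odd J) hU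
  exact ⟨fun x => (h.tt_sh m hk hW x).trans (w fun U hU => (s U hU).1 _),
    fun σ => (h.tt_pm m hk hW σ).trans (w fun U hU => (s U hU).2.1 _),
    fun i => (h.tt_rfl m hk hW i).trans (w fun U hU => (s U hU).2.2 _)⟩

theorem wf_h0 (a : G.Gd b J i z) (r0 : 0 < r) :
    H1 r fun t => Rep (G.p i) (G.N i) ((G.sl i z).Φ (z.ψ + t • z.w.1)) z.K := by
  have nu := (h.sl_all i z).nu
  obtain ⟨p, _, q, u⟩ := a.dt.sz
  have := h1_line nu.p_ok.1 (sqrt_nonneg _) (nu.lo_Φ (h.tok_sl a.tz) p.lo)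
    (h.lf a.tz).tree_ps.1.lo q (q.smul 0) (by simp) r0
  simp only [← phi_line, zero_smul, smul_zero, add_zero] at this
  exact this

theorem wf_h1 (a : G.Gd b J i z) (hk : k ≤ i) (r0 : 0 < r) : H1 r (G.wf i z k) :=
  tt_hd (h.wf_h0 a r0) hk

/-- `dF` commutes with the steps -/
theorem wf_dF (a : G.Gd b J i z) (hk : k ≤ i) :
    dF (G.wf i z k) = G.tt (dF (G.wf i z i)) i k := funext fun W => by
  have := jd_tt (G := G) (h.wf_h0 a one_pos) hk {()} W
  refine ((jd_unit fun t => G.wf i z k t W).symm.trans this).trans (congrArg (G.tt · i k W)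
    (funext fun U => ?_))
  simp only [dF, wf, tt_top]
  exact jd_unit fun t => Rep (G.p i) (G.N i) ((G.sl i z).Φ (z.ψ + t • z.w.1)) z.K U

/-- the start of the marginal direction -/
theorem tn_w (a : G.Gd b J i z) : ∃ κ : ℝ, 0 < κ ∧
    (∀ k ≤ i, i ≤ J → ∀ U, Per (G.N k) U → G.f b J k U = κ * G.wf i z k 0 U) ∧
    G.Tn i z z.d (G.f b J i) (G.L i) 1 √(G.g i) z.w (fun U => κ * dF (G.wf i z i) U) ∧
      |(qc (z.w.1 0) e1 e1).re - z.v| ≤ G.g i ^ 2 := by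
  obtain ⟨κ, κ0, p⟩ := a.dt.rp
  have lf := h.lf a.tz
  obtain ⟨a1, a2, a3⟩ := lf.tree_ps
  obtain ⟨-, _, q, u⟩ := a.dt.sz
  have n := h.sl_nf i z
  have q0 := h.Q0 i
  have g0 := h.g0 i
  refine ⟨κ, κ0, fun k hk hi => ?_, ⟨⟨PM.mono (h.ρ0 i) a1 le_rfl ?_ ?_, _,
    (zero_smul ℂ z.K).subst (q.smul 0), (u.smul (norm_nonneg _)).mono (by simp; positivity)⟩,
    ⟨a2, fun _ _ _ => rfl, fun _ => ⟨rfl, fun _ _ => rfl⟩⟩, κ, 0, fun U hU => ⟨p U hU, ?_⟩⟩, ?_⟩
  · refine dw_ind (P := fun k => ∀ U, Per (G.N k) U → G.f b J k U = κ * G.wf i z k 0 U)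
      (fun U hU => ?_) (fun k e ih U _ => ?_) k hk
    · rw [n] at p
      rw [wf, tt_top, zero_smul, add_zero]
      exact p U hU
    · rw [h.f_step b (e.trans_le hi), wf, tt_step _ e]
      exact TT_mul (fun U hU => ih U (h.N_succ k ▸ hU)) U
  · change G.Q i / G.L i ≤ _
    exact (div_le_self q0.le (by linarith [h.L1 i])).trans (by nlinarith [h.Q1 i])
  · rw [lf.ρ]
    change G.Q i * (G.Q i ^ 3 * G.g i) ^ 3 ≤ _
    calc _ = G.Q i ^ 10 * G.g i * 1 * G.g i ^ 2 := by ring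
      _ ≤ _ := by
        gcongr
        exacts [h.Q1 i, by norm_num, le_sqrt_of_sq_le (by nlinarith [h.g1 i])]
  · simp only [dF, dR, wf, tt_top, n, zero_mul, add_zero, Z.w, Z.d, smul_zero]
    rfl
  · have c := lf.cd cv_e1 cv_e1
    rw [m0_e1, mul_one, mul_one, mul_one, ← mul_sub, abs_mul] at c
    erw [a3, Complex.ofReal_re]
    refine le_of_mul_le_mul_left ((mul_le_mul_of_nonneg_right (le_abs_self _) (abs_nonneg _)).trans
      (c.trans ?_)) (h.b0 i)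
    change 64 * G.g i ^ 2 ≤ G.bb i * _
    gcongr
    linarith [h.Qbb i (i := 0) (by norm_num)]

end Gl.Ok

end Pool.Agent.Lib.MP_7f377f_mp.RG.Q4.En
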