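import Pool.Agent.Lib.MP_7f377f_mp.Q5TanG
import Pool.Agent.Lib.MP_7f377f_mp.Q5TanR

/-! The tangent of one run in the tree data of another run. -/

noncomputable section

namespace Pool.Agent.Lib.MP_7f377f_mp.RG.Q4.En

open Finset Real Pos

namespace Gl

/-- the tangent of the run `(b', J')` in the tree data of the run `(b, J)`, from level `i` on -/
def uh (G : Gl) (b : ℝ) (J : ℕ) (b' : ℝ) (J' i k : ℕ) : Lx × Ac :=
  dw (fun k d => G.ts k (G.zz b J (k + 1)) (G.hy b J b' J' i (k + 1)) d) (G.tu b' J' i) i k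

/-- the tangent of a run is marginal, isotropic and normalised -/
def TM (G : Gl) (b : ℝ) (J : ℕ) : Prop := ∀ k ≤ J,
  G.Tn k (G.zz b J k) (G.zz b J k).d (G.f b J k) 1000 10 √(G.g k) (G.tu b J k) (G.df b J k) ∧
    ∀ P, G.Q k ^ 14 ≤ P → P ≤ G.Q k ^ 250 →
      |gm (G.N k) (G.g k / P) (G.f b J k) (G.df b J k) - 1| ≤ (G.Q k ^ 60)⁻¹ ∧
      ∀ a a' δ δ', Cv 0 δ a → Cv 0 δ' a' → ‖qc ((G.tu b J k).1 0) a a' -
        (gm (G.N k) (G.g k / P) (G.f b J k) (G.df b J k) * m0 a a' : ℝ)‖ ≤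
          G.Q k ^ 505 * √(G.g k) * δ * δ'

variable {G : Gl} {b b' : ℝ} {J J' i k m n : ℕ}

theorem uh_top : G.uh b J b' J' i i = G.tu b' J' i := dw_top ..

theorem uh_step (hk : k < i) : G.uh b J b' J' i k =
    G.ts k (G.zz b J (k + 1)) (G.hy b J b' J' i (k + 1)) (G.uh b J b' J' i (k + 1)) :=
  dw_step _ _ hk

variable (h : G.Ok) (A : G.Tu b J) (B : G.Tu b' J') (hi : i ≤ J) (hi' : i ≤ J')
  (hd : Df (3 * (G.td i (G.zz b J i)).r) (3 / G.Q i ^ 405) (G.zz b' J' i).m (G.zz b J i).m)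
include h A B hi hi' hd

theorem Ok.hy_tg (hk : k < i) : St2 (G.sd k (G.zz b J (k + 1))) ∧
    Tg (G.sd k (G.zz b J (k + 1))) (G.Q (k + 1) ^ 280)⁻¹ (G.hy b J b' J' i (k + 1)).1
      (G.hy b J b' J' i (k + 1)).2 ∧ (G.Q (k + 1) ^ 280)⁻¹ ≤ (G.Q k ^ 280)⁻¹ :=
  have t := (A.gd (k + 1) (hk.trans_le hi)).tz
  ⟨h.st2 t, h.dt_tg t (h.hy_dt A B hi hi' hd _ hk).sz, h.om_succ k _⟩

variable (hp : G.Pu) (TA : G.TM b J) (TB : G.TM b' J')
include hp TB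

theorem Ok.uh_tn : ∀ k ≤ i, G.Tn k (G.zz b J k) (G.hy b J b' J' i k) (G.f b' J' k)
    1000 10 (G.Q k ^ 280)⁻¹ (G.uh b J b' J' i k) (G.df b' J' k) := by
  refine dw_ind ?_ fun k hk ih => ?_
  · obtain ⟨s, r, κ, κ', e⟩ := (TB _ hi').1
    have E : ∀ φ, (G.sl i (G.zz b J i)).Φ ((G.hy b J b' J' i i).1 + φ) =
        (G.sl i (G.zz b' J' i)).Φ ((G.zz b' J' i).ψ + φ) := fun φ => by
      ext; simp only [hy_top, Sd.Φ, Pi.add_apply, Pi.sub_apply, Pi.zero_apply]; ring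
    have E0 := E 0
    rw [add_zero, add_zero] at E0
    rw [uh_top]
    refine ⟨sz_gen (h.rh0 i) (h.Q0 i).le s le_rfl le_rfl (by gcongr; exact h.hy_sg i), r, κ, κ', ?_⟩
    simp only [dR, E, E0]
    rw [hy_top]
    exact e
  · have kJ := hk.trans_le hi
    have kJ' := hk.trans_le hi'
    have Q0 := h.Q0 k
    have Q1 := h.Q0 (k + 1)
    have c0 := h.cr0 k
    have w := h.om_succ k 280
    have c1 := h.cr1 k
    have a := (h.tn_step hp (A.gd _ kJ).tz kJ ((A.v (k + 1) kJ).trans (by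
      have := h.hy_pw (k + 1) (show 0 < 409 by norm_num)
      rw [pow_zero] at this; linarith)) (A.lam k kJ).1 (h.hy_dt A B hi hi' hd _ hk).re
      (h.hy_tg A B hi hi' hd hk).2.1 ih (by norm_num) w).1
    rw [← zz_step b kJ, ← hy_step hk, ← h.f_step b' kJ', ← uh_step hk, df, ← tt_step _ kJ', ← df,
      sd_cr] at a
    have d := h.hy_dt A B hi hi' hd k hk.le
    have F := (h.f_facts J' k).1 b' B.b0
    have q := h.tn_q (A.gd k kJ.le).tz d.sz (TCov.cx (h.N_odd k) d.re.2.2) a F.2.1 (h.df_sym kJ'.le)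
      F.2.2 (h.u_g k (by linarith [h.u_one k])) (h.hy_sg k) (h.om_mono k (by norm_num))
    have g := (((TB _ kJ'.le).2 _ le_rfl
      (pow_le_pow_right₀ (h.Q1 k) (by norm_num))).1).trans (inv_le_one_of_one_le₀ (one_le_pow₀ (h.Q1 k)))
    refine ⟨sz_gen (h.rh0 k) Q0.le (sz_cb a.sz (TCov.cx (h.N_odd k) a.re.2.2) fun v v' δ δ' hv hv' =>
      ?_) le_rfl (by linarith) (by gcongr; linarith), a.re, a.rt⟩
    have b1 : G.Q k ^ 50 * (G.Q (k + 1) ^ 280)⁻¹ ≤ 1 :=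
      (mul_le_mul (pow_le_pow_right₀ (h.Q1 k) (show 50 ≤ 100 by norm_num)) le_rfl (by positivity)
        (by positivity)).trans (h.om_one (w.trans (h.om_mono k (by norm_num))))
    have b2 : 720 * G.Q k ^ 28 * (G.Q k ^ 280)⁻¹ ≤ 1 / 1000 := by
      rw [show 720 * G.Q k ^ 28 * (G.Q k ^ 280)⁻¹ = 720 * (G.Q k ^ 252)⁻¹ by field_simp]
      linarith [h.inv_c k (j := 252) (by norm_num)]
    have b3 := mul_le_mul (show |gm _ _ _ _| ≤ 2 from (abs_sub_abs_le_abs_sub _ 1).trans g |>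
      (by rw [abs_one] at ·; linarith)) (m0_le hv hv') (abs_nonneg _) zero_le_two
    rw [← abs_mul, ← norm_eq_abs, ← Complex.norm_real] at b3
    have δ0 := mul_nonneg hv.nonneg hv'.nonneg
    refine (norm_le_norm_sub_add _ _).trans ((add_le_add (q _ _ _ _ hv hv') b3).trans ?_)
    have := mul_le_mul b2 (show 1000 + G.Q k ^ 50 * (G.Q (k + 1) ^ 280)⁻¹ * (1000 + 10) +
      G.cr k * (1000 + 10) ≤ 3000 by linarith) (by positivity)
      (by norm_num)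
    nlinarith

include TA

/-- one step for the difference of the tangents -/
theorem Ok.uh_dif (γ : ℝ) {r : ℕ → Lx × Ac}
    (hr : ∀ k, G.uh b J b' J' i k - (γ : ℂ) • G.tu b J k = r k) : (∀ k ≤ i, ∀ v, (r k).1 v = (r k).1 0) ∧
    ∀ k < i, ∀ x y ω ω' τ, 0 < x + y → G.Sz (k + 1) x y ω (r (k + 1)).1 (r (k + 1)).2 →
      √(G.g (k + 1)) ≤ ω → ω ≤ ω' → ω ≤ (G.Q k ^ 100)⁻¹ → G.Q k ^ 113 *
        ((∏ j ∈ Ico (k + 1) i, 2 * G.cr j) * (2 * G.u i)) * 1000 * G.g (k + 1) ^ 2 ≤ ω' * τ →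
      G.Sz k (x + G.Q k ^ 50 * ω * (x + y)) (G.cr k * (x + y + τ)) ω' (r k).1 (r k).2 ∧
        nb ((r (k + 1)).1 0) ≤ nb ((r k).1 0) + 64 * (G.Q k ^ 50 * ω * (x + y)) := by
  have T := h.uh_tn A B hi hi' hd hp TB
  have c : ∀ k ≤ i, ∀ v, (r k).1 v = (r k).1 0 := fun k hk v => hr k ▸
    congrArg₂ (fun s t => s - (γ : ℂ) • t) (TCov.cx (h.N_odd k) (T k hk).re.2.2 v)
      (TCov.cx (h.N_odd k) (TA k (hk.trans hi)).1.re.2.2 v)
  refine ⟨c, fun k hk x y ω ω' τ h0 s h1 h2 h3 h4 => ?_⟩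
  have kJ := hk.trans_le hi
  obtain ⟨w, w0, w1, w2, D⟩ := h.hy_c A B hi hi' hd (k + 1) hk
  have o := h.om_mono (k + 1) (show 100 ≤ 280 by norm_num)
  have o0 := inv_pos.2 (pow_pos (h.Q0 (k + 1)) 280)
  have Q0 := h.Q0 k
  have := h.ts_dif (A.gd _ kJ) D w0 (by linarith [h.u_one (k + 1)]) (N := 1000)
    (sz_gen (h.rh0 _) (h.Q0 _).le (T _ hk).sz le_rfl (by norm_num) (by linarith)) (by norm_num)
    ((h.gd_tg (A.gd _ kJ)).2.1.dir (h.sd_all k _).nu (h.sz_fine _ (TA _ kJ).1.sz)) (hr _ ▸ s) h0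
    h1 h2 h3 (le_trans (by gcongr) h4)
  rw [← uh_step hk, tu, ← tc_step _ kJ, ← tu, ← tu, hr, hr] at this
  exact this.imp_right (· (c _ hk))

/-- the comparison at a level where the base points are close -/
theorem Ok.uh_bot (hm : m ≤ i) (hu : (∏ j ∈ Ico m i, 2 * G.cr j) * (2 * G.u i) ≤ 1) :
    ∃ γ : ℝ, |γ - 1| ≤ 4 / G.Q m ^ 60 ∧ ‖(γ : ℂ)‖ ≤ 2 ∧
      nb ((G.uh b J b' J' i m - (γ : ℂ) • G.tu b J m).1 0) ≤ 64 * (G.Q m ^ 506 * √(G.g m)) := by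
  have mJ := hm.trans hi
  have Q0 := h.Q0 m
  have Q1 := h.Q1 m
  have g0 := h.g0 m
  have s0 := sqrt_pos.2 g0
  have u1 := h.u_one i
  obtain ⟨a1, a2⟩ := (TA _ mJ).2 _ le_rfl (pow_le_pow_right₀ Q1 (by norm_num))
  have a3 := ((TB _ (hm.trans hi')).2 _ le_rfl (pow_le_pow_right₀ Q1 (by norm_num))).1
  have a4 := h.inv_c m (j := 60) (by norm_num)
  have F := (h.f_facts J' m).1 b' B.b0
  have q := fun x y (a : G.Tn m _ (G.hy b J b' J' i m) _ x y √(G.g m) (G.uh b J b' J' i m) _) u s hu =>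
    h.tn_q (u := u) (A.gd m mJ).tz s (TCov.cx (h.N_odd m) (h.hy_dt A B hi hi' hd m hm).re.2.2) a
      F.2.1 (h.df_sym (b := b') (hm.trans hi')) F.2.2 hu le_rfl (h.sg_le m)
  generalize gm _ _ (G.f b J m) _ = α at a1 a2
  generalize gm _ _ (G.f b' J' m) _ = β at a3 q
  obtain ⟨a5, a6⟩ := abs_le.1 a1
  obtain ⟨a7, a8⟩ := abs_le.1 a3
  have α0 : 0 < α := by linarith
  obtain ⟨γ, hγ⟩ : ∃ γ, β = γ * α := ⟨β / α, by field_simp⟩
  have γ1 : |γ - 1| ≤ 4 / G.Q m ^ 60 := by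
    refine le_of_mul_le_mul_right ?_ α0
    rw [← abs_of_pos α0, ← abs_mul, sub_mul, ← hγ, abs_of_pos α0, div_eq_mul_inv]
    exact abs_le.2 ⟨by nlinarith, by nlinarith⟩
  have γ2 : ‖(γ : ℂ)‖ ≤ 2 := by
    have := abs_le.1 γ1
    rw [Complex.norm_real, norm_eq_abs, div_eq_mul_inv] at *
    exact abs_le.2 ⟨by linarith, by linarith⟩
  have T := h.uh_tn A B hi hi' hd hp TB
  have T0 := fun k (hk : k ≤ i) => (TA _ (hk.trans hi)).1
  have t0 := fun k hk => sz_mul (F := fun _ => γ) (h.rh0 k) (T0 k hk).sz fun _ => γ2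
  obtain ⟨r, hr⟩ : ∃ r : ℕ → Lx × Ac, ∀ k, G.uh b J b' J' i k - (γ : ℂ) • G.tu b J k = r k :=
    ⟨_, fun _ => rfl⟩
  obtain ⟨c, st⟩ := h.uh_dif A B hi hi' hd hp TA TB γ hr
  have p := fun k hk => PM.sub (h.rh0 k) (T k hk).sz.1 (t0 k hk).1
  have e' : G.uh b J b' J' i m = r m + (γ : ℂ) • G.tu b J m := by rw [← hr, sub_add_cancel]
  have P0 : ∀ k l, 0 ≤ ∏ j ∈ Ico k l, 2 * G.cr j := fun k l =>
    prod_nonneg fun j _ => by linarith [h.cr0 j]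
  have s1 : ∀ k ≤ i, G.Sz k 3000 (30 + (∏ j ∈ Ico k i, 2 * G.cr j) * (2 * G.u i)) √(G.g k)
      (r k).1 (r k).2 := by
    refine dw_ind ?_ fun k hk ih => ?_
    · rw [← hr, uh_top]
      exact h.sz_up (sz_sub (h.rh0 i) (TB _ hi').1.sz (t0 i le_rfl)) (sqrt_nonneg _)
        (by norm_num) (by nlinarith [P0 i i])
    · have W := mul_nonneg (P0 (k + 1) i) (show 0 ≤ 2 * G.u i by linarith)
      have g1 := h.g0 (k + 1)
      have g2 := h.g_succ k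
      have := (st k hk 3000 _ _ _ ((∏ j ∈ Ico (k + 1) i, 2 * G.cr j) * (2 * G.u i))
        (add_pos_of_pos_of_nonneg (by norm_num) (add_nonneg (by norm_num) W)) ih le_rfl
        (sqrt_le_sqrt g2) ((h.sg_le _).trans (h.om_succ k _)) (by
          have b1 : G.g k ≤ √(G.g k) := le_sqrt_of_sq_le (by nlinarith [h.g1 k])
          have b2 := mul_le_mul (h.qpw k (i := 113) (j := 2000) (by norm_num)) g2 g1.le
            (pow_pos (h.Q0 k) _).le
          rw [mul_comm (√_), mul_comm (G.Q k ^ 113), mul_assoc, mul_assoc]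
          exact mul_le_mul_of_nonneg_left (by nlinarith [h.Qg k]) W)).1
      refine h.sz_up (sz_cb this (c k hk.le) (by rw [← hr]; exact ((p k hk.le).1 0).1.cb))
        (sqrt_nonneg _) (by norm_num) ?_
      rw [prod_eq_prod_Ico_succ_bot hk]
      linarith [h.cr1 k]
  refine ⟨γ, γ1, γ2, nb_le fun v v' δ δ' hv hv' => ?_⟩
  obtain ⟨w, w0, -, w2, D⟩ := h.hy_c A B hi hi' hd m hm
  have s2 := h.sz_up (s1 m hm) s0.le le_rfl (show _ ≤ 31 by linarith)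
  have s3 := (w2.trans hu).trans ((one_le_inv₀ s0).2 (sqrt_le_one.2 (h.g1 m)))
  have s4 := sz_add (h.rh0 m) (A.gd m mJ).dt.sz (sz_gen (ω' := √(G.g m)) (h.rh0 m) Q0.le D s3 s3 (by
    rw [mul_inv_cancel₀ s0.ne']
    exact mul_le_one₀ (inv_le_one_of_one_le₀ (one_le_pow₀ Q1)) w0.le (w2.trans hu)))
  rw [add_sub_cancel, add_sub_cancel] at s4
  have q1 := q _ _ ⟨by rw [e']; exact sz_add (h.rh0 m) s2 (t0 m hm), (T m hm).re, (T m hm).rt⟩ _ s4 (by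
    have b1 : (√(G.g m))⁻¹ * G.g m ≤ 1 := by
      rw [inv_mul_le_one₀ s0]; exact le_sqrt_of_sq_le (by nlinarith [h.g1 m])
    have b2 := mul_le_mul_of_nonneg_right (h.qpw m (i := 300) (j := 2000) (by norm_num)) g0.le
    nlinarith [h.Qg m, h.g1 m, mul_pos (pow_pos Q0 300) g0])
  have b2 : qc (mL (fun _ => (γ : ℂ)) (G.tu b J m).1 0) v v' = γ * qc ((G.tu b J m).1 0) v v' :=
    (((T0 m hm).sz.1 0).1.smul (h.rh0 m) γ).2 _ _
  erw [(p m hm).2 0 v v']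
  rw [b2, show ∀ s t : ℂ, s - γ * t = s - (β * m0 v v' : ℝ) -
    γ * (t - (α * m0 v v' : ℝ)) from fun s t => by rw [hγ]; push_cast; ring]
  refine (norm_sub_le_of_le (q1 _ _ _ _ hv hv') (norm_mul_le_of_le γ2 (a2 _ _ _ _ hv hv'))).trans ?_
  have b3 := mul_le_mul_of_nonneg_right (h.cQ m (C := 10 ^ 7) (by norm_num)) (pow_pos Q0 505).le
  have b4 := pow_le_pow_right₀ Q1 (show 28 ≤ 505 by norm_num)
  rw [pow_succ' _ 505]
  nlinarith [mul_nonneg s0.le (mul_nonneg hv.nonneg hv'.nonneg), pow_pos Q0 505]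

/-- the comparison of the tangents -/
theorem Ok.uh_cmp (hm : m + 40 * n ≤ i) (hu : 2 * G.u i ≤ G.L m ^ n) (hb : G.bb i ≤ 2 * G.bb m)
    (hw : (i - m : ℕ) ≤ G.Q m ^ 100) : ∃ γ : ℝ, |γ - 1| ≤ 4 / G.Q m ^ 60 ∧
      ∀ k n', m ≤ k → k + 40 * n' ≤ i → G.Sz k (31 / G.L k ^ n' + G.Q m ^ 507 * √(G.g m))
        (31 / G.L k ^ n' + G.Q m ^ 507 * √(G.g m)) (G.Q k ^ 280)⁻¹
        (G.uh b J b' J' i k - (γ : ℂ) • G.tu b J k).1
        (G.uh b J b' J' i k - (γ : ℂ) • G.tu b J k).2 := by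
  have L0 : (0 : ℝ) < G.L m ^ n := pow_pos (by linarith [h.L1 m]) _
  have mi : m ≤ i := by omega
  obtain ⟨γ, γ1, γ2, bot⟩ := h.uh_bot A B hi hi' hd hp TA TB mi ((mul_le_mul (h.cr_prod hm) hu
    (by linarith [h.u_one i]) (inv_pos.2 L0).le).trans_eq (inv_mul_cancel₀ L0.ne'))
  refine ⟨γ, γ1, fun k n' hk e => ?_⟩
  obtain ⟨r, hr⟩ : ∃ r : ℕ → Lx × Ac, ∀ k, G.uh b J b' J' i k - (γ : ℂ) • G.tu b J k = r k :=
    ⟨_, fun _ => rfl⟩
  obtain ⟨c, st⟩ := h.uh_dif A B hi hi' hd hp TA TB γ hr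
  obtain ⟨P, hP⟩ : ∃ P : ℕ → ℝ, ∀ k, ∏ j ∈ Ico k i, 2 * G.cr j = P k := ⟨_, fun _ => rfl⟩
  obtain ⟨x, hx⟩ : ∃ x : ℕ → ℝ, ∀ k, nb ((r k).1 0) = x k := ⟨_, fun _ => rfl⟩
  obtain ⟨y, hy⟩ : ∃ y, y = dw (fun k y => G.cr k * (x (k + 1) + y + P (k + 1))) 30 i := ⟨_, rfl⟩
  have P0 : ∀ k, 0 < P k := fun k => hP k ▸ prod_pos fun j _ => by linarith [h.cr0 j]
  have Ps : ∀ k < i, P k = 2 * G.cr k * P (k + 1) := fun k hk => by
    rw [← hP, ← hP, prod_eq_prod_Ico_succ_bot hk]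
  have Pt : P i = 1 := by rw [← hP, Ico_self, prod_empty]
  have x0 : ∀ k, 0 ≤ x k := fun k => hx k ▸ nb_nonneg _
  have yt : y i = 30 := by rw [hy, dw_top]
  have ys : ∀ k < i, y k = G.cr k * (x (k + 1) + y (k + 1) + P (k + 1)) := fun k hk => by
    rw [hy, dw_step _ _ hk]
  have y0 : ∀ k ≤ i, 0 < y k := dw_ind (by linarith) fun k hk ih =>
    ys k hk ▸ mul_pos (h.cr0 k) (by linarith [x0 (k + 1), P0 (k + 1)])
  simp only [hP, hx, hr] at st bot ⊢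
  have s1 := fun k (hk : k < i) (hk' : m ≤ k) s => st k hk (x (k + 1)) (y (k + 1)) _ _ (P (k + 1))
    (by linarith [x0 (k + 1), y0 _ hk]) s (h.hy_sg _) (h.om_succ k _)
    ((h.om_succ k _).trans (h.om_mono k (by norm_num))) (by
      have Q0 := h.Q0 k
      have b1 : G.u i * G.g (k + 1) ^ 2 ≤ 2 * (G.Q k ^ 400)⁻¹ := by
        rw [u, div_mul_eq_mul_div, ← div_eq_mul_inv]
        gcongr
        · nlinarith [h.bg (k + 1), h.b_mono (show m ≤ k + 1 by omega), sq_nonneg (G.g (k + 1))]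
        · exact h.Q_mono hk.le
      calc _ = 2000 * G.Q k ^ 113 * (G.u i * G.g (k + 1) ^ 2) * P (k + 1) := by ring
        _ ≤ 2000 * G.Q k ^ 113 * (2 * (G.Q k ^ 400)⁻¹) * P (k + 1) := by gcongr; exact (P0 _).le
        _ = 4000 * (G.Q k ^ 287)⁻¹ * P (k + 1) := by field_simp; ring
        _ ≤ _ := mul_le_mul_of_nonneg_right (by
          linarith [h.hy_pw k (show 280 < 287 by norm_num), inv_pos.2 (pow_pos Q0 287)]) (P0 _).le)
  have sn : ∀ {k x' y'}, k ≤ i → G.Sz k x' y' (G.Q k ^ 280)⁻¹ (r k).1 (r k).2 →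
      G.Sz k (x k) y' (G.Q k ^ 280)⁻¹ (r k).1 (r k).2 := fun hk s =>
    ⟨hx _ ▸ pm_nb (h.rh0 _) s.1 (c _ hk) le_rfl le_rfl, s.2⟩
  have sz : ∀ k ≤ i, m ≤ k → G.Sz k (x k) (y k) (G.Q k ^ 280)⁻¹ (r k).1 (r k).2 := by
    refine dw_ind (fun _ => sn (x' := 3000) le_rfl ?_) fun k hk ih hk' =>
      ys k hk ▸ sn hk.le (s1 k hk hk' (ih (by omega))).1
    rw [← hr, uh_top, yt]
    exact sz_gen (h.rh0 i) (h.Q0 i).le (sz_sub (h.rh0 i) (TB _ hi').1.sz (sz_mul (F := fun _ => γ)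
      (h.rh0 i) (TA _ hi).1.sz fun _ => γ2)) (by norm_num) (by norm_num) (by linarith [h.hy_sg i])
  have Q0 := h.Q0 m
  have e0 := inv_pos.2 (pow_pos Q0 200)
  have e1 := h.inv_c m (j := 200) (by norm_num)
  have a0 := mul_nonneg (pow_pos Q0 506).le (sqrt_nonneg (G.g m))
  obtain ⟨t1, t2⟩ := two_sided_src (I := i - m) (k := k - m) (C := 1) (η := fun _ => (G.Q m ^ 200)⁻¹)
    (c := fun j => G.cr (m + j)) (s := 0) (t := 0) (x := fun j => x (m + j) - P (m + j))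
    (y := fun j => y (m + j) - 2 * P (m + j)) (a := 64 * (G.Q m ^ 506 * √(G.g m)) + P m) (τ := 0)
    (γ := 1 / 1000) ⟨le_rfl, fun _ _ => e0.le, fun _ _ => by linarith, fun _ _ => (h.cr0 _).le,
      fun j _ => by linarith [h.cr1 (m + j), h.cr0 (m + j)]⟩
    ⟨by simp only [add_zero]; linarith [y0 m mi], fun j hj => by
      have hj' : m + j < i := by omega
      have b1 := (s1 _ hj' le_self_add (sz _ hj' (by omega))).2
      have Q1 := h.Q0 (m + j)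
      have b2 : 64 * (G.Q (m + j) ^ 50 * (G.Q (m + j + 1) ^ 280)⁻¹) ≤ (G.Q m ^ 200)⁻¹ := by
        calc _ ≤ 64 * (G.Q (m + j) ^ 50 * (G.Q (m + j) ^ 280)⁻¹) := by
              gcongr 64 * (_ * ?_); exact h.om_succ _ _
          _ = 64 * (G.Q (m + j) ^ 230)⁻¹ := by field_simp
          _ ≤ (G.Q (m + j) ^ 200)⁻¹ := by
              linarith [h.hy_pw (m + j) (show 200 < 230 by norm_num), inv_pos.2 (pow_pos Q1 230)]
          _ ≤ _ := by gcongr; exact h.Q_mono le_self_add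
      simp only [Pi.zero_apply, ← add_assoc, Ps _ hj']
      rw [← mul_assoc] at b1
      generalize (G.Q m ^ 200)⁻¹ = η, 64 * _ = η' at *
      linarith [mul_le_mul_of_nonneg_right b2 (add_nonneg (x0 (m + j + 1)) (y0 _ hj').le), P0 (m + j + 1),
        mul_nonneg e0.le (x0 (m + j)), mul_le_mul_of_nonneg_right e1 (P0 (m + j + 1)).le,
        mul_le_mul_of_nonneg_right (h.cr1 (m + j)) (P0 (m + j + 1)).le,
        mul_le_mul_of_nonneg_right (h.cr1 (m + j)) (mul_pos e0 (P0 (m + j + 1))).le],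
    fun j hj => by
      have hj' : m + j < i := by omega
      simp only [Pi.zero_apply, ← add_assoc, Ps _ hj', ys _ hj']
      linarith⟩ (by
      rw [sum_const, card_range, nsmul_eq_mul, ← mul_assoc, mul_inv_le_iff₀ (pow_pos Q0 _)]
      linarith [h.qpw m (i := 100) (j := 200) (by norm_num), pow_pos Q0 100])
    (by linarith [P0 m]) (fun _ _ => le_rfl) (by simp; exact le_rfl) le_rfl (fun _ _ => le_rfl) (by norm_num)
    (fun j _ => by linarith [h.cr1 (m + j)]) (by norm_num)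
    (by simp only [Nat.add_sub_cancel' mi, yt, Pt]; norm_num) (Nat.sub_le_sub_right (by omega) m)
  have b1 : ∏ j ∈ Ico (k - m) (i - m), 2 * G.cr (m + j) = P k := by
    rw [prod_Ico_add (fun j => 2 * G.cr j), Nat.sub_add_cancel hk, Nat.sub_add_cancel mi, hP]
  have b2 : P m ≤ P k := by
    rw [← hP, ← prod_Ico_consecutive _ hk (show k ≤ i by omega), hP]
    exact mul_le_of_le_one_left (P0 k).le (prod_le_one (fun j _ => by linarith [h.cr0 j])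
      fun j _ => by linarith [h.cr1 j])
  have b3 := hP k ▸ h.cr_prod e
  have b4 := mul_le_mul_of_nonneg_right (h.qpw m (i := 506) (j := 507) (by norm_num)) (sqrt_nonneg (G.g m))
  simp only [b1, Nat.add_sub_cancel' mi, Nat.add_sub_cancel' hk, yt, Pt] at t1 t2
  rw [div_eq_mul_inv]
  exact h.sz_up (sz k (by omega) hk) (inv_pos.2 (pow_pos (h.Q0 k) _)).le (by linarith)
    (by linarith [P0 k])

end Gl

end Pool.Agent.Lib.MP_7f377f_mp.RG.Q4.En
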