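import Pool.Agent.Lib.MP_7f377f_mp.Q5CmB
import Pool.Agent.Lib.MP_7f377f_mp.Q5TanH
import Pool.Agent.Lib.MP_7f377f_mp.Q5Tan
import Pool.Agent.Lib.MP_7f377f_mp.Q5Lev

/-! The hybrid tower: all facts together. -/

noncomputable section

namespace Pool.Agent.Lib.MP_7f377f_mp.RG.Q4.En.Gl.Ok

open Finset Real

variable {G : Gl} (h : G.Ok) {b b' : ℝ} {J J' i k n : ℕ}
include h

theorem hy_pack (hp : G.Pu) (A : G.Tu b J) (B : G.Tu b' J') (hJ : J ≤ J')
    (hi : i + 20 * (405 * G.K + 1) + 1 ≤ J) (h0 : 160 * G.Bk i ≤ i) (hk : k + 40 * n ≤ i)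
    (hk' : i ≤ k + 160 * G.Bk i) : ∃ γ : ℝ, |γ - 1| ≤ 4 / G.Q k ^ 30 ∧
      G.Hy b J b' J' i k γ (31 / G.L k ^ n + G.Q k ^ 508 * √(G.g k)) (G.bb k / G.L k ^ n)
        (G.hy b J b' J' i) (G.uh b J b' J' i) := by
  obtain ⟨m, e⟩ : ∃ m, m + 160 * G.Bk i = i := ⟨_, Nat.sub_add_cancel h0⟩
  have i1 : i ≤ J := by omega
  have i2 := i1.trans hJ
  have hd := h.dfc (z := G.zz b J i) A B hJ hi
  have TA : G.TM b J := fun _ => h.tan_main hp A
  have TB : G.TM b' J' := fun _ => h.tan_main hp B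
  have u : ∀ j ≤ i, i ≤ j + 160 * G.Bk i → 2 * G.u i ≤ G.bb j := fun j h1 h2 => by
    have := (h.win1 h1 le_rfl (by omega)).2.2
    have := mul_le_mul_of_nonneg_left (h.inv_c i (j := 400) (by norm_num)) (h.b0 i).le
    rw [Gl.u, div_eq_mul_inv]
    linarith [h.b0 j]
  obtain ⟨-, w1, w2⟩ := h.win1 (j := i) (show m ≤ k by omega) (by omega) (by omega)
  obtain ⟨γ, γ1, s⟩ := h.uh_cmp (m := m) (n := 4 * G.Bk i) A B i1 i2 hd hp TA TB (by omega)
    ((u m (by omega) e.ge).trans (((h.sch.le m).1.trans (h.sch.upp m)).trans (pow_le_pow_right₀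
      (le_trans (by norm_num) (h.L1 m)) (Nat.mul_le_mul_left 4 (h.B_mono (show m ≤ i by omega))))))
    (h.win1 (by omega) le_rfl (by omega)).2.2 (le_trans (Nat.cast_le.2 ((Nat.lt_pow_self
      (by norm_num)).le.trans (h.pow_low (by omega) (by omega))))
      ((h.LQ m).trans (le_self_pow₀ (h.Q1 m) (by norm_num))))
  have Q0 := h.Q0 k
  have Qm := h.Q0 m
  have L0 : (0 : ℝ) < G.L k ^ n := pow_pos (by linarith [h.L1 k]) _
  have γ2 : |γ - 1| ≤ 4 / G.Q k ^ 30 := γ1.trans (by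
    rw [show 60 = 2 * 30 from rfl, pow_mul]; gcongr)
  have g1 : √(G.g m) ≤ 2 * √(G.g k) := by
    have a1 := h.g0 k
    have a2 : G.g m ≤ 2 * G.g k := le_of_sq_le_sq (le_of_mul_le_mul_left (by
      nlinarith [h.bg m, h.bg k, mul_le_mul_of_nonneg_right w2 (sq_nonneg (G.g k))]) (h.b0 m))
      (by linarith)
    exact sqrt_le_iff.2 ⟨by positivity, by rw [mul_pow, sq_sqrt a1.le]; linarith⟩
  have x1 : G.Q m ^ 507 * √(G.g m) ≤ G.Q k ^ 508 * √(G.g k) :=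
    (mul_le_mul (pow_le_pow_left₀ Qm.le (h.Q_mono (show m ≤ k by omega)) _) g1 (sqrt_nonneg _)
      (pow_pos Q0 _).le).trans (by
        nlinarith [h.qpw k (i := 507) (j := 508) (by norm_num), sqrt_nonneg (G.g k), pow_pos Q0 507])
  have o0 := (inv_pos.2 (pow_pos Q0 100)).le
  have y1 : 2 * G.u i / G.L k ^ n ≤ G.bb k / G.L k ^ n := by gcongr; exact u k (by omega) hk'
  refine ⟨γ, γ2, hy_top, fun _ => hy_step, fun j hj => h.bz_hyb (h.hy_dt A B i1 i2 hd j hj),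
    fun j hj => (h.hy_tg A B i1 i2 hd hj).2.1, uh_top, fun _ => uh_step,
    fun j hj => (h.uh_tn A B i1 i2 hd hp TB j hj).sz, γ2.trans ?_,
    sz_gen (h.rh0 k) Q0.le (s k n (by omega) hk) (by linarith) (by linarith)
      (mul_le_mul (h.om_mono k (by norm_num)) (by linarith) (add_nonneg (by positivity)
        (mul_nonneg (pow_pos Qm _).le (sqrt_nonneg _))) o0),
    h.sz_up (h.hy_dif A B i1 i2 hd hk) o0 y1 y1⟩
  linarith [h.inv_c k (j := 30) (by norm_num), div_eq_mul_inv 4 (G.Q k ^ 30), inv_pos.2 (pow_pos Q0 30)]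

end Pool.Agent.Lib.MP_7f377f_mp.RG.Q4.En.Gl.Ok
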