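import Pool.Agent.Lib.MP_7f377f_mp.Q5CmB

/-! Comparison of the free energies of two runs: the main estimate. -/

noncomputable section

open Pool.Agent.Lib.MP_7f377f_mp.Jet

namespace Pool.Agent.Lib.MP_7f377f_mp.RG.Q4.En

open Finset Real Sg Pos

theorem sum_geo {a : ℕ → ℝ} {B : ℝ} {k l : ℕ} (B0 : 0 ≤ B) (hl : l ≤ k)
    (e : ∀ n < l, a n ≤ 4 ^ (k - n) * B / 2) : ∀ m ≤ l, ∑ n ∈ Ico m l, a n ≤ 4 ^ (k - m) * B :=
  dw_ind (by simp; positivity) fun m hm ih => by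
    have := e m hm
    rw [sum_eq_sum_Ico_succ_bot hm, show k - m = k - (m + 1) + 1 by omega, pow_succ] at *
    nlinarith [mul_nonneg (pow_pos four_pos (k - (m + 1))).le B0]

namespace Gl

variable {ι : Type} [DecidableEq ι] {A T : Finset ι} {G : Gl} {b b' x y a C w M ε σ γ : ℝ}
  {J J' i j k l m c : ℕ} {H H' u : ℕ → Lx × Ac} {W : ι → Finset St} {Y Y' : ℕ → Fy ι}
  {v v' : ι → ℕ → Lx × Ac} {f f' : ℕ → (ι → ℂ) → Conf → ℂ}

namespace Ok

variable (h : G.Ok)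
include h

omit [DecidableEq ι] in
theorem g_pow : ∀ n ≤ k, G.g n ^ 2 ≤ 2 ^ (k - n) * G.g k ^ 2 :=
  dw_ind (by simp) fun n hn ih => by
    rw [show k - n = k - (n + 1) + 1 by omega, pow_succ' (2 : ℝ), mul_assoc]
    linarith [h.g_up n, sq_nonneg (G.g (n + 1))]

/-- comparison of two flows along the same run -/
theorem cmp_fo {γ : ℂ} (hp : G.Pu) (t : G.Tu b J) (h1 : j ≤ m) (h2 : m ≤ l) (h3 : l ≤ k)
    (h4 : k < i) (h5 : i ≤ J) (σ0 : 0 < σ) (hσ : σ * G.g k ^ 2 ≤ 1) (hγ : ‖γ‖ ≤ 2)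
    (P : G.Fo A b J i l j σ Y H v f) (P' : G.Fo A b J J l j σ Y' H' v' f')
    (Z : ∀ n ≤ i, (Y' n).Z = (Y n).Z) (hA : A.card ≤ c) (big : 8 * 2 ^ c ≤ G.Q m) (x0 : 0 ≤ x)
    (e0 : G.Sz k y y (G.Q k ^ 100)⁻¹ ((H k).1 - (H' k).1) ((H k).2 - (H' k).2))
    (e1 : ∀ a ∈ A, G.Sz k x x (G.Q k ^ 100)⁻¹ (v a k - γ • v' a k).1 (v a k - γ • v' a k).2)
    (sep : Cls (G.N k) (3 * (G.p k).D) A id (Y k).Z)
    (far : Cls (G.N k) (C * (G.p k).D) A id (Y k).Z)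
    (hV : ∀ n ≤ l, ∀ a, ((Y n).Z a).card ≤ G.Q l ^ 50) (hT : T ⊆ A) (T2 : 2 ≤ T.card) :
    ‖jd T (Y j).E - γ ^ T.card * jd T (Y' j).E‖ ≤ (G.Q l ^ 62 * 4 ^ (k - m) * (y * G.g k ^ 2 +
      c * x + 2 ^ (c + 1) * G.Q k ^ 100 * exp (2 - C)) + 2 / 100 ^ (l - m)) * (2 / σ) ^ T.card := by
  have r0 : ∀ _ : ι, 0 < σ / 2 := fun _ => half_pos σ0
  have r1 : ∀ _ : ι, σ / 2 ≤ σ := fun _ => half_le_self σ0.le
  have r2 : ∀ _ : ι, ‖γ‖ * (σ / 2) ≤ σ := fun _ => by nlinarith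
  have F : ∀ n ≤ i, j ≤ n → Fi (G.p n) (G.N n) A (Y n).Z (fun _ => σ / 2) (G.Q n ^ 329)⁻¹ (Y n).ψ
      (Y n).K ∧ Fi (G.p n) (G.N n) A (Y n).Z (fun _ => σ / 2) (G.Q n ^ 329)⁻¹ ((Y' n).sc γ).ψ
        ((Y' n).sc γ).K := fun n a b => ⟨((P.fd n a b).mono r0 r1 le_rfl).fi,
    Z n a ▸ (P'.fd n (a.trans h5) b).fi.sc (h.ρ0 n) r0 r2⟩
  have q : ∀ n, (G.Q (n + 1) ^ 211)⁻¹ ≤ (G.Q n ^ 210)⁻¹ := fun n => by
    linarith [h.inv_up n.le_succ 211, h.inv_le n (show 210 < 211 by norm_num),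
      inv_pos.2 (pow_pos (h.Q0 n) 211)]
  have tw : ∀ n < i, j ≤ n → G.Tw n A (fun _ => σ / 2) (Y (n + 1)) ((Y' (n + 1)).sc γ) :=
    fun n a b => ⟨(F _ a (by omega)).1, (F _ a (by omega)).2,
      fun s hs => pu_mono (P.pu _ a (by omega) s fun x => (hs x).trans_le (r1 x)) (q n),
      fun s hs => pu_mono (P'.pu _ (by omega) (by omega) _ (pd_scale (fun _ => σ0) r2 hs)) (q n)⟩
  have st : ∀ n < i, (Y' n).sc γ = G.fs A n (G.zz b J (n + 1)) ((Y' (n + 1)).sc γ) :=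
    fun n a => by rw [fs_sc, ← P'.st n (by omega)]
  have tz : ∀ n < i, G.Tz J (n + 1) (G.zz b J (n + 1)) := fun n a => (t.gd _ (by omega)).tz
  have jk : j ≤ k := by omega
  have y0 := (h.sz_nn e0).1
  set X := y + c * (σ / 2 * x) + 2 ^ (c + 1) * G.Q k ^ 100 * exp (2 - C) * G.bb k with hX
  have X0 : 0 < X := by have := h.Q0 k; have := h.b0 k; positivity
  have D0 : G.Df2 k (fun _ => σ / 2) X X (Y k) ((Y' k).sc γ) := by
    have w := tw k h4 jk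
    rw [P.st k h4] at far
    refine h.df2_of (F k h4.le jk).1 (F k h4.le jk).2 (half_pos σ0) sep
      (mul_pos three_pos (h.D_pos k)) hA (by linarith [card_le_card hT]) x0 (exp_pos _).le ?_
      (fun a ha => ?_) (fun T hT e => ⟨?_, ?_⟩) le_rfl
    · rw [← P.bs k h4.le jk, ← P'.bs k (by omega) jk, ← Fy.sc_bs (γ := γ) (Y := Y' k)] at e0
      exact e0
    · rw [Fy.sc_jt, card_singleton, pow_one, P.jt k h4.le h3 a ha, P'.jt k (by omega) h3 a ha]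
      exact e1 a ha
    · rw [P.st k h4]; exact h.far_jet (tz k h4) w.fi w.pu far hT e
    · rw [st k h4]; exact h.far_jet (tz k h4) w.fi' w.pu' far hT e
  have D := h.dif_chain (z := fun n => G.zz b J (n + 1)) (Y := Y) (Y' := fun n => (Y' n).sc γ)
    (X := fun n => 2 ^ (k - n) * X) (V := fun n => 2 ^ (k - n) * X) (C := fun _ => 1) (i := k)
    (j := m) (cl := fun _ => ()) (c := c) (fun n a b => ⟨tz n (by omega), P.st n (by omega),
      st n (by omega), tw n (by omega) (by omega), fun _ _ _ _ e => (e rfl).elim⟩)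
    (fun _ => (card_filter_le _ _).trans hA) (fun n a b => by
      have u : 0 < 2 ^ (k - (n + 1)) * X := by positivity
      have u' := h.qpw n (show 0 < 50 by norm_num)
      rw [show k - n = k - (n + 1) + 1 by omega, pow_succ' (2 : ℝ), mul_assoc, sd_cr]
      refine ⟨by linarith [h.cr1 n, h.cr0 n], by linarith [h.Q_mono a], by linarith, by linarith,
        Or.inl ?_⟩
      rw [← le_sub_iff_add_le', div_le_iff₀ (pow_pos (h.Q0 n) _)]
      nlinarith) (by simpa using D0)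
  obtain ⟨a, ha, -⟩ := one_lt_card.1 T2
  have lJ : l ≤ J := by omega
  have E := (h.dif_E_chain (z := fun n => G.zz b J (n + 1)) (Y := Y) (Y' := fun n => (Y' n).sc γ)
    (X := fun n => 2 ^ (k - n) * X) (V := fun n => 2 ^ (k - n) * X) (i := l) (j := m)
    (fun n a b => ⟨h.pu_all t hp n (by omega), P.st n (by omega), st n (by omega),
      tw n (by omega) (by omega), D _ (by omega) (by omega)⟩)
    (P.fd l (by omega) (by omega)).ma (funext fun s => by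
      simp only [Fy.sc, jd_sc]
      exact (congrFun (P'.fd l lJ (by omega)).ma _).trans (ma_scale _ s)) ha m h2 le_rfl).2.2
  have ρ : (∏ _ ∈ T, σ / 2)⁻¹ = (2 / σ) ^ T.card := by rw [prod_const, ← inv_pow, inv_div]
  have ρ0 : 0 < (2 / σ) ^ T.card := by positivity
  have q0 := h.Q0 l
  have S := sum_geo (B := G.Q l ^ 62 * (X * G.g k ^ 2) * (2 / σ) ^ T.card) (a := fun n =>
    ((Y n).Z a).card * (G.Q n ^ 12 * (2 ^ (k - (n + 1)) * X + 2 ^ (k - (n + 1)) * X) *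
      G.g (n + 1) ^ 2 / ∏ _ ∈ T, σ / 2)) (by positivity) h3 (fun n e => by
    have := h.Q0 n
    rw [div_eq_mul_inv, ρ, show k - n = k - (n + 1) + 1 by omega]
    calc _ ≤ G.Q l ^ 50 * (G.Q l ^ 12 * (2 ^ (k - (n + 1)) * X + 2 ^ (k - (n + 1)) * X) *
          (2 ^ (k - (n + 1)) * G.g k ^ 2) * (2 / σ) ^ T.card) := by
          gcongr
          exacts [hV n e.le a, h.Q_mono e.le, h.g_pow _ (by omega)]
      _ = _ := by rw [show (4 : ℝ) = 2 * 2 by norm_num, mul_pow]; ring) m h2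
  have t1 := P.tl m h2 h1 T hT ⟨a, ha⟩
  have t2 := P'.tl m h2 h1 T hT ⟨a, ha⟩
  simp only [Fy.sc, jd_sc, P.e0 T hT T2, P'.e0 T hT T2, mul_zero, sub_zero, norm_zero,
    zero_add] at E
  have t3 : ‖γ ^ T.card * (jd T (Y' j).E - jd T (Y' m).E)‖ ≤ (100 ^ (l - m))⁻¹ * (2 / σ) ^ T.card := by
    rw [norm_mul, norm_pow, div_pow, mul_div_assoc', mul_comm _ (2 ^ _), mul_div_assoc]
    gcongr
  have t4 : (100 ^ (l - m))⁻¹ / σ ^ T.card ≤ (100 ^ (l - m))⁻¹ * (2 / σ) ^ T.card := by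
    rw [div_eq_mul_inv, ← inv_pow σ, ← one_div σ]
    gcongr
    norm_num
  have t5 : X * G.g k ^ 2 ≤ y * G.g k ^ 2 + c * x + 2 ^ (c + 1) * G.Q k ^ 100 * exp (2 - C) := by
    have := mul_le_mul_of_nonneg_left hσ (mul_nonneg (Nat.cast_nonneg (α := ℝ) c) x0)
    rw [hX, add_mul, add_mul, mul_assoc _ (G.bb k), h.bg]
    nlinarith [mul_nonneg (mul_nonneg (Nat.cast_nonneg (α := ℝ) c) x0) (mul_nonneg σ0.le
      (sq_nonneg (G.g k)))]
  have t6 := mul_le_mul_of_nonneg_right (mul_le_mul_of_nonneg_left t5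
    (show 0 ≤ G.Q l ^ 62 * 4 ^ (k - m) by positivity)) ρ0.le
  rw [show ∀ a b c d e : ℂ, a - b * c = a - d + (d - b * e) - b * (c - e) from fun _ _ _ _ _ => by
    ring]
  refine (norm_sub_le_of_le (norm_add_le_of_le (t1.trans t4) (E.trans S)) t3).trans ?_
  rw [div_eq_mul_inv 2 (100 ^ _)]
  linarith

/-- comparison of the free energies of two runs -/
theorem cmp_core [Fintype ι] {F : ι → YM7.Src (G.N J)} {F' : ι → YM7.Src (G.N J')}
    {g : ι → St → ℂ} (hp : G.Pu) (t : G.Tu b J) (t' : G.Tu b' J') (hu : G.Tv b J) (hu' : G.Tv b' J')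
    (h1 : j ≤ m) (h2 : m ≤ l) (h3 : l ≤ k) (h4 : k < i) (h5 : i ≤ J) (h6 : J ≤ J')
    (Y : G.Hy b J b' J' i k γ x y H u) (a0 : 0 < a) (ha : G.rt J' l * a ≤ 4)
    (hL : ∀ v, LipT (G.N J') a (g v)) (hg : ∀ v z, ‖g v z‖ ≤ 1)
    (hF' : ∀ v, Br.symF (F' v) = fun z _ _ => g v z)
    (hF : ∀ v, Br.symF (F v) = fun z _ _ => G.fd J' J (g v) z) (hW : ∀ v, Br.sup (F' v) ⊆ W v)
    (hc : Fintype.card ι ≤ c) (geo : G.Geo univ (fun _ => ()) c W J' l j)
    (far : Cls (G.N k) (C * (G.p k).D) univ id fun v => G.zs (W v) J' k)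
    (hV : ∀ n ≤ l, ∀ v, (G.zs (W v) J' n).card ≤ G.Q l ^ 50)
    (hM : ∀ v, (G.zs (W v) J' j).card ≤ M) (hw : w⁻¹ ≤ 2 ^ (l - j) * G.sg l)
    (hε : G.Q l ^ 62 * 4 ^ (k - m) * G.er2 J' k c a x y C + 2 / 100 ^ (l - m) ≤ ε) :
    ∃ Z Z' : Fy ι, G.Fe b J j F w M Z ∧ G.Fe b' J' j F' w M Z' ∧ ∀ T : Finset ι, 2 ≤ T.card →
      ‖YM7.ce Z.E T‖ ≤ (2 / G.sg l) ^ T.card ∧
        ‖YM7.ce Z'.E T - γ ^ T.card * YM7.ce Z.E T‖ ≤ ε * (2 / G.sg l) ^ T.card := by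
  have kJ : k ≤ J := by omega
  have iJ : i ≤ J' := by omega
  have li : l ≤ i := by omega
  have jl : j ≤ l := by omega
  have q := h.Q0 l
  have σ0 : 0 < G.sg l := div_pos (h.b0 l) (pow_pos q _)
  obtain ⟨s1, s2, -⟩ := h.sig_le (k := l) le_rfl le_rfl
  have τ : ∀ n : ℕ, (1.01 : ℝ) ^ n * (10 ^ 37 * 0) ≤ 1 := fun _ => by simp
  have nr : ∀ {g : St → ℂ} x (μ ν : Fin 4), ‖g x - g x‖ ≤ 0 := by simp
  have P' : ∀ v ∈ univ, G.Pf J' a 0 (Br.symF (F' v)) (g v) :=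
    fun v _ => ⟨hL v, hg v, by rw [hF' v]; exact nr⟩
  have P : ∀ v ∈ univ, G.Pf J (G.rt J' J * a) 0 (Br.symF (F v)) (G.fd J' J (g v)) :=
    fun v _ => ⟨h.fd_lip (hL v) J h6, fun _ => hg v _, by rw [hF v]; exact nr⟩
  have a1 : 0 < G.rt J' J * a := mul_pos (rt_pos _ _) a0
  have rt : ∀ n ≤ J, G.rt J n * (G.rt J' J * a) = G.rt J' n * a := fun n e => by
    rw [← mul_assoc, ← Nat.cast_mul, h.rt_mul e h6]
  have o' : ∀ v z, rc (G.N J') z ∉ W v → Br.symF (F' v) z = 0 :=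
    fun v z e => Br.symF_out (h.N_odd J') fun u => e (hW v u)
  have o : ∀ v z, rc (G.N J) z ∉ G.zs (W v) J' J → Br.symF (F v) z = 0 := fun v z e => by
    have := o' v _ fun u => e (h.mem_zs J h6 z u)
    rw [hF' v] at this
    rw [hF v]
    exact this
  -- the first run
  have wA := h.run_fw (j := j) t hu P a1 (τ _) le_rfl (by rwa [rt l (by omega)]) le_rfl
  have gA := geo.down h6 (by omega)
  obtain ⟨eA, eA1, eA2⟩ := h.run_top t P (τ _) le_rfl le_rfl σ0 (by omega) o gA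
  have A := h.flow t hp le_rfl (by omega) jl σ0 wA gA eA eA1 eA2 ft_ec s2
  -- the second run
  have wB := h.run_fw (j := j) t' hu' P' a0 (τ _) le_rfl ha le_rfl
  obtain ⟨eB, eB1, eB2⟩ := h.run_top t' P' (τ _) le_rfl le_rfl σ0 (by omega) o' geo
  obtain ⟨b1, b2, b3, b4, -⟩ := h.flow1 t' hp le_rfl jl σ0 wB geo eB eB1 eB2 ft_ec i iJ li
  set v := fun x => dw (fun n => G.ts n (G.zz b J (n + 1)) (H (n + 1)))
    (G.tv (Br.symF (F' x)) b' J' i) i with hv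
  have V := fun x n (e : n ≤ i) => h.tv_hyb (j := 0) (v := v x) (ω := fun n => (G.Q n ^ 280)⁻¹) t' hu'
    (hL x) a0 (hg x) (P' x (mem_univ x)).near iJ (fun n _ e => ⟨h.st2 (t.gd _ (by omega)).tz,
      Y.tg n e, h.inv_up n.le_succ _⟩) (fun n _ e => Y.us n e) (fun n _ e => dw_step _ _ e) Y.u0
    (dw_top ..) (h.hy_sg i) (fun n _ e => Y.un n e) e n.zero_le
  have ω : ∀ n, 0 ≤ (G.Q n ^ 280)⁻¹ ∧ (G.Q n ^ 280)⁻¹ ≤ (G.Q n ^ 100)⁻¹ := fun n => by
    constructor <;> linarith [h.inv_le n (show 100 < 280 by norm_num),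
      inv_pos.2 (pow_pos (h.Q0 n) 280)]
  have bi := (Y.bz i le_rfl).1.1
  obtain ⟨_, _, _, bi⟩ := bi
  rw [Y.top, ← show _ = (G.zz b' J' i).ψ from congrArg Prod.fst b2] at bi
  have zi := fw_Z (G := G) (A := univ) (b := b') (J := J')
    (Y := G.ft univ (fun x => Br.symF (F' x)) W b' J') i iJ
  have B := h.flow (N := fun n => G.Q n ^ 2) (v := v) t hp h5 li jl σ0 ⟨fun n _ => Y.hs n,
      fun n _ => Y.bz n, fun n _ e => fr_step (e.trans_le iJ), fun n _ e x _ => dw_step _ _ e,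
      fun n a e => ⟨sq_nonneg _, (h.sig_le le_rfl a).1, fun x _ =>
        have e' := h.pe_sq (J := J') a0 (τ _) le_rfl ha a
        h.sz_le (h.pos_sz (fun _ => hg x _) (V x n e) (Y.un n e)) (ω n).1 e' (by linarith)
          (ω n).2⟩⟩
    (by rw [Fy.hy, zi]; exact geo.down iJ li) (b1.hy bi)
    (by rw [Y.top]; exact Prod.ext (congrArg (·.1 + _) b2) (congrArg Prod.snd b2 :))
    (fun x hx => (Fy.hy_jt b1.fi hx).trans ((b3 x hx).trans (dw_top ..).symm)) b4 s2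
  generalize hB : G.fw (univ : Finset ι) b J _ i = YB at B
  generalize hA : G.fw (univ : Finset ι) b J _ J = YA at A
  have ZB : ∀ n ≤ i, (YB n).Z = fun v => G.zs (W v) J' n := fun n e => by
    rw [← hB, fw_Z n e, Fy.hy, zi]
    simp only [ft, zs_zs iJ e]
  have ZA : ∀ n ≤ J, (YA n).Z = fun v => G.zs (W v) J' n := fun n e => by
    rw [← hA, fw_Z n e]
    simp only [ft, zs_zs h6 e]
  have tz := (t.gd j (by omega)).tz
  have uA := A.bs j (by omega) le_rfl ▸ wA.bz j le_rfl (by omega)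
  have uB := B.bs j (by omega) le_rfl ▸ Y.bz j (by omega)
  refine ⟨YA j, YB j, ⟨_, _, _, _, _, _, tz, A.fe, uA.2.1, uA.2.2, A.pe, (h.th_le j).1,
    (h.th_le j).2, fun x => ⟨hw, by rw [ZA j (by omega)]; exact hM x⟩⟩, ⟨_, _, _, _, _, _, tz, B.fe,
    uB.2.1, uB.2.2, B.pe, (h.th_le j).1, (h.th_le j).2, fun x => ⟨hw, by
      rw [ZB j (by omega)]; exact hM x⟩⟩, fun T hT => ?_⟩
  have T0 : T.Nonempty := card_pos.1 (by omega)
  have γ2 : ‖(γ : ℂ)‖ ≤ 2 := by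
    rw [Complex.norm_real, norm_eq_abs, abs_le]
    constructor <;> linarith [abs_le.1 Y.one]
  simp only [YM7.ce, if_neg T0.ne_empty]
  constructor
  · have := A.tl l le_rfl jl T (subset_univ T) T0
    rw [A.e0 T (subset_univ T) hT, sub_zero, Nat.sub_self, pow_zero, inv_one, ← one_div_pow] at this
    refine this.trans ?_
    gcongr
    norm_num
  · have x0 := (h.sz_nn Y.du).1
    have n0 : 0 ≤ G.Q k * (G.rt J' k * a) := by have := h.Q0 k; positivity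
    refine (h.cmp_fo hp t h1 h2 h3 h4 h5 σ0 ?_ γ2 B A (fun n e => (ZA n (by omega)).trans
      (ZB n e).symm) hc ?_ (x := 12000 * G.Q k * (G.rt J' k * a) + x) (by linarith) Y.dh
      (fun z _ => ?_) (ZB k h4.le ▸ geo.one k h3 (by omega)) (ZB k h4.le ▸ far)
      (fun n e z => by rw [ZB n (by omega)]; exact hV n e z) (subset_univ T) hT).trans
      (mul_le_mul_of_nonneg_right hε (by positivity))
    · rw [← h.bg k]
      exact mul_le_mul_of_nonneg_right (by linarith [(h.sig_le le_rfl h3).2.2]) (sq_nonneg _)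
    · have e : (1000 * 3 ^ c : ℝ) ≤ G.L j := by exact_mod_cast geo.big
      linarith [h.LQ j, h.Q_mono h1, pow_le_pow_left₀ zero_le_two (show (2 : ℝ) ≤ 3 by norm_num) c,
        pow_pos (two_pos (α := ℝ)) c]
    · have e := h.tv_pos t hu (P z (mem_univ z)).lip a1 (P z (mem_univ z)).le
        (P z (mem_univ z)).near kJ
      rw [h.fd_comp kJ h6] at e
      have e' := h.pos_cmp (fun _ => hg z _) γ (δ := 0) (fun _ => nr _ 0 0)
        (h.sz_le (V z k h4.le) (ω k).1 le_rfl le_rfl (ω k).2)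
        (h.sz_le e (sqrt_nonneg _) le_rfl le_rfl (h.sg_le k)) Y.du
        (h.sz_le (hu k kJ) (sqrt_nonneg _) le_rfl le_rfl (h.sg_le k))
      simp only [pe, rt k kJ, mul_zero, zero_mul, zero_add, add_zero, one_mul] at e'
      have := mul_le_mul_of_nonneg_right γ2 n0
      exact h.sz_le e' ((ω k).1.trans (ω k).2) (by linarith) (by linarith) le_rfl

end Ok

end Gl

end Pool.Agent.Lib.MP_7f377f_mp.RG.Q4.En
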