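import Pool.Agent.Lib.MP_7f377f_mp.Q5CmL
import Pool.Agent.Lib.MP_7f377f_mp.Q5CmC

/-! The errors of the comparison. -/

noncomputable section

namespace Pool.Agent.Lib.MP_7f377f_mp.RG.Q4.En.Gl.Ok

open Real Filter Topology

variable {G : Gl} (h : G.Ok) {c C j l J' : ℕ} {X η a A d : ℝ}
include h

variable (hB : pB c C * G.K + pB c C ≤ G.Bk l)
include hB

theorem lJ_le : (G.K0 + 2 + (G.lJ c l - l)) * C + 1 ≤ G.Bk l ∧ G.lJ c l ≤ l + G.Bk l := by
  have a := h.K0_le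
  have e : G.lJ c l - l = G.K * (41 * pT c + 8102) + 21 := by
    refine Nat.sub_eq_of_eq_add ?_
    unfold lJ li lk; ring
  have e' : G.lJ c l = l + (G.K * (41 * pT c + 8102) + 21) := by unfold lJ li lk; ring
  rw [e, e']
  unfold pB at hB
  have b : G.K0 + 2 + (G.K * (41 * pT c + 8102) + 21) ≤ (41 * pT c + 8200) * G.K := by nlinarith
  have := Nat.mul_le_mul_right C b
  constructor <;> nlinarith [Nat.zero_le (pT c * G.K), Nat.zero_le ((41 * pT c + 8200) * C), Nat.zero_le ((41 * pT c + 8200) * C * G.K)]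

theorem lw_win {k : ℕ} (h1 : l ≤ k) (h2 : k ≤ G.lJ c l) :
    G.L k ≤ G.L l ^ 2 ∧ G.Q k ≤ G.Q l ^ 2 ∧ G.bb k ≤ 2 * G.bb l :=
  h.win1 h1 le_rfl (by have := (h.lJ_le hB).2; have := h.B_mono h1; omega)

theorem lw_pow (hA : A ≤ G.L l) (d0 : 0 ≤ d) (hd : d * 3 ^ G.e l ≤ A * G.L l ^ (G.K0 + 1)) :
    2 * (d * 3 ^ G.e (G.lJ c l)) ^ C ≤ G.bb (G.lJ c l) := by
  have o : l ≤ G.lJ c l := by unfold lJ li lk; omega
  have a := (h.lJ_le (l := l) hB).1
  generalize G.lJ c l = J at *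
  have L1 := h.L1 J
  have m : (G.L l : ℝ) ≤ G.L J := Nat.cast_le.2 (h.L_mono o)
  have r : (G.rt J l : ℝ) ≤ G.L J ^ (J - l) := by exact_mod_cast h.rt_le l o
  have e : d * 3 ^ G.e J ≤ G.L J ^ (G.K0 + 2 + (J - l)) := by
    rw [← h.rt_e o, mul_left_comm, pow_add, mul_comm, pow_succ' _ (G.K0 + 1)]
    exact mul_le_mul (hd.trans (by gcongr; exact hA.trans m)) r (Nat.cast_nonneg _) (by positivity)
  refine le_trans ?_ (h.Lbk J (a.trans (h.B_mono o)))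
  rw [pow_succ', pow_mul]
  exact mul_le_mul (by linarith) (pow_le_pow_left₀ (by positivity) e C) (by positivity)
    (by positivity)

theorem er2_le (w : G.Lw c l j X η) (hc : 1000 * 3 ^ c ≤ G.L l) (hJ : G.lk c l ≤ J') (a0 : 0 ≤ a)
    (ha : G.rt J' l * a ≤ 4) : G.er2 J' (G.lk c l) c a (32 / G.Q l ^ pT c)
      (4 / G.Q l ^ pT c * G.bb (G.lk c l)) (G.L l) ≤ G.Q l ^ 2 / G.Q l ^ pT c := by
  have o : l ≤ G.lk c l := Nat.le_add_right _ _
  have q := h.Q0 l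
  have q1 := h.cQ l (C := 10 ^ 6) (by norm_num)
  have q2 := (h.lw_win hB o (by unfold lJ li; omega)).2.1
  have r : G.Q l ^ (pT c + 2) ≤ G.rt (G.lk c l) l := by
    have := h.le_rt l o
    rw [lk, Nat.add_sub_cancel_left, pow_mul] at this
    rw [Q]
    exact_mod_cast this
  have c1 : (c : ℝ) ≤ G.Q l := le_trans (Nat.cast_le.2 (le_trans
    (Nat.lt_pow_self (by norm_num)).le (le_trans (Nat.le_mul_of_pos_left _ (by norm_num)) hc))) (h.LQ l)
  have c2 : (2 : ℝ) ^ (c + 1) * exp 2 ≤ G.bb l := by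
    have a1 : exp 2 ≤ 9 := by
      rw [show (2 : ℝ) = 1 + 1 by norm_num, exp_add]; nlinarith [exp_one_lt_three, exp_pos 1]
    have a2 : (2 : ℝ) ^ c ≤ 3 ^ c := by gcongr; norm_num
    have a3 : (1000 : ℝ) * 3 ^ c ≤ G.L l := by exact_mod_cast hc
    have a4 := h.Lb l (i := 1) (by have := h.B1; omega)
    rw [pow_one] at a4
    rw [pow_succ]
    nlinarith [pow_pos (two_pos (α := ℝ)) c]
  have w3 := w.2.2.1
  rw [← h.rt_mul o hJ, Nat.cast_mul, mul_assoc] at ha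
  have x0 : 0 ≤ (G.rt J' (G.lk c l) : ℝ) * a := by positivity
  rw [er2, mul_assoc, h.bg, le_div_iff₀ (pow_pos q _)]
  generalize (G.rt J' (G.lk c l) : ℝ) * a = x at *
  have T0 := pow_pos q (pT c)
  have a1 : G.Q (G.lk c l) * x * G.Q l ^ pT c ≤ 4 := by
    refine le_trans ?_ ((mul_le_mul_of_nonneg_right r x0).trans ha)
    rw [pow_add]
    nlinarith [mul_le_mul_of_nonneg_right q2 (mul_nonneg x0 T0.le)]
  have a2 : 2 ^ (c + 1) * G.Q (G.lk c l) ^ 100 * exp (2 - G.L l) * G.Q l ^ pT c ≤ 1 := by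
    refine le_trans ?_ w3
    have := pow_le_pow_left₀ (h.Q0 _).le q2 100
    rw [← pow_mul] at this
    rw [sub_eq_add_neg, exp_add, pow_add (G.Q l)]
    calc _ = G.Q l ^ pT c * G.Q (G.lk c l) ^ 100 * (2 ^ (c + 1) * exp 2) * exp (-G.L l) := by ring
      _ ≤ _ := by gcongr
  have a3 : 32 / G.Q l ^ pT c * G.Q l ^ pT c = 32 := div_mul_cancel₀ _ T0.ne'
  have a4 : 4 / G.Q l ^ pT c * G.Q l ^ pT c = 4 := div_mul_cancel₀ _ T0.ne'
  have a5 : (c : ℝ) * (12000 * (G.Q (G.lk c l) * x * G.Q l ^ pT c) + 32) ≤ G.Q l * 48032 :=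
    mul_le_mul c1 (by linarith) (by have := h.Q0 (G.lk c l); positivity) q.le
  calc _ = 4 / G.Q l ^ pT c * G.Q l ^ pT c + c * (12000 * (G.Q (G.lk c l) * x * G.Q l ^ pT c) +
        32 / G.Q l ^ pT c * G.Q l ^ pT c) +
        2 ^ (c + 1) * G.Q (G.lk c l) ^ 100 * exp (2 - G.L l) * G.Q l ^ pT c := by ring
    _ ≤ _ := by rw [a3, a4]; nlinarith

theorem er_le (w : G.Lw c l j X η) (hc : 1000 * 3 ^ c ≤ G.L l) (hJ : G.lk c l ≤ J') (a0 : 0 ≤ a)
    (ha : G.rt J' l * a ≤ 4) :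
    G.Q l ^ 62 * 4 ^ (G.lk c l - G.lm c l) * G.er2 J' (G.lk c l) c a (32 / G.Q l ^ pT c)
      (4 / G.Q l ^ pT c * G.bb (G.lk c l)) (G.L l) + 2 / 100 ^ (l - G.lm c l) ≤ (G.Q l ^ pP c)⁻¹ := by
  have q := h.Q0 l
  have q1 := h.cQ l (C := 2) (by norm_num)
  have w1 := w.1
  have e1 : l - G.lm c l = pP c * G.K * G.t l := by unfold lm; omega
  have e2 : G.lk c l - G.lm c l = G.K * (pT c + 2) + pP c * G.K * G.t l := by unfold lk lm; omega
  have e3 : G.Q l ^ pP c = 3 ^ (pP c * G.K * G.t l) := by rw [Q_eq, ← pow_mul]; ring_nf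
  have n0 : pP c * G.K * G.t l ≠ 0 := fun e => by
    rw [e, pow_zero] at e3
    exact (one_lt_pow₀ (by linarith) (Nat.succ_ne_zero _)).ne' e3
  have a1 : (4 : ℝ) ^ (G.K * (pT c + 2)) ≤ G.Q l := by
    have := h.pow_L l (i := G.K * (pT c + 2)) (by
      have := (h.lJ_le (l := l) hB).2
      unfold lJ li lk at this; omega)
    refine le_trans (pow_le_pow_left₀ (by norm_num) (show (4 : ℝ) ≤ 100 by norm_num) _)
      (le_trans ?_ (h.LQ l))
    exact_mod_cast this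
  have a2 := h.er2_le hB w hc hJ a0 ha
  rw [e1, e2, pow_add]
  generalize pP c * G.K * G.t l = n at *
  have P0 := pow_pos q (pP c)
  have a3 : (4 : ℝ) ^ n ≤ G.Q l ^ pP c * G.Q l ^ pP c := by
    rw [e3, ← mul_pow]; gcongr; norm_num
  have a4 : 4 * G.Q l ^ pP c ≤ 100 ^ n := by
    rw [e3, show (100 : ℝ) = 4 * 25 by norm_num, mul_pow]
    exact mul_le_mul (le_self_pow₀ (by norm_num) n0) (by gcongr; norm_num) (by positivity)
      (by positivity)
  have a5 : 2 / 100 ^ n ≤ (G.Q l ^ pP c)⁻¹ / 2 := by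
    rw [div_le_div_iff₀ (by positivity) two_pos, inv_mul_eq_div, le_div_iff₀ P0]; linarith
  refine le_trans (add_le_add ?_ a5) (add_halves _).le
  calc _ ≤ G.Q l ^ 62 * (G.Q l * (G.Q l ^ pP c * G.Q l ^ pP c)) * (G.Q l ^ 2 / G.Q l ^ pT c) := by
        rcases le_total 0 (G.er2 J' (G.lk c l) c a (32 / G.Q l ^ pT c)
          (4 / G.Q l ^ pT c * G.bb (G.lk c l)) (G.L l)) with e | e
        · gcongr
        · exact (mul_nonpos_of_nonneg_of_nonpos (by positivity) e).trans (by positivity)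
    _ = (G.Q l ^ pP c)⁻¹ / G.Q l ^ 5 := by rw [pT]; field_simp; ring
    _ ≤ _ := by gcongr; exact q1.trans (le_self_pow₀ (h.Q1 l) (by norm_num))

end Pool.Agent.Lib.MP_7f377f_mp.RG.Q4.En.Gl.Ok
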