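import Pool.Agent.Lib.MP_7f377f_mp.Q5Gen
import Pool.Agent.Lib.MP_7f377f_mp.Q5Test
import Pool.Agent.Lib.MP_7f377f_mp.SoftB

/-! Moments of sources in one cell, uniformly in the volume. -/

noncomputable section

open Pool.Agent.Lib.MP_7f377f_mp.Jet

namespace Pool.Agent.Lib.MP_7f377f_mp.RG.Q4.En.Gl.Ok

open Finset Real Br YM7

variable {κ : Type} [Fintype κ] [DecidableEq κ] {G : Gl} {J j m u D : ℕ} [NeZero (G.N J)] [NeZero m]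
  {b w N a a' τ τ' δ δ' : ℝ} (h : G.Ok) (b0 : 0 ≤ b) (hj : j ≤ J) (w0 : 0 < w)
  (hn : G.N j = m * u)
include h b0 hj w0 hn

theorem gen_cell {P : Weak.Site 4 m → (κ → Src (G.N J)) → Prop}
    (hP : ∀ F : _ → κ → _, (∀ c, P c (F c)) → ∃ Y,
      G.Fe b J j (fun p : Weak.Site 4 m × κ => F p.1 p.2) w N Y ∧ Y.Ec univ Prod.fst) :
    G.N J = m * (G.rt J j * u) ∧ YM7.Inv (G.al b J j) (G.rt J j * u) ∧ Gen (Fi.tr haar) b (G.al b J j)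
      P w (exp ((cI (G.g j) * u ^ 4 + Fintype.card κ * N) * m ^ 4)) :=
  ⟨by rw [← h.rt_N hj, hn, mul_left_comm], h.al_inv b0 hj (by
    rw [h.N_div hj]; exact dvd_mul_right _ _), h.gen_of b0 hj w0 hP (by rw [hn]; push_cast; linarith)⟩

theorem red_cell (m1 : 1 < m) (a0 : 0 < a) (δ0 : 0 ≤ δ) (hδ : δ + a ≤ δ') (hτ : τ' + 4 * a' ≤ τ)
    (hP : ∀ F : _ → κ → _, (∀ c, Cla a a' τ δ (G.rt J j * u) D c (F c)) → ∃ Y,
      G.Fe b J j (fun p : Weak.Site 4 m × κ => F p.1 p.2) w N Y ∧ Y.Ec univ Prod.fst)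
    {F : κ → Src (G.N J)} {c : Weak.Site 4 m} (hF : Cla a a' τ' δ' (G.rt J j * u) (D + 2) c F)
    {Y : Fy κ} (e : G.Fe b J j F w N Y) (N0 : 0 ≤ N) :
    Red (YM7.ex (Fi.tr haar) b (G.N J)) F w (2 ^ Fintype.card κ *
      exp (256 * (cI (G.g j) * u ^ 4 + Fintype.card κ * N)) * exp (Fintype.card κ * N)) (ce Y.E) :=
  let ⟨c1, c2, c3⟩ := h.gen_cell b0 hj w0 hn hP
  have : (Fi.tr haar).IsHaarMeasure := (inferInstance : haar.IsHaarMeasure)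
  red_of_gen b0 (Nat.Odd.of_mul_left (hn ▸ h.N_odd j)) c1 m1 a0 δ0 hδ hτ c2 w0
    (by have := cI_nn (h.g0 j); positivity) c3 hF (h.red_al b0 hj w0 e le_rfl)

end Pool.Agent.Lib.MP_7f377f_mp.RG.Q4.En.Gl.Ok
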