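import Pool.Agent.Lib.MP_7f377f_mp.Q5CmB
import Pool.Agent.Lib.MP_7f377f_mp.Q5Red
import Pool.Agent.Lib.MP_7f377f_mp.Q5Lev

/-! Test sources at short distances: geometry and numbers. -/

noncomputable section

open Pool.Agent.Lib.MP_7f377f_mp.Jet

namespace Pool.Agent.Lib.MP_7f377f_mp.RG.Q4.En.Gl

open Finset Real Sg Br YM7 Filter Topology

variable (G : Gl)

/-- sources at distance of order `d` merge at level `l` -/
structure Lv (c j l : ℕ) (Λ δ d : ℝ) : Prop where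
  le : j ≤ l
  d0 : 0 < d
  sm : d * (Λ + δ + 3) * 3 ^ G.e j ≤ 100⁻¹
  lo : 68 * (G.L l : ℝ) ^ G.K0 ≤ δ * (d * 3 ^ G.e l)
  one : 1 ≤ d * 3 ^ G.e l
  hi : 2 * ((Λ + 3) * (d * 3 ^ G.e l) + 1 + 4 * (G.L l : ℝ) ^ G.K0) + 1 ≤ G.Q l ^ 12
  up : d * 3 ^ G.e l ≤ (G.L l : ℝ) ^ (G.K0 + 2)
  big : 1000 * 3 ^ c ≤ G.L j

/-- the size of the supports at level `j` -/
def nz (j : ℕ) : ℕ := (2 * (1 + 4 * G.L j ^ G.K0) + 1) ^ 4

/-- the bound for the corrections -/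
def mr (j u k : ℕ) : ℝ :=
  2 ^ k * exp (256 * (cI (G.g j) * u ^ 4 + k * G.nz j)) * exp (k * G.nz j)

/-- the separation of the sources at the top -/
def ds (J l : ℕ) : ℕ := 66 * (G.L l ^ G.K0 * G.rt J l)

namespace Ok

variable {G} (h : G.Ok) {c j l J k n m u v : ℕ} {Λ δ d a b w τ : ℝ} {f : Fin k → R4 → ℝ}
include h

theorem ev_lv (Λ1 : 1 ≤ Λ) (δ0 : 0 < δ) (hj : 1000 * 3 ^ c ≤ G.L j) {P : ℕ → Prop}
    (e : ∀ᶠ l in atTop, P l) : ∀ᶠ d in 𝓝[>] (0 : ℝ), ∃ l, P l ∧ G.Lv c j l Λ δ d := by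
  have A0 : 0 < 68 / δ + 1 := by positivity
  have p : 0 < (Λ + δ + 3) * 3 ^ G.e j := by positivity
  filter_upwards [h.ex_jm A0 (e.and ((eventually_ge_atTop j).and ((h.ev_L (68 / δ + 1)).and
    (h.ev_L (Λ + 3))))), Ioo_mem_nhdsGT (show 0 < 100⁻¹ / _ from div_pos (by norm_num) p)]
    with d ⟨d0, l, ⟨a1, a2, a3, a4⟩, a5, a6⟩ ⟨_, d1⟩
  have L := h.L1 l
  have K : (1 : ℝ) ≤ G.L l ^ G.K0 := one_le_pow₀ (by linarith)
  have u : d * 3 ^ G.e l ≤ (G.L l : ℝ) ^ (G.K0 + 2) := a6.trans (by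
    rw [pow_succ' _ (G.K0 + 1)]; gcongr)
  refine ⟨l, a1, a2, d0, by rw [mul_assoc]; exact ((lt_div_iff₀ p).1 d1).le, ?_, ?_, ?_, u, hj⟩
  · refine le_trans ?_ (mul_le_mul_of_nonneg_left a5 δ0.le)
    rw [← mul_assoc, mul_add, mul_div_cancel₀ _ δ0.ne']
    gcongr
    linarith
  · nlinarith [div_pos (show (0 : ℝ) < 68 by norm_num) δ0]
  · have b1 : (Λ + 3) * (d * 3 ^ G.e l) ≤ G.L l ^ (G.K0 + 3) := by
      rw [pow_succ' _ (G.K0 + 2)]; gcongr
    have b2 : (G.L l : ℝ) ^ G.K0 ≤ G.L l ^ (G.K0 + 3) := pow_le_pow_right₀ (by linarith) (by omega)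
    have b3 : (G.L l : ℝ) ^ (G.K0 + 3) ≤ G.Q l :=
      pow_le_pow_right₀ (by linarith) (by have := h.K0_le; omega)
    have := h.qpw l (i := 1) (j := 12) (by norm_num)
    linarith [h.Q1 l]

variable (V : G.Lv c j l Λ δ d) (hl : l < J) (ha : a * 3 ^ G.e J = 1) (Λ1 : 1 ≤ Λ) (δ0 : 0 < δ)
include V hl ha

omit h V hl in
theorem a_pos : 0 < a := by
  by_contra e
  nlinarith [mul_nonneg (neg_nonneg.2 (not_lt.1 e)) (pow_pos (show (0 : ℝ) < 3 by norm_num) (G.e J)).le]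

omit V hl in
theorem a_rt (hn : n ≤ J) : G.rt J n * (a / d) = (d * 3 ^ G.e n)⁻¹ := by
  rw [← h.rt_e hn] at ha
  rw [mul_inv, ← mul_div_assoc, div_eq_mul_inv, mul_comm]
  exact congrArg _ (eq_inv_of_mul_eq_one_left (by linarith))

theorem s_rt : G.rt J l * (a / d) ≤ 1 := by
  rw [h.a_rt ha hl.le]; exact inv_le_one_of_one_le₀ V.one

theorem s_le : a / d ≤ 1 ∧ 1.01 ^ (J - l) * (10 ^ 37 * (4 * (a / d))) ≤ 1 := by
  have s0 := (div_pos (a_pos ha) V.d0).le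
  have a1 := h.s_rt V hl ha
  have a2 := h.pw_rt (J := J) (l + 1) hl
  have a3 : ((100 ^ 20 : ℕ) : ℝ) ≤ G.L l := Nat.cast_le.2 (h.pow_L l (by omega))
  have a4 : (1 : ℝ) ≤ 1.01 ^ (J - (l + 1)) := one_le_pow₀ (by norm_num)
  rw [h.rt_step hl, Nat.cast_mul] at a1
  rw [show J - l = J - (l + 1) + 1 by omega, pow_succ]
  have := mul_le_mul_of_nonneg_right (mul_le_mul a3 a2 (by positivity) (by positivity)) s0
  push_cast at this
  constructor <;> nlinarith [mul_le_mul_of_nonneg_right a4 s0]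

include Λ1 δ0

omit h hl ha in
theorem d_le : d * (Λ + δ + 3) ≤ 100⁻¹ := le_trans (le_mul_of_one_le_right
  (by have := V.d0; positivity) (one_le_pow₀ (by norm_num))) V.sm

omit δ0 in
theorem R_le (hn : n ≤ J) : ((⌈(Λ + 3) / (a / d)⌉₊ / G.rt J n : ℕ) : ℝ) ≤
    (Λ + 3) * (d * 3 ^ G.e n) + 1 := by
  have _ := hl
  have s0 := div_pos (a_pos ha) V.d0
  have r1 : (1 : ℝ) ≤ G.rt J n := Nat.one_le_cast.2 (Nat.one_le_pow _ _ three_pos)
  refine Nat.cast_div_le.trans ((div_le_div_of_nonneg_right (Nat.ceil_lt_add_one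
    (by positivity)).le (by linarith)).trans ?_)
  rw [add_div, div_div, mul_comm (a / d), h.a_rt ha hn, div_inv_eq_mul]
  linarith [(div_le_one (by linarith)).2 r1]

omit δ0 in
theorem vol_le (hn : n ≤ l) :
    ((2 * (⌈(Λ + 3) / (a / d)⌉₊ / G.rt J n + 4 * G.L n ^ G.K0) + 1) ^ 4 : ℕ) ≤ G.Q l ^ 50 := by
  have a1 := h.R_le V hl ha Λ1 (hn.trans hl.le)
  have a2 : (3 : ℝ) ^ G.e n ≤ 3 ^ G.e l := pow_le_pow_right₀ (by norm_num) (h.sch.mono.monotone hn)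
  have a3 : (G.L n : ℝ) ^ G.K0 ≤ G.L l ^ G.K0 := by gcongr; exact h.L_mono hn
  have d0 := V.d0
  generalize ⌈(Λ + 3) / (a / d)⌉₊ / G.rt J n = t at *
  push_cast
  calc _ ≤ (G.Q l ^ 12) ^ 4 := by
        gcongr
        linarith [V.hi, show (Λ + 3) * (d * 3 ^ G.e n) ≤ (Λ + 3) * (d * 3 ^ G.e l) by gcongr]
    _ ≤ _ := by rw [← pow_mul]; exact pow_le_pow_right₀ (h.Q1 l) (by norm_num)

theorem nz_le : (2 * (⌈(Λ + 3) / (a / d)⌉₊ / G.rt J j + 4 * G.L j ^ G.K0) + 1) ^ 4 ≤ G.nz j := by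
  have a1 := h.R_le V hl ha Λ1 (V.le.trans hl.le)
  have a2 : ⌈(Λ + 3) / (a / d)⌉₊ / G.rt J j < 2 := Nat.cast_lt (α := ℝ).1 (by
    have := V.sm
    have := V.d0
    push_cast
    nlinarith [show 0 < d * δ * 3 ^ G.e j by positivity])
  unfold nz
  gcongr
  omega

omit Λ1 δ0 in
theorem ds_le : ((G.ds J l + 2 : ℕ) : ℝ) * (a / d) ≤ δ := by
  have a1 := h.a_rt (d := d) ha hl.le
  have p : 0 < d * 3 ^ G.e l := one_pos.trans_le V.one
  have K : 1 ≤ G.L l ^ G.K0 * G.rt J l := Nat.mul_pos (pow_pos (by linarith [h.L_big l]) _)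
    (pow_pos three_pos _)
  have : ((G.ds J l + 2 : ℕ) : ℝ) ≤ 68 * (G.L l ^ G.K0 * G.rt J l) := by
    exact_mod_cast (by unfold ds; omega : G.ds J l + 2 ≤ 68 * (G.L l ^ G.K0 * G.rt J l))
  refine (mul_le_mul_of_nonneg_right this (div_pos (a_pos ha) V.d0).le).trans ?_
  rw [mul_assoc, mul_assoc, a1, ← mul_assoc, ← div_eq_mul_inv, div_le_iff₀ p]
  exact V.lo

variable [NeZero (G.N J)] [NeZero m] (hn : G.N j = m * u) (hu : 3 ^ G.e j ≤ 3 * u)
include hu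

omit hn Λ1 δ0 [NeZero (G.N J)] in
theorem lam_ge : 3⁻¹ ≤ a * (G.rt J j * u : ℕ) := by
  have : (3 : ℝ) ^ G.e j ≤ 3 * u := by exact_mod_cast hu
  rw [← h.rt_e (V.le.trans hl.le)] at ha
  have := mul_le_mul_of_nonneg_left this (mul_nonneg (a_pos (G := G) (J := J) (by
    rwa [h.rt_e (V.le.trans hl.le)] at ha)).le (Nat.cast_nonneg (G.rt J j)))
  push_cast
  linarith

include hn

omit Λ1 δ0 in
/-- the test sources are admissible -/
theorem cla_ts (H : Tf f Λ δ) (hv : |a * v - a * (G.rt J j * u : ℕ) / 2| ≤ d) :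
    Cla (m := m) a (a / d) 0 (a * (G.rt J j * u : ℕ) / 2 - d * (Λ + 1)) (G.rt J j * u)
      (G.ds J l + 2) 0 (tsr Λ f (a / d) (Fi.cst (G.N J) fun _ => v)) := by
  have a0 := a_pos ha
  have d0 := V.d0
  have a1 := d_le V H.one H.pos
  have a2 := h.lam_ge V hl ha hu
  have a3 : G.rt J j * u ≤ G.N J := by
    rw [← h.rt_N (V.le.trans hl.le), hn]
    exact Nat.mul_le_mul_left _ (Nat.le_mul_of_pos_left _ (NeZero.pos m))
  have a4 := mul_le_mul_of_nonneg_left (Nat.cast_le (α := ℝ).2 a3) a0.le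
  have := mul_pos d0 H.pos
  refine cla_mid H (div_pos a0 d0) a0 le_rfl a3 ?_ (h.s_le V hl ha).1 (h.ds_le V hl ha)
    (by linarith) ?_
  · rw [div_mul_eq_mul_div, lt_div_iff₀ d0]
    linarith
  · rw [div_div_cancel₀ a0.ne']
    linarith

omit hn hu δ0 [NeZero m] in
theorem sup_ball {y : Weak.Site 4 m} {F : Src (G.N J)} {lam : ℕ}
    (e : YM7.InT a (a * lam / 2 - d * (Λ + 2)) lam y F) :
    sup F ⊆ tb (G.N J) ⌈(Λ + 3) / (a / d)⌉₊ {mid lam y} := by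
  have _ := Λ1
  have a0 := a_pos ha
  have d0 := V.d0
  refine sup_inT (h.N_odd J) a0 e (le_trans ?_ (mul_le_mul_of_nonneg_left (Nat.le_ceil _) a0.le))
  rw [← mul_div_assoc, mul_div_right_comm a (Λ + 3), div_div_cancel₀ a0.ne']
  linarith [(div_le_one d0).1 (h.s_le V hl ha).1]

variable {κ : Type} [Fintype κ] [DecidableEq κ] (t : G.Tu b J) (hp : G.Pu) (T : G.Tv b J)
  (hc : Fintype.card κ ≤ c) (w0 : 0 < w) (hw : w⁻¹ ≤ 2 ^ (l - j) * G.sg l)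
include t hp T hc hw

/-- the families of all cells -/
theorem gen_run (F : Weak.Site 4 m → κ → Src (G.N J)) (hF : ∀ y, Cla a (a / d) (4 * (a / d))
    (a * (G.rt J j * u : ℕ) / 2 - d * (Λ + 2)) (G.rt J j * u) (G.ds J l) y (F y)) :
    ∃ Y, G.Fe b J j (fun p : Weak.Site 4 m × κ => F p.1 p.2) w (G.nz j) Y ∧ Y.Ec univ Prod.fst := by
  have a0 := a_pos ha
  have d0 := V.d0
  have s0 := div_pos a0 d0
  have a1 := d_le V Λ1 δ0
  have a2 := h.lam_ge V hl ha hu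
  have a3 : G.N J = m * (G.rt J j * u) := by
    rw [← h.rt_N (V.le.trans hl.le), hn, mul_left_comm]
  have a4 := mul_pos d0 δ0
  have a5 : 5⁻¹ / a ≤ 2 * (a * (G.rt J j * u : ℕ) / 2 - d * (Λ + 2)) / a := by gcongr; linarith
  have B := fun p : Weak.Site 4 m × κ => h.sup_ball V hl ha Λ1 ((hF p.1).1 p.2).2
  have R := h.fe_run (cl := Prod.fst) (c := c) (w := w) (M := G.nz j) t hp T
    (fun p : Weak.Site 4 m × κ => ((hF p.1).1 p.2).1) s0 (h.s_le V hl ha).2 (by positivity)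
    (h.s_rt V hl ha) (div_pos (h.b0 l) (pow_pos (h.Q0 l) _)) le_rfl hl.le V.le (fun _ => Subset.rfl)
    (h.geo_of hl.le (cls_id a3 a0 hF univ (le_trans ?_ a5)) (by simp [ds]) (cls_cell a3 a0 hF univ)
      (le_trans ?_ a5) (fun y => le_trans (card_le_card_of_injOn Prod.snd (fun _ _ => mem_univ _)
        fun p hp q hq e => Prod.ext ((mem_filter.1 hp).2.trans (mem_filter.1 hq).2.symm) e) hc)
      V.big (fun y => ⟨mid (G.rt J j * u) y, fun p _ e => by subst e; exact B p⟩)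
      (h.vol_le V hl ha Λ1 le_rfl)) hw
    fun p => Nat.cast_le.2 ((h.zs_card (B p) (V.le.trans hl.le)).trans (h.nz_le V hl ha Λ1 δ0))
  · exact ⟨_, R.1, R.2.1⟩
  · have := h.ds_le V hl ha
    rw [← mul_div_assoc, div_le_iff₀ d0] at this
    rw [le_div_iff₀ a0]
    push_cast at this
    nlinarith
  · have b1 := (h.Lb j (i := G.K0 + 1) (by have := h.B1; omega)).trans (h.b_e j)
    have b2 : (1000 * 3 ^ c : ℝ) ≤ G.L j := by exact_mod_cast V.big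
    have b3 : (c : ℝ) + 1 ≤ 3 ^ c := by exact_mod_cast Nat.lt_pow_self (by norm_num)
    have b4 : 5 * (40 * c + 46) * (G.L j : ℝ) ^ G.K0 ≤ 3 ^ G.e j :=
      (mul_le_mul_of_nonneg_right (by linarith) (by positivity)).trans ((pow_succ' _ _).ge.trans b1)
    rw [← h.rt_e (V.le.trans hl.le)] at ha
    rw [le_div_iff₀ a0]
    nlinarith [mul_le_mul_of_nonneg_right b4 (show 0 ≤ G.rt J j * a by positivity)]

omit hc Λ1 δ0 in
include w0 in
/-- the moments of the test sources -/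
theorem red_run (m1 : 1 < m) (hk : k ≤ c) (H : Tf f Λ δ)
    (hv : |a * v - a * (G.rt J j * u : ℕ) / 2| ≤ d) {Y : Fy (Fin k)}
    (e : G.Fe b J j (tsr Λ f (a / d) (Fi.cst (G.N J) fun _ => v)) w (G.nz j) Y) :
    Red (YM7.ex (Fi.tr haar) b (G.N J)) (tsr Λ f (a / d) (Fi.cst (G.N J) fun _ => v)) w
      (G.mr j u k) (ce Y.E) := by
  have a1 := d_le V H.one H.pos
  have a2 := h.lam_ge V hl ha hu
  have := mul_pos V.d0 H.pos
  simpa only [Fintype.card_fin, mr] using h.red_cell t.b0 (V.le.trans hl.le) w0 hn m1 (a_pos ha)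
    (by linarith [V.d0]) (by linarith [(div_le_one V.d0).1 (h.s_le V hl ha).1]) (zero_add _).le
    (h.gen_run V hl ha H.one H.pos hn hu t hp T ((Fintype.card_fin k).trans_le hk) hw)
    (h.cla_ts V hl ha hn hu H hv) e (Nat.cast_nonneg _)

omit t hp T hc hw Λ1 δ0 in
/-- the geometry of the test sources -/
theorem geo_ts (hk : k ≤ c) (H : Tf f Λ δ) (hv : |a * v - a * (G.rt J j * u : ℕ) / 2| ≤ d)
    {W : Fin k → Finset St} (hW : W = fun i => sup (tsr Λ f (a / d) (Fi.cst (G.N J) fun _ => v) i)) :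
    G.Geo univ (fun _ => ()) c W J l j ∧
      (∀ n, l + G.K0 + 1 ≤ n → n ≤ J → G.L n ≤ G.L l ^ 2 →
        Cls (G.N n) (G.L l * (G.p n).D) univ id fun i => G.zs (W i) J n) ∧
      (∀ n ≤ l, ∀ i, (G.zs (W i) J n).card ≤ G.Q l ^ 50) ∧
      ∀ i, ((G.zs (W i) J j).card : ℝ) ≤ G.nz j := by
  have C := h.cla_ts V hl ha hn hu H hv
  have B : ∀ i, W i ⊆ _ := fun i => (congrFun hW i).trans_subset <|
    h.sup_ball V hl ha H.one (y := 0) fun x μ ν e l =>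
    ((C.1 i).2 x μ ν e l).imp (le_trans (by linarith [V.d0])) fun e => le_trans e (by linarith [V.d0])
  have S : Cls (G.N J) (G.ds J l) univ id W := fun _ _ _ _ e =>
    hW ▸ (sep_sp C.2 e).mono (Nat.cast_le.2 (Nat.le_add_right ..)) Subset.rfl Subset.rfl
  refine ⟨h.geo_of hl.le S (by simp [ds]) (fun _ _ _ _ e => (e rfl).elim) le_rfl
    (fun _ => (card_le_univ _).trans ((Fintype.card_fin k).trans_le hk)) V.big
    (fun _ => ⟨_, fun i _ _ => B i⟩) (h.vol_le V hl ha H.one le_rfl), fun n h1 h2 h3 =>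
    h.zs_cls S (Nat.cast_nonneg _) ?_ le_rfl h2, fun n e i => (Nat.cast_le.2 (h.zs_card (B i)
    (e.trans hl.le))).trans (h.vol_le V hl ha H.one e), fun i => Nat.cast_le.2
    ((h.zs_card (B i) (V.le.trans hl.le)).trans (h.nz_le V hl ha H.one H.pos))⟩
  have L := h.L_big l
  have a1 : G.L l ^ (G.K0 + 1) ≤ G.rt n l :=
    (Nat.pow_le_pow_right (by omega) (by omega)).trans (h.le_rt l (by omega))
  have a2 : (20 * G.L l + 6) * (G.L n ^ G.K0 * G.rt J n) ≤ G.ds J l := by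
    rw [ds, ← h.rt_mul (show l ≤ n by omega) h2]
    calc _ ≤ 66 * G.L l * ((G.L l ^ 2) ^ G.K0 * G.rt J n) := by gcongr; omega
      _ = 66 * (G.L l ^ G.K0 * (G.L l ^ (G.K0 + 1) * G.rt J n)) := by ring
      _ ≤ _ := by gcongr
  exact_mod_cast a2

end Ok

end Pool.Agent.Lib.MP_7f377f_mp.RG.Q4.En.Gl
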