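import Pool.Agent.Lib.MP_7f377f_mp.Q4EOne
import Pool.Agent.Lib.MP_7f377f_mp.Q4PosC
import Pool.Agent.Lib.MP_7f377f_mp.Q4FlatA
import Pool.Agent.Lib.MP_7f377f_mp.Q4Src

/-! Tangent flows: definitions. -/

noncomputable section

namespace Pool.Agent.Lib.MP_7f377f_mp.RG.Q4.En

open Finset Real

/-- the derivative of the representation at `b` in the direction `d` -/
def dR (S : Sd) (b d : Lx × Ac) (U : Conf) : ℂ :=
  deriv (fun t : ℂ => Rep S.p S.nf (S.Φ (b.1 + t • d.1)) (b.2 + t • d.2) U) 0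

/-- `b` represents `f` and the direction `d` represents the variation `f'` of `f` -/
def Rt (S : Sd) (b d : Lx × Ac) (f f' : Conf → ℂ) : Prop := ∃ κ κ' : ℂ, ∀ U, Per S.nf U →
  f U = κ * Rep S.p S.nf (S.Φ b.1) b.2 U ∧ f' U = κ * dR S b d U + κ' * f U

/-- the variation of the logarithm -/
def lg (f f' : Conf → ℂ) (U : Conf) : ℝ := (f' U / f U).re

/-- the variation of the measured coupling -/
def gm (n : ℕ) (x : ℝ) (f f' : Conf → ℂ) : ℝ :=
  (lg f f' (ab 0) - lg f f' (ab (fl n x))) / (n ^ 4 * tq n x ^ 2)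

/-- flux fields of the size which belongs to `x` -/
def Fw (n : ℕ) (x : ℝ) (ϑ : Lk → Angle) : Prop := ∃ F, As F ∧ ‖F‖ ≤ 2 * tq n x ∧ Fx n F ϑ

/-- approximate isotropy on flux fields -/
def Asy (n : ℕ) (x D : ℝ) (G : Conf → ℝ) : Prop := ∀ ϑ, Fw n x ϑ →
  (∀ σ, |G (ab (pm σ ϑ)) - G (ab ϑ)| ≤ D * tq n x ^ 2 * n ^ 4) ∧
    ∀ j, |G (ab (rfl1 Neg.neg j ϑ)) - G (ab ϑ)| ≤ D * tq n x ^ 2 * n ^ 4

/-- bounded holomorphic families of measurable functions of one parameter -/
def H1 (r : ℝ) (F : ℂ → Conf → ℂ) : Prop := HD (fun _ : Unit => r) fun s => F (s ())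

/-- the derivative of a family -/
def dF (F : ℂ → Conf → ℂ) (U : Conf) : ℂ := deriv (F · U) 0

/-- the small data of a state -/
def Z.d (z : Z) : Lx × Ac := (z.ψ, z.K)

/-- the marginal direction of a state -/
def Z.w (z : Z) : Lx × Ac := (fun _ B => cx z.m B B + z.T B, 0)

namespace Gl

variable (G : Gl)

/-- the extra facts about the steps -/
def Pu : Prop := ∀ k z, (G.sd k z).TOk → (G.sd k z).Pu

/-- the direction `d` at the base point `b` represents the variation `f'` of `f` at level `k` -/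
structure Tn (k : ℕ) (z : Z) (b : Lx × Ac) (f : Conf → ℂ) (x y ω : ℝ) (d : Lx × Ac)
    (f' : Conf → ℂ) : Prop where
  sz : G.Sz k x y ω d.1 d.2
  re : Re (G.p k) (G.N k) d.1 d.2
  rt : Rt (G.sl k z) b d f f'

/-- the direction `d` at level `i` carried down along the run from level `J` -/
def tc (b : ℝ) (J i : ℕ) (d : Lx × Ac) (k : ℕ) : Lx × Ac :=
  dw (fun k d => G.ts k (G.zz b J (k + 1)) (G.zz b J (k + 1)).d d) d i k

/-- the tangent of the run with respect to the bare coupling -/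
def tu (b : ℝ) (J k : ℕ) : Lx × Ac := G.tc b J J (Pos.sL 1, Pos.dS (G.p J) (G.N J) b 1) k

/-- the derivative of the densities with respect to the bare coupling -/
def df (b : ℝ) (J k : ℕ) : Conf → ℂ :=
  G.tt (fun U => -Pos.sO (G.N J) 1 U * (wil b (G.N J) U : ℝ)) J k

/-- the density of the state `z` at level `i`, moved in the marginal direction, at level `k` -/
def wf (i : ℕ) (z : Z) (k : ℕ) (t : ℂ) : Conf → ℂ :=
  G.tt (Rep (G.p i) (G.N i) ((G.sl i z).Φ (z.ψ + t • z.w.1)) z.K) i k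

/-- the size of the flux which measures the coupling with the best precision -/
def fx (k : ℕ) : ℝ := G.g k / G.Q k ^ 250

/-- levels below a long chain of steps with the same size of the blocks -/
def Go (J k : ℕ) : Prop := k + G.l k < J ∧ G.l (k + G.l k) = G.l k

variable {G} {b : ℝ} {J i k : ℕ}

theorem tc_top (d : Lx × Ac) : G.tc b J i d i = d := dw_top ..

theorem tc_step (d : Lx × Ac) (h : k < i) : G.tc b J i d k =
    G.ts k (G.zz b J (k + 1)) (G.zz b J (k + 1)).d (G.tc b J i d (k + 1)) := dw_step _ _ h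

end Gl

end Pool.Agent.Lib.MP_7f377f_mp.RG.Q4.En
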