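import Pool.Agent.Lib.MP_7f377f_mp.SmeE
import Pool.Agent.Lib.MP_7f377f_mp.InfB
import Pool.Agent.Lib.MP_7f377f_mp.OddT2

/-! The smeared weak coupling limit for all sides, and the short distance law from a comparison
with a weakly coupled lattice theory. -/

noncomputable section

namespace Pool.Agent.Lib.MP_7f377f_mp.YM5

open MeasureTheory Filter Topology Weak Real

variable [MeasurableSpace SU2] [BorelSpace SU2] (h : Measure SU2) [h.IsHaarMeasure]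
  [IsProbabilityMeasure h]

theorem lat_all : Lat h fun _ => True := by
  let _ := quatHS
  obtain ⟨κ, h1, h2⟩ := lattice_all rho h rho_cont 4 (by norm_num)
  refine ⟨κ, h1, fun m => ?_⟩
  obtain ⟨C₀, q, h3, h4, h5⟩ := h2 m
  refine ⟨C₀, q, h3, h4, fun s L _ r hs _ hr hL x a hx => ?_⟩
  have := h5 s L r hs hr hL x (fun i _ => a i) hx
  rwa [finrank_lie] at this

theorem smear (k : ℕ) :
    ∃ C : ℕ, ∀ f : Fin k → R4 → ℝ, (∀ i, Continuous (f i)) → (∀ i, HasCompactSupport (f i)) →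
      (Pairwise fun i j => Disjoint (tsupport (f i)) (tsupport (f j))) →
      ∀ η > 0, ∃ D₀ : ℝ, ∀ (n : ℕ) [NeZero n] (b d : ℝ),
      D₀ ≤ n * d → (n * d) ^ C ≤ b → 2 * b ≤ n →
      |b ^ k * corr h b n (fun i => zoom d (f i)) -
        (π ^ 2)⁻¹ ^ k * ∫ y : Fin k → R4, (∏ i, f i (y i)) * free y| ≤ η := by
  obtain ⟨C, hC⟩ := smear_of h (lat_all h) k
  refine ⟨C, fun f h1 h2 h3 η hη => ?_⟩
  obtain ⟨D₀, hD⟩ := hC f h1 h2 h3 η hη
  exact ⟨D₀, fun n _ b d => hD n b d trivial⟩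

theorem corr_zoom {k n : ℕ} [NeZero n] (f : Fin k → R4 → ℝ) (b : ℝ) {a d d' : ℝ}
    (e : n * d' = d / a) :
    corr h b n (fun i => zoom d' (f i)) = YM7.corr h b n a fun i y => f i (d⁻¹ • y) := by
  rw [YM7.corr5_eq, YM7.corr_eq]
  congr 1
  funext i x _ _
  rw [zoom_site, e]
  congr 1
  ext l
  simp only [PiLp.smul_apply, smul_eq_mul, lift, inv_div]
  ring

theorem af_core (K : ℕ) : ∃ C : ℕ, ∀ k ≤ K, ∀ f : Fin k → R4 → ℝ, (∀ i, Continuous (f i)) →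
    (∀ i, HasCompactSupport (f i)) →
    (Pairwise fun i j => Disjoint (tsupport (f i)) (tsupport (f j))) → ∀ η' > 0, ∃ η > 0, ∃ D₀ : ℝ,
    1 ≤ D₀ ∧ ∀ (n : ℕ) [NeZero n] (a b d γ s : ℝ), 0 < a → D₀ ≤ d / a → (d / a) ^ C ≤ b →
      2 * b ≤ n → |b / log a⁻¹ - 11 / (6 * π ^ 2)| ≤ η → |γ - 1| ≤ η →
      b ^ k * |s - γ * YM7.corr h b n a fun i y => f i (d⁻¹ • y)| ≤ η →
      |log d⁻¹ ^ k * s - (6 / 11) ^ k * ∫ y : Fin k → R4, (∏ i, f i (y i)) * free y| ≤ η' := by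
  choose C hC using smear h
  refine ⟨(Finset.range (K + 1)).sup C + 1, fun k hk f h1 h2 h3 η' hη' => ?_⟩
  have hk' : C k ≤ (Finset.range (K + 1)).sup C + 1 :=
    (Finset.le_sup (Finset.mem_range.2 (Nat.lt_succ_of_le hk))).trans (Nat.le_succ _)
  generalize hI : ∫ y : Fin k → R4, (∏ i, f i (y i)) * free y = I
  have c0 : (11 / (6 * π ^ 2) : ℝ) ≠ 0 := by positivity
  have hG : ContinuousAt (fun v : Fin 5 → ℝ => ((v 0)⁻¹ - v 1) ^ k * (v 2 * v 3 + v 4))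
      ![11 / (6 * π ^ 2), 0, 1, (π ^ 2)⁻¹ ^ k * I, 0] :=
    ((((continuous_apply 0).continuousAt.inv₀ c0).sub (continuous_apply 1).continuousAt).pow
      k).mul (by fun_prop)
  obtain ⟨ρ, ρ0, hρ⟩ := Metric.continuousAt_iff.1 hG η' hη'
  obtain ⟨D₀, hD⟩ := hC k f h1 h2 h3 _ (half_pos ρ0)
  obtain ⟨D₁, hD₁⟩ := eventually_atTop.1
    ((isLittleO_log_id_atTop.tendsto_div_nhds_zero.eventually_lt_const (half_pos ρ0)).and
      ((eventually_ge_atTop D₀).and (eventually_ge_atTop 1)))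
  refine ⟨ρ / 2, half_pos ρ0, D₁, (hD₁ D₁ le_rfl).2.2,
    fun n _ a b d γ s a0 hd hb hn hq hγ hs => ?_⟩
  obtain ⟨-, u1, u2⟩ := hD₁ _ hd
  have n0 : (n : ℝ) ≠ 0 := NeZero.ne _
  have e : n * (d / a / n) = d / a := mul_div_cancel₀ _ n0
  have Db : d / a ≤ b := (le_self_pow₀ u2 (Nat.succ_ne_zero _)).trans hb
  have b0 : 0 < b := by linarith
  have d0 : 0 < d := (div_pos_iff_of_pos_right a0).1 (by linarith)
  have hv := hD n b (d / a / n) (by rwa [e]) (by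
    rw [e]; exact (pow_le_pow_right₀ u2 hk').trans hb) hn
  rw [corr_zoom h f b e, hI] at hv
  generalize YM7.corr h b n a (fun i y => f i (d⁻¹ • y)) = c at hv hs
  have hl : |log (d / a) / b| ≤ ρ / 2 := by
    rw [abs_of_nonneg (div_nonneg (log_nonneg u2) b0.le)]
    exact (div_le_div_of_nonneg_right (log_le_log (by linarith) Db) b0.le).trans
      (hD₁ b (hd.trans Db)).1.le
  have := hρ (x := ![b / log a⁻¹, log (d / a) / b, γ, b ^ k * c, b ^ k * (s - γ * c)])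
    ((dist_pi_lt_iff ρ0).2 fun i => lt_of_le_of_lt (by
      fin_cases i
      · exact hq
      · exact (dist_zero_right _).trans_le hl
      · exact hγ
      · exact hv
      · rw [← abs_of_pos (pow_pos b0 k), ← abs_mul] at hs
        exact (dist_zero_right _).trans_le hs) (half_lt_self ρ0))
  refine le_of_eq_of_le (congrArg abs ?_) this.le
  simp only [Matrix.cons_val]
  have e1 : (b / log a⁻¹)⁻¹ - log (d / a) / b = log d⁻¹ / b := by
    rw [inv_div, ← sub_div, log_div d0.ne' a0.ne', log_inv, log_inv]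
    ring
  have e2 : ((11 / (6 * π ^ 2))⁻¹ - 0) * (π ^ 2)⁻¹ = 6 / 11 := by
    rw [sub_zero]
    field_simp
  have e3 : b ^ k ≠ 0 := (pow_pos b0 k).ne'
  rw [e1, ← e2, mul_pow, div_pow]
  congr 1
  · field_simp
    ring
  · ring

end Pool.Agent.Lib.MP_7f377f_mp.YM5

namespace Pool.Agent.Lib.MP_7f377f_mp.YM7

open MeasureTheory Filter Topology Real

variable [MeasurableSpace SU2] [BorelSpace SU2] (h : Measure SU2) [h.IsHaarMeasure]
  [IsProbabilityMeasure h]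

/-- comparison with a weakly coupled lattice theory -/
def Cmp {ι : Type} (Φ : Filter ι) (n : ι → ℕ) [∀ p, NeZero (n p)] (a b : ι → ℝ) (K C : ℕ) : Prop :=
  ∀ k ≤ K, ∀ f : Fin k → R4 → ℝ, Adm f → ∀ η > 0, ∀ D₀ : ℝ, ∀ᶠ d in 𝓝[>] (0 : ℝ),
    ∃ (n₀ : ℕ) (_ : NeZero n₀) (a₀ b₀ γ : ℝ), 0 < a₀ ∧ D₀ ≤ d / a₀ ∧ (d / a₀) ^ C ≤ b₀ ∧
      2 * b₀ ≤ n₀ ∧ |b₀ / log a₀⁻¹ - 11 / (6 * π ^ 2)| ≤ η ∧ |γ - 1| ≤ η ∧ ∀ᶠ p in Φ,
      b₀ ^ k * |corr h (b p) (n p) (a p) (fun i y => f i (d⁻¹ • y)) -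
        γ * corr h b₀ n₀ a₀ fun i y => f i (d⁻¹ • y)| ≤ η

theorem short_of (K : ℕ) : ∃ C : ℕ, ∀ {ι : Type} (Φ : Filter ι) (n : ι → ℕ) [∀ p, NeZero (n p)]
    (a b : ι → ℝ), Cmp h Φ n a b K C → Short h Φ n a b K := by
  obtain ⟨C, hC⟩ := YM5.af_core h K
  refine ⟨C, fun Φ n _ a b H k hk f hf η' hη' => ?_⟩
  obtain ⟨η, η0, D₀, -, hD⟩ := hC k hk f (fun i => (hf.1 i).2.continuous) (fun i => (hf.1 i).1)
    hf.2 η' hη'
  filter_upwards [H k hk f hf η η0 D₀] with d ⟨n₀, _, a₀, b₀, γ, h1, h2, h3, h4, h5, h6, h7⟩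
  exact h7.mono fun p => hD n₀ a₀ b₀ d γ _ h1 h2 h3 h4 h5 h6

end Pool.Agent.Lib.MP_7f377f_mp.YM7
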