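import Pool.Agent.Lib.MP_7f377f_mp.Q5Poly
import Pool.Agent.Lib.MP_7f377f_mp.Q5Cm2
import Pool.Agent.Lib.MP_7f377f_mp.Q4Zin
import Pool.Agent.Lib.MP_7f377f_mp.SoftA
import Pool.Agent.Lib.MP_7f377f_mp.InfF

/-! The output of the renormalisation group. -/

noncomputable section

namespace Pool.Agent.Lib.MP_7f377f_mp.RG.Q4.En

open Real YM7 Filter Topology MeasureTheory

theorem exists_oks : ∃ G : Gl, G.Oks ∧ G.HT := by
  obtain ⟨c, h1⟩ := tree_lin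
  obtain ⟨G, -, -, -, a3, a4⟩ := exists_gl2 h1 (Af.af_all h1) _ (inter_mem (ev_pu c) (ev_HT c)) 0 0
  exact ⟨G, fun m => have o := a4 _ (odd_two_mul_add_one m); ⟨o, fun k z t => (a3 _
    ((Gl.Ok.sd_all o k z).nu.ok) rfl rfl rfl rfl rfl (o.sch.big k) t).1⟩,
    fun S o e0 e1 e2 e3 e4 e5 t => (a3 S o e0 e1 e2 e3 e4 e5 t).2⟩

variable [m : MeasurableSpace SU2] [BorelSpace SU2] (h : Measure SU2) [h.IsHaarMeasure]
  [IsProbabilityMeasure h]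

theorem out_one : ∃ (G : Gl) (b : ℕ → ℝ), G.Oks ∧ G.HT ∧ (G.Tus fun p => b p.2) ∧ ∀ Φ : Filter ℕ,
    Poly2 h (Φ ×ˢ atTop) G.nn G.aa (fun p => b p.2) (fun p => 4 * ta p) ∧
      ∀ K, Short h (Φ ×ˢ atTop) G.nn G.aa (fun p => b p.2) K := by
  choose C hC using short_of2 h
  obtain rfl : m = Fi.mS := BorelSpace.measurable_eq
  have : (Fi.tr haar).IsHaarMeasure := (inferInstance : haar.IsHaarMeasure)
  obtain rfl := Measure.isHaarMeasure_eq_of_isProbabilityMeasure h (Fi.tr haar)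
  obtain ⟨G, o, ht⟩ := exists_oks
  obtain ⟨β, hβ⟩ := o.tus1
  exact ⟨G, β, o, ht, hβ, fun Φ => ⟨o.poly2 hβ (fun p _ e => ((o _).1.tan_main (o _).2 (hβ p) e).1.sz) Φ,
    fun K k hk f hf η hη => (hC K _ _ _ _ (cmp2_main G _ o hβ K _) k hk f hf η hη).mono fun _ =>
      Eventually.filter_mono (prod_mono_left _ le_top)⟩⟩

theorem out_all : ∃ (G : Gl) (β : ℕ × ℕ → ℝ), G.Oks ∧ G.HT ∧ G.Tus β ∧ ∀ Φ : Filter ℕ,
    Poly2 h (Φ ×ˢ atTop) G.nn G.aa β (fun p => 4 * ta p) ∧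
      ∀ K, Short h (Φ ×ˢ atTop) G.nn G.aa β K :=
  let ⟨G, _, e⟩ := out_one h
  ⟨G, _, e⟩

/-- infinite volume -/
theorem out_of : ∃ (G : Gl) (β : ℕ × ℕ → ℝ),
    YM7.Fam (atTop ×ˢ atTop) G.nn G.aa β ta ∧ Cell h (atTop ×ˢ atTop) G.nn G.aa β ta ∧
      ∀ K, Short h (atTop ×ˢ atTop) G.nn G.aa β K :=
  let ⟨G, β, o, _, hβ, e⟩ := out_all h
  ⟨G, β, o.fam hβ, cell_of_poly2 (o.fam hβ) (e _).1, (e _).2⟩

/-- fixed volume -/
theorem out_fix {s : ℕ} (hs : Odd s) : ∃ (Φ : Filter (ℕ × ℕ)) (_ : Φ.NeBot) (n : ℕ × ℕ → ℕ)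
    (_ : ∀ p, NeZero (n p)) (a b τ : ℕ × ℕ → ℝ) (C : ℝ), Φ.IsCountablyGenerated ∧
    Tendsto a Φ (𝓝[>] 0) ∧ Tendsto (fun p => τ p / a p) Φ atTop ∧
    Tendsto (fun p => b p / log (a p)⁻¹) Φ (𝓝 (11 / (6 * π ^ 2))) ∧
    (∀ᶠ p in Φ, a p * n p = s ∧ Odd (n p) ∧ 0 ≤ b p ∧
      (∫ U : Cfg (n p), exp (-b p * ∑ x, dens U x) ∂Measure.pi fun _ => h) ^ 81 ≤
        C * ∫ U : Cfg (3 * n p), exp (-b p * ∑ x, dens U x) ∂Measure.pi fun _ => h) ∧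
    Poly2 h Φ n a b τ ∧ ∀ K, Short h Φ n a b K := by
  obtain ⟨G, β, o, ht, hβ, e⟩ := out_all h
  obtain ⟨s, rfl⟩ := hs
  obtain ⟨a1, a2, a3⟩ := o.lims hβ (pure s)
  obtain ⟨C, -, hC⟩ := zin h (G.wm s) (o s).1 ht
  refine ⟨pure s ×ˢ atTop, inferInstance, G.nn, inferInstance, G.aa, β, _, C, inferInstance, a1,
    (a3.const_mul_atTop four_pos).congr fun p => (mul_div_assoc ..).symm, a2,
    (tendsto_fst.eventually (eventually_pure.2 (rfl : (· = s) s))).mono fun p hp => ?_, e _⟩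
  subst hp
  exact ⟨by rw [G.aa_nn]; push_cast; rfl, (o _).1.N_odd _, (hβ p).b0, hC _ _ (hβ p) _ rfl⟩

/-- the same couplings in all volumes -/
theorem out_same : ∃ (l : ℕ → ℕ) (n : ℕ → ℕ → ℕ) (_ : ∀ s J, NeZero (n s J)) (a b τ : ℕ → ℝ),
    (∀ J, a J = (l J : ℝ)⁻¹) ∧ Tendsto a atTop (𝓝[>] 0) ∧ Tendsto (fun J => τ J / a J) atTop atTop ∧
    Tendsto (fun J => b J / log (a J)⁻¹) atTop (𝓝 (11 / (6 * π ^ 2))) ∧ ∀ s, Odd s → ∃ C : ℝ,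
    (∀ J, n s J = s * l J ∧ a J * n s J = s ∧ Odd (n s J) ∧ 0 ≤ b J ∧
      (∫ U : Cfg (n s J), exp (-b J * ∑ x, dens U x) ∂Measure.pi fun _ => h) ^ 81 ≤
        C * ∫ U : Cfg (3 * n s J), exp (-b J * ∑ x, dens U x) ∂Measure.pi fun _ => h) ∧
    Poly2 h atTop (n s) a b τ ∧ ∀ K, Short h atTop (n s) a b K := by
  obtain ⟨G, b, o, ht, hβ, e⟩ := out_one h
  obtain ⟨a1, a2, a3⟩ := o.lims hβ (pure 0)
  rw [pure_prod, tendsto_map'_iff] at a1 a2 a3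
  refine ⟨fun J => 3 ^ G.e J, fun s J => G.nn (s / 2, J), inferInstance, fun J => G.aa (0, J), b,
    fun J => 4 * ta (0, J), fun J => by rw [Nat.cast_pow]; rfl, a1,
    (a3.const_mul_atTop four_pos).congr fun p => (mul_div_assoc ..).symm, a2, fun s hs => ?_⟩
  obtain ⟨C, -, hC⟩ := zin h (G.wm (s / 2)) (o _).1 ht
  have := e (pure (s / 2))
  rw [pure_prod] at this
  have q := Nat.two_mul_div_two_add_one_of_odd hs
  exact ⟨C, fun J => ⟨congrArg (· * _) q, (G.aa_nn (s / 2, J)).trans (by exact_mod_cast q),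
    (o _).1.N_odd _, (hβ (0, J)).b0, hC _ _ (hβ (s / 2, J)) _ rfl⟩, this⟩

end Pool.Agent.Lib.MP_7f377f_mp.RG.Q4.En
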