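import Pool.Agent.Lib.MP_7f377f_mp.CuZ
import Pool.Agent.Lib.MP_7f377f_mp.Q5Out

open MeasureTheory Filter Topology Real Pool.Agent.Lib.MP_7f377f_mp.YM9

theorem Pool.Agent.Lib.MP_7f377f_mp.oldCylinder4 [MeasurableSpace SU2] [BorelSpace SU2]
    (h : Measure SU2) [h.IsHaarMeasure] [IsProbabilityMeasure h] :
    ∃ (N : ℕ → ℕ) (b : ℕ → ℝ), Tendsto N atTop atTop ∧
      Tendsto (fun j => b j / log (N j)) atTop (𝓝 (11 / (6 * π ^ 2))) ∧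
      (∀ y : Fin 2 → R4, y 0 ≠ y 1 → free y = 9 / ‖y 0 - y 1‖ ^ 8) ∧ ∀ m : ℕ, Odd m →
    ∃ (μ : ℕ → Measure (Link → SU2)) (S : ∀ {k : ℕ}, (Fin k → R4 → ℝ) → ℝ) (r : ℕ) (κ : Fin r → ℕ)
      (B : ∀ a, Fin (κ a) → R4 → ℝ) (c : Fin r → ℂ) (W : ∀ {k : ℕ}, (Fin k → R4 → ℝ) → ℂ),
      (∀ j, IsProbabilityMeasure (μ j) ∧ ∀ F : C(Link → SU2, ℝ), Tendsto (fun T => ∫ U, F U
        ∂wilson h (b j) ![T, m * N j, m * N j, m * N j]) atTop (𝓝 (∫ U, F U ∂μ j))) ∧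
      (∀ a, Adm m (B a)) ∧
      (∀ k (f : Fin k → R4 → ℝ), Adm m f →
        Tendsto (fun j => corr (μ j) (N j : ℝ)⁻¹ f) atTop (𝓝 (S f)) ∧
        Tendsto (fun t => ∑ a, ∑ b, star (c a) * c b * S (sand t (B a) f (B b))) atTop (𝓝 (W f)) ∧
        (∀ v, W (fun i y => f i (y + v)) = W f) ∧ W (fun i => theta (f i)) = star (W f)) ∧
      (∀ k R, ∀ δ > 0, ∃ C : ℝ, ∀ (f : Fin k → R4 → ℝ) (L : Fin k → NNReal), Adm m f →
        (∀ i, LipschitzWith (L i) (f i) ∧ ∀ y, f i y ≠ 0 → ‖y‖ ≤ R) →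
        (∀ i j, i ≠ j → ∀ x y, f i x ≠ 0 → f j y ≠ 0 → ∀ z : Fin 4 → ℤ, z 0 = 0 →
          δ ≤ dist x (y + pt m z)) → ‖W f‖ ≤ C * ∏ i, L i) ∧
      (∀ k (f : Fin k → R4 → ℝ), Adm 0 f →
        Tendsto (fun d : ℝ => (log d⁻¹ ^ k : ℝ) * W fun i y => f i (d⁻¹ • y)) (𝓝[>] 0)
          (𝓝 ((6 / 11) ^ k * ∫ y : Fin k → R4, (∏ i, f i (y i)) * free y : ℝ))) ∧
      ∃ (H : Type) (_ : NormedAddCommGroup H) (_ : InnerProductSpace ℂ H) (_ : CompleteSpace H),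
        Massive H m W := by
  obtain ⟨G, β, o, ht, hβ, e⟩ := Pool.Agent.Lib.MP_7f377f_mp.RG.Q4.En.out_one h
  have l := fun s => o.lims hβ (pure s)
  simp only [pure_prod, tendsto_map'_iff] at l e
  obtain ⟨p, hp, H⟩ := cylinders (h := h) (Φ := atTop) (M := fun s => 2 * s + 1)
    (n := fun s J => G.nn (s, J)) (a := fun J => G.aa (0, J)) (b := β)
    (τ := fun J => 4 * Pool.Agent.Lib.MP_7f377f_mp.RG.Q4.En.ta (0, J)) ⟨(l 0).1,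
      ((l 0).2.2.const_mul_atTop four_pos).congr fun p => (mul_div_assoc ..).symm⟩ fun s => by
    obtain ⟨C, -, hC⟩ := Pool.Agent.Lib.MP_7f377f_mp.RG.Q4.En.zin h (G.wm s) (o s).1 ht
    have e1 := e (pure s)
    rw [pure_prod] at e1
    exact ⟨Nat.succ_pos _, C, .of_forall fun J => ⟨(G.aa_nn (s, J)).trans (by push_cast; rfl),
      (o _).1.N_odd _, (hβ (s, J)).b0, hC _ _ (hβ (s, J)) _ rfl⟩, e1.1, e1.2⟩
  have a : ∀ J, ((3 ^ G.e J : ℕ) : ℝ) = (G.aa (0, J))⁻¹ := fun J => by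
    rw [Nat.cast_pow, Nat.cast_ofNat]
    exact (inv_inv _).symm
  refine ⟨fun j => 3 ^ G.e (p j), fun j => β (p j), (tendsto_natCast_atTop_iff (R := ℝ)).1 ?_, ?_,
    Pool.Agent.Lib.MP_7f377f_mp.YM5.free_two, ?_⟩
  · simp only [a]
    exact tendsto_inv_nhdsGT_zero.comp ((l 0).1.comp hp)
  · simp only [a]
    exact (l 0).2.1.comp hp
  · rintro _ ⟨s, rfl⟩
    simp only [a, inv_inv]
    exact H s
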