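import Pool.Agent.Lib.MP_7f377f_mp.G.S21Main

open MeasureTheory Filter Topology Real MvPolynomial Pool.Agent.Lib.MP_7f377f_mp.YF
open scoped ContDiff

attribute [local instance 100] LieRing.ofAssociativeRing

theorem Pool.Agent.Lib.MP_7f377f_mp.oldExistenceG (G : Type) [Group G] [TopologicalSpace G]
    [IsTopologicalGroup G] [CompactSpace G] [MeasurableSpace G] [BorelSpace G]
    (h : Measure G) [h.IsHaarMeasure] [IsProbabilityMeasure h] {N : ℕ}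
    (ρ : G →* Matrix.unitaryGroup (Fin N) ℂ) (hρ : Continuous ρ) (hi : Function.Injective ρ)
    (L : LieSubalgebra ℝ (Matrix (Fin N) (Fin N) ℂ)) [LieAlgebra.IsSimple ℝ L]
    (hL : ∀ X, X ∈ L ↔ ∀ s : ℝ, ∃ g, (ρ g).1 = NormedSpace.exp (s • X)) :
    ∃ c > (0 : ℝ), (∀ X Y : L, killingForm ℝ L X Y = c * (X.1 * Y.1).trace.re) ∧
    ∃ (n : ℕ → ℕ+) (a b : ℕ → ℝ) (S W : Fp → ℂ) (r : ℕ → ℕ) (B : ∀ j, Fin (r j) → Fp),
      Tendsto a atTop (𝓝[>] 0) ∧ Tendsto (fun j => a j * n j) atTop atTop ∧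
      Tendsto (fun j => b j / log (a j)⁻¹) atTop (𝓝 (11 * c / (24 * π ^ 2))) ∧
      (∀ (j : ℕ) i, B j i ∈ Loc {y | j < y 0}) ∧
      (∀ Z ∈ Loc Set.univ, Tendsto (fun j => vev ρ h (b j) (n j) (a j) Z) atTop (𝓝 (S Z)) ∧
        Tendsto (fun j => S (ins (B j) Z)) atTop (𝓝 (W Z)) ∧ ∀ᶠ j in atTop, ins (B j) Z ∈ Loc Set.univ) ∧
      Wightman W ∧
      (∃ M, AFM (24 / (11 * c)) (Module.finrank ℝ L) W M ∧ StressM (24 / (11 * c)) W M ∧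
        Dim M Alt 1 ∧ Dim M Weyl (-7 / 11)) ∧
      ∃ (f : Fin 4 → R4 → ℝ) (Y : Fin 4 → Fp), Adm f ∧
        (∀ i j, i < j → ∀ x ∈ tsupport (f i), ∀ y ∈ tsupport (f j), x 0 < y 0) ∧
        (∀ i, Y i = phi (f i) - C (W (phi (f i)))) ∧ W (Y 0 * Y 1 * Y 2 * Y 3) ≠
          W (Y 0 * Y 1) * W (Y 2 * Y 3) + W (Y 0 * Y 2) * W (Y 1 * Y 3) +
            W (Y 0 * Y 3) * W (Y 1 * Y 2) :=
  mainFR G h ρ hρ hi L hL
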