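import Pool.Agent.Lib.MP_7f377f_mp.HEnd

open MeasureTheory ProbabilityTheory Filter Topology Pool.Agent.Lib.MP_7f377f_mp.Y6

theorem Pool.Agent.Lib.MP_7f377f_mp.Y6.mass_gap3 [MeasurableSpace SU2] [BorelSpace SU2]
    (h : Measure SU2) [h.IsHaarMeasure] [IsProbabilityMeasure h] (γ : ℝ) (hγ : 0 < γ) :
    ∃ Δ > (0 : ℝ), ∃ N₀ : ℕ, ∀ N ≥ N₀, ∀ n : ℕ, n = 2 * 3 ^ N →
      ∃ μ : Measure (Link → SU2), IsProbabilityMeasure μ ∧
        (∀ F : C(Link → SU2, ℝ), Tendsto (fun T : ℕ => ∫ U, F U ∂wilson h (γ * n) ![T, n, n]) atTop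
          (𝓝 (∫ U, F U ∂μ))) ∧
        ∀ (s : ℤ) (t : ℕ) (F G : C(Link → SU2, ℝ)),
          DependsOn F {e | (e.1 + Pi.single e.2 1 : Fin 3 → ℤ) 0 ≤ s} →
          DependsOn G {e | s + t ≤ e.1 0} →
          |covariance F G μ| ≤
            Real.exp (-(Δ * t / n)) * √(variance F μ) * √(variance G μ) := by
  obtain ⟨Δ, hΔ, N₀, H⟩ := lattice_of mix_main h γ hγ
  refine ⟨Δ, hΔ, N₀, fun N hN n hn => ?_⟩
  subst hn
  push_cast
  exact H N hN
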