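import Pool.Agent.Lib.MP_7f377f_mp.Q5Vac

open MeasureTheory Filter Topology Real Pool.Agent.Lib.MP_7f377f_mp.YM7

theorem Pool.Agent.Lib.MP_7f377f_mp.oldQuantum4R [MeasurableSpace SU2] [BorelSpace SU2]
    (h : Measure SU2) [h.IsHaarMeasure] [IsProbabilityMeasure h] :
    ∃ (n : ℕ → ℕ+) (a b : ℕ → ℝ) (S W : Fp → ℂ) (r : ℕ → ℕ) (B : ∀ j, Fin (r j) → Fp),
      Tendsto a atTop (𝓝[>] 0) ∧ Tendsto (fun j => a j * n j) atTop atTop ∧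
      Tendsto (fun j => b j / log (a j)⁻¹) atTop (𝓝 (11 / (6 * π ^ 2))) ∧
      (∀ (j : ℕ) i, B j i ∈ Loc (Fut 0 j)) ∧
      (∀ Z ∈ Loc Set.univ, Tendsto (fun j => vev h (b j) (n j) (a j) Z) atTop (𝓝 (S Z)) ∧
        Tendsto (fun j => S (ins (B j) Z)) atTop (𝓝 (W Z)) ∧ (∀ᶠ j in atTop, ins (B j) Z ∈ Loc Set.univ) ∧
        (∀ v, W (move v Z) = W Z) ∧ ∀ μ, W (bar μ Z) = starRingEnd ℂ (W Z)) ∧
      (∀ μ, ∀ Z ∈ Loc (Fut μ 0), 0 ≤ (W (osp μ Z Z)).re) ∧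
      (∀ k R, ∀ δ > 0, ∃ C : ℝ, ∀ (f : Fin k → R4 → ℝ) (L : Fin k → NNReal), Adm f →
        (∀ i, LipschitzWith (L i) (f i) ∧ ∀ y, f i y ≠ 0 → ‖y‖ ≤ R) →
        (∀ i j, i ≠ j → ∀ x y, f i x ≠ 0 → f j y ≠ 0 → δ ≤ dist x y) →
        ‖W (fld f)‖ ≤ C * ∏ i, L i) ∧
      (∀ k (f : Fin k → R4 → ℝ), Adm f →
        Tendsto (fun d : ℝ => (log d⁻¹ : ℂ) ^ k * W (fld fun i y => f i (d⁻¹ • y))) (𝓝[>] 0)
          (𝓝 ((6 / 11) ^ k * ∫ y : Fin k → R4, (∏ i, f i (y i)) * free y : ℝ))) ∧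
      (∀ y : Fin 2 → R4, y 0 ≠ y 1 → free y = 9 / ‖y 0 - y 1‖ ^ 8) ∧
      ∃ (H : Type) (_ : NormedAddCommGroup H) (_ : InnerProductSpace ℂ H) (_ : CompleteSpace H),
        Quantum H W := by
  obtain ⟨_, _, h1, h2, h3⟩ := Pool.Agent.Lib.MP_7f377f_mp.RG.Q4.En.out_arr h
  exact Pool.Agent.Lib.MP_7f377f_mp.Pur.vacuum_of h1 h2 h3

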