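import Pool.Agent.Lib.MP_7f377f_mp.Q6Rot
import Pool.Agent.Lib.MP_7f377f_mp.LgE1

open MeasureTheory Filter Topology Real MvPolynomial Pool.Agent.Lib.MP_7f377f_mp.YM7
open scoped ContDiff

theorem Pool.Agent.Lib.MP_7f377f_mp.oldSchwinger4 [MeasurableSpace SU2] [BorelSpace SU2]
    (h : Measure SU2) [h.IsHaarMeasure] [IsProbabilityMeasure h] :
    ∃ (n : ℕ → ℕ+) (a b : ℕ → ℝ) (S W : Fp → ℂ) (r : ℕ → ℕ) (B : ∀ j, Fin (r j) → Fp),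
      Tendsto a atTop (𝓝[>] 0) ∧ Tendsto (fun j => a j * n j) atTop atTop ∧
      Tendsto (fun j => b j / log (a j)⁻¹) atTop (𝓝 (11 / (6 * π ^ 2))) ∧
      (∀ (j : ℕ) i, B j i ∈ Loc (Fut 0 j)) ∧
      (∀ Z ∈ Loc Set.univ, Tendsto (fun j => vev h (b j) (n j) (a j) Z) atTop (𝓝 (S Z)) ∧
        Tendsto (fun j => S (ins (B j) Z)) atTop (𝓝 (W Z)) ∧ ∀ᶠ j in atTop, ins (B j) Z ∈ Loc Set.univ) ∧
      Schwinger (fun y : R4 => y 0) (fun y => WithLp.toLp 2 (Function.update y 0 (-y 0)))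
        {g | ∃ A ∈ Matrix.specialOrthogonalGroup (Fin 4) ℝ, ∃ v : R4,
          ∀ y i, g y i = ∑ j, A i j * y j + v i} {v | 0 ≤ v 0 ∧ v ≠ 0} (fun _ => Adm)
        (fun _ f => W (fld f)) ∧
      (∀ k (f : Fin k → R4 → ℝ), Adm f →
        Tendsto (fun d : ℝ => (log d⁻¹ : ℂ) ^ k * W (fld fun i y => f i (d⁻¹ • y))) (𝓝[>] 0)
          (𝓝 ((6 / 11) ^ k * ∫ y : Fin k → R4, (∏ i, f i (y i)) * free y : ℝ))) ∧
      (∀ y : Fin 2 → R4, y 0 ≠ y 1 → free y = 9 / ‖y 0 - y 1‖ ^ 8) ∧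
      ∃ (f : Fin 4 → R4 → ℝ) (Y : Fin 4 → Fp), Adm f ∧ (∀ i, ContDiff ℝ ∞ (f i)) ∧
        (∀ i, Y i = X (f i) - C (W (X (f i)))) ∧ W (Y 0 * Y 1 * Y 2 * Y 3) ≠
          W (Y 0 * Y 1) * W (Y 2 * Y 3) + W (Y 0 * Y 2) * W (Y 1 * Y 3) +
            W (Y 0 * Y 3) * W (Y 1 * Y 2) := by
  obtain ⟨n, a, b, S, e1, e2, e3, e4, hS, rot, -⟩ :=
    Pool.Agent.Lib.MP_7f377f_mp.RG.Q4.En.out_rot h
  obtain ⟨W, w1, hD, hV, hR⟩ := hS.pure_rot rot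
  have hW := hS.dom hD w1
  obtain ⟨r, B, b1, b2⟩ := hS.ins w1 hD
  exact ⟨n, a, b, S, W, r, B, e1, e2, e3, b1, fun Z hZ => ⟨e4 Z hZ, b2 Z hZ⟩,
    hW.schwinger_rot hV hR, hW.af,
    Pool.Agent.Lib.MP_7f377f_mp.YM5.free_two,
    Pool.Agent.Lib.MP_7f377f_mp.Lg.non_gauss w1 (by norm_num) hW.af⟩
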