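import Pool.Agent.Lib.MP_7f377f_mp.G.YPMain

open MeasureTheory Filter Topology Real Pool.Agent.Lib.MP_7f377f_mp.YP

theorem Pool.Agent.Lib.MP_7f377f_mp.OldTwistedPlane.main (N : ℕ) (hN : 2 ≤ N)
    [MeasurableSpace (SU N)] [BorelSpace (SU N)] (h : Measure (SU N)) [h.IsHaarMeasure]
    [IsProbabilityMeasure h] (ω : ℂ) (hω : IsPrimitiveRoot ω N) (z : SU N) (hz : z.1 = ω • 1) :
    (∀ y : Fin 2 → R4, y 0 ≠ y 1 → free (N ^ 2 - 1) y = 3 * (N ^ 2 - 1) / ‖y 0 - y 1‖ ^ 8) ∧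
    ∃ (e : ℕ → ℕ) (b : ℕ → ℝ) (s₀ : ℕ), Tendsto e atTop atTop ∧
      Tendsto (fun j => b j / log (3 ^ e j)) atTop (𝓝 (11 * N / (12 * π ^ 2))) ∧
    ∀ s ≥ s₀, ∃ Δ > (0 : ℝ), ∃ (μ : ℕ → Measure (Link → SU N)),
      (∀ᶠ j in atTop, ∃ ν : ℕ → Measure (Link → SU N), (∀ R > 0,
        Lim (fun T => wilson (wil N) h (b j) z ![T, R, 3 ^ (e j - s), 3 ^ (e j - s)]) (ν R)) ∧
        Lim ν (μ j)) ∧
    ∃ S : ∀ {k : ℕ}, (Fin k → R4 → ℝ) → ℝ,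
      (∀ k (f : Fin k → R4 → ℝ), Adm (3 ^ s)⁻¹ f →
        Tendsto (fun j => corr (wil N) (μ j) (3 ^ e j)⁻¹ f) atTop (𝓝 (S f)) ∧
        (∀ v, S (fun i y => f i (y + v)) = S f) ∧
        S (fun i => theta (f i)) = S f ∧ S (fun i => swap (f i)) = S f) ∧
      (∀ k R, ∀ δ > 0, ∃ C : ℝ, ∀ (f : Fin k → R4 → ℝ) (L : Fin k → NNReal), Adm (3 ^ s)⁻¹ f →
        (∀ i, LipschitzWith (L i) (f i) ∧ ∀ y, f i y ≠ 0 → ‖y‖ ≤ R) →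
        (∀ i j, i ≠ j → ∀ x y, f i x ≠ 0 → f j y ≠ 0 → ∀ v ∈ Per (3 ^ s)⁻¹, δ ≤ dist x (y + v)) →
        |S f| ≤ C * ∏ i, L i) ∧
      (∀ k (f : Fin k → R4 → ℝ), Adm 0 f →
        Tendsto (fun t : ℝ => log t⁻¹ ^ k * S fun i y => f i (t⁻¹ • y)) (𝓝[>] 0)
          (𝓝 ((12 / (11 * N)) ^ k * ∫ y : Fin k → R4, (∏ i, f i (y i)) * free (N ^ 2 - 1) y))) ∧
      ∃ (H : Type) (_ : NormedAddCommGroup H) (_ : InnerProductSpace ℂ H) (_ : CompleteSpace H),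
        Massive H (3 ^ s)⁻¹ Δ S :=
  YP.main hN h hω z hz
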