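import Pool.Agent.Lib.MP_7f377f_mp.WmTool

/-! Stage 14: complex translations from the spectrum condition. -/

noncomputable section

namespace Pool.Agent.Lib.MP_7f377f_mp.Wm

open MeasureTheory Filter Topology Set Complex YM7 ComplexConjugate

namespace A4

variable {X Y : Type} [NormedAddCommGroup X] [NormedSpace ℂ X] [NormedAddCommGroup Y]
  [NormedSpace ℂ Y] {H K : Type} [NormedAddCommGroup H] [InnerProductSpace ℂ H]
  [NormedAddCommGroup K] [InnerProductSpace ℂ K] {F G : C4 → X}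

/-- bounded holomorphic functions on the tube -/
structure BH (F : C4 → X) : Prop where
  hol : DifferentiableOn ℂ F TO
  cont : ContinuousOn F (TV 0)
  bd : ∃ M, ∀ z ∈ TV 0, ‖F z‖ ≤ M

theorem sub_closure : TV 0 ⊆ closure TO := fun z hz => by
  have t : Tendsto (fun t : ℝ => ie t + z) (𝓝[>] 0) (𝓝 z) :=
    tendsto_nhdsWithin_of_tendsto_nhds (Continuous.tendsto' (by unfold ie; fun_prop) _ _
      (by simp [ie]))
  exact mem_closure_of_tendsto t (eventually_mem_nhdsWithin.mono fun t ht =>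
    TO.add (TV.to ht (ie_mem t)) hz)

theorem imv_line (x y : R4) (s : ℂ) : imv (rl x + s • rl y) = s.im • y := by
  ext
  simp [rl]

theorem BH.zero [CompleteSpace X] (h : BH F) (h0 : ∀ a, F (rl a) = 0) : EqOn F 0 (TV 0) := by
  refine EqOn.of_subset_closure (fun z hz => ?_) h.cont continuousOn_const TO.tv sub_closure
  obtain ⟨x, hx⟩ := exists_cx z
  obtain ⟨M, hM⟩ := h.bd
  have m : ∀ s : ℂ, 0 ≤ s.im → rl x + s • rl (imv z) ∈ TV 0 := fun s hs => by
    rw [TV, mem_ofPred_eq, imv_line, mg_smul hs]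
    exact mul_nonneg hs (TO.tv hz)
  have := pl (f := fun s => F (rl x + s • rl (imv z))) (c := 0) (B := M) (M := 0)
    (h.hol.comp (by fun_prop) fun s hs => ?_) (h.cont.comp (by fun_prop) m)
    (fun s hs => hM _ (m s hs)) (fun s hs => ?_) (s := I) (by simp)
  · rwa [← cx_eq, ← hx, norm_le_zero_iff] at this
  · rw [TO, mem_ofPred_eq, imv_line, mg_smul (le_of_lt hs)]
    exact mul_pos hs hz
  · have e : rl x + s • rl (imv z) = rl (x + s.re • imv z) := by
      ext μ
      exact Complex.ext (by simp [rl]) (by simp [rl, hs])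
    simp only [e, h0, norm_zero, le_refl]

theorem BH.add (h : BH F) (h' : BH G) : BH fun z => F z + G z := by
  obtain ⟨M, hM⟩ := h.bd
  obtain ⟨M', hM'⟩ := h'.bd
  exact ⟨h.hol.add h'.hol, h.cont.add h'.cont, M + M', fun z hz =>
    norm_add_le_of_le (hM z hz) (hM' z hz)⟩

theorem BH.clm (h : BH F) (L : X →L[ℂ] Y) : BH fun z => L (F z) := by
  obtain ⟨M, hM⟩ := h.bd
  exact ⟨L.differentiable.comp_differentiableOn h.hol, L.continuous.comp_continuousOn h.cont,
    ‖L‖ * M, fun z hz => L.le_opNorm_of_le (hM z hz)⟩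

theorem BH.eq [CompleteSpace X] (h : BH F) (h' : BH G) (h0 : ∀ a, F (rl a) = G (rl a)) :
    ∀ z ∈ TV 0, F z = G z := fun z hz => by
  have := (h.add (h'.clm (-ContinuousLinearMap.id ℂ X))).zero (fun a => by simp [h0]) hz
  simpa [← sub_eq_add_neg, sub_eq_zero] using this

theorem BH.shift (h : BH F) {w : C4} (hw : w ∈ TV 0) : BH fun z => F (z + w) := by
  obtain ⟨M, hM⟩ := h.bd
  have m : ∀ z ∈ TV 0, z + w ∈ TV 0 := fun z hz => by simpa using TV.add hz hw
  exact ⟨h.hol.comp (by fun_prop) fun z hz => TO.add hz hw, h.cont.comp (by fun_prop) m, M,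
    fun z hz => hM _ (m z hz)⟩

theorem BH.conj {F : C4 → H} (h : BH F) (x : H) : BH fun z => inner ℂ (F (-star z)) x := by
  obtain ⟨M, hM⟩ := h.bd
  refine ⟨fun z hz => DifferentiableAt.differentiableWithinAt ?_,
    .inner (h.cont.comp (by fun_prop) fun z hz => neg_star_mem hz) continuousOn_const, M * ‖x‖,
    fun z hz => (norm_inner_le_norm _ _).trans
      (mul_le_mul_of_nonneg_right (hM _ (neg_star_mem hz)) (norm_nonneg _))⟩
  have h1 : DifferentiableAt ℂ (fun z => F (-z)) ((starL ℂ).toContinuousLinearMap z) :=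
    (h.hol.differentiableAt (isOpen_TO.mem_nhds (neg_star_mem' hz))).comp (star z)
      (differentiableAt_fun_id.fun_neg)
  exact (h1.comp_semilinear₂ (innerSL ℂ (E := H)) _).clm_apply (differentiableAt_const x)

theorem exists_V [CompleteSpace H] [CompleteSpace K] {ι : Type} {u : ι → K} {v : ι → H}
    (h : ∀ a b, inner ℂ (u a) (u b) = inner ℂ (v a) (v b)) :
    ∃ V : K →L[ℂ] H, (∀ y, ‖V y‖ ≤ ‖y‖) ∧ ∀ a, V (u a) = v a := by
  let S := (LinearMap.range (Finsupp.linearCombination ℂ u)).topologicalClosure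
  have m : ∀ z, Finsupp.linearCombination ℂ u z ∈ S := fun z =>
    Submodule.le_topologicalClosure _ ⟨z, rfl⟩
  let e := (Finsupp.linearCombination ℂ u).codRestrict S m
  have h1 : DenseRange e := by
    rw [DenseRange, Subtype.dense_iff, ← range_comp]
    exact subset_rfl
  have h2 : ∀ z, ‖Finsupp.linearCombination ℂ v z‖ ≤ 1 * ‖e z‖ := fun z => by
    refine le_of_eq ?_
    rw [one_mul, ← sq_eq_sq₀ (norm_nonneg _) (norm_nonneg _), ← inner_self_eq_norm_sq (𝕜 := ℂ),
      ← inner_self_eq_norm_sq (𝕜 := ℂ), Submodule.coe_inner]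
    simp only [e, LinearMap.codRestrict_apply, Finsupp.linearCombination_apply, Finsupp.sum,
      sum_inner, inner_sum, inner_smul_left, inner_smul_right, h]
  refine ⟨(Finsupp.linearCombination ℂ v).extendOfNorm e ∘L S.orthogonalProjectionOnto, fun y =>
    (LinearMap.norm_extendOfNorm_apply_le h1 1 h2 _).trans ?_, fun a => ?_⟩
  · rw [one_mul]
    exact S.norm_orthogonalProjectionOnto_apply_le y
  · have e1 : u a = e (Finsupp.single a 1) := by simp [e]
    rw [e1, ContinuousLinearMap.comp_apply, S.orthogonalProjectionOnto_mem_subspace_eq_self,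
      LinearMap.extendOfNorm_eq h1 ⟨1, h2⟩]
    simp

/-- the symbol of a complex translation -/
def sy (z : C4) (p : R4) : ℂ := exp (I * (z 0 * p 0 - z 1 * p 1 - z 2 * p 2 - z 3 * p 3))

theorem sy_rl (a p : R4) : sy (rl a) p = exp (I * mink a p) := by simp [sy, rl, mink]

theorem sy_mul (a b p : R4) : conj (sy (rl a) p) * sy (rl b) p = exp (I * mink (b - a) p) := by
  rw [sy_rl, sy_rl, ← exp_conj, ← exp_add]
  congr 1
  simp [mink]
  ring

theorem sy_le {z : C4} (hz : z ∈ TV 0) {p : R4} (hp : 0 ≤ mg p) : ‖sy z p‖ ≤ 1 := by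
  have h1 := real_inner_le_norm (sp (imv z)) (sp p)
  have h2 : ‖sp (imv z)‖ * ‖sp p‖ ≤ imv z 0 * p 0 :=
    mul_le_mul (sub_nonneg.1 hz) (sub_nonneg.1 hp) (norm_nonneg _)
      ((norm_nonneg _).trans (sub_nonneg.1 hz))
  rw [PiLp.inner_apply, Fin.sum_univ_four, sp_zero, sp_zero, sp_ne _ (by decide),
    sp_ne _ (by decide), sp_ne _ (by decide), sp_ne _ (by decide), sp_ne _ (by decide),
    sp_ne _ (by decide)] at h1
  rw [sy, norm_exp, Real.exp_le_one_iff]
  simp at h1 h2 ⊢
  linarith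

theorem sy_cont (z : C4) : Continuous (sy z) := by
  unfold sy
  fun_prop

theorem sy_diff (p : R4) : Differentiable ℂ fun z => sy z p := by
  unfold sy
  fun_prop

theorem exists_e {μ : Measure R4} [IsFiniteMeasure μ] (hμ : ∀ᵐ p ∂μ, 0 ≤ mg p) :
    ∃ e : C4 → Lp ℂ 2 μ, BH e ∧ (∀ z ∈ TV 0, ‖e z‖ ≤ ‖e 0‖) ∧
      ∀ a b, inner ℂ (e (rl a)) (e (rl b)) = ∫ p, exp (I * mink (b - a) p) ∂μ := by
  have b : ∀ z ∈ TV 0, ∀ᵐ p ∂μ, ‖sy z p‖ ≤ 1 := fun z hz => hμ.mono fun p hp => sy_le hz hp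
  have m : ∀ z ∈ TV 0, MemLp (sy z) 2 μ := fun z hz =>
    .of_bound (sy_cont z).aestronglyMeasurable 1 (b z hz)
  have : ∀ z, ∃ f : Lp ℂ 2 μ, z ∈ TV 0 → f =ᵐ[μ] sy z := fun z => by
    by_cases hz : z ∈ TV 0
    · exact ⟨(m z hz).toLp, fun _ => (m z hz).coeFn_toLp⟩
    · exact ⟨0, fun h => absurd h hz⟩
  choose e he using this
  have z0 : (0 : C4) ∈ TV 0 := rl_zero ▸ rl_mem 0
  have n : ∀ z ∈ TV 0, ‖e z‖ ≤ ‖e 0‖ := fun z hz => Lp.norm_le_norm_of_ae_le (by
    filter_upwards [he z hz, he 0 z0, b z hz] with p h1 h2 h3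
    rw [h1, h2]
    simpa [sy] using h3)
  have i : ∀ h : Lp ℂ 2 μ, ∀ z ∈ TV 0, inner ℂ h (e z) = ∫ p, conj (h p) * sy z p ∂μ :=
    fun h z hz => by
      rw [L2.inner_def]
      refine integral_congr_ae ((he z hz).mono fun p hp => ?_)
      simp [hp, mul_comm]
  have c : ContinuousOn e (TV 0) := fun w hw => by
    have c1 : ContinuousWithinAt (fun z => ∫ p, ‖sy z p - sy w p‖ ^ 2 ∂μ) (TV 0) w := by
      refine continuousWithinAt_of_dominated (bound := fun _ => 2 ^ 2) (.of_forall fun z => ?_)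
        (eventually_mem_nhdsWithin.mono fun z hz => ?_) (integrable_const _) (.of_forall fun p => ?_)
      · exact (((sy_cont z).sub (sy_cont w)).norm.pow 2).aestronglyMeasurable
      · filter_upwards [b z hz, b w hw] with p h1 h2
        rw [norm_pow, norm_norm]
        exact pow_le_pow_left₀ (norm_nonneg _) ((norm_sub_le_of_le h1 h2).trans_eq (by norm_num)) 2
      · exact (((sy_diff p).continuous.sub continuous_const).norm.pow 2).continuousWithinAt
    have c2 := c1.sqrt.tendsto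
    simp only [sub_self, norm_zero, ne_eq, OfNat.ofNat_ne_zero, not_false_eq_true, zero_pow,
      integral_zero, Real.sqrt_zero] at c2
    refine tendsto_iff_norm_sub_tendsto_zero.2
      (c2.congr' (eventually_mem_nhdsWithin.mono fun z hz => ?_))
    refine (Real.sqrt_eq_iff_eq_sq (integral_nonneg fun _ => sq_nonneg _) (norm_nonneg _)).2 ?_
    rw [← inner_self_eq_norm_sq (𝕜 := ℂ), L2.inner_def, ← integral_re (L2.integrable_inner _ _)]
    refine integral_congr_ae ?_
    filter_upwards [Lp.coeFn_sub (e z) (e w), he z hz, he w hw] with p h1 h2 h3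
    rw [inner_self_eq_norm_sq, h1, Pi.sub_apply, h2, h3]
  have d : ∀ h : Lp ℂ 2 μ, DifferentiableOn ℂ (fun z => inner ℂ h (e z)) TO := fun h =>
    (hol_int (μ := μ) (f := fun z p => conj (h p) * sy z p) (b := fun p => ‖h p‖) isOpen_TO
      ((Lp.memLp h).integrable one_le_two).norm (fun z _ =>
        (continuous_conj.comp_aestronglyMeasurable (Lp.aestronglyMeasurable h)).mul
          (sy_cont z).aestronglyMeasurable) (hμ.mono fun p hp =>
        ⟨((sy_diff p).const_mul _).differentiableOn, fun z hz => by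
          rw [norm_mul, norm_conj]
          exact mul_le_of_le_one_right (norm_nonneg _) (sy_le (TO.tv hz) hp)⟩)).congr
      fun z hz => i h z (TO.tv hz)
  refine ⟨e, ⟨osg isOpen_TO (c.mono TO.tv) fun z hz v => ?_, c, _, n⟩, n, fun a b => ?_⟩
  · have o : IsOpen ((fun t : ℂ => z + t • v) ⁻¹' TO) := isOpen_TO.preimage (by fun_prop)
    exact (S10.w2s (fun h => innerSL ℂ h) (fun x hx => inner_self_eq_zero.1 (hx x)) o
      ((c.mono TO.tv).comp (by fun_prop) fun _ h => h) fun h =>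
        (d h).comp (by fun_prop) fun _ h => h).differentiableAt (o.mem_nhds (by simpa using hz))
  · rw [i _ _ (rl_mem b)]
    exact integral_congr_ae ((he _ (rl_mem a)).mono fun p hp => by simp only [hp, sy_mul])

theorem exists_F [CompleteSpace H] {U : R4 → H →L[ℂ] H} (g : Grp U) (s : Spec U) (x : H) :
    ∃ F : C4 → H, BH F ∧ (∀ z ∈ TV 0, ‖F z‖ ≤ ‖x‖) ∧ ∀ a, F (rl a) = U a x := by
  obtain ⟨μ, ⟨f, h1⟩, h2⟩ := s x
  obtain ⟨e, b, n, i⟩ := exists_e h2
  have k : ∀ a b, inner ℂ (e (rl a)) (e (rl b)) = inner ℂ (U a x) (U b x) := fun a b => by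
    rw [i, ← h1, g.adj, sub_eq_neg_add, g.mul, mul_apply_eq_comp]
  obtain ⟨V, v1, v2⟩ := exists_V k
  refine ⟨_, b.clm V, fun z hz => (v1 _).trans ((n z hz).trans_eq ?_), v2⟩
  have := k 0 0
  rw [rl_zero, g.zero, one_apply_eq_self] at this
  rw [← sq_eq_sq₀ (norm_nonneg _) (norm_nonneg _), ← inner_self_eq_norm_sq (𝕜 := ℂ), this,
    inner_self_eq_norm_sq]

end A4

open A4 in
theorem sA4_of : S_A4 := fun H _ _ _ U g s => by
  choose F b n r using exists_F g s
  have : ∀ z, ∃ E : H →L[ℂ] H, z ∈ TV 0 → ∀ x, E x = F x z := fun z => by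
    by_cases hz : z ∈ TV 0
    · refine ⟨LinearMap.mkContinuous ⟨⟨fun x => F x z, fun x y => ?_⟩, fun c x => ?_⟩ 1
        fun x => (n x z hz).trans_eq (one_mul _).symm, fun _ _ => rfl⟩
      · exact (b _).eq ((b x).add (b y)) (fun a => by simp only [r, map_add]) z hz
      · exact (b _).eq ((b x).clm (c • ContinuousLinearMap.id ℂ H)) (fun a => by simp [r]) z hz
    · exact ⟨0, fun h => absurd h hz⟩
  choose E hE using this
  have r' : ∀ a, E (rl a) = U a := fun a => ContinuousLinearMap.ext fun x => by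
    rw [hE _ (rl_mem a), r]
  have n' : ∀ z ∈ TV 0, ‖E z‖ ≤ 1 := fun z hz => (E z).opNorm_le_bound zero_le_one fun x => by
    rw [hE z hz, one_mul]
    exact n x z hz
  have b' : ∀ x, BH fun z => E z x := fun x =>
    ⟨(b x).hol.congr fun z hz => hE z (TO.tv hz) x, (b x).cont.congr fun z hz => hE z hz x, ‖x‖,
      fun z hz => (hE z hz x).symm ▸ n x z hz⟩
  have m : ∀ a x, ∀ z ∈ TV 0, E (z + rl a) x = E z (U a x) := fun a x =>
    ((b' x).shift (rl_mem a)).eq (b' _) fun c => by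
      rw [← rl_add, r', r', g.mul, mul_apply_eq_comp]
  refine ⟨E, ⟨by rw [← rl_zero, r', g.zero], n', fun z hz w hw => ContinuousLinearMap.ext fun x => ?_,
    fun z hz x y => ?_, fun x => (b' x).cont,
    osgB isOpen_TO (fun z hz => n' z (TO.tv hz)) fun x => (b' x).hol⟩, r'⟩
  · rw [add_comm]
    exact ((b' x).shift hz).eq ((b' x).clm (E z)) (fun a => by rw [add_comm, m a x z hz, r']) w hw
  · rw [← inner_conj_symm, ← inner_conj_symm x]
    refine congrArg _ (((b' x).clm (innerSL ℂ y)).eq ((b' y).conj x) (fun a => ?_) z hz)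
    rw [star_rl, ← rl_neg, r', r', g.adj, neg_neg, innerSL_apply_apply]

end Pool.Agent.Lib.MP_7f377f_mp.Wm
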