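import Pool.Agent.Lib.MP_7f377f_mp.S10KD
import Pool.Agent.Lib.MP_7f377f_mp.PurQ

/-! The spectrum condition from holomorphy along the two diagonals. -/

noncomputable section

namespace Pool.Agent.Lib.MP_7f377f_mp.S10

open Set Filter Topology Complex ComplexConjugate

variable {H : Type} [NormedAddCommGroup H] [InnerProductSpace ℂ H] [CompleteSpace H]

theorem hp_open : IsOpen {z : ℂ | 0 < z.re} := isOpen_lt continuous_const continuous_re

theorem Hol.zero {f : ℝ → ℂ} {M : ℝ} (h : Hol f M) (e : ∀ᶠ t in atTop, f t = 0) {t : ℝ}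
    (ht : 0 < t) : f t = 0 := by
  obtain ⟨g, h1, -, h3⟩ := h
  obtain ⟨u, hu⟩ := eventually_atTop.1 (e.and (eventually_gt_atTop 0))
  rw [← h3 t ht]
  refine id_line (z := u) (d := 1) hp_open (convex_halfSpace_re_gt 0).isPreconnected h1
    (differentiableOn_const 0) (hu u le_rfl).2 one_ne_zero ?_ ht
  filter_upwards [self_mem_nhdsWithin] with x hx
  have := hu (u + x) (le_add_of_nonneg_right (le_of_lt hx))
  rw [mul_one, ← ofReal_add, h3 _ this.2, this.1]

omit [CompleteSpace H] in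
theorem ext_dense {D : Set H} (hD : Dense D) {A B : H →L[ℂ] H}
    (h : ∀ x ∈ D, ∀ y ∈ D, inner ℂ x (A y) = inner ℂ x (B y)) : A = B := by
  ext y
  refine hD.induction (P := fun y => A y = B y) (fun y hy => ext_inner_left ℂ fun x => ?_)
    (isClosed_eq A.continuous B.continuous) y
  exact hD.induction (P := fun x => inner ℂ x (A y) = inner ℂ x (B y)) (fun x hx => h x hx y hy)
    (isClosed_eq (by fun_prop) (by fun_prop)) x

theorem rc_mix {a b s t : ℝ} (hs : 0 < s) (ht : 0 < t) {z w : ℂ} (hz : z ∈ Rc a b)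
    (hw : w ∈ Rc a b) : (t * w - s * z) / (s + t : ℝ) ∈ Rc a b := by
  have p := add_pos hs ht
  have := rc_convex a b hw (rc_neg hz) (div_pos ht p).le (div_pos hs p).le (by field_simp; ring)
  convert this using 1
  simp only [real_smul]
  push_cast
  ring

/-- holomorphic continuation in the space variable -/
def Xt (T : ℝ → ℝ → H →L[ℂ] H) (δ θ t : ℝ) (c : H) (φ : ℂ → H) : Prop :=
  DifferentiableOn ℂ φ (Rc δ θ) ∧ ∀ x : ℝ, |x| < δ → φ x = T t (t * x) c

section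

variable {T : ℝ → ℝ → H →L[ℂ] H}
  (hm : ∀ t ≥ 0, ∀ t' ≥ 0, ∀ s s', T (t + t') (s + s') = T t s * T t' s')
  (ha : ∀ t ≥ 0, ∀ s x y, inner ℂ (T t s x) y = inner ℂ x (T t (-s) y))
  {δ θ s t : ℝ} (δ0 : 0 < δ) {c c' : H} {φ φ' χ : ℂ → H} {z w : ℂ}

omit [CompleteSpace H] in
include ha δ0 in
theorem Xt.adj (ht : 0 < t) (h' : Xt T δ θ t c' φ') (h : Xt T δ θ t c φ) (hz : z ∈ Rc δ θ) :
    inner ℂ (φ' (conj z)) c = inner ℂ c' (φ (-z)) := by
  refine rc_id (f := fun z => inner ℂ (φ' (conj z)) c) (g := fun z => inner ℂ c' (φ (-z)))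
    (fun z hz => (diff_inner (rc_at h'.1 (rc_conj hz))
      (differentiableAt_const _)).differentiableWithinAt) ((innerSL ℂ c').differentiable.comp_differentiableOn
      (h.1.comp (by fun_prop) fun _ => rc_neg)) δ0 (fun x hx => ?_) hz
  rw [conj_ofReal, ← ofReal_neg, h'.2 x hx, h.2 _ (by rwa [abs_neg]), ha t ht.le, mul_neg]

omit [CompleteSpace H] in
include hm ha δ0 in
theorem Xt.two (hs : 0 < s) (ht : 0 < t) (h' : Xt T δ θ s c' φ') (h : Xt T δ θ t c φ)
    (hχ : Xt T δ θ (s + t) c χ) (hz : z ∈ Rc δ θ) (hw : w ∈ Rc δ θ) :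
    inner ℂ (φ' (conj z)) (φ w) = inner ℂ c' (χ ((t * w - s * z) / (s + t : ℝ))) := by
  have θ0 := (abs_nonneg _).trans_lt hz.2
  refine rc_id (f := fun z => inner ℂ (φ' (conj z)) (φ w))
    (g := fun z => inner ℂ c' (χ ((t * w - s * z) / (s + t : ℝ))))
    (fun z hz => (diff_inner (rc_at h'.1 (rc_conj hz))
      (differentiableAt_const _)).differentiableWithinAt)
    ((innerSL ℂ c').differentiable.comp_differentiableOn
      (hχ.1.comp (by fun_prop) fun _ e => rc_mix hs ht e hw)) δ0 (fun x hx => ?_) hz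
  rw [conj_ofReal, h'.2 x hx]
  refine rc_id (f := fun w => inner ℂ (T s (s * x) c') (φ w))
    (g := fun w => inner ℂ c' (χ ((t * w - s * x) / (s + t : ℝ))))
    ((innerSL ℂ _).differentiable.comp_differentiableOn h.1)
    ((innerSL ℂ c').differentiable.comp_differentiableOn
      (hχ.1.comp (by fun_prop) fun _ e => rc_mix hs ht (rc_real hx θ0) e)) δ0 (fun y hy => ?_) hw
  have e := (rc_mix hs ht (rc_real hx θ0) (rc_real hy θ0)).1
  simp only [← ofReal_mul, ← ofReal_sub, ← ofReal_div, ofReal_re] at e ⊢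
  rw [h.2 y hy, hχ.2 _ e, ha s hs.le, mul_div_cancel₀ _ (add_pos hs ht).ne', sub_eq_neg_add,
    hm s hs.le t ht.le]
  rfl

include hm ha in
theorem exists_xt (θ0 : 0 < θ) (h1 : θ < 1) : ∃ δ > 0, ∀ c,
    (∃ M, (∀ q > 0, Hol (fun p => inner ℂ c (T (p + q) (p - q) c)) M) ∧
      ∀ p > 0, Hol (fun q => inner ℂ c (T (p + q) (p - q) c)) M) →
    ∃ M, ∀ t > 0, ∃ φ, Xt T δ θ t c φ ∧ ∀ z ∈ Rc δ θ, ‖φ z‖ ≤ M := by
  obtain ⟨δ, δ0, C, hC⟩ := ft h1
  refine ⟨δ, δ0, fun c ⟨M, h2, h3⟩ => ⟨√(C * M), fun t ht => ?_⟩⟩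
  obtain ⟨G, g1, g2, g3⟩ := hC (fun p q => inner ℂ c (T (t * p + t * q) (t * p - t * q) c)) M
    (fun q hq => (h2 _ (mul_pos ht hq)).scale ht) fun p hp => (h3 _ (mul_pos ht hp)).scale ht
  have m : ∀ z ∈ Rc δ θ, ∀ w ∈ Rc δ θ, (w - z) / 2 ∈ Rc δ θ := fun z hz w hw => by
    simpa [one_add_one_eq_two] using rc_mix one_pos one_pos hz hw
  obtain ⟨φ, p1, p2, p3⟩ := kc (ψ := fun x => T t (t * x) c) (K := fun z w => G ((w - z) / 2)) δ0
    le_rfl θ0 (fun z hz => g1.comp (by fun_prop) (m z hz))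
    (fun w hw => g1.comp (by fun_prop) fun z hz => m z hz w hw)
    (fun z hz w hw => g2 _ (m z hz w hw)) fun x y hx hy => by
      have e := (m _ (rc_real hx θ0) _ (rc_real hy θ0)).1
      rw [← ofReal_sub, ← ofReal_ofNat, ← ofReal_div] at e ⊢
      rw [ofReal_re] at e
      rw [g3 _ e, ha t ht.le, show t * (1 + (y - x) / 2) + t * (1 - (y - x) / 2) = t + t by ring,
        show t * (1 + (y - x) / 2) - t * (1 - (y - x) / 2) = -(t * x) + t * y by ring,
        hm t ht.le t ht.le]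
      rfl
  refine ⟨φ, ⟨p1, p2⟩, fun z hz => Real.le_sqrt_of_sq_le ?_⟩
  have := p3 _ (rc_conj hz) z hz
  rw [conj_conj] at this
  rw [← inner_self_eq_norm_sq (𝕜 := ℂ), this]
  exact (RCLike.re_le_norm _).trans (g2 _ (m _ (rc_conj hz) z hz))

end

/-- the spectrum condition -/
theorem cone {T : ℝ → ℝ → H →L[ℂ] H} (hn : ∀ t ≥ 0, ∀ s, ‖T t s‖ ≤ 1)
    (hm : ∀ t ≥ 0, ∀ t' ≥ 0, ∀ s s', T (t + t') (s + s') = T t s * T t' s')
    (ha : ∀ t ≥ 0, ∀ s x y, inner ℂ (T t s x) y = inner ℂ x (T t (-s) y))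
    {D : Set H} (hD : Dense D) (hc : ∀ a ∈ D, Tendsto (fun t => T t 0 a) (𝓝[>] 0) (𝓝 a))
    (D' : Submodule ℂ H) (hD' : ∀ a ∈ D, ∀ᶠ t in atTop, T t 0 a ∈ D')
    (hF : ∀ c ∈ D', ∃ M, (∀ q > 0, Hol (fun p => inner ℂ c (T (p + q) (p - q) c)) M) ∧
      ∀ p > 0, Hol (fun q => inner ℂ c (T (p + q) (p - q) c)) M) {θ : ℝ} (θ0 : 0 < θ)
    (h1 : θ < 1) :
    ∃ A : ℂ × ℂ → H →L[ℂ] H, DifferentiableOn ℂ A {z | |z.2.im| < θ * z.1.re} ∧
      (∀ z : ℂ × ℂ, |z.2.im| < θ * z.1.re → ‖A z‖ ≤ 1) ∧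
      ∀ t s : ℝ, 0 < t → A (t, s) = T t s := by
  have dn : Dense (D' : Set H) := by
    rw [Submodule.dense_iff_topologicalClosure_eq_top, Submodule.topologicalClosure_eq_top_iff,
      Submodule.eq_bot_iff]
    intro x hx
    refine ext_inner_right ℂ fun a => hD.induction (P := fun a => inner ℂ x a = inner ℂ 0 a)
      (fun a e => ?_) (isClosed_eq (by fun_prop) (by fun_prop)) a
    have h2 := hol_sg (T := fun t => T t 0) (fun t ht =>
      ContinuousLinearMap.isSelfAdjoint_iff_isSymmetric.2 fun x y => by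
        simpa using ha t ht.le 0 x y) (fun t ht => hn t ht.le 0)
      (fun s hs t ht => by simpa using hm s hs.le t ht.le 0 0) x a
    rw [inner_zero_left]
    refine tendsto_nhds_unique ((innerSL ℂ x).continuous.continuousAt.tendsto.comp (hc a e))
      (tendsto_const_nhds.congr' ?_)
    filter_upwards [self_mem_nhdsWithin] with t ht
    exact (h2.zero ((hD' a e).mono fun t ht => Submodule.inner_left_of_mem_orthogonal ht hx)
      ht).symm
  obtain ⟨θ', t1, t2⟩ := exists_between h1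
  obtain ⟨δ, δ0, hδ⟩ := exists_xt hm ha (θ0.trans t1) t2
  choose M hM using fun c : D' => hδ c (hF c c.2)
  choose! φ hφ hb using hM
  have mI : ∀ {u : ℝ}, |u| ≤ θ → u * I ∈ Rc δ θ' := fun h => by simpa [Rc, δ0] using h.trans_lt t1
  have cI : ∀ u : ℝ, conj (-(u * I)) = u * I := fun u => by simp
  have hB : ∀ (u t : ℝ), |u| ≤ θ → 0 < t → ∃ B : H →L[ℂ] H, ‖B‖ ≤ 1 ∧
      ∀ c : D', B c = φ c t (u * I) := fun u t hu ht => by
    let L : D' →ₗ[ℂ] H :=
      { toFun := fun c => φ c t (u * I)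
        map_add' := fun c c' => rc_id (hφ _ t ht).1 ((hφ c t ht).1.add (hφ c' t ht).1) δ0
          (fun x hx => by simp [(hφ _ t ht).2 x hx]) (mI hu)
        map_smul' := fun a c => rc_id (hφ _ t ht).1 ((hφ c t ht).1.const_smul a) δ0
          (fun x hx => by simp [(hφ _ t ht).2 x hx]) (mI hu) }
    have d : DenseRange D'.subtype := by simpa [DenseRange] using dn
    have b : ∀ c : D', ‖L c‖ ≤ 1 * ‖D'.subtype c‖ := fun c => by
      have := Pur.dbl_le (x := fun j => ‖φ c (2 ^ j * t) (u * I)‖) (β := ‖(c : H)‖) (η := 1)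
        (M := M c) (norm_nonneg _) zero_le_one (fun j => ?_) fun j => by
          simpa using hb c _ (by positivity) _ (mI hu)
      · simpa [L] using this
      have q : 0 < 2 ^ j * t := by positivity
      have e := Xt.two hm ha δ0 q q (hφ c _ q) (hφ c _ q) (hφ c _ (add_pos q q))
        (rc_neg (mI hu)) (mI hu)
      rw [cI, mul_neg, sub_neg_eq_add, ← add_mul (_ : ℂ), ← ofReal_add, mul_div_cancel_left₀ _
        (ofReal_ne_zero.2 (add_pos q q).ne'), ← mul_two, mul_right_comm, ← pow_succ] at e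
      rw [← inner_self_eq_norm_sq (𝕜 := ℂ), e]
      exact (RCLike.re_le_norm _).trans (norm_inner_le_norm _ _)
    exact ⟨L.extendOfNorm D'.subtype, LinearMap.opNorm_extendOfNorm_le d zero_le_one b,
      fun c => LinearMap.extendOfNorm_eq d ⟨1, b⟩ c⟩
  choose! B b1 b2 using hB
  have b3 : ∀ u t, |u| ≤ θ → 0 < t → IsSelfAdjoint (B u t) := fun u t hu ht => by
    refine ext_dense dn fun x hx y hy => ?_
    rw [ContinuousLinearMap.star_eq_adjoint, ContinuousLinearMap.adjoint_inner_right,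
      b2 u t hu ht ⟨x, hx⟩, b2 u t hu ht ⟨y, hy⟩]
    simpa using Xt.adj ha δ0 ht (hφ ⟨x, hx⟩ t ht) (hφ ⟨y, hy⟩ t ht) (rc_neg (mI hu))
  have b4 : ∀ u v s t, |u| ≤ θ → |v| ≤ θ → 0 < s → 0 < t → ∀ c : D', B u s (B v t c) =
      φ c (s + t) (((t * v + s * u) / (s + t) : ℝ) * I) := fun u v s t hu hv hs ht c => by
    refine ext_inner_left ℂ fun x => dn.induction (P := fun x => inner ℂ x _ = inner ℂ x _)
      (fun x hx => ?_) (isClosed_eq (by fun_prop) (by fun_prop)) x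
    have e := Xt.two hm ha δ0 hs ht (hφ ⟨x, hx⟩ s hs) (hφ c t ht) (hφ c _ (add_pos hs ht))
      (rc_neg (mI hu)) (mI hv)
    rw [cI, ← b2 u s hu hs, ← b2 v t hv ht] at e
    rw [← (b3 u s hu hs).isSymmetric.apply_clm]
    refine e.trans (congrArg (fun z => inner ℂ x (φ c _ z)) ?_)
    push_cast
    ring
  have b5 : ∀ u, |u| ≤ θ → ∃ A : ℂ → H →L[ℂ] H, DifferentiableOn ℂ A {z | 0 < z.re} ∧
      (∀ z, 0 < z.re → ‖A z‖ ≤ 1) ∧ ∀ t : ℝ, 0 < t → A t = B u t := fun u hu =>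
    sg (fun t => b3 u t hu) (fun t => b1 u t hu) fun s hs t ht => ext_dense dn fun x _ y hy => by
      rw [mul_apply_eq_comp, b4 u u s t hu hu hs ht ⟨y, hy⟩,
        b2 u _ hu (add_pos hs ht) ⟨y, hy⟩, ← add_mul, add_comm t,
        mul_div_cancel_left₀ _ (add_pos hs ht).ne']
  have u1 := (abs_of_pos θ0).le
  have u2 : |-θ| ≤ θ := by rwa [abs_neg]
  obtain ⟨P, p1, p2, p3⟩ := b5 θ u1
  obtain ⟨Q, q1, q2, q3⟩ := b5 (-θ) u2
  have m1 : ∀ z : ℂ × ℂ, |z.2.im| < θ * z.1.re → 0 < ((z.1 - I * z.2 / θ) / 2).re := fun z hz => by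
    have := (div_lt_iff₀' θ0).2 (neg_lt.1 (abs_lt.1 hz).1)
    simp [neg_div] at this ⊢
    linarith
  have m2 : ∀ z : ℂ × ℂ, |z.2.im| < θ * z.1.re → 0 < ((z.1 + I * z.2 / θ) / 2).re := fun z hz => by
    have := (div_lt_iff₀' θ0).2 (abs_lt.1 hz).2
    simp [neg_div] at this ⊢
    linarith
  obtain ⟨A, hA⟩ : ∃ A : ℂ × ℂ → H →L[ℂ] H, ∀ z, A z =
    P ((z.1 - I * z.2 / θ) / 2) * Q ((z.1 + I * z.2 / θ) / 2) := ⟨_, fun _ => rfl⟩
  have dA : DifferentiableOn ℂ A {z | |z.2.im| < θ * z.1.re} := by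
    rw [funext hA]
    exact (p1.comp (by fun_prop) m1).mul (q1.comp (by fun_prop) m2)
  refine ⟨A, dA, fun z hz => ?_, fun t s ht => ?_⟩
  · rw [hA]
    exact (norm_mul_le _ _).trans (mul_le_one₀ (p2 _ (m1 z hz)) (norm_nonneg _) (q2 _ (m2 z hz)))
  have a1 : ∀ x : ℝ, |x| < δ → A (t, (t * x : ℝ)) = T t (t * x) := fun x hx => by
    refine ext_dense dn fun a _ c hc => congrArg _ ?_
    rw [← (hφ ⟨c, hc⟩ t ht).2 x hx, ofReal_mul]
    refine id_line (f := fun w => A (t, t * w) c) (z := 0) (d := I) (rc_open δ θ)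
      (rc_convex δ θ).isPreconnected ((dA.comp (by fun_prop) fun w hw => ?_).clm_apply
      (differentiableOn_const c)) ((hφ ⟨c, hc⟩ t ht).1.mono fun w hw => ⟨hw.1, hw.2.trans t1⟩)
      (by simp [Rc, δ0, θ0]) I_ne_zero ?_ (rc_real hx θ0)
    · simpa [abs_mul, abs_of_pos ht, mul_comm θ, ht] using hw.2
    filter_upwards [Ioo_mem_nhdsGT θ0] with y hy
    have y1 : y / θ < 1 := (div_lt_one θ0).2 hy.2
    have y0 := div_pos hy.1 θ0
    have e1 : 0 < t * (1 + y / θ) / 2 := by positivity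
    have e2 : 0 < t * (1 - y / θ) / 2 := half_pos (mul_pos ht (sub_pos.2 y1))
    have := b4 θ (-θ) _ _ u1 u2 e1 e2 ⟨c, hc⟩
    rw [← p3 _ e1, ← q3 _ e2, show t * (1 + y / θ) / 2 + t * (1 - y / θ) / 2 = t by ring,
      show (t * (1 - y / θ) / 2 * -θ + t * (1 + y / θ) / 2 * θ) / t = y by field_simp; ring] at this
    rw [zero_add, ← this, hA, mul_apply_eq_comp]
    congr 2
    · push_cast
      linear_combination (-(t * y / θ / 2 : ℂ)) * I_mul_I
    · congr 1
      push_cast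
      linear_combination (t * y / θ / 2 : ℂ) * I_mul_I
  have a2 : ∀ x : ℝ, |x| < t * δ → A (t, x) = T t x := fun x hx => by
    simpa only [mul_div_cancel₀ _ ht.ne'] using a1 (x / t) (by
      rwa [abs_div, abs_of_pos ht, div_lt_iff₀' ht])
  have a3 : ∀ x : ℝ, |x| < t * δ → ∀ y : ℝ, A (t, x + y) = T 0 x * A (t, y) := fun x hx y => by
    have o : IsOpen {w : ℂ | |w.im| < θ * t} := isOpen_lt continuous_im.abs continuous_const
    refine id_line (f := fun w => A (t, x + w)) (g := fun w => T 0 x * A (t, w)) (z := 0) (d := 1) o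
      (Convex.isPreconnected ?_) (dA.comp (by fun_prop) fun w hw => by simpa using hw)
      ((dA.comp (by fun_prop) fun w hw => by simpa using hw).const_mul _)
      (by simpa using mul_pos θ0 ht) one_ne_zero ?_ (by simpa using mul_pos θ0 ht)
    · simpa only [abs_lt, ofPred_and] using
        (convex_halfSpace_im_gt _).inter (convex_halfSpace_im_lt (θ * t))
    filter_upwards [Ioo_mem_nhdsGT (sub_pos.2 hx)] with w hw
    have := abs_nonneg x
    rw [zero_add, mul_one, ← ofReal_add, a2 _ ((abs_add_le _ _).trans_lt (by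
      rw [abs_of_pos hw.1]; linarith [hw.2])), a2 w (by rw [abs_of_pos hw.1]; linarith [hw.2]),
      ← hm 0 le_rfl t ht.le, zero_add]
  obtain ⟨n, hn'⟩ := exists_nat_gt (|s| / (t * δ))
  have n0 : (0 : ℝ) < n := (by positivity : 0 ≤ |s| / (t * δ)).trans_lt hn'
  have a4 : ∀ k : ℕ, A (t, (k * (s / n) : ℝ)) = T t (k * (s / n)) := fun k => by
    induction k with
    | zero => exact a2 _ (by simpa using mul_pos ht δ0)
    | succ k ih =>
      rw [Nat.cast_succ, add_one_mul, add_comm, ofReal_add, a3 _ (by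
        rwa [abs_div, abs_of_pos n0, div_lt_iff₀ n0, ← div_lt_iff₀' (mul_pos ht δ0)]), ih,
        ← hm 0 le_rfl t ht.le, zero_add]
  simpa only [mul_div_cancel₀ _ n0.ne'] using a4 n

end Pool.Agent.Lib.MP_7f377f_mp.S10
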