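import Pool.Agent.Lib.MP_7f377f_mp.WmTool

/-! Stage 14: delta sequences are second differences of ramps. -/

noncomputable section

namespace Pool.Agent.Lib.MP_7f377f_mp.Wm

open MeasureTheory Filter Topology Set YM7 Pur Metric Function
open scoped NNReal ContDiff

namespace Da

/-- products -/
def pr (h : Fin 4 → ℝ → ℝ) (y : R4) : ℝ := ∏ μ, h μ (y μ)

/-- difference quotients -/
def df (r : ℝ) (k : ℝ → ℝ) (x : ℝ) : ℝ := r⁻¹ * (k (x + r) - k x)

/-- ramps -/
def sg (r x : ℝ) : ℝ := x * Real.smoothTransition (r⁻¹ * x)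

/-- functions supported in an interval -/
def Sm (s : ℝ) (k : ℝ → ℝ) : Prop := ContDiff ℝ 1 k ∧ ∀ x, s < |x| → k x = 0

variable {r s t c ρ : ℝ} {k : ℝ → ℝ} {h : Fin 4 → ℝ → ℝ} {K : ℝ≥0} {μ : Fin 4}

theorem Sm.mono (hk : Sm s k) (e : s ≤ t) : Sm t k := ⟨hk.1, fun x hx => hk.2 x (e.trans_lt hx)⟩

theorem Sm.sh (hk : Sm s k) (r0 : 0 ≤ r) : Sm (s + r) fun x => k (x + r) :=
  ⟨hk.1.comp (by fun_prop), fun x hx => hk.2 _ (by
    rcases lt_abs.1 hx with e | e <;> rw [lt_abs] <;> [left; right] <;> linarith)⟩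

theorem Sm.df (hk : Sm s k) (r0 : 0 ≤ r) : Sm (s + r) (df r k) :=
  ⟨contDiff_const.mul ((hk.sh r0).1.sub hk.1), fun x hx => by
    rw [Da.df, show k (x + r) = 0 from (hk.sh r0).2 x hx, hk.2 x (by linarith), sub_self, mul_zero]⟩

theorem c1_pr (hh : ∀ ν, Sm s (h ν)) (e : s < ρ) : C1 (Bx ρ) (pr h) := by
  have a : tsupport (pr h) ⊆ {y : R4 | ∀ l, |y l| ≤ s} := closure_minimal
    (fun y hy l => not_lt.1 fun e => hy (Finset.prod_eq_zero (Finset.mem_univ l) ((hh l).2 _ e)))
    (by rw [ofPred_forall]; exact isClosed_iInter fun l => isClosed_le (by fun_prop) (by fun_prop))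
  refine ⟨(isCompact_closedBall (0 : R4) (2 * |s|)).of_isClosed_subset (isClosed_tsupport _)
    fun y hy => mem_closedBall_zero_iff.2 (le_of_sq_le_sq ?_ (by positivity)),
    contDiff_prod fun l _ => (hh l).1.comp (by fun_prop), fun y hy l => (a hy l).trans_lt e⟩
  have b : ∀ l, y l ^ 2 ≤ s ^ 2 := fun l => sq_le_sq.2 ((a hy l).trans (le_abs_self s))
  rw [EuclideanSpace.real_norm_sq_eq, Fin.sum_univ_four, mul_pow, sq_abs]
  linarith [b 0, b 1, b 2, b 3]

theorem pr_up (h : Fin 4 → ℝ → ℝ) (μ : Fin 4) (k : ℝ → ℝ) (y : R4) :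
    pr (update h μ k) y = k (y μ) * ∏ ν ∈ Finset.univ.erase μ, h ν (y ν) := by
  rw [pr, ← Finset.mul_prod_erase _ _ (Finset.mem_univ μ), update_self]
  exact congrArg _ (Finset.prod_congr rfl fun ν e => by rw [update_of_ne (Finset.ne_of_mem_erase e)])

theorem sm_up (hh : ∀ ν, Sm s (h ν)) (hk : Sm s k) (ν : Fin 4) : Sm s (update h μ k ν) := by
  by_cases e : ν = μ
  · rwa [e, update_self]
  · rw [update_of_ne e]
    exact hh ν

theorem lip_pr (hh : ∀ ν, Sm (1 / 4) (h ν) ∧ LipschitzWith K (h ν)) :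
    LipschitzWith (128 * K ^ 4) (pr h) := by
  let B : ℝ → (R4 → ℝ) → Prop := fun A f => (∀ y, |f y| ≤ A) ∧ ∀ y z, |f y - f z| ≤ A * dist y z
  have m : ∀ {A A' f g}, B A f → B A' g → B (2 * A * A') fun y => f y * g y := by
    intro A A' f g a b
    have a0 := (abs_nonneg _).trans (a.1 0)
    have b0 := (abs_nonneg _).trans (b.1 0)
    refine ⟨fun y => (abs_mul _ _).trans_le ((mul_le_mul (a.1 y) (b.1 y) (abs_nonneg _) a0).trans
      (by nlinarith)), fun y z => ?_⟩
    calc _ = |f y * (g y - g z) + (f y - f z) * g z| := by ring_nf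
      _ ≤ A * (A' * dist y z) + A * dist y z * A' := by
        refine (abs_add_le _ _).trans ?_
        rw [abs_mul, abs_mul]
        gcongr
        exacts [a.1 y, b.2 y z, a.2 y z, b.1 z]
      _ = _ := by ring
  have b : ∀ ν, B (2 * K) fun y => h ν (y ν) := fun ν => ⟨fun y => by
    rcases lt_or_ge (1 / 4) |y ν| with e | e
    · simp [(hh ν).1.2 _ e]
    · have := (hh ν).2.dist_le_mul (y ν) 1
      rw [(hh ν).1.2 1 (by norm_num), Real.dist_eq, Real.dist_eq, sub_zero] at this
      refine this.trans ((mul_comm _ _).trans_le (mul_le_mul_of_nonneg_right ?_ K.2))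
      rw [abs_le] at e ⊢
      constructor <;> linarith [e.1, e.2],
    fun y z => ((hh ν).2.dist_le_mul _ _).trans (by
      have := PiLp.dist_apply_le y z ν
      gcongr
      linarith [K.2])⟩
  refine .of_dist_le_mul fun y z => ?_
  have := (m (m (m (b 0) (b 1)) (b 2)) (b 3)).2 y z
  simp only [pr, Fin.prod_univ_four, Real.dist_eq]
  push_cast
  linarith

theorem deriv_df (hk : Differentiable ℝ k) : deriv (df r k) = df r (deriv k) := funext fun x =>
  ((((hk _).hasDerivAt.comp_add_const x r).sub (hk x).hasDerivAt).const_mul _).deriv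

theorem diff_df (hk : Differentiable ℝ k) : Differentiable ℝ (df r k) := by
  unfold df
  fun_prop

theorem lip_df (hk : Differentiable ℝ k) (hK : LipschitzWith K (deriv k)) (r0 : 0 < r) :
    LipschitzWith K (df r k) := lipschitzWith_of_nnnorm_deriv_le (diff_df hk) fun x => by
  have := hK.dist_le_mul (x + r) x
  rw [Real.dist_eq, Real.dist_eq, add_sub_cancel_left, abs_of_pos r0] at this
  rw [deriv_df hk, ← NNReal.coe_le_coe, coe_nnnorm, df, norm_mul, Real.norm_of_nonneg
    (inv_pos.2 r0).le, inv_mul_le_iff₀' r0]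
  exact this

theorem sg_smooth (r : ℝ) : ContDiff ℝ ∞ (sg r) :=
  contDiff_id.mul (Real.smoothTransition.contDiff.comp (by fun_prop))

theorem sg_neg (r0 : 0 < r) {x : ℝ} (e : x ≤ 0) : sg r x = 0 := by
  rw [sg, Real.smoothTransition.zero_of_nonpos (mul_nonpos_of_nonneg_of_nonpos (by positivity) e),
    mul_zero]

theorem sg_pos (r0 : 0 < r) {x : ℝ} (e : r ≤ x) : sg r x = x := by
  rw [sg, Real.smoothTransition.one_of_one_le ((one_le_inv_mul₀ r0).2 e), mul_one]

theorem sm_two (r0 : 0 < r) (s0 : 0 < s) : Sm (2 * r + s) (df r (df r (sg s))) := by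
  have a : ContDiff ℝ 1 (sg s) := (sg_smooth s).of_le (by simp)
  refine ⟨by unfold df; fun_prop, fun x hx => ?_⟩
  rcases lt_abs.1 hx with e | e
  · rw [df, df, df, sg_pos s0, sg_pos s0, sg_pos s0] <;> linarith
  · rw [df, df, df, sg_neg s0, sg_neg s0, sg_neg s0] <;> linarith

theorem out (r0 : 0 < r) {x : ℝ} (hx : x ∉ Icc 0 r) :
    deriv (sg r) =ᶠ[𝓝 x] fun _ => Real.smoothTransition (r⁻¹ * x) := by
  rcases not_and_or.1 hx with e | e <;> rw [not_le] at e
  · have : sg r =ᶠ[𝓝 x] fun _ => 0 := (eventually_le_nhds e).mono fun _ => sg_neg r0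
    rw [Real.smoothTransition.zero_of_nonpos (mul_nonpos_of_nonneg_of_nonpos (by positivity) e.le)]
    simpa [Pi.zero_def] using this.deriv
  · have : sg r =ᶠ[𝓝 x] id := (eventually_ge_nhds e).mono fun _ => sg_pos r0
    rw [Real.smoothTransition.one_of_one_le ((one_le_inv_mul₀ r0).2 e.le)]
    simpa using this.deriv

theorem lip_sg : ∃ K, ∀ r > 0, LipschitzWith K (sg r) := by
  obtain ⟨C, hC⟩ := isCompact_Icc.exists_bound_of_continuousOn (s := Icc (0 : ℝ) 1)
    ((sg_smooth 1).continuous_deriv (by simp)).continuousOn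
  have a : LipschitzWith (C.toNNReal + 1) (sg 1) :=
    lipschitzWith_of_nnnorm_deriv_le ((sg_smooth 1).differentiable (by simp)) fun x => by
      rw [← NNReal.coe_le_coe, coe_nnnorm, NNReal.coe_add, NNReal.coe_one]
      by_cases e : x ∈ Icc (0 : ℝ) 1
      · linarith [hC x e, C.le_coe_toNNReal]
      · rw [(out one_pos e).eq_of_nhds, Real.norm_of_nonneg (Real.smoothTransition.nonneg _)]
        linarith [Real.smoothTransition.le_one (1⁻¹ * x), C.toNNReal.2]
  refine ⟨C.toNNReal + 1, fun r r0 => .of_dist_le_mul fun x y => ?_⟩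
  have e : ∀ x, sg r x = r * sg 1 (r⁻¹ * x) := fun x => by simp [sg, ← mul_assoc, r0.ne']
  have := a.dist_le_mul (r⁻¹ * x) (r⁻¹ * y)
  rw [Real.dist_eq, Real.dist_eq, ← mul_sub, abs_mul, abs_of_pos (inv_pos.2 r0), mul_left_comm,
    le_inv_mul_iff₀ r0] at this
  rwa [e, e, Real.dist_eq, Real.dist_eq, ← mul_sub, abs_mul, abs_of_pos r0]

theorem lip_two (s0 : 0 < s) : ∃ K, ∀ r > 0, LipschitzWith K (df r (df r (sg s))) := by
  have a := (contDiff_infty_iff_deriv.1 (sg_smooth s)).2
  have d := (sg_smooth s).differentiable (by simp)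
  obtain ⟨K, hK⟩ := ContDiff.lipschitzWith_of_hasCompactSupport (f := deriv (deriv (sg s)))
    (.intro isCompact_Icc fun x hx => by simpa using (out s0 hx).deriv.eq_of_nhds)
    (contDiff_infty_iff_deriv.1 a).2 (by simp)
  exact ⟨K, fun r r0 => lip_df (diff_df d)
    (deriv_df d ▸ lip_df (a.differentiable (by simp)) hK r0) r0⟩

theorem int_two : ∫ x, df 1 (df 1 (sg 1)) x = 1 := by
  have a : Continuous (df 1 (sg 1)) := (diff_df ((sg_smooth 1).differentiable (by simp))).continuous
  rw [← intervalIntegral.integral_eq_integral_of_support_subset (a := -4) (b := 3) fun x hx => ?_]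
  · simp only [df.eq_1 1 (df 1 _), inv_one, one_mul]
    rw [intervalIntegral.integral_sub ((a.comp' (by fun_prop)).intervalIntegrable _ _)
      (a.intervalIntegrable _ _), intervalIntegral.integral_comp_add_right,
      intervalIntegral.integral_interval_sub_interval_comm' (a.intervalIntegrable _ _)
        (a.intervalIntegrable _ _) (a.intervalIntegrable _ _),
      intervalIntegral.integral_congr (a := 3) (g := fun _ => 1) fun x hx => ?_,
      intervalIntegral.integral_congr (a := -4) (g := fun _ => 0) fun x hx => ?_]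
    · simp
    · rw [uIcc_of_le (by norm_num)] at hx
      rw [df, sg_neg one_pos, sg_neg one_pos] <;> linarith [hx.2]
    · rw [uIcc_of_le (by norm_num)] at hx
      rw [df, sg_pos one_pos, sg_pos one_pos] <;> linarith [hx.1]
  · have := abs_le.1 (not_lt.1 fun e => hx ((sm_two one_pos one_pos).2 x e))
    constructor <;> linarith [this.1, this.2]

variable {X : Type} [NormedAddCommGroup X] [NormedSpace ℂ X] [CompleteSpace X]
  {F : (R4 → ℝ) → C4 → X} {M : ℝ}

theorem step (hF : Dist 1 c F) (hh : ∀ ν, Sm (1 / 2) (h ν)) (hk : Sm (1 / 4) k)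
    (hr : r ∈ Ioo (0 : ℝ) (1 / 100)) (e : ρ ≤ 1)
    (hM : ∀ v ∈ ball (0 : C4) ρ, ‖F (pr (update h μ k)) v‖ ≤ M) :
    ∀ v ∈ ball (0 : C4) (ρ - 1 / 16), ‖F (pr (update h μ (df r k))) v‖ ≤ 32 * M := fun v hv => by
  have c1 : ∀ {k}, Sm (1 / 4 + r) k → C1 (Bx 1) (pr (update h μ k)) := fun hk =>
    c1_pr (sm_up hh (hk.mono (by linarith [hr.2]))) (by norm_num)
  have a : C1 (Bx 1) (pr (update h μ k)) := c1 (hk.mono (by linarith [hr.1]))
  have b : ball v (1 / 16) ⊆ ball 0 ρ := ball_subset_ball' (by linarith [mem_ball.1 hv])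
  have b1 := b.trans (ball_subset_ball e)
  have v1 := b1 (mem_ball_self (by norm_num))
  let u : R4 := EuclideanSpace.single μ (-r)
  have n : ‖rl u‖ ≤ r := (pi_norm_le_iff_of_nonneg hr.1.le).2 fun ν => by
    by_cases e : ν = μ <;> simp [rl, u, e, hr.1.le, abs_of_pos hr.1]
  have m : v + rl u ∈ ball v (1 / 16) := by
    rw [mem_ball_iff_norm, add_sub_cancel_left]
    linarith [hr.2]
  have e1 : (fun y => pr (update h μ k) (y - u)) = pr (update h μ fun x => k (x + r)) := by
    funext y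
    rw [pr_up, pr_up]
    congr 1
    · simp [u]
    · exact Finset.prod_congr rfl fun ν e => by simp [u, Finset.ne_of_mem_erase e]
  have e2 : pr (update h μ fun x => k (x + r)) =
      pr (update h μ k) + r • pr (update h μ (df r k)) := by
    funext y
    simp only [Pi.add_apply, Pi.smul_apply, pr_up, df, smul_eq_mul, ← mul_assoc,
      mul_inv_cancel₀ hr.1.ne']
    ring
  have l := lip_hol ((hF.hol _ a).mono b1) (fun y hy => hM y (b hy)) m
  rw [← hF.cov _ u a (e1 ▸ c1 (hk.sh hr.1.le)) v v1 (b1 m), e1, e2,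
    hF.lin _ _ r a (c1 (hk.df hr.1.le)) v v1, add_sub_cancel_left, add_sub_cancel_left, norm_smul,
    Complex.norm_of_nonneg hr.1.le] at l
  have M0 := (norm_nonneg _).trans (hM v (b (mem_ball_self (by norm_num))))
  refine le_of_mul_le_mul_left (l.trans ?_) hr.1
  nlinarith

theorem ind (hF : Dist 1 c F) (hr : r ∈ Ioo (0 : ℝ) (1 / 100)) {p q : ℝ → ℝ} (hp : Sm (1 / 8) p)
    (p1 : LipschitzWith K p) (hq : Sm (1 / 4) q) (q1 : LipschitzWith K q) (S : Finset (Fin 4)) :
    ∀ h : Fin 4 → ℝ → ℝ, (∀ ν ∈ S, h ν = q + df r (df r p)) →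
      (∀ ν ∉ S, Sm (1 / 4) (h ν) ∧ LipschitzWith K (h ν)) → ∀ v ∈ ball (0 : C4) (1 - S.card / 8),
        ‖F (pr h) v‖ ≤ 1025 ^ S.card * (c * (128 * K ^ 4 : ℝ≥0)) := by
  have p2 : Sm (1 / 4) (df r p) := (hp.df hr.1.le).mono (by linarith [hr.2])
  have p3 : Sm (1 / 2) (df r (df r p)) := (p2.df hr.1.le).mono (by linarith [hr.2])
  have q2 : Sm (1 / 2) q := hq.mono (by norm_num)
  induction S using Finset.induction_on with
  | empty =>
    intro h _ h2 v hv
    have h3 := fun ν => h2 ν (Finset.notMem_empty ν)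
    simpa using hF.bd _ _ (c1_pr (fun ν => (h3 ν).1) (by norm_num)) (lip_pr h3) v (by simpa using hv)
  | insert μ S e ih =>
    intro h h1 h2 v hv
    have hh : ∀ ν, Sm (1 / 2) (h ν) := fun ν => by
      by_cases e : ν ∈ insert μ S
      · rw [h1 ν e]
        exact ⟨q2.1.add p3.1, fun x hx => by rw [Pi.add_apply, q2.2 x hx, p3.2 x hx, add_zero]⟩
      · exact (h2 ν e).1.mono (by norm_num)
    have i : ∀ k, Sm (1 / 4) k → LipschitzWith K k → _ := fun k k1 k2 => ih (update h μ k)
      (fun ν e' => by rw [update_of_ne (ne_of_mem_of_not_mem e' e), h1 ν (by simp [e'])])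
      fun ν e' => by
        by_cases e : ν = μ
        · rw [e, update_self]
          exact ⟨k1, k2⟩
        · rw [update_of_ne e]
          exact h2 ν (by simp [e, e'])
    have S0 : (0 : ℝ) ≤ S.card := by positivity
    rw [Finset.card_insert_of_notMem e] at hv ⊢
    have hv' := mem_ball.1 hv
    push_cast at hv'
    have a := step hF hh p2 hr (by linarith) (step hF hh (hp.mono (by norm_num)) hr (by linarith)
      (i p (hp.mono (by norm_num)) p1)) v (mem_ball.2 (by linarith))
    have b := i q hq q1 v (mem_ball.2 (by linarith))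
    have e2 : pr h = pr (update h μ q) + (1 : ℝ) • pr (update h μ (df r (df r p))) := by
      funext y
      rw [← update_eq_self μ h, h1 μ (by simp)]
      simp only [update_idem, Pi.add_apply, pr_up, one_smul, add_mul]
    rw [e2, hF.lin _ _ _ (c1_pr (sm_up hh q2) (by norm_num)) (c1_pr (sm_up hh p3) (by norm_num)) v
      (mem_ball.2 (by linarith)), Complex.ofReal_one, one_smul, pow_succ]
    linarith [norm_add_le (F (pr (update h μ q)) v) (F (pr (update h μ (df r (df r p)))) v)]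

end Da

open Da

theorem sDa_of : S_Da := by
  obtain ⟨K, hK⟩ := lip_sg
  obtain ⟨L, hL⟩ := lip_two (s := 1 / 8) (by norm_num)
  refine ⟨1025 ^ 4 * (128 * (K + K + L) ^ 4 : ℝ≥0), pr fun _ => df 1 (df 1 (sg 1)),
    c1_pr (s := 2) (fun _ => ⟨(sm_two one_pos one_pos).1, fun x hx => ?_⟩) (by norm_num), ?_,
    fun X _ _ _ c F _ hF r hr v hv => ?_⟩
  · rcases lt_abs.1 hx with e | e
    · rw [df, df, df, sg_pos one_pos, sg_pos one_pos, sg_pos one_pos] <;> linarith
    · rw [df, df, df, sg_neg one_pos, sg_neg one_pos, sg_neg one_pos] <;> linarith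
  · rw [← (PiLp.volume_preserving_toLp (Fin 4)).integral_comp'
      (f := MeasurableEquiv.toLp 2 (Fin 4 → ℝ))]
    exact (integral_fintype_prod_volume_eq_prod fun _ => df 1 (df 1 (sg 1))).trans
      (by simp [int_two])
  have r8 : (0 : ℝ) < 1 / 8 := by norm_num
  have := ind (K := K + K + L) (p := sg r - sg (1 / 8)) hF hr
    ⟨((sg_smooth _).sub (sg_smooth _)).of_le (by simp), fun x hx => ?_⟩
    (((hK r hr.1).sub (hK _ r8)).weaken le_self_add)
    ((sm_two hr.1 r8).mono (by linarith [hr.2])) ((hL r hr.1).weaken le_add_self) Finset.univ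
    (fun _ x => r⁻¹ * df 1 (df 1 (sg 1)) (r⁻¹ * x)) (fun _ _ => funext fun x => ?_)
    (fun ν e => absurd (Finset.mem_univ ν) e) v (by norm_num; simpa using hv)
  · rw [Finset.card_univ, Fintype.card_fin, mul_comm c, ← mul_assoc] at this
    convert this using 3
    funext y
    simp [pr, Finset.prod_mul_distrib]
  · rcases lt_abs.1 hx with e | e
    · rw [Pi.sub_apply, sg_pos hr.1, sg_pos r8, sub_self] <;> linarith [hr.2]
    · rw [Pi.sub_apply, sg_neg hr.1, sg_neg r8, sub_self] <;> linarith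
  · have e : ∀ x, sg r x = r * sg 1 (r⁻¹ * x) := fun x => by simp [sg, ← mul_assoc, hr.1.ne']
    have := hr.1.ne'
    simp only [Pi.add_apply, Pi.sub_apply, df, e, mul_add, inv_mul_cancel₀ this]
    field_simp
    ring

end Pool.Agent.Lib.MP_7f377f_mp.Wm
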