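import Pool.Agent.Lib.MP_7f377f_mp.WmTool

/-! Stage 14: the density of a distribution with holomorphic translates. -/

noncomputable section

namespace Pool.Agent.Lib.MP_7f377f_mp.Wm

open MeasureTheory Filter Topology Set Complex YM7 Pur Metric
open scoped NNReal Pointwise

set_option linter.unusedSectionVars false

namespace Db

theorem int_mem {Y : Type} [NormedAddCommGroup Y] [NormedSpace ℝ Y] [CompleteSpace Y]
    (S : Submodule ℝ Y) {Φ : R4 → Y} (hi : Integrable Φ) (h : ∀ y, Φ y ∈ S) :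
    ∫ y, Φ y ∈ closure (S : Set Y) := by
  have : IsClosed (S.topologicalClosure : Set Y) := S.isClosed_topologicalClosure
  have e := S.topologicalClosure.mkQL.integral_comp_comm hi
  have z : ∀ y, S.topologicalClosure.mkQL (Φ y) = 0 := fun y =>
    (Submodule.Quotient.mk_eq_zero _).2 (S.le_topologicalClosure (h y))
  simp only [z, integral_zero] at e
  exact (Submodule.Quotient.mk_eq_zero S.topologicalClosure).1 e.symm

theorem open_Bx (r : ℝ) : IsOpen (Bx r) := by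
  have : Bx r = ⋂ l, {y : R4 | |y l| < r} := by ext; simp [Bx]
  rw [this]
  exact isOpen_iInter_of_finite fun l => isOpen_lt (by fun_prop) continuous_const

theorem rl_lt {r : ℝ} {y : R4} (h : y ∈ Bx r) : ‖rl y‖ < r :=
  (pi_norm_lt_iff ((abs_nonneg _).trans_lt (h 0))).2 fun l => by simpa [rl] using h l

theorem Bx_sub {r : ℝ} : Bx r ⊆ closedBall 0 (2 * r) := fun y hy => by
  have r0 := (abs_nonneg _).trans_lt (hy 0)
  have h : ∀ l, y l ^ 2 ≤ r ^ 2 := fun l => sq_le_sq' (abs_lt.1 (hy l)).1.le (abs_lt.1 (hy l)).2.le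
  rw [mem_closedBall_zero_iff]
  refine le_of_sq_le_sq ?_ (by positivity)
  rw [EuclideanSpace.real_norm_sq_eq, Fin.sum_univ_four]
  linarith [h 0, h 1, h 2, h 3]

variable {O : Set R4} {g g' h : R4 → ℝ} {α β ρ c : ℝ}

theorem c1_zero : C1 O 0 := ⟨HasCompactSupport.zero, contDiff_const, by simp⟩

theorem c1_add (hg : C1 O g) (hg' : C1 O g') : C1 O (g + g') :=
  ⟨hg.1.add hg'.1, hg.2.1.add hg'.2.1, (tsupport_add _ _).trans (union_subset hg.2.2 hg'.2.2)⟩

theorem c1_smul (hg : C1 O g) (t : ℝ) : C1 O (t • g) :=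
  ⟨hg.1.smul_left (f := fun _ => t), hg.2.1.const_smul t,
    (tsupport_smul_subset_right (fun _ => t) g).trans hg.2.2⟩

theorem c1_sh (hh : C1 (Bx β) h) {y : R4} (hy : y ∈ Bx α) (e : α + β ≤ ρ) :
    C1 (Bx ρ) fun z => h (z - y) := by
  refine ⟨hh.1.comp_homeomorph (Homeomorph.subRight y), hh.2.1.comp (by fun_prop), fun z hz l => ?_⟩
  have := hh.2.2 (tsupport_comp_subset_preimage h (f := fun z => z - y) (by fun_prop) hz) l
  have a := abs_add_le (z l - y l) (y l)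
  simp only [PiLp.sub_apply, sub_add_cancel] at this a
  linarith [hy l]

theorem c1_sc (hg : C1 (Bx α) g) {r : ℝ} (r0 : 0 < r) : C1 (Bx (r * α)) fun y => g (r⁻¹ • y) := by
  refine ⟨hg.1.comp_smul (inv_ne_zero r0.ne'), hg.2.1.comp (by fun_prop), fun z hz l => ?_⟩
  have := hg.2.2 (tsupport_comp_subset_preimage g (f := fun z => r⁻¹ • z) (by fun_prop) hz) l
  rwa [PiLp.smul_apply, smul_eq_mul, abs_mul, abs_of_pos (inv_pos.2 r0), inv_mul_lt_iff₀ r0] at this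

/-- the convolution -/
abbrev cv (g h : R4 → ℝ) : R4 → ℝ := convolution g h (ContinuousLinearMap.mul ℝ ℝ) volume

theorem cv_comm (g h : R4 → ℝ) : cv g h = cv h g := by
  ext x
  rw [cv, cv, convolution_mul_swap, convolution_mul]
  simp only [mul_comm]

theorem c1_cv (hg : C1 (Bx α) g) (hh : C1 (Bx β) h) (e : α + β ≤ ρ) : C1 (Bx ρ) (cv g h) := by
  refine ⟨hg.1.convolution _ hh.1, hh.1.contDiff_convolution_right _
    hg.2.1.continuous.locallyIntegrable hh.2.1, (closure_minimal ((support_convolution_subset _).trans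
      (add_subset_add subset_closure subset_closure)) (hg.1.isCompact.add hh.1).isClosed).trans ?_⟩
  rintro _ ⟨x, hx, y, hy, rfl⟩ l
  have := abs_add_le (x l) (y l)
  simp only [PiLp.add_apply]
  linarith [hg.2.2 hx l, hh.2.2 hy l]

theorem fd_cv (hg : C1 O g) (hh : C1 (Bx β) h) (z u : R4) :
    fderiv ℝ (cv g h) z u = ∫ y, g y * fderiv ℝ h (z - y) u := by
  have i := hg.2.1.continuous.locallyIntegrable (μ := volume)
  rw [(hh.1.hasFDerivAt_convolution_right _ i hh.2.1 z).fderiv, convolution_precompR_apply _ i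
    (hh.1.fderiv ℝ) (hh.2.1.continuous_fderiv one_ne_zero), convolution_mul]

variable {X : Type} [NormedAddCommGroup X] [NormedSpace ℂ X] {F : (R4 → ℝ) → C4 → X} {v : C4}
  {G G' : R4 → X}

theorem cont (hg : C1 O g) (hO : IsOpen O) (hG : ContinuousOn G O) :
    Continuous fun y => (g y : ℂ) • G y :=
  ((continuous_ofReal.comp hg.2.1.continuous).continuousOn.smul hG).continuous_of_tsupport_subset hO
    ((closure_mono (Function.support_subset_iff'.2 fun y hy => by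
      simp [Function.notMem_support.1 hy])).trans hg.2.2)

theorem intg (hg : C1 O g) (hO : IsOpen O) (hG : ContinuousOn G O) :
    Integrable fun y => (g y : ℂ) • G y :=
  (cont hg hO hG).integrable_of_hasCompactSupport (hg.1.mono fun y hy e => hy (by simp [e]))

theorem zero (hF : Dist ρ c F) (hv : v ∈ ball (0 : C4) ρ) : F 0 v = 0 := by
  simpa using hF.bd 0 0 c1_zero (LipschitzWith.const 0) v hv

variable [NormedSpace ℝ X] [IsScalarTower ℝ ℂ X] [CompleteSpace X]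

theorem appr (hg : C1 O g) (hO : IsOpen O) (hG : ContinuousOn G O) (hG' : ContinuousOn G' O) {ε : ℝ}
    (e : ∀ y ∈ O, ‖G y - G' y‖ ≤ ε) :
    ‖(∫ y, (g y : ℂ) • G y) - ∫ y, (g y : ℂ) • G' y‖ ≤ ε * ∫ y, |g y| := by
  rw [← integral_sub (intg hg hO hG) (intg hg hO hG'), ← integral_const_mul]
  refine norm_integral_le_of_norm_le
    ((hg.2.1.continuous.integrable_of_hasCompactSupport hg.1).abs.const_mul _) (ae_of_all _ fun y => ?_)
  rw [← smul_sub, norm_smul, norm_real, Real.norm_eq_abs, mul_comm]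
  by_cases hy : g y = 0
  · simp [hy]
  · exact mul_le_mul_of_nonneg_right (e y (hg.2.2 (subset_closure hy))) (abs_nonneg _)

theorem mem_ball (hv : ‖v‖ + α ≤ ρ) {y : R4} (hy : y ∈ Bx α) : v + rl y ∈ ball (0 : C4) ρ :=
  mem_ball_zero_iff.2 ((norm_add_le _ _).trans_lt (by linarith [rl_lt hy]))

theorem cont_tr {A : C4 → X} (hA : DifferentiableOn ℂ A (ball 0 ρ)) (hv : ‖v‖ + α ≤ ρ) :
    ContinuousOn (fun y => A (v + rl y)) (Bx α) :=
  hA.continuousOn.comp (by fun_prop) fun _ => mem_ball hv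

/-- exchange of the distribution and the convolution integral -/
theorem exch (hF : Dist ρ c F) (c0 : 0 ≤ c) (hg : C1 (Bx α) g) (hh : C1 (Bx β) h) (e : α + β ≤ ρ)
    (α0 : 0 < α) (hv : ‖v‖ + α ≤ ρ) : F (cv g h) v = ∫ y, (g y : ℂ) • F h (v + rl y) := by
  have v1 : v ∈ ball (0 : C4) ρ := mem_ball_zero_iff.2 (by linarith)
  have h1 : C1 (Bx ρ) h := ⟨hh.1, hh.2.1, hh.2.2.trans (Bx.mono (by linarith))⟩
  have d : ∀ {k}, C1 (Bx ρ) k → ∀ z, DifferentiableAt ℝ k z := fun hk z =>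
    hk.2.1.differentiable one_ne_zero z
  let S : Submodule ℝ (C(closedBall (0 : R4) (2 * ρ) × sphere (0 : R4) 1, ℝ) × X) :=
    { carrier := {p | ∃ k, C1 (Bx ρ) k ∧ (∀ z, p.1 z = fderiv ℝ k z.1 z.2) ∧ p.2 = F k v}
      zero_mem' := ⟨0, c1_zero, fun z => by simp, (zero hF v1).symm⟩
      add_mem' := by
        rintro p q ⟨k, k1, k2, k3⟩ ⟨l, l1, l2, l3⟩
        refine ⟨k + l, c1_add k1 l1, fun z => ?_, ?_⟩
        · rw [fderiv_add (d k1 _) (d l1 _), _root_.add_apply, ← k2, ← l2]; rfl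
        · simpa [k3, l3] using (hF.lin k l 1 k1 l1 v v1).symm
      smul_mem' := by
        rintro t p ⟨k, k1, k2, k3⟩
        refine ⟨t • k, c1_smul k1 t, fun z => ?_, ?_⟩
        · rw [fderiv_const_smul (d k1 _), _root_.smul_apply, ← k2]; rfl
        · have := hF.lin 0 k t c1_zero k1 v v1
          rw [zero_add, zero hF v1, zero_add] at this
          rw [this, ← k3]
          exact (algebraMap_smul ℂ t p.2).symm }
  have b : closure S.carrier ⊆ {p | ‖p.2‖ ≤ c * ‖p.1‖} := by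
    refine closure_minimal ?_ (isClosed_le (by fun_prop) (by fun_prop))
    rintro p ⟨k, k1, k2, k3⟩
    have := hF.bd k ‖p.1‖₊ k1 (lipschitzWith_of_nnnorm_fderiv_le (𝕜 := ℝ) (d k1) fun z => ?_) v v1
    · rwa [← k3] at this
    by_cases hz : z ∈ tsupport k
    · exact ContinuousLinearMap.opNorm_le_of_unit_norm (norm_nonneg p.1) fun u hu =>
        k2 (⟨z, Bx_sub (k1.2.2 hz)⟩, ⟨u, mem_sphere_zero_iff_norm.2 hu⟩) ▸ p.1.norm_coe_le_norm _
    · simp [fderiv_of_notMem_tsupport ℝ hz]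
  have dh := hh.2.1.continuous_fderiv one_ne_zero
  let ξ : C(R4, C(closedBall (0 : R4) (2 * ρ) × sphere (0 : R4) 1, ℝ)) :=
    ContinuousMap.curry ⟨fun p => fderiv ℝ h (p.2.1 - p.1) p.2.2, by fun_prop⟩
  have i1 : Integrable fun y => g y • ξ y :=
    (hg.2.1.continuous.smul ξ.continuous).integrable_of_hasCompactSupport hg.1.smul_right
  have i2 := intg hg (open_Bx α) (cont_tr (hF.hol h h1) hv)
  have m1 := int_mem S (i1.prodMk i2) fun y => by
    by_cases hy : g y = 0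
    · simp [hy, ← Prod.zero_eq_mk]
    have y1 := hg.2.2 (subset_closure hy)
    have k1 := c1_sh hh y1 e
    have := S.smul_mem (g y) (x := (ξ y, F h (v + rl y)))
      ⟨_, k1, fun z => by rw [fderiv_comp_sub]; rfl, (hF.cov h y h1 k1 v v1 (mem_ball hv y1)).symm⟩
    rwa [Prod.smul_mk, ← algebraMap_smul ℂ (g y) (F h _)] at this
  have m2 : ((∫ y, g y • ξ y, F (cv g h) v) : _ × X) ∈ S :=
    ⟨_, c1_cv hg hh e, fun z => by
      rw [fd_cv hg hh]
      exact ((ContinuousMap.evalCLM ℝ z).integral_comp_comm i1).symm, rfl⟩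
  have := b (S.topologicalClosure.sub_mem m1 (S.le_topologicalClosure m2))
  rw [integral_pair i1 i2] at this
  exact (sub_eq_zero.1 (by simpa using this)).symm

theorem swap (hF : Dist ρ c F) (c0 : 0 ≤ c) (hg : C1 (Bx α) g) (hh : C1 (Bx β) h) (e : α + β ≤ ρ)
    (α0 : 0 < α) (β0 : 0 < β) (hv : ‖v‖ + α ≤ ρ) (hv' : ‖v‖ + β ≤ ρ) :
    ∫ y, (g y : ℂ) • F h (v + rl y) = ∫ y, (h y : ℂ) • F g (v + rl y) := by
  rw [← exch hF c0 hg hh e α0 hv, ← exch hF c0 hh hg (by linarith) β0 hv', cv_comm]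

/-- smoothing of a bounded holomorphic function -/
theorem smo {A : C4 → X} {r M : ℝ} (hA : DifferentiableOn ℂ A (ball v r))
    (hM : ∀ y ∈ ball v r, ‖A y‖ ≤ M) (hg : C1 (Bx α) g) (e : α ≤ r) (g1 : ∫ y, g y = 1) :
    ‖(∫ y, (g y : ℂ) • A (v + rl y)) - A v‖ ≤ 2 * M / r * α * ∫ y, |g y| := by
  have m : ∀ y ∈ Bx α, v + rl y ∈ ball v r := fun y hy => by
    simpa using (rl_lt hy).trans_le e
  have := appr (G := fun y => A (v + rl y)) (G' := fun _ => A v) hg (open_Bx α)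
    (hA.continuousOn.comp (by fun_prop) m) continuousOn_const (ε := 2 * M / r * α) fun y hy => by
      have r0 := (norm_nonneg _).trans_lt ((rl_lt hy).trans_le e)
      have := (norm_nonneg _).trans (hM v (mem_ball_self r0))
      refine (lip_hol hA hM (m y hy)).trans ?_
      rw [add_sub_cancel_left]
      exact mul_le_mul_of_nonneg_left (rl_lt hy).le (by positivity)
  rwa [integral_smul_const, integral_complex_ofReal, g1, ofReal_one, one_smul] at this

theorem lim_of {A : ℝ → X} {K δ : ℝ} (δ0 : 0 < δ)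
    (h : ∀ r ∈ Ioo 0 δ, ∀ s ∈ Ioo 0 δ, ‖A r - A s‖ ≤ K * (r + s)) :
    ∃ a, ∀ r ∈ Ioo 0 δ, ‖A r - a‖ ≤ K * r := by
  obtain ⟨u, -, u1, u2⟩ := exists_seq_strictAnti_tendsto' δ0
  have t : Tendsto (fun n : ℕ × ℕ => K * (u n.1 + u n.2)) atTop (𝓝 0) := by
    simpa using ((u2.comp (tendsto_fst.mono_left prod_atTop_atTop_eq.ge)).add
      (u2.comp (tendsto_snd.mono_left prod_atTop_atTop_eq.ge))).const_mul K
  obtain ⟨a, ha⟩ := cauchySeq_tendsto_of_complete (u := fun n => A (u n))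
    (cauchySeq_iff_tendsto_dist_atTop_0.2 (squeeze_zero (fun _ => dist_nonneg)
      (fun n => dist_eq_norm (A _) _ ▸ h _ (u1 _) _ (u1 _)) t))
  refine ⟨a, fun r hr => le_of_tendsto_of_tendsto' (ha.const_sub _).norm ?_ fun n => h r hr _ (u1 n)⟩
  simpa using (u2.const_add r).const_mul K

theorem int_sc {Y : Type} [NormedAddCommGroup Y] [NormedSpace ℝ Y] (f : R4 → Y) {r : ℝ} (r0 : 0 < r) :
    ∫ y, r⁻¹ ^ 4 • f (r⁻¹ • y) = ∫ y, f y := by
  rw [integral_smul, Measure.integral_comp_inv_smul_of_nonneg volume f r0.le, smul_smul,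
    finrank_euclideanSpace_fin, ← mul_pow, inv_mul_cancel₀ r0.ne', one_pow, one_smul]

theorem le_of_lin {x y K δ : ℝ} (δ0 : 0 < δ) (h : ∀ r ∈ Ioo 0 δ, x ≤ y + K * r) : x ≤ y := by
  have t : Tendsto (fun r : ℝ => y + K * r) (𝓝[>] 0) (𝓝 (y + K * 0)) :=
    Tendsto.mono_left (Continuous.tendsto (by fun_prop) 0) nhdsWithin_le_nhds
  simpa using ge_of_tendsto t (Eventually.mono (Ioo_mem_nhdsGT δ0) h)

/-- the unit scale -/
theorem one {M : ℝ} {b : R4 → ℝ} (hb : C1 (Bx 3) b) (b1 : ∫ y, b y = 1) (hF : Dist 1 c F)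
    (c0 : 0 ≤ c) (hM : ∀ r ∈ Ioo (0 : ℝ) (1 / 100), ∀ v ∈ ball (0 : C4) (1 / 2),
      ‖F (fun y => r⁻¹ ^ 4 * b (r⁻¹ • y)) v‖ ≤ M) :
    ∃ a : R4 → X, ContinuousOn a (Bx (1 / 4)) ∧ (∀ x ∈ Bx (1 / 4), ‖a x‖ ≤ M) ∧
      ∀ g, C1 (Bx (1 / 4)) g → F g 0 = ∫ x, (g x : ℂ) • a x := by
  obtain ⟨k, hk⟩ : ∃ k : ℝ → R4 → ℝ, k = fun r y => r⁻¹ ^ 4 * b (r⁻¹ • y) := ⟨_, rfl⟩
  have k1 : ∀ {r}, 0 < r → C1 (Bx (r * 3)) (k r) := fun r0 => hk ▸ c1_smul (c1_sc hb r0) _
  have k2 : ∀ {r}, 0 < r → ∫ y, k r y = 1 := fun r0 => hk ▸ (int_sc b r0).trans b1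
  have k3 : ∀ {r}, 0 < r → ∫ y, |k r y| = ∫ y, |b y| := fun {r} r0 => by
    rw [← int_sc (fun y => |b y|) r0, hk]
    simp only [abs_mul, smul_eq_mul, abs_pow, abs_of_pos (inv_pos.2 r0)]
  have k4 : ∀ r ∈ Ioo (0 : ℝ) (1 / 100), DifferentiableOn ℂ (F (k r)) (ball 0 1) := fun r hr =>
    hF.hol _ ⟨(k1 hr.1).1, (k1 hr.1).2.1, (k1 hr.1).2.2.trans (Bx.mono (by linarith [hr.2]))⟩
  replace hM : ∀ r ∈ Ioo (0 : ℝ) (1 / 100), ∀ v ∈ ball (0 : C4) (1 / 2), ‖F (k r) v‖ ≤ M :=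
    hk ▸ hM
  have s : ∀ x ∈ Bx (1 / 4), ball (rl x) (1 / 4) ⊆ ball 0 (1 / 2) := fun x hx =>
    ball_subset_ball' (by rw [dist_zero_right]; linarith [rl_lt hx])
  have e : ∀ x, ∃ a, x ∈ Bx (1 / 4) → ∀ r ∈ Ioo (0 : ℝ) (1 / 100),
      ‖F (k r) (rl x) - a‖ ≤ 24 * M * (∫ y, |b y|) * r := fun x => by
    by_cases hx : x ∈ Bx (1 / 4)
    swap
    · exact ⟨0, fun h => absurd h hx⟩
    have x1 := rl_lt hx
    have q := fun r (hr : r ∈ Ioo (0 : ℝ) (1 / 100)) t (ht : t ∈ Ioo (0 : ℝ) (1 / 100)) =>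
      smo ((k4 r hr).mono ((s x hx).trans (ball_subset_ball (by norm_num))))
        (fun y hy => hM r hr y (s x hx hy)) (k1 ht.1) (by linarith [ht.2]) (k2 ht.1)
    refine (lim_of (by norm_num) fun r hr t ht => ?_).imp fun a h _ => h
    have q1 := q r hr t ht
    have q2 := q t ht r hr
    rw [swap hF c0 (k1 hr.1) (k1 ht.1) (by linarith [hr.2, ht.2]) (by linarith [hr.1])
      (by linarith [ht.1]) (by linarith [hr.2]) (by linarith [ht.2]), k3 hr.1] at q2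
    rw [norm_sub_rev, k3 ht.1] at q1
    refine (norm_sub_le_norm_sub_add_norm_sub _ _ _).trans ((add_le_add q1 q2).trans_eq ?_)
    ring
  choose a ha using e
  have cr : ∀ r ∈ Ioo (0 : ℝ) (1 / 100), ContinuousOn (fun y => F (k r) (0 + rl y)) (Bx (1 / 4)) :=
    fun r hr => cont_tr (k4 r hr) (by norm_num)
  have ca : ContinuousOn a (Bx (1 / 4)) := by
    have t : Tendsto (fun r : ℝ => 24 * M * (∫ y, |b y|) * r) (𝓝[>] 0) (𝓝 0) := by
      simpa using (tendsto_id.const_mul (24 * M * ∫ y, |b y|)).mono_left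
        (nhdsWithin_le_nhds (a := (0 : ℝ)) (s := Ioi 0))
    refine TendstoUniformlyOn.continuousOn (p := 𝓝[>] (0 : ℝ))
      (F := fun r y => F (k r) (0 + rl y)) (tendstoUniformlyOn_iff.2 fun ε ε0 => ?_)
      (Eventually.frequently (Eventually.mono (Ioo_mem_nhdsGT (by norm_num)) cr))
    filter_upwards [Ioo_mem_nhdsGT (show (0 : ℝ) < 1 / 100 by norm_num), t.eventually_lt_const ε0]
      with r hr h1 x hx
    rw [dist_comm, dist_eq_norm, zero_add]
    exact (ha x hx r hr).trans_lt h1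
  refine ⟨a, ca, fun x hx => le_of_lin (by norm_num) fun r hr => (norm_le_insert _ _).trans
    (add_le_add (hM r hr _ (s x hx (mem_ball_self (by norm_num)))) (ha x hx r hr)), fun g hg => ?_⟩
  obtain ⟨L, hL⟩ := hg.2.1.lipschitzWith_of_hasCompactSupport hg.1 one_ne_zero
  have g1 : C1 (Bx 1) g := ⟨hg.1, hg.2.1, hg.2.2.trans (Bx.mono (by norm_num))⟩
  refine sub_eq_zero.1 (norm_le_zero_iff.1 (le_of_lin (δ := 1 / 100) (K := 6 * (c * L) *
    (∫ y, |b y|) + 24 * M * (∫ y, |b y|) * ∫ y, |g y|) (by norm_num) fun r hr => ?_))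
  have q1 := smo (hF.hol g g1) (hF.bd g L g1 hL) (k1 hr.1) (by linarith [hr.2]) (k2 hr.1)
  have q2 := appr hg (open_Bx _) (cr r hr) ca fun y hy => (zero_add (rl y)).symm ▸ ha y hy r hr
  rw [swap hF c0 (k1 hr.1) hg (by linarith [hr.2]) (by linarith [hr.1]) (by norm_num)
    (by rw [norm_zero]; linarith [hr.2]) (by norm_num), norm_sub_rev, k3 hr.1] at q1
  refine (norm_sub_le_norm_sub_add_norm_sub _ _ _).trans ((add_le_add q1 q2).trans_eq ?_)
  ring

theorem rl_smul (t : ℝ) (x : R4) : rl (t • x) = (t : ℂ) • rl x := by ext; simp [rl]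

theorem scale (hF : Dist ρ c F) (ρ0 : 0 < ρ) :
    Dist 1 (c / ρ) fun g v => F (fun y => g (ρ⁻¹ • y)) ((ρ : ℂ) • v) := by
  have s : ∀ {g}, C1 (Bx 1) g → C1 (Bx ρ) fun y => g (ρ⁻¹ • y) := fun hg =>
    by simpa only [mul_one] using c1_sc hg ρ0
  have m : ∀ v ∈ ball (0 : C4) 1, (ρ : ℂ) • v ∈ ball (0 : C4) ρ := fun v hv => by
    rw [mem_ball_zero_iff] at hv ⊢
    rw [norm_smul, norm_real, Real.norm_of_nonneg ρ0.le]
    exact mul_lt_of_lt_one_right ρ0 hv
  refine ⟨fun g g' t hg hg' v hv => hF.lin _ _ t (s hg) (s hg') _ (m v hv), fun g L hg hL v hv => ?_,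
    fun g hg => (hF.hol _ (s hg)).comp (by fun_prop) m, fun g u hg hu v hv hv' => ?_⟩
  · refine (hF.bd _ _ (s hg) (hL.comp (lipschitzWith_smul ρ⁻¹)) _ (m v hv)).trans_eq ?_
    rw [NNReal.coe_mul, coe_nnnorm, Real.norm_of_nonneg (inv_pos.2 ρ0).le]
    ring
  · have e : (fun y : R4 => g (ρ⁻¹ • y - u)) = fun y => g (ρ⁻¹ • (y - ρ • u)) := by
      simp only [smul_sub, inv_smul_smul₀ ρ0.ne']
    have := m _ hv'
    rw [smul_add, ← rl_smul] at this ⊢
    beta_reduce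
    rw [e]
    exact hF.cov _ (ρ • u) (s hg) (e ▸ s hu) _ (m v hv) this

end Db

open Db in
theorem sDens_of (h : S_Da) : S_Dens := by
  obtain ⟨C, b, hb, b1, h⟩ := h
  refine ⟨|C|, 5, abs_nonneg C, fun X _ _ _ _ _ c F ρ hρ c0 hF => ?_⟩
  have ρ0 := hρ.1
  have c1 := div_nonneg c0 ρ0.le
  obtain ⟨a, a1, a2, a3⟩ := one hb b1 (scale hF ρ0) c1 (h X _ _ c1 (scale hF ρ0))
  have m : ∀ x ∈ Bx (ρ / 4), ρ⁻¹ • x ∈ Bx (1 / 4) := fun x hx l => by
    rw [PiLp.smul_apply, smul_eq_mul, abs_mul, abs_of_pos (inv_pos.2 ρ0), inv_mul_lt_iff₀ ρ0]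
    linarith [hx l]
  refine ⟨fun x => ρ⁻¹ ^ 4 • a (ρ⁻¹ • x), (a1.comp (by fun_prop) m).const_smul _, fun x hx => ?_,
    fun g hg => ?_⟩
  · rw [norm_smul, Real.norm_of_nonneg (by positivity)]
    refine (mul_le_mul_of_nonneg_left ((a2 _ (m x hx)).trans
      (mul_le_mul_of_nonneg_right (le_abs_self C) c1)) (by positivity)).trans_eq ?_
    field_simp
  · have := c1_sc hg (inv_pos.2 ρ0)
    rw [show ρ⁻¹ * (ρ / 4) = 1 / 4 by field_simp, inv_inv] at this
    have := a3 _ this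
    simp only [smul_inv_smul₀ ρ0.ne', smul_zero] at this
    rw [← int_sc _ ρ0] at this
    simpa only [smul_inv_smul₀ ρ0.ne', smul_comm (ρ⁻¹ ^ 4)] using this

end Pool.Agent.Lib.MP_7f377f_mp.Wm
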