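import Pool.Agent.Lib.MP_7f377f_mp.WmMat
import Pool.Agent.Lib.MP_7f377f_mp.S10KA

/-! Stage 14: Lorentz invariance by complex boosts. -/

noncomputable section

namespace Pool.Agent.Lib.MP_7f377f_mp.Wm

open Filter Topology Set YM7 Matrix Complex

namespace F2

variable {u : R4} {L R : Mat} {n : ℕ}

/-- real boosts -/
def Br (u : R4) (b : ℝ) : Mat := Matrix.of fun μ ν => (if μ = ν then 1 else 0) +
  (Real.cosh b - 1) * (e0 μ * e0 ν + u μ * u ν) + Real.sinh b * (e0 μ * u ν + u μ * e0 ν)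

/-- the component in direction `u` -/
def ud (u : R4) (z : C4) : ℂ := ∑ ν, u ν * z ν

/-- complex boosts -/
def bz (u : R4) (b : ℂ) (z : C4) : C4 :=
  z + ((cosh b - 1) * z 0 + sinh b * ud u z) • rl e0 + ((cosh b - 1) * ud u z + sinh b * z 0) • rl u

theorem e1 : e0 1 = 0 := e0_ne (by decide)

theorem e2 : e0 2 = 0 := e0_ne (by decide)

theorem e3 : e0 3 = 0 := e0_ne (by decide)

theorem un_sq (h : Un u) : u 1 ^ 2 + u 2 ^ 2 + u 3 ^ 2 = 1 := by
  have := EuclideanSpace.real_norm_sq_eq u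
  rw [h.2, Fin.sum_univ_four, h.1] at this
  linarith

theorem bz_zero (h : Un u) (b : ℂ) (z : C4) : bz u b z 0 = cosh b * z 0 + sinh b * ud u z := by
  simp only [bz, rl, Pi.add_apply, Pi.smul_apply, smul_eq_mul, e0_zero, h.1, ofReal_one, ofReal_zero]
  ring

theorem ud_bz (h : Un u) (b : ℂ) (z : C4) : ud u (bz u b z) = cosh b * ud u z + sinh b * z 0 := by
  have := congrArg ofReal (un_sq h)
  push_cast at this
  simp only [ud, bz, rl, Pi.add_apply, Pi.smul_apply, smul_eq_mul, Fin.sum_univ_four, e0_zero, e1,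
    e2, e3, h.1, ofReal_one, ofReal_zero]
  linear_combination ((cosh b - 1) * (u 1 * z 1 + u 2 * z 2 + u 3 * z 3) + sinh b * z 0) * this

theorem bz_add (h : Un u) (b c : ℂ) (z : C4) : bz u (b + c) z = bz u b (bz u c z) := by
  rw [bz.eq_1 u b, bz_zero h, ud_bz h, bz, bz, cosh_add, sinh_add]
  module

theorem bz_id (u : R4) (z : C4) : bz u 0 z = z := by simp [bz]

theorem cact_Br (u : R4) (b : ℝ) (z : C4) : cact (Br u b) z = bz u b z := by
  ext μ
  simp only [cact_apply, Br, of_apply, bz, ud, rl, Pi.add_apply, Pi.smul_apply, smul_eq_mul,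
    ofReal_add, ofReal_mul, ofReal_sub, apply_ite ofReal, ofReal_one, ofReal_zero, add_mul,
    Finset.sum_add_distrib, ite_mul, one_mul, zero_mul, Finset.sum_ite_eq, Finset.mem_univ, if_true,
    ofReal_cosh, ofReal_sinh]
  simp only [Fin.sum_univ_four, e0_zero, e1, e2, e3, ofReal_one, ofReal_zero]
  ring

theorem wick_Rm (h : Un u) (a : ℝ) (z : C4) : wick (Rm u a) *ᵥ z = bz u (a * I) z := by
  ext μ
  fin_cases μ <;>
  simp [wick, Rm, mulVec, dotProduct, bz, ud, rl, Fin.sum_univ_four, e1, e2, e3, h.1, cosh_mul_I,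
    sinh_mul_I] <;> ring_nf <;> simp

theorem rl_inj {x y : R4} (h : rl x = rl y) : x = y := by
  ext μ
  exact ofReal_injective (congrFun h μ)

theorem Br_add (h : Un u) (b c : ℝ) : Br u (b + c) = Br u b * Br u c :=
  act_ext fun x => rl_inj (by
    rw [← cact_rl, ← cact_rl, cact_mul, cact_Br, cact_Br, cact_Br, ofReal_add, bz_add h])

theorem Br_zero (u : R4) : Br u 0 = 1 := by
  ext μ ν
  simp [Br, one_apply]

theorem Br_e0 (h : Un u) (b : ℝ) : act (Br u b) e0 = Real.cosh b • e0 + Real.sinh b • u := by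
  ext μ
  rw [act_e0]
  fin_cases μ <;> simp [Br, h.1, e1, e2, e3]

/-- the metric -/
def η : Mat := diagonal ![1, -1, -1, -1]

theorem Br_η (h : Un u) (b : ℝ) : η * Br u b = Br u (-b) * η := by
  ext μ ν
  rw [η, diagonal_mul, mul_diagonal]
  fin_cases μ <;> fin_cases ν <;> simp [Br, h.1, e1, e2, e3]

theorem Br_tr (u : R4) (b : ℝ) : (Br u b)ᵀ = Br u b := by
  ext μ ν
  simp only [Br, of_apply, transpose_apply, eq_comm (a := μ)]
  ring

theorem mink_η (x y : R4) : mink x y = inner ℝ x (act η y) := by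
  simp [mink, inner_eq, act_apply, η, Fin.sum_univ_four]
  ring

theorem lor_Br (h : Un u) (b : ℝ) : Lor (Br u b) := by
  have e : ∀ b, Br u b * η * Br u b = η := fun b => by
    rw [Matrix.mul_assoc, Br_η h, ← Matrix.mul_assoc, ← Br_add h, add_neg_cancel, Br_zero,
      Matrix.one_mul]
  refine ⟨fun x y => ?_, ?_, by simpa [Br, h.1] using Real.cosh_pos b⟩
  · rw [mink_η, real_inner_comm, inner_act, real_inner_comm, Br_tr, ← act_mul, ← act_mul, e, mink_η]
  · have := congrArg det (e (b / 2))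
    rw [det_mul, det_mul, η, det_diagonal, Fin.prod_univ_four] at this
    rw [← add_halves b, Br_add h, det_mul]
    simp at this
    linarith

theorem exists_Br (h : Lor L) : ∃ u b, Un u ∧ act (Br u b) e0 = act L e0 := by
  set v := act L e0
  obtain ⟨u, hu, e⟩ : ∃ u, Un u ∧ ‖sp v‖ • u = sp v := by
    by_cases h0 : sp v = 0
    · exact ⟨EuclideanSpace.single 1 1, ⟨by simp, by simp⟩, by simp [h0]⟩
    · have := norm_ne_zero_iff.2 h0
      exact ⟨‖sp v‖⁻¹ • sp v, ⟨by simp [sp_zero], norm_smul_inv_norm h0⟩, smul_inv_smul₀ this _⟩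
  refine ⟨u, Real.arsinh ‖sp v‖, hu, ?_⟩
  have h1 : mink v v = 1 := by rw [h.1, mink_e0, e0_zero]
  rw [mink_self] at h1
  rw [Br_e0 hu, Real.sinh_arsinh, e, Real.cosh_arsinh, show 1 + ‖sp v‖ ^ 2 = v 0 ^ 2 by linarith,
    Real.sqrt_sq (mg_pos_iff.1 (lor_e0 h)).1.le, sp, add_sub_cancel]

theorem inner_mink (x y : R4) : inner ℝ x y = 2 * mink e0 x * mink e0 y - mink x y := by
  simp only [mink_e0, inner_eq, Fin.sum_univ_four]
  rw [mink]
  ring

theorem so_of (h : Lor R) (h0 : act R e0 = e0) : SO R := by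
  refine ⟨act_ext fun y => ext_inner_left ℝ fun x => ?_, h.2.1⟩
  have e : ∀ x, mink e0 (act R x) = mink e0 x := fun x => by rw [← h.1 e0 x, h0]
  rw [act_mul, inner_act, transpose_transpose, act_one, inner_mink, inner_mink, e, e, h.1]

theorem wick_of (h : Lor R) (h0 : act R e0 = e0) (z : C4) : wick R *ᵥ z = cact R z := by
  have c : ∀ μ, R μ 0 = e0 μ := fun μ => by rw [← act_e0 R, h0]
  have r : ∀ μ, R 0 μ = e0 μ := fun μ => by
    have h1 : act Rᵀ e0 = e0 := by
      conv_lhs => rw [← h0, ← act_mul, (so_of h h0).1, act_one]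
    rw [← h1, act_e0, transpose_apply]
  ext μ
  fin_cases μ <;>
  simp [wick, mulVec, dotProduct, cact_apply, Fin.sum_univ_four, c, r, e1, e2, e3]

variable {w : ∀ n, (Fin n → C4) → ℂ}

theorem one_of (h : E1c w) (hR : SO R) (h0 : 0 < R 0 0) {z : Fin n → C4} (hz : z ∈ Tube n)
    (hz' : (fun i => wick R *ᵥ z i) ∈ Tube n) : w n (fun i => wick R *ᵥ z i) = w n z :=
  (h n R 1 (fun i => ((i : ℕ) : ℝ) • e0) hR (fun i j e => by simpa using e) (fun i j e => by
    simp only [act_smul, PiLp.smul_apply, act_e0, smul_eq_mul]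
    exact mul_lt_mul_of_pos_right (Nat.cast_lt.2 e) h0) z hz hz').symm

theorem boost (hw : DifferentiableOn ℂ (w n) (Tube n)) (h : E1c w) (hu : Un u) (b : ℝ)
    {z : Fin n → C4} (hz : z ∈ Tube n) : w n (fun i => cact (Br u b) (z i)) = w n z := by
  have d : Differentiable ℂ fun (s : ℂ) i => bz u s (z i) := by
    unfold bz
    fun_prop
  have e : ∀ᶠ a : ℝ in 𝓝 0, 0 < Real.cos a ∧ (fun i => bz u (a * I) (z i)) ∈ Tube n :=
    .and (Real.continuous_cos.continuousAt.eventually (lt_mem_nhds (by simp)))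
      ((d.continuous.comp (show Continuous fun a : ℝ => a * I by fun_prop)).continuousAt.eventually
        ((isOpen_tube n).mem_nhds (by simpa [bz_id] using hz)))
  obtain ⟨ε, ε0, hε⟩ := Metric.eventually_nhds_iff_ball.1 e
  have k := S10.id_line (U := im ⁻¹' Metric.ball 0 ε) (f := fun s => w n fun i => bz u s (z i))
    (g := fun _ => w n z) (Metric.isOpen_ball.preimage continuous_im)
    ((convex_ball 0 ε).linear_preimage imLm).isPreconnected
    (hw.comp d.differentiableOn fun s hs => by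
      have := lor_tube (lor_Br hu s.re) (hε _ hs).2
      simpa only [cact_Br, ← bz_add hu, re_add_im] using this)
    (differentiableOn_const _) (z := 0) (by simpa using ε0) I_ne_zero
    (e.filter_mono nhdsWithin_le_nhds |>.mono fun a ha => by
      simp only [zero_add, ← wick_Rm hu] at ha ⊢
      exact one_of h (so_Rm hu a) (by simpa [Rm, hu.1] using ha.1) hz ha.2)
  simpa only [cact_Br] using k (show (b : ℂ) ∈ _ by simpa using ε0)

end F2

open F2 in
theorem sF2_of : S_F2 := fun w hw h n L hL z hz => by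
  obtain ⟨u, b, hu, e⟩ := exists_Br hL
  have hR := lor_mul (lor_Br hu (-b)) hL
  have h0 : act (Br u (-b) * L) e0 = e0 := by
    rw [act_mul, ← e, ← act_mul, ← Br_add hu, neg_add_cancel, Br_zero, act_one]
  have k := boost (hw n) h hu b (lor_tube hR hz)
  simp only [← cact_mul, ← Matrix.mul_assoc, ← Br_add hu, add_neg_cancel, Br_zero,
    Matrix.one_mul] at k
  have k' := one_of h (so_of hR h0) hR.2.2 hz (by simpa only [wick_of hR h0] using lor_tube hR hz)
  simp only [wick_of hR h0] at k'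
  exact k.trans k'

end Pool.Agent.Lib.MP_7f377f_mp.Wm
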