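import Pool.Agent.Lib.MP_7f377f_mp.WmA4
import Pool.Agent.Lib.MP_7f377f_mp.WmMat

/-! Stage 14: the representation of the Poincare group. -/

noncomputable section

namespace Pool.Agent.Lib.MP_7f377f_mp.Wm

open MeasureTheory Filter Topology Set Complex YM7

namespace G1

variable {H : Type} [NormedAddCommGroup H] [InnerProductSpace ℂ H] {m n : ℕ}
  {ψ : ∀ n, (Fin n → C4) → H} {Φ : ∀ n, Sw n →L[ℂ] H}

theorem glue_mem {a : Fin m → C4} {b : Fin n → C4} (ha : a ∈ FT m) (hb : b ∈ FT n) :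
    glue a b ∈ Tube (m + n) := mem_tube.2 fun i j e => by
  induction i using Fin.addCases with
  | left i =>
    induction j using Fin.addCases with
    | left j =>
      have := neg_star_mem' (ha.2 j.rev i.rev (Fin.rev_lt_rev.2 e))
      simpa only [glue, Fin.append_left, star_sub, neg_sub] using this
    | right j =>
      simpa only [glue, Fin.append_left, Fin.append_right, sub_eq_add_neg] using
        TO.add (hb.1 j) (TO.tv (neg_star_mem' (ha.1 i.rev)))
  | right i =>
    induction j using Fin.addCases with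
    | left j => exact absurd (show m + i < j from e) (by have := j.2; omega)
    | right j =>
      simpa only [glue, Fin.append_right] using
        hb.2 i j (Nat.lt_of_add_lt_add_left (show m + i < m + j from e))

theorem glue_act (c : R4) (L : Mat) (a : Fin m → C4) (b : Fin n → C4) :
    glue (fun i => rl c + cact L (a i)) (fun i => rl c + cact L (b i)) =
      fun i => cact L (glue a b i) + rl c := funext fun i => by
  induction i using Fin.addCases <;>
    simp only [glue, Fin.append_left, Fin.append_right, star_add, star_rl, cact_star, add_comm]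

theorem mem_ft {x y : Fin n → R4} :
    cxn x y ∈ FT n ↔ (∀ i, 0 < mg (y i)) ∧ ∀ i j, i < j → 0 < mg (y j - y i) := by
  simp only [FT, TO, mem_ofPred_eq, cxn, imv_sub, imv_cx]

theorem dir_mem {η : Fin n → R4} (h : η ∈ Dir n) (x : Fin n → R4) {t : ℝ} (ht : 0 < t) :
    cxn x (t • η) ∈ FT n := by
  obtain ⟨h1, h2⟩ := mem_ft.1 h
  refine mem_ft.2 ⟨fun i => ?_, fun i j e => ?_⟩
  · rw [Pi.smul_apply, mg_smul ht.le]
    exact mul_pos ht (h1 i)
  · rw [Pi.smul_apply, Pi.smul_apply, ← smul_sub, mg_smul ht.le]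
    exact mul_pos ht (h2 i j e)

theorem dir_ne (n : ℕ) : (fun i : Fin n => ((i : ℝ) + 1) • e0) ∈ Dir n :=
  mem_ft.2 ⟨fun i => by rw [mg_e0]; positivity, fun i j e => by
    rw [← sub_smul, mg_e0]
    have : (i : ℝ) < j := by exact_mod_cast e
    linarith⟩

theorem dir_act {L : Mat} (hL : Lor L) {η : Fin n → R4} (h : η ∈ Dir n) :
    (fun i => act L (η i)) ∈ Dir n :=
  mem_ft.2 ⟨fun i => lor_pos hL ((mem_ft.1 h).1 i),
    fun i j e => act_sub L _ _ ▸ lor_pos hL ((mem_ft.1 h).2 i j e)⟩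

theorem bv_lim (h : IsBV ψ Φ) {η : Fin n → R4} (hη : η ∈ Dir n) (F : Sw n) :
    Tendsto (fun t : ℝ => ∫ x, F x • ψ n (cxn x (t • η))) (𝓝[>] 0) (𝓝 (Φ n F)) := by
  obtain ⟨B, hB⟩ := h n η hη F
  refine tendsto_iff_norm_sub_tendsto_zero.2 (squeeze_zero' (.of_forall fun _ => norm_nonneg _)
    (mem_of_superset (Ioc_mem_nhdsGT one_pos) (hB 0 F fun x => by rw [sub_zero])) ?_)
  exact tendsto_nhdsWithin_of_tendsto_nhds (Continuous.tendsto' (by fun_prop) _ _ (mul_zero B))

theorem dense [CompleteSpace H] (h : ∀ x, (∀ n, ∀ z ∈ FT n, inner ℂ x (ψ n z) = 0) → x = 0) :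
    Dense (Submodule.span ℂ (range fun p : Σ n, FT n => ψ p.1 p.2) : Set H) := by
  rw [Submodule.dense_iff_topologicalClosure_eq_top, Submodule.topologicalClosure_eq_top_iff,
    Submodule.eq_bot_iff]
  exact fun x hx => h x fun n z hz => Submodule.inner_left_of_mem_orthogonal
    (Submodule.subset_span (mem_range_self (f := fun p : Σ n, FT n => ψ p.1 p.2) ⟨n, z, hz⟩)) hx

end G1

open G1 in
theorem sG1_of : S_G1 := fun H _ _ _ E Ω ψ w Φ h l b => by
  have d := dense h.total
  have ext : ∀ {A B : H →L[ℂ] H}, (∀ n, ∀ z ∈ FT n, A (ψ n z) = B (ψ n z)) → A = B := fun e =>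
    ContinuousLinearMap.ext_on d (by rintro _ ⟨p, rfl⟩; exact e _ _ p.2.2)
  have : ∀ a L, ∃ V : H →L[ℂ] H, Lor L → (∀ y, ‖V y‖ ≤ ‖y‖) ∧
      ∀ n, ∀ z ∈ FT n, V (ψ n z) = ψ n fun i => rl a + cact L (z i) := fun a L => by
    by_cases hL : Lor L
    · obtain ⟨V, v1, v2⟩ := A4.exists_V (u := fun p : Σ n, FT n => ψ p.1 p.2)
        (v := fun p => ψ p.1 fun i => rl a + cact L (p.2.1 i)) fun p q => by
          rw [h.inn _ _ _ p.2.2 _ q.2.2, h.inn _ _ _ (lor_ft hL a p.2.2) _ (lor_ft hL a q.2.2),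
            glue_act, h.wtr _ fun i => cact L (glue _ _ i), l _ L hL _ (glue_mem p.2.2 q.2.2)]
      exact ⟨V, fun _ => ⟨v1, fun n z hz => v2 ⟨n, z, hz⟩⟩⟩
    · exact ⟨0, fun h => absurd h hL⟩
  choose U hU using this
  have mu : ∀ a L, Lor L → ∀ b M, Lor M → U a L * U b M = U (a + act L b) (L * M) :=
    fun a L hL b M hM => ext fun n z hz => by
      rw [mul_apply_eq_comp, (hU b M hM).2 n z hz, (hU a L hL).2 n _ (lor_ft hM b hz),
        (hU _ _ (lor_mul hL hM)).2 n z hz]
      simp only [cact_add, cact_rl, cact_mul, rl_add, add_assoc]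
  have tr : ∀ a, U a 1 = E (rl a) := fun a => ext fun n z hz => by
    rw [(hU a 1 lor_one).2 n z hz, h.cov n z hz _ (rl_mem a)]
    simp only [cact_one, add_comm]
  have one : U 0 1 = 1 := by rw [tr, rl_zero, h.tub.zero]
  have nr : ∀ a L, Lor L → ∀ x, ‖U a L x‖ = ‖x‖ := fun a L hL x => by
    obtain ⟨M, hM, -, e⟩ := lor_inv hL
    refine le_antisymm ((hU a L hL).1 x) (le_trans (le_of_eq ?_) ((hU (-act M a) M hM).1 _))
    rw [← mul_apply_eq_comp, mu _ _ hM _ _ hL, neg_add_cancel, e, one, one_apply_eq_self]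
  refine ⟨U, fun a L hL => ⟨fun x => ?_, nr a L hL, mu a L hL⟩, cont_ext d (fun p hp =>
    ContinuousLinearMap.opNorm_le_bound _ zero_le_one fun x => by rw [nr _ _ hp, one_mul]) fun q => ?_,
    tr, fun a L hL => ?_, fun a L hL n F F' e => ?_⟩
  · obtain ⟨M, hM, e, -⟩ := lor_inv hL
    refine ⟨U (-act M a) M x, ?_⟩
    rw [← mul_apply_eq_comp, mu _ _ hL _ _ hM, act_neg, ← act_mul, e, act_one, add_neg_cancel, one,
      one_apply_eq_self]
  · exact ((h.hol q.1).continuousOn.comp (f := fun p : R4 × Mat => fun i => rl p.1 + cact p.2 (q.2.1 i))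
      (by fun_prop) fun p hp => lor_ft hp p.1 q.2.2).congr fun p hp => (hU _ _ hp).2 _ _ q.2.2
  · have := (hU a L hL).2 0 0 ⟨fun i => i.elim0, fun i => i.elim0⟩
    rwa [h.nil, h.nil] at this
  · refine tendsto_nhds_unique (((U a L).continuous.tendsto _).comp (bv_lim b (dir_ne n) F))
      ((bv_lim b (dir_act hL (dir_ne n)) F').congr' (eventually_mem_nhdsWithin.mono fun t ht => ?_))
    refine ((int_act hL.2.1 a _).symm.trans (integral_congr_ae (.of_forall fun x => ?_))).trans
      (LinearIsometry.integral_comp_comm (𝕜 := ℂ) ⟨(U a L).toLinearMap, nr a L hL⟩ _)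
    change _ = U a L _
    rw [map_smul, (hU a L hL).2 n _ (dir_mem (dir_ne n) x ht), ← e x]
    refine congrArg (fun z => _ • ψ n z) (funext fun i => ?_)
    simp only [cxn, cact_cx, Pi.smul_apply, act_smul, ← cx_zero, ← cx_add, zero_add]

end Pool.Agent.Lib.MP_7f377f_mp.Wm
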