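import Pool.Agent.Lib.MP_7f377f_mp.WmL1b

/-! Stage 14: locality for compact supports separated in one direction. -/

noncomputable section

namespace Pool.Agent.Lib.MP_7f377f_mp.Wm

open MeasureTheory Filter Topology Set Complex YM7

namespace L1

variable {m n : ℕ} {δ s : ℝ} {H : Type} [NormedAddCommGroup H] [InnerProductSpace ℂ H]
  [CompleteSpace H] {E : C4 → H →L[ℂ] H} {Ω : H} {ψ : ∀ n, (Fin n → C4) → H}
  {w : ∀ n, (Fin n → C4) → ℂ} {Φ : ∀ n, Sw n →L[ℂ] H}

theorem inner_int {A B : Type} [MeasureSpace A] [MeasureSpace B] [SFinite (volume : Measure A)]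
    [SFinite (volume : Measure B)] {u : A → H} {v : B → H} (hu : Integrable u) (hv : Integrable v) :
    inner ℂ (∫ x, u x) (∫ y, v y) = ∫ r : A × B, inner ℂ (u r.1) (v r.2) := by
  rw [Measure.volume_eq_prod, integral_prod _ (hu.op_fst_snd (op := fun x y => inner ℂ x y)
    continuous_inner ⟨1, fun x y => by rw [one_mul]; exact norm_inner_le_norm x y⟩ hv),
    ← inner_conj_symm, ← integral_inner hu, ← integral_conj]
  simp only [integral_inner hv, inner_conj_symm]

theorem star_pt (x : R4) (t : ℝ) : star (pt x t) = pt x (-t) := by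
  rw [pt_cx, pt_cx, star_cx, neg_smul]

theorem pt_add (x : R4) (s t : ℝ) : pt x s + ie t = pt x (s + t) := by
  rw [pt, pt, ie_add, add_assoc]

omit [CompleteSpace H] in
theorem sh1 (V : Vec E Ω ψ w) {a : Fin m → C4} {b : Fin n → C4} (ha : a ∈ FT m) (hb : b ∈ FT n)
    (x : R4) {s t r : ℝ} (s0 : 0 < s) (t0 : 0 < t) (hr : -s + r = t) :
    inner ℂ (ψ m a) (ψ (n + 1) (Fin.cons (pt x t) fun i => b i + ie r)) =
      inner ℂ (ψ (m + 1) (Fin.cons (pt x s) fun i => a i + ie r)) (ψ n b) := by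
  have e : star (pt x s) - -ie r = pt x t := by rw [star_pt, sub_neg_eq_add, pt_add, hr]
  have := V.shift m n (pt x s) (-ie r) a ha b hb (TV.to s0 (pt_mem _ _))
    (e ▸ TV.to t0 (pt_mem _ _))
  rw [e] at this
  simpa only [sub_neg_eq_add, star_neg, star_ie, neg_neg] using this

theorem add_ie {a : Fin m → C4} (ha : a ∈ FT m) (x : R4) {s r : ℝ} (h : s ≤ r) :
    (fun i => a i + ie r - pt x s) ∈ FT m := by
  simpa only [add_sub_assoc] using FT.add ha (TV.mono (sub_nonneg.2 h) (sub_pt (ie_mem r) x s))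

theorem cons_add (p c : C4) (a : Fin m → C4) :
    (fun i => (Fin.cons p a : Fin (m + 1) → C4) i + c) = Fin.cons (p + c) fun i => a i + c := by
  ext1 i
  induction i using Fin.cases <;> rfl

omit [CompleteSpace H] in
theorem sh2 (V : Vec E Ω ψ w) {a : Fin m → C4} {b : Fin n → C4} (ha : a ∈ FT m) (hb : b ∈ FT n)
    (x y : R4) (s0 : 0 < s) :
    inner ℂ (ψ m a) (ψ (n + 2) (c2 (pt x (2 * s)) (pt y (4 * s)) fun i => b i + ie (6 * s))) =
      inner ℂ (ψ (m + 2) (c2 (pt y (2 * s)) (pt x (4 * s)) fun i => a i + ie (6 * s))) (ψ n b) := by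
  have s2 : 0 < 2 * s := by linarith
  have s3 : s ≤ 3 * s := by linarith
  have h := (sh1 V ha (cons_mem.2 ⟨TV.to s0 (pt_mem _ _), add_ie hb y s3⟩) x s0 s2 (r := 3 * s)
    (by ring)).trans (sh1 V (cons_mem.2 ⟨TV.to s0 (pt_mem _ _), add_ie ha x s3⟩) hb y s2 s0
      (by ring))
  simp only [cons_add, pt_add, add_assoc, ← ie_add] at h
  rw [show s + 3 * s = 4 * s by ring, show 3 * s + 3 * s = 6 * s by ring] at h
  exact h

theorem adj (V : Vec E Ω ψ w) (bv : IsBV ψ Φ) {a : Fin m → C4} (ha : a ∈ FT m) {f g f' g' : Tf}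
    (hf : ∀ x, f' x = starRingEnd ℂ (f x)) (hg : ∀ x, g' x = starRingEnd ℂ (g x)) {ξ : H}
    (h : Tendsto (X ψ a g' f') (𝓝[>] 0) (𝓝 ξ)) (F : Sw n) :
    inner ℂ (ψ m a) (Φ (n + 2) (cs f (cs g F))) = inner ℂ ξ (Φ n F) := by
  obtain ⟨δ, d, hd⟩ := FT.exists ha
  let η : Fin (n + 2) → R4 :=
    Fin.cons ((2 : ℝ) • e0) (Fin.cons ((4 : ℝ) • e0) fun i => Phi.et n i + (6 : ℝ) • e0)
  have e : ∀ (x y : R4) (z : Fin n → R4) (s : ℝ), cxn (Fin.cons x (Fin.cons y z)) (s • η) =
      c2 (pt x (2 * s)) (pt y (4 * s)) fun i => cxn z (s • Phi.et n) i + ie (6 * s) := by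
    intro x y z s
    ext1 i
    induction i using Fin.cases with
    | zero => simp [η, cxn, c2, pt_cx, smul_smul, mul_comm]
    | succ i =>
      induction i using Fin.cases with
      | zero => simp [η, cxn, c2, pt_cx, smul_smul, mul_comm]
      | succ i => simp [η, cxn, c2, ie_eq, ← cx_add, smul_smul, mul_comm]
  have hη : η ∈ Dir (n + 2) := by
    refine G1.mem_ft.2 (G1.mem_ft (x := Fin.cons 0 (Fin.cons 0 0)) |>.1 ?_)
    rw [← one_smul ℝ η, e]
    exact c2_mem (TV.to (by norm_num) (pt_mem _ _)) (TV.to (by norm_num) (sub_pt (pt_mem _ _) _ _))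
      (add_ie (G1.dir_mem Phi.et_dir _ one_pos) _ (by norm_num))
  obtain ⟨δ', d', hd'⟩ := FT.exists hη
  have h1 : Tendsto (fun s => ψ m fun i => a i - ie (6 * s)) (𝓝[>] 0) (𝓝 (ψ m a)) := by
    refine (((V.hol m).continuousOn.continuousAt ((isOpen_FT m).mem_nhds ha)).tendsto.comp
      (Continuous.tendsto' (f := fun (s : ℝ) i => a i - ie (6 * s)) ?_ 0 a
        (by simp [ie]))).mono_left nhdsWithin_le_nhds
    unfold ie
    fun_prop
  refine tendsto_nhds_unique (h1.inner (G1.bv_lim bv hη _))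
    ((h.inner (G1.bv_lim bv Phi.et_dir F)).congr' ?_)
  filter_upwards [Ioc_mem_nhdsGT (show 0 < δ / 7 by linarith [d.1])] with s hs
  have s0 := hs.1
  obtain ⟨M, hM⟩ := Phi.good V d'.1 hd' s0
  obtain ⟨M', hM'⟩ := Phi.good V one_pos (Phi.et_mem (n := n)) s0
  have hA : (fun i => a i - ie (6 * s)) ∈ FT m := ⟨fun i => TV.to (by linarith [hs.2])
    (sub_ie_mem (hd.1 i)), fun i j e => by simpa using ha.2 i j e⟩
  rw [X, inner_int (X_int V hd s0 (by linarith [hs.2]) d.2 _ _)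
    (BV.integ (V.hol n) (hM' s le_rfl) F), ← integral_inner (BV.integ (V.hol _) (hM s le_rfl) _),
    int2]
  refine integral_congr_ae (.of_forall fun r => ?_)
  simp only [e, inner_smul_left, inner_smul_right, sh2 V hA (hM' s le_rfl _).1 _ _ s0,
    sub_add_cancel, cs_apply, Fin.cons_zero, Fin.tail_cons, hf, hg, map_mul, conj_conj]
  ring

theorem comm (V : Vec E Ω ψ w) (hE : E1c w) {u : R4} (hu : Un u) {f g : Tf} {K K' : Set R4}
    (hK : IsCompact K) (hK' : IsCompact K') (hf : ∀ x ∉ K, f x = 0) (hg : ∀ x ∉ K', g x = 0)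
    (sep : ∀ x ∈ K, ∀ y ∈ K', |y 0 - x 0| < inner ℝ (y - x) u) {R : ℝ}
    (hR : ∀ x ∈ K ∪ K', 2 * ‖imv (q u (rl x))‖ < R) {a : Fin m → C4} {b : Fin n → C4}
    (ha : a ∈ O u R m) (hb : b ∈ O (-u) R n) :
    Tendsto (fun s => inner ℂ (ψ n b) (X ψ a f g s - X ψ a g f s)) (𝓝[>] 0) (𝓝 0) := by
  obtain ⟨δ, d, hd⟩ := FT.exists ha.1
  let W : ℝ → ℝ → R4 × R4 → ℂ := fun s t p =>
    w _ fun i => q u (glue b (c2 (pt p.1 s) (pt p.2 t) a) i)
  let D : ℝ → R4 × R4 → ℂ := fun s p => f p.1 * g p.2 * (W (2 * s) (4 * s) p - W (4 * s) (2 * s) p)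
  have tb := fun (p : R4 × R4) (hp : p ∈ K ×ˢ K') =>
    tube_q hu ha hb (hR _ (.inl hp.1)) (hR _ (.inr hp.2)) (sep _ hp.1 _ hp.2)
  have z : ∀ p : R4 × R4, p ∉ K ×ˢ K' → f p.1 * g p.2 = 0 := fun p hp => by
    rcases not_and_or.1 hp with h | h
    · rw [hf _ h, zero_mul]
    · rw [hg _ h, mul_zero]
  have cW : ∀ c c' : ℝ, ∀ r : ℝ × R4 × R4, r.2 ∈ K ×ˢ K' →
      ContinuousAt (fun r : ℝ × R4 × R4 => W (c * r.1) (c' * r.1) r.2) r := fun c c' r hr => by
    refine ContinuousAt.comp (g := w _) ((V.whol _).continuousOn.continuousAt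
      ((isOpen_tube _).mem_nhds (tb _ hr _ _))) (Continuous.continuousAt ?_)
    refine continuous_pi fun i => continuous_q.comp ((continuous_apply i).comp ?_)
    exact (Fin.continuous_append _ _).comp
      (continuous_const.prodMk (continuous_c2 a (by fun_prop) (by fun_prop)))
  have cD : Continuous D.uncurry := continuous_of_tsupport fun r hr => by
    have : r.2 ∈ K ×ˢ K' := closure_minimal (t := Prod.snd ⁻¹' (K ×ˢ K')) (fun r hr => by
      by_contra h
      exact hr (show _ * _ = _ by rw [z _ h, zero_mul]))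
      ((hK.prod hK').isClosed.preimage continuous_snd) hr
    exact ContinuousAt.mul (by fun_prop) ((cW 2 4 r this).sub (cW 4 2 r this))
  have h1 := (continuousOn_univ.1 (continuousOn_integral_of_compact_support (μ := volume)
    (s := univ) (hK.prod hK') cD.continuousOn fun s p _ hp =>
      show _ * _ = _ by rw [z _ hp, zero_mul])).tendsto' 0 0 (by simp [D])
  refine (h1.mono_left nhdsWithin_le_nhds).congr' ?_
  filter_upwards [Ioc_mem_nhdsGT (show 0 < δ / 6 by linarith [d.1])] with s hs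
  have s0 := hs.1
  have s1 : 6 * s ≤ δ := by linarith [hs.2]
  have i1 : Integrable _ (volume.prod volume) := X_int V hd s0 s1 d.2 f g
  have i2 : Integrable (fun p : R4 × R4 => (g p.swap.1 * f p.swap.2) •
      ψ (m + 2) (c2 (pt p.swap.1 (2 * s)) (pt p.swap.2 (4 * s)) a)) (volume.prod volume) :=
    (X_int V hd s0 s1 d.2 g f).swap
  have m1 := fun x y => FTd.ft (by linarith) (c2_memd hd s0 s1 x y)
  rw [X, X, Measure.volume_eq_prod, ← integral_prod_swap (fun p : R4 × R4 => (g p.1 * f p.2) • _),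
    ← integral_sub i1 i2]
  refine (integral_congr_ae (.of_forall fun p => ?_)).trans (integral_inner (i1.sub i2) _)
  simp only [Pi.sub_apply, Prod.fst_swap, Prod.snd_swap, inner_sub_right,
    inner_smul_right, mul_comm (g _), ← mul_sub, D]
  by_cases hp : p ∈ K ×ˢ K'
  · rw [V.inn _ _ _ hb.1 _ (m1 _ _), V.inn _ _ _ hb.1 _ (m1 _ _),
      ← glue_swap b (pt p.1 _) (pt p.2 _), e1q hE hu _ (by
        rw [glue_swap]; exact G1.glue_mem hb.1 (m1 _ _)) (tb p hp _ _)]
    exact congrArg (fun t => _ * (t - _))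
      (e1q hE hu 1 (G1.glue_mem hb.1 (m1 _ _)) (tb p hp _ _)).symm
  · rw [z p hp, zero_mul, zero_mul]

omit [CompleteSpace H] in
theorem tot (S : Sys E Ω ψ w) {u : R4} (hu : Un u) (R : ℝ) {x : H}
    (h : ∀ m, ∀ a ∈ O u R m, inner ℂ (ψ m a) x = 0) : x = 0 := S.total x fun m z hz => by
  obtain ⟨a, ha⟩ := O_ne (m := m) hu R
  refine idO (f := fun z => innerSL ℂ x (ψ m z)) (g := fun _ => 0) (isOpen_FT m) (convex_FT m)
    ((innerSL ℂ x).differentiable.comp_differentiableOn (S.hol m)) (differentiableOn_const _) ha.1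
    ?_ hz
  filter_upwards [(isOpen_O R).mem_nhds ha] with y hy using inner_eq_zero_symm.1 (h m y hy)

end L1

open L1 in
theorem sL1_of (h : S_BV) : S_L1 := by
  intro H _ _ _ E Ω ψ w Φ S hE bv u hu f g hf hg sep n F
  have V := S.toSys0.toVec
  obtain ⟨f', hf'⟩ := exists_conj f
  obtain ⟨g', hg'⟩ := exists_conj g
  obtain ⟨B, hB⟩ := (hf.isCompact.union hg.isCompact).exists_bound_of_continuousOn
    (f := fun x => imv (q u (rl x))) (by fun_prop)
  refine sub_eq_zero.1 (tot S hu (2 * B + 1) fun m a ha => ?_)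
  obtain ⟨ξ, h1⟩ := X_lim h V ha.1 f' g'
  obtain ⟨ξ', h2⟩ := X_lim h V ha.1 g' f'
  have : ξ = ξ' := sub_eq_zero.1 (tot S (un_neg hu) (2 * B + 1) fun k b hb =>
    tendsto_nhds_unique (tendsto_const_nhds.inner (h1.sub h2)) (comm V hE hu hf hg
      (fun x hx => by rw [hf', image_eq_zero_of_notMem_tsupport hx, map_zero])
      (fun x hx => by rw [hg', image_eq_zero_of_notMem_tsupport hx, map_zero]) sep
      (fun x hx => by linarith [hB x hx]) ha hb))
  rw [inner_sub_right, adj V bv ha.1 hf' hg' h2, adj V bv ha.1 hg' hf' h1, this, sub_self]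

end Pool.Agent.Lib.MP_7f377f_mp.Wm
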