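import Pool.Agent.Lib.MP_7f377f_mp.WmMat

/-! Stage 14: locality for all spacelike separated supports. -/

noncomputable section

namespace Pool.Agent.Lib.MP_7f377f_mp.Wm

open Filter Topology Set YM7 Metric
open scoped ContDiff Manifold

namespace L2

/-- the property holds for compact supports in `U` -/
def On (N : Tf → Prop) (U : Set R4) : Prop := ∀ f : Tf, HasCompactSupport f → tsupport f ⊆ U → N f

theorem piece {f : Tf} (hf : HasCompactSupport f) {χ : R4 → ℝ} (hχ : ContDiff ℝ ∞ χ) {U : Set R4}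
    (h : ∀ᶠ x in 𝓝ˢ (tsupport f \ U), χ x = 0) :
    ∃ g : Tf, HasCompactSupport g ∧ tsupport g ⊆ U ∧ ∀ x, g x = χ x * f x := by
  have c : HasCompactSupport fun x => (χ x : ℂ) * f x := hf.mul_left
  refine ⟨c.toSchwartzMap ((Complex.ofRealCLM.contDiff.comp hχ).mul f.smooth'), c, fun x hx => ?_,
    fun _ => rfl⟩
  by_contra hU
  refine notMem_tsupport_iff_eventuallyEq.2 ?_ hx
  filter_upwards [h.filter_mono (nhds_le_nhdsSet (mem_sdiff_of_mem
    (tsupport_mul_subset_right (f := fun x => (χ x : ℂ)) hx) hU))] with y hy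
  change (χ y : ℂ) * f y = 0
  rw [hy, Complex.ofReal_zero, zero_mul]

theorem On.union {N : Tf → Prop} (hN : ∀ f g, N f → N g → N (f + g)) {U V : Set R4} (hU : IsOpen U)
    (hV : IsOpen V) (h1 : On N U) (h2 : On N V) : On N (U ∪ V) := fun f hf h => by
  obtain ⟨χ, a, b, -⟩ := exists_contMDiffMap_zero_one_nhds_of_isClosed 𝓘(ℝ, R4) (n := ⊤)
    ((isClosed_tsupport f).sdiff hU) ((isClosed_tsupport f).sdiff hV)
    (disjoint_left.2 fun x hx hx' => (h hx.1).elim hx.2 hx'.2)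
  obtain ⟨g, g1, g2, g3⟩ := piece hf χ.contMDiff.contDiff a
  obtain ⟨k, k1, k2, k3⟩ := piece hf (contDiff_const.sub χ.contMDiff.contDiff) (U := V)
    (b.mono fun x hx => sub_eq_zero.2 hx.symm)
  have e : f = g + k := by
    ext x
    rw [add_apply, g3, k3]
    push_cast
    ring
  exact e ▸ hN _ _ (h1 g g1 g2) (h2 k k1 k2)

theorem pu {ι : Type} {l : Filter ι} {N : ι → Tf → Prop} (h0 : ∀ i, N i 0)
    (hN : ∀ i f g, N i f → N i g → N i (f + g)) {K : Set R4} (hK : IsCompact K)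
    (h : ∀ x ∈ K, ∃ U ∈ 𝓝 x, ∀ᶠ i in l, On (N i) U) : ∀ᶠ i in l, On (N i) K := by
  suffices ∃ U, IsOpen U ∧ K ⊆ U ∧ ∀ᶠ i in l, On (N i) U from
    this.elim fun U hU => hU.2.2.mono fun i hi f f1 f2 => hi f f1 (f2.trans hU.2.1)
  refine hK.induction_on (p := fun A => ∃ U, IsOpen U ∧ A ⊆ U ∧ ∀ᶠ i in l, On (N i) U)
    ⟨∅, isOpen_empty, subset_rfl, .of_forall fun i f _ hf => ?_⟩
    (fun _ _ e ⟨U, a, b, c⟩ => ⟨U, a, e.trans b, c⟩)
    (fun _ _ ⟨U, a, b, c⟩ ⟨V, a', b', c'⟩ => ⟨U ∪ V, a.union a', union_subset_union b b',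
      (c.and c').mono fun i hi => hi.1.union (hN i) a a' hi.2⟩) fun x hx => ?_
  · rw [show f = 0 from SchwartzMap.ext fun x => image_eq_zero_of_notMem_tsupport fun hx => hf hx]
    exact h0 i
  · obtain ⟨U, a, b⟩ := h x hx
    exact ⟨interior U, mem_nhdsWithin_of_mem_nhds (interior_mem_nhds.2 a), _, isOpen_interior,
      subset_rfl, b.mono fun i hi f f1 f2 => hi f f1 (f2.trans interior_subset)⟩

theorem cut (f : Tf) : ∃ F : ℕ → Tf,
    (∀ e, HasCompactSupport (F e) ∧ tsupport (F e) ⊆ tsupport f) ∧ Tendsto F atTop (𝓝 f) := by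
  let b : ContDiffBump (0 : R4) := ⟨1, 2, one_pos, one_lt_two⟩
  let B : Tf := (b.hasCompactSupport.comp_left (g := Complex.ofReal) rfl).toSchwartzMap
    (Complex.ofRealCLM.contDiff.comp b.contDiff)
  let p : ℕ → R4 →L[ℝ] R4 := fun e => ((e : ℝ) + 1)⁻¹ • .id ℝ R4
  have n : ∀ e x, ‖p e x‖ = ‖x‖ / (e + 1) := fun e x => by
    change ‖((e : ℝ) + 1)⁻¹ • x‖ = _
    rw [norm_smul, Real.norm_of_nonneg (by positivity), inv_mul_eq_div]
  have c : ∀ e, HasCompactSupport fun x => B (p e x) * f x := fun e =>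
    .intro (isCompact_closedBall 0 (2 * (e + 1))) fun x hx => mul_eq_zero_of_left (by
      refine Complex.ofReal_eq_zero.2 (b.zero_of_le_dist ?_)
      rw [dist_zero_right, n, le_div_iff₀ (by positivity)]
      exact (not_le.1 (mt mem_closedBall_zero_iff.2 hx)).le) _
  let F : ℕ → Tf := fun e => (c e).toSchwartzMap ((B.smooth'.comp (p e).contDiff).mul f.smooth')
  refine ⟨F, fun e => ⟨c e, tsupport_mul_subset_right (f := fun x => B (p e x))⟩,
    ((schwartz_withSeminorms ℂ R4 ℂ).tendsto_nhds _ _).2 fun ⟨k, l⟩ ε e0 => ?_⟩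
  set s := max (k + 1) l
  set C := 2 ^ s * (nr _ s B * nr _ s f) + nr _ s f
  have C0 : 0 ≤ C := by positivity
  filter_upwards [(tendsto_const_div_atTop_nhds_zero_nat C |>.comp
    (tendsto_add_atTop_nat 1)).eventually (gt_mem_nhds e0)] with e he
  refine lt_of_le_of_lt (SchwartzMap.seminorm_le_bound ℂ k l _ (div_nonneg C0 (Nat.cast_nonneg _))
    fun x => ?_) he
  have e1 : (0 : ℝ) < e + 1 := by positivity
  simp only [Nat.cast_add, Nat.cast_one]
  by_cases hx : ‖x‖ < e + 1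
  · have z : ⇑(F e - f) =ᶠ[𝓝 x] fun _ => 0 := by
      filter_upwards [continuous_norm.continuousAt.eventually (gt_mem_nhds hx)] with y hy
      change (b (p e y) : ℂ) * f y - f y = 0
      rw [b.one_of_mem_closedBall (mem_closedBall_zero_iff.2 (n e y ▸ (div_le_one e1).2 hy.le)),
        Complex.ofReal_one, one_mul, sub_self]
    rw [(z.iteratedFDeriv ℝ l).self_of_nhds, iteratedFDeriv_fun_zero, Pi.zero_apply, norm_zero,
      mul_zero]
    positivity
  · have h1 := ten_le (p e) (.id ℝ R4) (ContinuousLinearMap.opNorm_le_bound _ zero_le_one fun y => by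
        rw [n, one_mul]; exact div_le_self (norm_nonneg _) (by linarith [e.cast_nonneg (α := ℝ)]))
      ContinuousLinearMap.norm_id_le (fun y => le_max_right _ _) (le_max_left (k + 1) l)
      (le_max_right _ _) B f x
    have h2 := le_nr (le_max_left (k + 1) l) (le_max_right _ _) f x
    have h3 : ‖iteratedFDeriv ℝ l (F e - f) x‖ ≤
        ‖iteratedFDeriv ℝ l (F e) x‖ + ‖iteratedFDeriv ℝ l f x‖ := by
      exact (congrArg _ (iteratedFDeriv_sub_apply ((F e).smooth l).contDiffAt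
        (f.smooth l).contDiffAt)).trans_le (norm_sub_le _ _)
    rw [le_div_iff₀ e1]
    calc _ ≤ ‖x‖ ^ k * (‖iteratedFDeriv ℝ l (F e) x‖ + ‖iteratedFDeriv ℝ l f x‖) * ‖x‖ := by
          gcongr
          exact not_lt.1 hx
      _ ≤ C := by
          rw [mul_right_comm, ← pow_succ, mul_add]
          exact add_le_add h1 h2

theorem of_on {H : Type} [TopologicalSpace H] [T2Space H] {A B : Tf → H} (hA : Continuous A)
    (hB : Continuous B) {f : Tf} (h : On (fun g => A g = B g) (tsupport f)) : A f = B f :=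
  let ⟨_, h1, h2⟩ := cut f
  tendsto_nhds_unique ((hA.tendsto f).comp h2)
    (((hB.tendsto f).comp h2).congr fun e => (h _ (h1 e).1 (h1 e).2).symm)

theorem sep {x y : R4} (h : mink (x - y) (x - y) < 0) : ∃ u, Un u ∧ ∃ U ∈ 𝓝 x, ∃ V ∈ 𝓝 y,
    ∀ a ∈ U, ∀ b ∈ V, |b 0 - a 0| < inner ℝ (b - a) u := by
  have h1 : |y 0 - x 0| < ‖sp (y - x)‖ := by
    refine abs_lt_of_sq_lt_sq ?_ (norm_nonneg _)
    rw [sp_sq]
    simp only [mink, PiLp.sub_apply] at h ⊢
    linarith
  have h2 : sp (y - x) ≠ 0 := norm_pos_iff.1 ((abs_nonneg _).trans_lt h1)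
  have h3 : inner ℝ (y - x) (‖sp (y - x)‖⁻¹ • sp (y - x)) = ‖sp (y - x)‖ := by
    have : inner ℝ (y - x) (sp (y - x)) = ‖sp (y - x)‖ ^ 2 := by
      rw [sp_sq, inner_eq, Fin.sum_univ_four, sp_zero, sp_ne _ (μ := 1) (by decide),
        sp_ne _ (μ := 2) (by decide), sp_ne _ (μ := 3) (by decide)]
      ring
    rw [inner_smul_right, this]
    field_simp
  refine ⟨‖sp (y - x)‖⁻¹ • sp (y - x), ⟨by simp [sp_zero], norm_smul_inv_norm h2⟩, ?_⟩
  generalize ‖sp (y - x)‖⁻¹ • sp (y - x) = u at h3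
  have o : IsOpen {q : R4 × R4 | |q.2 0 - q.1 0| < inner ℝ (q.2 - q.1) u} :=
    isOpen_lt (by fun_prop) (by fun_prop)
  obtain ⟨U, a, V, b, c⟩ := mem_nhds_prod_iff.1 (o.mem_nhds (x := (x, y)) (h1.trans_eq h3.symm))
  exact ⟨U, a, V, b, fun s hs t ht => c (mk_mem_prod hs ht)⟩

variable {n : ℕ}

theorem cs_add (f g : Tf) (F : Sw n) : cs (f + g) F = cs f F + cs g F :=
  ((csL n).flip F).map_add f g

theorem cs_add' (f : Tf) (F G : Sw n) : cs f (F + G) = cs f F + cs f G := (csL n f).map_add F G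

theorem cs_zero (F : Sw n) : cs 0 F = 0 := ((csL n).flip F).map_zero

theorem cs_zero' (f : Tf) : cs f (0 : Sw n) = 0 := (csL n f).map_zero

end L2

open L2 in
theorem sL2_of : S_L2 := fun H _ _ _ Φ h f g hs n F => by
  have c1 := (Φ (n + 2)).continuous
  refine of_on (A := fun f => Φ _ (cs f (cs g F))) (B := fun f => Φ _ (cs g (cs f F)))
    (c1.comp (continuous_cs_left _))
    (c1.comp ((continuous_cs_right _).comp (continuous_cs_left _))) fun f' f1 f2 => ?_
  refine of_on (A := fun g => Φ _ (cs f' (cs g F))) (B := fun g => Φ _ (cs g (cs f' F)))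
    (c1.comp ((continuous_cs_right _).comp (continuous_cs_left _)))
    (c1.comp (continuous_cs_left _)) fun g' g1 g2 => ?_
  refine (pu (l := pure ()) (N := fun _ g => Φ _ (cs f' (cs g F)) = Φ _ (cs g (cs f' F)))
    (fun _ => by rw [cs_zero, cs_zero, cs_zero'])
    (fun _ a b ha hb => by rw [cs_add, cs_add, cs_add', map_add, map_add, ha, hb]) g1
    fun y hy => ?_) g' g1 subset_rfl
  obtain ⟨V, v1, v2⟩ := eventually_smallSets.1 (pu (l := (𝓝 y).smallSets)
    (N := fun V f => On (fun g => Φ _ (cs f (cs g F)) = Φ _ (cs g (cs f F))) V)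
    (fun _ _ _ _ => by simp only [cs_zero, cs_zero'])
    (fun _ a b ha hb k k1 k2 => by
      simp only [cs_add, cs_add', map_add]
      exact congrArg₂ _ (ha k k1 k2) (hb k k1 k2)) f1 fun x hx => by
      obtain ⟨u, hu, U, a, V, b, c⟩ := sep (hs x (f2 hx) y (g2 hy))
      exact ⟨U, a, eventually_smallSets.2 ⟨V, b, fun t ht p p1 p2 q q1 q2 =>
        h u hu p q p1 q1 (fun s hs r hr => c s (p2 hs) r (ht (q2 hr))) n F⟩⟩)
  exact ⟨V, v1, v2 V subset_rfl f' f1 subset_rfl⟩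

end Pool.Agent.Lib.MP_7f377f_mp.Wm
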