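import Pool.Agent.Lib.MP_7f377f_mp.WmSpecB
import Pool.Agent.Lib.MP_7f377f_mp.LgQB

/-! The operator bound for one field with an explicit radius. -/

noncomputable section

namespace Pool.Agent.Lib.MP_7f377f_mp.Wm

open Filter Topology Set Real YM7 Pur Lg Lg.LgQB MvPolynomial
open scoped NNReal

variable {S : ∀ {k : ℕ}, (Fin k → R4 → ℝ) → ℝ} {S' : Pol →ₗ[ℂ] ℂ}

namespace WmQ1

theorem mon1 (g : R4 → ℝ) : mon (fun _ : Fin 1 => g) = X g := by simp [mon]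

theorem adm1 {g : R4 → ℝ} {O : Set R4} (h : C1 O g) : Adm fun _ : Fin 1 => g :=
  ⟨fun _ => ⟨h.1, h.2.1⟩, fun i j e => (e (Subsingleton.elim i j)).elim⟩

theorem piece (hS : net.St S') (h : ∀ {k} {f : Fin k → R4 → ℝ}, Adm f → S' (mon f) = S f)
    (hL : LinP S') {w u B d : ℝ} (hP : PB S w u B) (u0 : 0 < u) (hw : 2 * u ≤ w) (hd : 2 * w < d)
    {g : R4 → ℝ} {z : R4} (g1 : C1 (Bx d) g) (g2 : LipschitzWith 1 g)
    (g3 : ∀ y, |g y| ≤ 1 ∧ (g y ≠ 0 → ∀ l, |y l - z l| ≤ u / 32)) :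
    net.QB S' (X g) (5 * d) (exp B) := by
  have w0 : 0 < w := by linarith
  by_cases h0 : g = 0
  · exact mon1 g ▸ (qb_zero hS hL (adm1 g1) (by linarith) (fun _ => g1.2.2) (i := 0) h0).mono hS
      (by linarith) (exp_pos _).le
  obtain ⟨x, hx⟩ := Function.ne_iff.1 h0
  have e1 : ‖z - dg (w / 2)‖ ≤ 2 * (2 * d) := dist_eq_norm z _ ▸ dist_le_two fun l => by
    have a1 := abs_le.1 ((g3 x).2 hx l)
    have a2 := abs_lt.1 (g1.2.2 (subset_tsupport _ hx) l)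
    rw [abs_le]
    simp only [dg]
    constructor <;> linarith [a1.1, a1.2, a2.1, a2.2]
  have := (cell hS h hP w0 u0 (M := 1) one_pos (fun (_ : Fin 1) y => g (y + (z - dg (w / 2))))
    (fun _ _ => 0) (fun _ => dg (w / 2)) (fun _ => g1.2.1.comp (contDiff_id.add contDiff_const))
    (fun i j _ => Subsingleton.elim i j) (fun _ _ => by simp)
    (fun _ => ⟨.of_dist_le_mul fun x y => (g2.dist_le_mul _ _).trans_eq (by rw [dist_add_right]),
      fun y => ⟨(g3 _).1, fun hy l => ?_⟩⟩) (fun _ l => ?_)).tau hS (z - dg (w / 2))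
  · rw [τ_mon] at this
    simp only [sub_add_cancel, mon1, Nat.cast_one, mul_one, one_mul] at this
    exact this.mono hS (by linarith) le_rfl
  · have := (g3 _).2 hy l
    rwa [PiLp.add_apply, PiLp.sub_apply, show ∀ a b c : ℝ, a + (b - c) - b = a - c by
      intros; ring] at this
  · simp only [dg]
    push_cast
    constructor <;> linarith

theorem one_bd (hS : net.St S') (h : ∀ {k} {f : Fin k → R4 → ℝ}, Adm f → S' (mon f) = S f)
    (hL : LinP S') {w u B d : ℝ} (hP : PB S w u B) (u0 : 0 < u) {D : ℕ} {K L : ℝ≥0}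
    (hK : ∀ (c : Fin 4 → ℤ) (x : R4), LipschitzWith K fun y => bumpS (u / 32) c (y - x))
    (hw : 2 * u ≤ w) (hd : 2 * w < d) (d1 : d ≤ 1) (hD : u / 32 * D = 1) {f : R4 → ℝ}
    (f1 : C1 (Bx d) f) (f2 : LipschitzWith L f) :
    net.QB S' (X f) (5 * d) ((2 * D + 1) ^ 4 * (1 + 5 + 5 * K) * exp B * L) := by
  have η0 : 0 < u / 32 := by positivity
  have d0 : 0 ≤ 5 * d := by linarith
  have x1 : ∀ y, f y ≠ 0 → ∀ l, |y l| ≤ 1 := fun y hy l =>
    (f1.2.2 (subset_tsupport _ hy) l).le.trans d1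
  have s1 : ∀ y, |f y| ≤ L * 5 := fun y => (sup_le f2 zero_le_two (fun y hy => by
    simpa using dist_le_two (z := 0) (w := 1) (by simpa using x1 y hy)) y).trans_eq (by norm_num)
  obtain ⟨Λ, hΛ⟩ : ∃ Λ : ℝ, Λ = 1 + 5 + 5 * K := ⟨_, rfl⟩
  have Λ0 : 0 < Λ := by rw [hΛ]; positivity
  obtain ⟨g, hg⟩ : ∃ g : (Fin 4 → Fin (2 * D + 1)) → R4 → ℝ, ∀ z, g z =
    fun y => (Λ * L)⁻¹ * (bumpS (u / 32) (fun l => z l - D) (y - 0) * f y) := ⟨_, fun _ => rfl⟩
  have g0 : ∀ z y, g z y ≠ 0 → bumpS (u / 32) (fun l => z l - D) (y - 0) ≠ 0 ∧ f y ≠ 0 :=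
    fun z y hy => mul_ne_zero_iff.1 (right_ne_zero_of_mul (hg z ▸ hy :))
  have g2 : ∀ z, C1 (Bx d) (g z) := fun z => ⟨f1.1.mono fun y hy => (g0 z y hy).2,
    hg z ▸ contDiff_const.mul (((bumpS_smooth _ _).comp
      (contDiff_id.sub contDiff_const)).mul f1.2.1),
    (closure_mono fun y hy => (g0 z y hy).2).trans f1.2.2⟩
  have g3 : f = ∑ z, (Λ * L) • g z := by
    funext y
    by_cases e1 : f y = 0
    · simp [hg, e1]
    · have e2 : (L : ℝ) ≠ 0 := fun u => e1 (by simpa [u] using s1 y)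
      simp only [Finset.sum_apply, Pi.smul_apply, hg, smul_eq_mul,
        mul_inv_cancel_left₀ (mul_ne_zero Λ0.ne' e2), ← Finset.sum_mul]
      rw [sum_bumpS η0 fun l => by simpa [hD] using x1 y e1 l, one_mul]
  have q1 : net.QB S' (∑ z : Fin 4 → Fin (2 * D + 1), ((Λ * L : ℝ) : ℂ) • X (g z)) _ _ :=
    Net.QB.sum hS _ d0 fun z _ => (piece hS h hL hP u0 hw hd (g2 z)
      (z := WithLp.toLp 2 fun l => u / 32 * ((z l : ℤ) - D : ℤ))
      (hg z ▸ hΛ ▸ (norm_piece (by norm_num) (hK _ 0) (fun y => abs_bumpS _ _ _) f2 s1).1)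
      fun y => ⟨hg z ▸ hΛ ▸ (norm_piece (by norm_num) (hK _ 0) (fun y => abs_bumpS _ _ _) f2 s1).2 y,
        fun hy l => by simpa using bumpS_supp η0 (g0 _ y hy).1 l⟩).smul _
  have b1 : Bx d ⊆ Bx (5 * d) := Bx.mono (by linarith)
  have q2 := (Net.qb_null (Submodule.sub_mem _ (mon1 f ▸ mon_mem (adm1 f1) fun _ => f1.2.2.trans b1)
    q1.1) d0 hS fun Z hZ => ?_).add hS q1
  · rw [sub_add_cancel, zero_add] at q2
    refine q2.mono hS le_rfl (le_of_eq ?_)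
    rw [Complex.norm_real, norm_of_nonneg (mul_nonneg Λ0.le L.coe_nonneg), ← hΛ]
    simp only [Finset.sum_const, Finset.card_univ, Fintype.card_fun, Fintype.card_fin, nsmul_eq_mul]
    push_cast
    ring
  · have := PN.one_slot hL Finset.univ (O := Bx d) g2 (fun _ => Λ * L)
      (net.mono hZ (compl_subset_compl.2 b1))
    rw [← g3] at this
    simp only [sub_mul, map_sub, this, Finset.sum_mul, map_sum, smul_mul_assoc, map_smul,
      smul_eq_mul, sub_self]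

end WmQ1

open WmQ1 in
theorem sQ1_of : S_Q1 := by
  intro S S' hS h hL ⟨N, N0, hP⟩
  obtain ⟨e0, hP⟩ := eventually_atTop.1 hP
  obtain ⟨K, hK⟩ := bmp_lip
  obtain ⟨n, hn⟩ := exists_nat_ge N
  refine ⟨5, 65 ^ 4 * (6 + 160 * K) * (108 * 3 ^ e0) ^ (5 + n), 5 + n, by norm_num, by positivity,
    fun d ⟨d0, d1⟩ g L g1 g2 => ?_⟩
  obtain ⟨e, e', a1, a2, a3, a4, a5⟩ := scales e0 1 d0 d1
  have hD : (3 ^ e' : ℝ)⁻¹ / 32 * (32 * 3 ^ e' : ℕ) = 1 := by
    push_cast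
    field_simp
  have u0 : (0 : ℝ) < (3 ^ e')⁻¹ := by positivity
  refine (one_bd hS h hL (B := N * e') (hP e' a2 e a1) u0 (hK _ _ hD)
    (by norm_num at a3 ⊢; linarith) a4 d1 hD g1 g2).mono hS le_rfl
      (mul_le_mul_of_nonneg_right ?_ L.coe_nonneg)
  have b1 : exp (N * e') ≤ (3 ^ e') ^ n := by
    refine (exp_le_exp.2 (mul_le_mul_of_nonneg_right hn e'.cast_nonneg)).trans ?_
    rw [exp_nat_mul, ← exp_one_pow]
    gcongr
    exact exp_one_lt_three.le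
  have u1 : (1 : ℝ) ≤ 3 ^ e' := one_le_pow₀ (by norm_num)
  push_cast at a5 ⊢
  generalize (3 : ℝ) ^ e' = U at *
  have K0 := K.coe_nonneg
  have b2 : 2 * (32 * U) + 1 ≤ 65 * U := by linarith
  have b3 : 1 + 5 + 5 * (K * (32 * U)) ≤ (6 + 160 * K) * U := by linarith
  calc _ ≤ (65 * U) ^ 4 * ((6 + 160 * K) * U) * U ^ n := by gcongr
    _ = 65 ^ 4 * (6 + 160 * K) * U ^ (5 + n) := by ring
    _ ≤ 65 ^ 4 * (6 + 160 * K) * (54 * 3 ^ e0 * ((1 + 1) / d)) ^ (5 + n) := by gcongr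
    _ = _ := by rw [mul_div_assoc, ← div_pow]; congr 2; ring

end Pool.Agent.Lib.MP_7f377f_mp.Wm
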