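import Pool.Agent.Lib.MP_7f377f_mp.P3Inp

/-! Bad events on the unit torus: the abstract bound, numerical estimates, the scales of a run. -/

noncomputable section

namespace Pool.Agent.Lib.MP_7f377f_mp.RG.D3.Pv

open Finset MeasureTheory Real
open RGP (cv ind)

theorem bad_all {d : ℕ} {M : RGP.Model d haar} (B : M.Bad) {u : (RGP.Lk d → S3) → ℝ}
    (hu : RGP.Pot u) {k : ℕ} {m : ℕ → ℤ} {e γ τ V Y X p : ℕ → ℝ}
    (h : ∀ j ≤ k, 16 ≤ m j ∧ 0 ≤ γ j ∧ 0 ≤ τ j ∧ B.Inp u j (m j) (e j) (γ j) (τ j) ∧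
      V j = ((18 * 9 ^ 2 ^ d * m j : ℤ) : ℝ) ^ d ∧
      (∀ i < j, 9 * (9 ^ 2 ^ d * m i * M.rat 0 i) ∣ m j * M.rat 0 j) ∧
      V j * ∑ i ∈ range j, (M.rat i j : ℝ) ^ d * p i ≤ Y j ∧ τ j + Y j ≤ 2⁻¹)
    (h' : ∀ j ≤ k, 2 ^ 9 ^ d * exp (2 * γ j * V j) * Y j ≤ X j ∧ X j ≤ 1 ∧ 0 < p j ∧
      2 * exp (2 * γ j * V j) * (2 ^ d * τ j + X j ^ 2 ^ d) ≤ p j ^ 2 ^ d)
    {N : ℤ} (hN : 0 < N) (hd : ∀ i ≤ k, 2 * (9 * (9 ^ 2 ^ d * m i * M.rat 0 i)) ∣ M.rat 0 k * N) :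
    M.JZ u k (cv N) (ind (B.Bd (k + 1))) ≤
      (∑ i ∈ range (k + 1), ((M.rat i k * N : ℤ) : ℝ) ^ d * p i) * M.JZ u k (cv N) fun _ => 1 := by
  have hR : ∀ i ≤ k, 16 * M.rat 0 i ≤ 9 ^ 2 ^ d * m i * M.rat 0 i := fun i hi =>
    mul_le_mul_of_nonneg_right (by
      nlinarith [one_le_pow₀ (show (1 : ℤ) ≤ 9 by norm_num) (n := 2 ^ d), (h i hi).1])
      (M.rat_pos 0 i).le
  have key : ∀ j ≤ k, B.CB u j (9 ^ 2 ^ d * m j * M.rat 0 j) (p j) := by
    intro j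
    induction j using Nat.strong_induction_on with
    | _ j ih =>
      intro hj
      obtain ⟨a1, a2, a3, a4, a5, a6, a7, a8⟩ := h j hj
      obtain ⟨b1, b2, b3, b4⟩ := h' j hj
      exact (B.level hu (R := fun i => 9 ^ 2 ^ d * m i * M.rat 0 i) a1 a2 a3 a4 a5 (fun i hi =>
        ⟨hR i (by omega), (h' i (by omega)).2.2.1.le, ih i hi (by omega), a6 i hi⟩) a7 a8).2
          _ _ b1 b2 b3 b4
  rw [M.JZ_one hu k fun _ => hN]
  exact B.union hu le_rfl hN fun i hi => ⟨hR i (by omega), key i (by omega), hd i (by omega)⟩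

theorem num_level {Λ Q V : ℝ} (hΛ : 10 ^ 4 ≤ Λ) (hQ : Λ ≤ Q) (hV : Λ * V ≤ Q) (V0 : 0 ≤ V) :
    exp (2 * Λ * V - Λ * Q) + 3 * V * exp (-(Λ * Q)) + V * exp (-(Λ * Q)) ≤ 2⁻¹ ∧
    2 ^ 9 ^ 3 * exp (2 * Λ * V) * (V * exp (-(Λ * Q))) ≤ exp (-(Λ * Q / 2)) ∧
    2 * exp (2 * Λ * V) * (2 ^ 3 * (exp (2 * Λ * V - Λ * Q) + 3 * V * exp (-(Λ * Q))) +
      exp (-(Λ * Q / 2)) ^ 2 ^ 3) ≤ exp (-(Λ * Q / 100)) ^ 2 ^ 3 := by
  have hP : 10 ^ 4 * Q ≤ Λ * Q := mul_le_mul_of_nonneg_right hΛ (by linarith)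
  have hV' : V ≤ Q := by nlinarith
  generalize Λ * Q = P at *
  have e1 : ∀ c x : ℝ, c ≤ x → ∀ y, c * exp y ≤ exp (x + y) := fun c x h y => by
    rw [exp_add]
    exact mul_le_mul_of_nonneg_right (by linarith [add_one_le_exp x]) (exp_pos _).le
  have h1 : exp (2 * Λ * V - P) ≤ exp (3 * Q - P) := exp_le_exp.2 (by linarith)
  have h2 : 3 * V * exp (-P) ≤ exp (3 * Q - P) := e1 _ _ (by linarith) _
  have h3 : V * exp (-P) ≤ exp (3 * Q - P) := e1 _ _ (by linarith) _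
  have h4 : exp (2 * Λ * V) ≤ exp (2 * Q) := exp_le_exp.2 (by linarith)
  refine ⟨?_, ?_, ?_⟩
  · have := (e1 6 6 le_rfl (3 * Q - P)).trans (exp_le_one_iff.2 (by linarith))
    linarith
  · have h5 : (2 : ℝ) ^ 9 ^ 3 ≤ exp ((9 ^ 3 : ℕ) * 1) := by
      rw [exp_nat_mul]
      exact pow_le_pow_left₀ zero_le_two (by linarith [add_one_le_exp 1]) _
    refine (mul_le_mul (mul_le_mul h5 h4 (exp_pos _).le (exp_pos _).le) h3 (by positivity)
      (by positivity)).trans ?_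
    rw [← exp_add, ← exp_add, exp_le_exp]
    push_cast
    linarith
  · rw [← exp_nat_mul, ← exp_nat_mul]
    have h5 : exp ((2 ^ 3 : ℕ) * -(P / 2)) ≤ exp (3 * Q - P) := exp_le_exp.2 (by push_cast; linarith)
    have h6 : 34 * exp (2 * Q + (3 * Q - P)) ≤ exp ((2 ^ 3 : ℕ) * -(P / 100)) :=
      (e1 34 34 le_rfl _).trans (exp_le_exp.2 (by push_cast; linarith))
    refine le_trans (mul_le_mul (mul_le_mul_of_nonneg_left h4 zero_le_two)
      (show _ ≤ 17 * exp (3 * Q - P) by linarith) (by positivity) (by positivity)) ?_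
    rw [exp_add] at h6
    linarith

theorem num_sum {P : ℕ → ℝ} {k : ℕ} (h1 : ∀ i ≤ k, 1 ≤ P i) (h2 : ∀ i < k, 400 * P (i + 1) ≤ P i)
    {j : ℕ} (hj : j ≤ k) : ∑ i ∈ range j, exp (-(P i / 200)) ≤ exp (-P j) := by
  induction j with
  | zero => simpa using (exp_pos _).le
  | succ j ih =>
    have a1 := h1 _ hj
    have a2 := h2 j hj
    have a3 : exp (-P j) ≤ exp (-P (j + 1) + -P (j + 1)) := exp_le_exp.2 (by linarith)
    have a4 : exp (-(P j / 200)) ≤ exp (-P (j + 1) + -P (j + 1)) := exp_le_exp.2 (by linarith)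
    have a5 : 2 * exp (-P (j + 1)) ≤ 1 := by
      rw [exp_neg, mul_inv_le_iff₀ (exp_pos _)]
      linarith [add_one_le_exp (P (j + 1))]
    rw [exp_add] at a3 a4
    rw [sum_range_succ]
    nlinarith [ih (by omega), exp_pos (-P (j + 1))]

theorem LL_ll (v : ℕ) : LL (ll v) = 3 ^ (2 * v + 1) := by
  have : 3 ^ (2 * v + 1) % 2 = 1 := by simp [Nat.pow_mod]
  unfold LL ll
  omega

theorem nn_succ (v : ℕ) : nn (v + 1) = LL (ll v) * nn v := by
  rw [LL_ll, nn, nn]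
  ring

theorem nn_pos (v : ℕ) : 0 < nn v := by unfold nn; positivity

theorem le_LL (v : ℕ) : v ≤ LL (ll v) := by
  have := Nat.lt_pow_self (n := 2 * v + 1) (show 1 < 3 by norm_num)
  rw [LL_ll]
  omega

theorem le_nn (v : ℕ) : v ≤ nn v := by
  have := Nat.lt_pow_self (n := v ^ 2) (show 1 < 3 by norm_num)
  have := Nat.le_self_pow two_ne_zero v
  unfold nn
  omega

theorem LL_succ (v : ℕ) : LL (ll (v + 1)) = 9 * LL (ll v) := by
  rw [LL_ll, LL_ll]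
  ring

theorem nn_le (v : ℕ) : (nn v : ℝ) ≤ exp (LL (ll v)) := by
  have h1 : v ≤ 3 ^ v := (Nat.lt_pow_self (by norm_num)).le
  have h2 : 1 + v ^ 2 * 2 ≤ LL (ll v) := by
    have := Nat.pow_le_pow_left h1 2
    have := Nat.one_le_pow 2 (3 ^ v) (by positivity)
    rw [LL_ll, show 3 ^ (2 * v + 1) = (3 ^ v) ^ 2 * 3 by ring]
    omega
  refine le_trans ?_ (exp_le_exp.2 (Nat.cast_le.2 h2))
  rw [nn, Nat.cast_add, Nat.cast_mul (v ^ 2), exp_add, exp_nat_mul]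
  push_cast
  gcongr <;> linarith [add_one_le_exp 1, add_one_le_exp 2]

theorem one_le_ll (v : ℕ) : 1 ≤ ll v := by
  have h := LL_ll v
  have := Nat.le_self_pow (n := 2 * v + 1) (by omega) 3
  unfold LL at h
  omega

variable {J l : ℕ}

theorem Adm.lq (h : Adm J l) (i : ℕ) : 1 ≤ lq J l i := by
  have h1 := one_le_ll J
  have h2 := h.1
  unfold D3.lq
  unfold LL at h2
  split_ifs
  exacts [by omega, one_le_ll _]

/-- the number of sites per side after `i` steps -/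
def sz (J l i : ℕ) : ℕ := if i = 0 then LL l * nn J else nn (J + 1 - i)

theorem sz_succ {i : ℕ} (h : i ≤ J) : sz J l i = LL (lq J l i) * nn (J - i) := by
  unfold sz lq
  split_ifs with h0
  · rw [h0, Nat.sub_zero]
  · rw [← nn_succ, show J - i + 1 = J + 1 - i by omega]

theorem pd_sz {i k : ℕ} (hk : k ≤ J + 1) (h : i ≤ k) : pd (lq J l) k (sz J l k) i = sz J l i := by
  induction h using Nat.decreasingInduction with
  | self => exact pd_self _ _ _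
  | of_succ i h ih =>
    rw [pd_succ _ h, ih, sz_succ (i := i) (by omega), sz, if_neg i.succ_ne_zero,
      Nat.add_sub_add_right]

theorem Adm.sz_le (h : Adm J l) (i : ℕ) : (sz J l i : ℝ) ≤ exp (LL (ll (J + 1 - i))) := by
  unfold sz
  split_ifs with h0
  · have h1 : (LL l : ℝ) ≤ exp (LL (ll J)) ^ 3 := (Nat.cast_le.2 h.2).trans (by
      rw [Nat.cast_pow]
      exact pow_le_pow_left₀ (by positivity) (by linarith [add_one_le_exp (LL (ll J))]) _)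
    rw [h0, Nat.sub_zero, LL_succ, Nat.cast_mul]
    refine (mul_le_mul h1 (nn_le J) (by positivity) (by positivity)).trans ?_
    rw [← exp_nat_mul, ← exp_add, exp_le_exp]
    push_cast
    linarith [Nat.cast_nonneg (α := ℝ) (LL (ll J))]
  · exact nn_le _

theorem bq_eq (γ : ℝ) (J l i : ℕ) : bq γ J l i = γ * sz J l i := by
  unfold bq sz
  split_ifs <;> simp

theorem aq_eq (γ : ℝ) {i : ℕ} (h : i ≤ J) : aq γ J l i = γ * sz J l i * LL (lq J l i) ^ 2 := by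
  rw [aq, sz_succ h]
  push_cast
  ring

end Pool.Agent.Lib.MP_7f377f_mp.RG.D3.Pv
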