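import Pool.Agent.Lib.MP_7f377f_mp.PHS
import Pool.Agent.Lib.MP_7f377f_mp.WeakChess

/-! Boltzmann weights of cells, Hilbert-Schmidt transfer and the chessboard estimate. -/

namespace Pool.Agent.Lib.MP_7f377f_mp.RGP

open MeasureTheory Measure Function

set_option linter.unusedSectionVars false

variable {d : ℕ}

open Weak in
theorem chess_abs {L : ℕ} [NeZero L] {β : Type} [Fintype β] {m : ℕ} (hL : L = 2 * m)
    (Φ : (Site d L → β) → ℝ) (hpos : ∀ σ, 0 ≤ Φ σ)
    (hshift : ∀ σ a, ∃ π : β → β, Φ (fun x => π (σ (x + a))) = Φ σ)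
    (hcs : ∀ σ k, ∃ τ, Φ σ ^ 2 ≤ Φ (symp m k σ σ) * Φ τ) (σ : Site d L → β) :
    ∃ c, Φ σ ≤ Φ fun _ => c := by
  classical
  have hm : 0 < m := by have := NeZero.pos L; omega
  obtain ⟨σ₀, -, h₀⟩ := Finset.exists_max_image Finset.univ Φ ⟨σ, Finset.mem_univ _⟩
  have hmax : ∀ τ, Φ τ ≤ Φ σ₀ := fun τ => h₀ τ (Finset.mem_univ _)
  have hsym : ∀ τ k, Φ σ₀ ≤ Φ τ → Φ σ₀ ≤ Φ (symp m k τ τ) := by
    intro τ k h
    obtain ⟨τ', h'⟩ := hcs τ k
    rcases (hpos σ₀).eq_or_lt with h0 | h0
    · rw [← h0]; exact hpos _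
    · have h1 : Φ σ₀ * Φ σ₀ ≤ Φ (symp m k τ τ) * Φ σ₀ := by
        have := mul_le_mul_of_nonneg_left (hmax τ') (hpos (symp m k τ τ))
        nlinarith
      exact le_of_mul_le_mul_right h1 h0
  have key : ∀ S : Finset (Fin d), ∃ τ, Φ σ₀ ≤ Φ τ ∧
      ∀ x y : Site d L, (∀ j ∉ S, x j = y j) → τ x = τ y := by
    intro S
    induction S using Finset.induction_on with
    | empty => exact ⟨σ₀, le_rfl, fun x y h => by rw [funext fun j => h j (by simp)]⟩
    | insert k S hk ih =>
      have hQ : ∀ τ : Site d L → β, (∀ x y : Site d L, (∀ j ∉ S, x j = y j) → τ x = τ y) →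
          ∀ x y : Site d L, (∀ j ∉ S, x j = y j) → symp m k τ τ x = symp m k τ τ y := by
        intro τ hτ x y h
        unfold symp
        rw [h k hk]
        split_ifs
        · exact hτ x y h
        · refine hτ _ _ fun j hj => ?_
          by_cases hjk : j = k
          · simp [rc, rf, hjk, h k hk]
          · rw [rc_ne hjk, rc_ne hjk, h j hj]
      have hR : ∀ (τ : Site d L → β) (r : ℕ), r ≤ m → (∀ x y : Site d L,
          (∀ j ∉ insert k S, x j = y j) → (x k).val < r → (y k).val < r → τ x = τ y) →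
          ∀ x y : Site d L, (∀ j ∉ insert k S, x j = y j) →
            ((x k).val < r ∨ L ≤ (x k).val + r) → ((y k).val < r ∨ L ≤ (y k).val + r) →
            symp m k τ τ x = symp m k τ τ y := by
        intro τ r hr hτ
        have red : ∀ x : Site d L, ((x k).val < r ∨ L ≤ (x k).val + r) →
            ∃ x' : Site d L, (∀ j, j ≠ k → x' j = x j) ∧ (x' k).val < r ∧
              symp m k τ τ x = τ x' := by
          intro x hx
          have := ZMod.val_lt (x k)
          rcases hx with hx | hx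
          · exact ⟨x, fun _ _ => rfl, hx, by rw [symp, if_pos (by omega)]⟩
          · exact ⟨rc k x, fun j hj => rc_ne hj x, by rw [rc_val]; omega,
              by rw [symp, if_neg (by omega)]⟩
        intro x y h hx hy
        obtain ⟨x', a1, a2, a3⟩ := red x hx
        obtain ⟨y', b1, b2, b3⟩ := red y hy
        rw [a3, b3]
        refine hτ _ _ (fun j hj => ?_) a2 b2
        have hjk : j ≠ k := fun h => hj (by simp [h])
        rw [a1 j hjk, b1 j hjk, h j hj]
      have inner : ∀ r, r + 1 ≤ m → ∃ τ, Φ σ₀ ≤ Φ τ ∧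
          (∀ x y : Site d L, (∀ j ∉ S, x j = y j) → τ x = τ y) ∧
          ∀ x y : Site d L, (∀ j ∉ insert k S, x j = y j) → (x k).val < r + 1 →
            (y k).val < r + 1 → τ x = τ y := by
        intro r
        induction r with
        | zero =>
          intro _
          obtain ⟨τ, h1, h2⟩ := ih
          refine ⟨τ, h1, h2, fun x y h hx hy => h2 x y fun j hj => ?_⟩
          by_cases hjk : j = k
          · apply ZMod.val_injective
            rw [hjk]; omega
          · exact h j (by simp [hjk, hj])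
        | succ r ihr =>
          intro hr
          obtain ⟨τ, h1, h2, h3⟩ := ihr (by omega)
          obtain ⟨π, hπ⟩ := hshift (symp m k τ τ) (-Pi.single k 1)
          refine ⟨fun x => π (symp m k τ τ (x + -Pi.single k 1)), ?_, fun x y h => ?_,
            fun x y h hx hy => ?_⟩
          · rw [hπ]; exact hsym τ k h1
          · exact congrArg π (hQ τ h2 _ _ fun j hj => by simp only [Pi.add_apply, h j hj])
          · have hv : ∀ z : Site d L, (z k).val < r + 1 + 1 →
                ((z + -Pi.single k 1 : Site d L) k).val < r + 1 ∨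
                  L ≤ ((z + -Pi.single k 1 : Site d L) k).val + (r + 1) := by
              intro z hz
              have e : (z + -Pi.single k 1 : Site d L) k = -(-z k) - 1 := by
                simp [sub_eq_add_neg]
              have := ZMod.val_lt (z k)
              rw [e, val_neg_sub_one, val_neg']
              split_ifs <;> omega
            exact congrArg π (hR τ (r + 1) (by omega) h3 _ _
              (fun j hj => by simp only [Pi.add_apply, h j hj]) (hv x hx) (hv y hy))
      obtain ⟨τ, h1, -, h3⟩ := inner (m - 1) (by omega)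
      rw [Nat.sub_add_cancel hm] at h3
      exact ⟨symp m k τ τ, hsym τ k h1, fun x y h => hR τ m le_rfl h3 x y h (by omega) (by omega)⟩
  obtain ⟨τ, h1, h2⟩ := key Finset.univ
  refine ⟨τ 0, (hmax σ).trans (h1.trans_eq ?_)⟩
  congr 1
  funext x
  exact h2 x 0 (by simp)

variable {G : Type} [MeasurableSpace G] (μ : Measure G) [IsProbabilityMeasure μ]
  [Group G] [MeasurableMul₂ G] [MeasurableInv G] [μ.IsInvInvariant] [μ.IsMulRightInvariant]

theorem mem_box {n x : St d} : x ∈ box n ↔ ∀ i, 0 ≤ x i ∧ x i < n i := by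
  simp [box, Fintype.mem_piFinset]

theorem card_box {n : St d} : (box n).card = ∏ i, (n i).toNat := by
  simp [box, Fintype.card_piFinset]

theorem card_box_mul {m h : St d} (hm : ∀ i, 0 < m i) (h0 : ∀ i, 0 < h i) :
    (box (m * h)).card = (box m).card * (box h).card := by
  simp only [card_box, ← Finset.prod_mul_distrib, Pi.mul_apply]
  exact Finset.prod_congr rfl fun i _ => Int.toNat_mul (hm i).le (h0 i).le

theorem sum_per {n : St d} (hn : ∀ i, 0 < n i) {f : St d → ℝ}
    (hf : ∀ x y, (∀ i, n i ∣ y i - x i) → f x = f y) {ι : Type} (A : Finset ι) (σ : ι → St d)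
    (hi : ∀ a ∈ A, ∀ b ∈ A, (∀ i, n i ∣ σ b i - σ a i) → a = b) (hc : (box n).card ≤ A.card) :
    ∑ a ∈ A, f (σ a) = ∑ x ∈ box n, f x := by
  have h1 : ∀ a ∈ A, (fun i => σ a i % n i) ∈ box n := fun a _ =>
    mem_box.mpr fun i => ⟨Int.emod_nonneg _ (hn i).ne', Int.emod_lt_of_pos _ (hn i)⟩
  have h2 : ∀ a ∈ A, ∀ b ∈ A, (fun i => σ a i % n i) = (fun i => σ b i % n i) → a = b :=
    fun a ha b hb h => hi a ha b hb fun i => Int.ModEq.dvd (congrFun h i)
  refine Finset.sum_bij (fun a _ i => σ a i % n i) h1 h2 (fun x hx => ?_) fun a _ => ?_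
  · obtain ⟨a, ha, e⟩ := Finset.surj_on_of_inj_on_of_card_le (fun a _ i => σ a i % n i) h1
      (fun a b ha hb => h2 a ha b hb) hc x hx
    exact ⟨a, ha, e.symm⟩
  · exact hf _ _ fun i => Int.dvd_emod_sub_self

theorem act_pc_congr {n a a' : St d} (h : ∀ i, n i ∣ a' i - a i) (T : Fin d → Bool)
    (w : Lk d → G) : act T a (pc n w) = act T a' (pc n w) := by
  simp only [act_pc]
  congr 1
  funext e
  refine per_eq.mpr ⟨rfl, fun i => ?_⟩
  convert h i using 1
  simp only [mv]
  split_ifs <;> ring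

/-- indicator vector of the reflected axes -/
def iv (T : Fin d → Bool) : St d := fun i => if T i then 1 else 0

/-- a reflection symmetric potential of the unit cube -/
structure Pot (u : (Lk d → G) → ℝ) : Prop where
  bm : BM u
  dep : DependsOn u (cell 1)
  refl : ∀ T W, u (act T (iv T) W) = u W

variable (u : (Lk d → G) → ℝ)

/-- Boltzmann weight of a box -/
noncomputable def BW (h : St d) (W : Lk d → G) : ℝ := Real.exp (∑ x ∈ box h, u (act T0 x W))

/-- unnormalised expectation on the torus -/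
noncomputable def ZZ (n : St d) (F : (Lk d → G) → ℝ) : ℝ := TI μ n fun W => BW u n W * F W

variable {u}

theorem BW_pos (h : St d) (W : Lk d → G) : 0 < BW u h W := Real.exp_pos _

theorem Pot.bw (hu : Pot u) (h : St d) : BM (BW u h) :=
  (BM.sum fun _ _ => hu.bm.comp (measurable_act _ _)).exp

theorem Pot.bw_dep (hu : Pot u) (h : St d) : DependsOn (BW u h) (cell h) := by
  intro W W' hW
  refine congrArg Real.exp (dep_sum (A := cell h) (fun x hx => dep_act hu.dep fun e he i => ?_) hW)
  have h1 := mem_box.mp hx i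
  have h2 := he i
  simp only [slab, mv, Set.mem_ofPred_eq, Pi.one_apply, Bool.false_eq_true, if_false] at h2 ⊢
  omega

theorem Pot.act (hu : Pot u) (T : Fin d → Bool) (a x : St d) (W : Lk d → G) :
    u (act T0 x (act T a W)) =
      u (act T0 (fun i => if T i then a i - x i - 1 else x i + a i) W) := by
  rw [← hu.refl T (RGP.act T0 _ W), act_act, act_act]
  congr 2
  · funext i; simp
  · funext i
    cases h : T i <;> simp [iv, h]

theorem Pot.tile (hu : Pot u) {n : St d} (hn : ∀ i, 0 < n i) (h : St d) {ι : Type} (A : Finset ι)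
    (T : ι → Fin d → Bool) (b : ι → St d)
    (hi : ∀ a ∈ A, ∀ a' ∈ A, ∀ x ∈ box h, ∀ x' ∈ box h, (∀ i, n i ∣
      (if T a' i then b a' i - x' i - 1 else x' i + b a' i) -
        if T a i then b a i - x i - 1 else x i + b a i) → a = a' ∧ x = x')
    (hc : (box n).card ≤ A.card * (box h).card) (w : Lk d → G) :
    ∏ a ∈ A, BW u h (RGP.act (T a) (b a) (pc n w)) = BW u n (pc n w) := by
  simp only [BW, ← Real.exp_sum, hu.act]
  rw [← Finset.sum_product', ← sum_per hn (f := fun x => u (RGP.act T0 x (pc n w)))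
    (fun x y h => by rw [act_pc_congr h]) (A ×ˢ box h)
    (fun p i => if T p.1 i then b p.1 i - p.2 i - 1 else p.2 i + b p.1 i)
    (fun p hp q hq h => ?_) (by rwa [Finset.card_product])]
  rw [Finset.mem_product] at hp hq
  exact Prod.ext_iff.mpr (hi _ hp.1 _ hq.1 _ hp.2 _ hq.2 h)

theorem eq_of_dvd {n x y : ℤ} (h : n ∣ y - x) (h1 : y - x < n) (h2 : x - y < n) : x = y := by
  have := Int.eq_zero_of_abs_lt_dvd h (by rw [abs_lt]; omega)
  omega

theorem Pot.bw_act (hu : Pot u) {n : St d} (hn : ∀ i, 0 < n i) (T : Fin d → Bool) (a : St d)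
    (w : Lk d → G) : BW u n (RGP.act T a (pc n w)) = BW u n (pc n w) := by
  have := hu.tile hn n (Finset.univ : Finset Unit) (fun _ => T) (fun _ => a)
    (fun _ _ _ _ x hx x' hx' h => ⟨rfl, funext fun i => ?_⟩) (by simp) w
  · simpa using this
  · have h1 := mem_box.mp hx i
    have h2 := mem_box.mp hx' i
    have h3 := h i
    split_ifs at h3
    · have := eq_of_dvd h3 (by omega) (by omega)
      omega
    · have := eq_of_dvd h3 (by omega) (by omega)
      omega

theorem Pot.zz_act (hu : Pot u) {n : St d} (hn : ∀ i, 0 < n i) {F : (Lk d → G) → ℝ}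
    (hF : Measurable F) (T : Fin d → Bool) (a : St d) :
    ZZ μ u n (fun W => F (RGP.act T a W)) = ZZ μ u n F := by
  rw [ZZ, ZZ, ← TI_act μ n (F := fun W => BW u n W * F W) ((hu.bw n).meas.mul hF) T a]
  exact TI_congr μ n fun w => by simp only [hu.bw_act hn]

theorem ZZ_nonneg (n : St d) {F : (Lk d → G) → ℝ} (h : ∀ W, 0 ≤ F W) : 0 ≤ ZZ μ u n F :=
  TI_nonneg μ n fun W => mul_nonneg (BW_pos _ _).le (h W)

theorem Pot.zz_mono (hu : Pot u) (n : St d) {F F' : (Lk d → G) → ℝ} (bF : BM F) (bF' : BM F')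
    (h : ∀ w, F (pc n w) ≤ F' (pc n w)) : ZZ μ u n F ≤ ZZ μ u n F' :=
  TI_mono μ n ((hu.bw n).mul bF) ((hu.bw n).mul bF') fun w =>
    mul_le_mul_of_nonneg_left (h w) (BW_pos _ _).le

theorem ZZ_congr (n : St d) {F F' : (Lk d → G) → ℝ} (h : ∀ w, F (pc n w) = F' (pc n w)) :
    ZZ μ u n F = ZZ μ u n F' := TI_congr μ n fun w => by simp only [h]

theorem ZZ_mul (n : St d) (c : ℝ) (F : (Lk d → G) → ℝ) :
    ZZ μ u n (fun W => c * F W) = c * ZZ μ u n F := by
  simp only [ZZ, TI, mul_left_comm _ c, integral_const_mul]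

theorem Pot.zz_add (hu : Pot u) (n : St d) {F F' : (Lk d → G) → ℝ} (bF : BM F) (bF' : BM F') :
    ZZ μ u n (fun W => F W + F' W) = ZZ μ u n F + ZZ μ u n F' := by
  simp only [ZZ, TI, mul_add]
  exact integral_add ((((hu.bw n).mul bF).comp (measurable_pc n)).integrable _)
    ((((hu.bw n).mul bF').comp (measurable_pc n)).integrable _)

theorem Pot.zz_pos (hu : Pot u) (n : St d) : 0 < ZZ μ u n fun _ => 1 := by
  simp only [ZZ, TI, mul_one]
  exact integral_exp_pos (((hu.bw n).comp (measurable_pc n)).integrable _)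

theorem cell_div {h c c' r r' m : ℤ} (hd : m * h ∣ h * c' + r' - (h * c + r)) (h1 : 0 ≤ r)
    (h2 : r < h) (h3 : 0 ≤ r') (h4 : r' < h) (h5 : 0 ≤ c) (h6 : c < m) (h7 : 0 ≤ c') (h8 : c' < m) :
    c = c' ∧ r = r' := by
  have := eq_of_dvd hd (by nlinarith) (by nlinarith)
  have e : c = c' := by
    by_contra hne
    rcases lt_or_gt_of_ne hne with b | b <;> nlinarith
  subst e
  exact ⟨rfl, by omega⟩

theorem Pot.tile_cells (hu : Pot u) {h m : St d} (h0 : ∀ i, 0 < h i) (hm : ∀ i, 0 < m i)
    (T : St d → Fin d → Bool) (w : Lk d → G) :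
    ∏ c ∈ box m, BW u h (RGP.act (T c) ((c + iv (T c)) * h) (pc (m * h) w)) =
      BW u (m * h) (pc (m * h) w) := by
  refine hu.tile (fun i => mul_pos (hm i) (h0 i)) h _ _ _ (fun c hc c' hc' x hx x' hx' H => ?_)
    (card_box_mul hm h0).le w
  have key : ∀ i, c i = c' i ∧
      (if T c i then h i - 1 - x i else x i) = if T c' i then h i - 1 - x' i else x' i := by
    intro i
    have a1 := mem_box.mp hx i
    have a2 := mem_box.mp hx' i
    refine cell_div (h := h i) (m := m i) ?_ (by split_ifs <;> omega) (by split_ifs <;> omega)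
      (by split_ifs <;> omega) (by split_ifs <;> omega) (mem_box.mp hc i).1 (mem_box.mp hc i).2
      (mem_box.mp hc' i).1 (mem_box.mp hc' i).2
    convert H i using 1
    simp only [iv, Pi.mul_apply, Pi.add_apply]
    split_ifs <;> ring
  have e : c = c' := funext fun i => (key i).1
  subst e
  refine ⟨rfl, funext fun i => ?_⟩
  have := (key i).2
  split_ifs at this <;> omega

theorem Pot.tile_mir (hu : Pot u) {h : St d} (h0 : ∀ i, 0 < h i) (w : Lk d → G) :
    mir (BW u h) (pc (2 * h) w) = BW u (2 * h) (pc (2 * h) w) := by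
  refine hu.tile (fun i => mul_pos two_pos (h0 i)) h _ id (fun _ => 0)
    (fun T _ T' _ x hx x' hx' H => ?_) ?_ w
  · have key : ∀ i, T i = T' i ∧ x i = x' i := by
      intro i
      have a1 := mem_box.mp hx i
      have a2 := mem_box.mp hx' i
      have a3 := H i
      simp only [id, Pi.ofNat_apply] at a3
      have := eq_of_dvd a3 (by split_ifs <;> omega) (by split_ifs <;> omega)
      cases h1 : T i <;> cases h2 : T' i <;> simp [h1, h2] at this ⊢ <;> omega
    exact ⟨funext fun i => (key i).1, funext fun i => (key i).2⟩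
  · refine (card_box_mul (m := 2) (fun _ => two_pos) h0).le.trans ?_
    rw [card_box]
    simp

theorem iv_T0 : iv (d := d) T0 = 0 := by funext i; simp [iv]

theorem BM.mir {F : (Lk d → G) → ℝ} (hF : BM F) : BM (mir F) :=
  BM.prod fun _ _ => hF.comp (measurable_act _ _)

/-- Hilbert-Schmidt transfer to the torus made of one cell and its mirror images -/
theorem Pot.hs (hu : Pot u) {h m : St d} (h0 : ∀ i, 0 < h i) (hm : ∀ i, 0 < m i)
    {F : St d → (Lk d → G) → ℝ} (bF : ∀ c, BM (F c)) (pF : ∀ c W, 0 ≤ F c W)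
    (dF : ∀ c, DependsOn (F c) (cell h)) :
    (ZZ μ u (2 * m * h) fun W => ∏ c ∈ box (2 * m), F c (RGP.act T0 (c * h) W)) ^ 2 ^ d ≤
      ∏ c ∈ box (2 * m), ZZ μ u (2 * h) (mir (F c)) := by
  have := hs_cells μ h0 hm (F := fun c W => BW u h W * F c W) (fun c => (hu.bw h).mul (bF c))
    (fun c W => mul_nonneg (BW_pos _ _).le (pF c W)) fun c => DependsOn.mul' (hu.bw_dep h) (dF c)
  convert this using 2
  · refine TI_congr μ _ fun w => ?_
    have := hu.tile_cells h0 (m := 2 * m) (fun i => mul_pos two_pos (hm i)) (fun _ => T0) w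
    simp only [iv_T0, add_zero] at this
    simp only [Finset.prod_mul_distrib, this]
  · refine TI_congr μ _ fun w => ?_
    simp only [← hu.tile_mir h0, mir, Finset.prod_mul_distrib]

end Pool.Agent.Lib.MP_7f377f_mp.RGP
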