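import Pool.Agent.Lib.MP_7f377f_mp.PRec

/-! Bad events are rare on arbitrarily large tori. -/

namespace Pool.Agent.Lib.MP_7f377f_mp.RGP

open MeasureTheory Measure Function

set_option linter.unusedSectionVars false

variable {d : ℕ} {G : Type} [MeasurableSpace G] [Group G] [MeasurableMul₂ G] [MeasurableInv G]
  {μ : Measure G} [IsProbabilityMeasure μ] [μ.IsInvInvariant] [μ.IsMulRightInvariant]
  {u : (Lk d → G) → ℝ}

theorem Pot.zz_sum (hu : Pot u) (n : St d) {ι : Type} (A : Finset ι) {F : ι → (Lk d → G) → ℝ}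
    (bF : ∀ a, BM (F a)) : ZZ μ u n (fun W => ∑ a ∈ A, F a W) = ∑ a ∈ A, ZZ μ u n (F a) := by
  simp only [ZZ, TI, Finset.mul_sum]
  exact integral_finsetSum _ fun a _ =>
    (((hu.bw n).mul (bF a)).comp (measurable_pc n)).integrable _

theorem Pot.jensen (hu : Pot u) (n : St d) {g : (Lk d → G) → ℝ} (hg : BM g) {c : ℝ}
    (hc : ZZ μ u n g = c * ZZ μ u n fun _ => 1) :
    Real.exp c * (ZZ μ u n fun _ => 1) ≤ ZZ μ u n fun W => Real.exp (g W) := by
  refine le_trans (le_of_eq ?_) (hu.zz_mono μ n (F := fun W => Real.exp c * (g W + (1 - c) * 1))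
    ((BM.const _).mul (hg.add (BM.const _))) hg.exp fun w => ?_)
  · rw [ZZ_mul, hu.zz_add μ n hg (BM.const _), ZZ_mul, hc]
    ring
  · have := Real.add_one_le_exp (g (pc n w) - c)
    rw [show g (pc n w) = c + (g (pc n w) - c) by ring, Real.exp_add]
    exact mul_le_mul_of_nonneg_left (by linarith) (Real.exp_pos _).le

theorem card_two {a : St d} (ha : ∀ i, 0 < a i) : (box (2 * a)).card = (box a).card * 2 ^ d := by
  rw [card_box_mul (m := 2) (fun _ => two_pos) ha, mul_comm, show (2 : St d) = cv ((2 : ℕ) : ℤ) from rfl,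
    card_cv]

theorem Pot.zz_mixed (hu : Pot u) {s : ℤ} (hs : 0 < s) {a : St d} (ha : ∀ i, 0 < a i) {y : ℝ}
    (hy : 0 ≤ y) (h : ∀ C : ℕ, 0 < C → y ^ C ^ d ≤ ZZ μ u (cv (2 * C * s)) fun _ => 1) :
    y ^ (box a).card ≤ ZZ μ u (2 * a * cv s) fun _ => 1 := by
  have hC : 0 < ∏ i, a i := Finset.prod_pos fun i _ => ha i
  choose m hm using fun i => Finset.dvd_prod_of_mem a (Finset.mem_univ i)
  obtain ⟨C, hC'⟩ := Int.eq_ofNat_of_zero_le hC.le
  have hm0 : ∀ i, 0 < m i := fun i => pos_of_mul_pos_right (hm i ▸ hC) (ha i).le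
  have e : a * m = cv (C : ℤ) := funext fun i => (hm i).symm.trans hC'
  have h1 := hu.hs μ (h := a * cv s) (fun i => mul_pos (ha i) hs) hm0 (F := fun _ _ => 1)
    (fun _ => BM.const 1) (fun _ _ => zero_le_one) fun _ _ _ _ => rfl
  have e1 : 2 * m * (a * cv s) = cv (2 * C * s) := by
    rw [show 2 * m * (a * cv s) = 2 * (a * m) * cv s by ring, e]; rfl
  have e2 : mir (fun _ : Lk d → G => (1 : ℝ)) = fun _ => 1 := funext fun W => by simp [mir]
  simp only [Finset.prod_const_one, Finset.prod_const, e1, e2, card_two hm0, ← mul_assoc] at h1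
  have h2 := (pow_le_pow_left₀ (by positivity) (h C (by omega)) _).trans h1
  rw [← card_cv, ← e, card_box_mul ha hm0, ← pow_mul, mul_assoc, pow_mul] at h2
  refine le_of_pow_le_pow_left₀ (Nat.mul_ne_zero (Finset.card_ne_zero.mpr
    ⟨0, mem_box.mpr fun i => ⟨le_rfl, hm0 i⟩⟩) (by positivity)) (hu.zz_pos μ _).le h2

theorem Pot.big (hu : Pot u) {s : ℤ} (hs : 0 < s) {a : St d} (ha : ∀ i, 0 < a i)
    {f : (Lk d → G) → ℝ} (bf : BM f) (f0 : ∀ W, 0 ≤ f W) (f1 : ∀ W, f W ≤ 1)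
    (df : DependsOn f (cell (cv s))) {t δ y z : ℝ} (ht : 0 ≤ t)
    (hδ : ZZ μ u (cv (2 * s)) f ≤ δ * ZZ μ u (cv (2 * s)) fun _ => 1)
    (hδ' : t * Real.exp (t * 2 ^ d) * 2 ^ d * δ ≤ 1)
    (hz : (ZZ μ u (cv (2 * s)) fun _ => 1) ≤ 2 * Real.exp (y + z))
    (h : ∀ C : ℕ, 0 < C → Real.exp y ^ C ^ d ≤ ZZ μ u (cv (2 * C * s)) fun _ => 1) :
    t * ZZ μ u (2 * a * cv s) f ≤ (2 + z) * ZZ μ u (2 * a * cv s) fun _ => 1 := by
  have hn : ∀ i, 0 < (2 * a * cv s : St d) i := fun i => mul_pos (mul_pos two_pos (ha i)) hs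
  have hZ := hu.zz_pos μ (2 * a * cv s)
  have hv : (box a).card ≠ 0 := Finset.card_ne_zero.mpr ⟨0, mem_box.mpr fun i => ⟨le_rfl, ha i⟩⟩
  have bt := (BM.const t).mul bf
  obtain ⟨x, hx⟩ : ∃ x, ZZ μ u (2 * a * cv s) f = x * ZZ μ u (2 * a * cv s) fun _ => 1 :=
    ⟨_, (div_mul_cancel₀ _ hZ.ne').symm⟩
  have hx0 : 0 ≤ x := nonneg_of_mul_nonneg_left (hx ▸ ZZ_nonneg μ _ f0) hZ
  have h1 := hu.jensen (μ := μ) (2 * a * cv s) (c := (box (2 * a)).card * (t * x))
    (BM.sum (s := box (2 * a)) fun c _ => bt.comp (measurable_act T0 (c * cv s))) (by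
      rw [hu.zz_sum _ _ fun c => bt.comp (measurable_act T0 (c * cv s))]
      simp only [ZZ_mul, hu.zz_act μ hn bf.meas, hx, Finset.sum_const, nsmul_eq_mul]
      ring)
  have h2 := hu.hs μ (h := cv s) (fun _ => hs) ha (F := fun _ W => Real.exp (t * f W))
    (fun _ => bt.exp) (fun _ _ => (Real.exp_pos _).le) fun _ _ _ hW => by simp only [df hW]
  have bT : ∀ T : Fin d → Bool, BM fun W => f (RGP.act T 0 W) :=
    fun T => bf.comp (measurable_act _ _)
  have h3 : ZZ μ u (cv (2 * s)) (mir fun W => Real.exp (t * f W)) ≤ 4 * Real.exp (y + z) := by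
    refine (hu.zz_mono μ _ bt.exp.mir ((BM.const 1).add ((BM.const (t * Real.exp (t * 2 ^ d))).mul
      (BM.sum (s := Finset.univ) fun T _ => bT T))) fun w => ?_).trans ?_
    · rw [mir, ← Real.exp_sum, ← Finset.mul_sum]
      have a1 : 0 ≤ ∑ T, f (RGP.act T 0 (pc (cv (2 * s)) w)) := Finset.sum_nonneg fun _ _ => f0 _
      have a2 : ∑ T, f (RGP.act T 0 (pc (cv (2 * s)) w)) ≤ 2 ^ d := by
        simpa using Finset.sum_le_card_nsmul Finset.univ _ _ fun (T : Fin d → Bool) _ =>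
          f1 (RGP.act T 0 (pc (cv (2 * s)) w))
      generalize ∑ T, f (RGP.act T 0 (pc (cv (2 * s)) w)) = S at a1 a2
      have a3 := mul_le_mul_of_nonneg_right (Real.add_one_le_exp (-(t * S)))
        (Real.exp_pos (t * S)).le
      rw [← Real.exp_add, neg_add_cancel, Real.exp_zero] at a3
      have a4 := mul_le_mul_of_nonneg_left
        (Real.exp_le_exp.mpr (mul_le_mul_of_nonneg_left a2 ht)) (mul_nonneg ht a1)
      linarith
    rw [hu.zz_add μ _ (BM.const 1) ((BM.const _).mul (BM.sum fun T _ => bT T)), ZZ_mul,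
      hu.zz_sum _ _ bT]
    simp only [hu.zz_act μ (n := cv (2 * s)) (fun _ => mul_pos two_pos hs) bf.meas,
      Finset.sum_const, Finset.card_univ, Fintype.card_fun, Fintype.card_bool, Fintype.card_fin,
      nsmul_eq_mul]
    have a1 := mul_le_mul_of_nonneg_left hδ
      (show 0 ≤ t * Real.exp (t * 2 ^ d) * 2 ^ d by positivity)
    have a2 := mul_le_mul_of_nonneg_right hδ' (hu.zz_pos μ (cv (2 * s))).le
    push_cast
    linarith
  simp only [Real.exp_sum] at h1
  have h4 := ((pow_le_pow_left₀ (by positivity) h1 _).trans h2).trans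
    (Finset.prod_le_prod (fun _ _ => ZZ_nonneg μ _ fun W =>
      Finset.prod_nonneg fun _ _ => (Real.exp_pos _).le) fun _ _ => h3)
  rw [Finset.prod_const, card_two ha, pow_mul, Nat.cast_mul, mul_assoc, Real.exp_nat_mul] at h4
  have h5 := (mul_le_mul_of_nonneg_left (hu.zz_mixed hs ha (Real.exp_pos y).le h)
    (by positivity)).trans (le_of_pow_le_pow_left₀ (by positivity) (by positivity) h4)
  rw [← mul_pow, ← Real.exp_add] at h5
  have h6 := (le_of_pow_le_pow_left₀ hv (by positivity) h5).trans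
    (mul_le_mul_of_nonneg_right (show (4 : ℝ) ≤ Real.exp 2 by
      have := Real.add_one_le_exp 1
      rw [show (2 : ℝ) = 1 + 1 by norm_num, Real.exp_add]
      nlinarith) (Real.exp_pos _).le)
  rw [← Real.exp_add, Real.exp_le_exp] at h6
  rw [hx, ← mul_assoc]
  refine mul_le_mul_of_nonneg_right ?_ hZ.le
  have := mul_le_mul_of_nonneg_right (Nat.one_le_cast (α := ℝ).mpr (Nat.one_le_two_pow (n := d)))
    (mul_nonneg ht hx0)
  linarith

namespace Model.Bad

variable {M : Model d μ} (B : M.Bad)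

theorem near_le (hu : Pot u) {k : ℕ} {m r : ℤ} {e γ τ δ t : ℝ} (hI : B.Inp u k m e γ τ)
    (hr : 0 ≤ r) (hm : r + 2 * M.rat 0 k ≤ 4 * m * M.rat 0 k) (hδ2 : δ ≤ 2⁻¹)
    (hδ : M.JZ u k (cv (18 * m)) (ind (B.Bd (k + 1))) ≤
      δ * ZZ μ u (cv (M.rat 0 k * (18 * m))) fun _ => 1) (ht : 0 ≤ t)
    (hδ' : t * Real.exp (t * 2 ^ d) * 2 ^ d * δ ≤ 1) {a : St d} (ha : ∀ i, 0 < a i) :
    t * M.JZ u k ((18 * m) • a) (ind (B.Nr (k + 1) r 0)) ≤
      (2 + 2 * γ * (18 * m) ^ d) * ZZ μ u (M.sc k ((18 * m) • a) 0) fun _ => 1 := by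
  have h0 := M.rat_pos 0 k
  have hm0 : 0 < m := by nlinarith
  have hE := B.loc_Nr (le_refl (k + 1)) r
  have hs : 0 < 9 * m * M.rat 0 k := by positivity
  have hc : M.Dv k (cv (4 * m * M.rat 0 k)) := fun _ => dvd_mul_left _ _
  have e2 : ∀ a : St d, M.sc k ((18 * m) • a) 0 = 2 * a * cv (9 * m * M.rat 0 k) := fun a =>
    funext fun i => by
      simp only [sc, Pi.smul_apply, Pi.mul_apply, smul_eq_mul, cv, Pi.ofNat_apply]
      ring
  have key : ∀ a : St d, (∀ i, 0 < a i) → ∀ P, M.Dv k P →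
      M.JZ u k ((18 * m) • a) (ind (B.Nr (k + 1) r P)) = ZZ μ u (2 * a * cv (9 * m * M.rat 0 k))
        (M.fE k (r + 2 * M.rat 0 k) (B.Nr (k + 1) r) (cv (4 * m * M.rat 0 k))) := by
    intro a ha P hP
    have hc' : M.Dv k (P - cv (4 * m * M.rat 0 k)) := fun i => (hP i).sub (hc i)
    have := factor_loc hu (k := k) (N := (18 * m) • a) (fun i => mul_pos (by omega) (ha i)) hs
      (m := 2 * a) (fun i => mul_pos two_pos (ha i))
      (e2 a) (Finset.univ : Finset Unit) (fun _ => hE) (fun _ => hP)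
      (fun _ => le_rfl) (v := P - cv (4 * m * M.rat 0 k)) (fun _ _ _ _ _ => rfl) fun _ _ i => by
        simp only [Pi.sub_apply, cv, sub_sub_cancel]
        rw [Int.emod_eq_of_lt (by positivity) (by nlinarith)]
        constructor <;> nlinarith
    simp only [Finset.univ_unique, Finset.prod_singleton] at this
    rw [← hu.zz_act μ (n := 2 * a * cv (9 * m * M.rat 0 k)) (fun i => mul_pos (mul_pos two_pos
      (ha i)) hs) (hE.bm _).meas T0 (P - cv (4 * m * M.rat 0 k))]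
    simp only [hE.act hc hc', sm_T0, add_sub_cancel]
    exact this
  have e1 : M.rat 0 k * (18 * m) = 2 * (9 * m * M.rat 0 k) := by ring
  have e3 : ((18 * m) • (1 : St d)) = cv (18 * m) := funext fun _ => by simp
  rw [key a ha 0 (Dv_zero k), e2]
  refine hu.big hs ha (hE.bm _) (fE_nonneg _) (hE.le_one _) (hE.dep_cell hc fun i => by
    simp only [cv]; constructor <;> nlinarith) (y := (e - γ) * (18 * m) ^ d) ht ?_ hδ' ?_
    fun C hC => ?_
  · have := key 1 (fun _ => one_pos) _ hc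
    rw [mul_one, e3] at this
    exact this.symm.trans_le ((M.JZ_mono hu k _ (bm_ind (hE.meas _)) (bm_ind (B.meas_Bd _))
      fun w => Set.indicator_le_indicator_of_subset (B.Nr_sub _ _ _) (fun _ => zero_le_one) _).trans
        (e1 ▸ hδ))
  · rw [← e1]
    refine (B.Z_le hu (by omega) (hI _ (by omega)).1
      (hδ.trans (mul_le_mul_of_nonneg_right hδ2 (hu.zz_pos μ _).le))).trans_eq ?_
    push_cast
    ring_nf
  · refine le_trans (le_of_eq ?_) ((hI (C * (18 * m)) (by nlinarith)).2.2.trans_eq ?_)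
    · rw [← Real.exp_nat_mul]
      push_cast
      ring_nf
    · rw [show M.rat 0 k * (C * (18 * m)) = 2 * C * (9 * m * M.rat 0 k) by ring]

end Model.Bad

end Pool.Agent.Lib.MP_7f377f_mp.RGP
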