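import Pool.Agent.Lib.MP_7f377f_mp.PModel

/-! Cones, localised bad events and their placement in cells. -/

namespace Pool.Agent.Lib.MP_7f377f_mp.RGP

open MeasureTheory Measure Function

set_option linter.unusedSectionVars false

variable {d : ℕ} {G : Type} [MeasurableSpace G] [Group G] [MeasurableMul₂ G] [MeasurableInv G]
  {μ : Measure G} [IsProbabilityMeasure μ] [μ.IsInvInvariant] [μ.IsMulRightInvariant]

/-- indicator function -/
noncomputable def ind {X : Type} (s : Set X) : X → ℝ := s.indicator fun _ => 1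

theorem ind_nonneg {X : Type} (s : Set X) (x : X) : 0 ≤ ind s x :=
  Set.indicator_nonneg (fun _ _ => zero_le_one) x

theorem ind_of_mem {X : Type} {s : Set X} {x : X} (h : x ∈ s) : ind s x = 1 :=
  Set.indicator_of_mem h _

theorem ind_of_not {X : Type} {s : Set X} {x : X} (h : x ∉ s) : ind s x = 0 :=
  Set.indicator_of_notMem h _

theorem ind_le_one {X : Type} (s : Set X) (x : X) : ind s x ≤ 1 := by
  by_cases h : x ∈ s <;> simp [ind_of_mem, ind_of_not, h]

theorem ind_congr {X Y : Type} {s : Set X} {t : Set Y} {x : X} {y : Y} (h : x ∈ s ↔ y ∈ t) :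
    ind s x = ind t y := by
  by_cases hx : x ∈ s
  · rw [ind_of_mem hx, ind_of_mem (h.mp hx)]
  · rw [ind_of_not hx, ind_of_not (mt h.mpr hx)]

/-- motion of sites -/
def sm (T : Fin d → Bool) (a y : St d) : St d := fun i => if T i then a i - y i else y i + a i

theorem exists_shift {s w : ℤ} (hw : 0 < w) (h : 8 * w ≤ s) (p : Fin 3 → ℤ) :
    ∃ t : ℤ, ∀ a, w ≤ (p a - 2 * w * t) % s ∧ (p a - 2 * w * t) % s ≤ s - w := by
  have hs : 0 < s := by omega
  by_contra hc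
  push Not at hc
  have key : ∀ t : Fin 4, ∃ a, (p a - 2 * w * (t : ℕ) + w) % s < 2 * w := by
    intro t
    obtain ⟨a, ha⟩ := hc (t : ℕ)
    refine ⟨a, ?_⟩
    by_contra hb
    have h1 := Int.emod_lt_of_pos (p a - 2 * w * (t : ℕ) + w) hs
    have : (p a - 2 * w * (t : ℕ)) % s = (p a - 2 * w * (t : ℕ) + w) % s - w := by
      rw [← Int.emod_eq_of_lt (a := (p a - 2 * w * (t : ℕ) + w) % s - w) (b := s) (by omega)
        (by omega), Int.emod_sub_emod]
      congr 1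
      ring
    omega
  choose f hf using key
  have : Injective f := by
    intro t t' e
    have h1 := hf t
    have h2 := hf t'
    rw [← e] at h2
    have h3 := Int.emod_nonneg (p (f t) - 2 * w * (t : ℕ) + w) hs.ne'
    have h4 := Int.emod_nonneg (p (f t) - 2 * w * (t' : ℕ) + w) hs.ne'
    have h5 : s ∣ (p (f t) - 2 * w * (t : ℕ) + w) % s - (p (f t) - 2 * w * (t' : ℕ) + w) % s -
        2 * w * ((t' : ℕ) - (t : ℕ)) := by
      obtain ⟨a, ha⟩ := Int.dvd_emod_sub_self (x := p (f t) - 2 * w * (t : ℕ) + w) (m := s)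
      obtain ⟨b, hb⟩ := Int.dvd_emod_sub_self (x := p (f t) - 2 * w * (t' : ℕ) + w) (m := s)
      exact ⟨a - b, by linarith⟩
    have h6 := Int.eq_zero_of_abs_lt_dvd h5 (by
      rw [abs_lt]
      fin_cases t <;> fin_cases t' <;> simp at h1 h2 h3 h4 ⊢ <;> omega)
    fin_cases t <;> fin_cases t' <;> simp at h1 h2 h3 h4 h6 ⊢ <;> omega
  simpa using Fintype.card_le_of_injective f this

section ev
variable (μ) {u : (Lk d → G) → ℝ}

theorem prod_fiber {ι : Type} (A : Finset ι) {B : Finset (St d)} {c : ι → St d}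
    (hc : ∀ a ∈ A, c a ∈ B) (f : ι → St d → ℝ) :
    ∏ a ∈ A, f a (c a) = ∏ x ∈ B, ∏ a ∈ A with c a = x, f a x := by
  rw [← Finset.prod_fiberwise_of_maps_to hc]
  exact Finset.prod_congr rfl fun x _ => Finset.prod_congr rfl fun a ha => by
    rw [(Finset.mem_filter.mp ha).2]

theorem fiber_cases {ι : Type} {A : Finset ι} {c : ι → St d}
    (hi : ∀ a ∈ A, ∀ a' ∈ A, c a = c a' → a = a') (x : St d) :
    A.filter (c · = x) = ∅ ∨ ∃ a ∈ A, A.filter (c · = x) = {a} := by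
  rcases (A.filter (c · = x)).eq_empty_or_nonempty with h | ⟨a, ha⟩
  · exact Or.inl h
  · rw [Finset.mem_filter] at ha
    exact Or.inr ⟨a, ha.1, Finset.eq_singleton_iff_unique_mem.mpr ⟨Finset.mem_filter.mpr ha,
      fun b hb => hi b (Finset.mem_filter.mp hb).1 a ha.1
        ((Finset.mem_filter.mp hb).2.trans ha.2.symm)⟩⟩

theorem Pot.hs_ev (hu : Pot u) {h m : St d} (h0 : ∀ i, 0 < h i) (hm : ∀ i, 0 < m i) {ι : Type}
    (A : Finset ι) {c : ι → St d} (hc : ∀ a ∈ A, c a ∈ box (2 * m))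
    (hi : ∀ a ∈ A, ∀ a' ∈ A, c a = c a' → a = a') {f : ι → (Lk d → G) → ℝ} (bf : ∀ a, BM (f a))
    (pf : ∀ a W, 0 ≤ f a W) (df : ∀ a ∈ A, DependsOn (f a) (cell h)) {β : ι → ℝ}
    (hβ : ∀ a ∈ A, ZZ μ u (2 * h) (mir (f a)) ≤ β a * ZZ μ u (2 * h) fun _ => 1) :
    (ZZ μ u (2 * m * h) fun W => ∏ a ∈ A, f a (RGP.act T0 (c a * h) W)) ^ 2 ^ d ≤
      (∏ a ∈ A, β a) * (ZZ μ u (2 * h) fun _ => 1) ^ (box (2 * m)).card := by
  simp only [fun W => prod_fiber A hc fun a x => f a (RGP.act T0 (x * h) W)]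
  refine (hu.hs μ h0 hm (F := fun x W => ∏ a ∈ A with c a = x, f a W)
    (fun x => BM.prod fun a _ => bf a) (fun x W => Finset.prod_nonneg fun a _ => pf a W)
    fun x => dep_prod fun a ha => df a (Finset.mem_filter.mp ha).1).trans ?_
  rw [prod_fiber A hc fun a _ => β a, ← Finset.prod_const, ← Finset.prod_mul_distrib]
  refine Finset.prod_le_prod (fun x _ => ZZ_nonneg μ _ fun W => Finset.prod_nonneg fun T _ =>
    Finset.prod_nonneg fun a _ => pf a _) fun x _ => ?_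
  rcases fiber_cases hi x with e | ⟨a, ha, e⟩
  · simp only [e, Finset.prod_empty, one_mul]
    exact (ZZ_congr μ _ fun w => by simp [mir]).le
  · simpa only [e, Finset.prod_singleton] using hβ a ha

theorem Pot.chess_ev (hu : Pot u) {s : ℤ} (hs : 0 < s) {m : ℕ} (hm : 0 < m) (B : Finset (St d))
    {f : St d → (Lk d → G) → ℝ} (bf : ∀ b, BM (f b)) (pf : ∀ b W, 0 ≤ f b W)
    (df : ∀ b ∈ B, DependsOn (f b) (cell (cv s))) {p : ℝ} (hp : 0 < p)
    (hρ : ∀ T, ∀ b ∈ B, ∃ b' ∈ B, ∀ W, f b' W = f b (RGP.act T (iv T * cv s) W))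
    (hb : ∀ b ∈ B, ZZ μ u (cv (2 * s)) (mir (f b)) ^ (2 * m) ^ d ≤
      (p ^ (2 * m) ^ d * ZZ μ u (cv (2 * m * s)) fun _ => 1) ^ 2 ^ d) {ι : Type}
    (A : Finset ι) {c : ι → St d} (hc : ∀ a ∈ A, c a ∈ box (cv (2 * m)))
    (hi : ∀ a ∈ A, ∀ a' ∈ A, c a = c a' → a = a') {z : ι → St d} (hz : ∀ a ∈ A, z a ∈ B) :
    (ZZ μ u (cv (2 * m * s)) fun W => ∏ a ∈ A, f (z a) (RGP.act T0 (c a * cv s) W)) ≤
      p ^ A.card * ZZ μ u (cv (2 * m * s)) fun _ => 1 := by
  have key : ∀ x, ∃ o : Option B, (∀ W, (o.elim (fun _ => 1) fun b => f b) W =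
      ∏ a ∈ A with c a = x, f (z a) W) ∧ (o.elim 1 fun _ => p) = ∏ a ∈ A with c a = x, p := by
    intro x
    rcases fiber_cases hi x with e | ⟨a, ha, e⟩
    · exact ⟨none, by simp [e]⟩
    · exact ⟨some ⟨z a, hz a ha⟩, by simp [e]⟩
  choose σ h1 h2 using key
  have := hu.chess μ hs hm (f := fun o : Option B => o.elim (fun _ => 1) fun b => f b)
    (fun o => by cases o; exacts [BM.const 1, bf _])
    (fun o W => by cases o; exacts [zero_le_one, pf _ _])
    (fun o => by cases o with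
      | none => exact fun _ _ _ => rfl
      | some b => exact df _ b.2) (fun o => o.elim 1 fun _ => p)
    (fun o => by cases o; exacts [one_pos, hp])
    (fun T o => by cases o with
      | none => exact ⟨none, rfl, fun _ => rfl⟩
      | some b =>
        obtain ⟨b', hb', e⟩ := hρ T b b.2
        exact ⟨some ⟨b', hb'⟩, rfl, e⟩)
    (fun o => by cases o with
      | none => exact Or.inl fun _ => rfl
      | some b => exact Or.inr (hb b b.2)) σ
  simp only [h1, h2] at this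
  rw [← prod_fiber A hc fun _ _ => p, Finset.prod_const] at this
  simpa only [fun W => prod_fiber A hc fun a x => f (z a) (RGP.act T0 (x * cv s) W)] using this

end ev

namespace Model

variable (M : Model d μ)

theorem rat_ge {j : ℕ} (h : j ≠ 0) : 2 ≤ M.rat 0 j := by
  obtain ⟨j, rfl⟩ := Nat.exists_eq_succ_of_ne_zero h
  rw [← M.rat_mul (Nat.zero_le j) (Nat.le_succ j), M.rat_succ]
  nlinarith [M.rat_pos 0 j, M.two_le j]

/-- the variables of level at most `k` whose cone lies in a box -/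
def DQ (k : ℕ) (α β : St d) : Set (ℕ × Lk d) := {p | p.1 ≤ k ∧ ∀ i,
  α i ≤ M.rat 0 p.1 * p.2.1 i - M.rat 0 p.1 + 1 ∧
    M.rat 0 p.1 * (p.2.1 i + dl i p.2.2) + M.rat 0 p.1 - 1 ≤ β i}

theorem DQ_finite (k : ℕ) (α β : St d) : (M.DQ k α β).Finite := by
  refine (Finset.finite_toSet (Finset.range (k + 1) ×ˢ
    (Fintype.piFinset fun i => Finset.Icc (-|α i|) |β i|) ×ˢ Finset.univ)).subset fun p hp => ?_
  simp only [Finset.coe_product, Set.mem_prod, Finset.mem_coe, Finset.mem_range, Nat.lt_succ_iff,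
    Fintype.mem_piFinset, Finset.mem_Icc, Finset.mem_univ, and_true]
  refine ⟨hp.1, fun i => ?_⟩
  obtain ⟨h1, h2⟩ := hp.2 i
  have h3 := M.rat_pos 0 p.1
  have h4 := neg_abs_le (α i)
  have h5 := le_abs_self (β i)
  have h6 := abs_nonneg (α i)
  have h7 := abs_nonneg (β i)
  rcases dl_cases i p.2.2 with ⟨-, h⟩ | ⟨-, h⟩ <;> rw [h] at h2 <;> constructor <;> by_contra hc <;>
    nlinarith

/-- the same set as a finite set -/
noncomputable def DF (k : ℕ) (α β : St d) : Finset (ℕ × Lk d) := (M.DQ_finite k α β).toFinset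

theorem coe_DF (k : ℕ) (α β : St d) : (M.DF k α β : Set (ℕ × Lk d)) = M.DQ k α β :=
  Set.Finite.coe_toFinset _

theorem mem_DF {k : ℕ} {α β : St d} {p : ℕ × Lk d} : p ∈ M.DF k α β ↔ p ∈ M.DQ k α β :=
  Set.Finite.mem_toFinset _

theorem closed_DF (k : ℕ) (α β : St d) : M.Closed (M.DF k α β) := by
  rw [coe_DF]
  intro j e he e' h
  refine ⟨(Nat.le_succ j).trans he.1, fun i => ?_⟩
  obtain ⟨h1, h2⟩ := he.2 i
  obtain ⟨h3, h4⟩ := h i
  simp only [← M.rat_mul (Nat.zero_le j) (Nat.le_succ j), M.rat_succ] at h1 h2 ⊢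
  have := M.rat_pos 0 j
  constructor <;> nlinarith

theorem DQ_mono {k k' : ℕ} {α β α' β' : St d} (hk : k ≤ k') (h : ∀ i, α' i ≤ α i ∧ β i ≤ β' i) :
    M.DQ k α β ⊆ M.DQ k' α' β' := fun _ hp => ⟨hp.1.trans hk, fun i =>
  ⟨(h i).1.trans (hp.2 i).1, (hp.2 i).2.trans (h i).2⟩⟩

theorem DQ_mvH {j k : ℕ} (h : j ≤ k) (T : Fin d → Bool) (v P : St d) (r : ℤ) (p : ℕ × Lk d) :
    p ∈ M.DQ j (P - cv r) (P + cv r) ↔ mvH T (M.sc k v) p ∈
      M.DQ j (sm T (M.sc k v 0) P - cv r) (sm T (M.sc k v 0) P + cv r) := by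
  refine and_congr_right fun hp => forall_congr' fun i => ?_
  have hp : p.1 ≤ j := hp
  simp only [mvH, mv, sm, sc, Pi.smul_apply, smul_eq_mul, Pi.sub_apply, Pi.add_apply,
    ← M.rat_mul (Nat.zero_le p.1) (hp.trans h)]
  split_ifs
  · constructor <;> intro h <;> constructor <;> linarith [h.1, h.2]
  · constructor <;> intro h <;> constructor <;> linarith [h.1, h.2]

theorem DQ_cell {k : ℕ} {α β h : St d} (H : ∀ i, 0 ≤ α i ∧ β i ≤ h i) :
    {e | (0, e) ∈ M.DF k α β} ⊆ cell h := by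
  intro e he i
  obtain ⟨h1, h2⟩ := (M.mem_DF.mp he).2 i
  simp only [M.rat_self] at h1 h2
  exact ⟨by linarith [(H i).1], by linarith [(H i).2]⟩

theorem DQ_sep {k : ℕ} {N : St d} {j j' : ℕ} (hj : j ≤ k) {α β α' β' : St d} {p p' : ℕ × Lk d}
    (hp : p ∈ M.DF j α β) (hp' : p' ∈ M.DF j' α' β') (h0 : p.1 ≠ 0)
    (h : perH (M.sc k N) p = perH (M.sc k N) p') : ∃ x q : St d, (∀ i, α i < x i ∧ x i < β i ∧
      α' i < x i + M.sc k N 0 i * q i ∧ x i + M.sc k N 0 i * q i < β' i) ∧ (q = 0 → p = p') := by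
  obtain ⟨a, e⟩ := p
  obtain ⟨a', e'⟩ := p'
  simp only [perH, Prod.mk.injEq] at h
  obtain ⟨rfl, h⟩ := h
  obtain ⟨h1, h2⟩ := per_eq.mp h
  choose q hq using h2
  rw [mem_DF] at hp hp'
  have h3 := M.rat_ge h0
  refine ⟨M.rat 0 a • e.1, q, fun i => ?_, fun hq0 => ?_⟩
  · obtain ⟨b1, b2⟩ := hp.2 i
    obtain ⟨b3, b4⟩ := hp'.2 i
    have b5 : e'.1 i = e.1 i + M.rat a k * N i * q i := by
      have := hq i
      simp only [sc, Pi.smul_apply, smul_eq_mul] at this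
      linarith
    have b6 : 0 ≤ M.rat 0 a * dl i e.2 := by
      rcases dl_cases i e.2 with ⟨-, h⟩ | ⟨-, h⟩ <;> rw [h] <;> linarith
    simp only [sc, Pi.smul_apply, smul_eq_mul, ← M.rat_mul (Nat.zero_le a) (hp.1.trans hj), b5,
      ← h1] at b1 b2 b3 b4 h3 ⊢
    refine ⟨?_, ?_, ?_, ?_⟩ <;> linarith
  · subst hq0
    refine Prod.ext rfl (Prod.ext (funext fun i => ?_) h1)
    have := hq i
    simp only [Pi.zero_apply, mul_zero] at this
    linarith

/-- factorisation for boxes lying in different cells of a grid -/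
theorem factor_cells {u : (Lk d → G) → ℝ} (hu : Pot u) (k : ℕ) {N h m v : St d}
    (hN : ∀ i, 0 < N i) (h0 : ∀ i, 0 < h i) (hn : M.sc k N 0 = m * h) {ι : Type} (A : Finset ι)
    {j : ι → ℕ} {α β c q : ι → St d} (hj : ∀ a, j a ≤ k) (hc : ∀ a ∈ A, c a ∈ box m)
    (hi : ∀ a ∈ A, ∀ a' ∈ A, c a = c a' → a = a')
    (hα : ∀ a ∈ A, ∀ i, v i + (c a i + m i * q a i) * h i ≤ α a i ∧
      β a i ≤ v i + (c a i + m i * q a i + 1) * h i) {g : ι → Hist d G → ℝ} (bg : ∀ a, BM (g a))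
    (dg : ∀ a, DependsOn (g a) (M.DF (j a) (α a) (β a))) :
    M.JZ u k N (fun w => ∏ a ∈ A, g a w) =
      ZZ μ u (M.sc k N 0) fun W => ∏ a ∈ A, M.cf (M.DF (j a) (α a) (β a)) (g a) W := by
  refine M.factor hu k hN A (fun a => M.closed_DF _ _ _)
    (fun a p hp => (M.mem_DF.mp hp).1.trans (hj a)) bg dg fun a ha a' ha' p hp p' hp' hp0 e => ?_
  obtain ⟨x, t, h1, h2⟩ := M.DQ_sep (hj a) hp hp' hp0 e
  have key : ∀ i, c a i = c a' i ∧ q a i + t i = q a' i := by
    intro i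
    obtain ⟨b1, b2, b3, b4⟩ := h1 i
    obtain ⟨b5, b6⟩ := hα a ha i
    obtain ⟨b7, b8⟩ := hα a' ha' i
    simp only [hn, Pi.mul_apply] at b3 b4
    have := h0 i
    have e1 : c a i + m i * (q a i + t i) = c a' i + m i * q a' i := by
      by_contra hne
      rcases lt_or_gt_of_ne hne with b | b <;> nlinarith
    have c1 := mem_box.mp (hc a ha) i
    have c2 := mem_box.mp (hc a' ha') i
    have e2 : c a i = c a' i := eq_of_dvd (n := m i) ⟨q a i + t i - q a' i, by linarith⟩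
      (by omega) (by omega)
    exact ⟨e2, mul_left_cancel₀ (show m i ≠ 0 by omega) (by linarith)⟩
  obtain rfl := hi a ha a' ha' (funext fun i => (key i).1)
  exact ⟨rfl, h2 (funext fun i => by simpa using (key i).2)⟩

theorem bm_JZ {u : (Lk d → G) → ℝ} (hu : Pot u) (k : ℕ) (N : St d) {g : Hist d G → ℝ} (hg : BM g) :
    BM fun w => BW u (M.sc k N 0) (lvl (pcH (M.sc k N) w) 0) *
      (g (pcH (M.sc k N) w) * M.dens (fund k (M.sc k N)) (pcH (M.sc k N) w)) :=
  (((hu.bw _).comp (measurable_lvl 0)).mul (hg.mul (M.bm_dens _))).comp (measurable_pcH _)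

theorem JZ_mono {u : (Lk d → G) → ℝ} (hu : Pot u) (k : ℕ) (N : St d) {g g' : Hist d G → ℝ}
    (hg : BM g) (hg' : BM g') (h : ∀ w, g (pcH (M.sc k N) w) ≤ g' (pcH (M.sc k N) w)) :
    M.JZ u k N g ≤ M.JZ u k N g' :=
  integral_mono ((M.bm_JZ hu k N hg).integrable _) ((M.bm_JZ hu k N hg').integrable _) fun w =>
    mul_le_mul_of_nonneg_left (mul_le_mul_of_nonneg_right (h w) (M.dens_nonneg _ _)) (BW_pos _ _).le

theorem JZ_add {u : (Lk d → G) → ℝ} (hu : Pot u) (k : ℕ) (N : St d) {g g' : Hist d G → ℝ}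
    (hg : BM g) (hg' : BM g') :
    M.JZ u k N (fun w => g w + g' w) = M.JZ u k N g + M.JZ u k N g' := by
  simp only [JZ, add_mul, mul_add]
  exact integral_add ((M.bm_JZ hu k N hg).integrable _) ((M.bm_JZ hu k N hg').integrable _)

theorem JZ_sum {u : (Lk d → G) → ℝ} (hu : Pot u) (k : ℕ) (N : St d) {ι : Type} (A : Finset ι)
    {g : ι → Hist d G → ℝ} (hg : ∀ a, BM (g a)) :
    M.JZ u k N (fun w => ∑ a ∈ A, g a w) = ∑ a ∈ A, M.JZ u k N (g a) := by
  simp only [JZ, Finset.sum_mul, Finset.mul_sum]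
  exact integral_finsetSum _ fun a _ => (M.bm_JZ hu k N (hg a)).integrable _

theorem JZ_one {u : (Lk d → G) → ℝ} (hu : Pot u) (k : ℕ) {N : St d} (hN : ∀ i, 0 < N i) :
    M.JZ u k N (fun _ => 1) = ZZ μ u (M.sc k N 0) fun _ => 1 := by
  simpa using M.factor hu k hN (∅ : Finset Unit) (D := fun _ => ∅) (g := fun _ _ => 1)
    (fun _ _ _ h => by simp at h) (by simp) (fun _ => BM.const 1) (fun _ _ _ _ => rfl) (by simp)

end Model

end Pool.Agent.Lib.MP_7f377f_mp.RGP
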