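import Pool.Agent.Lib.MP_7f377f_mp.PAv
import Pool.Agent.Lib.MP_7f377f_mp.PEv

/-! The Wilson potential of a cube; joint expectations in terms of the effective densities. -/

noncomputable section

namespace Pool.Agent.Lib.MP_7f377f_mp.RG.Pv

open Finset MeasureTheory
open scoped Quaternion ENNReal
open RGP (lvl pcH cv BM)

theorem hol_act {G α : Type} [Group G] {φ : G → α} (h1 : ∀ u g, φ (u * g * u⁻¹) = φ g)
    (h2 : ∀ g, φ g⁻¹ = φ g) (T : Fin 4 → Bool) (V : Lk → G) (x : St) (μ ν : Fin 4) :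
    φ (hol Inv.inv (RGP.act T 0 V) x μ ν) = φ (hol Inv.inv V
      (rf T x - (if T μ then un μ else 0) - if T ν then un ν else 0) μ ν) := by
  by_cases a : T μ = true <;> by_cases b : T ν = true
  · obtain ⟨z, hz⟩ : ∃ z, rf T x = z + un μ + un ν := ⟨rf T x - un ν - un μ, by abel⟩
    rw [← h1 (V (z, μ) * V (z + un μ, ν))]
    congr 1
    simp only [hol, act_pos a, act_pos b, rf_add, rf_un, if_pos a, if_pos b, hz,
      show z + un μ + un ν - un μ = z + un ν by abel, add_sub_cancel_right, add_neg_cancel_right,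
      show z + un μ + un ν + -un μ = z + un ν by abel]
    group
  · obtain ⟨z, hz⟩ : ∃ z, rf T x = z + un μ := ⟨rf T x - un μ, by abel⟩
    rw [← h1 (V (z, μ)), ← h2]
    congr 1
    simp only [hol, act_pos a, act_neg b, rf_add, rf_un, if_pos a, if_neg b, hz, sub_zero,
      show z + un μ + un ν - un μ = z + un ν by abel, add_sub_cancel_right, add_neg_cancel_right]
    group
  · obtain ⟨z, hz⟩ : ∃ z, rf T x = z + un ν := ⟨rf T x - un ν, by abel⟩
    rw [← h1 (V (z, ν)), ← h2]
    congr 1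
    simp only [hol, act_neg a, act_pos b, rf_add, rf_un, if_neg a, if_pos b, hz, sub_zero,
      show z + un ν + un μ - un ν = z + un μ by abel, add_sub_cancel_right, add_neg_cancel_right]
    group
  · simp only [hol, act_neg a, act_neg b, rf_add, rf_un, if_neg a, if_neg b, sub_zero]

theorem re_inv (g : S3) : g⁻¹.q.re = g.q.re := by simp [S3.q_inv]

/-- the plaquettes based at the origin -/
def w0 (U : Conf) : ℝ := ∑ μ, ∑ ν, if μ < ν then 2 * (hol Inv.inv U 0 μ ν).q.re else 0

/-- the Wilson potential of the unit cube -/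
def wpot (β : ℝ) (U : Conf) : ℝ := β * (16⁻¹ * ∑ T, w0 (RGP.act T (RGP.iv T) U))

theorem bm_re : BM fun g : S3 => g.q.re :=
  ⟨Ms.meas_re, 1, fun g => (abs_re_le _).trans g.norm_q.le⟩

theorem bm_w0 : BM w0 := BM.sum fun μ _ => BM.sum fun ν _ => by
  split_ifs
  · exact (BM.const 2).mul (bm_re.comp (Ms.cont_hol 0 μ ν).measurable)
  · exact BM.const 0

theorem dep_w0 : DependsOn w0 (RGP.cell 1) := by
  intro U U' h
  refine sum_congr rfl fun μ _ => sum_congr rfl fun ν _ => ?_
  split_ifs with h1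
  · have key : ∀ a b : Fin 4, a ≠ b → ∀ x, x = 0 ∨ x = 0 + un a → U (x, b) = U' (x, b) := by
      intro a b hab x hx
      refine h _ fun i => ?_
      simp only [RGP.slab, dl_eq, Set.mem_ofPred_eq, Pi.one_apply]
      rcases hx with rfl | rfl <;> simp only [un_apply, Pi.add_apply, Pi.zero_apply] <;>
        split_ifs <;> omega
    simp only [hol, key ν μ h1.ne' _ (.inl rfl), key ν μ h1.ne' _ (.inr rfl),
      key μ ν h1.ne _ (.inl rfl), key μ ν h1.ne _ (.inr rfl)]
  · rfl

theorem pot_wpot (β : ℝ) : RGP.Pot (wpot β) where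
  bm := (BM.const β).mul ((BM.const _).mul
    (BM.sum fun _ _ => bm_w0.comp (RGP.measurable_act _ _)))
  dep U U' h := by
    refine congrArg (fun t => β * (16⁻¹ * t)) (sum_congr rfl fun T _ => ?_)
    refine RGP.dep_act (D' := RGP.cell 1) dep_w0 (fun e he i => ?_) h
    have := he i
    simp only [RGP.slab, RGP.mv, RGP.iv, Set.mem_ofPred_eq, Pi.one_apply] at this ⊢
    split_ifs <;> omega
  refl T U := by
    have hi : Function.Involutive fun (T' : Fin 4 → Bool) i => xor (T' i) (T i) := fun T' => by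
      funext i
      simp
    refine congrArg (fun t => β * (16⁻¹ * t)) (Fintype.sum_equiv hi.toPerm _ _ fun T' => ?_)
    rw [RGP.act_act]
    congr 2
    funext i
    cases h : T i <;> cases h' : T' i <;> simp [RGP.iv, h, h']

theorem sum_wpot (β : ℝ) {n : ℕ} {U : Conf} (hU : Per n U) :
    ∑ x ∈ cube n, wpot β (sh x U) = β * wil n U := by
  have : ∀ T, ∑ x ∈ cube n, w0 (RGP.act T (RGP.iv T) (sh x U)) = wil n U := fun T => by
    have e : ∀ x, RGP.act T (RGP.iv T) (sh x U) = RGP.act T 0 (sh (RGP.iv T + x) U) := fun x => by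
      rw [← act_T0, ← act_T0, RGP.act_act, RGP.act_act]
      simp
    simp only [w0, wil, e]
    rw [sum_comm, sum_comm (s := cube n)]
    refine sum_congr rfl fun μ _ => ?_
    rw [sum_comm, sum_comm (s := cube n)]
    refine sum_congr rfl fun ν _ => ?_
    split_ifs with h
    · simp only [hol_act (φ := fun g : S3 => g.q.re) Ms.re_conj re_inv T, hol_sh, ← add_assoc]
      simp only [add_comm _ (_ : St)]
      refine (sum_congr rfl fun x _ => by rw [add_comm]).trans
        (sum_cube_add (f := fun x => 2 * (hol Inv.inv U x μ ν).q.re) (fun x y => ?_) _)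
      rw [← hol_sh, hU.sh_smul]
    · rfl
  simp only [wpot, ← mul_sum]
  rw [sum_comm]
  simp only [this, sum_const, card_univ, Fintype.card_pi, Fintype.card_bool, prod_const,
    Fintype.card_fin, nsmul_eq_mul]
  push_cast
  ring

theorem per_per {α : Type} (n : ℕ) (U : Lk → α) : Per n (per n U) := fun μ => by
  funext e
  simp only [sh_apply, per, Pi.add_apply, Pi.smul_apply, smul_eq_mul, Int.add_mul_emod_self_left]

theorem box_cv (n : ℕ) : RGP.box (cv n) = cube n := rfl

theorem pc_cv (n : ℕ) (U : Conf) : RGP.pc (cv n) U = per n U := rfl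

theorem BW_wpot (β : ℝ) (n : ℕ) (U : Conf) :
    RGP.BW (wpot β) (cv n) (RGP.pc (cv n) U) = Real.exp (β * wil n (per n U)) := by
  simp only [RGP.BW, act_T0, box_cv, pc_cv, sum_wpot β (per_per n U)]

/-- histories -/
abbrev Hs := RGP.Hist 4 S3

/-- Haar measure on histories -/
abbrev PH : Measure Hs := RGP.PP haar _

/-- histories with small fields below level `j` -/
def GoodH (l : ℕ) (ε : ℝ) (j : ℕ) : Set Hs :=
  {w | ∀ i < j, curvG ε (lvl w i) ∧ noiseG l ε (lvl w i) (lvl w (i + 1))}

theorem meas_GoodH (l : ℕ) (ε : ℝ) (j : ℕ) : MeasurableSet (GoodH l ε j) := by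
  simp only [GoodH, Set.ofPred_forall]
  exact .iInter fun i => .iInter fun _ =>
    ((RGP.measurable_lvl (i + 1)).prodMk (RGP.measurable_lvl i)) (Ms.meas_good l ε)

/-- joint density -/
def RR (l : ℕ) (β : ℝ) (n : ℕ → ℕ) (j : ℕ) (w : Hs) : ℝ≥0∞ :=
  ENNReal.ofReal (Real.exp (β * wil (n 0) (lvl w 0))) * ∏ i ∈ range j, ∏ b ∈ lcube (n (i + 1)),
    hk (β * LL l ^ 2) (lvl w (i + 1) b * (blk l (lvl w i) b)⁻¹)

theorem meas_RR (l : ℕ) (β : ℝ) (n : ℕ → ℕ) (j : ℕ) : Measurable (RR l β n j) := by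
  have h1 : Measurable fun w : Hs => wil (n 0) (lvl w 0) :=
    (Ms.meas_wil _).comp (RGP.measurable_lvl 0)
  refine Measurable.mul (h1.const_mul β).exp.ennreal_ofReal
    (Finset.measurable_fun_prod _ fun i _ => Finset.measurable_fun_prod _ fun b _ => ?_)
  have h2 : Measurable fun w : Hs => blk l (lvl w i) := (measurable_blk l).comp (RGP.measurable_lvl i)
  exact (Ms.meas_hk _).comp ((measurable_pi_apply (i + 1, b)).mul h2.eval.inv)

theorem mp_lvl (j : ℕ) : MeasurePreserving (fun w : Hs => lvl w j) PH PP :=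
  RGP.mp_pat haar (φ := fun e : Lk => (j, e)) (fun _ _ h => (Prod.ext_iff.mp h).2) fun _ => false

theorem lint_lvl (j : ℕ) {Φ : Hs × Conf → ℝ≥0∞} (hΦ : Measurable Φ)
    (h : ∀ w w' W, (∀ i < j, lvl w i = lvl w' i) → Φ (w, W) = Φ (w', W)) :
    ∫⁻ w, Φ (w, lvl w j) ∂PH = ∫⁻ W, ∫⁻ w, Φ (w, W) ∂PH ∂PP := by
  have m1 : Measurable fun w : Hs => Φ (w, lvl w j) :=
    hΦ.comp (measurable_id.prodMk (RGP.measurable_lvl j))
  rw [← (RGP.mp_mix haar {p | p.1 = j}).lintegral_comp m1,
    ← (mp_lvl j).lintegral_comp hΦ.lintegral_prod_left']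
  refine (lintegral_prod _ (m1.comp (RGP.measurable_mix _)).aemeasurable).trans
    (lintegral_congr fun w' => lintegral_congr fun w => ?_)
  simp only [Function.comp_apply]
  rw [show lvl (RGP.mix {p | p.1 = j} w' w) j = lvl w' j from
    funext fun e => RGP.mix_of_mem (S := {p : ℕ × Lk | p.1 = j}) rfl _ _]
  exact h _ _ _ fun i hi => funext fun e =>
    RGP.mix_of_not (S := {p : ℕ × Lk | p.1 = j}) hi.ne _ _

theorem lint_RR (l : ℕ) (β ε : ℝ) (n : ℕ → ℕ) (j : ℕ) (hn : ∀ i < j, n i = LL l * n (i + 1))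
    {F : Conf → ℝ≥0∞} (hF : Measurable F) :
    ∫⁻ w, (GoodH l ε j).indicator (RR l β n j) (pcH (fun i => cv (n i)) w) *
        F (per (n j) (lvl w j)) ∂PH =
      ∫⁻ U, rhoG l β ε j (n j) (per (n j) U) * F (per (n j) U) ∂PP := by
  classical
  have mp := fun n : ℕ => (Ms.cont_per n).measurable
  induction j generalizing F with
  | zero =>
    refine Eq.trans (lintegral_congr fun w => ?_)
      ((mp_lvl 0).lintegral_comp (((measurable_rho l β ε 0 _).2.mul hF).comp (mp _)))
    rw [Set.indicator_of_mem (s := GoodH l ε 0) (fun i hi => absurd hi (Nat.not_lt_zero i)), RR,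
      prod_range_zero, mul_one]
    rfl
  | succ j ih =>
    set K : Conf × Conf → ℝ≥0∞ := fun p => Ms.itgG l (β * LL l ^ 2) ε (n (j + 1)) (fun _ => 1) p.1 p.2
      with hK
    have mK : Measurable K := Ms.meas_itgG _ _ _ _ measurable_const
    have mX : Measurable fun w : Hs =>
        (GoodH l ε j).indicator (RR l β n j) (pcH (fun i => cv (n i)) w) :=
      ((meas_RR l β n j).indicator (meas_GoodH l ε j)).comp (RGP.measurable_pcH _)
    have e1 : ∀ w : Hs, (GoodH l ε (j + 1)).indicator (RR l β n (j + 1)) w =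
        (GoodH l ε j).indicator (RR l β n j) w * K (lvl w (j + 1), lvl w j) := by
      intro w
      simp only [hK, Ms.itgG]
      by_cases h1 : w ∈ GoodH l ε j
      · split_ifs with h2
        · rw [Set.indicator_of_mem h1, Set.indicator_of_mem, RR, RR, prod_range_succ, one_mul,
            mul_assoc]
          exact fun i hi => (Nat.lt_succ_iff_lt_or_eq.1 hi).elim (h1 i) fun e => e ▸ h2
        · rw [Set.indicator_of_notMem fun h : w ∈ GoodH l ε (j + 1) => h2 (h j j.lt_succ_self),
            zero_mul, mul_zero]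
      · rw [Set.indicator_of_notMem h1, zero_mul, Set.indicator_of_notMem
          fun h : w ∈ GoodH l ε (j + 1) => h1 fun i hi => h i (hi.trans j.lt_succ_self)]
    have := lint_lvl (j + 1) (Φ := fun p =>
      (GoodH l ε j).indicator (RR l β n j) (pcH (fun i => cv (n i)) p.1) *
        (K (per (n (j + 1)) p.2, per (n j) (lvl p.1 j)) * F (per (n (j + 1)) p.2)))
      ((mX.comp measurable_fst).mul ((mK.comp (((mp _).comp measurable_snd).prodMk
        ((mp _).comp ((RGP.measurable_lvl j).comp measurable_fst)))).mul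
          (hF.comp ((mp _).comp measurable_snd)))) fun w w' W h => by
        have h1 : ∀ i < j + 1, lvl (pcH (fun i => cv (n i)) w) i =
            lvl (pcH (fun i => cv (n i)) w') i := fun i hi => by
          rw [RGP.lvl_pcH, RGP.lvl_pcH, h i hi]
        have h2 : pcH (fun i => cv (n i)) w ∈ GoodH l ε j ↔
            pcH (fun i => cv (n i)) w' ∈ GoodH l ε j :=
          forall₂_congr fun i hi => by rw [h1 i (by omega), h1 (i + 1) (by omega)]
        have h3 : RR l β n j (pcH (fun i => cv (n i)) w) = RR l β n j (pcH (fun i => cv (n i)) w') := by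
          rw [RR, RR, h1 0 (by omega)]
          congr 1
          exact prod_congr rfl fun i hi => by
            rw [h1 i (by have := mem_range.1 hi; omega), h1 (i + 1) (by have := mem_range.1 hi; omega)]
        simp only [Set.indicator, h2, h3, h j j.lt_succ_self]
    simp only [e1, mul_assoc]
    refine this.trans (lintegral_congr fun W => ?_)
    rw [ih (fun i hi => hn i (hi.trans j.lt_succ_self))
      (F := fun U => K (per (n (j + 1)) W, U) * F (per (n (j + 1)) W))
      ((mK.comp measurable_prodMk_left).mul_const _), Ms.rhoG_eq, ← hn j j.lt_succ_self]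
    have m1 := (Ms.meas_itgG l (β * LL l ^ 2) ε (n (j + 1)) (measurable_rho l β ε j (n j)).2).comp
      ((measurable_prodMk_left (x := per (n (j + 1)) W)).comp (mp (n j)))
    refine Eq.trans (lintegral_congr fun U => ?_) (lintegral_mul_const _ m1)
    simp only [hK, Ms.itgG]
    split_ifs <;> simp [mul_assoc]

theorem sc_model {l : ℕ} (hl : 1 ≤ l) {a : ℝ} (ha : 1 ≤ a) (j n : ℕ) :
    (model l hl a ha).sc j (cv n) = fun i => cv ((LL l ^ (j - i) * n : ℕ) : ℤ) := by
  funext i μ
  simp [RGP.Model.sc, RGP.Model.rat, model]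

theorem dens_model {l : ℕ} (hl : 1 ≤ l) {a : ℝ} (ha : 1 ≤ a) (n : ℕ → ℕ) (j : ℕ) (w : Hs) :
    ENNReal.ofReal ((model l hl a ha).dens (RGP.fund j fun i => cv (n i)) w) =
      ∏ i ∈ range j, ∏ b ∈ lcube (n (i + 1)), hk a (lvl w (i + 1) b * (blk l (lvl w i) b)⁻¹) := by
  rw [RGP.Model.dens, RGP.fund, prod_biUnion, prod_range_succ']
  · simp only [prod_product, prod_singleton, RGP.Model.ker, if_true, prod_const_one, mul_one,
      Nat.succ_ne_zero, if_false]
    rw [ENNReal.ofReal_prod_of_nonneg fun _ _ => prod_nonneg fun _ _ => prod_nonneg fun _ _ =>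
      (model l hl a ha).h_nonneg _ _]
    refine prod_congr rfl fun i _ => ?_
    rw [lcube, prod_product, ENNReal.ofReal_prod_of_nonneg fun _ _ => prod_nonneg fun _ _ =>
      (model l hl a ha).h_nonneg _ _]
    refine prod_congr rfl fun x _ => ?_
    rw [ENNReal.ofReal_prod_of_nonneg fun _ _ => (model l hl a ha).h_nonneg _ _]
    exact prod_congr rfl fun μ _ => ENNReal.ofReal_toReal (hk_ne_top ha _)
  · intro i _ i' _ h
    exact disjoint_left.2 fun p h1 h2 => h
      ((mem_singleton.1 (mem_product.1 h1).1).symm.trans (mem_singleton.1 (mem_product.1 h2).1))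

/-- joint expectations of small field events in terms of the effective density -/
theorem JZ_good {l : ℕ} (hl : 1 ≤ l) {β : ℝ} (ha : 1 ≤ β * LL l ^ 2) (ε : ℝ) (j n : ℕ)
    {f : Conf → ℝ} (hf : BM f) (h0 : ∀ U, 0 ≤ f U) :
    ENNReal.ofReal ((model l hl _ ha).JZ (wpot β) j (cv n)
      fun w => RGP.ind (GoodH l ε j) w * f (lvl w j)) =
      ∫⁻ U, rhoG l β ε j n (per n U) * ENNReal.ofReal (f (per n U)) ∂PP := by
  have := lint_RR l β ε (fun i => LL l ^ (j - i) * n) j (fun i hi => by
    rw [← mul_assoc, ← pow_succ', show j - (i + 1) + 1 = j - i by omega]) hf.meas.ennreal_ofReal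
  simp only [Nat.sub_self, pow_zero, one_mul] at this
  have hb : BM fun w => RGP.ind (GoodH l ε j) w * f (lvl w j) :=
    (RGP.BM.ind (meas_GoodH l ε j)).mul (hf.comp (RGP.measurable_lvl j))
  rw [← this, RGP.Model.JZ, ofReal_integral_eq_lintegral_ofReal
    (((model l hl _ ha).bm_JZ (pot_wpot β) j _ hb).integrable _)
    (ae_of_all _ fun w => mul_nonneg (RGP.BW_pos _ _).le (mul_nonneg
      (mul_nonneg (RGP.ind_nonneg _ _) (h0 _)) ((model l hl _ ha).dens_nonneg _ _)))]
  refine lintegral_congr fun w => ?_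
  rw [sc_model, ENNReal.ofReal_mul (RGP.BW_pos _ _).le, ENNReal.ofReal_mul
    (mul_nonneg (RGP.ind_nonneg _ _) (h0 _)), dens_model, RGP.lvl_pcH, RGP.lvl_pcH, BW_wpot]
  simp only [Nat.sub_self, pow_zero, one_mul]
  by_cases h : pcH (fun i => cv ((LL l ^ (j - i) * n : ℕ) : ℤ)) w ∈ GoodH l ε j
  · rw [RGP.ind_of_mem h, Set.indicator_of_mem h, RR, one_mul, mul_assoc, mul_comm (∏ _ ∈ _, _)]
    rfl
  · rw [RGP.ind_of_not h, Set.indicator_of_notMem h]
    simp

theorem norm_sub_le_two (g : S3) : ‖g.q - 1‖ ≤ 2 :=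
  (norm_sub_le _ _).trans (by rw [g.norm_q, norm_one]; norm_num)

theorem rhoG_two (l : ℕ) (β : ℝ) (j n : ℕ) : rhoG l β 2 j n = rho l β j n := by
  induction j generalizing n with
  | zero => rfl
  | succ j ih =>
    funext W
    simp only [rho, rhoG, ih, curvG, noiseG, norm_sub_le_two, implies_true, and_self, if_true]

/-- the output of the renormalisation group in terms of joint expectations -/
theorem Sand.jz {l : ℕ} (hl : 1 ≤ l) {β : ℝ} (ha : 1 ≤ β * LL l ^ 2) {ε gam Del : ℝ} {k M : ℕ}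
    (h : Sand l β ε k M gam Del) {j : ℕ} (hj : j ≤ k) : ∃ E : ℝ, ∀ n : ℕ, M ≤ n →
      (model l hl _ ha).JZ (wpot β) j (cv n) (RGP.ind (GoodH l ε j)) ≤
        Real.exp ((E + gam) * n ^ 4) ∧
      (model l hl _ ha).JZ (wpot β) j (cv n)
        (RGP.ind (GoodH l ε j ∩ {w | ¬ curvG ε (lvl w j)})) ≤ Real.exp ((E + gam) * n ^ 4 - Del) ∧
      Real.exp ((E - gam) * n ^ 4) ≤ (model l hl _ ha).JZ (wpot β) j (cv n) fun _ => 1 := by
  classical
  obtain ⟨E, hE⟩ := h j hj
  refine ⟨E, fun n hn => ⟨?_, ?_, ?_⟩⟩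
  · have := JZ_good hl ha ε j n (BM.const 1) fun _ => zero_le_one
    simp only [mul_one, ENNReal.ofReal_one] at this
    exact (ENNReal.ofReal_le_ofReal_iff (Real.exp_pos _).le).1 (this ▸ (hE n hn).1)
  · have := JZ_good hl ha ε j n (RGP.BM.ind (Ms.meas_curv ε).compl) (RGP.ind_nonneg _)
    refine (ENNReal.ofReal_le_ofReal_iff (Real.exp_pos _).le).1 (le_trans (le_of_eq ?_) (hE n hn).2.1)
    convert this using 3 with w U
    · funext w
      by_cases h : curvG ε (lvl w j) <;> by_cases h' : w ∈ GoodH l ε j <;> simp [RGP.ind, h, h']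
    · by_cases h : curvG ε (per n w) <;> simp [h]
  · have := JZ_good hl ha 2 j n (BM.const 1) fun _ => zero_le_one
    have e : ∀ w, RGP.ind (GoodH l 2 j) w = 1 := fun w => RGP.ind_of_mem fun i _ =>
      ⟨fun _ _ _ => norm_sub_le_two _, fun _ => norm_sub_le_two _⟩
    simp only [mul_one, ENNReal.ofReal_one, e, rhoG_two] at this
    by_contra hc
    exact absurd (this ▸ (hE n hn).2.2)
      (not_le.2 ((ENNReal.ofReal_lt_ofReal_iff (Real.exp_pos _)).2 (not_le.1 hc)))

end Pool.Agent.Lib.MP_7f377f_mp.RG.Pv
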