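import Pool.Agent.Lib.MP_7f377f_mp.PAct

/-! The chessboard estimate for cells of side `s`. -/

namespace Pool.Agent.Lib.MP_7f377f_mp.RGP

open MeasureTheory Measure Function

set_option linter.unusedSectionVars false

variable {d : ℕ} {G : Type} [MeasurableSpace G] (μ : Measure G) [IsProbabilityMeasure μ]
  [Group G] [MeasurableMul₂ G] [MeasurableInv G] [μ.IsInvInvariant] [μ.IsMulRightInvariant]
  {u : (Lk d → G) → ℝ}

/-- constant vector -/
abbrev cv (s : ℤ) : St d := fun _ => s

/-- odd coordinates of a cell -/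
def od (c : St d) : Fin d → Bool := fun i => decide (Odd (c i))

/-- placement in the cell `c`, reflected along the odd coordinates -/
def plc (s : ℤ) (c : St d) (W : Lk d → G) : Lk d → G := act (od c) ((c + iv (od c)) * cv s) W

theorem measurable_plc (s : ℤ) (c : St d) : Measurable (plc (G := G) s c) := measurable_act _ _

/-- integer representative -/
def cst {L : ℕ} (x : Weak.Site d L) : St d := fun i => ((x i).val : ℤ)

theorem prod_cst {L : ℕ} [NeZero L] (g : St d → ℝ) :
    ∏ c ∈ box (cv (L : ℤ)), g c = ∏ x : Weak.Site d L, g (cst x) := by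
  symm
  refine Finset.prod_nbij' cst (fun c i => (c i : ZMod L)) (fun x _ => mem_box.mpr fun i => ?_)
    (fun _ _ => Finset.mem_univ _) (fun x _ => ?_) (fun c hc => ?_) fun _ _ => rfl
  · exact ⟨Int.natCast_nonneg _, Int.ofNat_lt.mpr (ZMod.val_lt _)⟩
  · funext i; simp [cst]
  · funext i
    have := mem_box.mp hc i
    simp only [cst, ZMod.val_intCast]
    exact Int.emod_eq_of_lt this.1 this.2

theorem plc_congr {m s : ℤ} {c c' a : St d} {T : Fin d → Bool}
    (h : ∀ i, 2 * m ∣ c' i - (c i + a i)) (hT : T = od a) (w : Lk d → G) :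
    plc s c' (act T0 (-a * cv s) (pc (cv (2 * m * s)) w)) =
      act T (iv T * cv s) (plc s c (pc (cv (2 * m * s)) w)) := by
  have hp : ∀ i, od c' i = xor (od a i) (od c i) := by
    intro i
    obtain ⟨q, hq⟩ := h i
    simp only [od, Int.odd_iff]
    by_cases h1 : a i % 2 = 1 <;> by_cases h2 : c i % 2 = 1 <;> simp [h1, h2] <;>
      rw [mul_assoc] at hq <;> omega
  simp only [plc, act_act, hT, Bool.xor_false, Bool.false_eq_true, if_false]
  rw [show od c' = fun i => xor (od a i) (od c i) from funext hp]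
  refine act_pc_congr (fun i => ?_) _ _
  obtain ⟨q, hq⟩ := h i
  refine ⟨-q, ?_⟩
  have : c' i = c i + a i + 2 * m * q := by linarith
  cases h1 : od a i <;> cases h2 : od c i <;> simp [iv, h1, h2, this] <;> ring

theorem plc_refl {m s : ℤ} {c c' : St d} {k : Fin d} (h : ∀ i, i ≠ k → c' i = c i)
    (hk : c' k = 2 * m - 1 - c k) (w : Lk d → G) :
    plc s c (act (T1 k) 0 (pc (cv (2 * m * s)) w)) = plc s c' (pc (cv (2 * m * s)) w) := by
  have hp : ∀ i, od c' i = xor (od c i) (T1 k i) := by
    intro i
    by_cases hi : i = k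
    · subst hi
      simp only [od, Int.odd_iff, hk, T1]
      by_cases h2 : c i % 2 = 1 <;> simp [h2] <;> omega
    · simp [od, T1, hi, h i hi]
  simp only [plc, act_act]
  rw [show od c' = fun i => xor (od c i) (T1 k i) from funext hp]
  refine act_pc_congr (fun i => ?_) _ _
  by_cases hi : i = k
  · subst hi
    refine ⟨1, ?_⟩
    cases h2 : od c i <;> simp [iv, T1, h2, hk] <;> ring
  · simp [T1, hi, h i hi, iv]

theorem dep_plc {s h : ℤ} (hs : 0 < s) {c : St d} {k : Fin d} (h0 : 0 ≤ c k)
    (h1 : (c k + 1) * s ≤ h) {F : (Lk d → G) → ℝ} (hF : DependsOn F (cell (cv s))) :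
    DependsOn (fun W => F (plc s c W)) (slab k h) := by
  refine dep_act hF fun e he => ?_
  have a := he k
  have := mul_nonneg h0 hs.le
  simp only [slab, mv, Set.mem_ofPred_eq, iv, Pi.mul_apply, Pi.add_apply] at a ⊢
  split_ifs <;> constructor <;> nlinarith

theorem Pot.chess_const (hu : Pot u) {s : ℤ} (hs : 0 < s) {m : ℕ} (hm : 0 < m) {β : Type}
    [Fintype β] {f : β → (Lk d → G) → ℝ} (bf : ∀ b, BM (f b)) (pf : ∀ b W, 0 ≤ f b W)
    (df : ∀ b, DependsOn (f b) (cell (cv s)))
    (hρ : ∀ T b, ∃ b', ∀ W, f b' W = f b (RGP.act T (iv T * cv s) W)) (σ : St d → β) :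
    ∃ b, (ZZ μ u (cv (2 * m * s)) fun W => ∏ c ∈ box (cv (2 * m)), f (σ c) (plc s c W)) ≤
      ZZ μ u (cv (2 * m * s)) fun W => ∏ c ∈ box (cv (2 * m)), f b (plc s c W) := by
  have : NeZero (2 * m) := ⟨by omega⟩
  have hn : ∀ i : Fin d, 0 < cv (2 * m * s) i := fun _ => by positivity
  have e0 : (cv (2 * m) : St d) = cv ((2 * m : ℕ) : ℤ) := by simp
  simp only [e0, prod_cst]
  have bp : ∀ (τ : Weak.Site d (2 * m) → β) (S : Finset (Weak.Site d (2 * m))),
      BM fun W => ∏ x ∈ S, f (τ x) (plc s (cst x) W) := fun τ S =>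
    BM.prod fun x _ => (bf _).comp (measurable_plc _ _)
  refine chess_abs (L := 2 * m) rfl
    (fun τ => ZZ μ u (cv (2 * m * s)) fun W => ∏ x, f (τ x) (plc s (cst x) W))
    (fun τ => ZZ_nonneg μ _ fun W => Finset.prod_nonneg fun _ _ => pf _ _) (fun τ a => ?_)
    (fun τ k => ?_) fun x => σ (cst x)
  · choose π hπ using hρ (od (cst a))
    refine ⟨π, ?_⟩
    rw [← hu.zz_act μ hn (bp τ _).meas T0 (-cst a * cv s)]
    refine ZZ_congr μ _ fun w => ?_
    refine Eq.trans ?_ (Equiv.prod_comp (Equiv.addRight a) _)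
    refine Finset.prod_congr rfl fun x _ => ?_
    rw [hπ, ← plc_congr (c' := cst (x + a)) (fun i => ?_) rfl]
    · rfl
    · simp only [cst, Pi.add_apply, ZMod.val_add]
      push_cast
      exact Int.dvd_emod_sub_self
  · set hb : St d := update (cv (2 * m * s)) k (m * s) with hhb
    have hms : (0 : ℤ) < m * s := by positivity
    have e1 : ∀ w : Lk d → G, BW u hb (pc (cv (2 * m * s)) w) *
        BW u hb (RGP.act (T1 k) 0 (pc (cv (2 * m * s)) w)) =
        BW u (cv (2 * m * s)) (pc (cv (2 * m * s)) w) := by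
      intro w
      refine Eq.trans ?_ (hu.tile hn hb Finset.univ (fun b : Bool => if b then T1 k else T0)
        (fun _ => 0) (fun b _ b' _ x hx x' hx' H => ?_) ?_ w)
      · simp [act_zero, mul_comm]
      · have a1 := mem_box.mp hx k
        have a2 := mem_box.mp hx' k
        have a3 := H k
        simp only [hhb, update_self] at a1 a2
        have a4 := eq_of_dvd a3 (by simp only [cv]; split_ifs <;> simp <;> nlinarith)
          (by simp only [cv]; split_ifs <;> simp <;> nlinarith)
        have e : b = b' := by cases b <;> cases b' <;> simp [T1] at a4 ⊢ <;> omega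
        subst e
        refine ⟨rfl, funext fun i => ?_⟩
        by_cases hi : i = k
        · subst hi
          cases b <;> simpa [T1] using a4
        · have b1 := mem_box.mp hx i
          have b2 := mem_box.mp hx' i
          have b3 := H i
          simp only [hhb, update_of_ne hi] at b1 b2
          refine eq_of_dvd (n := cv (2 * m * s) i) ?_ (by omega) (by omega)
          cases b <;> simpa [T1, hi] using b3
      · have : (cv (2 * m * s) : St d) = update (1 : St d) k 2 * hb := by
          funext i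
          by_cases hi : i = k
          · simp [hi, hhb, mul_assoc]
          · simp [hi, hhb]
        rw [this, card_box_mul (fun i => by by_cases hi : i = k <;> simp [hi])
          (fun i => by by_cases hi : i = k <;> simp [hi, hhb, hms, hm, hs]), card_box]
        refine Nat.mul_le_mul_right _ (le_of_eq ?_)
        rw [Finset.prod_eq_single k (fun i _ hi => by simp [hi]) (by simp)]
        simp
    have e : ∀ τ τ' : Weak.Site d (2 * m) → β, (TI μ (cv (2 * m * s)) fun W =>
        (BW u hb W * ∏ x with (x k).val < m, f (τ x) (plc s (cst x) W)) *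
        (BW u hb (RGP.act (T1 k) 0 W) *
          ∏ x with (x k).val < m, f (τ' x) (plc s (cst x) (RGP.act (T1 k) 0 W)))) =
        ZZ μ u (cv (2 * m * s)) fun W => ∏ x, f (Weak.symp m k τ τ' x) (plc s (cst x) W) := by
      intro τ τ'
      refine TI_congr μ _ fun w => ?_
      simp only
      rw [mul_mul_mul_comm, e1, Weak.prod_half rfl k]
      congr 2
      · refine Finset.prod_congr rfl fun x hx => ?_
        rw [Weak.symp, if_pos (Finset.mem_filter.mp hx).2]
      · refine Finset.prod_congr rfl fun x hx => ?_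
        have := (Finset.mem_filter.mp hx).2
        rw [Weak.symp, if_neg (by rw [Weak.rc_val]; omega), Weak.rc_rc,
          plc_refl (c' := cst (Weak.rc k x)) (fun i hi => by simp only [cst, Weak.rc_ne hi])
            (by simp only [cst, Weak.rc_val]; omega)]
    have dA : ∀ τ : Weak.Site d (2 * m) → β, DependsOn
        (fun W => BW u hb W * ∏ x with (x k).val < m, f (τ x) (plc s (cst x) W)) (slab k (m * s)) :=
      fun τ => DependsOn.mul' ((hu.bw_dep hb).mono fun e (he : e ∈ cell hb) => by
        simpa [hhb] using he k) (dep_prod fun x hx => dep_plc hs (Int.natCast_nonneg _)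
          (mul_le_mul_of_nonneg_right (by
            have := (Finset.mem_filter.mp hx).2
            simp only [cst]; omega) hs.le) (df _))
    have := two_slab μ (n := cv (2 * m * s)) (k := k) hms hms (by simp only [cv]; ring)
      (Finset.univ : Finset Unit) (fun _ => (hu.bw hb).mul (bp τ _))
      (fun _ => (hu.bw hb).mul (bp (fun x => τ (Weak.rc k x)) _)) (fun _ => dA τ)
      fun _ => dA fun x => τ (Weak.rc k x)
    have e3 : update (cv (2 * m * s) : St d) k (2 * (m * s)) = cv (2 * m * s) := by
      rw [← mul_assoc]; exact update_eq_self k _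
    simp only [Finset.univ_unique, Finset.sum_singleton, e3, e] at this
    have e2 : Weak.symp m k τ (fun x => τ (Weak.rc k x)) = τ := by
      funext x; simp [Weak.symp, Weak.rc_rc]
    rw [e2] at this
    exact ⟨_, this⟩

/-- chessboard estimate combined with the transfer to the torus of side `2 s` -/
theorem Pot.chess (hu : Pot u) {s : ℤ} (hs : 0 < s) {m : ℕ} (hm : 0 < m) {β : Type}
    [Fintype β] {f : β → (Lk d → G) → ℝ} (bf : ∀ b, BM (f b)) (pf : ∀ b W, 0 ≤ f b W)
    (df : ∀ b, DependsOn (f b) (cell (cv s))) (N : β → ℝ) (hN : ∀ b, 0 < N b)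
    (hρ : ∀ T b, ∃ b', N b' = N b ∧ ∀ W, f b' W = f b (RGP.act T (iv T * cv s) W))
    (hb : ∀ b, (∀ W, f b W = N b) ∨ ZZ μ u (cv (2 * s)) (mir (f b)) ^ (2 * m) ^ d ≤
      (N b ^ (2 * m) ^ d * ZZ μ u (cv (2 * m * s)) fun _ => 1) ^ 2 ^ d) (σ : St d → β) :
    (ZZ μ u (cv (2 * m * s)) fun W =>
      ∏ c ∈ box (cv (2 * m)), f (σ c) (RGP.act T0 (c * cv s) W)) ≤
      (∏ c ∈ box (cv (2 * m)), N (σ c)) * ZZ μ u (cv (2 * m * s)) fun _ => 1 := by
  have hcard : (box (cv (2 * m : ℤ) : St d)).card = (2 * m) ^ d := by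
    rw [card_box, show (2 * m : ℤ) = (2 * m : ℕ) by simp]
    simp only [Int.toNat_natCast, Finset.prod_const, Finset.card_univ, Fintype.card_fin]
  choose ρ hρN hρ using hρ
  have hinv : ∀ c b W, f (ρ (od c) b) (plc s c W) = f b (RGP.act T0 (c * cv s) W) := by
    intro c b W
    rw [hρ, plc, act_act]
    congr 2
    · funext i; simp
    · funext i
      cases h : od c i <;> simp [iv, h]
      ring
  have hinv' : ∀ c b W, f (ρ (od c) b) (RGP.act T0 (c * cv s) W) = f b (plc s c W) := by
    intro c b W
    rw [hρ, plc, act_act]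
    congr 2
    · funext i; simp
    · funext i
      simp only [Bool.false_eq_true, if_false, Pi.mul_apply, Pi.add_apply]
      ring
  obtain ⟨b, h⟩ := hu.chess_const μ hs hm (f := fun b W => (N b)⁻¹ * f b W)
    (fun b => (BM.const _).mul (bf b)) (fun b W => mul_nonneg (inv_pos.mpr (hN b)).le (pf b W))
    (fun b => DependsOn.mul' (fun _ _ _ => rfl) (df b))
    (fun T b => ⟨ρ T b, fun W => by rw [hρN, hρ]⟩) fun c => ρ (od c) (σ c)
  simp only [Finset.prod_mul_distrib, ZZ_mul, hinv, hρN, Finset.prod_const, hcard,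
    Finset.prod_inv_distrib] at h
  have hZ := (hu.zz_pos μ (cv (2 * m * s))).le
  have h1 : (ZZ μ u (cv (2 * m * s)) fun W => ∏ c ∈ box (cv (2 * m)), f b (plc s c W)) ≤
      N b ^ (2 * m) ^ d * ZZ μ u (cv (2 * m * s)) fun _ => 1 := by
    rcases hb b with hb | hb
    · simp only [hb, Finset.prod_const, hcard, ← ZZ_mul, mul_one, le_refl]
    · refine (pow_le_pow_iff_left₀ (ZZ_nonneg μ _ fun W => Finset.prod_nonneg fun _ _ => pf _ _)
        (mul_nonneg (pow_pos (hN b) _).le hZ) (pow_pos two_pos d).ne').mp (le_trans ?_ hb)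
      have := hu.hs μ (h := cv s) (m := cv m) (fun _ => hs) (fun _ => by simpa using hm)
        (F := fun c => f (ρ (od c) b)) (fun c => bf _) (fun c => pf _) fun c => df _
      simp only [hinv'] at this
      refine this.trans (le_of_eq ?_)
      rw [← hcard, ← Finset.prod_const]
      refine Finset.prod_congr rfl fun c _ => ?_
      have hn : ∀ i : Fin d, 0 < cv (2 * s) i := fun _ => by positivity
      rw [← hu.zz_act μ hn (bf b).mir.meas T0 (iv (od c) * cv s)]
      refine ZZ_congr μ _ fun w => ?_
      simp only [mir, hρ, act_act]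
      rw [← Equiv.prod_comp (Function.Involutive.toPerm
        (fun (T : Fin d → Bool) i => xor (od c i) (T i)) fun T => by funext i; simp)]
      refine Finset.prod_congr rfl fun T _ => ?_
      congr 1
      simp only [Function.Involutive.coe_toPerm, Bool.xor_false, Bool.false_eq_true, if_false,
        ← Bool.xor_assoc, Bool.xor_self, Bool.false_xor]
      refine act_pc_congr (fun i => ?_) _ _
      simp only [Pi.mul_apply, Pi.ofNat_apply]
      split_ifs
      · exact ⟨iv (od c) i, by ring⟩
      · simp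
  rw [inv_pow, inv_mul_le_iff₀ (Finset.prod_pos fun c _ => hN _)] at h
  refine h.trans (mul_le_mul_of_nonneg_left ?_ (Finset.prod_nonneg fun c _ => (hN _).le))
  rwa [inv_mul_le_iff₀ (pow_pos (hN b) _)]

end Pool.Agent.Lib.MP_7f377f_mp.RGP
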