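import Pool.Agent.Lib.MP_7f377f_mp.RGAp1
import Pool.Agent.Lib.MP_7f377f_mp.KitHaar

/-! The unit quaternions and the special unitary group of two by two matrices. -/

noncomputable section

namespace Pool.Agent.Lib.MP_7f377f_mp.RG.Pv

open MeasureTheory Measure Kit
open scoped Quaternion

/-- the matrix of a quaternion -/
def Qm (q : ℍ) : M2 := !![⟨q.re, q.imI⟩, ⟨q.imJ, q.imK⟩; ⟨-q.imJ, q.imK⟩, ⟨q.re, -q.imI⟩]

/-- the quaternion of a matrix -/
def mQ (M : M2) : ℍ := ⟨(M 0 0).re, (M 0 0).im, (M 0 1).re, (M 0 1).im⟩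

theorem Qm_mul (p q : ℍ) : Qm (p * q) = Qm p * Qm q := by
  ext i j
  fin_cases i <;> fin_cases j <;> simp [Qm, Matrix.mul_apply, Fin.sum_univ_two, Complex.ext_iff] <;>
    constructor <;> ring

theorem isQ_Qm (q : ℍ) : IsQ (Qm q) := by
  rw [isQ_iff]
  simp [Qm, Complex.ext_iff]

theorem det_Qm (q : ℍ) : (Qm q).det = ((‖q‖ ^ 2 : ℝ) : ℂ) := by
  rw [norm_q_sq, Matrix.det_fin_two, Complex.ext_iff, Complex.ofReal_re, Complex.ofReal_im]
  simp [Qm]
  constructor <;> ring

theorem trace_Qm (q : ℍ) : (Qm q).trace = ((2 * q.re : ℝ) : ℂ) := by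
  rw [Matrix.trace_fin_two, Complex.ext_iff, Complex.ofReal_re, Complex.ofReal_im]
  simp [Qm]
  ring

theorem mQ_Qm (q : ℍ) : mQ (Qm q) = q := rfl

theorem Qm_mQ {M : M2} (h : IsQ M) : Qm (mQ M) = M := by
  obtain ⟨h0, h1⟩ := (isQ_iff M).1 h
  ext i j
  fin_cases i <;> fin_cases j <;> simp [Qm, mQ, h0, h1, Complex.ext_iff]

theorem norm_mQ (u : SU2) : ‖mQ u.1‖ = 1 := by
  have h := det_Qm (mQ u.1)
  rw [Qm_mQ (isQ_su2 u), show u.1.det = 1 from u.2.2, eq_comm, Complex.ofReal_eq_one] at h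
  exact (sq_eq_sq₀ (norm_nonneg _) zero_le_one).1 (by rw [h, one_pow])

/-- the isomorphism -/
def iso : S3 ≃* SU2 where
  toFun g := ⟨Qm g.q, mem_su2 (isQ_Qm _) (by rw [det_Qm, g.norm_q]; simp)⟩
  invFun u := (⟨mQ u.1, mem_sphere_zero_iff_norm.2 (norm_mQ u)⟩ : Metric.sphere (0 : ℍ) 1)
  left_inv _ := rfl
  right_inv u := Subtype.ext (Qm_mQ (isQ_su2 u))
  map_mul' _ _ := Subtype.ext (Qm_mul _ _)

theorem iso_val (g : S3) : (iso g).1 = Qm g.q := rfl

theorem trace_iso (g : S3) : (iso g).1.trace = ((2 * g.q.re : ℝ) : ℂ) := trace_Qm _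

theorem continuous_iso : Continuous iso := by
  have h : ∀ {f g : S3 → ℝ}, Continuous f → Continuous g → Continuous fun x => (⟨f x, g x⟩ : ℂ) :=
    fun hf hg => Complex.equivRealProdCLM.symm.continuous.comp (hf.prodMk hg)
  have h0 := Quaternion.continuous_re.comp S3.continuous_q
  have h1 := Quaternion.continuous_imI.comp S3.continuous_q
  have h2 := Quaternion.continuous_imJ.comp S3.continuous_q
  have h3 := Quaternion.continuous_imK.comp S3.continuous_q
  refine Continuous.subtype_mk (continuous_matrix fun i j => ?_) _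
  fin_cases i <;> fin_cases j
  exacts [h h0 h1, h h2 h3, h h2.neg h3, h h0 h1.neg]

/-- the isomorphism as a homeomorphism -/
def isoH : S3 ≃ₜ SU2 := continuous_iso.homeoOfEquivCompactToT2 (f := iso.toEquiv)

variable [MeasurableSpace SU2] [BorelSpace SU2] (μ : Measure SU2) [μ.IsHaarMeasure]
  [IsProbabilityMeasure μ]

theorem mp_iso : MeasurePreserving iso haar μ := by
  refine ⟨continuous_iso.measurable, ?_⟩
  have : IsProbabilityMeasure (haar.map iso) :=
    isProbabilityMeasure_map continuous_iso.measurable.aemeasurable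
  have : IsHaarMeasure (haar.map iso) :=
    iso.isHaarMeasure_map haar continuous_iso isoH.symm.continuous
  exact isHaarMeasure_eq_of_isProbabilityMeasure _ _

/-- transport of Haar integrals -/
theorem int_iso {ι : Type} [Fintype ι] (F : (ι → SU2) → ℝ) :
    ∫ U, F U ∂Measure.pi (fun _ => μ) = ∫ U, F (fun i => iso (U i)) ∂Measure.pi fun _ => haar :=
  ((measurePreserving_pi _ _ fun _ => mp_iso μ).integral_comp
    (MeasurableEquiv.piCongrRight fun _ => isoH.toMeasurableEquiv).measurableEmbedding F).symm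

end Pool.Agent.Lib.MP_7f377f_mp.RG.Pv
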