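import Pool.Agent.Lib.MP_7f377f_mp.PTime

/-! Lower bounds for the correlation of two Polyakov loops from a trial state. -/

namespace Pool.Agent.Lib.MP_7f377f_mp.RGP

open MeasureTheory Measure Function
open scoped Quaternion

set_option linter.unusedSectionVars false

variable {d : ℕ} {G : Type} [MeasurableSpace G] [Group G] [MeasurableMul₂ G] [MeasurableInv G]
  {μ : Measure G} [IsProbabilityMeasure μ] [μ.IsInvInvariant] [μ.IsMulRightInvariant]
  {u : (Lk d → G) → ℝ}

/-- a representation by unit quaternions -/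
structure Rep (q : G →* ℍ) : Prop where
  bq : BQ q
  norm : ∀ g, ‖q g‖ = 1

variable {q : G →* ℍ}

theorem Rep.inv (h : Rep q) (g : G) : q g⁻¹ = star (q g) := by
  have h1 : q g * star (q g) = 1 := by
    rw [Quaternion.self_mul_star, Quaternion.normSq_eq_norm_mul_self, h.norm]; simp
  calc q g⁻¹ = q g⁻¹ * (q g * star (q g)) := by rw [h1, mul_one]
    _ = _ := by rw [← mul_assoc, ← map_mul, inv_mul_cancel, map_one, one_mul]

theorem Rep.ln (h : Rep q) (x : St d) (a : Fin d) (k : ℕ) :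
    BQ fun W : Lk d → G => q (ln W x a k) := h.bq.comp (measurable_ln x a k)

/-- trace of the transport along a line -/
noncomputable def pl (q : G →* ℍ) (x : St d) (a : Fin d) (T : ℕ) (W : Lk d → G) : ℝ :=
  2 * (q (ln W x a T)).re

theorem Rep.pl (h : Rep q) (x : St d) (a : Fin d) (T : ℕ) : BM (pl q x a T) :=
  (BM.const 2).mul (h.ln x a T 0)

theorem act_th (a : Fin d) (v : ℤ) (W : Lk d → G) :
    act T0 (Pi.single a v) (act (T1 a) 0 W) = act (T1 a) 0 (act T0 (Pi.single a (-v)) W) := by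
  rw [act_act, act_act]
  congr 1
  · funext i; simp
  · funext i
    by_cases hi : i = a <;> simp [T1, hi]

theorem act_T0 (v v' : St d) (W : Lk d → G) : act T0 v (act T0 v' W) = act T0 (v + v') W := by
  rw [act_act]
  rfl

theorem ln_th {x : St d} {a : Fin d} (hx : x a = 0) (W : Lk d → G) (k : ℕ) :
    ln (act (T1 a) 0 W) x a k = (ln W (x - Pi.single a (k : ℤ)) a k)⁻¹ := by
  have : sm (T1 a) 0 x = x := funext fun i => by by_cases hi : i = a <;> simp [sm, T1, hi, hx]
  simp [ln_act, this, T1]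

theorem ln_slab {x : St d} {a : Fin d} (hx : x a = 0) {k : ℕ} {h : ℤ} (hk : k ≤ h) :
    DependsOn (fun W : Lk d → G => ln W x a k) (slab a h) :=
  ln_dep fun s hs => by simp only [slab, dl, hx, Set.mem_ofPred_eq, Pi.add_apply,
    Pi.single_eq_same, if_true]; omega

theorem upd_pos {n : St d} (hn : ∀ i, 0 < n i) (a : Fin d) {T : ℤ} (hT : 0 < T) (i : Fin d) :
    0 < update n a T i := by
  by_cases hi : i = a <;> simp [hi, hn, hT]

section trial
variable (q) (a : Fin d) (x y : St d) (Φ : (Lk d → G) → ℍ)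

/-- the trial state propagated along two static lines -/
noncomputable def Fm (m : ℕ) (W : Lk d → G) : ℍ :=
  q (ln W x a m) * Φ (act T0 (Pi.single a (m : ℤ)) W) * star (q (ln W y a m))

theorem Fm_succ (m : ℕ) (W : Lk d → G) : Fm q a x y Φ (m + 1) W =
    q (W (x, a)) * Fm q a x y Φ m (act T0 (Pi.single a 1) W) * star (q (W (y, a))) := by
  simp only [Fm, add_comm m 1, ln_add, ln_one, ln_T0, act_T0, map_mul, star_mul, mul_assoc,
    Nat.cast_add, Nat.cast_one, Pi.single_add, add_comm (Pi.single a (1 : ℤ) : St d)]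

variable (μ u) (n : St d) (H : ℕ)

/-- matrix elements of the transfer matrix -/
noncomputable def AA (m m' : ℕ) : ℝ := ZZ μ u (update n a ((H + m : ℕ) + (H + m' : ℕ))) fun W =>
  inner ℝ (Fm q a x y Φ m W) (Fm q a x y Φ m' (act (T1 a) 0 W))

variable {q a x y Φ μ u n H} (hu : Pot u) (hq : Rep q) (hn : ∀ i, 0 < n i) (hx : x a = 0)
  (hy : y a = 0) (hH : 0 < H) (bΦ : BQ Φ) (dΦ : DependsOn Φ (slab a H))

include hq bΦ in
theorem bq_Fm (m : ℕ) : BQ (Fm q a x y Φ m) :=
  ((hq.ln x a m).mul (bΦ.comp (measurable_act _ _))).mul (hq.ln y a m).star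

include hx hy dΦ in
theorem dep_Fm (m : ℕ) : DependsOn (Fm q a x y Φ m) (slab a (H + m : ℕ)) := fun W W' h => by
  have h1 := ln_slab hx (k := m) (by omega) h
  have h2 := ln_slab hy (k := m) (by omega) h
  have h3 := dep_act dΦ (T := T0) (a := Pi.single a (m : ℤ)) (fun e he => by
    simp only [slab, mv, Set.mem_ofPred_eq, Bool.false_eq_true, if_false,
      Pi.single_eq_same] at he ⊢
    omega) h
  simp only at h1 h2 h3
  simp only [Fm, h1, h2, h3]

include hu hq hn hx hy hH bΦ in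
theorem AA_shift (m m' : ℕ) : AA μ u q a x y Φ n H (m + 1) m' = AA μ u q a x y Φ n H m (m' + 1) := by
  rw [AA, AA, show ((H + (m + 1) : ℕ) + (H + m' : ℕ) : ℤ) = (H + m : ℕ) + (H + (m' + 1) : ℕ) by
    push_cast; ring, ← hu.zz_act μ (upd_pos hn a (by omega)) ((bq_Fm hq bΦ m).inner
      ((bq_Fm hq bΦ (m' + 1)).comp (measurable_act _ _))).meas T0 (Pi.single a 1)]
  refine ZZ_congr μ _ fun w => ?_
  have e : ∀ z : St d, z a = 0 → ∀ W : Lk d → G,
      q (act (T1 a) 0 (act T0 (Pi.single a 1) W) (z, a)) = star (q (W (z, a))) := fun z hz W => by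
    rw [← ln_one (act _ _ _), ln_th hz, ln_T0, hq.inv, ln_one]
    simp
  rw [Fm_succ, Fm_succ, inner_conj, e x hx, e y hy, star_star, act_th, act_T0,
    ← Pi.single_add, neg_add_cancel, Pi.single_zero, act_zero]

include hu hq hx hy hH bΦ dΦ in
theorem AA_cs (m m' : ℕ) :
    AA μ u q a x y Φ n H m m' ^ 2 ≤ AA μ u q a x y Φ n H m m * AA μ u q a x y Φ n H m' m' := by
  simp only [AA, ← sum_cp]
  exact hu.two n (by omega) (by omega) _ (bq_Fm hq bΦ m) (bq_Fm hq bΦ m')
    (fun i _ _ h => congrArg (cp i) (dep_Fm hx hy dΦ m h))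
    fun i _ _ h => congrArg (cp i) (dep_Fm hx hy dΦ m' h)

include hu hq hx hy hH bΦ dΦ in
theorem AA_nonneg (m : ℕ) : 0 ≤ AA μ u q a x y Φ n H m m := by
  simp only [AA, ← sum_cp]
  exact hu.rp n (by omega) _ (bq_Fm hq bΦ m) fun i _ _ h => congrArg (cp i) (dep_Fm hx hy dΦ m h)

include hu hq hn hx hy hH bΦ dΦ in
theorem AA_poly (nΦ : ∀ W, ‖Φ W‖ ≤ 1) {m : ℕ} (hm : 0 < m) : AA μ u q a x y Φ n H m m ^ 2 ≤
    (ZZ μ u (update n a (4 * m : ℕ)) fun W => pl q x a (4 * m) W * pl q y a (4 * m) W) *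
      ZZ μ u (update n a (4 * H : ℕ)) fun _ => 1 := by
  have e : ∀ k m', AA μ u q a x y Φ n H m' k = AA μ u q a x y Φ n H (m' + k) 0 := fun k => by
    induction k with
    | zero => exact fun _ => rfl
    | succ k ih => intro m'; rw [← AA_shift hu hq hn hx hy hH bΦ, ih, add_right_comm, add_assoc]
  have b1 := bΦ.comp (measurable_act (T1 a) (Pi.single a (H + H : ℕ)))
  have := hu.two (μ := μ) n (a := a) (h := (m + m : ℕ)) (h' := (H + H : ℕ)) (by omega) (by omega)
    (Finset.univ : Finset (Fin 4 × Fin 4))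
    (F := fun p W => cp p.1 (q (ln W x a (m + m)) * bs p.2 * star (q (ln W y a (m + m)))))
    (F' := fun p W => cp p.2 (Φ (act (T1 a) (Pi.single a (H + H : ℕ)) W)) * cp p.1 (Φ W))
    (fun p => ((hq.ln x a _).mul (BQ.const _)).mul (hq.ln y a _).star _)
    (fun p => (b1 _).mul (bΦ _)) (fun p W W' h => by
      have h1 := ln_slab hx le_rfl h
      have h2 := ln_slab hy le_rfl h
      simp only at h1 h2
      simp only [h1, h2]) fun p W W' h => by
      have h1 := dep_act dΦ (T := T1 a) (a := Pi.single a (H + H : ℕ)) (fun e he => by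
        simp only [slab, mv, Set.mem_ofPred_eq, T1, decide_true, if_true,
          Pi.single_eq_same] at he ⊢
        omega) h
      have h2 := dΦ.mono (t := slab a (H + H : ℕ)) (fun e he => ⟨he.1, he.2.trans (by omega)⟩) h
      simp only at h1
      simp only [h1, h2]
  have e4 : ∀ k : ℕ, ((k + k : ℕ) + (k + k : ℕ) : ℤ) = (4 * k : ℕ) := fun k => by omega
  rw [e4, e4] at this
  have e1 : ∀ z : St d, z a = 0 → ∀ w, 2 * (q (ln (pc (update n a (4 * m : ℕ)) w) z a (m + m)) *
      star (q (ln (act (T1 a) 0 (pc (update n a (4 * m : ℕ)) w)) z a (m + m)))).re =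
        pl q z a (4 * m) (pc (update n a (4 * m : ℕ)) w) := fun z hz w => by
    rw [ln_th hz, hq.inv, star_star, ← map_mul, sub_eq_add_neg, ← ln_T0,
      act_pc_congr (a' := Pi.single a (m + m : ℕ)) fun i => ?_, ln_T0, ← ln_add, pl,
      show m + m + (m + m) = 4 * m by ring]
    by_cases hi : i = a
    · exact ⟨1, by simp [hi]; ring⟩
    · simp [hi]
  have e2 := ZZ_congr μ (u := u) (update n a (4 * m : ℕ)) (F := fun W => ∑ p : Fin 4 × Fin 4,
    cp p.1 (q (ln W x a (m + m)) * bs p.2 * star (q (ln W y a (m + m)))) *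
    cp p.1 (q (ln (act (T1 a) 0 W) x a (m + m)) * bs p.2 *
      star (q (ln (act (T1 a) 0 W) y a (m + m)))))
    (F' := fun W => pl q x a (4 * m) W * pl q y a (4 * m) W) fun w => by
      rw [sum_cp_bs, e1 x hx, e1 y hy]
  rw [← e2]
  refine le_trans (le_of_eq ?_) (this.trans (mul_le_mul_of_nonneg_left ?_ ?_))
  · rw [e, AA, show ((H + (m + m) : ℕ) + (H + 0 : ℕ) : ℤ) = (m + m : ℕ) + (H + H : ℕ) by omega]
    refine congrArg (· ^ 2) (ZZ_congr μ _ fun w => ?_)
    have e3 : act (T1 a) (Pi.single a (H + H : ℕ)) (act (T1 a) 0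
        (pc (update n a ((m + m : ℕ) + (H + H : ℕ))) w)) = act T0 (Pi.single a (m + m : ℕ))
          (pc (update n a ((m + m : ℕ) + (H + H : ℕ))) w) := by
      rw [act_act, act_pc_congr (a' := Pi.single a (m + m : ℕ)) fun i => ?_]
      · simp only [Bool.xor_self]
      by_cases hi : i = a
      · exact ⟨1, by simp [hi, T1]; ring⟩
      · simp [hi, T1]
    rw [e3, ← sum_cp, Fintype.sum_prod_type]
    refine Finset.sum_congr rfl fun i _ => ?_
    rw [Fm, cp_mul, Finset.sum_mul]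
    simp [Fm, ln, act_zero, mul_assoc]
  · refine hu.zz_mono μ _ (BM.sum fun p _ => ((b1 _).mul (bΦ _)).mul
      (((b1 _).mul (bΦ _)).comp (measurable_act _ _))) (BM.const 1) fun w => ?_
    have : ∀ A B C D : ℍ, ∑ p : Fin 4 × Fin 4, cp p.2 A * cp p.1 B * (cp p.2 C * cp p.1 D) =
        inner ℝ A C * inner ℝ B D := fun A B C D => by
      simp only [← sum_cp, Fintype.sum_prod_type, Fin.sum_univ_four]
      ring
    rw [this]
    have h1 : ∀ V V', |inner ℝ (Φ V) (Φ V')| ≤ 1 := fun V V' =>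
      (abs_real_inner_le_norm _ _).trans (mul_le_one₀ (nΦ _) (norm_nonneg _) (nΦ _))
    exact (le_abs_self _).trans ((abs_mul _ _).trans_le (mul_le_one₀ (h1 _ _) (abs_nonneg _) (h1 _ _)))
  · rw [← e4]
    exact hu.rp n (by omega) _ (fun p => ((hq.ln x a _).mul (BQ.const _)).mul (hq.ln y a _).star _)
      fun p W W' h => by
        have h1 := ln_slab hx le_rfl h
        have h2 := ln_slab hy le_rfl h
        simp only at h1 h2
        simp only [h1, h2]

include hu hq hx hy bΦ dΦ in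
theorem poly_time {n : St d} (hn : ∀ i, 0 < n i) (nΦ : ∀ W, ‖Φ W‖ ≤ 1) {κ : ℝ} (hκ : 0 < κ)
    (h1 : κ * (ZZ μ u (update (2 * n) a (2 * H + 2 : ℕ)) fun _ => 1) ≤
      AA μ u q a x y Φ (2 * n) H 1 1) {m : ℕ} (hm : 0 < m) (hmH : 2 * m ≤ H) :
    κ ^ (2 * m) * ((ZZ μ u (update (2 * n) a 4) fun _ => 1) /
      (ZZ μ u (update (2 * n) a 2) fun _ => 1) ^ 2) *
        (ZZ μ u (update (2 * n) a (4 * m : ℕ)) fun _ => 1) ≤
      ZZ μ u (update (2 * n) a (4 * m : ℕ)) fun W => pl q x a (4 * m) W * pl q y a (4 * m) W := by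
  have hH : 0 < H := by omega
  have hn' : ∀ i, 0 < (2 * n) i := fun i => mul_pos two_pos (hn i)
  set z : ℕ → ℝ := fun T => ZZ μ u (update (2 * n) a (T : ℕ)) fun _ => 1 with hz
  have z0 : ∀ T, 0 < z T := fun T => hu.zz_pos μ _
  have zc : ∀ j, z (2 * (j + 1) + 2) ^ 2 ≤ z (2 * (j + 2) + 2) * z (2 * j + 2) := fun j => by
    have := hu.two (μ := μ) (2 * n) (a := a) (h := j + 3) (h' := j + 1) (by omega) (by omega)
      (Finset.univ : Finset Unit) (F := fun _ _ => 1) (F' := fun _ _ => 1) (fun _ => BM.const 1)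
      (fun _ => BM.const 1) (fun _ _ _ _ => rfl) fun _ _ _ _ => rfl
    simp only [Finset.univ_unique, Finset.sum_singleton, mul_one] at this
    convert this using 4 <;> omega
  have z2 : z (4 * H) ≤ z (2 * H) ^ 2 := by
    have := hu.hs μ (h := update n a H) (m := update 1 a 2) (upd_pos hn a (by omega))
      (upd_pos (fun _ => one_pos) a two_pos) (F := fun _ _ => 1) (fun _ => BM.const 1)
      (fun _ _ => zero_le_one) fun _ _ _ _ => rfl
    simp only [Finset.prod_const_one] at this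
    rw [show mir (fun _ : Lk d → G => (1 : ℝ)) = fun _ => 1 from funext fun W => by simp [mir],
      Finset.prod_const, card_two (upd_pos (n := 1) (fun _ => one_pos) a two_pos), pow_mul,
      show (box (update (1 : St d) a 2)).card = 2 by
        rw [card_box, ← Finset.mul_prod_erase _ _ (Finset.mem_univ a),
          Finset.prod_eq_one fun i hi => by simp [Finset.ne_of_mem_erase hi]]
        simp,
      show 2 * update (1 : St d) a 2 * update n a H = update (2 * n) a (4 * H : ℕ) from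
        funext fun i => by by_cases hi : i = a <;> simp [hi],
      show 2 * update n a H = update (2 * n) a (2 * H : ℕ) from
        funext fun i => by by_cases hi : i = a <;> simp [hi]] at this
    exact le_of_pow_le_pow_left₀ (by positivity) (pow_pos (z0 _) _).le this
  obtain ⟨H, rfl⟩ : ∃ k, H = k + 1 := ⟨H - 1, by omega⟩
  obtain ⟨m, rfl⟩ : ∃ k, m = k + 1 := ⟨m - 1, by omega⟩
  have y1 := lc_le (f := fun j => z (2 * j + 2)) (fun _ _ => z0 _) (fun j _ => zc j)
    (show 1 ≤ H + 1 by omega) le_rfl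
  have y2 := lc_le (f := fun j => z (2 * j + 2)) (fun _ _ => z0 _) (fun j _ => zc j)
    (show 2 * m + 1 ≤ H + 1 by omega) le_rfl
  set r := z (2 * (H + 1) + 2) / z (2 * H + 2) with hr
  have r0 : 0 < r := div_pos (z0 _) (z0 _)
  set α : ℕ → ℝ := fun j => AA μ u q a x y Φ (2 * n) (H + 1) j j with hα
  have αc : ∀ j, α (j + 1) ^ 2 ≤ α (j + 2) * α j := fun j => by
    simp only [hα, ← AA_shift hu hq hn' hx hy hH bΦ (j + 1) j]
    exact AA_cs hu hq hx hy hH bΦ dΦ _ _
  have α1 : 0 < α 1 := (mul_pos hκ (z0 _)).trans_le h1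
  have α0 := lc_pos (K := m + 2) (f := α) (fun j _ => AA_nonneg hu hq hx hy hH bΦ dΦ j)
    (fun j _ => αc j) (i := 0) (by omega) α1
  have αz : α 0 ≤ z (2 * H + 2) := by
    simp only [hα, hz, AA, show ((H + 1 + 0 : ℕ) + (H + 1 + 0 : ℕ) : ℤ) = (2 * H + 2 : ℕ) by omega]
    refine hu.zz_mono μ _ ((bq_Fm hq bΦ 0).inner ((bq_Fm hq bΦ 0).comp (measurable_act _ _)))
      (BM.const 1) fun w => (real_inner_le_norm _ _).trans ?_
    simp only [Fm, ln, map_one, one_mul, star_one, mul_one]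
    exact mul_le_one₀ (nΦ _) (norm_nonneg _) (nΦ _)
  have h2 : κ * r * z (2 * H + 2) ≤ α 1 := by
    rw [mul_assoc, hr, div_mul_cancel₀ _ (z0 _).ne']
    exact h1
  have h3 : κ * r ≤ α 1 / α 0 := by
    rw [le_div_iff₀ (α0 0 (by omega))]
    exact (mul_le_mul_of_nonneg_left αz (by positivity)).trans h2
  have h4 : (κ * r) ^ (m + 1) * z (2 * H + 2) ≤ α (m + 1) := by
    have := lc_pow α0 (fun j _ => αc j) (i := 1) (j := m + 1) (by omega) (by omega)
    rw [pow_one, le_div_iff₀ (α0 0 (by omega)), pow_succ, mul_assoc,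
      div_mul_cancel₀ _ (α0 0 (by omega)).ne'] at this
    rw [pow_succ, mul_assoc]
    exact (mul_le_mul (pow_le_pow_left₀ (by positivity) h3 _) h2 (mul_pos (by positivity)
      (z0 _)).le (pow_pos (div_pos α1 (α0 0 (by omega))) _).le).trans this
  have h5 := (pow_le_pow_left₀ (mul_pos (by positivity) (z0 _)).le h4 2).trans
    (AA_poly hu hq hn' hx hy hH bΦ dΦ nΦ hm)
  rw [mul_pow] at h5
  have h6 := le_of_mul_le_mul_right ((mul_le_mul_of_nonneg_left z2 (by positivity)).trans h5) (z0 _)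
  refine le_trans ?_ h6
  have := mul_le_mul y1 y2 (div_pos (z0 _) (z0 _)).le (by positivity)
  rw [← pow_mul, mul_comm (m + 1), mul_pow, mul_assoc]
  refine mul_le_mul_of_nonneg_left (le_trans (le_of_eq ?_) (this.trans_eq (by ring))) (by positivity)
  rw [show 2 * (2 * m + 1) + 2 = 4 * (m + 1) by ring, div_mul_div_comm, div_mul_eq_mul_div, sq]
  rfl

end trial

theorem poly_space (hu : Pot u) (hq : Rep q) {n : St d} (hn : ∀ i, 0 < n i) {a b : Fin d}
    (hab : a ≠ b) (T : ℕ) {h : ℕ} (e : n b = h + h) {i j : ℕ} (hi : 0 < i) (hij : i ≤ j)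
    (hj : j ≤ h) {c : ℝ} (hc : 0 < c) (H : c * (4 * ZZ μ u n fun _ => 1) ≤
      ZZ μ u n fun W => pl q (Pi.single b (2 * i : ℕ)) a T W * pl q 0 a T W) {y : ℝ}
    (hy : y ^ i ≤ c ^ j) : y * (4 * ZZ μ u n fun _ => 1) ≤
      ZZ μ u n fun W => pl q (Pi.single b (2 * j : ℕ)) a T W * pl q 0 a T W := by
  have hZ := hu.zz_pos μ n
  rcases hij.eq_or_lt with rfl | hij
  · exact (mul_le_mul_of_nonneg_right (le_of_pow_le_pow_left₀ hi.ne' hc.le hy)
      (by positivity)).trans H
  have e0 : update n b (h + h) = n := by rw [← e, update_eq_self]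
  set f : ℕ → ℝ := fun R => ZZ μ u n fun W => pl q (Pi.single b (R : ℕ)) a T W * pl q 0 a T W
    with hf
  have e1 : ∀ s s' : ℕ, (ZZ μ u n fun W => ∑ _ : Unit, pl q (Pi.single b s) a T W *
      pl q (Pi.single b s') a T (act (T1 b) 0 W)) = f (s + s') := fun s s' => by
    rw [hf]
    simp only
    rw [← hu.zz_act μ hn ((hq.pl _ a T).mul (hq.pl 0 a T)).meas T0 (-Pi.single b (s' : ℤ))]
    have : sm (T1 b) 0 (Pi.single b (s' : ℤ)) = -Pi.single b (s' : ℤ) := funext fun k => by
      by_cases hk : k = b <;> simp [sm, T1, hk]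
    simp [pl, ln_act, this, T1, hab, sm_T0, Pi.single_add]
  have dp : ∀ s : ℕ, s ≤ h → DependsOn (pl q (Pi.single b (s : ℤ)) a T) (slab b h) :=
    fun s hs W W' hW => by
      have := ln_dep (G := G) (x := Pi.single b (s : ℤ)) (a := a) (k := T) (D := slab b h)
        (fun t _ => by simp [slab, dl, hab.symm, hs]) hW
      simp only at this
      simp only [pl, this]
  have f0 : ∀ s ≤ h, 0 ≤ f (2 * s) := fun s hs => by
    have := hu.rp (μ := μ) n (a := b) (h := h) (by omega) (Finset.univ : Finset Unit)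
      (fun _ => hq.pl (Pi.single b (s : ℤ)) a T) fun _ => dp s hs
    rwa [e0, e1, ← two_mul] at this
  have fc : ∀ s, s + 2 ≤ h → f (2 * (s + 1)) ^ 2 ≤ f (2 * (s + 2)) * f (2 * s) := fun s hs => by
    have := hu.two (μ := μ) n (a := b) (h := h) (h' := h) (by omega) (by omega)
      (Finset.univ : Finset Unit) (fun _ => hq.pl (Pi.single b (s + 2 : ℕ)) a T)
      (fun _ => hq.pl (Pi.single b (s : ℤ)) a T) (fun _ => dp _ hs) fun _ => dp s (by omega)
    rwa [e0, e1, e1, e1, ← two_mul, ← two_mul, show s + 2 + s = 2 * (s + 1) by ring] at this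
  have f4 : f 0 ≤ 4 * ZZ μ u n fun _ => 1 := by
    rw [← ZZ_mul]
    refine hu.zz_mono μ _ ((hq.pl _ a T).mul (hq.pl 0 a T)) (BM.const _) fun w => ?_
    have := Quaternion.normSq_eq_norm_mul_self (q (ln (pc n w) 0 a T))
    rw [hq.norm, Quaternion.normSq_def'] at this
    simp only [pl, Nat.cast_zero, Pi.single_zero]
    nlinarith [sq_nonneg (q (ln (pc n w) 0 a T)).imI, sq_nonneg (q (ln (pc n w) 0 a T)).imJ,
      sq_nonneg (q (ln (pc n w) 0 a T)).imK]
  obtain ⟨i, rfl⟩ : ∃ k, i = k + 1 := ⟨i - 1, by omega⟩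
  have fp := lc_pos (f := fun s => f (2 * s)) f0 fc (i := i) (by omega)
    ((by positivity : 0 < c * (4 * ZZ μ u n fun _ => 1)).trans_le H)
  have := lc_pow (f := fun s => if s = 0 then 4 * ZZ μ u n fun _ => 1 else f (2 * s)) (K := h)
    (fun s hs => by split_ifs; exacts [by positivity, fp s hs]) (fun s hs => by
      simp only [Nat.add_eq_zero_iff, one_ne_zero, two_ne_zero, and_false, if_false]
      split_ifs with h0
      · subst h0
        exact (fc 0 hs).trans (mul_le_mul_of_nonneg_left f4 (f0 _ hs))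
      · exact fc s hs) hij.le hj
  simp only [Nat.add_eq_zero_iff, one_ne_zero, and_false, if_false, if_true,
    show j ≠ 0 by omega] at this
  exact (le_div_iff₀ (by positivity)).mp (le_of_pow_le_pow_left₀ hi.ne'
    (div_nonneg (f0 j hj) (by positivity)) (hy.trans ((pow_le_pow_left₀ hc.le
      ((le_div_iff₀ (by positivity)).mpr H) _).trans this)))

end Pool.Agent.Lib.MP_7f377f_mp.RGP
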