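import Mathlib

/-! Lattice gauge theory with gauge group `SU(2)` on a four dimensional discrete torus. -/

namespace Pool.Agent.Lib.MP_7f377f_mp.Poly

open MeasureTheory

abbrev SU2 : Type := Matrix.specialUnitaryGroup (Fin 2) ℂ

/-- sites of the torus with side lengths `N i` -/
abbrev Site (N : Fin 4 → ℕ) : Type := (i : Fin 4) → ZMod (N i)

variable {N : Fin 4 → ℕ}

/-- parallel transport along `k` steps in direction `i` starting at `x` -/
def line (U : Site N × Fin 4 → SU2) (x : Site N) (i : Fin 4) (k : ℕ) : SU2 :=
  ((List.range k).map fun s : ℕ => U (x + Pi.single i (s : ZMod (N i)), i)).prod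

/-- holonomy around the plaquette with corner `x` spanned by the directions `i`, `j` -/
def plaq (U : Site N × Fin 4 → SU2) (x : Site N) (i j : Fin 4) : SU2 :=
  U (x, i) * U (x + Pi.single i 1, j) * (U (x + Pi.single j 1, i))⁻¹ * (U (x, j))⁻¹

/-- trace of the holonomy around the torus in direction `0` -/
noncomputable def polyakov (U : Site N × Fin 4 → SU2) (x : Site N) : ℝ :=
  (line U x 0 (N 0)).1.trace.re

variable [∀ i, NeZero (N i)]

/-- the Wilson action -/
noncomputable def action (U : Site N × Fin 4 → SU2) : ℝ :=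
  ∑ x, ∑ i, ∑ j, if i < j then (plaq U x i j).1.trace.re else 0

/-- expectation in the Wilson lattice gauge measure -/
noncomputable def expect [MeasurableSpace SU2] (μ : Measure SU2) (β : ℝ)
    (F : (Site N × Fin 4 → SU2) → ℝ) : ℝ :=
  (∫ U, F U * Real.exp (β * action U) ∂Measure.pi fun _ => μ) /
    ∫ U : Site N × Fin 4 → SU2, Real.exp (β * action U) ∂Measure.pi fun _ => μ

end Pool.Agent.Lib.MP_7f377f_mp.Poly
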