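import Pool.Agent.Lib.MP_7f377f_mp.PBr
import Pool.Agent.Lib.MP_7f377f_mp.PIso
import Pool.Agent.Lib.MP_7f377f_mp.PPoly
import Pool.Agent.Lib.MP_7f377f_mp.PolyDefs

/-! Expectations on the discrete torus in terms of periodic patterns. -/

noncomputable section

namespace Pool.Agent.Lib.MP_7f377f_mp.Poly

open MeasureTheory Finset RG RG.Pv
open scoped Quaternion

/-- the defining representation of the unit quaternions -/
def qh : S3 →* ℍ where
  toFun := S3.q
  map_one' := rfl
  map_mul' _ _ := rfl

theorem rep_qh : RGP.Rep qh where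
  bq i := by
    have h : ∀ {f : ℍ → ℝ}, Continuous f → (∀ q, f q ^ 2 ≤ ‖q‖ ^ 2) → RGP.BM fun g : S3 => f g.q :=
      fun hf h => ⟨(hf.comp S3.continuous_q).measurable, 1, fun g =>
        abs_le_one_iff_mul_self_le_one.2 (by simpa [g.norm_q, sq] using h g.q)⟩
    fin_cases i
    · exact h (f := fun q => q.re) Quaternion.continuous_re fun q => by rw [norm_q_sq]; nlinarith
    · exact h (f := fun q => q.imI) Quaternion.continuous_imI fun q => by rw [norm_q_sq]; nlinarith
    · exact h (f := fun q => q.imJ) Quaternion.continuous_imJ fun q => by rw [norm_q_sq]; nlinarith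
    · exact h (f := fun q => q.imK) Quaternion.continuous_imK fun q => by rw [norm_q_sq]; nlinarith
  norm := S3.norm_q

variable {N : Fin 4 → ℕ}

/-- reduction modulo the periods -/
def cst (N : Fin 4 → ℕ) (x : St) : Site N := fun i => (x i : ZMod (N i))

theorem cst_add (x y : St) : cst N (x + y) = cst N x + cst N y := funext fun _ => Int.cast_add _ _

theorem cst_single (i : Fin 4) (k : ℤ) :
    cst N (Pi.single i k) = Pi.single i (k : ZMod (N i)) := funext fun j => by
  by_cases h : j = i
  · subst h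
    simp [cst]
  · simp [cst, h]

theorem cst_eq {x y : St} : cst N x = cst N y ↔ ∀ i, (N i : ℤ) ∣ y i - x i := by
  simp only [funext_iff, cst, ZMod.intCast_eq_intCast_iff_dvd_sub]

/-- the periodic field -/
def lift (U : Site N × Fin 4 → S3) : Conf := fun e => U (cst N e.1, e.2)

theorem hol_lift (U : Site N × Fin 4 → S3) (x : St) (i j : Fin 4) :
    2 * (hol Inv.inv (lift U) x i j).q.re =
      (plaq (fun e => iso (U e)) (cst N x) i j).1.trace.re := by
  simp only [plaq, ← map_inv, ← map_mul, trace_iso, Complex.ofReal_re, hol, lift, cst_add, un,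
    cst_single, Int.cast_one]

theorem ln_lift (U : Site N × Fin 4 → S3) (x : St) (i : Fin 4) (k : ℕ) :
    iso (RGP.ln (lift U) x i k) = line (fun e => iso (U e)) (cst N x) i k := by
  induction k with
  | zero => exact map_one iso
  | succ k ih =>
    rw [RGP.ln, map_mul, ih]
    simp [line, List.range_succ, lift, cst_add, cst_single]

theorem pl_lift (U : Site N × Fin 4 → S3) (x : St) :
    RGP.pl qh x 0 (N 0) (lift U) = polyakov (fun e => iso (U e)) (cst N x) := by
  rw [polyakov, ← ln_lift, trace_iso, Complex.ofReal_re]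
  rfl

variable [∀ i, NeZero (N i)]

theorem sum_cst (f : Site N → ℝ) (c : St) :
    ∑ x ∈ RGP.box fun i => (N i : ℤ), f (cst N (c + x)) = ∑ s, f s := by
  rw [← Equiv.sum_comp (Equiv.addLeft (cst N c))]
  refine sum_bij (fun x _ => cst N x) (fun _ _ => mem_univ _) (fun x hx y hy h => funext fun i => ?_)
    (fun s _ => ⟨fun i => (s i).val, RGP.mem_box.2 fun i => ⟨Int.natCast_nonneg _,
      Int.ofNat_lt.2 (ZMod.val_lt _)⟩, funext fun i => by simp [cst]⟩) fun x _ => by
        rw [cst_add, Equiv.coe_addLeft]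
  have h1 := RGP.mem_box.1 hx i
  have h2 := RGP.mem_box.1 hy i
  exact RGP.eq_of_dvd (cst_eq.1 h i) (by omega) (by omega)

theorem BW_lift (β : ℝ) (U : Site N × Fin 4 → S3) :
    RGP.BW (wpot β) (fun i => (N i : ℤ)) (lift U) = Real.exp (β * action fun e => iso (U e)) := by
  have : ∀ T, ∑ x ∈ RGP.box fun i => (N i : ℤ), w0 (RGP.act T (RGP.iv T) (sh x (lift U))) =
      action fun e => iso (U e) := fun T => by
    have e : ∀ x, RGP.act T (RGP.iv T) (sh x (lift U)) =
        RGP.act T 0 (sh (RGP.iv T + x) (lift U)) := fun x => by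
      rw [← act_T0, ← act_T0, RGP.act_act, RGP.act_act]
      simp
    simp only [w0, action, e]
    rw [sum_comm, sum_comm (s := univ) (t := univ) (f := fun (x : Site N) i => _)]
    refine sum_congr rfl fun μ _ => ?_
    rw [sum_comm, sum_comm (s := univ) (t := univ) (f := fun (x : Site N) i => _)]
    refine sum_congr rfl fun ν _ => ?_
    split_ifs with h
    · simp only [hol_act (φ := fun g : S3 => g.q.re) Ms.re_conj re_inv T, hol_sh, ← add_assoc,
        hol_lift]
      exact sum_cst (fun s => (plaq (fun e => iso (U e)) s μ ν).1.trace.re) _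
    · simp
  simp only [RGP.BW, act_T0, wpot, ← mul_sum]
  rw [sum_comm]
  simp only [this, sum_const, card_univ, Fintype.card_pi, Fintype.card_bool, prod_const,
    Fintype.card_fin, nsmul_eq_mul]
  push_cast
  ring_nf

theorem TI_lift {F : Conf → ℝ} (hF : Measurable F) :
    RGP.TI haar (fun i => (N i : ℤ)) F = ∫ U, F (lift (N := N) U) ∂Measure.pi fun _ => haar := by
  rw [← Measure.infinitePi_eq_pi]
  exact RGP.int_pat haar hF (dependsOn_univ F) (φ' := fun e : Lk => (cst N e.1, e.2))
    (s' := fun _ => false) (fun e _ e' _ => by rw [RGP.per_eq, Prod.mk.injEq, cst_eq, and_comm])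
    fun _ _ _ _ _ => rfl

variable [MeasurableSpace SU2] [BorelSpace SU2] (μ : Measure SU2) [μ.IsHaarMeasure]
  [IsProbabilityMeasure μ]

theorem expect_lift (β : ℝ) {F : (Site N × Fin 4 → SU2) → ℝ} {f : Conf → ℝ} (hf : Measurable f)
    (h : ∀ U, f (lift U) = F fun e => iso (U e)) : expect μ β F =
      RGP.ZZ haar (wpot β) (fun i => (N i : ℤ)) f /
        RGP.ZZ haar (wpot β) (fun i => (N i : ℤ)) fun _ => 1 := by
  have m := ((pot_wpot β).bw fun i => (N i : ℤ)).meas
  rw [expect, int_iso, int_iso, RGP.ZZ, RGP.ZZ, TI_lift (m.fun_mul hf), TI_lift (m.mul_const _)]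
  simp only [BW_lift, h, mul_one, mul_comm (F _)]

theorem expect_eq (N : Fin 4 → ℕ) [∀ i, NeZero (N i)] (β : ℝ) (R : ℕ) :
    expect μ β (fun U : Site N × Fin 4 → SU2 =>
      polyakov U 0 * polyakov U (Pi.single 1 (R : ZMod (N 1)))) =
    RGP.ZZ haar (wpot β) (fun i => (N i : ℤ))
        (fun W => RGP.pl qh (Pi.single 1 (R : ℤ)) 0 (N 0) W * RGP.pl qh 0 0 (N 0) W) /
      RGP.ZZ haar (wpot β) (fun i => (N i : ℤ)) fun _ => 1 :=
  expect_lift μ β ((rep_qh.pl _ _ _).mul (rep_qh.pl _ _ _)).meas fun U => by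
    rw [pl_lift, pl_lift, cst_single, mul_comm, Int.cast_natCast,
      show cst N 0 = 0 from funext fun _ => Int.cast_zero]

end Pool.Agent.Lib.MP_7f377f_mp.Poly
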