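import Pool.Agent.Lib.MP_7f377f_mp.PInst
import Pool.Agent.Lib.MP_7f377f_mp.PInp
import Pool.Agent.Lib.MP_7f377f_mp.PFin

/-! From the output of the renormalisation group to the bound on the static potential. -/

noncomputable section

namespace Pool.Agent.Lib.MP_7f377f_mp.Poly

open MeasureTheory Function Real
open RG hiding Lk St
open RG.Pv RGP

theorem lnP_eq (U : Conf) (x : RG.St) (a : Fin 4) (k : ℕ) : lnP U x a k = RGP.ln U x a k := by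
  induction k with
  | zero => rfl
  | succ k ih => simp [lnP, RGP.ln, ih, un, ← Pi.single_smul]

theorem tow_bad {l : ℕ} (hl : 1 ≤ l) {a : ℝ} (ha : 1 ≤ a) {ε : ℝ} (hε : 0 ≤ ε) :
    (bad hl ha ε).Tow qh (fun _ => ε) fun _ => ε + 4 * (LL l : ℝ) ^ 2 * ε where
  nonneg _ := hε
  plaq j w hw a b := by
    by_cases hab : a = b
    · simpa [RGP.hol, hab] using Cl.rfl.mono hε
    refine not_lt.1 fun h => hw (.inl ⟨0, a, b, zero_mem_box 1, RG.mem_box.2 fun i => ?_, ?_⟩)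
    · simp only [Pi.add_apply, Pi.zero_apply, un_apply]
      omega
    · rwa [add_zero]
  link j w hw H a := by
    have h1 : Cl qh ε (w (j + 1, 0, a) * (blk l (lvl w j) (0, a))⁻¹) 1 :=
      not_lt.1 fun h => hw (.inr ⟨Nat.succ_ne_zero j, 0, a, zero_mem_box 1,
        by simpa using un_mem_box a, by rwa [add_zero]⟩)
    have h2 : Cl qh _ (blk l (lvl w j) (0, a) * (lnP (lvl w j) (up l 0) a (LL l))⁻¹) 1 :=
      blk_near hε fun x ν hx => H _ (fun i => by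
        have := hx i
        have h3 := un_apply a i
        have h4 := un_nonneg ν i
        simp only [up, smul_zero, add_zero, Pi.add_apply, model, LL_cast, abs_le,
          Pi.zero_apply] at this ⊢
        split_ifs at h3 <;> rw [h3] at this <;> omega) ν a
    rw [Cl.div rep_qh] at h1 h2
    simpa [lnP_eq, up, model] using h1.trans h2

theorem num {L P C a y : ℝ} {k : ℕ} (hL : 3 * (18 * 9 ^ 16) ^ 4 ≤ L) (hP : 1 ≤ P) (hk : k ≤ L)
    (C0 : 0 ≤ C) (hC : C * a ^ 2 ≤ exp L) (hy : L ^ 6 * P ≤ y) :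
    2 * (2 ^ 9 ^ 4 * exp (2 * L * ((18 * 9 ^ 16) ^ 4 * P))) ≤ exp (L ^ 2 * P) ∧
    2 * ((18 * 9 ^ 16) ^ 4 * P) * L ^ 4 ≤ exp (L ^ 2 * P) ∧
    2 * exp (L ^ 2 * P) * 2 ^ 4 * (exp (2 * L * ((18 * 9 ^ 16) ^ 4 * P) - L ^ 6 * P) +
      4 * ((18 * 9 ^ 16) ^ 4 * P) * (C * a ^ 2 * exp (-y))) ≤ exp (-(L ^ 4 * P)) ^ 2 ^ 4 ∧
    4 * (exp (-(L ^ 4 * P)) * exp (L ^ 2 * P) ^ (4 * k)) ≤ 1 ∧
    L ^ 3 * P * exp (L ^ 3 * P * 2 ^ 4) * 2 ^ 4 *
      (2 * (exp (-(L ^ 4 * P)) * exp (L ^ 2 * P) ^ (4 * k))) ≤ 1 := by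
  have c1 : (7000 : ℝ) ≤ (18 * 9 ^ 16) ^ 4 := by norm_num
  generalize ((18 * 9 ^ 16) ^ 4 : ℝ) = c at *
  have L1 : 100 ≤ L := by linarith
  have L0 : 0 < L := by linarith
  have e2 : ∀ n : ℕ, (2 : ℝ) ^ n ≤ exp n := fun n => by
    simpa using pow_le_pow_left₀ zero_le_two (add_one_le_exp 1 |>.trans_eq' (by norm_num)) n
  have p1 : L ≤ L * P := le_mul_of_one_le_right L0.le hP
  have p2 : 100 * (L * P) ≤ L ^ 2 * P := by nlinarith
  have p3 : 100 * (L ^ 2 * P) ≤ L ^ 3 * P := by nlinarith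
  have p4 : 100 * (L ^ 3 * P) ≤ L ^ 4 * P := by nlinarith
  have p5 : 100 * (L ^ 4 * P) ≤ L ^ 5 * P := by nlinarith
  have p6 : 100 * (L ^ 5 * P) ≤ L ^ 6 * P := by nlinarith
  have p7 : 3 * c * (L * P) ≤ L ^ 2 * P := by nlinarith
  have h1 : 2 * (2 ^ 9 ^ 4 * exp (2 * L * (c * P))) ≤ exp (L ^ 2 * P) := by
    rw [← mul_assoc, ← pow_succ']
    refine (mul_le_mul_of_nonneg_right (e2 _) (exp_pos _).le).trans ?_
    rw [← exp_add, exp_le_exp]
    push_cast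
    nlinarith
  have h2 : 2 * (c * P) * L ^ 4 ≤ exp (L ^ 2 * P) := by
    refine le_trans ?_ (pow_div_factorial_le_exp _ (by positivity) 3)
    have : L ^ 6 * P ≤ (L ^ 2 * P) ^ 3 := by
      rw [mul_pow, ← pow_mul]
      exact mul_le_mul_of_nonneg_left (le_self_pow₀ hP (by norm_num)) (by positivity)
    have h3 := mul_le_mul_of_nonneg_right hL (show 0 ≤ L ^ 4 * P by positivity)
    simp only [Nat.factorial, Nat.succ_eq_add_one]
    push_cast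
    nlinarith
  have h5 : exp (-(L ^ 4 * P)) * exp (L ^ 2 * P) ^ (4 * k) ≤ exp (-(90 * (L ^ 3 * P))) := by
    rw [← exp_nat_mul, ← exp_add, exp_le_exp]
    have := mul_le_mul_of_nonneg_right hk (show 0 ≤ L ^ 2 * P by positivity)
    push_cast
    nlinarith
  have h6 : L ^ 3 * P * exp (L ^ 3 * P * 2 ^ 4) * 2 ^ 4 * (2 * exp (-(90 * (L ^ 3 * P)))) ≤ 1 := by
    calc _ = L ^ 3 * P * 2 ^ 5 * exp (L ^ 3 * P * 2 ^ 4 + -(90 * (L ^ 3 * P))) := by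
          rw [exp_add]; ring
      _ ≤ exp (L ^ 3 * P) * exp (5 : ℕ) * exp (L ^ 3 * P * 2 ^ 4 + -(90 * (L ^ 3 * P))) := by
          gcongr
          exacts [by linarith [add_one_le_exp (L ^ 3 * P)], e2 5]
      _ ≤ 1 := by
          rw [← exp_add, ← exp_add, exp_le_one_iff]
          push_cast
          linarith
  refine ⟨h1, h2, ?_, ?_, le_trans (by gcongr) h6⟩
  · have a1 : exp (2 * L * (c * P) - L ^ 6 * P) ≤ exp (L ^ 2 * P + L - L ^ 6 * P) :=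
      exp_le_exp.2 (by nlinarith)
    have a2 : 4 * (c * P) * (C * a ^ 2 * exp (-y)) ≤ exp (L ^ 2 * P + L - L ^ 6 * P) := by
      rw [sub_eq_add_neg, exp_add, exp_add, mul_assoc (exp _)]
      have : 2 ≤ L ^ 4 := by nlinarith [sq_nonneg (L ^ 2), mul_le_mul L1 L1 (by norm_num) L0.le]
      gcongr
      nlinarith [mul_pos (show 0 < c by linarith) (show 0 < P by linarith)]
    calc _ ≤ 2 * exp (L ^ 2 * P) * 2 ^ 4 * (2 * exp (L ^ 2 * P + L - L ^ 6 * P)) := by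
          gcongr
          linarith
      _ = 2 ^ 6 * exp (L ^ 2 * P + (L ^ 2 * P + L - L ^ 6 * P)) := by rw [exp_add _ (_ - _)]; ring
      _ ≤ exp (6 : ℕ) * exp (L ^ 2 * P + (L ^ 2 * P + L - L ^ 6 * P)) := by
          gcongr
          exact e2 6
      _ ≤ _ := by
          rw [← exp_add, ← exp_nat_mul, exp_le_exp]
          push_cast
          linarith
  · calc _ ≤ exp (2 : ℕ) * exp (-(90 * (L ^ 3 * P))) := by
          gcongr
          exact (e2 2).trans_eq' (by norm_num)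
      _ ≤ 1 := by
          rw [← exp_add, exp_le_one_iff]
          push_cast
          linarith

theorem num_a {C L β : ℝ} {B : ℕ} (h : C * (4 * B + 5).factorial ≤ L) (L0 : 0 ≤ L) (b0 : 0 ≤ β)
    (b2 : β ≤ L ^ (2 * B)) : C * (β * L ^ 2) ^ 2 ≤ exp L := by
  refine le_trans ?_ (pow_div_factorial_le_exp _ L0 (4 * B + 5))
  rw [le_div_iff₀ (by positivity)]
  calc _ = C * (4 * B + 5).factorial * (β * L ^ 2) ^ 2 := by ring
    _ ≤ L * (L ^ (2 * B) * L ^ 2) ^ 2 := by gcongr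
    _ = _ := by ring

theorem num_k {L ε P k : ℝ} (L1 : 10 ^ 6 ≤ L) (k0 : 0 ≤ k) (hk : k ≤ L) (ε0 : 0 ≤ ε)
    (ε1 : ε * L ^ 10 ≤ 1) (hP : 1 ≤ P) : 0 < 1 - 1 / L ∧ exp (-(2 * (1 / L))) ≤ 1 - 1 / L ∧
      1 - 1 / L ≤ 1 - 8 * (k * (L ^ 2 * ε + (ε + 4 * L ^ 2 * ε))) ^ 2 -
        2 * ((2 + 2 * L * (18 ^ 4 * P)) / (L ^ 3 * P)) := by
  have L0 : 1 ≤ L := by linarith
  have hx1 : 1 / L ≤ 1 / 10 ^ 6 := one_div_le_one_div_of_le (by norm_num) L1
  have hx0 : 0 < 1 / L := by positivity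
  have a2 : k * (L ^ 2 * ε + (ε + 4 * L ^ 2 * ε)) ≤ 6 * (1 / L) := by
    rw [← mul_div_assoc, le_div_iff₀ (by linarith)]
    have : L ^ 4 * ε ≤ 1 := le_trans (mul_comm ε _ ▸ mul_le_mul_of_nonneg_left
      (pow_le_pow_right₀ L0 (by norm_num)) ε0) ε1
    have a3 := mul_le_mul_of_nonneg_right (one_le_pow₀ L0 (n := 2)) ε0
    calc _ ≤ L * (6 * (L ^ 2 * ε)) * L := by gcongr; linarith
      _ ≤ _ := by linarith
  have a3 : (2 + 2 * L * (18 ^ 4 * P)) / (L ^ 3 * P) ≤ 1 / L / 4 := by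
    rw [div_div, div_le_div_iff₀ (by positivity) (by positivity)]
    have a4 := mul_le_mul_of_nonneg_right L1 (show 0 ≤ L ^ 2 * P by positivity)
    have a5 := mul_le_mul L0 hP zero_le_one (by linarith)
    nlinarith
  have a4 := pow_le_pow_left₀ (by positivity) a2 2
  refine ⟨by linarith, ?_, by nlinarith⟩
  rw [exp_neg, inv_le_iff_one_le_mul₀ (exp_pos _)]
  nlinarith [add_one_le_exp (2 * (1 / L))]

theorem core (K B : ℕ) (hK : 2 ≤ K) : ∃ L0 : ℝ, ∀ (l k : ℕ) (β ε : ℝ), L0 ≤ LL l →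
    9 ^ 17 ∣ LL l → k ≤ LL l → 1 ≤ β → β ≤ (LL l : ℝ) ^ (2 * B) → 0 ≤ ε →
    ε * (LL l : ℝ) ^ 10 ≤ 1 → (LL l : ℝ) ^ (4 * K + 6) ≤ β * ε ^ 2 →
    Sand l β ε k (LL l ^ K) (LL l) ((LL l : ℝ) ^ (4 * K + 6)) → ∀ n : St 4, (∀ i, 0 < n i) →
    (∀ i, ((18 * LL l ^ K * LL l ^ k : ℕ) : ℤ) ∣ n i) → ∀ x : ℕ, x < LL l ^ k → ∀ T : ℕ, 0 < T →
      exp (-((4 * T : ℕ) / LL l)) * ((ZZ haar (wpot β) (update n 0 4) fun _ => 1) /
        (ZZ haar (wpot β) (update n 0 2) fun _ => 1) ^ 2) *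
        (ZZ haar (wpot β) (update n 0 (4 * T : ℕ)) fun _ => 1) ≤
      ZZ haar (wpot β) (update n 0 (4 * T : ℕ)) fun W =>
        pl qh (Pi.single 1 (x : ℤ)) 0 (4 * T) W * pl qh 0 0 (4 * T) W := by
  obtain ⟨C, C0, hC⟩ := Sand.inp
  refine ⟨max (3 * (18 * 9 ^ 16) ^ 4) (C * (4 * B + 5).factorial),
    fun l k β ε hL hd hk b1 b2 ε0 ε1 ε2 hS n n0 hn x hx T T0 => ?_⟩
  rw [max_le_iff] at hL
  have L1 : (10 : ℝ) ^ 6 ≤ LL l := le_trans (by norm_num) hL.1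
  have L2 : 10 ^ 6 ≤ LL l := by exact_mod_cast L1
  have L0 : (1 : ℝ) ≤ LL l := by linarith
  have hl : 1 ≤ l := by unfold LL at L2; omega
  have ha : 1 ≤ β * LL l ^ 2 := one_le_mul_of_one_le_of_one_le b1 (one_le_pow₀ L0)
  have hM : LL l ≤ LL l ^ K := le_self_pow₀ (by omega) (by omega)
  have hP : 1 ≤ (LL l : ℝ) ^ (4 * K) := one_le_pow₀ L0
  have hk' : (k : ℝ) ≤ LL l := by exact_mod_cast hk
  have hm : (16 : ℤ) ≤ (LL l ^ K : ℕ) := by omega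
  have eV : (18 * 9 ^ 16 * ((LL l ^ K : ℕ) : ℝ)) ^ 4 = (18 * 9 ^ 16) ^ 4 * (LL l : ℝ) ^ (4 * K) := by
    push_cast
    ring
  rw [add_comm, pow_add] at hS ε2
  choose! E hE using hC hl ha (by omega) ε0 (by linarith) hS
  rw [eV] at hE
  obtain ⟨h1, h2, h3, h4, h5⟩ := num hL.1 hP hk' C0 (num_a hL.2 (by linarith) (by linarith) b2)
    (ε2.trans (mul_le_mul_of_nonneg_right (le_mul_of_one_le_right (by linarith) (one_le_pow₀ L0 (n := 2)))
      (sq_nonneg ε)))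
  obtain ⟨g1, g2, g3⟩ := num_k L1 (Nat.cast_nonneg k) hk' ε0 ε1 hP
  have hδ := (bad hl ha ε).bad_unif _ (pot_wpot β) hm (by linarith) (by positivity) hE
    (by push_cast; ring) (fun _ => Int.natCast_dvd_natCast.2 hd) (fun _ => le_rfl) h1 h2
    (exp_pos _) h3 h4
  have := (tow_bad hl ha ε0).poly (pot_wpot β) rep_qh (a := 0) (b := 1) (x := x) (by simp)
    (by omega) (hE k le_rfl) (by linarith) hδ (by positivity) h5 g1 (g3.trans_eq (by
      simp only [model, Finset.sum_const, Finset.card_range, nsmul_eq_mul, Int.cast_natCast]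
      push_cast
      ring)) n0 (fun i => by rw [rat_model]; exact_mod_cast hn i) (Int.natCast_nonneg x)
    (by rw [rat_model]; exact_mod_cast hx) T0
  refine le_trans (mul_le_mul_of_nonneg_right (mul_le_mul_of_nonneg_right ?_
    (div_pos ((pot_wpot β).zz_pos _ _) (pow_pos ((pot_wpot β).zz_pos _ _) _)).le)
    ((pot_wpot β).zz_pos _ _).le) this
  rw [show -((4 * T : ℕ) / (LL l : ℝ)) = (2 * T : ℕ) * -(2 * (1 / (LL l : ℝ))) by push_cast; ring,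
    exp_nat_mul]
  exact pow_le_pow_left₀ (exp_pos _).le g2 _

theorem main (hS : ∃ K : ℕ, 2 ≤ K ∧ ∀ K2 : ℕ, ∃ B m0 : ℕ, 1 ≤ B ∧ ∀ m l : ℕ, m0 ≤ m →
    LL l = 9 ^ m → ∀ β : ℝ, (LL l : ℝ) ^ B ≤ β → β ≤ (LL l : ℝ) ^ (2 * B) → ∃ eps : ℝ, 0 ≤ eps ∧
      eps * (LL l : ℝ) ^ 10 ≤ 1 ∧ (LL l : ℝ) ^ K2 ≤ β * eps ^ 2 ∧
      Sand l β eps (3 ^ m) (LL l ^ K) (LL l) ((LL l : ℝ) ^ K2))
    [MeasurableSpace SU2] [BorelSpace SU2] (μ : Measure SU2) [μ.IsHaarMeasure]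
    [IsProbabilityMeasure μ] : ∃ c β₀ : ℝ, 0 < c ∧ ∀ β, β₀ ≤ β → ∃ q : ℕ, 0 < q ∧
      ∀ n : Fin 3 → ℕ, (∀ i, q ∣ n i) → ∃ C : ℝ, 0 < C ∧
        ∀ (N : Fin 4 → ℕ) [∀ i, NeZero (N i)], (∀ i, N i.succ = n i) → 4 ∣ N 0 →
          ∀ R : ℕ, R ≤ N 1 → Even R ∨ R ≤ exp (β ^ c) →
            C * exp (-(N 0 * (1 + R * exp (-β ^ c)) / β ^ c)) ≤ expect μ β
              fun U : Site N × Fin 4 → SU2 =>
                polyakov U 0 * polyakov U (Pi.single 1 (R : ZMod (N 1))) := by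
  obtain ⟨K, hK, hS⟩ := hS
  obtain ⟨B, m0, B1, hS⟩ := hS (4 * K + 6)
  obtain ⟨L0, hc⟩ := core K B hK
  obtain ⟨m1, hm1⟩ := pow_unbounded_of_one_lt L0 (show (1 : ℝ) < 9 by norm_num)
  have h9 : (1 : ℝ) < 9 ^ B := one_lt_pow₀ (by norm_num) (by omega)
  refine ⟨((4 * B : ℕ) : ℝ)⁻¹, (9 ^ B) ^ (m0 + m1 + 17), by positivity, fun β hβ => ?_⟩
  have b1 : 1 ≤ β := (one_le_pow₀ h9.le).trans hβ
  obtain ⟨m, h1, h2⟩ := exists_nat_pow_near b1 h9
  have hm : m0 + m1 + 17 ≤ m := Nat.le_of_lt_succ ((pow_lt_pow_iff_right₀ h9).1 (hβ.trans_lt h2))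
  obtain ⟨l, hl⟩ : ∃ l, LL l = 9 ^ m := by
    obtain ⟨l, hl⟩ : Odd (9 ^ m) := Odd.pow (by decide)
    exact ⟨l, hl.symm⟩
  have hL : (LL l : ℝ) = 9 ^ m := by rw [hl]; push_cast; rfl
  have b2 : β ≤ (LL l : ℝ) ^ (2 * B) := by
    rw [hL, ← pow_mul]
    rw [← pow_mul] at h2
    exact h2.le.trans (pow_le_pow_right₀ (by norm_num) (by nlinarith))
  obtain ⟨ε, ε0, ε1, ε2, hS⟩ := hS m l (by omega) hl β (by rwa [hL, pow_right_comm]) b2
  have k1 : 3 ^ m ≤ LL l := hl ▸ Nat.pow_le_pow_left (by norm_num) _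
  have hc := hc l (3 ^ m) β ε (hL ▸ hm1.le.trans (pow_le_pow_right₀ (by norm_num) (by omega)))
    (hl ▸ pow_dvd_pow _ (by omega)) k1 b1 b2 ε0 ε1 ε2 hS
  have L0 := LL_pos l
  have y0 : 0 < β ^ ((4 * B : ℕ) : ℝ)⁻¹ := by positivity
  have y1 : β ^ ((4 * B : ℕ) : ℝ)⁻¹ ≤ (3 ^ m : ℕ) := by
    rw [← pow_rpow_inv_natCast (Nat.cast_nonneg (3 ^ m)) (show 4 * B ≠ 0 by omega)]
    refine rpow_le_rpow (by linarith) (b2.trans_eq ?_) (by positivity)
    rw [hL, show (9 : ℝ) = 3 ^ 2 by norm_num, Nat.cast_pow, Nat.cast_ofNat]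
    simp only [← pow_mul]
    congr 1
    ring
  obtain ⟨i, hi⟩ : Odd (LL l ^ 3 ^ m) := Odd.pow ⟨l, rfl⟩
  have y2 : exp (β ^ ((4 * B : ℕ) : ℝ)⁻¹) ≤ 2 * i := by
    have a1 : exp (3 ^ m : ℕ) ≤ 3 ^ 3 ^ m := by
      rw [← exp_one_pow]
      exact pow_le_pow_left₀ (exp_pos 1).le (exp_one_lt_d9.le.trans (by norm_num)) _
    have a2 : 3 ^ 3 ^ m < LL l ^ 3 ^ m := Nat.pow_lt_pow_left (hl ▸ lt_of_lt_of_le (by norm_num)
      (le_self_pow₀ (by norm_num) (by omega))) (by positivity)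
    have a3 : 3 ^ 3 ^ m ≤ 2 * i := by omega
    exact (exp_le_exp.2 y1).trans (a1.trans (by exact_mod_cast a3))
  have y3 : β ^ ((4 * B : ℕ) : ℝ)⁻¹ ≤ LL l := y1.trans (by exact_mod_cast k1)
  generalize β ^ ((4 * B : ℕ) : ℝ)⁻¹ = y at y0 y1 y2 y3
  refine ⟨18 * LL l ^ K * LL l ^ 3 ^ m, by positivity, fun n hn => ?_⟩
  set n' : St 4 := Fin.cons (18 * LL l ^ K * LL l ^ 3 ^ m : ℕ) fun i => n i with hn'
  have z0 := fun n => (pot_wpot β).zz_pos haar n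
  set z := (ZZ haar (wpot β) (update n' 0 4) fun _ => 1) /
    (ZZ haar (wpot β) (update n' 0 2) fun _ => 1) ^ 2 with hz
  have z1 : 0 < min (z / 4) 1 := lt_min (div_pos (div_pos (z0 _) (pow_pos (z0 _) _)) four_pos) one_pos
  refine ⟨min (z / 4) 1 ^ (n 0 + 1), pow_pos z1 _, fun N _ hN ⟨T, hT⟩ R hR hR' => ?_⟩
  have N0 := fun i => NeZero.pos (N i)
  have e : update n' 0 (4 * T : ℕ) = fun i => (N i : ℤ) := funext fun i => by
    induction i using Fin.cases with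
    | zero => simp [hT]
    | succ i => simp [hn', hN]
  have hc := fun x hx => hc n' (fun i => by
      induction i using Fin.cases with
      | zero => simp only [hn', Fin.cons_zero]; positivity
      | succ i => simpa [hn', ← hN] using N0 i.succ) (fun i => by
      induction i using Fin.cases with
      | zero => exact dvd_rfl
      | succ i => exact Int.natCast_dvd_natCast.2 (hn i)) x hx T (by have := N0 0; omega)
  rw [e, ← hT, ← hz] at hc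
  have Z0 := z0 fun i => (N i : ℤ)
  have hc' := fun x hx => le_trans (show min (z / 4) 1 * exp (-(N 0 / LL l)) *
    (4 * ZZ haar (wpot β) (fun i => (N i : ℤ)) fun _ => 1) ≤ _ by
      have := mul_le_mul_of_nonneg_right (min_le_left (z / 4) 1) (mul_pos (exp_pos (-(N 0 / LL l))) Z0).le
      linarith) (hc x hx)
  have c1 : ∀ a b, 1 ≤ b → a ≤ (n 0 + 1) * b →
      (min (z / 4) 1 ^ (n 0 + 1)) ^ b ≤ min (z / 4) 1 ^ a := fun a b _ h => by
    rw [← pow_mul]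
    exact pow_le_pow_of_le_one z1.le (min_le_right _ _) h
  have c2 : ∀ a b : ℕ, a ≤ b * (1 + R * exp (-y)) →
      exp (-(N 0 * (1 + R * exp (-y)) / y)) ^ b ≤ exp (-(N 0 / LL l)) ^ a := fun a b h => by
    rw [← exp_nat_mul, ← exp_nat_mul, exp_le_exp, mul_neg, mul_neg, neg_le_neg_iff]
    calc _ = N 0 * a / (LL l : ℝ) := by ring
      _ ≤ N 0 * (b * (1 + R * exp (-y))) / y := by gcongr
      _ = _ := by ring
  rw [expect_eq, le_div_iff₀ Z0]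
  refine le_trans (mul_le_mul_of_nonneg_left (show _ ≤ 4 * _ by linarith)
    (mul_pos (pow_pos z1 _) (exp_pos _)).le) ?_
  by_cases hx : R < LL l ^ 3 ^ m
  · refine le_trans (mul_le_mul_of_nonneg_right ?_ (mul_pos four_pos Z0).le) (hc' R hx)
    simpa using mul_le_mul (c1 1 1 le_rfl (by omega)) (c2 1 1 (by simp; positivity))
      (pow_pos (exp_pos _) _).le (pow_pos z1 _).le
  obtain ⟨j, rfl⟩ := hR'.resolve_right fun h => by
    have : R ≤ 2 * i := by exact_mod_cast h.trans y2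
    omega
  obtain ⟨h, hh⟩ := hn 0
  have N1 : N 1 = n 0 := hN 0
  have i0 : 0 < i := by
    have := (exp_pos y).trans_le y2
    exact_mod_cast pos_of_mul_pos_right this zero_le_two
  rw [← two_mul]
  refine poly_space (pot_wpot β) rep_qh (fun i => Int.natCast_pos.2 (N0 i)) (by simp) _
    (h := 9 * LL l ^ K * LL l ^ 3 ^ m * h) (by rw [N1, hh]; push_cast; ring) i0 (by omega)
    (by nlinarith) (mul_pos z1 (exp_pos _)) (hc' (2 * i) (by omega)) ?_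
  rw [mul_pow, mul_pow]
  refine mul_le_mul (c1 j i i0 (by nlinarith)) (two_mul j ▸ c2 j i ?_) (pow_pos (exp_pos _) _).le
    (pow_pos z1 _).le
  have a1 := mul_le_mul_of_nonneg_right y2 (exp_pos (-y)).le
  rw [← exp_add, add_neg_cancel, exp_zero] at a1
  push_cast
  nlinarith [mul_le_mul_of_nonneg_left a1 (Nat.cast_nonneg (α := ℝ) j), Nat.cast_nonneg (α := ℝ) i]

end Pool.Agent.Lib.MP_7f377f_mp.Poly
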