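import Pool.Agent.Lib.MP_7f377f_mp.PLat

/-! The Hilbert-Schmidt inequality for a grid of cells. -/

namespace Pool.Agent.Lib.MP_7f377f_mp.RGP

open MeasureTheory Measure Function

set_option linter.unusedSectionVars false

variable {G : Type} [MeasurableSpace G] (μ : Measure G) [IsProbabilityMeasure μ]
  [Group G] [MeasurableMul₂ G] [MeasurableInv G] [μ.IsInvInvariant] [μ.IsMulRightInvariant]
  {d : ℕ}

theorem dep_act {α : Type} {F : (Lk d → G) → α} {D D' : Set (Lk d)} (hD : DependsOn F D)
    {T : Fin d → Bool} {a : St d} (h : ∀ e ∈ D, mv T a e ∈ D') :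
    DependsOn (fun W => F (act T a W)) D' :=
  (dep_pat hD _ _).mono (by rintro _ ⟨e, he, rfl⟩; exact h e he)

theorem hs_dir {n : St d} {k : Fin d} {h m : ℤ} (h0 : 0 < h) (hm : 0 < m) (hn : n k = 2 * m * h)
    {F : ℤ → (Lk d → G) → ℝ} (bF : ∀ i, BM (F i)) (hD : ∀ i, DependsOn (F i) (slab k h)) :
    (TI μ n fun W => ∏ i ∈ Finset.Ico 0 (2 * m), F i (act T0 (Pi.single k (i * h)) W)) ^ 2 ≤
      ∏ i ∈ Finset.Ico 0 (2 * m),
        TI μ (update n k (2 * h)) fun W => F i W * F i (act (T1 k) 0 W) := by
  have hlt : h < n k := by rw [hn]; nlinarith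
  set φ : ℤ → Lk d → Lk d := fun i => per n ∘ mv T0 (Pi.single k (i * h)) with hφ
  set K : ℤ → (Lk d → G) → ℝ := fun i w =>
    KK μ (wall k h) (φ i) (fun e => T0 e.2) (F i) (pat (φ i) (fun e => T0 e.2) w) with hK
  have bK : ∀ i, BM (K i) := fun i => ((bF i).KK μ _ _ _).comp (measurable_pat _ _)
  have hW : ∀ i, ∀ e ∈ slab k h, φ i e ∈ {e : Lk d | k ≠ e.2 ∧ h ∣ e.1 k} ↔ e ∈ wall k h := by
    intro i e he
    simp only [hφ, wall, Set.mem_ofPred_eq, comp_apply, per, mv, Bool.false_eq_true, if_false,
      Pi.single_eq_same]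
    refine and_congr_right fun hk => ?_
    rw [Int.emod_def, dvd_sub_left (Dvd.dvd.mul_right (by rw [hn]; exact Dvd.intro_left _ rfl) _),
      dvd_add_left (Dvd.intro_left _ rfl)]
    have := dl_cases k e.2
    simp only [slab, Set.mem_ofPred_eq] at he
    refine ⟨fun hd => ?_, fun hd => by rcases hd with hd | hd <;> simp [hd]⟩
    by_contra hc
    have := Int.le_of_dvd (by omega) hd
    omega
  have hdiv : ∀ i i' e e', φ i e = φ i' e' →
      e.2 = e'.2 ∧ 2 * m * h ∣ e'.1 k + i' * h - (e.1 k + i * h) := fun i i' e e' he => by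
    have := per_eq.mp he
    exact ⟨this.1, by simpa [mv, hn] using this.2 k⟩
  have e1 : (TI μ n fun W => ∏ i ∈ Finset.Ico 0 (2 * m), F i (act T0 (Pi.single k (i * h)) W)) =
      ∫ w, ∏ i ∈ Finset.Ico 0 (2 * m), K i w ∂PP μ (Lk d) := by
    simp only [TI, act_pc]
    have b1 : ∀ i, BM fun w : Lk d → G => F i (pat (φ i) (fun e => T0 e.2) w) := fun i =>
      (bF i).comp (measurable_pat _ _)
    rw [← int_cond μ (BM.prod fun i _ => b1 i) {e : Lk d | k ≠ e.2 ∧ h ∣ e.1 k}]
    refine integral_congr_ae (ae_of_all _ fun w => ?_)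
    simp only
    rw [cond_prod_indep μ _ (fun i _ => b1 i) (fun i _ => dep_pat_wall (hD i) _ (hW i))]
    · exact Finset.prod_congr rfl fun i _ => cond_pat μ (hD i) _ (hW i) w
    · intro i hi i' hi' hne
      rw [Set.disjoint_left]
      rintro _ ⟨e, he, rfl⟩ ⟨e', he', e2⟩
      obtain ⟨a1, a2⟩ := hdiv _ _ _ _ e2
      have := dl_cases k e.2
      simp only [slab, wall, Set.mem_sdiff, Set.mem_ofPred_eq, a1, Finset.mem_Ico] at he he' hi hi'
      have b1 : e.1 k < h := by omega
      have b2 : e'.1 k < h := by omega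
      have b3 := Int.eq_zero_of_abs_lt_dvd a2 (by rw [abs_lt]; constructor <;> nlinarith)
      rcases lt_or_gt_of_ne hne with b | b <;> nlinarith
  have e2 : ∀ p : ℤ → Prop, ∀ [DecidablePred p], (∀ i i', p i → p i' → Even (i - i')) →
      ∫ w, (∏ i ∈ (Finset.Ico 0 (2 * m)).filter p, K i w) *
        ∏ i ∈ (Finset.Ico 0 (2 * m)).filter p, K i w ∂PP μ (Lk d) =
      ∏ i ∈ (Finset.Ico 0 (2 * m)).filter p,
        TI μ (update n k (2 * h)) fun W => F i W * F i (act (T1 k) 0 W) := by
    intro p _ hp
    simp only [← Finset.prod_mul_distrib]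
    have dK : ∀ i, DependsOn (K i) (φ i '' (slab k h ∩ wall k h)) := fun i =>
      dep_pat (KK_dep μ (hD i) _ _) _ _
    rw [int_prod_indep μ _ (fun i _ => (bK i).mul (bK i)) fun i _ => DependsOn.mul' (dK i) (dK i)]
    · refine Finset.prod_congr rfl fun i _ => ?_
      rw [← sq_KK μ h0 hlt (bF i) (hD i) T0 (Pi.single k (i * h))]
      simp only [act_pc, hK, hφ]
    · intro i hi i' hi' hne
      rw [Set.disjoint_left]
      rintro _ ⟨e, he, rfl⟩ ⟨e', he', e2⟩
      obtain ⟨-, a2⟩ := hdiv _ _ _ _ e2
      simp only [Finset.mem_filter, Finset.mem_Ico] at hi hi'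
      obtain ⟨r, hr⟩ := hp _ _ hi.2 hi'.2
      have key : ∀ x y : ℤ, (x = 0 ∨ x = 1) → (y = 0 ∨ y = 1) → e.1 k = x * h → e'.1 k = y * h →
          False := by
        intro x y hx hy h1 h2
        rw [h1, h2, show x * h + i * h - (y * h + i' * h) = (x + i - y - i') * h by ring] at a2
        have a3 := Int.dvd_of_mul_dvd_mul_right h0.ne' a2
        have a4 : (2 : ℤ) ∣ x + i - y - i' := (Dvd.intro _ rfl).trans a3
        have a5 := Int.eq_zero_of_abs_lt_dvd a3 (by rw [abs_lt]; omega)
        omega
      rcases he.2.2 with h1 | h1 <;> rcases he'.2.2 with h2 | h2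
      · exact key 0 0 (by simp) (by simp) (by simpa using h1) (by simpa using h2)
      · exact key 0 1 (by simp) (by simp) (by simpa using h1) (by simpa using h2)
      · exact key 1 0 (by simp) (by simp) (by simpa using h1) (by simpa using h2)
      · exact key 1 1 (by simp) (by simp) (by simpa using h1) (by simpa using h2)
  have := int_cs (PP μ (Lk d)) (Finset.univ : Finset Unit)
    (F := fun _ w => ∏ i ∈ (Finset.Ico 0 (2 * m)).filter Even, K i w)
    (F' := fun _ w => ∏ i ∈ (Finset.Ico 0 (2 * m)).filter (¬ Even ·), K i w)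
    (fun _ => BM.prod fun i _ => bK i) fun _ => BM.prod fun i _ => bK i
  simp only [Finset.univ_unique, Finset.sum_singleton,
    Finset.prod_filter_mul_prod_filter_not] at this
  rw [e2 Even fun i i' a b => a.sub b, e2 (¬ Even ·) fun i i' a b => by
    rw [Int.not_even_iff_odd] at a b; exact a.sub_odd b,
    Finset.prod_filter_mul_prod_filter_not] at this
  rwa [e1]

/-- a product set, frozen outside `S` -/
def boxS {α : Type} (S : Finset (Fin d)) (t : Fin d → Finset α) (z : α) : Finset (Fin d → α) :=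
  Fintype.piFinset fun i => if i ∈ S then t i else {z}

theorem boxS_apply {α : Type} {S : Finset (Fin d)} {t : Fin d → Finset α} {z : α} {c : Fin d → α}
    (hc : c ∈ boxS S t z) {k : Fin d} (hk : k ∉ S) : c k = z := by
  simpa [hk] using Fintype.mem_piFinset.mp hc k

theorem prod_boxS {α : Type} [DecidableEq α] {S : Finset (Fin d)} {k : Fin d} (hk : k ∉ S)
    (t : Fin d → Finset α) (z : α) (f : (Fin d → α) → ℝ) :
    ∏ c ∈ boxS (insert k S) t z, f c = ∏ x ∈ t k, ∏ c ∈ boxS S t z, f (update c k x) := by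
  rw [← Finset.prod_product']
  symm
  refine Finset.prod_nbij' (fun p => update p.2 k p.1) (fun c => (c k, update c k z))
    (fun p hp => ?_) (fun c hc => ?_) (fun p hp => ?_) (fun c _ => by simp) fun _ _ => rfl
  · rw [Finset.mem_product] at hp
    refine Fintype.mem_piFinset.mpr fun i => ?_
    by_cases hi : i = k
    · simpa [hi] using hp.1
    · simpa [hi] using Fintype.mem_piFinset.mp hp.2 i
  · refine Finset.mem_product.mpr ⟨by simpa using Fintype.mem_piFinset.mp hc k,
      Fintype.mem_piFinset.mpr fun i => ?_⟩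
    by_cases hi : i = k
    · simp [hi, hk]
    · simpa [hi] using Fintype.mem_piFinset.mp hc i
  · have := boxS_apply (Finset.mem_product.mp hp).2 hk
    simp [← this]

theorem hs_aux {h m : St d} (h0 : ∀ i, 0 < h i) (hm : ∀ i, 0 < m i) (S : Finset (Fin d)) :
    ∀ (n : St d) (_ : ∀ i ∈ S, n i = 2 * m i * h i) (F : St d → (Lk d → G) → ℝ)
      (_ : ∀ c, BM (F c)) (_ : ∀ c W, 0 ≤ F c W)
      (_ : ∀ c, ∀ i ∈ S, DependsOn (F c) (slab i (h i))),
      (TI μ n fun W => ∏ c ∈ boxS S (fun i => Finset.Ico 0 (2 * m i)) 0,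
        F c (act T0 (c * h) W)) ^ 2 ^ S.card ≤
      ∏ c ∈ boxS S (fun i => Finset.Ico 0 (2 * m i)) 0,
        TI μ (fun i => if i ∈ S then 2 * h i else n i) fun W =>
          ∏ T ∈ boxS S (fun _ => Finset.univ) false, F c (act T 0 W) := by
  induction S using Finset.induction_on with
  | empty =>
    intro n _ F _ _ _
    have e1 : boxS ∅ (fun i => Finset.Ico 0 (2 * m i)) 0 = {0} := by
      ext c; simp [boxS, funext_iff]
    have e2 : boxS (d := d) ∅ (fun _ => Finset.univ) false = {T0} := by
      ext c; simp [boxS, funext_iff]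
    rw [e1, e2]
    simp
  | insert k S hk ih =>
    intro n hn F bF pF dF
    simp only [prod_boxS hk]
    have e1 : ∀ x W, ∏ c ∈ boxS S (fun i => Finset.Ico 0 (2 * m i)) 0,
        F (update c k x) (act T0 (update c k x * h) W) =
        (fun W => ∏ c ∈ boxS S (fun i => Finset.Ico 0 (2 * m i)) 0,
          F (update c k x) (act T0 (c * h) W)) (act T0 (Pi.single k (x * h k)) W) := by
      intro x W
      refine Finset.prod_congr rfl fun c hc => ?_
      rw [act_act]
      congr 2
      funext i
      by_cases hi : i = k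
      · simp [hi, boxS_apply hc hk]
      · simp [hi]
    simp only [e1]
    rw [Finset.card_insert_of_notMem hk, pow_succ', pow_mul]
    refine (pow_le_pow_left₀ (sq_nonneg _) (hs_dir μ (h0 k) (hm k) (hn k (by simp))
      (fun x => BM.prod fun c _ => (bF _).comp (measurable_act _ _))
      fun x => dep_prod fun c hc => dep_act (dF _ k (by simp)) fun e he => ?_) _).trans ?_
    · simpa [slab, mv, boxS_apply hc hk] using he
    rw [← Finset.prod_pow]
    refine Finset.prod_le_prod (fun x _ => pow_nonneg (TI_nonneg μ _ fun W =>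
      mul_nonneg (Finset.prod_nonneg fun c _ => pF _ _) (Finset.prod_nonneg fun c _ => pF _ _)) _)
      fun x _ => ?_
    refine le_trans (le_of_eq ?_) ((ih (update n k (2 * h k)) (fun i hi => ?_)
      (fun c W => F (update c k x) W * F (update c k x) (act (T1 k) 0 W))
      (fun c => (bF _).mul ((bF _).comp (measurable_act _ _)))
      (fun c W => mul_nonneg (pF _ _) (pF _ _)) fun c i hi => DependsOn.mul' (dF _ i (by simp [hi]))
        (dep_act (dF _ i (by simp [hi])) fun e he => ?_)).trans (le_of_eq ?_))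
    · congr 2
      funext W
      rw [← Finset.prod_mul_distrib]
      refine Finset.prod_congr rfl fun c hc => ?_
      rw [act_act, act_act]
      congr 3
      · funext i; simp
      · funext i
        by_cases hi : i = k
        · simp [hi, boxS_apply hc hk]
        · simp [hi, T1]
    · have : i ≠ k := fun e => hk (e ▸ hi)
      rw [update_of_ne this, hn i (by simp [hi])]
    · have : i ≠ k := fun e => hk (e ▸ hi)
      simpa [slab, mv, T1, this] using he
    · refine Finset.prod_congr rfl fun c _ => ?_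
      congr 1
      · funext i
        by_cases hi : i = k
        · simp [hi, hk]
        · simp [hi]
      · funext W
        rw [Fintype.univ_bool, Finset.prod_pair (by simp), ← Finset.prod_mul_distrib]
        refine Finset.prod_congr rfl fun T hT => ?_
        rw [mul_comm, act_act]
        congr 3
        · funext i
          by_cases hi : i = k
          · simp [hi, T1, boxS_apply hT hk]
          · simp [hi, T1]
        · funext i; simp
        · rw [← boxS_apply hT hk, update_eq_self]

/-- the box of sites `0 ≤ x < n` -/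
noncomputable def box (n : St d) : Finset (St d) := Fintype.piFinset fun i => Finset.Ico 0 (n i)

/-- links in the closed cell -/
def cell (h : St d) : Set (Lk d) := {e | ∀ i, e ∈ slab i (h i)}

/-- product over all mirror images -/
noncomputable def mir (F : (Lk d → G) → ℝ) (W : Lk d → G) : ℝ := ∏ T, F (act T 0 W)

theorem hs_cells {h m : St d} (h0 : ∀ i, 0 < h i) (hm : ∀ i, 0 < m i)
    {F : St d → (Lk d → G) → ℝ} (bF : ∀ c, BM (F c)) (pF : ∀ c W, 0 ≤ F c W)
    (dF : ∀ c, DependsOn (F c) (cell h)) :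
    (TI μ (2 * m * h) fun W => ∏ c ∈ box (2 * m), F c (act T0 (c * h) W)) ^ 2 ^ d ≤
      ∏ c ∈ box (2 * m), TI μ (2 * h) (mir (F c)) := by
  have := hs_aux μ h0 hm Finset.univ (2 * m * h) (fun _ _ => rfl) F bF pF
    fun c i _ => (dF c).mono fun e (he : e ∈ cell h) => he i
  simp only [boxS, Finset.mem_univ, if_true, Finset.card_univ, Fintype.card_fin,
    Fintype.piFinset_univ] at this
  exact this

end Pool.Agent.Lib.MP_7f377f_mp.RGP
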