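import Pool.Agent.Lib.MP_7f377f_mp.PTower

/-! The standard bad events: large curvature or large noise. -/

namespace Pool.Agent.Lib.MP_7f377f_mp.RGP

open MeasureTheory Measure Function
open scoped Quaternion

set_option linter.unusedSectionVars false

variable {d : ℕ} {G : Type} [MeasurableSpace G] [Group G] [MeasurableMul₂ G] [MeasurableInv G]
  {μ : Measure G} [IsProbabilityMeasure μ] [μ.IsInvInvariant] [μ.IsMulRightInvariant]
  {q : G →* ℍ} {u : (Lk d → G) → ℝ}

theorem Cl.conj (hq : Rep q) {δ : ℝ} {g : G} (H : Cl q δ g 1) (k : G) : Cl q δ (k⁻¹ * g * k) 1 := by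
  simpa using (H.left hq k⁻¹).right hq k

theorem Cl.div (hq : Rep q) {δ : ℝ} {g h : G} : Cl q δ (g * h⁻¹) 1 ↔ Cl q δ g h :=
  ⟨fun H => by simpa using H.right hq h, fun H => by simpa using H.right hq h⁻¹⟩

theorem Cl.sg (hq : Rep q) {δ : ℝ} {g h : G} (H : Cl q δ g h) (b : Bool) :
    Cl q δ (sg b g) (sg b h) := by
  cases b
  exacts [H, H.inv hq]

theorem meas_Cl (hq : Rep q) (δ : ℝ) : MeasurableSet {g : G | Cl q δ g 1} := by
  have h := (hq.bq.inner (BQ.const 1)).meas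
  have : {g : G | Cl q δ g 1} = {g | √(2 - 2 * inner ℝ (q g) 1) ≤ δ} := Set.ext fun g => by
    rw [Set.mem_ofPred_eq, Set.mem_ofPred_eq, Cl, map_one, ← Real.sqrt_sq (norm_nonneg (q g - 1)),
      norm_sub_sq_real, hq.norm, norm_one]
    ring_nf
  rw [this]
  exact measurableSet_le ((h.const_mul 2).const_sub 2).sqrt measurable_const

theorem measurable_hol (x : St d) (a b : Fin d) : Measurable fun W : Lk d → G => hol W x a b := by
  unfold hol
  fun_prop

/-- small curvature everywhere -/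
def Curv (q : G →* ℍ) (ε : ℝ) (W : Lk d → G) : Prop := ∀ x a b, Cl q ε (hol W x a b) 1

theorem Curv.act (hq : Rep q) {ε : ℝ} {W : Lk d → G} (h : Curv q ε W) (T : Fin d → Bool)
    (v : St d) : Curv q ε (act T v W) := by
  intro x a b
  have e : ∀ c, sm T v (x + Pi.single c 1) =
      sm T v x + if T c then -Pi.single c 1 else Pi.single c 1 := fun c => funext fun i => by
    by_cases hi : i = c
    · subst hi
      cases h : T i <;> simp [sm, h] <;> ring
    · cases T c <;> simp [sm, hi]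
  have e' : ∀ z c, RGP.act T v W (z, c) =
      sg (T c) (W (sm T v z - if T c then Pi.single c 1 else 0, c)) := fun z c => by
    rw [← ln_one (RGP.act T v W), ln_act, ln_one, Nat.cast_one]
  simp only [hol, e', e]
  generalize sm T v x = z
  cases T a <;> cases T b <;> simp only [sg_true, sg_false, if_true, Bool.false_eq_true, if_false,
    sub_zero, ← sub_eq_add_neg]
  · exact h z a b
  · obtain ⟨y, rfl⟩ : ∃ y, z = y + Pi.single b 1 := ⟨z - Pi.single b 1, by abel⟩
    convert ((h y a b).conj hq (W (y, b))).inv hq using 1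
    · simp only [hol, add_right_comm y, add_sub_cancel_right]
      group
    · simp
  · obtain ⟨y, rfl⟩ : ∃ y, z = y + Pi.single a 1 := ⟨z - Pi.single a 1, by abel⟩
    convert ((h y a b).conj hq (W (y, a))).inv hq using 1
    · simp only [hol, add_sub_cancel_right]
      group
    · simp
  · obtain ⟨y, rfl⟩ : ∃ y, z = y + Pi.single a 1 + Pi.single b 1 :=
      ⟨z - Pi.single b 1 - Pi.single a 1, by abel⟩
    convert (h y a b).conj hq (W (y, a) * W (y + Pi.single a 1, b)) using 1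
    simp only [hol, add_sub_cancel_right, show y + Pi.single a 1 + Pi.single b 1 - Pi.single a 1 =
      y + Pi.single b 1 by abel]
    group

namespace Model

variable (M : Model d μ)

theorem cf_ker {D : Finset (ℕ × Lk d)} {p : ℕ × Lk d} (hp : p ∈ D) (h0 : p.1 ≠ 0) {φ : G → ℝ}
    (hφ : BM φ) {c : ℝ} (hc : 0 < c) (h : ∫ g, φ g * M.h (p.1 - 1) g ∂μ ≤ c) (W : Lk d → G) :
    M.cf D (fun w => φ (w p * (M.pa p w)⁻¹)) W ≤ c := by
  classical
  have mj := measurable_join' W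
  have b1 := hφ.mul (M.h_bm (p.1 - 1))
  set h' : G → ℝ := fun g => c⁻¹ * (φ g * M.h (p.1 - 1) g + (c - ∫ g, φ g * M.h (p.1 - 1) g ∂μ))
    with hh
  have b2 : BM h' := (BM.const _).mul (b1.add (BM.const _))
  have b3 : ∀ r, BM (update (fun r : ℕ × Lk d => M.h (r.1 - 1)) p h' r) := fun r => by
    by_cases e : r = p
    · simpa [e] using b2
    · simpa [e] using M.h_bm _
  have := int_kers μ Prod.fst (h := update (fun r => M.h (r.1 - 1)) p h')
    (a := fun p w => M.pa p (join W w)) (D.filter (·.1 ≠ 0)) (fun r _ => b3 r) (fun r _ => by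
      by_cases e : r = p
      · simp only [e, update_self, hh]
        rw [integral_const_mul, integral_add (b1.integrable _) (integrable_const _)]
        simp [hc.ne']
      · simpa [e] using M.h_int _)
    (fun p _ => (M.measurable_pa p).comp mj) (fun p hp w w' h => M.pa_dep M.closed_univ trivial
      (Finset.mem_filter.mp hp).2 fun q hq => by
        by_cases h0 : q ∈ lev0
        · simp only [join, mix_of_mem h0]
        · simp only [join, mix_of_not h0, h q hq.2]) (BM.const c) fun _ _ _ => rfl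
  simp only [integral_const, probReal_univ, smul_eq_mul, one_mul] at this
  rw [← this]
  have hp' : p ∈ D.filter (·.1 ≠ 0) := Finset.mem_filter.mpr ⟨hp, h0⟩
  refine integral_mono (M.int_cf (hφ.comp ((measurable_pi_apply p).mul (M.measurable_pa p).inv)) W)
    (((BM.const c).mul (BM.prod fun r _ => (b3 r).comp ((measurable_pi_apply r).mul
      ((M.measurable_pa r).comp mj).inv))).integrable _) fun w => ?_
  simp only [dens_filter, ← Finset.mul_prod_erase _ _ hp', update_self, join_ne _ _ h0, ← mul_assoc]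
  refine mul_le_mul_of_nonneg_right ?_ (Finset.prod_nonneg fun _ _ => M.h_nonneg _ _) |>.trans_eq
    (congrArg _ (Finset.prod_congr rfl fun r hr => ?_))
  · rw [hh, mul_inv_cancel_left₀ hc.ne']
    linarith
  · rw [update_of_ne (Finset.ne_of_mem_erase hr),
      join_ne _ _ (Finset.mem_filter.mp (Finset.mem_of_mem_erase hr)).2]

variable (q) (ε ε' : ℕ → ℝ)

/-- small noise at a link -/
def Nz (p : ℕ × Lk d) : Set (Hist d G) := {w | Cl q (ε' (p.1 - 1)) (w p * (M.pa p w)⁻¹) 1}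

/-- histories with small fields below level `j` -/
def Gd (j : ℕ) : Set (Hist d G) :=
  {w | ∀ i < j, Curv q (ε i) (lvl w i) ∧ ∀ e, w ∈ M.Nz q ε' (i + 1, e)}

/-- small fields at the origin -/
def ok (j : ℕ) : Set (Hist d G) := {w | (∀ a b, Cl q (ε j) (hol (lvl w j) 0 a b) 1) ∧
  (j ≠ 0 → ∀ a, w ∈ M.Nz q ε' (j, 0, a))}

variable {q} (hq : Rep q)
include hq

theorem meas_Nz (p : ℕ × Lk d) : MeasurableSet (M.Nz q ε' p) :=
  ((measurable_pi_apply p).mul (M.measurable_pa p).inv) (meas_Cl hq _)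

theorem meas_curv (j : ℕ) : MeasurableSet {w : Hist d G | Curv q (ε j) (lvl w j)} := by
  simp only [Curv, Set.ofPred_forall]
  exact .iInter fun x => .iInter fun a => .iInter fun b =>
    ((measurable_hol x a b).comp (measurable_lvl j)) (meas_Cl hq _)

theorem meas_Gd (j : ℕ) : MeasurableSet (M.Gd q ε ε' j) := by
  have h1 := meas_curv ε hq (d := d)
  have h2 := M.meas_Nz ε' hq
  unfold Gd
  measurability

theorem Nz_act {k : ℕ} {p : ℕ × Lk d} (h0 : p.1 ≠ 0) (hp : p.1 ≤ k) (T : Fin d → Bool) (v : St d)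
    {w : Hist d G} (h : w ∈ M.Nz q ε' (mvH T (M.sc k v) p)) :
    actH T (M.sc k v) w ∈ M.Nz q ε' p := by
  rw [Nz, Set.mem_ofPred_eq, Cl.div hq] at h ⊢
  rw [M.pa_actH h0 hp]
  exact h.sg hq _

/-- the standard bad events -/
def std : M.Bad where
  bad j := {w | ∃ T, actH T 0 w ∉ M.ok q ε ε' j}
  meas j := by
    have h1 : MeasurableSet (M.ok q ε ε' j) := by
      have h1 : ∀ a b, MeasurableSet {w : Hist d G | Cl q (ε j) (hol (lvl w j) 0 a b) 1} :=
        fun a b => ((measurable_hol 0 a b).comp (measurable_lvl j)) (meas_Cl hq _)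
      have h2 := M.meas_Nz ε' hq
      unfold ok
      measurability
    simp only [Set.ofPred_exists]
    exact .iUnion fun T => measurable_actH T 0 h1.compl
  dep j w w' h := by
    refine propext (exists_congr fun T => not_congr (Iff.of_eq ?_))
    have e0 : M.sc j 0 = 0 := funext fun i => by simp [sc]
    refine (dep_pat (F := (· ∈ M.ok q ε ε' j)) (D := M.DQ j (0 - cv (2 * M.rat 0 j))
      (0 + cv (2 * M.rat 0 j))) (fun w w' h => ?_) _ _).mono ?_ h
    · have h0 := M.rat_pos 0 j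
      have key : ∀ (x : St d) (a : Fin d), (∀ i, 0 ≤ x i ∧ x i + dl i a ≤ 1) →
          (j, x, a) ∈ M.DQ j (0 - cv (2 * M.rat 0 j)) (0 + cv (2 * M.rat 0 j)) :=
        fun x a hx => ⟨le_rfl, fun i => by
          simp only [Pi.sub_apply, Pi.add_apply, Pi.zero_apply, cv]
          constructor <;> nlinarith [hx i]⟩
      have k0 := fun a => key 0 a fun i => by rcases dl_cases i a with h | h <;> simp [h.2]
      have k1 : ∀ a b, hol (lvl w j) 0 a b = hol (lvl w' j) 0 a b := fun a b => by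
        by_cases hab : a = b
        · simp [hol, hab]
        have k2 := fun a b (hab : a ≠ b) => h _ (key (0 + Pi.single a 1) b fun i => by
          simp only [dl, zero_add, Pi.single_apply]
          omega)
        simp only [hol, lvl, h _ (k0 _), k2 a b hab, k2 b a (Ne.symm hab)]
      refine propext (and_congr (by simp only [k1]) (forall_congr' fun hj => forall_congr' fun a => ?_))
      have := M.pa_dep (by simpa only [coe_DF] using M.closed_DF j _ _) (k0 a) hj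
        fun p hp => h p hp.1
      simp only [Nz, Set.mem_ofPred_eq, h _ (k0 a), this]
    · rintro _ ⟨p, hp, rfl⟩
      have := (M.DQ_mvH le_rfl T 0 _ _ p).mp hp
      rwa [e0, show sm T ((0 : ℕ → St d) 0) 0 = 0 from funext fun i => by simp [sm]] at this
  refl j T w := by
    have e : ∀ T T' (w : Hist d G), actH T 0 (actH T' 0 w) =
        actH (fun i => xor (T i) (T' i)) 0 w := fun T T' w => hist_ext fun j => by
      simp only [lvl_actH, act_act, Pi.zero_apply, sub_self, add_zero, ite_self]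
      rfl
    refine ⟨fun ⟨T', h⟩ => ⟨_, e T' T w ▸ h⟩, fun ⟨T', h⟩ => ⟨fun i => xor (T' i) (T i), ?_⟩⟩
    simpa [e] using h

omit hq in
theorem actH_zero (w : Hist d G) : actH T0 0 w = w := hist_ext fun j => act_zero (lvl w j)

theorem std_tow (hε : ∀ j, 0 ≤ ε j) {η : ℕ → ℝ} (h : ∀ j W, (∀ x : St d, (∀ i, |x i| ≤ 2 * M.L j) →
    ∀ a b, Cl q (ε j) (hol W x a b) 1) → ∀ a, Cl q (η j) (M.av j a W) (ln W 0 a (M.L j).toNat)) :
    (M.std ε ε' hq).Tow q ε fun j => ε' j + η j where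
  nonneg := hε
  plaq j w hw := by
    have := not_not.mp fun H => hw ⟨T0, H⟩
    rw [actH_zero] at this
    exact this.1
  link j w hw H a := by
    have := not_not.mp fun H => hw ⟨T0, H⟩
    rw [actH_zero] at this
    have h1 := (Cl.div hq).mp (this.2 (Nat.succ_ne_zero j) a)
    simp only [pa, avg, smul_zero, act_zero, Nat.succ_sub_one] at h1
    exact h1.trans (h j _ H a)

theorem not_Bd {j : ℕ} {w : Hist d G} : w ∉ (M.std ε ε' hq).Bd j ↔
    ∀ i < j, Curv q (ε i) (lvl w i) ∧ (i ≠ 0 → ∀ e, w ∈ M.Nz q ε' (i, e)) := by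
  refine ⟨fun h i hi => ?_, fun h ⟨i, hi, Q, _, T, H⟩ => H ⟨fun a b => ?_, fun h0 a => ?_⟩⟩
  · have key : ∀ x, actH T0 (M.sc i x) w ∈ M.ok q ε ε' i := fun x => not_not.mp fun H =>
      h ⟨i, hi, M.rat 0 i • x, fun a => dvd_mul_right _ _, T0, by
        simpa only [actH_zero, Pi.smul_apply, smul_eq_mul,
          Int.mul_ediv_cancel_left _ (M.rat_pos 0 i).ne'] using H⟩
    refine ⟨fun x a b => ?_, fun h0 e => ?_⟩
    · simpa [lvl_actH, hol_T0, sc, M.rat_self] using (key x).1 a b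
    · have := (key e.1).2 h0 e.2
      rw [Nz, Set.mem_ofPred_eq, M.pa_actH h0 le_rfl] at this
      simpa [actH, pat, mvH, mv, sc, M.rat_self, Nz] using this
  · exact (((h i hi).1.act hq _ _).act hq _ _) 0 a b
  · rw [show (0 : ℕ → St d) = M.sc i 0 from funext fun i => by simp [sc]]
    exact M.Nz_act ε' hq h0 le_rfl _ _ (M.Nz_act ε' hq h0 le_rfl _ _ ((h i hi).2 h0 _))

theorem noise_le (hu : Pot u) {j : ℕ} {N : ℤ} (hN : 4 ≤ N) {c : ℝ} (hc : 0 < c)
    (h : ∫ g, ind {g | Cl q (ε' j) g 1}ᶜ g * M.h j g ∂μ ≤ c) (e : Lk d) :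
    M.JZ u (j + 1) (cv N) (ind (M.Nz q ε' (j + 1, e))ᶜ) ≤
      c * ZZ μ u (cv (M.rat 0 (j + 1) * N)) fun _ => 1 := by
  have h0 := M.rat_pos 0 (j + 1)
  have hp : (j + 1, e) ∈ M.DF (j + 1) (M.rat 0 (j + 1) • (e.1 - 1)) (M.rat 0 (j + 1) • (e.1 + 2)) :=
    M.mem_DF.mpr ⟨le_rfl, fun i => by
      simp only [Pi.sub_apply, Pi.add_apply, Pi.smul_apply, smul_eq_mul, Pi.ofNat_apply]
      rcases dl_cases i e.2 with h | h <;> rw [h.2] <;> constructor <;> linarith⟩
  have b1 := bm_ind (M.meas_Nz ε' hq (j + 1, e)).compl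
  have := M.factor_cells hu (j + 1) (N := cv N) (h := cv (M.rat 0 (j + 1) * N)) (m := 1)
    (v := M.rat 0 (j + 1) • (e.1 - 1)) (fun _ => by simp only [cv]; omega)
    (fun _ => by simp only [cv]; positivity) (by rw [one_mul]; rfl) (Finset.univ : Finset Unit)
    (α := fun _ => M.rat 0 (j + 1) • (e.1 - 1)) (β := fun _ => M.rat 0 (j + 1) • (e.1 + 2))
    (c := fun _ => 0) (q := fun _ => 0) (fun _ => le_rfl)
    (fun _ _ => mem_box.mpr fun _ => ⟨le_rfl, one_pos⟩) (fun _ _ _ _ _ => rfl) (fun _ _ i => by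
      simp only [Pi.sub_apply, Pi.add_apply, Pi.smul_apply, smul_eq_mul, Pi.ofNat_apply, cv]
      constructor <;> nlinarith) (fun _ => b1) fun _ w w' H => ind_congr (by
        have := M.pa_dep (M.closed_DF _ _ _) hp (Nat.succ_ne_zero j) fun p hp => H p hp.1
        simp only [Nz, Set.mem_compl_iff, Set.mem_ofPred_eq, H _ hp, this])
  simp only [Finset.univ_unique, Finset.prod_singleton] at this
  rw [← ZZ_mul]
  refine this.trans_le (hu.zz_mono μ _ (M.bm_cf b1) (BM.const _) fun w => ?_)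
  rw [mul_one]
  exact M.cf_ker hp (Nat.succ_ne_zero j) (bm_ind (meas_Cl hq (ε' j)).compl) hc h _

theorem std_inp (hu : Pot u) {j : ℕ} {m : ℤ} (hm : 4 ≤ m) {e γ Del c V : ℝ} (hγ : 0 ≤ γ)
    (hV : V = ((18 * 9 ^ 2 ^ d * m : ℤ) : ℝ) ^ d) (hc : 0 < c)
    (h : ∀ i, ∫ g, ind {g | Cl q (ε' i) g 1}ᶜ g * M.h i g ∂μ ≤ c)
    (H : ∀ N : ℤ, m ≤ N → M.JZ u j (cv N) (ind (M.Gd q ε ε' j)) ≤ Real.exp ((e + γ) * N ^ d) ∧
      M.JZ u j (cv N) (ind (M.Gd q ε ε' j ∩ {w | ¬ Curv q (ε j) (lvl w j)})) ≤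
        Real.exp ((e + γ) * N ^ d - Del) ∧
      Real.exp ((e - γ) * N ^ d) ≤ M.JZ u j (cv N) fun _ => 1) :
    (M.std ε ε' hq).Inp u j m e γ (Real.exp (2 * γ * V - Del) + d * V * c) := by
  intro N hN
  have hN0 : ∀ i : Fin d, 0 < cv N i := fun _ => by simp only [cv]; omega
  obtain ⟨h1, h2, h3⟩ := H N hN
  rw [M.JZ_one hu j hN0] at h3
  have b0 := (M.std ε ε' hq).meas_Bd
  have b1 := M.meas_Gd ε ε' hq j
  have b2 := bm_ind (b1.inter (meas_curv ε hq j).compl)
  have b3 := fun e : Lk d => bm_ind (M.meas_Nz ε' hq (j, e)).compl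
  refine ⟨(M.JZ_mono hu j _ (bm_ind (b0 _).compl) (bm_ind b1) fun w =>
    Set.indicator_le_indicator_of_subset (fun w hw i hi => ?_) (fun _ => zero_le_one) _).trans h1,
    fun hN' => ?_, h3⟩
  · rw [Set.mem_compl_iff, M.not_Bd] at hw
    exact ⟨(hw i (by omega)).1, (hw (i + 1) (by omega)).2 (Nat.succ_ne_zero i)⟩
  have hNV : (N : ℝ) ^ d ≤ V := hV ▸ pow_le_pow_left₀ (Int.cast_nonneg (by omega))
    (Int.cast_le.mpr hN') _
  have hZ := hu.zz_pos μ (cv (M.rat 0 j * N))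
  set S := (box (cv N) ×ˢ Finset.univ).filter fun _ : Lk d => j ≠ 0 with hS
  refine (M.JZ_mono hu j _ (bm_ind ((b0 _).diff (b0 _))) (b2.add (BM.sum (s := S) fun e _ => b3 e))
    fun w => ?_).trans ?_
  · have n1 : 0 ≤ ∑ e ∈ S, ind (M.Nz q ε' (j, e))ᶜ (pcH (M.sc j (cv N)) w) :=
      Finset.sum_nonneg fun _ _ => ind_nonneg _ _
    by_cases hw : pcH (M.sc j (cv N)) w ∈ (M.std ε ε' hq).Bd (j + 1) \ (M.std ε ε' hq).Bd j
    swap
    · rw [ind_of_not hw]
      exact add_nonneg (ind_nonneg _ _) n1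
    rw [ind_of_mem hw]
    have a1 := (M.not_Bd ε ε' hq).mp hw.2
    by_cases a2 : j ≠ 0 → ∀ e, pcH (M.sc j (cv N)) w ∈ M.Nz q ε' (j, e)
    · refine le_add_of_le_of_nonneg (ind_of_mem ?_).ge n1
      refine ⟨fun i hi => ⟨(a1 i hi).1, ?_⟩, fun a3 =>
        (M.not_Bd ε ε' hq).mpr (fun i hi => ?_) hw.1⟩
      · rcases (Nat.succ_le_of_lt hi).eq_or_lt with rfl | a4
        exacts [a2 (Nat.succ_ne_zero i), (a1 _ a4).2 (Nat.succ_ne_zero i)]
      · rcases (Nat.le_of_lt_succ hi).eq_or_lt with rfl | a4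
        exacts [⟨a3, a2⟩, a1 _ a4]
    push Not at a2
    obtain ⟨a2, e, a3⟩ := a2
    have a4 : pcH (M.sc j (cv N)) w ∈ (M.Nz q ε' (perH (M.sc j (cv N)) (j, e)))ᶜ := fun H => a3 (by
      rw [Nz, Set.mem_ofPred_eq, M.pa_per (p := (j, e)) (k := j) a2 le_rfl] at H
      simpa [pcH, pat, perH, per, Nz] using H)
    refine le_add_of_nonneg_of_le (ind_nonneg _ _) ((ind_of_mem a4).ge.trans
      (Finset.single_le_sum (f := fun e => ind (M.Nz q ε' (j, e))ᶜ (pcH (M.sc j (cv N)) w))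
        (fun _ _ => ind_nonneg _ _) (Finset.mem_filter.mpr ⟨Finset.mem_product.mpr
          ⟨mem_box.mpr fun i => ?_, Finset.mem_univ _⟩, a2⟩)))
    simp only [per, sc, M.rat_self, one_smul]
    exact ⟨Int.emod_nonneg _ (hN0 i).ne', Int.emod_lt_of_pos _ (hN0 i)⟩
  rw [M.JZ_add hu j _ b2 (BM.sum fun e _ => b3 e), M.JZ_sum hu j _ _ b3, add_mul]
  refine add_le_add (h2.trans (le_trans ?_ (mul_le_mul_of_nonneg_left h3 (Real.exp_pos _).le))) ?_
  · rw [← Real.exp_add, Real.exp_le_exp]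
    nlinarith
  refine (Finset.sum_le_card_nsmul _ _ (c * ZZ μ u (cv (M.rat 0 j * N)) fun _ => 1)
    fun e he => ?_).trans ?_
  · obtain ⟨j, rfl⟩ := Nat.exists_eq_succ_of_ne_zero (Finset.mem_filter.mp he).2
    exact M.noise_le ε' hq hu (by omega) hc (h j) e
  rw [nsmul_eq_mul, mul_assoc]
  refine mul_le_mul_of_nonneg_right ((Nat.cast_le.mpr (Finset.card_filter_le _ _)).trans ?_)
    (by positivity)
  rw [Finset.card_product, Nat.cast_mul, card_cv' (by omega), Finset.card_univ, Fintype.card_fin,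
    mul_comm]
  exact mul_le_mul_of_nonneg_left hNV (Nat.cast_nonneg d)

omit hq in
theorem Bad.bad_unif (B : M.Bad) (hu : Pot u) {k : ℕ} {m : ℤ} {e : ℕ → ℝ} {γ τ V F s L : ℝ}
    (hm : 16 ≤ m) (hγ : 0 ≤ γ) (hτ : 0 ≤ τ) (hI : ∀ j ≤ k, B.Inp u j m (e j) γ τ)
    (hV : V = ((18 * 9 ^ 2 ^ d * m : ℤ) : ℝ) ^ d) (hd : ∀ j, 9 * 9 ^ 2 ^ d ∣ M.L j)
    (hL : ∀ j, (M.L j : ℝ) ≤ L) (h1 : 2 * (2 ^ 9 ^ d * Real.exp (2 * γ * V)) ≤ F)
    (h2 : 2 * V * L ^ d ≤ F) (hs : 0 < s) (h3 : 2 * F * 2 ^ d * τ ≤ s ^ 2 ^ d)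
    (h4 : 4 * (s * F ^ (4 * k)) ≤ 1) : M.JZ u k (cv (18 * m)) (ind (B.Bd (k + 1))) ≤
      2 * (s * F ^ (4 * k)) * ZZ μ u (cv (M.rat 0 k * (18 * m))) fun _ => 1 := by
  have V1 : 1 ≤ V := hV ▸ one_le_pow₀ (by
    have : (1 : ℤ) ≤ 18 * 9 ^ 2 ^ d * m := by
      nlinarith [one_le_pow₀ (show (1 : ℤ) ≤ 9 by norm_num) (n := 2 ^ d)]
    exact_mod_cast this)
  have e1 : 1 ≤ Real.exp (2 * γ * V) := Real.one_le_exp (by positivity)
  have t1 : (1 : ℝ) ≤ 2 ^ 9 ^ d := one_le_pow₀ one_le_two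
  have t2 : (1 : ℝ) ≤ 2 ^ d := one_le_pow₀ one_le_two
  have F1 : 2 * Real.exp (2 * γ * V) ≤ F := by nlinarith
  have F2 : 2 ≤ F := by linarith
  have F3 : ∀ j, 1 ≤ F ^ j := fun j => one_le_pow₀ (by linarith)
  have L0 : 0 ≤ L := (Int.cast_nonneg (M.L_pos 0).le).trans (hL 0)
  have p1 : ∀ j ≤ k, s * F ^ (4 * j) ≤ s * F ^ (4 * k) := fun j hj =>
    mul_le_mul_of_nonneg_left (pow_le_pow_right₀ (by linarith) (by omega)) hs.le
  have p2 : ∀ j, s ≤ s * F ^ (4 * j) := fun j => le_mul_of_one_le_right hs.le (F3 _)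
  have τ1 : τ ≤ s := by
    have := pow_le_of_le_one hs.le (by linarith [p2 k]) (show 2 ^ d ≠ 0 by positivity)
    nlinarith [mul_nonneg hτ (show 0 ≤ 2 * F * 2 ^ d - 1 by nlinarith)]
  have hS : ∀ j, V * ∑ i ∈ Finset.range j, (M.rat i j : ℝ) ^ d * (s * F ^ (4 * i)) ≤
      s * F ^ (4 * j) / F ^ 3 := by
    intro j
    induction j with
    | zero => simp only [Finset.range_zero, Finset.sum_empty, mul_zero]; positivity
    | succ j ih =>
      have e : ∑ i ∈ Finset.range (j + 1), (M.rat i (j + 1) : ℝ) ^ d * (s * F ^ (4 * i)) =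
          (M.L j : ℝ) ^ d * (∑ i ∈ Finset.range j, (M.rat i j : ℝ) ^ d * (s * F ^ (4 * i)) +
            s * F ^ (4 * j)) := by
        rw [Finset.sum_range_succ, mul_add, Finset.mul_sum, M.rat_succ]
        congr 1
        refine Finset.sum_congr rfl fun i hi => ?_
        rw [← M.rat_mul (Finset.mem_range.mp hi).le (Nat.le_succ j), M.rat_succ, Int.cast_mul]
        ring
      have a0 : 0 < s * F ^ (4 * j) := by positivity
      have a1 := ih.trans ((div_le_self a0.le (F3 3)).trans (le_mul_of_one_le_left a0.le V1))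
      have a2 := pow_le_pow_left₀ (Int.cast_nonneg (M.L_pos j).le) (hL j) d
      have a3 := mul_le_mul_of_nonneg_right h2 a0.le
      rw [e, show s * F ^ (4 * (j + 1)) / F ^ 3 = F * (s * F ^ (4 * j)) by field_simp; ring,
        mul_left_comm, mul_add]
      refine (mul_le_mul a2 (add_le_add_left a1 _) (add_nonneg (mul_nonneg (by linarith)
        (Finset.sum_nonneg fun i _ => mul_nonneg (pow_nonneg (Int.cast_nonneg (M.rat_pos i j).le) _)
          (by positivity))) (by positivity)) (by positivity)).trans (by linarith)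
  have hY : ∀ j ≤ k, τ + s * F ^ (4 * j) / F ^ 3 ≤ 2 * (s * F ^ (4 * k)) := fun j hj => by
    linarith [div_le_self (show 0 ≤ s * F ^ (4 * j) by positivity) (F3 3), p1 j hj, p2 k]
  refine (B.bad_le hu (m := fun _ => m) (e := e) (γ := fun _ => γ) (τ := fun _ => τ)
    (V := fun _ => V) (Y := fun j => s * F ^ (4 * j) / F ^ 3) (X := fun j => s * F ^ (4 * j) / F ^ 2)
    (p := fun j => s * F ^ (4 * j)) (fun j hj => ⟨hm, hγ, hτ, hI j hj, hV, fun i hi => ?_, hS j,
      by linarith [hY j hj]⟩) fun j hj => ⟨?_, ?_, by positivity, ?_⟩).trans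
      (mul_le_mul_of_nonneg_right (hY k le_rfl) (hu.zz_pos μ _).le)
  · obtain ⟨c, hc⟩ := hd i
    refine ⟨c * M.rat (i + 1) j, ?_⟩
    rw [← M.rat_mul (Nat.zero_le i) hi.le, ← M.rat_mul (Nat.le_succ i) hi, M.rat_succ, hc]
    ring
  · rw [show s * F ^ (4 * j) / F ^ 2 = F * (s * F ^ (4 * j) / F ^ 3) by field_simp]
    exact mul_le_mul_of_nonneg_right (by nlinarith) (by positivity)
  · linarith [div_le_self (show 0 ≤ s * F ^ (4 * j) by positivity) (F3 2), p1 j hj.le]
  · have a1 := pow_le_pow_left₀ hs.le (p2 j) (2 ^ d)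
    have a2 : F * (s * F ^ (4 * j) / F ^ 2) ^ 2 ^ d ≤ (s * F ^ (4 * j)) ^ 2 ^ d / 2 := by
      rw [div_pow, ← mul_div_assoc, div_le_div_iff₀ (by positivity) two_pos]
      have := le_self_pow₀ (F3 2) (show 2 ^ d ≠ 0 by positivity)
      have a3 : 0 < (s * F ^ (4 * j)) ^ 2 ^ d := by positivity
      nlinarith [mul_le_mul_of_nonneg_left (show F * 2 ≤ (F ^ 2) ^ 2 ^ d by nlinarith) a3.le]
    refine (mul_le_mul_of_nonneg_right F1 (by positivity)).trans ?_
    linarith

end Model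

end Pool.Agent.Lib.MP_7f377f_mp.RGP
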