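import Pool.Agent.Lib.MP_7f377f_mp.PBase

/-! Periodic patterns on the lattice, gluing of slabs, Hilbert-Schmidt inequalities. -/

namespace Pool.Agent.Lib.MP_7f377f_mp.RGP

open MeasureTheory Measure Function

set_option linter.unusedSectionVars false

variable {G : Type} [MeasurableSpace G] (μ : Measure G) [IsProbabilityMeasure μ]
  [Group G] [MeasurableMul₂ G] [MeasurableInv G] [μ.IsInvInvariant] [μ.IsMulRightInvariant]

section glue
variable {I J I' : Type} {F F' : (J → G) → ℝ} {D D' V V' : Set J}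

/-- slab kernel as a function of the wall variables -/
noncomputable def KK (V : Set J) (φ : J → I) (s : J → Bool) (F : (J → G) → ℝ) (a : J → G) : ℝ :=
  ∫ w', F (mix V a (pat φ s w')) ∂PP μ I

theorem BM.KK (hF : BM F) (V : Set J) (φ : J → I) (s : J → Bool) : BM (KK μ V φ s F) :=
  BM.param (F := fun p : (J → G) × (I → G) => F (mix V p.1 (pat φ s p.2)))
    (hF.comp ((measurable_mix V).comp
      (measurable_fst.prodMk ((measurable_pat φ s).comp measurable_snd)))) _

theorem KK_dep (hD : DependsOn F D) (φ : J → I) (s : J → Bool) :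
    DependsOn (KK μ V φ s F) (D ∩ V) := by
  intro w v h
  refine integral_congr_ae (ae_of_all _ fun w' => hD fun i hi => ?_)
  by_cases hS : i ∈ V
  · simp only [mix_of_mem hS, h i ⟨hi, hS⟩]
  · simp only [mix_of_not hS]

theorem dep_pat {α : Type} {F : (J → G) → α} (hD : DependsOn F D) (φ : J → I) (s : J → Bool) :
    DependsOn (fun w => F (pat φ s w)) (φ '' D) :=
  fun _ _ h => hD fun j hj => by simp only [pat, h _ ⟨j, hj, rfl⟩]

theorem cond_pat (hD : DependsOn F D) {φ : J → I} (s : J → Bool) {W : Set I}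
    (hW : ∀ j ∈ D, φ j ∈ W ↔ j ∈ V) (w : I → G) :
    cond μ W (fun w => F (pat φ s w)) w = KK μ V φ s F (pat φ s w) := by
  refine integral_congr_ae (ae_of_all _ fun w' => hD fun j hj => ?_)
  by_cases h : j ∈ V
  · simp only [pat, mix_of_mem h, mix_of_mem ((hW j hj).mpr h)]
  · simp only [pat, mix_of_not h, mix_of_not (mt (hW j hj).mp h)]

/-- two patterns agree on `D` -/
def Same (D : Set J) (φ : J → I) (s : J → Bool) (φ' : J → I') (s' : J → Bool) : Prop :=
  ∀ j ∈ D, ∀ j' ∈ D, (φ j = φ j' ↔ φ' j = φ' j') ∧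
    (φ j = φ j' → xor (s j) (s j') = xor (s' j) (s' j'))

theorem Same.int {φ : J → I} {s : J → Bool} {φ' : J → I'} {s' : J → Bool} (h : Same D φ s φ' s')
    (hF : Measurable F) (hD : DependsOn F D) :
    ∫ w, F (pat φ s w) ∂PP μ I = ∫ w, F (pat φ' s' w) ∂PP μ I' :=
  int_pat μ hF hD (fun j hj j' hj' => (h j hj j' hj').1) fun j hj j' hj' => (h j hj j' hj').2

theorem Same.mono {φ : J → I} {s : J → Bool} {φ' : J → I'} {s' : J → Bool} (h : Same D φ s φ' s')
    (hD : D' ⊆ D) : Same D' φ s φ' s' := fun j hj j' hj' => h j (hD hj) j' (hD hj')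

theorem Same.KK {φ : J → I} {s : J → Bool} {φ' : J → I'} {s' : J → Bool} (h : Same D φ s φ' s')
    (hF : Measurable F) (hD : DependsOn F D) : KK μ V φ s F = KK μ V φ' s' F := by
  funext a
  refine h.int μ (F := fun u => F (mix V a u)) (hF.comp (measurable_mix_right V a)) ?_
  exact dep_mix (hD.mono Set.subset_union_right) a

theorem dep_pat_wall (hD : DependsOn F D) {φ : J → I} (s : J → Bool) {W : Set I}
    (hW : ∀ j ∈ D, φ j ∈ W ↔ j ∈ V) :
    DependsOn (fun w => F (pat φ s w)) (W ∪ φ '' (D \ V)) := by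
  refine (dep_pat hD φ s).mono ?_
  rintro _ ⟨j, hj, rfl⟩
  by_cases h : j ∈ V
  · exact Or.inl ((hW j hj).mpr h)
  · exact Or.inr ⟨j, ⟨hj, h⟩, rfl⟩

theorem glue_two (bF : BM F) (bF' : BM F') (hD : DependsOn F D) (hD' : DependsOn F' D')
    {φ φ' : J → I} (s s' : J → Bool) {W : Set I} (hW : ∀ j ∈ D, φ j ∈ W ↔ j ∈ V)
    (hW' : ∀ j ∈ D', φ' j ∈ W ↔ j ∈ V') (hd : ∀ j ∈ D \ V, ∀ j' ∈ D' \ V', φ j ≠ φ' j') :
    ∫ w, F (pat φ s w) * F' (pat φ' s' w) ∂PP μ I =
      ∫ w, KK μ V φ s F (pat φ s w) * KK μ V' φ' s' F' (pat φ' s' w) ∂PP μ I := by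
  have b1 := bF.comp (measurable_pat (G := G) φ s)
  have b2 := bF'.comp (measurable_pat (G := G) φ' s')
  rw [← int_cond μ (b1.mul b2) W]
  refine integral_congr_ae (ae_of_all _ fun w => ?_)
  simp only
  rw [cond_mul_indep μ b1 b2 (dep_pat_wall hD s hW) (dep_pat_wall hD' s' hW'), cond_pat μ hD s hW,
    cond_pat μ hD' s' hW']
  rw [Set.disjoint_left]
  rintro _ ⟨j, hj, rfl⟩ ⟨j', hj', e⟩
  exact hd j hj j' hj' e.symm

end glue

/-- sites -/
abbrev St (d : ℕ) := Fin d → ℤ
/-- links -/
abbrev Lk (d : ℕ) := St d × Fin d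

variable {d : ℕ}

/-- coordinate increment along a link -/
def dl (i j : Fin d) : ℤ := if i = j then 1 else 0

/-- reduction modulo the periods -/
def per (n : St d) (e : Lk d) : Lk d := (fun i => e.1 i % n i, e.2)

/-- a lattice motion: reflect the axes in `T`, translate by `a` -/
def mv (T : Fin d → Bool) (a : St d) (e : Lk d) : Lk d :=
  (fun i => if T i then a i - e.1 i - dl i e.2 else e.1 i + a i, e.2)

/-- action of a motion on configurations -/
def act (T : Fin d → Bool) (a : St d) (W : Lk d → G) : Lk d → G :=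
  pat (mv T a) (fun e => T e.2) W

/-- no reflection -/
abbrev T0 : Fin d → Bool := fun _ => false

/-- reflection of one axis -/
def T1 (k : Fin d) : Fin d → Bool := fun i => decide (i = k)

theorem measurable_act (T : Fin d → Bool) (a : St d) : Measurable (act (G := G) T a) :=
  measurable_pat _ _

theorem act_act (T T' : Fin d → Bool) (a a' : St d) (W : Lk d → G) : act T a (act T' a' W) =
    act (fun i => xor (T i) (T' i)) (fun i => if T' i then a' i - a i else a i + a' i) W := by
  rw [act, act, pat_pat, act]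
  congr 1
  funext e
  simp only [comp_apply, mv, Prod.mk.injEq, and_true]
  funext i
  cases T i <;> cases T' i <;> simp <;> ring

theorem act_zero (W : Lk d → G) : act T0 0 W = W := by
  funext e
  simp [act, pat, mv]

theorem per_eq {n : St d} {e e' : Lk d} :
    per n e = per n e' ↔ e.2 = e'.2 ∧ ∀ i, n i ∣ e'.1 i - e.1 i := by
  simp only [per, Prod.mk.injEq, funext_iff, and_comm, ← Int.modEq_iff_dvd, Int.ModEq]

theorem per_mv {n : St d} {T : Fin d → Bool} {a : St d} {e e' : Lk d} :
    per n (mv T a e) = per n (mv T a e') ↔ per n e = per n e' := by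
  simp only [per_eq, mv]
  refine and_congr_right fun h => forall_congr' fun i => ?_
  rw [h]
  cases T i
  · simp
  · simp only [if_true]
    rw [← dvd_neg]
    congr! 1
    ring

/-- the periodic pattern -/
def pc (n : St d) (w : Lk d → G) : Lk d → G := pat (per n) (fun _ => false) w

theorem measurable_pc (n : St d) : Measurable (pc (G := G) n) := measurable_pat _ _

theorem act_pc (n : St d) (T : Fin d → Bool) (a : St d) (w : Lk d → G) :
    act T a (pc n w) = pat (per n ∘ mv T a) (fun e => T e.2) w := by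
  simp only [act, pc, pat_pat, Bool.xor_false]

/-- integral over the torus with periods `n` -/
noncomputable def TI (n : St d) (F : (Lk d → G) → ℝ) : ℝ := ∫ w, F (pc n w) ∂PP μ (Lk d)

theorem same_mv {n n' : St d} {D : Set (Lk d)}
    (h : ∀ e ∈ D, ∀ e' ∈ D, per n e = per n e' ↔ per n' e = per n' e') (T T' : Fin d → Bool)
    (a a' : St d) :
    Same D (per n ∘ mv T a) (fun e => T e.2) (per n' ∘ mv T' a') fun e => T' e.2 := by
  intro e he e' he'
  simp only [comp_apply, per_mv]
  exact ⟨h e he e' he', fun h => by simp [(per_eq.mp h).1]⟩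

theorem pc_eq (n : St d) (w : Lk d → G) : pc n w = pat (per n ∘ mv T0 0) (fun e => T0 e.2) w := by
  rw [← act_pc, act_zero]

theorem TI_act (n : St d) {F : (Lk d → G) → ℝ} (hF : Measurable F) (T : Fin d → Bool) (a : St d) :
    TI μ n (fun W => F (act T a W)) = TI μ n F := by
  simp only [TI, act_pc]
  simp only [pc_eq]
  exact (same_mv (fun _ _ _ _ => Iff.rfl) _ _ _ _).int μ hF (dependsOn_univ F)

theorem TI_nonneg (n : St d) {F : (Lk d → G) → ℝ} (h : ∀ W, 0 ≤ F W) : 0 ≤ TI μ n F :=
  integral_nonneg fun _ => h _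

theorem TI_mono (n : St d) {F F' : (Lk d → G) → ℝ} (bF : BM F) (bF' : BM F')
    (h : ∀ w, F (pc n w) ≤ F' (pc n w)) : TI μ n F ≤ TI μ n F' :=
  integral_mono ((bF.comp (measurable_pc n)).integrable _) ((bF'.comp (measurable_pc n)).integrable _)
    h

theorem TI_congr (n : St d) {F F' : (Lk d → G) → ℝ} (h : ∀ w, F (pc n w) = F' (pc n w)) :
    TI μ n F = TI μ n F' := by simp only [TI, h]

/-- links between the planes `x_k = 0` and `x_k = h` -/
def slab (k : Fin d) (h : ℤ) : Set (Lk d) := {e | 0 ≤ e.1 k ∧ e.1 k + dl k e.2 ≤ h}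

/-- links in the planes `x_k = 0` and `x_k = h` -/
def wall (k : Fin d) (h : ℤ) : Set (Lk d) := {e | k ≠ e.2 ∧ (e.1 k = 0 ∨ e.1 k = h)}

theorem dl_cases (k j : Fin d) : (k = j ∧ dl k j = 1) ∨ (k ≠ j ∧ dl k j = 0) := by
  by_cases h : k = j <;> simp [dl, h]

theorem per_slab {n : St d} {k : Fin d} {h : ℤ} (hn : h < n k) {e e' : Lk d} (he : e ∈ slab k h)
    (he' : e' ∈ slab k h) :
    per n e = per n e' ↔ e.2 = e'.2 ∧ e.1 k = e'.1 k ∧ ∀ i, i ≠ k → n i ∣ e'.1 i - e.1 i := by
  rw [per_eq]
  refine and_congr_right fun _ => ⟨fun h => ⟨?_, fun i _ => h i⟩, fun h i => ?_⟩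
  · have := Int.eq_zero_of_abs_lt_dvd (h k) (by
      have := dl_cases k e.2
      have := dl_cases k e'.2
      simp only [slab, Set.mem_ofPred_eq] at he he'
      rw [abs_lt]
      omega)
    omega
  · by_cases hi : i = k
    · simp [hi, h.1]
    · exact h.2 i hi

theorem same_slab {n : St d} {k : Fin d} {h m : ℤ} (hn : h < n k) (hm : h < m)
    (T T' : Fin d → Bool) (a a' : St d) : Same (slab k h) (per n ∘ mv T a) (fun e => T e.2)
      (per (update n k m) ∘ mv T' a') fun e => T' e.2 := by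
  refine same_mv (fun e he e' he' => ?_) _ _ _ _
  rw [per_slab hn he he', per_slab (by simpa using hm) he he']
  exact and_congr_right fun _ => and_congr_right fun _ => forall₂_congr fun i hi => by
    rw [update_of_ne hi]

theorem emod_neg_of {x n : ℤ} (h0 : 0 < x) (h : x ≤ n) : (-x) % n = n - x := by
  rw [← Int.add_emod_right, Int.emod_eq_of_lt (by omega) (by omega)]
  ring

theorem glue_slab {n : St d} {k : Fin d} {h h' : ℤ} (h0 : 0 < h) (h0' : 0 < h')
    (hn : n k = h + h') {F F' : (Lk d → G) → ℝ} (bF : BM F) (bF' : BM F')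
    (hD : DependsOn F (slab k h)) (hD' : DependsOn F' (slab k h')) :
    TI μ n (fun W => F W * F' (act (T1 k) 0 W)) =
      ∫ w, KK μ (wall k h) (per n ∘ mv T0 0) (fun e => T0 e.2) F (pc n w) *
        KK μ (wall k h') (per n ∘ mv (T1 k) 0) (fun e => T1 k e.2) F' (act (T1 k) 0 (pc n w))
          ∂PP μ (Lk d) := by
  simp only [TI, act_pc]
  simp only [pc_eq]
  have a1 : ∀ e ∈ slab k h, ((per n ∘ mv T0 0) e).1 k = e.1 k := fun e he => by
    have := dl_cases k e.2
    simp only [slab, Set.mem_ofPred_eq] at he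
    simp only [comp_apply, per, mv, Bool.false_eq_true, if_false, Pi.zero_apply, add_zero]
    exact Int.emod_eq_of_lt he.1 (by omega)
  have a2 : ∀ e ∈ slab k h', ((per n ∘ mv (T1 k) 0) e).1 k =
      if e.1 k + dl k e.2 = 0 then 0 else n k - (e.1 k + dl k e.2) := fun e he => by
    have := dl_cases k e.2
    simp only [slab, Set.mem_ofPred_eq] at he
    simp only [comp_apply, per, mv, T1, decide_true, if_true, Pi.zero_apply]
    rw [show 0 - e.1 k - dl k e.2 = -(e.1 k + dl k e.2) by ring]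
    split_ifs with h
    · simp [h]
    · exact emod_neg_of (by omega) (by omega)
  refine glue_two μ (W := wall k h) bF bF' hD hD' _ _ (fun e he => ?_) (fun e he => ?_)
    fun e he e' he' h => ?_
  · simp only [wall, Set.mem_ofPred_eq, a1 e he]
    rfl
  · simp only [wall, Set.mem_ofPred_eq, a2 e he]
    refine and_congr_right fun hk => ?_
    have := dl_cases k e.2
    have hk' : k ≠ e.2 := hk
    simp only [slab, Set.mem_ofPred_eq] at he
    split_ifs <;> omega
  · have b1 := a1 e he.1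
    have b2 := a2 e' he'.1
    have b3 : e.2 = e'.2 := by simpa [per, mv] using congrArg Prod.snd h
    rw [h, b2] at b1
    have := dl_cases k e.2
    have := dl_cases k e'.2
    simp only [slab, wall, Set.mem_sdiff, Set.mem_ofPred_eq, ← b3] at he he' b1 this
    split_ifs at b1 <;> omega

theorem sq_KK {n : St d} {k : Fin d} {h : ℤ} (h0 : 0 < h) (hn : h < n k) {F : (Lk d → G) → ℝ}
    (bF : BM F) (hD : DependsOn F (slab k h)) (T : Fin d → Bool) (a : St d) :
    ∫ w, KK μ (wall k h) (per n ∘ mv T a) (fun e => T e.2) F (act T a (pc n w)) *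
      KK μ (wall k h) (per n ∘ mv T a) (fun e => T e.2) F (act T a (pc n w)) ∂PP μ (Lk d) =
      TI μ (update n k (2 * h)) fun W => F W * F (act (T1 k) 0 W) := by
  have hm : h < 2 * h := by omega
  rw [glue_slab μ h0 h0 (by simp [two_mul]) bF bF hD hD,
    ← (same_slab hn hm T T0 a 0).KK μ bF.meas hD, ← (same_slab hn hm T (T1 k) a 0).KK μ bF.meas hD]
  have bK := bF.KK μ (wall k h) (per n ∘ mv T a) fun e => T e.2
  have dK := KK_dep μ (V := wall k h) hD (per n ∘ mv T a) fun e => T e.2
  simp only [act_pc n]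
  rw [((same_slab hn hm T T0 a 0).mono Set.inter_subset_left).int μ (bK.mul bK).meas
    (DependsOn.mul' dK dK)]
  refine integral_congr_ae (ae_of_all _ fun w => ?_)
  simp only [← pc_eq]
  congr 1
  refine dK fun e he => ?_
  have hk : ¬ e.2 = k := fun h => he.2.1 h.symm
  rw [act_pc]
  simp only [pc, pat, T1, hk, decide_false, sg_false, comp_apply]
  congr 1
  refine per_eq.mpr ⟨rfl, fun i => ?_⟩
  by_cases hi : i = k
  · subst hi
    rcases he.2.2 with h1 | h1 <;> simp [mv, T1, dl, he.2.1, h1]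
    exact ⟨-1, by ring⟩
  · simp [mv, T1, hi]

/-- Cauchy-Schwarz for two slabs of different heights -/
theorem two_slab {n : St d} {k : Fin d} {h h' : ℤ} (h0 : 0 < h) (h0' : 0 < h')
    (hn : n k = h + h') {ι : Type} (s : Finset ι) {F F' : ι → (Lk d → G) → ℝ} (bF : ∀ i, BM (F i))
    (bF' : ∀ i, BM (F' i)) (hD : ∀ i, DependsOn (F i) (slab k h))
    (hD' : ∀ i, DependsOn (F' i) (slab k h')) :
    (∑ i ∈ s, TI μ n fun W => F i W * F' i (act (T1 k) 0 W)) ^ 2 ≤
      (∑ i ∈ s, TI μ (update n k (2 * h)) fun W => F i W * F i (act (T1 k) 0 W)) *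
        ∑ i ∈ s, TI μ (update n k (2 * h')) fun W => F' i W * F' i (act (T1 k) 0 W) := by
  simp only [fun i => glue_slab μ h0 h0' hn (bF i) (bF' i) (hD i) (hD' i),
    fun i => (sq_KK μ h0 (show h < n k by omega) (bF i) (hD i) T0 0).symm,
    fun i => (sq_KK μ h0' (show h' < n k by omega) (bF' i) (hD' i) (T1 k) 0).symm, act_zero]
  exact int_cs _ s (fun i => ((bF i).KK μ _ _ _).comp (measurable_pc n))
    fun i => ((bF' i).KK μ _ _ _).comp ((measurable_act _ _).comp (measurable_pc n))

end Pool.Agent.Lib.MP_7f377f_mp.RGP
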