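import Pool.Agent.Lib.MP_7f377f_mp.PEv

/-! Local covariant families of events and their conditional probabilities. -/

namespace Pool.Agent.Lib.MP_7f377f_mp.RGP

open MeasureTheory Measure Function

set_option linter.unusedSectionVars false

variable {d : ℕ} {G : Type} [MeasurableSpace G] [Group G] [MeasurableMul₂ G] [MeasurableInv G]
  {μ : Measure G} [IsProbabilityMeasure μ] [μ.IsInvInvariant] [μ.IsMulRightInvariant]

theorem bm_ind {X : Type} [MeasurableSpace X] {s : Set X} (h : MeasurableSet s) : BM (ind s) :=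
  BM.ind h

theorem sm_T0 (a P : St d) : sm T0 a P = P + a := by funext i; simp [sm]

theorem abs_sm (T : Fin d → Bool) (a P Q : St d) (i : Fin d) :
    |sm T a Q i - sm T a P i| = |Q i - P i| := by
  simp only [sm]
  split_ifs
  · rw [abs_sub_comm]; congr 1; ring
  · congr 1; ring

theorem sm_surj (T : Fin d → Bool) (a Q : St d) :
    sm T a (fun i => if T i then a i - Q i else Q i - a i) = Q := by
  funext i
  simp only [sm]
  split_ifs <;> ring

namespace Model

variable (M : Model d μ)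

/-- sites of the level `j` lattice in the units of level zero -/
def Dv (j : ℕ) (P : St d) : Prop := ∀ i, M.rat 0 j ∣ P i

variable {M}

theorem rat_dvd {i j : ℕ} (h : i ≤ j) : M.rat 0 i ∣ M.rat 0 j :=
  ⟨_, (M.rat_mul (Nat.zero_le i) h).symm⟩

theorem rat_le {i j : ℕ} (h : i ≤ j) : M.rat 0 i ≤ M.rat 0 j :=
  Int.le_of_dvd (M.rat_pos _ _) (rat_dvd h)

theorem Dv.mono {i j : ℕ} {P : St d} (hP : M.Dv j P) (h : i ≤ j) : M.Dv i P :=
  fun a => (rat_dvd h).trans (hP a)

theorem Dv.sc {j : ℕ} {P : St d} (hP : M.Dv j P) : M.sc j (fun i => P i / M.rat 0 j) 0 = P :=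
  funext fun i => Int.mul_ediv_cancel' (hP i)

theorem Dv_sc {j k : ℕ} (h : j ≤ k) (v : St d) : M.Dv j (M.sc k v 0) :=
  fun _ => (rat_dvd h).mul_right _

theorem Dv_zero (j : ℕ) : M.Dv j 0 := fun _ => dvd_zero _

theorem Dv.sm {j : ℕ} {P a : St d} (hP : M.Dv j P) (ha : M.Dv j a) (T : Fin d → Bool) :
    M.Dv j (sm T a P) := fun i => by
  simp only [RGP.sm]
  split_ifs
  exacts [(ha i).sub (hP i), (hP i).add (ha i)]

variable (M)

/-- a local covariant family of events -/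
structure Loc (j : ℕ) (ρ : ℤ) (E : St d → Set (Hist d G)) : Prop where
  meas : ∀ P, MeasurableSet (E P)
  dep : ∀ P, M.Dv j P → DependsOn (· ∈ E P) (M.DQ j (P - cv ρ) (P + cv ρ))
  cov : ∀ k, j ≤ k → ∀ P, M.Dv j P → ∀ T v w,
    actH T (M.sc k v) w ∈ E P ↔ w ∈ E (sm T (M.sc k v 0) P)

/-- conditional probability given the finest field -/
noncomputable def fE (j : ℕ) (ρ : ℤ) (E : St d → Set (Hist d G)) (P : St d) : (Lk d → G) → ℝ :=
  M.cf (M.DF j (P - cv ρ) (P + cv ρ)) (ind (E P))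

variable {M} {j : ℕ} {ρ : ℤ} {E : St d → Set (Hist d G)}

theorem Loc.bm (h : M.Loc j ρ E) (P : St d) : BM (M.fE j ρ E P) := M.bm_cf (bm_ind (h.meas P))

theorem fE_nonneg (P : St d) (W : Lk d → G) : 0 ≤ M.fE j ρ E P W := M.cf_nonneg (ind_nonneg _) W

theorem Loc.le_one (h : M.Loc j ρ E) (P : St d) (W : Lk d → G) : M.fE j ρ E P W ≤ 1 :=
  M.cf_le_one (bm_ind (h.meas P)) (ind_le_one _) W

theorem Loc.dep_ind (h : M.Loc j ρ E) {P : St d} (hP : M.Dv j P) :
    DependsOn (ind (E P)) (M.DF j (P - cv ρ) (P + cv ρ)) := fun _ _ hw =>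
  ind_congr (Iff.of_eq (h.dep P hP (by rwa [coe_DF] at hw)))

theorem Loc.dep_cell (h : M.Loc j ρ E) {P s : St d} (hP : M.Dv j P)
    (hs : ∀ i, ρ ≤ P i ∧ P i ≤ s i - ρ) : DependsOn (M.fE j ρ E P) (cell s) :=
  (M.cf_dep (M.closed_DF _ _ _) (h.dep_ind hP)).mono (M.DQ_cell fun i => by
    have := hs i
    simp only [Pi.sub_apply, Pi.add_apply, cv]
    omega)

theorem Loc.act (h : M.Loc j ρ E) {P a : St d} (hP : M.Dv j P) (ha : M.Dv j a) (T : Fin d → Bool)
    (W : Lk d → G) : M.fE j ρ E P (act T a W) = M.fE j ρ E (sm T a P) W := by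
  rw [← ha.sc, fE, M.cf_act (bm_ind (h.meas P)) (fun p hp => (M.mem_DF.mp hp).1) T _
    (fun p => by rw [mem_DF, M.DQ_mvH le_rfl, ← mem_DF]), fE]
  congr 1
  funext w
  exact ind_congr (h.cov j le_rfl P hP T _ w)

theorem Loc.mir (h : M.Loc j ρ E) {P : St d} (hP : M.Dv j P) :
    mir (M.fE j ρ E P) = fun W => ∏ T, M.fE j ρ E (sm T 0 P) W :=
  funext fun W => Finset.prod_congr rfl fun T _ => h.act hP (Dv_zero j) T W

theorem Loc.per (h : M.Loc j ρ E) {k : ℕ} (hk : j ≤ k) {P P' N : St d} (hP : M.Dv j P)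
    (hd : ∀ i, M.sc k N 0 i ∣ P' i - P i) (w : Hist d G) :
    pcH (M.sc k N) w ∈ E P ↔ pcH (M.sc k N) w ∈ E P' := by
  choose q hq using hd
  have e : actH T0 (M.sc k (N * q)) (pcH (M.sc k N) w) = pcH (M.sc k N) w := hist_ext fun a => by
    rw [lvl_actH, lvl_pcH, act_pc_congr (a' := 0) fun i => ⟨-q i, by simp [sc, mul_assoc]⟩,
      act_zero]
  rw [← e, h.cov k hk P hP, e, sm_T0]
  refine Iff.of_eq (congrArg (fun Q => _ ∈ E Q) (funext fun i => ?_))
  have := hq i
  simp only [sc, Pi.smul_apply, smul_eq_mul, Pi.add_apply, Pi.mul_apply] at this ⊢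
  linarith

section place
variable {u : (Lk d → G) → ℝ} {ι : Type} {j : ι → ℕ} {ρ : ι → ℤ} {E : ι → St d → Set (Hist d G)}
  {P : ι → St d}

theorem place (hu : Pot u) {s : ℤ} (hs : 0 < s) {m : St d} (hm : ∀ i, 0 < m i) (A : Finset ι)
    (hE : ∀ a, M.Loc (j a) (ρ a) (E a)) (hP : ∀ a, M.Dv (j a) (P a)) {v : St d}
    (hv : ∀ a, M.Dv (j a) v) (hd : ∀ a, M.rat 0 (j a) ∣ s) :
    (ZZ μ u (m * cv s) fun W => ∏ a ∈ A, M.fE (j a) (ρ a) (E a) (P a) W) =
      ZZ μ u (m * cv s) fun W => ∏ a ∈ A, M.fE (j a) (ρ a) (E a) (fun i => (P a i - v i) % s)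
        (act T0 ((fun i => (P a i - v i) / s % m i) * cv s) W) := by
  rw [← hu.zz_act μ (n := m * cv s) (fun i => mul_pos (hm i) hs) (F := fun W => ∏ a ∈ A,
    M.fE (j a) (ρ a) (E a) (fun i => (P a i - v i) % s)
      (act T0 ((fun i => (P a i - v i) / s % m i) * cv s) W))
    (BM.prod fun a _ => ((hE a).bm _).comp (measurable_act _ _)).meas T0 v]
  refine ZZ_congr μ _ fun w => Finset.prod_congr rfl fun a _ => ?_
  rw [act_act, act_pc_congr (a' := fun i => (P a i - v i) / s * s + v i) fun i => ?_]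
  · simp only [Bool.xor_self]
    rw [(hE a).act (fun i => (EuclideanDomain.dvd_mod_iff (hd a)).mpr ((hP a i).sub (hv a i)))
      (fun i => ((hd a).mul_left _).add (hv a i)), sm_T0]
    congr 1
    funext i
    have := Int.emod_add_mul_ediv (P a i - v i) s
    simp only [Pi.add_apply]
    linarith
  · obtain ⟨q, hq⟩ := Int.dvd_emod_sub_self (x := (P a i - v i) / s) (m := m i)
    exact ⟨-q, by simp only [Pi.mul_apply, Bool.false_eq_true, if_false]; nlinarith⟩

theorem cell_inj {s m x y v : ℤ} (hs : 0 < s) (h : (x - v) / s % m = (y - v) / s % m) :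
    ∃ q, |y - x - m * s * q| ≤ s := by
  obtain ⟨q, hq⟩ := Int.ModEq.dvd h
  have h1 := Int.emod_add_mul_ediv (x - v) s
  have h2 := Int.emod_add_mul_ediv (y - v) s
  have h3 := Int.emod_nonneg (x - v) hs.ne'
  have h4 := Int.emod_nonneg (y - v) hs.ne'
  have h5 := Int.emod_lt_of_pos (x - v) hs
  have h6 := Int.emod_lt_of_pos (y - v) hs
  have h7 : s * ((y - v) / s) - s * ((x - v) / s) = m * s * q := by rw [← mul_sub, hq]; ring
  exact ⟨q, abs_le.mpr ⟨by linarith, by linarith⟩⟩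

theorem cells_inj {s : ℤ} (hs : 0 < s) {m v : St d} {A : Finset ι}
    (h : ∀ a ∈ A, ∀ a' ∈ A, ∀ q : St d, (∀ i, |P a' i - P a i - m i * s * q i| ≤ s) → a = a') :
    ∀ a ∈ A, ∀ a' ∈ A, (fun i => (P a i - v i) / s % m i) =
      (fun i => (P a' i - v i) / s % m i) → a = a' := fun a ha a' ha' e => by
  choose q hq using fun i => cell_inj hs (congrFun e i)
  exact h a ha a' ha' q hq

theorem cells_mem {s : ℤ} {m : St d} (hm : ∀ i, 0 < m i) (x : St d) :
    (fun i => x i / s % m i) ∈ box m :=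
  mem_box.mpr fun i => ⟨Int.emod_nonneg _ (hm i).ne', Int.emod_lt_of_pos _ (hm i)⟩

theorem factor_loc (hu : Pot u) {k : ℕ} {N : St d} (hN : ∀ i, 0 < N i) {s : ℤ} (hs : 0 < s)
    {m : St d} (hm : ∀ i, 0 < m i) (hn : M.sc k N 0 = m * cv s) (A : Finset ι)
    (hE : ∀ a, M.Loc (j a) (ρ a) (E a)) (hP : ∀ a, M.Dv (j a) (P a)) (hj : ∀ a, j a ≤ k) {v : St d}
    (hi : ∀ a ∈ A, ∀ a' ∈ A, (fun i => (P a i - v i) / s % m i) =
      (fun i => (P a' i - v i) / s % m i) → a = a')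
    (hρ : ∀ a ∈ A, ∀ i, ρ a ≤ (P a i - v i) % s ∧ (P a i - v i) % s ≤ s - ρ a) :
    M.JZ u k N (fun w => ∏ a ∈ A, ind (E a (P a)) w) =
      ZZ μ u (m * cv s) fun W => ∏ a ∈ A, M.fE (j a) (ρ a) (E a) (P a) W := by
  rw [← hn]
  refine M.factor_cells hu k hN (fun _ => hs) hn A (v := v)
    (q := fun a i => (P a i - v i) / s / m i) hj (fun a _ => cells_mem hm _) hi (fun a ha i => ?_)
    (fun a => bm_ind ((hE a).meas _)) fun a => (hE a).dep_ind (hP a)
  have h1 := Int.emod_add_mul_ediv ((P a i - v i) / s) (m i)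
  have h2 := Int.emod_add_mul_ediv (P a i - v i) s
  have h3 := hρ a ha i
  simp only [h1, Pi.sub_apply, Pi.add_apply]
  constructor <;> linarith [h3.1, h3.2]

end place

/-- bad events at the origin of every level -/
structure Bad (M : Model d μ) where
  bad : ℕ → Set (Hist d G)
  meas : ∀ j, MeasurableSet (bad j)
  dep : ∀ j, DependsOn (· ∈ bad j) (M.DQ j (0 - cv (2 * M.rat 0 j)) (0 + cv (2 * M.rat 0 j)))
  refl : ∀ j T w, actH T 0 w ∈ bad j ↔ w ∈ bad j

namespace Bad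

variable (B : M.Bad)

/-- the bad event at a site -/
def bat (j : ℕ) (P : St d) : Set (Hist d G) :=
  {w | actH T0 (M.sc j fun i => P i / M.rat 0 j) w ∈ B.bad j}

/-- a bad event of level below `k` near `P` -/
def Nr (k : ℕ) (r : ℤ) (P : St d) : Set (Hist d G) :=
  {w | ∃ i < k, ∃ Q, M.Dv i Q ∧ (∀ a, |Q a - P a| ≤ r) ∧ w ∈ B.bat i Q}

/-- a bad event of level below `k` -/
def Bd (k : ℕ) : Set (Hist d G) := {w | ∃ i < k, ∃ Q, M.Dv i Q ∧ w ∈ B.bat i Q}

/-- a bad event with no lower bad event nearby -/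
def Ev (j : ℕ) (r : ℤ) (P : St d) : Set (Hist d G) := B.bat j P \ B.Nr j r P

theorem loc_bat (j : ℕ) : M.Loc j (2 * M.rat 0 j) (B.bat j) where
  meas P := measurable_actH _ _ (B.meas j)
  dep P hP := (dep_pat (B.dep j) _ _).mono (by
    rintro _ ⟨p, hp, rfl⟩
    have := (M.DQ_mvH le_rfl T0 (fun i => P i / M.rat 0 j) _ _ p).mp hp
    rwa [hP.sc, sm_T0, zero_add] at this)
  cov k hk P hP T v w := by
    rw [bat, bat, Set.mem_ofPred_eq, Set.mem_ofPred_eq, ← B.refl j T (actH T0 _ w)]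
    refine Iff.of_eq (B.dep j fun p hp => ?_)
    obtain ⟨a, e⟩ := p
    have ha : a ≤ j := hp.1
    change lvl (actH T0 _ (actH T _ w)) a e = lvl (actH T 0 (actH T0 _ w)) a e
    refine congrFun ?_ e
    simp only [lvl_actH, act_act]
    congr 1
    · funext i; simp
    · funext i
      obtain ⟨y, hy⟩ := hP i
      have h0 := (M.rat_pos 0 j).ne'
      simp only [sc, sm, Pi.smul_apply, smul_eq_mul, hy, ← M.rat_mul (Nat.zero_le j) hk,
        ← M.rat_mul ha hk, mul_assoc, Pi.zero_apply, Bool.false_eq_true, if_false, zero_add]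
      split_ifs
      · rw [← mul_sub (M.rat 0 j), Int.mul_ediv_cancel_left _ h0, Int.mul_ediv_cancel_left _ h0]
        ring
      · rw [← mul_add (M.rat 0 j), Int.mul_ediv_cancel_left _ h0, Int.mul_ediv_cancel_left _ h0]
        ring

theorem loc_Nr {j k : ℕ} (hk : k ≤ j + 1) (r : ℤ) : M.Loc j (r + 2 * M.rat 0 j) (B.Nr k r) where
  meas P := by
    have := fun i Q => (B.loc_bat i).meas Q
    unfold Nr
    measurability
  dep P hP w w' h := by
    refine propext (exists_congr fun i => and_congr_right fun hi => exists_congr fun Q =>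
      and_congr_right fun hQ => and_congr_right fun hr => Iff.of_eq ?_)
    refine (B.loc_bat i).dep Q hQ fun p hp => h p (M.DQ_mono (by omega) (fun a => ?_) hp)
    have := rat_le (M := M) (show i ≤ j by omega)
    have := abs_le.mp (hr a)
    simp only [Pi.sub_apply, Pi.add_apply, cv]
    omega
  cov k' hk' P hP T v w := by
    refine exists_congr fun i => and_congr_right fun hi => ⟨?_, ?_⟩
    · rintro ⟨Q, hQ, hr, h⟩
      exact ⟨_, hQ.sm (Dv_sc (by omega) v) T, fun a => by rw [abs_sm]; exact hr a,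
        ((B.loc_bat i).cov k' (by omega) Q hQ T v w).mp h⟩
    · rintro ⟨Q, hQ, hr, h⟩
      rw [← sm_surj T (M.sc k' v 0) Q] at hr h
      have hQ' : M.Dv i fun a => if T a then M.sc k' v 0 a - Q a else Q a - M.sc k' v 0 a :=
        fun a => by
          have := Dv_sc (M := M) (show i ≤ k' by omega) v a
          simp only
          split_ifs
          exacts [this.sub (hQ a), (hQ a).sub this]
      exact ⟨_, hQ', fun a => by simpa only [abs_sm] using hr a,
        ((B.loc_bat i).cov k' (by omega) _ hQ' T v w).mpr h⟩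

theorem loc_Ev (j : ℕ) {r : ℤ} (hr : 0 ≤ r) : M.Loc j (r + 2 * M.rat 0 j) (B.Ev j r) where
  meas P := ((B.loc_bat j).meas P).diff ((B.loc_Nr (Nat.le_succ j) r).meas P)
  dep P hP w w' h := by
    simp only [Ev, Set.mem_sdiff]
    rw [show (w ∈ B.Nr j r P) = (w' ∈ B.Nr j r P) from (B.loc_Nr (Nat.le_succ j) r).dep P hP h,
      show (w ∈ B.bat j P) = (w' ∈ B.bat j P) from (B.loc_bat j).dep P hP fun p hp =>
        h p (M.DQ_mono le_rfl (fun a => by simp only [Pi.sub_apply, Pi.add_apply, cv]; omega) hp)]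
  cov k hk P hP T v w := by
    simp only [Ev, Set.mem_sdiff, (B.loc_bat j).cov k hk P hP,
      (B.loc_Nr (Nat.le_succ j) r).cov k hk P hP]

theorem meas_Bd (k : ℕ) : MeasurableSet (B.Bd k) := by
  have := fun i Q => (B.loc_bat i).meas Q
  unfold Bd
  measurability

theorem Nr_sub (k : ℕ) (r : ℤ) (P : St d) : B.Nr k r P ⊆ B.Bd k :=
  fun _ ⟨i, hi, Q, hQ, _, h⟩ => ⟨i, hi, Q, hQ, h⟩

theorem lowest {j k : ℕ} (hj : j ≤ k + 1) {N : St d} (hN : ∀ i, 0 < N i) {w : Hist d G}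
    (h : pcH (M.sc k N) w ∈ B.Bd j) : ∃ i < j, ∃ z ∈ box (M.sc k N i),
      ∀ r, pcH (M.sc k N) w ∈ B.Ev i r (M.rat 0 i • z) := by
  induction j with
  | zero => obtain ⟨i, hi, -⟩ := h; omega
  | succ j ih =>
    by_cases h' : pcH (M.sc k N) w ∈ B.Bd j
    · obtain ⟨i, hi, H⟩ := ih (by omega) h'
      exact ⟨i, by omega, H⟩
    obtain ⟨i, hi, Q, hQ, hb⟩ := h
    obtain rfl : i = j := by
      by_contra hne
      exact h' ⟨i, by omega, Q, hQ, hb⟩
    refine ⟨i, hi, fun a => Q a / M.rat 0 i % M.sc k N i a, cells_mem (M.sc_pos k hN i) _,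
      fun r => ⟨((B.loc_bat i).per (by omega) hQ (fun a => ?_) w).mp hb,
        fun H => h' (B.Nr_sub _ _ _ H)⟩⟩
    obtain ⟨y, hy⟩ := hQ a
    obtain ⟨q, hq⟩ := Int.dvd_emod_sub_self (x := y) (m := M.sc k N i a)
    refine ⟨q, ?_⟩
    simp only [Pi.smul_apply, smul_eq_mul, hy, Int.mul_ediv_cancel_left _ (M.rat_pos 0 i).ne',
      ← mul_sub, hq]
    simp only [sc, Pi.smul_apply, smul_eq_mul,
      ← M.rat_mul (Nat.zero_le i) (show i ≤ k by omega), mul_assoc]

end Bad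

end Model

end Pool.Agent.Lib.MP_7f377f_mp.RGP
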