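import Pool.Agent.Lib.MP_7f377f_mp.PPoly

/-! Non-abelian Stokes estimates and the multi-scale towers. -/

namespace Pool.Agent.Lib.MP_7f377f_mp.RGP

open MeasureTheory Measure Function
open scoped Quaternion

set_option linter.unusedSectionVars false

variable {d : ℕ} {G : Type} [MeasurableSpace G] [Group G] [MeasurableMul₂ G] [MeasurableInv G]
  {μ : Measure G} [IsProbabilityMeasure μ] [μ.IsInvInvariant] [μ.IsMulRightInvariant]
  {q : G →* ℍ} {δ δ' : ℝ} {g g' h h' : G}

/-- two group elements are close -/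
def Cl (q : G →* ℍ) (δ : ℝ) (g h : G) : Prop := ‖q g - q h‖ ≤ δ

theorem Cl.rfl : Cl q 0 g g := by simp [Cl]

theorem Cl.mono (H : Cl q δ g h) (hδ : δ ≤ δ') : Cl q δ' g h := le_trans H hδ

theorem Cl.symm (H : Cl q δ g h) : Cl q δ h g := (norm_sub_rev _ _).trans_le H

theorem Cl.trans (H : Cl q δ g h) (H' : Cl q δ' h h') : Cl q (δ + δ') g h' :=
  (norm_sub_le_norm_sub_add_norm_sub _ _ _).trans (add_le_add H H')

theorem Cl.left (hq : Rep q) (H : Cl q δ g h) (k : G) : Cl q δ (k * g) (k * h) := by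
  simpa only [Cl, map_mul, ← mul_sub, norm_mul, hq.norm, one_mul] using H

theorem Cl.right (hq : Rep q) (H : Cl q δ g h) (k : G) : Cl q δ (g * k) (h * k) := by
  simpa only [Cl, map_mul, ← sub_mul, norm_mul, hq.norm, mul_one] using H

theorem Cl.mul (hq : Rep q) (H : Cl q δ g h) (H' : Cl q δ' g' h') :
    Cl q (δ + δ') (g * g') (h * h') := (H.right hq g').trans (H'.left hq h)

theorem Cl.inv (hq : Rep q) (H : Cl q δ g h) : Cl q δ g⁻¹ h⁻¹ := by
  simpa only [Cl, hq.inv, ← star_sub, norm_star] using H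

theorem Cl.inner (hq : Rep q) (H : Cl q δ g h) : 1 - δ ^ 2 / 2 ≤ inner ℝ (q g) (q h) := by
  have h1 := norm_sub_sq_real (q g) (q h)
  have h2 := pow_le_pow_left₀ (norm_nonneg _) H 2
  rw [hq.norm, hq.norm] at h1
  linarith

/-- holonomy of a plaquette -/
def hol (W : Lk d → G) (x : St d) (a b : Fin d) : G :=
  W (x, a) * W (x + Pi.single a 1, b) * (W (x + Pi.single b 1, a))⁻¹ * (W (x, b))⁻¹

theorem hol_T0 (v : St d) (W : Lk d → G) (x : St d) (a b : Fin d) :
    hol (act T0 v W) x a b = hol W (x + v) a b := by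
  simp only [hol, ← ln_one, ln_T0, add_right_comm]

theorem strip (hq : Rep q) {W : Lk d → G} {p : St d} {a b : Fin d} {L : ℕ}
    (H : ∀ s : ℕ, s < L → Cl q δ (hol W (p + Pi.single a (s : ℤ)) a b) 1) :
    Cl q (L * δ) (W (p, b) * ln W (p + Pi.single b 1) a L)
      (ln W p a L * W (p + Pi.single a (L : ℤ), b)) := by
  induction L with
  | zero => simp [ln, Cl]
  | succ L ih =>
    have h1 := (ih fun s hs => H s (by omega)).right hq
      (W (p + Pi.single b 1 + Pi.single a (L : ℤ), a))
    have h2 := ((H L (by omega)).symm.right hq (W (p + Pi.single a (L : ℤ), b) *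
      W (p + Pi.single b 1 + Pi.single a (L : ℤ), a))).left hq (ln W p a L)
    rw [hol, add_right_comm p (Pi.single a (L : ℤ)) (Pi.single b 1)] at h2
    simp only [ln, mul_assoc, add_mul, Pi.single_add, ← add_assoc, one_mul, Nat.cast_add,
      Nat.cast_one, inv_mul_cancel_left, inv_mul_cancel, mul_one] at h1 h2 ⊢
    exact h1.trans h2

theorem rect (hq : Rep q) {W : Lk d → G} {p : St d} {a b : Fin d} {L r : ℕ}
    (H : ∀ s t : ℕ, s < L → t < r →
      Cl q δ (hol W (p + Pi.single b (t : ℤ) + Pi.single a (s : ℤ)) a b) 1) :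
    Cl q (r * (L * δ)) (ln W p b r * ln W (p + Pi.single b (r : ℤ)) a L)
      (ln W p a L * ln W (p + Pi.single a (L : ℤ)) b r) := by
  induction r with
  | zero => simp [ln, Cl]
  | succ r ih =>
    have h1 := (strip hq fun s hs => H s r hs (by omega)).left hq (ln W p b r)
    have h2 := (ih fun s t hs ht => H s t hs (by omega)).right hq
      (W (p + Pi.single b (r : ℤ) + Pi.single a (L : ℤ), b))
    simp only [ln, mul_assoc, add_mul, add_right_comm p (Pi.single a _), Pi.single_add,
      ← add_assoc, one_mul, Nat.cast_add, Nat.cast_one] at h1 h2 ⊢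
    exact (h1.trans h2).mono (add_comm _ _).le

namespace Model

variable (M : Model d μ) (a b : Fin d) (x : ℤ)

/-- a point of the plane -/
def pt (t z : ℤ) : St d := Pi.single a t + Pi.single b z

/-- the piece of the tower parallel to the wall -/
def side (t : ℤ) (j : ℕ) (w : Hist d G) : G :=
  (ln (lvl w j) (pt a b t (M.L j * (x / M.rat 0 (j + 1)))) b (x / M.rat 0 j % M.L j).toNat)⁻¹

/-- the tower -/
def tw (w : Hist d G) : ℕ → G
  | 0 => 1
  | j + 1 => tw w j * (ln (lvl w j) (pt a b 1 (x / M.rat 0 j)) a (M.L j - 1).toNat *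
      M.side a b x (M.L j) j w)

/-- its shadow on the wall -/
def wl (w : Hist d G) : ℕ → G
  | 0 => 1
  | j + 1 => wl w j * M.side a b x 0 j w

theorem measurable_tw (k : ℕ) : Measurable fun w : Hist d G => M.tw a b x w k := by
  induction k with
  | zero => exact measurable_const
  | succ k ih =>
    exact ih.mul (((measurable_ln _ _ _).comp (measurable_lvl k)).mul
      ((measurable_ln _ _ _).comp (measurable_lvl k)).inv)

theorem div_succ (j : ℕ) : M.L j * (x / M.rat 0 (j + 1)) + x / M.rat 0 j % M.L j = x / M.rat 0 j := by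
  rw [← M.rat_mul (Nat.zero_le j) (Nat.le_succ j), M.rat_succ,
    ← Int.ediv_ediv_of_nonneg (M.rat_pos 0 j).le, Int.mul_ediv_add_emod]

variable {a b} (hab : a ≠ b)
include hab

theorem wl_th {s : ℕ → St d} (hs : ∀ j, s j = 0) (w : Hist d G) (k : ℕ) :
    M.wl a b x (actH (T1 a) s w) k = M.wl a b x w k := by
  induction k with
  | zero => rfl
  | succ k ih =>
    have : ∀ z, sm (T1 a) 0 (pt a b 0 z) = pt a b 0 z := fun z => funext fun i => by
      by_cases hi : i = a <;> simp [sm, T1, pt, hi, hab]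
    simp [wl, side, ih, lvl_actH, hs, ln_act, this, T1, hab.symm]

variable {M x}

theorem tw_dep {k j : ℕ} (hj : j ≤ k) (hx : 0 ≤ x) (hx' : x ≤ M.rat 0 k) :
    DependsOn (fun w : Hist d G => M.tw a b x w j)
      (M.DQ k (Pi.single a 1 - update (cv (2 * M.rat 0 k)) a 0) (cv (2 * M.rat 0 k))) := by
  intro w w' h
  induction j with
  | zero => rfl
  | succ j ih =>
    have h0 := M.rat_pos 0 j
    have h1 := M.two_le j
    have h2 : M.rat 0 j * M.L j ≤ M.rat 0 k := by
      rw [← M.rat_succ, M.rat_mul (Nat.zero_le j) (Nat.le_succ j)]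
      exact rat_le hj
    have h3 := Int.ediv_mul_le x h0.ne'
    have h4 := M.div_succ x j
    have h5 := Int.ediv_nonneg hx (M.rat_pos 0 (j + 1)).le
    have h6 := Int.emod_nonneg (x / M.rat 0 j) (M.L_pos j).ne'
    have key : ∀ (c : Fin d) (t z : ℤ), 1 ≤ t → t + dl a c ≤ M.L j → 0 ≤ z →
        z + dl b c ≤ x / M.rat 0 j → c = a ∨ c = b →
        lvl w j (pt a b t z, c) = lvl w' j (pt a b t z, c) := fun c t z a1 a2 a3 a4 a5 => by
      refine h _ ⟨Nat.le_of_succ_le hj, fun i => ?_⟩
      by_cases hi : i = a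
      · subst hi
        simp only [pt, Pi.sub_apply, Pi.add_apply, Pi.single_eq_same, update_self,
          Pi.single_eq_of_ne hab, cv]
        constructor <;> nlinarith
      by_cases hi' : i = b
      · subst hi'
        simp only [pt, Pi.sub_apply, Pi.add_apply, Pi.single_eq_same, update_of_ne hi,
          Pi.single_eq_of_ne hi, cv]
        constructor <;> nlinarith
      · have : dl i c = 0 := by rcases a5 with rfl | rfl <;> simp [dl, hi, hi']
        simp only [pt, Pi.sub_apply, Pi.add_apply, update_of_ne hi, Pi.single_eq_of_ne hi,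
          Pi.single_eq_of_ne hi', cv, this]
        constructor <;> nlinarith
    have e1 := ln_dep (G := G) (x := pt a b 1 (x / M.rat 0 j)) (a := a) (k := (M.L j - 1).toNat)
      (D := {e | lvl w j e = lvl w' j e}) (fun s hs => by
        rw [pt, add_right_comm, ← Pi.single_add]
        exact key a _ _ (by omega) (by simp [dl]; omega) (by nlinarith) (by simp [dl, hab.symm])
          (Or.inl rfl)) fun _ he => he
    have e2 := ln_dep (G := G) (x := pt a b (M.L j) (M.L j * (x / M.rat 0 (j + 1)))) (a := b)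
      (k := (x / M.rat 0 j % M.L j).toNat) (D := {e | lvl w j e = lvl w' j e}) (fun s hs => by
        rw [pt, add_assoc, ← Pi.single_add]
        exact key b _ _ (by omega) (by simp [dl, hab]) (by positivity) (by simp [dl]; omega)
          (Or.inr rfl)) fun _ he => he
    simp only at e1 e2 ih
    simp only [tw, side, ih (by omega), e1, e2]

theorem tw_close (hq : Rep q) {w : Hist d G} {k : ℕ} {ε η : ℕ → ℝ} (hε : ∀ j, 0 ≤ ε j) (hx : 0 ≤ x)
    (h1 : ∀ j < k, ∀ t z : ℤ, 0 ≤ t → t ≤ M.L j → 0 ≤ z → z ≤ x / M.rat 0 j →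
      Cl q (ε j) (hol (lvl w j) (pt a b t z) a b) 1)
    (h2 : ∀ j < k, Cl q (η j) (w (j + 1, pt a b 0 (x / M.rat 0 (j + 1)), a))
      (ln (lvl w j) (pt a b 0 (M.L j * (x / M.rat 0 (j + 1)))) a (M.L j).toNat)) :
    Cl q (∑ j ∈ Finset.range k, ((M.L j : ℝ) ^ 2 * ε j + η j)) (w (0, pt a b 0 x, a) * M.tw a b x w k)
      (M.wl a b x w k * w (k, pt a b 0 (x / M.rat 0 k), a)) := by
  induction k with
  | zero => simp [tw, wl, Cl, M.rat_self]
  | succ j ih =>
    have a1 := M.two_le j
    have a4 := M.div_succ x j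
    have a5 := Int.ediv_nonneg hx (M.rat_pos 0 (j + 1)).le
    have a6 := Int.emod_nonneg (x / M.rat 0 j) (M.L_pos j).ne'
    have a7 := Int.emod_lt_of_pos (x / M.rat 0 j) (M.L_pos j)
    have b1 := rect hq (W := lvl w j) (p := pt a b 0 (M.L j * (x / M.rat 0 (j + 1)))) (a := a)
      (b := b) (L := (M.L j).toNat) (r := (x / M.rat 0 j % M.L j).toNat) fun s t hs ht => by
        rw [pt, add_assoc (Pi.single a 0), ← Pi.single_add, add_right_comm, ← Pi.single_add]
        exact h1 j (by omega) _ _ (by omega) (by omega) (by positivity) (by omega)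
    have b0 : ln (lvl w j) (Pi.single a 0 + Pi.single b (x / M.rat 0 j)) a (M.L j).toNat =
        w (j, pt a b 0 (x / M.rat 0 j), a) *
          ln (lvl w j) (pt a b 1 (x / M.rat 0 j)) a (M.L j - 1).toNat := by
      rw [show (M.L j).toNat = 1 + (M.L j - 1).toNat by omega, ln_add, ln_one, add_right_comm,
        ← Pi.single_add]
      rfl
    rw [Int.toNat_of_nonneg a6, Int.toNat_of_nonneg (M.L_pos j).le, pt, add_assoc, ← Pi.single_add,
      a4, add_right_comm, ← Pi.single_add, zero_add, b0] at b1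
    have b2 := ((b1.left hq (M.wl a b x w (j + 1))).right hq (M.side a b x (M.L j) j w)).mono
      (show _ ≤ (M.L j : ℝ) ^ 2 * ε j by
        rw [sq, mul_assoc]
        have c1 : (((M.L j).toNat : ℕ) : ℝ) = M.L j := by
          rw [← Int.cast_natCast, Int.toNat_of_nonneg (by omega)]
        have c2 : (((x / M.rat 0 j % M.L j).toNat : ℕ) : ℝ) ≤ M.L j := by
          rw [← Int.cast_natCast, Int.toNat_of_nonneg a6]
          exact Int.cast_le.mpr a7.le
        rw [c1]
        exact mul_le_mul_of_nonneg_right c2 (mul_nonneg (Int.cast_nonneg (by omega)) (hε j)))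
    have b3 := (ih (fun i hi => h1 i (by omega)) fun i hi => h2 i (by omega)).right hq
      (ln (lvl w j) (pt a b 1 (x / M.rat 0 j)) a (M.L j - 1).toNat * M.side a b x (M.L j) j w)
    have b4 := (h2 j (by omega)).symm.left hq (M.wl a b x w (j + 1))
    rw [Finset.sum_range_succ]
    simp only [wl, side, pt, mul_assoc, inv_mul_cancel_left, mul_inv_cancel, mul_one,
      tw] at b2 b3 b4 ⊢
    exact b3.trans (b2.trans b4)

end Model

end Pool.Agent.Lib.MP_7f377f_mp.RGP
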