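import Pool.Agent.Lib.MP_7f377f_mp.PBig

/-! Transfer matrix inequalities for static charges. -/

namespace Pool.Agent.Lib.MP_7f377f_mp.RGP

open MeasureTheory Measure Function
open scoped Quaternion

set_option linter.unusedSectionVars false

theorem lc_ratio {f : ℕ → ℝ} {K : ℕ} (hf : ∀ m ≤ K, 0 < f m)
    (h : ∀ m, m + 2 ≤ K → f (m + 1) ^ 2 ≤ f (m + 2) * f m) {i j : ℕ} (hij : i ≤ j)
    (hj : j + 1 ≤ K) : f (i + 1) / f i ≤ f (j + 1) / f j := by
  induction j, hij using Nat.le_induction with
  | base => rfl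
  | succ j hij ih =>
    refine (ih (by omega)).trans ?_
    rw [div_le_div_iff₀ (hf _ (by omega)) (hf _ (by omega)), ← sq]
    exact h j hj

theorem lc_pos {f : ℕ → ℝ} {K : ℕ} (hf : ∀ m ≤ K, 0 ≤ f m)
    (h : ∀ m, m + 2 ≤ K → f (m + 1) ^ 2 ≤ f (m + 2) * f m) {i : ℕ} (hi : i + 2 ≤ K)
    (h0 : 0 < f (i + 1)) : ∀ m ≤ K, 0 < f m := by
  have key : ∀ m, m + 2 ≤ K → 0 < f (m + 1) → 0 < f (m + 2) ∧ 0 < f m := fun m hm H => by
    have h1 := (pow_pos H 2).trans_le (h m hm)
    exact ⟨pos_of_mul_pos_left h1 (hf _ (by omega)), pos_of_mul_pos_right h1 (hf _ hm)⟩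
  intro m hm
  rcases le_total (i + 1) m with a | a
  · induction m, a using Nat.le_induction with
    | base => exact h0
    | succ m a ih =>
      obtain ⟨m, rfl⟩ : ∃ k, m = k + 1 := ⟨m - 1, by omega⟩
      exact (key m hm (ih (by omega))).1
  · induction a using Nat.decreasingInduction with
    | self => exact h0
    | of_succ m a ih => exact (key m (by omega) (ih (by omega))).2

theorem lc_le {f : ℕ → ℝ} {K : ℕ} (hf : ∀ m ≤ K, 0 < f m)
    (h : ∀ m, m + 2 ≤ K → f (m + 1) ^ 2 ≤ f (m + 2) * f m) {a b : ℕ} (hab : a ≤ b + 1)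
    (hb : b + 1 ≤ K) : f a / f 0 ≤ (f (b + 1) / f b) ^ a := by
  have h0 := hf 0 (Nat.zero_le _)
  induction a with
  | zero => simp [h0.ne']
  | succ a ih =>
    have := hf a (by omega)
    rw [show f (a + 1) / f 0 = f a / f 0 * (f (a + 1) / f a) by field_simp, pow_succ]
    exact mul_le_mul (ih (by omega)) (lc_ratio hf h (by omega) hb)
      (div_pos (hf _ (by omega)) this).le (pow_pos (div_pos (hf _ hb) (hf _ (by omega))) _).le

theorem lc_pow {f : ℕ → ℝ} {K : ℕ} (hf : ∀ m ≤ K, 0 < f m)
    (h : ∀ m, m + 2 ≤ K → f (m + 1) ^ 2 ≤ f (m + 2) * f m) {i j : ℕ} (hij : i ≤ j) (hj : j ≤ K) :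
    (f i / f 0) ^ j ≤ (f j / f 0) ^ i := by
  have h0 := hf 0 (Nat.zero_le _)
  induction j, hij using Nat.le_induction with
  | base => rfl
  | succ j hij ih =>
    have := hf j (by omega)
    rw [show f (j + 1) / f 0 = f j / f 0 * (f (j + 1) / f j) by field_simp, pow_succ, mul_pow]
    exact mul_le_mul (ih (by omega)) (lc_le hf h (by omega) hj) (div_pos (hf _ (by omega)) h0).le
      (pow_pos (div_pos this h0) _).le

/-- components of a quaternion -/
def cp (i : Fin 4) (x : ℍ) : ℝ := ![x.re, x.imI, x.imJ, x.imK] i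

/-- the standard basis -/
def bs (i : Fin 4) : ℍ := ![1, ⟨0, 1, 0, 0⟩, ⟨0, 0, 1, 0⟩, ⟨0, 0, 0, 1⟩] i

theorem sum_cp (x y : ℍ) : ∑ i, cp i x * cp i y = inner ℝ x y := by
  simp [Fin.sum_univ_four, cp, Quaternion.inner_def]

theorem cp_mul (i : Fin 4) (a x b : ℍ) : cp i (a * x * b) = ∑ j, cp i (a * bs j * b) * cp j x := by
  fin_cases i <;> simp [Fin.sum_univ_four, cp, bs] <;> ring

theorem sum_cp_bs (a b a' b' : ℍ) : ∑ p : Fin 4 × Fin 4, cp p.1 (a * bs p.2 * star b) *
    cp p.1 (a' * bs p.2 * star b') = 2 * (a * star a').re * (2 * (b * star b').re) := by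
  simp [Fintype.sum_prod_type, Fin.sum_univ_four, cp, bs]
  ring

theorem inner_conj (a b x y : ℍ) : inner ℝ (a * x * star b) y = inner ℝ x (star a * y * b) := by
  simp [Quaternion.inner_def]
  ring

variable {d : ℕ} {G : Type} [MeasurableSpace G] [Group G] [MeasurableMul₂ G] [MeasurableInv G]
  {μ : Measure G} [IsProbabilityMeasure μ] [μ.IsInvInvariant] [μ.IsMulRightInvariant]
  {u : (Lk d → G) → ℝ}

/-- all components are bounded and measurable -/
def BQ {X : Type} [MeasurableSpace X] (f : X → ℍ) : Prop := ∀ i, BM fun x => cp i (f x)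

theorem BQ.comp {X Y : Type} [MeasurableSpace X] [MeasurableSpace Y] {f : X → ℍ} (hf : BQ f)
    {φ : Y → X} (hφ : Measurable φ) : BQ fun y => f (φ y) := fun i => (hf i).comp hφ

theorem BQ.const {X : Type} [MeasurableSpace X] (c : ℍ) : BQ fun _ : X => c := fun _ => BM.const _

theorem BQ.star {X : Type} [MeasurableSpace X] {f : X → ℍ} (hf : BQ f) : BQ fun x => star (f x) :=
  fun i => by
    fin_cases i
    · simpa [cp] using hf 0
    · simpa [cp] using (hf 1).neg
    · simpa [cp] using (hf 2).neg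
    · simpa [cp] using (hf 3).neg

theorem BQ.mul {X : Type} [MeasurableSpace X] {f g : X → ℍ} (hf : BQ f) (hg : BQ g) :
    BQ fun x => f x * g x := fun i => by
  have h := fun a b => (hf a).mul (hg b)
  fin_cases i
  · simpa [cp] using (((h 0 0).sub (h 1 1)).sub (h 2 2)).sub (h 3 3)
  · simpa [cp] using (((h 0 1).add (h 1 0)).add (h 2 3)).sub (h 3 2)
  · simpa [cp] using (((h 0 2).sub (h 1 3)).add (h 2 0)).add (h 3 1)
  · simpa [cp] using (((h 0 3).add (h 1 2)).sub (h 2 1)).add (h 3 0)

theorem BQ.inner {X : Type} [MeasurableSpace X] {f g : X → ℍ} (hf : BQ f) (hg : BQ g) :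
    BM fun x => inner ℝ (f x) (g x) := by
  simp only [← sum_cp]
  exact BM.sum fun i _ => (hf i).mul (hg i)

/-- transport along a straight line -/
def ln (W : Lk d → G) (x : St d) (a : Fin d) : ℕ → G
  | 0 => 1
  | k + 1 => ln W x a k * W (x + Pi.single a (k : ℤ), a)

theorem measurable_ln (x : St d) (a : Fin d) (k : ℕ) : Measurable fun W : Lk d → G => ln W x a k := by
  induction k with
  | zero => exact measurable_const
  | succ k ih => exact ih.mul (measurable_pi_apply _)

theorem ln_add (W : Lk d → G) (x : St d) (a : Fin d) (m k : ℕ) :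
    ln W x a (m + k) = ln W x a m * ln W (x + Pi.single a (m : ℤ)) a k := by
  induction k with
  | zero => simp [ln]
  | succ k ih => rw [← add_assoc, ln, ln, ih, mul_assoc, Nat.cast_add, Pi.single_add, add_assoc]

theorem ln_one (W : Lk d → G) (x : St d) (a : Fin d) : ln W x a 1 = W (x, a) := by simp [ln]

theorem ln_act (T : Fin d → Bool) (v : St d) (W : Lk d → G) (x : St d) (a : Fin d) (k : ℕ) :
    ln (act T v W) x a k =
      sg (T a) (ln W (sm T v x - if T a then Pi.single a (k : ℤ) else 0) a k) := by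
  induction k with
  | zero => cases T a <;> simp [ln]
  | succ k ih =>
    rw [ln, ih]
    cases h : T a
    · simp only [ln, act, pat, h, sg_false, Bool.false_eq_true, if_false, sub_zero]
      congr 2
      refine Prod.ext (funext fun i => ?_) rfl
      by_cases hi : i = a
      · simp [mv, sm, hi, h]; ring
      · simp [mv, sm, hi, dl]
    · simp only [add_comm k 1, ln_add, ln_one, act, pat, h, sg_true, if_true, mul_inv_rev]
      congr 3
      · simp only [Nat.cast_add, Pi.single_add]
        abel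
      · refine Prod.ext (funext fun i => ?_) rfl
        by_cases hi : i = a
        · simp [mv, sm, hi, h, dl]; ring
        · simp [mv, sm, hi, dl]

theorem ln_T0 (v : St d) (W : Lk d → G) (x : St d) (a : Fin d) (k : ℕ) :
    ln (act T0 v W) x a k = ln W (x + v) a k := by simp [ln_act, sm_T0]

theorem ln_dep {D : Set (Lk d)} {x : St d} {a : Fin d} {k : ℕ}
    (h : ∀ s : ℕ, s < k → (x + Pi.single a (s : ℤ), a) ∈ D) :
    DependsOn (fun W : Lk d → G => ln W x a k) D := fun W W' hW => by
  induction k with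
  | zero => rfl
  | succ k ih => simp only [ln, ih fun s hs => h s (by omega), hW _ (h k (by omega))]

theorem Pot.tile_two (hu : Pot u) {n : St d} {a : Fin d} {h h' : ℤ}
    (h0 : 0 < h) (h0' : 0 < h') (e : n a = h + h') (w : Lk d → G) : BW u n (pc n w) =
      BW u (update n a h) (pc n w) * BW u (update n a h') (RGP.act (T1 a) 0 (pc n w)) := by
  simp only [BW, ← Real.exp_add, hu.act (T1 a)]
  rw [← Finset.sum_filter_add_sum_filter_not (box n) fun x => x a < h]
  congr 2
  · refine Finset.sum_congr (Finset.ext fun x => ?_) fun _ _ => rfl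
    simp only [Finset.mem_filter, mem_box]
    refine ⟨fun H i => ?_, fun H => ⟨fun i => ?_, by simpa using (H a).2⟩⟩
    · have := H.1 i
      by_cases hi : i = a <;> simp_all
    · have := H i
      by_cases hi : i = a <;> simp_all
      omega
  · refine Finset.sum_nbij' (fun x => update x a (n a - 1 - x a)) (fun x => update x a
      (n a - 1 - x a)) (fun x hx => ?_) (fun x hx => ?_) (fun x _ => by simp) (fun x _ => by simp)
      fun x _ => ?_
    · simp only [Finset.mem_filter, mem_box] at hx ⊢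
      intro i
      have := hx.1 i
      by_cases hi : i = a <;> simp_all
      omega
    · simp only [Finset.mem_filter, mem_box] at hx ⊢
      have := hx a
      simp only [update_self] at this
      refine ⟨fun i => ?_, by simp only [update_self]; omega⟩
      by_cases hi : i = a
      · simp only [hi, update_self]
        omega
      · simpa [hi] using hx i
    · rw [act_pc_congr fun i => ?_]
      by_cases hi : i = a
      · exact ⟨-1, by simp [T1, hi]; ring⟩
      · simp [T1, hi]

theorem Pot.slab (hu : Pot u) (n : St d) {a : Fin d} {h h' : ℤ}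
    (h0 : 0 < h) (h0' : 0 < h') (F F' : (Lk d → G) → ℝ) :
    (ZZ μ u (update n a (h + h')) fun W => F W * F' (RGP.act (T1 a) 0 W)) =
      TI μ (update n a (h + h')) fun W => BW u (update n a h) W * F W *
        (BW u (update n a h') (RGP.act (T1 a) 0 W) * F' (RGP.act (T1 a) 0 W)) := by
  refine TI_congr μ _ fun w => ?_
  rw [hu.tile_two h0 h0' (update_self _ _ _), update_idem, update_idem]
  ring

theorem Pot.dep_slab (hu : Pot u) (n : St d) {a : Fin d} {h : ℤ} {F : (Lk d → G) → ℝ}
    (hF : DependsOn F (RGP.slab a h)) :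
    DependsOn (fun W => BW u (update n a h) W * F W) (RGP.slab a h) :=
  DependsOn.mul' ((hu.bw_dep _).mono fun e he => by simpa using he a) hF

theorem Pot.two (hu : Pot u) (n : St d) {a : Fin d} {h h' : ℤ}
    (h0 : 0 < h) (h0' : 0 < h') {ι : Type} (s : Finset ι) {F F' : ι → (Lk d → G) → ℝ}
    (bF : ∀ i, BM (F i)) (bF' : ∀ i, BM (F' i)) (hD : ∀ i, DependsOn (F i) (RGP.slab a h))
    (hD' : ∀ i, DependsOn (F' i) (RGP.slab a h')) :
    (ZZ μ u (update n a (h + h')) fun W => ∑ i ∈ s, F i W * F' i (RGP.act (T1 a) 0 W)) ^ 2 ≤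
      (ZZ μ u (update n a (h + h)) fun W => ∑ i ∈ s, F i W * F i (RGP.act (T1 a) 0 W)) *
        ZZ μ u (update n a (h' + h')) fun W => ∑ i ∈ s, F' i W * F' i (RGP.act (T1 a) 0 W) := by
  have m := measurable_act (G := G) (T1 a) 0
  rw [hu.zz_sum _ _ fun i => (bF i).mul ((bF' i).comp m),
    hu.zz_sum _ _ fun i => (bF i).mul ((bF i).comp m),
    hu.zz_sum _ _ fun i => (bF' i).mul ((bF' i).comp m)]
  simp only [hu.slab n h0 h0', hu.slab n h0 h0, hu.slab n h0' h0']
  simpa only [update_idem, two_mul] using two_slab μ h0 h0' (update_self a (h + h') n) s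
    (fun i => (hu.bw _).mul (bF i)) (fun i => (hu.bw _).mul (bF' i))
    (fun i => hu.dep_slab n (hD i)) fun i => hu.dep_slab n (hD' i)

theorem Pot.rp (hu : Pot u) (n : St d) {a : Fin d} {h : ℤ} (h0 : 0 < h)
    {ι : Type} (s : Finset ι) {F : ι → (Lk d → G) → ℝ} (bF : ∀ i, BM (F i))
    (hD : ∀ i, DependsOn (F i) (RGP.slab a h)) :
    0 ≤ ZZ μ u (update n a (h + h)) fun W => ∑ i ∈ s, F i W * F i (RGP.act (T1 a) 0 W) := by
  rw [hu.zz_sum _ _ fun i => (bF i).mul ((bF i).comp (measurable_act _ _))]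
  refine Finset.sum_nonneg fun i _ => ?_
  have := sq_KK μ (n := update n a (h + h)) h0 (by simpa using h0) ((hu.bw _).mul (bF i))
    (hu.dep_slab n (hD i)) T0 0
  rw [hu.slab n h0 h0, ← two_mul, ← update_idem (a := a) (h + h), ← this]
  exact integral_nonneg fun _ => mul_self_nonneg _

end Pool.Agent.Lib.MP_7f377f_mp.RGP
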