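import Pool.Agent.Lib.MP_7f377f_mp.PStokes

/-! The trial state built from towers and the lower bound on Polyakov loop correlations. -/

namespace Pool.Agent.Lib.MP_7f377f_mp.RGP

open MeasureTheory Measure Function
open scoped Quaternion

set_option linter.unusedSectionVars false

variable {d : ℕ} {G : Type} [MeasurableSpace G] [Group G] [MeasurableMul₂ G] [MeasurableInv G]
  {μ : Measure G} [IsProbabilityMeasure μ] [μ.IsInvInvariant] [μ.IsMulRightInvariant]
  {q : G →* ℍ} {u : (Lk d → G) → ℝ}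

namespace Model

variable (M : Model d μ) {D D' : Finset (ℕ × Lk d)}

theorem int_cf {g : Hist d G → ℝ} (hg : BM g) (W : Lk d → G) :
    Integrable (fun w => g (join W w) * M.dens D (join W w)) (PP μ (ℕ × Lk d)) :=
  ((hg.mul (M.bm_dens D)).comp (measurable_join' W)).integrable _

theorem cf_lin {g : Fin 4 → Hist d G → ℝ} (hg : ∀ i, BM (g i)) (c : Fin 4 → ℝ) (W : Lk d → G) :
    ∑ i, c i * M.cf D (g i) W =
      ∫ w, (∑ i, c i * g i (join W w)) * M.dens D (join W w) ∂PP μ (ℕ × Lk d) := by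
  simp only [cf, ← integral_const_mul, Finset.sum_mul, mul_assoc]
  exact (integral_finsetSum _ fun i _ => (M.int_cf (hg i) W).const_mul _).symm

theorem cf_congr (h : D.filter (·.1 ≠ 0) = D'.filter (·.1 ≠ 0)) (g : Hist d G → ℝ) :
    M.cf D g = M.cf D' g := funext fun W => by simp only [cf, dens_filter, h]

/-- conditional expectation of a group valued observable -/
noncomputable def cq (q : G →* ℍ) (D : Finset (ℕ × Lk d)) (g : Hist d G → G) (W : Lk d → G) : ℍ :=
  ⟨M.cf D (fun w => cp 0 (q (g w))) W, M.cf D (fun w => cp 1 (q (g w))) W,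
    M.cf D (fun w => cp 2 (q (g w))) W, M.cf D (fun w => cp 3 (q (g w))) W⟩

variable {g : Hist d G → G}

theorem cp_cq (i : Fin 4) (W : Lk d → G) :
    cp i (M.cq q D g W) = M.cf D (fun w => cp i (q (g w))) W := by
  fin_cases i <;> rfl

theorem bq_cq (hq : Rep q) (hg : Measurable g) : BQ (M.cq q D g) := fun i => by
  simp only [cp_cq]
  exact M.bm_cf (hq.bq.comp hg i)

theorem norm_cq (hq : Rep q) (hg : Measurable g) (W : Lk d → G) : ‖M.cq q D g W‖ ≤ 1 := by
  have h1 := M.cf_lin (D := D) (hq.bq.comp hg) (fun i => cp i (M.cq q D g W)) W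
  simp only [← cp_cq, sum_cp, real_inner_self_eq_norm_mul_norm] at h1
  have h2 : _ ≤ ∫ w, ‖M.cq q D g W‖ * (1 * M.dens D (join W w)) ∂PP μ (ℕ × Lk d) :=
    h1.trans_le (integral_mono (M.int_cf ((BQ.const _).inner (hq.bq.comp hg)) W)
      ((M.int_cf (BM.const 1) W).const_mul _) fun w => by
        have := real_inner_le_norm (M.cq q D g W) (q (g (join W w)))
        rw [hq.norm] at this
        simpa only [← mul_assoc] using mul_le_mul_of_nonneg_right this (M.dens_nonneg _ _))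
  rw [integral_const_mul, show ∫ w, 1 * M.dens D (join W w) ∂PP μ (ℕ × Lk d) = 1 from
    M.cf_one D W] at h2
  by_contra h
  nlinarith

theorem cq_mul (hq : Rep q) (hg : Measurable g) (e e' : Lk d) (W : Lk d → G) (i : Fin 4) :
    cp i (q (W e) * M.cq q D g W * star (q (W e'))) =
      M.cf D (fun w => cp i (q (w (0, e) * g w * (w (0, e'))⁻¹))) W := by
  rw [cp_mul]
  simp only [cp_cq]
  rw [M.cf_lin (hq.bq.comp hg)]
  simp only [cf, join_zero, map_mul, hq.inv, ← cp_mul]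

theorem cq_dep (hD : M.Closed D) (hg : DependsOn g D) :
    DependsOn (M.cq q D g) {e | (0, e) ∈ D} := fun W W' h => by
  have := fun i => M.cf_dep hD (g := fun w => cp i (q (g w))) (fun _ _ H => by
    simp only [hg H]) h
  simp only [cq, this]

theorem JZ_mul (k : ℕ) (N : St d) (c : ℝ) (g : Hist d G → ℝ) :
    M.JZ u k N (fun w => c * g w) = c * M.JZ u k N g := by
  simp only [JZ, mul_assoc, mul_left_comm _ c, integral_const_mul]

namespace Bad

variable {M} (B : M.Bad)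

/-- outside the bad events the fields are close to what they should be -/
structure Tow (q : G →* ℍ) (ε η : ℕ → ℝ) : Prop where
  nonneg : ∀ j, 0 ≤ ε j
  plaq : ∀ j w, w ∉ B.bad j → ∀ a b, Cl q (ε j) (hol (lvl w j) 0 a b) 1
  link : ∀ j w, w ∉ B.bad (j + 1) → (∀ x : St d, (∀ i, |x i| ≤ 2 * M.L j) → ∀ a b,
    Cl q (ε j) (hol (lvl w j) x a b) 1) → ∀ a,
      Cl q (η j) (w (j + 1, 0, a)) (ln (lvl w j) 0 a (M.L j).toNat)

variable {B} {ε η : ℕ → ℝ} {a b : Fin d} {k : ℕ} {x y : ℤ}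

theorem Tow.close (h : B.Tow q ε η) (hq : Rep q) (hab : a ≠ b) (hx : 0 ≤ x) (hx' : x < M.rat 0 k)
    {w : Hist d G} (hw : w ∉ B.Nr (k + 1) (3 * M.rat 0 k) 0) :
    Cl q (∑ j ∈ Finset.range k, ((M.L j : ℝ) ^ 2 * ε j + η j))
      (w (0, pt a b 0 x, a) * M.tw a b x w k) (M.wl a b x w k * w (k, 0, a)) := by
  have a0 : ∀ j ≤ k, ∀ z : St d, (∀ i, |M.rat 0 j * z i| ≤ 3 * M.rat 0 k) →
      actH T0 (M.sc j z) w ∉ B.bad j := fun j hj z hz H =>
    hw ⟨j, by omega, M.rat 0 j • z, fun i => dvd_mul_right _ _, by simpa using hz, by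
      simpa only [bat, Set.mem_ofPred_eq, Pi.smul_apply, smul_eq_mul,
        Int.mul_ediv_cancel_left _ (M.rat_pos 0 j).ne'] using H⟩
  have a1 : ∀ j ≤ k, ∀ z : St d, (∀ i, |M.rat 0 j * z i| ≤ 3 * M.rat 0 k) → ∀ a b,
      Cl q (ε j) (hol (lvl w j) z a b) 1 := fun j hj z hz a b => by
    simpa [lvl_actH, hol_T0, sc, M.rat_self] using h.plaq j _ (a0 j hj z hz) a b
  have a2 : ∀ j ≤ k, ∀ t z i, 0 ≤ t → 0 ≤ z → M.rat 0 j * t ≤ M.rat 0 k → z ≤ x / M.rat 0 j →
      |M.rat 0 j * pt a b t z i| ≤ M.rat 0 k := fun j hj t z i b1 b2 b3 b4 => by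
    have b5 := M.rat_pos 0 j
    have b6 := Int.ediv_mul_le x b5.ne'
    rw [abs_of_nonneg (mul_nonneg b5.le (by simp only [pt, Pi.add_apply, Pi.single_apply]; omega))]
    by_cases hi : i = a
    · simpa [pt, hi, hab] using b3
    by_cases hi' : i = b
    · simp only [pt, hi', Pi.add_apply, Pi.single_eq_same, Pi.single_eq_of_ne hab.symm]
      nlinarith
    · simp [pt, hi, hi', (M.rat_pos 0 k).le]
  have a3 : ∀ j < k, M.rat 0 j * M.L j = M.rat 0 (j + 1) ∧ M.rat 0 (j + 1) ≤ M.rat 0 k :=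
    fun j hj => ⟨by rw [← M.rat_succ, M.rat_mul (Nat.zero_le j) (Nat.le_succ j)], rat_le hj⟩
  have := tw_close hab hq h.nonneg hx (k := k) (w := w) (η := η) (fun j hj t z b1 b2 b3 b4 =>
    a1 j hj.le _ (fun i => (a2 j hj.le t z i b1 b3 (by nlinarith [a3 j hj, M.rat_pos 0 j]) b4).trans
      (by linarith [M.rat_pos 0 k])) a b) fun j hj => by
    have b0 := fun i => a2 (j + 1) hj 0 _ i le_rfl (Int.ediv_nonneg hx (M.rat_pos 0 (j + 1)).le)
      (by linarith [M.rat_pos 0 k]) le_rfl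
    have := h.link j _ (a0 (j + 1) hj (pt a b 0 (x / M.rat 0 (j + 1))) fun i => (b0 i).trans
      (by linarith [M.rat_pos 0 k])) (fun z hz a' b' => by
        rw [lvl_actH, hol_T0]
        refine a1 j hj.le _ (fun i => ?_) a' b'
        have c1 := mul_le_mul_of_nonneg_left (hz i) (M.rat_pos 0 j).le
        have c2 := b0 i
        simp only [sc, Pi.add_apply, Pi.smul_apply, smul_eq_mul, M.rat_succ, mul_add, ← mul_assoc,
          (a3 j hj).1]
        refine (abs_add_le _ _).trans ?_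
        rw [abs_mul, abs_of_pos (M.rat_pos 0 j)]
        nlinarith [a3 j hj]) a
    rw [lvl_actH, ln_T0] at this
    convert this using 2
    · simp [actH, pat, mvH, mv, sc, M.rat_self]
    · simp [sc, M.rat_succ, pt, ← Pi.single_smul]
  simpa only [Int.ediv_eq_zero_of_lt hx hx', pt, Pi.single_zero, add_zero] using this

theorem Tow.trial (h : B.Tow q ε η) (hu : Pot u) (hq : Rep q) (hab : a ≠ b) (hx : 0 ≤ x)
    (hx' : x < M.rat 0 k) (hy : 0 ≤ y) (hy' : y < M.rat 0 k) {N n : St d} {H : ℕ}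
    (hN : ∀ i, 0 < N i) (hn : M.sc k N 0 = update n a (2 * H + 2 : ℕ))
    (hn' : ∀ i, 4 * M.rat 0 k ≤ n i) (hH : 4 * M.rat 0 k ≤ H) :
    ∃ Φ, BQ Φ ∧ DependsOn Φ (slab a H) ∧ (∀ W, ‖Φ W‖ ≤ 1) ∧
      (1 - 8 * (∑ j ∈ Finset.range k, ((M.L j : ℝ) ^ 2 * ε j + η j)) ^ 2) *
        (ZZ μ u (update n a (2 * H + 2 : ℕ)) fun _ => 1) -
          2 * M.JZ u k N (ind (B.Nr (k + 1) (3 * M.rat 0 k) 0)) ≤
        AA μ u q a (pt a b 0 x) (pt a b 0 y) Φ n H 1 1 := by
  have h0 := M.rat_pos 0 k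
  set g : Hist d G → G := fun w => M.tw a b x w k * (M.tw a b y w k)⁻¹ with hg
  have mg : Measurable g := (M.measurable_tw a b x k).mul (M.measurable_tw a b y k).inv
  set P : St d := Pi.single a (2 * M.rat 0 k) with hP
  set D := M.DF k (Pi.single a 1 - update (cv (2 * M.rat 0 k)) a 0) (P + cv (2 * M.rat 0 k)) with hD
  have dg : DependsOn g D := fun w w' H => by
    have H' : ∀ p ∈ M.DQ k (Pi.single a 1 - update (cv (2 * M.rat 0 k)) a 0) (cv (2 * M.rat 0 k)),
        w p = w' p := fun p hp => H p (M.mem_DF.mpr (M.DQ_mono le_rfl (fun i => ⟨le_rfl, by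
          simp only [hP, Pi.add_apply, Pi.single_apply]; omega⟩) hp))
    have h1 := tw_dep hab le_rfl hx hx'.le H'
    have h2 := tw_dep hab le_rfl hy hy'.le H'
    simp only at h1 h2
    simp only [hg, h1, h2]
  refine ⟨fun W => M.cq q D g (act T0 (Pi.single a (-1)) W),
    (M.bq_cq hq mg).comp (measurable_act _ _), dep_act (M.cq_dep (M.closed_DF _ _ _) dg)
      fun e he => ?_, fun W => M.norm_cq hq mg _, ?_⟩
  · have := (M.mem_DF.mp he).2 a
    simp only [M.rat_self, hP, Pi.sub_apply, Pi.add_apply, Pi.single_eq_same, update_self,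
      cv] at this
    simp only [slab, mv, Set.mem_ofPred_eq, Bool.false_eq_true, if_false, Pi.single_eq_same]
    omega
  set c : Hist d G → G := fun w => w (0, pt a b 0 x, a) * g w * (w (0, pt a b 0 y, a))⁻¹ with hc
  have mc : Measurable c := ((measurable_pi_apply _).mul mg).mul (measurable_pi_apply _).inv
  have bc := hq.bq.comp mc
  set ρ := 2 * M.rat 0 k with hρ
  have hsub : (D : Set (ℕ × Lk d)) ⊆ M.DF k (P - cv ρ) (P + cv ρ) := fun p hp =>
    M.mem_DF.mpr (M.DQ_mono le_rfl (fun i => ⟨by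
      by_cases hi : i = a <;> simp [hP, hi, cv, hρ], le_rfl⟩) (M.mem_DF.mp hp))
  have hl : ∀ z, 0 ≤ z → z < M.rat 0 k → (0, pt a b 0 z, a) ∈ M.DF k (P - cv ρ) (P + cv ρ) :=
    fun z h1 h2 => M.mem_DF.mpr ⟨Nat.zero_le _, fun i => by
      simp only [M.rat_self, hP, pt, Pi.sub_apply, Pi.add_apply, Pi.single_apply, cv, dl]
      split_ifs <;> omega⟩
  have dc : ∀ i, DependsOn (fun w => cp i (q (c w))) (M.DF k (P - cv ρ) (P + cv ρ)) :=
    fun i w w' H => by
      simp only [hc, dg fun p hp => H p (hsub hp), H _ (hl x hx hx'), H _ (hl y hy hy')]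
  have e1 : ∀ i W, cp i (Fm q a (pt a b 0 x) (pt a b 0 y)
      (fun W => M.cq q D g (act T0 (Pi.single a (-1)) W)) 1 W) =
        M.cf (M.DF k (P - cv ρ) (P + cv ρ)) (fun w => cp i (q (c w))) W := fun i W => by
    rw [Fm, ln_one, ln_one, act_T0, Nat.cast_one, ← Pi.single_add, neg_add_cancel, Pi.single_zero,
      act_zero, M.cq_mul hq mg, M.cf_congr (D' := M.DF k (P - cv ρ) (P + cv ρ))]
    ext p
    simp only [Finset.mem_filter]
    refine and_congr_left fun hp => ⟨fun H => hsub H, fun H => ?_⟩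
    rw [mem_DF] at H
    refine M.mem_DF.mpr ⟨H.1, fun i => ⟨?_, (H.2 i).2⟩⟩
    have h1 := (H.2 i).1
    have h2 := M.rat_ge hp
    by_cases hi : i = a
    · simp only [hi, hP, Pi.sub_apply, Pi.single_eq_same, update_self, cv] at h1 ⊢
      by_contra h3
      have : p.2.1 a ≤ 0 := by by_contra h4; nlinarith
      nlinarith
    · simpa [hi, hP] using h1
  have e0 : M.sc k 0 0 = 0 := by simp [sc]
  have hmv := fun p => M.DQ_mvH (le_refl k) (T1 a) 0 P ρ p
  have e2 : ∀ i W, M.cf (M.DF k (P - cv ρ) (P + cv ρ)) (fun w => cp i (q (c w))) (act (T1 a) 0 W) =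
      M.cf (M.DF k (sm (T1 a) (M.sc k 0 0) P - cv ρ) (sm (T1 a) (M.sc k 0 0) P + cv ρ))
        (fun w => cp i (q (c (actH (T1 a) (M.sc k 0) w)))) W := fun i W => by
    rw [← M.cf_act (bc i) (fun p hp => (M.mem_DF.mp hp).1) (T1 a) 0 fun p => by
      rw [mem_DF, hmv, ← mem_DF], e0]
  have mθ := measurable_actH (G := G) (T1 a) (M.sc k 0)
  have e3 : ∀ i, _ := fun i => M.factor_cells hu k hN (h := update n a (H + 1)) (m := update 1 a 2)
    (v := update (cv (-ρ)) a 0) (upd_pos (fun i => by have := hn' i; omega) a (by omega))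
    (hn.trans (funext fun i => by by_cases hi : i = a <;> simp [hi]; ring))
    (Finset.univ : Finset Bool) (j := fun _ => k)
    (α := fun s => (bif s then sm (T1 a) (M.sc k 0 0) P else P) - cv ρ)
    (β := fun s => (bif s then sm (T1 a) (M.sc k 0 0) P else P) + cv ρ)
    (c := fun s => bif s then Pi.single a 1 else 0) (q := fun s => bif s then -Pi.single a 1 else 0)
    (fun _ => le_rfl) (fun s _ => mem_box.mpr fun l => by
      cases s <;> by_cases hl : l = a <;> simp [hl])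
    (fun s _ s' _ e => by
      have := congrFun e a
      cases s <;> cases s' <;> simp at this ⊢)
    (fun s _ l => by
      have := hn' l
      cases s <;> by_cases hl : l = a <;> simp [hl, e0, sm, T1, hP, cv] <;> omega)
    (g := fun s w => cp i (q (c (bif s then actH (T1 a) (M.sc k 0) w else w))))
    (fun s => by cases s; exacts [bc i, (bc i).comp mθ]) fun s => by
      cases s
      · exact dc i
      · refine (dep_pat (dc i) (mvH (T1 a) (M.sc k 0)) fun p => T1 a p.2.2).mono ?_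
        rintro _ ⟨p, hp, rfl⟩
        exact M.mem_DF.mpr ((hmv p).mp (M.mem_DF.mp hp))
  simp only [Fintype.prod_bool, cond_true, cond_false, hn] at e3
  have bN := bm_ind ((B.loc_Nr (le_refl (k + 1)) (3 * M.rat 0 k)).meas 0)
  rw [AA, show ((H + 1 : ℕ) + (H + 1 : ℕ) : ℤ) = (2 * H + 2 : ℕ) by omega]
  simp only [← sum_cp, e1, e2]
  rw [hu.zz_sum _ _ fun i => (M.bm_cf (bc i)).mul (M.bm_cf ((bc i).comp mθ))]
  simp only [mul_comm (M.cf (M.DF k (P - cv ρ) _) _ _), ← e3]
  rw [← M.JZ_sum hu k N _ fun i => ((bc i).comp mθ).mul (bc i), ← hn, ← M.JZ_one hu k hN,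
    ← M.JZ_mul, sub_eq_add_neg, ← neg_mul, ← M.JZ_mul,
    ← M.JZ_add hu k N (BM.const _) ((BM.const _).mul bN)]
  refine M.JZ_mono hu k N ((BM.const _).add ((BM.const _).mul bN))
    (BM.sum fun i _ => ((bc i).comp mθ).mul (bc i)) fun w => ?_
  generalize pcH (M.sc k N) w = w
  rw [sum_cp]
  by_cases hw : w ∈ B.Nr (k + 1) (3 * M.rat 0 k) 0
  · have := abs_real_inner_le_norm (q (c (actH (T1 a) (M.sc k 0) w))) (q (c w))
    rw [hq.norm, hq.norm, abs_le] at this
    rw [ind_of_mem hw]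
    nlinarith [sq_nonneg (∑ j ∈ Finset.range k, ((M.L j : ℝ) ^ 2 * ε j + η j)), this.1]
  have key : ∀ w ∉ B.Nr (k + 1) (3 * M.rat 0 k) 0, Cl q _ (c w)
      (M.wl a b x w k * (M.wl a b y w k)⁻¹) := fun w hw => by
    simpa only [hc, hg, mul_inv_rev, mul_assoc, mul_inv_cancel_left] using
      (h.close hq hab hx hx' hw).mul hq ((h.close hq hab hy hy' hw).inv hq)
  have k1 := key _ fun H => hw (by
    have := ((B.loc_Nr (le_refl (k + 1)) _).cov k le_rfl 0 (Dv_zero k) (T1 a) 0 w).mp H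
    rwa [e0, show sm (T1 a) 0 0 = 0 from funext fun i => by simp [sm]] at this)
  rw [M.wl_th x hab fun j => by simp [sc], M.wl_th y hab fun j => by simp [sc]] at k1
  have := (k1.trans (key w hw).symm).inner hq
  rw [ind_of_not hw]
  nlinarith

/-- lower bound on the correlation of two Polyakov loops, given that bad events are rare -/
theorem Tow.poly (h : B.Tow q ε η) (hu : Pot u) (hq : Rep q) (hab : a ≠ b) {m : ℤ}
    {e γ τ δ t κ : ℝ} (hm : 2 ≤ m) (hI : B.Inp u k m e γ τ) (hδ2 : δ ≤ 2⁻¹)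
    (hδ : M.JZ u k (cv (18 * m)) (ind (B.Bd (k + 1))) ≤
      δ * ZZ μ u (cv (M.rat 0 k * (18 * m))) fun _ => 1) (ht : 0 < t)
    (hδ' : t * Real.exp (t * 2 ^ d) * 2 ^ d * δ ≤ 1) (hκ : 0 < κ)
    (hκ' : κ ≤ 1 - 8 * (∑ j ∈ Finset.range k, ((M.L j : ℝ) ^ 2 * ε j + η j)) ^ 2 -
      2 * ((2 + 2 * γ * (18 * m) ^ d) / t)) {n : St d} (hn : ∀ i, 0 < n i)
    (hd : ∀ i, 18 * m * M.rat 0 k ∣ n i) (hx : 0 ≤ x) (hx' : x < M.rat 0 k) {T : ℕ} (hT : 0 < T) :
    κ ^ (2 * T) * ((ZZ μ u (update n a 4) fun _ => 1) / (ZZ μ u (update n a 2) fun _ => 1) ^ 2) *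
        (ZZ μ u (update n a (4 * T : ℕ)) fun _ => 1) ≤ ZZ μ u (update n a (4 * T : ℕ)) fun W =>
          pl q (Pi.single b x) a (4 * T) W * pl q 0 a (4 * T) W := by
  have h0 := M.rat_pos 0 k
  choose c hc using hd
  have c0 : ∀ i, 0 < c i := fun i => pos_of_mul_pos_right (hc i ▸ hn i) (by positivity)
  obtain rfl : n = 2 * (9 * m * M.rat 0 k) • c := funext fun i => by
    simp only [hc, Pi.mul_apply, Pi.ofNat_apply, Pi.smul_apply, smul_eq_mul]
    ring
  obtain ⟨H, hH⟩ := Int.eq_ofNat_of_zero_le (show 0 ≤ 9 * m * M.rat 0 k * (T + 1) - 1 by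
    have : 0 < 9 * m * M.rat 0 k * (T + 1) := by positivity
    omega)
  have c1 := upd_pos c0 a (show (0 : ℤ) < T + 1 by omega)
  have e1 : M.sc k ((18 * m) • update c a (T + 1)) 0 =
      update (2 * (9 * m * M.rat 0 k) • c) a (2 * H + 2 : ℕ) := funext fun i => by
    by_cases hi : i = a
    · simp only [sc, hi, Pi.smul_apply, update_self, smul_eq_mul]
      push_cast
      linarith
    · simp only [sc, Pi.smul_apply, update_of_ne hi, smul_eq_mul, Pi.mul_apply, Pi.ofNat_apply]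
      ring
  have a1 : 2 * M.rat 0 k ≤ m * M.rat 0 k := by nlinarith
  obtain ⟨Φ, b1, b2, b3, b4⟩ := h.trial hu hq hab hx hx' le_rfl h0 (N := (18 * m) • update c a (T + 1))
    (fun i => mul_pos (by omega) (c1 i)) e1 (fun i => by
      simp only [Pi.mul_apply, Pi.ofNat_apply, Pi.smul_apply, smul_eq_mul]
      nlinarith [c0 i]) (by nlinarith)
  have b5 := B.near_le hu hI (r := 3 * M.rat 0 k) (by omega) (by linarith) hδ2 hδ ht.le hδ' c1
  rw [e1, ← le_div_iff₀' ht, mul_div_right_comm] at b5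
  simpa only [pt, Pi.single_zero, zero_add] using poly_time hu hq (by simp [pt, hab])
    (by simp [pt]) b1 b2 (n := (9 * m * M.rat 0 k) • c) (fun i => mul_pos (by positivity) (c0 i)) b3 hκ
    (le_trans (by nlinarith [hu.zz_pos μ (update (2 * (9 * m * M.rat 0 k) • c) a (2 * H + 2 : ℕ))])
      b4) hT (by nlinarith)

end Bad

end Model

end Pool.Agent.Lib.MP_7f377f_mp.RGP
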