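import Pool.Agent.Lib.MP_7f377f_mp.PurA

/-! Averages of far translates and their iterated limits. -/

noncomputable section

namespace Pool.Agent.Lib.MP_7f377f_mp.Pur

open Filter Topology Set ComplexConjugate YM7

set_option linter.unusedSectionVars false

theorem neg_rf_ax (μ : Fin 4) (t : ℝ) : -rf μ (ax μ t) = ax μ t := by
  ext l
  by_cases h : l = μ <;> simp [h]

theorem psd_lim {α : Type} [AddCommGroup α] {F : α → α → ℝ} (A : AddSubgroup α) {G : Filter α}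
    [G.NeBot] {C δ : ℝ} (h1 : ∀ x y z, F (x + y) z = F x z + F y z)
    (h2 : ∀ x y z, F x (y + z) = F x y + F x z) (h3 : ∀ x ∈ A, 0 ≤ F x x)
    (h4 : ∀ᶠ x in G, x ∈ A ∧ F x x ≤ C) (hδ : 0 < δ) :
    ¬∀ᶠ x in G, ∀ᶠ y in G, F x y + F y x ≤ -δ := fun h5 => by
  have h0 : ∀ y, F 0 y = 0 := fun y => by simpa using h1 0 0 y
  have h0' : ∀ y, F y 0 = 0 := fun y => by simpa using h2 y 0 0
  have key : ∀ n : ℕ, ∃ x ∈ A, F x x ≤ n * C - n * (n - 1) / 2 * δ ∧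
      ∀ᶠ y in G, F x y + F y x ≤ -(n * δ) := fun n => by
    induction n with
    | zero => exact ⟨0, A.zero_mem, by simp [h0], by simp [h0, h0']⟩
    | succ n ih =>
      obtain ⟨x, e1, e2, e3⟩ := ih
      obtain ⟨y, ⟨e4, e5⟩, e6, e7⟩ := (h4.and (e3.and h5)).exists
      refine ⟨x + y, A.add_mem e1 e4, ?_, (e3.and e7).mono fun z e => ?_⟩ <;>
        simp only [h1, h2] <;> push_cast
      · linarith
      · linarith [e.1, e.2]
  obtain ⟨n, hn⟩ := exists_nat_gt (2 * |C| / δ + 1)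
  obtain ⟨x, e1, e2, -⟩ := key n
  have e3 : 0 < (n : ℝ) := lt_trans (by positivity) hn
  rw [← lt_sub_iff_add_lt, div_lt_iff₀ hδ] at hn
  nlinarith [h3 x e1, le_abs_self C]

theorem mom_le {m : ℕ → ℝ} {c C : ℝ} (c0 : 0 ≤ c)
    (h1 : ∀ k, ∀ a b : ℝ, 0 ≤ a ^ 2 * m 0 + 2 * a * b * m k + b ^ 2 * m (k + k))
    (h2 : ∀ k, |m k| ≤ C * c ^ k) : |m 1| ≤ c * m 0 := by
  have h0 : 0 ≤ m 0 := by simpa using h1 1 1 0
  have h3 : ∀ k, m k ^ 2 ≤ m 0 * m (k + k) := fun k => by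
    have := discrim_le_zero (a := m 0) (b := 2 * m k) (c := m (k + k)) fun a => by
      linarith [h1 k a 1]
    rw [discrim] at this
    linarith
  by_contra! h
  have h4 : 0 < m 0 := h0.lt_of_ne fun e => by
    have := h3 1
    rw [← e, zero_mul] at this
    rw [← e, pow_eq_zero_iff two_ne_zero |>.1 (this.antisymm (sq_nonneg _))] at h
    simp at h
  obtain ⟨ρ, e⟩ : ∃ ρ, |m 1| = ρ * m 0 := ⟨_, (div_mul_cancel₀ _ h4.ne').symm⟩
  have h5 : c < ρ := lt_of_mul_lt_mul_right (e ▸ h) h0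
  have ρ0 := c0.trans_lt h5
  have h6 : ∀ j, ρ ^ 2 ^ j * m 0 ≤ |m (2 ^ j)| := fun j => by
    induction j with
    | zero => simp [e]
    | succ j ih =>
      have := (pow_le_pow_left₀ (by positivity) ih 2).trans ((sq_abs _).trans_le (h3 _))
      rw [pow_succ 2, pow_mul, mul_two]
      exact (le_of_mul_le_mul_left (by linarith) h4).trans (le_abs_self _)
  have h7 := ((tendsto_pow_atTop_nhds_zero_of_lt_one (div_nonneg c0 ρ0.le)
    ((div_lt_one ρ0).2 h5)).comp (tendsto_pow_atTop_atTop_of_one_lt one_lt_two)).const_mul C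
  refine h4.not_ge ((ge_of_tendsto' h7 fun j => ?_).trans_eq (mul_zero _))
  rw [Function.comp, div_pow, ← mul_div_assoc, le_div_iff₀' (by positivity)]
  exact (h6 j).trans (h2 _)

variable {P : Type} [CommRing P] [Algebra ℂ P] {N : Net P} {S : P →ₗ[ℂ] ℂ}

namespace Net

/-- dyadic averages of far translates -/
inductive Cv (N : Net P) (U : P) (t : ℝ) : P → Prop
  | base (v : R4) : (∀ l, t ≤ v l) → Cv N U t (N.τ v U)
  | mid {X Y : P} : Cv N U t X → Cv N U t Y → Cv N U t ((2⁻¹ : ℂ) • (X + Y))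

variable {U X Z : P} {R c t t' : ℝ} {s v : R4} {μ ν : Fin 4}

theorem Cv.tau (h : N.Cv U t X) (hs : ∀ l, t' ≤ t + s l) : N.Cv U t' (N.τ s X) := by
  induction h with
  | base v hv => rw [N.τ_τ]; exact .base _ fun l => by rw [PiLp.add_apply]; linarith [hs l, hv l]
  | mid _ _ e e' => rw [map_smul, map_add]; exact e.mid e'

theorem bx_ot (h : X ∈ N.loc (Bx R)) : X ∈ N.loc (Ot (-R)) :=
  N.mono h fun _ hy l => (abs_lt.1 (hy l)).1

theorem Cv.ot (h : N.Cv U t X) (hU : U ∈ N.loc (Bx R)) : X ∈ N.loc (Ot (t - R)) := by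
  induction h with
  | base v hv => exact τ_ot (bx_ot hU) fun l => by linarith [hv l]
  | mid _ _ e e' => exact Submodule.smul_mem _ _ (Submodule.add_mem _ e e')

theorem Cv.const (h : N.Cv U t X) {φ : P → ℂ} {a : ℂ}
    (h1 : ∀ X Y, φ ((2⁻¹ : ℂ) • (X + Y)) = 2⁻¹ * (φ X + φ Y))
    (h2 : ∀ v : R4, (∀ l, t ≤ v l) → φ (N.τ v U) = a) : φ X = a := by
  induction h with
  | base v hv => exact h2 v hv
  | mid _ _ e e' => rw [h1, e, e']; ring

variable {H : Fin 4 → Type} [∀ ν, NormedAddCommGroup (H ν)] [∀ ν, InnerProductSpace ℂ (H ν)]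
  [∀ ν, CompleteSpace (H ν)] {r : ∀ ν, N.Rep S ν (H ν)} {Y : ℕ → P} {z : ∀ ν, H ν}

/-- averages of far translates which converge in all pictures -/
structure Avg (r : ∀ ν, N.Rep S ν (H ν)) (U : P) (R : ℝ) (Y : ℕ → P) (z : ∀ ν, H ν) : Prop where
  box : U ∈ N.loc (Bx R)
  hull : ∀ n : ℕ, N.Cv U n (Y n)
  lim : ∀ s ν, Tendsto (fun n => (r ν).Ψ (N.τ s (Y n))) atTop (𝓝 (z ν))

theorem exists_avg (r : ∀ ν, N.Rep S ν (H ν)) (hU : U ∈ N.loc (Bx R)) (R0 : 0 ≤ R) :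
    ∃ Y z, Avg r U R Y z := by
  let q : P → ℝ := fun X => ∑ ν, ‖(r ν).Ψ X‖ ^ 2
  let d := sInf (q '' {X | N.Cv U R X})
  have h1 : ∀ {X}, N.Cv U R X → d ≤ q X := fun h => csInf_le
    ⟨0, by rintro _ ⟨X, -, rfl⟩; positivity⟩ ⟨_, h, rfl⟩
  have h2 : ∀ n : ℕ, ∃ X, N.Cv U R X ∧ q X < d + 1 / (n + 1) := fun n => by
    obtain ⟨_, ⟨X, h, rfl⟩, e⟩ := exists_lt_of_csInf_lt (s := q '' {X | N.Cv U R X})
      ⟨_, _, .base (dg R) fun _ => le_rfl, rfl⟩ (lt_add_of_pos_right d Nat.one_div_pos_of_nat)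
    exact ⟨X, h, e⟩
  choose Y h3 h4 using h2
  have h5 : ∀ {X X'}, N.Cv U R X → N.Cv U R X' → ∀ ν,
      ‖(r ν).Ψ X - (r ν).Ψ X'‖ ^ 2 ≤ 2 * (q X - d) + 2 * (q X' - d) := fun {X X'} h h' ν => by
    have e : ∑ ν, ‖(r ν).Ψ X - (r ν).Ψ X'‖ ^ 2 + 4 * q ((2⁻¹ : ℂ) • (X + X')) =
        2 * q X + 2 * q X' := by
      simp only [q, Finset.mul_sum, ← Finset.sum_add_distrib]
      refine Finset.sum_congr rfl fun ν _ => ?_
      have := parallelogram_law_with_norm ℂ ((r ν).Ψ X) ((r ν).Ψ X')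
      rw [map_smul, map_add, norm_smul, norm_inv, Complex.norm_two]
      linarith
    linarith [h1 (h.mid h'), Finset.single_le_sum (f := fun ν => ‖(r ν).Ψ X - (r ν).Ψ X'‖ ^ 2)
      (fun _ _ => sq_nonneg _) (Finset.mem_univ ν)]
  have h6 := tendsto_one_div_add_atTop_nhds_zero_nat (𝕜 := ℝ)
  have h7 : ∀ ν, CauchySeq fun n => (r ν).Ψ (Y n) := fun ν =>
    cauchySeq_of_le_tendsto_0' (fun n => √(4 * (1 / ((n : ℝ) + 1)))) (fun n m e => by
      have := Nat.one_div_le_one_div (α := ℝ) e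
      rw [dist_eq_norm]
      exact Real.le_sqrt_of_sq_le (by linarith [h5 (h3 n) (h3 m) ν, h4 n, h4 m]))
      (by simpa using (h6.const_mul 4).sqrt)
  choose z hz using fun ν => cauchySeq_tendsto_of_complete (h7 ν)
  refine ⟨fun n => N.τ (dg n) (Y n), z, hU, fun n => (h3 n).tau fun l => by simpa,
    fun s ν => (hz ν).congr_dist (squeeze_zero' (g := fun n : ℕ => √(4 * (1 / ((n : ℝ) + 1))))
      (.of_forall fun _ => dist_nonneg) ?_ (by simpa using (h6.const_mul 4).sqrt))⟩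
  filter_upwards [tendsto_natCast_atTop_atTop.eventually_ge_atTop ‖s‖] with n hn
  have e : ∀ l, 0 ≤ (s + dg n) l := fun l => by
    rw [PiLp.add_apply, dg_apply]
    linarith [(abs_le.1 ((PiLp.norm_apply_le s l).trans hn)).1]
  have e1 : q (N.τ (s + dg n) (Y n)) ≤ q (Y n) := Finset.sum_le_sum fun ν _ =>
    pow_le_pow_left₀ (norm_nonneg _)
      ((r ν).le (e ν) (N.mono ((h3 n).ot hU) (Ot.hs ν (sub_self R).ge))) 2
  rw [dist_eq_norm, N.τ_τ]
  exact Real.le_sqrt_of_sq_le (by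
    linarith [h5 (h3 n) ((h3 n).tau (t' := R) fun l => by linarith [e l]) ν, h4 n])

theorem Avg.far (h : Avg r U R Y z) (s : R4) (t : ℝ) :
    ∀ᶠ n in atTop, N.τ s (Y n) ∈ N.loc (Ot t) := by
  filter_upwards [tendsto_natCast_atTop_atTop.eventually_ge_atTop (‖s‖ + R + t)] with n hn
  exact τ_ot ((h.hull n).ot h.box) fun l => by linarith [(abs_le.1 (PiLp.norm_apply_le s l)).1]

theorem Avg.lim0 (h : Avg r U R Y z) (ν : Fin 4) :
    Tendsto (fun n => (r ν).Ψ (Y n)) atTop (𝓝 (z ν)) := by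
  simpa only [N.τ_zero] using h.lim 0 ν

theorem Avg.far0 (h : Avg r U R Y z) (ν : Fin 4) : ∀ᶠ n in atTop, Y n ∈ N.loc (Hs ν 0) :=
  (h.far 0 0).mono fun _ e => N.mono (by rwa [N.τ_zero] at e) (Ot.hs ν le_rfl)

theorem Avg.inv (h : Avg r U R Y z) (hv : 0 ≤ v ν) : (r ν).T v (z ν) = z ν :=
  tendsto_nhds_unique_of_eventuallyEq ((((r ν).T v).continuous.tendsto _).comp (h.lim0 ν))
    (h.lim v ν) ((h.far0 ν).mono fun _ e => (r ν).act hv e)

theorem Avg.inner_inv (h : Avg r U R Y z) (hS : N.St S) {x : H ν}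
    (hx : ∀ v : R4, 0 ≤ v ν → (r ν).T v x = x) (hv : R ≤ v ν) :
    inner ℂ ((r ν).Ψ (N.τ v U)) x = inner ℂ (z ν) x := by
  refine (tendsto_nhds_unique_of_eventuallyEq ((h.lim0 ν).inner tendsto_const_nhds)
    tendsto_const_nhds ?_).symm
  filter_upwards [tendsto_natCast_atTop_atTop.eventually_ge_atTop (v ν)] with n hn
  refine (h.hull n).const (φ := fun X => inner ℂ ((r ν).Ψ X) x) (fun X Y => ?_) fun w hw => ?_
  · simp [mul_add, mul_comm]
  have e : 0 ≤ (w - v) ν := sub_nonneg.2 (hn.trans (hw ν))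
  rw [← sub_add_cancel w v, ← N.τ_τ, ← (r ν).act e (τ_hs (bx_hs h.box ν) (by linarith)),
    (r ν).adj hS e, hx _ (by simpa using e)]

/-- multiplicative motions which do not change the limit in some picture -/
def Gd (r : ∀ ν, N.Rep S ν (H ν)) (Y : ℕ → P) (z : ∀ ν, H ν) (g : P →+* P) : Prop :=
  ∃ ν, ∀ s, (∀ᶠ n in atTop, N.τ s (g (Y n)) ∈ N.loc (Hs ν 0)) ∧
    Tendsto (fun n => (r ν).Ψ (N.τ s (g (Y n)))) atTop (𝓝 (z ν))

theorem Avg.gd_tau (h : Avg r U R Y z) (s : R4) : Gd r Y z (N.τ s) :=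
  ⟨0, fun u => by
    simpa only [RingHom.coe_coe, N.τ_τ] using
      And.intro ((h.far (u + s) 0).mono fun _ e => N.mono e (Ot.hs 0 le_rfl)) (h.lim (u + s) 0)⟩

theorem Avg.gd_th (h : Avg r U R Y z) (hS : N.St S) (hΘ : N.Θ μ U = U) (s : R4) :
    Gd r Y z ((N.Θ μ).comp (N.τ s)) := by
  obtain ⟨ν, hν⟩ := exists_ne μ
  refine ⟨ν, fun u => ?_⟩
  have e : ∀ X, N.τ u (((N.Θ μ).comp (N.τ s)) X) = N.Θ μ (N.τ (rf μ u + s) X) := fun X => by
    rw [← N.τ_τ, N.Θ_τ μ (rf μ u), rf_rf]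
    rfl
  generalize rf μ u + s = w at e
  have h1 := (h.far w 0).mono fun _ e => N.mono e (Ot.hs ν le_rfl)
  simp only [e]
  refine ⟨h1.mono fun _ e => Θ_hs e hν, tendsto_iff_norm_sub_tendsto_zero.2 ?_⟩
  have h2 := (((h.lim w ν).norm.pow 2).sub_const (‖z ν‖ ^ 2)).sqrt
  rw [sub_self, Real.sqrt_zero] at h2
  refine h2.congr' ?_
  filter_upwards [h1, tendsto_natCast_atTop_atTop.eventually_ge_atTop (R - w ν)] with n h3 hn
  have h4 : inner ℂ ((r ν).Ψ (N.Θ μ (N.τ w (Y n)))) (z ν) = inner ℂ (z ν) (z ν) := by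
    refine (h.hull n).const (φ := fun X => inner ℂ ((r ν).Ψ (N.Θ μ (N.τ w X))) (z ν))
      (fun X Y => ?_) fun v hv => ?_
    · simp [N.Θ_smul, mul_add, mul_comm]
    · rw [N.τ_τ, N.Θ_τ, hΘ]
      exact h.inner_inv hS (fun _ => h.inv) (by rw [rf_ne hν, PiLp.add_apply]; linarith [hv ν])
  rw [← Real.sqrt_sq (norm_nonneg (_ - _)), norm_sub_sq (𝕜 := ℂ), h4, inner_self_eq_norm_sq,
    ← (r ν).nq h3, ← (r ν).nq (Θ_hs h3 hν), nq, nq, N.Θ_comm, ← map_mul,
    hS.herm μ (rp_adm h3 h3), Complex.conj_re]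
  congr 1
  ring

theorem mul_hs (hZ : Z ∈ N.loc (Bx R)) (h : N.τ (-ax ν R) X ∈ N.loc (Hs ν 0)) :
    Z * X ∈ N.loc univ := by
  have := τ_hs (t' := R) (v := ax ν R) h (by simp)
  rw [N.τ_τ, add_neg_cancel, N.τ_zero] at this
  exact adm (N.mul hZ this (disjoint_left.2 fun y e e' => ((abs_lt.1 (e ν)).2).not_gt e'))

theorem Gd.adm {g : P →+* P} (h : Gd r Y z g) (hZ : Z ∈ N.loc univ) :
    ∀ᶠ n in atTop, Z * g (Y n) ∈ N.loc univ :=
  let ⟨_, h⟩ := h
  let ⟨_, hR⟩ := N.bdd hZ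
  (h _).1.mono fun _ e => mul_hs (N.mono hR inter_subset_right) e

/-- products of `k` averages which are sent to infinity one after the other -/
def GG (Y : ℕ → P) : ℕ → Filter P
  | 0 => pure 1
  | k + 1 => atTop.bind fun n => (GG Y k).map (Y n * ·)

/-- iterated limits -/
def WW (S : P →ₗ[ℂ] ℂ) (Y : ℕ → P) : ℕ → P → ℂ
  | 0 => S
  | k + 1 => fun Z => limUnder atTop fun n => WW S Y k (Z * Y n)

instance (Y : ℕ → P) : ∀ k, (GG Y k).NeBot
  | 0 => pure_neBot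
  | k + 1 => ⟨fun e => by
    have := instNeBotGG Y k
    obtain ⟨_, h⟩ := (eventually_bind.1 (eventually_false_iff_eq_bot.2 e)).exists
    exact (eventually_map.1 h).exists.elim fun _ => id⟩

theorem Avg.nb (h : Avg r U R Y z) (hS : N.St S) (hQ : N.QB S U R c) (k : ℕ) : ∀ s,
    ∀ᶠ V in GG Y k, N.τ s V ∈ N.loc (Ot 0) ∧ ∀ ν, ‖(r ν).Ψ (N.τ s V)‖ ≤ c ^ k := by
  induction k with
  | zero => exact fun s => by simp [GG, N.one, Rep.one _ hS]
  | succ k ih =>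
    refine fun s => eventually_bind.2 ?_
    filter_upwards [tendsto_natCast_atTop_atTop.eventually_ge_atTop (‖s‖ + R)] with n hn
    have h1 := h.hull n
    rw [eventually_map]
    generalize Y n = X at h1
    induction h1 with
    | base v hv =>
      filter_upwards [ih (dg (-R) - v)] with V hV
      have e : ∀ l, R ≤ (s + v) l := fun l => by
        rw [PiLp.add_apply]
        linarith [(abs_le.1 (PiLp.norm_apply_le s l)).1, hv l]
      have e1 : N.τ (-v) V ∈ N.loc (Ot R) := by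
        simpa only [N.τ_τ, show dg R + (dg (-R) - v) = -v by ext; simp [← add_sub_assoc]] using dg_ot (R := R) hV.1
      rw [show N.τ s (N.τ v U * V) = N.τ (s + v) (U * N.τ (-v) V) by
        simp only [map_mul, N.τ_τ, add_neg_cancel_right]]
      refine ⟨τ_ot (mul_far (N.mono h.box fun _ hy => ⟨fun l => (abs_lt.1 (hy l)).1, hy⟩) e1
        (Ot.mono (R := -R) (by linarith [hQ.2.1]))) fun l => by linarith [e l], fun ν => ?_⟩
      refine ((r ν).qb hQ e1 (e ν)).trans ?_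
      rw [pow_succ', N.τ_τ, ← sub_eq_add_neg]
      exact mul_le_mul_of_nonneg_left (hV.2 ν) hQ.2.2.1
    | mid _ _ e e' =>
      filter_upwards [e, e'] with V e e'
      simp only [smul_mul_assoc, add_mul, map_smul, map_add]
      refine ⟨Submodule.smul_mem _ _ (Submodule.add_mem _ e.1 e'.1), fun ν => ?_⟩
      rw [norm_smul, norm_inv, Complex.norm_two]
      linarith [(norm_add_le _ _).trans (add_le_add (e.2 ν) (e'.2 ν))]

theorem Gd.step {g : P →+* P} (h : Gd r Y z g) (j k : ℕ) (hA : ∀ i < k, ∀ Z ∈ N.loc univ,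
    Tendsto (fun n => WW S Y (j + i) (Z * g (Y n))) atTop (𝓝 (WW S Y (j + i + 1) Z))) :
    ∀ Z ∈ N.loc univ, Tendsto (fun V => WW S Y j (Z * g V)) (GG Y k) (𝓝 (WW S Y (j + k) Z)) := by
  induction k with
  | zero =>
    intro Z _
    simpa [GG] using tendsto_pure_nhds (fun V => WW S Y j (Z * g V)) 1
  | succ k ih =>
    refine fun Z hZ => tendsto_nhds.2 fun O hO e => eventually_bind.2 ?_
    filter_upwards [(hA k k.lt_succ_self Z hZ).eventually (hO.mem_nhds e), h.adm hZ] with n e1 e2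
    refine eventually_map.2 (((ih (fun i hi => hA i (hi.trans k.lt_succ_self)) _ e2).eventually
      (hO.mem_nhds e1)).mono fun V e => ?_)
    rwa [map_mul, ← mul_assoc]

theorem Avg.limA (h : Avg r U R Y z) (hS : N.St S) (hQ : N.QB S U R c) (hΘ : ∀ μ, N.Θ μ U = U)
    (hA : ∀ X ∈ N.loc univ, ∃ R c, N.QB S X R c) (k : ℕ) : ∀ g, Gd r Y z g → ∀ Z ∈ N.loc univ,
      Tendsto (fun n => WW S Y k (Z * g (Y n))) atTop (𝓝 (WW S Y (k + 1) Z)) := by
  induction k using Nat.strong_induction_on with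
  | _ k ih =>
  intro g ⟨ν, hg⟩ Z hZ
  obtain ⟨R', c', hZ'⟩ := hA _ (Θ_adm ν hZ)
  have h0 : Z ∈ N.loc (Bx R') := N.Θ_Θ ν Z ▸ Θ_bx hZ'.1 ν
  have h1 := (h.gd_th hS (hΘ ν) 0).step 0 k fun i hi => by
    rw [zero_add]
    exact ih i hi _ (h.gd_th hS (hΘ ν) 0)
  have h2 : ∀ {D D'}, N.τ (-ax ν R') D ∈ N.loc (Hs ν 0) → N.τ (-ax ν R') D' ∈ N.loc (Hs ν 0) →
      dist (WW S Y k (Z * D)) (WW S Y k (Z * D')) ≤
        c' * c ^ k * dist ((r ν).Ψ (N.τ (-ax ν R') D)) ((r ν).Ψ (N.τ (-ax ν R') D')) :=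
    fun {D D'} e e' => by
    refine le_of_tendsto (zero_add k ▸ (h1 _ (mul_hs h0 e)).dist (h1 _ (mul_hs h0 e'))) ?_
    filter_upwards [h.nb hS hQ k (dg (-R'))] with V hV
    have e1 : V ∈ N.loc (Ot R') := by
      simpa only [N.τ_τ, show dg R' + dg (-R') = 0 by ext; simp, N.τ_zero] using
        dg_ot (R := R') hV.1
    have e2 : ∀ {D}, N.τ (-ax ν R') D ∈ N.loc (Hs ν 0) →
        WW S Y 0 (Z * D * ((N.Θ ν).comp (N.τ 0)) V) = inner ℂ
          ((r ν).Ψ (N.τ (ax ν R') (N.Θ ν Z * V))) ((r ν).Ψ (N.τ (-ax ν R') D)) := fun {D} e => by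
      have := (r ν).shift (X := Z * N.Θ ν V) (Y := D) (v := ax ν R') hS
      rw [neg_rf_ax, map_mul (N.Θ ν), N.Θ_Θ] at this
      rw [← this (qb_hs hZ'.1 e1 hZ'.2.1 (by simp)) e]
      simp [WW, N.τ_zero, mul_right_comm]
    rw [e2 e, e2 e', dist_eq_norm, dist_eq_norm, ← inner_sub_right]
    exact (norm_inner_le_norm _ _).trans (mul_le_mul_of_nonneg_right
      (((r ν).qb hZ' e1 (by simp)).trans (mul_le_mul_of_nonneg_left (hV.2 ν) hZ'.2.2.1))
      (norm_nonneg _))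
  have h3 := (h.far (-ax ν R') 0).mono fun _ e => N.mono e (Ot.hs ν le_rfl)
  have h4 : CauchySeq fun n => WW S Y k (Z * Y n) := by
    have := (cauchySeq_iff_tendsto_dist_atTop_0.1 (h.lim (-ax ν R') ν).cauchySeq).const_mul
      (c' * c ^ k)
    rw [mul_zero] at this
    refine cauchySeq_iff_tendsto_dist_atTop_0.2
      (squeeze_zero' (.of_forall fun _ => dist_nonneg) ?_ this)
    rw [← prod_atTop_atTop_eq]
    exact (h3.prod_mk h3).mono fun _ e => h2 e.1 e.2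
  have h5 := ((h.lim (-ax ν R') ν).dist (hg (-ax ν R')).2).const_mul (c' * c ^ k)
  rw [dist_self, mul_zero] at h5
  exact h4.tendsto_limUnder.congr_dist (squeeze_zero' (.of_forall fun _ => dist_nonneg)
    ((h3.and (hg _).1).mono fun _ e => h2 e.1 e.2) h5)

end Net

end Pool.Agent.Lib.MP_7f377f_mp.Pur
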