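import Pool.Agent.Lib.MP_7f377f_mp.YM7Defs

/-! Polynomials in the smeared action density and their lattice expectations. -/

noncomputable section

namespace Pool.Agent.Lib.MP_7f377f_mp.YM7

open MeasureTheory MvPolynomial

/-- formal polynomials; the variable `X f` is the field smeared with `f` -/
abbrev Fp : Type := MvPolynomial (R4 → ℝ) ℂ

/-- the product of the fields smeared with `f i` -/
def fld {k : ℕ} (f : Fin k → R4 → ℝ) : Fp := ∏ i, X (f i)

/-- half spaces -/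
def Fut (μ : Fin 4) (t : ℝ) : Set R4 := {y | t < y μ}

/-- linear combinations of the products `fld f`, `f` admissible with supports in `O` -/
def Loc (O : Set R4) : Set Fp := Submodule.span ℂ
  {Z | ∃ (k : ℕ) (f : Fin k → R4 → ℝ), Adm f ∧ (∀ i, tsupport (f i) ⊆ O) ∧ fld f = Z}

/-- translation of all test functions -/
def move (v : R4) (Z : Fp) : Fp := rename (fun f y => f (y - v)) Z

/-- reflection of the axis `μ` in all test functions and conjugation of the coefficients -/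
def bar (μ : Fin 4) (Z : Fp) : Fp :=
  rename (fun f y => f (WithLp.toLp 2 (Function.update y μ (-y μ)))) (map (starRingEnd ℂ) Z)

/-- the Osterwalder-Schrader product -/
def osp (μ : Fin 4) (Y Z : Fp) : Fp := bar μ Y * Z

/-- insertion of `B i` and its time reflection -/
def ins {r : ℕ} (B : Fin r → Fp) (Z : Fp) : Fp := ∑ i, osp 0 (B i) (Z * B i)

/-- the Wilson expectation of the polynomial in the centred smeared fields -/
def vev [MeasurableSpace SU2] (h : Measure SU2) (b : ℝ) (n : ℕ) [NeZero n] (a : ℝ) (Z : Fp) : ℂ :=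
  ∫ U, eval (fun f => ((field a f U - ∫ V, field a f V ∂wilson h b n : ℝ) : ℂ)) Z ∂wilson h b n

variable (H : Type) [NormedAddCommGroup H] [InnerProductSpace ℂ H] [CompleteSpace H]

/-- `T v = exp (-v 0 * A + i v P)`: a strongly continuous contraction semigroup on the half space,
unitary in space, positive in time, whose generator `A ≥ 0` is self adjoint, kills the unit vector
`Ω` and has arbitrarily large spectrum -/
def Dyn (Ω : H) (T : R4 → H →L[ℂ] H) : Prop := ‖Ω‖ = 1 ∧ T 0 = 1 ∧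
  (∀ v, 0 ≤ v 0 → ‖T v‖ ≤ 1 ∧ T v Ω = Ω ∧ ∀ w, 0 ≤ w 0 → T (v + w) = T v * T w) ∧
  (∀ x, ContinuousOn (fun v => T v x) {v | 0 ≤ v 0}) ∧
  (∀ v, v 0 = 0 → T v ∈ unitary (H →L[ℂ] H)) ∧
  (∀ t ≥ 0, (T (EuclideanSpace.single 0 t)).IsPositive) ∧ ∃ A : H →ₗ.[ℂ] H, IsSelfAdjoint A ∧
    (∀ x y, (x, y) ∈ A.graph ↔
      HasDerivWithinAt (fun t => T (EuclideanSpace.single 0 t) x) (-y) (Set.Ici 0) 0) ∧
    (∀ x : A.domain, 0 ≤ (inner ℂ (x : H) (A x)).re) ∧ (Ω, 0) ∈ A.graph ∧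
    ∀ M : ℝ, ∃ m > M, ∀ ε > 0, ∃ x : A.domain, ‖(x : H)‖ = 1 ∧ ‖A x - (m : ℂ) • x‖ < ε

/-- Osterwalder-Schrader reconstruction with a unique vacuum -/
def Quantum (W : Fp → ℂ) : Prop := ∃ (Ψ : Fp → H) (T : R4 → H →L[ℂ] H),
  IsLinearMap ℂ Ψ ∧ Dense (Ψ '' Loc (Fut 0 0)) ∧ (∀ Z ∈ Loc (Fut 0 0),
    (∀ Y ∈ Loc (Fut 0 0), inner ℂ (Ψ Y) (Ψ Z) = W (osp 0 Y Z)) ∧
      ∀ v, 0 ≤ v 0 → T v (Ψ Z) = Ψ (move v Z)) ∧
  Dyn H (Ψ 1) T ∧ ∀ x, (∀ v, 0 ≤ v 0 → T v x = x) → ∃ c : ℂ, x = c • Ψ 1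

end Pool.Agent.Lib.MP_7f377f_mp.YM7
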