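import Pool.Agent.Lib.MP_7f377f_mp.PurF
import Pool.Agent.Lib.MP_7f377f_mp.PurG
import Pool.Agent.Lib.MP_7f377f_mp.PurH

/-! The quantum theory with a unique vacuum. -/

noncomputable section

namespace Pool.Agent.Lib.MP_7f377f_mp.Pur

open MeasureTheory Filter Topology Set Real YM7 MvPolynomial ComplexConjugate
open scoped NNReal

set_option linter.unusedSectionVars false

variable [MeasurableSpace SU2] [BorelSpace SU2] {h : Measure SU2} [h.IsHaarMeasure]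
  [IsProbabilityMeasure h] {ι : Type} {Φ : Filter ι} {n : ι → ℕ} [∀ p, NeZero (n p)]
  {a b τ : ι → ℝ}

theorem infinite_ultra [Φ.NeBot] (hF : Fam Φ n a b τ) (hB : Bd7 h Φ n a b τ) :
    ∃ (U : Ultrafilter ι) (p : ℕ → ι) (S : ∀ {k : ℕ}, (Fin k → R4 → ℝ) → ℝ), U ≤ Φ ∧
      (∀ {k} {f : Fin k → R4 → ℝ}, Adm f →
        Tendsto (fun p => corr h (b p) (n p) (a p) f) U (𝓝 (S f))) ∧
      (∀ {k} {f : Fin k → R4 → ℝ}, Adm f → ∀ {F : ∀ p, Fin k → Src (n p)},
        (∀ᶠ p in Φ, ∀ i, Near (a p) (F p i) (f i)) →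
        Tendsto (fun p => gcorr h (b p) (n p) (F p)) U (𝓝 (S f))) ∧
      Tendsto (a ∘ p) atTop (𝓝[>] 0) ∧ Tendsto (fun j => a (p j) * n (p j)) atTop atTop ∧
      Tendsto (fun j => b (p j) / log (a (p j))⁻¹) atTop (𝓝 (11 / (6 * π ^ 2))) ∧
      (∀ k (f : Fin k → R4 → ℝ), Adm f →
        Tendsto (fun j => corr h (b (p j)) (n (p j)) (a (p j)) f) atTop (𝓝 (S f)) ∧
        (∀ v, S (fun i y => f i (y + v)) = S f) ∧
        (∀ σ : Equiv.Perm (Fin 4), S (fun i y => f i (WithLp.toLp 2 (y ∘ σ))) = S f) ∧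
        S (fun i => theta (f i)) = S f) ∧
      ∀ k R, ∀ δ > 0, ∃ C, ∀ (f : Fin k → R4 → ℝ) (L : Fin k → NNReal), Adm f →
        (∀ i, LipschitzWith (L i) (f i) ∧ ∀ y, f i y ≠ 0 → ‖y‖ ≤ R) →
        (∀ i j, i ≠ j → ∀ x y, f i x ≠ 0 → f j y ≠ 0 → δ ≤ dist x y) → |S f| ≤ C * ∏ i, L i := by
  obtain ⟨U, hU⟩ := Φ.exists_ultrafilter_le
  have cv : ∀ {k} {f : Fin k → R4 → ℝ}, Adm f → Tendsto (fun p => corr h (b p) (n p) (a p) f) U
      (𝓝 (limUnder U fun p => corr h (b p) (n p) (a p) f)) := fun {k f} hf => by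
    obtain ⟨D, q, h1, h2, h3⟩ := hf.data
    obtain ⟨C, hC⟩ := hB.lip hF k D (show 0 < 1 / (q + 1 : ℝ) by positivity)
    exact ultra_lim U (Eventually.filter_mono hU (hC.mono fun p hp => hp f (fun _ => D)
      (fun i => ⟨(h2 i).1, fun y hy => h1 i y (subset_tsupport _ hy)⟩) fun i j hij x y hx hy =>
        h3 i j hij x (subset_tsupport _ hx) y (subset_tsupport _ hy)))
  have nr : ∀ {k} {f : Fin k → R4 → ℝ}, Adm f →
      ∀ {F : ∀ p, Fin k → Src (n p)}, (∀ᶠ p in Φ, ∀ i, Near (a p) (F p i) (f i)) →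
      Tendsto (fun p => gcorr h (b p) (n p) (F p)) U
        (𝓝 (limUnder U fun p => corr h (b p) (n p) (a p) f)) := fun hf F hN => by
    simpa using ((hB.near hF hf hN).mono_left hU).add (cv hf)
  obtain ⟨p, hp, hq⟩ := exists_seq (U : Filter ι) jet (fun p _ f => corr h (b p) (n p) (a p) f.1)
    (fun _ f => limUnder U fun p => corr h (b p) (n p) (a p) f.1) (fun _ f => cv f.2.1)
    (fun I => (hB.equi hF I).imp fun _ => Exists.imp fun _ e => ⟨e.1, e.2.filter_mono hU⟩)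
    (comap a (𝓝[>] 0) ⊓ (comap (fun p => a p * n p) atTop ⊓
      comap (fun p => b p / log (a p)⁻¹) (𝓝 (11 / (6 * π ^ 2)))))
    (hU.trans (le_inf hF.a0.le_comap (le_inf hF.vol.le_comap hF.cpl.le_comap)))
  simp only [tendsto_inf, tendsto_comap_iff] at hp
  refine ⟨U, p, fun f => limUnder U fun p => corr h (b p) (n p) (a p) f, hU, cv, nr, hp.1, hp.2.1,
    hp.2.2, fun k f hf => ⟨?_, fun v => ?_, fun σ => ?_, ?_⟩, fun k R δ δ0 => ?_⟩
  · by_cases h0 : ∀ i, (tsupport (f i)).Nonempty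
    · obtain ⟨D, q, h1⟩ := hf.data
      exact hq (k, D, q) ⟨f, hf, h0, h1⟩
    · obtain ⟨i, hi⟩ := not_forall.1 h0
      rw [not_nonempty_iff_eq_empty, tsupport_eq_empty_iff] at hi
      have e : ∀ p, corr h (b p) (n p) (a p) f = 0 := fun p => by
        rw [corr_eq, ← gM_apply]
        exact (gM h _ k).map_coord_zero i (by rw [hi]; rfl)
      simp only [e, tendsto_const_nhds.limUnder_eq]
      exact tendsto_const_nhds
  · obtain ⟨D, q, h1, -⟩ := hf.data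
    refine Tendsto.limUnder_eq ((nr hf (F := fun p i x => src (n p) (a p) (fun y => f i (y + v))
      (x - fun l => ((⌊v l / a p⌋ : ℤ) : ZMod (n p)))) ?_).congr fun p => ?_)
    · filter_upwards [hF.pos, hF.big (2 * (D + ‖v‖))] with p e1 e2 i
      refine near_shift (cube_of (h1 i)) e1.1 (fun l => ?_) (PiLp.norm_apply_le v) (by linarith)
      have e3 := (le_div_iff₀' e1.1).1 (Int.floor_le (v l / a p))
      have e4 := (div_lt_iff₀' e1.1).1 (Int.lt_floor_add_one (v l / a p))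
      rw [abs_le]
      constructor <;> linarith [e1.1]
    · rw [gcorr_shift, corr_eq]
      rfl
  · refine congrArg (limUnder (U : Filter ι)) (funext fun p => ?_)
    rw [corr_eq, corr_eq]
    exact gcorr_prm h _ σ fun i x => f i (xp (a p) x)
  · obtain ⟨D, q, h1, -⟩ := hf.data
    refine Tendsto.limUnder_eq ((nr hf (F := fun p i => rF 0 (src (n p) (a p) (theta (f i))))
      ?_).congr fun p => ?_)
    · filter_upwards [hF.pos, hF.big (2 * D)] with p e1 e2 i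
      exact near_refl (cube_of (h1 i)) e1.1 (by linarith)
    · rw [gcorr_refl, corr_eq]
      rfl
  · obtain ⟨C, hC⟩ := hB.lip hF k R δ0
    exact ⟨C, fun f L hf h1 h2 => le_of_tendsto (cv hf).abs
      (Eventually.filter_mono hU (hC.mono fun p hp => hp f L h1 h2))⟩

theorem vev_sum (b : ℝ) (n : ℕ) [NeZero n] (a : ℝ) {m : ℕ} (c : Fin m → ℂ) {k : Fin m → ℕ}
    (f : ∀ i, Fin (k i) → R4 → ℝ) :
    vev h b n a (∑ i, c i • mon (f i)) = ∑ i, c i * corr h b n a (f i) := by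
  simp only [vev, corr, mon, map_sum, smul_eval, map_prod, eval_X, ← Complex.ofReal_prod,
    ← integral_complex_ofReal, ← integral_const_mul]
  exact integral_finsetSum _ fun i _ => (continuous_const.mul (Complex.continuous_ofReal.comp
    (continuous_finsetProd _ fun l _ => ((continuous_gfield _).congr (gfield_site _)).sub
      continuous_const))).integrable_of_hasCompactSupport (.of_compactSpace _)

theorem vacuum_of [Φ.NeBot] (hF : Fam Φ n a b τ) (hC : CellA h Φ n a b τ)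
    (hA : ∀ K, ShortA h Φ n a b K) :
    ∃ (n : ℕ → ℕ+) (a b : ℕ → ℝ) (S W : Fp → ℂ) (r : ℕ → ℕ) (B : ∀ j, Fin (r j) → Fp),
      Tendsto a atTop (𝓝[>] 0) ∧ Tendsto (fun j => a j * n j) atTop atTop ∧
      Tendsto (fun j => b j / log (a j)⁻¹) atTop (𝓝 (11 / (6 * π ^ 2))) ∧
      (∀ (j : ℕ) i, B j i ∈ Loc (Fut 0 j)) ∧
      (∀ Z ∈ Loc univ, Tendsto (fun j => vev h (b j) (n j) (a j) Z) atTop (𝓝 (S Z)) ∧
        Tendsto (fun j => S (ins (B j) Z)) atTop (𝓝 (W Z)) ∧ (∀ᶠ j in atTop, ins (B j) Z ∈ Loc univ) ∧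
        (∀ v, W (move v Z) = W Z) ∧ ∀ μ, W (bar μ Z) = starRingEnd ℂ (W Z)) ∧
      (∀ μ, ∀ Z ∈ Loc (Fut μ 0), 0 ≤ (W (osp μ Z Z)).re) ∧
      (∀ k R, ∀ δ > 0, ∃ C : ℝ, ∀ (f : Fin k → R4 → ℝ) (L : Fin k → NNReal), Adm f →
        (∀ i, LipschitzWith (L i) (f i) ∧ ∀ y, f i y ≠ 0 → ‖y‖ ≤ R) →
        (∀ i j, i ≠ j → ∀ x y, f i x ≠ 0 → f j y ≠ 0 → δ ≤ dist x y) →
        ‖W (fld f)‖ ≤ C * ∏ i, L i) ∧
      (∀ k (f : Fin k → R4 → ℝ), Adm f →
        Tendsto (fun d : ℝ => (log d⁻¹ : ℂ) ^ k * W (fld fun i y => f i (d⁻¹ • y))) (𝓝[>] 0)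
          (𝓝 ((6 / 11) ^ k * ∫ y : Fin k → R4, (∏ i, f i (y i)) * free y : ℝ))) ∧
      (∀ y : Fin 2 → R4, y 0 ≠ y 1 → free y = 9 / ‖y 0 - y 1‖ ^ 8) ∧
      ∃ (H : Type) (_ : NormedAddCommGroup H) (_ : InnerProductSpace ℂ H) (_ : CompleteSpace H),
        Quantum H W := by
  obtain ⟨U, p, S, hU, cv, nr, h1, h2, h3, h4, h5⟩ := infinite_ultra hF (hC.cell.bd7 hF)
  have hO := os_of (n := fun j => ⟨n (p j), NeZero.pos _⟩) (a := a ∘ p) (b := b ∘ p) h4 h5
    (gram_of hF hU nr)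
  obtain ⟨S', e⟩ := exists_lift hO
  have hS := st_of hO (fun hf => (h4 _ _ hf).2.2.1) e
  have hL := linP_of (n := fun j => ⟨n (p j), NeZero.pos _⟩) (a := a ∘ p) (b := b ∘ p)
    (fun hf => (h4 _ _ hf).1) e
  have hR := arrS_of hF hC hU cv
  obtain ⟨W, w1, hD, hW⟩ := Net.pure hS (qb_all hS e hL hR)
  have hS' := hD.st hS w1
  have bd : ∀ {Z R c}, net.QB S' Z R c → ‖W Z‖ ≤ c := fun e => hS'.bound (hD.qb e)
  obtain ⟨D, d1, d2, d3⟩ := qb_sep hS e hL hR
  obtain ⟨r, B, b1, b2⟩ := hD.seq hS w1 d1 d2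
  have af : ∀ k (f : Fin k → R4 → ℝ), Adm f → Tendsto (fun d : ℝ => (log d⁻¹ : ℂ) ^ k *
      W (mon fun i y => f i (d⁻¹ • y))) (𝓝[>] 0) (𝓝 (kap f : ℝ)) := fun k f hf =>
    Metric.tendsto_nhds.2 fun η η0 => (qb_short (hA k) hU nr hS e k le_rfl f hf _ (half_pos η0)).mono
      fun d ⟨R, hR⟩ => by simpa [w1, dist_eq_norm] using (bd hR).trans_lt (half_lt_self η0)
  choose H i1 i2 i3 rp' using hS'.exists_rep
  let ρ := fun ν => (rp' ν).some
  obtain ⟨q1, q2, q3, q4, q5⟩ := (ρ 0).semi hS' (D := Mon (Hs 0 0)) rfl (by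
    rintro _ ⟨k, f, f1, f2, rfl⟩ s hs
    have f3 : Pos f := ⟨f1, fun i y hy => f2 i hy⟩
    refine Metric.tendsto_nhds.2 fun ε ε0 => ?_
    obtain ⟨R, hR⟩ := qb_shift hS e hL hR (f3.rp (f3.sh hs)) (half_pos ε0)
    have h1 : Tendsto (fun v : R4 => (Fin.append (fun _ => 0) (fun _ => v - s) : Fin (k + k) → R4))
        (𝓝 s) (𝓝 0) := tendsto_pi_nhds.2 fun i => by
      induction i using Fin.addCases with
      | left i => simpa only [Fin.append_left, Pi.zero_apply] using tendsto_const_nhds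
      | right i =>
        simpa only [Fin.append_right, Pi.zero_apply, id] using
          tendsto_sub_nhds_zero_iff.2 tendsto_id
    refine (h1.eventually hR).mono fun v hv => ?_
    rw [dist_eq_norm, ← map_sub, Θ_mon, τ_mon, τ_mon, ← mon_append, ← mon_append]
    refine lt_of_eq_of_lt (congrArg (fun g => ‖W (mon g - _)‖) (funext fun i => funext fun y => ?_))
      ((bd hv).trans_lt (half_lt_self ε0))
    induction i using Fin.addCases with
    | left i => simp only [rp, Fin.append_left, sub_zero]; rfl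
    | right i => simp only [rp, Fin.append_right, sh, sub_sub, sub_add_cancel])
  have e0 : ∀ {s : ℝ}, 0 ≤ s → 0 ≤ (EuclideanSpace.single 0 s : R4) 0 := fun h => by simpa
  have v1 : ∀ {v : R4}, 0 ≤ v 0 → (ρ 0).T v ((ρ 0).Ψ 1) = (ρ 0).Ψ 1 := fun hv => by
    rw [(ρ 0).act hv (net.one _), map_one]
  obtain ⟨A, r1, r2, r3, r4⟩ := generator (P := fun t => (ρ 0).T (EuclideanSpace.single 0 t))
    (by simpa [EuclideanSpace.single, PiLp.single] using q1)
    (fun r hr s hs => (congrArg (ρ 0).T (PiLp.single_add ..)).trans (q2 _ (e0 hr) _ (e0 hs)))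
    (fun t ht => (ρ 0).nrm (e0 ht)) (fun t ht => (q5 t ht).isSelfAdjoint)
    (fun x => (q3 x).comp (f := fun t : ℝ => (EuclideanSpace.single 0 t : R4))
      ((PiLp.continuous_toLp 2 fun _ : Fin 4 => ℝ).comp (continuous_single 0)).continuousOn
      fun t ht => e0 ht) fun B hB => not_bdd (S := fun f => (W (mon f)).re) (fun f hf => by
        simpa [← Complex.ofReal_pow, kap, Function.comp_def, Complex.re_ofReal_mul] using
          (Complex.continuous_re.tendsto _).comp (af 2 f hf)) B fun s hs f hf => by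
    have m := mon_mem (O := Hs 0 0) hf.1 hf.2
    have e1 : ∀ {s : ℝ}, 0 ≤ s → (W (mon (rp f (sh (EuclideanSpace.single 0 s) f)))).re =
        (inner ℂ ((ρ 0).Ψ (mon f)) ((ρ 0).T (EuclideanSpace.single 0 s) ((ρ 0).Ψ (mon f)))).re :=
      fun hs => by
        rw [(ρ 0).act (e0 hs) m, (ρ 0).inn m (Net.τ_hs m (by simpa)), Θ_mon, τ_mon, ← mon_append]
        rfl
    generalize (ρ 0).Ψ (mon f) = x at e1
    have e2 := re_inner_le_norm (𝕜 := ℂ) x (x - (ρ 0).T (EuclideanSpace.single 0 s) x)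
    have e3 := mul_le_mul_of_nonneg_left (hB s hs x) (norm_nonneg x)
    have e4 := inner_self_eq_norm_mul_norm (𝕜 := ℂ) x
    rw [inner_sub_right, map_sub, norm_sub_rev, e4] at e2
    rw [e1 hs, e1 le_rfl, show (ρ 0).T (EuclideanSpace.single 0 0) = 1 by
      simpa [EuclideanSpace.single, PiLp.single] using q1, one_apply_eq_self]
    simp only [RCLike.re_to_complex] at e2 e4
    rw [e4]
    linarith
  refine ⟨fun j => ⟨n (p j), NeZero.pos _⟩, a ∘ p, b ∘ p, S', W, r, B, h1, h2, h3,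
    fun j i => net.mono (b1 j i) (Ot.hs 0 le_rfl),
    fun Z hZ => ⟨?_, ?_, ?_, fun v => hS'.ti v hZ, fun μ => hS'.herm μ hZ⟩, fun μ Z hZ => hS'.pos μ hZ,
    fun k R δ δ0 => ?_, af, YM5.free_two, H 0, inferInstance, inferInstance, inferInstance,
    (ρ 0).Ψ, (ρ 0).T, (ρ 0).Ψ.isLinear, (ρ 0).dense.mono ?_,
    fun Z hZ => ⟨fun Y hY => (ρ 0).inn hY hZ, fun v hv => (ρ 0).act hv hZ⟩, ⟨(ρ 0).one hS', q1,
    fun v hv => ⟨(ρ 0).nrm hv, v1 hv, q2 v hv⟩, q3, q4, q5, A, r1, r2, r3,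
    (r2 _ _).2 (by
      rw [neg_zero]
      exact (hasDerivWithinAt_const _ _ _).congr_of_mem (fun t ht => v1 (e0 ht)) self_mem_Ici),
    r4⟩, fun x hx => ⟨_, hW H ρ x hx⟩⟩
  · obtain ⟨m, c, k, f, f1, -, rfl⟩ := PN.exists_sum hZ
    simp only [vev_sum, map_sum, map_smul, e (f1 _), smul_eq_mul]
    exact tendsto_finsetSum _ fun i _ =>
      ((Complex.continuous_ofReal.tendsto _).comp (h4 _ _ (f1 i)).1).const_mul _
  · obtain ⟨m, c, k, f, f1, -, rfl⟩ := PN.exists_sum hZ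
    simp only [ins, osp, ← mul_assoc]
    refine (map_sum W _ _ ▸ tendsto_finsetSum _ fun i _ => map_smul W _ _ ▸
      (b2 _ (d3 _ _ (f1 i))).const_smul (c i)).congr fun j => ?_
    simp only [Finset.mul_sum, Finset.sum_mul, mul_smul_comm, smul_mul_assoc, map_sum, map_smul,
      Finset.smul_sum]
    exact Finset.sum_comm
  · filter_upwards [tendsto_natCast_atTop_atTop.eventually (Net.far_adm (N := net) 0 hZ)] with j e
    refine (net.loc univ).sum_mem fun i _ => ?_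
    rw [osp, ← mul_assoc]
    exact e _ (b1 j i)
  · obtain ⟨C, R', hC⟩ := qb_mon hS e hL hR k R δ0
    exact ⟨C, fun f L f1 f2 f3 => bd (hC f L f1 f2 f3)⟩
  · rintro _ ⟨Z, rfl⟩
    exact ⟨Z, Z.2, rfl⟩

end Pool.Agent.Lib.MP_7f377f_mp.Pur
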