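import Pool.Agent.Lib.MP_7f377f_mp.PurA

/-! A dominated functional is a limit of states with far boundary conditions. -/

noncomputable section

namespace Pool.Agent.Lib.MP_7f377f_mp.Pur

open Filter Topology Set YM7

variable {P : Type} [CommRing P] [Algebra ℂ P] {N : Net P} {S S' : P →ₗ[ℂ] ℂ}

theorem Net.Dom.link (hS : N.St S) (h : N.Dom S S') (h1 : S' 1 = 1) {m : ℕ} {Z : Fin m → P}
    (hZ : ∀ j, Z j ∈ N.loc univ) (R : ℝ) {ε : ℝ} (hε : 0 < ε) : ∃ (r : ℕ) (B : Fin r → P),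
    (∀ i, B i ∈ N.loc (Ot R)) ∧ ∑ i, S (N.Θ 0 (B i) * B i) = 1 ∧
    ∀ j, ‖S' (Z j) - ∑ i, S (N.Θ 0 (B i) * Z j * B i)‖ < ε := by
  let Y : Fin (m + 1) → P := Fin.cons 1 Z
  let K : Set (Fin (m + 1) → ℂ) := {x | ∃ (r : ℕ) (B : Fin r → P),
    (∀ i, B i ∈ N.loc (Ot (max R 0))) ∧ ∀ j, x j = ∑ i, S (N.Θ 0 (B i) * Y j * B i)}
  have k1 : ∀ t : ℝ, 0 ≤ t → ∀ x ∈ K, t • x ∈ K := fun t ht x ⟨r, B, a, b⟩ =>
    ⟨r, fun i => (√t : ℂ) • B i, fun i => Submodule.smul_mem _ _ (a i), fun j => by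
      simp only [N.Θ_smul, smul_mul_assoc, mul_smul_comm, map_smul, smul_eq_mul, ← mul_assoc,
        Complex.conj_ofReal, ← Complex.ofReal_mul, Real.mul_self_sqrt ht, ← Finset.mul_sum, ← b,
        Pi.smul_apply, Complex.real_smul]⟩
  have k2 : Convex ℝ K := fun x hx y hy s t hs ht _ => by
    obtain ⟨r, B, a, b⟩ := k1 s hs x hx
    obtain ⟨r', B', a', b'⟩ := k1 t ht y hy
    exact ⟨_, Fin.append B B', Fin.addCases (by simpa using a) (by simpa using a'), fun j => by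
      simp only [Fin.sum_univ_add, Fin.append_left, Fin.append_right, ← b, ← b', Pi.add_apply]⟩
  have k3 : (fun j => S' (Y j)) ∈ closure K := by
    by_contra hh
    obtain ⟨f, u, a, b⟩ := RCLike.geometric_hahn_banach_point_closed (𝕜 := ℂ) k2.closure
      isClosed_closure hh
    have e : ∀ x, f x = ∑ j, f (Pi.single j 1) * x j := fun x => by
      conv_lhs => rw [pi_eq_sum_univ' x]
      simp [mul_comm]
    have u0 : u < 0 := by simpa using b 0 (subset_closure ⟨0, ![], nofun, by simp⟩)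
    refine absurd (h 0 _ (fun j => f (Pi.single j 1) • Y j) 0 0 (max R 0) (fun j =>
      Submodule.smul_mem _ _ (Fin.cases (N.one _) hZ j)) fun B hB => ?_) ?_
    · have c : ∀ t : ℝ, 0 ≤ t → u < t * (f fun j => S (N.Θ 0 B * Y j * B)).re := fun t ht => by
        simpa using b _ (subset_closure (k1 t ht _ ⟨1, ![B], by simpa using hB, by simp⟩))
      simp only [Pi.zero_apply, N.τ_zero, smul_mul_assoc, mul_smul_comm, map_smul, smul_eq_mul, ← e]
      by_contra hn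
      rw [not_le] at hn
      exact (c _ (div_pos_of_neg_of_neg u0 hn).le).ne (div_mul_cancel₀ _ hn.ne).symm
    · simp only [map_smul, smul_eq_mul, ← e, not_le]
      exact a.trans u0
  have y0 : S' (Y 0) = 1 := h1
  have k4 : ∀ᶠ x in 𝓝 fun j => S' (Y j), x 0 ≠ 0 ∧ dist (fun j => S' (Y j)) ((x 0)⁻¹ • x) < ε :=
    ((continuousAt_apply 0 _).eventually_ne (by simp [y0])).and
      (ContinuousAt.eventually_lt (continuousAt_const.dist (((continuousAt_apply 0 _).inv₀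
        (by simp [y0])).smul continuousAt_id)) continuousAt_const (by simpa [y0]))
  obtain ⟨x, hx, x0, x1⟩ := ((mem_closure_iff_frequently.1 k3).and_eventually k4).exists
  obtain ⟨t, ht, e⟩ : ∃ t : ℝ, 0 ≤ t ∧ x 0 = t := by
    obtain ⟨r, B, a, b⟩ := hx
    have c := fun i => N.mono (a i) (Ot.hs 0 (le_max_right _ _))
    refine ⟨_, Finset.sum_nonneg (s := .univ) fun i _ => hS.pos 0 (c i), ?_⟩
    rw [b, Complex.ofReal_sum]
    refine Finset.sum_congr rfl fun i _ => ?_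
    rw [show Y 0 = 1 from rfl, mul_one]
    refine (Complex.conj_eq_iff_re.1 ?_).symm
    rw [← hS.herm 0 (Net.rp_adm (c i) (c i)), map_mul, N.Θ_Θ, mul_comm]
  obtain ⟨r, B, a, b⟩ := k1 _ (inv_nonneg.2 ht) x hx
  rw [show t⁻¹ • x = (x 0)⁻¹ • x by rw [e, ← Complex.ofReal_inv, Complex.coe_smul]] at b
  refine ⟨r, B, fun i => N.mono (a i) (Ot.mono (le_max_left _ _)), ?_, fun j => ?_⟩
  · simpa [x0, Y] using (b 0).symm
  · rw [← dist_eq_norm, ← show _ = ∑ i, S (N.Θ 0 (B i) * Z j * B i) from b j.succ]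
    exact (dist_le_pi_dist _ _ j.succ).trans_lt x1

end Pool.Agent.Lib.MP_7f377f_mp.Pur
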