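import Pool.Agent.Lib.MP_7f377f_mp.RGHol1
import Pool.Agent.Lib.MP_7f377f_mp.RGHol2
import Pool.Agent.Lib.MP_7f377f_mp.RGAp1

/-! Extraction of the quadratic part of a local term. -/

noncomputable section

namespace Pool.Agent.Lib.MP_7f377f_mp.RG

open Finset MeasureTheory Filter
open scoped Quaternion Topology

namespace Ho

/-- quaternion with given coordinates -/
def mq (a b c d : ℝ) : ℍ := ⟨a, b, c, d⟩

@[simp] theorem mq_re (a b c d : ℝ) : (mq a b c d).re = a := rfl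
@[simp] theorem mq_imI (a b c d : ℝ) : (mq a b c d).imI = b := rfl
@[simp] theorem mq_imJ (a b c d : ℝ) : (mq a b c d).imJ = c := rfl
@[simp] theorem mq_imK (a b c d : ℝ) : (mq a b c d).imK = d := rfl

/-- unit quaternion with given coordinates -/
def mkS (a b c d : ℝ) (h : a ^ 2 + b ^ 2 + c ^ 2 + d ^ 2 = 1) : S3 :=
  (⟨mq a b c d, mem_sphere_zero_iff_norm.2 (by
    rw [← sq_eq_sq₀ (norm_nonneg _) zero_le_one, norm_q_sq, one_pow]
    exact h)⟩ : Metric.sphere (0 : ℍ) 1)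

theorem cS_mkS (a b c d : ℝ) (h : a ^ 2 + b ^ 2 + c ^ 2 + d ^ 2 = 1) :
    cS (mkS a b c d h) = cq (mq a b c d) := rfl

/-- the imaginary units -/
def qu : Fin 3 → S3 := ![mkS 0 1 0 0 (by norm_num), mkS 0 0 1 0 (by norm_num),
  mkS 0 0 0 1 (by norm_num)]

def qc : S3 := mkS 2⁻¹ 2⁻¹ 2⁻¹ 2⁻¹ (by norm_num)

theorem adq_qu (i : Fin 3) (b : C3) (j : Fin 3) :
    adq (cS (qu i)) b j = if j = i then b j else -b j := by
  fin_cases i <;> fin_cases j <;> simp [qu, cS_mkS, adq]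

theorem adq_qc (b : C3) : adq (cS qc) b = ![b 2, b 0, b 1] := by
  refine c3_ext ?_ ?_ ?_ <;> simp [qc, cS_mkS, adq] <;> ring

/-- a scalar field in the colour direction `j` -/
def em (j : Fin 3) (a : V) : Fld := fun e => Pi.single j (a e : ℂ)

theorem em_add (j : Fin 3) (a b : V) : em j (a + b) = em j a + em j b := by
  funext e; simp [em, Pi.single_add]

theorem em_smul (j : Fin 3) (c : ℝ) (a : V) : em j (c • a) = (c : ℂ) • em j a := by
  funext e k; by_cases h : k = j <;> simp [em, h]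

theorem dd_em (j : Fin 3) (a : V) (x : St) (μ ν : Fin 4) :
    dd (em j a) x μ ν = Pi.single j ((dd a x μ ν : ℝ) : ℂ) := by
  funext k; by_cases h : k = j <;> simp [em, dd, h]

theorem cv_em (j : Fin 3) {R : ℕ} {δ : ℝ} {a : V} (h : Cv R δ a) : Cv R δ (em j a) :=
  fun x hx μ ν => by
    rw [dd_em, Pi.norm_single, Complex.norm_real]
    exact h x hx μ ν

theorem real_em (j : Fin 3) (a : V) : RealF (em j a) := fun e k => by
  by_cases h : k = j <;> simp [em, h]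

theorem sum_em (A : Fld) : A = ∑ j, (em j (reF A j) + Complex.I • em j (imF A j)) := by
  funext e k
  simp only [Finset.sum_apply, Pi.add_apply, Pi.smul_apply, em, reF, imF, smul_eq_mul]
  rw [sum_eq_single k (fun j _ h => by simp [Pi.single_eq_of_ne h.symm]) (by simp)]
  simp [mul_comm Complex.I]

theorem ad_em_self (j : Fin 3) (a : V) : adF (fun _ => cS (qu j)) (em j a) = em j a := by
  funext e k; by_cases h : k = j <;> simp [adF, adq_qu, em, h]

theorem ad_em_ne {i j : Fin 3} (hij : i ≠ j) (a : V) :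
    adF (fun _ => cS (qu i)) (em j a) = -em j a := by
  funext e k
  by_cases h : k = i
  · simp [adF, adq_qu, em, h, hij]
  · simp [adF, adq_qu, em, h]

theorem ad_em_c0 (a : V) : adF (fun _ => cS qc) (em 0 a) = em 1 a := by
  funext e; refine c3_ext ?_ ?_ ?_ <;> simp [adF, adq_qc, em]

theorem ad_em_c1 (a : V) : adF (fun _ => cS qc) (em 1 a) = em 2 a := by
  funext e; refine c3_ext ?_ ?_ ?_ <;> simp [adF, adq_qc, em]

theorem adF_add (h : St → Hc) (A B : Fld) : adF h (A + B) = adF h A + adF h B := by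
  funext e; simp [adF, adq_add]

theorem adF_smul (h : St → Hc) (c : ℂ) (A : Fld) : adF h (c • A) = c • adF h A := by
  funext e; simp [adF, adq_smul]

theorem sum_ad (B : Fld) : B + adF (fun _ => cS (qu 0)) B +
    (adF (fun _ => cS (qu 1)) B + adF (fun _ => cS (qu 2)) B) = 0 := by
  funext e; refine c3_ext ?_ ?_ ?_ <;> simp [adF, adq_qu]

theorem lin_eq_sum {F : Type} [AddCommGroup F] [Module ℂ F] (L : Fld →ₗ[ℂ] F) (s : Finset Lk)
    (h : ∀ v, (∀ e ∈ s, v e = 0) → L v = 0) (A : Fld) :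
    L A = ∑ e ∈ s, ∑ j, A e j • L (Pi.single e (Pi.single j 1)) := by
  have := h (A - ∑ e ∈ s, ∑ j, A e j • Pi.single e (Pi.single j 1)) fun e he => by
    funext k
    simp only [Pi.sub_apply, Finset.sum_apply, Pi.smul_apply, Pi.zero_apply]
    rw [sum_eq_single e (fun e' _ h' => by simp [Pi.single_eq_of_ne h'.symm]) (by simp [he])]
    simp [Pi.single_apply]
  rw [map_sub, sub_eq_zero] at this
  simp only [this, map_sum, map_smul]

theorem dd_eq_zero {W : Type} [AddCommGroup W] {R : ℕ} {v : Lk → W}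
    (h : ∀ e ∈ lbox (R + 1), v e = 0) {x : St} (hx : x ∈ box R) (μ ν : Fin 4) : dd v x μ ν = 0 := by
  have h0 : ∀ μ, v (x, μ) = 0 := fun μ => h _ (Li.mem_lbox.2 (Li.box_mono (Nat.le_succ R) hx))
  have h1 : ∀ μ ν, v (x + un μ, ν) = 0 := fun μ ν =>
    h _ (Li.mem_lbox.2 (Li.add_mem_box hx (Li.un_mem_box le_rfl μ)))
  simp [dd, h0, h1]

variable {R : ℕ} {ρ κ : ℝ} {φ : Fld → ℂ}

theorem hall (hρ : 0 < ρ) (B : Fld) : ∃ θ, B ∈ (dom R ρ hρ).D θ :=
  let ⟨_, h⟩ := cv_exists R B; ⟨_, mem_dom hρ h⟩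

theorem lin_zero (h : Tm R ρ κ φ) (hρ : 0 < ρ) (B : Fld) :
    deriv (fun t : ℂ => φ (t • B)) 0 = 0 := by
  obtain ⟨a, a0, h0, h1⟩ := Kit.Dom.common (hall (R := R) hρ) B (adF (fun _ => cS (qu 0)) B)
  obtain ⟨b, b0, h2, h3⟩ := Kit.Dom.common (hall (R := R) hρ) (adF (fun _ => cS (qu 1)) B)
    (adF (fun _ => cS (qu 2)) B)
  have m := fun B => (dom R ρ hρ).mono (θ := a) (θ' := a + b) (B := B) (by linarith)
  have m' := fun B => (dom R ρ hρ).mono (θ := b) (θ' := a + b) (B := B) (by linarith)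
  exact (lh h hρ).deriv_zero (bd_dom h hρ) (m _ h0) (m _ h1) (m' _ h2) (m' _ h3)
    (fun t => by rw [← adF_smul, h.ad]) (fun t => by rw [← adF_smul, h.ad])
    (fun t => by rw [← adF_smul, h.ad]) (sum_ad B) (Kit.Dom.zero h0 le_rfl)

theorem d2_congr {A B : Fld} (e : ∀ t : ℂ, φ (t • A) = φ (t • B)) :
    Kit.Dom.d2 φ A A = Kit.Dom.d2 φ B B := by simp only [Kit.Dom.d2_self, e]

theorem d2_real (h : Tm R ρ κ φ) (hρ : 0 < ρ) {B : Fld} (hB : RealF B) :
    (Kit.Dom.d2 φ B B / 2).im = 0 := by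
  obtain ⟨θ, θ0, h0, -⟩ := Kit.Dom.common (hall (R := R) hρ) B B
  rw [← abs_nonpos_iff]
  refine le_of_forall_pos_le_add fun ε hε => ?_
  have h1 := ((lh h hρ).taylor h.zero h0 θ0 (lin_zero h hρ B)).bound hε
  have h2 : Tendsto (fun t : ℝ => (t : ℂ)) (𝓝[>] 0) (𝓝 0) :=
    (Complex.continuous_ofReal.tendsto' 0 0 rfl).mono_left nhdsWithin_le_nhds
  obtain ⟨t, h3, h4⟩ := ((h2.eventually h1).and self_mem_nhdsWithin).exists
  have t0 : 0 < t := h4
  have h5 := (Complex.abs_im_le_norm _).trans h3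
  have h6 : (φ ((t : ℂ) • B)).im = 0 := h.real _ fun e k => by simp [hB e k]
  rw [Complex.sub_im, h6, zero_sub, abs_neg, ← Complex.ofReal_pow, Complex.im_ofReal_mul, abs_mul,
    abs_of_pos (by positivity), norm_pow, norm_norm, Complex.norm_real, Real.norm_eq_abs,
    sq_abs] at h5
  rw [zero_add]
  exact le_of_mul_le_mul_left (h5.trans_eq (mul_comm _ _)) (by positivity)

/-- the symmetric second derivative -/
theorem exists_sigma (h : Tm R ρ κ φ) (hρ : 0 < ρ) : ∃ σ : Fld →ₗ[ℂ] Fld →ₗ[ℂ] ℂ,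
    (∀ v w, σ v w = σ w v) ∧ ∀ B, σ B B = Kit.Dom.d2 φ B B / 2 := by
  obtain ⟨β, hβ⟩ := (lh h hρ).bilin (bd_dom h hρ) (hall hρ)
  refine ⟨(4⁻¹ : ℂ) • (β + β.flip), fun v w => by simp [add_comm], fun B => ?_⟩
  simp [hβ]; ring

end Ho

open Ho

theorem Tm.extract {R : ℕ} {ρ κ : ℝ} {φ : Fld → ℂ} (h : Tm R ρ κ φ) (hρ : 0 < ρ) :
    ∃ k : BF, (∀ a b, k a b = k b a) ∧ (∀ u b, k (gr u) b = 0) ∧ Rng (R + 1) (R + 1) k ∧
      (∀ a δ, Cv R δ a → |k a a| ≤ κ / ρ ^ 2 * δ ^ 2) ∧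
      Tm R ρ (10 * κ) (fun B => φ B - cx k B B) ∧
      ∀ B δ, Cv R δ B → δ ≤ ρ → ‖φ B - cx k B B‖ ≤ 10 * κ * (δ / ρ) ^ 3 := by
  obtain ⟨σ, sy, hσ⟩ := exists_sigma h hρ
  have κ0 := h.nonneg hρ.le
  have pol : ∀ v w, σ v w = (σ (v + w) (v + w) - σ v v - σ w w) / 2 := fun v w => by
    simp only [map_add, LinearMap.add_apply, sy w v]; ring
  have qloc : ∀ A B, (∀ x ∈ box R, ∀ μ ν, dd A x μ ν = dd B x μ ν) → σ A A = σ B B :=
    fun A B e => by
      rw [hσ, hσ, d2_congr (A := A) (B := B) fun t => h.loc _ _ fun x hx μ ν => by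
        rw [dd_smul, dd_smul, e x hx]]
  have qad : ∀ (g : S3) B, σ (adF (fun _ => cS g) B) (adF (fun _ => cS g) B) = σ B B :=
    fun g B => by rw [hσ, hσ, d2_congr (B := B) fun t => by rw [← adF_smul, h.ad]]
  have sad : ∀ (g : S3) v w, σ (adF (fun _ => cS g) v) (adF (fun _ => cS g) w) = σ v w :=
    fun g v w => by rw [pol, ← adF_add, qad, qad, qad, ← pol]
  have null : ∀ v w, (∀ x ∈ box R, ∀ μ ν, dd v x μ ν = 0) → σ v w = 0 := fun v w e => by
    rw [pol, qloc (v + w) w fun x hx μ ν => by rw [dd_add, e x hx, zero_add],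
      qloc v 0 fun x hx μ ν => by rw [e x hx, dd_zero]]
    simp
  have qre : ∀ B, RealF B → (σ B B).im = 0 := fun B hB => by rw [hσ, d2_real h hρ hB]
  have sre : ∀ a b, (σ (em 0 a) (em 0 b)).im = 0 := fun a b => by
    rw [pol, ← em_add]
    simp [qre _ (real_em _ _)]
  have qbd : ∀ B δ, Cv R δ B → ‖σ B B‖ ≤ κ * (δ / ρ) ^ 2 := fun B δ hB => by
    rcases (cv_nonneg hB).eq_or_lt with rfl | δ0
    · rw [null B B fun x hx μ ν => norm_le_zero_iff.1 (hB x hx μ ν)]; simp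
    · rw [hσ]
      exact (lh h hρ).d2_le (bd_dom h hρ) h.zero (lin_zero h hρ) (mem_dom hρ hB) (by positivity)
  let k : BF := LinearMap.mk₂ ℝ (fun a b => (σ (em 0 a) (em 0 b)).re)
    (fun a b c => by simp [em_add]) (fun a b c => by simp [em_smul])
    (fun a b c => by simp [em_add]) (fun a b c => by simp [em_smul])
  have hk : ∀ a b, k a b = (σ (em 0 a) (em 0 b)).re := fun _ _ => rfl
  have k0 : ∀ a b, σ (em 0 a) (em 0 b) = k a b := fun a b =>
    Complex.ext (by simp [hk]) (by simp [sre])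
  have k1 : ∀ a b, σ (em 1 a) (em 1 b) = k a b := fun a b => by
    rw [← ad_em_c0, ← ad_em_c0, sad, k0]
  have k2 : ∀ a b, σ (em 2 a) (em 2 b) = k a b := fun a b => by
    rw [← ad_em_c1, ← ad_em_c1, sad, k1]
  have kj : ∀ j a b, σ (em j a) (em j b) = k a b := fun j => by
    fin_cases j
    exacts [k0, k1, k2]
  have kn : ∀ i j a b, i ≠ j → σ (em i a) (em j b) = 0 := fun i j a b hij => by
    have := sad (qu i) (em i a) (em j b)
    rw [ad_em_self, ad_em_ne hij, map_neg] at this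
    linear_combination (-2⁻¹ : ℂ) * this
  have hcx : ∀ A B, cx k A B = σ A B := fun A B => by
    conv_rhs => rw [sum_em A, sum_em B]
    simp only [map_sum, LinearMap.sum_apply, cx]
    refine sum_congr rfl fun j _ => ?_
    rw [sum_eq_single j (fun i _ hi => by simp [kn _ _ _ _ hi]) (by simp)]
    simp only [map_add, map_smul, LinearMap.add_apply, LinearMap.smul_apply, kj, smul_eq_mul]
    push_cast
    linear_combination (-(k (imF A j) (imF B j) : ℂ)) * Complex.I_mul_I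
  have cub : ∀ B δ, Cv R δ B → δ ≤ ρ → ‖φ B - σ B B‖ ≤ 2 * κ * (δ / ρ) ^ 3 := fun B δ hB hδ => by
    rcases (cv_nonneg hB).eq_or_lt with rfl | δ0
    · have e : ∀ x ∈ box R, ∀ μ ν, dd B x μ ν = 0 := fun x hx μ ν =>
        norm_le_zero_iff.1 (hB x hx μ ν)
      rw [null B B e, h.loc B 0 fun x hx μ ν => by rw [e x hx, dd_zero], h.zero]; simp
    · rw [hσ]
      exact (lh h hρ).cubic (bd_dom h hρ) h.zero (lin_zero h hρ) (mem_dom hρ hB) (by positivity)
        ((div_le_one hρ).2 hδ)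
  suffices H : (∀ a b, k a b = k b a) ∧ (∀ u b, k (gr u) b = 0) ∧ Rng (R + 1) (R + 1) k ∧
      (∀ a δ, Cv R δ a → |k a a| ≤ κ / ρ ^ 2 * δ ^ 2) ∧
      Tm R ρ (10 * κ) (fun B => φ B - σ B B) ∧
      ∀ B δ, Cv R δ B → δ ≤ ρ → ‖φ B - σ B B‖ ≤ 10 * κ * (δ / ρ) ^ 3 from
    ⟨k, by simpa only [hcx] using H⟩
  refine ⟨fun a b => by rw [hk, hk, sy], fun u b => ?_, fun a b e => ?_, fun a δ ha => ?_,
    ⟨fun A B e => by rw [h.loc A B e, qloc A B e], fun Ω γ hΩ hγ hc => (h.hol Ω γ hΩ hγ hc).sub ?_,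
      fun B hB => (cub B ρ hB le_rfl).trans ?_, by simp [h.zero], fun g B => by rw [h.ad, qad],
      fun B hB => by simp [h.real B hB, qre B hB]⟩, fun B δ hB hδ => (cub B δ hB hδ).trans ?_⟩
  · rw [hk, null _ _ fun x _ μ ν => by rw [dd_em, Li.dd_gr]; simp]; simp
  · rcases e with e | e
    · rw [hk, null _ _ fun x hx μ ν => by rw [dd_em, dd_eq_zero e hx]; simp]; simp
    · rw [hk, sy, null _ _ fun x hx μ ν => by rw [dd_em, dd_eq_zero e hx]; simp]; simp
  · refine ((Complex.abs_re_le_norm _).trans (qbd _ δ (cv_em 0 ha))).trans_eq ?_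
    field_simp
  · have n1 : ∀ v w, (∀ e ∈ lbox (R + 1), v e = 0) → σ v w = 0 := fun v w e =>
      null v w fun x hx μ ν => dd_eq_zero e hx μ ν
    have e1 : ∀ A, σ A A = ∑ e ∈ lbox (R + 1), ∑ j, A e j • ∑ e' ∈ lbox (R + 1), ∑ j', A e' j' •
        σ (Pi.single e (Pi.single j 1)) (Pi.single e' (Pi.single j' 1)) := fun A => by
      rw [lin_eq_sum σ (lbox (R + 1)) (fun v e => LinearMap.ext fun w => n1 v w e) A]
      simp only [LinearMap.sum_apply, LinearMap.smul_apply]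
      refine sum_congr rfl fun e _ => sum_congr rfl fun j _ => ?_
      rw [lin_eq_sum (σ _) (lbox (R + 1)) (fun v e => by rw [sy, n1 v _ e]) A]
    have hd : ∀ e j, DifferentiableOn ℂ (fun t => γ t e j) Ω := fun e j =>
      differentiableOn_pi.1 (hγ e) j
    simp only [e1, smul_eq_mul]
    fun_prop
  · rw [div_self hρ.ne']; linarith
  · have := cv_nonneg hB
    gcongr
    norm_num

end Pool.Agent.Lib.MP_7f377f_mp.RG
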