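import Pool.Agent.Lib.MP_7f377f_mp.Q4AfA

/-! Tori with vector periods, abelian fields, uniqueness of Taylor matrices. -/

noncomputable section

namespace Pool.Agent.Lib.MP_7f377f_mp.RG.Q4

open Finset Matrix Filter Asymptotics
open scoped Quaternion Topology

section torus
variable {N : Fin 4 → ℕ}

theorem cs_add (x y : St) : cs N (x + y) = cs N x + cs N y := by
  funext i; simp [cs]

theorem cs_sub (x y : St) : cs N (x - y) = cs N x - cs N y := by
  funext i; simp [cs]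

@[simp] theorem cs_zero : cs N 0 = 0 := by funext i; simp [cs]

theorem cs_un (μ : Fin 4) : cs N (un μ) = Pi.single μ 1 := by
  funext i
  by_cases h : i = μ
  · subst h; simp [cs]
  · simp [cs, un_ne h, Pi.single_eq_of_ne h]

theorem cs_add_un (x : St) (μ : Fin 4) : cs N (x + un μ) = cs N x + Pi.single μ 1 := by
  rw [cs_add, cs_un]

theorem cs_period (μ : Fin 4) : cs N ((N μ : ℤ) • un μ) = 0 := by
  funext i
  by_cases h : i = μ
  · subst h; simp [cs]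
  · simp [cs, un_ne h]

@[simp] theorem cs_lf [∀ i, NeZero (N i)] (x : TS N) : cs N (lf x) = x := by
  funext i; simp [cs, lf]

@[simp] theorem lf_zero : lf (0 : TS N) = 0 := by funext i; simp [lf]

theorem PV.zsmul {α : Type} {U : Lk → α} (h : PV N U) (μ : Fin 4) (k : ℤ) :
    sh ((k * N μ) • un μ) U = U := by
  induction k using Int.induction_on with
  | zero => simp
  | succ k ih => rw [add_mul, one_mul, add_smul, ← sh_sh, h μ, ih]
  | pred k ih =>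
    have := congrArg (sh (((-(k : ℤ) - 1) * N μ) • un μ)) (h μ)
    rw [sh_sh, ← add_smul] at this
    rw [← this, ← ih]
    congr 2
    ring

theorem PV.sh_eq {α : Type} {U : Lk → α} (h : PV N U) {x y : St} (e : cs N x = cs N y) :
    sh x U = sh y U := by
  have : ∀ i, ∃ k : ℤ, x i = y i + k * N i := fun i => by
    obtain ⟨k, hk⟩ := (ZMod.intCast_eq_intCast_iff_dvd_sub _ _ _).1 (congrFun e i).symm
    exact ⟨k, by linarith⟩
  choose k hk using this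
  have hx : x = y + (k 0 * N 0) • un 0 + (k 1 * N 1) • un 1 + (k 2 * N 2) • un 2 +
      (k 3 * N 3) • un 3 := by
    funext i
    fin_cases i <;> simp [hk, un_apply]
  rw [hx, ← sh_sh, h.zsmul, ← sh_sh, h.zsmul, ← sh_sh, h.zsmul, ← sh_sh, h.zsmul]

theorem PV.apply_eq {α : Type} {U : Lk → α} (h : PV N U) {x y : St} (e : cs N x = cs N y)
    (μ : Fin 4) : U (x, μ) = U (y, μ) := by
  simpa using congrFun (h.sh_eq e) (0, μ)

theorem PV.lf_cs [∀ i, NeZero (N i)] {α : Type} {U : Lk → α} (h : PV N U) (e : Lk) :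
    U (lf (cs N e.1), e.2) = U e := h.apply_eq (cs_lf _) _

theorem PV.sh {α : Type} {U : Lk → α} (h : PV N U) (x : St) : PV N (sh x U) := fun μ => by
  rw [sh_sh, add_comm, ← sh_sh, h μ]

theorem PV.map {α β : Type} {U : Lk → α} (h : PV N U) (f : α → β) : PV N fun e => f (U e) :=
  fun μ => funext fun e => congrArg f (congrFun (h μ) e)

theorem PV.map₂ {α β γ : Type} {U : Lk → α} {U' : Lk → β} (h : PV N U) (h' : PV N U')
    (f : α → β → γ) : PV N fun e => f (U e) (U' e) :=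
  fun μ => funext fun e => congrArg₂ f (congrFun (h μ) e) (congrFun (h' μ) e)

theorem pv_of_cs {α : Type} (g : TS N → Fin 4 → α) : PV N fun e => g (cs N e.1) e.2 := fun μ => by
  funext e; simp only [sh_apply, cs_add, cs_period, add_zero]

theorem pv_pf (a : IL N → ℝ) : PV N (pf a) := pv_of_cs fun x μ k => (a ((x, μ), k) : ℂ)

theorem pf_real (a : IL N → ℝ) : RealF (pf a) := fun _ _ => Complex.ofReal_im _

theorem pf_add (a b : IL N → ℝ) : pf (a + b) = pf a + pf b := by funext e k; simp [pf]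

theorem pf_smul (c : ℝ) (a : IL N → ℝ) : pf (c • a) = (c : ℂ) • pf a := by funext e k; simp [pf]

@[simp] theorem pf_zero : pf (0 : IL N → ℝ) = 0 := by funext e k; simp [pf]

theorem norm_pf [∀ i, NeZero (N i)] (a : IL N → ℝ) (e : Lk) : ‖pf a e‖ ≤ ‖a‖ :=
  (pi_norm_le_iff_of_nonneg (norm_nonneg _)).2 fun k => by
    simpa [pf] using norm_le_pi_norm a ((cs N e.1, e.2), k)

theorem sum_shift [∀ i, NeZero (N i)] {M : Type} [AddCommMonoid M] {g : St → M}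
    (hg : ∀ x y, cs N x = cs N y → g x = g y) (v : St) :
    ∑ x : TS N, g (lf x + v) = ∑ x : TS N, g (lf x) :=
  Fintype.sum_equiv (Equiv.addRight (cs N v)) _ _ fun x => hg _ _ (by simp [cs_add])

end torus

section abelian

theorem q_eA (θ : Real.Angle) : (eA θ).q = Ho.mq θ.cos θ.sin 0 0 := rfl

theorem cS_eA (θ : Real.Angle) : cS (eA θ) = cq (Ho.mq θ.cos θ.sin 0 0) := rfl

theorem eA_add (θ φ : Real.Angle) : eA (θ + φ) = eA θ * eA φ := S3.ext (by
  rw [S3.q_mul]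
  ext <;> simp [q_eA, Real.Angle.cos_add, Real.Angle.sin_add]; ring)

@[simp] theorem eA_zero : eA 0 = 1 := S3.ext (by rw [S3.q_one]; ext <;> simp [q_eA])

theorem eA_neg (θ : Real.Angle) : eA (-θ) = (eA θ)⁻¹ :=
  eq_inv_of_mul_eq_one_left (by rw [← eA_add]; simp)

theorem eA_sub (θ φ : Real.Angle) : eA (θ - φ) = eA θ * (eA φ)⁻¹ := by
  rw [sub_eq_add_neg, eA_add, eA_neg]

theorem adq_eA (θ : Real.Angle) (b : C3) : adq (cS (eA θ)) b =
    ![b 0, ((θ + θ).cos : ℂ) * b 1 - ((θ + θ).sin : ℂ) * b 2,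
      ((θ + θ).sin : ℂ) * b 1 + ((θ + θ).cos : ℂ) * b 2] := by
  have h : (θ.cos : ℂ) ^ 2 + (θ.sin : ℂ) ^ 2 = 1 := by exact_mod_cast θ.cos_sq_add_sin_sq
  refine c3_ext ?_ ?_ ?_ <;>
    simp [cS_eA, adq, Real.Angle.cos_add, Real.Angle.sin_add]
  · linear_combination (b 0) * h
  · ring
  · ring

theorem Rm_eA (θ : Real.Angle) : Rm (eA θ) =
    !![1, 0, 0; 0, (θ + θ).cos, -(θ + θ).sin; 0, (θ + θ).sin, (θ + θ).cos] := by
  ext i j
  fin_cases i <;> fin_cases j <;> simp [Rm, adq_eA]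

theorem Rm_mulVec (g : S3) (v : Fin 3 → ℝ) (k : Fin 3) :
    (((Rm g *ᵥ v) k : ℝ) : ℂ) = adq (cS g) (fun j => (v j : ℂ)) k := by
  have h : (fun j => (v j : ℂ)) = ∑ j, (v j : ℂ) • (Pi.single j 1 : C3) := by
    funext i; simp [Finset.sum_apply, Pi.single_apply]
  rw [h, adq_sum]
  simp only [adq_smul, Finset.sum_apply, Pi.smul_apply, smul_eq_mul, mulVec, dotProduct, Rm,
    of_apply, Complex.ofReal_sum, Complex.ofReal_mul]
  refine sum_congr rfl fun j _ => ?_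
  rw [mul_comm]
  congr 1
  refine Complex.ext (by simp) ?_
  rw [Complex.ofReal_im, cS, adq_real]
  intro k; by_cases h : k = j <;> simp [h]

theorem ex_neutral (s : ℝ) : ex ![(s : ℂ), 0, 0] = cS (eA (Real.arctan s : ℝ)) := by
  have h : (![(s : ℂ), 0, 0] : C3) = cE !₂[s, 0, 0] := c3_ext (by simp [cE]) (by simp [cE]) (by simp [cE])
  have h2 : ‖(!₂[s, 0, 0] : E3)‖ ^ 2 = s ^ 2 := by
    simp [EuclideanSpace.norm_sq_eq, Fin.sum_univ_three]
  rw [h, ex_cE, h2, cS_eA]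
  ext <;> simp [cE, Real.cos_arctan, Real.sin_arctan, div_eq_inv_mul]

theorem ch_eA (θ : ℝ) : ch (cS (eA θ)) = ![(Real.tan θ : ℂ), 0, 0] := by
  refine c3_ext ?_ ?_ ?_ <;> simp [cS_eA, ch, Real.tan_eq_sin_div_cos, div_eq_inv_mul]

theorem cmb_ab (θ : Lk → Real.Angle) (x : St) : cmb Inv.inv (ab θ) x = eA (lam θ x) := by
  refine site_ind (P := fun x => cmb Inv.inv (ab θ) x = eA (lam θ x)) (by simp)
    (fun p ν h h0 ih => ?_) (fun p ν h h0 ih => ?_) x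
  · rw [cmb_fwd _ _ h h0, ih, lam_tr θ h, eA_add]; rfl
  · rw [cmb_bwd _ _ h h0, ih, lam_tr θ h, eA_add]; simp [ab]

theorem gauge_ab (u : St → Real.Angle) (θ : Lk → Real.Angle) :
    gauge Inv.inv (fun x => eA (u x)) (ab θ) = ab (θ - gr u) := by
  funext e
  simp only [gauge, ab, ← eA_neg, ← eA_add, Pi.sub_apply, gr]
  congr 1; abel

theorem fix_ab (θ : Lk → Real.Angle) : gauge Inv.inv (cmb Inv.inv (ab θ)) (ab θ) = ab (cg θ) := by
  rw [show cmb Inv.inv (ab θ) = fun x => eA (lam θ x) from funext (cmb_ab θ), gauge_ab]; rfl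

theorem hol_ab (θ : Lk → Real.Angle) (x : St) (μ ν : Fin 4) :
    hol Inv.inv (ab θ) x μ ν = eA (dd θ x μ ν) := by
  simp only [hol, ab, ← eA_neg, ← eA_add, dd, sub_eq_add_neg]

theorem lnP_ab (θ : Lk → Real.Angle) (p : St) (μ : Fin 4) (n : ℕ) :
    lnP (ab θ) p μ n = eA (∑ i ∈ range n, θ (p + (i : ℤ) • un μ, μ)) := by
  induction n with
  | zero => simp [lnP]
  | succ n ih => rw [lnP, ih, sum_range_succ, eA_add]; rfl

theorem sh_ab (x : St) (θ : Lk → Real.Angle) : sh x (ab θ) = ab (sh x θ) := rfl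

theorem ab_add (θ φ : Lk → Real.Angle) : ab (θ + φ) = ab θ * ab φ := funext fun _ => eA_add _ _

theorem cC_mul (U U' : Conf) : cC (U * U') = cC U * cC U' := funext fun _ => cS_mul _ _

theorem norm_eA (θ : ℝ) : ‖(eA θ).q - 1‖ ≤ |θ| := by
  rw [← sq_le_sq₀ (norm_nonneg _) (abs_nonneg _), norm_q_sq, sq_abs]
  simp [q_eA]
  nlinarith [Real.one_sub_sq_div_two_le_cos (x := θ), Real.sin_sq_add_cos_sq θ]

/-- fields with the same curvature have the same comb gauge -/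
theorem cg_of_dd {W : Type} [AddCommGroup W] {a b : Lk → W} (h : dd a = dd b) : cg a = cg b := by
  have h0 : ∀ x μ ν, dd (cg (a - b)) x μ ν = 0 := fun x μ ν => by rw [dd_cg, dd_sub, h, sub_self]
  have h1 : ∀ μ x, cg (a - b) (x, μ) = 0 := fun μ x => by
    classical
    obtain ⟨R, hR⟩ : ∃ R, x ∈ box R := ⟨ht x, mem_box.2 fun i => by
      have := single_le_sum (f := fun i => (x i).natAbs) (fun _ _ => Nat.zero_le _) (mem_univ i)
      simp only [ht]; omega⟩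
    have := comb_bound (ε := 0) μ (f := fun x => if cg (a - b) (x, μ) = 0 then 0 else 1)
      (fun x hx => by simp [cg_tr _ hx]) (fun p hp ν h1 h2 => by
        have := h0 p μ ν
        rw [dd, cg_tr _ h2, cg_tr _ (p := p + un μ)
          (fun κ hκ => by simp [h2 κ hκ, un_ne (h1.trans hκ).ne']), add_zero, sub_zero,
          sub_eq_zero] at this
        simp [this]) le_rfl hR
    by_contra hc
    norm_num [hc] at this
  have : cg a = cg (b + (a - b)) := by rw [add_sub_cancel]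
  rw [this, cg_add]
  funext e
  simp [h1 e.2 e.1]

end abelian

section tay
variable {ι : Type} [Fintype ι] {f g : (ι → ℝ) → ℝ} {Q Q' : Matrix ι ι ℝ} {C C' ρ ρ' : ℝ}

theorem le_of_cubic {x C s0 : ℝ} (h0 : 0 < s0) (h : ∀ s, 0 < s → s ≤ s0 → s ^ 2 * x ≤ C * s ^ 3) :
    x ≤ 0 := by
  refine le_of_forall_pos_le_add fun ε hε => ?_
  have hp : 0 < min s0 (ε / (|C| + 1)) := by positivity
  have h1 := h _ hp (min_le_left _ _)
  have h2 : min s0 (ε / (|C| + 1)) * (|C| + 1) ≤ ε :=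
    (le_div_iff₀ (by positivity)).1 (min_le_right _ _)
  generalize min s0 (ε / (|C| + 1)) = s at *
  refine le_of_mul_le_mul_left (a := s ^ 2) (h1.trans ?_) (by positivity)
  nlinarith [mul_le_mul_of_nonneg_left (le_abs_self C) (pow_pos hp 3).le, pow_pos hp 3,
    mul_le_mul_of_nonneg_left h2 (pow_pos hp 2).le]

theorem quad_smul (Q : Matrix ι ι ℝ) (s : ℝ) (a : ι → ℝ) :
    (s • a) ⬝ᵥ Q *ᵥ (s • a) = s ^ 2 * (a ⬝ᵥ Q *ᵥ a) := by
  rw [mulVec_smul, smul_dotProduct, dotProduct_smul, smul_eq_mul, smul_eq_mul]; ring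

theorem quad_comm (h : Q.IsSymm) (a b : ι → ℝ) : a ⬝ᵥ Q *ᵥ b = b ⬝ᵥ Q *ᵥ a := by
  rw [dotProduct_mulVec, ← mulVec_transpose, h.eq, dotProduct_comm]

theorem quad_add (h : Q.IsSymm) (a b : ι → ℝ) :
    (a + b) ⬝ᵥ Q *ᵥ (a + b) = a ⬝ᵥ Q *ᵥ a + 2 * (a ⬝ᵥ Q *ᵥ b) + b ⬝ᵥ Q *ᵥ b := by
  rw [mulVec_add, add_dotProduct, dotProduct_add, dotProduct_add, quad_comm h b a]; ring

theorem quad_bd (Q : Matrix ι ι ℝ) (a b : ι → ℝ) :
    |a ⬝ᵥ Q *ᵥ b| ≤ (∑ i, ∑ j, |Q i j|) * ‖a‖ * ‖b‖ := by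
  simp only [dotProduct, mulVec, mul_sum, sum_mul]
  refine (abs_sum_le_sum_abs _ _).trans (sum_le_sum fun i _ =>
    (abs_sum_le_sum_abs _ _).trans (sum_le_sum fun j _ => ?_))
  rw [abs_mul, abs_mul, mul_left_comm, mul_assoc]
  gcongr
  exacts [norm_le_pi_norm a i, norm_le_pi_norm b j]

theorem kill_of_quad (h : Q.IsSymm) {v : ι → ℝ} (e : ∀ a, (a + v) ⬝ᵥ Q *ᵥ (a + v) = a ⬝ᵥ Q *ᵥ a) :
    Q *ᵥ v = 0 := by
  have h0 := e 0
  simp only [zero_add, mulVec_zero, dotProduct_zero] at h0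
  have h1 := e (Q *ᵥ v)
  rw [quad_add h, h0] at h1
  exact dotProduct_self_eq_zero.1 (by linarith)

theorem symm_ext [DecidableEq ι] (h : Q.IsSymm) (h' : Q'.IsSymm)
    (e : ∀ a, a ⬝ᵥ Q *ᵥ a = a ⬝ᵥ Q' *ᵥ a) : Q = Q' := by
  ext i j
  have := e (Pi.single i 1 + Pi.single j 1)
  rw [quad_add h, quad_add h', e, e (Pi.single j 1)] at this
  simpa using this

theorem Tay.neg (h : Tay f Q C ρ) : Tay (fun a => -f a) (-Q) C ρ :=
  ⟨h.1.neg, fun a δ h1 h2 => by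
    refine le_of_eq_of_le ?_ (h.2 a δ h1 h2)
    rw [← abs_neg, neg_mulVec, dotProduct_neg]; congr 1; ring⟩

theorem Tay.add (h : Tay f Q C ρ) (h' : Tay g Q' C' ρ) :
    Tay (fun a => f a + g a) (Q + Q') (C + C') ρ :=
  ⟨h.1.add h'.1, fun a δ h1 h2 => by
    have := abs_le.1 (h.2 a δ h1 h2)
    have := abs_le.1 (h'.2 a δ h1 h2)
    rw [add_mulVec, dotProduct_add, abs_le]
    constructor <;> linarith⟩

theorem Tay.smul (h : Tay f Q C ρ) {c : ℝ} (hc : 0 ≤ c) :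
    Tay (fun a => c * f a) (c • Q) (c * C) ρ :=
  ⟨h.1.smul c, fun a δ h1 h2 => by
    rw [smul_mulVec, dotProduct_smul, smul_eq_mul, ← mul_sub, ← mul_sub, abs_mul, abs_of_nonneg hc,
      mul_assoc]
    exact mul_le_mul_of_nonneg_left (h.2 a δ h1 h2) hc⟩

theorem Tay.mono (h : Tay f Q C ρ) (hC : C ≤ C') (hρ : ρ' ≤ ρ) : Tay f Q C' ρ' :=
  ⟨h.1, fun a δ h1 h2 => (h.2 a δ h1 (h2.trans hρ)).trans
    (mul_le_mul_of_nonneg_right hC (pow_nonneg ((norm_nonneg _).trans h1) _))⟩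

theorem Tay.congr (h : Tay f Q C ρ) (e : ∀ a, ‖a‖ ≤ ρ → g a = f a) : Tay g Q C ρ :=
  ⟨h.1, fun a δ h1 h2 => by
    rw [e a (h1.trans h2), e 0 (by rw [norm_zero]; linarith [norm_nonneg a])]
    exact h.2 a δ h1 h2⟩

theorem Tay.nonneg (h : Tay f Q C ρ) (h0 : 0 < ρ) : 0 ≤ C :=
  nonneg_of_mul_nonneg_left ((abs_nonneg _).trans (h.2 0 ρ (by simpa using h0.le) le_rfl))
    (pow_pos h0 3)

/-- upper bounds for the quadratic part from values on curves -/
theorem Tay.le_of (h : Tay f Q C ρ) (h0 : 0 < ρ) {a : ι → ℝ} {y K s0 : ℝ} (s0p : 0 < s0)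
    (H : ∀ s, 0 < s → s ≤ s0 → ∃ b, ‖b - s • a‖ ≤ K * s ^ 2 ∧ f b - f 0 ≤ s ^ 2 * y + K * s ^ 3) :
    a ⬝ᵥ Q *ᵥ a ≤ y := by
  have K0 : 0 ≤ K := by
    obtain ⟨b, hb, -⟩ := H s0 s0p le_rfl
    exact nonneg_of_mul_nonneg_left ((norm_nonneg _).trans hb) (pow_pos s0p 2)
  have C0 := h.nonneg h0
  set q := ∑ i, ∑ j, |Q i j|
  have q0 : 0 ≤ q := by positivity
  set A := ‖a‖ + K + 1 with hA
  have a0 := norm_nonneg a
  have A0 : 0 < A := by positivity
  rw [← sub_nonpos]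
  refine le_of_cubic (s0 := min (min s0 1) (ρ / A)) (C := K + C * A ^ 3 + 3 * q * A ^ 2)
    (by positivity) fun s hs h1 => ?_
  obtain ⟨b, hb, hf⟩ := H s hs (h1.trans ((min_le_left _ _).trans (min_le_left _ _)))
  have s1 : s ≤ 1 := h1.trans ((min_le_left _ _).trans (min_le_right _ _))
  have s2 : s * A ≤ ρ := (le_div_iff₀ A0).1 (h1.trans (min_le_right _ _))
  have na : ‖s • a‖ ≤ s * A := by
    rw [norm_smul, Real.norm_of_nonneg hs.le]; gcongr; linarith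
  have nd : ‖b - s • a‖ ≤ s ^ 2 * A := hb.trans (by rw [mul_comm]; gcongr; linarith)
  have nb : ‖b‖ ≤ s * A := by
    have := norm_add_le (s • a) (b - s • a)
    rw [add_sub_cancel, norm_smul, Real.norm_of_nonneg hs.le] at this
    nlinarith [mul_le_mul_of_nonneg_left s1 (mul_nonneg K0 hs.le)]
  have t1 := (abs_le.1 (h.2 b _ nb s2)).1
  have t2 := quad_add h.1 (s • a) (b - s • a)
  rw [add_sub_cancel, quad_smul] at t2
  have t3 := (abs_le.1 ((quad_bd Q (s • a) (b - s • a)).trans (b := q * ‖s • a‖ * ‖b - s • a‖)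
    (c := q * (s * A) * (s ^ 2 * A)) (by gcongr))).1
  have t4 := (abs_le.1 ((quad_bd Q (b - s • a) (b - s • a)).trans
    (b := q * ‖b - s • a‖ * ‖b - s • a‖) (c := q * (s * A) * (s ^ 2 * A)) (by
      gcongr
      exact nd.trans (by gcongr; nlinarith)))).1
  nlinarith

theorem Tay.eq_of (h : Tay f Q C ρ) (h0 : 0 < ρ) {a : ι → ℝ} {y K s0 : ℝ} (s0p : 0 < s0)
    (H : ∀ s, 0 < s → s ≤ s0 → ∃ b, ‖b - s • a‖ ≤ K * s ^ 2 ∧ |f b - f 0 - s ^ 2 * y| ≤ K * s ^ 3) :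
    a ⬝ᵥ Q *ᵥ a = y := by
  refine le_antisymm (h.le_of h0 (K := K) s0p fun s h1 h2 => (H s h1 h2).imp fun b hb =>
    ⟨hb.1, by linarith [(abs_le.1 hb.2).2]⟩) ?_
  have := h.neg.le_of h0 (a := a) (y := -y) (K := K) s0p fun s h1 h2 => (H s h1 h2).imp fun b hb =>
    ⟨hb.1, by linarith [(abs_le.1 hb.2).1]⟩
  rw [neg_mulVec, dotProduct_neg] at this
  linarith

/-- two functions which agree along suitable curves have the same quadratic parts -/
theorem Tay.eq_quad {κ : Type} [Fintype κ] {g : (κ → ℝ) → ℝ} {Q' : Matrix κ κ ℝ} (h : Tay f Q C ρ)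
    (h0 : 0 < ρ) (h' : Tay g Q' C' ρ') (h0' : 0 < ρ') {a : ι → ℝ} {a' : κ → ℝ} {K s0 : ℝ}
    (s0p : 0 < s0) (H : ∀ s, 0 < s → s ≤ s0 → ∃ b, ‖b - s • a‖ ≤ K * s ^ 2 ∧
      f b - f 0 = g (s • a') - g 0) : a ⬝ᵥ Q *ᵥ a = a' ⬝ᵥ Q' *ᵥ a' := by
  have C0 := h'.nonneg h0'
  have a0 := norm_nonneg a'
  refine h.eq_of h0 (K := |K| + C' * (‖a'‖ + 1) ^ 3) (s0 := min s0 (ρ' / (‖a'‖ + 1)))
    (by positivity) fun s h1 h2 => (H s h1 (h2.trans (min_le_left _ _))).imp fun b hb => ⟨?_, ?_⟩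
  · refine hb.1.trans (mul_le_mul_of_nonneg_right ?_ (by positivity))
    exact (le_abs_self K).trans (le_add_of_nonneg_right (by positivity))
  · have := h'.2 (s • a') (s * (‖a'‖ + 1)) (by
      rw [norm_smul, Real.norm_of_nonneg h1.le]; gcongr; linarith)
      ((le_div_iff₀ (by positivity)).1 (h2.trans (min_le_right _ _)))
    rw [quad_smul] at this
    rw [hb.2]
    refine this.trans ?_
    rw [mul_pow, add_mul]
    nlinarith [mul_nonneg (abs_nonneg K) (pow_pos h1 3).le]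

theorem Tay.unique [DecidableEq ι] (h : Tay f Q C ρ) (h0 : 0 < ρ) (h' : Tay f Q' C' ρ')
    (h0' : 0 < ρ') : Q = Q' :=
  symm_ext h.1 h'.1 fun a => h.eq_quad h0 h' h0' (K := 0) one_pos fun s _ _ => ⟨s • a, by simp, rfl⟩

end tay

end Pool.Agent.Lib.MP_7f377f_mp.RG.Q4
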