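import Pool.Agent.Lib.MP_7f377f_mp.Q4AfE

/-! The Hessian of a local action at a background of constant flux. -/

noncomputable section

namespace Pool.Agent.Lib.MP_7f377f_mp.RG.Q4.Af

open Finset Matrix Kit Kit.Dom
open scoped Quaternion

/-- end point of a link -/
abbrev tg (e : Lk) : St := e.1 + un e.2

/-- local functionals of one field -/
abbrev L1 (R : ℕ) (δ M : ℝ) (t : Cf → ℂ) : Prop := Lo Prod.fst tg (lbox R) δ M t

/-- a potential with curvature `kF F` -/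
def aF (F : ℝ) : V := fun e => if e.2 = 1 then F * e.1 0 else 0

/-- the same in the comb gauge, in the chart -/
def gF (F : ℝ) : Fld := fun e => ![(Real.tan (cg (aF F) e) : ℂ), 0, 0]

theorem dd_aF (F : ℝ) (x : St) (μ ν : Fin 4) : dd (aF F) x μ ν = kF F μ ν := by
  fin_cases μ <;> fin_cases ν <;> simp [dd, aF, kF, un_apply] <;> ring

theorem abs_kF (F : ℝ) (μ ν : Fin 4) : |kF F μ ν| ≤ |F| := by
  unfold kF; split_ifs <;> simp

theorem cg_aF_le (F : ℝ) {R : ℕ} {e : Lk} (he : e ∈ lbox R) : |cg (aF F) e| ≤ 3 * R * |F| :=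
  Sm_cg (a := aF F) (fun x _ μ ν => by rw [dd_aF]; exact abs_kF F μ ν) e he

theorem cg_flux {F : ℝ} {θ : Lk → Real.Angle} (h : ∀ x μ ν, dd θ x μ ν = (kF F μ ν : ℝ)) (x : St) :
    cg (sh x θ) = fun e => ((cg (aF F) e : ℝ) : Real.Angle) := by
  rw [← show cg (fun e => Real.Angle.coeHom (aF F e)) = fun e => ((cg (aF F) e : ℝ) : Real.Angle) from
    cg_map Real.Angle.coeHom (aF F)]
  refine cg_of_dd ?_
  funext y μ ν
  rw [dd_sh, h, ← dd_aF F y]
  simp [dd]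

theorem norm_neutral (x : ℝ) : ‖(![(x : ℂ), 0, 0] : C3)‖ ≤ |x| :=
  (pi_norm_le_iff_of_nonneg (abs_nonneg x)).2 fun k => by fin_cases k <;> simp

theorem ex_tan {x : ℝ} (h : |x| ≤ 1 / 2) : ex ![(Real.tan x : ℂ), 0, 0] = cS (eA x) ∧
    ‖(![(Real.tan x : ℂ), 0, 0] : C3)‖ ≤ 2 * |x| := by
  have := abs_le.1 h
  refine ⟨by rw [ex_neutral, Real.arctan_tan] <;> linarith [Real.pi_gt_three],
    (norm_neutral _).trans ?_⟩
  have h1 := abs_add_le (Real.tan x - x) x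
  rw [sub_add_cancel] at h1
  linarith [abs_tan_sub h, pow_le_of_le_one (abs_nonneg x) (by linarith) (three_ne_zero)]

theorem gF_spec {F : ℝ} {R : ℕ} (h : 6 * R * |F| ≤ 1) {e : Lk} (he : e ∈ lbox R) :
    ex (gF F e) = cS (eA (cg (aF F) e : ℝ)) ∧ ‖gF F e‖ ≤ 6 * R * |F| :=
  have := ex_tan (x := cg (aF F) e) ((cg_aF_le F he).trans (by linarith))
  ⟨this.1, this.2.trans (by linarith [cg_aF_le F he])⟩

variable {N : Fin 4 → ℕ} [∀ i, NeZero (N i)] {F δ M : ℝ} {R : ℕ} {t : Cf → ℂ} {θ : Lk → Real.Angle}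

/-- the fluctuation in the comb gauge at `x` -/
def tl (θ : Lk → Real.Angle) (x : TS N) (a : IL N → ℝ) : Fld := fun e =>
  adq (cS (cmb Inv.inv (sh (lf x) (ab θ)) e.1)) (cR fun k => a ((cs N (e.1 + lf x), e.2), k))

/-- projection of links -/
def pk (N : Fin 4 → ℕ) (e : Lk) : TS N × Fin 4 := (cs N e.1, e.2)

theorem fl_eq (h : PV N θ) (a : IL N → ℝ) :
    fl (pk N) (Equiv.refl _) (fun i => eA (θ (lf i.1, i.2))) a = exF (pf a) * cC (ab θ) := by
  funext e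
  simp only [fl, pk, h.lf_cs]; rfl

theorem sum_gi (h : L1 R δ M t) (u : St → S3) (U : Cf) :
    ∑ x : TS N, (t (sh (lf x) (ga Prod.fst tg u U))).re = ∑ x : TS N, (t (sh (lf x) U)).re :=
  sum_congr rfl fun x _ => by
    rw [← h.gi (fun y => u (y + lf x)) (sh (lf x) U)]
    congr 2
    funext e
    simp only [ga, sh_apply, tg, add_right_comm]

omit [∀ i, NeZero (N i)] in
theorem tl_add (x : TS N) (a b : IL N → ℝ) : tl θ x (a + b) = tl θ x a + tl θ x b := by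
  funext e; rw [Pi.add_apply, tl, tl, tl, ← adq_add, ← cR_add]; rfl

omit [∀ i, NeZero (N i)] in
theorem tl_neutral (x : TS N) {a : IL N → ℝ} (h : nP (Equiv.refl _) a = a) :
    tl θ x a = fun e => ![(a (pk N (e.1 + lf x, e.2), 0) : ℂ), 0, 0] := by
  have : ∀ i k, k ≠ 0 → a (i, k) = 0 := fun i k hk => by rw [← h]; simp [nP, hk]
  funext e
  rw [tl, sh_ab, cmb_ab, adq_eA]
  exact c3_ext rfl (by simp [cR, this]) (by simp [cR, this])

theorem dd_tl (x : TS N) (a : IL N → ℝ) (μ ν : Fin 4) :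
    dd (tl θ x a) 0 μ ν = cR (crl (ab θ) a x μ ν) := by
  have : ∀ μ, cmb Inv.inv (sh (lf x) (ab θ)) (un μ) = ab θ (lf x, μ) := fun μ => by
    simpa using cmb_fwd Inv.inv (sh (lf x) (ab θ)) (p := 0) (ν := μ) (fun _ _ => rfl) le_rfl
  simp only [dd, tl, crl, zero_add, cmb_zero, cS_one, adq_one, this, sub_eq_add_neg, cR_add, cR_neg,
    cR_Rm, cs_add, cs_un, cs_lf, add_comm x]

theorem crit (h : L1 R δ M t) (h1 : δ ≤ 1 / 10) (h0 : 0 < δ) (hF : 120 * R * |F| ≤ δ)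
    (a : IL N → ℝ) : ∑ x, (dv (ph t (exF (gF F))) 0 (tl θ x a)).re = 0 := by
  have hg := fun e he => gF_spec (F := F) (R := R) (by linarith) (e := e) he
  have d0 : 0 < δ / 20 := by linarith
  have hg' : ∀ e ∈ lbox R, ‖gF F e‖ ≤ δ / 20 := fun e he => (hg e he).2.trans (by linarith)
  obtain ⟨p, q⟩ := h.lh1 d0 h1 hg'
  obtain ⟨L, -, -, -, hL, -⟩ := LH_tay p q (sD_all _ d0)
  replace hL : ∀ v, L v = dv (ph t (exF (gF F))) 0 v := hL
  have e2 : ∀ x, L (tl θ x (2 • nP (Equiv.refl _) a - a)) = L (tl θ x a) := fun x => by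
    rw [hL, hL]
    refine (q2_congr fun s => ?_).2
    rw [← ph_ga h (fun _ => Ho.qu 0) _ (0 + s • tl θ x a)]
    refine h.loc _ _ fun e he => ?_
    have h1 : ∀ φ, cS (Ho.qu 0) * cS (eA φ) * star (cS (Ho.qu 0)) = cS (eA φ) := fun φ => by
      ext <;> simp [Ho.qu, Ho.cS_mkS, cS_eA]
    simp only [ga, exF, (hg e he).1, h1, zero_add, Pi.smul_apply, adq_smul, sh_ab, cmb_ab, tl]
    congr 3
    funext k
    rw [Ho.adq_qu, adq_eA, adq_eA]
    fin_cases k <;> simp [cR, nP] <;> ring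
  have e3 : ∑ x, L (tl θ x (nP (Equiv.refl _) a)) = 0 := by
    have hb : nP (Equiv.refl _) (nP (Equiv.refl _) a) = nP (Equiv.refl _) a := by
      funext j; by_cases h : j.2 = 0 <;> simp [nP, h]
    generalize nP (Equiv.refl _) a = b at hb
    have := (hL _).trans ((h.neutral d0 h1 hg' (fun e he => (hg e he).1) 0
      fun y => -∑ μ, y μ * ∑ x, b ((x, μ), 0)).1.trans (hL _).symm)
    rw [show (fun i : Lk => (![((0 : Lk → ℝ) i : ℂ), 0, 0] : C3)) = 0 from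
      funext fun _ => c3_ext (by simp) rfl rfl, map_zero] at this
    rw [← map_sum, this]
    congr 1
    funext e
    have s1 := sum_shift (N := N) (g := fun y => b (pk N (y, e.2), 0))
      (fun x y h => by simp only [pk, h]) e.1
    simp only [pk, cs_lf, add_comm (lf _)] at s1
    simp only [Finset.sum_apply, tl_neutral _ hb, pk]
    refine c3_ext ?_ (by simp) (by simp)
    simp only [Finset.sum_apply, cons_val_zero, ← Complex.ofReal_sum, s1, tg, Pi.add_apply,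
      Int.cast_add, add_mul, sum_add_distrib, Pi.zero_apply]
    simp [un_apply]
  have e4 : ∀ x, L (tl θ x a) + L (tl θ x a) =
      L (tl θ x (nP (Equiv.refl _) a)) + L (tl θ x (nP (Equiv.refl _) a)) := fun x => by
    nth_rewrite 1 [← e2 x]
    rw [← map_add, ← map_add, ← tl_add, ← tl_add, sub_add_cancel, two_nsmul]
  have e5 := sum_congr rfl fun x (_ : x ∈ univ) => e4 x
  rw [sum_add_distrib, sum_add_distrib, e3, add_zero, add_self_eq_zero] at e5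
  simp only [← hL, ← Complex.re_sum, e5, Complex.zero_re]

theorem hess0 (h : L1 R δ M t) (h1 : δ ≤ 1 / 10) (h0 : 0 < δ)
    (hc : ∀ x μ ν, dd θ x μ ν = (kF F μ ν : ℝ)) (hF : 120 * R * |F| ≤ δ) :
    ∃ Q, Tay (SS N t (ab θ)) Q (Fintype.card (TS N) * (12 * M / (δ / 240) ^ 3)) (δ / 240) ∧
      ∀ a, a ⬝ᵥ Q *ᵥ a = ∑ x, (q2 (ph t (exF (gF F))) 0 (tl θ x a)).re := by
  have hg := fun e he => gF_spec (F := F) (R := R) (by linarith) (e := e) he
  have d0 : 0 < δ / 20 := by linarith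
  have hg' : ∀ e ∈ lbox R, ‖gF F e‖ ≤ δ / 20 := fun e he => (hg e he).2.trans (by linarith)
  obtain ⟨ℓ, Q, a1, a2, a3⟩ := h.tay_fam d0 h1 hg' (fun x : TS N => sh (lf x) (ab θ))
    (fun x => cmb Inv.inv (sh (lf x) (ab θ))) (fun x e he => by
      rw [(hg e he).1, ← congrFun (cg_flux hc (lf x)) e, ← show ab _ e = eA _ from rfl, ← fix_ab]
      simp only [ga, gauge, cS_mul, cS_inv, sh_ab])
    (fun x e k => ((cs N (e.1 + lf x), e.2), k))
  exact ⟨Q, a1.congr fun a _ => by rw [(a2 a).trans (crit h h1 h0 hF a), sub_zero]; rfl, a3⟩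

theorem SS_eq (hp : PV N θ) : SS N t (ab θ) = fun a => (fun U => ∑ x : TS N, (t (sh (lf x) U)).re)
    (fl (pk N) (Equiv.refl _) (fun i => eA (θ (lf i.1, i.2))) a) :=
  funext fun a => by rw [fl_eq hp]; rfl

theorem hess_split {Q : Matrix (IL N) (IL N) ℝ} {C ρ : ℝ} (h : L1 R δ M t) (hp : PV N θ)
    (T : Tay (SS N t (ab θ)) Q C ρ) (r0 : 0 < ρ) (a : IL N → ℝ) :
    a ⬝ᵥ Q *ᵥ a = nP (Equiv.refl _) a ⬝ᵥ Q *ᵥ nP (Equiv.refl _) a +
      (a - nP (Equiv.refl _) a) ⬝ᵥ Q *ᵥ (a - nP (Equiv.refl _) a) := by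
  rw [SS_eq hp] at T
  exact quad_split (π := pk N) (θ := fun i => θ (lf i.1, i.2))
    (F := fun U => ∑ x : TS N, (t (sh (lf x) U)).re) (sum_gi h) T r0 a

theorem hess_kill1 {Q : Matrix (IL N) (IL N) ℝ} {C ρ : ℝ} (h : L1 R δ M t) (hp : PV N θ)
    (T : Tay (SS N t (ab θ)) Q C ρ) (r0 : 0 < ρ) (v : TS N → Fin 3 → ℝ) :
    Q *ᵥ (fun i => v i.1.1 i.2 -
      (Rm (eA (θ (lf i.1.1, i.1.2))) *ᵥ v (i.1.1 + Pi.single i.1.2 1)) i.2) = 0 := by
  rw [SS_eq hp] at T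
  refine kill_gauge (π := pk N) (e := Equiv.refl _) (V := fun i => eA (θ (lf i.1, i.2)))
    (F := fun U => ∑ x : TS N, (t (sh (lf x) U)).re) (sum_gi h) T r0
    (fun x => v (cs N x)) (fun i => v i.1)
    (fun i => v (i.1 + Pi.single i.2 1)) (fun _ => rfl) (fun e => ?_) fun _ _ => ?_
  · rw [tg, cs_add_un]; rfl
  · rfl

theorem hess_kill2 {Q : Matrix (IL N) (IL N) ℝ} {C ρ : ℝ} (h : L1 R δ M t) (hp : PV N θ)
    (T : Tay (SS N t (ab θ)) Q C ρ) (r0 : 0 < ρ) (v : Fin 4 → ℝ) :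
    Q *ᵥ (fun i => if i.2 = 0 then v i.1.2 else 0) = 0 := by
  rw [SS_eq hp] at T
  refine kill_neutral (π := pk N) (e := Equiv.refl _) (θ := fun i => θ (lf i.1, i.2))
    (F := fun U => ∑ x : TS N, (t (sh (lf x) U)).re) (sum_gi h) T r0
    (fun y => -∑ μ, y μ * v μ) ?_ fun e => ?_
  · funext j; by_cases h : j.2 = 0 <;> simp [nP, h]
  · simp only [tg, Pi.add_apply, Int.cast_add, add_mul, sum_add_distrib]
    simp [un_apply, pk]

theorem hess_kill {Q : Matrix (IL N) (IL N) ℝ} {C ρ : ℝ} (h : L1 R δ M t) (hp : PV N θ)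
    (T : Tay (SS N t (ab θ)) Q C ρ) (r0 : 0 < ρ) (v : IG N → ℝ) : Q *ᵥ DL N (ab θ) v = 0 := by
  have k := congrArg₂ (· + ·) (hess_kill1 h hp T r0 (gl v)) (hess_kill2 h hp T r0 fun μ => v (.inr μ))
  simp only [← mulVec_add, add_zero] at k
  exact k

end Pool.Agent.Lib.MP_7f377f_mp.RG.Q4.Af
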