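import Pool.Agent.Lib.MP_7f377f_mp.Q4Def2
import Pool.Agent.Lib.MP_7f377f_mp.Q4AfF

/-! Asymptotic freedom: the statement which is used by the flow of the coupling. -/

noncomputable section

namespace Pool.Agent.Lib.MP_7f377f_mp.RG.Q4

open Filter Topology

/-- `N + 1` consecutive tree data with the same block size -/
structure Chain (S : Sd) (N : ℕ) (t : ℕ → Td) (η : ℝ) : Prop where
  par : ∀ i ≤ N, (t i).c = S.c ∧ (t i).Kt = S.Kt ∧ (t i).K0 = S.K0 ∧ (t i).l = S.l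
  tr : ∀ i ≤ N, ∃ M j v e, (M = LL S.l ∨ i = 0 ∧ M = 3 * LL S.l) ∧ |v - 1| ≤ 10⁻¹ ∧ 0 ≤ e ∧
    e ≤ η ∧ (t i).Tr M j v e ∧ (t i).Ln j v e
  nx : ∀ i < N, ∃ lam : ℝ, |lam - 1| ≤ η ∧ (t (i + 1)).m = lam • (t i).m1 ∧
    (t (i + 1)).T = fun B => lam * (t i).T1 B

/-- the one loop term at the end of a long chain is universal -/
def AF (c : ℕ) : Prop := ∃ (bn : ℕ → ℕ → ℕ → ℕ → ℝ) (κ : ℕ → ℕ → ℕ → ℕ), ∀ᶠ S in ev0 c,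
  Tendsto (fun l => bn S.Kt S.K0 S.K l / Real.log (LL l)) atTop (𝓝 (11 / (6 * Real.pi ^ 2))) ∧
    ∀ N t, S.l ≤ N → Chain S N t (S.L ^ κ S.Kt S.K0 S.K)⁻¹ →
      |(qc (t N).ol (Af.aF 1) (Af.aF 1)).re + bn S.Kt S.K0 S.K S.l| ≤ (S.Q ^ 500)⁻¹

/-- the linear theory exists with the exponent `c` -/
def TL (c : ℕ) : Prop := 1 ≤ c ∧ ∃ l0, ∀ t : Td, t.c = c → l0 ≤ t.l → ∀ j ρ v e, 2⁻¹ ≤ v →
  v ≤ 2 → 0 ≤ e → e ≤ 1000⁻¹ → Ch j (3 * t.r) ρ v e t.m → ∃ s, Td.Ln { t with s := s } j v e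

end Pool.Agent.Lib.MP_7f377f_mp.RG.Q4
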