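import Pool.Agent.Lib.MP_7f377f_mp.Q4AfCh
import Pool.Agent.Lib.MP_7f377f_mp.Q4AfDef

/-! Asymptotic freedom: passage to the form which is used by the flow. -/

noncomputable section

namespace Pool.Agent.Lib.MP_7f377f_mp.RG.Q4

open Filter Topology

/-- the one loop term at the end of a chain -/
def AfM (c : ℕ) : Prop := ∃ a0, ∀ Kt ≥ a0, ∃ a1, ∀ K0 ≥ a1, ∀ Ka : ℕ,
  ∃ (K' l0 : ℕ) (bnat : ℕ → ℝ),
    Tendsto (fun l => bnat l / Real.log (LL l)) atTop (𝓝 (11 / (6 * Real.pi ^ 2))) ∧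
    ∀ l ≥ l0, ∀ n ≥ S0 l, ∀ d, Chn c Kt K0 l n ((LL l : ℝ) ^ K')⁻¹ d →
      ∀ a : V, (∀ μ ν, dd a 0 μ ν = kF 1 μ ν) →
        ‖qc (d n).ol a a + bnat l‖ ≤ ((LL l : ℝ) ^ Ka)⁻¹

theorem Chain.chn {S : Sd} {N : ℕ} {t : ℕ → Td} {η : ℝ} (h : Chain S N t η) :
    Chn S.c S.Kt S.K0 S.l N η t :=
  ⟨h.par, fun i hi => by
    obtain ⟨M, j, v, e, h1, h2, h3, h4, h5⟩ := h.tr i hi
    have := abs_le.1 h2
    exact ⟨M, j, v, e, h1.imp_right And.right, by linarith, by linarith, h3, h4, h5⟩, h.nx⟩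

theorem af_of {c : ℕ} (h : AfM c) : AF c := by
  obtain ⟨a0, h⟩ := h
  choose! a1 K' l0 bn h using h
  refine ⟨fun Kt K0 K => bn Kt K0 (500 * K), fun Kt K0 K => K' Kt K0 (500 * K), ?_⟩
  filter_upwards [ev_Kt a0, ev_K0 a1, ev_l fun Kt K0 K _ => l0 Kt K0 (500 * K), ev_c,
    ev_of_atTop (P := fun _ _ _ _ l => Nat.log 3 (LL l) ^ 2 ≤ l) fun _ _ _ _ => log_pow_le 2]
    with S h0 h1 h2 h3 h4
  obtain ⟨p, q⟩ := h S.Kt h0 S.K0 h1 (500 * S.K)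
  refine ⟨p, fun N t hN hc => ?_⟩
  have := q S.l h2 N (h4.trans hN) t (h3 ▸ hc.chn) (Af.aF 1) fun μ ν => Af.dd_aF 1 0 μ ν
  rw [Sd.Q, ← pow_mul, mul_comm S.K]
  refine le_trans ?_ this
  simpa using Complex.abs_re_le_norm (qc (t N).ol (Af.aF 1) (Af.aF 1) + bn S.Kt S.K0 (500 * S.K) S.l)

end Pool.Agent.Lib.MP_7f377f_mp.RG.Q4
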