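import Pool.Agent.Lib.MP_7f377f_mp.Q4AfC

/-! Hessians of gauge invariant functionals at abelian backgrounds. -/

noncomputable section

namespace Pool.Agent.Lib.MP_7f377f_mp.RG.Q4.Af

open Finset Matrix Filter Metric Kit Kit.Dom
open scoped Quaternion Topology

/-- real vectors as complex vectors -/
def cR (v : Fin 3 → ℝ) : C3 := fun k => v k

theorem cR_add (v w : Fin 3 → ℝ) : cR (v + w) = cR v + cR w := by funext k; simp [cR]
theorem cR_neg (v : Fin 3 → ℝ) : cR (-v) = -cR v := by funext k; simp [cR]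
theorem cR_smul (c : ℝ) (v : Fin 3 → ℝ) : cR (c • v) = (c : ℂ) • cR v := by funext k; simp [cR]
@[simp] theorem cR_zero : cR 0 = 0 := by funext k; simp [cR]

theorem norm_cR (v : Fin 3 → ℝ) : ‖cR v‖ = ‖v‖ := by simp [cR, Pi.norm_def]

theorem cR_Rm (g : S3) (v : Fin 3 → ℝ) : cR (Rm g *ᵥ v) = adq (cS g) (cR v) :=
  funext (Rm_mulVec g v)

theorem exists_cR {b : C3} (h : ∀ k, (b k).im = 0) : ∃ v, cR v = b :=
  ⟨fun k => (b k).re, funext fun k => Complex.ext rfl (by simp [cR, h])⟩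

theorem exists_exS (v : Fin 3 → ℝ) : ∃ g : S3, cS g = ex (cR v) :=
  (ex_real (WithLp.toLp 2 v)).imp fun _ h => h.1

/-- the point of the group with given chart coordinates -/
def exS (v : Fin 3 → ℝ) : S3 := (exists_exS v).choose

theorem cS_exS (v : Fin 3 → ℝ) : cS (exS v) = ex (cR v) := (exists_exS v).choose_spec

theorem exists_chart {g : S3} {η : ℝ} (h : ‖cS g - 1‖ ≤ η) (h1 : η ≤ 1 / 2) :
    ∃ w, ex (cR w) = cS g ∧ cR w = ch (cS g) ∧ ‖w‖ ≤ 2 * η := by
  obtain ⟨w, hw⟩ := exists_cR (ch_real g.q)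
  have h2 : ‖g.q - 1‖ ≤ η := by
    refine (norm_cq _).1.trans ?_
    rwa [cq_sub, cq_one]
  obtain ⟨h3, h4⟩ := ch_cS_le h2 h1
  exact ⟨w, by rw [hw]; exact ex_ch h3, hw, by rw [← norm_cR, hw]; exact h4⟩

theorem nr_ex {b : C3} {η : ℝ} (h : ‖b‖ ≤ η) (h1 : η ≤ 1 / 100) :
    Nr (4 * η) (10 * η ^ 2) (ex b) (io b) := Nr.of_le (ex_sub_one h h1) (ex_near h h1)

theorem ex3 {u v w : Fin 3 → ℝ} {η : ℝ} (hu : ‖u‖ ≤ η) (hv : ‖v‖ ≤ η) (hw : ‖w‖ ≤ η)
    (h1 : η ≤ 1 / 100) : ∃ z, ex (cR z) = ex (cR u) * ex (cR v) * ex (cR w) ∧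
      ‖z - (u + v + w)‖ ≤ 600 * η ^ 2 := by
  have η0 := (norm_nonneg _).trans hu
  rw [← norm_cR] at hu hv hw
  have n := ((nr_ex hu h1).mul (nr_ex hv h1)).mul (nr_ex hw h1)
  rw [← io_add, ← io_add, ← cR_add, ← cR_add, ← cS_exS, ← cS_exS, ← cS_exS, ← cS_mul, ← cS_mul] at n
  obtain ⟨z, z1, z2, -⟩ := exists_chart (n.le (by positivity) (by linarith)).1 (by linarith)
  refine ⟨z, by rw [z1, cS_mul, cS_mul, cS_exS, cS_exS, cS_exS], ?_⟩
  rw [← norm_cR, sub_eq_add_neg, cR_add, cR_neg, z2, ← sub_eq_add_neg]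
  exact (n.ch (by positivity) (by linarith) (by nlinarith)).2.trans (by nlinarith)

section gen
variable {I K J : Type} [Fintype J] (src tgt : I → St) (π : I → K) (e : K × Fin 3 ≃ J)

/-- the field with fluctuation `a` around the background `V` -/
def fl (V : K → S3) (a : J → ℝ) : I → Hc :=
  fun i => ex (cR fun k => a (e (π i, k))) * cS (V (π i))

/-- the neutral part -/
def nP (a : J → ℝ) : J → ℝ := fun j => if (e.symm j).2 = 0 then a j else 0

variable {src tgt π e} {F : (I → Hc) → ℝ} {Q : Matrix J J ℝ} {C ρ : ℝ}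

theorem norm_comp_le (a : J → ℝ) (i : K) : ‖fun k => a (e (i, k))‖ ≤ ‖a‖ :=
  (pi_norm_le_iff_of_nonneg (norm_nonneg _)).2 fun _ => norm_le_pi_norm a _

theorem norm_le_of_comp {a : J → ℝ} {c : ℝ} (h0 : 0 ≤ c) (h : ∀ i, ‖fun k => a (e (i, k))‖ ≤ c) :
    ‖a‖ ≤ c := (pi_norm_le_iff_of_nonneg h0).2 fun j => by
  simpa using (norm_le_pi_norm (fun k => a (e ((e.symm j).1, k))) (e.symm j).2).trans (h _)

theorem kill_gauge (hF : ∀ h U, F (ga src tgt h U) = F U) {V : K → S3}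
    (hT : Tay (fun a => F (fl π e V a)) Q C ρ) (h0 : 0 < ρ) (u : St → Fin 3 → ℝ)
    (ls lt : K → Fin 3 → ℝ) (hs : ∀ i, u (src i) = ls (π i)) (ht : ∀ i, u (tgt i) = lt (π i))
    {d : J → ℝ} (hd : ∀ i k, d (e (i, k)) = ls i k - (Rm (V i) *ᵥ lt i) k) : Q *ᵥ d = 0 := by
  have : Fintype K := Fintype.ofInjective (fun i => e (i, 0)) fun i j h => by simpa using h
  refine kill_of_quad hT.1 fun a => ?_
  set A := ‖a‖ + ‖ls‖ + 12 * ‖lt‖ + 1 with hA
  have := norm_nonneg a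
  have := norm_nonneg ls
  have := norm_nonneg lt
  have A0 : 0 < A := by positivity
  refine hT.eq_quad h0 hT h0 (K := 600 * A ^ 2) (s0 := 1 / 100 / A) (by positivity) fun s s0 s1 => ?_
  have nn : ∀ {v : Fin 3 → ℝ}, ‖v‖ ≤ A → ‖s • v‖ ≤ s * A := fun h => by
    rw [norm_smul, Real.norm_of_nonneg s0.le]; gcongr
  choose z z1 z2 using fun i => ex3 (u := s • ls i) (v := s • fun k => a (e (i, k)))
    (w := s • -(Rm (V i) *ᵥ lt i)) (η := s * A) (nn (by linarith [norm_le_pi_norm ls i]))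
    (nn (by linarith [norm_comp_le (e := e) a i])) (nn (by
      rw [norm_neg, ← norm_cR, cR_Rm]
      linarith [norm_adq_cS (V i) (cR (lt i)), norm_cR (lt i), norm_le_pi_norm lt i]))
    ((le_div_iff₀ A0).1 s1)
  refine ⟨fun j => z (e.symm j).1 (e.symm j).2, norm_le_of_comp (e := e) (by positivity) fun i =>
    le_of_eq_of_le ?_ ((z2 i).trans_eq (by ring)), ?_⟩
  · congr 1; funext k; simp [hd]; ring
  · congr 1
    rw [← hF (fun x => exS (s • u x)) (fl π e V (s • a))]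
    congr 1
    funext i
    simp only [fl, ga, Equiv.symm_apply_apply, z1, hs, ht, cS_exS, star_ex, mul_assoc]
    rw [smul_neg, ← mulVec_smul, ← mulVec_neg, cR_Rm, ex_adq (uni_cS _), mul_assoc, mul_assoc,
      (uni_cS _).star_mul, mul_one, cR_neg]
    rfl

omit [Fintype J] in
theorem fl_flip (θ : K → Real.Angle) (a : J → ℝ) :
    ga src tgt (fun _ => Ho.qu 0) (fl π e (fun i => eA (θ i)) a) =
      fl π e (fun i => eA (θ i)) (2 • nP e a - a) := by
  funext i
  have h1 : cS (eA (θ (π i))) * star (cS (Ho.qu 0)) = star (cS (Ho.qu 0)) * cS (eA (θ (π i))) := by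
    ext <;> simp [Ho.qu, Ho.cS_mkS, cS_eA]
  simp only [ga, fl, mul_assoc, h1]
  rw [← mul_assoc, ← mul_assoc, ← ex_adq (uni_cS _)]
  congr 2
  funext k
  rw [Ho.adq_qu]
  by_cases h : k = 0 <;> simp [cR, nP, h]; ring

theorem quad_split (hF : ∀ h U, F (ga src tgt h U) = F U) {θ : K → Real.Angle}
    (hT : Tay (fun a => F (fl π e (fun i => eA (θ i)) a)) Q C ρ) (h0 : 0 < ρ) (a : J → ℝ) :
    a ⬝ᵥ Q *ᵥ a = nP e a ⬝ᵥ Q *ᵥ nP e a + (a - nP e a) ⬝ᵥ Q *ᵥ (a - nP e a) := by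
  have h1 : (2 • nP e a - a) ⬝ᵥ Q *ᵥ (2 • nP e a - a) = a ⬝ᵥ Q *ᵥ a :=
    hT.eq_quad h0 hT h0 (K := 0) one_pos fun s _ _ => ⟨_, by rw [sub_self]; simp, by
      congr 1
      rw [← hF (fun _ => Ho.qu 0) (fl π e _ (s • a)), fl_flip]
      congr 2
      funext j
      by_cases h : (e.symm j).2 = 0 <;> simp [nP, h]; ring⟩
  have h2 := quad_add hT.1 (nP e a) (a - nP e a)
  have h3 := quad_add hT.1 (nP e a) ((-1 : ℝ) • (a - nP e a))
  rw [quad_smul, mulVec_smul, dotProduct_smul, smul_eq_mul,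
    show nP e a + (-1 : ℝ) • (a - nP e a) = 2 • nP e a - a by module] at h3
  rw [add_sub_cancel] at h2
  linarith

omit [Fintype J] in
theorem fl_neutral (θ : K → Real.Angle) {a : J → ℝ} (ha : nP e a = a) (i : I) :
    fl π e (fun i => eA (θ i)) a i = cS (eA ((Real.arctan (a (e (π i, 0))) : ℝ) + θ (π i))) := by
  rw [eA_add, cS_mul, ← ex_neutral, fl]
  have : ∀ k, k ≠ 0 → a (e (π i, k)) = 0 := fun k hk => by rw [← ha]; simp [nP, hk]
  congr 2
  exact c3_ext rfl (by simp [cR, this]) (by simp [cR, this])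

theorem abs_tan_sub {x : ℝ} (h : |x| ≤ 1 / 2) : |Real.tan x - x| ≤ |x| ^ 3 := by
  have h1 := Real.sin_bound (x := x) (by linarith)
  have h2 := Real.cos_bound (x := x) (by linarith)
  have x0 := abs_nonneg x
  have h3 : 1 / 2 ≤ Real.cos x := by
    nlinarith [Real.one_sub_sq_div_two_le_cos (x := x), sq_abs x]
  have h4 : Real.tan x - x = ((Real.sin x - (x - x ^ 3 / 6)) - x * (Real.cos x - (1 - x ^ 2 / 2)) +
      x ^ 3 / 3) / Real.cos x := by
    rw [Real.tan_eq_sin_div_cos]; field_simp; ring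
  rw [h4, abs_div, abs_of_pos (by linarith : 0 < Real.cos x), div_le_iff₀ (by linarith)]
  refine (abs_add_le _ _).trans ((add_le_add_left (abs_sub _ _) _).trans ?_)
  rw [abs_mul, abs_div, abs_pow, Nat.abs_ofNat]
  have h5 := pow_nonneg x0 3
  have h6 : |x| ^ 4 ≤ |x| ^ 3 / 2 := by nlinarith
  nlinarith [mul_le_mul h h2 (abs_nonneg _) (by norm_num)]

theorem abs_arctan_le (x : ℝ) : |Real.arctan x| ≤ |x| := by
  have : ∀ x, 0 ≤ x → |Real.arctan x| ≤ |x| := fun x h => by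
    rw [abs_of_nonneg h, abs_of_nonneg (Real.arctan_nonneg.2 h)]
    exact (Real.le_tan (Real.arctan_nonneg.2 h) (Real.arctan_lt_pi_div_two x)).trans_eq
      (Real.tan_arctan x)
  rcases le_total 0 x with h | h
  · exact this x h
  · simpa using this (-x) (by linarith)

theorem abs_arctan_sub {x : ℝ} (h : |x| ≤ 1 / 2) : |Real.arctan x - x| ≤ |x| ^ 3 := by
  have := abs_tan_sub ((abs_arctan_le x).trans h)
  rw [Real.tan_arctan, abs_sub_comm] at this
  exact this.trans (pow_le_pow_left₀ (abs_nonneg _) (abs_arctan_le x) 3)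

theorem tan_arctan_add {x y η : ℝ} (hx : |x| ≤ η) (hy : |y| ≤ η) (h : η ≤ 1 / 4) :
    Real.arctan (Real.tan (Real.arctan x + y)) = Real.arctan x + y ∧
      |Real.tan (Real.arctan x + y) - (x + y)| ≤ 9 * η ^ 3 := by
  have h1 : |Real.arctan x + y| ≤ 2 * η := (abs_add_le _ _).trans (by linarith [abs_arctan_le x])
  have h2 := (abs_tan_sub (h1.trans (by linarith))).trans (pow_le_pow_left₀ (abs_nonneg _) h1 3)
  have h3 := (abs_arctan_sub (hx.trans (by linarith))).trans (pow_le_pow_left₀ (abs_nonneg _) hx 3)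
  rw [abs_le] at *
  refine ⟨Real.arctan_tan ?_ ?_, ?_, ?_⟩ <;> nlinarith [Real.pi_gt_three]

/-- neutral gradients of functions which need not be periodic are null directions -/
theorem kill_neutral (hF : ∀ h U, F (ga src tgt h U) = F U) {θ : K → Real.Angle}
    (hT : Tay (fun a => F (fl π e (fun i => eA (θ i)) a)) Q C ρ) (h0 : 0 < ρ) (c : St → ℝ)
    {d : J → ℝ} (hn : nP e d = d) (hd : ∀ i, d (e (π i, 0)) = c (src i) - c (tgt i)) :
    Q *ᵥ d = 0 := by
  refine kill_of_quad hT.1 fun a => ?_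
  have e1 : nP e (a + d) = nP e a + d := by
    rw [← hn]; funext j; by_cases h : (e.symm j).2 = 0 <;> simp [nP, h]
  rw [quad_split hF hT h0, quad_split hF hT h0 a, e1, add_sub_add_right_eq_sub]
  congr 1
  have hb : nP e (nP e a) = nP e a := by funext j; by_cases h : (e.symm j).2 = 0 <;> simp [nP, h]
  generalize nP e a = b at hb
  set A := ‖b‖ + ‖d‖ + 1 with hA
  have := norm_nonneg b
  have := norm_nonneg d
  have A0 : 0 < A := by positivity
  refine hT.eq_quad h0 hT h0 (K := 9 * A ^ 2) (s0 := 1 / 4 / A) (by positivity) fun s s0 s1 => ?_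
  have s2 := (le_div_iff₀ A0).1 s1
  have nn : ∀ {v : J → ℝ} (j), ‖v‖ ≤ A → |s * v j| ≤ s * A := fun j h => by
    rw [abs_mul, abs_of_pos s0]; gcongr; exact (norm_le_pi_norm _ j).trans h
  have key := fun j => tan_arctan_add (nn (v := b) j (by linarith)) (nn (v := d) j (by linarith)) s2
  refine ⟨nP e fun j => Real.tan (Real.arctan (s * b j) + s * d j),
    (pi_norm_le_iff_of_nonneg (by positivity)).2 fun j => ?_, ?_⟩
  · by_cases h : (e.symm j).2 = 0
    · simp only [nP, h, Pi.sub_apply, if_true, Pi.smul_apply, Pi.add_apply, smul_eq_mul, mul_add]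
      refine (key j).2.trans ?_
      nlinarith [pow_pos (mul_pos s0 A0) 2]
    · have h1 : b j = 0 := by rw [← hb]; simp [nP, h]
      have h2 : d j = 0 := by rw [← hn]; simp [nP, h]
      simp only [nP, h, Pi.sub_apply, if_false, Pi.smul_apply, Pi.add_apply, h1, h2]
      simp; positivity
  · congr 1
    rw [← hF (fun x => eA (s * c x : ℝ)) (fl π e _ (s • b))]
    congr 1
    funext i
    rw [ga, fl_neutral θ (by funext j; by_cases h : (e.symm j).2 = 0 <;> simp [nP, h]),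
      fl_neutral θ (by rw [← hb]; funext j; by_cases h : (e.symm j).2 = 0 <;> simp [nP, h]),
      ← cS_inv, ← cS_mul, ← cS_mul, ← eA_neg, ← eA_add, ← eA_add]
    simp only [nP, Equiv.symm_apply_apply, if_true]
    rw [(key _).1]
    simp only [hd, Pi.smul_apply, smul_eq_mul, mul_sub, Real.Angle.coe_add, Real.Angle.coe_sub]
    congr 2; abel

end gen

end Pool.Agent.Lib.MP_7f377f_mp.RG.Q4.Af
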