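import Pool.Agent.Lib.MP_7f377f_mp.Q4AfH
import Pool.Agent.Lib.MP_7f377f_mp.Q4LocO

/-! The determinant of the Hessian outside the trees. -/

noncomputable section

namespace Pool.Agent.Lib.MP_7f377f_mp.RG.Q4.Af

open Finset Matrix Polynomial
open scoped Matrix.Norms.L2Operator

attribute [local irreducible] box lbox cube

variable {l : ℕ} {N : Fin 4 → ℕ}

theorem cs_eq_iff {x y : St} : cs N x = cs N y ↔ Dv N (x - y) :=
  funext_iff.trans (forall_congr' fun i => by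
    rw [eq_comm]; exact ZMod.intCast_eq_intCast_iff_dvd_sub _ _ _)

theorem cs_add_pv (x v : St) : cs N (x + pv N v) = cs N x :=
  cs_eq_iff.2 (by rw [add_sub_cancel_left]; exact dv_pv v)

theorem pv_iff {α : Type} {U : Lk → α} : PV N U ↔ PerV N U :=
  ⟨fun h v => (h.sh_eq (y := 0) (by simpa using cs_add_pv 0 v)).trans (by simp), fun h μ => by
    obtain ⟨v, hv⟩ := dv_iff.1 (cs_eq_iff.1 ((cs_period (N := N) μ).trans cs_zero.symm))
    rw [sub_zero] at hv
    rw [hv, h v]⟩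

variable [∀ i, NeZero (N i)]

/-- sums over the torus -/
theorem sum_domv (hn : ∀ i, Odd (N i)) {M : Type} [AddCommMonoid M] {g : St → M}
    (hg : ∀ x v, g (x + pv N v) = g x) : ∑ y ∈ domv N, g y = ∑ y : TS N, g (lf y) := by
  refine sum_nbij' (cs N) (fun y => rcv N (lf y)) (fun _ _ => mem_univ _) (fun _ _ => rcv_mem hn _)
    (fun x hx => ?_) (fun y _ => ?_) fun x _ => ?_
  · rw [rcv_congr (cs_eq_iff.1 (cs_lf _)), rcv_eq hn hx]
  · exact (cs_eq_iff.2 (dv_rcv N _)).symm.trans (cs_lf y)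
  · obtain ⟨v, hv⟩ := dv_iff.1 (cs_eq_iff.1 (cs_lf (cs N x)))
    rw [sub_eq_iff_eq_add'.1 hv, hg]

/-- the two sets of indices -/
def ixE (hn : ∀ i, Odd (N i)) (l : ℕ) : Loc.IX N l ≃ IL (fi l N) :=
  Equiv.ofBijective (fun j => ((cs _ (Loc.lk j).1, (Loc.lk j).2), j.2.2)) ⟨fun i j h => by
    simp only [Prod.mk.injEq] at h
    exact Loc.ix_ext (Prod.ext (dom_inj (odd_fi hn l) (Loc.lk_mem hn i) (Loc.lk_mem hn j)
      (cs_eq_iff.1 h.1.1)) h.1.2) h.2, fun i => by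
    obtain ⟨v, hv⟩ := Loc.lk_ixo (l := l) hn (lf i.1.1, i.1.2) i.2
    refine ⟨Loc.ixo hn (lf i.1.1, i.1.2) i.2, Prod.ext (Prod.ext ?_ rfl) rfl⟩
    have := congrArg (fun f => cs (fi l N) f.1) hv
    simpa only [cs_add_pv, cs_lf] using this.symm⟩

theorem act_cs (f : Lk) (k : Fin 3) : Act l ∅ f ↔ ¬ trI l N ((cs _ f.1, f.2), k) := by
  obtain ⟨v, hv⟩ := dv_iff.1 (cs_eq_iff.1 (cs_lf (cs (fi l N) f.1)))
  simp only [trI, sub_eq_iff_eq_add'.1 hv, ← up_pv, tree_add_up]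
  exact and_iff_left fun _ _ => id

theorem pj_exN (v : IR l N → ℝ) : pj l ∅ (pf (exN v)) = pf (exN v) :=
  pj_of fun f hf => funext fun k => by
    simp [pf, exN, not_not.1 fun h => hf ((act_cs (N := N) f k).2 h)]

theorem sum_exN (v : IR l N → ℝ) (g : IL (fi l N) → ℂ) :
    ∑ i, (exN v i : ℂ) * g i = ∑ i : IR l N, (v i : ℂ) * g i := by
  rw [← Fintype.sum_subtype_add_sum_subtype (trI l N), sum_eq_zero fun i _ => by
    simp [exN, i.2], zero_add]
  exact sum_congr rfl fun i _ => by simp [exN, i.2]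

theorem quad_le {I : Type} [Fintype I] [DecidableEq I] (M : Matrix I I ℂ) (u : I → ℂ) :
    ‖u ⬝ᵥ M *ᵥ u‖ ≤ ‖M‖ * ∑ i, ‖u i‖ ^ 2 := by
  refine (norm_sum_le _ _).trans (abs_le_of_sq_le_sq' ?_ (by positivity)).2
  simp only [norm_mul]
  refine (sum_mul_sq_le_sq_mul_sq _ _ _).trans ((mul_le_mul_of_nonneg_left (Loc.mulVec_le M u)
    (by positivity)).trans_eq (by ring))

theorem det_Y {O : Od} {c : ℕ} {δ : ℝ} (h : O.Ok c) (hδ : (LL O.l : ℝ) ^ (2 * c + 10) * δ ≤ 1)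
    (hn : ∀ i, Odd (N i)) (hN : ∀ i, 2 * O.N < N i) {ka : St → Kf} (hp : PerK N ka)
    (hr : ∀ y, Kr (ka y)) (hs : ∀ y, Ks (ka y)) {W0 : Conf} (h0 : PV N W0)
    (hg : ∀ y, Gk O δ ∅ ka (cC W0) W0 y) {Y : Matrix (IR O.l N) (IR O.l N) ℝ} (hY : Y.IsSymm)
    (hq : ∀ v, v ⬝ᵥ Y *ᵥ v = ∑ y : TS N, (qk O.l (ka (lf y)) (sh (up O.l (lf y)) (pf (exN v)))
      (sh (up O.l (lf y)) (pf (exN v)))).re) :
    (∀ v, v ⬝ᵥ v ≤ 2 * (LL O.l : ℝ) ^ (c + 1) * (v ⬝ᵥ Y *ᵥ v)) ∧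
    |Real.log Y.det - Fintype.card (IR O.l N) * Real.log O.Λ +
      2 * ∑ y : TS N, (dtK O.l O.Λ O.N ∅ (shK (lf y) ka)).re| ≤
      10 * Fintype.card (TS N) * Real.exp (-(O.l : ℝ) ^ 2) := by
  have hH : PerS N (∅ : Set St) := fun _ => rfl
  have hL := h.LL_ge
  have Λ0 := h.lam_pos
  set M := Loc.mat N O.l (topKL O.l O.Λ ∅ ka) with hM
  have M1 : ∀ i j, (M i j).im = 0 := fun i j => topK_real (fun y _ => hr y) (Loc.bv_real j) _ _
  have M2 : M.IsHermitian := Loc.herm_mat hn (fun _ => topK_real fun y _ => hr y)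
    fun _ _ hA hA' => topK_symm hn hH hp hs hA hA'
  have M3 : ‖M‖ ≤ O.θ c :=
    Loc.norm_mat hn (Od.θ_mem h).1 fun _ => topK_l2 h hδ hn hH (pv_iff.1 h0) hg
  set e := ixE hn O.l
  set M' := (1 - M).submatrix e.symm e.symm with hM'
  have M4 : ∀ i, trI O.l N i → ∀ j, M' i j = if i = j then 1 else 0 := fun i hi j => by
    have : M (e.symm i) (e.symm j) = 0 := congrFun (topK_not fun ha =>
      (act_cs (N := N) _ (e.symm i).2.2).1 ha (by
        change trI _ _ (e (e.symm i)); rwa [e.apply_symm_apply])) _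
    simp [hM', this, one_apply]
  let Z : Matrix (IR O.l N) (IR O.l N) ℝ := of fun i j => (M' i j).re
  have Z1 : ∀ i j : IR O.l N, M' i j = Z i j := fun i j => Complex.ext rfl (by
    simp [hM', M1, one_apply, apply_ite Complex.im])
  have Z2 : Z.IsSymm := by
    ext i j
    have := congrArg Complex.re ((isHermitian_one.sub M2).apply (e.symm i) (e.symm j))
    exact this
  have Z3 : ∀ v, ((v ⬝ᵥ Z *ᵥ v : ℝ) : ℂ) = Loc.vec N O.l (pf (exN v)) ⬝ᵥ
      (1 - M) *ᵥ Loc.vec N O.l (pf (exN v)) := fun v => by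
    have e1 : ∀ j, Loc.vec N O.l (pf (exN v)) (e.symm j) = exN v j := fun j => by
      conv_rhs => rw [← e.apply_symm_apply j]
      rfl
    simp only [dotProduct, mulVec, ← e.symm.sum_comp, e1, sum_exN, mul_comm ((1 - M) _ _)]
    simp only [Complex.ofReal_sum, Complex.ofReal_mul, ← Z1, mul_comm (Z _ _)]
    rfl
  have Z4 : ∀ v, ∑ i, ‖Loc.vec N O.l (pf (exN v)) i‖ ^ 2 = v ⬝ᵥ v ∧
      Loc.vec N O.l (pf (exN v)) ⬝ᵥ Loc.vec N O.l (pf (exN v)) = (v ⬝ᵥ v : ℝ) := fun v => by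
    have e1 : Loc.vec N O.l (pf (exN v)) ⬝ᵥ Loc.vec N O.l (pf (exN v)) = (v ⬝ᵥ v : ℝ) :=
      (e.sum_comp fun i => (exN v i : ℂ) * exN v i).trans ((sum_exN v _).trans (by
        simp [dotProduct, exN, fun i : IR O.l N => i.2]))
    refine ⟨Complex.ofReal_injective (Eq.trans ?_ e1), e1⟩
    simp [dotProduct, Loc.vec_apply, pf, sq, ← Complex.ofReal_mul]
  have Z5 : Y = O.Λ • Z := symm_ext hY (Z2.smul _) fun v => by
    have hA := pv_iff.1 (pv_pf (exN v))
    have := congrArg Complex.re (Z3 v)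
    rw [sub_mulVec, one_mulVec, dotProduct_sub, hM, Loc.mat_vec hn hA, ← Loc.bp_vec, ← Loc.bp_vec,
      topKL_apply, bp_topK hn hH hp hA hA, pj_exN, sub_sub_cancel, QK,
      sum_domv hn fun x w => by rw [hp, up_add, ← sh_sh, up_pv, hA], ← Complex.ofReal_inv,
      Complex.re_ofReal_mul, Complex.re_sum, ← hq, Complex.ofReal_re] at this
    rw [smul_mulVec, dotProduct_smul, this, smul_eq_mul, mul_inv_cancel_left₀ Λ0.ne']
  have θ1 : 1 - O.θ c = (2 * (LL O.l : ℝ) ^ (2 * c + 2))⁻¹ := sub_sub_cancel _ _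
  refine ⟨fun v => ?_, ?_⟩
  · have h1 := quad_le M (Loc.vec N O.l (pf (exN v)))
    have h2 := Z3 v
    rw [sub_mulVec, one_mulVec, dotProduct_sub, (Z4 v).2, eq_sub_iff_add_eq, ← eq_sub_iff_add_eq',
      ← Complex.ofReal_sub] at h2
    rw [h2, (Z4 v).1, Complex.norm_real] at h1
    have h3 : 0 ≤ v ⬝ᵥ v := (Z4 v).1 ▸ by positivity
    have h4 : (1 - O.θ c) * v ⬝ᵥ v ≤ v ⬝ᵥ Z *ᵥ v := by
      linarith [le_abs_self (v ⬝ᵥ v - v ⬝ᵥ Z *ᵥ v), mul_le_mul_of_nonneg_right M3 h3,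
        Real.norm_eq_abs (v ⬝ᵥ v - v ⬝ᵥ Z *ᵥ v)]
    rw [θ1, inv_mul_le_iff₀ (by positivity)] at h4
    rw [Z5, smul_mulVec, dotProduct_smul, h.lam, smul_eq_mul]
    exact h4.trans_eq (by ring)
  · obtain ⟨μ, m1, m2, m3, -⟩ := Loc.spectral M2
    have m4 : ∀ i, |μ i| < 1 := fun i => ((m1 i).trans M3).trans_lt h.θ_lt
    have m5 : ∀ i, 1 - μ i ≠ 0 := fun i => by linarith [(abs_lt.1 (m4 i)).2]
    have d1 : Z.det = ∏ i, (1 - μ i) := by
      have e1 := m3 (1 - X)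
      rw [map_sub, map_one, aeval_X, ← det_submatrix_equiv_self e.symm, ← hM',
        twoBlockTriangular_det' _ (trI O.l N) fun i hi j hj => by
          rw [M4 i hi, if_neg fun h : i = j => hj (h ▸ hi)],
        show toSquareBlockProp M' (trI O.l N) = 1 from by
          ext i j; simp [toSquareBlockProp_def, M4 i i.2, one_apply, Subtype.ext_iff],
        show toSquareBlockProp M' (fun i => ¬ trI O.l N i) = Z.map Complex.ofReal from by
          ext i j; exact Z1 i j, det_one, one_mul, Loc.det_ofReal] at e1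
      exact Complex.ofReal_injective (e1.trans (by simp))
    have d2 : 2 * ∑ y : TS N, (dtK O.l O.Λ O.N ∅ (shK (lf y) ka)).re =
        ∑ i, ∑ k ∈ range O.N, μ i ^ (k + 1) / (k + 1) := by
      have e1 := m2 (pQ O.N)
      rw [hM, ← Loc.mat_aeval hn (pg_topK hH hp), Loc.trace_mat, sum_congr rfl fun y _ => trB_pQ hN y,
        sum_domv hn (g := fun y => dtK O.l O.Λ O.N (shS y ∅) (shK y ka)) fun x w => by
          rw [← shK_shK, hp.shK]; rfl] at e1
      rw [← Complex.re_sum, show ∑ y : TS N, dtK O.l O.Λ O.N ∅ (shK (lf y) ka) = _ from e1]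
      simp only [Complex.re_sum, mul_sum, pQ, eval_finset_sum, eval_monomial]
      refine sum_congr rfl fun i _ => sum_congr rfl fun k _ => ?_
      rw [show (1 / (2 * (k + 1)) * (μ i : ℂ) ^ (k + 1)) =
        (1 / (2 * (k + 1)) * μ i ^ (k + 1) : ℝ) by push_cast; rfl, Complex.ofReal_re]
      field_simp
    have d3 : (Fintype.card (Loc.IX N O.l) : ℝ) = Fintype.card (TS N) * (12 * (LL O.l : ℝ) ^ 4) := by
      have := sum_domv hn (g := fun _ => (1 : ℝ)) fun _ _ => rfl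
      simp only [sum_const, nsmul_eq_mul, mul_one, card_univ] at this
      simp only [Fintype.card_prod, Fintype.card_coe, card_lbox, Fintype.card_fin, LL, ← this]
      push_cast
      ring
    rw [Z5, det_smul, Real.log_mul (pow_pos Λ0 _).ne' (d1 ▸ prod_ne_zero_iff.2 fun i _ => m5 i),
      Real.log_pow, add_sub_cancel_left, d1, Real.log_prod fun i _ => m5 i, d2, ← sum_add_distrib]
    refine (abs_sum_le_sum_abs _ _).trans ((sum_le_card_nsmul _ _
      (O.θ c ^ O.N * (2 * (LL O.l : ℝ) ^ (2 * c + 2))) fun i _ => ?_).trans ?_)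
    · rw [add_comm]
      refine (Real.abs_log_sub_add_sum_range_le (m4 i) _).trans ?_
      rw [← div_inv_eq_mul, ← θ1, pow_succ]
      have := (m1 i).trans M3
      exact div_le_div₀ (pow_nonneg (Od.θ_mem h).1 _) ((mul_le_of_le_one_right
        (by positivity) (m4 i).le).trans (by gcongr)) (sub_pos.2 h.θ_lt) (by linarith)
    · have h1 := Od.θ_pow h (j := 2 * c + 7) (by have := h.big; omega)
      have h2 := mul_le_mul_of_nonneg_right (h.pow_le (C := 24) (by norm_num) (i := 2 * c + 6)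
        (j := 2 * c + 7) (by omega)) (pow_nonneg (Od.θ_mem h).1 O.N)
      rw [nsmul_eq_mul, card_univ, d3, mul_assoc, mul_comm 10, mul_assoc _ 10]
      refine mul_le_mul_of_nonneg_left ?_ (Nat.cast_nonneg _)
      calc _ = 24 * (LL O.l : ℝ) ^ (2 * c + 6) * O.θ c ^ O.N := by ring
        _ ≤ _ := by linarith [Real.exp_pos (-(O.l : ℝ) ^ 2)]

end Pool.Agent.Lib.MP_7f377f_mp.RG.Q4.Af
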