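import Pool.Agent.Lib.MP_7f377f_mp.Q4AfD

/-! Local Taylor coefficients at small backgrounds. -/

noncomputable section

namespace Pool.Agent.Lib.MP_7f377f_mp.RG.Q4.Af

open Finset Matrix Filter Metric Kit Kit.Dom
open scoped Quaternion Topology

theorem two_of_cubic {x y : ℂ} {C s0 : ℝ} (h0 : 0 < s0)
    (h : ∀ s : ℝ, 0 < s → s ≤ s0 → ‖s * x + s ^ 2 * y‖ ≤ C * s ^ 3) : x = 0 ∧ y = 0 := by
  have hx : x = 0 := by
    rw [← norm_le_zero_iff]
    refine le_of_forall_pos_le_add fun ε hε => ?_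
    have hp : 0 < min (min s0 1) (ε / (|C| + ‖y‖ + 1)) := by positivity
    have h1 := h _ hp ((min_le_left _ _).trans (min_le_left _ _))
    have h2 := (le_div_iff₀ (by positivity)).1 (min_le_right (min s0 1) (ε / (|C| + ‖y‖ + 1)))
    have h3 := (min_le_left _ (ε / (|C| + ‖y‖ + 1))).trans (min_le_right s0 1)
    generalize min (min s0 1) (ε / (|C| + ‖y‖ + 1)) = s at *
    have h4 := norm_sub_le (s * x + s ^ 2 * y) (s ^ 2 * y)
    rw [add_sub_cancel_right, norm_mul, norm_mul, norm_pow, Complex.norm_real,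
      Real.norm_of_nonneg hp.le] at h4
    have h5 : C * s ^ 3 ≤ |C| * s ^ 2 :=
      mul_le_mul (le_abs_self C) (pow_le_pow_of_le_one hp.le h3 (by norm_num)) (by positivity)
        (abs_nonneg C)
    refine le_of_mul_le_mul_left (a := s) ?_ hp
    nlinarith [mul_le_mul_of_nonneg_left h2 hp.le]
  refine ⟨hx, norm_le_zero_iff.1 (le_of_cubic (C := C) h0 fun s h1 h2 => ?_)⟩
  simpa [hx, abs_of_pos h1] using h s h1 h2

section lo
variable {I : Type} [DecidableEq I] {src tgt : I → St} {S : Finset I} {δ M : ℝ}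
  {t : (I → Hc) → ℂ} {g : I → C3}

def pl (I : Type) : (I → C3) →ₗ[ℂ] (I → C3 × C3) where
  toFun A i := (A i, 0)
  map_add' _ _ := by funext i; simp
  map_smul' _ _ := by funext i; simp

theorem Lo.lh1 (h : Lo src tgt S δ M t) (h0 : 0 < δ / 20) (h1 : δ ≤ 1 / 10)
    (hg : ∀ i ∈ S, ‖g i‖ ≤ δ / 20) : (sD (F := C3) S h0).LH (ph t fun i => ex (g i)) ∧
      ∀ A ∈ (sD (F := C3) S h0).D 1, ‖ph t (fun i => ex (g i)) A‖ ≤ M := by
  obtain ⟨a, b⟩ := h.lh2 (by linarith) h1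
  have hj : ∀ v ∈ (sD (F := C3) S h0).D 1, (fun i => ((0 : C3), g i)) + pl I v ∈
      (sD (F := C3 × C3) S (by linarith : 0 < δ / 10)).D 1 := fun v hv i hi => by
    simp only [pl, Pi.add_apply, LinearMap.coe_mk, AddHom.coe_mk, Prod.mk_add_mk, Prod.norm_mk,
      zero_add, add_zero]
    exact max_le (by linarith [hv i hi]) (by linarith [hg i hi])
  exact ⟨by simpa [pl] using LH_comp a (pl I) hj, fun A hA => by simpa [pl] using b _ (hj A hA)⟩

omit [DecidableEq I] in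
theorem Lo.nonneg (h : Lo src tgt S δ M t) (h0 : 0 ≤ δ) : 0 ≤ M :=
  (norm_nonneg _).trans (h.bd 1 fun i _ => by simpa using h0)

/-- size of the second coefficient and dependence on the background -/
theorem Lo.q2_le (h : Lo src tgt S δ M t) (h1 : δ ≤ 1 / 10) {η a : ℝ} (η0 : 0 < η)
    (η1 : 100 * η ≤ δ) (hg : ∀ i ∈ S, ‖g i‖ ≤ η) {A : I → C3} (a0 : 0 ≤ a) (hA : ∀ i ∈ S, ‖A i‖ ≤ a) :
    ‖q2 (ph t fun i => ex (g i)) 0 A - q2 (ph t 1) 0 A‖ ≤ 256000 * M * η / δ ^ 3 * a ^ 2 ∧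
      ‖q2 (ph t fun i => ex (g i)) 0 A‖ ≤ 5000 * M / δ ^ 2 * a ^ 2 := by
  have δ0 : 0 < δ := by linarith
  have M0 := h.nonneg δ0.le
  have d0 : 0 < δ / 10 := by linarith
  obtain ⟨p, q⟩ := h.lh2 d0 h1
  have key : ∀ a', a < a' →
      ‖q2 (ph t fun i => ex (g i)) 0 A - q2 (ph t 1) 0 A‖ ≤ 256000 * M * η / δ ^ 3 * a' ^ 2 ∧
      ‖q2 (ph t 1) 0 A‖ ≤ 1600 * M / δ ^ 2 * a' ^ 2 := fun a' ha => by
    have := q2_lip p q (θ := a' / (δ / 10)) (η := η / (δ / 10)) (B := 0)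
      (δ := fun i => (0, g i)) (v := pl I A) (div_pos (by linarith) d0) (div_pos η0 d0)
      (by rw [div_lt_iff₀ d0]; linarith) (fun i _ => by simp; linarith)
      (mem_sD d0 fun i hi => by simpa using hg i hi)
      (mem_sD d0 fun i hi => by simpa [pl] using (hA i hi).trans ha.le)
    rw [(q2_congr (k' := ph t fun i => ex (g i)) (B := 0 + _) (B' := 0) (v' := A) fun s => by
        simp [pl]; rfl).1, (q2_congr (k := fun P : I → C3 × C3 => ph t (fun i => ex (P i).2)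
          fun i => (P i).1) (k' := ph t 1) (B := 0) (B' := 0) (v' := A) fun s => by
        simp [pl]; rfl).1] at this
    exact ⟨this.1.trans_eq (by field_simp; ring), this.2.trans_eq (by field_simp; ring)⟩
  have lim : ∀ {x K : ℝ}, (∀ a', a < a' → x ≤ K * a' ^ 2) → x ≤ K * a ^ 2 := fun {x K} H =>
    ge_of_tendsto (f := fun a' => K * a' ^ 2) (x := 𝓝[>] a)
      ((Continuous.tendsto (by fun_prop) a).mono_left nhdsWithin_le_nhds)
      (eventually_nhdsWithin_of_forall H)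
  have k1 := lim fun a' ha => (key a' ha).1
  have k2 := lim fun a' ha => (key a' ha).2
  refine ⟨k1, (norm_le_insert' _ (q2 (ph t 1) 0 A)).trans ?_⟩
  have : 256000 * M * η / δ ^ 3 ≤ 2560 * M / δ ^ 2 := by
    rw [div_le_div_iff₀ (by positivity) (by positivity)]
    nlinarith [mul_le_mul_of_nonneg_left η1 (by positivity : 0 ≤ M * δ ^ 2)]
  have := mul_le_mul_of_nonneg_right this (sq_nonneg a)
  have : 0 ≤ M / δ ^ 2 * a ^ 2 := by positivity
  simp only [mul_div_assoc] at *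
  linarith

/-- neutral fluctuations of an abelian background may be changed by a gradient -/
theorem Lo.neutral (h : Lo src tgt S δ M t) (h0 : 0 < δ / 20) (h1 : δ ≤ 1 / 10)
    (hg : ∀ i ∈ S, ‖g i‖ ≤ δ / 20) {θ : I → Real.Angle} (hθ : ∀ i ∈ S, ex (g i) = cS (eA (θ i)))
    (a : I → ℝ) (c : St → ℝ) :
    dv (ph t fun i => ex (g i)) 0 (fun i => ![(a i : ℂ), 0, 0]) = dv (ph t fun i => ex (g i)) 0
      (fun i => ![((a i + (c (src i) - c (tgt i)) : ℝ) : ℂ), 0, 0]) ∧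
    q2 (ph t fun i => ex (g i)) 0 (fun i => ![(a i : ℂ), 0, 0]) = q2 (ph t fun i => ex (g i)) 0
      (fun i => ![((a i + (c (src i) - c (tgt i)) : ℝ) : ℂ), 0, 0]) := by
  obtain ⟨p, q⟩ := h.lh1 h0 h1 hg
  obtain ⟨ℓ, β, -, b2, b3, b4⟩ := LH_tay p q (sD_all S h0)
  have M0 := h.nonneg (by linarith)
  set d := fun i => c (src i) - c (tgt i) with hd
  set k := ph t fun i => ex (g i)
  have nv : ∀ x : ℝ, ‖(![(x : ℂ), 0, 0] : C3)‖ ≤ |x| := fun x =>
    (pi_norm_le_iff_of_nonneg (abs_nonneg x)).2 fun k => by fin_cases k <;> simp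
  obtain ⟨A, A0, hA⟩ : ∃ A : ℝ, 0 < A ∧ ∀ i ∈ S, |a i| ≤ A ∧ |d i| ≤ A :=
    ⟨∑ i ∈ S, (|a i| + |d i|) + 1, by positivity, fun i hi => by
      have := single_le_sum (f := fun i => |a i| + |d i|) (fun _ _ => by positivity) hi
      constructor <;> linarith [abs_nonneg (a i), abs_nonneg (d i)]⟩
  set ρ := δ / 20
  have ρ1 : ρ ≤ 1 := by simp only [ρ]; linarith
  rw [← b2, ← b2, ← b3, ← b3, ← sub_eq_zero, ← sub_eq_zero (a := β _ _)]
  refine two_of_cubic (s0 := ρ / (100 * A)) (C := 24 * M * (2 * A / ρ) ^ 3 + 36 * M * A ^ 3 / ρ)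
    (by positivity) fun s s0 s1 => ?_
  have s2 := (le_div_iff₀ (by positivity)).1 s1
  have nn : ∀ {x : ℝ}, |x| ≤ A → |s * x| ≤ s * A := fun h => by
    rw [abs_mul, abs_of_pos s0]; gcongr
  have key := fun i hi => tan_arctan_add (nn (hA i hi).1) (nn (hA i hi).2) (by linarith)
  have sm : ∀ x : I → ℝ, (∀ i ∈ S, |x i| ≤ 2 * A) → (s : ℂ) • (fun i => ![(x i : ℂ), 0, 0] : I → C3) ∈
      (sD (F := C3) S h0).D (s * (2 * A) / ρ) := fun x hx => mem_sD h0 fun i hi => by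
    rw [Pi.smul_apply, norm_smul, Complex.norm_real, Real.norm_of_nonneg s0.le]
    exact mul_le_mul_of_nonneg_left ((nv _).trans (hx i hi)) s0.le
  have r1 : s * (2 * A) / ρ ≤ 1 / 2 := by rw [div_le_iff₀ h0]; linarith
  have m1 := sm a fun i hi => by linarith [(hA i hi).1]
  have m2 := sm (fun i => a i + d i) fun i hi => (abs_add_le _ _).trans (by linarith [hA i hi])
  have t1 := (b4 _ _ m1 (by positivity) (by linarith)).1
  have t2 := (b4 _ _ m2 (by positivity) (by linarith)).1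
  have t3 := p.lip q ((sD S h0).mono r1 m2) (θ := 9 * (s * A) ^ 3 / ρ) (δ := fun i =>
    ![((Real.tan (Real.arctan (s * a i) + s * d i) - (s * a i + s * d i) : ℝ) : ℂ), 0, 0])
    (mem_sD h0 fun i hi => (nv _).trans (key i hi).2) (by positivity) (by
      have : (s * A) ^ 3 ≤ s * A := pow_le_of_le_one (by positivity) (by linarith) (by norm_num)
      rw [← lt_sub_iff_add_lt', div_lt_iff₀ h0]; linarith)
  have e : k ((s : ℂ) • (fun i => ![((a i + d i : ℝ) : ℂ), 0, 0]) + fun i =>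
      ![((Real.tan (Real.arctan (s * a i) + s * d i) - (s * a i + s * d i) : ℝ) : ℂ), 0, 0]) =
      k ((s : ℂ) • fun i => ![(a i : ℂ), 0, 0]) := by
    simp only [k, ph]
    rw [← h.gi (fun x => eA (s * c x : ℝ)) fun i => ex (((s : ℂ) • _ : I → C3) i) * _]
    refine h.loc _ _ fun i hi => ?_
    rw [ga, hθ i hi, show ((s : ℂ) • (fun i => ![(a i : ℂ), 0, 0]) : I → C3) i =
      ![((s * a i : ℝ) : ℂ), 0, 0] from c3_ext (by simp) (by simp) (by simp), ex_neutral,
      show (((s : ℂ) • (fun i => ![((a i + d i : ℝ) : ℂ), 0, 0]) + fun i =>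
      ![((Real.tan (Real.arctan (s * a i) + s * d i) - (s * a i + s * d i) : ℝ) : ℂ), 0, 0] :
        I → C3) i) = ![((Real.tan (Real.arctan (s * a i) + s * d i) : ℝ) : ℂ), 0, 0] from
      c3_ext (by simp) (by simp) (by simp), ex_neutral, (key i hi).1, ← cS_inv, ← cS_mul,
      ← cS_mul, ← cS_mul, ← cS_mul, ← eA_neg, ← eA_add, ← eA_add, ← eA_add, ← eA_add]
    simp only [hd, mul_sub, Real.Angle.coe_add, Real.Angle.coe_sub]
    congr 2; abel
  rw [e] at t3
  simp only [map_smul, LinearMap.smul_apply, smul_eq_mul] at t1 t2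
  refine le_of_eq_of_le (congrArg norm ?_) (((norm_sub_le _ _).trans (add_le_add
    ((norm_add_le _ _).trans (add_le_add t2 t3)) t1)).trans (le_of_eq ?_))
  · ring
  · field_simp; ring

/-- Taylor expansion of a sum over a family of gauge equivalent backgrounds -/
theorem Lo.tay_fam (h : Lo src tgt S δ M t) (h0 : 0 < δ / 20) (h1 : δ ≤ 1 / 10)
    (hg : ∀ i ∈ S, ‖g i‖ ≤ δ / 20) {X J : Type} [Fintype X] [Fintype J] [DecidableEq J]
    (V : X → I → S3) (u : X → St → S3)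
    (hV : ∀ x, ∀ i ∈ S, ga src tgt (u x) (fun i => cS (V x i)) i = ex (g i)) (j : X → I → Fin 3 → J) :
    ∃ (ℓ : (J → ℝ) →ₗ[ℝ] ℝ) (Q : Matrix J J ℝ),
      Tay (fun a => ∑ x, (t fun i => ex (cR fun k => a (j x i k)) * cS (V x i)).re - ℓ a) Q
        (Fintype.card X * (12 * M / (δ / 240) ^ 3)) (δ / 240) ∧
      (∀ a, ℓ a = ∑ x, (dv (ph t fun i => ex (g i)) 0
        fun i => adq (cS (u x (src i))) (cR fun k => a (j x i k))).re) ∧
      ∀ a, a ⬝ᵥ Q *ᵥ a = ∑ x, (q2 (ph t fun i => ex (g i)) 0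
        fun i => adq (cS (u x (src i))) (cR fun k => a (j x i k))).re := by
  obtain ⟨p, q⟩ := h.lh1 h0 h1 hg
  let jj : X → (J → ℝ) →ₗ[ℝ] (I → C3) := fun x =>
    { toFun := fun a i => adq (cS (u x (src i))) (cR fun k => a (j x i k))
      map_add' := fun a b => by funext i; rw [Pi.add_apply, ← adq_add, ← cR_add]; rfl
      map_smul' := fun c a => by
        funext i
        rw [RingHom.id_apply, Pi.smul_apply, ← Complex.coe_smul, ← adq_smul, ← cR_smul]; rfl }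
  obtain ⟨ℓ, Q, a1, a2, a3⟩ := tay_sum (fun _ : X => ph t fun i => ex (g i)) (fun _ => p) (fun _ => q)
    (sD_all S h0) jj (by linarith : 0 < δ / 240) fun x a i _ => by
      refine (norm_adq_cS _ _).trans ?_
      rw [norm_cR]
      have : ‖fun k => a (j x i k)‖ ≤ ‖a‖ :=
        (pi_norm_le_iff_of_nonneg (norm_nonneg _)).2 fun _ => norm_le_pi_norm a _
      have δ0 : 0 < δ := by linarith
      field_simp
      linarith
  refine ⟨ℓ, Q, a1.congr fun a _ => ?_, a2, a3⟩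
  congr 1
  refine sum_congr rfl fun x _ => congrArg _ ?_
  refine ((ph_ga h (u x) (fun i => cS (V x i)) _).symm).trans (h.loc _ _ fun i hi => ?_)
  rw [hV x i hi]; rfl

end lo

end Pool.Agent.Lib.MP_7f377f_mp.RG.Q4.Af
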