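import Pool.Agent.Lib.MP_7f377f_mp.Q4AfH

/-! Constant flux under blocking: lattice geometry. -/

noncomputable section

namespace Pool.Agent.Lib.MP_7f377f_mp.RG.Q4.Af

open Finset Matrix
open scoped Quaternion

variable {l : ℕ} {F : ℝ} {θ : Lk → Real.Angle} {N : Fin 4 → ℕ} [∀ i, NeZero (N i)]

theorem ps_mem (l : ℕ) (x : St) : ps l x ∈ box l := sub_up_yo_mem l x

theorem ps_add_up (l : ℕ) (x y : St) : ps l (x + up l y) = ps l x := by
  simp [ps, yo_add_up, up_add]

theorem ps_of_mem {x : St} (h : x ∈ box l) : ps l x = x := by simp [ps, yo_of_mem h]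

theorem ps_step (l : ℕ) (x : St) (μ : Fin 4) :
    ps l x μ ≠ l ∧ yo l (x + un μ) = yo l x ∧ ps l (x + un μ) = ps l x + un μ ∨
    ps l x μ = l ∧ yo l (x + un μ) ≠ yo l x ∧ yo l (x + un μ) = yo l x + un μ ∧
      ps l (x + un μ) = ps l x + un μ - up l (un μ) := by
  have a := mem_box.1 (ps_mem l x) μ
  have b := mem_box.1 (ps_mem l (x + un μ)) μ
  have c := LL_cast l
  rcases yo_add_un l x μ with h | h
  · have e : ps l (x + un μ) = ps l x + un μ := by simp only [ps, h]; abel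
    rw [e, Pi.add_apply, un_self] at b
    exact .inl ⟨by omega, h, e⟩
  · have e : ps l (x + un μ) = ps l x + un μ - up l (un μ) := by simp only [ps, h, up_add]; abel
    rw [e, Pi.sub_apply, Pi.add_apply, up_apply, un_self] at b
    exact .inr ⟨by omega, fun h' => by simpa [h] using congrFun h' μ, h, e⟩

theorem abs_ps (x : St) (i : Fin 4) : |(ps l x i : ℝ)| ≤ LL l := by
  have a := mem_box.1 (ps_mem l x) i
  have c := LL_cast l
  exact_mod_cast (by rw [abs_le]; omega : |ps l x i| ≤ (LL l : ℤ))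

theorem abs_bF (f : Lk) : |bF l F f| ≤ |F| := by
  have L1 : (1 : ℝ) ≤ LL l := by exact_mod_cast LL_pos l
  have := abs_nonneg F
  unfold bF
  split_ifs
  · rw [abs_neg, abs_mul, abs_div, abs_pow, Nat.abs_cast, div_mul_eq_mul_div,
      div_le_iff₀ (by positivity)]
    gcongr; exact (abs_ps _ _).trans (by nlinarith)
  · rw [abs_mul, abs_div, Nat.abs_cast, div_mul_eq_mul_div, div_le_iff₀ (by positivity)]
    gcongr; exact abs_ps _ _
  · simp

theorem lift_tree {f : Lk} (h : tree l f) : lift l F θ f = 0 := by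
  have a := ps_step l f.1 f.2
  have : bF l F f = 0 := by
    unfold bF
    split_ifs with h1 h2
    · simp [ps, h.2 1 (by simp [h1])]
    · rw [h2.1] at a; exact absurd (h2.1 ▸ h.1) (by tauto)
    · rfl
  simp [lift, izA, this, h.1]

theorem sh_izA {W : Type} [Zero W] (a : Lk → W) (y : St) :
    sh (up l y) (izA l a) = izA l (sh y a) := by
  funext f; simp [izA, add_right_comm f.1 (up l y), yo_add_up]

theorem sh_lift (y : St) : sh (up l y) (lift l F θ) = lift l F (sh y θ) := by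
  funext f; simp [lift, ← sh_izA, bF, ps_add_up]

theorem lift_gr (u : St → Real.Angle) :
    lift l F (θ - gr u) = lift l F θ - gr fun x => u (yo l x) := by
  funext f
  rcases ps_step l f.1 f.2 with h | h
  · simp [lift, izA, gr, h.2.1]
  · simp [lift, izA, gr, h.2.1, add_sub_assoc]; simp [h.2.2.1]

theorem flux_gr (h : ∀ x μ ν, dd θ x μ ν = (kF F μ ν : ℝ)) :
    ∃ u, θ = (fun e => ((aF F e : ℝ) : Real.Angle)) - gr u := by
  have := cg_of_dd (a := θ) (b := fun e => ((aF F e : ℝ) : Real.Angle)) (by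
    funext x μ ν; rw [h, ← dd_aF F x]; simp [dd])
  refine ⟨fun x => lam (fun e => ((aF F e : ℝ) : Real.Angle)) x - lam θ x, ?_⟩
  funext e
  have := congrFun this e
  simp only [cg, gr, Pi.sub_apply] at this ⊢
  rw [← sub_eq_zero] at this ⊢
  rw [← this]; abel

theorem lift_aF (f : Lk) : lift l F (fun e => ((aF F e : ℝ) : Real.Angle)) f =
    ((bF l F f + izA l (aF F) f : ℝ) : Real.Angle) := by
  simp only [lift, izA]; split_ifs <;> simp

theorem bF_eq (l : ℕ) (F : ℝ) : bF l F + izA l (aF F) = aF (F / (LL l : ℝ) ^ 2) -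
    gr fun x => F / (LL l : ℝ) ^ 2 * ps l x 1 * x 0 := by
  have L0 : (LL l : ℝ) ≠ 0 := by exact_mod_cast (LL_pos l).ne'
  funext ⟨x, μ⟩
  have e : (x 0 : ℝ) = ps l x 0 + LL l * yo l x 0 := by simp [ps, up_apply]
  have u1 : ∀ ν, un ν ≠ 0 := fun ν h => by simpa using congrFun h ν
  rcases ps_step l x μ with h | h <;> fin_cases μ <;>
    simp_all [bF, izA, aF, gr, un_apply, up_apply] <;> field_simp <;> ring

theorem dd_lift (h : ∀ x μ ν, dd θ x μ ν = (kF F μ ν : ℝ)) (x : St) (μ ν : Fin 4) :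
    dd (lift l F θ) x μ ν = (kF (F / (LL l : ℝ) ^ 2) μ ν : ℝ) := by
  obtain ⟨u, rfl⟩ := flux_gr h
  have := congrArg (fun a => dd a x μ ν) (bF_eq l F)
  simp only [dd_sub, dd_gr, dd_aF, sub_zero] at this
  rw [lift_gr, dd_sub, dd_gr, sub_zero, ← this]
  simp [dd, lift_aF]

theorem line_izA {W : Type} [AddCommMonoid W] (a : Lk → W) {t : St} (ht : t ∈ box l) (μ : Fin 4) :
    ∑ i ∈ range (LL l), izA l a (t + (i : ℤ) • un μ, μ) = a (0, μ) := by
  have b := mem_box.1 ht
  have c := LL_cast l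
  have m : ∀ i : ℤ, -(l : ℤ) ≤ t μ + i → t μ + i ≤ l → t + i • un μ ∈ box l := fun i h1 h2 =>
    mem_box.2 fun k => by
      by_cases e : k = μ
      · subst e; simpa using ⟨h1, h2⟩
      · simpa [un_ne e] using b k
  have b' := b μ
  rw [sum_eq_single_of_mem (l - t μ).toNat (mem_range.2 (by omega)) fun i hi hi' => ?_]
  · have := m ((l - t μ).toNat) (by omega) (by omega)
    rcases ps_step l (t + ((l - t μ).toNat : ℤ) • un μ) μ with h | h
    · rw [ps_of_mem this] at h
      exact absurd (by simp; omega) h.1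
    · rw [izA, if_neg h.2.1, yo_of_mem this]
  · have := mem_range.1 hi
    rcases ps_step l (t + (i : ℤ) • un μ) μ with h | h
    · exact if_pos h.2.1
    · rcases le_or_gt (t μ + i) l with h1 | h1
      · rw [ps_of_mem (m i (by omega) h1)] at h
        have := h.1; simp at this; omega
      · rw [show t + (i : ℤ) • un μ = t + ((i : ℤ) - LL l) • un μ + up l (un μ) by
          simp [up, sub_smul]; abel, ps_add_up, ps_of_mem (m _ (by omega) (by omega))] at h
        have := h.1; simp at this; omega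

theorem loop_izA (μ : Fin 4) (n : ℕ) : ∑ s ∈ range (LL l * n), izA l θ ((s : ℤ) • un μ, μ) =
    ∑ s ∈ range n, θ ((s : ℤ) • un μ, μ) := by
  induction n with
  | zero => simp
  | succ n ih =>
    have := line_izA (sh ((n : ℤ) • un μ) θ) (zero_mem_box l) μ
    rw [← sh_izA] at this
    rw [mul_add_one, sum_range_add, ih, sum_range_succ]
    congr 1
    simpa [up, add_smul, mul_smul, add_comm, -zsmul_eq_mul, -nsmul_eq_mul] using this

omit [∀ i, NeZero (N i)] in
theorem fi_period (μ : Fin 4) : ((fi l N μ : ℕ) : ℤ) • un μ = up l ((N μ : ℤ) • un μ) := by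
  simp [up, mul_smul]

omit [∀ i, NeZero (N i)] in
theorem bg_lift (h : Bg N F θ) : Bg (fi l N) (F / (LL l : ℝ) ^ 2) (lift l F θ) :=
  ⟨fun μ => by rw [fi_period, sh_lift, h.per], dd_lift h.curv,
    ((sum_congr rfl fun _ _ => by simp [lift, bF]).trans (loop_izA 2 _)).trans h.hol2,
    ((sum_congr rfl fun _ _ => by simp [lift, bF]).trans (loop_izA 3 _)).trans h.hol3⟩

/-- complex numbers inside the quaternions -/
def jc : ℂ →+* Hc where
  toFun z := cq (Ho.mq z.re z.im 0 0)
  map_one' := by ext <;> simp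
  map_mul' z w := by ext <;> simp
  map_zero' := by ext <;> simp
  map_add' z w := by ext <;> simp

theorem jc_star (z : ℂ) : star (jc z) = jc (starRingEnd ℂ z) := by ext <;> simp [jc]

theorem jc_eA (x : Real.Angle) : cS (eA x) = jc x.toCircle := by
  rw [cS_eA, Real.Angle.coe_toCircle]; simp [jc]

theorem abs_lam {b : V} {K : ℝ} (h : ∀ e ∈ lbox l, |b e| ≤ K) (x : St) :
    x ∈ box l → |lam b x| ≤ ht x * K := by
  induction x using site_ind with
  | h0 => simp [ht]
  | hp p ν h1 h2 ih =>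
    intro hx
    rw [lam_tr _ h1, ht_fwd h2, Nat.cast_succ, add_one_mul]
    exact (abs_add_le _ _).trans (add_le_add (ih (box_fwd h2 hx)) (h _ (mem_lbox.2 (box_fwd h2 hx))))
  | hn p ν h1 h2 ih =>
    intro hx
    rw [ht_bwd h2, Nat.cast_succ, add_one_mul, ← add_sub_cancel_right (lam b p) (b (p, ν)),
      ← lam_tr _ h1]
    exact (abs_sub _ _).trans (add_le_add (ih (box_bwd h2 hx)) (h _ (mem_lbox.2 hx)))

theorem cms_lift (h : ∀ x μ ν, dd θ x μ ν = (kF F μ ν : ℝ)) (σ : Equiv.Perm (Fin 4)) {t : St}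
    (ht : t ∈ box l) : cms star σ (cC (ab (lift l F θ))) 0 t = jc (Complex.exp
      ((lam (pm σ (bF l F + izA l (aF F))) fun j => t (σ j) : ℝ) * Complex.I)) := by
  obtain ⟨u, rfl⟩ := flux_gr h
  have e := lam_unique (a := pm σ (lift l F ((fun e => ((aF F e : ℝ) : Real.Angle)) - gr u)))
    (u := fun x => (lam (pm σ (bF l F + izA l (aF F))) x : ℝ) -
      (u (yo l fun i => x (σ.symm i)) - u 0)) (by simp [← Pi.zero_def, yo_of_mem (zero_mem_box l)])
    fun p ν hp => by
      have : (fun i => (p + un ν) (σ.symm i)) = (fun i => p (σ.symm i)) + un (σ ν) := by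
        funext i; simp [un_apply, Equiv.symm_apply_eq]
      simp only [lam_tr _ hp, lift_gr, pm, gr, Pi.sub_apply, lift_aF, this, Real.Angle.coe_add]
      simp only [Pi.add_apply, Real.Angle.coe_add]
      abel
  rw [Nz.cms_cC, Nz.cms0, show pm σ (ab _) = ab (pm σ _) from rfl, cmb_ab, e, jc_eA]
  simp [yo_of_mem ht, Real.Angle.toCircle_coe]

theorem line_bF {t : St} (ht : t ∈ box l) (μ : Fin 4) : ∑ i ∈ range (LL l),
    bF l F (t + (i : ℤ) • un μ, μ) = F / LL l * ![-(t 1 : ℝ), t 0, 0, 0] μ := by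
  have L0 : (LL l : ℝ) ≠ 0 := by exact_mod_cast (LL_pos l).ne'
  have p : ∀ (i : ℕ) (μ ν : Fin 4), ν ≠ μ → ps l (t + (i : ℤ) • un μ) ν = t ν := fun i μ ν e => by
    have := congrFun (ps_of_mem ht) ν
    simpa [ps, yo, up_apply, un_ne e] using this
  fin_cases μ
  · simp [bF, p, -natCast_zsmul, -zsmul_eq_mul]; field_simp
  · refine Eq.trans (sum_congr rfl fun i _ => ?_) (line_izA (fun _ => F / LL l * t 0) ht 1)
    rcases ps_step l (t + (i : ℤ) • un 1) 1 with h | h <;>
      simp [bF, izA, p, h.1, h.2.1, -natCast_zsmul, -zsmul_eq_mul]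
  · simp [bF]
  · simp [bF]

/-- the block spin of the fine background is the coarse background -/
theorem Vh_lift (h : ∀ x μ ν, dd θ x μ ν = (kF F μ ν : ℝ)) (hF : 10 * LL l * |F| ≤ 1) (μ : Fin 4) :
    ∃ c : ℝ, 0 < c ∧ Vh l μ (cC (ab (lift l F θ))) = (c : ℂ) • cS (eA (θ (0, μ))) := by
  have h' : ∀ x ν κ, dd (sh (un μ) θ) x ν κ = (kF F ν κ : ℝ) := fun x ν κ => by rw [dd_sh, h]
  have e : sh (up l (un μ)) (cC (ab (lift l F θ))) = cC (ab (lift l F (sh (un μ) θ))) := by
    rw [← sh_lift]; rfl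
  have Lc : (LL l : ℝ) = 2 * l + 1 := by simp [LL]
  have F0 := abs_nonneg F
  have l0 : (0 : ℝ) ≤ l := l.cast_nonneg
  have cp : ∀ x : ℝ, |x| ≤ 1 → 0 < Real.cos x := fun x hx => Real.cos_pos_of_le_one hx
  have ne : (box l).Nonempty := ⟨0, zero_mem_box l⟩
  set α := fun (σ : Equiv.Perm (Fin 4)) (t : St) =>
    lam (pm σ (bF l F + izA l (aF F))) fun j => t (σ j) with hα
  set β := fun t : St => F / LL l * ![-(t 1 : ℝ), t 0, 0, 0] μ with hβ
  set u := ∑ σ, ∑ t ∈ box l, Complex.exp (α σ t * Complex.I) with hu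
  have u0 : 0 < u.re := by
    simp only [hu, Complex.re_sum, Complex.exp_ofReal_mul_I_re]
    refine sum_pos (fun σ _ => sum_pos (fun t ht => cp _ ?_) ne) univ_nonempty
    refine (abs_lam (K := |F|) (fun f hf => ?_) _ (Nz.perm_mem ht σ)).trans ?_
    · have := yo_of_mem (mem_lbox.1 (Nz.pm_mem hf σ))
      simpa [pm, izA, aF, this] using abs_bF _
    · have : (RG.ht fun j => t (σ j) : ℝ) ≤ 4 * l := by exact_mod_cast ht_le (Nz.perm_mem ht σ)
      nlinarith
  have b0 : 0 < ∑ t ∈ box l, Real.cos (β t) := sum_pos (fun t ht => cp _ (by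
    simp only [hβ, ← line_bF ht]
    refine (abs_sum_le_sum_abs _ _).trans ((sum_le_card_nsmul _ _ |F| fun i _ => abs_bF _).trans ?_)
    rw [card_range, nsmul_eq_mul]; nlinarith)) ne
  have b1 : ∑ t ∈ box l, Real.sin (β t) = 0 := by
    have := sum_nbij' (f := fun t => Real.sin (β t)) (g := fun t => -Real.sin (β t)) Neg.neg Neg.neg
      (fun _ => neg_mem_box (r := l)) (fun _ => neg_mem_box) (by simp) (by simp) fun t _ => by
        rw [← Real.sin_neg]; congr 1; fin_cases μ <;> simp [hβ]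
    rw [sum_neg_distrib] at this; linarith
  have e1 : ∀ θ : Lk → Real.Angle, (∀ x μ ν, dd θ x μ ν = (kF F μ ν : ℝ)) →
      uc l (cC (ab (lift l F θ))) = jc u := fun θ h => by
    simp only [uc, hu, map_sum]
    exact sum_congr rfl fun σ _ => sum_congr rfl fun t ht => cms_lift h σ ht
  have e2 : Vc l μ (cC (ab (lift l F θ))) =
      jc (24 * (∑ t ∈ box l, Real.cos (β t) : ℝ) * (θ (0, μ)).toCircle) := by
    have : (∑ t ∈ box l, Real.cos (β t) : ℝ) = ∑ t ∈ box l, Complex.exp (β t * Complex.I) := by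
      simp only [Complex.exp_mul_I, sum_add_distrib, ← sum_mul, ← Complex.ofReal_sin,
        ← Complex.ofReal_cos, ← Complex.ofReal_sum, b1, Complex.ofReal_zero, zero_mul, add_zero]
    rw [this, Vc, sum_congr rfl (g := fun _ => jc ((∑ t ∈ box l, Complex.exp (β t * Complex.I)) *
      (θ (0, μ)).toCircle)) fun σ _ => ?_]
    · simp [Fintype.card_perm, Nat.factorial, mul_assoc, map_ofNat]
    · rw [sum_mul, map_sum]
      refine sum_congr rfl fun t ht => ?_
      rw [e, cms_lift h σ ht, cms_lift h' σ ht, lnP_cC, lnP_ab, jc_eA, jc_star, ← map_mul, ← map_mul,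
        mul_right_comm, Complex.mul_conj, Complex.normSq_eq_norm_sq, Complex.norm_exp_ofReal_mul_I]
      simp only [lift, sum_add_distrib, line_izA _ ht, ← Real.Angle.coe_coeHom, ← map_sum,
        line_bF ht]
      simp [Real.Angle.toCircle_add, Real.Angle.toCircle_coe, hβ]
  refine ⟨Complex.normSq u * (24 * ∑ t ∈ box l, Real.cos (β t)), mul_pos (Complex.normSq_pos.2
    fun h => by simp [h] at u0) (by positivity), ?_⟩
  rw [Vh, e, e1 _ h, e1 _ h', e2, jc_star, jc_eA, ← map_mul, ← map_mul, mul_right_comm,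
    ← Complex.normSq_eq_conj_mul_self]
  ext <;> simp [jc, -Complex.ofReal_cos] <;> ring

theorem bg_exists (n1 n2 : ℕ) [NeZero n1] [NeZero n2] (k : ℤ) :
    ∃ θ, Bg (NN n1 n2) (k * (2 * Real.pi / (n1 : ℝ) ^ 2)) θ := by
  set F : ℝ := k * (2 * Real.pi / (n1 : ℝ) ^ 2) with hF
  have a : (n1 : ℤ) ≠ 0 := by exact_mod_cast NeZero.ne n1
  have a1 : (n1 : ℝ) ≠ 0 := by exact_mod_cast NeZero.ne n1
  have a2 : (n2 : ℝ) ≠ 0 := by exact_mod_cast NeZero.ne n2
  refine ⟨fun e => (((aF F - gr fun x => F * n1 * (x 0 / n1 : ℤ) * x 1) e +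
    if e.2 = 3 then Real.pi / (2 * n2) else 0 : ℝ) : Real.Angle), fun μ => ?_, fun x μ ν => ?_, ?_, ?_⟩
  · funext ⟨x, ν⟩
    rw [sh_apply, Real.Angle.angle_eq_iff_two_pi_dvd_sub]
    fin_cases μ
    · have d : ∀ y : ℤ, (y + n1) / n1 = y / n1 + 1 := fun y => by
        rw [Int.add_ediv_of_dvd_right dvd_rfl, Int.ediv_self a]
      refine ⟨0, ?_⟩
      fin_cases ν <;> simp [aF, gr, un_apply, NN, add_right_comm _ (n1 : ℤ), d] <;> ring
    · refine ⟨if ν = 0 then -(k * ((x 0 + 1) / n1 - x 0 / n1)) else 0, ?_⟩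
      fin_cases ν <;> simp [aF, gr, un_apply, NN, hF] <;> field_simp <;> ring
    · exact ⟨0, by fin_cases ν <;> simp [aF, gr, un_apply, NN]⟩
    · exact ⟨0, by fin_cases ν <;> simp [aF, gr, un_apply, NN]⟩
  · have := dd_sub (aF F) (gr fun x => F * n1 * (x 0 / n1 : ℤ) * x 1) x μ ν
    rw [dd_gr, dd_aF, sub_zero] at this
    rw [← this]
    simp only [dd, ← Real.Angle.coe_add, ← Real.Angle.coe_sub]
    congr 1; ring
  · simp [aF, gr, un_apply]
  · simp only [← Real.Angle.coe_coeHom, ← map_sum]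
    congr 1
    simp [aF, gr, un_apply, NN]; field_simp

theorem fi_NN (n1 n2 : ℕ) : fi l (NN n1 n2) = NN (LL l * n1) (LL l * n2) := by
  funext i; fin_cases i <;> rfl

theorem trI_cs (e : Lk) (k : Fin 3) : trI l N ((cs _ e.1, e.2), k) ↔ tree l e :=
  (PV.lf_cs (N := fi l N) (U := tree l) (fun μ => funext fun f => by
    rw [fi_period]; exact propext (tree_add_up l _ _ _)) e).to_iff

omit [∀ i, NeZero (N i)] in
theorem cs_up {y z : St} (h : cs N y = cs N z) : cs (fi l N) (up l y) = cs _ (up l z) :=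
  funext fun i => (ZMod.intCast_eq_intCast_iff_dvd_sub _ _ _).2 (by
    rw [up_apply, up_apply, ← mul_sub, Nat.cast_mul]
    exact mul_dvd_mul_left _ ((ZMod.intCast_eq_intCast_iff_dvd_sub _ _ _).1 (congrFun h i)))

theorem gl_rho (v : IG (fi l N) → ℝ) (y : St) :
    gl (rhoL l N v) (cs N y) = gl v (cs _ (up l y)) := by
  funext k
  rw [gl]
  split_ifs with h
  · exact congrArg (gl v · k) (cs_up (cs_lf _))
  · obtain ⟨h1, rfl⟩ := Prod.mk.inj (not_not.1 h)
    rw [cs_up (h1.trans cs_zero.symm)]; simp [gl]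

theorem Th_eq {U : Conf} (h : ∀ f, tree l f → U f = 1) : Th l N U = Th l N 1 := by
  unfold Th
  congr 1
  ext i j
  simp [Dm, DL, h _ i.2]

theorem Th_mulVec (v : IG (fi l N) → ℝ) : Th l N 1 *ᵥ v = Sum.elim (fun i => gl v i.1.1.1 i.1.2 -
    gl v (i.1.1.1 + Pi.single i.1.1.2 1) i.1.2 + if i.1.2 = 0 then v (.inr i.1.1.2) else 0)
    (rhoL l N v) := by
  have : Rm 1 = 1 := by ext i j; simp [Rm, cS_one, adq_one, Pi.single_apply, one_apply, apply_ite]
  rw [Th, fromRows_mulVec, LinearMap.toMatrix'_mulVec]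
  congr 1
  funext i
  exact (congrFun (Dm_mulVec (fi l N) 1 v) i.1).trans (by simp [DL, this])

theorem tree_in {y t : St} {ν : Fin 4} (h : Tr t ν) (h1 : t ∈ box l) (h2 : t + un ν ∈ box l) :
    tree l (up l y + t, ν) :=
  ⟨by simp only [add_assoc, yo_up_add y h1, yo_up_add y h2], fun κ hκ => by
    simp [yo_up_add y h1, h κ hκ]⟩

theorem Th_det (l : ℕ) (N : Fin 4 → ℕ) [∀ i, NeZero (N i)] :
    ∃ e : IT l N ⊕ IG N ≃ IG (fi l N), ((Th l N 1).submatrix id e).det ≠ 0 := by
  have L0 : (LL l : ℝ) ≠ 0 := by exact_mod_cast (LL_pos l).ne'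
  have inj : ∀ v, Th l N 1 *ᵥ v = 0 → v = 0 := fun v hv => by
    rw [Th_mulVec] at hv
    have r : rhoL l N v = 0 := funext fun j => congrFun hv (.inr j)
    have s : ∀ μ, v (.inr μ) = 0 := fun μ => by simpa [rhoL, L0] using congrFun r (.inr μ)
    have a : ∀ x μ, tree l (x, μ) → gl v (cs _ x) = gl v (cs _ (x + un μ)) := fun x μ h =>
      funext fun k => by
        simpa [s, cs_add_un, sub_eq_zero] using congrFun hv (.inl ⟨_, (trI_cs (x, μ) k).2 h⟩)
    have b : ∀ y t, t ∈ box l → gl v (cs _ (up l y + t)) = 0 := fun y t => by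
      induction t using site_ind with
      | h0 => intro _; rw [add_zero, ← gl_rho, r]; funext k; simp [gl]
      | hp p ν h1 h2 ih =>
        intro hx
        rw [← add_assoc, ← a _ _ (tree_in h1 (box_fwd h2 hx) hx), ih (box_fwd h2 hx)]
      | hn p ν h1 h2 ih =>
        intro hx
        rw [a _ _ (tree_in h1 hx (box_bwd h2 hx)), add_assoc, ih (box_bwd h2 hx)]
    funext j
    rcases j with ⟨⟨x, k⟩, h⟩ | μ
    · have := congrFun (b (yo l (lf x)) _ (ps_mem l (lf x))) k
      simpa [ps, gl, h] using this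
    · exact s μ
  have sur : ∀ w, ∃ v, Th l N 1 *ᵥ v = w := fun w => by
    set b : Lk → Fin 3 → ℝ := fun e k => (if h : trI l N ((cs _ e.1, e.2), k) then w (.inl ⟨_, h⟩)
      else 0) - if k = 0 then w (.inr (.inr e.2)) / LL l else 0 with hb
    have pb : PV (fi l N) b := pv_of_cs fun x μ k => (if h : trI l N ((x, μ), k) then
      w (.inl ⟨_, h⟩) else 0) - if k = 0 then w (.inr (.inr μ)) / LL l else 0
    set g : St → Fin 3 → ℝ := fun x => gl (w ∘ .inr) (cs N (yo l x)) -
      lam (sh (up l (yo l x)) b) (ps l x) with hg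
    have pg : PV (fi l N) fun e => g e.1 := fun μ => funext fun e => by
      simp only [sh_apply, fi_period, hg, yo_add_up, ps_add_up, cs_add, cs_period, add_zero, up_add]
      rw [← sh_sh, ← fi_period, pb μ]
    have e : ∀ x, gl (Sum.elim (fun p => g (lf p.1.1) p.1.2) fun μ => w (.inr (.inr μ)) / LL l :
        IG (fi l N) → ℝ) (cs _ x) = g x := fun x => by
      rw [← show g (lf (cs _ x)) = g x from pg.lf_cs (x, 0)]
      funext k
      rw [gl]
      split_ifs with h
      · rfl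
      · obtain ⟨h1, rfl⟩ := Prod.mk.inj (not_not.1 h)
        simp [h1, hg, gl, yo_of_mem (zero_mem_box l), ps_of_mem (zero_mem_box l)]
    refine ⟨Sum.elim (fun p => g (lf p.1.1) p.1.2) fun μ => w (.inr (.inr μ)) / LL l, ?_⟩
    rw [Th_mulVec]
    funext j
    rcases j with ⟨⟨⟨x, μ⟩, k⟩, h⟩ | ⟨⟨y, k⟩, h⟩ | μ
    · have t : Tr (ps l (lf x)) μ := fun κ hκ => sub_eq_zero.2 (h.2 κ hκ)
      have p : ps l (lf x + un μ) = ps l (lf x) + un μ := by simp only [ps, show _ = _ from h.1]; abel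
      have e1 := e (lf x)
      have e2 := e (lf x + un μ)
      rw [cs_add_un] at e2
      rw [cs_lf] at e1 e2
      simp only [Sum.elim_inl, Sum.elim_inr, e1, e2]
      simp only [hg, show _ = _ from h.1, p, lam_tr _ t]
      simp [ps, hb, h]
    · refine (congrFun (e (up l (lf y))) k).trans ?_
      simp [hg, ps, gl, h]
    · simp [rhoL]; field_simp
  obtain ⟨e⟩ : Nonempty (IT l N ⊕ IG N ≃ IG (fi l N)) := Fintype.card_eq.1 (by
    have := (LinearEquiv.ofBijective (Th l N 1).mulVecLin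
      ⟨(injective_iff_map_eq_zero _).2 inj, sur⟩).finrank_eq
    simpa only [Module.finrank_fintype_fun_eq_card] using this.symm)
  refine ⟨e, fun h => ?_⟩
  obtain ⟨v, v0, hv⟩ := exists_mulVec_eq_zero_iff.2 h
  rw [submatrix_mulVec_equiv] at hv
  exact v0 (funext fun j => by simpa using congrFun (inj _ hv) (e j))

end Pool.Agent.Lib.MP_7f377f_mp.RG.Q4.Af
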