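import Pool.Agent.Lib.MP_7f377f_mp.Q4AfF
import Pool.Agent.Lib.MP_7f377f_mp.Q4EnDefs
import Pool.Agent.Lib.MP_7f377f_mp.Q4OpDefs

/-! Constant flux under blocking: definitions. -/

noncomputable section

namespace Pool.Agent.Lib.MP_7f377f_mp.RG.Q4.Af

open Finset Matrix

instance (l : ℕ) (N : Fin 4 → ℕ) [∀ i, NeZero (N i)] (i : Fin 4) : NeZero (fi l N i) :=
  ⟨mul_ne_zero (Nat.succ_ne_zero _) (NeZero.ne _)⟩

/-- a coarse field put on the links between blocks -/
def izA {W : Type} [Zero W] (l : ℕ) (a : Lk → W) : Lk → W :=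
  fun f => if yo l (f.1 + un f.2) = yo l f.1 then 0 else a (yo l f.1, f.2)

/-- position inside the block -/
def ps (l : ℕ) (x : St) : St := x - up l (yo l x)

/-- the part of the fine background which is the same in all blocks -/
def bF (l : ℕ) (F : ℝ) : V := fun f =>
  if f.2 = 0 then -(F / (LL l : ℝ) ^ 2 * ps l f.1 1)
  else if f.2 = 1 ∧ ps l f.1 1 = l then F / (LL l : ℝ) * ps l f.1 0 else 0

/-- the fine background in the tree gauge -/
def lift (l : ℕ) (F : ℝ) (θ : Lk → Real.Angle) : Lk → Real.Angle :=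
  fun f => (bF l F f : ℝ) + izA l θ f

/-- links of the trees on the fine torus -/
def trI (l : ℕ) (N : Fin 4 → ℕ) (i : IL (fi l N)) : Prop := tree l (lf i.1.1, i.1.2)

instance (l : ℕ) (N : Fin 4 → ℕ) : DecidablePred (trI l N) := fun i => by
  unfold trI; infer_instance

/-- components on the trees -/
abbrev IT (l : ℕ) (N : Fin 4 → ℕ) := {i // trI l N i}

/-- components outside the trees -/
abbrev IR (l : ℕ) (N : Fin 4 → ℕ) := {i // ¬ trI l N i}

instance (l : ℕ) (N : Fin 4 → ℕ) : DecidableEq (IT l N ⊕ IG N) :=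
  @instDecidableEqSum _ _ inferInstance inferInstance

/-- extension by zero on the trees -/
def exN {l : ℕ} {N : Fin 4 → ℕ} (v : IR l N → ℝ) : IL (fi l N) → ℝ :=
  fun i => if h : trI l N i then 0 else v ⟨i, h⟩

theorem gl_add {N : Fin 4 → ℕ} (v w : IG N → ℝ) (x : TS N) : gl (v + w) x = gl v x + gl w x := by
  funext k; simp only [gl, Pi.add_apply]; split_ifs <;> simp

theorem gl_smul {N : Fin 4 → ℕ} (c : ℝ) (v : IG N → ℝ) (x : TS N) :
    gl (c • v) x = c • gl v x := by
  funext k; simp only [gl, Pi.smul_apply]; split_ifs <;> simp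

/-- restriction of gauge parameters to the centres of the blocks -/
def rhoL (l : ℕ) (N : Fin 4 → ℕ) : (IG (fi l N) → ℝ) →ₗ[ℝ] (IG N → ℝ) where
  toFun v := Sum.elim (fun p => gl v (cs _ (up l (lf p.1.1))) p.1.2) fun μ => LL l * v (.inr μ)
  map_add' v w := by funext p; rcases p with p | μ <;> simp [gl_add, mul_add]
  map_smul' c v := by funext p; rcases p with p | μ <;> simp [gl_smul, mul_left_comm]

/-- the rows of the gauge directions at the trees together with the restriction -/
def Th (l : ℕ) (N : Fin 4 → ℕ) [∀ i, NeZero (N i)] (U : Conf) :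
    Matrix (IT l N ⊕ IG N) (IG (fi l N)) ℝ :=
  fromRows ((Dm (fi l N) U).submatrix (Equiv.sumCompl (trI l N) ∘ Sum.inl) id)
    (LinearMap.toMatrix' (rhoL l N))

end Pool.Agent.Lib.MP_7f377f_mp.RG.Q4.Af
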