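import Pool.Agent.Lib.MP_7f377f_mp.Q4AfG
import Pool.Agent.Lib.MP_7f377f_mp.Q4AfGeo

/-! The noise functional as a gauge invariant functional of the pair of fields. -/

noncomputable section

namespace Pool.Agent.Lib.MP_7f377f_mp.RG.Q4.Af

open Finset Matrix Filter Topology
open scoped Quaternion

variable {l : ℕ}

/-- transport from the centre of the block -/
def tc {α : Type} [Monoid α] (iv : α → α) (l : ℕ) (U : Lk → α) (x : St) : α :=
  cmb iv (sh (up l (yo l x)) U) (ps l x)

/-- the tree gauge -/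
def tfx {α : Type} [Monoid α] (iv : α → α) (l : ℕ) (U : Lk → α) : Lk → α := gauge iv (tc iv l U) U

theorem tfx_tree {U : Cf} (h : ∀ f, tree l f → U f = 1) : tfx star l U = U := by
  funext e
  simp only [tfx, gauge, tc, Nz.cmb_tree (star_one _) h _ _ (ps_mem l _), one_mul, star_one, mul_one]

theorem tfx_cC (U : Conf) : tfx star l (cC U) = cC (tfx Inv.inv l U) := by
  have : ∀ x, tc star l (cC U) x = cS (tc Inv.inv l U x) := fun x => cmb_cC (sh _ U) _
  funext e
  simp only [tfx, gauge, this, cC, cS_mul, cS_inv]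

theorem tfx_sh (y : St) (U : Cf) : tfx star l (sh (up l y) U) = sh (up l y) (tfx star l U) := by
  have : ∀ x, tc star l (sh (up l y) U) x = tc star l U (x + up l y) := fun x => by
    simp only [tc, ps, yo_add_up, up_add, sh_sh, add_sub_add_right_eq_sub]
  funext e
  simp only [tfx, gauge, this, sh_apply, add_right_comm e.1]

theorem tfx_gauge {h : St → Hc} (hh : ∀ x, Uni (h x)) (U : Cf) : tfx star l (gauge star h U) =
    gauge star (fun x => h (up l (yo l x))) (tfx star l U) := by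
  have : ∀ x, tc star l (gauge star h U) x = h (up l (yo l x)) * tc star l U x * star (h x) :=
    fun x => by
      have := cmb_gauge_star (h := fun z => h (z + up l (yo l x))) (fun _ => hh _)
        (sh (up l (yo l x)) U) (ps l x)
      simp only [ps, zero_add, sub_add_cancel] at this
      rw [tc, tc, ps, ← this]
      congr 1
      funext e
      simp only [gauge, sh_apply, add_right_comm e.1]
  funext e
  simp only [tfx, gauge, this, star_mul, star_star, mul_assoc]
  rw [← mul_assoc (star (h e.1)), (hh _).star_mul, one_mul, ← mul_assoc (star (h _)), (hh _).star_mul,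
    one_mul]

theorem blk_mem {x : St} (hx : x ∈ box (3 * l + 2)) {e : Lk} (he : e ∈ lbox l) :
    (e.1 + up l (yo l x), e.2) ∈ lbox (5 * l + 2) := by
  have := add_mem_box (mem_lbox.1 he) (up_mem_box (l := l) (yo_mem_box (l := l) (a := 2)
    (box_mono (by unfold LL; omega) hx)))
  exact mem_lbox.2 (box_mono (by unfold LL; omega) this)

theorem tfx_agr {U U' : Cf} (h : Agr (5 * l + 2) U U') :
    Agr (3 * l + 1) (tfx star l U) (tfx star l U') := fun e he => by
  have : ∀ x ∈ box (3 * l + 2), tc star l U x = tc star l U' x := fun x hx =>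
    cmb_agr (fun e he => h _ (blk_mem hx he)) _ (ps_mem l x)
  simp only [tfx, gauge, this _ (box_mono (Nat.le_succ _) (mem_lbox.1 he)),
    this _ (add_un_mem_box (mem_lbox.1 he) _), h e (lbox_mono (by omega) he)]

theorem tfx_disc {Ω : Set ℂ} {U : ℂ → Cf} (h : Disc Ω U) : Disc Ω fun s => tfx star l (U s) :=
  fun e => ((diff_cmb (h.sh _) _).mul (h e)).mul (diff_star (diff_cmb (h.sh _) _))

theorem tfx_near {U : Cf} {δ : ℝ} (h : ∀ e ∈ lbox (5 * l + 2), ‖U e - 1‖ ≤ δ)
    (h1 : 10 * LL l * δ ≤ 1) {e : Lk} (he : e ∈ lbox (3 * l + 1)) :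
    ‖tfx star l U e - 1‖ ≤ 10 * LL l * δ := by
  have a := h e (lbox_mono (by omega) he)
  have δ0 := (norm_nonneg _).trans a
  have : ∀ x ∈ box (3 * l + 2), Nr (4 * l * δ) (4 * l * δ) (tc star l U x) (io (lam 0 (ps l x))) :=
    fun x hx => Nz.nr_cmb' (b := 0) δ0 δ0 (fun e he => .of_le (h _ (blk_mem hx he))
      (by simpa using h _ (blk_mem hx he))) (ps_mem l x)
  have l0 : 0 ≤ l * δ := by positivity
  simp only [LL] at h1 ⊢
  push_cast at h1 ⊢
  exact ((((this _ (box_mono (Nat.le_succ _) (mem_lbox.1 he))).mul (Nr.of_le (w := 0) a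
    (by simpa using a))).mul (this _ (add_un_mem_box (mem_lbox.1 he) _)).star).le (by positivity)
    (by linarith)).1.trans (by linarith)

/-- initial points of the fine and of the coarse links -/
def s2 (l : ℕ) : Lk ⊕ Lk → St := Sum.elim Prod.fst fun b => up l b.1

/-- end points of the fine and of the coarse links -/
def t2 (l : ℕ) : Lk ⊕ Lk → St := Sum.elim tg fun b => up l (tg b)

/-- the noise functional of the block at the origin -/
def nj (l : ℕ) (P : Lk ⊕ Lk → Hc) : ℂ :=
  ∑ μ, nz l μ (P (.inr (0, μ))) (tfx star l fun e => P (.inl e))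

theorem lo_nj {δ : ℝ} (h1 : 10 ^ 4 * (LL l : ℝ) ^ 2 * δ ≤ 1) :
    Lo (s2 l) (t2 l) ((lbox (5 * l + 2)).disjSum (lbox 0)) δ (10 ^ 6) (nj l) := by
  have L1 : (1 : ℝ) ≤ LL l := by exact_mod_cast LL_pos l
  have m0 : ∀ μ, (.inr (0, μ) : Lk ⊕ Lk) ∈ (lbox (5 * l + 2)).disjSum (lbox 0) := fun μ =>
    inr_mem_disjSum.2 (mem_lbox.2 (zero_mem_box 0))
  have sm : ∀ P : Lk ⊕ Lk → Hc, (∀ i ∈ (lbox (5 * l + 2)).disjSum (lbox 0), ‖P i - 1‖ ≤ δ) →
      (∀ e ∈ lbox (3 * l + 1), ‖tfx star l (fun e => P (.inl e)) e - 1‖ ≤ 10 * LL l * δ) ∧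
      (∀ μ, ‖P (.inr (0, μ)) - 1‖ ≤ 10 * LL l * δ) ∧ 0 ≤ δ := fun P h => by
    have δ0 := (norm_nonneg _).trans (h _ (m0 0))
    have : 0 ≤ LL l * δ := by positivity
    exact ⟨fun e he => tfx_near (fun e he => h _ (inl_mem_disjSum.2 he)) (by nlinarith) he,
      fun μ => (h _ (m0 μ)).trans (by nlinarith), δ0⟩
  refine ⟨fun h P => sum_congr rfl fun μ _ => ?_, fun P P' h => sum_congr rfl fun μ _ => ?_,
    fun Ω γ hΩ hγ h => .fun_sum fun μ _ => ?_, fun P h => ?_⟩
  · have := Nz.nz_gauge (l := l) (μ := μ) (g := fun y => cS (h (up l y))) (fun _ => uni_cS _)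
      (P (.inr (0, μ))) (tfx star l fun e => P (.inl e))
    rw [← this, ← tfx_gauge (h := fun x => cS (h x)) fun _ => uni_cS _]
    simp only [ga, s2, t2, Sum.elim_inr, tg, zero_add]
    rfl
  · rw [h _ (m0 μ), Nz.nz_agr (tfx_agr fun e he => h _ (inl_mem_disjSum.2 he))]
  · exact Nz.diff_nz (tfx_disc (U := fun s e => γ s (.inl e)) fun e => hγ _) (hγ _)
      (fun s hs => (sm _ (h s hs)).1) (fun s hs => (sm _ (h s hs)).2.1 μ) (by linarith)
  · obtain ⟨a, b, δ0⟩ := sm P h
    refine (norm_sum_le _ _).trans ((sum_le_card_nsmul _ _ (10 ^ 5) fun μ _ => ?_).trans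
      (by simp; norm_num))
    have := Nz.nz_ap (μ := μ) (a := 0) (b := 0) (δ := 10 * LL l * δ) (η := 10 * LL l * δ)
      (fun e he => ⟨by simp; positivity, by simpa using a e he⟩) le_rfl (by simp; positivity)
      (by simpa using b μ) (by linarith)
    have e : Nz.lnA l μ 0 = 0 := by simp [Nz.lnA]
    rw [e, sub_zero, show dot (0 : C3) 0 = 0 by simp [dot], sub_zero] at this
    refine this.trans ?_
    have p0 : 0 ≤ LL l * (10 * LL l * δ) := by positivity
    have p1 : LL l * (10 * LL l * δ) ≤ 1 / 1000 := by linarith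
    generalize LL l * (10 * LL l * δ) = p at *
    nlinarith [mul_nonneg p0 p0]

theorem ch_cancel (q : Hc) : ch (ex (-ch q) * q) = 0 := by
  by_cases h : q.re = 0
  · simp [ch, h]
  have e : ∀ b : C3, (1 + io (-b)) * (1 + io b) = (1 + dot b b) • (1 : Hc) := fun b => by
    ext <;> simp [dot_def] <;> ring
  have e' : q = q.re • (1 + io (ch q)) := by
    rw [ch, io_smul, smul_add, smul_smul, mul_inv_cancel₀ h, one_smul, re_add_io]
  generalize ch q = b at e'
  rw [e', ex, smul_mul_smul_comm, e, smul_smul, ch, co_smul]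
  simp

theorem nz_nonneg (μ : Fin 4) (g : S3) (U : Conf) : 0 ≤ (nz l μ (cS g) (cC U)).re := by
  obtain ⟨v, hv⟩ : ∃ v, cR v = rsN l μ (cS g) (cC U) := exists_cR fun k => by
    rw [rsN, Nz.Vh_cC, ← cq_star, cS, ← cq_mul]; exact ch_real _ k
  have := (abs_le.1 ((abs_re_le (exS v).q).trans_eq (exS v).norm_q)).2
  rw [nz, ← hv, ← cS_exS]
  simpa [cS, cq] using this

end Pool.Agent.Lib.MP_7f377f_mp.RG.Q4.Af
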