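import Pool.Agent.Lib.MP_7f377f_mp.Q4AfI

/-! The Hessian of the noise functional at a background of constant flux. -/

noncomputable section

namespace Pool.Agent.Lib.MP_7f377f_mp.RG.Q4.Af

open Finset Matrix Filter Topology Asymptotics
open scoped Quaternion

attribute [local irreducible] nz tfx box lbox

theorem tay_min {ι : Type} [Fintype ι] {f : (ι → ℝ) → ℝ} {ℓ : (ι → ℝ) →ₗ[ℝ] ℝ} {Q : Matrix ι ι ℝ}
    {C ρ : ℝ} (h : Tay (fun a => f a - ℓ a) Q C ρ) (h0 : 0 < ρ) (hm : ∀ a, f 0 ≤ f a) :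
    Tay f Q C ρ ∧ ∀ a, 0 ≤ a ⬝ᵥ Q *ᵥ a := by
  have C0 := h.nonneg h0
  have key : ∀ a (s : ℝ), 0 < s → s ≤ ρ / (‖a‖ + 1) →
      -(s * ℓ a) - s ^ 2 * (a ⬝ᵥ Q *ᵥ a) ≤ C * (‖a‖ + 1) ^ 3 * s ^ 3 := fun a s s0 s1 => by
    have := (abs_le.1 (h.2 (s • a) (s * (‖a‖ + 1)) (by
      rw [norm_smul, Real.norm_of_nonneg s0.le]; nlinarith) ((le_div_iff₀ (by positivity)).1 s1))).2
    simp only [map_smul, map_zero, quad_smul, smul_eq_mul] at this
    nlinarith [hm (s • a)]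
  have l0 : ∀ a, 0 ≤ ℓ a := fun a => by
    have t : Tendsto (fun s : ℝ => s * (a ⬝ᵥ Q *ᵥ a) + C * (‖a‖ + 1) ^ 3 * s ^ 2) (𝓝[>] 0) (𝓝 0) :=
      (Continuous.tendsto' (by fun_prop) 0 0 (by simp)).mono_left nhdsWithin_le_nhds
    refine neg_nonpos.1 (ge_of_tendsto t ?_)
    filter_upwards [Ioc_mem_nhdsGT (show 0 < ρ / (‖a‖ + 1) by positivity)] with s hs
    exact le_of_mul_le_mul_left (by nlinarith [key a s hs.1 hs.2]) hs.1
  have l1 : ∀ a, ℓ a = 0 := fun a => le_antisymm (by simpa using l0 (-a)) (l0 a)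
  refine ⟨by simpa only [l1, sub_zero] using h, fun a => neg_nonpos.1 (le_of_cubic
    (C := C * (‖a‖ + 1) ^ 3) (s0 := ρ / (‖a‖ + 1)) (by positivity) fun s s0 s1 => ?_)⟩
  simpa [l1] using key a s s0 s1

theorem sq_form {i w : Type} [Fintype i] [Fintype w] [DecidableEq i] [DecidableEq w]
    {J : Matrix (i ⊕ w) (i ⊕ w) ℝ} (hs : J.IsSymm) (h0 : ∀ p, 0 ≤ p ⬝ᵥ J *ᵥ p)
    (h1 : ∀ v, Sum.elim 0 v ⬝ᵥ J *ᵥ Sum.elim 0 v = v ⬝ᵥ v)
    (h2 : ∀ a (x : ℝ), (∀ v, x ≤ Sum.elim a v ⬝ᵥ J *ᵥ Sum.elim a v) → x ≤ 0) :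
    ∃ B : Matrix w i ℝ, J = fromBlocks (Bᵀ * B) (-Bᵀ) (-B) 1 := by
  rw [← fromBlocks_toBlocks J] at *
  generalize J.toBlocks₁₁ = A, J.toBlocks₁₂ = B, J.toBlocks₂₁ = C, J.toBlocks₂₂ = D at *
  obtain ⟨a, rfl, -, d⟩ := isSymm_fromBlocks_iff.1 hs
  obtain rfl : D = 1 := symm_ext d isSymm_one fun v => by
    simpa [fromBlocks_mulVec, sumElim_dotProduct_sumElim] using h1 v
  have e := schur_form (Haa := (1 : Matrix w w ℝ)) (Haw := Bᵀ) (Hwa := B) (Hww := A)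
    (by simp [fromBlocks_transpose, a.eq]) (by simp)
  have e' : ∀ a v, Sum.elim a v ⬝ᵥ fromBlocks A B Bᵀ 1 *ᵥ Sum.elim a v =
      a ⬝ᵥ (A - B * Bᵀ) *ᵥ a + (v + Bᵀ *ᵥ a) ⬝ᵥ (v + Bᵀ *ᵥ a) := fun a v => by
    have := e v a
    simp only [inv_one, Matrix.mul_one, Matrix.one_mul, one_mulVec] at this
    rw [← this]
    simp [fromBlocks_mulVec, sumElim_dotProduct_sumElim, dotProduct_add]
    ring
  refine ⟨-Bᵀ, ?_⟩
  have : A - B * Bᵀ = 0 := symm_ext (a.sub (by simp [IsSymm])) isSymm_zero fun x => by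
    rw [zero_mulVec, dotProduct_zero]
    refine le_antisymm (h2 x _ fun v => by rw [e']; linarith [dot_nonneg (v + Bᵀ *ᵥ x)]) ?_
    simpa [e'] using h0 (Sum.elim x (-(Bᵀ *ᵥ x)))
  simp [sub_eq_zero.1 this]

variable {l : ℕ} {N : Fin 4 → ℕ} [∀ i, NeZero (N i)] {F : ℝ} {θ : Lk → Real.Angle}

/-- the total noise as a function of the fine and of the coarse fluctuation -/
def NJ (l : ℕ) (N : Fin 4 → ℕ) [∀ i, NeZero (N i)] (U W : Conf) (p : IL (fi l N) ⊕ IL N → ℝ) : ℝ :=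
  ∑ y : TS N, (∑ μ, nz l μ ((exF (pf fun i => p (.inr i)) * cC W) (lf y, μ))
    (tfx star l (sh (up l (lf y)) (exF (pf fun i => p (.inl i)) * cC U)))).re

/-- the total noise as a functional of pairs of fields -/
def FJ (l : ℕ) (N : Fin 4 → ℕ) [∀ i, NeZero (N i)] (P : Lk ⊕ Lk → Hc) : ℝ :=
  ∑ y : TS N, (nj l fun i => P (i.map (fun e => (e.1 + up l (lf y), e.2))
    fun b => (b.1 + lf y, b.2))).re

theorem FJ_gi (u : St → S3) (P : Lk ⊕ Lk → Hc) : FJ l N (ga (s2 l) (t2 l) u P) = FJ l N P :=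
  sum_congr rfl fun y _ => by
    rw [← (lo_nj (l := l) (δ := 0) (by simp)).gi (fun x => u (x + up l (lf y))) fun i => P _]
    congr 2
    funext i
    rcases i with e | b <;> simp [ga, s2, t2, tg, add_right_comm, up_add]

theorem NJ_eq {φ : Lk → Real.Angle} (h : PV (fi l N) φ) (h' : PV N θ) :
    NJ l N (ab φ) (ab θ) = fun p => FJ l N (fl (Sum.map (pk (fi l N)) (pk N))
      (Equiv.sumProdDistrib _ _ _) (fun i => eA (Sum.elim (fun i => φ (lf i.1, i.2))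
        (fun i => θ (lf i.1, i.2)) i)) p) := by
  funext p
  rw [NJ, ← fl_eq h, ← fl_eq h']
  simp only [FJ, nj, Sum.map_inr, Sum.map_inl, zero_add]
  rfl

theorem exF_real {M : Fin 4 → ℕ} (a : IL M → ℝ) (U : Conf) (x : St) : sh x (exF (pf a) * cC U) =
    cC (sh x fun e => exS (fun k => a ((cs M e.1, e.2), k)) * U e) := by
  funext e; simp only [cC, cS_mul, cS_exS, sh_apply]; rfl

theorem rs_real (μ : Fin 4) (g : S3) (U : Conf) (k : Fin 3) :
    (ch (cS g * star (Vh l μ (tfx star l (cC U)))) k).im = 0 := by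
  rw [tfx_cC, Nz.Vh_cC, ← cq_star, cS, ← cq_mul]; exact ch_real _ k

theorem NJ_nonneg (U W : Conf) (p : IL (fi l N) ⊕ IL N → ℝ) : 0 ≤ NJ l N U W p := by
  refine sum_nonneg fun y _ => ?_
  rw [Complex.re_sum, exF_real, tfx_cC, ← sh_zero (exF _ * _), exF_real]
  exact sum_nonneg fun μ _ => nz_nonneg μ _ _

theorem rs_lift (h : ∀ x μ ν, dd θ x μ ν = (kF F μ ν : ℝ)) (hF : 10 * LL l * |F| ≤ 1) (y : St)
    (μ : Fin 4) : ∃ c : ℝ, 0 < c ∧ cC (ab θ) (y, μ) *
      star (Vh l μ (tfx star l (sh (up l y) (cC (ab (lift l F θ)))))) = (c : ℂ) • 1 := by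
  obtain ⟨c, c0, hc⟩ := Vh_lift (l := l) (θ := sh y θ) (fun x μ ν => by rw [dd_sh, h]) hF μ
  refine ⟨c, c0, ?_⟩
  rw [tfx_sh, tfx_tree fun f hf => by rw [cC, ab, lift_tree hf, eA_zero, cS_one],
    show sh (up l y) (cC (ab (lift l F θ))) = _ from congrArg (fun φ => cC (ab φ)) (sh_lift y), hc,
    Quaternion.star_smul, mul_smul_comm, sh_apply, zero_add]
  exact congrArg _ (uni_cS _)

theorem exF_zero {M : Fin 4 → ℕ} (U : Cf) : exF (pf (N := M) 0) * U = U := by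
  funext e; simp

theorem NJ_w (h : ∀ x μ ν, dd θ x μ ν = (kF F μ ν : ℝ)) (hF : 10 * LL l * |F| ≤ 1)
    (v : IL N → ℝ) : NJ l N (ab (lift l F θ)) (ab θ) (Sum.elim 0 v) = ∑ i : TS N × Fin 4,
      (2 - 2 * (1 + dot (cR fun k => v (i, k)) (cR fun k => v (i, k))) ^ (-2⁻¹ : ℂ)).re := by
  rw [Fintype.sum_prod_type]
  refine sum_congr rfl fun y _ => (Complex.re_sum _ _).trans (sum_congr rfl fun μ _ => ?_)
  obtain ⟨c, c0, hc⟩ := rs_lift (l := l) h hF (lf y) μ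
  have e : ch (ex (pf v (lf y, μ))) = cR fun k => v ((y, μ), k) :=
    (ch_ex (WithLp.toLp 2 fun k => v ((cs N (lf y), μ), k))).trans (by rw [cs_lf]; rfl)
  rw [show (fun i => Sum.elim (0 : IL (fi l N) → ℝ) v (.inl i)) = 0 from rfl, exF_zero, Nz.nz_eq, rsN,
    Pi.mul_apply, mul_assoc, hc, mul_smul_comm, mul_one, ch_smul (by exact_mod_cast c0.ne')]
  exact congrArg (fun x => (2 - 2 * (1 + dot x x) ^ (-2⁻¹ : ℂ)).re) e

theorem NJ_zero (h : ∀ x μ ν, dd θ x μ ν = (kF F μ ν : ℝ)) (hF : 10 * LL l * |F| ≤ 1) :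
    NJ l N (ab (lift l F θ)) (ab θ) 0 = 0 := by
  have := NJ_w (N := N) h hF 0
  rw [Sum.elim_zero_zero] at this
  simpa [dot, cR] using this

theorem nj_tay (h : Bg N F θ) (hF : 10 ^ 8 * (LL l : ℝ) ^ 2 * |F| ≤ 1) :
    ∃ J, Tay (NJ l N (ab (lift l F θ)) (ab θ)) J
      (Fintype.card (TS N) * (10 ^ 27 * (LL l : ℝ) ^ 6)) (10 ^ 7 * (LL l : ℝ) ^ 2)⁻¹ ∧
      (∀ p, 0 ≤ p ⬝ᵥ J *ᵥ p) ∧
      ∀ p, |p ⬝ᵥ J *ᵥ p| ≤ Fintype.card (TS N) * (10 ^ 20 * (LL l : ℝ) ^ 4) * ‖p‖ ^ 2 := by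
  have L1 : (1 : ℝ) ≤ LL l := by exact_mod_cast LL_pos l
  have F0 := abs_nonneg F
  have hF' : 10 ^ 8 * |F| ≤ ((LL l : ℝ) ^ 2)⁻¹ := by
    rw [← one_div, le_div_iff₀ (by positivity)]; linarith
  have i1 : ((LL l : ℝ) ^ 2)⁻¹ ≤ 1 := inv_le_one_of_one_le₀ (one_le_pow₀ L1)
  let α : Lk ⊕ Lk → ℝ := Sum.elim (bF l F + izA l (cg (aF F))) (cg (aF F))
  have hα : ∀ i ∈ (lbox (5 * l + 2)).disjSum (lbox 0), |α i| ≤ 7 * |F| := by
    rintro (e | b) hi
    · refine (abs_add_le _ _).trans ((add_le_add (abs_bF e) (?_ : _ ≤ 6 * |F|)).trans_eq (by ring))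
      unfold izA
      split_ifs
      · simp
      · exact (cg_aF_le F (R := 2) (mem_lbox.2 (yo_mem_box (box_mono (by unfold LL; omega)
          (mem_lbox.1 (inl_mem_disjSum.1 hi)))))).trans_eq (by norm_num)
    · exact (cg_aF_le F (inr_mem_disjSum.1 hi)).trans (by simp)
  have hx := fun i hi => ex_tan (x := α i) ((hα i hi).trans (by linarith))
  have lo := lo_nj (l := l) (δ := (10 ^ 4)⁻¹ * ((LL l : ℝ) ^ 2)⁻¹) (by field_simp; rfl)
  obtain ⟨ℓ, J, a1, -, a3⟩ := lo.tay_fam (g := fun i => ![(Real.tan (α i) : ℂ), 0, 0]) (by positivity)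
    (by linarith) (fun i hi => (hx i hi).2.trans (by linarith [hα i hi]))
    (fun y : TS N => Sum.elim (sh (up l (lf y)) (ab (lift l F θ))) (sh (lf y) (ab θ)))
    (fun y x => eA (lam (sh (lf y) θ) (yo l x))) (fun y i hi => by
      rw [(hx i hi).1]
      have c := cg_flux h.curv (lf y)
      rcases i with e | b
      · have := congrFun (gauge_ab (fun x => lam (sh (lf y) θ) (yo l x)) (lift l F (sh (lf y) θ))) e
        rw [← lift_gr, show sh (lf y) θ - _ = cg _ from rfl, c] at this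
        refine Eq.trans ?_ ((congrArg cS this).trans ?_)
        · simp only [ga, gauge, cS_mul, cS_inv, sh_ab, sh_lift, s2, t2, Sum.elim_inl]
        · simp only [ab, lift, α, Sum.elim_inl, Pi.add_apply, Real.Angle.coe_add, izA]
          split_ifs <;> rfl
      · have := congrFun (fix_ab (sh (lf y) θ)) b
        rw [c] at this
        refine Eq.trans ?_ (congrArg cS this)
        simp only [ga, gauge, cS_mul, cS_inv, sh_ab, s2, t2, Sum.elim_inr, yo_up, cmb_ab])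
    (J := IL (fi l N) ⊕ IL N) fun y i k => i.elim
      (fun e => .inl ((cs _ (e.1 + up l (lf y)), e.2), k)) fun b => .inr ((cs _ (b.1 + lf y), b.2), k)
  obtain ⟨b1, b2⟩ := tay_min (f := NJ l N (ab (lift l F θ)) (ab θ)) (a1.congr fun p _ => by
    refine congrArg (· - ℓ p) (sum_congr rfl fun y _ => congrArg _ (sum_congr rfl fun μ _ =>
      congrArg₂ _ ?_ (congrArg _ rfl)))
    simp only [Sum.elim_inr, zero_add, sh_apply]
    rfl) (by positivity) fun p => (NJ_zero h.curv (by nlinarith)).trans_le (NJ_nonneg _ _ p)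
  refine ⟨J, b1.mono (mul_le_mul_of_nonneg_left ?_ (by positivity)) ?_, b2, fun p => ?_⟩
  · field_simp; norm_num
  · rw [mul_inv]; linarith [inv_pos.2 (pow_pos (one_pos.trans_le L1) 2)]
  rw [a3, mul_assoc]
  refine (abs_sum_le_sum_abs _ _).trans ((sum_le_card_nsmul _ _ _ fun y _ =>
    (Complex.abs_re_le_norm _).trans ((lo.q2_le (by linarith) (η := (10 ^ 6)⁻¹ * ((LL l : ℝ) ^ 2)⁻¹)
      (by positivity) (by linarith) (fun i hi => (hx i hi).2.trans (by linarith [hα i hi]))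
      (a := 12 * ‖p‖) (by positivity) fun i _ => (norm_adq_cS _ _).trans ?_).2.trans ?_)).trans_eq
    (nsmul_eq_mul _ _))
  · rw [norm_cR]
    exact mul_le_mul_of_nonneg_left ((pi_norm_le_iff_of_nonneg (norm_nonneg _)).2 fun _ =>
      norm_le_pi_norm p _) (by norm_num)
  · rw [mul_pow 12, ← mul_assoc]
    refine mul_le_mul_of_nonneg_right ?_ (sq_nonneg _)
    field_simp; norm_num

variable {J : Matrix (IL (fi l N) ⊕ IL N) (IL (fi l N) ⊕ IL N) ℝ} {C ρ : ℝ}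

theorem nj_ww (h : ∀ x μ ν, dd θ x μ ν = (kF F μ ν : ℝ)) (hF : 10 * LL l * |F| ≤ 1)
    (T : Tay (NJ l N (ab (lift l F θ)) (ab θ)) J C ρ) (r0 : 0 < ρ) (v : IL N → ℝ) :
    Sum.elim 0 v ⬝ᵥ J *ᵥ Sum.elim 0 v = v ⬝ᵥ v := by
  refine T.eq_of r0 (K := Fintype.card (TS N × Fin 4) * (90 * ‖v‖ ^ 4)) (s0 := (3 * (‖v‖ + 1))⁻¹)
    (by positivity) fun s s0 s1 => ⟨Sum.elim 0 (s • v), ?_, ?_⟩
  · rw [show s • Sum.elim (0 : IL (fi l N) → ℝ) v = Sum.elim (0 : IL (fi l N) → ℝ) (s • v) from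
      funext fun i => by cases i <;> simp, sub_self, norm_zero]
    positivity
  have s2 : s * (3 * (‖v‖ + 1)) ≤ 1 := by
    rwa [← one_div, le_div_iff₀ (by positivity)] at s1
  have v0 := mul_nonneg s0.le (norm_nonneg v)
  have e : s ^ 2 * v ⬝ᵥ v = ∑ i : TS N × Fin 4,
      (dot (cR fun k => (s • v) (i, k)) (cR fun k => (s • v) (i, k))).re := by
    simp only [dotProduct, mul_sum, Fintype.sum_prod_type (α₂ := Fin 3), dot, cR, Complex.re_sum,
      ← Complex.ofReal_mul, Complex.ofReal_re, Pi.smul_apply, smul_eq_mul]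
    congr! 2; ring
  rw [NJ_w h hF, NJ_zero h hF, sub_zero, e, ← sum_sub_distrib, mul_assoc]
  refine (abs_sum_le_sum_abs _ _).trans ((sum_le_card_nsmul _ _ _ fun i _ => ?_).trans_eq
    (nsmul_eq_mul _ _))
  have a : ‖cR fun k => (s • v) (i, k)‖ ≤ s * ‖v‖ := (norm_cR _).trans_le
    ((norm_comp_le (e := Equiv.refl _) (s • v) i).trans_eq
      (by rw [norm_smul, Real.norm_of_nonneg s0.le]))
  have b := (norm_dot _ _).trans (mul_le_mul (mul_le_mul_of_nonneg_left a zero_le_three) a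
    (norm_nonneg _) (by positivity))
  rw [← Complex.sub_re]
  refine (Complex.abs_re_le_norm _).trans ((Nz.cpow_near (b.trans (by nlinarith))).trans
    ((mul_le_mul_of_nonneg_left (pow_le_pow_left₀ (norm_nonneg _) b 2) (by norm_num)).trans ?_))
  nlinarith [mul_le_mul_of_nonneg_left (show s ≤ 1 by nlinarith)
    (show 0 ≤ ‖v‖ ^ 4 * s ^ 3 by positivity)]

theorem nj_min (h : ∀ x μ ν, dd θ x μ ν = (kF F μ ν : ℝ)) (hF : 10 * LL l * |F| ≤ 1)
    (T : Tay (NJ l N (ab (lift l F θ)) (ab θ)) J C ρ) (r0 : 0 < ρ) (a : IL (fi l N) → ℝ) (x : ℝ)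
    (hx : ∀ v, x ≤ Sum.elim a v ⬝ᵥ J *ᵥ Sum.elim a v) : x ≤ 0 := by
  let q : TS N × Fin 4 → ℂ → Hc := fun i z => cC (ab θ) (lf i.1, i.2) * star (Vh l i.2
    (tfx star l (sh (up l (lf i.1)) (exF (z • pf a) * cC (ab (lift l F θ))))))
  have q0 : ∀ i, ∃ c : ℝ, 0 < c ∧ q i 0 = (c : ℂ) • 1 := fun i => by
    simpa only [q, zero_smul, show exF 0 = 1 from funext fun _ => ex_zero, one_mul] using
      rs_lift h hF (lf i.1) i.2
  have d : DifferentiableAt ℂ (fun z i => ch (q i z)) 0 := differentiableAt_pi.2 fun i => by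
    have n := Metric.ball_mem_nhds (0 : ℂ) (show 0 < (2 * (‖a‖ + 1))⁻¹ by positivity)
    have D : Disc (Metric.ball 0 (2 * (‖a‖ + 1))⁻¹) fun z : ℂ =>
        exF (z • pf a) * cC (ab (lift l F θ)) := fun e =>
      (Disc.exF (A := fun z => z • pf a) (fun e => by simp only [Pi.smul_apply]; fun_prop)
        (fun z hz e => by
          rw [mem_ball_zero_iff, ← one_div, lt_div_iff₀ (by positivity)] at hz
          rw [Pi.smul_apply, norm_smul]
          nlinarith [mul_le_mul_of_nonneg_left (norm_pf a e) (norm_nonneg z), norm_nonneg z])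
        e).mul_const _
    have D' : DifferentiableOn ℂ (q i) _ := (diff_star (Nz.diff_Vh (tfx_disc (D.sh _)))).const_mul _
    obtain ⟨c, c0, hc⟩ := q0 i
    exact (((diff_re D').differentiableAt n).inv (by
      rw [hc, Quaternion.re_smul]; simpa using c0.ne')).smul
      ((diff_co D').differentiableAt n)
  obtain ⟨K, K0, hK⟩ := d.isBigO_sub.exists_pos
  obtain ⟨ε, ε0, hε⟩ := Metric.eventually_nhds_iff_ball.1 hK.bound
  refine le_of_cubic (C := C * (‖a‖ + K) ^ 3) (s0 := min (ε / 2) (ρ / (‖a‖ + K))) (by positivity)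
    fun s s0 s1 => ?_
  have k := hε s (by simpa [abs_of_pos s0] using (s1.trans (min_le_left _ _)).trans_lt (by linarith))
  rw [show (fun i => ch (q i 0)) = 0 from funext fun i => by
      obtain ⟨c, c0, hc⟩ := q0 i
      rw [hc, ch_smul (by exact_mod_cast c0.ne'), ch_one, Pi.zero_apply],
    sub_zero, sub_zero, Complex.norm_real, Real.norm_of_nonneg s0.le] at k
  let w : IL N → ℝ := fun i => -(ch (q i.1 s) i.2).re
  have hw : ‖Sum.elim (s • a) w‖ ≤ (‖a‖ + K) * s :=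
    (pi_norm_le_iff_of_nonneg (by positivity)).2 fun i => by
      rcases i with i | i
      · refine (norm_le_pi_norm (s • a) i).trans ?_
        rw [norm_smul, Real.norm_of_nonneg s0.le]; nlinarith
      · refine (norm_neg _).trans_le ((Complex.abs_re_le_norm _).trans ((norm_le_pi_norm _ _).trans
          ((norm_le_pi_norm (fun i => ch (q i s)) i.1).trans (k.trans ?_))))
        nlinarith [mul_nonneg (norm_nonneg a) s0.le]
  have z : NJ l N (ab (lift l F θ)) (ab θ) (Sum.elim (s • a) w) = 0 := sum_eq_zero fun y _ => by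
    rw [Complex.re_sum]
    refine sum_eq_zero fun μ _ => ?_
    have e : pf w (lf y, μ) = -ch (q (y, μ) s) := funext fun k => Complex.ext
      (by simp [pf, w, cs_lf]) (by
        simp only [pf, Complex.ofReal_im, Pi.neg_apply, Complex.neg_im, q, ← pf_smul, exF_real]
        exact (neg_eq_zero.2 (rs_real _ _ _ k)).symm)
    rw [Nz.nz_eq, rsN, Pi.mul_apply, mul_assoc, show (fun i => Sum.elim (s • a) w (.inl i)) = s • a
      from rfl, pf_smul, show exF (pf fun i => Sum.elim (s • a) w (.inr i)) (lf y, μ) =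
      ex (-ch (q (y, μ) s)) from congrArg ex e, ch_cancel]
    simp [dot]
  have t := T.2 _ _ hw ((le_div_iff₀' (by positivity)).1 (s1.trans (min_le_right _ _)))
  rw [z, NJ_zero h hF, show Sum.elim (s • a) w = s • Sum.elim a (s⁻¹ • w) from funext fun i => by
    cases i <;> simp [s0.ne'], quad_smul] at t
  nlinarith [(abs_le.1 t).1, mul_le_mul_of_nonneg_left (hx (s⁻¹ • w)) (sq_nonneg s)]

theorem nj_kill (h : Bg N F θ) (T : Tay (NJ l N (ab (lift l F θ)) (ab θ)) J C ρ) (r0 : 0 < ρ)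
    (v : IG (fi l N) → ℝ) :
    J *ᵥ Sum.elim (DL _ (ab (lift l F θ)) v) (DL N (ab θ) (rhoL l N v)) = 0 := by
  rw [NJ_eq (bg_lift h).per h.per] at T
  have k1 := kill_gauge FJ_gi T r0 (fun x => gl v (cs _ x))
    (Sum.elim (fun i => gl v i.1) fun i => gl (rhoL l N v) i.1)
    (Sum.elim (fun i => gl v (i.1 + Pi.single i.2 1))
      fun i => gl (rhoL l N v) (i.1 + Pi.single i.2 1))
    (fun i => by
      rcases i with e | b
      · rfl
      · exact (gl_rho v b.1).symm)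
    (fun i => by
      rcases i with e | b
      · exact congrArg _ (cs_add_un _ _)
      · exact (gl_rho v _).symm.trans (congrArg _ (cs_add_un _ _)))
    (d := Sum.elim (fun i => gl v i.1.1 i.2 - (Rm (eA (lift l F θ (lf i.1.1, i.1.2))) *ᵥ
      gl v (i.1.1 + Pi.single i.1.2 1)) i.2) fun i => gl (rhoL l N v) i.1.1 i.2 -
      (Rm (eA (θ (lf i.1.1, i.1.2))) *ᵥ gl (rhoL l N v) (i.1.1 + Pi.single i.1.2 1)) i.2)
    fun i k => by cases i <;> rfl
  have k2 := kill_neutral FJ_gi T r0 (fun y => -∑ μ, y μ * v (.inr μ))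
    (d := Sum.elim (fun i => if i.2 = 0 then v (.inr i.1.2) else 0)
      fun i => if i.2 = 0 then rhoL l N v (.inr i.1.2) else 0)
    (by funext j; rcases j with j | j <;> by_cases h : j.2 = 0 <;> simp [nP, h]) fun i => by
      rcases i with e | b <;> simp only [s2, t2, tg, Sum.elim_inl, Sum.elim_inr, up_apply,
        Pi.add_apply, Int.cast_add, Int.cast_mul, mul_add, add_mul, sum_add_distrib] <;>
      simp [un_apply, pk, rhoL]
  have k := congrArg₂ (· + ·) k1 k2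
  simp only [← mulVec_add, add_zero] at k
  rw [← k]
  congr 1
  funext i
  cases i <;> rfl

theorem joint (h : Bg N F θ) (hF : 10 ^ 8 * (LL l : ℝ) ^ 2 * |F| ≤ 1) :
    ∃ B : Matrix (IL N) (IL (fi l N)) ℝ,
      B * Dm (fi l N) (ab (lift l F θ)) = Dm N (ab θ) * LinearMap.toMatrix' (rhoL l N) ∧
      Tay (NJ l N (ab (lift l F θ)) (ab θ)) (fromBlocks (Bᵀ * B) (-Bᵀ) (-B) 1)
        (Fintype.card (TS N) * (10 ^ 27 * (LL l : ℝ) ^ 6)) (10 ^ 7 * (LL l : ℝ) ^ 2)⁻¹ ∧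
      ∀ a, |a ⬝ᵥ (Bᵀ * B) *ᵥ a| ≤ Fintype.card (TS N) * (10 ^ 20 * (LL l : ℝ) ^ 4) * ‖a‖ ^ 2 := by
  have L1 : (1 : ℝ) ≤ LL l := by exact_mod_cast LL_pos l
  have hF' : 10 * LL l * |F| ≤ 1 := by nlinarith [mul_nonneg (zero_le_one.trans L1) (abs_nonneg F)]
  obtain ⟨J, T, hJ, hK⟩ := nj_tay h hF
  obtain ⟨B, rfl⟩ := sq_form T.1 hJ (nj_ww h.curv hF' T (by positivity))
    (nj_min h.curv hF' T (by positivity))
  refine ⟨B, ext_of_mulVec_single fun i => ?_, T, fun a => le_of_eq_of_le (by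
    simp [fromBlocks_mulVec, sumElim_dotProduct_sumElim]) ((hK (Sum.elim a 0)).trans
      (mul_le_mul_of_nonneg_left (pow_le_pow_left₀ (norm_nonneg _) ((pi_norm_le_iff_of_nonneg
        (norm_nonneg _)).2 fun i => by cases i <;> simp [norm_le_pi_norm a _, -Real.norm_eq_abs]) 2)
        (by positivity)))⟩
  have := nj_kill h T (by positivity) (Pi.single i 1)
  rw [fromBlocks_mulVec, ← Sum.elim_zero_zero] at this
  have := congrArg (· ∘ Sum.inr) this
  simp only [Sum.elim_comp_inr, Sum.elim_comp_inl, neg_mulVec, one_mulVec, neg_add_eq_zero] at this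
  rw [← mulVec_mulVec, ← mulVec_mulVec, Dm_mulVec, Dm_mulVec, LinearMap.toMatrix'_mulVec, this]

end Pool.Agent.Lib.MP_7f377f_mp.RG.Q4.Af
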