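import Pool.Agent.Lib.MP_7f377f_mp.Q4AfJ
import Pool.Agent.Lib.MP_7f377f_mp.Q4AfDet
import Pool.Agent.Lib.MP_7f377f_mp.Q4AfCh
import Pool.Agent.Lib.MP_7f377f_mp.Q4TrZ
import Pool.Agent.Lib.MP_7f377f_mp.Q4FldB
import Pool.Agent.Lib.MP_7f377f_mp.Q4Geo

/-! The determinants along a chain of tree steps: definitions. -/

noncomputable section

namespace Pool.Agent.Lib.MP_7f377f_mp.RG.Q4.Af

open Finset Matrix

variable (N : Fin 4 → ℕ) [∀ i, NeZero (N i)]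

/-- the Hessian of the action with density `t` at an abelian background -/
def Hs (t : Cf → ℂ) (θ : Lk → Real.Angle) : Matrix (IL N) (IL N) ℝ :=
  Classical.epsilon fun Q => ∃ C ρ, 0 < ρ ∧ Tay (SS N t (ab θ)) Q C ρ

/-- half the logarithm of its gauge fixed determinant -/
def LK (t : Cf → ℂ) (θ : Lk → Real.Angle) : ℝ := lk (Hs N t θ) (Dm N (ab θ))

/-- densities whose constants are bounded by `Q` -/
structure TD (Q : ℝ) (t : Cf → ℂ) : Prop where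
  big : 10 ^ 9 ≤ Q
  ex : ∃ R δ M, L1 R δ M t ∧ (R : ℝ) ≤ Q ∧ 1 ≤ Q * δ ∧ δ ≤ 1 / 10 ∧ M ≤ Q
  pos : ∀ A : Fld, RealF A →
    48020⁻¹ * ∑ μ, ∑ ν, ∑ k, (dd A 0 μ ν k).re ^ 2 ≤ (q2 (ph t 1) 0 A).re

/-- small curvature everywhere -/
def Gl (ε : ℝ) (W : Conf) : Prop := ∀ x μ ν, fq W x μ ν ≤ ε

/-- the real field with coordinates `a` around `U` -/
def rf {M : Fin 4 → ℕ} (U : Conf) (a : IL M → ℝ) : Conf :=
  fun e => exS (fun k => a ((cs M e.1, e.2), k)) * U e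

/-- the total energy of the blocks as a function of the links outside the trees -/
def PP (S : Td) (W : Conf) (x : IR S.l N → ℝ) : ℝ :=
  ∑ y : TS N, (S.t.FF (cC W) (lf y) (pf (exN x))).re

/-- coordinates of the approximate minimiser -/
def xs (S : Td) (W : Conf) : IR S.l N → ℝ :=
  fun i => (S.t.As (cC W) (lf i.1.1.1, i.1.1.2) i.1.2).re

/-- the joint energy of the fine and of the coarse fluctuation -/
def EJ (S : Td) (U W : Conf) (p : IL (fi S.l N) ⊕ IL N → ℝ) : ℝ :=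
  SS (fi S.l N) (tf S.m S.T) U (fun i => p (.inl i)) + S.L ^ 2 * NJ S.l N U W p

/-- standing assumptions of a step with fields of size `ε` -/
structure Sm0 (S : Sd) (ε : ℝ) : Prop where
  nu : S.Nu 100
  tok : S.TOk
  tk : S.TK
  pos : 0 < ε
  le : S.Q ^ 10 * ε ≤ S.g'
  τ : S.τ ≤ ε
  ex : Real.exp (-(S.l : ℝ) ^ 2) ≤ ε

variable {N}

theorem Hs_eq {t : Cf → ℂ} {θ : Lk → Real.Angle} {Q : Matrix (IL N) (IL N) ℝ} {C ρ : ℝ}
    (h : Tay (SS N t (ab θ)) Q C ρ) (h0 : 0 < ρ) : Hs N t θ = Q := by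
  obtain ⟨_, _, r0, T⟩ := Classical.epsilon_spec
    (p := fun Q => ∃ C ρ, 0 < ρ ∧ Tay (SS N t (ab θ)) Q C ρ) ⟨Q, C, ρ, h0, h⟩
  exact T.unique r0 h h0

theorem Sm0.mono {S : Sd} {ε ε' : ℝ} (h : Sm0 S ε) (h1 : ε ≤ ε') (h2 : S.Q ^ 10 * ε' ≤ S.g') :
    Sm0 S ε' := ⟨h.nu, h.tok, h.tk, h.pos.trans_le h1, h2, h.τ.trans h1, h.ex.trans h1⟩

theorem Sm0.fo {S : Sd} {ε : ℝ} (h : Sm0 S ε) : S.Fo S.P := h.tk.fo (h.nu.mono (Nat.zero_le _))

theorem cC_rf {M : Fin 4 → ℕ} (U : Conf) (a : IL M → ℝ) : cC (rf U a) = exF (pf a) * cC U :=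
  ((sh_zero _).symm.trans ((exF_real a U 0).trans (by rw [sh_zero]; rfl))).symm

end Pool.Agent.Lib.MP_7f377f_mp.RG.Q4.Af
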