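import Pool.Agent.Lib.MP_7f377f_mp.Q4XiJ
import Pool.Agent.Lib.MP_7f377f_mp.Q4Det

/-! The one loop determinant of the Wilson action in a constant abelian flux. -/

noncomputable section

namespace Pool.Agent.Lib.MP_7f377f_mp.RG.Q4

open Finset Matrix

namespace Xi

variable {N : Fin 4 → ℕ} [∀ i, NeZero (N i)] {F : ℝ} {θ : Lk → Real.Angle}

def e4 {G : Type} : (G ⊕ G) ⊕ G ⊕ G → G × Fin 4 :=
  Sum.elim (Sum.elim (·, 0) (·, 1)) (Sum.elim (·, 2) (·, 3))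

def gL {G : Type} : G × Fin 4 ⊕ ((G ⊕ G) ⊕ G ⊕ G) × Fin 2 → (G × Fin 4) × Fin 3 :=
  Sum.elim (·, 0) fun p => (e4 p.1, p.2.succ)

theorem gL_bij {G : Type} : (gL (G := G)).Bijective := by
  refine Function.bijective_iff_has_inverse.2 ⟨fun p => Fin.cases (.inl p.1) (fun k => .inr
    (![.inl (.inl p.1.1), .inl (.inr p.1.1), .inr (.inl p.1.1), .inr (.inr p.1.1)] p.1.2, k)) p.2,
    ?_, ?_⟩
  · rintro (i | ⟨(x | x) | x | x, k⟩) <;> rfl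
  · rintro ⟨⟨x, μ⟩, k⟩
    fin_cases μ <;> fin_cases k <;> rfl

def gG : ({x : TS N // x ≠ 0} ⊕ Fin 4) ⊕ TS N × Fin 2 → IG N :=
  Sum.elim (Sum.map (fun x => ⟨(x.1, 0), by simpa using x.2⟩) id)
    fun p => .inl ⟨(p.1, p.2.succ), by simp⟩

omit [∀ i, NeZero (N i)] in
theorem gG_bij : (gG (N := N)).Bijective := by
  constructor
  · rintro ((x | x) | ⟨x, k⟩) ((y | y) | ⟨y, l⟩) h <;>
      simp_all [gG, Subtype.ext_iff, (Fin.succ_ne_zero _).symm]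
  · rintro (⟨⟨x, k⟩, h⟩ | μ)
    · induction k using Fin.cases with
      | zero => exact ⟨.inl (.inl ⟨x, by simpa using h⟩), rfl⟩
      | succ k => exact ⟨.inr (x, k), rfl⟩
    · exact ⟨.inl (.inr μ), rfl⟩

theorem sq3 (u : Fin 3 → ℝ) : ∑ k, u k ^ 2 = u 0 ^ 2 + ‖Gp.cz u‖ ^ 2 := by
  rw [Complex.sq_norm]; simp [Fin.sum_univ_three, Gp.cz, Complex.normSq_apply, sq, add_assoc]

/-- the neutral part of the Faddeev-Popov form -/
def nG (y : {x : TS N // x ≠ 0} ⊕ Fin 4 → ℝ) : ℝ :=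
  let g := fun x => if h : x ≠ 0 then y (.inl ⟨x, h⟩) else 0
  ∑ x, ∑ μ, (g x - g (x + Pi.single μ 1) + y (.inr μ)) ^ 2

theorem fp_det (θ : Lk → Real.Angle) :
    ∃ B : Matrix _ _ ℝ, B.IsSymm ∧ (∀ y, y ⬝ᵥ B *ᵥ y = nG (N := N) y) ∧
    ((Dm N (ab θ))ᵀ * Dm N (ab θ)).det = B.det * ‖(Lap (TT N θ)).det‖ ^ 2 := by
  refine split_det (gG (N := N)) gG_bij (transpose_mul _ _) (Lap_herm (TT N θ)) fun v z hz => ?_
  have e : ∀ x, Gp.cz (gl v x) = z x := fun x => by rw [hz]; simp [Gp.cz, gl, gG]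
  have e0 : ∀ x, gl v x 0 = if h : x ≠ 0 then v (gG (.inl (.inl ⟨x, h⟩))) else 0 := fun x => by
    by_cases h : x = 0 <;> simp [gl, gG, h]
  rw [← mulVec_mulVec, dotProduct_mulVec, vecMul_transpose, Dm_mulVec, Lap, sum_mulVec, ip,
    dotProduct_sum, Complex.re_sum]
  simp only [← ip.eq_1, ← mulVec_mulVec, ← ip_mulVec, ip_self]
  simp only [dotProduct, ← sq, Fintype.sum_prod_type, nG]
  rw [sum_comm (γ := Fin 4), ← sum_add_distrib]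
  refine sum_congr rfl fun x _ => ?_
  rw [← sum_add_distrib]
  refine sum_congr rfl fun μ _ => ?_
  rw [sq3 fun k => DL N (ab θ) v ((x, μ), k), Gp.DL_zero, Gp.DL_cx, e, e, e0, e0, norm_sub_rev,
    sub_mulVec, one_mulVec, Pi.sub_apply, TT, ws_mulVec]
  rfl

/-- pairing of a neutral field with a gauge direction -/
def nn (y : TS N × Fin 4 → ℝ) (v : IG N → ℝ) : ℝ :=
  ∑ x, ∑ μ, y (x, μ) * (gl v x 0 - gl v (x + Pi.single μ 1) 0 + v (.inr μ))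

/-- the charged field -/
def al (a : IL N → ℝ) (μ : Fin 4) (x : TS N) : ℂ := Gp.cz (av a x μ)

theorem pair (θ : Lk → Real.Angle) (a : IL N → ℝ) (v : IG N → ℝ) :
    v ⬝ᵥ (Dm N (ab θ))ᵀ *ᵥ a = nn (fun i => a (i, 0)) v +
      (ip (∑ μ, (al a μ - (TT N θ μ).1ᴴ *ᵥ al a μ)) fun x => Gp.cz (gl v x)).re := by
  rw [dotProduct_mulVec, vecMul_transpose, Dm_mulVec, ip, star_sum, sum_dotProduct, Complex.re_sum]
  simp only [star_sub, sub_dotProduct, ← ip.eq_1, ip_mulVec, conjTranspose_conjTranspose]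
  simp only [ip, dotProduct, ← sum_sub_distrib, Complex.re_sum, Fintype.sum_prod_type, nn]
  rw [sum_comm (γ := Fin 4), ← sum_add_distrib]
  refine sum_congr rfl fun x _ => ?_
  rw [← sum_add_distrib]
  refine sum_congr rfl fun μ _ => ?_
  rw [← mul_sub, TT, ws_mulVec, ← Gp.DL_cx, ← Gp.DL_zero θ]
  simp [Fin.sum_univ_three, al, av, Gp.cz]
  ring

theorem comp_cz {u : IG N → ℝ} {y : TS N × Fin 4 → ℝ} {w : TS N → ℂ}
    (h : ∀ v, v ⬝ᵥ u = nn y v + (ip w fun x => Gp.cz (gl v x)).re) (x : TS N) :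
    Gp.cz (gl u x) = w x := by
  have a := h (Pi.single (.inl ⟨(x, 1), by simp⟩) 1)
  have b := h (Pi.single (.inl ⟨(x, 2), by simp⟩) 1)
  rw [single_dotProduct] at a b
  simp [nn, gl, ip, dotProduct, Gp.cz, Pi.single_apply] at a b
  simp [Gp.cz, gl, a, b]

/-- the divergence of a neutral field -/
def dv (y : TS N × Fin 4 → ℝ) : IG N → ℝ :=
  (Dm N (ab 0))ᵀ *ᵥ fun i => if i.2 = 0 then y i.1 else 0

theorem dv_pair (y : TS N × Fin 4 → ℝ) (v : IG N → ℝ) : v ⬝ᵥ dv y = nn y v := by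
  have : ∀ μ, al (fun i : IL N => if i.2 = 0 then y i.1 else 0) μ = 0 := fun μ => by
    funext x; simp [al, av, Gp.cz, Complex.ext_iff]
  simp [dv, pair, this, ip]

/-- the neutral part of the gauge fixed Hessian -/
def nL (F : ℝ) (y : TS N × Fin 4 → ℝ) : ℝ := (∑ x, ∑ μ, ∑ ν, if μ < ν then Real.cos (kF F μ ν) *
  (y (x, μ) + y (x + Pi.single μ 1, ν) - y (x + Pi.single ν 1, μ) - y (x, ν)) ^ 2 else 0) +
  dv y ⬝ᵥ dv y

theorem hess_det (h : Bg N F θ) (hh : Heis (ph (2 * F)) (TT N θ)) {Q : Matrix (IL N) (IL N) ℝ}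
    {C ρ : ℝ} (hρ : 0 < ρ) (hQ : Tay (Q4.SS N wc (ab θ)) Q C ρ) :
    ∃ B : Matrix _ _ ℝ, B.IsSymm ∧ (∀ y, y ⬝ᵥ B *ᵥ y = nL (N := N) F y) ∧
    (Q + Dm N (ab θ) * (Dm N (ab θ))ᵀ).det = B.det * ‖(M4 F (TT N θ)).det‖ ^ 2 := by
  refine split_det (gL (G := TS N)) gL_bij (A := Q + Dm N (ab θ) * (Dm N (ab θ))ᵀ)
    (hQ.1.add (transpose_mul _ _)) (M4_herm F (TT N θ)) (n := nL F) fun a z hz => ?_
  have p := pair θ a
  have e1 := p ((Dm N (ab θ))ᵀ *ᵥ a)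
  have e2 := p (dv fun i => a (i, 0))
  rw [funext (comp_cz p), ← dv_pair, dotProduct_comm _ (dv _), e2, ← dv_pair, funext
    (comp_cz (y := fun i => a (i, 0)) (w := 0) fun v => by simp [dv_pair, ip])] at e1
  rw [add_mulVec, dotProduct_add, ← mulVec_mulVec, dotProduct_mulVec a (Dm _ _), ← mulVec_transpose,
    e1, hess h hρ hQ, weitz hh (al a) z (funext fun i => by
      rw [hz]; rcases i with (x | x) | x | x <;> rfl), nL]
  have t : ∀ x μ ν, ((TT N θ μ).1 *ᵥ al a ν) x = Gp.cz (tv θ a x μ ν) := fun x μ ν => by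
    rw [TT, ws_mulVec, tv, Gp.Rm_cx]; rfl
  have c : ∀ x μ ν, crl (TT N θ) (al a) μ ν x =
      Gp.cz (av a x μ + tv θ a x μ ν - tv θ a x ν μ - av a x ν) := fun x μ ν => by
    simp only [crl, Pi.add_apply, Pi.sub_apply, t]; rfl
  have t0 : ∀ x μ ν, tv θ a x μ ν 0 = a ((x + Pi.single μ 1, ν), 0) := fun x μ ν => Gp.Rm_zero _ _
  have g : ∀ S D z W S' R : ℝ, z = 0 → S = S' + R → S + (D + z + W) = S' + D + (R + W) := by
    intro S D z W S' R h1 h2; rw [h1, h2]; ring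
  rw [Complex.add_re]
  refine g _ _ _ _ _ _ (by simp [ip]) ?_
  simp only [Complex.add_re, Complex.re_ofReal_mul, Complex.sub_re, ip_im, ip_self, c, qq, sq3]
  simp only [mul_sum, ← sum_add_distrib, ← sum_sub_distrib]
  refine sum_congr rfl fun x _ => ?_
  simp [Fin.sum_univ_four, kF, t, t0, gL, im2, al, Gp.cz, av]
  ring

theorem nL_pos {y : TS N × Fin 4 → ℝ} (hy : y ≠ 0) : 0 < nL 0 y := by
  have p : ∀ x μ ν, 0 ≤ if μ < ν then Real.cos (kF 0 μ ν) * (y (x, μ) + y (x + Pi.single μ 1, ν) -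
      y (x + Pi.single ν 1, μ) - y (x, ν)) ^ 2 else 0 := fun x μ ν => by
    simp only [kF, neg_zero, ite_self, Real.cos_zero, one_mul]; positivity
  have p1 := fun x μ => sum_nonneg fun ν (_ : ν ∈ univ) => p x μ ν
  have p2 := fun x => sum_nonneg fun μ (_ : μ ∈ univ) => p1 x μ
  have p3 := sum_nonneg fun x (_ : x ∈ univ) => p2 x
  have p4 := dot_nonneg (dv y)
  refine lt_of_le_of_ne (add_nonneg p3 p4) fun h => hy ?_
  obtain ⟨h1, h2⟩ := (add_eq_zero_iff_of_nonneg p3 p4).1 h.symm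
  have c : ∀ x μ ν, μ < ν → y (x, μ) + y (x + Pi.single μ 1, ν) - y (x + Pi.single ν 1, μ) -
      y (x, ν) = 0 := fun x μ ν hμ => by
    have := (sum_eq_zero_iff_of_nonneg fun ν _ => p x μ ν).1 ((sum_eq_zero_iff_of_nonneg
      fun μ _ => p1 x μ).1 ((sum_eq_zero_iff_of_nonneg fun x _ => p2 x).1 h1 x (mem_univ _)) μ
      (mem_univ _)) ν (mem_univ _)
    simpa [hμ, kF] using this
  have c' : ∀ x μ ν, y (x, μ) + y (x + Pi.single μ 1, ν) - y (x + Pi.single ν 1, μ) -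
      y (x, ν) = 0 := fun x μ ν => by
    rcases lt_trichotomy μ ν with h | rfl | h
    · exact c x μ ν h
    · ring
    · linarith [c x ν μ h]
  have := Gp.neutral_le (fun μ => (Pi.single μ 1 : TS N)) (Gp.conn (n := ∑ μ, N μ) fun μ =>
    single_le_sum (fun _ _ => Nat.zero_le _) (mem_univ μ)) (fun x μ => y (x, μ)) fun f t => by
      have := dv_pair y (Sum.elim (fun p => f p.1.1 - f 0) t)
      have e : ∀ x, gl (Sum.elim (fun p => f p.1.1 - f 0) t : IG N → ℝ) x 0 = f x - f 0 :=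
        fun x => by by_cases h : x = 0 <;> simp [gl, h]
      rw [dotProduct_self_eq_zero.1 h2, dotProduct_zero] at this
      simpa [nn, e, mul_comm] using this.symm
  simp only [c', ne_eq, OfNat.ofNat_ne_zero, not_false_eq_true, zero_pow, sum_const_zero,
    mul_zero, ← Fintype.sum_prod_type' fun x μ => y (x, μ) ^ 2] at this
  exact dotProduct_self_eq_zero.1 (le_antisymm (by simpa [dotProduct, sq] using this)
    (dot_nonneg _))

theorem nL_cmp (F : ℝ) (y : TS N × Fin 4 → ℝ) :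
    (1 - F ^ 2 / 2) * nL 0 y ≤ nL F y ∧ nL F y ≤ nL 0 y := by
  have k : ∀ μ ν, 1 - F ^ 2 / 2 ≤ Real.cos (kF F μ ν) := fun μ ν => by
    have := Real.one_sub_sq_div_two_le_cos (x := F)
    unfold kF; split_ifs <;> simp [this, sq_nonneg, div_nonneg]
  have z : ∀ μ ν, Real.cos (kF 0 μ ν) = 1 := fun μ ν => by simp [kF]
  simp only [nL, z, mul_add, mul_sum, mul_ite, mul_zero, one_mul]
  refine ⟨add_le_add ?_ (mul_le_of_le_one_left (dot_nonneg _) (by nlinarith)),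
    add_le_add ?_ le_rfl⟩ <;>
    refine sum_le_sum fun x _ => sum_le_sum fun μ _ => sum_le_sum fun ν _ => ?_ <;> split_ifs
  exacts [mul_le_mul_of_nonneg_right (k _ _) (sq_nonneg _), le_rfl,
    mul_le_of_le_one_left (sq_nonneg _) (Real.cos_le_one _), le_rfl]

theorem lk_eq (h : Bg N F θ) {Q : Matrix (IL N) (IL N) ℝ} {b g : ℝ} (hb : b ≠ 0)
    (hM : (MB F (TT N θ)).det ≠ 0)
    (h1 : (Q + Dm N (ab θ) * (Dm N (ab θ))ᵀ).det = b * ‖(M4 F (TT N θ)).det‖ ^ 2)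
    (h2 : ((Dm N (ab θ))ᵀ * Dm N (ab θ)).det = g * ‖(Lap (TT N θ)).det‖ ^ 2) :
    lk Q (Dm N (ab θ)) = 2⁻¹ * Real.log b + ld (MB F (TT N θ)) - Real.log g := by
  have d : ((Dm N (ab θ))ᵀ * Dm N (ab θ)).det ≠ 0 := fun h0 => by
    obtain ⟨v, v0, hv⟩ := exists_mulVec_eq_zero_iff.2 h0
    have := congrArg (v ⬝ᵥ ·) hv
    simp only [← mulVec_mulVec, dotProduct_zero] at this
    rw [dotProduct_mulVec, vecMul_transpose, dotProduct_self_eq_zero, Dm_mulVec] at this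
    exact v0 (DL_inj h v this)
  rw [h2] at d
  have g0 := left_ne_zero_of_mul d
  have l0 : ‖(Lap (TT N θ)).det‖ ≠ 0 := fun e => by simp [e] at d
  have m0 := norm_ne_zero_iff.2 hM
  rw [lk, h1, h2, M4, det_fromBlocks_zero₂₁, det_fromBlocks_zero₂₁, norm_mul, norm_mul,
    show ∀ m l : ℝ, l ≠ 0 → b * (m * (l * l)) ^ 2 / (g * l ^ 2) ^ 2 = b * m ^ 2 / g ^ 2 from
      fun m l _ => by field_simp, Real.log_div (by positivity) (by positivity),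
    Real.log_mul hb (by positivity), Real.log_pow, Real.log_pow, ld]
  · push_cast; ring
  · exact l0

end Xi

open Xi in
/-- the one loop coefficient -/
theorem xi_main (ε : ℝ) (hε : 0 < ε) : ∃ N0 : ℕ, ∀ (n1 n2 : ℕ) [NeZero n1] [NeZero n2], N0 ≤ n2 →
    n2 ≤ n1 → n2 * Real.log n1 ^ 2 ≤ n1 → ∀ (F : ℝ) (θ θ0 : Lk → Real.Angle),
    |F| * (n1 : ℝ) ^ 2 ≤ 7 → Bg (NN n1 n2) F θ → Bg (NN n1 n2) 0 θ0 →
    ∀ (Q Q0 : Matrix (IL (NN n1 n2)) (IL (NN n1 n2)) ℝ) (C ρ C0 ρ0 : ℝ), 0 < ρ → 0 < ρ0 →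
    Tay (SS (NN n1 n2) wc (ab θ)) Q C ρ → Tay (SS (NN n1 n2) wc (ab θ0)) Q0 C0 ρ0 →
    |lk Q (Dm (NN n1 n2) (ab θ)) - lk Q0 (Dm (NN n1 n2) (ab θ0)) +
      11 / (6 * Real.pi ^ 2) * F ^ 2 * ((n1 : ℝ) ^ 2 * (n2 : ℝ) ^ 2) * Real.log n2| ≤
      ε * (((n1 : ℝ) ^ 2)⁻¹ ^ 2 * ((n1 : ℝ) ^ 2 * (n2 : ℝ) ^ 2) * Real.log n2) := by
  obtain ⟨N0, hN⟩ := vec_main (ε := ε / 100) (by positivity)
  refine ⟨max N0 3, fun n1 n2 _ _ h0 h21 hl F θ θ0 hF h h' Q Q0 C ρ C0 ρ0 hρ hρ0 hQ hQ0 => ?_⟩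
  obtain ⟨l1, hv⟩ := hN n1 n2 (le_of_max_le_left h0) h21 hl
  have m := mag_TT h
  have m' := mag_TT h'
  obtain ⟨d1, v1⟩ := hv F hF _ _ m
  obtain ⟨d2, v2⟩ := hv 0 (by simp) _ _ m'
  obtain ⟨B, s1, f1, e1⟩ := hess_det h m.heis hρ hQ
  obtain ⟨B0, s2, f2, e2⟩ := hess_det h' m'.heis hρ0 hQ0
  obtain ⟨G, s3, f3, e3⟩ := fp_det (N := NN n1 n2) θ
  obtain ⟨G0, s4, f4, e4⟩ := fp_det (N := NN n1 n2) θ0
  obtain rfl := symm_ext s3 s4 fun y => (f3 y).trans (f4 y).symm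
  have u : (3 : ℝ) ≤ n1 := by exact_mod_cast (le_of_max_le_right h0).trans h21
  have F2 : F ^ 2 ≤ 49 * ((n1 : ℝ) ^ 4)⁻¹ := by
    rw [← div_eq_mul_inv, le_div_iff₀ (by positivity), ← sq_abs]
    nlinarith [mul_nonneg (abs_nonneg F) (sq_nonneg (n1 : ℝ))]
  have F1 : ((n1 : ℝ) ^ 4)⁻¹ ≤ (3 ^ 4)⁻¹ := by gcongr
  obtain ⟨p1, p2, p3⟩ := logdet_rel' s2 s1 (fun y hy => f2 y ▸ nL_pos hy) (η := F ^ 2 / 2)
    (by linarith) (fun y => by rw [f1, f2]; exact (nL_cmp F y).1) fun y => by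
      rw [f1, f2]
      rcases eq_or_ne y 0 with rfl | hy
      · simp [← f1, ← f2]
      · nlinarith [(nL_cmp F y).2, nL_pos hy]
  have c : (Fintype.card (TS (NN n1 n2)) : ℝ) = (n1 : ℝ) ^ 2 * (n2 : ℝ) ^ 2 := by
    rw [Fintype.card_pi, prod_congr rfl fun i _ => ZMod.card (NN n1 n2 i)]
    simp [Fin.prod_univ_four, NN]; ring
  rw [Fintype.card_prod, Fintype.card_fin, Nat.cast_mul, c] at p3
  rw [c, div_eq_mul_inv _ (_ ^ 4)] at v1 v2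
  rw [lk_eq h p2.ne' d1 e1 e3, lk_eq h' p1.ne' d2 e2 e4, inv_pow, ← pow_mul]
  have a1 := mul_le_mul_of_nonneg_right F2 (by positivity : 0 ≤ (n1 : ℝ) ^ 2 * (n2 : ℝ) ^ 2)
  have a2 := mul_le_mul_of_nonneg_right l1
    (by positivity : 0 ≤ ((n1 : ℝ) ^ 4)⁻¹ * ((n1 : ℝ) ^ 2 * (n2 : ℝ) ^ 2))
  push_cast at p3
  rw [abs_le] at p3 v1 v2 ⊢
  constructor <;> linarith [p3.1, p3.2, v1.1, v1.2, v2.1, v2.2]

end Pool.Agent.Lib.MP_7f377f_mp.RG.Q4
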