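import Pool.Agent.Lib.MP_7f377f_mp.Q4AfK
import Pool.Agent.Lib.MP_7f377f_mp.Q4Xi

/-! The tori and the backgrounds of the telescoping argument. -/

noncomputable section

namespace Pool.Agent.Lib.MP_7f377f_mp.RG.Q4.Af

open Finset Real

instance (l k : ℕ) : NeZero (LL l ^ k) := ⟨pow_ne_zero _ (Nat.succ_ne_zero _)⟩

variable (l a b : ℕ)

/-- the torus at level `j` -/
abbrev Tn (j : ℕ) : Fin 4 → ℕ := NN (LL l ^ (a + j)) (LL l ^ (b + j))

/-- one quantum of flux -/
def fj (j : ℕ) : ℝ := 2 * π / ((LL l : ℝ) ^ (a + j)) ^ 2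

/-- backgrounds with `k` quanta of flux -/
def th (k : ℤ) : ℕ → Lk → Angle
  | 0 => (bg_exists (LL l ^ a) (LL l ^ b) k).choose
  | j + 1 => lift l (k * fj l a j) (th k j)

/-- the response of the determinant to the flux -/
def XX (t : Cf → ℂ) (j : ℕ) : ℝ :=
  LK (Tn l a b j) t (th l a b 1 j) - LK (Tn l a b j) t (th l a b 0 j)

/-- volume times the square of the flux -/
def om : ℝ := 4 * π ^ 2 * ((LL l : ℝ) ^ b) ^ 2 / ((LL l : ℝ) ^ a) ^ 2

/-- the one loop coefficient of a step -/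
def bnat : ℝ := -(XX l a b wc (2 * S0 l) - XX l a b wc (S0 l)) / (S0 l * om l a b)

/-- gauge fixing at level `j` with constants adapted to the precision `E` -/
def Gj (β E : ℝ) (j : ℕ) : Prop := ∃ g1 g2, 1 ≤ g1 ∧ β * fj l a j * g1 ≤ E ∧
  g2 * fj l a j ^ 6 ≤ 1 ∧ Gap (Tn l a b j) (ab (th l a b 1 j)) g1 g2 ∧
    Gap (Tn l a b j) (ab (th l a b 0 j)) g1 g2

theorem fi_Tn (j : ℕ) : fi l (Tn l a b j) = Tn l a b (j + 1) := by
  rw [fi_NN, Tn, ← add_assoc, ← add_assoc, pow_succ', pow_succ']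

theorem LL_pos' : (0 : ℝ) < LL l := by exact_mod_cast Nat.succ_pos _

theorem fj_pos (j : ℕ) : 0 < fj l a j := by have := LL_pos' l; unfold fj; positivity

theorem om_pos : 0 < om l a b := by have := LL_pos' l; unfold om; positivity

theorem bg_th (k : ℤ) (j : ℕ) : Bg (Tn l a b j) (k * fj l a j) (th l a b k j) := by
  induction j with
  | zero => simpa [fj, th, Tn] using (bg_exists (LL l ^ a) (LL l ^ b) k).choose_spec
  | succ j ih =>
    have := bg_lift (l := l) ih
    rwa [fi_Tn, show k * fj l a j / (LL l : ℝ) ^ 2 = k * fj l a (j + 1) by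
      have := LL_pos' l
      simp only [fj, ← add_assoc, pow_succ _ (a + j)]
      field_simp] at this

theorem card_Tn (j : ℕ) : (Fintype.card (TS (Tn l a b j)) : ℝ) * fj l a j ^ 2 = om l a b := by
  rw [Fintype.card_pi, prod_congr rfl fun i _ => ZMod.card (Tn l a b j i)]
  have := LL_pos' l
  simp only [Fin.prod_univ_four, Tn, NN, fj, om, pow_add]
  simp
  field_simp
  norm_num

theorem LK_congr {N N' : Fin 4 → ℕ} [∀ i, NeZero (N i)] [∀ i, NeZero (N' i)] (e : N = N')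
    (t : Cf → ℂ) (θ : Lk → Angle) : LK N t θ = LK N' t θ := by subst e; rfl

end Pool.Agent.Lib.MP_7f377f_mp.RG.Q4.Af
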