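import Pool.Agent.Lib.MP_7f377f_mp.Q4AfL1
import Pool.Agent.Lib.MP_7f377f_mp.Q4LinC
import Pool.Agent.Lib.MP_7f377f_mp.Q4Ini

/-! Comparison of the energies of a block for two sets of tree data. -/

noncomputable section

namespace Pool.Agent.Lib.MP_7f377f_mp.RG.Q4.Af

open Finset En JS

attribute [local irreducible] box lbox

/-- balls in the supremum norm -/
def dS (ι E : Type) [NormedAddCommGroup E] [NormedSpace ℂ E] (ρ : ℝ) (hρ : 0 < ρ) :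
    Kit.Dom (ι → E) where
  D θ := {A | ∀ e, ‖A e‖ ≤ θ * ρ}
  smul c θ A h e := by
    rw [Pi.smul_apply, norm_smul, mul_assoc]
    exact mul_le_mul_of_nonneg_left (h e) (norm_nonneg _)
  add h h' e := (norm_add_le_of_le (h e) (h' e)).trans_eq (add_mul _ _ _).symm
  mono h hB e := (hB e).trans (mul_le_mul_of_nonneg_right h hρ.le)

theorem ex_lip {a b : C3} {u : ℝ} (ha : ‖a‖ ≤ 1 / 400) (hb : ‖b‖ ≤ u) (u0 : 0 < u)
    (u1 : u ≤ 1 / 200) : ‖ex (a + b) - ex a‖ ≤ 11 * u := by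
  have h : (dS Unit C3 (1 / 100) (by norm_num)).LH fun A => ex (A ()) := fun B D S _ hD =>
    diff_ex (by simp only [Pi.add_apply, Pi.smul_apply]; fun_prop)
      fun t ht => (hD t ht ()).trans (by norm_num)
  exact (h.lip' le_rfl (c := 1) (M := 4 * (1 / 100)) (fun A hA =>
    (near_one ⟨hA (), ex_near (hA ()) (by norm_num)⟩).trans (by norm_num))
    (B := fun _ => a) (δ := fun _ => b) (lam := 1 / 4) (θ := 100 * u) (fun _ => by linarith)
    (fun _ => by linarith) (by positivity) (by linarith)).trans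
      (by rw [div_le_iff₀ (by norm_num)]; linarith)

theorem cx_sub (m m' : BF) (A B : Fld) : cx (m - m') A B = cx m A B - cx m' A B := by
  simp only [cx, ← sum_sub_distrib, LinearMap.sub_apply]
  exact sum_congr rfl fun k _ => by push_cast; ring

variable {l r c : ℕ} {τ ρ C P δ κ u η : ℝ} {m m' : BF} {s s' : V →ₗ[ℝ] V} {T T' : Fld → ℂ}
  {A B a b : Fld} {U U' W : Cf}

theorem hh_cl (hr : 3 * r ≤ l) (hk : Cb (3 * r) κ (m - m')) {α β : ℝ} (ha : Sm (3 * l + 1) α a)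
    (hb : Sm (3 * l + 1) β b) :
    ‖cx (hh l m) a b - cx (hh l m') a b‖ ≤ 192 * (LL l : ℝ) ^ 4 * κ * (α * β) := by
  have e : hh l m - hh l m' = ∑ x ∈ box l, (m - m').compl₁₂ (shL x) (shL x) := by
    refine LinearMap.ext fun a => LinearMap.ext fun b => ?_
    simp only [LinearMap.sub_apply, La.hh_apply, La.enB_apply, add_sub_add_right_eq_sub,
      LinearMap.sum_apply, LinearMap.compl₁₂_apply, Li.shL_apply, sum_sub_distrib]
  rw [← cx_sub, e, cx_sum]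
  refine (norm_sum_le_of_le _ fun x hx => cx_cb hk (A := sh x a) (B := sh x b)
    (cv_sh (R := 3 * l) (cv_of_sm ha) hx (by omega))
    (cv_sh (R := 3 * l) (cv_of_sm hb) hx (by omega))).trans_eq ?_
  rw [sum_const, nsmul_eq_mul, card_boxR]
  ring

theorem en_sub (l : ℕ) (m m' : BF) (T T' : Fld → ℂ) (W U : Cf) : en l m T W U - en l m' T' W U =
    ∑ x ∈ box l, (cx (m - m') (Bx x U) (Bx x U) + (T (Bx x U) - T' (Bx x U))) := by
  rw [en, en, add_sub_add_right_eq_sub, ← sum_sub_distrib]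
  exact sum_congr rfl fun x _ => by rw [cx_sub]; ring

variable (y : Hy l r c τ m s P) (hB : ∀ e, ‖B e‖ ≤ δ)
include y hB

theorem en_lip (hm : Rng (3 * r) (3 * r) m) (hT : Tc (3 * r) ρ C T) (C0 : 0 ≤ C) (δ0 : 0 < δ)
    (h3 : P ^ 3 * δ ≤ 1) (hρ : 8 * (P ^ 3 * δ) ≤ ρ)
    (hU : ∀ e, ‖a e‖ ≤ P * δ ∧ ‖U e - 1 - io (a e)‖ ≤ P * δ ^ 2 / 2) (hV : ∀ e, ‖U' e - U e‖ ≤ u)
    (u0 : 0 < u) (u1 : u ≤ δ ^ 2) :
    ‖en l m T (exF B) U' - en l m T (exF B) U‖ ≤ 4 * P ^ 11 * (1 + C) * δ * u := by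
  have P0 := y.p0
  have P1 := y.one
  have p : 0 < P * δ ^ 2 / 2 := by positivity
  have k : ∀ X ∈ (dS Lk Hc _ p).D 1, ∀ e, ‖a e‖ ≤ P * δ ∧ ‖(U + X) e - 1 - io (a e)‖ ≤ P * δ ^ 2 :=
    fun X hX e => ⟨(hU e).1, le_of_eq_of_le (congrArg _ (by rw [Pi.add_apply]; abel))
      ((norm_add_le_of_le (hU e).2 (hX e)).trans_eq (by ring))⟩
  have h : (dS Lk Hc _ p).LH fun X => en l m T (exF B) (U + X) := fun X D S hS hD => by
    obtain ⟨d1, d2⟩ := y.en_diff hm h3 (disc_const B) (U := fun t => U + (X + t • D))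
      (fun e => by simp only [Pi.add_apply, Pi.smul_apply]; fun_prop) (fun _ _ => hB)
      fun t ht => k _ (hD t ht)
    refine (d2.add (DifferentiableOn.fun_sum (u := box l) fun x _ => hT.hol S _ hS (d1 x)
      fun t ht z hz μ ν => ?_)).congr fun t _ => ?_
    · rw [Bg.dd_agr (agr_cut _ _) hz]
      exact ((y.cv_crude h3 (k _ (hD t ht)) x).1 z hz μ ν).trans hρ
    · beta_reduce
      rw [en_split]
      exact congrArg _ (sum_congr rfl fun x _ => hT.loc _ _ fun z hz μ ν =>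
        (Bg.dd_agr (agr_cut _ _) hz μ ν).symm)
  have := h.lip' le_rfl (M := P ^ 12 * (1 + C) * δ ^ 3) (c := ∑ x ∈ box l, cx m (sh x a) (sh x a) +
    (LL l : ℂ) ^ 2 * ∑ μ, dot (rs l a B μ) (rs l a B μ)) (fun X hX => ?_) (B := 0) (δ := U' - U)
    (lam := 0) (fun e => by simp) (fun e => (hV e).trans (div_mul_cancel₀ _ p.ne').ge)
    (by positivity) (by rw [zero_add, div_lt_one p]; nlinarith [pow_pos δ0 2])
  · rw [zero_add, add_zero, add_sub_cancel] at this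
    exact this.trans_eq (by field_simp; ring)
  · rw [en_split, add_sub_right_comm]
    refine (norm_add_le_of_le (y.en_ap hm h3 hB (k X hX)) (norm_sum_le_of_le _ fun x _ =>
      hT.bd _ _ (y.cv_crude h3 (k X hX) x).1 hρ)).trans ?_
    rw [sum_const, nsmul_eq_mul, card_boxR]
    have : (LL l : ℝ) ^ 4 * (C * (8 * (P ^ 3 * δ)) ^ 3) ≤ P ^ 12 * C * δ ^ 3 := by
      calc _ = 512 * (LL l : ℝ) ^ 4 * (P ^ 9 * C * δ ^ 3) := by ring
        _ ≤ P ^ 3 * (P ^ 9 * C * δ ^ 3) := by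
          gcongr
          nlinarith [y.pL, pow_le_pow_right₀ P1 (show 2 ≤ 3 by norm_num)]
        _ = _ := by ring
    linarith

theorem Uz_cl (y' : Hy l r c τ m' s' P) (h9 : P ^ 9 * δ ≤ 1) (δ0 : 0 < δ) (κ0 : 0 < κ) (κ1 : κ ≤ 1)
    (hs : ∀ B δ, Cv r δ B → ∀ f ∈ lbox l, |s B f - s' B f| ≤ κ * δ) (hA : ∀ e, ‖A e‖ ≤ δ) (f : Lk) :
    ‖Uz l s (exF B) A f - Uz l s' (exF B) A f‖ ≤ P ^ 4 * κ * δ := by
  have P0 := y.p0
  have P1 := y.one
  have h3 : P ^ 3 * δ ≤ 1 := le_trans (by gcongr; norm_num) h9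
  have q1 : 10 ^ 6 * (P ^ 4 * δ) ≤ 1 := by
    calc _ ≤ P ^ 5 * (P ^ 4 * δ) := by gcongr; linarith [le_self_pow₀ P1 (show 5 ≠ 0 by norm_num)]
      _ = P ^ 9 * δ := by ring
      _ ≤ 1 := h9
  have q2 : δ ≤ P ^ 3 * δ := le_mul_of_one_le_left δ0.le (one_le_pow₀ P1)
  have q3 : P ^ 3 * δ ≤ P ^ 4 * δ := by gcongr; norm_num
  have hU := fun e => (exF_ap P0 h3 hB e).2
  have cz := Bx_cz P0 h3 hU (n := r) (by linarith [y.rr, r.cast_nonneg (α := ℝ)]) (yo l f.1)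
  have s1 := (y'.cxs_bd cz.2.1 (f.1 - up l (yo l f.1), f.2)).trans_eq
    (by ring : _ = 2 * (P ^ 4 * δ))
  have c1 := (y.cv_crude h3 hU (yo l f.1)).1.mono (by omega : r ≤ 3 * r) le_rfl
  have hf : (f.1 - up l (yo l f.1), f.2) ∈ lbox l := mem_lbox.2 (sub_up_yo_mem _ _)
  have s2 := cxL_bd (T := s - s') (fun k => hs _ _ (c1.reF k) _ hf) fun k => hs _ _ (c1.imF k) _ hf
  have s3 := ex_lip (s1.trans (by linarith)) s2 (by positivity) (by nlinarith)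
  rw [← Pi.add_apply, ← cxL_add', add_sub_cancel] at s3
  have n1 : ∀ {b : C3}, ‖b‖ ≤ δ → ‖ex b‖ ≤ 2 := fun hb => by
    have := norm_add_le_of_le (near_one ⟨hb, ex_near hb (by linarith)⟩) (norm_one (α := Hc)).le
    rw [sub_add_cancel] at this
    nlinarith
  have n2 : ‖if yo l (f.1 + un f.2) = yo l f.1 then 1 else exF B (yo l f.1, f.2)‖ ≤ 2 := by
    split_ifs
    exacts [norm_one.trans_le one_le_two, n1 (hB _)]
  rw [Uz, Uz, Us, Us, ← mul_sub, ← sub_mul]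
  refine (norm_mul_le_of_le (n1 (hA f)) (norm_mul_le_of_le s3 n2)).trans ?_
  calc _ = 704 * (P ^ 3 * κ * δ) := by ring
    _ ≤ P * (P ^ 3 * κ * δ) := by gcongr; linarith
    _ = _ := by ring

omit y hB

theorem tc_zero (R : ℕ) (ρ : ℝ) : Tc R ρ 0 0 :=
  ⟨fun _ _ _ => rfl, fun _ _ _ _ _ => differentiableOn_const _, fun _ _ _ _ => by simp,
    fun _ _ => rfl, measurable_const⟩

/-- comparison of the energies -/
theorem gc_cl (c : ℕ) : ∃ K : ℕ, ∀ (l r : ℕ) (τ ρ ρ1 δ C η κ : ℝ) (m m' : BF) (s s' : V →ₗ[ℝ] V)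
    (T T' : Fld → ℂ), Lin l r c τ m s → Lin l r c τ m' s' → Rng (3 * r) (3 * r) m →
    Rng (3 * r) (3 * r) m' → 1000 ≤ r → r ^ 11 ≤ l → 0 < δ → (LL l : ℝ) ^ K * δ ≤ ρ → ρ ≤ 1 →
    δ ≤ (r : ℝ) ^ 10 * ρ1 → 0 < κ → (LL l : ℝ) ^ K * κ ≤ δ → 0 < η → 0 ≤ C →
    Tc (3 * r) ρ C T' → Tc (3 * r) ρ1 η (fun B => T B - T' B) → Cb (3 * r) κ (m - m') →
    (∀ B δ, Cv r δ B → ∀ f ∈ lbox l, |s B f - s' B f| ≤ κ * δ) → ∀ B, (∀ e, ‖B e‖ ≤ δ) →
      (∀ A, Sm (3 * l + 1) (δ / LL l) A → ‖Gc l m s T (exF B) A - Gc l m' s' T' (exF B) A‖ ≤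
        (LL l : ℝ) ^ K * (η * δ + (1 + C) * κ) * δ ^ 2) ∧
      ∀ d, Cv r d B → ‖Gc l m s T (exF B) 0 - Gc l m' s' T' (exF B) 0‖ ≤
        η * (10 ^ 7 / (r : ℝ) ^ 3 * d ^ 3 + (LL l : ℝ) ^ K * δ ^ 4) +
          (LL l : ℝ) ^ K * ((1 + C) * κ) * δ ^ 2 := by
  obtain ⟨K, hK⟩ := ge_main c
  refine ⟨K + (9 * c + 46) * 16, fun l r τ ρ ρ1 δ C η κ m m' s s' T T' h h' hm hm' h1 h11 δ0 h3 ρ2 h4
    κ0 h5 η0 C0 hT hD hk hs B hB => ?_⟩
  have h2 : 3 * r ≤ l := le_trans (by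
    calc 3 * r ≤ r * r ^ 1 := by nlinarith
      _ ≤ r * r ^ 10 := by gcongr <;> omega
      _ = r ^ 11 := by ring) h11
  have L1 := one_le_LL l
  have y := hy_pow h h1 h2 le_rfl
  have y' := hy_pow h' h1 h2 le_rfl
  have z := hy_pow h h1 h2 (n := 9 * c + 46) (by omega)
  have z' := hy_pow h' h1 h2 (n := 9 * c + 46) (by omega)
  have L2 : (2 : ℝ) ≤ LL l := by exact_mod_cast (by unfold LL; omega : 2 ≤ LL l)
  have e1 : 2 * ((LL l : ℝ) ^ (c + 5)) ^ 9 ≤ (LL l : ℝ) ^ (9 * c + 46) := by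
    calc _ ≤ LL l * ((LL l : ℝ) ^ (c + 5)) ^ 9 := by gcongr
      _ = _ := by ring
  rw [pow_add, pow_mul] at h3 h5 ⊢
  have K1 : (1 : ℝ) ≤ LL l ^ K := one_le_pow₀ L1
  have g := fun C T hT hC => (hK l r τ ρ1 δ m s h hm h1 h11 (le_trans (by
    gcongr; exact le_mul_of_one_le_right (by positivity) (one_le_pow₀ z.one)) (h3.trans ρ2)) h4).2
      C T hT hC
  generalize (LL l : ℝ) ^ K = E at *
  generalize (LL l : ℝ) ^ (c + 5) = P at *
  generalize (LL l : ℝ) ^ (9 * c + 46) = Q at *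
  have P1 := y.one
  have Q1 := z.one
  have Q0 := z.p0
  have pw : ∀ k ≤ 15, 10 ^ 6 * Q ^ k ≤ E * Q ^ 16 := fun k hk => by
    calc _ ≤ Q * Q ^ 15 := by gcongr
      _ = 1 * Q ^ 16 := by ring
      _ ≤ _ := by gcongr
  have p9 : 1 ≤ P ^ 9 := one_le_pow₀ P1
  have q1 := mul_le_mul_of_nonneg_right (pw 1 (by norm_num)) δ0.le
  have q3 := mul_le_mul_of_nonneg_right (pw 3 (by norm_num)) δ0.le
  have q4 := mul_le_mul_of_nonneg_right (pw 1 (by norm_num)) κ0.le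
  have q5 : 0 ≤ Q ^ 3 * δ := by positivity
  have a1 : P ^ 9 * δ ≤ 1 := by nlinarith
  have a3 : Q ^ 3 * δ ≤ 1 := by linarith
  have p4 : P ^ 4 ≤ Q := by linarith [pow_le_pow_right₀ P1 (show 4 ≤ 9 by norm_num)]
  have a4 : P ^ 4 * κ ≤ δ := by nlinarith
  have δ1 : δ ≤ 1 := by nlinarith
  -- the dependence on the quadratic form and on the linear minimiser
  have k1 : ∀ A : Fld, (∀ e, ‖A e‖ ≤ δ) → ‖Gc l m s T' (exF B) A - Gc l m' s' T' (exF B) A‖ ≤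
      E * Q ^ 16 / 2 * ((1 + C) * κ) * δ ^ 2 := fun A hA => by
    have u : ∀ {m s}, Hy l r c τ m s P → ∀ e, ‖(A + cxL (mu l s) B) e‖ ≤ Q * δ ∧
        ‖Uz l s (exF B) A e - 1 - io ((A + cxL (mu l s) B) e)‖ ≤ Q * δ ^ 2 / 2 := fun y e =>
      ⟨(y.Uz_ap a1 hB hA e).2.1.trans (by nlinarith), (y.Uz_ap a1 hB hA e).2.2.trans (by
        nlinarith [sq_nonneg δ])⟩
    have b1 := en_lip z' hB hm' hT C0 δ0 a3 (by linarith) (u y')
      (Uz_cl y hB y' a1 δ0 κ0 (by nlinarith [one_le_pow₀ (n := 4) P1]) hs hA) (by positivity)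
      (by rw [sq]; gcongr)
    have c1 := fun x => (z.cv_crude a3 (fun e => ⟨(u y e).1, (u y e).2.trans
      (half_le_self (by positivity))⟩) x).1
    have b3 := norm_add_le_of_le (norm_sum_le_of_le (box l) fun x _ => cx_cb hk (c1 x) (c1 x)) b1
    have e := en_sub l m m' T' T' (exF B) (Uz l s (exF B) A)
    simp only [sub_self, add_zero] at e
    rw [← e, sub_add_sub_cancel, sum_const, nsmul_eq_mul, card_boxR] at b3
    refine b3.trans ?_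
    have x0 : 0 ≤ κ * δ ^ 2 := by positivity
    have x1 : κ * δ ^ 2 ≤ (1 + C) * κ * δ ^ 2 := by nlinarith
    calc _ = 768 * LL l ^ 4 * Q ^ 6 * (κ * δ ^ 2) + 4 * Q ^ 11 * P ^ 4 * ((1 + C) * κ * δ ^ 2) := by
          ring
      _ ≤ 3 * Q * Q ^ 6 * ((1 + C) * κ * δ ^ 2) + 4 * Q ^ 11 * Q * ((1 + C) * κ * δ ^ 2) := by
          gcongr ?_ * _ * ?_ + _ * ?_ * _
          linarith [z.pL, pow_nonneg (zero_le_one.trans L1) 4]
      _ = (3 * Q ^ 7 + 4 * Q ^ 12) * ((1 + C) * κ * δ ^ 2) := by ring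
      _ ≤ E * Q ^ 16 / 2 * ((1 + C) * κ * δ ^ 2) := by
          gcongr
          linarith [pw 7 (by norm_num), pw 12 (by norm_num), pow_nonneg (zero_le_one.trans Q1) 7,
            pow_nonneg (zero_le_one.trans Q1) 12]
      _ = _ := by ring
  -- the dependence on the cubic term
  have k2 : ∀ (x : ℝ) (A : Fld), Gc l m s (fun B => x * (T B - T' B)) (exF B) A -
      Gc l m s 0 (exF B) A = x * (Gc l m s T (exF B) A - Gc l m s T' (exF B) A) := fun x A => by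
    simp only [Gc, en_sub, Pi.zero_apply, sub_zero, mul_sum, cx]
    simp
  have g0 := g 0 0 (tc_zero _ _) le_rfl
  have k3 : ∀ {x M : ℝ} {a : ℂ}, 0 < x → ‖((x⁻¹ : ℝ) : ℂ) * a‖ ≤ M → ‖a‖ ≤ x * M := fun hx ha => by
    rwa [norm_mul, Complex.norm_real, Real.norm_of_nonneg (inv_pos.2 hx).le,
      inv_mul_le_iff₀ hx] at ha
  have x0 : 0 ≤ E * Q ^ 16 * ((1 + C) * κ) * δ ^ 2 := by positivity
  have x2 : 3 * E ≤ E * Q ^ 16 := by
    nlinarith [le_self_pow₀ Q1 (show 16 ≠ 0 by norm_num)]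
  refine ⟨fun A hA => ?_, fun d hd => ?_⟩
  · have g1 := (g _ _ (hD.smul η⁻¹) (by positivity)).1
    have b1 := norm_sub_le_of_le (g1.exp B A δ le_rfl hB hA) (g0.1.exp B A δ le_rfl hB hA)
    rw [sub_sub_sub_cancel_right, k2, abs_of_pos (inv_pos.2 η0), inv_mul_cancel₀ η0.ne'] at b1
    have b2 := k1 _ fun e => (cut_le hA e).trans (div_le_self δ0.le L1)
    rw [← Gc_agr h (by omega) hm hT.loc (fun _ _ => rfl) (agr_cut (3 * l + 1) A).symm,
      ← Gc_agr h' (by omega) hm' hT.loc (fun _ _ => rfl) (agr_cut (3 * l + 1) A).symm] at b2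
    have b3 := norm_add_le_of_le (k3 η0 b1) b2
    rw [sub_add_sub_cancel] at b3
    nlinarith [mul_le_mul_of_nonneg_right x2 (show 0 ≤ η * δ ^ 3 by positivity)]
  · have p : 0 < η * δ := by positivity
    have e2 : |(η * δ)⁻¹| * η = δ⁻¹ := by rw [abs_of_pos (inv_pos.2 p)]; field_simp
    have g1 := (g _ _ (hD.smul (η * δ)⁻¹) (by positivity)).2 (by rw [e2, inv_mul_cancel₀ δ0.ne'])
    have b1 := norm_sub_le_of_le (g1 B d δ le_rfl hB hd)
      (g0.2 (by simp) B d δ le_rfl hB hd)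
    rw [sub_sub_sub_cancel_right, k2, e2] at b1
    have b3 := norm_add_le_of_le (k3 p b1) (k1 0 fun _ => norm_zero.trans_le δ0.le)
    rw [sub_add_sub_cancel] at b3
    refine b3.trans ?_
    have e3 : η * δ * (10 ^ 7 * δ⁻¹ / (r : ℝ) ^ 3 * d ^ 3) = η * (10 ^ 7 / (r : ℝ) ^ 3 * d ^ 3) := by
      field_simp
    rw [mul_zero, zero_div, zero_mul, zero_add, mul_add, mul_add, e3]
    nlinarith [mul_le_mul_of_nonneg_right x2 (show 0 ≤ η * δ ^ 4 by positivity),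
      show 0 ≤ E * (η * δ ^ 4) by positivity]

end Pool.Agent.Lib.MP_7f377f_mp.RG.Q4.Af
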