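import Pool.Agent.Lib.MP_7f377f_mp.Q4AfL3
import Pool.Agent.Lib.MP_7f377f_mp.Q4AfA
import Pool.Agent.Lib.MP_7f377f_mp.Q4AfCh
import Pool.Agent.Lib.MP_7f377f_mp.Q4EDf

/-! Chains of tree steps forget their origin. -/

noncomputable section

namespace Pool.Agent.Lib.MP_7f377f_mp.RG.Q4.Af

open Filter Sd La La.Q

attribute [local irreducible] box lbox

/-- distance of two cubic terms -/
def Tdf (R : ℕ) (ρ η : ℝ) (T T' : Fld → ℂ) : Prop :=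
  ∀ B d, Cv R d B → d ≤ ρ → ‖T B - T' B‖ ≤ η * d ^ 3

theorem cb_df {R : ℕ} {σ κ : ℝ} {m m' : BF} (hs : ∀ a b, m a b = m b a)
    (hs' : ∀ a b, m' a b = m' b a) (h : Df R σ m m') {R' : ℕ} (hR : R ≤ R') (hκ : 2 * σ ≤ κ) :
    Cb R' κ (m - m') := fun a b δ δ' ha hb =>
  (bil (k := m - m') (fun a b => by simp only [LinearMap.sub_apply, hs a, hs' a])
    (fun a δ ha => h a δ ha) a b δ δ' (ha.mono hR le_rfl) (hb.mono hR le_rfl)).trans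
      (mul_le_mul_of_nonneg_right (mul_le_mul_of_nonneg_right hκ ha.nonneg) hb.nonneg)

theorem m1_symm {t : Td} {r c : ℕ} {τ : ℝ} (h : Lin t.l r c τ t.m t.s) (a b : V) :
    t.m1 a b = t.m1 b a := by
  simp only [Td.m1, mb_apply, avB_apply, mn_symm h a, mn_symm h (sh _ a)]

theorem tc_sub {R : ℕ} {ρ ρ1 ρ2 C1 C2 η : ℝ} {T T' : Fld → ℂ} (h : Tc R ρ1 C1 T)
    (h' : Tc R ρ2 C2 T') (h1 : ρ ≤ ρ1) (h2 : ρ ≤ ρ2) (hb : Tdf R ρ η T T') :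
    Tc R ρ η fun B => T B - T' B :=
  ⟨fun A B e => by rw [h.loc A B e, h'.loc A B e], fun Ω γ a b c =>
    (h.hol Ω γ a b fun t ht => (c t ht).mono le_rfl h1).sub
      (h'.hol Ω γ a b fun t ht => (c t ht).mono le_rfl h2), hb,
    fun g B => by rw [h.ad, h'.ad], h.meas.sub h'.meas⟩

theorem rho_le {S : Sd} (h : S.Nu 0) : ((S.D0 : ℝ) ^ 2)⁻¹ ≤ ((S.M : ℝ) ^ S.K0)⁻¹ :=
  inv_anti₀ ((pow_pos (L0 _) _).trans_le (h.ok.LM_pow _)) (h.MD_le'.trans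
    ((mul_le_mul_of_nonneg_right h.L_le_D (D0' _).le).trans_eq (sq _).symm))

/-- what one step does to the differences -/
def StT (r : ℕ) (L D κ : ℝ) (t t' : Td) : Prop := ∀ y, κ ≤ y → Cd (9 * L * κ) t.m t'.m →
  Df (3 * r) (4 * D * y) t.m t'.m → Df (3 * r) (D * y / 2 + D * κ) t.m1 t'.m1 ∧
    (D ^ 5 * y ≤ 1 → Tdf (3 * r) (D ^ 2)⁻¹ (D ^ 6 * y) t.T t'.T →
      Tdf (3 * r) (D ^ 2)⁻¹ (D ^ 6 * y / 8 + D ^ 5 * y) t.T1 t'.T1 ∧
      ∀ a, Cv 0 1 a → ‖qc t.ol a a - qc t'.ol a a‖ ≤ D ^ 16 * y)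

/-- a priori bounds -/
def StO (r : ℕ) (L D κ : ℝ) (t : Td) : Prop := Cd κ t.m1 t.m ∧
  (∀ a, Cst a → |t.m a a| ≤ 2 * nd a 0) ∧ Cb (3 * r) L t.m ∧
    ∀ B d, Cv (3 * r) d B → d ≤ (D ^ 2)⁻¹ → ‖t.T B‖ ≤ D / 4 * d ^ 3

theorem ev_one (c : ℕ) : ∀ᶠ S in ev0 c, ∀ j v e κ, 2⁻¹ ≤ v → v ≤ 2 → 0 ≤ e → e ≤ 1000⁻¹ →
    S.Tr S.M j v e → S.Ln j v e → S.Q * S.τ ≤ κ → StO S.r S.L S.D0 κ S.toTd := by
  filter_upwards [ev_nu c 0, cd_next c, En.ev_bd c] with S h h1 h2 j v e κ v1 v2 e0 e1 t l hκ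
  obtain ⟨ρ, -, -, hm⟩ := t.ch
  have ex := h.exps
  refine ⟨fun a ha => (h1 l.lin a ha).trans (mul_le_mul_of_nonneg_right hκ (Li.nd_nonneg _ _)),
    fun a ha => ?_, (h2 _ _ _ _ _ rfl v2 (by linarith) (by linarith) t).2, fun B d hB hd =>
      (t.tc.bd B d hB (hd.trans (rho_le h))).trans
        (mul_le_mul_of_nonneg_right ?_ (pow_nonneg hB.nonneg 3))⟩
  · have k1 := abs_le.1 (hm.cc a ha)
    have n0 := Li.nd_nonneg a 0
    have k3 : m0 a a = 2⁻¹ * nd a 0 := by simpa [Li.sh_zero] using Li.m0_sh a 0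
    simp only [LinearMap.smul_apply, smul_eq_mul, k3] at k1
    have k4 : v * e ≤ 1 := by nlinarith
    have k5 := mul_le_mul_of_nonneg_right k4 n0
    have k6 := mul_le_mul_of_nonneg_right v2 n0
    have k7 := mul_le_mul_of_nonneg_right v1 n0
    rw [abs_le]
    constructor <;> linarith
  · have := up_D h (C := 4) (i := S.Kt + 1) (by norm_num) (by omega)
    have := h.MT_le
    rw [pow_succ'] at *
    linarith

theorem ev_two (c : ℕ) : ∀ᶠ S in ev0 c, ∀ (S' : Sd) j j' (v v' e e' κ : ℝ), S'.c = S.c →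
    S'.Kt = S.Kt → S'.K0 = S.K0 → S'.l = S.l → S'.Nu 0 → (S'.TOk → S'.TK) → 2⁻¹ ≤ v → v ≤ 2 → 0 ≤ e →
    e ≤ 1000⁻¹ → 2⁻¹ ≤ v' → v' ≤ 2 → 0 ≤ e' → e' ≤ 1000⁻¹ → S.Tr S.M j v e → S.Ln j v e →
    S'.Tr S'.M j' v' e' → S'.Ln j' v' e' → S.Q * S.τ ≤ κ → S.D0 * κ ≤ 1 →
      StT S.r S.L S.D0 κ S.toTd S'.toTd := by
  obtain ⟨C, H⟩ := df_next c
  obtain ⟨K, HK⟩ := t_step c
  filter_upwards [ev_nu c 0, ev_c, tk0 c, ev_Kt (C + K), H] with S h hc k hk H S' j j' v v' e e' κ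
    e1 e2 e3 e4 h' k' v1 v2 a1 a2 v3 v4 a3 a4 t l t' l' hκ κ1 y hy hd hf
  have o : S.TOk := ⟨j, v, e, v1, v2, a1, a2, t, l⟩
  have o' : S'.TOk := ⟨j', v', e', v3, v4, a3, a4, t', l'⟩
  obtain ⟨ρ, -, r1, m1⟩ := t.ch
  obtain ⟨ρ', -, r2, m2⟩ := t'.ch
  have er : S'.r = S.r := by unfold Td.r; rw [e4]
  have eD : S'.D0 = S.D0 := by unfold Td.D0; rw [e4, e3]
  rw [er] at m2
  have ex := h.exps
  have L1 := Sd.L1 S.toTd
  have τ0 := Nu.τ0 (S := S)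
  have t1 : S.τ ≤ S.Q * S.τ := le_mul_of_one_le_left τ0.le S.Q1
  have κ0 : 0 < κ := by linarith
  have p1 := En.r_pow h (k := C) (R := S.r) (by omega) (by omega)
  have p2 := up_D h (C := 2) (i := 2) (by norm_num) (by omega)
  have p3 := up_D h (C := 14) (i := C) (by norm_num) (by omega)
  have p4 := up_D h (C := 14) (i := 1) (by norm_num) (by omega)
  have p5 : S.cs ^ 10 ≤ 1 / 8 := by
    have c0 := Nu.cs0 (S := S)
    have c4 := h.cs_le (k := 1) (by omega)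
    have c5 := mul_le_mul_of_nonneg_right (h.cr' (C := 8) (by norm_num)) c0.le
    rw [pow_one] at c4
    exact (pow_le_of_le_one c0.le (by linarith) (by norm_num)).trans (by linarith)
  have r3 := h.r_3.1
  have q0 := rho_le h
  have q1 := eD ▸ rho_le h'
  generalize hD : (S.D0 : ℝ) = D at *
  rw [pow_one] at p4
  have D1 : 14 ≤ D := by linarith
  have y0 : 0 < y := by linarith
  have p6 : (S.r : ℝ) ^ C * (9 * S.L * κ) ≤ D / 2 * κ := by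
    have : 0 ≤ S.L * κ := by positivity
    nlinarith [mul_le_mul_of_nonneg_right p1 this]
  obtain ⟨k1, k2⟩ := H S'.toTd j j' ρ ρ' v v' e e' _ _ e4 e1 v1 v2 v3 v4 a1 (by linarith) a3
    (by linarith) r1 r2 m1 m2 l l' (by positivity) (by linarith) hd hf
  have Dy : 0 < D * y := by positivity
  have Dκ := mul_le_mul_of_nonneg_left hy (show 0 ≤ D by linarith)
  have k3 : Df (S.r + 3) (D * y / 2 + D * κ) S.m1 S'.m1 := fun a δ ha => (k1 a δ ha).trans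
    (mul_le_mul_of_nonneg_right (by nlinarith) (sq_nonneg δ))
  refine ⟨fun a δ ha => k3 a δ (ha.mono (by omega) le_rfl), fun y1 hT => ?_⟩
  have p7 := mul_le_mul_of_nonneg_right D1 Dy.le
  replace HK := HK S S' (D ^ 6 * y) (D ^ 2 * y) hc (by omega) e1 e2 e3 e4 h h' (k o) (k' o') o o'
  rw [hD] at HK
  obtain ⟨k4, k5⟩ := HK (by positivity) (by positivity) (by linarith)
    (tc_sub t.tc (er ▸ t'.tc) q0 q1 hT)
    (cb_df l.lin.symm l'.lin.symm hf le_rfl (by linarith))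
    (fun B δ hB f hf => (k2 B δ hB f hf).trans (mul_le_mul_of_nonneg_right (by
      calc _ ≤ S.L ^ C * (14 * (D * y) / 2) := by gcongr; nlinarith
        _ ≤ _ := by nlinarith) hB.nonneg))
    (cb_df (m1_symm l.lin) (m1_symm l'.lin) k3 (by omega) (by linarith))
  refine ⟨fun B d hB hd => (k4 B d (hB.mono (by omega) le_rfl) hd).trans_eq (by ring),
    fun a ha => (k5 a a 1 1 ha ha one_pos one_pos).trans ?_⟩
  have p8 : D ^ 2 ≤ D ^ 6 := pow_le_pow_right₀ (by linarith) (by norm_num)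
  calc _ ≤ D ^ 9 * (D ^ 6 * y + D ^ 6 * y) * 1 * 1 := by gcongr
    _ = 2 * (D ^ 15 * y) := by ring
    _ ≤ D * (D ^ 15 * y) := by gcongr; linarith
    _ = _ := by ring

theorem ren_cl {E : Type} [NormedField E] {lam lam' x x' : E} {κ a b : ℝ} (h : ‖lam - 1‖ ≤ κ)
    (h' : ‖lam' - 1‖ ≤ κ) (κ1 : κ ≤ 2⁻¹) (h1 : ‖x - x'‖ ≤ a) (h2 : ‖lam' * x'‖ ≤ b) :
    ‖lam * x - lam' * x'‖ ≤ 2 * a + 4 * κ * b := by
  have k0 := (norm_nonneg _).trans h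
  have k1 : ‖lam‖ ≤ 2 := by have := norm_sub_norm_le lam 1; rw [norm_one] at this; linarith
  have k2 : 2⁻¹ ≤ ‖lam'‖ := by
    have := norm_sub_norm_le 1 lam'; rw [norm_one, norm_sub_rev] at this; linarith
  have k3 : ‖lam - lam'‖ ≤ 2 * κ := by
    have := norm_sub_le_norm_sub_add_norm_sub lam 1 lam'; rw [norm_sub_rev 1] at this; linarith
  rw [norm_mul] at h2
  have k4 : ‖x'‖ ≤ 2 * b := by nlinarith [norm_nonneg x']
  calc _ = ‖lam * (x - x') + (lam - lam') * x'‖ := by ring_nf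
    _ ≤ 2 * a + 2 * κ * (2 * b) := by
      refine (norm_add_le _ _).trans ?_
      rw [norm_mul, norm_mul]
      gcongr
    _ = _ := by ring

section chain

variable {c Kt K0 l n r : ℕ} {L D κ : ℝ} {d d' : ℕ → Td}

theorem drift_m (h : Q4.Chn c Kt K0 l n κ d) (h1 : ∀ i ≤ n, StO r L D κ (d i)) (κ0 : 0 ≤ κ)
    (κ1 : κ ≤ 1) {a : V} (ha : Cst a) :
    ∀ i ≤ n, |(d i).m a a - (d 0).m a a| ≤ 4 * i * (κ * nd a 0) := by
  intro i hi
  induction i with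
  | zero => simp
  | succ i ih =>
    obtain ⟨lam, l1, l2, -⟩ := h.nx i hi
    obtain ⟨k1, k2, -⟩ := h1 i (by omega)
    have k3 := k1 a ha
    have k4 := k2 a ha
    have n0 := Li.nd_nonneg a 0
    have k5 := abs_le.1 (ih (by omega))
    have k6 : |(d i).m1 a a| ≤ 3 * nd a 0 := by
      have := abs_sub_abs_le_abs_sub ((d i).m1 a a) ((d i).m a a)
      nlinarith
    have k7 : |(lam - 1) * (d i).m1 a a| ≤ κ * (3 * nd a 0) := by rw [abs_mul]; gcongr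
    rw [l2, LinearMap.smul_apply, LinearMap.smul_apply, smul_eq_mul]
    push_cast
    rw [abs_le] at *
    constructor <;> linarith [k3.1, k3.2, k7.1, k7.2]

theorem chain_abs (h : Q4.Chn c Kt K0 l n κ d) (h' : Q4.Chn c Kt K0 l n κ d')
    (h1 : ∀ i ≤ n, StO r L D κ (d i)) (h1' : ∀ i ≤ n, StO r L D κ (d' i))
    (h2 : ∀ i ≤ n, StT r L D κ (d i) (d' i)) (κ0 : 0 < κ) (L1 : 1 ≤ L) (hn : n ≤ L)
    (LD : 24 * L ≤ D) (κ1 : D * κ ≤ 1) (h0 : Cd κ (d 0).m (d' 0).m) : ∀ i ≤ n,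
      Cd (9 * L * κ) (d i).m (d' i).m ∧ Df (3 * r) (4 * D * (κ + 2⁻¹ ^ i)) (d i).m (d' i).m ∧
        Tdf (3 * r) (D ^ 2)⁻¹ (D ^ 6 * (κ + 2⁻¹ ^ i)) (d i).T (d' i).T := by
  have κ2 : κ ≤ 2⁻¹ := by nlinarith
  have cd : ∀ i ≤ n, Cd (9 * L * κ) (d i).m (d' i).m := fun i hi a ha => by
    have k1 := abs_le.1 (drift_m h h1 κ0.le (by linarith) ha i hi)
    have k2 := abs_le.1 (drift_m h' h1' κ0.le (by linarith) ha i hi)
    have k3 := abs_le.1 (h0 a ha)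
    have n0 := mul_nonneg κ0.le (Li.nd_nonneg a 0)
    have k4 := mul_le_mul_of_nonneg_right ((Nat.cast_le.2 hi).trans hn) n0
    have k5 := mul_le_mul_of_nonneg_right L1 n0
    rw [abs_le]
    constructor <;> linarith
  have D1 : 24 ≤ D := by linarith
  have p1 : D ≤ D ^ 5 := le_self_pow₀ (by linarith) (by norm_num)
  have ap : ∀ i ≤ n, ∀ η, D / 2 ≤ η → Tdf (3 * r) (D ^ 2)⁻¹ η (d i).T (d' i).T :=
    fun i hi η hη B δ hB hδ => (norm_sub_le_of_le ((h1 i hi).2.2.2 B δ hB hδ)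
      ((h1' i hi).2.2.2 B δ hB hδ)).trans (by nlinarith [pow_nonneg hB.nonneg 3])
  intro i hi
  refine ⟨cd i hi, ?_⟩
  induction i with
  | zero =>
    refine ⟨fun a δ ha => ((abs_sub _ _).trans (add_le_add ((h1 0 hi).2.2.1 a a δ δ ha ha)
      ((h1' 0 hi).2.2.1 a a δ δ ha ha))).trans ?_, ap 0 hi _ ?_⟩
    · nlinarith [mul_le_mul_of_nonneg_right (show 2 * L ≤ 4 * D * (κ + 2⁻¹ ^ 0) by nlinarith)
        (sq_nonneg δ)]
    · have : D ≤ D ^ 6 := le_self_pow₀ (by linarith) (by norm_num)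
      nlinarith
  | succ i ih =>
    obtain ⟨lam, l1, l2, l3⟩ := h.nx i hi
    obtain ⟨lam', l4, l5, l6⟩ := h'.nx i hi
    obtain ⟨i1, i2⟩ := ih (by omega)
    have x0 : (0 : ℝ) < 2⁻¹ ^ i := by positivity
    obtain ⟨k1, k2⟩ := h2 i (by omega) _ (by linarith) (cd i (by omega)) i1
    rw [pow_succ (2⁻¹ : ℝ)]
    generalize (2⁻¹ : ℝ) ^ i = x at *
    refine ⟨fun a δ ha => ?_, ?_⟩
    · have k3 := (h1' _ hi).2.2.1 a a δ δ ha ha
      rw [l5] at k3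
      rw [l2, l5]
      refine (ren_cl (E := ℝ) l1 l4 κ2 (k1 a δ ha) k3).trans ?_
      nlinarith [mul_le_mul_of_nonneg_right (show 2 * (D * (κ + x) / 2 + D * κ) + 4 * κ * L ≤
        4 * D * (κ + x * 2⁻¹) by nlinarith) (sq_nonneg δ)]
    rcases le_total (D ^ 5 * (κ + x)) 1 with y1 | y1
    · intro B δ hB hδ
      have k3 := (h1' _ hi).2.2.2 B δ hB hδ
      rw [l6] at k3
      rw [l3, l6]
      refine (ren_cl (E := ℂ) (κ := κ) (by exact_mod_cast l1) (by exact_mod_cast l4) κ2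
        ((k2 y1 i2).1 B δ hB hδ) k3).trans ?_
      have p2 := mul_le_mul_of_nonneg_right D1 (show 0 ≤ D ^ 5 * (κ + x) by positivity)
      have p3 := mul_le_mul_of_nonneg_right p1 κ0.le
      have p4 : 0 ≤ D ^ 5 * x := by positivity
      have p5 : 0 ≤ D ^ 6 * κ := by positivity
      nlinarith [mul_le_mul_of_nonneg_right (show 2 * (D ^ 6 * (κ + x) / 8 + D ^ 5 * (κ + x)) +
        4 * κ * (D / 4) ≤ D ^ 6 * (κ + x * 2⁻¹) by nlinarith) (pow_nonneg hB.nonneg 3)]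
    · have p5 : 0 ≤ D ^ 6 * κ := by positivity
      exact ap _ hi _ (by nlinarith)

end chain

theorem half_S0 (k : ℕ) : ∀ᶠ l in atTop, (2⁻¹ : ℝ) ^ S0 l ≤ ((LL l : ℝ) ^ k)⁻¹ := by
  filter_upwards [log_top.eventually (eventually_ge_atTop (4 * k + 1))] with l h
  have h1 : LL l < 3 ^ (Nat.log 3 (LL l) + 1) := Nat.lt_pow_succ_log_self (by norm_num) _
  rw [inv_pow, S0]
  refine inv_anti₀ (pow_pos (by unfold LL; positivity) _) ?_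
  generalize Nat.log 3 (LL l) = j at *
  have h2 : LL l ^ k ≤ 2 ^ j ^ 2 :=
    calc _ ≤ ((2 ^ 2) ^ (j + 1)) ^ k := Nat.pow_le_pow_left (h1.le.trans
        (Nat.pow_le_pow_left (by norm_num) _)) _
      _ ≤ _ := by
        rw [← pow_mul, ← pow_mul]; exact Nat.pow_le_pow_right (by norm_num) (by nlinarith)
  exact_mod_cast h2

theorem chain_close (c : ℕ) (c1 : 1 ≤ c) : ∃ a0, ∀ Kt ≥ a0, ∃ a1, ∀ K0 ≥ a1, ∃ K1 : ℕ, ∀ Ka : ℕ,
    ∃ K' l0 : ℕ, ∀ l ≥ l0, ∀ d d', Q4.Chn c Kt K0 l (S0 l) ((LL l : ℝ) ^ K')⁻¹ d →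
      Q4.Chn c Kt K0 l (S0 l) ((LL l : ℝ) ^ K')⁻¹ d' → Cd ((LL l : ℝ) ^ K')⁻¹ (d 0).m (d' 0).m →
        Df (3 * (d 0).r) ((LL l : ℝ) ^ Ka)⁻¹ (d (S0 l)).m (d' (S0 l)).m ∧
        (∀ B δ, Cv (3 * (d 0).r) δ B → δ ≤ ((LL l : ℝ) ^ K1)⁻¹ →
          ‖(d (S0 l)).T B - (d' (S0 l)).T B‖ ≤ ((LL l : ℝ) ^ Ka)⁻¹ * δ ^ 3) ∧
        ∀ a : V, (∀ μ ν, dd a 0 μ ν = kF 1 μ ν) →
          ‖qc (d (S0 l)).ol a a - qc (d' (S0 l)).ol a a‖ ≤ ((LL l : ℝ) ^ Ka)⁻¹ := by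
  obtain ⟨a0, H⟩ := (ev_nu c 0).and ((tk0 c).and ((ev_one c).and (ev_two c)))
  refine ⟨a0, fun Kt h0 => (H Kt h0).imp fun a1 H K0 h1 => ⟨K0 * 2, fun Ka => ?_⟩⟩
  obtain ⟨K, H⟩ := H K0 h1
  obtain ⟨l1, H⟩ := H K le_rfl (K * 1000)
  obtain ⟨l2, H2⟩ := eventually_atTop.1 ((half_S0 (K0 * 17 + Ka)).and
    (pow_le_exp c (K0 * 17 + Ka + (K + c)) c1))
  refine ⟨K0 * 17 + Ka, max l1 l2, fun l hl d d' h h' h0 => ?_⟩
  obtain ⟨g1, g2⟩ := H2 l (le_of_max_le_right hl)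
  generalize hκ : ((LL l : ℝ) ^ (K0 * 17 + Ka))⁻¹ = κ at *
  let lv (t : Td) (M : ℕ) : Sd :=
    ⟨t, K, K * 1000, M, 2 * (500 * t.D0) + 1, t.L ^ (K * 1000), t.L ^ (K * 1000)⟩
  have hv := fun (t : Td) M (e : t.c = c ∧ t.Kt = Kt ∧ t.K0 = K0 ∧ t.l = l)
      (hM : M = LL l ∨ M = 3 * LL l) => H (lv t M) ⟨e.1 ▸ c1, e.2.2.2 ▸ hM, ⟨_, rfl⟩,
    show 1000 * t.D0 ≤ 2 * (500 * t.D0) + 1 by omega, (pow_mul _ _ _).ge, le_rfl,
      le_mul_of_one_le_left (pow_pos (L0 t) _).le one_le_two, le_rfl⟩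
        e.1 e.2.1 e.2.2.1 rfl rfl (e.2.2.2 ▸ le_of_max_le_left hl)
  have ee : ∀ t : Td, t.c = c ∧ t.Kt = Kt ∧ t.K0 = K0 ∧ t.l = l → t.r = (d 0).r ∧
      t.L = LL l ∧ (t.D0 : ℝ) = (LL l : ℝ) ^ K0 ∧ t.L ^ K * t.τ ≤ κ := by
    rintro t ⟨rfl, -, rfl, rfl⟩
    refine ⟨by unfold Td.r; rw [(h.ex 0 (Nat.zero_le _)).2.2.2], rfl, D0_eq _, ?_⟩
    have := L0 t
    rw [← hκ, Td.τ, ← mul_assoc, ← pow_add, Real.exp_neg, ← div_eq_mul_inv, ← one_div]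
    refine (div_le_div_iff₀ (Real.exp_pos _) (pow_pos this _)).2 ?_
    rw [one_mul, mul_comm]
    exact (pow_add _ _ _).ge.trans g2
  have nu := (hv (d 0) _ (h.ex 0 (Nat.zero_le _)) (.inl rfl)).1
  obtain ⟨-, a2, a3, -⟩ := ee _ (h.ex 0 (Nat.zero_le _))
  have L1 := Sd.L1 (d 0)
  have LD : 24 * (d 0).L ^ 1 ≤ (d 0).D0 :=
    up_D nu (by norm_num) (by have := nu.exps; omega)
  have b1 : (1000 : ℝ) ≤ (d 0).L := nu.cL' (by norm_num)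
  have b2 : (S0 l : ℝ) ≤ (d 0).L := le_trans (by
    rw [S0, ← (h.ex 0 (Nat.zero_le _)).2.2.2]
    exact Nat.cast_le.2 (Nat.pow_le_pow_right (Nat.pos_of_ne_zero fun e => by
      have := nu.r1; simp [Td.r, lv, e] at this) (by norm_num))) nu.r_le_L
  rw [a3, pow_one] at LD
  rw [a2] at L1 LD b1 b2
  have b3 : ((LL l : ℝ) ^ K0) ^ 17 * κ = ((LL l : ℝ) ^ Ka)⁻¹ := by
    rw [← hκ, pow_add, pow_mul]; field_simp
  have b4 : ((LL l : ℝ) ^ Ka)⁻¹ ≤ 1 := inv_le_one_of_one_le₀ (one_le_pow₀ L1)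
  have κ0 : 0 < κ := hκ ▸ by positivity
  rw [pow_mul, ← b3]
  generalize (LL l : ℝ) ^ K0 = D at *
  have up : ∀ i ≤ 16, 24 * (D ^ i * κ) ≤ D ^ 17 * κ := fun i hi =>
    calc _ ≤ D * (D ^ 16 * κ) := by
          have : 1 ≤ D := by linarith
          gcongr
          linarith
      _ = _ := by ring
  have b5 := up 1 (by norm_num)
  have b6 := up 6 (by norm_num)
  have b7 := up 16 le_rfl
  have b8 := mul_le_mul_of_nonneg_right (show 1000 ≤ D by linarith) κ0.le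
  rw [pow_one] at b5
  have o1 : ∀ d', Q4.Chn c Kt K0 l (S0 l) κ d' → ∀ i ≤ S0 l, StO (d 0).r (LL l) D κ (d' i) := by
    intro d' h' i hi
    obtain ⟨M, j, v, e, hM, v1, v2, e0, e1, t, k⟩ := h'.tr i hi
    obtain ⟨f1, f2, f3, f4⟩ := ee _ (h'.ex i hi)
    rw [← f1, ← f2, ← f3]
    exact (hv _ M (h'.ex i hi) hM).2.2.1 j v e κ v1 v2 e0 (by linarith) t k f4
  have o2 : ∀ i ≤ S0 l, StT (d 0).r (LL l) D κ (d i) (d' i) := by
    intro i hi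
    obtain ⟨M, j, v, e, hM, v1, v2, e0, e1, t, k⟩ := h.tr i hi
    obtain ⟨M', j', v', e', hM', v3, v4, e2, e3, t', k'⟩ := h'.tr i hi
    obtain ⟨f1, f2, f3, f4⟩ := ee _ (h.ex i hi)
    obtain ⟨u1, u2, u3, u4⟩ := h.ex i hi
    obtain ⟨u5, u6, u7, u8⟩ := h'.ex i hi
    have k1 := hv _ M' (h'.ex i hi) hM'
    have k2 := (hv _ M (h.ex i hi) hM).2.2.2 (lv (d' i) M') j j' v v' e e' κ (u5.trans u1.symm)
      (u6.trans u2.symm) (u7.trans u3.symm) (u8.trans u4.symm) k1.1 k1.2.1 v1 v2 e0 (by linarith)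
      v3 v4 e2 (by linarith) t k t' k' f4 ((congrArg (· * κ) f3).trans_le (by linarith))
    rw [← f1, ← f2, ← f3]
    exact k2
  obtain ⟨k1, k2, k3⟩ := chain_abs h h' (o1 d h) (o1 d' h') o2 κ0 L1 b2 LD (by linarith) h0 _ le_rfl
  have x0 : (0 : ℝ) < 2⁻¹ ^ S0 l := by positivity
  have b9 := up 5 (by norm_num)
  have D0 : 0 < D := by linarith
  have y1 : ∀ i, D ^ i * (κ + 2⁻¹ ^ S0 l) ≤ 2 * (D ^ i * κ) := fun i => by
    linarith [mul_le_mul_of_nonneg_left g1 (pow_pos D0 i).le]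
  have z : ∀ i, 0 < D ^ i * κ := fun i => by positivity
  refine ⟨fun a δ ha => (k2 a δ ha).trans (mul_le_mul_of_nonneg_right (by
    linarith [y1 1]) (sq_nonneg δ)), fun B δ hB hδ => (k3 B δ hB hδ).trans
      (mul_le_mul_of_nonneg_right (by linarith [y1 6, z 6]) (pow_nonneg hB.nonneg 3)),
    fun a ha => (((o2 _ le_rfl _ (by linarith) k1 k2).2 (by linarith [y1 5, z 5]) k3).2 a
      fun x hx μ ν => ?_).trans (by linarith [y1 16, z 16])⟩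
  obtain rfl : x = 0 := funext fun i => by simpa using La.mem_box.1 hx i
  rw [ha, kF]
  split_ifs <;> simp

end Pool.Agent.Lib.MP_7f377f_mp.RG.Q4.Af
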