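import Pool.Agent.Lib.MP_7f377f_mp.Q4CalmA
import Pool.Agent.Lib.MP_7f377f_mp.Q4FldA
import Pool.Agent.Lib.MP_7f377f_mp.Q4TrF
import Pool.Agent.Lib.MP_7f377f_mp.Q4Num

/-! The functionals of a calm block: covariance, locality, bounds for small fields. -/

noncomputable section

namespace Pool.Agent.Lib.MP_7f377f_mp.RG.Q4

open Finset Polynomial

namespace Cm

/-- rotation of the fluctuation variable -/
def rot (g : S3) : E3 ≃ₗᵢ[ℝ] E3 := Classical.choose (exists_rot g)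

theorem cE_rot (g : S3) (v : E3) : cE (rot g v) = adq (cS g) (cE v) :=
  Classical.choose_spec (exists_rot g) v

/-- rotation of all fluctuation variables -/
def rz (l : ℕ) (u : St → S3) (z : Lk → E3) : Lk → E3 := fun f => rot (u (yo l f.1)) (z f)

theorem zc_rz (l : ℕ) (ζ : ℝ) (u : St → S3) (z : Lk → E3) :
    zc ζ (rz l u z) = aS l u (zc ζ z) := by
  funext f
  simp only [zc, rz, adF, LinearIsometryEquiv.norm_map]
  split_ifs
  · exact cE_rot _ _
  · exact ((Op.adqL _).map_zero).symm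

theorem zc_inv (l : ℕ) (ζ : ℝ) (u : St → S3) (z : Lk → E3) :
    zc ζ z = aS l u (zc ζ (rz l (fun x => (u x)⁻¹) z)) := by rw [zc_rz, aS_inv]

theorem rz_sh (l : ℕ) (u : St → S3) (z : Lk → E3) (y : St) :
    sh (up l y) (rz l u z) = rz l (fun x => u (x + y)) (sh (up l y) z) := by
  funext f
  simp only [rz, sh, yo_add_up]

theorem mp_rz (l : ℕ) {ζ : ℝ} (h : 0 < ζ) (u : St → S3) :
    MeasureTheory.MeasurePreserving (rz l u) (nuI ζ) (nuI ζ) := Cov.nuI_rot h _

theorem e4_agr {l : ℕ} {A A' : Fld} (h : Agr l A A') : e4 l A = e4 l A' := by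
  rw [e4, e4, sum_congr rfl fun f hf => by rw [h f hf]]

theorem e4_aS (l : ℕ) (u : St → S3) (A : Fld) : e4 l (aS l u A) = e4 l A := by
  simp only [e4, adF, dot_adq_adq (uni_cS _)]

variable {S : Sd} {τ P δ : ℝ} {W W' : Cf} {z z' : Lk → E3} {A : Fld} {p : ℂ[X]}

/-- the negligible part of the Gaussian weight -/
def uu (S : Sd) (W : Cf) (z : Lk → E3) : ℂ :=
  ∑ f ∈ lbox S.l, dot (zc S.ζ z f) (S.pol0 (pU S.N) W (zc S.ζ z) f)

/-- the linear term -/
def gg (S : Sd) (W : Cf) (z : Lk → E3) : ℂ := S.t.gv W (S.t.As W) (S.v0 W z) 0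

theorem sT_eq (W : Cf) (z : Lk → E3) : S.sT W z =
    S.β * (gg S W z + S.t.rest (S.r + 5) ((S.D0 : ℝ)⁻¹) S.m1 W) - uu S W z / 2 := rfl

variable (h : S.t.Ok S.r S.c τ S.m S.s P δ)
include h

section cov

variable (g : S.t.Gw W) (u : St → S3)
include g

theorem ka_cov (y : St) : Kg S.l (fun x => cS (u x)) y (S.ka W y) (S.ka (gS u W) y) :=
  Nt.kd_cov h u g y

theorem pol0_cov : S.pol0 p (gS u W) (aS S.l u A) = aS S.l u (S.pol0 p W A) :=
  polK_gauge (u := fun x => cS (u x)) (fun _ => uni_cS _) fun y _ => ka_cov h g u y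

theorem dt0_cov : S.dt0 (gS u W) = S.dt0 W :=
  dtK_rel (fun _ => uni_cS _) (fun _ _ => Iff.rfl) fun y _ _ => ka_cov h g u y

variable (e : zc S.ζ z = aS S.l u (zc S.ζ z'))
include e

theorem v0_cov : S.v0 (gS u W) z = aS S.l u (S.v0 W z') := by
  rw [Sd.v0, Sd.P0, e, pol0_cov h g, Sd.v0, Sd.P0, aS, aS, Ho.adF_smul]

theorem A_cov : S.t.As (gS u W) + S.v0 (gS u W) z = aS S.l u (S.t.As W + S.v0 W z') := by
  rw [v0_cov h g u e, Nt.As_cov h u g, aS, aS, aS, Ho.adF_add]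
  rfl

theorem U0_cov : S.U0 (gS u W) z = gauge star (fun x => cS (u (yo S.l x))) (S.U0 W z') := by
  rw [Sd.U0, A_cov h g u e, Sd.U0]
  exact En.Uz_gauge h.lin (fun _ => uni_cS _) _ _

theorem s1_cov : S.s1 (gS u W) z = S.s1 W z' := by
  rw [Sd.s1, A_cov h g u e, v0_cov h g u e, e4_aS, Sd.s1]
  exact congrArg (fun x => _ * x + _) (Nt.rem3_cov h u g)

theorem gg_cov : gg S (gS u W) z = gg S W z' := by
  rw [gg, v0_cov h g u e, Nt.As_cov h u g]
  exact Nt.gv_cov h u g.As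

theorem uu_cov : uu S (gS u W) z = uu S W z' := by
  simp only [uu, e, pol0_cov h g, adF, dot_adq_adq (uni_cS _)]

end cov

section agr

variable (hW : Agr (4 * S.N + 5 + S.t.rA S.r) W W') (hz : Agr (fb S.l (4 * S.N + 2)) z z')
include hW hz

theorem s1_agr : S.s1 W z = S.s1 W' z' := by
  have h1 := Sd.v0_agr h (a := 2) (hW.mono (by omega)) (hz.mono (Op.fb_mono _ (by omega)))
  have h2 := Nt.As_agr h (n := 0) (hW.mono (by omega))
  rw [Sd.s1, Sd.s1, Nt.rem3_agr h (n := 0) (zero_mem_box 0) (hW.mono (by omega)) h1,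
    e4_agr (A' := S.t.As W' + S.v0 W' z') fun f hf => by
      rw [Pi.add_apply, Pi.add_apply, h2 f (mem_fb_zero hf),
        h1 f (lbox_mono (Op.fb_mono _ (by omega)) (mem_fb_zero hf))]]

theorem gg_agr : gg S W z = gg S W' z' :=
  Nt.gv_agr h (n := 0) (zero_mem_box 0) (hW.mono (by unfold Nt.rA; omega))
    (Nt.As_agr h (hW.mono (by omega)))
    (Sd.v0_agr h (a := 0) (hW.mono (by omega)) (hz.mono (Op.fb_mono _ (by omega))))

theorem uu_agr : uu S W z = uu S W' z' := by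
  have h1 := agr_zc S.ζ hz
  have h2 := Td.pol0_agr h (a := 0) (natDegree_pU S.N) (hW.mono (by omega))
    (h1.mono (Op.fb_mono _ (by omega)))
  exact sum_congr rfl fun f hf => by rw [h2 f (mem_fb_zero hf),
    h1 f (lbox_mono (Op.fb_mono _ (Nat.zero_le _)) (mem_fb_zero hf))]

end agr

end Cm

end Pool.Agent.Lib.MP_7f377f_mp.RG.Q4
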