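import Pool.Agent.Lib.MP_7f377f_mp.Q4AfGeo
import Pool.Agent.Lib.MP_7f377f_mp.Q4MeasCov
import Pool.Agent.Lib.MP_7f377f_mp.Q4PsA
import Pool.Agent.Lib.MP_7f377f_mp.Q4Tree

/-! Fields of constant flux, values of local terms on them, isotropy. -/

noncomputable section

namespace Pool.Agent.Lib.MP_7f377f_mp.RG.Q4.En

open Finset Real La La.Q Mx

abbrev Mt := Fin 4 → Fin 4 → ℝ

/-- a potential of a constant curvature -/
def pt : Mt →ₗ[ℝ] V where
  toFun F e := 2⁻¹ * ∑ ν, F ν e.2 * e.1 ν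
  map_add' F G := by funext e; simp [add_mul, sum_add_distrib, mul_add]
  map_smul' c F := by funext e; simp [mul_sum, mul_assoc, mul_left_comm]

def As (F : Mt) : Prop := ∀ μ ν, F ν μ = -F μ ν

theorem cc_pt (a : V) : cc a = pt (dd a 0) := rfl

variable {F G : Mt} {n : ℕ} {θ θ' : Lk → Angle}

theorem dd_pt (h : As F) (x : St) : dd (pt F) x = F := by
  have e : ∀ μ ν, pt F (x + un μ, ν) = pt F (x, ν) + 2⁻¹ * F μ ν := fun μ ν => by
    simp [pt, mul_add, sum_add_distrib, un_apply]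
  funext μ ν
  rw [dd, e, e, h μ ν]
  ring

theorem cc_eq (h : As F) : cc (pt F) = pt F := by rw [cc_pt, dd_pt h]

theorem As.add (h : As F) (h' : As G) : As (F + G) := fun μ ν => by
  simp only [Pi.add_apply, h μ ν, h' μ ν, neg_add]

theorem As.smul (h : As F) (c : ℝ) : As (c • F) := fun μ ν => by simp [h μ ν]

theorem cv_pt (h : As F) (R : ℕ) : Cv R ‖F‖ (pt F) := fun x _ μ ν => by
  rw [dd_pt h]
  exact (norm_le_pi_norm _ ν).trans (norm_le_pi_norm F μ)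

/-- the elementary fluxes -/
def EZ (p : Fin 4 × Fin 4) (μ ν : Fin 4) : ℤ :=
  (if (μ, ν) = p then 1 else 0) - if (ν, μ) = p then 1 else 0

def EE (p : Fin 4 × Fin 4) : Mt := fun μ ν => EZ p μ ν

theorem as_EE (p : Fin 4 × Fin 4) : As (EE p) := fun μ ν => by simp [EE, EZ]

theorem norm_EE (p : Fin 4 × Fin 4) : ‖EE p‖ ≤ 1 :=
  (pi_norm_le_iff_of_nonneg zero_le_one).2 fun μ => (pi_norm_le_iff_of_nonneg zero_le_one).2
    fun ν => by simp only [EE, EZ]; split_ifs <;> simp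

/-- signs of a reflection -/
def sg (k μ : Fin 4) : ℤ := if μ = k then -1 else 1

def pM (σ : Equiv.Perm (Fin 4)) (F : Mt) : Mt := fun μ ν => F (σ μ) (σ ν)

def rM (k : Fin 4) (F : Mt) : Mt := fun μ ν => (sg k μ * sg k ν) • F μ ν

theorem EE_perm (p : Fin 4 × Fin 4) : EE p = 0 ∨ ∃ σ, pM σ (EE (0, 1)) = EE p := by
  have : (∀ μ ν, EZ p μ ν = 0) ∨ ∃ σ : Equiv.Perm (Fin 4), ∀ μ ν,
      EZ (0, 1) (σ μ) (σ ν) = EZ p μ ν := by revert p; decide
  exact this.imp (fun h => by funext μ ν; simp [EE, h]) fun h => h.imp fun σ h => by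
    funext μ ν; simp [pM, EE, h]

theorem EE_pair (p q : Fin 4 × Fin 4) : EE q = 0 ∨ EE q = EE p ∨ EE q = -EE p ∨
    ∃ k, rM k (EE p) = EE p ∧ rM k (EE q) = -EE q := by
  have : (∀ μ ν, EZ q μ ν = 0) ∨ (∀ μ ν, EZ q μ ν = EZ p μ ν) ∨ (∀ μ ν, EZ q μ ν = -EZ p μ ν) ∨
      ∃ k, ∀ μ ν, sg k μ * sg k ν * EZ p μ ν = EZ p μ ν ∧
        sg k μ * sg k ν * EZ q μ ν = -EZ q μ ν := by revert p q; decide
  refine this.imp (fun h => ?_) (Or.imp (fun h => ?_) (Or.imp (fun h => ?_) fun h => h.imp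
    fun k h => ⟨?_, ?_⟩)) <;> funext μ ν
  · simp [EE, h]
  · simp [EE, h]
  · simp [EE, h]
  · simp only [rM, EE, zsmul_eq_mul]; exact_mod_cast (h μ ν).1
  · simp only [rM, EE, zsmul_eq_mul, Pi.neg_apply]; exact_mod_cast (h μ ν).2

theorem As.eq_sum (h : As F) : F = ∑ p : Fin 4 × Fin 4, (2⁻¹ * F p.1 p.2) • EE p := by
  funext μ ν
  simp [Finset.sum_apply, EE, EZ, mul_sub, h μ ν]
  ring

/-- abelian fields with constant flux -/
def Fx (n : ℕ) (F : Mt) (θ : Lk → Angle) : Prop :=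
  Per n θ ∧ ∀ x μ ν, dd θ x μ ν = (F μ ν : ℝ)

theorem fx_zero : Fx n 0 0 := ⟨fun _ => rfl, by simp [dd]⟩

theorem Fx.add (h : Fx n F θ) (h' : Fx n G θ') : Fx n (F + G) (θ + θ') :=
  ⟨fun μ => funext fun e => congrArg₂ (· + ·) (congrFun (h.1 μ) e) (congrFun (h'.1 μ) e),
    fun x μ ν => by rw [RG.dd_add, h.2, h'.2]; rfl⟩

theorem Fx.pm (h : Fx n F θ) (σ : Equiv.Perm (Fin 4)) : Fx n (pM σ F) (pm σ θ) :=
  ⟨fun μ => by rw [sh_pm, pz_smul, pz_un, h.1], fun x μ ν => by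
    rw [pM, ← h.2 (pz σ x)]; simp only [dd, pm_apply, pz_add, pz_un]⟩

theorem Fx.rf (h : Fx n F θ) (k : Fin 4) : Fx n (rM k F) (rfl1 Neg.neg k θ) := by
  refine ⟨fun μ => ?_, fun x μ ν => ?_⟩
  · rw [sh_rfl, rz_smul]
    by_cases e : μ = k
    · rw [e, rz_un_self, smul_neg, ← congrArg (sh (-((n : ℤ) • un k))) (h.1 k), sh_sh]
      simp
    · rw [rz_un_ne _ e, h.1]
  · rw [rM, Angle.coe_zsmul, ← h.2 (rz k x - if μ = k ∨ ν = k then un k else 0)]
    by_cases a : μ = k <;> by_cases b : ν = k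
    · simp [dd, a, b]
    · simp only [dd, a, rfl1_self, rfl1_ne _ b, rz_add, rz_un_self, rz_un_ne _ b, sg, if_neg b,
        true_or, if_true, sub_add_cancel, ← sub_eq_add_neg, add_sub_right_comm]
      simp only [mul_one, neg_smul, one_smul]
      abel
    · simp only [dd, b, rfl1_self, rfl1_ne _ a, rz_add, rz_un_self, rz_un_ne _ a, sg, if_neg a,
        or_true, if_true, sub_add_cancel, ← sub_eq_add_neg, add_sub_right_comm]
      simp only [one_mul, neg_smul, one_smul]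
      abel
    · simp [dd, rfl1_ne, a, b, rz_add, rz_un_ne, sg]

theorem ab_rf (k : Fin 4) (θ : Lk → Angle) : ab (rfl1 Neg.neg k θ) = rfl1 Inv.inv k (ab θ) := by
  funext e
  simp only [ab, rfl1]
  split_ifs
  exacts [eA_neg _, rfl]

theorem Fx.per (h : Fx n F θ) : Per n (ab θ) := fun μ => by rw [sh_ab, h.1]

theorem fx_EE (hn : n ≠ 0) (j : ℤ) (p : Fin 4 × Fin 4) :
    ∃ θ, Fx n ((j * (2 * π / (n : ℝ) ^ 2)) • EE p) θ := by
  have : NeZero n := ⟨hn⟩
  obtain ⟨θ, h⟩ := Af.bg_exists n n j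
  have h0 : Fx n ((j * (2 * π / (n : ℝ) ^ 2)) • EE (0, 1)) θ := ⟨fun μ => by
    have := h.per μ
    rwa [show NN n n μ = n by fin_cases μ <;> rfl] at this, fun x μ ν => by
      rw [h.curv]; congr 1; fin_cases μ <;> fin_cases ν <;> simp [kF, EE, EZ]⟩
  rcases EE_perm p with e | ⟨σ, e⟩
  · exact ⟨0, by rw [e, smul_zero]; exact fx_zero⟩
  · exact ⟨_, e ▸ show Fx n (_ • pM σ (EE (0, 1))) _ from h0.pm σ⟩

/-- the chart coordinates of a constant flux -/
def tF (F : Mt) : V := fun e => tan (cg (pt F) e)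

theorem Fx.bx (h : Fx n F θ) (hF : As F) (x : St) : Bx x (cC (ab θ)) = Ho.em 0 (tF F) := by
  have e : cg (sh x θ) = fun e => ((cg (pt F) e : ℝ) : Angle) := by
    rw [← show cg (fun e => Angle.coeHom (pt F e)) = fun e => ((cg (pt F) e : ℝ) : Angle) from
      cg_map Angle.coeHom (pt F)]
    refine cg_of_dd ?_
    funext y μ ν
    rw [RG.dd_sh, h.2, ← congrFun₂ (dd_pt hF y) μ ν]
    simp [dd]
  funext f
  rw [Bx_eq, sh_cC, Bx_cC, sh_ab, fix_ab, e, ab, ch_eA]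
  funext k
  fin_cases k <;> simp [Ho.em, tF]

theorem Fx.fq_le (h : Fx n F θ) (x : St) (μ ν : Fin 4) : fq (ab θ) x μ ν ≤ ‖F‖ := by
  rw [fq, hol_ab, h.2]
  exact (norm_eA _).trans ((norm_le_pi_norm _ ν).trans (norm_le_pi_norm F μ))

theorem tF_near (hF : As F) {R : ℕ} {d : ℝ} (hd : ‖F‖ ≤ d) (h : 6 * (R + 1) * d ≤ 1) :
    Cv R (108 * (R + 1) ^ 3 * d ^ 3) (tF F - cg (pt F)) := by
  have : Sm (R + 1) (27 * (R + 1) ^ 3 * d ^ 3) (tF F - cg (pt F)) := fun e he => by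
    have h1 : |cg (pt F) e| ≤ 3 * (R + 1) * d := by
      simpa using Sm_cg ((cv_pt hF (R + 1)).mono le_rfl hd) e he
    refine (Af.abs_tan_sub (h1.trans (by linarith))).trans
      ((pow_le_pow_left₀ (abs_nonneg _) h1 3).trans_eq (by ring))
  exact this.cv.mono le_rfl (le_of_eq (by ring))

theorem four {f : ℂ → ℂ} {r M : ℝ} (hr : 1 < r) (hf : DifferentiableOn ℂ f (Metric.ball 0 r))
    (he : ∀ t, f (-t) = f t) (hb : ∀ t ∈ Metric.ball (0 : ℂ) r, ‖f t‖ ≤ M * ‖t‖ ^ 3) :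
    ‖f 1‖ ≤ M / r := by
  have r0 : 0 < r := by linarith
  have n0 := Metric.ball_mem_nhds (0 : ℂ) r0
  have st : ∀ (k : ℕ) (f : ℂ → ℂ), DifferentiableOn ℂ f (Metric.ball 0 r) →
      (∀ t ∈ Metric.ball (0 : ℂ) r, ‖f t‖ ≤ M * ‖t‖ ^ (k + 1)) → ∃ g : ℂ → ℂ,
        DifferentiableOn ℂ g (Metric.ball 0 r) ∧ (∀ t, f t = t * g t) ∧
        ∀ t ∈ Metric.ball (0 : ℂ) r, ‖g t‖ ≤ M * ‖t‖ ^ k := fun k f hf hb => by
    have f0 : f 0 = 0 := by simpa using hb 0 (Metric.mem_ball_self r0)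
    have d := (Complex.differentiableOn_dslope n0).2 hf
    have e : ∀ t, f t = t * dslope f 0 t := fun t => by simpa [f0] using (sub_smul_dslope f 0 t).symm
    have b : ∀ t ∈ Metric.ball (0 : ℂ) r, t ≠ 0 → ‖dslope f 0 t‖ ≤ M * ‖t‖ ^ k := fun t ht t0 => by
      have := hb t ht
      rw [e, norm_mul, pow_succ', mul_left_comm] at this
      exact le_of_mul_le_mul_left this (norm_pos_iff.2 t0)
    refine ⟨_, d, e, fun t ht => ?_⟩
    rcases eq_or_ne t 0 with rfl | t0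
    · refine le_of_tendsto_of_tendsto (b := nhdsWithin 0 {0}ᶜ)
        ((d.differentiableAt n0).continuousAt.norm.tendsto.mono_left nhdsWithin_le_nhds)
        ((Continuous.tendsto (f := fun t : ℂ => M * ‖t‖ ^ k) (by fun_prop) 0).mono_left
          nhdsWithin_le_nhds) ?_
      filter_upwards [nhdsWithin_le_nhds n0, self_mem_nhdsWithin] with t h1 h2 using b t h1 h2
    · exact b t ht t0
  obtain ⟨g1, a1, e1, b1⟩ := st 2 f hf hb
  obtain ⟨g2, a2, e2, b2⟩ := st 1 g1 a1 b1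
  obtain ⟨g3, a3, e3, b3⟩ := st 0 g2 a2 b2
  have c := (a3.differentiableAt n0).continuousAt
  have z : g3 0 = 0 := by
    have h1 : Filter.Tendsto (fun t => g3 (-t) + g3 t) (nhdsWithin 0 {0}ᶜ) (nhds (g3 0 + g3 0)) :=
      (((show ContinuousAt g3 (-0) by rwa [neg_zero]).comp continuous_neg.continuousAt).add
        c).tendsto.mono_left nhdsWithin_le_nhds |>.trans_eq (by simp)
    have h2 := tendsto_nhds_unique h1 ((tendsto_const_nhds (x := 0)).congr' (by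
      filter_upwards [self_mem_nhdsWithin] with t ht
      have := he t
      rw [e1, e2, e3, e1, e2, e3] at this
      exact mul_left_cancel₀ (pow_ne_zero 3 ht) (by linear_combination this)))
    linear_combination h2 / 2
  have := Complex.dist_le_div_mul_dist_of_mapsTo_ball a3 (R₂ := M) (z := 1)
    (fun t ht => by simpa [z] using b3 t ht) (by simpa using hr)
  simpa [e1, e2, e3, z] using this

theorem tc_even {R : ℕ} {ρ C d : ℝ} {T : Fld → ℂ} (h : Tc R ρ C T) {a : V} (ha : Cv R d a)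
    (d0 : 0 < d) (hd : d < ρ) : ‖T (Ho.em 0 a)‖ ≤ C * d ^ 4 / ρ := by
  have c : ∀ t ∈ Metric.ball (0 : ℂ) (ρ / d), Cv R (‖t‖ * d) (t • Ho.em 0 a) ∧ ‖t‖ * d ≤ ρ :=
    fun t ht => ⟨(Ho.cv_em 0 ha).smul t, (le_div_iff₀ d0).1 (mem_ball_zero_iff.1 ht).le⟩
  have := four (f := fun t => T (t • Ho.em 0 a)) (M := C * d ^ 3) ((one_lt_div d0).2 hd)
    (h.hol _ _ Metric.isOpen_ball (fun e => by simp only [Pi.smul_apply]; fun_prop)
      fun t ht => (c t ht).1.mono le_rfl (c t ht).2)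
    (fun t => by
      rw [← h.ad (Ho.mkS 0 0 1 0 (by simp))]
      congr 1
      funext e k
      fin_cases k <;> simp [adF, adq, Ho.em, cS, Ho.mkS, S3.q, Ho.mq, cq, co, io])
    fun t ht => (h.bd _ _ (c t ht).1 (c t ht).2).trans_eq (by ring)
  rw [one_smul] at this
  exact this.trans_eq (by field_simp)

theorem cc_val {R : ℕ} {κ d : ℝ} {k : CF} (h : Cc R κ k) (hF : As F) (hd : ‖F‖ ≤ d)
    (h1 : 20 * (R + 1) ^ 2 * d ≤ 1) : Cv R (2 * d) (tF F) ∧
      ‖k (tF F) (tF F) - k (pt F) (pt F)‖ ≤ 324 * κ * (R + 1) ^ 3 * d ^ 4 := by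
  have d0 := (norm_nonneg _).trans hd
  have R1 : (1 : ℝ) ≤ R + 1 := by linarith [R.cast_nonneg (α := ℝ)]
  have h2 := tF_near hF hd (R := R) (by nlinarith [mul_nonneg (sub_nonneg.2 R1) d0])
  have h3 : Cv R d (cg (pt F)) := fun x hx μ ν => by
    rw [dd_cg]; exact ((cv_pt hF R).mono le_rfl hd) x hx μ ν
  have h4 : 108 * (R + 1) ^ 3 * d ^ 3 ≤ d := by
    have := pow_le_one₀ (n := 2) (by positivity) h1
    have := mul_le_mul_of_nonneg_right (pow_le_pow_right₀ R1 (show 3 ≤ 4 by norm_num))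
      (pow_nonneg d0 3)
    nlinarith [mul_le_mul_of_nonneg_right ‹(20 * (R + 1 : ℝ) ^ 2 * d) ^ 2 ≤ 1› d0]
  have h5 : Cv R (2 * d) (tF F) := by
    simpa using (h3.add h2).mono le_rfl (show _ ≤ 2 * d by linarith)
  refine ⟨h5, ?_⟩
  rw [← h.congr (a := cg (pt F)) (b := cg (pt F)) (a' := pt F) (b' := pt F)
    (fun _ _ _ _ => by rw [dd_cg]) fun _ _ _ _ => by rw [dd_cg], show k (tF F) (tF F) - k (cg (pt F)) (cg (pt F)) =
      k (tF F - cg (pt F)) (tF F) + k (cg (pt F)) (tF F - cg (pt F)) by simp]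
  exact (norm_add_le_of_le (h _ _ _ _ h2 h5) (h _ _ _ _ h3 h2)).trans_eq (by ring)

/-- the value of a small term on a constant flux -/
theorem ps_val {R s : ℕ} {ρ xb xk xr d : ℝ} {ψ : Fld → ℂ} (h : Ps R s ρ xb xk xr ψ) (hF : As F)
    (hd : ‖F‖ ≤ d) (h1 : 20 * (R + 1) ^ 2 * d ≤ 1) (h2 : 2 * d ≤ ρ) :
    ‖ψ (Ho.em 0 (tF F)) - qc ψ (pt F) (pt F)‖ ≤
      324 * (xb + xk) * (R + 1) ^ 3 * d ^ 4 + xr * (2 * d / ρ) ^ 3 := by
  obtain ⟨k, a, e, b⟩ := h.elim
  obtain ⟨c1, c2⟩ := cc_val a.cc hF hd h1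
  have := b.bd (Ho.real_em 0 _) (Ho.cv_em 0 c1) h2
  rw [qf_em] at this
  rw [qc, e, cc_eq hF, ← sub_add_sub_cancel' (k (tF F) (tF F))]
  exact norm_add_le_of_le c2 this

/-- an almost invariant form on constant curvatures is almost a multiple of the Wilson form -/
theorem iso {k : BF} (hs : ∀ a b, k a b = k b a) {η : ℝ}
    (h1 : ∀ σ, |k (pt (pM σ (EE (0, 1)))) (pt (pM σ (EE (0, 1)))) -
      k (pt (EE (0, 1))) (pt (EE (0, 1)))| ≤ η)
    (h2 : ∀ p q j, |k (pt (rM j (EE p + EE q))) (pt (rM j (EE p + EE q))) -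
      k (pt (EE p + EE q)) (pt (EE p + EE q))| ≤ η) {a b : V} {δ δ' : ℝ} (ha : Cv 0 δ a)
    (hb : Cv 0 δ' b) :
    |k (cc a) (cc b) - k (pt (EE (0, 1))) (pt (EE (0, 1))) * m0 a b| ≤ 64 * η * δ * δ' := by
  have η0 := (abs_nonneg _).trans (h1 1)
  set κ := k (pt (EE (0, 1))) (pt (EE (0, 1)))
  have m : ∀ {F G}, As F → As G → m0 (pt F) (pt G) = 2⁻¹ * ∑ μ, ∑ ν, F μ ν * G μ ν :=
    fun hF hG => by rw [Li.m0_apply, dd_pt hF, dd_pt hG]
  have d : ∀ p, |(k - κ • m0) (pt (EE p)) (pt (EE p))| ≤ η := fun p => by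
    rcases EE_perm p with e | ⟨σ, e⟩
    · simpa [e] using η0
    · have : m0 (pt (EE p)) (pt (EE p)) = 1 := by
        rw [m (as_EE p) (as_EE p), ← e]
        simp only [pM]
        rw [Equiv.sum_comp σ fun μ => ∑ ν, EE (0, 1) μ (σ ν) * EE (0, 1) μ (σ ν)]
        simp only [fun μ => Equiv.sum_comp σ fun ν => EE (0, 1) μ ν * EE (0, 1) μ ν]
        simp [EE, EZ, Fin.sum_univ_four]
        norm_num
      simpa [this, e] using h1 σ
  have o : ∀ p q, |(k - κ • m0) (pt (EE p)) (pt (EE q))| ≤ η := fun p q => by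
    rcases EE_pair p q with e | e | e | ⟨j, e, e'⟩
    · simpa [e] using η0
    · exact e ▸ d p
    · rw [e, map_neg, map_neg, abs_neg]; exact d p
    · have a1 := h2 p q j
      have a2 : m0 (pt (EE p)) (pt (EE q)) = 0 := by
        have : ∑ μ, ∑ ν, EE p μ ν * EE q μ ν = ∑ μ, ∑ ν, rM j (EE p) μ ν * rM j (EE q) μ ν :=
          sum_congr rfl fun μ _ => sum_congr rfl fun ν _ => by
            simp only [rM, sg]; split_ifs <;> simp
        simp only [e, e', Pi.neg_apply, mul_neg, sum_neg_distrib] at this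
        rw [m (as_EE p) (as_EE q)]
        linarith
      rw [show rM j (EE p + EE q) = rM j (EE p) + rM j (EE q) from funext₂ fun _ _ => smul_add ..,
        e, e'] at a1
      simp only [map_add, map_neg, LinearMap.add_apply, LinearMap.neg_apply, hs (pt (EE q))] at a1
      simp only [LinearMap.sub_apply, LinearMap.smul_apply, a2, smul_zero, sub_zero]
      rw [abs_le] at a1 ⊢
      constructor <;> linarith
  have s : ∀ a : V, As (dd a 0) := fun a => dd_anti a 0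
  have e : k (cc a) (cc b) - κ * m0 a b = (k - κ • m0) (pt (dd a 0)) (pt (dd b 0)) := by
    simp [cc_pt, m (s a) (s b), Li.m0_apply]
  rw [e, (s a).eq_sum, (s b).eq_sum]
  simp only [map_sum, map_smul, LinearMap.sum_apply, LinearMap.smul_apply, smul_eq_mul]
  have := ha.nonneg
  have := hb.nonneg
  refine (abs_sum_le_sum_abs _ _).trans ((sum_le_card_nsmul _ _ (2⁻¹ * δ' * (16 * (2⁻¹ * δ * η)))
    fun q _ => ?_).trans_eq (by simp; ring))
  rw [abs_mul, abs_mul, abs_of_pos (show (0 : ℝ) < 2⁻¹ by norm_num)]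
  refine mul_le_mul (mul_le_mul_of_nonneg_left (hb 0 (zero_mem_box 0) _ _) (by norm_num))
    ((abs_sum_le_sum_abs _ _).trans ((sum_le_card_nsmul _ _ (2⁻¹ * δ * η) fun p _ => ?_).trans_eq
      (by simp))) (abs_nonneg _) (by positivity)
  rw [abs_mul, abs_mul, abs_of_pos (show (0 : ℝ) < 2⁻¹ by norm_num)]
  exact mul_le_mul (mul_le_mul_of_nonneg_left (ha 0 (zero_mem_box 0) _ _) (by norm_num)) (o p q)
    (abs_nonneg _) (by positivity)

end Pool.Agent.Lib.MP_7f377f_mp.RG.Q4.En
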