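import Pool.Agent.Lib.MP_7f377f_mp.Q4AfT
import Pool.Agent.Lib.MP_7f377f_mp.Q4AfP

/-! Changes of the base point of the chart. -/

noncomputable section

namespace Pool.Agent.Lib.MP_7f377f_mp.RG.Q4.Af

open Finset Matrix

abbrev R3 := Fin 3 → ℝ

/-- the product in the chart -/
def mu3 (a b : R3) : R3 := (1 - a ⬝ᵥ b)⁻¹ • (a + b + a ⨯₃ b)

theorem exS_mul {a b : R3} (h : a ⬝ᵥ b < 1) : exS a * exS b = exS (mu3 a b) := by
  have p : ∀ v : R3, ∃ c : ℝ, 0 < c ∧ cS (exS v) = (c : ℂ) • (1 + io (cR v)) := fun v =>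
    ⟨_, by positivity, (cS_exS v).trans (ex_cE (WithLp.toLp 2 v))⟩
  obtain ⟨c, c0, hc⟩ := p a
  obtain ⟨d, d0, hd⟩ := p b
  have e : cS (exS a * exS b) = ((c * d : ℝ) : ℂ) • ((1 + io (cR a)) * (1 + io (cR b))) := by
    rw [cS_mul, hc, hd, smul_mul_smul_comm, Complex.ofReal_mul]
  have o : (1 : Hc).re = 1 ∧ (1 : Hc).imI = 0 ∧ (1 : Hc).imJ = 0 ∧ (1 : Hc).imK = 0 :=
    ⟨rfl, rfl, rfl, rfl⟩
  have r : ((1 + io (cR a)) * (1 + io (cR b))).re = ((1 - a ⬝ᵥ b : ℝ) : ℂ) := by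
    simp [cR, vec3_dotProduct, o]; ring
  have r0 : 0 < (exS a * exS b).q.re := by
    have := congrArg (·.re) e
    simp only [cS, cq_re, Quaternion.re_smul, r, smul_eq_mul, ← Complex.ofReal_mul,
      Complex.ofReal_inj] at this
    rw [this]; exact mul_pos (mul_pos c0 d0) (sub_pos.2 h)
  refine cS_inj ((ex_ch r0).symm.trans ?_)
  rw [cS_exS, e, ch_smul (by exact_mod_cast (mul_pos c0 d0).ne'), ch, r, mu3, cR_smul,
    Complex.ofReal_inv]
  congr 2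
  funext k
  fin_cases k <;> simp [co, cR, cross_apply, o] <;> ring

theorem exS_zero : exS 0 = 1 := cS_inj (by rw [cS_exS, cR_zero, ex_zero, cS_one])

theorem exS_neg (a : R3) : exS (-a) = (exS a)⁻¹ :=
  cS_inj (by rw [cS_inv, cS_exS, cS_exS, star_ex, cR_neg])

theorem exS_eq (a : R3) : exS a = Ms.e0 (WithLp.toLp 2 a) :=
  cS_inj ((cS_exS a).trans (Ms.cS_e0 _).symm)

theorem exS_near (a : R3) : Rb.Nr (2 * ‖a‖) (exS a) 1 := by
  rw [exS_eq]; simpa [cR] using Geo.e0_le (norm_cR a).le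

theorem abs_dot3 (a b : R3) : |a ⬝ᵥ b| ≤ 3 * (‖a‖ * ‖b‖) :=
  (abs_sum_le_sum_abs _ _).trans ((sum_le_card_nsmul _ _ _ fun k _ => (abs_mul _ _).trans_le
    (mul_le_mul (norm_le_pi_norm a k) (norm_le_pi_norm b k) (abs_nonneg _) (norm_nonneg _))).trans_eq
    (by simp))

theorem norm_cross (a b : R3) : ‖a ⨯₃ b‖ ≤ 2 * (‖a‖ * ‖b‖) := by
  have m : ∀ i j, |a i * b j| ≤ ‖a‖ * ‖b‖ := fun i j => (abs_mul _ _).trans_le
    (mul_le_mul (norm_le_pi_norm a i) (norm_le_pi_norm b j) (abs_nonneg _) (norm_nonneg _))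
  have n : ∀ i j k l, |a i * b j - a k * b l| ≤ 2 * (‖a‖ * ‖b‖) := fun i j k l =>
    (abs_sub _ _).trans (by linarith [m i j, m k l])
  refine (pi_norm_le_iff_of_nonneg (by positivity)).2 fun k => ?_
  fin_cases k <;> simpa [cross_apply] using n _ _ _ _

theorem mu3_near {a b : R3} (ha : ‖a‖ ≤ 1 / 10) (hb : ‖b‖ ≤ 1 / 10) :
    a ⬝ᵥ b < 1 ∧ ‖mu3 a b - b‖ ≤ 2 * ‖a‖ := by
  have a0 := norm_nonneg a
  have b0 := norm_nonneg b
  have d := abs_dot3 a b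
  have ab : ‖a‖ * ‖b‖ ≤ ‖a‖ / 10 := by nlinarith
  have d1 := abs_le.1 d
  have p : 0 < 1 - a ⬝ᵥ b := by linarith
  refine ⟨by linarith, ?_⟩
  rw [show mu3 a b - b = (1 - a ⬝ᵥ b)⁻¹ • (a + a ⨯₃ b + (a ⬝ᵥ b) • b) by
      rw [mu3, sub_eq_iff_eq_add, eq_comm, ← smul_right_inj p.ne', smul_add, smul_inv_smul₀ p.ne',
        smul_inv_smul₀ p.ne']; module,
    norm_smul, norm_inv, Real.norm_of_nonneg p.le, inv_mul_le_iff₀ p]
  refine (norm_add_le_of_le (norm_add_le_of_le le_rfl (norm_cross a b)) (norm_smul_le _ _)).trans ?_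
  rw [Real.norm_eq_abs]
  nlinarith [mul_le_mul d hb b0 (by positivity), mul_le_mul_of_nonneg_right d1.2 a0]

/-- derivative of the change of the base point -/
def jc3 (x u : R3) : R3 := (1 + x ⬝ᵥ x)⁻¹ • (u - u ⨯₃ x)

theorem mu3_neg {x u : R3} (hx : ‖x‖ ≤ 1 / 10) (hu : ‖u‖ ≤ 1 / 10) : (x + u) ⬝ᵥ -x < 1 ∧
    ‖mu3 (x + u) (-x)‖ ≤ 2 * ‖u‖ ∧ ‖mu3 (x + u) (-x) - jc3 x u‖ ≤ ‖u‖ ^ 2 := by
  have x0 := norm_nonneg x
  have u0 := norm_nonneg u
  have d := abs_dot3 u x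
  have ux : ‖u‖ * ‖x‖ ≤ ‖u‖ / 10 := by nlinarith
  have d1 := abs_le.1 d
  have s := dot_nonneg x
  have e : mu3 (x + u) (-x) = (1 + x ⬝ᵥ x + u ⬝ᵥ x)⁻¹ • (u - u ⨯₃ x) := by
    simp [mu3, add_assoc, sub_eq_add_neg]
  have n : ‖u - u ⨯₃ x‖ ≤ 2 * ‖u‖ * (9 / 10) :=
    (norm_sub_le_of_le le_rfl (norm_cross u x)).trans (by linarith)
  have p : 0 < 1 + x ⬝ᵥ x + u ⬝ᵥ x := by linarith
  refine ⟨by rw [dotProduct_neg, add_dotProduct]; linarith, ?_, ?_⟩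
  · rw [e, norm_smul, norm_inv, Real.norm_of_nonneg p.le, inv_mul_le_iff₀ p]
    nlinarith
  rw [e, jc3, ← sub_smul, inv_sub_inv p.ne' (by positivity), norm_smul, norm_div,
    Real.norm_of_nonneg (r := _ * _) (by positivity), div_mul_eq_mul_div, div_le_iff₀ (by positivity),
    sub_add_cancel_left, norm_neg, Real.norm_eq_abs]
  nlinarith [mul_le_mul d n (norm_nonneg _) (by positivity), mul_le_mul_of_nonneg_right ux u0,
    mul_le_mul_of_nonneg_left (show 9 / 10 * 1 ≤ (1 + x ⬝ᵥ x + u ⬝ᵥ x) * (1 + x ⬝ᵥ x) from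
      mul_le_mul (by linarith) (by linarith) zero_le_one p.le) (sq_nonneg ‖u‖)]

theorem jc3_le (x u : R3) : (‖x‖ ≤ 1 / 10 → ‖jc3 x u‖ ≤ 2 * ‖u‖) ∧
    (1 - 6 * ‖x‖ ^ 2) * (u ⬝ᵥ u) ≤ jc3 x u ⬝ᵥ jc3 x u ∧ jc3 x u ⬝ᵥ jc3 x u ≤ u ⬝ᵥ u := by
  have s := dot_nonneg x
  have t := dot_nonneg u
  have p : 0 < 1 + x ⬝ᵥ x := by linarith
  have e : jc3 x u ⬝ᵥ jc3 x u = (u ⬝ᵥ u + (u ⨯₃ x) ⬝ᵥ (u ⨯₃ x)) / (1 + x ⬝ᵥ x) ^ 2 := by
    simp only [jc3, smul_dotProduct, dotProduct_smul, sub_dotProduct, dotProduct_sub, dot_self_cross,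
      dotProduct_comm (u ⨯₃ x) u, smul_eq_mul]
    field_simp; ring
  have c : (u ⨯₃ x) ⬝ᵥ (u ⨯₃ x) ≤ u ⬝ᵥ u * x ⬝ᵥ x := by
    rw [cross_dot_cross, dotProduct_comm x u]; nlinarith [mul_self_nonneg (u ⬝ᵥ x)]
  have x3 : x ⬝ᵥ x ≤ 3 * ‖x‖ ^ 2 := ((le_abs_self _).trans (abs_dot3 x x)).trans_eq (by ring)
  refine ⟨fun hx => ?_, ?_, ?_⟩
  · rw [jc3, norm_smul, norm_inv, Real.norm_of_nonneg p.le, inv_mul_le_iff₀ p]
    nlinarith [norm_sub_le_of_le (le_refl ‖u‖) (norm_cross u x), norm_nonneg u, norm_nonneg x]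
  · rw [e, le_div_iff₀ (by positivity)]
    refine le_trans ?_ (le_add_of_nonneg_right (dot_nonneg _))
    rw [mul_right_comm]
    refine mul_le_of_le_one_left t ((mul_le_mul_of_nonneg_right (show _ ≤ 1 - 2 * x ⬝ᵥ x by linarith)
      (by positivity)).trans (by nlinarith [pow_nonneg s 3, sq_nonneg (x ⬝ᵥ x)]))
  · rw [e, div_le_iff₀ (by positivity)]
    nlinarith [mul_nonneg t s, mul_nonneg t (sq_nonneg (x ⬝ᵥ x))]

variable {l : ℕ} {N : Fin 4 → ℕ} [∀ i, NeZero (N i)] {U U' : Conf} {x u : IR l N → ℝ} {η : ℝ}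

/-- the value on a link -/
def av (x : IR l N → ℝ) (e : TS (fi l N) × Fin 4) : R3 := fun k => exN x (e, k)

/-- an operation on the values on the links -/
def lw (φ : R3 → R3 → R3) (x u : IR l N → ℝ) : IR l N → ℝ :=
  fun i => φ (av x i.1.1) (av u i.1.1) i.1.2

omit [∀ i, NeZero (N i)] in
theorem av_lw {φ : R3 → R3 → R3} (h : φ 0 0 = 0) (e : TS (fi l N) × Fin 4) :
    av (lw φ x u) e = φ (av x e) (av u e) := by
  by_cases t : tree l (lf e.1, e.2)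
  · have : ∀ y : IR l N → ℝ, av y e = 0 := fun y => funext fun k => dif_pos t
    rw [this, this, this, h]
  · exact funext fun k => dif_neg t

omit [∀ i, NeZero (N i)] in
theorem av_add (e : TS (fi l N) × Fin 4) : av (x + u) e = av x e + av u e := by
  funext k; simp only [av, exN, Pi.add_apply]; split_ifs <;> simp

theorem norm_av (x : IR l N → ℝ) (e : TS (fi l N) × Fin 4) : ‖av x e‖ ≤ ‖x‖ :=
  (norm_comp_le (e := Equiv.refl _) (exN x) e).trans (norm_exT x)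

theorem norm_le_av (h0 : 0 ≤ η) (h : ∀ e, ‖av x e‖ ≤ η) : ‖x‖ ≤ η :=
  (pi_norm_le_iff_of_nonneg h0).2 fun i => le_of_eq_of_le
    (congrArg norm (show exN x i = _ from dif_neg i.2).symm)
    ((norm_le_pi_norm (av x i.1.1) i.1.2).trans (h _))

theorem dot_av (x u : IR l N → ℝ) : x ⬝ᵥ u = ∑ e, av x e ⬝ᵥ av u e := by
  rw [show ∑ e, av x e ⬝ᵥ av u e = ∑ i, exN x i * exN u i from
    (Fintype.sum_prod_type fun i => exN x i * exN u i).symm,
    ← Fintype.sum_subtype_add_sum_subtype (trI l N), sum_eq_zero fun i _ => by simp [exN, i.2],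
    zero_add]
  exact sum_congr rfl fun i _ => by simp [exN, i.2]

/-- coordinates with respect to the new base point -/
def dl (x u : IR l N → ℝ) : IR l N → ℝ := lw (fun x u => mu3 (x + u) (-x)) x u

/-- their linearisation -/
def Jc (x : IR l N → ℝ) : Matrix (IR l N) (IR l N) ℝ := LinearMap.toMatrix'
  { toFun := lw jc3 x
    map_add' := fun u v => funext fun i => by
      simp only [lw, av_add, jc3, map_add, LinearMap.add_apply, Pi.add_apply, Pi.smul_apply,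
        Pi.sub_apply, smul_eq_mul]; ring
    map_smul' := fun c u => funext fun i => by
      have : av (c • u) i.1.1 = c • av u i.1.1 := by
        funext k; simp only [av, exN, Pi.smul_apply]; split_ifs <;> simp
      simp only [lw, this, jc3, map_smul, LinearMap.smul_apply, Pi.smul_apply, Pi.sub_apply,
        smul_eq_mul, RingHom.id_apply]; ring }

theorem av_Jc (e : TS (fi l N) × Fin 4) : av (Jc x *ᵥ u) e = jc3 (av x e) (av u e) := by
  rw [Jc, LinearMap.toMatrix'_mulVec]; exact av_lw (φ := jc3) (by simp [jc3]) e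

theorem Jc_le (x u : IR l N → ℝ) : (‖x‖ ≤ 1 / 10 → ‖Jc x *ᵥ u‖ ≤ 2 * ‖u‖) ∧
    (1 - 6 * ‖x‖ ^ 2) * (u ⬝ᵥ u) ≤ Jc x *ᵥ u ⬝ᵥ Jc x *ᵥ u ∧ Jc x *ᵥ u ⬝ᵥ Jc x *ᵥ u ≤ u ⬝ᵥ u := by
  simp only [dot_av, av_Jc, mul_sum]
  refine ⟨fun h => norm_le_av (by positivity) fun e => ?_, sum_le_sum fun e _ => le_trans ?_
    (jc3_le _ _).2.1, sum_le_sum fun e _ => (jc3_le _ _).2.2⟩
  · rw [av_Jc]; linarith [(jc3_le (av x e) (av u e)).1 ((norm_av x e).trans h), norm_av u e]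
  · exact mul_le_mul_of_nonneg_right (by
      linarith [pow_le_pow_left₀ (norm_nonneg _) (norm_av x e) 2]) (dot_nonneg _)

theorem dl_spec (hx : ‖x‖ ≤ 1 / 10) (hu : ‖u‖ ≤ 1 / 10) :
    rf (rf U (exN x)) (exN (dl x u)) = rf U (exN (x + u)) ∧ ‖dl x u‖ ≤ 2 * ‖u‖ ∧
      ‖dl x u - Jc x *ᵥ u‖ ≤ ‖u‖ ^ 2 := by
  have a := fun e => mu3_neg ((norm_av x e).trans hx) ((norm_av u e).trans hu)
  have b : ∀ e, av (dl x u) e = mu3 (av x e + av u e) (-av x e) := av_lw (by simp [mu3])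
  refine ⟨funext fun f => ?_, norm_le_av (by positivity) fun e => ?_,
    norm_le_av (by positivity) fun e => ?_⟩
  · show exS (av _ _) * (exS (av _ _) * _) = exS (av _ _) * _
    rw [b, ← exS_mul (a _).1, exS_neg, av_add, mul_assoc, inv_mul_cancel_left]
  · rw [b]; linarith [(a e).2.1, norm_av u e]
  · rw [eq_sub_of_add_eq ((av_add e).symm.trans (congrArg (av · e) (sub_add_cancel _ _))), b, av_Jc]
    exact (a e).2.2.trans (pow_le_pow_left₀ (norm_nonneg _) (norm_av u e) 2)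

theorem rf_rf (hx : ‖x‖ ≤ 1 / 10) (hu : ‖u‖ ≤ 1 / 10) :
    ∃ v, rf (rf U (exN x)) (exN u) = rf U (exN (x + v)) ∧ ‖v‖ ≤ 2 * ‖u‖ := by
  have a := fun e => mu3_near ((norm_av u e).trans hu) ((norm_av x e).trans hx)
  have b : ∀ e, av (lw mu3 u x) e = mu3 (av u e) (av x e) := av_lw (by simp [mu3])
  refine ⟨lw mu3 u x - x, funext fun f => ?_, norm_le_av (by positivity) fun e => ?_⟩
  · show exS (av _ _) * (exS (av _ _) * _) = exS (av _ _) * _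
    rw [add_sub_cancel, b, ← exS_mul (a _).1, mul_assoc]
  · rw [eq_sub_of_add_eq ((av_add e).symm.trans (congrArg (av · e) (sub_add_cancel _ _))), b]
    linarith [(a e).2, norm_av u e]

theorem rf_near (f : Lk) : Rb.Nr (2 * ‖x‖) (rf U (exN x) f) (U f) :=
  (((exS_near _).mono (mul_le_mul_of_nonneg_left (norm_av x _) two_pos.le)).right _).congr rfl
    (one_mul _)

theorem rf_tree (h : ∀ f, tree l f → U f = 1) (f : Lk) (hf : tree l f) : rf U (exN x) f = 1 := by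
  rw [rf, h f hf, mul_one, ← exS_zero]
  exact congrArg _ (funext fun k => dif_pos ((trI_cs f k).2 hf))

omit [∀ i, NeZero (N i)] in
theorem pv_rf (h : PV N U) (a : IL N → ℝ) : PV N (rf U a) :=
  (pv_of_cs fun x μ => exS fun k => a ((x, μ), k)).map₂ h (· * ·)

omit [∀ i, NeZero (N i)] in
theorem rf_zero : rf (M := N) U 0 = U := funext fun f => by
  rw [rf, show (fun k => (0 : IL N → ℝ) ((cs N f.1, f.2), k)) = 0 from rfl, exS_zero, one_mul]

theorem exists_rf (hU : PV (fi l N) U) (hU' : PV (fi l N) U') (t : ∀ f, tree l f → U f = 1)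
    (t' : ∀ f, tree l f → U' f = 1) (h : ∀ f, Rb.Nr η (U f) (U' f)) (h1 : η ≤ 1 / 2) :
    ∃ x : IR l N → ℝ, U = rf U' (exN x) ∧ ‖x‖ ≤ 2 * η := by
  have a0 : ∀ f, Rb.Nr η (U f * (U' f)⁻¹) 1 := fun f => by
    have := (h f).right (U' f)⁻¹
    rwa [mul_inv_cancel] at this
  have a := fun f => ch_cS_le (g := U f * (U' f)⁻¹) (a0 f) h1
  let x : IR l N → ℝ := fun i =>
    (ch (cS (U (lf i.1.1.1, i.1.1.2) * (U' (lf i.1.1.1, i.1.1.2))⁻¹)) i.1.2).re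
  have b : ∀ e, cR (av x e) = ch (cS (U (lf e.1, e.2) * (U' (lf e.1, e.2))⁻¹)) := fun e => by
    by_cases h : tree l (lf e.1, e.2)
    · rw [t _ h, t' _ h, mul_inv_cancel, cS_one, ch_one,
        show av x e = 0 from funext fun k => dif_pos h, cR_zero]
    · funext k
      exact Complex.ext (dif_neg h) ((Complex.ofReal_im _).trans (ch_real _ k).symm)
  refine ⟨x, funext fun f => ?_, norm_le_av (by linarith [(norm_nonneg _).trans (h (0, 0))])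
    fun e => by rw [← norm_cR, b]; exact (a _).2⟩
  rw [rf, ← mul_inv_eq_iff_eq_mul]
  refine cS_inj ((ex_ch (a f).1).symm.trans ?_)
  rw [cS_exS, show (fun k => exN x ((cs (fi l N) f.1, f.2), k)) = av x (cs _ f.1, f.2) from rfl, b,
    hU.lf_cs, hU'.lf_cs]

theorem Ur_pf (s : V →ₗ[ℝ] V) (W : Conf) {M : Fin 4 → ℕ} (a : IL M → ℝ) :
    Ur l s W (pf a) = rf (Ub l s W) a := funext fun f => by rw [rf, exS_eq]; rfl

omit [∀ i, NeZero (N i)] in
theorem pv_Ub (s : V →ₗ[ℝ] V) (h : PV N U) : PV (fi l N) (Ub l s U) := fun μ => by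
  rw [show ((fi l N μ : ℕ) : ℤ) • un μ = up l ((N μ : ℤ) • un μ) by
    funext i; simp [up_apply, fi, mul_assoc], ← Ub_sh, h μ]

end Pool.Agent.Lib.MP_7f377f_mp.RG.Q4.Af
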