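import Pool.Agent.Lib.MP_7f377f_mp.Q4TrG

/-! The tree step: estimates on good fields. -/

noncomputable section

namespace Pool.Agent.Lib.MP_7f377f_mp.RG.Q4

open Finset

attribute [local irreducible] box lbox

/-- the part of a field on the block `y` -/
def bpt (l : ℕ) (y : St) (v : Fld) : Fld := fun f => if yo l f.1 = y then v f else 0

theorem sum_single_blk (l : ℕ) (y : St) (v : Fld) :
    ∑ e ∈ lbox l, (Pi.single (e.1 + up l y, e.2) (v (e.1 + up l y, e.2)) : Fld) = bpt l y v := by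
  funext f
  rw [Finset.sum_apply, bpt]
  split_ifs with h
  · rw [sum_eq_single (f.1 - up l y, f.2) (fun e _ he => Pi.single_eq_of_ne (fun h' => he (by
      simp [h'])) _) fun h' => (h' (mem_lbox.2 (h ▸ sub_up_yo_mem l f.1))).elim]
    simp
  · exact sum_eq_zero fun e he => Pi.single_eq_of_ne (fun h' => h (by
      rw [h']; exact Op.yo_add_box (mem_lbox.1 he) y)) _

theorem sm_bpt {l R : ℕ} {α : ℝ} {v : Fld} (h : Sm R α v) (y : St) : Sm R α (bpt l y v) :=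
  fun e he => by
    rw [bpt]
    split_ifs
    exacts [h e he, norm_zero.trans_le h.nonneg]

theorem mb_Bd {l r c : ℕ} {τ : ℝ} {m : BF} {s : V →ₗ[ℝ] V} (h : Lin l r c τ m s) (k : ℕ) :
    Bd (r + k) (r + k) ((LL l : ℝ) ^ c) (mb l k m s) := fun a b δ δ' ha hb => by
  have h1 := fun y (hy : y ∈ box k) => h.mn_bd _ _ _ _ (ha.sh hy) (hb.sh hy)
  have h0 := h1 0 (zero_mem_box k)
  have h2 := (abs_sum_le_sum_abs _ _).trans (sum_le_card_nsmul _ _ _ h1)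
  have h3 : (0 : ℝ) < (box k).card := Nat.cast_pos.2 (card_pos.2 ⟨0, zero_mem_box k⟩)
  rw [sh_zero, sh_zero] at h0
  rw [nsmul_eq_mul, ← inv_mul_le_iff₀ h3, ← abs_of_pos (inv_pos.2 h3), ← abs_mul] at h2
  rw [mb_eq, abs_mul, abs_of_pos (by norm_num)]
  linarith [abs_add_le (mn l m s a b) (((box k).card : ℝ)⁻¹ * ∑ y ∈ box k, mn l m s (sh y a) (sh y b))]

section tr

variable {l R R' : ℕ} {u : St → S3} {W W' : Cf} (e : Agr R W (gS u W'))
include e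

theorem Bx_trf (hR : R' + 1 ≤ R) : Agr R' (Bx 0 W) (adF (fun _ => cS (u 0)) (Bx 0 W')) :=
  Bx_gauge (fun x => uni_cS (u x)) 0 W' ▸ Bx_agr (e.mono hR)

theorem Ay_trf (hR : 1 ≤ R) (a : Fld) : Agr (3 * l + 1) (Ay l 0 W a)
    (adF (fun _ => cS (u 0)) (Ay l 0 W' (aS l (fun x => (u x)⁻¹) a))) := by
  rw [← Ay_gauge (u := fun x => cS (u x)) fun _ => uni_cS _]
  exact Ay_agr (zero_mem_box 0) (e.mono hR) fun f _ => (congrFun (aS_inv l u a) f).symm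

end tr

namespace Nt

variable {t : Nt} {r c n R : ℕ} {τ P δ d α β : ℝ} {m : BF} {s : V →ₗ[ℝ] V} {B A A' v a b : Fld}
  {W W' : Cf} {W0 : Conf} {y y' : St}

theorem Lj.xi_blk (j : t.Lj W y A) : t.xi W A v y y' = j1 (t.FF W y) A (bpt t.O.l y' v) := by
  rw [j.xi_eq]
  obtain ⟨-, L, -, hL, -⟩ := j
  simp only [hL, ← map_sum, sum_single_blk]

variable (h : t.Ok r c τ m s P δ)
include h

theorem Lj.agr (j : t.Lj W' y A') (hy : y ∈ box n) (hW : Agr (n + r / 4 + 2) W W')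
    (hA : Agr (fb t.O.l (n + 1)) A A') : t.Lj W y A := by
  have e : (fun w => t.FF W y (A + w)) = fun w => t.FF W' y (A' + w) :=
    funext fun w => FF_agr h hy hW fun e he => by simp only [Pi.add_apply, hA e he]
  unfold Lj j1 j2 at j ⊢
  rwa [e]

variable (z : t.Sz c τ P δ d)
include z

/-! ### flat fields -/

section flat

variable (hB : ∀ e, ‖B e‖ ≤ d)
include hB

theorem Bx_flat (hR : R ≤ t.O.l) : Sm R ((LL t.O.l : ℝ) ^ 3 * d ^ 2) (Bx 0 (exF B) - cg B) ∧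
    Sm R ((LL t.O.l : ℝ) ^ 2 * d) (Bx 0 (exF B)) ∧ Sm R ((LL t.O.l : ℝ) ^ 2 * d) (cg B) := by
  have d0 := z.d0
  have d1 := h.d_le z
  have L0 := h.op.LL_ge
  have s1 := h.small' z (j := 1) (by omega)
  have r1 : (R : ℝ) + 1 ≤ LL t.O.l := by exact_mod_cast (by unfold LL; omega : R + 1 ≤ LL t.O.l)
  have r2 := mul_le_mul_of_nonneg_right r1 d0.le
  have r0 : (0 : ℝ) ≤ R := R.cast_nonneg
  have k1 : Sm R ((LL t.O.l : ℝ) ^ 3 * d ^ 2) (Bx 0 (exF B) - cg B) := by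
    refine (Bx_ap (Ap_exF (fun e _ => hB e) (by linarith)) (by nlinarith) (by linarith)).mono le_rfl
      (le_trans ?_ (h.up (C := 110000) (i := 2) (by norm_num) (by norm_num) (sq_nonneg d)))
    calc _ ≤ 10 ^ 4 * ((LL t.O.l : ℝ) ^ 2 * d ^ 2 + LL t.O.l ^ 2 * (10 * d ^ 2)) := by
          gcongr
          nlinarith
      _ = _ := by ring
  have k2 : Sm R (3 * R * (4 * d)) (cg B) := Sm_cg (Sm.cv fun e _ => hB e)
  have k3 := h.up (C := 24) (i := 1) (j := 2) (by norm_num) (by norm_num) d0.le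
  have k4 : (LL t.O.l : ℝ) ^ 3 * d ^ 2 + 3 * R * (4 * d) ≤ LL t.O.l ^ 2 * d := by
    nlinarith [mul_le_mul_of_nonneg_left s1 (by positivity : 0 ≤ (LL t.O.l : ℝ) ^ 2 * d)]
  exact ⟨k1, by simpa using (k1.add k2).mono le_rfl k4, k2.mono le_rfl (by nlinarith)⟩

theorem cx_flat {k : BF} (hR : R ≤ t.O.l) (hk : Bd R R ((LL t.O.l : ℝ) ^ c) k)
    (g1 : ∀ u b, k (gr u) b = 0) (g2 : ∀ u b, k b (gr u) = 0) :
    ‖cx k (Bx 0 (exF B)) (Bx 0 (exF B)) - cx k B B‖ ≤ (LL t.O.l : ℝ) ^ (c + 6) * d ^ 3 := by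
  obtain ⟨a1, a2, a3⟩ := Bx_flat h z hB hR
  have := norm_add_le_of_le (cx_bd hk a1 a2) (cx_bd hk a3 a1)
  rw [cx_sub_left, cx_sub_right, sub_add_sub_cancel, JS.cx_cg_left g1, JS.cx_cg_right g2] at this
  exact this.trans (le_of_eq_of_le (by ring) (h.up (C := 24) (i := c + 5) (by norm_num) (by omega)
    (pow_pos z.d0 3).le))

theorem mn_flat : ‖cx (mn t.O.l m s) (Bx 0 (exF B)) (Bx 0 (exF B)) - cx (mn t.O.l m s) B B‖ ≤
    (LL t.O.l : ℝ) ^ (c + 6) * d ^ 3 :=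
  cx_flat h z hB (by have := h.r_le; omega) h.lin.mn_bd (JS.mn_gr h.lin.gauge h.lin.s_gauge)
    (JS.mn_gr' h.lin.symm h.lin.gauge h.lin.s_gauge)

theorem mb_flat : ‖cx (mb t.O.l 3 m s) (Bx 0 (exF B)) (Bx 0 (exF B)) - cx (mb t.O.l 3 m s) B B‖ ≤
    (LL t.O.l : ℝ) ^ (c + 6) * d ^ 3 :=
  cx_flat h z hB (by have := h.r_le; have := h.r_ge; omega) (mb_Bd h.lin 3)
    (fun u b => by simp [mb_eq, sh_gr, JS.mn_gr h.lin.gauge h.lin.s_gauge])
    fun u b => by simp [mb_eq, sh_gr, JS.mn_gr' h.lin.symm h.lin.gauge h.lin.s_gauge]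

theorem xx_flat (ha : Sm (3 * t.O.l + 1) α a) :
    ‖cx (xx t.O.l m s) (Ay t.O.l 0 (exF B) a) (Bx 0 (exF B)) - cx (xx t.O.l m s) a B‖ ≤
      (LL t.O.l : ℝ) ^ (c + 4) * (d ^ 2 * α) := by
  obtain ⟨a1, a2, -⟩ := Bx_flat h z hB (R := r) (by have := h.r_le; omega)
  have a3 := (Ay_near hB (h.d_le z) 0 (by rwa [up_zero, sh_zero])).1
  rw [up_zero, sh_zero] at a3
  have := norm_add_le_of_le (cx_bd h.lin.xx_bd a3 a2) (cx_bd h.lin.xx_bd ha a1)
  rw [cx_sub_left, cx_sub_right, sub_add_sub_cancel,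
    JS.cx_cg_right (JS.xx_gr h.lin.symm h.lin.gauge h.lin.s_gauge)] at this
  have x0 := mul_nonneg (sq_nonneg d) ha.nonneg
  have k1 := h.up (C := 14400) (i := c + 2) (j := c + 4) (by norm_num) (by omega) x0
  have k2 := h.up (C := 24) (i := c + 3) (j := c + 4) (by norm_num) (by omega) x0
  refine this.trans ?_
  rw [pow_add _ c 2] at k1
  rw [pow_add _ c 3] at k2
  linarith

omit hB in
theorem al_sq : (LL t.O.l : ℝ) ^ (c + 7) * (P * t.al c τ P d ^ 2) ≤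
    (LL t.O.l : ℝ) ^ (7 * c + 25) * (P ^ 2 * (d ^ 3 + τ * d ^ 2)) := by
  have d0 := z.d0
  have := h.P1
  have := h.τ0
  calc _ = (LL t.O.l : ℝ) ^ (7 * c + 25) * (P ^ 2 * (d ^ 3 + τ * d ^ 2)) * (t.q c P * (d + τ)) := by
        unfold al q; ring
    _ ≤ _ := mul_le_of_le_one_right (by positivity) z.d2

theorem a0_flat : ‖t.a0 (exF B) - cx (mn t.O.l m s) B B‖ ≤
    2 * ((LL t.O.l : ℝ) ^ (7 * c + 25) * (P ^ 2 * (d ^ 3 + τ * d ^ 2))) := by
  have d0 := z.d0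
  have P1 := h.P1
  have t0 := h.τ0
  have h1 := h.ge.exp B 0 d (by linarith [z.d1]) hB fun _ _ => by
    rw [Pi.zero_apply, norm_zero]; have := LL_pos' t.O.l; positivity
  have h2 := norm_add_le_of_le ((a0_sub h z hB).trans (al_sq h z)) h1
  simp only [Qf, cx_zero_left, mul_zero, add_zero, sub_add_sub_cancel] at h2
  refine h2.trans ?_
  have : 1 * (P * (d ^ 3 + 0)) ≤ (LL t.O.l : ℝ) ^ (7 * c + 25) * (P ^ 2 * (d ^ 3 + τ * d ^ 2)) := by
    gcongr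
    exacts [one_le_pow₀ (JS.one_le_LL _), le_self_pow₀ P1 two_ne_zero, by positivity]
  linarith

theorem tn_flat : ‖t.tn (exF B) - cx (mb t.O.l 3 m s) B B‖ ≤
    2 * ((LL t.O.l : ℝ) ^ (7 * c + 25) * (P ^ 2 * (d ^ 3 + τ * d ^ 2))) := by
  refine le_of_eq_of_le (congrArg _ ?_) (avg_le fun y (_ : y ∈ box 3) =>
    a0_flat h z (B := sh y B) fun _ => hB _)
  rw [tn, cx_mb, sum_sub_distrib, sh_zero]
  simp only [show ∀ y, exF (sh y B) = sh y (exF B) from fun _ => rfl]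
  ring

end flat

theorem cube_le {x : ℝ} (hx : x ≤ 2 * ((LL t.O.l : ℝ) ^ (7 * c + 25) * (P ^ 2 * (d ^ 3 + τ * d ^ 2))) +
    (LL t.O.l : ℝ) ^ (c + 6) * d ^ 3) :
    x ≤ (LL t.O.l : ℝ) ^ (7 * c + 26) * (P ^ 2 * (d ^ 3 + τ * d ^ 2)) := by
  have d0 := z.d0
  have P1 := h.P1
  have t0 := h.τ0
  have k := h.up (C := 3) (i := 7 * c + 25) (j := 7 * c + 26) (x := P ^ 2 * (d ^ 3 + τ * d ^ 2))
    (by norm_num) (by omega) (by positivity)
  have : (LL t.O.l : ℝ) ^ (c + 6) * (1 * (d ^ 3 + 0)) ≤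
      (LL t.O.l : ℝ) ^ (7 * c + 25) * (P ^ 2 * (d ^ 3 + τ * d ^ 2)) :=
    mul_le_mul (pow_le_pow_right₀ (JS.one_le_LL _) (by omega)) (by
      gcongr
      exacts [one_le_pow₀ P1, by positivity]) (by positivity) (pow_pos (LL_pos' _) _).le
  linarith

/-! ### good fields -/

theorem gd_gw (g : Gd R d W) : ∃ W', t.Gw W' ∧ Agr R W W' :=
  let ⟨u, _, hB, e⟩ := g
  ⟨_, (gw_exF h z hB).cov h u, e⟩

theorem gd_gw_real (g : Gd R d (cC W0)) : ∃ W1, t.Gw (cC W1) ∧ Agr R (cC W0) (cC W1) :=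
  let ⟨u, _, W1, hB, _, e1, e⟩ := g.real ((h.d_le z).trans (by norm_num))
  ⟨W1, e1 ▸ (gw_exF h z hB).cov h u, e⟩

theorem lj_gd (g : Gd (n + 1 + t.rA r) d W) (hy : y ∈ box n) :
    t.Lj W y (t.As W) ∧ t.Lj W y 0 :=
  let ⟨_, k, e⟩ := gd_gw h z g
  ⟨(k.As y).agr h hy (e.mono (by unfold rA; omega)) (As_agr h e),
    (k.zero y).agr h hy (e.mono (by unfold rA; omega)) fun _ _ => rfl⟩

omit h z in
theorem sm_inv (hv : Sm R α (sh (up t.O.l y) v)) (u : St → S3) :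
    Sm R (2 * α) (sh (up t.O.l y) (aS t.O.l (fun x => (u x)⁻¹) v)) :=
  fun e he => (norm_adq_two _ _).trans (mul_le_mul_of_nonneg_left (hv e he) zero_le_two)

theorem As_gd (g : Gd (n + t.rA r) d W) : Sm (fb t.O.l n) (2 * t.al c τ P d) (t.As W) := by
  obtain ⟨u, B, hB, e⟩ := g
  intro f hf
  rw [As_agr h e f hf, As_cov h u (gw_exF h z hB)]
  exact sm_aS (fun e _ => As_bd h z hB e) u f hf

theorem Yb_gd (g : Gd (n + 1 + t.rA r) d W) (hy : y ∈ box n)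
    (ha : Sm (3 * t.O.l + 1) α (sh (up t.O.l y) a)) (α0 : 0 < α)
    (hb : Sm (3 * t.O.l + 1) β (sh (up t.O.l y) b)) (β0 : 0 < β) :
    ‖t.Yb W y a b‖ ≤ 4 * ((LL t.O.l : ℝ) ^ (c + 7) * (P * d * α * β)) := by
  obtain ⟨u, B, hB, e⟩ := g
  have := Yb_bd h z hB (sm_inv ha u) (by positivity) (sm_inv hb u) (by positivity)
  rw [← Yb_cov h u (gw_exF h z hB), aS_inv, aS_inv,
    ← Yb_agr h hy e (fun _ _ => rfl) fun _ _ => rfl] at this
  exact this.trans_eq (by ring)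

theorem Yq_gd (g : Gd (n + 1 + t.rA r) d W) (hy : y ∈ box n)
    (hv : Sm (3 * t.O.l + 1) α (sh (up t.O.l y) v)) (α0 : 0 < α) :
    ‖t.Yq W v y‖ ≤ 4 * ((LL t.O.l : ℝ) ^ (c + 7) * (P * d * α * α)) := by
  obtain ⟨u, B, hB, e⟩ := g
  have := Yq_bd h z hB (sm_inv hv u) (by positivity)
  rw [← Yq_cov h u (gw_exF h z hB), aS_inv, ← Yq_agr h hy e fun _ _ => rfl] at this
  exact this.trans_eq (by ring)

theorem rem3_gd (g : Gd (n + 1 + t.rA r) d W) (hy : y ∈ box n)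
    (hv : Sm (3 * t.O.l + 1) α (sh (up t.O.l y) v)) (α0 : 0 < α) (α1 : α ≤ 2 * d / LL t.O.l) :
    ‖t.rem3 W v y‖ ≤ 768 * P * LL t.O.l ^ 3 * α ^ 3 := by
  obtain ⟨u, B, hB, e⟩ := g
  have := rem3_bd h z hB (sm_inv hv u) (by positivity) (by
    rw [mul_div_assoc] at α1 ⊢; linarith)
  rw [← rem3_cov h u (gw_exF h z hB), aS_inv, ← rem3_agr h hy e fun _ _ => rfl] at this
  exact this.trans_eq (by ring)

theorem gv_gd (g : Gd (n + 3 + t.rA r) d W) (hy : y ∈ box n) (hv : Sm t.O.l α (sh (up t.O.l y) v))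
    (ht : ∀ f, tree t.O.l f → v f = 0) : ‖t.gv W (t.As W) v y‖ ≤ 24 * (LL t.O.l : ℝ) ^ 4 *
      (t.th c P d ^ t.p * ((LL t.O.l : ℝ) ^ 2 * (P * (d ^ 2 + τ * d))) * α) := by
  obtain ⟨u, B, hB, e⟩ := g
  have := gv_As h z hB (sm_inv hv u) fun f hf => by rw [aS, adF, ht f hf, adq_zero]
  rw [← gv_cov h u (gw_exF h z hB).As, aS_inv, ← As_cov h u (gw_exF h z hB),
    ← gv_agr h hy (e.mono (by unfold rA; omega)) (As_agr h e) fun _ _ => rfl] at this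
  exact this.trans_eq (by ring)

/-- the energy of a block -/
theorem FF_gd (g : Gd (r + 1) d W) (hA : Sm (3 * t.O.l + 1) (d / LL t.O.l / 2) A) :
    ‖t.FF W 0 A - Qf t.O.l m s (Bx 0 W) (Ay t.O.l 0 W A)‖ ≤
      (LL t.O.l : ℝ) ^ (c + 7) * (P * d ^ 3) := by
  obtain ⟨u, B, hB, e⟩ := g
  have r0 := h.r_ge
  have d0 := z.d0
  have P1 := h.P1
  have L1 := JS.one_le_LL t.O.l
  have a1 : Sm (3 * t.O.l + 1) (d / LL t.O.l) (aS t.O.l (fun x => (u x)⁻¹) A) :=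
    (sm_aS hA _).mono le_rfl (by linarith)
  have a2 := a1.mono le_rfl (div_le_self d0.le L1)
  have h1 := h.ge.exp B _ d (by linarith [z.d1]) hB a1
  have h2 := mn_flat h z hB
  have h3 := xx_flat h z hB a2
  have h4 := hh_near h z hB 0 (by rwa [up_zero, sh_zero]) (by rwa [up_zero, sh_zero])
  have e1 := Bx_trf e le_rfl
  have e2 := Ay_trf (l := t.O.l) e (by omega) A
  rw [h.hO, up_zero, sh_zero] at h4
  rw [FF_agr h (zero_mem_box 0) (e.mono (by omega)) fun f _ => (congrFun (aS_inv _ u A) f).symm,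
    FF_cov h, FF, up_zero, sh_zero, sh_zero, Qf, cx_agr h.lin.mn_rng e1 e1,
    cx_agr h.lin.xx_rng e2 e1, cx_agr h.lin.hh_rng e2 e2, cx_adF _ h.lin.mn_rng (uni_cS _),
    cx_adF _ h.lin.xx_rng (uni_cS _), cx_adF _ h.lin.hh_rng (uni_cS _)]
  have h5 := norm_sub_le_of_le (norm_sub_le_of_le (norm_sub_le_of_le h1 h2)
    (norm_mul_le_of_le (Complex.norm_two).le h3)) h4
  refine (le_of_eq_of_le (congrArg _ (by rw [Qf]; ring)) h5).trans ?_
  have k := h.up (C := 5) (i := c + 6) (j := c + 7) (x := P * d ^ 3) (by norm_num) (by omega)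
    (by positivity)
  have k1 : 1 * (P * d ^ 3) ≤ (LL t.O.l : ℝ) ^ (c + 6) * (P * d ^ 3) := by
    gcongr; exact one_le_pow₀ L1
  have k2 : (LL t.O.l : ℝ) ^ (c + 6) * (1 * d ^ 3) ≤ LL t.O.l ^ (c + 6) * (P * d ^ 3) := by gcongr
  have k3 : (LL t.O.l : ℝ) ^ (c + 4) * d ^ 3 ≤ LL t.O.l ^ (c + 6) * d ^ 3 := by gcongr; omega
  nlinarith

/-- the differential of the energy of a block -/
theorem j1_gd (g : Gd (r + 1) d W) (hA : Sm (3 * t.O.l + 1) β A) (β1 : β ≤ 2 * d / LL t.O.l) :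
    t.Lj W 0 A ∧ ∀ {α a}, Sm (3 * t.O.l + 1) α a → 0 < α →
      ‖j1 (t.FF W 0) A a - 2 * cx (xx t.O.l m s) (Ay t.O.l 0 W a) (Bx 0 W)‖ ≤
        (LL t.O.l : ℝ) ^ (c + 6) * ((P * d ^ 2 + β) * α) ∧
      ‖j1 (t.FF W 0) A a‖ ≤ (LL t.O.l : ℝ) ^ (c + 6) * (P * d * α) := by
  obtain ⟨u, B, hB, e⟩ := g
  have r0 := h.r_ge
  have d0 := z.d0
  have d1 := h.d_le z
  have P1 := h.P1
  have β0 := hA.nonneg
  have a0 := sm_aS (l := t.O.l) hA fun x => (u x)⁻¹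
  have a1 := a0.mono le_rfl (show _ ≤ 4 * d / LL t.O.l by rw [mul_div_assoc] at β1 ⊢; linarith)
  have ea : ∀ A : Fld, Agr (fb t.O.l (0 + 1)) A (aS t.O.l u (aS t.O.l (fun x => (u x)⁻¹) A)) :=
    fun A f _ => (congrFun (aS_inv _ u A) f).symm
  refine ⟨((lj_of h z hB (y := 0) (by rwa [up_zero, sh_zero])).cov h u).agr h (zero_mem_box 0)
    (e.mono (by omega)) (ea A), fun {α a} ha α0 => ?_⟩
  have a2 := sm_aS (l := t.O.l) ha fun x => (u x)⁻¹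
  have h1 := ((h.ge.blk h.lin d0 z.d1 hB a1).2.2 a2 (by positivity)).1
  have h2 := h.hh_bd a2 a0
  have h3 := xx_flat h z hB a2
  have h4 := cx_bd h.lin.xx_bd a2 (fun e _ => hB e : Sm r d B)
  have e1 := Bx_trf e le_rfl
  have e2 := Ay_trf (l := t.O.l) e (by omega) a
  rw [j1_agr h (zero_mem_box 0) (e.mono (by omega)) (ea A) (ea a), j1_cov h, j1_FF, up_zero, sh_zero,
    sh_zero, sh_zero, cx_agr h.lin.xx_rng e2 e1, cx_adF _ h.lin.xx_rng (uni_cS _)]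
  have two : ∀ {x : ℂ} {y : ℝ}, ‖x‖ ≤ y → ‖2 * x‖ ≤ 2 * y := norm_mul_le_of_le Complex.norm_two.le
  have h5 := norm_add_le_of_le h1 (two h2)
  have x1 : 0 ≤ P * d ^ 2 * α := by positivity
  have x2 : 0 ≤ P * d * α := by positivity
  have k1 := h.up (C := 9216) (i := 1) (j := c + 6) (by norm_num) (by omega) x1
  have k2 := h.up (C := 8) (i := c + 5) (j := c + 6) (by norm_num) (by omega) (mul_nonneg β0 α0.le)
  have k3 := h.up (C := 12) (i := c + 4) (j := c + 6) (by norm_num) (by omega) x1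
  have k4 : (LL t.O.l : ℝ) ^ (c + 4) * (1 * d ^ 2 * α) ≤ LL t.O.l ^ (c + 4) * (P * d ^ 2 * α) := by
    gcongr
  refine ⟨(le_of_eq_of_le (congrArg _ (by ring)) (norm_sub_le_of_le h5 (two h3))).trans
    (by nlinarith [mul_nonneg (pow_pos (LL_pos' t.O.l) (c + 6)).le x1]),
    (le_of_eq_of_le (congrArg _ (by ring)) (norm_add_le_of_le h5 (two h4))).trans ?_⟩
  have L0 := LL_pos' t.O.l
  have k5 := h.up (C := 30) (i := 1) (j := c + 6) (by norm_num) (by omega) x2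
  have k6 := h.up (C := 48) (i := c + 4) (j := c + 6) (by norm_num) (by omega) x2
  have k7 := h.up (C := 144) (i := c) (j := c + 6) (by norm_num) (by omega) x2
  have k8 : (LL t.O.l : ℝ) ^ (c + 4) * (LL t.O.l * β * α) ≤ LL t.O.l ^ (c + 4) * (2 * (P * d) * α) := by
    rw [le_div_iff₀' L0] at β1
    exact mul_le_mul_of_nonneg_left (mul_le_mul_of_nonneg_right
      (by linarith [mul_le_mul_of_nonneg_right P1 d0.le]) α0.le) (pow_pos L0 _).le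
  have k9 : (LL t.O.l : ℝ) ^ c * (1 * d * α) ≤ LL t.O.l ^ c * (P * d * α) := by gcongr
  have k10 := mul_le_mul_of_nonneg_left d1 (mul_nonneg L0.le x2)
  rw [pow_succ _ (c + 4)]
  nlinarith

theorem j1_As_gd (g : Gd (r + 1 + t.rA r) d W) (ha : Sm (3 * t.O.l + 1) α a) (α0 : 0 < α) :
    ‖j1 (t.FF W 0) (t.As W) a - 2 * cx (xx t.O.l m s) (Ay t.O.l 0 W a) (Bx 0 W)‖ ≤
      (LL t.O.l : ℝ) ^ (9 * c + 31) * (P * (d ^ 2 + τ * d) * α) := by
  obtain ⟨a0, a1⟩ := h.al_le z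
  have r0 := h.r_ge
  have d0 := z.d0
  have P1 := h.P1
  have t0 := h.τ0
  have k := ((j1_gd h z (g.mono (by omega) le_rfl) (Op.fb_one _ ▸ As_gd h z (n := 1)
    (g.mono (by omega) le_rfl)) (by rw [mul_div_assoc]; linarith)).2 ha α0).1
  have k1 : 1 * (P * (d ^ 2 + 0)) ≤ t.al c τ P d := by
    unfold al
    gcongr
    exacts [one_le_pow₀ (JS.one_le_LL _), by positivity]
  refine k.trans (le_trans ?_ (h.up (C := 3) (i := 9 * c + 30) (by norm_num) (by omega)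
    (by positivity)))
  calc _ ≤ (LL t.O.l : ℝ) ^ (c + 6) * (3 * t.al c τ P d * α) := by gcongr; linarith
    _ = _ := by unfold al; ring

theorem a0_gd (g : Gd (r + 2 + t.rA r) d W) : ‖t.a0 W - cx (mn t.O.l m s) (Bx 0 W) (Bx 0 W)‖ ≤
    (LL t.O.l : ℝ) ^ (7 * c + 26) * (P ^ 2 * (d ^ 3 + τ * d ^ 2)) := by
  obtain ⟨u, B, hB, e⟩ := g
  have e1 := Bx_trf e (R' := r) (by omega)
  rw [a0_agr h (e.mono (by omega)), a0_cov h u (gw_exF h z hB), cx_agr h.lin.mn_rng e1 e1,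
    cx_adF _ h.lin.mn_rng (uni_cS _), ← sub_sub_sub_cancel_right]
  exact cube_le h z (norm_sub_le_of_le (a0_flat h z hB) (mn_flat h z hB))

theorem tn_gd (g : Gd (r + 5 + t.rA r) d W) : ‖t.tn W - cx (mb t.O.l 3 m s) (Bx 0 W) (Bx 0 W)‖ ≤
    (LL t.O.l : ℝ) ^ (7 * c + 26) * (P ^ 2 * (d ^ 3 + τ * d ^ 2)) := by
  obtain ⟨u, B, hB, e⟩ := g
  have e1 := Bx_trf e (R' := r + 3) (by omega)
  rw [tn_agr h (e.mono (by omega)), tn_cov h u (gw_exF h z hB), cx_agr (mb_rng h.lin 3) e1 e1,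
    cx_adF _ (mb_rng h.lin 3) (uni_cS _), ← sub_sub_sub_cancel_right]
  exact cube_le h z (norm_sub_le_of_le (tn_flat h z hB) (mb_flat h z hB))

/-! ### reality -/

variable (hr : GR t.G)
include hr

theorem real_gd (g : Gd (n + 3 + t.rA r) d (cC W0)) (hy : y ∈ box n) (hv : RealF v) :
    (∀ y', (t.xi (cC W0) (t.As (cC W0)) v y y').im = 0) ∧ (∀ y', (t.xi (cC W0) 0 v y y').im = 0) ∧
    (t.L1 (cC W0) (t.As (cC W0)) v y).im = 0 ∧ (t.gv (cC W0) (t.As (cC W0)) v y).im = 0 ∧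
    (t.Yq (cC W0) v y).im = 0 ∧ (t.rem3 (cC W0) v y).im = 0 ∧
    (t.FF (cC W0) y (t.As (cC W0) + v)).im = 0 := by
  obtain ⟨W1, k, e⟩ := gd_gw_real h z g
  have a := As_agr h e
  have a1 := a.mono (Op.fb_mono _ (show n + 1 ≤ n + 3 by omega))
  have e1 : Agr (n + r / 4 + 2) (cC W0) (cC W1) := e.mono (by unfold rA; omega)
  have e2 : Agr (n + 1 + t.rA r) (cC W0) (cC W1) := e.mono (by omega)
  have ra := As_real hr k
  have xa : ∀ {A A'} y', Agr (fb t.O.l (n + 1)) A A' → t.xi (cC W0) A v y y' = t.xi (cC W1) A' v y y' :=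
    fun y' hA => sum_congr rfl fun e he => sum_congr rfl fun k _ => by
      rw [j1_agr h hy e1 hA fun _ _ => rfl]
  refine ⟨fun y' => ?_, fun y' => ?_, ?_, ?_, ?_, ?_, ?_⟩
  · rw [xa y' a1]
    exact xi_real hr (k.As y) ra hv
  · rw [xa y' fun _ _ => rfl]
    exact xi_real hr (k.zero y) (fun _ _ => rfl) hv
  · rw [L1_agr h hy e1 a1 fun _ _ => rfl]
    exact L1_real hr (k.As y) ra hv
  · rw [gv_agr h hy (e.mono (by unfold rA; omega)) a fun _ _ => rfl]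
    exact gv_real hr k.As ra hv
  · rw [Yq_agr h hy e2 fun _ _ => rfl]
    exact Yq_real hr k hv
  · rw [rem3_agr h hy e2 fun _ _ => rfl]
    exact rem3_real hr k hv
  · rw [FF_agr h hy e1 (A' := t.As (cC W1) + v) fun e he => by simp only [Pi.add_apply, a1 e he]]
    exact FF_real hr fun e k => by simp [ra e k, hv e k]

theorem xi0_real_gd (g : Gd (n + t.rA r) d (cC W0)) (hy : y ∈ box n) (hy' : y' ∈ box n) :
    (t.xi (cC W0) 0 (t.As (cC W0)) y y').im = 0 := by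
  obtain ⟨W1, k, e⟩ := gd_gw_real h z g
  rw [xi_agr h hy hy' (e.mono (by unfold rA; omega)) (fun _ _ => rfl) (As_agr h e)]
  exact xi_real hr (k.zero y) (fun _ _ => rfl) (As_real hr k)

theorem a0_real_gd (g : Gd (2 + t.rA r) d (cC W0)) : (t.a0 (cC W0)).im = 0 :=
  let ⟨_, k, e⟩ := gd_gw_real h z g
  a0_agr h e ▸ a0_real hr k

theorem tn_real_gd (g : Gd (5 + t.rA r) d (cC W0)) : (t.tn (cC W0)).im = 0 :=
  let ⟨_, k, e⟩ := gd_gw_real h z g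
  tn_agr h e ▸ tn_real hr k

end Nt

end Pool.Agent.Lib.MP_7f377f_mp.RG.Q4
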