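import Pool.Agent.Lib.MP_7f377f_mp.Q4AfK
import Pool.Agent.Lib.MP_7f377f_mp.Q4TrI

/-! Small critical points of the energy of the blocks are close to the approximate minimiser. -/

noncomputable section

namespace Pool.Agent.Lib.MP_7f377f_mp.RG.Q4

open Finset Filter Topology

attribute [local irreducible] box lbox

namespace Nt

variable {t : Nt} {r c : ℕ} {τ P δ d α η : ℝ} {m : BF} {s : V →ₗ[ℝ] V} {A D : Fld} {W : Cf}
  (h : t.Ok r c τ m s P δ) (z : t.Sz c τ P δ d)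
include h z

theorem lj_gl (g : ∀ y, Gd (r + 1) d (sh y W)) (hA : ∀ e, ‖A e‖ ≤ 2 * d / LL t.O.l) (y : St) :
    t.Lj W y A := by
  have a := (j1_gd h z (g y) (sm_of_all hA _ (up t.O.l y)) le_rfl).1
  have := Lj.sh (y := y) (y' := -y) (by rwa [add_neg_cancel])
  rwa [sh_sh, sh_sh, ← up_add, neg_add_cancel, up_zero, sh_zero, sh_zero] at this

theorem nw_gd (g : Gd (6 * t.O.N + r / 4 + 4) d W) (hA : ∀ e, ‖A e‖ ≤ α) (hD : ∀ e, ‖D e‖ ≤ η)
    (η0 : 0 < η) (h1 : 2 * (α + η) ≤ d / LL t.O.l) (ht : ∀ f, tree t.O.l f → D f = 0) :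
    Sm t.O.l (4 * t.th c P d * η) (t.nw W (A + D) - t.nw W A) := fun f hf => by
  obtain ⟨u, B, hB, e⟩ := g
  have α0 := (norm_nonneg _).trans (hA f)
  have a : ∀ {X : Fld} {x : ℝ}, (∀ e, ‖X e‖ ≤ x) → ∀ e,
      ‖aS t.O.l (fun x => (u x)⁻¹) X e‖ ≤ 2 * x := fun hX e =>
    (norm_adq_two _ _).trans (by linarith [hX e])
  have k : ∀ {X : Fld}, (∀ e, ‖X e‖ ≤ α + η) →
      t.nw W X f = aS t.O.l u (t.nw (exF B) (aS t.O.l (fun x => (u x)⁻¹) X)) f := fun hX => by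
    rw [← nw_cov h u (lj_all h z hB fun e => (a hX e).trans h1), aS_inv]
    exact nw_agr h (n := 0) (e.mono (by omega)) (fun _ _ => rfl) f (by rwa [fb_zero])
  have b := nw_lip h z hB (fun e => (a hA e).trans (by linarith)) (a hD) (by linarith)
    (by rw [mul_div_assoc]; linarith) (fun f hf => by rw [aS, adF, ht f hf, adq_zero]) f
  have l : ∀ X Y : Fld, ‖aS t.O.l u X f - aS t.O.l u Y f‖ ≤ 2 * ‖(X - Y) f‖ := fun X Y =>
    (congrArg (‖· f‖) ((adFL fun x => cS (u (yo t.O.l x))).map_sub X Y)).ge.trans (norm_adq_two _ _)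
  rw [← Ho.adF_add] at b
  rw [Pi.sub_apply, k (X := A + D) fun e => norm_add_le_of_le (hA e) (hD e),
    k fun e => (hA e).trans (by linarith)]
  exact (l _ _).trans ((mul_le_mul_of_nonneg_left b zero_le_two).trans_eq (by ring))

theorem nw_gl (g : ∀ y, Gd (6 * t.O.N + r / 4 + 4) d (sh y W)) (hA : ∀ e, ‖A e‖ ≤ α)
    (hD : ∀ e, ‖D e‖ ≤ η) (η0 : 0 < η) (h1 : 2 * (α + η) ≤ d / LL t.O.l)
    (ht : ∀ f, tree t.O.l f → D f = 0) (f : Lk) :
    ‖(t.nw W (A + D) - t.nw W A) f‖ ≤ 4 * t.th c P d * η := by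
  have := nw_gd h z (g (yo t.O.l f.1)) (A := sh (up t.O.l (yo t.O.l f.1)) A)
    (D := sh (up t.O.l (yo t.O.l f.1)) D) (fun _ => hA _) (fun _ => hD _) η0 h1
    (fun e he => ht _ ((tree_add_up _ _ _ _).2 he)) (f.1 - up t.O.l (yo t.O.l f.1), f.2)
    (mem_lbox.2 (sub_up_yo_mem _ _))
  rw [show sh _ A + sh _ D = sh _ (A + D) from rfl, nw_sh, nw_sh] at this
  simpa only [Pi.sub_apply, sh_apply, sub_add_cancel] using this

/-- fixed points of the Newton step -/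
theorem fix_near (g : ∀ y, Gd (6 * t.O.N + r / 4 + 4) d (sh y W)) (hA : ∀ e, ‖A e‖ ≤ α) (α0 : 0 < α)
    (h1 : 4 * α ≤ d / LL t.O.l) (ht : ∀ f, tree t.O.l f → A f = 0) (hf : t.nw W A = A) {κ : ℝ}
    (h2 : 4 * t.th c P d ≤ κ) (h3 : κ ≤ 1) (j : ℕ) :
    ∀ f, ‖((t.nw W)^[j] 0 - A) f‖ ≤ κ ^ j * α := by
  have κ0 : 0 < κ := by linarith [(h.th_le z).1]
  induction j with
  | zero => simpa using hA
  | succ j ih =>
    intro f
    have a := mul_le_of_le_one_left α0.le (pow_le_one₀ κ0.le h3 (n := j))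
    have := nw_gl h z g hA ih (by positivity) (by linarith)
      (fun f hf => by rw [Pi.sub_apply, t.iter_tree W j hf, ht f hf, sub_zero]) f
    rw [add_sub_cancel, hf] at this
    rw [Function.iterate_succ_apply', pow_succ', mul_assoc]
    exact this.trans (mul_le_mul_of_nonneg_right h2 (by positivity))

end Nt

namespace Af

variable {N : Fin 4 → ℕ} [∀ i, NeZero (N i)] {S : Sd} {ε : ℝ} {W : Conf}

theorem sum_swap {F : St → St → ℂ} (hF : ∀ w x y, cs N x = cs N y → F x (x + w) = F y (y + w)) :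
    ∑ y : TS N, ∑ w ∈ box 2, F (lf y) (lf y + w) = ∑ y : TS N, ∑ w ∈ box 2, F (lf y + w) (lf y) := by
  rw [sum_comm, sum_comm (s := univ)]
  refine sum_equiv (Equiv.neg St) (fun w => ⟨neg_mem_box, fun h => neg_neg w ▸ neg_mem_box h⟩)
    fun w _ => ?_
  rw [← sum_shift (g := fun y => F y (y + w)) (hF w) (-w)]
  simp only [neg_add_cancel_right, Equiv.neg_apply]

theorem sum_L1 (t : Nt) {W : Cf} {A v : Fld} (hW : PV N W) (hA : PV (fi t.O.l N) A)
    (hv : PV (fi t.O.l N) v) : ∑ y : TS N, t.L1 W A v (lf y) = ∑ y : TS N, t.gv W A v (lf y) :=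
  sum_swap fun w x y e => by
    have k := fun x => t.xi_sh W A v 0 w x
    simp only [zero_add, add_comm w] at k
    rw [← k, ← k, hW.sh_eq e, hA.sh_eq (cs_up e), hv.sh_eq (cs_up e)]

theorem sum_j1 {S : Td} {x u : IR S.l N → ℝ} (j : ∀ y, S.t.Lj (cC W) y (pf (exN x))) {K s0 : ℝ}
    (h0 : 0 < s0) (h : ∀ s, 0 < s → s ≤ s0 → |PP N S W (x + s • u) - PP N S W x| ≤ K * s ^ 2) :
    ∑ y : TS N, (j1 (S.t.FF (cC W) (lf y)) (pf (exN x)) (pf (exN u))).re = 0 := by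
  refine tendsto_nhds_unique (tendsto_finsetSum _ fun y _ =>
    (Complex.continuous_re.tendsto _).comp ((j (lf y)).1.1 _)) (squeeze_zero_norm' ?_ (tend_half K))
  filter_upwards [(tend_half 1).eventually_le_const h0] with n hn
  have e : pf (exN (x + (2⁻¹ : ℝ) ^ n • u)) = pf (exN x) + (2⁻¹ : ℝ) ^ n • pf (exN u) := by
    funext e k
    simp only [pf, exN, Pi.add_apply, Pi.smul_apply]
    split_ifs <;> simp
  have := mul_le_mul_of_nonneg_left (h _ (by positivity) (one_mul (_ : ℝ) ▸ hn))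
    (by positivity : (0 : ℝ) ≤ 2 ^ n)
  rw [PP, PP, e, ← sum_sub_distrib, ← abs_of_nonneg (by positivity : (0 : ℝ) ≤ 2 ^ n), ← abs_mul,
    mul_sum, abs_of_nonneg (by positivity : (0 : ℝ) ≤ 2 ^ n)] at this
  refine (le_of_eq_of_le (congrArg _ (sum_congr rfl fun y _ => ?_)) this).trans_eq (by
    rw [inv_pow]; field_simp)
  rw [Function.comp, s1, add_zero, ← Complex.sub_re, ← Complex.re_ofReal_mul]
  push_cast
  rfl

theorem crit_nw {S : Td} {τ P δ : ℝ} (h : S.t.Ok S.r S.c τ S.m S.s P δ) (hr : GR S.t.G)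
    (hp : PV N W) {x : IR S.l N → ℝ} (j : ∀ y, S.t.Lj (cC W) y (pf (exN x)))
    (hc : ∀ u : IR S.l N → ℝ,
      ∑ y : TS N, (j1 (S.t.FF (cC W) (lf y)) (pf (exN x)) (pf (exN u))).re = 0) :
    S.t.nw (cC W) (pf (exN x)) = pf (exN x) := by
  have hW : PV N (cC W) := hp.map cS
  set G := S.t.grad (cC W) (pf (exN x))
  have g1 : RealF G := Nt.grad_real hr j (pf_real _)
  have g2 : PV (fi S.l N) G := fun μ => by
    rw [fi_period]
    exact (S.t.grad_sh _ _ _).symm.trans (by rw [hW μ]; exact congrArg _ (fi_period μ ▸ pv_pf _ μ))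
  let u : IR S.l N → ℝ := fun i => (G (lf i.1.1.1, i.1.1.2) i.1.2).re
  have e : ∀ f k, (G f k * pf (exN u) f k).re = exN u ((cs _ f.1, f.2), k) ^ 2 ∧
      pj S.l ∅ G f k = pf (exN u) f k := fun f k => by
    by_cases hf : Act S.l ∅ f
    · simp only [pf, exN, dif_neg ((act_cs f k).1 hf), u, g2.lf_cs f, pj_act hf, Complex.re_mul_ofReal, sq,
        true_and]
      exact Complex.ext rfl (g1 f k)
    · simp [pf, exN, not_not.1 fun h => hf ((act_cs (N := N) f k).2 h), pj_not hf]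
  have k := hc u
  simp only [← (j _).L1_eq h] at k
  rw [← Complex.re_sum, sum_L1 S.t hW (pv_pf (exN x)) (pv_pf (exN u)), Complex.re_sum] at k
  simp only [Nt.gv_eq, Complex.re_sum] at k
  refine S.t.nw_fix _ _ (funext₂ fun f i => (e f i).2.trans ?_)
  have k2 := (sum_eq_zero_iff_of_nonneg fun _ _ => (e _ _).1.ge.trans' (sq_nonneg _)).1
    ((sum_eq_zero_iff_of_nonneg fun _ _ => sum_nonneg fun _ _ => (e _ _).1.ge.trans' (sq_nonneg _)).1
    ((sum_eq_zero_iff_of_nonneg fun _ _ => sum_nonneg fun _ _ => sum_nonneg fun _ _ =>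
      (e _ _).1.ge.trans' (sq_nonneg _)).1 k (cs N (yo S.l f.1)) (mem_univ _))
    (f.1 - up S.l (yo S.l f.1), f.2) (mem_lbox.2 (sub_up_yo_mem _ _))) i (mem_univ _)
  rw [(e _ _).1, sq_eq_zero_iff, cs_add] at k2
  erw [cs_up (cs_lf _)] at k2
  rw [← cs_add, sub_add_cancel] at k2
  simp only [pf, k2, Complex.ofReal_zero, Pi.zero_apply]

theorem crit_fix (h : Sm0 S ε) (_hn : ∀ i, Odd (N i)) (hp : PV N W) (hW : Gl ε W)
    {x : IR S.l N → ℝ} (hx : ‖x‖ ≤ ε) (hc : ∀ u, ∃ K s0 : ℝ, 0 < s0 ∧ ∀ s, 0 < s → s ≤ s0 →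
      |PP N S.toTd W (x + s • u) - PP N S.toTd W x| ≤ K * s ^ 2) :
    ‖x - xs N S.toTd W‖ ≤ (S.Q * ε) ^ 100 * ε := by
  have e0 := h.pos
  have q1 := S.Q1
  have L0 := Sd.L0 S.toTd
  have hl := h.nu.lens
  have Lw : S.L ≤ S.w := Sd.w_eq S.toTd ▸ le_self_pow₀ (Sd.L1 _) (by omega)
  have h1 : S.Q * ε ≤ S.g' := (mul_le_mul_of_nonneg_right (le_self_pow₀ q1 (by omega)) e0.le).trans h.le
  have h2 := (h.fo.num (C := 48) (j := 11 * S.c + 35) (by norm_num) (by omega)).trans h.nu.D_le_Q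
  have h3 : 1 * S.w * 1 ≤ S.L ^ (9 * S.c + 29) * S.w * S.P := by
    gcongr
    exacts [one_le_pow₀ (Sd.L1 _), Sd.P1 _]
  rw [show 48 * S.L ^ (11 * S.c + 35) * S.P = 48 * (S.L ^ (9 * S.c + 29) * S.w * S.P) by
    rw [Sd.w_eq]; ring] at h2
  have z := h.tk.sz (6 * S.w * ε) (by have := L0.trans_le Lw; positivity) (by
    have := h.nu.Qg_δ (i := 0) (by omega)
    nlinarith)
  have g : ∀ y, Gd S.w (6 * S.w * ε) (sh y (cC W)) := fun y =>
    gd_real (W := sh y W) (fun _ _ _ _ => (Mx.fq_sh _ _ _ _ _).trans_le (hW _ _ _))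
      ((h.tk.ok.d_le z).trans (by norm_num))
  have hX : ∀ e, ‖pf (exN x) e‖ ≤ ε := fun e => (norm_pf _ e).trans
    ((pi_norm_le_iff_of_nonneg e0.le).2 fun i => by
      rw [exN]
      split_ifs
      exacts [norm_zero.trans_le e0.le, (norm_le_pi_norm _ _).trans hx])
  have h4 : 4 * ε ≤ 6 * S.w * ε / S.L := by rw [le_div_iff₀ L0]; nlinarith
  have j := Nt.lj_gl h.tk.ok z (fun y => (g y).mono (by omega) le_rfl) fun e => (hX e).trans
    (show _ ≤ 2 * _ / S.L by rw [mul_div_assoc]; linarith)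
  have k := Nt.fix_near h.tk.ok z (fun y => (g y).mono (show 6 * S.N + _ + 4 ≤ _ by omega) le_rfl)
    hX e0 h4 (fun f hf => (congrFun (pj_exN x) f).symm.trans (pj_not fun h => h.1 hf))
    (crit_nw h.tk.ok h.tk.gr hp j fun u =>
      let ⟨_, _, a, b⟩ := hc u; sum_j1 j a b) (κ := S.Q * ε) (by
      have := h.ex
      change 4 * (Real.exp (-(S.l : ℝ) ^ 2) + S.L ^ _ * _) ≤ _
      nlinarith [Sd.L1 S.toTd]) (h1.trans h.nu.ok.g'1) 100
  refine (pi_norm_le_iff_of_nonneg (by positivity)).2 fun i => ?_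
  refine le_trans ?_ ((norm_le_pi_norm _ i.1.2).trans (k (lf i.1.1.1, i.1.1.2)))
  rw [Pi.sub_apply, norm_sub_rev]
  refine le_of_eq_of_le ?_ (Complex.abs_re_le_norm _)
  simp only [Pi.sub_apply, Complex.sub_re, pf, cs_lf, exN, dif_neg i.2, Complex.ofReal_re, xs]
  rfl

end Af

end Pool.Agent.Lib.MP_7f377f_mp.RG.Q4
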