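import Pool.Agent.Lib.MP_7f377f_mp.Q4AfK
import Pool.Agent.Lib.MP_7f377f_mp.Q4AfGeo

/-! Lipschitz dependence of the minimising fine field on the coarse field. -/

noncomputable section

namespace Pool.Agent.Lib.MP_7f377f_mp.RG.Q4.Af

open Finset Metric Sd

attribute [local irreducible] box lbox

variable {N : Fin 4 → ℕ} [∀ i, NeZero (N i)] {S : Sd} {ε η F : ℝ} {θ : Lk → Real.Angle} {W W' : Conf}

theorem nr_rf {a : IL N → ℝ} {σ : ℝ} (ha : ‖a‖ ≤ σ) (e : Lk) : Rb.Nr (2 * σ) (rf W a e) (W e) := by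
  have := Geo.e0_le (b := cR fun k => a ((cs N e.1, e.2), k)) ((norm_cR _).trans_le
    (((pi_norm_le_iff_of_nonneg (norm_nonneg a)).2 fun _ => norm_le_pi_norm a _).trans ha))
  refine (this.right (W e)).congr (congrArg (· * W e) (cS_inj ?_)) (one_mul _)
  rw [Ms.cS_e0, cE_re fun _ => by simp [cR], cS_exS]

theorem gl_rf (hW : Gl ε W) {a : IL N → ℝ} {σ : ℝ} (ha : ‖a‖ ≤ σ) :
    Gl (ε + 8 * σ) (rf W a) := fun x μ ν =>
  (fq_near (nr_rf ha _) (nr_rf ha _) (nr_rf ha _) (nr_rf ha _)).trans (by linarith [hW x μ ν])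

theorem gl_ab (hc : ∀ x μ ν, dd θ x μ ν = (kF F μ ν : ℝ)) : Gl |F| (ab θ) := fun x μ ν => by
  rw [fq, hol_ab, hc]
  exact (norm_eA _).trans (abs_kF F μ ν)

theorem Gl.sh (h : Gl ε W) (y : St) : Gl ε (sh y W) := fun _ μ ν =>
  (Rb.fq_sh ..).trans_le (h _ μ ν)

theorem Sm0.Qε (h : Sm0 S ε) : S.Q * ε ≤ S.δ ∧ S.Q * ε ≤ 1 := by
  have a : S.Q * ε ≤ S.g' := le_trans (mul_le_mul_of_nonneg_right
    (le_self_pow₀ S.Q1 (by norm_num)) h.pos.le) h.le
  exact ⟨a.trans (by simpa using h.nu.Qg_δ (i := 0) (by norm_num)), a.trans h.nu.ok.g'1⟩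

theorem bg_near (h : Sm0 S ε) (hc : ∀ x μ ν, dd θ x μ ν = (kF F μ ν : ℝ)) (hF : |F| ≤ ε) (f : Lk) :
    Rb.Nr (S.Q * ε) (ab (lift S.l F θ) f) (Ub S.l S.s (ab θ) f) := by
  have ex := h.nu.exps
  have l0 := L0 S.toTd
  have e0 := h.pos
  have q := h.nu.mon (C := 2) (i := 2 * (S.c + 5)) (j := 0) (by norm_num) (by omega) (by omega)
  have p1 : 1 ≤ S.L ^ (S.c + 5) := one_le_pow₀ (Sd.L1 _)
  rw [pow_zero, mul_one, pow_mul'] at q
  have k := Ub_near (h.nu.hy h.tok le_rfl) (W := sh (yo S.l f.1) (ab θ)) (d := ε)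
    (fun y _ μ ν => ((gl_ab hc).sh _ y μ ν).trans hF)
    (le_trans (mul_le_mul_of_nonneg_right (by nlinarith) e0.le) h.Qε.2)
    (f := (f.1 - up S.l (yo S.l f.1), f.2)) (mem_lbox.2 (sub_up_yo_mem _ _))
  rw [Ub_sh, sh_apply, sub_add_cancel] at k
  have k2 : Rb.Nr ε (eA (bF S.l F f : ℝ)) 1 := (norm_eA _).trans ((abs_bF f).trans hF)
  refine (((k2.right (eA (izA S.l θ f))).congr (eA_add _ _).symm ?_).trans k.symm).mono
    (by nlinarith [mul_le_mul_of_nonneg_right q e0.le, mul_le_mul p1 p1 zero_le_one (by linarith)])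
  have y1 : ∀ v, yo S.l (f.1 - up S.l (yo S.l f.1) + v) = yo S.l (f.1 + v) - yo S.l f.1 := fun v => by
    rw [eq_sub_iff_add_eq, ← yo_add_up, add_right_comm, sub_add_cancel]
  have y2 := y1 0
  simp only [add_zero, sub_self] at y2
  simp only [izA, one_mul, y1, y2, sub_eq_zero, sh_apply, zero_add]
  split_ifs <;> simp [ab]

theorem ch_lip {g g' : S3} (h : Rb.Nr η g g') (h1 : Rb.Nr 2⁻¹ g 1) (h2 : Rb.Nr 2⁻¹ g' 1) :
    ‖ch (cS g) - ch (cS g')‖ ≤ 4 * η := by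
  have a := (ch_cS_le h2 (by norm_num)).2
  have b := (abs_le.1 ((abs_re_le _).trans h1)).1
  have b' := (abs_le.1 ((abs_re_le _).trans h2)).1
  have c := (abs_re_le _).trans h
  have d := (norm_co_cq _).trans h
  simp only [Quaternion.re_sub, S3.q_one, Quaternion.re_one] at b b' c
  have r : (g.q.re : ℂ) ≠ 0 := Complex.ofReal_ne_zero.2 (by linarith)
  have r' : (g'.q.re : ℂ) ≠ 0 := Complex.ofReal_ne_zero.2 (by linarith)
  have e : ch (cS g) - ch (cS g') = (g.q.re : ℂ)⁻¹ • (co (cq (g.q - g'.q)) -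
      ((g.q.re - g'.q.re : ℝ) : ℂ) • ch (cS g')) := by
    rw [cq_sub, co_sub]
    funext k
    simp only [ch, cS, cq_re, Pi.sub_apply, Pi.smul_apply, smul_eq_mul]
    push_cast
    field_simp
    ring
  rw [e, norm_smul, norm_inv, Complex.norm_real, Real.norm_of_nonneg (by linarith),
    inv_mul_le_iff₀ (by linarith)]
  refine (norm_sub_le_of_le d ((norm_smul _ _).le.trans (mul_le_mul
    ((Complex.norm_real _).le.trans c) a (norm_nonneg _) ((abs_nonneg _).trans c)))).trans ?_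
  nlinarith [(abs_nonneg _).trans c]

/-- the minimising fine field in a gauge in which the coarse field is close to one -/
theorem Ur_fix' (h : Sm0 S ε) {u : St → S3} {B : Fld} (hB : ∀ e, ‖B e‖ ≤ S.δ / 8)
    (e : Agr (S.t.rA S.r) (cC (gauge Inv.inv u W)) (exF B)) {f : Lk} (hf : f ∈ lbox S.l) :
    cS (u (yo S.l f.1) * Ur S.l S.s W (S.t.As (cC W)) f * (u (yo S.l (f.1 + un f.2)))⁻¹) =
      Uz S.l S.s (exF B) (S.t.As (exF B)) f := by
  have ok := h.fo.ok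
  have z := h.fo.sz (S.δ / 8) (by linarith [h.nu.δ0]) (by linarith)
  have e' : Agr (0 + S.t.rA S.r) (cC W) (gS (fun x => (u x)⁻¹) (exF B)) := fun b hb => by
    rw [← gS_inv u (cC W), gS, gS, gS, ← cC_gauge, gauge, gauge, e b (by rwa [zero_add] at hb)]
  have r := Nt.As_good_real ok z h.fo.gr ⟨_, B, hB, e'⟩ (mem_fb_zero hf)
  have k : cS (Ur S.l S.s W (S.t.As (cC W)) f) = Uz S.l S.s (cC W) (S.t.As (cC W)) f := by
    rw [Ur, cS_mul, Ms.cS_e0, cE_re r, Uz, ← cC_Ub, cC]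
  have a1 : Agr (fb S.l 0) _ _ := Nt.As_agr ok e'
  have a2 : S.t.As _ = aS S.l _ _ := Nt.As_cov ok (fun x => (u x)⁻¹) (Nt.gw_exF ok z hB)
  have a3 := En.Uz_gauge h.fo.lin (fun x => uni_cS (u x)⁻¹) (exF B) (S.t.As (exF B))
  rw [cS_mul, cS_mul, k, En.Uz_agr h.fo.lin (e'.mono (by unfold Nt.rA; omega)) a1 f
    (mem_fb_zero hf), a2, a3, gauge, cS_inv, cS_inv, star_star, mul_assoc, mul_assoc,
    mul_assoc, (uni_cS _ : cS _ * _ = 1), mul_one, ← mul_assoc, (uni_cS _ : cS _ * _ = 1), one_mul]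

theorem Uz_lip (h : Sm0 S ε) {B D : Fld} (hB : ∀ e, ‖B e‖ ≤ S.δ / 16) (hD : ∀ e, ‖D e‖ ≤ η)
    (η0 : 0 < η) (η1 : 32 * η ≤ S.δ) (f : Lk) :
    ‖Uz S.l S.s (exF (B + D)) (S.t.As (exF (B + D))) f - Uz S.l S.s (exF B) (S.t.As (exF B)) f‖ ≤
      128 * S.D0 * η := by
  have ex := h.nu.exps
  have ok := h.fo.ok
  have δ0 := h.nu.δ0
  have z := h.fo.sz (S.δ / 8) (by linarith) (by linarith)
  have b := h.nu.hy h.tok le_rfl
  have d1 := h.nu.δ_le (k := (S.c + 5) * 9) (by omega)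
  have p0 : 0 ≤ (S.L ^ (S.c + 5)) ^ 9 := by have := L0 S.toTd; positivity
  rw [pow_mul] at d1
  have d8 : (S.L ^ (S.c + 5)) ^ 9 * (S.δ / 8) ≤ 1 := by nlinarith
  have dB : Disc (ball 0 (S.δ / 16 / η)) fun t : ℂ => B + t • D := fun e => by
    simp only [Pi.add_apply, Pi.smul_apply]
    fun_prop
  have bB : ∀ t ∈ ball (0 : ℂ) (S.δ / 16 / η), ∀ e, ‖(B + t • D) e‖ ≤ S.δ / 8 := fun t ht e => by
    have := (lt_div_iff₀ η0).1 (mem_ball_zero_iff.1 ht)
    refine (norm_add_le_of_le (hB e) ((norm_smul_le t (D e)).trans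
      (mul_le_mul_of_nonneg_left (hD e) (norm_nonneg _)))).trans (by linarith)
  have bA : ∀ t ∈ ball (0 : ℂ) (S.δ / 16 / η), ∀ e, ‖S.t.As (exF (B + t • D)) e‖ ≤ S.δ / 8 :=
    fun t ht e => (Nt.As_small ok z (bB t ht) e).trans (div_le_self (by linarith) (Sd.L1 S.toTd))
  have n : ∀ t ∈ ball (0 : ℂ) (S.δ / 16 / η),
      ‖Uz S.l S.s (exF (B + t • D)) (S.t.As (exF (B + t • D))) f - 1‖ ≤ 4 := fun t ht =>
    (JS.near_one (b.Uz_ap d8 (bB t ht) (bA t ht) f).2).trans (by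
      nlinarith [ok.d_le z, mul_nonneg p0 δ0.le])
  have := Complex.dist_le_div_mul_dist_of_mapsTo_ball (R₂ := 8) (z := 1)
    (b.Uz_disc d8 dB (Nt.fm_const ok z isOpen_ball dB bB).As_disc bB bA f) (fun t ht => by
      rw [mem_closedBall_iff_norm, ← sub_sub_sub_cancel_right _ _ 1]
      exact (norm_sub_le_of_le (n t ht) (n 0 (mem_ball_self (by positivity)))).trans (by norm_num))
    (by rw [mem_ball_zero_iff, norm_one, lt_div_iff₀ η0]; linarith)
  simp only [one_smul, zero_smul, add_zero, dist_eq_norm, sub_zero, norm_one, mul_one] at this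
  refine this.trans ?_
  rw [div_div_eq_mul_div, div_le_iff₀ (by linarith)]
  nlinarith [mul_le_mul_of_nonneg_left h.nu.le_δ η0.le]

theorem Ur_nr (h : Sm0 S ε) (hW : Gl ε W) (hn : ∀ e, Rb.Nr η (W' e) (W e)) (η1 : η ≤ 2 * ε)
    {f : Lk} (hf : f ∈ lbox S.l) : Rb.Nr (512 * S.D0 * η) (Ur S.l S.s W' (S.t.As (cC W')) f)
      (Ur S.l S.s W (S.t.As (cC W)) f) := by
  rcases ((norm_nonneg _).trans (hn f)).eq_or_lt with rfl | η0
  · rw [show W' = W from funext fun e => S3.ext (sub_eq_zero.1 (norm_le_zero_iff.1 (hn e)))]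
    exact .rfl' (by simp) rfl
  have e0 := h.pos
  obtain ⟨q1, q2⟩ := h.Qε
  have hl := h.nu.lens
  have hR : 1000 * (S.t.rA S.r : ℝ) ≤ S.Q :=
    le_trans (by exact_mod_cast (by omega : 1000 * S.t.rA S.r ≤ S.D0)) h.nu.D_le_Q
  have q3 := mul_le_mul_of_nonneg_right hR e0.le
  have q4 := mul_le_mul_of_nonneg_right (h.nu.cQ' (C := 1000) (by norm_num)) e0.le
  set R := S.t.rA S.r
  set u := cmb Inv.inv W
  have g0 : ∀ e ∈ lbox R, Rb.Nr (3 * R * ε) (gauge Inv.inv u W e) 1 := fun e =>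
    fix_loc fun x _ => hW x
  have g1 : ∀ e, Rb.Nr η (gauge Inv.inv u W' e) (gauge Inv.inv u W e) := fun e =>
    ((hn e).left _).right _
  have g2 : ∀ e ∈ lbox R, Rb.Nr 2⁻¹ (gauge Inv.inv u W' e) 1 := fun e he =>
    ((g1 e).trans (g0 e he)).mono (by linarith)
  let c : Conf → Fld := fun V e => ch (cS (gauge Inv.inv u V e))
  have b0 : ∀ e, ‖cut R (c W) e‖ ≤ S.δ / 16 := Sm.cut fun e he =>
    (ch_cS_le (g0 e he) (by linarith)).2.trans (by linarith)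
  have b1 : ∀ e, ‖cut R (c W' - c W) e‖ ≤ 4 * η := Sm.cut fun e he =>
    ch_lip (g1 e) (g2 e he) ((g0 e he).mono (by linarith))
  have k := Uz_lip h b0 b1 (by linarith) (by linarith) f
  rw [← Ur_fix' h (u := u) (W := W) (fun e => (b0 e).trans (by linarith [h.nu.δ0])) (fun e he => by
      rw [exF, cut_of_mem _ he, ex_ch (ch_cS_le (g0 e he) (by linarith)).1, cC]) hf,
    ← Ur_fix' h (u := u) (W := W') (B := cut R (c W) + cut R (c W' - c W))
      (fun e => (norm_add_le_of_le (b0 e) (b1 e)).trans (by linarith)) (fun e he => by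
      rw [exF, Pi.add_apply, cut_of_mem _ he, cut_of_mem _ he, Pi.sub_apply, add_sub_cancel,
        ex_ch (ch_cS_le (g2 e he) (by norm_num)).1, cC]) hf, cS, cS, ← cq_sub] at k
  have k2 : Rb.Nr _ _ _ := (norm_cq _).1.trans k
  refine ((((k2.right (u (yo S.l (f.1 + un f.2)))).left (u (yo S.l f.1))⁻¹).congr (by group)
    (by group))).mono (by linarith)

theorem Ur_lip (h : Sm0 S ε) (hW : Gl ε W) {a : IL N → ℝ} {σ : ℝ} (ha : ‖a‖ ≤ σ) (hσ : σ ≤ ε)
    (f : Lk) : Rb.Nr (S.Q * σ) (Ur S.l S.s (rf W a) (S.t.As (cC (rf W a))) f)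
      (Ur S.l S.s W (S.t.As (cC W)) f) := by
  have k := Ur_nr h (hW.sh (yo S.l f.1)) (W' := sh (yo S.l f.1) (rf W a)) (fun e => nr_rf ha _)
    (by linarith) (f := (f.1 - up S.l (yo S.l f.1), f.2)) (mem_lbox.2 (sub_up_yo_mem _ _))
  rw [← sh_cC, ← sh_cC, Td.As_sh, Td.As_sh, Ur_sh, Ur_sh, sh_apply, sh_apply, sub_add_cancel] at k
  have q := h.nu.mon (C := 1024) (i := 0) (j := 1) (by norm_num) (by omega) (by omega)
  exact k.mono (by nlinarith [(norm_nonneg a).trans ha])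

end Pool.Agent.Lib.MP_7f377f_mp.RG.Q4.Af
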