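import Pool.Agent.Lib.MP_7f377f_mp.Q4AfK
import Pool.Agent.Lib.MP_7f377f_mp.Q4TrI

/-! The tree step on periodic real fields. -/

noncomputable section

namespace Pool.Agent.Lib.MP_7f377f_mp.RG.Q4.Af

open Finset Matrix Filter Topology

attribute [local irreducible] box lbox

variable {N : Fin 4 → ℕ} [∀ i, NeZero (N i)] {S : Sd} {ε : ℝ} {W : Conf}

omit [∀ i, NeZero (N i)] in
theorem pv_cC (hp : PV N W) : PV N (cC W) := hp.map cS

omit [∀ i, NeZero (N i)] in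
theorem As_pv (t : Nt) {U : Cf} (hp : PV N U) : PV (fi t.O.l N) (t.As U) := fun μ => by
  rw [fi_period, ← t.As_sh, hp μ]

theorem L1_gv (t : Nt) {U : Cf} {A v : Fld} (hp : PV N U) (hA : PV (fi t.O.l N) A)
    (hv : PV (fi t.O.l N) v) : ∑ y : TS N, t.L1 U A v (lf y) = ∑ y : TS N, t.gv U A v (lf y) := by
  have e : ∀ w, ∑ y : TS N, t.xi U A v (lf y) (lf y + w) =
      ∑ y : TS N, t.xi U A v (lf y + -w) (lf y) := fun w => by
    have := sum_shift (N := N) (g := fun y => t.xi U A v (-w + y) (0 + y)) (fun x y h => by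
      rw [← t.xi_sh, ← t.xi_sh, hp.sh_eq h, hA.sh_eq (cs_up h), hv.sh_eq (cs_up h)]) w
    refine (sum_congr rfl fun y _ => ?_).trans (this.trans (sum_congr rfl fun y _ => ?_))
    · rw [zero_add, neg_add_cancel_comm_assoc]
    · rw [zero_add, add_comm]
  unfold Nt.L1 Nt.gv
  refine sum_comm.trans (Eq.trans ?_ sum_comm)
  exact sum_nbij' Neg.neg Neg.neg (fun _ => neg_mem_box) (fun _ => neg_mem_box)
    (fun _ _ => neg_neg _) (fun _ _ => neg_neg _) fun w _ => e w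

theorem Gl.fq (hW : Gl ε W) (R : ℕ) (y : St) : Fq R ε (sh y W) :=
  fun _ _ μ ν => (Mx.fq_sh y W _ μ ν).trans_le (hW _ μ ν)

theorem Sm0.le_g (h : Sm0 S ε) {i : ℕ} (hi : i ≤ 10) : S.Q ^ i * ε ≤ S.g' :=
  (mul_le_mul_of_nonneg_right (S.Qw hi) h.pos.le).trans h.le

theorem Sm0.w_le (h : Sm0 S ε) : 48 * S.w * ε ≤ S.δ := by
  have h3 : 48 * (S.w : ℝ) ≤ S.Q ^ 1 := by
    simpa only [pow_zero, mul_one, pow_one, ← Sd.w_eq] using h.nu.mon (C := 48) (i := 2 * S.c + 6)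
      (j := 0) (by norm_num) (by have := h.nu.exps; omega) (by omega)
  have h4 := h.nu.Qg_δ (i := 0) (by omega)
  rw [pow_zero, one_mul] at h4
  exact (mul_le_mul_of_nonneg_right h3 h.pos.le).trans ((h.le_g (by omega)).trans h4)

theorem Sm0.w1 (_ : Sm0 S ε) : (1 : ℝ) ≤ S.w := Sd.w_eq S.toTd ▸ one_le_pow₀ (Sd.L1 _)

theorem Sm0.sz (h : Sm0 S ε) : S.t.Sz S.c S.τ S.P S.δ (6 * S.w * ε) :=
  h.tk.sz _ (by have := h.w1; have := h.pos; positivity) (by linarith [h.w_le])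

theorem Sm0.gd (h : Sm0 S ε) (hW : Gl ε W) (y : St) {n : ℕ} (hn : n ≤ 100) :
    Gd (n + S.t.rA S.r) (6 * S.w * ε) (sh y (cC W)) := by
  have := h.nu.rA_le
  exact ((hW.fq S.w y).gd ((h.tk.ok.d_le h.sz).trans (by norm_num))).mono (by omega) le_rfl

theorem Sm0.As_le (h : Sm0 S ε) (hW : Gl ε W) (f : Lk) :
    ‖S.t.As (cC W) f‖ ≤ S.Q * ε ^ 2 ∧ ∀ k, (S.t.As (cC W) f k).im = 0 := by
  refine at_block (l := S.l) (φ := fun b : C3 => ‖b‖ ≤ S.Q * ε ^ 2 ∧ ∀ k, (b k).im = 0) fun e he => ?_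
  have g := h.gd hW (yo S.l f.1) (n := 0) (by omega)
  rw [← Td.As_sh]
  refine ⟨(Nt.As_good h.tk.ok h.sz g e (mem_fb_zero he)).trans ?_,
    Nt.As_good_real h.tk.ok h.sz h.tk.gr g (mem_fb_zero he)⟩
  have w1 := h.w1
  have l0 := Sd.L0 S.toTd
  have p1 := h.tk.ok.P1
  have t0 := h.tk.ok.τ0
  have e0 := h.pos
  have t1 := h.τ
  calc _ = 2 * (S.L ^ (8 * S.c + 24) * (S.P * ((6 * S.w * ε) ^ 2 + S.τ * (6 * S.w * ε)))) := rfl
    _ ≤ 2 * (S.L ^ (8 * S.c + 24) * (S.P * ((6 * S.w * ε) ^ 2 + 6 * S.w * ε * (6 * S.w * ε)))) := by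
      gcongr
      nlinarith
    _ = 144 * S.L ^ (12 * S.c + 36) * S.P * ε ^ 2 := by rw [Sd.w_eq]; ring
    _ ≤ _ := by gcongr; exact (h.fo.num (by norm_num) (by omega)).trans h.nu.D_le_Q

theorem As_xs (h : Sm0 S ε) (hp : PV N W) (hW : Gl ε W) :
    S.t.As (cC W) = pf (exN (xs N S.toTd W)) ∧ ‖xs N S.toTd W‖ ≤ S.Q * ε ^ 2 := by
  refine ⟨funext fun f => funext fun k => ?_, (pi_norm_le_iff_of_nonneg (by
    have := S.Q0; positivity)).2 fun i => (Complex.abs_re_le_norm _).trans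
      ((norm_le_pi_norm _ _).trans (h.As_le hW _).1)⟩
  simp only [pf, exN]
  split_ifs with ht
  · rw [S.t.As_tree _ ((trI_cs f k).1 ht)]
    rfl
  · refine Complex.ext ?_ ((h.As_le hW f).2 k)
    rw [Complex.ofReal_re, xs]
    exact congrArg (fun b : C3 => (b k).re) ((As_pv S.t (pv_cC hp)).lf_cs f).symm

theorem tn_sum (h : Sm0 S ε) (hp : PV N W) (hW : Gl ε W) :
    ∑ y : TS N, (S.t.tn (sh (lf y) (cC W))).re = PP N S.toTd W (xs N S.toTd W) := by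
  have e1 : ∀ z, ∑ y : TS N, S.t.a0 (sh z (sh (lf y) (cC W))) =
      ∑ y : TS N, S.t.a0 (sh (lf y) (cC W)) := fun z => by
    simpa only [sh_sh, add_comm z] using sum_shift (N := N) (g := fun y => S.t.a0 (sh y (cC W)))
      (fun x y e => by simp only [(pv_cC hp).sh_eq e]) z
  have e2 : ((box 3).card : ℂ) ≠ 0 := Nat.cast_ne_zero.2 (card_pos.2 ⟨0, zero_mem_box 3⟩).ne'
  rw [PP, ← (As_xs h hp hW).1, ← Complex.re_sum, ← Complex.re_sum]
  congr 1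
  simp only [Nt.tn, ← mul_sum, sum_add_distrib]
  rw [sum_comm, sum_congr rfl fun z _ => e1 z, sum_const, nsmul_eq_mul, inv_mul_cancel_left₀ e2]
  simp only [Nt.a0_sh, sum_add_distrib, sum_sub_distrib]
  rw [L1_gv S.t (pv_cC hp) (fun _ => rfl) (As_pv S.t (pv_cC hp))]
  ring

section ext

variable {l : ℕ}

omit [∀ i, NeZero (N i)] in
theorem pe_add (a b : IR l N → ℝ) : pf (exN (a + b)) = pf (exN a) + pf (exN b) := by
  funext e k
  simp only [pf, exN, Pi.add_apply]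
  split_ifs <;> simp

omit [∀ i, NeZero (N i)] in
theorem pe_smul (c : ℝ) (a : IR l N → ℝ) : pf (exN (c • a)) = (c : ℂ) • pf (exN a) := by
  funext e k
  simp only [pf, exN, Pi.smul_apply]
  split_ifs <;> simp

theorem norm_exT (a : IR l N → ℝ) : ‖exN a‖ ≤ ‖a‖ :=
  (pi_norm_le_iff_of_nonneg (norm_nonneg _)).2 fun i => by
    unfold exN
    split_ifs
    exacts [norm_zero.trans_le (norm_nonneg _), norm_le_pi_norm a _]

theorem norm_pe (a : IR l N → ℝ) (e : Lk) : ‖pf (exN a) e‖ ≤ ‖a‖ :=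
  (norm_pf _ e).trans (norm_exT a)

theorem pe_tree (a : IR l N → ℝ) (f : Lk) (hf : tree l f) : pf (exN a) f = 0 :=
  funext fun k => by simp [pf, exN, (trI_cs (N := N) f k).2 hf]

theorem exists_mat {ka : St → Kf} (hs : ∀ y, Ks (ka y)) :
    ∃ Y : Matrix (IR l N) (IR l N) ℝ, Y.IsSymm ∧ ∀ v, v ⬝ᵥ Y *ᵥ v = ∑ y : TS N,
      (qk l (ka (lf y)) (sh (up l (lf y)) (pf (exN v))) (sh (up l (lf y)) (pf (exN v)))).re := by
  have e1 : ∀ x (a b : Fld), sh x (a + b) = sh x a + sh x b := fun _ _ _ => rfl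
  have e2 : ∀ x (c : ℂ) (a : Fld), sh x (c • a) = c • sh x a := fun _ _ _ => rfl
  let b : (IR l N → ℝ) →ₗ[ℝ] (IR l N → ℝ) →ₗ[ℝ] ℝ := LinearMap.mk₂ ℝ (fun a b => ∑ y : TS N,
      (qkL l (ka (lf y)) (sh (up l (lf y)) (pf (exN a))) (sh (up l (lf y)) (pf (exN b)))).re)
    (fun a b c => by simp [pe_add, e1, sum_add_distrib])
    (fun a b c => by simp only [pe_smul, e2, map_smul, LinearMap.smul_apply, smul_eq_mul,
      Complex.re_ofReal_mul, mul_sum])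
    (fun a b c => by simp [pe_add, e1, sum_add_distrib])
    (fun a b c => by simp only [pe_smul, e2, map_smul, smul_eq_mul, Complex.re_ofReal_mul, mul_sum])
  refine ⟨LinearMap.toMatrix₂' ℝ b, ?_, fun a => ?_⟩
  · ext i j
    simp only [b, transpose_apply, LinearMap.toMatrix₂'_apply, LinearMap.mk₂_apply, qkL_apply]
    exact sum_congr rfl fun y _ => by rw [qk_symm (hs _)]
  · rw [← Matrix.toLinearMap₂'_apply', Matrix.toLinearMap₂'_toMatrix']
    rfl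

/-- the differential of the total energy -/
def lL (t : Nt) (U : Cf) (A : Fld) : (IR l N → ℝ) →ₗ[ℝ] ℝ where
  toFun u := ∑ y : TS N, (t.gv U A (pf (exN u)) (lf y)).re
  map_add' a b := by simp only [Nt.gv_eq, pe_add, Pi.add_apply, mul_add, sum_add_distrib, Complex.add_re]
  map_smul' c a := by
    simp only [Nt.gv_eq, pe_smul, Pi.smul_apply, smul_eq_mul, mul_left_comm _ (c : ℂ), ← mul_sum,
      Complex.re_ofReal_mul, RingHom.id_apply]

end ext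

theorem Sm0.gv_le (h : Sm0 S ε) (hW : Gl ε W) (u : IR S.l N → ℝ) (y : St) :
    ‖S.t.gv (cC W) (S.t.As (cC W)) (pf (exN u)) y‖ ≤ (S.Q * ε) ^ 100 * ‖u‖ := by
  have k := Nt.gv_gd h.tk.ok h.sz (h.gd hW y (n := 0 + 3) (by omega)) (zero_mem_box 0)
    (v := sh (up S.l y) (pf (exN u))) (α := ‖u‖) (fun e _ => norm_pe u _)
    fun f hf => pe_tree u _ ((tree_add_up _ f.1 y f.2).2 hf)
  rw [S.t.As_sh] at k
  have e := S.t.gv_sh (cC W) (S.t.As (cC W)) (pf (exN u)) 0 y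
  rw [zero_add] at e
  refine (e ▸ k).trans ?_
  obtain ⟨θ0, -⟩ := h.tk.ok.th_le h.sz
  obtain ⟨a0, a1⟩ := h.tk.ok.al_le h.sz
  have d1 := h.tk.ok.d_le h.sz
  have d0 := h.sz.d0
  have l1 := Sd.L1 S.toTd
  have e0 := h.pos
  have p1 := h.tk.ok.P1
  have t0 := h.tk.ok.τ0
  have h1 : S.t.th S.c S.P (6 * S.w * ε) ≤ S.Q * ε := by
    have k1 := (h.fo.num (C := 12) (j := 11 * S.c + 35) (by norm_num) (by omega)).trans h.nu.D_le_Q
    have k2 := h.nu.cQ' (C := 2) (by norm_num)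
    calc _ = Real.exp (-(S.l : ℝ) ^ 2) + S.L ^ (9 * S.c + 29) * (S.P * (6 * S.w * ε)) := rfl
      _ = Real.exp (-(S.l : ℝ) ^ 2) + 12 * S.L ^ (11 * S.c + 35) * S.P * ε / 2 := by
        rw [Sd.w_eq]; ring
      _ ≤ _ := by nlinarith [h.ex]
  have h2 : 24 * S.L ^ 6 * (S.P * ((6 * S.w * ε) ^ 2 + S.τ * (6 * S.w * ε))) ≤ 1 := by
    refine le_trans ?_ (a1.trans ((div_le_self d0.le l1).trans (d1.trans (by norm_num))))
    rw [Nt.al, ← mul_assoc (10 ^ 6)]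
    gcongr
    · norm_num
    · exact Sd.pw _ (by omega)
  calc _ = S.t.th S.c S.P (6 * S.w * ε) ^ 100 * ‖u‖ *
        (24 * S.L ^ 6 * (S.P * ((6 * S.w * ε) ^ 2 + S.τ * (6 * S.w * ε)))) := by
        change 24 * S.L ^ 4 * (_ ^ 100 * (S.L ^ 2 * _) * _) = _
        ring
    _ ≤ (S.Q * ε) ^ 100 * ‖u‖ * 1 := by gcongr
    _ = _ := mul_one _

theorem Sm0.rem3_le (h : Sm0 S ε) (hW : Gl ε W) {v : Fld} {α : ℝ} (hv : ∀ e, ‖v e‖ ≤ α)
    (α0 : 0 < α) (α1 : α ≤ S.Q⁻¹) (y : St) : ‖S.t.rem3 (cC W) v y‖ ≤ S.Q * α ^ 3 := by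
  have δ0 := h.nu.δ0
  have l0 := Sd.L0 S.toTd
  have k := Nt.rem3_gd h.tk.ok (h.tk.sz (S.δ / 8) (by positivity) (by linarith))
    ((h.gd hW y (n := 0 + 1) (by omega)).mono le_rfl (by linarith [h.w_le])) (zero_mem_box 0)
    (v := sh (up S.l y) v) (α := α) (fun e _ => hv _) α0 (α1.trans (by
      have k1 := h.nu.mon (C := 4) (i := 1) (j := 1) (by norm_num) (by have := h.nu.exps; omega)
        (by omega)
      change _ ≤ _ / S.L
      rw [le_div_iff₀ l0, inv_mul_le_iff₀ S.Q0]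
      nlinarith [h.nu.le_δ]))
  have e := S.t.rem3_sh (cC W) v 0 y
  rw [zero_add] at e
  refine (e ▸ k).trans (mul_le_mul_of_nonneg_right ?_ (pow_pos α0 3).le)
  exact le_of_eq_of_le (mul_right_comm _ _ _)
    ((h.fo.num (C := 768) (j := 3) (by norm_num) (by omega)).trans h.nu.D_le_Q)

theorem rem3_eq (h : Sm0 S ε) (U : Cf) (v : Fld) (y : St) : S.t.rem3 U v y =
    S.t.FF U y (S.t.As U + v) - S.t.FF U y (S.t.As U) - S.t.L1 U (S.t.As U) v y -
      qk S.l (S.ka U y) (sh (up S.l y) v) (sh (up S.l y) v) := by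
  have e := S.t.Yq_sh U v 0 y
  have e' := Ay_sh (l := S.t.O.l) (W := U) (A := v) 0 y
  rw [zero_add] at e e'
  rw [Nt.rem3, ← e, Nt.Yq_zero h.tk.ok, e', add_sub_cancel]
  rfl

theorem tree_tay (h : Sm0 S ε) (hn : ∀ i, Odd (N i)) (hN : ∀ i, 2 * S.N < N i) (hp : PV N W)
    (hW : Gl ε W) : ∃ (Y : Matrix (IR S.l N) (IR S.l N) ℝ) (ℓ : (IR S.l N → ℝ) →ₗ[ℝ] ℝ),
      Tay (fun u => PP N S.toTd W (xs N S.toTd W + u) - ℓ u) Y (Fintype.card (TS N) * S.Q) S.Q⁻¹ ∧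
      (∀ u, |ℓ u| ≤ Fintype.card (TS N) * (S.Q * ε) ^ 100 * ‖u‖) ∧
      (∀ v, v ⬝ᵥ v ≤ S.Q * (v ⬝ᵥ Y *ᵥ v)) ∧
      |Real.log Y.det - Fintype.card (IR S.l N) * Real.log S.Λ +
        2 * ∑ y : TS N, (S.dt0 (sh (lf y) (cC W))).re| ≤ 10 * Fintype.card (TS N) *
          Real.exp (-(S.l : ℝ) ^ 2) := by
  obtain ⟨Y, hY, hq⟩ := exists_mat (l := S.l) (N := N) (Td.ka_symm (S := S.toTd) (cC W))
  have g1 := h.fo.size_ε.1.trans h.fo.size_ε.2
  have g2 : ∀ y, Fq S.w S.g' (sh y W) := fun y =>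
    (hW.fq _ y).mono le_rfl (by simpa using h.le_g (i := 0) (by omega))
  obtain ⟨d1, d2⟩ := det_Y h.fo.op (h.fo.hδ_fq le_rfl g1) hn hN (ka := S.ka (cC W))
    (fun y v => by simp only [Td.ka, (pv_cC hp).sh_eq (cs_add_pv y v)])
    (fun y => (h.fo.kd_fq le_rfl g1 (g2 y)).2) (Td.ka_symm _) hp
    (fun y => h.fo.gk_fq le_rfl g1 (g2 y) ∅) hY hq
  refine ⟨Y, lL S.t (cC W) (S.t.As (cC W)), ⟨hY, fun a δ ha hδ => ?_⟩, fun u => ?_, fun v => ?_, ?_⟩
  · rcases ((norm_nonneg a).trans ha).eq_or_lt with rfl | δ0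
    · simp [norm_le_zero_iff.1 ha]
    have e := congrArg Complex.re (L1_gv S.t (pv_cC hp) (As_pv S.t (pv_cC hp)) (pv_pf (exN a)))
    rw [Complex.re_sum, Complex.re_sum] at e
    beta_reduce
    rw [map_zero, sub_zero, add_zero, hq, PP, PP, pe_add, ← (As_xs h hp hW).1,
      show lL S.t (cC W) (S.t.As (cC W)) a = _ from e.symm, ← sum_sub_distrib, ← sum_sub_distrib, ← sum_sub_distrib]
    refine (abs_sum_le_sum_abs _ _).trans ((sum_le_card_nsmul _ _ (S.Q * δ ^ 3) fun y _ => ?_).trans_eq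
      (by rw [card_univ, nsmul_eq_mul, mul_assoc]))
    have := h.rem3_le hW (fun e => (norm_pe a e).trans ha) δ0 hδ (lf y)
    rw [rem3_eq h] at this
    refine le_of_eq_of_le (congrArg _ ?_) ((Complex.abs_re_le_norm _).trans this)
    simp only [Complex.sub_re]
    ring
  · refine (abs_sum_le_sum_abs _ _).trans ((sum_le_card_nsmul _ _ _ fun y _ =>
      (Complex.abs_re_le_norm _).trans (h.gv_le hW u (lf y))).trans_eq ?_)
    rw [card_univ, nsmul_eq_mul, mul_assoc]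
  · have k := h.nu.mon (C := 2) (i := S.c + 1) (j := 0) (by norm_num)
      (by have := h.nu.exps; omega) (by omega)
    rw [pow_zero, mul_one] at k
    have p : 0 < 2 * S.L ^ (S.c + 1) := by have := Sd.L0 S.toTd; positivity
    exact (d1 v).trans (mul_le_mul_of_nonneg_right k (nonneg_of_mul_nonneg_right
      ((sum_nonneg fun i _ => mul_self_nonneg (v i)).trans (d1 v)) p))
  · simp only [Td.dt0, Td.ka_sh]
    exact d2

end Pool.Agent.Lib.MP_7f377f_mp.RG.Q4.Af
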