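import Pool.Agent.Lib.MP_7f377f_mp.Q4AfL0
import Pool.Agent.Lib.MP_7f377f_mp.Q4AfN

/-! Close tree data have close determinants. -/

noncomputable section

namespace Pool.Agent.Lib.MP_7f377f_mp.RG.Q4.Af

open Finset

theorem tc_low {S : Sd} (h : S.Nu 100) (k : S.TOk) :
    Tc (3 * S.r) (S.L ^ (2 * S.K0))⁻¹ ((S.M : ℝ) ^ S.Kt) S.T :=
  have e := h.exps
  have a : (S.L ^ (2 * S.K0))⁻¹ ≤ ((S.M : ℝ) ^ S.K0)⁻¹ :=
    inv_anti₀ ((pow_pos (Sd.L0 _) _).trans_le (h.ok.LM_pow _))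
      ((h.M_pow' (by omega)).trans (Sd.pw _ (by omega)))
  ⟨k.tc.loc, fun Ω γ b c d => k.tc.hol Ω γ b c fun t ht => (d t ht).mono le_rfl a,
    fun B d b c => k.tc.bd B d b (c.trans a), k.tc.ad, k.tc.meas⟩

theorem xx_near {S S2 : Sd} {a b K1 : ℕ} {E σ : ℝ} (h : S.Nu 100) (k : S.TOk) (h2 : S2.Nu 100)
    (k2 : S2.TOk) (el : S2.l = S.l) (eK : S2.K = S.K) (eK0 : S2.K0 = S.K0)
    (G : Gj S.l a b S.β E 0) (E0 : 0 < E) (E1 : E ≤ 1) (hK : K1 + 2 * S.K0 + 1 ≤ S.K)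
    (hs : S.Q ^ 9 * σ ≤ fj S.l a 0 ^ 3 * E) (d1 : Df (3 * S.r) σ S.m S2.m)
    (d2 : ∀ B d, Cv (3 * S.r) d B → d ≤ ((LL S.l : ℝ) ^ K1)⁻¹ → ‖S.T B - S2.T B‖ ≤ σ * d ^ 3) :
    |XX S.l a b (tf S.m S.T) 0 - XX S.l a b (tf S2.m S2.T) 0| ≤ om S.l a b * E := by
  obtain ⟨g1, g2, g0, c1, -, G1, G0⟩ := G
  obtain ⟨_, _, -, i1⟩ := k.inv
  obtain ⟨_, _, -, i2⟩ := k2.inv
  have eL : S2.L = S.L := by rw [Td.L, el]; rfl
  have er : S2.r = S.r := by rw [Td.r, el]; rfl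
  have t2 := tc_low h2 k2
  have t3 := td_of h2 k2
  rw [Sd.Q, eL, eK] at t3
  rw [er] at i2
  rw [er, eL, eK0] at t2
  have Q0 := S.Q0
  have Q1 := S.Q1
  have L0 := Sd.L0 S.toTd
  have r1 := h.r1'
  have f0 := fj_pos S.l a 0
  have σ0 : 0 ≤ σ := by simpa using d1 0 1 (Ho.cv_zero _ zero_le_one)
  have a1 := h.crL (C := 10 ^ 4) (k := 1) (by norm_num) (by omega)
  have a2 := h.L_le_Q
  have a3 : ∀ i ≤ K1 + 2 * S.K0, (S.L ^ (K1 + 2 * S.K0))⁻¹ ≤ (S.L ^ i)⁻¹ := fun i hi =>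
    inv_anti₀ (by positivity) (Sd.pw _ hi)
  have D := l1_diff (δ := S.Q⁻¹) i1.rng i2.rng i1.symm i2.symm (tc_low h k) t2 (a3 _ (by omega))
    (by simpa using a3 0 (by omega)) d1 (fun B d u v => d2 B d u (v.trans (a3 _ (by omega)))) (by
      rw [← div_eq_mul_inv, div_le_iff₀ Q0, ← div_eq_inv_mul, le_div_iff₀ (by positivity)]
      refine le_trans ?_ (h.LQ hK)
      rw [pow_succ']
      gcongr
      push_cast
      linarith)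
  obtain ⟨φ, hφ⟩ : ∃ φ, φ = fj S.l a 0 := ⟨_, rfl⟩
  rw [← hφ] at c1 hs f0
  have b1 : ∀ i ≤ 1000, S.Q ^ i * φ * g1 ≤ 1 := fun i hi =>
    le_trans (by gcongr; exact (S.Qw hi).trans h.ok.Qβ) (c1.trans E1)
  have b2 : ∀ i ≤ 1000, S.Q ^ i * φ ≤ 1 := fun i hi =>
    (le_mul_of_one_le_right (by positivity) g0).trans (b1 i hi)
  have b3 : φ ≤ 1 := by simpa using b2 0 (by norm_num)
  have b4 := h.crL (C := 24 * 10 ^ 14 * 20 ^ 6) (k := 6) (by norm_num) (by omega)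
  have key : ∀ (F : ℝ) θ, Bg (Tn S.l a b 0) F θ → Gap (Tn S.l a b 0) (ab θ) g1 g2 → |F| ≤ φ →
      |LK (Tn S.l a b 0) (tf S.m S.T) θ - LK (Tn S.l a b 0) (tf S2.m S2.T) θ| ≤
        φ ^ 2 * E / 24 * Fintype.card (IL (Tn S.l a b 0)) := fun F θ hb gp hF => by
    refine lk_near t3 (td_of h k) D (by positivity) ?_ hb gp g0 hF f0 (b1 20 (by norm_num)) ?_ ?_ ?_
    · rw [inv_le_comm₀ Q0 (by norm_num)]
      exact h.cQ' (by norm_num)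
    · rw [← one_div, le_div_iff₀ Q0]
      refine le_trans ?_ (b2 2 (by norm_num))
      rw [mul_right_comm, sq]
      gcongr
      push_cast
      linarith
    · have b5 : (2 * (3 * S.r + 3 : ℕ) + 1 : ℝ) ^ 6 ≤ (20 * S.r) ^ 6 := by
        gcongr
        push_cast
        linarith
      have b6 : φ * g1 ≤ 1 := by simpa using b1 0 (by norm_num)
      rw [inv_pow, div_inv_eq_mul, le_div_iff₀ (by norm_num)]
      refine le_of_mul_le_mul_left ?_ f0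
      calc _ = 24 * 10 ^ 14 * (2 * (3 * S.r + 3 : ℕ) + 1 : ℝ) ^ 6 * S.Q ^ 2 * σ * (φ * g1) := by ring
        _ ≤ 24 * 10 ^ 14 * (20 * S.r) ^ 6 * S.Q ^ 2 * σ * 1 := by gcongr
        _ = 24 * 10 ^ 14 * 20 ^ 6 * S.r ^ 6 * S.Q ^ 2 * σ := by ring
        _ ≤ S.Q * S.Q ^ 2 * σ := by gcongr; linarith
        _ ≤ S.Q ^ 9 * σ := by rw [← pow_succ']; gcongr; norm_num
        _ ≤ _ := by linarith
    · nlinarith [mul_le_one₀ (pow_le_one₀ f0.le b3 : φ ^ 2 ≤ 1) E0.le E1]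
  have e1 : φ ^ 2 * E / 24 * Fintype.card (IL (Tn S.l a b 0)) = om S.l a b * E / 2 := by
    rw [← card_Tn S.l a b 0, ← hφ, Fintype.card_prod, Fintype.card_prod, Fintype.card_fin,
      Fintype.card_fin]
    push_cast
    ring
  have k1 := abs_le.1 (key _ _ (bg_th S.l a b 1 0) G1 (by simp [← hφ, abs_of_pos f0]))
  have k0 := abs_le.1 (key _ _ (bg_th S.l a b 0 0) G0 (by simp [f0.le]))
  rw [e1] at k1 k0
  rw [XX, XX, abs_le]
  constructor <;> linarith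

end Pool.Agent.Lib.MP_7f377f_mp.RG.Q4.Af
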