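import Pool.Agent.Lib.MP_7f377f_mp.Q4AfCh
import Pool.Agent.Lib.MP_7f377f_mp.Q4LinT
import Pool.Agent.Lib.MP_7f377f_mp.Q4Ini

/-! Existence of chains of tree data which start at the Wilson density. -/

noncomputable section

namespace Pool.Agent.Lib.MP_7f377f_mp.RG.Q4.Af

open Filter

/-- a step with given tree data -/
def sdOf (t : Td) (K B : ℕ) : Sd :=
  ⟨t, K, B, LL t.l, 2 * (1000 * t.D0) + 1, t.L ^ B, t.L ^ B⟩

theorem sdOf_ok {t : Td} {K B : ℕ} (c1 : 1 ≤ t.c) (h : 1000 * K ≤ B) : (sdOf t K B).Ok :=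
  ⟨c1, .inl rfl, ⟨_, rfl⟩, (by omega : 1000 * t.D0 ≤ 2 * (1000 * t.D0) + 1),
    (pow_mul t.L K 1000).symm.trans_le (pow_le_pow_right₀ (Sd.L1 t) (by omega)), le_rfl,
    le_mul_of_one_le_left (pow_pos (Sd.L0 t) _).le one_le_two, le_rfl⟩

theorem chain_exists (c : ℕ) (c1 : 1 ≤ c) (hc : LinC c) : ∃ a0, ∀ Kt ≥ a0, ∃ a1, ∀ K0 ≥ a1,
    ∀ K' : ℕ, ∃ l0, ∀ l ≥ l0, ∀ v : ℝ, 2⁻¹ ≤ v → v ≤ 2 → ∃ d,
      Q4.Chn c Kt K0 l (2 * S0 l) ((LL l : ℝ) ^ K')⁻¹ d ∧ (d 0).m = v • m0 ∧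
      ((d 0).T = fun B => v * TW B) ∧ (∀ i < 2 * S0 l, (d (i + 1)).m = (d i).m1 ∧
        (d (i + 1)).T = (d i).T1) ∧ ∀ i ≤ 2 * S0 l, Cd ((LL l : ℝ) ^ K')⁻¹ (d i).m (v • m0) := by
  obtain ⟨l1, hc⟩ := hc
  obtain ⟨a0, H⟩ := (tree_step c).and (ev_nu c 0)
  refine ⟨a0, fun Kt h0 => (H Kt h0).imp fun a1 H K0 h1 K' => ?_⟩
  obtain ⟨K, H⟩ := H K0 h1
  obtain ⟨B, hB⟩ : ∃ B, B = 1000 * K + (K' + 2) := ⟨_, rfl⟩
  obtain ⟨l0, H⟩ := H K le_rfl B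
  obtain ⟨l2, h2⟩ := eventually_atTop.1 (log_pow_le 2)
  refine ⟨l0 + l1 + l2 + 1000, fun l hl v v1 v2 => ?_⟩
  have L3 : (1000 : ℝ) ≤ LL l := by exact_mod_cast (show 1000 ≤ LL l by unfold LL; omega)
  obtain ⟨η, hη⟩ : ∃ η, η = ((LL l : ℝ) ^ B)⁻¹ := ⟨_, rfl⟩
  have η0 : 0 < η := by rw [hη]; positivity
  have p1 : ((LL l : ℝ) ^ K')⁻¹ ≤ 1 := inv_le_one_of_one_le₀ (one_le_pow₀ (by linarith))
  have nu : ∀ i ≤ 2 * S0 l, 1000 * (i * η) ≤ ((LL l : ℝ) ^ K')⁻¹ := fun i hi => by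
    have a1 : (i : ℝ) ≤ LL l := by
      have := h2 l (by omega)
      exact_mod_cast (show i ≤ LL l by unfold S0 at hi; unfold LL at *; omega)
    have a2 : η ≤ ((LL l : ℝ) ^ (K' + 2))⁻¹ :=
      hη ▸ inv_anti₀ (by positivity) (pow_le_pow_right₀ (by linarith) (by omega))
    calc _ ≤ LL l * (LL l * ((LL l : ℝ) ^ (K' + 2))⁻¹) := by gcongr
      _ = _ := by field_simp; ring
  let P : ℕ → Td → Prop := fun i t => (t.c = c ∧ t.Kt = Kt ∧ t.K0 = K0 ∧ t.l = l) ∧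
    ∃ j, t.Tr (LL l) j v (i * η) ∧ t.Ln j v (i * η)
  have ex : ∀ (i j : ℕ) m T, i ≤ 2 * S0 l → Td.Tr ⟨c, Kt, K0, l, m, 0, T⟩ (LL l) j v (i * η) →
      ∃ t, P i t ∧ t.m = m ∧ t.T = T := fun i j m T hi h => by
    obtain ⟨ρ, -, -, k⟩ := h.ch
    obtain ⟨s, hs⟩ := hc ⟨c, Kt, K0, l, m, 0, T⟩ rfl (by simp only; omega) j ρ v _ v1 v2
      (by positivity) (by linarith [nu i hi]) k
    exact ⟨⟨c, Kt, K0, l, m, s, T⟩, ⟨⟨rfl, rfl, rfl, rfl⟩, j, ⟨h.ch, h.tc, h.real⟩, hs⟩, rfl, rfl⟩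
  have H' := fun (t : Td) (e0 : t.c = c) (e1 : t.Kt = Kt) (e2 : t.K0 = K0) (e3 : t.l = l) =>
    H (sdOf t K B) (sdOf_ok (e0 ▸ c1) (by omega)) e0 e1 e2 rfl rfl
      (show l0 ≤ t.l by omega)
  have st : ∀ i t, i < 2 * S0 l → P i t → ∃ t', P (i + 1) t' ∧ t'.m = t.m1 ∧ t'.T = t.T1 := by
    rintro i t hi ⟨⟨e0, e1, e2, e3⟩, j, a1, a2⟩
    have k := (H' t e0 e1 e2 e3).1
    rw [show (sdOf t K B).toTd = t from rfl] at k
    have := (k j v _ 1 v1 v2 (by positivity) (by linarith [nu i hi.le])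
      (show t.Tr (LL t.l) j v _ from e3 ▸ a1) a2 (by linarith) (by norm_num)).2
      ⟨c, Kt, K0, l, t.m1, 0, t.T1⟩ e1.symm e2.symm (.inl (congrArg LL e3)) (by simp) (by simp)
    refine ex (i + 1) (2 * j * l + j + l) _ _ hi ?_
    subst e3
    rw [Nat.cast_succ, add_one_mul, hη]
    rwa [one_mul, hη] at this
  choose! f hf using st
  obtain ⟨t0, a0, a1, a2⟩ := ex 0 0 (v • m0) (fun B => v * TW B) (Nat.zero_le _) (by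
    rw [Nat.cast_zero, zero_mul]
    exact (H' ⟨c, Kt, K0, l, v • m0, 0, fun B => v * TW B⟩ rfl rfl rfl rfl).2.tr_zero v1 v2 rfl rfl)
  let d : ℕ → Td := fun i => Nat.rec t0 f i
  have hd : ∀ i ≤ 2 * S0 l, P i (d i) := fun i => by
    induction i with
    | zero => exact fun _ => a0
    | succ i ih => exact fun h => (hf i _ h (ih (Nat.le_of_succ_le h))).1
  refine ⟨d, ⟨fun i hi => (hd i hi).1, fun i hi => ?_, fun i hi => ⟨1, by simp, ?_⟩⟩, a1, a2,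
    fun i hi => (hf i _ hi (hd i hi.le)).2, fun i hi a ha => ?_⟩
  · obtain ⟨j, k⟩ := (hd i hi).2
    have : 0 ≤ i * η := by positivity
    exact ⟨_, j, v, _, .inl rfl, v1, v2, this, by linarith [nu i hi], k⟩
  · simpa using (hf i _ hi (hd i hi.le)).2
  · obtain ⟨j, ⟨⟨ρ, -, -, k⟩, -⟩, -⟩ := (hd i hi).2
    have : 0 ≤ i * η := by positivity
    exact (k.cc a ha).trans (mul_le_mul_of_nonneg_right (by nlinarith [nu i hi]) (Li.nd_nonneg _ _))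

end Pool.Agent.Lib.MP_7f377f_mp.RG.Q4.Af
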