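import Pool.Agent.Lib.MP_7f377f_mp.Q4BudB

/-! The abstract budget inequality. -/

noncomputable section

namespace Pool.Agent.Lib.MP_7f377f_mp.RG.Q4

open Finset

attribute [local irreducible] box tb tau rc

variable {p : Bp} {CC : Finset (Finset St)} {Wm D Nz Om : Finset St} {e rg t t' h rW w : St → ℝ}
  {xi : St → St → ℝ}

theorem ncs_sub {l n D1 DD : ℕ} {ε2 : ℝ} :
    (ncs l n D1 DD ε2 rW CC Wm).biUnion id ⊆ tb n D1 (Hh l n CC Wm) := by
  classical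
  exact zones_union ▸ biUnion_subset_biUnion_of_subset_left _ (filter_subset _ _)

theorem sum_ncs {l n D1 DD : ℕ} {ε2 : ℝ} (hC : ∀ C ∈ CC, C.Nonempty) (f : St → ℝ) :
    ∑ y ∈ (ncs l n D1 DD ε2 rW CC Wm).biUnion id, f y =
      ∑ Z ∈ ncs l n D1 DD ε2 rW CC Wm, ∑ y ∈ Z, f y := by
  classical
  exact sum_biUnion ((zones_disj hC).subset (coe_subset.2 (filter_subset _ _)))

/-- outside the new cores the sites close to the holes are healed -/
theorem healed_of {l n D1 DD : ℕ} {ε2 : ℝ} {o : Pm} (ho : o ∈ CC.disjSum Wm) {y : St}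
    (hy : y ∈ zsp l n D1 o) (hn : y ∉ (ncs l n D1 DD ε2 rW CC Wm).biUnion id) :
    ∃ hh ∈ comps (zsp l n D1) (CC.disjSum Wm), o ∈ hh ∧ ∀ o' ∈ hh, ∀ x ∈ zsp l n D1 o',
      rW x ≤ ε2 := by
  classical
  obtain ⟨hh, h1, h2⟩ := exists_comp (zsp l n D1) ho
  refine ⟨hh, h1, h2, fun o' h3 x hx => ?_⟩
  by_contra h4
  exact hn (mem_biUnion.2 ⟨_, mem_filter.2 ⟨mem_image_of_mem _ h1, fun h5 =>
    h4 (h5.2 x (sp_sub_us _ h3 hx))⟩, sp_sub_us (zsp l n D1) h2 hy⟩)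

theorem Bf.wm_sub (hp : p.Ok) (H : Bf p CC Wm D Nz Om e rg t t' h rW xi) :
    Wm ⊆ (ncs p.l p.n p.D1 p.DD p.ε2 rW CC Wm).biUnion id := fun y hy => by
  by_contra hn
  have k : ∀ y ∈ Wm, y ∈ zsp p.l p.n p.D1 (.inr y) := fun y hy =>
    sub_tb (by simpa [pb] using H.wm y hy) (mem_singleton_self y)
  obtain ⟨hh, h1, h2, h3⟩ := healed_of (o := .inr y) (by simpa using hy) (k y hy) hn
  obtain ⟨q, h4, h5, h6⟩ := H.bad y hy
  linarith [hp.e12, h3 _ (comp_closed h1 h2 (o' := .inr q) (by simpa using h4) (zsp_meet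
    (mem_singleton_self y) (mem_singleton_self q) (h5.mono (by have := hp.R; omega)))) q (k q h4)]

theorem Bf.card_Hh (hp : p.Ok) (H : Bf p CC Wm D Nz Om e rg t t' h rW xi) :
    ((Hh p.l p.n CC Wm).card : ℝ) ≤
      (2 * p.DD0 + 1) ^ 4 * (∑ C ∈ CC, (tau (LL p.l * p.n) p.DD0 C : ℝ) + Wm.card) := by
  have : (Hh p.l p.n CC Wm).card ≤
      (2 * p.DD0 + 1) ^ 4 * (∑ C ∈ CC, tau (LL p.l * p.n) p.DD0 C + Wm.card) := by
    rw [mul_add, mul_sum]
    refine (card_union_le _ _).trans (add_le_add (card_biUnion_le.trans (sum_le_sum fun C hC =>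
      card_image_le.trans ((card_le_tau hp.DD0 (H.cc C hC).2).trans_eq (mul_comm _ _))))
      (Nat.le_mul_of_pos_left _ (by positivity)))
  exact_mod_cast this

/-- THE ABSTRACT BUDGET -/
theorem budget (hp : p.Ok) (H : Bf p CC Wm D Nz Om e rg t t' h rW xi) :
    ∑ Z ∈ ncs p.l p.n p.D1 p.DD p.ε2 rW CC Wm,
        (p.lam * ∑ y ∈ Z, rW y + p.G0' + p.G2' * tau p.n p.DD Z) +
      p.g0 * (CC.card + Wm.card + D.card) +
      p.U0 * (tb p.n p.D4 (Hh p.l p.n CC Wm ∪ D)).card +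
      ∑ y ∈ Om \ (ncs p.l p.n p.D1 p.DD p.ε2 rW CC Wm).biUnion id, t' y ≤
    ∑ y ∈ Om, (e y + rg y + ∑ v ∈ box p.ρ, (xi (y + v) (-v) - xi y v)) +
      ∑ C ∈ CC, (p.G0 + p.G2 * tau (LL p.l * p.n) p.DD0 C) := by
  classical
  obtain ⟨w, hw⟩ := hp.wt (Hh p.l p.n CC Wm ∪ Nz)
  have b1 := H.energy hp hw
  have b2 := H.holes hp
  have b3 := H.card_Hh hp
  have hs := H.tr_sub hp
  have hwm := H.wm_sub hp
  have ht := H.tay
  have hbig := H.big
  have hC := fun C hC => (H.cc C hC).1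
  have hcs : (ncs p.l p.n p.D1 p.DD p.ε2 rW CC Wm).biUnion id ⊆ _ := ncs_sub
  have hm2 : ∀ y ∈ tb p.n p.d2 (Hh p.l p.n CC Wm),
      y ∉ (ncs p.l p.n p.D1 p.DD p.ε2 rW CC Wm).biUnion id → ∀ u ∈ box p.r, rW (y + u) ≤ p.ε2 :=
    fun y hy hn u hu => by
      obtain ⟨h1, x, h2, h3⟩ := mem_tb.1 hy
      obtain ⟨o, h4, h5⟩ := mem_Hh.1 h2
      have := hp.D1
      obtain ⟨hh, -, h6, h7⟩ := healed_of h4 (mem_tb.2 ⟨h1, x, h5, h3.mono (by omega)⟩) hn
      exact H.prW _ ▸ h7 o h6 _ (mem_tb.2 ⟨rc_rc _ _, x, h5,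
        nearT_rc_right.2 ((h3.trans (nearT_add hu)).mono this)⟩)
  simp only [add_assoc (p.lam * _)]
  rw [sum_add_distrib, ← mul_sum, ← sum_ncs hC]
  rw [← sum_ncs hC] at b2
  obtain ⟨C', hC'⟩ : ∃ C', C' = (ncs p.l p.n p.D1 p.DD p.ε2 rW CC Wm).biUnion id := ⟨_, rfl⟩
  obtain ⟨Y, hY⟩ : ∃ Y, Y = Hh p.l p.n CC Wm ∪ Nz := ⟨_, rfl⟩
  obtain ⟨HH, hH⟩ : ∃ HH, HH = Hh p.l p.n CC Wm := ⟨_, rfl⟩
  obtain ⟨T, hT⟩ : ∃ T, T = tb p.n p.d2 Y := ⟨_, rfl⟩
  have hom := H.om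
  have hm4 := H.m4
  have hnz := H.nz
  rw [← hY] at hw b1 hs ht hbig
  rw [← hC'] at b2 hwm hcs hm2 ⊢
  rw [← hH] at b2 b3 hcs hm2 hY hom hm4 hnz ⊢
  rw [← hT] at b1 hs
  obtain ⟨gD0, u0, gN0, -, D4⟩ := hp.nn
  have hd : p.d2 = p.dt + 2 * (p.ρ + p.r + 2) + p.j * p.el := rfl
  have n1 := hp.D1; have n2 := hp.D13; have n3 := hp.dN; have n4 := hp.dD; have n5 := hp.dD3
  have n6 := hp.D4
  have hM := hp.M
  have cO : C' ⊆ Om := hcs.trans (hom ▸ tb_mono subset_union_left (by omega))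
  have nO : Nz ⊆ Om := hnz.trans (hom ▸ tb_mono subset_rfl (by omega))
  have h2O : tb p.n 2 HH ⊆ Om := hom ▸ tb_mono subset_union_left (by omega)
  have fT : ∀ y ∈ Om, y ∉ T → Far p.n p.d2 Y y := fun y h1 h2 =>
    not_not.1 fun h3 => h2 (hT ▸ mem_tb'.2 ⟨H.rc_om h1, h3⟩)
  have tm : ∀ y, w y ≠ 0 → Far p.n p.dt Y y := fun y h1 =>
    (not_not.1 fun h2 => h1 (hw.zero y h2)).mono (by omega)
  obtain ⟨V, hV⟩ : ∃ V : ℝ, V = (2 * p.D4 + 1) ^ 4 := ⟨_, rfl⟩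
  have V1 : 1 ≤ V := hV ▸ one_le_pow₀ (le_add_of_nonneg_left (by positivity))
  have cV : ∀ d ≤ p.D4, ∀ X, ((tb p.n d X).card : ℝ) ≤ V * X.card := fun d hd X => by
    rw [hV, mul_comm]
    exact_mod_cast (card_le_card (tb_mono subset_rfl hd)).trans (card_tb_le _ _ _)
  obtain ⟨A, hA⟩ : ∃ A : St → ℝ, ∀ y, A y = if y ∈ T then 2⁻¹ * (w y * (t y + h y)) else
      t y + h y := ⟨_, fun _ => rfl⟩
  have c1 : ∑ y ∈ Om, A y = ∑ y ∈ Om \ T, (t y + h y) + 2⁻¹ * ∑ y ∈ T, w y * (t y + h y) := by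
    rw [← sum_sdiff hs, mul_sum]
    congr 1
    · exact sum_congr rfl fun y hy => by rw [hA, if_neg (mem_sdiff.1 hy).2]
    · exact sum_congr rfl fun y hy => by rw [hA, if_pos hy]
  have c2 : ∑ y ∈ Om, ((if y ∈ C' then (if 2⁻¹ ≤ w y then 3 * p.lam * rW y else 0) else
      (if y ∈ T then 0 else t' y)) + (if y ∈ T then 0 else h y)) ≤
      ∑ y ∈ Om, (A y + (p.U + 1)) := by
    refine sum_le_sum fun y hy => ?_
    have := hp.U
    rw [hA]
    by_cases h1 : y ∈ T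
    · simp only [if_pos h1, add_zero]
      by_cases h2 : w y = 0
      · have h3 : ¬ 2⁻¹ ≤ w y := by rw [h2]; norm_num
        rw [if_neg h3, ite_self, h2]
        linarith
      · obtain ⟨-, k1, k2, -, -, k3, -⟩ := ht y hy (tm y h2)
        have k4 := mul_nonneg (hw.nn y) k2
        have k5 := hw.le y
        have k6 := hw.nn y
        split_ifs with h3 h4 <;> nlinarith
    · obtain ⟨-, k1, k2, -, k4, k3, -⟩ := ht y hy ((fT y hy h1).mono (by omega))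
      simp only [if_neg h1]
      split_ifs <;> linarith
  have c3 : ∑ y ∈ C'.filter (¬ 2⁻¹ ≤ w ·), 3 * p.lam * rW y ≤
      ∑ y ∈ Om, (2⁻¹ * ((1 - w y) * e y) + rg y) + p.U * Om.card := by
    have k1 := sum_le_sum fun y (hy : y ∈ C'.filter (¬ 2⁻¹ ≤ w ·)) => hm4 y (hcs (mem_filter.1 hy).1)
    have k2 := sum_charge_box (n := p.n) (f := fun y => e y / 8 + rg y)
      (S := C'.filter (¬ 2⁻¹ ≤ w ·)) (T := Om.filter (w · ≤ 3 / 4))
      (fun y => by simp only [H.pe y, H.prg y]) 2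
      (fun y hy => H.rc_om (cO (mem_filter.1 hy).1)) (fun y hy u hu => ?_) fun y hy => by
        linarith [H.e0 y (mem_filter.1 hy).1, H.rg0 y (mem_filter.1 hy).1]
    · have k3 : ∑ y ∈ Om.filter (w · ≤ 3 / 4), (e y / 8 + rg y) ≤
          ∑ y ∈ Om, (2⁻¹ * ((1 - w y) * e y) + rg y) := by
        rw [sum_filter]
        refine sum_le_sum fun y hy => ?_
        have := H.e0 y hy; have := H.rg0 y hy; have := hw.le y
        split_ifs <;> nlinarith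
      have k4 : ((C'.filter (¬ 2⁻¹ ≤ w ·)).card : ℝ) ≤ Om.card := by
        exact_mod_cast card_le_card ((filter_subset _ _).trans cO)
      rw [sum_add_distrib, ← mul_sum (a := 625⁻¹), sum_const, nsmul_eq_mul] at k1
      rw [show (2 * (2 : ℕ) + 1 : ℝ) ^ 4 = 625 by norm_num] at k2
      linarith [mul_le_mul_of_nonneg_left k4 hp.U]
    · obtain ⟨h1, h2⟩ := mem_filter.1 hy
      obtain ⟨-, x, h3, h4⟩ := mem_tb.1 (hcs h1)
      refine mem_filter.2 ⟨hom ▸ mem_tb.2 ⟨rc_rc _ _, x, mem_union_left _ h3,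
        nearT_rc_right.2 ((h4.trans (nearT_add hu)).mono n2)⟩, ?_⟩
      have k1 := hw.lip y 2 u hu
      have k2 := (hp.exp_le (k := 2) (by omega)).2
      have k3 : p.M⁻¹ ≤ 1 / 10 := by rw [one_div]; exact inv_anti₀ (by norm_num) hM
      have k4 : 0 < p.M⁻¹ := by positivity
      rw [hw.per]
      nlinarith [mul_le_mul_of_nonneg_right k2 (add_nonneg (hw.nn y) k4.le)]
  have c4 : ∀ S ⊆ Om, (∀ y ∈ S, ¬ Far p.n 2 Y y) → ∑ y ∈ S, e y ≤ ∑ y ∈ Om, (1 - w y) * e y :=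
    fun S h1 h2 => (sum_congr rfl fun y hy => by
      rw [hw.zero y fun h3 => h2 y hy (h3.mono (by omega)), sub_zero, one_mul]).trans_le
      (sum_le_sum_of_subset_of_nonneg h1 fun y hy _ =>
        mul_nonneg (sub_nonneg.2 (hw.le y)) (H.e0 y hy))
  have c5 := c4 _ h2O fun y hy h1 => (mem_tb'.1 hy).2 (h1.sub (hY ▸ subset_union_left))
  have c6 := (card_nsmul_le_sum _ _ _ H.noi).trans (c4 _ nO fun y hy h1 =>
    h1 y (hY ▸ mem_union_right _ hy) (nearT.refl _ _ _))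
  have c7 : ∑ y ∈ Om \ C', t' y ≤ ∑ y ∈ Om \ C', (if y ∈ T then 0 else t' y) +
      p.M2 * (tb p.n p.D1 HH \ C').card + p.M1 * (V * Nz.card) := by
    have k1 : ∑ y ∈ Om \ C', t' y ≤ ∑ y ∈ Om \ C', ((if y ∈ T then 0 else t' y) +
        (if y ∈ tb p.n p.D1 HH \ C' then p.M2 else 0) + if y ∈ tb p.n p.d2 Nz then p.M1 else 0) := by
      refine sum_le_sum fun y hy => ?_
      obtain ⟨h1, h2⟩ := mem_sdiff.1 hy
      have h3 : y ∉ Wm := fun h => h2 (hwm h)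
      have := hp.M1; have := hp.M2
      by_cases h4 : y ∈ T
      · rw [if_pos h4, zero_add]
        rw [hT, hY, tb_union, mem_union] at h4
        rcases h4 with h4 | h4
        · rw [if_pos (mem_sdiff.2 ⟨tb_mono subset_rfl (by omega) h4, h2⟩)]
          have := H.m2 y h1 h3 (hm2 y h4 h2)
          split_ifs <;> linarith
        · rw [if_pos h4]
          have := H.m1 y h1 h3
          split_ifs <;> linarith
      · rw [if_neg h4]; split_ifs <;> linarith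
    have k2 : ∀ (S : Finset St) (c : ℝ), 0 ≤ c →
        ∑ y ∈ Om \ C', (if y ∈ S then c else 0) ≤ c * S.card := fun S c hc => by
      rw [sum_ite_mem, sum_const, nsmul_eq_mul, mul_comm]
      gcongr; exact inter_subset_right
    rw [sum_add_distrib, sum_add_distrib] at k1
    linarith [k2 (tb p.n p.D1 HH \ C') _ hp.M2, k2 (tb p.n p.d2 Nz) _ hp.M1,
      mul_le_mul_of_nonneg_left (cV p.d2 (by omega) Nz) hp.M1]
  have c8 : p.gD * (D.filter (Far p.n (p.d2 + p.dD) Y)).card ≤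
      ∑ y ∈ Om, (if y ∈ T then 0 else h y) := by
    have k1 := (card_nsmul_le_sum _ _ _ fun y (hy : y ∈ D.filter (Far p.n (p.d2 + p.dD) Y)) =>
      hbig y (mem_filter.1 hy).1 (mem_filter.1 hy).2).trans (sum_charge_box (T := Om \ T) H.ph p.dD
      (fun y hy => H.dd y (mem_filter.1 hy).1) (fun y hy u hu => mem_sdiff.2
        ⟨hom ▸ mem_tb.2 ⟨rc_rc _ _, y, mem_union_right _ (mem_filter.1 hy).1,
          nearT_rc_right.2 ((nearT_add hu).mono n5)⟩,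
        fun h1 => (mem_tb'.1 (hT ▸ h1)).2 (far_rc.2 ((mem_filter.1 hy).2.add hu))⟩)
      fun y hy => (ht y (mem_sdiff.1 hy).1 ((fT y (mem_sdiff.1 hy).1 (mem_sdiff.1 hy).2).mono
        (by omega))).2.2.1)
    rw [nsmul_eq_mul, ← mul_assoc, mul_comm, mul_le_mul_iff_right₀ (by positivity), mul_comm] at k1
    rw [sum_ite, sum_const_zero, zero_add, ← sdiff_eq_filter]
    exact k1
  have c9 : (D.card : ℝ) ≤ (D.filter (Far p.n (p.d2 + p.dD) Y)).card + V * (HH.card + Nz.card) := by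
    have k1 : ((D.filter (¬ Far p.n (p.d2 + p.dD) Y ·)).card : ℝ) ≤
        (tb p.n (p.d2 + p.dD) Y).card := by
      exact_mod_cast card_le_card fun y hy =>
        mem_tb'.2 ⟨H.dd y (mem_filter.1 hy).1, (mem_filter.1 hy).2⟩
    have k2 : (Y.card : ℝ) ≤ HH.card + Nz.card := by exact_mod_cast hY ▸ card_union_le _ _
    rw [← card_filter_add_card_filter_not (Far p.n (p.d2 + p.dD) Y)]
    push_cast
    linarith [cV _ n4 Y, mul_le_mul_of_nonneg_left k2 (zero_le_one.trans V1)]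
  have c10 : ((tb p.n p.D4 (HH ∪ D)).card : ℝ) ≤ V * (HH.card + D.card) :=
    (cV _ le_rfl _).trans (by gcongr; exact_mod_cast card_union_le _ _)
  have c11 : (Om.card : ℝ) ≤ (tb p.n p.D4 (HH ∪ D)).card := by
    exact_mod_cast card_le_card (hom ▸ tb_mono subset_rfl n6)
  have c12 : (CC.card : ℝ) ≤ ∑ C ∈ CC, (tau (LL p.l * p.n) p.DD0 C : ℝ) := by
    simpa using card_nsmul_le_sum CC (fun C => (tau (LL p.l * p.n) p.DD0 C : ℝ)) 1
      fun C _ => by exact_mod_cast tau_pos hp.DD0 C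
  have c13 : ∑ y ∈ Om, (if y ∈ C' then (if 2⁻¹ ≤ w y then 3 * p.lam * rW y else 0) else
      (if y ∈ T then 0 else t' y)) + ∑ y ∈ C'.filter (¬ 2⁻¹ ≤ w ·), 3 * p.lam * rW y =
      3 * p.lam * ∑ y ∈ C', rW y + ∑ y ∈ Om \ C', (if y ∈ T then 0 else t' y) := by
    rw [sum_ite, filter_mem_eq_inter, inter_eq_right.2 cO, ← sdiff_eq_filter, ← sum_filter,
      add_right_comm, sum_filter_add_sum_filter_not, mul_sum]
  have g1 := hp.gD
  have g2 := hp.gN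
  have g3 := hp.u
  rw [← hV] at g1 g2 g3
  simp only [sum_add_distrib, sum_const, nsmul_eq_mul, ← mul_sum] at b1 b2 c1 c2 c3 c6 c13 ⊢
  obtain ⟨Q, hQ⟩ : ∃ Q, Q = ∑ C ∈ CC, (tau (LL p.l * p.n) p.DD0 C : ℝ) := ⟨_, rfl⟩
  rw [← hQ] at b2 b3 c12 ⊢
  have U0 := hp.U0; have U1 := hp.U; have g0 := hp.g0
  have z1 : (0 : ℝ) ≤ HH.card := by positivity
  have z2 : (0 : ℝ) ≤ D.card := by positivity
  have z3 : (0 : ℝ) ≤ Nz.card := by positivity
  have z4 : (0 : ℝ) ≤ Q + Wm.card := add_nonneg ((Nat.cast_nonneg _).trans c12) (by positivity)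
  have d1 := mul_le_mul_of_nonneg_left c10 (by positivity : 0 ≤ p.U0 + 2 * p.U + 10)
  have d2 := mul_le_mul_of_nonneg_left c11 (by positivity : 0 ≤ 2 * p.U + 10)
  have d3 := mul_le_mul_of_nonneg_left c9 gD0
  have d4 := mul_le_mul_of_nonneg_left b3 (by positivity : 0 ≤ 2 * p.gD * V)
  have d5 := mul_le_mul_of_nonneg_right g3 z4
  have d6 := mul_le_mul_of_nonneg_right g2 z3
  have d7 := mul_le_mul_of_nonneg_right g1 (add_nonneg z1 z2)
  have d8 := mul_le_mul_of_nonneg_left V1 (mul_nonneg gD0 z1)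
  have d9 := mul_le_mul_of_nonneg_left c12 g0
  have d10 := mul_nonneg g0 z1
  have d11 : (0 : ℝ) ≤ Om.card := by positivity
  linarith

end Pool.Agent.Lib.MP_7f377f_mp.RG.Q4
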