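import Pool.Agent.Lib.MP_7f377f_mp.Q4SmE
import Pool.Agent.Lib.MP_7f377f_mp.Q4TrF

/-! The smoothing lemma for the data of the tree step. -/

noncomputable section

namespace Pool.Agent.Lib.MP_7f377f_mp.RG.Q4

open Finset MeasureTheory

attribute [local irreducible] box lbox

theorem exF_adc (u : S3) (B : Fld) :
    exF (adF (fun _ => cS u) B) = gauge star (fun _ => cS u) (exF B) :=
  funext fun _ => ex_adq (uni_cS u) _

/-- comparison with the Gaussian mean in another gauge -/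
theorem smL_close_gauge {Λ : Finset Lk} {ζ ε c m κ : ℝ} {b : Cf} {a : Fld} {P : Fld → Fld}
    {K : Conf → ℂ} (B : SmB Λ ε m b a P) (R : SmR Λ c b a P) (hζ : 0 < ζ) (h : 5 * m * ζ ≤ ε)
    (c0 : 0 < c) (c1 : c ≤ 1) (h1 : ε ≤ 1 / 100)
    (ht : 24 * (Λ.card + 1) * Real.exp (-(ζ ^ 2 / 4)) ≤ 1) (hK : Measurable K) (hκ : ∀ U, ‖K U‖ ≤ κ)
    (v : St → S3) {U : (Lk → E3) → Conf} (hU : ∀ z, ∀ f ∈ Λ, cS (gauge Inv.inv v (U z) f) =
      ex (a f + P (adF (fun x => cS (v x)) (zc ζ z)) f) * b f)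
    (hx : ∀ z, K (xL Λ fun i => gauge Inv.inv v (U z) i) = K (U z)) :
    ‖smL Λ ζ ε b a P K - ∫ z, K (U z) ∂(nuI ζ)‖ ≤ 48 * Λ.card * Real.exp (-(ζ ^ 2 / 4)) * κ := by
  have := Smo.nu_prob hζ
  choose T hT using fun f : Lk => exists_rot (v f.1)
  let E : (Lk → E3) ≃ᵐ (Lk → E3) :=
    MeasurableEquiv.piCongrRight fun f => (T f).symm.toHomeomorph.toMeasurableEquiv
  have mp : MeasurePreserving E (nuI ζ) (nuI ζ) := ⟨E.measurable, (Measure.infinitePi_map_pi _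
    fun f : Lk => (T f).symm.continuous.measurable).trans (by simp only [Smo.nu_rot, nuI])⟩
  have key := smL_close B R hζ h c0 c1 h1 ht hK hκ (U := fun z => gauge Inv.inv v (U (E z)))
    fun z f hf => by
      rw [hU _ f hf]
      congr 4
      funext e
      change adq (cS (v e.1)) (if ‖(T e).symm (z e)‖ ≤ ζ then cE ((T e).symm (z e)) else 0) =
        if ‖z e‖ ≤ ζ then cE (z e) else 0
      rw [(T e).symm.norm_map]
      split_ifs
      exacts [by rw [← hT, (T e).apply_symm_apply], adq_zero _]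
  simp only [hx] at key
  rwa [mp.integral_comp' fun z => K (U z)] at key

namespace Nt

/-- the smoothed mean of `K` as a function of the coarse field -/
def Fs (t : Nt) (s : V →ₗ[ℝ] V) (R : ℕ) (Λ : Finset Lk) (ζ ε g : ℝ) (K : Conf → ℂ) (B : Fld) : ℂ :=
  smL Λ ζ ε (Us t.O.l s (exF (cut R (cg B)))) (t.As (exF (cut R (cg B))))
    (fun X => (g : ℂ) • polK t.O.l t.O.Λ (pP t.O.N) ∅
      (fun y => t.kd (sh y (exF (cut R (cg B))))) X) K

variable {t : Nt} {r c : ℕ} {τ P δ d ε : ℝ} {m : BF} {s : V →ₗ[ℝ] V} {B : Fld}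
  (h : t.Ok r c τ m s P δ) (z : t.Sz c τ P δ d)
include h z

omit z in
theorem kd_agr' {W W' : Cf} (hW : Agr (1 + t.rA r) W W') : t.kd W = t.kd W' := by
  funext e i e' j
  exact j2_agr h (zero_mem_box 0) (hW.mono (by unfold rA; omega)) (As_agr h hW) (fun _ _ => rfl)
    fun _ _ => rfl

theorem dk (hG : GR t.G) (hε : (LL t.O.l : ℝ) ^ (9 * c + 46) * d ≤ ε) (h1 : ε ≤ 1) :
    Dk t.O d ((LL t.O.l : ℝ) ^ (c + 7) * (P * d)) ε (fun B => Us t.O.l s (exF B))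
      (fun B => t.As (exF B)) fun B y => t.kd (sh y (exF B)) := by
  have b := En.hy_pow h.lin h.r_ge h.r_le (le_refl (c + 5))
  have d0 := z.d0
  have L0 := h.op.LL_ge
  have k := h.up (C := 20) (i := 9 * c + 45) (j := 9 * c + 46) (by norm_num) (by omega) d0.le
  have k0 : d ≤ (LL t.O.l : ℝ) ^ (9 * c + 45) * d :=
    le_mul_of_one_le_left d0.le (one_le_pow₀ (by linarith))
  have e : ((LL t.O.l : ℝ) ^ (c + 5)) ^ 9 = LL t.O.l ^ (9 * c + 45) := by ring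
  have h9 : ((LL t.O.l : ℝ) ^ (c + 5)) ^ 9 * d ≤ 1 := by rw [e]; linarith
  refine ⟨fun B hB => ⟨fun f => ⟨?_, ?_⟩, fun y => ⟨kd_symm _, kd_kc h z (B := sh y B) fun _ => hB _⟩⟩,
    fun B hB rB => ⟨fun f => ?_, As_real' h z hG hB rB,
      fun y => kd_real' h z hG (B := sh y B) (fun _ => hB _) fun _ => rB _⟩,
    fun Ω γ o dγ hγ => ⟨?_, (fm_const h z o dγ hγ).As_disc, (fm_const h z o dγ hγ).ka_disc⟩,
    fun u B hB _ _ => ?_⟩
  · have := JS.near_one (b.Uz_ap h9 hB (A := 0) (fun _ => by simpa using d0.le) f).2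
    rw [En.Uz_zero, e] at this
    nlinarith [h.d_le z]
  · have := As_small h z hB f
    rw [le_div_iff₀ (by linarith)] at this
    nlinarith [norm_nonneg (t.As (exF B) f)]
  · obtain ⟨U, hU⟩ := JS.exF_real rB
    exact ⟨_, by rw [← hU, ← cC_Ub]; rfl⟩
  · simpa only [En.Uz_zero] using b.Uz_disc h9 dγ (disc_const 0) hγ fun _ _ _ => by simpa using d0.le
  · simp only [exF_adc]
    exact ⟨En.Us_gauge h.lin (fun _ => uni_cS u) _, As_cov h (fun _ => u) (gw_exF h z hB),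
      kd_cov h (fun _ => u) (gw_exF h z hB)⟩

variable (hG : GR t.G) (hε : (LL t.O.l : ℝ) ^ (9 * c + 46) * d ≤ ε) (h1 : ε ≤ 1 / 100)
  {g ζ κ : ℝ} {Λ : Finset Lk} {K : Conf → ℂ} (g0 : 0 < g) (hζ : 1 ≤ ζ)
  (hm : 5 * (g * (LL t.O.l : ℝ) ^ (6 * c + 16)) * ζ ≤ ε) (hK : Measurable K) (hκ : ∀ U, ‖K U‖ ≤ κ)

theorem Ok.kc_le : (LL t.O.l : ℝ) ^ (2 * c + 10) * ((LL t.O.l : ℝ) ^ (c + 7) * (P * d)) ≤ 1 ∧
    10 * d ≤ (LL t.O.l : ℝ) ^ (c + 7) * (P * d) := by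
  have k := h.small z (j := 3 * c + 17) (by omega)
  have d0 := z.d0
  have P1 := h.P1
  have k1 := h.up (C := 10) (i := 0) (j := c + 7) (x := P * d) (by norm_num) (by omega) (by positivity)
  have k2 : (LL t.O.l : ℝ) ^ (3 * c + 17) * (P * d) ≤ LL t.O.l ^ (3 * c + 17) * (P * (d + τ)) := by
    gcongr
    linarith [h.τ0]
  refine ⟨le_of_eq_of_le (by ring) (k2.trans ?_), le_trans (by nlinarith) k1⟩
  linarith [k2.trans' (by positivity : (0 : ℝ) ≤ _)]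

include hG hε h1 g0 hζ hm hK hκ

/-- the smoothing lemma for the data of the tree step -/
theorem sm_tb (hΛ : ∀ f ∈ Λ, ¬ tree t.O.l f) {R : ℕ} {ρ η : ℝ}
    (hKg : ∀ (u : S3) U, K (gauge Inv.inv (fun _ => u) U) = K U) (hρ : 6 * R * ρ ≤ d) (h0 : 0 < η)
    (hh : (Λ.card + 1) ^ 2 * (LL t.O.l : ℝ) ^ (6 * c + 18) * (ε / g) ^ 2 * η ≤ ρ) :
    Tb R ρ η (2 * κ) fun B => t.Fs s R Λ ζ ε g K B :=
  (dk h z hG hε (by linarith)).smT h.op (h.kc_le z).1 (h.kc_le z).2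
    (fun f hf => act_empty.2 (hΛ f hf)) hK hκ hKg hρ g0 hζ hm h1 h0 hh

/-- the smoothed mean is close to the Gaussian mean for real fields of small curvature -/
theorem sm_close {R a : ℕ} {η : ℝ} (hΛ : ∀ f ∈ Λ, f ∈ lbox (fb t.O.l a) ∧ ¬ tree t.O.l f)
    (hR : a + 2 * t.O.N + 1 + t.rA r ≤ R) (ht : 24 * (Λ.card + 1) * Real.exp (-(ζ ^ 2 / 4)) ≤ 1)
    {W : Conf} (hW : ∀ x ∈ box R, ∀ μ ν, fq W x μ ν ≤ η) (hη : 6 * R * η ≤ d) {H : Set St}
    {ka : St → Kf} (hH : ∀ y ∈ box (a + 2 * t.O.N + 3), y ∉ H)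
    (hk : ∀ y ∈ box (a + 2 * t.O.N), ka y = t.kd (sh y (cC W))) {Z : (Lk → E3) → Fld}
    (hZ : ∀ z, Agr (fb t.O.l (a + 2 * t.O.N)) (Z z) (zc ζ z)) {U : (Lk → E3) → Conf}
    (hU : ∀ z, ∀ f ∈ Λ, U z f = Ms.e0 (WithLp.toLp 2 fun k => ((t.As (cC W) +
      (g : ℂ) • polK t.O.l t.O.Λ (pP t.O.N) H ka (Z z)) f k).re) * Ub t.O.l s W f)
    (hKg : ∀ v U, K (gauge Inv.inv v U) = K U) {X : Set Lk}
    (hX : ∀ U U', (∀ f ∈ X, U f = U' f) → K U = K U')
    (hX' : ∀ f ∈ X, f ∈ Λ ∨ tree t.O.l f ∧ ∀ z, U z f = 1) :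
    ‖t.Fs s R Λ ζ ε g K (Bx 0 (cC W)) - ∫ z, K (U z) ∂(nuI ζ)‖ ≤
      48 * Λ.card * Real.exp (-(ζ ^ 2 / 4)) * κ := by
  have D := dk h z hG hε (by linarith)
  obtain ⟨hB, a1⟩ := comb_real hW (by linarith [h.d_le z])
  rw [Fs, cg_Bx]
  have rB : RealF (cut R (Bx 0 (cC W))) := cg_Bx (cC W) ▸ JS.cut_cg_real (Bx_real 0 W)
  generalize cut R (Bx 0 (cC W)) = B at hB a1 rB
  generalize cmb Inv.inv W = u at a1
  replace hB := fun e => (hB e).trans hη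
  have L1 : (1 : ℝ) ≤ (LL t.O.l : ℝ) ^ (6 * c + 16) := one_le_pow₀ (by linarith [h.op.LL_ge])
  have gL : g ≤ g * (LL t.O.l : ℝ) ^ (6 * c + 16) := le_mul_of_one_le_right g0.le L1
  have R := D.smR h.op (h.kc_le z).1 (h.kc_le z).2 hB rB g0.le
    fun f hf => act_empty.2 (hΛ f hf).2
  refine smL_close_gauge (D.smB h.op (h.kc_le z).1 (h.kc_le z).2 hB g0.le ∅ Λ) R (by linarith) hm
    (by linarith) (by nlinarith) h1 ht hK hκ (fun x => u (yo t.O.l x)) (fun w f hf => ?_) fun w => ?_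
  · have hf' := (hΛ f hf).1
    have p := polK_rel (Λ := t.O.Λ) (u := fun x => cS (u x)⁻¹) (fun _ => uni_cS _)
      (Op.natDegree_pP t.O.N) (r := a) (H := ∅) (H' := H) (fun y hy => by simp [hH y hy])
      (ka := fun y => t.kd (sh y (exF B))) (ka' := ka) (fun y hy _ => by
        rw [hk y hy, kd_agr' h (Agr.sh (a1.mono (by omega)) hy)]
        exact kd_cov h (fun x => (u x)⁻¹) (gw_exF h z hB) y)
      (A := adF (fun x => cS (u (yo t.O.l x))) (zc ζ w)) (A' := Z w) (fun e he => by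
        rw [hZ w e he, adF, adF, cS_inv, adq_star_adq (uni_cS _)]) f hf'
    have q := R.hP _ (fun e => adq_real (u (yo t.O.l e.1)).q (Smo.zc_real (ζ := ζ) w e)) f hf
    rw [gauge, cS_mul, cS_mul, hU w f hf, cS_mul, Ms.cS_e0, Pi.add_apply, Pi.smul_apply, ← p,
      As_agr h (a1.mono (by omega)) f hf', As_cov h (fun x => (u x)⁻¹) (gw_exF h z hB), aS, adF, adF,
      ← adq_smul, ← adq_add, cE_re (b := adq (cS _) _) (adq_real _ fun k => by
        rw [Pi.add_apply, Complex.add_im, R.ha f hf k, zero_add]; exact q k),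
      show cS (Ub t.O.l s W f) = _ from congrFun (cC_Ub _ _ _) f,
      En.Us_agr h.lin (a1.mono (by unfold rA at hR; omega)) f hf',
      En.Us_gauge h.lin fun _ => uni_cS _, ex_adq (uni_cS _), gauge]
    simp only [cS_inv, star_star, mul_assoc, Pi.smul_apply]
    rw [← mul_assoc (cS _) (star _), uni_cS, one_mul, ← mul_assoc (cS _) (star _), uni_cS, one_mul,
      uni_cS, mul_one]
  · refine (hX _ _ fun f hf => ?_).trans (hKg (fun x => u (yo t.O.l x)) _)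
    unfold xL
    split_ifs with h'
    · rfl
    · obtain ⟨a2, a3⟩ := (hX' f hf).resolve_left h'
      rw [gauge, a3, a2.1, mul_one, mul_inv_cancel]

end Nt

end Pool.Agent.Lib.MP_7f377f_mp.RG.Q4
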