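import Pool.Agent.Lib.MP_7f377f_mp.Q4CalmB
import Pool.Agent.Lib.MP_7f377f_mp.Q4SmF
import Pool.Agent.Lib.MP_7f377f_mp.Q4FldB
import Pool.Agent.Lib.MP_7f377f_mp.Q4TOk

/-! The functionals of a calm block: bounds and holomorphy for small fields. -/

noncomputable section

namespace Pool.Agent.Lib.MP_7f377f_mp.RG.Q4

open Finset Polynomial Metric

namespace Cm

theorem log_lip {x y : ℂ} (hx : ‖x‖ ≤ 1 / 2) (hy : ‖y‖ ≤ 1 / 2) :
    ‖Complex.log (1 + x) - Complex.log (1 + y)‖ ≤ 2 * ‖x - y‖ := by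
  have k : ∀ t ∈ closedBall (0 : ℂ) (1 / 2), HasDerivWithinAt (fun t => Complex.log (1 + t))
      (1 + t)⁻¹ (closedBall (0 : ℂ) (1 / 2)) t := fun t ht => by
    have := ((hasDerivAt_id t).const_add 1).clog (Complex.mem_slitPlane_of_norm_lt_one
      ((mem_closedBall_zero_iff.1 ht).trans_lt (by norm_num)))
    simpa using this.hasDerivWithinAt
  refine (convex_closedBall _ _).norm_image_sub_le_of_norm_hasDerivWithin_le k (fun t ht => ?_)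
    (mem_closedBall_zero_iff.2 hy) (mem_closedBall_zero_iff.2 hx)
  have h1 := norm_sub_le (1 + t) t
  rw [add_sub_cancel_right, norm_one] at h1
  rw [norm_inv]
  exact inv_le_of_inv_le₀ two_pos (by linarith [mem_closedBall_zero_iff.1 ht])

theorem dot_half {a : C3} (h : ‖a‖ ≤ 1 / 4) : ‖dot a a‖ ≤ 1 / 2 :=
  (norm_dot a a).trans (by nlinarith [norm_nonneg a])

theorem sum_lbox {l : ℕ} {f : Lk → ℂ} {x : ℝ} (h : ∀ e ∈ lbox l, ‖f e‖ ≤ x) :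
    ‖∑ e ∈ lbox l, f e‖ ≤ 4 * (LL l : ℝ) ^ 4 * x :=
  (norm_sum_le _ _).trans ((sum_le_card_nsmul _ _ _ h).trans_eq (by
    rw [card_lbox, nsmul_eq_mul]; push_cast [LL]; ring))

theorem e4_sub {l : ℕ} {A v : Fld} {a α : ℝ} (hA : Sm l a A) (hv : Sm l α v) (h : a + α ≤ 1 / 4) :
    ‖e4 l (A + v) - e4 l A‖ ≤ 48 * (LL l : ℝ) ^ 4 * ((2 * a + α) * α) := by
  have a0 := hA.nonneg
  have α0 := hv.nonneg
  rw [e4, e4, ← mul_sub, ← sum_sub_distrib, norm_mul, Complex.norm_two]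
  refine (mul_le_mul_of_nonneg_left (sum_lbox (x := 6 * ((2 * a + α) * α)) fun f hf => ?_)
    zero_le_two).trans_eq (by ring)
  have h1 := hA f hf
  have h2 := hv f hf
  refine (log_lip (dot_half ((norm_add_le_of_le h1 h2).trans h)) (dot_half (by linarith))).trans ?_
  have e : dot (A f + v f) (A f + v f) - dot (A f) (A f) = dot (A f + (A f + v f)) (v f) := by
    simp only [dot, Pi.add_apply, ← sum_sub_distrib]
    exact sum_congr rfl fun k _ => by ring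
  have h3 : ‖A f + (A f + v f)‖ ≤ a + (a + α) := norm_add_le_of_le h1 (norm_add_le_of_le h1 h2)
  have h4 := mul_le_mul h3 h2 (norm_nonneg _) (by positivity)
  rw [e]
  linarith [norm_dot (A f + (A f + v f)) (v f)]

theorem e4_le {l : ℕ} {A : Fld} {a : ℝ} (hA : Sm l a A) (h : a ≤ 1 / 4) :
    ‖e4 l A‖ ≤ 48 * (LL l : ℝ) ^ 4 * a ^ 2 := by
  have := e4_sub (A := 0) (a := 0) (fun _ _ => by simp) hA (by linarith)
  rw [zero_add, show e4 l 0 = 0 by simp [e4, dot], sub_zero] at this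
  exact this.trans_eq (by ring)

theorem e4_diff {l : ℕ} {Ω : Set ℂ} {A : ℂ → Fld} (dA : Disc Ω A)
    (h : ∀ t ∈ Ω, Sm l (1 / 4) (A t)) : DifferentiableOn ℂ (fun t => e4 l (A t)) Ω := by
  refine (DifferentiableOn.fun_sum fun f hf => DifferentiableOn.clog
    ((DifferentiableOn.fun_sum fun k _ => ?_).const_add 1) fun t ht =>
      Complex.mem_slitPlane_of_norm_lt_one ((dot_half (h t ht f hf)).trans_lt (by norm_num))).const_mul 2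
  have := differentiableOn_pi.1 (dA f) k
  exact this.mul this

/-- the standing assumptions -/
structure Hp (S : Sd) : Prop where
  nu : S.Nu 100
  ok : S.t.Ok S.r S.c S.τ S.m S.s (S.L ^ (2 * S.Kt)) S.δ
  gr : GR S.t.G
  tok : S.TOk
  tk : S.TK

theorem ev_hp (c : ℕ) : ∀ᶠ S in ev c, Hp S :=
  ((ev_nu' c 100).and ((tk c).and ev_tok)).mono fun _ h => ⟨h.1, h.2.1.ok, h.2.1.gr, h.2.2, h.2.1⟩

variable {S : Sd} {d x : ℝ} {B : Fld} {W : Cf} {z : Lk → E3}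

/-- the interaction with the field independent part of the Jacobian frozen -/
def s2 (S : Sd) (W : Cf) (z : Lk → E3) : ℂ := S.s1 W z - e4 S.l (S.t.As W) + e4 S.l (S.t.As 1)

theorem s2_one (z : Lk → E3) : s2 S 1 z = S.s1 1 z := sub_add_cancel _ _

theorem exF_zero : exF 0 = 1 := funext fun _ => ex_zero

namespace Hp

variable (h : Hp S)
include h

theorem cq {C : ℝ} {i : ℕ} (hC : C ≤ 10 ^ 20) (hi : i + 1 ≤ S.K) : C * S.L ^ i ≤ S.Q :=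
  (mul_le_mul_of_nonneg_right (h.nu.cL' hC) (pow_pos (Sd.L0 _) _).le).trans
    (by rw [← pow_succ']; exact h.nu.LQ hi)

theorem cD {C : ℝ} {i : ℕ} (hC : C ≤ 10 ^ 20) (hi : i + 1 ≤ S.K0) : C * S.L ^ i ≤ S.D0 :=
  (mul_le_mul_of_nonneg_right (h.nu.cL' hC) (pow_pos (Sd.L0 _) _).le).trans
    (by rw [← pow_succ']; exact h.nu.LD hi)

theorem D0 : (0 : ℝ) < S.D0 := (Sd.L0 _).trans_le h.nu.L_le_D

theorem Di : (0 : ℝ) < (S.D0 : ℝ)⁻¹ := inv_pos.2 h.D0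

theorem g0 : 0 < S.g := h.nu.ok.g0

theorem Qg {i j : ℕ} (hi : i ≤ 500) (hj : 1 ≤ j) : S.Q ^ i * S.g ^ j ≤ 1 :=
  (mul_le_mul (Sd.Qw S hi) (pow_le_of_le_one h.g0.le h.nu.ok.g1 (by omega)) (pow_pos h.g0 _).le
    (pow_pos S.Q0 _).le).trans h.nu.ok.Qg

/-- `Q ^ i * g ^ j ≤ c * g ^ k` -/
theorem Qgg {i j k : ℕ} (hi : i ≤ 499) (hj : k < j) : 1000 * (S.Q ^ i * S.g ^ j) ≤ S.g ^ k := by
  obtain ⟨n, rfl⟩ := Nat.exists_eq_add_of_lt hj
  have h1 := h.Qg (i := i + 1) (j := n + 1) (by omega) (by omega)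
  have h2 : (1000 : ℝ) ≤ S.Q := h.nu.cQ' (by norm_num)
  have g0 := h.g0
  have q0 := S.Q0
  calc _ = 1000 * (S.Q ^ i * S.g ^ (n + 1)) * S.g ^ k := by ring
    _ ≤ S.Q * (S.Q ^ i * S.g ^ (n + 1)) * S.g ^ k := by gcongr
    _ = S.Q ^ (i + 1) * S.g ^ (n + 1) * S.g ^ k := by ring
    _ ≤ _ := mul_le_of_le_one_left (by positivity) h1

theorem Qg1 {i : ℕ} (hi : i ≤ 499) : 1000 * (S.Q ^ i * S.g) ≤ 1 := by
  simpa using h.Qgg (j := 1) (k := 0) hi one_pos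

theorem Qg_D {i : ℕ} (hi : i ≤ 499) : S.Q ^ i * S.g ≤ (S.D0 : ℝ)⁻¹ := by
  have h1 := h.Qg (i := i + 1) (j := 1) (by omega) le_rfl
  have g0 := h.g0
  have q0 := S.Q0
  rw [inv_eq_one_div, le_div_iff₀ h.D0]
  calc _ ≤ S.Q ^ i * S.g * S.Q := by gcongr; exact h.nu.D_le_Q
    _ = _ := by ring
    _ ≤ _ := h1

theorem fo : S.Fo (S.L ^ (2 * S.Kt)) := ⟨h.nu.mono (Nat.zero_le _), h.ok, h.gr, h.tk.sz, le_rfl⟩

theorem sz (d0 : 0 < d) (d1 : d ≤ (S.D0 : ℝ)⁻¹) : S.t.Sz S.c S.τ (S.L ^ (2 * S.Kt)) S.δ d := by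
  have h1 : (8 : ℝ) ≤ S.r := h.nu.cr' (by norm_num)
  refine h.tk.sz d d0 ?_
  rw [Td.δ, div_eq_mul_inv]
  exact mul_le_mul (h1.trans (le_self_pow₀ h.nu.r1' (by norm_num))) d1 d0.le (by positivity)

theorem szD : S.t.Sz S.c S.τ (S.L ^ (2 * S.Kt)) S.δ (S.D0 : ℝ)⁻¹ := h.sz h.Di le_rfl

theorem ζ0 : 0 ≤ S.ζ := h.D0.le.trans h.nu.D_le_Q

theorem D_small : (S.D0 : ℝ)⁻¹ ≤ 1 / 1000 := h.ok.d_le h.szD

theorem αD : S.Q ^ 2 * S.g ≤ (S.D0 : ℝ)⁻¹ / LL S.l := by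
  have g0 := h.g0
  have q0 := S.Q0
  rw [le_div_iff₀ (show 0 < (LL S.l : ℝ) from Sd.L0 S.toTd)]
  calc _ ≤ S.Q ^ 2 * S.g * S.Q := by gcongr; exact h.nu.L_le_Q
    _ = S.Q ^ 3 * S.g := by ring
    _ ≤ _ := h.Qg_D (by norm_num)

theorem DL : (S.D0 : ℝ)⁻¹ / LL S.l ≤ 1 / 1000 :=
  (div_le_self h.Di.le (Sd.L1 S.toTd)).trans h.D_small

section big

variable (hB : ∀ e, ‖B e‖ ≤ (S.D0 : ℝ)⁻¹)
include hB

theorem gw : S.t.Gw (exF B) := Nt.gw_exF h.ok h.szD hB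

theorem gk (y : St) : Gk S.t.O ((LL S.t.O.l : ℝ) ^ (S.c + 7) * (S.L ^ (2 * S.Kt) * (S.D0 : ℝ)⁻¹)) ∅
    (S.ka (exF B)) (exF B) 1 y :=
  ⟨fun _ => (gp_exF hB (h.D_small.trans (by norm_num)) y).mono (h.ok.kc_le h.szD).2,
    fun _ => Nt.kd_kc h.ok h.szD (B := sh y B) fun _ => hB _⟩

theorem pol_le (z : Lk → E3) (f : Lk) :
    ‖S.pol0 (pP S.N) (exF B) (zc S.ζ z) f‖ ≤ S.L ^ (6 * S.c + 16) * S.ζ ∧
      ‖S.pol0 (pU S.N) (exF B) (zc S.ζ z) f‖ ≤ Real.exp (-(S.l : ℝ) ^ 2) * S.ζ :=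
  have := polK_pP h.ok.op (h.ok.kc_le h.szD).1 f (fun _ _ => h.gk hB _)
    (sm_of_all (norm_zc h.ζ0 z) _ _)
  ⟨this.1, this.2.2⟩

theorem v0_le (z : Lk → E3) (f : Lk) : ‖S.v0 (exF B) z f‖ ≤ S.Q ^ 2 * S.g := by
  have e := h.nu.exps
  have h1 := h.nu.LQ (k := 6 * S.c + 16) (by omega)
  have g0 := h.g0
  have q0 := S.Q0
  rw [Sd.v0, Sd.P0, Pi.smul_apply, norm_smul, Complex.norm_real, Real.norm_of_nonneg h.nu.ok.gt0.le]
  calc _ ≤ S.g * (S.Q * S.Q) := mul_le_mul h.nu.ok.gt_le ((h.pol_le hB z f).1.trans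
        (mul_le_mul_of_nonneg_right h1 h.ζ0)) (norm_nonneg _) g0.le
    _ = _ := by ring

theorem As_le (f : Lk) : ‖S.t.As (exF B) f‖ ≤ (S.D0 : ℝ)⁻¹ / LL S.l := Nt.As_small h.ok h.szD hB f

theorem uu_le (z : Lk → E3) : ‖uu S (exF B) z‖ ≤ S.g ^ 3 := by
  have e := h.nu.exps
  have q0 := S.Q0
  refine (sum_lbox (x := 3 * S.Q * (Real.exp (-(S.l : ℝ) ^ 2) * S.Q)) fun f _ => (norm_dot _ _).trans
    (mul_le_mul (mul_le_mul_of_nonneg_left (norm_zc h.ζ0 z f) (by norm_num)) (h.pol_le hB z f).2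
      (norm_nonneg _) (by positivity))).trans ?_
  calc _ = 12 * S.L ^ 4 * (S.Q ^ 2 * Real.exp (-(S.l : ℝ) ^ 2)) := by rw [Td.L]; ring
    _ ≤ S.Q * (S.Q ^ 2 * Real.exp (-(S.l : ℝ) ^ 2)) := by gcongr; exact h.cq (by norm_num) (by omega)
    _ = S.Q ^ 3 * Real.exp (-(S.l : ℝ) ^ 2) := by ring
    _ ≤ _ := h.nu.exp_g h.nu.r_le_lsq (by norm_num) (by norm_num)

/-- the part of the interaction which depends on the fluctuation -/
theorem s1_sub (z : Lk → E3) :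
    ‖S.s1 (exF B) z - e4 S.l (S.t.As (exF B))‖ ≤ 2 * (S.Q ^ 7 * S.g) := by
  have e := h.nu.exps
  have g0 := h.g0
  have q0 := S.Q0
  have q1 := S.Q1
  have a1 := h.αD
  have a2 := h.DL
  have L0 := Sd.L0 S.toTd
  have D0 := h.Di
  have h1 := Nt.rem3_bd h.ok h.szD hB (y := 0) (sm_of_all (h.v0_le hB z) _ _) (by positivity)
    (a1.trans (by rw [mul_div_assoc]; exact le_mul_of_one_le_left (by positivity) (by norm_num)))
  have h2 := e4_sub (l := S.l) (fun f _ => h.As_le hB f) (fun f _ => h.v0_le hB z f) (by linarith)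
  rw [Sd.s1, add_sub_assoc, two_mul]
  refine norm_add_le_of_le ?_ (h2.trans ?_)
  · rw [norm_mul, Complex.norm_real, Real.norm_of_nonneg h.nu.ok.β0.le]
    calc _ ≤ S.β * (96 * S.L ^ (2 * S.Kt) * S.L ^ 3 * (S.Q ^ 2 * S.g) ^ 3) :=
          mul_le_mul_of_nonneg_left h1 h.nu.ok.β0.le
      _ = 96 * S.L ^ (2 * S.Kt + 3) * (S.Q ^ 6 * S.g) * (S.β * S.g ^ 2) := by ring
      _ ≤ S.Q * (S.Q ^ 6 * S.g) * 1 := by
          rw [h.nu.ok.βg]; gcongr; exact h.cq (by norm_num) (by omega)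
      _ = _ := by ring
  · calc _ ≤ 48 * S.L ^ 4 * (1 * (S.Q ^ 2 * S.g)) := by rw [Td.L]; gcongr; linarith
      _ ≤ S.Q * (1 * (S.Q ^ 6 * S.g)) := by
          gcongr
          exacts [h.cq (by norm_num) (by omega), by norm_num]
      _ = _ := by ring

end big

section small

variable (hB : ∀ e, ‖B e‖ ≤ S.Q ^ 4 * S.g)
include hB

theorem big (e : Lk) : ‖B e‖ ≤ (S.D0 : ℝ)⁻¹ := (hB e).trans (h.Qg_D (by norm_num))

omit hB in
theorem sz4 : S.t.Sz S.c S.τ (S.L ^ (2 * S.Kt)) S.δ (S.Q ^ 4 * S.g) :=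
  h.sz (mul_pos (pow_pos S.Q0 _) h.g0) (h.Qg_D (by norm_num))

omit hB in
theorem dτ : (S.Q ^ 4 * S.g) ^ 2 + S.τ * (S.Q ^ 4 * S.g) ≤ 2 * (S.Q ^ 8 * S.g ^ 2) := by
  have g0 := h.g0
  have h1 := h.nu.τ_g (i := 4) (j := 1) (by norm_num) (by norm_num)
  have h2 : S.g ^ 2 ≤ S.Q ^ 8 * S.g ^ 2 := le_mul_of_one_le_left (by positivity) (one_le_pow₀ S.Q1)
  nlinarith [mul_le_mul_of_nonneg_right h1 g0.le]

theorem As_sm (f : Lk) : ‖S.t.As (exF B) f‖ ≤ S.Q ^ 9 * S.g ^ 2 := by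
  have e := h.nu.exps
  have g0 := h.g0
  have q0 := S.Q0
  have L0 := Sd.L0 S.toTd
  refine (Nt.As_bd h.ok h.sz4 hB f).trans ?_
  calc _ ≤ S.L ^ (8 * S.c + 24) * (S.L ^ (2 * S.Kt) * (2 * (S.Q ^ 8 * S.g ^ 2))) :=
        mul_le_mul_of_nonneg_left (mul_le_mul_of_nonneg_left h.dτ (by positivity)) (by positivity)
    _ = 2 * S.L ^ (8 * S.c + 24 + 2 * S.Kt) * (S.Q ^ 8 * S.g ^ 2) := by ring
    _ ≤ S.Q * (S.Q ^ 8 * S.g ^ 2) := by gcongr; exact h.cq (by norm_num) (by omega)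
    _ = _ := by ring

theorem e4_As : ‖e4 S.l (S.t.As (exF B))‖ ≤ S.g ^ 3 := by
  have e := h.nu.exps
  have g0 := h.g0
  have q0 := S.Q0
  have h1 := h.Qgg (i := 9) (j := 2) (k := 0) (by norm_num) (by norm_num)
  have h2 := h.Qgg (i := 19) (j := 4) (k := 3) (by norm_num) (by norm_num)
  refine (e4_le (fun f _ => h.As_sm hB f) (by linarith)).trans ?_
  calc _ ≤ S.Q * (S.Q ^ 9 * S.g ^ 2) ^ 2 := by gcongr; exact h.cq (by norm_num) (by omega)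
    _ = S.Q ^ 19 * S.g ^ 4 := by ring
    _ ≤ _ := by linarith [pow_pos g0 3]

theorem gg_le (z : Lk → E3) : ‖S.β * gg S (exF B) z‖ ≤ S.g ^ 3 := by
  have e := h.nu.exps
  have g0 := h.g0
  have q0 := S.Q0
  have L0 := Sd.L0 S.toTd
  have t0 := h.ok.th_le h.sz4
  have h1 := Nt.gv_As h.ok h.sz4 hB (y := 0) (sm_of_all (h.v0_le (h.big hB) z) _ _)
    fun f hf => Sd.v0_tree hf
  have h2 : S.t.th S.c (S.L ^ (2 * S.Kt)) (S.Q ^ 4 * S.g) ≤ S.Q ^ 6 * S.g := by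
    have a := h.nu.exp_g (i := 0) (j := 1) h.nu.r_le_lsq (by norm_num) (by norm_num)
    have b := h.nu.LQ (k := 9 * S.c + 29 + 2 * S.Kt) (by omega)
    have c : (2 : ℝ) ≤ S.Q := h.nu.cQ' (by norm_num)
    have d : S.g ≤ S.Q ^ 5 * S.g := le_mul_of_one_le_left g0.le (one_le_pow₀ S.Q1)
    calc _ = Real.exp (-(S.l : ℝ) ^ 2) + S.L ^ (9 * S.c + 29 + 2 * S.Kt) * (S.Q ^ 4 * S.g) := by
          rw [pow_add, mul_assoc]; rfl
      _ ≤ S.Q ^ 5 * S.g + S.Q * (S.Q ^ 4 * S.g) := by gcongr; linarith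
      _ = 2 * (S.Q ^ 5 * S.g) := by ring
      _ ≤ S.Q * (S.Q ^ 5 * S.g) := by gcongr
      _ = _ := by ring
  have h3 : S.t.th S.c (S.L ^ (2 * S.Kt)) (S.Q ^ 4 * S.g) ^ S.t.p ≤ (S.Q ^ 6 * S.g) ^ 3 :=
    (pow_le_pow_of_le_one t0.1.le (by linarith [t0.2]) (show 3 ≤ S.t.p by norm_num [Td.t])).trans
      (pow_le_pow_left₀ t0.1.le h2 3)
  have h4 := h.Qgg (i := 29) (j := 4) (k := 3) (by norm_num) (by norm_num)
  rw [norm_mul, Complex.norm_real, Real.norm_of_nonneg h.nu.ok.β0.le]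
  calc _ ≤ S.β * (12 * S.L ^ 4 * ((S.Q ^ 6 * S.g) ^ 3 * (S.L ^ 2 * (S.L ^ (2 * S.Kt) *
        (2 * (S.Q ^ 8 * S.g ^ 2)))) * (S.Q ^ 2 * S.g))) := by
        refine mul_le_mul_of_nonneg_left (h1.trans (mul_le_mul_of_nonneg_left
          (mul_le_mul_of_nonneg_right (mul_le_mul h3 (mul_le_mul_of_nonneg_left
            (mul_le_mul_of_nonneg_left h.dτ (by positivity)) (by positivity)) ?_ (by positivity))
              (by positivity)) (by positivity))) h.nu.ok.β0.le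
        have := Sd.Nu.τ0 (S := S)
        positivity
    _ = 24 * S.L ^ (2 * S.Kt + 6) * (S.Q ^ 28 * S.g ^ 4) * (S.β * S.g ^ 2) := by ring
    _ ≤ S.Q * (S.Q ^ 28 * S.g ^ 4) * 1 := by
        rw [h.nu.ok.βg]; gcongr; exact h.cq (by norm_num) (by omega)
    _ = S.Q ^ 29 * S.g ^ 4 := by ring
    _ ≤ _ := by linarith [pow_pos g0 3]

end small

theorem e4_one : ‖e4 S.l (S.t.As 1)‖ ≤ S.g ^ 3 := by
  rw [← exF_zero]
  exact h.e4_As fun _ => by simpa using (mul_pos (pow_pos S.Q0 _) h.g0).le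

theorem g3 : S.g ^ 3 ≤ S.Q ^ 7 * S.g :=
  (pow_le_of_le_one h.g0.le h.nu.ok.g1 (by norm_num)).trans
    (le_mul_of_one_le_left h.g0.le (one_le_pow₀ S.Q1))

theorem s2_le (hB : ∀ e, ‖B e‖ ≤ (S.D0 : ℝ)⁻¹) (z : Lk → E3) :
    ‖s2 S (exF B) z‖ ≤ 3 * (S.Q ^ 7 * S.g) :=
  (norm_add_le_of_le (h.s1_sub hB z) h.e4_one).trans (by linarith [h.g3])

theorem s12 (hB : ∀ e, ‖B e‖ ≤ S.Q ^ 4 * S.g) (z : Lk → E3) :
    ‖s2 S (exF B) z - S.s1 (exF B) z‖ ≤ 2 * S.g ^ 3 := by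
  rw [s2, show ∀ a b c : ℂ, a - b + c - a = c - b from fun _ _ _ => by ring]
  exact (norm_sub_le_of_le h.e4_one (h.e4_As hB)).trans_eq (by ring)

theorem s2_diff {Ω : Set ℂ} (hΩ : IsOpen Ω) {B : ℂ → Fld} (dB : Disc Ω B)
    (hB : ∀ t ∈ Ω, ∀ e, ‖B t e‖ ≤ (S.D0 : ℝ)⁻¹) (z : Lk → E3) :
    DifferentiableOn ℂ (fun t => s2 S (exF (B t)) z) Ω := by
  have F := Nt.fm_const h.ok h.szD hΩ dB hB
  have a1 := h.αD
  have a2 := h.DL
  have L0 := Sd.L0 S.toTd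
  have D0 := h.Di
  have a0 : 0 ≤ S.Q ^ 2 * S.g := (mul_pos (pow_pos S.Q0 _) h.g0).le
  have dv : Disc Ω fun t => S.v0 (exF (B t)) z := fun e =>
    (polK_disc (A := fun _ => zc S.ζ z) F.ka_disc (fun _ => differentiableOn_const _) e).const_smul _
  have dA : Disc Ω fun t => S.t.As (exF (B t)) := F.As_disc
  refine ((((F.rem3_disc dv 0 fun t ht => sm_of_all (fun e => (h.v0_le (hB t ht) z e).trans
    (a1.trans ?_)) _ _).const_mul _).add (e4_diff (fun e => (dA e).add (dv e)) fun t ht f _ =>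
      (norm_add_le_of_le (h.As_le (hB t ht) f) (h.v0_le (hB t ht) z f)).trans (by linarith))).sub
        (e4_diff dA fun t ht f _ => (h.As_le (hB t ht) f).trans (by linarith))).add_const _
  rw [mul_div_assoc]
  exact le_mul_of_one_le_left (by positivity) (by norm_num)

end Hp

end Cm

end Pool.Agent.Lib.MP_7f377f_mp.RG.Q4
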