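import Pool.Agent.Lib.MP_7f377f_mp.Q4Mk

/-! Cancellation of two Mayer marks against the pair marks. -/

noncomputable section

namespace Pool.Agent.Lib.MP_7f377f_mp.RG.Q4

open Finset MeasureTheory Filter Metric
open scoped Classical

attribute [local irreducible] box lbox

namespace Cm

variable {S : Sd} {b : ℝ} {B : Fld} {W : Cf} {U : Conf} {z : Lk → E3} {y u : St} {ψ : Lx} {K : Ac}
  {w : St → S3}

theorem exp_lip {x y : ℂ} (hx : ‖x‖ ≤ 1 / 2) (hy : ‖y‖ ≤ 1 / 2) :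
    ‖Complex.exp x - Complex.exp y‖ ≤ 4 * ‖x - y‖ := by
  have h1 := Complex.norm_exp_sub_one_le (x := y) (by linarith)
  have h2 := Complex.norm_exp_sub_one_le (x := x - y) ((norm_sub_le_of_le hx hy).trans (by norm_num))
  have h3 := norm_add_le (Complex.exp y - 1) 1
  rw [sub_add_cancel, norm_one] at h3
  rw [show Complex.exp x - Complex.exp y = Complex.exp y * (Complex.exp (x - y) - 1) by
    rw [mul_sub, ← Complex.exp_add, add_sub_cancel, mul_one], norm_mul]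
  exact (mul_le_mul (show _ ≤ (2 : ℝ) by linarith) h2 (norm_nonneg _) zero_le_two).trans_eq (by ring)

theorem mul_lip {a a' c c' : ℂ} {η δ : ℝ} (h1 : ‖a - c‖ ≤ δ) (h2 : ‖a' - c'‖ ≤ δ) (h3 : ‖c‖ ≤ η)
    (h4 : ‖c'‖ ≤ η) : ‖a * a' - c * c'‖ ≤ 2 * (η * δ) + δ ^ 2 := by
  have d0 := (norm_nonneg _).trans h1
  have e0 := (norm_nonneg _).trans h3
  rw [show a * a' - c * c' = (a - c) * (a' - c') + ((a - c) * c' + c * (a' - c')) by ring]
  exact (norm_add_le_of_le (norm_mul_le_of_le h1 h2) (norm_add_le_of_le (norm_mul_le_of_le h1 h4)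
    (norm_mul_le_of_le h3 h2))).trans_eq (by ring)

namespace Hp

variable (h : Hp S)
include h

theorem s2_lip (hB : ∀ e, ‖B e‖ ≤ S.Q ^ 4 * S.g) (z : Lk → E3) :
    ‖s2 S (exF B) z - s2 S 1 z‖ ≤ 6 * (S.Q ^ 12 * S.g ^ 2) := by
  have g0 := h.g0
  have q0 := S.Q0
  have D0 := h.D0
  have x0 : 0 < S.Q ^ 4 * S.g := by positivity
  have q2 : (2 : ℝ) ≤ S.Q := h.nu.cQ' (by norm_num)
  have k : ∀ t ∈ ball (0 : ℂ) ((S.D0 : ℝ)⁻¹ / (S.Q ^ 4 * S.g)), ∀ e,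
      ‖(t • B) e‖ ≤ (S.D0 : ℝ)⁻¹ := fun t ht e => by
    rw [Pi.smul_apply, norm_smul]
    exact (mul_le_mul (mem_ball_zero_iff.1 ht).le (hB e) (norm_nonneg _) (by positivity)).trans_eq
      (div_mul_cancel₀ _ x0.ne')
  have h1 : (1 : ℂ) ∈ ball (0 : ℂ) ((S.D0 : ℝ)⁻¹ / (S.Q ^ 4 * S.g)) := by
    rw [mem_ball_zero_iff, norm_one, lt_div_iff₀ x0]
    have := h.Qg_D (i := 5) (by norm_num)
    rw [pow_succ' _ 4, mul_assoc] at this
    nlinarith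
  have := Complex.dist_le_div_mul_dist_of_mapsTo_ball (R₂ := 6 * (S.Q ^ 7 * S.g))
    (h.s2_diff (B := fun t => t • B) isOpen_ball (fun e => by
      simp only [Pi.smul_apply]
      fun_prop) k z) (fun t ht => by
      rw [mem_closedBall_iff_norm]
      exact (norm_sub_le_of_le (h.s2_le (k t ht) z) (h.s2_le (k 0 (mem_ball_self
        (by positivity))) z)).trans_eq (by ring)) h1
  rw [dist_eq_norm, dist_zero_right, norm_one, one_smul, zero_smul, mul_one, exF_zero] at this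
  refine this.trans ?_
  calc _ = 6 * (S.Q ^ 11 * S.g ^ 2 * S.D0) := by field_simp
    _ ≤ 6 * (S.Q ^ 11 * S.g ^ 2 * S.Q) := by gcongr; exact h.nu.D_le_Q
    _ = _ := by ring

theorem s1_flat (hB : ∀ e, ‖B e‖ ≤ S.Q ^ 4 * S.g) (z : Lk → E3) :
    ‖S.s1 (exF B) z‖ ≤ 3 * (S.Q ^ 7 * S.g) := by
  rw [← sub_add_cancel (S.s1 _ _) (e4 S.l (S.t.As (exF B)))]
  exact (norm_add_le_of_le (h.s1_sub (h.big hB) _) (h.e4_As hB)).trans (by linarith [h.g3])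

theorem s1_one' (z : Lk → E3) : ‖S.s1 1 z‖ ≤ 3 * (S.Q ^ 7 * S.g) := by
  rw [← exF_zero]
  exact h.s1_flat (fun _ => by simpa using (mul_pos (pow_pos S.Q0 _) h.g0).le) z

variable (hc : ‖S.c1‖ ≤ 9 * (S.Q ^ 7 * S.g))
include hc

theorem f0_one (z : Lk → E3) : ‖S.f0 1 z‖ ≤ S.Q ^ 8 * S.g := by
  have a := h.Qg1 (i := 7) (by norm_num)
  have q : (24 : ℝ) ≤ S.Q := h.nu.cQ' (by norm_num)
  have x0 := mul_pos (pow_pos S.Q0 7) h.g0
  have h1 := norm_add_le_of_le ((norm_neg _).trans_le (h.s1_one' z)) hc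
  refine (Complex.norm_exp_sub_one_le (by linarith)).trans ?_
  rw [pow_succ' _ 7, mul_assoc]
  nlinarith

theorem f0_lip (hB : ∀ e, ‖B e‖ ≤ S.Q ^ 4 * S.g) (z : Lk → E3) :
    ‖S.f0 (exF B) z - S.f0 1 z‖ ≤ S.Q ^ 13 * S.g ^ 2 := by
  have a := h.Qg1 (i := 7) (by norm_num)
  have q : (32 : ℝ) ≤ S.Q := h.nu.cQ' (by norm_num)
  have g0 := h.g0
  have x0 := mul_pos (pow_pos S.Q0 12) (pow_pos h.g0 2)
  have h1 := norm_add_le_of_le ((norm_neg _).trans_le (h.s1_one' z)) hc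
  have h2 := norm_add_le_of_le ((norm_neg _).trans_le (h.s1_flat hB z)) hc
  have h3 := norm_sub_le_of_le (h.s12 hB z) (h.s2_lip hB z)
  have h4 : S.g ^ 3 ≤ S.Q ^ 12 * S.g ^ 2 :=
    (pow_le_pow_of_le_one g0.le h.nu.ok.g1 (by norm_num)).trans
      (le_mul_of_one_le_left (by positivity) (one_le_pow₀ S.Q1))
  rw [Sd.f0, Sd.f0, sub_sub_sub_cancel_right]
  refine (exp_lip (by linarith) (by linarith)).trans ?_
  rw [s2_one] at h3
  rw [show ∀ a b c : ℂ, -a + c - (-b + c) = s2 S (exF B) z - a - (s2 S (exF B) z - b) from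
    fun _ _ _ => by ring, pow_succ' _ 12, mul_assoc]
  nlinarith

theorem f0_ga (a : Ga S W w B) (z : Lk → E3) :
    ‖S.f0 W z - S.f0 1 (zi S w z)‖ ≤ S.Q ^ 13 * S.g ^ 2 := by
  rw [show S.f0 W z = S.f0 (exF B) (zi S w z) by rw [Sd.f0, h.s1_ga a, Sd.f0]]
  exact h.f0_lip hc a.bd _

theorem c2_le' (u : St) : ‖S.c2 u‖ ≤ S.Q ^ 16 * S.g ^ 2 := by
  have := nuI_prob (ζ := S.ζ) S.Q0
  rw [Sd.c2, norm_neg]
  simpa using norm_integral_le_of_norm_le_const (μ := nuI S.ζ) (C := S.Q ^ 16 * S.g ^ 2)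
    (ae_of_all _ fun z => (norm_mul_le_of_le (h.f0_one hc z)
      (h.f0_one hc (sh (up S.l u) z))).trans_eq (by ring))

theorem c2_main (hψ : PU S.p b ψ) (hU : Per S.n U) (hy : y ∈ S.Λ') (hu : u ∈ S.prs)
    (i : S.In U {oP y u}) (hf : ∀ ψ U z, PU S.p b ψ → Fq (S.p'.R + 1) S.p'.ε U →
      ‖S.fm ψ (cC U) z - S.f0 (cC U) z‖ ≤ S.Q ^ 20 * (S.g ^ 3 + b)) :
    ‖S.wO ψ K U {oM y, oM (rc S.n (y + u))} + S.wO ψ K U {oP y u} +
      S.wO ψ K U {oP (rc S.n (y + u)) (-u)}‖ ≤ S.θ2 b := by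
  have := nuI_prob (ζ := S.ζ) S.Q0
  have g0 := h.g0
  have g1 := h.nu.ok.g1
  have q0 := S.Q0
  have q1 := S.Q1
  have b0 := pu_nonneg hψ (by rw [Sd.p_ρ]; have := h.nu.ok.QQM; have := S.Q0.trans_le this; positivity)
  have R := S.R_eq
  have F1 : Fq (S.p'.R + 1) S.p'.ε (sh y U) := In.fq hU i (mem_singleton_self _)
    ((rc_eq h.nu.ok.odd hy).symm ▸ mem_insert_self _ _)
  have F2 : Fq (S.p'.R + 1) S.p'.ε (sh u (sh y U)) := by
    rw [sh_sh, add_comm u]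
    exact In.fq hU i (mem_singleton_self _) (mem_insert_of_mem (mem_singleton_self _))
  have a1 := h.ga0 (F1.mono (by omega) le_rfl)
  have a2 := h.ga (F1.mono (by omega) le_rfl) (box_mono (by omega) (mem_erase.1 hu).2)
  have q2 : (2 : ℝ) ≤ S.Q := h.nu.cQ' (by norm_num)
  have d : S.Q ^ 20 * (S.g ^ 3 + b) + S.Q ^ 13 * S.g ^ 2 ≤ S.Q ^ 21 * (S.g ^ 2 + b) := by
    have e1 : S.g ^ 3 ≤ S.g ^ 2 := pow_le_pow_of_le_one g0.le g1 (by norm_num)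
    calc _ ≤ S.Q ^ 20 * (S.g ^ 2 + b) + S.Q ^ 20 * (S.g ^ 2 + b) := by
          gcongr
          exacts [by norm_num, by linarith]
      _ = 2 * (S.Q ^ 20 * (S.g ^ 2 + b)) := by ring
      _ ≤ S.Q * (S.Q ^ 20 * (S.g ^ 2 + b)) := by gcongr
      _ = _ := by ring
  have k1 : ∀ z, ‖S.fm (S.ψy ψ y) (cC (sh y U)) z - S.f0 1 (zi S (uc (sh y U)) z)‖ ≤
      S.Q ^ 21 * (S.g ^ 2 + b) := fun z =>
    (norm_sub_le_norm_sub_add_norm_sub _ _ _).trans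
      ((add_le_add (hf _ _ z (pu_tr hψ _ _) F1) (h.f0_ga hc a1 z)).trans d)
  have k2 : ∀ z, ‖S.fm (S.ψy ψ (rc S.n (y + u))) (cC (sh u (sh y U))) (sh (up S.l u) z) -
      S.f0 1 (sh (up S.l u) (zi S (uc (sh y U)) z))‖ ≤ S.Q ^ 21 * (S.g ^ 2 + b) := fun z =>
    (norm_sub_le_norm_sub_add_norm_sub _ _ _).trans
      ((add_le_add (hf _ _ _ (pu_tr hψ _ _) F2) (zi_sh _ z u ▸ h.f0_ga hc a2 _)).trans d)
  have k3 := fun z => mul_lip (k1 z) (k2 z) (h.f0_one hc _) (h.f0_one hc _)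
  have ms := (mp_sh (ζ := S.ζ) S.Q0 (up S.l u)).measurable
  have m1 := (h.f0_meas' 1).mul ((h.f0_meas' 1).comp ms)
  have m2 := (h.fm_meas' (pu_tr hψ S.nf (up S.l y)) (cC (sh y U))).mul ((h.fm_meas'
    (pu_tr hψ S.nf (up S.l (rc S.n (y + u)))) (cC (sh u (sh y U)))).comp ms)
  have m3 := m1.comp (mp_zi (S := S) (uc (sh y U))).measurable
  have i1 := Integrable.of_bound (μ := nuI S.ζ) m3.aestronglyMeasurable _ (ae_of_all _ fun z =>
    norm_mul_le_of_le (h.f0_one hc _) (h.f0_one hc _))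
  have i2 := Integrable.of_bound (μ := nuI S.ζ) (m2.sub m3).aestronglyMeasurable _ (ae_of_all _ k3)
  have k4 := norm_integral_le_of_norm_le_const (μ := nuI S.ζ) (ae_of_all _ k3)
  have i3 := i2.add i1
  rw [sub_add_cancel] at i3
  have e : ∫ z, S.f0 1 (zi S (uc (sh y U)) z) * S.f0 1 (sh (up S.l u) (zi S (uc (sh y U)) z))
      ∂nuI S.ζ = -S.c2 u := by
    rw [Sd.c2, neg_neg]
    exact int_zi _ m1
  erw [integral_sub i3 i1, e, ← h.wO_near (K := K) hψ hU hy hu, probReal_univ, mul_one] at k4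
  have k5 := h.c2_le' hc u
  have k6 := h.Qgg (i := 16) (j := 2) (k := 0) (by norm_num) (by norm_num)
  have k7 : ‖S.c2 u / 2‖ ≤ S.Q ^ 16 * S.g ^ 2 / 2 := by
    rw [norm_div, Complex.norm_two]
    gcongr
  have k8 := (Complex.norm_exp_sub_one_sub_id_le (x := S.c2 u / 2) (by linarith)).trans
    (pow_le_pow_left₀ (norm_nonneg _) k7 2)
  rw [h.wO_oP, h.wO_oP, h.c2_neg, show ∀ a e : ℂ, a + (e - 1) + (e - 1) = a - -S.c2 u +
    ((e - 1 - S.c2 u / 2) + (e - 1 - S.c2 u / 2)) from fun _ _ => by ring]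
  refine (norm_add_le_of_le k4 (norm_add_le_of_le k8 k8)).trans ?_
  have gb : 0 ≤ S.g * b := by positivity
  have e1 : S.g ^ 4 ≤ S.g ^ 3 := pow_le_pow_of_le_one g0.le g1 (by norm_num)
  have e2 : S.g ^ 2 * b ≤ S.g * b := by
    rw [sq, mul_assoc]
    exact mul_le_of_le_one_left gb g1
  have q5 : (5 : ℝ) ≤ S.Q ^ 3 := (h.nu.cQ' (by norm_num)).trans (le_self_pow₀ q1 (by norm_num))
  calc _ = 2 * (S.Q ^ 29 * (S.g ^ 3 + S.g * b)) + S.Q ^ 42 * (S.g ^ 4 + 2 * (S.g ^ 2 * b) + b ^ 2) +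
        S.Q ^ 32 * (S.g ^ 4 / 2) := by ring
    _ ≤ 2 * (S.Q ^ 42 * (S.g ^ 3 + S.g * b + b ^ 2)) +
        S.Q ^ 42 * (2 * (S.g ^ 3 + S.g * b + b ^ 2)) + S.Q ^ 42 * (S.g ^ 3 + S.g * b + b ^ 2) := by
        have g3 := pow_pos g0 3
        have b2 := sq_nonneg b
        exact add_le_add (add_le_add (mul_le_mul_of_nonneg_left (mul_le_mul (Sd.Qw S (by norm_num))
          (by linarith) (by positivity) (by positivity)) zero_le_two)
          (mul_le_mul_of_nonneg_left (by linarith) (by positivity)))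
          (mul_le_mul (Sd.Qw S (by norm_num)) (by linarith) (by positivity) (by positivity))
    _ = 5 * (S.Q ^ 42 * (S.g ^ 3 + S.g * b + b ^ 2)) := by ring
    _ ≤ S.Q ^ 3 * (S.Q ^ 42 * (S.g ^ 3 + S.g * b + b ^ 2)) := by gcongr
    _ = _ := by rw [Sd.θ2]; ring

omit hc in
theorem far_main {y' : St} (hψ : PU S.p b ψ) (hy : y ∈ S.Λ') (hy' : y' ∈ S.Λ')
    (far : ¬ nearT S.n (2 * S.D0) y y') (i : S.In U {oM y, oM y'})
    (h1 : ∀ y ∈ S.Λ', S.In U {oM y} → ‖S.wO ψ K U {oM y}‖ ≤ S.θ2 b) :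
    ‖S.wO ψ K U {oM y, oM y'}‖ ≤ S.θ2 b ^ 2 := by
  rw [h.wO_far hψ hy hy' far, sq]
  exact norm_mul_le_of_le
    (h1 y hy (In.mono i (biUnion_subset_biUnion_of_subset_left _ (by simp))))
    (h1 y' hy' (In.mono i (biUnion_subset_biUnion_of_subset_left _ (by simp))))

end Hp

end Cm

end Pool.Agent.Lib.MP_7f377f_mp.RG.Q4
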