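import Pool.Agent.Lib.MP_7f377f_mp.Q4MeasTree

/-! The laws of the averaged fields and their densities. -/

noncomputable section

namespace Pool.Agent.Lib.MP_7f377f_mp.RG.Q4

open Finset Ms MeasureTheory Measure
open scoped Quaternion ENNReal

namespace Mx

theorem meas_hk (a : ℝ) : Measurable fun g => ENNReal.ofReal (hk a g) :=
  (cont_hk a).measurable.ennreal_ofReal

instance prob_hk (a : ℝ) :
    IsProbabilityMeasure (haar.withDensity fun g => ENNReal.ofReal (hk a g)) :=
  ⟨by rw [withDensity_apply _ MeasurableSet.univ, restrict_univ,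
    ← ofReal_integral_eq_lintegral_ofReal (f := hk a) ((int_hk0 a).div_const _)
      (.of_forall fun g => (hk_pos a g).le), hk_one, ENNReal.ofReal_one]⟩

/-- the law of the noise -/
def nz (a : ℝ) : Measure Conf :=
  infinitePi fun _ : Lk => haar.withDensity fun g => ENNReal.ofReal (hk a g)

instance prob_nz (a : ℝ) : IsProbabilityMeasure (nz a) := by unfold nz; infer_instance

/-- the map defining a step -/
def sm (l n : ℕ) (v : (Conf × (St → Om)) × Conf) : Conf :=
  pc n fun b => v.2 b * blk l v.1.1 (pcs n v.1.2) b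

theorem meas_bp (l n : ℕ) : Measurable fun v : Conf × (St → Om) => blk l v.1 (pcs n v.2) := by
  have := (measurable_blk l).comp ((measurable_id (α := Conf)).prodMap (meas_pcs n))
  simpa only [Function.comp_def, Prod.map, id] using this

theorem meas_sm (l n : ℕ) : Measurable (sm l n) := by
  have h0 : Measurable fun v : (Conf × (St → Om)) × Conf => v.1 := measurable_fst
  have h1 := (meas_bp l n).comp h0
  simp only [Function.comp_def] at h1
  exact (cont_pc n).measurable.comp (measurable_snd.mul h1)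

/-- the transition kernel applied to `G` -/
def Pk (l : ℕ) (a : ℝ) (n : ℕ) (G : Conf → ℝ≥0∞) (U : Conf) : ℝ≥0∞ :=
  ∫⁻ ω, ENNReal.ofReal (Wt l n U ω) * ∫⁻ w, G (sm l n ((U, ω), w)) ∂nz a ∂OO l

theorem meas_in (l : ℕ) (a : ℝ) (n : ℕ) {G : Conf → ℝ≥0∞} (hG : Measurable G) :
    Measurable fun v : Conf × (St → Om) => ∫⁻ w, G (sm l n (v, w)) ∂nz a :=
  (hG.comp (meas_sm l n)).lintegral_prod_right'

theorem meas_Pk (l : ℕ) (a : ℝ) (n : ℕ) {G : Conf → ℝ≥0∞} (hG : Measurable G) :
    Measurable (Pk l a n G) :=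
  ((meas_Wt l n).ennreal_ofReal.mul (meas_in l a n hG)).lintegral_prod_right'

theorem lint_stepM (l : ℕ) (a : ℝ) (n : ℕ) (μ : Measure Conf) [SFinite μ] {G : Conf → ℝ≥0∞}
    (hG : Measurable G) : ∫⁻ W, G W ∂stepM l a n μ = ∫⁻ U, Pk l a n G U ∂μ := by
  have e : stepM l a n μ = (((μ.prod (OO l)).withDensity fun v =>
    ENNReal.ofReal (Wt l n v.1 v.2)).prod (nz a)).map (sm l n) := rfl
  have h1 := (meas_Wt l n).ennreal_ofReal
  have h2 := hG.comp (meas_sm l n)
  simp only [Function.comp_def] at h2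
  rw [e, lintegral_map hG (meas_sm l n), lintegral_prod _ h2.aemeasurable,
    lintegral_withDensity_eq_lintegral_mul _ h1 (meas_in l a n hG),
    lintegral_prod _ (h1.mul (meas_in l a n hG)).aemeasurable]
  rfl

theorem lint_Wt (l n : ℕ) (U : Conf) : ∫⁻ ω, ENNReal.ofReal (Wt l n U ω) ∂OO l = 1 := by
  obtain ⟨C, h⟩ := Wt_bd l n
  have m := (meas_Wt l n).comp (measurable_prodMk_left (x := U))
  simp only [Function.comp_def] at m
  rw [← ofReal_integral_eq_lintegral_ofReal (.of_bound m.aestronglyMeasurable C (.of_forall fun ω =>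
    (Real.norm_of_nonneg (h U ω).1).trans_le (h U ω).2)) (.of_forall fun ω => (h U ω).1), int_Wt,
    ENNReal.ofReal_one]

theorem Pk_one (l : ℕ) (a : ℝ) (n : ℕ) (U : Conf) : Pk l a n (fun _ => 1) U = 1 := by
  simp [Pk, lint_Wt]

theorem Pk_le (l : ℕ) (a : ℝ) (n : ℕ) (A : Set Conf) (U : Conf) :
    Pk l a n (A.indicator 1) U ≤ 1 := by
  rw [← Pk_one l a n U]
  exact lintegral_mono fun ω => mul_le_mul_right (lintegral_mono fun w =>
    Set.indicator_le_self' (fun _ _ => zero_le) _) _

theorem lint_le {μ μ' : Measure Conf} [IsProbabilityMeasure μ] [IsProbabilityMeasure μ'] {η : ℝ}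
    (h : ∀ A, MeasurableSet A → μ.real A - μ'.real A ≤ η) {P : Conf → ℝ≥0∞} (hP : Measurable P)
    (h1 : ∀ U, P U ≤ 1) : (∫⁻ U, P U ∂μ).toReal - (∫⁻ U, P U ∂μ').toReal ≤ η := by
  have h0 : 0 ≤ η := by simpa using h ∅ MeasurableSet.empty
  have hf : ∀ U, P U ≠ ∞ := fun U => ((h1 U).trans_lt ENNReal.one_lt_top).ne
  have e : ∀ ν : Measure Conf, ∫⁻ U, P U ∂ν = ∫⁻ t in Set.Ioi 0, ν {U | t < (P U).toReal} :=
    fun ν => by
      rw [← lintegral_eq_lintegral_meas_lt ν (.of_forall fun U => ENNReal.toReal_nonneg)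
        hP.ennreal_toReal.aemeasurable]
      simp only [ENNReal.ofReal_toReal (hf _)]
  have : ∫⁻ U, P U ∂μ ≤ ∫⁻ U, P U ∂μ' + ENNReal.ofReal η := by
    rw [e, e]
    refine (lintegral_mono (g := fun t => μ' {U | t < (P U).toReal} +
      (Set.Iio 1).indicator (fun _ => ENNReal.ofReal η) t) fun t => ?_).trans ?_
    · by_cases ht : t < 1
      · have h2 := h _ (measurableSet_lt (measurable_const (a := t)) hP.ennreal_toReal)
        beta_reduce
        rw [Set.indicator_of_mem (show t ∈ Set.Iio 1 from ht), ← ofReal_measureReal (μ := μ),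
          ← ofReal_measureReal (μ := μ'), ← ENNReal.ofReal_add measureReal_nonneg h0]
        exact ENNReal.ofReal_le_ofReal (by linarith)
      · have : {U | t < (P U).toReal} = ∅ := Set.eq_empty_of_forall_notMem fun U hU =>
          ht (lt_of_lt_of_le hU (ENNReal.toReal_le_of_le_ofReal zero_le_one (by simpa using h1 U)))
        simp [this]
    · rw [lintegral_add_right _ (measurable_const.indicator measurableSet_Iio),
        lintegral_indicator measurableSet_Iio, restrict_restrict measurableSet_Iio,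
        Set.inter_comm, Set.Ioi_inter_Iio]
      simp
  have h3 : ∫⁻ U, P U ∂μ' ≠ ∞ := ((lintegral_mono h1).trans_lt (by simp)).ne
  have h2 := ENNReal.toReal_mono (ENNReal.add_ne_top.2 ⟨h3, ENNReal.ofReal_ne_top⟩) this
  rw [ENNReal.toReal_add h3 ENNReal.ofReal_ne_top, ENNReal.toReal_ofReal h0] at h2
  linarith

theorem pc_of_mem {α : Type} {n : ℕ} (hn : Odd n) (W : Lk → α) {b : Lk} (hb : b ∈ ldom n) :
    pc n W b = W b := by rw [pc, rc_id hn (mem_lbox.1 hb)]

theorem mp_right (V : Conf) : MeasurePreserving (fun (W : Conf) b => W b * V b) PP PP := by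
  have h : ∀ e : Lk, MeasurePreserving (fun g : S3 => g * V e) haar haar :=
    fun e => measurePreserving_mul_right haar _
  refine ⟨measurable_pi_lambda _ fun e => (h e).measurable.comp (measurable_pi_apply e), ?_⟩
  have := infinitePi_map_pi (fun _ : Lk => haar) fun e => (h e).measurable
  simp only [fun e => (h e).map_eq] at this
  exact this

theorem meas_Hk (a : ℝ) (n : ℕ) (V : Conf) : Measurable fun W => ENNReal.ofReal (Hk a n W V) :=
  ((cont_Hk a n).comp (Continuous.prodMk_left V)).measurable.ennreal_ofReal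

/-- the noise as a density -/
theorem lint_noise (a : ℝ) {n : ℕ} (hn : Odd n) {G : Conf → ℝ≥0∞} (hG : Measurable G) (V : Conf) :
    ∫⁻ w, G (pc n fun b => w b * V b) ∂nz a =
      ∫⁻ W, ENNReal.ofReal (Hk a n W V) * G (pc n W) ∂PP := by
  set H : (ldom n → S3) → ℝ≥0∞ := fun u =>
    G fun e => u ⟨rl n e, mem_lbox.2 (rc_box hn _)⟩ * V (rl n e) with hH
  have mH : Measurable H := hG.comp (measurable_pi_lambda _ fun e =>
    (measurable_pi_apply _).mul measurable_const)
  have mP : Measurable fun u : ldom n → S3 => ∏ b, ENNReal.ofReal (hk a (u b)) :=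
    Finset.measurable_fun_prod _ fun b _ => (meas_hk a).comp (measurable_pi_apply b)
  have mR : Measurable fun W : Conf => ENNReal.ofReal (Hk a n W V) * G (pc n W) :=
    (meas_Hk a n V).mul (hG.comp (cont_pc n).measurable)
  calc _ = ∫⁻ w, H ((ldom n).restrict w) ∂nz a := rfl
    _ = ∫⁻ u, H u ∂(Measure.pi fun _ => haar.withDensity fun g => ENNReal.ofReal (hk a g)) := by
        rw [← lintegral_map mH (Finset.measurable_restrict _), nz, infinitePi_map_restrict]
    _ = ∫⁻ u, (∏ b, ENNReal.ofReal (hk a (u b))) * H u ∂(Measure.pi fun _ => haar) := by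
        rw [pi_dens haar (f := fun _ g => ENNReal.ofReal (hk a g)) fun _ => meas_hk a,
          lintegral_withDensity_eq_lintegral_mul _ mP mH]
        rfl
    _ = ∫⁻ w, (∏ b, ENNReal.ofReal (hk a ((ldom n).restrict w b))) *
          H ((ldom n).restrict w) ∂PP := by
        rw [← infinitePi_map_restrict (μ := fun _ : Lk => haar)]
        exact lintegral_map (mP.mul mH) (Finset.measurable_restrict _)
    _ = _ := by
        rw [← (mp_right V).lintegral_comp mR]
        refine lintegral_congr fun w => ?_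
        simp only [Hk, mul_inv_cancel_right, Finset.restrict]
        rw [Finset.prod_coe_sort (ldom n) fun b => ENNReal.ofReal (hk a (w b)),
          ENNReal.ofReal_prod_of_nonneg fun _ _ => (hk_pos _ _).le]
        rfl

theorem ofReal_TT {l n : ℕ} (a : ℝ) (hn : Odd n) {f : Conf → ℂ} (h : GI (LL l * n) f)
    (hp : ∀ U, 0 ≤ (f U).re) (W : Conf) : ENNReal.ofReal (TT l a n f (pc n W)).re =
      ∫⁻ v, ENNReal.ofReal (f (pc (LL l * n) v.1)).re * (ENNReal.ofReal
        (Wt l n (pc (LL l * n) v.1) v.2) * ENNReal.ofReal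
          (Hk a n W (blk l (pc (LL l * n) v.1) (pcs n v.2)))) ∂PP.prod (OO l) := by
  obtain ⟨hm, ⟨M, hM⟩, -⟩ := h
  obtain ⟨C, -, hC⟩ := Itg_bd l a n
  obtain ⟨C1, hC1⟩ := ker_bd l a n
  obtain ⟨C2, hC2⟩ := Wt_bd l n
  have hi : Integrable (fun v : Conf × (St → Om) => Itg (blk l) l a n f (pc n W)
      (pc (LL l * n) v.1, pcs n v.2)) (PP.prod (OO l)) :=
    .of_bound ((meas_Itg' l a n (measurable_blk l) hm _).comp (meas_pp _ _)).aestronglyMeasurable _
      (.of_forall fun v => hC _ _ M _ _ hM)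
  have e : ∀ bk W v, RCLike.re (Itg bk l a n f W v) = (f v.1).re * ker bk l a n W v.1 v.2 :=
    fun bk W v => by simp [Itg]
  rw [TT_eq, ← (integral_re hi).trans (RCLike.re_to_complex), ofReal_integral_eq_lintegral_ofReal
    hi.re (.of_forall fun v => (mul_nonneg (hp _) (hC1 _ _ _ _).1).trans_eq (e _ _ _).symm)]
  refine lintegral_congr fun v => ?_
  rw [e, ENNReal.ofReal_mul (hp _), ker_eq, ENNReal.ofReal_mul (hC2 _ _).1]
  congr 3
  · exact prod_congr rfl fun y hy => by simp only [pcs, rc_id hn hy]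
  · exact prod_congr rfl fun b hb => by rw [pc_of_mem hn W hb]

theorem lint_TT {l n : ℕ} (a : ℝ) (hn : Odd n) {f : Conf → ℂ} (h : GI (LL l * n) f)
    (hp : ∀ U, 0 ≤ (f U).re) {G : Conf → ℝ≥0∞} (hG : Measurable G) :
    ∫⁻ W, ENNReal.ofReal (TT l a n f (pc n W)).re * G (pc n W) ∂PP =
      ∫⁻ U, ENNReal.ofReal (f (pc (LL l * n) U)).re * Pk l a n G (pc (LL l * n) U) ∂PP := by
  have hq := (cont_pc (LL l * n)).measurable
  have h0 : Measurable fun v : Conf × (St → Om) => (pc (LL l * n) v.1, v.2) :=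
    hq.prodMap measurable_id
  have m0 : Measurable fun U => ENNReal.ofReal (f (pc (LL l * n) U)).re :=
    (Complex.measurable_re.comp (h.1.comp hq)).ennreal_ofReal
  have m1 := (meas_Wt l n).ennreal_ofReal.comp h0
  have hs : Measurable fun z : Conf × Conf × (St → Om) => z.2 := measurable_snd
  have m2 := (cont_Hk a n).measurable.ennreal_ofReal.comp
    (measurable_fst.prodMk (((meas_bp l n).comp h0).comp hs))
  have m3 := ((m0.comp measurable_fst).comp hs).mul ((m1.comp hs).mul m2)
  have m4 := (meas_in l a n hG).comp h0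
  simp only [Function.comp_def, Pi.mul_def] at m1 m3 m4
  have mG : Measurable fun W => G (pc n W) := hG.comp (cont_pc n).measurable
  have m5 := fun W => m3.comp (measurable_prodMk_left (x := W))
  have m6 := m3.mul (mG.comp measurable_fst)
  have m7 := (m0.comp measurable_fst).mul (m1.mul m4)
  have m8 := fun U => (m1.mul m4).comp (measurable_prodMk_left (x := U))
  simp only [Function.comp_def, Pi.mul_def] at m5 m6 m7 m8
  simp only [ofReal_TT a hn h hp, ← lintegral_mul_const _ (m5 _)]
  rw [lintegral_lintegral_swap m6.aemeasurable]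
  refine Eq.trans (lintegral_congr fun v => ?_) ((lintegral_prod _ m7.aemeasurable).trans
    (lintegral_congr fun U => lintegral_const_mul (μ := OO l)
      (ENNReal.ofReal (f (pc (LL l * n) U)).re) (m8 U)))
  have m9 := (meas_Hk a n (blk l (pc (LL l * n) v.1) (pcs n v.2))).mul mG
  simp only [mul_assoc, sm, Pi.mul_def] at m9 ⊢
  rw [lint_noise a hn hG, lintegral_const_mul _ (m9.const_mul _), lintegral_const_mul _ m9]

theorem lint_lawOf (n : ℕ) {f : Conf → ℂ} {G : Conf → ℝ≥0∞} (hf : Measurable f)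
    (hG : Measurable G) : ∫⁻ V, G V ∂lawOf n f = (∫⁻ U, ENNReal.ofReal (f (pc n U)).re ∂PP)⁻¹ *
      ∫⁻ U, ENNReal.ofReal (f (pc n U)).re * G (pc n U) ∂PP := by
  have hp := (cont_pc n).measurable
  rw [lawOf, lintegral_map hG hp, lintegral_smul_measure,
    lintegral_withDensity_eq_lintegral_mul _ (f := fun U => ENNReal.ofReal (f (pc n U)).re)
      (Complex.measurable_re.comp (hf.comp hp)).ennreal_ofReal
      (g := fun U => G (pc n U)) (hG.comp hp)]
  rfl

theorem lawOf_prob {n : ℕ} {f : Conf → ℂ} (h : GI n f) (hp : ∀ U, 0 < (f U).re) :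
    IsProbabilityMeasure (lawOf n f) := by
  obtain ⟨hm, ⟨M, hM⟩, -⟩ := h
  refine ⟨?_⟩
  rw [← lintegral_one, lint_lawOf n hm measurable_const]
  simp only [mul_one]
  refine ENNReal.inv_mul_cancel (ne_of_gt ?_) (ne_of_lt ?_)
  · rw [lintegral_pos_iff_support (f := fun U => ENNReal.ofReal (f (pc n U)).re)
      (Complex.measurable_re.comp (hm.comp (cont_pc n).measurable)).ennreal_ofReal,
      Set.eq_univ_of_forall (s := Function.support _) fun U => (ENNReal.ofReal_pos.2 (hp _)).ne']
    simp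
  · refine (lintegral_mono (g := fun _ => ENNReal.ofReal M) fun U => ?_).trans_lt (by simp)
    exact ENNReal.ofReal_le_ofReal ((Complex.re_le_norm _).trans (hM _))

end Mx

open Mx

theorem stepM_lawOf {l n : ℕ} {a : ℝ} (ha : 0 ≤ a) (hn : Odd n) {f : Conf → ℂ}
    (h : GI (LL l * n) f) (hp : ∀ U, (f U).im = 0 ∧ 0 < (f U).re) :
    stepM l a n (lawOf (LL l * n) f) = lawOf n (TT l a n f) ∧
      IsProbabilityMeasure (lawOf (LL l * n) f) := by
  have hl := lawOf_prob h fun U => (hp U).2
  refine ⟨ext_of_lintegral _ fun G hG => ?_, hl⟩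
  have hm := lint_TT a hn h (fun U => (hp U).2.le) (G := fun _ => 1) measurable_const
  simp only [Pk_one, mul_one] at hm
  rw [lint_stepM l a n _ hG, lint_lawOf _ h.1 (meas_Pk l a n hG), lint_lawOf _ (h.step ha hn).1 hG,
    lint_TT a hn h (fun U => (hp U).2.le) hG, hm]

theorem stepM_prob {l n : ℕ} {a : ℝ} (ha : 0 ≤ a) (μ : Measure Conf) [IsProbabilityMeasure μ] :
    IsProbabilityMeasure (stepM l a n μ) := by
  have _ := ha
  refine ⟨?_⟩
  rw [← lintegral_one, lint_stepM l a n μ measurable_const]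
  simp [Pk_one]

theorem stepM_contr {l n : ℕ} {a : ℝ} (ha : 0 ≤ a) (μ μ' : Measure Conf) [IsProbabilityMeasure μ]
    [IsProbabilityMeasure μ'] {η : ℝ} (h : ∀ A, MeasurableSet A → |μ.real A - μ'.real A| ≤ η)
    (A : Set Conf) (hA : MeasurableSet A) :
    |(stepM l a n μ).real A - (stepM l a n μ').real A| ≤ η := by
  have _ := ha
  have hG : Measurable (A.indicator (1 : Conf → ℝ≥0∞)) := measurable_one.indicator hA
  rw [Measure.real, Measure.real, ← lintegral_indicator_one hA, ← lintegral_indicator_one hA,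
    lint_stepM l a n μ hG, lint_stepM l a n μ' hG]
  exact abs_sub_le_iff.2
    ⟨lint_le (fun A hA => (abs_sub_le_iff.1 (h A hA)).1) (meas_Pk l a n hG) (Pk_le l a n A),
      lint_le (fun A hA => (abs_sub_le_iff.1 (h A hA)).2) (meas_Pk l a n hG) (Pk_le l a n A)⟩

end Pool.Agent.Lib.MP_7f377f_mp.RG.Q4
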