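import Pool.Agent.Lib.MP_7f377f_mp.Q4CubeA
import Pool.Agent.Lib.MP_7f377f_mp.KitHol
import Pool.Agent.Lib.MP_7f377f_mp.RGAp0
import Pool.Agent.Lib.MP_7f377f_mp.RGAp1

/-! Cubes: exponentials, integrals, the Schwarz lemma, holomorphic functions and cutoffs. -/

noncomputable section

namespace Pool.Agent.Lib.MP_7f377f_mp.RG.Q4

open Finset MeasureTheory Function
open scoped Quaternion Pointwise Topology

variable {A B : Type} [NormedAddCommGroup A] [NormedAddCommGroup B] {η : Fin 3 → ℝ} {η0 : ℝ}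

namespace Cb

theorem w_pos (h : Eta η0 η) (S : Finset (Fin 3)) : 0 < ∏ i ∈ S, η i :=
  prod_pos fun i _ => (h i).1

theorem le_cN (h : Eta η0 η) (f : Vx → A) (τ : Finset (Fin 3) → Vx) :
    ∑ S, ‖dS S f (τ S)‖ / ∏ i ∈ S, η i ≤ cN η f :=
  sum_le_sum fun S _ => div_le_div_of_nonneg_right
    (le_ciSup (f := fun T => ‖dS S f T‖) (Set.finite_range _).bddAbove _) (w_pos h S).le

theorem exists_cN (η : Fin 3 → ℝ) (f : Vx → A) :
    ∃ τ : Finset (Fin 3) → Vx, cN η f = ∑ S, ‖dS S f (τ S)‖ / ∏ i ∈ S, η i := by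
  choose τ hτ using fun S => exists_eq_ciSup_of_finite (f := fun T => ‖dS S f T‖)
  exact ⟨τ, sum_congr rfl fun S _ => by rw [hτ]⟩

theorem cN_le (h : Eta η0 η) (f : Vx → A) {M : ℝ}
    (hf : ∀ S T, ‖dS S f T‖ ≤ M * ∏ i ∈ S, η i) : cN η f ≤ 8 * M := by
  obtain ⟨τ, e⟩ := exists_cN η f
  rw [e]
  refine (sum_le_card_nsmul _ _ M fun S _ => (div_le_iff₀ (w_pos h S)).2 (hf S _)).trans ?_
  simp

theorem dS_ins {E : Type} [AddCommGroup E] {S : Finset (Fin 3)} {i : Fin 3} (hi : i ∉ S)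
    (f : Vx → E) (T : Vx) :
    dS (insert i S) f T = dS S (fun T => f (update T i true) - f (update T i false)) T := by
  unfold dS
  rw [sum_powerset_insert hi, add_comm, ← sum_add_distrib]
  refine sum_congr rfl fun S' hS' => ?_
  have hs := mem_powerset.1 hS'
  have hi' : i ∉ S' := fun h => hi (hs h)
  have c := card_le_card hs
  rw [card_insert_of_notMem hi, card_insert_of_notMem hi', Nat.add_sub_add_right,
    show S.card + 1 - S'.card = S.card - S'.card + 1 by omega, pow_succ, smul_sub, mul_neg_one,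
    neg_smul, sub_eq_add_neg]
  congr 4
  · funext j
    by_cases e : j = i
    · simp [e]
    · simp [e]
  · funext j
    by_cases e : j = i
    · simp [e, hi']
    · simp [e]

theorem cN_lim (h : Eta η0 η) {f : ℕ → Vx → A} {g : Vx → A} {M : ℝ}
    (hf : ∀ T, Filter.Tendsto (fun n => f n T) Filter.atTop (𝓝 (g T)))
    (hM : ∀ n, cN η (f n) ≤ M) : cN η g ≤ M := by
  obtain ⟨τ, e⟩ := exists_cN η g
  rw [e]
  refine le_of_tendsto' (f := fun n => ∑ S, ‖dS S (f n) (τ S)‖ / ∏ i ∈ S, η i)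
    (x := Filter.atTop) ?_ fun n => (le_cN h _ τ).trans (hM n)
  refine tendsto_finsetSum _ fun S _ => Filter.Tendsto.div_const (Filter.Tendsto.norm ?_) _
  exact tendsto_finsetSum _ fun S' _ => (hf _).const_smul _

theorem cN_hasSum (h : Eta η0 η) {g : ℕ → Vx → A} {G : Vx → A} {m : ℕ → ℝ} {M : ℝ}
    (hg : ∀ T, HasSum (fun n => g n T) (G T)) (hm : ∀ n, cN η (g n) ≤ m n) (hM : HasSum m M) :
    cN η G ≤ M :=
  cN_lim h (fun T => (hg T).tendsto_sum_nat) fun _ => (cN_sum h _ _).trans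
    ((sum_le_sum fun i _ => hm i).trans
      (sum_le_hasSum _ (fun i _ => (cN_nonneg h _).trans (hm i)) hM))

theorem cN_tail (h : Eta η0 η) (f : Vx → ℂ) (j : ℕ) :
    cN η (fun T => Complex.exp (f T) - ∑ k ∈ range j, f T ^ k / k.factorial) ≤
      cN η f ^ j * Real.exp (cN η f) := by
  have h0 := cN_nonneg h f
  refine cN_hasSum h (g := fun n T => f T ^ (n + j) / (n + j).factorial)
    (m := fun n => cN η f ^ j * (cN η f ^ n / n.factorial)) (fun T => ?_) (fun n => ?_) ?_
  · have := NormedSpace.expSeries_div_hasSum_exp (f T)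
    rw [← Complex.exp_eq_exp_ℂ] at this
    exact (hasSum_nat_add_iff' j).2 this
  · have e : (fun T => f T ^ (n + j) / ((n + j).factorial : ℂ)) =
        fun T => (fun _ : Vx => (((n + j).factorial : ℂ))⁻¹) T * (fun T => f T ^ (n + j)) T := by
      funext T
      simp [div_eq_inv_mul]
    rw [e]
    refine (cN_mul h _ _).trans ?_
    rw [cN_const, norm_inv, Complex.norm_natCast, mul_div_assoc', ← pow_add, add_comm j n,
      div_eq_inv_mul]
    have : (n.factorial : ℝ) ≤ (n + j).factorial := by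
      exact_mod_cast Nat.factorial_le (Nat.le_add_right n j)
    have p : (0 : ℝ) < n.factorial := by positivity
    exact mul_le_mul (inv_anti₀ p this) (cN_pow h f _) (cN_nonneg h _) (by positivity)
  · have := NormedSpace.expSeries_div_hasSum_exp (cN η f)
    rw [← Real.exp_eq_exp_ℝ] at this
    exact this.mul_left _

end Cb

open Cb

theorem cN_exp (h : Eta η0 η) (f : Vx → ℂ) :
    cN η (fun T => Complex.exp (f T)) ≤ Real.exp ((f o3).re + cV η f) ∧
    cN η (fun T => Complex.exp (f T) - 1) ≤ cN η f * Real.exp (cN η f) ∧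
    cN η (fun T => Complex.exp (f T) - 1 - f T) ≤ cN η f ^ 2 * Real.exp (cN η f) ∧
    cN η (fun T => Complex.exp (f T) - 1 - f T - f T ^ 2 / 2) ≤ cN η f ^ 3 * Real.exp (cN η f) := by
  refine ⟨?_, by simpa using cN_tail h f 1, ?_, ?_⟩
  · have e : (fun T => Complex.exp (f T)) = fun T =>
        (fun _ : Vx => Complex.exp (f o3)) T * (fun T => Complex.exp (f T - f o3)) T := by
      funext T
      simp [← Complex.exp_add]
    rw [e]
    refine (cN_mul h _ _).trans ?_
    rw [cN_const, Complex.norm_exp, Real.exp_add]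
    refine mul_le_mul_of_nonneg_left ?_ (Real.exp_pos _).le
    simpa [cV] using cN_tail h (fun T => f T - f o3) 0
  · simpa [sum_range_succ, sub_sub] using cN_tail h f 2
  · simpa [sum_range_succ, sub_sub, add_assoc] using cN_tail h f 3

theorem cN_integral {Z : Type} [MeasurableSpace Z] (μ : Measure Z) (h : Eta η0 η) (f : Z → Vx → ℂ)
    (M : Z → ℝ) (hf : ∀ T, AEStronglyMeasurable (fun z => f z T) μ) (hM : Integrable M μ)
    (hb : ∀ᵐ z ∂μ, cN η (f z) ≤ M z) : cN η (fun T => ∫ z, f z T ∂μ) ≤ ∫ z, M z ∂μ := by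
  have hi : ∀ T, Integrable (fun z => f z T) μ := fun T =>
    hM.mono' (hf T) (hb.mono fun z hz => (norm_le_cN h _ T).trans hz)
  have hd : ∀ S T, Integrable (fun z => dS S (f z) T) μ := fun S T =>
    integrable_finsetSum _ fun S' _ => (hi _).smul _
  have e1 : ∀ S T, dS S (fun T => ∫ z, f z T ∂μ) T = ∫ z, dS S (f z) T ∂μ := fun S T => by
    refine Eq.trans (sum_congr rfl fun S' _ => ?_)
      (integral_finsetSum _ fun S' _ => (hi _).smul _).symm
    simp only [zsmul_eq_mul, Pi.mul_apply, Pi.intCast_apply, integral_const_mul]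
  obtain ⟨τ, e⟩ := exists_cN η fun T => ∫ z, f z T ∂μ
  rw [e]
  calc _ ≤ ∑ S, ∫ z, ‖dS S (f z) (τ S)‖ / ∏ i ∈ S, η i ∂μ := sum_le_sum fun S _ => by
        rw [e1, integral_div]
        exact div_le_div_of_nonneg_right (norm_integral_le_integral_norm _) (w_pos h S).le
    _ = ∫ z, ∑ S, ‖dS S (f z) (τ S)‖ / ∏ i ∈ S, η i ∂μ :=
        (integral_finsetSum _ fun S _ => (hd S _).norm.div_const _).symm
    _ ≤ _ := integral_mono_ae (integrable_finsetSum _ fun S _ => (hd S _).norm.div_const _) hM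
        (hb.mono fun z hz => (le_cN h _ τ).trans hz)

/-- Schwarz lemma with values in cubes -/
theorem cN_schwarz (h : Eta η0 η) (f : ℂ → Vx → ℂ) {r M : ℝ} (hr : 1 < r)
    (hf : ∀ T, DifferentiableOn ℂ (fun s => f s T) (Metric.ball 0 r))
    (hM : ∀ s ∈ Metric.ball (0 : ℂ) r, cN η (f s) ≤ M) :
    cN η (fun T => f 1 T - f 0 T) ≤ 2 * M / r := by
  obtain ⟨τ, e⟩ := exists_cN η fun T => f 1 T - f 0 T
  choose c hc1 hc using fun S => Complex.exists_norm_eq_mul_self
    (dS S (fun T => f 1 T - f 0 T) (τ S))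
  set F : ℂ → ℂ := fun s => ∑ S, c S * dS S (f s) (τ S) / ((∏ i ∈ S, η i : ℝ) : ℂ) with hF
  have hb : ∀ s ∈ Metric.ball (0 : ℂ) r, ‖F s‖ ≤ M := fun s hs => by
    refine (norm_sum_le _ _).trans (le_trans (le_of_eq ?_) ((le_cN h _ τ).trans (hM s hs)))
    refine sum_congr rfl fun S _ => ?_
    rw [norm_div, norm_mul, hc1, one_mul, Complex.norm_real, Real.norm_of_nonneg (w_pos h S).le]
  have hd : DifferentiableOn ℂ F (Metric.ball 0 r) :=
    DifferentiableOn.fun_sum fun S _ => DifferentiableOn.div_const (DifferentiableOn.const_mul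
      (DifferentiableOn.fun_sum fun S' _ => (hf _).const_smul _) _) _
  have := Complex.dist_le_div_mul_dist_of_mapsTo_ball (R₂ := 2 * M) hd (fun t ht => by
    have a := hb t ht
    have b := hb 0 (Metric.mem_ball_self (by linarith))
    rw [mem_closedBall_iff_norm]
    exact (norm_sub_le _ _).trans (by linarith)) (z := 1) (by simpa using hr)
  rw [dist_eq_norm, dist_zero_right, norm_one, mul_one] at this
  refine le_trans (le_of_eq ?_) this
  have e2 : F 1 - F 0 = (cN η (fun T => f 1 T - f 0 T) : ℝ) := by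
    rw [e, hF, ← sum_sub_distrib, Complex.ofReal_sum]
    refine sum_congr rfl fun S _ => ?_
    rw [Complex.ofReal_div, hc, ← sub_div, ← mul_sub]
    simp only [dS, smul_sub, sum_sub_distrib]
  rw [e2, Complex.norm_real, Real.norm_of_nonneg (cN_nonneg h _)]

theorem Jt.scale {n : ℕ} {h Λ M : ℝ} {F : Conf → A} {U : Conf} (H : Jt n η0 h F U M) (hΛ : 1 ≤ Λ)
    (h1 : η0 ≤ 1) : Jt n (η0 / (4 * Λ)) (Λ * h) F U (64 * Λ ^ 3 * M) := by
  intro η hη γ h0 hp hv
  have hE : Eta η0 fun i => 4 * Λ * η i := fun i =>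
    ⟨by have := (hη i).1; positivity, by
      have := (hη i).2
      rwa [le_div_iff₀' (by positivity)] at this⟩
  have hl : 1 ≤ 4 * Λ := by linarith
  have p0 : 0 < η0 := (hE 0).1.trans_le (hE 0).2
  refine (cN_scale hη hl _).1.trans ?_
  rw [mul_pow, show (4 : ℝ) ^ 3 = 64 by norm_num]
  refine mul_le_mul_of_nonneg_left (H _ hE γ h0 hp fun e => ?_) (by positivity)
  refine ((cN_scale hη hl _).2 (by rw [div_mul_cancel₀ _ (by positivity)]; exact h1)).trans ?_
  have a := hv e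
  have b : 0 ≤ cV η fun T => (γ T e).q := cN_nonneg hη _
  generalize cV η (fun T => (γ T e).q) = v at a b
  have c : v / Λ ≤ h := by rwa [div_le_iff₀' (by positivity)]
  have d : 0 ≤ v / Λ := by positivity
  calc _ = (1 / 2 + η0 / 4) * (v / Λ) := by field_simp; ring
    _ ≤ 1 * h := mul_le_mul (by linarith) c d zero_le_one
    _ = h := one_mul h

namespace Cb

section hol
variable {G : Type} [NormedAddCommGroup G] [NormedSpace ℂ G]

/-- vertices of the cube as complex points -/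
def ind (T : Vx) : Fin 3 → ℂ := fun i => if T i then 1 else 0

/-- bounded and separately holomorphic on the polydisc -/
def SH (η : Fin 3 → ℝ) (ψ : (Fin 3 → ℂ) → G) (M : ℝ) : Prop :=
  ∀ t : Fin 3 → ℂ, (∀ i, ‖t i‖ < 3 / η i) → ‖ψ t‖ ≤ M ∧
    ∀ i, DifferentiableOn ℂ (fun s => ψ (update t i s)) (Metric.ball 0 (3 / η i))

theorem upd_lt {t : Fin 3 → ℂ} (ht : ∀ i, ‖t i‖ < 3 / η i) {i : Fin 3} {s : ℂ}
    (hs : ‖s‖ < 3 / η i) (j : Fin 3) : ‖update t i s j‖ < 3 / η j := by
  by_cases e : j = i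
  · simpa [e] using hs
  · simpa [e] using ht j

theorem one_lt (h : Eta 1 η) (i : Fin 3) : 1 < 3 / η i := by
  rw [lt_div_iff₀ (h i).1]
  linarith [(h i).2]

theorem SH.step (h : Eta 1 η) {ψ : (Fin 3 → ℂ) → G} {M : ℝ} (H : SH η ψ M) (i : Fin 3) :
    SH η (fun t => ψ (update t i 1) - ψ (update t i 0)) (M * η i) := by
  intro t ht
  have o1 : ‖(1 : ℂ)‖ < 3 / η i := by simpa using one_lt h i
  have o0 : ‖(0 : ℂ)‖ < 3 / η i := by simpa using (h i).1
  refine ⟨?_, fun j => ?_⟩
  · have := Complex.dist_le_div_mul_dist_of_mapsTo_ball (R₂ := 2 * M) ((H t ht).2 i)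
      (fun s hs => by
        have a := (H _ (upd_lt ht (mem_ball_zero_iff.1 hs))).1
        have b := (H _ (upd_lt ht o0)).1
        rw [mem_closedBall_iff_norm]
        exact (norm_sub_le _ _).trans (by linarith)) (z := 1) (mem_ball_zero_iff.2 o1)
    rw [dist_eq_norm, dist_zero_right, norm_one, mul_one, div_div_eq_mul_div] at this
    have m := (norm_nonneg _).trans (H t ht).1
    have := mul_nonneg m (h i).1.le
    linarith
  · by_cases e : j = i
    · simp only [e, update_idem]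
      exact differentiableOn_const _
    · simp only [update_comm e]
      exact ((H _ (upd_lt ht o1)).2 j).sub ((H _ (upd_lt ht o0)).2 j)

theorem ind_update (T : Vx) (i : Fin 3) (b : Bool) :
    ind (update T i b) = update (ind T) i (if b then 1 else 0) := by
  funext j
  by_cases e : j = i
  · simp [e, ind]
  · simp [e, ind]

theorem SH.dS_le (h : Eta 1 η) (S : Finset (Fin 3)) (T : Vx) : ∀ {ψ : (Fin 3 → ℂ) → G} {M : ℝ},
    SH η ψ M → ‖dS S (fun T => ψ (ind T)) T‖ ≤ M * ∏ i ∈ S, η i := by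
  induction S using Finset.induction_on with
  | empty =>
    intro ψ M H
    rw [dS_empty, prod_empty, mul_one]
    refine (H _ fun i => lt_of_le_of_lt ?_ (one_lt h i)).1
    unfold ind
    split_ifs <;> simp
  | insert i S hi ih =>
    intro ψ M H
    rw [dS_ins hi, prod_insert hi, ← mul_assoc]
    simpa [ind_update] using ih (H.step h i)

variable {E : Type} [AddCommGroup E] [Module ℂ E]

theorem interp (T : Vx) (U : Finset (Fin 3)) : ∀ γ : Vx → E,
    ∑ S ∈ U.powerset, (∏ i ∈ S, ind T i) • dS S γ o3 = γ fun i => if i ∈ U then T i else false := by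
  induction U using Finset.induction_on with
  | empty =>
    intro γ
    simp [dS_empty]
    rfl
  | insert i U hi ih =>
    intro γ
    rw [sum_powerset_insert hi, ih, sum_congr rfl fun S hS => by
      have hs : i ∉ S := fun h => hi (mem_powerset.1 hS h)
      rw [prod_insert hs, dS_ins hs, mul_smul], ← smul_sum, ih]
    have e0 : update (fun j => if j ∈ U then T j else false) i false =
        fun j => if j ∈ U then T j else false := update_eq_self_iff.2 (by simp [hi])
    have e1 : (fun j => if j ∈ insert i U then T j else false) =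
        update (fun j => if j ∈ U then T j else false) i (T i) := by
      funext j
      by_cases e : j = i
      · simp [e]
      · simp [e]
    rw [e1, ind, e0]
    generalize (fun j => if j ∈ U then T j else false) = T' at e0
    cases T i
    · simp [e0]
    · simp

theorem prod_affine (S : Finset (Fin 3)) (t : Fin 3 → ℂ) (i : Fin 3) (s : ℂ) :
    ∏ j ∈ S, update t i s j = ∏ j ∈ S, update t i 0 j +
      s * (∏ j ∈ S, update t i 1 j - ∏ j ∈ S, update t i 0 j) := by
  by_cases e : i ∈ S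
  · simp [prod_update_of_mem e]
  · simp [prod_update_of_notMem e]

theorem sum_mem (O : Kit.Dom E) {ι : Type} (s : Finset ι) (a : ι → E) {θ : ℝ}
    (h0 : (0 : E) ∈ O.D 0) (ha : ∀ i ∈ s, a i ∈ O.D θ) : ∑ i ∈ s, a i ∈ O.D (s.card * θ) := by
  classical
  induction s using Finset.induction_on with
  | empty => simpa using h0
  | insert i s hi ih =>
    rw [sum_insert hi, card_insert_of_notMem hi]
    exact O.mono (by push_cast; linarith) (O.add (ha i (mem_insert_self _ _))
      (ih fun j hj => ha j (mem_insert_of_mem hj)))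

theorem lip0 {O : Kit.Dom E} {φ : E → G} {M θ : ℝ} (hφ : O.LH φ) (hM : ∀ a ∈ O.D 1, ‖φ a‖ ≤ M)
    {a δ : E} (ha : a ∈ O.D 2⁻¹) (hδ : δ ∈ O.D θ) (h0 : 0 ≤ θ) (h1 : θ ≤ 4⁻¹) :
    ‖φ (a + δ) - φ a‖ ≤ 4 * M * θ := by
  have m := (norm_nonneg _).trans (hM a (O.mono (by norm_num) ha))
  refine le_of_forall_pos_le_add fun ε hε => ?_
  have p : 0 < min 8⁻¹ (ε / (4 * M + 1)) := by positivity
  have q := (le_div_iff₀ (by positivity)).1 (min_le_right 8⁻¹ (ε / (4 * M + 1)))
  have r := min_le_left 8⁻¹ (ε / (4 * M + 1))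
  generalize min 8⁻¹ (ε / (4 * M + 1)) = u at p q r
  refine (hφ.lip hM ha (O.mono (by linarith : θ ≤ θ + u) hδ) (by linarith) (by linarith)).trans ?_
  rw [div_le_iff₀ (by norm_num)]
  nlinarith

end hol

end Cb

/-- holomorphic along lines and bounded gives jets -/
theorem hol_cube {E G : Type} [AddCommGroup E] [Module ℂ E] [NormedAddCommGroup G]
    [NormedSpace ℂ G] [CompleteSpace G] (h : Eta η0 η) (h1 : η0 ≤ 1) (O : Kit.Dom E) (φ : E → G)
    {M d : ℝ} (hφ : O.LH φ) (hM : ∀ a ∈ O.D 1, ‖φ a‖ ≤ M) (γ : Vx → E) (h0 : γ o3 ∈ O.D 2⁻¹)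
    (hd : ∀ S, S ≠ ∅ → dS S γ o3 ∈ O.D (d * ∏ i ∈ S, η i)) (hd0 : 0 ≤ d) (hd1 : 1000 * d ≤ 1) :
    cV η (fun T => φ (γ T)) ≤ 10 ^ 6 * M * d := by
  have hE : Eta 1 η := fun i => ⟨(h i).1, (h i).2.trans h1⟩
  have m := (norm_nonneg _).trans (hM _ (O.mono (by norm_num) h0))
  set Γ : (Fin 3 → ℂ) → E := fun t => ∑ S, (∏ i ∈ S, t i) • dS S γ o3 with hΓ
  have e1 : ∀ T, Γ (ind T) = γ T := fun T => by simpa using interp T univ γ
  have e2 : ∀ t, (∀ i, ‖t i‖ < 3 / η i) → ∃ δ ∈ O.D (216 * d), Γ t = γ o3 + δ := fun t ht => by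
    refine ⟨∑ S ∈ univ.erase ∅, (∏ i ∈ S, t i) • dS S γ o3, ?_, ?_⟩
    · refine O.mono ?_ (sum_mem O _ _ (θ := 27 * d) (Kit.Dom.zero h0 le_rfl) fun S hS =>
        O.mono ?_ (O.smul _ (hd S (ne_of_mem_erase hS))))
      · simp
        linarith
      · rw [norm_prod, mul_left_comm, ← prod_mul_distrib, mul_comm]
        refine mul_le_mul_of_nonneg_right ((prod_le_prod (g := fun _ => 3) (fun i _ =>
          mul_nonneg (norm_nonneg _) (h i).1.le) fun i _ =>
            ((lt_div_iff₀ (h i).1).1 (ht i)).le).trans ?_) hd0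
        rw [prod_const]
        exact (pow_le_pow_right₀ (by norm_num) (by simpa using card_le_univ S : S.card ≤ 3)).trans
          (by norm_num)
    · rw [hΓ]
      simp only
      rw [← add_sum_erase _ _ (mem_univ ∅), dS_empty, prod_empty, one_smul]
  have H : SH η (fun t => φ (Γ t) - φ (γ o3)) (4 * M * (216 * d)) := fun t ht => by
    refine ⟨?_, fun i => ?_⟩
    · obtain ⟨δ, a, b⟩ := e2 t ht
      simp only [b]
      exact lip0 hφ hM h0 a (by positivity) (by linarith)
    · have e3 : ∀ s, Γ (update t i s) =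
          Γ (update t i 0) + s • (Γ (update t i 1) - Γ (update t i 0)) := fun s => by
        simp only [hΓ, ← sum_sub_distrib, smul_sum, ← sum_add_distrib]
        refine sum_congr rfl fun S _ => ?_
        rw [prod_affine S t i s, add_smul, mul_smul, sub_smul]
      refine ((hφ _ _ _ Metric.isOpen_ball fun s hs => ?_).congr fun s _ => by
        rw [e3 s]).sub_const _
      obtain ⟨δ, a, b⟩ := e2 _ (upd_lt ht (mem_ball_zero_iff.1 hs))
      rw [← e3, b]
      exact O.mono (by linarith) (O.add h0 a)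
  refine (cN_le h _ fun S T => by simpa only [e1] using H.dS_le hE S T).trans ?_
  nlinarith [mul_nonneg m hd0]

namespace Cb

section explicit
variable {E : Type} [AddCommGroup E] (f : Vx → E) (a b c x : Bool)

theorem u0 : update (![a, b, c] : Vx) 0 x = ![x, b, c] := by
  funext i
  fin_cases i <;> simp
theorem u1 : update (![a, b, c] : Vx) 1 x = ![a, x, c] := by
  funext i
  fin_cases i <;> simp
theorem u2 : update (![a, b, c] : Vx) 2 x = ![a, b, x] := by
  funext i
  fin_cases i <;> simp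

theorem dS_one (i : Fin 3) (T : Vx) : dS {i} f T = f (update T i true) - f (update T i false) := by
  rw [← insert_empty_eq, dS_ins (notMem_empty i), dS_empty]

theorem d0 : dS {0} f ![a, b, c] = f ![true, b, c] - f ![false, b, c] := by rw [dS_one, u0, u0]
theorem d1 : dS {1} f ![a, b, c] = f ![a, true, c] - f ![a, false, c] := by rw [dS_one, u1, u1]
theorem d2 : dS {2} f ![a, b, c] = f ![a, b, true] - f ![a, b, false] := by rw [dS_one, u2, u2]
theorem d01 : dS {0, 1} f ![a, b, c] = f ![true, true, c] - f ![false, true, c] -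
    (f ![true, false, c] - f ![false, false, c]) := by
  simp only [dS_ins (show (0 : Fin 3) ∉ ({1} : Finset (Fin 3)) by decide), d1, u0]
theorem d02 : dS {0, 2} f ![a, b, c] = f ![true, b, true] - f ![false, b, true] -
    (f ![true, b, false] - f ![false, b, false]) := by
  simp only [dS_ins (show (0 : Fin 3) ∉ ({2} : Finset (Fin 3)) by decide), d2, u0]
theorem d12 : dS {1, 2} f ![a, b, c] = f ![a, true, true] - f ![a, false, true] -
    (f ![a, true, false] - f ![a, false, false]) := by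
  simp only [dS_ins (show (1 : Fin 3) ∉ ({2} : Finset (Fin 3)) by decide), d2, u1]
theorem d012 : dS {0, 1, 2} f ![a, b, c] =
    f ![true, true, true] - f ![false, true, true] -
      (f ![true, false, true] - f ![false, false, true]) -
    (f ![true, true, false] - f ![false, true, false] -
      (f ![true, false, false] - f ![false, false, false])) := by
  simp only [dS_ins (show (0 : Fin 3) ∉ ({1, 2} : Finset (Fin 3)) by decide), d12, u0]

end explicit

/-- difference operator -/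
def Dl (a : ℝ) (F : ℝ → ℝ) (x : ℝ) : ℝ := F (x + a) - F x

/-- differences of orders one to three are bounded -/
def B3 (F : ℝ → ℝ) (K : ℝ) : Prop := (∀ x a, |Dl a F x| ≤ K * |a|) ∧
  (∀ x a b, |Dl b (Dl a F) x| ≤ K * |a| * |b|) ∧
  ∀ x a b c, |Dl c (Dl b (Dl a F)) x| ≤ K * |a| * |b| * |c|

theorem Dl_le {F : ℝ → ℝ} {K : ℝ} (hF : Differentiable ℝ F) (h : ∀ x, |deriv F x| ≤ K)
    (x a : ℝ) : |Dl a F x| ≤ K * |a| := by
  simpa [Dl] using Convex.norm_image_sub_le_of_norm_deriv_le (s := Set.univ) (x := x) (y := x + a)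
    (fun x _ => hF x) (fun x _ => h x) convex_univ trivial trivial

theorem Dl_diff {F : ℝ → ℝ} (hF : Differentiable ℝ F) (a : ℝ) :
    Differentiable ℝ (Dl a F) ∧ deriv (Dl a F) = Dl a (deriv F) := by
  have h : ∀ x, HasDerivAt (Dl a F) (Dl a (deriv F) x) x := fun x =>
    ((hF (x + a)).hasDerivAt.comp_add_const x a).sub (hF x).hasDerivAt
  exact ⟨fun x => (h x).differentiableAt, funext fun x => (h x).deriv⟩

theorem cf_B3 : ∃ K, 1 ≤ K ∧ B3 cf K := by
  have s0 : ContDiff ℝ (⊤ : ℕ∞) cf :=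
    Real.smoothTransition.contDiff.comp (contDiff_const.sub contDiff_id)
  obtain ⟨f0, s1⟩ := contDiff_infty_iff_deriv.1 s0
  obtain ⟨f1, s2⟩ := contDiff_infty_iff_deriv.1 s1
  obtain ⟨f2, s3⟩ := contDiff_infty_iff_deriv.1 s2
  have c1 : HasCompactSupport (deriv cf) := by
    refine HasCompactSupport.intro (isCompact_Icc (a := 1) (b := 2)) fun x hx => ?_
    rcases lt_or_ge x 1 with h | h
    · have : cf =ᶠ[𝓝 x] fun _ => 1 := (eventually_lt_nhds h).mono fun y hy =>
        Real.smoothTransition.one_of_one_le (by linarith)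
      simp [this.deriv_eq]
    · have h' : 2 < x := lt_of_not_ge fun h' => hx ⟨h, h'⟩
      have : cf =ᶠ[𝓝 x] fun _ => 0 := (eventually_gt_nhds h').mono fun y hy =>
        Real.smoothTransition.zero_of_nonpos (by linarith)
      simp [this.deriv_eq]
  obtain ⟨K1, b1⟩ := s1.continuous.bounded_above_of_compact_support c1
  obtain ⟨K2, b2⟩ := s2.continuous.bounded_above_of_compact_support c1.deriv
  obtain ⟨K3, b3⟩ := s3.continuous.bounded_above_of_compact_support c1.deriv.deriv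
  set K := max (max 1 K1) (max K2 K3)
  replace b1 : ∀ x, |deriv cf x| ≤ K := fun x =>
    (b1 x).trans ((le_max_right _ _).trans (le_max_left _ _))
  replace b2 : ∀ x, |deriv (deriv cf) x| ≤ K := fun x =>
    (b2 x).trans ((le_max_left _ _).trans (le_max_right _ _))
  replace b3 : ∀ x, |deriv (deriv (deriv cf)) x| ≤ K := fun x =>
    (b3 x).trans ((le_max_right _ _).trans (le_max_right _ _))
  have two : ∀ {F : ℝ → ℝ}, Differentiable ℝ F → Differentiable ℝ (deriv F) →
      (∀ x, |deriv (deriv F) x| ≤ K) → ∀ x a b, |Dl b (Dl a F) x| ≤ K * |a| * |b| :=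
    fun g0 g1 g x a b => Dl_le (Dl_diff g0 a).1 (fun y => by
      rw [(Dl_diff g0 a).2]
      exact Dl_le g1 g y a) x b
  refine ⟨K, (le_max_left _ _).trans (le_max_left _ _), Dl_le f0 b1, two f0 f1 b2,
    fun x a b c => Dl_le (Dl_diff (Dl_diff f0 a).1 b).1 (fun y => ?_) x c⟩
  rw [(Dl_diff (Dl_diff f0 a).1 b).2, (Dl_diff f0 a).2]
  exact two f1 f2 b3 y a b

variable {F : ℝ → ℝ} {K v : ℝ}

theorem B3.one (H : B3 F K) (hK : 0 ≤ K) {p q α : ℝ} (h : |q - p| ≤ α) : |F q - F p| ≤ K * α := by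
  have := H.1 p (q - p)
  rw [Dl, add_sub_cancel] at this
  exact this.trans (mul_le_mul_of_nonneg_left h hK)

theorem B3.le2 (H : B3 F K) (hK : 0 ≤ K) {a b α β : ℝ} (ha : |a| ≤ α) (hb : |b| ≤ β) (x : ℝ) :
    |Dl b (Dl a F) x| ≤ K * α * β :=
  (H.2.1 x a b).trans (by have := (abs_nonneg _).trans ha; gcongr)

theorem B3.two (H : B3 F K) (hK : 0 ≤ K) (v1 : v ≤ 1) {p q r s α β : ℝ} (hβ : 0 ≤ β)
    (h1 : |q - p| ≤ v * α) (h2 : |r - p| ≤ v * β)
    (h3 : |s - r - (q - p)| ≤ v * (α * β)) :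
    |F s - F r - (F q - F p)| ≤ 2 * K * v * (α * β) := by
  have a := H.le2 hK h1 (h2.trans (mul_le_of_le_one_left hβ v1)) p
  have b := H.one hK (p := r + (q - p)) (q := s) (α := v * (α * β)) (by rwa [← sub_sub])
  have e : F s - F r - (F q - F p) = Dl (r - p) (Dl (q - p) F) p + (F s - F (r + (q - p))) := by
    simp only [Dl, add_sub_cancel]
    ring
  rw [e]
  exact (abs_add_le _ _).trans (by linarith)

theorem B3.three (H : B3 F K) (hK : 0 ≤ K) (v0 : 0 ≤ v) (v1 : v ≤ 1)
    {x a b c d e f g α β γ : ℝ} (hα : 0 ≤ α) (hβ : 0 ≤ β) (hγ : 0 ≤ γ) (hα1 : α ≤ 1) (hβ1 : β ≤ 1)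
    (hγ1 : γ ≤ 1) (ha : |a| ≤ v * α) (hb : |b| ≤ v * β) (hc : |c| ≤ v * γ)
    (hd : |d| ≤ v * (α * β)) (he : |e| ≤ v * (α * γ)) (hf : |f| ≤ v * (β * γ))
    (hg : |g| ≤ v * (α * (β * γ))) :
    |F (x + a + b + c + d + e + f + g) - F (x + b + c + f) - (F (x + a + c + e) - F (x + c)) -
      (F (x + a + b + d) - F (x + b) - (F (x + a) - F x))| ≤ 8 * K * v * (α * (β * γ)) := by
  have w : ∀ {y z : ℝ}, 0 ≤ z → |y| ≤ v * z → |y| ≤ z := fun hz h =>
    h.trans (mul_le_of_le_one_left hz v1)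
  have wb := w hβ hb
  have wc := w hγ hc
  have we := w (by positivity) he
  have wf := w (by positivity) hf
  have t1 := (H.1 (x + a + b + c + d + e + f) g).trans (mul_le_mul_of_nonneg_left hg hK)
  have t2 := H.le2 hK hd (show |c + e + f| ≤ 3 * γ from
    (abs_add_three _ _ _).trans (by nlinarith)) (x + a + b)
  have t3 := H.le2 hK he (show |b + f| ≤ 2 * β from (abs_add_le _ _).trans (by nlinarith))
    (x + a + c)
  have t4 := H.le2 hK ha wf (x + b + c)
  have t5 : |Dl c (Dl b (Dl a F)) x| ≤ K * (v * α) * β * γ := (H.2.2 x a b c).trans (by gcongr)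
  have e : F (x + a + b + c + d + e + f + g) - F (x + b + c + f) - (F (x + a + c + e) - F (x + c)) -
      (F (x + a + b + d) - F (x + b) - (F (x + a) - F x)) =
      Dl g F (x + a + b + c + d + e + f) + Dl (c + e + f) (Dl d F) (x + a + b) +
        Dl (b + f) (Dl e F) (x + a + c) + Dl f (Dl a F) (x + b + c) + Dl c (Dl b (Dl a F)) x := by
    simp only [Dl]
    ring_nf
  rw [e]
  rw [abs_le] at *
  constructor <;> linarith

theorem B3.cube (H : B3 F K) (hK : 0 ≤ K) (h : Eta 1 η) (s : Vx → ℝ) (hs : cV η s ≤ 1) :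
    cV η (fun T => F (s T)) ≤ 64 * K * cV η s := by
  have v0 : 0 ≤ cV η s := cN_nonneg h _
  have D : ∀ {S : Finset (Fin 3)}, S ≠ ∅ → ∀ T, |dS S s T| ≤ cV η s * ∏ i ∈ S, η i :=
    fun hS T => dS_le h s hS T
  have p := fun i => (h i).1.le
  have q := fun i => (h i).2
  have k : 0 ≤ K * cV η s := mul_nonneg hK v0
  have D0 := fun a b c => D (S := {0}) (by decide) ![a, b, c]
  have D1 := fun a b c => D (S := {1}) (by decide) ![a, b, c]
  have D2 := fun a b c => D (S := {2}) (by decide) ![a, b, c]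
  have D01 := fun a b c => D (S := {0, 1}) (by decide) ![a, b, c]
  have D02 := fun a b c => D (S := {0, 2}) (by decide) ![a, b, c]
  have D12 := fun a b c => D (S := {1, 2}) (by decide) ![a, b, c]
  have D012 := D (S := {0, 1, 2}) (by decide) ![false, false, false]
  have P01 : ∏ i ∈ ({0, 1} : Finset (Fin 3)), η i = η 0 * η 1 := prod_pair (by decide)
  have P02 : ∏ i ∈ ({0, 2} : Finset (Fin 3)), η i = η 0 * η 2 := prod_pair (by decide)
  have P12 : ∏ i ∈ ({1, 2} : Finset (Fin 3)), η i = η 1 * η 2 := prod_pair (by decide)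
  have P012 : ∏ i ∈ ({0, 1, 2} : Finset (Fin 3)), η i = η 0 * (η 1 * η 2) := by
    rw [prod_insert (by decide), P12]
  simp only [d0, d1, d2, d01, d02, d12, d012, prod_singleton, P01, P02, P12, P012]
    at D0 D1 D2 D01 D02 D12 D012
  have N := fun T => near_o3 h le_rfl s T
  refine (cN_le h _ (M := 8 * K * cV η s) fun S T => ?_).trans (le_of_eq (by ring))
  obtain ⟨a, b, c, rfl⟩ : ∃ a b c, T = ![a, b, c] := ⟨T 0, T 1, T 2, by
    funext i
    fin_cases i <;> rfl⟩
  have one : ∀ {x y : ℝ} (i : Fin 3), |y - x| ≤ cV η s * η i →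
      ‖F y - F (s o3) - (F x - F (s o3))‖ ≤ 8 * K * cV η s * η i := fun i hh => by
    rw [sub_sub_sub_cancel_right]
    exact (H.one hK hh).trans (by nlinarith [mul_nonneg k (p i)])
  have two : ∀ {x y z u : ℝ} (i j : Fin 3), |y - x| ≤ cV η s * η i → |z - x| ≤ cV η s * η j →
      |u - z - (y - x)| ≤ cV η s * (η i * η j) → ‖F u - F (s o3) - (F z - F (s o3)) -
        (F y - F (s o3) - (F x - F (s o3)))‖ ≤ 8 * K * cV η s * (η i * η j) :=
    fun i j h1 h2 h3 => by
      simp only [sub_sub_sub_cancel_right]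
      exact (H.two hK hs (p j) h1 h2 h3).trans
        (by nlinarith [mul_nonneg k (mul_nonneg (p i) (p j))])
  rcases (by decide : ∀ S : Finset (Fin 3), S = ∅ ∨ S = {0} ∨ S = {1} ∨ S = {2} ∨ S = {0, 1} ∨
    S = {0, 2} ∨ S = {1, 2} ∨ S = {0, 1, 2}) S with rfl | rfl | rfl | rfl | rfl | rfl | rfl | rfl
  · rw [dS_empty, prod_empty]
    exact (H.one hK (N _)).trans (by linarith)
  · rw [d0, prod_singleton]
    exact one 0 (D0 a b c)
  · rw [d1, prod_singleton]
    exact one 1 (D1 a b c)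
  · rw [d2, prod_singleton]
    exact one 2 (D2 a b c)
  · rw [d01, P01]
    exact two 0 1 (D0 a false c) (D1 false b c) (D01 a b c)
  · rw [d02, P02]
    exact two 0 2 (D0 a b false) (D2 false b c) (D02 a b c)
  · rw [d12, P12]
    exact two 1 2 (D1 a b false) (D2 a false c) (D12 a b c)
  · rw [d012, P012]
    simp only [sub_sub_sub_cancel_right]
    have := H.three hK v0 hs (x := s ![false, false, false]) (p 0) (p 1) (p 2) (q 0) (q 1) (q 2)
      (D0 a false false) (D1 false a false) (D2 false false a) (D01 a a false) (D02 a false a)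
      (D12 false a a) D012
    rw [Real.norm_eq_abs]
    convert this using 2
    ring_nf

end Cb

theorem cf_cube : ∃ C : ℝ, 1 ≤ C ∧ ∀ {η0 : ℝ} {η : Fin 3 → ℝ}, Eta η0 η → η0 ≤ 1 → ∀ s : Vx → ℝ,
    cV η s ≤ 1 → cV η (fun T => cf (s T)) ≤ C * cV η s := by
  obtain ⟨K, k, H⟩ := cf_B3
  exact ⟨64 * K, by linarith, fun h h1 s hs =>
    H.cube (by linarith) (fun i => ⟨(h i).1, (h i).2.trans h1⟩) s hs⟩

theorem cf_mem (s : ℝ) : 0 ≤ cf s ∧ cf s ≤ 1 :=
  ⟨Real.smoothTransition.nonneg _, Real.smoothTransition.le_one _⟩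

theorem cf_one {s : ℝ} (h : s ≤ 1) : cf s = 1 := Real.smoothTransition.one_of_one_le (by linarith)

theorem cf_zero {s : ℝ} (h : 2 ≤ s) : cf s = 0 := Real.smoothTransition.zero_of_nonpos (by linarith)

theorem ct_mem (θ : ℝ) (R : ℕ) (U : Conf) : 0 ≤ ct θ R U ∧ ct θ R U ≤ 1 := by
  have a : ∀ x μ, 0 ≤ ∏ ν, cf (fq U x μ ν ^ 2 / θ ^ 2) := fun x μ =>
    prod_nonneg fun ν _ => (cf_mem _).1
  exact ⟨prod_nonneg fun x _ => prod_nonneg fun μ _ => a x μ,
    prod_le_one (fun x _ => prod_nonneg fun μ _ => a x μ) fun x _ => prod_le_one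
      (fun μ _ => a x μ) fun μ _ => prod_le_one (fun ν _ => (cf_mem _).1) fun ν _ => (cf_mem _).2⟩

theorem ct_one {θ : ℝ} {R : ℕ} {U : Conf} (hθ : 0 < θ) (h : ∀ x ∈ box R, ∀ μ ν, fq U x μ ν ≤ θ) :
    ct θ R U = 1 :=
  prod_eq_one fun x hx => prod_eq_one fun μ _ => prod_eq_one fun ν _ => cf_one
    ((div_le_one (by positivity)).2 (pow_le_pow_left₀ (norm_nonneg _) (h x hx μ ν) 2))

theorem ct_ne {θ : ℝ} {R : ℕ} {U : Conf} (hθ : 0 < θ) (h : ct θ R U ≠ 0) :
    ∀ x ∈ box R, ∀ μ ν, fq U x μ ν ≤ 3 / 2 * θ := by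
  intro x hx μ ν
  have := prod_ne_zero_iff.1 (prod_ne_zero_iff.1 (prod_ne_zero_iff.1 h x hx) μ (mem_univ _)) ν
    (mem_univ _)
  by_contra hh
  refine this (cf_zero ((le_div_iff₀ (by positivity)).2 ?_))
  nlinarith

namespace Cb

theorem cV_star (h : Eta η0 η) (f : Vx → ℍ) : cV η (fun T => star (f T)) ≤ cV η f := by
  simpa using cV_map h (starAddEquiv (R := ℍ)).toAddMonoidHom (C := 1) (by simp) f

theorem cV_unit (h : Eta η0 η) (f g : Vx → S3) {a b : ℝ} (ha : cV η (fun T => (f T).q) ≤ a)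
    (hb : cV η (fun T => (g T).q) ≤ b) : cV η (fun T => (f T * g T).q) ≤ a * (1 + b) + b := by
  have h1 := cV_mul h (fun T => (f T).q) fun T => (g T).q
  have h2 := cN_le_cV h fun T => (g T).q
  have h3 : 0 ≤ cV η fun T => (f T).q := cN_nonneg h _
  have h4 := cN_nonneg h fun T => (g T).q
  simp only [S3.norm_q] at h1 h2
  exact h1.trans (add_le_add (mul_le_mul ha (by linarith) h4 (h3.trans ha)) (by linarith))

theorem cV_inv (h : Eta η0 η) (f : Vx → S3) :
    cV η (fun T => (f T)⁻¹.q) ≤ cV η fun T => (f T).q := by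
  simpa only [S3.q_inv] using cV_star h fun T => (f T).q

end Cb

/-- the variation of a holonomy -/
theorem cV_hol (hη : Eta η0 η) {h : ℝ} {R : ℕ} {γ : Vx → Conf} (h1 : 100 * h ≤ 1)
    (hγ : ∀ e ∈ lbox (R + 1), cV η (fun T => (γ T e).q) ≤ h) {x : St} (hx : x ∈ box R)
    (μ ν : Fin 4) : cV η (fun T => (hol Inv.inv (γ T) x μ ν).q) ≤ 5 * h := by
  have m0 : ∀ κ, (x, κ) ∈ lbox (R + 1) := fun κ => mem_lbox.2 (box_mono (Nat.le_succ R) hx)
  have m1 : ∀ κ κ', (x + un κ, κ') ∈ lbox (R + 1) := fun κ κ' =>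
    mem_lbox.2 (add_mem_box hx (mem_box.2 fun i => by rw [un_apply]; split_ifs <;> simp))
  have h0 : 0 ≤ h := (cN_nonneg hη _).trans (hγ _ (m0 0))
  refine (cV_unit hη _ _ (cV_unit hη _ _ (cV_unit hη _ _ (hγ _ (m0 μ)) (hγ _ (m1 μ ν)))
    ((cV_inv hη _).trans (hγ _ (m1 ν μ)))) ((cV_inv hη _).trans (hγ _ (m0 ν)))).trans ?_
  nlinarith [mul_nonneg h0 h0, mul_nonneg h0 (mul_nonneg h0 h0)]

/-- the cutoff function of the size of a quaternion -/
theorem cf_quat : ∃ C : ℝ, 1 ≤ C ∧ ∀ {η0 : ℝ} {η : Fin 3 → ℝ}, Eta η0 η → η0 ≤ 1 →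
    ∀ (θ h : ℝ) (q : Vx → ℍ), 0 < θ → 20 * h ≤ θ → cV η q ≤ h →
      cV η (fun T => cf (‖q T‖ ^ 2 / θ ^ 2)) ≤ C * h / θ := by
  obtain ⟨C, hC, H⟩ := cf_cube
  refine ⟨7 * C, by linarith, fun {η0 η} hη h1 θ h q hθ hh hq => ?_⟩
  have v0 : 0 ≤ cV η q := cN_nonneg hη _
  have h0 := v0.trans hq
  by_cases hb : ‖q o3‖ ≤ 3 * θ
  · have a := cV_mul hη q fun T => star (q T)
    have b := cN_le_cV hη fun T => star (q T)
    have c := cV_star hη q
    have d := cV_map hη (B := ℝ) ((θ ^ 2)⁻¹ • QuaternionAlgebra.reₗ _ _ _ : ℍ →ₗ[ℝ] ℝ).toAddMonoidHom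
      (C := (θ ^ 2)⁻¹) (fun a => by
        change ‖(θ ^ 2)⁻¹ * a.re‖ ≤ _
        rw [norm_mul, Real.norm_of_nonneg (by positivity)]
        refine mul_le_mul_of_nonneg_left (abs_le_of_sq_le_sq ?_ (norm_nonneg _)) (by positivity)
        rw [sq ‖a‖, ← Quaternion.normSq_eq_norm_mul_self, Quaternion.normSq_def']
        nlinarith [sq_nonneg a.imI, sq_nonneg a.imJ, sq_nonneg a.imK]) fun T => q T * star (q T)
    have e : cV η (fun T => ‖q T‖ ^ 2 / θ ^ 2) ≤ 7 * h / θ := by
      refine (le_of_eq ?_).trans (d.trans ?_)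
      · congr 1
        funext T
        rw [sq ‖q T‖, ← Quaternion.normSq_eq_norm_mul_self, Quaternion.normSq_def, div_eq_inv_mul]
        rfl
      · rw [norm_star] at b
        have a1 := mul_le_mul hq (b.trans (add_le_add hb (c.trans hq))) (cN_nonneg hη _) h0
        have a2 := mul_le_mul hb (c.trans hq) (cN_nonneg hη _) (by positivity)
        rw [inv_mul_le_iff₀ (by positivity), show θ ^ 2 * (7 * h / θ) = 7 * h * θ by field_simp]
        nlinarith
    have f : 7 * h / θ ≤ 1 := (div_le_one hθ).2 (by linarith)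
    refine (H hη h1 _ (e.trans f)).trans ((mul_le_mul_of_nonneg_left e (by linarith)).trans
      (le_of_eq (by ring)))
  · have e : ∀ T, cf (‖q T‖ ^ 2 / θ ^ 2) = 0 := fun T => by
      have a := near_o3 hη h1 q T
      have b := norm_sub_norm_le (q o3) (q T)
      rw [norm_sub_rev] at b
      have c := mul_le_of_le_one_left v0 h1
      refine cf_zero ((le_div_iff₀ (by positivity)).2 ?_)
      nlinarith
    simp only [cV, e, cN_const, sub_zero, norm_zero]
    positivity

/-- cutoffs have jets close to their values; they see only the plaquettes of curvature about `θ` -/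
theorem ct_cube : ∃ C : ℝ, 1 ≤ C ∧ ∀ {η0 : ℝ} {η : Fin 3 → ℝ}, Eta η0 η → η0 ≤ 1 →
    ∀ (θ h : ℝ) (R : ℕ) (γ : Vx → Conf), 0 < θ → θ ≤ 1 → 100 * h ≤ θ →
      (∀ e ∈ lbox (R + 1), cV η (fun T => (γ T e).q) ≤ h) →
      cN η (fun T => (ct θ R (γ T) : ℂ)) ≤ Real.exp (C * (2 * R + 1) ^ 4 * h / θ) ∧
      cN η (fun T => 1 - (ct θ R (γ T) : ℂ)) ≤ 2 * Real.exp (C * (2 * R + 1) ^ 4 * h / θ) := by
  obtain ⟨C, hC, H⟩ := cf_quat
  refine ⟨80 * C, by linarith, fun {η0 η} hη h1 θ h R γ hθ hθ1 hh hγ => ?_⟩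
  have h0 : 0 ≤ h := (cN_nonneg hη _).trans (hγ (0, 0) (mem_lbox.2 (zero_mem_box _)))
  have a : ∀ x ∈ box R, ∀ μ ν, cN η (fun T => cf (fq (γ T) x μ ν ^ 2 / θ ^ 2)) ≤
      Real.exp (C * (5 * h) / θ) := fun x hx μ ν => by
    have := H hη h1 θ (5 * h) (fun T => (hol Inv.inv (γ T) x μ ν).q - 1) hθ (by linarith)
      (by rw [cV_sub_const]; exact cV_hol hη (by linarith) hγ hx μ ν)
    refine (cN_le_cV hη _).trans (le_trans ?_ (Real.add_one_le_exp _))
    rw [Real.norm_of_nonneg (cf_mem _).1, add_comm]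
    exact add_le_add this (cf_mem _).2
  have b : cN η (fun T => ct θ R (γ T)) ≤ Real.exp (80 * C * (2 * R + 1) ^ 4 * h / θ) := by
    refine (cN_prod hη _ _).trans ((prod_le_prod (fun x _ => cN_nonneg hη _) fun x hx =>
      (cN_prod hη _ _).trans (prod_le_prod (fun μ _ => cN_nonneg hη _) fun μ _ =>
        (cN_prod hη _ _).trans (prod_le_prod (fun ν _ => cN_nonneg hη _) fun ν _ =>
          a x hx μ ν))).trans (le_of_eq ?_))
    simp only [prod_const, card_box, card_univ, Fintype.card_fin, ← Real.exp_nat_mul]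
    congr 1
    push_cast
    ring
  have c : cN η (fun T => (ct θ R (γ T) : ℂ)) ≤ Real.exp (80 * C * (2 * R + 1) ^ 4 * h / θ) := by
    have := cN_map hη Complex.ofRealHom.toAddMonoidHom (C := 1) (by simp) fun T => ct θ R (γ T)
    rw [one_mul] at this
    exact this.trans b
  refine ⟨c, ?_⟩
  have d := cN_add hη (fun _ => (1 : ℂ)) fun T => -(ct θ R (γ T) : ℂ)
  rw [cN_neg, cN_const, norm_one] at d
  have e := Real.one_le_exp (show 0 ≤ 80 * C * (2 * R + 1) ^ 4 * h / θ by positivity)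
  simp only [sub_eq_add_neg]
  linarith

end Pool.Agent.Lib.MP_7f377f_mp.RG.Q4
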