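import Pool.Agent.Lib.MP_7f377f_mp.Q4SmC
import Pool.Agent.Lib.MP_7f377f_mp.Q4Psi

/-! Smoothing by the Gaussian fluctuation: the smoothing lemma on the lattice. -/

noncomputable section

namespace Pool.Agent.Lib.MP_7f377f_mp.RG.Q4

open MeasureTheory Measure Set Ms Matrix Metric

namespace Smo

section conj

variable {ι Z : Type} [Fintype ι] [DecidableEq ι] [MeasurableSpace Z]

/-- rotation of coordinate vectors -/
def adV (h : Hc) (y : ι × Fin 3 → ℂ) : ι × Fin 3 → ℂ := fun q => adq h (fun k => y (q.1, k)) q.2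

omit [Fintype ι] [DecidableEq ι] in
theorem adV_star {h : Hc} (hh : Uni h) (y : ι × Fin 3 → ℂ) : adV (star h) (adV h y) = y :=
  funext fun q => congrFun (adq_star_adq hh fun k => y (q.1, k)) q.2

omit [Fintype ι] [DecidableEq ι] in
theorem adV_zero (h : Hc) : adV h (0 : ι × Fin 3 → ℂ) = 0 :=
  funext fun q => congrFun (adL h).map_zero q.2

theorem inv_adV {h : Hc} (hh : Uni h) {M M' : Mx ι} (H : ∀ y, M' *ᵥ adV h y = adV h (M *ᵥ y))
    (y : ι × Fin 3 → ℂ) : M'⁻¹ *ᵥ adV h y = adV h (M⁻¹ *ᵥ y) := by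
  have inj : ∀ v : ι × Fin 3 → ℂ, adV h v = 0 → v = 0 := fun v hv => by
    rw [← adV_star hh v, hv, adV_zero]
  by_cases hd : M.det = 0
  · obtain ⟨v, v0, hv⟩ := exists_mulVec_eq_zero_iff.2 hd
    have hd' : M'.det = 0 := exists_mulVec_eq_zero_iff.1
      ⟨adV h v, fun e => v0 (inj v e), by rw [H, hv, adV_zero]⟩
    rw [nonsing_inv_apply_not_isUnit M (by simp [hd]), nonsing_inv_apply_not_isUnit M' (by simp [hd']),
      zero_mulVec, zero_mulVec, adV_zero]
  · have hd' : M'.det ≠ 0 := fun e => by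
      obtain ⟨v, v0, hv⟩ := exists_mulVec_eq_zero_iff.2 e
      have e1 := adV_star hh.star v
      rw [star_star] at e1
      rw [← e1, H] at hv
      rw [eq_zero_of_mulVec_eq_zero hd (inj _ hv), adV_zero] at e1
      exact v0 e1.symm
    have := H (M⁻¹ *ᵥ y)
    rw [mulVec_mulVec, mul_nonsing_inv _ (Ne.isUnit hd), one_mulVec] at this
    rw [← this, mulVec_mulVec, nonsing_inv_mul _ hd'.isUnit, one_mulVec]

theorem sq_conj (g : S3) {b b' : ι → Hc} {a a' : ι → C3} {M M' : Mx ι}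
    (hb : ∀ i, b' i = cS g * b i * star (cS g)) (ha : ∀ i, a' i = adq (cS g) (a i))
    (H : ∀ y, M' *ᵥ adV (cS g) y = adV (cS g) (M *ᵥ y)) (u : ι → S3) :
    sq b' a' M' (fun i => g * u i * g⁻¹) = sq b a M u := by
  have hh := uni_cS g
  have eA : ∀ i, sA b' (fun i => g * u i * g⁻¹) i = adq (cS g) (sA b u i) := fun i => by
    rw [sA, sA, ← ch_conj hh, hb, cS_mul, cS_mul, cS_inv, star_mul, star_mul, star_star]
    congr 1
    rw [mul_assoc _ (star (cS g)), ← mul_assoc (star (cS g)), hh.star_mul, one_mul]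
    simp only [mul_assoc]
  have eZ : sZ b' a' M' (fun i => g * u i * g⁻¹) = adV (cS g) (sZ b a M u) := by
    rw [sZ, sZ, ← inv_adV hh H]
    congr 1
    funext q
    rw [eA, ha, ← Pi.sub_apply, ← adq_sub]
    rfl
  simp only [sq, eA, eZ, dot_adq_adq hh, Fintype.sum_prod_type]
  congr 3
  refine Finset.sum_congr rfl fun i _ => ?_
  simpa [dot, pow_two, adV] using dot_adq_adq hh (fun k => sZ b a M u (i, k)) fun k => sZ b a M u (i, k)

theorem sm_conj {μ : Measure Z} [SFinite μ] (ε : ℝ) (g : S3) (T : Z ≃ᵐ Z)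
    (hT : MeasurePreserving T μ μ) {b b' : ι → Hc} {a a' : Z → ι → C3} {M M' : Mx ι}
    (hb : ∀ i, b' i = cS g * b i * star (cS g)) (ha : ∀ ω i, a' (T ω) i = adq (cS g) (a ω i))
    (H : ∀ y, M' *ᵥ adV (cS g) y = adV (cS g) (M *ᵥ y)) {K : (ι → S3) → ℂ}
    (hK : ∀ u, K (fun i => g * u i * g⁻¹) = K u) : sm μ ε b' a' M' K = sm μ ε b a M K := by
  let C : (ι → S3) ≃ᵐ (ι → S3) := MeasurableEquiv.piCongrRight fun _ =>
    (MeasurableEquiv.mulLeft g).trans (MeasurableEquiv.mulRight g⁻¹)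
  have h1 : MeasurePreserving C (Measure.pi fun _ => haar) (Measure.pi fun _ => haar) :=
    measurePreserving_pi (fun _ : ι => haar) (fun _ => haar) fun _ =>
      (measurePreserving_mul_right haar g⁻¹).comp (measurePreserving_mul_left haar g)
  have h2 : MeasurePreserving C (hD ι ε) (hD ι ε) := by
    have := h1.restrict_preimage (meas_sD (ι := ι) ε)
    rwa [show C ⁻¹' sD ι ε = sD ι ε from Set.ext fun u => forall_congr' fun i => by
      rw [← S3.norm_conj_sub g (u i)]; rfl] at this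
  have h3 : MeasurePreserving (T.prodCongr C) (μ.prod (hD ι ε)) (μ.prod (hD ι ε)) := hT.prod h2
  have key : ∀ {K : (ι → S3) → ℂ}, (∀ u, K (fun i => g * u i * g⁻¹) = K u) →
      sI μ ε b' a' M' K = sI μ ε b a M K := fun {K} hK => by
    rw [sI, sI, ← h3.integral_comp']
    refine integral_congr_ae (.of_forall fun v => ?_)
    exact congrArg₂ (fun x y => Complex.exp x * y) (sq_conj g hb (ha v.1) H v.2) (hK v.2)
  rw [sm, sm, key hK, key fun _ => rfl]

end conj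

variable (Λ : Finset Lk)

/-- the matrix of `P` on the links of `Λ` -/
def mL (P : Fld → Fld) : Mx Λ := fun p q => P (Pi.single q.1.1 (Pi.single q.2 1)) p.1 p.2

/-- restriction to the complement of `Λ` -/
def off (X : Fld) : Fld := fun f => if f ∈ Λ then 0 else X f

/-- the shift produced by the variables outside `Λ` -/
def aL (ζ : ℝ) (a : Fld) (P : Fld → Fld) (z : Lk → E3) : Λ → C3 :=
  fun i => a i + P (off Λ (zc ζ z)) i

/-- extension of coordinates by zero -/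
def onL (y : Λ × Fin 3 → ℂ) : Fld := fun f => if h : f ∈ Λ then fun k => y (⟨f, h⟩, k) else 0

/-- merging of the variables -/
def mg (ω : Lk → E3) (z : Λ → E3) : Lk → E3 := fun f => if h : f ∈ Λ then z ⟨f, h⟩ else ω f

end Smo

open Smo

/-- extension by the identity -/
def xL (Λ : Finset Lk) (u : Λ → S3) : Conf := fun f => if h : f ∈ Λ then u ⟨f, h⟩ else 1

/-- the smoothed mean of `K` over the field `ex (a + P z) * b` on the links of `Λ` -/
def smL (Λ : Finset Lk) (ζ ε : ℝ) (b : Cf) (a : Fld) (P : Fld → Fld) (K : Conf → ℂ) : ℂ :=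
  sm (nuI ζ) ε (fun i : Λ => b i) (aL Λ ζ a P) (mL Λ P) fun u => K (xL Λ u)

/-- bounds of the data -/
structure SmB (Λ : Finset Lk) (ε m : ℝ) (b : Cf) (a : Fld) (P : Fld → Fld) : Prop where
  hb : ∀ f ∈ Λ, 5 * ‖b f - 1‖ ≤ ε
  ha : ∀ f ∈ Λ, 5 * ‖a f‖ ≤ ε
  hP : ∀ X s, (∀ e, ‖X e‖ ≤ s) → ∀ f ∈ Λ, ‖P X f‖ ≤ m * s
  hm : ∀ f ∈ Λ, Measurable fun X => P X f

/-- reality and positivity of the data -/
structure SmR (Λ : Finset Lk) (c : ℝ) (b : Cf) (a : Fld) (P : Fld → Fld) : Prop where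
  lin : IsLinearMap ℂ P
  hb : ∀ f ∈ Λ, ∃ g : S3, b f = cS g
  ha : ∀ f ∈ Λ, ∀ k, (a f k).im = 0
  hP : ∀ X, RealF X → ∀ f ∈ Λ, ∀ k, (P X f k).im = 0
  co : ∀ X, RealF X → (∀ f ∉ Λ, X f = 0) →
    c * ∑ f ∈ Λ, (dot (X f) (X f)).re ≤ ∑ f ∈ Λ, (dot (X f) (P X f)).re

variable {Λ : Finset Lk} {ζ ε c m κ : ℝ} {b b' : Cf} {a a' : Fld} {P P' : Fld → Fld} {K : Conf → ℂ}

theorem meas_xL : Measurable (xL Λ) := measurable_pi_lambda _ fun f => by
  unfold xL
  split_ifs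
  exacts [measurable_pi_apply _, measurable_const]

namespace Smo

theorem zc_le (h : 0 ≤ ζ) (z : Lk → E3) (e : Lk) : ‖zc ζ z e‖ ≤ ζ := by
  unfold zc
  split_ifs with h1
  exacts [(norm_cE _).1.trans h1, by simpa using h]

theorem zc_real (z : Lk → E3) : RealF (zc ζ z) := fun e k => by
  unfold zc
  split_ifs <;> simp [cE]

theorem meas_zc : Measurable (zc ζ) := measurable_pi_lambda _ fun f =>
  .ite (measurableSet_le (measurable_pi_apply f).norm measurable_const)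
    (measurable_cE.comp (measurable_pi_apply f)) measurable_const

theorem off_le (h : 0 ≤ ζ) (z : Lk → E3) (e : Lk) : ‖off Λ (zc ζ z) e‖ ≤ ζ := by
  unfold off
  split_ifs
  exacts [by simpa using h, zc_le h z e]

theorem mL_vec (h : IsLinearMap ℂ P) (y : Λ × Fin 3 → ℂ) (q : Λ × Fin 3) :
    (mL Λ P *ᵥ y) q = P (onL Λ y) q.1 q.2 := by
  have e : onL Λ y = ∑ p : Λ × Fin 3, y p • (Pi.single p.1.1 (Pi.single p.2 1) : Fld) := by
    funext f k
    simp only [onL, Finset.sum_apply, Pi.smul_apply, smul_eq_mul]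
    split_ifs with hf
    · rw [Finset.sum_eq_single (⟨f, hf⟩, k)]
      · simp
      · rintro ⟨⟨f', hf'⟩, k'⟩ - hne
        by_cases e : f' = f
        · subst e
          have : k ≠ k' := fun e => hne (by rw [e])
          simp [this]
        · simp [Pi.single_eq_of_ne' e]
      · simp
    · refine (Finset.sum_eq_zero fun p _ => ?_).symm
      rw [Pi.single_eq_of_ne (fun e : f = p.1.1 => hf (e ▸ p.1.2))]
      simp
  rw [e, ← h.mk'_apply, _root_.map_sum]
  simp [mulVec, dotProduct, mL, mul_comm]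

theorem _root_.Pool.Agent.Lib.MP_7f377f_mp.RG.Q4.SmR.rl (R : SmR Λ c b a P) (ζ : ℝ) :
    ∃ b0 a0 M0, Rl c (fun i : Λ => b i) (aL Λ ζ a P) (mL Λ P) b0 a0 M0 := by
  choose b0 h0 using fun i : Λ => R.hb i i.2
  have r1 : ∀ z, RealF (off Λ (zc ζ z)) := fun z e k => by
    unfold off
    split_ifs
    exacts [rfl, zc_real z e k]
  choose a0 h1 using fun z (i : Λ) => exists_cE (b := aL Λ ζ a P z i) fun k => by
    simp [aL, R.ha i i.2, R.hP _ (r1 z) i i.2]
  have h2 : ∀ p q, mL Λ P p q = (mL Λ P p q).re := fun p q =>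
    Complex.ext rfl (R.hP _ (fun e k => by
      by_cases h : e = q.1.1
      · subst h
        by_cases h : k = q.2 <;> simp [h]
      · simp [h]) _ p.1.2 _)
  refine ⟨b0, a0, fun p q => (mL Λ P p q).re, h0, fun z i => (h1 z i).symm, h2, fun v => ?_⟩
  have := R.co (onL Λ fun q => v q) (fun e k => by
    unfold onL
    split_ifs <;> simp) fun f hf => dif_neg hf
  rw [← Finset.sum_coe_sort Λ, ← Finset.sum_coe_sort Λ] at this
  simp only [dot, fun y (i : Λ) k => (mL_vec R.lin y (i, k)).symm] at this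
  simpa [onL, Fintype.sum_prod_type, pow_two, mulVec, dotProduct] using this

theorem _root_.Pool.Agent.Lib.MP_7f377f_mp.RG.Q4.SmB.pre (B : SmB Λ ε m b a P) (hζ : 0 < ζ)
    (h : 5 * m * ζ ≤ ε) : (∀ i : Λ, ‖b i - 1‖ ≤ ε) ∧ (∀ z i, ‖aL Λ ζ a P z i‖ ≤ ε) ∧
      Measurable (aL Λ ζ a P) ∧ ∀ p q, ‖mL Λ P p q‖ ≤ m := by
  refine ⟨fun i => by linarith [B.hb i i.2, norm_nonneg (b i - 1)], fun z i => ?_,
    measurable_pi_lambda _ fun i => ((B.hm i i.2).comp (measurable_pi_lambda _ fun f => ?_)).const_add _,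
    fun p q => (norm_le_pi_norm (P (Pi.single q.1.1 (Pi.single q.2 1)) p.1) p.2).trans
      ((B.hP _ 1 (fun e => ?_) _ p.1.2).trans_eq (mul_one _))⟩
  · refine (norm_add_le _ _).trans ?_
    linarith [B.ha i i.2, B.hP _ _ (off_le (Λ := Λ) hζ.le z) i i.2, norm_nonneg (a i)]
  · unfold off
    split_ifs
    exacts [measurable_const, meas_zc.eval]
  · by_cases h : e = q.1.1
    · subst h
      simp [Pi.norm_single]
    · simp [h]

theorem mp_mg (hζ : 0 < ζ) : MeasurePreserving (fun v : (Lk → E3) × (Λ → E3) => mg Λ v.1 v.2)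
    ((nuI ζ).prod (Measure.pi fun _ => nu ζ)) (nuI ζ) := by
  have := Smo.nu_prob hζ
  have hm : Measurable fun v : (Lk → E3) × (Λ → E3) => mg Λ v.1 v.2 :=
    measurable_pi_lambda _ fun e => by
      unfold mg
      split_ifs <;> fun_prop
  refine ⟨hm, eq_infinitePi _ fun s t ht => ?_⟩
  rw [map_apply hm (MeasurableSet.pi s.countable_toSet fun e _ => ht e)]
  have : (fun v : (Lk → E3) × (Λ → E3) => mg Λ v.1 v.2) ⁻¹' Set.pi s t =
      (Set.pi (s \ Λ : Finset Lk) t) ×ˢ Set.pi univ fun i : Λ => if i.1 ∈ s then t i else univ := by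
    ext v
    simp only [Set.mem_preimage, Set.mem_pi, Set.mem_prod, Finset.mem_coe, Finset.mem_sdiff, mg]
    refine ⟨fun h => ⟨fun e he => by simpa [he.2] using h e he.1, fun i _ => ?_⟩, fun h e he => ?_⟩
    · split_ifs with hi
      exacts [by simpa using h i hi, trivial]
    · split_ifs with hi
      exacts [by simpa [he] using h.2 ⟨e, hi⟩ trivial, h.1 e ⟨he, hi⟩]
  rw [this, prod_prod, nuI, infinitePi_pi _ fun e _ => ht e, Measure.pi_pi,
    Finset.prod_coe_sort Λ fun e => nu ζ (if e ∈ s then t e else univ), mul_comm,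
    ← Finset.prod_inter_mul_prod_sdiff s Λ]
  congr 1
  simp only [apply_ite, measure_univ]
  rw [Finset.prod_ite_mem, Finset.inter_comm]

end Smo

theorem smL_lin {K' : Conf → ℂ} (hK : Measurable K) (hK' : Measurable K') {κ' : ℝ}
    (h : ∀ U, ‖K U‖ ≤ κ) (h' : ∀ U, ‖K' U‖ ≤ κ') (s : ℂ) :
    smL Λ ζ ε b a P (fun U => K U + s * K' U) = smL Λ ζ ε b a P K + s * smL Λ ζ ε b a P K' :=
  sm_lin _ _ _ _ _ (hK.comp meas_xL) (hK'.comp meas_xL) (fun _ => h _) (fun _ => h' _) s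

theorem smL_zero : smL Λ ζ ε b a P (fun _ => 0) = 0 := by simp [smL, sm, sI]

theorem smL_congr {K' : Conf → ℂ} (h : ∀ f ∈ Λ, b f = b' f ∧ a f = a' f ∧ ∀ X, P X f = P' X f)
    (hK : ∀ u, K (xL Λ u) = K' (xL Λ u)) : smL Λ ζ ε b a P K = smL Λ ζ ε b' a' P' K' := by
  unfold smL
  congr 1
  · exact funext fun i => (h i i.2).1
  · funext z i
    rw [aL, aL, (h i i.2).2.1, (h i i.2).2.2]
  · funext p q
    rw [mL, mL, (h _ p.1.2).2.2]
  · exact funext hK

/-- invariance under constant rotations, for arbitrary data -/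
theorem smL_ad (hζ : 0 < ζ) (g : S3) (l : IsLinearMap ℂ P) (l' : IsLinearMap ℂ P')
    (h : ∀ f ∈ Λ, b' f = cS g * b f * star (cS g) ∧ a' f = adq (cS g) (a f) ∧
      ∀ X, P' (adF (fun _ => cS g) X) f = adq (cS g) (P X f))
    (hK : ∀ U, K (gauge Inv.inv (fun _ => g) U) = K U) : smL Λ ζ ε b' a' P' K = smL Λ ζ ε b a P K := by
  have := Smo.nu_prob hζ
  have := Smo.nuI_prob hζ
  obtain ⟨T, hT⟩ := exists_rot g
  refine sm_conj (ι := Λ) ε g (MeasurableEquiv.piCongrRight fun _ => T.toHomeomorph.toMeasurableEquiv)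
    ⟨MeasurableEquiv.measurable _, (infinitePi_map_pi _ fun _ : Lk => T.continuous.measurable).trans
      (by simp only [nu_rot])⟩ (fun i => (h i i.2).1) (fun z i => ?_) (fun y => ?_) fun u => ?_
  · rw [aL, aL, adq_add, ← (h i i.2).2.1, ← (h i i.2).2.2]
    congr 2
    funext f
    change (if f ∈ Λ then 0 else if ‖T (z f)‖ ≤ ζ then cE (T (z f)) else 0) =
      adq (cS g) (if f ∈ Λ then 0 else if ‖z f‖ ≤ ζ then cE (z f) else 0)
    rw [T.norm_map, hT]
    split_ifs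
    exacts [(adL _).map_zero.symm, rfl, (adL _).map_zero.symm]
  · funext q
    have e : onL Λ (adV (cS g) y) = adF (fun _ => cS g) (onL Λ y) := funext fun f => by
      simp only [onL, adF]
      split_ifs
      exacts [rfl, (adL _).map_zero.symm]
    rw [mL_vec l', e, (h _ q.1.2).2.2]
    simp only [adV, mL_vec l]
  · rw [← hK (xL Λ u)]
    congr 1
    funext f
    simp only [xL, gauge]
    split_ifs <;> simp

theorem smL_real (B : SmB Λ ε m b a P) (R : SmR Λ c b a P) (hζ : 0 < ζ) (h : 5 * m * ζ ≤ ε)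
    (c0 : 0 < c) (h1 : ε ≤ 1 / 100) (hK : ∀ U, (K U).im = 0) : (smL Λ ζ ε b a P K).im = 0 := by
  obtain ⟨b0, a0, M0, L⟩ := R.rl ζ
  obtain ⟨x1, x2, x3, -⟩ := B.pre hζ h
  exact L.sm_real ⟨x1, x2, x3, coer c0 L.co (η := 0) (by simp [L.hM]) (by simpa using c0.le)⟩ c0 h1
    fun _ => hK _

/-- the smoothed mean is close to the mean over the truncated Gaussian measure -/
theorem smL_close (B : SmB Λ ε m b a P) (R : SmR Λ c b a P) (hζ : 0 < ζ) (h : 5 * m * ζ ≤ ε)
    (c0 : 0 < c) (c1 : c ≤ 1) (h1 : ε ≤ 1 / 100)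
    (ht : 24 * (Λ.card + 1) * Real.exp (-(ζ ^ 2 / 4)) ≤ 1) (hK : Measurable K) (hκ : ∀ U, ‖K U‖ ≤ κ)
    {U : (Lk → E3) → Conf} (hU : ∀ z, ∀ f ∈ Λ, cS (U z f) = ex (a f + P (zc ζ z) f) * b f) :
    ‖smL Λ ζ ε b a P K - ∫ z, K (xL Λ fun i => U z i) ∂(nuI ζ)‖ ≤
      48 * Λ.card * Real.exp (-(ζ ^ 2 / 4)) * κ := by
  have := Smo.nu_prob hζ
  have := Smo.nuI_prob hζ
  obtain ⟨b0, a0, M0, L⟩ := R.rl ζ
  obtain ⟨x1, x2, x3, -⟩ := B.pre hζ h
  have e1 : ∀ ω, ∀ z ∈ bx Λ ζ, ∀ i : Λ,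
      cE (a0 ω i + mv M0 z i) = a i + P (zc ζ (mg Λ ω z)) i := fun ω z hz i => by
    have e : zc ζ (mg Λ ω z) = off Λ (zc ζ ω) + onL Λ fun q => z q.1 q.2 := funext fun f => by
      by_cases hf : f ∈ Λ
      · have := mem_closedBall_zero_iff.1 (hz ⟨f, hf⟩ trivial)
        simp only [zc, mg, off, onL, hf, this, Pi.add_apply, dif_pos, if_true, zero_add]
        rfl
      · simp [zc, mg, off, onL, hf]
    rw [cE_add, ← L.ha, aL, e, R.lin.map_add, add_assoc]
    congr 2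
    funext k
    rw [← mL_vec R.lin (q := (i, k))]
    simp [cE, mv_apply, mulVec, dotProduct, L.hM]
  have e2 : ∀ ω, ∀ z ∈ bx Λ ζ, chm b0 (a0 ω) (mv M0) z = fun i : Λ => U (mg Λ ω z) i :=
    fun ω z hz => funext fun i => RG.cS_inj (by
      rw [chm, cS_mul, cS_e0, e1 ω z hz, hU _ _ i.2, ← L.hb])
  have mU : Measurable fun z => K (xL Λ fun i => U z i) :=
    hK.comp (meas_xL.comp (measurable_pi_lambda _ fun i => by
      have : (fun z => U z i) =
          fun z => e0 (WithLp.toLp 2 fun k => (a i k + P (zc ζ z) i k).re) * b0 i := by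
        funext z
        refine RG.cS_inj ?_
        rw [cS_mul, cS_e0, hU _ _ i.2, ← L.hb]
        congr 2
        funext k
        exact Complex.ext rfl (by simp [cE, R.ha i i.2, R.hP _ (zc_real z) i i.2])
      rw [this]
      exact (continuous_e0.measurable.comp ((PiLp.continuous_toLp 2 _).measurable.comp
        (measurable_pi_lambda _ fun k => Complex.measurable_re.comp
          (((B.hm i i.2).comp meas_zc).eval.const_add _)))).mul_const _))
  have key := L.close (μ := nuI ζ) (K := fun u => K (xL Λ u))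
    ⟨x1, x2, x3, coer c0 L.co (η := 0) (by simp [L.hM]) (by simpa using c0.le)⟩ c0 c1 h1 hζ
    (fun ω z hz i => by
      have a1 := (norm_cE (a0 ω i + mv M0 z i)).2
      have a2 := (norm_cq ((b0 i).q - 1)).1
      have a3 := B.hb i i.2
      rw [e1 ω z hz] at a1
      rw [cq_sub, cq_one] at a2
      rw [L.hb i, cS] at a3
      refine (S3.norm_mul_sub _ _).trans ?_
      linarith [e0_near (a0 ω i + mv M0 z i), norm_add_le (a i) (P (zc ζ (mg Λ ω z)) i), B.ha i i.2,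
        B.hP _ _ (zc_le hζ.le (mg Λ ω z)) i i.2])
    (by rwa [Fintype.card_coe]) (hK.comp meas_xL) fun _ => hκ _
  rw [Fintype.card_coe] at key
  have mp := mp_mg (Λ := Λ) hζ
  have iU : Integrable (fun v : (Lk → E3) × (Λ → E3) => K (xL Λ fun i => U (mg Λ v.1 v.2) i))
      ((nuI ζ).prod (Measure.pi fun _ => nu ζ)) :=
    .of_bound (mU.comp mp.measurable).aestronglyMeasurable κ (.of_forall fun v => hκ _)
  rw [← mp.map_eq, integral_map mp.measurable.aemeasurable mU.aestronglyMeasurable,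
    integral_prod _ iU]
  refine le_of_eq_of_le (congrArg (fun x => ‖smL Λ ζ ε b a P K - x‖)
    (integral_congr_ae (.of_forall fun ω => integral_congr_ae ?_))) key
  have : ∀ᵐ z ∂(Measure.pi fun _ : Λ => nu ζ), z ∈ bx Λ ζ := by
    refine (ae_all_iff.2 fun i => (measurePreserving_eval (fun _ : Λ => nu ζ) i).quasiMeasurePreserving.ae
      (p := fun v => v ∈ closedBall 0 ζ) ?_).mono fun z hz i _ => hz i
    rw [nu_eq hζ]
    exact (withDensity_absolutelyContinuous _ _).ae_le (ae_restrict_mem measurableSet_closedBall)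
  filter_upwards [this] with z hz
  rw [e2 ω z hz]

/-- the smoothing lemma -/
theorem smL_Tb {R : ℕ} {ρ h : ℝ} (b : Fld → Cf) (a : Fld → Fld) (P : Fld → Fld → Fld)
    (hK : Measurable K) (hκ : ∀ U, ‖K U‖ ≤ κ)
    (hKg : ∀ (g : S3) U, K (gauge Inv.inv (fun _ => g) U) = K U) (lin : ∀ B, IsLinearMap ℂ (P B))
    (loc : ∀ A B, RealF A → RealF B → Cv R ρ A → (∀ x ∈ box R, ∀ μ ν, dd A x μ ν = dd B x μ ν) →
      ∀ f ∈ Λ, b A f = b B f ∧ a A f = a B f ∧ ∀ X, P A X f = P B X f)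
    (ad : ∀ (g : S3) B, RealF B → Cv R ρ B → Cv R ρ (adF (fun _ => cS g) B) → ∀ f ∈ Λ,
      b (adF (fun _ => cS g) B) f = cS g * b B f * star (cS g) ∧
      a (adF (fun _ => cS g) B) f = adq (cS g) (a B f) ∧
      ∀ X, P (adF (fun _ => cS g) B) (adF (fun _ => cS g) X) f = adq (cS g) (P B X f))
    (hol : ∀ Ω γ, IsOpen Ω → Disc Ω γ → (∀ t ∈ Ω, Cv R (2 * ρ) (γ t)) → ∀ f ∈ Λ,
      DifferentiableOn ℂ (fun t => b (γ t) f) Ω ∧ DifferentiableOn ℂ (fun t => a (γ t) f) Ω ∧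
      ∀ X, DifferentiableOn ℂ (fun t => P (γ t) X f) Ω)
    (bd : ∀ B, Cv R (2 * ρ) B → SmB Λ ε m (b B) (a B) (P B))
    (re : ∀ B, RealF B → Cv R ρ B → SmR Λ c (b B) (a B) (P B))
    (hζ : 0 < ζ) (hm : 5 * m * ζ ≤ ε) (c0 : 0 < c) (hc : c ≤ ε) (hc' : c ≤ m) (h1 : ε ≤ 1 / 100)
    (h0 : 0 < h) (hh : 10 ^ 6 * (Λ.card + 1) ^ 2 * (m / c) * (ε / c) ^ 2 * h ≤ ρ) :
    Tb R ρ h (2 * κ) fun B => smL Λ ζ ε (b B) (a B) (P B) K := by
  have := Smo.nuI_prob hζ
  have hf : ∀ Ω γ, IsOpen Ω → Disc Ω γ → (∀ t ∈ Ω, Cv R (2 * ρ) (γ t)) →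
      Hf Ω (fun t (i : Λ) => b (γ t) i) (fun t => aL Λ ζ (a (γ t)) (P (γ t)))
        fun t => mL Λ (P (γ t)) := fun Ω γ o d v =>
    ⟨fun i => (hol Ω γ o d v i i.2).1,
      fun z i => (hol Ω γ o d v i i.2).2.1.add ((hol Ω γ o d v i i.2).2.2 _),
      fun p q => differentiableOn_pi.1 ((hol Ω γ o d v _ p.1.2).2.2 _) _⟩
  have key : ∀ B, InT R ρ h B → Gd ε c (fun i : Λ => b B i) (aL Λ ζ (a B) (P B)) (mL Λ (P B)) ∧
      sI (nuI ζ) ε (fun i : Λ => b B i) (aL Λ ζ (a B) (P B)) (mL Λ (P B)) 1 ≠ 0 ∧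
      ‖smL Λ ζ ε (b B) (a B) (P B) K‖ ≤ 2 * κ := by
    rintro B ⟨B0, r0, v0, v1⟩
    have v : ∀ t ∈ ball (0 : ℂ) (ρ / h), Cv R (2 * ρ) (B0 + t • (B - B0)) := fun t ht =>
      (v0.add (v1.smul t)).mono le_rfl (by
        linarith [(lt_div_iff₀ h0).1 (mem_ball_zero_iff.1 ht)])
    obtain ⟨b0, a0, M0, L⟩ := (re B0 r0 v0).rl ζ
    have := tube (μ := nuI ζ) (K := fun u => K (xL Λ u)) (m := m)
      (hf _ (fun t => B0 + t • (B - B0)) isOpen_ball (fun e => by
        simp only [Pi.add_apply, Pi.smul_apply]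
        fun_prop) v) (by simpa using L) (fun t ht => (bd _ (v t ht)).pre hζ hm) c0 hc hc' h1
      (by rwa [Fintype.card_coe, le_div_iff₀ h0]) fun _ => hκ _
    simpa [smL] using this
  have hρ : h ≤ ρ := le_trans (le_mul_of_one_le_left h0.le (by
    have q1 : 1 ≤ (ε / c) ^ 2 := one_le_pow₀ ((one_le_div c0).2 hc)
    have q2 : 1 ≤ m / c := (one_le_div c0).2 hc'
    have q3 : (1 : ℝ) ≤ (Λ.card + 1) ^ 2 := one_le_pow₀ (by simp)
    exact one_le_mul_of_one_le_of_one_le (one_le_mul_of_one_le_of_one_le (by linarith) q2) q1)) hh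
  refine ⟨⟨fun A B rA rB v e => smL_congr (loc A B rA rB v e) fun _ => rfl,
    fun g B rB v v' => smL_ad hζ g (lin _) (lin _) (ad g B rB v v') (hKg g)⟩, fun Ω γ o d v => ?_,
    fun B hB => (key B hB).2.2⟩
  have H := hf Ω γ o d fun t ht => by
    obtain ⟨B0, -, v0, v1⟩ := v t ht
    simpa using (v0.add v1).mono le_rfl (by linarith : ρ + h ≤ 2 * ρ)
  exact (H.sI o (fun t ht => (key _ (v t ht)).1) c0 (by linarith) h1 (hK.comp meas_xL)
    fun _ => hκ _).div (H.sI (K := 1) (κ := 1) o (fun t ht => (key _ (v t ht)).1) c0 (by linarith) h1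
      measurable_const (by simp)) fun t ht => (key _ (v t ht)).2.1

end Pool.Agent.Lib.MP_7f377f_mp.RG.Q4
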