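import Pool.Agent.Lib.MP_7f377f_mp.Q4EnDefs
import Pool.Agent.Lib.MP_7f377f_mp.Q4CovC
import Pool.Agent.Lib.MP_7f377f_mp.Q4Sm
import Pool.Agent.Lib.MP_7f377f_mp.Q4LocO
import Pool.Agent.Lib.MP_7f377f_mp.Q4MeasInd
import Pool.Agent.Lib.MP_7f377f_mp.Q4Hole
import Pool.Agent.Lib.MP_7f377f_mp.Q4Psi

/-! The polymer representation with holes and the objects of one step: definitions. -/

noncomputable section

namespace Pool.Agent.Lib.MP_7f377f_mp.RG.Q4

open Finset MeasureTheory Polynomial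
open scoped Classical

/-! ### The representation -/

/-- small curvature on the plaquettes based in the box of radius `R` -/
def Fq (R : ℕ) (ε : ℝ) (U : Conf) : Prop := ∀ x ∈ box R, ∀ μ ν, fq U x μ ν ≤ ε

/-- the parameters of a level -/
structure Pa where
  R : ℕ
  D : ℕ
  ε : ℝ
  ρ : ℝ
  lam : ℝ
  a : ℝ
  G0 : ℝ
  G2 : ℝ

/-- the parameters of a level of size `M` with reference coupling `β` -/
def lv (K0 K M : ℕ) (β : ℝ) : Pa where
  R := 4 * M ^ K0
  D := 20 * M ^ K0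
  ε := ((M : ℝ) ^ K) ^ 2 / √β
  ρ := ((M : ℝ) ^ K) ^ 3 / √β
  lam := √β
  a := 2 * Real.log ((M : ℝ) ^ K)
  G0 := ((M : ℝ) ^ K) ^ 3
  G2 := 2 * (M : ℝ) ^ K

/-- indicator of small fields around `x` -/
def chi (p : Pa) (U : Conf) (x : St) : ℂ := if Fq (p.R + 1) p.ε (sh x U) then 1 else 0

/-- local exponents, one for each site -/
abbrev Lx : Type := St → Fld → ℂ

/-- the weight of a site outside the cores -/
def Ix (p : Pa) (Φ : Lx) (U : Conf) (x : St) : ℂ :=
  chi p U x * Complex.exp (-Φ x (Bx x (cC U)))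

/-- activities of labelled polymers -/
abbrev Ac : Type := Finset St → Finset (Finset St) → Conf → ℂ

/-- majorants -/
abbrev Mj : Type := Finset St → Finset (Finset St) → ℝ

/-- the polymer representation on the torus of side `n` -/
def Rep (p : Pa) (n : ℕ) (Φ : Lx) (K : Ac) (U : Conf) : ℂ :=
  ZL (box (n / 2)) (fun X c => K X c U) (Ix p Φ (pc n U))

/-- the regulator of a family of cores -/
def Rg (c : Finset (Finset St)) (U : Conf) : ℝ := ∑ C ∈ c, ∑ x ∈ C, fs U x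

/-- activities majorised by `k` -/
structure KM (p : Pa) (n : ℕ) (k : Mj) (K : Ac) : Prop where
  meas : ∀ X c, Measurable (K X c)
  per : ∀ X c U, K X c (pc n U) = K X c U
  dep : ∀ X c, DependsOn (K X c) {b | rc n b.1 ∈ X ∧ rc n (b.1 + un b.2) ∈ X}
  gi : ∀ X c u U, PS n u → K X c (gauge Inv.inv u U) = K X c U
  bd : ∀ X c U, Per n U → ‖K X c U‖ ≤ k X c * Real.exp (-(p.lam * Rg c U))

/-- the weight of a labelled polymer -/
def wgt (p : Pa) (n : ℕ) (X : Finset St) (c : Finset (Finset St)) : ℝ :=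
  Real.exp (p.a * tau n p.D X + ∑ C ∈ c, (p.G0 + p.G2 * tau n p.D C))

/-- the norm of a majorant -/
def kN (p : Pa) (n : ℕ) (k : Mj) (θ : ℝ) : Prop := (∀ X c, 0 ≤ k X c) ∧
  ∀ x, ∑ o ∈ (lps (box (n / 2))).filter (fun o => x ∈ o.1), k o.1 o.2 * wgt p n o.1 o.2 ≤ θ

/-- translate of a set of sites of the torus -/
def trS (n : ℕ) (v : St) (X : Finset St) : Finset St := X.image fun x => rc n (x + v)

/-- local exponents seen from `v` -/
def trL (n : ℕ) (v : St) (Φ : Lx) : Lx := fun x => Φ (rc n (x + v))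

/-- activities seen from `v` -/
def trA (n : ℕ) (v : St) (K : Ac) : Ac :=
  fun X c U => K (trS n v X) (c.image (trS n v)) (sh (-v) (pc n U))

/-- restriction to real fields of small curvature -/
def ctr (R : ℕ) (ρ : ℝ) (φ : Fld → ℂ) (B : Fld) : ℂ := if RealF B then ctf R ρ φ B else 0

/-- the class of the small local terms, with the three sizes -/
def PM (p : Pa) (xb xk xr : ℝ) (ψ : Lx) : Prop :=
  ∀ x, Ps p.R 6 p.ρ xb xk xr (ψ x) ∧ Measurable (ψ x)

/-- the class of the small local terms, with a bound of the values only -/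
def PU (p : Pa) (b : ℝ) (ψ : Lx) : Prop := (∃ xb xk xr, PM p xb xk xr ψ) ∧
  ∀ x B, RealF B → Cv p.R p.ρ B → ‖ψ x B‖ ≤ b

def RealL (ψ : Lx) : Prop := ∀ x B, RealF B → (ψ x B).im = 0

def RealA (K : Ac) : Prop := ∀ X c U, (K X c U).im = 0

/-- translation covariant data -/
def TCov (n : ℕ) (ψ : Lx) (K : Ac) : Prop :=
  ∀ v, trL n v ψ = ψ ∧ ∀ o ∈ lps (box (n / 2)), trA n v K o.1 o.2 = K o.1 o.2

/-! ### Tree data -/

/-- the part of the data of a step which does not depend on the couplings and on the volume -/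
structure Td where
  c : ℕ
  Kt : ℕ
  K0 : ℕ
  l : ℕ
  m : BF
  s : V →ₗ[ℝ] V
  T : Fld → ℂ

namespace Td

variable (S : Td)

/-- side of the blocks -/
def L : ℝ := LL S.l

def r : ℕ := Nat.log 3 (LL S.l) ^ 4

def τ : ℝ := S.L ^ S.c * Real.exp (-(S.r / S.c))

def Λ : ℝ := (LL S.l : ℝ) ^ (S.c + 1)

def N : ℕ := LL S.l ^ (2 * S.c + 4)

def t : Nt := ⟨⟨S.l, hh S.l S.m, S.Λ, S.N⟩, Gc S.l S.m S.s S.T, 100⟩

/-- range of the operators and of the minimiser, in units of blocks -/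
def w : ℕ := LL S.l ^ (2 * S.c + 6)

/-- common range of all local objects, in units of blocks -/
def D0 : ℕ := LL S.l ^ S.K0

/-- radius of the domain of the tree step -/
def δ : ℝ := (S.r : ℝ) ^ 3 / S.D0

/-- the new quadratic density -/
def m1 : BF := mb S.l 3 S.m S.s

/-- the new cubic term -/
def T1 : Fld → ℂ := S.t.Tn (S.r + 5) ((S.D0 : ℝ)⁻¹) S.m1

/-- the kernel of the Hessian of the block at the origin -/
def kd (W : Cf) : Kf := fun e i e' j => j2 (S.t.FF W 0) (S.t.As W) (eb e i) (eb e' j)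

/-- the kernels of all blocks -/
def ka (W : Cf) : St → Kf := fun y => S.kd (sh y W)

/-- polynomials in the fluctuation operator without holes -/
def pol0 (p : ℂ[X]) (W : Cf) (A : Fld) : Fld := polK S.l S.Λ p ∅ (S.ka W) A

def dt0 (W : Cf) : ℂ := dtK S.l S.Λ S.N ∅ (S.ka W)

/-- the field with chart coordinates `B` -/
def wB (B : Fld) : Cf := exF (cut (4 * S.D0) (cg B))

/-- the one loop term -/
def ol (B : Fld) : ℂ := S.dt0 (S.wB 0) - S.dt0 (S.wB B)

/-- flow from the block at the origin to the block `u` -/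
def xf (W : Cf) (a : Fld) (u : St) : ℂ :=
  (if u ∈ box 2 then S.t.xi W (S.t.As W) a 0 u + S.t.xi W 0 (S.t.As W) 0 u else 0) +
    (2 * (box 3).card : ℂ)⁻¹ * S.t.a0 W

/-- the telescoping terms of the block at the origin -/
def tel (W : Cf) (a : Fld) : ℂ :=
  ∑ u ∈ box 3, (S.xf (sh u W) (sh (up S.l u) a) (-u) - S.xf W a u)

/-- the tree data at a level of size `M` -/
structure Tr (S : Td) (M j : ℕ) (v e : ℝ) : Prop where
  ch : ∃ ρ, 2 ≤ ρ ∧ ρ ≤ 3 ∧ Ch j (3 * S.r) ρ v e S.m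
  tc : Tc (3 * S.r) (((M : ℝ) ^ S.K0)⁻¹) ((M : ℝ) ^ S.Kt) S.T
  real : ∀ B, RealF B → (S.T B).im = 0

/-- the linear theory of the step -/
structure Ln (S : Td) (j : ℕ) (v e : ℝ) : Prop where
  lin : Lin S.l S.r S.c S.τ S.m S.s
  grad : Grad S.l S.r ((S.r : ℝ) ^ S.c / LL S.l) S.s
  inv : Inv (2 * j * S.l + j + S.l) S.r (20 * (1 + 1 / LL S.l)) (v * (2⁻¹ + e) + S.τ)
    (mn S.l S.m S.s)
  pt : ∀ B δ, Cv (S.r / 3) δ B →
    Cv S.l ((S.r : ℝ) ^ 4 * δ / (LL S.l * √(LL S.l))) (mu S.l S.s B)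

end Td

/-- logarithm of the inverse density of the chart -/
def e4 (l : ℕ) (A : Fld) : ℂ := 2 * ∑ f ∈ lbox l, Complex.log (1 + dot (A f) (A f))

/-- real part of a field -/
def reE (A : Fld) : Lk → E3 := fun f => WithLp.toLp 2 fun k => (A f k).re

/-- complexification of a real field -/
def cF (z : Lk → E3) : Fld := fun f => cE (z f)

/-- shift of functions of sites -/
def shv {α : Type} (y : St) (v : St → α) : St → α := fun x => v (x + y)

/-! ### The objects -/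

/-- marks: Mayer marks, pair marks, smoothing marks, determinant marks -/
abbrev Mk : Type := St ⊕ (St × St) ⊕ (St × Finset St) ⊕ Finset St

/-- objects: old labelled polymers, large fluctuations, large block fields, marks -/
abbrev Ob : Type := (LP St ⊕ St ⊕ St) ⊕ Mk

/-- an old polymer without cores -/
def oX (X : Finset St) : Ob := .inl (.inl ⟨X, ∅⟩)

/-- a Mayer mark -/
def oM (y : St) : Ob := .inr (.inl y)

/-- a pair mark -/
def oP (y u : St) : Ob := .inr (.inr (.inl (y, u)))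

/-- a smoothing mark -/
def oS (y : St) (X : Finset St) : Ob := .inr (.inr (.inr (.inl (y, X))))

/-- the old polymers -/
def olds (O : Finset Ob) : Finset (LP St) := O.toLeft.toLeft

/-- the blocks with a large fluctuation variable -/
def Dbl (O : Finset Ob) : Finset St := O.toLeft.toRight.toLeft

/-- the sites with a large block field -/
def Wk (O : Finset Ob) : Finset St := O.toLeft.toRight.toRight

/-- the old cores -/
def CC (O : Finset Ob) : Finset (Finset St) := (olds O).biUnion fun o => o.2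

/-- the data of a step from the torus of side `LL l * n` to the torus of side `n` -/
structure Sd extends Td where
  K : ℕ
  B : ℕ
  M : ℕ
  n : ℕ
  β : ℝ
  β' : ℝ

namespace Sd

variable (S : Sd)

/-- the bound of all polynomial constants -/
def Q : ℝ := S.L ^ S.K

/-- the coupling constant -/
def g : ℝ := (√S.β)⁻¹

/-- side of the fine torus -/
def nf : ℕ := LL S.l * S.n

/-- parameters of the fine level -/
def p : Pa := lv S.K0 S.K S.M S.β

/-- parameters of the coarse level -/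
def p' : Pa := lv S.K0 S.K (LL S.l) S.β'

/-- scale of the fluctuation field -/
def gt : ℝ := (√(2 * S.β * S.Λ))⁻¹

def ζ : ℝ := S.Q

def zm : ℝ := S.Q * √S.β

def ε2 : ℝ := S.Q / √S.β'

def ε3 : ℝ := S.Q ^ 4 / √S.β'

/-- the total exponent at the fine level -/
def Φ (ψ : Lx) : Lx := fun x B => S.β * (cx S.m B B + S.T B) + ψ x B

/-! #### Functionals without holes, for the block at the origin -/

def P0 (W : Cf) (A : Fld) : Fld := (S.gt : ℂ) • S.pol0 (pP S.N) W A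

/-- the fluctuation field -/
def v0 (W : Cf) (z : Lk → E3) : Fld := S.P0 W (zc S.ζ z)

def U0 (W : Cf) (z : Lk → E3) : Cf := Uz S.l S.s W (S.t.As W + S.v0 W z)

/-- the leading interaction -/
def s1 (W : Cf) (z : Lk → E3) : ℂ :=
  S.β * S.t.rem3 W (S.v0 W z) 0 + e4 S.l (S.t.As W + S.v0 W z)

/-- the negligible terms -/
def sT (W : Cf) (z : Lk → E3) : ℂ :=
  S.β * (S.t.gv W (S.t.As W) (S.v0 W z) 0 + S.t.rest (S.r + 5) ((S.D0 : ℝ)⁻¹) S.m1 W) -
    (∑ f ∈ lbox S.l, dot (zc S.ζ z f) (S.pol0 (pU S.N) W (zc S.ζ z) f)) / 2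

/-- the small terms of the sites of the block -/
def sP (ψ : Lx) (W : Cf) (z : Lk → E3) : ℂ :=
  ∑ x ∈ box S.l, ψ x (cut (S.p.R + 1) (Bx x (S.U0 W z)))

/-- the family of fields of the push lemma -/
def Gx (x : St) (z : Lk → E3) (B : Fld) : Fld := cut (S.p.R + 1) (Bx x (S.U0 (S.wB B) z))

def pzr (ψ : Lx) (B : Fld) : ℂ := ∫ z, S.sP ψ (S.wB B) z ∂nuI S.ζ

/-- the mean of the small terms -/
def pz (ψ : Lx) : Fld → ℂ := ctr S.p'.R S.p'.ρ (S.pzr ψ)

def c1 : ℂ := -Complex.log (∫ z, Complex.exp (-S.s1 1 z) ∂nuI S.ζ)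

def f0 (W : Cf) (z : Lk → E3) : ℂ := Complex.exp (-S.s1 W z + S.c1) - 1

def c2 (u : St) : ℂ := -∫ z, S.f0 1 z * S.f0 1 (sh (up S.l u) z) ∂nuI S.ζ

/-- the Mayer mark -/
def fm (ψ : Lx) (W : Cf) (z : Lk → E3) : ℂ :=
  Complex.exp (-(S.s1 W z + S.sT W z + S.sP ψ W z) + S.pz ψ (Bx 0 W) + S.c1) - 1

/-- the small polymers which meet the block at the origin -/
def X1s : Finset (Finset St) :=
  (box (S.nf / 2)).powerset.filter fun X => tau S.nf S.p.D X = 1 ∧ 0 ∈ dn S.l S.n X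

/-- the links of `X` which are not in the trees -/
def La (X : Finset St) : Finset Lk :=
  (X ×ˢ univ).filter fun e => e.1 + un e.2 ∈ X ∧ ¬ tree S.l e

def Fsr (K : Ac) (X : Finset St) (B : Fld) : ℂ :=
  smL (S.La X) S.ζ S.ε3 (Us S.l S.s (S.wB B)) (S.t.As (S.wB B)) (S.P0 (S.wB B)) (K X ∅)

/-- the share of the block at the origin in the smoothed activity of a small polymer -/
def Fs (K : Ac) (X : Finset St) (B : Fld) : ℂ :=
  ctr S.p'.R S.p'.ρ (S.Fsr K X) B / (dn S.l S.n X).card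

/-- relative positions of the pair marks -/
def prs : Finset St := (box (2 * S.D0)).erase 0

/-- the part of the new small term which is linear in the data, for the block at the origin -/
def Pl (ψ : Lx) (K : Ac) (B : Fld) : ℂ :=
  (S.pz ψ B - S.pz ψ 0) - ∑ X ∈ S.X1s, (S.Fs K X B - S.Fs K X 0)

/-- the constant extracted from the block at the origin -/
def cX (ψ : Lx) (K : Ac) : ℂ :=
  S.dt0 (S.wB 0) - S.pz ψ 0 + ∑ X ∈ S.X1s, S.Fs K X 0 - S.c1

/-- the small terms seen from the block `y` -/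
def ψy (ψ : Lx) (y : St) : Lx := trL S.nf (up S.l y) ψ

/-- the activities seen from the block `y` -/
def Ky (K : Ac) (y : St) : Ac := trA S.nf (up S.l y) K

/-- the new small terms -/
def PL (ψ : Lx) (K : Ac) : Lx := fun y => S.Pl (S.ψy ψ y) (S.Ky K y)

/-- the total exponent at the coarse level -/
def Φ' (ψ : Lx) (K : Ac) : Lx :=
  fun y B => S.β * (cx S.m1 B B + S.T1 B) + S.ol B + S.PL ψ K y B

/-- Gaussian constant of a block -/
def C0 : ℝ := (cHa * S.gt ^ 3 * zn S.ζ) ^ (ntr S.l).card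

/-- the contribution of the block `y` to the free energy -/
def Ey (ψ : Lx) (K : Ac) (y : St) : ℂ :=
  (Real.log (S.C0 / (∫ g, hk0 (S.β * S.L ^ 2) g ∂haar) ^ 4) : ℝ) +
    S.cX (S.ψy ψ y) (S.Ky K y) - ∑ u ∈ S.prs, S.c2 u / 2

/-! #### The variables and the factors of a block -/

/-- the holes of a block field -/
def H (W : Conf) : Set St := {y | ¬ Fq (S.p'.R + 1) S.p'.ε (sh y W)}

/-- polynomials in the fluctuation operator -/
def pol (p : ℂ[X]) (W : Conf) (A : Fld) : Fld := polK S.l S.Λ p (S.H W) (S.ka (cC W)) A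

/-- the fluctuation field -/
def vH (W : Conf) (z : Lk → E3) : Fld := (S.gt : ℂ) • S.pol (pP S.N) W (cF z)

/-- the chart coordinates of the active links -/
def Af (W : Conf) (z : Lk → E3) : Lk → E3 := reE (S.t.As (cC W) + S.vH W z)

/-- the fine field -/
def Uv (W : Conf) (v : VB) : Conf :=
  uq (Act S.l (S.H W)) (Ub S.l S.s W) (S.Af W (vz S.l v)) (vs S.l v) (trz S.l (vU S.l v))

/-- the kernel of the block at the origin -/
def Gw (W : Conf) (v : VB) : ℝ := wt S.l (S.Uv W v) (vo v 0) *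
  ∏ μ, hk0 (S.β * S.L ^ 2) (W (0, μ) * (blkN S.l (S.Uv W v) (vo v) (0, μ))⁻¹)

/-- the Jacobian of the block at the origin without the Gaussian factor and the determinant -/
def Jk (W : Conf) (v : VB) : ℝ :=
  if Fr (S.H W) 0 then ∏ t ∈ ntr S.l, 8 * th (vs S.l v t) (S.Af W (vz S.l v) t) *
    dH (S.Af W (vz S.l v) t) * (S.gt ^ 3 * zn S.zm) else 1

/-- the local form of the Gaussian factor and of the determinant, and the telescoping terms -/
def Eg (W : Conf) (z : Lk → E3) : ℂ :=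
  S.β * qk S.l (S.kd (cC W)) (S.vH W z) (S.vH W z) +
    (∑ f ∈ lbox S.l, dot (cF z f) (S.pol (pU S.N) W (cF z) f)) / 2 +
    dtK S.l S.Λ S.N (S.H W) (S.ka (cC W)) - S.β * S.tel (cC W) (S.vH W z)

/-- probability of the good values of the variables of a block -/
def p0 : ℝ := cgd S.l S.ζ (zn S.zm)

/-- the normalised factor of the block at the origin -/
def Gn (W : Conf) (v : VB) : ℂ :=
  ((S.p0 / S.C0 * (S.Gw W v * S.Jk W v) : ℝ) : ℂ) * Complex.exp (S.Eg W (vz S.l v))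

/-- the weights of the sites of the block `y` outside `co` -/
def Ib (ψ : Lx) (co : Finset St) (U : Conf) (y : St) : ℂ :=
  ∏ x ∈ (box S.l).filter fun x => x + up S.l y ∉ co, Ix S.p (S.Φ ψ) U (x + up S.l y)

/-- the determinant marks -/
def dZ (W : Conf) (Z : Finset St) : ℂ := dmK (cu S.n) S.l S.Λ S.N (S.H W) (S.ka (cC W)) Z

/-! #### The expansion -/

/-- the sites of the coarse torus -/
def Λ' : Finset St := box (S.n / 2)

/-- all marks -/
def mks : Finset Mk := S.Λ'.disjSum ((S.Λ' ×ˢ S.prs).disjSum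
  ((S.Λ' ×ˢ S.X1s).disjSum (S.Λ'.powerset.erase ∅)))

/-- all objects -/
def obs : Finset Ob := ((lps (box (S.nf / 2))).disjSum (S.Λ'.disjSum S.Λ')).disjSum S.mks

/-- the coarse sites occupied by an object -/
def bs : Ob → Finset St
  | .inl (.inl o) => dn S.l S.n o.1
  | .inl (.inr (.inl y)) => {y}
  | .inl (.inr (.inr y)) => {y}
  | .inr (.inl y) => {y}
  | .inr (.inr (.inl q)) => {q.1, rc S.n (q.1 + q.2)}
  | .inr (.inr (.inr (.inl q))) => dn S.l S.n (trS S.nf (up S.l q.1) q.2)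
  | .inr (.inr (.inr (.inr Z))) => Z

/-- the support of an object -/
def sp (o : Ob) : Finset St := tb S.n (13 * S.D0) (S.bs o)

/-- the region which is not calm -/
def Oh (O : Finset Ob) : Finset St := tb S.n (5 * S.D0) (Hh S.l S.n (CC O) (Wk O) ∪ Dbl O)

/-- the new cores -/
def lab (W : Conf) (O : Finset Ob) : Finset (Finset St) :=
  ncs S.l S.n (3 * S.D0) S.p'.D S.ε2 (fs W) (CC O) (Wk O)

/-- the factor of a mark; `Ω` is the region which is not calm -/
def jm (ψ : Lx) (K : Ac) (W : Conf) (v : VB) (Ω : Finset St) : Mk → ℂ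
  | .inl y => if y ∈ Ω then 0 else
      S.fm (S.ψy ψ y) (sh y (cC W)) (sh (up S.l y) (vz S.l v))
  | .inr (.inl q) => Complex.exp (S.c2 q.2 / 2) - 1
  | .inr (.inr (.inl q)) => if q.1 ∈ Ω then 0 else
      Complex.exp (-S.Fs (S.Ky K q.1) q.2 (Bx q.1 (cC W))) - 1
  | .inr (.inr (.inr Z)) => S.dZ W Z

/-- the factor of a block which is not calm -/
def hf (ψ : Lx) (K : Ac) (W : Conf) (v : VB) (O : Finset Ob) (y : St) : ℂ :=
  S.Gn (sh y W) (shv y v) * S.Ib ψ ((CC O).biUnion id) (S.Uv W v) y *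
    Complex.exp (-S.cX (S.ψy ψ y) (S.Ky K y) +
      if y ∈ (S.lab W O).biUnion id then 0 else S.Φ' ψ K y (Bx y (cC W)))

/-- indicators of good or bad values of the variables -/
def df (v : VB) (O : Finset Ob) (y : St) : ℂ :=
  (((if y ∈ Dbl O then 1 - gd S.l S.ζ (v y) else gd S.l S.ζ (v y)) / S.p0 : ℝ) : ℂ)

/-- indicators of large or small block fields -/
def wf (W : Conf) (O : Finset Ob) : ℂ :=
  (∏ y ∈ Wk O, (1 - chi S.p' W y)) * ∏ y ∈ (S.lab W O).biUnion id \ Wk O, chi S.p' W y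

/-- the integrand of a family of objects -/
def FO (ψ : Lx) (K : Ac) (W : Conf) (O : Finset Ob) (v : VB) : ℂ :=
  (if (olds O : Set (LP St)).PairwiseDisjoint (fun o => o.1) then
      ∏ o ∈ olds O, K o.1 o.2 (S.Uv W v) else 0) *
    (∏ y ∈ S.Oh O, S.hf ψ K W v O y) * (∏ m ∈ O.toRight, S.jm ψ K W v (S.Oh O) m) *
    ∏ y ∈ us S.sp O, S.df v O y

/-- the weight of a family of objects -/
def wO (ψ : Lx) (K : Ac) (W : Conf) (O : Finset Ob) : ℂ :=
  S.wf W O * ∫ v, S.FO ψ K W O (pcs S.n v) ∂PB S.l (nu S.zm)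

/-- the sites well inside `Y` -/
def Din (Y : Finset St) : Finset St := Y.filter fun y => tb S.n (S.p'.R + 2) {y} ⊆ Y

/-- the new activities for periodic fields, before the gauge average -/
def Kr (ψ : Lx) (K : Ac) (Y : Finset St) (c : Finset (Finset St)) (W : Conf) : ℂ :=
  (∑ O ∈ (clus S.sp S.obs Y).filter (S.lab W · = c), S.wO ψ K W O) *
    ∏ y ∈ S.Din Y \ c.biUnion id, chi S.p' W y

/-- the new activities -/
def KK (ψ : Lx) (K : Ac) : Ac :=
  fun Y c => Mx.gav S.n fun W => S.Kr ψ K Y c (pc S.n W)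

/-- the integrand after the change of variables -/
def IT (f : Conf → ℂ) (W : Conf) (v : VB) : ℂ := f (S.Uv W v) *
  (∏ y ∈ S.Λ', ((S.C0 / (S.p0 * (∫ g, hk0 (S.β * S.L ^ 2) g ∂haar) ^ 4) : ℝ) : ℂ) *
    S.Gn (sh y W) (shv y v)) * ∏ Z ∈ S.Λ'.powerset.erase ∅, (1 + S.dZ W Z)

/-- all variables and the block field are good near `y` -/
def Calm (W : Conf) (v : VB) (y : St) : Prop := ∀ u ∈ box S.D0,
  Fq (S.p'.R + 1) S.p'.ε (sh (u + y) W) ∧ gd S.l S.ζ (v (u + y)) = 1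

/-- the block field is good well inside the support of `O` -/
def In (W : Conf) (O : Finset Ob) : Prop :=
  ∀ y ∈ S.Din (us S.sp O), Fq (S.p'.R + 1) S.p'.ε (sh y W)

/-- the indicators which multiply the weight of `O` do not vanish -/
def Sup (W : Conf) (O : Finset Ob) : Prop := S.wf W O ≠ 0 ∧
  ∀ y ∈ S.Din (us S.sp O) \ (S.lab W O).biUnion id, Fq (S.p'.R + 1) S.p'.ε (sh y W)

/-- size of the Mayer marks -/
def θ1 (b : ℝ) : ℝ := S.Q ^ 20 * (S.g + b)

/-- size of the first order terms after the cancellations -/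
def θ2 (b : ℝ) : ℝ := S.Q ^ 45 * (S.g ^ 3 + S.g * b + b ^ 2)

/-- majorant of the marks -/
def wk (b : ℝ) (k : Mj) : Mk → ℝ
  | .inl _ => S.θ1 b
  | .inr (.inl _) => S.Q ^ 45 * S.g ^ 2
  | .inr (.inr (.inl q)) => 4 * k (trS S.nf (up S.l q.1) q.2) ∅ / (dn S.l S.n q.2).card
  | .inr (.inr (.inr Z)) => S.t.O.kd S.c (cu S.n) Z

/-- majorant of the objects -/
def wo (b : ℝ) (k : Mj) : Ob → ℝ
  | .inl (.inl o) => k o.1 o.2 *
      Real.exp (∑ C ∈ o.2, (S.p.G0 + S.p.G2 * tau S.nf S.p.D C - S.D0))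
  | .inl (.inr _) => Real.exp (-S.D0)
  | .inr m => S.wk b k m

/-- the contraction factor -/
def cs : ℝ := S.L ^ (-(1 / 20 : ℝ))

/-- the new size of the activities -/
def θ' (b θ : ℝ) : ℝ :=
  S.Q ^ 90 * (S.g ^ 3 + S.g * b + b ^ 2 + θ ^ 2 + S.g * θ) + θ / S.Q

/-! #### Standing assumptions -/

/-- the numbers -/
structure Ok (S : Sd) : Prop where
  c1 : 1 ≤ S.c
  size : S.M = LL S.l ∨ S.M = 3 * LL S.l
  odd : Odd S.n
  vol : 1000 * S.D0 ≤ S.n
  low : S.Q ^ 1000 ≤ S.β'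
  le : S.β' ≤ S.β
  two : S.β ≤ 2 * S.β'
  upp : S.β ≤ S.L ^ S.B

/-- the tree data -/
def TOk (S : Sd) : Prop :=
  ∃ j v e, 2⁻¹ ≤ v ∧ v ≤ 2 ∧ 0 ≤ e ∧ e ≤ 1000⁻¹ ∧ S.Tr S.M j v e ∧ S.Ln j v e

/-- small data -/
structure Sml (S : Sd) (b θ : ℝ) (k : Mj) (ψ : Lx) (K : Ac) : Prop where
  b_le : S.Q ^ 100 * b ≤ 1
  θ_le : S.Q ^ 100 * θ ≤ 1
  pu : PU S.p b ψ
  km : KM S.p S.nf k K
  kn : kN S.p S.nf k θ

end Sd

/-- the order in which the exponents and the size of the blocks are chosen -/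
def ev0 (c : ℕ) : Filter Sd where
  sets := {P | ∃ a0, ∀ Kt ≥ a0, ∃ a1, ∀ K0 ≥ a1, ∃ a2, ∀ K ≥ a2, ∀ B, ∃ l0, ∀ S : Sd, S.Ok →
    S.c = c → S.Kt = Kt → S.K0 = K0 → S.K = K → S.B = B → l0 ≤ S.l → S ∈ P}
  univ_sets := ⟨0, fun _ _ => ⟨0, fun _ _ => ⟨0, fun _ _ _ => ⟨0, fun _ _ _ _ _ _ _ _ => trivial⟩⟩⟩⟩
  sets_of_superset := fun ⟨a0, h⟩ hs => ⟨a0, fun Kt h0 => (h Kt h0).imp fun _ h K0 h1 =>
    (h K0 h1).imp fun _ h K h2 B => (h K h2 B).imp fun _ h S o e0 e1 e2 e3 e4 e5 =>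
      hs (h S o e0 e1 e2 e3 e4 e5)⟩
  inter_sets := by
    rintro P P' ⟨a0, h⟩ ⟨b0, h'⟩
    refine ⟨max a0 b0, fun Kt h0 => ?_⟩
    obtain ⟨a1, h⟩ := h Kt (le_of_max_le_left h0)
    obtain ⟨b1, h'⟩ := h' Kt (le_of_max_le_right h0)
    refine ⟨max a1 b1, fun K0 h1 => ?_⟩
    obtain ⟨a2, h⟩ := h K0 (le_of_max_le_left h1)
    obtain ⟨b2, h'⟩ := h' K0 (le_of_max_le_right h1)
    refine ⟨max a2 b2, fun K h2 B => ?_⟩
    obtain ⟨a3, h⟩ := h K (le_of_max_le_left h2) B
    obtain ⟨b3, h'⟩ := h' K (le_of_max_le_right h2) B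
    exact ⟨max a3 b3, fun S o e0 e1 e2 e3 e4 e5 =>
      ⟨h S o e0 e1 e2 e3 e4 (le_of_max_le_left e5), h' S o e0 e1 e2 e3 e4 (le_of_max_le_right e5)⟩⟩

/-- the same for steps with admissible tree data -/
def ev (c : ℕ) : Filter Sd := ev0 c ⊓ Filter.principal {S | S.TOk}

end Pool.Agent.Lib.MP_7f377f_mp.RG.Q4
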