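import Pool.Agent.Lib.MP_7f377f_mp.Q4EG
import Pool.Agent.Lib.MP_7f377f_mp.Q4LinT

/-! The quadratic densities of two tuned runs approach each other. -/

noncomputable section

namespace Pool.Agent.Lib.MP_7f377f_mp.RG.Q4.En.Gl.Ok

open Sd

variable {G : Gl} (h : G.Ok) {b b' : ℝ} {J J' i k : ℕ} {z : Z}
include h

theorem dfc_eta (A : G.Tu b J) (hk : k < J) :
    |(G.zz b J (k + 1)).v - 1| ≤ (G.Q k ^ 409)⁻¹ ∧ (G.zz b J (k + 1)).e ≤ (G.Q k ^ 409)⁻¹ ∧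
      |G.lam k (G.zz b J (k + 1)) - 1| ≤ (G.Q k ^ 409)⁻¹ ∧ (G.bb (k + 1))⁻¹ ≤ (G.Q k ^ 409)⁻¹ := by
  have q0 := h.Q0 k
  have q3 := h.cQ k (C := 3) (by norm_num)
  have b1 : G.Q k ^ 411 ≤ G.bb k := (pow_le_pow_right₀ (h.Q1 k) (by norm_num)).trans (h.Qb k)
  have b2 : G.Q k ^ 409 ≤ G.bb (k + 1) :=
    ((pow_le_pow_right₀ (h.Q1 k) (by norm_num)).trans b1).trans (h.sch.le k).1
  have b3 := inv_anti₀ (pow_pos q0 _) b2
  have b4 := (one_le_pow₀ (h.Q1 k)).trans b2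
  have t := (A.gd (k + 1) hk).tz
  refine ⟨(A.v _ hk).trans (inv_anti₀ (pow_pos q0 _) (pow_le_pow_left₀ q0.le (h.Q_mono k.le_succ) _)),
    le_trans ?_ b3, (A.lam k hk).2.trans ?_, b3⟩
  · rw [← one_div, le_div_iff₀ (h.b0 _)]
    nlinarith [h.ze1 t, mul_le_mul_of_nonneg_left b4 (mul_nonneg (ze0 t) (h.b0 (k + 1)).le)]
  · rw [← one_div, div_le_div_iff₀ (h.b0 k) (pow_pos q0 _), one_mul]
    refine le_trans ?_ b1
    rw [show G.Q k ^ 411 = G.Q k * G.Q k * G.Q k ^ 409 by ring]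
    gcongr

theorem dfc_step (A : G.Tu b J) (B : G.Tu b' J') (hk : k < J) (hk' : k < J') :
    Df (3 * (G.td k z).r) (G.L k) (G.zz b' J' (k + 1)).m (G.zz b J (k + 1)).m ∧ ∀ σ, 0 ≤ σ →
      Df (3 * (G.td k z).r) σ (G.zz b' J' (k + 1)).m (G.zz b J (k + 1)).m →
        Df ((G.td k z).r + 3) ((G.sd k z).cs / 3 * σ + (G.Q k ^ 405)⁻¹) (G.zz b' J' k).m
          (G.zz b J k).m := by
  obtain ⟨a1, a2, a3, a4⟩ := h.dfc_eta A hk
  obtain ⟨a5, a6, a7, -⟩ := h.dfc_eta B hk'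
  have t := (A.gd (k + 1) hk).tz
  have t' := (B.gd (k + 1) hk').tz
  have q0 := h.Q0 k
  have q3 := h.cQ k (C := 3) (by norm_num)
  have x0 : 0 < (G.Q k ^ 409)⁻¹ := by positivity
  have x1 : (G.Q k ^ 405)⁻¹ = G.Q k ^ 4 * (G.Q k ^ 409)⁻¹ := by field_simp
  have x2 : (G.Q k ^ 405)⁻¹ ≤ 1 := inv_le_one_of_one_le₀ (one_le_pow₀ (h.Q1 k))
  have x3 : 3 * G.Q k ≤ G.Q k ^ 4 := (mul_le_mul_of_nonneg_right q3 q0.le).trans
    ((sq _).ge.trans (pow_le_pow_right₀ (h.Q1 k) (by norm_num)))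
  have x4 := mul_le_mul_of_nonneg_right x3 x0.le
  have x5 := mul_le_mul_of_nonneg_right (h.LQ k) x0.le
  have x6 := mul_le_mul_of_nonneg_right (h.Q1 k) x0.le
  have H := fun σ => (h.sd_all k (G.zz b' J' (k + 1))).df (G.td k (G.zz b J (k + 1))) _ _ _ _ _ _ _ _
    _ _ (2 * (G.Q k ^ 409)⁻¹) σ rfl rfl (v12 t').1 (v12 t').2 (v12 t).1 (v12 t).2 (ze0 t') (ze0 t)
    (t'.tr k (.inr rfl)) (h.ln t' (.inr rfl)) (t.tr k (.inr rfl)) (h.ln t (.inr rfl))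
    (by rw [abs_le] at *; constructor <;> linarith [a1.1, a1.2, a5.1, a5.2]) (by linarith)
    (by linarith) (a7.trans (by linarith)) (a3.trans (by linarith))
    (show G.Q k * _ ≤ 1 by linarith)
  refine ⟨(H 0 le_rfl).1, fun σ h0 hd a δ ha => ?_⟩
  have e : ∀ z, (G.nx k z).m = G.lam k z • (G.td k z).m1 := fun z =>
    congrArg (fun t : Td => G.lam k z • t.m1) (show (G.sd k z).toTd = G.td k z from rfl)
  rw [zz_step b hk, zz_step b' hk', e, e]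
  have e' : ∀ z, (G.sd k z).m1 = (G.td k z).m1 := fun z =>
    congrArg Td.m1 (show (G.sd k z).toTd = G.td k z from rfl)
  have k1 := (H σ h0).2 hd a δ ha
  rw [e'] at k1
  refine k1.trans (mul_le_mul_of_nonneg_right ?_ (sq_nonneg δ))
  rw [add_assoc]
  exact add_le_add_right (show (G.L k : ℝ) * _ + (G.bb (k + 1))⁻¹ ≤ _ by linarith) _

theorem dfc (A : G.Tu b J) (B : G.Tu b' J') (hJ : J ≤ J') (hi : i + 20 * (405 * G.K + 1) + 1 ≤ J) :
    Df (3 * (G.td i z).r) (3 / G.Q i ^ 405) (G.zz b' J' i).m (G.zz b J i).m := by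
  have c0 := fun k => Nu.cs0 (S := G.sd k z)
  have c1 : ∀ k, (G.sd k z).cs ≤ 1 := fun k => by
    simpa using (h.sd_all k z).nu.cs_le (k := 0) (by omega)
  have H : ∀ s k, k + s + 1 ≤ J → Df ((G.td k z).r + 3)
      (G.L k * (G.sd k z).cs ^ s + 2 * (G.Q k ^ 405)⁻¹) (G.zz b' J' k).m (G.zz b J k).m := by
    intro s
    induction s with
    | zero =>
      intro k hk a δ ha
      obtain ⟨k1, k2⟩ := h.dfc_step (z := z) (k := k) A B hk (by omega)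
      have x0 : 0 < (G.Q k ^ 405)⁻¹ := inv_pos.2 (pow_pos (h.Q0 k) _)
      exact (k2 _ (Nat.cast_nonneg _) k1 a δ ha).trans (mul_le_mul_of_nonneg_right
        (by nlinarith [c1 k, h.L1 k]) (sq_nonneg δ))
    | succ s ih =>
      intro k hk a δ ha
      have x0 : 0 < (G.Q k ^ 405)⁻¹ := inv_pos.2 (pow_pos (h.Q0 k) _)
      have x1 : 0 < G.L k * (G.sd k z).cs ^ s := mul_pos (by linarith [h.L1 k]) (pow_pos (c0 k) _)
      have r1 : (G.td (k + 1) z).r + 100 ≤ _ :=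
        ((h.sl_all (k + 1) z).nu.r_next (t := G.td k z) (h.sch.size k)).1
      have l1 : (G.L (k + 1) : ℝ) ≤ 3 * G.L k := by
        exact_mod_cast (h.sd_all k z).nu.ok.ML
      have l2 : (G.sd (k + 1) z).cs ≤ (G.sd k z).cs := Real.rpow_le_rpow_of_nonpos (L0 _)
        (Nat.cast_le.2 (h.L_mono k.le_succ)) (by norm_num)
      have l3 := inv_anti₀ (pow_pos (h.Q0 k) 405)
        (pow_le_pow_left₀ (h.Q0 k).le (h.Q_mono k.le_succ) _)
      refine ((h.dfc_step (z := z) (k := k) A B (by omega) (by omega)).2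
        (3 * G.L k * (G.sd k z).cs ^ s + 2 * (G.Q k ^ 405)⁻¹) (by linarith) (fun a δ ha =>
          (ih (k + 1) (by omega) a δ (ha.mono (by omega) le_rfl)).trans (mul_le_mul_of_nonneg_right
            ?_ (sq_nonneg δ))) a δ ha).trans (mul_le_mul_of_nonneg_right ?_ (sq_nonneg δ))
      · have := (c0 (k + 1)).le
        gcongr
      · rw [pow_succ _ s]
        nlinarith [c1 k]
  have r1 := (h.sd_all i z).nu.r_3.1
  refine fun a δ ha => (H _ i hi a δ (ha.mono (show (G.sd i z).r + 3 ≤ 3 * (G.sd i z).r by omega)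
    le_rfl)).trans (mul_le_mul_of_nonneg_right (le_of_eq ?_) (sq_nonneg δ))
  have e : (G.sd i z).cs ^ 20 = (G.L i : ℝ)⁻¹ := eq_inv_of_mul_eq_one_left Nu.cs_pow
  have := h.L1 i
  rw [pow_mul, e, Q, ← pow_mul, mul_comm G.K, inv_pow, pow_succ _ (405 * G.K)]
  field_simp
  ring

end Pool.Agent.Lib.MP_7f377f_mp.RG.Q4.En.Gl.Ok
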