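import Pool.Agent.Lib.MP_7f377f_mp.Q4EOne

/-! Data of one run with the tree data of another run. -/

noncomputable section

namespace Pool.Agent.Lib.MP_7f377f_mp.RG.Q4.En

open Finset Real

namespace Gl.Ok

variable {G : Gl} (h : G.Ok) {b b' : ℝ} {J J' i j k : ℕ} {ψ : Lx} {K : Ac}
include h

theorem hy_pw (k : ℕ) (e : i < j) : 10 ^ 4 * (G.Q k ^ j)⁻¹ ≤ (G.Q k ^ i)⁻¹ := by
  have := h.Q0 k
  rw [← div_eq_mul_inv, ← one_div, div_le_div_iff₀ (by positivity) (by positivity), one_mul]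
  exact (mul_le_mul_of_nonneg_right (h.cQ k (by norm_num)) (by positivity)).trans
    ((pow_succ' _ _).ge.trans (pow_le_pow_right₀ (h.Q1 k) e))

theorem hy_bw (k : ℕ) (e : i < j) : 10 ^ 4 * (G.bb k / G.Q k ^ j) ≤ G.bb k / G.Q k ^ i := by
  simpa only [div_eq_mul_inv, mul_left_comm] using
    mul_le_mul_of_nonneg_left (h.hy_pw k e) (h.b0 k).le

theorem hy_b1 (k : ℕ) (e : i ≤ 4000) : 1 ≤ G.bb k / G.Q k ^ i :=
  (one_le_div (pow_pos (h.Q0 k) _)).2 ((pow_le_pow_right₀ (h.Q1 k) e).trans (h.Qb k))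

theorem hy_ug (k : ℕ) : G.u k * G.g k ^ 2 = (G.Q k ^ 400)⁻¹ := by
  rw [u, div_mul_eq_mul_div, h.bg, one_div]

theorem hy_sg (k : ℕ) : √(G.g k) ≤ (G.Q k ^ 280)⁻¹ := by
  have := h.Qsg k
  rw [← le_div_iff₀' (pow_pos (h.Q0 k) _), one_div] at this
  linarith [h.hy_pw k (show 280 < 1000 by norm_num), inv_pos.2 (pow_pos (h.Q0 k) 1000)]

theorem hy_v (A : G.Tu b J) (B : G.Tu b' J') (hi : i ≤ J) (hi' : i ≤ J') :
    G.bb i * |(G.zz b J i).v - (G.zz b' J' i).v| ≤ 2 * (G.bb i / G.Q i ^ 409) := by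
  have a := abs_le.1 (A.v i hi)
  have c := abs_le.1 (B.v i hi')
  rw [mul_div_left_comm, div_eq_mul_inv]
  exact mul_le_mul_of_nonneg_left (abs_le.2 ⟨by linarith, by linarith⟩) (h.b0 i).le

theorem hyb_top (A : G.Tu b J) (B : G.Tu b' J') (hi : i ≤ J) (hi' : i ≤ J')
    (hd : Df (3 * (G.td i (G.zz b J i)).r) (3 / G.Q i ^ 405) (G.zz b' J' i).m (G.zz b J i).m) :
    G.Dt i (G.zz b J i) (G.u i) (G.u i) (G.Q i ^ 280)⁻¹
      ((G.zz b' J' i).ψ + ((G.sl i (G.zz b' J' i)).Φ 0 - (G.sl i (G.zz b J i)).Φ 0))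
      (G.zz b' J' i).K (G.f b' J' i) := by
  have a := h.lf (A.gd i hi).tz
  have v := h.hy_v A B hi hi'
  obtain ⟨p, r⟩ := a.hyb_ps (h.lf (B.gd i hi').tz) rfl rfl rfl rfl rfl hd
  obtain ⟨⟨s, c, c1, c2⟩, ⟨r1, r2, r3⟩, κ, κ0, q⟩ := (B.gd i hi').dt
  generalize G.zz b J i = z at *
  generalize G.zz b' J' i = z' at *
  have ρ0 : 0 < (G.p i).ρ := rho_pos a.nu
  have Q0 := h.Q0 i
  have g0 := h.g0 i
  have u1 : 1 ≤ G.u i := h.hy_b1 i (by norm_num)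
  have w := h.hy_sg i
  have w1 : √(G.g i) * 1 * G.g i ^ 2 ≤ (G.Q i ^ 280)⁻¹ * G.u i * G.g i ^ 2 := by gcongr
  refine ⟨⟨PM.mono ρ0 (PM.add ρ0 s p).1 ?_ ?_ ?_, c, c1, c2.mono w1⟩, ⟨fun x U a1 a2 => ?_, r2,
    fun y => ⟨?_, (r3 y).2⟩⟩, κ, κ0, fun U hU => (q U hU).trans ?_⟩
  · show 1 + 20 * G.bb i * (_ + G.g i ^ 2) ≤ G.bb i / _
    linarith [h.bg i, h.hy_bw i (show 400 < 409 by norm_num), h.hy_b1 i (i := 409) (by norm_num)]
  · show G.Q i ^ 2 * 1 + G.bb i * G.Q i * _ ≤ G.Q i ^ 2 * (G.bb i / _)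
    rw [show G.bb i * G.Q i * (3 / G.Q i ^ 405) = G.Q i ^ 2 * (3 * (G.bb i / G.Q i ^ 406)) by
      field_simp, ← mul_add]
    gcongr
    linarith [h.hy_bw i (show 400 < 406 by norm_num), h.hy_b1 i (i := 406) (by norm_num)]
  · show G.Q i ^ 50 * √(G.g i) * 1 * G.g i ^ 2 + G.Q i ^ 11 * G.g i ≤ _
    have g1 : G.g i ≤ (G.Q i ^ 2000)⁻¹ := by
      rw [← one_div, le_div_iff₀' (by positivity)]; exact h.Qg i
    rw [mul_assoc _ (G.u i), h.hy_ug]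
    calc _ ≤ G.Q i ^ 50 * (G.Q i ^ 280)⁻¹ * 1 * (G.Q i ^ 2000)⁻¹ ^ 2 +
          G.Q i ^ 11 * (G.Q i ^ 2000)⁻¹ := by gcongr
      _ = (G.Q i ^ 4230)⁻¹ + (G.Q i ^ 1989)⁻¹ := by field_simp
      _ ≤ (G.Q i ^ 630)⁻¹ := by
          linarith [h.hy_pw i (show 630 < 4230 by norm_num), h.hy_pw i (show 630 < 1989 by norm_num),
            inv_pos.2 (pow_pos Q0 630)]
      _ = _ := by field_simp
  · rw [Pi.add_apply, Pi.add_apply, Complex.add_im, r1 x U a1 a2, r x U a1 a2, add_zero]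
  · exact congrArg (· + ((G.sl i z').Φ 0 - (G.sl i z).Φ 0)) (r3 y).1
  · congr 2
    funext x U
    simp only [Sd.Φ, Pi.add_apply, Pi.sub_apply, Pi.zero_apply]
    ring

theorem hyb_step (A : G.Tu b J) (B : G.Tu b' J') (hk : k < J) (hk' : k < J')
    (d : G.Dt (k + 1) (G.zz b J (k + 1)) (G.u (k + 1)) (G.u (k + 1)) (G.Q (k + 1) ^ 280)⁻¹ ψ K
      (G.f b' J' (k + 1))) :
    G.Dt k (G.zz b J k) (G.u k) (G.u k) (G.Q k ^ 280)⁻¹ (G.hs k (G.zz b J (k + 1)) (ψ, K)).1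
      (G.hs k (G.zz b J (k + 1)) (ψ, K)).2 (G.f b' J' k) := by
  have Q0 := h.Q0 k
  have Q0' := h.Q0 (k + 1)
  have g0 := h.g0 k
  have b0 := h.b0 k
  have m : G.Q k ≤ G.Q (k + 1) := h.Q_mono k.le_succ
  have u3 : G.u (k + 1) ≤ 2 * G.u k := by
    rw [u, u, ← mul_div_assoc]
    gcongr
    linarith [h.b_succ k]
  have e := h.step1 (ω' := (G.Q k ^ 280)⁻¹) (A.gd (k + 1) hk).tz hk ((A.v (k + 1) hk).trans (by
      have := h.hy_pw (k + 1) (show 0 < 409 by norm_num)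
      rw [pow_zero] at this; linarith)) (A.lam k hk).1 d
    (h.hy_b1 _ (by norm_num)) (h.hy_sg _) (by
      rw [← div_eq_mul_inv, div_le_one (by positivity)]
      exact (pow_le_pow_left₀ Q0.le m _).trans (pow_le_pow_right₀ (h.Q1 _) (by norm_num))) (by
      rw [mul_assoc, h.hy_ug]
      calc _ ≤ G.Q (k + 1) ^ 120 * (G.Q (k + 1) ^ 400)⁻¹ := mul_le_mul_of_nonneg_right
            ((pow_le_pow_left₀ Q0.le m _).trans (pow_le_pow_right₀ (h.Q1 _) (by norm_num)))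
            (by positivity)
        _ = _ := by field_simp) u3 (h.hy_b1 _ (by norm_num)) (by
      rw [mul_assoc, mul_assoc, h.hy_ug, h.hy_ug]
      gcongr) (h.hy_sg _)
  rw [← zz_step b hk, ← h.f_step b' hk'] at e
  have a := h.lf (A.gd k hk.le).tz
  have v := h.hy_v A B hk.le hk'.le
  have μ := (h.meas B.b0 (B.gd k hk'.le)).1
  obtain ⟨s, c, c1, c2⟩ := e.sz
  have r := e.re
  have y := ((h.f_facts J' k).1 b' B.b0).2.1
  rw [← h.sl_nf k (G.zz b J k)] at c1 c2 r y μ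
  have x1 : G.Q k ^ 50 * (G.Q k ^ 280)⁻¹ * G.u k * G.g k ^ 2 = (G.Q k ^ 630)⁻¹ := by
    rw [mul_assoc _ (G.u k), h.hy_ug]; field_simp
  have x2 : (G.Q k ^ 280)⁻¹ * G.u k * G.g k ^ 2 = (G.Q k ^ 680)⁻¹ := by
    rw [mul_assoc _ (G.u k), h.hy_ug]; field_simp
  have x3 : G.g k ^ 2 = (G.bb k)⁻¹ := eq_inv_of_mul_eq_one_right (h.bg k)
  have x4 : ∀ {i}, 0 < i → 10 ^ 4 * (G.Q k ^ i)⁻¹ ≤ 1 := fun e => by simpa using h.hy_pw k e
  rw [x1] at s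
  rw [x2] at c2
  obtain ⟨f1, f2⟩ := a.flux (η := 2 * (G.bb k / G.Q k ^ 639)) s c1 c2 r y e.rp (by
      show (G.Q k ^ 2 + 2 * G.u (k + 1) + G.Q k ^ 2 * G.u k) * G.g k ^ 2 ≤ 1
      have u1 : 1 ≤ G.u k := h.hy_b1 k (by norm_num)
      have q1 := one_le_pow₀ (n := 2) (h.Q1 k)
      calc _ ≤ 6 * G.Q k ^ 2 * G.u k * G.g k ^ 2 := by gcongr; nlinarith
        _ = 6 * (G.Q k ^ 398)⁻¹ := by rw [mul_assoc, h.hy_ug]; field_simp
        _ ≤ 1 := by linarith [x4 (show 0 < 398 by norm_num)])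
    (by linarith [x4 (show 0 < 630 by norm_num), inv_pos.2 (pow_pos Q0 630)]) (by
      show 2 * G.Q k * _ ≤ 1
      rw [show 2 * G.Q k * (G.Q k ^ 680)⁻¹ = 2 * (G.Q k ^ 679)⁻¹ by field_simp]
      linarith [x4 (show 0 < 679 by norm_num)]) le_rfl
    ((pow_le_pow_right₀ (h.Q1 k) (by norm_num)).trans (h.Qb k)) (by
      show G.Q k ^ 2 / G.Q k ^ 2 + _ / (G.Q k ^ 9 * G.g k ^ 2) + 2 * G.Q k ^ 2 * _ / G.g k ^ 2 ≤ _
      rw [x3]
      calc _ = 1 + G.bb k / G.Q k ^ 639 + 2 * (G.bb k / G.Q k ^ 678) := by field_simp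
        _ ≤ _ := by
          linarith [h.hy_bw k (show 639 < 678 by norm_num), h.hy_b1 k (i := 678) (by norm_num)])
  refine h.imp e f2 ?_
  have f3 := abs_le.1 f1
  have f4 := abs_le.1 μ
  rw [← abs_of_pos b0, ← abs_mul, abs_of_pos b0] at v
  have f5 := abs_le.1 v
  have f6 := h.hy_bw k (show 409 < 639 by norm_num)
  have f7 := h.hy_b1 k (i := 639) (by norm_num)
  have f8 := h.hy_bw k (show 400 < 409 by norm_num)
  have : |(qc ((G.hs k (G.zz b J (k + 1)) (ψ, K)).1 0) e1 e1).re| ≤ 3 * (G.bb k / G.Q k ^ 409) := by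
    change _ ≤ bh _ (G.g k / G.Q k) _ - (G.bb k * _ + _) ∧ bh _ (G.g k / G.Q k) _ - (G.bb k * _ + _) ≤ _
      at f3
    exact abs_le.2 ⟨by linarith, by linarith⟩
  rw [u]
  linarith

end Gl.Ok

end Pool.Agent.Lib.MP_7f377f_mp.RG.Q4.En
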