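import Pool.Agent.Lib.MP_7f377f_mp.Q4LipK

/-! One step of the flow for differences and tangent vectors, with the small rate. -/

noncomputable section

namespace Pool.Agent.Lib.MP_7f377f_mp.RG.Q4

open Finset Real

/-- the rate of contraction of the irrelevant directions -/
def Sd.cr (S : Sd) : ℝ := 2 * (S.r * S.cs)

namespace En

variable {S : Sd} {x y u ω ω' : ℝ} {ψ ψ' : Lx} {K K' : Ac} (h : S.Nu 100)
include h

theorem cr_Q : 16 ≤ S.Q * S.cr := by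
  have c0 := Sd.Nu.cs0 (S := S)
  have c2 : S.cs ≤ 1 := by simpa using h.cs_le (k := 0) (by omega)
  have c3 : 1 ≤ S.cs * S.Q := by
    rw [← Sd.Nu.cs_pow (S := S)]
    exact mul_le_mul (pow_le_of_le_one c0.le c2 (by norm_num)) h.L_le_Q (Sd.L0 _).le c0.le
  have := mul_le_mul (h.cr' (C := 8) (by norm_num)) c3 zero_le_one (Nat.cast_nonneg _)
  rw [Sd.cr]
  linarith

theorem cr_pos : 0 < S.cr := pos_of_mul_pos_left (by linarith [cr_Q h]) S.Q0.le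

/-- the rate is at most `L ^ (-1 / 40) / 1000` -/
theorem cr_sq : (1000 * S.cr) ^ 2 ≤ S.cs := by
  have c0 := Sd.Nu.cs0 (S := S)
  have r1 := h.cr' (C := 2000) (by norm_num)
  calc _ = (2000 * S.r) ^ 2 * S.cs * S.cs := by rw [Sd.cr]; ring
    _ ≤ (S.r * S.r) ^ 2 * S.cs * S.cs := by gcongr
    _ ≤ 1 * S.cs := mul_le_mul_of_nonneg_right
      ((le_of_eq (by ring)).trans (h.cs_le (k := 4) (by omega))) c0.le
    _ = _ := one_mul _

theorem cr_pow : (1000 * S.cr) ^ 40 * S.L ≤ 1 := by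
  rw [← Sd.Nu.cs_pow (S := S), show 40 = 2 * 20 from rfl, pow_mul]
  exact mul_le_mul_of_nonneg_right (pow_le_pow_left₀ (sq_nonneg _) (cr_sq h) _) (Sd.L0 _).le

theorem cr_le : 1000 * S.cr ≤ 1 := le_of_sq_le_sq ((cr_sq h).trans (by
  simpa using h.cs_le (k := 0) (by omega))) zero_le_one

variable (f : St2 S)
include f

theorem lin_step_c (z : Sz S.p S.nf S.QM S.g x y ω ψ K) (h1 : √S.g ≤ ω) (hω : S.Q ^ 100 * ω ≤ 1) :
    PM S.p' (x + S.Q ^ 50 * ω * (x + y)) (S.Q ^ 2 * (S.cr * (x + y)))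
      (S.Q ^ 50 * ω * (S.cr * (x + y)) * S.g ^ 2) (S.PL ψ K) := by
  obtain ⟨x0, y0⟩ := z.nn h
  have p0 := (lin_step h f z h1 hω).1
  obtain ⟨k, k1, k2⟩ := z.2
  have p1 := (f.ps _ _ _ _ k ψ K z.1 k1 k2).1
  have g0 := h.ok.g0
  have Q0 := S.Q0
  have M0 := one_pos.trans_le h.ok.QM1
  have u0 := sqrt_nonneg S.g
  have ω0 := u0.trans h1
  have c0 := Sd.Nu.cs0 (S := S)
  have c1 := cr_pos h
  have c3 : ∀ i ≤ 120, S.cs * S.QM ^ i ≤ S.Q ^ i * S.cr / 2 := fun i hi =>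
    (mul_le_mul_of_nonneg_left (h.QM_pow hi) c0.le).trans_eq (by rw [Sd.cr]; ring)
  have c4 : ∀ {i j : ℕ}, i < j → 16 * S.Q ^ i ≤ S.Q ^ j * S.cr := fun {i j} e => by
    calc _ ≤ S.Q * S.cr * S.Q ^ i := mul_le_mul_of_nonneg_right (cr_Q h) (by positivity)
      _ = S.Q ^ (i + 1) * S.cr := by ring
      _ ≤ _ := mul_le_mul_of_nonneg_right (S.Qw e) c1.le
  have m := fun i (hi : i ≤ 120) => h.QM_pow' hi
  refine fun v => ⟨{ ((p1 v).1.mono' (by rw [Sd.p'_ρ]; have := h.ok.g'0; positivity)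
    le_rfl ?_ ?_) with cb := (p0 v).1.cb }, (p1 v).2⟩
  · have q2 := c4 (i := 0) (j := 2) (by norm_num)
    calc _ = S.r ^ 20 * x + S.cs * S.QM ^ 2 * y + S.Q ^ 40 * (√S.g * (x + S.QM ^ 2 * y) +
          S.QM ^ 44 * (ω * y) + ω * y) := by rw [Sd.xk', Sd.p_ρ]; field_simp
      _ ≤ S.Q ^ 1 * x + S.Q ^ 2 * S.cr / 2 * y + S.Q ^ 40 * (ω * (x + S.Q ^ 3 * y) +
          S.Q ^ 45 * (ω * y) + ω * y) := by
          gcongr
          exacts [(h.rL (by omega)).trans (h.L_le_Q.trans (pow_one _).ge), c3 2 (by norm_num),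
            m 2 (by norm_num), m 44 (by norm_num)]
      _ = (S.Q ^ 1 + S.Q ^ 40 * ω) * x +
          (S.Q ^ 2 * S.cr / 2 + S.Q ^ 43 * ω + S.Q ^ 85 * ω + S.Q ^ 40 * ω) * y := by ring
      _ ≤ S.Q ^ 2 * S.cr * x + S.Q ^ 2 * S.cr * y := by
          have := qom h hω (i := 40) (by norm_num)
          gcongr
          · linarith [c4 (i := 1) (j := 2) (by norm_num), pow_pos Q0 1]
          · linarith [qom h hω (i := 43) (by norm_num), qom h hω (i := 85) (by norm_num)]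
      _ = _ := by ring
  · calc _ = (S.Q ^ 10 * √S.g * (S.QM ^ 6 * x + S.QM ^ 8 * y) + (S.cs * S.QM ^ 50 + S.Q ^ 40) *
          (ω * y)) * S.g ^ 2 := by rw [Sd.xr', Sd.p_ρ]; ring
      _ ≤ (S.Q ^ 10 * ω * (S.Q ^ 7 * x + S.Q ^ 9 * y) + (S.Q ^ 50 * S.cr / 2 + S.Q ^ 40) *
          (ω * y)) * S.g ^ 2 := by
          gcongr
          exacts [m 6 (by norm_num), m 8 (by norm_num), c3 50 (by norm_num)]
      _ = (S.Q ^ 17 * (ω * x) + (S.Q ^ 19 + S.Q ^ 50 * S.cr / 2 + S.Q ^ 40) * (ω * y)) *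
          S.g ^ 2 := by ring
      _ ≤ (S.Q ^ 50 * S.cr * (ω * x) + S.Q ^ 50 * S.cr * (ω * y)) * S.g ^ 2 := by
          gcongr
          · linarith [c4 (i := 17) (j := 50) (by norm_num), pow_pos Q0 17]
          · linarith [c4 (i := 19) (j := 50) (by norm_num), c4 (i := 40) (j := 50) (by norm_num),
              mul_pos (pow_pos Q0 50) c1]
      _ = _ := by ring

variable (z : Sz S.p S.nf S.QM S.g u u ω ψ K) (z' : Sz S.p S.nf S.QM S.g x y ω' ψ' K')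
  (h1 : √S.g ≤ ω') (hω : S.Q ^ 100 * ω' ≤ 1) (h2 : ω ≤ ω') (h3 : S.Q ^ 115 * u * S.g ^ 2 ≤ ω')
  (h0 : 0 < x + y)
include z z' h1 hω h2 h3 h0

/-- the activities: tangent vectors and differences -/
theorem lip_c : ∃ m, kN S.p'.up S.n m (8 / S.Q * (ω' * (x + y) * S.g ^ 2)) ∧
    KM S.p' S.n m (dK S ψ K ψ' K') ∧ (S.Q ^ 115 * (x + y) * S.g ^ 2 ≤ ω' →
      KM S.p' S.n m (S.KK (ψ + ψ') (K + K') - S.KK ψ K)) := by
  obtain ⟨k, k1, k2⟩ := z.2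
  obtain ⟨d, d1, d2⟩ := z'.2
  obtain ⟨x0, y0⟩ := z'.nn h
  have u0 := (z.nn h).1
  have g0 := h.ok.g0
  have Q0 := S.Q0
  have s0 := sqrt_pos.2 g0
  have ω0 := s0.trans_le h1
  have a0 : ∀ {i j : ℕ} {t : ℝ}, i < j → 0 ≤ t → 1000 * (S.Q ^ i * t) ≤ S.Q ^ j * t :=
    fun e t0 => (mul_assoc _ _ _).ge.trans (mul_le_mul_of_nonneg_right (qpw h e) t0)
  have a1 : S.Q ^ 102 * √S.g ≤ 1 := le_of_sq_le_sq (by
    rw [mul_pow, sq_sqrt g0.le, ← pow_mul, one_pow]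
    simpa using h.ok.Qg_le (i := 204) (j := 0) (by norm_num)) zero_le_one
  have a2 : ω' ≤ 1 / 1000 := by linarith [qom h hω (i := 0) (by norm_num)]
  obtain ⟨b, hb⟩ : ∃ b, ω' = S.Q ^ 102 * b := ⟨ω' / S.Q ^ 102, by field_simp⟩
  have b0 : 0 < b := (mul_pos_iff_of_pos_left (pow_pos Q0 102)).1 (hb ▸ ω0)
  have B : Bl S b (S.Q ^ 92 * b ^ 2) := by
    refine ⟨le_of_mul_le_mul_left ?_ (pow_pos Q0 102), ?_, ?_, ?_⟩
    · have := mul_le_mul a1 h1 s0.le zero_le_one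
      rwa [mul_assoc, mul_self_sqrt g0.le, one_mul, hb] at this
    · linarith [a0 (i := 91) (j := 92) (by norm_num) (sq_nonneg b),
        mul_nonneg (pow_pos Q0 91).le (sq_nonneg b)]
    · linarith [a0 (i := 100) (j := 102) (by norm_num) b0.le]
    · have := a0 (i := 192) (j := 204) (by norm_num) (sq_nonneg b)
      have e : S.Q ^ 204 * b ^ 2 = ω' ^ 2 := by rw [hb]; ring
      nlinarith
  have w : ∀ {t : ℝ}, 0 ≤ t → S.Q ^ 115 * t * S.g ^ 2 ≤ ω' → 1000 * (S.Q ^ 10 * t * S.g ^ 2) ≤ b :=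
    fun {t} t0 ht => le_of_mul_le_mul_left (by
      linarith [a0 (i := 112) (j := 115) (by norm_num) (mul_nonneg t0 (sq_nonneg S.g))])
      (pow_pos Q0 102)
  have w1 : ∀ {t : ℝ}, 0 ≤ t → S.Q ^ 115 * t * S.g ^ 2 ≤ ω' →
      1000 * (ω' * t * S.g ^ 2) ≤ S.Q ^ 92 * b ^ 2 := fun {t} t0 ht => by
    have := mul_le_mul_of_nonneg_left (w t0 ht) (mul_pos (pow_pos Q0 92) b0).le
    rw [hb]
    linarith
  have hω0 : S.Q ^ 100 * ω ≤ 1 := (mul_le_mul_of_nonneg_left h2 (by positivity)).trans hω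
  have v0 : 0 ≤ u * S.g ^ 2 := by positivity
  have s : S.Sml b (S.Q ^ 92 * b ^ 2) k ψ K := ⟨by linarith [B.b_le, mul_pos (pow_pos Q0 100) b0],
    by linarith [B.θ_le, mul_pos (pow_pos Q0 100) (mul_pos (pow_pos Q0 92) (pow_pos b0 2))],
    pu_mono (z.pu h hω0) (by linarith [w u0 h3, mul_nonneg (pow_pos Q0 10).le v0]), k1,
    k2.mono (by linarith [w1 u0 h3, mul_le_mul_of_nonneg_right h2 v0, mul_nonneg ω0.le v0])⟩
  obtain ⟨e, he⟩ : ∃ e, e = S.Q ^ 10 * (x + y) * S.g ^ 2 / b := ⟨_, rfl⟩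
  have e0 : 0 < e := by rw [he]; positivity
  have e1 : e * (S.Q ^ 92 * b ^ 2) = ω' * (x + y) * S.g ^ 2 := by rw [he, hb]; field_simp
  obtain ⟨m, m1, m2⟩ := lipK h f B s.kn (d := d) (e := e) (d2.mono (by rw [e1]; gcongr; linarith)) e0
  obtain ⟨m3, m4⟩ := m2 ψ K ψ' K' s (pu_mono (z'.pu h hω) (by rw [he]; field_simp; rfl)) d1
  refine ⟨e • m, (m1.smul e0.le).mono (le_of_eq (by rw [← e1]; ring)), m3, fun h4 => ?_⟩
  simpa using (m4 1 (by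
    rw [norm_one, one_mul, he, div_lt_one b0]
    linarith [w h0.le h4])).2.1

/-- one step for tangent vectors and for differences -/
theorem sz_step_c : Sz S.p' S.n S.Q S.g (x + S.Q ^ 50 * ω' * (x + y)) (S.cr * (x + y)) ω'
      (S.PL ψ' K') (dK S ψ K ψ' K') ∧ (S.Q ^ 115 * (x + y) * S.g ^ 2 ≤ ω' →
    Sz S.p' S.n S.Q S.g (x + S.Q ^ 50 * ω' * (x + y)) (S.cr * (x + y)) ω'
      (S.PL ψ' K') (S.KK (ψ + ψ') (K + K') - S.KK ψ K)) := by
  obtain ⟨m, m1, m2, m3⟩ := lip_c h f z z' h1 hω h2 h3 h0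
  have p := lin_step_c h f z' h1 hω
  have ω0 := (sqrt_nonneg _).trans h1
  have : kN S.p' S.n m (ω' * (S.cr * (x + y)) * S.g ^ 2) := (kN_up m1).mono (by
    calc _ ≤ S.cr * (ω' * (x + y) * S.g ^ 2) := by
          gcongr
          rw [div_le_iff₀' S.Q0]
          linarith [cr_Q h]
      _ = _ := by ring)
  exact ⟨⟨p, m, m2, this⟩, fun h4 => ⟨p, m, m3 h4, this⟩⟩

end En

end Pool.Agent.Lib.MP_7f377f_mp.RG.Q4
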