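import Pool.Agent.Lib.MP_7f377f_mp.Q4EDif
import Pool.Agent.Lib.MP_7f377f_mp.Q4EHyb
import Pool.Agent.Lib.MP_7f377f_mp.Q4EDfc
import Pool.Agent.Lib.MP_7f377f_mp.Q4EStC
import Pool.Agent.Lib.MP_7f377f_mp.Q4TwoC
import Pool.Agent.Lib.MP_7f377f_mp.Q4Zin

/-! The difference of two flows with the same measured coupling at the bottom: sharp rate. -/

noncomputable section

namespace Pool.Agent.Lib.MP_7f377f_mp.RG.Q4.En

open Finset Real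

/-- the rate of contraction of the step from level `k + 1` to level `k` -/
def Gl.cr (G : Gl) (k : ℕ) : ℝ := (G.sd k (G.top0 0 0)).cr

theorem Gl.sd_cr (G : Gl) (k : ℕ) (z : Z) : (G.sd k z).cr = G.cr k := rfl

/-- bound for the irrelevant part of a difference -/
def Gl.yc (G : Gl) (x : ℕ → ℝ) (i : ℕ) : ℕ → ℝ :=
  dw (fun k y => G.cr k * (x (k + 1) + y)) (2 * G.u i) i

namespace Gl.Ok

variable {G : Gl} (h : G.Ok) {b b' x y x' y' ω : ℝ} {J J' i k n : ℕ} {z : Z} {ψ ψ' : Lx} {K K' : Ac}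
include h

theorem cr0 (k : ℕ) : 0 < G.cr k := cr_pos (h.sd_all k _).nu

theorem cr1 (k : ℕ) : 1000 * G.cr k ≤ 1 := cr_le (h.sd_all k _).nu

theorem cr_prod (hn : k + 40 * n ≤ i) : ∏ j ∈ Ico k i, 2 * G.cr j ≤ ((G.L k : ℝ) ^ n)⁻¹ := by
  have L1 := h.L1 k
  refine le_of_pow_le_pow_left₀ (n := 40) (by norm_num) (by positivity) ?_
  rw [← prod_pow]
  refine (prod_le_prod (g := fun _ => (G.L k : ℝ)⁻¹) (fun _ _ => by positivity)
    fun j hj => ?_).trans ?_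
  · have a : (1000 * G.cr j) ^ 40 * G.L j ≤ 1 := cr_pow (h.sd_all j _).nu
    have c := h.cr0 j
    rw [← one_div, le_div_iff₀ (by linarith)]
    refine le_trans ?_ a
    gcongr
    exacts [by norm_num, h.L_mono (mem_Ico.1 hj).1]
  · rw [prod_const, Nat.card_Ico, inv_pow, inv_pow, ← pow_mul]
    exact inv_anti₀ (by positivity) (pow_le_pow_right₀ (by linarith) (by omega))

theorem sz_up (s : G.Sz k x y ω ψ K) (h0 : 0 ≤ ω) (h1 : x ≤ x') (h2 : y ≤ y') :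
    G.Sz k x' y' ω ψ K := by
  have := h.Q0 k
  exact ⟨PM.mono (h.rh0 k) s.1 h1 (by gcongr) (by gcongr),
    s.2.imp fun _ a => ⟨a.1, a.2.mono (by gcongr)⟩⟩

/-- one step for the difference of two sets of data -/
theorem dif_step_c (t : G.Tz J (k + 1) z) (a : G.Sz (k + 1) 1 1 √(G.g (k + 1)) z.ψ z.K)
    (s : G.Sz (k + 1) x y (G.Q (k + 1) ^ 100)⁻¹ ψ K) (y0 : 0 < y)
    (hx : G.Q (k + 1) ^ 300 * (x + y) * G.g (k + 1) ^ 2 ≤ 1) (c : ∀ v, ψ v = ψ 0)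
    (e1 : ψ' = (G.hs k z (z.ψ + ψ, z.K + K)).1 - (G.nx k z).ψ)
    (e2 : K' = (G.hs k z (z.ψ + ψ, z.K + K)).2 - (G.nx k z).K) (c' : ∀ v, ψ' v = ψ' 0) :
    G.Sz k (nb (ψ' 0)) (G.cr k * (x + y)) (G.Q k ^ 100)⁻¹ ψ' K' := by
  have n := (h.sd_all k z).nu
  have f := h.st2 t
  rw [Sz, ← h.sd_nf k z] at a s
  have Q0 := h.Q0 k
  have Q1 := h.Q0 (k + 1)
  have Qm := h.Q_mono k.le_succ
  have g0 := h.g0 (k + 1)
  have gm := h.g_succ k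
  have c0 := h.cr0 k
  have x0 : 0 ≤ x := (Sz.nn n s).1
  have w : (G.Q (k + 1) ^ 100)⁻¹ ≤ (G.Q k ^ 100)⁻¹ := by gcongr
  have iv : ∀ {t : ℝ}, t ≤ (G.Q k ^ 100)⁻¹ → G.Q k ^ 100 * t ≤ 1 := fun ht =>
    (mul_le_mul_of_nonneg_left ht (by positivity)).trans_eq (mul_inv_cancel₀ (by positivity))
  have w1 := iv w
  have w2 := iv ((h.sg_le _).trans w)
  have E : ψ' = (G.sd k z).PL ψ K := by
    obtain ⟨_, k1, -⟩ := a.2
    obtain ⟨_, k2, -⟩ := s.2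
    have := f.lin _ _ _ _ _ _ _ _ 1 (Sz.pu n a w2) (Sz.pu n s w1) k1 k2
    rw [one_smul, one_smul, one_smul] at this
    rw [e1]
    show stp _ _ _ _ - stp _ _ _ _ = _
    rw [stp, stp, this]
    abel
  have q : ∀ {t : ℝ}, 0 ≤ t → G.Q (k + 1) ^ 300 * t * G.g (k + 1) ^ 2 ≤ 1 →
      G.Q k ^ 115 * t * G.g (k + 1) ^ 2 ≤ (G.Q (k + 1) ^ 100)⁻¹ := fun t0 ht => by
    rw [← one_div, le_div_iff₀' (by positivity), ← mul_assoc, ← mul_assoc]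
    refine le_trans ?_ ht
    gcongr
    exact (mul_le_mul_of_nonneg_left (pow_le_pow_left₀ Q0.le Qm _) (by positivity)).trans
      ((pow_add _ _ _).ge.trans (pow_le_pow_right₀ (h.Q1 _) (by norm_num)))
  obtain ⟨p1, d, d1, d2⟩ := (sz_step_c n f a s (h.sg_le _) w1 (h.sg_le _) (q zero_le_one
    (h.u_g (x := 1) (k + 1) (by linarith [h.u_one (k + 1)]))) (by positivity)).2
      (q (by positivity) hx)
  rw [← E] at p1
  refine ⟨pm_nb (h.rh0 k) p1 c' le_rfl ?_, d, e2 ▸ d1, d2.mono ?_⟩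
  · show G.Q k ^ 50 * _ * (G.cr k * _) * G.g (k + 1) ^ 2 ≤ _
    gcongr
  · show _ * (G.cr k * _) * G.g (k + 1) ^ 2 ≤ _
    gcongr

theorem dif_c (A : G.Tu b J) (hi : i ≤ J) (H : ℕ → Lx × Ac) (f' : ℕ → Conf → ℂ)
    (d : ∀ k ≤ i, G.Dt k (G.zz b J k) (G.u k) (G.u k) (G.Q k ^ 280)⁻¹ (H k).1 (H k).2 (f' k))
    (r : ∀ k < i, H k = G.hs k (G.zz b J (k + 1)) (H (k + 1)))
    (s : Sym (G.N 0) (f' 0)) {x : ℕ → ℝ} (hx : ∀ k ≤ i, nb (((H k).1 - (G.zz b J k).ψ) 0) = x k)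
    (e : bh (G.N 0) (G.g 0 / G.Q 0) (G.f b J 0) = bh (G.N 0) (G.g 0 / G.Q 0) (f' 0) ∨
      x 0 ≤ G.yc x i 0) : x 0 ≤ G.yc x i 0 ∧
    ∀ k ≤ i, ∃ y, 0 < y ∧ y ≤ 4 * G.u k ∧ y ≤ (∏ j ∈ Ico k i, 2 * G.cr j) * (2 * G.u i) ∧
      G.Sz k y y (G.Q k ^ 100)⁻¹ ((H k).1 - (G.zz b J k).ψ) ((H k).2 - (G.zz b J k).K) := by
  obtain ⟨φ, hφ⟩ : ∃ φ : ℕ → Lx, φ = fun k => (H k).1 - (G.zz b J k).ψ := ⟨_, rfl⟩
  obtain ⟨M, hM⟩ : ∃ M : ℕ → Ac, M = fun k => (H k).2 - (G.zz b J k).K := ⟨_, rfl⟩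
  obtain ⟨y, hy⟩ : ∃ y, y = G.yc x i := ⟨_, rfl⟩
  have ex : ∀ k ≤ i, nb (φ k 0) = x k := fun k hk => by rw [hφ]; exact hx k hk
  rw [← hy, ← ex 0 i.zero_le] at e ⊢
  have E1 : ∀ k, (G.zz b J k).ψ + φ k = (H k).1 := fun k => by rw [hφ, add_sub_cancel]
  have E2 : ∀ k, (G.zz b J k).K + M k = (H k).2 := fun k => by rw [hM, add_sub_cancel]
  have a := fun k (hk : k ≤ i) => A.gd k (hk.trans hi)
  have c : ∀ k ≤ i, ∀ v, φ k v = φ k 0 := fun k hk v => by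
    rw [hφ]
    exact congrArg₂ (· - ·) (TCov.cx (h.N_odd k) (d k hk).re.2.2 v)
      (TCov.cx (h.N_odd k) (a k hk).dt.re.2.2 v)
  have p : ∀ k ≤ i, PM (G.p k) _ _ _ (φ k) := fun k hk v => by
    rw [hφ]
    exact ⟨(((d k hk).sz.1 v).1.sub ((a k hk).dt.sz.1 v).1 (h.rh0 k)).1,
      ((d k hk).sz.1 v).2.sub ((a k hk).dt.sz.1 v).2⟩
  have xa : ∀ k ≤ i, nb (φ k 0) ≤ 128 * G.u k := fun k hk => by
    linarith [(Ps.nb (p k hk 0).1).2, h.u_one k]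
  have yt : y i = 2 * G.u i := by rw [hy, yc, dw_top]
  have ys : ∀ k < i, y k = G.cr k * (nb (φ (k + 1) 0) + y (k + 1)) := fun k hk => by
    rw [hy, yc, dw_step _ _ hk, ex _ hk]
  have y0 : ∀ k ≤ i, 0 < y k := dw_ind (by linarith [h.u_one i]) fun k hk ih =>
    ys k hk ▸ mul_pos (h.cr0 k) (add_pos_of_nonneg_of_pos (nb_nonneg _) ih)
  have ya : ∀ k ≤ i, y k ≤ 4 * G.u k := dw_ind (by linarith [h.u_one i]) fun k hk ih => by
    nlinarith [ys k hk, xa (k + 1) hk, h.u_up k, h.u_one k, h.cr1 k, h.cr0 k, y0 (k + 1) hk,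
      nb_nonneg (φ (k + 1) 0)]
  have xy := fun k (hk : k ≤ i) => h.u_g (x := nb (φ k 0) + y k) k (by linarith [xa k hk, ya k hk])
  have e1 : ∀ k < i, φ k = (G.hs k (G.zz b J (k + 1)) ((G.zz b J (k + 1)).ψ + φ (k + 1),
      (G.zz b J (k + 1)).K + M (k + 1))).1 - (G.nx k (G.zz b J (k + 1))).ψ := fun k hk => by
    rw [E1, E2, ← r k hk, ← zz_step b (hk.trans_le hi), hφ]
  have e2 : ∀ k < i, M k = (G.hs k (G.zz b J (k + 1)) ((G.zz b J (k + 1)).ψ + φ (k + 1),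
      (G.zz b J (k + 1)).K + M (k + 1))).2 - (G.nx k (G.zz b J (k + 1))).K := fun k hk => by
    rw [E1, E2, ← r k hk, ← zz_step b (hk.trans_le hi), hM]
  have sz : ∀ k ≤ i, G.Sz k (nb (φ k 0)) (y k) (G.Q k ^ 100)⁻¹ (φ k) (M k) := by
    refine dw_ind ?_ fun k hk ih => ys k hk ▸ h.dif_step_c (a (k + 1) hk).tz (a (k + 1) hk).dt.sz ih
      (y0 _ hk) (xy _ hk) (c _ hk) (e1 k hk) (e2 k hk) (c k hk.le)
    obtain ⟨_, k1, k2⟩ := (d i le_rfl).sz.2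
    obtain ⟨_, k3, k4⟩ := (a i le_rfl).dt.sz.2
    have Q0 := h.Q0 i
    have u1 := h.u_one i
    have w : (G.Q i ^ 280)⁻¹ ≤ (G.Q i ^ 100)⁻¹ :=
      inv_anti₀ (by positivity) (pow_le_pow_right₀ (h.Q1 i) (by norm_num))
    have q : (G.Q i ^ 280)⁻¹ * G.u i * G.g i ^ 2 + √(G.g i) * 1 * G.g i ^ 2 ≤
        (G.Q i ^ 100)⁻¹ * y i * G.g i ^ 2 := by
      calc _ ≤ (G.Q i ^ 100)⁻¹ * G.u i * G.g i ^ 2 + (G.Q i ^ 100)⁻¹ * G.u i * G.g i ^ 2 := by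
            gcongr
            exact h.sg_le i
        _ = _ := by rw [yt]; ring
    refine ⟨pm_nb (h.rh0 i) (p i le_rfl) (c i le_rfl) ?_ ?_, _, hM ▸ k1.sub k3, (k2.add k4).mono q⟩
    · rw [yt]
      nlinarith [pow_pos Q0 2]
    · linarith [mul_le_mul_of_nonneg_left q (pow_pos Q0 50).le]
  have bot : nb (φ 0 0) ≤ 1 * y 0 + 0 := by
    refine e.elim (fun e => ?_) fun e => by linarith
    have z := i.zero_le
    have n := h.sl_nf 0 (G.zz b J 0)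
    have Q0 := h.Q0 0
    have w : G.Q 0 ^ 100 * (G.Q 0 ^ 100)⁻¹ ≤ 1 := (mul_inv_cancel₀ (by positivity)).le
    have := nb_le ((h.lf (a 0 z).tz).flux_cmp (u := 1) (ω := √(G.g 0)) (ψ' := φ 0) (K' := M 0)
      (n ▸ (a 0 z).dt.sz) (n ▸ sz 0 z) (h.u_g 0 (by linarith [h.u_one 0]))
      ((mul_le_mul_of_nonneg_left (h.sg_le 0) (by positivity)).trans w) w (y0 0 z).le (xy 0 z)
      (n ▸ (a 0 z).dt.re) (by rw [E1, E2, n]; exact (d 0 z).re)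
      (n ▸ ((h.f_facts J 0).1 b A.b0).2.1) (n ▸ s) (a 0 z).dt.rp
      (by rw [E1, E2]; exact (d 0 z).rp) (by rw [n]; exact e))
    linarith [y0 0 z]
  refine ⟨by linarith, fun k hk => ?_⟩
  obtain ⟨t1, -, t2⟩ := two_sided_c (I := i) (C := 1) (η := fun _ => 1 / 1000) (c := G.cr)
    (x := fun k => nb (φ k 0)) (y := y) ⟨le_rfl, fun _ _ => by norm_num, fun _ _ => by norm_num,
      fun k _ => (h.cr0 k).le, fun k _ => by linarith [h.cr1 k, h.cr0 k]⟩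
    ⟨bot, fun k hk => by
      have := (h.dif_step (a (k + 1) hk).tz (a (k + 1) hk).dt.sz (sz _ hk) (y0 _ hk) (xy _ hk)
        (c _ hk) (e1 k hk) (e2 k hk) (c k hk.le)).2
      simp only [Pi.zero_apply]
      linarith [nb_nonneg (φ k 0)], fun k hk => by simp [ys k hk]⟩
    (fun k _ => nb_nonneg _) (fun k hk => (y0 k hk).le) hk
  exact ⟨_, y0 k hk, ya k hk, yt ▸ t2, by
    simpa only [hφ, hM] using h.sz_up (sz k hk) (inv_pos.2 (pow_pos (h.Q0 k) _)).le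
      (t1.trans_eq (one_mul _)) le_rfl⟩

end Gl.Ok

/-- the data of the run `(b', J')` in the tree data of the run `(b, J)`, from level `i` on -/
def Gl.hy (G : Gl) (b : ℝ) (J : ℕ) (b' : ℝ) (J' i k : ℕ) : Lx × Ac :=
  dw (fun k d => G.hs k (G.zz b J (k + 1)) d) ((G.zz b' J' i).ψ +
    ((G.sl i (G.zz b' J' i)).Φ 0 - (G.sl i (G.zz b J i)).Φ 0), (G.zz b' J' i).K) i k

namespace Gl

variable {G : Gl} {b b' : ℝ} {J J' i k n : ℕ}

theorem hy_top : G.hy b J b' J' i i = ((G.zz b' J' i).ψ +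
    ((G.sl i (G.zz b' J' i)).Φ 0 - (G.sl i (G.zz b J i)).Φ 0), (G.zz b' J' i).K) := dw_top ..

theorem hy_step (hk : k < i) :
    G.hy b J b' J' i k = G.hs k (G.zz b J (k + 1)) (G.hy b J b' J' i (k + 1)) := dw_step _ _ hk

variable (h : G.Ok) (A : G.Tu b J) (B : G.Tu b' J') (hi : i ≤ J) (hi' : i ≤ J')
  (hd : Df (3 * (G.td i (G.zz b J i)).r) (3 / G.Q i ^ 405) (G.zz b' J' i).m (G.zz b J i).m)
include h A B hi hi' hd

theorem Ok.hy_dt : ∀ k ≤ i, G.Dt k (G.zz b J k) (G.u k) (G.u k) (G.Q k ^ 280)⁻¹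
    (G.hy b J b' J' i k).1 (G.hy b J b' J' i k).2 (G.f b' J' k) :=
  dw_ind (by rw [hy_top]; exact h.hyb_top A B hi hi' hd) fun k hk d => by
    rw [hy_step hk]
    exact h.hyb_step A B (by omega) (by omega) d

theorem Ok.hy_sml (hk : k < i) : ∃ b1 θ k0, (G.sd k (G.zz b J (k + 1))).Sml b1 θ k0
    (G.hy b J b' J' i (k + 1)).1 (G.hy b J b' J' i (k + 1)).2 := by
  have Q0 := h.Q0 k
  have Q0' := h.Q0 (k + 1)
  have m : G.Q k ≤ G.Q (k + 1) := h.Q_mono k.le_succ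
  refine (ball_step (h.sd_all k _).nu (h.st2 (A.gd (k + 1) (hk.trans_le hi)).tz)
    (h.sz_sd (h.hy_dt A B hi hi' hd _ hk).sz _) (h.u_one _) (h.hy_sg _) ?_ ?_).1
  · change G.Q k ^ 100 * _ ≤ 1
    rw [← div_eq_mul_inv, div_le_one (by positivity)]
    exact (pow_le_pow_left₀ Q0.le m _).trans (pow_le_pow_right₀ (h.Q1 _) (by norm_num))
  · change G.Q k ^ 115 * _ * G.g (k + 1) ^ 2 ≤ _
    rw [mul_assoc, h.hy_ug]
    calc _ ≤ G.Q (k + 1) ^ 120 * (G.Q (k + 1) ^ 400)⁻¹ := mul_le_mul_of_nonneg_right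
          ((pow_le_pow_left₀ Q0.le m _).trans (pow_le_pow_right₀ (h.Q1 _) (by norm_num)))
          (by positivity)
      _ = _ := by field_simp

/-- the difference on a larger torus -/
theorem Ok.hy_mul {r : ℕ} (hr : Odd r) (A' : (G.mul r).Tu b J) (B' : (G.mul r).Tu b' J') :
    Df (3 * ((G.mul r).td i ((G.mul r).zz b J i)).r) (3 / (G.mul r).Q i ^ 405)
      ((G.mul r).zz b' J' i).m ((G.mul r).zz b J i).m ∧ ∀ k ≤ i,
      (((G.mul r).hy b J b' J' i k).1 - ((G.mul r).zz b J k).ψ) 0 =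
        ((G.hy b J b' J' i k).1 - (G.zz b J k).ψ) 0 := by
  have h' := h.mul hr
  have T := h.twin h.ht hr A.b0 (A.toTu1.v20 h)
  obtain ⟨_, _, -, e, -⟩ := T i hi
  obtain ⟨_, _, -, e', -, -, ag', -⟩ := h.twin h.ht hr B.b0 (B.toTu1.v20 h) i hi'
  have hd' : Df (3 * ((G.mul r).td i ((G.mul r).zz b J i)).r) (3 / (G.mul r).Q i ^ 405)
      ((G.mul r).zz b' J' i).m ((G.mul r).zz b J i).m := by
    rw [e, e']; exact hd
  have a : ∀ k ≤ i, AgT (rad (G.N k)) (G.hy b J b' J' i k).1 ((G.mul r).hy b J b' J' i k).1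
      (G.hy b J b' J' i k).2 ((G.mul r).hy b J b' J' i k).2 := dw_ind (by
    rw [hy_top, hy_top, e, e']
    exact ⟨fun x hx => congrArg (· + ((G.sl i (G.zz b' J' i)).Φ 0 - (G.sl i (G.zz b J i)).Φ 0) x)
      (ag'.1 x hx), ag'.2⟩) fun k hk a => by
      rw [hy_step hk, hy_step hk]
      exact h.twin_hs h.ht hr A.b0 (A.toTu1.v20 h) (hk.trans_le hi) (h.hy_sml A B hi hi' hd hk)
        (h'.hy_sml A' B' hi hi' hd' hk) (h.hy_dt A B hi hi' hd _ hk).re.2.2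
        (h'.hy_dt A' B' hi hi' hd' _ hk).re.2.2 a
  refine ⟨hd', fun k hk => ?_⟩
  obtain ⟨_, _, -, e, -, -, ag, -⟩ := T k (hk.trans hi)
  rw [e]
  exact congrArg₂ (· - ·) ((a k hk).1 0 (zero_mem_box _)).symm (ag.1 0 (zero_mem_box _)).symm

theorem Ok.hy_c : ∀ k ≤ i, ∃ y, 0 < y ∧ y ≤ 4 * G.u k ∧
    y ≤ (∏ j ∈ Ico k i, 2 * G.cr j) * (2 * G.u i) ∧ G.Sz k y y (G.Q k ^ 100)⁻¹
      ((G.hy b J b' J' i k).1 - (G.zz b J k).ψ) ((G.hy b J b' J' i k).2 - (G.zz b J k).K) := by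
  have o := h.one
  have hd1 : Df (3 * (G.one.td i (G.one.zz b J i)).r) (3 / G.one.Q i ^ 405) (G.one.zz b' J' i).m
      (G.one.zz b J i).m := by
    obtain ⟨_, _, -, e, -⟩ := o.twin o.ht h.odd A.b0 (A.one.v20 o) i hi
    obtain ⟨_, _, -, e', -⟩ := o.twin o.ht h.odd B.b0 (B.one.v20 o) i hi'
    rw [one_mul'] at e e'
    rw [e, e'] at hd
    exact hd
  have e := (o.hy_mul A.to1 B.to1 hi hi' hd1 h.odd (by rwa [one_mul']) (by rwa [one_mul'])).2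
  rw [one_mul'] at e
  exact (h.dif_c A hi _ _ (h.hy_dt A B hi hi' hd) (fun _ => hy_step)
    ((h.f_facts J' 0).1 b' B.b0).2.1 (fun k hk => congrArg nb (e k hk)) (.inr (o.dif_c A.to1 hi _ _
      (o.hy_dt A.to1 B.to1 hi hi' hd1) (fun _ => hy_step) ((o.f_facts J' 0).1 b' B.b0).2.1
      (fun _ _ => rfl) (.inl (A.d0.trans B.d0.symm))).1)).2

/-- after `40 n` steps the difference has decreased by the factor `L ^ n` -/
theorem Ok.hy_dif (hn : k + 40 * n ≤ i) :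
    G.Sz k (2 * G.u i / G.L k ^ n) (2 * G.u i / G.L k ^ n) (G.Q k ^ 100)⁻¹
      ((G.hy b J b' J' i k).1 - (G.zz b J k).ψ) ((G.hy b J b' J' i k).2 - (G.zz b J k).K) := by
  obtain ⟨y, -, -, a, s⟩ := h.hy_c A B hi hi' hd k (by omega)
  have := a.trans ((mul_le_mul_of_nonneg_right (h.cr_prod hn) (by linarith [h.u_one i])).trans_eq
    (inv_mul_eq_div _ _))
  exact h.sz_up s (inv_pos.2 (pow_pos (h.Q0 k) _)).le this this

omit hi hi' hd in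
theorem Ok.hy_all (hJ : J ≤ J') (hi : i + 20 * (405 * G.K + 1) + 1 ≤ J) (hn : k + 40 * n ≤ i) :
    (∀ k ≤ i, G.Dt k (G.zz b J k) (G.u k) (G.u k) (G.Q k ^ 280)⁻¹
      (G.hy b J b' J' i k).1 (G.hy b J b' J' i k).2 (G.f b' J' k)) ∧
    G.Sz k (2 * G.u i / G.L k ^ n) (2 * G.u i / G.L k ^ n) (G.Q k ^ 100)⁻¹
      ((G.hy b J b' J' i k).1 - (G.zz b J k).ψ) ((G.hy b J b' J' i k).2 - (G.zz b J k).K) :=
  ⟨h.hy_dt A B (by omega) (by omega) (h.dfc A B hJ hi),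
    h.hy_dif A B (by omega) (by omega) (h.dfc A B hJ hi) hn⟩

end Gl

end Pool.Agent.Lib.MP_7f377f_mp.RG.Q4.En
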