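import Pool.Agent.Lib.MP_7f377f_mp.Q4ETv
import Pool.Agent.Lib.MP_7f377f_mp.Q4EDfc
import Pool.Agent.Lib.MP_7f377f_mp.Q4EHyb
import Pool.Agent.Lib.MP_7f377f_mp.Q5DifC

/-! Convergence of the laws of tuned runs. -/

noncomputable section

namespace Pool.Agent.Lib.MP_7f377f_mp.RG.Q4.En

open Finset Real Filter Topology MeasureTheory

namespace Gl.Ok

variable {G : Gl} (h : G.Ok)
include h

theorem conv (j : ℕ) (η : ℝ) (hη : 0 < η) : ∃ J0, ∀ J J' b b', J0 ≤ J → J ≤ J' → G.Tu b J →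
    G.Tu b' J' → ∀ A, MeasurableSet A →
      |(lawOf (G.N j) (G.f b J j)).real A - (lawOf (G.N j) (G.f b' J' j)).real A| ≤ η := by
  obtain ⟨C, H⟩ := tv_main
  have t := (h.sch.grow.const_mul (|C (G.N j) (G.bb j) (G.Q j)| * 20 * (3 / 2) ^ j)).eventually_le_const
    (by rwa [mul_zero])
  obtain ⟨i0, hi0⟩ := eventually_atTop.1 t
  refine ⟨max i0 j + 20 * (405 * G.K + 1) + 1, fun J J' b b' a1 a2 A B s hs => ?_⟩
  obtain ⟨i, rfl⟩ : ∃ i, J = i + 20 * (405 * G.K + 1) + 1 :=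
    ⟨J - 20 * (405 * G.K + 1) - 1, by omega⟩
  have ji : j ≤ i := by omega
  generalize hJ : i + 20 * (405 * G.K + 1) + 1 = J at *
  have iJ : i ≤ J := by omega
  have d := h.hy_dt A B iJ (iJ.trans a2) (h.dfc A B a2 hJ.le)
  obtain ⟨y, y0, y1, y2, z⟩ := h.hy_c A B iJ (iJ.trans a2) (h.dfc A B a2 hJ.le) j ji
  generalize G.hy b J b' J' i = D at d z
  obtain ⟨x, hx⟩ : ∃ x, x = y := ⟨_, rfl⟩
  nth_rewrite 1 [← hx] at z
  have e1 := h.u_g (x := x + y) j (by linarith [h.u_one j])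
  have e2 : x + y ≤ 20 * (2 / 3) ^ (i - j) * G.bb i := by
    have : ∏ l ∈ Ico j i, 2 * G.cr l ≤ (2 / 3) ^ (i - j) := by
      rw [← Nat.card_Ico, ← prod_const]
      exact prod_le_prod (fun l _ => by linarith [h.cr0 l]) fun l _ => by linarith [h.cr1 l]
    nlinarith [mul_le_mul this (h.u_le i) (by linarith [h.u_one i]) (by positivity),
      mul_pos (pow_pos (show (0 : ℝ) < 2 / 3 by norm_num) (i - j)) (h.b0 i)]
  have a := A.gd j (ji.trans iJ)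
  obtain ⟨f1, -, f2⟩ := (h.f_facts J j).1 b A.b0
  obtain ⟨f3, -, f4⟩ := (h.f_facts J' j).1 b' B.b0
  have e := h.sl_nf j (G.zz b J j)
  have g0 := h.g0 j
  have q0 := h.Q0 j
  have lf := h.lf a.tz
  have z' : En.Sz (G.sl j (G.zz b J j)).p (G.sl j (G.zz b J j)).nf (G.sl j (G.zz b J j)).QM
      (G.sl j (G.zz b J j)).g x y (G.Q j ^ 100)⁻¹ ((D j).1 - (G.zz b J j).ψ)
        ((D j).2 - (G.zz b J j).K) := e ▸ z
  have x0 := (z'.nn lf.nu).1
  have k := H (G.sl j (G.zz b J j)) _ _ 1 √(G.g j) x y _ _ _ _ _ (G.f b J j) (G.f b' J' j) lf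
    (e ▸ a.dt.sz) z' (by
      change G.Q j ^ 300 * 1 * G.g j ^ 2 ≤ 1
      rw [mul_one, show 300 = 150 * 2 from rfl, pow_mul, ← mul_pow]
      exact pow_le_one₀ (by positivity) ((mul_le_mul_of_nonneg_right
        (pow_le_pow_right₀ (h.Q1 j) (by norm_num)) g0.le).trans (h.Qg j)))
    ((mul_le_mul_of_nonneg_right (pow_le_pow_right₀ (h.Q1 j) (by norm_num)) (sqrt_nonneg _)).trans
      (h.Qsg j)) (mul_inv_cancel₀ (pow_pos q0 _).ne').le y0 e1 (e ▸ a.dt.re) (e ▸ f1) f2 (e ▸ f3) f4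
    a.dt.rp (by rw [add_sub_cancel, add_sub_cancel]; exact (d j ji).rp) s hs
  rw [e] at k
  refine k.trans (((mul_le_mul_of_nonneg_right (le_abs_self _) (by linarith)).trans
    (mul_le_mul_of_nonneg_left e2 (abs_nonneg _))).trans (le_of_eq_of_le ?_ (hi0 i (by omega))))
  obtain ⟨n, rfl⟩ := Nat.exists_eq_add_of_le ji
  have : (3 / 2 : ℝ) ^ j * (2 / 3) ^ j = 1 := by rw [← mul_pow]; norm_num
  rw [Nat.add_sub_cancel_left, pow_add]
  change |C (G.N j) (G.bb j) (G.Q j)| * _ = _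
  linear_combination (-|C (G.N j) (G.bb j) (G.Q j)| * 20 * (2 / 3) ^ n * G.bb (j + n)) * this

end Gl.Ok

end Pool.Agent.Lib.MP_7f377f_mp.RG.Q4.En
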