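import Pool.Agent.Lib.MP_7f377f_mp.Q4NonB
import Pool.Agent.Lib.MP_7f377f_mp.Q4MeasLaw
import Pool.Agent.Lib.MP_7f377f_mp.CEnd

/-! The continuum limit in four dimensions from the convergence and the bounds of the densities. -/

noncomputable section

namespace Pool.Agent.Lib.MP_7f377f_mp.RG.Q4.En

open MeasureTheory Measure Finset YM4 Ms Fi Real Filter
open scoped Quaternion ENNReal Topology

variable (e : ℕ → ℕ) (a : ℕ → ℝ)

/-- half side of the blocks of the step from level `j + 1` to level `j` -/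
def ll (j : ℕ) : ℕ := 3 ^ (e (j + 1) - e j) / 2

/-- density at level `j` of the run which starts at level `J` with bare coupling `b` -/
def den (b : ℝ) (J j : ℕ) : Conf → ℂ :=
  rho (fun s => ll e (J - 1 - s)) (fun s => a (J - 1 - s)) b (J - j) (3 ^ e j)

theorem odd3 (k : ℕ) : Odd (3 ^ k) := Odd.pow (by decide)

theorem LL_ll (j : ℕ) : LL (ll e j) = 3 ^ (e (j + 1) - e j) := by
  obtain ⟨k, hk⟩ := odd3 (e (j + 1) - e j)
  unfold LL ll
  omega

variable {e a}

theorem LL_mul (he : Monotone e) (j : ℕ) : LL (ll e j) * 3 ^ e j = 3 ^ e (j + 1) := by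
  rw [LL_ll, ← pow_add, Nat.sub_add_cancel (he j.le_succ)]

theorem den_top (b : ℝ) (J : ℕ) : den e a b J J = fun U => ((wil b (3 ^ e J) U : ℝ) : ℂ) := by
  rw [den, Nat.sub_self, rho]

theorem den_step (he : Monotone e) (b : ℝ) {J j : ℕ} (h : j < J) :
    den e a b J j = TT (ll e j) (a j) (3 ^ e j) (den e a b J (j + 1)) := by
  rw [den, den, show J - j = J - (j + 1) + 1 by omega, rho,
    show J - 1 - (J - (j + 1)) = j by omega, LL_mul he]

theorem den_facts (ha : ∀ j, 0 ≤ a j) (J j : ℕ) :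
    (∀ b, 0 ≤ b → GI (3 ^ e j) (den e a b J j) ∧ Sym (3 ^ e j) (den e a b J j) ∧
      Pos (den e a b J j)) ∧ ∀ U, Continuous fun b => den e a b J j U :=
  rho_facts _ _ (fun _ => ha _) _ _ (odd3 _)

theorem le_of_abs {X : Type} [MeasurableSpace X] {μ ν : Measure X} [IsProbabilityMeasure μ]
    [IsProbabilityMeasure ν] {η : ℝ} (h : ∀ A, MeasurableSet A → |μ.real A - ν.real A| ≤ η) :
    CE.Le μ ν (ENNReal.ofReal η) := fun A hA => by
  have h0 := (abs_nonneg _).trans (h A hA)
  rw [← ENNReal.toReal_le_toReal (by finiteness) (by finiteness),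
    ENNReal.toReal_add (by finiteness) (by finiteness), ENNReal.toReal_ofReal h0]
  have := (abs_le.1 (h A hA)).2
  simp only [Measure.real] at this
  linarith

theorem abs_of_le {X : Type} [MeasurableSpace X] {μ ν : Measure X} [IsProbabilityMeasure μ]
    [IsProbabilityMeasure ν] {η : ℝ} (h0 : 0 ≤ η) (h : CE.Le μ ν (ENNReal.ofReal η)) (A : Set X)
    (hA : MeasurableSet A) : |μ.real A - ν.real A| ≤ η := by
  have k : ∀ B, MeasurableSet B → μ.real B ≤ ν.real B + η := fun B hB => by
    have := ENNReal.toReal_mono (by finiteness) (h B hB)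
    rwa [ENNReal.toReal_add (by finiteness) (by finiteness), ENNReal.toReal_ofReal h0] at this
  have h1 := k _ hA.compl
  rw [probReal_compl_eq_one_sub hA, probReal_compl_eq_one_sub hA] at h1
  rw [abs_le]
  constructor <;> linarith [k A hA]

/-- the statement on discrete tori -/
theorem final_of [m : MeasurableSpace SU2] [BorelSpace SU2] (h : Measure SU2) [h.IsHaarMeasure]
    [IsProbabilityMeasure h] {β g : ℕ → ℝ} (he : Monotone e) (ha : ∀ j, 0 ≤ a j)
    (hβ : ∀ j, 0 ≤ β j)
    (hc : ∀ j, ∀ η > 0, ∃ J0, ∀ J J', J0 ≤ J → J ≤ J' → ∀ A, MeasurableSet A →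
      |(lawOf (3 ^ e j) (den e a (β J) J j)).real A -
        (lawOf (3 ^ e j) (den e a (β J') J' j)).real A| ≤ η)
    {θ C c : ℝ} (θ0 : 0 < θ) (c0 : 0 < c) (g0 : ∀ j, 0 < g j)
    (hg : ∀ j, c ≤ g j ^ 2 * e j ∧ c * (g j ^ 2 * e j) ≤ 1)
    (hn : ∀ j J, j ≤ J → ∀ x μ ν, μ ≠ ν →
      θ ≤ (lawOf (3 ^ e j) (den e a (β J) J j)).real {U | θ * g j ≤ fq U x μ ν} ∧
        ∀ M > 0, (lawOf (3 ^ e j) (den e a (β J) J j)).real {U | M * g j ≤ fq U x μ ν} ≤ C / M) :
    ∃ μ : ∀ j, Measure (Cfg (3 ^ e j)),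
      (∀ j, IsProbabilityMeasure (μ j) ∧
        μ j = step h (a j) (3 ^ (e (j + 1) - e j) / 2) (μ (j + 1))) ∧
      (∀ j, ∀ η > 0, ∃ k0, ∀ k ≥ k0, ∀ A, MeasurableSet A →
        |(law h e a β k j).real A - (μ j).real A| ≤ η) ∧
      ∃ c > 0, ∀ j x i k, i ≠ k → c ≤ (μ j).real {U | c ≤ e j * curv U x i k ^ 2} ∧
        ∀ M > 0, (μ j).real {U | M ≤ e j * curv U x i k ^ 2} ≤ 1 / (c * √M) := by
  obtain rfl : m = mS := BorelSpace.measurable_eq
  have : (tr haar).IsHaarMeasure := (inferInstance : haar.IsHaarMeasure)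
  obtain rfl := Measure.isHaarMeasure_eq_of_isProbabilityMeasure h (tr haar)
  set lw : ℕ → ℕ → Measure Conf := fun k j => lawOf (3 ^ e j) (den e a (β (j + k)) (j + k) j)
    with hlw
  have hf := fun J j => (den_facts (e := e) ha J j).1 _ (hβ J)
  have st : ∀ J j, stepM (ll e j) (a j) (3 ^ e j) (lawOf (3 ^ e (j + 1))
      (den e a (β J) J (j + 1))) = lawOf (3 ^ e j) (TT (ll e j) (a j) (3 ^ e j)
        (den e a (β J) J (j + 1))) := fun J j => by
    have := stepM_lawOf (l := ll e j) (ha j) (odd3 (e j)) (f := den e a (β J) J (j + 1))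
      (by rw [LL_mul he]; exact (hf J _).1) (hf J _).2.2
    rw [LL_mul he] at this
    exact this.1
  have pr : ∀ k j, IsProbabilityMeasure (lw k j) := fun k j =>
    Mx.lawOf_prob (hf _ j).1 fun U => ((hf _ j).2.2 U).2
  have rc : ∀ k j, lw (k + 1) j = stepM (ll e j) (a j) (3 ^ e j) (lw k (j + 1)) := fun k j => by
    simp only [hlw]
    rw [st, den_step he _ (show j < j + (k + 1) by omega), show j + 1 + k = j + (k + 1) by ring]
  obtain ⟨μ, p, h1, h2⟩ := CE.family (fun (_ : Unit) k j => lw k j)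
    (fun j => stepM (ll e j) (a j) (3 ^ e j)) (fun _ => Set.univ) () (fun _ => trivial)
    (fun _ _ _ => le_rfl) (fun _ => pr) (fun j μ ν η _ _ h => by
      rcases eq_or_ne η ⊤ with rfl | hη
      · exact fun A _ => by simp
      have := stepM_prob (l := ll e j) (n := 3 ^ e j) (ha j) μ
      have := stepM_prob (l := ll e j) (n := 3 ^ e j) (ha j) ν
      rw [← ENNReal.ofReal_toReal hη] at h ⊢
      exact le_of_abs (stepM_contr (ha j) μ ν (abs_of_le ENNReal.toReal_nonneg h)))
    (fun j _ _ k => rc k j) fun η hη j => by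
      obtain ⟨η', -, h0, h1⟩ := ENNReal.lt_iff_exists_real_btwn.1 hη
      obtain ⟨J0, h⟩ := hc j η' (ENNReal.ofReal_pos.1 h0)
      refine ⟨j, le_rfl, J0, fun _ _ _ _ k hk k' hk' => CE.Le.mono (le_of_abs fun A hA => ?_) h1.le⟩
      rcases le_total k k' with h2 | h2
      · exact h _ _ (by omega) (by omega) A hA
      · rw [abs_sub_comm]
        exact h _ _ (by omega) (by omega) A hA
  have h3 : ∀ j, ∀ η > 0, ∃ k0, ∀ k ≥ k0, ∀ A, MeasurableSet A →
      |(lw k j).real A - (μ j).real A| ≤ η := fun j η hη =>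
    (h2 j _ (ENNReal.ofReal_pos.2 hη)).imp fun k0 h k hk => abs_of_le hη.le (h () trivial k hk).1
  have fx : ∀ j, ((μ j).map (rs (3 ^ e j))).map lf = μ j := fun j => by
    rw [h1 j]
    exact fix_step ..
  have sr : ∀ j (ν : Measure Conf), IsProbabilityMeasure ν →
      (ν.map (rs (3 ^ e (j + 1)))).map lf = ν → (stepM (ll e j) (a j) (3 ^ e j) ν).map (rs _) =
        step (tr haar) (a j) (ll e j) (ν.map (rs (3 ^ e (j + 1)))) := fun j ν _ h => by
    have := isProbabilityMeasure_map (μ := ν) (meas_rs (n := 3 ^ e (j + 1))).aemeasurable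
    rw [← step_res (ha j) _ (odd3 _) (LL_mul he j), h]
  have lr : ∀ k j, (lw k j).map (rs _) = law (tr haar) e a β k j := fun k => by
    induction k with
    | zero => exact fun j => by simp only [hlw, add_zero, den_top, wilson_res _ (odd3 _), law]
    | succ k ih => exact fun j => by rw [rc, sr j _ (pr _ _) (fix_law _), ih, law, ll]
  have C0 : θ * θ ≤ C := by
    have h := hn 0 0 le_rfl 0 0 1 (by decide)
    exact (le_div_iff₀ θ0).1 (h.1.trans (h.2 θ θ0))
  have C1 : 0 < C := lt_of_lt_of_le (by positivity) C0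
  refine ⟨fun j => (μ j).map (rs _), fun j => ⟨isProbabilityMeasure_map meas_rs.aemeasurable,
    (congrArg _ (h1 j)).trans (sr j _ (p _) (fx _))⟩, fun j η hη => ?_,
    min (min θ (θ ^ 2 * c)) (√c / C), by positivity, fun j x i k hik => ?_⟩
  · refine (h3 j η hη).imp fun k0 h k hk A hA => ?_
    rw [← lr, map_measureReal_apply meas_rs hA, map_measureReal_apply meas_rs hA]
    exact h k hk _ (meas_rs hA)
  have mS : ∀ t, MeasurableSet {U | t ≤ fq U (vl x) i k} := fun t =>
    measurableSet_le measurable_const (Fi.cont_fq _ i k).measurable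
  have e1 : ∀ t, (μ j).real {U | t ≤ fq U (vl x) i k} =
      ((μ j).map (rs (3 ^ e j))).real {U | t ≤ curv U x i k} := fun t => by
    conv_lhs => rw [← fx j, map_measureReal_apply meas_lf (mS t)]
    simp only [Set.preimage_ofPred_eq, fq_lf, cst_vl]
  have : IsProbabilityMeasure ((μ j).map (rs (3 ^ e j))) :=
    isProbabilityMeasure_map meas_rs.aemeasurable
  have hj := hg j
  have gj := g0 j
  have ej : (0 : ℝ) < e j := (pos_iff_pos_of_mul_pos (c0.trans_le hj.1)).1 (by positivity)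
  refine ⟨((min_le_left _ _).trans (min_le_left _ _)).trans (le_trans ?_ (measureReal_mono
    (s₁ := {U | θ * g j ≤ curv U x i k}) fun U hU => ?_)), fun M M0 => ?_⟩
  · rw [← e1]
    refine le_of_forall_pos_le_add fun η hη => ?_
    obtain ⟨k0, h⟩ := h3 j η hη
    linarith [(hn j (j + k0) (by omega) (vl x) i k hik).1, 
      (abs_le.1 (h k0 le_rfl _ (mS (θ * g j)))).2]
  · refine le_trans (b := θ ^ 2 * c) ((min_le_left _ _).trans (min_le_right _ _)) ?_
    calc θ ^ 2 * c ≤ θ ^ 2 * (g j ^ 2 * e j) := by gcongr; exact hj.1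
      _ = e j * (θ * g j) ^ 2 := by ring
      _ ≤ _ := by gcongr; exact hU
  · calc _ ≤ ((μ j).map (rs (3 ^ e j))).real {U | √c * √M * g j ≤ curv U x i k} := by
          refine measureReal_mono fun U hU => le_of_pow_le_pow_left₀ two_ne_zero (norm_nonneg _) ?_
          rw [mul_pow, mul_pow, sq_sqrt c0.le, sq_sqrt M0.le]
          refine le_of_mul_le_mul_left (le_trans ?_ hU) ej
          linarith [mul_le_mul_of_nonneg_left hj.2 M0.le]
      _ ≤ C / (√c * √M) := by
          rw [← e1]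
          refine le_of_forall_pos_le_add fun η hη => ?_
          obtain ⟨k0, h⟩ := h3 j η hη
          linarith [(hn j (j + k0) (by omega) (vl x) i k hik).2 (√c * √M) (by positivity),
            (abs_le.1 (h k0 le_rfl _ (mS (√c * √M * g j)))).1]
      _ = 1 / (√c / C * √M) := by field_simp
      _ ≤ _ := by
          gcongr
          exact min_le_right _ _

end Pool.Agent.Lib.MP_7f377f_mp.RG.Q4.En
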