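import Pool.Agent.Lib.MP_7f377f_mp.Q4EDef

/-! The schedule of the volumes and of the reference couplings. -/

noncomputable section

namespace Pool.Agent.Lib.MP_7f377f_mp.RG.Q4.En

open Finset Filter Topology Real

namespace Sc

open Classical in
/-- exponent of the side of the blocks -/
def aa (B : ℕ → ℕ) (x : ℕ) : ℕ := Nat.findGreatest (fun t => 10 * 3 ^ (t * B t) ≤ x) x

def es (B : ℕ → ℕ) (x0 : ℕ) : ℕ → ℕ
  | 0 => x0
  | k + 1 => es B x0 k + aa B (es B x0 k)

def bs (f : ℕ → ℝ) (b0 : ℝ) : ℕ → ℝ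
  | 0 => b0
  | k + 1 => bs f b0 k + f k

variable {B : ℕ → ℕ} {x y A : ℕ}

theorem aa_low (hx : 10 ≤ x) : 10 * 3 ^ (aa B x * B (aa B x)) ≤ x :=
  Nat.findGreatest_spec (P := fun t => 10 * 3 ^ (t * B t) ≤ x) x.zero_le (by simpa using hx)

variable (hB : ∀ t, 1 ≤ B t)
include hB

theorem pow_ge (t : ℕ) : 10 * 3 ^ t ≤ 10 * 3 ^ (t * B t) :=
  Nat.mul_le_mul_left _ (Nat.pow_le_pow_right (by norm_num) (Nat.le_mul_of_pos_right _ (hB t)))

theorem le_aa (h : 10 * 3 ^ (A * B A) ≤ x) : A ≤ aa B x := Nat.le_findGreatest (by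
  have := pow_ge hB A
  have : A < 3 ^ A := Nat.lt_pow_self (by norm_num)
  omega) h

theorem aa_upp : x + 1 ≤ 10 * 3 ^ ((aa B x + 1) * B (aa B x + 1)) :=
  not_le.1 fun h => (le_aa hB h).not_gt (Nat.lt_succ_self _)

theorem pow_aa (hx : 10 ≤ x) : 10 * 3 ^ aa B x ≤ x := (pow_ge hB _).trans (aa_low hx)

theorem aa_le (hx : 10 ≤ x) : 10 * aa B x ≤ x := by
  have := pow_aa hB hx
  have : aa B x < 3 ^ aa B x := Nat.lt_pow_self (by norm_num)
  omega

theorem aa_next (hm : Monotone B) (hx : 10 ≤ x) : aa B (x + aa B x) ≤ aa B x + 1 := by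
  by_contra! h
  have h1 := aa_le hB hx
  have h2 := aa_low (B := B) (x := x + aa B x) (by omega)
  have h3 := aa_upp hB (x := x)
  generalize aa B (x + aa B x) = s at *
  have h4 : 3 ^ ((aa B x + 1) * B (aa B x + 1) + 1) ≤ 3 ^ (s * B s) :=
    Nat.pow_le_pow_right (by norm_num) (by
      nlinarith [hm h.le, hB s, Nat.mul_le_mul_right (B s) h])
  omega

omit hB in
theorem tele {a : ℕ → ℕ} (h : Monotone a) (h1 : ∀ k, a (k + 1) ≤ a k + 1) (k S : ℕ) :
    ((range k).filter fun j => a (j + S) ≠ a j).card ≤ S * (a k + S) := by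
  have h2 : ∀ i, a (k + i) ≤ a k + i := fun i => by
    induction i with
    | zero => rfl
    | succ i ih => have := h1 (k + i); rw [← add_assoc]; omega
  have h3 : ((range k).filter fun j => a (j + S) ≠ a j).card + ∑ j ∈ range k, a j ≤
      ∑ j ∈ range k, a (S + j) := by
    rw [card_filter, ← sum_add_distrib]
    refine sum_le_sum fun j _ => ?_
    have := h (Nat.le_add_right j S)
    rw [add_comm S]
    split_ifs <;> omega
  have h4 := sum_range_add a k S
  have h5 := sum_range_add a S k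
  have h6 : ∑ i ∈ range S, a (k + i) ≤ S * (a k + S) := by
    simpa using sum_le_card_nsmul (range S) _ (a k + S) fun i hi =>
      (h2 i).trans (by have := mem_range.1 hi; omega)
  rw [add_comm S] at h5
  omega

end Sc

open Sc

theorem sched (K B0 l0 : ℕ) (hK : 1 ≤ K) (hB : 1000 * K ≤ B0) {B : ℕ → ℕ} (m0 : ∀ t, B0 ≤ B t)
    (m1 : Monotone B) (m2 : ∀ t, B (t + 1) ≤ B t + 1) (m3 : Tendsto B atTop atTop) {bn : ℕ → ℝ}
    (h : Tendsto (fun l => bn l / log (LL l)) atTop (𝓝 (11 / (6 * π ^ 2)))) :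
    ∃ e bb, Sch K B0 l0 (fun l => B (Nat.log 3 (LL l))) bn e bb := by
  have p1 : 9 < π ^ 2 := by nlinarith [pi_gt_three]
  have p2 : π ^ 2 < 16 := by nlinarith [pi_gt_three, pi_lt_four]
  obtain ⟨l1, h1⟩ := eventually_atTop.1 (h.eventually (Ioo_mem_nhds
    (show (0.1 : ℝ) < _ by rw [lt_div_iff₀ (by positivity)]; linarith)
    (show _ < (0.5 : ℝ) by rw [div_lt_iff₀ (by positivity)]; linarith)))
  have B1 : ∀ t, 1 ≤ B t := fun t => by have := m0 t; omega
  obtain ⟨e, he⟩ : ∃ e : ℕ → ℕ, e = es B (10 * 3 ^ ((l0 + l1 + 85) * B (l0 + l1 + 85))) := ⟨_, rfl⟩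
  obtain ⟨a, ha⟩ : ∃ a : ℕ → ℕ, a = fun k => aa B (e k) := ⟨_, rfl⟩
  have s1 : ∀ k, e (k + 1) = e k + a k := fun k => by rw [ha, he]; rfl
  have s2 : Monotone e := monotone_nat_of_le_succ fun k => by rw [s1]; omega
  have s3 : ∀ k, l0 + l1 + 85 ≤ a k := fun k => ha ▸ le_aa B1 (le_trans (by rw [he]; rfl)
    (s2 k.zero_le))
  have s4 : StrictMono e := strictMono_nat_of_lt_succ fun k => by have := s3 k; rw [s1]; omega
  have s5 : ∀ k, 10 ≤ e k := fun k => le_trans (by
    rw [he]; exact Nat.le_mul_of_pos_right _ (by positivity)) (s2 k.zero_le)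
  have s6 : ∀ k, LL (ll e k) = 3 ^ a k := fun k => by rw [LL_ll, s1, Nat.add_sub_cancel_left]
  have s7 : ∀ k, a k ≤ ll e k := fun k => by
    have h2 := s6 k
    have h3 : 1 + a k * 2 ≤ 3 ^ a k := by
      exact_mod_cast one_add_mul_le_pow (show (-2 : ℤ) ≤ 2 by norm_num) (a k)
    unfold LL at h2
    omega
  have s8 : Monotone a := fun i _ h => ha ▸ le_aa B1 ((aa_low (s5 i)).trans (s2 h))
  have s9 : ∀ k, a (k + 1) ≤ a k + 1 := fun k => by
    rw [ha]; simp only; rw [s1, ha]; exact aa_next B1 m1 (s5 k)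
  have t0 : ∀ k, Nat.log 3 (LL (ll e k)) = a k := fun k => by rw [s6, Nat.log_pow (by norm_num)]
  have t1 : ∀ k, 10 * 3 ^ (a k * B (a k)) ≤ e k := fun k => ha ▸ aa_low (s5 k)
  have t2 : ∀ k, e k + 1 ≤ 10 * 3 ^ ((a k + 1) * B (a k + 1)) := fun k => ha ▸ aa_upp B1
  have t3 : ∀ k, 10 * 3 ^ a k ≤ e k := fun k => ha ▸ pow_aa B1 (s5 k)
  have t4 : ∀ k, 10 * a k ≤ e k := fun k => ha ▸ aa_le B1 (s5 k)
  have t5 : Monotone (ll e) := fun i j h => by
    have := Nat.pow_le_pow_right (show 0 < 3 by norm_num) (s8 h)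
    rw [← s6, ← s6] at this
    unfold LL at this
    omega
  have l3 : 1 ≤ log 3 := by
    rw [le_log_iff_exp_le (by norm_num)]; exact exp_one_lt_d9.le.trans (by norm_num)
  have l4 : log 3 ≤ 2 := by linarith [log_le_sub_one_of_pos (show (0 : ℝ) < 3 by norm_num)]
  have l5 : ∀ k, log (LL (ll e k)) = a k * log 3 := fun k => by rw [s6]; simp
  have a0 : ∀ k, (85 : ℝ) ≤ a k := fun k => by exact_mod_cast (by have := s3 k; omega)
  have u1 : ∀ k, (a k : ℝ) / 10 ≤ bn (ll e k) ∧ bn (ll e k) ≤ a k := fun k => by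
    obtain ⟨h2, h3⟩ := h1 (ll e k) (by have := s3 k; have := s7 k; omega)
    have := a0 k
    rw [l5] at h2 h3
    rw [lt_div_iff₀ (by positivity)] at h2
    rw [div_lt_iff₀ (by positivity)] at h3
    constructor <;> nlinarith
  obtain ⟨bb, hb⟩ : ∃ bb, bb = bs (fun k => bn (ll e k)) (e 0 / 5) := ⟨_, rfl⟩
  have b1 : ∀ k, bb (k + 1) = bb k + bn (ll e k) := fun k => by rw [hb]; rfl
  have b0 : bb 0 = e 0 / 5 := by rw [hb]; rfl
  have b2 : ∀ k, (e k : ℝ) / 10 ≤ bb k ∧ bb k ≤ e k := fun k => by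
    induction k with
    | zero => constructor <;> linarith [(Nat.cast_nonneg (e 0) : (0 : ℝ) ≤ _)]
    | succ k ih =>
      rw [b1, s1]
      push_cast
      constructor <;> linarith [u1 k]
  have e0 : ∀ k, (10 : ℝ) ≤ e k := fun k => by exact_mod_cast s5 k
  have c1 : ∀ k, e k ^ 3 ≤ LL (ll e k) ^ (4 * B (a k)) := fun k => by
    have := s3 k
    have := m0 (a k)
    rw [s6, ← pow_mul]
    calc _ ≤ (3 ^ 3 * 3 ^ ((a k + 1) * (B (a k) + 1))) ^ 3 := Nat.pow_le_pow_left (by
          have := Nat.pow_le_pow_right (show 0 < 3 by norm_num) (Nat.mul_le_mul_left (a k + 1) (m2 (a k)))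
          have := t2 k
          omega) 3
      _ ≤ _ := by
        rw [← pow_add, ← pow_mul]
        exact Nat.pow_le_pow_right (by norm_num) (by
          nlinarith [Nat.mul_le_mul_right (B (a k)) (show 85 ≤ a k by omega),
            Nat.mul_le_mul_left (a k) (show 1000 ≤ B (a k) by omega)])
  have c2 : ∀ k, (LL (ll e k) : ℝ) ^ B (a k) ≤ bb k := fun k => by
    have : (10 : ℝ) * 3 ^ (a k * B (a k)) ≤ e k := by exact_mod_cast t1 k
    rw [s6]
    push_cast
    rw [← pow_mul]
    linarith [b2 k]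
  have top : Tendsto e atTop atTop := s4.tendsto_atTop
  have topa : Tendsto a atTop atTop := tendsto_atTop_atTop.2 fun A => by
    obtain ⟨k, hk⟩ := tendsto_atTop_atTop.1 top (10 * 3 ^ (A * B A))
    exact ⟨k, fun j hj => ha ▸ le_aa B1 (hk j hj)⟩
  have topl : Tendsto (ll e) atTop atTop := tendsto_atTop_mono s7 topa
  refine ⟨e, bb, s4, fun k => by have := s3 k; have := s7 k; omega, fun k => ?_, b1, fun k => ?_,
    fun k => t0 k ▸ c2 k, fun k => ?_, b2, fun k => ?_, fun k J => ?_, fun k => ?_,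
    fun k J hJ => ?_, ?_, topl, ?_, fun k => m0 _, fun i j e => by simp only [t0]; exact m1 (s8 e),
    by simp only [t0]; exact m3.comp topa⟩
  · rw [s6, s6]
    rcases (s8 k.le_succ).eq_or_lt with h2 | h2
    · exact .inl (by rw [h2])
    · exact .inr (by rw [le_antisymm (s9 k) h2, pow_succ'])
  · have : (a k : ℝ) ≤ LL (ll e k) := by
      have := s7 k
      unfold LL
      exact_mod_cast by omega
    rw [b1]
    constructor <;> linarith [u1 k, a0 k]
  · rw [t0]
    refine (b2 _).2.trans ?_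
    have h2 := t4 k
    have h3 := s5 k
    exact_mod_cast le_trans (by rw [s1]; nlinarith [Nat.mul_le_mul h3 h3]) (c1 k)
  · have h2 := t3 k
    have h3 := t4 k
    have h4 : 3 ^ a k * 3 ^ (e k - a k) = 3 ^ e k := by rw [← pow_add]; congr 1; omega
    refine ⟨3 ^ (e k - a k), odd3 _, by rw [s6, h4], (b2 k).2.trans ?_⟩
    have h5 : 1 + (e k - a k) * 2 ≤ 3 ^ (e k - a k) := by
      exact_mod_cast one_add_mul_le_pow (show (-2 : ℤ) ≤ 2 by norm_num) (e k - a k)
    exact_mod_cast by omega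
  · simp only [t0]
    have key : ∀ j, ((LL (ll e j) : ℝ) ^ (4 * B (a j)))⁻¹ ≤
        ((e j : ℝ) ^ 2)⁻¹ - ((e (j + 1) : ℝ) ^ 2)⁻¹ := fun j => by
      have h2 : (e j : ℝ) ^ 3 ≤ (LL (ll e j) : ℝ) ^ (4 * B (a j)) := by exact_mod_cast c1 j
      have h3 : (e j : ℝ) + 1 ≤ e (j + 1) := by exact_mod_cast s4 j.lt_succ_self
      have h4 := e0 j
      have h5 : ((e (j + 1) : ℝ) ^ 2)⁻¹ ≤ (((e j : ℝ) + 1) ^ 2)⁻¹ := by gcongr
      refine (inv_anti₀ (by positivity) h2).trans (le_trans ?_ (sub_le_sub_left h5 _))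
      rw [inv_sub_inv (by positivity) (by positivity), inv_eq_one_div, div_le_div_iff₀
        (by positivity) (by positivity)]
      have h6 : ((e j : ℝ) + 1) ^ 2 ≤ (((e j : ℝ) + 1) ^ 2 - (e j : ℝ) ^ 2) * e j := by nlinarith
      nlinarith [mul_le_mul_of_nonneg_left h6 (sq_nonneg (e j : ℝ))]
    have h2 : ((e k : ℝ) ^ 2)⁻¹ ≤ (bb k ^ 2)⁻¹ := by
      have := b2 k
      have : 0 < bb k := by linarith [e0 k]
      gcongr
      exact (b2 k).2
    rcases le_or_gt k J with hJ | hJ
    · refine (sum_le_sum fun j _ => key j).trans ?_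
      simp only [← neg_sub ((e (_ + 1) : ℝ) ^ 2)⁻¹, sum_neg_distrib]
      rw [sum_Ico_sub (fun j => ((e j : ℝ) ^ 2)⁻¹) hJ]
      linarith [show 0 ≤ ((e J : ℝ) ^ 2)⁻¹ by positivity]
    · rw [Ico_eq_empty_of_le hJ.le, sum_empty]
      positivity
  · obtain ⟨u, hu⟩ : ∃ u : ℝ, u = 3 ^ (420 * K) := ⟨_, rfl⟩
    obtain ⟨w, hw⟩ : ∃ w : ℕ → ℝ, ∀ t, w t = 3 ^ (t * B t) := ⟨_, fun _ => rfl⟩
    have u0 : 1 ≤ u := hu ▸ one_le_pow₀ (by norm_num)
    have uw : ∀ t, w t * (3 * u) ≤ w (t + 1) := fun t => by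
      rw [hu, hw, hw, ← pow_succ', ← pow_add]
      exact pow_le_pow_right₀ (by norm_num) (by
        nlinarith [m0 (t + 1), Nat.mul_le_mul_left t (m1 t.le_succ)])
    have q : ∀ j i, ((LL (ll e j) : ℝ) ^ K) ^ i = 3 ^ (i * K * a j) := fun j i => by
      rw [s6]
      push_cast
      rw [← pow_mul, ← pow_mul]
      congr 1
      ring
    have q1 : ∀ j, ((LL (ll e j) : ℝ) ^ K) ^ 420 = u ^ a j := fun j => by rw [q, hu, ← pow_mul]
    simp only [q1]
    have key : ∀ k, ∑ j ∈ range k, (u ^ a j)⁻¹ ≤ (e k + 20 * w (a k) * u) / u ^ a k := fun k => by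
      have w0 : ∀ t, 0 < w t := fun t => hw t ▸ by positivity
      induction k with
      | zero => rw [sum_range_zero]; have := w0 (a 0); positivity
      | succ k ih =>
        have h3 : (e k : ℝ) + 1 ≤ e (k + 1) := by exact_mod_cast s4 k.lt_succ_self
        have h4 : (e k : ℝ) + 1 ≤ 10 * w (a k + 1) := by rw [hw]; exact_mod_cast t2 k
        rw [sum_range_succ]
        refine (add_le_add_left ih _).trans ?_
        rw [inv_eq_one_div, ← add_div]
        rcases (s8 k.le_succ).eq_or_lt with h2 | h2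
        · rw [← show a k = a (k + 1) from h2]
          exact div_le_div_of_nonneg_right (by linarith) (by positivity)
        · rw [le_antisymm (s9 k) h2, pow_succ u, div_le_div_iff₀ (by positivity) (by positivity),
            mul_comm (u ^ a k), ← mul_assoc _ u]
          refine mul_le_mul_of_nonneg_right ?_ (by positivity)
          have h5 : 20 * w (a k) * u ≤ 10 * w (a k + 1) := by nlinarith [w0 (a k), uw (a k)]
          nlinarith [e0 (k + 1)]
    refine (key k).trans ?_
    have h2 := c2 k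
    have h3 : w (a k) ≤ bb k := by
      rw [s6] at h2
      push_cast at h2
      rwa [hw, pow_mul]
    have h4 : 243 * u * ((LL (ll e k) : ℝ) ^ K) ^ 415 ≤ u ^ a k := by
      have := s3 k
      rw [q, hu, ← pow_mul, show (243 : ℝ) = 3 ^ 5 by norm_num, ← pow_add, ← pow_add]
      exact pow_le_pow_right₀ (by norm_num) (by nlinarith)
    have h5 : 0 < ((LL (ll e k) : ℝ) ^ K) ^ 415 := by rw [q]; positivity
    have h6 : (e k : ℝ) + 20 * w (a k) * u ≤ bb k * (243 * u) := by nlinarith [b2 k, e0 k]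
    rw [div_le_div_iff₀ (by positivity) h5]
    nlinarith [b2 k, e0 k]
  · have h2 := tele s8 s9 k (ll e k)
    have h3 : ((range k).filter fun j =>
        j = 0 ∨ J ≤ j + ll e j ∨ ll e (j + ll e j) ≠ ll e j) ⊆ insert 0 (Ico (k - ll e k) k ∪
          (range k).filter fun j => a (j + ll e k) ≠ a j) := fun j hj => by
      obtain ⟨c1, c2⟩ := mem_filter.1 hj
      have c3 := t5 (mem_range.1 c1).le
      simp only [mem_insert, mem_union, mem_Ico, mem_filter]
      refine c2.imp_right (Or.imp (fun c => ⟨by omega, mem_range.1 c1⟩) fun c => ⟨c1, fun c4 => c ?_⟩)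
      have c5 := le_antisymm ((s8 (by omega)).trans_eq c4) (s8 (Nat.le_add_right j (ll e j)))
      have c6 := s6 (j + ll e j)
      rw [c5, ← s6] at c6
      unfold LL at c6
      omega
    have h4 := (card_le_card h3).trans ((card_insert_le _ _).trans
      (add_le_add_left (card_union_le _ _) 1))
    have h5 := s7 k
    have h6 := s3 k
    rw [Nat.card_Ico] at h4
    refine h4.trans ?_
    have h7 : k - (k - ll e k) ≤ ll e k := by omega
    have h8 := h2.trans (Nat.mul_le_mul_left _ (add_le_add_left h5 _))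
    unfold LL
    nlinarith [Nat.zero_le (ll e k ^ 3)]
  · have g1 : (fun j => bn (ll e j) - 11 / (6 * π ^ 2) * (a j * log 3)) =o[atTop]
        fun j => (a j : ℝ) * log 3 := by
      refine (Asymptotics.isLittleO_iff_tendsto fun j hj => absurd hj (by
        have := a0 j; positivity)).2 ?_
      have := (h.comp topl).sub_const (11 / (6 * π ^ 2))
      rw [sub_self] at this
      refine this.congr fun j => ?_
      have := a0 j
      simp only [Function.comp, l5]
      field_simp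
    have g2 : ∀ k, ∑ j ∈ range k, (a j : ℝ) * log 3 = (e k - e 0) * log 3 := fun k => by
      induction k with
      | zero => simp
      | succ k ih => rw [sum_range_succ, ih, s1]; push_cast; ring
    have g3 : ∀ k, ∑ j ∈ range k, (bn (ll e j) - 11 / (6 * π ^ 2) * (a j * log 3)) =
        bb k - bb 0 - 11 / (6 * π ^ 2) * ((e k - e 0) * log 3) := fun k => by
      induction k with
      | zero => simp
      | succ k ih => rw [sum_range_succ, ih, s1, b1]; push_cast; ring
    have g4 : Tendsto (fun k => (e k : ℝ) * log 3) atTop atTop :=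
      (tendsto_natCast_atTop_atTop.comp top).atTop_mul_const (by linarith)
    have g5 := g1.sum_range (fun j => by positivity) (by
      simp only [g2, sub_mul]
      exact tendsto_atTop_add_const_right _ _ g4)
    simp only [g2, g3] at g5
    have g6 : (fun k => ((e k : ℝ) - e 0) * log 3) =O[atTop] fun k => (e k : ℝ) * log 3 :=
      .of_bound' (.of_forall fun k => by
        have : (e 0 : ℝ) ≤ e k := by exact_mod_cast s2 k.zero_le
        rw [Real.norm_of_nonneg (by nlinarith), Real.norm_of_nonneg (by positivity)]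
        nlinarith [e0 0])
    have g7 := ((g5.trans_isBigO g6).tendsto_div_nhds_zero.add (g4.const_div_atTop
      (bb 0 - 11 / (6 * π ^ 2) * (e 0 * log 3)))).add_const (11 / (6 * π ^ 2))
    rw [add_zero, zero_add] at g7
    refine g7.congr fun k => ?_
    have := e0 k
    rw [log_pow]
    field_simp
    ring
  · have g1 : ∀ k, (e k : ℝ) ≤ e 0 * (11 / 10) ^ k := fun k => by
      induction k with
      | zero => simp
      | succ k ih =>
        have : (10 : ℝ) * a k ≤ e k := by exact_mod_cast t4 k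
        rw [s1, pow_succ]
        push_cast
        linarith
    have g2 := (tendsto_pow_atTop_nhds_zero_of_lt_one (show (0 : ℝ) ≤ 11 / 10 * (2 / 3) by norm_num)
      (by norm_num)).const_mul (e 0 : ℝ)
    rw [mul_zero] at g2
    refine squeeze_zero (fun k => mul_nonneg (by linarith [b2 k, e0 k]) (by positivity))
      (fun k => ?_) g2
    rw [mul_pow, ← mul_assoc]
    exact mul_le_mul_of_nonneg_right ((b2 k).2.trans (g1 k)) (by positivity)

end Pool.Agent.Lib.MP_7f377f_mp.RG.Q4.En
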