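import Pool.Agent.Lib.MP_7f377f_mp.Q4EG
import Pool.Agent.Lib.MP_7f377f_mp.Q4ESch
import Pool.Agent.Lib.MP_7f377f_mp.Q4EDf
import Pool.Agent.Lib.MP_7f377f_mp.Q4Step
import Pool.Agent.Lib.MP_7f377f_mp.Q4Sh
import Pool.Agent.Lib.MP_7f377f_mp.Q4Real

/-! The flow through many levels: the parameters exist. -/

noncomputable section

namespace Pool.Agent.Lib.MP_7f377f_mp.RG.Q4.En

open Filter Topology

theorem qc_aF (φ : Fld → ℂ) : qc φ (Af.aF 1) (Af.aF 1) = qc φ e1 e1 := by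
  have : cc (Af.aF 1) = cc e1 := by
    rw [cc_pt, cc_pt, e1, dd_pt (as_EE _)]
    congr 1
    funext μ ν
    rw [Af.dd_aF]
    fin_cases μ <;> fin_cases ν <;> simp [kF, EE, EZ]
  rw [qc, qc, this]

theorem ev_st2 (c : ℕ) : ∀ᶠ S in ev c, St2 S := by
  filter_upwards [step_K c, step_id c, pl_ps c, pl_lin c, ol_ps c, step_hol c, step_real c,
    step_cov c] with S a1 a2 a3 a4 a5 a6 a7 a8
  exact ⟨a1, a2, a3, fun b b' k k' ψ ψ' K K' t h1 h2 h3 h4 =>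
    (a4 b b' k k' ψ ψ' K K' t h1 h2 h3 h4).1, ⟨a5.1, a5.2.1⟩,
    fun b θ k Ω ψ K h1 h2 h3 h4 => (a6 b θ k Ω ψ K h1 h2 h3 h4).1, a7,
    fun b θ k ψ K h1 h2 => (a8 b θ k ψ K h1 h2).1⟩

theorem sd_ex {c K B : ℕ} (Kt K0 l : ℕ) (hc : 1 ≤ c) (hB : 1000 * K ≤ B) : ∃ S : Sd, S.Ok ∧
    S.c = c ∧ S.Kt = Kt ∧ S.K0 = K0 ∧ S.K = K ∧ S.B = B ∧ S.l = l := by
  have h : (1 : ℝ) ≤ LL l := by unfold LL; exact_mod_cast Nat.le_add_left _ _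
  refine ⟨⟨⟨c, Kt, K0, l, 0, 0, 0⟩, K, B, LL l, 2 * (1000 * LL l ^ K0) + 1,
    ((LL l : ℝ) ^ K) ^ 1000, ((LL l : ℝ) ^ K) ^ 1000⟩, ⟨hc, .inl rfl, ⟨_, rfl⟩, ?_, le_rfl, le_rfl,
    le_mul_of_one_le_left (by positivity) one_le_two, ?_⟩, rfl, rfl, rfl, rfl, rfl, rfl⟩
  · show 1000 * LL l ^ K0 ≤ 2 * (1000 * LL l ^ K0) + 1
    omega
  · show ((LL l : ℝ) ^ K) ^ 1000 ≤ (LL l : ℝ) ^ B
    rw [← pow_mul]
    exact pow_le_pow_right₀ h (by omega)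

/-- a slowly growing function -/
theorem slow_ex (F : ℕ → ℕ) (b : ℕ) : ∃ B : ℕ → ℕ, (∀ t, b ≤ B t) ∧ Monotone B ∧
    (∀ t, B (t + 1) ≤ B t + 1) ∧ Tendsto B atTop atTop ∧ ∀ t, F (B t) ≤ max (F b) t := by
  obtain ⟨B, h0, h1⟩ : ∃ B : ℕ → ℕ, B 0 = b ∧
      ∀ t, B (t + 1) = if F (B t + 1) ≤ t + 1 then B t + 1 else B t :=
    ⟨fun t => Nat.rec b (fun t x => if F (x + 1) ≤ t + 1 then x + 1 else x) t, rfl, fun _ => rfl⟩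
  have m : Monotone B := monotone_nat_of_le_succ fun t => by rw [h1]; split_ifs <;> omega
  refine ⟨B, fun t => h0 ▸ m t.zero_le, m, fun t => by rw [h1]; split_ifs <;> omega,
    tendsto_atTop_atTop_of_monotone m fun n => ?_, fun t => ?_⟩
  · induction n with
    | zero => exact ⟨0, Nat.zero_le _⟩
    | succ n ih =>
      obtain ⟨t, ht⟩ := ih
      have a := ht.trans (m (le_max_left t (F (n + 1))))
      refine a.eq_or_lt.elim (fun e => ⟨max t (F (n + 1)) + 1, ?_⟩) fun e => ⟨_, e⟩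
      rw [h1, ← e, if_pos (by omega)]
  · induction t with
    | zero => rw [h0]; omega
    | succ t ih => rw [h1]; split_ifs <;> omega

theorem exists_gl2 {c : ℕ} (h1 : TL c) (h2 : AF c) (P : Set Sd) (hP : P ∈ ev c) (B1 l1 : ℕ) :
    ∃ G : Gl, l1 ≤ G.l0 ∧ B1 * G.K + B1 ≤ G.B0 ∧ G.c = c ∧
      (∀ S : Sd, S.Ok → S.c = G.c → S.Kt = G.Kt → S.K0 = G.K0 → S.K = G.K →
        S.B = 4 * G.B S.l → G.l0 ≤ S.l → S.TOk → S ∈ P) ∧ ∀ m, Odd m → Gl.Ok { G with m := m } := by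
  obtain ⟨c1, l2, h1⟩ := h1
  obtain ⟨bn, κ, h2⟩ := h2
  have H : ∀ᶠ S in ev0 c, (S.TOk → S ∈ P) ∧ Tendsto (fun l => bn S.Kt S.K0 S.K l /
      Real.log (LL l)) atTop (𝓝 (11 / (6 * Real.pi ^ 2))) ∧
      All (κ S.Kt S.K0 S.K) (bn S.Kt S.K0 S.K) S := by
    filter_upwards [ev_iff.1 (show ∀ᶠ S in ev c, S ∈ P from hP), h2, ev_nu c 100,
      ev_iff.1 (ev_st2 c), tree_step c, ev_df c, ev_bd c, ev_c, ev_l fun _ _ _ _ => l2,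
      ev_iff.1 (step_tor_cov c)] with S a0 a1 a2 a3 a4 a5 a6 a7 a8 a9
    exact ⟨a0, a1.1, a2, a3, a4, a5, a6, fun t e1 e2 => h1 t (e1.trans a7) (a8.trans e2.ge),
      fun N t i1 i2 => by rw [← qc_aF]; exact a1.2 N t i1 i2, a9⟩
  obtain ⟨Kt, H⟩ := H
  obtain ⟨K0, H⟩ := H Kt le_rfl
  obtain ⟨K1, H⟩ := H K0 le_rfl
  obtain ⟨K, k1, k2⟩ : ∃ K, K1 ≤ K ∧ 1 ≤ K := ⟨K1 + 1, by omega, by omega⟩
  obtain ⟨B0, b1, b2⟩ : ∃ B0, B1 * K + B1 ≤ B0 ∧ 4000 * K + κ Kt K0 K + K0 + 2 ≤ B0 :=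
    ⟨_, le_max_left _ _, le_max_right _ _⟩
  choose F H using H K k1
  obtain ⟨B, m0, m1, m2, m3, m4⟩ := slow_ex (fun b => F (4 * b)) B0
  obtain ⟨l0, i1, i2, i3⟩ : ∃ l0, l1 ≤ l0 ∧ F (4 * B0) ≤ l0 ∧ 500 ≤ l0 :=
    ⟨l1 + F (4 * B0) + 500, by omega, by omega, by omega⟩
  obtain ⟨S, o, e0, e1, e2, e3, e4, e5⟩ := sd_ex (K := K) (B := 4 * B0) Kt K0 (F (4 * B0)) c1
    (by omega)
  have h := (H _ S o e0 e1 e2 e3 e4 e5.ge).2.1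
  rw [e1, e2, e3] at h
  obtain ⟨e, bb, hs⟩ := sched K B0 l0 k2 (by omega) m0 m1 m2 m3 h
  have i4 : ∀ l, l0 ≤ l → F (4 * B (Nat.log 3 (LL l))) ≤ l := fun l hl => (m4 _).trans
    (max_le (i2.trans hl) (Nat.lt_succ_iff.1 (Nat.log_lt_of_lt_pow' (by omega) (by
      have : l < 3 ^ l := Nat.lt_pow_self (by norm_num)
      unfold LL; omega))))
  refine ⟨⟨c, Kt, K0, K, B0, κ Kt K0 K, l0, 1, e, bb, bn Kt K0 K, _⟩, i1, b1, rfl,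
    fun S o e0 e1 e2 e3 e4 e5 => (H _ S o e0 e1 e2 e3 e4 (i4 _ e5)).1, fun m hm =>
    ⟨hs, fun S o e0 e1 e2 e3 e4 e5 => ?_, c1, i3, b2, hm⟩⟩
  have h := (H _ S o e0 e1 e2 e3 e4 (i4 _ e5)).2.2
  rwa [e1, e2, e3] at h

theorem exists_gl {c : ℕ} (h1 : TL c) (h2 : AF c) (l1 : ℕ) :
    ∃ G : Gl, l1 ≤ G.l0 ∧ ∀ m, Odd m → Gl.Ok { G with m := m } :=
  (exists_gl2 h1 h2 _ univ_mem 0 l1).imp fun _ h => ⟨h.1, h.2.2.2.2⟩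

end Pool.Agent.Lib.MP_7f377f_mp.RG.Q4.En
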