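import Pool.Agent.Lib.MP_7f377f_mp.Q4EG
import Pool.Agent.Lib.MP_7f377f_mp.Q4ETv

/-! The limit is not trivial; the final statement from tuned runs and their convergence. -/

noncomputable section

namespace Pool.Agent.Lib.MP_7f377f_mp.RG.Q4.En

open Finset Real Filter Topology MeasureTheory

theorem Gl.Ok.l_le {G : Gl} (h : G.Ok) (k : ℕ) : (G.l0 : ℝ) ≤ G.L k := by
  have := h.sch.big k
  exact_mod_cast (by unfold Gl.L Gl.l LL; omega : G.l0 ≤ G.L k)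

theorem Gl.Ok.L_b {G : Gl} (h : G.Ok) (k : ℕ) : (G.L k : ℝ) ≤ G.bb k := by
  simpa using h.Lb k (i := 1) (by have := h.B1; omega)

theorem nont : ∃ θ > (0 : ℝ), ∃ (C : ℝ) (l1 : ℕ), ∀ G : Gl, G.Ok → l1 ≤ G.l0 → ∀ b J, G.Tu b J →
    ∀ j ≤ J, ∀ x μ ν, μ ≠ ν →
      θ ≤ (lawOf (G.N j) (G.f b J j)).real {U | θ * G.g j ≤ fq U x μ ν} ∧
        ∀ M > 0, (lawOf (G.N j) (G.f b J j)).real {U | M * G.g j ≤ fq U x μ ν} ≤ C / M := by
  obtain ⟨c, C, c0, c1, H⟩ := maj_main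
  obtain ⟨θ, θ0, C', H'⟩ := nontriv C c0 c1
  refine ⟨θ, θ0, C', ⌈max C' θ⁻¹⌉₊, fun G h hl b J A j hj => ?_⟩
  have d := A.gd j hj
  obtain ⟨f1, f2, f3⟩ := (h.f_facts J j).1 b A.b0
  have l1 : max C' θ⁻¹ ≤ G.L j := ((Nat.le_ceil _).trans (Nat.cast_le.2 hl)).trans (h.l_le j)
  have g0 := h.g0 j
  have q1 := h.Q1 j
  have k : ∀ {i}, i ≤ 2000 → G.Q j ^ i * G.g j ≤ 1 := fun hi =>
    (mul_le_mul_of_nonneg_right (pow_le_pow_right₀ q1 hi) g0.le).trans (h.Qg j)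
  have g1 : G.g j ≤ 1 := by simpa using k (i := 0) (by norm_num)
  have w : G.Q j ^ 100 * √(G.g j) ≤ 1 :=
    (mul_le_mul_of_nonneg_right (pow_le_pow_right₀ q1 (by norm_num)) (sqrt_nonneg _)).trans (h.Qsg j)
  have e := h.sl_nf j (G.zz b J j)
  have z : Sz (G.sl j (G.zz b J j)).p (G.sl j (G.zz b J j)).nf (G.sl j (G.zz b J j)).QM
      (G.sl j (G.zz b J j)).g 1 1 √(G.g j) (G.zz b J j).ψ (G.zz b J j).K := e ▸ d.dt.sz
  obtain ⟨κ, k1, k2⟩ := z.2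
  have lf := h.lf d.tz
  refine H' _ _ _ (h.N_odd j) ((le_max_left _ _).trans (l1.trans ((h.L_b j).trans (h.bN j)))) f1 f2 f3
    g0 ?_ ?_ (e ▸ H _ _ _ _ _ κ _ _ _ lf ⟨?_, ?_, z.pu lf.nu w, k1, k2⟩ (e ▸ d.dt.re) d.dt.rp)
  · have := mul_le_mul_of_nonneg_right (((le_max_right _ _).trans l1).trans (h.LQ j)) g0.le
    rw [← pow_one (G.Q j)] at this
    rw [← mul_one θ, ← inv_mul_le_iff₀ θ0]
    exact this.trans (k (by norm_num))
  · have b1 : 1 ≤ G.bb j := by linarith [h.L1 j, h.L_b j]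
    rw [← log_inv, Gl.g, inv_inv]
    exact (log_le_self (sqrt_nonneg _)).trans (((sqrt_le_left (by linarith)).2 (by nlinarith)).trans
      (h.bN j))
  · change G.Q j ^ 100 * (G.Q j ^ 10 * (1 + 1) * G.g j ^ 2) ≤ 1
    have := h.cQ j (C := 2) (by norm_num)
    calc _ = 2 * G.g j * (G.Q j ^ 110 * G.g j) := by ring
      _ ≤ G.Q j ^ 1 * G.g j * 1 := by rw [pow_one]; gcongr; exact k (by norm_num)
      _ ≤ 1 := by rw [mul_one]; exact k (by norm_num)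
  · change G.Q j ^ 100 * (√(G.g j) * 1 * G.g j ^ 2) ≤ 1
    rw [mul_one, ← mul_assoc]
    exact mul_le_one₀ w (sq_nonneg _) (pow_le_one₀ g0.le g1)

open YM4 in
/-- the final statement from tuned runs and their convergence -/
theorem main_of (ex : ∀ l1 : ℕ, ∃ G : Gl, l1 ≤ G.l0 ∧ G.m = 1 ∧ G.Ok ∧ (∀ J, ∃ b, G.Tu b J) ∧
      ∀ j, ∀ η > 0, ∃ J0, ∀ J J' b b', J0 ≤ J → J ≤ J' → G.Tu b J → G.Tu b' J' →
        ∀ A, MeasurableSet A →
          |(lawOf (G.N j) (G.f b J j)).real A - (lawOf (G.N j) (G.f b' J' j)).real A| ≤ η)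
    [MeasurableSpace SU2] [BorelSpace SU2]
    (h : Measure SU2) [h.IsHaarMeasure] [IsProbabilityMeasure h] :
    ∃ (e : ℕ → ℕ) (a β : ℕ → ℝ) (μ : ∀ j, Measure (Cfg (3 ^ e j))), StrictMono e ∧
      Tendsto (fun j => a j / e j) atTop atTop ∧
      Tendsto (fun j => β j / log (3 ^ e j)) atTop (𝓝 (11 / (6 * π ^ 2))) ∧
      (∀ j, IsProbabilityMeasure (μ j) ∧
        μ j = step h (a j) (3 ^ (e (j + 1) - e j) / 2) (μ (j + 1))) ∧
      (∀ j, ∀ η > 0, ∃ k0, ∀ k ≥ k0, ∀ A, MeasurableSet A →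
        |(law h e a β k j).real A - (μ j).real A| ≤ η) ∧
      ∃ c > 0, ∀ j x i k, i ≠ k → c ≤ (μ j).real {U | c ≤ e j * curv U x i k ^ 2} ∧
        ∀ M > 0, (μ j).real {U | M ≤ e j * curv U x i k ^ 2} ≤ 1 / (c * √M) := by
  obtain ⟨θ, θ0, C, l1, H⟩ := nont
  obtain ⟨G, hl, m1, o, run, conv⟩ := ex l1
  choose β hβ using run
  have eN : ∀ j, G.N j = 3 ^ G.e j := fun j => by rw [Gl.N, m1, one_mul]
  have tL : Tendsto (fun j => (G.L j : ℝ)) atTop atTop := tendsto_natCast_atTop_atTop.comp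
    (tendsto_atTop_mono (fun j => by unfold Gl.L Gl.l LL; omega) o.sch.top)
  have e0 : ∀ j, (0 : ℝ) < G.e j := fun j => (o.b0 j).trans_le (o.sch.cmp j).2
  refine ⟨G.e, G.a, β, ?_⟩
  obtain ⟨μ, hμ⟩ := final_of h (β := β) (g := G.g) o.sch.mono.monotone o.a0 (fun j => (hβ j).b0)
    (fun j η hη => (conv j η hη).imp fun J0 k J J' a1 a2 => by
      simpa only [eN, Gl.f_den m1] using k J J' _ _ a1 a2 (hβ J) (hβ J'))
    (c := 10⁻¹) θ0 (by norm_num) o.g0 (fun j => by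
      have := o.bg j
      have := o.sch.cmp j
      have := sq_nonneg (G.g j)
      constructor <;> nlinarith)
    fun j J a => by simpa only [eN, Gl.f_den m1] using H G o hl _ J (hβ J) j a
  refine ⟨μ, o.sch.mono, tendsto_atTop_mono (fun j => ?_) tL, ?_, hμ⟩
  · rw [le_div_iff₀ (e0 j), Gl.a]
    have := o.L1 j
    have h1 : (G.e j : ℝ) ≤ 10 * G.bb (j + 1) := by linarith [(o.sch.cmp j).1, (o.sch.le j).1]
    nlinarith [mul_le_mul_of_nonneg_left h1 (by linarith : (0 : ℝ) ≤ G.L j),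
      mul_pos (o.b0 (j + 1)) (by linarith : (0 : ℝ) < G.L j)]
  · have t1 : Tendsto (fun j => β j / G.bb j) atTop (𝓝 1) := by
      refine tendsto_iff_norm_sub_tendsto_zero.2 (squeeze_zero (fun _ => norm_nonneg _)
        (fun j => ?_) (tendsto_inv_atTop_zero.comp tL))
      have := (hβ j).v j le_rfl
      rw [Gl.zz_top] at this
      exact this.trans (inv_anti₀ (by linarith [o.L1 j])
        ((o.LQ j).trans (le_self_pow₀ (o.Q1 j) (by norm_num))))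
    refine (one_mul (11 / (6 * π ^ 2) : ℝ) ▸ t1.mul o.sch.lim).congr fun j => ?_
    rw [div_mul_div_cancel₀ (o.b0 j).ne']

end Pool.Agent.Lib.MP_7f377f_mp.RG.Q4.En
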