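import Pool.Agent.Lib.MP_7f377f_mp.Q4ERp0
import Pool.Agent.Lib.MP_7f377f_mp.Q4FinB
import Pool.Agent.Lib.MP_7f377f_mp.Q4MeasLoc
import Pool.Agent.Lib.MP_7f377f_mp.Q4MeasInv
import Pool.Agent.Lib.MP_7f377f_mp.KitMix
import Pool.Agent.Lib.MP_7f377f_mp.WeakRP

/-! Block averaging preserves reflection positivity. -/

noncomputable section

namespace Pool.Agent.Lib.MP_7f377f_mp.RG.Q4.Rf

open MeasureTheory Measure Finset YM4 Fi Kit
open scoped ENNReal

section meas

variable {ι X : Type} [MeasurableSpace X] {ν : Measure X}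

theorem mp_dens {T : X → X} {d : X → ℝ≥0∞} (h : MeasurePreserving T ν ν) (hd : Measurable d)
    (e : ∀ x, d (T x) = d x) : MeasurePreserving T (ν.withDensity d) (ν.withDensity d) := by
  refine ⟨h.measurable, Measure.ext_of_lintegral _ fun F hF => ?_⟩
  rw [lintegral_map hF h.measurable, lintegral_withDensity_eq_lintegral_mul _ hd hF,
    lintegral_withDensity_eq_lintegral_mul _ hd (g := fun x => F (T x)) (hF.comp h.measurable),
    ← h.lintegral_comp (hd.mul hF)]
  simp only [Pi.mul_apply, e]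

theorem int_perm [Fintype ι] [IsProbabilityMeasure ν] {φ : ι → ι} (hφ : Function.Involutive φ)
    {T : ι → X → X} (hT : ∀ i, MeasurePreserving (T i) ν ν) {F : (ι → X) → ℝ} (hF : Measurable F) :
    ∫ v, F (fun i => T i (v (φ i))) ∂Measure.pi (fun _ => ν) = ∫ v, F v ∂Measure.pi fun _ => ν := by
  have e := Mx.map_rel ν (r := id) (φ := φ) hT (fun _ => rfl) (fun _ _ => hφ.injective.eq_iff)
    fun _ => rfl
  rw [infinitePi_eq_pi] at e
  exact (integral_map (φ := fun (v : ι → X) i => T i (v (φ i))) (measurable_pi_lambda _ fun i =>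
    (hT i).measurable.comp (measurable_pi_apply _)).aemeasurable hF.aestronglyMeasurable).symm.trans
      (congrArg (∫ v, F v ∂·) (e.trans map_id))

end meas

variable {m n l : ℕ} {k : Fin 4} {a : ℝ} {F G : Cfg n → ℝ} {U U' : Cfg m}

theorem lf_refl (U : Cfg n) : lf (YM4.refl k U) = rfl1 Inv.inv k (lf U) := funext fun e => by
  have h : ∀ z : ℤ, cst n (Function.update e.1 k z) = Function.update (cst n e.1) k z :=
    fun z => funext fun i => Function.apply_update (fun _ (x : ℤ) => (x : ZMod n)) _ _ _ _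
  simp only [lf, lift, YM4.refl, rfl1, h, Int.cast_sub, Int.cast_neg, Int.cast_one]
  rfl

theorem cst_rz (x : St) : cst n (Mx.rz k x) = Weak.rf k (cst n x) := funext fun i => by
  by_cases h : i = k <;> simp [cst, Mx.rz, Weak.rf, h]

variable [NeZero n]

/-- the fine field seen from the centre of a block -/
def lc (l : ℕ) (U : Cfg m) (y : Site n) : Conf := sh (up l (vl y)) (lf U)

theorem lc_cst (hm : LL l * n = m) (x : St) : lc l U (cst n x) = sh (up l x) (lf U) := by
  have : cst m (up l (rc n x)) = cst m (up l x) := by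
    rw [← cst_rc, ← hm, Mx.rc_cg (Mx.cg_up (Mx.cg_rc n x)), cst_rc]
  funext e
  simp only [lc, sh, lf, lift, vl_cst, cst_add, this]

theorem lf_block (hm : LL l * n = m) (ω : Site n → Om) :
    lf (block l U ω) = blk l (lf U) fun x => ω (cst n x) := by
  have := blk_lift l hm U fun x => ω (cst n x)
  simp only [cst_vl] at this
  rw [← this]
  funext e
  have e1 := lc_cst (U := U) hm e.1
  simp only [lc] at e1
  simp only [lf, lift, rs, res, blk, pcs, cst_rc, cst_add, cst_vl]
  exact congrArg (av l e.2 · _ _) e1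

theorem block_eq (hm : LL l * n = m) (ω : Site n → Om) (b : Site n × Fin 4) :
    block l U ω b = av l b.2 (lc l U b.1) (ω b.1) (ω (b.1 + Pi.single b.2 1)) := by
  have := congrFun (lf_block (U := U) hm ω) (vl b.1, b.2)
  simp only [lf, lift, blk, cst_vl, cst_add, cst_un1] at this
  exact this

theorem block_refl (hm : LL l * n = m) (ω : Site n → Om) :
    block l (YM4.refl k U) (fun y => Mx.orf k (ω (Weak.rf k y))) = YM4.refl k (block l U ω) := by
  rw [← rs_lf (block _ _ _), ← rs_lf (YM4.refl k (block _ _ _)), lf_refl, lf_block hm, lf_block hm,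
    lf_refl, Mx.blk_rfl k l _ (ω := fun x => ω (cst n x)) fun y => by rw [Mx.orf_orf, cst_rz]]

theorem wt_refl (hm : LL l * n = m) (y : Site n) (o : Om) :
    wt l (lc l (YM4.refl k U) y) (Mx.orf k o) = wt l (lc l U (Weak.rf k y)) o := by
  rw [lc, lf_refl, Mx.sh_rfl, Mx.wt_rfl, Mx.orf_orf, Mx.rz_up, ← lc_cst hm, cst_rz, cst_vl]

/-- the law of the noise -/
def ns (a : ℝ) : Measure SU2 := tr (haar.withDensity fun g => ENNReal.ofReal (hk a g))

/-- average over the noise -/
def nz (a : ℝ) (F : Cfg n → ℝ) (B : Cfg n) : ℝ := ∫ ξ, F (ξ * B) ∂Measure.pi fun _ => ns a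

/-- average over the base data of the blocks in `T` and over the noise -/
def kr (T : Finset (Site n)) (a : ℝ) (l : ℕ) (F : Cfg n → ℝ) (U : Cfg m) : ℝ :=
  ∫ ω, (∏ y ∈ T, wt l (lc l U y) (ω y)) * nz a F (block l U ω) ∂Measure.pi fun _ => unO l

instance (l : ℕ) : IsProbabilityMeasure (unO l) := (wt_int l 1).2.2

omit [NeZero n] in
theorem bm_wt (T : Finset (Site n)) :
    BM fun v : Cfg m × (Site n → Om) => ∏ y ∈ T, wt l (lc l v.1 y) (v.2 y) :=
  ⟨Finset.measurable_prod _ fun y _ => meas2 (wt l) (measurable_wt l)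
    ((Ms.cont_sh _).measurable.comp (meas_lf.comp measurable_fst))
    ((measurable_pi_apply y).comp measurable_snd), ∏ _y ∈ T, (LL l : ℝ) ^ 4, fun v => by
      rw [abs_of_nonneg (prod_nonneg fun y _ => ((wt_int l _).1 _).1)]
      exact prod_le_prod (fun y _ => ((wt_int l _).1 _).1) fun y _ => ((wt_int l _).1 _).2⟩

theorem int_wt (T : Finset (Site n)) :
    ∫ ω, ∏ y ∈ T, wt l (lc l U y) (ω y) ∂Measure.pi (fun _ => unO l) = 1 := by
  classical
  have := integral_fintype_prod_eq_prod (μ := fun _ : Site n => unO l)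
    fun y o => if y ∈ T then wt l (lc l U y) o else 1
  simp only [Fintype.prod_ite_mem] at this
  refine this.trans (prod_eq_one fun y _ => ?_)
  split_ifs
  exacts [(wt_int l _).2.1, by simp]

theorem meas_bl (hm : LL l * n = m) :
    Measurable fun v : Cfg m × (Site n → Om) => block l v.1 v.2 :=
  measurable_from_prod_countable_left (meas_block l hm)

variable (ha : 0 ≤ a)
include ha

omit [NeZero n] in
theorem prob_ns : IsProbabilityMeasure (ns a) := prob_noise ha

theorem bm_nz (hF : BM F) : BM (nz a F) := by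
  have := prob_ns ha
  obtain ⟨h, M, hM⟩ := hF
  exact ⟨((h.comp (measurable_snd.mul measurable_fst)).stronglyMeasurable.integral_prod_right'
    (ν := Measure.pi fun _ => ns a)).measurable, M, fun B => by
      simpa [nz] using norm_integral_le_of_norm_le_const (μ := Measure.pi fun _ => ns a)
        (f := fun ξ => F (ξ * B)) (C := M) (.of_forall fun ξ => hM (ξ * B))⟩

theorem bm_itg (hm : LL l * n = m) (T : Finset (Site n)) (hF : BM F) :
    BM fun v : Cfg m × (Site n → Om) =>
      (∏ y ∈ T, wt l (lc l v.1 y) (v.2 y)) * nz a F (block l v.1 v.2) :=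
  have h := bm_nz ha hF
  (bm_wt T).mul ⟨h.1.comp (meas_bl hm), h.2.imp fun _ e _ => e _⟩

theorem bm_kr (hm : LL l * n = m) (T : Finset (Site n)) (hF : BM F) :
    BM (kr T a l F : Cfg m → ℝ) := by
  obtain ⟨h, M, hM⟩ := bm_itg ha hm T hF
  exact ⟨(h.stronglyMeasurable.integral_prod_right' (ν := Measure.pi fun _ => unO l)).measurable,
    M, fun U => by
      simpa [kr] using norm_integral_le_of_norm_le_const (μ := Measure.pi fun _ => unO l)
        (f := fun ω => (∏ y ∈ T, wt l (lc l U y) (ω y)) * nz a F (block l U ω)) (C := M)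
        (.of_forall fun ω => hM (U, ω))⟩

theorem int_step (hm : LL l * n = m) (μ : Measure (Cfg m)) [IsProbabilityMeasure μ] (hG : BM G) :
    ∫ V, G V ∂step (tr haar) a l μ = ∫ U, kr univ a l G U ∂μ := by
  classical
  have := prob_ns ha
  have mW := (bm_wt (m := m) (l := l) (univ : Finset (Site n))).1
  have mΦ : Measurable fun v : (Cfg m × (Site n → Om)) × Cfg n => v.2 * block l v.1.1 v.1.2 :=
    measurable_snd.mul ((meas_bl hm).comp measurable_fst)
  have e := abs_step μ (Measure.pi fun _ : Site n => unO l)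
    (Measure.pi fun _ : Site n × Fin 4 => ns a) (i := id) (r := id) id
    (fun ω => ∏ y, unO l {ω y}) (E := fun ω U => ENNReal.ofReal (∏ y, wt l (lc l U y) (ω y)))
    (Ψ := fun ω v => v.2 * block l v.1 ω) measurable_id mW.ennreal_ofReal mΦ measurable_id
    (fun ω => (mW.comp measurable_prodMk_right).ennreal_ofReal)
    (fun ω => measurable_snd.mul ((meas_block l hm ω).comp measurable_fst))
    (fun H => by simp only [id, lintegral_countable', pi_singleton]) (fun _ _ => rfl)
    fun _ _ _ => rfl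
  have eD : ∀ (U : Cfg m) (ω : Site n → Om),
      ENNReal.ofReal (∏ y, wt l (lc l U y) (ω y)) * ∏ y, unO l {ω y} =
      ∏ y, if (ω y).1 ∈ base l U (ctr l y) then
        (24 * (base l U (ctr l y)).card : ℝ≥0∞)⁻¹ else 0 := fun U ω => by
    rw [ENNReal.ofReal_prod_of_nonneg fun y _ => ((wt_int l _).1 _).1, ← prod_mul_distrib]
    refine prod_congr rfl fun y _ => ?_
    rw [unO_single, lc, wt_lift, cst_up l hm]
  simp only [map_id, eD] at e
  have fin : IsFiniteMeasure ((μ.prod (Measure.pi fun _ : Site n => unO l)).withDensity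
      fun v => ENNReal.ofReal (∏ y, wt l (lc l v.1 y) (v.2 y))) :=
    isFiniteMeasure_withDensity_ofReal ((bm_wt univ).int _).2
  refine (congrArg (∫ V, G V ∂·) e).symm.trans ?_
  rw [integral_map mΦ.aemeasurable hG.1.aestronglyMeasurable,
    integral_prod (fun v : (Cfg m × (Site n → Om)) × Cfg n => G (v.2 * block l v.1.1 v.1.2))
      (BM.int ⟨hG.1.comp mΦ, hG.2.imp fun _ e _ => e _⟩ _),
    integral_withDensity_eq_integral_toReal_smul mW.ennreal_ofReal (by simp)]
  refine Eq.trans (integral_congr_ae (.of_forall fun v => ?_))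
    (integral_prod _ ((bm_itg ha hm univ hG).int _))
  exact congrArg (· * _) (ENNReal.toReal_ofReal (prod_nonneg fun y _ => ((wt_int l _).1 _).1))

theorem nz_refl (hF : Measurable F) (B : Cfg n) :
    nz a (fun V => F (YM4.refl k V)) B = nz a F (YM4.refl k B) := by
  have := prob_ns ha
  have : haar.IsInvInvariant := Weak.haar_inv haar
  have : haar.IsMulRightInvariant := Weak.haar_right haar
  have c : ∀ u : S3, MeasurePreserving (fun g : S3 => u⁻¹ * g⁻¹ * u)
      (haar.withDensity fun g => ENNReal.ofReal (hk a g))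
      (haar.withDensity fun g => ENNReal.ofReal (hk a g)) := fun u => mp_dens (((measurePreserving_mul_right haar u).comp
      (measurePreserving_mul_left haar u⁻¹)).comp (measurePreserving_inv haar))
      (Mx.cont_hk a).measurable.ennreal_ofReal fun g => congrArg _
        ((by simpa using Mx.hk_conj a u⁻¹ g⁻¹ : hk a (u⁻¹ * g⁻¹ * u) = _).trans (Mx.hk_inv a g))
  refine Eq.trans (integral_congr_ae (.of_forall fun ξ => congrArg F (funext fun b => ?_)))
    (int_perm (Weak.rl_rl k) (T := fun b => if b.2 = k then fun g =>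
      (B (Weak.rl k b))⁻¹ * g⁻¹ * B (Weak.rl k b) else id) (fun b => ?_)
      (F := fun ξ => F (ξ * YM4.refl k B)) (hF.comp (measurable_id.mul_const _)))
  · simp only [refl_eq, Weak.refl, Pi.mul_apply]
    split_ifs
    · group
    · rfl
  · split_ifs
    exacts [c _, MeasurePreserving.id _]

theorem kr_refl (hm : LL l * n = m) (hF : BM F) :
    kr univ a l (fun V => F (YM4.refl k V)) U = kr univ a l F (YM4.refl k U) := by
  refine Eq.trans (integral_congr_ae (.of_forall fun ω => ?_)) (int_perm (Weak.rf_rf k)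
    (T := fun _ => Mx.orf k) (fun _ => Mx.mp_unO l (Function.Involutive.bijective (Mx.orf_orf k))
      fun ω => Mx.rz_box _ _) .of_discrete)
  simp only [nz_refl ha hF.1, block_refl hm, wt_refl hm]
  rw [← Equiv.prod_comp (Function.Involutive.toPerm _ (Weak.rf_rf k))]
  rfl

omit ha

/-- links on one side -/
def Sl (n : ℕ) (k : Fin 4) : Set (Site n × Fin 4) :=
  {b | 2 ≤ (b.1 k).val ∧ 2 * (b.1 k).val + 6 ≤ n}

/-- their end points -/
def Sv (n : ℕ) [NeZero n] (k : Fin 4) : Finset (Site n) :=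
  univ.filter fun y => 2 ≤ (y k).val ∧ 2 * (y k).val + 4 ≤ n

theorem val_one {x : ZMod n} (h : x.val + 1 < n) : (x + 1).val = x.val + 1 := by
  rw [← ZMod.val_cast_of_lt h, Nat.cast_add, ZMod.natCast_zmod_val, Nat.cast_one]

theorem val_neg {x : ZMod n} (h : 0 < x.val) : (-x).val = n - x.val := by
  rw [ZMod.neg_val, if_neg fun e => by simp [e] at h]

theorem Sl_end {b : Site n × Fin 4} (h : b ∈ Sl n k) :
    b.1 ∈ Sv n k ∧ b.1 + Pi.single b.2 1 ∈ Sv n k := by
  obtain ⟨h1, h2⟩ := h
  simp only [Sv, mem_filter, mem_univ, true_and, Pi.add_apply, Pi.single_apply]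
  split_ifs
  · rw [val_one (by omega)]; omega
  · rw [add_zero]; omega

theorem Sl_rl {b : Site n × Fin 4} (h : b ∈ Sl n k) : Weak.rl k b ∉ Sl n k := by
  obtain ⟨h1, h2⟩ := h
  simp only [Sl, Weak.rl, Set.mem_ofPred_eq]
  split_ifs
  · rw [show Weak.rc k b.1 k = -(b.1 k + 1) by simp [Weak.rc, Weak.rf]; ring,
      val_neg (by rw [val_one (by omega)]; omega), val_one (by omega)]
    omega
  · rw [show Weak.rf k b.1 k = -b.1 k by simp [Weak.rf], val_neg (by omega)]
    omega

theorem Sv_rf {y : Site n} (h : y ∈ Sv n k) : Weak.rf k y ∉ Sv n k := by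
  simp only [Sv, mem_filter, mem_univ, true_and] at h ⊢
  rw [show Weak.rf k y k = -y k by simp [Weak.rf], val_neg (by omega)]
  omega

theorem nz_dep (hF : DependsOn F (Sl n k)) : DependsOn (nz a F) (Sl n k) := fun _ _ h =>
  integral_congr_ae (.of_forall fun ξ => hF fun b hb => congrArg (ξ b * ·) (h b hb))

theorem bl_dep (hm : LL l * n = m) (hF : DependsOn F (Sl n k)) :
    DependsOn (fun ω : Site n → Om => nz a F (block l U ω)) (Sv n k) := fun _ _ h =>
  nz_dep hF fun b hb => by
    rw [block_eq hm, block_eq hm, h _ (Sl_end hb).1, h _ (Sl_end hb).2]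

theorem split (T : Finset (Site n)) {f g : (Site n → Om) → ℝ} (hf : DependsOn f T)
    (hg : DependsOn g (T : Set _)ᶜ) :
    ∫ ω, (∏ y, wt l (lc l U y) (ω y)) * (f ω * g ω) ∂Measure.pi (fun _ => unO l) =
      (∫ ω, (∏ y ∈ T, wt l (lc l U y) (ω y)) * f ω ∂Measure.pi fun _ => unO l) *
        ∫ ω, (∏ y ∈ Tᶜ, wt l (lc l U y) (ω y)) * g ω ∂Measure.pi fun _ => unO l := by
  rw [← indep_dep _ (s := T) (fun _ _ h => by
    rw [hf h, prod_congr rfl fun y hy => by rw [h y hy]]) fun _ _ h => by
      rw [hg h, prod_congr rfl fun y hy => by rw [h y (mem_compl.1 hy)]]]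
  simp only [← prod_mul_prod_compl T, mul_mul_mul_comm]

theorem kr_eq (hm : LL l * n = m) (hF : DependsOn F (Sl n k)) :
    kr univ a l F U = kr (Sv n k) a l F U := by
  simpa only [kr, mul_one, int_wt] using split (U := U) (l := l) _ (bl_dep (a := a) hm hF)
    (g := fun _ => 1) fun _ _ _ => rfl

theorem kr_dep (hl : 2 ≤ l) (hm : LL l * n = m) (hF : DependsOn F (Sl n k)) :
    DependsOn (kr (Sv n k) a l F : Cfg m → ℝ) (Sl m k) := fun U U' h => by
  have A : ∀ y ∈ Sv n k, Agr (3 * l + 1) (lc l U y) (lc l U' y) := fun y hy e he => by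
    obtain ⟨h1, h2⟩ := (mem_filter.1 hy).2
    have h3 := mem_box.1 (mem_lbox.1 he) k
    obtain ⟨s, hs⟩ := Int.eq_ofNat_of_zero_le (show 0 ≤ e.1 k + (2 * l + 1) * (y k).val by
      zify at h1 hl
      push_cast at h3
      nlinarith)
    have h4 : 2 ≤ s ∧ 2 * s + 6 ≤ m := by
      rw [← hm, LL]
      zify at *
      constructor <;> nlinarith
    have h5 : cst m (e.1 + up l (vl y)) k = s := by
      rw [cst_add, cst_up l hm, ← Int.cast_natCast, ← hs]
      simp [cst, ctr]
    refine h _ ?_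
    simpa only [Sl, Set.mem_ofPred_eq, h5, ZMod.val_cast_of_lt (show s < m by omega)] using h4
  refine integral_congr_ae (.of_forall fun ω => ?_)
  dsimp only
  rw [prod_congr rfl fun y hy => Mx.wt_agr (A y hy) (ω y)]
  by_cases e : ∏ y ∈ Sv n k, wt l (lc l U' y) (ω y) = 0
  · rw [e, zero_mul, zero_mul]
  · rw [nz_dep hF fun b hb => ?_]
    rw [block_eq hm, block_eq hm, Mx.av_agr (A _ (Sl_end hb).1) _
      (Mx.wt_mem (prod_ne_zero_iff.1 e _ (Sl_end hb).1))
      (Mx.wt_mem (prod_ne_zero_iff.1 e _ (Sl_end hb).2))]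

theorem kr_mul (ha : 0 ≤ a) (hm : LL l * n = m) (hF : BM F) (d : DependsOn F (Sl n k)) :
    kr univ a l (fun V => F V * F (YM4.refl k V)) U = kr univ a l F U * kr univ a l F (YM4.refl k U) := by
  have := prob_ns ha
  have e : ∀ B, nz a (fun V => F V * F (YM4.refl k V)) B = nz a F B * nz a (fun V => F (YM4.refl k V)) B :=
    fun B => indep_dep _ (s := Sl n k) (fun _ _ h => d fun b hb => congrArg (· * B b) (h b hb))
      fun _ _ h => d fun b hb => by simp only [refl_eq, Weak.refl, Pi.mul_apply, h _ (Sl_rl hb)]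
  have g : DependsOn (fun ω : Site n → Om => nz a (fun V => F (YM4.refl k V)) (block l U ω))
      (Sv n k : Set _)ᶜ := fun _ _ h => by
    simp only [nz_refl ha hF.1, ← block_refl hm]
    exact bl_dep hm d fun y hy => congrArg _ (h _ (Sv_rf hy))
  have e2 := split (U := U) (l := l) _ (f := fun _ => 1) (fun _ _ _ => rfl) g
  simp only [mul_one, one_mul, int_wt] at e2
  rw [← kr_refl ha hm hF, kr_eq hm d, kr, kr, kr, e2, ← split _ (bl_dep hm d) g]
  simp only [e]

end Pool.Agent.Lib.MP_7f377f_mp.RG.Q4.Rf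

namespace Pool.Agent.Lib.MP_7f377f_mp.YM4

open MeasureTheory RG RG.Q4 Rf

theorem rp_step {m n : ℕ} [ms : MeasurableSpace SU2] [BorelSpace SU2] (h : Measure SU2)
    [h.IsHaarMeasure] [IsProbabilityMeasure h] {k : Fin 4} [NeZero n] [NeZero m] {a : ℝ} {l : ℕ}
    (ha : 0 ≤ a) (hl : 2 ≤ l) (hn : Odd n) (hm : (2 * l + 1) * n = m) (μ : Measure (Cfg m))
    [IsProbabilityMeasure μ] (H : RP k μ) : RP k (step h a l μ : Measure (Cfg n)) := by
  have _ := hn
  obtain rfl : ms = Fi.mS := BorelSpace.measurable_eq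
  have : (Fi.tr haar).IsHaarMeasure := (inferInstance : haar.IsHaarMeasure)
  obtain rfl := Measure.isHaarMeasure_eq_of_isProbabilityMeasure h (Fi.tr haar)
  intro F f1 f2 f3
  have b : Kit.BM F := ⟨f1, f2⟩
  rw [int_step ha hm μ (G := fun V => F V * F (refl k V))
    (b.mul ⟨f1.comp meas_refl, f2.imp fun _ e _ => e _⟩)]
  simp only [kr_mul ha hm b f3, kr_eq hm f3]
  exact H _ (bm_kr ha hm _ b).1 (bm_kr ha hm _ b).2 (kr_dep hl hm f3)

end Pool.Agent.Lib.MP_7f377f_mp.YM4
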