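import Pool.Agent.Lib.MP_7f377f_mp.Q4EndM
import Pool.Agent.Lib.MP_7f377f_mp.Q4EFinA
import Pool.Agent.Lib.MP_7f377f_mp.Q4ECv
import Pool.Agent.Lib.MP_7f377f_mp.Q4EEx
import Pool.Agent.Lib.MP_7f377f_mp.Q4AfY
import Pool.Agent.Lib.MP_7f377f_mp.Q4ERun
import Pool.Agent.Lib.MP_7f377f_mp.Q4ERp

/-! The continuum limit on the four dimensional tori. -/

noncomputable section

namespace Pool.Agent.Lib.MP_7f377f_mp.RG.Q4.En

open Finset Real Filter Topology MeasureTheory YM4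

theorem Gl.Ok.tL {G : Gl} (o : G.Ok) : Tendsto (fun j => (G.L j : ℝ)) atTop atTop :=
  tendsto_natCast_atTop_atTop.comp
    (tendsto_atTop_mono (fun j => by unfold Gl.L Gl.l LL; omega) o.sch.top)

theorem Gl.Ok.a_top {G : Gl} (o : G.Ok) : Tendsto (fun j => G.a j / G.e j) atTop atTop := by
  refine tendsto_atTop_mono (fun j => ?_) o.tL
  rw [le_div_iff₀ ((o.b0 j).trans_le (o.sch.cmp j).2), Gl.a]
  have := o.L1 j
  have h1 : (G.e j : ℝ) ≤ 10 * G.bb (j + 1) := by linarith [(o.sch.cmp j).1, (o.sch.le j).1]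
  nlinarith [mul_le_mul_of_nonneg_left h1 (by linarith : (0 : ℝ) ≤ G.L j),
    mul_pos (o.b0 (j + 1)) (by linarith : (0 : ℝ) < G.L j)]

theorem Gl.Ok.b_lim {G : Gl} (o : G.Ok) {β : ℕ → ℝ} (hβ : ∀ J, G.Tu (β J) J) :
    Tendsto (fun j => β j / log (G.N j)) atTop (𝓝 (11 / (6 * π ^ 2))) := by
  have t1 : Tendsto (fun j => β j / G.bb j) atTop (𝓝 1) := by
    refine tendsto_iff_norm_sub_tendsto_zero.2 (squeeze_zero (fun _ => norm_nonneg _)
      (fun j => ?_) (tendsto_inv_atTop_zero.comp o.tL))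
    have := (hβ j).v j le_rfl
    rw [Gl.zz_top] at this
    exact this.trans (inv_anti₀ (by linarith [o.L1 j])
      ((o.LQ j).trans (le_self_pow₀ (o.Q1 j) (by norm_num))))
  have t2 : Tendsto (fun j => log ((3 : ℝ) ^ G.e j)) atTop atTop :=
    tendsto_log_atTop.comp ((tendsto_pow_atTop_atTop_of_one_lt (by norm_num)).comp
      o.sch.mono.tendsto_atTop)
  have t3 := (((t2.const_div_atTop (log G.m)).add_const 1).inv₀ (by norm_num)).mul (t1.mul o.sch.lim)
  simp only [zero_add, inv_one, one_mul] at t3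
  refine t3.congr' ((t2.eventually_gt_atTop 0).mono fun j hj => ?_)
  have m0 : (G.m : ℝ) ≠ 0 := Nat.cast_ne_zero.2 o.odd.pos.ne'
  simp only [Gl.N, Nat.cast_mul, Nat.cast_pow, Nat.cast_ofNat, log_mul m0 (pow_pos three_pos _).ne']
  rw [div_mul_div_cancel₀ (o.b0 j).ne', div_add_one hj.ne', inv_div, mul_comm,
    div_mul_div_cancel₀ hj.ne']

theorem main_m [MeasurableSpace SU2] [BorelSpace SU2] (h : Measure SU2) [h.IsHaarMeasure]
    [IsProbabilityMeasure h] :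
    ∃ (e : ℕ → ℕ) (a : ℕ → ℝ) (c : ℝ), StrictMono e ∧ Tendsto (fun j => a j / e j) atTop atTop ∧
      0 < c ∧ ∀ (m : ℕ) (n l : ℕ → ℕ) [∀ j, NeZero (n j)], Odd m → (∀ j, n j = m * 3 ^ e j) →
        (∀ j, n (j + 1) = (2 * l j + 1) * n j) → ∃ (β : ℕ → ℝ) (μ : ∀ j, Measure (Cfg (n j))),
      Tendsto (fun j => β j / log (n j)) atTop (𝓝 (11 / (6 * π ^ 2))) ∧
      (∀ j, IsProbabilityMeasure (μ j) ∧ μ j = step h (a j) (l j) (μ (j + 1))) ∧
      (∀ j, ∀ η > 0, ∃ k0, ∀ k ≥ k0, ∀ A, MeasurableSet A →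
        |(flow h n l a β k j).real A - (μ j).real A| ≤ η) ∧
      (∀ j, (∀ x, (μ j).map (shift x) = μ j) ∧ (∀ σ, (μ j).map (perm σ) = μ j) ∧
        (∀ k, (μ j).map (YM4.refl k) = μ j) ∧ ∀ u, (μ j).map (YM4.gauge u) = μ j) ∧
      (∀ j k, RP k (μ j)) ∧
      ∀ j x i k, i ≠ k → c ≤ (μ j).real {U | c ≤ e j * curv U x i k ^ 2} ∧
        ∀ M > 0, (μ j).real {U | M ≤ e j * curv U x i k ^ 2} ≤ 1 / (c * √M) := by
  obtain ⟨θ, θ0, C, l1, H⟩ := nont
  obtain ⟨c, h1⟩ := tree_lin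
  obtain ⟨G, hl, ho⟩ := exists_gl h1 (Af.af_all h1) l1
  have o1 := ho 1 odd_one
  have C0 : 0 < C := by
    obtain ⟨b, hb⟩ := o1.run 0
    have := H _ o1 hl b 0 hb 0 le_rfl 0 0 1 (by decide)
    exact lt_of_lt_of_le (by positivity) ((le_div_iff₀ θ0).1 (this.1.trans (this.2 θ θ0)))
  refine ⟨G.e, G.a, min (min θ (θ ^ 2 * 10⁻¹)) (√10⁻¹ / C), o1.sch.mono, o1.a_top, by positivity,
    fun m n l _ hm hn hs => ?_⟩
  have o := ho m hm
  obtain rfl : n = Gl.N { G with m := m } := funext hn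
  obtain rfl : l = Gl.l { G with m := m } := funext fun j => by
    have := Nat.eq_of_mul_eq_mul_right (o.N_odd j).pos ((hs j).symm.trans (o.N_succ j).symm)
    unfold Gl.L LL at this
    omega
  choose β hβ using o.run
  obtain ⟨p, μ, a1, a2, a3, a4⟩ := final_m h o (β := β) (fun j => (hβ j).b0)
    (fun j η hη => (o.conv j η hη).imp fun J0 k J J' a1 a2 => k J J' _ _ a1 a2 (hβ J) (hβ J'))
    (c := 10⁻¹) θ0 (by norm_num) (fun j => by
      have := o.bg j
      have := o.sch.cmp j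
      have := sq_nonneg (Gl.g { G with m := m } j)
      constructor <;> nlinarith)
    fun j J a => H _ o hl _ J (hβ J) j a
  refine ⟨β, μ, o.b_lim hβ, a1, a2, a3, fun j i => ?_, a4⟩
  have r : ∀ k j, RP i (flow h (Gl.N { G with m := m }) (Gl.l { G with m := m })
      (Gl.a { G with m := m }) β k j) :=
    fun k => by
      induction k with
      | zero => exact fun j => rp_wilson h (hβ j).b0
      | succ k ih =>
        intro j
        have := p k (j + 1)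
        exact rp_step h (o.a0 j) (le_trans (by have := o.l1; omega) (o.sch.big j)) (o.N_odd j)
          (o.N_succ j) _ (ih _)
  have := (a1 j).1
  exact rp_lim _ fun η hη => let ⟨k, hk⟩ := a2 j η hη; ⟨_, p k j, r k j, hk k le_rfl⟩

end Pool.Agent.Lib.MP_7f377f_mp.RG.Q4.En
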