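import Pool.Agent.Lib.MP_7f377f_mp.YM4DefsM
import Pool.Agent.Lib.MP_7f377f_mp.OddYM

/-! Reflection positivity of the Wilson measure and of limits in total variation. -/

noncomputable section

namespace Pool.Agent.Lib.MP_7f377f_mp.YM4

open MeasureTheory Set

theorem int_le_of_tv {Ω : Type} [MeasurableSpace Ω] {μ ν : Measure Ω} [IsProbabilityMeasure μ]
    [IsProbabilityMeasure ν] {η B : ℝ} (h : ∀ A, MeasurableSet A → |ν.real A - μ.real A| ≤ η)
    {G : Ω → ℝ} (hG : Measurable G) (hB : ∀ U, |G U| ≤ B) (B0 : 0 ≤ B) :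
    ∫ U, G U ∂ν ≤ ∫ U, G U ∂μ + 2 * B * η := by
  have i : ∀ (ρ : Measure Ω) [IsProbabilityMeasure ρ], ∫ U, G U ∂ρ + B =
      ∫ t in Ioc 0 (2 * B), ρ.real {U | t ≤ G U + B} := fun ρ _ => by
    have j : Integrable G ρ := .of_bound hG.aestronglyMeasurable B (.of_forall hB)
    rw [← Integrable.integral_eq_integral_Ioc_meas_le (f := fun U => G U + B)
      (j.add (integrable_const B))
      (.of_forall fun U => neg_le_iff_add_nonneg.1 (abs_le.1 (hB U)).1)
      (.of_forall fun U => by linarith [(abs_le.1 (hB U)).2]), integral_add j (integrable_const B)]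
    simp
  have j : ∀ (ρ : Measure Ω) [IsProbabilityMeasure ρ],
      IntegrableOn (fun t => ρ.real {U | t ≤ G U + B}) (Ioc 0 (2 * B)) := fun ρ _ => by
    have a : Antitone fun t => ρ.real {U | t ≤ G U + B} := fun s t hst =>
      measureReal_mono (fun U hU => hst.trans hU) (measure_ne_top _ _)
    exact Measure.integrableOn_of_bounded (M := 1) measure_Ioc_lt_top.ne
      a.measurable.aestronglyMeasurable
      (.of_forall fun t => (abs_of_nonneg measureReal_nonneg).trans_le measureReal_le_one)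
  have c : IntegrableOn (fun _ : ℝ => η) (Ioc 0 (2 * B)) := integrableOn_const measure_Ioc_lt_top.ne
  have k := setIntegral_mono (j ν) ((j μ).add c) fun t => by
    have := (abs_le.1 (h {U | t ≤ G U + B} (measurableSet_le measurable_const (by fun_prop)))).2
    simp only [Pi.add_apply]
    linarith
  rw [integral_add' (j μ) c, ← i, ← i] at k
  simp [B0] at k
  linarith

variable {m n : ℕ}

theorem refl_eq (k : Fin 4) (U : Cfg n) : refl k U = Weak.refl k U := by
  funext b
  have e : ∀ c, Function.update b.1 k (-b.1 k - c) = Weak.rf k b.1 - Pi.single k c := fun c => by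
    funext l; by_cases h : l = k <;> simp [Weak.rf, h]
  have e0 := e 0
  by_cases h : b.2 = k <;> simp only [refl, Weak.refl, Weak.rl, Weak.rc, h, if_true, if_false, e]
  rw [sub_zero, Pi.single_zero, sub_zero] at e0
  rw [e0]

variable [MeasurableSpace SU2]

/-- reflection positivity -/
def RP (k : Fin 4) (μ : Measure (Cfg n)) : Prop := ∀ F : Cfg n → ℝ, Measurable F →
  (∃ M, ∀ U, |F U| ≤ M) → DependsOn F {b | 2 ≤ (b.1 k).val ∧ 2 * (b.1 k).val + 6 ≤ n} →
    0 ≤ ∫ U, F U * F (refl k U) ∂μ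

variable [BorelSpace SU2] (h : Measure SU2) [h.IsHaarMeasure] [IsProbabilityMeasure h] {k : Fin 4}

theorem meas_refl : Measurable (refl (n := n) k) := measurable_pi_lambda _ fun b => by
  unfold refl
  split_ifs <;> fun_prop

theorem rp_wilson [NeZero n] {β : ℝ} (hβ : 0 ≤ β) : RP k (wilson h β n) := fun F h1 h2 h3 => by
  simp only [refl_eq]
  exact YM5.wilson_rp4 h hβ k ⟨h1, h2⟩ fun U V e => h3 fun b hb =>
    e b ⟨by have := hb.2; omega, fun _ => by have := hb.2; omega⟩

theorem rp_lim [NeZero n] (μ : Measure (Cfg n)) [IsProbabilityMeasure μ]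
    (H : ∀ η > (0 : ℝ), ∃ ν : Measure (Cfg n), IsProbabilityMeasure ν ∧ RP k ν ∧
      ∀ A, MeasurableSet A → |ν.real A - μ.real A| ≤ η) : RP k μ := fun F h1 ⟨M, h2⟩ h3 => by
  have M0 : 0 ≤ M := (abs_nonneg _).trans (h2 1)
  refine le_of_forall_pos_le_add fun ε ε0 => ?_
  obtain ⟨ν, _, r, t⟩ := H (ε / (2 * (M * M + 1))) (by positivity)
  refine (r F h1 ⟨M, h2⟩ h3).trans ((int_le_of_tv t (B := M * M + 1) (G := fun U => F U * F (refl k U))
    (h1.mul (h1.comp meas_refl)) (fun U => ?_) (by positivity)).trans_eq (by field_simp))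
  rw [abs_mul]
  linarith [mul_le_mul (h2 U) (h2 (refl k U)) (abs_nonneg _) M0]

end Pool.Agent.Lib.MP_7f377f_mp.YM4
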