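import Pool.Agent.Lib.MP_7f377f_mp.YM4Defs

/-! Symmetries of the discrete tori and iterated block averaging. -/

noncomputable section

namespace Pool.Agent.Lib.MP_7f377f_mp.YM4

open MeasureTheory

variable {n : ℕ}

/-- translation -/
def shift (x : Site n) (U : Cfg n) : Cfg n := fun b => U (b.1 + x, b.2)

/-- permutation of the axes -/
def perm (σ : Equiv.Perm (Fin 4)) (U : Cfg n) : Cfg n := fun b => U (b.1 ∘ σ.symm, σ b.2)

/-- the reflection `x k ↦ - x k` -/
def refl (k : Fin 4) (U : Cfg n) : Cfg n := fun b =>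
  if b.2 = k then (U (Function.update b.1 k (-b.1 k - 1), k))⁻¹
  else U (Function.update b.1 k (-b.1 k), b.2)

/-- gauge transformation -/
def gauge (u : Site n → SU2) (U : Cfg n) : Cfg n :=
  fun b => u b.1 * U b * (u (b.1 + Pi.single b.2 1))⁻¹

/-- law on the torus of side `n j` of the Wilson field on the torus of side `n (j + k)` averaged
`k` times; the step from level `j + 1` to level `j` has blocks of side `2 l j + 1` -/
def flow [MeasurableSpace SU2] (h : Measure SU2) (n l : ℕ → ℕ) [∀ j, NeZero (n j)] (a β : ℕ → ℝ) :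
    (k j : ℕ) → Measure (Cfg (n j))
  | 0, j => wilson h (β j) (n j)
  | k + 1, j => step h (a j) (l j) (flow h n l a β k (j + 1))

end Pool.Agent.Lib.MP_7f377f_mp.YM4
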