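import Pool.Agent.Lib.MP_7f377f_mp.Q4EG
import Pool.Agent.Lib.MP_7f377f_mp.YM4DefsM

/-! The continuum limit on all tori from the convergence and the bounds of the densities. -/

noncomputable section

namespace Pool.Agent.Lib.MP_7f377f_mp.RG.Q4.En

open MeasureTheory Measure Finset YM4 Ms Fi Real Filter
open scoped Quaternion ENNReal Topology

variable {n : ℕ} {f : Conf → ℂ}

theorem inv_lim {X : Type} [MeasurableSpace X] {μ : Measure X} [IsProbabilityMeasure μ] {T : X → X}
    (mT : Measurable T) (H : ∀ η > (0 : ℝ), ∃ ν : Measure X, IsProbabilityMeasure ν ∧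
      ν.map T = ν ∧ ∀ A, MeasurableSet A → |ν.real A - μ.real A| ≤ η) : μ.map T = μ := by
  have := isProbabilityMeasure_map (μ := μ) mT.aemeasurable
  refine Measure.ext fun A hA => (measureReal_eq_measureReal_iff (by finiteness) (by finiteness)).1
    (eq_of_abs_sub_nonpos (le_of_forall_pos_le_add fun η hη => ?_))
  obtain ⟨ν, _, h1, h2⟩ := H (η / 2) (by linarith)
  have a := abs_le.1 (h2 A hA)
  have b := abs_le.1 (h2 _ (mT hA))
  rw [← map_measureReal_apply mT hA, h1] at b
  rw [map_measureReal_apply mT hA, abs_le]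
  constructor <;> linarith

theorem law_inv {T : Conf → Conf} {T' : Cfg n → Cfg n} (mT : Measurable T) (_mT' : Measurable T')
    (h1 : PP.map (fun U => T (pc n U)) = PP.map (pc n)) (hf : Measurable f)
    (h2 : ∀ U, Per n U → f (T U) = f U) [NeZero n] (h3 : ∀ V, Fi.lf (T' V) = T (Fi.lf V)) :
    ((lawOf n f).map (rs n)).map T' = (lawOf n f).map (rs n) := by
  have a : (lawOf n f).map T = lawOf n f := Measure.ext_of_lintegral _ fun F hF => by
    have m : Measurable fun U => ENNReal.ofReal (f U).re * F U :=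
      (Complex.measurable_re.comp hf).ennreal_ofReal.mul hF
    rw [lintegral_map hF mT, Mx.lint_lawOf n hf (G := fun U => F (T U)) (hF.comp mT),
      Mx.lint_lawOf n hf hF, ← lintegral_map m meas_pc, ← h1,
      lintegral_map m (g := fun U => T (pc n U)) (mT.comp meas_pc)]
    simp only [h2 _ (per_pc n _)]
  conv_rhs => rw [← a, ← fix_law f, map_map mT meas_lf, map_map meas_rs (mT.comp meas_lf)]
  congr 1
  funext V
  simp only [Function.comp, ← h3, rs_lf]

theorem meas_shift (x : Site n) : Measurable (shift x) :=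
  measurable_pi_lambda _ fun _ => measurable_pi_apply _

theorem meas_perm (σ : Equiv.Perm (Fin 4)) : Measurable (perm (n := n) σ) :=
  measurable_pi_lambda _ fun _ => measurable_pi_apply _

theorem meas_refl (k : Fin 4) : Measurable (YM4.refl (n := n) k) := measurable_pi_lambda _ fun b => by
  unfold YM4.refl
  split_ifs
  exacts [(measurable_pi_apply _).inv, measurable_pi_apply _]

theorem meas_gauge (u : Site n → SU2) : Measurable (YM4.gauge u) := measurable_pi_lambda _ fun _ =>
  ((measurable_pi_apply _).const_mul _).mul_const _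

theorem cst_upd (x : St) (k : Fin 4) (a : ℤ) :
    cst n (Function.update x k a) = Function.update (cst n x) k (a : ZMod n) :=
  funext fun i => Function.apply_update (fun _ (a : ℤ) => (a : ZMod n)) x k a i

theorem law_sym [NeZero n] (h : GI n f) (s : Sym n f) :
    (∀ x, ((lawOf n f).map (rs n)).map (shift x) = (lawOf n f).map (rs n)) ∧
    (∀ σ, ((lawOf n f).map (rs n)).map (perm σ) = (lawOf n f).map (rs n)) ∧
    (∀ k, ((lawOf n f).map (rs n)).map (YM4.refl k) = (lawOf n f).map (rs n)) ∧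
    ∀ u, ((lawOf n f).map (rs n)).map (YM4.gauge u) = (lawOf n f).map (rs n) := by
  refine ⟨fun x => law_inv (cont_sh (vl x)).measurable (meas_shift x) (Mx.map_sh n _) h.1
    (fun U hU => (s U hU).1 _) fun V => funext fun e => ?_, fun σ => law_inv (Mx.cont_pm σ).measurable
    (meas_perm σ) (Mx.map_pm n σ) h.1 (fun U hU => (s U hU).2.1 σ) fun V => rfl,
    fun k => law_inv (measurable_pi_lambda _ fun b => ?_) (meas_refl k) (Mx.map_rfl n k) h.1
      (fun U hU => (s U hU).2.2 k) fun V => funext fun e => ?_, fun u => ?_⟩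
  · simp only [Fi.lf, lift, shift, sh, cst_add, cst_vl]
  · unfold rfl1
    split_ifs
    exacts [(measurable_pi_apply _).inv, measurable_pi_apply _]
  · simp only [Fi.lf, lift, YM4.refl, rfl1, cst_upd, Int.cast_sub, Int.cast_neg, Int.cast_one]
    rfl
  · have p : Q4.PS n fun x => (u (cst n x) : S3) := fun x v => congrArg u (funext fun i => by
      simp [cst])
    refine law_inv (mp_gauge _).measurable (meas_gauge u) (Mx.map_gauge (Mx.PS_iff.1 p)) h.1
      (fun U hU => h.2.2 _ U p hU) fun V => funext fun e => ?_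
    simp only [Fi.lf, lift, YM4.gauge, RG.gauge, cst_add, cst_un1]
    rfl

/-- the statement on discrete tori -/
theorem final_m [m : MeasurableSpace SU2] [BorelSpace SU2] (h : Measure SU2) [h.IsHaarMeasure]
    [IsProbabilityMeasure h] {G : Gl} (o : G.Ok) [∀ j, NeZero (G.N j)] {β : ℕ → ℝ}
    (hβ : ∀ j, 0 ≤ β j)
    (hc : ∀ j, ∀ η > 0, ∃ J0, ∀ J J', J0 ≤ J → J ≤ J' → ∀ A, MeasurableSet A →
      |(lawOf (G.N j) (G.f (β J) J j)).real A - (lawOf (G.N j) (G.f (β J') J' j)).real A| ≤ η)
    {θ C c : ℝ} (θ0 : 0 < θ) (c0 : 0 < c)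
    (hg : ∀ j, c ≤ G.g j ^ 2 * G.e j ∧ c * (G.g j ^ 2 * G.e j) ≤ 1)
    (hn : ∀ j J, j ≤ J → ∀ x μ ν, μ ≠ ν →
      θ ≤ (lawOf (G.N j) (G.f (β J) J j)).real {U | θ * G.g j ≤ fq U x μ ν} ∧
        ∀ M > 0, (lawOf (G.N j) (G.f (β J) J j)).real {U | M * G.g j ≤ fq U x μ ν} ≤ C / M) :
    (∀ k j, IsProbabilityMeasure (flow h G.N G.l G.a β k j)) ∧ ∃ μ : ∀ j, Measure (Cfg (G.N j)),
      (∀ j, IsProbabilityMeasure (μ j) ∧ μ j = step h (G.a j) (G.l j) (μ (j + 1))) ∧
      (∀ j, ∀ η > 0, ∃ k0, ∀ k ≥ k0, ∀ A, MeasurableSet A →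
        |(flow h G.N G.l G.a β k j).real A - (μ j).real A| ≤ η) ∧
      (∀ j, (∀ x, (μ j).map (shift x) = μ j) ∧ (∀ σ, (μ j).map (perm σ) = μ j) ∧
        (∀ k, (μ j).map (YM4.refl k) = μ j) ∧ ∀ u, (μ j).map (YM4.gauge u) = μ j) ∧
      ∀ j x i k, i ≠ k → min (min θ (θ ^ 2 * c)) (√c / C) ≤ (μ j).real
        {U | min (min θ (θ ^ 2 * c)) (√c / C) ≤ G.e j * curv U x i k ^ 2} ∧
        ∀ M > 0, (μ j).real {U | M ≤ G.e j * curv U x i k ^ 2} ≤
          1 / (min (min θ (θ ^ 2 * c)) (√c / C) * √M) := by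
  obtain rfl : m = mS := BorelSpace.measurable_eq
  have : (tr haar).IsHaarMeasure := (inferInstance : haar.IsHaarMeasure)
  obtain rfl := Measure.isHaarMeasure_eq_of_isProbabilityMeasure h (tr haar)
  set lw : ℕ → ℕ → Measure Conf := fun k j => lawOf (G.N j) (G.f (β (j + k)) (j + k) j)
    with hlw
  have hf := fun J j => (o.f_facts J j).1 _ (hβ J)
  have ha := o.a0
  have he : ∀ j, LL (G.l j) * G.N j = G.N (j + 1) := o.N_succ
  have st : ∀ J j, stepM (G.l j) (G.a j) (G.N j) (lawOf (G.N (j + 1)) (G.f (β J) J (j + 1))) =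
      lawOf (G.N j) (TT (G.l j) (G.a j) (G.N j) (G.f (β J) J (j + 1))) := fun J j => by
    have := stepM_lawOf (l := G.l j) (ha j) (o.N_odd j) (f := G.f (β J) J (j + 1))
      (by rw [he]; exact (hf J _).1) (hf J _).2.2
    rw [he] at this
    exact this.1
  have pr : ∀ k j, IsProbabilityMeasure (lw k j) := fun k j =>
    Mx.lawOf_prob (hf _ j).1 fun U => ((hf _ j).2.2 U).2
  have rc : ∀ k j, lw (k + 1) j = stepM (G.l j) (G.a j) (G.N j) (lw k (j + 1)) := fun k j => by
    simp only [hlw]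
    rw [st, o.f_step _ (show j < j + (k + 1) by omega), show j + 1 + k = j + (k + 1) by ring]
  obtain ⟨μ, p, h1, h2⟩ := CE.family (fun (_ : Unit) k j => lw k j)
    (fun j => stepM (G.l j) (G.a j) (G.N j)) (fun _ => Set.univ) () (fun _ => trivial)
    (fun _ _ _ => le_rfl) (fun _ => pr) (fun j μ ν η _ _ h => by
      rcases eq_or_ne η ⊤ with rfl | hη
      · exact fun A _ => by simp
      have := stepM_prob (l := G.l j) (n := G.N j) (ha j) μ
      have := stepM_prob (l := G.l j) (n := G.N j) (ha j) ν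
      rw [← ENNReal.ofReal_toReal hη] at h ⊢
      exact le_of_abs (stepM_contr (ha j) μ ν (abs_of_le ENNReal.toReal_nonneg h)))
    (fun j _ _ k => rc k j) fun η hη j => by
      obtain ⟨η', -, h0, h1⟩ := ENNReal.lt_iff_exists_real_btwn.1 hη
      obtain ⟨J0, h⟩ := hc j η' (ENNReal.ofReal_pos.1 h0)
      refine ⟨j, le_rfl, J0, fun _ _ _ _ k hk k' hk' => CE.Le.mono (le_of_abs fun A hA => ?_) h1.le⟩
      rcases le_total k k' with h2 | h2
      · exact h _ _ (by omega) (by omega) A hA
      · rw [abs_sub_comm]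
        exact h _ _ (by omega) (by omega) A hA
  have h3 : ∀ j, ∀ η > 0, ∃ k0, ∀ k ≥ k0, ∀ A, MeasurableSet A →
      |(lw k j).real A - (μ j).real A| ≤ η := fun j η hη =>
    (h2 j _ (ENNReal.ofReal_pos.2 hη)).imp fun k0 h k hk => abs_of_le hη.le (h () trivial k hk).1
  have fx : ∀ j, ((μ j).map (rs (G.N j))).map Fi.lf = μ j := fun j => by
    rw [h1 j]
    exact fix_step ..
  have sr : ∀ j (ν : Measure Conf), IsProbabilityMeasure ν →
      (ν.map (rs (G.N (j + 1)))).map Fi.lf = ν → (stepM (G.l j) (G.a j) (G.N j) ν).map (rs _) =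
        step (tr haar) (G.a j) (G.l j) (ν.map (rs (G.N (j + 1)))) := fun j ν _ h => by
    have := isProbabilityMeasure_map (μ := ν) (meas_rs (n := G.N (j + 1))).aemeasurable
    rw [← step_res (ha j) _ (o.N_odd j) (he j), h]
  have lr : ∀ k j, (lw k j).map (rs _) = flow (tr haar) G.N G.l G.a β k j := fun k => by
    induction k with
    | zero => exact fun j => by simp only [hlw, add_zero, Gl.f_top, wilson_res _ (o.N_odd _), flow]
    | succ k ih => exact fun j => by rw [rc, sr j _ (pr _ _) (fix_law _), ih, flow]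
  have h4 : ∀ j, ∀ η > 0, ∃ k0, ∀ k ≥ k0, ∀ A, MeasurableSet A →
      |(flow (tr haar) G.N G.l G.a β k j).real A - ((μ j).map (rs _)).real A| ≤ η := fun j η hη => by
    refine (h3 j η hη).imp fun k0 h k hk A hA => ?_
    rw [← lr, map_measureReal_apply meas_rs hA, map_measureReal_apply meas_rs hA]
    exact h k hk _ (meas_rs hA)
  have C0 : θ * θ ≤ C := by
    have h := hn 0 0 le_rfl 0 0 1 (by decide)
    exact (le_div_iff₀ θ0).1 (h.1.trans (h.2 θ θ0))
  have C1 : 0 < C := lt_of_lt_of_le (by positivity) C0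
  refine ⟨fun k j => lr k j ▸ isProbabilityMeasure_map meas_rs.aemeasurable,
    fun j => (μ j).map (rs _), fun j => ⟨isProbabilityMeasure_map meas_rs.aemeasurable,
    (congrArg _ (h1 j)).trans (sr j _ (p _) (fx _))⟩, h4, fun j => ?_, fun j x i k hik => ?_⟩
  · have := isProbabilityMeasure_map (μ := μ j) (meas_rs (n := G.N j)).aemeasurable
    have q : ∀ {T : Cfg (G.N j) → Cfg (G.N j)}, Measurable T → (∀ k, ((lw k j).map (rs _)).map T =
        (lw k j).map (rs _)) → ((μ j).map (rs _)).map T = (μ j).map (rs _) := fun mT hT =>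
      inv_lim mT fun η hη => let ⟨k, h⟩ := h4 j η hη
        ⟨_, isProbabilityMeasure_map meas_rs.aemeasurable, hT k, lr k j ▸ h k le_rfl⟩
    have s := fun k => law_sym (hf (j + k) j).1 (hf (j + k) j).2.1
    exact ⟨fun x => q (meas_shift x) fun k => (s k).1 x, fun σ => q (meas_perm σ) fun k => (s k).2.1 σ,
      fun i => q (meas_refl i) fun k => (s k).2.2.1 i, fun u => q (meas_gauge u) fun k => (s k).2.2.2 u⟩
  have mS : ∀ t, MeasurableSet {U | t ≤ fq U (vl x) i k} := fun t =>
    measurableSet_le measurable_const (Fi.cont_fq _ i k).measurable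
  have e1 : ∀ t, (μ j).real {U | t ≤ fq U (vl x) i k} =
      ((μ j).map (rs (G.N j))).real {U | t ≤ curv U x i k} := fun t => by
    conv_lhs => rw [← fx j, map_measureReal_apply meas_lf (mS t)]
    simp only [Set.preimage_ofPred_eq, fq_lf, cst_vl]
  have : IsProbabilityMeasure ((μ j).map (rs (G.N j))) :=
    isProbabilityMeasure_map meas_rs.aemeasurable
  have hj := hg j
  have gj := o.g0 j
  have ej : (0 : ℝ) < G.e j := (pos_iff_pos_of_mul_pos (c0.trans_le hj.1)).1 (by positivity)
  refine ⟨((min_le_left _ _).trans (min_le_left _ _)).trans (le_trans ?_ (measureReal_mono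
    (s₁ := {U | θ * G.g j ≤ curv U x i k}) fun U hU => ?_)), fun M M0 => ?_⟩
  · rw [← e1]
    refine le_of_forall_pos_le_add fun η hη => ?_
    obtain ⟨k0, h⟩ := h3 j η hη
    linarith [(hn j (j + k0) (by omega) (vl x) i k hik).1, 
      (abs_le.1 (h k0 le_rfl _ (mS (θ * G.g j)))).2]
  · refine le_trans (b := θ ^ 2 * c) ((min_le_left _ _).trans (min_le_right _ _)) ?_
    calc θ ^ 2 * c ≤ θ ^ 2 * (G.g j ^ 2 * G.e j) := by gcongr; exact hj.1
      _ = G.e j * (θ * G.g j) ^ 2 := by ring
      _ ≤ _ := by gcongr; exact hU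
  · calc _ ≤ ((μ j).map (rs (G.N j))).real {U | √c * √M * G.g j ≤ curv U x i k} := by
          refine measureReal_mono fun U hU => le_of_pow_le_pow_left₀ two_ne_zero (norm_nonneg _) ?_
          rw [mul_pow, mul_pow, sq_sqrt c0.le, sq_sqrt M0.le]
          refine le_of_mul_le_mul_left (le_trans ?_ hU) ej
          linarith [mul_le_mul_of_nonneg_left hj.2 M0.le]
      _ ≤ C / (√c * √M) := by
          rw [← e1]
          refine le_of_forall_pos_le_add fun η hη => ?_
          obtain ⟨k0, h⟩ := h3 j η hη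
          linarith [(hn j (j + k0) (by omega) (vl x) i k hik).2 (√c * √M) (by positivity),
            (abs_le.1 (h k0 le_rfl _ (mS (√c * √M * G.g j)))).1]
      _ = 1 / (√c / C * √M) := by field_simp
      _ ≤ _ := by
          gcongr
          exact min_le_right _ _

end Pool.Agent.Lib.MP_7f377f_mp.RG.Q4.En
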