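import Pool.Agent.Lib.MP_7f377f_mp.Q4PsE
import Pool.Agent.Lib.MP_7f377f_mp.Q4SmF

/-! The fine field as a function of the chart coordinates of the block field. -/

noncomputable section

namespace Pool.Agent.Lib.MP_7f377f_mp.RG.Q4

open Finset MeasureTheory

attribute [local irreducible] box lbox

variable {O : Od} {c c' r R R' : ℕ} {d δ ε g ζ ρ τ P e lam : ℝ} {b : Fld → Cf} {a : Fld → Fld}
  {ka : Fld → St → Kf} {B : Fld} {m : BF} {s : V →ₗ[ℝ] V}

section fam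

variable {Z : Type} [MeasurableSpace Z] {ν : Measure Z} {l : ℕ} {G : St → Z → Fld → Fld}

theorem Fam.mono {δ' e' ε' : ℝ} (F : Fam ν l R R' s δ e ε G) (h0 : δ' ≤ δ) (h1 : e ≤ e')
    (h2 : ε ≤ ε') : Fam ν l R R' s δ' e' ε' G where
  real x hx z B r v := F.real x hx z B r (v.mono le_rfl h0)
  hol x hx z A B Ω o v := F.hol x hx z A B Ω o fun t ht => (v t ht).mono le_rfl h0
  bd x hx z B d v hd := (F.bd x hx z B d v (hd.trans h0)).mono le_rfl
    (add_le_add (mul_le_mul_of_nonneg_right h1 v.nonneg) h2)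
  loc x hx z A B rA rB v := F.loc x hx z A B rA rB (v.mono le_rfl h0)
  ad u := (F.ad u).imp fun _ h => ⟨h.1, h.2.1, fun x hx z B r v v' =>
    h.2.2 x hx z B r (v.mono le_rfl h0) (v'.mono le_rfl h0)⟩
  meas x hx B v := F.meas x hx B (v.mono le_rfl h0)

theorem dd_cut {y : St} (hy : y ∈ box R) (A : Fld) (μ ν : Fin 4) :
    dd (cut (R + 1) A) y μ ν = dd A y μ ν := JS.dd_agr (agr_cut _ A) hy μ ν

theorem Fam.cut (F : Fam ν l R R' s δ e ε G) :
    Fam ν l R R' s δ e ε fun x z B => cut (R + 1) (G x z B) where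
  real x hx z B r v f k := by
    rw [RG.cut]
    split_ifs
    exacts [F.real x hx z B r v f k, rfl]
  hol x hx z A B Ω o v f hf := by simpa only [cut_of_mem _ hf] using F.hol x hx z A B Ω o v f hf
  bd x hx z B d v hd y hy μ ν := by
    rw [dd_sub, dd_cut hy, ← dd_sub]
    exact F.bd x hx z B d v hd y hy μ ν
  loc x hx z A B rA rB v q y hy μ ν := by
    rw [dd_cut hy, dd_cut hy, F.loc x hx z A B rA rB v q y hy]
  ad u := (F.ad u).imp fun _ h => ⟨h.1, h.2.1, fun x hx z B r v v' y hy μ ν => by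
    rw [← JS.cut_adF, dd_cut hy, dd_cut hy, h.2.2 x hx z B r v v' y hy]⟩
  meas x hx B v := measurable_pi_lambda _ fun f => by
    simp only [RG.cut]
    split_ifs
    exacts [(F.meas x hx B v).eval, measurable_const]

end fam

theorem zc_rot (ζ : ℝ) {u : S3} {T : E3 ≃ₗᵢ[ℝ] E3} (hT : ∀ v, cE (T v) = adq (cS u) (cE v))
    (z : Lk → E3) : zc ζ (fun f => T (z f)) = adF (fun _ => cS u) (zc ζ z) := funext fun f => by
  simp only [zc, adF, T.norm_map, hT]
  split_ifs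
  exacts [rfl, (adL _).map_zero.symm]

/-- the chart coordinates of the fine field -/
def fA (O : Od) (g ζ : ℝ) (a : Fld → Fld) (ka : Fld → St → Kf) (z : Lk → E3) (B : Fld) : Fld :=
  a B + (g : ℂ) • polK O.l O.Λ (pP O.N) ∅ (ka B) (zc ζ z)

theorem meas_fA (B : Fld) : Measurable fun z => fA O g ζ a ka z B := by
  have := polK_meas (l := O.l) (Λ := O.Λ) (p := pP O.N) (H := fun _ => ∅) (ka := fun _ => ka B)
    (fun _ => .const _) (fun _ _ _ _ _ => measurable_const) (Smo.meas_zc (ζ := ζ))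
  exact (this.const_smul (g : ℂ)).const_add (a B)

namespace Dk

variable (D : Dk O d δ ε b a ka) (hO : O.Ok c) (hδ : (LL O.l : ℝ) ^ (2 * c + 10) * δ ≤ 1)
  (hd : 10 * d ≤ δ) (g0 : 0 < g) (hζ : 0 < ζ)
include D hO hδ hd g0 hζ

theorem fA_le {α : ℝ} (hB : ∀ e, ‖B e‖ ≤ d) (ha : ∀ f, ‖a B f‖ ≤ α) (z : Lk → E3) (f : Lk) :
    ‖fA O g ζ a ka z B f‖ ≤ α + g * (LL O.l : ℝ) ^ (6 * c + 16) * ζ :=
  norm_add_le_of_le (ha f) ((D.smB hO hδ hd hB g0.le ∅ {f}).hP _ _ (Smo.zc_le hζ.le z) f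
    (mem_singleton_self f))

/-- the family of the push lemma -/
theorem fam (hy : En.Hy O.l r c' τ m s P) (hp : PtC O.l r lam s) (hP : R + 3 ≤ P)
    (ha : ∀ B d', 0 < d' → d' ≤ d → (∀ f, ‖B f‖ ≤ d') → ∀ f, ‖a B f‖ ≤ e * d') (e0 : 0 ≤ e)
    (he : P ^ 45 * d + e ≤ 1 / 2) (hR : r / 3 + (R / LL O.l + 1) + 1 ≤ R') (ρ0 : 0 ≤ ρ)
    (hρ : 3 * R' * ρ + 2 * (g * (LL O.l : ℝ) ^ (6 * c + 16) * ζ) ≤ d) :
    Fam (nuI ζ) O.l R R' s ρ (12 * R' * (P ^ 45 * d + e)) (8 * (g * (LL O.l : ℝ) ^ (6 * c + 16) * ζ))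
      fun x z B => Bx x (Uz O.l s (exF (cut R' (cg B))) (fA O g ζ a ka z (cut R' (cg B)))) := by
  obtain ⟨n, hn⟩ : ∃ n, n = g * (LL O.l : ℝ) ^ (6 * c + 16) * ζ := ⟨_, rfl⟩
  have n0 : 0 < n := by
    have := hO.LL_ge
    rw [hn]
    positivity
  have P1 := hy.one
  have d0 : 0 < d := lt_of_lt_of_le (by positivity) (hn ▸ hρ)
  have pw : ∀ k ≤ 45, ∀ d', 0 ≤ d' → d' ≤ d → P ^ k * d' ≤ 1 := fun k hk d' h0 h1 =>
    (mul_le_mul (pow_le_pow_right₀ P1 hk) h1 h0 (by positivity)).trans (by linarith)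
  have e1 : e ≤ 1 / 2 := by linarith [show 0 ≤ P ^ 45 * d by positivity]
  have P9 : P ≤ P ^ 9 := le_self_pow₀ P1 (by norm_num)
  have key : ∀ B d', Cv R' d' B → d' ≤ ρ → ∀ z, 3 * R' * d' + 2 * n ≤ d ∧
      (∀ f, ‖cut R' (cg B) f‖ ≤ 3 * R' * d' + 2 * n) ∧
      (∀ f, ‖fA O g ζ a ka z (cut R' (cg B)) f‖ ≤ e * (3 * R' * d' + 2 * n) + n) ∧
      ∀ f, ‖fA O g ζ a ka z (cut R' (cg B)) f‖ ≤ 3 * R' * d' + 2 * n := fun B d' v h1 z => by
    have d1 := v.nonneg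
    have h2 : 3 * R' * d' + 2 * n ≤ d := le_trans (by gcongr) (hn ▸ hρ)
    have h3 := fun f => (JS.cut_cg_bd v d1 f).trans (by linarith : _ ≤ 3 * R' * d' + 2 * n)
    have h4 := D.fA_le hO hδ hd g0 hζ (fun f => (h3 f).trans h2) (ha _ _ (by positivity) h2 h3) z
    rw [← hn] at h4
    refine ⟨h2, h3, h4, fun f => (h4 f).trans ?_⟩
    nlinarith [show 0 ≤ 3 * R' * d' by positivity]
  rw [← hn]
  have sm : ∀ B, Cv R' ρ B → ∀ f, ‖cut R' (cg B) f‖ ≤ d := fun B v f =>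
    ((key B ρ v le_rfl 0).2.1 f).trans (key B ρ v le_rfl 0).1
  have sa : ∀ z B, Cv R' ρ B → ∀ f, ‖fA O g ζ a ka z (cut R' (cg B)) f‖ ≤ d := fun z B v f =>
    ((key B ρ v le_rfl z).2.2.2 f).trans (key B ρ v le_rfl 0).1
  refine ⟨fun x _ z B rB v => ?_, fun x _ z A B Ω o v f hf => ?_, fun x hx z B d' v h1 => ?_,
    fun x _ z A B _ _ _ q y _ μ ν => by rw [cut_cg_loc q], fun u => ?_, fun x _ B _ => ?_⟩
  · obtain ⟨W, hW⟩ := JS.exF_real (JS.cut_cg_real (R := R') rB)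
    obtain ⟨-, a1, a2⟩ := D.re _ (sm B v) (JS.cut_cg_real rB)
    rw [← hW, ← En.Uz_real W (A := fA O g ζ a ka z _) fun f k => by
      simp [fA, a1 f k, polK_real (fun k => (Od.coeff_real O.N k).1) (fun y _ => a2 y)
        (Smo.zc_real z) f k]]
    exact Bx_real _ _
  · have dγ : Disc Ω fun t : ℂ => A + t • B := fun f => by
      simp only [Pi.add_apply, Pi.smul_apply]
      fun_prop
    obtain ⟨-, a1, a2⟩ := D.hol Ω _ o (JS.cut_cg_disc dγ R') fun t ht => sm _ (v t ht)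
    have dU := hy.Uz_disc (pw 9 (by norm_num) d d0.le le_rfl) (JS.cut_cg_disc dγ R')
      (A := fun t => fA O g ζ a ka z (cut R' (cg (A + t • B))))
      (fun f => (a1 f).add ((polK_disc a2 (disc_const _) f).const_smul (g : ℂ)))
      (fun t ht => sm _ (v t ht)) fun t ht => sa z _ (v t ht)
    have := JS.Bx_disc' (P := P ^ 9) (hy.p0.trans P9) d0.le
      (by rw [← pow_mul]; exact pw _ (by norm_num) d d0.le le_rfl) dU (fun t ht f =>
        (JS.near_one (hy.Uz_ap (pw 9 (by norm_num) d d0.le le_rfl) (sm _ (v t ht))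
          (sa z _ (v t ht)) f).2).trans (by
            nlinarith [pw 0 (by norm_num) d d0.le le_rfl, show 0 ≤ P ^ 9 * d by positivity]))
      (n := R + 1) (by push_cast; linarith) x f
    simpa only [cut_of_mem _ hf] using this
  · obtain ⟨k1, k2, k3, k4⟩ := key B d' v h1 z
    have d1 := v.nonneg
    obtain ⟨η, hη⟩ : ∃ η, η = 3 * R' * d' + 2 * n := ⟨_, rfl⟩
    have η0 : 0 ≤ η := by rw [hη]; positivity
    rw [← hη] at k1 k2 k3 k4
    generalize fA O g ζ a ka z (cut R' (cg B)) = A at *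
    have c1 := (JS.Bx_cz (P := P ^ 9) (hy.p0.trans P9)
      (by rw [← pow_mul]; exact pw _ (by norm_num) η η0 k1)
      (fun f => (hy.Uz_ap (pw 9 (by norm_num) η η0 k1) k2 k4 f).2) (n := R + 1)
      (by push_cast; linarith) x).1.cv
    have c2 : Cv R _ (sh x A) := Sm.cv fun f _ => k3 _
    have c3 := hp.lm (R := R) (d := 0) (B := cut R' (cg B) - B) le_rfl hx fun y hy μ ν => by
      rw [dd_sub, JS.dd_agr (JS.agr_mono (agr_cut R' _) hR) hy, dd_cg, sub_self, norm_zero]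
    rw [map_sub] at c3
    intro y hy μ ν
    have := ((c1.add c2).add c3) y hy μ ν
    refine le_trans (le_of_eq ?_) (this.trans ?_)
    · rw [show sh x (A + cxL (mu O.l s) (cut R' (cg B))) = sh x A + lm O.l s x (cut R' (cg B))
        from rfl, show sh x (cxL (mu O.l s) B) = lm O.l s x B from rfl] at *
      simp only [dd_add, dd_sub, dd_cg]
      congr 1
      abel
    · have : (P ^ 9) ^ 5 * η ^ 2 ≤ P ^ 45 * d * η := by
        rw [← pow_mul, sq, ← mul_assoc]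
        gcongr
      have h2 : (P ^ 45 * d + e) * n ≤ 1 / 2 * n := by gcongr
      nlinarith
  · obtain ⟨T, hT⟩ := exists_rot u
    refine ⟨fun z f => T (z f), (MeasurableEquiv.piCongrRight fun _ =>
      T.toHomeomorph.toMeasurableEquiv).measurableEmbedding, ?_, fun x _ z B rB v v' y _ μ ν => ?_⟩
    · have := Smo.nu_prob hζ
      exact ⟨measurable_pi_lambda _ fun f => T.continuous.measurable.comp (measurable_pi_apply f),
        (Measure.infinitePi_map_pi _ fun _ : Lk => T.continuous.measurable).trans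
          (by simp only [Smo.nu_rot, nuI])⟩
    · obtain ⟨-, a1, a2⟩ := D.ad u _ (sm B v) (JS.cut_cg_ad _ B ▸ sm _ v') (JS.cut_cg_real rB)
      have e1 : fA O g ζ a ka (fun f => T (z f)) (adF (fun _ => cS u) (cut R' (cg B))) =
          adF (fun _ => cS u) (fA O g ζ a ka z (cut R' (cg B))) := by
        rw [fA, fA, a1, zc_rot ζ hT, Ho.adF_add, Ho.adF_smul]
        exact congrArg (fun X : Fld => _ + (g : ℂ) • X)
          (polK_gauge (u := fun _ => cS u) (fun _ => uni_cS u) fun y _ => a2 y)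
      have e2 := En.Uz_gauge hy.lin (u := fun _ => cS u) (fun _ => uni_cS u)
        (exF (cut R' (cg B))) (fA O g ζ a ka z (cut R' (cg B)))
      rw [JS.cut_cg_ad, e1, exF_adc, e2, Bx_gauge fun _ => uni_cS u]
  · exact Bx_measurable (En.mq_Uz hy.lin (W := fun _ => exF (cut R' (cg B)))
      (A := fun z => fA O g ζ a ka z (cut R' (cg B))) (fun _ => mq_const _) (meas_fA _)) x

end Dk

/-- the family of the push lemma for the data of the tree step -/
theorem Nt.fam {t : Nt} {Q : ℝ} (h : t.Ok r c τ m s P δ) (hG : GR t.G)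
    (z : ∀ d', 0 < d' → d' ≤ d → t.Sz c τ P δ d') (hy : En.Hy t.O.l r c τ m s Q)
    (hp : PtC t.O.l r lam s) (hQ : R + 3 ≤ Q) (g0 : 0 < g) (hζ : 0 < ζ)
    (h1 : (LL t.O.l : ℝ) ^ (9 * c + 46) * d ≤ 1)
    (h2 : Q ^ 45 * d + (LL t.O.l : ℝ) ^ (8 * c + 24) * (P * (d + τ)) ≤ e) (he : e ≤ 1 / 2)
    (hR : r / 3 + (R / LL t.O.l + 1) + 1 ≤ R') (ρ0 : 0 ≤ ρ)
    (hρ : 3 * R' * ρ + 2 * (g * (LL t.O.l : ℝ) ^ (6 * c + 16) * ζ) ≤ d) :
    Fam (nuI ζ) t.O.l R R' s ρ (12 * R' * e) (8 * (g * (LL t.O.l : ℝ) ^ (6 * c + 16) * ζ))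
      fun x z B => cut (R + 1) (Bx x (Uz t.O.l s (exF (cut R' (cg B))) (t.As (exF (cut R' (cg B))) +
        (g : ℂ) • polK t.O.l t.O.Λ (pP t.O.N) ∅ (fun y => t.kd (sh y (exF (cut R' (cg B)))))
          (zc ζ z)))) := by
  have L0 := LL_pos' t.O.l
  have P1 := h.P1
  have τ0 := h.τ0
  have d0 : 0 < d := lt_of_lt_of_le (by positivity) hρ
  have zd := z d d0 le_rfl
  refine (((Nt.dk h zd hG h1 le_rfl).fam h.op (h.kc_le zd).1 (h.kc_le zd).2 g0 hζ hy hp hQ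
    (fun B d' h0 hd hB f => (Nt.As_bd h (z d' h0 hd) hB f).trans ?_) (by positivity) (h2.trans he)
    hR ρ0 hρ).mono le_rfl (by gcongr) le_rfl).cut
  rw [Nt.al, sq, ← add_mul, ← mul_assoc, ← mul_assoc, mul_assoc _ P]
  gcongr

end Pool.Agent.Lib.MP_7f377f_mp.RG.Q4
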