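import Pool.Agent.Lib.MP_7f377f_mp.Q4RobA
import Pool.Agent.Lib.MP_7f377f_mp.YM4Defs

/-! Transfer from periodic fields to fields on discrete tori: geometry. -/

noncomputable section

namespace Pool.Agent.Lib.MP_7f377f_mp.RG.Q4.Fi

open MeasureTheory Finset YM4 Ms Rb
open scoped Quaternion ENNReal

variable {m n : ℕ}

/-- reduction modulo the period -/
def cst (n : ℕ) (x : St) : Site n := fun i => x i

theorem cst_add (x y : St) : cst n (x + y) = cst n x + cst n y := funext fun _ => Int.cast_add _ _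

theorem cst_sub (x y : St) : cst n (x - y) = cst n x - cst n y := funext fun _ => Int.cast_sub _ _

theorem cst_un (k : ℤ) (i : Fin 4) : cst n (k • un i) = Pi.single i (k : ZMod n) :=
  funext fun j => by by_cases h : j = i <;> simp [cst, un, h]

theorem cst_un1 (i : Fin 4) : cst n (un i) = Pi.single i 1 := by simpa using cst_un (n := n) 1 i

theorem cst_zero : cst n 0 = 0 := funext fun _ => Int.cast_zero

theorem mv_cst (c t : St) : YM4.mv (cst n c) t = cst n c + cst n t := rfl

theorem cst_rc (x : St) : cst n (rc n x) = cst n x := funext fun i => by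
  simp only [cst, rc, Int.cast_sub, ZMod.intCast_mod, Int.cast_add, add_sub_cancel_right]

/-- the periodic field -/
def lift {α : Type} (U : Site n × Fin 4 → α) : Lk → α := fun e => U (cst n e.1, e.2)

/-- representative in the fundamental domain -/
def vl (x : Site n) : St := rc n fun i => (x i).val

/-- restriction to the fundamental domain -/
def res {α : Type} (n : ℕ) (W : Lk → α) : Site n × Fin 4 → α := fun b => W (vl b.1, b.2)

theorem ln_lift (U : Cfg n) (p : St) (i : Fin 4) (k : ℤ) :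
    ln Inv.inv (lift U) p i k = line U (cst n p) i k := by
  have h1 : ∀ k, lnP (lift U) p i k = line U (cst n p) i (.ofNat k) := fun k => by
    induction k with
    | zero => rfl
    | succ k ih =>
      rw [lnP, ih]
      simp only [lift, cst_add, cst_un]
      simp [line, List.range_succ]
  have h2 : ∀ k, lnN Inv.inv (lift U) p i k = ((List.range k).map fun s : ℕ =>
      (U (cst n p - Pi.single i (s + 1 : ZMod n), i))⁻¹).prod := fun k => by
    induction k with
    | zero => rfl
    | succ k ih =>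
      rw [lnN, ih, List.range_succ, List.map_append, List.prod_append]
      simp only [lift, cst_sub, cst_un]
      simp
  cases k with
  | ofNat k => rw [ln, h1, show (-Int.ofNat k).toNat = 0 by simp, lnN, mul_one]; rfl
  | negSucc k =>
    rw [ln, h2, show (Int.negSucc k).toNat = 0 by simp, lnP, one_mul]
    rfl

theorem LL_cast (l : ℕ) : (LL l : ℤ) = 2 * l + 1 := by simp [LL]

theorem lnP_lift (U : Cfg n) (c p : St) (i : Fin 4) (l : ℕ) :
    lnP (sh c (lift U)) p i (LL l) = line U (cst n c + cst n p) i (2 * l + 1) := by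
  rw [← ln_nat, ln_sh, ln_lift, LL_cast, cst_add, add_comm]

theorem cms_lift (U : Cfg n) (σ : Equiv.Perm (Fin 4)) (c p t : St) :
    cms Inv.inv σ (sh c (lift U)) p t = comb U σ (cst n c) p t := by
  simp only [cms_eq, ln_sh, ln_lift, comb, List.ofFn_succ, List.ofFn_zero, List.prod_cons,
    List.prod_nil, mul_one, mul_assoc, mv_cst, cst_add, add_comm (cst n c)]
  rfl

/-- the periodic field as a configuration -/
def lf (U : Cfg n) : Conf := lift U

/-- restriction of a configuration -/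
def rs (n : ℕ) (W : Conf) : Cfg n := res n W

theorem hol_lift (U : Cfg n) (x : St) (i j : Fin 4) :
    hol Inv.inv (lift U) x i j = plaq U (cst n x) i j := by
  simp only [hol, plaq, lift, cst_add, cst_un1]

theorem fq_lf (U : Cfg n) (x : St) (i j : Fin 4) : fq (lf U) x i j = curv U (cst n x) i j := by
  rw [curv, ← hol_lift]
  rfl

theorem fq_sh (U : Conf) (c x : St) (i j : Fin 4) : fq (sh c U) x i j = fq U (x + c) i j := by
  simp only [fq, hol, sh, add_right_comm x _ c]

theorem fq_lift (U : Cfg n) (c x : St) (i j : Fin 4) :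
    fq (sh c (lf U)) x i j = curv U (YM4.mv (cst n c) x) i j := by
  rw [fq_sh, fq_lf, mv_cst, cst_add, add_comm]

theorem ms_lift (l : ℕ) (U : Cfg n) (c : St) (i : Fin 4) (s : ℤ) :
    ms l (sh c (lf U)) i s = mass l U (cst n c) i s := by
  simp only [ms, mass, fq_lift]
  rfl

theorem avq_lift (l : ℕ) (U : Cfg n) (c p p' : St) (i : Fin 4) :
    avq l i (sh c (lf U)) p p' = (24 * (LL l : ℝ) ^ 4)⁻¹ • avg l U (cst n c) i p p' := by
  have h : ∀ V : Lk → SU2, avq l i V p p' = (24 * (LL l : ℝ) ^ 4)⁻¹ •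
      ∑ σ : Equiv.Perm (Fin 4), ∑ t ∈ box l, (cms Inv.inv σ V p t * lnP V t i (LL l) *
        (cms Inv.inv σ (sh (up l (un i)) V) p' t)⁻¹ : SU2).1 := fun _ => rfl
  refine (h (sh c (lift U))).trans ?_
  rw [avg]
  congr 2
  funext σ
  refine sum_congr rfl fun t _ => ?_
  rw [sh_sh, cms_lift, cms_lift, lnP_lift, cst_add, up, cst_un, add_comm (Pi.single _ _), LL_cast]
  push_cast
  rfl

theorem nr_smul {c : ℝ} (hc : 0 < c) {q : ℍ} (h : q ≠ 0) (d : S3) :
    nr (c • q) d = (⟨‖q‖⁻¹ • q, mem_sphere_zero_iff_norm.2 (norm_smul_inv_norm h)⟩ : SU2) := by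
  refine (dif_neg (smul_ne_zero hc.ne' h)).trans (Subtype.ext ?_)
  simp only [norm_smul, Real.norm_eq_abs, abs_of_pos hc, smul_smul, mul_inv_rev]
  rw [mul_assoc, inv_mul_cancel₀ hc.ne', mul_one]

theorem LLr_pos (l : ℕ) : (0 : ℝ) < LL l := by simp only [LL]; positivity

theorem adm_ne (l : ℕ) (U : Conf) (μ : Fin 4) : (adm l U μ).Nonempty := by
  obtain ⟨s, hs, h⟩ := exists_le_of_sum_le (s := Icc (-(l : ℤ)) l)
    (f := fun s => LL l * ms l U μ s) (g := fun _ => ∑ s' ∈ Icc (-(l : ℤ)) l, ms l U μ s')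
    ⟨0, by simp⟩ (by
      rw [← mul_sum, sum_const, Int.card_Icc, nsmul_eq_mul,
        show ((l : ℤ) + 1 - -(l : ℤ)).toNat = LL l by unfold LL; omega])
  exact ⟨s, by classical exact mem_filter.2 ⟨hs, h⟩⟩

open Classical in
theorem base_lift (l : ℕ) (U : Cfg n) (c : St) : base l U (cst n c) =
    if Fl l ((LL l : ℝ) ^ 4)⁻¹ (sh c (lf U)) then {0}
    else Fintype.piFinset (adm l (sh c (lf U))) := by
  have e : (LL l : ℝ) = 2 * l + 1 := by simp [LL]
  rw [base]
  refine if_congr (by simp only [Fl, fq_lift, e]; rfl) rfl ?_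
  ext p
  simp only [mem_filter, Fintype.mem_piFinset, adm, YM4.cube, ms_lift, e, forall_and]

open Classical in
theorem wt_lift (l : ℕ) (U : Cfg n) (c : St) (o : Om) :
    ENNReal.ofReal (wt l (sh c (lf U)) o) * (if o.1 ∈ box l then (24 * (LL l : ℝ≥0∞) ^ 4)⁻¹ else 0) =
      if o.1 ∈ base l U (cst n c) then (24 * (base l U (cst n c)).card : ℝ≥0∞)⁻¹ else 0 := by
  have L0 : (LL l : ℝ≥0∞) ≠ 0 := by simp [LL]
  have k : ∀ c : ℕ, c ≠ 0 → ENNReal.ofReal ((LL l : ℝ) ^ 4 / c) * (24 * (LL l : ℝ≥0∞) ^ 4)⁻¹ =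
      (24 * c : ℝ≥0∞)⁻¹ := fun c hc => by
    rw [ENNReal.ofReal_div_of_pos (by positivity), ENNReal.ofReal_pow (by positivity),
      ENNReal.ofReal_natCast, ENNReal.ofReal_natCast,
      ENNReal.mul_inv (by simp) (by simp), ENNReal.mul_inv (by simp) (by simp), div_eq_mul_inv,
      show (LL l : ℝ≥0∞) ^ 4 * (c : ℝ≥0∞)⁻¹ * (24⁻¹ * ((LL l : ℝ≥0∞) ^ 4)⁻¹) =
        (LL l : ℝ≥0∞) ^ 4 * ((LL l : ℝ≥0∞) ^ 4)⁻¹ * (24⁻¹ * (c : ℝ≥0∞)⁻¹) by ring,
      ENNReal.mul_inv_cancel (pow_ne_zero _ L0) (by simp), one_mul]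
  rw [base_lift, wt]
  by_cases h : Fl l ((LL l : ℝ) ^ 4)⁻¹ (sh c (lf U))
  · simp only [if_pos h, mem_singleton, card_singleton]
    by_cases h0 : o.1 = 0
    · rw [if_pos h0, if_pos h0, if_pos (by rw [h0]; simp [box]), ← k 1 one_ne_zero]
      simp
    · simp [h0]
  · simp only [if_neg h]
    by_cases h0 : o.1 ∈ Fintype.piFinset (adm l (sh c (lf U)))
    · have h1 := Fintype.mem_piFinset.1 h0
      rw [if_pos h0, if_pos (show o.1 ∈ box l from
        Fintype.mem_piFinset.2 fun i => (mem_filter.1 (h1 i)).1), ← k _ (card_ne_zero.2 ⟨_, h0⟩), Fintype.card_piFinset]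
      simp only [h1, if_true, prod_div_distrib, prod_const, card_univ, Fintype.card_fin,
        Nat.cast_prod]
    · rw [if_neg h0]
      obtain ⟨i, hi⟩ := not_forall.1 fun h => h0 (Fintype.mem_piFinset.2 h)
      rw [prod_eq_zero (mem_univ i) (if_neg hi)]
      simp

variable [NeZero n]

theorem cst_vl (x : Site n) : cst n (vl x) = x := by
  rw [vl, cst_rc]
  funext i
  simp [cst]

theorem vl_cst (x : St) : vl (cst n x) = rc n x := funext fun i => by
  simp only [vl, rc, cst, ZMod.val_intCast, Int.emod_add_emod]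

theorem vl_inj : Function.Injective (vl (n := n)) := fun x y h => by rw [← cst_vl x, h, cst_vl]

theorem res_lift {α : Type} (U : Site n × Fin 4 → α) : res n (lift U) = U :=
  funext fun b => by simp only [res, lift, cst_vl]

theorem lift_res {α : Type} (W : Lk → α) : lift (res n W) = pc n W :=
  funext fun e => congrArg (fun x => W (x, e.2)) (vl_cst _)

theorem res_pc {α : Type} (W : Lk → α) : res n (pc n W) = res n W := by
  rw [← lift_res, res_lift]

theorem rs_lf (U : Cfg n) : rs n (lf U) = U := res_lift U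

theorem lf_rs (W : Conf) : lf (rs n W) = pc n W := lift_res W

theorem rs_pc (W : Conf) : rs n (pc n W) = rs n W := res_pc W

theorem rc_vl (x : Site n) : rc n (vl x) = vl x := by rw [← vl_cst, cst_vl]

theorem image_vl (hn : Odd n) : (univ : Finset (Site n)).image vl = box (n / 2) := by
  obtain ⟨k, rfl⟩ := hn
  have e : (2 * k + 1) / 2 = k := by omega
  ext y
  simp only [mem_image, mem_univ, true_and, box, Fintype.mem_piFinset, mem_Icc, e]
  constructor
  · rintro ⟨x, rfl⟩ i
    have h1 := Int.emod_nonneg (((x i).val : ℤ) + k) (show ((2 * k + 1 : ℕ) : ℤ) ≠ 0 by omega)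
    have h2 := Int.emod_lt_of_pos (((x i).val : ℤ) + k) (show (0 : ℤ) < (2 * k + 1 : ℕ) by omega)
    simp only [vl, rc, e]
    omega
  · refine fun h => ⟨cst _ y, ?_⟩
    rw [vl_cst]
    funext i
    have := h i
    simp only [rc, e]
    rw [Int.emod_eq_of_lt (by omega) (by omega)]
    omega

theorem prod_vl {M : Type} [CommMonoid M] (hn : Odd n) (f : St → M) :
    ∏ x ∈ box (n / 2), f x = ∏ x : Site n, f (vl x) := by
  rw [← image_vl hn, prod_image fun _ _ _ _ h => vl_inj h]

theorem sum_vl (hn : Odd n) (f : St → ℝ) : ∑ x ∈ box (n / 2), f x = ∑ x : Site n, f (vl x) := by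
  rw [← image_vl hn, sum_image fun _ _ _ _ h => vl_inj h]

omit [NeZero n] in
theorem cst_up (l : ℕ) (hm : LL l * n = m) (y : Site n) : cst m (up l (vl y)) = ctr l y := by
  subst hm
  funext k
  have e : (rc n (fun i => ((y i).val : ℤ))) k = (y k).val - n * ((((y k).val : ℤ) + (n / 2 : ℕ)) / n) := by
    simp only [rc]
    rw [Int.emod_def]
    ring
  have e2 : ((LL l : ℕ) : ZMod (LL l * n)) * n = 0 := by
    rw [← Nat.cast_mul, ZMod.natCast_self]
  simp only [cst, up, vl, ctr, Pi.smul_apply, smul_eq_mul, e]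
  push_cast
  rw [mul_sub, ← mul_assoc, e2, zero_mul, sub_zero]
  congr 1
  rw [show ((LL l : ℕ) : ZMod (LL l * n)) = ((2 * l + 1 : ℕ) : ZMod (LL l * n)) from rfl]
  push_cast
  rfl

theorem blk_lift (l : ℕ) (hm : LL l * n = m) (U : Cfg m) (ω : St → Om) :
    rs n (blk l (lf U) (pcs n ω)) = block l U fun y => ω (vl y) := by
  funext ⟨y, i⟩
  have L : 0 < (24 * (LL l : ℝ) ^ 4)⁻¹ := by have := LLr_pos l; positivity
  have e1 : pcs n ω (vl y) = ω (vl y) := by rw [pcs, rc_vl]
  have e2 : pcs n ω (vl y + un i) = ω (vl (y + Pi.single i 1)) := by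
    rw [pcs, ← vl_cst, cst_add, cst_vl, cst_un1]
  have h1 : rs n (blk l (lf U) (pcs n ω)) (y, i) = av l i (sh (up l (vl y)) (lf U))
      (ω (vl y)) (ω (vl (y + Pi.single i 1))) := by rw [← e1, ← e2]; rfl
  rw [h1, av, avq_lift, cst_up l hm]
  simp only [block]
  split_ifs with h h2 h2
  · have := lnP_lift U (up l (vl y)) 0 i l
    rwa [cst_up l hm, cst_zero, add_zero] at this
  · exact absurd ((smul_eq_zero.1 h).resolve_left L.ne') h2
  · exact absurd (by rw [h2, smul_zero]) h
  · have c1 := cms_lift U (ω (vl y)).2 (up l (vl y)) (ω (vl y)).1 0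
    have c2 := cms_lift U (ω (vl (y + Pi.single i 1))).2 (up l (un i) + up l (vl y))
      (ω (vl (y + Pi.single i 1))).1 0
    have c3 : cst m (up l (un i)) = Pi.single i (2 * l + 1 : ZMod m) := by
      rw [up, cst_un, LL_cast]
      push_cast
      rfl
    rw [cst_add, cst_up l hm, c3, add_comm (Pi.single _ _)] at c2
    rw [cst_up l hm] at c1
    rw [← c1, ← c2, sh_sh]
    exact congrArg₂ (· * ·) (congrArg₂ (· * ·) rfl (nr_smul L h2 _)) rfl

end Pool.Agent.Lib.MP_7f377f_mp.RG.Q4.Fi
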