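import Pool.Agent.Lib.MP_7f377f_mp.Q4Exp
import Pool.Agent.Lib.MP_7f377f_mp.Q4RepB
import Pool.Agent.Lib.MP_7f377f_mp.Q4FldA

/-! From the expansion to the new polymer representation. -/

noncomputable section

namespace Pool.Agent.Lib.MP_7f377f_mp.RG.Q4

open Finset MeasureTheory
open scoped Classical

attribute [local irreducible] box lbox tb tau rc

namespace Xp

variable {S : Sd} {ψ : Lx} {K : Ac} {W : Conf} {v : VB} {O O' : Finset Ob} {y : St}

theorem mem_olds {o : LP St} : o ∈ olds O ↔ .inl (.inl o) ∈ O := by simp [olds]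

theorem mem_Wk : y ∈ Wk O ↔ .inl (.inr (.inr y)) ∈ O := by simp [Wk]

theorem olds_sub (h : O ⊆ S.obs) : olds O ⊆ lps (box (S.nf / 2)) := fun o ho => by
  simpa [Sd.obs] using h (mem_olds.1 ho)

theorem bs_ne {o : Ob} (h : o ∈ S.obs) : (S.bs o).Nonempty := by
  rcases o with (o | y | y) | y | q | q | Z
  · exact (mem_lps.1 (by simpa [Sd.obs] using h)).2.1.image _
  · exact singleton_nonempty _
  · exact singleton_nonempty _
  · exact singleton_nonempty _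
  · exact insert_nonempty _ _
  · simp only [Sd.obs, Sd.mks, Sd.X1s, inr_mem_disjSum, inl_mem_disjSum, mem_product,
      mem_filter] at h
    exact ((Nonempty.of_image ⟨_, h.2.2.2⟩).image _).image _
  · simp only [Sd.obs, Sd.mks, inr_mem_disjSum, mem_erase] at h
    exact nonempty_iff_ne_empty.2 h.1

theorem sp_ne {o : Ob} (h : o ∈ S.obs) : (S.sp o).Nonempty :=
  let ⟨x, hx⟩ := bs_ne h
  ⟨rc S.n x, mem_tb.2 ⟨rc_rc _ _, x, hx, nearT_rc_right.2 (nearT.refl _ _ _)⟩⟩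

theorem Oh_sp (h : O ⊆ S.obs) : S.Oh O ⊆ us S.sp O := fun y hy => by
  obtain ⟨h1, x, hx, h2⟩ := mem_tb.1 hy
  obtain ⟨o, ho, h3⟩ : ∃ o ∈ O, x ∈ S.bs o := by
    simp only [Hh, CC, mem_union, mem_biUnion] at hx
    rcases hx with (⟨C, ⟨o, ho, hC⟩, hx⟩ | hx) | hx
    · exact ⟨_, mem_olds.1 ho, image_subset_image
        ((mem_fams.1 (mem_lps.1 (olds_sub h ho)).2.2).1 C hC) hx⟩
    · exact ⟨_, mem_Wk.1 hx, mem_singleton_self _⟩
    · exact ⟨_, mem_Dbl.1 hx, mem_singleton_self _⟩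
  exact mem_us.2 ⟨o, ho, mem_tb.2 ⟨h1, x, h3, h2.mono (by omega)⟩⟩

theorem zs_sp (h : O ⊆ S.obs) :
    us (zsp S.l S.n (3 * S.D0)) ((CC O).disjSum (Wk O)) ⊆ us S.sp O :=
  us_zsp ▸ (tb_mono subset_union_left (by omega)).trans (Oh_sp h)

theorem lab_union (h : O ⊆ S.obs) (h' : O' ⊆ S.obs) (hd : Disjoint (us S.sp O) (us S.sp O')) :
    S.lab W (O ∪ O') = S.lab W O ∪ S.lab W O' := by
  have e : (CC (O ∪ O')).disjSum (Wk (O ∪ O')) =
      (CC O).disjSum (Wk O) ∪ (CC O').disjSum (Wk O') := by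
    ext (C | y) <;> simp [CC, mem_olds, mem_Wk, or_and_right, exists_or]
  simp only [Sd.lab, ncs, zones]
  rw [e, comps_union' _ (hd.mono (zs_sp h) (zs_sp h')), image_union, filter_union]

theorem lab_fams (h : O ⊆ S.obs) : S.lab W O ∈ fams (us S.sp O) := by
  have hC : ∀ C ∈ CC O, C.Nonempty := fun C hC => by
    obtain ⟨o, ho, hC⟩ := mem_biUnion.1 hC
    exact nonempty_iff_ne_empty.2 fun e =>
      (mem_fams.1 (mem_lps.1 (olds_sub h ho)).2.2).2.1 (e ▸ hC)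
  obtain ⟨a1, a2, a3⟩ := mem_fams.1 (comps_fams (zsp S.l S.n (3 * S.D0))
    fun _ ho => ⟨zsp_ne hC ho, (sp_sub_us _ ho).trans (zs_sp h)⟩)
  exact mem_fams.2 ⟨fun X hX => a1 X (mem_filter.1 hX).1, fun hX => a2 (mem_filter.1 hX).1,
    a3.subset (coe_subset.2 (filter_subset _ _))⟩

theorem wO_empty (h0 : S.Ok) : S.wO ψ K W ∅ = 1 := by
  have := nu_prob (S.Q0.trans_le h0.ζ_zm)
  have e : S.Oh ∅ = ∅ := by
    ext y
    simp [Sd.Oh, mem_tb, Hh, CC, olds, Wk, Dbl]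
  have e1 : olds ∅ = ∅ := rfl
  have e2 : Wk ∅ = ∅ := rfl
  have e3 : (∅ : Finset Ob).toRight = ∅ := rfl
  simp [Sd.wO, Sd.wf, Sd.FO, Sd.lab, ncs, zones, CC, e, e1, e2, e3]

/-- the good blocks outside the supports are integrated -/
theorem int_TO (h0 : S.Ok) (hm : Measurable fun v => S.FO ψ K W O (pcs S.n v))
    (hd : DependsOn (fun v => S.FO ψ K W O (pcs S.n v)) (us S.sp O))
    (hi : S.Sup W O → Integrable (fun v => S.FO ψ K W O (pcs S.n v)) (PB S.l (nu S.zm))) :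
    ∫ v, TO S ψ K W (pcs S.n v) O ∂PB S.l (nu S.zm) =
      S.wO ψ K W O * ∏ y ∈ S.Λ' \ (S.lab W O).biUnion id, Ix S.p' (S.Φ' ψ K) W y ∧
    Integrable (fun v => TO S ψ K W (pcs S.n v) O) (PB S.l (nu S.zm)) := by
  have z0 := S.Q0.trans_le h0.ζ_zm
  have := nu_prob z0
  have e : ∀ v : VB, ∏ y ∈ S.Λ' \ us S.sp O, ((gd S.l S.ζ (pcs S.n v y) / S.p0 : ℝ) : ℂ) =
      ((∏ y ∈ S.Λ' \ us S.sp O, gd S.l S.ζ (v y) : ℝ) : ℂ) *
        ((S.p0 ^ (S.Λ' \ us S.sp O).card : ℝ) : ℂ)⁻¹ := fun v => by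
    rw [← Complex.ofReal_prod, prod_div_distrib, prod_const, Complex.ofReal_div, div_eq_mul_inv,
      prod_congr rfl fun y hy => by rw [pcs, rc_dom h0.odd (mem_sdiff.1 hy).1]]
  have m2 : Measurable fun v : VB => ((∏ y ∈ S.Λ' \ us S.sp O, gd S.l S.ζ (v y) : ℝ) : ℂ) *
      ((S.p0 ^ (S.Λ' \ us S.sp O).card : ℝ) : ℂ)⁻¹ :=
    (Complex.measurable_ofReal.comp (Finset.measurable_fun_prod _ fun y _ =>
      (Cov.meas_gd _ _).comp (measurable_pi_apply y))).mul_const _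
  have d2 : DependsOn (fun v : VB => ((∏ y ∈ S.Λ' \ us S.sp O, gd S.l S.ζ (v y) : ℝ) : ℂ) *
      ((S.p0 ^ (S.Λ' \ us S.sp O).card : ℝ) : ℂ)⁻¹) (S.Λ' \ us S.sp O : Finset St) :=
    fun _ _ h => by
      beta_reduce
      rw [prod_congr rfl fun y hy => by rw [h y hy]]
  have dj : Disjoint (us S.sp O : Set St) (S.Λ' \ us S.sp O : Finset St) :=
    disjoint_coe.2 disjoint_sdiff
  simp only [TO, e]
  constructor
  · rw [integral_mul_const, integral_const_mul, PB, Mx.int_indep hm m2 hd d2 dj, ← PB,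
      integral_mul_const, int_gd (ζ := S.ζ) _ S.Q0 (Cov.gs_nu z0 h0.ζ_zm), ← Sd.p0,
      mul_inv_cancel₀ (Complex.ofReal_ne_zero.2 (pow_pos (p0_pos h0) _).ne'), mul_one, Sd.wO]
  · by_cases h : S.Sup W O
    · refine ((Mx.integrable_indep hm m2 hd d2 dj (hi h) (.mul_const (.of_bound
        (Complex.measurable_ofReal.comp (Finset.measurable_fun_prod _ fun y _ =>
          (Cov.meas_gd _ _).comp (measurable_pi_apply y))).aestronglyMeasurable 1
        (.of_forall fun v => ?_)) _)).const_mul _).mul_const _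
      rw [Function.comp_apply, Complex.norm_real, norm_prod]
      exact prod_le_one (fun _ _ => norm_nonneg _) fun y _ => by
        rcases Cov.gd_cases S.l S.ζ (v y) with e | e <;> simp [e]
    · simp only [Sd.Sup, not_and_or, not_not, not_forall] at h
      rcases h with h | ⟨y, hy, h⟩
      · simp [h]
      · rw [prod_eq_zero (i := y) (mem_sdiff.2 ⟨sp_sub h0.odd (mem_filter.1 (mem_sdiff.1 hy).1).1,
          (mem_sdiff.1 hy).2⟩) (by rw [Ix, not_not.1 (chi_ne.not.2 h), zero_mul])]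
        simp

/-- the indicators in the interior of a polymer are free -/
theorem ZL_chi (p : Pa) (Φ : Lx) (Λ : Finset St) (k : Finset St → Finset (Finset St) → ℂ)
    {D : Finset St → Finset St} (hD : ∀ X, D X ⊆ X) :
    ZL Λ (fun X c => k X c * ∏ y ∈ D X \ c.biUnion id, chi p W y) (Ix p Φ W) = ZL Λ k (Ix p Φ W) := by
  refine Zp_congr (fun X _ _ => sum_congr rfl fun c _ => ?_) fun _ _ => rfl
  beta_reduce
  by_cases h : ∃ y ∈ D X \ c.biUnion id, chi p W y = 0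
  · obtain ⟨y, hy, h⟩ := h
    rw [prod_eq_zero (sdiff_subset_sdiff (hD X) le_rfl hy) (by rw [Ix, h, zero_mul]), mul_zero,
      mul_zero]
  · rw [prod_eq_one fun y hy => (chi_cases p W y).resolve_left fun e => h ⟨y, hy, e⟩, mul_one]

/-- the step before the gauge average -/
theorem raw_of (h0 : S.Ok) (hW : Per S.n W)
    (hc : ∀ v, PS S.n v → ∀ y ∈ S.Λ', S.Calm W v y → CalmId S ψ K W v y)
    (hm : ∀ O ⊆ S.obs, Measurable fun v => S.FO ψ K W O (pcs S.n v))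
    (hd : ∀ O ⊆ S.obs, DependsOn (fun v => S.FO ψ K W O (pcs S.n v)) (us S.sp O))
    (hi : ∀ O ⊆ S.obs, S.Sup W O →
      Integrable (fun v => S.FO ψ K W O (pcs S.n v)) (PB S.l (nu S.zm)))
    (hw : ∀ O ⊆ S.obs, ∀ O' ⊆ S.obs, Disjoint (us S.sp O) (us S.sp O') →
      S.wO ψ K W (O ∪ O') = S.wO ψ K W O * S.wO ψ K W O') :
    ∫ v, S.IT (Rep S.p S.nf (S.Φ ψ) K) W (pcs S.n v) ∂PB S.l (nu S.zm) =
      Complex.exp (∑ y ∈ S.Λ', S.Ey ψ K y) *
        ZL S.Λ' (fun Y c => S.Kr ψ K Y c W) (Ix S.p' (S.Φ' ψ K) W) := by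
  have h := fun O hO => int_TO h0 (hm O (mem_powerset.1 hO)) (hd O (mem_powerset.1 hO))
    (hi O (mem_powerset.1 hO))
  rw [funext fun v => expand_of h0 hW (ps_pcs _ v) (En.pc_eq (Sd.Uv_per hW (ps_pcs _ v)))
      (hc _ (ps_pcs _ v)), integral_const_mul, integral_finsetSum _ fun O hO => (h O hO).2,
    sum_congr rfl fun O hO => (h O hO).1, factorL S.sp S.obs S.Λ'
      (fun o ho => ⟨sp_ne ho, tb_dom h0.odd⟩) _ (wO_empty h0) hw _
      (fun O a O' b hd => by rw [lab_union a b hd, union_biUnion])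
      (fun O a => lab_sub.trans (Oh_sp a)) fun O a _ _ => lab_fams a]
  exact congrArg _ (ZL_chi _ _ _ _ fun X => filter_subset _ _).symm

theorem pc_gauge' {n : ℕ} {u : St → S3} (hu : PS n u) (W : Conf) :
    pc n (gauge Inv.inv u W) = gauge Inv.inv u (pc n W) := Mx.pc_gauge (Mx.PS_iff.1 hu) W

theorem per_gauge {n : ℕ} {u : St → S3} (hu : PS n u) (hW : Per n W) :
    Per n (gauge Inv.inv u W) := Mx.per_iff.2 (Ms.PL_gauge (Mx.PS_iff.1 hu) (Mx.per_iff.1 hW))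

/-- gauge invariance of the weights -/
theorem Ix_gauge {p : Pa} {Φ : Lx} (u : St → S3)
    (h : Fq (p.R + 1) p.ε (sh y W) → Φ y (adF (fun _ => cS (u y)) (Bx y (cC W))) = Φ y (Bx y (cC W))) :
    Ix p Φ (gauge Inv.inv u W) y = Ix p Φ W y := by
  have e : chi p (gauge Inv.inv u W) y = chi p W y := by
    simp only [chi, sh_gauge, fq_gauge_iff]
  rw [Ix, Ix, e]
  by_cases h1 : chi p W y = 0
  · rw [h1, zero_mul, zero_mul]
  · rw [cC_gauge, Bx_gauge fun _ => uni_cS _, h (chi_ne.1 h1)]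

/-- the gauge average -/
theorem avg_of {F : Conf → ℂ} {E : ℂ} (hF : GI S.n F)
    (h : ∀ W, Per S.n W → F W = Complex.exp E *
      ZL S.Λ' (fun Y c => S.Kr ψ K Y c W) (Ix S.p' (S.Φ' ψ K) W))
    (hm : ∀ Y c, Measurable fun W => S.Kr ψ K Y c (pc S.n W))
    (hb : ∀ Y c, ∃ M, ∀ W, Per S.n W → ‖S.Kr ψ K Y c W‖ ≤ M)
    (hd : ∀ Y c, DependsOn (fun W => S.Kr ψ K Y c (pc S.n W))
      {b | rc S.n b.1 ∈ Y ∧ rc S.n (b.1 + un b.2) ∈ Y})
    (hI : ∀ (u : S3) y W, Fq (S.p'.R + 1) S.p'.ε (sh y W) →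
      S.Φ' ψ K y (adF (fun _ => cS u) (Bx y (cC W))) = S.Φ' ψ K y (Bx y (cC W)))
    (hW : Per S.n W) : F W = Complex.exp E * Rep S.p' S.n (S.Φ' ψ K) (S.KK ψ K) W := by
  have := Mx.ZL_gav S.Λ' (I := fun y W => Ix S.p' (S.Φ' ψ K) (pc S.n W) y) (W := W)
    (Z := Complex.exp (-E) * F W) hm (fun Y c => (hb Y c).imp fun _ h _ => h _ (Mx.per_pc _ _)) hd
    (fun u hu y => by rw [pc_gauge' hu, Ix_gauge u (hI _ _ _)]) fun u hu => by
      rw [← hF.2.2 u W hu hW, h _ (per_gauge hu hW), ← mul_assoc, ← Complex.exp_add,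
        neg_add_cancel, Complex.exp_zero, one_mul, En.pc_eq (per_gauge hu hW)]
  refine Eq.trans ?_ (congrArg _ this.symm)
  rw [← mul_assoc, ← Complex.exp_add, add_neg_cancel, Complex.exp_zero, one_mul]

theorem Rg_gauge (c : Finset (Finset St)) (u : St → S3) (W : Conf) :
    Rg c (gauge Inv.inv u W) = Rg c W := by simp only [Rg, fs, Mx.fq_gauge]

/-- the class of the new activities -/
theorem km_of {k : Mj} (hm : ∀ Y c, Measurable fun W => S.Kr ψ K Y c (pc S.n W))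
    (hd : ∀ Y c, DependsOn (fun W => S.Kr ψ K Y c (pc S.n W))
      {b | rc S.n b.1 ∈ Y ∧ rc S.n (b.1 + un b.2) ∈ Y})
    (hb : ∀ Y c W, Per S.n W → ‖S.Kr ψ K Y c W‖ ≤ k Y c * Real.exp (-(S.p'.lam * Rg c W))) :
    KM S.p' S.n k (S.KK ψ K) where
  meas Y c := Mx.meas_gav _ (hm Y c)
  per Y c W := Mx.gav_congr fun u hu => by
    rw [pc_gauge' hu, pc_gauge' hu, En.pc_eq (Mx.per_pc _ _)]
  dep Y c := Mx.gav_dep (hd Y c)
  gi Y c u W hu := Mx.gav_gauge (hm Y c) hu W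
  bd Y c W hW := Mx.gav_le fun u hu => by
    rw [En.pc_eq (per_gauge hu hW), ← Rg_gauge c u W]
    exact hb Y c _ (per_gauge hu hW)

end Xp

end Pool.Agent.Lib.MP_7f377f_mp.RG.Q4
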