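import Pool.Agent.Lib.MP_7f377f_mp.Q4Def2
import Pool.Agent.Lib.MP_7f377f_mp.Q4StepA

/-! Sums of the majorants of the objects which contain a point. -/

noncomputable section

namespace Pool.Agent.Lib.MP_7f377f_mp.RG.Q4.Kp

open Finset Sd
open scoped Classical

attribute [local irreducible] box lbox

/-- sums over connected families with a small factor for each member -/
theorem conn_scale {σ Ω : Type} [DecidableEq σ] [DecidableEq Ω] (sp : Ω → Finset σ) (Ω0 : Finset Ω)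
    (hs : ∀ o ∈ Ω0, (sp o).Nonempty) (w q : Ω → ℝ) (hw : ∀ o, 0 ≤ w o) (hq : ∀ o, 0 < q o) {e : ℝ}
    (he : 0 < e) (h : ∀ x, ∑ o ∈ Ω0.filter (fun o => x ∈ sp o),
      w o / q o * Real.exp (e * (sp o).card) ≤ e / 4) (x : σ) {T : Finset (Finset Ω)} {M : ℝ}
    (M0 : 0 ≤ M) (hT : ∀ O ∈ T, O ⊆ Ω0 ∧ Conn sp O ∧ x ∈ us sp O ∧ ∏ o ∈ O, q o ≤ M) :
    ∑ O ∈ T, ∏ o ∈ O, w o ≤ M * (e / 2) := by
  have hp : ∀ O : Finset Ω, 0 ≤ ∏ o ∈ O, w o / q o := fun O =>
    prod_nonneg fun o _ => div_nonneg (hw o) (hq o).le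
  have i1 := conn_sum_one sp Ω0 hs (fun o => w o / q o) (fun o => div_nonneg (hw o) (hq o).le) he h x
  refine (sum_le_sum (g := fun O => M * ∏ o ∈ O, w o / q o) fun O hO => ?_).trans ?_
  · rw [← prod_congr rfl fun o _ => mul_div_cancel₀ (w o) (hq o).ne', prod_mul_distrib]
    exact mul_le_mul_of_nonneg_right (hT O hO).2.2.2 (hp O)
  · rw [← mul_sum]
    refine mul_le_mul_of_nonneg_left (le_trans (sum_le_sum_of_subset_of_nonneg (fun O hO => ?_)
      fun O _ _ => hp O) i1) M0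
    exact mem_filter.2 ⟨mem_powerset.2 (hT O hO).1, (hT O hO).2.1, (hT O hO).2.2.1⟩

variable {l n R : ℕ} {p : Pa} {k : Mj} {θ b : ℝ} {x y v : St} {X : Finset St}

theorem rc_up (l : ℕ) (x y : St) : rc (LL l * n) (x + up l (rc n y)) = rc (LL l * n) (x + up l y) := by
  obtain ⟨v, hv⟩ := rc_exists n y
  rw [hv, up_add, ← add_assoc, show up l ((n : ℤ) • v) = ((LL l * n : ℕ) : ℤ) • v by
    rw [up, smul_smul]; push_cast; rfl, rc_add_smul]

theorem dn_trS (y : St) (X : Finset St) :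
    dn l n (trS (LL l * n) (up l y) X) = trS n y (dn l n X) := by
  simp only [dn, trS, image_image, Function.comp_def, rc_yo, yo_add_up, rc_add_rc]

theorem trS_trS (v w : St) (X : Finset St) : trS n v (trS n w X) = trS n (w + v) X := by
  simp only [trS, image_image, Function.comp_def, rc_add_rc, add_assoc]

theorem trS_zero (hX : ∀ x ∈ X, rc n x = x) : trS n 0 X = X :=
  (image_congr fun x hx => by rw [add_zero]; exact hX x hx).trans image_id

theorem trS_sub (hn : Odd n) : trS n v X ⊆ box (n / 2) := fun _ hy => by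
  obtain ⟨x, -, rfl⟩ := mem_image.1 hy
  exact rc_mem hn _

theorem old_sum (hn : Odd (LL l * n)) (hk : kN p (LL l * n) k θ) (R : ℕ) (x : St) :
    ∑ o ∈ (lps (box (LL l * n / 2))).filter (fun o => x ∈ tb n R (dn l n o.1)),
      k o.1 o.2 * wgt p (LL l * n) o.1 o.2 ≤ θ * ((2 * R + 1) ^ 4 * (LL l : ℝ) ^ 4) := by
  have u0 : ∀ o : LP St, 0 ≤ k o.1 o.2 * wgt p (LL l * n) o.1 o.2 := fun o =>
    mul_nonneg (hk.1 _ _) (Real.exp_nonneg _)
  have h1 := sum_meet_le _ (fun o : LP St => o.1) _ (fun o _ => u0 o) hk.2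
    ((box l ×ˢ tb n R {x}).image fun q => rc (LL l * n) (q.1 + up l q.2))
  refine (sum_le_sum_of_subset_of_nonneg (fun o ho => ?_) fun o _ _ => u0 o).trans (h1.trans
    (mul_le_mul_of_nonneg_left ?_ hk.nonneg))
  · obtain ⟨h2, h3⟩ := mem_filter.1 ho
    obtain ⟨-, z, hz, h4⟩ := mem_tb.1 h3
    obtain ⟨x', hx', rfl⟩ := mem_image.1 hz
    refine mem_filter.2 ⟨h2, not_disjoint_iff.2 ⟨x', mem_image.2 ⟨(_, rc n (yo l x')),
      mem_product.2 ⟨sub_up_yo_mem l x', mem_tb_single.2 ⟨rc_rc _ _, h4.symm⟩⟩, ?_⟩, hx'⟩⟩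
    rw [rc_up, sub_add_cancel, rc_eq hn ((mem_lps.1 h2).1 hx')]
  · have := card_tb_le n R {x}
    rw [card_singleton, one_mul] at this
    have h2 : _ ≤ (2 * R + 1) ^ 4 * LL l ^ 4 := (card_image_le (s := box l ×ˢ tb n R {x})
      (f := fun q => rc (LL l * n) (q.1 + up l q.2))).trans (by
        rw [card_product, card_box, mul_comm]; exact Nat.mul_le_mul_right _ this)
    exact_mod_cast h2

theorem card_near (hn : Odd n) (R : ℕ) (x : St) :
    (((box (n / 2)).filter fun y => nearT n R y x).card : ℝ) ≤ (2 * R + 1) ^ 4 := by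
  have := (card_le_card (s := (box (n / 2)).filter fun y => nearT n R y x) fun y hy =>
    mem_tb_single.2 ⟨rc_eq hn (mem_filter.1 hy).1, (mem_filter.1 hy).2.symm⟩).trans
    (card_tb_le n R {x})
  rw [card_singleton, one_mul] at this
  exact_mod_cast this

variable {S : Sd} {o : Ob} {w : Ob → ℝ}

theorem mem_X1s : X ∈ S.X1s ↔ X ⊆ box (S.nf / 2) ∧ tau S.nf S.p.D X = 1 ∧ 0 ∈ dn S.l S.n X := by
  simp [X1s]

theorem dn_trS' (S : Sd) (y : St) (X : Finset St) :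
    dn S.l S.n (trS S.nf (up S.l y) X) = trS S.n y (dn S.l S.n X) := dn_trS _ _

/-- old polymers which are small and have no core -/
def Sm1 (S : Sd) (o : LP St) : Prop := o.2 = ∅ ∧ tau S.nf S.p.D o.1 = 1

theorem smo_mem (h : S.Ok) (hX : X ∈ S.X1s) (y : St) :
    (⟨trS S.nf (up S.l y) X, ∅⟩ : LP St) ∈ (lps (box (S.nf / 2))).filter (Sm1 S) := by
  obtain ⟨-, h2, h3⟩ := mem_X1s.1 hX
  exact mem_filter.2 ⟨mem_lps.2 ⟨trS_sub h.odd_nf, (image_nonempty.1 ⟨_, h3⟩).image _,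
    empty_mem_fams _⟩, rfl, (tau_sh _ _).trans h2⟩

/-- the smoothing marks of a small polymer share its weight -/
theorem smo_sum (h : S.Ok) (G : Finset St → ℝ) (hG : ∀ X, 0 ≤ G X) :
    ∑ q ∈ S.Λ' ×ˢ S.X1s, G (trS S.nf (up S.l q.1) q.2) / (dn S.l S.n q.2).card ≤
      ∑ o ∈ (lps (box (S.nf / 2))).filter (Sm1 S), G o.1 := by
  rw [← sum_fiberwise_of_maps_to (s := S.Λ' ×ˢ S.X1s)
    (g := fun q : St × Finset St => (⟨trS S.nf (up S.l q.1) q.2, ∅⟩ : LP St))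
    fun q hq => smo_mem h (mem_product.1 hq).2 q.1]
  refine sum_le_sum fun o ho => ?_
  have h0 : (0 : ℝ) < (dn S.l S.n o.1).card := by
    exact_mod_cast ((mem_lps.1 (mem_filter.1 ho).1).2.1.image _).card_pos
  refine (sum_le_card_nsmul _ _ (G o.1 / (dn S.l S.n o.1).card) fun q hq => ?_).trans ?_
  · rw [← (mem_filter.1 hq).2] at h0 ⊢
    refine div_le_div_of_nonneg_left (hG _) h0 ?_
    rw [dn_trS', Nat.cast_le]
    exact card_image_le
  · rw [nsmul_eq_mul, ← mul_div_assoc, div_le_iff₀' h0]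
    refine mul_le_mul_of_nonneg_right (Nat.cast_le.2 (card_le_card_of_injOn (fun q => q.1)
      (fun q hq => ?_) fun q hq q' hq' e => Prod.ext e ?_)) (hG _)
    · obtain ⟨h1, h2⟩ := mem_filter.1 (mem_coe.1 hq)
      rw [← h2, dn_trS']
      refine mem_coe.2 (mem_image.2 ⟨0, (mem_X1s.1 (mem_product.1 h1).2).2.2, ?_⟩)
      rw [zero_add, rc_eq h.odd (mem_product.1 h1).1]
    · obtain ⟨h1, h2⟩ := mem_filter.1 (mem_coe.1 hq)
      obtain ⟨h3, h4⟩ := mem_filter.1 (mem_coe.1 hq')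
      have := congrArg (fun o : LP St => trS S.nf (-up S.l q.1) o.1) (h2.trans h4.symm)
      simp only [trS_trS, ← show q.1 = q'.1 from e, add_neg_cancel] at this
      rwa [trS_zero fun x hx => rc_eq h.odd_nf ((mem_X1s.1 (mem_product.1 h1).2).1 hx),
        trS_zero fun x hx => rc_eq h.odd_nf ((mem_X1s.1 (mem_product.1 h3).2).1 hx)] at this

/-- a large fluctuation -/
def oD (y : St) : Ob := .inl (.inr (.inl y))

/-- a large block field -/
def oW (y : St) : Ob := .inl (.inr (.inr y))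

/-- a determinant mark -/
def oZ (Z : Finset St) : Ob := .inr (.inr (.inr (.inr Z)))

theorem sum_obs {M : Type} [AddCommMonoid M] (f : Ob → M) : ∑ o ∈ S.obs, f o =
    ∑ o ∈ lps (box (S.nf / 2)), f (.inl (.inl o)) + (∑ y ∈ S.Λ', f (oD y) + ∑ y ∈ S.Λ', f (oW y)) +
    (∑ y ∈ S.Λ', f (oM y) + (∑ q ∈ S.Λ' ×ˢ S.prs, f (oP q.1 q.2) +
    (∑ q ∈ S.Λ' ×ˢ S.X1s, f (oS q.1 q.2) + ∑ Z ∈ S.Λ'.powerset.erase ∅, f (oZ Z)))) := by
  simp only [obs, mks, sum_disjSum]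
  rfl

/-- Mayer marks -/
def IsM (o : Ob) : Prop := ∃ y, o = oM y

/-- the number of primitive marks of an object -/
def nc : Ob → ℕ
  | .inl (.inl o) => o.2.card
  | .inl (.inr _) => 1
  | .inr _ => 0

/-- the majorant of an object with the weight of its support, for the objects which contain `x` -/
def ow (S : Sd) (w : Ob → ℝ) (x : St) (o : Ob) : ℝ := if x ∈ S.sp o then
  w o * Real.exp (nc o + (S.p'.a + 2) * tau S.n S.p'.D (S.sp o)) else 0

/-- majorant of the families with one member, after the cancellations -/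
def w1 (S : Sd) (b θ : ℝ) (k : Mj) : Ob → ℝ
  | .inl (.inl o) => S.wo b k (.inl (.inl o)) * if Sm1 S o then (S.Q ^ 10)⁻¹ + 10 * θ else 1
  | .inl (.inr y) => S.wo b k (.inl (.inr y))
  | .inr (.inl _) => S.θ2 b
  | .inr (.inr (.inl _)) => S.θ2 b
  | .inr (.inr (.inr (.inl _))) => 0
  | .inr (.inr (.inr (.inr Z))) => S.wo b k (oZ Z)

theorem wo_nonneg (h : S.Ok) (hO : S.t.O.Ok S.c) (b0 : 0 ≤ b) (hk : ∀ X c, 0 ≤ k X c) :
    ∀ o, 0 ≤ S.wo b k o
  | .inl (.inl _) => mul_nonneg (hk _ _) (Real.exp_nonneg _)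
  | .inl (.inr _) => Real.exp_nonneg _
  | .inr (.inl _) => mul_nonneg (pow_nonneg S.Q0.le _) (add_nonneg h.g0.le b0)
  | .inr (.inr (.inl _)) => mul_nonneg (pow_nonneg S.Q0.le _) (sq_nonneg _)
  | .inr (.inr (.inr (.inl _))) => div_nonneg (mul_nonneg (by norm_num) (hk _ _)) (Nat.cast_nonneg _)
  | .inr (.inr (.inr (.inr _))) => hO.kd_nonneg _

theorem ow_nonneg (h : 0 ≤ w o) : 0 ≤ ow S w x o := by
  unfold ow
  split_ifs
  exacts [mul_nonneg h (Real.exp_nonneg _), le_rfl]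

theorem ite_le_ite_of {P : Prop} {i j : Decidable P} {u v : ℝ} (h : P → u ≤ v) :
    @ite _ P i u 0 ≤ @ite _ P j v 0 := by
  split_ifs with hP
  exacts [h hP, le_rfl]

theorem exp3 : Real.exp 3 ≤ 21 := by
  rw [show (3 : ℝ) = (3 : ℕ) * 1 by norm_num, Real.exp_nat_mul]
  exact (pow_le_pow_left₀ (Real.exp_nonneg _) Real.exp_one_lt_d9.le _).trans (by norm_num)

/-- the standing assumptions -/
structure Hy (S : Sd) : Prop where
  nu : S.Nu 0
  op : S.t.O.Ok S.c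

namespace Hy

variable (h : Hy S)
include h

theorem D_pos : 1 ≤ S.p.D ∧ 1 ≤ S.p'.D := by
  have := h.nu.lens
  rw [p_D, p'_D]
  omega

theorem a'_mem : 20 ≤ S.p'.a ∧ 10 * S.p'.a ≤ S.r := by
  have h1 := h.nu.logQ_ge
  have h2 := h.nu.logQ_le
  rw [p'_a]
  constructor <;> norm_num at h2 <;> linarith

theorem vol8 : 1000 * ((2 * (15 * S.D0 : ℕ) + 1 : ℝ) ^ 4 * S.L ^ 4) ≤ S.Q ∧
    1000 * ((2 * (15 * S.D0 : ℕ) + 1 : ℝ) ^ 4 * (40 * S.D0 + 1) ^ 4) ≤ S.Q := by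
  have h1 : (1 : ℝ) ≤ S.D0 := by exact_mod_cast D1 _
  have h2 := h.nu.mon (C := 10 ^ 20) (i := 0) (j := 8) (by norm_num) (by omega)
    (by omega)
  have h3 : (2 * (15 * S.D0 : ℕ) + 1 : ℝ) ^ 4 ≤ (41 * S.D0) ^ 4 := by
    push_cast
    gcongr
    linarith
  have h4 : S.L ^ 4 ≤ (41 * S.D0) ^ 4 := by
    gcongr
    exacts [(L0 _).le, by linarith [h.nu.L_le_D]]
  have h5 : (40 * S.D0 + 1 : ℝ) ^ 4 ≤ (41 * S.D0) ^ 4 := by
    gcongr
    linarith
  have h6 : 1000 * ((41 * S.D0 : ℝ) ^ 4 * (41 * S.D0) ^ 4) ≤ S.Q := by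
    nlinarith [pow_pos (one_pos.trans_le h1) 8]
  have := L0 S.toTd
  constructor <;> refine le_trans ?_ h6 <;> gcongr

theorem tau_old (X : Finset St) : tau S.n S.p'.D (tb S.n (13 * S.D0) (dn S.l S.n X)) ≤
    max 1 (tau S.nf S.p.D X / 2) := by
  refine tau_scale h.D_pos.1 ?_ X
  have := h.nu.lens
  have h2 : 4 * S.p.D / LL S.l ≤ S.D0 := Nat.div_le_of_le_mul (by rw [p_D]; omega)
  rw [p'_D]
  omega

theorem ow_old (hk : ∀ X c, 0 ≤ k X c) (o : LP St) : ow S (S.wo b k) x (.inl (.inl o)) ≤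
    (if x ∈ tb S.n (13 * S.D0) (dn S.l S.n o.1) then k o.1 o.2 * wgt S.p S.nf o.1 o.2 else 0) *
      Real.exp (if Sm1 S o then 3 else 3 - S.p'.a) := by
  rw [ow, ite_mul, zero_mul]
  refine ite_le_ite_of (fun _ => ?_)
  rw [wo, wgt, mul_assoc, mul_assoc, ← Real.exp_add, ← Real.exp_add]
  refine mul_le_mul_of_nonneg_left (Real.exp_le_exp.2 ?_) (hk _ _)
  have h1 := h.tau_old o.1
  have h2 := tau_pos (n := S.nf) h.D_pos.1 o.1
  have h3 := h.a'_mem
  have h4 := h.nu.a_ge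
  have h5 := h.nu.r_le_D
  simp only [sum_sub_distrib, sum_const, nsmul_eq_mul, nc, sp, bs, Sm1, ← card_eq_zero]
  generalize tau S.n S.p'.D _ = t' at *
  generalize tau S.nf S.p.D o.1 = t at *
  generalize o.2.card = m
  have h6 : (0 : ℝ) ≤ m := m.cast_nonneg
  have h7 : (1 : ℝ) ≤ t := by exact_mod_cast h2
  rcases h2.eq_or_lt with rfl | h2
  · have h8 : (t' : ℝ) ≤ 1 := by exact_mod_cast h1
    split_ifs with hm
    · nlinarith
    · have : (1 : ℝ) ≤ m := by exact_mod_cast (by omega : 1 ≤ m)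
      nlinarith
  · have h8 : 2 * (t' : ℝ) ≤ t := by exact_mod_cast (by omega : 2 * t' ≤ t)
    have h9 : (2 : ℝ) ≤ t := by exact_mod_cast h2
    rw [if_neg (by omega)]
    nlinarith

theorem sum_old (hk : kN S.p S.nf k θ) {T : Finset (LP St)} (hT : T ⊆ lps (box (S.nf / 2))) {C : ℝ}
    (hC : ∀ o ∈ T, Real.exp (if Sm1 S o then 3 else 3 - S.p'.a) ≤ 21 * C) (C0 : 0 ≤ C) :
    ∑ o ∈ T, ow S (S.wo b k) x (.inl (.inl o)) ≤ C * (S.Q * θ) / 40 := by
  have u0 : ∀ o : LP St, 0 ≤ if x ∈ tb S.n (13 * S.D0) (dn S.l S.n o.1) then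
      k o.1 o.2 * wgt S.p S.nf o.1 o.2 else 0 := fun o =>
    ite_nonneg (mul_nonneg (hk.1 _ _) (Real.exp_nonneg _)) le_rfl
  have θ0 := hk.nonneg
  have h1 := old_sum h.nu.ok.odd_nf hk (13 * S.D0) x
  rw [sum_filter] at h1
  refine (sum_le_sum fun o ho => (h.ow_old hk.1 o).trans
    (mul_le_mul_of_nonneg_left (hC o ho) (u0 o))).trans ?_
  rw [← sum_mul]
  refine (mul_le_mul_of_nonneg_right ((sum_le_sum_of_subset_of_nonneg hT fun o _ _ => u0 o).trans
    h1) (by positivity)).trans ?_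
  have h2 : (2 * (13 * S.D0 : ℕ) + 1 : ℝ) ^ 4 * (LL S.l : ℝ) ^ 4 ≤ S.Q / 1000 := by
    refine le_trans ?_ ((le_div_iff₀' (by norm_num)).2 h.vol8.1)
    unfold Td.L
    gcongr
    norm_num
  nlinarith [mul_le_mul_of_nonneg_left h2 (mul_nonneg θ0 C0), mul_nonneg (mul_nonneg θ0 C0) S.Q0.le]

theorem sum_old1 (hk : kN S.p S.nf k θ) {T : Finset (LP St)} (hT : T ⊆ lps (box (S.nf / 2))) :
    ∑ o ∈ T, ow S (S.wo b k) x (.inl (.inl o)) ≤ S.Q * θ / 40 := by
  have := h.sum_old (b := b) (x := x) hk hT (C := 1) (fun o _ => (Real.exp_le_exp.2 (by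
    split_ifs <;> linarith [h.a'_mem.1])).trans (exp3.trans_eq (mul_one _).symm)) zero_le_one
  rwa [one_mul] at this

theorem sum_old2 (hk : kN S.p S.nf k θ) : ∑ o ∈ (lps (box (S.nf / 2))).filter (¬ Sm1 S ·),
    ow S (S.wo b k) x (.inl (.inl o)) ≤ θ / S.Q / 40 := by
  have := S.Q0
  refine (h.sum_old hk (filter_subset _ _) (C := (S.Q ^ 2)⁻¹) (fun o ho => ?_)
    (by positivity)).trans_eq (by field_simp)
  rw [if_neg (mem_filter.1 ho).2, Real.exp_sub, Nu.exp_a', div_eq_mul_inv]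
  exact mul_le_mul_of_nonneg_right exp3 (by positivity)

theorem sum_ball {ι : Type} (T : Finset ι) (f : ι → Ob) (π : ι → St) {w0 : ℝ} {m : ℕ} (w1 : 0 ≤ w0)
    (hm : m ≤ (40 * S.D0 + 1) ^ 4) (h1 : ∀ y, (T.filter (π · = y)).card ≤ m)
    (h2 : ∀ i ∈ T, π i ∈ S.Λ' ∧ w (f i) = w0 ∧ nc (f i) ≤ 1 ∧
      ∀ z ∈ S.bs (f i), nearT S.n (2 * S.D0) (π i) z) :
    ∑ i ∈ T, ow S w x (f i) ≤ S.Q ^ 3 * w0 / 40 := by
  have h3 : ∀ i ∈ T, ∀ z ∈ S.sp (f i), nearT S.n (15 * S.D0) (π i) z := fun i hi z hz => by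
    obtain ⟨-, u, hu, h4⟩ := mem_tb.1 hz
    exact (((h2 i hi).2.2.2 u hu).trans h4).mono (by omega)
  have Q0 := S.Q0
  calc _ ≤ ∑ i ∈ T.filter (fun i => nearT S.n (15 * S.D0) (π i) x), w0 * (21 * S.Q ^ 2) := by
        rw [sum_filter]
        refine sum_le_sum fun i hi => ?_
        unfold ow
        split_ifs with a1 a2 a2
        · rw [(h2 i hi).2.1, tau_eq_one h.D_pos.2 fun z hz => (h3 i hi z hz).mono (by
            rw [p'_D]; omega), ← Nu.exp_a']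
          refine mul_le_mul_of_nonneg_left (le_trans ?_ (mul_le_mul_of_nonneg_right exp3
            (Real.exp_nonneg _))) w1
          have : (nc (f i) : ℝ) ≤ 1 := by exact_mod_cast (h2 i hi).2.2.1
          rw [← Real.exp_add, Real.exp_le_exp]
          push_cast
          linarith
        · exact absurd (h3 i hi x a1) a2
        · positivity
        · rfl
    _ ≤ S.Q / 1000 * (w0 * (21 * S.Q ^ 2)) := by
        rw [sum_const, nsmul_eq_mul]
        refine mul_le_mul_of_nonneg_right (le_trans ?_ ((le_div_iff₀' (by norm_num)).2 h.vol8.2))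
          (by positivity)
        have h4 := card_le_mul_card_image_of_maps_to (f := π)
          (s := T.filter fun i => nearT S.n (15 * S.D0) (π i) x)
          (t := (box (S.n / 2)).filter fun y => nearT S.n (15 * S.D0) y x)
          (fun i hi => mem_filter.2 ⟨(h2 i (mem_filter.1 hi).1).1, (mem_filter.1 hi).2⟩) m
          fun y _ => (card_le_card (filter_subset_filter _ (filter_subset _ _))).trans (h1 y)
        refine le_trans (Nat.cast_le.2 h4) ?_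
        rw [Nat.cast_mul, mul_comm]
        exact mul_le_mul (card_near h.nu.ok.odd _ _) (by exact_mod_cast hm) (by positivity)
          (by positivity)
    _ ≤ _ := by nlinarith [mul_nonneg w1 (pow_pos Q0 3).le]

theorem sum_site (f : St → Ob) {w0 : ℝ} (w1 : 0 ≤ w0)
    (h2 : ∀ y, w (f y) = w0 ∧ nc (f y) ≤ 1 ∧ S.bs (f y) = {y}) :
    ∑ y ∈ S.Λ', ow S w x (f y) ≤ S.Q ^ 3 * w0 / 40 :=
  h.sum_ball _ f id (m := 1) w1 (Nat.one_le_pow _ _ (by omega))
    (fun y => card_le_one.2 fun _ a1 _ a2 => (mem_filter.1 a1).2.trans (mem_filter.1 a2).2.symm)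
    fun y hy => ⟨hy, (h2 y).1, (h2 y).2.1, fun z hz => by
      rw [(h2 y).2.2, mem_singleton] at hz
      exact hz ▸ nearT.refl _ _ _⟩

theorem sum_pair {w0 : ℝ} (w1 : 0 ≤ w0) (hw : ∀ y u, w (oP y u) = w0) :
    ∑ q ∈ S.Λ' ×ˢ S.prs, ow S w x (oP q.1 q.2) ≤ S.Q ^ 3 * w0 / 40 := by
  refine h.sum_ball _ (fun q : St × St => oP q.1 q.2) Prod.fst w1 le_rfl (fun y => ?_) fun q hq =>
    ⟨(mem_product.1 hq).1, hw _ _, zero_le_one, fun z hz => ?_⟩
  · refine (card_le_card_of_injOn (t := box (2 * S.D0)) Prod.snd (fun q hq => mem_of_mem_erase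
      (mem_product.1 (mem_filter.1 (mem_coe.1 hq)).1).2) fun q hq q' hq' e => Prod.ext
      ((mem_filter.1 (mem_coe.1 hq)).2.trans (mem_filter.1 (mem_coe.1 hq')).2.symm) e).trans ?_
    rw [card_box]
    exact Nat.pow_le_pow_left (by omega) _
  · rcases mem_insert.1 hz with rfl | hz
    · exact nearT.refl _ _ _
    · rw [mem_singleton.1 hz]
      exact nearT_rc_right.2 (nearT_add (mem_of_mem_erase (mem_product.1 hq).2))

theorem sum_smo (hk : kN S.p S.nf k θ) :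
    ∑ q ∈ S.Λ' ×ˢ S.X1s, ow S (S.wo b k) x (oS q.1 q.2) ≤ S.Q * θ / 10 := by
  have h1 := smo_sum h.nu.ok (fun X => 4 * ow S (S.wo b k) x (oX X)) fun X => mul_nonneg (by norm_num)
    (ow_nonneg (mul_nonneg (hk.1 _ _) (Real.exp_nonneg _)))
  have h2 := h.sum_old1 (b := b) (x := x) hk (filter_subset (Sm1 S) _)
  rw [← mul_sum, sum_congr rfl (g := fun o => ow S (S.wo b k) x (.inl (.inl o))) fun o ho => by
    obtain ⟨X, c⟩ := o
    rw [show c = ∅ from (mem_filter.1 ho).2.1, oX]] at h1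
  refine le_trans (le_of_eq (sum_congr rfl fun q _ => ?_)) (h1.trans (by linarith))
  simp only [ow, oS, oX, sp, bs, wo, wk, nc, sum_empty, card_empty, Real.exp_zero]
  split_ifs <;> ring

theorem sum_det :
    ∑ Z ∈ S.Λ'.powerset.erase ∅, ow S (S.wo b k) x (oZ Z) ≤ S.g ^ 4 := by
  have h0 := h.nu.lens
  have h1 := kd_sum h.op h.nu.ok.odd (R := 13 * S.D0) (D := S.p'.D) (a := S.p'.a + 2) (e := 0)
    (by rw [p'_D, show S.t.O.N = S.N from rfl]; omega) (by rw [p'_D]; omega)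
    (by linarith [h.a'_mem.1]) le_rfl (by
      rw [show S.t.O.l = S.l from rfl]; linarith [h.a'_mem.1, h.a'_mem.2, h.nu.r_le_l]) x
  rw [sum_filter] at h1
  refine le_trans (le_trans (sum_le_sum_of_subset_of_nonneg (erase_subset _ _) fun Z _ _ =>
    ow_nonneg (h.op.kd_nonneg _)) (le_of_eq (sum_congr rfl fun Z _ => ?_))) (h1.trans ?_)
  · simp [ow, oZ, sp, bs, wo, wk, nc]
  · refine le_trans (mul_le_mul_of_nonneg_right ?_ (Real.exp_nonneg _))
      (h.nu.exp_g (i := 1) h.nu.r_le_lsq (by omega) (by omega))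
    have h2 := h.vol8.1
    have h3 : (2 * (13 * S.D0 : ℕ) + 1 : ℝ) ^ 4 ≤ (2 * (15 * S.D0 : ℕ) + 1 : ℝ) ^ 4 := by
      gcongr
      norm_num
    have h4 : 1 ≤ S.L ^ 4 := one_le_pow₀ (L1 _)
    rw [pow_one]
    nlinarith [show (0 : ℝ) ≤ (2 * (15 * S.D0 : ℕ) + 1 : ℝ) ^ 4 by positivity]

theorem sum_DW : ∑ y ∈ S.Λ', ow S (S.wo b k) x (oD y) + ∑ y ∈ S.Λ', ow S (S.wo b k) x (oW y) ≤ S.g ^ 4 := by
  have h1 := h.sum_site (w := S.wo b k) (x := x) oD (Real.exp_nonneg (-S.D0))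
    fun y => ⟨rfl, le_rfl, rfl⟩
  have h2 := h.sum_site (w := S.wo b k) (x := x) oW (Real.exp_nonneg (-S.D0))
    fun y => ⟨rfl, le_rfl, rfl⟩
  have h3 := h.nu.exp_g (i := 3) (j := 4) h.nu.r_le_D (by omega) (by omega)
  linarith [pow_pos h.nu.ok.g0 4]

theorem sum_may (b0 : 0 ≤ b) :
    ∑ y ∈ S.Λ', ow S (S.wo b k) x (oM y) ≤ S.Q ^ 23 * (S.g + b) / 40 :=
  (h.sum_site oM (mul_nonneg (pow_nonneg S.Q0.le _) (add_nonneg h.nu.ok.g0.le b0))
    fun y => ⟨rfl, zero_le_one, rfl⟩).trans_eq (by ring)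

theorem sum_M (b0 : 0 ≤ b) :
    ∑ o ∈ S.obs, (if IsM o then ow S (S.wo b k) x o else 0) ≤ S.Q ^ 23 * (S.g + b) / 40 := by
  simpa [sum_obs, IsM, oD, oW, oP, oS, oZ, oM] using h.sum_may (k := k) (x := x) b0

theorem g4 : 100 * S.g ^ 4 ≤ S.g ^ 3 ∧ S.g ^ 3 ≤ S.g ^ 2 := by
  have h1 := h.nu.ok.Qg_le (i := 1) (j := 0) (by omega)
  have h2 := h.nu.cQ' (C := 100) (by norm_num)
  have g0 := h.nu.ok.g0
  exact ⟨by nlinarith [pow_pos g0 3, mul_le_mul_of_nonneg_right h2 g0.le],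
    pow_le_pow_of_le_one g0.le h.nu.ok.g1 (by omega)⟩

theorem sum_N (hk : kN S.p S.nf k θ) :
    ∑ o ∈ S.obs, (if IsM o then 0 else ow S (S.wo b k) x o) ≤ (S.Q ^ 48 * S.g ^ 2 + S.Q * θ) / 8 := by
  have h1 := h.sum_old1 (b := b) (x := x) hk subset_rfl
  have h2 := h.sum_DW (b := b) (k := k) (x := x)
  have h3 := h.sum_pair (w := S.wo b k) (x := x) (w0 := S.Q ^ 45 * S.g ^ 2)
    (mul_nonneg (pow_nonneg S.Q0.le _) (sq_nonneg _)) fun _ _ => rfl
  have h4 := h.sum_smo (b := b) (x := x) hk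
  have h5 := h.sum_det (b := b) (k := k) (x := x)
  have h6 := h.g4
  have h7 := le_mul_of_one_le_left (sq_nonneg S.g) (one_le_pow₀ (n := 48) S.Q1)
  simp only [sum_obs, IsM, oD, oW, oP, oS, oZ, oM, Sum.inr.injEq, Sum.inl.injEq, reduceCtorEq,
    exists_false, exists_eq', if_true, if_false, sum_const_zero] at *
  linarith [sq_nonneg S.g]

theorem small (b0 : 0 ≤ b) (hb : S.Q ^ 100 * b ≤ 1) {j : ℕ} (hj : j ≤ 99) :
    100 * (S.Q ^ j * b) ≤ 1 := by
  have Q1 := S.Q1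
  refine le_trans ?_ hb
  rw [← mul_assoc, show 100 = 1 + 99 from rfl, pow_add, pow_one]
  gcongr
  exact h.nu.cQ' (by norm_num)

theorem small_g {j : ℕ} (hj : j ≤ 99) : 100 * (S.Q ^ j * S.g) ≤ 1 :=
  h.small h.nu.ok.g0.le (by simpa using h.nu.ok.Qg_le (i := 100) (j := 0) (by omega)) hj

/-- sums over connected families -/
theorem kp_core (b0 : 0 ≤ b) (hk : kN S.p S.nf k θ) (x : St)
    {T : Finset (Finset Ob)} {M : ℝ} (M0 : 0 ≤ M) (hT : ∀ O ∈ T, O ⊆ S.obs ∧ Conn S.sp O ∧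
      x ∈ us S.sp O ∧ ∏ o ∈ O, (if IsM o then S.Q ^ 32 * (S.g + b) else
        S.Q ^ 9 * (S.Q ^ 48 * S.g ^ 2 + S.Q * θ)) ≤ M) :
    S.Q ^ 8 * ∑ O ∈ T, (∏ o ∈ O, S.wo b k o * Real.exp (nc o)) *
      Real.exp ((S.p'.a + 1) * tau S.n S.p'.D (us S.sp O)) ≤ M / 2 := by
  have θ0 := hk.nonneg
  have w0 := wo_nonneg h.nu.ok h.op b0 hk.1
  have Q1 := S.Q1
  have g0 := h.nu.ok.g0
  have a0 := h.a'_mem.1
  set A := S.p'.a + 1 with hA
  set e : ℝ := ((40 * S.D0 + 1) ^ 4)⁻¹ with he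
  have e0 : 0 < e := by positivity
  have e1 : e ≤ 1 := inv_le_one_of_one_le₀ (one_le_pow₀ (by linarith [S.D0.cast_nonneg (α := ℝ)]))
  have e2 : Real.exp (4 * A) ≤ e * S.Q ^ 9 := by
    have h1 := h.vol8.2
    have h2 : (1 : ℝ) ≤ (2 * (15 * S.D0 : ℕ) + 1 : ℝ) ^ 4 :=
      one_le_pow₀ (by linarith [(15 * S.D0).cast_nonneg (α := ℝ)])
    have h3 : Real.exp 4 ≤ 441 := (Real.exp_le_exp.2 (by norm_num)).trans
      ((Real.exp_add 3 3).trans_le (by nlinarith [exp3, Real.exp_pos 3]))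
    rw [he, le_inv_mul_iff₀ (by positivity), show 4 * A = (4 : ℕ) * S.p'.a + 4 by
      rw [hA]; push_cast; ring, Real.exp_add, Real.exp_nat_mul, Nu.exp_a']
    calc _ ≤ (40 * S.D0 + 1) ^ 4 * ((S.Q ^ 2) ^ 4 * 441) := by gcongr
      _ = 441 * (40 * S.D0 + 1) ^ 4 * S.Q ^ 8 := by ring
      _ ≤ S.Q * S.Q ^ 8 := by
        gcongr
        nlinarith [show (0 : ℝ) ≤ (40 * S.D0 + 1) ^ 4 by positivity]
      _ = _ := by ring
  set q1 := S.Q ^ 32 * (S.g + b) with hq1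
  set q2 := S.Q ^ 9 * (S.Q ^ 48 * S.g ^ 2 + S.Q * θ) with hq2
  have p1 : 0 < q1 := by positivity
  have p2 : 0 < q2 := by positivity
  refine le_trans ?_ ((conn_scale S.sp S.obs (fun o => Xp.sp_ne) (fun o => S.wo b k o *
    Real.exp (nc o) * Real.exp (A * (tau S.n S.p'.D (S.sp o) + 4))) _ (fun o => by
      have := w0 o; positivity) (fun o => by split_ifs <;> assumption) e0 (fun y => ?_) x M0 hT).trans
    (by nlinarith))
  · rw [mul_sum]
    refine sum_le_sum fun O hO => ?_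
    rw [prod_mul_distrib (g := fun o => Real.exp (A * _)), mul_left_comm, ← Real.exp_sum]
    refine mul_le_mul_of_nonneg_left ?_ (prod_nonneg fun o _ => by have := w0 o; positivity)
    have h1 : (tau S.n S.p'.D (us S.sp O) + 4 : ℝ) ≤
        ∑ o ∈ O, (tau S.n S.p'.D (S.sp o) + 4 : ℝ) := by
      exact_mod_cast tau_conn h.D_pos.2 S.sp (hT O hO).2.1
    rw [show S.Q ^ 8 = (S.Q ^ 2) ^ 4 by ring, ← Nu.exp_a', ← Real.exp_nat_mul, ← Real.exp_add,
      ← mul_sum, Real.exp_le_exp]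
    push_cast
    nlinarith
  · have h1 := h.sum_M (k := k) (x := y) b0
    have h2 := h.sum_N (b := b) (x := y) hk
    calc _ ≤ ∑ o ∈ S.obs, e * S.Q ^ 9 * ((if IsM o then ow S (S.wo b k) y o else 0) / q1 +
          (if IsM o then 0 else ow S (S.wo b k) y o) / q2) := by
          rw [sum_filter]
          refine sum_le_sum fun o _ => ?_
          have h3 : (if y ∈ S.sp o then S.wo b k o * Real.exp (nc o) * Real.exp (A * (tau S.n S.p'.D
              (S.sp o) + 4)) * Real.exp (e * (S.sp o).card) else 0) ≤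
              e * S.Q ^ 9 * ow S (S.wo b k) y o := by
            rw [ow, mul_ite, mul_zero]
            refine ite_le_ite_of fun _ => ?_
            have h4 : ((S.sp o).card : ℝ) ≤ tau S.n S.p'.D (S.sp o) * (40 * S.D0 + 1) ^ 4 := by
              have := card_le_tau (X := S.sp o) h.D_pos.2 fun z hz => (mem_tb.1 hz).1
              rw [p'_D, ← mul_assoc] at this
              exact_mod_cast this
            rw [← div_le_iff₀ (by positivity), div_eq_inv_mul, ← he] at h4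
            rw [mul_left_comm, mul_assoc, mul_assoc, ← Real.exp_add, ← Real.exp_add]
            refine mul_le_mul_of_nonneg_left (le_trans ?_
              (mul_le_mul_of_nonneg_right e2 (Real.exp_nonneg _))) (w0 o)
            rw [← Real.exp_add, Real.exp_le_exp, hA]
            linarith
          split_ifs at h3 ⊢ <;> simp only [zero_div, zero_add, add_zero, ← mul_div_assoc,
            div_mul_eq_mul_div] <;> first | gcongr | positivity
      _ ≤ e * S.Q ^ 9 * (S.Q ^ 23 * (S.g + b) / 40 / q1 +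
          (S.Q ^ 48 * S.g ^ 2 + S.Q * θ) / 8 / q2) := by
          rw [← mul_sum, sum_add_distrib, ← sum_div, ← sum_div]
          gcongr
      _ = e * (1 / 40 + 1 / 8) := by
          rw [hq1, hq2]
          field_simp
      _ ≤ _ := by linarith

/-- families with at least two members, except the pairs of Mayer marks -/
theorem kp_many (b0 : 0 ≤ b) (hb : S.Q ^ 100 * b ≤ 1) (hθ : S.Q ^ 100 * θ ≤ 1)
    (hk : kN S.p S.nf k θ) (x : St) {T : Finset (Finset Ob)} (hT : ∀ O ∈ T, O ⊆ S.obs ∧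
      Conn S.sp O ∧ x ∈ us S.sp O ∧ 2 ≤ O.card ∧ (O.card = 2 → ∃ o ∈ O, ¬ IsM o)) :
    ∑ O ∈ T, (∏ o ∈ O, S.wo b k o * Real.exp (nc o)) *
      Real.exp ((S.p'.a + 1) * tau S.n S.p'.D (us S.sp O)) ≤
      S.Q ^ 89 * (S.g ^ 3 + S.g * b + b ^ 2 + θ ^ 2 + S.g * θ) := by
  have θ0 := hk.nonneg
  have Q1 := S.Q1
  have g0 := h.nu.ok.g0
  have key := fun M M0 => h.kp_core b0 hk x (T := T) (M := M) M0
  set q1 := S.Q ^ 32 * (S.g + b) with hq1
  set q2 := S.Q ^ 9 * (S.Q ^ 48 * S.g ^ 2 + S.Q * θ) with hq2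
  have p1 : 0 < q1 := by positivity
  have p2 : 0 < q2 := by positivity
  have p3 : q2 ≤ S.Q ^ 32 * (S.g + θ) := by
    have h1 := mul_le_mul_of_nonneg_right (S.Qw (show 10 ≤ 32 by omega)) θ0
    have h2 := mul_le_mul_of_nonneg_left (h.small_g (j := 25) (by omega))
      (show 0 ≤ S.Q ^ 32 * S.g by positivity)
    rw [hq2]
    nlinarith [show 0 ≤ S.Q ^ 32 * S.g by positivity]
  have p4 : q1 + q2 ≤ 1 := by
    nlinarith [h.small b0 hb (j := 32) (by omega), h.small θ0 hθ (j := 32) (by omega),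
      h.small_g (j := 32) (by omega)]
  refine le_of_mul_le_mul_left ((key ((q1 + q2) ^ 3 + (q1 + q2) * q2) (by positivity)
    fun O hO => ?_).trans ?_) (pow_pos S.Q0 8)
  · obtain ⟨a1, a2, a3, a4, a5⟩ := hT O hO
    refine ⟨a1, a2, a3, ?_⟩
    have h1 : ∀ O' : Finset Ob, ∏ o ∈ O', (if IsM o then q1 else q2) ≤ (q1 + q2) ^ O'.card :=
      fun O' => (prod_le_prod (fun o _ => by positivity) fun o _ => by
        split_ifs <;> linarith).trans_eq (prod_const _)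
    rcases a4.eq_or_lt with a4 | a4
    · obtain ⟨o, ho, hm⟩ := a5 a4.symm
      rw [← mul_prod_erase _ _ ho, if_neg hm]
      have := h1 (O.erase o)
      rw [card_erase_of_mem ho, ← a4, pow_one] at this
      nlinarith [pow_pos (add_pos p1 p2) 3]
    · nlinarith [(h1 O).trans (pow_le_pow_of_le_one (by positivity) p4 a4),
        mul_pos (add_pos p1 p2) p2]
  · have h1 : q1 + q2 ≤ S.Q ^ 32 * (2 * (S.g + b + θ)) := by
      nlinarith [show 0 ≤ S.Q ^ 32 * b by positivity, show 0 ≤ S.Q ^ 32 * θ by positivity]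
    have h2 : q2 ≤ S.Q ^ 57 * (S.g ^ 2 + θ) := by
      nlinarith [mul_le_mul_of_nonneg_right (S.Qw (show 10 ≤ 57 by omega)) θ0]
    have s1 : b ≤ 1 := by linarith [h.small b0 hb (j := 0) (by omega), pow_zero S.Q]
    have s2 : θ ≤ 1 := by linarith [h.small θ0 hθ (j := 0) (by omega), pow_zero S.Q]
    have s3 := h.nu.ok.g1
    set Y := S.g ^ 3 + S.g * b + b ^ 2 + θ ^ 2 + S.g * θ with hY
    have h3 : (S.g + b + θ) ^ 3 ≤ 9 * Y := by
      have := pow_le_pow_of_le_one b0 s1 (show 2 ≤ 3 by omega)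
      have := pow_le_pow_of_le_one θ0 s2 (show 2 ≤ 3 by omega)
      have h0 : 0 ≤ S.g + b + θ := by positivity
      nlinarith [mul_nonneg (add_nonneg g0.le b0) (sq_nonneg (S.g - b)),
        mul_nonneg (add_nonneg g0.le θ0) (sq_nonneg (S.g - θ)),
        mul_nonneg (add_nonneg b0 θ0) (sq_nonneg (b - θ)), mul_nonneg h0 (sq_nonneg (S.g - b)),
        mul_nonneg h0 (sq_nonneg (S.g - θ)), mul_nonneg h0 (sq_nonneg (b - θ)),
        mul_nonneg g0.le b0, mul_nonneg g0.le θ0]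
    have h4 : (S.g + b + θ) * (S.g ^ 2 + θ) ≤ 3 * Y := by
      nlinarith [mul_nonneg g0.le b0, mul_nonneg g0.le θ0, sq_nonneg (b - θ), pow_pos g0 3]
    have Y0 : 0 ≤ Y := by positivity
    calc _ ≤ ((S.Q ^ 32 * (2 * (S.g + b + θ))) ^ 3 + S.Q ^ 32 * (2 * (S.g + b + θ)) *
          (S.Q ^ 57 * (S.g ^ 2 + θ))) / 2 := by gcongr
      _ = 4 * S.Q ^ 96 * (S.g + b + θ) ^ 3 + S.Q ^ 89 * ((S.g + b + θ) * (S.g ^ 2 + θ)) := by ring
      _ ≤ 4 * S.Q ^ 96 * (9 * Y) + S.Q ^ 96 * (3 * Y) := by gcongr; omega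
      _ = 39 * (S.Q ^ 96 * Y) := by ring
      _ ≤ S.Q * (S.Q ^ 96 * Y) := by gcongr; exact h.nu.cQ' (by norm_num)
      _ = _ := by ring

/-- pairs of Mayer marks -/
theorem kp_two (x : St) {T : Finset (Finset Ob)} (hT : ∀ O ∈ T, O ⊆ S.obs ∧
      Conn S.sp O ∧ x ∈ us S.sp O ∧ O.card = 2 ∧ ∀ o ∈ O, IsM o) :
    2 * ∑ O ∈ T, Real.exp ((S.p'.a + 1) * tau S.n S.p'.D (us S.sp O)) ≤ S.Q ^ 16 := by
  have Q0 := S.Q0
  have g0 := h.nu.ok.g0
  have key := h.kp_core (b := 0) (k := 0) (θ := 0) le_rfl ⟨fun _ _ => le_rfl, fun _ => by simp⟩ x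
    (T := T) (M := (S.Q ^ 32 * (S.g + 0)) ^ 2) (sq_nonneg _) fun O hO => by
      obtain ⟨a1, a2, a3, a4, a5⟩ := hT O hO
      exact ⟨a1, a2, a3, by rw [prod_congr rfl fun o ho => if_pos (a5 o ho), prod_const, a4]⟩
  rw [sum_congr rfl (g := fun O => (S.Q ^ 20 * S.g) ^ 2 *
    Real.exp ((S.p'.a + 1) * tau S.n S.p'.D (us S.sp O))) fun O hO => by
      rw [prod_congr rfl (g := fun _ => S.Q ^ 20 * S.g) fun o ho => by
        obtain ⟨y, rfl⟩ := (hT O hO).2.2.2.2 o ho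
        simp [oM, wo, wk, θ1, nc], prod_const, (hT O hO).2.2.2.1], ← mul_sum] at key
  refine le_of_mul_le_mul_left ?_ (show 0 < S.Q ^ 48 * S.g ^ 2 by positivity)
  linarith

theorem θ2_nonneg (b0 : 0 ≤ b) : 0 ≤ S.θ2 b := by
  have := h.nu.ok.g0
  have := S.Q0
  unfold θ2
  positivity

/-- families with one member -/
theorem kp_one (b0 : 0 ≤ b) (hk : kN S.p S.nf k θ) (x : St) :
    ∑ o ∈ S.obs, ow S (w1 S b θ k) x o ≤ θ / S.Q / 20 + S.Q * θ ^ 2 + S.g ^ 3 + S.Q ^ 3 * S.θ2 b := by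
  have θ0 := hk.nonneg
  have Q0 := S.Q0
  have t0 := h.θ2_nonneg b0
  have h1 := h.sum_old1 (b := b) (x := x) hk (filter_subset (Sm1 S) _)
  have h2 := h.sum_old2 (b := b) (x := x) hk
  have h3 := h.sum_DW (b := b) (k := k) (x := x)
  have h4 := h.sum_site (w := w1 S b θ k) (x := x) oM t0 fun y => ⟨rfl, zero_le_one, rfl⟩
  have h5 := h.sum_pair (w := w1 S b θ k) (x := x) t0 fun _ _ => rfl
  have h6 := h.sum_det (b := b) (k := k) (x := x)
  have h7 := mul_le_mul_of_nonneg_right h1 (show 0 ≤ (S.Q ^ 10)⁻¹ + 10 * θ by positivity)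
  have h8 : S.Q * θ * (S.Q ^ 10)⁻¹ ≤ θ / S.Q := by
    rw [← div_eq_mul_inv, div_le_div_iff₀ (by positivity) Q0]
    nlinarith [mul_le_mul_of_nonneg_left (S.Qw (show 2 ≤ 10 by omega)) θ0]
  rw [sum_obs, ← sum_filter_add_sum_filter_not _ (Sm1 S),
    sum_congr rfl (g := fun o => ow S (S.wo b k) x (.inl (.inl o)) * ((S.Q ^ 10)⁻¹ + 10 * θ))
      fun o ho => by simp only [ow, w1, if_pos (mem_filter.1 ho).2]; split_ifs <;> ring,
    sum_congr rfl (s₁ := filter (¬ Sm1 S ·) _) (g := fun o => ow S (S.wo b k) x (.inl (.inl o)))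
      fun o ho => by simp only [ow, w1, if_neg (mem_filter.1 ho).2, mul_one], ← sum_mul,
    sum_eq_zero (s := S.Λ' ×ˢ S.X1s) fun q _ => by simp [ow, w1, oS]]
  change _ + _ + (∑ y ∈ _, ow S (S.wo b k) x (oD y) + ∑ y ∈ _, ow S (S.wo b k) x (oW y)) +
    (_ + (_ + (_ + ∑ Z ∈ _, ow S (S.wo b k) x (oZ Z)))) ≤ _
  nlinarith [h.g4.1, pow_pos h.nu.ok.g0 4, mul_nonneg (pow_pos Q0 3).le t0,
    mul_nonneg Q0.le (sq_nonneg θ)]

end Hy

end Pool.Agent.Lib.MP_7f377f_mp.RG.Q4.Kp
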