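import Pool.Agent.Lib.MP_7f377f_mp.Q4S1

/-! The push of a small term which lives on one site. -/

noncomputable section

namespace Pool.Agent.Lib.MP_7f377f_mp.RG.Q4

open Finset MeasureTheory

attribute [local irreducible] box lbox

section one

variable {Z : Type} [MeasurableSpace Z] {ν : Measure Z} {l r R R' s : ℕ}
  {lam xb xk xr δ δ' e ε d ρ ρ' : ℝ} {σ : V →ₗ[ℝ] V} {G : St → Z → Fld → Fld}
  {ψ : St → Fld → ℂ} {x : St} {a b : V}

theorem Fm.w {k : CF} (h : Fm R s xb xk k) (ha : Cw R s δ a) (hb : Cw R s δ' b) :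
    ‖k a b‖ ≤ (xb + xk) * δ * δ' := by
  have h3 := norm_add_le (k a b - k (Q4.cc a) (Q4.cc b)) (k (Q4.cc a) (Q4.cc b))
  rw [sub_add_cancel] at h3
  linarith [h.cb a b δ δ' ha.zero hb.zero, h.ck a b δ δ' ha hb]

theorem PtC.cw (hp : PtC l r lam σ) (lam0 : 0 ≤ lam) (hr : 1000 ≤ r)
    (hR : r / 3 + (R / LL l + 1) ≤ R') (ha : Cw R' s δ a) (hx : x ∈ box l) :
    Cw R s (lam * r ^ s * δ) (RG.sh x (mu l σ a)) := fun j hj => by
  have := ha.nonneg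
  have h1 := Nat.div_le_div_right (c := LL l) hj
  have h2 : r / 3 + (j / LL l + 1) + 1 ≤ r * (j + 1) := by
    have := Nat.div_le_self j (LL l)
    have := Nat.le_mul_of_pos_left j (by omega : 0 < r)
    rw [mul_add]
    omega
  refine (hp.sh (ha _ (by omega)) hx).mono le_rfl ?_
  rw [mul_assoc, mul_assoc, mul_left_comm ((r : ℝ) ^ s), ← mul_pow]
  gcongr
  exact_mod_cast h2

/-- the linear push of a form on one site -/
theorem fm_one {k : CF} (hk : Fm R s xb xk k) (hp : PtC l r lam σ) (lam0 : 0 ≤ lam) (hr : 1000 ≤ r)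
    (hR : r / 3 + (R / LL l + 1) ≤ R') (hx : x ∈ box l) :
    Fm R' s ((lam * r ^ s) ^ 2 * (xb + xk)) (2 * ((lam * r ^ s) ^ 2 * (xb + xk)))
      (pkL l σ fun y => if y = x then k else 0) := by
  have e : ∀ a b, pkL l σ (fun y => if y = x then k else 0) a b =
      k (sh x (mu l σ a)) (sh x (mu l σ b)) := fun a b => by
    rw [pkL_apply, sum_eq_single_of_mem x hx fun y _ h => by simp [h], if_pos rfl]
  have w : ∀ a b δ δ', Cw R' s δ a → Cw R' s δ' b → ‖pkL l σ (fun y => if y = x then k else 0) a b‖ ≤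
      (lam * r ^ s) ^ 2 * (xb + xk) * δ * δ' := fun a b δ δ' ha hb => (e a b).symm ▸
    (hk.w (hp.cw lam0 hr hR ha hx) (hp.cw lam0 hr hR hb hx)).trans_eq (by ring)
  exact ⟨fun a b => by rw [e, e, hk.symm], fun a b δ δ' ha hb =>
    w _ _ _ _ (Cw.cc ha R' s) (Cw.cc hb R' s), fun a b δ δ' ha hb => (norm_sub_le_of_le
      (w a b δ δ' ha hb) (w _ _ _ _ (Cw.cc ha.zero R' s) (Cw.cc hb.zero R' s))).trans_eq (by ring)⟩

variable [IsProbabilityMeasure ν]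

theorem Fam.jc_one (F : Fam ν l R R' σ δ e ε G) (hp : PtC l r lam σ)
    (hR : r / 3 + (R / LL l + 1) ≤ R') (hx : x ∈ box l) (h : Ps R s ρ 0 0 xr (ψ x))
    (h' : ∀ y ∈ box l, y ≠ x → ∀ B, ψ y B = 0) (d0 : 0 < d)
    (hd : 1001 * d ≤ δ) {d1 : ℝ} (h1 : 32 * lam * d + 1001 * (1001 * e * d + ε) ≤ d1) (h2 : d1 < ρ) :
    JC R' d d (xr * (d1 / ρ) ^ 3) (push ν l G ψ) := by
  intro η hη γ hγ h0 hv
  have c : ∀ z, Cu R η d1 fun T => G x z (γ T) := fun z =>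
    let q := F.cu hp hR hx z hη hγ h0 hv d0 hd; ⟨q.1, fun y hy μ ν => (q.2 y hy μ ν).trans h1⟩
  have c0 : ∀ T, Cv R' δ (γ T) := fun T y hy μ ν =>
    (norm_le_cN hη (fun T => dd (γ T) y μ ν) T).trans ((cN_le_cV hη _).trans (by
      linarith [h0 y hy μ ν, hv y hy μ ν]))
  have e : ∀ B, push ν l G ψ B = ∫ z, ψ x (G x z B) ∂ν := fun B => by
    simp only [push, fun z => sum_eq_single_of_mem x hx fun y hy h => h' y hy h (G y z B)]
  simp only [e]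
  refine (cN_integral ν hη (fun z T => ψ x (G x z (γ T))) (fun _ => _)
    (fun T => (h.measurable h2 (F.meas x hx _ (c0 T))
      fun z => ⟨(c z).1 T, (c z).cv hη T⟩).aestronglyMeasurable) (integrable_const _)
    (ae_of_all _ fun z => h.cN hη (c z) h2.le)).trans_eq ?_
  simp

/-- the push lemma for one site -/
theorem Fam.push_one {E1 E2 : ℝ} (F : Fam ν l R R' σ δ e ε G) (hx : x ∈ box l)
    (hψ : Ps R s ρ xb xk xr (ψ x)) (h' : ∀ y ∈ box l, y ≠ x → ψ y = 0) (hp : PtC l r lam σ)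
    (lam0 : 0 ≤ lam) (hr : 1000 ≤ r) (hR : r / 3 + (R / LL l + 1) ≤ R')
    (e0 : 0 ≤ e) (ε0 : 0 ≤ ε) (ρ0 : 0 < ρ') (hδ : 20020 * ρ' ≤ δ) (hρ : dOne lam e ε ρ' < ρ)
    (h2 : eOne l lam e ε δ * (xb + xk) ≤ E1) (h3 : xr * (dOne lam e ε ρ' / ρ) ^ 3 ≤ E2) :
    Ps R' s ρ' ((lam * r ^ s) ^ 2 * (xb + xk) + (E1 + E2 / ρ' ^ 2))
      (2 * ((lam * r ^ s) ^ 2 * (xb + xk)) + 2 * (R' + 1 : ℝ) ^ (2 * s) * (E1 + E2 / ρ' ^ 2))
      (2 * 10 ^ 7 * E1 * ρ' ^ 3 / δ + 125 * E2)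
      (fun B => push ν l G ψ B - push ν l G ψ 0) := by
  obtain ⟨k0, j1, -, j3⟩ := hψ.elim
  obtain ⟨k, hk⟩ : ∃ k : St → CF, k = fun y => if y = x then k0 else 0 := ⟨_, rfl⟩
  obtain ⟨a1, -⟩ := (hk ▸ fm_one j1 hp lam0 hr hR hx : Fm R' s _ _ (pkL l σ k)).ps ρ0
  have δ0 : 0 < δ := by linarith
  have p1 : 0 ≤ lam * ρ' := by positivity
  have p2 : 0 ≤ e * ρ' := by positivity
  have sm : 2 * lam * ρ' + (e * ρ' + ε) < ρ := by rw [dOne] at hρ; linarith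
  have p0 : 0 < ρ := by linarith
  have X0 := j1.cc.nonneg
  have r0' := j3.nonneg p0
  have D0 : 0 ≤ dOne lam e ε ρ' := by rw [dOne]; positivity
  have E20 : 0 ≤ E2 := le_trans (by positivity) h3
  have k1 : ∀ y ∈ box l, Fm R s xb xk (k y) := fun y _ => by
    simp only [hk]
    split_ifs
    exacts [j1, (fm_zero R s).mono le_rfl j1.xb0 j1.xk0]
  have k4 : ∀ y ∈ box l, y ≠ x → ∀ B, ψ y B - qf (k y) B = 0 :=
    fun y hy h B => by simp [hk, h, h' y hy h, qf]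
  have hrem : ∀ y ∈ box l, Ps R s ρ 0 0 xr fun B => ψ y B - qf (k y) B := fun y hy => by
    by_cases h : y = x
    · simp only [hk, h, if_pos]
      exact Ps.intro p0 (hψ.toLA.map₂ (j1.cc.la ρ) (· - ·)) (fm_zero R s) (by simpa [qf] using j3)
    · simpa only [k4 y hy h] using (ps_zero R s p0).1.mono' p0 le_rfl le_rfl r0'
  clear hk
  have kc := fun x hx => (k1 x hx).cc
  have la1 : LA R' ρ' (corr ν l σ G k) :=
    ((F.la hp hR (fun x hx => (kc x hx).la ρ) (by linarith) sm.le).map₂ a1.toLA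
      (· - ·)).congr fun B hB c =>
      F.corr_eq hp hR k1 hB (c.mono le_rfl (by linarith))
  obtain ⟨M, hM⟩ : ∃ M, M = (LL l : ℝ) ^ 4 * (24 * (xb + xk) * (e * δ + ε) *
    (4 * lam * δ + (e * δ + ε))) := ⟨_, rfl⟩
  have M0 : 0 ≤ M := by rw [hM]; positivity
  have M1 : 8 * 10 ^ 11 * (M / δ ^ 2) ≤ E1 := by
    refine le_trans ?_ h2
    have : M / δ ^ 2 = 24 * ((LL l : ℝ) ^ 4 * (e + ε / δ) * (4 * lam + (e + ε / δ)) * (xb + xk)) := by
      rw [hM]; field_simp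
    have p : 0 ≤ (LL l : ℝ) ^ 4 * (e + ε / δ) * (4 * lam + (e + ε / δ)) * (xb + xk) := by positivity
    rw [this, eOne]
    linarith
  have b1 := ((hM ▸ F.corr_jc hp hR kc δ0).ps' la1 M0 (by positivity) (by linarith) ρ0
    (by linarith) s).mono' ρ0 (xb' := E1) (xk' := 2 * (R' + 1 : ℝ) ^ (2 * s) * E1)
      (xr' := 2 * 10 ^ 7 * E1 * ρ' ^ 3 / δ) (le_of_eq_of_le (by field_simp; ring) M1)
      (calc _ = 2 * (R' + 1 : ℝ) ^ (2 * s) * (8 * 10 ^ 11 * (M / δ ^ 2)) := by field_simp; ring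
        _ ≤ _ := by gcongr)
      (calc _ = 2 * 10 ^ 7 * (8 * 10 ^ 11 * (M / δ ^ 2)) * ρ' ^ 3 / δ := by field_simp; ring
        _ ≤ _ := by gcongr)
  have M3 : 100 * (xr * (dOne lam e ε ρ' / ρ) ^ 3) / (20 * ρ') ^ 2 ≤ E2 / ρ' ^ 2 :=
    calc _ ≤ 400 * E2 / (20 * ρ') ^ 2 := by gcongr; norm_num
      _ = _ := by field_simp; ring
  have c1 := ((F.jc_one hp hR hx (ψ := fun y B => ψ y B - qf (k y) B) (hrem x hx) k4 (d := 20 * ρ')
    (by positivity) (by linarith)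
    (by rw [dOne]; linarith) hρ).ps (F.la hp hR (fun x hx => (hrem x hx).toLA) (by linarith) sm.le)
    (by positivity) le_rfl ρ0 le_rfl s).mono' ρ0 M3 (mul_le_mul_of_nonneg_left M3 (by positivity))
      (xr' := 125 * E2) (calc _ ≤ 10 ^ 6 * E2 * (ρ' / (20 * ρ')) ^ 3 := by gcongr
        _ = _ := by field_simp; ring)
  have key : ∀ B, RealF B → Cv R' ρ' B → push ν l G ψ B = qf (pkL l σ k) B + corr ν l σ G k B +
      push ν l G (fun x B => ψ x B - qf (k x) B) B := fun B hB c => by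
    rw [F.corr_eq hp hR k1 hB (c.mono le_rfl (by linarith)), add_sub_cancel, push, push, push,
      ← integral_add (F.integrable hp hR (fun x hx => ((k1 x hx).ps p0).1) hB c (by linarith) sm)
        (F.integrable hp hR hrem hB c (by linarith) sm)]
    simp
  exact ((a1.add (b1.add c1 ρ0).1 ρ0).1.congr ρ0 (ψ := fun B => push ν l G ψ B - push ν l G ψ 0)
    fun B hB c => by
      rw [key B hB c, key 0 realF_zero (Ho.cv_zero _ ρ0.le), a1.zero ρ0.le]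
      ring).1.mono' ρ0 (by linarith) (by linarith) (by linarith)

end one

theorem Sd.Pu.pz_one {S : Sd} (h : S.Pu) {xb xk xr : ℝ} {ψ : Lx} {x : St} (hx : x ∈ box S.l)
    (hψ : Ps S.p.R 6 S.p.ρ xb xk xr (ψ x)) (h' : ∀ y ∈ box S.l, y ≠ x → ψ y = 0) :
    Ps S.p'.R 6 S.p'.ρ ((xb + xk + xr / S.p.ρ ^ 2) / S.L ^ 2)
      ((xb + xk) / S.L ^ 2 + S.Q * xr / S.p.ρ ^ 2) (S.xr' xb xk xr 0 / S.L ^ 2)
      fun B => S.pz ψ B - S.pz ψ 0 := by
  have := Smo.nuI_prob (ζ := S.ζ) S.Q0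
  obtain ⟨l0, -, l2, -⟩ := h.lc0_le
  have ρ0 := h.ρ0
  have ρ1 := h.ρ_le
  have ρ2 : 0 < S.p.ρ := by linarith
  have u0 := h.nu.ok.u0
  have g0 := h.nu.ok.g0
  have Q0 := S.Q0
  have c0 := Sd.Nu.cs0 (S := S)
  have c1 : S.cs ≤ 1 := by simpa using h.nu.cs_le (k := 0) (by omega)
  have L1 := Sd.L1 S.toTd
  have L2 : 1 ≤ S.L ^ 2 := one_le_pow₀ L1
  have ex := h.nu.exps
  obtain ⟨b0, k0, x0⟩ := hψ.nonneg ρ2
  have Q9 := h.nu.cQ' (C := 10 ^ 9) (by norm_num)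
  obtain ⟨X, hX⟩ : ∃ X, X = (xb + xk) / S.L ^ 2 := ⟨_, rfl⟩
  obtain ⟨y, hy⟩ : ∃ y, y = xr / S.L ^ 2 := ⟨_, rfl⟩
  have X0 : 0 ≤ X := by rw [hX]; positivity
  have y0 : 0 ≤ y := by rw [hy]; positivity
  have eX : xb + xk = S.L ^ 2 * X := by rw [hX]; field_simp
  have ey : xr = S.L ^ 2 * y := by rw [hy]; field_simp
  obtain ⟨E, hE⟩ : ∃ E, E = S.Q ^ 3 * S.u * (xb + xk) := ⟨_, rfl⟩
  have E0 : 0 ≤ E := by rw [hE]; positivity
  have d0 : 0 ≤ dOne S.lc0 (S.Q * S.u) (S.Q ^ 2 * S.g) (3 * S.p'.ρ) := by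
    unfold dOne
    positivity
  have kp := h.fam.push_one (E1 := E) (E2 := S.cs * y * (S.p'.ρ / S.p.ρ) ^ 3 / 100)
    (ρ' := 3 * S.p'.ρ) hx hψ h' h.pt l0.le h.nu.r_3.1 h.rad
    (by positivity) (by positivity) (by positivity) (by nlinarith [h.ρ_u]) h.dOne_lt
    (hE ▸ mul_le_mul_of_nonneg_right h.eOne_le (by positivity)) ?_
  · have e1 : S.cs * y * (S.p'.ρ / S.p.ρ) ^ 3 / 100 / (3 * S.p'.ρ) ^ 2 ≤ y / S.p.ρ ^ 2 :=
      calc _ = y / S.p.ρ ^ 2 * (S.cs * (S.p'.ρ / (900 * S.p.ρ))) := by field_simp; ring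
        _ ≤ _ := mul_le_of_le_one_right (by positivity) (mul_le_one₀ c1 (by positivity)
          ((div_le_one (by positivity)).2 (by linarith)))
    have h1 : 2 * S.L ^ 2 ≤ S.Q := by
      simpa using h.nu.mon (C := 2) (i := 2) (j := 0) (by norm_num) (by omega) (by omega)
    have e2 : 2 * (S.Q * E) ≤ X :=
      calc _ = S.Q ^ 4 * S.u * (2 * S.L ^ 2) * X := by rw [hE, eX]; ring
        _ ≤ S.Q ^ 4 * S.u * S.Q * X := by gcongr
        _ ≤ _ := mul_le_of_le_one_left X0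
          ((mul_right_comm _ _ _).trans_le (h.nu.ok.Qu (i := 5) (by omega)))
    have e3 : 4 * ((S.lc0 * S.r ^ 6) ^ 2 * (xb + xk)) ≤ X :=
      calc _ = 4 * S.r ^ 20 / S.L * X := by
            rw [eX, mul_pow, Sd.lc0, div_pow, mul_pow, Real.sq_sqrt (by positivity)]
            change 4 * (_ / (S.L ^ 2 * S.L) * _ * _) = _
            field_simp
        _ ≤ _ := mul_le_of_le_one_left X0 ((div_le_one (by positivity)).2
          (h.nu.crL (by norm_num) (by omega)))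
    have e4 := le_mul_of_one_le_left E0 S.Q1
    refine (kp.ctr ρ0).1.mono' ρ0 ?_ ?_ ?_
    · rw [add_div (xb + xk), ← hX, div_right_comm xr, ← hy]
      linarith
    · have D1 : (1 : ℝ) ≤ S.D0 := by exact_mod_cast Sd.D1 S.toTd
      have e5 : 2 * (S.p'.R + 1 : ℝ) ^ (2 * 6) ≤ S.Q := by
        refine le_trans ?_ (h.nu.mon (C := 2 * 5 ^ 12) (i := 0) (j := 12) (by norm_num) (by omega)
          (by omega))
        rw [pow_zero, mul_one, mul_assoc, ← mul_pow, Sd.p'_R]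
        push_cast
        gcongr
        linarith
      have e6 : y / S.p.ρ ^ 2 ≤ xr / S.p.ρ ^ 2 := by
        gcongr
        exact hy ▸ div_le_self x0 L2
      have := mul_le_mul e5 (add_le_add_right (e1.trans e6) E) (by positivity) Q0.le
      rw [← hX, mul_div_assoc S.Q]
      linarith
    · have e5 : (S.p'.ρ / S.p.ρ) ^ 3 ≤ (3 / 2) ^ 3 :=
        pow_le_pow_left₀ (by positivity) ((div_le_iff₀ ρ2).2 ρ1) 3
      have e6 : 2 * 10 ^ 7 * E * (3 * S.p'.ρ) ^ 3 / S.u ≤ 27 * (E * S.p.ρ ^ 2) := by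
        rw [div_le_iff₀ u0]
        calc _ = 27 * (E * (S.p'.ρ ^ 2 * (2 * 10 ^ 7 * S.p'.ρ))) := by ring
          _ ≤ 27 * (E * ((3 / 2 * S.p.ρ) ^ 2 * (4 / 9 * S.u))) := by
            have : 2 * 10 ^ 7 * S.p'.ρ ≤ 4 / 9 * S.u := by
              linarith [h.ρ_u, mul_le_mul_of_nonneg_right Q9 ρ0.le]
            gcongr
          _ = _ := by ring
      have e7 : E * S.p.ρ ^ 2 + S.cs * y ≤ S.xr' xb xk xr 0 / S.L ^ 2 :=
        calc _ = S.Q ^ 3 * S.L ^ 2 * (S.u * X * S.p.ρ ^ 2) + S.cs * y := by rw [hE, eX]; ring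
          _ ≤ S.Q ^ 3 * S.Q ^ 7 * (S.u * X * S.p.ρ ^ 2) + S.cs * y := by
            gcongr
            linarith [le_self_pow₀ S.Q1 (by norm_num : 7 ≠ 0)]
          _ = _ := by
            rw [Sd.xr', eX, hy, Sd.u]
            field_simp
            ring
      nlinarith [mul_le_mul_of_nonneg_left e5 (by positivity : 0 ≤ S.cs * y), mul_nonneg c0.le y0]
  · calc _ ≤ S.L ^ 4 * y * (2000 * S.lc0 * S.p'.ρ / S.p.ρ) ^ 3 := by
          rw [ey]
          gcongr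
          exacts [by norm_num, h.dOne_le]
      _ = 8 * 10 ^ 9 * (S.L ^ 4 * S.lc0 ^ 3) * (y * (S.p'.ρ / S.p.ρ) ^ 3) := by ring
      _ ≤ S.cs / 100 * (y * (S.p'.ρ / S.p.ρ) ^ 3) := by
          gcongr
          linarith [show 0 ≤ S.L ^ 4 * S.lc0 ^ 3 by positivity]
      _ = _ := by ring

theorem pl_site (c : ℕ) : ∀ᶠ S in ev c, ∀ xb xk xr ψ, ∀ x0 ∈ box (S.nf / 2), PM S.p xb xk xr ψ →
    (∀ x ∈ box (S.nf / 2), x ≠ x0 → ψ x = 0) →
      (∀ y ∈ S.Λ', y ≠ yo S.l x0 → S.PL ψ 0 y = 0) ∧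
      PM S.p' ((xb + xk + xr / S.p.ρ ^ 2) / S.L ^ 2)
        ((xb + xk) / S.L ^ 2 + S.Q * xr / S.p.ρ ^ 2) (S.xr' xb xk xr 0 / S.L ^ 2) (S.PL ψ 0) := by
  filter_upwards [ev_pu c] with S h xb xk xr ψ x0 _ hψ h0
  have hn := h.nu.ok.odd_nf
  have e : ∀ y, S.PL ψ 0 y = fun B => S.pz (S.ψy ψ y) B - S.pz (S.ψy ψ y) 0 := fun y => by
    funext B
    simp only [Sd.PL, Sd.Pl, fun X B => Sd.Fs_zero (S := S) (K := S.Ky 0 y) (X := X) rfl B]
    simp
  have z : ∀ y x, rc S.nf (x + up S.l y) ≠ x0 → S.ψy ψ y x = 0 := fun y x => h0 _ (rc_mem hn _)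
  have b : ∀ y ∈ S.Λ', ∀ x ∈ box S.l, rc S.nf (x + up S.l y) = x + up S.l y := fun y hy x hx =>
    rc_eq hn (by rwa [Sd.nf_half h.nu.ok.odd, Op.mem_fb, Op.yo_add_box hx])
  refine ⟨fun y hy ne => ?_, fun y => ⟨?_, e y ▸ (h.pz_ps fun x _ => (hψ _).1).2.1.sub_const _⟩⟩
  · have : ∀ B, S.pz (S.ψy ψ y) B = 0 := fun B => norm_le_zero_iff.1 ((h.pz_le (b := 0)
      (fun x hx _ _ _ => by
        rw [z y x fun q => ne (by rw [← q, b y hy x hx, Op.yo_add_box hx])]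
        exact norm_zero.le) B).trans_eq (mul_zero _))
    funext B
    simp [e, this]
  · rw [e]
    by_cases q : ∃ x ∈ box S.l, rc S.nf (x + up S.l y) = x0
    · obtain ⟨x, hx, q⟩ := q
      refine h.pz_one hx (hψ _).1 fun x' hx' ne => z y x' fun q' => ne ?_
      have b0 : ∀ t ∈ box S.l, rc S.nf t = t := fun t ht =>
        rc_eq hn (box_mono (by rw [Sd.nf_half h.nu.ok.odd]; exact Nat.le_add_left _ _) ht)
      simpa only [rc_add_rc, add_neg_cancel_right, b0 x hx, b0 x' hx'] using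
        congrArg (fun z => rc S.nf (z + -up S.l y)) (q'.trans q.symm)
    · exact h.pz_one (zero_mem_box _) (hψ _).1 fun x hx _ => z y x fun q' => q ⟨x, hx, q'⟩

end Pool.Agent.Lib.MP_7f377f_mp.RG.Q4
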