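import Pool.Agent.Lib.MP_7f377f_mp.Q4LipK
import Pool.Agent.Lib.MP_7f377f_mp.Q4S2
import Pool.Agent.Lib.MP_7f377f_mp.Q4KpA

/-! Contraction of the total mass of a perturbation of the data. -/

noncomputable section

namespace Pool.Agent.Lib.MP_7f377f_mp.RG.Q4.En

open Finset Metric
open scoped Classical

attribute [local irreducible] box lbox

/-- majorants: three sizes for each site and a majorant of the activities -/
structure Mz where
  xb : St → ℝ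
  xk : St → ℝ
  xr : St → ℝ
  d : Mj

/-- the total weight of a majorant -/
def l1 (p : Pa) (n : ℕ) (d : Mj) : ℝ := ∑ o ∈ lps (box (n / 2)), d o.1 o.2 * wgt p n o.1 o.2

/-- the total mass -/
def Mz.mass (z : Mz) (p : Pa) (n : ℕ) (Q g : ℝ) : ℝ :=
  ∑ x ∈ box (n / 2), (z.xb x + z.xk x + z.xr x / g ^ 2) + Q ^ 50 / g ^ 2 * l1 p n z.d

structure Mz.Ok (z : Mz) : Prop where
  xb : ∀ x, 0 ≤ z.xb x
  xk : ∀ x, 0 ≤ z.xk x
  xr : ∀ x, 0 ≤ z.xr x
  d : ∀ X c, 0 ≤ z.d X c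

/-- data dominated by `z` -/
structure Mz.Dom (z : Mz) (p : Pa) (n : ℕ) (ψ : Lx) (K : Ac) : Prop where
  ps : ∀ x, Ps p.R 6 p.ρ (z.xb (rc n x)) (z.xk (rc n x)) (z.xr (rc n x)) (ψ x)
  km : KM p n z.d K

variable {S : Sd} {p : Pa} {n : ℕ} {b θ : ℝ} {ψ ψ0 ψ1 : Lx} {K K0 K1 : Ac} {k d : Mj}

theorem km_zero : KM p n 0 0 :=
  ⟨fun _ _ => measurable_const, fun _ _ _ => rfl, fun _ _ _ _ _ => rfl, fun _ _ _ _ _ => rfl,
    fun _ _ _ _ => by simp⟩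

theorem km_pt (h : ∀ X c, ∃ k' K', KM p n k' K' ∧ K X c = K' X c ∧ k' X c ≤ k X c) : KM p n k K := by
  choose k' K' h1 h2 h3 using h
  exact ⟨fun X c => h2 X c ▸ (h1 X c).meas X c, fun X c => h2 X c ▸ (h1 X c).per X c,
    fun X c => h2 X c ▸ (h1 X c).dep X c, fun X c => h2 X c ▸ (h1 X c).gi X c,
    fun X c U hU => h2 X c ▸ ((h1 X c).bd X c U hU).trans
      (mul_le_mul_of_nonneg_right (h3 X c) (Real.exp_nonneg _))⟩

theorem pu_pt (h : S.Nu 100) (a : PU S.p b ψ0) (a' : PU S.p b ψ1) (e : ∀ x, ψ x = ψ0 x ∨ ψ x = ψ1 x) :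
    PU S.p b ψ := by
  obtain ⟨⟨x1, x2, x3, q⟩, c⟩ := a
  obtain ⟨⟨y1, y2, y3, q'⟩, c'⟩ := a'
  refine ⟨⟨max x1 y1, max x2 y2, max x3 y3, fun x => ?_⟩, fun x => ?_⟩ <;>
    rcases e x with e | e <;> rw [e]
  exacts [⟨(q x).1.mono' (rho_pos h) (le_max_left _ _) (le_max_left _ _) (le_max_left _ _), (q x).2⟩,
    ⟨(q' x).1.mono' (rho_pos h) (le_max_right _ _) (le_max_right _ _) (le_max_right _ _), (q' x).2⟩,
    c x, c' x]

theorem pu_sub {b' : ℝ} (h : S.Nu 100) (a : PU S.p b ψ0) (a' : PU S.p b' ψ1) :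
    PU S.p (b + b') (ψ0 - ψ1) := by
  simpa [sub_eq_add_neg] using pu_add h a (pu_smul h a' (-1))

theorem l1_nn (h : ∀ X c, 0 ≤ d X c) : 0 ≤ l1 p n d :=
  sum_nonneg fun _ _ => mul_nonneg (h _ _) (Real.exp_nonneg _)

/-- differences in a fixed direction -/
theorem lip1 (h : S.Nu 100) (f : St2 S) (B : Bl S b θ) (k1 : kN S.p S.nf k θ)
    (d1 : kN S.p S.nf d θ) : ∃ m, kN S.p'.up S.n m (4 * θ / S.Q) ∧ ∀ (e : ℝ) ψ0 K0 ψ1 K1, 0 ≤ e →
      S.Sml b θ k ψ0 K0 → S.Sml b θ k ψ1 K1 → PU S.p (e * b) (ψ1 - ψ0) →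
      KM S.p S.nf (e • d) (K1 - K0) → KM S.p' S.n ((2 * e) • m) (S.KK ψ1 K1 - S.KK ψ0 K0) := by
  have b0 := h.ok.g0.trans_le B.g_le
  obtain ⟨m, q1, q2⟩ := f.K (2 * b) (2 * θ) (k + d) B.b_le B.θ_le (by linarith)
    (two_mul θ ▸ k1.add d1)
  refine ⟨m, q1.mono (B.th h), fun e ψ0 K0 ψ1 K1 e0 s0 s1 p1 p2 => ?_⟩
  have w : ∀ {ψ K}, S.Sml b θ k ψ K → KM S.p' S.n m (S.KK ψ K) := fun s => q2 _ _
    ⟨B.b_le, B.θ_le, pu_mono s.pu (by linarith), s.km.mono fun X c =>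
      le_add_of_nonneg_right (d1.1 X c), two_mul θ ▸ k1.add d1⟩
  have a := (w s1).sub (w s0)
  have key : ∀ e', e < e' → KM S.p' S.n ((2 * e') • m) (S.KK ψ1 K1 - S.KK ψ0 K0) := fun e' he => by
    rcases lt_or_ge e' 1 with h1 | h1
    · have e1 := e0.trans_lt he
      have e2 : ∀ x : ℝ, x + e'⁻¹ * (e' * x) = 2 * x := fun x => by field_simp; ring
      have F := fam_sml h s0 (pu_mono p1 (mul_le_mul_of_nonneg_right he.le b0.le))
        (p2.mono (k' := e' • d) fun X c => mul_le_mul_of_nonneg_right he.le (d1.1 X c))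
        (d1.smul e1.le) (inv_pos.2 e1).le (e2 b ▸ B.b_le) (e2 θ ▸ B.θ_le)
      rw [e2, e2, inv_smul_smul₀ e1.ne'] at F
      simpa using ((km_schwarz e1 (fun t ht => q2 _ _ (F t ht)) (f.hol _ _ _ _ _ _ isOpen_ball F
        (holL_line _ _ _) (holA_line _ _ _))).2 1 (by simpa using h1)).1
    · exact a.mono fun X c => by simpa using by nlinarith [q1.1 X c]
  refine ⟨a.meas, a.per, a.dep, a.gi, fun X c U hU => ?_⟩
  refine ge_of_tendsto (f := fun e' : ℝ => ((2 * e') • m) X c * _) (x := nhdsWithin e (Set.Ioi e))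
    (tendsto_nhdsWithin_of_tendsto_nhds (Continuous.tendsto (by simp only [Pi.smul_apply]; fun_prop) e))
    (eventually_nhdsWithin_of_forall fun e' he => (key e' he).bd X c U hU)

/-- the total weight of the difference of the new activities -/
theorem kk_mass (h : S.Nu 100) (f : St2 S) (B : Bl S b θ) (k1 : kN S.p S.nf k θ) {bx : St → ℝ}
    (x0 : ∀ x, 0 ≤ bx x) (d0 : ∀ X c, 0 ≤ d X c) : ∃ d' : Mj, (∀ X c, 0 ≤ d' X c) ∧
      l1 S.p'.up S.n d' ≤ 8 / S.Q * (θ / b * ∑ x ∈ box (S.nf / 2), bx x + l1 S.p S.nf d) ∧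
      ∀ ψ0 K0 ψ1 K1, S.Sml b θ k ψ0 K0 → S.Sml b θ k ψ1 K1 →
        (∀ x ∈ box (S.nf / 2), ∀ A, RealF A → Cv S.p.R S.p.ρ A → ‖(ψ1 - ψ0) x A‖ ≤ bx x) →
        KM S.p S.nf d (K1 - K0) → KM S.p' S.n d' (S.KK ψ1 K1 - S.KK ψ0 K0) := by
  have b0 := h.ok.g0.trans_le B.g_le
  have Q0 := S.Q0
  have θ0 : 0 < θ := lt_of_lt_of_le (by positivity) B.sq_le
  have w0 : ∀ X c, 0 < wgt S.p S.nf X c := fun _ _ => Real.exp_pos _
  choose m m1 m2 using fun j : St ⊕ LP St => lip1 h f B k1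
    (d := fun X c => if j = .inr ⟨X, c⟩ then θ / wgt S.p S.nf X c else 0)
    ⟨fun X c => by have := w0 X c; positivity, fun x => (sum_congr rfl (g := fun o =>
      if j = .inr o then θ else 0) fun o _ => by
        beta_reduce
        split_ifs
        exacts [div_mul_cancel₀ _ (w0 _ _).ne', zero_mul _]).trans_le (by
      cases j <;> simp [θ0.le]
      split_ifs <;> simp [θ0.le])⟩
  obtain ⟨e, he⟩ : ∃ e : St ⊕ LP St → ℝ,
    e = Sum.elim (fun x => bx x / b) fun o => d o.1 o.2 * wgt S.p S.nf o.1 o.2 / θ := ⟨_, rfl⟩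
  have e0 : ∀ j, 0 ≤ e j := by
    rintro (x | o) <;> rw [he]
    exacts [div_nonneg (x0 x) b0.le, div_nonneg (mul_nonneg (d0 _ _) (w0 _ _).le) θ0.le]
  choose y y1 y2 using show ∀ j : St ⊕ LP St, ∃ y, (∀ x, j = .inl x → y = yo S.l x) ∧
      ∀ o ∈ lps (box (S.nf / 2)), j = .inr o → y ∈ dn S.l S.n o.1 by
    rintro (x | o)
    · exact ⟨yo S.l x, by simp⟩
    · by_cases ho : o ∈ lps (box (S.nf / 2))
      · obtain ⟨y, hy⟩ := (mem_lps.1 ho).2.1.image fun x => rc S.n (yo S.l x)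
        exact ⟨y, by simp, fun _ _ e => by cases e; exact hy⟩
      · exact ⟨0, by simp, fun _ h e => by cases e; exact absurd h ho⟩
  obtain ⟨D, hD⟩ : ∃ D : St ⊕ LP St → Mj,
    D = fun j Y c => if y j ∈ Y then 2 * e j * m j Y c else 0 := ⟨_, rfl⟩
  refine ⟨∑ j ∈ (box (S.nf / 2)).disjSum (lps (box (S.nf / 2))), D j, fun X c => ?_, ?_,
    fun ψ0 K0 ψ1 K1 s0 s1 p1 p2 => ?_⟩
  · simp only [hD, Finset.sum_apply]
    exact sum_nonneg fun j _ => by have := e0 j; have := (m1 j).1 X c; positivity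
  · simp only [l1, Finset.sum_apply, sum_mul]
    rw [sum_comm]
    refine (sum_le_sum (g := fun j => 2 * e j * (4 * θ / S.Q)) fun j _ => ?_).trans_eq ?_
    · refine le_trans (le_of_eq ?_) (mul_le_mul_of_nonneg_left ((m1 j).2 (y j))
        (mul_nonneg zero_le_two (e0 j)))
      simp only [hD, sum_filter, mul_sum, ite_mul, mul_ite, zero_mul, mul_zero, mul_assoc]
    · simp only [sum_disjSum, he, Sum.elim_inl, Sum.elim_inr, mul_add, mul_sum]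
      congr 1 <;> exact sum_congr rfl fun _ _ => by field_simp; ring
  obtain ⟨φ, hφ⟩ : ∃ φ : Finset (St ⊕ LP St) → Lx,
    ∀ A x, φ A x = if .inl x ∈ A then ψ1 x else ψ0 x := ⟨_, fun _ _ => rfl⟩
  obtain ⟨J, hJ⟩ : ∃ J : Finset (St ⊕ LP St) → Ac,
    ∀ A X c, J A X c = if .inr ⟨X, c⟩ ∈ A then K1 X c else K0 X c := ⟨_, fun _ _ _ => rfl⟩
  have sm : ∀ A, S.Sml b θ k (φ A) (J A) := fun A => ⟨s0.b_le, s0.θ_le,
    pu_pt h s0.pu s1.pu fun x => by rw [hφ]; split_ifs <;> simp, km_pt fun X c => by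
      rw [hJ]
      split_ifs
      exacts [⟨_, _, s1.km, rfl, le_rfl⟩, ⟨_, _, s0.km, rfl, le_rfl⟩], k1⟩
  have key : ∀ A ⊆ (box (S.nf / 2)).disjSum (lps (box (S.nf / 2))),
      KM S.p' S.n (∑ j ∈ A, D j) (S.KK (φ A) (J A) - S.KK ψ0 K0) := fun A => by
    induction A using Finset.induction_on with
    | empty =>
      intro _
      rw [show φ ∅ = ψ0 from funext fun x => by simp [hφ],
        show J ∅ = K0 from funext₂ fun X c => by simp [hJ], sub_self]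
      exact km_zero
    | insert j A hj ih =>
      intro hA
      rw [sum_insert hj, ← sub_add_sub_cancel _ (S.KK (φ A) (J A))]
      refine KM.add (km_pt fun Y c => ?_) (ih ((subset_insert _ _).trans hA))
      have a1 : ∀ x, j ≠ .inl x → φ (insert j A) x = φ A x := fun x q => by simp [hφ, q.symm]
      have a2 : ∀ X c, j ≠ .inr ⟨X, c⟩ → J (insert j A) X c = J A X c := fun X c q => by
        simp [hJ, q.symm]
      by_cases q : y j ∈ Y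
      · refine ⟨_, _, m2 j (e j) _ _ _ _ (e0 j) (sm A) (sm (insert j A))
          ⟨(pu_sub h (sm _).pu (sm _).pu).1, fun x A' r v => ?_⟩ (km_pt fun X c => ?_), rfl,
            by simp [hD, q]⟩
        · by_cases q : j = .inl x
          · subst q
            simpa [hφ, hj, he, b0.ne'] using p1 x (by simpa using hA (mem_insert_self _ _)) A' r v
          · simpa [a1 x q] using mul_nonneg (e0 j) b0.le
        · by_cases q : j = .inr ⟨X, c⟩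
          · subst q
            exact ⟨_, _, p2, by simp [hJ, hj], le_of_eq (by
              have := (w0 X c).ne'
              simp only [he, Pi.smul_apply, if_pos, Sum.elim_inr, smul_eq_mul]
              field_simp)⟩
          · exact ⟨_, _, km_zero, by simp [a2 X c q], by simp [q]⟩
      · exact ⟨_, _, km_zero, sub_eq_zero.2 (Sh.KK_ag ⟨fun x _ hx => a1 x fun e => q (y1 j x e ▸ hx),
          fun o ho hY => a2 _ _ fun e => q (hY (y2 j o ho e))⟩ h), by simp [hD, q]⟩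
  refine km_pt fun Y c => ⟨_, _, key _ Subset.rfl, congrArg (· - _) (Sh.KK_ag
    ⟨fun x hx _ => by simp [hφ, hx], fun o ho _ => by simp [hJ, ho]⟩ h), le_rfl⟩

theorem pz_le1 (h : S.Pu) {bx : St → ℝ}
    (hψ : ∀ x ∈ box S.l, ∀ B, RealF B → Cv S.p.R S.p.ρ B → ‖ψ x B‖ ≤ bx x) (B : Fld) :
    ‖S.pz ψ B‖ ≤ ∑ x ∈ box S.l, bx x := ctr_le h.ρ0.le (fun B r v => by
  have := Smo.nuI_prob (ζ := S.ζ) S.Q0
  refine (MeasureTheory.norm_integral_le_of_norm_le_const (C := ∑ x ∈ box S.l, bx x) (MeasureTheory.ae_of_all _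
    fun z => norm_sum_le_of_le _ fun x hx => ?_)).trans_eq (by simp)
  have := h.Gx_cv hx z r (v.mono le_rfl (by linarith [h.ρ0]))
  exact hψ x hx _ this.1 this.2) B

theorem pz_sum (u : S.Nu 100) (h : S.Pu) (a : PU S.p b ψ) (B : Fld) :
    S.pz ψ B = ∑ x ∈ box S.l, S.pz (fun y => if y = x then ψ y else 0) B := by
  obtain ⟨_, _, _, m⟩ := a.1
  unfold Sd.pz
  rcases ctr_cases (R := S.p'.R) h.ρ0.le B with e | ⟨r, v, e⟩ <;> simp only [e, sum_const_zero]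
  unfold Sd.pzr
  rw [← MeasureTheory.integral_finsetSum _ fun x _ => h.sP_int (b := b) (fun y => ?_)
    (fun y _ A r v => ?_) r (v.mono le_rfl (by linarith [h.ρ0]))]
  · simp only [Sd.sP]
    congr 1
    funext z
    rw [sum_comm]
    exact sum_congr rfl fun x hx => by simp [ite_apply, hx]
  · split_ifs
    exacts [(m y).2, measurable_const]
  · split_ifs
    exacts [a.2 y A r v, norm_zero.trans_le (pu_nn u a)]

theorem pu_y (a : PU S.p b ψ) (y : St) : PU S.p b (S.ψy ψ y) :=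
  let ⟨⟨_, _, _, m⟩, v⟩ := a
  ⟨⟨_, _, _, fun _ => m _⟩, fun _ => v _⟩

theorem blk_sum (h : S.Ok) {F : St → ℝ} (F0 : ∀ x, 0 ≤ F x) :
    ∑ y ∈ box (S.n / 2), ∑ x ∈ box S.l, F (x + up S.l y) ≤ ∑ x ∈ box (S.nf / 2), F x := by
  simpa [add_comm] using Li.sum_blocks_le (l := S.l) F0 (box (S.n / 2)) (box (S.nf / 2)) 0
    fun y hy t ht => by simpa [add_comm] using Sh.blk_mem h.odd ht hy

theorem x1_l1 (h : S.Nu 100) (d0 : ∀ X c, 0 ≤ d X c) : ∑ y ∈ box (S.n / 2), ∑ X ∈ S.X1s,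
    d (trS S.nf (up S.l y) X) ∅ / (dn S.l S.n X).card ≤ l1 S.p S.nf d := by
  rw [← sum_product']
  refine (Kp.smo_sum h.ok (d · ∅) fun _ => d0 _ _).trans ((sum_le_sum fun o ho => ?_).trans
    (sum_le_sum_of_subset_of_nonneg (filter_subset (Kp.Sm1 S) _)
      fun o _ _ => mul_nonneg (d0 _ _) (Real.exp_nonneg _)))
  obtain ⟨h1, h2⟩ := (mem_filter.1 ho).2
  rw [h1]
  refine le_mul_of_one_le_right (d0 _ _) ?_
  simpa [wgt, h2, h.exp_a] using h.ok.QM1.trans (le_abs_self _)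

/-- the total mass contracts -/
theorem mass_step (u : S.Nu 100) (h : S.Pu) (f : St2 S) (B : Bl S b θ) (hb : S.Q ^ 100 * θ ≤ b)
    (k1 : kN S.p S.nf k θ) {z : Mz} (o : z.Ok) : ∃ z' : Mz, z'.Ok ∧
      z'.mass S.p'.up S.n S.Q S.g ≤ 4 / S.L ^ 2 * z.mass S.p S.nf S.Q S.g ∧
      ∀ ψ0 K0 ψ1 K1, S.Sml b θ k ψ0 K0 → S.Sml b θ k ψ1 K1 → z.Dom S.p S.nf (ψ1 - ψ0) (K1 - K0) →
        z'.Dom S.p' S.n (S.PL ψ1 K1 - S.PL ψ0 K0) (S.KK ψ1 K1 - S.KK ψ0 K0) ∧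
        ∑ y ∈ S.Λ', ‖S.Ey ψ1 K1 y - S.Ey ψ0 K0 y‖ ≤
          S.Q ^ 10 * S.g ^ 2 * z.mass S.p S.nf S.Q S.g := by
  have Q0 := S.Q0
  have g0 := u.ok.g0
  have b0 := g0.trans_le B.g_le
  have L0 := Sd.L0 S.toTd
  have ρ0 := rho_pos u
  have β0 := u.ok.β0
  have c0 := Sd.Nu.cs0 (S := S)
  have o1 := o.xb
  have o2 := o.xk
  have o3 := o.xr
  have o4 := o.d
  have l0 := l1_nn (p := S.p) (n := S.nf) o4
  have p0 : ∀ x, 0 ≤ z.xb x + z.xk x + z.xr x / S.g ^ 2 := fun x => by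
    have := o1 x; have := o2 x; have := o3 x; positivity
  obtain ⟨d', d1, d2, d3⟩ := kk_mass u f B k1
    (bx := fun x => S.Q ^ 8 * S.g ^ 2 * (z.xb x + z.xk x + z.xr x / S.g ^ 2))
    (fun x => mul_nonneg (by positivity) (p0 x)) o4
  obtain ⟨κ, hκ⟩ : ∃ κ : St → ℝ, ∀ y, κ y = ∑ X ∈ S.X1s,
    z.d (trS S.nf (up S.l y) X) ∅ / (dn S.l S.n X).card := ⟨_, fun _ => rfl⟩
  have κ0 : ∀ y, 0 ≤ κ y := fun y => hκ y ▸ sum_nonneg fun _ _ => div_nonneg (o4 _ _) (by positivity)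
  have κ1 : ∑ y ∈ box (S.n / 2), κ y ≤ l1 S.p S.nf z.d := by simpa only [hκ] using x1_l1 u o4
  obtain ⟨P, hP⟩ : ∃ P, P = ∑ x ∈ box (S.nf / 2), (z.xb x + z.xk x + z.xr x / S.g ^ 2) := ⟨_, rfl⟩
  have P0 : 0 ≤ P := hP ▸ sum_nonneg fun x _ => p0 x
  rw [← mul_sum, ← hP] at d2
  have r1 : S.p.ρ ^ 2 ≤ S.Q ^ 7 * S.g ^ 2 := by
    rw [Sd.p_ρ, mul_pow, ← pow_mul]
    exact mul_le_mul_of_nonneg_right (u.QM_pow' (by norm_num)) (by positivity)
  have LQ : 1000 * S.L ^ 2 ≤ S.Q := by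
    simpa using u.mon (C := 1000) (i := 2) (j := 0) (by norm_num) (by have := u.exps; omega) (by omega)
  obtain ⟨s1, h1⟩ : ∃ s : St → ℝ, ∀ x, s x = (z.xb x + z.xk x + z.xr x / S.p.ρ ^ 2) / S.L ^ 2 :=
    ⟨_, fun _ => rfl⟩
  obtain ⟨s2, h2⟩ : ∃ s : St → ℝ, ∀ x, s x =
    (z.xb x + z.xk x) / S.L ^ 2 + S.Q * z.xr x / S.p.ρ ^ 2 := ⟨_, fun _ => rfl⟩
  obtain ⟨s3, h3⟩ : ∃ s : St → ℝ, ∀ x, s x = S.xr' (z.xb x) (z.xk x) (z.xr x) 0 / S.L ^ 2 :=
    ⟨_, fun _ => rfl⟩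
  have t : ∀ x, 0 ≤ s1 x ∧ 0 ≤ s2 x ∧ 0 ≤ s3 x ∧
      s1 x + s2 x + s3 x / S.g ^ 2 ≤ 3 / S.L ^ 2 * (z.xb x + z.xk x + z.xr x / S.g ^ 2) := fun x => by
    have := o1 x; have := o2 x; have := o3 x
    rw [h1, h2, h3, Sd.xr']
    refine ⟨by positivity, by positivity, by positivity, ?_⟩
    have a1 : S.Q ^ 2 * S.g ^ 2 ≤ S.p.ρ ^ 2 := by
      rw [← mul_pow]
      refine pow_le_pow_left₀ (by positivity) (le_trans ?_ u.ρ_ge) 2
      exact mul_le_mul_of_nonneg_right (le_self_pow₀ S.Q1 (by norm_num)) g0.le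
    have a2 : S.Q ^ 10 * √S.g * S.p.ρ ^ 2 / S.g ^ 2 ≤ 1 := by
      rw [div_le_one (by positivity)]
      calc _ ≤ S.Q ^ 10 * √S.g * (S.Q ^ 7 * S.g ^ 2) := by gcongr
        _ = S.Q ^ 17 * S.u * S.g ^ 2 := by rw [Sd.u]; ring
        _ ≤ _ := mul_le_of_le_one_left (by positivity) (u.ok.Qu (by norm_num))
    have a3 : S.cs ≤ 1 := by simpa using u.cs_le (k := 0) (by omega)
    have a4 : S.g ^ 2 / S.p.ρ ^ 2 ≤ 1 := (div_le_one (by positivity)).2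
      (le_trans (le_mul_of_one_le_left (by positivity) (one_le_pow₀ S.Q1)) a1)
    have a5 : S.Q * S.L ^ 2 * S.g ^ 2 / S.p.ρ ^ 2 ≤ 1 := (div_le_one (by positivity)).2
      (le_trans (mul_le_mul_of_nonneg_right (by nlinarith [sq_nonneg S.L]) (by positivity)) a1)
    calc _ = ((2 + S.Q ^ 10 * √S.g * S.p.ρ ^ 2 / S.g ^ 2) * (z.xb x + z.xk x) + (S.g ^ 2 / S.p.ρ ^ 2 +
          S.Q * S.L ^ 2 * S.g ^ 2 / S.p.ρ ^ 2 + S.cs) * (z.xr x / S.g ^ 2)) / S.L ^ 2 := by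
          field_simp; ring
      _ ≤ ((2 + 1) * (z.xb x + z.xk x) + (1 + 1 + 1) * (z.xr x / S.g ^ 2)) / S.L ^ 2 := by gcongr
      _ = _ := by ring
  have eβ : S.β = (S.g ^ 2)⁻¹ := eq_inv_of_mul_eq_one_left u.ok.βg
  refine ⟨⟨fun y => ∑ x ∈ box S.l, s1 (x + up S.l y) + S.Q ^ 13 * S.β * κ y,
    fun y => ∑ x ∈ box S.l, s2 (x + up S.l y) + S.Q ^ 13 * S.β * κ y,
    fun y => ∑ x ∈ box S.l, s3 (x + up S.l y) + S.Q ^ 28 * κ y, d'⟩,
    ⟨fun y => add_nonneg (sum_nonneg fun x _ => (t _).1) (mul_nonneg (by positivity) (κ0 y)),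
      fun y => add_nonneg (sum_nonneg fun x _ => (t _).2.1) (mul_nonneg (by positivity) (κ0 y)),
      fun y => add_nonneg (sum_nonneg fun x _ => (t _).2.2.1) (mul_nonneg (by positivity) (κ0 y)), d1⟩,
    ?_, fun ψ0 K0 ψ1 K1 a0 a1 a => ?_⟩
  · have e1 := (blk_sum u.ok (F := fun x => s1 x + s2 x + s3 x / S.g ^ 2) fun x => by
      obtain ⟨_, _, _, -⟩ := t x; positivity).trans
      (sum_le_sum fun x _ => (t x).2.2.2)
    rw [← mul_sum, ← hP] at e1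
    have e2 : θ / b ≤ (S.Q ^ 100)⁻¹ := by rwa [div_le_iff₀ b0, le_inv_mul_iff₀ (by positivity)]
    have e3 : 8 * S.L ^ 2 / S.Q ^ 43 ≤ 1 := (div_le_one (by positivity)).2
      (le_trans (by nlinarith [sq_nonneg S.L]) (le_self_pow₀ S.Q1 (by norm_num)))
    have e4 : 3 * S.L ^ 2 / S.Q ^ 22 ≤ 1 := (div_le_one (by positivity)).2
      (le_trans (by nlinarith [sq_nonneg S.L]) (le_self_pow₀ S.Q1 (by norm_num)))
    have e5 : 8 * S.L ^ 2 / S.Q ≤ 1 := (div_le_one Q0).2 (by nlinarith [sq_nonneg S.L])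
    have e6 := S.Qw (by norm_num : 13 ≤ 28)
    unfold Mz.mass
    rw [← hP]
    calc _ = ∑ y ∈ box (S.n / 2), ∑ x ∈ box S.l, (s1 (x + up S.l y) + s2 (x + up S.l y) +
          s3 (x + up S.l y) / S.g ^ 2) + (2 * S.Q ^ 13 + S.Q ^ 28) / S.g ^ 2 *
          ∑ y ∈ box (S.n / 2), κ y + S.Q ^ 50 / S.g ^ 2 * l1 S.p'.up S.n d' := by
          rw [mul_sum, ← sum_add_distrib]
          refine congrArg (· + _) (sum_congr rfl fun y _ => ?_)
          simp only [sum_add_distrib, ← sum_div, eβ]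
          ring
      _ ≤ 3 / S.L ^ 2 * P + (2 * S.Q ^ 28 + S.Q ^ 28) / S.g ^ 2 * l1 S.p S.nf z.d +
          S.Q ^ 50 / S.g ^ 2 * (8 / S.Q * ((S.Q ^ 100)⁻¹ * (S.Q ^ 8 * S.g ^ 2 * P) +
            l1 S.p S.nf z.d)) := by
          have := sum_nonneg fun y (_ : y ∈ box (S.n / 2)) => κ0 y
          gcongr ?_ + ?_ / _ * ?_ + _ * ?_
          exacts [by gcongr, d2.trans (by gcongr)]
      _ = ((3 + 8 * S.L ^ 2 / S.Q ^ 43) * P + (3 * S.L ^ 2 / S.Q ^ 22 + 8 * S.L ^ 2 / S.Q) *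
          (S.Q ^ 50 / S.g ^ 2 * l1 S.p S.nf z.d)) / S.L ^ 2 := by field_simp; ring
      _ ≤ ((3 + 1) * P + 4 * (S.Q ^ 50 / S.g ^ 2 * l1 S.p S.nf z.d)) / S.L ^ 2 := by
          gcongr
          linarith
      _ = _ := by ring
  have ps := fun x hx => rc_eq u.ok.odd_nf (x := x) hx ▸ a.ps x
  have bd : ∀ x ∈ box (S.nf / 2), ∀ A, RealF A → Cv S.p.R S.p.ρ A → ‖(ψ1 - ψ0) x A‖ ≤
      S.Q ^ 8 * S.g ^ 2 * (z.xb x + z.xk x + z.xr x / S.g ^ 2) := fun x hx A r v => by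
    refine ((ps x hx).bd r v le_rfl).trans ?_
    have := o1 x; have := o2 x; have := o3 x
    have := qpw u (i := 7) (j := 8) (by norm_num)
    have := one_le_pow₀ (n := 7) S.Q1
    rw [div_self ρ0.ne']
    calc _ ≤ 3 * (z.xb x + z.xk x) * (S.Q ^ 7 * S.g ^ 2) + z.xr x * 1 ^ 3 := by gcongr
      _ = 3 * S.Q ^ 7 * S.g ^ 2 * (z.xb x + z.xk x) + 1 * z.xr x := by ring
      _ ≤ S.Q ^ 8 * S.g ^ 2 * (z.xb x + z.xk x) + S.Q ^ 8 * z.xr x := by gcongr <;> linarith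
      _ = _ := by field_simp
  have pd := pu_sub u a1.pu a0.pu
  have ey : ∀ y ∈ box (S.n / 2), ∀ x ∈ box S.l,
      S.ψy (ψ1 - ψ0) y x = (ψ1 - ψ0) (x + up S.l y) := fun y hy x hx =>
    congrArg _ (rc_eq u.ok.odd_nf (Sh.blk_mem u.ok.odd hx hy))
  refine ⟨⟨fun y => ?_, d3 _ _ _ _ a0 a1 bd a.km⟩, ?_⟩
  · have e := f.lin _ _ _ _ _ _ _ _ (-1) a1.pu a0.pu a1.km a0.km
    simp only [neg_one_smul, ← sub_eq_add_neg] at e
    rw [← e, show S.PL _ _ y = S.PL (ψ1 - ψ0) (K1 - K0) (rc S.n y) by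
      simp only [Sd.PL, Sd.ψy, Sd.Ky, Sd.nf, Sh.trL_up_rc, Sh.trA_up_rc]]
    have hy := rc_mem u.ok.odd y
    generalize rc S.n y = y at hy
    have q1 := (Ps.sum (box S.l) h.ρ0 fun x hx => h.pz_one (ψ := fun y' => if y' = x then
      S.ψy (ψ1 - ψ0) y y' else 0) hx (by
        simpa only [if_pos, ey y hy x hx] using ps _ (Sh.blk_mem u.ok.odd hx hy))
          fun _ _ e => if_neg e).1
    have q2 := (Ps.sum S.X1s h.ρ0 fun X hX => (h.Fs_ps hX (Sd.k1y u.ok a.km y hX)).1).1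
    simp only [← mul_sum, ← hκ] at q2
    simp only [← h1, ← h2, ← h3, sum_sub_distrib, ← pz_sum u h (pu_y pd y)] at q1
    exact (q1.sub q2 h.ρ0).1
  · have e : ∀ y, S.Ey ψ1 K1 y - S.Ey ψ0 K0 y =
        ∑ X ∈ S.X1s, S.Fs (S.Ky (K1 - K0) y) X 0 - S.pz (S.ψy (ψ1 - ψ0) y) 0 := fun y => by
      have e1 := h.pz_lin (pu_y a1.pu y) (pu_y a0.pu y) (-1) 0
      have e2 := sum_congr rfl fun X hX =>
        Sd.Fs_lin (Sd.k1y u.ok a1.km y hX) (Sd.k1y u.ok a0.km y hX) (-1) 0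
      simp only [neg_one_smul, neg_one_mul, ← sub_eq_add_neg, sum_sub_distrib] at e1 e2
      rw [show S.Ky (K1 - K0) y = S.Ky K1 y - S.Ky K0 y from rfl, e2,
        show S.ψy (ψ1 - ψ0) y = S.ψy ψ1 y - S.ψy ψ0 y from rfl, e1]
      simp only [Sd.Ey, Sd.cX]
      ring
    refine (sum_le_sum (g := fun y => 2 * κ y + ∑ x ∈ box S.l, S.Q ^ 8 * S.g ^ 2 *
      (z.xb (x + up S.l y) + z.xk (x + up S.l y) + z.xr (x + up S.l y) / S.g ^ 2))
        fun y hy => e y ▸ norm_sub_le_of_le ?_ (pz_le1 h (fun x hx => ey y hy x hx ▸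
          bd _ (Sh.blk_mem u.ok.odd hx hy)) 0)).trans ?_
    · have e1 := blk_sum u.ok p0
      simp only [sum_add_distrib (f := fun y => 2 * κ y), ← mul_sum]
      unfold Mz.mass
      rw [← hP] at e1 ⊢
      have := qpw u (i := 0) (j := 60) (by norm_num)
      have := S.Qw (by norm_num : 8 ≤ 10)
      calc _ ≤ S.Q ^ 60 * l1 S.p S.nf z.d + S.Q ^ 10 * S.g ^ 2 * P := by
            have := sum_nonneg fun y (_ : y ∈ S.Λ') => κ0 y
            have := sum_nonneg fun y (_ : y ∈ S.Λ') =>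
              sum_nonneg fun x (_ : x ∈ box S.l) => p0 (x + up S.l y)
            gcongr ?_ * ?_ + ?_ * _ * ?_
            exacts [by linarith, κ1, e1]
        _ = _ := by field_simp; ring
    · rw [hκ, mul_sum]
      exact norm_sum_le_of_le _ fun X hX => (Sd.Fs_bd h.nu h.tk.ok h.tk.gr h.P_le hX
        (Sd.k1y u.ok a.km y hX) 0).trans_eq (mul_div_assoc _ _ _)

/-! ### algebra of majorants -/

namespace Mz

variable {z z' : Mz} {Q Q' g g' c : ℝ} {x : St}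

def add (z z' : Mz) : Mz := ⟨z.xb + z'.xb, z.xk + z'.xk, z.xr + z'.xr, z.d + z'.d⟩

def smul (c : ℝ) (z : Mz) : Mz := ⟨c • z.xb, c • z.xk, c • z.xr, c • z.d⟩

theorem Ok.add (h : z.Ok) (h' : z'.Ok) : (z.add z').Ok :=
  ⟨fun x => add_nonneg (h.xb x) (h'.xb x), fun x => add_nonneg (h.xk x) (h'.xk x),
    fun x => add_nonneg (h.xr x) (h'.xr x), fun X c => add_nonneg (h.d X c) (h'.d X c)⟩

theorem Ok.smul (h : z.Ok) (c0 : 0 ≤ c) : (z.smul c).Ok :=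
  ⟨fun x => mul_nonneg c0 (h.xb x), fun x => mul_nonneg c0 (h.xk x), fun x => mul_nonneg c0 (h.xr x),
    fun X c => mul_nonneg c0 (h.d X c)⟩

theorem mass_add : (z.add z').mass p n Q g = z.mass p n Q g + z'.mass p n Q g := by
  simp only [mass, l1, add, Pi.add_apply, add_mul, add_div, sum_add_distrib]
  ring

theorem mass_smul : (z.smul c).mass p n Q g = c * z.mass p n Q g := by
  simp only [mass, l1, smul, Pi.smul_apply, smul_eq_mul, mul_assoc, mul_div_assoc, ← mul_add,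
    ← mul_sum]
  ring

theorem Dom.add (h : z.Dom p n ψ0 K0) (h' : z'.Dom p n ψ1 K1) (ρ0 : 0 < p.ρ) :
    (z.add z').Dom p n (ψ0 + ψ1) (K0 + K1) :=
  ⟨fun x => ((h.ps x).add (h'.ps x) ρ0).1, h.km.add h'.km⟩

theorem Dom.mono (h : z.Dom p n ψ K) (ρ0 : 0 < p.ρ) (h1 : z.xb ≤ z'.xb) (h2 : z.xk ≤ z'.xk)
    (h3 : z.xr ≤ z'.xr) (h4 : z.d ≤ z'.d) : z'.Dom p n ψ K :=
  ⟨fun x => (h.ps x).mono' ρ0 (h1 _) (h2 _) (h3 _), h.km.mono h4⟩

theorem Dom.smul (h : z.Dom p n ψ K) (ρ0 : 0 < p.ρ) (t : ℂ) :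
    (z.smul ‖t‖).Dom p n (t • ψ) (t • K) :=
  ⟨fun x => ((h.ps x).smul ρ0 t).1, h.km.smul t⟩

/-- linear combinations -/
theorem Dom.comb {ι : Type} (s : Finset ι) {φ : ι → Lx} {J : ι → Ac} (t : ι → ℂ) (ρ0 : 0 < p.ρ)
    (h : ∀ i ∈ s, z.Dom p n (φ i) (J i)) :
    (z.smul (∑ i ∈ s, ‖t i‖)).Dom p n (∑ i ∈ s, t i • φ i) (∑ i ∈ s, t i • J i) := by
  induction s using Finset.induction_on with
  | empty => exact ⟨fun x => by simpa [Mz.smul, Pi.zero_def] using (ps_zero _ _ ρ0).1,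
      by simpa [Mz.smul] using km_zero⟩
  | insert i s hi ih =>
    simp only [sum_insert hi]
    refine (((h i (mem_insert_self _ _)).smul ρ0 (t i)).add
      (ih fun j hj => h j (mem_insert_of_mem hj)) ρ0).mono ρ0 ?_ ?_ ?_ ?_ <;>
    exact (add_smul _ _ _).ge

theorem l1_up (h : ∀ X c, 0 ≤ d X c) : l1 p n d ≤ l1 p.up n d :=
  sum_le_sum fun _ _ => mul_le_mul_of_nonneg_left (Real.exp_le_exp.2 (add_le_add
    (mul_le_mul_of_nonneg_right (le_add_of_nonneg_right zero_le_one) (Nat.cast_nonneg _)) le_rfl))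
    (h _ _)

theorem kN_l1 (h : ∀ X c, 0 ≤ d X c) : kN p n d (l1 p n d) :=
  ⟨h, fun _ => sum_le_sum_of_subset_of_nonneg (filter_subset _ _)
    fun _ _ _ => mul_nonneg (h _ _) (Real.exp_nonneg _)⟩

theorem Ok.mass_up (h : z.Ok) : z.mass p n Q g ≤ z.mass p.up n Q g :=
  add_le_add le_rfl (mul_le_mul_of_nonneg_left (l1_up h.d) (by positivity))

theorem Ok.mass_mono (h : z.Ok) (Q0 : 0 ≤ Q') (hQ : Q' ≤ Q) (g0 : 0 < g) (hg : g ≤ g') :
    z.mass p n Q' g' ≤ z.mass p n Q g := by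
  have := l1_nn (p := p) (n := n) h.d
  have := Q0.trans hQ
  unfold mass
  gcongr with x
  exact h.xr x

theorem Ok.site (h : z.Ok) (x : St) : 0 ≤ z.xb x + z.xk x + z.xr x / g ^ 2 :=
  add_nonneg (add_nonneg (h.xb x) (h.xk x)) (div_nonneg (h.xr x) (sq_nonneg _))

theorem Ok.mass_nn (h : z.Ok) : 0 ≤ z.mass p n Q g :=
  add_nonneg (sum_nonneg fun x _ => h.site x) (mul_nonneg (by positivity) (l1_nn h.d))

/-- the sizes of one site are at most the mass -/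
theorem Ok.le_mass (h : z.Ok) (hx : x ∈ box (n / 2)) :
    z.xb x + z.xk x + z.xr x / g ^ 2 ≤ z.mass p n Q g :=
  (single_le_sum (fun x _ => h.site x) hx).trans
    (le_add_of_nonneg_right (mul_nonneg (by positivity) (l1_nn h.d)))

theorem Ok.kN (h : z.Ok) (Q0 : 0 < Q) (g0 : 0 < g) :
    kN p n z.d (g ^ 2 / Q ^ 50 * z.mass p n Q g) := (kN_l1 h.d).mono (by
  have := mul_nonneg (by positivity : 0 ≤ g ^ 2 / Q ^ 50)
    (sum_nonneg fun x (_ : x ∈ box (n / 2)) => h.site (g := g) x)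
  rw [mass, mul_add, ← mul_assoc, show g ^ 2 / Q ^ 50 * (Q ^ 50 / g ^ 2) = 1 by field_simp]
  linarith)

theorem Dom.ps' (h : z.Dom p n ψ K) (o : z.Ok) (ρ0 : 0 < p.ρ) (g0 : 0 < g) (hn : Odd n) (x : St) :
    Ps p.R 6 p.ρ (z.mass p n Q g) (z.mass p n Q g) (g ^ 2 * z.mass p n Q g) (ψ x) := by
  have := o.le_mass (p := p) (Q := Q) (g := g) (rc_mem hn x)
  have := o.xb (rc n x)
  have := o.xk (rc n x)
  have := div_nonneg (o.xr (rc n x)) (sq_nonneg g)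
  exact (h.ps x).mono' ρ0 (by linarith) (by linarith)
    ((div_le_iff₀' (by positivity)).1 (by linarith))

end Mz

end Pool.Agent.Lib.MP_7f377f_mp.RG.Q4.En
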