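import Pool.Agent.Lib.MP_7f377f_mp.Q5Ball
import Pool.Agent.Lib.MP_7f377f_mp.Q5Mass

/-! The polymer representation at the flat field. -/

noncomputable section

open Pool.Agent.Lib.MP_7f377f_mp.Jet

namespace Pool.Agent.Lib.MP_7f377f_mp.RG.Q4.Sg

open Finset Function Metric En Real

attribute [local irreducible] box lbox

theorem ZL_hol {σ : Type} [DecidableEq σ] {Λ : Finset σ} {Ω : Set ℂ} {θ e : ℝ}
    {K K' : ℂ → Finset σ → Finset (Finset σ) → ℂ} {k d : Finset σ → Finset (Finset σ) → ℝ}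
    (hΩ : IsOpen Ω) (e0 : 0 < e) (e1 : e ≤ 1) (hθ : 2 * θ ≤ e)
    (h1 : ∀ X c, DifferentiableOn ℂ (K · X c) Ω) (h2 : ∀ X c, DifferentiableOn ℂ (K' · X c) Ω)
    (hK : ∀ t ∈ Ω, ∀ o ∈ lps Λ, ‖K t o.1 o.2‖ ≤ k o.1 o.2 ∧ ‖K' t o.1 o.2‖ ≤ k o.1 o.2 ∧
      ‖K' t o.1 o.2 - K t o.1 o.2‖ ≤ d o.1 o.2)
    (h : Nm Λ (fun X c => k X c * exp (e * X.card)) θ) :
    ∃ ζ : ℂ → ℂ, DifferentiableOn ℂ ζ Ω ∧ ∀ t ∈ Ω,
      ZL Λ (K' t) 1 = ZL Λ (K t) 1 * Complex.exp (ζ t) ∧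
      ‖ζ t‖ ≤ 2 * ∑ o ∈ lps Λ, d o.1 o.2 * exp (e * o.1.card) ∧
      exp (-(e * Λ.card)) ≤ ‖ZL Λ (K t) 1‖ := by
  have a : ∀ K : Finset σ → Finset (Finset σ) → ℂ, ZL Λ K 1 = Zp Λ (En.act Λ K 1) 1 := fun K =>
    Zp_congr (fun _ a b => (if_pos ⟨a, b⟩).symm) fun _ _ => rfl
  have o : ∀ y ∈ Λ, ‖(1 : σ → ℂ) y‖ ≤ 1 := by simp
  have s : ∀ t X, En.act Λ (K' t) 1 X - En.act Λ (K t) 1 X =
      En.act Λ (fun X c => K' t X c - K t X c) 1 X := fun t X => by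
    unfold En.act
    split_ifs
    · simp only [← sum_sub_distrib, sub_mul]
    · simp
  have c : ∀ {K : ℂ → Finset σ → Finset (Finset σ) → ℂ}, (∀ X c, DifferentiableOn ℂ (K · X c) Ω) →
      ∀ X, DifferentiableOn ℂ (fun t => En.act Λ (K t) 1 X) Ω := fun h X => by
    unfold En.act
    split_ifs
    exacts [.fun_sum fun c _ => (h X c).mul_const _, differentiableOn_const _]
  obtain ⟨ζ, z, hζ⟩ := dobrushin Λ (fun t => En.act Λ (K t) 1) (fun t => En.act Λ (K' t) 1) (maj Λ k)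
    (maj Λ d) hΩ e0 e1 (c h1) (c h2) (fun t ht X => ⟨act_le o (fun o ho => (hK t ht o ho).1) X,
      act_le o (fun o ho => (hK t ht o ho).2.1) X,
      s t X ▸ act_le o (fun o ho => (hK t ht o ho).2.2) X⟩)
    fun x => (maj_sum h x).trans (by linarith)
  refine ⟨ζ, z, fun t ht => ?_⟩
  obtain ⟨h1, h2, h3, -⟩ := hζ t ht
  refine ⟨by rwa [a, a], h2.trans_eq ?_, by rwa [a]⟩
  rw [lps, sum_sigma, sum_filter]
  refine congrArg _ (sum_congr rfl fun X hX => ?_)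
  simp only [maj, mem_powerset.1 hX, true_and, ite_mul, sum_mul, zero_mul]

variable {p : Pa} {n : ℕ} {k d : Mj} {b θ : ℝ} {Φ : Lx} {Z : Finset St}

/-- the partition function at the flat field -/
def zf (n : ℕ) (K : Ac) : ℂ := ZL (box (n / 2)) (fun X c => K X c 1) 1

theorem bx_one (x : St) : Bx x (cC 1) = 0 := by
  have : cC 1 = 1 := rfl
  funext e
  rw [Bx_eq, this, show sh x (1 : Cf) = 1 from rfl, Bx_zero]
  simp

theorem rep_flat (he : 0 ≤ p.ε) (hΦ : ∀ x, Φ x 0 = 0) (K : Ac) : Rep p n Φ K 1 = zf n K := by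
  have : Ix p Φ (pc n 1) = 1 := funext fun x => by
    rw [show pc n (1 : Conf) = 1 from rfl, Ix_pos (fun y _ μ ν => by
      simpa [fq, hol, sh, S3.q_one] using he), bx_one, hΦ]
    simp
  rw [Rep, this, zf]

variable (h : Pg p b) (hn : Odd n) (h0 : kN p n k θ) (hθ : 2 * θ ≤ ee p)
include h hn h0 hθ

theorem flat_hol {Ω : Set ℂ} {K K' : ℂ → Ac} (hΩ : IsOpen Ω) (h1 : HolA Ω K) (h2 : HolA Ω K')
    (hK : ∀ t ∈ Ω, KM p n k (K t) ∧ KM p n k (K' t) ∧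
      ∀ X c, ‖K' t X c 1 - K t X c 1‖ ≤ d X c) :
    ∃ ζ : ℂ → ℂ, DifferentiableOn ℂ ζ Ω ∧ ∀ t ∈ Ω, zf n (K' t) = zf n (K t) * Complex.exp (ζ t) ∧
      ‖ζ t‖ ≤ 2 * l1 p n d ∧ exp (-n ^ 4) ≤ ‖zf n (K t)‖ := by
  have w : ∀ o ∈ lps (box (n / 2)), exp (ee p * o.1.card) ≤ wgt p n o.1 o.2 := fun o ho =>
    (le_mul_of_one_le_left (exp_pos _).le (one_le_exp (by have := h.b0; positivity))).trans
      (wgt_ge h hn ho)
  obtain ⟨ζ, z, hζ⟩ := ZL_hol (K := fun t X c => K t X c 1) (K' := fun t X c => K' t X c 1)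
    hΩ (ee_pos p) (ee_le p) hθ (fun X c => h1 X c 1) (fun X c => h2 X c 1)
    (fun t ht o _ => ⟨km_le (hK t ht).1 h.lam h0 (fun _ => rfl) _ _,
      km_le (hK t ht).2.1 h.lam h0 (fun _ => rfl) _ _, (hK t ht).2.2 _ _⟩)
    (Nm.mono (k := fun X c => k X c * wgt p n X c) h0.2 fun o ho =>
      mul_le_mul_of_nonneg_left (w o ho) (h0.1 _ _))
  refine ⟨ζ, z, fun t ht => ⟨(hζ t ht).1, (hζ t ht).2.1.trans (mul_le_mul_of_nonneg_left
    (sum_le_sum fun o ho => mul_le_mul_of_nonneg_left (w o ho) ((norm_nonneg _).trans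
      ((hK t ht).2.2 _ _))) zero_le_two), le_trans (exp_le_exp.2 ?_) (hζ t ht).2.2⟩⟩
  rw [card_dom hn, neg_le_neg_iff]
  exact mul_le_of_le_one_left (by positivity) (ee_le p)

variable {K K' : Ac}

/-- comparison of two complex data at the flat field -/
theorem flat_cmp (hK : KM p n k K) (hK' : KM p n k K')
    (hd : ∀ X c, ‖K' X c 1 - K X c 1‖ ≤ d X c) : exp (-n ^ 4) ≤ ‖zf n K‖ ∧
      ∃ ζ, zf n K' = zf n K * Complex.exp ζ ∧ ‖ζ‖ ≤ 2 * l1 p n d :=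
  let ⟨ζ, _, z⟩ := flat_hol h hn h0 hθ (K := fun _ => K) (K' := fun _ => K') isOpen_univ
    (fun _ _ _ => differentiableOn_const _) (fun _ _ _ => differentiableOn_const _)
    fun _ _ => ⟨hK, hK', hd⟩
  ⟨(z 0 trivial).2.2, ζ 0, (z 0 trivial).1, (z 0 trivial).2.1⟩

theorem zf_ne (hK : KM p n k K) : zf n K ≠ 0 :=
  norm_pos_iff.1 ((exp_pos _).trans_le (flat_cmp (d := 0) h hn h0 hθ hK hK (by simp)).1)

omit h hn hθ in
theorem l1_loc (Z : Finset St) :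
    l1 p n (fun X c => if Disjoint Z X then 0 else 2 * k X c) ≤ 2 * (θ * Z.card) := by
  refine le_trans (le_of_eq ?_) (mul_le_mul_of_nonneg_left (sum_meet_le (lps (box (n / 2)))
    (·.1) (fun o => k o.1 o.2 * wgt p n o.1 o.2) (fun o _ => mul_nonneg (h0.1 _ _) (exp_pos _).le)
    h0.2 Z) zero_le_two)
  rw [l1, sum_filter, mul_sum]
  exact sum_congr rfl fun o _ => by split_ifs <;> ring

omit hn hθ in
theorem loc_le (hK : KM p n k K) (hK' : KM p n k K') (e : ∀ X c, Disjoint Z X → K' X c = K X c)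
    (X : Finset St) (c : Finset (Finset St)) :
    ‖K' X c 1 - K X c 1‖ ≤ if Disjoint Z X then 0 else 2 * k X c := by
  split_ifs with a
  · simp [e X c a]
  · exact (norm_sub_le_of_le (km_le hK' h.lam h0 (fun _ => rfl) _ _)
      (km_le hK h.lam h0 (fun _ => rfl) _ _)).trans_eq (two_mul _).symm

/-- a local change of the activities -/
theorem flat_loc (hK : KM p n k K) (hK' : KM p n k K')
    (e : ∀ X c, Disjoint Z X → K' X c = K X c) :
    ∃ ζ, zf n K' = zf n K * Complex.exp ζ ∧ ‖ζ‖ ≤ 4 * θ * Z.card :=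
  (flat_cmp h hn h0 hθ hK hK' (loc_le h h0 hK hK' e)).2.imp fun _ a =>
    ⟨a.1, by linarith [a.2, l1_loc h0 Z]⟩

variable {ι : Type} [DecidableEq ι] {r : ι → ℝ} {K : (ι → ℂ) → Ac} (F : FA r p n k K)
include F

/-- ratios of partition functions for a family of activities -/
theorem flat_ratio (e : ∀ s ∈ Pd r, ∀ X c, Disjoint Z X → K s X c = K 0 X c) :
    SH r (exp (4 * θ * Z.card)) (fun s => zf n (K s) / zf n (K 0)) ∧
      SH r (exp (4 * θ * Z.card)) fun s => zf n (K 0) / zf n (K s) := by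
  have z := F.km 0 (zero_mem F.pos)
  have a : ∀ s ∈ Pd r, ∀ i, DifferentiableOn ℂ (fun t => zf n (K (update s i t))) (ball 0 (r i)) :=
    fun s hs i => ZL_diff (fun X c => F.hol s hs i X c 1) fun _ => differentiableOn_const _
  refine ⟨⟨F.pos, fun s hs i => (a s hs i).div_const _, fun s hs => ?_⟩, F.pos, fun s hs i =>
    (differentiableOn_const _).div (a s hs i) fun t ht => zf_ne h hn h0 hθ (F.km _ (Pd.upd hs ht)),
    fun s hs => ?_⟩ <;> obtain ⟨ζ, z1, z2⟩ := flat_loc h hn h0 hθ z (F.km s hs) (e s hs)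
  · rw [z1, mul_div_cancel_left₀ _ (zf_ne h hn h0 hθ z)]
    exact (Complex.norm_exp_le_exp_norm _).trans (exp_le_exp.2 z2)
  · rw [z1, div_mul_cancel_left₀ (zf_ne h hn h0 hθ z), ← Complex.exp_neg]
    exact (Complex.norm_exp_le_exp_norm _).trans (exp_le_exp.2 ((norm_neg _).trans_le z2))

/-- the logarithmic derivative -/
theorem flat_jd {i : ι} (e : ∀ X c, Disjoint Z X → Ind i (K · X c)) :
    ‖jd {i} fun s => zf n (K s) / zf n (K 0)‖ ≤ 4 * θ * Z.card / r i := by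
  have z := zero_mem F.pos
  have u : update (0 : ι → ℂ) i 0 = 0 := update_eq_self i 0
  obtain ⟨ζ, z1, z2⟩ := flat_hol h hn h0 hθ (K := fun _ => K 0) isOpen_ball
    (fun _ _ _ => differentiableOn_const _) (F.hol 0 z i) fun t ht => ⟨F.km 0 z, F.km _ (Pd.upd z ht),
      loc_le h h0 (F.km 0 z) (F.km _ (Pd.upd z ht)) fun X c a => e X c a 0 t⟩
  have n0 := zf_ne h hn h0 hθ (F.km 0 z)
  have b := ball_mem_nhds (0 : ℂ) (F.pos i)
  have e0 : Complex.exp (ζ 0) = 1 := by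
    have := (z2 0 (mem_of_mem_nhds b)).1
    rwa [u, left_eq_mul₀ n0] at this
  rw [jd_single, Filter.EventuallyEq.deriv_eq (f := fun t => Complex.exp (ζ t))
    (Filter.mem_of_superset b fun t ht => by
      simpa [Pi.single, div_eq_iff n0, mul_comm] using (z2 t ht).1),
    deriv_cexp (z1.differentiableAt b), e0, one_mul]
  exact deriv_le z1 (fun t ht => by linarith [(z2 t ht).2.1, l1_loc h0 Z]) (F.pos i)

end Pool.Agent.Lib.MP_7f377f_mp.RG.Q4.Sg
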