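import Pool.Agent.Lib.MP_7f377f_mp.Q5Fam

/-! Families through many levels: supports, additivity of the free energy and reality. -/

noncomputable section

open Pool.Agent.Lib.MP_7f377f_mp.Jet

namespace Pool.Agent.Lib.MP_7f377f_mp.RG.Q4.En

open Finset Real Sg Pos

attribute [local irreducible] box lbox tb rc

variable {ι κ : Type} [DecidableEq ι] [DecidableEq κ]

/-- the free energy does not couple different clusters -/
def Fy.Ec (Y : Fy ι) (A : Finset ι) (cl : ι → κ) : Prop :=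
  ∀ T ⊆ A, ∀ i ∈ T, ∀ j ∈ T, cl i ≠ cl j → jd T Y.E = 0

/-- real data for real sources -/
def Fy.Rl (Y : Fy ι) (p : Pa) : Prop :=
  ∀ s, (∀ i, (s i).im = 0) → RealP p (Y.ψ s) ∧ RealA (Y.K s) ∧ (Y.E s).im = 0

theorem ma_real {A : Finset ι} {r : ι → ℝ} {a : Finset ι → ℂ} (hr : ∀ i, 0 < r i)
    (h : ∀ s ∈ Pd r, (∀ i, (s i).im = 0) → (ma A a s).im = 0) :
    (∀ T ⊆ A, (a T).im = 0) ∧ ∀ s, (∀ i, (s i).im = 0) → (ma A a s).im = 0 :=
  have e : ∀ T ⊆ A, (a T).im = 0 := fun T hT => jd_ma a hT ▸ jd_real (sh_ma hr A a) h T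
  ⟨e, fun s hs => by
    simpa only [ma_apply] using real_ma (a := fun T _ _ _ => a T) (fun T hT _ _ _ => e T hT) hs ∅ ∅ 1⟩

namespace Gl

/-- the support of a source at level `k` -/
def zs (G : Gl) (X : Finset St) (i k : ℕ) : Finset St :=
  dw (fun k X => tb (G.N k) (G.L k ^ G.K0) (dn (G.l k) (G.N k) X)) X i k

variable {G : Gl} {A T : Finset ι} {F : ι → Sr} {W : ι → Finset St} {b β θ θ' d Δ C : ℝ}
  {J i j k c R : ℕ} {z z' : Z} {Y : Fy ι} {r r' r0 r1 : ι → ℝ} {f f' : (ι → ℂ) → Conf → ℂ}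
  {cl : ι → κ} {X X' : Finset St}

theorem zs_top : G.zs X i i = X := dw_top ..

theorem zs_step (h : k < i) (z : Z) : G.zs X i k = nxt (G.sd k z) (G.zs X i (k + 1)) :=
  dw_step _ _ h

theorem fw_Z : ∀ k ≤ i, (G.fw A b J Y i k).Z = fun a => G.zs (Y.Z a) i k :=
  dw_ind (by simp only [fw_top, zs_top]) fun k hk ih => by
    simp only [fw_step hk, fs, ih, zs_step hk (G.zz b J (k + 1))]

theorem fm_Z (hk : k ≤ J) : (G.fm A F W b J k).Z = fun a => G.zs (W a) J k := fw_Z k hk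

theorem zs_mono (e : X ⊆ X') : ∀ k ≤ i, G.zs X i k ⊆ G.zs X' i k :=
  dw_ind (by simpa only [zs_top]) fun k hk ih => by
    rw [zs_step hk (G.top0 0 0), zs_step hk (G.top0 0 0)]; exact nxt_mono ih

omit [DecidableEq κ] in
theorem ft_ec : (G.ft A F W b J).Ec A cl := fun T _ _ _ _ _ _ => jd_zero T

theorem ft_rl (a : FA r (G.p J) (G.N J) (kI (G.p J) (G.N J) β) fun s => sK (G.p J) (G.N J) b (sF A F s))
    (h : ∀ i ∈ A, ∀ x μ ν, (F i x μ ν).im = 0) : (G.ft A F W b J).Rl (G.p J) := fun _ hs =>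
  ⟨fun x B u _ => sL_real (sF_real h hs) x B u,
    real_ma (fun T _ => a.real_jA (fun _ _ hs => sK_real (sF_real h hs)) T) hs, rfl⟩

namespace Ok

variable (h : G.Ok)
include h

omit h in
theorem rt_pos (i k : ℕ) : (0 : ℝ) < G.rt i k := Nat.cast_pos.2 (pow_pos three_pos _)

theorem zs_sep (e : Sep (G.N i) Δ X X') : ∀ k ≤ i,
    Sep (G.N k) (Δ / G.rt i k - 6 * (G.L k : ℝ) ^ G.K0) (G.zs X i k) (G.zs X' i k) :=
  dw_ind (by
    simp only [zs_top, rt_top, Nat.cast_one, div_one]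
    exact e.mono (sub_le_self _ (by positivity)) Subset.rfl Subset.rfl) fun k hk ih => by
    have := Sep.step (h.sd_all k (G.top0 0 0)).nu (by rw [h.sd_nf]; exact ih)
    rw [zs_step hk (G.top0 0 0), zs_step hk (G.top0 0 0), h.rt_step hk, Nat.cast_mul, mul_comm,
      ← div_div, ← Nat.cast_pow]
    exact this

theorem D_step (k : ℕ) : 1000 * G.L (k + 1) ^ G.K0 ≤ G.L k * G.L k ^ G.K0 :=
  (h.sd_all k (G.top0 0 0)).nu.lens.2.2.2.2.2.2.2.2

theorem D_rt (hj : j ≤ k) (hk : k ≤ i) : G.L k ^ G.K0 * G.rt i k ≤ G.L j ^ G.K0 * G.rt i j := by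
  induction k, hj using Nat.le_induction with
  | base => rfl
  | succ k _ ih =>
    refine le_trans ?_ (ih (by omega))
    rw [h.rt_step (show k < i from hk), ← mul_assoc, mul_comm _ (G.L k)]
    exact Nat.mul_le_mul_right _ (by have := h.D_step k; omega)

omit [DecidableEq ι] [DecidableEq κ] in
/-- the clusters stay separated down to level `j` -/
theorem zs_cls (e : Cls (G.N i) Δ A cl W) (C0 : 0 ≤ C)
    (hΔ : (20 * C + 6) * ((G.L j : ℝ) ^ G.K0 * G.rt i j) ≤ Δ) (hj : j ≤ k) (hk : k ≤ i) :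
    Cls (G.N k) (C * (G.p k).D) A cl fun a => G.zs (W a) i k := fun x hx y hy u => by
  refine (h.zs_sep (e x hx y hy u) k hk).mono ?_ Subset.rfl Subset.rfl
  have : (G.L k : ℝ) ^ G.K0 * G.rt i k ≤ (G.L j : ℝ) ^ G.K0 * G.rt i j := by
    exact_mod_cast h.D_rt hj hk
  rw [le_sub_iff_add_le, le_div_iff₀ (rt_pos i k), show (G.p k).D = 20 * G.L k ^ G.K0 from rfl]
  push_cast
  nlinarith

/-- the supports stay in balls -/
theorem zs_rad {x : St} (e : X ⊆ tb (G.N i) R {x}) :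
    ∀ k ≤ i, ∃ y, G.zs X i k ⊆ tb (G.N k) (R / G.rt i k + 4 * G.L k ^ G.K0) {y} :=
  dw_ind ⟨x, by
    rw [zs_top, rt_top, Nat.div_one]
    exact e.trans (tb_mono Subset.rfl (by omega))⟩ fun k hk ⟨y, ih⟩ => ⟨yo (G.l k) y, fun w hw => by
    rw [zs_step hk (G.top0 0 0)] at hw
    obtain ⟨a, u, hu, a'⟩ := mem_nxt.1 hw
    have := (mem_tb_single.1 (ih hu)).2
    rw [← h.N_succ] at this
    refine mem_tb_single.2 ⟨a, (this.yo.trans a').mono ?_⟩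
    have L0 : 0 < G.L k := by linarith [h.L_big k]
    have a1 : 4 * G.L (k + 1) ^ G.K0 / G.L k ≤ G.L k ^ G.K0 :=
      Nat.div_le_of_le_mul (by have := h.D_step k; omega)
    have a2 := @Nat.add_div (R / G.rt i (k + 1)) (4 * G.L (k + 1) ^ G.K0) _ L0
    have a3 := Nat.one_le_pow G.K0 _ L0
    rw [h.rt_step hk, mul_comm (G.L k), ← Nat.div_div_eq_div_mul]
    change _ / G.L k + 1 + G.L k ^ G.K0 ≤ _
    split_ifs at a2 <;> omega⟩

theorem zs_card {x : St} (e : X ⊆ tb (G.N i) R {x}) (hk : k ≤ i) :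
    (G.zs X i k).card ≤ (2 * (R / G.rt i k + 4 * G.L k ^ G.K0) + 1) ^ 4 :=
  let ⟨_, a⟩ := h.zs_rad e k hk
  (card_le_card a).trans ((card_tb_le _ _ _).trans_eq (by rw [card_singleton, one_mul]))

/-- the jets of the free energy -/
theorem fs_E (u : (G.sd k z).Pu) (e : G.Fd (k + 1) z' A r0 r θ Y f) (T : Finset ι) :
    jd T (G.fs A k z Y).E = jd T Y.E +
      ∑ y ∈ (G.sd k z).Λ', jd T fun s => (G.sd k z).Ey (Y.ψ s) (Y.K s) y := by
  have a := (h.fi_sd e.fi z).ey (h.sd_all k z).nu u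
  have p := e.fi.pos
  have b : ∀ y, ∃ M, SH r M fun s => (G.sd k z).Ey (Y.ψ s) (Y.K s) y := fun y => a y ▸ hb_ma p _
  choose M hM using b
  obtain ⟨_, c⟩ : Hb r Y.E := e.ma ▸ hb_ma p _
  rw [← jd_sum p fun y _ => hM y]
  exact jd_add c (SH.sum p fun y _ => hM y) T

omit [DecidableEq κ] in
theorem fs_ec (u : (G.sd k z).Pu) (e : G.Fd (k + 1) z' A r0 r θ Y f) (a : Y.Ec A cl)
    (hc : Cls (G.N k) d A cl (G.fs A k z Y).Z) (hd : 0 < d) : (G.fs A k z Y).Ec A cl :=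
  fun T hT x hx y hy w => by
    rw [h.fs_E u e, a T hT x hx y hy w, zero_add]
    exact sum_eq_zero fun v _ => (h.fi_sd e.fi z).ey_far (h.sd_all k z).nu hc hd hT hx hy w v

theorem fs_rl (t : G.Ad J k z) (e : G.Fd (k + 1) z A r0 r θ Y f)
    (e' : G.Fd k z' A r1 r' θ' (G.fs A k z Y) f') (a : Y.Rl (G.p (k + 1)))
    (pu : ∀ s ∈ Pd r, PU (G.p (k + 1)) β (Y.ψ s)) (hb : G.Q k ^ 100 * β ≤ 1)
    (hθ : G.Q k ^ 100 * θ ≤ 1) : (G.fs A k z Y).Rl (G.p k) := by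
  have p : ∀ x, 0 < min (r x) (r' x) := fun x => lt_min (e.fi.pos x) (e'.fi.pos x)
  have w := fun s (hs : s ∈ Pd fun x => min (r x) (r' x)) => (h.fi_sd e.fi z).real_step (h.st2 t.tz)
    pu hb hθ (fun s hs => ⟨(a s hs).1, (a s hs).2.1⟩) (h.src_ps t.tz t.lt t.v t.kp).2.1
    (s := s) fun x => (hs x).trans_le (min_le_left _ _)
  have w1 := ((e'.fi.mono p (fun _ => min_le_right _ _) le_rfl fun _ => Subset.rfl).real
    fun s hs u => (w s hs u).1).2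
  have w2 := (ma_real p fun s hs u => by
    rw [← e'.ma]
    simp only [fs, Complex.add_im, Complex.im_sum, (a s u).2.2, (w s hs u).2, sum_const_zero,
      add_zero]).2
  exact fun s hs => ⟨(w1 s hs).1, (w1 s hs).2, e'.ma ▸ w2 s hs⟩

omit [DecidableEq κ] in
/-- additivity along a flow -/
theorem fw_ec {r : ℕ → ι → ℝ} {θ d : ℕ → ℝ} {z : ℕ → Z} {f : ℕ → (ι → ℂ) → Conf → ℂ}
    (u : ∀ k, j ≤ k → k < i → (G.sd k (G.zz b J (k + 1))).Pu ∧
      G.Fd (k + 1) (z k) A r0 (r k) (θ k) (G.fw A b J Y i (k + 1)) (f k) ∧ 0 < d k ∧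
      Cls (G.N k) (d k) A cl (G.fw A b J Y i k).Z) (a : Y.Ec A cl) :
    ∀ k ≤ i, j ≤ k → (G.fw A b J Y i k).Ec A cl :=
  dw_ind (fun _ => by rwa [fw_top]) fun k hk ih hj => by
    obtain ⟨a1, a2, a3, a4⟩ := u k hj hk
    rw [fw_step hk] at a4 ⊢
    exact h.fs_ec a1 a2 (ih (by omega)) a4 a3

theorem D_pos (k : ℕ) : (0 : ℝ) < (G.p k).D := by
  have : 0 < 20 * G.L k ^ G.K0 := by have := h.L_big k; positivity
  exact Nat.cast_pos.2 this

/-- the family of separated sources along a run -/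
theorem famJ {σ a N : ℝ} {ω : ℕ → ℝ} (t : G.Tu b J) (u : ∀ k < J, (G.sd k (G.zz b J (k + 1))).Pu)
    (hr : ∀ x, 0 < r x) (hσ : ∀ x ∈ A, r x ≤ σ) (σ0 : 0 ≤ σ)
    (hZ : ∀ a x, rc (G.N J) x ∉ W a → F a x = 0) (hF : ∀ i ∈ A, ∀ x μ ν, ‖F i x μ ν‖ ≤ a)
    (a0 : 0 ≤ a) (ha : σ * a ≤ G.bb J / 4) (hc : Cls (G.N J) Δ A id W)
    (hΔ : 66 * ((G.L j : ℝ) ^ G.K0 * G.rt J j) ≤ Δ) (hj : j ≤ J) (N0 : 0 ≤ N)
    (sz : ∀ k, j ≤ k → k < J → G.Q k ^ 100 * ω k ≤ 1 ∧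
      G.Q k ^ 220 * (1 + σ * N) ≤ G.bb (k + 1) ∧ ∀ x ∈ A,
        G.Sz (k + 1) N N (ω k) (G.tv (F x) b J (k + 1)).1 (G.tv (F x) b J (k + 1)).2) :
    ∀ k ≤ J, j ≤ k → G.Fd k (G.zz b J k) A r r (G.Q k ^ 329)⁻¹ (G.fm A F W b J k)
      (G.fr A F b J k) ∧ (∀ x ∈ A, (G.fm A F W b J k).jt {x} = G.tv (F x) b J k) ∧
      (G.fm A F W b J k).Ec A id := by
  have c : ∀ k, j ≤ k → k ≤ J → Cls (G.N k) (3 * (G.p k).D) A id (G.fm A F W b J k).Z :=
    fun k h1 h2 => by rw [fm_Z h2]; exact h.zs_cls hc zero_le_three (by linarith) h1 h2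
  have a := h.famI t u hr hσ σ0 hZ hF a0 ha c hj N0 sz
  exact fun k hk hj => ⟨(a k hk hj).1, (a k hk hj).2, h.fw_ec (fun k h1 h2 =>
    ⟨u k h2, (a (k + 1) h2 (by omega)).1, mul_pos three_pos (h.D_pos k), c k h1 h2.le⟩) ft_ec k hk hj⟩

end Ok

end Gl

end Pool.Agent.Lib.MP_7f377f_mp.RG.Q4.En
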