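import Pool.Agent.Lib.MP_7f377f_mp.Q4FluxB

/-! The flux lemma. -/

noncomputable section

namespace Pool.Agent.Lib.MP_7f377f_mp.RG.Q4.En

open Finset Real La La.Q Sd

variable {S : Sd} {v e xb xk xr θ d x y u ω ω' η P : ℝ} {n : ℕ} {ψ ψ' : Lx} {K K' : Ac} {k : Mj}
  {F : Mt} {f f' : Conf → ℂ} {ϑ : Lk → Angle}

theorem iso_of {G : Conf → ℝ} {k : BF} {c : ℝ} (hn : n ≠ 0) (t0 : 0 < tq n x)
    (hs : ∀ a b, k a b = k b a) (hG : ∀ U, Per n U → (∀ σ, G (pm σ U) = G U) ∧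
      ∀ j, G (rfl1 Inv.inv j U) = G U)
    (H : ∀ F ϑ, As F → ‖F‖ ≤ 2 * tq n x → Fx n F ϑ →
      |G (ab ϑ) - c + n ^ 4 * k (pt F) (pt F)| ≤ η * tq n x ^ 2 * n ^ 4) :
    |(G (ab 0) - G (ab (fl n x))) / (n ^ 4 * tq n x ^ 2) - k e1 e1| ≤ 2 * η ∧
      ∀ a b δ δ', Cv 0 δ a → Cv 0 δ' b →
        |k (cc a) (cc b) - k e1 e1 * m0 a b| ≤ 128 * η * δ * δ' := by
  have f0 := fx_fl hn x
  have f1 : ∀ p, ∃ ϑ, Fx n (tq n x • EE p) ϑ := fx_EE hn _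
  generalize tq n x = t at *
  have n0 : (0 : ℝ) < n ^ 4 * t ^ 2 := by positivity
  have a : ∀ {F ϑ}, As F → ‖F‖ ≤ 2 → Fx n (t • F) ϑ →
      |G (ab ϑ) - c + n ^ 4 * t ^ 2 * k (pt F) (pt F)| ≤ n ^ 4 * t ^ 2 * η := fun hF h1 h2 => by
    have := H _ _ (hF.smul t) (by
      rw [norm_smul, norm_of_nonneg t0.le, mul_comm]; gcongr) h2
    simp only [map_smul, LinearMap.smul_apply, smul_eq_mul] at this
    convert this using 1
    · congr 1; ring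
    · ring
  have b : ∀ {F F' ϑ ϑ'}, As F → As F' → ‖F‖ ≤ 2 → ‖F'‖ ≤ 2 → Fx n (t • F) ϑ → Fx n (t • F') ϑ' →
      G (ab ϑ') = G (ab ϑ) → |k (pt F') (pt F') - k (pt F) (pt F)| ≤ 2 * η :=
    fun h1 h2 h3 h4 h5 h6 h7 => by
      have a1 := abs_le.1 (a h1 h3 h5)
      have a2 := abs_le.1 (a h2 h4 h6)
      rw [h7] at a2
      refine abs_le.2 ⟨le_of_mul_le_mul_left ?_ n0, le_of_mul_le_mul_left ?_ n0⟩ <;> linarith
  have m : ∀ p, ‖EE p‖ ≤ 2 := fun p => (norm_EE p).trans one_le_two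
  refine ⟨?_, fun _ _ δ δ' ha hb => (iso hs (η := 2 * η) (fun σ => ?_) (fun p q j => ?_) ha hb).trans_eq
    (by ring)⟩
  · have a1 := abs_le.1 (a (F := 0) (fun _ _ => by simp) (by simp) (by simpa using fx_zero))
    have a2 := abs_le.1 (a (as_EE _) (m _) f0)
    simp only [map_zero, mul_zero, add_zero] at a1
    rw [abs_le, e1, le_sub_iff_add_le, le_div_iff₀ n0, sub_le_iff_le_add, div_le_iff₀ n0]
    constructor <;> linarith
  · exact b (as_EE _) ((as_EE _).pM σ) (m _) ((norm_pM σ).trans (m _)) f0 (f0.pm σ)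
      ((hG _ f0.per).1 σ)
  · obtain ⟨_, h1⟩ := f1 p
    obtain ⟨_, h2⟩ := f1 q
    have h3 := h1.add h2
    have h4 : ‖EE p + EE q‖ ≤ 2 := (norm_add_le_of_le (norm_EE p) (norm_EE q)).trans_eq (by norm_num)
    rw [← smul_add] at h3
    refine b ((as_EE p).add (as_EE q)) (((as_EE p).add (as_EE q)).rM j) h4 ((norm_rM j).trans h4) h3
      (by convert h3.rf j using 1; funext μ ν; simp [rM]; ring) ?_
    rw [ab_rf, (hG _ h3.per).2 j]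

namespace LF

variable (h : LF S v e)
include h

theorem val1 (hψ : PM S.p xb xk xr ψ) (r : RealP S.p ψ) (hx : (xb + xk) * S.g ^ 2 ≤ 1)
    (hr : xr ≤ 1) (hF : As F) (hd : ‖F‖ ≤ d) (d0 : 0 < d) (h1 : S.Q * d ≤ 4 * S.g) (x : St) :
    |(S.Φ ψ x (Ho.em 0 (tF F))).re| ≤ 1 := by
  have a := (h.val hψ r hF hd d0 h1 x).2
  have c := (cv_pt hF (3 * S.r)).mono le_rfl hd
  have a1 := h.cb _ _ _ _ c c
  have a2 := (Complex.abs_re_le_norm _).trans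
    ((hψ x).1.cb _ _ _ _ (c.mono (Nat.zero_le _) le_rfl) (c.mono (Nat.zero_le _) le_rfl))
  obtain ⟨x0, x1, x2⟩ := (hψ x).1.nonneg h.nu.p_ok.1.ρ0
  have b0 := h.nu.ok.β0
  have g0 := h.nu.ok.g0
  have q := h.nu.cQ' (C := 1000) (by norm_num)
  have b1 : S.Q ^ 2 * d ^ 2 ≤ 16 * S.g ^ 2 := by
    rw [← mul_pow]; exact (pow_le_pow_left₀ (by positivity) h1 2).trans_eq (by ring)
  have b2 : S.Q ^ 2 * (S.β * d ^ 2) ≤ 16 := by
    nlinarith [mul_le_mul_of_nonneg_left b1 b0.le, h.nu.ok.βg]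
  have b3 : S.Q ^ 2 * ((xb + xk) * d ^ 2) ≤ 16 := by
    nlinarith [mul_le_mul_of_nonneg_left b1 (add_nonneg x0 x1)]
  have b4 : S.Q * (S.β * d ^ 2) ≤ 1 / 10 := by
    refine le_of_mul_le_mul_left ?_ S.Q0; nlinarith
  have b5 : S.Q * ((xb + xk) * d ^ 2) ≤ 1 / 10 := by
    refine le_of_mul_le_mul_left ?_ S.Q0; nlinarith
  have b6 : d ≤ 1 := by nlinarith [h.nu.ok.g1]
  have b7 : d ^ 2 ≤ 1 := pow_le_one₀ d0.le b6
  have b8 : 2 * d / S.p.ρ ≤ 1 / 2 := by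
    rw [div_le_iff₀ h.nu.p_ok.1.ρ0, h.ρ]
    nlinarith [mul_le_mul_of_nonneg_right (le_self_pow₀ S.Q1 three_ne_zero) g0.le]
  have b9 : xr * (2 * d / S.p.ρ) ^ 3 ≤ 1 * (1 / 2) ^ 3 := by
    have := h.nu.p_ok.1.ρ0
    gcongr
  have c1 : |S.β * S.m (pt F) (pt F)| ≤ 1 / 10 := by
    rw [abs_mul, abs_of_pos b0]
    nlinarith [mul_le_mul_of_nonneg_left a1 b0.le,
      mul_le_mul_of_nonneg_right h.nu.L_le_Q (show 0 ≤ S.β * d ^ 2 by positivity)]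
  have c2 : xb * d * d ≤ 1 / 10 := by
    nlinarith [mul_le_mul_of_nonneg_right S.Q1 (show 0 ≤ (xb + xk) * d ^ 2 by positivity),
      mul_nonneg x1 (sq_nonneg d)]
  have c3 : (S.β + xb + xk) * S.Q * d ^ 4 ≤ 1 / 5 := by
    nlinarith [mul_le_mul_of_nonneg_left b7
      (show 0 ≤ S.Q * (S.β * d ^ 2) + S.Q * ((xb + xk) * d ^ 2) by have := S.Q0; positivity)]
  rw [abs_le] at *
  constructor <;> linarith

theorem chi (hϑ : Fx S.nf F ϑ) (hd : ‖F‖ ≤ d) (h1 : S.Q * d ≤ 4 * S.g) (x : St) :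
    Fq (S.p.R + 1) S.p.ε (sh x (ab ϑ)) := fun y _ μ ν => by
  rw [Mx.fq_sh]
  exact (hϑ.fq_le _ μ ν).trans (hd.trans (h.small ((norm_nonneg _).trans hd) h1).2.2.1)

theorem tq_bd (P1 : S.Q ≤ P) (P2 : P ^ 2 ≤ S.β) : 0 < tq S.nf (S.g / P) ∧
    S.g ≤ P * tq S.nf (S.g / P) ∧ P * tq S.nf (S.g / P) ≤ 2 * S.g ∧
      S.Q * (2 * tq S.nf (S.g / P)) ≤ 4 * S.g := by
  have P0 := S.Q0.trans_le P1
  have g0 := h.nu.ok.g0
  have b0 := h.nu.ok.β0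
  have b1 : 7 ≤ S.β := ((h.nu.cQ' (by norm_num)).trans (le_self_pow₀ S.Q1 (by norm_num))).trans
    h.nu.ok.Qβ
  have a : P * S.g ≤ 1 := le_of_sq_le_sq (by
    nlinarith [mul_le_mul_of_nonneg_right P2 (sq_nonneg S.g), h.nu.ok.βg]) zero_le_one
  obtain ⟨a1, a2⟩ := En.tq_bd (x := S.g / P) h.n0 (by
    rw [div_mul_eq_mul_div, le_div_iff₀ P0]
    refine le_of_mul_le_mul_left ?_ g0
    have : S.β ^ 2 ≤ (S.nf : ℝ) ^ 2 := by gcongr; exact h.vol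
    nlinarith [mul_le_mul_of_nonneg_left this (sq_nonneg S.g), h.nu.ok.βg])
  have t0 := (div_pos g0 P0).trans_le a1
  rw [div_le_iff₀' P0] at a1
  rw [← mul_div_assoc, le_div_iff₀' P0] at a2
  exact ⟨t0, a1, a2, by nlinarith⟩

/-- the flux lemma -/
theorem flux (hψ : PM S.p xb xk xr ψ) (hK : KM S.p S.nf k K) (h0 : kN S.p S.nf k θ)
    (r : Re S.p S.nf ψ K) (s : Sym S.nf f) (p : Rp S ψ K f) (hx : (xb + xk) * S.g ^ 2 ≤ 1)
    (hr : xr ≤ 1) (hθ : 2 * S.Q * θ ≤ 1) (P1 : S.Q ≤ P) (P2 : P ^ 2 ≤ S.β)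
    (hη : S.Q ^ 2 / P ^ 2 + xr / (S.Q ^ 9 * S.g ^ 2) + 2 * P ^ 2 * θ / S.g ^ 2 ≤ η) :
    |bh S.nf (S.g / P) f - (S.β * v + (qc (ψ 0) En.e1 En.e1).re)| ≤ 3 * η ∧
      ∀ a b δ δ', Cv 0 δ a → Cv 0 δ' b →
        ‖qc (ψ 0) a b‖ ≤ (8 * |(qc (ψ 0) En.e1 En.e1).re| + 300 * η) * δ * δ' := by
  obtain ⟨t0, t1, t2, t3⟩ := h.tq_bd P1 P2
  obtain ⟨κ, κ0, p⟩ := p
  obtain ⟨k0, k1, k2, -⟩ := (hψ 0).1.elim
  obtain ⟨x0, x1, x2⟩ := (hψ 0).1.nonneg h.nu.p_ok.1.ρ0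
  have o := h.nu.ok.odd_nf
  have θ0 := h0.nonneg
  have P0 := S.Q0.trans_le P1
  have Q0 := S.Q0
  have g0 := h.nu.ok.g0
  have b0 := h.nu.ok.β0
  have q := h.nu.cQ' (C := 1000) (by norm_num)
  have g1 : 64 * S.g ^ 2 ≤ S.Q ^ 2 / P ^ 2 := by
    rw [le_div_iff₀ (by positivity)]
    nlinarith [mul_le_mul_of_nonneg_right P2 (sq_nonneg S.g), h.nu.ok.βg]
  have g2 : 64 * S.g ^ 2 ≤ η := g1.trans (le_trans (by
    rw [add_assoc]; exact le_add_of_nonneg_right (by positivity)) hη)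
  obtain ⟨a1, a2⟩ := iso_of (G := fun U => log (f U).re) (k := S.β • S.m + reK k0) (c := log κ)
    (η := η) h.n0 t0 (fun a b => by simp [h.symm a, k1.symm a])
    (fun U hU => ⟨fun σ => by rw [(s U hU).2.1], fun j => by rw [(s U hU).2.2]⟩)
    fun F ϑ hF hd hϑ => by
      have v := h.val hψ r.1 hF hd (by linarith) t3 0
      have c : ∀ x, S.Φ ψ x = S.Φ ψ 0 := fun x => by unfold Sd.Φ; rw [TCov.cx o r.2.2 x]
      obtain ⟨b1, b2⟩ := rep_log (Φ := S.Φ ψ) h.pg1.1 o hK r.2.1 h0 (le_trans (by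
        rw [inv_eq_one_div, le_div_iff₀ Q0]; linarith) h.pg1.2) hϑ.per (h.chi hϑ hd t3)
        (z := fun _ => (S.Φ ψ 0 (Ho.em 0 (tF F))).re) (fun x => by
          rw [hϑ.bx hF, c]; exact Complex.ext rfl v.1)
        fun _ => h.val1 hψ r.1 hx hr hF hd (by linarith) t3 0
      rw [sum_const, nsmul_eq_mul, card_dom o] at b2
      rw [p _ hϑ.per, Complex.re_ofReal_mul, log_mul κ0.ne' b1.ne', add_sub_cancel_left]
      have v2 := v.2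
      rw [qc, k2, cc_eq hF] at v2
      simp only [LinearMap.add_apply, LinearMap.smul_apply, smul_eq_mul, reK_apply]
      have n0 : (0 : ℝ) ≤ S.nf ^ 4 := by positivity
      generalize tq S.nf (S.g / P) = t at *
      have w1 : (S.β + xb + xk) * S.Q * (2 * t) ^ 4 ≤ S.Q ^ 2 / P ^ 2 * t ^ 2 := by
        rw [div_mul_eq_mul_div, le_div_iff₀ (by positivity)]
        have : (P * t) ^ 2 ≤ (2 * S.g) ^ 2 := by gcongr
        have : (S.β + xb + xk) * (P * t) ^ 2 ≤ 8 := by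
          nlinarith [mul_le_mul_of_nonneg_left this (show 0 ≤ S.β + xb + xk by positivity),
            h.nu.ok.βg]
        nlinarith [mul_le_mul_of_nonneg_right this (show 0 ≤ S.Q * t ^ 2 by positivity),
          mul_le_mul_of_nonneg_right q (show 0 ≤ S.Q * t ^ 2 by positivity)]
      have w2 : xr * (2 * (2 * t) / S.p.ρ) ^ 3 ≤ xr / (S.Q ^ 9 * S.g ^ 2) * t ^ 2 := by
        rw [h.ρ, show xr * (2 * (2 * t) / (S.Q ^ 3 * S.g)) ^ 3 =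
          xr / (S.Q ^ 9 * S.g ^ 2) * t ^ 2 * (64 * t / S.g) by field_simp; norm_num]
        exact mul_le_of_le_one_right (by positivity) ((div_le_one g0).2 (by nlinarith))
      have w3 : 2 * θ ≤ 2 * P ^ 2 * θ / S.g ^ 2 * t ^ 2 := by
        rw [div_mul_eq_mul_div, le_div_iff₀ (by positivity)]
        have : S.g ^ 2 ≤ (P * t) ^ 2 := by gcongr
        nlinarith [mul_le_mul_of_nonneg_right this θ0]
      have w4 := mul_le_mul_of_nonneg_right hη (sq_nonneg t)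
      have w5 := mul_le_mul_of_nonneg_right (v2.trans
        (show _ ≤ η * t ^ 2 - 2 * θ by linarith only [w1, w2, w3, w4])) n0
      rw [← abs_of_nonneg n0, ← abs_mul, abs_of_nonneg n0, abs_le] at w5
      rw [abs_le] at b2
      exact abs_le.2 ⟨by linarith only [b2.1, w5.1, w5.2, mul_nonneg θ0 n0],
        by linarith only [b2.2, w5.1, w5.2, mul_nonneg θ0 n0]⟩
  simp only [LinearMap.add_apply, LinearMap.smul_apply, smul_eq_mul, reK_apply] at a1 a2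
  have e1 := h.cd cv_e1 cv_e1
  rw [cc_e1, m0_e1] at e1
  rw [qc, k2, cc_e1]
  refine ⟨?_, fun a b δ δ' ha hb => ?_⟩
  · have b1 := abs_le.1 a1
    have b2 := abs_le.1 e1
    unfold bh
    exact abs_le.2 ⟨by linarith only [b1.1, b2.1, g2, h.nu.ok.βg, sq_nonneg S.g],
      by linarith only [b1.2, b2.2, g2, h.nu.ok.βg, sq_nonneg S.g]⟩
  · have i := (hψ 0).1.real_q2 h.nu.p_ok.1.ρ0 (r.1 0) (cc a) (cc b)
    have d0 := mul_nonneg ha.nonneg hb.nonneg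
    have c1 := a2 a b δ δ' ha hb
    have c2 := h.cd ha hb
    have c3 : |(S.β * S.m En.e1 En.e1 + (k0 En.e1 En.e1).re - S.β * v) * m0 a b| ≤
        (|(k0 En.e1 En.e1).re| + η) * (8 * δ * δ') := by
      rw [abs_mul]
      refine mul_le_mul ?_ (m0_le ha hb) (abs_nonneg _)
        (add_nonneg (abs_nonneg _) (le_trans (by positivity) g2))
      have b2 := abs_le.1 e1
      exact abs_le.2 ⟨by linarith only [b2.1, g2, neg_abs_le (k0 En.e1 En.e1).re, sq_nonneg S.g],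
        by linarith only [b2.2, g2, le_abs_self (k0 En.e1 En.e1).re, sq_nonneg S.g]⟩
    rw [qc, ← Complex.abs_re_eq_norm.2 i, k2]
    have c4 := mul_le_mul_of_nonneg_right g2 d0
    have c5 := mul_nonneg (le_trans (by positivity) g2) d0
    have b1 := abs_le.1 c1
    have b2 := abs_le.1 c2
    have b3 := abs_le.1 c3
    exact abs_le.2 ⟨by linarith only [b1.1, b2.2, b3.1, c4, c5],
      by linarith only [b1.2, b2.1, b3.2, c4, c5]⟩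

theorem cmp_num {t : ℝ} (t0 : 0 < t) (t1 : S.g ≤ S.Q * t) (t2 : S.Q * t ≤ 2 * S.g)
    (c3 : (S.p.R + 1 : ℝ) ≤ 5 * S.D0) (x0 : 0 ≤ x) (y0 : 0 ≤ y) (θ1 : 0 ≤ ω * y * S.g ^ 2)
    (s2 : S.Q ^ 100 * (ω * y * S.g ^ 2) ≤ y * S.g ^ 2) :
    324 * (x + S.Q ^ 2 * y) * (S.p.R + 1) ^ 3 * (2 * t) ^ 4 ≤ (x + y) / 10 ^ 6 * t ^ 2 * (7 / 10) ∧
      S.Q ^ 50 * ω * y * S.g ^ 2 * (2 * (2 * t) / S.p.ρ) ^ 3 ≤ y * t ^ 2 / 10 ^ 8 ∧
      ω * y * S.g ^ 2 ≤ y * t ^ 2 / 10 ^ 8 ∧ y * t ^ 2 ≤ (x + y) * t ^ 2 ∧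
      3 * (x + S.Q ^ 2 * y) * (2 * (2 * t)) ^ 2 + S.Q ^ 50 * ω * y * S.g ^ 2 *
        (2 * (2 * t) / S.p.ρ) ^ 3 ≤ 49 * S.Q ^ 2 * ((x + y) * t ^ 2) := by
  have Q0 := S.Q0
  have g0 := h.nu.ok.g0
  have q := h.nu.cQ' (C := 10 ^ 9) (by norm_num)
  have xy := mul_nonneg (add_nonneg x0 y0) (sq_nonneg t)
  have w : ∀ i j, i ≤ j → S.Q ^ i * (ω * y * S.g ^ 2) ≤ S.Q ^ j * (ω * y * S.g ^ 2) :=
    fun i j hi => mul_le_mul_of_nonneg_right (S.Qw hi) θ1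
  have w' : ∀ i, 10 ^ 9 * (S.Q ^ i * (ω * y * S.g ^ 2)) ≤ S.Q * (S.Q ^ i * (ω * y * S.g ^ 2)) :=
    fun i => mul_le_mul_of_nonneg_right q (mul_nonneg (pow_pos Q0 i).le θ1)
  have t4 : t ≤ S.g := by nlinarith only [t2, q, t0]
  have m := h.nu.mon (C := 10 ^ 12) (i := 0) (j := 3) (by norm_num) (by omega) (by omega)
  have w0 : (S.p.R + 1 : ℝ) ^ 3 ≤ (5 * S.D0) ^ 3 := by gcongr
  have w1 : (x + S.Q ^ 2 * y) ≤ S.Q ^ 2 * (x + y) := by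
    linarith only [mul_le_mul_of_nonneg_right (one_le_pow₀ (n := 2) S.Q1) x0]
  have w2 : S.Q ^ 3 * t ^ 2 ≤ 1 := by
    have a := h.nu.ok.Qg_le (i := 3) (j := 0) (by norm_num)
    have : t ^ 2 ≤ S.g := by nlinarith only [h.nu.ok.g1, t4, t0]
    linarith only [mul_le_mul_of_nonneg_left this (pow_pos Q0 3).le, a]
  have w4 : S.Q ^ 50 * ω * y * S.g ^ 2 * (2 * (2 * t) / S.p.ρ) ^ 3 ≤ y * t ^ 2 / 10 ^ 8 := by
    rw [h.ρ, show S.Q ^ 50 * ω * y * S.g ^ 2 * (2 * (2 * t) / (S.Q ^ 3 * S.g)) ^ 3 =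
      64 * (S.Q ^ 41 * (ω * y * S.g ^ 2)) * (t / S.g) * t ^ 2 / S.g ^ 2 by field_simp; norm_num,
      div_le_iff₀ (pow_pos g0 2)]
    have := (div_le_one g0).2 t4
    have a : 64 * (S.Q ^ 41 * (ω * y * S.g ^ 2)) ≤ y * S.g ^ 2 / 10 ^ 8 := by
      linarith only [w' 41, w' 42, w 43 100 (by norm_num), s2, mul_nonneg (pow_pos Q0 42).le θ1]
    calc _ ≤ y * S.g ^ 2 / 10 ^ 8 * 1 * t ^ 2 := by gcongr
      _ = _ := by ring
  have w7 : y * t ^ 2 ≤ (x + y) * t ^ 2 := by gcongr; linarith only [x0]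
  refine ⟨?_, w4, ?_, w7, ?_⟩
  · calc _ ≤ 324 * (S.Q ^ 2 * (x + y)) * (S.Q * 125 / 10 ^ 12) * (2 * t) ^ 4 := by
          gcongr; linarith only [w0, m]
      _ = 648 / 10 ^ 9 * ((x + y) * t ^ 2) * (S.Q ^ 3 * t ^ 2) := by ring
      _ ≤ 648 / 10 ^ 9 * ((x + y) * t ^ 2) * 1 := by gcongr
      _ ≤ _ := by linarith only [xy]
  · have a : S.g ^ 2 ≤ (S.Q * t) ^ 2 := by gcongr
    have b : S.Q ^ 3 * (ω * y * S.g ^ 2) ≤ S.Q ^ 2 * (y * t ^ 2) := by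
      linarith only [mul_le_mul_of_nonneg_left a y0, w 3 100 (by norm_num), s2]
    refine le_of_mul_le_mul_left ?_ (pow_pos Q0 2)
    linarith only [w' 2, mul_nonneg (pow_pos Q0 2).le θ1, b]
  · linarith only [mul_le_mul_of_nonneg_right w1 (sq_nonneg t), w4, w7,
      mul_le_mul_of_nonneg_right (one_le_pow₀ (n := 2) S.Q1) xy, mul_nonneg y0 (sq_nonneg t)]

/-- two densities with the same measured coupling -/
theorem flux_cmp (z : Sz S.p S.nf S.Q S.g u u ω ψ K) (z' : Sz S.p S.nf S.Q S.g x y ω' ψ' K')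
    (hu : S.Q ^ 300 * u * S.g ^ 2 ≤ 1) (hω : S.Q ^ 100 * ω ≤ 1) (hω' : S.Q ^ 100 * ω' ≤ 1)
    (y0 : 0 ≤ y) (hx : S.Q ^ 300 * (x + y) * S.g ^ 2 ≤ 1) (r : Re S.p S.nf ψ K)
    (r' : Re S.p S.nf (ψ + ψ') (K + K')) (s : Sym S.nf f) (s' : Sym S.nf f') (p : Rp S ψ K f)
    (p' : Rp S (ψ + ψ') (K + K') f') (e : bh S.nf (S.g / S.Q) f = bh S.nf (S.g / S.Q) f')
    (a b : V) (δ δ' : ℝ) (ha : Cv 0 δ a) (hb : Cv 0 δ' b) :
    ‖qc (ψ' 0) a b‖ ≤ (x + y) / 1000 * δ * δ' := by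
  obtain ⟨t0, t1, t2, t3⟩ := h.tq_bd le_rfl ((S.Qw (by norm_num)).trans h.nu.ok.Qβ)
  obtain ⟨κ, κ0, p⟩ := p
  obtain ⟨κ', κ0', p'⟩ := p'
  obtain ⟨hψ, k, hK, h0⟩ := z
  obtain ⟨hψ', k', hK', h0'⟩ := z'
  have ρ0 := h.nu.p_ok.1.ρ0
  obtain ⟨k0, k1, k2, -⟩ := (hψ' 0).1.elim
  obtain ⟨x0, -, x2⟩ := (hψ' 0).1.nonneg ρ0
  obtain ⟨u0, -, u2⟩ := (hψ 0).1.nonneg ρ0
  have o := h.nu.ok.odd_nf
  have θ0 := h0.nonneg
  have θ1 := h0'.nonneg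
  have Q0 := S.Q0
  have g0 := h.nu.ok.g0
  have q := h.nu.cQ' (C := 10 ^ 9) (by norm_num)
  have hs : PM S.p _ _ _ (ψ + ψ') := fun x =>
    ⟨((hψ x).1.add (hψ' x).1 ρ0).1, (hψ x).2.add (hψ' x).2⟩
  have rd : RealP S.p ψ' := fun x B h1 h2 => by simpa [r.1 x B h1 h2] using r'.1 x B h1 h2
  have cd : ∀ x, ψ' x = ψ' 0 := fun x => add_left_cancel
    ((TCov.cx o r'.2.2 x).trans (congrArg (· + ψ' 0) (TCov.cx o r.2.2 x).symm))
  have w : ∀ i j, i ≤ j → ∀ z, 0 ≤ z → S.Q ^ i * z ≤ S.Q ^ j * z := fun i j hi z hz =>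
    mul_le_mul_of_nonneg_right (S.Qw hi) hz
  have w' : ∀ i j, i < j → ∀ z, 0 ≤ z → 10 ^ 9 * (S.Q ^ i * z) ≤ S.Q ^ j * z :=
    fun i j hi z hz => le_trans (by
      rw [pow_succ' S.Q, mul_assoc]
      exact mul_le_mul_of_nonneg_right q (mul_nonneg (pow_pos Q0 i).le hz)) (w (i + 1) j hi z hz)
  have s1 : S.Q ^ 100 * (ω * u * S.g ^ 2) ≤ u * S.g ^ 2 := by
    nlinarith [mul_le_mul_of_nonneg_right hω (show 0 ≤ u * S.g ^ 2 by positivity)]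
  have s2 : S.Q ^ 100 * (ω' * y * S.g ^ 2) ≤ y * S.g ^ 2 := by
    nlinarith [mul_le_mul_of_nonneg_right hω' (show 0 ≤ y * S.g ^ 2 by positivity)]
  have s3 := w' 2 300 (by norm_num) _ (show 0 ≤ u * S.g ^ 2 by positivity)
  have s4 := w' 2 300 (by norm_num) _ (show 0 ≤ (x + y) * S.g ^ 2 by positivity)
  have s5 := w 0 2 (by norm_num) _ (show 0 ≤ u * S.g ^ 2 by positivity)
  have s6 := w 0 2 (by norm_num) _ (show 0 ≤ x * S.g ^ 2 by positivity)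
  have s7 := w 0 2 (by norm_num) _ (show 0 ≤ y * S.g ^ 2 by positivity)
  have s8 := w 50 100 (by norm_num) _ θ0
  have s9 := w 50 100 (by norm_num) _ θ1
  have s11 := w' 2 50 (by norm_num) _ (add_nonneg θ0 θ1)
  have s12 := w 1 2 (by norm_num) _ (add_nonneg θ0 θ1)
  have s13 : 0 ≤ S.Q ^ 2 * (x * S.g ^ 2) := by positivity
  have s14 : 0 ≤ S.Q ^ 2 * (y * S.g ^ 2) := by positivity
  have s15 : S.Q ^ 50 * (ω * u * S.g ^ 2 + ω' * y * S.g ^ 2) ≤ 2 / 10 ^ 9 := by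
    linarith only [s1, s2, s3, s4, s5, s7, s8, s9, s13, hu, hx]
  have s16 : S.Q ^ 2 * (ω * u * S.g ^ 2 + ω' * y * S.g ^ 2) ≤ 1 / 10 ^ 12 := by
    linarith only [s11, s15]
  have s17 : (u + S.Q ^ 2 * u) * S.g ^ 2 ≤ 1 := by linarith only [s3, s5, hu]
  have s18 : (u + x + (S.Q ^ 2 * u + S.Q ^ 2 * y)) * S.g ^ 2 ≤ 1 := by
    linarith only [s3, s4, s5, s6, hu, hx, s13, s14]
  obtain ⟨a1, a2⟩ := iso_of (G := fun U => log (f' U).re - log (f U).re) (k := reK k0)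
    (c := log κ' - log κ) (η := (x + y) / 10 ^ 6) h.n0 t0 (fun a b => by simp [k1.symm a])
    (fun U hU => ⟨fun σ => by rw [(s U hU).2.1, (s' U hU).2.1],
      fun j => by rw [(s U hU).2.2, (s' U hU).2.2]⟩)
    fun F ϑ hF hd hϑ => by
      obtain ⟨c1, c2, -, -, c3⟩ := h.small (by linarith only [t0]) t3
      have v := ps_val (hψ' 0).1 hF hd c1 c2
      have b := Ho.real_em 0 (tF F)
      have cv := Ho.cv_em 0 (cc_val k1.cc hF hd c1).1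
      have v1 := (hψ' 0).1.bd b cv c2
      have c : ∀ x, S.Φ ψ x = S.Φ ψ 0 := fun x => by unfold Sd.Φ; rw [TCov.cx o r.2.2 x]
      have c' : ∀ x, S.Φ (ψ + ψ') x = S.Φ (ψ + ψ') 0 := fun x => by
        unfold Sd.Φ; rw [TCov.cx o r'.2.2 x]
      have d : (S.Φ (ψ + ψ') 0 (Ho.em 0 (tF F))).re - (S.Φ ψ 0 (Ho.em 0 (tF F))).re =
        (ψ' 0 (Ho.em 0 (tF F))).re := by simp [Sd.Φ]
      obtain ⟨b1, b2, b3⟩ := rep_cmp (Φ := S.Φ ψ) (Φ' := S.Φ (ψ + ψ')) h.pg1.1 o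
        (hK.mono fun X c => le_add_of_nonneg_right (h0'.1 X c)) (hK.add hK')
        (by rwa [add_sub_cancel_left]) r.2.1 r'.2.1 (h0.add h0') h0' (le_trans (by
          rw [inv_eq_one_div, le_div_iff₀ Q0]; linarith only [s12, s16]) h.pg1.2) hϑ.per
        (h.chi hϑ hd t3) (z := fun _ => (S.Φ ψ 0 (Ho.em 0 (tF F))).re)
        (z' := fun _ => (S.Φ (ψ + ψ') 0 (Ho.em 0 (tF F))).re) (fun x => by
          rw [hϑ.bx hF, c]; exact Complex.ext rfl (h.val hψ r.1 hF hd (by linarith only [t0]) t3 0).1)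
        (fun x => by
          rw [hϑ.bx hF, c']; exact Complex.ext rfl (h.val hs r'.1 hF hd (by linarith only [t0]) t3 0).1)
        fun _ => ⟨h.val1 hψ r.1 s17 (by linarith only [s15, x2]) hF hd (by linarith only [t0]) t3 0,
          h.val1 hs r'.1 s18 (by linarith only [s15]) hF hd (by linarith only [t0]) t3 0,
          d ▸ (Complex.abs_re_le_norm _).trans v1⟩
      rw [sum_const, nsmul_eq_mul, card_dom o, d] at b3
      rw [p _ hϑ.per, p' _ hϑ.per, Complex.re_ofReal_mul, Complex.re_ofReal_mul,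
        log_mul κ0.ne' b1.ne', log_mul κ0'.ne' b2.ne', reK_apply]
      have v2 := (Complex.abs_re_le_norm _).trans v
      rw [qc, k2, cc_eq hF, Complex.sub_re] at v2
      have n0 : (0 : ℝ) ≤ S.nf ^ 4 := by positivity
      generalize tq S.nf (S.g / S.Q) = t at *
      obtain ⟨w3, w4, w5, w7, w8⟩ := h.cmp_num t0 t1 t2 c3 x0 y0 θ1 s2
      have w9 := mul_le_mul_of_nonneg_right s16 (mul_nonneg (add_nonneg x0 y0) (sq_nonneg t))
      have w11 := mul_nonneg y0 (sq_nonneg t)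
      have w8 := mul_le_mul_of_nonneg_right w8 (add_nonneg θ0 θ1)
      have b4 := abs_le.1 (b3.trans (mul_le_mul_of_nonneg_right (show _ ≤
        (x + y) / 10 ^ 6 * t ^ 2 / 10 by linarith only [w5, w7, w8, w9, w11]) n0))
      have w10 := mul_le_mul_of_nonneg_right (v2.trans (show _ ≤ (x + y) / 10 ^ 6 * t ^ 2 *
        (9 / 10) by linarith only [w3, w4, w7, w11])) n0
      rw [← abs_of_nonneg n0, ← abs_mul, abs_of_nonneg n0, abs_le] at w10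
      exact abs_le.2 ⟨by linarith only [b4.1, w10.1, w10.2], by linarith only [b4.2, w10.1, w10.2]⟩
  rw [show ∀ a b c d n : ℝ, (a - b - (c - d)) / n = (a - c) / n - (b - d) / n from
    fun _ _ _ _ _ => by ring, ← bh, ← bh, e, sub_self, zero_sub, abs_neg] at a1
  have c1 := a2 a b δ δ' ha hb
  have c2 : |reK k0 En.e1 En.e1 * m0 a b| ≤ 2 * ((x + y) / 10 ^ 6) * (8 * δ * δ') := by
    rw [abs_mul]
    exact mul_le_mul a1 (m0_le ha hb) (abs_nonneg _) (by positivity)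
  rw [qc, ← Complex.abs_re_eq_norm.2 ((hψ' 0).1.real_q2 ρ0 (rd 0) _ _), k2, ← reK_apply]
  have c3 := mul_nonneg (add_nonneg x0 y0) (mul_nonneg ha.nonneg hb.nonneg)
  rw [abs_le] at c1 c2
  exact abs_le.2 ⟨by linarith only [c1.1, c2.1, c3], by linarith only [c1.2, c2.2, c3]⟩

end LF

end Pool.Agent.Lib.MP_7f377f_mp.RG.Q4.En
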