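import Pool.Agent.Lib.MP_7f377f_mp.RGSmF
import Pool.Agent.Lib.MP_7f377f_mp.KitMix

/-! The new local term produced by the fluctuation integral. -/

noncomputable section

namespace Pool.Agent.Lib.MP_7f377f_mp.RG.JS

open Finset MeasureTheory

attribute [local irreducible] box lbox

theorem nu_prob {ζ : ℝ} (h : 0 < ζ) : IsProbabilityMeasure (nu ζ) := by
  have : IsFiniteMeasure (nu0 ζ) := isFiniteMeasure_withDensity (ne_top_of_le_ne_top
    (by simpa using (measure_closedBall_lt_top (μ := volume) (x := (0 : E3))).ne) (lintegral_mono (g := fun _ => 1) fun v =>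
      ENNReal.ofReal_le_one.2 (Real.exp_le_one_iff.2 (neg_nonpos.2 (by positivity)))))
  have : NeZero (nu0 ζ) := ⟨fun e => by
    have := withDensity_absolutelyContinuous' (μ := volume.restrict (Metric.closedBall (0 : E3) ζ))
      (f := fun v => ENNReal.ofReal (Real.exp (-(‖v‖ ^ 2 / 2)))) (by fun_prop)
      (.of_forall fun v => (ENNReal.ofReal_pos.2 (Real.exp_pos _)).ne')
    rw [← nu0, e, Measure.absolutelyContinuous_zero_iff, Measure.restrict_eq_zero] at this
    exact (Metric.measure_closedBall_pos volume _ h).ne' this⟩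
  exact isProbabilityMeasureSMul

theorem nu_rot (ζ : ℝ) (T : E3 ≃ₗᵢ[ℝ] E3) : (nu ζ).map T = nu ζ := by
  have m := T.continuous.measurable
  have : (nu0 ζ).map T = nu0 ζ := Measure.ext fun s hs => by
    rw [Measure.map_apply m hs, nu0, withDensity_apply _ hs, withDensity_apply _ (m hs),
      Measure.restrict_restrict hs, Measure.restrict_restrict (m hs),
      ← T.measurePreserving.setLIntegral_comp_preimage (hs.inter measurableSet_closedBall)
        (by fun_prop)]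
    simp [Set.preimage_inter]
  rw [nu, Measure.map_smul, this]

variable {D : Dat} {c R : ℕ} {τ ρ κ : ℝ}

theorem nuI_prob (h : D.Ok c τ R ρ κ) : IsProbabilityMeasure (nuI D.ζ) := by
  have := nu_prob (zero_lt_one.trans_le h.zeta)
  unfold nuI
  infer_instance

theorem wt_eq (W : Cf) : D.wt W = Kit.fl (nuI D.ζ) (D.s0 W) fun z => -D.sS W z := by
  simp only [Dat.wt, Kit.fl, mul_neg]

theorem wt_gauge (h : D.Ok c τ R ρ κ) (u : St → S3) (W : Cf) :
    D.wt (gauge star (fun x => cS (u x)) W) = D.wt W := by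
  choose T hT using exists_rot
  have := nu_prob (zero_lt_one.trans_le h.zeta)
  let Θ : (Lk → E3) ≃ᵐ (Lk → E3) :=
    MeasurableEquiv.piCongrRight fun f => (T (u (yo D.l f.1))).toMeasurableEquiv
  have hΘ : MeasurePreserving Θ (nuI D.ζ) (nuI D.ζ) := ⟨Θ.measurable,
    (Measure.infinitePi_map_pi _ fun f : Lk => (T (u (yo D.l f.1))).continuous.measurable).trans
      (by simp only [nu_rot, nuI])⟩
  have e : ∀ y z, D.s0 (sh y (gauge star (fun x => cS (u x)) W)) (sh (up D.l y) (Θ z)) =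
      D.s0 (sh y W) (sh (up D.l y) z) := fun y z => by
    rw [sh_gauge, ← Dat.s0_gauge h (fun x => u (x + y)) (fun x => T (u (x + y))) (fun x => hT _)
      (sh y W)]
    congr 1
    funext f
    exact congrArg (fun x => T (u x) _) (yo_add_up _ _ _)
  have e0 := e 0
  simp only [up_zero, Li.sh_zero] at e0
  unfold Dat.wt
  refine intervalIntegral.integral_congr fun t _ => ?_
  rw [← hΘ.integral_comp', ← hΘ.integral_comp' fun z => Complex.exp (-(t * D.sS (gauge _ _ _) z))]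
  simp only [Dat.sS, e, e0]

theorem wt_agr (h : D.Ok c τ R ρ κ) {W W' : Cf} (hW : Agr (D.Rs R + D.Rb) W W') :
    D.wt W = D.wt W' := by
  have e : ∀ y ∈ box D.Rb, ∀ z, D.s0 (sh y W) z = D.s0 (sh y W') z := fun y hy z =>
    Dat.s0_agr h (agr_sh hW hy le_rfl) fun _ _ => rfl
  have e0 := e 0 (Li.zero_mem_box _)
  simp only [Li.sh_zero] at e0
  have e1 : ∀ z, D.sS W z = D.sS W' z := fun z => sum_congr rfl fun y hy => e y hy _
  simp only [Dat.wt, e0, e1]

theorem wt_real (h : D.Ok c τ R ρ κ) (W : Conf) : (D.wt (cC W)).im = 0 := by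
  have e0 : D.s0 (cC W) = fun z => ((D.s0 (cC W) z).re : ℂ) :=
    funext fun z => Complex.ext rfl (Dat.s0_real h W z)
  have e1 : (fun z => -D.sS (cC W) z) = fun z => ((-D.sS (cC W) z).re : ℂ) :=
    funext fun z => Complex.ext rfl (by
      rw [Complex.neg_im, Dat.sS, Complex.im_sum, Complex.ofReal_im, neg_eq_zero]
      exact sum_eq_zero fun y _ => Dat.s0_real h (sh y W) _)
  rw [wt_eq, e0, e1, Kit.fl_ofReal, Complex.ofReal_im]

theorem measurable_sh (x : St) : Measurable (sh x : (Lk → E3) → Lk → E3) :=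
  measurable_pi_lambda _ fun _ => measurable_pi_apply _

theorem sS_bd {W : Cf} {θ : ℝ} (hθ : (2 * D.Rb + 1) ^ 4 * θ ≤ 1 / 100)
    (h : ∀ y ∈ box D.Rb, (∀ z, ‖D.s0 (sh y W) z‖ ≤ θ) ∧ Measurable (D.s0 (sh y W))) :
    (∀ z, ‖D.s0 W z‖ ≤ θ) ∧ Measurable (D.s0 W) ∧ (∀ z, ‖-D.sS W z‖ ≤ 1 / 10) ∧
      Measurable fun z => -D.sS W z := by
  have := h 0 (Li.zero_mem_box _)
  rw [Li.sh_zero] at this
  refine ⟨this.1, this.2, fun z => ?_,
    (measurable_fun_sum _ fun y hy => (h y hy).2.comp (measurable_sh _)).neg⟩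
  rw [norm_neg]
  refine (norm_sum_le_of_le _ fun y hy => (h y hy).1 _).trans ?_
  rw [sum_const, Li.card_box, nsmul_eq_mul]
  push_cast
  linarith

/-! ### the linear comb gauge -/

section cg
variable {W W' : Type} [AddCommGroup W] [AddCommGroup W']

theorem cg_map (φ : W →+ W') (a : Lk → W) (e : Lk) : cg (fun e => φ (a e)) e = φ (cg a e) := by
  simp only [cg, gr, lam, pr, Pi.sub_apply, map_sub, map_sum]

theorem cg_sub (a b : Lk → W) : cg (a - b) = cg a - cg b := by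
  funext e
  simp only [cg, gr, lam, pr, Pi.sub_apply, sum_sub_distrib]
  abel

end cg

theorem cut_cg_bd {B : Fld} (h : Cv R ρ B) (ρ0 : 0 ≤ ρ) (e : Lk) : ‖cut R (cg B) e‖ ≤ 3 * R * ρ := by
  simp only [cut]
  split_ifs with he
  · exact Sm_cg h e he
  · rw [norm_zero]; positivity

theorem cut_cg_cv {B : Fld} (h : Cv R ρ B) {a b : ℕ} (hab : a + b + 1 ≤ R) {y : St}
    (hy : y ∈ box b) : Cv a ρ (sh y (cut R (cg B))) :=
  cv_sh (R := a + b) (fun x hx μ ν => by
    rw [dd_agr (agr_mono (agr_cut R _) hab) hx, dd_cg]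
    exact h x (Li.box_mono (by omega) hx) μ ν) hy le_rfl

theorem cut_cg_disc {Ω : Set ℂ} {γ : ℂ → Fld} (h : Disc Ω γ) (R : ℕ) :
    Disc Ω fun t => cut R (cg (γ t)) := fun e => by
  have : ∀ e, DifferentiableOn ℂ (fun t => γ t e) Ω := h
  simp only [cut]
  split_ifs
  · simp only [cg, gr, lam, pr, Pi.sub_apply]
    fun_prop
  · exact differentiableOn_const _

theorem cut_cg_zero (R : ℕ) : cut R (cg (0 : Fld)) = 0 := by
  funext e
  simp [cut, cg, gr, lam, pr]

theorem exF_zero : exF 0 = 1 := funext fun _ => ex_zero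

theorem cut_cg_ad (h : Hc) (B : Fld) :
    cut R (cg (adF (fun _ => h) B)) = adF (fun _ => h) (cut R (cg B)) := by
  rw [← cut_adF]
  congr 1
  funext e
  refine cg_map (AddMonoidHom.mk' (adq h) fun a b => ?_) B e
  rw [adq, show io (a + b) = io a + io b from ioL.map_add a b, mul_add, add_mul]
  funext k
  fin_cases k <;> rfl

theorem cut_cg_real {B : Fld} (h : RealF B) : RealF (cut R (cg B)) := fun e k => by
  simp only [cut]
  split_ifs
  · have := cg_map (AddMonoidHom.mk' (fun b : C3 => (b k).im) fun _ _ => rfl) B e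
    simp only [AddMonoidHom.mk'_apply, h _ k] at this
    rw [← this]
    simp [cg, gr, lam, pr]
  · rfl

theorem cC_gauge (u : St → S3) (W : Conf) :
    cC (gauge Inv.inv u W) = gauge star (fun x => cS (u x)) (cC W) := by
  funext e
  simp only [cC, gauge, cS_mul, cS_inv]

theorem _root_.Pool.Agent.Lib.MP_7f377f_mp.RG.fresh_tm (c : ℕ) :
    ∃ K : ℕ, ∀ (D : Dat) (R : ℕ) (τ ρ κ : ℝ), D.Ok c τ R ρ κ →
    K ≤ D.l → D.Rb + D.Rs R + 2 ≤ R → (LL D.l : ℝ) ^ K * ρ ≤ 1 →
    (LL D.l : ℝ) ^ K * (D.g * D.ζ) ≤ ρ →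
    (2 * D.Rb + 1) ^ 4 * D.th0 K τ ρ κ (3 * R * ρ) ≤ 1 / 100 →
      Tm R ρ (10 * D.th0 K τ ρ κ (3 * R * ρ) + (LL D.l : ℝ) ^ K * ρ) (D.fresh R) ∧
      ∀ W : Conf, curvG (ρ / 2) W →
        D.fresh R (Bx 0 (cC W)) = D.wt (cC W) - D.wt 1 - (D.dt (cC W) - D.dt 1) ∧
        (∀ z, ‖D.s0 (cC W) z‖ ≤ D.th0 K τ ρ κ (3 * R * ρ)) ∧
        Measurable (D.s0 (cC W)) := by
  obtain ⟨K0, h0⟩ := s0_main c
  obtain ⟨K1, h1⟩ := exists_pre c
  refine ⟨K0 + K1 * 3 + 4 * c + 18, fun D R τ ρ κ h hl hR hρ hγ hθ => ?_⟩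
  have ρ0 := h.rho
  have L1 := one_le_LL D.l
  have L6 := LL_ge h
  have R1 : (1 : ℝ) ≤ R := by exact_mod_cast (by omega : 1 ≤ R)
  have γ0 : 0 ≤ D.g * D.ζ := mul_nonneg (g_nonneg D) (zero_le_one.trans h.zeta)
  have pw : ∀ n ≤ K0 + K1 * 3, 10 ^ 12 * (LL D.l ^ n * R ^ 2) ≤
      (LL D.l : ℝ) ^ (K0 + K1 * 3 + 4 * c + 18) := fun n hn => by
    have : (R : ℝ) ≤ LL D.l ^ (2 * c + 8) := by exact_mod_cast h.rad
    calc _ = (10 ^ 6) ^ 2 * ((LL D.l : ℝ) ^ n * R ^ 2) := by ring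
      _ ≤ LL D.l ^ 2 * (LL D.l ^ (K0 + K1 * 3) * (LL D.l ^ (2 * c + 8)) ^ 2) := by gcongr
      _ = _ := by ring
  have pw' : ∀ n ≤ K0 + K1 * 3, 10 ^ 12 * ((LL D.l : ℝ) ^ n * R ^ 2 * ρ) ≤ 1 := fun n hn => by
    rw [← mul_assoc]
    exact le_trans (by gcongr; exact pw n hn) hρ
  have R2 : ∀ n, (LL D.l : ℝ) ^ n * R * ρ ≤ (LL D.l : ℝ) ^ n * R ^ 2 * ρ := fun n => by
    gcongr; nlinarith
  have R0 : ∀ n, 0 ≤ (LL D.l : ℝ) ^ n * R * ρ := fun n => by positivity
  obtain ⟨k1, k2⟩ := h0 D R τ ρ κ (3 * R * ρ) h (by omega) (by nlinarith)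
    (by linarith [pw' K0 (by omega), R2 K0, R0 K0])
    (by nlinarith [pw' K0 (by omega), R2 K0, R0 K0]) (le_trans (by gcongr; omega) hγ)
  have p := h1 D R τ ρ κ (3 * R * ρ) h (by omega) (by positivity)
    (by rw [← pow_mul]; linarith [pw' (K1 * 3) (by omega), R2 (K1 * 3), R0 (K1 * 3)])
  have hmono : D.th0 K0 τ ρ κ (3 * R * ρ) ≤
      D.th0 (K0 + K1 * 3 + 4 * c + 18) τ ρ κ (3 * R * ρ) := by
    have := h.beta
    have := h.tau
    have := kappa_nonneg h
    unfold Dat.th0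
    gcongr
    omega
  set θ := D.th0 (K0 + K1 * 3 + 4 * c + 18) τ ρ κ (3 * R * ρ)
  have := nuI_prob h
  have k3 := fun (B : Fld) (hB : Cv R ρ B) => sS_bd (W := exF (cut R (cg B))) hθ fun y hy =>
    (k1 (sh y (cut R (cg B))) (fun e => cut_cg_bd hB ρ0.le _)
      (cut_cg_cv hB (by omega) hy)).imp_left fun a z => (a z).trans hmono
  have k4 : ∀ B : Fld, Cv R ρ B → ‖D.wt (exF (cut R (cg B)))‖ ≤ 3 / 2 * θ := fun B hB => by
    rw [wt_eq]
    exact Kit.fl_le _ (k3 B hB).2.2.2 (k3 B hB).1 (k3 B hB).2.2.1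
  have small : ∀ B : Fld, Cv R ρ B → ∀ e, ‖cut R (cg B) e‖ ≤ 1 / 10 := fun B hB e =>
    (cut_cg_bd hB ρ0.le e).trans (by
      have := pw' 0 (by omega)
      have := R2 0
      simp only [pow_zero, one_mul] at *
      linarith)
  have one : cC 1 = 1 := funext fun _ => cS_one
  refine ⟨⟨fun A B hAB => ?_, fun Ω γ hΩ dγ hγ => ?_, fun B hB => ?_, ?_, fun g B => ?_,
    fun B hB => ?_⟩, fun W hW => ?_⟩
  · have : cut R (cg A) = cut R (cg B) := funext fun e => by
      have := cut_cg_bd (R := R) (ρ := 0) (B := A - B)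
        (fun x hx μ ν => by rw [dd_sub, hAB x hx, sub_self, norm_zero]) le_rfl e
      simp only [cut, cg_sub, mul_zero, norm_le_zero_iff] at this ⊢
      split_ifs at this ⊢
      exacts [sub_eq_zero.1 this, rfl]
    simp only [Dat.fresh, this]
  · have d := cut_cg_disc dγ R
    have d1 := fun y hy z => k2 Ω (fun t => sh y (cut R (cg (γ t)))) hΩ (fun e => d _)
      (fun t ht e => cut_cg_bd (hγ t ht) ρ0.le _)
      (fun t ht => cut_cg_cv (b := D.Rb) (hγ t ht) (by omega) hy) z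
    have d0 := d1 0 (Li.zero_mem_box _)
    simp only [Li.sh_zero] at d0
    have d2 := Kit.fl_holo (nuI D.ζ) hΩ (fun t ht => (k3 _ (hγ t ht)).2.1)
      (fun t ht => (k3 _ (hγ t ht)).2.2.2) d0
      (fun z => (DifferentiableOn.fun_sum fun y hy => d1 y hy _).neg)
      (fun t ht => (k3 _ (hγ t ht)).1) fun t ht => (k3 _ (hγ t ht)).2.2.1
    simp only [← wt_eq] at d2
    refine (d2.sub_const _).sub (DifferentiableOn.sub_const ?_ _)
    exact DifferentiableOn.fun_sum fun f _ => DifferentiableOn.fun_sum fun k _ =>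
      differentiableOn_pi.1 (Dat.pol_disc h _ (exF_disc d fun t ht => small _ (hγ t ht)) _ f) k
  · have a := k4 0 fun x _ μ ν => by simp [dd, ρ0.le]
    rw [cut_cg_zero, exF_zero] at a
    refine (norm_sub_le_of_le (norm_sub_le_of_le (k4 B hB) a)
      (p.dt _ (cut_cg_bd hB ρ0.le))).trans ?_
    have := mul_le_mul_of_nonneg_right (pw (K1 * 2) (by omega)) ρ0.le
    rw [← pow_mul]
    linarith [norm_nonneg (D.wt 1), R2 (K1 * 2), R0 (K1 * 2)]
  · simp [Dat.fresh, cut_cg_zero]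
  · have : exF (cut R (cg (adF (fun _ => cS g) B))) =
        gauge star (fun _ => cS g) (exF (cut R (cg B))) := by
      rw [cut_cg_ad]
      exact funext fun e => ex_adq (uni_cS g) _
    simp only [Dat.fresh, this, wt_gauge h fun _ => g, Dat.dt_gauge h fun _ => uni_cS g]
  · obtain ⟨U, hU⟩ := exF_real (cut_cg_real (R := R) hB)
    simp only [Dat.fresh, ← hU, ← one, Complex.sub_im, wt_real h, Dat.dt_real, sub_zero]
  · have q := pw' 0 (by omega)
    simp only [pow_zero, one_mul] at q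
    obtain ⟨f1, -, f3⟩ := real_fix (R := R) hW (by nlinarith)
    have f4 : Cv R ρ (Bx 0 (cC W)) := cv_mono f3 le_rfl (by
      have : (R + 1) ^ 2 * ρ ≤ (2 * R) ^ 2 * ρ := by gcongr; linarith
      nlinarith)
    have f5 : Agr R (exF (cut R (cg (Bx 0 (cC W)))))
        (gauge star (fun x => cS (cmb Inv.inv W x)) (cC W)) := fun e he => by
      rw [← cC_gauge, f1 e he, cg_Bx, exF, exF, agr_cut R _ e he]
    choose T hT using exists_rot
    have e : D.s0 (cC W) = fun z => D.s0 (exF (cut R (cg (Bx 0 (cC W)))))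
        fun f => T (cmb Inv.inv W (yo D.l f.1)) (z f) := funext fun z => by
      rw [Dat.s0_agr h (agr_mono f5 (by omega)) fun _ _ => rfl,
        Dat.s0_gauge h _ (fun x => T (cmb Inv.inv W x)) fun x => hT _]
    refine ⟨?_, ?_, ?_⟩
    · rw [Dat.fresh, wt_agr h (agr_mono f5 (by omega)), wt_gauge h,
        Dat.dt_agr h (agr_mono f5
          (by unfold Dat.Rs at hR; generalize R / LL D.l = q at hR; omega)),
        Dat.dt_gauge h fun _ => uni_cS _]
    · exact e ▸ fun z => (k3 _ f4).1 _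
    · exact e ▸ (k3 _ f4).2.1.comp (measurable_pi_lambda _ fun f =>
        (T _).continuous.measurable.comp (measurable_pi_apply f))

end Pool.Agent.Lib.MP_7f377f_mp.RG.JS
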