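import Pool.Agent.Lib.MP_7f377f_mp.Q4FoA

/-! Measurability of the integrand and of the weight of a family of objects. -/

noncomputable section

namespace Pool.Agent.Lib.MP_7f377f_mp.RG.Q4

open Finset MeasureTheory
open scoped Classical

attribute [local irreducible] box lbox tb tau rc

namespace Fx

variable {S : Sd} {P : ℝ} {ψ : Lx} {K : Ac} {Z : Type} [MeasurableSpace Z]

theorem msh {α : Type} [MeasurableSpace α] {A : Z → Lk → α} (h : Measurable A) (y : St) :
    Measurable fun x => sh y (A x) := measurable_pi_lambda _ fun _ => h.eval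

theorem mshv {v : Z → VB} (h : Measurable v) (y : St) : Measurable fun x => shv y (v x) :=
  measurable_pi_lambda _ fun _ => h.eval

theorem mcut {A : Z → Fld} (h : Measurable A) (R : ℕ) : Measurable fun x => cut R (A x) :=
  measurable_pi_lambda _ fun e => by
    unfold cut
    split_ifs
    exacts [h.eval, measurable_const]

theorem chi_meas (p : Pa) {W : Z → Conf} (h : Measurable W) (y : St) :
    Measurable fun x => chi p (W x) y :=
  .ite (meas_Fq (msh h y) _ _) measurable_const measurable_const

theorem ctr_meas {R : ℕ} {ρ : ℝ} {φ : Fld → ℂ} (h : Measurable φ) : Measurable (ctr R ρ φ) := by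
  refine Measurable.ite ?_ (ctf_meas h) measurable_const
  simp only [RealF, Set.ofPred_forall]
  exact .iInter fun e => .iInter fun k => measurableSet_eq_fun (by fun_prop) measurable_const

theorem mq_wB {B : Z → Fld} (h : Measurable B) (e : Lk) : MQ fun x => S.wB (B x) e :=
  mq_ex ((meas_cut_cg _).comp h).eval

/-- a function with countably many values may be substituted -/
theorem meas_sub {ι M : Type} [Countable ι] [MeasurableSpace M] {L : Z → ι} {F : ι → Z → M}
    (hL : ∀ i, MeasurableSet {x | L x = i}) (hF : ∀ i, Measurable (F i)) :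
    Measurable fun x => F (L x) x := fun s hs => by
  have : (fun x => F (L x) x) ⁻¹' s = ⋃ i, {x | L x = i} ∩ F i ⁻¹' s := by
    ext x
    simp
  rw [this]
  exact .iUnion fun i => (hL i).inter (hF i hs)

theorem lab_meas {W : Z → Conf} (h : Measurable W) (O : Finset Ob) (c : Finset (Finset St)) :
    MeasurableSet {x | S.lab (W x) O = c} := by
  simp only [Finset.ext_iff, Set.ofPred_forall, Sd.lab, ncs, mem_filter, Heal]
  refine .iInter fun Y => measurableSet_setOfPred.2 (.iff (.and measurable_const (.not
    (.and measurable_const (.forall fun y => .forall fun _ => measurableSet_setOfPred.1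
      (measurableSet_le ?_ measurable_const))))) measurable_const)
  exact measurable_fun_sum _ fun μ _ => measurable_fun_sum _ fun ν _ =>
    (Mx.cont_fq y μ ν).measurable.comp h

theorem wf_meas {W : Z → Conf} (h : Measurable W) (O : Finset Ob) :
    Measurable fun x => S.wf (W x) O := by
  have := meas_sub (F := fun c x => ∏ y ∈ c.biUnion id \ Wk O, chi S.p' (W x) y) (lab_meas (S := S) h O)
    fun _ => measurable_fun_prod _ fun y _ => chi_meas _ h y
  exact (measurable_fun_prod _ fun y _ => (chi_meas _ h y).const_sub 1).fun_mul this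

theorem Ix_meas {p : Pa} {Φ : Lx} (hΦ : ∀ x, Measurable (Φ x)) {U : Z → Conf} (h : Measurable U)
    (y : St) : Measurable fun x => Ix p Φ (U x) y :=
  (chi_meas p h y).mul ((hΦ y).comp (Bx_measurable (mq_cC h) y)).neg.cexp

theorem Φ_meas (ht : S.TOk) (hψ : ∀ x, Measurable (ψ x)) (x : St) : Measurable (S.Φ ψ x) :=
  (((measurable_cx ht.rng measurable_id measurable_id).add ht.tc.meas).const_mul _).add (hψ x)

theorem qk_meas {l : ℕ} {k : Z → Kf} {a b : Z → Fld}
    (hk : ∀ e i e' j, Measurable fun x => k x e i e' j) (ha : Measurable a) (hb : Measurable b) :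
    Measurable fun x => qk l (k x) (a x) (b x) :=
  measurable_fun_sum _ fun _ _ => measurable_fun_sum _ fun _ _ => measurable_fun_sum _ fun _ _ =>
    measurable_fun_sum _ fun _ _ => (hk _ _ _ _).mul (ha.eval.eval.mul hb.eval.eval)

variable (h : S.Fo P)
include h

theorem m1_meas : Measurable fun B => cx S.m1 B B :=
  measurable_cx (mb_rng h.lin 3) measurable_id measurable_id

theorem T1_meas : Measurable S.T1 := by
  have k : Measurable (S.t.tq (S.r + 5) S.m1) :=
    (Nt.tn_meas h.ok fun e => mq_ex (meas_cut_cg _).eval).sub (m1_meas h)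
  exact ctf_meas (k.sub (kq_meas (F := fun _ => S.t.tq (S.r + 5) S.m1) fun s t =>
    k.comp ((measurable_id.const_smul s).add (measurable_id.const_smul t))))

theorem ol_meas : Measurable S.ol := (Td.dt0_meas h.ok (mq_wB measurable_id)).const_sub _

section complex

variable {W : Z → Cf} {z : Z → Lk → E3} {A : Z → Fld} (hW : ∀ e, MQ fun x => W x e)
include hW

theorem xf_meas (hA : Measurable A) (u : St) : Measurable fun x => S.xf (W x) (A x) u := by
  refine Measurable.add ?_ ((Nt.a0_meas h.ok hW).const_mul _)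
  split_ifs
  exacts [(Nt.xi_meas h.ok hW (Nt.As_meas h.ok hW) hA _ _).add
    (Nt.xi_meas h.ok hW measurable_const (Nt.As_meas h.ok hW) _ _), measurable_const]

theorem tel_meas (hA : Measurable A) : Measurable fun x => S.tel (W x) (A x) :=
  measurable_fun_sum _ fun u _ => (xf_meas h (W := fun x => sh u (W x)) (fun _ => hW _)
    (msh hA _) _).sub (xf_meas h hW hA u)

variable (hz : Measurable z)
include hz

theorem s1_meas : Measurable fun x => S.s1 (W x) (z x) := by
  have a := Sd.v0_meas h.ok hW hz
  have b := (Nt.As_meas h.ok hW).add a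
  exact ((Nt.rem3_meas h.ok hW a 0).const_mul _).add ((measurable_fun_sum _ fun f _ =>
    ((measurable_dot b.eval b.eval).const_add 1).clog).const_mul _)

theorem sT_meas : Measurable fun x => S.sT (W x) (z x) := by
  have b := Bx_measurable hW 0
  have b1 : Measurable fun x => cx S.m1 (Bx 0 (W x)) (Bx 0 (W x)) :=
    measurable_cx (mb_rng h.lin 3) b b
  have b2 : Measurable fun x => S.T1 (Bx 0 (W x)) := (T1_meas h).comp b
  have b3 : Measurable fun x => S.t.rest (S.r + 5) ((S.D0 : ℝ)⁻¹) S.m1 (W x) :=
    ((Nt.tn_meas h.ok hW).fun_sub b1).fun_sub b2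
  exact (((Nt.gv_meas h.ok hW (Nt.As_meas h.ok hW) (Sd.v0_meas h.ok hW hz) 0).fun_add
    b3).const_mul _).fun_sub ((measurable_fun_sum _ fun f _ => measurable_dot (meas_zc _ hz).eval
      (Td.pol0_meas h.ok hW (meas_zc _ hz)).eval).div_const _)

theorem sP_meas (hψ : ∀ x, Measurable (ψ x)) : Measurable fun x => S.sP ψ (W x) (z x) :=
  measurable_fun_sum _ fun y _ => (hψ y).comp (mcut (Bx_measurable (Sd.U0_meas h.ok hW hz) y) _)

end complex

theorem pz_meas (hψ : ∀ x, Measurable (ψ x)) : Measurable (S.pz ψ) := by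
  have := nuI_prob (ζ := S.ζ) S.Q0
  exact ctr_meas ((sP_meas h (mq_wB measurable_fst) measurable_snd hψ).stronglyMeasurable
    |>.integral_prod_right' (ν := nuI S.ζ)).measurable

theorem fm_meas {W : Z → Cf} {z : Z → Lk → E3} (hW : ∀ e, MQ fun x => W x e) (hz : Measurable z)
    (hψ : ∀ x, Measurable (ψ x)) : Measurable fun x => S.fm ψ (W x) (z x) :=
  ((((((s1_meas h hW hz).add (sT_meas h hW hz)).add (sP_meas h hW hz hψ)).neg.add
    ((pz_meas h hψ).comp (Bx_measurable hW 0))).add_const _).cexp).sub_const _

theorem Φ'_meas (hψ : ∀ x, Measurable (ψ x)) {y : St}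
    (hF : ∀ X ∈ S.X1s, Measurable (S.Fs (S.Ky K y) X)) : Measurable (S.Φ' ψ K y) :=
  ((((m1_meas h).add (T1_meas h)).const_mul _).add (ol_meas h)).add
    (((pz_meas h fun _ => hψ _).sub_const _).sub
      (measurable_fun_sum _ fun X hX => (hF X hX).sub_const _))

variable {W : Z → Conf} {z : Z → Lk → E3} {v : Z → VB} (hW : Measurable W)
include hW

theorem Eg_meas (hz : Measurable z) : Measurable fun x => S.Eg (W x) (z x) := by
  have a := Sd.vH_meas h.ok hW hz
  exact ((((qk_meas (Td.kd_meas h.ok (mq_cC hW)) a a).const_mul _).add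
    ((measurable_fun_sum _ fun f _ => measurable_dot (meas_cF hz).eval
      (Sd.pol_meas h.ok hW (meas_cF hz)).eval).div_const _)).add (Sd.dtH_meas h.ok hW)).sub
    ((tel_meas h (mq_cC hW) a).const_mul _)

variable (hv : Measurable v)
include hv

theorem Jk_meas : Measurable fun x => S.Jk (W x) (v x) := by
  have a := Sd.Af_meas h.ok hW ((Cov.meas_vz S.l).comp hv)
  refine .ite ?_ (measurable_fun_prod _ fun t _ => (((meas_th.comp
    (((Cov.meas_vs _).comp hv).eval.prodMk a.eval)).const_mul 8).mul
      (cont_dH.measurable.comp a.eval)).mul_const _) measurable_const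
  simp only [Fr, Set.ofPred_forall]
  exact .iInter fun u => .iInter fun _ => (Sd.H_meas hW _).compl

theorem Gw_meas : Measurable fun x => S.Gw (W x) (v x) := by
  have a := Sd.Uv_meas h.ok hW hv
  have b := Cov.meas_vo.comp hv
  exact ((measurable_wt _).comp (a.prodMk b.eval)).mul (measurable_fun_prod _ fun μ _ =>
    (Mx.cont_hk0 _).measurable.comp (hW.eval.mul ((measurable_blkN _).comp (a.prodMk b)).eval.inv))

theorem Gn_meas : Measurable fun x => S.Gn (W x) (v x) :=
  (Complex.measurable_ofReal.comp (((Gw_meas h hW hv).mul (Jk_meas h hW hv)).const_mul _)).mul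
    (Eg_meas h hW ((Cov.meas_vz _).comp hv)).cexp

variable (ht : S.TOk) (hψ : ∀ x, Measurable (ψ x)) (hK : ∀ X c, Measurable (K X c))
  (hF : ∀ y, ∀ X ∈ S.X1s, Measurable (S.Fs (S.Ky K y) X)) {O : Finset Ob} (hO : O ⊆ S.obs)
include ht hψ hK hF hO

theorem FO_meas : Measurable fun x => S.FO ψ K (W x) O (v x) := by
  have a := Sd.Uv_meas h.ok hW hv
  have b := Bx_measurable (mq_cC hW)
  refine ((Measurable.mul ?_ (measurable_fun_prod _ fun y _ => ?_)).mul
    (measurable_fun_prod _ fun m hm => ?_)).mul (measurable_fun_prod _ fun y _ => ?_)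
  · split_ifs
    exacts [measurable_fun_prod _ fun o _ => (hK _ _).comp a, measurable_const]
  · have := meas_sub (F := fun c x => if y ∈ c.biUnion id then 0 else S.Φ' ψ K y (Bx y (cC (W x))))
      (lab_meas (S := S) hW O) fun c => by
        split_ifs
        exacts [measurable_const, (Φ'_meas h hψ (hF y)).comp (b y)]
    exact ((Gn_meas h (msh hW y) (mshv hv y)).fun_mul (measurable_fun_prod _ fun x _ =>
      Ix_meas (Φ_meas ht hψ) a _)).fun_mul (this.const_add _).cexp
  · have hm := hO (mem_toRight.1 hm)
    rcases m with y | q | q | Y <;> simp only [Sd.jm]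
    · split_ifs
      exacts [measurable_const, fm_meas h (W := fun x => sh y (cC (W x))) (fun _ => mq_cC hW _)
        (msh ((Cov.meas_vz _).comp hv) _) fun _ => hψ _]
    · exact measurable_const
    · simp only [Sd.obs, Sd.mks, inr_mem_disjSum, inl_mem_disjSum, mem_product] at hm
      split_ifs
      exacts [measurable_const, ((hF _ _ hm.2).comp (b _)).neg.cexp.sub_const _]
    · exact Sd.dZ_meas h.ok hW Y
  · have := (Cov.meas_gd S.l S.ζ).comp (hv.eval (a := y))
    refine Complex.measurable_ofReal.comp (Measurable.div_const ?_ _)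
    split_ifs
    exacts [this.const_sub 1, this]

omit hv in
theorem wO_meas : Measurable fun x => S.wO ψ K (W x) O := by
  have := nu_prob (S.Q0.trans_le h.nu.ok.ζ_zm)
  exact (wf_meas hW O).mul ((FO_meas h (hW.comp measurable_fst) ((Mx.meas_pcs _).comp
    measurable_snd) ht hψ hK hF hO).stronglyMeasurable.integral_prod_right'
      (ν := PB S.l (nu S.zm))).measurable

end Fx

end Pool.Agent.Lib.MP_7f377f_mp.RG.Q4
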