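import Pool.Agent.Lib.MP_7f377f_mp.RGMeasTree
import Pool.Agent.Lib.MP_7f377f_mp.Q4Model

/-! Free energy bounds: axial gauge upper bound and gauge orbit lower bound. -/

noncomputable section

namespace Pool.Agent.Lib.MP_7f377f_mp.RG.Q4

open Finset MeasureTheory
open scoped Quaternion ENNReal

namespace Fr

theorem mem_box {l : ℕ} {x : St} : x ∈ box l ↔ ∀ i, -(l : ℤ) ≤ x i ∧ x i ≤ l := by
  simp only [box, Fintype.mem_piFinset, mem_Icc]

theorem half (l : ℕ) : LL l / 2 = l := by unfold LL; omega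

theorem rc_up (l : ℕ) (x : St) : rc (LL l) x = x + up l (-yo l x) := by
  funext i
  have h := Int.mul_ediv_add_emod (x i + l) (LL l : ℕ)
  simp only [rc, half, up, yo, Pi.add_apply, Pi.smul_apply, Pi.neg_apply, smul_eq_mul]
  linear_combination h

theorem rc_box (l : ℕ) (x : St) : rc (LL l) x ∈ box l := by
  rw [rc_up, mem_box]
  intro i
  have := Ms.rel_box l x i
  simpa only [up, smul_neg, ← sub_eq_add_neg] using this

theorem rc_id {l : ℕ} {x : St} (h : x ∈ box l) : rc (LL l) x = x := by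
  rw [rc_up, Ms.yo_box (mem_box.1 h)]
  simp [up]

theorem cg_rc (l : ℕ) (x : St) : Ms.Cg (LL l * 1) (rc (LL l) x) x := fun i =>
  ⟨-yo l x i, by simp [rc_up, up]⟩

theorem PL_pc {α : Type} (l : ℕ) (U : Lk → α) : Ms.PL (LL l * 1) (pc (LL l) U) := by
  intro x y μ h
  have : rc (LL l) x = rc (LL l) y := by
    funext i
    have h1 := h i
    rw [mul_one] at h1
    simp only [rc]
    congr 1
    refine Int.emod_eq_emod_iff_emod_sub_eq_zero.2 ?_
    rw [add_sub_add_right_eq_sub]
    exact Int.emod_eq_zero_of_dvd h1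
  simp only [pc, this]

theorem cont_pc (n : ℕ) : Continuous fun U : Conf => pc n U :=
  continuous_pi fun _ => continuous_apply _

theorem card_box (l : ℕ) : (box l).card = LL l ^ 4 := by
  have : (Icc (-(l : ℤ)) l).card = LL l := by
    rw [Int.card_Icc]; unfold LL; omega
  simp [box, Fintype.card_piFinset, this]

/-- one link can be integrated out -/
theorem step (e : Lk) {F : Conf → ℝ≥0∞} {a b : Conf → S3} {h : S3 → ℝ≥0∞} (hF : Measurable F)
    (ha : Measurable a) (hb : Measurable b) (hh : Measurable h)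
    (hd : ∀ U U', (∀ e', e' ≠ e → U e' = U' e') → F U = F U' ∧ a U = a U' ∧ b U = b U') :
    ∫⁻ U, F U * h (a U * U e * b U) ∂PP = (∫⁻ U, F U ∂PP) * ∫⁻ g, h g ∂haar := by
  have hm : Measurable fun U : Conf => F U * h (a U * U e * b U) :=
    hF.mul (hh.comp ((ha.mul (measurable_pi_apply e)).mul hb))
  have h2 := Ms.mp_merge (· = e)
  rw [← h2.lintegral_comp hm, ← lintegral_mul_const _ hF]
  refine (lintegral_prod _ (hm.comp h2.measurable).aemeasurable).trans ?_
  refine lintegral_congr fun U => ?_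
  have h3 : ∀ U' : Conf, F (fun e' => if e' = e then U' e' else U e') *
      h (a (fun e' => if e' = e then U' e' else U e') * (if e = e then U' e else U e) *
        b (fun e' => if e' = e then U' e' else U e')) = F U * h (a U * U' e * b U) := fun U' => by
    have := hd (fun e' => if e' = e then U' e' else U e') U fun e' he => if_neg he
    rw [this.1, this.2.1, this.2.2, if_pos rfl]
  refine (lintegral_congr h3).trans ?_
  have h4 : Measurable fun g : S3 => h (a U * g * b U) :=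
    hh.comp ((measurable_const_mul _).mul_const _)
  refine (lintegral_const_mul _ (h4.comp (measurable_pi_apply e))).trans ?_
  congr 1
  have h5 : MeasurePreserving (fun U' : Conf => U' e) PP haar :=
    measurePreserving_eval_infinitePi (fun _ : Lk => haar) e
  refine (h5.lintegral_comp h4).trans ?_
  rw [lintegral_mul_left_eq_self (fun g => h (g * b U)) (a U), lintegral_mul_right_eq_self h (b U)]

theorem meas_fq (n : ℕ) (x : St) (μ ν : Fin 4) : Measurable fun U : Conf => fq (pc n U) x μ ν :=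
  Ms.meas_nsub.comp ((Ms.cont_hol x μ ν).comp (cont_pc n)).measurable

theorem axial (l : ℕ) {w : ℝ → ℝ≥0∞} (hw : Measurable w) (E : Finset (St × Fin 4))
    (hE : ∀ p ∈ E, p.1 ∈ box l ∧ p.1 0 < l ∧ p.2 ≠ 0) :
    ∫⁻ U, ∏ p ∈ E, w (fq (pc (LL l) U) p.1 0 p.2) ∂PP =
      (∫⁻ g : S3, w ‖g.q - 1‖ ∂haar) ^ E.card := by
  have hb : ∀ x ∈ box l, x 0 < l → x + un 0 ∈ box l := fun x hx h0 => by
    rw [mem_box] at hx ⊢
    intro i
    have := hx i
    by_cases hi : i = 0
    · subst hi
      simp only [un, Pi.add_apply, Pi.single_eq_same]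
      omega
    · simpa only [un, Pi.add_apply, Pi.single_eq_of_ne hi, add_zero] using this
  have hf : ∀ (U : Conf) x ν, x ∈ box l → x 0 < l → fq (pc (LL l) U) x 0 ν =
      ‖(U (x, 0) * U (x + un 0, ν) *
        ((U (rc (LL l) (x + un ν), 0))⁻¹ * (U (x, ν))⁻¹)).q - 1‖ := fun U x ν hx h0 => by
    simp only [fq, hol, pc, rc_id hx, rc_id (hb x hx h0), mul_assoc]
  induction E using Finset.induction_on_max_value (fun p : St × Fin 4 => p.1 0) with
  | empty => simp
  | insert p E hp hmax ih =>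
    obtain ⟨h1, h2, h3⟩ := hE p (mem_insert_self _ _)
    have hE' : ∀ p ∈ E, p.1 ∈ box l ∧ p.1 0 < l ∧ p.2 ≠ 0 := fun r hr =>
      hE r (mem_insert_of_mem hr)
    rw [card_insert_of_notMem hp, pow_succ, ← ih hE']
    simp only [prod_insert hp, hf _ p.1 p.2 h1 h2]
    simp only [mul_comm _ (∏ p ∈ E, _)]
    have n0 : ∀ y : St, ((y, 0) : Lk) ≠ (p.1 + un 0, p.2) := fun y h =>
      h3 (Prod.ext_iff.1 h).2.symm
    have n1 : ∀ (y : St) ν, y 0 ≤ p.1 0 → ((y, ν) : Lk) ≠ (p.1 + un 0, p.2) := fun y ν hy h => by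
      have := congrFun (Prod.ext_iff.1 h).1 0
      simp only [un, Pi.add_apply, Pi.single_eq_same] at this
      omega
    refine step (p.1 + un 0, p.2) (h := fun g => w ‖g.q - 1‖) (a := fun U => U (p.1, 0))
      (F := fun U => ∏ p ∈ E, w (fq (pc (LL l) U) p.1 0 p.2))
      (b := fun U => (U (rc (LL l) (p.1 + un p.2), 0))⁻¹ * (U (p.1, p.2))⁻¹)
      (Finset.measurable_fun_prod _ fun r _ => hw.comp (meas_fq _ _ _ _)) (measurable_pi_apply _)
      ((measurable_pi_apply _).inv.mul (measurable_pi_apply _).inv) (hw.comp Ms.meas_nsub)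
      fun U U' hU => ⟨prod_congr rfl fun r hr => ?_, hU _ (n0 _), ?_⟩
    · obtain ⟨g1, g2, -⟩ := hE' r hr
      have n2 : ((r.1 + un 0, r.2) : Lk) ≠ (p.1 + un 0, p.2) := fun h => by
        have : r = p := Prod.ext (add_right_cancel (Prod.ext_iff.1 h).1) (Prod.ext_iff.1 h).2
        exact hp (this ▸ hr)
      rw [hf U _ _ g1 g2, hf U' _ _ g1 g2, hU _ (n0 _), hU _ n2, hU _ (n0 _),
        hU _ (n1 _ _ (hmax r hr))]
    · simp only [hU _ (n0 _), hU _ (n1 _ _ le_rfl)]

theorem card_face (l : ℕ) : ((box l).filter fun x : St => ¬x 0 < l).card ≤ LL l ^ 3 := by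
  have h0 : (Icc (-(l : ℤ)) l).card = LL l := by
    rw [Int.card_Icc]; unfold LL; omega
  have : ((box l).filter fun x : St => ¬x 0 < l) ⊆
      Fintype.piFinset fun i : Fin 4 => if i = 0 then {(l : ℤ)} else Icc (-(l : ℤ)) l := by
    intro x hx
    obtain ⟨h1, h2⟩ := mem_filter.1 hx
    rw [Fintype.mem_piFinset]
    intro i
    have := mem_box.1 h1 i
    split_ifs with hi
    · subst hi
      rw [mem_singleton]
      omega
    · exact mem_Icc.2 this
  refine (card_le_card this).trans (le_of_eq ?_)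
  rw [Fintype.card_piFinset, Fin.prod_univ_four]
  simp [h0]
  ring

theorem card_tree (l : ℕ) : LL l ^ 4 ≤ ((lbox l).filter (tree l)).card + 1 := by
  have h0 : (Icc (-(l : ℤ)) l).card = 2 * l + 1 := by
    rw [Int.card_Icc]; omega
  have h1 : (Ico (-(l : ℤ)) l).card = 2 * l := by
    rw [Int.card_Ico]; omega
  set s : Fin 4 → Fin 4 → Finset ℤ := fun μ i =>
    if i < μ then Icc (-(l : ℤ)) l else if i = μ then Ico (-(l : ℤ)) l else {0} with hs
  have hsub : ∀ μ, Fintype.piFinset (s μ) ⊆ (box l).filter fun x => tree l (x, μ) := by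
    intro μ x hx
    rw [Fintype.mem_piFinset] at hx
    have b1 : ∀ i, -(l : ℤ) ≤ x i ∧ x i ≤ l := fun i => by
      have := hx i
      simp only [hs] at this
      split_ifs at this
      · exact mem_Icc.1 this
      · rw [mem_Ico] at this; omega
      · rw [mem_singleton] at this; omega
    have b2 : ∀ i, -(l : ℤ) ≤ (x + un μ) i ∧ (x + un μ) i ≤ l := fun i => by
      by_cases hi : i = μ
      · subst hi
        have := hx i
        simp only [hs, lt_irrefl, if_false, if_true, mem_Ico] at this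
        simp only [un, Pi.add_apply, Pi.single_eq_same]
        omega
      · simpa only [un, Pi.add_apply, Pi.single_eq_of_ne hi, add_zero] using b1 i
    refine mem_filter.2 ⟨mem_box.2 b1, (Ms.yo_box b2).trans (Ms.yo_box b1).symm, fun ν hν => ?_⟩
    have hν' : μ < ν := hν
    have := hx ν
    simp only [hs, hν'.not_gt, hν'.ne', if_false, mem_singleton] at this
    simp only [Ms.yo_box b1, this]
    simp [up]
  have e : ((lbox l).filter (tree l)).card =
      ∑ μ, ((box l).filter fun x => tree l (x, μ)).card := by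
    simp only [lbox, card_filter]
    rw [sum_product_right]
  have h2 : ∑ μ, (Fintype.piFinset (s μ)).card ≤
      ∑ μ, ((box l).filter fun x => tree l (x, μ)).card :=
    sum_le_sum fun μ _ => card_le_card (hsub μ)
  rw [e]
  refine le_trans (le_of_eq ?_) (Nat.add_le_add_right h2 1)
  simp only [Fintype.card_piFinset, Fin.sum_univ_four, Fin.prod_univ_four, hs]
  simp [h0, h1, LL]
  ring

end Fr

open Fr

/-- axial gauge upper bound; `C` is a set of sites where nothing is known -/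
theorem axial_upper : ∃ C : ℝ, ∀ (n : ℕ), Odd n → 3 ≤ n → ∀ (w : ℝ → ℝ) (A : ℝ), Measurable w →
    (∀ s, 0 ≤ w s ∧ w s ≤ 1) → 0 < A → A ≤ 1 → ∫ g : S3, w ‖g.q - 1‖ ∂haar ≤ A →
    ∀ Cs : Finset St, ∫ U, ∏ x ∈ box (n / 2) \ Cs, ∏ μ, ∏ ν,
        (if μ < ν then w (fq (pc n U) x μ ν) else 1) ∂PP ≤
      A ^ (3 * (n : ℝ) ^ 4 - C * n ^ 3 - C * Cs.card) := by
  refine ⟨3, fun n hn _ w A hw h01 hA0 hA1 hA Cs => ?_⟩
  obtain ⟨l, rfl⟩ : ∃ l, n = LL l := hn
  rw [half]
  set X := (box l \ Cs).filter fun x : St => x 0 < l with hX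
  set E := X ×ˢ (univ.erase (0 : Fin 4)) with hE
  have key := axial l (w := fun s => ENNReal.ofReal (w s)) hw.ennreal_ofReal E fun p hp => by
    obtain ⟨h1, h2⟩ := mem_product.1 hp
    obtain ⟨h3, h4⟩ := mem_filter.1 h1
    exact ⟨(mem_sdiff.1 h3).1, h4, ne_of_mem_erase h2⟩
  have hint : Integrable (fun g : S3 => w ‖g.q - 1‖) haar :=
    Integrable.of_bound (hw.comp Ms.meas_nsub).aestronglyMeasurable 1 (ae_of_all _ fun g => by
      rw [Real.norm_eq_abs, abs_of_nonneg (h01 _).1]; exact (h01 _).2)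
  rw [← ofReal_integral_eq_lintegral_ofReal hint (ae_of_all _ fun g => (h01 _).1)] at key
  have hpt : ∀ U : Conf, ‖∏ x ∈ box l \ Cs, ∏ μ, ∏ ν,
      (if μ < ν then w (fq (pc (LL l) U) x μ ν) else 1)‖ ≤
      ∏ p ∈ E, w (fq (pc (LL l) U) p.1 0 p.2) := fun U => by
    have a0 : ∀ x μ ν, 0 ≤ (if μ < ν then w (fq (pc (LL l) U) x μ ν) else 1) := fun x μ ν => by
      split_ifs
      · exact (h01 _).1
      · exact zero_le_one
    have a1 : ∀ x μ ν, (if μ < ν then w (fq (pc (LL l) U) x μ ν) else 1) ≤ 1 := fun x μ ν => by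
      split_ifs
      · exact (h01 _).2
      · exact le_rfl
    have b0 : ∀ x μ, 0 ≤ ∏ ν, (if μ < ν then w (fq (pc (LL l) U) x μ ν) else 1) := fun x μ =>
      prod_nonneg fun ν _ => a0 x μ ν
    have b1 : ∀ x μ, ∏ ν, (if μ < ν then w (fq (pc (LL l) U) x μ ν) else 1) ≤ 1 := fun x μ =>
      prod_le_one (fun ν _ => a0 x μ ν) fun ν _ => a1 x μ ν
    rw [Real.norm_eq_abs, abs_of_nonneg (prod_nonneg fun x _ => prod_nonneg fun μ _ => b0 x μ),
      hE, prod_product]
    refine (prod_le_prod_of_subset_of_le_one (s := X) (filter_subset _ _)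
      (fun x _ => prod_nonneg fun μ _ => b0 x μ)
      fun x _ _ => prod_le_one (fun μ _ => b0 x μ) fun μ _ => b1 x μ).trans ?_
    refine prod_le_prod (fun x _ => prod_nonneg fun μ _ => b0 x μ) fun x _ => ?_
    rw [← mul_prod_erase univ _ (mem_univ (0 : Fin 4))]
    refine (mul_le_of_le_one_right (b0 x 0)
      (prod_le_one (fun μ _ => b0 x μ) fun μ _ => b1 x μ)).trans (le_of_eq ?_)
    rw [← mul_prod_erase univ _ (mem_univ (0 : Fin 4)), if_neg (lt_irrefl _), one_mul]
    exact prod_congr rfl fun ν hν => if_pos (Fin.pos_iff_ne_zero.2 (ne_of_mem_erase hν))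
  have hc : 3 * ((LL l : ℕ) : ℝ) ^ 4 - 3 * (LL l : ℕ) ^ 3 - 3 * Cs.card ≤ (E.card : ℝ) := by
    have c1 : E.card = X.card * 3 := by rw [hE, card_product, card_erase_of_mem (mem_univ _)]; simp
    have c2 := card_filter_add_card_filter_not (s := box l \ Cs) (fun x : St => x 0 < l)
    have c3 : ((box l \ Cs).filter fun x : St => ¬x 0 < l).card ≤ LL l ^ 3 :=
      (card_le_card (filter_subset_filter _ sdiff_subset)).trans (card_face l)
    have c4 := le_card_sdiff Cs (box l)
    rw [card_box] at c4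
    have c5 : LL l ^ 4 ≤ X.card + LL l ^ 3 + Cs.card := by rw [hX]; omega
    have c6 : ((LL l : ℕ) : ℝ) ^ 4 ≤ X.card + (LL l : ℕ) ^ 3 + Cs.card := by exact_mod_cast c5
    rw [c1]
    push_cast
    linarith
  refine le_trans ?_ (Real.rpow_le_rpow_of_exponent_ge hA0 hA1 hc)
  refine (Real.le_norm_self _).trans ((norm_integral_le_lintegral_norm _).trans ?_)
  refine ENNReal.toReal_le_of_le_ofReal (by positivity) ?_
  refine (lintegral_mono fun U => ENNReal.ofReal_le_ofReal (hpt U)).trans ?_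
  simp only [ENNReal.ofReal_prod_of_nonneg fun _ _ => (h01 _).1]
  rw [key, Real.rpow_natCast, ENNReal.ofReal_pow hA0.le]
  gcongr

/-- gauge orbits of the fields close to the identity -/
theorem orbit_lower : ∃ c > 0, ∀ (n : ℕ), Odd n → ∀ δ : ℝ, 0 < δ → δ ≤ c →
    (c * δ) ^ (9 * n ^ 4 + 3) ≤ PP.real {U | ∃ u : St → S3, PS n u ∧
      ∀ e, ‖(gauge Inv.inv u (pc n U) e).q - 1‖ ≤ δ} := by
  obtain ⟨cB, hB0, hB⟩ := haar_ball
  refine ⟨min cB 1, lt_min hB0 one_pos, fun n hn δ hδ hδc => ?_⟩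
  obtain ⟨l, rfl⟩ : ∃ l, n = LL l := hn
  set c := min cB 1 with hc
  have hc0 : 0 < c := lt_min hB0 one_pos
  have hc1 : c ≤ 1 := min_le_right _ _
  have hδ1 : δ ≤ 1 := hδc.trans hc1
  set N := (lbox l).filter fun f => ¬tree l f with hN
  have hcard : N.card ≤ 3 * LL l ^ 4 + 1 := by
    have c1 := card_filter_add_card_filter_not (s := lbox l) (tree l)
    have c2 := card_tree l
    have c3 : (lbox l).card = LL l ^ 4 * 4 := by rw [lbox, card_product, card_box]; simp
    rw [hN]
    omega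
  have hcont : ∀ x, Continuous fun U : Conf => Ms.hb l (pc (LL l) U) x := fun x =>
    (Ms.cont_hb l x).comp (cont_pc _)
  have hm := Ms.mp_skew (j := fun f : N => f.1) Subtype.val_injective
    (a := fun U f => Ms.hb l (pc (LL l) U) f.1.1)
    (b := fun U f => (Ms.hb l (pc (LL l) U) (f.1.1 + un f.1.2))⁻¹)
    (continuous_pi fun f => hcont _).measurable (continuous_pi fun f => (hcont _).inv).measurable
    fun U U' h => by
      have : ∀ x, Ms.hb l (pc (LL l) U) x = Ms.hb l (pc (LL l) U') x := by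
        refine Ms.hb_congr fun e he => h _ ?_
        rintro ⟨f, hf⟩
        refine (mem_filter.1 f.2).2 ?_
        simp only at hf
        rw [hf, rc_up, Ms.tree_add_up]
        exact he
      simp only [this, and_self]
  set Bl : Set S3 := {g | ‖g.q - 1‖ ≤ δ} with hBl
  have hS : MeasurableSet Bl := measurableSet_le Ms.meas_nsub measurable_const
  have h1 := hm.measure_preimage (s := Set.univ.pi fun _ => Bl)
    (MeasurableSet.univ_pi fun _ => hS).nullMeasurableSet
  rw [Measure.pi_pi, prod_const, card_univ, Fintype.card_coe] at h1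
  have hsub : (fun (U : Conf) (f : N) => Ms.hb l (pc (LL l) U) f.1.1 * U f.1 *
      (Ms.hb l (pc (LL l) U) (f.1.1 + un f.1.2))⁻¹) ⁻¹' (Set.univ.pi fun _ => Bl) ⊆
      {U | ∃ u : St → S3, PS (LL l) u ∧
        ∀ e, ‖(gauge Inv.inv u (pc (LL l) U) e).q - 1‖ ≤ δ} := by
    intro U hU
    have hP := Ms.hb_per (l := l) (PL_pc l U)
    refine ⟨Ms.hb l (pc (LL l) U), fun x v => hP _ _ fun i => ⟨v i, by simp⟩, fun e => ?_⟩
    rw [← Ms.PL_gauge hP (PL_pc l U) _ _ e.2 (cg_rc l e.1)]
    by_cases ht : tree l (rc (LL l) e.1, e.2)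
    · rw [Ms.hb_tree _ ht, Ms.q_one, sub_self, norm_zero]
      exact hδ.le
    · have := hU ⟨(rc (LL l) e.1, e.2),
        mem_filter.2 ⟨mem_product.2 ⟨rc_box l _, mem_univ _⟩, ht⟩⟩ (Set.mem_univ _)
      simpa only [gauge, pc, rc_id (rc_box l _), hBl, Set.mem_ofPred_eq] using this
  refine (ENNReal.ofReal_le_iff_le_toReal (measure_ne_top _ _)).1 ?_
  refine le_trans ?_ (h1 ▸ measure_mono hsub)
  have h2 : (c * δ) ^ 3 ≤ cB * δ ^ 3 := by
    rw [mul_pow]
    gcongr
    exact (pow_le_of_le_one hc0.le hc1 (by norm_num)).trans (min_le_left _ _)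
  have h3 : (c * δ) ^ 3 ≤ 1 := pow_le_one₀ (by positivity) (mul_le_one₀ hc1 hδ.le hδ1)
  calc ENNReal.ofReal ((c * δ) ^ (9 * LL l ^ 4 + 3))
      = ENNReal.ofReal (((c * δ) ^ 3) ^ (3 * LL l ^ 4 + 1)) := by
        rw [← pow_mul]; congr 2; ring
    _ ≤ ENNReal.ofReal (((c * δ) ^ 3) ^ N.card) :=
        ENNReal.ofReal_le_ofReal (pow_le_pow_of_le_one (by positivity) h3 hcard)
    _ = ENNReal.ofReal ((c * δ) ^ 3) ^ N.card := ENNReal.ofReal_pow (by positivity) _
    _ ≤ haar Bl ^ N.card := by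
        gcongr
        exact (ENNReal.ofReal_le_ofReal h2).trans (hB δ hδ.le hδ1)

end Pool.Agent.Lib.MP_7f377f_mp.RG.Q4
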