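import Pool.Agent.Lib.MP_7f377f_mp.Q4HoD
import Pool.Agent.Lib.MP_7f377f_mp.Q4FldB
import Pool.Agent.Lib.MP_7f377f_mp.Q4TOk
import Pool.Agent.Lib.MP_7f377f_mp.Q4BudC

/-! Geometry of the support of a family of objects, and the fields at tame sites. -/

noncomputable section

namespace Pool.Agent.Lib.MP_7f377f_mp.RG.Q4

open Finset
open scoped Classical

attribute [local irreducible] box tb rc

theorem Far.add' {n a b : ℕ} {Y : Finset St} {y u : St} (h : Far n (a + b) Y y) (hu : u ∈ box b) :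
    Far n a Y (u + y) := add_comm y u ▸ h.add hu

theorem Far.not_mem {n a : ℕ} {Y : Finset St} {y : St} (h : Far n a Y y) : rc n y ∉ Y :=
  fun hy => h _ hy (nearT_rc_left.2 (nearT.refl _ _ _))

namespace Hj

theorem sh_rc {α : Type} {n : ℕ} {U : Lk → α} (h : Per n U) (y : St) : sh (rc n y) U = sh y U := by
  obtain ⟨w, hw⟩ := rc_exists n y
  rw [hw, ← sh_sh, h.sh_smul]

theorem near_add {n a b : ℕ} {Y : Finset St} {y u : St} (h : ¬ Far n a Y y) (hu : u ∈ box b) :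
    ¬ Far n (a + b) Y (u + y) := fun h' => h (by simpa using h'.add (neg_mem_box hu))

theorem rc_tb {n a : ℕ} {Y : Finset St} {y : St} (h : ¬ Far n a Y y) : rc n y ∈ tb n a Y :=
  mem_tb'.2 ⟨rc_rc _ _, fun h' => h (far_rc.1 h')⟩

theorem near_mono {n a b : ℕ} {Y Y' : Finset St} {y : St} (h : ¬ Far n a Y y) (hab : a ≤ b)
    (hY : Y ⊆ Y') : ¬ Far n b Y' y := fun h' => h ((h'.mono hab).sub hY)

theorem mem_olds {O : Finset Ob} {o : LP St} : o ∈ olds O ↔ .inl (.inl o) ∈ O := by simp [olds]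

theorem mem_Dbl {O : Finset Ob} {y : St} : y ∈ Dbl O ↔ .inl (.inr (.inl y)) ∈ O := by simp [Dbl]

theorem mem_Wk {O : Finset Ob} {y : St} : y ∈ Wk O ↔ .inl (.inr (.inr y)) ∈ O := by simp [Wk]

theorem chi_ne {p : Pa} {U : Conf} {x : St} : chi p U x ≠ 0 ↔ Fq (p.R + 1) p.ε (sh x U) := by
  unfold chi
  split_ifs with h <;> simp [h]

theorem eG_nonneg {l : ℕ} {m : BF} {β : ℝ} (hm : ∀ a, 0 ≤ m a a) (β0 : 0 ≤ β) (c : St → Prop)
    (U W : Conf) (ω : St → Om) : 0 ≤ eG l m β c U W ω :=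
  add_nonneg (mul_nonneg β0 (sum_nonneg fun _ _ => cx_Bx_nonneg hm _ _)) (by positivity)

theorem ib_ne {S : Sd} {ψ : Lx} {co : Finset St} {U : Conf} {y x : St} (h : S.Ib ψ co U y ≠ 0)
    (hx : x ∈ box S.l) (hc : x + up S.l y ∉ co) :
    Fq (S.p.R + 1) S.p.ε (sh x (sh (up S.l y) U)) := by
  rw [sh_sh]
  exact chi_ne.1 (left_ne_zero_of_mul (prod_ne_zero_iff.1 h x (mem_filter.2 ⟨hx, hc⟩)))

theorem gn_ne {S : Sd} {W : Conf} {v : VB} (h : S.Gn W v ≠ 0) :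
    wt S.l (S.Uv W v) (vo v 0) ≠ 0 ∧ (Fr (S.H W) 0 → ∀ t ∈ lbox S.l, ¬ tree S.l t →
      th (vs S.l v t) (S.Af W (vz S.l v) t) ≠ 0) := by
  have h1 := right_ne_zero_of_mul (Complex.ofReal_ne_zero.1 (left_ne_zero_of_mul h))
  refine ⟨left_ne_zero_of_mul (left_ne_zero_of_mul h1), fun hf t ht h2 => ?_⟩
  have h3 := right_ne_zero_of_mul h1
  rw [Sd.Jk, if_pos hf] at h3
  exact right_ne_zero_of_mul (left_ne_zero_of_mul (left_ne_zero_of_mul
    (prod_ne_zero_iff.1 h3 t (mem_filter.2 ⟨ht, h2⟩))))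

end Hj

open Hj

namespace Sd

variable {S : Sd} {W : Conf} {v : VB} {O : Finset Ob} {ψ : Lx} {y u : St} {a : ℕ} {P : ℝ}

theorem olds_lps (h : O ⊆ S.obs) {o : LP St} (ho : o ∈ olds O) : o ∈ lps (box (S.nf / 2)) := by
  simpa [obs] using h (mem_olds.1 ho)

theorem dbl_dom (h : O ⊆ S.obs) (hy : y ∈ Dbl O) : y ∈ box (S.n / 2) := by
  simpa [obs, Λ'] using h (mem_Dbl.1 hy)

theorem wk_dom (h : O ⊆ S.obs) (hy : y ∈ Wk O) : y ∈ box (S.n / 2) := by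
  simpa [obs, Λ'] using h (mem_Wk.1 hy)

theorem cc_sub (h : O ⊆ S.obs) {C : Finset St} (hC : C ∈ CC O) :
    C.Nonempty ∧ ∃ o ∈ olds O, C ⊆ o.1 ∧ o.1 ⊆ box (S.nf / 2) := by
  obtain ⟨o, ho, hC⟩ := mem_biUnion.1 hC
  obtain ⟨h1, -, h2⟩ := mem_lps.1 (olds_lps h ho)
  obtain ⟨h3, h4, -⟩ := mem_fams.1 h2
  exact ⟨nonempty_iff_ne_empty.2 fun e => h4 (e ▸ hC), o, ho, h3 C hC, h1⟩

theorem hd_sp (h : O ⊆ S.obs) : tb S.n (13 * S.D0) (S.HD O) ⊆ us S.sp O := fun y hy => by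
  obtain ⟨h1, x, hx, h2⟩ := mem_tb.1 hy
  suffices ∃ o ∈ O, x ∈ S.bs o by
    obtain ⟨o, ho, hx⟩ := this
    exact mem_biUnion.2 ⟨o, ho, mem_tb.2 ⟨h1, x, hx, h2⟩⟩
  rcases mem_union.1 hx with hx | hx
  · rcases mem_union.1 hx with hx | hx
    · obtain ⟨C, hC, hx⟩ := mem_biUnion.1 hx
      obtain ⟨-, o, ho, h3, -⟩ := cc_sub h hC
      exact ⟨_, mem_olds.1 ho, image_subset_image h3 hx⟩
    · exact ⟨_, mem_Wk.1 hx, mem_singleton_self _⟩
  · exact ⟨_, mem_Dbl.1 hx, mem_singleton_self _⟩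

theorem hd_din (h : O ⊆ S.obs) (ha : a + 4 * S.D0 + 2 ≤ 13 * S.D0) (hy : y ∈ tb S.n a (S.HD O)) :
    y ∈ S.Din (us S.sp O) := mem_filter.2 ⟨hd_sp h (tb_mono Subset.rfl (by omega) hy),
  (tb_mono (singleton_subset_iff.2 hy) le_rfl).trans (by
    rw [tb_tb]; exact (tb_mono Subset.rfl (by rw [p'_R]; omega)).trans (hd_sp h))⟩

theorem Sup.good (h : S.Sup W O) (hy : y ∈ S.Din (us S.sp O)) (hw : y ∉ Wk O) :
    Fq (S.p'.R + 1) S.p'.ε (sh y W) := by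
  by_cases hl : y ∈ (S.lab W O).biUnion id
  · exact chi_ne.1 (prod_ne_zero_iff.1 (right_ne_zero_of_mul h.1) y (mem_sdiff.2 ⟨hl, hw⟩))
  · exact h.2 y (mem_sdiff.2 ⟨hy, hl⟩)

theorem Sup.bad (h : S.Sup W O) (hy : y ∈ Wk O) : ¬ Fq (S.p'.R + 1) S.p'.ε (sh y W) := fun h' =>
  prod_ne_zero_iff.1 (left_ne_zero_of_mul h.1) y hy (by simp [chi, h'])

theorem Uy_add : S.Uy W v (u + y) = sh (up S.l u) (S.Uy W v y) := by
  rw [Uy, Uy, ← Uv_sh, sh_sh, shv_shv]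

theorem vy_add : S.vy W v (u + y) = sh (up S.l u) (S.vy W v y) := by
  rw [vy, vy, ← vH_sh, sh_sh, ← vz_shv, shv_shv]

theorem Uy_eq : S.Uy W v y = sh (up S.l y) (S.Uv W v) := Uv_sh y

theorem vy_eq : S.vy W v y = sh (up S.l y) (S.vH W (vz S.l v)) := by rw [vy, vz_shv, vH_sh]

theorem cy_not' (hy : Far S.n 0 ((CC O).biUnion (dn S.l S.n)) y) {x : St} (hx : x ∈ box S.l) :
    ¬ S.cy O y x := fun h => by
  obtain ⟨C, hC, h⟩ := mem_biUnion.1 h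
  refine hy.not_mem (mem_biUnion.2 ⟨C, hC, mem_image.2 ⟨_, h, ?_⟩⟩)
  rw [Op.yo_add_box hx, rc_rc]

theorem cy_not (hy : Far S.n 0 (Hh S.l S.n (CC O) (Wk O)) y) {x : St} (hx : x ∈ box S.l) :
    ¬ S.cy O y x := cy_not' (hy.sub subset_union_left) hx

namespace Nv

variable (H : S.Nv W v O ψ)
include H

theorem v_rc (y : St) : v (rc S.n y) = v y := congrFun H.pv y

theorem shv_rc (y : St) : shv (rc S.n y) v = shv y v := funext fun x => by
  rw [shv, shv, ← H.v_rc, add_comm, rc_add_rc, H.v_rc, add_comm]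

theorem ps : PS S.n v := H.pv ▸ ps_pcs _ _

theorem pf {α : Type} (F : Conf → VB → St → α) :
    Pf S.n fun y => F (sh y W) (shv y v) (rc S.n y) := fun y => by
  simp only [sh_rc H.per, H.shv_rc, rc_rc]

theorem good (hy : ¬ Far S.n (8 * S.D0) (S.HD O) y) (hw : rc S.n y ∉ Wk O) (h2 : 2 ≤ S.D0) :
    Fq (S.p'.R + 1) S.p'.ε (sh y W) :=
  sh_rc H.per y ▸ H.sup.good (hd_din H.sub (by omega) (rc_tb hy)) hw

theorem gd1 (hy : ¬ Far S.n (13 * S.D0) (S.HD O) y) (hd : rc S.n y ∉ Dbl O) :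
    gd S.l S.ζ (v y) = 1 := by
  have := H.df _ (hd_sp H.sub (rc_tb hy))
  rw [Sd.df, if_neg hd, H.v_rc] at this
  exact (Cov.gd_cases _ _ _).resolve_left fun h => this (by simp [h])

theorem gd0 (hn : Odd S.n) (hy : y ∈ Dbl O) : gd S.l S.ζ (v y) = 0 := by
  have := H.df y (mem_biUnion.2 ⟨_, mem_Dbl.1 hy, mem_tb_single.2
    ⟨rc_eq hn (dbl_dom H.sub hy), nearT.refl _ _ _⟩⟩)
  rw [Sd.df, if_pos hy] at this
  exact (Cov.gd_cases _ _ _).resolve_right fun h => this (by simp [h])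

theorem gn' (hy : ¬ Far S.n (5 * S.D0) (S.HD O) y) : S.Gn (sh y W) (shv y v) ≠ 0 := by
  have := H.gn _ (rc_tb hy)
  rwa [sh_rc H.per, H.shv_rc] at this

theorem ib' (hy : ¬ Far S.n (5 * S.D0) (S.HD O) y) {x : St} (hx : x ∈ box S.l)
    (hc : ¬ S.cy O y x) : Fq (S.p.R + 1) S.p.ε (sh x (S.Uy W v y)) := by
  have := ib_ne (H.ib _ (rc_tb hy)) hx hc
  rwa [← Uv_sh, sh_rc H.per, H.shv_rc] at this

theorem noi_le (hy : ¬ Far S.n (2 * S.D0) (S.HD O) y) (hn : rc S.n y ∉ S.Nz W v O) (μ : Fin 4) :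
    S.noE W v y μ ≤ S.εn := not_lt.1 fun h => hn (mem_filter.2 ⟨rc_tb hy, μ, by
  rwa [noE, Uy, sh_rc H.per, H.shv_rc]⟩)

end Nv

/-- standing assumptions -/
structure Hs (S : Sd) : Prop where
  fo : S.Fo S.P
  tok : S.TOk
  nu : S.Nu 10
  tT : ∀ U, Fq (S.p.R + 1) S.p.ε U → S.L ^ 4 * (S.β * ‖S.T (Bx 0 (cC U))‖) ≤ 1 / 10

/-- the size of the chart coordinates at tame sites -/
def aa (S : Sd) : ℝ := (S.L ^ (S.c + 5)) ^ 5 * S.εn

/-- the variables are good near the origin -/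
structure Sg (S : Sd) (W : Conf) (v : VB) : Prop where
  fq : ∀ u ∈ box S.D0, Fq (S.p'.R + 1) S.p'.ε (sh u W)
  om : ∀ u ∈ box 9, (vo v u).1 = 0
  vs : ∀ f ∈ lbox (fb S.l 9), ¬ tree S.l f → vs S.l v f = 0 ∧ ‖S.Af W (vz S.l v) f‖ ≤ S.aa

theorem act_of (h : ∀ u ∈ box S.D0, Fq (S.p'.R + 1) S.p'.ε (sh u W)) (ha : a + 3 ≤ S.D0) {f : Lk}
    (hf : f ∈ lbox (fb S.l a)) (ht : ¬ tree S.l f) : Act S.l (S.H W) f :=
  ⟨ht, fun _ hu => not_mem_H.2 (h _ (box_mono ha (add_mem_box (Op.mem_fb.1 (mem_lbox.1 hf)) hu)))⟩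

namespace Hs

variable (h : S.Hs)
include h

theorem ok : S.Ok := h.nu.ok

theorem LQ {C : ℝ} {k : ℕ} (hC : C ≤ 10 ^ 30) (hk : k ≤ 500 * (S.c + 1)) : C * S.L ^ k ≤ S.D0 := by
  have h1 := h.nu.K0_ge
  have h2 := h.nu.Kt_ge
  refine (h.nu.cmul hC (pow_pos (L0 _) _).le).trans ?_
  rw [← pow_succ']
  exact h.nu.LD (by omega)

theorem aa_le : 0 < S.aa ∧ S.aa ≤ S.D0 * (S.Q ^ 3 * S.g) ∧ S.Q ^ 3 * S.g ≤ S.aa := by
  have e0 := mul_pos (pow_pos S.Q0 3) h.ok.g0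
  refine ⟨mul_pos (pow_pos (pow_pos (L0 _) _) _) e0, mul_le_mul_of_nonneg_right ?_ e0.le,
    le_mul_of_one_le_left e0.le (one_le_pow₀ (one_le_pow₀ (L1 _)))⟩
  rw [← pow_mul]
  simpa using h.LQ (C := 1) (by norm_num) (k := (S.c + 5) * 5) (by omega)

theorem small {i j : ℕ} {x : ℝ} (hx : x ≤ S.Q ^ i) (hij : i + j ≤ 500) :
    x * (S.Q ^ j * S.g) ≤ 1 :=
  (mul_le_mul_of_nonneg_right hx (mul_pos (pow_pos S.Q0 _) h.ok.g0).le).trans (h.ok.Qg_le (by omega))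

theorem ε_le : S.p.ε ≤ S.εn ∧ S.p'.ε ≤ S.εn := by
  have := S.Q0
  have g0 := h.ok.g0
  have h1 := h.nu.r_le_Q
  have h2 := h.nu.cQ' (C := 2) (by norm_num)
  refine ⟨h.nu.ε_le.trans (le_trans (b := S.Q * S.Q ^ 2 * S.g) (by gcongr)
    (le_of_eq (by unfold εn; ring))), ?_⟩
  rw [p'_ε, εn]
  nlinarith [mul_le_mul_of_nonneg_left h.ok.g'g (sq_nonneg S.Q),
    mul_le_mul_of_nonneg_right h2 (show 0 ≤ S.Q ^ 2 * S.g by positivity)]

variable (H : S.Nv W v O ψ)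
include H

theorem fq_far (hy : ¬ Far S.n (5 * S.D0) (S.HD O) y)
    (hf : Far S.n S.D0 (Hh S.l S.n (CC O) (Wk O)) y) (hu : u ∈ box S.D0) :
    Fq (S.p'.R + 1) S.p'.ε (sh u (sh y W)) := by
  have := h.nu.lens
  rw [sh_sh]
  exact H.good (near_mono (near_add hy hu) (by omega) Subset.rfl)
    (fun hw => (Far.add' (a := 0) (by rwa [zero_add]) hu).not_mem (mem_union_right _ hw)) (by omega)

/-- tame sites -/
theorem sg (hy : ¬ Far S.n (5 * S.D0) (S.HD O) y)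
    (hf : Far S.n S.D0 (Hh S.l S.n (CC O) (Wk O) ∪ S.Nz W v O) y) : S.Sg (sh y W) (shv y v) := by
  have ln := h.nu.lens
  have q := fun u hu => h.fq_far H (u := u) hy (hf.sub subset_union_left) hu
  have act := fun f hf => act_of (a := 9) (f := f) q (by omega) hf
  obtain ⟨a0, a1, a2⟩ := h.aa_le
  by_cases hc : Far S.n S.D0 (S.HD O) y
  · have c : S.Calm (sh y W) (shv y v) 0 := fun u hu => by
      rw [add_zero]
      exact ⟨q u hu, H.gd1 (near_mono (near_add hy hu) (by omega) Subset.rfl) fun hd =>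
        (Far.add' (a := 0) (by rwa [zero_add]) hu).not_mem (mem_union_right _ hd)⟩
    refine ⟨q, fun u hu => c.vo (box_mono (by omega) hu), fun f hf ht =>
      ⟨(c.vz (lbox_mono (Op.fb_mono _ (by omega)) hf) ht).2,
        (c.Af_le h.fo (by omega) f hf).trans (le_trans ?_ a2)⟩⟩
    have := h.ok.g0
    have := S.Q1
    have := h.nu.D_le_Q
    gcongr
    nlinarith [mul_le_mul_of_nonneg_right S.Q1 (sq_nonneg S.Q)]
  have n1 : ∀ u ∈ box (9 + S.r), ¬ Far S.n (2 * S.D0) (S.HD O) (u + y) := fun u hu =>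
    near_mono (near_add hc hu) (by omega) Subset.rfl
  have n2 : ∀ u ∈ box (9 + S.r), ¬ Far S.n (5 * S.D0) (S.HD O) (u + y) := fun u hu =>
    near_mono (n1 u hu) (by omega) Subset.rfl
  have f1 : ∀ u ∈ box (9 + S.r), Far S.n 0 (Hh S.l S.n (CC O) (Wk O) ∪ S.Nz W v O) (u + y) :=
    fun u hu => Far.add' (hf.mono (by omega)) hu
  obtain ⟨k1, -, k2⟩ := geo_in (h.nu.hy h.tok (n := S.c + 5) le_rfl) (R := 9) (d := S.εn)
    (U := S.Uy W v y) (W := sh y W) (ω := vo (shv y v)) (v := S.Af (sh y W) (vz S.l (shv y v)))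
    (σ := Q4.vs S.l (shv y v)) (fun _ => Uv_tree) (fun x hx μ ν => by
      have hu := Op.mem_fb.1 hx
      have := H.ib' (n2 _ hu) (sub_up_yo_mem _ x) (cy_not ((f1 _ hu).sub subset_union_left)
        (sub_up_yo_mem _ x)) 0 (zero_mem_box _) μ ν
      rw [Uy_add, sh_sh, sub_add_cancel] at this
      refine le_trans (le_of_eq ?_) (this.trans h.ε_le.1)
      simp only [Q4.fq, hol_sh, zero_add])
    ((a1.trans (mul_le_mul_of_nonneg_right h.nu.D_le_Q (by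
      have := h.ok.g0; have := S.Q0; positivity))).trans (h.small (i := 1) (by simp) (by omega)))
    (fun u hu => by
      have := (gn_ne (H.gn' (n2 u hu))).1
      rwa [← Uy, Uy_add, vo, shv, zero_add] at this)
    fun b hb => by
      have := H.noi_le (n1 _ (mem_lbox.1 hb)) (fun hn => (f1 _ (mem_lbox.1 hb)).not_mem
        (mem_union_right _ hn)) b.2
      rw [noE, noG, Uy_add, ← shv_shv, ← sh_sh] at this
      refine le_of_eq_of_le ?_ this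
      rw [show vo (shv b.1 (shv y v)) = fun x => vo (shv y v) (x + b.1) from rfl, Mx.blkN_sh]
      simp only [sh_apply, zero_add]
  refine ⟨q, fun u hu => k1 u (box_mono (by omega) hu), fun f hf ht =>
    k2 f hf (Uv_act (act f hf ht)) ?_⟩
  have hu := Op.mem_fb.1 (mem_lbox.1 hf)
  have := (gn_ne (H.gn' (n2 _ (box_mono (by omega) hu)))).2 (by
    rw [← sh_sh, H_sh, fr_shS, zero_add]; exact (act f hf ht).2) (f.1 - up S.l (yo S.l f.1), f.2)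
    (mem_lbox.2 (sub_up_yo_mem _ _)) fun h' => ht (by
      simpa using (tree_add_up _ _ (yo S.l f.1) _).2 h')
  rw [← shv_shv, ← sh_sh, vz_shv (yo S.l f.1), Af_sh, show Q4.vs S.l (shv (yo S.l f.1) (shv y v)) =
    sh (up S.l (yo S.l f.1)) (Q4.vs S.l (shv y v)) from Cov.vs_sh _ _ _] at this
  simpa only [sh_apply, sub_add_cancel] using this

end Hs

end Sd

end Pool.Agent.Lib.MP_7f377f_mp.RG.Q4
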