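import Pool.Agent.Lib.MP_7f377f_mp.Q4HoD
import Pool.Agent.Lib.MP_7f377f_mp.Q4TrE
import Pool.Agent.Lib.MP_7f377f_mp.RGLinC

/-! The local Taylor inequality and the size of the flows between neighbouring blocks. -/

noncomputable section

namespace Pool.Agent.Lib.MP_7f377f_mp.RG.Q4

open Finset

attribute [local irreducible] box

namespace Ty

variable {l r c : ℕ} {τ : ℝ} {m : BF} {s : V →ₗ[ℝ] V} {a B : Fld}

theorem cx_mb (l : ℕ) (m : BF) (s : V →ₗ[ℝ] V) (A : Fld) : cx (mb l 3 m s) A A =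
    2⁻¹ * (cx (mn l m s) A A +
      ((box 3).card : ℂ)⁻¹ * ∑ z ∈ box 3, cx (mn l m s) (sh z A) (sh z A)) := by
  simp only [mb, avB, cx_smul, cx_add, cx_sum, cx_compl, cxL_shL]
  push_cast
  rfl

theorem mb_agr (h : Lin l r c τ m s) {A A' : Fld} (e : Agr (r + 3) A A') :
    cx (mb l 3 m s) A A = cx (mb l 3 m s) A' A' := by
  rw [cx_mb, cx_mb, cx_agr h.mn_rng (e.mono (by omega)) (e.mono (by omega)),
    sum_congr rfl fun z hz => cx_agr h.mn_rng (e.sh hz) (e.sh hz)]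

theorem mn_nonneg (h : Lin l r c τ m s) (hB : RealF B) : 0 ≤ (cx (mn l m s) B B).re := by
  rw [cx_real _ hB hB, Complex.ofReal_re]
  exact sum_nonneg fun _ _ => La.enB_psd h.psd l _

theorem mn_le (h : Lin l r c τ m s) (hB : RealF B) :
    (cx (mn l m s) B B).re ≤ 2 * (cx (mb l 3 m s) B B).re := by
  have h1 : 0 ≤ (((box 3).card : ℂ)⁻¹ * ∑ z ∈ box 3, cx (mn l m s) (sh z B) (sh z B)).re := by
    rw [← Complex.ofReal_natCast, ← Complex.ofReal_inv, Complex.re_ofReal_mul, Complex.re_sum]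
    exact mul_nonneg (by positivity) (sum_nonneg fun z _ => mn_nonneg h fun _ => hB _)
  rw [cx_mb, show (2⁻¹ : ℂ) = ((2⁻¹ : ℝ) : ℂ) by push_cast; rfl, Complex.re_ofReal_mul,
    Complex.add_re]
  linarith

theorem xx_le (h : Lin l r c τ m s) (ha : RealF a) (hB : RealF B) :
    |(2 * cx (xx l m s) a B).re| ≤ (cx (hh l m) a a).re + (cx (mn l m s) B B).re := by
  rw [cx_real _ ha hB, cx_real _ ha ha, cx_real _ hB hB, ← Complex.ofReal_ofNat,
    ← Complex.ofReal_mul]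
  simp only [Complex.ofReal_re]
  rw [mul_sum, ← sum_add_distrib]
  refine (abs_sum_le_sum_abs _ _).trans (sum_le_sum fun k _ => ?_)
  rw [La.xx_apply, La.hh_apply, La.mn_apply]
  generalize (reF a k, (0 : V)) = p
  generalize (mu l s (reF B k), reF B k) = q
  have h1 := La.enB_psd h.psd l (p + q)
  have h2 := La.enB_psd h.psd l (p - q)
  simp only [map_add, map_sub, LinearMap.add_apply, LinearMap.sub_apply,
    La.enB_symm h.symm l q p] at h1 h2
  exact abs_le.2 ⟨by linarith, by linarith⟩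

open Classical in
/-- restriction to the block `w` -/
def rs (l : ℕ) (w : St) (v : Fld) : Fld := fun f => if yo l f.1 = w then v f else 0

theorem rs_eq (l : ℕ) (w : St) (v : Fld) : rs l w v =
    ∑ e ∈ lbox l, Pi.single (e.1 + up l w, e.2) (v (e.1 + up l w, e.2)) := by
  funext f
  rw [Finset.sum_apply, rs]
  split_ifs with hf
  · rw [sum_eq_single (f.1 - up l w, f.2) (fun e _ he => Pi.single_eq_of_ne (fun h => he (by
      simp [h])) _) fun h => (h (mem_lbox.2 (hf ▸ sub_up_yo_mem _ _))).elim]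
    simp
  · exact (sum_eq_zero fun e he => Pi.single_eq_of_ne (fun h => hf (by
      rw [h]; exact Op.yo_add_box (mem_lbox.1 he) w)) _).symm

theorem sm_rs {R : ℕ} {α : ℝ} {v : Fld} (h : Sm R α v) (l : ℕ) (w : St) :
    Sm R α (rs l w v) := fun e he => by
  rw [rs]
  split_ifs
  · exact h e he
  · simpa using h.nonneg

theorem real_rs {v : Fld} (h : RealF v) (w : St) : RealF (rs l w v) := fun e k => by
  rw [rs]
  split_ifs
  · exact h e k
  · rfl

theorem nq_nonneg {b : C3} (h : ∀ k, (b k).im = 0) : 0 ≤ Op.nq b :=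
  (sq_nonneg _).trans (Op.le_nq h)

theorem nq_rs {v : Fld} (h : RealF v) (w : St) (R : ℕ) :
    ∑ e ∈ lbox R, Op.nq (rs l w v e) ≤ ∑ t ∈ lbox l, Op.nq (v (t.1 + up l w, t.2)) := by
  classical
  rw [← sum_image (g := fun t : Lk => (t.1 + up l w, t.2)) (f := fun e => Op.nq (v e))
    fun x _ y _ h => by simpa [Prod.ext_iff] using h]
  rw [← sum_filter_add_sum_filter_not _ fun e : Lk => yo l e.1 = w, sum_eq_zero
    (s := filter (fun e : Lk => ¬ yo l e.1 = w) _) fun e he => by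
      simp [rs, (mem_filter.1 he).2, Op.nq], add_zero,
    sum_congr rfl fun e he => by rw [rs, if_pos (mem_filter.1 he).2]]
  exact sum_le_sum_of_subset_of_nonneg (fun e he => mem_image.2 ⟨(e.1 - up l w, e.2),
    mem_lbox.2 ((mem_filter.1 he).2 ▸ sub_up_yo_mem _ _), by simp⟩) fun e _ _ => nq_nonneg (h e)

variable {t : Nt} {P δ d α η : ℝ} {A v : Fld} {W : Cf} {w : St}

theorem xi_rs (j : t.Lj W 0 A) : t.xi W A v 0 w = j1 (t.FF W 0) A (rs t.O.l w v) := by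
  rw [j.xi_eq, rs_eq]
  obtain ⟨-, L, -, hL, -⟩ := j
  simp only [hL, map_sum]

/-- the common size of the errors -/
def om (t : Nt) (c : ℕ) (τ P d : ℝ) : ℝ :=
  (LL t.O.l : ℝ) ^ (9 * c + 33) * (P * (P * (d ^ 3 + τ * d ^ 2)))

variable (h : t.Ok r c τ m s P δ) (z : t.Sz c τ P δ d)
include h z

/-- bookkeeping of the errors -/
theorem facts : 0 < d ∧ 1 ≤ P ∧ 1 ≤ (LL t.O.l : ℝ) ∧ d / LL t.O.l ≤ d ∧ t.al c τ P d ≤ d ∧
    ∀ {C : ℝ} {i : ℕ}, C ≤ 10 ^ 5 →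
      (i < 9 * c + 33 → C * ((LL t.O.l : ℝ) ^ i * (P * d ^ 3)) ≤ om t c τ P d / 10 ∧
        C * ((LL t.O.l : ℝ) ^ i * (P * (d ^ 2 + τ * d) * d)) ≤ om t c τ P d / 10) ∧
      (i < c + 9 → C * ((LL t.O.l : ℝ) ^ i * (P * (t.al c τ P d * d))) ≤ om t c τ P d / 10) := by
  have d0 := z.d0
  have P1 := h.P1
  have τ0 := h.τ0
  have L1 : 1 ≤ (LL t.O.l : ℝ) := by linarith [h.op.LL_ge]
  have dL : d / LL t.O.l ≤ d := div_le_self d0.le L1
  obtain ⟨a0, a1⟩ := h.al_le z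
  have x0 : 0 ≤ P * (d ^ 3 + τ * d ^ 2) := by positivity
  have key : ∀ {C : ℝ} {i : ℕ} {x : ℝ}, C ≤ 10 ^ 5 → i < 9 * c + 33 → 0 ≤ x →
      x ≤ P * (P * (d ^ 3 + τ * d ^ 2)) → C * ((LL t.O.l : ℝ) ^ i * x) ≤ om t c τ P d / 10 := by
    intro C i x hC hi x0 hx
    have := h.up (C := 10 * C) (by linarith) hi x0
    have h2 := mul_le_mul_of_nonneg_left hx (pow_pos (LL_pos' t.O.l) (9 * c + 33)).le
    rw [om]
    linarith
  have x1 : P * (d ^ 3 + τ * d ^ 2) ≤ P * (P * (d ^ 3 + τ * d ^ 2)) := le_mul_of_one_le_left x0 P1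
  refine ⟨d0, P1, L1, dL, by linarith, fun {C i} hC => ⟨fun hi => ⟨key hC hi (by positivity)
    (le_trans (by gcongr; nlinarith [sq_nonneg d]) x1), key hC hi (by positivity)
    (le_trans (le_of_eq (by ring)) x1)⟩, fun hi => ?_⟩⟩
  refine le_trans (le_of_eq ?_) (key (i := i + (8 * c + 24)) hC (by omega) (by positivity) le_rfl)
  rw [Nt.al]
  ring

variable (hB : ∀ e, ‖B e‖ ≤ d)
include hB

theorem a0_ap : ‖t.a0 (exF B) - cx (mn t.O.l m s) B B‖ ≤ om t c τ P d / 5 := by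
  obtain ⟨d0, P1, L1, dL, ad, k⟩ := facts h z
  have a0 := (h.al_le z).1
  have h1 := Nt.a0_sub h z hB
  have h2 := h.ge.exp B 0 d (by linarith [z.d1]) hB fun _ _ => by
    rw [Pi.zero_apply, norm_zero]; positivity
  simp only [Qf, cx_zero_left, mul_zero, add_zero] at h2
  have h3 := norm_add_le_of_le h1 h2
  rw [sub_add_sub_cancel] at h3
  have h4 := ((k (C := 1) (i := 0) (by norm_num)).1 (by omega)).1
  have h5 := (k (C := 1) (i := c + 7) (by norm_num)).2 (by omega)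
  have h6 : (LL t.O.l : ℝ) ^ (c + 7) * (P * t.al c τ P d ^ 2) ≤
      (LL t.O.l : ℝ) ^ (c + 7) * (P * (t.al c τ P d * d)) := by rw [sq]; gcongr
  rw [pow_zero] at h4
  linarith

theorem tn_ap : ‖t.tn (exF B) - cx (mb t.O.l 3 m s) B B‖ ≤ om t c τ P d / 5 := by
  have h1 := a0_ap h z hB
  have h2 : ‖∑ y ∈ box 3, (t.a0 (sh y (exF B)) - cx (mn t.O.l m s) (sh y B) (sh y B))‖ ≤
      (box 3).card * (om t c τ P d / 5) := (norm_sum_le_of_le _ fun y _ =>
    a0_ap h z (B := sh y B) fun _ => hB _).trans_eq (by rw [sum_const, nsmul_eq_mul])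
  have c0 : (0 : ℝ) < (box 3).card := by simp [card_box]
  rw [Nt.tn, cx_mb, ← mul_sub, add_sub_add_comm, ← mul_sub, ← sum_sub_distrib, norm_mul]
  refine (mul_le_mul_of_nonneg_left (norm_add_le_of_le h1 (r₂ := om t c τ P d / 5) ?_)
    (norm_nonneg _)).trans_eq (by simp; ring)
  rw [norm_mul, norm_inv, Complex.norm_natCast, inv_mul_le_iff₀ c0]
  exact h2

theorem tay_flat (hv : Sm (3 * t.O.l + 1) α v) (α0 : 0 < α) (α1 : α ≤ d / LL t.O.l)
    (ht : ∀ f, tree t.O.l f → v f = 0) :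
    ‖t.tn (exF B) - cx (mb t.O.l 3 m s) B B + t.Yq (exF B) v 0 + t.rem3 (exF B) v 0 +
      t.gv (exF B) (t.As (exF B)) v 0‖ ≤ om t c τ P d := by
  obtain ⟨d0, P1, L1, dL, ad, k⟩ := facts h z
  have τ0 := h.τ0
  have αd := α1.trans dL
  have hv' : Sm (3 * t.O.l + 1) α (sh (up t.O.l 0) v) := by rwa [up_zero, sh_zero]
  have h2 := Nt.Yq_bd h z hB hv' α0
  have h3 := Nt.rem3_bd h z hB hv' α0 (by rw [mul_div_assoc]; linarith)
  have h4 := Nt.gv_As h z hB (hv'.mono (by omega) le_rfl) ht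
  obtain ⟨t0, t1⟩ := h.th_le z
  have h5 : t.th c P d ^ t.p ≤ 1 := pow_le_one₀ t0.le (by linarith)
  have k2 := ((k (C := 1) (i := c + 7) (by norm_num)).1 (by omega)).1
  have k3 := ((k (C := 96) (i := 3) (by norm_num)).1 (by omega)).1
  have k4 := ((k (C := 12) (i := 6) (by norm_num)).1 (by omega)).2
  have e2 : (LL t.O.l : ℝ) ^ (c + 7) * (P * d * α * α) ≤
      1 * ((LL t.O.l : ℝ) ^ (c + 7) * (P * d ^ 3)) :=
    le_trans (b := _ * (P * d * d * d)) (by gcongr) (le_of_eq (by ring))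
  have e3 : 96 * P * (LL t.O.l : ℝ) ^ 3 * α ^ 3 ≤ 96 * ((LL t.O.l : ℝ) ^ 3 * (P * d ^ 3)) :=
    le_trans (b := _ * d ^ 3) (by gcongr) (le_of_eq (by ring))
  have e4 : 12 * (LL t.O.l : ℝ) ^ 4 * (t.th c P d ^ t.p *
      ((LL t.O.l : ℝ) ^ 2 * (P * (d ^ 2 + τ * d))) * α) ≤
      12 * ((LL t.O.l : ℝ) ^ 6 * (P * (d ^ 2 + τ * d) * d)) :=
    le_trans (b := _ * (1 * ((LL t.O.l : ℝ) ^ 2 * (P * (d ^ 2 + τ * d))) * d)) (by gcongr)
      (le_of_eq (by ring))
  have := norm_add_le_of_le (norm_add_le_of_le (norm_add_le_of_le (tn_ap h z hB) h2) h3) h4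
  have : 0 ≤ om t c τ P d := by rw [om]; positivity
  linarith

theorem xi_flat (rB : RealF B) (rv : RealF v) (hv : Sm (3 * t.O.l + 1) α v) (α0 : 0 < α)
    (α1 : α ≤ d / LL t.O.l) (w : St) :
    |(t.xi (exF B) (t.As (exF B)) v 0 w + t.xi (exF B) 0 (t.As (exF B)) 0 w).re| ≤
      (LL t.O.l : ℝ) ^ c * ∑ f ∈ lbox t.O.l, Op.nq (v (f.1 + up t.O.l w, f.2)) +
        2 * (cx (mb t.O.l 3 m s) B B).re + om t c τ P d / 2 := by
  obtain ⟨d0, P1, L1, dL, ad, k⟩ := facts h z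
  have a0 := (h.al_le z).1
  have αd := α1.trans dL
  have p0 : 0 ≤ d / LL t.O.l := by positivity
  have s0 := Nt.sm_As h z hB (y := 0)
  have s1 := sm_of_all (Nt.As_bd h z hB) (3 * t.O.l + 1) 0
  rw [up_zero, sh_zero] at s0
  rw [sh_zero] at s1
  have h1 := ((h.ge.blk h.lin d0 z.d1 hB s0).2.2 (sm_rs hv t.O.l w) α0).1
  have h2 := ((h.ge.blk h.lin d0 z.d1 hB (A := 0) fun _ _ => by
    rw [Pi.zero_apply, norm_zero]; positivity).2.2 (sm_rs s1 t.O.l w) a0).1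
  have h3 := h.hh_bd (sm_rs hv t.O.l w) s1
  have h4 := cx_bd h.lin.xx_bd (sm_rs s1 t.O.l w) (B := B) fun e _ => hB e
  have h5 := xx_le h.lin (real_rs (l := t.O.l) rv w) rB
  have h6 := Od.cx_le h.op (real_rs (l := t.O.l) rv w)
  have h7 := mul_le_mul_of_nonneg_left (nq_rs (l := t.O.l) rv w (fb t.O.l 1))
    (pow_pos (LL_pos' t.O.l) c).le
  have h8 := mn_le h.lin rB
  rw [h.hO] at h6
  rw [xi_rs (Nt.lj_As h z hB 0), xi_rs (Nt.lj_all h z hB (fun _ => by simpa using p0) 0),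
    Nt.j1_FF, Nt.j1_FF]
  simp only [up_zero, sh_zero]
  rw [cx_zero_right, mul_zero, add_zero] at h2
  have k1 := ((k (C := 1536) (i := 1) (by norm_num)).1 (by omega)).1
  have k3 := (k (C := 2) (i := c + 5) (by norm_num)).2 (by omega)
  have k4 := (k (C := 24) (i := c) (by norm_num)).2 (by omega)
  have e1 : ∀ x, x ≤ d → 1536 * P * LL t.O.l * d ^ 2 * x ≤
      1536 * ((LL t.O.l : ℝ) ^ 1 * (P * d ^ 3)) := fun x hx =>
    le_trans (b := _ * d) (by gcongr) (le_of_eq (by ring))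
  have e0 : t.al c τ P d * d ≤ P * (t.al c τ P d * d) := le_mul_of_one_le_left (by positivity) P1
  have e3 : (LL t.O.l : ℝ) ^ (c + 5) * (α * t.al c τ P d) ≤
      (LL t.O.l : ℝ) ^ (c + 5) * (P * (t.al c τ P d * d)) := by
    refine mul_le_mul_of_nonneg_left (le_trans ?_ e0) (by positivity)
    rw [mul_comm]
    gcongr
  have e4 : 12 * (LL t.O.l : ℝ) ^ c * t.al c τ P d * d ≤
      12 * ((LL t.O.l : ℝ) ^ c * (P * (t.al c τ P d * d))) :=
    le_trans (b := 12 * ((LL t.O.l : ℝ) ^ c * (t.al c τ P d * d))) (le_of_eq (by ring)) (by gcongr)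
  have b1 := abs_le.1 ((Complex.abs_re_le_norm _).trans (h1.trans (e1 _ αd)))
  have b2 := abs_le.1 ((Complex.abs_re_le_norm _).trans (h2.trans (e1 _ ad)))
  have b3 := abs_le.1 ((Complex.abs_re_le_norm _).trans (h3.trans e3))
  have b4 := abs_le.1 ((Complex.abs_re_le_norm _).trans (h4.trans e4))
  have b5 := abs_le.1 h5
  simp only [Complex.sub_re, Complex.add_re, Complex.mul_re, Complex.re_ofNat, Complex.im_ofNat,
    zero_mul, sub_zero] at b1 b2 b5 ⊢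
  exact abs_le.2 ⟨by linarith, by linarith⟩

theorem a0_flat (rB : RealF B) :
    |(t.a0 (exF B)).re| ≤ 2 * (cx (mb t.O.l 3 m s) B B).re + om t c τ P d / 5 := by
  have b1 := abs_le.1 ((Complex.abs_re_le_norm _).trans (a0_ap h z hB))
  have h1 := mn_le h.lin rB
  have h2 := mn_nonneg h.lin rB
  rw [Complex.sub_re] at b1
  exact abs_le.2 ⟨by linarith, by linarith⟩

omit h z hB

/-- local coercivity for a real block field of small curvature -/
theorem coer_fq {O : Od} (h : O.Ok c) {ε : ℝ} {W : Conf} (hW : Fq 5 ε W) (ε1 : ε ≤ 1 / 200)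
    (rv : RealF v) (ht : ∀ f, tree O.l f → v f = 0) (hv : Sm (fb O.l 4) α v) :
    ∑ f ∈ lbox O.l, Op.nq (v f) ≤ 2 * (LL O.l : ℝ) ^ c * ∑ y ∈ box 3,
      (cx O.h (Ay O.l y (cC W) v) (Ay O.l y (cC W) v)).re +
        (LL O.l : ℝ) ^ (2 * c + 7) * (ε * α) ^ 2 := by
  have ε0 : 0 ≤ ε := (norm_nonneg _).trans (hW 0 (zero_mem_box _) 0 0)
  have α0 := hv.nonneg
  set u := cmb Inv.inv W
  have hu : ∀ y, Uni (cS (u y)) := fun _ => uni_cS _
  have := Od.coer_loc h (W0 := gauge Inv.inv u W) (ε := 24 * ε) (by positivity) (by linarith)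
    (fun e he => by
      have := comb_small (G := gauge Inv.inv u W) (fun _ _ h _ => fix_tr _ h)
        (fun v hv μ ν => by
          rw [hol_gauge_inv, S3.norm_conj_sub]
          exact hW v (box_mono (by norm_num) hv) μ ν) he
      rw [cC, cS, ← cq_one, ← cq_sub]
      exact (norm_cq _).2.trans (by push_cast at this; linarith))
    (A := adF (fun y => cS (u (yo O.l y))) v) (fun e => adq_real (u _).q (rv e)) fun f hf => by
      rw [adF, ht f hf, adq_zero]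
  simp only [cC_gauge, Ay_gauge hu, cx_adF _ h.rng (hu _), adF, Op.nq_adq (hu _)] at this
  refine this.trans ?_
  have h1 : ∀ y ∈ box 3, ∑ e ∈ lbox (fb O.l 1), Op.nq (v (e.1 + up O.l y, e.2)) ≤
      972 * (LL O.l : ℝ) ^ 4 * α ^ 2 := fun y hy =>
    (sum_le_card_nsmul _ _ (3 * α ^ 2) fun e he => (Op.nq_le _).trans (by
      gcongr; exact hv _ (mem_up he hy))).trans_eq (by
        rw [card_lbox, Op.fb_one, nsmul_eq_mul]; push_cast [LL]; ring)
  have L0 := LL_pos' O.l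
  have h2 := sum_le_card_nsmul (box 3) (fun y => 2 * ((LL O.l : ℝ) ^ c * (19200 * (24 * ε) ^ 2 *
    ∑ e ∈ lbox (fb O.l 1), Op.nq (v (e.1 + up O.l y, e.2))))) (2 * ((LL O.l : ℝ) ^ c *
      (19200 * (24 * ε) ^ 2 * (972 * (LL O.l : ℝ) ^ 4 * α ^ 2)))) fun y hy => by
    gcongr
    exact h1 y hy
  rw [card_box, nsmul_eq_mul] at h2
  rw [sum_add_distrib, ← mul_sum, mul_add]
  refine add_le_add (le_of_eq (by ring)) ((mul_le_mul_of_nonneg_left h2 (by positivity)).trans ?_)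
  have h3 : (10 ^ 6 : ℝ) ^ 3 ≤ (LL O.l : ℝ) ^ 3 := pow_le_pow_left₀ (by norm_num) h.LL_ge 3
  calc _ = 2401 * 2 * 19200 * 576 * 972 * ((LL O.l : ℝ) ^ (2 * c + 4) * (ε * α) ^ 2) := by
        push_cast; ring
    _ ≤ (LL O.l : ℝ) ^ 3 * ((LL O.l : ℝ) ^ (2 * c + 4) * (ε * α) ^ 2) := by gcongr; linarith
    _ = _ := by ring

end Ty

namespace Td

open Ty

variable {S : Td} {τ P δ d ε α : ℝ} {R : ℕ} {W : Conf} {v : Fld}

/-- the energy of a block and the telescoping terms -/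
theorem tel_id (S : Td) (W : Cf) (a : Fld) : S.t.FF W 0 (S.t.As W + a) + S.tel W a =
    cx (hh S.l S.m) (Ay S.l 0 W a) (Ay S.l 0 W a) +
      (S.t.tn W + S.t.Yq W a 0 + S.t.rem3 W a 0 + S.t.gv W (S.t.As W) a 0) := by
  have e : ∀ f : St → ℂ, ∑ u ∈ box 3, (if u ∈ box 2 then f u else 0) = ∑ u ∈ box 2, f u :=
    fun f => by rw [← sum_filter, filter_mem_eq_inter, inter_eq_right.2 fun _ => box_mono (by omega)]
  have e2 : ∀ u, S.xf (sh u W) (sh (up S.l u) a) (-u) =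
      (if u ∈ box 2 then S.t.xi W (S.t.As W) a u 0 + S.t.xi W 0 (S.t.As W) u 0 else 0) +
        (2 * (box 3).card : ℂ)⁻¹ * S.t.a0 (sh u W) := fun u => by
    have h1 := S.t.xi_sh W (S.t.As W) a 0 (-u) u
    have h2 := S.t.xi_sh W 0 (S.t.As W) 0 (-u) u
    rw [zero_add, neg_add_cancel] at h1 h2
    rw [xf, S.t.As_sh, ← h1, ← h2]
    congr 2
    exact propext ⟨fun h => neg_neg u ▸ neg_mem_box h, neg_mem_box⟩
  have c0 : ((box 3).card : ℂ) ≠ 0 := by simp [card_box]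
  simp only [tel, e2, sum_sub_distrib]
  simp only [xf, sum_add_distrib, e, ← mul_sum, sum_const, nsmul_eq_mul, Nt.tn, Nt.rem3, Nt.gv,
    Nt.L1, zero_add]
  rw [Nt.a0]
  simp only [Nt.gv, Nt.L1, zero_add]
  change _ = _ + (_ + _ + (_ - (cx (hh S.l S.m) (Ay S.l 0 W a) (Ay S.l 0 W a) + _)) + _)
  field_simp
  ring

variable (h : S.t.Ok S.r S.c τ S.m S.s P δ) (z : S.t.Sz S.c τ P δ d) (hW : Fq R ε W)
  (hR : S.t.rA S.r + S.r + 5 ≤ R) (hε : 6 * R * ε ≤ d)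
include h z hW hR hε

theorem frame : ∃ (u : St → S3) (B : Fld), (∀ e, ‖B e‖ ≤ d) ∧ RealF B ∧
    Agr R (cC W) (gS u (exF B)) ∧ cx S.m1 (Bx 0 (cC W)) (Bx 0 (cC W)) = cx S.m1 B B := by
  obtain ⟨h1, h2⟩ := comb_real hW (hε.trans ((h.d_le z).trans (by norm_num)))
  refine ⟨_, _, fun e => (h1 e).trans hε, fun e k => ?_, h2,
    mb_agr h.lin ((agr_cut R _).symm.mono (by omega))⟩
  rw [cut]
  split_ifs
  exacts [Bx_real 0 W e k, rfl]

/-- the Taylor expansion of the energy of a block -/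
theorem tay_real (hv : Sm (3 * S.l + 1) α v) (α0 : 0 < α) (α1 : 2 * α ≤ d / LL S.l)
    (ht : ∀ f, tree S.l f → v f = 0) :
    ‖S.t.FF (cC W) 0 (S.t.As (cC W) + v) + S.tel (cC W) v - cx S.m1 (Bx 0 (cC W)) (Bx 0 (cC W)) -
      cx (hh S.l S.m) (Ay S.l 0 (cC W) v) (Ay S.l 0 (cC W) v)‖ ≤ om S.t S.c τ P d := by
  obtain ⟨u, B, hB, -, e, e1⟩ := frame h z hW hR hε
  have g := Nt.gw_exF h z hB
  have r0 : S.r / 4 + 4 ≤ S.t.rA S.r := by unfold Nt.rA; omega
  have k := tay_flat h z hB (sm_aS (l := S.t.O.l) hv fun x => (u x)⁻¹) (by positivity) α1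
    fun f hf => by
    rw [aS, adF, ht f hf, adq_zero]
  rw [← Nt.tn_cov h u g, ← Nt.Yq_cov h u g, ← Nt.rem3_cov h u g,
    ← Nt.gv_cov h u g.As, ← Nt.As_cov h u g, aS_inv,
    ← Nt.tn_agr h (e.mono (by omega)),
    ← Nt.Yq_agr h (zero_mem_box 0) (e.mono (by omega)) fun _ _ => rfl,
    ← Nt.rem3_agr h (zero_mem_box 0) (e.mono (by omega)) fun _ _ => rfl,
    ← Nt.gv_agr h (zero_mem_box 0) (e.mono (by omega)) (Nt.As_agr h (e.mono (by omega)))
      fun _ _ => rfl] at k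
  rw [tel_id, e1]
  refine le_of_eq_of_le (congrArg _ ?_) k
  rw [m1]
  change _ = _ - cx (mb S.l 3 S.m S.s) B B + _ + _ + _
  ring

/-- the flows -/
theorem xf_real (rv : RealF v) (hv : Sm (3 * S.l + 1) α v) (α0 : 0 < α) (α1 : 2 * α ≤ d / LL S.l)
    (w : St) : |(S.xf (cC W) v w).re| ≤ 4 * (cx S.m1 (Bx 0 (cC W)) (Bx 0 (cC W))).re +
      (if w ∈ box 2 then S.L ^ S.c * ∑ f ∈ lbox S.l, Op.nq (v (f.1 + up S.l w, f.2)) else 0) +
      om S.t S.c τ P d := by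
  obtain ⟨u, B, hB, rB, e, e1⟩ := frame h z hW hR hε
  have g := Nt.gw_exF h z hB
  have r0 : S.r / 4 + 4 ≤ S.t.rA S.r := by unfold Nt.rA; omega
  have k := xi_flat h z hB rB (v := aS S.t.O.l (fun x => (u x)⁻¹) v) (fun e => adq_real _ (rv e))
    (sm_aS hv _) (by positivity) α1 w
  have k2 := a0_flat h z hB rB
  have k3 := mn_le h.lin rB
  have k4 := mn_nonneg h.lin rB
  rw [← Nt.a0_cov h u g, ← Nt.a0_agr h (e.mono (by omega))] at k2
  have c0 : (1 : ℝ) ≤ (box 3).card := by simp [card_box]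
  have k5 : |((2 * (box 3).card : ℂ)⁻¹ * S.t.a0 (cC W)).re| ≤ |(S.t.a0 (cC W)).re| := by
    rw [show (2 * (box 3).card : ℂ)⁻¹ = (((2 * (box 3).card)⁻¹ : ℝ) : ℂ) by push_cast; rfl,
      Complex.re_ofReal_mul, abs_mul]
    exact mul_le_of_le_one_left (abs_nonneg _) (by
      rw [abs_of_nonneg (by positivity)]; exact inv_le_one_of_one_le₀ (by linarith))
  have o0 : 0 ≤ om S.t S.c τ P d := by
    have := h.P1; have := h.τ0; have := z.d0
    rw [om]; positivity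
  rw [xf, Complex.add_re, e1]
  refine (abs_add_le _ _).trans ?_
  change _ ≤ 4 * (cx (mb S.t.O.l 3 S.m S.s) B B).re + _ + _
  split_ifs with hw
  · rw [← Nt.xi_cov h u (g.As 0), ← Nt.xi_cov h u (g.zero 0), ← Nt.As_cov h u g, aS_inv, aS_zero,
      ← Nt.xi_agr h (zero_mem_box 0) hw (e.mono (by omega)) (Nt.As_agr h (e.mono (by omega)))
        fun _ _ => rfl,
      ← Nt.xi_agr h (zero_mem_box 0) hw (e.mono (by omega)) (fun _ _ => rfl)
        (Nt.As_agr h (e.mono (by omega)))] at k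
    simp only [aS, adF, Op.nq_adq (uni_cS _)] at k
    change _ ≤ S.L ^ S.c * ∑ f ∈ lbox S.l, Op.nq (v (f.1 + up S.l w, f.2)) + _ + _ at k
    linarith
  · rw [Complex.zero_re, abs_zero]
    linarith

end Td

end Pool.Agent.Lib.MP_7f377f_mp.RG.Q4
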