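import Pool.Agent.Lib.MP_7f377f_mp.Q4HoA
import Pool.Agent.Lib.MP_7f377f_mp.Q4Tay
import Pool.Agent.Lib.MP_7f377f_mp.Q4TrG

/-! The energies at tame sites. -/

noncomputable section

namespace Pool.Agent.Lib.MP_7f377f_mp.RG.Q4

open Finset Hj
open scoped Classical Pointwise

attribute [local irreducible] box tb rc

theorem Hj.fs_sh (U : Conf) (y x : St) : fs (sh y U) x = fs U (x + y) := by
  simp only [fs, Rb.fq_sh]

theorem Hj.sm_fb {l a b : ℕ} {α : ℝ} {A : Fld} (h : Sm (fb l (a + b)) α A) {u : St}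
    (hu : u ∈ box b) : Sm (fb l a) α (sh (up l u) A) := fun e he => h _ (mem_lbox.2 (Op.mem_fb.2 (by
  rw [yo_add_up]; exact add_mem_box (Op.mem_fb.1 (mem_lbox.1 he)) hu)))

namespace Sd

variable {S : Sd} {W : Conf} {v : VB} {O : Finset Ob} {ψ : Lx} {y u : St}

theorem TOk.m1 (h : S.TOk) : (∀ a, 0 ≤ S.m1 a a) ∧ (∀ a, nd a 0 ≤ 200000 * S.m1 a a) ∧
    Bd (S.r + 3) (S.r + 3) (S.L ^ S.c) S.m1 := by
  have hb := h.lin.mn_bd
  obtain ⟨j, w, e, -, -, -, -, -, h⟩ := h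
  have h0 := h.inv.psd
  have c3 : ((box 3).card : ℝ) = 2401 := by rw [card_box]; norm_num
  have s0 : ∀ a, 0 ≤ ∑ y ∈ box 3, mn S.l S.m S.s (sh y a) (sh y a) :=
    fun a => sum_nonneg fun _ _ => h0 _
  refine ⟨fun a => ?_, fun a => ?_, fun a b δ δ' ha hb' => ?_⟩ <;> rw [Td.m1, mb_eq, c3]
  · linarith [h0 a, s0 a]
  · have h1 := h.inv.lower a {0}
    rw [sum_singleton, singleton_zero, zero_add] at h1
    have h2 := sum_le_sum_of_subset_of_nonneg (f := fun y => mn S.l S.m S.s (sh y a) (sh y a))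
      (fun x hx => box_mono (show 2 ≤ 3 by norm_num) hx) fun _ _ _ => h0 _
    have h3 : (1 : ℝ) / LL S.l ≤ 1 := div_le_one_of_le₀ (L1 S.toTd) (Nat.cast_nonneg _)
    have h4 : 0 ≤ ∑ y ∈ box 2, mn S.l S.m S.s (sh y a) (sh y a) := sum_nonneg fun _ _ => h0 _
    nlinarith [h0 a, mul_le_mul_of_nonneg_right h3 h4]
  · have h1 := abs_le.1 (hb a b δ δ' (ha.mono (by omega) le_rfl) (hb'.mono (by omega) le_rfl))
    have h2 := abs_le.1 ((abs_sum_le_sum_abs _ _).trans (sum_le_card_nsmul (box 3) _ _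
      fun y hy => hb _ _ δ δ' (ha.sh hy) (hb'.sh hy)))
    rw [nsmul_eq_mul, c3] at h2
    unfold Td.L
    exact abs_le.2 ⟨by linarith [h1.1, h2.1], by linarith [h1.2, h2.2]⟩

theorem hE_sh : S.hE (sh y W) (shv y v) u = S.hE W v (u + y) := by
  rw [hE, hE, vy, vy, sh_sh, shv_shv]

theorem xE_sh (z : St) : S.xE (sh y W) (shv y v) u z = S.xE W v (u + y) z := by
  rw [xE, xE, vy, vy, sh_sh, shv_shv]

theorem tE_sh : S.tE (sh y W) u = S.tE W (u + y) := by rw [tE, tE, sh_sh]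

/-- the flows add up to the telescoping terms -/
theorem sum_xE : ∑ u ∈ box 3, (S.xE W v (y + u) (-u) - S.xE W v y u) =
    S.β * (S.tel (cC (sh y W)) (S.vy W v y)).re := by
  rw [Td.tel, Complex.re_sum, mul_sum]
  refine sum_congr rfl fun u _ => ?_
  rw [xE, xE, add_comm y, vy_add, ← sh_sh, Complex.sub_re, mul_sub, sh_cC u]

namespace Hs

variable (h : S.Hs)
include h

theorem tE0 (W : Conf) (y : St) : 0 ≤ S.tE W y :=
  mul_nonneg h.ok.β0.le (cx_Bx_nonneg h.tok.m1.1 _ _)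

theorem vy_real (W : Conf) (v : VB) (y : St) : RealF (S.vy W v y) := h.fo.vH_real _ _

theorem hE0 (W : Conf) (v : VB) (y : St) : 0 ≤ S.hE W v y :=
  mul_nonneg h.ok.β0.le (Od.cx_nonneg (O := S.t.O) h.fo.op (Ay_real _ (h.vy_real W v y)))

theorem βg' : S.β * S.g' ^ 2 ≤ 2 := by
  nlinarith [h.ok.βg', mul_le_mul_of_nonneg_right h.ok.two (sq_nonneg S.g')]

theorem tE_le {i : ℕ} (hi : i ≤ 100) (hW : Fq (S.r + 3) (S.Q ^ i * S.g') (sh y W)) :
    S.tE W y ≤ S.D0 * (S.Q ^ i) ^ 2 := by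
  have r1 := h.nu.r1'
  have rL := h.nu.r_le_L
  have e0 := hW.nonneg
  have h1 : ((S.r + 3 : ℕ) : ℝ) ≤ 4 * S.L := by push_cast; linarith
  have h0 := h.nu.mon (C := 24) (i := 1) (j := 0) (by norm_num) (by have := h.nu.exps; omega)
    (by omega)
  rw [pow_one, pow_zero, ← pow_one S.Q] at h0
  have h2 := cx_Bx_le h.tok.m1.2.2 hW ((mul_le_mul_of_nonneg_right (by linarith) e0).trans
    (h.ok.Qg'_le (i := i) (j := 1) (by omega)))
  have h3 := h.LQ (C := 13824) (k := S.c + 2) (by norm_num) (by omega)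
  have := L0 S.toTd
  have := h.ok.β0
  calc S.tE W y ≤ S.β * (432 * S.L ^ S.c * (4 * S.L) ^ 2 * (S.Q ^ i * S.g') ^ 2) := by
        refine mul_le_mul_of_nonneg_left ((Complex.re_le_norm _).trans (h2.trans ?_)) this.le
        gcongr
    _ = 6912 * S.L ^ (S.c + 2) * (S.Q ^ i) ^ 2 * (S.β * S.g' ^ 2) := by ring
    _ ≤ 6912 * S.L ^ (S.c + 2) * (S.Q ^ i) ^ 2 * 2 := by gcongr; exact h.βg'
    _ ≤ _ := by nlinarith [mul_le_mul_of_nonneg_right h3 (sq_nonneg (S.Q ^ i))]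

theorem aa_Q : S.aa ≤ S.Q ^ 4 * S.g' ∧ S.g ≤ S.aa ∧ S.p'.ε ≤ S.aa := by
  obtain ⟨-, a1, a2⟩ := h.aa_le
  have g0 := h.ok.g0
  have := S.Q0
  refine ⟨a1.trans (le_trans (b := S.Q * (S.Q ^ 3 * S.g')) ?_ (le_of_eq (by ring))),
    (le_mul_of_one_le_left g0.le (one_le_pow₀ S.Q1)).trans a2, h.ε_le.2.trans a2⟩
  gcongr
  exacts [h.nu.D_le_Q, h.ok.gg']

section frame

variable (g : S.Sg W v)
include g

theorem act {f : Lk} (hf : f ∈ lbox (fb S.l 9)) (ht : ¬ tree S.l f) : Act S.l (S.H W) f :=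
  act_of g.fq (by have := h.nu.lens; omega) hf ht

theorem vH_sm : Sm (fb S.l 9) (2 * S.aa) (S.vH W (vz S.l v)) := fun f hf => by
  have a0 := h.aa_le.1
  by_cases ht : tree S.l f
  · rw [vH_tree ht, norm_zero]; positivity
  have hH := not_of_act (h.act g hf ht)
  rw [eq_sub_of_add_eq' (h.fo.cE_Af hH).symm]
  refine (norm_sub_le _ _).trans ?_
  linarith [(norm_cE _).1.trans (g.vs f hf ht).2, (h.fo.As_not hH).1, h.fo.Dε.2.1, h.aa_Q.2.1]

/-- the energy of the block -/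
theorem FF_eq : S.t.FF (cC W) 0 (S.t.As (cC W) + S.vH W (vz S.l v)) =
    ∑ x ∈ box S.l, (cx S.m (Bx x (cC (S.Uv W v))) (Bx x (cC (S.Uv W v))) +
      S.T (Bx x (cC (S.Uv W v)))) +
    (((LL S.l : ℝ) ^ 2 * ∑ μ, noG S.l (S.Uv W v) W (vo v) μ ^ 2 : ℝ) : ℂ) := by
  have ln := h.nu.lens
  obtain ⟨a0, a1, a2⟩ := h.aa_le
  have e : Agr (3 * S.l + 1) (Uz S.l S.s (cC W) (S.t.As (cC W) + S.vH W (vz S.l v)))
      (cC (S.Uv W v)) := fun f hf => by
    have hf' := lbox_mono (Op.fb_mono S.l (show 1 ≤ 9 by norm_num)) (Op.fb_one _ ▸ hf)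
    by_cases ht : tree S.l f
    · rw [Uz, cC, Uv_tree ht, cS_one, En.Us_tree h.tok.lin _ ht, Pi.add_apply, vH_tree ht,
        S.t.As_tree _ ht, add_zero, ex_zero, mul_one]
    · rw [h.fo.cC_Uv (h.act g hf' ht), (g.vs f hf' ht).1, q8_zero, cS_one, mul_one]; rfl
  obtain ⟨-, k⟩ := geo_out (h.nu.hy h.tok (n := S.c + 5) le_rfl) (R := 0) (d := S.aa) (a := S.aa)
    (U := S.Uv W v) (W := W) (ω := vo v) (v := S.Af W (vz S.l v)) (fun _ => Uv_tree)
    (fun x hx μ ν => (g.fq 0 (zero_mem_box _) x (box_mono (by rw [p'_R]; omega) hx) μ ν).trans'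
      (by rw [sh_zero]) |>.trans h.aa_Q.2.2)
    (fun f hf ht => by
      have hf' := lbox_mono (Op.fb_mono S.l (show 0 + 3 ≤ 9 by norm_num)) hf
      exact ⟨by rw [Uv_act (h.act g hf' ht), (g.vs f hf' ht).1, q8_zero, mul_one],
        (g.vs f hf' ht).2⟩) a0.le le_rfl (by
      have h1 := h.LQ (C := 1) (k := (S.c + 5) * 24) (by norm_num) (by omega)
      rw [one_mul, pow_mul] at h1
      refine le_trans ?_ (h.ok.Qg'_le (i := 4) (j := 1) (by norm_num))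
      have := h.aa_Q.1
      have := h1.trans h.nu.D_le_Q
      have := S.Q0
      rw [pow_one]
      gcongr)
  rw [Nt.FF, sh_zero, up_zero, sh_zero]
  refine (En.en_agr (by omega) h.tok.rng h.tok.tc.loc (fun _ _ => rfl) e).trans ?_
  rw [en, sum_congr rfl fun μ _ => (show nz S.l μ (cC W (0, μ)) (cC (S.Uv W v)) = _ by
    simpa only [up_zero, sh_zero, cC] using ((k 0 (zero_mem_box _)).2 μ (g.om _ (zero_mem_box _))
      (g.om _ (by rw [zero_add]; exact box_mono (by norm_num) (un_mem_box μ)))).2)]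
  simp only [noG]
  push_cast
  rfl

/-- coercivity in the blocks near the origin -/
theorem coer0 (hu : u ∈ box 2) :
    S.β * ∑ f ∈ lbox S.l, Op.nq (S.vH W (vz S.l v) (f.1 + up S.l u, f.2)) ≤
      2 * S.L ^ S.c * ∑ z ∈ box 3, S.hE W v (z + u) + (S.L ^ S.c)⁻¹ := by
  have ln := h.nu.lens
  have L0 := L0 S.toTd
  have Q0 := S.Q0
  have g0 := h.ok.g'0
  have a0 := h.aa_le.1
  have h1 := Ty.coer_fq (O := S.t.O) h.fo.op (ε := S.p'.ε) (W := sh u W)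
    (v := S.vy W v u) (α := 2 * S.aa) ((g.fq u (box_mono (by omega) hu)).mono
      (by rw [p'_R]; omega) le_rfl) (by
        have := h.ok.Qg'_le (i := 2) (j := 1) (by norm_num)
        have h2 := h.nu.cQ' (C := 200) (by norm_num)
        rw [p'_ε]
        nlinarith [mul_le_mul_of_nonneg_right h2 (show 0 ≤ S.Q ^ 2 * S.g' by positivity)])
    (h.vy_real _ _ _) (fun _ => vH_tree) (vy_eq (S := S) ▸ sm_fb ((h.vH_sm g).mono
      (Op.fb_mono _ (show 4 + 2 ≤ 9 by norm_num)) le_rfl) hu)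
  have h2 := mul_le_mul_of_nonneg_left h1 h.ok.β0.le
  rw [mul_add, mul_left_comm, mul_sum (box 3)] at h2
  refine le_trans (le_of_eq (by rw [vy_eq]; rfl)) (h2.trans (add_le_add (le_of_eq ?_) ?_))
  · refine congrArg _ (sum_congr rfl fun z _ => ?_)
    rw [hE, vy_add, ← sh_sh, ← sh_cC z, Ay_sh, zero_add]
    rfl
  · have h3 := (h.LQ (C := 8) (k := 3 * S.c + 7) (by norm_num) (by omega)).trans h.nu.D_le_Q
    have h4 := h.ok.Qg'_le (i := 13) (j := 0) (by norm_num)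
    have h5 := h.aa_Q.1
    rw [inv_eq_one_div, le_div_iff₀ (by positivity), p'_ε]
    calc _ ≤ S.β * (S.L ^ (2 * S.c + 7) * (S.Q ^ 2 * S.g' * (2 * (S.Q ^ 4 * S.g'))) ^ 2) *
          S.L ^ S.c := by
          have := h.ok.β0
          change S.β * (S.L ^ _ * _) * _ ≤ _
          gcongr
      _ = 4 * S.L ^ (3 * S.c + 7) * (S.β * S.g' ^ 2) * (S.Q ^ 12 * S.g' * S.g') := by ring
      _ ≤ 4 * S.L ^ (3 * S.c + 7) * 2 * (S.Q ^ 12 * S.g' * 1) := by
          gcongr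
          exacts [h.βg', h.ok.g'1]
      _ ≤ 1 := by
          nlinarith [mul_le_mul_of_nonneg_right h3 (show 0 ≤ S.Q ^ 12 * S.g' by positivity)]

theorem hE_le : S.hE W v 0 ≤ S.Q ^ 7 := by
  have L0 := L0 S.toTd
  have h1 := Od.cx_le (O := S.t.O) h.fo.op (Ay_real (l := S.l) (W0 := sh 0 W) 0 (h.vy_real W v 0))
  have h2 := sum_le_card_nsmul (lbox (fb S.l 1)) (fun e => Op.nq (Ay S.l 0 (cC (sh 0 W))
    (S.vy W v 0) e)) (3 * (2 * S.aa) ^ 2) fun e he => by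
      rw [Od.nq_Ay, vy_eq, up_zero, sh_zero, add_zero]
      refine (Op.nq_le _).trans ?_
      gcongr
      exact h.vH_sm g _ (lbox_mono (Op.fb_mono _ (by norm_num)) he)
  have h3 := (h.LQ (C := 3888) (k := 11 * S.c + 54) (by norm_num) (by omega)).trans h.nu.D_le_Q
  rw [card_lbox, nsmul_eq_mul, show 2 * fb S.l 1 + 1 = 3 * LL S.l by unfold fb LL; ring] at h2
  calc _ ≤ S.β * (S.L ^ S.c * (((3 * LL S.l) ^ 4 * 4 : ℕ) * (3 * (2 * S.aa) ^ 2))) :=
        mul_le_mul_of_nonneg_left (h1.trans (mul_le_mul_of_nonneg_left h2 (by positivity)))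
          h.ok.β0.le
    _ = 3888 * S.L ^ (11 * S.c + 54) * S.Q ^ 6 * (S.β * S.g ^ 2) := by
        unfold aa εn Td.L; push_cast; ring
    _ ≤ _ := by
        rw [h.ok.βg, mul_one, pow_succ' S.Q 6]
        exact mul_le_mul_of_nonneg_right h3 (pow_pos S.Q0 _).le

omit g in
theorem βom : S.β * Ty.om S.t S.c S.τ S.P (6 * S.w * (S.Q ^ 4 * S.g')) ≤ 1 / 10 ∧
    S.g' ≤ S.Q ^ 4 * S.g' ∧ S.Q ^ 4 * S.g' ≤ S.Q ^ 100 * S.g' := by
  have L0 := L0 S.toTd
  have Q0 := S.Q0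
  have g0 := h.ok.g'0
  have e1 : S.g' ≤ S.Q ^ 4 * S.g' := le_mul_of_one_le_left g0.le (one_le_pow₀ S.Q1)
  have e2 : S.Q ^ 4 * S.g' ≤ S.Q ^ 100 * S.g' := by gcongr; exacts [S.Q1, by norm_num]
  obtain ⟨-, -, s1, -⟩ := h.fo.size e1 e2
  have h1 : (6 * S.w : ℝ) ≤ S.Q := le_trans (by
    have := h.nu.lens; exact_mod_cast (show 6 * S.w ≤ S.D0 by omega)) h.nu.D_le_Q
  have h2 := (h.nu.LD (k := 9 * S.c + 33 + 2 * S.Kt + 2 * S.Kt) (by
    have := h.nu.exps; omega)).trans h.nu.D_le_Q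
  have h3 := h.ok.Qg'_le (i := 16) (j := 1) (by norm_num)
  have h4 := h.nu.cQ' (C := 40) (by norm_num)
  have := Nu.τ0 (S := S)
  have := h.ok.β0
  refine ⟨?_, e1, e2⟩
  calc _ ≤ S.β * (S.L ^ (9 * S.c + 33) * (S.L ^ (2 * S.Kt) * (S.L ^ (2 * S.Kt) *
        ((S.Q * (S.Q ^ 4 * S.g')) ^ 3 + S.Q * (S.Q ^ 4 * S.g') * (S.Q * (S.Q ^ 4 * S.g')) ^ 2)))) := by
        change S.β * (S.L ^ _ * (S.L ^ _ * (S.L ^ _ * _))) ≤ _
        gcongr
        exact s1.trans (le_mul_of_one_le_left (by positivity) S.Q1)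
    _ = S.L ^ (9 * S.c + 33 + 2 * S.Kt + 2 * S.Kt) * (S.β * S.g' ^ 2) * (2 * S.Q ^ 15 * S.g') := by
        ring
    _ ≤ S.Q * 2 * (2 * S.Q ^ 15 * S.g') := by gcongr; exact h.βg'
    _ ≤ _ := by
        nlinarith [mul_le_mul_of_nonneg_right h4 (show 0 ≤ S.Q ^ 16 * S.g' by positivity)]

theorem tay0 : S.tE W 0 + S.hE W v 0 - 1 / 10 ≤
    S.β * (S.t.FF (cC W) 0 (S.t.As (cC W) + S.vH W (vz S.l v))).re +
      S.β * (S.tel (cC W) (S.vH W (vz S.l v))).re ∧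
    ∀ u ∈ box 3, |S.xE W v 0 u| ≤ 4 * S.tE W 0 +
      2 * S.L ^ (2 * S.c) * ∑ z ∈ box 5, S.hE W v z + 2 := by
  have ln := h.nu.lens
  have L0 := L0 S.toTd
  have b0 := h.ok.β0
  obtain ⟨o1, e1, e2⟩ := h.βom
  obtain ⟨z, -, -, e0⟩ := h.fo.size e1 e2
  have q : Fq S.w (S.Q ^ 4 * S.g') W := (sh_zero W ▸ g.fq 0 (zero_mem_box _)).mono
    (by rw [p'_R]; omega) (by
      rw [p'_ε]; exact mul_le_mul_of_nonneg_right (S.Qw (by norm_num)) h.ok.g'0.le)
  have sm : Sm (3 * S.l + 1) (2 * S.aa) (S.vH W (vz S.l v)) :=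
    (h.vH_sm g).mono (Op.fb_one _ ▸ Op.fb_mono _ (by norm_num)) le_rfl
  have a0 : 0 < 2 * S.aa := by linarith [h.aa_le.1]
  have a1 : 2 * (2 * S.aa) ≤ 6 * S.w * (S.Q ^ 4 * S.g') / LL S.l := by
    have h1 := h.nu.mon (C := 4) (i := 1) (j := 1) (by norm_num) (by have := h.nu.exps; omega)
      (by omega)
    have h2 : (1 : ℝ) ≤ S.w := by exact_mod_cast (show 1 ≤ S.w by omega)
    have := S.Q0
    have := h.ok.g0
    refine (le_div_iff₀ L0).2 ?_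
    calc _ ≤ 2 * (2 * (S.D0 * (S.Q ^ 3 * S.g'))) * S.L := by
          gcongr; exact h.aa_le.2.1.trans (by gcongr; exact h.ok.gg')
      _ = 4 * S.L ^ 1 * S.D0 ^ 1 * (S.Q ^ 3 * S.g') := by ring
      _ ≤ S.Q * (S.Q ^ 3 * S.g') := by gcongr; have := h.ok.g'0; positivity
      _ ≤ _ := by nlinarith
  have t1 := mul_le_mul_of_nonneg_left (abs_le.1 ((Complex.abs_re_le_norm _).trans
    (Td.tay_real h.fo.ok z q (by omega) le_rfl sm a0 a1 fun _ => vH_tree))).1 b0.le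
  simp only [xE, tE, hE, vy_eq, up_zero, sh_zero, Complex.sub_re, Complex.add_re] at t1 ⊢
  refine ⟨by linarith, fun u hu => ?_⟩
  have t2 := mul_le_mul_of_nonneg_left (Td.xf_real h.fo.ok z q (by omega) le_rfl
    (h.fo.vH_real _ _) sm a0 a1 u) b0.le
  rw [abs_mul, abs_of_pos b0]
  refine t2.trans ?_
  have h0 := sum_nonneg fun z (_ : z ∈ box 5) => h.hE0 W v z
  rw [mul_add, mul_add]
  split_ifs with h2
  · have c1 := mul_le_mul_of_nonneg_left ((h.coer0 g h2).trans (add_le_add_left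
      (mul_le_mul_of_nonneg_left (Rb.sum_le_sh (T := box 5) u (h.hE0 W v) fun z hz =>
        ⟨add_mem_box hz h2, le_rfl⟩) (by positivity)) _)) (pow_pos L0 S.c).le
    rw [mul_add, mul_inv_cancel₀ (pow_pos L0 _).ne'] at c1
    simp only [hE, vy_eq] at c1
    rw [two_mul S.c, pow_add]
    linarith
  · simp only [hE, vy_eq] at h0
    linarith [mul_nonneg (pow_pos L0 (2 * S.c)).le h0]

end frame

theorem fs_le (hW : Fq (S.p'.R + 1) S.p'.ε (sh y W)) :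
    3 * S.p'.lam * fs W y ≤ S.tE W y / 4 + S.D0 := by
  have Q0 := S.Q0
  have g0 := h.ok.g'0
  have b0 := h.ok.β0
  have h1 := mul_le_mul_of_nonneg_left (pos1 h.tok.m1.2.1 (hW.mono (by omega) le_rfl) (by
    have := h.ok.Qg'_le (i := 2) (j := 1) (by norm_num)
    have h2 := h.nu.cQ' (C := 600) (by norm_num)
    rw [p'_ε]
    nlinarith [mul_le_mul_of_nonneg_right h2 (show 0 ≤ S.Q ^ 2 * S.g' by positivity)])) b0.le
  have h2 : S.β * S.p'.ε ^ 4 ≤ 2 := by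
    calc _ = S.β * S.g' ^ 2 * (S.Q ^ 0 * (S.Q ^ 8 * S.g') * S.g') := by rw [p'_ε]; ring
      _ ≤ 2 * (1 * 1) := by
        gcongr
        exacts [h.βg', h.ok.Qg'_le (by norm_num), h.ok.g'1]
      _ = 2 := by norm_num
  have h3 : S.p'.lam ^ 2 ≤ S.β := (Real.sq_sqrt h.ok.β'0.le).trans_le h.ok.le
  have h4 := (h.nu.cL' (C := 10 ^ 10) (by norm_num)).trans h.nu.L_le_D
  rw [fs_sh, zero_add] at h1
  unfold tE
  nlinarith [sq_nonneg (S.p'.lam * fs W y - 6 * 57600000),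
    mul_le_mul_of_nonneg_right h3 (sq_nonneg (fs W y))]

variable (H : S.Nv W v O ψ)
include H

theorem coer (hy : ¬ Far S.n (5 * S.D0) (S.HD O) y)
    (hf : Far S.n S.D0 (Hh S.l S.n (CC O) (Wk O) ∪ S.Nz W v O) y) (hu : u ∈ box 2) :
    S.β * ∑ f ∈ lbox S.l, Op.nq (S.vy W v y (f.1 + up S.l u, f.2)) ≤
      2 * S.L ^ S.c * ∑ z ∈ box 3, S.hE W v (z + u + y) + 1 := by
  have := h.coer0 (h.sg H hy hf) hu
  simp only [hE_sh] at this
  exact this.trans (add_le_add_right (inv_le_one_of_one_le₀ (one_le_pow₀ (L1 _))) _)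

theorem bf_m1 (hy : y ∈ S.Oh O) (hw : y ∉ Wk O) : S.tE W y ≤ S.Q ^ 5 ∧
    ((∀ u ∈ box (S.r + 5), fs W (y + u) ≤ S.ε2) → S.tE W y ≤ S.Q ^ 2 * S.D0) := by
  have ln := h.nu.lens
  obtain ⟨h1, h2⟩ := mem_tb'.1 hy
  refine ⟨(h.tE_le (i := 2) (by norm_num) ((H.good (near_mono h2 (by omega) Subset.rfl)
    (h1.symm ▸ hw) (by omega)).mono (by rw [p'_R]; omega) le_rfl)).trans ?_, fun h3 =>
    (h.tE_le (i := 1) (by norm_num) fun x hx μ ν => ?_).trans_eq (by ring)⟩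
  · nlinarith [mul_le_mul_of_nonneg_right h.nu.D_le_Q (pow_pos S.Q0 4).le]
  · rw [Rb.fq_sh, add_comm, pow_one]
    exact (fq_le_fs _ _ _ _).trans (h3 x (box_mono (by omega) hx))

theorem bf_tay (hy : y ∈ S.Oh O)
    (hf : Far S.n S.D0 (Hh S.l S.n (CC O) (Wk O) ∪ S.Nz W v O) y) :
    S.tE W y + S.hE W v y - 1 ≤
      S.eE W v O y + ∑ u ∈ box 3, (S.xE W v (y + u) (-u) - S.xE W v y u) ∧
    S.tE W y + S.hE W v y ≤ S.Q ^ 8 ∧ 3 * S.p'.lam * fs W y ≤ S.tE W y / 4 + S.D0 ∧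
    ∀ u ∈ box 3, |S.xE W v y u| ≤ S.L ^ (2 * S.c + 1) *
      ∑ z ∈ box (S.r + 5), (S.tE W (y + z) + S.hE W v (y + z) + 1) := by
  obtain ⟨h1, h2⟩ := mem_tb'.1 hy
  have g := h.sg H h2 hf
  have L0 := L0 S.toTd
  have f0 := (hf.mono S.D0.zero_le).sub subset_union_left
  obtain ⟨t1, t2⟩ := h.tay0 g
  simp only [hE_sh, xE_sh, tE_sh, zero_add] at t1 t2
  refine ⟨?_, ?_, h.fs_le (sh_zero (sh y W) ▸ g.fq 0 (zero_mem_box _)), fun u hu => ?_⟩
  · have h3 := sum_le_card_nsmul (box S.l) (fun x => S.β * (S.T (Bx x (cC (S.Uy W v y)))).re)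
      (1 / 10 / S.L ^ 4) fun x hx => by
        have := h.tT _ (H.ib' h2 hx (cy_not f0 hx))
        rw [← sh_cC, Bx_sh, zero_add] at this
        rw [le_div_iff₀' (by positivity)]
        exact (mul_le_mul_of_nonneg_left (mul_le_mul_of_nonneg_left (Complex.re_le_norm _)
          h.ok.β0.le) (by positivity)).trans this
    rw [nsmul_eq_mul, JS.card_boxR, ← Td.L, mul_div_cancel₀ _ (by positivity), ← mul_sum] at h3
    rw [h.FF_eq g, Complex.add_re, Complex.ofReal_re, sum_add_distrib, Complex.add_re,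
      Complex.re_sum, Complex.re_sum] at t1
    rw [sum_xE, eE, eG, filter_true_of_mem fun x hx => cy_not f0 hx]
    unfold Uy vy at *
    linarith
  · have h3 := h.hE_le g
    rw [hE_sh, zero_add] at h3
    have h4 := (h.bf_m1 H hy (h1 ▸ fun hw => f0.not_mem (mem_union_right _ hw))).1
    nlinarith [S.Qw (show 5 ≤ 7 by norm_num), mul_le_mul_of_nonneg_right
      (h.nu.cQ' (C := 2) (by norm_num)) (pow_pos S.Q0 7).le]
  · have F0 : ∀ z, 0 ≤ S.tE W (y + z) + S.hE W v (y + z) + 1 := fun z => by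
      linarith [h.tE0 W (y + z), h.hE0 W v (y + z)]
    have h3 := single_le_sum (fun z _ => F0 z) (zero_mem_box (S.r + 5))
    have h4 := (sum_le_sum fun z (_ : z ∈ box 5) => show S.hE W v (z + y) ≤ _ from by
      rw [add_comm z]; linarith [h.tE0 W (y + z)]).trans (sum_le_sum_of_subset_of_nonneg
        (fun z hz => box_mono (show 5 ≤ S.r + 5 by omega) hz) fun z _ _ => F0 z)
    rw [add_zero] at h3
    have h5 : 1 ≤ S.L ^ (2 * S.c) := one_le_pow₀ (L1 _)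
    have h6 := h.nu.cL' (C := 8) (by norm_num)
    have h7 := (F0 0).trans (single_le_sum (fun z _ => F0 z) (zero_mem_box (S.r + 5)))
    rw [pow_succ]
    nlinarith [t2 u hu, h.tE0 W y, h.hE0 W v y, mul_le_mul_of_nonneg_right h5 h7,
      mul_le_mul_of_nonneg_left h4 (zero_le_one.trans h5),
      mul_le_mul_of_nonneg_right h6 (mul_nonneg (zero_le_one.trans h5) h7)]

end Hs

end Sd

end Pool.Agent.Lib.MP_7f377f_mp.RG.Q4
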