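import Pool.Agent.Lib.MP_7f377f_mp.Q4Defs

/-! The functions and the numbers of the budget of a family of objects: definitions. -/

noncomputable section

namespace Pool.Agent.Lib.MP_7f377f_mp.RG.Q4

open Finset
open scoped Classical

/-- the noise on the coarse link `(0, μ)` -/
def noG (l : ℕ) (U W : Conf) (ω : St → Om) (μ : Fin 4) : ℝ :=
  ‖(W (0, μ) * (blkN l U ω (0, μ))⁻¹).q - 1‖

/-- the energy kept in the block at the origin; `c` are the sites in the cores -/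
def eG (l : ℕ) (m : BF) (β : ℝ) (c : St → Prop) (U W : Conf) (ω : St → Om) : ℝ :=
  β * ∑ x ∈ (box l).filter fun x => ¬ c x, (cx m (Bx x (cC U)) (Bx x (cC U))).re +
    β * (LL l : ℝ) ^ 2 * ∑ μ, noG l U W ω μ ^ 2

/-- the curvature in the cores of the block at the origin -/
def rG (l : ℕ) (c : St → Prop) (U : Conf) : ℝ := ∑ x ∈ (box l).filter c, fs U x

/-- the union of the old cores -/
def cor (O : Finset Ob) : Finset St := (CC O).biUnion id

namespace Sd

variable (S : Sd) (W : Conf) (v : VB) (O : Finset Ob)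

/-- threshold for the noise -/
def εn : ℝ := S.Q ^ 3 * S.g

/-- the cores seen from the block `y` -/
def cy (y : St) : St → Prop := fun x => x + up S.l (rc S.n y) ∈ cor O

/-- the fine field seen from the block `y` -/
def Uy (y : St) : Conf := S.Uv (sh y W) (shv y v)

/-- the fluctuation field seen from the block `y` -/
def vy (y : St) : Fld := S.vH (sh y W) (vz S.l (shv y v))

def noE (y : St) (μ : Fin 4) : ℝ := noG S.l (S.Uy W v y) (sh y W) (vo (shv y v)) μ

def eE (y : St) : ℝ := eG S.l S.m S.β (S.cy O y) (S.Uy W v y) (sh y W) (vo (shv y v))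

def rE (y : St) : ℝ := S.p.lam * rG S.l (S.cy O y) (S.Uy W v y)

def tE (y : St) : ℝ := S.β * (cx S.m1 (Bx 0 (cC (sh y W))) (Bx 0 (cC (sh y W)))).re

def hE (y : St) : ℝ := S.β * (cx (hh S.l S.m) (Ay S.l 0 (cC (sh y W)) (S.vy W v y))
  (Ay S.l 0 (cC (sh y W)) (S.vy W v y))).re

def xE (y u : St) : ℝ := S.β * (S.xf (cC (sh y W)) (S.vy W v y) u).re

/-- the holes and the blocks with a large fluctuation variable -/
def HD : Finset St := Hh S.l S.n (CC O) (Wk O) ∪ Dbl O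

/-- the sites with large noise -/
def Nz : Finset St := (tb S.n (2 * S.D0) (S.HD O)).filter fun y => ∃ μ, S.εn < S.noE W v y μ

/-- the numbers of the budget -/
def bp : Bp where
  l := S.l
  n := S.n
  ρ := 3
  r := S.r + 5
  dt := S.D0
  el := LL S.l ^ (2 * S.c + 3)
  j := LL S.l
  dD := S.w
  dN := 2 * S.D0
  R := S.p'.R
  D1 := 3 * S.D0
  D3 := 5 * S.D0
  D4 := 6 * S.D0
  DD0 := S.p.D
  DD := S.p'.D
  C1 := S.L ^ (2 * S.c + 1)
  M := S.Q ^ 8
  U := S.D0
  U0 := S.D0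
  M1 := S.Q ^ 5
  M2 := S.Q ^ 2 * S.D0
  lam := S.p'.lam
  ε1 := S.p'.ε
  ε2 := S.ε2
  gN := S.Q ^ 6
  gD := (S.D0 : ℝ) ^ 6
  g0 := S.D0
  u := S.Q
  G0 := S.p.G0
  G2 := S.p.G2
  G0' := S.p'.G0
  G2' := S.p'.G2

/-- the factors of the blocks in the support of `O` do not vanish -/
structure Nv (ψ : Lx) : Prop where
  per : Per S.n W
  pv : pcs S.n v = v
  sub : O ⊆ S.obs
  sup : S.Sup W O
  zm : ∀ f, ‖vz S.l v f‖ ≤ S.zm
  gn : ∀ y ∈ S.Oh O, S.Gn (sh y W) (shv y v) ≠ 0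
  ib : ∀ y ∈ S.Oh O, S.Ib ψ (cor O) (S.Uv W v) y ≠ 0
  df : ∀ y ∈ us S.sp O, S.df v O y ≠ 0

end Sd

end Pool.Agent.Lib.MP_7f377f_mp.RG.Q4
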