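import Pool.Agent.Lib.MP_7f377f_mp.Q4HoD
import Pool.Agent.Lib.MP_7f377f_mp.Q4BudG
import Pool.Agent.Lib.MP_7f377f_mp.Q4CovD
import Pool.Agent.Lib.MP_7f377f_mp.Q4MeasTT
import Pool.Agent.Lib.MP_7f377f_mp.RGBg0

/-! The volume bound and the lower bound of the kept energy. -/

noncomputable section

namespace Pool.Agent.Lib.MP_7f377f_mp.RG.Q4

open Finset MeasureTheory Ms
open scoped Classical

attribute [local irreducible] box lbox

namespace Hv

theorem int_mp {X Y : Type} [MeasurableSpace X] [MeasurableSpace Y] {μ : Measure X} {ν : Measure Y}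
    {r : X → Y} (h : MeasurePreserving r μ ν) {f : Y → ℝ} (hf : Integrable f ν) :
    Integrable (fun x => f (r x)) μ ∧ ∫ x, f (r x) ∂μ = ∫ y, f y ∂ν :=
  ⟨h.integrable_comp_of_integrable hf, by
    rw [← integral_map h.measurable.aemeasurable (h.map_eq.symm ▸ hf.1), h.map_eq]⟩

theorem int_fin {ι X : Type} [MeasurableSpace X] {m : Measure X} [IsProbabilityMeasure m]
    (S : Finset ι) {φ : ι → X → ℝ} (h : ∀ i, Integrable (φ i) m) :
    Integrable (fun v : ι → X => ∏ i ∈ S, φ i (v i)) (.infinitePi fun _ => m) ∧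
      ∫ v, ∏ i ∈ S, φ i (v i) ∂(.infinitePi fun _ => m) = ∏ i ∈ S, ∫ x, φ i x ∂m := by
  have := int_mp (Cov.mp_fin m (Subtype.val_injective (p := (· ∈ S))))
    (Integrable.fintype_prod fun i : S => h i)
  rw [integral_fintype_prod_eq_prod fun i : S => φ i, prod_coe_sort S fun i => ∫ x, φ i x ∂m] at this
  simpa only [fun v : ι → X => prod_coe_sort S fun i => φ i (v i)] using this

theorem int_exp {ζ : ℝ} (h : 0 < ζ) : Integrable (fun z : E3 => Real.exp (‖z‖ ^ 2 / 2)) (nu ζ) ∧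
    ∫ z, Real.exp (‖z‖ ^ 2 / 2) ∂nu ζ ≤ (2 * ζ) ^ 3 / zn ζ := by
  have z0 := zn_pos h
  have m := (cont_dG ζ).measurable
  have p : 0 ≤ᵐ[nu ζ] dG ζ := .of_forall fun z => (dG_pos h z).le
  have e : ∫⁻ z, ENNReal.ofReal (dG ζ z) ∂nu ζ ≤ ENNReal.ofReal ((2 * ζ) ^ 3) := by
    rw [← setLIntegral_univ, ← withDensity_apply _ MeasurableSet.univ, nu_dens h,
      Measure.restrict_apply_univ]
    exact vol_ball h.le
  have i := (lintegral_ofReal_ne_top_iff_integrable m.aestronglyMeasurable p).1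
    (e.trans_lt ENNReal.ofReal_lt_top).ne
  rw [← ofReal_integral_eq_lintegral_ofReal i p, ENNReal.ofReal_le_ofReal_iff (by positivity)] at e
  unfold dG at i e
  rw [integral_const_mul, ← le_div_iff₀' z0] at e
  exact ⟨(integrable_const_mul_iff (IsUnit.mk0 _ z0.ne') _).1 i, e⟩

/-- the inverse Gaussian weight of a block -/
def ew (l : ℕ) (β : BV) : ℝ := ∏ t ∈ lbox l, Real.exp (‖(β.1 t).2.1‖ ^ 2 / 2)

theorem int_eb (l : ℕ) {ζ : ℝ} (h : 0 < ζ) : Integrable (ew l) (bv l (nu ζ)) ∧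
    ∫ β, ew l β ∂bv l (nu ζ) ≤ ((2 * ζ) ^ 3 / zn ζ) ^ (4 * LL l ^ 4) := by
  have := nu_prob h
  obtain ⟨a, b⟩ := int_exp h
  obtain ⟨a1, b1⟩ := int_mp (μ := haar.prod (lq (nu ζ)))
    (measurePreserving_fst.comp measurePreserving_snd) a
  obtain ⟨a2, b2⟩ := int_fin (lbox l) fun _ => a1
  obtain ⟨a3, b3⟩ := int_mp (μ := bv l (nu ζ)) measurePreserving_fst a2
  refine ⟨a3, (b3.trans b2).trans_le ?_⟩
  rw [prod_const, card_lbox, mul_comm, b1]
  exact pow_le_pow_left₀ (integral_nonneg fun _ => (Real.exp_pos _).le) b _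

theorem int_g (l : ℕ) {ζ ζ' : ℝ} (hζ : 0 < ζ) (h : ζ ≤ ζ') : Integrable (gd l ζ) (bv l (nu ζ')) ∧
    ∫ β, gd l ζ β ∂bv l (nu ζ') = cgd l ζ (zn ζ') := by
  have := nu_prob (hζ.trans_le h)
  have a : Integrable (gd l ζ) (bv l (nu ζ')) := .of_bound (Cov.meas_gd l ζ).aestronglyMeasurable 1
    (.of_forall fun β => by rcases Cov.gd_cases l ζ β with e | e <;> simp [e])
  have b := int_gd l hζ (Cov.gs_nu (hζ.trans_le h) h) (Y := {0})
  rw [integral_complex_ofReal, Complex.ofReal_inj, PB, (int_fin _ fun _ => a).2] at b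
  exact ⟨a, by simpa using b⟩

theorem amgm {k a η : ℝ} (h : 0 < η) : k * a ≤ η * a ^ 2 + k ^ 2 / (4 * η) := by
  rw [← sub_nonneg]
  refine le_of_le_of_eq (show 0 ≤ (2 * η * a - k) ^ 2 / (4 * η) by positivity) ?_
  field_simp
  ring

end Hv

open Hv

/-- the majorant which does not depend on the data -/
def vh (l n : ℕ) (ζ ζ' : ℝ) (T Y : Finset St) (v : VB) : ℝ :=
  Real.exp (∑ f ∈ (ldom (LL l * n)).filter fun f => yo l f.1 ∈ T, ‖vz l (pcs n v) f‖ ^ 2 / 2) *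
    ∏ y ∈ Y, gd l ζ (pcs n v y) / cgd l ζ (zn ζ')

/-- (V) volume bound with good blocks integrated exactly -/
theorem vol_gd {l n : ℕ} (hn : Odd n) {ζ ζ' : ℝ} (hζ : 1 ≤ ζ) (h : ζ ≤ ζ')
    {T Y : Finset St} (hT : T ⊆ box (n / 2)) (hY : Y ⊆ box (n / 2)) (hd : Disjoint T Y) :
    Integrable (vh l n ζ ζ' T Y) (PB l (nu ζ')) ∧ ∫ v, vh l n ζ ζ' T Y v ∂PB l (nu ζ') ≤
      (((2 * ζ') ^ 3 / zn ζ') ^ (4 * LL l ^ 4)) ^ T.card ∧
      ∀ᵐ v ∂PB l (nu ζ'), ∀ f, ‖vz l (pcs n v) f‖ ≤ ζ' := by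
  have z0 := one_pos.trans_le hζ
  have z1 := z0.trans_le h
  have := nu_prob z1
  obtain ⟨a1, b1⟩ := int_eb l z1
  obtain ⟨a2, b2⟩ := int_g l z0 h
  have nT := fun y (hy : y ∈ Y) => disjoint_right.1 hd hy
  obtain ⟨a, b⟩ := int_fin (m := bv l (nu ζ')) (T ∪ Y)
    (φ := fun y β => if y ∈ T then ew l β else gd l ζ β / cgd l ζ (zn ζ')) fun y => by
      split_ifs
      exacts [a1, a2.div_const _]
  have e : vh l n ζ ζ' T Y = fun v => ∏ y ∈ T ∪ Y,
      if y ∈ T then ew l (v y) else gd l ζ (v y) / cgd l ζ (zn ζ') := funext fun v => by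
    rw [prod_union hd, vh, sum_filter, Mx.sum_links hn, Real.exp_sum,
      ← prod_subset hT fun y _ hy => by
        rw [sum_eq_zero fun t ht => if_neg (by rwa [Mx.yo_blk (mem_lbox.1 ht)]), Real.exp_zero]]
    congr 1
    · refine prod_congr rfl fun y hy => ?_
      rw [if_pos hy, Real.exp_sum]
      refine prod_congr rfl fun t ht => ?_
      rw [if_pos (by rwa [Mx.yo_blk (mem_lbox.1 ht)]), vz, Cov.lnk_up l _ y ht, pcs,
        rc_eq hn (hT hy)]
    · exact prod_congr rfl fun y hy => by rw [if_neg (nT y hy), pcs, rc_eq hn (hY hy)]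
  rw [e]
  refine ⟨a, b.trans_le ?_, ?_⟩
  · rw [prod_union hd, prod_eq_one (s := Y) fun y hy => by
      simp only [if_neg (nT y hy), integral_div, b2, div_self (Cov.cgd_pos l z0 (zn_pos z1)).ne'],
      mul_one, ← prod_const]
    refine prod_le_prod (fun y hy => integral_nonneg fun β => ?_) fun y hy => ?_ <;>
      simp only [if_pos hy]
    exacts [prod_nonneg fun _ _ => (Real.exp_pos _).le, b1]
  · filter_upwards [ae_vz l z1] with v hv f
    rw [Cov.vz_pcs hn]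
    exact hv _

/-- (E) the curvature of the block field is controlled by the kept energy and the cores -/
theorem reg_low {l : ℕ} (hl : 4 ≤ l) {m : BF} {c0 β κ ε : ℝ} (_hm : ∀ a, 0 ≤ m a a)
    (h0 : ∀ a, nd a 0 ≤ c0 * m a a) (c1 : 1 ≤ c0) (β0 : 0 < β) (κ0 : 0 ≤ κ) (h1 : 600 * ε ≤ 1)
    {U W : Conf} {ω : St → Om} {c : St → St → Prop}
    (hc : ∀ y ∈ box 2, ∀ x ∈ box l, ¬ c y x → Fq 1 ε (sh x (sh (up l y) U)))
    (hw : ∀ y ∈ box 1, wt l (sh (up l y) U) (ω y) ≠ 0) :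
    κ * fs W 0 ≤ 5000⁻¹ * ∑ y ∈ box 2, eG l m β (c y) (sh (up l y) U) (sh y W) (shv y ω) +
      κ * (10 ^ 6 / LL l) * ∑ y ∈ box 2, rG l (c y) (sh (up l y) U) +
      10 ^ 24 * c0 * (LL l : ℝ) ^ 2 * κ ^ 2 / β + 10 ^ 14 * (LL l : ℝ) ^ 4 * β * ε ^ 4 := by
  have L1 := JS.one_le_LL l
  have L0 := one_pos.trans_le L1
  have c2 := one_pos.trans_le c1
  set k := κ * (10 ^ 6 / LL l) with hk
  set a := 10 ^ 21 * c0 * (LL l : ℝ) ^ 2 * κ ^ 2 / β with ha
  set b := 10 ^ 11 * β * ε ^ 4 with hb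
  have a0 : 0 ≤ a := by positivity
  have b0 : 0 ≤ b := by positivity
  -- one block
  have h2 : ∀ y ∈ box 2, k * ∑ x ∈ box l, fs U (x + up l y) +
      64 * κ * ∑ μ, ‖(W (y, μ) * (blkN l U ω (y, μ))⁻¹).q - 1‖ ≤
      5000⁻¹ * eG l m β (c y) (sh (up l y) U) (sh y W) (shv y ω) +
        k * rG l (c y) (sh (up l y) U) + (a + LL l ^ 4 * b) := fun y hy => by
    have e1 : ∀ x, fs U (x + up l y) = fs (sh (up l y) U) x := fun x => by
      simp only [fs, Rb.fq_sh]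
    have e2 : ∀ μ, ‖(W (y, μ) * (blkN l U ω (y, μ))⁻¹).q - 1‖ =
        noG l (sh (up l y) U) (sh y W) (shv y ω) μ := fun μ => by
      rw [noG, show shv y ω = fun x => ω (x + y) from rfl, Mx.blkN_sh]
      simp only [sh_apply, zero_add]
    simp only [e1, e2]
    set V := sh (up l y) U
    have k1 : ∀ x ∈ (box l).filter fun x => ¬ c y x, k * fs V x ≤
        5000⁻¹ * (β * (cx m (Bx x (cC V)) (Bx x (cC V))).re) + (a / 2 / LL l ^ 4 + b) :=
      fun x hx => by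
      have p := pos1 h0 (hc y hy x (mem_filter.1 hx).1 (mem_filter.1 hx).2) h1
      rw [← sh_cC, Bx_sh, zero_add, show fs (sh x V) 0 = fs V x by
        simp only [fs, Rb.fq_sh, zero_add]] at p
      have q := mul_le_mul_of_nonneg_left p (show 0 ≤ β / (1440000 * c0) by positivity)
      have q1 : k ^ 2 / (4 * (β / (1440000 * c0))) ≤ a / 2 / LL l ^ 4 := by
        rw [hk, ha]
        field_simp
        nlinarith [sq_nonneg κ]
      have q2 : β / (1440000 * c0) * (10 ^ 14 * ε ^ 4) ≤ b := by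
        rw [hb, div_mul_eq_mul_div, div_le_iff₀ (by positivity)]
        nlinarith [mul_le_mul_of_nonneg_left c1 b0]
      rw [mul_add, show ∀ e, β / (1440000 * c0) * (288 * c0 * e) = 5000⁻¹ * (β * e) from
        fun e => by field_simp; ring] at q
      linarith [amgm (k := k) (a := fs V x) (show 0 < β / (1440000 * c0) by positivity)]
    have k2 : ∀ μ ∈ univ, 64 * κ * noG l V (sh y W) (shv y ω) μ ≤
        β * LL l ^ 2 / 5000 * noG l V (sh y W) (shv y ω) μ ^ 2 + a / 8 := fun μ _ => by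
      refine (amgm (by positivity)).trans (add_le_add le_rfl ?_)
      rw [ha]
      field_simp
      nlinarith [mul_le_mul_of_nonneg_left (one_le_mul_of_one_le_of_one_le c1
        (one_le_pow₀ L1 (n := 4))) (sq_nonneg κ)]
    have k3 := sum_le_sum k1
    have k4 := sum_le_sum k2
    have k5 : (((box l).filter fun x => ¬ c y x).card : ℝ) ≤ LL l ^ 4 := by
      exact_mod_cast (card_filter_le _ _).trans_eq (card_box l)
    have k6 := mul_le_mul_of_nonneg_right k5 (show 0 ≤ a / 2 / LL l ^ 4 + b by positivity)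
    rw [mul_add ((LL l : ℝ) ^ 4), mul_div_cancel₀ _ (by positivity)] at k6
    simp only [sum_add_distrib, ← mul_sum, sum_const, nsmul_eq_mul, card_univ,
      Fintype.card_fin] at k3 k4
    rw [← sum_filter_add_sum_filter_not (box l) (c y), eG, rG]
    push_cast at k4
    linarith
  have h3 := sum_le_sum h2
  have h4 := mul_le_mul_of_nonneg_left (m4n hl U W ω hw) κ0
  have h5 := mul_le_mul_of_nonneg_left (Bg.sum_fb_le l 2 (fs_nonneg U)) (show 0 ≤ k by positivity)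
  have h6 := mul_le_mul_of_nonneg_left (sum_le_sum_of_subset_of_nonneg
    (fun _ => box_mono one_le_two : box 1 ⊆ box 2) (f := fun y => ∑ μ, ‖(W (y, μ) * (blkN l U ω (y, μ))⁻¹).q - 1‖)
    fun _ _ _ => sum_nonneg fun _ _ => norm_nonneg _) κ0
  simp only [sum_add_distrib, ← mul_sum, sum_const, nsmul_eq_mul, card_box] at h3
  rw [show fb l 2 = 5 * l + 2 by unfold fb LL; ring] at h5
  rw [mul_add, ← mul_assoc, ← hk] at h4
  push_cast at h3
  rw [show 10 ^ 24 * c0 * (LL l : ℝ) ^ 2 * κ ^ 2 / β = 1000 * a by rw [ha]; ring,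
    show 10 ^ 14 * (LL l : ℝ) ^ 4 * β * ε ^ 4 = 1000 * (LL l ^ 4 * b) by rw [hb]; ring]
  linarith [mul_nonneg (pow_pos L0 4).le b0]

end Pool.Agent.Lib.MP_7f377f_mp.RG.Q4
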