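import Pool.Agent.Lib.MP_7f377f_mp.Q4PsA

/-! The push of a form by the linear minimiser contracts the weighted norm. -/

noncomputable section

namespace Pool.Agent.Lib.MP_7f377f_mp.RG.Q4

open Finset La La.Q
open scoped Pointwise

/-- pointwise contraction of the curvature by the linear minimiser -/
def PtC (l r : ℕ) (lam : ℝ) (σ : V →ₗ[ℝ] V) : Prop :=
  ∀ B δ, Cv (r / 3) δ B → Cv l (lam * δ) (mu l σ B)

/-- the push as a form -/
def pkL (l : ℕ) (σ : V →ₗ[ℝ] V) (k : St → CF) : CF :=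
  ∑ x ∈ box l, (k x).compl₁₂ (shL x ∘ₗ mu l σ) (shL x ∘ₗ mu l σ)

/-- the contraction factor; `r0` is the radius where the two estimates meet -/
def cpk (l r r0 s : ℕ) (g lam : ℝ) : ℝ :=
  4 * (36 * r0 * (2 * r0 + 1) ^ 2 * g * (r : ℝ) ^ s + 2 * ((LL l : ℝ) ^ 2 * lam * (r / r0) ^ s)) *
    (9 * (2 * r0 + 1) ^ 2 * (r : ℝ) ^ (3 + s) + (LL l : ℝ) ^ 2 * lam * (r / r0) ^ s)

variable {l r r0 R R' s c : ℕ} {τ g lam xb xk δ δ' : ℝ} {m : BF} {σ : V →ₗ[ℝ] V} {k : St → CF}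
  {a b : V}

theorem pkL_apply (l : ℕ) (σ : V →ₗ[ℝ] V) (k : St → CF) (a b : V) :
    pkL l σ k a b = ∑ x ∈ box l, k x (sh x (mu l σ a)) (sh x (mu l σ b)) := by
  simp [pkL, LinearMap.sum_apply, Li.shL_apply]

theorem PtC.cv (h : PtC l r lam σ) {j : ℕ} (ha : Cv (r / 3 + j) δ a) :
    Cv (j * LL l + l) (lam * δ) (mu l σ a) := fun x hx μ ν => by
  have := h _ _ (ha.sh (RG.yo_mem_box hx)) _ (sub_up_mem l x) μ ν
  rwa [mu_sh, RG.dd_sh, sub_add_cancel] at this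

theorem rad_le (l j : ℕ) : j + l ≤ (j / LL l + 1) * LL l + l := by
  have := Nat.lt_div_mul_add (a := j) (b := LL l) (Li.LL_pos l)
  rw [add_mul]
  omega

theorem PtC.sh (h : PtC l r lam σ) {j : ℕ} (ha : Cv (r / 3 + (j / LL l + 1)) δ a) {x : St}
    (hx : x ∈ box l) : Cv j (lam * δ) (sh x (mu l σ a)) :=
  ((h.cv ha).mono (rad_le l j) le_rfl).sh hx

theorem wt_le (hr : 1000 ≤ r) (h0 : 1 ≤ r0) (hl : r0 ≤ l) {j : ℕ} (hj : r0 ≤ j) :
    ((r / 3 + (j / LL l + 1) : ℕ) + 1 : ℝ) ≤ r / r0 * (j + 1) := by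
  have a1 : j / LL l * r0 ≤ j :=
    (Nat.mul_le_mul_left _ (by simp only [LL]; omega)).trans (Nat.div_mul_le_self j (LL l))
  have a2 : (r / 3 + (j / LL l + 1) + 1) * r0 ≤ r * (j + 1) := by
    obtain ⟨q, hq⟩ : ∃ q, q = r / 3 := ⟨_, rfl⟩
    have b1 : (q + 2) * r0 ≤ (q + 2) * j := Nat.mul_le_mul_left _ hj
    have b2 : (q + 3) * j ≤ r * j := Nat.mul_le_mul_right _ (by omega)
    rw [← hq]
    nlinarith
  have p : (0 : ℝ) < r0 := by exact_mod_cast h0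
  rw [div_mul_eq_mul_div, le_div_iff₀ p]
  exact_mod_cast a2

/-- weighted bounds for the minimiser seen from a site of the block -/
theorem cw_mu (hp : PtC l r lam σ) (lam0 : 0 ≤ lam) (hr : 1000 ≤ r) (h0 : 1 ≤ r0) (hl : r0 ≤ l)
    (hR : r / 3 + (R / LL l + 1) ≤ R') (ha : Cw R' s δ a) {x : St} (hx : x ∈ box l) :
    Cw R s (lc r0 (nd (mu l σ a)) x + lam * (r / r0) ^ s * δ) (sh x (mu l σ a)) ∧
    Cw R s (4 * r0 * lc r0 (gd (mu l σ a)) x + 2 * (lam * (r / r0) ^ s * δ))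
      (sh x (mu l σ a) - cc (sh x (mu l σ a))) := by
  have d0 := ha.nonneg
  have far : ∀ j ≤ R, r0 ≤ j → Cv j (lam * (r / r0) ^ s * δ * (j + 1 : ℝ) ^ s) (sh x (mu l σ a)) :=
    fun j hj h1 => (hp.sh (ha _ (le_trans (by gcongr) hR)) hx).mono le_rfl (by
      have := wt_le hr h0 hl h1
      calc _ ≤ lam * (δ * (r / r0 * (j + 1 : ℝ)) ^ s) := by gcongr
        _ = _ := by rw [mul_pow]; ring)
  have n1 : 0 ≤ lc r0 (nd (mu l σ a)) x := Real.sqrt_nonneg _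
  have n2 : 0 ≤ lc r0 (gd (mu l σ a)) x := Real.sqrt_nonneg _
  have n3 : 0 ≤ lam * (r / r0) ^ s * δ := by positivity
  refine ⟨fun j hj => ?_, fun j hj => ?_⟩ <;> have w := wt_one j s <;> rcases le_total j r0 with h | h
  · exact (cv_lc r0 _ x).mono h (by nlinarith)
  · exact (far j hj h).mono le_rfl (by nlinarith)
  · refine (cv_osc r0 _ x).mono h ?_
    have : 0 ≤ 4 * r0 * lc r0 (gd (mu l σ a)) x := by positivity
    nlinarith
  · intro z hz μ ν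
    rw [RG.dd_sub, cc_eq', dd_cf]
    refine (norm_sub_le _ _).trans ((add_le_add (far j hj h z hz μ ν)
      (far j hj h 0 (zero_mem_box j) μ ν)).trans ?_)
    have : 0 ≤ 4 * r0 * lc r0 (gd (mu l σ a)) x * (j + 1 : ℝ) ^ s := by positivity
    nlinarith

theorem l2_add {S : Finset St} {f : St → ℝ} {A w n : ℝ} (hA : 0 ≤ A) (hw : 0 ≤ w) (hn : 0 ≤ n)
    (hS : (S.card : ℝ) = n ^ 2) (h : ∑ x ∈ S, f x ^ 2 ≤ A ^ 2) :
    ∑ x ∈ S, (f x + w) ^ 2 ≤ (A + n * w) ^ 2 := by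
  have := (le_abs_self _).trans (cs S (g := fun _ => w) hA (mul_nonneg hn hw) h
    (by rw [sum_const, nsmul_eq_mul, hS, mul_pow]))
  simp only [add_sq, sum_add_distrib, mul_assoc, ← mul_sum, sum_const, nsmul_eq_mul, hS] at this ⊢
  nlinarith

theorem l2_mu (h : Lin l r c τ m σ) (hg : Grad l r g σ) (hr : 1000 ≤ r) (hl : r0 ≤ l)
    (hR : r / 3 + 1 ≤ R') (ha : Cw R' s δ a) :
    ∑ x ∈ box l, lc r0 (nd (mu l σ a)) x ^ 2 ≤ (9 * (2 * r0 + 1) ^ 2 * (r : ℝ) ^ (3 + s) * δ) ^ 2 ∧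
    ∑ x ∈ box l, (4 * r0 * lc r0 (gd (mu l σ a)) x) ^ 2 ≤
      (36 * r0 * (2 * r0 + 1) ^ 2 * g * (r : ℝ) ^ s * δ) ^ 2 ∧
    ∑ x ∈ box l, nd (mu l σ a) x ≤ (r : ℝ) ^ (5 + 2 * s) * δ ^ 2 := by
  have r1 : (1000 : ℝ) ≤ r := by exact_mod_cast hr
  have d0 := ha.nonneg
  have c0 : Cv (r / 3 + 1) (δ * (r : ℝ) ^ s) a := (ha _ hR).mono le_rfl (by
    have : ((r / 3 + 1 : ℕ) + 1 : ℝ) ≤ r := by exact_mod_cast (by omega : r / 3 + 1 + 1 ≤ r)
    gcongr)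
  have c1 : ∀ y ∈ box 1, Cv (r / 3) (δ * (r : ℝ) ^ s) (sh y a) := fun y hy => c0.sh hy
  have hL : LL l = 2 * l + 1 := rfl
  have sq : √((2 * r0 + 1 : ℝ) ^ 4) = (2 * r0 + 1 : ℝ) ^ 2 := by
    rw [show (2 * r0 + 1 : ℝ) ^ 4 = ((2 * r0 + 1) ^ 2) ^ 2 by ring, Real.sqrt_sq (by positivity)]
  have hU : ∀ U ⊆ box r0 + box l, U ⊆ box (1 * LL l + l) := fun U h => h.trans (box_add (by omega))
  refine ⟨(lc_sum (E := 9 * r ^ 3 * (δ * (r : ℝ) ^ s)) (Li.nd_nonneg _) fun U hu => ?_).trans_eq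
    (by rw [sq]; ring), ?_, (h.energy _ _ (c0.mono (by omega) le_rfl)).trans_eq (by ring)⟩
  · refine (blk_sum (Li.nd_nonneg _) (fun y hy => by
      simpa only [mu_sh, Li.nd_sh] using h.energy _ _ (c1 y hy)) (hU U hu)).trans ?_
    calc _ = 81 * (r : ℝ) ^ 5 * (δ * (r : ℝ) ^ s) ^ 2 := by push_cast; ring
      _ ≤ 81 * (r : ℝ) ^ 6 * (δ * (r : ℝ) ^ s) ^ 2 := by gcongr <;> [linarith; norm_num]
      _ = _ := by ring
  · simp only [mul_pow _ (lc _ _ _), ← mul_sum]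
    refine (mul_le_mul_of_nonneg_left (lc_sum (E := 9 * g * (δ * (r : ℝ) ^ s)) (gd_nonneg _)
      fun U hu => (blk_sum (gd_nonneg _) (fun y hy => gd_blk hg y (c1 y hy)) (hU U hu)).trans_eq
        (by push_cast; ring)) (sq_nonneg _)).trans_eq (by rw [sq]; ring)

theorem cv_pt (u : V) (x : St) : Cv 0 (√(nd u x)) (sh x u) := by
  have := cv_lc 0 u x
  rwa [lc, show box 0 = {0} by ext; simp [Li.mem_box, funext_iff], sum_singleton, zero_add] at this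

/-- the two parts of the push -/
theorem pk_parts (hk : ∀ x ∈ box l, Fm R s xb xk (k x)) (h : Lin l r c τ m σ) (hg : Grad l r g σ)
    (g0 : 0 ≤ g) (hp : PtC l r lam σ) (lam0 : 0 ≤ lam) (hr : 1000 ≤ r) (h0 : 1 ≤ r0) (hl : r0 ≤ l)
    (hR : r / 3 + (R / LL l + 1) ≤ R') (ha : Cw R' s δ a) (hb : Cw R' s δ' b) :
    ‖pkL l σ k a b‖ ≤ (r ^ (5 + 2 * s) * xb + cpk l r r0 s g lam * xk / 2) * δ * δ' := by
  have d0 := ha.nonneg
  have d1 := hb.nonneg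
  have b0 := (hk 0 (zero_mem_box l)).xb0
  have k0 := (hk 0 (zero_mem_box l)).xk0
  have hR1 : r / 3 + 1 ≤ R' := le_trans (by gcongr; exact Nat.le_add_left _ _) hR
  obtain ⟨a1, a2, a3⟩ := l2_mu (r0 := r0) h hg hr hl hR1 ha
  obtain ⟨b1, b2, b3⟩ := l2_mu (r0 := r0) h hg hr hl hR1 hb
  obtain ⟨w, hw⟩ : ∃ w, w = lam * (r / r0 : ℝ) ^ s := ⟨_, rfl⟩
  have w0 : 0 ≤ w := by rw [hw]; positivity
  have hS : ((box l).card : ℝ) = ((LL l : ℝ) ^ 2) ^ 2 := by rw [card_box_LL]; ring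
  have e : ∀ (k : CF) u v, k u v = k (cc u) (cc v) + ((k (u - cc u) v - k (cc (u - cc u)) (cc v)) +
      (k (cc u) (v - cc v) - k (cc (cc u)) (cc (v - cc v)))) := fun k u v => by
    have z : ∀ u, cc (u - cc u) = 0 := fun u => by
      rw [cc_eq', map_sub, ← cc_eq', ← cc_eq', cc_cc, sub_self]
    simp [z]
  have key : ∀ x ∈ box l, ‖k x (sh x (mu l σ a)) (sh x (mu l σ b))‖ ≤
      xb * (√(nd (mu l σ a) x) * √(nd (mu l σ b) x)) + xk *
      ((4 * r0 * lc r0 (gd (mu l σ a)) x + 2 * (w * δ)) * (lc r0 (nd (mu l σ b)) x + w * δ') +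
       (lc r0 (nd (mu l σ a)) x + w * δ) * (4 * r0 * lc r0 (gd (mu l σ b)) x + 2 * (w * δ'))) :=
    fun x hx => by
      obtain ⟨p1, p2⟩ := cw_mu hp lam0 hr h0 hl hR ha hx
      obtain ⟨q1, q2⟩ := cw_mu hp lam0 hr h0 hl hR hb hx
      rw [← hw] at p1 p2 q1 q2
      rw [e]
      refine (norm_add_le _ _).trans ((add_le_add ((hk x hx).cb _ _ _ _ (cv_pt _ x) (cv_pt _ x))
        ((norm_add_le _ _).trans (add_le_add ((hk x hx).ck _ _ _ _ p2 q1)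
          ((hk x hx).ck _ _ _ _ (Cw.cc p1.zero R s) q2)))).trans_eq (by ring))
  have s1 := (le_abs_self _).trans (cs (box l) (f := fun x => √(nd (mu l σ a) x))
    (g := fun x => √(nd (mu l σ b) x)) (A := √(r ^ (5 + 2 * s)) * δ) (B := √(r ^ (5 + 2 * s)) * δ')
    (by positivity) (by positivity)
    (by simpa only [mul_pow, Real.sq_sqrt (Li.nd_nonneg _ _),
      Real.sq_sqrt (by positivity : (0 : ℝ) ≤ r ^ (5 + 2 * s))] using a3)
    (by simpa only [mul_pow, Real.sq_sqrt (Li.nd_nonneg _ _),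
      Real.sq_sqrt (by positivity : (0 : ℝ) ≤ r ^ (5 + 2 * s))] using b3))
  rw [mul_mul_mul_comm, Real.mul_self_sqrt (by positivity)] at s1
  have s2 := (le_abs_self _).trans (cs (box l) (by positivity) (by positivity)
    (l2_add (w := 2 * (w * δ)) (by positivity) (by positivity) (by positivity) hS a2)
    (l2_add (w := w * δ') (by positivity) (by positivity) (by positivity) hS b1))
  have s3 := (le_abs_self _).trans (cs (box l) (by positivity) (by positivity)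
    (l2_add (w := w * δ) (by positivity) (by positivity) (by positivity) hS a1)
    (l2_add (w := 2 * (w * δ')) (by positivity) (by positivity) (by positivity) hS b2))
  rw [pkL_apply]
  refine (norm_sum_le _ _).trans ((sum_le_sum key).trans ?_)
  rw [sum_add_distrib, ← mul_sum, ← mul_sum, sum_add_distrib]
  refine (add_le_add (mul_le_mul_of_nonneg_left s1 b0)
    (mul_le_mul_of_nonneg_left (add_le_add s2 s3) k0)).trans_eq ?_
  simp only [cpk, mul_assoc ((LL l : ℝ) ^ 2), ← hw]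
  ring

/-- the minimiser of a field of constant curvature has almost constant curvature -/
def CsE (l : ℕ) (t : ℝ) (σ : V →ₗ[ℝ] V) : Prop := ∀ a δ, Cv 0 δ a → ∀ R x,
  Cv R (t * δ) (sh x (mu l σ (cc a)) - ((LL l : ℝ) ^ 2)⁻¹ • cc a)

theorem cse_main (c : ℕ) : ∃ c1 : ℕ, ∀ (l r : ℕ) (τ : ℝ) (m : BF) (σ : V →ₗ[ℝ] V), c1 ≤ l →
    0 ≤ τ → Lin l r c τ m σ → CsE l (16 * (LL l : ℝ) ^ c1 * τ) σ := by
  obtain ⟨c1, h1⟩ := mu_cst c
  refine ⟨c1, fun l r τ m σ hl t0 h a δ ha R x => ?_⟩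
  obtain ⟨u, h2, -, h3⟩ := h1 l r τ m σ (cc a) hl t0 h (cst_cf a)
  have q : √(nd (cc a) 0) ≤ 4 * δ := Real.sqrt_le_iff.2 ⟨by linarith [ha.nonneg],
    (nd_le_of_cv (cv_cf ha 0) (zero_mem_box 0)).trans_eq (by ring)⟩
  have c2 : Cv R (4 * ((LL l : ℝ) ^ c1 * τ * (4 * δ))) (sh x (mu l σ (cc a) - u)) :=
    Sm.cv fun e _ => (h3 _).trans (by gcongr)
  intro z hz μ ν
  have := c2 z hz μ ν
  rw [RG.dd_sh, RG.dd_sub, h2, La.Q.dd_smul, show dd (cc a) _ = _ from cst_cf a _] at this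
  rw [RG.dd_sub, RG.dd_sh, La.Q.dd_smul, show dd (cc a) _ = _ from cst_cf a _]
  exact this.trans_eq (by ring)

/-- the push averages the values on constant curvature -/
theorem pk_cst {t κ : ℝ} (h : CsE l t σ) (hk : ∀ x ∈ box l, Cc R κ (k x)) (ha : Cv 0 δ a)
    (hb : Cv 0 δ' b) : ‖pkL l σ k (cc a) (cc b) - ((LL l : ℝ) ^ 4)⁻¹ • ∑ x ∈ box l,
      k x (cc a) (cc b)‖ ≤ (LL l : ℝ) ^ 4 * t * (t + 2) * κ * δ * δ' := by
  have L0 := LL_posR l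
  have L1 : (1 : ℝ) ≤ LL l := by exact_mod_cast Li.LL_pos l
  have c1 : ∀ {a δ}, Cv 0 δ a → Cv R δ (((LL l : ℝ) ^ 2)⁻¹ • cc a) := fun ha =>
    (cv_smul' _ (cv_cf ha R)).mono le_rfl (mul_le_of_le_one_left ha.nonneg (by
      rw [abs_of_pos (by positivity)]
      exact inv_le_one_of_one_le₀ (one_le_pow₀ L1)))
  rw [pkL_apply, smul_sum, ← sum_sub_distrib]
  refine (norm_sum_le _ _).trans ((sum_le_card_nsmul _ _ (t * (t + 2) * κ * δ * δ')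
    fun x hx => ?_).trans_eq (by rw [nsmul_eq_mul, card_box_LL]; ring))
  obtain ⟨u, hu⟩ : ∃ u, u = sh x (mu l σ (cc a)) - ((LL l : ℝ) ^ 2)⁻¹ • cc a := ⟨_, rfl⟩
  obtain ⟨v, hv⟩ : ∃ v, v = sh x (mu l σ (cc b)) - ((LL l : ℝ) ^ 2)⁻¹ • cc b := ⟨_, rfl⟩
  have e : k x (sh x (mu l σ (cc a))) (sh x (mu l σ (cc b))) - ((LL l : ℝ) ^ 4)⁻¹ •
      k x (cc a) (cc b) = k x u v + k x u (((LL l : ℝ) ^ 2)⁻¹ • cc b) +
        k x (((LL l : ℝ) ^ 2)⁻¹ • cc a) v := by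
    rw [show ((LL l : ℝ) ^ 4)⁻¹ = ((LL l : ℝ) ^ 2)⁻¹ * ((LL l : ℝ) ^ 2)⁻¹ by field_simp, mul_smul]
    simp only [hu, hv, map_sub, map_smul, LinearMap.sub_apply, LinearMap.smul_apply]
    abel
  have p := hu ▸ h a δ ha R x
  have q := hv ▸ h b δ' hb R x
  rw [e]
  exact norm_add₃_le.trans ((add_le_add_three (hk x hx _ _ _ _ p q) (hk x hx _ _ _ _ p (c1 hb))
    (hk x hx _ _ _ _ (c1 ha) q)).trans_eq (by ring))

theorem avg_le {f : St → ℂ} {M : ℝ} (h : ∀ x ∈ box l, ‖f x‖ ≤ M) :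
    ‖((LL l : ℝ) ^ 4)⁻¹ • ∑ x ∈ box l, f x‖ ≤ M := by
  have L0 := LL_posR l
  rw [norm_smul, Real.norm_of_nonneg (by positivity), inv_mul_le_iff₀ (by positivity),
    ← card_box_LL, ← nsmul_eq_mul]
  exact (norm_sum_le _ _).trans (sum_le_card_nsmul _ _ _ h)

/-- the linear push -/
theorem fm_push {t : ℝ} (hk : ∀ x ∈ box l, Fm R s xb xk (k x)) (h : Lin l r c τ m σ)
    (hg : Grad l r g σ) (g0 : 0 ≤ g) (hp : PtC l r lam σ) (lam0 : 0 ≤ lam) (hr : 1000 ≤ r)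
    (h0 : 1 ≤ r0) (hl : r0 ≤ l) (hR : r / 3 + (R / LL l + 1) ≤ R') (ht : CsE l t σ) :
    Fm R' s (xb + (LL l : ℝ) ^ 4 * t * (t + 2) * (xb + xk))
      (2 * r ^ (5 + 2 * s) * xb + cpk l r r0 s g lam * xk) (pkL l σ k) where
  symm a b := by
    simp only [pkL_apply]
    exact sum_congr rfl fun x hx => (hk x hx).symm _ _
  cb a b δ δ' ha hb := by
    have h1 := pk_cst ht (fun x hx => (hk x hx).cc) ha hb
    have h2 := avg_le fun x hx => (hk x hx).cb a b δ δ' ha hb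
    have := norm_le_norm_add_norm_sub' (pkL l σ k (cc a) (cc b))
      (((LL l : ℝ) ^ 4)⁻¹ • ∑ x ∈ box l, k x (cc a) (cc b))
    linarith
  ck a b δ δ' ha hb := (norm_sub_le _ _).trans ((add_le_add
    (pk_parts hk h hg g0 hp lam0 hr h0 hl hR ha hb) (pk_parts hk h hg g0 hp lam0 hr h0 hl hR
      (Cw.cc ha.zero R' s) (Cw.cc hb.zero R' s))).trans_eq (by ring))

end Pool.Agent.Lib.MP_7f377f_mp.RG.Q4
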