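import Pool.Agent.Lib.MP_7f377f_mp.Q4PsB
import Pool.Agent.Lib.MP_7f377f_mp.Q4PsC

/-! The push of a small local term through one renormalisation step. -/

noncomputable section

namespace Pool.Agent.Lib.MP_7f377f_mp.RG.Q4

open Finset MeasureTheory La La.Q

variable {Z : Type} [MeasurableSpace Z] {ν : Measure Z} {l r r0 R R' s c : ℕ}
  {τ g lam xb xk xr δ e ε d ρ ρ' κ : ℝ} {m : BF} {σ : V →ₗ[ℝ] V} {k : St → CF}
  {G : St → Z → Fld → Fld} {φ ψ : St → Fld → ℂ} {A B : Fld} {x : St}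

/-- the linear minimiser seen from `x` -/
def lm (l : ℕ) (σ : V →ₗ[ℝ] V) (x : St) : Fld →ₗ[ℂ] Fld where
  toFun B := sh x (cxL (mu l σ) B)
  map_add' A B := by rw [cxL_add]; rfl
  map_smul' t A := by rw [cxL_smul]; rfl

theorem reF_lm (l : ℕ) (σ : V →ₗ[ℝ] V) (x : St) (B : Fld) (j : Fin 3) :
    reF (lm l σ x B) j = sh x (mu l σ (reF B j)) := by rw [← reF_cxL]; rfl

theorem imF_lm (l : ℕ) (σ : V →ₗ[ℝ] V) (x : St) (B : Fld) (j : Fin 3) :
    imF (lm l σ x B) j = sh x (mu l σ (imF B j)) := by rw [← imF_cxL]; rfl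

theorem real_lm (hB : RealF B) : RealF (lm l σ x B) := fun _ => cxL_real _ hB _

theorem PtC.lm (hp : PtC l r lam σ) (hR : r / 3 + (R / LL l + 1) ≤ R') (hx : x ∈ box l)
    (hB : Cv R' d B) : Cv R (2 * lam * d) (lm l σ x B) := fun y hy μ ν => by
  have h1 := fun j => hp.sh ((hB.reF j).mono hR le_rfl) hx y hy μ ν
  have h2 := fun j => hp.sh ((hB.imF j).mono hR le_rfl) hx y hy μ ν
  refine (pi_norm_le_iff_of_nonneg (by linarith [norm_nonneg _ |>.trans (h1 0)])).2 fun j => ?_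
  have a := h1 j
  have b := h2 j
  rw [← reF_lm] at a
  rw [← imF_lm] at b
  exact (Complex.norm_le_abs_re_add_abs_im _).trans ((add_le_add a b).trans_eq (by ring))

theorem qf_pkL (k : St → CF) (B : Fld) :
    qf (pkL l σ k) B = ∑ x ∈ box l, qf (k x) (lm l σ x B) := by
  simp only [qf, pkL_apply, reF_lm]
  exact sum_comm

theorem Fam.cv (F : Fam ν l R R' σ δ e ε G) (hp : PtC l r lam σ)
    (hR : r / 3 + (R / LL l + 1) ≤ R') (hx : x ∈ box l) (z : Z) (hB : Cv R' d B) (hd : d ≤ δ) :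
    Cv R (2 * lam * d + (e * d + ε)) (G x z B) := by
  simpa [lm] using (hp.lm hR hx hB).add (F.bd x hx z B d hB hd)

theorem Fam.la (F : Fam ν l R R' σ δ e ε G) (hp : PtC l r lam σ)
    (hR : r / 3 + (R / LL l + 1) ≤ R') (h : ∀ x ∈ box l, LA R ρ (φ x)) (hd : ρ' ≤ δ)
    (hρ : 2 * lam * ρ' + (e * ρ' + ε) ≤ ρ) : LA R' ρ' (push ν l G φ) where
  loc A B hA hB c q := by
    have c' : Cv R' ρ' B := fun x hx μ ν => q x hx μ ν ▸ c x hx μ ν
    refine integral_congr_ae (ae_of_all _ fun z => sum_congr rfl fun x hx => ?_)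
    exact (h x hx).loc _ _ (F.real x hx z A hA (c.mono le_rfl hd))
      (F.real x hx z B hB (c'.mono le_rfl hd))
      ((F.cv hp hR hx z c hd).mono le_rfl hρ) (F.loc x hx z A B hA hB (c.mono le_rfl hd) q)
  ad u B hB c c' := by
    obtain ⟨T, h1, h2, h3⟩ := F.ad u
    rw [push, ← h2.integral_comp h1]
    refine integral_congr_ae (ae_of_all _ fun z => sum_congr rfl fun x hx => ?_)
    have q := h3 x hx z B hB (c.mono le_rfl hd) (c'.mono le_rfl hd)
    have r1 := F.real x hx z B hB (c.mono le_rfl hd)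
    have c1 := (F.cv hp hR hx (T z) c' hd).mono le_rfl hρ
    exact ((h x hx).loc _ _ (F.real x hx _ _ (real_ad u hB) (c'.mono le_rfl hd)) (real_ad u r1) c1
      q).trans ((h x hx).ad u _ r1 ((F.cv hp hR hx z c hd).mono le_rfl hρ)
        fun y hy μ ν => q y hy μ ν ▸ c1 y hy μ ν)

theorem diff_dd {Ω : Set ℂ} {f : ℂ → Fld} (h : ∀ e ∈ lbox (R + 1), DifferentiableOn ℂ (fun t => f t e) Ω)
    {y : St} (hy : y ∈ box R) (μ ν : Fin 4) : DifferentiableOn ℂ (fun t => dd (f t) y μ ν) Ω := by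
  have h1 := fun μ => h (y, μ) (RG.mem_lbox.2 (RG.box_mono R.le_succ hy))
  have h2 := fun μ ν => h (y + un μ, ν) (RG.mem_lbox.2 (add_un_mem_box hy μ))
  exact (((h1 μ).add (h2 μ ν)).sub (h2 ν μ)).sub (h1 ν)

theorem diff_lm (Ω : Set ℂ) (A B : Fld) (f : Lk) :
    DifferentiableOn ℂ (fun t : ℂ => lm l σ x (A + t • B) f) Ω := by
  simp only [map_add, map_smul]
  exact Ho.disc_line Ω _ _ f

theorem Fam.cu (F : Fam ν l R R' σ δ e ε G) (hp : PtC l r lam σ)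
    (hR : r / 3 + (R / LL l + 1) ≤ R') (hx : x ∈ box l) (z : Z) {η : Fin 3 → ℝ} (hη : Eta 1 η)
    {γ : Vx → Fld} (hγ : ∀ T, RealF (γ T)) (h0 : Cv R' d (γ o3))
    (hv : ∀ y ∈ box R', ∀ μ ν, cV η (fun T => dd (γ T) y μ ν) ≤ d) (d0 : 0 < d)
    (hd : 1001 * d ≤ δ) :
    Cu R η (32 * lam * d + 1001 * (1001 * e * d + ε)) fun T => G x z (γ T) := by
  have c0 : Cu R' η (2 * d) γ := ⟨hγ, fun y hy μ ν => (cN_le_cV hη _).trans (by
    linarith [h0 y hy μ ν, hv y hy μ ν])⟩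
  refine ⟨fun T => F.real x hx z _ (hγ T) ((c0.cv hη T).mono le_rfl (by linarith)),
    fun y hy μ ν => ?_⟩
  have big : ∀ B, Cv R' (1000 * d) (B - γ o3) → Cv R' (1001 * d) B := fun B hB => by
    simpa using (h0.add hB).mono le_rfl (by linarith : _ ≤ 1001 * d)
  have h1 := cV_lines (R := R') (f := fun B => dd (G x z B - lm l σ x B) y μ ν) (h := 1000 * d)
    (M := e * (1001 * d) + ε) hη (by linarith) (fun A B Ω hΩ q => diff_dd (fun f hf =>
      (F.hol x hx z A B Ω hΩ (fun t ht => (big _ (q t ht)).mono le_rfl hd) f hf).sub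
        (diff_lm Ω A B f)) hy μ ν)
    (fun B hB => F.bd x hx z B _ (big B hB) hd y hy μ ν) fun y hy μ ν =>
      (hv y hy μ ν).trans_eq (by ring)
  have h2 := cN_map_sup hη (fun j : box R' × Fin 4 × Fin 4 => ddA j.1 j.2.1 j.2.2)
    ((ddA y μ ν).comp (lm l σ x).toAddMonoidHom) (C := 2 * lam)
    (fun B d' hB => hp.lm hR hx (fun y hy μ ν => hB (⟨y, hy⟩, μ, ν)) y hy μ ν) γ
    fun j => c0.2 _ j.1.2 _ _
  have h3 := cN_add hη (fun T => dd (lm l σ x (γ T)) y μ ν)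
    fun T => dd (G x z (γ T) - lm l σ x (γ T)) y μ ν
  simp only [RG.dd_sub, add_sub_cancel] at h1 h3
  exact h3.trans ((add_le_add h2 h1).trans_eq (by ring))

variable [IsProbabilityMeasure ν]

theorem Fam.jc (F : Fam ν l R R' σ δ e ε G) (hp : PtC l r lam σ)
    (hR : r / 3 + (R / LL l + 1) ≤ R') (h : ∀ x ∈ box l, Ps R s ρ xb xk xr (ψ x)) (d0 : 0 < d)
    (hd : 1001 * d ≤ δ) {d1 : ℝ} (h1 : 32 * lam * d + 1001 * (1001 * e * d + ε) ≤ d1) (h2 : d1 < ρ) :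
    JC R' d d ((LL l : ℝ) ^ 4 * (192 * (xb + xk) * d1 ^ 2 + xr * (d1 / ρ) ^ 3)) (push ν l G ψ) := by
  intro η hη γ hγ h0 hv
  have c : ∀ x ∈ box l, ∀ z, Cu R η d1 fun T => G x z (γ T) := fun x hx z =>
    let q := F.cu hp hR hx z hη hγ h0 hv d0 hd; ⟨q.1, fun y hy μ ν => (q.2 y hy μ ν).trans h1⟩
  have c0 : ∀ T, Cv R' δ (γ T) := fun T y hy μ ν =>
    (norm_le_cN hη (fun T => dd (γ T) y μ ν) T).trans ((cN_le_cV hη _).trans (by
      linarith [h0 y hy μ ν, hv y hy μ ν]))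
  refine (cN_integral ν hη (fun z T => ∑ x ∈ box l, ψ x (G x z (γ T))) (fun _ => _)
    (fun T => (Finset.measurable_fun_sum _ fun x hx => (h x hx).measurable h2
      (F.meas x hx _ (c0 T))
      fun z => ⟨(c x hx z).1 T, (c x hx z).cv hη T⟩).aestronglyMeasurable) (integrable_const _)
    (ae_of_all _ fun z => (cN_sum hη _ _).trans (sum_le_card_nsmul _ _ _ fun x hx =>
      (h x hx).cN hη (c x hx z) h2.le))).trans_eq ?_
  simp [card_box_LL, mul_add]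

theorem Fam.integrable (F : Fam ν l R R' σ δ e ε G) (hp : PtC l r lam σ)
    (hR : r / 3 + (R / LL l + 1) ≤ R') (h : ∀ x ∈ box l, Ps R s ρ xb xk xr (ψ x)) (hB : RealF B)
    (c : Cv R' d B) (hd : d ≤ δ) (hρ : 2 * lam * d + (e * d + ε) < ρ) :
    Integrable (fun z => ∑ x ∈ box l, ψ x (G x z B)) ν :=
  integrable_finsetSum _ fun x hx => Integrable.of_bound ((h x hx).measurable hρ
    (F.meas x hx _ (c.mono le_rfl hd)) fun z => ⟨F.real x hx z B hB (c.mono le_rfl hd),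
      F.cv hp hR hx z c hd⟩).aestronglyMeasurable _ (ae_of_all _ fun z =>
        (h x hx).bd (F.real x hx z B hB (c.mono le_rfl hd)) (F.cv hp hR hx z c hd) hρ.le)

/-- the correction to the linear push of a form -/
def corr (ν : Measure Z) (l : ℕ) (σ : V →ₗ[ℝ] V) (G : St → Z → Fld → Fld) (k : St → CF)
    (B : Fld) : ℂ :=
  ∫ z, ∑ x ∈ box l, (cK (k x) (G x z B) (G x z B) - cK (k x) (lm l σ x B) (lm l σ x B)) ∂ν

theorem Fam.corr_jc (F : Fam ν l R R' σ δ e ε G) (hp : PtC l r lam σ)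
    (hR : r / 3 + (R / LL l + 1) ≤ R') (hk : ∀ x ∈ box l, Cc R κ (k x)) (h0 : 0 < δ) :
    JC R' (δ / 2 / 1000) (δ / 2) (1001 * ((LL l : ℝ) ^ 4 * (24 * κ * (e * δ + ε) *
      (4 * lam * δ + (e * δ + ε))))) (corr ν l σ G k) := by
  have c : ∀ {B}, InT R' (δ / 2) (δ / 2) B → Cv R' δ B := fun h => h.cv.mono le_rfl (by linarith)
  have bd : ∀ B, Cv R' δ B → ∀ z, ‖∑ x ∈ box l, (cK (k x) (G x z B) (G x z B) -
      cK (k x) (lm l σ x B) (lm l σ x B))‖ ≤ (LL l : ℝ) ^ 4 * (24 * κ * (e * δ + ε) *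
        (4 * lam * δ + (e * δ + ε))) := fun B hB z => by
    refine (norm_sum_le _ _).trans ((sum_le_card_nsmul _ _ _ fun x hx => ?_).trans_eq
      (by rw [nsmul_eq_mul, card_box_LL]))
    have q : cK (k x) (G x z B) (G x z B) - cK (k x) (lm l σ x B) (lm l σ x B) =
        cK (k x) (G x z B - lm l σ x B) (G x z B) +
          cK (k x) (lm l σ x B) (G x z B - lm l σ x B) := by
      simp only [cK, cx_sub_left, cx_sub_right]
      ring
    rw [q]
    exact (norm_add_le _ _).trans ((add_le_add ((hk x hx).cK (F.bd x hx z B δ hB le_rfl)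
      (F.cv hp hR hx z hB le_rfl)) ((hk x hx).cK (hp.lm hR hx hB)
        (F.bd x hx z B δ hB le_rfl))).trans_eq (by ring))
  refine jc_lines (by positivity) (fun A B Ω hΩ q => hol_integral ν hΩ (fun z => ?_)
    (fun t ht => ?_) fun t ht => bd _ (c (q t ht))) fun B hB => ?_
  · refine DifferentiableOn.fun_sum fun x hx => ?_
    have a := F.hol x hx z A B Ω hΩ fun t ht => c (q t ht)
    have b := fun f (_ : f ∈ lbox (R + 1)) => diff_lm (l := l) (σ := σ) (x := x) Ω A B f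
    have p := (hk x hx).re.rng
    have p' := (hk x hx).im.rng
    exact ((diff_cx p a a).add ((diff_cx p' a a).const_mul _)).sub
      ((diff_cx p b b).add ((diff_cx p' b b).const_mul _))
  · refine (Finset.measurable_fun_sum _ fun x hx => ?_).aestronglyMeasurable
    have a := F.meas x hx _ (c (q t ht))
    exact ((measurable_cx (hk x hx).re.rng a a).add
      ((measurable_cx (hk x hx).im.rng a a).const_mul _)).sub_const _
  · exact (norm_integral_le_of_norm_le_const (μ := ν) (ae_of_all _ (bd B (c hB)))).trans_eq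
      (by simp)

theorem Fam.corr_eq (F : Fam ν l R R' σ δ e ε G) (hp : PtC l r lam σ)
    (hR : r / 3 + (R / LL l + 1) ≤ R') (hk : ∀ x ∈ box l, Fm R s xb xk (k x)) (hB : RealF B)
    (c : Cv R' δ B) :
    corr ν l σ G k B = push ν l G (fun x => qf (k x)) B - qf (pkL l σ k) B := by
  have p := (F.cv hp hR (zero_mem_box l) (nonempty_of_isProbabilityMeasure ν).some c le_rfl).nonneg
  have i := F.integrable hp hR (fun x hx => ((hk x hx).ps (ρ := 2 * lam * δ + (e * δ + ε) + 1)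
    (by linarith)).1) hB c le_rfl (by linarith)
  rw [corr, push, qf_pkL]
  rw [integral_congr_ae (g := fun z => ∑ x ∈ box l, qf (k x) (G x z B) -
    ∑ x ∈ box l, qf (k x) (lm l σ x B)) (ae_of_all _ fun z => by
      simp only [← sum_sub_distrib]
      exact sum_congr rfl fun x hx => by
        rw [qf_cK _ (F.real x hx z B hB c), qf_cK _ (real_lm hB)]),
    integral_sub i (integrable_const _)]
  simp

/-- radius of the image of the domain -/
def dOne (lam e ε ρ' : ℝ) : ℝ := 640 * lam * ρ' + 3 * 10 ^ 7 * e * ρ' + 1001 * ε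

/-- relative size of the nonlinear corrections -/
def eOne (l : ℕ) (lam e ε δ : ℝ) : ℝ :=
  2 * 10 ^ 13 * (LL l : ℝ) ^ 4 * (e + ε / δ) * (4 * lam + (e + ε / δ))

/-- the push lemma -/
theorem Fam.push_ps {t E0 E1 E2 : ℝ} (F : Fam ν l R R' σ δ e ε G)
    (hψ : ∀ x ∈ box l, Ps R s ρ xb xk xr (ψ x))
    (h : Lin l r c τ m σ) (hg : Grad l r g σ) (g0 : 0 ≤ g) (hp : PtC l r lam σ) (lam0 : 0 ≤ lam)
    (ht : CsE l t σ) (hr : 1000 ≤ r) (h0 : 1 ≤ r0) (hl : r0 ≤ l) (hR : r / 3 + (R / LL l + 1) ≤ R')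
    (e0 : 0 ≤ e) (ε0 : 0 ≤ ε) (ρ0 : 0 < ρ') (hδ : 20020 * ρ' ≤ δ) (hρ : dOne lam e ε ρ' < ρ)
    (h1 : (LL l : ℝ) ^ 4 * t * (t + 2) * (xb + xk) ≤ E0) (h2 : eOne l lam e ε δ * (xb + xk) ≤ E1)
    (h3 : (LL l : ℝ) ^ 4 * (dOne lam e ε ρ' / ρ) ^ 3 * xr ≤ E2) :
    Ps R' s ρ' (xb + (E0 + E1 + E2 / ρ' ^ 2)) (2 * r ^ (5 + 2 * s) * xb + cpk l r r0 s g lam * xk +
      2 * (R' + 1 : ℝ) ^ (2 * s) * (E1 + E2 / ρ' ^ 2)) (2 * 10 ^ 7 * E1 * ρ' ^ 3 / δ + 125 * E2)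
      (fun B => push ν l G ψ B - push ν l G ψ 0) ∧
    ∀ a b d d', Cv 0 d a → Cv 0 d' b → ‖qc (fun B => push ν l G ψ B - push ν l G ψ 0) a b -
      ((LL l : ℝ) ^ 4)⁻¹ • ∑ x ∈ box l, qc (ψ x) a b‖ ≤ (E0 + E1 + E2 / ρ' ^ 2) * d * d' := by
  choose! k k1 k2 k3 using fun x hx => (hψ x hx).elim
  have δ0 : 0 < δ := by linarith
  have p1 : 0 ≤ lam * ρ' := by positivity
  have p2 : 0 ≤ e * ρ' := by positivity
  have sm : 2 * lam * ρ' + (e * ρ' + ε) < ρ := by rw [dOne] at hρ; linarith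
  have p0 : 0 < ρ := by linarith
  have X0 := (k1 0 (zero_mem_box l)).cc.nonneg
  have r0' := (k3 0 (zero_mem_box l)).nonneg p0
  have D0 : 0 ≤ dOne lam e ε ρ' := by rw [dOne]; positivity
  have E20 : 0 ≤ E2 := le_trans (by positivity) h3
  have hrem : ∀ x ∈ box l, Ps R s ρ 0 0 xr fun B => ψ x B - qf (k x) B := fun x hx =>
    Ps.intro p0 ((hψ x hx).toLA.map₂ ((k1 x hx).cc.la ρ) (· - ·)) (fm_zero R s)
      (by simpa [qf] using k3 x hx)
  have kc := fun x hx => (k1 x hx).cc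
  obtain ⟨a1, a2⟩ := (fm_push k1 h hg g0 hp lam0 hr h0 hl hR ht).ps ρ0
  have la1 : LA R' ρ' (corr ν l σ G k) :=
    ((F.la hp hR (fun x hx => (kc x hx).la ρ) (by linarith) sm.le).map₂ a1.toLA
      (· - ·)).congr fun B hB c =>
      F.corr_eq hp hR k1 hB (c.mono le_rfl (by linarith))
  obtain ⟨M, hM⟩ : ∃ M, M = (LL l : ℝ) ^ 4 * (24 * (xb + xk) * (e * δ + ε) *
    (4 * lam * δ + (e * δ + ε))) := ⟨_, rfl⟩
  have M0 : 0 ≤ M := by rw [hM]; positivity
  have M1 : 8 * 10 ^ 11 * (M / δ ^ 2) ≤ E1 := by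
    refine le_trans ?_ h2
    have : M / δ ^ 2 = 24 * ((LL l : ℝ) ^ 4 * (e + ε / δ) * (4 * lam + (e + ε / δ)) * (xb + xk)) := by
      rw [hM]; field_simp
    have p : 0 ≤ (LL l : ℝ) ^ 4 * (e + ε / δ) * (4 * lam + (e + ε / δ)) * (xb + xk) := by positivity
    rw [this, eOne]
    linarith
  have b1 := ((hM ▸ F.corr_jc hp hR kc δ0).ps' la1 M0 (by positivity) (by linarith) ρ0
    (by linarith) s).mono' ρ0 (xb' := E1) (xk' := 2 * (R' + 1 : ℝ) ^ (2 * s) * E1)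
      (xr' := 2 * 10 ^ 7 * E1 * ρ' ^ 3 / δ) (le_of_eq_of_le (by field_simp; ring) M1)
      (calc _ = 2 * (R' + 1 : ℝ) ^ (2 * s) * (8 * 10 ^ 11 * (M / δ ^ 2)) := by field_simp; ring
        _ ≤ _ := by gcongr)
      (calc _ = 2 * 10 ^ 7 * (8 * 10 ^ 11 * (M / δ ^ 2)) * ρ' ^ 3 / δ := by field_simp; ring
        _ ≤ _ := by gcongr)
  have M2 : (LL l : ℝ) ^ 4 * (192 * (0 + 0) * dOne lam e ε ρ' ^ 2 +
      xr * (dOne lam e ε ρ' / ρ) ^ 3) ≤ E2 := le_of_eq_of_le (by ring) h3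
  have M3 : 100 * ((LL l : ℝ) ^ 4 * (192 * (0 + 0) * dOne lam e ε ρ' ^ 2 +
      xr * (dOne lam e ε ρ' / ρ) ^ 3)) / (20 * ρ') ^ 2 ≤ E2 / ρ' ^ 2 :=
    calc _ ≤ 400 * E2 / (20 * ρ') ^ 2 := by gcongr; norm_num
      _ = _ := by field_simp; ring
  have c1 := ((F.jc hp hR hrem (d := 20 * ρ') (by positivity) (by linarith)
    (by rw [dOne]; linarith) hρ).ps (F.la hp hR (fun x hx => (hrem x hx).toLA) (by linarith) sm.le)
    (by positivity) le_rfl ρ0 le_rfl s).mono' ρ0 M3 (mul_le_mul_of_nonneg_left M3 (by positivity))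
      (xr' := 125 * E2) (calc _ ≤ 10 ^ 6 * E2 * (ρ' / (20 * ρ')) ^ 3 := by gcongr
        _ = _ := by field_simp; ring)
  obtain ⟨d1, d2⟩ := b1.add c1 ρ0
  obtain ⟨f1, f2⟩ := a1.add d1 ρ0
  have key : ∀ B, RealF B → Cv R' ρ' B → push ν l G ψ B = qf (pkL l σ k) B + corr ν l σ G k B +
      push ν l G (fun x B => ψ x B - qf (k x) B) B := fun B hB c => by
    rw [F.corr_eq hp hR k1 hB (c.mono le_rfl (by linarith)), add_sub_cancel, push, push, push,
      ← integral_add (F.integrable hp hR (fun x hx => ((k1 x hx).ps p0).1) hB c (by linarith) sm)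
        (F.integrable hp hR hrem hB c (by linarith) sm)]
    simp
  obtain ⟨g1, g2⟩ := f1.congr ρ0 (ψ := fun B => push ν l G ψ B - push ν l G ψ 0) fun B hB c => by
    rw [key B hB c, key 0 realF_zero (Ho.cv_zero _ ρ0.le), a1.zero ρ0.le]
    ring
  refine ⟨g1.mono' ρ0 (by linarith) (by linarith) (by linarith), fun a b d d' ha hb => ?_⟩
  have := d1.cb a b d d' ha hb
  rw [qc, g2, f2, a2, add_sub_right_comm, sum_congr (f := fun x => qc (ψ x) a b) rfl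
    fun x hx => k2 x hx (cc a) (cc b)]
  refine (norm_add_le _ _).trans ((add_le_add (pk_cst ht kc ha hb) this).trans ?_)
  linarith [mul_le_mul_of_nonneg_right h1 (mul_nonneg ha.nonneg hb.nonneg)]

/-- the size of the constant of a push -/
theorem Fam.push_zero (F : Fam ν l R R' σ δ e ε G) (hψ : ∀ x ∈ box l, Ps R s ρ xb xk xr (ψ x))
    (h0 : 0 ≤ δ) (hρ : ε ≤ ρ) :
    ‖push ν l G ψ 0‖ ≤ (LL l : ℝ) ^ 4 * (3 * (xb + xk) * ε ^ 2 + xr * (ε / ρ) ^ 3) := by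
  refine (norm_integral_le_of_norm_le_const (μ := ν) (ae_of_all _ fun z => (norm_sum_le _ _).trans
    (sum_le_card_nsmul _ _ _ fun x hx => (hψ x hx).bd (d := ε)
      (F.real x hx z 0 realF_zero (Ho.cv_zero _ h0)) ?_ hρ))).trans_eq (by simp [card_box_LL, mul_add])
  simpa [show sh x (0 : Fld) = 0 from rfl] using F.bd x hx z 0 0 (Ho.cv_zero _ le_rfl) h0

end Pool.Agent.Lib.MP_7f377f_mp.RG.Q4
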