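import Pool.Agent.Lib.MP_7f377f_mp.Q4Def2
import Pool.Agent.Lib.MP_7f377f_mp.Q4PsD

/-! Holomorphy of the step in the data. -/

noncomputable section

namespace Pool.Agent.Lib.MP_7f377f_mp.Kit

open Metric Set Filter MeasureTheory Complex
open scoped Topology Real

/-- holomorphy of parametric integrals from a bound of the integral of the norm -/
theorem holo_L1 {Ω : Type} [MeasurableSpace Ω] (ν : Measure Ω) [SFinite ν]
    {f : ℂ → Ω → ℂ} {S : Set ℂ} (hS : IsOpen S) {M : ℝ}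
    (hm : ∀ t ∈ S, Measurable (f t)) (hd : ∀ ω, DifferentiableOn ℂ (fun t => f t ω) S)
    (hi : ∀ t ∈ S, Integrable (f t) ν) (hb : ∀ t ∈ S, ∫ ω, ‖f t ω‖ ∂ν ≤ M) :
    DifferentiableOn ℂ (fun t => ∫ ω, f t ω ∂ν) S := by
  intro t₀ ht₀
  obtain ⟨r, r0, hr⟩ := Metric.nhds_basis_closedBall.mem_iff.1 (hS.mem_nhds ht₀)
  lift r to NNReal using r0.le
  have cS : ∀ θ, circleMap t₀ r θ ∈ S := fun θ => hr (circleMap_mem_closedBall t₀ r0.le θ)
  have gm : Measurable (Function.uncurry fun θ ω => f (circleMap t₀ r θ) ω) :=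
    measurable_uncurry_of_continuous_of_measurable
      (fun ω => (hd ω).continuousOn.comp_continuous (continuous_circleMap t₀ r) cS)
      fun θ => hm _ (cS θ)
  have gi : Integrable (Function.uncurry fun θ ω => f (circleMap t₀ r θ) ω)
      ((volume.restrict (uIoc 0 (2 * π))).prod ν) := by
    have : IsFiniteMeasure (volume.restrict (uIoc 0 (2 * π))) :=
      isFiniteMeasure_restrict.2 (by simp [uIoc])
    refine (integrable_prod_iff gm.aestronglyMeasurable).2 ⟨.of_forall fun θ => hi _ (cS θ), ?_⟩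
    refine .of_bound gm.norm.stronglyMeasurable.integral_prod_right'.aestronglyMeasurable M
      (.of_forall fun θ => ?_)
    rw [Real.norm_of_nonneg (integral_nonneg fun _ => norm_nonneg _)]
    exact hb _ (cS θ)
  have ci : CircleIntegrable (fun t => ∫ ω, f t ω ∂ν) t₀ r :=
    intervalIntegrable_iff.2 gi.integral_prod_left
  have key : ∀ w ∈ ball t₀ r, ∫ ω, f w ω ∂ν =
      (2 * π * I : ℂ)⁻¹ • ∮ z in C(t₀, r), (z - w)⁻¹ • ∫ ω, f z ω ∂ν := by
    intro w hw
    have e : ∀ ω, f w ω = (2 * π * I : ℂ)⁻¹ • ∮ z in C(t₀, r), (z - w)⁻¹ • f z ω := fun ω =>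
      ((((hd ω).mono hr).diffContOnCl_ball subset_rfl).two_pi_i_inv_smul_circleIntegral_sub_inv_smul
        hw).symm
    have c : Continuous fun θ => deriv (circleMap t₀ r) θ * (circleMap t₀ r θ - w)⁻¹ := by
      simp only [deriv_circleMap]
      exact ((continuous_circleMap 0 r).mul_const _).mul (continuous_circleMap_inv hw)
    obtain ⟨C, hC⟩ :=
      isCompact_uIcc.exists_bound_of_continuousOn (c.continuousOn (s := uIcc 0 (2 * π)))
    have gi' := gi.bdd_mul (c := C) (c.measurable.comp measurable_fst).aestronglyMeasurable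
      (Measure.quasiMeasurePreserving_fst.ae
        ((ae_restrict_mem measurableSet_uIoc).mono fun θ h => hC θ (uIoc_subset_uIcc h)))
    rw [integral_congr_ae (.of_forall e), integral_smul]
    congr 1
    simp only [circleIntegral, smul_eq_mul, ← mul_assoc]
    rw [← intervalIntegral_integral_swap gi']
    simp only [integral_const_mul]
  have := (hasFPowerSeriesOn_cauchy_integral ci r0).analyticAt.differentiableAt
  exact (this.congr_of_eventuallyEq
    (mem_of_superset (ball_mem_nhds _ r0) key)).differentiableWithinAt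

end Pool.Agent.Lib.MP_7f377f_mp.Kit

namespace Pool.Agent.Lib.MP_7f377f_mp.RG.Q4

open Finset MeasureTheory
open scoped Classical

namespace Hl

open Sd

variable {Ω : Set ℂ}

/-- the smoothed mean of a holomorphic family -/
theorem smL_hol {Λ : Finset Lk} {ζ ε κ : ℝ} (b : Cf) (a : Fld) (P : Fld → Fld) (hζ : 0 < ζ)
    (o : IsOpen Ω) {K : ℂ → Conf → ℂ} (hm : ∀ s ∈ Ω, Measurable (K s))
    (hb : ∀ s ∈ Ω, ∀ U, ‖K s U‖ ≤ κ) (hd : ∀ U, DifferentiableOn ℂ (fun s => K s U) Ω) :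
    DifferentiableOn ℂ (fun s => smL Λ ζ ε b a P (K s)) Ω := by
  have := Smo.nuI_prob hζ
  unfold smL Smo.sm Smo.sI
  by_cases hi : Integrable (fun v : (Lk → E3) × (Λ → S3) => Complex.exp
    (Smo.sq (fun i : Λ => b i) (Smo.aL Λ ζ a P v.1) (Smo.mL Λ P) v.2)) ((nuI ζ).prod (Smo.hD Λ ε))
  · refine DifferentiableOn.div_const ?_ _
    have e := hi.1.ae_eq_mk
    have m := hi.1.measurable_mk
    have i := hi.congr e
    have k : ∀ s ∈ Ω, Measurable fun v : (Lk → E3) × (Λ → S3) => K s (xL Λ v.2) := fun s hs =>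
      (hm s hs).comp (meas_xL.comp measurable_snd)
    refine (Kit.holo_L1 _ (f := fun s v => hi.1.mk _ v * K s (xL Λ v.2)) o
      (fun s hs => m.mul (k s hs)) (fun v => (hd _).const_mul _)
      (fun s hs => i.mul_bdd (k s hs).aestronglyMeasurable (.of_forall fun v => hb s hs _))
      (M := ∫ v, ‖hi.1.mk _ v‖ * κ ∂(nuI ζ).prod (Smo.hD Λ ε)) fun s hs => ?_).congr fun s _ =>
        integral_congr_ae (e.mono fun v hv => congrArg (· * _) hv)
    refine integral_mono_of_nonneg (.of_forall fun _ => norm_nonneg _) (i.norm.mul_const _)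
      (.of_forall fun v => ?_)
    exact norm_mul_le_of_le le_rfl (hb s hs _)
  · simp only [Pi.one_apply, mul_one, integral_undef hi, div_zero]
    exact differentiableOn_const _

theorem ctr_hol {R : ℕ} {ρ : ℝ} {φ : ℂ → Fld → ℂ} {B : Fld}
    (h : RealF B → Cv R (2 * ρ) B → DifferentiableOn ℂ (fun s => φ s B) Ω) (h0 : 0 ≤ ρ) :
    DifferentiableOn ℂ (fun s => ctr R ρ (φ s) B) Ω := by
  unfold ctr ctf
  split_ifs with h1 h2
  · refine h h1 fun x hx μ ν => (pi_norm_le_iff_of_nonneg (by positivity)).2 fun k => ?_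
    refine abs_le_of_sq_le_sq' ?_ (by positivity) |>.2
    have := single_le_sum (f := fun k => ‖dd B x μ ν k‖ ^ 2) (fun _ _ => by positivity) (mem_univ k)
    nlinarith [h2 x hx μ ν]
  all_goals exact differentiableOn_const _

/-- holomorphic families of data -/
structure Hol (Ω : Set ℂ) (ψ : ℂ → Lx) (K : ℂ → Ac) : Prop where
  o : IsOpen Ω
  l : HolL Ω ψ
  a : HolA Ω K

variable {S : Sd} {ψ : ℂ → Lx} {K : ℂ → Ac} {b θ : ℝ} {k : Mj}

/-- the fields of the push are real and small -/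
def GxOk (S : Sd) : Prop := ∀ B, RealF B → Cv S.p'.R (2 * S.p'.ρ) B → ∀ x ∈ box S.l,
  (Measurable fun z => S.Gx x z B) ∧ ∀ z, RealF (S.Gx x z B) ∧ Cv S.p.R S.p.ρ (S.Gx x z B)

theorem gxOk (h : S.Nu 0) (ht : S.TOk)
    (F : Fam (nuI S.ζ) S.l S.p.R S.p'.R S.s (√S.g) (S.Q * √S.g) (S.Q ^ 2 * S.g) S.Gx) :
    GxOk S := fun B r c x hx => by
  obtain ⟨j, v, e, -, -, -, -, -, hl⟩ := ht
  have g0 := h.ok.g0
  have Q2 := h.cQ' (C := 100) (by norm_num)
  have u2 : S.Q ^ 4 * √S.g ≤ 1 := by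
    refine le_of_sq_le_sq ?_ zero_le_one
    rw [mul_pow, Real.sq_sqrt g0.le, ← pow_mul, one_pow]
    simpa using h.ok.Qg_le (i := 8) (j := 0) (by norm_num)
  have d3 : 2 * S.p'.ρ ≤ 3 * (S.Q ^ 3 * S.g) := by
    rw [p'_ρ]
    nlinarith [mul_le_mul_of_nonneg_left h.ok.g'g (pow_pos S.Q0 3).le]
  have u0 := Real.sqrt_nonneg S.g
  have u3 : 100 * (S.Q ^ 3 * √S.g) ≤ 1 := by
    nlinarith [mul_le_mul_of_nonneg_right Q2 (by positivity : 0 ≤ S.Q ^ 3 * √S.g)]
  have hd : 2 * S.p'.ρ ≤ √S.g := by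
    nlinarith [mul_le_mul_of_nonneg_right u3 u0, Real.mul_self_sqrt g0.le, pow_pos S.Q0 3]
  have hp : PtC S.l S.r 100⁻¹ S.s := fun B δ hB => (hl.pt B δ hB).mono le_rfl (by
    have L1 : (1 : ℝ) ≤ LL S.l := L1 S.toTd
    have := h.crL (C := 100) (k := 4) (by norm_num) (by omega)
    rw [div_le_iff₀ (by positivity)]
    have q : (LL S.l : ℝ) ≤ LL S.l * √(LL S.l) :=
      le_mul_of_one_le_right (by positivity) (Real.one_le_sqrt.2 L1)
    nlinarith [mul_le_mul_of_nonneg_right (this.trans q) hB.nonneg])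
  have hR : S.r / 3 + (S.p.R / LL S.l + 1) ≤ S.p'.R := by
    have := h.lens
    have : S.p.R / LL S.l ≤ S.D0 := Nat.div_le_of_le_mul (by rw [p_R]; omega)
    rw [p'_R]
    omega
  refine ⟨F.meas x hx B (c.mono le_rfl hd), fun z => ⟨F.real x hx z B r (c.mono le_rfl hd),
    (F.cv hp hR hx z c hd).mono le_rfl (le_trans ?_ h.ρ_ge)⟩⟩
  have e1 : S.Q * √S.g ≤ S.Q ^ 3 * √S.g := mul_le_mul_of_nonneg_right
    (le_self_pow₀ S.Q1 (by norm_num)) u0
  have e2 : 100 * (S.Q ^ 2 * S.g) ≤ S.Q ^ 3 * S.g := by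
    nlinarith [mul_le_mul_of_nonneg_right Q2 (by positivity : 0 ≤ S.Q ^ 2 * S.g)]
  nlinarith [mul_le_mul_of_nonneg_right (by linarith : S.Q * √S.g ≤ 100⁻¹) c.nonneg,
    mul_pos (pow_pos S.Q0 3) g0]

theorem sP_hol (h : Hol Ω ψ K) (y : St) (W : Cf) (z : Lk → E3) :
    DifferentiableOn ℂ (fun s => S.sP (S.ψy (ψ s) y) W z) Ω :=
  .fun_sum fun _ _ => h.l _ _

theorem pz_hol (g : GxOk S) (h : Hol Ω ψ K) (m : ∀ s ∈ Ω, S.Sml b θ k (ψ s) (K s)) (y : St)
    (B : Fld) : DifferentiableOn ℂ (fun s => S.pz (S.ψy (ψ s) y) B) Ω := by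
  have : IsProbabilityMeasure (nuI S.ζ) := Smo.nuI_prob S.Q0
  refine ctr_hol (fun r c => Kit.holo_integral _ h.o (M := (box S.l).card • b) (fun s hs => ?_)
    (.of_forall fun z => ⟨sP_hol h y _ z, fun s hs => ?_⟩)) (by unfold p' lv; positivity)
  · obtain ⟨_, _, _, q⟩ := (m s hs).pu.1
    exact (measurable_fun_sum _ fun x hx => (q _).2.comp (g B r c x hx).1).aestronglyMeasurable
  · exact (norm_sum_le _ _).trans (sum_le_card_nsmul _ _ _ fun x hx =>
      (m s hs).pu.2 _ _ ((g B r c x hx).2 z).1 ((g B r c x hx).2 z).2)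

theorem Fs_hol (h : Hol Ω ψ K) (m : ∀ s ∈ Ω, S.Sml b θ k (ψ s) (K s)) (y : St) (X : Finset St)
    (B : Fld) : DifferentiableOn ℂ (fun s => S.Fs (S.Ky (K s) y) X B) Ω := by
  refine (ctr_hol (fun _ _ => smL_hol _ _ _ S.Q0 h.o
    (κ := k (trS S.nf (up S.l y) X) ∅) (fun s hs => ?_) (fun s hs U => ?_)
    fun U => h.a _ _ _) (by unfold p' lv; positivity)).div_const _
  · exact ((m s hs).km.meas _ _).comp (measurable_pi_lambda _ fun _ => measurable_pi_apply _)
  · simpa [Ky, trA, Rg] using (m s hs).km.bd (trS S.nf (up S.l y) X) ∅ _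
      ((Mx.per_pc S.nf U).sh (-up S.l y))

section
variable (g : GxOk S) (h : Hol Ω ψ K) (m : ∀ s ∈ Ω, S.Sml b θ k (ψ s) (K s))
include g h m

theorem cX_hol (y : St) :
    DifferentiableOn ℂ (fun s => S.cX (S.ψy (ψ s) y) (S.Ky (K s) y)) Ω :=
  (((pz_hol g h m y 0).const_sub _).add (.fun_sum fun X _ => Fs_hol h m y X 0)).sub_const _

theorem PL_hol (y : St) (B : Fld) : DifferentiableOn ℂ (fun s => S.PL (ψ s) (K s) y B) Ω :=
  ((pz_hol g h m y B).sub (pz_hol g h m y 0)).sub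
    (.fun_sum fun X _ => (Fs_hol h m y X B).sub (Fs_hol h m y X 0))

theorem Ey_hol (y : St) : DifferentiableOn ℂ (fun s => S.Ey (ψ s) (K s) y) Ω :=
  ((cX_hol g h m y).const_add _).sub_const _

theorem jm_hol (W : Conf) (v : VB) (Z : Finset St) (j : Mk) :
    DifferentiableOn ℂ (fun s => S.jm (ψ s) (K s) W v Z j) Ω := by
  rcases j with y | q | q | Z' <;> simp only [Sd.jm]
  · split_ifs
    exacts [differentiableOn_const _, (((((sP_hol h y _ _).const_add _).neg.add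
      (pz_hol g h m y _)).add_const _).cexp.sub_const _)]
  · exact differentiableOn_const _
  · split_ifs
    exacts [differentiableOn_const _, (Fs_hol h m _ _ _).neg.cexp.sub_const _]
  · exact differentiableOn_const _

theorem hf_hol (W : Conf) (v : VB) (O : Finset Ob) (y : St) :
    DifferentiableOn ℂ (fun s => S.hf (ψ s) (K s) W v O y) Ω := by
  refine (DifferentiableOn.const_mul (.fun_finsetProd fun x _ =>
    ((h.l _ _).const_add _).neg.cexp.const_mul _) _).mul ((cX_hol g h m y).neg.add ?_).cexp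
  split_ifs
  exacts [differentiableOn_const _, (PL_hol g h m y _).const_add _]

theorem FO_hol (W : Conf) (O : Finset Ob) (v : VB) :
    DifferentiableOn ℂ (fun s => S.FO (ψ s) (K s) W O v) Ω := by
  refine ((DifferentiableOn.mul ?_ (.fun_finsetProd fun y _ => hf_hol g h m W v O y)).mul
    (.fun_finsetProd fun j _ => jm_hol g h m W v _ j)).mul_const _
  split_ifs
  exacts [.fun_finsetProd fun o _ => h.a _ _ _, differentiableOn_const _]

end

theorem chi_le (p : Pa) (W : Conf) (y : St) : ‖chi p W y‖ ≤ 1 ∧ ‖1 - chi p W y‖ ≤ 1 := by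
  unfold chi
  split_ifs <;> simp

theorem wf_le (W : Conf) (O : Finset Ob) : ‖S.wf W O‖ ≤ 1 := by
  rw [wf, norm_mul, norm_prod, norm_prod]
  exact mul_le_one₀ (prod_le_one (fun _ _ => norm_nonneg _) fun _ _ => (chi_le _ _ _).2)
    (prod_nonneg fun _ _ => norm_nonneg _)
    (prod_le_one (fun _ _ => norm_nonneg _) fun _ _ => (chi_le _ _ _).1)

/-- the terms of `Kr` vanish unless the indicators are supported -/
theorem Kr_eq (ψ : Lx) (K : Ac) (Y : Finset St) (c : Finset (Finset St)) (W : Conf) :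
    S.Kr ψ K Y c W = ∑ O ∈ ((clus S.sp S.obs Y).filter (S.lab W · = c)).filter (S.Sup W),
      S.wO ψ K W O * ∏ y ∈ S.Din Y \ c.biUnion id, chi S.p' W y := by
  rw [Sd.Kr, sum_mul]
  refine (sum_filter_of_ne fun O hO h => ?_).symm
  simp only [clus, mem_filter] at hO
  obtain ⟨⟨-, -, rfl⟩, rfl⟩ := hO
  refine ⟨left_ne_zero_of_mul (left_ne_zero_of_mul h), fun y hy => by_contra fun q => ?_⟩
  exact prod_ne_zero_iff.1 (right_ne_zero_of_mul h) y hy (if_neg q)

theorem hw_le (h : S.Ok) (W : Conf) (O : Finset Ob) : S.hw W O ≤ 1 := by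
  have := S.Q0
  have := h.g'0
  refine Real.exp_le_one_iff.2 (neg_nonpos.2 (add_nonneg (mul_nonneg ?_ ?_) ?_))
  · rw [p'_lam]; positivity
  · exact sum_nonneg fun _ _ => sum_nonneg fun _ _ => sum_nonneg fun _ _ => sum_nonneg fun _ _ =>
      norm_nonneg _
  · exact sum_nonneg fun _ _ => by rw [p'_G0, p'_G2]; positivity

theorem wo_nonneg (h : S.Nu 0) (ht : S.TOk) {ψ : Lx} {K : Ac} (m : S.Sml b θ k ψ K) (o : Ob) :
    0 ≤ S.wo b k o := by
  have := S.Q0
  have := h.ok.g0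
  have := h.ok.QM1
  have k0 := m.kn.1
  have b0 : 0 ≤ b := (norm_nonneg _).trans
    (m.pu.2 0 0 (fun _ _ => rfl) (Ho.cv_zero _ (by rw [p_ρ]; positivity)))
  obtain ⟨j, v, e, -, -, -, -, -, hl⟩ := ht
  rcases o with (o | o) | y | q | q | Z <;> simp only [wo, wk, θ1]
  · exact mul_nonneg (k0 _ _) (Real.exp_nonneg _)
  · positivity
  · positivity
  · positivity
  · exact div_nonneg (mul_nonneg (by norm_num) (k0 _ _)) (Nat.cast_nonneg _)
  · exact (Od.ok_of_lin hl.lin (by have := h.l_big; omega)).kd_nonneg _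

theorem chi_meas (p : Pa) (y : St) : Measurable fun W => chi p W y := by
  refine .ite ?_ measurable_const measurable_const
  simp only [Fq, Set.ofPred_forall]
  exact .iInter fun x => .iInter fun _ => .iInter fun μ => .iInter fun ν => measurableSet_le
    ((Mx.cont_fq x μ ν).measurable.comp (measurable_pi_lambda _ fun _ => measurable_pi_apply _))
    measurable_const

theorem KK_hol_of (g : GxOk S) (h : Hol Ω ψ K) (m : ∀ s ∈ Ω, S.Sml b θ k (ψ s) (K s))
    (hz : 0 < S.zm) {M : Finset Ob → ℝ} (Y : Finset St) (c : Finset (Finset St))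
    (hF : ∀ s ∈ Ω, ∀ W, Per S.n W → ∀ O ∈ clus S.sp S.obs Y, S.Sup W O →
      (Measurable fun v => S.FO (ψ s) (K s) W O (pcs S.n v)) ∧
      Integrable (fun v => S.FO (ψ s) (K s) W O (pcs S.n v)) (PB S.l (nu S.zm)) ∧
      ∫ v, ‖S.FO (ψ s) (K s) W O (pcs S.n v)‖ ∂PB S.l (nu S.zm) ≤ M O)
    (hK : ∀ s ∈ Ω, Measurable fun W => S.Kr (ψ s) (K s) Y c (pc S.n W)) (W : Conf) :
    DifferentiableOn ℂ (fun s => S.KK (ψ s) (K s) Y c W) Ω := by
  have := Smo.nu_prob hz
  refine Kit.holo_integral _ h.o (M := ∑ O ∈ clus S.sp S.obs Y, |M O|)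
    (fun s hs => ((hK s hs).comp (Mx.meas_gp S.n W)).aestronglyMeasurable) (.of_forall fun γ => ?_)
  obtain ⟨V, hV⟩ : ∃ V, V = pc S.n (gauge Inv.inv (pcs S.n γ) W) := ⟨_, rfl⟩
  have pV : Per S.n V := hV ▸ Mx.per_pc _ _
  simp only [← hV, Kr_eq]
  have q := fun s hs O (hO : O ∈ ((clus S.sp S.obs Y).filter (S.lab V · = c)).filter (S.Sup V)) =>
    hF s hs V pV O (mem_filter.1 (mem_filter.1 hO).1).1 (mem_filter.1 hO).2
  refine ⟨.fun_sum fun O hO => ((Kit.holo_L1 _ h.o (fun s hs => (q s hs O hO).1)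
    (fun v => FO_hol g h m V O _) (fun s hs => (q s hs O hO).2.1)
    fun s hs => (q s hs O hO).2.2).const_mul _).mul_const _, fun s hs => ?_⟩
  refine (norm_sum_le _ _).trans ((sum_le_sum fun O hO => ?_).trans
    (sum_le_sum_of_subset_of_nonneg ((filter_subset _ _).trans (filter_subset _ _))
      fun _ _ _ => abs_nonneg _))
  rw [norm_mul, wO, norm_mul, norm_prod]
  exact (mul_le_of_le_one_right (by positivity)
    (prod_le_one (fun _ _ => norm_nonneg _) fun _ _ => (chi_le _ _ _).1)).trans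
    ((mul_le_of_le_one_left (norm_nonneg _) (wf_le _ _)).trans
      ((norm_integral_le_integral_norm _).trans ((q s hs O hO).2.2.trans (le_abs_self _))))

end Hl

open Hl in
/-- S3 from the family of the push, measurability and the majorant of the holes -/
theorem step_hol_of (c : ℕ) (h1 : ∀ᶠ S in ev c,
      Fam (nuI S.ζ) S.l S.p.R S.p'.R S.s (√S.g) (S.Q * √S.g) (S.Q ^ 2 * S.g) S.Gx)
    (h2 : ∀ᶠ S in ev c, ∀ b θ k ψ K, S.Sml b θ k ψ K → ∀ O ⊆ S.obs,
      Measurable (fun x : Conf × VB => S.FO ψ K x.1 O x.2) ∧ (Measurable fun W => S.wf W O) ∧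
        (Measurable fun W => S.wO ψ K W O) ∧ ∀ c', MeasurableSet {W | S.lab W O = c'})
    (h3 : ∀ᶠ S in ev c, ∀ W, Per S.n W → ∀ O ⊆ S.obs, S.Sup W O →
      ∃ h : VB → ℝ, Integrable h (PB S.l (nu S.zm)) ∧ ∫ v, h v ∂PB S.l (nu S.zm) ≤ 1 ∧
        ∀ b θ k ψ K, S.Sml b θ k ψ K → ∀ᵐ v ∂PB S.l (nu S.zm),
          ‖S.FO ψ K W O (pcs S.n v)‖ ≤ (∏ o ∈ O, S.wo b k o) * S.hw W O * h v) :
    ∀ᶠ S in ev c, ∀ b θ k (Ω : Set ℂ) (ψ : ℂ → Lx) (K : ℂ → Ac), IsOpen Ω →
      (∀ t ∈ Ω, S.Sml b θ k (ψ t) (K t)) → HolL Ω ψ → HolA Ω K →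
        HolA Ω (fun t => S.KK (ψ t) (K t)) ∧ HolL Ω (fun t => S.PL (ψ t) (K t)) ∧
          ∀ y, DifferentiableOn ℂ (fun t => S.Ey (ψ t) (K t) y) Ω := by
  filter_upwards [h1, h2, h3, ev_nu' c 0, ev_tok] with S h1 h2 h3 h ht b θ k Ω ψ K o m l a
  have g := gxOk h ht h1
  have H : Hol Ω ψ K := ⟨o, l, a⟩
  refine ⟨fun Y c' W => KK_hol_of g H m (S.Q0.trans_le h.ok.ζ_zm)
    (M := fun O => ∏ o ∈ O, S.wo b k o) Y c' (fun s hs V pV O hO u => ?_) (fun s hs => ?_) W,
    PL_hol g H m, Ey_hol g H m⟩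
  · have sO : O ⊆ S.obs := mem_powerset.1 (mem_filter.1 hO).1
    obtain ⟨f, f1, f2, f3⟩ := h3 V pV O sO u
    have q := f3 b θ k _ _ (m s hs)
    have w := (h2 b θ k _ _ (m s hs) O sO).1.comp
      ((measurable_const (a := V)).prodMk (Mx.meas_pcs S.n))
    have i := (f1.const_mul _).mono' w.aestronglyMeasurable q
    refine ⟨w, i, (integral_mono_ae i.norm (f1.const_mul _) q).trans ?_⟩
    have p0 := prod_nonneg fun o (_ : o ∈ O) => wo_nonneg h ht (m s hs) o
    rw [integral_const_mul]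
    exact (mul_le_of_le_one_right (mul_nonneg p0 (Real.exp_nonneg _)) f2).trans
      (mul_le_of_le_one_right p0 (hw_le h.ok V O))
  · refine Measurable.comp (g := S.Kr (ψ s) (K s) Y c') ?_ (Cov.meas_pc _)
    refine Measurable.mul ?_ (measurable_fun_prod _ fun y _ => chi_meas _ y)
    simp only [sum_filter]
    refine measurable_fun_sum _ fun O hO => ?_
    obtain ⟨-, -, q1, q2⟩ := h2 b θ k _ _ (m s hs) O (mem_powerset.1 (mem_filter.1 hO).1)
    exact .ite (q2 c') q1 measurable_const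

end Pool.Agent.Lib.MP_7f377f_mp.RG.Q4
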