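import Pool.Agent.Lib.MP_7f377f_mp.Q4ExA
import Pool.Agent.Lib.MP_7f377f_mp.Q4Tau

/-! Level zero: the expansion in the sites where the cutoff vanishes, abstract part. -/

noncomputable section

namespace Pool.Agent.Lib.MP_7f377f_mp.RG.Q4

open Finset

section abs

variable {σ σ' Ω Ω' : Type} [DecidableEq σ] [DecidableEq σ'] [DecidableEq Ω] [DecidableEq Ω']

omit [DecidableEq Ω] in
theorem us_image {sp : Ω → Finset σ} {sp' : Ω' → Finset σ'} {e : Ω → Ω'} {φ : σ → σ'}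
    {O : Finset Ω} (h : ∀ o ∈ O, sp' (e o) = (sp o).image φ) :
    us sp' (O.image e) = (us sp O).image φ := by
  rw [us, us, image_biUnion, biUnion_image]
  exact biUnion_congr rfl h

theorem conn_image {sp : Ω → Finset σ} {sp' : Ω' → Finset σ'} {e : Ω → Ω'} {φ : σ → σ'}
    {O : Finset Ω} (he : Set.InjOn e O) (hφ : Set.InjOn φ (us sp O))
    (h : ∀ o ∈ O, sp' (e o) = (sp o).image φ) : Conn sp' (O.image e) ↔ Conn sp O := by
  have k : ∀ O1 ⊆ O, Disjoint (us sp' (O1.image e)) (us sp' (O.image e \ O1.image e)) ↔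
      Disjoint (us sp O1) (us sp (O \ O1)) := fun O1 h1 => by
    rw [← image_sdiff_of_injOn he h1, us_image fun o ho => h o (h1 ho),
      us_image fun o ho => h o (sdiff_subset ho)]
    refine ⟨Disjoint.of_image_finset, fun hd => disjoint_left.2 fun y hy hy' => ?_⟩
    obtain ⟨a, ha, rfl⟩ := mem_image.1 hy
    obtain ⟨b, hb, e2⟩ := mem_image.1 hy'
    obtain rfl := hφ (us_mono sp sdiff_subset hb) (us_mono sp h1 ha) e2
    exact disjoint_left.1 hd ha hb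
  refine and_congr image_nonempty ⟨fun H O1 h1 h2 h3 hd => H _ (image_subset_image h1)
    (h2.image e) (fun e2 => h3 ?_) ((k O1 h1).2 hd), fun H O2 h1 h2 h3 hd => ?_⟩
  · exact eq_of_subset_of_card_le h1 (by
      rw [← card_image_of_injOn he, ← e2]; exact card_image_le)
  · obtain ⟨O1, a, rfl⟩ := subset_image_iff.1 h1
    exact H O1 a (image_nonempty.1 h2) (fun e2 => h3 (by rw [e2])) ((k O1 a).1 hd)

/-- relabelling of sums over clusters -/
theorem sum_clus_image {M : Type} [AddCommMonoid M] {sp : Ω → Finset σ} {sp' : Ω' → Finset σ'}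
    {e : Ω → Ω'} {φ : σ → σ'} {Ω0 : Finset Ω} {Λ X : Finset σ} (he : Set.InjOn e Ω0)
    (hφ : Set.InjOn φ Λ) (hs : ∀ o ∈ Ω0, sp o ⊆ Λ) (hX : X ⊆ Λ)
    (h : ∀ o ∈ Ω0, sp' (e o) = (sp o).image φ) (F : Finset Ω' → M) :
    ∑ O ∈ clus sp' (Ω0.image e) (X.image φ), F O = ∑ O ∈ clus sp Ω0 X, F (O.image e) := by
  have k : ∀ O ⊆ Ω0, O.image e ∈ clus sp' (Ω0.image e) (X.image φ) ↔ O ∈ clus sp Ω0 X :=
    fun O hO => by
    have h1 : us sp O ⊆ Λ := us_sub.2 fun o ho => hs o (hO ho)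
    rw [mem_clus, mem_clus, conn_image (he.mono hO) (hφ.mono h1) fun o ho => h o (hO ho),
      us_image fun o ho => h o (hO ho), image_eq_image_iff_of_injOn hφ h1 hX]
    exact and_congr_left' ⟨fun _ => hO, image_subset_image⟩
  refine (sum_nbij _ (fun O hO => (k O (mem_clus.1 hO).1).2 hO) (fun O hO O' hO' e2 =>
    (image_eq_image_iff_of_injOn he (mem_clus.1 hO).1 (mem_clus.1 hO').1).1 e2) (fun O2 h2 => ?_)
    fun _ _ => rfl).symm
  obtain ⟨O, a, rfl⟩ := subset_image_iff.1 (mem_clus.1 h2).1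
  exact ⟨O, (k O a).1 h2, rfl⟩

/-- the weight of a family of marks -/
def iw (N : σ → Finset σ) (χ w : σ → ℂ) (O : Finset σ) : ℂ :=
  (∏ x ∈ O, (1 - χ x) * w x) * ∏ y ∈ us N O \ O, χ y * w y

open Classical in
/-- the activity -/
def iK (Λ : Finset σ) (N sp : σ → Finset σ) (χ w : σ → ℂ) (X : Finset σ)
    (c : Finset (Finset σ)) : ℂ :=
  ∑ O ∈ (clus sp Λ X).filter (fun O => {us N O} = c), iw N χ w O

theorem prod_eq_ZL {Λ : Finset σ} {N sp : σ → Finset σ}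
    (h : ∀ x ∈ Λ, x ∈ N x ∧ N x ⊆ sp x ∧ sp x ⊆ Λ) (χ w : σ → ℂ) :
    ∏ x ∈ Λ, w x = ZL Λ (iK Λ N sp χ w) fun x => χ x * w x := by
  have a1 : ∀ O ⊆ Λ, O ⊆ us N O := fun O hO x hx => mem_us.2 ⟨x, hx, (h x (hO hx)).1⟩
  have a2 : ∀ O ⊆ Λ, us N O ⊆ us sp O := fun O hO => us_sub.2 fun x hx =>
    (h x (hO hx)).2.1.trans (sp_sub_us sp hx)
  have a3 : ∀ O ⊆ Λ, us sp O ⊆ Λ := fun O hO => us_sub.2 fun x hx => (h x (hO hx)).2.2
  have := factorL sp Λ Λ (fun x hx => ⟨⟨x, (h x hx).2.1 (h x hx).1⟩, (h x hx).2.2⟩) (iw N χ w)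
    (by simp [iw, us]) (fun O hO O' hO' hd => ?_) (fun O => {us N O})
    (fun O _ O' _ _ => by simp [us_union]) (fun O hO => by simpa using a2 O hO)
    (fun O hO hc _ => mem_fams.2 ⟨by simpa using a2 O hO, by
      simpa using (hc.1.mono (a1 O hO)).ne_empty.symm, by simp⟩) fun x => χ x * w x
  · unfold iK
    rw [← this, prod_congr rfl fun x _ => show w x = (1 - χ x) * w x + χ x * w x by ring, prod_add]
    refine sum_congr rfl fun O hO => ?_
    have h1 := mem_powerset.1 hO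
    rw [iw, mul_assoc, singleton_biUnion, id, ← prod_union (disjoint_sdiff.mono_left sdiff_subset)]
    congr 2
    ext y
    have b1 := @a1 O h1 y
    have b2 : y ∈ us N O → y ∈ Λ := fun hy => a3 O h1 (a2 O h1 hy)
    simp only [mem_sdiff, mem_union]
    tauto
  · have hd' := hd.mono (a2 O hO) (a2 O' hO')
    rw [iw, iw, iw, prod_union (hd'.mono (a1 O hO) (a1 O' hO')), mul_mul_mul_comm,
      ← prod_union (hd'.mono sdiff_subset sdiff_subset), us_union]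
    congr 2
    ext y
    have b1 := @a1 O hO y
    have b2 := @a1 O' hO' y
    have b3 := @disjoint_left.1 hd' y
    simp only [mem_sdiff, mem_union]
    tauto

theorem iw_congr {N : σ → Finset σ} {χ w χ' w' : σ → ℂ} {O : Finset σ} (h0 : O ⊆ us N O)
    (h : ∀ y ∈ us N O, χ y = χ' y ∧ w y = w' y) : iw N χ w O = iw N χ' w' O := by
  unfold iw
  congr 1 <;> refine prod_congr rfl fun x hx => ?_
  · rw [(h x (h0 hx)).1, (h x (h0 hx)).2]
  · rw [(h x (sdiff_subset hx)).1, (h x (sdiff_subset hx)).2]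

theorem iw_le {N : σ → Finset σ} {χ w : σ → ℂ} {O : Finset σ} (h0 : O ⊆ us N O) {r : σ → ℝ}
    {b ε lam M : ℝ} (hb : 0 < b) (hε : 0 ≤ ε) (hM : 0 < M)
    (hw : ∀ y ∈ us N O, ‖w y‖ ≤ Real.exp (-(b * r y ^ 2)))
    (hχ : ∀ y ∈ us N O, χ y = 1 ∨ χ y = 0 ∧ ∃ q ∈ N y, ε < r q)
    (h1 : ∀ x ∈ O, ((N x).card : ℝ) ≤ M) (h2 : ∀ q, ((O.filter fun x => q ∈ N x).card : ℝ) ≤ M) :
    ‖iw N χ w O‖ ≤ (∏ _x ∈ O, Real.exp (M * lam ^ 2 / (2 * b) - b * ε ^ 2 / (2 * M))) *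
      Real.exp (-(lam * ∑ y ∈ us N O, r y)) := by
  by_cases h3 : ∀ x ∈ O, χ x = 0
  swap
  · push Not at h3
    obtain ⟨x, hx, h3⟩ := h3
    rw [iw, prod_eq_zero hx (by simp [(hχ x (h0 hx)).resolve_right fun a => h3 a.1])]
    simp only [zero_mul, norm_zero]
    positivity
  have c1 : ‖iw N χ w O‖ ≤ Real.exp (-(b * ∑ y ∈ us N O, r y ^ 2)) := by
    rw [mul_sum, ← sum_neg_distrib, Real.exp_sum, ← prod_sdiff h0, mul_comm, iw, norm_mul,
      norm_prod, norm_prod]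
    refine mul_le_mul (prod_le_prod (fun _ _ => norm_nonneg _) fun x hx => ?_)
      (prod_le_prod (fun _ _ => norm_nonneg _) fun x hx => ?_) (by positivity) (by positivity)
    · simpa [h3 x hx] using hw x (h0 hx)
    · rcases hχ x (sdiff_subset hx) with a | a
      · simpa [a] using hw x (sdiff_subset hx)
      · simp [a.1, Real.exp_nonneg]
  have c2 : O.card * ε ^ 2 ≤ M * ∑ y ∈ us N O, r y ^ 2 := by
    calc _ ≤ ∑ x ∈ O, ∑ q ∈ us N O, if q ∈ N x then r q ^ 2 else 0 := by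
          rw [← nsmul_eq_mul]
          refine card_nsmul_le_sum _ _ _ fun x hx => ?_
          obtain ⟨q, a, a'⟩ := ((hχ x (h0 hx)).resolve_left (by simp [h3 x hx])).2
          refine le_trans ?_ (single_le_sum (fun y _ => by positivity) (sp_sub_us N hx a))
          rw [if_pos a]
          exact pow_le_pow_left₀ hε a'.le 2
      _ ≤ _ := by
          rw [sum_comm, mul_sum]
          refine sum_le_sum fun q _ => ?_
          rw [← sum_filter, sum_const, nsmul_eq_mul]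
          exact mul_le_mul_of_nonneg_right (h2 q) (sq_nonneg _)
  have c3 : ((us N O).card : ℝ) ≤ O.card * M := by
    rw [← nsmul_eq_mul]
    refine le_trans ?_ (sum_le_card_nsmul _ _ _ h1)
    exact_mod_cast card_biUnion_le
  have c4 : lam * ∑ y ∈ us N O, r y ≤
      b / 2 * ∑ y ∈ us N O, r y ^ 2 + (us N O).card * (lam ^ 2 / (2 * b)) := by
    rw [mul_sum, mul_sum, ← nsmul_eq_mul, ← sum_const, ← sum_add_distrib]
    refine sum_le_sum fun y _ => ?_
    rw [← sub_nonneg, show b / 2 * r y ^ 2 + lam ^ 2 / (2 * b) - lam * r y =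
      (b * r y - lam) ^ 2 / (2 * b) by field_simp; ring]
    positivity
  rw [prod_const, ← Real.exp_nat_mul, ← Real.exp_add]
  refine c1.trans (Real.exp_le_exp.2 ?_)
  have c5 : O.card * (b * ε ^ 2 / (2 * M)) ≤ b / 2 * ∑ y ∈ us N O, r y ^ 2 := by
    rw [show O.card * (b * ε ^ 2 / (2 * M)) = b / 2 * (O.card * ε ^ 2 / M) by field_simp]
    exact mul_le_mul_of_nonneg_left ((div_le_iff₀' hM).2 c2) (by positivity)
  have c6 := mul_le_mul_of_nonneg_right c3 (by positivity : 0 ≤ lam ^ 2 / (2 * b))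
  have c7 : O.card * M * (lam ^ 2 / (2 * b)) = O.card * (M * lam ^ 2 / (2 * b)) := by ring
  rw [mul_sub]
  linarith

theorem sum_le_inj {α β : Type} [DecidableEq β] {s : Finset α} {t : Finset β} {f : α → ℝ}
    {g : β → ℝ} (e : α → β) (he : Set.InjOn e s) (ht : s.image e ⊆ t) (h : ∀ a ∈ s, f a ≤ g (e a))
    (hg : ∀ b ∈ t, 0 ≤ g b) : ∑ a ∈ s, f a ≤ ∑ b ∈ t, g b :=
  ((sum_le_sum h).trans_eq (sum_image he).symm).trans
    (sum_le_sum_of_subset_of_nonneg ht fun b hb _ => hg b hb)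

open Classical in
/-- the majorant -/
def ik (Λ : Finset σ) (N sp : σ → Finset σ) (γ : ℝ) (X : Finset σ) (c : Finset (Finset σ)) : ℝ :=
  ∑ O ∈ (clus sp Λ X).filter (fun O => {us N O} = c), ∏ _x ∈ O, Real.exp (-γ)

theorem ik_nonneg (Λ : Finset σ) (N sp : σ → Finset σ) (γ : ℝ) (X : Finset σ)
    (c : Finset (Finset σ)) : 0 ≤ ik Λ N sp γ X c :=
  sum_nonneg fun _ _ => prod_nonneg fun _ _ => Real.exp_nonneg _

open Classical in
theorem ik_sum (Λ : Finset σ) (N sp : σ → Finset σ) (γ : ℝ)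
    {F : Finset σ → Finset (Finset σ) → ℝ} (hF : ∀ X c, 0 ≤ F X c) (x : σ) :
    ∑ o ∈ (lps Λ).filter (fun o => x ∈ o.1), ik Λ N sp γ o.1 o.2 * F o.1 o.2 ≤
      ∑ O ∈ Λ.powerset.filter (fun O => Conn sp O ∧ x ∈ us sp O ∧ 1 ≤ O.card),
        (∏ _x ∈ O, Real.exp (-γ)) * F (us sp O) {us N O} := by
  simp only [ik, sum_mul]
  rw [sum_sigma']
  refine sum_le_inj (fun a => a.2) ?_ ?_ (fun a ha => ?_) fun O _ =>
    mul_nonneg (prod_nonneg fun _ _ => Real.exp_nonneg _) (hF _ _)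
  · rintro ⟨⟨X, c⟩, O⟩ ha ⟨⟨X', c'⟩, O'⟩ hb e
    obtain ⟨a1, a2⟩ := mem_filter.1 (mem_sigma.1 ha).2
    obtain ⟨b1, b2⟩ := mem_filter.1 (mem_sigma.1 hb).2
    have a3 := (mem_clus.1 a1).2.2
    have b3 := (mem_clus.1 b1).2.2
    simp only at e a2 a3 b2 b3
    subst e a2 a3 b2 b3
    rfl
  · refine image_subset_iff.2 fun a ha => ?_
    obtain ⟨a1, a2⟩ := mem_sigma.1 ha
    obtain ⟨b1, b2, b3⟩ := mem_clus.1 (mem_filter.1 a2).1
    exact mem_filter.2 ⟨mem_powerset.2 b1, b2, b3 ▸ (mem_filter.1 a1).2, b2.1.card_pos⟩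
  · obtain ⟨a1, a2⟩ := mem_filter.1 (mem_sigma.1 ha).2
    rw [(mem_clus.1 a1).2.2, a2]

end abs

end Pool.Agent.Lib.MP_7f377f_mp.RG.Q4
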