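import Pool.Agent.Lib.MP_7f377f_mp.Q4IniA
import Pool.Agent.Lib.MP_7f377f_mp.Q4IniB
import Pool.Agent.Lib.MP_7f377f_mp.Q4BudA

/-! Level zero: the activities of the Wilson weight with a position dependent coupling. -/

noncomputable section

namespace Pool.Agent.Lib.MP_7f377f_mp.RG.Q4

open Finset

attribute [local irreducible] box lbox

/-- Wilson weight of a site, with couplings which depend on the plaquette -/
def ww (b : St → Fin 4 → Fin 4 → ℂ) (x : St) (U : Conf) : ℂ :=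
  Complex.exp (-∑ μ, ∑ ν, b x μ ν * (2⁻¹ * fq U x μ ν ^ 2 : ℝ))

/-- the activities at level zero -/
def K0 (n R R' : ℕ) (χ w : St → Conf → ℂ) (X : Finset St) (c : Finset (Finset St))
    (U : Conf) : ℂ :=
  iK (box (n / 2)) (fun x => tb n R {x}) (fun x => tb n R' {x}) (χ · U) (w · U) X c

/-- their majorant -/
def k0 (n R R' : ℕ) (γ : ℝ) : Finset St → Finset (Finset St) → ℝ :=
  ik (box (n / 2)) (fun x => tb n R {x}) (fun x => tb n R' {x}) γ

variable {n R R' : ℕ} {χ χ' w w' : St → Conf → ℂ} {b b' : St → Fin 4 → Fin 4 → ℂ}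
  {X : Finset St} {c : Finset (Finset St)} {U U' : Conf}

namespace In

theorem us_tb (n R : ℕ) (O : Finset St) : us (fun x => tb n R {x}) O = tb n R O := by
  ext y
  simp only [mem_us, mem_tb, mem_singleton, exists_eq_left]
  tauto

theorem card_tb1 (n R : ℕ) (x : St) : ((tb n R {x}).card : ℝ) ≤ (2 * R + 1) ^ 4 := by
  have := card_tb_le n R {x}
  rw [card_singleton, one_mul] at this
  exact_mod_cast this

theorem card_near (hn : Odd n) {O : Finset St} (hO : O ⊆ box (n / 2)) (R : ℕ) (q : St) :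
    ((O.filter fun x => q ∈ tb n R {x}).card : ℝ) ≤ (2 * R + 1) ^ 4 := by
  refine le_trans ?_ (card_tb1 n R q)
  exact_mod_cast card_le_card fun x hx => mem_tb_single.2
    ⟨rc_eq hn (hO (mem_filter.1 hx).1), (mem_tb_single.1 (mem_filter.1 hx).2).2.symm⟩

theorem fq_rc (hU : Per n U) (x : St) (μ ν : Fin 4) : fq U (rc n x) μ ν = fq U x μ ν := by
  obtain ⟨v, hv⟩ := rc_exists n x
  rw [hv, ← Mx.fq_sh, hU.sh_smul]

theorem fs_rc (hU : Per n U) (x : St) : fs U (rc n x) = fs U x := by simp only [fs, fq_rc hU]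

theorem fs_sq (U : Conf) (x : St) : fs U x ^ 2 ≤ 32 * wd (sh x U) := by
  rw [Mx.wd_sh, fs, ← sum_product', ← sum_product']
  refine sq_sum_le_card_mul_sum_sq.trans_eq ?_
  simp only [card_product, card_univ, Fintype.card_fin]
  push_cast
  ring

theorem norm_ww {b0 : ℝ} (h0 : 0 ≤ b0) {x : St} (h : ∀ μ ν, b0 ≤ (b x μ ν).re) (U : Conf) :
    ‖ww b x U‖ ≤ Real.exp (-(b0 / 32 * fs U x ^ 2)) := by
  rw [ww, Complex.norm_exp, Real.exp_le_exp, Complex.neg_re, neg_le_neg_iff]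
  simp only [Complex.re_sum, Complex.re_mul_ofReal]
  refine le_trans ?_ (sum_le_sum fun μ _ => sum_le_sum fun ν _ =>
    mul_le_mul_of_nonneg_right (h μ ν) (by positivity))
  simp only [← mul_sum, ← Mx.wd_sh]
  nlinarith [fs_sq U x]

theorem clus_sub (hn : Odd n) {O : Finset St}
    (h : O ∈ clus (fun x => tb n R' {x}) (box (n / 2)) X) : O ⊆ us (fun x => tb n R {x}) O := by
  rw [us_tb]
  exact sub_tb fun x hx => rc_eq hn ((mem_clus.1 h).1 hx)

end In

open In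

theorem init_eq (hn : Odd n) (h : R ≤ R') (χ w : St → Conf → ℂ) (U : Conf) :
    ∏ x ∈ box (n / 2), w x U =
      ZL (box (n / 2)) (fun X c => K0 n R R' χ w X c U) fun x => χ x U * w x U :=
  prod_eq_ZL (fun _ hx => ⟨mem_tb_single.2 ⟨rc_eq hn hx, nearT.refl _ _ _⟩,
    tb_mono Subset.rfl h, tb_dom hn⟩) _ _

theorem ww_const (β : ℂ) (x : St) (U : Conf) :
    ww (fun _ _ _ => β) x U = Complex.exp (-(β * wd (sh x U))) := by
  simp only [ww, Mx.wd_sh, mul_sum, Complex.ofReal_sum]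

theorem wil_eq_prod (β : ℝ) (n : ℕ) (U : Conf) :
    (wil β n U : ℂ) = ∏ x ∈ box (n / 2), ww (fun _ _ _ => β) x U := by
  simp only [wil, ww_const, mul_sum, ← sum_neg_distrib]
  push_cast
  exact Complex.exp_sum _ _

/-- the activity depends only on the data at the sites in the interior of its support -/
theorem K0_congr (hn : Odd n) {d : ℕ} (hd : R + d ≤ R') (h : ∀ y ∈ box (n / 2), tb n d {y} ⊆ X →
    χ y U = χ' y U' ∧ w y U = w' y U') : K0 n R R' χ w X c U = K0 n R R' χ' w' X c U' := by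
  refine sum_congr rfl fun O hO => iw_congr (clus_sub hn (mem_filter.1 hO).1) fun y hy => ?_
  rw [us_tb] at hy
  refine h y (tb_dom hn hy) ?_
  rw [← (mem_clus.1 (mem_filter.1 hO).1).2.2, us_tb]
  exact (tb_mono (singleton_subset_iff.2 hy) le_rfl).trans
    ((tb_tb O).subset.trans (tb_mono Subset.rfl hd))

theorem K0_le (hn : Odd n) (hU : Per n U) {b0 ε lam : ℝ} (h0 : 0 < b0) (hε : 0 ≤ ε)
    (hb : ∀ x ∈ box (n / 2), ‖w x U‖ ≤ Real.exp (-(b0 / 32 * fs U x ^ 2)))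
    (hχ : ∀ y, χ y U = 1 ∨ χ y U = 0 ∧ ∃ z ∈ box R, ε < fs U (y + z)) :
    ‖K0 n R R' χ w X c U‖ ≤
      k0 n R R' (b0 * ε ^ 2 / (64 * (2 * R + 1) ^ 4) - 16 * (2 * R + 1) ^ 4 * lam ^ 2 / b0) X c *
        Real.exp (-(lam * ∑ C ∈ c, ∑ x ∈ C, fs U x)) := by
  rw [k0, ik, sum_mul]
  refine norm_sum_le_of_le _ fun O hO => ?_
  obtain ⟨h1, h2⟩ := mem_filter.1 hO
  rw [← h2, sum_singleton]
  refine (iw_le (b := b0 / 32) (ε := ε) (M := (2 * R + 1) ^ 4) (r := fs U) (lam := lam)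
    (clus_sub hn h1) (by positivity) hε (by positivity) (fun y hy => hb y ?_)
    (fun y _ => (hχ y).imp_right fun a => ⟨a.1, ?_⟩) (fun x _ => card_tb1 n R x)
    (card_near hn (mem_clus.1 h1).1 R)).trans_eq ?_
  · exact tb_dom hn (us_tb n R O ▸ hy)
  · obtain ⟨z, hz, a⟩ := a.2
    exact ⟨rc n (y + z), mem_tb_single.2 ⟨rc_rc _ _, nearT_rc_right.2 (nearT_add hz)⟩,
      by rwa [fs_rc hU]⟩
  · congr 3
    funext
    congr 1
    field_simp
    ring

theorem k0_nonneg (n R R' : ℕ) (γ : ℝ) (X : Finset St) (c : Finset (Finset St)) :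
    0 ≤ k0 n R R' γ X c := ik_nonneg _ _ _ _ _ _

open Classical in
theorem k0_sum (hn : Odd n) {DD : ℕ} (h1 : R ≤ R') (h2 : R' ≤ DD) (h3 : 1 ≤ DD)
    {γ a G0 G2 θ : ℝ} (ha : 0 ≤ a) (hG0 : 0 ≤ G0) (hG2 : 0 ≤ G2)
    (hθ : 6 * (2 * R' + 1) ^ 4 * Real.exp (5 * a + G0 + 5 * G2 - γ) ≤ θ)
    (hθ' : 2 * (2 * R' + 1) ^ 4 * θ ≤ 1) (x : St) :
    ∑ o ∈ (lps (box (n / 2))).filter (fun o => x ∈ o.1), k0 n R R' γ o.1 o.2 *
      Real.exp (a * tau n DD o.1 + ∑ C ∈ o.2, (G0 + G2 * tau n DD C)) ≤ θ := by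
  obtain ⟨M, hM⟩ : ∃ M : ℝ, M = (2 * R' + 1) ^ 4 := ⟨_, rfl⟩
  have M0 : 0 < M := by rw [hM]; positivity
  rw [← hM] at hθ hθ'
  have := conn_sum (fun x => tb n R' {x}) (box (n / 2)) (fun y hy => ⟨y, mem_tb_single.2
    ⟨rc_eq hn hy, nearT.refl _ _ _⟩⟩) (fun _ => Real.exp (5 * a + G0 + 5 * G2 - γ))
    (fun _ => Real.exp_nonneg _) (θ := θ / 2) (e := M⁻¹) (by positivity)
    (by rw [inv_eq_one_div, le_div_iff₀ M0]; linarith) (fun y => ?_) 1 le_rfl x
  · refine (ik_sum _ _ _ γ (F := fun X c => Real.exp (a * tau n DD X +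
      ∑ C ∈ c, (G0 + G2 * tau n DD C))) (fun _ _ => Real.exp_nonneg _) x).trans
      (le_trans (sum_le_sum fun O hO => ?_) (this.trans_eq (by simp; ring)))
    obtain ⟨-, b1, -, b2⟩ := mem_filter.1 hO
    have t1 := tau_conn (n := n) h3 _ b1
    simp only [tau_ball h3 h2, sum_const, smul_eq_mul] at t1
    have t2 : tau n DD (us (fun x => tb n R {x}) O) ≤ tau n DD (us (fun x => tb n R' {x}) O) := by
      rw [us_tb, us_tb]
      exact tau_mono h3 (tb_mono Subset.rfl h1)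
    have t3 : (tau n DD (us (fun x => tb n R' {x}) O) : ℝ) ≤ O.card * 5 := by
      exact_mod_cast (by omega : _ ≤ O.card * 5)
    have t4 : (tau n DD (us (fun x => tb n R {x}) O) : ℝ) ≤ O.card * 5 :=
      le_trans (by exact_mod_cast t2) t3
    have t5 : (1 : ℝ) ≤ O.card := by exact_mod_cast b2
    rw [prod_const, prod_const, ← Real.exp_nat_mul, ← Real.exp_nat_mul, ← Real.exp_add,
      Real.exp_le_exp, sum_singleton]
    nlinarith
  · have e1 : Real.exp 1 ≤ 3 := Real.exp_one_lt_d9.le.trans (by norm_num)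
    refine (sum_le_card_nsmul _ _ (Real.exp (5 * a + G0 + 5 * G2 - γ) * 3) fun o _ =>
      mul_le_mul_of_nonneg_left (le_trans (Real.exp_le_exp.2 ?_) e1) (Real.exp_nonneg _)).trans ?_
    · rw [inv_mul_le_iff₀ M0, mul_one, hM]
      exact card_tb1 _ _ _
    · have := card_near hn Subset.rfl R' y
      rw [← hM] at this
      rw [nsmul_eq_mul]
      nlinarith [Real.exp_pos (5 * a + G0 + 5 * G2 - γ)]

theorem meas_ww (b : St → Fin 4 → Fin 4 → ℂ) (x : St) : Measurable (ww b x) :=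
  (measurable_sum _ fun μ _ => measurable_sum _ fun ν _ => measurable_const.mul
    (Complex.measurable_ofReal.comp
      (measurable_const.mul ((Mx.cont_fq x μ ν).measurable.pow_const 2)))).neg.cexp

theorem K0_meas (h : ∀ x, Measurable (χ x)) (hw : ∀ x, Measurable (w x)) :
    Measurable (K0 n R R' χ w X c) :=
  measurable_sum _ fun _ _ => (measurable_prod _ fun x _ =>
    (measurable_const.sub (h x)).mul (hw x)).mul (measurable_prod _ fun x _ => (h x).mul (hw x))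

theorem ww_diff {Ω : Set ℂ} {b : ℂ → St → Fin 4 → Fin 4 → ℂ} {x : St}
    (h : ∀ μ ν, DifferentiableOn ℂ (b · x μ ν) Ω) :
    DifferentiableOn ℂ (fun s => ww (b s) x U) Ω := by
  unfold ww
  fun_prop

theorem K0_diff {Ω : Set ℂ} {w : ℂ → St → Conf → ℂ} (h : ∀ x, DifferentiableOn ℂ (w · x U) Ω) :
    DifferentiableOn ℂ (fun s => K0 n R R' χ (w s) X c U) Ω := by
  unfold K0 iK iw
  fun_prop

theorem ww_real {x : St} (hb : ∀ μ ν, (b x μ ν).im = 0) : (ww b x U).im = 0 := by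
  simp only [ww, Complex.exp_im, Complex.neg_im, Complex.im_sum, Complex.im_mul_ofReal, hb]
  simp

theorem K0_real (h : ∀ x, (χ x U).im = 0) (hb : ∀ x, (w x U).im = 0) :
    (K0 n R R' χ w X c U).im = 0 := by
  have h1 : ∀ x, χ x U = ((χ x U).re : ℂ) := fun x => Complex.ext rfl (h x)
  have h2 : ∀ x, w x U = ((w x U).re : ℂ) := fun x => Complex.ext rfl (hb x)
  unfold K0 iK iw
  rw [show (fun x => χ x U) = fun x => ((χ x U).re : ℂ) from funext h1,
    show (fun x => w x U) = fun x => ((w x U).re : ℂ) from funext h2]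
  beta_reduce
  norm_cast

theorem In.fq_dep (h : ∀ e : Lk, rc n e.1 ∈ X ∧ rc n (e.1 + un e.2) ∈ X → U e = U' e) {x : St}
    (hx : ∀ z ∈ box 2, rc n (x + z) ∈ X) (μ ν : Fin 4) : fq U x μ ν = fq U' x μ ν := by
  have a0 : rc n x ∈ X := by simpa using hx 0 (zero_mem_box 2)
  have a1 : ∀ μ, rc n (x + un μ) ∈ X := fun μ => hx _ (box_mono one_le_two (un_mem_box μ))
  have a2 : ∀ μ ν, rc n (x + un μ + un ν) ∈ X := fun μ ν =>
    add_assoc x _ _ ▸ hx _ (add_un_mem_box (un_mem_box μ) ν)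
  simp only [fq, hol, h (x, _) ⟨a0, a1 _⟩, h (_, _) ⟨a1 _, a2 _ _⟩]

theorem In.fq_dep' (h : ∀ e : Lk, rc n e.1 ∈ X ∧ rc n (e.1 + un e.2) ∈ X → U e = U' e) {y z : St}
    {d : ℕ} (hy : tb n (d + 2) {y} ⊆ X) (hz : z ∈ box d) (μ ν : Fin 4) :
    fq U (y + z) μ ν = fq U' (y + z) μ ν :=
  fq_dep h (fun _ hw => hy (mem_tb_single.2 ⟨rc_rc _ _,
    nearT_rc_right.2 ((nearT_add hz).trans (nearT_add hw))⟩)) μ ν

/-- locality -/
theorem K0_dep (hn : Odd n) {d : ℕ} (hd : R + (d + 2) ≤ R')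
    (hχ : ∀ y U U', (∀ z ∈ box d, ∀ μ ν, fq U (y + z) μ ν = fq U' (y + z) μ ν) → χ y U = χ y U')
    (hw : ∀ y U U', (∀ μ ν, fq U y μ ν = fq U' y μ ν) → w y U = w y U') :
    DependsOn (K0 n R R' χ w X c) {e | rc n e.1 ∈ X ∧ rc n (e.1 + un e.2) ∈ X} :=
  fun U U' h => K0_congr hn hd fun y _ hy => ⟨hχ y U U' fun _ hz => fq_dep' h hy hz,
    hw y U U' (by simpa using fq_dep' h hy (zero_mem_box d))⟩

theorem In.tb_image (n R : ℕ) (v : St) (O : Finset St) :
    tb n R (O.image fun x => rc n (x + v)) = (tb n R O).image fun x => rc n (x + v) := by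
  ext y
  simp only [mem_tb, mem_image, exists_exists_and_eq_and, nearT_rc_left]
  constructor
  · rintro ⟨h, x, hx, h1⟩
    refine ⟨rc n (y + -v), ⟨rc_rc _ _, x, hx, nearT_rc_right.2 ((nearT_add_right v).1 ?_)⟩, ?_⟩
    · rwa [neg_add_cancel_right]
    · rw [rc_add_rc, neg_add_cancel_right, h]
  · rintro ⟨z, ⟨-, x, hx, h1⟩, rfl⟩
    exact ⟨rc_rc _ _, x, hx, nearT_rc_right.2 ((nearT_add_right v).2 h1)⟩

theorem In.sh_inj (hn : Odd n) (v : St) :
    Set.InjOn (fun x => rc n (x + v)) (box (n / 2) : Finset St) :=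
  fun _ hx _ hy h => rc_inj v (rc_eq hn hx) (rc_eq hn hy) h

theorem In.dom_image (hn : Odd n) (v : St) :
    (box (n / 2)).image (fun x => rc n (x + v)) = box (n / 2) :=
  eq_of_subset_of_card_le (image_subset_iff.2 fun _ _ => rc_mem hn _)
    (card_image_of_injOn (sh_inj hn v)).ge

/-- translation covariance -/
theorem K0_sh (hn : Odd n) (v : St) (hX : X ⊆ box (n / 2)) (hc : ∀ C ∈ c, C ⊆ box (n / 2))
    (h : ∀ y ∈ box (n / 2), χ (rc n (y + v)) U = χ' y U' ∧ w (rc n (y + v)) U = w' y U') :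
    K0 n R R' χ w (X.image fun x => rc n (x + v)) (c.image (image fun x => rc n (x + v))) U =
      K0 n R R' χ' w' X c U' := by
  have i1 := sh_inj hn v
  unfold K0 iK
  rw [sum_filter, sum_filter]
  conv_lhs => rw [← dom_image hn v]
  rw [sum_clus_image (sp := fun x => tb n R' {x}) i1 i1 (fun _ _ => tb_dom hn) hX fun o _ => by
    rw [← tb_image, image_singleton]]
  refine sum_congr rfl fun O hO => ?_
  have h1 := (mem_clus.1 hO).1
  have h2 : tb n R O ⊆ box (n / 2) := tb_dom hn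
  have h3 : O ⊆ tb n R O := us_tb n R O ▸ clus_sub hn hO
  rw [us_tb, us_tb, tb_image, ← image_singleton]
  refine if_congr (image_eq_image_iff_of_injOn (s := (box (n / 2)).powerset)
    (fun C a C' a' e => (image_eq_image_iff_of_injOn i1 (mem_powerset.1 a) (mem_powerset.1 a')).1 e)
    (by simpa using h2) fun C a => mem_powerset.2 (hc C a)) ?_ rfl
  rw [iw, iw, us_tb, us_tb, tb_image, ← image_sdiff_of_injOn (i1.mono h2) h3,
    prod_image (i1.mono h1), prod_image (i1.mono (sdiff_subset.trans h2))]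
  congr 1 <;> refine prod_congr rfl fun x hx => ?_
  · rw [(h x (h1 hx)).1, (h x (h1 hx)).2]
  · rw [(h x (h2 (sdiff_subset hx))).1, (h x (h2 (sdiff_subset hx))).2]

theorem ww_fq {y y' : St} (h : b y = b' y') (hU : ∀ μ ν, fq U y μ ν = fq U' y' μ ν) :
    ww b y U = ww b' y' U' := by
  simp only [ww, h, hU]

end Pool.Agent.Lib.MP_7f377f_mp.RG.Q4
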