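import Pool.Agent.Lib.MP_7f377f_mp.Q4KpA
import Pool.Agent.Lib.MP_7f377f_mp.Q4TOk

/-! The majorant of the new activities. -/

noncomputable section

namespace Pool.Agent.Lib.MP_7f377f_mp.RG.Q4.Kp

open Finset Sd MeasureTheory
open scoped Classical

attribute [local irreducible] box lbox tb tau rc

variable {p : Pa} {n : ℕ} {k : Mj} {θ b : ℝ} {S : Sd} {o : Ob} {O : Finset Ob} {W : Conf}
  {ψ : Lx} {K : Ac} {Y : Finset St} {c : Finset (Finset St)} {y u : St}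

/-- the weight of the cores -/
def cw (p : Pa) (n : ℕ) (c : Finset (Finset St)) : ℝ := ∑ C ∈ c, (p.G0 + p.G2 * tau n p.D C)

/-- majorant given by a sum over items with supports `sp` and possible cores `Z` -/
def kL {ι : Type} (p : Pa) (n : ℕ) (T : Finset ι) (sp : ι → Finset St)
    (Z : ι → Finset (Finset St)) (w : ι → ℝ) : Mj := fun Y c =>
  (∑ i ∈ T, if sp i = Y ∧ c ⊆ Z i then w i else 0) * Real.exp (-cw p n c)

theorem kN_kL {ι : Type} {T : Finset ι} {sp : ι → Finset St} {Z : ι → Finset (Finset St)}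
    {w : ι → ℝ} (hw : ∀ i, 0 ≤ w i) (h : ∀ x, ∑ i ∈ T, (if x ∈ sp i then
      2 ^ (Z i).card * w i * Real.exp ((p.a + 1) * tau n p.D (sp i)) else 0) ≤ θ) :
    kN p.up n (kL p n T sp Z w) θ := by
  refine ⟨fun Y c => mul_nonneg (sum_nonneg fun i _ => ite_nonneg (hw i) le_rfl)
    (Real.exp_nonneg _), fun x => le_trans ?_ (h x)⟩
  have e : ∀ o : LP St, kL p n T sp Z w o.1 o.2 * wgt p.up n o.1 o.2 = ∑ i ∈ T,
      if sp i = o.1 ∧ o.2 ⊆ Z i then w i * Real.exp ((p.a + 1) * tau n p.D (sp i)) else 0 :=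
    fun o => by
      rw [kL, mul_assoc, wgt, ← Real.exp_add, sum_mul]
      refine sum_congr rfl fun i _ => ?_
      split_ifs with hi
      · rw [hi.1]
        congr 2
        exact neg_add_cancel_comm_assoc _ _
      · exact zero_mul _
  simp only [e]
  rw [sum_comm]
  refine sum_le_sum fun i _ => ?_
  rw [← sum_filter, sum_const, nsmul_eq_mul]
  split_ifs with hx
  · rw [mul_assoc]
    refine mul_le_mul_of_nonneg_right ?_ (mul_nonneg (hw i) (Real.exp_nonneg _))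
    rw [show (2 : ℝ) ^ (Z i).card = ((Z i).powerset.card : ℕ) by simp, Nat.cast_le]
    exact card_le_card_of_injOn (fun o : LP St => o.2)
      (fun o ho => mem_coe.2 (mem_powerset.2 (mem_filter.1 (mem_coe.1 ho)).2.2))
      fun o ho o' ho' e => Sigma.ext ((mem_filter.1 (mem_coe.1 ho)).2.1.symm.trans
        (mem_filter.1 (mem_coe.1 ho')).2.1) (heq_of_eq e)
  · rw [filter_eq_empty_iff.2 fun o ho e => hx (by rw [And.left e]; exact (mem_filter.1 ho).2),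
      card_empty, Nat.cast_zero, zero_mul]

/-- the possible new cores -/
def zo (S : Sd) (O : Finset Ob) : Finset (Finset St) := zones S.l S.n (3 * S.D0) (CC O) (Wk O)

theorem lab_zo : S.lab W O ⊆ zo S O := filter_subset _ _

theorem card_zo : (2 : ℝ) ^ (zo S O).card ≤ ∏ o ∈ O, Real.exp (nc o) := by
  have h1 : (zo S O).card ≤ ∑ o ∈ O, nc o := by
    refine card_image_le.trans ((card_le_card_biUnion (comps_disjoint _ _)
      fun _ h => (mem_comps.1 h).2.1.1).trans ?_)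
    rw [(comps_spec _ _).1, card_disjSum, sum_sum_eq_sum_toLeft_add_sum_toRight,
      sum_sum_eq_sum_toLeft_add_sum_toRight, sum_sum_eq_sum_toLeft_add_sum_toRight]
    have : (CC O).card ≤ ∑ o ∈ olds O, o.2.card := card_biUnion_le
    simp only [nc, sum_const, smul_eq_mul, mul_one, olds, Wk] at this ⊢
    omega
  rw [← Real.exp_sum, ← Nat.cast_sum, ← mul_one ((∑ o ∈ O, nc o : ℕ) : ℝ), Real.exp_nat_mul]
  exact (pow_le_pow_right₀ one_le_two h1).trans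
    (pow_le_pow_left₀ zero_le_two (by linarith [Real.add_one_le_exp 1]) _)

/-- families without cores and without large block fields -/
def Pl (O : Finset Ob) : Prop := ∀ o ∈ O, nc o = 0

theorem Pl.zo (h : Pl O) : zo S O = ∅ := by
  have := card_zo (S := S) (O := O)
  rw [prod_eq_one fun o ho => by rw [h o ho, Nat.cast_zero, Real.exp_zero]] at this
  exact card_eq_zero.1 (by_contra fun e => (one_lt_pow₀ one_lt_two e).not_ge this)

theorem Pl.lab (h : Pl O) : S.lab W O = ∅ := subset_empty.1 (h.zo ▸ lab_zo)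

theorem sum_pairs {ι Ω M : Type} [DecidableEq ι] [DecidableEq Ω] [AddCommMonoid M] (s : Finset ι)
    {f : ι → Ω} (hf : Function.Injective f) (φ : Finset Ω → M) :
    ∑ q ∈ s.offDiag, φ {f q.1, f q.2} =
      2 • ∑ O ∈ s.offDiag.image (fun q => ({f q.1, f q.2} : Finset Ω)), φ O := by
  rw [sum_comp φ, smul_sum]
  refine sum_congr rfl fun O hO => ?_
  obtain ⟨q, hq, rfl⟩ := mem_image.1 hO
  obtain ⟨h1, h2, h3⟩ := mem_offDiag.1 hq
  rw [← card_pair (a := q) (b := q.swap) fun e => h3 (congrArg Prod.fst e)]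
  congr 2
  ext q'
  simp only [mem_filter, mem_insert, mem_singleton, ← coe_inj, coe_pair, Set.pair_eq_pair_iff,
    hf.eq_iff, mem_offDiag, Prod.ext_iff, Prod.fst_swap, Prod.snd_swap]
  refine and_iff_right_of_imp ?_
  rintro (⟨a, b⟩ | ⟨a, b⟩) <;> simp only [a, b] <;> tauto

theorem oM_inj : Function.Injective oM := fun _ _ h => by simpa [oM] using h

/-- pairs of Mayer marks -/
def MM (O : Finset Ob) : Prop := O.card = 2 ∧ ∀ o ∈ O, IsM o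

theorem mem_obs_M : oM y ∈ S.obs ↔ y ∈ S.Λ' := by simp [oM, obs, mks]

theorem mm_iff (hO : O ⊆ S.obs) :
    MM O ↔ O ∈ S.Λ'.offDiag.image fun q => ({oM q.1, oM q.2} : Finset Ob) := by
  refine ⟨fun ⟨h1, h2⟩ => ?_, fun h => ?_⟩
  · obtain ⟨o, o', h3, rfl⟩ := card_eq_two.1 h1
    obtain ⟨y, rfl⟩ := h2 o (by simp)
    obtain ⟨y', rfl⟩ := h2 o' (by simp)
    exact mem_image.2 ⟨(y, y'), mem_offDiag.2 ⟨mem_obs_M.1 (hO (by simp)),
      mem_obs_M.1 (hO (by simp)), fun e => h3 (congrArg oM e)⟩, rfl⟩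
  · obtain ⟨q, hq, rfl⟩ := mem_image.1 h
    exact ⟨card_pair (oM_inj.ne (mem_offDiag.1 hq).2.2), by simp [IsM]⟩

/-- splitting of a sum over families -/
theorem sum_split {M : Type} [AddCommGroup M] {F : Finset (Finset Ob)} (hF : ∀ O ∈ F, O ⊆ S.obs)
    (f : Finset Ob → M) : 2 • ∑ O ∈ F, f O =
      2 • ∑ O ∈ F.filter (fun O => O.card ≠ 1 ∧ ¬ MM O), f O +
      2 • ∑ o ∈ S.obs, (if {o} ∈ F then f {o} else 0) +
      ∑ q ∈ S.Λ'.offDiag, if {oM q.1, oM q.2} ∈ F then f {oM q.1, oM q.2} else 0 := by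
  rw [sum_pairs _ oM_inj fun O => if O ∈ F then f O else 0, ← smul_add, ← smul_add,
    ← sum_image (s := S.obs) (g := fun o => ({o} : Finset Ob))
      (f := fun O => if O ∈ F then f O else 0) fun _ _ _ _ => singleton_inj.1,
    sum_ite_mem, sum_ite_mem, inter_comm, inter_comm _ F, ← sum_ite_mem, ← sum_ite_mem, sum_filter,
    ← sum_add_distrib, ← sum_add_distrib]
  refine congrArg _ (sum_congr rfl fun O hO => ?_)
  have : O ∈ S.obs.image (fun o => ({o} : Finset Ob)) ↔ O.card = 1 := by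
    rw [card_eq_one, mem_image]
    exact ⟨fun ⟨o, _, e⟩ => ⟨o, e.symm⟩, fun ⟨o, e⟩ => ⟨o, hF O hO (by simp [e]), e.symm⟩⟩
  simp only [this, ← mm_iff (hF O hO)]
  by_cases h1 : O.card = 1
  · simp [h1, MM]
  · by_cases h2 : MM O <;> simp [h1, h2]

theorem conn_pair {o' : Ob} (h : ¬ Disjoint (S.sp o) (S.sp o')) : Conn S.sp {o, o'} :=
  conn_of_rank _ (mem_insert_self _ _) (fun x => if x = o then 0 else 1) fun x hx e =>
    ⟨o, mem_insert_self _ _, by simp [e], by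
      rwa [mem_singleton.1 ((mem_insert.1 hx).resolve_left e)]⟩

theorem us_MM (y y' : St) : us S.sp {oM y, oM y'} = tb S.n (13 * S.D0) {y, y'} := by
  rw [us_insert, us_singleton, insert_eq, tb_union]
  rfl

theorem rc_back (h : S.Ok) (hy : y ∈ S.Λ') (u : St) : rc S.n (rc S.n (y + u) + -u) = y := by
  rw [rc_add_rc, add_neg_cancel_right, rc_eq h.odd hy]

theorem rc_back' (h : S.Ok) (hu : u ∈ box (2 * S.D0)) (y : St) :
    rc S.n (rc S.n (y + u) + -y) = u := by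
  rw [rc_add_rc, add_neg_cancel_comm, rc_eq h.odd (box_mono (by have := h.vol; omega) hu)]

theorem sum_near (h : S.Ok) (f : St → St → ℂ) :
    ∑ q ∈ S.Λ'.offDiag.filter (fun q => nearT S.n (2 * S.D0) q.1 q.2), f q.1 q.2 =
      ∑ q ∈ S.Λ' ×ˢ S.prs, f q.1 (rc S.n (q.1 + q.2)) := by
  symm
  refine sum_bij (fun q _ => (q.1, rc S.n (q.1 + q.2))) (fun q hq => ?_) (fun q hq q' hq' e => ?_)
    (fun q hq => ?_) fun _ _ => rfl
  · obtain ⟨h1, h2⟩ := mem_product.1 hq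
    obtain ⟨h2, h3⟩ := mem_erase.1 h2
    refine mem_filter.2 ⟨mem_offDiag.2 ⟨h1, rc_mem h.odd _, fun e => h2 ?_⟩,
      nearT_rc_right.2 (nearT_add h3)⟩
    rw [← rc_back' h h3 q.1, ← show q.1 = rc S.n (q.1 + q.2) from e, add_neg_cancel, rc_eq h.odd (zero_mem_box _)]
  · obtain ⟨e1, e2⟩ := Prod.ext_iff.1 e
    refine Prod.ext e1 ?_
    rw [← rc_back' h (mem_of_mem_erase (mem_product.1 hq).2) q.1, show rc S.n _ = _ from e2,
      show q.1 = _ from e1, rc_back' h (mem_of_mem_erase (mem_product.1 hq').2)]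
  · obtain ⟨h1, v, hv⟩ := mem_filter.1 hq
    obtain ⟨h1, h2, h3⟩ := mem_offDiag.1 h1
    have e : rc S.n (q.1 + (q.2 - q.1 - (S.n : ℤ) • v)) = q.2 := by
      rw [show q.1 + (q.2 - q.1 - (S.n : ℤ) • v) = q.2 + (S.n : ℤ) • (-v) by
        rw [smul_neg]; abel, rc_add_smul, rc_eq h.odd h2]
    refine ⟨(q.1, q.2 - q.1 - (S.n : ℤ) • v), mem_product.2 ⟨h1, mem_erase.2 ⟨fun e0 => h3 ?_, hv⟩⟩, Prod.ext rfl e⟩
    rw [← e, show q.2 - q.1 - (S.n : ℤ) • v = 0 from e0, add_zero, rc_eq h.odd h1]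

theorem sum_flip (h : S.Ok) (f : St → St → ℂ) : ∑ q ∈ S.Λ' ×ˢ S.prs, f q.1 q.2 =
    ∑ q ∈ S.Λ' ×ˢ S.prs, f (rc S.n (q.1 + q.2)) (-q.2) := by
  have h1 : ∀ q ∈ S.Λ' ×ˢ S.prs, (rc S.n (q.1 + q.2), -q.2) ∈ S.Λ' ×ˢ S.prs := fun q hq =>
    mem_product.2 ⟨rc_mem h.odd _, mem_erase.2 ⟨neg_ne_zero.2 (mem_erase.1 (mem_product.1 hq).2).1,
      neg_mem_box (mem_erase.1 (mem_product.1 hq).2).2⟩⟩
  have h2 : ∀ q ∈ S.Λ' ×ˢ S.prs, (rc S.n (rc S.n (q.1 + q.2) + -q.2), - -q.2) = q := fun q hq =>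
    Prod.ext (rc_back h (mem_product.1 hq).1 _) (neg_neg _)
  exact sum_nbij' (fun q => (rc S.n (q.1 + q.2), -q.2)) (fun q => (rc S.n (q.1 + q.2), -q.2)) h1 h1
    h2 h2 fun q hq => by rw [rc_back h (mem_product.1 hq).1, neg_neg]

theorem smo_inv (h : S.Ok) {o : LP St} (ho : o ∈ (lps (box (S.nf / 2))).filter (Sm1 S))
    (hy : y ∈ dn S.l S.n o.1) : (y, trS S.nf (-up S.l y) o.1) ∈ S.Λ' ×ˢ S.X1s ∧
      trS S.nf (up S.l y) (trS S.nf (-up S.l y) o.1) = o.1 := by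
  obtain ⟨h1, -, h2⟩ := mem_filter.1 ho
  refine ⟨mem_product.2 ⟨?_, mem_X1s.2 ⟨trS_sub h.odd_nf, (tau_sh _ _).trans h2, ?_⟩⟩, ?_⟩
  · obtain ⟨x, -, rfl⟩ := mem_image.1 hy
    exact rc_mem h.odd _
  · rw [← up_neg, dn_trS']
    exact mem_image.2 ⟨y, hy, by rw [add_neg_cancel, rc_eq h.odd (zero_mem_box _)]⟩
  · rw [trS_trS, neg_add_cancel, trS_zero fun x hx => rc_eq h.odd_nf ((mem_lps.1 h1).1 hx)]

theorem smo_eq (h : S.Ok) (f : St → Finset St → ℂ) : ∑ q ∈ S.Λ' ×ˢ S.X1s, f q.1 q.2 =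
    ∑ o ∈ (lps (box (S.nf / 2))).filter (Sm1 S), ∑ y ∈ dn S.l S.n o.1,
      f y (trS S.nf (-up S.l y) o.1) := by
  rw [← sum_fiberwise_of_maps_to (s := S.Λ' ×ˢ S.X1s)
    (g := fun q : St × Finset St => (⟨trS S.nf (up S.l q.1) q.2, ∅⟩ : LP St))
    fun q hq => smo_mem h (mem_product.1 hq).2 q.1]
  refine sum_congr rfl fun o ho => ?_
  have h0 : ∀ q ∈ (S.Λ' ×ˢ S.X1s).filter fun q : St × Finset St =>
      (⟨trS S.nf (up S.l q.1) q.2, ∅⟩ : LP St) = o, trS S.nf (-up S.l q.1) o.1 = q.2 := fun q hq => by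
    obtain ⟨h1, h2⟩ := mem_filter.1 hq
    rw [← h2, trS_trS, add_neg_cancel,
      trS_zero fun x hx => rc_eq h.odd_nf ((mem_X1s.1 (mem_product.1 h1).2).1 hx)]
  refine sum_nbij' (fun q => q.1) (fun y => (y, trS S.nf (-up S.l y) o.1)) (fun q hq => ?_)
    (fun y hy => mem_filter.2 ⟨(smo_inv h ho hy).1, Sigma.ext (smo_inv h ho hy).2
      (heq_of_eq (mem_filter.1 ho).2.1.symm)⟩) (fun q hq => Prod.ext rfl (h0 q hq)) (fun _ _ => rfl)
    fun q hq => by rw [h0 q hq]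
  obtain ⟨h1, h2⟩ := mem_filter.1 hq
  rw [← h2, dn_trS']
  exact mem_image.2 ⟨0, (mem_X1s.1 (mem_product.1 h1).2).2.2, by
    rw [zero_add, rc_eq h.odd (mem_product.1 h1).1]⟩

/-- the bounds of the weights of the families -/
structure Cn (S : Sd) (b θ : ℝ) (k : Mj) (ψ : Lx) (K : Ac) (W : Conf) : Prop where
  hole : ∀ O ⊆ S.obs, S.Sup W O → ‖S.wO ψ K W O‖ ≤ (∏ o ∈ O, S.wo b k o) * S.hw W O
  c1 : ∀ y ∈ S.Λ', S.In W {oM y} → ‖S.wO ψ K W {oM y}‖ ≤ S.θ2 b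
  c2 : ∀ y ∈ S.Λ', ∀ u ∈ S.prs, S.In W {oP y u} → ‖S.wO ψ K W {oM y, oM (rc S.n (y + u))} +
    S.wO ψ K W {oP y u} + S.wO ψ K W {oP (rc S.n (y + u)) (-u)}‖ ≤ S.θ2 b
  far : ∀ y ∈ S.Λ', ∀ y' ∈ S.Λ', ¬ nearT S.n (2 * S.D0) y y' → S.In W {oM y, oM y'} →
    ‖S.wO ψ K W {oM y, oM y'}‖ ≤ S.θ2 b ^ 2
  c3 : ∀ X ⊆ box (S.nf / 2), X.Nonempty → tau S.nf S.p.D X = 1 → S.In W {oX X} →
    ‖S.wO ψ K W {oX X} + ∑ y ∈ dn S.l S.n X, S.wO ψ K W {oS y (trS S.nf (-up S.l y) X)}‖ ≤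
      k X ∅ * ((S.Q ^ 10)⁻¹ + 10 * θ)

/-- the majorant of the new activities -/
def kk (S : Sd) (b θ : ℝ) (k : Mj) : Mj :=
  kL S.p' S.n (S.obs.powerset.filter fun O => Conn S.sp O ∧ O.card ≠ 1 ∧ ¬ MM O) (us S.sp) (zo S)
    (fun O => ∏ o ∈ O, S.wo b k o) + kL S.p' S.n S.obs S.sp (fun o => zo S {o}) (w1 S b θ k) +
  kL S.p' S.n (S.Λ'.offDiag.filter fun q => Conn S.sp {oM q.1, oM q.2})
    (fun q => us S.sp {oM q.1, oM q.2}) (fun _ => ∅) fun _ => S.θ2 b ^ 2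

namespace Hy

variable (h : Hy S)
include h

theorem w1_nonneg (b0 : 0 ≤ b) (hk : kN S.p S.nf k θ) : ∀ o, 0 ≤ w1 S b θ k o
  | .inl (.inl _) => mul_nonneg (wo_nonneg h.nu.ok h.op b0 hk.1 _) (ite_nonneg (add_nonneg
      (inv_nonneg.2 (pow_nonneg S.Q0.le _)) (mul_nonneg (by norm_num) hk.nonneg)) zero_le_one)
  | .inl (.inr y) => wo_nonneg h.nu.ok h.op b0 hk.1 (.inl (.inr y))
  | .inr (.inl _) => h.θ2_nonneg b0
  | .inr (.inr (.inl _)) => h.θ2_nonneg b0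
  | .inr (.inr (.inr (.inl _))) => le_rfl
  | .inr (.inr (.inr (.inr Z))) => wo_nonneg h.nu.ok h.op b0 hk.1 (oZ Z)

theorem kN_kk (b0 : 0 ≤ b) (hb : S.Q ^ 100 * b ≤ 1) (hθ : S.Q ^ 100 * θ ≤ 1)
    (hk : kN S.p S.nf k θ) : kN S.p'.up S.n (kk S b θ k) (S.θ' b θ) := by
  have w0 := wo_nonneg h.nu.ok h.op b0 hk.1
  have θ0 := hk.nonneg
  have g0 := h.nu.ok.g0
  have Q0 := S.Q0
  refine (((kN_kL (fun O => prod_nonneg fun o _ => w0 o) fun x => le_trans ?_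
    (h.kp_many b0 hb hθ hk x (T := (S.obs.powerset.filter fun O => Conn S.sp O ∧ O.card ≠ 1 ∧
      ¬ MM O).filter fun O => x ∈ us S.sp O) fun O hO => ?_)).add
    (kN_kL (h.w1_nonneg b0 hk) fun x => le_trans (sum_le_sum fun o _ => ite_le_ite_of fun _ => ?_)
      (h.kp_one b0 hk x))).add
    (kN_kL (θ := S.Q ^ 16 * S.θ2 b ^ 2) (fun _ => sq_nonneg _) fun x => ?_)).mono ?_
  · rw [sum_filter (p := fun O => x ∈ us S.sp O)]
    refine sum_le_sum fun O _ => ite_le_ite_of fun _ => ?_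
    rw [prod_mul_distrib, mul_comm (∏ o ∈ O, S.wo b k o)]
    have := prod_nonneg fun o (_ : o ∈ O) => w0 o
    gcongr
    exact card_zo
  · simp only [mem_filter, mem_powerset, MM, not_and, not_forall, exists_prop] at hO
    have := hO.1.2.1.1.card_pos
    exact ⟨hO.1.1, hO.1.2.1, hO.2, by omega, hO.1.2.2.2⟩
  · have h1 := card_zo (S := S) (O := {o})
    have h2 := h.w1_nonneg b0 hk o
    rw [prod_singleton] at h1
    rw [Real.exp_add, mul_comm (2 ^ _ : ℝ), mul_assoc]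
    gcongr
    norm_num
  · have h1 := h.kp_two x (T := (S.Λ'.offDiag.image fun q => ({oM q.1, oM q.2} : Finset Ob)).filter
      fun O => Conn S.sp O ∧ x ∈ us S.sp O) fun O hO => by
        obtain ⟨h1, h2, h3⟩ := mem_filter.1 hO
        have : O ⊆ S.obs := by
          obtain ⟨q, hq, rfl⟩ := mem_image.1 h1
          exact insert_subset (mem_obs_M.2 (mem_offDiag.1 hq).1)
            (singleton_subset_iff.2 (mem_obs_M.2 (mem_offDiag.1 hq).2.1))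
        exact ⟨this, h2, h3, (mm_iff this).2 h1⟩
    rw [sum_filter, ← Nat.cast_two, ← nsmul_eq_mul, ← sum_pairs _ oM_inj] at h1
    refine le_trans (le_of_eq ?_) (mul_le_mul_of_nonneg_right h1 (sq_nonneg _))
    rw [sum_filter, sum_mul]
    refine sum_congr rfl fun q _ => ?_
    by_cases a1 : Conn S.sp {oM q.1, oM q.2} <;> simp [a1, mul_comm]
  · have h1 := h.small b0 hb (j := 61) (by omega)
    have h2 := h.small_g (j := 61) (by omega)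
    have h3 : b ≤ 1 := by linarith [h.small b0 hb (j := 0) (by omega), pow_zero S.Q]
    have h4 := h.nu.ok.g1
    have h5 : S.g ^ 3 + S.g * b + b ^ 2 ≤ 2 * (S.g + b) := by
      nlinarith [pow_le_pow_of_le_one g0.le h4 (show 1 ≤ 3 by omega)]
    have h6 : S.Q ^ 16 * S.θ2 b ≤ 1 := by
      rw [θ2]
      nlinarith [mul_le_mul_of_nonneg_left h5 (pow_pos Q0 61).le]
    have t0 := h.θ2_nonneg b0
    set Y := S.g ^ 3 + S.g * b + b ^ 2 + θ ^ 2 + S.g * θ with hY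
    have h7 : S.Q ^ 3 * S.θ2 b ≤ S.Q ^ 89 * Y := by
      rw [θ2, ← mul_assoc, ← pow_add]
      exact mul_le_mul (S.Qw (by omega)) (by nlinarith) (by positivity) (by positivity)
    have h8 : S.θ2 b ≤ S.Q ^ 3 * S.θ2 b := le_mul_of_one_le_left t0 (one_le_pow₀ S.Q1)
    have h9 : S.Q * θ ^ 2 + S.g ^ 3 ≤ S.Q ^ 89 * Y := by
      have : S.Q ≤ S.Q ^ 89 := le_self_pow₀ S.Q1 (by omega)
      nlinarith [S.Q1, pow_pos g0 3, mul_nonneg g0.le b0, mul_nonneg g0.le θ0,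
        mul_le_mul_of_nonneg_right this (show 0 ≤ Y by positivity),
        mul_nonneg Q0.le (show 0 ≤ S.g * b + b ^ 2 + S.g * θ by positivity)]
    have h10 : 4 * (S.Q ^ 89 * Y) ≤ S.Q ^ 90 * Y := by
      rw [pow_succ' S.Q 89, mul_assoc]
      exact mul_le_mul_of_nonneg_right (h.nu.cQ' (by norm_num)) (by positivity)
    rw [θ']
    nlinarith [mul_le_mul_of_nonneg_right h6 t0, div_nonneg θ0 Q0.le]

theorem kr_le (b0 : 0 ≤ b) (hk : kN S.p S.nf k θ) (C : Cn S b θ k ψ K W) :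
    ‖S.Kr ψ K Y c W‖ ≤ kk S b θ k Y c * Real.exp (-(S.p'.lam * Rg c W)) := by
  have w0 := wo_nonneg h.nu.ok h.op b0 hk.1
  have w2 := h.w1_nonneg b0 hk
  have ok := h.nu.ok
  set F := (clus S.sp S.obs Y).filter (S.lab W · = c) with hF
  set H := Real.exp (-cw S.p' S.n c) * Real.exp (-(S.p'.lam * Rg c W)) with hH
  have H0 : 0 ≤ H := by positivity
  have mF : ∀ O, O ∈ F ↔ (O ⊆ S.obs ∧ Conn S.sp O ∧ us S.sp O = Y) ∧ S.lab W O = c := fun O => by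
    rw [hF, mem_filter, mem_clus]
  set μ : Ob → ℝ := fun o => if {o} ∈ F then w1 S b θ k o * H else 0 with hμ
  have μ0 : ∀ o, 0 ≤ μ o := fun o => ite_nonneg (mul_nonneg (w2 o) H0) le_rfl
  have fin : ∑ O ∈ F.filter (fun O => O.card ≠ 1 ∧ ¬ MM O), (∏ o ∈ O, S.wo b k o) * H +
      ∑ o ∈ S.obs, μ o + ∑ q ∈ S.Λ'.offDiag, (if {oM q.1, oM q.2} ∈ F then S.θ2 b ^ 2 * H else 0) ≤
      kk S b θ k Y c * Real.exp (-(S.p'.lam * Rg c W)) := by
    simp only [kk, kL, Pi.add_apply, add_mul, mul_assoc, ← hH, sum_mul, ite_mul, zero_mul,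
      ← sum_filter, filter_filter, hμ]
    refine add_le_add (add_le_add ?_ ?_) ?_ <;>
      refine sum_le_sum_of_subset_of_nonneg (fun i hi => ?_) fun i _ _ => mul_nonneg ?_ H0
    · obtain ⟨⟨⟨a1, a2, a3⟩, a4⟩, a5⟩ := (mem_filter.1 hi).imp_left (mF i).1
      exact mem_filter.2 ⟨mem_powerset.2 a1, ⟨a2, a5⟩, a3, a4 ▸ lab_zo⟩
    · exact prod_nonneg fun o _ => w0 o
    · obtain ⟨a0, ⟨-, -, a3⟩, a4⟩ := (mem_filter.1 hi).imp_right (mF _).1
      exact mem_filter.2 ⟨a0, (us_singleton _ _).symm.trans a3, a4 ▸ lab_zo⟩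
    · exact w2 i
    · obtain ⟨a0, ⟨-, a2, a3⟩, a4⟩ := (mem_filter.1 hi).imp_right (mF _).1
      exact mem_filter.2 ⟨a0, a2, a3, by rw [← a4, Pl.lab (by simp [Pl, oM, nc])]⟩
    · exact sq_nonneg _
  have n0 : 0 ≤ ∑ O ∈ F.filter (fun O => O.card ≠ 1 ∧ ¬ MM O), (∏ o ∈ O, S.wo b k o) * H :=
    sum_nonneg fun O _ => mul_nonneg (prod_nonneg fun o _ => w0 o) H0
  have n1 : 0 ≤ ∑ q ∈ S.Λ'.offDiag, (if {oM q.1, oM q.2} ∈ F then S.θ2 b ^ 2 * H else 0) :=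
    sum_nonneg fun q _ => ite_nonneg (mul_nonneg (sq_nonneg _) H0) le_rfl
  refine le_trans ?_ fin
  rw [Sd.Kr, norm_mul, ← hF]
  by_cases hχ : ∀ y ∈ S.Din Y \ c.biUnion id, Fq (S.p'.R + 1) S.p'.ε (sh y W)
  swap
  · obtain ⟨y, hy, h1⟩ : ∃ y ∈ _, ¬ _ := by simpa only [not_forall, exists_prop] using hχ
    rw [prod_eq_zero hy (if_neg h1), norm_zero, mul_zero]
    exact add_nonneg (add_nonneg n0 (sum_nonneg fun o _ => μ0 o)) n1
  rw [prod_eq_one (f := chi S.p' W) fun y hy => if_pos (hχ y hy), norm_one, mul_one]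
  have gen : ∀ O ∈ F, ‖S.wO ψ K W O‖ ≤ (∏ o ∈ O, S.wo b k o) * H := fun O hO => by
    obtain ⟨⟨a1, -, a3⟩, a4⟩ := (mF O).1 hO
    by_cases hw : S.wf W O = 0
    · rw [wO, hw, zero_mul, norm_zero]
      exact mul_nonneg (prod_nonneg fun o _ => w0 o) H0
    · refine (C.hole O a1 ⟨hw, by rwa [a3, a4]⟩).trans_eq ?_
      rw [Sd.hw, a4, hH, ← Real.exp_add, neg_add_rev]
      rfl
  have pl : ∀ O ∈ F, Pl O → S.In W O ∧ H = 1 := fun O hO hp => by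
    obtain ⟨⟨-, -, a3⟩, a4⟩ := (mF O).1 hO
    rw [hp.lab] at a4
    subst a4
    exact ⟨fun y hy => hχ y (by simpa [a3] using hy), by simp [hH, cw, Rg]⟩
  have eqv : ∀ O O', O ⊆ S.obs → O' ⊆ S.obs → Conn S.sp O → Conn S.sp O' → Pl O → Pl O' →
      us S.sp O = us S.sp O' → (O ∈ F ↔ O' ∈ F) := fun O O' a1 a2 a3 a4 a5 a6 a7 => by
    simp only [mF, a1, a2, a3, a4, a5.lab, a6.lab, a7]
  set φ : Finset Ob → ℂ := fun O => if O ∈ F then S.wO ψ K W O else 0 with hφ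
  have one : ∀ {ι : Type} (T : Finset ι) (f : ι → Ob), (∀ i ∈ T, {f i} ∈ F →
      ‖S.wO ψ K W {f i}‖ ≤ w1 S b θ k (f i) * H) → ‖∑ i ∈ T, φ {f i}‖ ≤ ∑ i ∈ T, μ (f i) :=
    fun T f hf => norm_sum_le_of_le _ fun i hi => by
      simp only [hφ, hμ]
      split_ifs with a1
      exacts [hf i hi a1, norm_zero.le]
  have gen1 : ∀ o, {o} ∈ F → ‖S.wO ψ K W {o}‖ ≤ S.wo b k o * H := fun o ho => by
    simpa only [prod_singleton] using gen _ ho
  have m0 := norm_sum_le_of_le (F.filter fun O => O.card ≠ 1 ∧ ¬ MM O)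
    fun O hO => gen O (mem_filter.1 hO).1
  have m1 := one ((lps (box (S.nf / 2))).filter (¬ Sm1 S ·)) (fun o => .inl (.inl o))
    fun o ho a1 => by rw [w1, if_neg (mem_filter.1 ho).2, mul_one]; exact gen1 _ a1
  have m2 := one S.Λ' oD fun y _ => gen1 _
  have m3 := one S.Λ' oW fun y _ => gen1 _
  have m4 := one (S.Λ'.powerset.erase ∅) oZ fun y _ => gen1 _
  have m5 := one S.Λ' oM fun y hy a1 => by
    obtain ⟨a2, a3⟩ := pl _ a1 (by simp [Pl, oM, nc])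
    rw [a3, mul_one]
    exact C.c1 y hy a2
  have m6 : ‖∑ q ∈ S.Λ'.offDiag.filter (fun q => ¬ nearT S.n (2 * S.D0) q.1 q.2),
      φ {oM q.1, oM q.2}‖ ≤ _ := (norm_sum_le_of_le _ fun q hq => ?_).trans
    (sum_le_sum_of_subset_of_nonneg (f := fun q : St × St => if {oM q.1, oM q.2} ∈ F then
      S.θ2 b ^ 2 * H else 0) (filter_subset _ _) fun q _ _ =>
        ite_nonneg (mul_nonneg (sq_nonneg _) H0) le_rfl)
  swap
  · simp only [hφ]
    split_ifs with a1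
    · obtain ⟨a2, a3⟩ := pl _ a1 (by simp [Pl, oM, nc])
      obtain ⟨a4, a5⟩ := mem_filter.1 hq
      rw [a3, mul_one]
      exact C.far _ (mem_offDiag.1 a4).1 _ (mem_offDiag.1 a4).2.1 a5 a2
    · exact norm_zero.le
  have m7 : ‖∑ q ∈ S.Λ'.offDiag.filter (fun q => nearT S.n (2 * S.D0) q.1 q.2),
      φ {oM q.1, oM q.2} + 2 • ∑ q ∈ S.Λ' ×ˢ S.prs, φ {oP q.1 q.2}‖ ≤
      ∑ q ∈ S.Λ' ×ˢ S.prs, μ (oP q.1 q.2) := by
    rw [sum_near ok fun y y' => φ {oM y, oM y'}, two_smul, ← add_assoc]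
    conv_lhs => enter [1, 2]; rw [sum_flip ok fun y u => φ {oP y u}]
    rw [← sum_add_distrib, ← sum_add_distrib]
    refine norm_sum_le_of_le _ fun q hq => ?_
    obtain ⟨a1, a2⟩ := mem_product.1 hq
    have sP : ∀ y ∈ S.Λ', ∀ u ∈ S.prs, {oP y u} ⊆ S.obs := fun y hy u hu => by
      simp [oP, obs, mks, hy, hu]
    have a3 : rc S.n (q.1 + q.2) ∈ S.Λ' := rc_mem ok.odd _
    have pP : ∀ y u, Pl {oP y u} := by simp [Pl, oP, nc]
    have e1 := eqv {oM q.1, oM (rc S.n (q.1 + q.2))} _ (insert_subset (mem_obs_M.2 a1)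
      (singleton_subset_iff.2 (mem_obs_M.2 a3))) (sP _ a1 _ a2) (conn_pair (not_disjoint_iff.2
        ⟨_, mem_tb_single.2 ⟨rc_rc _ _, nearT_rc_right.2 ((nearT_add (mem_of_mem_erase a2)).mono
          (by omega))⟩, mem_tb_single.2 ⟨rc_rc _ _, nearT.refl _ _ _⟩⟩)) (conn_single _ _)
      (by simp [Pl, oM, nc]) (pP _ _) (by rw [us_MM, us_singleton]; rfl)
    have e2 := eqv _ _ (sP _ a3 (-q.2) (mem_erase.2 ⟨neg_ne_zero.2 (mem_erase.1 a2).1,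
      neg_mem_box (mem_erase.1 a2).2⟩)) (sP _ a1 _ a2) (conn_single _ _) (conn_single _ _) (pP _ _)
      (pP _ _) (by simp only [us_singleton, sp, oP, bs, rc_back ok a1, pair_comm])
    simp only [hφ, hμ, e1, e2]
    split_ifs with a4
    · obtain ⟨a5, a6⟩ := pl _ a4 (pP _ _)
      rw [a6, mul_one]
      exact C.c2 _ a1 _ a2 a5
    · simp
  have m8 : ‖∑ o ∈ (lps (box (S.nf / 2))).filter (Sm1 S), φ {.inl (.inl o)} +
      ∑ q ∈ S.Λ' ×ˢ S.X1s, φ {oS q.1 q.2}‖ ≤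
      ∑ o ∈ (lps (box (S.nf / 2))).filter (Sm1 S), μ (.inl (.inl o)) := by
    rw [smo_eq ok fun y X => φ {oS y X}, ← sum_add_distrib]
    refine norm_sum_le_of_le _ fun o ho => ?_
    obtain ⟨a1, a2⟩ := mem_filter.1 ho
    have pX : Pl {.inl (.inl o)} := by simp [Pl, nc, a2.1]
    have e1 : ∀ y ∈ dn S.l S.n o.1, {oS y (trS S.nf (-up S.l y) o.1)} ∈ F ↔ {.inl (.inl o)} ∈ F :=
      fun y hy => eqv _ _ (by simpa [oS, obs, mks] using (smo_inv ok ho hy).1)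
        (by simpa [obs] using a1) (conn_single _ _) (conn_single _ _) (by simp [Pl, oS, nc]) pX
        (by simp only [us_singleton, sp, oS, bs, (smo_inv ok ho hy).2])
    rw [sum_congr rfl fun y hy => if_congr (e1 y hy) rfl rfl]
    simp only [hφ, hμ]
    split_ifs with a4
    · obtain ⟨a5, a6⟩ := pl _ a4 pX
      rw [a6, mul_one, w1, if_pos a2]
      obtain ⟨X, c⟩ := o
      obtain rfl : c = ∅ := a2.1
      simpa [wo, oX] using C.c3 X (mem_lps.1 a1).1 (mem_lps.1 a1).2.1 a2.2 a5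
    · simp
  have m9 := sum_nonneg fun (q : St × St) (_ : q ∈ S.Λ' ×ˢ S.prs) => μ0 (oP q.1 q.2)
  have m10 := sum_nonneg fun (q : St × Finset St) (_ : q ∈ S.Λ' ×ˢ S.X1s) => μ0 (oS q.1 q.2)
  have key := sum_split (S := S) (F := F) (fun O hO => ((mF O).1 hO).1.1) (S.wO ψ K W)
  change _ = _ + 2 • ∑ o ∈ S.obs, φ {o} + ∑ q ∈ _, φ _ at key
  rw [sum_obs, ← sum_filter_add_sum_filter_not _ (Sm1 S), ← sum_filter_add_sum_filter_not
    S.Λ'.offDiag fun q => nearT S.n (2 * S.D0) q.1 q.2] at key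
  rw [sum_obs, ← sum_filter_add_sum_filter_not (lps _) (Sm1 S)]
  have alg : ∀ x x0 x1 x2 x3 x4 x5 x6 x7 x8 x9 x10 : ℂ,
      2 • x = 2 • x0 + 2 • (x8 + x1 + (x2 + x3) + (x5 + (x9 + (x10 + x4)))) + (x7 + x6) → 2 * ‖x‖ ≤
      2 * (‖x0‖ + ‖x1‖ + ‖x2‖ + ‖x3‖ + ‖x4‖ + ‖x5‖ + ‖x8 + x10‖) + ‖x6‖ + ‖x7 + 2 • x9‖ := by
    intro x x0 x1 x2 x3 x4 x5 x6 x7 x8 x9 x10 e
    have e' : 2 * x = 2 * (x0 + x1 + x2 + x3 + x4 + x5 + (x8 + x10)) + x6 + (x7 + 2 • x9) := by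
      simp only [two_smul] at e ⊢
      linear_combination e
    rw [← Complex.norm_two, ← norm_mul, e']
    refine norm_add₃_le.trans ?_
    rw [norm_mul]
    gcongr
    iterate 6 refine (norm_add_le _ _).trans (add_le_add_left ?_ _)
    rfl
  linarith [alg _ _ _ _ _ _ _ _ _ _ _ _ key]

theorem b_nonneg (H : S.Sml b θ k ψ K) : 0 ≤ b :=
  (norm_nonneg _).trans (H.pu.2 0 0 (fun _ _ => rfl) (Ho.cv_zero _
    (le_trans (mul_pos (pow_pos S.Q0 _) h.nu.ok.g0).le h.nu.ρ_ge)))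

theorem hole_of (H : S.Sml b θ k ψ K) (hm : Measurable fun x : Conf × VB => S.FO ψ K x.1 O x.2)
    {f : VB → ℝ} (h1 : Integrable f (PB S.l (RG.nu S.zm))) (h2 : ∫ v, f v ∂PB S.l (RG.nu S.zm) ≤ 1)
    (h3 : ∀ᵐ v ∂PB S.l (RG.nu S.zm),
      ‖S.FO ψ K W O (pcs S.n v)‖ ≤ (∏ o ∈ O, S.wo b k o) * S.hw W O * f v) :
    Integrable (fun v => S.FO ψ K W O (pcs S.n v)) (PB S.l (RG.nu S.zm)) ∧
      ‖S.wO ψ K W O‖ ≤ (∏ o ∈ O, S.wo b k o) * S.hw W O := by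
  refine ⟨(h1.const_mul _).mono' (hm.comp (measurable_const.prodMk
    (Mx.meas_pcs _))).aestronglyMeasurable h3, ?_⟩
  have h4 : ‖S.wf W O‖ ≤ 1 := by
    rw [wf, norm_mul, norm_prod, norm_prod]
    refine mul_le_one₀ ?_ (prod_nonneg fun _ _ => norm_nonneg _) ?_ <;>
      refine prod_le_one (fun _ _ => norm_nonneg _) fun y _ => ?_ <;>
      rcases Xp.chi_cases S.p' W y with e | e <;> simp [e]
  rw [wO, norm_mul]
  refine (mul_le_of_le_one_left (norm_nonneg _) h4).trans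
    ((norm_integral_le_of_norm_le (h1.const_mul _) h3).trans ?_)
  rw [integral_const_mul]
  exact mul_le_of_le_one_right (mul_nonneg (prod_nonneg fun o _ =>
    wo_nonneg h.nu.ok h.op (h.b_nonneg H) H.kn.1 o) (Real.exp_nonneg _)) h2

end Hy

theorem ev_hy (c : ℕ) : ∀ᶠ S in ev c, Hy S := by
  filter_upwards [ev_nu' c 0, ev_tok] with S h ht using ⟨h, h.op ht⟩

theorem hole_bd_of {c : ℕ} (h1 : ∀ᶠ S in ev c, ∀ W, Per S.n W → ∀ O ⊆ S.obs, S.Sup W O →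
      ∃ h : VB → ℝ, Integrable h (PB S.l (nu S.zm)) ∧ ∫ v, h v ∂PB S.l (nu S.zm) ≤ 1 ∧
        ∀ b θ k ψ K, S.Sml b θ k ψ K → ∀ᵐ v ∂PB S.l (nu S.zm),
          ‖S.FO ψ K W O (pcs S.n v)‖ ≤ (∏ o ∈ O, S.wo b k o) * S.hw W O * h v)
    (h2 : ∀ᶠ S in ev c, ∀ b θ k ψ K, S.Sml b θ k ψ K → ∀ O ⊆ S.obs,
      Measurable (fun x : Conf × VB => S.FO ψ K x.1 O x.2)) :
    ∀ᶠ S in ev c, ∀ b θ k ψ K, S.Sml b θ k ψ K → ∀ W, Per S.n W → ∀ O ⊆ S.obs,
      S.Sup W O → Integrable (fun v => S.FO ψ K W O (pcs S.n v)) (PB S.l (nu S.zm)) ∧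
        ‖S.wO ψ K W O‖ ≤ (∏ o ∈ O, S.wo b k o) * S.hw W O := by
  filter_upwards [ev_hy c, h1, h2] with S h h1 h2 b θ k ψ K H W hW O hO hs
  obtain ⟨f, a1, a2, a3⟩ := h1 W hW O hO hs
  exact h.hole_of H (h2 b θ k ψ K H O hO) a1 a2 (a3 b θ k ψ K H)

theorem kp_sum_of {c : ℕ} (h1 : ∀ᶠ S in ev c, ∀ b θ k ψ K, S.Sml b θ k ψ K → ∀ W, Per S.n W →
      Cn S b θ k ψ K W) :
    ∀ᶠ S in ev c, ∀ b θ k, S.Q ^ 100 * b ≤ 1 → S.Q ^ 100 * θ ≤ 1 → 0 ≤ b →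
      kN S.p S.nf k θ → ∃ k', kN S.p'.up S.n k' (S.θ' b θ) ∧ ∀ ψ K, S.Sml b θ k ψ K →
        ∀ Y c' W, Per S.n W →
          ‖S.Kr ψ K Y c' W‖ ≤ k' Y c' * Real.exp (-(S.p'.lam * Rg c' W)) := by
  filter_upwards [ev_hy c, h1] with S h h1 b θ k hb hθ b0 hk
  exact ⟨_, h.kN_kk b0 hb hθ hk, fun ψ K H _ _ W hW => h.kr_le b0 hk (h1 b θ k ψ K H W hW)⟩

end Pool.Agent.Lib.MP_7f377f_mp.RG.Q4.Kp
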