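import Pool.Agent.Lib.MP_7f377f_mp.Q4LocB
import Pool.Agent.Lib.MP_7f377f_mp.Q4Tau

/-! Closed walk expansion of the determinant: the identity and the sums on the torus. -/

noncomputable section

namespace Pool.Agent.Lib.MP_7f377f_mp.RG.Q4.Loc

open Finset Polynomial Matrix
open scoped Matrix.Norms.L2Operator

variable {I σ : Type} [Fintype I] [DecidableEq I] [DecidableEq σ]
  {π : I → σ} {B : σ → Finset σ} {M : Matrix I I ℂ} {Λ : Finset σ}
  {η : Fin 3 → ℝ} {η0 q ε : ℝ} {β d N K : ℕ}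

/-! ### Finite range -/

/-- the powers up to `K` do not leave the balls -/
def Rg (π : I → σ) (B : σ → Finset σ) (K : ℕ) (M : Matrix I I ℂ) : Prop :=
  ∀ k ≤ K, ∀ y, prj π y * cpr π (B y) M ^ k = prj π y * M ^ k

theorem rg_of_nb (nb : ℕ → σ → σ → Prop) (h0 : ∀ i, nb 0 (π i) (π i))
    (h1 : ∀ k y i j, nb k y (π i) → M i j ≠ 0 → nb (k + 1) y (π j))
    (h2 : ∀ k ≤ K, ∀ y j, nb k y (π j) → π j ∈ B y) : Rg π B K M := by
  have key : ∀ i, ∀ k ≤ K, ∀ j, (cpr π (B (π i)) M ^ k) i j = (M ^ k) i j ∧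
      ((M ^ k) i j ≠ 0 → nb k (π i) (π j)) := fun i k => by
    induction k with
    | zero =>
      refine fun _ j => ⟨by simp, fun h => ?_⟩
      obtain rfl : i = j := by_contra fun h1 => h (by simp [one_apply_ne h1])
      exact h0 i
    | succ k ih =>
      intro hk j
      have ih := ih (by omega)
      simp only [pow_succ, mul_apply]
      refine ⟨sum_congr rfl fun l _ => ?_, fun h => ?_⟩
      · rw [(ih l).1, cpr_apply]
        split_ifs with h
        · rfl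
        · by_contra h3
          have h4 := mul_ne_zero_iff.1 fun h4 : (M ^ k) i l * M l j = 0 => h3 (by rw [h4, mul_zero])
          exact h ⟨h2 k (by omega) _ _ ((ih l).2 h4.1), h2 _ hk _ _ (h1 _ _ _ _ ((ih l).2 h4.1) h4.2)⟩
      · obtain ⟨l, -, h3⟩ := exists_ne_zero_of_sum_ne_zero h
        exact h1 _ _ _ _ ((ih l).2 (left_ne_zero_of_mul h3)) (right_ne_zero_of_mul h3)
  intro k hk y
  ext i j
  rw [prj_mul, prj_mul]
  split_ifs with h
  · exact h ▸ (key i k hk j).1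
  · rfl

theorem Rg.lp (h : Rg π B K M) {p : ℂ[X]} (hp : p.natDegree ≤ K) (y : σ) :
    lp π B p M y = prj π y * aeval M p := by
  rw [Loc.lp, aeval_eq_sum_range, aeval_eq_sum_range, mul_sum, mul_sum]
  refine sum_congr rfl fun k hk => ?_
  rw [mul_smul_comm, mul_smul_comm, h k ((Nat.lt_succ_iff.1 (mem_range.1 hk)).trans hp)]

theorem sum_Qm (h : Rg π B K M) (hΛ : ∀ i, π i ∈ Λ) {p s : ℂ[X]} (hp : p.natDegree ≤ K)
    (hs : s.natDegree ≤ K) (m : ℕ) :
    ∑ S ∈ Λ.powerset, Qm π B p s M m S = trace (aeval M (s * p ^ m)) := by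
  simp only [Qm, ← trace_sum, sum_Wm, h.lp hp, h.lp hs, ← sum_mul, sum_prj hΛ, one_mul, map_mul,
    map_pow]

/-- the trace of a polynomial as a sum over the blocks -/
theorem trace_blocks (h : Rg π B K M) (hΛ : ∀ i, π i ∈ Λ) {p : ℂ[X]} (hp : p.natDegree ≤ K) :
    trace (aeval M p) = ∑ y ∈ Λ, trace (lp π B p M y) := by
  simp only [← trace_sum, h.lp hp, ← sum_mul, sum_prj hΛ, one_mul]

theorem trace_prj_eq (y : σ) (M : Matrix I I ℂ) :
    trace (prj π y * M) = ∑ i ∈ univ.filter (fun i => π i = y), M i i := by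
  simp only [trace, diag_apply, prj_mul, ← sum_filter]

theorem deg_sP (N m : ℕ) : (sP N m).natDegree ≤ N :=
  natDegree_sum_le_of_forall_le _ _ fun _ hi => (natDegree_monomial_le _).trans (mem_range.1 hi)

theorem deg_uP (N : ℕ) : (uP N).natDegree ≤ 2 * N + 1 := by
  rw [uP_eq]
  exact natDegree_sum_le_of_forall_le _ _ fun _ hi => (natDegree_monomial_le _).trans
    (by have := mem_range.1 hi; omega)

/-! ### Polynomials in a matrix -/

theorem cpr_unit (M : Matrix I I ℂ) : cpr (fun _ => ()) univ M = M := by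
  ext i j
  simp [cpr_apply]

theorem lp_unit (p : ℂ[X]) (M : Matrix I I ℂ) :
    lp (fun _ => ()) (fun _ => univ) p M () = aeval M p := by
  rw [lp, cpr_unit]
  simp [prj]

theorem cN_aeval (h : Eta η0 η) {F : Vx → Matrix I I ℂ} (hF : cN η F ≤ q) {ι : Type}
    (t : Finset ι) (k : ι → ℕ) (c : ι → ℂ) :
    cN η (fun T => aeval (F T) (∑ a ∈ t, monomial (k a) (c a))) ≤ ∑ a ∈ t, ‖c a‖ * q ^ k a := by
  simpa only [lp_unit] using cN_lp (π := fun _ => ()) (B := fun _ => univ) (y := ()) h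
    (by simpa only [cpr_unit] using hF) t k c

theorem cN_uP (h : Eta η0 η) {F : Vx → Matrix I I ℂ} (q1 : q ≤ 1) (hF : cN η F ≤ q) (N : ℕ) :
    cN η (fun T => aeval (F T) (uP N)) ≤ (2 * N + 1) * q ^ N := by
  simpa only [lp_unit] using (cN_four (π := fun _ => ()) (B := fun _ => univ) (y := ()) h q1
    (by simpa only [cpr_unit] using hF) N le_rfl).2.1

theorem norm_uP (q1 : q ≤ 1) (hM : ‖M‖ ≤ q) (N : ℕ) :
    ‖aeval M (uP N)‖ ≤ (2 * N + 1) * q ^ N := by
  simpa only [cN_const] using cN_uP eta_one (F := fun _ => M) q1 (by simpa only [cN_const]) N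

theorem cN_pP (h : Eta η0 η) {F : Vx → Matrix I I ℂ} (hF : cN η F ≤ 1) (N : ℕ) :
    cN η (fun T => aeval (F T) (pP N)) ≤ N + 1 := by
  refine (cN_aeval h hF _ (fun k => k) _).trans ((sum_le_card_nsmul _ _ 1 fun k _ => ?_).trans_eq
    (by simp))
  rw [one_pow, mul_one, Complex.norm_real, Real.norm_of_nonneg (bin_mem k).1.le]
  exact (bin_mem k).2

theorem norm_pP (hM : ‖M‖ ≤ 1) (N : ℕ) : ‖aeval M (pP N)‖ ≤ N + 1 := by
  simpa only [cN_const] using cN_pP eta_one (F := fun _ => M) (by simpa only [cN_const]) N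

theorem aeval_diagonal (v : I → ℂ) (p : ℂ[X]) :
    aeval (diagonal v) p = diagonal fun i => p.eval (v i) := by
  have := aeval_algHom_apply (diagonalAlgHom (n := I) (α := ℂ) ℂ) v p
  simp only [diagonalAlgHom_apply] at this
  rw [this]
  congr 1
  funext i
  exact (aeval_algHom_apply (Pi.evalAlgHom ℂ (fun _ => ℂ) i) v p).symm

theorem spectral (hM : M.IsHermitian) : ∃ μ : I → ℝ, (∀ i, |μ i| ≤ ‖M‖) ∧
    (∀ p : ℂ[X], trace (aeval M p) = ∑ i, p.eval (μ i : ℂ)) ∧
    (∀ p : ℂ[X], det (aeval M p) = ∏ i, p.eval (μ i : ℂ)) ∧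
    ∀ p : ℂ[X], ∀ i, ‖p.eval (μ i : ℂ)‖ ≤ ‖aeval M p‖ := by
  set U := hM.eigenvectorUnitary
  have h1 : star (U : Matrix I I ℂ) * U = 1 := Unitary.coe_star_mul_self U
  have h2 : cj _ _ h1 M = diagonal fun i => (hM.eigenvalues i : ℂ) := by
    have := hM.conjStarAlgAut_star_eigenvectorUnitary
    rw [Unitary.conjStarAlgAut_star_apply] at this
    exact this
  have h3 : ∀ p : ℂ[X], star (U : Matrix I I ℂ) * aeval M p * U =
      diagonal fun i => p.eval (hM.eigenvalues i : ℂ) := fun p => by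
    rw [← aeval_diagonal, ← h2, aeval_algHom_apply]
    rfl
  have h4 : ∀ p : ℂ[X], ∀ i, ‖p.eval (hM.eigenvalues i : ℂ)‖ ≤ ‖aeval M p‖ := fun p i => by
    have := entry_le (star (U : Matrix I I ℂ) * aeval M p * (U : Matrix I I ℂ)) i i
    rwa [CStarRing.norm_mul_coe_unitary, ← Unitary.coe_star, CStarRing.norm_coe_unitary_mul,
      Unitary.coe_star, h3, diagonal_apply_eq] at this
  refine ⟨hM.eigenvalues, fun i => by simpa using h4 X i, fun p => ?_, fun p => ?_, h4⟩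
  · rw [← trace_diagonal, ← h3, trace_mul_comm, ← mul_assoc, mul_eq_one_comm.1 h1, one_mul]
  · rw [← det_diagonal, ← h3, det_mul, det_mul, mul_right_comm, ← det_mul, h1, det_one, one_mul]

/-! ### The identity -/

theorem scalar (N1 : 1 ≤ N) {t : ℝ} (ht : |t| < 1) (hu : ‖(uP N).eval (t : ℂ)‖ < 1) :
    ∃ a b : ℂ, HasSum (fun m => (sP N m * (X ^ N) ^ (m + 1)).eval (t : ℂ)) a ∧
      HasSum (fun m : ℕ => (C (1 / (2 * ((m : ℂ) + 1))) * uP N ^ (m + 1)).eval (t : ℂ)) b ∧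
      (‖(pP N).eval (t : ℂ)‖ : ℂ) = Complex.exp ((pQ N).eval (t : ℂ) + (a - b)) := by
  have : NeZero N := ⟨by omega⟩
  set P : ℝ := ∑ k ∈ range (N + 1), bin k * t ^ k with hP
  have e1 : (pP N).eval (t : ℂ) = P := by simp [pP, hP, eval_finset_sum]
  have e2 : (uP N).eval (t : ℂ) = (1 - P ^ 2 * (1 - t) : ℝ) := by simp [uP, e1]
  rw [e2, Complex.norm_real, Real.norm_eq_abs] at hu
  set u := 1 - P ^ 2 * (1 - t) with hu'
  have h1 := Real.hasSum_pow_div_log_of_abs_lt_one ht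
  have h2 := (hasSum_nat_add_iff' N).2 h1
  have h3 := ((Nat.divModEquiv N).symm.hasSum_iff.2 h2).prod_fiberwise fun m => hasSum_fintype _
  have h4 := Real.hasSum_pow_div_log_of_abs_lt_one hu
  refine ⟨_, _, (Complex.hasSum_ofReal.2 (h3.div_const 2)).congr_fun fun m => ?_,
    (Complex.hasSum_ofReal.2 (h4.div_const 2)).congr_fun fun m => ?_, ?_⟩
  · simp only [sP, eval_mul, eval_finset_sum, eval_monomial, eval_pow, eval_X, sum_mul,
      Function.comp, Nat.divModEquiv_symm_apply]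
    rw [sum_range, sum_div, Complex.ofReal_sum]
    refine sum_congr rfl fun j _ => ?_
    rw [show m * N + j + N + 1 = j + 1 + N * (m + 1) by ring, pow_add t, pow_mul]
    push_cast
    rw [div_div, mul_comm _ (2 : ℂ), show (m * N + j + N + 1 : ℂ) = (m + 1) * N + j + 1 by ring]
    ring
  · rw [eval_mul, eval_C, eval_pow, e2]
    push_cast
    rw [div_div, mul_comm _ (2 : ℂ)]
    ring
  · have e3 : (pQ N).eval (t : ℂ) = ((∑ i ∈ range N, t ^ (i + 1) / (i + 1)) / 2 : ℝ) := by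
      simp only [pQ, eval_finset_sum, eval_monomial]
      rw [sum_div, Complex.ofReal_sum]
      refine sum_congr rfl fun j _ => ?_
      push_cast
      rw [div_div, mul_comm _ (2 : ℂ)]
      ring
    have t1 : 0 < 1 - t := by linarith [(abs_lt.1 ht).2]
    have u1 : 1 - u = P ^ 2 * (1 - t) := by rw [hu']; ring
    have P0 : P ≠ 0 := fun h => by
      have := (abs_lt.1 hu).2
      rw [hu', h] at this
      norm_num at this
    rw [e1, e3, ← Complex.ofReal_sub, ← Complex.ofReal_add, ← Complex.ofReal_exp,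
      Complex.norm_real, u1, Real.log_mul (pow_ne_zero 2 P0) t1.ne', Real.log_pow,
      Real.norm_eq_abs, ← Real.exp_log (abs_pos.2 P0), Real.log_abs]
    congr 2
    push_cast
    ring

/-- the logarithm of the determinant as a sum of local terms -/
theorem det_exp (hM : M.IsHermitian) (hq : ‖M‖ ≤ q) (q1 : q < 1) (hΛ : ∀ i, π i ∈ Λ)
    (hB : Nb B Λ d) (hβ : ∀ y, (univ.filter fun i => π i = y).card ≤ β) (N1 : 1 ≤ N)
    (hε : (2 * N + 1) * q ^ N ≤ ε) (hd : d * ε ≤ 1 / 2) (hr : Rg π B (2 * N + 1) M) :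
    (‖det (aeval M (pP N))‖ : ℂ) =
      Complex.exp (trace (aeval M (pQ N)) + ∑ S ∈ Λ.powerset, Qd π B N M S) := by
  have q0 := (norm_nonneg _).trans hq
  have ε0 : 0 ≤ ε := le_trans (by positivity) hε
  obtain ⟨μ, m1, m2, m3, m4⟩ := spectral hM
  have h1 : ∀ i, ‖(uP N).eval (μ i : ℂ)‖ < 1 := fun i => by
    have d1 : (1 : ℝ) ≤ d := by
      exact_mod_cast (card_pos.2 ⟨_, hB.self _ (hΛ i)⟩).trans_le (hB.card _ (hΛ i))
    have := (m4 _ i).trans ((norm_uP q1.le hq N).trans hε)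
    nlinarith
  choose a b ha hb hab using fun i => scalar N1 (((m1 i).trans hq).trans_lt q1) (h1 i)
  have h2 := fun S (hS : S ∈ Λ.powerset) m => norm_terms hβ (hB.mono (mem_powerset.1 hS)).self
    q0 q1.le hε (fun y _ => (norm_cpr (B y) M).trans hq) m
  have h3 := fun S (hS : S ∈ Λ.powerset) =>
    (summable_kq0 (hB.mono (mem_powerset.1 hS)) ε0 hd).mul_left (β * (1 / 2) : ℝ)
  have h4 : ∑ S ∈ Λ.powerset, QS π B (X ^ N) (sP N) M S = ∑ i, a i := by
    simp only [QS]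
    rw [← Summable.tsum_finsetSum fun S hS => (h3 S hS).of_norm_bounded fun m => (h2 S hS m).1,
      ← (hasSum_sum fun i _ => ha i).tsum_eq]
    exact tsum_congr fun m => by
      rw [sum_Qm hr hΛ (by rw [natDegree_X_pow]; omega) ((deg_sP N m).trans (by omega)), m2]
  have h5 : ∑ S ∈ Λ.powerset, QS π B (uP N) (fun m => C (1 / (2 * ((m : ℂ) + 1)))) M S =
      ∑ i, b i := by
    simp only [QS]
    rw [← Summable.tsum_finsetSum fun S hS => (h3 S hS).of_norm_bounded fun m => (h2 S hS m).2,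
      ← (hasSum_sum fun i _ => hb i).tsum_eq]
    exact tsum_congr fun m => by
      rw [sum_Qm hr hΛ (deg_uP N) (by rw [natDegree_C]; omega), m2]
  simp only [Qd, sum_sub_distrib, h4, h5]
  rw [m2, m3, norm_prod, Complex.ofReal_prod, ← sum_sub_distrib, ← sum_add_distrib,
    Complex.exp_sum]
  exact prod_congr rfl fun i _ => hab i

/-- the determinant as a product of local factors -/
theorem det_eq (hM : M.IsHermitian) (hq : ‖M‖ ≤ q) (q1 : q < 1) (hΛ : ∀ i, π i ∈ Λ)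
    (hB : Nb B Λ d) (hβ : ∀ y, (univ.filter fun i => π i = y).card ≤ β) (N1 : 1 ≤ N)
    (hε : (2 * N + 1) * q ^ N ≤ ε) (hd : d * ε ≤ 1 / 2) (hr : Rg π B (2 * N + 1) M) :
    (‖det (aeval M (pP N))‖ : ℂ) =
      Complex.exp (trace (aeval M (pQ N))) * ∏ S ∈ Λ.powerset, (1 + dm π B N M S) := by
  rw [det_exp hM hq q1 hΛ hB hβ N1 hε hd hr, Complex.exp_add, Complex.exp_sum]
  simp only [dm, add_sub_cancel]

/-! ### Real matrices and bounds for the Euclidean operator norm -/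

theorem herm_ofReal {A : Matrix I I ℝ} (h : Aᵀ = A) : (A.map Complex.ofReal).IsHermitian := by
  ext i j
  have : A j i = A i j := congrFun (congrFun h i) j
  simp [conjTranspose_apply, this]

theorem aeval_ofReal (A : Matrix I I ℝ) (p : ℝ[X]) :
    aeval (A.map Complex.ofReal) (p.map (algebraMap ℝ ℂ)) = (aeval A p).map Complex.ofReal := by
  rw [aeval_map_algebraMap]
  exact aeval_algHom_apply (Complex.ofRealAm.mapMatrix (m := I)) A p

theorem det_ofReal (A : Matrix I I ℝ) : det (A.map Complex.ofReal) = (det A : ℝ) :=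
  (Complex.ofRealHom.map_det A).symm

/-- the Euclidean operator norm from a bound on vectors -/
theorem l2_le (q0 : 0 ≤ q)
    (h : ∀ v : I → ℂ, ∑ i, ‖(M *ᵥ v) i‖ ^ 2 ≤ q ^ 2 * ∑ i, ‖v i‖ ^ 2) : ‖M‖ ≤ q := by
  rw [cstar_norm_def]
  refine ContinuousLinearMap.opNorm_le_bound _ q0 fun v => ?_
  refine (sq_le_sq₀ (by positivity) (by positivity)).1 ?_
  rw [mul_pow, EuclideanSpace.norm_sq_eq, EuclideanSpace.norm_sq_eq]
  exact h v

theorem mulVec_le (M : Matrix I I ℂ) (v : I → ℂ) :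
    ∑ i, ‖(M *ᵥ v) i‖ ^ 2 ≤ ‖M‖ ^ 2 * ∑ i, ‖v i‖ ^ 2 := by
  have := pow_le_pow_left₀ (norm_nonneg _) (l2_opNorm_mulVec M (WithLp.toLp 2 v)) 2
  rwa [mul_pow, EuclideanSpace.norm_sq_eq, EuclideanSpace.norm_sq_eq] at this

/-- only vectors which are supported in the blocks of `C` matter for the compression -/
theorem cpr_le (q0 : 0 ≤ q) {C : Finset σ} (h : ∀ v : I → ℂ, (∀ i, π i ∉ C → v i = 0) →
    ∑ i ∈ univ.filter (fun i => π i ∈ C), ‖(M *ᵥ v) i‖ ^ 2 ≤ q ^ 2 * ∑ i, ‖v i‖ ^ 2) :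
    ‖cpr π C M‖ ≤ q := by
  refine l2_le q0 fun v => ?_
  have h1 := h (fun i => if π i ∈ C then v i else 0) fun i hi => if_neg hi
  refine le_trans (le_of_eq ?_) (h1.trans (mul_le_mul_of_nonneg_left
    (sum_le_sum fun i _ => by split_ifs <;> simp) (sq_nonneg _)))
  rw [sum_filter]
  refine sum_congr rfl fun i _ => ?_
  split_ifs with hi <;> simp [mulVec, dotProduct, cpr_apply, hi]

theorem l2_le_sum (M : Matrix I I ℂ) : ‖M‖ ≤ ∑ i, ∑ j, ‖M i j‖ := by
  have h1 : ∀ (i j : I) (c : ℂ), ‖single i j c‖ ≤ ‖c‖ := fun i j c => by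
    refine l2_le (norm_nonneg _) fun v => ?_
    rw [sum_eq_single i (fun k _ hk => by simp [single_mulVec, Function.update_of_ne hk])
      (by simp), single_mulVec, Function.update_self, norm_mul, mul_pow]
    exact mul_le_mul_of_nonneg_left (single_le_sum (f := fun i => ‖v i‖ ^ 2)
      (fun _ _ => sq_nonneg _) (mem_univ j)) (sq_nonneg _)
  conv_lhs => rw [matrix_eq_sum_single M]
  exact (norm_sum_le _ _).trans (sum_le_sum fun i _ => (norm_sum_le _ _).trans
    (sum_le_sum fun j _ => h1 _ _ _))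

/-- entrywise bound for a compression -/
theorem cpr_le_entry {C : Finset σ} {v : ℝ} (hβ : ∀ y, (univ.filter fun i => π i = y).card ≤ β)
    (v0 : 0 ≤ v) (h : ∀ i j, π i ∈ C → π j ∈ C → ‖M i j‖ ≤ v) :
    ‖cpr π C M‖ ≤ (C.card * β) * v := by
  have h1 : ((univ.filter fun i => π i ∈ C).card : ℝ) ≤ C.card * β := by
    exact_mod_cast card_le_mul_card_image_of_maps_to (f := π) (fun i hi => (mem_filter.1 hi).2) β
      (fun y _ => (card_le_card fun i hi => by simp [(mem_filter.1 hi).2]).trans (hβ y)) |>.trans_eq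
      (mul_comm _ _)
  refine cpr_le (by positivity) fun w hw => ?_
  have h2 : ∀ i ∈ univ.filter (fun i => π i ∈ C),
      ‖(M *ᵥ w) i‖ ^ 2 ≤ C.card * β * v ^ 2 * ∑ j, ‖w j‖ ^ 2 := fun i hi => by
    have h3 : ‖(M *ᵥ w) i‖ ≤ ∑ j ∈ univ.filter (fun j => π j ∈ C), v * ‖w j‖ := by
      rw [sum_filter]
      refine (norm_sum_le _ _).trans (sum_le_sum fun j _ => ?_)
      split_ifs with hj
      · rw [norm_mul]
        exact mul_le_mul_of_nonneg_right (h i j (mem_filter.1 hi).2 hj) (norm_nonneg _)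
      · simp [hw j hj]
    refine (pow_le_pow_left₀ (norm_nonneg _) h3 2).trans ((sum_mul_sq_le_sq_mul_sq _ _ _).trans ?_)
    rw [sum_const, nsmul_eq_mul]
    gcongr
    exact filter_subset _ _
  refine (sum_le_card_nsmul _ _ _ h2).trans ?_
  rw [nsmul_eq_mul]
  exact (mul_le_mul_of_nonneg_right h1 (by positivity)).trans_eq (by ring)

/-- the norm of a Hermitian matrix from its quadratic form -/
theorem herm_le (hM : M.IsHermitian) (q0 : 0 ≤ q)
    (h : ∀ v : I → ℂ, ‖star v ⬝ᵥ M *ᵥ v‖ ≤ q * ∑ i, ‖v i‖ ^ 2) : ‖M‖ ≤ q := by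
  have h1 : ‖M‖ = ‖(diagonal (RCLike.ofReal ∘ hM.eigenvalues) : Matrix I I ℂ)‖ := by
    conv_lhs => rw [hM.spectral_theorem]
    rw [Unitary.conjStarAlgAut_apply, ← Unitary.coe_star, CStarRing.norm_mul_coe_unitary,
      CStarRing.norm_coe_unitary_mul]
  rw [h1, l2_opNorm_diagonal]
  refine (pi_norm_le_iff_of_nonneg q0).2 fun i => ?_
  have h2 := h (hM.eigenvectorBasis i)
  rw [← EuclideanSpace.norm_sq_eq, hM.eigenvectorBasis.norm_eq_one, one_pow, mul_one] at h2
  rw [Function.comp, hM.eigenvalues_eq, RCLike.norm_ofReal]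
  exact (RCLike.abs_re_le_norm _).trans h2

/-- the norm of a real symmetric matrix from its quadratic form on real vectors -/
theorem sym_le {A : Matrix I I ℝ} (hA : Aᵀ = A) (q0 : 0 ≤ q)
    (h : ∀ v : I → ℝ, |v ⬝ᵥ A *ᵥ v| ≤ q * ∑ i, v i ^ 2) : ‖A.map Complex.ofReal‖ ≤ q := by
  refine herm_le (herm_ofReal hA) q0 fun v => ?_
  have e1 : ∀ a b : I → ℝ, a ⬝ᵥ A *ᵥ b = b ⬝ᵥ A *ᵥ a := fun a b => by
    rw [dotProduct_mulVec, ← mulVec_transpose, hA, dotProduct_comm]
  have e2 : star v ⬝ᵥ A.map Complex.ofReal *ᵥ v = (((fun i => (v i).re) ⬝ᵥ A *ᵥ fun i => (v i).re) +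
      ((fun i => (v i).im) ⬝ᵥ A *ᵥ fun i => (v i).im) : ℝ) := by
    have := e1 (fun i => (v i).re) fun i => (v i).im
    apply Complex.ext
    · simp [dotProduct, mulVec, Complex.re_sum, Complex.im_sum, sum_add_distrib]
    · simp only [dotProduct, mulVec] at this
      simp [dotProduct, mulVec, Complex.re_sum, Complex.im_sum, sum_add_distrib, this]
  rw [e2, Complex.norm_real, Real.norm_eq_abs]
  refine (abs_add_le _ _).trans ((add_le_add (h _) (h _)).trans_eq ?_)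
  rw [← mul_add, ← sum_add_distrib]
  congr 1
  exact sum_congr rfl fun i _ => by rw [Complex.sq_norm, Complex.normSq_apply]; ring

/-! ### The torus -/

section torus

variable {n D D' R ρ : ℕ} {Λ S : Finset St} {π : I → St}

/-- balls of the torus -/
abbrev bl (n D : ℕ) : St → Finset St := fun y => tb n D {y}

theorem nb_bl (h : ∀ y ∈ Λ, rc n y = y) (D : ℕ) : Nb (bl n D) Λ ((2 * D + 1) ^ 4) :=
  ⟨fun y hy => mem_tb_single.2 ⟨h y hy, nearT.refl _ _ _⟩,
    fun y _ => by simpa using card_tb_le n D {y},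
    fun y hy _ _ h1 => mem_tb_single.2 ⟨h y hy, (mem_tb_single.1 h1).2.symm⟩⟩

theorem rg_bl (hπ : ∀ i, rc n (π i) = π i) (hM : ∀ i j, M i j ≠ 0 → nearT n ρ (π i) (π j))
    (hD : K * ρ ≤ D) : Rg π (bl n D) K M :=
  rg_of_nb (fun k y z => nearT n (k * ρ) y z) (fun _ => nearT.refl _ _ _)
    (fun _ _ i j h1 h2 => (h1.trans (hM i j h2)).mono (Nat.succ_mul _ _).ge)
    fun _ hk _ j h1 => mem_tb_single.2 ⟨hπ j, h1.mono ((Nat.mul_le_mul_right _ hk).trans hD)⟩

/-- locality on the torus -/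
theorem dm_local {M' : Matrix I I ℂ}
    (h : ∀ i j, π i ∈ tb n D S → π j ∈ tb n D S → M i j = M' i j) (N : ℕ) :
    dm π (bl n D) N M S = dm π (bl n D) N M' S :=
  dm_congr (fun _ hy i j hi hj => h i j (tb_mono (singleton_subset_iff.2 hy) le_rfl hi)
    (tb_mono (singleton_subset_iff.2 hy) le_rfl hj)) N

/-- translation covariance on the torus -/
theorem dm_shift {M' : Matrix I I ℂ} (hπ : ∀ i, rc n (π i) = π i) (hS : ∀ y ∈ S, rc n y = y)
    (e : I ≃ I) (v : St) (he : ∀ i, π (e i) = rc n (π i + v))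
    (h : ∀ i j, π i ∈ tb n D S → π j ∈ tb n D S → M' (e i) (e j) = M i j) (N : ℕ) :
    dm π (bl n D) N M' (S.image fun y => rc n (y + v)) = dm π (bl n D) N M S := by
  have h1 : ∀ x y, rc n x = x → rc n y = y → rc n (x + v) = rc n (y + v) → x = y :=
    fun x y hx hy h => by
      rw [← hx, ← hy]
      exact nearT_zero.1 ((nearT_add_right v).1 (nearT_zero.2 h))
  refine dm_reindex e _ (fun x hx y hy => h1 x y (hS x hx) (hS y hy)) (fun y hy i => ?_)
    (fun y hy i => ?_) (fun y hy i j hi hj => h i j (tb_mono (singleton_subset_iff.2 hy) le_rfl hi)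
      (tb_mono (singleton_subset_iff.2 hy) le_rfl hj)) N
  · rw [he]
    exact ⟨h1 _ _ (hπ i) (hS y hy), fun h => by rw [h]⟩
  · rw [he, mem_tb_single, mem_tb_single, rc_rc, nearT_rc_left, nearT_rc_right, nearT_add_right,
      hπ]
    simp

theorem tau_cw (hD : D ≤ D') (hR : R ≤ D') {m : ℕ} (h : cw (bl n D) m S ≠ 0) :
    tau n D' (tb n R S) ≤ m + 1 := by
  obtain ⟨y, w, h1, rfl, h2⟩ := exists_of_cw h
  have hl : (y :: w ++ [y]).length = m + 2 := by simp [h1]
  refine tau_le ⟨m.succ_pos, fun i => (y :: w ++ [y]).getD i y, ?_, fun i hi => ?_, fun x hx => ?_⟩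
  · simp [← h1]
  · beta_reduce
    rw [List.getD_eq_getElem _ _ (by omega), List.getD_eq_getElem _ _ (by omega)]
    exact (mem_tb_single.1 (List.isChain_iff_getElem.1 h2 i (by omega))).2.mono hD
  · obtain ⟨-, z, hz, h3⟩ := mem_tb.1 hx
    obtain ⟨i, hi, rfl⟩ := List.getElem_of_mem (List.mem_toFinset.1 hz)
    refine ⟨i, by simpa [h1] using hi, ?_⟩
    beta_reduce
    rw [List.getD_append _ _ _ _ hi, List.getD_eq_getElem _ _ hi]
    exact h3.mono hR

/-- the weighted sum of the majorants over the ranges which contain a point -/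
theorem sum_kw (hΛ : ∀ y ∈ Λ, rc n y = y) (hD : D ≤ D') (hR : R ≤ D') {a e : ℝ} (a0 : 0 ≤ a)
    (e0 : 0 ≤ e) (ε0 : 0 ≤ ε)
    (hε : (2 * D + 1) ^ 4 * ε * Real.exp (a + e * (2 * R + 1) ^ 4) ≤ 1 / 2) (β : ℕ) (x : St) :
    ∑ S ∈ Λ.powerset.filter (fun S => x ∈ S), kw (bl n D) β ε S *
      Real.exp (a * tau n D' (tb n R S) + e * (tb n R S).card) ≤
      18 * β * (2 * D + 1) ^ 4 * ε * Real.exp (2 * (a + e * (2 * R + 1) ^ 4)) := by
  have := sum_kq0 (nb_bl hΛ D) ε0 (A := a + e * (2 * R + 1) ^ 4) (by positivity)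
    (by exact_mod_cast hε) (fun S => a * tau n D' (tb n R S) + e * (tb n R S).card)
    (fun S _ m hm => by
      have h1 : (tau n D' (tb n R S) : ℝ) ≤ m + 1 := by exact_mod_cast tau_cw hD hR hm
      have h2 : ((tb n R S).card : ℝ) ≤ (m + 1) * (2 * R + 1) ^ 4 := by
        exact_mod_cast (card_tb_le n R S).trans (Nat.mul_le_mul_right _ (card_le_of_cw hm))
      calc _ ≤ a * (m + 1) + e * ((m + 1) * (2 * R + 1) ^ 4) := by gcongr
        _ = _ := by ring) x
  simp only [kw, mul_assoc (3 * β : ℝ), ← mul_sum]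
  refine (mul_le_mul_of_nonneg_left this (by positivity)).trans_eq ?_
  push_cast
  ring

/-- the weighted sum of the majorants over the supports which contain a point -/
theorem sum_kw' (hΛ : ∀ y ∈ Λ, rc n y = y) (hD : D ≤ D') (hR : R ≤ D') {a e : ℝ} (a0 : 0 ≤ a)
    (e0 : 0 ≤ e) (ε0 : 0 ≤ ε)
    (hε : (2 * D + 1) ^ 4 * ε * Real.exp (a + e * (2 * R + 1) ^ 4) ≤ 1 / 2) (β : ℕ) (x : St) :
    ∑ S ∈ Λ.powerset.filter (fun S => x ∈ tb n R S), kw (bl n D) β ε S *
      Real.exp (a * tau n D' (tb n R S) + e * (tb n R S).card) ≤ (2 * R + 1) ^ 4 *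
      (18 * β * (2 * D + 1) ^ 4 * ε * Real.exp (2 * (a + e * (2 * R + 1) ^ 4))) := by
  set f : Finset St → ℝ := fun S => kw (bl n D) β ε S *
    Real.exp (a * tau n D' (tb n R S) + e * (tb n R S).card)
  have f0 : ∀ S, 0 ≤ f S := fun S => mul_nonneg (kw_nonneg ε0 S) (by positivity)
  calc _ ≤ ∑ S ∈ Λ.powerset, ∑ y ∈ tb n R {x}, if y ∈ S then f S else 0 := by
        rw [sum_filter]
        refine sum_le_sum fun S hS => ?_
        have h0 : ∀ y ∈ tb n R {x}, 0 ≤ if y ∈ S then f S else 0 := fun y _ => by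
          split_ifs
          exacts [f0 S, le_rfl]
        split_ifs with h
        · obtain ⟨-, y, hy, h1⟩ := mem_tb.1 h
          simpa [hy] using single_le_sum h0
            (mem_tb_single.2 ⟨hΛ y (mem_powerset.1 hS hy), h1.symm⟩)
        · exact sum_nonneg h0
    _ ≤ _ := by
        rw [sum_comm]
        refine (sum_le_card_nsmul _ _ _ fun y _ => by
          rw [← sum_filter]
          exact sum_kw hΛ hD hR a0 e0 ε0 hε β y).trans ?_
        rw [nsmul_eq_mul]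
        refine mul_le_mul_of_nonneg_right ?_ (by positivity)
        exact_mod_cast (card_tb_le n R {x}).trans_eq (by simp)

/-- the identity on the torus -/
theorem det_torus (hM : M.IsHermitian) (hq : ‖M‖ ≤ q) (q1 : q < 1) (hΛ : ∀ y ∈ Λ, rc n y = y)
    (hπ : ∀ i, π i ∈ Λ) (hβ : ∀ y, (univ.filter fun i => π i = y).card ≤ β) (N1 : 1 ≤ N)
    (hε : (2 * N + 1) * q ^ N ≤ ε) (hd : (2 * D + 1) ^ 4 * ε ≤ 1 / 2)
    (hr : ∀ i j, M i j ≠ 0 → nearT n ρ (π i) (π j)) (hD : (2 * N + 1) * ρ ≤ D) :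
    (‖det (aeval M (pP N))‖ : ℂ) =
      Complex.exp (trace (aeval M (pQ N))) * ∏ S ∈ Λ.powerset, (1 + dm π (bl n D) N M S) :=
  det_eq hM hq q1 hπ (nb_bl hΛ D) hβ N1 hε (by exact_mod_cast hd)
    (rg_bl (fun i => hΛ _ (hπ i)) hr hD)

end torus

end Pool.Agent.Lib.MP_7f377f_mp.RG.Q4.Loc
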