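import Mathlib

/-! Closed walk expansions in a ring: words, ranges, counting. -/

noncomputable section

namespace Pool.Agent.Lib.MP_7f377f_mp.RG.Q4.Loc

open Finset

variable {σ σ' : Type} [DecidableEq σ] [DecidableEq σ']

/-- words of length `m` with letters in `Λ` -/
def wks (Λ : Finset σ) : ℕ → Finset (List σ)
  | 0 => {[]}
  | m + 1 => (Λ ×ˢ wks Λ m).image fun p => p.1 :: p.2

theorem mem_wks {Λ : Finset σ} {m : ℕ} {w : List σ} :
    w ∈ wks Λ m ↔ w.length = m ∧ ∀ y ∈ w, y ∈ Λ := by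
  induction m generalizing w with
  | zero =>
    simp only [wks, mem_singleton, List.length_eq_zero_iff]
    exact ⟨fun h => ⟨h, by simp [h]⟩, fun h => h.1⟩
  | succ m ih =>
    simp only [wks, mem_image, mem_product, Prod.exists, ih]
    constructor
    · rintro ⟨y, l, ⟨hy, hl, h⟩, rfl⟩
      exact ⟨by simp [hl], by simpa using ⟨hy, h⟩⟩
    · rintro ⟨h1, h2⟩
      cases w with
      | nil => simp at h1
      | cons y l =>
        exact ⟨y, l, ⟨h2 y (by simp), by simpa using h1, fun z hz => h2 z (by simp [hz])⟩, rfl⟩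

theorem sum_wks {M : Type} [AddCommMonoid M] (Λ : Finset σ) (m : ℕ) (f : List σ → M) :
    ∑ w ∈ wks Λ (m + 1), f w = ∑ y ∈ Λ, ∑ w ∈ wks Λ m, f (y :: w) := by
  rw [wks, sum_image, sum_product]
  rintro ⟨a, b⟩ _ ⟨c, d⟩ _ h
  simpa using h

/-- words of length `m` with range `S` -/
def rng (S : Finset σ) (m : ℕ) : Finset (List σ) := (wks S m).filter fun w => w.toFinset = S

theorem mem_rng {S : Finset σ} {m : ℕ} {w : List σ} :
    w ∈ rng S m ↔ w.length = m ∧ w.toFinset = S := by
  rw [rng, mem_filter, mem_wks]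
  exact ⟨fun h => ⟨h.1.1, h.2⟩, fun h => ⟨⟨h.1, fun y hy => h.2 ▸ List.mem_toFinset.2 hy⟩, h.2⟩⟩

theorem rng_eq {S Λ : Finset σ} (h : S ⊆ Λ) (m : ℕ) :
    rng S m = (wks Λ m).filter fun w => w.toFinset = S := by
  ext w
  rw [mem_rng, mem_filter, mem_wks]
  exact ⟨fun h1 => ⟨⟨h1.1, fun y hy => h (h1.2 ▸ List.mem_toFinset.2 hy)⟩, h1.2⟩,
    fun h1 => ⟨h1.1.1, h1.2⟩⟩

theorem sum_rng {M : Type} [AddCommMonoid M] (Λ : Finset σ) (m : ℕ) (f : List σ → M) :
    ∑ S ∈ Λ.powerset, ∑ w ∈ rng S m, f w = ∑ w ∈ wks Λ m, f w := by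
  rw [← sum_fiberwise_of_maps_to (s := wks Λ m) (t := Λ.powerset) (g := List.toFinset)
    fun w hw => mem_powerset.2 fun y hy => (mem_wks.1 hw).2 y (List.mem_toFinset.1 hy)]
  exact sum_congr rfl fun S hS => by rw [rng_eq (mem_powerset.1 hS)]

section ring

variable {R R' : Type} [Ring R] [Ring R']

/-- the product along a word -/
def tw (Y Z : σ → R) : List σ → R
  | [] => 0
  | y :: w => Z y * (w.map Y).prod

/-- the sum over the words of length `m + 1` with range `S` -/
def Wm (Y Z : σ → R) (m : ℕ) (S : Finset σ) : R := ∑ w ∈ rng S (m + 1), tw Y Z w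

theorem sum_prod (Y : σ → R) (Λ : Finset σ) (m : ℕ) :
    ∑ w ∈ wks Λ m, (w.map Y).prod = (∑ y ∈ Λ, Y y) ^ m := by
  induction m with
  | zero => simp [wks]
  | succ m ih =>
    rw [sum_wks, pow_succ', sum_mul]
    exact sum_congr rfl fun y _ => by simp only [List.map_cons, List.prod_cons, ← mul_sum, ih]

theorem sum_Wm (Y Z : σ → R) (m : ℕ) (Λ : Finset σ) :
    ∑ S ∈ Λ.powerset, Wm Y Z m S = (∑ y ∈ Λ, Z y) * (∑ y ∈ Λ, Y y) ^ m := by
  simp only [Wm]
  rw [sum_rng, sum_wks, sum_mul]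
  exact sum_congr rfl fun y _ => by simp only [tw, ← mul_sum, sum_prod]

theorem tw_map (Φ : R →+* R') (φ : σ → σ') {Y Z : σ → R} {Y' Z' : σ' → R'} {w : List σ}
    (hY : ∀ y ∈ w, Y' (φ y) = Φ (Y y)) (hZ : ∀ y ∈ w, Z' (φ y) = Φ (Z y)) :
    tw Y' Z' (w.map φ) = Φ (tw Y Z w) := by
  cases w with
  | nil => simp [tw]
  | cons y w =>
    simp only [List.map_cons, tw, map_mul, map_list_prod, List.map_map, hZ y (by simp)]
    congr 2
    exact List.map_congr_left fun z hz => hY z (by simp [hz])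

theorem sum_rng_map {M : Type} [AddCommMonoid M] (φ : σ → σ') {S : Finset σ}
    (hφ : Set.InjOn φ S) (m : ℕ) (f : List σ' → M) :
    ∑ w ∈ rng (S.image φ) m, f w = ∑ w ∈ rng S m, f (w.map φ) := by
  symm
  refine sum_bij (fun w _ => w.map φ) (fun w hw => ?_) (fun w hw w' hw' h => ?_) (fun w hw => ?_)
    fun _ _ => rfl
  · obtain ⟨h1, h2⟩ := mem_rng.1 hw
    refine mem_rng.2 ⟨by simpa using h1, ?_⟩
    ext y
    simp [← h2]
  · have h1 : ∀ y ∈ w, y ∈ S := fun y hy => (mem_rng.1 hw).2 ▸ List.mem_toFinset.2 hy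
    have h2 : ∀ y ∈ w', y ∈ S := fun y hy => (mem_rng.1 hw').2 ▸ List.mem_toFinset.2 hy
    clear hw hw'
    induction w generalizing w' with
    | nil => simpa using h.symm
    | cons y w ih =>
      cases w' with
      | nil => simp at h
      | cons y' w' =>
        simp only [List.map_cons, List.cons.injEq] at h
        rw [hφ (h1 y (by simp)) (h2 y' (by simp)) h.1,
          ih w' h.2 (fun z hz => h1 z (by simp [hz])) fun z hz => h2 z (by simp [hz])]
  · obtain ⟨h1, h2⟩ := mem_rng.1 hw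
    have h3 : ∀ y ∈ w, ∃ x ∈ S, φ x = y := fun y hy =>
      mem_image.1 (h2 ▸ List.mem_toFinset.2 hy)
    have h4 : ∃ v : List σ, (∀ x ∈ v, x ∈ S) ∧ v.map φ = w := by
      clear hw h1 h2
      induction w with
      | nil => exact ⟨[], by simp, rfl⟩
      | cons y w ih =>
        obtain ⟨v, a, b⟩ := ih fun z hz => h3 z (by simp [hz])
        obtain ⟨x, c, d⟩ := h3 y (by simp)
        exact ⟨x :: v, by simpa using ⟨c, a⟩, by simp [b, d]⟩
    obtain ⟨v, a, rfl⟩ := h4
    refine ⟨v, mem_rng.2 ⟨by simpa using h1, ?_⟩, rfl⟩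
    ext x
    refine ⟨fun hx => a x (List.mem_toFinset.1 hx), fun hx => ?_⟩
    have : φ x ∈ (v.map φ).toFinset := h2 ▸ mem_image_of_mem φ hx
    obtain ⟨z, hz, e⟩ := List.mem_map.1 (List.mem_toFinset.1 this)
    exact hφ (a z hz) hx e ▸ List.mem_toFinset.2 hz

theorem Wm_map (Φ : R →+* R') (φ : σ → σ') {S : Finset σ} (hφ : Set.InjOn φ S) {Y Z : σ → R}
    {Y' Z' : σ' → R'} (hY : ∀ y ∈ S, Y' (φ y) = Φ (Y y)) (hZ : ∀ y ∈ S, Z' (φ y) = Φ (Z y))
    (m : ℕ) : Wm Y' Z' m (S.image φ) = Φ (Wm Y Z m S) := by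
  rw [Wm, Wm, sum_rng_map φ hφ, map_sum]
  refine sum_congr rfl fun w hw => ?_
  have h1 : ∀ y ∈ w, y ∈ S := fun y hy => (mem_rng.1 hw).2 ▸ List.mem_toFinset.2 hy
  exact tw_map Φ φ (fun y hy => hY y (h1 y hy)) fun y hy => hZ y (h1 y hy)

theorem Wm_hom (Φ : R →+* R') {S : Finset σ} {Y Z : σ → R}
    {Y' Z' : σ → R'} (hY : ∀ y ∈ S, Y' y = Φ (Y y)) (hZ : ∀ y ∈ S, Z' y = Φ (Z y))
    (m : ℕ) : Wm Y' Z' m S = Φ (Wm Y Z m S) := by
  simpa using Wm_map Φ id (S := S) (Set.injOn_id _) hY hZ m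

theorem Wm_empty (Y Z : σ → R) (m : ℕ) : Wm Y Z m ∅ = 0 := by
  simp [Wm, rng, wks]

/-- `F` goes from the block `y` to the blocks in `B y` -/
def Sup (P : σ → R) (B : σ → Finset σ) (F : R) (y : σ) : Prop :=
  P y * F = F ∧ ∀ y' ∉ B y, F * P y' = 0

theorem chain_of_ne {P : σ → R} {B : σ → Finset σ} {Y : σ → R} (w : List σ) (y' : σ) :
    ∀ (y : σ) (F : R), Sup P B F y → (∀ z ∈ w, Sup P B (Y z) z) →
      F * (w.map Y).prod * P y' ≠ 0 → List.IsChain (fun a b => b ∈ B a) (y :: w ++ [y']) := by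
  induction w with
  | nil =>
    intro y F hF _ h
    simp only [List.map_nil, List.prod_nil, mul_one] at h
    simpa using by_contra fun h1 => h (hF.2 y' h1)
  | cons z w ih =>
    intro y F hF hY h
    have hz := hY z (by simp)
    simp only [List.map_cons, List.prod_cons] at h
    rw [List.cons_append, List.cons_append, List.isChain_cons_cons]
    refine ⟨by_contra fun h1 => h ?_, ih z (Y z) hz (fun a ha => hY a (by simp [ha])) fun h1 => h ?_⟩
    · rw [← hz.1, mul_assoc (P z), ← mul_assoc F, hF.2 z h1, zero_mul, zero_mul]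
    · rw [mul_assoc, h1, mul_zero]

end ring

/-- closed walks -/
def Cl (B : σ → Finset σ) : List σ → Prop
  | [] => False
  | y :: w => List.IsChain (fun a b => b ∈ B a) (y :: w ++ [y])

open Classical in
/-- the number of closed walks of length `m + 1` with range `S` -/
def cw (B : σ → Finset σ) (m : ℕ) (S : Finset σ) : ℕ := ((rng S (m + 1)).filter (Cl B)).card

/-- a system of neighbourhoods -/
structure Nb (B : σ → Finset σ) (Λ : Finset σ) (d : ℕ) : Prop where
  self : ∀ y ∈ Λ, y ∈ B y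
  card : ∀ y ∈ Λ, (B y).card ≤ d
  symm : ∀ y ∈ Λ, ∀ y' ∈ Λ, y' ∈ B y → y ∈ B y'

variable {B : σ → Finset σ} {Λ : Finset σ} {d : ℕ}

theorem Nb.mono (h : Nb B Λ d) {S : Finset σ} (hS : S ⊆ Λ) : Nb B S d :=
  ⟨fun y hy => h.self y (hS hy), fun y hy => h.card y (hS hy),
    fun y hy y' hy' => h.symm y (hS hy) y' (hS hy')⟩

open Classical in
theorem card_from (h : Nb B Λ d) (m : ℕ) : ∀ y ∈ Λ,
    ((wks Λ m).filter fun w => List.IsChain (fun a b => b ∈ B a) (y :: w)).card ≤ d ^ m := by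
  induction m with
  | zero => exact fun y _ => (card_filter_le _ _).trans (by simp [wks])
  | succ m ih =>
    intro y hy
    rw [card_filter, sum_wks]
    calc _ ≤ ∑ z ∈ Λ, if z ∈ B y then d ^ m else 0 := sum_le_sum fun z hz => by
          split_ifs with h1
          · refine le_trans (le_of_eq ?_) (ih z hz)
            rw [card_filter]
            exact sum_congr rfl fun w _ => by simp only [List.isChain_cons_cons, h1, true_and]
          · simp [List.isChain_cons_cons, h1]
      _ = (Λ.filter (· ∈ B y)).card * d ^ m := by rw [← sum_filter, sum_const, smul_eq_mul]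
      _ ≤ d * d ^ m := Nat.mul_le_mul_right _
          ((card_le_card fun z hz => (mem_filter.1 hz).2).trans (h.card y hy))
      _ = _ := by ring

open Classical in
theorem card_through (h : Nb B Λ d) (x : σ) (m : ℕ) :
    ((wks Λ (m + 1)).filter fun w => List.IsChain (fun a b => b ∈ B a) w ∧ x ∈ w).card ≤
      (m + 1) * d ^ m := by
  induction m with
  | zero =>
    rw [card_filter, sum_wks]
    simp only [wks, sum_singleton, List.isChain_singleton, List.mem_singleton, true_and,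
      sum_ite_eq]
    split_ifs <;> simp
  | succ m ih =>
    rw [card_filter, sum_wks]
    have h1 : ∀ y ∈ Λ, ∀ w ∈ wks Λ (m + 1),
        (if List.IsChain (fun a b => b ∈ B a) (y :: w) ∧ x ∈ y :: w then 1 else 0) ≤
        (if x = y then (if List.IsChain (fun a b => b ∈ B a) (y :: w) then 1 else 0) else 0) +
        if List.IsChain (fun a b => b ∈ B a) w ∧ x ∈ w then
          (if y ∈ B (w.headD x) then 1 else 0) else 0 := by
      intro y hy w hw
      obtain ⟨hl, hm⟩ := mem_wks.1 hw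
      cases w with
      | nil => simp at hl
      | cons z w =>
        by_cases h2 : List.IsChain (fun a b => b ∈ B a) (y :: z :: w) ∧ x ∈ y :: z :: w
        · rw [if_pos h2]
          by_cases h3 : x = y
          · rw [if_pos h3, if_pos h2.1]
            omega
          · have h4 := List.isChain_cons_cons.1 h2.1
            have h5 : x ∈ z :: w := (List.mem_cons.1 h2.2).resolve_left h3
            rw [if_neg h3, if_pos ⟨h4.2, h5⟩, List.headD_cons,
              if_pos (h.symm y hy z (hm z (by simp)) h4.1)]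
        · rw [if_neg h2]
          omega
    refine (sum_le_sum fun y hy => sum_le_sum (h1 y hy)).trans ?_
    simp only [sum_add_distrib]
    rw [show (m + 1 + 1) * d ^ (m + 1) = d ^ (m + 1) + (m + 1) * d ^ m * d by ring]
    refine add_le_add ?_ ?_
    · simp only [sum_ite_irrel, sum_const_zero, sum_ite_eq]
      split_ifs with hx
      · rw [← card_filter]
        exact card_from h _ x hx
      · omega
    · rw [sum_comm]
      refine le_trans ?_ (Nat.mul_le_mul_right d ih)
      rw [card_filter, sum_mul]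
      refine sum_le_sum fun w hw => ?_
      obtain ⟨hl, hm⟩ := mem_wks.1 hw
      split_ifs with h2
      · rw [← card_filter, one_mul]
        refine (card_le_card fun z hz => (mem_filter.1 hz).2).trans (h.card _ ?_)
        cases w with
        | nil => simp at hl
        | cons z w => exact hm z (by simp)
      · simp

theorem Cl.chain {w : List σ} (h : Cl B w) : List.IsChain (fun a b => b ∈ B a) w := by
  cases w with
  | nil => simp
  | cons y w => exact List.IsChain.left_of_append h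

theorem sum_cw (h : Nb B Λ d) (x : σ) (m : ℕ) :
    ∑ S ∈ Λ.powerset.filter (fun S => x ∈ S), cw B m S ≤ (m + 1) * d ^ m := by
  classical
  refine le_trans ?_ (card_through h x m)
  rw [card_filter, ← sum_rng, sum_filter]
  refine sum_le_sum fun S _ => ?_
  split_ifs with hx
  · rw [cw, card_filter]
    refine sum_le_sum fun w hw => ?_
    by_cases h1 : Cl B w
    · rw [if_pos h1, if_pos ⟨h1.chain, List.mem_toFinset.1 ((mem_rng.1 hw).2 ▸ hx)⟩]
    · rw [if_neg h1]
      omega
  · omega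

theorem cw_le {S : Finset σ} (h : Nb B S d) (m : ℕ) : cw B m S ≤ (m + 1) * d ^ m := by
  rcases S.eq_empty_or_nonempty with rfl | ⟨x, hx⟩
  · simp [cw, rng, wks]
  · exact (single_le_sum (f := cw B m) (fun _ _ => Nat.zero_le _)
      (mem_filter.2 ⟨mem_powerset_self S, hx⟩)).trans (sum_cw h x m)

theorem exists_of_cw {m : ℕ} {S : Finset σ} (h : cw B m S ≠ 0) :
    ∃ y w, w.length = m ∧ (y :: w).toFinset = S ∧
      List.IsChain (fun a b => b ∈ B a) (y :: w ++ [y]) := by
  classical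
  obtain ⟨w, hw⟩ := card_ne_zero.1 h
  obtain ⟨h1, h2⟩ := mem_filter.1 hw
  cases w with
  | nil => exact h2.elim
  | cons y w => exact ⟨y, w, by simpa using (mem_rng.1 h1).1, (mem_rng.1 h1).2, h2⟩

theorem card_le_of_cw {m : ℕ} {S : Finset σ} (h : cw B m S ≠ 0) : S.card ≤ m + 1 := by
  obtain ⟨y, w, h1, rfl, -⟩ := exists_of_cw h
  exact (List.toFinset_card_le _).trans (by simp [h1])

/-- the generating function of the closed walks of length at least two with range `S` -/
def kq0 (B : σ → Finset σ) (ε : ℝ) (S : Finset σ) : ℝ := ∑' m, cw B (m + 1) S * ε ^ (m + 1)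

theorem hasSum_six : HasSum (fun m : ℕ => ((m : ℝ) + 2) * (1 / 2) ^ m) 6 := by
  have h1 := hasSum_coe_mul_geometric_of_norm_lt_one (r := (1 / 2 : ℝ)) (by norm_num)
  have h2 := hasSum_geometric_two.mul_left 2
  have h3 := h1.add h2
  simp only [← add_mul] at h3
  norm_num at h3 ⊢
  exact h3

theorem term_le {t : ℝ} (t0 : 0 ≤ t) (t1 : t ≤ 1 / 2) (m : ℕ) :
    ((m : ℝ) + 2) * t ^ (m + 1) ≤ t * ((m + 2) * (1 / 2) ^ m) := by
  rw [pow_succ', mul_left_comm]
  gcongr

theorem summable_kq0 {S : Finset σ} (h : Nb B S d) {ε : ℝ} (ε0 : 0 ≤ ε) (hε : d * ε ≤ 1 / 2) :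
    Summable fun m => (cw B (m + 1) S : ℝ) * ε ^ (m + 1) := by
  refine (hasSum_six.summable.mul_left (d * ε)).of_nonneg_of_le (fun m => by positivity)
    fun m => le_trans ?_ (term_le (by positivity) hε m)
  have : (cw B (m + 1) S : ℝ) ≤ (m + 2) * (d : ℝ) ^ (m + 1) := by exact_mod_cast cw_le h (m + 1)
  rw [mul_pow, ← mul_assoc]
  gcongr

theorem kq0_nonneg {ε : ℝ} (ε0 : 0 ≤ ε) (S : Finset σ) : 0 ≤ kq0 B ε S :=
  tsum_nonneg fun m => by positivity

/-- the weighted sum over the ranges which contain a given point -/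
theorem sum_kq0 (h : Nb B Λ d) {ε A : ℝ} (ε0 : 0 ≤ ε) (A0 : 0 ≤ A)
    (hε : d * ε * Real.exp A ≤ 1 / 2) (τ : Finset σ → ℝ)
    (hτ : ∀ S ⊆ Λ, ∀ m, cw B m S ≠ 0 → τ S ≤ A * (m + 1)) (x : σ) :
    ∑ S ∈ Λ.powerset.filter (fun S => x ∈ S), kq0 B ε S * Real.exp (τ S) ≤
      6 * d * ε * Real.exp (2 * A) := by
  have e1 : 1 ≤ Real.exp A := Real.one_le_exp A0
  have hε' : d * ε ≤ 1 / 2 := (le_mul_of_one_le_right (by positivity) e1).trans hε
  have hs : ∀ S ∈ Λ.powerset.filter (fun S => x ∈ S),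
      Summable fun m => (cw B (m + 1) S : ℝ) * ε ^ (m + 1) * Real.exp (τ S) := fun S hS =>
    (summable_kq0 (h.mono (mem_powerset.1 (mem_filter.1 hS).1)) ε0 hε').mul_right _
  simp only [kq0, ← tsum_mul_right]
  rw [← Summable.tsum_finsetSum hs]
  have h6 := (hasSum_six.mul_left (d * ε * Real.exp A)).mul_right (Real.exp A)
  refine ((summable_sum hs).tsum_le_tsum (fun m => ?_) h6.summable).trans (le_of_eq ?_)
  · refine le_trans ?_ (mul_le_mul_of_nonneg_right (term_le (by positivity) hε m) (by positivity))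
    have h1 : ((∑ S ∈ Λ.powerset.filter (fun S => x ∈ S), cw B (m + 1) S : ℕ) : ℝ) ≤
        (m + 2) * (d : ℝ) ^ (m + 1) := by exact_mod_cast sum_cw h x (m + 1)
    calc _ ≤ ∑ S ∈ Λ.powerset.filter (fun S => x ∈ S),
          (cw B (m + 1) S : ℝ) * (ε ^ (m + 1) * Real.exp A ^ (m + 2)) := sum_le_sum fun S hS => by
          by_cases h2 : cw B (m + 1) S = 0
          · simp [h2]
          · rw [mul_assoc, ← Real.exp_nat_mul]
            have := hτ S (mem_powerset.1 (mem_filter.1 hS).1) _ h2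
            gcongr
            push_cast at this ⊢
            linarith
      _ ≤ (m + 2) * (d : ℝ) ^ (m + 1) * (ε ^ (m + 1) * Real.exp A ^ (m + 2)) := by
          rw [← sum_mul, ← Nat.cast_sum]
          gcongr
      _ = _ := by ring
  · rw [h6.tsum_eq, two_mul, Real.exp_add]
    ring

theorem kq0_le {S : Finset σ} (h : Nb B S d) {ε : ℝ} (ε0 : 0 ≤ ε) (hε : d * ε ≤ 1 / 2) :
    kq0 B ε S ≤ 6 * d * ε := by
  rcases S.eq_empty_or_nonempty with rfl | ⟨x, hx⟩
  · simp only [kq0, cw, rng, wks, empty_product, image_empty, filter_empty, card_empty,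
      Nat.cast_zero, zero_mul, tsum_zero]
    positivity
  · have := sum_kq0 h ε0 le_rfl (by simpa using hε) (fun _ => 0) (fun _ _ _ _ => by simp) x
    simp only [Real.exp_zero, mul_one, mul_zero] at this
    exact (single_le_sum (f := kq0 B ε) (fun S _ => kq0_nonneg ε0 S)
      (mem_filter.2 ⟨mem_powerset_self S, hx⟩)).trans this

end Pool.Agent.Lib.MP_7f377f_mp.RG.Q4.Loc
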