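import Pool.Agent.Lib.MP_7f377f_mp.Q4LocA
import Pool.Agent.Lib.MP_7f377f_mp.Q4CubeB

/-! Closed walk expansion of the determinant: definitions, locality, covariance, jets. -/

noncomputable section

namespace Pool.Agent.Lib.MP_7f377f_mp.RG.Q4.Loc

open Finset Polynomial Matrix
open scoped Matrix.Norms.L2Operator

variable {I I' σ σ' : Type} [Fintype I] [DecidableEq I] [DecidableEq σ]
  [Fintype I'] [DecidableEq I'] [DecidableEq σ']

/-- projection on the block `y` -/
def prj (π : I → σ) (y : σ) : Matrix I I ℂ := diagonal fun i => if π i = y then 1 else 0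

/-- compression to the blocks in `C` -/
def cpr (π : I → σ) (C : Finset σ) (M : Matrix I I ℂ) : Matrix I I ℂ :=
  Matrix.of fun i j => if π i ∈ C ∧ π j ∈ C then M i j else 0

/-- the rows in the block `y` of a polynomial in the compression to `B y` -/
def lp (π : I → σ) (B : σ → Finset σ) (p : ℂ[X]) (M : Matrix I I ℂ) (y : σ) : Matrix I I ℂ :=
  prj π y * aeval (cpr π (B y) M) p

/-- the sum over the closed walks with range `S` and `m` factors `p` -/
def Qm (π : I → σ) (B : σ → Finset σ) (p s : ℂ[X]) (M : Matrix I I ℂ) (m : ℕ) (S : Finset σ) :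
    ℂ := trace (Wm (lp π B p M) (lp π B s M) m S)

/-- the sum over all closed walks with range `S` -/
def QS (π : I → σ) (B : σ → Finset σ) (p : ℂ[X]) (s : ℕ → ℂ[X]) (M : Matrix I I ℂ)
    (S : Finset σ) : ℂ := ∑' m, Qm π B p (s m) M (m + 1) S

/-- the error of the truncated inverse square root -/
def uP (N : ℕ) : ℂ[X] := 1 - pP N ^ 2 * (1 - X)

/-- a piece of the logarithmic series -/
def sP (N m : ℕ) : ℂ[X] :=
  ∑ j ∈ range N, monomial (j + 1) (1 / (2 * (((m + 1) * N + j + 1 : ℕ) : ℂ)))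

/-- the local exponent of the determinant -/
def Qd (π : I → σ) (B : σ → Finset σ) (N : ℕ) (M : Matrix I I ℂ) (S : Finset σ) : ℂ :=
  QS π B (X ^ N) (sP N) M S - QS π B (uP N) (fun m => C (1 / (2 * ((m : ℂ) + 1)))) M S

/-- the determinant marks -/
def dm (π : I → σ) (B : σ → Finset σ) (N : ℕ) (M : Matrix I I ℂ) (S : Finset σ) : ℂ :=
  Complex.exp (Qd π B N M S) - 1

/-- the majorant of the determinant marks -/
def kw (B : σ → Finset σ) (β : ℕ) (ε : ℝ) (S : Finset σ) : ℝ := 3 * β * kq0 B ε S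

variable {π : I → σ} {B : σ → Finset σ} {M M' : Matrix I I ℂ} {S : Finset σ}

theorem prj_mul (y : σ) (M : Matrix I I ℂ) (i j : I) :
    (prj π y * M) i j = if π i = y then M i j else 0 := by
  simp [prj, diagonal_mul]

theorem mul_prj (y : σ) (M : Matrix I I ℂ) (i j : I) :
    (M * prj π y) i j = if π j = y then M i j else 0 := by
  simp [prj, mul_diagonal]

theorem prj_prj (y y' : σ) : prj π y * prj π y' = if y = y' then prj π y else 0 := by
  rw [prj, prj, diagonal_mul_diagonal]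
  split_ifs with h
  · subst h
    congr 1
    funext i
    split_ifs <;> simp
  · rw [← diagonal_zero]
    congr 1
    funext i
    split_ifs with h1 h2
    · exact (h (h1.symm.trans h2)).elim
    all_goals simp

theorem sum_prj {Λ : Finset σ} (h : ∀ i, π i ∈ Λ) : ∑ y ∈ Λ, prj π y = 1 := by
  ext i j
  by_cases h1 : i = j <;> simp [prj, Matrix.sum_apply, diagonal_apply, h1, h, one_apply]

theorem cpr_apply (C : Finset σ) (M : Matrix I I ℂ) (i j : I) :
    cpr π C M i j = if π i ∈ C ∧ π j ∈ C then M i j else 0 := rfl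

theorem sup_lp (p : ℂ[X]) (M : Matrix I I ℂ) {y : σ} (hy : y ∈ B y) :
    Sup (prj π) B (lp π B p M y) y := by
  refine ⟨by rw [lp, ← mul_assoc, prj_prj, if_pos rfl], fun y' h => ?_⟩
  have h1 : cpr π (B y) M * prj π y' = 0 := by
    ext i j
    rw [mul_prj, cpr_apply]
    split_ifs with h1 h2
    · exact (h (h1 ▸ h2.2)).elim
    · rfl
    · rfl
  have h2 : y ≠ y' := fun e => h (e ▸ hy)
  rw [lp, ← divX_mul_X_add p, map_add, map_mul, aeval_X, aeval_C, mul_add, add_mul, mul_assoc,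
    mul_assoc, h1, Algebra.algebraMap_eq_smul_one, mul_smul_comm, mul_one, smul_mul_assoc,
    prj_prj, if_neg h2]
  simp

/-! ### Covariance -/

theorem Qm_map (Φ : Matrix I I ℂ →+* Matrix I' I' ℂ) (c : ℂ → ℂ)
    (hc : ∀ A, trace (Φ A) = c (trace A)) (φ : σ → σ') (hφ : Set.InjOn φ S) {π' : I' → σ'}
    {B' : σ' → Finset σ'} {M' : Matrix I' I' ℂ} {p s p' s' : ℂ[X]}
    (hp : ∀ y ∈ S, lp π' B' p' M' (φ y) = Φ (lp π B p M y))
    (hs : ∀ y ∈ S, lp π' B' s' M' (φ y) = Φ (lp π B s M y)) (m : ℕ) :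
    Qm π' B' p' s' M' m (S.image φ) = c (Qm π B p s M m S) := by
  rw [Qm, Wm_map Φ φ hφ hp hs, hc, Qm]

theorem Qd_map (Φ : Matrix I I ℂ →ₐ[ℂ] Matrix I' I' ℂ) (hc : ∀ A, trace (Φ A) = trace A)
    (φ : σ → σ') (hφ : Set.InjOn φ S) {π' : I' → σ'} {B' : σ' → Finset σ'} {M' : Matrix I' I' ℂ}
    (h1 : ∀ y ∈ S, prj π' (φ y) = Φ (prj π y))
    (h2 : ∀ y ∈ S, cpr π' (B' (φ y)) M' = Φ (cpr π (B y) M)) (N : ℕ) :
    Qd π' B' N M' (S.image φ) = Qd π B N M S := by
  have h3 : ∀ p, ∀ y ∈ S, lp π' B' p M' (φ y) = Φ.toRingHom (lp π B p M y) := fun p y hy => by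
    rw [lp, lp, h1 y hy, h2 y hy, aeval_algHom_apply, map_mul]
    rfl
  simp only [Qd, QS, Qm_map Φ.toRingHom id hc φ hφ (h3 _) (h3 _), id]

/-- locality -/
theorem Qd_congr (h : ∀ y ∈ S, ∀ i j, π i ∈ B y → π j ∈ B y → M i j = M' i j) (N : ℕ) :
    Qd π B N M S = Qd π B N M' S := by
  have := Qd_map (π := π) (B := B) (M := M') (AlgHom.id ℂ _) (fun _ => rfl) id (S := S)
    (Set.injOn_id _) (π' := π) (B' := B) (M' := M) (fun _ _ => rfl) (fun y hy => by
      ext i j
      simp only [id, AlgHom.coe_id, cpr_apply]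
      split_ifs with h1
      · exact h y hy i j h1.1 h1.2
      · rfl) N
  rwa [image_id] at this

theorem dm_congr (h : ∀ y ∈ S, ∀ i j, π i ∈ B y → π j ∈ B y → M i j = M' i j) (N : ℕ) :
    dm π B N M S = dm π B N M' S := by rw [dm, dm, Qd_congr h]

/-- block diagonal matrices -/
def Bd (π : I → σ) (G : Matrix I I ℂ) : Prop := ∀ i j, π i ≠ π j → G i j = 0

theorem Bd.comm {G : Matrix I I ℂ} (h : Bd π G) (f : σ → ℂ) :
    G * diagonal (fun i => f (π i)) = diagonal (fun i => f (π i)) * G := by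
  ext i j
  rw [mul_diagonal, diagonal_mul]
  by_cases h1 : π i = π j
  · rw [h1, mul_comm]
  · simp [h i j h1]

theorem cpr_eq (C : Finset σ) (M : Matrix I I ℂ) : cpr π C M =
    diagonal (fun i => if π i ∈ C then 1 else 0) * M *
      diagonal (fun i => if π i ∈ C then 1 else 0) := by
  ext i j
  rw [mul_diagonal, diagonal_mul, cpr_apply]
  by_cases h1 : π i ∈ C <;> by_cases h2 : π j ∈ C <;> simp [h1, h2]

/-- conjugation as an algebra map -/
def cj (G G' : Matrix I I ℂ) (h : G * G' = 1) : Matrix I I ℂ →ₐ[ℂ] Matrix I I ℂ where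
  toFun A := G * A * G'
  map_one' := by rw [mul_one, h]
  map_mul' A A' := by
    simp only [mul_assoc]
    rw [← mul_assoc G' G, mul_eq_one_comm.1 h, one_mul]
  map_zero' := by simp
  map_add' A A' := by rw [mul_add, add_mul]
  commutes' c := by simp [Algebra.algebraMap_eq_smul_one, h]

/-- invariance under block diagonal conjugation -/
theorem Qd_conj {G G' : Matrix I I ℂ} (hG : Bd π G) (hG' : Bd π G') (h : G * G' = 1) (N : ℕ) :
    Qd π B N (G * M * G') S = Qd π B N M S := by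
  have := Qd_map (π := π) (B := B) (M := M) (cj G G' h) (fun A => by
      show trace (G * A * G') = _
      rw [trace_mul_comm, ← mul_assoc, mul_eq_one_comm.1 h, one_mul]) id (S := S)
    (Set.injOn_id _) (π' := π) (B' := B) (M' := G * M * G') (fun y _ => by
      show _ = G * _ * G'
      rw [prj, prj, hG.comm fun x => if x = y then 1 else 0, mul_assoc, h, mul_one, id])
    (fun y _ => by
      show _ = G * _ * G'
      have e1 := hG.comm fun x => if x ∈ B y then 1 else 0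
      have e2 := hG'.comm fun x => if x ∈ B y then 1 else 0
      rw [cpr_eq, cpr_eq, id, ← mul_assoc, ← mul_assoc, ← mul_assoc, ← mul_assoc, ← e1,
        mul_assoc _ G', e2, ← mul_assoc]) N
  rwa [image_id] at this

theorem dm_conj {G G' : Matrix I I ℂ} (hG : Bd π G) (hG' : Bd π G') (h : G * G' = 1) (N : ℕ) :
    dm π B N (G * M * G') S = dm π B N M S := by rw [dm, dm, Qd_conj hG hG' h]

/-- invariance under relabelling -/
theorem Qd_reindex (e : I ≃ I') (φ : σ → σ') {π' : I' → σ'} {B' : σ' → Finset σ'}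
    {M' : Matrix I' I' ℂ} (hφ : Set.InjOn φ S) (h1 : ∀ y ∈ S, ∀ i, π' (e i) = φ y ↔ π i = y)
    (h2 : ∀ y ∈ S, ∀ i, π' (e i) ∈ B' (φ y) ↔ π i ∈ B y)
    (h3 : ∀ y ∈ S, ∀ i j, π i ∈ B y → π j ∈ B y → M' (e i) (e j) = M i j) (N : ℕ) :
    Qd π' B' N M' (S.image φ) = Qd π B N M S := by
  refine Qd_map (reindexAlgEquiv ℂ ℂ e).toAlgHom (fun A => ?_) φ hφ (fun y hy => ?_)
    (fun y hy => ?_) N
  · exact (e.sum_comp _).symm.trans (by simp [trace])
  · ext i j
    obtain ⟨i, rfl⟩ := e.surjective i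
    obtain ⟨j, rfl⟩ := e.surjective j
    simp [prj, diagonal_apply, h1 y hy]
  · ext i j
    obtain ⟨i, rfl⟩ := e.surjective i
    obtain ⟨j, rfl⟩ := e.surjective j
    simp only [cpr_apply, h2 y hy, AlgEquiv.coe_toAlgHom, reindexAlgEquiv_apply, reindex_apply,
      submatrix_apply, Equiv.symm_apply_apply]
    split_ifs with h
    · exact h3 y hy i j h.1 h.2
    · rfl

theorem dm_reindex (e : I ≃ I') (φ : σ → σ') {π' : I' → σ'} {B' : σ' → Finset σ'}
    {M' : Matrix I' I' ℂ} (hφ : Set.InjOn φ S) (h1 : ∀ y ∈ S, ∀ i, π' (e i) = φ y ↔ π i = y)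
    (h2 : ∀ y ∈ S, ∀ i, π' (e i) ∈ B' (φ y) ↔ π i ∈ B y)
    (h3 : ∀ y ∈ S, ∀ i j, π i ∈ B y → π j ∈ B y → M' (e i) (e j) = M i j) (N : ℕ) :
    dm π' B' N M' (S.image φ) = dm π B N M S := by rw [dm, dm, Qd_reindex e φ hφ h1 h2 h3]

theorem Qd_empty (N : ℕ) : Qd π B N M ∅ = 0 := by simp [Qd, QS, Qm, Wm_empty]

theorem dm_empty (N : ℕ) : dm π B N M ∅ = 0 := by simp [dm, Qd_empty]

/-! ### Reality -/

/-- polynomials with real coefficients -/
def Rp (p : ℂ[X]) : Prop := p.map (starRingEnd ℂ) = p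

theorem Rp.aeval {p : ℂ[X]} (hp : Rp p) (M : Matrix I I ℂ) :
    aeval (M.map (starRingEnd ℂ)) p = (aeval M p).map (starRingEnd ℂ) := by
  have := map_aeval_eq_aeval_map (φ := starRingEnd ℂ)
    (ψ := (starRingEnd ℂ).mapMatrix (m := I)) (by
      ext c i j
      by_cases h : i = j <;> simp [h, algebraMap_matrix_apply]) p M
  rw [hp] at this
  exact this.symm

theorem rp_pP (N : ℕ) : Rp (pP N) := by simp [Rp, pP, Polynomial.map_sum]

theorem rp_pQ (N : ℕ) : Rp (pQ N) := by simp [Rp, pQ, Polynomial.map_sum, map_ofNat]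

theorem rp_uP (N : ℕ) : Rp (uP N) := by
  have := rp_pP N
  simp only [Rp] at this
  simp [Rp, uP, this]

theorem rp_sP (N m : ℕ) : Rp (sP N m) := by simp [Rp, sP, Polynomial.map_sum, map_ofNat]

theorem Qd_star (N : ℕ) :
    Qd π B N (M.map (starRingEnd ℂ)) S = starRingEnd ℂ (Qd π B N M S) := by
  have h1 : ∀ p, Rp p → ∀ y ∈ S, lp π B p (M.map (starRingEnd ℂ)) (id y) =
      (starRingEnd ℂ).mapMatrix (lp π B p M y) := fun p hp y _ => by
    have e1 : cpr π (B y) (M.map (starRingEnd ℂ)) = (cpr π (B y) M).map (starRingEnd ℂ) := by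
      ext i j
      simp [cpr_apply, apply_ite (starRingEnd ℂ)]
    have e2 : (starRingEnd ℂ).mapMatrix (prj π y) = prj π y := by
      ext i j
      simp [prj, diagonal_apply, apply_ite (starRingEnd ℂ)]
    rw [lp, lp, map_mul, e2, id, e1, hp.aeval]
    rfl
  have h2 : ∀ p s, Rp p → Rp s → ∀ m, Qm π B p s (M.map (starRingEnd ℂ)) m S =
      star (Qm π B p s M m S) := fun p s hp hs m => by
    have := Qm_map (π := π) (B := B) (M := M) (starRingEnd ℂ).mapMatrix star
      (fun A => by simp [trace]) id (S := S) (Set.injOn_id _) (h1 p hp) (h1 s hs) m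
    rwa [image_id] at this
  have h3 : Rp (X ^ N) := by simp [Rp]
  have h4 : ∀ m : ℕ, Rp (C (1 / (2 * ((m : ℂ) + 1)))) := fun m => by simp [Rp, map_ofNat]
  simp only [Qd, QS, h2 _ _ h3 (rp_sP N _), h2 _ _ (rp_uP N) (h4 _), ← tsum_star, map_sub]
  rfl

theorem Qd_real (h : ∀ y ∈ S, ∀ i j, π i ∈ B y → π j ∈ B y → (M i j).im = 0) (N : ℕ) :
    (Qd π B N M S).im = 0 := by
  rw [← Complex.conj_eq_iff_im, ← Qd_star]
  exact Qd_congr (fun y hy i j hi hj => Complex.conj_eq_iff_im.2 (h y hy i j hi hj)) N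

theorem dm_real (h : ∀ y ∈ S, ∀ i j, π i ∈ B y → π j ∈ B y → (M i j).im = 0) (N : ℕ) :
    (dm π B N M S).im = 0 ∧ 0 < (1 + dm π B N M S).re := by
  have := Qd_real h N
  simp [dm, Complex.exp_im, Complex.exp_re, this, Real.exp_pos]

/-! ### Regularity in the entries -/

section closure

variable {α : Type} (A : Subalgebra ℂ (α → ℂ))

/-- matrices with entries in an algebra of functions -/
def En : Subalgebra ℂ (α → Matrix I I ℂ) where
  carrier := {F | ∀ i j, (fun a => F a i j) ∈ A}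
  mul_mem' {F G} hF hG i j := by
    have := A.sum_mem (t := univ) fun k _ => A.mul_mem (hF i k) (hG k j)
    convert this using 1
    funext a
    simp [mul_apply]
  add_mem' {F G} hF hG i j := A.add_mem (hF i j) (hG i j)
  algebraMap_mem' c i j := A.algebraMap_mem (algebraMap ℂ (Matrix I I ℂ) c i j)

theorem Qm_mem {F : α → Matrix I I ℂ}
    (hF : ∀ y ∈ S, ∀ i j, π i ∈ B y → π j ∈ B y → (fun a => F a i j) ∈ A) (p s : ℂ[X]) (m : ℕ) :
    (fun a => Qm π B p s (F a) m S) ∈ A := by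
  have h1 : ∀ p, ∀ y ∈ S, (fun a => lp π B p (F a) y) ∈ En A := fun p y hy => by
    have a1 : (fun _ => prj π y) ∈ En (I := I) A := fun i j => A.algebraMap_mem (prj π y i j)
    have a2 : (fun a => cpr π (B y) (F a)) ∈ En A := fun i j => by
      simp only [cpr_apply]
      split_ifs with h
      · exact hF y hy i j h.1 h.2
      · exact A.zero_mem
    have a3 := (En A).mul_mem a1 (Algebra.adjoin_le (S := En A) (Set.singleton_subset_iff.2 a2)
      (aeval_mem_adjoin_singleton ℂ (p := p) _))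
    convert a3 using 1
    funext a
    exact congrArg (prj π y * ·) (aeval_algHom_apply (Pi.evalAlgHom ℂ (fun _ => Matrix I I ℂ) a)
      (fun a => cpr π (B y) (F a)) p)
  have h2 : (fun a => Wm (lp π B p (F a)) (lp π B s (F a)) m S) ∈ En A := by
    have e : (fun a => Wm (lp π B p (F a)) (lp π B s (F a)) m S) =
        Wm (fun y a => lp π B p (F a) y) (fun y a => lp π B s (F a) y) m S := funext fun a =>
      Wm_hom (Pi.evalRingHom (fun _ => Matrix I I ℂ) a) (Y := fun y a => lp π B p (F a) y)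
        (Z := fun y a => lp π B s (F a) y) (fun _ _ => rfl) (fun _ _ => rfl) m
    rw [e]
    refine sum_mem fun w hw => ?_
    have h3 : ∀ y ∈ w, y ∈ S := fun y hy => (mem_rng.1 hw).2 ▸ List.mem_toFinset.2 hy
    cases w with
    | nil => exact zero_mem _
    | cons y w =>
      refine mul_mem (h1 s y (h3 y (by simp))) (list_prod_mem fun x hx => ?_)
      obtain ⟨z, hz, rfl⟩ := List.mem_map.1 hx
      exact h1 p z (h3 z (by simp [hz]))
  have := A.sum_mem (t := univ) fun i _ => h2 i i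
  convert this using 1
  funext a
  simp [Qm, trace]

end closure

theorem Qd_measurable {α : Type} [MeasurableSpace α] {F : α → Matrix I I ℂ}
    (hF : ∀ y ∈ S, ∀ i j, π i ∈ B y → π j ∈ B y → Measurable fun a => F a i j) (N : ℕ) :
    Measurable fun a => Qd π B N (F a) S := by
  let A : Subalgebra ℂ (α → ℂ) :=
    { carrier := {f | Measurable f}
      mul_mem' := fun h h' => Measurable.mul h h'
      add_mem' := fun h h' => Measurable.add h h'
      algebraMap_mem' := fun _ => measurable_const }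
  exact (Measurable.tsum fun m => Qm_mem A hF _ _ _).sub (Measurable.tsum fun m => Qm_mem A hF _ _ _)

theorem dm_measurable {α : Type} [MeasurableSpace α] {F : α → Matrix I I ℂ}
    (hF : ∀ y ∈ S, ∀ i j, π i ∈ B y → π j ∈ B y → Measurable fun a => F a i j) (N : ℕ) :
    Measurable fun a => dm π B N (F a) S :=
  (Complex.measurable_exp.comp (Qd_measurable hF N)).sub_const 1

/-! ### The polynomials -/

theorem bin_mem (i : ℕ) : 0 < bin i ∧ bin i ≤ 1 := by
  induction i with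
  | zero => simp [bin]
  | succ i ih =>
    rw [bin]
    refine ⟨by have := ih.1; positivity, ?_⟩
    rw [div_le_one (by positivity)]
    nlinarith [ih.1, ih.2, Nat.cast_nonneg (α := ℝ) i]

theorem pP_deriv (N : ℕ) : 2 * (1 - X) * derivative (pP N) - pP N =
    -(monomial N ((2 * N + 1) * bin N : ℂ)) := by
  induction N with
  | zero => simp [pP, bin]
  | succ N ih =>
    have e0 : pP (N + 1) = pP N + monomial (N + 1) (bin (N + 1) : ℂ) := by
      rw [pP, sum_range_succ, pP]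
    have e1 : ((2 * N + 1) * bin N : ℂ) = (2 * N + 2) * bin (N + 1) := by
      have : (2 * N + 2 : ℂ) ≠ 0 := by exact_mod_cast (by omega : 2 * N + 2 ≠ 0)
      rw [bin]
      push_cast
      field_simp
    rw [e1] at ih
    rw [e0, derivative_add, derivative_monomial]
    simp only [← C_mul_X_pow_eq_monomial, add_tsub_cancel_right, map_mul, map_add, map_natCast,
      map_one, map_ofNat, Nat.cast_add, Nat.cast_one] at ih ⊢
    linear_combination ih

theorem uP_eq (N : ℕ) : uP N = ∑ i ∈ range (N + 1),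
    monomial (N + 1 + i) (((2 * N + 1) * bin N * bin i / (N + 1 + i) : ℝ) : ℂ) := by
  have h1 : derivative (uP N) = monomial N ((2 * N + 1) * bin N : ℂ) * pP N := by
    simp only [uP, derivative_sub, derivative_one, derivative_mul, derivative_X, derivative_sq,
      map_ofNat]
    linear_combination (-pP N) * pP_deriv N
  have h2 : derivative (∑ i ∈ range (N + 1),
      monomial (N + 1 + i) (((2 * N + 1) * bin N * bin i / (N + 1 + i) : ℝ) : ℂ)) =
      monomial N ((2 * N + 1) * bin N : ℂ) * pP N := by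
    rw [pP, mul_sum, derivative_sum]
    refine sum_congr rfl fun i _ => ?_
    have : (N + 1 + i : ℂ) ≠ 0 := by exact_mod_cast (by omega : N + 1 + i ≠ 0)
    rw [derivative_monomial, monomial_mul_monomial, show N + 1 + i - 1 = N + i by omega]
    congr 1
    push_cast
    field_simp
  ext k
  cases k with
  | zero =>
    have : (pP N).coeff 0 = 1 := by simp [pP, coeff_monomial, bin]
    simp [uP, coeff_monomial, sq, this]
  | succ k =>
    have := congrArg (coeff · k) (h1.trans h2.symm)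
    simp only [coeff_derivative] at this
    exact mul_right_cancel₀ (by exact_mod_cast k.succ_ne_zero) this

/-! ### Jets -/

variable {η : Fin 3 → ℝ} {η0 q ε ζ : ℝ} {β d : ℕ}

theorem entry_le (M : Matrix I I ℂ) (i j : I) : ‖M i j‖ ≤ ‖M‖ := by
  have h1 := l2_opNorm_mulVec M (EuclideanSpace.single j 1)
  have h2 := PiLp.norm_apply_le ((EuclideanSpace.equiv I ℂ).symm
    (M *ᵥ (EuclideanSpace.single j (1 : ℂ) : EuclideanSpace ℂ I))) i
  simpa using h2.trans h1

theorem norm_ind (P : I → Prop) [DecidablePred P] :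
    ‖(diagonal fun i => if P i then 1 else 0 : Matrix I I ℂ)‖ ≤ 1 := by
  rw [l2_opNorm_diagonal]
  refine (pi_norm_le_iff_of_nonneg zero_le_one).2 fun i => ?_
  split_ifs <;> simp

theorem norm_cpr (C : Finset σ) (M : Matrix I I ℂ) : ‖cpr π C M‖ ≤ ‖M‖ := by
  rw [cpr_eq]
  have h := norm_ind fun i => π i ∈ C
  exact (norm_mul_le _ _).trans ((mul_le_of_le_one_right (norm_nonneg _) h).trans
    ((norm_mul_le _ _).trans (mul_le_of_le_one_left (norm_nonneg _) h)))

theorem trace_prj (hβ : ∀ y, (univ.filter fun i => π i = y).card ≤ β) (y : σ)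
    (M : Matrix I I ℂ) : ‖trace (prj π y * M)‖ ≤ β * ‖M‖ := by
  simp only [trace, diag_apply, prj_mul, ← sum_filter]
  refine (norm_sum_le _ _).trans ((sum_le_card_nsmul _ _ ‖M‖ fun i _ => entry_le M i i).trans ?_)
  rw [nsmul_eq_mul]
  exact mul_le_mul_of_nonneg_right (Nat.cast_le.2 (hβ y)) (norm_nonneg _)

theorem cN_lp (h : Eta η0 η) {F : Vx → Matrix I I ℂ} {y : σ}
    (hF : cN η (fun T => cpr π (B y) (F T)) ≤ q) {ι : Type} (t : Finset ι) (k : ι → ℕ)
    (c : ι → ℂ) : cN η (fun T => lp π B (∑ a ∈ t, monomial (k a) (c a)) (F T) y) ≤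
      ∑ a ∈ t, ‖c a‖ * q ^ k a := by
  have h1 : ∀ k : ℕ, cN η (fun T => prj π y * cpr π (B y) (F T) ^ k) ≤ q ^ k := fun k => by
    induction k with
    | zero =>
      simp only [pow_zero, mul_one, cN_const]
      exact norm_ind fun i => π i = y
    | succ k ih =>
      simp only [pow_succ, ← mul_assoc]
      exact (cN_mul h _ _).trans (mul_le_mul ih hF (cN_nonneg h _) ((cN_nonneg h _).trans ih))
  simp only [lp, map_sum, aeval_monomial, ← Algebra.smul_def, mul_sum, mul_smul_comm]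
  exact (cN_sum h _ _).trans (sum_le_sum fun a _ => (cN_const_smul h _ _).trans
    (mul_le_mul_of_nonneg_left (h1 _) (norm_nonneg _)))

theorem cN_Qm (h : Eta η0 η) (hβ : ∀ y, (univ.filter fun i => π i = y).card ≤ β)
    (hB : ∀ y ∈ S, y ∈ B y) {F : Vx → Matrix I I ℂ} {p s : ℂ[X]} (ζ0 : 0 ≤ ζ) (ε0 : 0 ≤ ε)
    (hp : ∀ y ∈ S, cN η (fun T => lp π B p (F T) y) ≤ ε)
    (hs : ∀ y ∈ S, cN η (fun T => lp π B s (F T) y) ≤ ζ) (m : ℕ) :
    cN η (fun T => Qm π B p s (F T) m S) ≤ β * ζ * (cw B m S * ε ^ m) := by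
  classical
  simp only [Qm, Wm, trace_sum]
  refine (cN_sum h _ _).trans ?_
  rw [cw, card_filter, Nat.cast_sum, sum_mul, mul_sum]
  refine sum_le_sum fun w hw => ?_
  obtain ⟨h1, h2⟩ := mem_rng.1 hw
  have h3 : ∀ y ∈ w, y ∈ S := fun y hy => h2 ▸ List.mem_toFinset.2 hy
  cases w with
  | nil => simp at h1
  | cons y w =>
    have hy := h3 y (by simp)
    have e : ∀ T, tw (lp π B p (F T)) (lp π B s (F T)) (y :: w) =
        prj π y * (lp π B s (F T) y * (w.map (lp π B p (F T))).prod) := fun T => by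
      rw [tw, ← mul_assoc, (sup_lp s (F T) (hB y hy)).1]
    simp only [e]
    split_ifs with hc
    · have h4 : ∀ v : List σ, (∀ z ∈ v, z ∈ S) → ∀ (G : Vx → Matrix I I ℂ) (a : ℝ), cN η G ≤ a →
          cN η (fun T => G T * (v.map (lp π B p (F T))).prod) ≤ a * ε ^ v.length := by
        intro v
        induction v with
        | nil => exact fun _ G a ha => by simpa using ha
        | cons z v ih =>
          intro hv G a ha
          simp only [List.map_cons, List.prod_cons, ← mul_assoc, List.length_cons, pow_succ']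
          exact ih (fun x hx => hv x (by simp [hx])) _ _ ((cN_mul h _ _).trans
            (mul_le_mul ha (hp z (hv z (by simp))) (cN_nonneg h _) ((cN_nonneg h _).trans ha)))
      have h5 := h4 w (fun z hz => h3 z (by simp [hz])) _ _ (hs y hy)
      have h6 := cN_map h ((traceAddMonoidHom I ℂ).comp (AddMonoidHom.mulLeft (prj π y)))
        (trace_prj hβ y) fun T => lp π B s (F T) y * (w.map (lp π B p (F T))).prod
      rw [show w.length = m by simpa using h1] at h5
      refine h6.trans ?_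
      rw [Nat.cast_one, one_mul, mul_assoc]
      exact mul_le_mul_of_nonneg_left h5 (Nat.cast_nonneg _)
    · have h4 : ∀ T, trace (prj π y * (lp π B s (F T) y * (w.map (lp π B p (F T))).prod)) = 0 :=
        fun T => by
          rw [trace_mul_comm, by_contra fun h5 => hc (chain_of_ne w y y _ (sup_lp s (F T) (hB y hy))
            (fun z hz => sup_lp p (F T) (hB z (h3 z (by simp [hz])))) h5), trace_zero]
      simp [h4, cN_zero]

theorem eta_one : Eta 1 fun _ => 1 := fun _ => ⟨one_pos, le_rfl⟩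

theorem norm_Qm (hβ : ∀ y, (univ.filter fun i => π i = y).card ≤ β)
    (hB : ∀ y ∈ S, y ∈ B y) {p s : ℂ[X]} (ζ0 : 0 ≤ ζ) (ε0 : 0 ≤ ε)
    (hp : ∀ y ∈ S, ‖lp π B p M y‖ ≤ ε) (hs : ∀ y ∈ S, ‖lp π B s M y‖ ≤ ζ) (m : ℕ) :
    ‖Qm π B p s M m S‖ ≤ β * ζ * (cw B m S * ε ^ m) := by
  have := cN_Qm eta_one hβ hB (F := fun _ => M) (p := p) (s := s) ζ0 ε0
    (by simpa only [cN_const] using hp) (by simpa only [cN_const] using hs) m
  rwa [cN_const] at this

/-- the bounds for the four polynomials -/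
theorem cN_four (h : Eta η0 η) {F : Vx → Matrix I I ℂ} {y : σ} (q1 : q ≤ 1)
    (hF : cN η (fun T => cpr π (B y) (F T)) ≤ q) (N : ℕ) (hε : (2 * N + 1) * q ^ N ≤ ε) :
    cN η (fun T => lp π B (X ^ N) (F T) y) ≤ ε ∧ cN η (fun T => lp π B (uP N) (F T) y) ≤ ε ∧
    (∀ m, cN η (fun T => lp π B (sP N m) (F T) y) ≤ 1 / 2) ∧
    ∀ m : ℕ, cN η (fun T => lp π B (C (1 / (2 * ((m : ℂ) + 1)))) (F T) y) ≤ 1 / 2 := by
  have q0 := (cN_nonneg h _).trans hF
  have N0 : (0 : ℝ) ≤ N := Nat.cast_nonneg _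
  refine ⟨?_, ?_, fun m => ?_, fun m => ?_⟩
  · have := cN_lp h hF {()} (fun _ => N) fun _ => 1
    simp only [sum_singleton, monomial_one_right_eq_X_pow, norm_one, one_mul] at this
    exact this.trans (le_trans (le_mul_of_one_le_left (by positivity) (by linarith)) hε)
  · rw [uP_eq]
    refine (cN_lp h hF _ _ _).trans (le_trans ((sum_le_card_nsmul _ _
      ((2 * N + 1) / (N + 1) * q ^ N) fun i _ => ?_).trans_eq ?_) hε)
    · have a := bin_mem N
      have b := bin_mem i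
      have a1 := a.1
      have b1 := b.1
      rw [Complex.norm_real, Real.norm_of_nonneg (by positivity)]
      refine mul_le_mul (div_le_div₀ (by positivity) ?_ (by positivity) (by simp))
        (pow_le_pow_of_le_one q0 q1 (by omega)) (by positivity) (by positivity)
      rw [mul_assoc]
      exact mul_le_of_le_one_right (by positivity) (mul_le_one₀ a.2 b1.le b.2)
    · rw [card_range, nsmul_eq_mul]
      push_cast
      field_simp
  · refine (cN_lp h hF _ _ _).trans ((sum_le_card_nsmul _ _ (1 / (2 * N : ℝ)) fun j hj => ?_).trans ?_)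
    · have N1 : (0 : ℝ) < N := by exact_mod_cast (Nat.zero_le j).trans_lt (mem_range.1 hj)
      refine (mul_le_of_le_one_right (norm_nonneg _) (pow_le_one₀ q0 q1)).trans ?_
      rw [norm_div, norm_one, norm_mul, Complex.norm_natCast, Complex.norm_two]
      gcongr
      nlinarith
    · rw [card_range, nsmul_eq_mul]
      rcases N0.eq_or_lt with h0 | h0
      · simp [← h0]
      · exact le_of_eq (by field_simp)
  · have := cN_lp h hF {()} (fun _ => 0) fun _ => 1 / (2 * ((m : ℂ) + 1))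
    simp only [sum_singleton, monomial_zero_left, pow_zero, mul_one] at this
    refine this.trans ?_
    rw [norm_div, norm_one, norm_mul, Complex.norm_two, ← Nat.cast_succ, Complex.norm_natCast]
    have : (1 : ℝ) ≤ m.succ := by exact_mod_cast m.succ_pos
    gcongr
    linarith

theorem cN_QS (h : Eta η0 η) (hβ : ∀ y, (univ.filter fun i => π i = y).card ≤ β)
    (hB : Nb B S d) {F : Vx → Matrix I I ℂ} {p : ℂ[X]} {s : ℕ → ℂ[X]} (ζ0 : 0 ≤ ζ) (ε0 : 0 ≤ ε)
    (hε : d * ε ≤ 1 / 2) (hp : ∀ y ∈ S, cN η (fun T => lp π B p (F T) y) ≤ ε)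
    (hs : ∀ m, ∀ y ∈ S, cN η (fun T => lp π B (s m) (F T) y) ≤ ζ) :
    (∀ T, Summable fun m => Qm π B p (s m) (F T) (m + 1) S) ∧
      cN η (fun T => QS π B p s (F T) S) ≤ β * ζ * kq0 B ε S := by
  have h1 := fun m => cN_Qm h hβ hB.self ζ0 ε0 hp (hs m) (m + 1)
  have h2 := (summable_kq0 hB ε0 hε).hasSum.mul_left (β * ζ)
  have h3 : ∀ T, Summable fun m => Qm π B p (s m) (F T) (m + 1) S := fun T =>
    h2.summable.of_norm_bounded fun m => (norm_le_cN h _ T).trans (h1 m)
  exact ⟨h3, Cb.cN_hasSum h (fun T => (h3 T).hasSum) h1 h2⟩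

theorem cN_Qd (h : Eta η0 η) (hβ : ∀ y, (univ.filter fun i => π i = y).card ≤ β)
    (hB : Nb B S d) {F : Vx → Matrix I I ℂ} (q0 : 0 ≤ q) (q1 : q ≤ 1) {N : ℕ}
    (hε : (2 * N + 1) * q ^ N ≤ ε) (hd : d * ε ≤ 1 / 2)
    (hF : ∀ y ∈ S, cN η (fun T => cpr π (B y) (F T)) ≤ q) :
    cN η (fun T => Qd π B N (F T) S) ≤ β * kq0 B ε S := by
  have ε0 : 0 ≤ ε := le_trans (by positivity) hε
  have h4 := fun y hy => cN_four h q1 (hF y hy) N hε
  have h1 := (cN_QS h hβ hB (by norm_num) ε0 hd (fun y hy => (h4 y hy).1)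
    fun m y hy => (h4 y hy).2.2.1 m).2
  have h2 := (cN_QS h hβ hB (by norm_num) ε0 hd (fun y hy => (h4 y hy).2.1)
    fun m y hy => (h4 y hy).2.2.2 m).2
  exact (cN_sub h _ _).trans ((add_le_add h1 h2).trans_eq (by ring))

theorem kq_le_one (hB : Nb B S d) (ε0 : 0 ≤ ε) (hd : 6 * (β + 1) * d * ε ≤ 1) :
    d * ε ≤ 1 / 2 ∧ β * kq0 B ε S ≤ 1 := by
  have h0 : 0 ≤ d * ε := by positivity
  have β0 : (0 : ℝ) ≤ β := Nat.cast_nonneg _
  have h1 : d * ε ≤ 1 / 2 := by nlinarith
  refine ⟨h1, (mul_le_mul_of_nonneg_left (kq0_le hB ε0 h1) β0).trans (by nlinarith)⟩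

/-- jets of the marks -/
theorem cN_dm (h : Eta η0 η) (hβ : ∀ y, (univ.filter fun i => π i = y).card ≤ β)
    (hB : Nb B S d) {F : Vx → Matrix I I ℂ} (q0 : 0 ≤ q) (q1 : q ≤ 1) {N : ℕ}
    (hε : (2 * N + 1) * q ^ N ≤ ε) (hd : 6 * (β + 1) * d * ε ≤ 1)
    (hF : ∀ y ∈ S, cN η (fun T => cpr π (B y) (F T)) ≤ q) :
    cN η (fun T => dm π B N (F T) S) ≤ kw B β ε S := by
  have ε0 : 0 ≤ ε := le_trans (by positivity) hε
  obtain ⟨h1, h2⟩ := kq_le_one hB ε0 hd
  have h3 := cN_Qd h hβ hB q0 q1 hε h1 hF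
  have h4 : Real.exp (cN η fun T => Qd π B N (F T) S) ≤ 3 :=
    (Real.exp_le_exp.2 (h3.trans h2)).trans (Real.exp_one_lt_d9.le.trans (by norm_num))
  refine (cN_exp h _).2.1.trans ((mul_le_mul h3 h4 (by positivity)
    ((cN_nonneg h _).trans h3)).trans_eq ?_)
  rw [kw]
  ring

theorem norm_Qd (hβ : ∀ y, (univ.filter fun i => π i = y).card ≤ β)
    (hB : Nb B S d) (q0 : 0 ≤ q) (q1 : q ≤ 1) {N : ℕ} (hε : (2 * N + 1) * q ^ N ≤ ε)
    (hd : d * ε ≤ 1 / 2) (hM : ∀ y ∈ S, ‖cpr π (B y) M‖ ≤ q) :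
    ‖Qd π B N M S‖ ≤ β * kq0 B ε S := by
  have := cN_Qd eta_one hβ hB (F := fun _ => M) q0 q1 hε hd (by simpa only [cN_const] using hM)
  rwa [cN_const] at this

theorem norm_dm (hβ : ∀ y, (univ.filter fun i => π i = y).card ≤ β)
    (hB : Nb B S d) (q0 : 0 ≤ q) (q1 : q ≤ 1) {N : ℕ} (hε : (2 * N + 1) * q ^ N ≤ ε)
    (hd : 6 * (β + 1) * d * ε ≤ 1) (hM : ∀ y ∈ S, ‖cpr π (B y) M‖ ≤ q) :
    ‖dm π B N M S‖ ≤ kw B β ε S := by
  have := cN_dm eta_one hβ hB (F := fun _ => M) q0 q1 hε hd (by simpa only [cN_const] using hM)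
  rwa [cN_const] at this

theorem kw_nonneg (ε0 : 0 ≤ ε) (S : Finset σ) : 0 ≤ kw B β ε S :=
  mul_nonneg (by positivity) (kq0_nonneg ε0 S)

/-- the terms of the two series -/
theorem norm_terms (hβ : ∀ y, (univ.filter fun i => π i = y).card ≤ β)
    (hB : ∀ y ∈ S, y ∈ B y) (q0 : 0 ≤ q) (q1 : q ≤ 1) {N : ℕ} (hε : (2 * N + 1) * q ^ N ≤ ε)
    (hM : ∀ y ∈ S, ‖cpr π (B y) M‖ ≤ q) (m : ℕ) :
    ‖Qm π B (X ^ N) (sP N m) M (m + 1) S‖ ≤ β * (1 / 2) * (cw B (m + 1) S * ε ^ (m + 1)) ∧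
    ‖Qm π B (uP N) (C (1 / (2 * ((m : ℂ) + 1)))) M (m + 1) S‖ ≤
      β * (1 / 2) * (cw B (m + 1) S * ε ^ (m + 1)) := by
  have ε0 : 0 ≤ ε := le_trans (by positivity) hε
  have h4 := fun y hy => cN_four eta_one (F := fun _ => M) q1
    (by simpa only [cN_const] using hM y hy) N hε
  simp only [cN_const] at h4
  exact ⟨norm_Qm hβ hB (by norm_num) ε0 (fun y hy => (h4 y hy).1) (fun y hy => (h4 y hy).2.2.1 m) _,
    norm_Qm hβ hB (by norm_num) ε0 (fun y hy => (h4 y hy).2.1) (fun y hy => (h4 y hy).2.2.2 m) _⟩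

/-- holomorphy in a parameter -/
theorem Qd_diff (hβ : ∀ y, (univ.filter fun i => π i = y).card ≤ β)
    (hB : Nb B S d) (q0 : 0 ≤ q) (q1 : q ≤ 1) {N : ℕ} (hε : (2 * N + 1) * q ^ N ≤ ε)
    (hd : d * ε ≤ 1 / 2) {O : Set ℂ} (hO : IsOpen O) {F : ℂ → Matrix I I ℂ}
    (hF : ∀ y ∈ S, ∀ i j, π i ∈ B y → π j ∈ B y → DifferentiableOn ℂ (fun a => F a i j) O)
    (hM : ∀ a ∈ O, ∀ y ∈ S, ‖cpr π (B y) (F a)‖ ≤ q) :
    DifferentiableOn ℂ (fun a => Qd π B N (F a) S) O := by
  let A : Subalgebra ℂ (ℂ → ℂ) :=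
    { carrier := {f | DifferentiableOn ℂ f O}
      mul_mem' := fun h h' => DifferentiableOn.mul h h'
      add_mem' := fun h h' => DifferentiableOn.add h h'
      algebraMap_mem' := fun _ => differentiableOn_const _ }
  have h2 := (summable_kq0 hB (le_trans (by positivity) hε) hd).mul_left (β * (1 / 2) : ℝ)
  exact (Complex.differentiableOn_tsum_of_summable_norm h2 (fun m => Qm_mem A hF _ _ _) hO
    fun m a ha => (norm_terms hβ hB.self q0 q1 hε (hM a ha) m).1).sub
    (Complex.differentiableOn_tsum_of_summable_norm h2 (fun m => Qm_mem A hF _ _ _) hO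
      fun m a ha => (norm_terms hβ hB.self q0 q1 hε (hM a ha) m).2)

theorem dm_diff (hβ : ∀ y, (univ.filter fun i => π i = y).card ≤ β)
    (hB : Nb B S d) (q0 : 0 ≤ q) (q1 : q ≤ 1) {N : ℕ} (hε : (2 * N + 1) * q ^ N ≤ ε)
    (hd : d * ε ≤ 1 / 2) {O : Set ℂ} (hO : IsOpen O) {F : ℂ → Matrix I I ℂ}
    (hF : ∀ y ∈ S, ∀ i j, π i ∈ B y → π j ∈ B y → DifferentiableOn ℂ (fun a => F a i j) O)
    (hM : ∀ a ∈ O, ∀ y ∈ S, ‖cpr π (B y) (F a)‖ ≤ q) :
    DifferentiableOn ℂ (fun a => dm π B N (F a) S) O :=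
  (Qd_diff hβ hB q0 q1 hε hd hO hF hM).cexp.sub_const 1

/-- continuity in a parameter -/
theorem Qd_cont (hβ : ∀ y, (univ.filter fun i => π i = y).card ≤ β)
    (hB : Nb B S d) (q0 : 0 ≤ q) (q1 : q ≤ 1) {N : ℕ} (hε : (2 * N + 1) * q ^ N ≤ ε)
    (hd : d * ε ≤ 1 / 2) {α : Type} [TopologicalSpace α] {O : Set α} {F : α → Matrix I I ℂ}
    (hF : ∀ y ∈ S, ∀ i j, π i ∈ B y → π j ∈ B y → ContinuousOn (fun a => F a i j) O)
    (hM : ∀ a ∈ O, ∀ y ∈ S, ‖cpr π (B y) (F a)‖ ≤ q) :
    ContinuousOn (fun a => Qd π B N (F a) S) O := by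
  let A : Subalgebra ℂ (α → ℂ) :=
    { carrier := {f | ContinuousOn f O}
      mul_mem' := fun h h' => ContinuousOn.mul h h'
      add_mem' := fun h h' => ContinuousOn.add h h'
      algebraMap_mem' := fun _ => continuousOn_const }
  have h2 := (summable_kq0 hB (le_trans (by positivity) hε) hd).mul_left (β * (1 / 2) : ℝ)
  exact (continuousOn_tsum (fun m => Qm_mem A hF _ _ _) h2
    fun m a ha => (norm_terms hβ hB.self q0 q1 hε (hM a ha) m).1).sub
    (continuousOn_tsum (fun m => Qm_mem A hF _ _ _) h2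
      fun m a ha => (norm_terms hβ hB.self q0 q1 hε (hM a ha) m).2)

end Pool.Agent.Lib.MP_7f377f_mp.RG.Q4.Loc
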