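import Pool.Agent.Lib.MP_7f377f_mp.Q4Op3

/-! Local bounds for polynomials in the fluctuation operator. -/

noncomputable section

namespace Pool.Agent.Lib.MP_7f377f_mp.RG.Q4

open Finset Polynomial

attribute [local irreducible] lbox cube

variable {O O' : Od} {c l R : ℕ} {H : Set St} {W W' : Cf} {W0 W0' : Conf} {A A' : Fld} {p q : ℂ[X]}
  {δ : ℝ} {f : Lk} {n : Fin 4 → ℕ}

/-- a torus which contains the box of radius `R` -/
def tn (R : ℕ) : Fin 4 → ℕ := cu (2 * (R + 6) + 1)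

/-- the holes in the box, and its complement -/
def tH (R : ℕ) (H : Set St) : Set St := {x | rcv (tn R) x ∈ H ∨ rcv (tn R) x ∉ box (R + 3)}

theorem tn_odd (R : ℕ) (i : Fin 4) : Odd (tn R i) := ⟨R + 6, rfl⟩

theorem dom_tn (R : ℕ) : domv (tn R) = box (R + 6) := by
  rw [domv, box]
  simp only [tn, show (2 * (R + 6) + 1) / 2 = R + 6 by omega]

attribute [local irreducible] box

theorem Gp.congr (h : Gp δ W W0) (h1 : Agr 5 W W') (h2 : Agr 6 W0 W0') : Gp δ W' W0' := by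
  refine ⟨fun x hx μ ν => ?_, fun e he => ?_⟩
  · have b1 := fun μ => h2 (x, μ) (mem_lbox.2 (box_mono (by norm_num) hx))
    have b2 := fun μ ν => h2 (x + un μ, ν) (mem_lbox.2 (add_un_mem_box hx μ))
    rw [fq, hol, ← b1, ← b1, ← b2, ← b2]
    exact h.1 x hx μ ν
  · rw [← h1 e he, ← h2 e (lbox_mono (by norm_num) he)]
    exact h.2 e he

theorem tH_per : PerS (tn R) (tH R H) := fun v => by
  ext x
  simp only [shS, tH, Set.mem_ofPred_eq, rcv_add]

theorem rcv_tn {x : St} (hx : x ∈ box (R + 6)) : rcv (tn R) x = x :=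
  rcv_eq (tn_odd R) (dom_tn R ▸ hx)

theorem tH_ag : AgS (R + 3) H (tH R H) := fun x hx => by
  simp only [tH, Set.mem_ofPred_eq, rcv_tn (R := R) (box_mono (by omega) hx), hx, not_true, or_false]

theorem pcv_agr {α : Type} (U : Lk → α) : Agr (R + 6) U (pcv (tn R) U) := fun e he => by
  rw [pcv, rcv_tn (mem_lbox.1 he)]

theorem pcv_agr' {α : Type} (U : Lk → α) : Agr (fb l (R + 6)) U (pcv (fi l (tn R)) U) :=
  fun e he => by
    rw [pcv, rcv_eq (odd_fi (tn_odd R) l)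
      ((mem_fine (tn_odd R)).2 (dom_tn R ▸ Op.mem_fb.1 (mem_lbox.1 he)))]

theorem tH_gp (hg : ∀ y ∈ box R, Fr H y → Gp δ (sh y W) (sh y W0)) (y : St) (hy : Fr (tH R H) y) :
    Gp δ (sh y (pcv (tn R) W)) (sh y (pcv (tn R) W0)) := by
  obtain ⟨v, hv⟩ := rcv_spec (tn R) y
  rw [hv, tH_per.fr] at hy
  rw [hv, ← sh_sh, ← sh_sh, pcv_per _ v, pcv_per _ v]
  have h0 := dom_tn R ▸ rcv_mem (tn_odd R) y
  generalize rcv (tn R) y = x at hy h0
  have h1 : x ∈ box (R + 3) := by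
    have := hy 0 (zero_mem_box 3)
    rw [add_zero, tH, Set.mem_ofPred_eq, rcv_tn h0, not_or, not_not] at this
    exact this.2
  have h2 : ∀ v ∈ box 3, x + v ∉ H ∧ x + v ∈ box (R + 3) := fun v hv => by
    have := hy v hv
    rwa [tH, Set.mem_ofPred_eq, rcv_tn (R := R) (add_mem_box h1 hv :), not_or, not_not] at this
  have h3 : x ∈ box R := mem_box.2 fun i => by
    have a := mem_box.1 (h2 (fun _ => 3) (mem_box.2 fun _ => by norm_num)).2 i
    have b := mem_box.1 (h2 (fun _ => -3) (mem_box.2 fun _ => by norm_num)).2 i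
    simp only [Pi.add_apply] at a b
    omega
  exact (hg x h3 fun v hv => (h2 v hv).1).congr (((pcv_agr (R := R) W).mono (by omega)).sh h3)
    (((pcv_agr (R := R) W0).mono (by omega)).sh h3)

theorem sum_tn {M : Type} [AddCommMonoid M] {g : Lk → M} (S : Finset Lk)
    (hS : S ⊆ lbox (fb l (R + 6))) (hg : ∀ e ∉ S, g e = 0) :
    ∑ y ∈ domv (tn R), ∑ t ∈ lbox l, pcv (fi l (tn R)) g (t.1 + up l y, t.2) = ∑ e ∈ S, g e := by
  rw [dom_tn, ← Op.sum_fb, ← sum_congr rfl (pcv_agr' g), sum_subset hS fun e _ he => hg e he]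

theorem nrm2_cut : nrm2 (tn R) l (pcv (fi l (tn R)) (cut (fb l R) A)) ^ 2 =
    ∑ e ∈ lbox (fb l R), ∑ k, ‖A e k‖ ^ 2 := by
  rw [nrm2_sq]
  refine (sum_tn (g := fun e => ∑ k, ‖cut (fb l R) A e k‖ ^ 2) (lbox (fb l R))
    (fun _ => lbox_mono (Op.fb_mono _ (by omega))) fun e he => ?_).trans
    (sum_congr rfl fun e he => by rw [cut_of_mem _ he])
  simp [cut_of_not_mem _ he]

theorem le_nrm2 {y : St} (hy : y ∈ domv n) :
    ∑ t ∈ lbox l, ∑ k, ‖A (t.1 + up l y, t.2) k‖ ^ 2 ≤ nrm2 n l A ^ 2 := by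
  rw [nrm2_sq]
  exact single_le_sum (f := fun y => ∑ t ∈ lbox l, ∑ k, ‖A (t.1 + up l y, t.2) k‖ ^ 2)
    (fun _ _ => by positivity) hy

theorem sm_of_sq {a γ : ℝ} (γ0 : 0 ≤ γ) (hA : Sm (fb l R) a A)
    (h : ∑ f ∈ lbox l, ∑ k, ‖A' f k‖ ^ 2 ≤ γ ^ 2 * ∑ e ∈ lbox (fb l R), ∑ k, ‖A e k‖ ^ 2) :
    Sm l (γ * (4 * (2 * R + 1) ^ 2 * (LL l : ℝ) ^ 2 * a)) A' := fun f hf => by
  have a0 := hA.nonneg
  refine (abs_le_of_sq_le_sq' ((norm_sq_le _).trans ((single_le_sum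
    (f := fun f => ∑ k, ‖A' f k‖ ^ 2) (fun _ _ => by positivity) hf).trans (h.trans ?_)))
    (by positivity)).2
  rw [mul_pow]
  refine mul_le_mul_of_nonneg_left ((sum_le_card_nsmul _ _ _ fun e he => sum_le_card_nsmul _ _ _
    fun k _ => pow_le_pow_left₀ (norm_nonneg _) ((norm_le_pi_norm _ k).trans (hA e he)) 2).trans ?_)
    (sq_nonneg _)
  rw [card_lbox, show 2 * fb l R + 1 = (2 * R + 1) * LL l by unfold fb LL; ring, nsmul_eq_mul,
    nsmul_eq_mul, card_univ, Fintype.card_fin]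
  push_cast
  nlinarith [sq_nonneg ((2 * R + 1) ^ 2 * (LL l : ℝ) ^ 2 * a)]

theorem sm_of_all {a : ℝ} (h : ∀ e, ‖A e‖ ≤ a) (R : ℕ) (y : St) : Sm R a (sh y A) := fun _ _ => h _

namespace Od

theorem pol_tn (h : O.Ok c) {d a : ℕ} (hp : p.natDegree ≤ d) (hR : a + 3 * d ≤ R)
    (hA : Agr (fb O.l (a + 3 * d)) A A') : Agr (fb O.l a) (O.pol p H W A)
      (O.pol p (tH R H) (pcv (tn R) W) (pcv (fi O.l (tn R)) A')) :=
  pol_agr h hp (tH_ag.mono (by omega)) ((pcv_agr W).mono (by omega))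
    (hA.trans ((pcv_agr' A').mono (Op.fb_mono _ (by omega))))

theorem loc_of {G : Fld → Fld} {B : Fld} {γ : ℝ}
    (h1 : Agr (fb l 0) B (G (pcv (fi l (tn R)) (cut (fb l R) A))))
    (h2 : ∀ A, PerV (fi l (tn R)) A → nrm2 (tn R) l (G A) ≤ γ * nrm2 (tn R) l A) :
    ∑ f ∈ lbox l, ∑ k, ‖B f k‖ ^ 2 ≤ γ ^ 2 * ∑ e ∈ lbox (fb l R), ∑ k, ‖A e k‖ ^ 2 := by
  rw [← nrm2_cut, ← mul_pow]
  refine le_trans (le_of_eq ?_) ((le_nrm2 (dom_tn R ▸ zero_mem_box _)).trans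
    (pow_le_pow_left₀ nrm2_nonneg (h2 _ (pcv_per _)) 2))
  refine sum_congr rfl fun t ht => ?_
  rw [h1 t (by simpa [fb] using ht), Op.up_zero, add_zero]

theorem pol_loc (h : O.Ok c) (hδ : (LL O.l : ℝ) ^ (2 * c + 10) * δ ≤ 1) {d : ℕ}
    (hp : p.natDegree ≤ d) (hg : ∀ y ∈ box (3 * d), Fr H y → Gp δ (sh y W) (sh y W0)) :
    ∑ f ∈ lbox O.l, ∑ k, ‖O.pol p H W A f k‖ ^ 2 ≤
      wn (O.θ c) p ^ 2 * ∑ e ∈ lbox (fb O.l (3 * d)), ∑ k, ‖A e k‖ ^ 2 :=
  loc_of (pol_tn h hp (by omega) (by rw [zero_add]; exact (agr_cut _ _).symm)) fun _ =>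
      pol_l2 h hδ (tn_odd _) tH_per (pcv_per _) (pcv_per _) (tH_gp hg)

theorem pol_sup (h : O.Ok c) (hδ : (LL O.l : ℝ) ^ (2 * c + 10) * δ ≤ 1) {d : ℕ} {a : ℝ}
    (hp : p.natDegree ≤ d) (hg : ∀ y ∈ box (3 * d), Fr H y → Gp δ (sh y W) (sh y W0))
    (hA : Sm (fb O.l (3 * d)) a A) :
    Sm O.l (wn (O.θ c) p * (4 * (6 * d + 1) ^ 2 * (LL O.l : ℝ) ^ 2 * a)) (O.pol p H W A) :=
  (sm_of_sq (wn_nonneg (θ_mem h).1) hA (pol_loc h hδ hp hg)).mono le_rfl
    (le_of_eq (by push_cast; ring))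

/-- the bound at an arbitrary link -/
theorem pol_at (h : O.Ok c) (hδ : (LL O.l : ℝ) ^ (2 * c + 10) * δ ≤ 1) {d : ℕ} {a : ℝ}
    (hp : p.natDegree ≤ d) (f : Lk) (hg : ∀ y ∈ box (3 * d), Fr H (y + yo O.l f.1) →
      Gp δ (sh (y + yo O.l f.1) W) (sh (y + yo O.l f.1) W0))
    (hA : Sm (fb O.l (3 * d)) a (sh (up O.l (yo O.l f.1)) A)) :
    ‖O.pol p H W A f‖ ≤ wn (O.θ c) p * (4 * (6 * d + 1) ^ 2 * (LL O.l : ℝ) ^ 2 * a) := by
  have := pol_sup h hδ hp (H := shS (yo O.l f.1) H) (W := sh (yo O.l f.1) W)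
    (W0 := sh (yo O.l f.1) W0) (fun y hy hf => by
      rw [sh_sh, sh_sh]; exact hg y hy (fr_shS.1 hf)) hA (f.1 - up O.l (yo O.l f.1), f.2)
    (mem_lbox.2 (sub_up_yo_mem _ _))
  rwa [pol_sh, sh, sub_add_cancel] at this

theorem Ok.deg_le (h : O.Ok c) : (4 : ℝ) * (6 * (2 * O.N + 1 : ℕ) + 1) ^ 2 * (LL O.l : ℝ) ^ 2 ≤
    (LL O.l : ℝ) ^ (4 * c + 11) := by
  have hL := h.LL_ge
  have hN := h.N_cast
  have N1 : (7 : ℝ) ≤ O.N := hN ▸ le_trans (by linarith) (le_self_pow₀ (by linarith) (by omega))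
  refine le_trans ?_ (h.pow_le (C := 676) (by norm_num) (i := 4 * c + 10) (by omega))
  calc _ ≤ 4 * (13 * O.N : ℝ) ^ 2 * (LL O.l : ℝ) ^ 2 := by gcongr; push_cast; linarith
    _ = _ := by rw [hN]; ring

theorem Ok.exp_le (h : O.Ok c) : Real.exp (-(O.l : ℝ) ^ 2) ≤ 1 / 2 := by
  have : (1 : ℝ) ≤ O.l := by exact_mod_cast le_trans (by omega) h.big
  have h2 := Real.add_one_le_exp ((O.l : ℝ) ^ 2)
  rw [Real.exp_neg, ← one_div]
  exact one_div_le_one_div_of_le two_pos (by nlinarith)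

theorem Ok.N_le (h : O.Ok c) : 4 * ((O.N : ℝ) + 1) ≤ (LL O.l : ℝ) ^ (2 * c + 5) := by
  have N1 : (1 : ℝ) ≤ O.N := h.N_cast ▸ one_le_pow₀ (by linarith [h.LL_ge])
  have := h.pow_le (C := 8) (by norm_num) (i := 2 * c + 4) (j := 2 * c + 5) (by omega)
  linarith [h.N_cast]

theorem pol_inv (h : O.Ok c) (hδ : (LL O.l : ℝ) ^ (2 * c + 10) * δ ≤ 1) {a : ℝ}
    (hg : ∀ y, Fr H y → Gp δ (sh y W) (sh y W0)) (hA : ∃ M, ∀ e, ‖A e‖ ≤ M)
    (ha : ∀ e, ‖O.pol (pP O.N) H W A e‖ ≤ a) (hf : Act O.l H f) :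
    ‖A f‖ ≤ (LL O.l : ℝ) ^ (6 * c + 16) * a := by
  obtain ⟨M, hM⟩ := hA
  obtain ⟨θ0, θ1⟩ := θ_mem h
  have a0 := (norm_nonneg _).trans (ha f)
  have hb : BddAbove (Set.range fun e => ‖pj O.l H A e‖) :=
    ⟨M, Set.forall_mem_range.2 fun e => (norm_pj e).trans (hM e)⟩
  obtain ⟨s, h1, h5⟩ : ∃ s, (∀ e, ‖pj O.l H A e‖ ≤ s) ∧ ∀ t, (∀ e, ‖pj O.l H A e‖ ≤ t) → s ≤ t :=
    ⟨_, le_ciSup hb, fun _ => ciSup_le⟩
  have s0 := (norm_nonneg _).trans (h1 f)
  have h2 := h.deg_le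
  have h4 := h.N_le
  have h3 : s ≤ (LL O.l : ℝ) ^ (6 * c + 16) * a / 2 + s / 2 := h5 _ fun e => by
    have e1 : pj O.l H A = O.pol (pP O.N * (1 - X)) H W (O.pol (pP O.N) H W A) +
        O.pol (pU O.N) H W (pj O.l H A) := by
      rw [pol_pj, ← pol_mul, ← pol_add, ← pol_one (W := W), pU]
      congr 1
      ring
    rw [e1]
    refine (norm_add_le _ _).trans (add_le_add ?_ ?_)
    · refine (pol_at h hδ (d := 2 * O.N + 1) (natDegree_mul_le.trans ((add_le_add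
        (Op.natDegree_pP _) ((natDegree_sub_le _ _).trans (c := 1) (by simp))).trans (by omega))) e
        (fun y _ => hg _) fun _ _ => ha _).trans ?_
      have := (wn_mul θ0).trans (mul_le_mul (wn_pP θ0 θ1 O.N) (wn_one_sub θ0 θ1) (wn_nonneg θ0)
        (by positivity))
      calc _ ≤ ((LL O.l : ℝ) ^ (2 * c + 5) / 2) * ((LL O.l : ℝ) ^ (4 * c + 11) * a) := by
            gcongr; linarith
        _ = _ := by ring
    · have := (θ_pow h (j := 6 * c + 16) (le_trans (by omega) h.big)).trans h.exp_le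
      refine (pol_at h hδ (natDegree_pU _) e (fun y _ => hg _) (sm_of_all h1 _ _)).trans ?_
      calc _ ≤ ((LL O.l : ℝ) ^ (2 * c + 5) * O.θ c ^ O.N) * ((LL O.l : ℝ) ^ (4 * c + 11) * s) := by
            gcongr
            exact (wn_pU θ0 θ1 _).trans (by gcongr; linarith [Nat.cast_nonneg (α := ℝ) O.N])
        _ = (LL O.l : ℝ) ^ (6 * c + 16) * O.θ c ^ O.N * s := by ring
        _ ≤ _ := by nlinarith
  rw [← pj_act (A := A) hf]
  linarith [h1 f]

theorem dt_bound (h : O.Ok c) (hδ : (LL O.l : ℝ) ^ (2 * c + 10) * δ ≤ 1)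
    (hg : ∀ y ∈ box (3 * O.N), Fr H y → Gp δ (sh y W) (sh y W0)) :
    ‖O.dt H W‖ ≤ (LL O.l : ℝ) ^ (2 * c + 9) := by
  obtain ⟨θ0, θ1⟩ := θ_mem h
  refine (norm_sum_le _ _).trans ((sum_le_card_nsmul _ _ _ fun f hf => (norm_sum_le _ _).trans
    (sum_le_card_nsmul _ _ (O.N : ℝ) fun k _ => ?_)).trans ?_)
  · have h1 := pol_loc h hδ (Op.natDegree_pQ O.N) hg (A := Pi.single f (Pi.single k 1))
    have h2 : ∑ e ∈ lbox (fb O.l (3 * O.N)), ∑ j, ‖(Pi.single f (Pi.single k 1) : Fld) e j‖ ^ 2 ≤ 1 := by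
      rw [sum_eq_single f (fun e _ he => by simp [he])
        fun hn => (hn (lbox_mono (r' := fb _ _) (Nat.le_add_left _ _) hf)).elim,
        sum_eq_single k (fun j _ hj => by simp [hj]) (by simp)]
      simp
    refine (abs_le_of_sq_le_sq' (le_trans ?_ (h1.trans ((mul_le_of_le_one_right (sq_nonneg _)
      h2).trans (pow_le_pow_left₀ (wn_nonneg θ0) (wn_pQ θ0 θ1 _) 2)))) (Nat.cast_nonneg _)).2
    exact (single_le_sum (f := fun j => ‖O.pol (pQ O.N) H W (Pi.single f (Pi.single k 1)) f j‖ ^ 2)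
      (fun _ _ => sq_nonneg _) (mem_univ k)).trans (single_le_sum (f := fun e => ∑ j,
        ‖O.pol (pQ O.N) H W (Pi.single f (Pi.single k 1)) e j‖ ^ 2) (fun _ _ => by positivity) hf)
  · refine le_trans (le_of_eq ?_) (h.pow_le (C := 12) (by norm_num) (i := 2 * c + 8) (by omega))
    rw [card_lbox, show 2 * O.l + 1 = LL O.l from rfl, nsmul_eq_mul, nsmul_eq_mul, h.N_cast,
      card_univ, Fintype.card_fin]
    push_cast
    ring

theorem pol_symm (h : O.Ok c) (e f : Lk) (b b' : C3) :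
    dot b (O.pol p H W (Pi.single e b') f) = dot b' (O.pol p H W (Pi.single f b) e) := by
  obtain ⟨a, he, hf⟩ : ∃ a, e ∈ lbox (fb O.l a) ∧ f ∈ lbox (fb O.l a) := by
    have : ∀ x : St, x ∈ box (univ.sup fun i => (x i).natAbs) := fun x => mem_box.2 fun i => by
      have := le_sup (f := fun i => (x i).natAbs) (mem_univ i)
      omega
    exact ⟨max _ _, mem_lbox.2 (Op.mem_fb.2 (box_mono (le_max_left _ _) (this _))),
      mem_lbox.2 (Op.mem_fb.2 (box_mono (le_max_right _ _) (this _)))⟩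
  set R := a + 3 * p.natDegree with hR
  have key : ∀ {e f : Lk} (b b' : C3), f ∈ lbox (fb O.l a) → dot b (O.pol p H W (Pi.single e b') f) =
      bp (tn R) O.l (pcv (fi O.l (tn R)) (Pi.single f b)) (O.pol p (tH R H) (pcv (tn R) W)
        (pcv (fi O.l (tn R)) (Pi.single e b'))) := fun {e f} b b' hf => by
    rw [pol_tn h le_rfl hR.ge (fun _ _ => rfl) f hf,
      ← (pol_per (O := O) (p := p) tH_per (pcv_per W) (pcv_per (Pi.single e b'))).pcv]
    generalize O.pol p (tH R H) (pcv (tn R) W) (pcv (fi O.l (tn R)) (Pi.single e b')) = B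
    have h1 := lbox_mono (Op.fb_mono O.l (by omega : a ≤ R + 6)) hf
    refine Eq.trans ?_ (sum_tn (g := fun e => dot ((Pi.single f b : Fld) e) (B e)) {f}
      (singleton_subset_iff.2 h1) fun e he => by
        rw [Pi.single_eq_of_ne (notMem_singleton.1 he), zero_dot]).symm
    rw [sum_singleton, Pi.single_eq_same, ← pcv_agr' B f h1]
  rw [key b b' hf, key b' b he, bp_pol h (tn_odd R) tH_per (pcv_per _) (pcv_per _) (pcv_per _),
    bp_comm]

theorem top_lip (h : O.Ok c) {h2 : BF} (h' : Od.Ok { O with h := h2 } c) {η : ℝ} (h1 : δ ≤ 1 / 200)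
    (hη : ∀ e f, |O.h (Pi.single e 1) (Pi.single f 1) - h2 (Pi.single e 1) (Pi.single f 1)| ≤ η)
    (hg : ∀ y, Fr H y → Gp δ (sh y W) (sh y W0)) (f : Lk) :
    ‖(O.top H W A - Od.top { O with h := h2 } H W A) f‖ ≤ η * ∑ y ∈ box 2,
      ∑ e ∈ lbox (3 * O.l + 1), ‖A (e.1 + up O.l (yo O.l f.1 + y), e.2)‖ := by
  have hL := h.LL_ge
  have η0 := (abs_nonneg _).trans (hη f f)
  by_cases hf : Act O.l H f
  swap
  · rw [Pi.sub_apply, top_not hf, top_not (O := { O with h := h2 }) hf, sub_self, norm_zero]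
    positivity
  rw [Pi.sub_apply, top_act hf, top_act (O := { O with h := h2 }) hf, sub_sub_sub_cancel_left,
    ← smul_sub, norm_smul, norm_sub_rev, norm_inv, Complex.norm_real,
    Real.norm_of_nonneg h.lam_pos.le, inv_mul_le_iff₀ h.lam_pos, ham_ker h, ham_ker h', h.lam,
    ← sum_sub_distrib, mul_sum, mul_sum]
  refine (norm_sum_le _ _).trans (sum_le_sum fun y hy => ?_)
  rw [← sum_sub_distrib, mul_sum, mul_sum]
  refine (norm_sum_le _ _).trans (sum_le_sum fun e he => ?_)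
  rw [← sub_smul, norm_smul, ← Complex.ofReal_sub, Complex.norm_real, mul_left_comm]
  refine mul_le_mul (hη _ _) ?_ (norm_nonneg _) η0
  have h3 := adq_pert h1 (hg _ hf.2) hy he (pj O.l H A (e.1 + up O.l (yo O.l f.1 + y), e.2))
  rw [sh_cC, cmb_cC, cmb_cC, ← cS_inv] at h3
  have h4 := norm_pj (l := O.l) (H := H) (A := A) (e.1 + up O.l (yo O.l f.1 + y), e.2)
  have h5 := mul_le_mul (hL.trans (le_self_pow₀ (by linarith) c.succ_ne_zero)) h4 (norm_nonneg _)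
    (by positivity)
  refine (norm_le_norm_add_norm_sub' _ _).trans ((add_le_add ((norm_adq_cS _ _).trans
    (mul_le_mul_of_nonneg_left (norm_adq_cS _ _) (by norm_num))) h3).trans (le_trans ?_ h5))
  nlinarith [norm_nonneg (pj O.l H A (e.1 + up O.l (yo O.l f.1 + y), e.2))]

theorem iter_lip (h : O.Ok c) {h2 : BF} (h' : Od.Ok { O with h := h2 } c) {η : ℝ} (δ0 : 0 ≤ δ)
    (hδ : (LL O.l : ℝ) ^ (2 * c + 10) * δ ≤ 1) (hn : ∀ i, Odd (n i))
    (hη : ∀ e f, |O.h (Pi.single e 1) (Pi.single f 1) - h2 (Pi.single e 1) (Pi.single f 1)| ≤ η)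
    (hH : PerS n H) (hW : PerV n W) (h0 : PerV n W0)
    (hg : ∀ y, Fr H y → Gp δ (sh y W) (sh y W0)) (hA : PerV (fi O.l n) A) (k : ℕ) :
    nrm2 n O.l ((O.top H W)^[k] (pj O.l H A) - (Od.top { O with h := h2 } H W)^[k] (pj O.l H A)) ≤
      k * (η * (LL O.l : ℝ) ^ 5) * nrm2 n O.l A := by
  have hL := h.LL_ge
  have η0 := (abs_nonneg _).trans (hη (0, 0) (0, 0))
  induction k with
  | zero => simp [nrm2_eq]
  | succ k ih =>
    have p1 := iter_per (O := O) hH hW hA k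
    have p2 := iter_per (O := { O with h := h2 }) hH hW hA k
    have b1 := pol_l2 (p := X ^ k) h' hδ hn hH hW h0 hg hA
    rw [pol_X_pow, wn_X_pow] at b1
    rw [Function.iterate_succ_apply', Function.iterate_succ_apply']
    generalize (O.top H W)^[k] (pj O.l H A) = B at p1 ih
    generalize (Od.top { O with h := h2 } H W)^[k] (pj O.l H A) = B' at p2 ih b1
    have b2 := (nrm2_ker hn hL p2 η0 (top_lip h h' (by
      linarith [h.small δ0 hδ (j := 0) (by omega)]) hη hg)).trans (mul_le_mul_of_nonneg_left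
        (b1.trans (mul_le_of_le_one_left nrm2_nonneg (pow_le_one₀ (θ_mem h').1 (θ_mem h').2)))
        (by positivity))
    have b3 := (top_l2 h hδ hn hH h0 hg (A := B - B') fun v => congrArg₂ (· - ·) (p1 v) (p2 v)).trans
      ((mul_le_of_le_one_left nrm2_nonneg (θ_mem h).2).trans ih)
    rw [← topL_apply, map_sub, topL_apply, topL_apply, nrm2_eq, map_sub] at b3
    rw [nrm2_eq, map_sub] at b2
    rw [nrm2_eq, map_sub]
    refine (norm_sub_le_norm_sub_add_norm_sub _ _ _).trans ((add_le_add b3 b2).trans_eq ?_)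
    push_cast
    ring

theorem pol_lip2 (h : O.Ok c) {h2 : BF} (h' : Od.Ok { O with h := h2 } c) {η : ℝ} (δ0 : 0 ≤ δ)
    (hδ : (LL O.l : ℝ) ^ (2 * c + 10) * δ ≤ 1) (hn : ∀ i, Odd (n i))
    (hη : ∀ e f, |O.h (Pi.single e 1) (Pi.single f 1) - h2 (Pi.single e 1) (Pi.single f 1)| ≤ η)
    (hH : PerS n H) (hW : PerV n W) (h0 : PerV n W0) (hg : ∀ y, Fr H y → Gp δ (sh y W) (sh y W0))
    {d : ℕ} (hp : p.natDegree ≤ d) (hA : PerV (fi O.l n) A) :
    nrm2 n O.l (O.pol p H W A - Od.pol { O with h := h2 } p H W A) ≤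
      wn 1 p * (d * (η * (LL O.l : ℝ) ^ 5)) * nrm2 n O.l A := by
  have η0 := (abs_nonneg _).trans (hη (0, 0) (0, 0))
  rw [nrm2_eq, pol, pol, Polynomial.sum, Polynomial.sum, ← sum_sub_distrib, map_sum,
    wn_eq subset_rfl, sum_mul, sum_mul]
  refine (norm_sum_le _ _).trans (sum_le_sum fun k hk => ?_)
  rw [← smul_sub, map_smul, norm_smul, ← nrm2_eq, one_pow, mul_one, mul_assoc]
  refine mul_le_mul_of_nonneg_left ((iter_lip h h' δ0 hδ hn hη hH hW h0 hg hA k).trans ?_)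
    (norm_nonneg _)
  have : (k : ℝ) ≤ d := by exact_mod_cast (le_natDegree_of_mem_supp k hk).trans hp
  exact mul_le_mul_of_nonneg_right (mul_le_mul_of_nonneg_right this (by positivity)) nrm2_nonneg

theorem pol_lip (h : O.Ok c) (h' : O'.Ok c) (hl : O'.l = O.l)
    (hδ : (LL O.l : ℝ) ^ (2 * c + 10) * δ ≤ 1) {d : ℕ} {a η : ℝ}
    (hη : ∀ e f, |O.h (Pi.single e 1) (Pi.single f 1) - O'.h (Pi.single e 1) (Pi.single f 1)| ≤ η)
    (hp : p.natDegree ≤ d) (hg : ∀ y ∈ box (3 * d), Fr H y → Gp δ (sh y W) (sh y W0))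
    (hA : Sm (fb O.l (3 * d)) a A) :
    Sm O.l (wn 1 p * (d * (6 * d + 1) ^ 2 * (LL O.l : ℝ) ^ 8 * η * a))
      (O.pol p H W A - O'.pol p H W A) := by
  obtain ⟨h2, rfl⟩ : ∃ h2, O' = { O with h := h2 } := ⟨O'.h, by
    have e1 := h'.lam
    have e2 := h'.num
    rw [hl, ← h.lam] at e1
    rw [hl, ← h.num] at e2
    cases O'
    simp_all⟩
  wlog δ0 : 0 ≤ δ generalizing δ
  · exact this (δ := 0) (by simp) (fun y hy hf => absurd (hg y hy hf).nonneg δ0) le_rfl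
  have η0 := (abs_nonneg _).trans (hη (0, 0) (0, 0))
  have a0 := hA.nonneg
  have w0 := wn_nonneg (p := p) zero_le_one
  have hc : Agr (fb O.l (0 + 3 * d)) A (cut (fb O.l (3 * d)) A) := by
    rw [zero_add]; exact (agr_cut _ _).symm
  refine (sm_of_sq (by positivity) hA (loc_of
    (G := fun A => O.pol p (tH (3 * d) H) (pcv (tn (3 * d)) W) A -
      Od.pol { O with h := h2 } p (tH (3 * d) H) (pcv (tn (3 * d)) W) A)
    (fun e he => congrArg₂ (· - ·) (pol_tn h hp (by omega) hc e he) (pol_tn h' hp (by omega) hc e he))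
    fun B => pol_lip2 h h' δ0 hδ (tn_odd _) hη tH_per (pcv_per _) (pcv_per _) (tH_gp hg) hp)).mono
    le_rfl ?_
  calc _ = wn 1 p * (d * (6 * d + 1) ^ 2 * (4 * (LL O.l : ℝ) ^ 7) * η * a) := by push_cast; ring
    _ ≤ _ := by gcongr; exact h.pow_le (by norm_num) (by omega)

end Od

end Pool.Agent.Lib.MP_7f377f_mp.RG.Q4
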