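import Pool.Agent.Lib.MP_7f377f_mp.Q4LocT
import Pool.Agent.Lib.MP_7f377f_mp.Q4OpK1

/-! The determinant marks of the fluctuation operator built from kernels. -/

noncomputable section

namespace Pool.Agent.Lib.MP_7f377f_mp.RG.Q4

open Finset Polynomial Loc

attribute [local irreducible] box lbox cube

/-- the part of the logarithm of the determinant carried by the walks which visit exactly `S` -/
def qdK (n : Fin 4 → ℕ) (l : ℕ) (Λ : ℝ) (N : ℕ) (H : Set St) (ka : St → Kf) (S : Finset St) : ℂ :=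
  qG n l (4 * N + 2) N (topKL l Λ H ka) S

/-- the determinant marks -/
def dmK (n : Fin 4 → ℕ) (l : ℕ) (Λ : ℝ) (N : ℕ) (H : Set St) (ka : St → Kf) (S : Finset St) : ℂ :=
  Complex.exp (qdK n l Λ N H ka S) - 1

variable {l N : ℕ} {Λ q ε : ℝ} {H H' : Set St} {ka ka' : St → Kf} {n : Fin 4 → ℕ} {S : Finset St}

theorem pg_topK (hH : PerS n H) (hk : PerK n ka) : PG n l (topKL l Λ H ka) :=
  fun _ hA => topK_per hH hk hA

theorem rn_topK : RnG l 2 (topKL l Λ H ka) := fun y A h t ht => by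
  have := topK_agr (Λ := Λ) (r := 0) (H := shS y H) (H' := shS y H) (ka := shK y ka)
    (ka' := shK y ka) (A := sh (up l y) A) (A' := 0) (fun _ _ => Iff.rfl)
    (fun _ _ _ => Kc.refl _ le_rfl) h t (mem_fb_zero ht)
  rw [topK_sh, ← topKL_apply (A := 0), map_zero] at this
  exact this

theorem topK_row {x : St} (hH : AgS 5 (shS x H) (shS x H'))
    (hk : ∀ y ∈ box 1, Nf H (y + x) → Kc l 0 (ka (y + x)) (ka' (y + x))) (A : Fld) :
    ∀ t ∈ lbox l, sh (up l x) (topKL l Λ H ka A) t = sh (up l x) (topKL l Λ H' ka' A) t :=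
  fun t ht => by
    rw [topKL_apply, topKL_apply, ← topK_sh, ← topK_sh]
    exact topK_agr (r := 0) hH (fun y hy h => hk y hy (nf_shS.1 h)) (fun _ _ => rfl) t
      (mem_fb_zero ht)

theorem qdK_empty : qdK n l Λ N H ka ∅ = 0 := qG_empty

theorem dmK_empty : dmK n l Λ N H ka ∅ = 0 := by simp [dmK, qdK_empty]

/-- locality -/
theorem qdK_agr (hH : PerS n H) (hH' : PerS n H') (hk : PerK n ka) (hk' : PerK n ka')
    (h1 : ∀ y ∈ S, AgS (4 * N + 7) (shS y H) (shS y H'))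
    (h2 : ∀ y ∈ S, ∀ x ∈ box (4 * N + 3), Nf H (x + y) → Kc l 0 (ka (x + y)) (ka' (x + y))) :
    qdK n l Λ N H ka S = qdK n l Λ N H' ka' S :=
  qG_agr (pg_topK hH hk) (pg_topK hH' hk') fun y hy v hv A _ => topK_row (by
    have := AgS.sh (R := 5) (R' := 4 * N + 2) ((h1 y hy).mono (by omega)) hv
    rwa [shS_shS, shS_shS, add_comm v] at this) (fun x hx => by
      have := h2 y hy (x + v) (box_mono (by omega) (add_mem_box hx hv))
      rwa [add_assoc, add_comm v] at this) A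

/-- translation covariance -/
theorem qdK_sh (hn : ∀ i, Odd (n i)) (hH : PerS n H) (hk : PerK n ka) (v : St)
    (hS : S ⊆ domv n) : qdK n l Λ N (shS v H) (shK v ka) S =
      qdK n l Λ N H ka (S.image fun y => rcv n (y + v)) :=
  qG_sh hn (pg_topK hH hk) v (fun _ _ => topK_sh v) hS

/-- gauge invariance -/
theorem qdK_gauge (hn : ∀ i, Odd (n i)) (hH : PerS n H) (hk : PerK n ka) {u : St → Hc}
    (hu : ∀ x, Uni (u x)) (hp : ∀ x v, u (x + pv n v) = u x)
    (h : ∀ y, Nf H y → Kg l u y (ka y) (ka' y)) : qdK n l Λ N H ka' S = qdK n l Λ N H ka S :=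
  qG_gauge hn (pg_topK hH hk) (u := fun x => u (yo l x)) (fun _ => hu _)
    (fun x v => by rw [← up_pv, yo_add_up, hp]) fun _ _ => topK_gauge hu h

theorem qdK_real (hk : ∀ y, Nf H y → Kr (ka y)) : (qdK n l Λ N H ka S).im = 0 :=
  qG_real fun _ => topK_real hk

theorem dmK_real (hk : ∀ y, Nf H y → Kr (ka y)) :
    (dmK n l Λ N H ka S).im = 0 ∧ 0 < (1 + dmK n l Λ N H ka S).re := by
  simp [dmK, Complex.exp_im, Complex.exp_re, qdK_real hk, Real.exp_pos]

theorem qdK_meas {Z : Type} [MeasurableSpace Z] {H : Z → Set St} {ka : Z → St → Kf}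
    (hH : ∀ y, MeasurableSet {z | y ∈ H z})
    (hk : ∀ y e i e' j, Measurable fun z => ka z y e i e' j) :
    Measurable fun z => qdK n l Λ N (H z) (ka z) S :=
  qG_meas fun A f k => by
    simp only [topKL_apply, ← polK_X]
    exact (measurable_pi_apply k).comp ((measurable_pi_apply f).comp
      (polK_meas hH hk measurable_const))

theorem dmK_meas {Z : Type} [MeasurableSpace Z] {H : Z → Set St} {ka : Z → St → Kf}
    (hH : ∀ y, MeasurableSet {z | y ∈ H z})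
    (hk : ∀ y e i e' j, Measurable fun z => ka z y e i e' j) :
    Measurable fun z => dmK n l Λ N (H z) (ka z) S :=
  (Complex.measurable_exp.comp (qdK_meas hH hk)).sub_const 1

/-- the operator is bounded by `q` as soon as the free blocks are those near `y` -/
def NrK (n : Fin 4 → ℕ) (l : ℕ) (Λ : ℝ) (R : ℕ) (q : ℝ) (H : Set St) (ka : St → Kf) (y : St) :
    Prop := ∀ H', PerS n H' → H ⊆ H' → (∀ x, Fr H' x → ∃ v ∈ box R, Dv n (x - (v + y))) →
  ∀ A, PerV (fi l n) A → nrm2 n l (topK l Λ H' ka A) ≤ q * nrm2 n l A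

theorem NrK.nr (hH : PerS n H) (hk : PerK n ka) {D : ℕ} {y : St}
    (h : NrK n l Λ (D + 5) q H ka y) : Loc.Nr n l D q (topKL l Λ H ka) y := by
  let H' : Set St := {x | x ∈ H ∨ ¬ ∃ v ∈ box (D + 5), Dv n (x - (v + y))}
  have h1 : PerS n H' := fun w => Set.ext fun x => by
    have : x + pv n w ∈ H ↔ x ∈ H := Set.ext_iff.1 (hH w) x
    simp only [shS, H', Set.mem_ofPred_eq, this, add_sub_right_comm, dv_add (dv_pv w)]
  refine ⟨topKL l Λ H' ka, pg_topK h1 hk, h H' h1 (fun _ => Or.inl) fun x hx => ?_,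
    fun A _ _ v hv => topK_row (fun x hx => ?_) (fun _ _ _ => Kc.refl _ le_rfl) A⟩
  · have := hx 0 (zero_mem_box _)
    rw [add_zero] at this
    exact by_contra fun h2 => this (Or.inr h2)
  · refine (or_iff_left (not_not.2 ⟨x + v, box_mono (by omega) (add_mem_box hx hv), ?_⟩)).symm
    rw [add_comm y, add_assoc, sub_self]
    exact dv_zero

theorem qdK_norm (hn : ∀ i, Odd (n i)) (hH : PerS n H) (hk : PerK n ka) (q0 : 0 ≤ q) (q1 : q ≤ 1)
    (hε : (2 * N + 1) * q ^ N ≤ ε) (hd : (8 * N + 5) ^ 4 * ε ≤ 1 / 2) (hS : S ⊆ domv n)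
    (h : ∀ y ∈ S, NrK n l Λ (4 * N + 7) q H ka y) :
    ‖qdK n l Λ N H ka S‖ ≤ (12 * LL l ^ 4 : ℕ) * kq0 (blv n (4 * N + 2)) ε S :=
  qG_norm hn (pg_topK hH hk) q0 q1 hε (by push_cast; convert hd using 3; ring) hS
    fun y hy => (h y hy).nr hH hk

theorem dmK_norm (hn : ∀ i, Odd (n i)) (hH : PerS n H) (hk : PerK n ka) (q0 : 0 ≤ q) (q1 : q ≤ 1)
    (hε : (2 * N + 1) * q ^ N ≤ ε) (hd : 6 * (12 * LL l ^ 4 + 1) * (8 * N + 5) ^ 4 * ε ≤ 1)
    (hS : S ⊆ domv n) (h : ∀ y ∈ S, NrK n l Λ (4 * N + 7) q H ka y) :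
    ‖dmK n l Λ N H ka S‖ ≤ kw (blv n (4 * N + 2)) (12 * LL l ^ 4) ε S :=
  dG_norm hn (pg_topK hH hk) q0 q1 hε (by push_cast; convert hd using 3; ring) hS
    fun y hy => (h y hy).nr hH hk

theorem qdK_disc (hn : ∀ i, Odd (n i)) (hH : PerS n H) (q0 : 0 ≤ q) (q1 : q ≤ 1)
    (hε : (2 * N + 1) * q ^ N ≤ ε) (hd : (8 * N + 5) ^ 4 * ε ≤ 1 / 2) (hS : S ⊆ domv n)
    {Ω : Set ℂ} (hΩ : IsOpen Ω) {ka : ℂ → St → Kf} (hk : ∀ t ∈ Ω, PerK n (ka t))
    (hD : ∀ y e i e' j, DifferentiableOn ℂ (fun t => ka t y e i e' j) Ω)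
    (h : ∀ t ∈ Ω, ∀ y ∈ S, NrK n l Λ (4 * N + 7) q H (ka t) y) :
    DifferentiableOn ℂ (fun t => qdK n l Λ N H (ka t) S) Ω :=
  qG_disc hn q0 q1 hε (by push_cast; convert hd using 3; ring) hS hΩ
    (fun t ht => pg_topK hH (hk t ht)) (fun A => by
      simp only [topKL_apply, ← polK_X]
      exact polK_disc hD fun _ => differentiableOn_const _)
    fun t ht y hy => (h t ht y hy).nr hH (hk t ht)

theorem qdK_total (hn : ∀ i, Odd (n i)) (hH : PerS n H) (hk : PerK n ka) (q0 : 0 ≤ q) (q1 : q ≤ 1)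
    (hε : (2 * N + 1) * q ^ N ≤ ε) (hd : (8 * N + 5) ^ 4 * ε ≤ 1 / 2)
    (h : ∀ A, PerV (fi l n) A → nrm2 n l (topK l Λ H ka A) ≤ q * nrm2 n l A) :
    ∑ S ∈ (domv n).powerset, ‖qdK n l Λ N H ka S‖ ≤
      (domv n).card * (72 * LL l ^ 4 * (8 * N + 5) ^ 4 * ε) := by
  have := qG_total (D := 4 * N + 2) hn (pg_topK (Λ := Λ) hH hk) q0 q1 hε
    (by push_cast; convert hd using 3; ring) fun y _ => Loc.Nr.of_global (pg_topK hH hk) h y
  refine this.trans_eq ?_
  push_cast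
  ring

theorem aeval_topK {p : ℂ[X]} (hp : p.coeff 0 = 0) (A : Fld) :
    aeval (topKL l Λ H ka) p A = polK l Λ p H ka A := by
  rw [polK_eq, ← divX_mul_X_add p, hp, map_zero, add_zero, map_mul, aeval_X,
    Module.End.mul_apply, Module.End.mul_apply, topKL_apply, topKL_apply, topK_pj]

theorem trB_polK {p : ℂ[X]} {d : ℕ} (hp : p.natDegree ≤ d) (hd : ∀ i, 2 * d < n i) (y : St) :
    trB n l y (polK l Λ p H ka) =
      ∑ f ∈ lbox l, ∑ k, polK l Λ p (shS y H) (shK y ka) (eb f k) f k := by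
  refine sum_congr rfl fun t ht => sum_congr rfl fun k _ => ?_
  have h1 : Agr (fb l (0 + 2 * d)) (sh (up l y) (pd (fi l n) (t.1 + up l y, t.2) (Pi.single k 1)))
      (eb t k) := fun e he => by
    simp only [sh, pd, add_sub_add_right_eq_sub, eb]
    by_cases h : e = t
    · rw [h, sub_self, if_pos ⟨dv_zero, rfl⟩, Pi.single_eq_same]
    · rw [Pi.single_eq_of_ne h, if_neg fun h2 => h (Prod.ext ?_ h2.2)]
      obtain ⟨v, hv⟩ := dv_iff.1 h2.1
      have h3 := Op.mem_fb.1 (mem_lbox.1 he)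
      rw [sub_eq_iff_eq_add'.1 hv, ← up_pv, Op.yo_add_box (mem_lbox.1 ht)] at h3
      have h4 : v = 0 := funext fun i => by
        have h5 := mem_box.1 h3 i
        have h6 : (2 * d : ℤ) < n i := by exact_mod_cast hd i
        simp only [pv, zero_add] at h5
        push_cast at h5
        show v i = 0
        rcases lt_trichotomy (v i) 0 with h | h | h
        · nlinarith
        · exact h
        · nlinarith
      rw [h4] at hv
      exact sub_eq_zero.1 (hv.trans (funext fun i => mul_zero _))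
  have h2 := polK_agr (Λ := Λ) (H := shS y H) (H' := shS y H) (ka := shK y ka) (ka' := shK y ka) hp
    (fun _ _ => Iff.rfl) (fun _ _ _ => Kc.refl _ le_rfl) h1 t (mem_fb_zero ht)
  rw [← h2, polK_sh]
  rfl

theorem trB_pQ (hN : ∀ i, 2 * N < n i) (y : St) :
    trB n l y (aeval (topKL l Λ H ka) (pQ N)) = dtK l Λ N (shS y H) (shK y ka) := by
  rw [dtK, ← trB_polK (Op.natDegree_pQ N) hN]
  congr 1
  exact funext (aeval_topK (by simp [pQ, coeff_monomial]))

/-- the determinant of the preconditioner -/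
theorem det_K (hn : ∀ i, Odd (n i)) (hN : ∀ i, 2 * N < n i) (hH : PerS n H) (hk : PerK n ka)
    (hr : ∀ y, Nf H y → Kr (ka y)) (hs : ∀ y, Ks (ka y)) (q0 : 0 ≤ q) (q1 : q < 1)
    (hq : ∀ A, PerV (fi l n) A → nrm2 n l (topK l Λ H ka A) ≤ q * nrm2 n l A) (N1 : 1 ≤ N)
    (hε : (2 * N + 1) * q ^ N ≤ ε) (hd : (8 * N + 5) ^ 4 * ε ≤ 1 / 2)
    (P : (alk n l H → E3) →ₗ[ℝ] (alk n l H → E3))
    (hP : ∀ z, polK l Λ (pP N) H ka (fun f => cE (exa n l H 0 z f)) =
      fun f => cE (exa n l H 0 (P z) f)) :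
    ((|LinearMap.det P| : ℝ) : ℂ) = Complex.exp (∑ y ∈ domv n, dtK l Λ N (shS y H) (shK y ka) +
      ∑ S ∈ (domv n).powerset, qdK n l Λ N H ka S) := by
  simp only [← trB_pQ hN]
  refine det_G hn hH (pg_topK hH hk) rn_topK (fun _ => topK_real hr)
    (fun _ _ hA hA' => topK_symm hn hH hk hs hA hA') (fun A hA => ?_) q0 q1 hq N1 hε
    (by push_cast; convert hd using 3; ring) (by omega) P fun z => ?_
  · have : pj l H A = 0 := funext fun f => by
      by_cases hf : Act l H f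
      · rw [pj_act hf, hA f hf, Pi.zero_apply]
      · exact pj_not hf
    rw [topKL_apply, ← topK_pj, this, ← topKL_apply, map_zero]
  · rw [← hP, polK_eq, pj_of fun f hf => by rw [exa_not hn hH hf, cE_zero]]

theorem det_K' (hn : ∀ i, Odd (n i)) (hN : ∀ i, 2 * N < n i) (hH : PerS n H) (hk : PerK n ka)
    (hr : ∀ y, Nf H y → Kr (ka y)) (hs : ∀ y, Ks (ka y)) (q0 : 0 ≤ q) (q1 : q < 1)
    (hq : ∀ A, PerV (fi l n) A → nrm2 n l (topK l Λ H ka A) ≤ q * nrm2 n l A) (N1 : 1 ≤ N)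
    (hε : (2 * N + 1) * q ^ N ≤ ε) (hd : (8 * N + 5) ^ 4 * ε ≤ 1 / 2)
    (P : (alk n l H → E3) →ₗ[ℝ] (alk n l H → E3))
    (hP : ∀ z, polK l Λ (pP N) H ka (fun f => cE (exa n l H 0 z f)) =
      fun f => cE (exa n l H 0 (P z) f)) :
    ((|LinearMap.det P| : ℝ) : ℂ) = Complex.exp (∑ y ∈ domv n, dtK l Λ N (shS y H) (shK y ka)) *
      ∏ S ∈ (domv n).powerset, (1 + dmK n l Λ N H ka S) := by
  rw [det_K hn hN hH hk hr hs q0 q1 hq N1 hε hd P hP, Complex.exp_add,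
    Complex.exp_sum (f := qdK n l Λ N H ka)]
  simp only [dmK, add_sub_cancel]

/-- a real polynomial in the operator as a real linear map on the active links -/
def pAct (n : Fin 4 → ℕ) (l : ℕ) (Λ : ℝ) (p : ℂ[X]) (H : Set St) (ka : St → Kf) :
    (alk n l H → E3) →ₗ[ℝ] (alk n l H → E3) :=
  (WithLp.linearEquiv 2 ℝ _).toLinearMap ∘ₗ res n l H ∘ₗ (polKL l Λ p H ka).restrictScalars ℝ ∘ₗ
    emb n l H ∘ₗ (WithLp.linearEquiv 2 ℝ _).symm.toLinearMap

theorem pAct_apply (p : ℂ[X]) (z : alk n l H → E3) (i : alk n l H) (k : Fin 3) :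
    pAct n l Λ p H ka z i k = (polK l Λ p H ka (fun f => cE (exa n l H 0 z f)) i k).re := by
  rw [← polKL_apply]
  rfl

theorem pAct_spec (hn : ∀ i, Odd (n i)) (hH : PerS n H) (hk : PerK n ka)
    (hr : ∀ y, Nf H y → Kr (ka y)) {p : ℂ[X]} (hp : ∀ k, (p.coeff k).im = 0)
    (z : alk n l H → E3) : polK l Λ p H ka (fun f => cE (exa n l H 0 z f)) =
      fun f => cE (exa n l H 0 (pAct n l Λ p H ka z) f) := by
  have := emb_res hn hH (polK_real (Λ := Λ) hp hr (emb_real (z := WithLp.toLp 2 z)))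
    (polK_per hH hk emb_per)
  rw [pj_polK, ← polKL_apply] at this
  rw [← polKL_apply]
  exact this.symm

end Pool.Agent.Lib.MP_7f377f_mp.RG.Q4
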