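import Pool.Agent.Lib.MP_7f377f_mp.Q4FinB
import Pool.Agent.Lib.MP_7f377f_mp.Q4Free

/-! Expectations, symmetry of the plaquette laws and upper bounds for the Haar measure. -/

noncomputable section

namespace Pool.Agent.Lib.MP_7f377f_mp.RG.Q4.En

open MeasureTheory Measure Finset YM4 Ms Fi
open scoped Quaternion ENNReal

theorem ball_up : ∃ C : ℝ, 1 ≤ C ∧ ∀ δ : ℝ, 0 ≤ δ →
    haar {g : S3 | ‖g.q - 1‖ ≤ δ} ≤ ENNReal.ofReal (C * δ ^ 3) := by
  obtain ⟨c, c0, h⟩ := haar_chart
  set b : ℝ≥0∞ := volume (Metric.ball (0 : E3) 1) with hb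
  have b1 : b ≠ ∞ := measure_ball_lt_top.ne
  refine ⟨1 + 8 * c * b.toReal, le_add_of_nonneg_right (by positivity), fun δ h0 => ?_⟩
  rcases le_or_gt 1 δ with h1 | h1
  · refine prob_le_one.trans (ENNReal.one_le_ofReal.2 ?_)
    exact one_le_mul_of_one_le_of_one_le (le_add_of_nonneg_right (by positivity)) (one_le_pow₀ h1)
  have hS : MeasurableSet {g : S3 | ‖g.q - 1‖ ≤ δ} := measurableSet_le meas_nsub measurable_const
  have e := h _ (measurable_one.indicator hS) e0 cS_e0
  have k : ∀ g : S3, ‖g.q - 1‖ ≤ δ → 2 - 2 * g.q.re ≤ δ ^ 2 := fun g hg => by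
    rw [← norm_sub_one_sq]
    gcongr
  have d2 : δ ^ 2 ≤ 1 := pow_le_one₀ h0 h1.le
  rw [lintegral_indicator hS, restrict_restrict hS, Set.inter_eq_left.2 (fun g hg =>
    show (0 : ℝ) < g.q.re by linarith [k g hg])] at e
  simp only [Pi.one_apply, lintegral_const, one_mul, restrict_apply_univ] at e
  rw [e]
  calc _ ≤ ∫⁻ _ in Metric.closedBall (0 : E3) (2 * δ), ENNReal.ofReal c := by
        rw [← lintegral_indicator Metric.isClosed_closedBall.measurableSet]
        refine lintegral_mono fun v => ?_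
        by_cases hv : e0 v ∈ {g : S3 | ‖g.q - 1‖ ≤ δ}
        · have h2 := k _ hv
          have p : (0 : ℝ) < 1 + ‖v‖ ^ 2 := by positivity
          have h3 := Real.sq_sqrt p.le
          have h4 : 1 ≤ √(1 + ‖v‖ ^ 2) := Real.one_le_sqrt.2 (by nlinarith [sq_nonneg ‖v‖])
          rw [e0_q] at h2
          set s := √(1 + ‖v‖ ^ 2)
          have h5 : (s⁻¹ • qm (1, v)).re = s⁻¹ := mul_one _
          have h6 : s * s⁻¹ = 1 := mul_inv_cancel₀ (by linarith)
          rw [h5] at h2
          have h7 : s ≤ 2 := by nlinarith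
          have h8 : 2 * s - 2 ≤ s * δ ^ 2 := by nlinarith
          rw [Set.indicator_of_mem hv, Set.indicator_of_mem (mem_closedBall_zero_iff.2
            (le_of_pow_le_pow_left₀ two_ne_zero (by positivity) (by nlinarith [sq_nonneg δ]))), Pi.one_apply, one_mul]
          exact ENNReal.ofReal_le_ofReal (mul_le_of_le_one_right c0.le
            (inv_le_one_of_one_le₀ (one_le_pow₀ (by nlinarith [sq_nonneg ‖v‖]))))
        · rw [Set.indicator_of_notMem hv, zero_mul]
          exact zero_le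
    _ ≤ _ := by
        rw [setLIntegral_const, addHaar_closedBall _ _ (by positivity), finrank_euclideanSpace_fin,
          ← hb, ← ENNReal.ofReal_toReal b1, ← ENNReal.ofReal_mul (by positivity),
          ← ENNReal.ofReal_mul c0.le, ENNReal.toReal_ofReal ENNReal.toReal_nonneg]
        refine ENNReal.ofReal_le_ofReal ?_
        nlinarith [pow_nonneg h0 3]

theorem haar_up : ∃ C : ℝ, 1 ≤ C ∧ ∀ t : ℝ, 0 < t →
    haar.real {g : S3 | ‖g.q - 1‖ ≤ t} ≤ C * t ^ 3 ∧
      ∫ g : S3, Real.exp (-(‖g.q - 1‖ / t)) ∂haar ≤ C * t ^ 3 := by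
  obtain ⟨C, C1, h⟩ := ball_up
  have hs : Summable fun k : ℕ => Real.exp (-k) * ((k : ℝ) + 1) ^ 3 := by
    have := ((summable_nat_add_iff 1).2 (Real.summable_pow_mul_exp_neg_nat_mul 3 one_pos)).mul_left
      (Real.exp 1)
    refine this.congr fun k => ?_
    push_cast
    rw [mul_left_comm, ← Real.exp_add, mul_comm]
    congr 2
    ring
  have s0 : 0 ≤ ∑' k : ℕ, Real.exp (-k) * ((k : ℝ) + 1) ^ 3 := tsum_nonneg fun _ => by positivity
  refine ⟨C * (1 + ∑' k : ℕ, Real.exp (-k) * ((k : ℝ) + 1) ^ 3),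
    one_le_mul_of_one_le_of_one_le C1 (by linarith), fun t ht => ⟨?_, ?_⟩⟩
  · refine (ENNReal.toReal_le_of_le_ofReal (by positivity) (h t ht.le)).trans ?_
    gcongr
    exact le_mul_of_one_le_right (by linarith) (by linarith)
  have hS : ∀ δ, MeasurableSet {g : S3 | ‖g.q - 1‖ ≤ δ} := fun _ =>
    measurableSet_le meas_nsub measurable_const
  rw [integral_eq_lintegral_of_nonneg_ae (f := fun g : S3 => Real.exp (-(‖g.q - 1‖ / t)))
    (.of_forall fun _ => (Real.exp_pos _).le)
    (meas_nsub.div_const t).neg.exp.aestronglyMeasurable]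
  refine ENNReal.toReal_le_of_le_ofReal (by positivity) ?_
  calc _ ≤ ∫⁻ g, ∑' k : ℕ, {g : S3 | ‖g.q - 1‖ ≤ (k + 1) * t}.indicator
        (fun _ => ENNReal.ofReal (Real.exp (-k))) g ∂haar := by
        refine lintegral_mono fun g => le_trans ?_ (ENNReal.le_tsum ⌊‖g.q - 1‖ / t⌋₊)
        rw [Set.indicator_of_mem (show g ∈ {g' : S3 | ‖g'.q - 1‖ ≤ _} from
          (div_le_iff₀ ht).1 (Nat.lt_floor_add_one _).le)]
        exact ENNReal.ofReal_le_ofReal (Real.exp_le_exp.2 (neg_le_neg (Nat.floor_le (by positivity))))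
    _ ≤ ∑' k : ℕ, ENNReal.ofReal (C * t ^ 3 * (Real.exp (-k) * ((k : ℝ) + 1) ^ 3)) := by
        rw [lintegral_tsum fun k => (measurable_const.indicator (hS _)).aemeasurable]
        refine ENNReal.tsum_le_tsum fun k => ?_
        rw [lintegral_indicator_const (hS _)]
        refine (mul_le_mul_right (h _ (by positivity)) _).trans_eq ?_
        rw [← ENNReal.ofReal_mul (by positivity)]
        congr 1
        ring
    _ ≤ _ := by
        rw [← ENNReal.ofReal_tsum_of_nonneg (fun _ => by positivity) (hs.mul_left _), tsum_mul_left]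
        refine ENNReal.ofReal_le_ofReal ?_
        nlinarith [mul_pos (show 0 < C by linarith) (pow_pos ht 3)]

variable {n : ℕ} {f : Conf → ℂ}

/-- positive functions -/
def Pos (f : Conf → ℂ) : Prop := ∀ U, (f U).im = 0 ∧ 0 < (f U).re

/-- unnormalised expectation -/
def zz (n : ℕ) (f : Conf → ℂ) (O : Conf → ℝ) : ℝ := ∫ U, (f (pc n U)).re * O (pc n U) ∂PP

instance : IsProbabilityMeasure PP := by unfold PP; infer_instance

/-- bounded measurable functions -/
def BM (O : Conf → ℝ) : Prop := Measurable O ∧ ∃ M, ∀ U, |O U| ≤ M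

theorem BM.const (c : ℝ) : BM fun _ => c := ⟨measurable_const, |c|, fun _ => le_rfl⟩

theorem BM.cont {O : Conf → ℝ} (h : Continuous O) : BM O := by
  obtain ⟨M, hM⟩ := (isCompact_range h.norm).bddAbove
  exact ⟨h.measurable, M, fun U => hM ⟨U, rfl⟩⟩

theorem BM.mul {O O' : Conf → ℝ} (h : BM O) (h' : BM O') : BM fun U => O U * O' U := by
  obtain ⟨m, M, h⟩ := h
  obtain ⟨m', M', h'⟩ := h'
  exact ⟨m.mul m', M * M', fun U => (abs_mul _ _).trans_le
    (mul_le_mul (h U) (h' U) (abs_nonneg _) ((abs_nonneg _).trans (h U)))⟩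

theorem BM.add {O O' : Conf → ℝ} (h : BM O) (h' : BM O') : BM fun U => O U + O' U := by
  obtain ⟨m, M, h⟩ := h
  obtain ⟨m', M', h'⟩ := h'
  exact ⟨m.add m', M + M', fun U => (abs_add_le _ _).trans (add_le_add (h U) (h' U))⟩

theorem BM.sum {ι : Type} (s : Finset ι) {O : ι → Conf → ℝ} (h : ∀ i, BM (O i)) :
    BM fun U => ∑ i ∈ s, O i U := by
  classical
  induction s using Finset.induction_on with
  | empty => simpa using BM.const 0
  | insert a s ha ih => simpa only [sum_insert ha] using (h a).add ih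

theorem BM.exp {O : Conf → ℝ} (h : BM O) : BM fun U => Real.exp (O U) := by
  obtain ⟨m, M, h⟩ := h
  exact ⟨m.exp, Real.exp M, fun U => by
    rw [abs_of_pos (Real.exp_pos _)]
    exact Real.exp_le_exp.2 ((le_abs_self _).trans (h U))⟩

theorem BM.ind {A : Set Conf} (h : MeasurableSet A) : BM (A.indicator 1) :=
  ⟨measurable_one.indicator h, 1, fun U => by by_cases hU : U ∈ A <;> simp [hU]⟩

theorem BM.re (h : GI n f) : BM fun U => (f U).re :=
  ⟨Complex.measurable_re.comp h.1, h.2.1.imp fun _ hM U => (Complex.abs_re_le_norm _).trans (hM U)⟩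

theorem BM.int {O : Conf → ℝ} (h : BM O) (n : ℕ) : Integrable (fun U => O (pc n U)) PP := by
  obtain ⟨m, M, h⟩ := h
  exact .of_bound (m.comp meas_pc).aestronglyMeasurable M (.of_forall fun U => h _)

theorem per_pc {α : Type} (n : ℕ) (U : Lk → α) : Per n (pc n U) := fun μ => by
  funext e
  refine congrArg (fun x => U (x, e.2)) (funext fun i => ?_)
  simp only [rc, Pi.add_apply, Pi.smul_apply, smul_eq_mul]
  rw [add_right_comm, Int.add_mul_emod_self_left]

theorem zz_pos (h : GI n f) (hp : Pos f) : 0 < zz n f fun _ => 1 := by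
  simp only [zz, mul_one]
  rw [integral_pos_iff_support_of_nonneg (fun U => (hp _).2.le) ((BM.re h).int n),
    show Function.support (fun U => (f (pc n U)).re) = Set.univ from
      Set.eq_univ_of_forall fun U => (hp _).2.ne']
  simp

theorem zz_mono (h : GI n f) (hp : Pos f) {O O' : Conf → ℝ} (h1 : BM O) (h2 : BM O')
    (hl : ∀ U, O U ≤ O' U) : zz n f O ≤ zz n f O' :=
  integral_mono (((BM.re h).mul h1).int n) (((BM.re h).mul h2).int n) fun _ =>
    mul_le_mul_of_nonneg_left (hl _) (hp _).2.le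

theorem zz_add (h : GI n f) {O O' : Conf → ℝ} (h1 : BM O) (h2 : BM O') :
    zz n f (fun U => O U + O' U) = zz n f O + zz n f O' := by
  simp only [zz, mul_add]
  exact integral_add (((BM.re h).mul h1).int n) (((BM.re h).mul h2).int n)

theorem zz_mul (c : ℝ) (O : Conf → ℝ) : zz n f (fun U => c * O U) = c * zz n f O := by
  simp only [zz, mul_left_comm _ c, integral_const_mul]

theorem zz_sum (h : GI n f) {ι : Type} (s : Finset ι) {O : ι → Conf → ℝ} (h1 : ∀ i, BM (O i)) :
    zz n f (fun U => ∑ i ∈ s, O i U) = ∑ i ∈ s, zz n f (O i) := by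
  simp only [zz, mul_sum]
  exact integral_finsetSum _ fun i _ => ((BM.re h).mul (h1 i)).int n

theorem law_real (h : GI n f) (hp : Pos f) {A : Set Conf} (hA : MeasurableSet A) :
    (lawOf n f).real A = zz n f (A.indicator 1) / zz n f fun _ => 1 := by
  have i := (BM.re h).int n
  have p : 0 ≤ᵐ[PP] fun U => (f (pc n U)).re := .of_forall fun U => (hp _).2.le
  rw [lawOf, map_measureReal_apply meas_pc hA, Measure.real, Measure.smul_apply,
    withDensity_apply _ (meas_pc hA), ← ofReal_integral_eq_lintegral_ofReal i p,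
    ← ofReal_integral_eq_lintegral_ofReal i.integrableOn (ae_restrict_of_ae p), smul_eq_mul,
    ENNReal.toReal_mul, ENNReal.toReal_inv, ENNReal.toReal_ofReal (integral_nonneg_of_ae p),
    ENNReal.toReal_ofReal (integral_nonneg_of_ae (ae_restrict_of_ae p)),
    ← integral_indicator (meas_pc hA), inv_mul_eq_div]
  simp only [zz, mul_one]
  congr 2
  funext U
  by_cases hU : pc n U ∈ A <;> simp [hU]

theorem jensen (h : GI n f) (hp : Pos f) {O : Conf → ℝ} (h1 : BM O) :
    (zz n f fun _ => 1) * Real.exp (zz n f O / zz n f fun _ => 1) ≤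
      zz n f fun U => Real.exp (O U) := by
  have p := zz_pos h hp
  set m := zz n f O / zz n f fun _ => 1 with hm
  refine le_trans (le_of_eq ?_) (zz_mono h hp (O := fun U => Real.exp m * (O U + (1 - m) * 1))
    ((BM.const _).mul (h1.add (BM.const _))) h1.exp fun U => ?_)
  · rw [zz_mul, zz_add h h1 (BM.const _), zz_mul, hm]
    field_simp
    ring
  · rw [show O U = m + (O U - m) by ring, Real.exp_add]
    have := Real.add_one_le_exp (O U - m)
    gcongr
    linarith

variable [NeZero n]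

theorem int_inv {T : Conf → Conf} {τ : Site n × Fin 4 → Site n × Fin 4} (hτ : Function.Injective τ)
    (hT : ∀ V : Cfg n, T (lf V) = lf fun b => V (τ b)) {F : Conf → ℝ} (hF : Measurable F)
    (mT : Measurable T) : ∫ U, F (T (pc n U)) ∂PP = ∫ U, F (pc n U) ∂PP := by
  have e : ∀ G : Conf → ℝ, Measurable G → ∫ U, G (pc n U) ∂PP =
      ∫ V : Cfg n, G (lf V) ∂Measure.pi fun _ => tr haar := fun G hG => by
    rw [← map_res, integral_map meas_rs.aemeasurable
      (f := fun V => G (lf V)) (hG.comp meas_lf).aestronglyMeasurable]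
    simp only [lf_rs, PP]
  have m : Measurable fun (V : Cfg n) b => V (τ b) :=
    measurable_pi_lambda _ fun _ => measurable_pi_apply _
  rw [e (fun U => F (T U)) (hF.comp mT), e F hF]
  conv_rhs => rw [← infinitePi_eq_pi, ← map_infinitePi_infinitePi_of_inj (P := fun _ => tr haar) hτ,
    integral_map m.aemeasurable (f := fun V => F (lf V)) (hF.comp meas_lf).aestronglyMeasurable,
    infinitePi_eq_pi]
  simp only [hT]

omit [NeZero n] in
theorem fq_pm (σ : Equiv.Perm (Fin 4)) (U : Conf) (μ ν : Fin 4) :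
    fq (pm σ U) 0 μ ν = fq U 0 (σ μ) (σ ν) := by
  have e : ∀ κ, (fun i => un κ (σ.symm i)) = un (σ κ) := fun κ => funext fun i => by
    simp [un, Pi.single_apply, Equiv.symm_apply_eq]
  simp only [fq, hol, pm, zero_add, e]
  rfl

theorem zz_sym (h : GI n f) (hs : Sym n f) {φ : ℝ → ℝ} (hφ : Measurable φ) (x : St) {μ ν : Fin 4}
    (hμ : μ ≠ ν) : zz n f (fun U => φ (fq U x μ ν)) = zz n f fun U => φ (fq U 0 0 1) := by
  obtain ⟨σ, rfl, rfl⟩ : ∃ σ : Equiv.Perm (Fin 4), σ 0 = μ ∧ σ 1 = ν := by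
    revert μ ν
    decide
  have m : ∀ μ ν, Measurable fun U => (f U).re * φ (fq U 0 μ ν) := fun μ ν =>
    (BM.re h).1.mul (hφ.comp (cont_fq 0 μ ν).measurable)
  have h1 := int_inv (n := n) (T := sh x) (τ := fun b => (b.1 + cst n x, b.2))
    (fun a b e => Prod.ext (add_right_cancel (Prod.mk.inj e).1) (Prod.mk.inj e).2)
    (fun V => funext fun e => congrArg (fun y => V (y, e.2)) (cst_add _ _)) (m (σ 0) (σ 1))
    (cont_sh x).measurable
  have h2 := int_inv (n := n) (T := pm σ) (τ := fun b => (fun i => b.1 (σ.symm i), σ b.2))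
    (fun a b e => Prod.ext (funext fun i => by simpa using congrFun (Prod.mk.inj e).1 (σ i))
      (σ.injective (Prod.mk.inj e).2)) (fun V => rfl) (m 0 1)
    (measurable_pi_lambda _ fun _ => measurable_pi_apply _)
  simp only [(hs _ (per_pc n _)).1, fq_sh, zero_add] at h1
  simp only [(hs _ (per_pc n _)).2.1, fq_pm] at h2
  exact h1.trans h2

end Pool.Agent.Lib.MP_7f377f_mp.RG.Q4.En
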