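import Pool.Agent.Lib.MP_7f377f_mp.Q4NonA

/-! Total variation and nontriviality from pointwise bounds on the densities. -/

noncomputable section

namespace Pool.Agent.Lib.MP_7f377f_mp.RG.Q4.En

open MeasureTheory Measure Finset YM4 Ms Fi Real
open scoped Quaternion ENNReal

variable {n : ℕ} {f f' : Conf → ℂ}

/-- sum over the plaquettes of the torus -/
def ps (n : ℕ) (φ : ℝ → ℝ) (U : Conf) : ℝ :=
  ∑ x ∈ box (n / 2), ∑ μ, ∑ ν, if μ < ν then φ (fq U x μ ν) else 0

/-- lower bound close to the identity -/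
def Low (n : ℕ) (f : Conf → ℂ) (m δ : ℝ) : Prop :=
  ∀ U, Per n U → (∀ e, ‖(U e).q - 1‖ ≤ δ) → m ≤ (f U).re

/-- majorant and lower bound for a density at a level with coupling `g` -/
def Maj (n : ℕ) (f : Conf → ℂ) (c C g : ℝ) : Prop := ∃ κ > 0,
  (∀ U, Per n U → (f U).re ≤ κ * exp (C * n ^ 4 - c / g * ps n id U)) ∧
    Low n f (κ * exp (-(C * n ^ 4))) (c * g)

theorem per_gauge {u : St → S3} {U : Conf} (hu : PS n u) (hU : Per n U) :
    Per n (gauge Inv.inv u U) := fun μ => by
  funext e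
  have := congrFun (hU μ) e
  simp only [sh, gauge] at this ⊢
  rw [this, hu, add_right_comm, hu]

theorem z_low : ∃ c0 > 0, c0 ≤ 1 ∧ ∀ (n : ℕ) (f : Conf → ℂ) (m δ : ℝ), Odd n → GI n f → Pos f →
    0 ≤ m → 0 < δ → δ ≤ c0 → Low n f m δ → m * (c0 * δ) ^ (9 * n ^ 4 + 3) ≤ zz n f fun _ => 1 := by
  obtain ⟨c, c0, h⟩ := orbit_lower
  refine ⟨min c 1, lt_min c0 one_pos, min_le_right _ _, fun n f m δ hn hg hp m0 d0 d1 hl => ?_⟩
  have hA : MeasurableSet {U | m ≤ (f U).re} := measurableSet_le measurable_const (BM.re hg).1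
  calc _ ≤ m * PP.real (pc n ⁻¹' {U | m ≤ (f U).re}) := by
        refine mul_le_mul_of_nonneg_left (le_trans ?_ ((h n hn δ d0 (d1.trans (min_le_left _ _))).trans
          (measureReal_mono ?_))) m0
        · gcongr
          exact min_le_left _ _
        · rintro U ⟨u, hu, hU⟩
          have := hl _ (per_gauge hu (per_pc n U)) hU
          rwa [hg.2.2 u _ hu (per_pc n U)] at this
    _ = ∫ U, (pc n ⁻¹' {U | m ≤ (f U).re}).indicator (fun _ => m) U ∂PP := by
        rw [integral_indicator_const _ (meas_pc hA), smul_eq_mul, mul_comm]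
    _ ≤ _ := by
        refine integral_mono ((integrable_const m).indicator (meas_pc hA))
          (((BM.re hg).mul (BM.const 1)).int n) fun U => ?_
        by_cases hU : U ∈ pc n ⁻¹' {U | m ≤ (f U).re}
        · rw [Set.indicator_of_mem hU]
          exact le_of_le_of_eq hU (mul_one _).symm
        · rw [Set.indicator_of_notMem hU]
          exact mul_nonneg (hp _).2.le zero_le_one

theorem tv_of (h : GI n f) (hp : Pos f) (h' : GI n f') (hp' : Pos f') {κ δ : ℝ}
    (hd : ∀ U, Per n U → |(f U).re - κ * (f' U).re| ≤ δ) {A : Set Conf} (hA : MeasurableSet A) :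
    |(lawOf n f).real A - (lawOf n f').real A| ≤ 2 * δ / zz n f fun _ => 1 := by
  have k : ∀ O, BM O → (∀ U, |O U| ≤ 1) → |zz n f O - κ * zz n f' O| ≤ δ := fun O hO h1 => by
    rw [zz, zz, ← integral_const_mul, ← integral_sub (((BM.re h).mul hO).int n)
      ((((BM.re h').mul hO).int n).const_mul κ)]
    rw [← Real.norm_eq_abs, ← mul_one δ, ← probReal_univ (μ := PP)]
    refine norm_integral_le_of_norm_le_const (.of_forall fun U => ?_)
    rw [← mul_assoc, ← sub_mul, Real.norm_eq_abs, abs_mul]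
    exact (mul_le_of_le_one_right (abs_nonneg _) (h1 _)).trans (hd _ (per_pc n U))
  have k1 := k _ (BM.const 1) (by simp)
  have k2 := k _ (BM.ind hA) fun U => by by_cases hU : U ∈ A <;> simp [hU]
  have p := zz_pos h hp
  have p' := zz_pos h' hp'
  have a0 : 0 ≤ zz n f' (A.indicator 1) := integral_nonneg fun U =>
    mul_nonneg (hp' _).2.le (Set.indicator_nonneg (fun _ _ => zero_le_one) _)
  have a1 : zz n f' (A.indicator 1) ≤ zz n f' fun _ => 1 :=
    zz_mono h' hp' (BM.ind hA) (BM.const 1) fun U => Set.indicator_le_self' (by simp) U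
  rw [law_real h hp hA, law_real h' hp' hA]
  generalize zz n f (A.indicator 1) = a, zz n f' (A.indicator 1) = a', (zz n f fun _ => 1) = z,
    (zz n f' fun _ => 1) = z' at *
  have e : a / z - a' / z' = ((a - κ * a') - a' / z' * (z - κ * z')) / z := by
    field_simp
    ring
  rw [e, abs_div, abs_of_pos p]
  refine div_le_div_of_nonneg_right ((abs_sub _ _).trans ?_) p.le
  rw [abs_mul, abs_of_nonneg (div_nonneg a0 p'.le)]
  linarith [mul_le_of_le_one_left (abs_nonneg (z - κ * z')) ((div_le_one p').2 a1)]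

theorem fq_le (U : Conf) (x : St) (μ ν : Fin 4) : 0 ≤ fq U x μ ν ∧ fq U x μ ν ≤ 2 :=
  ⟨norm_nonneg _, (norm_sub_le _ _).trans_eq (by rw [norm_q, norm_one]; norm_num)⟩

theorem BM.fq {ψ : ℝ → ℝ} (hψ : Measurable ψ) {M : ℝ} (hM : ∀ s, 0 ≤ s → s ≤ 2 → |ψ s| ≤ M)
    (x : St) (μ ν : Fin 4) : BM fun U => ψ (fq U x μ ν) :=
  ⟨hψ.comp (cont_fq x μ ν).measurable, M, fun _ => hM _ (fq_le ..).1 (fq_le ..).2⟩

theorem free : ∃ c0 > 0, ∃ K ≥ (0 : ℝ), ∀ (n : ℕ) (f : Conf → ℂ) (c C g a M : ℝ) (ψ : ℝ → ℝ),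
    Odd n → K ≤ n → GI n f → Sym n f → Pos f → 0 < c → c ≤ 1 → 0 < g → g ≤ c0 → -log g ≤ n →
    Maj n f c C g → Measurable ψ → (∀ s, 0 ≤ s → s ≤ 2 → |ψ s| ≤ M) →
    (∀ s, 0 ≤ s → ψ s ≤ c / g * s) → 0 < a → a * g ^ 3 ≤ 1 →
    ∫ h : S3, exp (ψ ‖h.q - 1‖ - c / g * ‖h.q - 1‖) ∂haar ≤ a * g ^ 3 → ∀ x μ ν, μ ≠ ν →
    6 * (zz n f (fun U => ψ (fq U x μ ν)) / zz n f fun _ => 1) ≤
      2 * C + 3 * log a + |log a| + K - 12 * log c := by
  obtain ⟨c0, p0, c1, hz⟩ := z_low
  obtain ⟨D, hD⟩ := axial_upper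
  have l0 := log_nonpos p0.le c1
  refine ⟨c0, p0, 3 * |D| + 3 - 12 * log c0, by linarith [abs_nonneg D],
    fun n f c C g a M ψ hn nK hg hs hp c0' c1' g0 g1 gn ⟨κ, κ0, hu, hl⟩ mψ bψ hψ a0 a1 hA x μ ν
      hμ => ?_⟩
  have D0 := abs_nonneg D
  have n3 : (3 : ℝ) ≤ n := by linarith
  have : NeZero n := ⟨hn.pos.ne'⟩
  have b1 := BM.fq mψ bψ
  have b2 : ∀ x μ ν, BM fun U => if μ < ν then ψ (fq U x μ ν) else 0 := fun x μ ν => by
    split_ifs
    exacts [b1 x μ ν, BM.const 0]
  have b3 : BM (ps n ψ) := BM.sum _ fun x => BM.sum _ fun μ => BM.sum _ fun ν => b2 x μ ν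
  have e1 : zz n f (ps n ψ) = 6 * n ^ 4 * zz n f fun U => ψ (fq U x μ ν) := by
    have k : ∀ y κ κ', zz n f (fun U => if κ < κ' then ψ (fq U y κ κ') else 0) =
        if κ < κ' then zz n f fun U => ψ (fq U x μ ν) else 0 := fun y κ κ' => by
      split_ifs with h
      · rw [zz_sym hg hs mψ y h.ne, zz_sym hg hs mψ x hμ]
      · simp [zz]
    obtain ⟨l, rfl⟩ : ∃ l, n = LL l := hn
    unfold ps
    rw [zz_sum hg _ fun x => BM.sum _ fun μ => BM.sum _ fun ν => b2 x μ ν]
    simp only [zz_sum hg _ fun μ => BM.sum _ fun ν => b2 _ μ ν, zz_sum hg _ (b2 _ _), k, sum_const,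
      Fr.half, Fr.card_box, nsmul_eq_mul]
    simp [Fin.sum_univ_four]
    ring
  set w : ℝ → ℝ := fun s => min 1 (exp (ψ s - c / g * s)) with hw
  have mw : Measurable w := measurable_const.min (mψ.sub (measurable_const_mul _)).exp
  have ew : ∀ s, 0 ≤ s → w s = exp (ψ s - c / g * s) := fun s h =>
    min_eq_right (exp_le_one_iff.2 (by linarith [hψ s h]))
  have h1 := hD n hn (by exact_mod_cast n3) w (a * g ^ 3) mw
    (fun s => ⟨le_min zero_le_one (exp_pos _).le, min_le_left _ _⟩) (by positivity) a1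
    (by simpa only [ew _ (norm_nonneg _)] using hA) ∅
  have e2 : ∀ U, ∏ x ∈ box (n / 2) \ ∅, ∏ μ, ∏ ν, (if μ < ν then w (fq U x μ ν) else 1) =
      exp (ps n ψ U - c / g * ps n id U) := fun U => by
    simp only [ps, mul_sum, ← sum_sub_distrib, exp_sum, sdiff_empty]
    refine prod_congr rfl fun x _ => prod_congr rfl fun μ _ => prod_congr rfl fun ν _ => ?_
    split_ifs
    exacts [ew _ (fq_le ..).1, by simp]
  have b4 : BM (ps n id) := BM.cont (continuous_finsetSum _ fun x _ => continuous_finsetSum _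
    fun μ _ => continuous_finsetSum _ fun ν _ => by
      split_ifs
      exacts [cont_fq x μ ν, continuous_const])
  have b5 : BM fun U => exp (ps n ψ U - c / g * ps n id U) := by
    simpa only [sub_eq_add_neg, neg_mul] using (b3.add ((BM.const (-(c / g))).mul b4)).exp
  simp only [e2] at h1
  have h2 : (zz n f fun U => exp (ps n ψ U)) ≤ κ * exp (C * n ^ 4) *
      ∫ U, exp (ps n ψ (pc n U) - c / g * ps n id (pc n U)) ∂PP := by
    rw [← integral_const_mul]
    refine integral_mono (((BM.re hg).mul b3.exp).int n) ((b5.int n).const_mul _) fun U => ?_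
    refine (mul_le_mul_of_nonneg_right (hu _ (per_pc n U)) (exp_pos _).le).trans_eq ?_
    simp only [mul_assoc, ← exp_add]
    congr 2
    ring
  have h3 := hz n f _ _ hn hg hp (by positivity) (by positivity)
    ((mul_le_of_le_one_left g0.le c1').trans g1) hl
  have h4 := (mul_le_mul_of_nonneg_right h3 (exp_pos _).le).trans ((jensen hg hp b3).trans
    (h2.trans (mul_le_mul_of_nonneg_left h1 (by positivity))))
  have h5 := log_le_log (by positivity) h4
  rw [e1, mul_div_assoc] at h5
  simp (disch := positivity) only [log_mul, log_exp, log_pow, log_rpow, card_empty] at h5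
  push_cast at h5
  generalize (zz n f (fun U => ψ (fq U x μ ν)) / zz n f fun _ => 1) = E at *
  have l1 := log_nonpos c0'.le c1'
  have l2 := log_nonpos g0.le (g1.trans c1)
  have n1 : (1 : ℝ) ≤ n ^ 4 := one_le_pow₀ (by linarith)
  have n2 : (n : ℝ) ≤ n ^ 4 := le_self_pow₀ (by linarith) (by norm_num)
  have n4 : (0 : ℝ) ≤ n ^ 3 := by positivity
  have k1 : -(D * log a) ≤ n * |log a| := (neg_le_abs _).trans (by
    rw [abs_mul]
    exact mul_le_mul_of_nonneg_right (by linarith) (abs_nonneg _))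
  have k2 : -(D * log g) ≤ |D| * n := (neg_le_abs _).trans (by
    rw [abs_mul, abs_of_nonpos l2]
    exact mul_le_mul_of_nonneg_left gn D0)
  refine le_of_mul_le_mul_left ?_ (show (0 : ℝ) < n ^ 4 by linarith)
  nlinarith [mul_le_mul_of_nonneg_left k1 n4, mul_le_mul_of_nonneg_left k2 n4,
    mul_le_mul_of_nonneg_left n1 (neg_nonneg.2 l0), mul_le_mul_of_nonneg_left n1 (neg_nonneg.2 l1)]

/-- the curvature of a plaquette is of the order of the coupling -/
theorem nontriv {c : ℝ} (C : ℝ) (c0 : 0 < c) (c1 : c ≤ 1) : ∃ θ > 0, ∃ C' : ℝ,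
    ∀ (n : ℕ) (f : Conf → ℂ) (g : ℝ), Odd n → C' ≤ n → GI n f → Sym n f → Pos f → 0 < g → g ≤ θ →
      -log g ≤ n → Maj n f c C g → ∀ x μ ν, μ ≠ ν →
      θ ≤ (lawOf n f).real {U | θ * g ≤ fq U x μ ν} ∧
        ∀ M > 0, (lawOf n f).real {U | M * g ≤ fq U x μ ν} ≤ C' / M := by
  obtain ⟨g0, p0, K, K0, hf⟩ := free
  obtain ⟨H, H1, hH⟩ := haar_up
  have l1 := log_nonpos c0.le c1
  have C0 := le_abs_self C
  have C1 := abs_nonneg C
  obtain ⟨a, ha⟩ : ∃ a, a = exp (-(|C| + K - 6 * log c + 3)) := ⟨_, rfl⟩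
  have a0 : 0 < a := ha ▸ exp_pos _
  have a1 : a ≤ 1 := ha ▸ exp_le_one_iff.2 (by linarith)
  obtain ⟨ε, hε⟩ : ∃ ε, ε = a * c ^ 3 / (2 * H) := ⟨_, rfl⟩
  have e0 : 0 < ε := by rw [hε]; positivity
  have e1 : ε ≤ 2⁻¹ := by
    rw [hε, div_le_iff₀ (by positivity)]
    linarith [mul_le_one₀ a1 (by positivity) (pow_le_one₀ (n := 3) c0.le c1)]
  have e2 : 0 < -log ε := neg_pos.2 (log_neg e0 (by linarith))
  obtain ⟨b, hb⟩ : ∃ b, b = H * (2 / c) ^ 3 := ⟨_, rfl⟩
  have b1 : 1 ≤ b := hb ▸ one_le_mul_of_one_le_of_one_le H1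
    (one_le_pow₀ ((one_le_div c0).2 (by linarith)))
  have l2 := log_nonneg b1
  refine ⟨min (min ε (-log ε)⁻¹) (min g0 b⁻¹), by positivity,
    K + (2 * |C| + 4 * log b + K - 12 * log c) / c,
    fun n f g hn nC hg hs hp g1 g2 g3 hM x μ ν hμ => ?_⟩
  have r0 : 0 ≤ (2 * |C| + 4 * log b + K - 12 * log c) / c := div_nonneg (by linarith) c0.le
  have g4 : g ≤ ε := g2.trans ((min_le_left _ _).trans (min_le_left _ _))
  have g5 : g ≤ b⁻¹ := g2.trans ((min_le_right _ _).trans (min_le_right _ _))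
  have g6 : g ^ 3 ≤ g := pow_le_of_le_one g1.le (by linarith) (by norm_num)
  have hF := fun a M ψ => hf n f c C g a M ψ hn (by linarith) hg hs hp c0 c1 g1
    (g2.trans ((min_le_right _ _).trans (min_le_left _ _))) g3 hM
  have p := zz_pos hg hp
  have mS : ∀ t, MeasurableSet {U | t ≤ fq U x μ ν} := fun t =>
    measurableSet_le measurable_const (cont_fq x μ ν).measurable
  have iE : ∀ t : ℝ, Integrable (fun h : S3 => exp (-(‖h.q - 1‖ / t))) haar := fun t =>
    Continuous.integrable_of_hasCompactSupport (by have := cont_q; fun_prop)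
      (HasCompactSupport.of_compactSpace _)
  refine ⟨?_, fun M M0 => ?_⟩
  · have h1 := hF a (-log ε) (fun s => log ε * (Set.Ici (ε * g)).indicator 1 s)
      ((measurable_one.indicator measurableSet_Ici).const_mul _) (fun s _ _ => by
        by_cases h : s ∈ Set.Ici (ε * g) <;> simp [h, abs_of_neg (neg_pos.1 e2), (neg_pos.1 e2).le])
      (fun s h0 => le_trans (mul_nonpos_of_nonpos_of_nonneg (by linarith)
        (Set.indicator_nonneg (fun _ _ => zero_le_one) _)) (by positivity)) a0
      (mul_le_one₀ a1 (by positivity) (by linarith)) ?_ x μ ν hμ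
    · rw [zz_mul, ha, log_exp, abs_neg, abs_of_nonneg (a := |C| + K - 6 * log c + 3) (by linarith),
        mul_div_assoc] at h1
      rw [law_real hg hp (mS _)]
      refine (min_le_left _ _).trans ((min_le_right _ _).trans (le_trans ?_
        (div_le_div_of_nonneg_right (zz_mono hg hp (BM.ind (mS (ε * g))) (BM.ind (mS _)) fun U =>
          Set.indicator_le_indicator_of_subset (fun U hU => le_trans
            (mul_le_mul_of_nonneg_right ((min_le_left _ _).trans (min_le_left _ _)) g1.le) hU)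
            (fun _ => zero_le_one) U) p.le)))
      rw [inv_le_iff_one_le_mul₀ e2]
      have : (zz n f fun U => (Set.Ici (ε * g)).indicator 1 (fq U x μ ν)) =
        zz n f ({U | ε * g ≤ fq U x μ ν}.indicator 1) := rfl
      rw [this] at h1
      linarith
    · have hS : MeasurableSet {h : S3 | ‖h.q - 1‖ ≤ ε * g} :=
        measurableSet_le meas_nsub measurable_const
      calc _ ≤ ∫ h : S3, {h : S3 | ‖h.q - 1‖ ≤ ε * g}.indicator 1 h +
            ε * exp (-(‖h.q - 1‖ / (g / c))) ∂haar := by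
            refine integral_mono_of_nonneg (.of_forall fun _ => (exp_pos _).le)
              (((integrable_const 1).indicator hS).add ((iE _).const_mul _))
              (.of_forall fun h => ?_)
            have e : c / g * ‖h.q - 1‖ = ‖h.q - 1‖ / (g / c) := by field_simp
            have i0 := Set.indicator_nonneg (s := {h : S3 | ‖h.q - 1‖ ≤ ε * g}) (f := 1)
              (fun _ _ => zero_le_one' ℝ) h
            by_cases k : ‖h.q - 1‖ ∈ Set.Ici (ε * g)
            · simp only [Set.indicator_of_mem k, Pi.one_apply, mul_one, e]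
              rw [sub_eq_add_neg, exp_add, exp_log e0]
              linarith
            · simp only [Set.indicator_of_notMem k, mul_zero, zero_sub]
              rw [Set.indicator_of_mem (show h ∈ {h : S3 | ‖h.q - 1‖ ≤ ε * g} from
                (not_le.1 (show ¬ ε * g ≤ ‖h.q - 1‖ from k)).le)]
              exact le_add_of_le_of_nonneg (exp_le_one_iff.2 (neg_nonpos.2 (by positivity)))
                (by positivity)
        _ ≤ H * (ε * g) ^ 3 + ε * (H * (g / c) ^ 3) := by
            rw [integral_add (f := {h : S3 | ‖h.q - 1‖ ≤ ε * g}.indicator 1)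
              ((integrable_const 1).indicator hS) ((iE _).const_mul _),
              integral_indicator_one hS, integral_const_mul]
            exact add_le_add (hH _ (by positivity)).1
              (mul_le_mul_of_nonneg_left (hH _ (by positivity)).2 e0.le)
        _ ≤ _ := by
            have k1 : H * ε = a * c ^ 3 / 2 := by rw [hε]; field_simp
            have k2 : ε ^ 2 * c ^ 3 ≤ 1 :=
              mul_le_one₀ (pow_le_one₀ e0.le (by linarith)) (by positivity) (pow_le_one₀ c0.le c1)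
            calc _ = H * ε * (ε ^ 2 * g ^ 3 + g ^ 3 / c ^ 3) := by ring
              _ = a * g ^ 3 / 2 * (ε ^ 2 * c ^ 3 + 1) := by rw [k1]; field_simp
              _ ≤ _ := by nlinarith [mul_pos a0 (pow_pos g1 3)]
  · have h1 := hF b (c / g) (fun s => c / g / 2 * s) (measurable_const_mul _) (fun s h0 h2 => by
      rw [abs_of_nonneg (by positivity)]
      nlinarith [div_pos c0 g1]) (fun s h0 => by nlinarith [div_pos c0 g1]) (by linarith)
      (by rw [← le_div_iff₀' (by linarith), one_div]; linarith) (by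
        refine le_trans (le_of_eq (integral_congr_ae (.of_forall fun h => ?_)))
          ((hH (2 * g / c) (by positivity)).2.trans_eq (by rw [hb]; ring))
        simp only
        congr 1
        field_simp
        ring) x μ ν hμ
    have h2 := zz_mono hg hp ((BM.const (M * g)).mul (BM.ind (mS (M * g))))
      (BM.cont (cont_fq x μ ν)) fun U => by
        by_cases h : U ∈ {U | M * g ≤ fq U x μ ν}
        · rw [Set.indicator_of_mem h]
          exact le_of_eq_of_le (mul_one _) h
        · rw [Set.indicator_of_notMem h, mul_zero]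
          exact (fq_le U x μ ν).1
    rw [zz_mul] at h1 h2
    rw [abs_of_nonneg l2, mul_div_assoc] at h1
    replace h2 := div_le_div_of_nonneg_right h2 p.le
    rw [mul_div_assoc, ← law_real hg hp (mS _)] at h2
    rw [le_div_iff₀ M0]
    refine le_trans ?_ (le_add_of_nonneg_left K0)
    rw [le_div_iff₀ c0]
    have h3 := mul_le_mul_of_nonneg_left h2 (div_pos c0 g1).le
    have e : ∀ y, c / g * (M * g * y) = y * M * c := fun y => by field_simp
    rw [e] at h3
    have h4 : 0 ≤ (lawOf n f).real {U | M * g ≤ fq U x μ ν} * M * c := by positivity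
    linarith

end Pool.Agent.Lib.MP_7f377f_mp.RG.Q4.En
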