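import Pool.Agent.Lib.MP_7f377f_mp.RGSmD
import Pool.Agent.Lib.MP_7f377f_mp.Q4Rob

/-! The complex noise functional of the symmetric block spin map. -/

noncomputable section

namespace Pool.Agent.Lib.MP_7f377f_mp.RG.Q4

open Finset
open scoped Quaternion

def Vc (l : ℕ) (μ : Fin 4) (U : Cf) : Hc :=
  ∑ σ : Equiv.Perm (Fin 4), ∑ t ∈ box l,
    cms star σ U 0 t * lnP U t μ (LL l) * star (cms star σ (sh (up l (un μ)) U) 0 t)

def uc (l : ℕ) (U : Cf) : Hc :=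
  ∑ σ : Equiv.Perm (Fin 4), ∑ t ∈ box l, cms star σ U 0 t

def Vh (l : ℕ) (μ : Fin 4) (U : Cf) : Hc :=
  star (uc l U) * Vc l μ U * uc l (sh (up l (un μ)) U)

def rsN (l : ℕ) (μ : Fin 4) (w : Hc) (U : Cf) : C3 := ch (w * star (Vh l μ U))

def nz (l : ℕ) (μ : Fin 4) (w : Hc) (U : Cf) : ℂ := 2 - 2 * (ex (rsN l μ w U)).re

namespace Nz

open Rb

attribute [local irreducible] box lbox

variable {l : ℕ} {μ : Fin 4}

theorem cms0 {α : Type} [Monoid α] (iv : α → α) (σ : Pm) (U : Lk → α) (t : St) :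
    cms iv σ U 0 t = cmb iv (pm σ U) fun j => t (σ j) := by
  simp [cms]

theorem perm_mem {R : ℕ} {t : St} (ht : t ∈ box R) (σ : Pm) : (fun j => t (σ j)) ∈ box R :=
  mem_box.2 fun _ => mem_box.1 ht _

theorem pm_mem {R : ℕ} {e : Lk} (he : e ∈ lbox R) (σ : Pm) :
    ((fun i => e.1 (σ.symm i)), σ e.2) ∈ lbox R := mem_lbox.2 (perm_mem (mem_lbox.1 he) σ.symm)

theorem pm_gauge {α : Type} [Monoid α] (iv : α → α) (σ : Pm) (h : St → α) (U : Lk → α) :
    pm σ (gauge iv h U) = gauge iv (fun x => h fun i => x (σ.symm i)) (pm σ U) := by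
  funext e
  simp only [pm, gauge]
  congr 3
  funext i
  simp [un_apply, Equiv.symm_apply_eq]

theorem cms_cC (σ : Pm) (U : Conf) (p t : St) :
    cms star σ (cC U) p t = cS (cms Inv.inv σ U p t) := cmb_cC (pm σ (sh p U)) _

theorem cms_gauge {h : St → Hc} (hh : ∀ x, Uni (h x)) (σ : Pm) (U : Cf) (t : St) :
    cms star σ (gauge star h U) 0 t = h 0 * cms star σ U 0 t * star (h t) := by
  rw [cms0, cms0, pm_gauge, cmb_gauge_star fun _ => hh _]
  simp only [Equiv.apply_symm_apply]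
  rfl

theorem cms_agr {α : Type} [Monoid α] (iv : α → α) {R : ℕ} {U U' : Lk → α} (h : Agr R U U')
    (σ : Pm) {t : St} (ht : t ∈ box R) : cms iv σ U 0 t = cms iv σ U' 0 t := by
  rw [cms0, cms0]
  exact cmb_agr (fun e he => h _ (pm_mem he σ)) _ (perm_mem ht σ)

theorem line_mem {t : St} (ht : t ∈ box l) {i : ℕ} (hi : i < LL l) :
    (t + (i : ℤ) • un μ, μ) ∈ lbox (3 * l + 1) := mem_lbox.2 (mem_box.2 fun k => by
  have := mem_box.1 ht k
  simp only [Pi.add_apply, Pi.smul_apply, un_apply, smul_eq_mul, LL] at *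
  split_ifs <;> omega)

theorem up_un_mem (l : ℕ) (μ : Fin 4) : up l (un μ) ∈ box (2 * l + 1) := mem_box.2 fun k => by
  simp only [up_apply, un_apply, LL_cast]
  split_ifs <;> omega

theorem lnP_agr {α : Type} [Monoid α] {U U' : Lk → α} {p : St} {n : ℕ}
    (h : ∀ i < n, U (p + (i : ℤ) • un μ, μ) = U' (p + (i : ℤ) • un μ, μ)) :
    lnP U p μ n = lnP U' p μ n := by
  induction n with
  | zero => rfl
  | succ n ih => rw [lnP, lnP, ih fun i hi => h i (by omega), h n (by omega)]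

theorem uc_agr {U U' : Cf} (h : Agr l U U') : uc l U = uc l U' :=
  sum_congr rfl fun σ _ => sum_congr rfl fun _ ht => cms_agr star h σ ht

theorem Vh_agr {U U' : Cf} (h : Agr (3 * l + 1) U U') : Vh l μ U = Vh l μ U' := by
  have h0 : Agr l U U' := h.mono (by omega)
  have h1 : Agr l (sh (up l (un μ)) U) (sh (up l (un μ)) U') :=
    Agr.sh (h.mono (by omega)) (up_un_mem l μ)
  have e : Vc l μ U = Vc l μ U' := sum_congr rfl fun σ _ => sum_congr rfl fun t ht => by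
    rw [cms_agr star h0 σ ht, cms_agr star h1 σ ht, lnP_agr fun i hi => h _ (line_mem ht hi)]
  rw [Vh, Vh, uc_agr h0, uc_agr h1, e]

theorem uc_gauge {h : St → Hc} (hh : ∀ x, Uni (h x)) (h0 : ∀ t ∈ box l, h t = h 0) (U : Cf) :
    uc l (gauge star h U) = h 0 * uc l U * star (h 0) := by
  simp only [uc, mul_sum, sum_mul, cms_gauge hh]
  exact sum_congr rfl fun _ _ => sum_congr rfl fun t ht => by rw [h0 t ht]

theorem Vh_gauge {g : St → Hc} (hg : ∀ x, Uni (g x)) (U : Cf) :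
    Vh l μ (gauge star (fun x => g (yo l x)) U) = g 0 * Vh l μ U * star (g (un μ)) := by
  have hh : ∀ x, Uni (g (yo l x)) := fun _ => hg _
  have h1 : ∀ x, Uni (g (yo l (x + up l (un μ)))) := fun _ => hg _
  have y0 : yo l 0 = 0 := yo_of_mem (zero_mem_box l)
  have y1 : yo l (up l (un μ)) = un μ := by rw [← zero_add (up l _), yo_add_up, y0, zero_add]
  have e : Vc l μ (gauge star (fun x => g (yo l x)) U) = g 0 * Vc l μ U * star (g (un μ)) := by
    simp only [Vc, mul_sum, sum_mul, sh_gauge, cms_gauge hh, cms_gauge h1, JS.lnP_gauge hh, star_mul,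
      star_star, mul_assoc, JS.cancel hg, show ((LL l : ℕ) : ℤ) • un μ = up l (un μ) from rfl]
    simp only [y0, y1, zero_add]
  rw [Vh, Vh, e, sh_gauge, uc_gauge hh fun t ht => by rw [yo_of_mem ht, y0],
    uc_gauge h1 fun t ht => by rw [yo_add_up, yo_add_up, yo_of_mem ht, y0]]
  simp only [star_mul, star_star, mul_assoc, JS.cancel hg, y0, y1, zero_add]

theorem rsN_gauge {g : St → Hc} (hg : ∀ x, Uni (g x)) (w : Hc) (U : Cf) :
    rsN l μ (g 0 * w * star (g (un μ))) (gauge star (fun x => g (yo l x)) U) =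
      adq (g 0) (rsN l μ w U) := by
  rw [rsN, rsN, Vh_gauge hg, ← ch_conj (hg 0)]
  simp only [star_mul, star_star, mul_assoc, JS.cancel hg]

theorem nz_eq (w : Hc) (U : Cf) :
    nz l μ w U = 2 - 2 * (1 + dot (rsN l μ w U) (rsN l μ w U)) ^ (-2⁻¹ : ℂ) := by
  simp [nz, ex]

theorem nz_gauge {g : St → Hc} (hg : ∀ x, Uni (g x)) (w : Hc) (U : Cf) :
    nz l μ (g 0 * w * star (g (un μ))) (gauge star (fun x => g (yo l x)) U) = nz l μ w U := by
  rw [nz_eq, nz_eq, rsN_gauge hg, dot_adq_adq (hg 0)]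

theorem nz_agr {U U' : Cf} (h : Agr (3 * l + 1) U U') (w : Hc) : nz l μ w U = nz l μ w U' := by
  rw [nz, nz, rsN, rsN, Vh_agr h]

section disc
variable {Ω : Set ℂ} {U : ℂ → Cf}

theorem diff_cms (hU : Disc Ω U) (σ : Pm) (t : St) :
    DifferentiableOn ℂ (fun s => cms star σ (U s) 0 t) Ω := by
  simp only [cms0]
  exact diff_cmb (U := fun s => pm σ (U s)) (fun _ => hU _) _

theorem diff_uc (hU : Disc Ω U) : DifferentiableOn ℂ (fun s => uc l (U s)) Ω :=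
  .fun_sum fun σ _ => .fun_sum fun t _ => diff_cms hU σ t

theorem diff_Vh (hU : Disc Ω U) : DifferentiableOn ℂ (fun s => Vh l μ (U s)) Ω :=
  ((diff_star (diff_uc hU)).mul (.fun_sum fun σ _ => .fun_sum fun t _ =>
    ((diff_cms hU σ t).mul (diff_lnP hU _ _ _)).mul (diff_star (diff_cms (hU.sh _) σ t)))).mul
    (diff_uc (hU.sh _))

end disc

/-- normalised average -/
def avc {E : Type} [AddCommGroup E] [Module ℂ E] (l : ℕ) (f : Pm → St → E) : E :=
  (24 * (LL l : ℂ) ^ 4)⁻¹ • ∑ σ : Pm, ∑ t ∈ box l, f σ t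

theorem cL_ne (l : ℕ) : (24 * (LL l : ℂ) ^ 4) ≠ 0 :=
  mul_ne_zero (by norm_num) (pow_ne_zero _ (by exact_mod_cast (LL_pos l).ne'))

theorem avc_t {E : Type} [AddCommGroup E] [Module ℂ E] (f : St → E) :
    avc l (fun _ t => f t) = ((LL l : ℂ) ^ 4)⁻¹ • ∑ t ∈ box l, f t := by
  rw [avc, sum_const, card_univ, Fintype.card_perm, Fintype.card_fin, ← Nat.cast_smul_eq_nsmul ℂ,
    smul_smul]
  congr 1
  push_cast [Nat.factorial]
  field_simp

theorem norm_avc {E : Type} [NormedAddCommGroup E] [NormedSpace ℂ E] {f : Pm → St → E} {a : ℝ}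
    (h : ∀ σ, ∀ t ∈ box l, ‖f σ t‖ ≤ a) : ‖avc l f‖ ≤ a := by
  have p := LR l
  rw [avc, norm_smul, norm_inv, norm_mul, norm_pow, Complex.norm_natCast, Complex.norm_ofNat,
    inv_mul_le_iff₀ (by positivity)]
  refine (norm_sum_le_of_le _ fun σ _ => norm_sum_le_of_le _ (h σ)).trans_eq ?_
  simp only [sum_const, card_univ, Fintype.card_perm, Fintype.card_fin, card_box, nsmul_eq_mul, LL]
  push_cast [Nat.factorial]
  ring

theorem nr_avc {s u : ℝ} {f : Pm → St → Hc} {b : Pm → St → C3}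
    (h : ∀ σ, ∀ t ∈ box l, RG.Nr s u (f σ t) (io (b σ t))) :
    RG.Nr s u (avc l f) (io (avc l b)) := by
  have e1 : avc l (fun _ _ => (1 : Hc)) = 1 := (avc_t _).trans (JS.avg_one l)
  have e2 : io (avc l b) = avc l fun σ t => io (b σ t) := by
    simp only [avc, io_smul]
    congr 1
    exact (map_sum ioL _ _).trans (sum_congr rfl fun _ _ => map_sum ioL _ _)
  have h1 := norm_avc fun σ t ht => (h σ t ht).1
  have h2 := norm_avc fun σ t ht => (h σ t ht).2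
  rw [RG.Nr, e2]
  nth_rw 1 [← e1]
  nth_rw 2 [← e1]
  simp only [avc, sum_sub_distrib, smul_sub] at h1 h2 ⊢
  exact ⟨h1, h2⟩

/-- linear part of the block field -/
def lnA (l : ℕ) (μ : Fin 4) (a : Fld) : C3 :=
  ((LL l : ℂ) ^ 4)⁻¹ • ∑ t ∈ box l, ∑ i ∈ range (LL l), a (t + (i : ℤ) • un μ, μ)

/-- normalised block field -/
def Vn (l : ℕ) (μ : Fin 4) (U : Cf) : Hc := ((24 * (LL l : ℂ) ^ 4)⁻¹) ^ 3 • Vh l μ U

theorem rsN_eq (w : Hc) (U : Cf) : rsN l μ w U = ch (w * star (Vn l μ U)) := by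
  rw [Vn, Quaternion.star_smul, mul_smul_comm, ch_smul (pow_ne_zero _ (inv_ne_zero (cL_ne l))), rsN]

theorem nr_cmb' {R : ℕ} {s u : ℝ} {U : Cf} {b : Fld} (s0 : 0 ≤ s) (u0 : 0 ≤ u)
    (h : ∀ e ∈ lbox R, RG.Nr s u (U e) (io (b e))) {t : St} (ht : t ∈ box R) :
    RG.Nr (4 * R * s) (4 * R * u) (cmb star U t) (io (lam b t)) := by
  have k : (RG.ht t : ℝ) ≤ 4 * R := by exact_mod_cast ht_le ht
  exact (nr_cmb h t ht).mono (by positivity) (by gcongr) (by gcongr)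

theorem nr_cms {R : ℕ} {s u : ℝ} {U : Cf} {b : Fld} (s0 : 0 ≤ s) (u0 : 0 ≤ u)
    (h : ∀ e ∈ lbox R, RG.Nr s u (U e) (io (b e))) (σ : Pm) {t : St} (ht : t ∈ box R) :
    RG.Nr (4 * R * s) (4 * R * u) (cms star σ U 0 t) (io (lam (pm σ b) fun j => t (σ j))) := by
  rw [cms0]
  exact nr_cmb' s0 u0 (b := pm σ b) (fun e he => h _ (pm_mem he σ)) (perm_mem ht σ)

theorem nr_Vn {s u : ℝ} {U : Cf} {a : Fld} (s0 : 0 ≤ s) (u0 : 0 ≤ u)
    (h : ∀ e ∈ lbox (3 * l + 1), RG.Nr s u (U e) (io (a e))) :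
    RG.Nr (13 * LL l * s) (13 * LL l * u) (Vn l μ U) (io (lnA l μ a)) := by
  have h0 : ∀ e ∈ lbox l, RG.Nr s u (U e) (io (a e)) := fun e he => h e (lbox_mono (by omega) he)
  have h1 : ∀ e ∈ lbox l, RG.Nr s u (sh (up l (un μ)) U e) (io (sh (up l (un μ)) a e)) :=
    fun e he => h _ (mem_lbox.2 (box_mono (by omega) (add_mem_box (mem_lbox.1 he) (up_un_mem l μ))))
  have uu : ∀ {U : Cf} {a : Fld}, (∀ e ∈ lbox l, RG.Nr s u (U e) (io (a e))) →
      RG.Nr (4 * l * s) (4 * l * u) ((24 * (LL l : ℂ) ^ 4)⁻¹ • uc l U)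
        (io (avc l fun σ t => lam (pm σ a) fun j => t (σ j))) := fun h =>
    nr_avc fun σ t ht => nr_cms s0 u0 h σ ht
  have vv : RG.Nr _ _ ((24 * (LL l : ℂ) ^ 4)⁻¹ • Vc l μ U) (io (avc l fun σ t =>
      lam (pm σ a) (fun j => t (σ j)) + ∑ i ∈ range (LL l), a (t + (i : ℤ) • un μ, μ) +
        -lam (pm σ (sh (up l (un μ)) a)) fun j => t (σ j))) :=
    nr_avc fun σ t ht => by
      rw [io_add, io_add]
      exact ((nr_cms s0 u0 h0 σ ht).mul (nr_lnP _ fun i hi => h _ (line_mem ht hi))).mul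
        (nr_cms s0 u0 h1 σ ht).star
  have := (((uu h0).star.mul vv).mul (uu h1)).mono (s' := 13 * LL l * s) (u' := 13 * LL l * u)
    (by positivity) (by unfold LL; push_cast; nlinarith [mul_nonneg l.cast_nonneg s0])
    (by unfold LL; push_cast; nlinarith [mul_nonneg l.cast_nonneg u0])
  convert this using 1
  · simp only [Vn, Vh, Quaternion.star_smul, smul_mul_assoc, mul_smul_comm, smul_smul]
    congr 1
    ring
  · rw [← io_add, ← io_add, lnA, ← avc_t]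
    congr 1
    simp only [avc, ← smul_neg, ← smul_add, ← sum_neg_distrib, ← sum_add_distrib]
    refine congrArg _ (sum_congr rfl fun σ _ => sum_congr rfl fun t _ => ?_)
    abel

theorem Vn_ap {δ η : ℝ} {U : Cf} {a : Fld} (h : Ap (3 * l + 1) δ η U a) (h1 : η ≤ δ)
    (h2 : 52 * LL l * δ ≤ 1) : ‖Vn l μ U - 1‖ ≤ 104 * LL l * δ ∧
      ‖Vn l μ U - 1 - io (lnA l μ a)‖ ≤ 13 * LL l * η + (52 * LL l * δ) ^ 2 := by
  obtain ⟨δ0, η0⟩ := h.nonneg
  have := (nr_Vn (μ := μ) (by positivity) η0 (h.nr h1)).le (by positivity) (by linarith)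
  exact ⟨this.1.trans_eq (by ring), this.2.trans_eq (by ring)⟩

/-- the residual to second order; `1 + b` is the first order part of `w` -/
theorem rsN_ap {δ η : ℝ} {U : Cf} {a : Fld} {w : Hc} {b : C3} (h : Ap (3 * l + 1) δ η U a)
    (h1 : η ≤ δ) (hb : ‖b‖ ≤ δ) (hw : ‖w - 1 - io b‖ ≤ η) (h2 : 1000 * LL l * δ ≤ 1) :
    (w * star (Vn l μ U)).re ≠ 0 ∧ ‖rsN l μ w U‖ ≤ 200 * LL l * δ ∧
      ‖rsN l μ w U - (b - lnA l μ a)‖ ≤ 50 * LL l * η + 10 ^ 4 * (LL l * δ) ^ 2 := by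
  obtain ⟨δ0, η0⟩ := h.nonneg
  have L1 : (1 : ℝ) ≤ LL l := by exact_mod_cast LL_pos l
  have k1 : δ ≤ LL l * δ := le_mul_of_one_le_left δ0 L1
  have k2 : η ≤ LL l * η := le_mul_of_one_le_left η0 L1
  have k3 : LL l * η ≤ LL l * δ := by gcongr
  have n1 : RG.Nr (4 * δ) η w (io b) := .of_le ((JS.near_one ⟨hb, hw⟩).trans (by linarith)) hw
  have n2 := (n1.mul (nr_Vn (μ := μ) (by positivity) η0 (h.nr h1)).star).mono
    (s' := 56 * (LL l * δ)) (u' := 14 * (LL l * η)) (by positivity) (by linarith) (by linarith)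
  rw [← io_add, ← sub_eq_add_neg] at n2
  have n3 := n2.ch (by positivity) (by linarith) (by linarith)
  have n4 := (n2.le (by positivity) (by linarith)).1
  have n5 := (ch_near (W := w * star (Vn l μ U)) (w := 0) (η := 2 * (56 * (LL l * δ)))
    (by simpa using n4) (by linarith) (by simp)).2
  rw [rsN_eq]
  have n6 : ‖b - lnA l μ a‖ ≤ 130 * (LL l * δ) := by
    have := (n2.le (by positivity) (by linarith)).2
    have e : b - lnA l μ a = co ((w * star (Vn l μ U) - 1) -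
      (w * star (Vn l μ U) - 1 - io (b - lnA l μ a))) := by simp
    rw [e]
    exact (norm_co _).trans ((norm_sub_le _ _).trans (by nlinarith))
  have n7 := norm_add_le_of_le n3.2 n6
  rw [sub_add_cancel] at n7
  exact ⟨n3.1, n7.trans (by nlinarith), n3.2.trans (by nlinarith)⟩

theorem cpow_near {s : ℂ} (h : ‖s‖ ≤ 1 / 2) :
    ‖2 - 2 * (1 + s) ^ (-2⁻¹ : ℂ) - s‖ ≤ 10 * ‖s‖ ^ 2 := by
  have h1 := norm_cpow_sub h
  have h0 : 1 + s ≠ 0 := fun e => by
    rw [eq_neg_of_add_eq_zero_right e, norm_neg, norm_one] at h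
    norm_num at h
  have h2 : ((1 + s) ^ (-2⁻¹ : ℂ)) ^ 2 * (1 + s) = 1 := by
    rw [Complex.cpow_neg, inv_pow, Complex.cpow_ofNat_inv_pow, inv_mul_cancel₀ h0]
  generalize (1 + s) ^ (-2⁻¹ : ℂ) = t at *
  have e : 2 - 2 * t - s = (t - 1) ^ 2 + s * ((t - 1) * ((t - 1) + 2)) := by
    linear_combination (-1) * h2
  have s0 := norm_nonneg s
  have h3 : ‖t - 1 + 2‖ ≤ 3 := (norm_add_le _ _).trans (by rw [Complex.norm_ofNat]; linarith)
  rw [e]
  refine (norm_add_le _ _).trans ?_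
  rw [norm_pow, norm_mul, norm_mul]
  calc _ ≤ (2 * ‖s‖) ^ 2 + ‖s‖ * (2 * ‖s‖ * 3) := by gcongr
    _ = _ := by ring

theorem nz_ap {δ η : ℝ} {U : Cf} {a : Fld} {w : Hc} {b : C3} (h : Ap (3 * l + 1) δ η U a)
    (h1 : η ≤ δ) (hb : ‖b‖ ≤ δ) (hw : ‖w - 1 - io b‖ ≤ η) (h2 : 1000 * LL l * δ ≤ 1) :
    ‖nz l μ w U - dot (b - lnA l μ a) (b - lnA l μ a)‖ ≤
      10 ^ 9 * (LL l * δ * (LL l * η + (LL l * δ) ^ 2)) := by
  obtain ⟨δ0, η0⟩ := h.nonneg
  obtain ⟨-, r1, r2⟩ := rsN_ap (μ := μ) h h1 hb hw h2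
  have k3 : LL l * η ≤ LL l * δ := by gcongr
  rw [mul_assoc] at r1 r2 h2
  have p0 : 0 ≤ LL l * δ := by positivity
  have q0 : 0 ≤ LL l * η := by positivity
  generalize LL l * δ = p at *
  generalize LL l * η = q at *
  have r3 : ‖b - lnA l μ a‖ ≤ 300 * p := by
    have := norm_sub_le_of_le r1 r2
    rw [sub_sub_cancel] at this
    nlinarith
  have d1 := JS.dot_diff r2 (r1.trans (by linarith)) r3
  have d2 : ‖dot (rsN l μ w U) (rsN l μ w U)‖ ≤ 3 * (200 * p) * (200 * p) :=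
    (norm_dot _ _).trans (by gcongr)
  have d3 := (cpow_near (d2.trans (by nlinarith))).trans (mul_le_mul_of_nonneg_left
    (pow_le_pow_left₀ (norm_nonneg _) d2 2) (by norm_num))
  rw [← nz_eq] at d3
  refine (norm_sub_le_norm_sub_add_norm_sub _ _ _).trans ((add_le_add d3 d1).trans ?_)
  have p3 : p ^ 4 ≤ p ^ 3 / 1000 := by nlinarith [pow_nonneg p0 3]
  nlinarith [pow_nonneg p0 3, mul_nonneg p0 q0]

theorem diff_nz {Ω : Set ℂ} {U : ℂ → Cf} {w : ℂ → Hc} {δ : ℝ} (hU : Disc Ω U)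
    (hw : DifferentiableOn ℂ w Ω) (h : ∀ s ∈ Ω, ∀ e ∈ lbox (3 * l + 1), ‖U s e - 1‖ ≤ δ)
    (h' : ∀ s ∈ Ω, ‖w s - 1‖ ≤ δ) (h2 : 1000 * LL l * δ ≤ 1) :
    DifferentiableOn ℂ (fun s => nz l μ (w s) (U s)) Ω := by
  have k : ∀ s ∈ Ω, _ := fun s hs => rsN_ap (μ := μ) (a := 0) (b := 0) (δ := δ) (η := δ)
    (fun e he => ⟨by simpa using (norm_nonneg _).trans (h s hs e he), by simpa using h s hs e he⟩)
    le_rfl (by simpa using (norm_nonneg _).trans (h' s hs)) (by simpa using h' s hs) h2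
  refine (differentiableOn_const _).sub ((diff_re (diff_ex ?_ fun s hs => ?_)).const_mul _)
  · simp only [rsN_eq]
    exact diff_ch (hw.mul (diff_star ((diff_Vh hU).fun_const_smul _))) fun s hs => (k s hs).1
  · exact (k s hs).2.1.trans (by linarith)

theorem mq_Vh {Z : Type} [MeasurableSpace Z] {U : Z → Cf} (hU : ∀ e, MQ fun z => U z e) :
    MQ fun z => Vh l μ (U z) := by
  have c : ∀ {U : Z → Cf}, (∀ e, MQ fun z => U z e) → ∀ σ t, MQ fun z => cms star σ (U z) 0 t :=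
    fun {U} hU σ t => by
      simp only [cms0]
      exact mq_cmb (U := fun z => pm σ (U z)) (fun _ => hU _) _
  have u : ∀ {U : Z → Cf}, (∀ e, MQ fun z => U z e) → MQ fun z => uc l (U z) := fun hU =>
    .sum _ fun σ => .sum _ fun t => c hU σ t
  have h1 : ∀ e, MQ fun z => sh (up l (un μ)) (U z) e := fun _ => hU _
  exact ((u hU).star.mul (.sum _ fun σ => .sum _ fun t =>
    ((c hU σ t).mul (mq_lnP hU _ _ _)).mul (c h1 σ t).star)).mul (u h1)

theorem measurable_nz {Z : Type} [MeasurableSpace Z] {U : Z → Cf} {w : Z → Hc}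
    (hU : ∀ e, MQ fun z => U z e) (hw : MQ w) : Measurable fun z => nz l μ (w z) (U z) :=
  ((mq_ex (hw.mul (mq_Vh hU).star).ch).1.const_mul _).const_sub _

/-- the sum which defines `uh` -/
def uq (l : ℕ) (U : Conf) : ℍ := ∑ σ : Pm, ∑ t ∈ box l, (cms Inv.inv σ U 0 t).q

theorem uc_cC (U : Conf) : uc l (cC U) = cq (uq l U) := by
  simp only [uc, uq, cq_sum, cms_cC]
  rfl

theorem Vc_cC (U : Conf) : Vc l μ (cC U) = cq ((24 * (LL l : ℝ) ^ 4) • avq l μ U 0 0) := by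
  rw [avq, smul_inv_smul₀ (by have := LR l; positivity)]
  simp only [Vc, cq_sum, sh_cC, cms_cC, lnP_cC, ← cS_inv, ← cS_mul]
  rfl

theorem Vh_cC (U : Conf) : Vh l μ (cC U) = cq (star (uq l U) *
    ((24 * (LL l : ℝ) ^ 4) • avq l μ U 0 0) * uq l (sh (up l (un μ)) U)) := by
  rw [Vh, sh_cC, uc_cC, uc_cC, Vc_cC, cq_mul, cq_mul, cq_star]

theorem nz_im (g : S3) (U : Conf) : (nz l μ (cS g) (cC U)).im = 0 := by
  have h : ∀ k, (rsN l μ (cS g) (cC U) k).im = 0 := fun k => by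
    rw [rsN, Vh_cC, cS, ← cq_star, ← cq_mul]
    exact ch_real _ k
  obtain ⟨v, hv⟩ : ∃ v, cE v = rsN l μ (cS g) (cC U) :=
    ⟨WithLp.toLp 2 fun k => (rsN l μ (cS g) (cC U) k).re, funext fun k =>
      Complex.ext rfl (by simpa [cE] using (h k).symm)⟩
  obtain ⟨g', e, -⟩ := ex_real v
  rw [nz, ← hv, ← e]
  simp [cS]

theorem cmb_tree {α : Type} [Monoid α] {iv : α → α} (hi : iv 1 = 1) {U : Lk → α}
    (hU : ∀ f, tree l f → U f = 1) (y t : St) : t ∈ box l → cmb iv (sh (up l y) U) t = 1 := by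
  have key : ∀ p ν, Tr p ν → p ∈ box l → p + un ν ∈ box l → sh (up l y) U (p, ν) = 1 :=
    fun p ν h1 h2 h3 => hU _ ((tree_add_up l p y ν).2 ⟨by rw [yo_of_mem h2, yo_of_mem h3],
      fun κ hκ => by rw [yo_of_mem h2, up_zero]; exact h1 κ hκ⟩)
  induction t using site_ind with
  | h0 => simp
  | hp p ν h1 h2 ih =>
    intro hx
    rw [cmb_fwd _ _ h1 h2, ih (box_fwd h2 hx), key p ν h1 (box_fwd h2 hx) hx, one_mul]
  | hn p ν h1 h2 ih =>
    intro hx
    rw [cmb_bwd _ _ h1 h2, ih (box_bwd h2 hx), key p ν h1 hx (box_bwd h2 hx), hi, one_mul]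

theorem uh_tree {U : Conf} (hU : ∀ f, tree l f → U f = 1) (y : St) :
    uh l (sh (up l y) U) = nr (uq l (sh (up l y) U)) 1 := by
  rw [uh, uq]
  exact congrArg (nr · 1) (sum_congr rfl fun σ _ => sum_congr rfl fun t ht => by
    rw [cmb_tree inv_one hU y t ht, inv_one, mul_one])

/-- the corrected block field is the normalised `Vh` -/
theorem blkN_eq {U : Conf} (hU : ∀ f, tree l f → U f = 1) {ω : St → Om} {y : St} (h0 : (ω y).1 = 0) (h1 : (ω (y + un μ)).1 = 0)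
    (hV : Vh l μ (sh (up l y) (cC U)) ≠ 0) : ∃ c : ℝ, 0 < c ∧
      cS (blkN l U ω (y, μ)) = (c : ℂ) • Vh l μ (sh (up l y) (cC U)) := by
  have hL := LR l
  rw [sh_cC, Vh_cC] at hV ⊢
  have hV' := fun e => hV ((congrArg cq e).trans cq_zero)
  have a1 : uq l (sh (up l y) U) ≠ 0 := fun e => hV' (by simp [e])
  have a2 : avq l μ (sh (up l y) U) 0 0 ≠ 0 := fun e => hV' (by simp [e])
  have a3 : uq l (sh (up l (un μ)) (sh (up l y) U)) ≠ 0 := fun e => hV' (by simp [e])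
  have b1 := norm_pos_iff.2 a1
  have b2 := norm_pos_iff.2 a2
  have b3 := norm_pos_iff.2 a3
  refine ⟨‖uq l (sh (up l y) U)‖⁻¹ * ‖avq l μ (sh (up l y) U) 0 0‖⁻¹ *
    ‖uq l (sh (up l (un μ)) (sh (up l y) U))‖⁻¹ * (24 * (LL l : ℝ) ^ 4)⁻¹, mul_pos (mul_pos (mul_pos
      (inv_pos.2 b1) (inv_pos.2 b2)) (inv_pos.2 b3)) (by positivity), ?_⟩
  have e1 : blk l U ω (y, μ) = nr (avq l μ (sh (up l y) U) 0 0) 1 := by
    rw [blk, av, h0, h1, if_neg a2, cms_self, cms_self, inv_one, one_mul, mul_one]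
  have e2 : blkN l U ω (y, μ) = (nr (uq l (sh (up l y) U)) 1)⁻¹ * blk l U ω (y, μ) *
      (nr (uq l (sh (up l (y + un μ)) U)) 1)⁻¹⁻¹ := by
    rw [← uh_tree hU, ← uh_tree hU]
    rfl
  rw [← cq_smul, cS, e2, e1, inv_inv, S3.q_mul, S3.q_mul, S3.q_inv, up_add, add_comm (up l y),
    ← sh_sh, nr_q a1, nr_q a2, nr_q a3]
  generalize uq l (sh (up l y) U) = p at *
  generalize avq l μ (sh (up l y) U) 0 0 = q at *
  generalize uq l (sh (up l (un μ)) (sh (up l y) U)) = p' at *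
  simp only [Quaternion.star_smul, smul_mul_assoc, mul_smul_comm, smul_smul]
  congr 2
  field_simp

/-- the noise functional of real fields -/
theorem nz_real {U : Conf} (hU : ∀ f, tree l f → U f = 1) {ω : St → Om} {y : St} (h0 : (ω y).1 = 0) (h1 : (ω (y + un μ)).1 = 0)
    (hV : Vh l μ (sh (up l y) (cC U)) ≠ 0) {w : S3} (hw : 0 < (w * (blkN l U ω (y, μ))⁻¹).q.re) :
    rsN l μ (cS w) (sh (up l y) (cC U)) = ch (cS (w * (blkN l U ω (y, μ))⁻¹)) ∧
    nz l μ (cS w) (sh (up l y) (cC U)) = (‖(w * (blkN l U ω (y, μ))⁻¹).q - 1‖ ^ 2 : ℝ) := by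
  obtain ⟨c, c0, hc⟩ := blkN_eq hU h0 h1 hV
  have e : rsN l μ (cS w) (sh (up l y) (cC U)) = ch (cS (w * (blkN l U ω (y, μ))⁻¹)) := by
    rw [cS_mul, cS_inv, hc, Quaternion.star_smul, mul_smul_comm,
      ch_smul (Complex.ofReal_ne_zero.2 c0.ne'), rsN]
  refine ⟨e, ?_⟩
  rw [nz, e, ex_ch hw]
  generalize w * (blkN l U ω (y, μ))⁻¹ = g
  have := norm_q_sq g.q
  rw [g.norm_q] at this
  rw [norm_q_sq, cS, cq_re]
  simp only [Quaternion.re_sub, Quaternion.imI_sub, Quaternion.imJ_sub, Quaternion.imK_sub,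
    Quaternion.re_one, Quaternion.imI_one, Quaternion.imJ_one, Quaternion.imK_one, sub_zero]
  norm_cast
  linarith

end Nz

end Pool.Agent.Lib.MP_7f377f_mp.RG.Q4
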