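import Pool.Agent.Lib.MP_7f377f_mp.Q4Op1

/-! The torus with a vector of periods; the fluctuation operator on periodic fields. -/

noncomputable section

namespace Pool.Agent.Lib.MP_7f377f_mp.RG.Q4

open Finset Polynomial
open scoped InnerProductSpace

attribute [local irreducible] box lbox cube

variable {O : Od} {c l : ℕ} {H H' : Set St} {W W' : Cf} {W0 : Conf} {A A' : Fld} {p q : ℂ[X]}
  {δ : ℝ} {f : Lk} {n : Fin 4 → ℕ} {x y : St}

theorem up_pv (l : ℕ) (v : St) : up l (pv n v) = pv (fi l n) v := by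
  funext i
  simp only [up_apply, pv, Nat.cast_mul, mul_assoc]

theorem pv_neg (v : St) : pv n (-v) = -pv n v := by
  funext i
  simp [pv]

theorem perV_cu {α : Type} {n : ℕ} {U : Lk → α} : PerV (cu n) U ↔ Per n U :=
  ⟨fun h μ => h (un μ), fun h v => h.sh_smul v⟩

theorem PerV.sh {α : Type} {U : Lk → α} (h : PerV n U) (x : St) : PerV n (sh x U) := fun v => by
  rw [sh_sh, add_comm, ← sh_sh, h v]

theorem PerV.app {α : Type} {U : Lk → α} (h : PerV n U) (x v : St) (μ : Fin 4) :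
    U (x + pv n v, μ) = U (x, μ) := congrFun (h v) (x, μ)

theorem PerV.map {α β : Type} {U : Lk → α} (h : PerV n U) (φ : α → β) : PerV n fun e => φ (U e) :=
  fun v => funext fun e => congrArg φ (congrFun (h v) e)

theorem PerV.cC (h : PerV n W0) : PerV n (cC W0) := h.map cS

theorem PerS.sh (h : PerS n H) (x : St) : PerS n (shS x H) := fun v => by
  rw [shS_shS, add_comm, ← shS_shS, h v]

theorem PerS.fr (h : PerS n H) (x v : St) : Fr H (x + pv n v) ↔ Fr H x := by
  rw [← fr_shS, h v]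

theorem PerS.act (h : PerS n H) (x v : St) (μ : Fin 4) :
    Act l H (x + pv (fi l n) v, μ) ↔ Act l H (x, μ) := by
  rw [← up_pv, ← act_shS (f := (x, μ)), h v]

theorem dv_iff : Dv n x ↔ ∃ v, x = pv n v :=
  ⟨fun h => by
    choose v hv using h
    exact ⟨v, funext hv⟩, fun ⟨v, hv⟩ i => ⟨v i, congrFun hv i⟩⟩

theorem dv_pv (v : St) : Dv n (pv n v) := dv_iff.2 ⟨v, rfl⟩

theorem dv_zero : Dv n 0 := fun _ => dvd_zero _

theorem Dv.add (h : Dv n x) (h' : Dv n y) : Dv n (x + y) := fun i => (h i).add (h' i)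

theorem Dv.neg (h : Dv n x) : Dv n (-x) := fun i => (h i).neg_right

theorem dv_add (h : Dv n y) : Dv n (x + y) ↔ Dv n x :=
  ⟨fun h' => by simpa using h'.add h.neg, fun h' => h'.add h⟩

theorem rcv_spec (n : Fin 4 → ℕ) (x : St) : ∃ v, x = rcv n x + pv n v :=
  ⟨fun i => (x i + (n i / 2 : ℕ)) / n i, funext fun i => by
    have := Int.emod_add_mul_ediv (x i + (n i / 2 : ℕ)) (n i)
    simp only [rcv, pv, Pi.add_apply]
    linarith⟩

theorem dv_rcv (n : Fin 4 → ℕ) (x : St) : Dv n (x - rcv n x) := by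
  obtain ⟨v, hv⟩ := rcv_spec n x
  exact dv_iff.2 ⟨v, sub_eq_iff_eq_add'.2 hv⟩

theorem rcv_add (x v : St) : rcv n (x + pv n v) = rcv n x := by
  funext i
  simp only [rcv, pv, Pi.add_apply]
  rw [add_right_comm, Int.add_mul_emod_self_left]

theorem rcv_congr (h : Dv n (x - y)) : rcv n x = rcv n y := by
  obtain ⟨v, hv⟩ := dv_iff.1 h
  rw [sub_eq_iff_eq_add'.1 hv, rcv_add]

theorem mem_domv : x ∈ domv n ↔ ∀ i, -((n i / 2 : ℕ) : ℤ) ≤ x i ∧ x i ≤ (n i / 2 : ℕ) := by
  simp only [domv, Fintype.mem_piFinset, mem_Icc]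

theorem rcv_mem (hn : ∀ i, Odd (n i)) (x : St) : rcv n x ∈ domv n := mem_domv.2 fun i => by
  obtain ⟨k, hk⟩ := hn i
  have h0 : (0 : ℤ) < n i := by omega
  have := Int.emod_nonneg (x i + (n i / 2 : ℕ)) h0.ne'
  have := Int.emod_lt_of_pos (x i + (n i / 2 : ℕ)) h0
  simp only [rcv]
  omega

theorem rcv_eq (hn : ∀ i, Odd (n i)) (h : x ∈ domv n) : rcv n x = x := by
  funext i
  obtain ⟨k, hk⟩ := hn i
  have := mem_domv.1 h i
  rw [rcv, Int.emod_eq_of_lt (by omega) (by omega), add_sub_cancel_right]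

theorem dom_inj (hn : ∀ i, Odd (n i)) (hx : x ∈ domv n) (hy : y ∈ domv n) (h : Dv n (x - y)) :
    x = y := by rw [← rcv_eq hn hx, rcv_congr h, rcv_eq hn hy]

theorem odd_fi (hn : ∀ i, Odd (n i)) (l : ℕ) (i : Fin 4) : Odd (fi l n i) :=
  Odd.mul ⟨l, rfl⟩ (hn i)

theorem mem_fine (hn : ∀ i, Odd (n i)) : x ∈ domv (fi l n) ↔ yo l x ∈ domv n := by
  simp only [mem_domv, yo]
  refine forall_congr' fun i => ?_
  obtain ⟨k, hk⟩ := hn i
  have e : fi l n i / 2 = k * LL l + l := by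
    have : fi l n i = 2 * (k * LL l + l) + 1 := by simp only [fi, hk, LL]; ring
    omega
  rw [Int.le_ediv_iff_mul_le (Op.LL_pos l), ← Int.lt_add_one_iff (a := _ / _),
    Int.ediv_lt_iff_lt_mul (Op.LL_pos l), e, show n i / 2 = k by omega]
  have := LL_cast l
  push_cast
  constructor <;> rintro ⟨h1, h2⟩ <;> constructor <;> nlinarith

theorem pcv_per {α : Type} (U : Lk → α) : PerV n (pcv n U) := fun v => by
  funext e
  simp only [sh, pcv, rcv_add]

theorem PerV.pcv {α : Type} {U : Lk → α} (h : PerV n U) : pcv n U = U := by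
  funext e
  obtain ⟨v, hv⟩ := rcv_spec n e.1
  rw [Q4.pcv, ← h.app _ v, ← hv]

theorem sum_dom_add {M : Type} [AddCommMonoid M] (hn : ∀ i, Odd (n i)) {g : St → M}
    (hg : ∀ x v, g (x + pv n v) = g x) (v : St) :
    ∑ x ∈ domv n, g (x + v) = ∑ x ∈ domv n, g x := by
  have key : ∀ (v x : St), x ∈ domv n → rcv n (rcv n (x + v) + -v) = x := fun v x hx => by
    rw [← rcv_eq hn hx]
    refine rcv_congr ?_
    rw [rcv_eq hn hx]
    convert (dv_rcv n (x + v)).neg using 1
    abel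
  refine sum_nbij' (fun x => rcv n (x + v)) (fun x => rcv n (x + -v)) (fun x _ => rcv_mem hn _)
    (fun x _ => rcv_mem hn _) (key v) (fun x hx => by simpa using key (-v) x hx) fun x _ => ?_
  obtain ⟨w, hw⟩ := rcv_spec n (x + v)
  rw [← hg (rcv _ _) w, ← hw]

theorem sum_fine {M : Type} [AddCommMonoid M] (hn : ∀ i, Odd (n i)) (l : ℕ) (g : Lk → M) :
    ∑ e ∈ domv (fi l n) ×ˢ univ, g e = ∑ y ∈ domv n, ∑ t ∈ lbox l, g (t.1 + up l y, t.2) := by
  rw [← sum_product' (s := domv n)]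
  refine sum_bij' (fun e _ => (yo l e.1, (e.1 - up l (yo l e.1), e.2)))
    (fun p _ => (p.2.1 + up l p.1, p.2.2)) ?_ ?_ ?_ ?_ ?_
  · intro e he
    exact mem_product.2 ⟨(mem_fine hn).1 (mem_product.1 he).1, mem_lbox.2 (sub_up_yo_mem l _)⟩
  · intro p hp
    refine mem_product.2 ⟨?_, mem_univ _⟩
    rw [mem_fine hn, Op.yo_add_box (mem_lbox.1 (mem_product.1 hp).2)]
    exact (mem_product.1 hp).1
  · intro e _
    simp
  · intro p hp
    simp [Op.yo_add_box (mem_lbox.1 (mem_product.1 hp).2)]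
  · intro e _
    simp

theorem sum_per (hn : ∀ i, Odd (n i)) {Φ : Lk → ℝ} (hΦ : PerV (fi l n) Φ) (a : ℕ) (x : St) :
    ∑ y ∈ domv n, ∑ e ∈ lbox (fb l a), Φ (e.1 + up l (y + x), e.2) =
      (2 * a + 1) ^ 4 * ∑ y ∈ domv n, ∑ t ∈ lbox l, Φ (t.1 + up l y, t.2) := by
  simp only [Op.sum_fb]
  rw [sum_comm, sum_congr rfl (g := fun _ => ∑ y ∈ domv n, ∑ t ∈ lbox l, Φ (t.1 + up l y, t.2))]
  · simp [card_box]
  · intro z _
    rw [← sum_dom_add hn (g := fun y => ∑ t ∈ lbox l, Φ (t.1 + up l y, t.2)) (fun y v => ?_) (x + z)]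
    · simp only [up_add, add_assoc, add_comm (up l z)]
    · refine sum_congr rfl fun t _ => ?_
      rw [up_add, ← add_assoc, up_pv, hΦ.app]

theorem pj_per (hH : PerS n H) (hA : PerV (fi l n) A) : PerV (fi l n) (pj l H A) := fun v => by
  rw [← up_pv, ← pj_sh, hH v, up_pv, hA v]

theorem Ay_per (hW : PerV n W) (hA : PerV (fi l n) A) (y v : St) :
    Ay l (y + pv n v) W A = Ay l y W A := by rw [← Ay_sh, hW v, up_pv, hA v]

/-- the bilinear pairing of periodic fields -/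
def bp (n : Fin 4 → ℕ) (l : ℕ) (A' A : Fld) : ℂ :=
  ∑ y ∈ domv n, ∑ t ∈ lbox l, dot (sh (up l y) A' t) (sh (up l y) A t)

theorem bp_comm : bp n l A' A = bp n l A A' := by simp only [bp, dot_comm (sh _ A' _)]

def bpL (n : Fin 4 → ℕ) (l : ℕ) (A' : Fld) : Fld →ₗ[ℂ] ℂ where
  toFun := bp n l A'
  map_add' A B := by simp only [bp, sh, Pi.add_apply, dot_add, sum_add_distrib]
  map_smul' a A := by simp only [bp, sh, Pi.smul_apply, dot_smul, mul_sum, RingHom.id_apply, smul_eq_mul]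

theorem bp_pj : bp n l A' (pj l H A) = bp n l (pj l H A') A :=
  sum_congr rfl fun y _ => sum_congr rfl fun t _ => by
    simp only [sh, pj]
    split_ifs <;> simp

namespace Od

theorem ham_per (hW : PerV n W) (hA : PerV (fi O.l n) A) : PerV (fi O.l n) (O.ham W A) :=
  fun v => by rw [← up_pv, ← ham_sh, hW v, up_pv, hA v]

theorem top_per (hH : PerS n H) (hW : PerV n W) (hA : PerV (fi O.l n) A) :
    PerV (fi O.l n) (O.top H W A) := fun v => by rw [← up_pv, ← top_sh, hH v, hW v, up_pv, hA v]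

theorem pol_per (hH : PerS n H) (hW : PerV n W) (hA : PerV (fi O.l n) A) :
    PerV (fi O.l n) (O.pol p H W A) := fun v => by rw [← up_pv, ← pol_sh, hH v, hW v, up_pv, hA v]

theorem regroup (h : O.Ok c) (hn : ∀ i, Odd (n i)) (hW : PerV n W) (hA : PerV (fi O.l n) A)
    (hA' : PerV (fi O.l n) A') :
    ∑ y ∈ domv n, ∑ t ∈ lbox O.l, dot (sh (up O.l y) A' t) (sh (up O.l y) (O.ham W A) t) =
      ∑ y ∈ domv n, cx O.h (Ay O.l y W A') (Ay O.l y W A) := by
  let g : St → Lk → ℂ := fun y e => dot (Ay O.l y W A' e) (cxL O.hL (Ay O.l y W A) e)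
  have e1 : ∀ y, ∀ t ∈ lbox O.l, dot (sh (up O.l y) A' t) (sh (up O.l y) (O.ham W A) t) =
      ∑ x ∈ box 2, g (y + x) (t.1 + up O.l (-x), t.2) := by
    intro y t ht
    have h0 := Op.yo_add_box (mem_lbox.1 ht)
    rw [sh, sh, ham, Op.dot_sum]
    refine sum_congr rfl fun x _ => ?_
    have e2 : t.1 + up O.l y - up O.l (y + x) = t.1 + up O.l (-x) := by
      rw [up_add, up_neg]; abel
    have e3 : t.1 + up O.l (-x) + up O.l (y + x) = t.1 + up O.l y := by
      rw [up_add, up_neg]; abel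
    have e4 : Ay O.l (y + x) W A' (t.1 + up O.l (-x), t.2) =
        adq (cmb star (sh (y + x) W) (-x)) (A' (t.1 + up O.l y, t.2)) := by
      simp only [Ay, adF, sh, h0, e3]
    simp only [g, h0, e2, ← dot_adq, e4]
  rw [sum_congr rfl fun y _ => sum_congr rfl (e1 y)]
  simp only [cx_eq h, Op.sum_fb]
  rw [sum_congr rfl fun y _ => sum_comm, sum_comm, sum_comm (s := domv n)]
  refine sum_nbij' (fun x => -x) (fun x => -x) (fun _ => neg_mem_box) (fun _ => neg_mem_box)
    (fun _ _ => neg_neg _) (fun _ _ => neg_neg _) fun x _ => ?_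
  exact sum_dom_add hn (g := fun y => ∑ t ∈ lbox O.l, g y (t.1 + up O.l (-x), t.2))
    (fun y v => by simp only [g, Ay_per hW hA, Ay_per hW hA']) x

/-- the total quadratic form -/
def QQ (O : Od) (n : Fin 4 → ℕ) (W : Cf) (A' A : Fld) : ℂ :=
  ∑ y ∈ domv n, cx O.h (Ay O.l y W A') (Ay O.l y W A)

theorem bp_top (h : O.Ok c) (hn : ∀ i, Odd (n i)) (hH : PerS n H) (hW : PerV n W)
    (hA : PerV (fi O.l n) A) (hA' : PerV (fi O.l n) A') : bp n O.l A' (O.top H W A) =
      bp n O.l (pj O.l H A') A - (O.Λ : ℂ)⁻¹ * O.QQ n W (pj O.l H A') (pj O.l H A) := by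
  rw [top, bp_pj, QQ, ← regroup h hn hW (pj_per hH hA) (pj_per hH hA')]
  exact ((bpL n O.l _).map_sub _ _).trans (congrArg _ ((bpL n O.l _).map_smul _ _))

theorem top_symm (h : O.Ok c) (hn : ∀ i, Odd (n i)) (hH : PerS n H) (hW : PerV n W)
    (hA : PerV (fi O.l n) A) (hA' : PerV (fi O.l n) A') :
    bp n O.l A' (O.top H W A) = bp n O.l (O.top H W A') A := by
  rw [bp_comm (A := A), bp_top h hn hH hW hA hA', bp_top h hn hH hW hA' hA, ← bp_pj, bp_comm]
  simp only [QQ, cx_symm h.symm (Ay _ _ _ (pj O.l H A'))]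

theorem bp_pol (h : O.Ok c) (hn : ∀ i, Odd (n i)) (hH : PerS n H) (hW : PerV n W)
    (hA : PerV (fi O.l n) A) (hA' : PerV (fi O.l n) A') :
    bp n O.l A' (O.pol p H W A) = bp n O.l (O.pol p H W A') A := by
  induction p using Polynomial.induction_on generalizing A A' with
  | C a =>
    rw [← mul_one (C a), ← smul_eq_C_mul, pol_smul, pol_smul, pol_one, pol_one, bp_comm (A := A)]
    exact ((bpL n O.l _).map_smul _ _).trans ((congrArg _ (bp_pj.trans bp_comm)).trans
      ((bpL n O.l _).map_smul _ _).symm)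
  | add p q hp hq =>
    rw [pol_add, pol_add, bp_comm (A := A)]
    exact ((bpL n O.l _).map_add _ _).trans ((congrArg₂ _ ((hp hA hA').trans bp_comm)
      ((hq hA hA').trans bp_comm)).trans ((bpL n O.l _).map_add _ _).symm)
  | monomial k a ih =>
    rw [pow_succ, ← mul_assoc, pol_mul, ih (pol_per hH hW hA) hA', pol_X,
      top_symm h hn hH hW hA (pol_per hH hW hA'), mul_comm _ X, pol_mul (p := X), pol_X]

theorem quad_id (h : O.Ok c) (hn : ∀ i, Odd (n i)) (hH : PerS n H) (hW : PerV n W)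
    (hA : PerV (fi O.l n) A) :
    ∑ y ∈ domv n, cx O.h (Ay O.l y W (O.pol (pP O.N) H W A)) (Ay O.l y W (O.pol (pP O.N) H W A)) =
      O.Λ * ∑ y ∈ domv n, ∑ t ∈ lbox O.l,
        dot (sh (up O.l y) A t) (sh (up O.l y) (pj O.l H A - O.pol (pU O.N) H W A) t) := by
  have hP := pol_per (p := pP O.N) hH hW hA
  have h1 := bp_top h hn hH hW hP hP
  have h2 : pj O.l H A - O.pol (pU O.N) H W A = O.pol (pP O.N) H W
      (O.pol (pP O.N) H W A - O.top H W (O.pol (pP O.N) H W A)) := by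
    rw [← pol_one (W := W), ← pol_sub, ← pol_X, ← pol_mul, ← pol_sub, ← pol_mul, pU]
    congr 1
    ring
  have h3 : (O.Λ : ℂ) ≠ 0 := by
    rw [h.lam]
    exact Complex.ofReal_ne_zero.2 (pow_ne_zero _ (Nat.cast_ne_zero.2 (LL_pos _).ne'))
  rw [pj_pol] at h1
  change O.QQ n W _ _ = O.Λ * bp n O.l A _
  rw [h2, bp_pol h hn hH hW (fun v => by
    rw [show ∀ a b : Fld, sh (pv (fi O.l n) v) (a - b) = sh _ a - sh _ b from fun _ _ => rfl, hP v,
      top_per hH hW hP v]) hA]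
  refine Eq.symm ((congrArg _ ((bpL n O.l _).map_sub _ _)).trans ?_)
  change (O.Λ : ℂ) * (bp _ _ _ _ - bp _ _ _ _) = _
  rw [h1, sub_sub_cancel, mul_inv_cancel_left₀ h3]

end Od

/-- the Euclidean space of the fluctuation variables -/
abbrev HH (n : Fin 4 → ℕ) (l : ℕ) (H : Set St) := PiLp 2 fun _ : alk n l H => E3

theorem mem_alk : f ∈ alk n l H ↔ f.1 ∈ domv (fi l n) ∧ Act l H f := by simp [alk]

theorem rcv_alk (hn : ∀ i, Odd (n i)) (hH : PerS n H) :
    (rcv (fi l n) f.1, f.2) ∈ alk n l H ↔ Act l H f := by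
  obtain ⟨v, hv⟩ := rcv_spec (fi l n) f.1
  rw [mem_alk, and_iff_right (rcv_mem (odd_fi hn l) _), ← hH.act _ v, ← hv]

section exa

variable {α : Type} {o : α} {u : alk n l H → α}

theorem exa_per : PerV (fi l n) (exa n l H o u) := fun v => by
  funext f
  simp only [sh, exa, rcv_add]

theorem exa_coe (hn : ∀ i, Odd (n i)) (i : alk n l H) : exa n l H o u i = u i := by
  have := rcv_eq (odd_fi hn l) (mem_alk.1 i.2).1
  simp only [exa, this, Prod.mk.eta, i.2, dif_pos]

theorem exa_not (hn : ∀ i, Odd (n i)) (hH : PerS n H) (hf : ¬ Act l H f) : exa n l H o u f = o :=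
  dif_neg fun h => hf ((rcv_alk hn hH).1 h)

theorem exa_act (hn : ∀ i, Odd (n i)) (hH : PerS n H) (hf : Act l H f) :
    exa n l H o u f = u ⟨_, (rcv_alk hn hH).2 hf⟩ := dif_pos _

end exa

theorem sum_alk {M : Type} [AddCommMonoid M] (hn : ∀ i, Odd (n i)) {Φ : Lk → M}
    (h : ∀ f, ¬ Act l H f → Φ f = 0) :
    ∑ i : alk n l H, Φ i = ∑ y ∈ domv n, ∑ t ∈ lbox l, Φ (t.1 + up l y, t.2) := by
  classical
  rw [sum_coe_sort, ← sum_fine hn, alk, sum_filter_of_ne fun f _ hf => by_contra fun h' => hf (h f h')]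

def emb (n : Fin 4 → ℕ) (l : ℕ) (H : Set St) : HH n l H →ₗ[ℝ] Fld where
  toFun z f := cE (exa n l H 0 z.ofLp f)
  map_add' z z' := by
    funext f
    simp only [exa, Pi.add_apply]
    split_ifs <;> simp [cE_add]
  map_smul' c z := by
    funext f
    simp only [exa, Pi.smul_apply]
    split_ifs <;> simp [cE_smul]

def res (n : Fin 4 → ℕ) (l : ℕ) (H : Set St) : Fld →ₗ[ℝ] HH n l H where
  toFun A := WithLp.toLp 2 fun i => Op.reE (A i)
  map_add' A B := by ext i k; simp [Op.reE]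
  map_smul' c A := by ext i k; simp [Op.reE]

variable {z z' : HH n l H}

theorem emb_apply (f : Lk) : emb n l H z f = cE (exa n l H 0 z.ofLp f) := rfl

theorem emb_coe (hn : ∀ i, Odd (n i)) (i : alk n l H) : emb n l H z i = cE (z i) := by
  rw [emb_apply, exa_coe hn]

theorem emb_not (hn : ∀ i, Odd (n i)) (hH : PerS n H) (hf : ¬ Act l H f) : emb n l H z f = 0 := by
  rw [emb_apply, exa_not hn hH hf, cE_zero]

theorem pj_emb (hn : ∀ i, Odd (n i)) (hH : PerS n H) : pj l H (emb n l H z) = emb n l H z :=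
  pj_of fun _ => emb_not hn hH

theorem emb_real : RealF (emb n l H z) := fun _ _ => Op.cE_im _ _

theorem emb_per : PerV (fi l n) (emb n l H z) := exa_per.map cE

theorem emb_res (hn : ∀ i, Odd (n i)) (hH : PerS n H) (h1 : RealF A) (h3 : PerV (fi l n) A) :
    emb n l H (res n l H A) = pj l H A := by
  funext f
  by_cases hf : Act l H f
  · obtain ⟨v, hv⟩ := rcv_spec (fi l n) f.1
    rw [emb_apply, exa_act hn hH hf, pj_act hf]
    refine (Op.cE_reE (h1 _)).trans ?_
    rw [← h3.app _ v, ← hv]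
  · rw [emb_not hn hH hf, pj_not hf]

theorem inner_emb (hn : ∀ i, Odd (n i)) (hH : PerS n H) :
    ((⟪z', z⟫_ℝ : ℝ) : ℂ) = bp n l (emb n l H z') (emb n l H z) := by
  refine Eq.trans ?_ (sum_alk hn (Φ := fun f => dot (emb n l H z' f) (emb n l H z f))
    fun f hf => by rw [emb_not hn hH hf, zero_dot])
  simp only [emb_coe hn, dot_cE, PiLp.inner_apply (f := fun _ : alk n l H => E3)]
  push_cast
  rfl

namespace Od

variable {z z' : HH n O.l H}

/-- the operator on the torus -/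
def TT (O : Od) (n : Fin 4 → ℕ) (H : Set St) (W : Conf) : HH n O.l H →ₗ[ℝ] HH n O.l H :=
  res n O.l H ∘ₗ (O.topL H (cC W)).restrictScalars ℝ ∘ₗ emb n O.l H

theorem emb_TT (hn : ∀ i, Odd (n i)) (hH : PerS n H) (hW : PerV n W0) :
    emb n O.l H (O.TT n H W0 z) = O.top H (cC W0) (emb n O.l H z) := by
  have : O.TT n H W0 z = res n O.l H (O.top H (cC W0) (emb n O.l H z)) := by
    rw [← topL_apply]; rfl
  rw [this, emb_res hn hH (top_real emb_real) (top_per hH hW.cC emb_per), pj_top]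

theorem emb_aeval (hn : ∀ i, Odd (n i)) (hH : PerS n H) (hW : PerV n W0) (q : ℝ[X]) :
    emb n O.l H (aeval (O.TT n H W0) q z) =
      O.pol (q.map (algebraMap ℝ ℂ)) H (cC W0) (emb n O.l H z) := by
  have h1 : ∀ k : ℕ, emb n O.l H ((O.TT n H W0 ^ k) z) = (O.top H (cC W0))^[k] (emb n O.l H z) :=
    fun k => by
    induction k with
    | zero => simp
    | succ k ih =>
      rw [pow_succ', Module.End.mul_apply, emb_TT hn hH hW, ih, Function.iterate_succ_apply']
  rw [pol_eq, pj_emb hn hH]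
  induction q using Polynomial.induction_on' with
  | add p q hp hq => simp only [map_add, Polynomial.map_add, LinearMap.add_apply, hp, hq]
  | monomial k a =>
    simp only [aeval_monomial, map_monomial, Module.End.mul_apply, Module.algebraMap_end_apply,
      map_smul, h1, topL_pow, algebraMap_smul]

theorem inner_TT (h : O.Ok c) (hn : ∀ i, Odd (n i)) (hH : PerS n H) (hW : PerV n W0) :
    ⟪z', O.TT n H W0 z⟫_ℝ =
      ⟪z', z⟫_ℝ - (O.QQ n (cC W0) (emb n O.l H z') (emb n O.l H z)).re / O.Λ := by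
  have := inner_emb (z' := z') (z := O.TT n H W0 z) hn hH
  rw [emb_TT hn hH hW, bp_top h hn hH hW.cC emb_per emb_per, pj_emb hn hH, pj_emb hn hH,
    ← inner_emb hn hH, ← Complex.ofReal_inv] at this
  have := congrArg Complex.re this
  rw [Complex.ofReal_re, Complex.sub_re, Complex.ofReal_re, Complex.re_ofReal_mul] at this
  rw [this, div_eq_inv_mul]

theorem TT_symm (h : O.Ok c) (hn : ∀ i, Odd (n i)) (hH : PerS n H) (hW : PerV n W0) :
    (O.TT n H W0).IsSymmetric := fun z z' => by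
  rw [real_inner_comm, inner_TT h hn hH hW, inner_TT h hn hH hW, real_inner_comm z z']
  simp only [QQ, cx_symm h.symm (Ay _ _ _ (emb n O.l H z))]

end Od

end Pool.Agent.Lib.MP_7f377f_mp.RG.Q4
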