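import Pool.Agent.Lib.MP_7f377f_mp.Q4Pos
import Pool.Agent.Lib.MP_7f377f_mp.Q4EStC

/-! Slowly varying multiples of a direction, for all scales of the activities. -/

noncomputable section

namespace Pool.Agent.Lib.MP_7f377f_mp.RG.Q4.En.Pos

open Finset Real
open scoped Classical

variable {S : Sd} {x y u ω ω0 ω' N N' E A a : ℝ} {ψ φ φ' : Lx} {K J J' : Ac} {d : Mj} {F : St → ℂ}

/-- base points for directions of scale `ω` -/
structure Tg (S : Sd) (ω : ℝ) (ψ : Lx) (K : Ac) : Prop where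
  rm : Rm S ψ K
  lo : √S.g ≤ ω
  hi : S.Q ^ 100 * ω ≤ 1
  maj : ∀ d x y, kN S.p S.nf d (ω * y * S.g ^ 2) → 0 ≤ x → 0 < x + y →
    ∃ m, kN S.p'.up S.n m (8 / S.Q * (ω * (x + y) * S.g ^ 2)) ∧
      ∀ φ J, Sz S.p S.nf S.QM S.g x y ω φ J → KM S.p S.nf d J → KM S.p' S.n m (dK S ψ K φ J)

theorem Bs.tg (h : S.Nu 100) (f : St2 S) (b : Bs S ψ K) : Tg S (√S.g) ψ K :=
  ⟨b.rm h, le_rfl, qsq h (by norm_num), fun _ _ _ => tan_K h f b⟩

theorem tg_of_sz (h : S.Nu 100) (f : St2 S) (z : Sz S.p S.nf S.QM S.g u u ω0 ψ K) (h1 : √S.g ≤ ω)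
    (hω : S.Q ^ 100 * ω ≤ 1) (h2 : ω0 ≤ ω) (h3 : S.Q ^ 115 * u * S.g ^ 2 ≤ ω) : Tg S ω ψ K := by
  obtain ⟨k, k1, k2⟩ := z.2
  have u0 := (z.nn h).1
  have g0 := h.ok.g0
  have Q0 := S.Q0
  have s0 := sqrt_pos.2 g0
  have ω0 := s0.trans_le h1
  have a0 : ∀ {i j : ℕ} {t : ℝ}, i < j → 0 ≤ t → 1000 * (S.Q ^ i * t) ≤ S.Q ^ j * t :=
    fun e t0 => (mul_assoc _ _ _).ge.trans (mul_le_mul_of_nonneg_right (qpw h e) t0)
  have a1 := qsq h (i := 102) (by norm_num)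
  have a2 : ω ≤ 1 / 1000 := by linarith [qom h hω (i := 0) (by norm_num)]
  obtain ⟨b, hb⟩ : ∃ b, ω = S.Q ^ 102 * b := ⟨ω / S.Q ^ 102, by field_simp⟩
  have b0 : 0 < b := (mul_pos_iff_of_pos_left (pow_pos Q0 102)).1 (hb ▸ ω0)
  have B : Bl S b (S.Q ^ 92 * b ^ 2) := by
    refine ⟨le_of_mul_le_mul_left ?_ (pow_pos Q0 102), ?_, ?_, ?_⟩
    · have := mul_le_mul a1 h1 s0.le zero_le_one
      rwa [mul_assoc, mul_self_sqrt g0.le, one_mul, hb] at this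
    · linarith [a0 (i := 91) (j := 92) (by norm_num) (sq_nonneg b),
        mul_nonneg (pow_pos Q0 91).le (sq_nonneg b)]
    · linarith [a0 (i := 100) (j := 102) (by norm_num) b0.le]
    · have := a0 (i := 192) (j := 204) (by norm_num) (sq_nonneg b)
      have e : S.Q ^ 204 * b ^ 2 = ω ^ 2 := by rw [hb]; ring
      nlinarith
  have v0 : 0 ≤ u * S.g ^ 2 := by positivity
  have w : 1000 * (S.Q ^ 10 * u * S.g ^ 2) ≤ b := le_of_mul_le_mul_left (by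
    linarith [a0 (i := 112) (j := 115) (by norm_num) v0]) (pow_pos Q0 102)
  have w1 : 1000 * (ω * u * S.g ^ 2) ≤ S.Q ^ 92 * b ^ 2 := by
    have := mul_le_mul_of_nonneg_left w (mul_pos (pow_pos Q0 92) b0).le
    rw [hb]
    linarith
  have hω0 := (mul_le_mul_of_nonneg_left h2 (pow_pos Q0 100).le).trans hω
  have c1 := mul_pos (pow_pos Q0 100) b0
  have c2 := mul_pos (pow_pos Q0 100) (mul_pos (pow_pos Q0 92) (pow_pos b0 2))
  have s : S.Sml b (S.Q ^ 92 * b ^ 2) k ψ K := ⟨by linarith [B.b_le], by linarith [B.θ_le],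
    pu_mono (z.pu h hω0) (by linarith [mul_nonneg (pow_pos Q0 10).le v0]), k1,
    k2.mono (by linarith [mul_le_mul_of_nonneg_right h2 v0, mul_nonneg ω0.le v0])⟩
  refine ⟨⟨_, _, k, s, by linarith [B.b_le], by linarith [B.θ_le]⟩, h1, hω, fun d x y d2 x0 h0 => ?_⟩
  obtain ⟨e, he⟩ : ∃ e, e = S.Q ^ 10 * (x + y) * S.g ^ 2 / b := ⟨_, rfl⟩
  have e0 : 0 < e := by rw [he]; positivity
  have e1 : e * (S.Q ^ 92 * b ^ 2) = ω * (x + y) * S.g ^ 2 := by rw [he, hb]; field_simp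
  obtain ⟨m, m1, m2⟩ := lipK h f B s.kn (d := d) (e := e) (d2.mono (by rw [e1]; gcongr; linarith)) e0
  exact ⟨e • m, (m1.smul e0.le).mono (le_of_eq (by rw [← e1]; ring)), fun φ J z' d1 =>
    (m2 ψ K φ J s (pu_mono (z'.pu h hω) (by rw [he]; field_simp; rfl)) d1).1⟩

theorem Tg.nn (b : Tg S ω ψ K) : 0 ≤ ω := (sqrt_nonneg _).trans b.lo

theorem Tg.dir (h : S.Nu 100) (b : Tg S ω ψ K) (z : Sz S.p S.nf S.QM S.g x y ω φ J) : Dir S φ J :=
  let ⟨k, k1, k2⟩ := z.2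
  ⟨_, _, k, z.pu h b.hi, k1, k2⟩

theorem Tg.pl (h : S.Nu 100) (f : St2 S) (b : Tg S ω ψ K) (z : Sz S.p S.nf S.QM S.g x y ω φ J)
    (e : ω ≤ ω') : PM S.p' (x + S.Q ^ 50 * ω * (x + y)) (S.Q ^ 2 * (S.cr * (x + y)))
      (S.Q ^ 50 * ω' * (S.cr * (x + y)) * S.g' ^ 2) (S.PL φ J) := fun v => by
  obtain ⟨x0, y0⟩ := z.nn h
  have a := lin_step_c h f z b.lo b.hi v
  have := h.ok.gg'
  have := h.ok.g0
  have := S.Q0
  have := cr_pos h
  have := b.nn.trans e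
  exact ⟨a.1.mono' (rho'_pos h) le_rfl le_rfl (by gcongr), a.2⟩

theorem Tg.step (h : S.Nu 100) (f : St2 S) (b : Tg S ω ψ K) (z : Sz S.p S.nf S.QM S.g x y ω φ J)
    (h0 : 0 < x + y) (e : ω ≤ ω') : Sz S.p' S.n S.Q S.g' (x + S.Q ^ 50 * ω * (x + y))
      (S.cr * (x + y)) ω' (S.PL φ J) (dK S ψ K φ J) := by
  obtain ⟨k, k1, k2⟩ := z.2
  obtain ⟨m, m1, m2⟩ := b.maj _ _ _ k2 (z.nn h).1 h0
  have := h.ok.gg'
  have := h.ok.g0
  have := cr_pos h
  have := b.nn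
  have := b.nn.trans e
  refine ⟨b.pl h f z e, m, m2 φ J z k1, (kN_up m1).mono ?_⟩
  calc _ ≤ S.cr * (ω' * (x + y) * S.g' ^ 2) := by
        gcongr
        rw [div_le_iff₀' S.Q0]
        linarith [cr_Q h]
    _ = _ := by ring

theorem Tg.drift (h : S.Nu 100) (b : Tg S ω ψ K) (N0 : 0 ≤ N) :
    N + S.Q ^ 50 * ω * (N + N) ≤ 1.01 * N ∧ S.cr * (N + N) ≤ N / 100 :=
  ⟨by nlinarith [qom h b.hi (i := 50) (by norm_num)], by nlinarith [cr_le h]⟩

theorem Tg.step1 (h : S.Nu 100) (f : St2 S) (b : Tg S ω ψ K) (z : Sz S.p S.nf S.QM S.g N N ω φ J)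
    (N0 : 0 < N) (e : ω ≤ ω') :
    Sz S.p' S.n S.Q S.g' (1.01 * N) (1.01 * N) ω' (S.PL φ J) (dK S ψ K φ J) :=
  sz_mono (rho'_pos h) S.Q0.le (b.nn.trans e) (b.step h f z (by linarith) e) (b.drift h N0.le).1
    (by linarith [(b.drift h N0.le).2])

/-- the tangent map almost commutes with slowly varying factors -/
theorem comm_step_w (h : S.Nu 100) (f : St2 S) (b : Tg S ω ψ K)
    (z : Sz S.p S.nf S.QM S.g N N ω φ J) (N0 : 0 < N)
    (hF : ∀ x, ‖F x‖ ≤ A) (hL : LipT S.nf a F) (a0 : 0 < a) (eω : ω ≤ ω') :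
    Sz S.p' S.n S.Q S.g' (3 * S.D0 * (S.L * a) * N) (3 * S.D0 * (S.L * a) * N) ω'
      (S.PL (mL F φ) (mA F J) - mL (fun y => F (up S.l y)) (S.PL φ J))
      (dK S ψ K (mL F φ) (mA F J) - mA (fun y => F (up S.l y)) (dK S ψ K φ J)) := by
  have ρ0 := rho_pos h
  have d1 := b.dir h z
  have d2 := b.dir h (sz_mul ρ0 z hF)
  have D1 : (1 : ℝ) ≤ S.D0 := by exact_mod_cast Sd.D1 S.toTd
  have η0 := mul_pos (Sd.L0 S.toTd) a0
  have gg := h.ok.gg'
  have g0 := h.ok.g0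
  have Q0 := S.Q0
  have ω0 := b.nn
  have ω1 := ω0.trans eω
  obtain ⟨η, hη⟩ : ∃ η, η = S.L * a := ⟨_, rfl⟩
  rw [← hη] at η0 ⊢
  refine ⟨fun y => ?_, ?_⟩
  · have hy := rc_mem h.ok.odd y
    have A0 : 0 ≤ η * (S.D0 + 1) * N := by positivity
    have A1 : η * (S.D0 + 1) * N ≤ 2 * S.D0 * η * N := by nlinarith [mul_pos η0 N0]
    have A2 : 0 ≤ S.D0 * η * N := by positivity
    have q := b.pl h f (sz_mul ρ0 z (hη ▸ vr_le hL a0.le (Y := tb S.n S.D0 {rc S.n y}) (y := y)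
      fun w hw => nearT_rc_left.1 (mem_tb_single.1 hw).2)) eω (rc S.n y)
    have e : (S.PL (mL F φ) (mA F J) - mL (fun y => F (up S.l y)) (S.PL φ J)) y = _ :=
      (congrFun (pl_sub f d2 d1 (F (up S.l y))) y).symm.trans
        ((congrArg₂ S.Pl (Sh.trL_up_rc _ _ _ _).symm
          (Sh.trA_up_rc _ _ _ _).symm).trans
          (Sh.Pl_ag (Sh.ag0 (vr_ag h _ _) (h.mono (Nat.zero_le _)) hy Subset.rfl)))
    rw [e]
    exact ⟨q.1.mono' (rho'_pos h) ((b.drift h A0).1.trans (by linarith))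
      (by gcongr _ * ?_; linarith [(b.drift h A0).2])
      (by gcongr _ * ?_ * _; linarith [(b.drift h A0).2]), q.2⟩
  obtain ⟨k, k1, k2⟩ := z.2
  obtain ⟨m, m1, m2⟩ := b.maj _ _ _ k2 N0.le (add_pos N0 N0)
  obtain ⟨-, _, j1, -⟩ := b.step h f (sz_mul ρ0 z fun x => (hF x).trans (le_max_left _ 1))
    (by positivity) eω
  have j := j1.sub (km_mA (m2 φ J z k1) fun y => F (up S.l y))
  refine ⟨fun Y c => η * (((tau S.n S.p'.D Y + 2) * S.p'.D : ℕ) + 1) * m Y c,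
    ⟨j.meas, j.per, j.dep, j.gi, fun Y c U hU => ?_⟩, fun Y c => ?_, fun v => ?_⟩
  · obtain ⟨R, hR⟩ : ∃ R, R = η * (((tau S.n S.p'.D Y + 2) * S.p'.D : ℕ) + 1) := ⟨_, rfl⟩
    have R0 : 0 < R := by rw [hR]; positivity
    have G1 : ∀ x, ‖(R : ℂ)⁻¹ * vr S F (F (up S.l (px Y))) Y x‖ ≤ 1 := fun x => by
      rw [norm_mul, norm_inv, Complex.norm_real, norm_of_nonneg R0.le, inv_mul_le_one₀ R0, hR, hη]
      exact vr_le hL a0.le (fun w hw => tau_diam (by have := Sd.D1 S.toTd; rw [Sd.p'_D]; omega)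
        (px_mem ⟨w, hw⟩) hw) x
    have z1 := sz_mul ρ0 z G1
    have k3 := km_mA' k1 k2.1 G1
    rw [one_mul] at z1
    rw [one_smul] at k3
    have q := ((m2 _ _ z1 k3).smul R).bd Y c U hU
    have R1 : (R : ℂ) ≠ 0 := Complex.ofReal_ne_zero.2 R0.ne'
    rw [← dK_smul, show (R : ℂ) • mL _ φ = mL (vr S F (F (up S.l (px Y))) Y) φ from
      funext fun x => by simp [mL, smul_smul, R1], show (R : ℂ) • mA _ J =
      mA (vr S F (F (up S.l (px Y))) Y) J from funext fun x => by simp [mA, smul_smul, R1],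
      ← dK_loc h ⟨fun _ _ _ => rfl, fun _ _ _ => rfl⟩ (vr_ag h _ Y),
      dK_sub h f b.rm d2 (d1.smul h _), dK_smul, Complex.norm_real, norm_of_nonneg R0.le] at q
    exact hR ▸ q
  · have := m1.1 Y c
    positivity
  · have w : ∀ Y c, η * (((tau S.n S.p'.D Y + 2) * S.p'.D : ℕ) + 1) * m Y c * wgt S.p' S.n Y c ≤
        42 * S.D0 * η * (m Y c * wgt S.p'.up S.n Y c) := fun Y c => by
      have e : wgt S.p'.up S.n Y c = exp (tau S.n S.p'.D Y) * wgt S.p' S.n Y c := by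
        rw [wgt, wgt, ← exp_add]
        exact congrArg exp (by simp only [Pa.up]; ring)
      have := m1.1 Y c
      have := add_one_le_exp (tau S.n S.p'.D Y : ℝ)
      have t0 : (0 : ℝ) ≤ tau S.n S.p'.D Y := Nat.cast_nonneg _
      have : 0 < wgt S.p' S.n Y c := exp_pos _
      rw [e]
      push_cast
      generalize (tau S.n S.p'.D Y : ℝ) = t at *
      rw [Sd.p'_D]
      push_cast
      calc _ ≤ η * (42 * S.D0 * exp t) * m Y c * wgt S.p' S.n Y c := by gcongr; nlinarith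
        _ = _ := by ring
    refine (sum_le_sum fun o _ => w o.1 o.2).trans ?_
    rw [← mul_sum]
    calc _ ≤ 42 * S.D0 * η * (8 / 1000 * (ω' * (N + N) * S.g' ^ 2)) := by
          gcongr
          refine (m1.2 v).trans ?_
          gcongr
          exact h.cQ' (by norm_num)
      _ = ω' * (0.672 * S.D0 * η * N) * S.g' ^ 2 := by ring
      _ ≤ _ := by gcongr; norm_num

/-- propagation of the distance to a slowly varying multiple of a direction -/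
theorem pos_step_w (h : S.Nu 100) (f : St2 S) (b : Tg S ω ψ K)
    (z : Sz S.p S.nf S.QM S.g N N ω φ J) (N0 : 0 < N)
    (hF : ∀ x, ‖F x‖ ≤ A) (hL : LipT S.nf a F) (a0 : 0 < a) (E0 : 0 ≤ E) (eω : ω ≤ ω')
    (e : Sz S.p S.nf S.QM S.g (E + 2 * S.QM * a * N) (E + 2 * S.QM * a * N) ω
      (φ' - mL F φ) (J' - mA F J)) :
    Sz S.p' S.n S.Q S.g' (1.01 * E + 2 * S.Q * (S.L * a) * N)
      (1.01 * E + 2 * S.Q * (S.L * a) * N) ω'
      (S.PL φ' J' - mL (fun y => F (up S.l y)) (S.PL φ J))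
      (dK S ψ K φ' J' - mA (fun y => F (up S.l y)) (dK S ψ K φ J)) := by
  have d2 := b.dir h (sz_mul (rho_pos h) z hF)
  have d3 := b.dir h e
  have M0 := one_pos.trans_le h.ok.QM1
  have d4 : Dir S φ' J' := by simpa using d3.add h d2
  have q := sz_add (rho'_pos h) (b.step1 h f e (by positivity) eω)
    (comm_step_w h f b z N0 hF hL a0 eω)
  have e1 := pl_sub f d4 d2 1
  simp only [one_smul] at e1
  rw [e1, dK_sub h f b.rm d4 d2, sub_add_sub_cancel, sub_add_sub_cancel] at q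
  suffices _ ≤ _ from sz_mono (rho'_pos h) S.Q0.le (b.nn.trans eω) q this this
  have L0 := Sd.L0 S.toTd
  have a1 : 3 * S.D0 ≤ S.Q := by
    have := h.mon (C := 3) (i := 0) (j := 1) (by norm_num) (by omega) (by omega)
    simpa using this
  have a2 : 3 * S.QM ≤ S.Q * S.L := by
    have := h.crL (C := 3) (k := 1) (by norm_num) (by omega)
    nlinarith [h.QM_le, S.Q0]
  nlinarith [mul_le_mul_of_nonneg_right a1 (by positivity : 0 ≤ S.L * a * N),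
    mul_le_mul_of_nonneg_right a2 (by positivity : 0 ≤ a * N), mul_pos M0 (mul_pos a0 N0)]

end Pool.Agent.Lib.MP_7f377f_mp.RG.Q4.En.Pos
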