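import Pool.Agent.Lib.MP_7f377f_mp.RGLinZ

/-! Higher regularity of the background field: second differences and a pointwise bound. -/

namespace Pool.Agent.Lib.MP_7f377f_mp.Lin

noncomputable section

open Finset hiding box
open Classical Function RG RG.La
open scoped InnerProductSpace Pointwise

variable {l R n k : ℕ} {m : BF} {φ : (Fin 4 → ℝ) → ℝ} {δ M C cL cU : ℝ} {sol : F1 →ₗ[ℝ] F1}

lemma star_Dm (ν : Fin 4) (f : E 4) : star (Dm ν) f = sh (-Pi.single ν 1) f - f := by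
  rw [Dm, D, dr_sub, dr_t, dr_one, star_sub, star_sh, star_one]; rfl

lemma MM_Dm {Y u : F1} (h : ∀ Φ, MM R m Y Φ = ∑ ρ, ⟪u ρ, Φ ρ⟫_ℝ) (ν : Fin 4) (Φ : F1) :
    MM R m (fun ρ => Dm ν (Y ρ)) Φ = ∑ ρ, ⟪Dm ν (u ρ), Φ ρ⟫_ℝ := by
  have e : (fun ρ => Dm ν (Y ρ)) = (fun ρ => sh (Pi.single ν 1) (Y ρ)) - Y := by
    funext ρ; simp [Dm, D, dr_sub]
  rw [e, MM_sub, MM_sh, h, h, ← sum_sub_distrib]
  refine sum_congr rfl fun ρ _ => ?_
  rw [← inner_sub_right, ← star_Dm, inner_star']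

lemma s1_d1 (Y : F1) (ν : Fin 4) : s1 φ M (d1 Y ν) ≤ s2 φ M Y :=
  single_le_sum (f := fun μ => ∑ ν, nrm φ M (d1 Y μ ν) ^ 2)
    (fun _ _ => sum_nonneg fun _ _ => sq_nonneg _) (mem_univ ν)

/-- Caccioppoli inequality with a source -/
lemma cacc (hm : Inv n R cL cU m) (hc : cL ≤ 20) (hU : cU ≤ 20) (hR : R ≤ l) (hl : 1 ≤ l)
    (hφ : Adm de φ) {Y u : F1} (h : ∀ Φ, MM R m Y Φ = ∑ ρ, ⟪u ρ, Φ ρ⟫_ℝ) (ν : Fin 4) :
    s2 φ (LL l) (fun ρ => Dm ν (Y ρ)) ≤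
      32 * GG ^ 2 * (s1 φ (LL l) u + s2 φ (LL l) Y / LL l ^ 2) := by
  have hL := LL_posR l
  have hL1 : (1 : ℝ) ≤ LL l := NN_one l
  have hG := GG_ge.1
  have hφ1 := hφ.mono de_one
  obtain ⟨f, hf⟩ : ∃ f : F1, f = d1 Y ν := ⟨_, rfl⟩
  have e : f = (fun ρ => Dm ν (Y ρ)) - d0 (Y ν) := hf
  have e2 : s2 φ (LL l) (fun ρ => Dm ν (Y ρ)) = s2 φ (LL l) f := by
    simp only [s2, e, d1_sub, d1_d0, sub_zero]
  have a1 : s1 φ (LL l) f / LL l ^ 2 ≤ s2 φ (LL l) Y / LL l ^ 2 := by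
    rw [hf]; gcongr; exact s1_d1 Y ν
  have a2 := s2_GG hm hc hl hφ1 f
  have a3 := coerG hm hU hR hφ f
  have a4 : MM R m f (ww φ (LL l) f) ≤ ∑ ρ, (4 * (nrm φ (LL l) (d1 f ν ρ) * nrm φ (LL l) (u ρ)) +
      4 * (nrm φ (LL l) (((LL l : ℝ)⁻¹ • f) ρ) * nrm φ (LL l) (u ρ))) := by
    nth_rewrite 1 [e]
    rw [MM_sub, MM_d0 hm, sub_zero, MM_Dm h]
    refine sum_le_sum fun ρ _ => ?_
    have k1 := (abs_le.1 ((cm_D hL1 ν).star de φ de_one hφ (u ρ) (f ρ))).2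
    have k2 := le_of_abs_le (hφ.inner_ww_le (LL l) (u ρ) (star (dr ν D) (f ρ)))
    have k3 : nrm φ (LL l) (star (dr ν D) (f ρ)) ≤ 4 * nrm φ (LL l) (d1 f ν ρ) := by
      have e3 : d1 f ν ρ = Dm ν (f ρ) := by simp [d1, hf]
      have e4 : star (dr ν D) (f ρ) = -(dr ν (t (-1)) (Dm ν (f ρ))) := by
        rw [star_dr, bar_D, dr_neg, dr_mul]; rfl
      rw [e4, nrm_neg, e3]
      exact (gd_t hL ν (-1) (by simpa using hL1)).bd φ hφ1 _
    have n1 := nrm_nonneg (φ := φ) (N := LL l) (u ρ)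
    have n2 := nrm_nonneg (φ := φ) (N := LL l) (f ρ)
    have k4 := mul_le_mul_of_nonneg_right de_one (show 0 ≤ 4 / (LL l : ℝ) * nrm φ (LL l) (u ρ) *
      nrm φ (LL l) (f ρ) by positivity)
    rw [inner_star'] at k1
    rw [Pi.smul_apply, nrm_smul, abs_of_pos (by positivity)]
    change ⟪dr ν D (u ρ), wt φ (LL l) (wt φ (LL l) (f ρ))⟫_ℝ ≤ _
    rw [div_eq_mul_inv] at k1 k4
    nlinarith [mul_le_mul_of_nonneg_left k3 n1]
  rw [sum_add_distrib, ← mul_sum, ← mul_sum] at a4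
  have a5 := sum_amgm (φ := φ) (ψ := φ) (M := LL l) (M' := LL l)
    (by positivity : 0 < (8 * GG)⁻¹) (d1 f ν) u
  have a6 := sum_amgm (φ := φ) (ψ := φ) (M := LL l) (M' := LL l) one_pos ((LL l : ℝ)⁻¹ • f) u
  rw [s1_smul, inv_pow, inv_mul_eq_div, one_mul, div_one] at a6
  rw [div_inv_eq_mul] at a5
  have e0 := EW_nonneg (φ := φ) (M := LL l) hm f
  have u0 := s1_nonneg (φ := φ) (M := LL l) u
  have y0 : 0 ≤ s1 φ (LL l) f / LL l ^ 2 := div_nonneg (s1_nonneg _) (sq_nonneg _)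
  have a7 : (8 * GG)⁻¹ * s1 φ (LL l) (d1 f ν) ≤ EW m φ (LL l) f / 8 := by
    rw [inv_mul_le_iff₀ (by positivity)]; linarith [s1_d1 (φ := φ) (M := LL l) f ν]
  have a8 : de * (GG / 2 * (EW m φ (LL l) f + s2 φ (LL l) f + s1 φ (LL l) f / LL l ^ 2)) ≤
      EW m φ (LL l) f / 16 + s1 φ (LL l) f / LL l ^ 2 := by
    rw [de, inv_mul_le_iff₀ (by positivity)]
    have g2 : GG ≤ GG ^ 2 := le_self_pow₀ hG two_ne_zero
    have g3 : GG ^ 2 ≤ GG ^ 3 := pow_le_pow_right₀ hG (by norm_num)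
    nlinarith [mul_le_mul_of_nonneg_left a2 (by linarith : 0 ≤ GG),
      mul_le_mul_of_nonneg_right g2 e0, mul_le_mul_of_nonneg_right g3 e0,
      mul_le_mul_of_nonneg_right (g2.trans g3) y0, mul_nonneg (by positivity : 0 ≤ GG ^ 3) y0]
  have a9 : EW m φ (LL l) f ≤ 32 * GG * (s1 φ (LL l) u + s2 φ (LL l) Y / LL l ^ 2) := by
    nlinarith [mul_le_mul_of_nonneg_right hG u0, mul_le_mul_of_nonneg_right hG (y0.trans a1)]
  rw [e2]
  nlinarith [mul_le_mul_of_nonneg_left a9 (by linarith : 0 ≤ GG)]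

/-- first and second differences of the curvature of the minimiser -/
theorem agmon2 (hm : Inv n R cL cU m) (hc : cL ≤ 20) (hU : cU ≤ 20) (hR : R ≤ l) (hl : 1 ≤ l)
    {A B : F1} (hA : WE l R m A B) (hg : d0 (gl l A) = 0) (hφ : Adm de φ) (μ ν : Fin 4) :
    s2 φ (LL l) (fun ρ => Dm μ (A ρ)) ≤ GG ^ 6 * (s1 φ 1 B / LL l ^ 2) ∧
      s2 φ (LL l) (fun ρ => Dm ν (Dm μ (A ρ))) ≤ GG ^ 9 * (s1 φ 1 B / LL l ^ 3) := by
  have hL := LL_posR l
  have hL1 : (1 : ℝ) ≤ LL l := NN_one l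
  obtain ⟨hG, hG2, hG3, hG4⟩ := GG_ge
  have hK := KK_one
  have hφ1 := hφ.mono de_one
  obtain ⟨J, hJ⟩ : ∃ J : F1, J = (LL l : ℝ) ^ 2 • (B - QQ l A) := ⟨_, rfl⟩
  obtain ⟨he, -, hj⟩ := agmon hm hc hU hR hl hA hg hφ
  rw [← hJ] at hj
  have b0 := s1_nonneg (φ := φ) (M := 1) B
  have we : ∀ Φ, MM R m A Φ = ∑ ρ, ⟪star (QT l {ρ}) (J ρ), Φ ρ⟫_ℝ := fun Φ => by
    simp only [hA.eq hJ, inner_star, QQ]
  have h1 := s1_op (fun ρ => (gd_Q (l := l) ρ).star.bd) hφ1 J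
  have h2 : s1 φ (LL l) (fun ρ => Dm μ (star (QT l {ρ}) (J ρ))) ≤
      (KK * √(LL l) / LL l ^ 2) ^ 2 * s1 φ 1 J := by
    have := s1_op (fun ρ => ((gd_QD ρ μ (p := -t (-1)) (by
      rw [dr_neg]; exact (gd_tl μ (by simpa using hl)).neg)).mono (C' := KK * √(LL l) / LL l ^ 2) (by
      rw [sd_four, mul_div_assoc, show (NN l : ℝ) = LL l from rfl]
      gcongr; norm_num [KK])).star.bd) hφ1 J
    rw [show D * -t (-1) = bar D by rw [bar_D]; ring, ← star_dr] at this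
    simp only [star_mul, star_star] at this
    exact this
  have h3 := cacc hm hc hU hR hl hφ we μ
  have h4 := cacc hm hc hU hR hl hφ (MM_Dm we μ) ν
  have h5 := (s2_GG hm hc hl hφ1 A).trans he
  rw [div_pow, mul_pow, Real.sq_sqrt hL.le] at h2
  have k2 : KK ^ 2 ≤ GG := by nlinarith
  have a1 : s2 φ (LL l) (fun ρ => Dm μ (A ρ)) ≤ GG ^ 6 * (s1 φ 1 B / LL l ^ 2) := by
    refine h3.trans ?_
    calc _ ≤ 32 * GG ^ 2 * ((KK / LL l) ^ 2 * (4 * GG ^ 2 * s1 φ 1 B) +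
          4 * GG ^ 2 * s1 φ 1 B / LL l ^ 2) := by gcongr; exact h1.trans (by gcongr)
      _ = 128 * (KK ^ 2 + 1) * GG ^ 4 * (s1 φ 1 B / LL l ^ 2) := by ring
      _ ≤ GG ^ 2 * GG ^ 4 * (s1 φ 1 B / LL l ^ 2) := by gcongr; nlinarith
      _ = _ := by ring
  refine ⟨a1, h4.trans ?_⟩
  calc _ ≤ 32 * GG ^ 2 * (KK ^ 2 * LL l / (LL l ^ 2) ^ 2 * (4 * GG ^ 2 * s1 φ 1 B) +
        GG ^ 6 * (s1 φ 1 B / LL l ^ 2) / LL l ^ 1) := by
        gcongr
        · exact h2.trans (by gcongr)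
        · norm_num
    _ = 32 * (4 * KK ^ 2 + GG ^ 4) * GG ^ 4 * (s1 φ 1 B / LL l ^ 3) := by field_simp
    _ ≤ GG ^ 5 * GG ^ 4 * (s1 φ 1 B / LL l ^ 3) := by
        gcongr
        have : GG ≤ GG ^ 4 := le_self_pow₀ hG (by norm_num)
        nlinarith [pow_pos (show 0 < GG by linarith) 4]
    _ = _ := by ring

lemma gd_Rk {s : ℕ} (hs : s ≤ LL l) (μ : Fin 4) :
    Gd (LL l) (LL l) (dr μ (Lin.R s) : Op 4) (4 * s) := by
  rw [Lin.R, dr_sum]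
  refine (Gd.sum (range s) fun r hr => gd_t (LL_posR l) μ r ?_).mono (by simp [mul_comm])
  rw [Int.cast_natCast, Nat.abs_cast]
  exact_mod_cast (mem_range.1 hr).le.trans hs

/-- the average of three translates -/
def M3 (s : ℕ) : P := (3 : ℝ)⁻¹ • (t (-(s : ℤ)) + 1 + t (s : ℤ))

lemma gd_M3 {s : ℕ} (hs : s ≤ LL l) (μ : Fin 4) : Gd (LL l) (LL l) (dr μ (M3 s) : Op 4) 3 := by
  have h : (s : ℝ) ≤ LL l := by exact_mod_cast hs
  rw [M3, dr_smul, dr_add, dr_add, dr_one]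
  exact ((((gd_t (LL_posR l) μ _ (by simpa)).add gd_one).add
    (gd_t (LL_posR l) μ _ (by simpa))).smul _).mono (by norm_num [abs_of_pos])

lemma M3_eq (s : ℕ) :
    M3 s = 1 + (3 : ℝ)⁻¹ • (t (-(s : ℤ)) * Lin.R s * Lin.R s * (D * D)) := by
  have h : t (-(s : ℤ)) * Lin.R s * Lin.R s * (D * D) = t (-(s : ℤ)) + t (s : ℤ) - 1 - 1 := by
    rw [show t (-(s : ℤ)) * Lin.R s * Lin.R s * (D * D) =
      t (-(s : ℤ)) * (Lin.R s * D) * (Lin.R s * D) by ring, R_D]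
    linear_combination (t (s : ℤ) - 2) * t_neg s
  rw [h, M3]
  module

lemma Sc_three (s : ℕ) : Sc (3 * s + 1) = Sc s * M3 (NN s) := by
  have h := dil_S (NN_pos s) 3
  have e : dil (NN s) (S 3) = (3 : ℝ)⁻¹ • (1 + t (NN s : ℤ) + t (NN s : ℤ) * t (NN s : ℤ)) := by
    simp [S, Lin.R, sum_range_succ, dil, ← t_add, mul_two]
  rw [Sc, Sc, show NN (3 * s + 1) = NN s * 3 by unfold NN; ring, ← h, e, M3,
    show (-((3 * s + 1 : ℕ) : ℤ)) = -(s : ℤ) + -(NN s : ℤ) by unfold NN; push_cast; ring, t_add]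
  simp only [smul_mul_assoc, mul_smul_comm]
  congr 1
  linear_combination t (-(s : ℤ)) * S (NN s) * (1 + t (NN s : ℤ)) * t_neg (NN s)

/-- box average -/
def KA (s : ℕ) : Op 4 := ev (∏ μ, emb μ (Sc s))

lemma KA_le {K : ℝ} (hK : 0 ≤ K) {s : ℕ} (hs : s ≤ l) (f : E 4) {x : St} (hx : x ∈ box l) :
    |KA s f x| ≤ 81 / LL s ^ 2 * nrm (rad K) (LL l) f := by
  have h0 := LL_posR s
  have h1 := wsum ((adm_rad hK).mono de_one) (fun x => sq_nonneg (f x))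
    (hasSum_nrm (M := LL l) (adm_rad hK) f) {0}
  simp only [sum_singleton, rad_zero hK, one_mul, La.up_zero, add_zero] at h1
  have h2 := sq_sum_le_card_mul_sum_sq (s := box s) (f := fun t => f (x + t))
  rw [card_box_LL, Li.sum_shift _ _ fun y => f y ^ 2] at h2
  replace h2 := h2.trans (mul_le_mul_of_nonneg_left ((sum_le_sum_of_subset_of_nonneg
    (fun z hz => by
      obtain ⟨v, hv, rfl⟩ := mem_image.1 hz
      exact RG.box_mono (by omega) (RG.add_mem_box hx hv)) fun _ _ _ => sq_nonneg _).trans h1)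
    (by positivity))
  refine abs_le_of_sq_le_sq ?_ (mul_nonneg (by positivity) (nrm_nonneg _))
  rw [KA, ev_Sc, mul_pow]
  exact (mul_le_mul_of_nonneg_left h2 (sq_nonneg _)).trans_eq (by field_simp; ring)

lemma KA_step {K : ℝ} (hK : 0 ≤ K) {s : ℕ} (hs : s ≤ l) (f : E 4) {x : St} (hx : x ∈ box l)
    {e : ℝ} (he : ∀ μ, nrm (rad K) (LL l) (Dm μ (Dm μ f)) ≤ e) :
    |KA s f x| ≤ |KA (3 * s + 1) f x| + 2 ^ 25 * e := by
  have hφ := (adm_rad hK).mono de_one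
  have h0 := LL_posR s
  have hN : LL s ≤ LL l := by unfold LL; omega
  obtain ⟨T, hT⟩ : ∃ T : Fin 4 → Op 4, T = fun μ =>
    dr μ ((3 : ℝ)⁻¹ • (t (-(LL s : ℤ)) * Lin.R (LL s) * Lin.R (LL s))) := ⟨_, rfl⟩
  obtain ⟨Q, hQ⟩ : ∃ Q : Fin 4 → Op 4, Q = fun μ => dr μ (M3 (LL s)) := ⟨_, rfl⟩
  have gQ : ∀ μ g, nrm (rad K) (LL l) (Q μ g) ≤ 3 * nrm (rad K) (LL l) g := fun μ =>
    hQ ▸ (gd_M3 hN μ).bd _ hφ
  have gT : ∀ μ, nrm (rad K) (LL l) (T μ (Dm μ (Dm μ f))) ≤ 86 * LL s ^ 2 * e := fun μ => by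
    rw [hT]
    simp only [dr_smul, dr_mul]
    refine (((((gd_t (LL_posR l) μ _ (by simpa using hN)).mul (gd_Rk hN μ)).mul
      (gd_Rk hN μ)).smul _).bd _ hφ _).trans (mul_le_mul ?_ (he μ) (nrm_nonneg _) (by positivity))
    rw [abs_of_pos (by norm_num)]
    nlinarith
  have eQ : ∀ μ, Q μ f = f + T μ (Dm μ (Dm μ f)) := fun μ => by
    simp only [hQ, hT, M3_eq, dr_add, dr_smul, dr_mul, dr_one, Dm]
    rfl
  have e1 : KA (3 * s + 1) f = KA s (Q 0 (Q 1 (Q 2 (Q 3 f)))) := by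
    simp only [KA, Sc_three, map_mul, prod_mul_distrib, hQ, Fin.prod_univ_four (fun μ =>
      emb μ (M3 _)), dr]
    rfl
  have e2 : f = Q 0 (Q 1 (Q 2 (Q 3 f))) - (Q 0 (Q 1 (Q 2 (T 3 (Dm 3 (Dm 3 f))))) +
      Q 0 (Q 1 (T 2 (Dm 2 (Dm 2 f)))) + Q 0 (T 1 (Dm 1 (Dm 1 f))) + T 0 (Dm 0 (Dm 0 f))) := by
    rw [eQ 3, map_add, map_add, map_add, eQ 2, map_add, map_add, eQ 1, map_add, eQ 0]
    abel
  have b3 := (gQ 0 _).trans (mul_le_mul_of_nonneg_left ((gQ 1 _).trans (mul_le_mul_of_nonneg_left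
    ((gQ 2 _).trans (mul_le_mul_of_nonneg_left (gT 3) zero_le_three)) zero_le_three)) zero_le_three)
  have b2 := (gQ 0 _).trans (mul_le_mul_of_nonneg_left ((gQ 1 _).trans
    (mul_le_mul_of_nonneg_left (gT 2) zero_le_three)) zero_le_three)
  have b1 := (gQ 0 _).trans (mul_le_mul_of_nonneg_left (gT 1) zero_le_three)
  have b := (nrm_add _ _).trans (add_le_add ((nrm_add _ _).trans (add_le_add
    ((nrm_add _ _).trans (add_le_add b3 b2)) b1)) (gT 0))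
  have e0 := (nrm_nonneg _).trans (he 0)
  nth_rewrite 1 [e2]
  rw [map_sub, ← e1, lp.coeFn_sub, Pi.sub_apply]
  refine (abs_sub _ _).trans (add_le_add le_rfl ((KA_le hK hs _ hx).trans
    ((mul_le_mul_of_nonneg_left b (by positivity)).trans ?_)))
  rw [div_mul_eq_mul_div, div_le_iff₀ (by positivity)]
  nlinarith [mul_nonneg (sq_nonneg (LL s : ℝ)) e0]

/-- a critical Sobolev inequality -/
lemma sob2 {K : ℝ} (hK : 0 ≤ K) (f : E 4) {x : St} (hx : x ∈ box l) {e : ℝ}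
    (he : ∀ μ, nrm (rad K) (LL l) (Dm μ (Dm μ f)) ≤ e) {j : ℕ} (hj : LL l < 3 ^ j) :
    |f x| ≤ 729 / LL l ^ 2 * nrm (rad K) (LL l) f + j * (2 ^ 25 * e) := by
  have e0 := (nrm_nonneg _).trans (he 0)
  have key : ∀ j s : ℕ, s ≤ l → LL l < 3 ^ j * LL s →
      |KA s f x| ≤ 729 / LL l ^ 2 * nrm (rad K) (LL l) f + j * (2 ^ 25 * e) := fun j => by
    induction j with
    | zero => exact fun s h1 h2 => absurd h2 (by unfold LL; omega)
    | succ j ih =>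
      intro s h1 h2
      by_cases h : 3 * s + 1 ≤ l
      · have := ih _ h (h2.trans_eq (by unfold LL; ring))
        push_cast
        linarith [KA_step hK h1 f hx he]
      · have h3 : (LL l : ℝ) ≤ 3 * LL s := by exact_mod_cast (by unfold LL; omega : LL l ≤ 3 * LL s)
        have h4 := LL_posR l
        have h5 := LL_posR s
        refine (KA_le hK h1 f hx).trans (le_add_of_le_of_nonneg (mul_le_mul_of_nonneg_right ?_
          (nrm_nonneg _)) (by positivity))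
        rw [div_le_div_iff₀ (by positivity) (by positivity)]
        nlinarith
  have := key j 0 l.zero_le (by simpa [LL] using hj)
  rwa [KA, ev_Sc, show box 0 = {0} from by decide, sum_singleton, add_zero, LL, mul_zero, zero_add,
    Nat.cast_one, one_pow, inv_one, one_mul] at this

lemma nrm_d1_le (Y : F1) (μ ν : Fin 4) : nrm φ M (d1 Y μ ν) ^ 2 ≤ s2 φ M Y :=
  (single_le_sum (f := fun ν => nrm φ M (d1 Y μ ν) ^ 2) (fun _ _ => sq_nonneg _)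
    (mem_univ ν)).trans (s1_d1 Y μ)

lemma s1_PP {B : RG.V} (hB : Cv k δ B) :
    s1 (rad k) 1 (PP k B) ≤ (6 * (2 * k + 1) ^ 2 * δ / de) ^ 2 :=
  (s1_rad hB).trans_eq (by ring)

/-- pointwise bound of the curvature of the minimiser -/
lemma Ctx.pt2 (h : Ctx l R n cL cU m sol) {B : RG.V} (hB : Cv k δ B) {j : ℕ} (hj : LL l < 3 ^ j)
    {x : St} (hx : x ∈ box l) (μ ν : Fin 4) : |dd (toV (sol (PP k B))) x μ ν| ≤
      (1 + j) * 2 ^ 25 * GG ^ 5 * (6 * (2 * k + 1) ^ 2 * δ / de) / (LL l * √(LL l)) := by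
  have hL := LL_posR l
  have hL1 : (1 : ℝ) ≤ LL l := NN_one l
  have hG := GG_ge.1
  have d0 := de_pos
  have h0 := hB.nonneg
  have ad := adm_rad (k.cast_nonneg : (0 : ℝ) ≤ k)
  have h1 := s1_PP hB
  obtain ⟨η, hη⟩ : ∃ η, η = 6 * (2 * k + 1 : ℝ) ^ 2 * δ / de := ⟨_, rfl⟩
  have η0 : 0 ≤ η := by rw [hη]; positivity
  rw [← hη] at h1 ⊢
  obtain ⟨q, hq⟩ : ∃ q, q = √(LL l : ℝ) := ⟨_, rfl⟩
  have q2 : q ^ 2 = LL l := by rw [hq, Real.sq_sqrt hL.le]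
  have q1 : 1 ≤ q := hq ▸ Real.one_le_sqrt.2 hL1
  rw [← hq]
  have a1 : nrm (rad k) (LL l) (d1 (sol (PP k B)) μ ν) ≤ 2 * GG * η := by
    refine abs_le_of_sq_le_sq' ((nrm_d1_le _ μ ν).trans (((s2_GG h.hm h.hc h.hl (ad.mono de_one)
      _).trans (agmon h.hm h.hc h.hU h.hR h.hl (h.we _) (h.gd _) ad).1).trans ?_))
      (by positivity) |>.2
    calc _ ≤ 4 * GG ^ 2 * η ^ 2 := by gcongr
      _ = _ := by ring
  have a2 : ∀ κ, nrm (rad k) (LL l) (Dm κ (Dm κ (d1 (sol (PP k B)) μ ν))) ≤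
      GG ^ 5 * η / (LL l * q) := fun κ => by
    have e : Dm κ (Dm κ (d1 (sol (PP k B)) μ ν)) =
        d1 (fun ρ => Dm κ (Dm κ (sol (PP k B) ρ))) μ ν := by
      simp only [d1, map_sub, Dm_comm κ μ, Dm_comm κ ν]
    rw [e]
    refine abs_le_of_sq_le_sq' ((nrm_d1_le _ μ ν).trans ((agmon2 h.hm h.hc h.hU h.hR h.hl (h.we _)
      (h.gd _) ad κ κ).2.trans ?_)) (by positivity) |>.2
    calc _ ≤ GG ^ 9 * (η ^ 2 / LL l ^ 3) := by gcongr
      _ ≤ GG ^ 10 * (η ^ 2 / LL l ^ 3) := by gcongr; norm_num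
      _ = _ := by rw [div_pow, mul_pow, mul_pow, q2]; ring
  rw [dd_toV]
  refine (sob2 k.cast_nonneg _ hx a2 hj).trans ?_
  have a3 : 729 / LL l ^ 2 * (2 * GG * η) ≤ 2 ^ 25 * (GG ^ 5 * η / (LL l * q)) := by
    have a4 : GG * η / (LL l * LL l) ≤ GG ^ 5 * η / (LL l * q) := by
      gcongr
      · exact le_self_pow₀ hG (by norm_num)
      · nlinarith
    have a5 : 0 ≤ GG ^ 5 * η / (LL l * q) := by positivity
    calc _ = 1458 * (GG * η / (LL l * LL l)) := by ring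
      _ ≤ _ := by linarith
  exact (add_le_add ((mul_le_mul_of_nonneg_left a1 (by positivity)).trans a3) le_rfl).trans_eq
    (by ring)

/-- the gradient of the curvature of the minimiser -/
lemma Ctx.grad2 (h : Ctx l R n cL cU m sol) {B : RG.V} (hB : Cv k δ B) (κ : Fin 4) :
    ∑ x ∈ box (3 * l + 1), nd (RG.sh (un κ) (toV (sol (PP k B))) - toV (sol (PP k B))) x ≤
      6561 * (GG ^ 6 * ((6 * (2 * k + 1) ^ 2 * δ / de) ^ 2 / LL l ^ 2)) := by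
  have hG := GG_ge.1
  have ad := adm_rad (k.cast_nonneg : (0 : ℝ) ≤ k)
  have e : RG.sh (un κ) (toV (sol (PP k B))) - toV (sol (PP k B)) =
      toV fun ρ => Dm κ (sol (PP k B) ρ) := by
    funext e; simp [toV, Dm_ap, RG.sh, un]
  rw [e]
  refine (wloc k.cast_nonneg _).trans (mul_le_mul_of_nonneg_left
    ((agmon2 h.hm h.hc h.hU h.hR h.hl (h.we _) (h.gd _) ad κ κ).1.trans ?_) (by norm_num))
  gcongr
  exact s1_PP hB

end

end Pool.Agent.Lib.MP_7f377f_mp.Lin
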