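import Pool.Agent.Lib.MP_7f377f_mp.Q4Pt

/-! The linear theory for a given solution operator, with the sharp pointwise bound. -/

namespace Pool.Agent.Lib.MP_7f377f_mp.Lin

noncomputable section

open Finset hiding box
open Classical Function RG RG.La
open scoped InnerProductSpace Pointwise

/-- pointwise bound and gradient bound of the curvature of the background field -/
structure Pt (l r : ℕ) (s : RG.V →ₗ[ℝ] RG.V) : Prop where
  pt : ∀ B δ, Cv (r / 3) δ B → Cv l ((r : ℝ) ^ 4 * δ / (LL l * √(LL l))) (RG.mu l s B)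
  grad : ∀ B δ, Cv (r / 3) δ B → ∑ x ∈ box l, ∑ κ, nd (RG.sh (un κ) (RG.mu l s B) - RG.mu l s B) x ≤
    (r : ℝ) ^ 5 * δ ^ 2 / (LL l : ℝ) ^ 2

theorem pre_ctx : ∃ c : ℕ, 60 ≤ c ∧ ∀ (l r n k : ℕ) (cL cU : ℝ) (m : BF) (sol : F1 →ₗ[ℝ] F1),
    c ≤ r → r ^ c ≤ l → (LL l : ℝ) ^ c * Real.exp (-(r / c)) ≤ 1 → Ctx l (3 * r) n cL cU m sol →
    k + 1 = r / 4 → Pre l r c ((LL l : ℝ) ^ c * Real.exp (-(r / c))) m (sg l sol ∘ₗ PP k) ∧
      Pt l r (sg l sol ∘ₗ PP k) := by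
  obtain ⟨c, c60, cW⟩ : ∃ c : ℕ, 60 ≤ c ∧ 2 ^ 40 * WW ≤ c :=
    ⟨⌈2 ^ 40 * WW⌉₊ + 60, by omega, (Nat.le_ceil _).trans (by simp)⟩
  refine ⟨c, c60, fun l r n k cL cU m sol hr hl hτ h hk => ?_⟩
  have hm := h.hm
  have hc := h.hc
  have hU := h.hU
  obtain ⟨W1, W2, W3, W4⟩ := WW_ge
  have hG := GG_ge.1
  have d0 := de_pos
  have r60 : r ^ 60 ≤ l := (Nat.pow_le_pow_right (by omega) c60).trans hl
  have r3 : 3 * r ≤ l := by
    have := (Nat.pow_le_pow_right (by omega) (by norm_num : 2 ≤ 60)).trans r60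
    nlinarith
  have rc : (c : ℝ) ≤ r := by exact_mod_cast hr
  have r1 : (60 : ℝ) ≤ r := by exact_mod_cast c60.trans hr
  have rW := cW.trans rc
  have hL1 : (1 : ℝ) ≤ LL l := NN_one l
  have rL : ∀ j ≤ 60, (r : ℝ) ^ j ≤ LL l := fun j hj => by
    have : r ^ j ≤ LL l := (Nat.pow_le_pow_right (by omega) hj).trans (by simp only [LL]; omega)
    exact_mod_cast this
  have Lc : ∀ j ≤ 60, (LL l : ℝ) ^ j ≤ LL l ^ c := fun j hj => pow_le_pow_right₀ hL1 (by omega)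
  have lg : LL l < 3 ^ r := by
    have c1 : (1 : ℝ) ≤ c := by norm_cast; omega
    have h1 : (LL l : ℝ) ≤ Real.exp (r / c) := by
      rw [Real.exp_neg, mul_inv_le_iff₀ (Real.exp_pos _), one_mul] at hτ
      exact ((pow_one _).symm.trans_le (Lc 1 (by norm_num))).trans hτ
    have h2 : Real.exp (r / c) ≤ Real.exp 1 ^ r := by
      rw [← Real.exp_nat_mul, mul_one]
      exact Real.exp_le_exp.2 (div_le_self r.cast_nonneg c1)
    have h3 : Real.exp 1 ^ r < 3 ^ r := pow_lt_pow_left₀ (Real.exp_one_lt_d9.trans (by norm_num))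
      (Real.exp_pos _).le (by omega)
    exact_mod_cast (h1.trans h2).trans_lt h3
  obtain ⟨E, hE⟩ : ∃ E, E = Real.exp (-(r / c)) := ⟨_, rfl⟩
  have E0 : 0 < E := hE ▸ Real.exp_pos _
  rw [← hE] at hτ ⊢
  have dec : ∀ {B δ}, Cv (r / 3) δ B → ∃ g e, RG.mu l (sg l sol ∘ₗ PP k) B =
      toV (sol (PP (r / 3) B)) + gr g + e ∧ avgA l (gr g) = B - cg B ∧
      Sm (3 * LL l + l) (LL l ^ 3 * E * δ) e := fun {B δ} hB => by
    obtain ⟨g, e, h1, h2, h3⟩ := h.dec (k := k) (Sm_cg hB) (by omega)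
    refine ⟨g, e, h1, h2, h3.mono le_rfl ?_⟩
    have h0 := hB.nonneg
    have k1 : (2 * (r / 3 : ℕ) + 7 : ℝ) ≤ r := by norm_cast; omega
    have k2 : (8 * k + 9 : ℝ) ≤ 3 * r := by norm_cast; omega
    have k3 : (3 * (r / 3 : ℕ) : ℝ) ≤ r := by norm_cast; omega
    have k4 : (r : ℝ) ≤ 4 * k + 8 := by norm_cast; omega
    have k5 : Real.exp (-de * k) ≤ 3 * E := by
      have c0 : (0 : ℝ) < c := by norm_cast; omega
      have : (r : ℝ) / c ≤ de * r / 4 := by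
        rw [div_le_div_iff₀ c0 (by norm_num)]
        nlinarith [mul_le_mul_of_nonneg_right cW d0.le]
      rw [hE]
      refine le_trans ?_ (mul_le_mul_of_nonneg_right (exp_le_three le_rfl) (Real.exp_pos _).le)
      rw [← Real.exp_add]
      exact Real.exp_le_exp.2 (by nlinarith [de_le])
    calc _ ≤ 168 * GG ^ 2 * LL l ^ 2 * (2 * r ^ 2 * (3 * E) * (3 * r * (r * δ))) := by gcongr
      _ = 3024 * GG ^ 2 * r ^ 4 * (LL l ^ 2 * E * δ) := by ring
      _ ≤ r * r ^ 4 * (LL l ^ 2 * E * δ) := by gcongr; linarith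
      _ ≤ LL l * (LL l ^ 2 * E * δ) := by gcongr; rw [← pow_succ']; exact rL _ (by norm_num)
      _ = _ := by ring
  have small : ∀ {δ : ℝ}, 0 ≤ δ → LL l ^ 2 * (LL l ^ 3 * E * δ) ≤ δ := fun {δ} h0 => by
    nlinarith [mul_le_mul_of_nonneg_right ((mul_le_mul_of_nonneg_right (Lc 5 (by norm_num))
      E0.le).trans hτ) h0]
  have hS : ∀ {B δ}, Cv (r / 3) δ B → s1 (rad (r / 3 : ℕ)) 1 (PP (r / 3) B) ≤
      36 * r ^ 4 * δ ^ 2 / de ^ 2 := fun {B δ} hB => by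
    have k1 : (2 * (r / 3 : ℕ) + 1 : ℝ) ≤ r := by norm_cast; omega
    refine (s1_rad hB).trans ?_
    calc _ ≤ 4 * ((r : ℝ) ^ 4 * (3 * δ / de) ^ 2) := by gcongr
      _ = _ := by ring
  have ad := adm_rad (r / 3 : ℕ).cast_nonneg
  have hA : ∀ {B δ}, Cv (r / 3) δ B → s2 (rad (r / 3 : ℕ)) (LL l) (sol (PP (r / 3) B)) ≤
      144 * WW * (r ^ 4 * δ ^ 2) := fun {B δ} hB =>
    ((s2_GG hm hc h.hl (ad.mono de_one) _).trans (agmon hm hc hU r3 h.hl (h.we _) (h.gd _) ad).1).trans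
      ((mul_le_mul_of_nonneg_left (hS hB) (by positivity)).trans (by
      calc _ = 144 * (GG ^ 2 / de ^ 2) * (r ^ 4 * δ ^ 2) := by ring
        _ ≤ _ := by gcongr))
  have dm : ∀ (a e : RG.V) (g : St → ℝ), dd (a + gr g + e) = dd (a + e) := fun a e g => by
    rw [La.dd_add, La.dd_add, La.dd_gr, add_zero, La.dd_add]
  refine ⟨⟨fun a f hf => ?_, ker_gr, fun a ha => ?_, fun a δ f ha => ?_,
    fun B δ f hf _ hB => ?_, fun B δ hB => ?_, fun B δ hB x hx μ ν => ?_⟩,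
    fun B δ hB x hx μ ν => ?_, fun B δ hB => ?_⟩
  · rw [LinearMap.comp_apply, sg_ap, Pi.sub_apply, TG_tree _ hf, iz_tree _ hf, sub_zero]
  · have : PP k a = PP k 0 := funext fun μ => sum_congr rfl fun x hx => by
      rw [cg_agr (b := 0) (hk ▸ ha) (x, μ) (RG.mem_lbox.2 hx)]
    rw [LinearMap.comp_apply, this, map_zero, map_zero]
  · refine (h.ker_bd ha (by omega) f).trans (mul_le_mul_of_nonneg_right (le_trans ?_
      (Lc 4 (by norm_num))) ha.nonneg)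
    have h1 := rL 2 (by norm_num)
    have h2 : (60 : ℝ) ≤ LL l := by nlinarith
    have h3 : 4032 * GG ^ 2 * r ^ 3 ≤ LL l := by
      calc _ ≤ r * (r : ℝ) ^ 3 := by gcongr; linarith
        _ ≤ _ := by rw [← pow_succ']; exact rL _ (by norm_num)
    have h4 : 12 * (r : ℝ) ≤ LL l ^ 3 := le_trans (by nlinarith) (le_self_pow₀ hL1 (by norm_num))
    nlinarith [mul_le_mul_of_nonneg_right h3 (sq_nonneg (LL l : ℝ)),
      mul_le_mul_of_nonneg_right h2 (pow_pos (LL_posR l) 3).le]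
  · obtain ⟨g, e, h1, h2, h3⟩ := dec hB
    have h0 := hB.nonneg
    refine (h.stat h1 (fun b hb => ?_) h3 hf).trans ?_
    · rw [h2, PP_ap, if_pos (RG.box_mono (by omega) hb)]; simp
    have h4 : 625 * (5120 * KK ^ 2 * (2 * (3 * r : ℕ) + 3) ^ 4 + 4) ≤ LL l := by
      have : 1 ≤ KK ^ 2 * r ^ 4 := one_le_mul_of_one_le_of_one_le (one_le_pow₀ KK_one)
        (one_le_pow₀ (by linarith))
      calc _ ≤ 625 * (5120 * KK ^ 2 * (7 * r) ^ 4 + 4 * (KK ^ 2 * r ^ 4)) := by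
            gcongr
            · push_cast; linarith
            · linarith
        _ ≤ 2 ^ 40 * KK ^ 2 * r ^ 4 := by nlinarith
        _ ≤ r * r ^ 4 := by gcongr; linarith
        _ ≤ _ := by rw [← pow_succ']; exact rL _ (by norm_num)
    calc _ = 625 * (5120 * KK ^ 2 * (2 * (3 * r : ℕ) + 3) ^ 4 + 4) * LL l ^ 7 * E * δ := by ring
      _ ≤ LL l * LL l ^ 7 * E * δ := by gcongr
      _ ≤ _ := by gcongr; rw [← pow_succ']; exact Lc _ (by norm_num)
  · obtain ⟨g, e, h1, -, h3⟩ := dec hB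
    have h0 := hB.nonneg
    have h4 := (sum_le_sum_of_subset_of_nonneg (box_sub l) fun _ _ _ => Li.nd_nonneg _ _).trans
      ((wloc (Nat.cast_nonneg _) _).trans (mul_le_mul_of_nonneg_left (hA hB) (by norm_num)))
    have h5 := sum_le_card_nsmul (box l) _ _ fun x hx =>
      nd_le_of_cv (h3.mono (R' := l + 1) (by simp only [LL]; omega) le_rfl).cv hx
    rw [nsmul_eq_mul, card_box_LL] at h5
    have h6 := pow_le_pow_left₀ (by positivity) (small h0) 2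
    have h7 : 1024 * δ ^ 2 ≤ r ^ 5 * δ ^ 2 := by
      gcongr; exact le_trans (by norm_num) (pow_le_pow_left₀ (by norm_num) r1 5)
    have h8 := mul_le_mul_of_nonneg_right rW (by positivity : 0 ≤ (r : ℝ) ^ 4 * δ ^ 2)
    have h9 : 0 ≤ WW * (r ^ 4 * δ ^ 2) := mul_nonneg (by nlinarith) (by positivity)
    simp only [h1, nd, dm]
    refine (sum_le_sum fun x _ => nd_add_le _ _ x one_pos).trans ?_
    rw [sum_add_distrib, ← mul_sum, ← mul_sum]
    linarith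
  · obtain ⟨g, e, h1, -, h3⟩ := dec hB
    have h0 := hB.nonneg
    have r0 : (0 : ℝ) < r := by linarith
    have h4 := point_le (r / 3 : ℕ).cast_nonneg (sol (PP (r / 3) B)) (N := r ^ 30)
      (pow_pos (by omega) _) (by exact_mod_cast rL 30 (by norm_num)) hx μ ν
    have h5 := (agmonD hm hc hU r3 h.hl (h.we _) (h.gd _) ad 0).trans (mul_le_mul_of_nonneg_left
      (div_le_div₀ (by positivity) (hS hB) (by positivity) (rL 60 le_rfl)) (by positivity))
    have h6 : dd (toV (sol (PP (r / 3) B))) x μ ν ^ 2 ≤ (δ / r ^ 12 / 2) ^ 2 := by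
      refine h4.trans ((add_le_add (mul_le_mul_of_nonneg_left (mul_le_mul_of_nonneg_left (hA hB)
        (by norm_num)) (by positivity)) (mul_le_mul_of_nonneg_left (mul_le_mul_of_nonneg_left h5
        (by norm_num)) (by positivity))).trans ?_)
      calc _ = 17006112 * WW * (δ ^ 2 / r ^ 26) := by
            rw [WW]; push_cast; field_simp; ring
        _ ≤ r ^ 2 / 4 * (δ ^ 2 / r ^ 26) := by gcongr; nlinarith
        _ = _ := by field_simp; ring
    have h7 := (h3.mono (R' := l + 1) (by simp only [LL]; omega) le_rfl).cv x hx μ ν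
    have h8 : 4 * (LL l ^ 3 * E * δ) ≤ δ / r ^ 12 / 2 := by
      rw [div_div, le_div_iff₀ (by positivity)]
      have h9 : (r : ℝ) ^ 12 * 8 ≤ LL l ^ 2 := by
        nlinarith [rL 12 (by norm_num), rL 1 (by norm_num), pow_pos r0 12]
      nlinarith [small h0, mul_le_mul_of_nonneg_right h9 (by positivity : 0 ≤ LL l ^ 3 * E * δ)]
    rw [h1, dm, RG.dd_add]
    linarith [norm_add_le (dd (toV (sol (PP (r / 3) B))) x μ ν) (dd e x μ ν),
      abs_le_of_sq_le_sq h6 (by positivity), Real.norm_eq_abs (dd (toV (sol (PP (r / 3) B))) x μ ν)]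
  · obtain ⟨g, e, h1, -, h3⟩ := dec hB
    have h0 := hB.nonneg
    have h4 := h.pt2 hB lg hx μ ν
    have h7 := (h3.mono (R' := l + 1) (by simp only [LL]; omega) le_rfl).cv x hx μ ν
    have k1 : (2 * (r / 3 : ℕ) + 1 : ℝ) ≤ r := by norm_cast; omega
    have q1 : 1 ≤ √(LL l : ℝ) := Real.one_le_sqrt.2 hL1
    have q2 : √(LL l : ℝ) ≤ LL l := Real.sqrt_le_self_iff.2 (.inr hL1)
    have h5 : (1 + r) * 2 ^ 25 * GG ^ 5 * (6 * (2 * (r / 3 : ℕ) + 1) ^ 2 * δ / de) ≤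
        r ^ 4 * δ - 4 * δ := by
      have w1 : GG ^ 5 / de ≤ WW := by
        rw [WW, div_le_div_iff₀ d0 (by positivity)]
        nlinarith [mul_le_mul hG de_one d0.le (by linarith), mul_pos (pow_pos (one_pos.trans_le hG) 5) d0]
      have w2 : (1 : ℝ) ≤ r ^ 3 := one_le_pow₀ (by linarith)
      have w0 : 0 ≤ WW := (sq_nonneg _).trans W2
      calc _ = 6 * 2 ^ 25 * (GG ^ 5 / de) * ((1 + r) * (2 * (r / 3 : ℕ) + 1) ^ 2) * δ := by ring
        _ ≤ 6 * 2 ^ 25 * WW * (2 * r * r ^ 2) * δ := by gcongr; linarith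
        _ = 12 * 2 ^ 25 * WW * (r ^ 3 * δ) := by ring
        _ ≤ (r - 4) * (r ^ 3 * δ) := by gcongr; linarith
        _ ≤ _ := by nlinarith [mul_le_mul_of_nonneg_right w2 h0]
    have h8 : 4 * (LL l ^ 3 * E * δ) ≤ 4 * δ / (LL l * √(LL l)) := by
      rw [le_div_iff₀ (by positivity)]
      nlinarith [small h0, mul_le_mul_of_nonneg_left q2
        (by positivity : 0 ≤ LL l * (LL l ^ 3 * E * δ))]
    have h6 := h4.trans (div_le_div_of_nonneg_right h5 (by positivity))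
    rw [sub_div] at h6
    rw [h1, dm, RG.dd_add]
    linarith [norm_add_le (dd (toV (sol (PP (r / 3) B))) x μ ν) (dd e x μ ν),
      Real.norm_eq_abs (dd (toV (sol (PP (r / 3) B))) x μ ν)]
  · obtain ⟨g, e, h1, -, h3⟩ := dec hB
    have h0 := hB.nonneg
    have k1 : (2 * (r / 3 : ℕ) + 1 : ℝ) ≤ r := by norm_cast; omega
    have h4 : ∀ κ, ∑ x ∈ box l, nd (RG.sh (un κ) (toV (sol (PP (r / 3) B))) -
        toV (sol (PP (r / 3) B))) x ≤ 236196 * WW * (r ^ 4 * δ ^ 2 / LL l ^ 2) := fun κ => by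
      refine ((sum_le_sum_of_subset_of_nonneg (box_sub l) fun _ _ _ => Li.nd_nonneg _ _).trans
        (h.grad2 hB κ)).trans ?_
      calc _ ≤ 6561 * (GG ^ 6 * ((6 * r ^ 2 * δ / de) ^ 2 / LL l ^ 2)) := by gcongr
        _ = _ := by rw [WW]; ring
    have h5 : ∀ κ, ∑ x ∈ box l, nd (RG.sh (un κ) e - e) x ≤ 1024 * (δ ^ 2 / LL l ^ 2) := fun κ => by
      have h6 := (h3.mono (R' := l + 1 + 1) (by simp only [LL]; omega) le_rfl).cv
      have h7 : Cv l (8 * (LL l ^ 3 * E * δ)) (RG.sh (un κ) e - e) := fun x hx μ ν => by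
        rw [La.dd_sub, Pi.sub_apply, Pi.sub_apply, Pi.sub_apply, Li.dd_sh]
        linarith [norm_sub_le (dd e (x + un κ) μ ν) (dd e x μ ν), h6 x (RG.box_mono (by omega) hx) μ ν,
          h6 _ (add_un_mem_box hx κ) μ ν]
      have h8 := sum_le_card_nsmul (box l) _ _ fun x hx => nd_le_of_cv h7 hx
      rw [nsmul_eq_mul, card_box_LL] at h8
      have h9 : LL l ^ 3 * (LL l ^ 3 * E * δ) ≤ δ := by
        nlinarith [mul_le_mul_of_nonneg_right ((mul_le_mul_of_nonneg_right (Lc 6 (by norm_num))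
          E0.le).trans hτ) h0]
      refine h8.trans ?_
      rw [← mul_div_assoc, le_div_iff₀ (by positivity)]
      nlinarith [pow_le_pow_left₀ (by positivity) h9 2]
    have h8 := mul_le_mul_of_nonneg_right rW (by positivity : 0 ≤ (r : ℝ) ^ 4 * δ ^ 2 / LL l ^ 2)
    have h9 : 0 ≤ WW * (r ^ 4 * δ ^ 2 / LL l ^ 2) := mul_nonneg (by nlinarith) (by positivity)
    have h7 : 16384 * (δ ^ 2 / LL l ^ 2) ≤ r * (r ^ 4 * δ ^ 2 / LL l ^ 2) := by
      rw [mul_div_assoc, ← mul_assoc, ← pow_succ']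
      gcongr; exact le_trans (by norm_num) (pow_le_pow_left₀ (by norm_num) r1 5)
    have e1 : ∀ κ x, nd (RG.sh (un κ) (RG.mu l (sg l sol ∘ₗ PP k) B) - RG.mu l (sg l sol ∘ₗ PP k) B) x ≤
        2 * nd (RG.sh (un κ) (toV (sol (PP (r / 3) B))) - toV (sol (PP (r / 3) B))) x +
          2 * nd (RG.sh (un κ) e - e) x := fun κ x => by
      refine le_of_eq_of_le ?_ ((nd_add_le (RG.sh (un κ) (toV (sol (PP (r / 3) B))) -
        toV (sol (PP (r / 3) B))) (RG.sh (un κ) e - e) x one_pos).trans_eq (by norm_num))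
      simp only [nd, h1, La.dd_sub, La.dd_add, Pi.sub_apply, Pi.add_apply, Li.dd_sh, La.dd_gr,
        add_zero]
      congr! 3
      ring
    rw [sum_comm]
    refine (sum_le_sum fun κ _ => ((sum_le_sum fun x _ => e1 κ x).trans_eq (by
      rw [sum_add_distrib, ← mul_sum, ← mul_sum])).trans (add_le_add (mul_le_mul_of_nonneg_left
        (h4 κ) zero_le_two) (mul_le_mul_of_nonneg_left (h5 κ) zero_le_two))).trans ?_
    rw [sum_const, card_univ, Fintype.card_fin, nsmul_eq_mul, Nat.cast_ofNat,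
      show (r : ℝ) ^ 5 * δ ^ 2 / LL l ^ 2 = r * (r ^ 4 * δ ^ 2 / LL l ^ 2) by ring]
    linarith

/-- `lin_main` for the explicit kernel of any solution operator, with the sharp bounds -/
theorem lin_ctx : ∃ c : ℕ, 60 ≤ c ∧ ∀ (l r n k : ℕ) (cL cU : ℝ) (m : BF) (sol : F1 →ₗ[ℝ] F1),
    c ≤ r → r ^ c ≤ l → (LL l : ℝ) ^ c * Real.exp (-(r / c)) ≤ 1 → 1 ≤ cL →
    Ctx l (3 * r) n cL cU m sol → k + 1 = r / 4 →
      RG.Lin l r c ((LL l : ℝ) ^ c * Real.exp (-(r / c))) m (sg l sol ∘ₗ PP k) ∧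
      Inv (2 * n * l + n + l) r (cL * (1 + 1 / LL l))
        (cU + (LL l : ℝ) ^ c * Real.exp (-(r / c))) (mn l m (sg l sol ∘ₗ PP k)) ∧
      Pt l r (sg l sol ∘ₗ PP k) := by
  obtain ⟨c0, c60, h0⟩ := pre_ctx
  obtain ⟨c1, h1⟩ := La.lin_fin c0 (20 * KK ^ 2)
  refine ⟨c1 + 2 * c0, by omega, fun l r n k cL cU m sol hr hl hτ c1' h hk => ?_⟩
  have hm := h.hm
  have hc := h.hc
  have hU := h.hU
  have hL : (1 : ℝ) ≤ LL l := NN_one l
  have e1 : Real.exp (-(r / c0)) ≤ Real.exp (-(r / (c1 + 2 * c0 : ℕ))) :=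
    Real.exp_le_exp.2 (neg_le_neg (div_le_div_of_nonneg_left r.cast_nonneg
      (by norm_cast; omega) (by norm_cast; omega)))
  have e2 : Real.exp (-(r / c0)) ≤ 1 := Real.exp_le_one_iff.2 (neg_nonpos.2 (by positivity))
  have t1 : (LL l : ℝ) ^ c0 * Real.exp (-(r / c0)) ≤
      (LL l : ℝ) ^ (c1 + 2 * c0) * Real.exp (-(r / (c1 + 2 * c0 : ℕ))) := by gcongr; omega
  obtain ⟨hs, hp⟩ := h0 l r n k cL cU m sol (by omega)
    ((Nat.pow_le_pow_right (by omega) (by omega)).trans hl) (t1.trans hτ) h hk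
  have r3 : 3 * r ≤ l := by
    have := (Nat.pow_le_pow_right (by omega) (by omega : 2 ≤ c1 + 2 * c0)).trans hl
    nlinarith
  obtain ⟨h2, h3⟩ := h1 l r n (c1 + 2 * c0) _ cL cU m _ (by omega) (by omega) r3 c1' hc
    (by positivity) hm (inv_U1 hm hU) hs
  have h4 := fun B δ f hf ht (hB : Cv (r / 3) δ B) => (h2.stat B δ f hf ht hB).trans
    (mul_le_mul_of_nonneg_right t1 hB.nonneg)
  refine ⟨{ h2 with stat := h4 }, ⟨h3.symm, h3.rng, h3.gauge, h3.psd, h3.lower, fun a S T ha =>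
    (h3.upper a S T ha).trans (mul_le_mul_of_nonneg_right (add_le_add le_rfl ?_)
    (Finset.sum_nonneg fun _ _ => Li.nd_nonneg _ _))⟩, hp⟩
  rw [mul_pow, ← pow_mul, ← mul_assoc, ← pow_add, mul_comm c0, sq]
  exact mul_le_mul_of_nonneg_left ((mul_le_mul e2 e1 (Real.exp_pos _).le zero_le_one).trans_eq
    (one_mul _)) (by positivity)

theorem ctx_ex {l R n : ℕ} {cL cU : ℝ} {m : BF} (hm : Inv n R cL cU m) (hc : cL ≤ 20)
    (hU : cU ≤ 20) (hR : R ≤ l) (hl : 1 ≤ l) : ∃ sol, Ctx l R n cL cU m sol := by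
  obtain ⟨sol, hs⟩ := exists_sol (l := l) hm hc hl
  exact ⟨sol, hm, hc, hU, hR, hl, fun B => (hs B).1, fun B => (hs B).2⟩

/-- `lin_main` with the sharp bounds -/
theorem lin_pt : ∃ c : ℕ, 60 ≤ c ∧ ∀ (l r n : ℕ) (cL cU : ℝ) (m : BF), c ≤ r → r ^ c ≤ l →
    (LL l : ℝ) ^ c * Real.exp (-(r / c)) ≤ 1 →
    1 ≤ cL → cL ≤ 20 → cU ≤ 20 → Inv n (3 * r) cL cU m → ∃ s,
      RG.Lin l r c ((LL l : ℝ) ^ c * Real.exp (-(r / c))) m s ∧
      Inv (2 * n * l + n + l) r (cL * (1 + 1 / LL l))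
        (cU + (LL l : ℝ) ^ c * Real.exp (-(r / c))) (mn l m s) ∧ Pt l r s := by
  obtain ⟨c, c60, h⟩ := lin_ctx
  refine ⟨c, c60, fun l r n cL cU m hr hl hτ c1 hc hU hm => ?_⟩
  have r3 : 3 * r ≤ l := by
    have := (Nat.pow_le_pow_right (by omega) (by omega : 2 ≤ c)).trans hl
    nlinarith
  obtain ⟨sol, hs⟩ := ctx_ex hm hc hU r3 (by omega)
  exact ⟨_, h l r n (r / 4 - 1) cL cU m sol hr hl hτ c1 hs (by omega)⟩

end

end Pool.Agent.Lib.MP_7f377f_mp.Lin
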