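import Pool.Agent.Lib.MP_7f377f_mp.Q4SmB

/-! Smoothing by the Gaussian fluctuation, third part: real data, the tube around real data,
comparison with the truncated Gaussian mean. -/

noncomputable section

namespace Pool.Agent.Lib.MP_7f377f_mp.RG.Q4.Smo

open MeasureTheory Measure Set Ms Matrix Metric
open scoped ENNReal

variable {ι Z : Type} [Fintype ι] [DecidableEq ι] [MeasurableSpace Z]

/-- real data -/
structure Rl (c : ℝ) (b : ι → Hc) (a : Z → ι → C3) (M : Mx ι) (b0 : ι → S3) (a0 : Z → ι → E3)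
    (M0 : Matrix (ι × Fin 3) (ι × Fin 3) ℝ) : Prop where
  hb : ∀ i, b i = cS (b0 i)
  ha : ∀ ω i, a ω i = cE (a0 ω i)
  hM : ∀ p q, M p q = M0 p q
  co : ∀ v : ι × Fin 3 → ℝ, c * ∑ q, v q ^ 2 ≤ ∑ p, v p * ∑ q, M0 p q * v q

theorem coer {J : Type} [Fintype J] {c η : ℝ} {M : Matrix J J ℂ} {M0 : Matrix J J ℝ} (c0 : 0 < c)
    (h0 : ∀ v : J → ℝ, c * ∑ q, v q ^ 2 ≤ ∑ p, v p * ∑ q, M0 p q * v q)
    (h : ∀ p q, ‖M p q - M0 p q‖ ≤ η) (hη : 2 * η * Fintype.card J ≤ c) (v : J → ℂ) :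
    c ^ 2 * ∑ q, ‖v q‖ ^ 2 ≤ 4 * ∑ q, ‖(M *ᵥ v) q‖ ^ 2 := by
  set s := ∑ q, ‖v q‖ ^ 2 with hs
  have s0 : 0 ≤ s := by positivity
  have e1 : c * s ≤ (∑ p, star (v p) * ∑ q, (M0 p q : ℂ) * v q).re := by
    have a := h0 fun q => (v q).re
    have b := h0 fun q => (v q).im
    have e : s = ∑ q, (v q).re ^ 2 + ∑ q, (v q).im ^ 2 := by
      rw [hs, ← Finset.sum_add_distrib]
      exact Finset.sum_congr rfl fun q _ => by rw [Complex.sq_norm, Complex.normSq_apply]; ring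
    simp only [Complex.re_sum, Complex.mul_re, Complex.im_sum, Complex.mul_im, Complex.star_def,
      Complex.conj_re, Complex.conj_im, Complex.ofReal_re, Complex.ofReal_im, zero_mul, sub_zero,
      add_zero, neg_mul, sub_neg_eq_add, Finset.sum_add_distrib]
    rw [e]
    linarith
  have e2 : ‖∑ p, star (v p) * ∑ q, (M p q - M0 p q) * v q‖ ≤ c / 2 * s := by
    refine (norm_sum_le_of_le _ (n := fun p => ‖v p‖ * ∑ q, η * ‖v q‖) fun p _ => ?_).trans ?_
    · rw [norm_mul, norm_star]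
      exact mul_le_mul_of_nonneg_left (norm_sum_le_of_le _ fun q _ => by
        rw [norm_mul]
        exact mul_le_mul_of_nonneg_right (h p q) (norm_nonneg _)) (norm_nonneg _)
    · rw [← Finset.sum_mul, ← Finset.mul_sum]
      have a := sq_sum_le_card_mul_sum_sq (s := Finset.univ) (f := fun q => ‖v q‖)
      rw [Finset.card_univ, ← hs] at a
      rcases isEmpty_or_nonempty J with hJ | ⟨⟨p⟩⟩
      · simp [hs]
      · have := mul_le_mul_of_nonneg_left a ((norm_nonneg _).trans (h p p))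
        nlinarith [mul_le_mul_of_nonneg_right hη s0]
  have e3 : ∑ p, star (v p) * (M *ᵥ v) p = ∑ p, star (v p) * ∑ q, (M0 p q : ℂ) * v q +
      ∑ p, star (v p) * ∑ q, (M p q - M0 p q) * v q := by
    rw [← Finset.sum_add_distrib]
    refine Finset.sum_congr rfl fun p _ => ?_
    rw [← mul_add, ← Finset.sum_add_distrib]
    congr 1
    exact Finset.sum_congr rfl fun q _ => by ring
  have e4 : c / 2 * s ≤ ∑ p, ‖v p‖ * ‖(M *ᵥ v) p‖ := by
    refine le_trans ?_ ((Complex.re_le_norm (∑ p, star (v p) * (M *ᵥ v) p)).trans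
      (norm_sum_le_of_le _ fun p _ => by rw [norm_mul, norm_star]))
    rw [e3, Complex.add_re]
    linarith [(abs_le.1 ((Complex.abs_re_le_norm _).trans e2)).1]
  have e5 := (pow_le_pow_left₀ (by positivity) e4 2).trans
    (Finset.sum_mul_sq_le_sq_mul_sq Finset.univ _ _)
  rw [← hs] at e5
  rcases s0.eq_or_lt with h | h
  · rw [← h, mul_zero]
    positivity
  · exact le_of_mul_le_mul_left (by nlinarith) h

variable {μ : Measure Z} {ε c κ ζ : ℝ} {b : ι → Hc} {a : Z → ι → C3} {M : Mx ι} {u : ι → S3}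
  {K : (ι → S3) → ℂ} {b0 : ι → S3} {a0 : Z → ι → E3} {M0 : Matrix (ι × Fin 3) (ι × Fin 3) ℝ}

omit [MeasurableSpace Z] in
theorem Rl.det (R : Rl c b a M b0 a0 M0) (h : M.det ≠ 0) : LinearMap.det (mv M0) ≠ 0 := by
  rw [det_mv]
  intro e
  have : M = Complex.ofRealHom.mapMatrix M0 := by
    ext p q
    simp [R.hM]
  rw [this, ← RingHom.map_det, e, map_zero] at h
  exact h rfl

omit [MeasurableSpace Z] in
theorem Rl.sq_chm (R : Rl c b a M b0 a0 M0) (h : M.det ≠ 0) (ω : Z) (z : ι → E3) :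
    sq b (a ω) M (chm b0 (a0 ω) (mv M0) z) = ((∑ i, (-(‖z i‖ ^ 2 / 2) +
      2 * Real.log (1 + ‖a0 ω i + mv M0 z i‖ ^ 2)) : ℝ) : ℂ) := by
  have eA : ∀ i, sA b (chm b0 (a0 ω) (mv M0) z) i = cE (a0 ω i + mv M0 z i) := fun i => by
    rw [sA, chm, cS_mul, R.hb, mul_assoc, uni_cS, mul_one, cS_e0, ch_ex]
  have eZ : sZ b (a ω) M (chm b0 (a0 ω) (mv M0) z) = fun q => (z q.1 q.2 : ℂ) := by
    have : (fun q : ι × Fin 3 => sA b (chm b0 (a0 ω) (mv M0) z) q.1 q.2 - a ω q.1 q.2) =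
        M *ᵥ fun q => (z q.1 q.2 : ℂ) := by
      funext q
      simp [eA, R.ha, cE, mv_apply, mulVec, dotProduct, R.hM]
    rw [sZ, this, mulVec_mulVec, nonsing_inv_mul _ h.isUnit, one_mulVec]
  simp only [sq, eA, eZ, dot_cE_self, Fintype.sum_prod_type, EuclideanSpace.real_norm_sq_eq (z _),
    Finset.sum_add_distrib, ← Finset.mul_sum, Finset.sum_neg_distrib, ← Finset.sum_div]
  push_cast
  congr 2
  refine Finset.sum_congr rfl fun i _ => ?_
  rw [Complex.ofReal_log (by positivity)]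
  push_cast
  rfl

omit [MeasurableSpace Z] in
theorem Rl.exp_chm (R : Rl c b a M b0 a0 M0) (h : M.det ≠ 0) (ω : Z) (z : ι → E3) :
    ((∏ i, dH (a0 ω i + mv M0 z i) : ℝ) : ℂ) *
      Complex.exp (sq b (a ω) M (chm b0 (a0 ω) (mv M0) z)) =
        (cHa ^ Fintype.card ι * gG z : ℝ) := by
  rw [R.sq_chm h, ← Complex.ofReal_exp, ← Complex.ofReal_mul, Real.exp_sum, ← Finset.prod_mul_distrib,
    gG, ← Finset.card_univ, ← Finset.prod_const, ← Finset.prod_mul_distrib]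
  congr 1
  refine Finset.prod_congr rfl fun i _ => ?_
  rw [dH_eq, ← Real.exp_add, gw, ← Real.exp_log cHa_pos, ← Real.exp_add, Real.log_exp]
  congr 1
  ring

omit [Fintype ι] [DecidableEq ι] in
theorem pos_of {b0 : ι → S3} (hb : ∀ i, ‖cS (b0 i) - 1‖ ≤ ε) (h1 : ε ≤ 1 / 100) (hu : u ∈ sD ι ε)
    (i : ι) : 0 < (u i * (b0 i)⁻¹).q.re := by
  have := (norm_cq ((b0 i).q - 1)).1
  rw [cq_sub, cq_one] at this
  refine (ch_cS_le (η := 2 * ε) ((S3.norm_mul_sub _ _).trans ?_) (by linarith)).1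
  rw [S3.norm_inv_sub]
  linarith [hu i, this.trans (hb i)]

theorem Rl.sq_real (R : Rl c b a M b0 a0 M0) (G : Gd ε c b a M) (c0 : 0 < c) (h1 : ε ≤ 1 / 100)
    (ω : Z) (hu : u ∈ sD ι ε) : ∃ r : ℝ, sq b (a ω) M u = r := by
  have p := pos_of (fun i => R.hb i ▸ G.hb i) h1 hu
  choose v hv using fun i => exists_cE (ch_real (u i * (b0 i)⁻¹).q)
  obtain ⟨z, hz⟩ := (LinearMap.equivOfDetNeZero _ (R.det (G.det c0))).surjective (v - a0 ω)
  have : u = chm b0 (a0 ω) (mv M0) z := funext fun i => by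
    have e : mv M0 z i = v i - a0 ω i := congrFun hz i
    rw [chm, e, add_sub_cancel, show e0 (v i) = u i * (b0 i)⁻¹ from
      RG.cS_inj (by rw [cS_e0, hv]; exact ex_ch (p i)), inv_mul_cancel_right]
  exact ⟨_, this ▸ R.sq_chm (G.det c0) ω z⟩

theorem Rl.sm_real (R : Rl c b a M b0 a0 M0) (G : Gd ε c b a M) (c0 : 0 < c) (h1 : ε ≤ 1 / 100)
    (hK : ∀ u, (K u).im = 0) : (sm μ ε b a M K).im = 0 := by
  have key : ∀ {K : (ι → S3) → ℂ}, (∀ u, (K u).im = 0) → ∃ x : ℝ, sI μ ε b a M K = x := by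
    intro K hK
    refine ⟨∫ v : Z × (ι → S3), (Complex.exp (sq b (a v.1) M v.2) * K v.2).re ∂(μ.prod (hD ι ε)), ?_⟩
    rw [← integral_complex_ofReal]
    refine integral_congr_ae ?_
    filter_upwards [ae_sD μ ε] with v hv
    obtain ⟨r, hr⟩ := R.sq_real G c0 h1 v.1 hv
    exact Complex.ext rfl (by simp [hr, hK])
  obtain ⟨x, hx⟩ := key hK
  obtain ⟨y, hy⟩ := key (K := 1) (by simp)
  rw [sm, hx, hy, ← Complex.ofReal_div, Complex.ofReal_im]

/-- data whose exponent is close to the exponent of real data -/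
theorem sm_bd [IsProbabilityMeasure μ] {b' : ι → Hc} {a' : Z → ι → C3} {M' : Mx ι}
    (R : Rl c b a M b0 a0 M0) (G : Gd ε c b a M) (G' : Gd ε c b' a' M') (c0 : 0 < c) (hc : c ≤ ε)
    (h1 : ε ≤ 1 / 100) (h : ∀ ω, ∀ u ∈ sD ι ε, ‖sq b' (a' ω) M' u - sq b (a ω) M u‖ ≤ 1 / 10)
    (hκ : ∀ u, ‖K u‖ ≤ κ) : sI μ ε b' a' M' 1 ≠ 0 ∧ ‖sm μ ε b' a' M' K‖ ≤ 2 * κ := by
  have κ0 : 0 ≤ κ := (norm_nonneg _).trans (hκ 1)
  set w : Z × (ι → S3) → ℝ := fun v => ‖Complex.exp (sq b (a v.1) M v.2) * 1‖ with hw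
  have iw : Integrable w (μ.prod (hD ι ε)) := (G.int (K := 1) (κ := 1) c0 (by linarith) h1
    measurable_const (by simp)).norm
  have w0 : ∀ v, 0 < w v := fun v => by simp [hw]
  have I0 : 0 < ∫ v, w v ∂(μ.prod (hD ι ε)) := by
    rw [integral_pos_iff_support_of_nonneg (fun v => (w0 v).le) iw,
      show Function.support w = univ from eq_univ_of_forall fun v => (w0 v).ne', ← univ_prod_univ,
      prod_prod, measure_univ, one_mul]
    exact pos_iff_ne_zero.2 (hD_pos (c0.trans_le hc))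
  have e1 : ∀ᵐ v ∂(μ.prod (hD ι ε)), ‖Complex.exp (sq b' (a' v.1) M' v.2) - w v‖ ≤ w v / 5 := by
    filter_upwards [ae_sD μ ε] with v hv
    obtain ⟨r, hr⟩ := R.sq_real G c0 h1 v.1 hv
    have e : (w v : ℂ) = Complex.exp (sq b (a v.1) M v.2) := by simp [hw, hr]
    have d := h v.1 v.2 hv
    rw [show Complex.exp (sq b' (a' v.1) M' v.2) - w v = w v *
      (Complex.exp (sq b' (a' v.1) M' v.2 - sq b (a v.1) M v.2) - 1) by
        rw [e, mul_sub, ← Complex.exp_add, add_sub_cancel, mul_one], norm_mul, Complex.norm_real,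
      Real.norm_of_nonneg (w0 v).le]
    nlinarith [Complex.norm_exp_sub_one_le (d.trans (by norm_num)), w0 v]
  have e2 : ‖sI μ ε b' a' M' 1 - (∫ v, w v ∂(μ.prod (hD ι ε)) : ℝ)‖ ≤
      (∫ v, w v ∂(μ.prod (hD ι ε))) / 5 := by
    have iw' : Integrable (fun v => (w v : ℂ)) (μ.prod (hD ι ε)) := iw.ofReal
    rw [sI, ← integral_complex_ofReal, ← integral_sub (G'.int (K := 1) (κ := 1) c0 (by linarith) h1
      measurable_const (by simp)) iw', ← integral_div]
    exact norm_integral_le_of_norm_le (iw.div_const _) (by simpa using e1)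
  have e3 : ‖sI μ ε b' a' M' K‖ ≤ (∫ v, w v ∂(μ.prod (hD ι ε))) * (6 / 5 * κ) := by
    rw [← integral_mul_const]
    refine norm_integral_le_of_norm_le (iw.mul_const _) ?_
    filter_upwards [e1] with v hv
    have := norm_le_insert' (Complex.exp (sq b' (a' v.1) M' v.2)) (w v)
    rw [Complex.norm_real, Real.norm_of_nonneg (w0 v).le] at this
    rw [norm_mul]
    exact (mul_le_mul (by linarith : _ ≤ w v * (6 / 5)) (hκ _) (norm_nonneg _)
      (by linarith [w0 v])).trans_eq (by ring)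
  have e4 := norm_le_insert (sI μ ε b' a' M' 1) (∫ v, w v ∂(μ.prod (hD ι ε)) : ℝ)
  rw [Complex.norm_real, Real.norm_of_nonneg I0.le] at e4
  have e5 : 0 < ‖sI μ ε b' a' M' 1‖ := by linarith
  refine ⟨norm_pos_iff.1 e5, ?_⟩
  rw [sm, norm_div, div_le_iff₀ e5]
  nlinarith

/-- the tube -/
theorem tube [IsProbabilityMeasure μ] {b : ℂ → ι → Hc} {a : ℂ → Z → ι → C3} {M : ℂ → Mx ι}
    {r m : ℝ} (H : Hf (ball 0 r) b a M) (R : Rl c (b 0) (a 0) (M 0) b0 a0 M0)
    (hb : ∀ t ∈ ball (0 : ℂ) r, (∀ i, ‖b t i - 1‖ ≤ ε) ∧ (∀ ω i, ‖a t ω i‖ ≤ ε) ∧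
      Measurable (a t) ∧ ∀ p q, ‖M t p q‖ ≤ m) (c0 : 0 < c) (hc : c ≤ ε) (hm : c ≤ m)
    (h1 : ε ≤ 1 / 100) (hr : 10 ^ 6 * (Fintype.card ι + 1) ^ 2 * (m / c) * (ε / c) ^ 2 ≤ r)
    (hκ : ∀ u, ‖K u‖ ≤ κ) : Gd ε c (b 1) (a 1) (M 1) ∧ sI μ ε (b 1) (a 1) (M 1) 1 ≠ 0 ∧
      ‖sm μ ε (b 1) (a 1) (M 1) K‖ ≤ 2 * κ := by
  set n : ℝ := (Fintype.card ι : ℝ) with hn
  have n0 : 0 ≤ n := Nat.cast_nonneg _
  have m0 : 0 < m := c0.trans_le hm
  have q1 : 1 ≤ (ε / c) ^ 2 := one_le_pow₀ ((one_le_div c0).2 hc)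
  have q2 : 1 ≤ m / c := (one_le_div c0).2 hm
  set r1 := r / (12 * (n + 1) * (m / c)) with hr1
  have r2 : 20 * sQ ι ε c ≤ r1 := by
    rw [hr1, le_div_iff₀ (by positivity), sQ, ← hn]
    have : 0 ≤ (n + 1) ^ 2 * (m / c) * (ε / c) ^ 2 := by positivity
    nlinarith
  have r3 : 1 ≤ sQ ι ε c := by
    rw [sQ, ← hn]
    nlinarith
  have r0 : 0 < r := lt_of_lt_of_le (by positivity) hr
  have sub : ball (0 : ℂ) r1 ⊆ ball 0 r := ball_subset_ball (div_le_self r0.le (by nlinarith))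
  have z0 : (0 : ℂ) ∈ ball (0 : ℂ) r := mem_ball_self r0
  have G : ∀ t ∈ ball (0 : ℂ) r1, Gd ε c (b t) (a t) (M t) := fun t ht => by
    obtain ⟨x1, x2, x3, -⟩ := hb t (sub ht)
    refine ⟨x1, x2, x3, coer c0 R.co (η := 2 * m / r * r1) (fun p q => ?_) ?_⟩
    · have := Complex.dist_le_div_mul_dist_of_mapsTo_ball (R₂ := 2 * m) (H.hM p q) (fun s hs => by
        rw [mem_closedBall_iff_norm]
        exact (norm_sub_le _ _).trans (by linarith [(hb s hs).2.2.2 p q, (hb 0 z0).2.2.2 p q]))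
        (sub ht)
      rw [dist_eq_norm, R.hM] at this
      exact this.trans (mul_le_mul_of_nonneg_left (mem_ball.1 ht).le (by positivity))
    · rw [Fintype.card_prod, Fintype.card_fin, hr1]
      push_cast
      rw [← hn, show 2 * (2 * m / r * (r / (12 * (n + 1) * (m / c)))) * (n * 3) =
        c * (n / (n + 1)) by field_simp; ring]
      exact mul_le_of_le_one_right c0.le ((div_le_one (by positivity)).2 (by linarith))
  have o1 : (1 : ℂ) ∈ ball (0 : ℂ) r1 := by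
    rw [mem_ball_zero_iff, norm_one]
    linarith
  have o0 : (0 : ℂ) ∈ ball (0 : ℂ) r1 := mem_ball_self (by linarith)
  refine ⟨G 1 o1, sm_bd R (G 0 o0) (G 1 o1) c0 hc h1 (fun ω u hu => ?_) hκ⟩
  have := Complex.dist_le_div_mul_dist_of_mapsTo_ball (R₂ := 2 * sQ ι ε c)
    ((Hf.mk (fun i => (H.hb i).mono sub) (fun ω i => (H.ha ω i).mono sub)
      fun p q => (H.hM p q).mono sub).sq G c0 h1 ω hu) (fun s hs => by
      rw [mem_closedBall_iff_norm]
      exact (norm_sub_le _ _).trans (by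
        linarith [(G s hs).bd c0 (by linarith) h1 ω hu, (G 0 o0).bd c0 (by linarith) h1 ω hu])) o1
  rw [dist_eq_norm, dist_zero_right, norm_one, mul_one] at this
  exact this.trans (by rw [div_le_iff₀ (by linarith)]; linarith)

theorem Rl.fibre (R : Rl c b a M b0 a0 M0) (G : Gd ε c b a M) (c0 : 0 < c) (h1 : ε ≤ 1 / 100)
    (hK : Measurable K) (ω : Z) : ∫ u, Complex.exp (sq b (a ω) M u) * K u ∂(hD ι ε) =
      (|LinearMap.det (mv M0)| * cHa ^ Fintype.card ι : ℝ) *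
        ∫ z in chm b0 (a0 ω) (mv M0) ⁻¹' sD ι ε, gG z * K (chm b0 (a0 ω) (mv M0) z) := by
  have hm := mp_chm b0 (a0 ω) (R.det (G.det c0))
  have mP := LinearMap.continuous_of_finiteDimensional (mv M0)
  have md : Measurable fun z => ENNReal.ofReal
      (|LinearMap.det (mv M0)| * ∏ i, dH (a0 ω i + mv M0 z i)) :=
    (Continuous.measurable (continuous_const.mul (continuous_finsetProd _ fun i _ =>
      cont_dH.comp (by fun_prop)))).ennreal_ofReal
  have sb : sD ι ε ⊆ {u | ∀ i, 0 < (u i * (b0 i)⁻¹).q.re} :=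
    fun u hu => pos_of (fun i => R.hb i ▸ G.hb i) h1 hu
  have mg : Measurable fun u => Complex.exp (sq b (a ω) M u) * K u :=
    (meas_sq b M measurable_const measurable_id).cexp.mul hK
  rw [hD, ← restrict_restrict_of_subset sb, ← hm.map_eq,
    setIntegral_map (meas_sD ε) mg.aestronglyMeasurable hm.measurable.aemeasurable,
    setIntegral_withDensity_eq_setIntegral_toReal_smul₀ md.aemeasurable
      (.of_forall fun _ => ENNReal.ofReal_lt_top) _ (hm.measurable (meas_sD ε)),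
    ← integral_const_mul]
  refine integral_congr_ae (.of_forall fun z => ?_)
  have := R.exp_chm (G.det c0) ω z
  simp only [ENNReal.toReal_ofReal (mul_nonneg (abs_nonneg _)
    (Finset.prod_nonneg fun i _ => (dH_pos _).le)), Complex.real_smul]
  rw [Complex.ofReal_mul] at this ⊢
  rw [Complex.ofReal_mul]
  linear_combination (|LinearMap.det (mv M0)| : ℝ) * K (chm b0 (a0 ω) (mv M0) z) * this

/-- comparison with the truncated Gaussian mean -/
theorem Rl.close [IsProbabilityMeasure μ] (R : Rl c b a M b0 a0 M0) (G : Gd ε c b a M) (c0 : 0 < c)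
    (c1 : c ≤ 1) (h1 : ε ≤ 1 / 100) (hζ : 0 < ζ)
    (hin : ∀ ω, ∀ z ∈ bx ι ζ, chm b0 (a0 ω) (mv M0) z ∈ sD ι ε)
    (ht : 24 * (Fintype.card ι + 1) * Real.exp (-(ζ ^ 2 / 4)) ≤ 1) (hK : Measurable K)
    (hκ : ∀ u, ‖K u‖ ≤ κ) :
    ‖sm μ ε b a M K - ∫ ω, ∫ z, K (chm b0 (a0 ω) (mv M0) z) ∂(Measure.pi fun _ => nu ζ) ∂μ‖ ≤
      48 * Fintype.card ι * Real.exp (-(ζ ^ 2 / 4)) * κ := by
  have := nu_prob hζ
  set n := Fintype.card ι with hn
  set t := Real.exp (-(ζ ^ 2 / 4)) with ht'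
  set C : ℝ := |LinearMap.det (mv M0)| * cHa ^ n with hC
  have C0 : 0 < C := mul_pos (abs_pos.2 (R.det (G.det c0))) (pow_pos cHa_pos _)
  have z0 := pow_pos (zn_pos hζ) n
  have m0 : Measurable a0 := measurable_pi_lambda _ fun i => by
    have : (fun ω => a0 ω i) = fun ω => WithLp.toLp 2 fun k => (a ω i k).re := by
      funext ω
      ext k
      simp [R.ha, cE]
    rw [this]
    exact (PiLp.continuous_toLp 2 _).measurable.comp (measurable_pi_lambda _ fun k =>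
      Complex.measurable_re.comp G.hm.eval.eval)
  have mP := (LinearMap.continuous_of_finiteDimensional (mv M0)).measurable
  have mc : Measurable fun v : Z × (ι → E3) => chm b0 (a0 v.1) (mv M0) v.2 :=
    measurable_pi_lambda _ fun i => (continuous_e0.measurable.comp
      ((m0.comp measurable_fst).eval.add (mP.comp measurable_snd).eval)).mul_const _
  have key : ∀ {K : (ι → S3) → ℂ} {κ : ℝ}, Measurable K → (∀ u, ‖K u‖ ≤ κ) →
      ‖sI μ ε b a M K - (C * zn ζ ^ n : ℝ) * ∫ ω, ∫ z, K (chm b0 (a0 ω) (mv M0) z)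
        ∂(Measure.pi fun _ => nu ζ) ∂μ‖ ≤ C * zn ζ ^ n * (12 * n * t * κ) := by
    intro K κ hK hκ
    have κ0 : 0 ≤ κ := (norm_nonneg _).trans (hκ 1)
    have i1 := G.int (μ := μ) c0 c1 h1 hK hκ
    have i2 : Integrable (fun v : Z × (ι → E3) => K (chm b0 (a0 v.1) (mv M0) v.2))
        (μ.prod (Measure.pi fun _ => nu ζ)) :=
      .of_bound (hK.comp mc).aestronglyMeasurable κ (.of_forall fun v => hκ _)
    rw [sI, integral_prod _ i1, ← integral_const_mul,
      ← integral_sub i1.integral_prod_left (i2.integral_prod_left.const_mul _)]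
    refine (norm_integral_le_of_norm_le_const (.of_forall fun ω => ?_)).trans_eq (by simp; rfl)
    have mω := (cont_chm b0 (a0 ω) (mv M0)).measurable
    have i4 : Integrable fun z : ι → E3 => (gG z : ℂ) := int_gG.ofReal
    have i3 : Integrable fun z => (gG z : ℂ) * K (chm b0 (a0 ω) (mv M0) z) :=
      i4.mul_bdd (hK.comp mω).aestronglyMeasurable (.of_forall fun v => hκ _)
    have sb : bx ι ζ ⊆ chm b0 (a0 ω) (mv M0) ⁻¹' sD ι ε := hin ω
    simp only
    rw [R.fibre G c0 h1 hK, ← hn, ← hC, Complex.ofReal_mul C, mul_assoc (C : ℂ), Complex.ofReal_pow,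
      hn, nu_int hζ, ← mul_sub, ← setIntegral_sdiff (meas_bx ζ) i3.integrableOn sb, norm_mul,
      Complex.norm_real, Real.norm_of_nonneg C0.le, mul_assoc C]
    refine mul_le_mul_of_nonneg_left ?_ C0.le
    have e1 : ∫ z in (bx ι ζ)ᶜ, gG z * κ = ((∫ v, gw v) ^ n - zn ζ ^ n) * κ := by
      rw [integral_mul_const, setIntegral_compl (meas_bx ζ) int_gG, int_bx hζ, hn,
        ← integral_fintype_prod_volume_eq_pow]
      rfl
    refine (norm_integral_le_of_norm_le (int_gG.mul_const κ).integrableOn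
      (.of_forall fun z => ?_)).trans ((setIntegral_mono_set (int_gG.mul_const κ).integrableOn
        (.of_forall fun z => mul_nonneg (gG_pos z).le κ0)
        (LE.le.eventuallyLE (sdiff_subset_compl _ _))).trans ?_)
    · rw [norm_mul, Complex.norm_real, Real.norm_of_nonneg (gG_pos z).le]
      exact mul_le_mul_of_nonneg_left (hκ _) (gG_pos z).le
    · rw [e1]
      exact (mul_le_mul_of_nonneg_right (tail hζ n ht) κ0).trans_eq (by rw [← hn]; ring)
  have k1 := key hK hκ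
  have k2 := key (K := 1) (κ := 1) measurable_const (by simp)
  simp only [Pi.one_apply, integral_const, probReal_univ, one_smul, mul_one] at k2
  set e := ∫ ω, ∫ z, K (chm b0 (a0 ω) (mv M0) z) ∂(Measure.pi fun _ => nu ζ) ∂μ with he
  have e0 : ‖e‖ ≤ κ := (norm_integral_le_of_norm_le_const (.of_forall fun ω =>
    (norm_integral_le_of_norm_le_const (.of_forall fun z => hκ _)).trans_eq (by simp; rfl))).trans_eq
      (by simp)
  set s : ℝ := C * zn ζ ^ n with hs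
  have s0 : 0 < s := mul_pos C0 z0
  have t0 : 0 < t := Real.exp_pos _
  have n0 : (0 : ℝ) ≤ n := n.cast_nonneg
  have κ0 : 0 ≤ κ := (norm_nonneg _).trans e0
  have k3 := norm_le_insert (sI μ ε b a M 1) (s : ℂ)
  rw [Complex.norm_real, Real.norm_of_nonneg s0.le] at k3
  have k4 : s / 2 ≤ ‖sI μ ε b a M 1‖ := by nlinarith
  have k5 : 0 < ‖sI μ ε b a M 1‖ := by linarith
  rw [sm, div_sub' (norm_pos_iff.1 k5), norm_div, div_le_iff₀ k5,
    show sI μ ε b a M K - sI μ ε b a M 1 * e =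
      (sI μ ε b a M K - s * e) - (sI μ ε b a M 1 - s) * e by ring]
  refine (norm_sub_le _ _).trans ?_
  rw [norm_mul]
  have k6 := mul_le_mul k2 e0 (norm_nonneg _) (by positivity)
  nlinarith [mul_le_mul_of_nonneg_left k4 (by positivity : 0 ≤ 48 * n * t * κ)]

end Pool.Agent.Lib.MP_7f377f_mp.RG.Q4.Smo
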