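import Pool.Agent.Lib.MP_7f377f_mp.Q4OpK2
import Pool.Agent.Lib.MP_7f377f_mp.Q4Sm

/-! Positivity of the whitening operator. -/

noncomputable section

namespace Pool.Agent.Lib.MP_7f377f_mp.RG.Q4

open Finset Polynomial Od

attribute [local irreducible] box lbox cube

variable {l c : ℕ} {Λ δ : ℝ} {H : Set St} {ka : St → Kf} {A A' : Fld} {n : Fin 4 → ℕ} {O : Od}
  {W : Cf} {W0 : Conf}

namespace Smo

theorem bin_anti (i : ℕ) : 0 ≤ bin (i + 1) ∧ bin (i + 1) ≤ bin i := by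
  have : ∀ i, 0 ≤ bin i := fun i => by
    induction i with
    | zero => simp [bin]
    | succ i ih => rw [bin]; positivity
  refine ⟨this _, ?_⟩
  rw [bin, div_le_iff₀ (by positivity)]
  linarith [this i]

theorem bin_sum {m : ℕ → ℝ} (h0 : ∀ k, 0 ≤ m (2 * k)) (h1 : ∀ k, -m (2 * k) ≤ m (2 * k + 1))
    (N : ℕ) : m 0 / 2 ≤ ∑ i ∈ range (N + 1), bin i * m i := by
  have h : ∀ k, m 0 / 2 ≤ ∑ i ∈ range (2 * k + 2), bin i * m i := fun k => by
    induction k with
    | zero => simpa [sum_range_succ, bin] using (by linarith [h1 0] : m 0 / 2 ≤ m 0 + 2⁻¹ * m 1)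
    | succ k ih =>
      rw [show 2 * (k + 1) + 2 = 2 * k + 2 + 1 + 1 by ring, sum_range_succ, sum_range_succ]
      obtain ⟨a, b⟩ := bin_anti (2 * k + 2)
      have a0 := h0 (k + 1)
      have a1 := h1 (k + 1)
      rw [show 2 * (k + 1) = 2 * k + 2 by ring] at a0 a1
      nlinarith [mul_le_mul_of_nonneg_left a1 a, mul_le_mul_of_nonneg_right b a0]
  obtain ⟨k, rfl | rfl⟩ := Nat.even_or_odd' N
  · cases k with
    | zero => simpa [bin] using h0 0
    | succ k =>
      rw [sum_range_succ]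
      exact (h k).trans (le_add_of_nonneg_right (mul_nonneg (bin_anti _).1 (h0 _)))
  · exact h k

theorem bp_self (hA : RealF A) : (bp n l A A).re = nrm2 n l A ^ 2 := by
  simp only [nrm2_sq, bp, dot, Complex.re_sum]
  refine sum_congr rfl fun y _ => sum_congr rfl fun t _ => sum_congr rfl fun k _ => ?_
  simp [sh, Complex.sq_norm, Complex.normSq_apply, hA _ k]

theorem bp_ge : -(nrm2 n l A' ^ 2 + nrm2 n l A ^ 2) ≤ 2 * (bp n l A' A).re := by
  simp only [nrm2_sq, bp, dot, Complex.re_sum, mul_sum, ← sum_add_distrib, ← sum_neg_distrib]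
  refine sum_le_sum fun y _ => sum_le_sum fun t _ => sum_le_sum fun k _ => ?_
  simp only [sh, Complex.sq_norm, Complex.normSq_apply, Complex.mul_re]
  nlinarith [sq_nonneg ((A' (t.1 + up l y, t.2) k).re + (A (t.1 + up l y, t.2) k).re),
    sq_nonneg ((A' (t.1 + up l y, t.2) k).im - (A (t.1 + up l y, t.2) k).im)]

theorem pP_tor (hn : ∀ i, Odd (n i)) (hH : PerS n H) (hk : PerK n ka)
    (hs : ∀ y, Nf H y → Ks (ka y)) (hr : ∀ y, Nf H y → Kr (ka y))
    (h : ∀ A, PerV (fi l n) A → nrm2 n l (topK l Λ H ka A) ≤ nrm2 n l A) (hA : PerV (fi l n) A)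
    (rA : RealF A) (N : ℕ) :
    nrm2 n l (pj l H A) ^ 2 / 2 ≤ (bp n l A (polK l Λ (pP N) H ka A)).re := by
  classical
  wlog hs' : ∀ y, Ks (ka y) generalizing ka
  · have e : topK l Λ H ka = topK l Λ H fun y => if Nf H y then ka y else 0 :=
      topK_congr fun y hy => by rw [if_pos hy]; exact Kc.refl _ le_rfl
    rw [polK, e]
    refine this (fun y v => ?_) (fun y hy => by rw [if_pos hy]; exact hs y hy)
      (fun y hy => by rw [if_pos hy]; exact hr y hy) (e ▸ h) fun y => ?_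
    · simp only [← nf_shS, hH v, hk y v]
    · split_ifs with hy
      exacts [hs y hy, fun _ _ _ _ => rfl]
  have rk : ∀ k, RealF (polK l Λ (X ^ k) H ka A) := fun k =>
    polK_real (fun i => by rw [coeff_X_pow]; split_ifs <;> simp) hr rA
  have e : ∀ k (q : ℂ[X]), bp n l A (polK l Λ (X ^ k * q * X ^ k) H ka A) =
      bp n l (polK l Λ (X ^ k) H ka A) (polK l Λ q H ka (polK l Λ (X ^ k) H ka A)) := fun k q => by
    rw [mul_assoc, polK_mul, bp_polK hn hH hk hs' (polK_per hH hk hA) hA, polK_mul]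
  have e0 : ∀ k, (bp n l A (polK l Λ (X ^ (2 * k)) H ka A)).re =
      nrm2 n l (polK l Λ (X ^ k) H ka A) ^ 2 := fun k => by
    rw [← bp_self (rk k), show (X : ℂ[X]) ^ (2 * k) = X ^ k * 1 * X ^ k by ring, e, polK_one, pj_polK]
  have := bin_sum (m := fun i => (bp n l A (polK l Λ (X ^ i) H ka A)).re)
    (fun k => (e0 k).symm ▸ sq_nonneg _) (fun k => by
      have h1 := pow_le_pow_left₀ nrm2_nonneg (h _ (polK_per (Λ := Λ) (p := X ^ k) hH hk hA)) 2
      have h2 := bp_ge (n := n) (l := l) (A' := polK l Λ (X ^ k) H ka A)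
        (A := topK l Λ H ka (polK l Λ (X ^ k) H ka A))
      simp only [e0, show (X : ℂ[X]) ^ (2 * k + 1) = X ^ k * X * X ^ k by ring, e, polK_X]
      linarith) N
  rw [e0 0, pow_zero, polK_one] at this
  refine this.trans_eq ?_
  have e2 : polK l Λ (pP N) H ka A = ∑ i ∈ range (N + 1), (bin i : ℂ) • polK l Λ (X ^ i) H ka A := by
    simp only [polK_eq, pP, map_sum, LinearMap.sum_apply, ← C_mul_X_pow_eq_monomial, ← smul_eq_C_mul,
      map_smul, LinearMap.smul_apply]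
  rw [e2]
  change _ = (bpL n l A _).re
  simp only [map_sum, map_smul, Complex.re_sum, smul_eq_mul, Complex.re_ofReal_mul]
  rfl

end Smo

open Smo

/-- the whitening operator is at least one half on the active links -/
theorem pP_coer (h : O.Ok c) (hδ : (LL O.l : ℝ) ^ (2 * c + 10) * δ ≤ 1) {a N : ℕ} {S : Finset Lk}
    (hS : ∀ f ∈ S, f ∈ lbox (fb O.l a) ∧ Act O.l H f)
    (hg : ∀ y ∈ box (a + 2 * N + 1), Gk O δ H ka W W0 y ∧ (Nf H y → Ks (ka y) ∧ Kr (ka y)))
    (rA : RealF A) (hA : ∀ f ∉ S, A f = 0) : 1 / 2 * ∑ f ∈ S, (dot (A f) (A f)).re ≤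
      ∑ f ∈ S, (dot (A f) (polK O.l O.Λ (pP N) H ka A f)).re := by
  set R := a + 2 * N
  have h1 : S ⊆ lbox (fb O.l (R + 6)) := fun f hf =>
    lbox_mono (Op.fb_mono _ (by omega)) (hS f hf).1
  have rB : RealF (pcv (fi O.l (tn R)) A) := fun e k => rA _ k
  have key := pP_tor (Λ := O.Λ) (tn_odd R) tH_per perK_rcv
    (fun y hy => ((hg _ (tH_nf hy).1).2 (tH_nf hy).2).1)
    (fun y hy => ((hg _ (tH_nf hy).1).2 (tH_nf hy).2).2)
    (fun A hA => (topK_l2 h hδ (tn_odd _) tH_per (pcv_per _) (tH_gk h fun y hy => (hg y hy).1) hA).trans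
      (mul_le_of_le_one_left nrm2_nonneg (θ_mem h).2)) (pcv_per A) rB N
  have e1 : pj O.l (tH R H) (pcv (fi O.l (tn R)) A) = pcv (fi O.l (tn R)) A :=
    pj_of fun f hf => hA _ fun hf' => hf (by
      obtain ⟨v, hv⟩ := rcv_spec (fi O.l (tn R)) f.1
      have := (tH_per.act _ v _).2 ((tH_ag.act
        (lbox_mono (Op.fb_mono _ (by omega : a ≤ R)) (hS _ hf').1)).1 (hS _ hf').2)
      rwa [← hv] at this)
  have e2 : ∀ B : Fld, bp (tn R) O.l (pcv (fi O.l (tn R)) A) (pcv (fi O.l (tn R)) B) =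
      ∑ f ∈ S, dot (A f) (B f) := fun B =>
    sum_tn (g := fun e => dot (A e) (B e)) S h1 fun e he => by rw [hA e he, zero_dot]
  rw [e1, ← bp_self rB, e2, ← (polK_per tH_per perK_rcv (pcv_per A)).pcv, e2] at key
  rw [← Complex.re_sum, ← Complex.re_sum, sum_congr rfl fun f hf => congrArg (dot (A f))
    (polK_tn (Op.natDegree_pP N) le_rfl (fun _ _ => rfl) f (hS f hf).1)]
  linarith

end Pool.Agent.Lib.MP_7f377f_mp.RG.Q4
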