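import Pool.Agent.Lib.MP_7f377f_mp.Q4Sh
import Pool.Agent.Lib.MP_7f377f_mp.Q4FoC

/-! Comparison of two tori: determinant marks and geometry. -/

noncomputable section

namespace Pool.Agent.Lib.MP_7f377f_mp.RG.Q4

open Finset Polynomial Matrix
open scoped Classical Pointwise

attribute [local irreducible] box lbox

namespace Loc

section inj

variable {I I' σ : Type} [Fintype I] [DecidableEq I] [Fintype I'] [DecidableEq I'] [DecidableEq σ]
  {e : I → I'}

/-- the matrix of an injection of the indices -/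
def em (e : I → I') : Matrix I' I ℂ := Matrix.of fun j i => if j = e i then 1 else 0

/-- extension by zero -/
def xz (e : I → I') (A : Matrix I I ℂ) : Matrix I' I' ℂ := em e * A * (em e)ᵀ

omit [Fintype I] in
theorem em_em (he : Function.Injective e) : (em e)ᵀ * em e = 1 := by
  ext i j
  simp [em, mul_apply, one_apply, he.eq_iff, eq_comm]

theorem xz_mul (he : Function.Injective e) (A B : Matrix I I ℂ) :
    xz e A * xz e B = xz e (A * B) := by
  simp only [xz, Matrix.mul_assoc]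
  rw [← Matrix.mul_assoc (em e)ᵀ, em_em he, Matrix.one_mul]

theorem xz_trace (he : Function.Injective e) (A : Matrix I I ℂ) : trace (xz e A) = trace A := by
  rw [xz, trace_mul_comm, ← Matrix.mul_assoc, em_em he, Matrix.one_mul]

omit [Fintype I'] in
theorem xz_eq (he : Function.Injective e) {A : Matrix I I ℂ} {A' : Matrix I' I' ℂ}
    (h1 : ∀ i j, A' (e i) (e j) = A i j)
    (h2 : ∀ i j, A' i j ≠ 0 → i ∈ Set.range e ∧ j ∈ Set.range e) : A' = xz e A := by
  ext i j
  by_cases h : i ∈ Set.range e ∧ j ∈ Set.range e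
  · obtain ⟨⟨i, rfl⟩, j, rfl⟩ := h
    simp [xz, em, mul_apply, he.eq_iff, h1]
  · rw [by_contra fun a => h (h2 i j a)]
    rcases not_and_or.1 h with h | h
    · have : ∀ x, i ≠ e x := fun x a => h ⟨x, a.symm⟩
      simp [xz, em, mul_apply, this]
    · have : ∀ x, j ≠ e x := fun x a => h ⟨x, a.symm⟩
      simp [xz, em, mul_apply, this]

theorem xz_aeval (he : Function.Injective e) (A C : Matrix I I ℂ) (p : ℂ[X]) :
    xz e A * aeval (xz e C) p = xz e (A * aeval C p) := by
  induction p using Polynomial.induction_on with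
  | C a => simp [Algebra.algebraMap_eq_smul_one, xz]
  | add p q hp hq =>
    rw [map_add, map_add, mul_add, mul_add, hp, hq]
    simp only [xz, Matrix.mul_add, Matrix.add_mul]
  | monomial k a ih =>
    rw [pow_succ, ← mul_assoc, map_mul, map_mul _ _ X, aeval_X, aeval_X, ← mul_assoc, ih,
      xz_mul he, mul_assoc]

omit [DecidableEq σ] in
theorem xz_prod (he : Function.Injective e) {Y : σ → Matrix I I ℂ} {Y' : σ → Matrix I' I' ℂ}
    {w : List σ} (h : ∀ y ∈ w, Y' y = xz e (Y y)) (A : Matrix I I ℂ) :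
    xz e A * (w.map Y').prod = xz e (A * (w.map Y).prod) := by
  induction w generalizing A with
  | nil => simp
  | cons y w ih =>
    rw [List.map_cons, List.map_cons, List.prod_cons, List.prod_cons, ← mul_assoc, h y (by simp),
      xz_mul he, ih fun z hz => h z (by simp [hz]), mul_assoc]

/-- invariance under an injection of the indices -/
theorem Qd_inj (he : Function.Injective e) {π : I → σ} {π' : I' → σ} {B B' : σ → Finset σ}
    {M : Matrix I I ℂ} {M' : Matrix I' I' ℂ} {S : Finset σ} (h0 : ∀ i, π' (e i) = π i)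
    (h1 : ∀ y ∈ S, B' y = B y) (h2 : ∀ y ∈ S, ∀ j, π' j = y ∨ π' j ∈ B y → j ∈ Set.range e)
    (h3 : ∀ y ∈ S, ∀ i j, π i ∈ B y → π j ∈ B y → M' (e i) (e j) = M i j) (N : ℕ) :
    Qd π' B' N M' S = Qd π B N M S := by
  have a : ∀ p, ∀ y ∈ S, lp π' B' p M' y = xz e (lp π B p M y) := fun p y hy => by
    have a1 : prj π' y = xz e (prj π y) := xz_eq he
      (fun i j => by simp [prj, diagonal_apply, he.eq_iff, h0]) fun i j h => by
        simp only [prj, diagonal_apply, ne_eq, ite_eq_right_iff, not_forall] at h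
        obtain ⟨rfl, h, -⟩ := h
        exact ⟨h2 y hy _ (.inl h), h2 y hy _ (.inl h)⟩
    have a2 : cpr π' (B y) M' = xz e (cpr π (B y) M) := xz_eq he
      (fun i j => by
        rw [cpr_apply, cpr_apply, h0, h0]
        split_ifs with h
        exacts [h3 y hy i j h.1 h.2, rfl]) fun i j h => by
        simp only [cpr_apply, ne_eq, ite_eq_right_iff, not_forall] at h
        exact ⟨h2 y hy _ (.inr h.1.1), h2 y hy _ (.inr h.1.2)⟩
    rw [lp, lp, h1 y hy, a1, a2, xz_aeval he]
  have b : ∀ p s m, Qm π' B' p s M' m S = Qm π B p s M m S := fun p s m => by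
    rw [Qm, Qm, Wm, Wm, trace_sum, trace_sum]
    refine sum_congr rfl fun w hw => ?_
    have c : ∀ y ∈ w, y ∈ S := fun y hy => (mem_rng.1 hw).2 ▸ List.mem_toFinset.2 hy
    cases w with
    | nil => simp [tw]
    | cons y w => rw [tw, tw, a s y (c y (by simp)),
        xz_prod he fun z hz => a p z (c z (by simp [hz])), xz_trace he]
  simp only [Qd, QS, b]

end inj

end Loc

namespace Tor

variable {n n' l R D : ℕ} {x y : St} {X Y : Finset St}

theorem rc_box (hn : Odd n) (h : R ≤ n / 2) (hx : x ∈ box R) : rc n x = x :=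
  rc_eq hn (box_mono h hx)

theorem rc_dvd (h : n ∣ n') (x : St) : rc n (rc n' x) = rc n x := by
  obtain ⟨v, e⟩ := rc_exists n' x
  obtain ⟨k, rfl⟩ := h
  rw [e, Nat.cast_mul, mul_smul, rc_add_smul]

theorem per_dvd {α : Type} (h : n ∣ n') {U : Lk → α} (hU : Per n U) : Per n' U := fun μ => by
  obtain ⟨k, rfl⟩ := h
  rw [Nat.cast_mul, mul_smul, hU.sh_smul]

theorem img_tor (hn : Odd n) (hn' : Odd n') (h : R ≤ n / 2) (h' : R ≤ n' / 2) {α : Type}
    {A : Finset α} {f : α → St} (hA : ∀ a ∈ A, f a ∈ box R) :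
    (A.image fun a => rc n (f a)) = A.image fun a => rc n' (f a) :=
  image_congr fun a ha => (rc_box hn h (hA a ha)).trans (rc_box hn' h' (hA a ha)).symm

theorem tb_tor (hn : Odd n) (hn' : Odd n') (h : R + D ≤ n / 2) (h' : R + D ≤ n' / 2)
    (hX : X ⊆ box R) : tb n D X = tb n' D X :=
  img_tor hn hn' h h' (f := id) fun a ha => by
    obtain ⟨x, hx, b, hb, rfl⟩ := mem_add.1 ha
    exact add_mem_box (hX hx) hb

theorem dn_tor (hn : Odd n) (hn' : Odd n') (h : R ≤ n / 2) (h' : R ≤ n' / 2)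
    (hX : X ⊆ box (fb l R)) : dn l n X = dn l n' X :=
  img_tor hn hn' h h' fun _ ha => Op.mem_fb.1 (hX ha)

/-- a set of the fine torus lies over its blocks -/
theorem dn_sub (hn : Odd n) (hX : X ⊆ box (fb l (n / 2))) (h : dn l n X ⊆ box R) :
    X ⊆ box (fb l R) := fun x hx => Op.mem_fb.2 (by
  rw [← rc_eq hn (Op.mem_fb.1 (hX hx))]
  exact h (mem_image_of_mem _ hx))

theorem tau_one : tau n D X = 1 ↔ ∃ p, ∀ x ∈ X, nearT n D p x := by
  constructor
  · intro h
    have : Tour n D X (tau n D X) := Nat.sInf_mem (s := {k | Tour n D X k})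
      (Nat.nonempty_of_pos_sInf (h ▸ one_pos : 0 < tau n D X))
    rw [h] at this
    obtain ⟨-, p, -, -, h3⟩ := this
    refine ⟨p 0, fun x hx => ?_⟩
    obtain ⟨i, hi, h4⟩ := h3 x hx
    rwa [show i = 0 by omega] at h4
  · rintro ⟨p, h⟩
    have a : Tour n D X 1 :=
      ⟨one_pos, fun _ => p, rfl, fun _ _ => nearT.refl _ _ _, fun x hx => ⟨0, one_pos, h x hx⟩⟩
    exact le_antisymm (tau_le a) (Nat.sInf_mem (s := {k | Tour n D X k}) ⟨1, a⟩).1

theorem tau_tor (h : 2 * (R + D) < n) (hX : X ⊆ box R) (h1 : tau n D X = 1) (n' : ℕ) :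
    tau n' D X = 1 := by
  obtain ⟨p, hp⟩ := tau_one.1 h1
  rcases X.eq_empty_or_nonempty with rfl | ⟨x0, h0⟩
  · exact tau_one.2 ⟨0, by simp⟩
  obtain ⟨v0, a⟩ := nearT_iff.1 (hp x0 h0)
  refine tau_one.2 ⟨p + (n : ℤ) • v0, fun x hx => nearT_iff.2 ⟨0, fun i => ?_⟩⟩
  obtain ⟨v, b⟩ := nearT_iff.1 (hp x hx)
  have a1 := a i
  have b1 := b i
  have c1 := mem_box.1 (hX hx) i
  have c2 := mem_box.1 (hX h0) i
  have c3 : (2 * (R + D) : ℤ) < n := by exact_mod_cast h
  have e : v i = v0 i := by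
    rcases lt_trichotomy (v i) (v0 i) with g | g | g
    · nlinarith
    · exact g
    · nlinarith
  simp only [Pi.add_apply, Pi.smul_apply, smul_eq_mul, Pi.zero_apply, mul_zero, sub_zero]
  rw [e] at b1
  omega

section abs

variable {σ Ω : Type} [DecidableEq σ] [DecidableEq Ω] {sp sp' : Ω → Finset σ} {O : Finset Ω}

omit [DecidableEq Ω] in
theorem us_congr (h : ∀ o ∈ O, sp o = sp' o) : us sp O = us sp' O := biUnion_congr rfl h

theorem conn_congr (h : ∀ o ∈ O, sp o = sp' o) : Conn sp O ↔ Conn sp' O :=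
  and_congr_right fun _ => forall₂_congr fun O1 h1 => by
    rw [us_congr fun o ho => h o (h1 ho), us_congr fun o ho => h o (sdiff_subset ho)]

theorem comps_congr (h : ∀ o ∈ O, sp o = sp' o) : comps sp O = comps sp' O := by
  ext O1
  rw [mem_comps, mem_comps]
  refine and_congr_right fun h1 => ?_
  rw [conn_congr fun o ho => h o (h1 ho), us_congr fun o ho => h o (h1 ho),
    us_congr fun o ho => h o (sdiff_subset ho)]

theorem clus_sub {Ω0 Ω1 : Finset Ω} {Y : Finset σ}
    (h : ∀ o ∈ Ω0, sp o ⊆ Y → o ∈ Ω1 ∧ sp o = sp' o) : clus sp Ω0 Y ⊆ clus sp' Ω1 Y := fun O hO => by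
  obtain ⟨h1, h2, h3⟩ := mem_clus.1 hO
  have a := fun o ho => h o (h1 ho) (h3 ▸ sp_sub_us sp ho)
  exact mem_clus.2 ⟨fun o ho => (a o ho).1, (conn_congr fun o ho => (a o ho).2).1 h2,
    us_congr (fun o ho => (a o ho).2) ▸ h3⟩

end abs

open Loc

theorem mem_cu : x ∈ domv (cu n) ↔ x ∈ box (n / 2) := by
  simp only [domv, Fintype.mem_piFinset, mem_Icc, mem_box]

theorem blv_tb (n D : ℕ) (y : St) : blv (cu n) D y = tb n D {y} := by
  ext z
  simp only [mem_blv, tb, mem_image, Finset.mem_add, mem_singleton, exists_eq_left,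
    exists_exists_and_eq_and]
  rfl

theorem pd_tor (hn : Odd n) (h : R ≤ n / 2) {f g : Lk} (hf : yo l f.1 ∈ box R)
    (hg : yo l g.1 ∈ box R) (b : C3) : pd (fi l (cu n)) g b f = if f = g then b else 0 := by
  refine if_congr ⟨fun e => Prod.ext (dom_inj (odd_fi (fun _ => hn) l)
    ((mem_fine fun _ => hn).2 (mem_cu.2 (box_mono h hf)))
    ((mem_fine fun _ => hn).2 (mem_cu.2 (box_mono h hg))) e.1) e.2, fun e => ?_⟩ rfl rfl
  rw [e, sub_self]
  exact ⟨dv_zero, rfl⟩

/-- the indices of the small torus as indices of the large torus -/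
def ixm (l : ℕ) (h : n / 2 ≤ n' / 2) (i : IX (cu n) l) : IX (cu n') l :=
  (⟨i.1, mem_cu.2 (box_mono h (mem_cu.1 i.1.2))⟩, i.2)

theorem mat_tor (hn : Odd n) (hn' : Odd n') (h' : n / 2 ≤ n' / 2) {ρ : ℕ} (h : R + ρ ≤ n / 2)
    {G : Fld →ₗ[ℂ] Fld} (hG : RnG l ρ G) {i j : IX (cu n) l} (hi : bk i ∈ box R)
    (hj : bk j ∈ box R) : mat (cu n') l G (ixm l h' i) (ixm l h' j) = mat (cu n) l G i j := by
  have b := hG (bk i) (Loc.bv (ixm l h' j) - Loc.bv j) (fun f hf => ?_) _ i.2.1.2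
  · rw [map_sub] at b
    exact sub_eq_zero.1 (congrFun b i.2.2)
  have c1 : yo l (f.1 + up l (bk i), f.2).1 ∈ box (ρ + R) := by
    rw [yo_add_up]
    exact add_mem_box (Op.mem_fb.1 (mem_lbox.1 hf)) hi
  have c2 : yo l (lk j).1 ∈ box (ρ + R) := by
    rw [yo_lk]
    exact box_mono (by omega) hj
  exact sub_eq_zero.2 ((pd_tor hn' (by omega) c1 c2 _).trans (pd_tor hn (by omega) c1 c2 _).symm)

theorem blv_sub (hn : Odd n) (h : R + D ≤ n / 2) (hy : y ∈ box R) :
    blv (cu n) D y ⊆ box (R + D) := fun z hz => by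
  obtain ⟨v, hv, e⟩ := mem_blv.1 hz
  have := add_mem_box hy hv
  rwa [← e, show rcv (cu n) (y + v) = _ from rc_box hn h this]

theorem ixm_inj (h' : n / 2 ≤ n' / 2) : Function.Injective (ixm l h') := fun _ _ e =>
  Prod.ext (Subtype.ext (congrArg (bk (n := cu n')) e :)) (congrArg Prod.snd e :)

theorem ixm_rng (h' : n / 2 ≤ n' / 2) {j : IX (cu n') l} (h : bk j ∈ box (n / 2)) :
    j ∈ Set.range (ixm l h') := ⟨(⟨bk j, mem_cu.2 h⟩, j.2), rfl⟩

/-- the determinant marks do not depend on the torus -/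
theorem qG_tor (hn : Odd n) (hn' : Odd n') (h' : n / 2 ≤ n' / 2) {ρ N : ℕ}
    (h : R + D + ρ ≤ n / 2) {G : Fld →ₗ[ℂ] Fld} (hG : RnG l ρ G) (hX : X ⊆ box R) :
    qG (cu n') l D N G X = qG (cu n) l D N G X := by
  have a := fun y (hy : y ∈ X) => blv_sub (D := D) hn (by omega) (hX hy)
  unfold qG
  refine Qd_inj (π := bk) (π' := bk) (B := blv (cu n) D) (B' := blv (cu n') D)
    (M := mat (cu n) l G) (M' := mat (cu n') l G) (S := X) (ixm_inj h') (fun _ => rfl)
    (fun y hy => ?_) (fun y hy j hj => ?_) (fun y hy i j hi hj => ?_) N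
  · rw [blv_tb, blv_tb]
    exact tb_tor hn' hn (R := R) (by omega) (by omega) (singleton_subset_iff.2 (hX hy))
  · rcases hj with hj | hj
    · exact ixm_rng h' (box_mono (by omega) (hX (hj.symm ▸ hy)))
    · exact ixm_rng h' (box_mono (by omega) (a y hy hj))
  · exact mat_tor hn hn' h' h hG (a y hy hi) (a y hy hj)

end Tor

end Pool.Agent.Lib.MP_7f377f_mp.RG.Q4
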