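import Pool.Agent.Lib.MP_7f377f_mp.Q4TrG
import Pool.Agent.Lib.MP_7f377f_mp.Q4Dec

/-! The tree step: the part of the new density which is not kept is negligible. -/

noncomputable section

namespace Pool.Agent.Lib.MP_7f377f_mp.RG.Q4

open Finset

attribute [local irreducible] box lbox

/-- decay of the solutions of the linear equation -/
def Dcy (l k : ℕ) (ε : ℝ) (m : BF) : Prop := ∀ (D : V) (γ d : ℝ), 0 ≤ γ →
  (∀ f, tree l f → D f = 0) → Sm (fb l (k + 3)) d D →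
    (∀ f : Lk, yo l f.1 ∈ box k → ¬ tree l f → |∑ y ∈ box 2, hh l m
      (sh (up l (yo l f.1 + y)) (Pi.single f 1)) (sh (up l (yo l f.1 + y)) D)| ≤ γ) →
    Sm l ((LL l : ℝ) ^ 22 * (γ + ε * d)) D

theorem dcy_of : ∃ c : ℕ, 1 ≤ c ∧ ∀ (l R n k : ℕ) (cL cU : ℝ) (m : BF), c ≤ l → R ≤ l → k + 6 ≤ l →
    cL ≤ 20 → cU ≤ 20 → Inv n R cL cU m → Dcy l k (Real.exp (-(k / c))) m := hh_decay

theorem cx_sh_eb (m : BF) (x : St) (f : Lk) (k : Fin 3) (B : Fld) : cx m (sh x (eb f k)) B =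
    (m (sh x (Pi.single f 1)) (reF B k) : ℝ) + (m (sh x (Pi.single f 1)) (imF B k) : ℝ) * Complex.I := by
  have e : sh x (Pi.single f 1 : V) = Pi.single (f.1 - x, f.2) 1 := funext fun e => by
    simp only [sh, Pi.single_apply, Prod.ext_iff, eq_sub_iff_add_eq]
  rw [e, ← cx_eb, ← sh_eb_add x (f.1 - x, f.2), sub_add_cancel]

theorem Dcy.cx {l k : ℕ} {ε γ d : ℝ} {m : BF} (h : Dcy l k ε m) {D : Fld} (γ0 : 0 ≤ γ)
    (ht : ∀ f, tree l f → D f = 0) (hD : Sm (fb l (k + 3)) d D)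
    (hγ : ∀ f : Lk, yo l f.1 ∈ box k → ¬ tree l f → ∀ j, ‖∑ y ∈ box 2, cx (hh l m)
      (sh (up l (yo l f.1 + y)) (eb f j)) (sh (up l (yo l f.1 + y)) D)‖ ≤ γ) :
    Sm l (2 * ((LL l : ℝ) ^ 22 * (γ + ε * d))) D := by
  simp only [cx_sh_eb, sum_add_distrib, ← sum_mul, ← Complex.ofReal_sum] at hγ
  have h1 := fun j => h (reF D j) γ d γ0 (fun f hf => by simp [reF, ht f hf]) (hD.reF j)
    fun f hf hf' => by
      simpa [reF_sh] using (Complex.abs_re_le_norm _).trans (hγ f hf hf' j)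
  have h2 := fun j => h (imF D j) γ d γ0 (fun f hf => by simp [imF, ht f hf]) (hD.imF j)
    fun f hf hf' => by
      simpa [imF_sh] using (Complex.abs_im_le_norm _).trans (hγ f hf hf' j)
  exact fun e he => (pi_norm_le_iff_of_nonneg (by linarith [(h1 0).nonneg])).2 fun j =>
    (Complex.norm_le_abs_re_add_abs_im _).trans (by
      rw [two_mul]
      exact add_le_add (h1 j e he) (h2 j e he))

theorem Bx_exF {B : Fld} (hB : ∀ e, ‖B e‖ ≤ 1 / 2) (ht : ∀ p ν, Tr p ν → B (p, ν) = 0) :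
    Bx 0 (exF B) = B := by
  have : ∀ x, cmb star (exF B) x = 1 := fun x => by
    induction x using site_ind with
    | h0 => simp
    | hp p ν h1 h2 ih => simp [cmb_fwd _ _ h1 h2, ih, exF, ht p ν h1]
    | hn p ν h1 h2 ih => simp [cmb_bwd _ _ h1 h2, ih, exF, ht p ν h1]
  funext e
  rw [Bx_zero, this, this, star_one, one_mul, mul_one]
  exact ch_ex' (Complex.slitPlane_ne_zero (one_add_dot_mem (hB e)))

theorem cut_cg_tr (R : ℕ) (B : Fld) (p : St) (ν : Fin 4) (h : Tr p ν) : cut R (cg B) (p, ν) = 0 := by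
  simp [cut, cg_tr B h]

theorem agr_exF {R : ℕ} {B B' : Fld} (h : Agr R B B') : Agr R (exF B) (exF B') :=
  fun e he => congrArg ex (h e he)

namespace Nt

/-- the influence of far away fields on the minimiser -/
def et (t : Nt) (c : ℕ) (τ P d ε : ℝ) : ℝ := 2 * ((LL t.O.l : ℝ) ^ 22 *
  ((t.th c P d ^ t.p + (LL t.O.l : ℝ) ^ 3 * (P * d) + 2 * ε) * t.al c τ P d))

variable {t : Nt} {r c k R : ℕ} {τ P δ d d' ε η C P1 ρ : ℝ} {m : BF} {s : V →ₗ[ℝ] V} {B B' : Fld}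
  (h : t.Ok r c τ m s P δ) (z : t.Sz c τ P δ d) (hB : ∀ e, ‖B e‖ ≤ d) (hB' : ∀ e, ‖B' e‖ ≤ d)
include h z hB hB'

theorem As_two (e : Lk) : ‖(t.As (exF B) - t.As (exF B')) e‖ ≤ 2 * t.al c τ P d :=
  (norm_sub_le_of_le (As_bd h z hB e) (As_bd h z hB' e)).trans_eq (two_mul _).symm

theorem As_near (dc : Dcy t.O.l k ε m) (e : Agr (k + r / 4 + 4) B B') :
    Sm t.O.l (t.et c τ P d ε) (t.As (exF B) - t.As (exF B')) := by
  obtain ⟨a0, a1⟩ := h.al_le z
  have θ0 := (h.th_le z).1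
  have L0 := LL_pos' t.O.l
  have d0 := z.d0
  have P1 := h.P1
  refine (dc.cx (γ := (t.th c P d ^ t.p + (LL t.O.l : ℝ) ^ 3 * (P * d)) * t.al c τ P d)
    (by positivity) (fun f hf => by simp [t.As_tree _ hf]) (fun f _ => As_two h z hB hB' f)
    fun f hf hf' j => ?_).mono le_rfl (le_of_eq (by unfold et; ring))
  have h1 := grad_flat h z hB (As_small h z hB') (As_two h z hB hB') (by positivity)
    (by rw [mul_div_assoc]; linarith) f j
  rw [add_sub_cancel, grad_agr h (agr_exF e) (fun _ _ => rfl) (A := t.As (exF B')) f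
    (mem_lbox.2 (Op.mem_fb.2 hf))] at h1
  have h2 := norm_sub_le_of_le (norm_sub_le_of_le ((norm_le_pi_norm _ j).trans (grad_As h z hB hf'))
    ((norm_le_pi_norm _ j).trans (grad_As h z hB' hf'))) h1
  rw [sub_sub_cancel, norm_mul, Complex.norm_two] at h2
  have h3 : (LL t.O.l : ℝ) ^ 2 * (P * (d ^ 2 + τ * d)) ≤ t.al c τ P d :=
    mul_le_mul_of_nonneg_right (pow_le_pow_right₀ (JS.one_le_LL _) (by omega))
      (by have := h.τ0; positivity)
  nlinarith [mul_le_mul_of_nonneg_left h3 (pow_pos θ0 t.p).le]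

theorem As_near' (dc : Dcy t.O.l k ε m) (e : Agr (k + r / 4 + 5) B B') :
    Sm (3 * t.O.l + 1) (t.et c τ P d ε) (t.As (exF B) - t.As (exF B')) := fun f hf => by
  have := As_near h z (B := sh (yo t.O.l f.1) B) (B' := sh (yo t.O.l f.1) B') (fun _ => hB _)
    (fun _ => hB' _) dc (Agr.sh (R' := 1) e (yo_mem_one hf)) (f.1 - up t.O.l (yo t.O.l f.1), f.2)
    (mem_lbox.2 (sub_up_yo_mem _ _))
  simp only [show ∀ y B, exF (sh y B) = sh y (exF B) from fun _ _ => rfl, As_sh, Pi.sub_apply,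
    sh_apply, sub_add_cancel] at this
  exact this

omit hB' in
theorem a0_eq : t.a0 (exF B) = t.G (exF B) (t.As (exF B)) - j1 (t.G (exF B)) 0 (t.As (exF B)) +
    t.gv (exF B) 0 (t.As (exF B)) 0 := by
  rw [Nt.a0, (Gw.zero (gw_exF h z hB) 0).L1_eq h, j1_FF, FF]
  simp only [up_zero, sh_zero]

theorem a0_near (e : Agr (r / 4 + 4) B B') (η0 : 0 < η) (η1 : η ≤ 2 * t.al c τ P d)
    (hD : Sm (3 * t.O.l + 1) η (t.As (exF B) - t.As (exF B'))) :
    ‖t.a0 (exF B) - t.a0 (exF B')‖ ≤ (LL t.O.l : ℝ) ^ (c + 6) * (P * t.al c τ P d * η) := by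
  obtain ⟨a0, a1⟩ := h.al_le z
  have d0 := z.d0
  have P1 := h.P1
  have L1 := JS.one_le_LL t.O.l
  have p0 : 0 ≤ d / LL t.O.l := by positivity
  have e2 : Agr (r / 4 + 2) (exF B') (exF B) := fun f hf =>
    (agr_exF e f (lbox_mono (by omega) hf)).symm
  have s0 : ∀ x, 0 ≤ x → Sm (3 * t.O.l + 1) x (0 : Fld) := fun x hx _ _ => norm_zero.trans_le hx
  have s1 : Sm (3 * t.O.l + 1) (t.al c τ P d) (t.As (exF B')) := fun f _ => As_bd h z hB' f
  obtain ⟨-, ⟨L, -, hL, -⟩, -⟩ := h.ge.blk h.lin d0 z.d1 hB (s0 _ (by positivity))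
  have h1 := (((h.ge.blk h.lin d0 z.d1 hB (s1.mono le_rfl (by rw [mul_div_assoc]; linarith))).2.2
    hD η0).2.2 (by rw [mul_div_assoc]; linarith)).1
  have h2 := h.ge.lip h.lin d0 z.d1 hB (s0 _ p0) s1 a0 (by rw [mul_div_assoc]; linarith) hD η0
  have h3 := h.hh_bd hD hD
  have h4 := h.hh_bd hD s1
  have h5 := gv_le (W := exF B) (A := 0) (y := 0) (v := t.As (exF B) - t.As (exF B'))
    (fun e _ he => (pi_norm_le_iff_of_nonneg (by have := h.τ0; positivity)).2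
      (grad_zero h z hB fun h' => he ((tree_add_up _ e.1 0 e.2).1 h'))) (by have := h.τ0; positivity)
    (by rw [up_zero, sh_zero]; exact hD.mono (by omega) le_rfl) fun f hf => by simp [t.As_tree _ hf]
  have h6 := norm_add_le_of_le (norm_add_le_of_le (norm_add_le_of_le h1 h2) h3) h5
  have h7 : ‖2 * cx (hh t.O.l m) (t.As (exF B) - t.As (exF B')) (t.As (exF B'))‖ ≤
      2 * ((LL t.O.l : ℝ) ^ (c + 5) * (η * t.al c τ P d)) := by
    rw [norm_mul, Complex.norm_two]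
    linarith
  refine le_of_eq_of_le (congrArg _ ?_) ((norm_add_le_of_le h6 h7).trans ?_)
  · rw [a0_eq h z hB, a0_eq h z hB', h.ge.loc _ _ _ _ e2 fun _ _ => rfl,
      show j1 (t.G (exF B')) 0 (t.As (exF B')) = j1 (t.G (exF B)) 0 (t.As (exF B')) from
        k1_congr fun _ => h.ge.loc _ _ _ _ e2 fun _ _ => rfl,
      ← gv_agr h (W := exF B) (W' := exF B') (zero_mem_box 0) (agr_exF (by simpa using e))
        (fun _ _ => rfl) fun _ _ => rfl,
      add_sub_cancel, zero_add, hL, hL, hL, map_sub]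
    simp only [gv_eq, Pi.sub_apply, mul_sub, sum_sub_distrib]
    ring
  · have x0 : 0 ≤ P * t.al c τ P d * η := by positivity
    refine le_trans ?_ (h.up (C := 20) (i := c + 5) (by norm_num) (by omega) x0)
    have k0 := h.d_le z
    have k1 : (LL t.O.l : ℝ) ^ 2 ≤ LL t.O.l ^ (c + 5) := pow_le_pow_right₀ L1 (by omega)
    have k2 : (LL t.O.l : ℝ) ^ 6 * (P * (d ^ 2 + τ * d)) ≤ t.al c τ P d :=
      mul_le_mul_of_nonneg_right (pow_le_pow_right₀ L1 (by omega)) (by have := h.τ0; positivity)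
    have k3 : (1 : ℝ) ≤ LL t.O.l ^ (c + 5) := one_le_pow₀ L1
    generalize (LL t.O.l : ℝ) ^ (c + 5) = K at *
    have k4 : t.al c τ P d * η ≤ P * t.al c τ P d * η := by nlinarith [mul_pos a0 η0]
    have k5 : η * η ≤ 2 * (t.al c τ P d * η) := by nlinarith
    have b1 : 768 * P * LL t.O.l ^ 2 * d * η ^ 2 ≤ 2 * (K * (P * t.al c τ P d * η)) := by
      calc _ = 768 * d * (LL t.O.l ^ 2 * (P * (η * η))) := by ring
        _ ≤ 1 * (K * (P * (2 * (t.al c τ P d * η)))) := by gcongr; linarith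
        _ = _ := by ring
    have b2 : 1024 * P * LL t.O.l ^ 2 * d * η * t.al c τ P d ≤ 2 * (K * (P * t.al c τ P d * η)) := by
      calc _ = 1024 * d * (LL t.O.l ^ 2 * (P * t.al c τ P d * η)) := by ring
        _ ≤ _ := by gcongr; linarith
    have b3 := mul_le_mul_of_nonneg_left (k5.trans (mul_le_mul_of_nonneg_left k4 zero_le_two))
      (zero_le_one.trans k3)
    have b4 := mul_le_mul_of_nonneg_left k4 (zero_le_one.trans k3)
    have b5 := (mul_le_mul_of_nonneg_right k2 η0.le).trans (k4.trans (le_mul_of_one_le_left x0 k3))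
    nlinarith

theorem tn_near (dc : Dcy t.O.l k ε m) (ε0 : 0 ≤ ε) (e : Agr (k + r / 4 + 8) B B') :
    ‖t.tn (exF B) - t.tn (exF B')‖ ≤
      (LL t.O.l : ℝ) ^ (c + 6) * (P * t.al c τ P d * t.et c τ P d ε) := by
  obtain ⟨a0, -⟩ := h.al_le z
  have θ0 := (h.th_le z).1
  have L0 := LL_pos' t.O.l
  have d0 := z.d0
  have P1 := h.P1
  have e0 : 0 < t.et c τ P d ε := by unfold et; positivity
  refine le_of_eq_of_le (congrArg _ ?_) (avg_le fun y hy => (a0_near h z (B := sh y B) (B' := sh y B')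
    (fun _ => hB _) (fun _ => hB' _) (Agr.sh (e.mono (by omega)) hy) (lt_min e0 (by positivity))
    (min_le_right _ _) fun f hf => le_min (As_near' h z (B := sh y B) (B' := sh y B') (fun _ => hB _)
      (fun _ => hB' _) dc (Agr.sh (R' := 3) e hy) f hf) (As_two h z (fun _ => hB _) (fun _ => hB' _) f)).trans
        (by gcongr; exact min_le_left _ _))
  rw [tn, tn, sum_sub_distrib, sh_zero, sh_zero]
  simp only [show ∀ y B, exF (sh y B) = sh y (exF B) from fun _ _ => rfl]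
  ring

omit hB'

variable (gz : Gz t.O.l r m s C P1 δ t.G) (hR : r + 4 ≤ R) (z1 : t.Sz c τ P δ (6 * R * ρ))
  (dc : Dcy t.O.l k ε m) (ε0 : 0 ≤ ε) (hk : k + r / 4 + 8 ≤ R) (η0 : 0 < η) (η1 : η ≤ ρ)
include gz hR z1 dc ε0 hk η0 η1

theorem rest_of {W : Cf} (e1 : t.tn W = t.tn (exF B)) (e2 : Agr R B (Bx 0 W))
    (hc : Cv R d' (Bx 0 W)) (d0 : 0 < d') (d1 : d' ≤ ρ) : ‖t.rest R ρ (mb t.O.l 3 m s) W‖ ≤
      (LL t.O.l : ℝ) ^ (c + 6) * (P * t.al c τ P d * t.et c τ P d ε) +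
        12 * t.Mq c τ P C P1 R η / η ^ 2 * d' ^ 2 := by
  refine le_of_eq_of_le (congrArg _ ?_) (norm_add_le_of_le (tn_near h z hB (B' := cut R (Bx 0 W))
    (Sm.cut fun e he => e2 e he ▸ hB e) dc ε0 fun e he => ?_) (kq_tq h gz hR z1 η0 η1 hc d0))
  · rw [rest, Tn, ctf_of (hc.mono le_rfl d1), tq, cg_Bx, e1]
    ring
  · rw [cut_of_mem _ (lbox_mono hk he), e2 e (lbox_mono hk he)]

/-- complex fields in the comb gauge -/
theorem rest_exF (ht : ∀ p ν, Tr p ν → B (p, ν) = 0) (hc : Cv R d' B) (d0 : 0 < d') (d1 : d' ≤ ρ) :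
    ‖t.rest R ρ (mb t.O.l 3 m s) (exF B)‖ ≤
      (LL t.O.l : ℝ) ^ (c + 6) * (P * t.al c τ P d * t.et c τ P d ε) +
        12 * t.Mq c τ P C P1 R η / η ^ 2 * d' ^ 2 := by
  have e := Bx_exF (fun e => (hB e).trans (by linarith [h.d_le z])) ht
  exact rest_of h z hB gz hR z1 dc ε0 hk η0 η1 rfl (by rw [e]; exact fun _ _ => rfl) (by rwa [e])
    d0 d1

omit hB in
/-- real fields of small curvature -/
theorem rest_real {R2 : ℕ} {ε1 : ℝ} {W : Conf} (hW : ∀ x ∈ box R2, ∀ μ ν, fq W x μ ν ≤ ε1)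
    (h1 : 6 * R2 * ε1 ≤ d) (h2 : 5 + t.rA r ≤ R2) (h3 : R + 1 ≤ R2) (d1 : 4 * d ≤ ρ) :
    ‖t.rest R ρ (mb t.O.l 3 m s) (cC W)‖ ≤
      (LL t.O.l : ℝ) ^ (c + 6) * (P * t.al c τ P d * t.et c τ P d ε) +
        12 * t.Mq c τ P C P1 R η / η ^ 2 * (4 * d) ^ 2 := by
  obtain ⟨a, b⟩ := comb_real hW (by linarith [h.d_le z])
  have hB := fun e => (a e).trans h1
  refine rest_of h z hB gz hR z1 dc ε0 hk η0 η1 ?_ ((agr_cut _ _).mono (by omega))
    (Sm.cv fun e he => ?_) (by linarith [z.d0]) d1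
  · rw [tn_agr h (b.mono h2), tn_cov h _ (gw_exF h z hB)]
  · exact cut_of_mem (Bx 0 (cC W)) (lbox_mono h3 he) ▸ hB e

end Nt

end Pool.Agent.Lib.MP_7f377f_mp.RG.Q4
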