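import Mathlib

/-! Words in magnetic translations. -/

noncomputable section

namespace Pool.Agent.Lib.MP_7f377f_mp.RG.Q4.Xi

open Finset

abbrev Lt := Fin 4 × Fin 4
abbrev Z4 := Fin 4 → ℤ

def sg : Fin 4 → ℤ := ![1, -1, 0, 0]

def xi (σ : Lt) : Z4 := Pi.single σ.1 (sg σ.2)

theorem abs_xi (σ : Lt) (μ : Fin 4) : |xi σ μ| ≤ 1 := by
  revert σ μ; decide

/-- sum over the words of length `n` of a function of the displacement and of the area -/
def Ew {M : Type*} [AddCommMonoid M] : ℕ → (Z4 → ℤ → M) → M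
  | 0, f => f 0 0
  | n + 1, f => ∑ σ : Lt, Ew n fun a A => f (xi σ + a) (A + xi σ 1 * a 0)

section
variable {M M' : Type*} [AddCommMonoid M] [AddCommMonoid M']

theorem Ew_map {F : Type*} [FunLike F M M'] [AddMonoidHomClass F M M'] (φ : F) (n : ℕ)
    (f : Z4 → ℤ → M) : φ (Ew n f) = Ew n fun a A => φ (f a A) := by
  induction n generalizing f with
  | zero => rfl
  | succ n ih => simp only [Ew, map_sum, ih]

theorem Ew_add (n : ℕ) (f g : Z4 → ℤ → M) :
    Ew n (fun a A => f a A + g a A) = Ew n f + Ew n g := by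
  induction n generalizing f g with
  | zero => rfl
  | succ n ih => simp only [Ew, ih, sum_add_distrib]

theorem Ew_sum {ι : Type*} (s : Finset ι) (n : ℕ) (f : ι → Z4 → ℤ → M) :
    Ew n (fun a A => ∑ i ∈ s, f i a A) = ∑ i ∈ s, Ew n (f i) := by
  induction n generalizing f with
  | zero => rfl
  | succ n ih => simp only [Ew, ih]; exact sum_comm

theorem Ew_const (n : ℕ) (c : M) : Ew n (fun _ _ => c) = 16 ^ n • c := by
  induction n with
  | zero => simp [Ew]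
  | succ n ih => simp [Ew, ih, smul_smul, pow_succ']

theorem short {n : ℕ} (σ : Lt) {a : Z4} {A : ℤ} (ha : ∀ μ, |a μ| ≤ n) (hA : |A| ≤ (n : ℤ) ^ 2) :
    (∀ μ, |(xi σ + a) μ| ≤ (n + 1 : ℕ)) ∧ |A + xi σ 1 * a 0| ≤ ((n + 1 : ℕ) : ℤ) ^ 2 := by
  refine ⟨fun μ => (abs_add_le _ _).trans ?_, (abs_add_le _ _).trans ?_⟩
  · have := abs_xi σ μ; have := ha μ; push_cast; omega
  · have h1 := abs_xi σ 1
    have h2 := ha 0
    have h3 := mul_le_mul h1 h2 (abs_nonneg _) zero_le_one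
    rw [abs_mul]; push_cast; nlinarith

theorem Ew_congr (n : ℕ) {f g : Z4 → ℤ → M}
    (h : ∀ (a : Z4) (A : ℤ), (∀ μ, |a μ| ≤ n) → |A| ≤ (n : ℤ) ^ 2 → f a A = g a A) :
    Ew n f = Ew n g := by
  induction n generalizing f g with
  | zero => exact h 0 0 (by simp) (by simp)
  | succ n ih =>
    exact sum_congr rfl fun σ _ => ih fun a A ha hA => h _ _ (short σ ha hA).1 (short σ ha hA).2

end

theorem Ew_le (n : ℕ) {f g : Z4 → ℤ → ℝ}
    (h : ∀ (a : Z4) (A : ℤ), (∀ μ, |a μ| ≤ n) → |A| ≤ (n : ℤ) ^ 2 → f a A ≤ g a A) :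
    Ew n f ≤ Ew n g := by
  induction n generalizing f g with
  | zero => exact h 0 0 (by simp) (by simp)
  | succ n ih =>
    exact sum_le_sum fun σ _ => ih fun a A ha hA => h _ _ (short σ ha hA).1 (short σ ha hA).2

theorem Ew_mul {R : Type*} [Semiring R] (c : R) (n : ℕ) (f : Z4 → ℤ → R) :
    Ew n (fun a A => c * f a A) = c * Ew n f :=
  (Ew_map (AddMonoidHom.mulLeft c) n f).symm

theorem Ew_abs (n : ℕ) {f : Z4 → ℤ → ℝ} {c : ℝ}
    (h : ∀ (a : Z4) (A : ℤ), (∀ μ, |a μ| ≤ n) → |A| ≤ (n : ℤ) ^ 2 → |f a A| ≤ c) :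
    |Ew n f| ≤ 16 ^ n * c := by
  have h1 := Ew_le n (g := fun _ _ => c) fun a A ha hA => (abs_le.1 (h a A ha hA)).2
  have h2 := Ew_le n (f := fun _ _ => -c) fun a A ha hA => (abs_le.1 (h a A ha hA)).1
  simp only [Ew_const, nsmul_eq_mul] at h1 h2
  push_cast at h1 h2
  rw [abs_le]; constructor <;> linarith

section group
variable {Γ : Type*} [Group Γ]

def mon (t : Fin 4 → Γ) (a : Z4) : Γ := t 0 ^ a 0 * t 1 ^ a 1 * t 2 ^ a 2 * t 3 ^ a 3

structure Heis (z : Γ) (t : Fin 4 → Γ) : Prop where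
  cen : ∀ g, Commute z g
  c01 : t 0 * t 1 = z * (t 1 * t 0)
  c02 : Commute (t 0) (t 2)
  c03 : Commute (t 0) (t 3)
  c12 : Commute (t 1) (t 2)
  c13 : Commute (t 1) (t 3)
  c23 : Commute (t 2) (t 3)

variable {z : Γ} {t : Fin 4 → Γ}

theorem Heis.swap (h : Heis z t) (e a : ℤ) :
    t 1 ^ e * t 0 ^ a = z ^ (-(e * a)) * (t 0 ^ a * t 1 ^ e) := by
  have h1 : t 1 * t 0 * (t 1)⁻¹ = z⁻¹ * t 0 := by
    rw [eq_inv_mul_iff_mul_eq, ← mul_assoc, ← h.c01]; group
  have h2 : t 1 * t 0 ^ a * (t 1)⁻¹ = z ^ (-a) * t 0 ^ a := by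
    rw [← conj_zpow, h1, (h.cen _).inv_left.mul_zpow]; group
  have h3 : (t 0 ^ a)⁻¹ * t 1 * (t 0 ^ a)⁻¹⁻¹ = z ^ (-a) * t 1 := by
    have : t 1 * t 0 ^ a = t 0 ^ a * (z ^ (-a) * t 1) := by
      rw [← mul_assoc, ← ((h.cen (t 0 ^ a)).zpow_left _).eq, ← h2]; group
    rw [inv_inv, mul_assoc, this]; group
  have h4 : (t 0 ^ a)⁻¹ * t 1 ^ e * (t 0 ^ a)⁻¹⁻¹ = z ^ (-(e * a)) * t 1 ^ e := by
    rw [← conj_zpow, h3, ((h.cen _).zpow_left _).mul_zpow, ← zpow_mul]; congr 2; ring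
  rw [← mul_assoc, ((h.cen (t 0 ^ a)).zpow_left _).eq, mul_assoc, ← h4]; group

theorem Heis.letter (h : Heis z t) (σ : Lt) (a : Z4) :
    t σ.1 ^ sg σ.2 * mon t a = z ^ (-(xi σ 1 * a 0)) * mon t (xi σ + a) := by
  obtain ⟨μ, j⟩ := σ
  simp only [xi, mon, Pi.add_apply]
  generalize sg j = e
  have c02 := (h.c02.zpow_zpow (a 0) e).eq
  have c03 := (h.c03.zpow_zpow (a 0) e).eq
  have c12 := (h.c12.zpow_zpow (a 1) e).eq
  have c13 := (h.c13.zpow_zpow (a 1) e).eq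
  have c23 := (h.c23.zpow_zpow (a 2) e).eq
  fin_cases μ
  · simp [zpow_add, mul_assoc]
  · simp only [Fin.mk_one, Fin.isValue, Pi.single_eq_same, ne_eq, zero_ne_one, not_false_eq_true,
      Pi.single_eq_of_ne, zero_add, Fin.reduceEq, zpow_add, ← mul_assoc, h.swap]
  · simp only [Fin.reduceFinMk, Fin.isValue, ne_eq, Fin.reduceEq, not_false_eq_true,
      Pi.single_eq_of_ne, zero_mul, neg_zero, zpow_zero, zero_add, Pi.single_eq_same, one_mul,
      zpow_add, ← mul_assoc, ← c02]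
    rw [mul_assoc (t 0 ^ a 0), ← c12, ← mul_assoc]
  · simp only [Fin.reduceFinMk, Fin.isValue, ne_eq, Fin.reduceEq, not_false_eq_true,
      Pi.single_eq_of_ne, zero_mul, neg_zero, zpow_zero, zero_add, Pi.single_eq_same, one_mul,
      zpow_add, ← mul_assoc, ← c03]
    rw [mul_assoc (t 0 ^ a 0), ← c13, ← mul_assoc, mul_assoc _ (t 3 ^ e), ← c23, ← mul_assoc]

theorem Heis.pow (h : Heis z t) {R : Type*} [Semiring R] (ρ : Γ →* R) (n : ℕ) :
    (∑ σ : Lt, ρ (t σ.1 ^ sg σ.2)) ^ n = Ew n fun a A => ρ (z ^ (-A) * mon t a) := by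
  induction n with
  | zero => simp [Ew, mon]
  | succ n ih =>
    rw [pow_succ', ih, sum_mul]
    refine sum_congr rfl fun σ _ => ?_
    rw [← Ew_mul]
    congr 1; funext a A
    rw [← map_mul, ← mul_assoc, ← ((h.cen _).zpow_left _).eq, mul_assoc, h.letter, ← mul_assoc,
      ← zpow_add, ← neg_add]

end group

/-! ### the second moment of the area -/

abbrev RR := AddMonoidAlgebra ℝ Z4

open AddMonoidAlgebra

def lin {M : Type*} [AddCommMonoid M] [Module ℝ M] (F : Z4 → M) : RR →ₗ[ℝ] M :=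
  Finsupp.linearCombination ℝ F ∘ₗ (AddMonoidAlgebra.coeffLinearEquiv ℝ).toLinearMap

theorem lin_single {M : Type*} [AddCommMonoid M] [Module ℝ M] (F : Z4 → M) (a : Z4) (c : ℝ) :
    lin F (single a c) = c • F a := by
  simp [lin]

def DD (μ : Fin 4) : RR →ₗ[ℝ] RR := lin fun a => single a (a μ : ℝ)

theorem DD_single (μ : Fin 4) (a : Z4) (c : ℝ) : DD μ (single a c) = single a (c * a μ) := by
  simp [DD, lin_single]

theorem DD_mul (μ : Fin 4) (f g : RR) : DD μ (f * g) = DD μ f * g + f * DD μ g := by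
  induction f using AddMonoidAlgebra.induction_linear with
  | zero => simp
  | add f f' h h' => simp only [add_mul, map_add, h, h']; ring
  | single a c =>
    induction g using AddMonoidAlgebra.induction_linear with
    | zero => simp
    | add g g' h h' => simp only [mul_add, map_add, h, h']; ring
    | single b d =>
      simp only [single_mul_single, DD_single, ← single_add, Pi.add_apply]
      congr 1; push_cast; ring

def pp : RR := ∑ σ : Lt, single (xi σ) 1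

def uu (k n : ℕ) : RR := (n.choose k : RR) * pp ^ (n - k)

theorem uu_succ (k n : ℕ) : uu (k + 1) (n + 1) = pp * uu (k + 1) n + uu k n := by
  unfold uu
  rw [Nat.choose_succ_succ', Nat.add_sub_add_right]
  rcases Nat.lt_or_ge n (k + 1) with h | h
  · simp [Nat.choose_eq_zero_of_lt h]
  · rw [show n - k = n - (k + 1) + 1 by omega]; push_cast; ring

theorem DD_one (μ : Fin 4) : DD μ 1 = 0 := by
  have := DD_mul μ 1 1
  simpa using this

theorem DD_nat (μ : Fin 4) (c : ℕ) (f : RR) : DD μ (c * f) = c * DD μ f := by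
  rw [← nsmul_eq_mul, map_nsmul, nsmul_eq_mul]

theorem DD_cast (μ : Fin 4) (c : ℕ) : DD μ c = 0 := by
  simpa [DD_one] using DD_nat μ c 1

theorem DD_pow (μ : Fin 4) (f : RR) (n : ℕ) : DD μ (f ^ n) = n * f ^ (n - 1) * DD μ f := by
  induction n with
  | zero => simp [DD_one]
  | succ n ih =>
    rw [pow_succ, DD_mul, ih]
    rcases n with _ | n
    · simp
    · simp only [Nat.add_sub_cancel]; push_cast; ring

theorem DD_uu (μ : Fin 4) (k n : ℕ) :
    DD μ (uu k n) = ((k + 1 : ℕ) : RR) * uu (k + 1) n * DD μ pp := by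
  unfold uu
  rw [DD_nat, DD_pow, Nat.sub_sub]
  have : ((n.choose (k + 1) * (k + 1) : ℕ) : RR) = (n.choose k * (n - k) : ℕ) := by
    rw [Nat.choose_succ_right_eq]
  push_cast at this ⊢
  linear_combination (-pp ^ (n - (k + 1)) * DD μ pp) * this

theorem DD_01 : DD 0 (DD 1 pp) = 0 ∧ DD 1 (DD 0 pp) = 0 ∧ DD 1 (DD 0 (DD 0 pp)) = 0 ∧
    DD 0 (DD 1 (DD 1 pp)) = 0 := by
  have h : ∀ σ, (xi σ 0 : ℝ) * xi σ 1 = 0 := fun σ => by
    have : ∀ σ, xi σ 0 * xi σ 1 = 0 := by decide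
    exact_mod_cast this σ
  simp only [pp, map_sum, DD_single]
  refine ⟨?_, ?_, ?_, ?_⟩ <;> refine sum_eq_zero fun σ _ => single_eq_zero.2 ?_
  · linear_combination h σ
  · linear_combination h σ
  · linear_combination (xi σ 0 : ℝ) * h σ
  · linear_combination (xi σ 1 : ℝ) * h σ

def mm (j n : ℕ) : RR := Ew n fun a A => single a ((A : ℝ) ^ j)

theorem mm_succ (n : ℕ) : mm 0 (n + 1) = pp * mm 0 n ∧
    mm 1 (n + 1) = pp * mm 1 n + DD 1 pp * DD 0 (mm 0 n) ∧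
    mm 2 (n + 1) = pp * mm 2 n + 2 * (DD 1 pp * DD 0 (mm 1 n)) +
      DD 1 (DD 1 pp) * DD 0 (DD 0 (mm 0 n)) := by
  simp only [mm, pp, Ew, map_sum, sum_mul, mul_sum, two_mul, ← sum_add_distrib, Ew_map, ← Ew_mul,
    ← Ew_add, ← Ew_sum, DD_single, single_mul_single, ← single_add]
  refine ⟨?_, ?_, ?_⟩ <;> congr 1 <;> funext a A <;> refine sum_congr rfl fun σ _ => ?_ <;>
    congr 1 <;> push_cast <;> ring

theorem mm_eq (n : ℕ) : mm 0 n = uu 0 n ∧ mm 1 n = uu 2 n * DD 0 pp * DD 1 pp ∧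
    mm 2 n = 6 * uu 4 n * DD 0 pp ^ 2 * DD 1 pp ^ 2 +
      2 * uu 3 n * (DD 0 (DD 0 pp) * DD 1 pp ^ 2 + DD 0 pp ^ 2 * DD 1 (DD 1 pp)) +
      uu 2 n * DD 0 (DD 0 pp) * DD 1 (DD 1 pp) := by
  induction n with
  | zero => simp [mm, uu, Ew, one_def]
  | succ n ih =>
    obtain ⟨h0, h1, h2⟩ := ih
    obtain ⟨e0, e1, e2⟩ := mm_succ n
    refine ⟨?_, ?_, ?_⟩
    · rw [e0, h0]; simp [uu, pow_succ']
    · rw [e1, h0, h1, uu_succ 1, DD_uu]; push_cast; ring
    · rw [e2, h0, h1, h2, uu_succ 1, uu_succ 2, uu_succ 3, DD_uu, DD_mul, DD_mul, DD_mul,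
        DD_mul, DD_uu, DD_uu, DD_01.1, DD_cast]
      push_cast; ring

theorem area_sq (g : Z4 → ℝ) (hg : ∀ a, a 0 ≠ 0 ∨ a 1 ≠ 0 → g a = 0) (n : ℕ) :
    6 * Ew n (fun a A => (A : ℝ) ^ 2 * g a) = n.choose 2 * Ew (n - 2) fun a _ =>
      ∑ σ : Lt, ∑ σ' : Lt, (xi σ 0 : ℝ) ^ 2 * (xi σ' 1 : ℝ) ^ 2 * g (xi σ + xi σ' + a) := by
  have hD : ∀ f, lin g (DD 0 f) = 0 ∧ lin g (DD 1 f) = 0 := fun f => by
    induction f using AddMonoidAlgebra.induction_linear with
    | zero => simp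
    | add f f' h h' => simp [h, h']
    | single a c =>
      simp only [DD_single, lin_single, smul_eq_mul]
      constructor
      · by_cases h : a 0 = 0
        · simp [h]
        · simp [hg a (.inl h)]
      · by_cases h : a 1 = 0
        · simp [h]
        · simp [hg a (.inr h)]
  have e1 : Ew n (fun a A => (A : ℝ) ^ 2 * g a) = lin g (mm 2 n) := by
    simp only [mm, Ew_map, lin_single, smul_eq_mul]
  have e2 : (n.choose 2 * Ew (n - 2) fun a _ => ∑ σ : Lt, ∑ σ' : Lt,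
      (xi σ 0 : ℝ) ^ 2 * (xi σ' 1 : ℝ) ^ 2 * g (xi σ + xi σ' + a)) =
      lin g (uu 2 n * DD 0 (DD 0 pp) * DD 1 (DD 1 pp)) := by
    have : uu 2 n * DD 0 (DD 0 pp) * DD 1 (DD 1 pp) =
        n.choose 2 • (DD 0 (DD 0 pp) * DD 1 (DD 1 pp) * mm 0 (n - 2)) := by
      rw [(mm_eq _).1]; simp only [uu, nsmul_eq_mul, Nat.choose_zero_right, Nat.sub_zero]
      push_cast; ring
    rw [this, map_nsmul, nsmul_eq_mul, mm]
    congr 1
    rw [← Ew_mul, Ew_map]
    congr 1; funext a A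
    simp only [pp, map_sum, sum_mul_sum, DD_single, single_mul_single]
    simp only [sum_mul, single_mul_single, map_sum, lin_single, smul_eq_mul]
    refine sum_congr rfl fun σ _ => sum_congr rfl fun σ' _ => ?_
    ring
  have key : 6 • mm 2 n = uu 2 n * DD 0 (DD 0 pp) * DD 1 (DD 1 pp) +
      9 • DD 0 (uu 3 n * DD 0 pp * DD 1 pp ^ 2) + DD 1 (uu 2 n * DD 0 (DD 0 pp) * DD 1 pp) +
      4 • DD 0 (uu 2 n * DD 0 pp * DD 1 (DD 1 pp)) := by
    simp only [DD_mul, DD_pow, DD_uu, DD_01, (mm_eq n).2.2, nsmul_eq_mul]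
    push_cast; ring
  have := congrArg (lin g) key
  simp only [map_add, map_nsmul, hD] at this
  rw [e1, e2]
  simpa using this

end Pool.Agent.Lib.MP_7f377f_mp.RG.Q4.Xi
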