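import Mathlib

/-! Determinants, traces and spectral gaps of Hermitian matrices. -/

noncomputable section

namespace Pool.Agent.Lib.MP_7f377f_mp.RG.Q4.Xi

open Finset Matrix
open scoped Matrix.Norms.L2Operator InnerProductSpace

variable {ι : Type*} [Fintype ι] [DecidableEq ι]

/-- logarithm of the modulus of the determinant -/
def ld (A : Matrix ι ι ℂ) : ℝ := Real.log ‖A.det‖

/-- real part of the trace -/
def rt (A : Matrix ι ι ℂ) : ℝ := A.trace.re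

theorem ld_mul {A B : Matrix ι ι ℂ} (hA : A.det ≠ 0) (hB : B.det ≠ 0) :
    ld (A * B) = ld A + ld B := by
  rw [ld, det_mul, norm_mul, Real.log_mul (by simpa) (by simpa)]; rfl

omit [DecidableEq ι] in
theorem rt_add (A B : Matrix ι ι ℂ) : rt (A + B) = rt A + rt B := by simp [rt]
omit [DecidableEq ι] in
theorem rt_sub (A B : Matrix ι ι ℂ) : rt (A - B) = rt A - rt B := by simp [rt]
omit [DecidableEq ι] in
theorem rt_neg (A : Matrix ι ι ℂ) : rt (-A) = -rt A := by simp [rt]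
omit [DecidableEq ι] in
theorem rt_smul (c : ℝ) (A : Matrix ι ι ℂ) : rt ((c : ℂ) • A) = c * rt A := by simp [rt]
omit [DecidableEq ι] in
theorem rt_comm (A B : Matrix ι ι ℂ) : rt (A * B) = rt (B * A) := by rw [rt, trace_mul_comm, rt]

/-- the matrix with eigenvectors `U` and eigenvalues `d` -/
def cj (U : unitaryGroup ι ℂ) : (ι → ℝ) →+* Matrix ι ι ℂ :=
  ((Unitary.conjStarAlgAut ℂ _ U : Matrix ι ι ℂ →+* Matrix ι ι ℂ).comp (diagonalRingHom ι ℂ)).comp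
    (RingHom.compLeft Complex.ofRealHom ι)

theorem cj_apply (U : unitaryGroup ι ℂ) (d : ι → ℝ) :
    cj U d = U.1 * diagonal (fun i => (d i : ℂ)) * star U.1 := rfl

theorem spec {A : Matrix ι ι ℂ} (hA : A.IsHermitian) :
    A = cj hA.eigenvectorUnitary hA.eigenvalues := hA.spectral_theorem

theorem trace_cj (U : unitaryGroup ι ℂ) (d : ι → ℝ) : rt (cj U d) = ∑ i, d i := by
  rw [cj_apply, rt, trace_mul_cycle, U.2.1]; simp

theorem det_cj (U : unitaryGroup ι ℂ) (d : ι → ℝ) : (cj U d).det = ((∏ i, d i : ℝ) : ℂ) := by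
  rw [cj_apply, det_mul_comm, ← mul_assoc, U.2.1]; simp

theorem herm_cj (U : unitaryGroup ι ℂ) (d : ι → ℝ) : (cj U d).IsHermitian := by
  rw [cj_apply]
  refine isHermitian_mul_mul_conjTranspose _ (isHermitian_diagonal_of_self_adjoint _ ?_)
  ext i; simp

theorem norm_cj (U : unitaryGroup ι ℂ) (d : ι → ℝ) : ‖cj U d‖ = ‖d‖ := by
  rw [cj_apply, ← Unitary.coe_star, CStarRing.norm_mul_coe_unitary, CStarRing.norm_coe_unitary_mul,
    l2_opNorm_diagonal]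
  simp [Pi.norm_def]

theorem norm_uni (U : unitaryGroup ι ℂ) : ‖U.1‖ ≤ 1 := by
  have := CStarRing.norm_coe_unitary_mul U (1 : Matrix ι ι ℂ)
  rw [mul_one] at this
  rw [this, ← diagonal_one, l2_opNorm_diagonal]
  exact (pi_norm_le_iff_of_nonneg zero_le_one).2 (by simp)

theorem norm_one_le : ‖(1 : Matrix ι ι ℂ)‖ ≤ 1 := norm_uni 1

theorem ld_cj (U : unitaryGroup ι ℂ) {d : ι → ℝ} (hd : ∀ i, 0 < d i) :
    ld (cj U d) = ∑ i, Real.log (d i) := by
  rw [ld, det_cj, Complex.norm_real, Real.norm_eq_abs, Real.log_abs,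
    Real.log_prod fun i _ => (hd i).ne']

omit [DecidableEq ι] in
theorem abs_sum_le {f : ι → ℝ} {c : ℝ} (h : ∀ i, |f i| ≤ c) : |∑ i, f i| ≤ Fintype.card ι * c :=
  (abs_sum_le_sum_abs _ _).trans (by simpa using sum_le_card_nsmul univ _ c fun i _ => h i)

theorem log_series {x y : ℝ} (h : |y| ≤ x) (hx : x < 1) (n : ℕ) :
    |Real.log (1 - y) + ∑ m ∈ range n, y ^ (m + 1) / (m + 1)| ≤ x ^ (n + 1) / (1 - x) := by
  rw [add_comm]
  have := (abs_nonneg _).trans h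
  refine (Real.abs_log_sub_add_sum_range_le (h.trans_lt hx) n).trans ?_
  gcongr

theorem sq_series {x y : ℝ} (h : |y| ≤ x) (hx : x < 1) (n : ℕ) :
    |((1 - y)⁻¹) ^ 2 - ∑ m ∈ range n, (m + 1) * y ^ m| ≤ (2 * n + 1) * x ^ n / (1 - x) ^ 2 := by
  have h1 : 0 < 1 - y := by linarith [le_abs_self y]
  have e : ((1 - y)⁻¹) ^ 2 - ∑ m ∈ range n, (m + 1) * y ^ m =
      (n + 1 - n * y) * y ^ n / (1 - y) ^ 2 := by
    induction n with
    | zero => simp
    | succ n ih =>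
      rw [sum_range_succ, ← sub_sub, ih]; push_cast; field_simp; ring
  have h2 : |n + 1 - n * y| ≤ 2 * n + 1 := by
    have := abs_le.1 (h.trans hx.le)
    have hn : (0 : ℝ) ≤ n := n.cast_nonneg
    rw [abs_le]; constructor <;> nlinarith
  rw [e, abs_div, abs_mul, abs_pow, abs_pow, abs_of_pos h1]
  have := le_abs_self y
  have := (abs_nonneg _).trans h
  gcongr
  linarith

theorem ld_series {P : Matrix ι ι ℂ} (hP : P.IsHermitian) {x : ℝ} (h : ‖P‖ ≤ x) (hx : x < 1)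
    (n : ℕ) : (1 - P).det ≠ 0 ∧ |ld (1 - P) + ∑ m ∈ range n, rt (P ^ (m + 1)) / (m + 1)| ≤
      Fintype.card ι * (x ^ (n + 1) / (1 - x)) ∧
    |rt ((1 - P)⁻¹ * (1 - P)⁻¹) - ∑ m ∈ range n, (m + 1) * rt (P ^ m)| ≤
      Fintype.card ι * ((2 * n + 1) * x ^ n / (1 - x) ^ 2) := by
  obtain ⟨U, d, rfl⟩ : ∃ U d, P = cj U d := ⟨_, _, spec hP⟩
  rw [norm_cj] at h
  have hd : ∀ i, |d i| ≤ x := fun i => (norm_le_pi_norm d i).trans h
  have h1 : ∀ i, 0 < (1 - d) i := fun i => by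
    have := le_abs_self (d i); have := hd i; simp; linarith
  have e : 1 - cj U d = cj U (1 - d) := by rw [map_sub, map_one]
  have e' : (cj U (1 - d))⁻¹ = cj U (1 - d)⁻¹ := inv_eq_left_inv (by
    rw [← map_mul, ← map_one (cj U)]; congr 1; ext i; exact inv_mul_cancel₀ (h1 i).ne')
  rw [e, e', ld_cj U h1, det_cj]
  refine ⟨by exact_mod_cast (prod_pos fun i _ => h1 i).ne', ?_, ?_⟩
  · simp only [← map_pow, trace_cj, sum_div]
    rw [sum_comm, ← sum_add_distrib]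
    exact abs_sum_le fun i => log_series (hd i) hx n
  · simp only [← map_pow, ← map_mul, trace_cj, mul_sum]
    rw [sum_comm, ← sum_sub_distrib]
    exact abs_sum_le fun i => by simpa [sq] using sq_series (hd i) hx n

/-- the operator on Euclidean space -/
abbrev op (A : Matrix ι ι ℂ) : EuclideanSpace ℂ ι →L[ℂ] EuclideanSpace ℂ ι :=
  toEuclideanCLM (n := ι) (𝕜 := ℂ) A

/-- Hermitian and bounded below by `γ` -/
def Gap (γ : ℝ) (A : Matrix ι ι ℂ) : Prop :=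
  A.IsHermitian ∧ ∀ v, γ * ‖v‖ ^ 2 ≤ (⟪v, op A v⟫_ℂ).re

theorem Gap.spec {γ : ℝ} {A : Matrix ι ι ℂ} (h : Gap γ A) :
    ∃ U d, A = cj U d ∧ ∀ i, γ ≤ d i := by
  refine ⟨_, _, Xi.spec h.1, fun i => ?_⟩
  have := h.2 (h.1.eigenvectorBasis i)
  rw [h.1.eigenvectorBasis.orthonormal.1 i, EuclideanSpace.inner_eq_star_dotProduct,
    dotProduct_comm] at this
  rw [h.1.eigenvalues_eq]
  simpa using this

theorem Gap.pert {γ η : ℝ} {A W : Matrix ι ι ℂ} (h : Gap γ A) (hW : W.IsHermitian)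
    (hη : ‖W‖ ≤ η) : Gap (γ - η) (A + W) := by
  refine ⟨h.1.add hW, fun v => ?_⟩
  have h1 := h.2 v
  have h2 : ‖⟪v, op W v⟫_ℂ‖ ≤ ‖v‖ * (η * ‖v‖) :=
    (norm_inner_le_norm _ _).trans (by gcongr; exact (op W).le_of_opNorm_le hη v)
  have h3 := (abs_le.1 ((Complex.abs_re_le_norm _).trans h2)).1
  simp only [op, map_add, _root_.add_apply, inner_add_right, Complex.add_re]
  simp only [op] at h1 h3
  nlinarith

theorem Gap.sqrt {γ : ℝ} {A : Matrix ι ι ℂ} (h : Gap γ A) (hγ : 0 < γ) :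
    ∃ R S : Matrix ι ι ℂ, R.IsHermitian ∧ R * S = 1 ∧ S * R = 1 ∧ S * S = A ∧ R * R = A⁻¹ ∧
      ‖R‖ ≤ (√γ)⁻¹ := by
  obtain ⟨U, d, rfl, hd⟩ := h.spec
  have h0 : ∀ i, 0 < √(d i) := fun i => Real.sqrt_pos.2 (hγ.trans_le (hd i))
  have e1 : cj U (fun i => (√(d i))⁻¹) * cj U (fun i => √(d i)) = 1 := by
    rw [← map_mul, ← map_one (cj U)]; congr 1; ext i; exact inv_mul_cancel₀ (h0 i).ne'
  have e2 : cj U (fun i => √(d i)) * cj U (fun i => √(d i)) = cj U d := by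
    rw [← map_mul]; congr 1; ext i; exact Real.mul_self_sqrt (hγ.le.trans (hd i))
  refine ⟨_, _, herm_cj U _, e1, mul_eq_one_comm.1 e1, e2, ?_, ?_⟩
  · rw [← e2, Matrix.mul_inv_rev, inv_eq_left_inv e1]
  · rw [norm_cj, pi_norm_le_iff_of_nonneg (by positivity)]
    intro i
    rw [Real.norm_eq_abs, abs_of_pos (inv_pos.2 (h0 i))]
    gcongr; exact hd i

theorem Gap.inv {γ : ℝ} {A : Matrix ι ι ℂ} (h : Gap γ A) (hγ : 0 < γ) :
    A.det ≠ 0 ∧ A⁻¹ * A = 1 ∧ A * A⁻¹ = 1 ∧ ‖A⁻¹‖ ≤ γ⁻¹ := by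
  obtain ⟨R, S, -, h1, h2, h3, h4, h5⟩ := h.sqrt hγ
  have e : A⁻¹ * A = 1 := by
    rw [← h4, ← h3, mul_assoc, ← mul_assoc R S, h1, one_mul, h1]
  refine ⟨fun h0 => by simpa [h0] using congrArg det e, e, mul_eq_one_comm.1 e, ?_⟩
  rw [← h4]
  refine (norm_mul_le _ _).trans ((mul_le_mul h5 h5 (norm_nonneg _) (by positivity)).trans ?_)
  rw [← mul_inv, Real.mul_self_sqrt hγ.le]

theorem Gap.ld_add {γ η : ℝ} {A W : Matrix ι ι ℂ} (h : Gap γ A) (hγ : 0 < γ) (hW : W.IsHermitian)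
    (hη : ‖W‖ ≤ η) (h2 : 2 * η ≤ γ) :
    |ld (A + W) - ld A - rt (A⁻¹ * W)| ≤ Fintype.card ι * (2 * (η / γ) ^ 2) := by
  obtain ⟨R, S, hR, h1, h1', h3, h4, h5⟩ := h.sqrt hγ
  have η0 : 0 ≤ η := (norm_nonneg _).trans hη
  have hY : (-(R * W * R)).IsHermitian := by
    have := isHermitian_mul_mul_conjTranspose R hW
    rw [hR.eq] at this; exact this.neg
  have hn : ‖-(R * W * R)‖ ≤ η / γ := by
    rw [norm_neg]
    refine (norm_mul₃_le).trans ?_
    calc _ ≤ (√γ)⁻¹ * η * (√γ)⁻¹ := by gcongr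
      _ = η / (√γ * √γ) := by field_simp
      _ = _ := by rw [Real.mul_self_sqrt hγ.le]
  have hx : η / γ ≤ 1 / 2 := by rw [div_le_iff₀ hγ]; linarith
  obtain ⟨d1, d2, -⟩ := ld_series hY hn (by linarith) 1
  have dS : S.det ≠ 0 := fun h0 => by simpa [h0] using congrArg det h1
  have e : A + W = S * (1 - -(R * W * R)) * S := by
    rw [sub_neg_eq_add, mul_add, add_mul, mul_one, h3, ← mul_assoc, ← mul_assoc, h1', one_mul,
      mul_assoc, h1, mul_one]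
  have e2 : rt (A⁻¹ * W) = rt (R * W * R) := by rw [rt_comm (R * W), ← mul_assoc, h4]
  rw [e, ld_mul (by simp [dS, d1, -sub_neg_eq_add]) dS, ld_mul dS d1, e2, ← h3, ld_mul dS dS]
  simp only [range_one, sum_singleton, zero_add, pow_one, rt_neg, Nat.cast_zero, div_one] at d2
  refine le_trans (le_of_eq_of_le (by congr 1; ring) d2) ?_
  gcongr
  rw [div_le_iff₀ (by linarith)]
  nlinarith [sq_nonneg (η / γ)]

/-- Hilbert-Schmidt norm -/
def vec (A : Matrix ι ι ℂ) : EuclideanSpace ℂ (ι × ι) := WithLp.toLp 2 fun p => A p.1 p.2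

def hs (A : Matrix ι ι ℂ) : ℝ := ‖vec A‖

omit [DecidableEq ι]

theorem hs_nonneg (A : Matrix ι ι ℂ) : 0 ≤ hs A := norm_nonneg _

theorem hs_add (A B : Matrix ι ι ℂ) : hs (A + B) ≤ hs A + hs B := norm_add_le (vec A) (vec B)

theorem hs_smul (c : ℂ) (A : Matrix ι ι ℂ) : hs (c • A) = ‖c‖ * hs A := norm_smul c (vec A)

theorem inner_vec (A B : Matrix ι ι ℂ) : ⟪vec A, vec B⟫_ℂ = (Aᴴ * B).trace := by
  simp only [vec, PiLp.inner_apply, trace, Matrix.diag, Matrix.mul_apply, conjTranspose_apply,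
    Fintype.sum_prod_type_right]
  simp [mul_comm]

theorem hs_sq (A : Matrix ι ι ℂ) : hs A ^ 2 = rt (Aᴴ * A) := by
  rw [rt, ← inner_vec, hs, ← inner_self_eq_norm_sq (𝕜 := ℂ)]; rfl

theorem hs_star (A : Matrix ι ι ℂ) : hs Aᴴ = hs A := by
  rw [← sq_eq_sq₀ (hs_nonneg _) (hs_nonneg _), hs_sq, hs_sq, conjTranspose_conjTranspose, rt_comm]

theorem rt_mul_le (A B : Matrix ι ι ℂ) : |rt (A * B)| ≤ hs A * hs B := by
  have := norm_inner_le_norm (𝕜 := ℂ) (vec Aᴴ) (vec B)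
  rw [inner_vec, conjTranspose_conjTranspose] at this
  rw [← hs_star A]
  exact (Complex.abs_re_le_norm _).trans this

variable [DecidableEq ι]

theorem hs_mul (B A : Matrix ι ι ℂ) : hs (B * A) ≤ ‖B‖ * hs A := by
  have e : ∀ X : Matrix ι ι ℂ,
      hs X ^ 2 = ∑ j, ‖(WithLp.toLp 2 fun i => X i j : EuclideanSpace ℂ ι)‖ ^ 2 := fun X => by
    simp only [hs, vec, EuclideanSpace.norm_sq_eq, Fintype.sum_prod_type_right]
  refine abs_le_of_sq_le_sq' ?_ (mul_nonneg (norm_nonneg _) (hs_nonneg _)) |>.2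
  rw [mul_pow, e, e, mul_sum]
  refine sum_le_sum fun j _ => ?_
  rw [← mul_pow]
  gcongr
  exact (op B).le_opNorm (WithLp.toLp 2 fun i => A i j)

theorem hs_one : hs (1 : Matrix ι ι ℂ) = √(Fintype.card ι) := by
  rw [← Real.sqrt_sq (hs_nonneg _), hs_sq]; simp [rt]

theorem hs_le (A : Matrix ι ι ℂ) : hs A ≤ ‖A‖ * √(Fintype.card ι) := by
  simpa [hs_one] using hs_mul A 1

theorem rt_le (A : Matrix ι ι ℂ) : |rt A| ≤ Fintype.card ι * ‖A‖ := by
  have := rt_mul_le 1 A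
  rw [one_mul, hs_one] at this
  refine this.trans ((mul_le_mul_of_nonneg_left (hs_le A) (Real.sqrt_nonneg _)).trans_eq ?_)
  rw [mul_left_comm, Real.mul_self_sqrt (Nat.cast_nonneg _), mul_comm]

end Pool.Agent.Lib.MP_7f377f_mp.RG.Q4.Xi
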