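import Mathlib

/-! Theta functions of discrete tori and the logarithmic divergence in four dimensions. -/

noncomputable section

namespace Pool.Agent.Lib.MP_7f377f_mp.RG.Q4.Xi

open Finset Real MeasureTheory

def ee (t k : ℝ) : ℝ := exp (-(t * (2 - 2 * cos k)))

def th (N : ℕ) (s t : ℝ) : ℝ := (∑ j ∈ range N, ee t (2 * π * (j + s) / N)) / N

def pt (t : ℝ) : ℝ := (∫ k in (-π)..π, ee t k) / (2 * π)

theorem ee_mem {t : ℝ} (ht : 0 ≤ t) (k : ℝ) : 0 ≤ ee t k ∧ ee t k ≤ 1 :=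
  ⟨(exp_pos _).le, exp_le_one_iff.2 (by nlinarith [cos_le_one k])⟩

theorem ee_cont (t : ℝ) : Continuous (ee t) := by unfold ee; fun_prop

theorem mono_sum {h : ℝ → ℝ} (hm : Monotone h) (N : ℕ) {s : ℝ} (s0 : 0 ≤ s) (s1 : s ≤ 1) :
    |∑ j ∈ range N, h (j + s) - ∫ u in (0 : ℝ)..N, h u| ≤ h N - h 0 := by
  have h1 := (hm.monotoneOn (Set.Icc 0 (0 + (N : ℝ)))).sum_le_integral
  have h2 := (hm.monotoneOn (Set.Icc 0 (0 + (N : ℝ)))).integral_le_sum
  have h3 := sum_range_sub (fun j : ℕ => h j) N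
  have h4 : ∑ j ∈ range N, h (j + s) ≤ ∑ j ∈ range N, h (j + 1 : ℕ) :=
    sum_le_sum fun j _ => hm (by push_cast; linarith)
  have h5 : ∑ j ∈ range N, h j ≤ ∑ j ∈ range N, h (j + s) :=
    sum_le_sum fun j _ => hm (by linarith)
  simp only [zero_add, sum_sub_distrib, Nat.cast_zero] at h1 h2 h3
  rw [abs_le]; constructor <;> linarith

theorem th_pt {N : ℕ} (hN : 0 < N) {s t : ℝ} (s0 : 0 ≤ s) (s1 : s ≤ 1) (ht : 0 ≤ t) :
    |th N s t - pt t| ≤ 2 / N := by
  have N0 : (0 : ℝ) < N := by exact_mod_cast hN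
  set A : ℝ → ℝ := fun k => ee t (max 0 (min k π)) with hA
  have A1 : Antitone A := fun a b hab => exp_le_exp.2 <| by
    have := cos_le_cos_of_nonneg_of_le_pi (le_max_left 0 (min a π))
      (max_le pi_pos.le (min_le_right b π)) (max_le_max_left 0 (min_le_min_right π hab))
    nlinarith
  have Ac : Continuous A := (ee_cont t).comp (by fun_prop)
  have A2 : ∀ k, 0 ≤ k → k ≤ 2 * π → ee t k = A (2 * π - k) - -A k - A π := fun k h0 h1 => by
    simp only [hA, min_self]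
    rcases le_total k π with h | h
    · rw [min_eq_left h, min_eq_right (by linarith), max_eq_right h0]; ring
    · rw [min_eq_right h, min_eq_left (by linarith), max_eq_right (by linarith : 0 ≤ 2 * π - k)]
      simp [ee]
  have c0 : 0 < 2 * π / N := by positivity
  have h1 := mono_sum (h := fun u => -A (2 * π / N * u))
    (fun a b h => neg_le_neg (A1 (by gcongr))) N s0 s1
  have h2 := mono_sum (h := fun u => A (2 * π - 2 * π / N * u))
    (fun a b h => A1 (by gcongr)) N s0 s1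
  have e1 : ∑ j ∈ range N, ee t (2 * π * (j + s) / N) = ∑ j ∈ range N,
      A (2 * π - 2 * π / N * (j + s)) - ∑ j ∈ range N, -A (2 * π / N * (j + s)) - N * A π := by
    rw [← sum_sub_distrib, ← nsmul_eq_mul, ← card_range N, ← sum_const, card_range,
      ← sum_sub_distrib]
    refine sum_congr rfl fun j hj => ?_
    have : (j : ℝ) + 1 ≤ N := by exact_mod_cast mem_range.1 hj
    rw [show 2 * π * (j + s) / N = 2 * π / N * (j + s) by ring]
    refine A2 _ (by positivity) ?_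
    rw [div_mul_eq_mul_div, div_le_iff₀ N0]
    gcongr; linarith
  have e2 : N * pt t = (∫ u in (0 : ℝ)..N, A (2 * π - 2 * π / N * u)) -
      (∫ u in (0 : ℝ)..N, -A (2 * π / N * u)) - N * A π := by
    have p : Function.Periodic (ee t) (2 * π) := fun k => by simp [ee]
    have q := p.intervalIntegral_add_eq (-π) 0
    rw [show -π + 2 * π = π by ring, zero_add] at q
    have := intervalIntegral.integral_comp_mul_left (a := 0) (b := N) (ee t) c0.ne'
    rw [mul_zero, div_mul_cancel₀ _ N0.ne', smul_eq_mul] at this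
    rw [pt, q, ← intervalIntegral.integral_sub (by apply Continuous.intervalIntegrable; fun_prop)
      (by apply Continuous.intervalIntegrable; fun_prop),
      show N * A π = ∫ _ in (0 : ℝ)..N, A π by simp,
      ← intervalIntegral.integral_sub (by apply Continuous.intervalIntegrable; fun_prop) (by simp)]
    refine Eq.trans (by rw [this]; field_simp)
      (intervalIntegral.integral_congr (f := fun u => ee t (2 * π / N * u)) fun u hu => ?_)
    rw [Set.uIcc_of_le N0.le] at hu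
    refine A2 _ (mul_nonneg c0.le hu.1) ?_
    rw [div_mul_eq_mul_div, div_le_iff₀ N0]
    gcongr; exact hu.2
  have b : ∀ k, 0 ≤ A k ∧ A k ≤ 1 := fun k => ee_mem ht _
  rw [th, e1, show pt t = N * pt t / N by field_simp, e2, ← sub_div, abs_div, abs_of_pos N0]
  gcongr
  rw [abs_le] at h1 h2 ⊢
  constructor <;> linarith [h1.1, h1.2, h2.1, h2.2, b (2 * π / N * N), b (2 * π / N * 0),
    b (2 * π - 2 * π / N * N), b (2 * π - 2 * π / N * 0)]

theorem gauss {c t : ℝ} (hc : 0 < c) (ht : 0 < t) :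
    √(4 * π * t) * ((∫ k : ℝ, exp (-(c * t) * k ^ 2)) / (2 * π)) = (√c)⁻¹ := by
  have := pi_pos
  rw [integral_gaussian, ← sqrt_inv, ← sqrt_sq (by positivity : 0 ≤ 2 * π),
    ← sqrt_div' _ (by positivity), ← sqrt_mul (by positivity)]
  congr 1; field_simp; norm_num

theorem pt_eq (t : ℝ) : pt t = (∫ k, (Set.Ioc (-π) π).indicator (ee t) k) / (2 * π) := by
  rw [pt, intervalIntegral.integral_of_le (by linarith [pi_pos]),
    integral_indicator measurableSet_Ioc]

theorem ind_int (t : ℝ) : Integrable ((Set.Ioc (-π) π).indicator (ee t)) :=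
  (integrable_indicator_iff measurableSet_Ioc).2 ((ee_cont t).integrableOn_Ioc)

theorem pt_upper {t η : ℝ} (ht : 0 < t) (h0 : 0 ≤ η) (h1 : η < 1) :
    √(4 * π * t) * pt t ≤ (√(1 - η))⁻¹ + exp (-(t * η / 5)) * (√5⁻¹)⁻¹ := by
  have i1 := integrable_exp_neg_mul_sq (b := (1 - η) * t) (by positivity [sub_pos.2 h1])
  have i2 := integrable_exp_neg_mul_sq (b := 5⁻¹ * t) (by positivity)
  rw [← gauss (by linarith) ht, ← gauss (c := 5⁻¹) (by norm_num) ht, mul_left_comm, ← mul_add,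
    ← mul_div_assoc, ← add_div, ← integral_const_mul, ← integral_add i1 (i2.const_mul _), pt_eq]
  refine mul_le_mul_of_nonneg_left (div_le_div_of_nonneg_right ?_ (by positivity)) (sqrt_nonneg _)
  refine integral_mono (ind_int t) (i1.add (i2.const_mul _)) fun k => ?_
  simp only [Set.indicator]
  split_ifs with hk
  · have hk' : |k| ≤ π := abs_le.2 ⟨hk.1.le, hk.2⟩
    rcases le_total (k ^ 2) η with h | h
    · refine le_add_of_le_of_nonneg (exp_le_exp.2 ?_) (by positivity)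
      have := (abs_le.1 (cos_bound (x := k) (by
        rw [← sq_le_one_iff_abs_le_one]; linarith))).2
      rw [show |k| ^ 4 = k ^ 2 * k ^ 2 by rw [← sq_abs k]; ring] at this
      have : (1 - η) * k ^ 2 ≤ 2 - 2 * cos k := by nlinarith [sq_nonneg k]
      nlinarith
    · refine le_add_of_nonneg_of_le (by positivity) ?_
      rw [← exp_add]
      refine exp_le_exp.2 ?_
      have h2 := cos_le_one_sub_mul_cos_sq hk'
      have h3 : 5⁻¹ ≤ 2 / π ^ 2 := by
        rw [le_div_iff₀ (by positivity)]; nlinarith [pi_lt_d2, pi_pos]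
      have : η / 5 + 5⁻¹ * k ^ 2 ≤ 2 - 2 * cos k := by nlinarith [sq_nonneg k]
      nlinarith
  · positivity

theorem pt_lower {t : ℝ} (ht : 0 < t) :
    1 - exp (-(t / 2)) * (√2⁻¹)⁻¹ ≤ √(4 * π * t) * pt t := by
  have i1 := integrable_exp_neg_mul_sq (b := 1 * t) (by positivity)
  have i2 := integrable_exp_neg_mul_sq (b := 2⁻¹ * t) (by positivity)
  have := gauss one_pos ht
  rw [sqrt_one, inv_one] at this
  rw [← this, ← gauss (c := 2⁻¹) (by norm_num) ht, mul_left_comm, ← mul_sub,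
    ← mul_div_assoc, ← sub_div, ← integral_const_mul, ← integral_sub i1 (i2.const_mul _), pt_eq]
  refine mul_le_mul_of_nonneg_left (div_le_div_of_nonneg_right ?_ (by positivity)) (sqrt_nonneg _)
  refine integral_mono (i1.sub (i2.const_mul _)) (ind_int t) fun k => ?_
  simp only [Set.indicator]
  split_ifs with hk
  · refine (sub_le_self _ (by positivity)).trans (exp_le_exp.2 ?_)
    nlinarith [one_sub_sq_div_two_le_cos (x := k)]
  · rw [sub_nonpos, ← exp_add]
    refine exp_le_exp.2 ?_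
    have : 1 ≤ k ^ 2 := by
      rw [Set.mem_Ioc, not_and_or, not_lt, not_le] at hk
      rcases hk with h | h <;> nlinarith [pi_gt_three]
    nlinarith

theorem pt_le {t : ℝ} (ht : 0 < t) : pt t ≤ (√t)⁻¹ := by
  have h := pt_upper ht le_rfl one_pos
  have h1 : √5 ≤ 2.3 := sqrt_le_iff.2 (by norm_num)
  have h2 : 3.3 * √t ≤ √(4 * π * t) := by
    refine le_sqrt_of_sq_le ?_
    rw [mul_pow, sq_sqrt ht.le]; nlinarith [pi_gt_three]
  have h3 := sqrt_pos.2 ht
  have h4 : 0 < √(4 * π * t) := by linarith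
  simp only [sub_zero, sqrt_one, inv_one, mul_zero, zero_div, neg_zero, exp_zero, sqrt_inv, inv_inv,
    one_mul] at h
  rw [← le_div_iff₀' h4] at h
  refine h.trans ?_
  rw [div_le_iff₀ h4, ← div_eq_inv_mul, le_div_iff₀ h3]
  nlinarith

theorem th_le {N : ℕ} (hN : 0 < N) {s t : ℝ} (s0 : 0 ≤ s) (s1 : s ≤ 1) (ht : 0 < t) :
    th N s t ≤ 2 / N + (√t)⁻¹ := by
  linarith [(abs_le.1 (th_pt hN s0 s1 ht.le)).2, pt_le ht]

theorem th_mem {N : ℕ} (s : ℝ) {t : ℝ} (ht : 0 ≤ t) : 0 ≤ th N s t ∧ th N s t ≤ 1 := by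
  refine ⟨div_nonneg (sum_nonneg fun j _ => (ee_mem ht _).1) N.cast_nonneg,
    div_le_one_of_le₀ ?_ N.cast_nonneg⟩
  simpa using sum_le_card_nsmul (range N) _ 1 fun j _ => (ee_mem ht _).2

theorem pt_asym {η : ℝ} (h0 : 0 < η) (h1 : η ≤ 1 / 2) :
    ∃ t0, 1 ≤ t0 ∧ ∀ t, t0 ≤ t → |√(4 * π * t) * pt t - 1| ≤ 2 * η := by
  refine ⟨25 / η ^ 2, by rw [le_div_iff₀ (by positivity)]; nlinarith, fun t ht => ?_⟩
  have t0 : 0 < t := lt_of_lt_of_le (by positivity) ht
  rw [div_le_iff₀ (by positivity)] at ht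
  have a := pt_upper t0 h0.le (by linarith)
  have b := pt_lower t0
  have h5 : √5 ≤ 3 := sqrt_le_iff.2 (by norm_num)
  have h2 : √2 ≤ 3 := sqrt_le_iff.2 (by norm_num)
  have e1 : exp (-(t * η / 5)) ≤ η / 5 := by
    rw [exp_neg, inv_le_comm₀ (exp_pos _) (by positivity)]
    refine le_trans ?_ ((le_add_of_nonneg_right zero_le_one).trans (add_one_le_exp _))
    rw [inv_div, div_le_iff₀ h0]; nlinarith
  have e2 : exp (-(t / 2)) ≤ η / 5 := le_trans (exp_le_exp.2 (by nlinarith)) e1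
  have e3 : (√(1 - η))⁻¹ ≤ 1 + η := by
    rw [inv_le_comm₀ (sqrt_pos.2 (by linarith)) (by positivity)]
    refine le_sqrt_of_sq_le ?_
    rw [inv_pow, inv_le_iff_one_le_mul₀ (by positivity)]; nlinarith [mul_pos h0 h0]
  rw [sqrt_inv, inv_inv] at a b
  have := mul_le_mul e1 h5 (sqrt_nonneg _) (by positivity)
  have := mul_le_mul e2 h2 (sqrt_nonneg _) (by positivity)
  rw [abs_le]; constructor <;> linarith

/-- the dual torus -/
abbrev Kp (N : Fin 4 → ℕ) := (μ : Fin 4) → Fin (N μ)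

def ang (N : Fin 4 → ℕ) (s : Fin 4 → ℝ) (k : Kp N) (μ : Fin 4) : ℝ := 2 * π * (k μ + s μ) / N μ

def lam (θ : Fin 4 → ℝ) : ℝ := ∑ μ, (2 - 2 * cos (θ μ))

def NN (N1 N2 : ℕ) : Fin 4 → ℕ := ![N1, N1, N2, N2]

def sa : Fin 4 → ℝ := ![0, 0, 0, 1 / 2]

open scoped BigOperators

theorem av_prod {R : Type*} [Field R] [CharZero R] (N : Fin 4 → ℕ) (f : Fin 4 → ℕ → R) :
    𝔼 k : Kp N, ∏ μ, f μ (k μ) = ∏ μ, (∑ j ∈ range (N μ), f μ j) / N μ := by
  rw [expect_eq_sum_div_card, prod_div_distrib, ← Fintype.piFinset_univ,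
    ← prod_univ_sum (fun _ => univ) fun μ (j : Fin (N μ)) => f μ j]
  simp [Fin.sum_univ_eq_sum_range (f _)]

theorem av_exp (N : Fin 4 → ℕ) (s : Fin 4 → ℝ) (t : ℝ) :
    𝔼 k, exp (-(t * lam (ang N s k))) = ∏ μ, th (N μ) (s μ) t := by
  rw [← show _ = ∏ μ, th (N μ) (s μ) t from
    av_prod N fun μ j => ee t (2 * π * (j + s μ) / N μ)]
  simp only [lam, mul_sum, ← sum_neg_distrib, exp_sum]
  rfl

theorem geom {N : ℕ} (hN : 0 < N) (s : ℝ) (a : ℤ) :
    (∑ j ∈ range N, Complex.exp ((2 * π * (j + s) / N * a : ℝ) * Complex.I)) / N =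
      if (N : ℤ) ∣ a then Complex.exp ((2 * π * s / N * a : ℝ) * Complex.I) else 0 := by
  have N0 : (N : ℂ) ≠ 0 := by exact_mod_cast hN.ne'
  set ζ := Complex.exp (2 * π * Complex.I * a / N) with hζ
  have e : ∀ j : ℕ, Complex.exp ((2 * π * (j + s) / N * a : ℝ) * Complex.I) =
      Complex.exp ((2 * π * s / N * a : ℝ) * Complex.I) * ζ ^ j := fun j => by
    rw [hζ, ← Complex.exp_nat_mul, ← Complex.exp_add]; congr 1; push_cast; ring
  simp only [e, ← mul_sum]
  split_ifs with h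
  · obtain ⟨m, rfl⟩ := h
    have : ζ = 1 := by
      rw [hζ, ← Complex.exp_int_mul_two_pi_mul_I m]; congr 1; push_cast; field_simp
    simp [this, N0]
  · have h1 : ζ ≠ 1 := fun h1 => h <| by
      obtain ⟨m, hm⟩ := Complex.exp_eq_one_iff.1 h1
      refine ⟨m, ?_⟩
      have : (π : ℂ) ≠ 0 := by exact_mod_cast pi_pos.ne'
      field_simp at hm
      exact_mod_cast hm
    have h2 : ζ ^ N = 1 := by
      rw [hζ, ← Complex.exp_nat_mul, ← Complex.exp_int_mul_two_pi_mul_I a]; congr 1; field_simp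
    simp [geom_sum_eq h1, h2]

theorem av_cos {N : Fin 4 → ℕ} (hN : ∀ μ, 0 < N μ) (s : Fin 4 → ℝ) (a : Fin 4 → ℤ) :
    𝔼 k, cos (∑ μ, ang N s k μ * a μ) =
      if ∀ μ, (N μ : ℤ) ∣ a μ then cos (∑ μ, 2 * π * s μ / N μ * a μ) else 0 := by
  have := av_prod N fun μ j => Complex.exp ((2 * π * (j + s μ) / N μ * a μ : ℝ) * Complex.I)
  simp only [geom (hN _), Fintype.prod_ite_zero, ← Complex.exp_sum, ← sum_mul,
    ← Complex.ofReal_sum] at this
  have h2 := congrArg Complex.re this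
  rw [Complex.re_expect, apply_ite Complex.re] at h2
  simpa only [Complex.exp_ofReal_mul_I_re, Complex.zero_re, ang] using h2

theorem lam_le (θ : Fin 4 → ℝ) : 0 ≤ lam θ ∧ lam θ ≤ 16 := by
  simp only [lam, Fin.sum_univ_four]
  constructor <;> linarith [cos_le_one (θ 0), cos_le_one (θ 1), cos_le_one (θ 2), cos_le_one (θ 3),
    neg_one_le_cos (θ 0), neg_one_le_cos (θ 1), neg_one_le_cos (θ 2), neg_one_le_cos (θ 3)]

theorem lam_ge {N1 N2 : ℕ} (k : Kp (NN N1 N2)) : 4 / (N2 : ℝ) ^ 2 ≤ lam (ang _ sa k) := by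
  have h3 : ((k 3 : ℕ) : ℝ) + 1 ≤ N2 := by exact_mod_cast (k 3).2
  have h0 : (0 : ℝ) ≤ (k 3 : ℕ) := Nat.cast_nonneg _
  have N0 : (0 : ℝ) < N2 := by linarith
  have key : ∀ x, π / N2 ≤ x → x ≤ π → cos x ≤ 1 - 2 / (N2 : ℝ) ^ 2 := fun x h1 h2 => by
    have p : 0 < π / N2 := by positivity
    refine (cos_le_one_sub_mul_cos_sq (by rw [abs_of_pos (by linarith)]; exact h2)).trans ?_
    have : 2 / (N2 : ℝ) ^ 2 = 2 / π ^ 2 * (π / N2) ^ 2 := by field_simp
    rw [this]; gcongr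
  have e : ang _ sa k 3 = π / N2 * (2 * (k 3 : ℕ) + 1) := by simp [ang, sa, NN]; ring
  have p : 0 < π / N2 := by positivity
  have : cos (ang _ sa k 3) ≤ 1 - 2 / (N2 : ℝ) ^ 2 := by
    rcases le_total (ang _ sa k 3) π with h | h
    · exact key _ (by rw [e]; nlinarith) h
    · rw [← cos_two_pi_sub]
      refine key _ ?_ (by linarith)
      have : 2 * π = π / N2 * (2 * N2) := by field_simp
      rw [e, this]; nlinarith
  simp only [lam, Fin.sum_univ_four]
  have : 4 / (N2 : ℝ) ^ 2 = 2 * (2 / (N2 : ℝ) ^ 2) := by ring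
  linarith [cos_le_one (ang _ sa k 0), cos_le_one (ang _ sa k 1), cos_le_one (ang _ sa k 2)]

/-- the trace of the square of the Green function, per site -/
def SS (N1 N2 : ℕ) : ℝ := 𝔼 k, (lam (ang (NN N1 N2) sa k))⁻¹ ^ 2

theorem inv_sq {l : ℝ} (hl : 0 < l) (T : ℝ) :
    l⁻¹ ^ 2 = (∫ t in (0 : ℝ)..T, t * exp (-(t * l))) + exp (-(T * l)) * (T * l⁻¹ + l⁻¹ ^ 2) := by
  rw [intervalIntegral.integral_eq_sub_of_hasDerivAt
    (f := fun t => -(exp (-(t * l)) * (t * l⁻¹ + l⁻¹ ^ 2)))]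
  · simp
  · intro t _
    refine ((((hasDerivAt_id' t).mul_const l).fun_neg.exp).fun_mul
      (((hasDerivAt_id' t).mul_const l⁻¹).add_const (l⁻¹ ^ 2))).fun_neg.congr_deriv ?_
    field_simp; ring
  · apply Continuous.intervalIntegrable; fun_prop

theorem SS_asym {ε : ℝ} (hε : 0 < ε) : ∃ N0 : ℕ, ∀ N1 N2 : ℕ, N0 ≤ N2 → N2 ≤ N1 →
    |SS N1 N2 - log N2 / (8 * π ^ 2)| ≤ ε * log N2 := by
  obtain ⟨η, η0, η1, η2⟩ : ∃ η : ℝ, 0 < η ∧ η ≤ 1 / 30 ∧ 2 * η ≤ ε :=
    ⟨min (1 / 30) (ε / 2), by positivity, min_le_left _ _,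
      by linarith [min_le_right (1 / 30) (ε / 2)]⟩
  obtain ⟨t0, t1, ht⟩ := pt_asym η0 (by linarith)
  set β := (η / 8) ^ 2 with hβ
  have β0 : 0 < β := by positivity
  set C := t0 ^ 2 + (2 + 8 / η) ^ 4 + |log (β / t0)| with hC
  obtain ⟨N0, hN0⟩ := exists_nat_ge (exp (C / η) + t0 / β + 1)
  refine ⟨N0, fun N1 N2 h2 h1 => ?_⟩
  have h2' : (N0 : ℝ) ≤ N2 := by exact_mod_cast h2
  have h1' : (N2 : ℝ) ≤ N1 := by exact_mod_cast h1
  have p1 := exp_pos (C / η)
  have p2 : 0 < t0 / β := by positivity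
  have n1 : (1 : ℝ) ≤ N2 := by linarith
  have lg : C ≤ η * log N2 := by
    rw [← div_le_iff₀' η0, le_log_iff_exp_le (by linarith)]; linarith
  set T := β * (N2 : ℝ) ^ 2 with hT
  have T0 : t0 ≤ T := by
    have : t0 / β ≤ N2 := by linarith
    rw [div_le_iff₀' β0] at this
    nlinarith [mul_nonneg β0.le (mul_nonneg (by linarith : (0 : ℝ) ≤ N2) (sub_nonneg.2 n1))]
  have hN : ∀ μ, 0 < NN N1 N2 μ ∧ 2 / (NN N1 N2 μ : ℝ) ≤ 2 / N2 ∧ 0 ≤ sa μ ∧ sa μ ≤ 1 := fun μ => by
    have a : 0 < N2 := by exact_mod_cast (by linarith : (0 : ℝ) < N2)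
    have b : 2 / (N1 : ℝ) ≤ 2 / N2 := by gcongr
    fin_cases μ <;> simp [NN, sa, a, b, a.trans_le h1] <;> norm_num
  set h : ℝ → ℝ := fun t => t * ∏ μ, th (NN N1 N2 μ) (sa μ) t with hh
  have hc : Continuous h := by
    simp only [hh, th, ee]; fun_prop
  have l0 : ∀ k : Kp (NN N1 N2), 0 < lam (ang _ sa k) := fun k =>
    lt_of_lt_of_le (by positivity) (lam_ge k)
  have e1 : SS N1 N2 = (∫ t in (0 : ℝ)..t0, h t) + (∫ t in t0..T, h t) + 𝔼 k : Kp (NN N1 N2),
      exp (-(T * lam (ang _ sa k))) * (T * (lam (ang _ sa k))⁻¹ + (lam (ang _ sa k))⁻¹ ^ 2) := by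
    rw [intervalIntegral.integral_add_adjacent_intervals (hc.intervalIntegrable _ _)
      (hc.intervalIntegrable _ _), SS, expect_congr rfl fun k _ => inv_sq (l0 k) T,
      expect_add_distrib]
    congr 1
    simp only [hh, ← av_exp, expect_eq_sum_div_card, ← mul_div_assoc, mul_sum]
    rw [intervalIntegral.integral_div, intervalIntegral.integral_finsetSum]
    intro k _; apply Continuous.intervalIntegrable; fun_prop
  have hb : ∀ t, 0 ≤ t → 0 ≤ h t ∧ h t ≤ t := fun t t0 =>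
    ⟨mul_nonneg t0 (prod_nonneg fun μ _ => (th_mem _ t0).1), mul_le_of_le_one_right t0
      (prod_le_one (fun μ _ => (th_mem _ t0).1) fun μ _ => (th_mem _ t0).2)⟩
  have b1 : |∫ t in (0 : ℝ)..t0, h t| ≤ t0 ^ 2 := by
    have := intervalIntegral.norm_integral_le_of_norm_le_const (a := 0) (b := t0) (C := t0) (f := h)
      fun t ht => by
        rw [Set.uIoc_of_le (by linarith)] at ht
        rw [Real.norm_of_nonneg (hb t ht.1.le).1]; exact (hb t ht.1.le).2.trans ht.2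
    rwa [sub_zero, abs_of_pos (by linarith : 0 < t0), ← sq] at this
  have b3 : |𝔼 k : Kp (NN N1 N2), exp (-(T * lam (ang _ sa k))) *
      (T * (lam (ang _ sa k))⁻¹ + (lam (ang _ sa k))⁻¹ ^ 2)| ≤ (2 + 8 / η) ^ 4 := by
    have Tp : 0 < T := by linarith
    rw [abs_of_nonneg (expect_nonneg fun k _ => by have := l0 k; positivity)]
    refine (expect_le_expect (g := fun k => (N2 : ℝ) ^ 4 * exp (-(T * lam (ang _ sa k))))
      fun k _ => ?_).trans ?_
    · rw [mul_comm]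
      gcongr
      have a : (lam (ang _ sa k))⁻¹ ≤ (N2 : ℝ) ^ 2 / 4 := by
        rw [inv_le_comm₀ (l0 k) (by positivity), inv_div]; exact lam_ge k
      have b := (l0 k).le
      have c : T ≤ (N2 : ℝ) ^ 2 := mul_le_of_le_one_left (by positivity) (by rw [hβ]; nlinarith)
      calc _ ≤ (N2 : ℝ) ^ 2 * ((N2 : ℝ) ^ 2 / 4) + ((N2 : ℝ) ^ 2 / 4) ^ 2 := by gcongr
        _ ≤ _ := by nlinarith [pow_pos (by linarith : (0 : ℝ) < N2) 4]
    · rw [← mul_expect, av_exp]
      have a : √T = η / 8 * N2 := by rw [hT, hβ, ← mul_pow, sqrt_sq (by positivity)]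
      have := prod_le_prod (s := univ) (g := fun _ : Fin 4 => (2 + 8 / η) / N2)
        (fun μ _ => (th_mem (N := NN N1 N2 μ) (sa μ) Tp.le).1) fun μ _ =>
          (th_le (hN μ).1 (hN μ).2.2.1 (hN μ).2.2.2 Tp).trans (by
            rw [a, add_div]; exact add_le_add (hN μ).2.1 (le_of_eq (by field_simp)))
      refine (mul_le_mul_of_nonneg_left this (by positivity)).trans_eq ?_
      simp; field_simp
  have b2 : ∀ t ∈ Set.Icc t0 T, |h t - (16 * π ^ 2)⁻¹ * t⁻¹| ≤ 20 * η * ((16 * π ^ 2)⁻¹ * t⁻¹) := by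
    intro t ht'
    have tp : 0 < t := by linarith [ht'.1]
    have q : 0 < √(4 * π * t) := by positivity
    have a : ∀ μ, |√(4 * π * t) * th (NN N1 N2 μ) (sa μ) t - 1| ≤ 3 * η := fun μ => by
      have a1 := (th_pt (hN μ).1 (hN μ).2.2.1 (hN μ).2.2.2 tp.le).trans (hN μ).2.1
      have a2 : √(4 * π * t) ≤ η / 2 * N2 := sqrt_le_iff.2 ⟨by positivity, by
        have := ht'.2; rw [hT, hβ] at this; nlinarith [pi_le_four, pi_pos]⟩
      have a3 : |√(4 * π * t) * (th (NN N1 N2 μ) (sa μ) t - pt t)| ≤ η := by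
        rw [abs_mul, abs_of_pos q]
        refine (mul_le_mul a2 a1 (abs_nonneg _) (by positivity)).trans_eq (by field_simp)
      have a4 := ht t ht'.1
      rw [abs_le] at a3 a4 ⊢; constructor <;> linarith [a3.1, a3.2, a4.1, a4.2]
    have e : h t = (∏ μ, √(4 * π * t) * th (NN N1 N2 μ) (sa μ) t) * ((16 * π ^ 2)⁻¹ * t⁻¹) := by
      have : √(4 * π * t) ^ 4 = (4 * π * t) ^ 2 := by
        rw [show 4 = 2 * 2 by rfl, pow_mul, sq_sqrt (by positivity)]
      rw [prod_mul_distrib, prod_const, card_univ, Fintype.card_fin, this, hh]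
      field_simp; ring
    rw [e, ← sub_one_mul, abs_mul, abs_of_pos (by positivity : 0 < (16 * π ^ 2)⁻¹ * t⁻¹)]
    gcongr
    set x := fun μ => √(4 * π * t) * th (NN N1 N2 μ) (sa μ) t
    have u := prod_le_prod (s := univ) (f := x) (g := fun _ : Fin 4 => 1 + 3 * η)
      (fun μ _ => by linarith [(abs_le.1 (a μ)).1]) fun μ _ => by linarith [(abs_le.1 (a μ)).2]
    have v := prod_le_prod (s := univ) (f := fun _ : Fin 4 => 1 - 3 * η) (g := x)
      (fun μ _ => by linarith) fun μ _ => by linarith [(abs_le.1 (a μ)).1]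
    rw [prod_const, card_univ, Fintype.card_fin] at u v
    have w := one_add_mul_le_pow (a := -(3 * η)) (by linarith) 4
    have w2 : (1 + 3 * η) ^ 2 ≤ 1 + 7 * η := by nlinarith
    have w3 : (1 + 3 * η) ^ 4 ≤ (1 + 7 * η) ^ 2 := by
      rw [show 4 = 2 * 2 by rfl, pow_mul]; gcongr
    rw [← sub_eq_add_neg (1 : ℝ) (3 * η)] at w
    push_cast at w
    rw [abs_le]; constructor <;> nlinarith
  have ic : ∀ c : ℝ, IntervalIntegrable (fun t => c * t⁻¹) volume t0 T ∧
      ∫ t in t0..T, c * t⁻¹ = c * (log (β / t0) + 2 * log N2) := fun c => by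
    have : (0 : ℝ) ∉ Set.uIcc t0 T := Set.notMem_uIcc_of_lt (by linarith) (by linarith)
    refine ⟨(intervalIntegral.intervalIntegrable_inv (fun x hx h => this (h ▸ hx))
      continuousOn_id).const_mul c, ?_⟩
    rw [intervalIntegral.integral_const_mul, integral_inv this, hT, mul_div_right_comm,
      log_mul (by positivity) (by positivity), log_pow]
    norm_num
  set c := (16 * π ^ 2)⁻¹ with hc'
  have c0 : 0 < c := by positivity
  have c1 : c ≤ 1 / 40 := by
    rw [hc', inv_le_comm₀ (by positivity) (by norm_num)]; nlinarith [pi_gt_three]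
  have u := intervalIntegral.integral_mono_on T0 (hc.intervalIntegrable _ _)
    (ic ((1 + 20 * η) * c)).1 fun t ht => by linarith [(abs_le.1 (b2 t ht)).2]
  have v := intervalIntegral.integral_mono_on T0 (ic ((1 - 20 * η) * c)).1
    (hc.intervalIntegrable _ _) fun t ht => by linarith [(abs_le.1 (b2 t ht)).1]
  rw [(ic _).2] at u v
  have e2 : log N2 / (8 * π ^ 2) = 2 * c * log N2 := by rw [hc']; field_simp; ring
  have l1 := log_nonneg n1
  have l2 : |(1 + 20 * η) * c * log (β / t0)| ≤ |log (β / t0)| := by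
    rw [abs_mul, abs_of_pos (by positivity)]
    exact mul_le_of_le_one_left (abs_nonneg _) (by nlinarith)
  have l3 : |(1 - 20 * η) * c * log (β / t0)| ≤ |log (β / t0)| := by
    rw [abs_mul, abs_of_pos (by nlinarith)]
    exact mul_le_of_le_one_left (abs_nonneg _) (by nlinarith)
  have l4 : 40 * c * (η * log N2) ≤ η * log N2 :=
    mul_le_of_le_one_left (by positivity) (by linarith)
  have l5 := mul_le_mul_of_nonneg_right η2 l1
  rw [e1, e2]
  rw [abs_le] at b1 b3 ⊢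
  have l2 := (le_abs_self _).trans l2
  have l3 := (neg_le_abs _).trans l3
  constructor <;> linarith [b1.1, b1.2, b3.1, b3.2]

end Pool.Agent.Lib.MP_7f377f_mp.RG.Q4.Xi
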