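import Pool.Agent.Lib.MP_7f377f_mp.Q4XiH
import Pool.Agent.Lib.MP_7f377f_mp.Q4AfB
import Pool.Agent.Lib.MP_7f377f_mp.Q4Gap

/-! Real forms of Hermitian matrices, the Weitzenboeck identity, weighted shifts. -/

noncomputable section

namespace Pool.Agent.Lib.MP_7f377f_mp.RG.Q4.Xi

open Finset Matrix Complex

section real
variable {α β κ : Type} [Fintype α] [Fintype β] [Fintype κ] [DecidableEq α] [DecidableEq β]
  [DecidableEq κ]

/-- complex numbers as real matrices -/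
def cm : ℂ →+* Matrix (Fin 2) (Fin 2) ℝ where
  toFun z := !![z.re, -z.im; z.im, z.re]
  map_one' := by simp [one_fin_two]
  map_mul' z w := by simp; constructor <;> constructor <;> ring
  map_zero' := by ext i j; fin_cases i <;> fin_cases j <;> simp
  map_add' z w := by simp [add_comm]

/-- the scalar product -/
def ip (u v : β → ℂ) : ℂ := star u ⬝ᵥ v

theorem split_det (g : α ⊕ β × Fin 2 → κ) (hg : g.Bijective) {A : Matrix κ κ ℝ} (hA : A.IsSymm)
    {M : Matrix β β ℂ} (hM : M.IsHermitian) {n : (α → ℝ) → ℝ}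
    (h : ∀ (a : κ → ℝ) (z : β → ℂ), (∀ i, z i = ⟨a (g (.inr (i, 0))), a (g (.inr (i, 1)))⟩) →
      a ⬝ᵥ A *ᵥ a = n (fun i => a (g (.inl i))) + (ip z (M *ᵥ z)).re) :
    ∃ B : Matrix α α ℝ, B.IsSymm ∧ (∀ y, y ⬝ᵥ B *ᵥ y = n y) ∧ A.det = B.det * ‖M.det‖ ^ 2 := by
  let e := Equiv.ofBijective g hg
  have key : ∀ (x : α ⊕ β × Fin 2 → ℝ) (z : β → ℂ), (∀ i, z i = ⟨x (.inr (i, 0)), x (.inr (i, 1))⟩) →
      x ⬝ᵥ A.submatrix e e *ᵥ x = n (x ∘ .inl) + (ip z (M *ᵥ z)).re := fun x z hz => by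
    have e1 : ∀ i, (x ∘ e.symm) (g i) = x i := fun i => congrArg x (e.symm_apply_apply i)
    have := h (x ∘ e.symm) z (by simpa only [e1] using hz)
    simp only [e1] at this
    rw [submatrix_mulVec_equiv, ← comp_equiv_symm_dotProduct, this]; rfl
  have h1 : ∀ y, y ⬝ᵥ (A.submatrix e e).toBlocks₁₁ *ᵥ y = n y := fun y => by
    have := key (Sum.elim y 0) 0 fun _ => rfl
    rw [← fromBlocks_toBlocks (A.submatrix e e), fromBlocks_mulVec, sumElim_dotProduct_sumElim]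
      at this
    simpa [ip] using this
  have s1 : (A.submatrix e e).toBlocks₁₁.IsSymm := (hA.submatrix e).submatrix _
  refine ⟨_, s1, h1, ?_⟩
  have s2 : ((M.map cm).comp β β _ _ ℝ).IsSymm := by
    ext ⟨i, k⟩ ⟨j, l⟩
    fin_cases k <;> fin_cases l <;> simp [cm, ← hM.apply j i]
  have e2 : A.submatrix e e = fromBlocks (A.submatrix e e).toBlocks₁₁ 0 0
      ((M.map cm).comp β β _ _ ℝ) := by
    refine symm_ext (hA.submatrix e) (s1.fromBlocks transpose_zero s2) fun x => ?_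
    rw [key x _ fun _ => rfl, ← Sum.elim_comp_inl_inr x, fromBlocks_mulVec,
      sumElim_dotProduct_sumElim]
    simp only [Sum.elim_comp_inl, Sum.elim_comp_inr, zero_mulVec, add_zero, zero_add, h1]
    congr 1
    simp only [ip, dotProduct, mulVec, Fintype.sum_prod_type, Fin.sum_univ_two, re_sum, mul_sum,
      ← sum_add_distrib]
    refine sum_congr rfl fun i _ => sum_congr rfl fun j _ => ?_
    simp [cm]; ring
  rw [← det_submatrix_equiv_self e, e2, det_fromBlocks_zero₂₁, toBlocks_fromBlocks₁₁,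
    ← det_det, Complex.sq_norm]
  simp [cm, normSq_apply]

omit [DecidableEq β] in
theorem ip_mulVec (X : Matrix β β ℂ) (u v : β → ℂ) : ip (X *ᵥ u) v = ip u (Xᴴ *ᵥ v) := by
  rw [ip, ip, star_mulVec, dotProduct_mulVec]

omit [DecidableEq β] in
theorem ip_self (u : β → ℂ) : (ip u u).re = ∑ i, ‖u i‖ ^ 2 := by
  simp [ip, dotProduct, Complex.sq_norm, normSq_apply]

omit [DecidableEq β] in
theorem ip_im (u v : β → ℂ) : (-I * (ip u v - ip v u)).re =
    2 * ∑ i, ((u i).re * (v i).im - (u i).im * (v i).re) := by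
  simp only [ip, dotProduct, ← sum_sub_distrib, mul_sum, re_sum]
  exact sum_congr rfl fun i _ => by simp; ring

/-- the gauge fixed Hessian of the charged field -/
def M4 (F : ℝ) (T : Fin 4 → unitaryGroup β ℂ) : Matrix ((β ⊕ β) ⊕ β ⊕ β) ((β ⊕ β) ⊕ β ⊕ β) ℂ :=
  fromBlocks (MB F T) 0 0 (fromBlocks (Lap T) 0 0 (Lap T))

theorem Lap_herm (T : Fin 4 → unitaryGroup β ℂ) : (Lap T).IsHermitian := by
  simp [IsHermitian, Lap, conjTranspose_sum]

theorem M4_herm (F : ℝ) (T : Fin 4 → unitaryGroup β ℂ) : (M4 F T).IsHermitian := by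
  have h : (((2 * Real.cos F - 2 : ℝ) : ℂ) • (1 : Matrix β β ℂ)).IsHermitian :=
    isHermitian_one.smul (by simp [IsSelfAdjoint, -ofReal_cos])
  exact (((Lap_herm _).add h).fromBlocks rfl ((Lap_herm _).add h)).fromBlocks conjTranspose_zero
    ((Lap_herm _).fromBlocks conjTranspose_zero (Lap_herm _))

/-- covariant curl -/
def crl (T : Fin 4 → unitaryGroup β ℂ) (a : Fin 4 → β → ℂ) (μ ν : Fin 4) : β → ℂ :=
  a μ + (T μ).1 *ᵥ a ν - (T ν).1 *ᵥ a μ - a ν

theorem weitz {F : ℝ} {T : Fin 4 → unitaryGroup β ℂ} (h : Heis (ph (2 * F)) T)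
    (a : Fin 4 → β → ℂ) (z : (β ⊕ β) ⊕ β ⊕ β → ℂ)
    (hz : z = Sum.elim (Sum.elim (a 0) (a 1)) (Sum.elim (a 2) (a 3))) :
    ip z (M4 F T *ᵥ z) = Real.cos F * ip (crl T a 0 1) (crl T a 0 1) +
      ip (crl T a 0 2) (crl T a 0 2) + ip (crl T a 0 3) (crl T a 0 3) +
      ip (crl T a 1 2) (crl T a 1 2) + ip (crl T a 1 3) (crl T a 1 3) +
      ip (crl T a 2 3) (crl T a 2 3) + Real.sin F * (-I * (ip ((T 1).1 *ᵥ a 0) (a 1) -
        ip (a 1) ((T 1).1 *ᵥ a 0)) + -I * (ip (a 0) ((T 0).1 *ᵥ a 1) - ip ((T 0).1 *ᵥ a 1) (a 0)) -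
        -I * (ip ((T 1).1 *ᵥ a 0 + a 1) (a 0 + (T 0).1 *ᵥ a 1) -
          ip (a 0 + (T 0).1 *ᵥ a 1) ((T 1).1 *ᵥ a 0 + a 1))) +
      ip (∑ μ, (a μ - (T μ).1ᴴ *ᵥ a μ)) (∑ μ, (a μ - (T μ).1ᴴ *ᵥ a μ)) := by
  have u1 : ∀ μ, (T μ).1ᴴ * (T μ).1 = 1 := fun μ => (T μ).2.1
  have u2 : ∀ μ, (T μ).1 * (T μ).1ᴴ = 1 := fun μ => (T μ).2.2
  have c : ∀ {μ ν}, Commute (T μ) (T ν) → (T μ).1 * (T ν).1ᴴ = (T ν).1ᴴ * (T μ).1 ∧
      (T ν).1 * (T μ).1ᴴ = (T μ).1ᴴ * (T ν).1 := fun h =>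
    ⟨congrArg Subtype.val h.inv_right.eq, congrArg Subtype.val h.inv_left.eq.symm⟩
  set e := exp (F * I) with he
  have e0 : e ≠ 0 := exp_ne_zero _
  have e1 : exp (-(F * I)) = e⁻¹ := exp_neg _
  have e2 : star e = e⁻¹ := by rw [he, star_def, ← exp_conj, ← e1]; simp
  have e3 : (Real.cos F : ℂ) = (e + e⁻¹) / 2 := by rw [ofReal_cos, cos, neg_mul, e1]
  have e4 : (Real.sin F : ℂ) = (e⁻¹ - e) * I / 2 := by rw [ofReal_sin, sin, neg_mul, e1]
  have c1 : (T 0).1 * (T 1).1ᴴ = (e⁻¹ * e⁻¹) • ((T 1).1ᴴ * (T 0).1) := by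
    have := congrArg Subtype.val (h.swap (-1) 1)
    simp only [_root_.zpow_neg, zpow_one, mul_one, neg_neg, Submonoid.coe_mul, ph_val] at this
    change (T 1).1ᴴ * _ = _ * (_ * (T 1).1ᴴ) at this
    rw [this, smul_mul_assoc, one_mul, smul_smul, show exp ((2 * F : ℝ) * I) = e * e by
      rw [← exp_add]; congr 1; push_cast; ring]
    field_simp
    rw [one_smul]
  have c2 : (T 1).1 * (T 0).1ᴴ = (e * e) • ((T 0).1ᴴ * (T 1).1) := by
    simpa [e2] using congrArg conjTranspose c1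
  have l : ∀ u v w : β → ℂ, ip (u + v) w = ip u w + ip v w ∧ ip (u - v) w = ip u w - ip v w ∧
      ip w (u + v) = ip w u + ip w v ∧ ip w (u - v) = ip w u - ip w v := fun u v w => by simp [ip]
  have l' : ∀ (u v : β → ℂ) (c : ℂ), ip u (c • v) = c * ip u v := fun u v w => by simp [ip]
  have t : ∀ (s : ℝ) (U : unitaryGroup β ℂ), (ph s * U).1 = exp (s * I) • U.1 := fun s U => by
    simp [ph_val]
  have i : ∀ U : unitaryGroup β ℂ, (U⁻¹).1 = U.1ᴴ := fun _ => rfl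
  rw [hz, M4, MB, ip, Function.star_sumElim, Function.star_sumElim, Function.star_sumElim]
  simp only [fromBlocks_mulVec, sumElim_dotProduct_sumElim, Sum.elim_comp_inl, Sum.elim_comp_inr,
    zero_mulVec, add_zero, zero_add, ← ip.eq_1, Lap, sq_eq]
  simp only [KK, tw, Fin.sum_univ_four, cons_val_zero, cons_val_one, Matrix.cons_val, t,
    Submonoid.coe_mul _ (_⁻¹), i, ph_val, crl, ofReal_neg, neg_mul, e1, ← he, ofReal_zero, zero_mul,
    exp_zero, one_smul, conjTranspose_smul, conjTranspose_add, conjTranspose_mul,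
    conjTranspose_conjTranspose, conjTranspose_one, mul_smul_comm, star_sub,
    star_inv₀, e2, inv_inv, star_one, ofReal_sub, ofReal_mul, ofReal_ofNat, e3, e4,
    ← one_add_one_eq_two (R := Matrix β β ℂ), add_mulVec, sub_mulVec, smul_mulVec, one_mulVec,
    l, l', ip_mulVec, mulVec_mulVec, u1, u2, c h.c02, c h.c03, c h.c12,
    c h.c13, c h.c23, c1, c2]
  field_simp
  ring_nf
  simp only [I_sq]
  ring

end real

section shift
variable {G : Type} [AddCommGroup G] [Fintype G] [DecidableEq G]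

/-- weighted shifts -/
def ws (θ : G → Real.Angle) (e : G) : unitaryGroup G ℂ :=
  ⟨of fun x y => if y = x + e then Gp.ph (θ x) else 0, by
    rw [mem_unitaryGroup_iff]
    ext x z
    by_cases h : x = z
    · subst h
      simp [Matrix.mul_apply, star_apply, mul_conj, normSq_eq_norm_sq, Gp.norm_ph]
    · simp [Matrix.mul_apply, star_apply, h]⟩

theorem ws_mulVec (θ : G → Real.Angle) (e : G) (f : G → ℂ) (x : G) :
    ((ws θ e).1 *ᵥ f) x = Gp.ph (θ x) * f (x + e) := by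
  simp [ws, mulVec, dotProduct]

theorem ws_pow (θ : G → Real.Angle) (e : G) (n : ℕ) (f : G → ℂ) (x : G) :
    ((ws θ e ^ n).1 *ᵥ f) x = (∏ s ∈ range n, Gp.ph (θ (x + s • e))) * f (x + n • e) := by
  induction n generalizing f with
  | zero => simp
  | succ n ih =>
    rw [pow_succ, Submonoid.coe_mul, ← mulVec_mulVec, ih, ws_mulVec, prod_range_succ, succ_nsmul,
      add_assoc, mul_assoc]

omit [AddCommGroup G] in
theorem uni_ext {U V : unitaryGroup G ℂ} (h : ∀ f x, (U.1 *ᵥ f) x = (V.1 *ᵥ f) x) : U = V :=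
  Subtype.ext (mulVec_injective (funext fun f => funext (h f)))

/-- matrices which shift by `e` -/
def Sf (e : G) (U : unitaryGroup G ℂ) : Prop := ∀ x y, y ≠ x + e → U.1 x y = 0

theorem Sf.mul {e e' : G} {U V : unitaryGroup G ℂ} (h : Sf e U) (h' : Sf e' V) :
    Sf (e + e') (U * V) := fun x y hy => by
  rw [Submonoid.coe_mul, Matrix.mul_apply]
  refine sum_eq_zero fun z _ => ?_
  by_cases hz : z = x + e
  · rw [h' z y (by rwa [hz, add_assoc]), mul_zero]
  · rw [h x z hz, zero_mul]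

theorem Sf.zpow {e : G} {U : unitaryGroup G ℂ} (h : Sf e U) (k : ℤ) : Sf (k • e) (U ^ k) := by
  have h' : Sf (-e) U⁻¹ := fun x y hy => by
    change star (U.1 y x) = 0
    rw [h y x fun hx => hy (by simp [hx]), star_zero]
  induction k using Int.induction_on with
  | zero => exact fun x y hy => one_apply_ne' (by simpa using hy)
  | succ k ih => rw [_root_.zpow_add_one, add_smul, one_smul]; exact ih.mul h
  | pred k ih => rw [_root_.zpow_sub_one, sub_smul, one_smul, sub_eq_add_neg]; exact ih.mul h'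

end shift

variable {N : Fin 4 → ℕ} [∀ i, NeZero (N i)] {F : ℝ} {θ : Lk → Real.Angle}

/-- the magnetic translations of the background -/
def TT (N : Fin 4 → ℕ) [∀ i, NeZero (N i)] (θ : Lk → Real.Angle) (μ : Fin 4) :
    unitaryGroup (TS N) ℂ := ws (fun x => θ (lf x, μ)) (Pi.single μ 1)

theorem ph_add' (a b : Real.Angle) : Gp.ph (a + b) = Gp.ph a * Gp.ph b := by
  simp only [Gp.ph, Real.Angle.toCircle_add, Circle.coe_mul, mul_pow]

theorem lf_add {α : Type} {U : Lk → α} (h : PV N U) (x : TS N) (μ ν : Fin 4) :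
    U (lf (x + Pi.single μ 1), ν) = U (lf x + un μ, ν) := h.apply_eq (by simp [cs_add_un]) _

theorem TT_comm (h : Bg N F θ) (μ ν : Fin 4) :
    TT N θ μ * TT N θ ν = ph (2 * kF F μ ν) * (TT N θ ν * TT N θ μ) := uni_ext fun f x => by
  have := h.curv (lf x) μ ν
  rw [dd, sub_sub, sub_eq_iff_eq_add] at this
  simp only [TT, Submonoid.coe_mul, ← mulVec_mulVec, ws_mulVec, ph_val, smul_mulVec, one_mulVec,
    Pi.smul_apply, smul_eq_mul, lf_add h.per, ← mul_assoc, ← ph_add', this,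
    add_right_comm x (Pi.single μ 1)]
  rw [ph_add', add_comm (θ _), Gp.ph, Real.Angle.toCircle_coe, Circle.coe_exp, sq, ← exp_add]
  congr 3; push_cast; ring

theorem TT_pow (h : Bg N F θ) (μ : Fin 4) (hμ : ∀ ν, kF F ν μ = 0) {w : ℝ}
    (hw : ∑ s ∈ range (N μ), θ ((s : ℤ) • un μ, μ) = w) : TT N θ μ ^ N μ = ph (2 * w) :=
  uni_ext fun f x => by
  have a := Gp.st_const (fun y => ∑ s ∈ range (N μ), θ (y + (s : ℤ) • un μ, μ)) (fun y ν => by
    have b : ∀ s : ℕ, θ (y + un ν + (s : ℤ) • un μ, μ) - θ (y + (s : ℤ) • un μ, μ) =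
        θ (y + ((s + 1 : ℕ) : ℤ) • un μ, ν) - θ (y + (s : ℤ) • un μ, ν) := fun s => by
      have := h.curv (y + (s : ℤ) • un μ) ν μ
      rw [dd, hμ, Real.Angle.coe_zero] at this
      rw [add_right_comm y, Nat.cast_succ, add_smul, one_smul, ← add_assoc, ← sub_eq_zero, ← this]
      abel
    rw [← sub_eq_zero, ← sum_sub_distrib, sum_congr rfl fun s _ => b s,
      sum_range_sub fun s : ℕ => θ (y + (s : ℤ) • un μ, ν)]
    simpa [sh, sub_eq_zero] using congrFun (h.per μ) (y, ν)) (lf x)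
  simp only [zero_add, hw] at a
  rw [TT, ws_pow, Gp.sm_single, Gp.ph_sum, sum_congr rfl fun s _ => by
    rw [← cs_lf x, ← Gp.cs_add_un, Gp.pv_lf h.per], a, Gp.ph, Real.Angle.toCircle_coe,
    Circle.coe_exp, sq, ← exp_add, ph_val, smul_mulVec, one_mulVec, add_zero]
  congr 2; push_cast; ring

theorem mag_TT {n1 n2 : ℕ} [NeZero n1] [NeZero n2] (h : Bg (Q4.NN n1 n2) F θ) :
    Mag n1 n2 (2 * F) (TT (Q4.NN n1 n2) θ) := by
  have z : (ph 0 : unitaryGroup (TS (Q4.NN n1 n2)) ℂ) = 1 := Subtype.ext (by simp [ph_val])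
  have c : ∀ μ ν, kF F μ ν = 0 → Commute (TT _ θ μ) (TT (Q4.NN n1 n2) θ ν) := fun μ ν e => by
    simpa [e, z, commute_iff_eq] using TT_comm h μ ν
  refine ⟨⟨ph_comm _, by simpa [kF] using TT_comm h 0 1, c _ _ (by simp [kF]), c _ _ (by simp [kF]),
    c _ _ (by simp [kF]), c _ _ (by simp [kF]), c _ _ (by simp [kF])⟩, ?_, ?_, fun a ha => ?_⟩
  · exact (TT_pow h 2 (by simp [kF]) (w := 0) h.hol2).trans (by rw [mul_zero, z])
  · exact (TT_pow h 3 (by simp [kF]) h.hol3).trans (by rw [mul_div_cancel₀ _ two_ne_zero])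
  · have s : ∀ μ, Sf (Pi.single μ 1) (TT (Q4.NN n1 n2) θ μ) := fun μ x y hy => if_neg hy
    have t := ((((s 0).zpow (a 0)).mul ((s 1).zpow (a 1))).mul ((s 2).zpow (a 2))).mul
      ((s 3).zpow (a 3))
    refine sum_eq_zero fun x _ => t x x fun hx => ha fun μ => ?_
    have := congrFun (left_eq_add.1 hx) μ
    refine (ZMod.intCast_zmod_eq_zero_iff_dvd _ (Q4.NN n1 n2 μ)).1 ?_
    fin_cases μ <;> simpa using this

end Pool.Agent.Lib.MP_7f377f_mp.RG.Q4.Xi
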