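import Pool.Agent.Lib.MP_7f377f_mp.Q4XiI

/-! The Hessian of the Wilson action at an abelian background. -/

noncomputable section

namespace Pool.Agent.Lib.MP_7f377f_mp.RG.Q4.Xi

open Finset Matrix Asymptotics Filter
open scoped Topology

/-- jets of second order -/
def J2 (f : ℝ → Hc) (c A B : Hc) : Prop :=
  (fun s : ℝ => f s - (c + (s : ℂ) • A + (s : ℂ) ^ 2 • B)) =O[𝓝 0] fun s : ℝ => s ^ 3

theorem big_cube {g : ℝ → Hc} (hg : ContinuousAt g 0) :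
    (fun s : ℝ => (s : ℂ) ^ 3 • g s) =O[𝓝 0] fun s : ℝ => s ^ 3 := by
  have : (fun s : ℝ => (s : ℂ) ^ 3) =O[𝓝 0] fun s : ℝ => s ^ 3 := .of_bound' (by simp)
  simpa using this.smul (hg.tendsto.isBigO_one ℝ)

theorem J2.mul {f g : ℝ → Hc} {c A B c' A' B' : Hc} (h : J2 f c A B) (h' : J2 g c' A' B') :
    J2 (fun s => f s * g s) (c * c') (c * A' + A * c') (c * B' + A * A' + B * c') := by
  have p : ∀ c A B : Hc, (fun s : ℝ => c + (s : ℂ) • A + (s : ℂ) ^ 2 • B) =O[𝓝 0] fun _ => (1 : ℝ) :=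
    fun c A B => (ContinuousAt.tendsto (by fun_prop)).isBigO_one ℝ
  have q : (fun s : ℝ => s ^ 3) =O[𝓝 0] fun _ => (1 : ℝ) :=
    (ContinuousAt.tendsto (by fun_prop)).isBigO_one ℝ
  have a := IsBigO.mul h ((h'.trans q).add (p c' A' B'))
  have b := (p c A B).mul h'
  simp only [mul_one, one_mul] at a b
  refine ((a.add b).add (big_cube (g := fun s => A * B' + B * A' + (s : ℂ) • (B * B'))
    (by fun_prop))).congr_left fun s => ?_
  simp only [mul_add, add_mul, mul_sub, sub_mul, smul_mul_assoc, mul_smul_comm]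
  module

theorem J2.const (c : Hc) : J2 (fun _ => c) c 0 0 := by simpa [J2] using isBigO_zero _ _

theorem J2.ex (b : C3) : J2 (fun s => ex ((s : ℂ) • b)) 1 (io b) ((-RG.dot b b / 2) • 1) := by
  have c : ContinuousAt (fun s : ℝ => (1 + (s : ℂ) ^ 2 * RG.dot b b) ^ (-2⁻¹ : ℂ)) 0 :=
    ContinuousAt.cpow (by fun_prop) continuousAt_const (by simp)
  have z : ∀ᶠ s : ℝ in 𝓝 0, 1 + (s : ℂ) ^ 2 * RG.dot b b ≠ 0 :=
    ContinuousAt.eventually_ne (by fun_prop) (by simp)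
  have z' := c.add continuousAt_const |>.eventually_ne (y := 0) (by simp : _ + (1 : ℂ) ≠ 0)
  set r := fun s : ℝ => (1 + (s : ℂ) ^ 2 * RG.dot b b) ^ (-2⁻¹ : ℂ) with hr
  refine (big_cube (g := fun s => ((s : ℂ) * RG.dot b b ^ 2 * r s ^ 2 * (2 * r s + 1) /
    (2 * (r s + 1) ^ 2)) • (1 + (s : ℂ) • io b) - (RG.dot b b / 2) • io b) ?_).congr' ?_ EventuallyEq.rfl
  · have : 2 * (r 0 + 1) ^ 2 ≠ 0 := by simp [hr]
    fun_prop (disch := assumption)
  · filter_upwards [z, z'] with s hs hs'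
    have e : r s ^ 2 * (1 + (s : ℂ) ^ 2 * RG.dot b b) = 1 := by
      rw [sq, ← Complex.cpow_add _ _ hs, show (-2⁻¹ + -2⁻¹ : ℂ) = -1 by norm_num,
        Complex.cpow_neg_one, inv_mul_cancel₀ hs]
    have e2 : r s = 1 - s ^ 2 * RG.dot b b / 2 + s ^ 3 * ((s : ℂ) * RG.dot b b ^ 2 * r s ^ 2 *
        (2 * r s + 1) / (2 * (r s + 1) ^ 2)) := by
      rw [← sub_eq_iff_eq_add', ← mul_div_assoc,
        eq_div_iff (mul_ne_zero two_ne_zero (pow_ne_zero _ (show r s + 1 ≠ 0 from hs')))]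
      linear_combination (2 * (r s + 1) - (2 * r s + 1) * (s ^ 2 * RG.dot b b)) * e
    rw [RG.ex, smul_dot, dot_smul, ← mul_assoc, ← sq, io_smul]
    change _ = r s • _ - _
    nth_rewrite 4 [e2]
    module

def im2 (u w : Fin 3 → ℝ) : ℝ := u 1 * w 2 - u 2 * w 1

/-- second order part of the action of a plaquette -/
def qq (κ : ℝ) (u1 u2 u3 u4 : Fin 3 → ℝ) : ℝ :=
  Real.cos κ * ∑ k, (u1 + u2 - u3 - u4) k ^ 2 +
    Real.sin κ * (2 * im2 u3 u4 + 2 * im2 u1 u2 - 2 * im2 (u3 + u4) (u1 + u2))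

def cc (u : Fin 3 → ℝ) : C3 := fun k => u k

theorem plaq (κ : ℝ) (u1 u2 u3 u4 : Fin 3 → ℝ) : (fun s : ℝ => (2 - 2 * (ex ((s : ℂ) • cc u1) *
    ex ((s : ℂ) • cc u2) * cS (eA κ) * ex ((s : ℂ) • -cc u3) * ex ((s : ℂ) • -cc u4)).re).re -
    (2 - 2 * Real.cos κ + s * (2 * Real.sin κ * (u1 + u2 - u3 - u4) 0) +
      s ^ 2 * qq κ u1 u2 u3 u4)) =O[𝓝 0] fun s : ℝ => s ^ 3 := by
  have h := ((((J2.ex (cc u1)).mul (J2.ex (cc u2))).mul (J2.const (cS (eA κ)))).mul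
    (J2.ex (-cc u3))).mul (J2.ex (-cc u4))
  refine (((isBigO_of_le _ fun s => (Complex.abs_re_le_norm _).trans (norm_re _)).trans
    h).const_mul_left (-2)).congr_left fun s => ?_
  beta_reduce
  generalize ex ((s : ℂ) • cc u1) * ex ((s : ℂ) • cc u2) * cS (eA κ) * ex ((s : ℂ) • -cc u3) *
    ex ((s : ℂ) • -cc u4) = W
  simp [cS_eA, dot_def, cc, qq, im2, Fin.sum_univ_three, sq, -Complex.ofReal_cos,
    -Complex.ofReal_sin, Quaternion.re_one, Quaternion.imI_one, Quaternion.imJ_one,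
    Quaternion.imK_one, -Complex.coe_smul]
  ring

theorem hol_eq {U1 U4 : Hc} (h1 : Uni U1) (h4 : Uni U4) (U2 U3 : Hc) (A1 A2 A3 A4 : C3) :
    ex A1 * U1 * (ex A2 * U2) * star (ex A3 * U3) * star (ex A4 * U4) =
      ex A1 * ex (adq U1 A2) * (U1 * U2 * star U3 * star U4) * ex (-adq U4 A3) * ex (-A4) := by
  have c : ∀ {U : Hc}, Uni U → ∀ x, star U * (U * x) = x := fun h x => by
    rw [← mul_assoc, h.star_mul, one_mul]
  simp only [← star_ex, ex_adq h1, ex_adq h4, star_mul, star_star, mul_assoc, c h1, c h4]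

variable {N : Fin 4 → ℕ} [∀ i, NeZero (N i)] {F : ℝ} {θ : Lk → Real.Angle}

/-- the field on a link -/
def av (a : IL N → ℝ) (x : TS N) (μ : Fin 4) : Fin 3 → ℝ := fun k => a ((x, μ), k)

/-- the transported field -/
def tv (θ : Lk → Real.Angle) (a : IL N → ℝ) (x : TS N) (μ ν : Fin 4) : Fin 3 → ℝ :=
  Rm (eA (θ (lf x, μ))) *ᵥ av a (x + Pi.single μ 1) ν

theorem hess (h : Bg N F θ) {Q : Matrix (IL N) (IL N) ℝ} {C ρ : ℝ} (hρ : 0 < ρ)
    (hQ : Tay (Q4.SS N wc (ab θ)) Q C ρ) (a : IL N → ℝ) : a ⬝ᵥ Q *ᵥ a = ∑ x, ∑ μ, ∑ ν, if μ < ν then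
      qq (kF F μ ν) (av a x μ) (tv θ a x μ ν) (tv θ a x ν μ) (av a x ν) else 0 := by
  have e : ∀ s : ℝ, Q4.SS N wc (ab θ) (s • a) = ∑ x, ∑ μ, ∑ ν, if μ < ν then
      (2 - 2 * (ex ((s : ℂ) • cc (av a x μ)) * ex ((s : ℂ) • cc (tv θ a x μ ν)) *
      cS (eA (kF F μ ν)) * ex ((s : ℂ) • -cc (tv θ a x ν μ)) * ex ((s : ℂ) • -cc (av a x ν))).re).re
      else 0 := fun s => by
    simp only [Q4.SS, wc, Complex.re_sum, apply_ite Complex.re, Complex.zero_re]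
    refine sum_congr rfl fun x _ => sum_congr rfl fun μ _ => sum_congr rfl fun ν _ => ?_
    have e1 : ∀ μ, pf a (lf x, μ) = cc (av a x μ) := fun μ => by funext k; simp [pf, cc, av]
    have e2 : ∀ μ ν, adq (cS (eA (θ (lf x, μ)))) (pf a (lf x + un μ, ν)) = cc (tv θ a x μ ν) :=
      fun μ ν => by
      funext k; simp only [cc, tv, Rm_mulVec]; congr 1; funext k; simp [pf, av, cs_add_un]
    have e3 := congrArg cS (hol_ab θ (lf x) μ ν)
    simp only [h.curv, hol, cS_mul, cS_inv, ab] at e3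
    simp only [hol, sh_apply, zero_add, add_comm (un _), Pi.mul_apply, exF, cC, ab, pf_smul,
      Pi.smul_apply, hol_eq (uni_cS _) (uni_cS _), adq_smul, e1, e2, e3, smul_neg]
  have l : ∀ μ ν, ∑ x, (av a x μ + tv θ a x μ ν - tv θ a x ν μ - av a x ν) 0 = 0 := fun μ ν => by
    simp [tv, Gp.Rm_zero, sum_add_distrib, Gp.sum_sh fun x => av a x μ 0,
      Gp.sum_sh fun x => av a x ν 0]
  have b := IsBigO.fun_sum (s := univ) fun (x : TS N) _ => IsBigO.fun_sum (s := univ) fun μ _ =>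
    IsBigO.fun_sum (s := univ.filter (μ < ·)) fun ν _ =>
      plaq (kF F μ ν) (av a x μ) (tv θ a x μ ν) (tv θ a x ν μ) (av a x ν)
  have l' : ∑ x, ∑ μ, ∑ ν with μ < ν, 2 * Real.sin (kF F μ ν) *
      (av a x μ + tv θ a x μ ν - tv θ a x ν μ - av a x ν) 0 = 0 := by
    rw [sum_comm]
    refine sum_eq_zero fun μ _ => ?_
    rw [sum_comm]
    simp only [← mul_sum, l, mul_zero, sum_const_zero]
  simp only [sum_sub_distrib, sum_add_distrib, ← mul_sum, l', mul_zero, add_zero] at b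
  simp only [sum_filter, ← e] at b
  obtain ⟨K, hK⟩ := b.bound
  have k0 := hK.self_of_nhds
  obtain ⟨δ, δ0, hδ⟩ := Metric.eventually_nhds_iff.1 hK
  refine hQ.eq_of hρ (K := |K|) (half_pos δ0) fun s s0 s1 => ⟨s • a, by simp; positivity, ?_⟩
  have := hδ (y := s) (by rw [dist_zero_right, Real.norm_of_nonneg s0.le]; linarith)
  simp only [zero_smul, zero_pow, norm_zero, mul_zero, norm_le_zero_iff, zero_mul, add_zero,
    sub_eq_zero, ne_eq, OfNat.ofNat_ne_zero, not_false_eq_true] at k0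
  rw [k0, sub_sub]
  refine le_trans this ?_
  rw [Real.norm_of_nonneg (by positivity)]
  gcongr; exact le_abs_self K

end Pool.Agent.Lib.MP_7f377f_mp.RG.Q4.Xi
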