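import Pool.Agent.Lib.MP_7f377f_mp.Q5Fm
import Pool.Agent.Lib.MP_7f377f_mp.Q5Red
import Pool.Agent.Lib.MP_7f377f_mp.Q5PosM

/-! One source in each cell. -/

noncomputable section

open Pool.Agent.Lib.MP_7f377f_mp.Jet

namespace Pool.Agent.Lib.MP_7f377f_mp.RG.Q4.En

open Finset Real Sg Br YM7 Filter Topology

theorem sup_cell {n m lam : ℕ} [NeZero n] {a δ : ℝ} (hn : Odd n) (a0 : 0 < a) (δ0 : 0 ≤ δ)
    {c : Weak.Site 4 m} {F : Src n} (h : YM7.InT a δ lam c F) :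
    sup F ⊆ tb n lam {fun l => ((lam * (c l).val : ℕ) : ℤ)} := fun x hx => by
  obtain ⟨μ, ν, e⟩ := mem_sup hx
  choose q hq using fun l => (ZMod.intCast_eq_intCast_iff_dvd_sub
    ((Fi.cst n x - Weak.corner lam c : Weak.Site 4 n) l).val (x l - (lam * (c l).val : ℕ)) n).1
      (by simp [Fi.cst, Weak.corner])
  refine mem_tb_single.2 ⟨rc_eq hn (mem_filter.1 hx).1, nearT_iff.2 ⟨q, fun l => ?_⟩⟩
  have b : ((Fi.cst n x - Weak.corner lam c : Weak.Site 4 n) l).val ≤ lam := by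
    exact_mod_cast le_of_mul_le_mul_left ((h _ _ _ e l).2.trans (sub_le_self _ δ0)) a0
  rw [← hq l]
  omega

namespace Gl

variable {ι : Type} [Fintype ι] [DecidableEq ι] {G : Gl} {J j R : ℕ} {b σ a N Δ : ℝ}

/-- the family of separated sources at a low level -/
theorem Ok.fe_of (h : G.Ok) (hp : G.Pu) (t : G.Tu b J) (hj : j ≤ J) {F : ι → Src (G.N J)}
    (σ0 : 0 < σ) (hF : ∀ i x μ ν, ‖symF (F i) x μ ν‖ ≤ a) (a0 : 0 ≤ a) (ha : σ * a ≤ G.bb J / 4)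
    (hc : Cls (G.N J) Δ univ id fun i => sup (F i))
    (hΔ : 66 * ((G.L j : ℝ) ^ G.K0 * G.rt J j) ≤ Δ) (N0 : 0 ≤ N) (hN : 1 + σ * N ≤ G.Q j ^ 1000)
    (sz : ∀ i k, j ≤ k → k ≤ J → G.Sz k N N √(G.g k) (G.tv (symF (F i)) b J k).1
      (G.tv (symF (F i)) b J k).2) (hR : ∀ i, ∃ x, sup (F i) ⊆ tb (G.N J) R {x}) :
    ∃ Y, G.Fe b J j F σ⁻¹ ((2 * (R / G.rt J j + 4 * G.L j ^ G.K0) + 1) ^ 4 : ℕ) Y ∧
      Y.Ec univ id := by
  have q := h.Q1 j
  obtain ⟨e, e1, e2⟩ := h.famJ (r := fun _ => σ) (ω := fun k => √(G.g (k + 1))) t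
    (fun k hk => hp _ _ (h.tok_sd (t.gd _ hk).tz)) (fun _ => σ0) (fun _ _ => le_rfl) σ0.le
    (fun _ _ => symF_out (h.N_odd J)) (fun i _ => hF i) a0 ha hc hΔ hj N0 (fun k h1 h2 =>
      ⟨le_trans (mul_le_mul_of_nonneg_right ((pow_le_pow_left₀ (h.Q0 k).le (h.Q_mono k.le_succ) _).trans
        (pow_le_pow_right₀ (h.Q1 _) (by norm_num))) (sqrt_nonneg _)) (h.Qsg _), by
        refine ((mul_le_mul_of_nonneg_left (hN.trans (pow_le_pow_left₀ (h.Q0 j).le (h.Q_mono h1) _)) (pow_pos (h.Q0 k) _).le).trans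
          ?_).trans ((h.Qb k).trans (h.sch.le k).1)
        rw [← pow_add]
        exact pow_le_pow_right₀ (h.Q1 k) (by norm_num),
      fun i _ => sz i _ (by omega) h2⟩) j hj le_rfl
  have c := h.zs_cls (C := 3) hc zero_le_three (by linarith) le_rfl hj
  rw [← fm_Z (A := univ) (F := fun i => symF (F i)) (b := b) hj] at c
  have z := fm_Z (G := G) (A := univ) (F := fun i => symF (F i)) (W := fun i => sup (F i)) (b := b) hj
  have bs := fm_bs (G := G) (A := univ) (F := fun i => symF (F i)) (W := fun i => sup (F i))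
    (b := b) j hj
  generalize G.fm univ (fun i => symF (F i)) (fun i => sup (F i)) b J j = Y at *
  obtain ⟨b1, b2⟩ : Y.ψ 0 = _ ∧ Y.K 0 = _ := Prod.ext_iff.1 bs
  have d := (t.gd j hj).dt
  have nu := (h.sl_all j (G.zz b J j)).nu
  have u := Pos.qsq nu (i := 100) (by norm_num)
  have q0 := h.Q0 j
  refine ⟨Y, ⟨J, _, _, _, _, _, (t.gd j hj).tz, e, b1 ▸ d.re.1, b2 ▸ d.re.2.1,
    fun s hs => e.fi.ml.pu_one (h.ρ0 _) c (mul_pos three_pos (h.D_pos j)) (σ := σ)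
      (b := G.Q j ^ 10 * (1 + 1) * G.g j ^ 2) (b' := G.Q j ^ 10 * (N + N) * G.g j ^ 2)
      (b1 ▸ Sz.pu nu (h.sz_sl d.sz _) u) (fun i hi => (show jL {i} Y.ψ = _ from congrArg Prod.fst
        (e1 i hi)) ▸ Sz.pu nu (h.sz_sl (sz i j le_rfl hj) _) u) (by positivity)
      fun i _ => (hs i).le, ?_, ?_, fun i => ⟨(inv_inv σ).le, ?_⟩⟩, e2⟩
  · have := mul_le_mul_of_nonneg_left hN (mul_nonneg (pow_pos q0 110).le (sq_nonneg (G.g j)))
    linarith [mul_le_mul_of_nonneg_right (h.Qbb j (i := 1110) (by norm_num)) (sq_nonneg (G.g j)),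
      h.bg j, mul_nonneg (pow_pos q0 1110).le (sq_nonneg (G.g j))]
  · rw [← div_eq_mul_inv, div_le_one (by positivity)]
    exact pow_le_pow_right₀ q (by norm_num)
  · rw [z]
    exact Nat.cast_le.2 (h.zs_card (hR i).choose_spec hj)

theorem ta_le {p : ℕ × ℕ} (hp : 3 ≤ p.2) (k : ℕ) : 1.01 ^ (p.2 - k) * (4 * ta p) ≤ 1 := by
  have a : ∀ J, 3 ≤ J → (1.01 : ℝ) ^ J * 4 ≤ 2 ^ J := fun J hJ => by
    induction J, hJ using Nat.le_induction with
    | base => norm_num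
    | succ J _ ih => rw [pow_succ, pow_succ]; linarith [pow_pos (two_pos (α := ℝ)) J]
  rw [← mul_assoc, ta, ← div_eq_mul_inv, div_le_one (by positivity)]
  exact le_trans (by gcongr; norm_num; omega) (a _ hp)

variable {β : ℕ × ℕ → ℝ}

theorem Oks.poly2 (h : G.Oks) (hβ : G.Tus β) (T : ∀ p, (G.wm p.1).Tv (β p) p.2) (Φ : Filter ℕ) :
    Poly2 (Fi.tr haar) (Φ ×ˢ atTop) G.nn G.aa β fun p => 4 * ta p := fun e δ δ0 => by
  obtain ⟨j, j1, j2⟩ : ∃ j, e ≤ G.e j ∧ 33 / δ ≤ G.L j := (((h 0).1.sch.mono.tendsto_atTop.eventually_ge_atTop e).and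
    ((h 0).1.tL.eventually_ge_atTop (33 / δ))).exists
  refine ⟨cI (G.g j) * (3 ^ (G.e j - e) : ℕ) ^ 4 + Fintype.card Unit *
    ((2 * (3 ^ (G.e j - e) + 4 * G.L j ^ G.K0) + 1) ^ 4 : ℕ), 1⁻¹, ?_⟩
  filter_upwards [tendsto_snd.eventually_ge_atTop (j + 3)] with p hp
  obtain ⟨o, pu⟩ := h p.1
  have hj : j ≤ p.2 := by omega
  have a0 := G.aa_pos p
  have r := o.rt_e hj
  have a1 : G.aa p * 3 ^ (G.wm p.1).e p.2 = 1 := inv_mul_cancel₀ (by positivity)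
  have τ1 := ta_le (p := p) (by omega) p.2
  rw [Nat.sub_self, pow_zero, one_mul] at τ1
  have τ0 : 0 ≤ 4 * ta p := by unfold ta; positivity
  have hn : (G.wm p.1).N j = (2 * p.1 + 1) * 3 ^ e * 3 ^ (G.e j - e) := by
    rw [mul_assoc, ← pow_add, Nat.add_sub_cancel' j1]; rfl
  have hn' : G.nn p = (2 * p.1 + 1) * 3 ^ e * ((G.wm p.1).rt p.2 j * 3 ^ (G.e j - e)) := by
    rw [nn, ← o.rt_N hj, hn, mul_left_comm]
  refine ⟨_, _, inferInstance, (odd_two_mul_add_one _).mul (odd3 e), hn', ?_, _,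
    (o.gen_cell (hβ p).b0 hj (inv_pos.2 one_pos) hn fun F hF => ?_).2⟩
  · have := G.aa_nn p
    rw [hn'] at this
    push_cast at this ⊢
    refine eq_inv_of_mul_eq_one_left (mul_left_cancel₀ (by positivity : (2 * p.1 + 1 : ℝ) ≠ 0) ?_)
    linarith
  · have := o.fe_of pu (hβ p) hj (F := fun q : _ × Unit => F q.1 q.2) one_pos
      (fun q => nrm_le ((hF q.1).1 q.2).1) (by linarith) (by linarith [o.Qbb p.2 (i := 0) (by norm_num)])
      (fun q _ q' _ u => sep_cell hn' a0 ((hF q.1).1 q.2).2 ((hF q'.1).1 q'.2).2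
        fun v => u (Prod.ext v rfl)) ?_ (N := 10 ^ 38) (by norm_num) ?_ (fun q k _ hk =>
        let ⟨_, g1, g2, _, g3⟩ := nrm_lip ((hF q.1).1 q.2).1
        o.tv_sz (hβ p) (T p) g1 (by positivity) g2 g3 le_rfl hk (ta_le (by omega) k)
          (o.Q_rt1 hk (by linarith) (by positivity)))
      fun q => ⟨_, sup_cell (o.N_odd _) a0 δ0.le ((hF q.1).1 q.2).2⟩
    · rw [Nat.mul_div_cancel_left _ (Nat.cast_pos.1 (Ok.rt_pos _ _))] at this
      exact this.imp fun Y y => ⟨y.1, fun T hT q hq q' hq' u =>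
        y.2 T hT q hq q' hq' fun v => u (congrArg _ v)⟩
    · have b := (o.Lb j (i := (G.wm p.1).K0 + 1) (by have := o.B1; omega)).trans (o.b_e j)
      rw [div_le_iff₀ δ0] at j2
      rw [le_div_iff₀ a0, mul_assoc, mul_assoc]
      rw [← r, ← mul_assoc, mul_comm (G.aa p)] at a1
      have x0 := mul_pos (Ok.rt_pos (G := G.wm p.1) p.2 j) a0
      generalize ((G.wm p.1).rt p.2 j : ℝ) * G.aa p = x at *
      have := mul_le_mul_of_nonneg_left b x0.le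
      rw [a1, pow_succ] at this
      have y0 : 0 ≤ ((G.wm p.1).L j : ℝ) ^ (G.wm p.1).K0 * x := by positivity
      nlinarith [mul_le_mul_of_nonneg_right (show 33 ≤ (G.wm p.1).L j * δ from j2) y0]
    · have := o.cQ j (C := 10 ^ 20) le_rfl
      exact le_trans (by nlinarith) (pow_le_pow_right₀ (o.Q1 j) (show 2 ≤ 1000 by norm_num))

end Gl

end Pool.Agent.Lib.MP_7f377f_mp.RG.Q4.En
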