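import Pool.Agent.Lib.MP_7f377f_mp.SoftD

/-! The input of the renormalisation group for arrays of clusters. -/

noncomputable section

namespace Pool.Agent.Lib.MP_7f377f_mp.YM7

open MeasureTheory Weak Filter Topology Real

/-- factorisation over cells and small exponents for all clusters near the middle of a cell -/
def Arr2 [MeasurableSpace SU2] (h : Measure SU2) {ι : Type} (Φ : Filter ι) (n : ι → ℕ)
    [∀ p, NeZero (n p)] (a b : ι → ℝ) (K : ℕ) : Prop :=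
  ∀ k ≤ K, ∀ R δ : ℝ, 0 < R → 0 < δ → ∃ C M : ℝ, ∀ η > 0, ∀ᶠ d in 𝓝[>] (0 : ℝ), ∀ᶠ p in Φ,
    ∃ (m lam D : ℕ) (_ : NeZero m) (Λ : (Cfg (n p) → ℝ) → ℝ) (w ρ ε : ℝ), Odd m ∧ n p = m * lam ∧
      a p * lam = 3⁻¹ ∧ Inv Λ lam ∧ (D + 4) * (a p / d) ≤ δ ∧ Gen h (b p) (κ := Fin k) Λ
        (Cla (m := m) (a p) (a p / d) (8 * (a p / d)) (6⁻¹ - R * d) lam D) w (exp (C * m ^ 4)) ∧
      (∀ (c : Site 4 m) (F : Fin k → Src (n p)),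
        Cla (a p) (a p / d) (8 * (a p / d)) (6⁻¹ - R * d) lam D c F →
        ∃ e, Red Λ F w M e ∧ ∀ T, 2 ≤ T.card → ‖e T‖ ≤ ρ ^ T.card) ∧
      0 < w ∧ 0 < ρ ∧ w ≤ ε * ρ ∧ ε ≤ 1 ∧ ε * (log d⁻¹ * ρ) ^ k ≤ η

end Pool.Agent.Lib.MP_7f377f_mp.YM7
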