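import Pool.Agent.Lib.MP_7f377f_mp.Q4JetR
import Pool.Agent.Lib.MP_7f377f_mp.Q4SGeo

/-! Multi-affine families of data: one step. -/

noncomputable section

open Pool.Agent.Lib.MP_7f377f_mp.Jet

namespace Pool.Agent.Lib.MP_7f377f_mp.RG.Q4.En

open Finset Function Metric Sg

variable {ι κ : Type} [DecidableEq ι] [DecidableEq κ] {r r' : ι → ℝ} {A T : Finset ι} {p : Pa}
  {n m c : ℕ} {Z : ι → Finset St} {cl : ι → κ} {ψ : (ι → ℂ) → Lx} {K : (ι → ℂ) → Ac} {φ : Lx}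
  {s : ι → ℂ} {ρ θ θ' b b' d σ x y z x' y' z' : ℝ} {S : Sd} {i : ι}

theorem pu_of_pm (h : PM p x y z φ) : PU p (3 * (x + y) * p.ρ ^ 2 + z * (p.ρ / p.ρ) ^ 3) φ :=
  ⟨⟨_, _, _, h⟩, fun v _ a e => (h v).1.bd a e le_rfl⟩

omit [DecidableEq ι] in
theorem mon_le (hs : s ∈ Pd r) (T : Finset ι) : ‖mon T s‖ ≤ ∏ i ∈ T, r i := by
  rw [mon, norm_prod]
  exact prod_le_prod (fun _ _ => norm_nonneg _) fun i _ => (hs i).le

theorem jL_empty : jL ∅ ψ = ψ 0 := by ext; simp [jL]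

/-- multi-affine local terms which depend on the source `i` only on `Z i` -/
structure ML (n : ℕ) (A : Finset ι) (Z : ι → Finset St) (ψ : (ι → ℂ) → Lx) : Prop where
  ma : ψ = ma A fun T => jL T ψ
  loc : ∀ i x, rc n x ∉ Z i → Ind i (ψ · x)

namespace ML

variable (h : ML n A Z ψ)
include h

theorem single (hi : i ∈ A) (t : ℂ) : ψ (Pi.single i t) = ψ 0 + t • jL {i} ψ := by
  rw [← jL_empty (ψ := ψ)]; exact (congrFun h.ma _).trans (ma_single hi)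

theorem van {v : St} (hT : T ⊆ A) (e : ¬ T ⊆ tch A Z {rc n v}) : jL T ψ v = 0 := by
  obtain ⟨i, h1, h2⟩ := not_subset.1 e
  exact funext fun B => (ind_pi.1 (h.loc i v fun a => h2 (mem_tch.2 ⟨hT h1, by simpa using a⟩)) B).jd h1

/-- at each site only the sources which touch the site are seen -/
theorem eq (s : ι → ℂ) (v : St) :
    ψ s v = fun B => ∑ T ∈ (tch A Z {rc n v}).powerset, mon T s * jL T ψ v B := by
  rw [congrFun h.ma s, ma_apply, Jet.ma, ← sum_subset (s₁ := (tch A Z {rc n v}).powerset)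
    (powerset_mono.2 (filter_subset _ A))
    fun T h1 h2 => by rw [h.van (mem_powerset.1 h1) fun a => h2 (mem_powerset.2 a), smul_zero]]
  ext; simp

theorem sub {ψ' : (ι → ℂ) → Lx} (h' : ML n A Z ψ') : ML n A Z (ψ - ψ') ∧
    ∀ T ⊆ A, jL T (ψ - ψ') = jL T ψ - jL T ψ' := by
  have e : ψ - ψ' = Jet.ma A fun T => jL T ψ - jL T ψ' := funext fun s => by
    rw [Pi.sub_apply, congrFun h.ma s, congrFun h'.ma s]
    simp only [Jet.ma, smul_sub, sum_sub_distrib]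
  have e' : ∀ T ⊆ A, jL T (ψ - ψ') = jL T ψ - jL T ψ' := fun T hT => e ▸ jL_ma _ hT
  exact ⟨⟨e.trans (ma_congr fun T hT => (e' T hT).symm),
    fun i v a => (h.loc i v a).comp₂ (h'.loc i v a) (· - ·)⟩, e'⟩

/-- the sizes of the family from the sizes of the jets -/
theorem pm (h0 : 0 < p.ρ) {X Y W : Finset ι → St → ℝ} (hs : s ∈ Pd r)
    (e : ∀ T ⊆ A, ∀ v, Ps p.R 6 p.ρ (X T v) (Y T v) (W T v) (jL T ψ v) ∧ Measurable (jL T ψ v))
    (hx : ∀ v, ∑ T ∈ (tch A Z {rc n v}).powerset, (∏ i ∈ T, r i) * X T v ≤ x)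
    (hy : ∀ v, ∑ T ∈ (tch A Z {rc n v}).powerset, (∏ i ∈ T, r i) * Y T v ≤ y)
    (hz : ∀ v, ∑ T ∈ (tch A Z {rc n v}).powerset, (∏ i ∈ T, r i) * W T v ≤ z) :
    PM p x y z (ψ s) := fun v => by
  have a := fun T (hT : T ∈ (tch A Z {rc n v}).powerset) =>
    e T ((mem_powerset.1 hT).trans (filter_subset _ _)) v
  rw [h.eq]
  refine ⟨(Ps.sum _ h0 fun T hT => ((a T hT).1.smul h0 _).1).1.mono' h0 (le_trans ?_ (hx v))
    (le_trans ?_ (hy v)) (le_trans ?_ (hz v)), measurable_sum _ fun T hT => (a T hT).2.const_mul _⟩ <;>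
  refine sum_le_sum fun T hT => mul_le_mul_of_nonneg_right (mon_le hs T) ?_
  exacts [((a T hT).1.nonneg h0).1, ((a T hT).1.nonneg h0).2.1, ((a T hT).1.nonneg h0).2.2]

theorem pu (h0 : 0 < p.ρ) {β : Finset ι → St → ℝ} (hs : s ∈ Pd r)
    (e : ∀ T ⊆ A, ∃ b, PU p b (jL T ψ))
    (e' : ∀ T ⊆ A, ∀ v B, RealF B → Cv p.R p.ρ B → ‖jL T ψ v B‖ ≤ β T v)
    (hb : ∀ v, ∑ T ∈ (tch A Z {rc n v}).powerset, (∏ i ∈ T, r i) * β T v ≤ b) : PU p b (ψ s) := by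
  choose! X Y W a using fun T hT => (e T hT).choose_spec.1
  have M : ∀ {X : Finset ι → ℝ}, (∀ T ⊆ A, 0 ≤ X T) → ∀ v, ∑ T ∈ (tch A Z {rc n v}).powerset,
      (∏ i ∈ T, r i) * X T ≤ ∑ T ∈ A.powerset, (∏ i ∈ T, r i) * X T := fun X0 v =>
    sum_le_sum_of_subset_of_nonneg (powerset_mono.2 (filter_subset _ A)) fun T hT _ =>
      mul_nonneg ((norm_nonneg _).trans (mon_le hs T)) (X0 T (mem_powerset.1 hT))
  refine ⟨⟨_, _, _, h.pm h0 hs a (M fun T hT => ((a T hT 0).1.nonneg h0).1)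
    (M fun T hT => ((a T hT 0).1.nonneg h0).2.1) (M fun T hT => ((a T hT 0).1.nonneg h0).2.2)⟩,
    fun v B h1 h2 => ?_⟩
  rw [h.eq]
  exact (norm_sum_le_of_le _ fun T hT => norm_mul_le_of_le (mon_le hs T)
    (e' T ((mem_powerset.1 hT).trans (filter_subset _ _)) v B h1 h2)).trans (hb v)

/-- separated sources -/
theorem one (hc : Cls n d A id Z) (hd : 0 < d) (v : St) :
    (∀ s, ψ s v = ψ 0 v) ∨ ∃ i ∈ A, rc n v ∈ Z i ∧ ∀ s, ψ s v = ψ 0 v + s i • jL {i} ψ v := by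
  have a := tch_one hc hd (k := 1) (fun c => card_le_one.2 fun a ha b hb =>
    (mem_filter.1 ha).2.trans (mem_filter.1 hb).2.symm) (rc n v)
  rcases Nat.le_one_iff_eq_zero_or_eq_one.1 a with e | e
  on_goal 1 => rw [card_eq_zero] at e
  on_goal 2 => obtain ⟨i, e⟩ := card_eq_one.1 e
  · exact .inl fun s => by rw [h.eq, e]; simp [mon, jL_empty]
  · have := mem_tch.1 (e ▸ mem_singleton_self i)
    refine .inr ⟨i, this.1, by simpa using this.2, fun s => ?_⟩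
    rw [h.eq, e]
    ext B
    rw [show ({i} : Finset ι) = insert i ∅ from rfl, sum_powerset_insert (notMem_empty i)]
    simp [mon, jL_empty]

theorem pm_one (h0 : 0 < p.ρ) (hc : Cls n d A id Z) (hd : 0 < d) (a : PM p x y z (ψ 0))
    (a' : ∀ i ∈ A, PM p x' y' z' (jL {i} ψ)) (x0 : 0 ≤ σ * x') (y0 : 0 ≤ σ * y') (z0 : 0 ≤ σ * z')
    (hs : ∀ i ∈ A, ‖s i‖ ≤ σ) : PM p (x + σ * x') (y + σ * y') (z + σ * z') (ψ s) := fun v => by
  rcases h.one hc hd v with e | ⟨i, hi, -, e⟩ <;> rw [e]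
  · exact ⟨(a v).1.mono' h0 (by linarith) (by linarith) (by linarith), (a v).2⟩
  · obtain ⟨u1, u2, u3⟩ := (a' i hi v).1.nonneg h0
    exact ⟨((a v).1.add ((a' i hi v).1.smul h0 (s i)).1 h0).1.mono' h0 (by gcongr; exact hs i hi)
      (by gcongr; exact hs i hi) (by gcongr; exact hs i hi),
      (a v).2.add ((a' i hi v).2.const_mul _)⟩

theorem pu_one (h0 : 0 < p.ρ) (hc : Cls n d A id Z) (hd : 0 < d) (a : PU p b (ψ 0))
    (a' : ∀ i ∈ A, PU p b' (jL {i} ψ)) (b0 : 0 ≤ σ * b') (hs : ∀ i ∈ A, ‖s i‖ ≤ σ) :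
    PU p (b + σ * b') (ψ s) := by
  obtain ⟨_, _, _, u⟩ := a.1
  choose! X Y W w using fun i hi => (a' i hi).1
  have M : ∀ {X : ι → ℝ}, (∀ i ∈ A, 0 ≤ X i) → 0 ≤ |σ| * ∑ i ∈ A, X i ∧
      ∀ i ∈ A, X i ≤ ∑ i ∈ A, X i := fun X0 =>
    ⟨mul_nonneg (abs_nonneg _) (sum_nonneg X0), fun _ => single_le_sum X0⟩
  obtain ⟨x1, x2⟩ := M fun i hi => ((w i hi 0).1.nonneg h0).1
  obtain ⟨y1, y2⟩ := M fun i hi => ((w i hi 0).1.nonneg h0).2.1
  obtain ⟨z1, z2⟩ := M fun i hi => ((w i hi 0).1.nonneg h0).2.2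
  refine ⟨⟨_, _, _, h.pm_one h0 hc hd u (fun i hi v => ⟨(w i hi v).1.mono' h0 (x2 i hi) (y2 i hi)
    (z2 i hi), (w i hi v).2⟩) x1 y1 z1 fun i hi => (hs i hi).trans (le_abs_self _)⟩,
    fun v B h1 h2 => ?_⟩
  rcases h.one hc hd v with e | ⟨i, hi, -, e⟩ <;> rw [e]
  · exact (a.2 v B h1 h2).trans (by linarith)
  · exact norm_add_le_of_le (a.2 v B h1 h2) (norm_mul_le_of_le (hs i hi) ((a' i hi).2 v B h1 h2))

end ML

/-- multi-affine local families with small activities on the polydisc -/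
structure Fi (p : Pa) (n : ℕ) (A : Finset ι) (Z : ι → Finset St) (r : ι → ℝ) (θ : ℝ)
    (ψ : (ι → ℂ) → Lx) (K : (ι → ℂ) → Ac) : Prop where
  pos : ∀ i, 0 < r i
  psi : ψ = ma A fun T => jL T ψ
  act : K = ma A fun T => jA T K
  pu : ∀ T ⊆ A, ∃ b, PU p b (jL T ψ)
  loc : Loc n Z ψ K
  km : ∃ k, kN p n k θ ∧ ∀ s ∈ Pd r, KM p n k (K s)

/-- truncation of a local family -/
theorem fa_trK {k : Mj} (h : FA r p n k K) (l : Loc n Z ψ K) (k1 : kN p.up n k θ) (hD : 1 ≤ p.D)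
    (hc : Cls n d A cl Z) (hm : (m + 2 : ℝ) * p.D ≤ d) (hk : ∀ a, (A.filter (cl · = a)).card ≤ c)
    (ρ0 : 0 ≤ ρ) (hρ : c * ρ ≤ m) (hr : ∀ i, 0 < r' i) (e : ∀ i, r' i ≤ ρ * r i) :
    Loc n Z ψ (trK A K) ∧ ∃ k, kN p n k ((1 + ρ) ^ c * θ) ∧ ∀ s ∈ Pd r', KM p n k (trK A K s) := by
  refine ⟨?_, _, kN_tch hD hc hm hk ρ0 hρ k1, (h.trK (D := fun X _ => tch A Z X)
    (fun X a T hT e => ?_) hr e).km⟩
  · have : trK A K = fun s X c U => tr A (K · X c U) s := by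
      ext s X c U; exact congrFun (trK_eq X c U) s
    exact this ▸ l.trunc A
  · obtain ⟨i, h1, h2⟩ := not_subset.1 e
    exact funext fun U => l.jdA h1 (by_contra fun a => h2 (mem_tch.2 ⟨hT h1, a⟩)) a U

namespace Fi

section

variable (F : Fi p n A Z r θ ψ K)
include F

theorem ml : ML n A Z ψ := ⟨F.psi, F.loc.psi⟩

theorem sl (r : ι → ℝ) : SL r ψ := F.psi ▸ sl_ma _ _ _

theorem sa (r : ι → ℝ) : SA r K := F.act ▸ sa_ma _ _ _

theorem fa : ∃ k, kN p n k θ ∧ FA r p n k K := F.km.imp fun _ a => ⟨a.1, F.pos, F.sa r, a.2⟩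

theorem single (hi : i ∈ A) (t : ℂ) : K (Pi.single i t) = K 0 + t • jA {i} K := by
  rw [← jA_empty (K := K)]; exact (congrFun F.act _).trans (ma_single hi)

theorem mono (hr : ∀ i, 0 < r' i) (e : ∀ i, r' i ≤ r i) (e' : θ ≤ θ') {Z' : ι → Finset St}
    (hZ : ∀ i, Z i ⊆ Z' i) : Fi p n A Z' r' θ' ψ K :=
  ⟨hr, F.psi, F.act, F.pu, F.loc.mono hZ, F.km.imp fun _ a =>
    ⟨a.1.mono e', fun s hs => a.2 s fun i => (hs i).trans_le (e i)⟩⟩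

/-- Cauchy estimate for the jets of the activities -/
theorem kjet (T : Finset ι) : ∃ k, KM p n k (jA T K) ∧ kN p n k ((∏ i ∈ T, r i)⁻¹ * θ) :=
  let ⟨k, a, b⟩ := F.fa
  ⟨(∏ i ∈ T, r i)⁻¹ • k, (b.km_jA T).mono fun _ _ => (div_eq_inv_mul _ _).le,
    a.smul (inv_nonneg.2 (prod_nonneg fun i _ => (F.pos i).le))⟩

theorem fl : FL r p ψ := F.psi ▸ fl_ma F.pos fun T hT => (F.pu T hT).choose_spec.lo

end

variable (F : Fi S.p S.nf A Z r θ ψ K)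
include F

theorem dir (hT : T ⊆ A) : Dir S (jL T ψ) (jA T K) :=
  let ⟨_, a⟩ := F.pu T hT
  let ⟨_, b⟩ := F.kjet T
  ⟨_, _, _, a, b⟩

theorem sml (pu : ∀ s ∈ Pd r, PU S.p b (ψ s)) (hb : S.Q ^ 100 * b ≤ 1) (hθ : S.Q ^ 100 * θ ≤ 1) :
    ∃ k, ∀ s ∈ Pd r, S.Sml b θ k (ψ s) (K s) :=
  F.km.imp fun _ a s hs => ⟨hb, hθ, pu s hs, a.2 s hs, a.1⟩

theorem jA_one (hi : i ∈ A) : jA {i} (trK A fun s => S.KK (ψ s) (K s)) =
    dK S (ψ 0) (K 0) (jL {i} ψ) (jA {i} K) := by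
  rw [jA_trK (singleton_subset_iff.2 hi), jA_single, dK]
  simp only [F.single hi, F.ml.single hi]

variable (h : S.Nu 100) (f : St2 S)
include h f

theorem pl_eq (φ : Lx) : (fun s => S.PL (ψ s) (K s) + φ) =
    ma A fun T => S.PL (jL T ψ) (jA T K) + if T = ∅ then φ else 0 := funext fun s => by
  rw [congrFun F.psi s, congrFun F.act s, pl_ma h f fun _ => F.dir]
  refine .trans ?_ (ma_add (a' := fun T => if T = ∅ then φ else 0)).symm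
  simp [ma, mon]

theorem jL_step (φ : Lx) (hT : T ⊆ A) : jL T (fun s => S.PL (ψ s) (K s) + φ) =
    S.PL (jL T ψ) (jA T K) + if T = ∅ then φ else 0 := by rw [F.pl_eq h f, jL_ma _ hT]

theorem jL_one (φ : Lx) (hi : i ∈ A) : jL {i} (fun s => S.PL (ψ s) (K s) + φ) =
    S.PL (jL {i} ψ) (jA {i} K) := by
  rw [F.jL_step h f φ (singleton_subset_iff.2 hi), if_neg (singleton_ne_empty i), add_zero]

/-- one step -/
theorem step (pu : ∀ s ∈ Pd r, PU S.p b (ψ s)) (hb : S.Q ^ 100 * b ≤ 1) (hθ : S.Q ^ 100 * θ ≤ 1)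
    (hφ : PM S.p' x y z φ) (hc : Cls S.n d A cl fun i => nxt S (Z i))
    (hm : (m + 2 : ℝ) * S.p'.D ≤ d) (hk : ∀ a, (A.filter (cl · = a)).card ≤ c) (ρ0 : 0 ≤ ρ)
    (hρ : c * ρ ≤ m) (hr : ∀ i, 0 < r' i) (e : ∀ i, r' i ≤ ρ * r i) :
    Fi S.p' S.n A (fun i => nxt S (Z i)) r' ((1 + ρ) ^ c * S.θ' b θ)
      (fun s => S.PL (ψ s) (K s) + φ) (trK A fun s => S.KK (ψ s) (K s)) := by
  obtain ⟨k, sm⟩ := F.sml pu hb hθ
  have z := sm 0 (zero_mem F.pos)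
  have ρ1 := h.p'_ok.1.ρ0
  obtain ⟨k', k1, k2⟩ := f.K b θ k hb hθ z.b0 z.kn
  obtain ⟨a1, a2⟩ := fa_trK (fa_KK f F.pos (F.sl r) (F.sa r) sm k2) ((F.loc.step h).add φ) k1
    (Nat.succ_le_of_lt (Nat.mul_pos (by norm_num) (Nat.pow_pos (Nat.succ_pos _)))) hc hm hk ρ0 hρ hr e
  refine ⟨hr, (F.pl_eq h f φ).trans (ma_congr fun T hT => (F.jL_step h f φ hT).symm),
    ma_congr fun T hT => (jA_trK hT).symm, fun T hT => ?_, a1, a2⟩
  obtain ⟨_, _, _, u⟩ := (F.dir hT).pm f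
  rw [F.jL_step h f φ hT]
  split_ifs
  · exact ⟨_, pu_of_pm fun v => ⟨((u v).1.add (hφ v).1 ρ1).1, (u v).2.add (hφ v).2⟩⟩
  · exact ⟨_, pu_of_pm (by rwa [add_zero])⟩

end Fi

end Pool.Agent.Lib.MP_7f377f_mp.RG.Q4.En
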