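import Pool.Agent.Lib.MP_7f377f_mp.Q5Mass
import Pool.Agent.Lib.MP_7f377f_mp.Q5Ball

/-! The total mass of a group of sources in a multi-affine family. -/

noncomputable section

open Pool.Agent.Lib.MP_7f377f_mp.Jet

namespace Pool.Agent.Lib.MP_7f377f_mp.RG.Q4.En

open Finset Function Metric Sg
open scoped Classical

variable {ι κ : Type} [DecidableEq ι] [DecidableEq κ] {r r' : ι → ℝ} {A T D : Finset ι} {p : Pa}
  {n m c : ℕ} {Z : ι → Finset St} {cl : ι → κ} {ψ : (ι → ℂ) → Lx} {K : (ι → ℂ) → Ac} {φ : Lx}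
  {s : ι → ℂ} {ρ θ b d x y w Q g μ M : ℝ} {S : Sd} {i : ι} {P : ι → Prop} {k : Mj} {z : Mz}

/-- the sources with property `P` are switched off -/
def off (P : ι → Prop) (s : ι → ℂ) : ι → ℂ := fun i => if P i then 0 else s i

omit [DecidableEq ι] in
theorem off_mem (hr : ∀ i, 0 < r i) (hs : s ∈ Pd r) : off P s ∈ Pd r := fun i => by
  unfold off
  split_ifs
  exacts [by simpa using hr i, hs i]

theorem off_upd (t : ℂ) :
    off P (update s i t) = if P i then off P s else update (off P s) i t := by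
  funext j
  by_cases e : j = i <;> by_cases h : P i <;> simp [off, e, h]

omit [DecidableEq ι] in
theorem mon_off : mon T (off P s) = if ∃ i ∈ T, P i then 0 else mon T s := by
  split_ifs with h
  · obtain ⟨i, h1, h2⟩ := h
    exact prod_eq_zero h1 (if_pos h2)
  · exact prod_congr rfl fun i hi => if_neg fun e => h ⟨i, hi, e⟩

theorem jd_off (f : (ι → ℂ) → ℂ) :
    jd T (fun s => f (off P s)) = if ∃ i ∈ T, P i then 0 else jd T f := by
  have := jd_scale (off P 1) f T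
  rw [show ∏ i ∈ T, off P 1 i = _ from mon_off] at this
  refine (congrArg _ (funext fun s => congrArg f (funext fun i => by simp [off]))).trans
    (this.trans ?_)
  split_ifs <;> simp [mon]

section ma

variable {V : Type} [AddCommGroup V] [Module ℂ V] {a : Finset ι → V}

omit [DecidableEq ι] in
theorem ma_off : ma A a s - ma A a (off P s) =
    ma A (fun T => if ∃ i ∈ T, P i then a T else 0) s := by
  simp only [ma, ← sum_sub_distrib, mon_off]
  exact sum_congr rfl fun T _ => by split_ifs <;> simp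

/-- enlargement of the polydisc -/
theorem ma_enl {N : ℝ → V → Prop} (hN : ∀ x v v' (α β : ℂ), N x v → N x v' →
      N ((‖α‖ + ‖β‖) * x) (α • v + β • v')) (hr : ∀ i, 0 < r i) (ρ0 : 0 ≤ ρ)
    (h : ∀ s ∈ Pd r, N x (ma D a s)) (hs : ∀ i, ‖s i‖ ≤ ρ * r i) :
    N ((1 + ρ) ^ D.card * x) (ma D a s) := by
  induction D using Finset.induction_on generalizing a with
  | empty => simpa [ma, mon] using h 0 (zero_mem hr)
  | insert i D hi ih =>
    have e : ∀ s t, ma (insert i D) a (update s i t) =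
        ma D (fun T => a T + t • a (insert i T)) s := fun s t => by
      rw [ma_insert hi, ma_upd hi, ma_upd hi, update_self]
      simp only [ma, smul_add, sum_add_distrib, smul_sum, smul_comm t]
    have k : ∀ t : ℂ, ‖t‖ = ‖s i‖ / (1 + ρ) → N ((1 + ρ) ^ D.card * x)
        (ma (insert i D) a (update s i t)) := fun t ht => e s t ▸ ih fun s' hs' => e s' t ▸
      h _ (Pd.upd hs' (by
        rw [mem_ball_zero_iff, ht, div_lt_iff₀ (by positivity)]
        linarith [hs i, hr i]))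
    have n1 : ‖s i / (1 + ρ)‖ = ‖s i‖ / (1 + ρ) := by
      rw [norm_div, ← Complex.ofReal_one, ← Complex.ofReal_add, Complex.norm_of_nonneg (by positivity)]
    convert hN _ _ _ ((1 + ρ / 2 : ℝ) : ℂ) (-(ρ / 2 : ℝ) : ℂ) (k _ n1)
      (k (-(s i / (1 + ρ))) (by rwa [norm_neg])) using 1
    · rw [norm_neg, Complex.norm_of_nonneg (by positivity), Complex.norm_of_nonneg (by positivity),
        card_insert_of_notMem hi]
      ring
    · have : (1 + ρ : ℂ) ≠ 0 := by exact_mod_cast (by positivity : 1 + ρ ≠ 0)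
      simp only [ma_insert hi, ma_upd hi, update_self]
      match_scalars <;> field_simp <;> ring

end ma

theorem SH.off {f : (ι → ℂ) → ℂ} (h : SH r M f) : SH r M fun s => f (off P s) :=
  ⟨h.pos, fun s hs i => by
    simp only [off_upd]
    split_ifs
    exacts [differentiableOn_const _, h.hol _ (off_mem h.pos hs) i],
    fun s hs => h.bd _ (off_mem h.pos hs)⟩

/-- jets which involve a source with property `P` -/
theorem jd_off_le {f : (ι → ℂ) → ℂ} (h : Hb r f) (e : ∀ s ∈ Pd r, ‖f s - f (off P s)‖ ≤ M)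
    (hT : ∃ i ∈ T, P i) : ‖jd T f‖ ≤ M / ∏ i ∈ T, r i := by
  obtain ⟨_, h⟩ := h
  have a := h.sub (SH.off (P := P) h)
  have := SH.jd_le ⟨h.pos, a.hol, e⟩ T
  rwa [jd_sub h (SH.off h), jd_off, if_pos hT, sub_zero] at this

theorem FA.off (h : FA r p n k K) : FA r p n k fun s => K (off P s) :=
  ⟨h.pos, fun s hs i => by
    simp only [off_upd]
    split_ifs
    exacts [fun _ _ _ => differentiableOn_const _, h.hol _ (off_mem h.pos hs) i],
    fun s hs => h.km _ (off_mem h.pos hs)⟩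

theorem trK_off (h : FA r p n k K) :
    trK A K s - trK A K (off P s) = trK A (K - fun s => K (off P s)) s := by
  rw [trK, ma_off, trK]
  refine congrFun (ma_congr fun T _ => ?_) s
  rw [h.jA_sub (FA.off h)]
  ext X c U
  simp only [jA, Pi.sub_apply, jd_off (f := (K · X c U))]
  split_ifs <;> simp [jA]

theorem ML.eq' (h : ML n A Z ψ) (s : ι → ℂ) (v : St) :
    ψ s v = Jet.ma (tch A Z {rc n v}) (jL · ψ v) s := by
  rw [h.eq]
  ext
  simp [Jet.ma]

theorem ML.off_eq (h : ML n A Z ψ) {v : St} (e : ∀ i ∈ A, P i → rc n v ∉ Z i) :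
    ψ (off P s) v = ψ s v := by
  rw [eq_comm, ← sub_eq_zero, h.eq', h.eq', ma_off]
  exact sum_eq_zero fun T hT => by
    beta_reduce
    rw [if_neg fun ⟨i, h1, h2⟩ => have := mem_tch.1 (mem_powerset.1 hT h1)
      e i this.1 h2 (by simpa using this.2), smul_zero]

/-- sizes on a larger polydisc -/
theorem ML.enl (h : ML n A Z ψ) (h0 : 0 < p.ρ) (hr : ∀ i, 0 < r i) (ρ0 : 0 ≤ ρ) {v : St}
    (hc : (tch A Z {rc n v}).card ≤ c)
    (e : ∀ s ∈ Pd r, Ps p.R 6 p.ρ x y w ((ψ s - ψ (off P s)) v)) (hs : ∀ i, ‖s i‖ ≤ ρ * r i) :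
    Ps p.R 6 p.ρ ((1 + ρ) ^ c * x) ((1 + ρ) ^ c * y) ((1 + ρ) ^ c * w) ((ψ s - ψ (off P s)) v) := by
  simp only [Pi.sub_apply, h.eq', ma_off] at e ⊢
  obtain ⟨x0, y0, w0⟩ := (e 0 (zero_mem hr)).nonneg h0
  have := pow_le_pow_right₀ (le_add_of_nonneg_right ρ0 : 1 ≤ 1 + ρ) hc
  refine (ma_enl (N := fun t v => Ps p.R 6 p.ρ (t * x) (t * y) (t * w) v) (x := 1)
    (fun t v v' α β a a' => ?_) hr ρ0 (by simpa using e) hs).mono' h0 ?_ ?_ ?_
  · simp only [add_mul, mul_assoc]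
    exact ((a.smul h0 α).1.add (a'.smul h0 β).1 h0).1
  all_goals rw [mul_one]; gcongr

omit [DecidableEq ι] in
theorem l1_tch (hD : 1 ≤ p.D) (h : Cls n d A cl Z) (hm : (m + 2 : ℝ) * p.D ≤ d)
    (hk : ∀ a, (A.filter (cl · = a)).card ≤ c) (ρ0 : 0 ≤ ρ) (hρ : c * ρ ≤ m) (k0 : ∀ X a, 0 ≤ k X a) :
    l1 p n (fun X a => (1 + ρ) ^ (tch A Z X).card * k X a) ≤ (1 + ρ) ^ c * l1 p.up n k := by
  rw [l1, l1, mul_sum]
  refine sum_le_sum fun o _ => ?_
  have e : wgt p.up n o.1 o.2 = Real.exp (tau n p.D o.1) * wgt p n o.1 o.2 := by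
    simp only [wgt, Pa.up, ← Real.exp_add]
    congr 1
    ring
  have h0 : 0 ≤ k o.1 o.2 * wgt p n o.1 o.2 := mul_nonneg (k0 _ _) (Real.exp_pos _).le
  rw [e]
  linarith [mul_le_mul_of_nonneg_right (tch_pow hD h hm hk ρ0 hρ o.1) h0]

/-- `z` dominates the effect of the sources with property `P` on the polydisc -/
def Mz.Fam (z : Mz) (p : Pa) (n : ℕ) (r : ι → ℝ) (P : ι → Prop) (ψ : (ι → ℂ) → Lx)
    (K : (ι → ℂ) → Ac) : Prop := ∀ s ∈ Pd r, z.Dom p n (ψ s - ψ (off P s)) (K s - K (off P s))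

theorem D'_pos (S : Sd) : 1 ≤ S.p'.D :=
  Nat.succ_le_of_lt (Nat.mul_pos (by norm_num) (Nat.pow_pos (Nat.succ_pos _)))

section step

variable (h : S.Nu 100) (f : St2 S) (hc : Cls S.n d A cl fun i => nxt S (Z i))
  (hm : (m + 2 : ℝ) * S.p'.D ≤ d) (hk : ∀ a, (A.filter (cl · = a)).card ≤ c) (ρ0 : 0 ≤ ρ)
  (hρ : c * ρ ≤ m) (e : ∀ i, r' i ≤ ρ * r i)
include h f hc hm hk ρ0 hρ e

/-- one majorant of the truncated activities for all families -/
theorem km_fam (hb : S.Q ^ 100 * b ≤ 1) (hθ : S.Q ^ 100 * θ ≤ 1) (b0 : 0 ≤ b)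
    (k1 : kN S.p S.nf k θ) : ∃ k', kN S.p' S.n k' ((1 + ρ) ^ c * S.θ' b θ) ∧
      ∀ θ0 ψ K, Fi S.p S.nf A Z r θ0 ψ K → (∀ s ∈ Pd r, S.Sml b θ k (ψ s) (K s)) →
        ∀ s ∈ Pd r', KM S.p' S.n k' (trK A (fun s => S.KK (ψ s) (K s)) s) := by
  obtain ⟨k', q1, q2⟩ := f.K b θ k hb hθ b0 k1
  refine ⟨_, kN_tch (D'_pos S) hc hm hk ρ0 hρ q1, fun _ ψ K F sm s hs =>
    (fa_KK f F.pos (F.sl r) (F.sa r) sm q2).km_trK (D := fun X _ => tch A _ X) (fun X a T hT e => ?_)
      fun i => (hs i).le.trans (e i)⟩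
  obtain ⟨i, h1, h2⟩ := not_subset.1 e
  exact funext fun U => (F.loc.step h).jdA h1 (by_contra fun a => h2 (mem_tch.2 ⟨hT h1, a⟩)) a U

/-- the mass of a group of sources contracts -/
theorem mass_fam (u : S.Pu) (B : Bl S b θ) (hb : S.Q ^ 100 * θ ≤ b) (k1 : kN S.p S.nf k θ)
    (o : z.Ok) : ∃ z' : Mz, z'.Ok ∧
      z'.mass S.p' S.n S.Q S.g ≤ (1 + ρ) ^ c * (4 / S.L ^ 2 * z.mass S.p S.nf S.Q S.g) ∧
      ∀ θ0 ψ K φ P, Fi S.p S.nf A Z r θ0 ψ K → (∀ s ∈ Pd r, S.Sml b θ k (ψ s) (K s)) →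
        z.Fam S.p S.nf r P ψ K →
        z'.Fam S.p' S.n r' P (fun s => S.PL (ψ s) (K s) + φ) (trK A fun s => S.KK (ψ s) (K s)) ∧
        ∀ s ∈ Pd r, ∑ y ∈ S.Λ', ‖S.Ey (ψ s) (K s) y - S.Ey (ψ (off P s)) (K (off P s)) y‖ ≤
          S.Q ^ 10 * S.g ^ 2 * z.mass S.p S.nf S.Q S.g := by
  obtain ⟨z1, o1, m1, q⟩ := mass_step h u f B hb k1 o
  have c0 : 0 ≤ (1 + ρ) ^ c := by positivity
  have d0 : 0 < d := lt_of_lt_of_le (by have := D'_pos S; positivity) hm
  refine ⟨{ z1.smul ((1 + ρ) ^ c) with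
      d := fun X a => (1 + ρ) ^ (tch A (fun i => nxt S (Z i)) X).card * z1.d X a },
    ⟨(o1.smul c0).xb, (o1.smul c0).xk, (o1.smul c0).xr,
      fun X a => mul_nonneg (by positivity) (o1.d X a)⟩, le_trans ?_
      (mul_le_mul_of_nonneg_left m1 c0), fun _ ψ K φ P F sm z2 => ?_⟩
  · rw [← Mz.mass_smul]
    refine add_le_add le_rfl (mul_le_mul_of_nonneg_left
      ((l1_tch (D'_pos S) hc hm hk ρ0 hρ o1.d).trans_eq ?_) (by positivity))
    simp only [l1, Mz.smul, Pi.smul_apply, smul_eq_mul, mul_sum, mul_assoc]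
  have q' := fun s hs => q _ _ _ _ (sm _ (off_mem (P := P) F.pos hs)) (sm s hs) (z2 s hs)
  refine ⟨fun s hs => ⟨fun v => ML.enl (ψ := fun s => S.PL (ψ s) (K s) + φ)
    ⟨(F.pl_eq h f φ).trans (ma_congr fun T hT => (F.jL_step h f φ hT).symm),
      ((F.loc.step h).add φ).psi⟩ u.ρ0 F.pos ρ0 (tch_one hc d0 hk _)
    (fun s hs => by simpa only [add_sub_add_right_eq_sub] using (q' s hs).1.ps v)
    fun i => (hs i).le.trans (e i), ?_⟩, fun s hs => (q' s hs).2⟩
  have z0 := sm 0 (zero_mem F.pos)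
  obtain ⟨k', -, q2⟩ := f.K b θ k z0.b_le z0.θ_le z0.b0 k1
  have a := fa_KK f F.pos (F.sl r) (F.sa r) sm q2
  rw [trK_off a]
  refine FA.km_trK ⟨F.pos, (a.sub (FA.off a)).hol, fun s hs => (q' s hs).1.km⟩
    (D := fun X _ => tch A _ X) (fun X c T hT e => funext fun U => ?_) fun i => (hs i).le.trans (e i)
  obtain ⟨i, h1, h2⟩ := not_subset.1 e
  have := (F.loc.step h).jdA h1 (by_contra fun a => h2 (mem_tch.2 ⟨hT h1, a⟩)) c U
  rw [a.jA_sub (FA.off a)]
  simp [jA, jd_off (f := fun s => S.KK (ψ s) (K s) X c U), this]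

end step

/-- the local terms stay close to the local terms without sources -/
theorem ML.near (h : ML n A Z ψ) (hc : Cls n d A cl Z) (d0 : 0 < d) (v : St) :
    (∀ s, ψ s v = ψ 0 v) ∨ ∃ a, ∀ s, ψ s v = ψ 0 v + (ψ s - ψ (off (cl · = a) s)) v := by
  by_cases e : ∃ i ∈ A, rc n v ∈ Z i
  · obtain ⟨i, h1, h2⟩ := e
    refine .inr ⟨cl i, fun s => ?_⟩
    have : ψ (off (cl · = cl i) s) v = ψ 0 v := by
      rw [← h.off_eq (P := (cl · ≠ cl i)) fun j hj e h3 => e (one_cluster hc d0 hj h1 h3 h2)]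
      exact congrArg (ψ · v) (funext fun j => by by_cases e : cl j = cl i <;> simp [off, e])
    simp [this]
  · refine .inl fun s => (h.off_eq (P := fun _ => True) fun i hi _ h => e ⟨i, hi, h⟩).symm.trans ?_
    exact congrArg (ψ · v) (funext fun j => if_pos trivial)

section sup

variable {θ0 : ℝ} (F : Fi p n A Z r θ0 ψ K) (h0 : 0 < p.ρ) (g0 : 0 < g) (hn : Odd n)
  (hc : Cls n d A cl Z) (d0 : 0 < d) (μ0 : 0 ≤ μ)
  (hz : ∀ a, ∃ z : Mz, z.Ok ∧ z.mass p n Q g ≤ μ ∧ z.Fam p n r (cl · = a) ψ K) (hs : s ∈ Pd r)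
include F h0 g0 hn hc d0 μ0 hz hs

theorem Fi.pm_mass (a : PM p x y w (ψ 0)) : PM p (x + μ) (y + μ) (w + g ^ 2 * μ) (ψ s) := fun v => by
  refine ⟨?_, F.fl.meas s hs v⟩
  have := mul_nonneg (sq_nonneg g) μ0
  rcases F.ml.near hc d0 v with e | ⟨a', e⟩ <;> rw [e]
  · exact (a v).1.mono' h0 (by linarith) (by linarith) (by linarith)
  · obtain ⟨z, o, q, q'⟩ := hz a'
    exact ((a v).1.add ((q' s hs).ps' (Q := Q) o h0 g0 hn v) h0).1.mono' h0 (by linarith) (by linarith)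
      (by gcongr)

theorem Fi.pu_mass (a : PU p b (ψ 0)) : PU p (b + (3 * p.ρ ^ 2 + g ^ 2) * μ) (ψ s) := by
  obtain ⟨_, _, _, a'⟩ := a.1
  refine ⟨⟨_, _, _, F.pm_mass h0 g0 hn hc d0 μ0 hz hs a'⟩, fun v B h1 h2 => ?_⟩
  rcases F.ml.near hc d0 v with e | ⟨a', e⟩ <;> rw [e]
  · exact (a.2 v B h1 h2).trans (le_add_of_nonneg_right (by positivity))
  · obtain ⟨z, o, q, q'⟩ := hz a'
    refine norm_add_le_of_le (a.2 v B h1 h2) ((((q' s hs).ps v).bd h1 h2 le_rfl).trans ?_)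
    have := (o.le_mass (p := p) (Q := Q) (g := g) (rc_mem hn v)).trans q
    have := o.xb (rc n v)
    have := o.xk (rc n v)
    have q1 := div_nonneg (o.xr (rc n v)) (sq_nonneg g)
    have q2 : z.xr (rc n v) ≤ g ^ 2 * μ := (div_le_iff₀' (by positivity)).1 (by linarith)
    rw [div_self h0.ne']
    nlinarith [mul_le_mul_of_nonneg_right (show z.xb (rc n v) + z.xk (rc n v) ≤ μ by linarith)
      (sq_nonneg p.ρ)]

end sup

/-- the mass of sources which live in `Y` -/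
theorem mass_init (h0 : 0 < p.ρ) (k1 : kN p n k θ) (x0 : 0 ≤ x) (y0 : 0 ≤ y) (w0 : 0 ≤ w)
    (Y : Finset St) : ∃ z : Mz, z.Ok ∧
      z.mass p n Q g ≤ Y.card * (x + y + w / g ^ 2 + Q ^ 50 / g ^ 2 * (2 * θ)) ∧
      ∀ θ0 ψ K P, Fi p n A Z r θ0 ψ K → (∀ i ∈ A, P i → Z i ⊆ Y) → (∀ s ∈ Pd r, KM p n k (K s)) →
        (∀ s ∈ Pd r, PM p x y w (ψ s - ψ (off P s))) → z.Fam p n r P ψ K := by
  refine ⟨⟨fun v => if v ∈ Y then x else 0, fun v => if v ∈ Y then y else 0,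
    fun v => if v ∈ Y then w else 0, fun X a => if Disjoint Y X then 0 else 2 * k X a⟩,
    ⟨fun _ => by positivity, fun _ => by positivity, fun _ => by positivity,
      fun X a => by have := k1.1 X a; positivity⟩, ?_, fun _ ψ K P F hY km pm s hs =>
    ⟨fun v => ?_, km_pt fun X a => ?_⟩⟩
  · have a := sum_meet_le _ (fun o : LP St => o.1) _
      (fun o _ => mul_nonneg (k1.1 o.1 o.2) (Real.exp_nonneg _)) k1.2 Y
    rw [mul_add (Y.card : ℝ)]
    refine add_le_add ?_ ?_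
    · refine (sum_congr rfl (g := fun v => if v ∈ Y then x + y + w / g ^ 2 else 0) fun v _ => by
        split_ifs with e <;> simp [e]).trans_le ?_
      rw [sum_ite_mem, sum_const, nsmul_eq_mul]
      gcongr
      exact inter_subset_right
    · rw [mul_left_comm]
      refine mul_le_mul_of_nonneg_left (le_of_eq_of_le (b := 2 * _) ?_
        ((mul_le_mul_of_nonneg_left a zero_le_two).trans_eq (by ring))) (by positivity)
      simp only [l1, sum_filter, mul_sum, ite_mul, ite_not, mul_ite, zero_mul, mul_zero, mul_assoc, wgt]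
  · by_cases e : rc n v ∈ Y
    · simpa only [if_pos e] using (pm s hs v).1
    · simpa [e, F.ml.off_eq fun i hi h q => e (hY i hi h q), Pi.zero_def] using (ps_zero _ _ h0).1
  · by_cases e : Disjoint Y X
    · refine ⟨_, _, km_zero, ?_, by simp [e]⟩
      rw [F.act, ma_off, ma_apply, ma_apply]
      refine sum_eq_zero fun T hT => ?_
      beta_reduce
      split_ifs with q
      · obtain ⟨i, h1, h2⟩ := q
        rw [show jA T K X a = 0 from funext fun U => F.loc.jdA h1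
          (e.mono_left (hY i (mem_powerset.1 hT h1) h2)) a U, smul_zero]
      · simp
    · exact ⟨_, _, (km s hs).sub (km _ (off_mem F.pos hs)), rfl, by simp [e, two_mul]⟩

end Pool.Agent.Lib.MP_7f377f_mp.RG.Q4.En
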