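import Pool.Agent.Lib.MP_7f377f_mp.Q5FamB
import Pool.Agent.Lib.MP_7f377f_mp.Q5Reg2

/-! Groups of sources of small diameter through many levels. -/

noncomputable section

open Pool.Agent.Lib.MP_7f377f_mp.Jet

namespace Pool.Agent.Lib.MP_7f377f_mp.RG.Q4.En

open Finset Real Sg Pos

variable {ι κ : Type} [DecidableEq ι] [DecidableEq κ] {A T : Finset ι} {r r' r0 : ι → ℝ}
  {P : ι → Prop} {ψ : (ι → ℂ) → Lx} {K : (ι → ℂ) → Ac} {cl : ι → κ}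

omit [DecidableEq ι] in
theorem Mz.Fam.mono {z : Mz} {p : Pa} {n : ℕ} (h : z.Fam p n r P ψ K) (e : ∀ i, r' i ≤ r i) :
    z.Fam p n r' P ψ K := fun s hs => h s fun i => (hs i).trans_le (e i)

/-- the effect of separated sources on the local terms -/
theorem ML.pm_off {p : Pa} {n : ℕ} {Z : ι → Finset St} {d σ x y w : ℝ} {s : ι → ℂ}
    (h : ML n A Z ψ) (h0 : 0 < p.ρ) (hc : Cls n d A id Z) (hd : 0 < d)
    (a : ∀ i ∈ A, PM p x y w (jL {i} ψ)) (x0 : 0 ≤ σ * x) (y0 : 0 ≤ σ * y) (w0 : 0 ≤ σ * w)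
    (hs : ∀ i ∈ A, ‖s i‖ ≤ σ) : PM p (σ * x) (σ * y) (σ * w) (ψ s - ψ (off P s)) := fun v => by
  rcases h.one hc hd v with e | ⟨i, hi, -, e⟩ <;> rw [Pi.sub_apply, e s, e (off P s)]
  · rw [sub_self]
    exact ⟨(pm_zero h0 v).1.mono' h0 x0 y0 w0, measurable_const⟩
  · rw [add_sub_add_left_eq_sub, ← sub_smul]
    obtain ⟨u1, u2, u3⟩ := (a i hi v).1.nonneg h0
    have : ‖s i - off P s i‖ ≤ σ := by
      have := hs i hi
      rw [off]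
      split_ifs
      · rwa [sub_zero]
      · rw [sub_self, norm_zero]; exact (norm_nonneg _).trans this
    exact ⟨((a i hi v).1.smul h0 _).1.mono' h0 (by gcongr) (by gcongr) (by gcongr),
      (a i hi v).2.const_mul _⟩

namespace Gl

variable (G : Gl)

/-- the sources with property `P` have mass at most `ν` at level `k` -/
def Ms (k : ℕ) (r : ι → ℝ) (P : ι → Prop) (ν : ℝ) (ψ : (ι → ℂ) → Lx) (K : (ι → ℂ) → Ac) : Prop :=
  ∃ m : Mz, m.Ok ∧ G.g k ^ 2 * m.mass (G.p k) (G.N k) (G.Q k) (G.g k) ≤ ν ∧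
    m.Fam (G.p k) (G.N k) r P ψ K

/-- the free energy of one step -/
def de (k : ℕ) (z : Z) (Y : Fy ι) (s : ι → ℂ) : ℂ :=
  ∑ y ∈ (G.sd k z).Λ', (G.sd k z).Ey (Y.ψ s) (Y.K s) y

variable {G} {J i j k c : ℕ} {z : Z} {Y : Fy ι} {ν ν' θ b x y w σ N ω : ℝ}
  {f : (ι → ℂ) → Conf → ℂ}

omit [DecidableEq ι] in
theorem Ms.mono (m : G.Ms k r P ν ψ K) (e : ∀ i, r' i ≤ r i) (e' : ν ≤ ν') : G.Ms k r' P ν' ψ K :=
  m.imp fun _ a => ⟨a.1, a.2.1.trans e', a.2.2.mono e⟩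

omit [DecidableEq ι] in
theorem Ms.nn (m : G.Ms k r P ν ψ K) : 0 ≤ ν :=
  let ⟨_, a, b, _⟩ := m
  (mul_nonneg (sq_nonneg _) a.mass_nn).trans b

theorem Fd.hb (e : G.Fd k z A r0 r θ Y f) (hr : ∀ x, 0 < r' x) : Hb r' Y.E := e.ma ▸ hb_ma hr _

namespace Ok

variable (h : G.Ok)
include h

theorem pw_inv (k : ℕ) {i j l : ℕ} (e : l = i + j) :
    G.Q k ^ i * (G.Q k ^ l)⁻¹ = (G.Q k ^ j)⁻¹ := by
  rw [e, pow_add, mul_inv, mul_inv_cancel_left₀ (pow_pos (h.Q0 k) i).ne']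

theorem g_up (k : ℕ) : G.g k ^ 2 ≤ 1001 / 1000 * G.g (k + 1) ^ 2 := by
  have := mul_le_mul_of_nonneg_right (h.b_succ k) (sq_nonneg (G.g k * G.g (k + 1)))
  rw [mul_pow, mul_left_comm, h.bg, mul_assoc, ← mul_assoc (G.bb k), h.bg] at this
  linarith

theorem de_hb (t : G.Ad J k z) (F : Fi (G.p (k + 1)) (G.N (k + 1)) A Y.Z r θ Y.ψ Y.K) :
    Hb r (G.de k z Y) :=
  (Eqv.sum (A := A) F.pos fun y _ => Hb.refl ((h.fi_sd F z).ey (h.sd_all k z).nu t.pu y ▸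
    hb_ma F.pos _)).fst

theorem fs_jd (t : G.Ad J k z) (F : Fi (G.p (k + 1)) (G.N (k + 1)) A Y.Z r θ Y.ψ Y.K)
    (e : Hb r Y.E) (T : Finset ι) : jd T (G.fs A k z Y).E = jd T Y.E + jd T (G.de k z Y) :=
  jd_add e.choose_spec (h.de_hb t F).choose_spec T

/-- sizes from the masses -/
theorem ms_pm (F : Fi (G.p k) (G.N k) A Y.Z r θ Y.ψ Y.K) {d : ℝ} (hc : Cls (G.N k) d A cl Y.Z)
    (d0 : 0 < d) (ν0 : 0 ≤ ν) (m : ∀ a, G.Ms k r (cl · = a) ν Y.ψ Y.K) {s : ι → ℂ} (hs : s ∈ Pd r) :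
    (PM (G.p k) x y w (Y.ψ 0) → PM (G.p k) (x + G.bb k * ν) (y + G.bb k * ν) (w + ν) (Y.ψ s)) ∧
      (PU (G.p k) b (Y.ψ 0) → PU (G.p k) (b + G.Q k ^ 7 * ν) (Y.ψ s)) := by
  have g0 := h.g0 k
  have e : G.g k ^ 2 * (G.bb k * ν) = ν := by rw [mul_left_comm, ← mul_assoc, h.bg, one_mul]
  have m' := fun a => (m a).imp fun _ u => And.intro u.1 (And.intro
    (le_of_mul_le_mul_left (u.2.1.trans e.ge) (by positivity)) u.2.2)
  have b0 := mul_nonneg (h.b0 k).le ν0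
  refine ⟨fun a => ?_, fun a => pu_mono
    (F.pu_mass (h.ρ0 k) g0 (h.N_odd k) hc d0 b0 m' hs a) (add_le_add le_rfl ?_)⟩
  · simpa only [e] using F.pm_mass (h.ρ0 k) g0 (h.N_odd k) hc d0 b0 m' hs a
  · change (3 * (G.Q k ^ 3 * G.g k) ^ 2 + _) * _ ≤ _
    rw [show (3 * (G.Q k ^ 3 * G.g k) ^ 2 + G.g k ^ 2) * (G.bb k * ν) =
      (3 * G.Q k ^ 6 + 1) * (G.g k ^ 2 * (G.bb k * ν)) by ring, e]
    exact mul_le_mul_of_nonneg_right (by linarith [h.qpw k (show 6 < 7 by norm_num),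
      (one_le_pow₀ (h.Q1 k) : 1 ≤ G.Q k ^ 6)]) ν0

/-- the family lies in the large ball -/
theorem sml_big (F : Fi (G.p (k + 1)) (G.N (k + 1)) A Y.Z r (G.Q (k + 1) ^ 329)⁻¹ Y.ψ Y.K) (z : Z) :
    ∃ d, kN (G.sd k z).p (G.sd k z).nf d (G.Q k ^ 329)⁻¹ ∧
      ∀ s ∈ Pd r, KM (G.sd k z).p (G.sd k z).nf d (Y.K s) :=
  (h.fi_sd F z).km.imp fun _ a => ⟨a.1.mono (inv_anti₀ (pow_pos (h.Q0 k) _)
    (pow_le_pow_left₀ (h.Q0 k).le (h.Q_mono k.le_succ) _)), a.2⟩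

theorem big_le (k : ℕ) : G.Q k ^ 100 * (G.Q k ^ 210)⁻¹ ≤ 1 ∧
    G.Q k ^ 100 * (5 * (G.Q k ^ 329)⁻¹) ≤ (G.Q k ^ 210)⁻¹ ∧ G.Q k ^ 100 * (5 * (G.Q k ^ 329)⁻¹) ≤ 1 := by
  have q := h.Q0 k
  have a := h.inv_le k (show 210 < 229 by norm_num)
  have b := h.inv_le k (show 0 < 110 by norm_num)
  have c := h.inv_le k (show 0 < 210 by norm_num)
  rw [h.pw_inv k (j := 110) rfl, mul_left_comm, h.pw_inv k (j := 229) rfl]
  rw [pow_zero, inv_one] at b c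
  have := inv_pos.2 (pow_pos q 229)
  have := inv_pos.2 (pow_pos q 110)
  refine ⟨?_, ?_, ?_⟩ <;> linarith

/-- the gain of one step -/
theorem gain (hL : 1000 * 3 ^ c ≤ G.L k) {μ ρ : ℝ} (μ0 : 0 ≤ μ) (ρ0 : 0 ≤ ρ) (hρ : ρ ≤ 2) :
    G.g k ^ 2 * ((1 + ρ) ^ c * (4 / (G.sd k z).L ^ 2 * μ)) ≤ G.g (k + 1) ^ 2 * μ / 1000 := by
  have L1 := h.L1 k
  have a : (1000 * 3 ^ c : ℝ) ≤ G.L k := by exact_mod_cast hL
  have b : (1 + ρ) ^ c ≤ 3 ^ c := pow_le_pow_left₀ (by positivity) (by linarith) _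
  have e : (1 + ρ) ^ c * (4 / (G.L k : ℝ) ^ 2) ≤ 4 / 10 ^ 6 := by
    rw [← mul_div_assoc, div_le_iff₀ (by positivity)]
    nlinarith
  change _ * (_ * (4 / (G.L k : ℝ) ^ 2 * μ)) ≤ _
  rw [← mul_assoc _ _ μ]
  refine (mul_le_mul (h.g_up k) (mul_le_mul_of_nonneg_right e μ0) (by positivity)
    (by positivity)).trans ?_
  nlinarith [mul_nonneg (sq_nonneg (G.g (k + 1))) μ0]

omit [DecidableEq ι] in
/-- the mass seen from the step -/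
theorem ms_sd (m : G.Ms (k + 1) r P ν ψ K) (z : Z) : ∃ m : Mz, m.Ok ∧ G.g (k + 1) ^ 2 *
    m.mass (G.sd k z).p (G.sd k z).nf (G.sd k z).Q (G.sd k z).g ≤ ν ∧
      m.Fam (G.sd k z).p (G.sd k z).nf r P ψ K := by
  rw [h.sd_nf]
  exact m.imp fun _ a => ⟨a.1, (mul_le_mul_of_nonneg_left (a.1.mass_mono (h.Q0 k).le
    (h.Q_mono k.le_succ) (h.g0 _) le_rfl) (sq_nonneg _)).trans a.2.1, a.2.2⟩

omit [DecidableEq ι] in
theorem ms_of {m : Mz} (o : m.Ok) (e : G.g k ^ 2 *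
    m.mass (G.sd k z).p' (G.sd k z).n (G.sd k z).Q (G.sd k z).g ≤ ν)
    (a : m.Fam (G.sd k z).p' (G.sd k z).n r P ψ K) : G.Ms k r P ν ψ K :=
  ⟨m, o, (mul_le_mul_of_nonneg_left (o.mass_mono (h.Q0 k).le le_rfl (h.g0 _) (h.g_succ k))
    (sq_nonneg _)).trans e, a⟩

variable (t : G.Ad J k z) (pu : ∀ s ∈ Pd r, PU (G.p (k + 1)) (G.Q k ^ 210)⁻¹ (Y.ψ s))
  (hc : Cls (G.N k) ((2 * c + 2) * (G.p k).D) A cl (G.fs A k z Y).Z)
  (hk : ∀ a, (A.filter (cl · = a)).card ≤ c) (hL : 1000 * 3 ^ c ≤ G.L k) (e : ∀ x, r' x ≤ 2 * r x)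
include t pu hc hk hL e

/-- the mass contracts while the radii are doubled -/
theorem ms_step (F : Fi (G.p (k + 1)) (G.N (k + 1)) A Y.Z r (G.Q (k + 1) ^ 329)⁻¹ Y.ψ Y.K)
    (m : G.Ms (k + 1) r P ν Y.ψ Y.K) :
    G.Ms k r' P (ν / 100) (G.fs A k z Y).ψ (G.fs A k z Y).K ∧
      ∀ s ∈ Pd r, ‖G.de k z Y s - G.de k z Y (off P s)‖ ≤ G.Q k ^ 10 * ν := by
  have ν0 := m.nn
  obtain ⟨m, o, m1, m2⟩ := h.ms_sd m z
  obtain ⟨d, d1, d2⟩ := h.sml_big F z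
  obtain ⟨b1, b2, b3⟩ := h.big_le k
  have d3 := d1.mono (show _ ≤ 5 * (G.Q k ^ 329)⁻¹ by linarith [inv_pos.2 (pow_pos (h.Q0 k) 329)])
  obtain ⟨m', o', q1, q2⟩ := mass_fam (m := 2 * c) (h.sd_all k z).nu (h.st2 t.tz) hc
    (by push_cast; exact le_rfl) hk zero_le_two (by push_cast; linarith) e t.pu (h.bl_big k z) b2
    d3 o
  obtain ⟨q3, q4⟩ := q2 _ _ _ _ P (h.fi_sd F z) (fun s hs => ⟨b1, b3, pu s hs, d2 s hs, d3⟩) m2
  refine ⟨h.ms_of o' ((mul_le_mul_of_nonneg_left q1 (sq_nonneg _)).trans ((h.gain hL o.mass_nn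
    zero_le_two le_rfl).trans (by linarith))) q3, fun s hs => ?_⟩
  rw [de, de, ← sum_sub_distrib]
  refine ((norm_sum_le _ _).trans (q4 s hs)).trans ?_
  rw [mul_assoc]
  exact mul_le_mul_of_nonneg_left m1 (pow_pos (h.Q0 k) 10).le

/-- one step in the large ball; the radii are doubled -/
theorem fam2 (F : G.Fd (k + 1) z A r0 r (G.Q (k + 1) ^ 329)⁻¹ Y f) (h0 : ∀ x, r0 x ≤ r x)
    (hr : ∀ x, 0 < r' x) : G.Fd k (G.nx k z) A r0 r' (G.Q k ^ 329)⁻¹ (G.fs A k z Y)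
      fun s => TT (G.l k) (G.a k) (G.N k) (f s) := by
  have B := h.bl_big k z
  have q := h.Q0 k
  have a : (G.Q (k + 1) ^ 329)⁻¹ ≤ (G.Q k ^ 329)⁻¹ :=
    inv_anti₀ (by positivity) (pow_le_pow_left₀ q.le (h.Q_mono k.le_succ) _)
  have a0 := inv_pos.2 (pow_pos q 329)
  have a1 : (1000 * 3 ^ c : ℝ) ≤ G.Q k := le_trans (by exact_mod_cast hL) (h.LQ k)
  refine (h.fam1 (m := 2 * c) t (F.mono F.fi.pos (fun _ => le_rfl) (by linarith)) h0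
    (fun s hs => pu_mono (pu s hs) (by linarith [inv_pos.2 (pow_pos q 210)])) B.b_le B.θ_le hc
    (by push_cast; exact le_rfl) hk zero_le_two (by push_cast; linarith) hr e).mono hr
    (fun _ => le_rfl) ((mul_le_mul_of_nonneg_left (B.th (h.sd_all k z).nu) (by positivity)).trans ?_)
  change _ * (_ / G.Q k) ≤ _
  rw [show (1 + 2 : ℝ) = 3 by norm_num, ← mul_div_assoc, div_le_iff₀ q]
  nlinarith [(by positivity : (0 : ℝ) < 3 ^ c)]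

omit t pu hc hk hL e

/-- groups of sources of small mass -/
theorem chain2 {z : ℕ → Z} {Y : ℕ → Fy ι} {f : ℕ → (ι → ℂ) → Conf → ℂ} {r : ℕ → ι → ℝ}
    (st : ∀ k, j ≤ k → k < i → G.Ad J k (z (k + 1)) ∧ z k = G.nx k (z (k + 1)) ∧
      Y k = G.fs A k (z (k + 1)) (Y (k + 1)) ∧
      (f k = fun s => TT (G.l k) (G.a k) (G.N k) (f (k + 1) s)) ∧
      PU (G.p (k + 1)) (G.Q k ^ 212)⁻¹ ((Y (k + 1)).ψ 0) ∧ ∀ x, r k x ≤ 2 * r (k + 1) x)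
    (hc : ∀ k, j ≤ k → k ≤ i → Cls (G.N k) ((2 * c + 2) * (G.p k).D) A cl (Y k).Z ∧
      ∀ x, r0 x ≤ r k x)
    (hk : ∀ a, (A.filter (cl · = a)).card ≤ c) (hL : 1000 * 3 ^ c ≤ G.L j) (ν0 : 0 ≤ ν)
    (hν : G.Q i ^ 220 * ν ≤ 1) (e : G.Fd i (z i) A r0 (r i) (G.Q i ^ 329)⁻¹ (Y i) (f i))
    (m : ∀ a, G.Ms i (r i) (cl · = a) ν (Y i).ψ (Y i).K) : (∀ k ≤ i, j ≤ k →
    G.Fd k (z k) A r0 (r k) (G.Q k ^ 329)⁻¹ (Y k) (f k) ∧
      (∀ a, G.Ms k (r k) (cl · = a) (ν / 100 ^ (i - k)) (Y k).ψ (Y k).K) ∧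
      ∀ T ⊆ A, T.Nonempty → ‖jd T (Y k).E - jd T (Y i).E‖ ≤
        2 * G.Q i ^ 10 * (ν - ν / 100 ^ (i - k)) / ∏ x ∈ T, r0 x) ∧ ∀ k, j ≤ k → k < i →
    ∀ s ∈ Pd (r (k + 1)), PU (G.p (k + 1)) (G.Q k ^ 211)⁻¹ ((Y (k + 1)).ψ s) := by
  have p0 := e.eq.fst.pos
  have P : ∀ k < i, j ≤ k → Fi (G.p (k + 1)) (G.N (k + 1)) A (Y (k + 1)).Z (r (k + 1))
      (G.Q (k + 1) ^ 329)⁻¹ (Y (k + 1)).ψ (Y (k + 1)).K → (∀ a, G.Ms (k + 1) (r (k + 1)) (cl · = a)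
        (ν / 100 ^ (i - (k + 1))) (Y (k + 1)).ψ (Y (k + 1)).K) →
      ∀ s ∈ Pd (r (k + 1)), PU (G.p (k + 1)) (G.Q k ^ 211)⁻¹ ((Y (k + 1)).ψ s) :=
    fun k hk hj F m s hs => by
      refine pu_mono ((h.ms_pm (x := 0) (y := 0) (w := 0) F (hc _ (by omega) hk).1
        (by have := h.D_pos (k + 1); positivity) (by positivity) m hs).2 (st k hj hk).2.2.2.2.1) ?_
      have q := h.Q0 k
      have a : G.Q (k + 1) ^ 7 * (ν / 100 ^ (i - (k + 1))) ≤ (G.Q k ^ 212)⁻¹ := by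
        rw [← one_div, le_div_iff₀ (by positivity)]
        calc _ ≤ G.Q i ^ 7 * ν * G.Q i ^ 213 := by
              have := h.Q0 (k + 1)
              have := h.Q0 i
              gcongr
              exacts [h.Q_mono hk, div_le_self ν0 (one_le_pow₀ (by norm_num)),
                (pow_le_pow_left₀ q.le (h.Q_mono hk.le) _).trans
                  (pow_le_pow_right₀ (h.Q1 i) (by norm_num))]
          _ ≤ _ := (le_of_eq (by ring)).trans hν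
      linarith [h.inv_le k (show 211 < 212 by norm_num), inv_pos.2 (pow_pos q 212)]
  have R : ∀ k ≤ i, j ≤ k → G.Fd k (z k) A r0 (r k) (G.Q k ^ 329)⁻¹ (Y k) (f k) ∧
      (∀ a, G.Ms k (r k) (cl · = a) (ν / 100 ^ (i - k)) (Y k).ψ (Y k).K) ∧
      ∀ T ⊆ A, T.Nonempty → ‖jd T (Y k).E - jd T (Y i).E‖ ≤
        2 * G.Q i ^ 10 * (ν - ν / 100 ^ (i - k)) / ∏ x ∈ T, r0 x := by
    refine dw_ind (fun _ => ⟨e, by simpa using m, by simp⟩) fun k hi ih hj => ?_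
    obtain ⟨a1, a2, a3, a4, -, a5⟩ := st k hj hi
    obtain ⟨c1, c2, c3⟩ := ih (by omega)
    obtain ⟨d1, d2⟩ := hc k hj hi.le
    have d3 := (hc (k + 1) (by omega) hi).2
    have q := h.Q0 k
    have pu := fun s hs => pu_mono (P k hi hj c1.fi c2 s hs) (show _ ≤ (G.Q k ^ 210)⁻¹ by
      linarith [h.inv_le k (show 210 < 211 by norm_num), inv_pos.2 (pow_pos q 211)])
    have L := hL.trans (h.L_mono hj)
    rw [a3] at d1
    have M := fun a => h.ms_step a1 pu d1 hk L a5 c1.fi (c2 a)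
    rw [a2, a3, a4, show i - k = i - (k + 1) + 1 by omega, pow_succ (100 : ℝ), ← div_div]
    refine ⟨h.fam2 a1 pu d1 hk L a5 c1 d3 fun x => (p0 x).trans_le (d2 x), fun a => (M a).1,
      fun T hT ⟨x, hx⟩ => ?_⟩
    have r1 : 0 < ∏ x ∈ T, r0 x := prod_pos fun x _ => p0 x
    have n0 : 0 ≤ ν / 100 ^ (i - (k + 1)) := by positivity
    have := jd_off_le ⟨_, (h.de_hb a1 c1.fi).choose_spec.shrink p0 d3⟩
      (fun s hs => (M (cl x)).2 s fun y => (hs y).trans_le (d3 y)) ⟨x, hx, rfl⟩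
    rw [h.fs_jd a1 c1.fi (c1.hb c1.fi.pos), add_sub_right_comm]
    refine (norm_add_le_of_le (c3 T hT ⟨x, hx⟩) this).trans ?_
    rw [← add_div]
    refine div_le_div_of_nonneg_right ?_ r1.le
    have := mul_le_mul_of_nonneg_right (pow_le_pow_left₀ q.le (h.Q_mono hi.le) 10) n0
    nlinarith [mul_nonneg (pow_pos (h.Q0 i) 10).le n0]
  exact ⟨R, fun k hj hk => P k hk hj (R _ hk (by omega)).1.fi (R _ hk (by omega)).2.1⟩

/-- the flow along a run; the radii are doubled at each step -/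
theorem famII {H : ℕ → Lx × Ac} (t : G.Tu b J) (u : ∀ k < J, (G.sd k (G.zz b J (k + 1))).Pu)
    (hi : i ≤ J) (hH : ∀ k, j ≤ k → k < i → H k = G.hs k (G.zz b J (k + 1)) (H (k + 1)) ∧
      PU (G.p (k + 1)) (G.Q k ^ 212)⁻¹ (H (k + 1)).1) (e1 : Y.bs = H i)
    (hc : ∀ k, j ≤ k → k ≤ i →
      Cls (G.N k) ((2 * c + 2) * (G.p k).D) A cl fun a => G.zs (Y.Z a) i k)
    (hk : ∀ a, (A.filter (cl · = a)).card ≤ c) (hL : 1000 * 3 ^ c ≤ G.L j) (ν0 : 0 ≤ ν)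
    (hν : G.Q i ^ 220 * ν ≤ 1) (h0 : ∀ x, r0 x ≤ r x) {f : ℕ → (ι → ℂ) → Conf → ℂ}
    (hf : ∀ k, j ≤ k → k < i → f k = fun s => TT (G.l k) (G.a k) (G.N k) (f (k + 1) s))
    (e : G.Fd i (G.zz b J i) A r0 r (G.Q i ^ 329)⁻¹ Y (f i))
    (m : ∀ a, G.Ms i r (cl · = a) ν Y.ψ Y.K) : ∀ k ≤ i, j ≤ k →
    G.Fd k (G.zz b J k) A r0 (fun x => 2 ^ (i - k) * r x) (G.Q k ^ 329)⁻¹ (G.fw A b J Y i k) (f k) ∧
      (G.fw A b J Y i k).bs = H k ∧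
      (∀ a, G.Ms k (fun x => 2 ^ (i - k) * r x) (cl · = a) (ν / 100 ^ (i - k))
        (G.fw A b J Y i k).ψ (G.fw A b J Y i k).K) ∧
      (k < i → ∀ s ∈ Pd fun x => 2 ^ (i - (k + 1)) * r x,
        PU (G.p (k + 1)) (G.Q k ^ 211)⁻¹ ((G.fw A b J Y i (k + 1)).ψ s)) ∧
      ∀ T ⊆ A, T.Nonempty → ‖jd T (G.fw A b J Y i j).E - jd T (G.fw A b J Y i k).E‖ ≤
        2 * G.Q k ^ 10 * (ν / 100 ^ (i - k)) / ∏ x ∈ T, r0 x := by
  have B : ∀ k ≤ i, j ≤ k → (G.fw A b J Y i k).bs = H k :=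
    dw_ind (fun _ => by rwa [fw_top]) fun k hk ih hj => by
      rw [fw_step hk, fs_bs, ih (by omega), (hH k hj hk).1]
  have p0 := e.fi.pos
  have st := fun k (hj : j ≤ k) (hk : k < i) => And.intro (h.ad t (hk.trans_le hi) (u k (by omega)))
    (And.intro (zz_step (G := G) b (hk.trans_le hi)) (And.intro
      (fw_step (G := G) (A := A) (Y := Y) (b := b) (J := J) hk) (And.intro
      (hf k hj hk) (And.intro (B (k + 1) hk (by omega) ▸ (hH k hj hk).2 : PU _ _ (Fy.bs _).1)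
        fun x => show 2 ^ (i - k) * r x ≤ 2 * (2 ^ (i - (k + 1)) * r x) by
          rw [show i - k = i - (k + 1) + 1 by omega, pow_succ', mul_assoc]))))
  have hc' := fun k (hj : j ≤ k) (hk : k ≤ i) => And.intro
    (fw_Z (A := A) (b := b) (J := J) k hk ▸ hc k hj hk) fun x => (h0 x).trans
      (le_mul_of_one_le_left (p0 x).le (one_le_pow₀ (n := i - k) one_le_two))
  obtain ⟨R, R'⟩ := h.chain2 (r := fun k x => 2 ^ (i - k) * r x) st hc' hk hL ν0 hν (by simpa [fw_top] using e)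
    (by simpa [fw_top] using m)
  refine fun k hi' hj => ⟨(R k hi' hj).1, B k hi' hj, (R k hi' hj).2.1, R' k hj, fun T hT h1 => ?_⟩
  have n0 : 0 ≤ ν / 100 ^ (i - k) := by positivity
  rw [norm_sub_rev]
  refine (norm_sub_rev _ _).trans_le ((((h.chain2 (i := k) (r := fun k x => 2 ^ (i - k) * r x) (fun l a b => st l a (by omega))
    (fun l a b => hc' l a (by omega)) hk hL n0 (le_trans (mul_le_mul (pow_le_pow_left₀ (h.Q0 k).le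
      (h.Q_mono hi') _) (div_le_self ν0 (one_le_pow₀ (by norm_num))) n0 (pow_pos (h.Q0 i) _).le) hν)
    (R k hi' hj).1 (R k hi' hj).2.1).1 j hj le_rfl).2.2 T hT h1).trans ?_)
  refine div_le_div_of_nonneg_right (mul_le_mul_of_nonneg_left (sub_le_self _ (by positivity))
    (mul_pos two_pos (pow_pos (h.Q0 k) _)).le) (prod_nonneg fun x _ => (e.eq.fst.pos x).le)

/-- the mass of separated sources -/
theorem ms_init {Y0 : Finset St} {d V : ℝ} (F : Fi (G.p k) (G.N k) A Y.Z r (G.Q k ^ 329)⁻¹ Y.ψ Y.K)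
    (hc : Cls (G.N k) d A id Y.Z) (d0 : 0 < d) (hσ : ∀ x ∈ A, r x ≤ σ) (σ0 : 0 ≤ σ) (N0 : 0 ≤ N)
    (ω0 : 0 ≤ ω) (hω : G.Q k ^ 50 * ω ≤ 1)
    (sz : ∀ x ∈ A, G.Sz k N N ω (Y.jt {x}).1 (Y.jt {x}).2) (hY : ∀ x ∈ A, P x → Y.Z x ⊆ Y0)
    (hV : Y0.card ≤ V) (h1 : V ≤ G.Q k ^ 50) (h2 : G.Q k ^ 223 * (V * (σ * N)) ≤ G.bb k) :
    G.Ms k r P (G.Q k ^ 220)⁻¹ Y.ψ Y.K := by
  have q := h.Q0 k
  have g0 := h.g0 k
  obtain ⟨d, d1, d2⟩ := F.km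
  have x0 := mul_nonneg σ0 N0
  have y0 : 0 ≤ σ * (G.Q k ^ 2 * N) := by positivity
  have w0 : 0 ≤ σ * (G.Q k ^ 50 * ω * N * G.g k ^ 2) :=
    mul_nonneg σ0 (mul_nonneg (mul_nonneg (mul_nonneg (pow_pos q _).le ω0) N0) (sq_nonneg _))
  obtain ⟨m, o, m1, m2⟩ := mass_init (ι := ι) (A := A) (Z := Y.Z) (r := r) (Q := G.Q k)
    (g := G.g k) (h.ρ0 k) d1 x0 y0 w0 Y0
  refine ⟨m, o, (mul_le_mul_of_nonneg_left (m1.trans (mul_le_mul_of_nonneg_right hV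
    (add_nonneg (add_nonneg (add_nonneg x0 y0) (div_nonneg w0 (sq_nonneg _))) (mul_pos (div_pos
      (pow_pos q _) (pow_pos g0 _)) (mul_pos two_pos (inv_pos.2 (pow_pos q _)))).le)))
    (sq_nonneg _)).trans ?_, m2 _ _ _ P F hY d2 fun s hs =>
      F.ml.pm_off (h.ρ0 k) hc d0 (fun x hx => (sz x hx).1) x0 y0 w0
        fun x hx => (hs x).le.trans (hσ x hx)⟩
  have V0 : 0 ≤ V := (Nat.cast_nonneg _).trans hV
  have a1 : G.g k ^ 2 * (V * (σ * N)) ≤ (G.Q k ^ 223)⁻¹ := by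
    rw [← one_div, le_div_iff₀' (by positivity), ← h.bg k, mul_left_comm, mul_comm]
    exact mul_le_mul_of_nonneg_right h2 (sq_nonneg _)
  have e1 := h.pw_inv k (i := 50) (j := 279) (l := 329) rfl
  have e2 := h.pw_inv k (i := 50) (j := 229) (l := 279) rfl
  have e3 := h.pw_inv k (i := 2) (j := 221) (l := 223) rfl
  have := inv_pos.2 (pow_pos q 279)
  generalize (G.Q k ^ 329)⁻¹ = u1 at *
  generalize (G.Q k ^ 279)⁻¹ = u2 at *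
  generalize (G.Q k ^ 223)⁻¹ = u3 at *
  calc _ = (1 + G.Q k ^ 2 + G.Q k ^ 50 * ω) * (G.g k ^ 2 * (V * (σ * N))) + 2 * V * u2 := by
        rw [← e1]; field_simp
    _ ≤ (G.Q k ^ 2 + G.Q k ^ 2 + G.Q k ^ 2) * u3 + 2 * G.Q k ^ 50 * u2 := by
      have : 1 ≤ G.Q k ^ 2 := one_le_pow₀ (h.Q1 k)
      gcongr
      exact hω.trans this
    _ = 3 * (G.Q k ^ 221)⁻¹ + 2 * (G.Q k ^ 229)⁻¹ := by rw [← e2, ← e3]; ring
    _ ≤ _ := by
      linarith [h.inv_le k (show 220 < 221 by norm_num), h.inv_le k (show 220 < 229 by norm_num),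
        inv_pos.2 (pow_pos q 220)]

omit [DecidableEq ι] [DecidableEq κ] in
/-- base points -/
theorem bs_pu {φ : Lx} {L : Ac} {u : ℝ} (e : G.Sz (k + 1) u u ω φ L) (hω : G.Q k ^ 100 * ω ≤ 1)
    (hu : G.Q k ^ 223 * u ≤ G.bb (k + 1)) : PU (G.p (k + 1)) (G.Q k ^ 212)⁻¹ φ := by
  have nu := (h.sd_all k (G.top0 0 0)).nu
  have q := h.Q0 k
  have u0 := ((h.sz_sd e _).nn nu).1
  refine pu_mono ((h.sz_sd e _).pu nu hω) ?_
  change G.Q k ^ 10 * (u + u) * G.g (k + 1) ^ 2 ≤ _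
  rw [← one_div, le_div_iff₀ (pow_pos q _), ← h.bg (k + 1), mul_right_comm]
  refine mul_le_mul_of_nonneg_right (le_trans ?_ hu) (sq_nonneg _)
  have := mul_le_mul_of_nonneg_right (h.qpw k (show 222 < 223 by norm_num)) u0
  linarith [mul_nonneg (pow_pos q 222).le u0]

theorem run_pu (t : G.Tu b J) (hk : k < J) :
    PU (G.p (k + 1)) (G.Q k ^ 212)⁻¹ (G.zz b J (k + 1)).ψ :=
  h.bs_pu (t.gd _ hk).dt.sz (qsq (h.sd_all k (G.top0 0 0)).nu (by norm_num)) (by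
    linarith [h.Qbb k (show 223 < 4000 by norm_num), h.b_mono k.le_succ, pow_pos (h.Q0 k) 223])

theorem hyb_pu {φ : Lx} {L : Ac}
    (e : G.Sz (k + 1) (G.u (k + 1)) (G.u (k + 1)) (G.Q (k + 1) ^ 280)⁻¹ φ L) :
    PU (G.p (k + 1)) (G.Q k ^ 212)⁻¹ φ := by
  have q := h.Q0 (k + 1)
  have a : ∀ {i j : ℕ}, i ≤ j → G.Q k ^ i ≤ G.Q (k + 1) ^ j := fun e =>
    (pow_le_pow_left₀ (h.Q0 k).le (h.Q_mono k.le_succ) _).trans (pow_le_pow_right₀ (h.Q1 _) e)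
  refine h.bs_pu e ?_ ?_
  · rw [← div_eq_mul_inv, div_le_one (pow_pos q _)]
    exact a (by norm_num)
  · rw [u, ← mul_div_assoc, div_le_iff₀ (pow_pos q _), mul_comm]
    exact mul_le_mul_of_nonneg_left (a (by norm_num)) (h.b0 _).le

end Ok

end Gl

end Pool.Agent.Lib.MP_7f377f_mp.RG.Q4.En
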