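import Pool.Agent.Lib.MP_7f377f_mp.Q5FamB
import Pool.Agent.Lib.MP_7f377f_mp.Q5Mass

/-! The difference of two families of data. -/

noncomputable section

open Pool.Agent.Lib.MP_7f377f_mp.Jet

namespace Pool.Agent.Lib.MP_7f377f_mp.RG.Q4.En

open Finset Real Sg Pos

attribute [local irreducible] box lbox tb rc

variable {ι κ : Type} [DecidableEq κ] {r r' r0 : ι → ℝ} {A T : Finset ι} {p : Pa}
  {n m c : ℕ} {W : ι → Finset St} {cl : ι → κ} {ψ ψ' : (ι → ℂ) → Lx} {K K' : (ι → ℂ) → Ac}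
  {φ : Lx} {b θ θ0 d x y x' y' w ω ω' C Q g : ℝ} {S : Sd} {a : ι} {γ : ℂ}

/-- uniform sizes of a family -/
def Sf (p : Pa) (n : ℕ) (Q g : ℝ) (r : ι → ℝ) (x y ω : ℝ) (ψ : (ι → ℂ) → Lx)
    (K : (ι → ℂ) → Ac) : Prop :=
  (∀ s ∈ Pd r, PM p x (Q ^ 2 * y) (Q ^ 50 * ω * y * g ^ 2) (ψ s)) ∧
    ∃ k, kN p n k (ω * y * g ^ 2) ∧ ∀ s ∈ Pd r, KM p n k (K s)

theorem Sf.sz (h : Sf p n Q g r x y ω ψ K) {s : ι → ℂ} (hs : s ∈ Pd r) :
    Sz p n Q g x y ω (ψ s) (K s) := ⟨h.1 s hs, h.2.imp fun _ a => ⟨a.2 s hs, a.1⟩⟩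

/-- a better bound of the marginal part -/
theorem Sf.imp (h : Sf p n Q g r x y ω ψ K) (e : ∀ s ∈ Pd r, PM p x' y' w (ψ s)) :
    Sf p n Q g r x' y ω ψ K :=
  ⟨fun s hs v => ⟨{ (h.1 s hs v).1 with cb := (e s hs v).1.cb }, (e s hs v).2⟩, h.2⟩

theorem Sf.mono (h0 : 0 < p.ρ) (ω0 : 0 ≤ ω) (h : Sf p n Q g r x y ω ψ K) (hx : x ≤ x')
    (hy : y ≤ y') : Sf p n Q g r x' y' ω ψ K :=
  ⟨fun s hs => PM.mono h0 (h.1 s hs) hx (by gcongr) (by gcongr),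
    h.2.imp fun _ a => ⟨a.1.mono (by gcongr), a.2⟩⟩

theorem ey_le (u : S.Pu) {ψ : Lx} {K : Ac} {k : Mj} (hψ : PU S.p b ψ) (hK : KM S.p S.nf k K)
    (hk : kN S.p S.nf k θ) (v : St) : ‖S.Ey ψ K v - S.Ey 0 0 v‖ ≤ S.Q * b + θ := by
  have e1 : S.pz (S.ψy 0 v) 0 = 0 := norm_le_zero_iff.1
    ((u.pz_le (b := 0) (fun _ _ _ _ _ => norm_zero.le) 0).trans_eq (mul_zero _))
  have e2 : ∑ X ∈ S.X1s, S.Fs (S.Ky 0 v) X 0 = 0 := sum_eq_zero fun X _ => Sd.Fs_zero rfl _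
  have h1 := u.pz_le (ψ := S.ψy ψ v) (fun x _ => hψ.2 _) 0
  have h2 : ‖∑ X ∈ S.X1s, S.Fs (S.Ky K v) X 0‖ ≤ 2 * (θ / S.Q) :=
    (norm_sum_le_of_le _ fun X hX => (Sd.Fs_bd u.nu u.tk.ok u.tk.gr u.P_le hX
      (Sd.k1y u.nu.ok hK v hX) 0).trans (div_le_self (mul_nonneg zero_le_two (hk.1 _ _))
        (Sd.X1_card hX))).trans ((mul_sum _ _ _).ge.trans
          (mul_le_mul_of_nonneg_left (Sd.sum_X1 u.nu hk _) zero_le_two))
  have h3 : θ / S.Q ≤ θ / 2 :=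
    div_le_div_of_nonneg_left hk.nonneg two_pos (u.nu.cQ' (by norm_num))
  have h4 := mul_le_mul_of_nonneg_right (u.nu.LQ (k := 4) (by have := u.nu.exps; omega))
    (hψ.nonneg (by linarith [u.ρ0, u.ρ_le]))
  rw [show S.Ey ψ K v - S.Ey 0 0 v = ∑ X ∈ S.X1s, S.Fs (S.Ky K v) X 0 - S.pz (S.ψy ψ v) 0 by
    simp only [Sd.Ey, Sd.cX, e1, e2]; ring]
  linarith [norm_sub_le_of_le h2 h1]

theorem ma_scale {V : Type} [AddCommMonoid V] [Module ℂ V] (e : Finset ι → V) (s : ι → ℂ) :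
    ma A e (γ • s) = ma A (fun T => γ ^ T.card • e T) s :=
  sum_congr rfl fun T _ => by simp [mon, prod_mul_distrib, smul_smul, mul_comm]

theorem pd_scale (hr : ∀ i, 0 < r i) (e : ∀ i, ‖γ‖ * r' i ≤ r i) {s : ι → ℂ} (hs : s ∈ Pd r') :
    γ • s ∈ Pd r := fun i => by
  rw [Pi.smul_apply, norm_smul]
  rcases (norm_nonneg γ).eq_or_lt with h | h
  · simpa [← h] using hr i
  · exact (mul_lt_mul_of_pos_left (hs i) h).trans_le (e i)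

variable [DecidableEq ι]

theorem jd_sc (f : (ι → ℂ) → ℂ) : jd T (fun s => f (γ • s)) = γ ^ T.card * jd T f :=
  (jd_scale (fun _ => γ) f T).trans (by rw [prod_const])

theorem jL_sc : jL T (fun s => ψ (γ • s)) = γ ^ T.card • jL T ψ := by
  ext v B; exact jd_sc (ψ · v B)

theorem jA_sc : jA T (fun s => K (γ • s)) = γ ^ T.card • jA T K := by
  ext X c U; exact jd_sc (K · X c U)

theorem Fi.sc (F : Fi p n A W r θ ψ K) (h0 : 0 < p.ρ) (hr : ∀ i, 0 < r' i)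
    (e : ∀ i, ‖γ‖ * r' i ≤ r i) :
    Fi p n A W r' θ (fun s => ψ (γ • s)) fun s => K (γ • s) := by
  have u : ∀ (s : ι → ℂ) i t, γ • Function.update s i t = Function.update (γ • s) i (γ * t) :=
    fun s i t => by ext j; by_cases h : j = i <;> simp [h]
  refine ⟨hr, funext fun s => ?_, funext fun s => ?_, fun T hT => ?_,
    ⟨fun i v hv s t => ?_, fun i X c hX s t => ?_⟩,
    F.km.imp fun _ a => ⟨a.1, fun s hs => a.2 _ (pd_scale F.pos e hs)⟩⟩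
  · simp only [jL_sc, ← ma_scale, ← congrFun F.psi]
  · simp only [jA_sc, ← ma_scale, ← congrFun F.act]
  · obtain ⟨_, ⟨_, _, _, a⟩, -⟩ := F.pu T hT
    rw [jL_sc]
    exact ⟨_, pu_of_pm fun v => ⟨((a v).1.smul h0 _).1, (a v).2.const_mul _⟩⟩
  · simp only [u]; exact F.loc.psi i v hv _ _
  · simp only [u]; exact F.loc.act i X c hX _ _

theorem Fi.add_eq (F : Fi p n A W r θ ψ K) (φ : Lx) :
    (fun s => ψ s + φ) = ma A fun T => jL T ψ + if T = ∅ then φ else 0 := funext fun s => by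
  rw [congrFun F.psi s]
  refine .trans ?_ (ma_add (a' := fun T => if T = ∅ then φ else 0)).symm
  simp [ma, mon]

theorem Fi.jL_add (F : Fi p n A W r θ ψ K) (hT : T ⊆ A) :
    jL T (fun s => ψ s + φ) = jL T ψ + if T = ∅ then φ else 0 := by rw [F.add_eq, jL_ma _ hT]

theorem Fi.add (F : Fi p n A W r θ ψ K) (h : PM p x y w (ψ 0 + φ)) :
    Fi p n A W r θ (fun s => ψ s + φ) K := by
  refine ⟨F.pos, (F.add_eq φ).trans (ma_congr fun T hT => (F.jL_add hT).symm), F.act,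
    fun T hT => ?_, F.loc.add φ, F.km⟩
  rw [F.jL_add hT]
  split_ifs with e
  · exact ⟨_, pu_of_pm (by rwa [e, jL_empty])⟩
  · simpa only [add_zero] using F.pu T hT

section step

variable (F : Fi S.p S.nf A W r θ0 ψ K) (F' : Fi S.p S.nf A W r θ0 ψ' K') (h : S.Nu 100)
  (D : Sf S.p S.nf S.QM S.g r x y ω (ψ - ψ') (K - K')) (hω : S.Q ^ 100 * ω ≤ 1)
include F F' h D hω

/-- the difference of the free energies -/
theorem Fi.ey_dif (u : S.Pu) (hT : a ∈ T) :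
    ‖∑ v ∈ S.Λ', jd T (fun s => S.Ey (ψ s) (K s) v) -
      ∑ v ∈ S.Λ', jd T fun s => S.Ey (ψ' s) (K' s) v‖ ≤
      (nxt S (W a)).card * (S.Q ^ 12 * (x + y) * S.g ^ 2 / ∏ i ∈ T, r i) := by
  obtain ⟨x0, y0⟩ := (D.sz (zero_mem F.pos)).nn h
  have Q0 := S.Q0
  have r0 : 0 < ∏ i ∈ T, r i := prod_pos fun i _ => F.pos i
  rw [← sum_sub_distrib, ← sum_subset (filter_subset (· ∈ nxt S (W a)) _) fun v h1 h2 => by
    have : rc S.n v ∉ nxt S (W a) := fun e => h2 (mem_filter.2 ⟨h1, rc_eq h.ok.odd h1 ▸ e⟩)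
    rw [(F.loc.ey h this).jd hT, (F'.loc.ey h this).jd hT, sub_zero], ← nsmul_eq_mul]
  refine (norm_sum_le _ _).trans ((sum_le_card_nsmul _ _ _ fun v _ => ?_).trans
    (nsmul_le_nsmul_left (by positivity) (card_le_card fun v hv => (mem_filter.1 hv).2)))
  obtain ⟨_, a1⟩ : Hb r fun s => S.Ey (ψ s) (K s) v := F.ey h u v ▸ hb_ma F.pos _
  obtain ⟨_, a2⟩ : Hb r fun s => S.Ey (ψ' s) (K' s) v := F'.ey h u v ▸ hb_ma F.pos _
  rw [← jd_sub a1 a2]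
  refine SH.jd_le ⟨F.pos, (a1.sub a2).hol, fun s hs => ?_⟩ T
  obtain ⟨k, k1, k2⟩ := (D.sz hs).2
  have p1 := (D.sz hs).pu h hω
  have := ey_lin u (congrFun F'.psi s ▸ congrFun F'.act s ▸ Dir.ma h (fun _ => F'.dir) s :
    Dir S (ψ' s) (K' s)) ⟨_, _, _, p1, k1, k2⟩ 1 v
  simp only [one_smul, Pi.sub_apply, add_sub_cancel, one_mul] at this
  rw [Pi.sub_apply, this, add_sub_cancel_left]
  refine (ey_le u p1 k1 k2 v).trans ?_
  have a3 := qom h hω (i := 0) (by norm_num)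
  have a4 := qpw h (i := 11) (j := 12) (by norm_num)
  have a5 := one_le_pow₀ (n := 11) S.Q1
  calc _ = (S.Q ^ 11 * (x + y) + ω * y) * S.g ^ 2 := by ring
    _ ≤ _ := by gcongr; nlinarith

/-- one step for the difference -/
theorem Fi.dif (f : St2 S) (B : Bl S b θ) (hθ : 2 * θ0 ≤ θ) (pu : ∀ s ∈ Pd r, PU S.p b (ψ s))
    (pu' : ∀ s ∈ Pd r, PU S.p b (ψ' s)) (h1 : √S.g ≤ ω) (hb : S.Q ^ 10 * θ ≤ ω * b) (e : ω ≤ ω')
    (hc : Cls S.n d A cl fun i => nxt S (W i)) (hm : (m + 2 : ℝ) * S.p'.D ≤ d)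
    (hk : ∀ a, (A.filter (cl · = a)).card ≤ c) (hρ : c ≤ m) (C1 : S.cr ≤ C)
    (C2 : 8 * 2 ^ c ≤ S.Q * C) (h0 : 0 < x + y) (φ : Lx) :
    Sf S.p' S.n S.Q S.g' r (x + S.Q ^ 50 * ω * (x + y)) (C * (x + y)) ω'
      ((fun s => S.PL (ψ s) (K s) + φ) - fun s => S.PL (ψ' s) (K' s) + φ)
      ((trK A fun s => S.KK (ψ s) (K s)) - trK A fun s => S.KK (ψ' s) (K' s)) := by
  obtain ⟨x0, y0⟩ := (D.sz (zero_mem F.pos)).nn h
  have Q0 := S.Q0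
  have g0 := h.ok.g0
  have gg := h.ok.gg'
  have ω0 := (sqrt_pos.2 g0).trans_le h1
  have b0 := g0.trans_le B.g_le
  have θ1 : 0 < θ := lt_of_lt_of_le (by positivity) B.sq_le
  have C0 := (cr_pos h).le
  have ω1 := ω0.le.trans e
  have C3 := C0.trans C1
  obtain ⟨k, k1, k2⟩ := F.km
  obtain ⟨k', k1', k2'⟩ := F'.km
  have kk := (k1.add k1').mono ((two_mul _).ge.trans hθ)
  have hb1 : S.Q ^ 100 * b ≤ 1 := by nlinarith [B.b_le, pow_pos Q0 100]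
  have hθ1 : S.Q ^ 100 * θ ≤ 1 := by nlinarith [B.θ_le, pow_pos Q0 100]
  have s1 : ∀ s ∈ Pd r, S.Sml b θ (k + k') (ψ s) (K s) := fun s hs => ⟨hb1, hθ1, pu s hs,
    (k2 s hs).mono fun X c => le_add_of_nonneg_right (k1'.1 X c), kk⟩
  have s2 : ∀ s ∈ Pd r, S.Sml b θ (k + k') (ψ' s) (K' s) := fun s hs => ⟨hb1, hθ1, pu' s hs,
    (k2' s hs).mono fun X c => le_add_of_nonneg_left (k1.1 X c), kk⟩
  refine ⟨fun s hs => ?_, ?_⟩
  · have d1 : Dir S ((ψ - ψ') s) ((K - K') s) := let ⟨_, a, b⟩ := (D.sz hs).2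
      ⟨_, _, _, (D.sz hs).pu h hω, a, b⟩
    have := pl_sub f ⟨_, _, _, pu s hs, (s1 s hs).km, kk⟩ ⟨_, _, _, pu' s hs, (s2 s hs).km, kk⟩ 1
    simp only [one_smul] at this
    rw [Pi.sub_apply, add_sub_add_right_eq_sub, ← this]
    exact PM.mono (rho'_pos h) (lin_step_c h f (D.sz hs) h1 hω) le_rfl (by gcongr) (by gcongr)
  · obtain ⟨j, j1, j2⟩ := D.2
    obtain ⟨q, q1, q2⟩ := f.K b θ _ hb1 hθ1 b0.le kk
    have a1 := fa_KK f F.pos (F.sl r) (F.sa r) s1 q2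
    have a2 := fa_KK f F.pos (F'.sl r) (F'.sa r) s2 q2
    obtain ⟨ε, he⟩ : ∃ ε, ε = ω * (x + y) * S.g ^ 2 / θ := ⟨_, rfl⟩
    have e0 : 0 < ε := by rw [he]; positivity
    obtain ⟨l, l1, l2⟩ := lip1 h f B kk (d := ε⁻¹ • j) ((j1.smul (inv_pos.2 e0).le).mono (by
      rw [inv_mul_le_iff₀ e0, he, div_mul_cancel₀ _ θ1.ne']; gcongr; linarith))
    have a3 : FA r S.p' S.n ((2 * ε) • l) _ := ⟨F.pos, (a1.sub a2).hol, fun s hs =>
      l2 ε _ _ _ _ e0.le (s2 s hs) (s1 s hs) (pu_mono ((D.sz hs).pu h hω) (by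
        rw [he, div_mul_eq_mul_div, le_div_iff₀ θ1]
        calc _ = S.Q ^ 10 * θ * ((x + y) * S.g ^ 2) := by ring
          _ ≤ ω * b * ((x + y) * S.g ^ 2) := by gcongr
          _ = _ := by ring)) (by rw [smul_inv_smul₀ e0.ne']; exact j2 s hs)⟩
    have l3 := F.loc.step h
    have l4 := F'.loc.step h
    obtain ⟨-, t, t1, t2⟩ := fa_trK a3 (ψ := 0) ⟨fun _ _ _ => Ind.const _ _, fun i X c hX =>
      (l3.act i X c hX).comp₂ (l4.act i X c hX) (· - ·)⟩ (l1.smul (by positivity))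
      (Nat.succ_le_of_lt (Nat.mul_pos (by norm_num) (Nat.pow_pos (Nat.succ_pos _)))) hc hm hk
      zero_le_one (by exact_mod_cast (mul_one c).trans_le hρ) F.pos fun _ => (one_mul _).ge
    refine ⟨t, t1.mono ?_, fun s hs => ?_⟩
    · calc _ = 8 * 2 ^ c / S.Q * (ω * (x + y) * S.g ^ 2) := by
            rw [he, one_add_one_eq_two]; field_simp; ring
        _ ≤ C * (ω' * (x + y) * S.g' ^ 2) := by gcongr; rwa [div_le_iff₀' Q0]
        _ = _ := by ring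
    · have := t2 s hs
      simp only [trK, a1.jA_sub a2, ma, smul_sub, sum_sub_distrib] at this
      exact this

end step

/-- rescaling of the sources -/
def Fy.sc (Y : Fy ι) (γ : ℂ) : Fy ι :=
  ⟨fun s => Y.ψ (γ • s), fun s => Y.K (γ • s), fun s => Y.E (γ • s), Y.Z⟩

/-- change of the tree data -/
def Fy.hy (Y : Fy ι) (φ : Lx) : Fy ι := ⟨fun s => Y.ψ s + φ, Y.K, Y.E, Y.Z⟩

variable {Y Y' : Fy ι}

theorem Fy.sc_jt : (Y.sc γ).jt T = γ ^ T.card • Y.jt T := Prod.ext jL_sc jA_sc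

omit [DecidableEq ι] in
theorem Fy.sc_bs : (Y.sc γ).bs = Y.bs := by simp [Fy.sc, Fy.bs]

theorem Fy.hy_jt (F : Fi p n A W r θ Y.ψ Y.K) (h : a ∈ A) : (Y.hy φ).jt {a} = Y.jt {a} :=
  Prod.ext ((F.jL_add (singleton_subset_iff.2 h)).trans (by simp [Fy.jt])) rfl

namespace Gl

variable {G : Gl} {J i j k : ℕ} {z z' : Z} {f : (ι → ℂ) → Conf → ℂ} {β : ℝ}

theorem fs_sc : G.fs A k z (Y.sc γ) = (G.fs A k z Y).sc γ := by
  simp only [fs, Fy.sc, Fy.mk.injEq, true_and, and_true]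
  funext s
  simp only [trK, ma_scale, ← jA_sc]

theorem fw_sc : ∀ k ≤ i, G.fw A β J (Y.sc γ) i k = (G.fw A β J Y i k).sc γ :=
  dw_ind (by simp only [fw_top]) fun k hk ih => by rw [fw_step hk, fw_step hk, ih, fs_sc]

theorem fw_fw (hj : j ≤ i) : ∀ k ≤ j, G.fw A β J (G.fw A β J Y i j) j k = G.fw A β J Y i k :=
  dw_ind fw_top fun k hk ih => by rw [fw_step hk, fw_step (hk.trans_le hj), ih]

theorem Fd.hy (e : G.Fd k z' A r0 r θ Y f)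
    (h : PM (G.p k) x y w (Y.ψ 0 + ((G.sl k z').Φ 0 - (G.sl k z).Φ 0))) :
    G.Fd k z A r0 r θ (Y.hy ((G.sl k z').Φ 0 - (G.sl k z).Φ 0)) f := by
  refine ⟨e.fi.add h, e.ma, ?_⟩
  have : ∀ s, (G.sl k z).Φ (Y.ψ s + ((G.sl k z').Φ 0 - (G.sl k z).Φ 0)) = (G.sl k z').Φ (Y.ψ s) :=
    fun s => by ext; simp only [Sd.Φ, Pi.add_apply, Pi.sub_apply, Pi.zero_apply]; ring
  simp only [Fy.hy, this]
  exact e.eq

/-- the size of the difference of two families at level `k` -/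
def Df2 (G : Gl) (k : ℕ) (r : ι → ℝ) (x y : ℝ) (Y Y' : Fy ι) : Prop :=
  Sf (G.p k) (G.N k) (G.Q k) (G.g k) r x y (G.Q k ^ 100)⁻¹ (Y.ψ - Y'.ψ) (Y.K - Y'.K)

/-- two families in the large ball with the same supports -/
structure Tw (G : Gl) (k : ℕ) (A : Finset ι) (r : ι → ℝ) (Y Y' : Fy ι) : Prop where
  fi : Fi (G.p (k + 1)) (G.N (k + 1)) A Y.Z r (G.Q (k + 1) ^ 329)⁻¹ Y.ψ Y.K
  fi' : Fi (G.p (k + 1)) (G.N (k + 1)) A Y.Z r (G.Q (k + 1) ^ 329)⁻¹ Y'.ψ Y'.K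
  pu : ∀ s ∈ Pd r, PU (G.p (k + 1)) (G.Q k ^ 210)⁻¹ (Y.ψ s)
  pu' : ∀ s ∈ Pd r, PU (G.p (k + 1)) (G.Q k ^ 210)⁻¹ (Y'.ψ s)

namespace Ok

variable (h : G.Ok)
include h

theorem om_up (k : ℕ) : (G.Q (k + 1) ^ 100)⁻¹ ≤ (G.Q k ^ 100)⁻¹ :=
  inv_anti₀ (pow_pos (h.Q0 k) _) (pow_le_pow_left₀ (h.Q0 k).le (h.Q_mono k.le_succ) _)

theorem om_le (k : ℕ) : G.Q k ^ 100 * (G.Q (k + 1) ^ 100)⁻¹ ≤ 1 :=
  (mul_le_mul_of_nonneg_left (h.om_up k) (pow_pos (h.Q0 k) _).le).trans_eq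
    (mul_inv_cancel₀ (pow_pos (h.Q0 k) _).ne')

omit [DecidableEq ι] in
theorem df_sd (D : G.Df2 (k + 1) r x y Y Y') (z : Z) : Sf (G.sd k z).p (G.sd k z).nf (G.sd k z).QM
    (G.sd k z).g r x y (G.Q (k + 1) ^ 100)⁻¹ (Y.ψ - Y'.ψ) (Y.K - Y'.K) := by
  rw [h.sd_nf]; exact D

/-- one step for the difference -/
theorem dif1 (t : G.Tz J (k + 1) z) (e : G.Tw k A r Y Y') (D : G.Df2 (k + 1) r x y Y Y')
    (h0 : 0 < x + y) (hc : Cls (G.N k) ((c + 2) * (G.p k).D) A cl (G.fs A k z Y).Z)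
    (hk : ∀ a, (A.filter (cl · = a)).card ≤ c) (C1 : (G.sd k z).cr ≤ C) (C2 : 8 * 2 ^ c ≤ G.Q k * C) :
    G.Df2 k r (x + (x + y) / G.Q k ^ 50) (C * (x + y)) (G.fs A k z Y) (G.fs A k z Y') := by
  have nu := (h.sd_all k z).nu
  have q := h.Q0 k
  have a : (G.Q (k + 1) ^ 329)⁻¹ ≤ (G.Q k ^ 329)⁻¹ :=
    inv_anti₀ (by positivity) (pow_le_pow_left₀ q.le (h.Q_mono k.le_succ) _)
  have a1 : (G.Q k ^ 101)⁻¹ ≤ (G.Q (k + 1) ^ 100)⁻¹ :=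
    inv_anti₀ (pow_pos (h.Q0 _) _) (nu.QM_pow' (by norm_num))
  refine ((h.fi_sd e.fi z).dif (h.fi_sd e.fi' z) nu (h.df_sd D z) (h.om_le k) (h.st2 t)
    (h.bl_big k z) (by linarith [inv_pos.2 (pow_pos q 329)]) e.pu e.pu' ?_ ?_ (h.om_up k) hc le_rfl hk
    le_rfl C1 C2 h0 _).mono (h.ρ0 k) (by positivity) (add_le_add le_rfl ?_) le_rfl
  · rw [← one_div, le_div_iff₀' (pow_pos (h.Q0 _) _)]
    exact (mul_le_mul_of_nonneg_right (pow_le_pow_right₀ (h.Q1 _) (by norm_num)) (sqrt_nonneg _)).trans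
      (h.Qsg (k + 1))
  · calc _ = 5 * (G.Q k ^ 319)⁻¹ := by change G.Q k ^ 10 * _ = _; field_simp
      _ ≤ (G.Q k ^ 311)⁻¹ := by
          linarith [h.inv_le k (i := 311) (j := 319) (by norm_num), inv_pos.2 (pow_pos q 319)]
      _ = (G.Q k ^ 101)⁻¹ * (G.Q k ^ 210)⁻¹ := by ring
      _ ≤ _ := by gcongr
  · calc _ ≤ G.Q k ^ 50 * (G.Q k ^ 100)⁻¹ * (x + y) := by
          exact mul_le_mul_of_nonneg_right (mul_le_mul_of_nonneg_left (h.om_up k) (by positivity))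
            h0.le
      _ = _ := by field_simp

theorem fs_E' (u : (G.sd k z).Pu) (F : Fi (G.p (k + 1)) (G.N (k + 1)) A W r θ Y.ψ Y.K)
    (e : Y.E = ma A fun T => jd T Y.E) : (G.fs A k z Y).E = (ma A fun T => jd T (G.fs A k z Y).E) ∧
    ∀ T, jd T (G.fs A k z Y).E = jd T Y.E +
      ∑ v ∈ (G.sd k z).Λ', jd T fun s => (G.sd k z).Ey (Y.ψ s) (Y.K s) v := by
  have a := (h.fi_sd F z).ey (h.sd_all k z).nu u
  have p := F.pos
  refine ⟨?_, fun T => ?_⟩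
  · have : (G.fs A k z Y).E = Jet.ma A (fun T => jd T Y.E + ∑ v ∈ (G.sd k z).Λ', ((G.sd k z).Ey
        (jL T Y.ψ) (jA T Y.K) v - if T = ∅ then 0 else (G.sd k z).Ey 0 0 v)) := funext fun s => by
      simp only [fs, congrFun e s, fun v => congrFun (a v) s, Jet.ma, smul_add,
        sum_add_distrib, smul_sum]
      rw [sum_comm]
    exact this.trans (ma_congr fun T hT => by rw [this, jd_ma _ hT])
  have b : ∀ v, ∃ M, SH r M fun s => (G.sd k z).Ey (Y.ψ s) (Y.K s) v := fun v => a v ▸ hb_ma p _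
  choose M hM using b
  obtain ⟨_, c⟩ : Hb r Y.E := e ▸ hb_ma p _
  rw [← jd_sum p fun v _ => hM v]
  exact jd_add c (SH.sum p fun v _ => hM v) T

/-- the difference of the jets of the free energies -/
theorem dif_E (u : (G.sd k z).Pu) (e : G.Tw k A r Y Y') (D : G.Df2 (k + 1) r x y Y Y')
    (e1 : Y.E = ma A fun T => jd T Y.E) (e2 : Y'.E = ma A fun T => jd T Y'.E) (hT : a ∈ T) :
    ‖jd T (G.fs A k z Y).E - jd T (G.fs A k z Y').E‖ ≤ ‖jd T Y.E - jd T Y'.E‖ +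
      ((G.fs A k z Y).Z a).card * (G.Q k ^ 12 * (x + y) * G.g (k + 1) ^ 2 / ∏ i ∈ T, r i) := by
  rw [(h.fs_E' u e.fi e1).2, (h.fs_E' u e.fi' e2).2, add_sub_add_comm]
  exact norm_add_le_of_le le_rfl ((h.fi_sd e.fi z).ey_dif (h.fi_sd e.fi' z) (h.sd_all k z).nu
    (h.df_sd D z) (h.om_le k) u hT)

variable {z : ℕ → Z} {Y Y' : ℕ → Fy ι} {X V C : ℕ → ℝ}

/-- the difference through many levels: the marginal part drifts or is known -/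
theorem dif_chain (st : ∀ k, j ≤ k → k < i → G.Tz J (k + 1) (z k) ∧
      Y k = G.fs A k (z k) (Y (k + 1)) ∧ Y' k = G.fs A k (z k) (Y' (k + 1)) ∧
      G.Tw k A r (Y (k + 1)) (Y' (k + 1)) ∧ Cls (G.N k) ((c + 2) * (G.p k).D) A cl (Y k).Z)
    (hk : ∀ a, (A.filter (cl · = a)).card ≤ c)
    (nm : ∀ k, j ≤ k → k < i → (G.sd k (z k)).cr ≤ C k ∧ 8 * 2 ^ c ≤ G.Q k * C k ∧
      0 < X (k + 1) + V (k + 1) ∧ C k * (X (k + 1) + V (k + 1)) ≤ V k ∧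
      (X (k + 1) + (X (k + 1) + V (k + 1)) / G.Q k ^ 50 ≤ X k ∨
        ∃ y w, ∀ s ∈ Pd r, PM (G.p k) (X k) y w (((Y k).ψ - (Y' k).ψ) s)))
    (D : G.Df2 i r (X i) (V i) (Y i) (Y' i)) :
    ∀ k ≤ i, j ≤ k → G.Df2 k r (X k) (V k) (Y k) (Y' k) :=
  dw_ind (fun _ => D) fun k hi ih hj => by
    obtain ⟨a1, a2, a3, a4, a5⟩ := st k hj hi
    obtain ⟨b1, b2, b3, b4, b5⟩ := nm k hj hi
    have := h.dif1 a1 a4 (ih (by omega)) b3 (a2 ▸ a5) hk b1 b2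
    rw [← a2, ← a3] at this
    have ω0 := (inv_pos.2 (pow_pos (h.Q0 k) 100)).le
    rcases b5 with b5 | ⟨_, _, b5⟩
    exacts [Sf.mono (h.ρ0 k) ω0 this b5 b4, (Sf.mono (h.ρ0 k) ω0 this le_rfl b4).imp b5]

theorem dif_E_chain (st : ∀ k, j ≤ k → k < i → (G.sd k (z k)).Pu ∧
      Y k = G.fs A k (z k) (Y (k + 1)) ∧ Y' k = G.fs A k (z k) (Y' (k + 1)) ∧
      G.Tw k A r (Y (k + 1)) (Y' (k + 1)) ∧
      G.Df2 (k + 1) r (X (k + 1)) (V (k + 1)) (Y (k + 1)) (Y' (k + 1)))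
    (e1 : (Y i).E = ma A fun T => jd T (Y i).E) (e2 : (Y' i).E = ma A fun T => jd T (Y' i).E)
    (hT : a ∈ T) : ∀ k ≤ i, j ≤ k → ((Y k).E = ma A fun T => jd T (Y k).E) ∧
      ((Y' k).E = ma A fun T => jd T (Y' k).E) ∧
      ‖jd T (Y k).E - jd T (Y' k).E‖ ≤ ‖jd T (Y i).E - jd T (Y' i).E‖ + ∑ l ∈ Ico k i,
        ((Y l).Z a).card * (G.Q l ^ 12 * (X (l + 1) + V (l + 1)) * G.g (l + 1) ^ 2 / ∏ i ∈ T, r i) :=
  dw_ind (fun _ => ⟨e1, e2, by simp⟩) fun k hi ih hj => by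
    obtain ⟨a1, a2, a3, a4, a5⟩ := st k hj hi
    obtain ⟨b1, b2, b3⟩ := ih (by omega)
    have := h.dif_E a1 a4 a5 b1 b2 hT
    rw [← a2, ← a3] at this
    rw [sum_eq_sum_Ico_succ_bot hi]
    exact ⟨a2 ▸ (h.fs_E' a1 a4.fi b1).1, a3 ▸ (h.fs_E' a1 a4.fi' b2).1, by linarith⟩

end Ok

end Gl

end Pool.Agent.Lib.MP_7f377f_mp.RG.Q4.En
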