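import Pool.Agent.Lib.MP_7f377f_mp.JetC
import Pool.Agent.Lib.MP_7f377f_mp.SoftD

/-! Moments from a free energy which is additive over the cells. -/

noncomputable section

namespace Pool.Agent.Lib.MP_7f377f_mp.YM7

open Weak Jet Finset

variable {n : ℕ} [NeZero n] {κ γ : Type} [Fintype κ] [DecidableEq κ] [Fintype γ] [DecidableEq γ]
  {Λ Λ' : (Cfg n → ℝ) → ℝ} {w M M' : ℝ}

/-- the jets without the constant term -/
def ce (E : (κ → ℂ) → ℂ) (T : Finset κ) : ℂ := if T = ∅ then 0 else jd T E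

theorem ma_ce {E : (κ → ℂ) → ℂ} (h : E = ma univ fun T => jd T E) (s : κ → ℂ) :
    ma univ (ce E) s = E s - E 0 := by
  rw [congrFun h s, eq_sub_iff_add_eq, ma, ma, ← add_sum_erase _ _ (empty_mem_powerset _),
    ← add_sum_erase _ _ (empty_mem_powerset _), sum_congr rfl fun T hT => by
      rw [ce, if_neg (ne_of_mem_erase hT)]]
  simp [ce, mon, add_comm]

theorem mom_eqv {F : κ → Src n} {f E z : (κ → ℂ) → ℂ} {r : κ → ℝ}
    (hm : ∀ T, mom Λ F T = jd T f / f 0) (e : Eqv r univ f fun s => Complex.exp (E s) * z s)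
    (h : E = ma univ fun T => jd T E) (T : Finset κ) :
    mom Λ F T = jd T fun s => Complex.exp (ma univ (ce E) s) * (z s / z 0) := by
  rw [hm, e.eq T (subset_univ T), e.zero, div_eq_inv_mul, ← jd_smul]
  refine congrArg _ (funext fun s => ?_)
  simp only [ma_ce h, Complex.exp_sub, Pi.smul_apply, smul_eq_mul]
  ring

theorem red_eqv {F : κ → Src n} {f E z : (κ → ℂ) → ℂ} {r : κ → ℝ}
    (hm : ∀ T, mom Λ F T = jd T f / f 0) (e : Eqv r univ f fun s => Complex.exp (E s) * z s)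
    (h : E = ma univ fun T => jd T E) (z0 : z 0 ≠ 0) (hq : SH (fun _ => w⁻¹) M fun s => z s / z 0) :
    Red Λ F w M (ce E) := ⟨if_pos rfl, _, hq, div_self z0, mom_eqv hm e h⟩

/-- the coefficients in the cell `c` -/
def ct (c : γ) (s : γ × κ → ℂ) (p : γ × κ) : ℂ := if p.1 = c then s p else 0

theorem jd_ct (c : γ) (g : (γ × κ → ℂ) → ℂ) (S : Finset (γ × κ)) :
    jd S (fun s => g (ct c s)) = if ∀ p ∈ S, p.1 = c then jd S g else 0 := by
  have := jd_scale (fun p : γ × κ => if p.1 = c then (1 : ℂ) else 0) g S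
  rw [prod_ite_zero, prod_const_one, ite_mul, one_mul, zero_mul] at this
  convert this with s
  ext p
  simp [ct]

theorem ma_cells {e : Finset (γ × κ) → ℂ} (e0 : e ∅ = 0)
    (hc : ∀ T, ∀ i ∈ T, ∀ j ∈ T, i.1 ≠ j.1 → e T = 0) (s : γ × κ → ℂ) :
    ∑ c, ma univ e (ct c s) = ma univ e s := by
  simp only [ma, mon, ct, prod_ite_zero]
  rw [sum_comm]
  refine sum_congr rfl fun T _ => ?_
  rcases T.eq_empty_or_nonempty with rfl | ⟨i, hi⟩
  · simp [e0]
  · rw [sum_eq_single i.1 (fun c _ k => by rw [if_neg fun a => k (a i hi).symm, zero_smul]) (by simp)]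
    split_ifs with a
    · rfl
    · push Not at a
      obtain ⟨j, hj, a⟩ := a
      simp [hc T j hj i hi a]

omit [Fintype κ] [Fintype γ] in
theorem sh_ct {r : γ × κ → ℝ} {g : (γ × κ → ℂ) → ℂ} (h : SH r M g) (c : γ) :
    SH r M fun s => g (ct c s) := by
  have a : ∀ s ∈ Pd r, ct c s ∈ Pd r := fun s hs p => by
    unfold ct
    split_ifs
    exacts [hs p, h.zero p]
  refine ⟨h.pos, fun s hs p => ?_, fun s hs => h.bd _ (a s hs)⟩
  by_cases e : p.1 = c
  · exact (h.hol _ (a s hs) p).congr fun t _ => congrArg g (funext fun i => by grind [ct])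
  · exact (differentiableOn_const (g (ct c s))).congr fun t _ => congrArg g
      (funext fun i => by grind [ct])

/-- factorisation over the cells -/
theorem gen_abs {F : γ → κ → Src n} {e : Finset (γ × κ) → ℂ} {q z : (γ × κ → ℂ) → ℂ}
    (e0 : e ∅ = 0) (hc : ∀ T, ∀ i ∈ T, ∀ j ∈ T, i.1 ≠ j.1 → e T = 0)
    (h1 : ∀ T, mom Λ (fun p : γ × κ => F p.1 p.2) T =
      jd T fun s => Complex.exp (ma univ e s) * q s)
    (h2 : ∀ T, mom Λ' (fun p : γ × κ => F p.1 p.2) T =
      jd T fun s => Complex.exp (ma univ e s) * z s)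
    (hq : SH (fun _ => w) M q) (hz : Hb (fun _ => w) z)
    (hz' : ∀ c, ∃ y, SH (fun _ => w) M' y ∧ ∀ s ∈ Pd fun _ => w, y s * z (ct c s) = 1) :
    ∃ g, SH (fun _ => w) (M * M' ^ Fintype.card γ) g ∧ ∀ B, mom Λ (fun p : γ × κ => F p.1 p.2) B =
      jd B fun s => g s * ∏ c, ma univ (mom Λ' (F c)) fun i => s (c, i) := by
  choose y y1 y2 using hz'
  obtain ⟨_, hz⟩ := hz
  have hg := hq.mul (SH.prod hq.pos (X := univ) fun c _ => y1 c)
  rw [prod_const, card_univ] at hg
  refine ⟨_, hg, fun B => ?_⟩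
  have a : ∀ c, Eqv (fun _ => w) univ (fun s => Complex.exp (ma univ e (ct c s)) * z (ct c s))
      fun s : γ × κ → ℂ => ma univ (mom Λ' (F c)) fun i => s (c, i) := fun c => by
    have b := sh_ct ((sh_ma hq.pos univ e).exp.mul hz) c
    have b' := sh_ma (r := fun _ => w) (fun i => hq.pos (c, i)) univ (mom Λ' (F c))
    refine ⟨⟨_, b⟩, ⟨_, b'.cell c⟩, fun S _ => ?_⟩
    have k := jd_ct c (fun s : γ × κ → ℂ => ma univ (mom Λ' (F c)) fun i => s (c, i)) S
    simp only [ct, if_true] at k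
    rw [k, jd_ct c fun s => Complex.exp (ma univ e s) * z s]
    split_ifs with u
    · obtain ⟨T, rfl⟩ : ∃ T : Finset κ, S = T.image (Prod.mk c) :=
        ⟨S.image Prod.snd, by ext ⟨c', i⟩; simp; grind⟩
      rw [← h2]
      refine Eq.trans ?_ (jd_relabel (Prod.mk_right_injective c) b' (b'.cell c) T).symm
      simp only [jd_ma _ (subset_univ T), mom, prod_image (Prod.mk_right_injective c).injOn]
    · rfl
  rw [h1, ← ((Hb.refl ⟨_, hg⟩).mul (Eqv.prod hq.pos fun c _ => a c)).eq B (subset_univ B)]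
  refine jd_congr hq.pos (fun s hs => ?_) B
  simp only [Pi.mul_apply, prod_mul_distrib, ← Complex.exp_sum, ma_cells e0 hc]
  have := prod_congr rfl fun c (_ : c ∈ univ) => y2 c s hs
  rw [prod_mul_distrib, prod_const_one] at this
  linear_combination -(Complex.exp (ma univ e s) * q s) * this

end Pool.Agent.Lib.MP_7f377f_mp.YM7
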