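import Pool.Agent.Lib.MP_7f377f_mp.Q5TanD
import Pool.Agent.Lib.MP_7f377f_mp.Q4Real

/-! The flux lemma without symmetry. -/

noncomputable section

namespace Pool.Agent.Lib.MP_7f377f_mp.RG.Q4.En

open Finset Real La La.Q Sd

variable {S : Sd} {v e xb xk xr θ η P : ℝ} {n : ℕ} {ψ : Lx} {K : Ac} {k : Mj} {F : Mt}
  {f : Conf → ℂ}

theorem rep_im {p : Pa} {Φ : Lx} {U : Conf} (r : RealA K) (hU : Per n U)
    (hχ : ∀ x, Fq (p.R + 1) p.ε (sh x U)) {z : St → ℝ} (hz : ∀ x, Φ x (Bx x (cC U)) = z x) :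
    (Rep p n Φ K U).im = 0 := by
  rw [rep_fac hU hχ hz]
  exact Im.mul (Complex.ofReal_im _) (Im.sum fun _ _ => Im.mul (Im.prod fun _ _ =>
    Im.sum fun _ _ => Im.mul (Im.mul (r _ _ _) (Complex.ofReal_im _)) (Im.prod fun _ _ =>
      Complex.one_im)) (Im.prod fun _ _ => Complex.one_im))

theorem m0_pt (hF : As F) : m0 (pt F) (pt F) = 2⁻¹ * ∑ μ, ∑ ν, F μ ν ^ 2 := by
  simp only [Li.m0_apply, dd_pt hF, sq]

theorem m0_pM (hF : As F) (σ : Equiv.Perm (Fin 4)) :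
    m0 (pt (pM σ F)) (pt (pM σ F)) = m0 (pt F) (pt F) := by
  rw [m0_pt hF, m0_pt (hF.pM σ), ← Equiv.sum_comp σ fun μ => ∑ ν, F μ ν ^ 2]
  exact congrArg _ (sum_congr rfl fun μ _ => Equiv.sum_comp σ fun ν => F (σ μ) ν ^ 2)

theorem m0_rM (hF : As F) (j : Fin 4) : m0 (pt (rM j F)) (pt (rM j F)) = m0 (pt F) (pt F) := by
  rw [m0_pt hF, m0_pt (hF.rM j)]
  refine congrArg _ (sum_congr rfl fun μ _ => sum_congr rfl fun ν _ => ?_)
  simp only [rM, sg]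
  split_ifs <;> simp

namespace LF

variable (h : LF S v e) (hψ : PM S.p xb xk xr ψ) (hK : KM S.p S.nf k K) (h0 : kN S.p S.nf k θ)
  (r : Re S.p S.nf ψ K) (p : Rp S ψ K f) (hx : (xb + xk) * S.g ^ 2 ≤ 1) (hr : xr ≤ 1)
  (hθ : 2 * S.Q * θ ≤ 1) (P1 : S.Q ≤ P) (P2 : P ^ 2 ≤ S.β)
  (hη : S.Q ^ 2 / P ^ 2 + xr / (S.Q ^ 9 * S.g ^ 2) + 2 * P ^ 2 * θ / S.g ^ 2 ≤ η)
include h hψ hK h0 r p hx hr hθ P1 P2 hη

/-- the density on flux fields -/
theorem flux0 : ∃ c, ∀ F ϑ, As F → ‖F‖ ≤ 2 * tq S.nf (S.g / P) → Fx S.nf F ϑ →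
    ((f (ab ϑ)).im = 0 ∧ 0 < (f (ab ϑ)).re) ∧ |log (f (ab ϑ)).re - c + S.nf ^ 4 *
      (S.β * S.m (pt F) (pt F) + (qc (ψ 0) (pt F) (pt F)).re)| ≤
        η * tq S.nf (S.g / P) ^ 2 * S.nf ^ 4 := by
  obtain ⟨t0, t1, t2, t3⟩ := h.tq_bd P1 P2
  obtain ⟨κ, κ0, p⟩ := p
  obtain ⟨x0, x1, x2⟩ := (hψ 0).1.nonneg h.nu.p_ok.1.ρ0
  have o := h.nu.ok.odd_nf
  have θ0 := h0.nonneg
  have P0 := S.Q0.trans_le P1
  have Q0 := S.Q0
  have g0 := h.nu.ok.g0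
  have b0 := h.nu.ok.β0
  have q := h.nu.cQ' (C := 1000) (by norm_num)
  refine ⟨log κ, fun F ϑ hF hd hϑ => ?_⟩
  have v := h.val hψ r.1 hF hd (by linarith) t3 0
  have c : ∀ x, S.Φ ψ x (Bx x (cC (ab ϑ))) = (S.Φ ψ 0 (Ho.em 0 (tF F))).re := fun x => by
    rw [hϑ.bx hF, show S.Φ ψ x = S.Φ ψ 0 by unfold Sd.Φ; rw [TCov.cx o r.2.2 x]]
    exact Complex.ext rfl v.1
  obtain ⟨b1, b2⟩ := rep_log (Φ := S.Φ ψ) h.pg1.1 o hK r.2.1 h0 (le_trans (by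
    rw [inv_eq_one_div, le_div_iff₀ Q0]; linarith) h.pg1.2) hϑ.per (h.chi hϑ hd t3) c
    fun _ => h.val1 hψ r.1 hx hr hF hd (by linarith) t3 0
  rw [sum_const, nsmul_eq_mul, card_dom o] at b2
  rw [p _ hϑ.per, Complex.re_ofReal_mul, log_mul κ0.ne' b1.ne', add_sub_cancel_left]
  refine ⟨⟨Im.mul (Complex.ofReal_im _) (rep_im r.2.1 hϑ.per (h.chi hϑ hd t3) c),
    mul_pos κ0 b1⟩, ?_⟩
  have v2 := v.2
  have n0 : (0 : ℝ) ≤ S.nf ^ 4 := by positivity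
  generalize tq S.nf (S.g / P) = t at *
  have w1 : (S.β + xb + xk) * S.Q * (2 * t) ^ 4 ≤ S.Q ^ 2 / P ^ 2 * t ^ 2 := by
    rw [div_mul_eq_mul_div, le_div_iff₀ (by positivity)]
    have : (P * t) ^ 2 ≤ (2 * S.g) ^ 2 := by gcongr
    have : (S.β + xb + xk) * (P * t) ^ 2 ≤ 8 := by
      nlinarith [mul_le_mul_of_nonneg_left this (show 0 ≤ S.β + xb + xk by positivity),
        h.nu.ok.βg]
    nlinarith [mul_le_mul_of_nonneg_right this (show 0 ≤ S.Q * t ^ 2 by positivity),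
      mul_le_mul_of_nonneg_right q (show 0 ≤ S.Q * t ^ 2 by positivity)]
  have w2 : xr * (2 * (2 * t) / S.p.ρ) ^ 3 ≤ xr / (S.Q ^ 9 * S.g ^ 2) * t ^ 2 := by
    rw [h.ρ, show xr * (2 * (2 * t) / (S.Q ^ 3 * S.g)) ^ 3 =
      xr / (S.Q ^ 9 * S.g ^ 2) * t ^ 2 * (64 * t / S.g) by field_simp; norm_num]
    exact mul_le_of_le_one_right (by positivity) ((div_le_one g0).2 (by nlinarith))
  have w3 : 2 * θ ≤ 2 * P ^ 2 * θ / S.g ^ 2 * t ^ 2 := by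
    rw [div_mul_eq_mul_div, le_div_iff₀ (by positivity)]
    have : S.g ^ 2 ≤ (P * t) ^ 2 := by gcongr
    nlinarith [mul_le_mul_of_nonneg_right this θ0]
  have w4 := mul_le_mul_of_nonneg_right hη (sq_nonneg t)
  have w5 := mul_le_mul_of_nonneg_right (v2.trans
    (show _ ≤ η * t ^ 2 - 2 * θ by linarith only [w1, w2, w3, w4])) n0
  rw [← abs_of_nonneg n0, ← abs_mul, abs_of_nonneg n0, abs_le] at w5
  rw [abs_le] at b2
  exact abs_le.2 ⟨by linarith only [b2.1, w5.1, w5.2, mul_nonneg θ0 n0],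
    by linarith only [b2.2, w5.1, w5.2, mul_nonneg θ0 n0]⟩

/-- positivity, the measured coupling and approximate isotropy -/
theorem flux2 : (∀ ϑ, Fw S.nf (S.g / P) ϑ → (f (ab ϑ)).im = 0 ∧ 0 < (f (ab ϑ)).re) ∧
    |bh S.nf (S.g / P) f - (S.β * v + (qc (ψ 0) En.e1 En.e1).re)| ≤ 3 * η ∧
      Asy S.nf (S.g / P) (10 * η + 8 * xb) fun U => log (f U).re := by
  obtain ⟨c, H⟩ := h.flux0 hψ hK h0 r p hx hr hθ P1 P2 hη
  have t0 := (h.tq_bd P1 P2).1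
  obtain ⟨x0, x1, x2⟩ := (hψ 0).1.nonneg h.nu.p_ok.1.ρ0
  have θ0 := h0.nonneg
  have P0 := S.Q0.trans_le P1
  have Q0 := S.Q0
  have q := h.nu.cQ' (C := 1000) (by norm_num)
  have g1 : 64 * S.g ^ 2 ≤ S.Q ^ 2 / P ^ 2 := by
    rw [le_div_iff₀ (by positivity)]
    nlinarith [mul_le_mul_of_nonneg_right P2 (sq_nonneg S.g), h.nu.ok.βg]
  have g2 : 64 * S.g ^ 2 ≤ η := g1.trans (le_trans (by
    rw [add_assoc]; exact le_add_of_nonneg_right (by positivity)) hη)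
  have f0 := fx_fl h.n0 (S.g / P)
  have n0 : (0 : ℝ) < S.nf ^ 4 := by have := h.n0; positivity
  refine ⟨fun ϑ ⟨F, a1, a2, a3⟩ => (H F ϑ a1 a2 a3).1, ?_, fun ϑ ⟨F, a1, a2, a3⟩ => ?_⟩
  · obtain ⟨k0, -, k2, -⟩ := (hψ 0).1.elim
    have a1 := (H 0 0 (fun _ _ => by simp) (by simpa using t0.le) fx_zero).2
    have a2 := (H _ _ ((as_EE _).smul _) (by
      rw [norm_smul, norm_of_nonneg t0.le]
      nlinarith [norm_EE (0, 1)]) f0).2
    have a3 := abs_le.1 (h.cd cv_e1 cv_e1)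
    rw [qc, k2, cc_eq (by first | exact (as_EE _).smul _ | exact fun _ _ => by simp)] at a1 a2
    rw [cc_e1, m0_e1] at a3
    rw [qc, k2, cc_e1, bh]
    simp only [map_zero, map_smul, LinearMap.smul_apply, smul_eq_mul, Complex.smul_re,
      Complex.zero_re, ← En.e1.eq_1] at a1 a2
    generalize tq S.nf (S.g / P) = t at *
    have n1 : (0 : ℝ) < S.nf ^ 4 * t ^ 2 := by positivity
    rw [abs_le] at a1 a2
    rw [abs_le, le_sub_iff_add_le, le_div_iff₀ n1, sub_le_iff_le_add, div_le_iff₀ n1]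
    constructor <;> linarith only [a1.1, a1.2, a2.1, a2.2, mul_le_mul_of_nonneg_right
      (show S.β * S.m En.e1 En.e1 - S.β * v ≤ η by linarith only [a3.2, g2]) n1.le,
      mul_le_mul_of_nonneg_right (show S.β * v - S.β * S.m En.e1 En.e1 ≤ η by
        linarith only [a3.1, g2]) n1.le]
  · generalize tq S.nf (S.g / P) = t at *
    have key : ∀ F ϑ, As F → ‖F‖ ≤ 2 * t → Fx S.nf F ϑ → |log (f (ab ϑ)).re - c + S.nf ^ 4 *
        (S.β * v * m0 (pt F) (pt F))| ≤ (5 * η + 4 * xb) * t ^ 2 * S.nf ^ 4 := fun F ϑ b1 b2 b3 => by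
      have c1 := (cv_pt b1 0).mono le_rfl b2
      have c2 := h.cd c1 c1
      have c3 := abs_le.1 ((Complex.abs_re_le_norm _).trans ((hψ 0).1.cb _ _ _ _ c1 c1))
      have c4 := abs_le.1 (H F ϑ b1 b2 b3).2
      have c5 := mul_le_mul_of_nonneg_right g2 (sq_nonneg t)
      rw [cc_eq b1, abs_le] at c2
      rw [abs_le]
      constructor <;> linarith only [c4.1, c4.2, mul_le_mul_of_nonneg_left (show
        S.β * S.m (pt F) (pt F) + (qc (ψ 0) (pt F) (pt F)).re - S.β * v * m0 (pt F) (pt F) ≤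
          (4 * η + 4 * xb) * t ^ 2 by linarith only [c2.2, c3.2, c5]) n0.le,
        mul_le_mul_of_nonneg_left (show S.β * v * m0 (pt F) (pt F) - (S.β * S.m (pt F) (pt F) +
          (qc (ψ 0) (pt F) (pt F)).re) ≤ (4 * η + 4 * xb) * t ^ 2 by
            linarith only [c2.1, c3.1, c5]) n0.le]
    have k0 := abs_le.1 (key F ϑ a1 a2 a3)
    refine ⟨fun σ => ?_, fun j => ?_⟩
    · have k1 := abs_le.1 (key _ _ (a1.pM σ) ((norm_pM σ).trans a2) (a3.pm σ))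
      rw [m0_pM a1] at k1
      exact abs_le.2 ⟨by linarith, by linarith⟩
    · have k1 := abs_le.1 (key _ _ (a1.rM j) ((norm_rM j).trans a2) (a3.rf j))
      rw [m0_rM a1] at k1
      exact abs_le.2 ⟨by linarith, by linarith⟩

end LF

end Pool.Agent.Lib.MP_7f377f_mp.RG.Q4.En
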