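import Pool.Agent.Lib.MP_7f377f_mp.Q5TanF
import Pool.Agent.Lib.MP_7f377f_mp.Q5TanR
import Pool.Agent.Lib.MP_7f377f_mp.Q5DifC
import Pool.Agent.Lib.MP_7f377f_mp.Q5Sch

/-! Tangent flows along a tuned run. -/

noncomputable section

namespace Pool.Agent.Lib.MP_7f377f_mp.RG.Q4.En

open Finset Real Sg

theorem lg_sub (f f' g' : Conf → ℂ) (α : ℝ) :
    lg f (fun U => f' U - α * g' U) = fun U => lg f f' U - α * lg f g' U := funext fun U => by
  simp only [lg, sub_div, mul_div_assoc, Complex.sub_re, Complex.re_ofReal_mul]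

theorem gm_sub (n : ℕ) (x : ℝ) (f f' g' : Conf → ℂ) (α : ℝ) :
    gm n x f (fun U => f' U - α * g' U) = gm n x f f' - α * gm n x f g' := by
  simp only [gm, lg_sub]; ring

namespace Gl

variable {G : Gl} {b x y x' y' ω P D : ℝ} {J i j k : ℕ} {z : Z} {c d : Lx × Ac} {f f' g' : Conf → ℂ}

theorem tt_tt (hi : i ≤ J) : ∀ k ≤ i, G.tt (G.tt f J i) i k = G.tt f J k :=
  dw_ind (tt_top ..) fun k hk ih => by rw [tt_step _ hk, ih, ← tt_step _ (hk.trans_le hi)]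

theorem tt_sub (h1 : BC f') (h2 : BC g') (α : ℂ) (hk : k ≤ i) :
    G.tt (fun U => f' U - α * g' U) i k = fun U => G.tt f' i k U - α * G.tt g' i k U := by
  simp only [sub_eq_add_neg, ← neg_mul]
  rw [tt_add h1 (h2.cm _) hk, tt_mul _ _ hk]

theorem df_bc (hk : k ≤ J) : BC (G.df b J k) := by
  have h2 : Continuous (wil b (G.N J)) := ((Mx.cont_wact _).const_mul b).neg.rexp
  have h1 : Continuous (Pos.sO (G.N J) 1) := by
    have := Mx.cont_fq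
    unfold Pos.sO
    fun_prop
  have : Continuous fun U => -Pos.sO (G.N J) 1 U * (wil b (G.N J) U : ℝ) :=
    h1.neg.mul (Complex.continuous_ofReal.comp h2)
  exact tt_bc ⟨this.measurable, (isCompact_univ.exists_bound_of_continuousOn
    this.continuousOn).imp fun _ h U => h U trivial⟩ hk

/-- a direction along the run from level `J` -/
abbrev Tr (G : Gl) (b : ℝ) (J k : ℕ) (x y : ℝ) (d : Lx × Ac) (f' : Conf → ℂ) : Prop :=
  G.Tn k (G.zz b J k) (G.zz b J k).d (G.f b J k) x y √(G.g k) d f'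

/-- the precision of the flux lemma -/
def ep (G : Gl) (k : ℕ) : ℝ := G.Q k ^ 501 * √(G.g k)

namespace Ok

variable (h : G.Ok)
include h

theorem ep0 (k : ℕ) : 0 ≤ G.ep k := mul_nonneg (pow_pos (h.Q0 k) _).le (sqrt_nonneg _)

theorem ep_le (k : ℕ) {i : ℕ} (hi : i < 499) : 1000 * (G.Q k ^ i * G.ep k) ≤ 1 := by
  rw [ep, ← mul_assoc, ← mul_assoc, mul_assoc 1000, ← pow_add]
  exact (mul_le_mul_of_nonneg_right (h.qpw k (by omega)) (sqrt_nonneg _)).trans (h.Qsg k)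

theorem sg_ep (k : ℕ) : G.Q k ^ 50 * √(G.g (k + 1)) ≤ G.ep k :=
  mul_le_mul (pow_le_pow_right₀ (h.Q1 k) (by norm_num)) (sqrt_le_sqrt (h.g_succ k)) (sqrt_nonneg _)
    (pow_pos (h.Q0 k) _).le

theorem tn_nn (a : G.Tn k z c f x y ω d f') : 0 ≤ x ∧ 0 ≤ y :=
  have := (a.sz.1 0).1.nonneg (h.ρ0 k)
  ⟨this.1, (mul_nonneg_iff_of_pos_left (pow_pos (h.Q0 k) 2)).1 this.2.1⟩

theorem tn_mono (a : G.Tn k z c f x y ω d f') (h0 : 0 ≤ ω) (h1 : x ≤ x') (h2 : y ≤ y') :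
    G.Tn k z c f x' y' ω d f' := ⟨h.sz_up a.sz h0 h1 h2, a.re, a.rt⟩

theorem tn_nb (a : G.Tn k z c f x y ω d f') : G.Tn k z c f (nb (d.1 0)) y ω d f' :=
  ⟨⟨pm_nb (h.ρ0 k) a.sz.1 (TCov.cx (h.N_odd k) a.re.2.2) le_rfl le_rfl, a.sz.2⟩, a.re, a.rt⟩

variable (A : G.Tu b J)
include A

theorem tr_fd (hk : k ≤ J) (a : G.Tr b J k x y d f') (P1 : G.Q k ^ 14 ≤ P) (P2 : P ≤ G.Q k ^ 250) :
    |gm (G.N k) (G.g k / P) (G.f b J k) f' - (qc (d.1 0) e1 e1).re| ≤ G.ep k / 1000 * (x + y) ∧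
      ∀ D, Asy (G.N k) (G.g k / P) D (lg (G.f b J k) f') → ∀ a a' δ δ', Cv 0 δ a → Cv 0 δ' a' →
        ‖qc (d.1 0) a a' - ((qc (d.1 0) e1 e1).re * m0 a a' : ℝ)‖ ≤
          64 * (G.ep k / 1000 * (x + y) + D) * δ * δ' := by
  have g := A.gd k hk
  have Q0 := h.Q0 k
  obtain ⟨x0, y0⟩ := h.tn_nn a
  have P3 : P ^ 2 ≤ G.Q k ^ 500 := (pow_le_pow_left₀ ((pow_pos Q0 _).le.trans P1) P2 2).trans_eq (by ring)
  have e : 10 * P ^ 2 * √(G.g k) * (x + y) ≤ G.ep k / 1000 * (x + y) := by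
    rw [ep, pow_succ, mul_div_right_comm]
    gcongr
    nlinarith only [P3, h.cQ k (C := 10000) (by norm_num), pow_pos Q0 500]
  have := (h.lf g.tz).fd (b := (G.zz b J k).d) (P := P) (h.sz_sl g.dt.sz _)
    (TCov.cx (h.N_odd k) g.dt.re.2.2) (h.sz_sl a.sz _) (h.re_sl a.re _) a.rt
    (fun e => (((h.f_facts J k).1 b A.b0).2.2 (ab 0)).2.ne' (congrArg _ e))
    (h.u_g k (by linarith [h.u_one k])) le_rfl le_rfl
    ((mul_le_mul_of_nonneg_right (pow_le_pow_right₀ (h.Q1 k) (by norm_num))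
      (sqrt_nonneg _)).trans (h.Qsg k)) P1
    (P3.trans (by linarith [h.Qbb k (i := 500) (by norm_num), pow_pos Q0 500] : _ ≤ G.bb k))
  rw [h.sl_nf] at this
  refine ⟨this.1.trans e, fun D hD a a' δ δ' h1 h2 => (this.2 D hD a a' δ δ' h1 h2).trans ?_⟩
  have := h1.nonneg
  have := h2.nonneg
  gcongr

/-- the marginal part is slaved to the variation of the measured coupling -/
theorem tr_nb (hk : k ≤ J) (a : G.Tr b J k x y d f')
    (hD : Asy (G.N k) (G.fx k) D (lg (G.f b J k) f')) : nb (d.1 0) ≤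
      512 * |gm (G.N k) (G.fx k) (G.f b J k) f'| + 5 * G.ep k * (x + y) + 4096 * D := by
  obtain ⟨a1, a2⟩ := h.tr_fd A hk a (pow_le_pow_right₀ (h.Q1 k) (by norm_num)) le_rfl
  obtain ⟨x0, y0⟩ := h.tn_nn a
  have := mul_nonneg (h.ep0 k) (add_nonneg x0 y0)
  have := (abs_sub_abs_le_abs_sub _ _).trans ((abs_sub_comm _ _).trans_le a1)
  refine (nb_le (C := 8 * |(qc (d.1 0) e1 e1).re| + 64 * (G.ep k / 1000 * (x + y) + D))
    fun s s' δ δ' h1 h2 => ?_).trans (by unfold fx; linarith)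
  have c := mul_le_mul_of_nonneg_left (m0_le h1 h2) (abs_nonneg (qc (d.1 0) e1 e1).re)
  rw [← abs_mul, ← norm_eq_abs, ← Complex.norm_real] at c
  linarith [norm_sub_norm_le (qc (d.1 0) s s') (((qc (d.1 0) e1 e1).re * m0 s s' : ℝ) : ℂ),
    a2 D hD s s' δ δ' h1 h2]

variable (hp : G.Pu)
include hp

theorem tr_step (hk : k < J) (a : G.Tr b J (k + 1) x y d f') (h0 : 0 < x + y) :
    G.Tr b J k (x + G.Q k ^ 50 * √(G.g (k + 1)) * (x + y)) (G.cr k * (x + y))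
      (G.ts k (G.zz b J (k + 1)) (G.zz b J (k + 1)).d d) (TT (G.l k) (G.a k) (G.N k) f') ∧
    ∀ a a' δ δ', Cv 0 δ a → Cv 0 δ' a' →
      ‖qc ((G.ts k (G.zz b J (k + 1)) (G.zz b J (k + 1)).d d).1 0) a a' - qc (d.1 0) a a'‖ ≤
        G.Q k ^ 50 * √(G.g (k + 1)) * (x + y) * δ * δ' := by
  have g := A.gd (k + 1) hk
  have := h.tn_step hp g.tz hk ((A.v _ hk).trans (inv_anti₀ (by norm_num) ((h.cQ _ (by norm_num)).trans
    (le_self_pow₀ (h.Q1 _) (by norm_num))))) (A.lam k hk).1 g.dt.re (h.gd_tg g).2.1 a h0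
    (h.gd_tg g).2.2
  rw [Tr, zz_step b hk, h.f_step b hk]
  exact this

/-- the two sided system of a tangent flow -/
theorem tr_sys (hi : i ≤ J) (a : G.Tr b J i x y d f') (y0 : 0 < y) : ∃ w : ℕ → ℝ, w i = y ∧
    (∀ j ≤ i, 0 < w j ∧ G.Tr b J j (nb ((G.tc b J i d j).1 0)) (w j) (G.tc b J i d j) (G.tt f' i j)) ∧
    ∀ j < i, w j = G.cr j * (nb ((G.tc b J i d (j + 1)).1 0) + w (j + 1)) ∧
      ∀ a a' δ δ', Cv 0 δ a → Cv 0 δ' a' →
        ‖qc ((G.tc b J i d j).1 0) a a' - qc ((G.tc b J i d (j + 1)).1 0) a a'‖ ≤ G.Q j ^ 50 *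
          √(G.g (j + 1)) * (nb ((G.tc b J i d (j + 1)).1 0) + w (j + 1)) * δ * δ' := by
  obtain ⟨w, hw⟩ : ∃ w, w = dw (fun j w => G.cr j * (nb ((G.tc b J i d (j + 1)).1 0) + w)) y i :=
    ⟨_, rfl⟩
  have ws : ∀ j < i, w j = G.cr j * (nb ((G.tc b J i d (j + 1)).1 0) + w (j + 1)) := fun j hj => by
    rw [hw, dw_step _ _ hj]
  have wt : w i = y := by rw [hw, dw_top]
  have H : ∀ j ≤ i, 0 < w j ∧
      G.Tr b J j (nb ((G.tc b J i d j).1 0)) (w j) (G.tc b J i d j) (G.tt f' i j) :=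
    dw_ind (by rw [wt, tc_top, tt_top]; exact ⟨y0, h.tn_nb a⟩) fun j hj ih => by
      have p := add_pos_of_nonneg_of_pos (nb_nonneg ((G.tc b J i d (j + 1)).1 0)) ih.1
      rw [ws j hj, tc_step _ hj, tt_step _ hj]
      exact ⟨mul_pos (h.cr0 j) p, h.tn_nb (h.tr_step A hp (hj.trans_le hi) ih.2 p).1⟩
  refine ⟨w, wt, H, fun j hj => ⟨ws j hj, ?_⟩⟩
  rw [tc_step _ hj]
  exact (h.tr_step A hp (hj.trans_le hi) (H _ hj).2
    (add_pos_of_nonneg_of_pos (nb_nonneg _) (H _ hj).1)).2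

/-- short tangent flows -/
theorem tr_short (hi : i ≤ J) (a : G.Tr b J i x x d f') (x0 : 0 < x) (hl : i ≤ k + G.L k) :
    ∀ j ≤ i, k ≤ j → G.Tr b J j (2 * x) (2 * x) (G.tc b J i d j) (G.tt f' i j) ∧
      ‖qc ((G.tc b J i d j).1 0) e1 e1 - qc (d.1 0) e1 e1‖ ≤ x / G.Q k ^ 400 := by
  have Q0 := h.Q0 k
  have L1 := h.L1 k
  obtain ⟨ε, e0, e1, e2⟩ : ∃ ε : ℝ, 0 < ε ∧ G.L k * ε ≤ (G.Q k ^ 400)⁻¹ ∧
      ∀ j, k ≤ j → 4 * (G.Q j ^ 50 * √(G.g (j + 1))) ≤ ε := by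
    refine ⟨(G.Q k ^ 401)⁻¹, by positivity, ?_, fun j hj => ?_⟩
    · rw [pow_succ', mul_inv, ← mul_assoc]
      exact mul_le_of_le_one_left (by positivity) (mul_inv_le_one_of_le₀ (h.LQ k) Q0.le)
    · rw [inv_eq_one_div, le_div_iff₀' (by positivity)]
      have := mul_le_mul (pow_le_pow_left₀ Q0.le (h.Q_mono hj) 401) (h.sg_ep j)
        (mul_nonneg (pow_pos (h.Q0 j) _).le (sqrt_nonneg _)) (pow_pos (h.Q0 j) _).le
      linarith [h.ep_le j (i := 401) (by norm_num), mul_nonneg (pow_pos (h.Q0 j) 401).le (h.ep0 j)]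
  have q : (G.Q k ^ 400)⁻¹ ≤ 1 := inv_le_one_of_one_le₀ (one_le_pow₀ (h.Q1 k))
  have w : ∀ j, k ≤ j → ((i - j : ℕ) : ℝ) * ε ≤ (G.Q k ^ 400)⁻¹ := fun j hj =>
    (mul_le_mul_of_nonneg_right (by exact_mod_cast (by omega : i - j ≤ G.L k)) e0.le).trans e1
  have H : ∀ j ≤ i, k ≤ j → G.Tr b J j ((1 + (i - j : ℕ) * ε) * x) ((1 + (i - j : ℕ) * ε) * x)
      (G.tc b J i d j) (G.tt f' i j) ∧
      ‖qc ((G.tc b J i d j).1 0) En.e1 En.e1 - qc (d.1 0) En.e1 En.e1‖ ≤ (i - j : ℕ) * ε * x :=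
    dw_ind (fun _ => by simpa [tc_top, tt_top] using a) fun j hj ih hk => by
      obtain ⟨a1, a2⟩ := ih (by omega)
      have w1 := (w (j + 1) (by omega)).trans q
      have w0 : 0 ≤ ((i - (j + 1) : ℕ) : ℝ) * ε := by positivity
      obtain ⟨b1, b2⟩ := h.tr_step A hp (hj.trans_le hi) a1 (by positivity)
      rw [← tc_step _ hj] at b1 b2
      rw [← tt_step _ hj] at b1
      have b3 := b2 _ _ _ _ cv_e1 cv_e1
      rw [show i - j = i - (j + 1) + 1 by omega, Nat.cast_succ]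
      generalize ((i - (j + 1) : ℕ) : ℝ) = s at *
      have u : G.Q j ^ 50 * √(G.g (j + 1)) * ((1 + s * ε) * x + (1 + s * ε) * x) ≤ ε * x := by
        nlinarith only [mul_le_mul (e2 j hk) (show (1 + s * ε) * x ≤ 2 * x by gcongr; linarith)
          (by positivity) e0.le]
      refine ⟨h.tn_mono b1 (sqrt_nonneg _) (by linarith only [u]) ?_, ?_⟩
      · nlinarith only [h.cr1 j, mul_pos e0 x0, mul_nonneg w0 x0.le, x0]
      · linarith only [norm_sub_le_norm_sub_add_norm_sub (qc ((G.tc b J i d j).1 0) En.e1 En.e1)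
          (qc ((G.tc b J i d (j + 1)).1 0) En.e1 En.e1) (qc (d.1 0) En.e1 En.e1), a2, b3, u]
  intro j hj hk
  have u := mul_le_mul_of_nonneg_right (w j hk) x0.le
  have u' := mul_le_mul_of_nonneg_right q x0.le
  exact ⟨h.tn_mono (H j hj hk).1 (sqrt_nonneg _) (by linarith) (by linarith),
    (H j hj hk).2.trans (u.trans_eq (by ring))⟩

end Ok

end Gl

end Pool.Agent.Lib.MP_7f377f_mp.RG.Q4.En
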