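import Pool.Agent.Lib.MP_7f377f_mp.Q5TanD
import Pool.Agent.Lib.MP_7f377f_mp.Q5Sch

/-! The marginal direction with a complex coefficient. -/

noncomputable section

namespace Pool.Agent.Lib.MP_7f377f_mp.RG.Q4.En

open Finset Real Sd

section

variable {p : Pa} {n : ℕ} {b θ : ℝ} {Φ : Lx} {K : Ac} {k : Mj} {U : Conf}

/-- two sided bound for complex data at a field with small curvature -/
theorem rep_cx (h : Pg p b) (hn : Odd n) (hK : KM p n k K) (h0 : kN p n k θ) (hθ : 2 * θ ≤ ee p)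
    (hU : Per n U) (hχ : ∀ x, Fq (p.R + 1) p.ε (sh x U)) (hb : ∀ x, ‖Φ x (Bx x (cC U))‖ ≤ b) :
    exp (-((b + 1) * n ^ 4)) ≤ ‖Rep p n Φ K U‖ ∧ ‖Rep p n Φ K U‖ ≤ exp ((b + 1) * n ^ 4) := by
  have r := fun x => abs_le.1 ((Complex.abs_re_le_norm _).trans (hb x))
  have n0 : (0 : ℝ) ≤ n ^ 4 := by positivity
  refine ⟨?_, (rep_le h hn hK h0 hU (c := 0) h.lam h.b0 (fun x _ _ => by linarith [(r x).1])
    fun x => mul_le_mul_of_nonneg_right h.lam (fs_nonneg _ _)).trans (exp_le_exp.2 ?_)⟩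
  · have e : Ix p Φ U = fun y => Complex.exp (-Φ y (Bx y (cC U))) * (1 : St → ℂ) y :=
      funext fun y => by simp [Ix, chi, hχ]
    rw [Rep, pc_eq hU, e, ZL_fac fun y _ => Complex.exp_ne_zero _, norm_mul, norm_prod,
      show ZL _ _ 1 = Zp _ (act (box (n / 2)) _ 1) 1 from
        Zp_congr (fun _ a b => (if_pos ⟨a, b⟩).symm) fun _ _ => rfl, add_mul, neg_add, exp_add]
    refine mul_le_mul ?_ (le_trans (exp_le_exp.2 ?_) (Zp_lower _ (ee_le p) (act_le (by simp)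
      (k := fun X c => k X c * exp ((b + 1) * (c.biUnion id).card)) fun o _ => ?_)
      fun x => (maj_sum (nm_of h hn h0) x).trans (by linarith))) (exp_pos _).le
      (prod_nonneg fun _ _ => norm_nonneg _)
    · simp only [Complex.norm_exp, ← exp_sum, exp_le_exp, ← card_dom hn, Complex.neg_re]
      simpa [mul_comm] using card_nsmul_le_sum (box (n / 2)) _ (-b) fun x _ => neg_le_neg (r x).2
    · rw [card_dom hn]
      linarith [mul_le_mul_of_nonneg_right (ee_le p) n0]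
    · rw [norm_mul, norm_prod]
      refine mul_le_mul (km_le hK h.lam h0 hU _ _) ?_ (prod_nonneg fun _ _ => norm_nonneg _)
        (h0.1 _ _)
      simp only [← Complex.exp_neg, neg_neg, Complex.norm_exp, ← exp_sum, exp_le_exp]
      exact (sum_le_card_nsmul _ _ (b + 1) fun x _ => by linarith [(r x).2]).trans_eq
        (by rw [nsmul_eq_mul, mul_comm])
  · nlinarith [ee_le p]

end

theorem LF.cx_bd {S : Sd} {v e u ω : ℝ} {ψ : Lx} {K : Ac} {ϑ : Lk → Angle} (h : LF S v e)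
    (z : Sz S.p S.nf S.Q S.g u u ω ψ K) (hu : S.Q ^ 100 * u * S.g ^ 2 ≤ 1) (hω : ω ≤ 1)
    (a : Fw S.nf (S.g / S.Q ^ 250) ϑ) : exp (-(2 * S.nf ^ 4)) ≤ ‖Rep S.p S.nf (S.Φ ψ) K (ab ϑ)‖ ∧
      ‖Rep S.p S.nf (S.Φ ψ) K (ab ϑ)‖ ≤ exp (2 * S.nf ^ 4) := by
  obtain ⟨F, hF, hd, hϑ⟩ := a
  obtain ⟨hψ, k, k1, k2⟩ := z
  have Q0 := S.Q0
  have g0 := h.nu.ok.g0
  have b0 := h.nu.ok.β0
  obtain ⟨t0, -, t2, t3⟩ := h.tq_bd (le_self_pow₀ S.Q1 (by norm_num) : S.Q ≤ S.Q ^ 250)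
    ((pow_mul _ _ _).ge.trans ((S.Qw (by norm_num)).trans h.nu.ok.Qβ))
  have u0 := ((hψ 0).1.nonneg h.ρ0).1
  have w0 : 0 ≤ u * S.g ^ 2 := by positivity
  rw [mul_assoc] at hu
  have w1 : ∀ i < 100, 1000 * (S.Q ^ i * (u * S.g ^ 2)) ≤ 1 := fun i hi =>
    (mul_assoc _ _ _).ge.trans ((mul_le_mul_of_nonneg_right (qpw h.nu hi) w0).trans hu)
  have w2 := mul_le_mul_of_nonneg_right hω w0
  rw [← one_add_one_eq_two]
  refine rep_cx h.pg1.1 h.nu.ok.odd_nf k1 k2 (le_trans ?_ h.pg1.2) hϑ.per (h.chi hϑ hd t3)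
    fun x => ?_
  · rw [inv_eq_one_div, le_div_iff₀ Q0]
    nlinarith [w1 1 (by norm_num), mul_le_mul_of_nonneg_left w2 Q0.le]
  obtain ⟨c1, c2, -, -, -⟩ := h.small (by linarith) t3
  obtain ⟨k0, k3, -, -⟩ := (hψ 0).1.elim
  have cv := Ho.cv_em 0 (cc_val k3.cc hF hd c1).1
  have v1 := (hψ x).1.bd (Ho.real_em 0 _) cv c2
  have v2 := (h.tree_ps.1 x).1.bd (Ho.real_em 0 _) cv c2
  rw [hϑ.bx hF, Sd.Φ]
  refine (norm_add_le_of_le (norm_mul_le_of_le (Complex.norm_real _).le v2) v1).trans ?_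
  generalize tq S.nf (S.g / S.Q ^ 250) = t at *
  have ρ0 := h.ρ0
  have l1 := L1 S.toTd
  have t4 : S.Q ^ 500 * t ^ 2 ≤ 4 * S.g ^ 2 := by
    rw [show S.Q ^ 500 * t ^ 2 = (S.Q ^ 250 * t) ^ 2 by ring, show 4 * S.g ^ 2 = (2 * S.g) ^ 2 by ring]
    gcongr
  have t5 : S.Q ^ 500 * (S.β * t ^ 2) ≤ 4 := by
    nlinarith [mul_le_mul_of_nonneg_left t4 b0.le, h.nu.ok.βg]
  have t6 : t ≤ 1 := by nlinarith [h.nu.ok.g1, h.nu.cQ' (C := 2) (by norm_num)]
  have t7 : 1000 * (S.Q * (S.β * t ^ 2)) ≤ 4 / 1000 := by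
    have := mul_le_mul_of_nonneg_right ((mul_le_mul_of_nonneg_left (qpw h.nu
      (i := 1) (j := 2) (by norm_num)) (by norm_num : (0 : ℝ) ≤ 1000)).trans
      (qpw h.nu (j := 500) (by norm_num))) (show 0 ≤ S.β * t ^ 2 by positivity)
    linarith
  have t8 : t ^ 2 ≤ 4 * S.g ^ 2 := (le_mul_of_one_le_left (by positivity) (one_le_pow₀ S.Q1)).trans t4
  rw [norm_of_nonneg b0.le]
  calc _ ≤ S.β * (3 * (S.Q + S.Q) * (2 * (2 * t)) ^ 2 + S.Q * (64 * t ^ 2 * 1)) +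
        (3 * (S.Q ^ 2 * u + S.Q ^ 2 * u) * (16 * (4 * S.g ^ 2)) + S.Q ^ 50 * 1 * u * S.g ^ 2 * 1 ^ 3) := by
        gcongr ?_ * (3 * (?_ + ?_) * _ + ?_) + (3 * (?_ + _) * ?_ + ?_)
        · exact h.nu.L_le_Q
        · exact div_le_self Q0.le l1
        · rw [show S.Q * S.p.ρ ^ 3 * (2 * (2 * t) / S.p.ρ) ^ 3 = S.Q * (64 * t ^ 2 * t) by
            field_simp; ring]
          gcongr
        · exact le_mul_of_one_le_left u0 (one_le_pow₀ S.Q1)
        · linarith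
        · exact mul_le_mul (by gcongr) (pow_le_pow_left₀ (by positivity) ((div_le_one ρ0).2 c2) 3)
            (by positivity) (by positivity)
    _ ≤ 1 := by nlinarith [w1 2 (by norm_num), w1 50 (by norm_num)]

namespace Gl.Ok

variable {G : Gl} (h : G.Ok) {b u u' ω : ℝ} {J i j k : ℕ} {z : Z} {ψ : Lx} {K : Ac}
include h

/-- one step without reality -/
theorem step_cx (t : G.Tz J (k + 1) z) (hk : k < J) (hv : |z.v - 1| ≤ 20⁻¹)
    (hκ : |G.kp k z| ≤ 2 * G.Q k) (d : G.Sz (k + 1) u u ω ψ K) (u1 : 1 ≤ u) (h1 : √(G.g k) ≤ ω)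
    (hω : G.Q k ^ 100 * ω ≤ 1) (h2 : G.Q k ^ 115 * u * G.g (k + 1) ^ 2 ≤ ω)
    (h3 : u + G.Q k ^ 50 * ω * (u + u) + G.Q k ^ 2 ≤ u') :
    G.Sz k u' u' ω (G.hs k z (ψ, K)).1 (G.hs k z (ψ, K)).2 ∧ ∃ E : ℂ, ∀ W, Per (G.N k) W →
      TT (G.l k) (G.a k) (G.N k) (Rep (G.p (k + 1)) (G.N (k + 1)) ((G.sl (k + 1) z).Φ ψ) K) W =
        Complex.exp E * Rep (G.p k) (G.N k) ((G.sl k (G.nx k z)).Φ (G.hs k z (ψ, K)).1)
          (G.hs k z (ψ, K)).2 W := by
  have nu := (h.sd_all k z).nu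
  have s := h.st2 t
  have sz := h.sz_sd d z
  have gg := h.g_succ k
  have g0 := h.g0 (k + 1)
  have h1' := (sqrt_le_sqrt gg).trans h1
  obtain ⟨a1, -⟩ := lin_step nu s sz h1' hω
  obtain ⟨⟨b, θ, k0, sm⟩, k', b1, b2⟩ := ball_step nu s sz u1 h1' hω h2
  obtain ⟨c1, -, -⟩ := h.src_ps t hk hv hκ
  have ω0 : 0 ≤ ω := (sqrt_nonneg _).trans h1
  have q0 := h.Q0 k
  have u2 : u ≤ u' := le_trans (by rw [add_assoc]; exact le_add_of_nonneg_right (by positivity)) h3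
  have h4 : ω * u * G.g (k + 1) ^ 2 ≤ ω * u' * G.g k ^ 2 := by
    have := zero_le_one.trans (u1.trans u2)
    gcongr
  have w0 : 0 ≤ ω * u * G.g (k + 1) ^ 2 := by positivity
  refine ⟨⟨PM.mono (h.ρ0 k) (PM.add (h.ρ0 k) a1 c1).1 h3 ?_ ?_, k', b1, b2.mono ?_⟩,
    ∑ y ∈ (G.sd k z).Λ', (G.sd k z).Ey ψ K y, fun W hW => ?_⟩
  · change G.Q k ^ 2 * _ + _ ≤ _
    linarith only [mul_le_mul_of_nonneg_left u2 (pow_pos q0 2).le, pow_pos q0 2,
      mul_le_mul_of_nonneg_left (u1.trans u2) (pow_pos q0 2).le]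
  · change G.Q k ^ 50 * ω * _ * G.g (k + 1) ^ 2 + _ ≤ _
    have := mul_le_mul_of_nonneg_left h4 (pow_pos q0 50).le
    have := mul_le_mul_of_nonneg_left (mul_le_mul h1 (u1.trans u2) zero_le_one ω0)
      (show 0 ≤ G.Q k ^ 50 * G.g k ^ 2 by positivity)
    have := mul_nonneg (pow_pos q0 50).le w0
    linarith
  · change ω * u * G.g (k + 1) ^ 2 / 2 ≤ _
    linarith
  · rw [← h.sd_nf k z]
    refine (s.id _ _ _ _ _ sm W hW).trans ?_
    congr 2
    funext y B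
    have : (G.bb k : ℂ) ≠ 0 := Complex.ofReal_ne_zero.2 (h.b0 k).ne'
    change (G.bb (k + 1) : ℂ) * _ + _ + _ = (G.bb k : ℂ) * (cx (G.lam k z • _) B B +
      G.lam k z * _) + (_ + src _ _ B)
    rw [src, cx_smul, lam]
    push_cast
    field_simp
    ring

theorem go_L (go : G.Go J k) (hk : k ≤ j) (hj : j ≤ k + G.l k) : G.L j = G.L k :=
  le_antisymm ((h.L_mono hj).trans_eq (congrArg LL go.2)) (h.L_mono hk)

theorem go_Q (go : G.Go J k) (hk : k ≤ j) (hj : j ≤ k + G.l k) : G.Q j = G.Q k := by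
  rw [Q, h.go_L go hk hj, Q]

theorem go_Q2 (go : G.Go J k) (hj : j ≤ k + G.l k + 1) : G.Q j ≤ G.Q k ^ 2 := by
  have a : G.L (k + G.l k + 1) ≤ 3 * G.L k := by
    rw [← h.go_L go (Nat.le_add_right _ _) le_rfl]
    rcases h.sch.size (k + G.l k) with e | e <;> unfold L l at * <;> omega
  rw [Q, Q, ← pow_mul, mul_comm, pow_mul]
  have : G.L j ≤ G.L k ^ 2 := by nlinarith [h.L_mono hj, h.L_big k]
  exact pow_le_pow_left₀ (Nat.cast_nonneg _) (by exact_mod_cast this) _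

theorem go_b (go : G.Go J k) (hj : j ≤ k + G.l k + 1) : G.bb j ≤ 2 * G.bb k := by
  have a : ∀ s ≤ G.l k + 1, G.bb (k + s) ≤ G.bb k + s * G.L k := fun s hs => by
    induction s with
    | zero => simp
    | succ s ih =>
      have e : G.bb (k + s + 1) ≤ G.bb (k + s) + G.L (k + s) := (h.sch.le _).2
      rw [h.go_L go (Nat.le_add_right _ _) (by omega)] at e
      push_cast
      exact e.trans (by linarith [ih (by omega)])
  have c : ((G.l k + 1 : ℕ) : ℝ) ≤ G.L k := Nat.cast_le.2 (by unfold L LL; omega)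
  have := h.Lb k (i := 2) (by have := h.B1; omega)
  have e : G.bb (k + G.l k + 1) ≤ _ := a _ le_rfl
  nlinarith [h.b_mono hj, h.L1 k]

theorem w_cplx (A : G.Tu b J) (go : G.Go J k) (hi : i = k + G.l k + 1) (hk : k ≤ j) (hj : j ≤ i) (t : ℂ)
    (ht : ‖t‖ ≤ G.bb i / G.Q i ^ 402) {ϑ ϑ' : Lk → Angle} (a : Fw (G.N j) (G.fx j) ϑ)
    (a' : Fw (G.N j) (G.fx j) ϑ') : G.wf i (G.zz b J i) j t (ab ϑ) ≠ 0 ∧
      ‖G.wf i (G.zz b J i) j t (ab ϑ)‖ ≤ exp (4 * G.N j ^ 4) * ‖G.wf i (G.zz b J i) j t (ab ϑ')‖ := by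
  have iJ : i ≤ J := hi ▸ go.1
  have ki : k ≤ i := hk.trans hj
  have Q0 := h.Q0 k
  have Q1 := h.Q1 k
  have b0 := h.b0 k
  obtain ⟨u, hu⟩ : ∃ u, u = G.bb k / G.Q k ^ 401 := ⟨_, rfl⟩
  obtain ⟨ω, hω⟩ : ∃ ω, ω = (G.Q k ^ 280)⁻¹ := ⟨_, rfl⟩
  have ω0 : 0 < ω := by rw [hω]; positivity
  have u1 : G.Q k ^ 10 ≤ u := by
    rw [hu, le_div_iff₀ (by positivity), ← pow_add]
    exact (pow_le_pow_right₀ Q1 (by norm_num)).trans (h.Qb k)
  have u2 : 1 ≤ u := (one_le_pow₀ Q1).trans u1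
  have ug : ∀ j, k ≤ j → G.Q k ^ 401 * (u * G.g j ^ 2) ≤ 1 := fun j hj => by
    have : G.g j ≤ G.g k := antitone_nat_of_succ_le h.g_succ hj
    have := h.g0 j
    calc _ ≤ G.Q k ^ 401 * (u * G.g k ^ 2) := by gcongr
      _ = G.bb k * G.g k ^ 2 := by rw [hu]; field_simp
      _ = 1 := h.bg k
  have sg : ∀ j, k ≤ j → √(G.g j) ≤ ω := fun j hj => by
    refine (sqrt_le_sqrt (antitone_nat_of_succ_le h.g_succ hj)).trans ?_
    rw [hω, ← one_div, le_div_iff₀' (by positivity)]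
    exact (mul_le_mul_of_nonneg_right (pow_le_pow_right₀ Q1 (by norm_num)) (sqrt_nonneg _)).trans
      (h.Qsg k)
  have oq : G.Q k ^ 280 * ω = 1 := by rw [hω]; field_simp
  have ω1 : ∀ i < 280, 1000 * (G.Q k ^ i * ω) ≤ 1 := fun i hi =>
    (mul_assoc _ _ _).ge.trans ((mul_le_mul_of_nonneg_right (h.qpw k hi) ω0.le).trans_eq oq)
  obtain ⟨s, hs⟩ : ∃ s : ℕ → ℝ, ∀ j, s j = u + (i - j : ℕ) * (u / G.Q k ^ 2) := ⟨_, fun _ => rfl⟩
  have s1 : ∀ j, u ≤ s j := fun j => hs j ▸ le_add_of_nonneg_right (by positivity)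
  have s2 : ∀ j, k ≤ j → s j ≤ 2 * u := fun j hj => by
    have c : ((i - j : ℕ) : ℝ) ≤ G.L k := Nat.cast_le.2 (by unfold L LL; omega)
    rw [hs, two_mul, add_le_add_iff_left, ← mul_div_assoc, div_le_iff₀ (by positivity), mul_comm]
    gcongr
    exact (c.trans (h.LQ k)).trans (le_self_pow₀ Q1 two_ne_zero)
  have H : ∀ j ≤ i, k ≤ j → ∃ (d : Lx × Ac) (κ : ℂ), κ ≠ 0 ∧ G.Sz j (s j) (s j) ω d.1 d.2 ∧
      ∀ U, Per (G.N j) U → G.wf i (G.zz b J i) j t U =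
        κ * Rep (G.p j) (G.N j) ((G.sl j (G.zz b J j)).Φ d.1) d.2 U := by
    refine dw_ind (fun _ => ?_) fun j hj ih hk => ?_
    · obtain ⟨⟨c1, c, c2, c3⟩, -⟩ := (A.gd i iJ).dt
      have p := (h.lf (A.gd i iJ).tz).tree_ps.1
      have ρ0 := h.ρ0 i
      have Qi := h.Q_mono ki
      have g0 := h.g0 i
      have q0 := h.Q0 i
      have sgi := sg i ki
      have t1 : G.Q i * ‖t‖ ≤ 2 * u := by
        have := h.go_b go hi.le
        rw [le_div_iff₀ (pow_pos (h.Q0 i) _)] at ht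
        rw [hu, ← mul_div_assoc, le_div_iff₀ (by positivity)]
        calc _ ≤ G.Q i * ‖t‖ * G.Q i ^ 401 := by gcongr
          _ = ‖t‖ * G.Q i ^ 402 := by ring
          _ ≤ _ := ht.trans this
      have e : s i = u := by simp [hs]
      have l1 := h.LQ' i (i := 2) (by norm_num)
      have l2 := h.L1 i
      have t0 := norm_nonneg t
      refine ⟨((G.zz b J i).ψ + t • (G.zz b J i).w.1, (G.zz b J i).K), 1, one_ne_zero,
        ⟨PM.mono ρ0 (PM.add ρ0 c1 fun x => ⟨((p x).1.smul ρ0 t).1, (p x).2.const_mul t⟩).1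
          ?_ ?_ ?_, c, c2, c3.mono ?_⟩, fun U _ => by rw [wf, tt_top, one_mul]⟩ <;> rw [e]
      · change 1 + ‖t‖ * G.L i ≤ _
        nlinarith [mul_le_mul_of_nonneg_right l1 t0, mul_le_mul_of_nonneg_right l2
          (mul_nonneg t0 (zero_le_one.trans (by linarith : 1 ≤ (G.L i : ℝ)))),
          h.qpw k (i := 0) (j := 10) (by norm_num)]
      · change G.Q i ^ 2 * 1 + ‖t‖ * (G.Q i / G.L i) ≤ _
        have : ‖t‖ * (G.Q i / G.L i) ≤ ‖t‖ * (G.Q i / 1000) := by gcongr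
        nlinarith [mul_le_mul_of_nonneg_left (show 1 + u / 2 ≤ u by
          linarith [h.qpw k (i := 0) (j := 10) (by norm_num)]) (sq_nonneg (G.Q i)),
          mul_le_mul_of_nonneg_right (one_le_pow₀ (n := 2) (h.Q1 i)) (zero_le_one.trans u2)]
      · change G.Q i ^ 50 * √(G.g i) * 1 * G.g i ^ 2 + ‖t‖ * (G.Q i * (G.Q i ^ 3 * G.g i) ^ 3) ≤ _
        have g1 : G.g i ≤ ω := (le_sqrt_of_sq_le (by nlinarith [h.g1 i])).trans sgi
        calc _ = G.Q i ^ 50 * √(G.g i) * 1 * G.g i ^ 2 +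
              G.Q i * ‖t‖ * G.Q i ^ 9 * G.g i * G.g i ^ 2 := by ring
          _ ≤ G.Q i ^ 50 * ω * (u / 2) * G.g i ^ 2 + 2 * u * (G.Q i ^ 50 / 1000) * ω * G.g i ^ 2 := by
            gcongr _ * ?_ * ?_ * _ + ?_ * ?_ * ?_ * _
            · linarith [h.qpw k (i := 0) (j := 10) (by norm_num)]
            · linarith [h.qpw i (i := 9) (j := 50) (by norm_num)]
          _ ≤ _ := by
            linarith [show 0 ≤ G.Q i ^ 50 * ω * u * G.g i ^ 2 by positivity]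
      · gcongr
    · obtain ⟨d, κ, κ0, c, e⟩ := ih (by omega)
      have jJ : j < J := hj.trans_le iJ
      have q := h.go_Q go hk (by omega)
      obtain ⟨c', E, e'⟩ := h.step_cx (u' := s j) (A.gd (j + 1) jJ).tz jJ ((A.v (j + 1) jJ).trans (by
        have := h.inv_le (j + 1) (i := 0) (j := 409) (by norm_num)
        rw [pow_zero, inv_one] at this
        linarith)) (A.lam j jJ).1 c (u2.trans (s1 _)) (sg j hk)
        (by rw [q]; linarith [ω1 100 (by norm_num)]) (by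
          rw [q, hω, ← one_div, le_div_iff₀' (by positivity)]
          have w : 0 ≤ u * G.g (j + 1) ^ 2 := mul_nonneg (zero_le_one.trans u2) (sq_nonneg _)
          linarith [ug (j + 1) (by omega), mul_le_mul_of_nonneg_right (s2 (j + 1) (by omega))
            (mul_nonneg (pow_pos Q0 395).le (sq_nonneg (G.g (j + 1)))), mul_le_mul_of_nonneg_right
            (h.qpw k (i := 395) (j := 401) (by norm_num)) w, mul_nonneg (pow_pos Q0 395).le w]) (by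
          rw [q, hs j, show i - j = i - (j + 1) + 1 by omega, Nat.cast_succ, add_mul, ← add_assoc,
            ← hs, add_assoc, add_le_add_iff_left, one_mul, le_div_iff₀ (by positivity)]
          nlinarith [mul_le_mul_of_nonneg_right (ω1 52 (by norm_num)) (zero_le_one.trans u2),
            mul_le_mul_of_nonneg_left (s2 (j + 1) (by omega))
              (show 0 ≤ G.Q k ^ 52 * ω by positivity), h.qpw k (i := 4) (j := 10) (by norm_num)])
      refine ⟨_, κ * Complex.exp E, mul_ne_zero κ0 (Complex.exp_ne_zero _), c', fun W hW => ?_⟩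
      rw [wf, tt_step _ hj, zz_step b jJ, mul_assoc, ← e' W hW]
      exact TT_mul (fun U hU => e U (h.N_succ j ▸ hU)) W
  obtain ⟨d, κ, κ0, c, e⟩ := H j hj hk
  have B := fun ϑ (a : Fw (G.N j) (G.fx j) ϑ) => (h.lf (A.gd j (hj.trans iJ)).tz).cx_bd
    (h.sz_sl c _) (ϑ := ϑ) (by
      change G.Q j ^ 100 * _ * G.g j ^ 2 ≤ 1
      have := h.Q0 j
      calc _ ≤ (G.Q k ^ 2) ^ 100 * (2 * u) * G.g j ^ 2 := by
            gcongr
            exacts [zero_le_one.trans (u2.trans (s1 j)), h.go_Q2 go (hi ▸ hj), s2 j hk]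
        _ ≤ 1 := by
            nlinarith [ug j hk, mul_le_mul_of_nonneg_right (h.qpw k (i := 200) (j := 401)
              (by norm_num)) (show 0 ≤ u * G.g j ^ 2 by positivity)])
    (by linarith [ω1 0 (by norm_num)]) (by rw [h.sl_nf]; exact a)
  have b1 := B ϑ a
  have b2 := (B ϑ' a').1
  rw [h.sl_nf] at b1 b2
  obtain ⟨_, -, -, a⟩ := a
  obtain ⟨_, -, -, a'⟩ := a'
  rw [e _ a.per, e _ a'.per, norm_mul, norm_mul, mul_left_comm]
  refine ⟨mul_ne_zero κ0 (norm_pos_iff.1 ((exp_pos _).trans_le b1.1)),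
    mul_le_mul_of_nonneg_left (b1.2.trans (le_trans (le_of_eq ?_)
      (mul_le_mul_of_nonneg_left b2 (exp_pos _).le))) (norm_nonneg _)⟩
  rw [← exp_add]
  congr 1
  ring

end Gl.Ok

end Pool.Agent.Lib.MP_7f377f_mp.RG.Q4.En
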