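import Pool.Agent.Lib.MP_7f377f_mp.Q5TanF
import Pool.Agent.Lib.MP_7f377f_mp.Q5Mass
import Pool.Agent.Lib.MP_7f377f_mp.Q5DifC

/-! The dependence of the tangent map on the base point. -/

noncomputable section

namespace Pool.Agent.Lib.MP_7f377f_mp.RG.Q4.En

open Finset Real Pos Metric

section

variable {S : Sd} {x y u w ω x' y' ω' Q g : ℝ} {ψ φ φ' : Lx} {K J J' : Ac} {p : Pa} {n : ℕ}

/-- change of the scale of the activities -/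
theorem sz_gen (h0 : 0 < p.ρ) (Q0 : 0 ≤ Q) (s : Sz p n Q g x y ω ψ K) (hx : x ≤ x') (hy : y ≤ y')
    (hω : ω * y ≤ ω' * y') : Sz p n Q g x' y' ω' ψ K :=
  ⟨PM.mono h0 s.1 hx (by gcongr) (by rw [mul_assoc _ ω, mul_assoc _ ω']; gcongr),
    s.2.imp fun _ a => ⟨a.1, a.2.mono (by gcongr)⟩⟩

/-- a better bound of the marginal part -/
theorem sz_cb (s : Sz p n Q g x y ω ψ K) (c : ∀ v, ψ v = ψ 0)
    (e : ∀ a a' δ δ', Cv 0 δ a → Cv 0 δ' a' → ‖qc (ψ 0) a a'‖ ≤ x' * δ * δ') :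
    Sz p n Q g x' y ω ψ K :=
  ⟨fun v => ⟨{ (s.1 v).1 with cb := c v ▸ e }, (s.1 v).2⟩, s.2⟩

theorem dK_lip (h : S.Nu 100) (f : St2 S) (z0 : Sz S.p S.nf S.QM S.g u u ω ψ K)
    (z1 : Sz S.p S.nf S.QM S.g w w ω φ' J') (z : Sz S.p S.nf S.QM S.g x y ω φ J) (h1 : √S.g ≤ ω)
    (hω : S.Q ^ 100 * ω ≤ 1) (hu : S.Q ^ 115 * u * S.g ^ 2 ≤ ω) (hw : S.Q ^ 115 * w * S.g ^ 2 ≤ ω)
    (h0 : 0 < x + y) (w0 : 0 < w) : ∃ m, KM S.p' S.n m (dK S (ψ + φ') (K + J') φ J - dK S ψ K φ J) ∧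
      kN S.p' S.n m (S.Q ^ 112 * w * (x + y) * S.g ^ 4) := by
  obtain ⟨k, k1, k2⟩ := z0.2
  obtain ⟨d, d1, d2⟩ := z1.2
  obtain ⟨j, j1, j2⟩ := z.2
  obtain ⟨x0, y0⟩ := z.nn h
  have u0 := (z0.nn h).1
  have g0 := h.ok.g0
  have Q0 := S.Q0
  have s0 := sqrt_pos.2 g0
  have ω0 := s0.trans_le h1
  have a0 : ∀ {i j : ℕ} {t : ℝ}, i < j → 0 ≤ t → 1000 * (S.Q ^ i * t) ≤ S.Q ^ j * t :=
    fun e t0 => (mul_assoc _ _ _).ge.trans (mul_le_mul_of_nonneg_right (qpw h e) t0)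
  have a1 := qsq h (i := 102) (by norm_num)
  have a2 : ω ≤ 1 / 1000 := by linarith [qom h hω (i := 0) (by norm_num)]
  obtain ⟨b, hb⟩ : ∃ b, ω = S.Q ^ 102 * b := ⟨ω / S.Q ^ 102, by field_simp⟩
  have b0 : 0 < b := (mul_pos_iff_of_pos_left (pow_pos Q0 102)).1 (hb ▸ ω0)
  obtain ⟨θ, hθ⟩ : ∃ θ, θ = S.Q ^ 92 * b ^ 2 := ⟨_, rfl⟩
  have θ0 : 0 < θ := by rw [hθ]; positivity
  have B : Bl S b θ := by
    rw [hθ]
    refine ⟨le_of_mul_le_mul_left ?_ (pow_pos Q0 102), ?_, ?_, ?_⟩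
    · have := mul_le_mul a1 h1 s0.le zero_le_one
      rwa [mul_assoc, mul_self_sqrt g0.le, one_mul, hb] at this
    · linarith [a0 (i := 91) (j := 92) (by norm_num) (sq_nonneg b),
        mul_nonneg (pow_pos Q0 91).le (sq_nonneg b)]
    · linarith [a0 (i := 100) (j := 102) (by norm_num) b0.le]
    · have := a0 (i := 192) (j := 204) (by norm_num) (sq_nonneg b)
      have e : S.Q ^ 204 * b ^ 2 = ω ^ 2 := by rw [hb]; ring
      nlinarith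
  have v : ∀ {t : ℝ}, 0 ≤ t → S.Q ^ 115 * t * S.g ^ 2 ≤ ω →
      1000 * (S.Q ^ 10 * t * S.g ^ 2) ≤ b ∧ 1000 * (ω * t * S.g ^ 2) ≤ θ := fun {t} t0 ht => by
    have a : 1000 * (S.Q ^ 10 * t * S.g ^ 2) ≤ b := le_of_mul_le_mul_left (by
      linarith [a0 (i := 112) (j := 115) (by norm_num) (mul_nonneg t0 (sq_nonneg S.g))])
      (pow_pos Q0 102)
    have := mul_le_mul_of_nonneg_left a (mul_pos (pow_pos Q0 92) b0).le
    exact ⟨a, by rw [hb, hθ]; linarith⟩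
  obtain ⟨u1, u2⟩ := v u0 hu
  obtain ⟨w1, w2⟩ := v w0.le hw
  have p0 := z0.pu h hω
  have p1 := z1.pu h hω
  have c1 := mul_pos (pow_pos Q0 100) b0
  have c2 := mul_pos (pow_pos Q0 100) θ0
  have kd := (k2.add d2).mono (show _ ≤ θ / 2 by linarith)
  have s1 : S.Sml (b / 2) (θ / 2) (k + d) ψ K := ⟨by linarith [B.b_le], by linarith [B.θ_le],
    pu_mono p0 (by linarith), k1.mono fun X c => le_add_of_nonneg_right (d2.1 X c), kd⟩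
  have s2 : S.Sml (b / 2) (θ / 2) (k + d) (ψ + φ') (K + J') :=
    ⟨s1.1, s1.2, pu_mono (pu_add h p0 p1) (by linarith), k1.add d1, kd⟩
  obtain ⟨e, he⟩ : ∃ e, e = 2 * S.Q ^ 10 * (x + y) * S.g ^ 2 / b := ⟨_, rfl⟩
  obtain ⟨ε, hε⟩ : ∃ ε, ε = 2 * S.Q ^ 10 * w * S.g ^ 2 / b := ⟨_, rfl⟩
  have e0 : 0 < e := by rw [he]; positivity
  have ε0 : 0 < ε := by rw [hε]; positivity
  have e1 : ∀ t : ℝ, t / 2 + e⁻¹ * (e * (t / 2)) = t := fun t => by field_simp; ring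
  have j3 : kN S.p S.nf j (e * (θ / 2)) := j2.mono (by
    rw [show e * (θ / 2) = ω * (x + y) * S.g ^ 2 by rw [he, hθ, hb]; field_simp]
    gcongr; linarith)
  have F : ∀ {ψ K}, S.Sml (b / 2) (θ / 2) (k + d) ψ K → ∀ t ∈ ball (0 : ℂ) e⁻¹,
      S.Sml b θ (k + d + e⁻¹ • j) (ψ + t • φ) (K + t • J) := fun s => by
    have := fam_sml h s (b' := e * (b / 2)) (pu_mono (z.pu h hω) (by rw [he]; field_simp; rfl)) j1 j3
      (inv_pos.2 e0).le (by rw [e1]; linarith [B.b_le]) (by rw [e1]; linarith [B.θ_le])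
    rwa [e1, e1] at this
  obtain ⟨m, m1, m2⟩ := lip1 h f B (F s1 0 (mem_ball_self (inv_pos.2 e0))).kn (d := ε⁻¹ • d)
    ((d2.smul (inv_pos.2 ε0).le).mono (by
      rw [inv_mul_le_iff₀ ε0, show ε * θ = 2 * (ω * w * S.g ^ 2) by rw [hε, hθ, hb]; field_simp]
      linarith [d2.nonneg]))
  have H := fun {ψ K} s => f.hol _ _ _ _ _ _ isOpen_ball (F (ψ := ψ) (K := K) s) (holL_line _ _ _)
    (holA_line _ _ _)
  have := (km_schwarz (F := fun t => S.KK (ψ + φ' + t • φ) (K + J' + t • J) -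
    S.KK (ψ + t • φ) (K + t • J)) e0 (fun t ht => m2 ε _ _ _ _ ε0.le (F s1 t ht) (F s2 t ht)
      (by rw [add_sub_add_right_eq_sub, add_sub_cancel_left]
          exact pu_mono p1 (by rw [hε]; field_simp; linarith))
      (by rwa [add_sub_add_right_eq_sub, add_sub_cancel_left, smul_inv_smul₀ ε0.ne']))
    fun X c U => (H s2 X c U).sub (H s1 X c U)).1
  refine ⟨_, (show dA _ = _ from funext fun X => funext fun c => funext fun U => deriv_sub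
    ((H s2 X c U).differentiableAt (ball_mem_nhds _ (inv_pos.2 e0)))
    ((H s1 X c U).differentiableAt (ball_mem_nhds _ (inv_pos.2 e0)))) ▸ this,
    (((kN_up m1).smul (by positivity)).smul (by positivity)).mono ?_⟩
  calc _ = 64 * S.Q ^ 111 * w * (x + y) * S.g ^ 4 := by rw [he, hε, hθ]; field_simp; ring
    _ ≤ _ := by gcongr ?_ * _ * _ * _; linarith [qpw h (i := 111) (j := 112) (by norm_num), pow_pos Q0 111]

end

namespace Gl.Ok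

variable {G : Gl} (h : G.Ok) {x y w u N ω γ : ℝ} {J k : ℕ} {z : Z} {c d d' : Lx × Ac}
  {f f' : Conf → ℂ} {b : ℝ}
include h

theorem q115 (t0 : 0 ≤ x) (e : x ≤ 132 * G.u (k + 1)) :
    G.Q k ^ 115 * x * G.g (k + 1) ^ 2 ≤ (G.Q (k + 1) ^ 280)⁻¹ := by
  have Q1 := h.Q0 (k + 1)
  have := h.Q0 k
  calc _ ≤ G.Q (k + 1) ^ 115 * (132 * G.u (k + 1)) * G.g (k + 1) ^ 2 := by
        gcongr; exact h.Q_mono k.le_succ
    _ = 132 * (G.Q (k + 1) ^ 285)⁻¹ := by rw [mul_assoc, mul_assoc, h.hy_ug]; field_simp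
    _ ≤ _ := by
        linarith [h.inv_le (k + 1) (i := 280) (j := 285) (by norm_num), inv_pos.2 (pow_pos Q1 285)]

theorem om_mono (k : ℕ) {i j : ℕ} (e : i ≤ j) : (G.Q k ^ j)⁻¹ ≤ (G.Q k ^ i)⁻¹ :=
  inv_anti₀ (pow_pos (h.Q0 k) _) (pow_le_pow_right₀ (h.Q1 k) e)

theorem om_succ (k i : ℕ) : (G.Q (k + 1) ^ i)⁻¹ ≤ (G.Q k ^ i)⁻¹ :=
  inv_anti₀ (pow_pos (h.Q0 k) _) (pow_le_pow_left₀ (h.Q0 k).le (h.Q_mono k.le_succ) _)

theorem om_one (e : ω ≤ (G.Q k ^ 100)⁻¹) : G.Q k ^ 100 * ω ≤ 1 :=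
  (mul_le_mul_of_nonneg_left e (pow_pos (h.Q0 k) _).le).trans_eq
    (mul_inv_cancel₀ (pow_pos (h.Q0 k) _).ne')

theorem inv_c (k : ℕ) {j : ℕ} (e : j ≠ 0) : 10 ^ 9 * (G.Q k ^ j)⁻¹ ≤ 1 := by
  rw [← div_eq_mul_inv, div_le_one (pow_pos (h.Q0 k) _)]
  exact (h.cQ k (by norm_num)).trans (le_self_pow₀ (h.Q1 k) e)

/-- data of the hybrid size are base points -/
theorem dt_tg (t : G.Tz J (k + 1) z)
    (s : G.Sz (k + 1) (G.u (k + 1)) (G.u (k + 1)) (G.Q (k + 1) ^ 280)⁻¹ c.1 c.2) :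
    Tg (G.sd k z) (G.Q (k + 1) ^ 280)⁻¹ c.1 c.2 :=
  tg_of_sz (h.sd_all k z).nu (h.st2 t) (h.sz_fine z s) (h.hy_sg _)
    (h.om_one ((h.om_succ k _).trans (h.om_mono k (by norm_num)))) le_rfl
    (h.q115 (by linarith [h.u_one (k + 1)]) (by linarith [h.u_one (k + 1)]))

/-- one step for the difference of tangent vectors at two base points -/
theorem ts_dif {ω' τ : ℝ} (a : G.Gd b J (k + 1) z)
    (D : G.Sz (k + 1) w w (G.Q (k + 1) ^ 100)⁻¹ (c.1 - z.ψ) (c.2 - z.K)) (w0 : 0 < w)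
    (hw : w ≤ 132 * G.u (k + 1)) (s' : G.Sz (k + 1) N N (G.Q (k + 1) ^ 100)⁻¹ d'.1 d'.2) (N0 : 0 < N)
    (s : Dir (G.sd k z) d.1 d.2) (r : G.Sz (k + 1) x y ω (d' - (γ : ℂ) • d).1 (d' - (γ : ℂ) • d).2)
    (h0 : 0 < x + y) (h1 : √(G.g (k + 1)) ≤ ω) (e : ω ≤ ω') (h2 : ω ≤ (G.Q k ^ 100)⁻¹)
    (hτ : G.Q k ^ 113 * w * N * G.g (k + 1) ^ 2 ≤ ω' * τ) :
    G.Sz k (x + G.Q k ^ 50 * ω * (x + y)) (G.cr k * (x + y + τ)) ω'
      (G.ts k z c d' - (γ : ℂ) • G.ts k z z.d d).1 (G.ts k z c d' - (γ : ℂ) • G.ts k z z.d d).2 ∧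
    ((∀ v, (d' - (γ : ℂ) • d).1 v = (d' - (γ : ℂ) • d).1 0) → nb ((d' - (γ : ℂ) • d).1 0) ≤
      nb ((G.ts k z c d' - (γ : ℂ) • G.ts k z z.d d).1 0) + 64 * (G.Q k ^ 50 * ω * (x + y))) := by
  have n := (h.sd_all k z).nu
  have f := h.st2 a.tz
  have Q0 := h.Q0 k
  have g0 := h.g0 (k + 1)
  have g1 := h.g0 k
  have c0 := h.cr0 k
  have u1 := h.u_one (k + 1)
  have s0 := sqrt_pos.2 g0
  have ω0 := (s0.trans_le h1).trans_le e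
  have τ0 : 0 ≤ τ := (mul_nonneg_iff_of_pos_left ω0).1 (le_trans (by positivity) hτ)
  have o1 := h.om_one (h.om_succ k 100)
  have o2 := h.om_mono (k + 1) (show 100 ≤ 280 by norm_num)
  have t := tg_of_sz n f (h.sz_fine z a.dt.sz) h1 (h.om_one h2) h1 (le_trans (by
    show G.Q k ^ 115 * 1 * G.g (k + 1) ^ 2 ≤ _
    have a1 : G.Q k ^ 115 * √(G.g (k + 1)) ≤ 1 := qsq n (by norm_num)
    have a2 := mul_le_mul_of_nonneg_left (show G.g (k + 1) ^ 2 ≤ √(G.g (k + 1)) * √(G.g (k + 1)) by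
      rw [mul_self_sqrt g0.le]; nlinarith [h.g1 (k + 1)]) (pow_pos Q0 115).le
    nlinarith) h1)
  have z' := h.sz_fine z s'
  have s1 : Dir (G.sd k z) d'.1 d'.2 := let ⟨_, k1, k2⟩ := z'.2; ⟨_, _, _, z'.pu n o1, k1, k2⟩
  obtain ⟨p, m, m1, m2⟩ := t.step n f (h.sz_fine z r) h0 e
  have q := (lin_step n f (h.sz_fine z r) t.lo t.hi).2
  obtain ⟨j, j1, j2⟩ := dK_lip n f (sz_gen (rho_pos n) (h.Q0 _).le (h.sz_fine z a.dt.sz) le_rfl le_rfl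
    (mul_le_mul_of_nonneg_right (h.sg_le _) zero_le_one)) (h.sz_fine z D) z' (h.sg_le _) o1
    ((h.q115 zero_le_one (by linarith)).trans o2) ((h.q115 w0.le hw).trans o2) (add_pos N0 N0) w0
  simp only [Prod.fst_sub, Prod.snd_sub, Prod.smul_fst, Prod.smul_snd, add_sub_cancel] at p q m1 j1 ⊢
  rw [pl_sub f s1 s] at p q
  rw [dK_sub n f t.rm s1 (s.smul n _), dK_smul] at m1
  have j3 := j1.add m1
  rw [sub_add_sub_cancel] at j3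
  refine ⟨⟨PM.mono (h.rh0 k) p le_rfl ?_ ?_, _, j3, (j2.add m2).mono ?_⟩, fun c => nb_sub (q c)⟩
  · show G.Q k ^ 2 * (G.cr k * _) ≤ _
    gcongr _ * (_ * ?_); linarith
  · show G.Q k ^ 50 * _ * (G.cr k * _) * G.g k ^ 2 ≤ _
    gcongr _ * (_ * ?_) * _; linarith
  · show G.Q k ^ 112 * w * (N + N) * G.g (k + 1) ^ 4 + ω' * (G.cr k * _) * G.g k ^ 2 ≤ _
    have a1 : 16 ≤ G.Q k * G.cr k := cr_Q n
    suffices G.Q k ^ 112 * w * (N + N) * G.g (k + 1) ^ 4 ≤ ω' * (G.cr k * τ) * G.g k ^ 2 by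
      linarith
    refine le_of_mul_le_mul_left ?_ Q0
    calc _ = 2 * (G.Q k ^ 113 * w * N * G.g (k + 1) ^ 2) * G.g (k + 1) ^ 2 := by ring
      _ ≤ G.Q k * G.cr k * (ω' * τ) * G.g k ^ 2 := by gcongr; exacts [by linarith, h.g_succ k]
      _ = _ := by ring

/-- the marginal part of a symmetric direction -/
theorem tn_q (t : G.Tz J k z) (s : G.Sz k u u ω c.1 c.2) (e : ∀ x, c.1 x = c.1 0)
    (a : G.Tn k z c f x y ω d f') (sf : Sym (G.N k) f) (sf' : Sym (G.N k) f') (f0 : Pos f)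
    (hu : G.Q k ^ 300 * u * G.g k ^ 2 ≤ 1) (h2 : √(G.g k) ≤ ω) (h3 : ω ≤ (G.Q k ^ 100)⁻¹) :
    ∀ a a' δ δ', Cv 0 δ a → Cv 0 δ' a' → ‖qc (d.1 0) a a' -
      (gm (G.N k) (G.g k / G.Q k ^ 14) f f' * m0 a a' : ℝ)‖ ≤
        720 * G.Q k ^ 28 * ω * (x + y) * δ * δ' := fun v v' δ δ' hv hv' => by
  have n := h.sl_nf k z
  obtain ⟨b1, b2⟩ := (h.lf t).fd (P := G.Q k ^ 14) (x := x) (y := y) (by rw [n]; exact s) e
    (by rw [n]; exact a.sz) (by rw [n]; exact a.re) a.rt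
    (fun w => (f0 (ab 0)).2.ne' (by rw [w, Complex.zero_re])) hu le_rfl h2 (h.om_one h3) le_rfl
    ((pow_mul _ _ _).ge.trans ((pow_le_pow_right₀ (h.Q1 k) (by norm_num)).trans (h.Qb k)))
  rw [n] at b1 b2
  have b3 := b2 0 (asy_of_sym sf sf') _ _ _ _ hv hv'
  have b4 := mul_le_mul b1 (m0_le hv hv') (abs_nonneg _) ((abs_nonneg _).trans b1)
  rw [← abs_mul, ← norm_eq_abs, ← Complex.norm_real, sub_mul, Complex.ofReal_sub, norm_sub_rev] at b4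
  exact (norm_sub_le_norm_sub_add_norm_sub _ _ _).trans ((add_le_add b3 b4).trans_eq (by ring))

end Gl.Ok

end Pool.Agent.Lib.MP_7f377f_mp.RG.Q4.En
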