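import Pool.Agent.Lib.MP_7f377f_mp.OddBox
import Pool.Agent.Lib.MP_7f377f_mp.SoftB
import Pool.Agent.Lib.MP_7f377f_mp.PurD
import Pool.Agent.Lib.MP_7f377f_mp.InfE

/-! Bounds for arrays of sources. -/

noncomputable section

namespace Pool.Agent.Lib.MP_7f377f_mp.YM7

open MeasureTheory Weak Filter Topology Real Jet Finset Pur

variable {n m lam D E : ℕ} [NeZero n] [NeZero m] {κ : Type} [Fintype κ] [DecidableEq κ]
  {Λ : (Cfg n → ℝ) → ℝ} {a a' τ τ' δ δ' w C b : ℝ} {lo hi : Fin 4 → ℤ}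

theorem inT_of {c : Fin 4 → ℤ} {F : Src n} (hn : n = m * lam) (ha : 0 < a) (hδ : 0 < δ)
    (h : InCell a (a * lam) δ c F) : InT a δ lam (fun l => (c l : ZMod m)) F := fun x i j hx l => by
  obtain ⟨h1, h2⟩ := h x i j hx l
  obtain ⟨t, ht⟩ : ∃ t : ℤ, t = (x l).valMinAbs - lam * c l := ⟨_, rfl⟩
  have e : (t : ℝ) = (x l).valMinAbs - lam * c l := by exact_mod_cast ht
  have t0 : (0 : ℝ) < t := (mul_pos_iff_of_pos_left ha).1 (by rw [e]; linarith)
  have t1 : (t : ℝ) < lam := lt_of_mul_lt_mul_left (by rw [e]; linarith) ha.le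
  have t2 : lam ≤ n := hn ▸ Nat.le_mul_of_pos_left _ (NeZero.pos m)
  have e2 : (((x - corner lam fun l => (c l : ZMod m) : Site 4 n) l).val : ℤ) = t := by
    rw [Pi.sub_apply, corner, corner_int hn _ (c l) rfl, ← (x l).coe_valMinAbs, ← Int.cast_sub, ← ht,
      ZMod.val_intCast, Int.emod_eq_of_lt (by exact_mod_cast t0.le) (by
        exact_mod_cast t1.trans_le (Nat.cast_le.2 t2))]
  rw [← Int.cast_natCast, e2, e]
  constructor <;> linarith

omit [NeZero n] in
theorem val_box {c : Fin 4 → ℤ} (hc : c ∈ cells lo hi) (hE : ∀ l, hi l - lo l ≤ E) (h4 : 4 * E < m)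
    (l : Fin 4) : (((c l : ZMod m) - lo l).val : ℤ) = c l - lo l ∧ c l < hi l := by
  have := mem_Ico.1 (Fintype.mem_piFinset.1 hc l)
  have := hE l
  rw [← Int.cast_sub, ZMod.val_intCast, Int.emod_eq_of_lt (by omega) (by omega)]
  omega

variable [MeasurableSpace SU2] [BorelSpace SU2] {h : Measure SU2} [h.IsHaarMeasure]
  [IsProbabilityMeasure h]

/-- the chessboard estimate for the observables of the cells of a box -/
theorem ob_box (hb : 0 ≤ b) (hm : Odd m) (hn : n = m * lam) (m1 : 1 < m) (ha : 0 < a) (hδ : 0 ≤ δ)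
    (haδ : δ + a ≤ δ') (hτ : τ' + 4 * a' ≤ τ) (hI : Inv Λ lam) (w0 : 0 < w) (hC : 0 ≤ C)
    (hG : Gen h b (κ := κ) Λ (Cla (m := m) a a' τ δ lam D) w (exp (C * m ^ 4))) (a0 : 0 ≤ a')
    (τ0 : 0 ≤ τ') (hE : ∀ l, hi l - lo l ≤ E) (h4 : 4 * E < m) {ι : Type} (A : Finset ι)
    {c : ι → Fin 4 → ℤ} (hc : Set.InjOn c A) (hA : ∀ i ∈ A, c i ∈ cells lo hi)
    {F : ι → κ → Src n} (hF : ∀ i ∈ A, Cla a a' τ' δ' lam (D + 2) (fun l => (c i l : ZMod m)) (F i))
    (T : ι → Finset κ) : |∫ U, ∏ i ∈ A, ob Λ (F i) (T i) U ∂wilson h b n| ≤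
      exp (256 * C * (cells lo hi).card) * ∏ i ∈ A, w ^ (T i).card := by
  classical
  have l0 : 0 < lam := Nat.pos_of_ne_zero (by rintro rfl; exact NeZero.ne n hn)
  have ln : lam < n := by rw [hn]; nlinarith
  obtain ⟨cb, hcb⟩ : ∃ cb : ι → Site 4 m, ∀ i, cb i = fun l => (c i l : ZMod m) := ⟨_, fun _ => rfl⟩
  have ci : Set.InjOn cb A := fun i hi j hj e => hc hi hj (funext fun l => by
    have a1 := (val_box (hA i hi) hE h4 l).1
    rw [show (c i l : ZMod m) = c j l from congrFun ((hcb i).symm.trans (e.trans (hcb j))) l,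
      (val_box (hA j hj) hE h4 l).1] at a1
    omega)
  simp only [← hcb] at hF
  let β := Option ({G : κ → Src n // (∀ i, Lab a' τ lam ⌈δ / a⌉₊ (G i)) ∧ Sc D G} × Finset κ)
  obtain ⟨σ, s1, s2⟩ : ∃ σ : Site 4 m → β, (∀ x, x ∉ A.image cb → σ x = none) ∧ ∀ i ∈ A, ∃ G,
      σ (cb i) = some (G, T i) ∧ G.1 = fun j y => F i j (y + corner lam (cb i)) :=
    ⟨fun x => if hx : ∃ i ∈ A, cb i = x then some (⟨_, fun i => lab_of
      ((hF _ hx.choose_spec.1).1 i).1 ((hF _ hx.choose_spec.1).1 i).2 ha hδ haδ hτ,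
      (hF _ hx.choose_spec.1).2.sc _⟩, T hx.choose) else none,
      fun x hx => dif_neg (by simpa using hx), fun i hi => by
        have hx : ∃ j ∈ A, cb j = cb i := ⟨i, hi, rfl⟩
        have e := ci hx.choose_spec.1 hi hx.choose_spec.2
        exact ⟨_, (dif_pos hx).trans (by rw [← congrArg T e]), by simp only [e]⟩⟩
  have key := YM5.wilson_cbox h hb hm hn (β := β) none (fun k o => o.map fun G =>
      (⟨fun i => rL lam k (G.1.1 i), fun i => (G.1.2.1 i).rL ln k, G.1.2.2.rL lam k⟩, G.2))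
    (fun _ => rfl) (fun k o => by cases o <;> simp [rL_rL])
    (fun o U => o.elim 1 fun G => ob Λ G.1.1 G.2 U)
    (fun o => by
      cases o
      · exact BM.const 1
      · exact BM.of_continuous (cont_ob _ _ _))
    (fun _ => rfl)
    (fun o k U => by
      rcases o with _ | G
      · simp only [Option.elim, Option.map]
      · simpa only [Option.elim, Option.map] using hI.ob_rL (F := G.1.1) (T := G.2) k U)
    (fun o U V hUV => by
      rcases o with _ | G
      · simp only [Option.elim]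
      · simp only [Option.elim, ob, fun i => (G.1.2.1 i).dep ln U V hUV])
    (fun o => o.elim 1 fun G => w ^ G.2.card) (fun o => by cases o <;> simp [w0]) rfl
    (fun k o => by cases o <;> rfl) hC (fun σ => ?_) (fun l => (hi l - lo l).toNat)
    (fun l => Int.toNat_le.2 (hE l)) h4 (fun l => lo l)
    σ fun x l hx => s1 x fun k => by
      obtain ⟨i, hi, rfl⟩ := mem_image.1 k
      have := val_box (hA i hi) hE h4 l
      simp only [hcb, Pi.sub_apply] at hx
      omega
  · refine le_trans (le_of_eq ?_) (key.trans_eq ?_)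
    · congr 2
      funext U
      rw [← prod_subset (subset_univ (A.image cb)) fun x _ hx => by rw [s1 x hx]; rfl, prod_image ci]
      refine prod_congr rfl fun i hi => ?_
      obtain ⟨G, e1, e2⟩ := s2 i hi
      simp only [e1, e2, Option.elim, ← hI.ob_sh, sub_add_cancel]
    · rw [← prod_subset (subset_univ (A.image cb)) fun x _ hx => by rw [s1 x hx]; rfl, prod_image ci]
      congr 1
      · simp only [prod_mul_distrib, Fintype.card_piFinset, Int.card_Ico, Nat.cast_prod]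
        norm_num
        ring
      · refine prod_congr rfl fun i hi => ?_
        obtain ⟨G, e1, -⟩ := s2 i hi
        simp only [e1, Option.elim]
  · have := hG.le hI w0 (F := fun x => (σ x).elim 0 fun G i y => G.1.1 i (y - corner lam x))
      (fun x => ?_) fun x => (σ x).elim ∅ (·.2)
    · refine (congrArg (|∫ U, · U ∂_|) (funext fun U => prod_congr rfl fun x _ => ?_)).trans_le
        (this.trans_eq (congrArg _ (prod_congr rfl fun x _ => ?_)))
      all_goals rcases σ x with _ | G <;> simp [hI.ob0, hI.ob_sh]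
    · rcases σ x with _ | G
      · exact ⟨fun i => ⟨⟨0, by simp, by simpa, by simp; linarith⟩, fun _ _ _ e => (e rfl).elim⟩,
          fun _ _ _ _ _ _ _ _ _ e => (e rfl).elim⟩
      · exact ⟨fun i => (G.1.2.1 i).cla ha ((div_le_iff₀' ha).1 (Nat.le_ceil _)) x,
          fun i j e y _ _ y' _ _ a b => by
            simpa using G.1.2.2 i j e _ _ _ _ _ _ _ _ a b (fun _ => .inl rfl) fun _ => .inl rfl⟩

omit [NeZero n] [NeZero m] in
theorem Fam.big_box {ι : Type} {Φ : Filter ι} {n : ι → ℕ} [∀ p, NeZero (n p)] {a b τ : ι → ℝ}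
    (hF : Fam Φ n a b τ) (lo hi : Fin 4 → ℤ) : ∃ E : ℕ, (∀ l, hi l - lo l ≤ E) ∧ ∀ᶠ p in Φ, 0 ≤ b p ∧ ∀ m lam : ℕ,
      n p = m * lam → a p * lam ≤ 1 → 4 * E < m ∧ 1 < m := by
  refine ⟨∑ l, (hi l - lo l).toNat, fun l => (Int.self_le_toNat _).trans (by
    exact_mod_cast single_le_sum (f := fun l => (hi l - lo l).toNat) (fun _ _ => Nat.zero_le _)
      (mem_univ l)), ?_⟩
  filter_upwards [hF.b0, hF.vol.eventually_gt_atTop (4 * (∑ l, (hi l - lo l).toNat : ℕ) + 1)]
    with p h1 h2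
  refine ⟨h1, fun m lam e e' => ?_⟩
  rw [e, Nat.cast_mul, mul_left_comm] at h2
  have : 4 * ∑ l, (hi l - lo l).toNat + 1 < m := by
    exact_mod_cast h2.trans_le (mul_le_of_le_one_right (by positivity) e')
  omega

omit [NeZero n] [NeZero m] in
theorem cellA_of_poly2 {ι : Type} {Φ : Filter ι} {n : ι → ℕ} [∀ p, NeZero (n p)] {a b τ : ι → ℝ}
    (hF : Fam Φ n a b τ) (hP : Poly2 h Φ n a b fun p => 4 * τ p) : CellA h Φ n a b τ := by
  intro e δ hδ
  obtain ⟨C, w, hC⟩ := hP e (δ / 2) (half_pos hδ)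
  refine ⟨256 * |C| + |w| + exp (256 * |C|) * |w|, fun lo hi => ?_⟩
  obtain ⟨E, hE, hb⟩ := hF.big_box lo hi
  filter_upwards [hC, hb, hF.pos, hF.small (half_pos hδ), hF.tau.eventually_ge_atTop 2]
    with p ⟨m, lam, _, hm, hn, hl, Λ, hI, hG⟩ ⟨b0, h1⟩ ⟨ha, τ0⟩ h3 h5 k c F hc hA hN hF
  rw [le_div_iff₀ ha] at h5
  obtain ⟨h4, m1⟩ := h1 m lam hn (hl ▸ inv_le_one_of_one_le₀ (one_le_pow₀ (by norm_num)))
  have w0 : 0 < w := by
    obtain ⟨g, hg, -⟩ := hG 0 fun c => ⟨fun _ => ⟨⟨0, by simp, by simpa using ha.le, by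
      simpa using τ0.le⟩, fun _ _ _ e => (e rfl).elim⟩, fun _ _ e => (e rfl).elim⟩
    exact inv_pos.1 (hg.pos (0, ()))
  replace hG : Gen h (b p) (κ := Unit) Λ (Cla (m := m) (a p) (a p) (4 * τ p) (δ / 2) lam 0) w
      (exp (|C| * m ^ 4)) := fun F hF => (hG F hF).imp fun g hg =>
    ⟨hg.1.mono (by gcongr; exact le_abs_self C), hg.2⟩
  have cl : ∀ i, Cla (a p) (a p) (τ p) δ lam (0 + 2) (fun l => (c i l : ZMod m)) fun _ : Unit => F i :=
    fun i => ⟨fun _ => ⟨hN i, inT_of hn ha hδ (hl ▸ hF i)⟩, fun _ _ e => (e rfl).elim⟩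
  have kV : k ≤ (cells lo hi).card := by
    simpa using card_le_card_of_injOn (s := univ) c (fun i _ => hA i) hc.injOn
  have := centre_bound h (b := b p) univ F (fun i => (jd {()} fun s =>
    (ma univ (mom Λ fun _ : Unit => F i) s)⁻¹).re) (C := exp (256 * |C|) * w)
    (M := exp (256 * |C| * (cells lo hi).card) * (1 + w) ^ k) (fun B _ => ?_) fun i _ => ?_
  · rw [gcorr_eq, abs_of_pos w0, add_mul, add_mul, exp_add, exp_add]
    refine this.trans ?_
    have x : ∀ t : ℝ, 0 ≤ t → (1 + t) ^ k ≤ exp (t * (cells lo hi).card) := fun t t0 =>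
      (pow_le_pow_left₀ (by positivity) ((add_comm 1 t).trans_le (add_one_le_exp t)) k).trans (by
        rw [← exp_nat_mul, mul_comm]; gcongr)
    rw [card_fin]
    gcongr
    exacts [x _ w0.le, x _ (by positivity)]
  · have := ob_box b0 hm hn m1 ha (half_pos hδ).le (δ' := δ) (by linarith) (τ' := τ p) (by linarith)
      hI w0 (abs_nonneg C) hG ha.le τ0.le hE h4 B hc.injOn (fun i _ => hA i) (fun i _ => cl i)
      fun _ => {()}
    simp only [hI.ob1, card_singleton, pow_one, prod_const] at this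
    simp only [← neg_sub (jd _ _).re, prod_neg, integral_const_mul, abs_mul, abs_pow, abs_neg,
      abs_one, one_pow, one_mul]
    refine this.trans (mul_le_mul_of_nonneg_left ((pow_le_pow_left₀ w0.le (by linarith) _).trans
      (pow_le_pow_right₀ (by linarith) (by simpa using card_le_univ B))) (exp_pos _).le)
  · have := ob_le b0 hm hn m1 ha (half_pos hδ).le (δ' := δ) (by linarith) (τ' := τ p) (by linarith)
      hI w0 (abs_nonneg C) hG (cl i) {()}
    simp only [hI.ob1] at this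
    rw [integral_sub (integrable_const _) (cint _ (continuous_gfield _)), abs_sub_comm] at this
    simpa using this

end Pool.Agent.Lib.MP_7f377f_mp.YM7
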