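import Pool.Agent.Lib.MP_7f377f_mp.SoftH
import Pool.Agent.Lib.MP_7f377f_mp.SoftJ
import Pool.Agent.Lib.MP_7f377f_mp.Q5Test

/-! The short distance law for arrays of clusters. -/

noncomputable section

namespace Pool.Agent.Lib.MP_7f377f_mp.YM7

open MeasureTheory Weak Filter Topology Real Jet Finset Pur

variable {n m lam D E : ℕ} [NeZero n] [NeZero m] {κ : Type} [Fintype κ] [DecidableEq κ]
  {Λ : (Cfg n → ℝ) → ℝ} {a a' τ τ' δ δ' w C b M ρ ε X Y η : ℝ} {lo hi : Fin 4 → ℤ} {F : κ → Src n}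
  [MeasurableSpace SU2] [BorelSpace SU2] {h : Measure SU2} [h.IsHaarMeasure]
  [IsProbabilityMeasure h]

omit [NeZero m] [BorelSpace SU2] [h.IsHaarMeasure] [IsProbabilityMeasure h] in
theorem Inv.cen_ob (hI : Inv Λ lam) (F : κ → Src n) (U : Cfg n) : ∏ i, cen h b (F i) U =
    ∑ B, ((-1) ^ Fintype.card κ * (jd Bᶜ fun s => ma univ (mom Λ F) s *
      Complex.exp (∑ i, s i * ex h b n (gfield (F i)))).re) * ob Λ F B U := by
  obtain ⟨r, hr, h2⟩ := (ev_inv (hI.mom0 F)).exists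
  have k := jd_mul ((sh_lin hr.pos univ fun i => (-gfield (F i) U : ℝ)).exp.mul hr) ((sh_ma hr.pos univ
    (mom Λ F)).mul (sh_lin hr.pos univ fun i => (ex h b n (gfield (F i)) : ℂ)).exp) univ
  rw [jd_congr hr.pos (g' := fun s => Complex.exp (∑ i, s i * (-cen h b (F i) U : ℝ))) (fun s hs => by
    simp only [Pi.mul_apply, mul_assoc, inv_mul_cancel_left₀ (h2 s hs), ← Complex.exp_add,
      ← sum_add_distrib, ← mul_add]
    simp [cen, ex, sub_eq_neg_add]), jd_exp_lin _ Subset.rfl, ← Complex.ofReal_prod] at k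
  have k2 := congrArg Complex.re k
  simp only [Complex.ofReal_re, prod_neg, Complex.re_sum, Pi.mul_def, ← hI.ob_eq,
    Complex.re_ofReal_mul, powerset_univ, card_univ, ← compl_eq_univ_sdiff] at k2
  simp only [mul_comm _ (ob Λ F _ U), mul_left_comm (ob Λ F _ U), ← mul_sum, ← k2]
  rw [← mul_assoc, ← mul_pow]
  simp

/-- a constant -/
def cA (k : ℕ) (C M : ℝ) : ℝ := exp (2 ^ k) * M * exp (k * (2 ^ k * exp (256 * C) * M))

theorem beta_le (hb : 0 ≤ b) (hm : Odd m) (hn : n = m * lam) (m1 : 1 < m) (ha : 0 < a) (hδ : 0 ≤ δ)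
    (haδ : δ + a ≤ δ') (hτ : τ' + 4 * a' ≤ τ) (hI : Inv Λ lam) (w0 : 0 < w) (hC : 0 ≤ C)
    (hG : Gen h b (κ := κ) Λ (Cla (m := m) a a' τ δ lam D) w (exp (C * m ^ 4))) {c : Site 4 m}
    (hF : Cla a a' τ' δ' lam (D + 2) c F) {e : Finset κ → ℂ} (hR : Red Λ F w M e)
    (he : ∀ T, 2 ≤ T.card → ‖e T‖ ≤ ρ ^ T.card) (ρ0 : 0 < ρ) (hw : w ≤ ε * ρ) (ε1 : ε ≤ 1)
    (X0 : 0 ≤ X) (hX : ε * (X * ρ ^ Fintype.card κ) ≤ η)
    (hY : |X * ∫ U, ∏ i, cen h b (F i) U ∂wilson h b n - Y| ≤ η) : ∃ β : Finset κ → ℝ,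
      (∀ U, X * ∏ i, cen h b (F i) U - Y = ∑ B, β B * ob Λ F B U) ∧ ∑ B, |β B| * w ^ B.card ≤
        (1 + 2 ^ Fintype.card κ * (1 + exp (256 * C)) * cA (Fintype.card κ) C M) * η := by
  have ε0 : 0 < ε := pos_of_mul_pos_left (w0.trans_le hw) ρ0.le
  have wρ : w ≤ ρ := hw.trans (mul_le_of_le_one_left ρ0.le ε1)
  obtain ⟨-, q', hq', q1, hm1⟩ := red_of_gen hb hm hn m1 ha hδ haδ hτ hI w0 hC hG hF hR
  obtain ⟨e0, q, hq, q0, hm0⟩ := hR
  have M0 := hq.nonneg
  have h2 : ∀ i, ‖e {i} + ex h b n (gfield (F i))‖ ≤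
      2 ^ Fintype.card κ * exp (256 * C) * M * w := fun i => by
    have := (hm1 {i}).trans (jd_mul_one (sh_ma hq'.pos univ e).exp hq' i)
    simp only [jd_single i fun s => Complex.exp _, ma_single (mem_univ i), ma_zero, e0, q1] at this
    rw [show e {i} + ex h b n (gfield (F i)) = -jd {i} q' by
      simp [mom, ex, integral_neg] at this; simp only [ex]; linear_combination -this, norm_neg]
    simpa using hq'.jd_pow {i}
  have r0 : ∀ _ : κ, 0 < ρ⁻¹ := fun _ => inv_pos.2 ρ0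
  have hq2 := hq.shrink r0 fun _ => inv_anti₀ w0 wρ
  have hA := (((sh_ma_le ρ0 (hi_le (X := 1) (by simpa) zero_le_one ρ0)).exp.mul hq2).mul (sh_lin r0 univ
    fun i => e {i} + ex h b n (gfield (F i))).exp).mono (M' := cA (Fintype.card κ) C M) (by
      rw [cA, mul_one]
      gcongr
      exact (sum_le_card_nsmul _ _ _ fun i _ => by
        rw [inv_mul_le_iff₀' ρ0]; exact (h2 i).trans (by gcongr)).trans_eq (by simp))
  obtain ⟨r, hr⟩ : ∃ r : Finset κ → ℝ, r = fun B => (-1) ^ Fintype.card κ * (jd Bᶜ fun s =>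
    ma univ (mom Λ F) s * Complex.exp (∑ i, s i * ex h b n (gfield (F i)))).re := ⟨_, rfl⟩
  have h3 : ∀ B ≠ ∅, |X * r B| * w ^ B.card ≤ cA (Fintype.card κ) C M * η := fun B hB => by
    have := ((Eqv.mk ⟨_, sh_ma r0 univ (mom Λ F)⟩ ⟨_, (sh_ma r0 univ e).exp.mul hq2⟩
      fun T hT => (jd_ma _ hT).trans (hm0 T)).mul (Hb.refl (A := univ) ⟨_, (sh_lin r0 univ
        fun i => (ex h b n (gfield (F i)) : ℂ)).exp⟩)).eq Bᶜ (subset_univ _)
    have h4 : |r B| ≤ cA (Fintype.card κ) C M * ρ ^ Bᶜ.card := by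
      rw [hr, abs_mul, abs_pow, abs_neg, abs_one, one_pow, one_mul, this]
      refine (Complex.abs_re_le_norm _).trans ((congrArg (‖jd Bᶜ ·‖) (funext fun s => ?_)).trans_le
        (hA.jd_pow Bᶜ))
      simp only [Pi.mul_apply, ma_hi e0 s, mul_add, sum_add_distrib, Complex.exp_add]
      ring
    have h5 : w ^ B.card ≤ ε * ρ ^ B.card := (pow_le_pow_left₀ w0.le hw _).trans (by
      rw [mul_pow]; gcongr; exact pow_le_of_le_one ε0.le ε1 (card_ne_zero.2 (nonempty_iff_ne_empty.2 hB)))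
    have := hA.nonneg
    rw [abs_mul, abs_of_nonneg X0]
    refine le_trans (le_of_le_of_eq (b := X * (cA _ C M * ρ ^ Bᶜ.card) * (ε * ρ ^ B.card))
      (by gcongr) ?_) (mul_le_mul_of_nonneg_left hX this)
    rw [← card_add_card_compl B]
    ring
  have e1 : ∀ U, X * ∏ i, cen h b (F i) U - Y =
      ∑ B, (X * r B - if B = ∅ then Y else 0) * ob Λ F B U := fun U => by
    simp [hI.cen_ob F U, hr, sub_mul, hI.ob0, mul_sum, mul_assoc]
  refine ⟨_, e1, ?_⟩
  have h6 : ∀ t : ℝ, 0 ≤ t → ∑ B ∈ univ.erase (∅ : Finset κ), t ≤ 2 ^ Fintype.card κ * t := fun t t0 => by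
    simpa using sum_le_sum_of_subset_of_nonneg (erase_subset ∅ (univ : Finset (Finset κ)))
      fun _ _ _ => t0
  have h7 := (abs_nonneg _).trans hY
  have h8 := mul_nonneg hA.nonneg h7
  have e2 := congrArg (∫ U, · U ∂wilson h b n) (funext e1)
  have cp := continuous_finsetProd univ fun i _ => continuous_cen h b (F i)
  beta_reduce at e2
  rw [integral_sub ((cint _ cp).const_mul X) (integrable_const Y), integral_finsetSum _ fun B _ =>
    (cint _ (cont_ob Λ F B)).const_mul _, ← add_sum_erase _ _ (mem_univ ∅)] at e2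
  simp only [integral_const_mul, integral_const, probReal_univ, one_smul, hI.ob0, mul_one,
    if_true] at e2
  rw [← add_sum_erase _ _ (mem_univ ∅), card_empty, pow_zero, mul_one, if_pos rfl,
    eq_sub_of_add_eq e2.symm]
  refine (add_le_add ((abs_sub _ _).trans (add_le_add hY ((abs_sum_le_sum_abs _ _).trans
    ((sum_le_sum fun B hB => ?_).trans (h6 (exp (256 * C) * (cA _ C M * η)) (by positivity))))))
    ((sum_le_sum fun B hB => ?_).trans (h6 _ h8))).trans_eq (by ring)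
  all_goals rw [if_neg (ne_of_mem_erase hB), sub_zero]
  · rw [abs_mul]
    exact (mul_le_mul_of_nonneg_left (ob_le hb hm hn m1 ha hδ haδ hτ hI w0 hC hG hF B)
      (abs_nonneg _)).trans (by
        rw [mul_left_comm]; exact mul_le_mul_of_nonneg_left (h3 B (ne_of_mem_erase hB)) (exp_pos _).le)
  · exact h3 B (ne_of_mem_erase hB)

omit [NeZero m] in
theorem arr_sum {ι γ : Type} [Fintype ι] [DecidableEq ι] [Fintype γ] {O : ι → γ → Cfg n → ℝ}
    (hO : ∀ c B, Continuous (O c B)) {β : ι → γ → ℝ} {ω : γ → ℝ} (ω0 : ∀ B, 0 ≤ ω B)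
    (h1 : ∀ T : ι → γ, |∫ U, ∏ c, O c (T c) U ∂wilson h b n| ≤ ∏ c, ω (T c))
    (h2 : ∀ c, ∑ B, |β c B| * ω B ≤ η) :
    |∫ U, ∏ c, ∑ B, β c B * O c B U ∂wilson h b n| ≤ η ^ Fintype.card ι := by
  simp only [Fintype.prod_sum, prod_mul_distrib]
  rw [integral_finsetSum _ fun T _ => (cint _ (continuous_finsetProd _ fun c _ => hO c _)).const_mul _]
  refine (abs_sum_le_sum_abs _ _).trans ((sum_le_sum fun T _ => ?_).trans ((Fintype.prod_sum
    fun c B => |β c B| * ω B).ge.trans ((prod_le_prod (fun c _ => sum_nonneg fun B _ => mul_nonneg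
      (abs_nonneg _) (ω0 B)) fun c _ => h2 c).trans_eq (by simp))))
  rw [integral_const_mul, abs_mul, abs_prod, prod_mul_distrib]
  exact mul_le_mul_of_nonneg_left (h1 T) (prod_nonneg fun _ _ => abs_nonneg _)

/-- reflection of the cell at the origin in several directions -/
def rS (lam : ℕ) (S : Finset (Fin 4)) (F : Src n) : Src n := fun x i j =>
  F (fun l => if l ∈ S then lam - x l - (if i = l ∨ j = l then 1 else 0) else x l) i j

omit [NeZero n] [Fintype κ] [DecidableEq κ] [MeasurableSpace SU2] [BorelSpace SU2] in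
theorem rS_ind {P : (κ → Src n) → Prop} (hP : ∀ F k, P F → P fun i => rL lam k (F i)) (h : P F)
    (S : Finset (Fin 4)) : P fun i => rS lam S (F i) := by
  induction S using Finset.induction_on with
  | empty => exact h
  | insert k S hk ih =>
    convert hP _ k ih using 2 with i
    funext x μ ν
    simp only [rS, rL, rF]
    congr 1
    funext l
    by_cases hl : l = k <;> by_cases h : μ = k ∨ ν = k <;> simp [rq, rc, Weak.rf, hl, h, hk]

omit [NeZero n] [MeasurableSpace SU2] [BorelSpace SU2] in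
theorem vma_eq {t : ℤ} (h : |(t : ℝ)| + |((t : ZMod n).valMinAbs : ℝ)| < n) :
    (t : ZMod n).valMinAbs = t := by
  have : |t - (t : ZMod n).valMinAbs| < n := by exact_mod_cast (abs_sub _ _).trans_lt h
  exact (sub_eq_zero.1 (Int.eq_zero_of_abs_lt_dvd ((ZMod.intCast_eq_intCast_iff_dvd_sub _ _ _).1
    (ZMod.coe_valMinAbs _)) this)).symm

variable {k : ℕ} {f : Fin k → R4 → ℝ} {L δ₀ d B : ℝ}

/-- the reflected cluster of the cell `c` -/
def clu (m lam : ℕ) (L : ℝ) (f : Fin k → R4 → ℝ) (s : ℝ) (c : Fin 4 → ℤ) (i : Fin k) : Src n :=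
  fun y => rS lam {l | Odd (c l)} (tsr L f s (fun _ => (lam / 2 : ℕ)) i)
    (y - corner lam fun l => (c l : ZMod m))

omit [MeasurableSpace SU2] [BorelSpace SU2] in
theorem near_clu (H : Tf f L δ₀) (hn : n = m * lam) (ha : 0 < a) (d0 : 0 < d) {c : Fin 4 → ℤ}
    (hB : ∀ l, |(c l : ℝ)| ≤ B) (hv : 2 * (a * lam * (B + 1) + a + d * L) < a * n) (i : Fin k) :
    Near a (L • clu (n := n) m lam L f (a / d) c i) fun y => f i (d⁻¹ • fold (a * lam) c y) := by
  intro x μ ν
  have L1 := H.one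
  obtain ⟨t, ht⟩ : ∃ t : Fin 4 → ℤ, ∀ l, t l = (if Odd (c l) then lam - ((x l).valMinAbs - lam * c l) -
    (if μ = l ∨ ν = l then 1 else 0) else (x l).valMinAbs - lam * c l) - (lam / 2 : ℕ) :=
    ⟨_, fun _ => rfl⟩
  have e : (L • clu (n := n) m lam L f (a / d) c i) x μ ν = f i (xp (a / d) fun l => (t l : ZMod n)) := by
    simp only [Pi.smul_apply, clu, rS, tsr, smul_eq_mul]
    rw [mul_inv_cancel_left₀ (by positivity)]
    congr 2
    funext l
    simp only [Pi.sub_apply, corner, corner_int hn _ (c l) rfl, ht, mem_filter_univ]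
    split_ifs <;> simp only [Int.cast_sub, Int.cast_natCast, ZMod.coe_valMinAbs, Int.cast_one,
      Int.cast_zero]
  have u : (lam - 1 : ℝ) ≤ 2 * (lam / 2 : ℕ) ∧ (2 * (lam / 2 : ℕ) : ℝ) ≤ lam := by
    constructor <;> (try rw [sub_le_iff_le_add]) <;> norm_cast <;> omega
  have t1 : ∀ l, |(t l : ℝ) - (-1) ^ c l * ((x l).valMinAbs - (c l + 1 / 2) * lam)| ≤ 1 := fun l => by
    rw [ht, abs_le]
    rcases Int.even_or_odd (c l) with o | o
    · rw [if_neg (Int.not_odd_iff_even.2 o), o.neg_one_zpow]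
      simp only [Int.cast_sub, Int.cast_mul, Int.cast_natCast]
      constructor <;> linarith
    · rw [if_pos o, o.neg_one_zpow]
      split_ifs <;> simp only [Int.cast_sub, Int.cast_mul, Int.cast_natCast, Int.cast_one,
        Int.cast_zero] <;> constructor <;> linarith
  have s1 : ∀ l, |(-1 : ℝ) ^ c l| = 1 := fun l => by simp
  have x1 : ∀ z : ZMod n, |(z.valMinAbs : ℝ)| * 2 ≤ n := fun z => by
    have := ZMod.natAbs_valMinAbs_le z
    rw [← Int.cast_abs, ← Int.natCast_natAbs]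
    exact_mod_cast (by omega : z.valMinAbs.natAbs * 2 ≤ n)
  have B0 := (abs_nonneg _).trans (hB 0)
  rw [e]
  by_cases z : f i (xp (a / d) fun l => (t l : ZMod n)) = 0 ∧ f i (d⁻¹ • fold (a * lam) c (xp a x)) = 0
  · exact .inl z
  have v : ∀ l, (t l : ZMod n).valMinAbs = t l := fun l => vma_eq (lt_of_mul_lt_mul_left (by
    have t2 := abs_sub_abs_le_abs_sub _ _ |>.trans (t1 l)
    rw [abs_mul, s1, one_mul] at t2
    have t3 : 0 ≤ a * lam * (B + 1) := by positivity
    rcases not_and_or.1 z with z | z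
    · have := H.cube i _ z l
      rw [xp, abs_mul, abs_of_pos (div_pos ha d0), div_mul_eq_mul_div, div_le_iff₀' d0] at this
      have t4 : |((x l).valMinAbs - (c l + 1 / 2) * lam : ℝ)| ≤ n / 2 + (B + 1) * lam :=
        (abs_sub _ _).trans (add_le_add (by linarith [x1 (x l)]) (by
          rw [abs_mul, Nat.abs_cast]
          gcongr
          exact (abs_add_le _ _).trans (add_le_add (hB l) (by norm_num))))
      nlinarith
    · have := H.cube i _ z l
      simp only [Pur.fold, xp, PiLp.smul_apply, smul_eq_mul, abs_mul, s1, one_mul, abs_inv, abs_of_pos d0,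
        mul_left_comm _ a, ← mul_sub, abs_of_pos ha] at this
      rw [mul_left_comm, inv_mul_le_iff₀ d0] at this
      nlinarith [x1 (t l)]) ha.le)
  refine .inr ⟨WithLp.toLp 2 fun l => (c l + 1 / 2) * (a * lam) + (-1) ^ c l * (a * t l),
    (dist_le_two (w := a) fun l => ?_).trans (by linarith), congrArg _ ?_⟩
  · have := mul_le_of_le_one_right (abs_nonneg a) ((mul_le_mul_of_nonneg_right (s1 l).le
      (abs_nonneg _)).trans ((one_mul _).trans_le (t1 l)))
    rw [← abs_mul, ← abs_mul, abs_of_pos ha] at this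
    refine le_of_eq_of_le (congrArg _ ?_) this
    rcases Int.even_or_odd (c l) with o | o <;> simp [o.neg_one_zpow, xp] <;> ring
  · ext l
    rcases Int.even_or_odd (c l) with o | o <;> simp [o.neg_one_zpow, xp, Pur.fold, v] <;> ring

omit [NeZero m] in
theorem cla_clu (H : Tf f L δ₀) (hn : n = m * lam) (m1 : 1 < m) (ha : 0 < a) (had : 3 * a ≤ d)
    (hδ : 0 ≤ δ) (hl : δ + (L + 1) * d = a * lam / 2) (hv : 4 * (d * L) < a * n)
    (hD : (D + 4) * (a / d) ≤ δ₀) (c : Fin 4 → ℤ) :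
    Cla a (a / d) (4 * (a / d)) (δ + a) lam (D + 2) (fun l => (c l : ZMod m))
      (clu (n := n) m lam L f (a / d) c) ∧ corr h b n a (fun i y => f i (d⁻¹ • y)) =
        L ^ k * gcorr h b n (clu m lam L f (a / d) c) := by
  have l0 : 0 < lam := Nat.pos_of_ne_zero (by rintro rfl; exact NeZero.ne n hn)
  have ln : lam < n := by rw [hn]; nlinarith
  have d0 : 0 < d := by linarith
  have c0 : corner lam (0 : Site 4 m) = (0 : Site 4 n) := funext fun _ => by simp [corner]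
  have u : (lam - 1 : ℝ) ≤ 2 * (lam / 2 : ℕ) ∧ (2 * (lam / 2 : ℕ) : ℝ) ≤ lam := by
    constructor <;> (try rw [sub_le_iff_le_add]) <;> norm_cast <;> omega
  have h0 := H.cla (n := n) (c := (0 : Site 4 m)) (v := fun _ => (lam / 2 : ℕ)) (D := D + 2 + 2)
    (δ := δ + a + a) (div_pos ha d0) ha (by positivity) le_rfl ln.le (by
      rw [div_mul_eq_mul_div, lt_div_iff₀ d0]; linarith) ((div_le_one d0).2 (by linarith))
    (by push_cast; linarith) fun l => by
      rw [c0, sub_zero, ZMod.val_cast_of_lt (by omega), div_div_cancel₀ ha.ne']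
      constructor <;> nlinarith
  obtain ⟨h1, h2, h3⟩ := rS_ind (lam := lam) (P := fun G => (∀ i, Lab (a / d) (4 * (a / d)) lam
    ⌈(δ + a) / a⌉₊ (G i)) ∧ Sc (D + 2) G ∧ gcorr h b n G = gcorr h b n (tsr L f (a / d) _))
    (fun G l e => ⟨fun i => (e.1 i).rL ln l, e.2.1.rL lam l, (gcorr_shift h b _ _).trans
      ((gcorr_refl h b l G).trans e.2.2)⟩) ⟨fun i => by
        simpa only [c0, add_zero] using lab_of (h0.1 i).1 (h0.1 i).2 ha (by positivity) le_rfl
          (zero_add _).le, by simpa only [add_zero] using h0.2.sc 0, rfl⟩ {l | Odd (c l)}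
  exact ⟨⟨fun i => (h1 i).cla ha ((div_le_iff₀' ha).1 (Nat.le_ceil _)) _,
    fun i j e y _ _ y' _ _ a b => by
      simpa using h2 i j e _ _ _ _ _ _ _ _ a b (fun _ => .inl rfl) fun _ => .inl rfl⟩,
    (H.corr h b a d _).trans (congrArg _ ((gcorr_shift h b _ _).trans h3).symm)⟩

omit [NeZero n] [NeZero m] in
theorem shortA_of {ι : Type} {Φ : Filter ι} {n : ι → ℕ} [∀ p, NeZero (n p)] {a b τ : ι → ℝ} {K : ℕ}
    (hF : Fam Φ n a b τ) (hS : Short h Φ n a b K) (hA : Arr2 h Φ n a b K) : ShortA h Φ n a b K := by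
  intro k hk f hf η η0
  obtain ⟨L, δ₀, H⟩ := hf.tf
  obtain ⟨R, -, hR, -⟩ := hf.data
  have L1 := H.one
  obtain ⟨C, M, hA⟩ := hA k hk (L + 1) δ₀ (by positivity) H.pos
  obtain ⟨η', p0, p1⟩ := exists_pos_mul_lt η0 (exp (256 * |C|) *
    (1 + 2 ^ k * (1 + exp (256 * |C|)) * cA k |C| M))
  filter_upwards [hS k hk f hf η' p0, hA (η' / L ^ k) (by positivity), Ioo_mem_nhdsGT
    (show (0 : ℝ) < (6 * (R + L + 1))⁻¹ by positivity)] with d h1 h2 ⟨d0, d1⟩
  rw [← one_div, lt_div_iff₀ (by positivity)] at d1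
  have R0 := mul_nonneg d0.le (Nat.cast_nonneg (α := ℝ) R)
  refine ⟨3⁻¹, by norm_num, fun i y hy => by nlinarith [hR i y hy], fun lo hi => ?_⟩
  obtain ⟨E, hE, hb⟩ := hF.big_box lo hi
  obtain ⟨B, hB⟩ := (Set.finite_range fun c : cells lo hi × Fin 4 => |(c.1.1 c.2 : ℝ)|).bddAbove
  filter_upwards [h1, h2, hb, hF.pos, hF.small (div_pos d0 three_pos),
    hF.vol.eventually_gt_atTop (|B| + 2)] with p h1 ⟨m, lam, D, _, Λ, w, ρ, ε, hm, hn, hl, hI, hD, hG,
      hr, w0, ρ0, hw, ε1, hε⟩ ⟨b0, h3⟩ ⟨ha, _⟩ h4 h5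
  obtain ⟨h6, m1⟩ := h3 m lam hn (by rw [hl]; norm_num)
  replace hG : Gen h (b p) (κ := Fin k) Λ (Cla (m := m) (a p) (a p / d) (8 * (a p / d))
      (6⁻¹ - (L + 1) * d) lam D) w (exp (|C| * m ^ 4)) := fun F hF => (hG F hF).imp fun g hg =>
    ⟨hg.1.mono (by gcongr; exact le_abs_self C), hg.2⟩
  have B0 := abs_nonneg B
  have hδ : 0 ≤ 6⁻¹ - (L + 1) * d := by linarith
  have s0 := div_pos ha d0
  have cl := cla_clu (h := h) (b := b p) H hn m1 ha (by linarith) hδ (by rw [hl]; ring)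
    (by nlinarith) hD
  refine ⟨fun c i => L • clu m lam L f (a p / d) c i, fun c hc i => hl ▸ near_clu H hn ha d0
    (fun l => (hB ⟨(⟨c, hc⟩, l), rfl⟩).trans (le_abs_self B)) (by rw [hl]; nlinarith) i, ?_⟩
  have l0 : 0 ≤ log d⁻¹ := log_nonneg ((one_le_inv₀ d0).2 (by nlinarith))
  choose β e1 e2 using fun c : Fin 4 → ℤ => (hr _ _ ⟨fun i => ⟨((cl c).1.1 i).1.imp fun g e =>
    ⟨e.1, e.2.1, fun x μ ν => (e.2.2 x μ ν).trans (by linarith)⟩, fun x μ ν e l =>
      (((cl c).1.1 i).2 x μ ν e l).imp (le_trans (by linarith)) (le_trans · (by linarith))⟩,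
    fun i j e x _ _ y _ _ u v => ((cl c).1.2 i j e x _ _ y _ _ u v).imp fun _ =>
      le_trans (Nat.le_add_right _ _)⟩).elim fun e he => beta_le b0 hm hn m1 ha hδ le_rfl (by linarith) hI
        w0 (abs_nonneg C) hG (cl c).1 he.1 he.2 ρ0 hw ε1 (X := log d⁻¹ ^ k * L ^ k) (Y := kap f) (η := η')
        (by positivity) (by
          rw [le_div_iff₀ (by positivity)] at hε
          exact le_of_eq_of_le (by rw [Fintype.card_fin]; ring) hε)
        (by rwa [← gcorr_eq, mul_assoc, ← (cl c).2])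
  have e3 : ∀ (F : Src (n p)) U, cen h (b p) (L • F) U = L * cen h (b p) F U := fun F U =>
    congrArg (· U) ((cenL h (b p)).map_smul L F)
  simp only [e3, prod_mul_distrib, prod_const, card_fin, ← mul_assoc, e1, ← prod_coe_sort (cells lo hi)]
  rw [← Fintype.card_coe]
  refine arr_sum (fun _ _ => cont_ob _ _ _) (ω := fun B => exp (256 * |C|) * w ^ B.card)
    (fun _ => by positivity) (fun T => (ob_box b0 hm hn m1 ha hδ le_rfl (by linarith) hI w0 (abs_nonneg C)
      hG s0.le (by positivity) hE h6 univ Subtype.val_injective.injOn (fun c _ => c.2)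
      (fun c _ => (cl c).1) T).trans_eq ?_) fun c => ?_
  · rw [prod_mul_distrib, prod_const, card_univ, Fintype.card_coe, ← exp_nat_mul, mul_comm _ (256 * _)]
  · simp only [mul_left_comm _ (exp _), ← mul_sum]
    exact (mul_le_mul_of_nonneg_left (e2 c) (exp_pos _).le).trans (by
      rw [Fintype.card_fin, ← mul_assoc]; exact p1.le)

end Pool.Agent.Lib.MP_7f377f_mp.YM7
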