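import Pool.Agent.Lib.MP_7f377f_mp.Q5Out
import Pool.Agent.Lib.MP_7f377f_mp.Q5Arr
import Pool.Agent.Lib.MP_7f377f_mp.SoftI
import Pool.Agent.Lib.MP_7f377f_mp.SoftH
import Pool.Agent.Lib.MP_7f377f_mp.PurI

/-! The output of the renormalisation group for arrays. -/

noncomputable section

namespace Pool.Agent.Lib.MP_7f377f_mp.RG.Q4.En

open YM7 Filter MeasureTheory

theorem out_arr [m : MeasurableSpace SU2] [BorelSpace SU2] (h : Measure SU2) [h.IsHaarMeasure]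
    [IsProbabilityMeasure h] : ∃ (G : Gl) (β : ℕ × ℕ → ℝ),
    YM7.Fam (atTop ×ˢ atTop) G.nn G.aa β ta ∧ Pur.CellA h (atTop ×ˢ atTop) G.nn G.aa β ta ∧
      ∀ K, Pur.ShortA h (atTop ×ˢ atTop) G.nn G.aa β K := by
  obtain ⟨G, β, o, -, hβ, e⟩ := out_all h
  refine ⟨G, β, o.fam hβ, cellA_of_poly2 (o.fam hβ) (e _).1, fun K =>
    shortA_of (o.fam hβ) ((e _).2 K) ?_⟩
  obtain rfl : m = Fi.mS := BorelSpace.measurable_eq
  have : (Fi.tr haar).IsHaarMeasure := (inferInstance : haar.IsHaarMeasure)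
  obtain rfl := Measure.isHaarMeasure_eq_of_isProbabilityMeasure h (Fi.tr haar)
  exact o.arr2 hβ _ K

end Pool.Agent.Lib.MP_7f377f_mp.RG.Q4.En
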