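import Pool.Agent.Lib.MP_7f377f_mp.RoA

/-! Moving the clusters apart. -/

noncomputable section

namespace Pool.Agent.Lib.MP_7f377f_mp.Ro

open Filter Topology Set Real YM7 Pur MvPolynomial
open scoped NNReal

variable {W : Pol →ₗ[ℂ] ℂ} {H : Type} [NormedAddCommGroup H] [InnerProductSpace ℂ H]
  [CompleteSpace H] {r : net.Rep W 0 H} {k : ℕ} {Z Z' : Pol}

namespace RoF

variable {f : Fin k → R4 → ℝ}

/-- the family shifted along `ell` -/
def sh (f : Fin k → R4 → ℝ) (s : Fin k → ℝ) : Fin k → R4 → ℝ := fun i y => f i (y - s i • ell)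

theorem sh_sh (f : Fin k → R4 → ℝ) (s u : Fin k → ℝ) : sh (sh f s) u = sh f (s + u) := by
  funext i y
  simp only [sh, Pi.add_apply, add_smul, sub_sub, add_comm]

theorem sh_zero (f : Fin k → R4 → ℝ) : sh f 0 = f := by
  funext i y
  simp [sh]

theorem sh_supp {s : Fin k → ℝ} {i : Fin k} {y : R4} (h : y ∈ tsupport (sh f s i)) :
    y - s i • ell ∈ tsupport (f i) := tsupport_comp (θ := fun y => y - s i • ell) (by fun_prop) h

theorem ell_bd (i : Fin 4) : 1 ≤ ell i ∧ ell i ≤ 8 := by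
  fin_cases i <;> simp [ell]

theorem prod_mem (hf : Adm f) (U : Finset (Fin k)) {O : Set R4}
    (h : ∀ i ∈ U, tsupport (f i) ⊆ O) : ∏ i ∈ U, (X (f i) : Pol) ∈ net.loc O := by
  have := mon_mem (f := fun n => f (U.equivFin.symm n)) (O := O) ⟨fun n => hf.1 _, fun a b e =>
    hf.2 fun e' => e (U.equivFin.symm.injective (Subtype.ext e'))⟩
    fun n => h _ (U.equivFin.symm n).2
  rwa [mon, U.equivFin.symm.prod_comp fun i : U => (X (f i) : Pol),
    Finset.prod_coe_sort U fun i => (X (f i) : Pol)] at this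

theorem an1 (h : HH W) {μ : Fin 4} {c m : ℝ} (m0 : 0 < m) (hZ : Z ∈ net.loc {y | y μ < c})
    (hZ' : Z' ∈ net.loc (Hs μ (c + m))) {w : R4} (hw : 0 < w μ) :
    AnalyticOnNhd ℝ (fun t : ℝ => W (Z * net.τ (t • w) Z')) (Ici 0) := by
  have θ0 : 0 < m / w μ := div_pos m0 hw
  have h1 : net.τ (-(m / w μ) • w) Z' ∈ net.loc (Hs μ c) := Net.τ_hs hZ' (by
    rw [PiLp.smul_apply, smul_eq_mul, neg_mul, div_mul_cancel₀ _ hw.ne']; linarith)
  intro t ht
  have h2 := (h.an hZ h1 hw (t + m / w μ) (add_pos_of_nonneg_of_pos ht θ0)).comp_of_eq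
    (g := fun t : ℝ => W (Z * net.τ (t • w) (net.τ (-(m / w μ) • w) Z')))
    (f := fun t : ℝ => t + m / w μ) (x := t) (analyticAt_id.add analyticAt_const) rfl
  refine h2.congr (.of_forall fun u => ?_)
  simp only [Function.comp, net.τ_τ, ← add_smul, add_neg_cancel_right]

theorem cut {S S' : Set ℝ} (b : BddAbove S) (b' : BddBelow S') (h : ∀ x ∈ S, ∀ y ∈ S', x ≤ y) :
    ∃ d, d ∈ upperBounds S ∧ d ∈ lowerBounds S' := by
  rcases S.eq_empty_or_nonempty with e | e
  · exact b'.imp fun d hd => ⟨by simp [e], hd⟩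
  rcases S'.eq_empty_or_nonempty with e' | e'
  · exact b.imp fun d hd => ⟨hd, by simp [e']⟩
  exact exists_between_of_forall_le e e' h

theorem sepan (h : HH W) (hf : Adm f) (U : Finset (Fin k)) (g : Iso) {ν : Fin 4} {m : ℝ}
    (m0 : 0 < m) (hl : 0 < g ell ν) (sep : ∀ a ∉ U, ∀ b ∈ U, ∀ x ∈ tsupport (f a),
      ∀ y ∈ tsupport (f b), g x ν + m ≤ g y ν) :
    AnalyticOnNhd ℝ (fun t : ℝ => W (act g (mon (sh f fun i => if i ∈ U then t else 0))))
      (Ici 0) := by
  obtain ⟨D, -, hD, -⟩ := hf.data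
  have hb : ∀ a, ∀ x ∈ tsupport (f a), |g x ν| ≤ D := fun a x hx =>
    (PiLp.norm_apply_le (g x) ν).trans ((g.norm_map x).trans_le (hD a x hx))
  obtain ⟨d, d1, d2⟩ := cut (S := {t | ∃ a ∉ U, ∃ x ∈ tsupport (f a), g x ν + m = t})
    (S' := {t | ∃ b ∈ U, ∃ y ∈ tsupport (f b), g y ν = t})
    ⟨D + m, by rintro _ ⟨a, -, x, hx, rfl⟩; linarith [(abs_le.1 (hb a x hx)).2]⟩
    ⟨-D, by rintro _ ⟨a, -, x, hx, rfl⟩; exact (abs_le.1 (hb a x hx)).1⟩
    (by rintro _ ⟨a, ha, x, hx, rfl⟩ _ ⟨b, hb, y, hy, rfl⟩; exact sep a ha b hb x hx y hy)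
  have z1 : act g (∏ i ∈ Uᶜ, X (f i)) ∈ net.loc {y | y ν < d - m / 2} :=
    net.mono (act_mem g (prod_mem hf Uᶜ (O := {x | g x ν < d - m / 2}) fun i hi x hx => by
      have := d1 ⟨i, Finset.mem_compl.1 hi, x, hx, rfl⟩
      change g x ν < _
      linarith)) fun y hy => by simpa using hy
  have z2 : act g (∏ i ∈ U, X (f i)) ∈ net.loc (Hs ν (d - m / 2 + m / 4)) :=
    net.mono (act_mem g (prod_mem hf U (O := {x | d - m / 2 + m / 4 < g x ν}) fun i hi x hx => by
      have := d2 ⟨i, hi, x, hx, rfl⟩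
      change _ < g x ν
      linarith)) fun y hy => by simpa [Hs] using hy
  have e : ∀ t : ℝ, act g (mon (sh f fun i => if i ∈ U then t else 0)) =
      act g (∏ i ∈ Uᶜ, X (f i)) * net.τ (t • g ell) (act g (∏ i ∈ U, X (f i))) := fun t => by
    rw [← map_smul g, ← act_τ, ← map_mul, mon, ← Finset.prod_compl_mul_prod U, map_prod]
    congr 2
    · refine Finset.prod_congr rfl fun i hi => congrArg X (funext fun y => ?_)
      simp [sh, Finset.mem_compl.1 hi]
    · refine Finset.prod_congr rfl fun i hi => ?_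
      change _ = rename _ _
      rw [rename_X]
      refine congrArg X (funext fun y => ?_)
      simp [sh, hi]
  simp only [e]
  exact an1 h (by linarith) z1 z2 hl

/-- isometries which are near to the identity -/
def Nr (ε : ℝ) (g : Iso) : Prop :=
  ∀ (v : R4) (M : ℝ), (∀ i, |v i| ≤ M) → ∀ ν, |g v ν - v ν| ≤ ε * M

theorem nr_one {ε : ℝ} (h : 0 ≤ ε) : Nr ε 1 := fun v M hM ν => by
  simpa using mul_nonneg h ((abs_nonneg _).trans (hM 0))

theorem nr_rot (w : ℝ) : Nr (2 * |w|) (rot 0 w) := fun v M hM ν => by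
  have M0 := (abs_nonneg _).trans (hM 0)
  have c : |cos w - 1| ≤ |w| := by simpa using abs_cos_sub_cos_le w 0
  have s : |sin w| ≤ |w| := abs_sin_le_abs
  have p : ∀ (a : ℝ) i, |a| ≤ |w| → |a * v i| ≤ |w| * M := fun a i ha => by
    rw [abs_mul]
    exact mul_le_mul ha (hM i) (abs_nonneg _) (abs_nonneg _)
  by_cases h0 : ν = 0
  · rw [h0, rot_zero', show ∀ a b c d : ℝ, a * b - c * d - b = (a - 1) * b - c * d by intros; ring]
    exact (abs_sub _ _).trans (by linarith [p _ 0 c, p _ (Fin.succ 0) s])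
  by_cases h1 : ν = Fin.succ 0
  · rw [h1, rot_succ, show ∀ a b c d : ℝ, a * b + c * d - d = a * b + (c - 1) * d by intros; ring]
    exact (abs_add_le _ _).trans (by linarith [p _ 0 s, p _ (Fin.succ 0) c])
  · rw [rot_ne h0 h1, sub_self, abs_zero]
    positivity

/-- every two members are separated by a gap in some coordinate -/
def Sp (η : ℝ) (f : Fin k → R4 → ℝ) : Prop := ∀ i j, i ≠ j → ∃ (ν : Fin 4) (B : Finset (Fin k)),
  (i ∈ B ↔ j ∉ B) ∧ ∀ a ∉ B, ∀ b ∈ B, ∀ x ∈ tsupport (f a), ∀ y ∈ tsupport (f b), x ν + η ≤ y ν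

theorem adm_sh (hf : Adm f) {R T : ℝ} (hR : ∀ i, ∀ y ∈ tsupport (f i), ‖y‖ ≤ R) (hT : 2 * R < T)
    {s : Fin k → ℝ} (hs : ∀ i j, s i = s j ∨ T ≤ |s i - s j|) : Adm (sh f s) := by
  refine ⟨fun i => (adm_sub hf (s i • ell)).1 i, fun i j e => disjoint_left.2 fun y h1 h2 => ?_⟩
  have h3 := sh_supp h1
  have h4 := sh_supp h2
  rcases hs i j with h | h
  · exact disjoint_left.1 (hf.2 e) h3 (h ▸ h4)
  · have a := (PiLp.norm_apply_le _ 1).trans (hR _ _ h3)
    have b := (PiLp.norm_apply_le _ 1).trans (hR _ _ h4)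
    simp only [PiLp.sub_apply, PiLp.smul_apply, smul_eq_mul, Real.norm_eq_abs,
      show ell 1 = 1 by simp [ell], mul_one] at a b
    have := abs_sub (y 1 - s j) (y 1 - s i)
    rw [show y 1 - s j - (y 1 - s i) = s i - s j by ring] at this
    linarith

theorem core (h : HH W) (hf : Adm f) {R η T ε : ℝ} (R0 : 0 ≤ R)
    (hR : ∀ i, ∀ y ∈ tsupport (f i), ‖y‖ ≤ R) (η0 : 0 < η) (hS : Sp η f) {g : Iso} (hg : Nr ε g)
    (ε0 : 0 ≤ ε) (ε1 : ε ≤ 1 / 16) (ε2 : ε * (2 * R) ≤ η / 2) (hT : 8 * R + η ≤ T)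
    (hF : ∀ s : Fin k → ℝ, (∀ i j, i ≠ j → T ≤ |s i - s j|) →
      W (act g (mon (sh f s))) = W (mon (sh f s))) (n : ℕ) : ∀ s : Fin k → ℝ,
      (Finset.univ.filter fun p : Fin k × Fin k => s p.1 = s p.2).card = n →
      (∀ i j, s i = s j ∨ T ≤ |s i - s j|) → W (act g (mon (sh f s))) = W (mon (sh f s)) := by
  induction n using Nat.strong_induction_on with
  | _ n ih =>
  intro s hn hs
  by_cases hi : ∀ i j, i ≠ j → s i ≠ s j
  · exact hF s fun i j e => (hs i j).resolve_left (hi i j e)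
  obtain ⟨ν, B, a₀, b₀, ha, hb, hab, sep⟩ : ∃ (ν : Fin 4) (B : Finset (Fin k)), ∃ a₀ b₀,
      a₀ ∉ B ∧ b₀ ∈ B ∧ s a₀ = s b₀ ∧ ∀ a ∉ B, ∀ b ∈ B, ∀ x ∈ tsupport (f a),
        ∀ y ∈ tsupport (f b), x ν + η ≤ y ν := by
    push Not at hi
    obtain ⟨i, j, e, e'⟩ := hi
    obtain ⟨ν, B, h1, h2⟩ := hS i j e
    by_cases c : i ∈ B
    · exact ⟨ν, B, j, i, h1.1 c, c, e'.symm, h2⟩
    · exact ⟨ν, B, i, j, c, of_not_not fun c' => c (h1.2 c'), e', h2⟩
  let U : Finset (Fin k) := Finset.univ.filter fun i => s a₀ < s i ∨ s i = s a₀ ∧ i ∈ B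
  have hU : ∀ i, i ∈ U ↔ s a₀ < s i ∨ s i = s a₀ ∧ i ∈ B := fun i => by simp [U]
  have u1 : ∀ b ∈ U, s a₀ ≤ s b := fun b c => ((hU b).1 c).elim le_of_lt fun e => e.1.ge
  have u2 : ∀ a ∉ U, s a ≤ s a₀ := fun a c => not_lt.1 fun e => c ((hU a).2 (.inl e))
  have hA := adm_sh hf hR (by linarith) hs
  have an : ∀ g' : Iso, Nr ε g' → AnalyticOnNhd ℝ (fun t : ℝ =>
      W (act g' (mon (sh (sh f s) fun i => if i ∈ U then t else 0)))) (Ici 0) := fun g' hg' => by
    have l1 : 1 / 2 ≤ g' ell ν := by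
      have := hg' ell 8 (fun i => abs_le.2 ⟨by linarith [(ell_bd i).1], (ell_bd i).2⟩) ν
      linarith [(abs_le.1 this).1, (ell_bd ν).1]
    refine sepan h hA U g' (ν := ν) (m := η / 2) (by linarith) (by linarith)
      fun a c b c' x hx y hy => ?_
    have x1 := sh_supp hx
    have y1 := sh_supp hy
    have b1 : ∀ i, |((y - s b • ell) - (x - s a • ell)) i| ≤ 2 * R := fun i =>
      (PiLp.norm_apply_le ((y - s b • ell) - (x - s a • ell)) i).trans
        ((norm_sub_le _ _).trans (by linarith [hR _ _ x1, hR _ _ y1]))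
    have b2 := (abs_le.1 (hg' _ _ b1 ν)).1
    have b3 := (abs_le.1 (b1 ν)).1
    have e : g' ((y - s b • ell) - (x - s a • ell)) ν =
        g' y ν - g' x ν - (s b - s a) * g' ell ν := by
      simp only [map_sub, map_smul, PiLp.sub_apply, PiLp.smul_apply, smul_eq_mul]
      ring
    rw [e] at b2
    rcases hs b a with q | q
    · have q1 : s b = s a₀ := (q.trans_le (u2 a c)).antisymm (u1 b c')
      have q2 : b ∈ B := (((hU b).1 c').resolve_left (by rw [q1]; exact lt_irrefl _)).2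
      have q3 : a ∉ B := fun e => c ((hU a).2 (.inr ⟨q.symm.trans q1, e⟩))
      have q4 := sep a q3 b q2 _ x1 _ y1
      rw [PiLp.sub_apply (x := y - s b • ell), q, sub_self, zero_mul] at b2
      rw [q] at q4
      linarith
    · rw [abs_of_nonneg (by linarith [u1 b c', u2 a c])] at q
      nlinarith
  have T0 : 0 < T := by linarith
  have key := (an g hg).eqOn_of_preconnected_of_eventuallyEq (an 1 (nr_one ε0)) isPreconnected_Ici
    (z₀ := T + 1) (by change 0 ≤ T + 1; linarith) ?_ (self_mem_Ici)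
  · have e : (fun i => if i ∈ U then (0 : ℝ) else 0) = 0 := funext fun i => ite_self _
    simpa only [e, sh_zero, act_one] using key
  filter_upwards [Ioi_mem_nhds (lt_add_one T)] with t ht
  have ht : T < t := ht
  have gap : ∀ a ∉ U, ∀ b ∈ U, T ≤ (s + fun i => if i ∈ U then t else 0) b -
      (s + fun i => if i ∈ U then t else 0) a := fun a c b c' => by
    simp only [Pi.add_apply, if_pos c', if_neg c]
    linarith [u1 b c', u2 a c]
  have same : ∀ i j, (i ∈ U ↔ j ∈ U) → (s + fun i => if i ∈ U then t else 0) i -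
      (s + fun i => if i ∈ U then t else 0) j = s i - s j := fun i j e => by
    simp only [Pi.add_apply, e]
    ring
  rw [sh_sh, act_one]
  generalize (s + fun i => if i ∈ U then t else 0) = s' at gap same
  have sub : (Finset.univ.filter fun p : Fin k × Fin k => s' p.1 = s' p.2) ⊆
      Finset.univ.filter fun p : Fin k × Fin k => s p.1 = s p.2 := fun p hp => by
    rw [Finset.mem_filter] at hp ⊢
    refine ⟨hp.1, sub_eq_zero.1 ((same _ _ ⟨fun c => of_not_not fun c' => ?_,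
      fun c => of_not_not fun c' => ?_⟩).symm.trans (sub_eq_zero.2 hp.2))⟩
    · linarith [gap _ c' _ c, hp.2]
    · linarith [gap _ c' _ c, hp.2]
  have g0 := gap a₀ (fun c => ((hU _).1 c).elim (lt_irrefl _) fun e => ha e.2) b₀
    ((hU _).2 (.inr ⟨hab.symm, hb⟩))
  refine ih _ (hn ▸ Finset.card_lt_card ((Finset.ssubset_iff_of_subset sub).2
    ⟨(a₀, b₀), by simpa using hab, fun hp => by
      linarith [(Finset.mem_filter.1 hp).2]⟩)) _ rfl fun i j => ?_
  by_cases c : i ∈ U <;> by_cases c' : j ∈ U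
  · rw [← sub_eq_zero, same i j (iff_of_true c c'), sub_eq_zero]
    exact hs i j
  · exact .inr ((gap j c' i c).trans (le_abs_self _))
  · exact .inr ((gap i c j c').trans ((le_abs_self _).trans_eq (abs_sub_comm _ _)))
  · rw [← sub_eq_zero, same i j (iff_of_false c c'), sub_eq_zero]
    exact hs i j

theorem loc_sp (h : HH W) (hF : Far W k) (hf : Adm f) {η : ℝ} (η0 : 0 < η) (hS : Sp η f) :
    ∀ᶠ w in 𝓝 (0 : ℝ), W (act (rot 0 w) (mon f)) = W (mon f) := by
  obtain ⟨T, hT⟩ := hF f hf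
  obtain ⟨D, -, hD, -⟩ := hf.data
  have t1 : Tendsto (fun w : ℝ => 2 * |w|) (𝓝 0) (𝓝 0) :=
    Continuous.tendsto' (by fun_prop) _ _ (by simp)
  have t2 : Tendsto (fun w : ℝ => 2 * |w| * (2 * D)) (𝓝 0) (𝓝 0) :=
    Continuous.tendsto' (by fun_prop) _ _ (by simp)
  filter_upwards [t1.eventually_le_const (show (0 : ℝ) < 1 / 16 by norm_num),
    t2.eventually_le_const (half_pos η0)] with w h1 h2
  have := core h hf D.cast_nonneg hD η0 hS (nr_rot w) (by positivity) h1 h2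
    (le_max_right T (8 * D + η)) (fun s hs => hT s (fun i j e => (le_max_left _ _).trans (hs i j e))
      w (by linarith)) _ 0 rfl fun _ _ => .inl rfl
  rwa [sh_zero] at this

theorem hole (p : Fin k → ℝ) (i₀ : Fin k) {δ : ℝ} (δ0 : 0 < δ) :
    ∃ n : Fin k, ∀ i, p i ≤ p i₀ + n * δ ∨ p i₀ + (n + 1) * δ ≤ p i := by
  by_contra c
  push Not at c
  choose φ h1 h2 using c
  have lt : ∀ n n', φ n = φ n' → (n : ℕ) < n' + 1 := fun n n' e => by
    have : (n : ℝ) * δ < (n' + 1) * δ := by linarith [h1 n, h2 n', congrArg p e]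
    exact_mod_cast lt_of_mul_lt_mul_right this δ0.le
  obtain ⟨n, hn⟩ := Finite.surjective_of_injective (f := φ) (fun n n' e => Fin.ext (by
    have := lt n n' e
    have := lt n' n e.symm
    omega)) i₀
  have := h1 n
  rw [hn] at this
  nlinarith [(n : ℕ).cast_nonneg (α := ℝ)]

theorem coord {x y : R4} {δ : ℝ} (δ0 : 0 ≤ δ) (h : 2 * δ ≤ dist x y) : ∃ ν, δ ≤ |x ν - y ν| := by
  by_contra c
  push Not at c
  have s : ∀ ν, (x ν - y ν) ^ 2 < δ ^ 2 := fun ν => sq_lt_sq.2 ((c ν).trans_le (le_abs_self _))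
  rw [EuclideanSpace.dist_eq, Real.le_sqrt (by positivity) (by positivity), Fin.sum_univ_four] at h
  simp only [Real.dist_eq, sq_abs] at h
  linarith [s 0, s 1, s 2, s 3]

theorem sp_of {η : ℝ} (η0 : 0 < η)
    (hd : ∀ i, ∀ x ∈ tsupport (f i), ∀ y ∈ tsupport (f i), dist x y ≤ η)
    (hs : ∀ i j, i ≠ j → ∀ x ∈ tsupport (f i), ∀ y ∈ tsupport (f j), 6 * k * η ≤ dist x y) :
    Sp η f := by
  classical
  intro i j e
  rcases (tsupport (f i)).eq_empty_or_nonempty with e1 | e1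
  · exact ⟨0, {i}, by simp [e.symm], fun a _ b hb x _ y hy => by
      simp [Finset.mem_singleton.1 hb, e1] at hy⟩
  rcases (tsupport (f j)).eq_empty_or_nonempty with e2 | e2
  · exact ⟨0, {j}, by simp [e], fun a _ b hb x _ y hy => by
      simp [Finset.mem_singleton.1 hb, e2] at hy⟩
  have : ∀ a, ∃ c : R4, (tsupport (f a)).Nonempty → c ∈ tsupport (f a) := fun a => by
    by_cases c : (tsupport (f a)).Nonempty
    · exact ⟨c.some, fun _ => c.some_mem⟩
    · exact ⟨0, fun c' => (c c').elim⟩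
  choose c hc using this
  obtain ⟨ν, hν⟩ := coord (δ := k * (3 * η)) (by positivity)
    (le_trans (le_of_eq (by ring)) (hs i j e _ (hc i e1) _ (hc j e2)))
  have key : ∀ i j, c i ν + k * (3 * η) ≤ c j ν → ∃ B : Finset (Fin k), i ∉ B ∧ j ∈ B ∧
      ∀ a ∉ B, ∀ b ∈ B, ∀ x ∈ tsupport (f a), ∀ y ∈ tsupport (f b), x ν + η ≤ y ν := by
    intro i j hij
    obtain ⟨n, hn⟩ := hole (fun a => c a ν) i (δ := 3 * η) (by positivity)
    have n0 : (0 : ℝ) ≤ n := (n : ℕ).cast_nonneg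
    have n1 : (n : ℝ) + 1 ≤ k := by exact_mod_cast n.2
    refine ⟨Finset.univ.filter fun a => c i ν + (n + 1) * (3 * η) ≤ c a ν, ?_, ?_,
      fun a ha b hb x hx y hy => ?_⟩
    · simp only [Finset.mem_filter, Finset.mem_univ, true_and, not_le]
      nlinarith
    · simp only [Finset.mem_filter, Finset.mem_univ, true_and]
      nlinarith
    · simp only [Finset.mem_filter, Finset.mem_univ, true_and] at ha hb
      have a1 := (hn a).resolve_right ha
      have a2 := (PiLp.dist_apply_le _ _ ν).trans (hd a x hx _ (hc a ⟨x, hx⟩))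
      have a3 := (PiLp.dist_apply_le _ _ ν).trans (hd b y hy _ (hc b ⟨y, hy⟩))
      rw [Real.dist_eq] at a2 a3
      linarith [(abs_le.1 a2).2, (abs_le.1 a3).1]
  rcases le_abs.1 hν with q | q
  · obtain ⟨B, b1, b2, b3⟩ := key j i (by linarith)
    exact ⟨ν, B, iff_of_true b2 b1, b3⟩
  · obtain ⟨B, b1, b2, b3⟩ := key i j (by linarith)
    exact ⟨ν, B, iff_of_false b1 (not_not.2 b2), b3⟩

theorem pieces (hf : Adm f) {ρ : ℝ} (hρ : 0 < ρ) : ∃ (N : ℕ) (p : Fin k → Fin N → R4 → ℝ),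
    (f = fun i => ∑ z, (1 : ℝ) • p i z) ∧ ∀ i z, (HasCompactSupport (p i z) ∧ ContDiff ℝ 1 (p i z) ∧
      tsupport (p i z) ⊆ tsupport (f i)) ∧ ∃ w : R4, tsupport (p i z) ⊆ Metric.ball w ρ := by
  have hK : IsCompact (⋃ i, tsupport (f i)) := isCompact_iUnion fun i => (hf.1 i).1
  obtain ⟨D, -, D1, D2⟩ := hK.finite_cover_balls hρ
  obtain ⟨N, c, hc⟩ := D1.fin_embedding
  obtain ⟨χ, hχ⟩ := SmoothPartitionOfUnity.exists_isSubordinate (modelWithCornersSelf ℝ R4)
    hK.isClosed (fun i => Metric.ball (c i) ρ) (fun _ => Metric.isOpen_ball)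
    (by rwa [← hc, Set.biUnion_range] at D2)
  refine ⟨N, fun i z y => χ z y * f i y, funext fun i => funext fun y => ?_, fun i z =>
    ⟨⟨(hf.1 i).1.mul_left, ((χ z).contMDiff.contDiff.of_le (by simp)).mul (hf.1 i).2,
      tsupport_mul_subset_right⟩, c z, tsupport_mul_subset_left.trans (hχ z)⟩⟩
  simp only [one_smul, Finset.sum_apply, ← Finset.sum_mul]
  by_cases hy : y ∈ tsupport (f i)
  · rw [← finsum_eq_sum_of_fintype, χ.sum_eq_one (mem_iUnion.2 ⟨i, hy⟩), one_mul]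
  · rw [image_eq_zero_of_notMem_tsupport hy, mul_zero]

theorem lin_cmp (h : LinP W) (g : Iso) : LinP (cmp W g) := fun u u' c u1 u2 u3 u4 Z hZ => by
  simp only [cmp_apply, map_mul, act_X]
  exact h (fun y => u (g.symm y)) (fun y => u' (g.symm y)) c
    (u1.comp_homeomorph g.symm.toHomeomorph) (u2.comp g.symm.contDiff)
    (u3.comp_homeomorph g.symm.toHomeomorph) (u4.comp g.symm.contDiff) _
    (net.mono (act_mem g hZ) fun y hy c => hy (c.imp (tsupport_comp g.symm.continuous)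
      (tsupport_comp g.symm.continuous)))

theorem loc_all (h : HH W) (hF : Far W k) (hf : Adm f) :
    ∀ᶠ w in 𝓝 (0 : ℝ), W (act (rot 0 w) (mon f)) = W (mon f) := by
  obtain ⟨D, q, -, -, hq⟩ := hf.data
  have η0 : 0 < 1 / (q + 1 : ℝ) / (6 * k + 1) := by positivity
  obtain ⟨N, p, e, hp⟩ := pieces hf (half_pos η0)
  have : ∀ z : Fin k → Fin N, ∀ᶠ w in 𝓝 (0 : ℝ),
      W (act (rot 0 w) (mon fun i => p i (z i))) = W (mon fun i => p i (z i)) := fun z =>
    loc_sp h hF ⟨fun i => ⟨(hp i _).1.1, (hp i _).1.2.1⟩, fun i j c =>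
      (hf.2 c).mono (hp i _).1.2.2 (hp j _).1.2.2⟩ η0 (sp_of η0 (fun i x hx y hy => by
        obtain ⟨w, hw⟩ := (hp i (z i)).2
        linarith [dist_triangle_right x y w, Metric.mem_ball.1 (hw hx), Metric.mem_ball.1 (hw hy)])
      fun i j c x hx y hy => le_trans (by
        rw [← mul_div_assoc, div_le_iff₀ (by positivity)]
        nlinarith [show 0 < 1 / (q + 1 : ℝ) by positivity])
        (hq i j c x ((hp i _).1.2.2 hx) y ((hp j _).1.2.2 hy)))
  filter_upwards [eventually_all.2 this] with w hw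
  have s1 := (lin_cmp h.h0.lin (rot 0 w)).sum hf.2 (fun i z => (hp i z).1) (fun _ _ => 1) 1
    (net.one _)
  have s2 := h.h0.lin.sum hf.2 (fun i z => (hp i z).1) (fun _ _ => 1) 1 (net.one _)
  simp only [mul_one, cmp_apply, hw, ← e] at s1 s2
  rw [s1, s2]

end RoF

theorem HH.clu (h : HH W) (hF : Far W k) (φ : ℝ) : InvN W k (rot 0 φ) := fun f hf => by
  have : IsLocallyConstant fun φ : ℝ => W (act (rot 0 φ) (mon f)) :=
    (IsLocallyConstant.iff_eventually_eq _).2 fun x => by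
      have t : Tendsto (fun y : ℝ => y - x) (𝓝 x) (𝓝 0) :=
        Continuous.tendsto' (by fun_prop) _ _ (sub_self x)
      filter_upwards [t.eventually (RoF.loc_all h hF (adm_act hf (rot 0 x)))] with y hy
      rwa [← act_mon, act_act, rot_mul, sub_add_cancel] at hy
  simpa only [rot_zero, act_one] using this.apply_eq_of_preconnectedSpace φ 0

end Pool.Agent.Lib.MP_7f377f_mp.Ro
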