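import Pool.Agent.Lib.MP_7f377f_mp.RoDef
import Pool.Agent.Lib.MP_7f377f_mp.PurQ

/-! The hypotheses for symmetric real functionals. -/

noncomputable section

namespace Pool.Agent.Lib.MP_7f377f_mp.Ro

open Filter Topology Set Real YM7 Pur MvPolynomial
open scoped NNReal

variable {W : Pol →ₗ[ℂ] ℂ} {H : Type} [NormedAddCommGroup H] [InnerProductSpace ℂ H]
  [CompleteSpace H] {r : net.Rep W 0 H} {k : ℕ} {Z Z' : Pol}

namespace RoH

open ComplexConjugate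

variable {W' : Pol →ₗ[ℂ] ℂ} {O : Set R4} {μ : Fin 4}

/-- conjugation of the coefficients -/
abbrev cj : Pol →+* Pol := map (starRingEnd ℂ)

theorem rfL_symm (μ : Fin 4) (y : R4) : (rfL μ).symm y = rf μ y := by
  rw [LinearIsometryEquiv.symm_apply_eq, rfL_eq, rf_rf]

theorem Θ_eq (μ : Fin 4) (Z : Pol) : net.Θ μ Z = act (rfL μ) (cj Z) := by
  simp only [act, rfL_symm]
  rfl

theorem act_cj (g : Iso) (Z : Pol) : act g (cj Z) = cj (act g Z) := (map_rename _ _ _).symm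

theorem cj_mon (f : Fin k → R4 → ℝ) : cj (mon f) = mon f := by simp [mon]

theorem cj_smul (c : ℂ) (Z : Pol) : cj (c • Z) = conj c • cj Z := by simp [smul_eq_C_mul]

theorem cj_cj (Z : Pol) : cj (cj Z) = Z :=
  RingHom.congr_fun (f := cj.comp cj) (g := RingHom.id _) (ringHom_ext (by simp) (by simp)) Z

theorem cj_mem (h : Z ∈ net.loc O) : cj Z ∈ net.loc O :=
  span_map (map_add _) (fun c X => ⟨_, cj_smul c X⟩) (fun _ ⟨k, f, h1, h2, h3⟩ =>
    ⟨k, f, h1, h2, by rw [← h3, cj_mon]⟩) h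

theorem real_cj (hr : ∀ {k} (f : Fin k → R4 → ℝ), Adm f → (W (mon f)).im = 0)
    (h : Z ∈ net.loc univ) : W (cj Z) = conj (W Z) := by
  obtain ⟨m, c, k, f, f1, -, rfl⟩ := PN.exists_sum h
  simp only [map_sum, cj_smul, cj_mon, map_smul, smul_eq_mul, map_mul,
    Complex.conj_eq_iff_im.2 (hr _ (f1 _))]

theorem inv_rf (hS : net.St W) (hc : ∀ Z ∈ net.loc univ, W (cj Z) = conj (W Z)) (μ : Fin 4) :
    Inv W (rfL μ) := fun Z hZ => by
  have := hS.herm μ (cj_mem hZ)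
  rwa [Θ_eq, cj_cj, hc _ hZ, Complex.conj_conj] at this

theorem st_congr (h : ∀ Z ∈ net.loc univ, W' Z = W Z) (hS : net.St W) : net.St W' where
  one := (h _ (net.one _)).trans hS.one
  ti v hX := by rw [h _ (Net.τ_adm v hX), h _ hX, hS.ti v hX]
  herm μ hX := by rw [h _ (Net.Θ_adm μ hX), h _ hX, hS.herm μ hX]
  pos μ hX := by
    rw [Net.nq, h _ (Net.rp_adm hX hX)]
    exact hS.pos μ hX
  con {X v} μ hX hv := by
    have h1 := Net.τ_hs (t' := 0) (v := v) hX (by linarith)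
    rw [Net.nq, Net.nq, h _ (Net.rp_adm hX hX), h _ (Net.rp_adm h1 h1)]
    exact hS.con μ hX hv

theorem h0_congr (h : ∀ Z ∈ net.loc univ, W' Z = W Z) (hW : H0 W) : H0 W' where
  st := st_congr h hW.st
  lin g g' c g1 g2 g3 g4 Z hZ := by
    have a1 : PN.Gd (tsupport g ∪ tsupport g') g := ⟨g1, g2, subset_union_left⟩
    have a2 : PN.Gd (tsupport g ∪ tsupport g') g' := ⟨g3, g4, subset_union_right⟩
    have a3 : ∀ {u}, PN.Gd (tsupport g ∪ tsupport g') u → W' (X u * Z) = W (X u * Z) := fun hu =>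
      h _ (Net.adm (net.mul hu.mem hZ disjoint_compl_right))
    rw [a3 a1, a3 a2, a3 (a1.comb a2 c), hW.lin g g' c g1 g2 g3 g4 Z hZ]
  qual k R δ hδ := (hW.qual k R δ hδ).imp fun C hC f L hf h1 h2 => by
    rw [h _ (mon_mem hf fun _ => subset_univ _)]
    exact hC f L hf h1 h2
  dg l := st_congr (W := cmp W _) (fun Z hZ => h _ (act_adm _ hZ)) (hW.dg l)
  thin := by
    obtain ⟨c, hc, δ, hδ, h1⟩ := hW.thin
    refine ⟨c, hc, δ, hδ, fun R => (h1 R).imp fun R' h1 ε hε => ?_⟩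
    filter_upwards [h1 ε hε, hδ.eventually self_mem_nhdsWithin] with n h2 h3 u L hu b hb
    have h4 : b ∈ net.loc (Hs 0 0) := net.mono hb inter_subset_left
    have h5 : δ n ≤ c * δ n := le_mul_of_one_le_left (le_of_lt h3) hc
    have h6 : X u ∈ net.loc {y : R4 | |y 0| < δ n} :=
      PN.Gd.mem ⟨hu.1, hu.2.1, fun y hy => (hu.2.2.2 y hy).1⟩
    have h7 : net.τ (ax 0 (c * δ n)) (X u * net.τ (ax 0 (c * δ n)) b) ∈ net.loc (Hs 0 0) := by
      refine Net.τ_hs (t := -δ n) (net.mono (net.mul h6 (Net.τ_hs (t' := δ n) h4 (by simpa using h5))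
        (disjoint_left.2 fun y e e' => ((le_abs_self (y 0)).trans_lt e).not_gt e')) ?_)
        (by simpa using h5)
      rintro y (e | e)
      · exact (abs_lt.1 (show |y 0| < _ from e)).1
      · exact lt_trans (neg_lt_self h3) e
    rw [Net.nq, Net.nq, h _ (Net.rp_adm h7 h7), h _ (Net.rp_adm h4 h4)]
    exact h2 u L hu b hb

theorem cs (h1 : ∀ Z ∈ net.loc univ, W (net.Θ μ Z) = conj (W Z))
    (h2 : ∀ Z ∈ net.loc (Hs μ 0), 0 ≤ net.nq W μ Z) (hZ : Z ∈ net.loc (Hs μ 0))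
    (hZ' : Z' ∈ net.loc (Hs μ 0)) :
    (W (net.Θ μ Z * Z')).re ^ 2 ≤ net.nq W μ Z * net.nq W μ Z' := by
  have e : (W (net.Θ μ Z' * Z)).re = (W (net.Θ μ Z * Z')).re := by
    have := h1 _ (Net.rp_adm hZ hZ')
    rw [map_mul, net.Θ_Θ, mul_comm] at this
    rw [this, Complex.conj_re]
  have := discrim_le_zero (a := net.nq W μ Z') (b := 2 * (W (net.Θ μ Z * Z')).re)
    (c := net.nq W μ Z) fun s => by
      have := h2 _ (Submodule.add_mem _ hZ (Submodule.smul_mem _ (s : ℂ) hZ'))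
      simp only [Net.nq, map_add, net.Θ_smul, add_mul, mul_add, smul_mul_assoc, mul_smul_comm,
        map_smul, smul_eq_mul, Complex.conj_ofReal, Complex.add_re, Complex.re_ofReal_mul, e]
        at this ⊢
      linarith
  rw [discrim] at this
  linarith

theorem con_of (h0 : ∀ v, ∀ Z ∈ net.loc univ, W (net.τ v Z) = W Z)
    (h1 : ∀ Z ∈ net.loc univ, W (net.Θ μ Z) = conj (W Z))
    (h2 : ∀ Z ∈ net.loc (Hs μ 0), 0 ≤ net.nq W μ Z) (hZ : Z ∈ net.loc (Hs μ 0))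
    (h3 : ∃ C, ∀ᶠ t in atTop, ‖W (net.Θ μ Z * net.τ (ax μ t) Z)‖ ≤ C) {v : R4} (hv : 0 ≤ v μ) :
    net.nq W μ (net.τ v Z) ≤ net.nq W μ Z := by
  let f : ℝ → ℝ := fun t => (W (net.Θ μ Z * net.τ (ax μ t) Z)).re
  have m : ∀ {t}, 0 ≤ t → net.τ (ax μ t) Z ∈ net.loc (Hs μ 0) := fun ht =>
    Net.τ_hs hZ (by simpa using ht)
  have e : ∀ v : R4, 0 ≤ v μ → net.nq W μ (net.τ v Z) = f (2 * v μ) := fun v hv => by
    have e1 : rf μ v + ax μ (2 * v μ) = v := by
      ext l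
      by_cases h : l = μ
      · simp [h]; ring
      · simp [h, rf_ne h]
    simp only [f]
    rw [← h0 (rf μ v) _ (Net.rp_adm hZ (m (by linarith))), map_mul, net.τ_τ, e1, ← net.Θ_τ, Net.nq]
  rw [e v hv]
  rcases hv.eq_or_lt with h | h
  · simp only [f, ← h, mul_zero, ax_zero, net.τ_zero, Net.nq, le_refl]
  obtain ⟨C, hC⟩ := h3
  have t1 : Tendsto (fun j : ℕ => 2 ^ j * (2 * v μ)) atTop atTop :=
    (tendsto_pow_atTop_atTop_of_one_lt one_lt_two).atTop_mul_const (by linarith)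
  obtain ⟨M, hM⟩ := (show IsBoundedUnder (· ≤ ·) atTop fun j : ℕ => f (2 ^ j * (2 * v μ)) from
    ⟨C, (t1.eventually hC).mono fun j hj => (Complex.re_le_norm _).trans hj⟩).bddAbove_range
  have := dbl_le (x := fun j => f (2 ^ j * (2 * v μ))) (η := 1) (M := M) (h2 Z hZ) zero_le_one
    (fun j => by
      have p : 0 ≤ 2 ^ j * (2 * v μ) := by positivity
      refine (cs h1 h2 hZ (m p)).trans_eq ?_
      rw [e _ (by simpa using p)]
      simp only [PiLp.single_apply, if_true, pow_succ]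
      ring_nf) fun j => by
      rw [one_pow, one_mul]
      exact hM ⟨j, rfl⟩
  simpa using this

theorem bnd (hS : net.St W) (hZ : Z ∈ net.loc univ) (hZ' : Z' ∈ net.loc univ) {w : R4}
    (hw : 0 < w μ) : ∃ C, ∀ᶠ s : ℝ in atTop, ‖W (Z * net.τ (s • w) Z')‖ ≤ C := by
  obtain ⟨H, _, _, _, ⟨r⟩⟩ := hS.exists_rep μ
  obtain ⟨D, h1, h2⟩ := ((Net.box hZ).and (Net.box hZ')).exists
  have h3 : net.τ (-rf μ (ax μ D)) (net.Θ μ Z) ∈ net.loc (Hs μ 0) :=
    Net.τ_hs (Net.bx_hs (Net.Θ_bx (net.mono h1 inter_subset_right) μ) μ) (by simp)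
  have h4 : net.τ (ax μ D) Z' ∈ net.loc (Hs μ 0) :=
    Net.τ_hs (Net.bx_hs (net.mono h2 inter_subset_right) μ) (by simp)
  refine ⟨‖r.Ψ (net.τ (-rf μ (ax μ D)) (net.Θ μ Z))‖ * ‖r.Ψ (net.τ (ax μ D) Z')‖, ?_⟩
  filter_upwards [(tendsto_id.atTop_mul_const hw).eventually_ge_atTop (2 * D)] with s hs
  have e : net.τ (-ax μ D) (net.τ (s • w) Z') =
      net.τ (-ax μ D + s • w - ax μ D) (net.τ (ax μ D) Z') := by
    rw [net.τ_τ, net.τ_τ, sub_add_cancel]
  have p : 0 ≤ (-ax μ D + s • w - ax μ D) μ := by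
    simp only [id] at hs
    simp
    linarith
  rw [r.shift hS h3 (e ▸ Net.τ_hs h4 (by linarith)), e]
  exact (norm_inner_le_norm _ _).trans (mul_le_mul_of_nonneg_left (r.le p h4) (norm_nonneg _))

theorem bnd' (hS : net.St W) (g : Iso) (hZ : Z ∈ net.loc (Hs μ 0)) :
    ∃ C, ∀ᶠ t in atTop, ‖cmp W g (net.Θ μ Z * net.τ (ax μ t) Z)‖ ≤ C := by
  have e : ∀ t : ℝ, g (ax μ t) = t • g (ax μ 1) := fun t => by
    rw [← map_smul]
    congr 1
    ext l
    by_cases h : l = μ <;> simp [h]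
  have h1 := act_adm g (Net.Θ_adm μ hZ)
  have h2 := act_adm g hZ
  obtain ⟨ν, hν⟩ : ∃ ν, g (ax μ 1) ν ≠ 0 := by
    by_contra! h
    have := g.norm_map (ax μ 1)
    rw [show g (ax μ 1) = 0 from PiLp.ext h] at this
    simp at this
  rcases hν.lt_or_gt with h | h
  · obtain ⟨C, hC⟩ := bnd (w := -g (ax μ 1)) (μ := ν) hS h2 h1 (by simpa using h)
    refine ⟨C, ?_⟩
    filter_upwards [hC, eventually_ge_atTop 0] with t h3 ht
    rwa [cmp_apply, ← hS.ti (t • -g (ax μ 1)) (act_adm g (Net.rp_adm hZ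
      (Net.τ_hs hZ (by simpa using ht)))), map_mul, act_τ, e t, map_mul, net.τ_τ, smul_neg,
      neg_add_cancel, net.τ_zero, mul_comm, ← smul_neg]
  · exact (bnd hS h1 h2 h).imp fun C hC => hC.mono fun t ht => by
      rwa [cmp_apply, map_mul, act_τ, e t]

/-- reflection positivity for `g` on `O` -/
def RP (W : Pol →ₗ[ℂ] ℂ) (g : Iso) (O : Set R4) : Prop :=
  ∀ Z ∈ net.loc O, 0 ≤ (W (act g (cj Z) * Z)).re

/-- the reflection `μ` in the frame `R` is conjugate to a good reflection -/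
def Dir (W : Pol →ₗ[ℂ] ℂ) (R : Iso) (μ : Fin 4) : Prop := ∃ (a g : Iso) (O : Set R4), Inv W a ∧
  Inv W g ∧ RP W g O ∧ (∀ y, a (R (rf μ y)) = g (a (R y))) ∧ ∀ y ∈ Hs μ 0, a (R y) ∈ O

theorem st_cmp (hS : net.St W) (hc : ∀ Z ∈ net.loc univ, W (cj Z) = conj (W Z)) {R : Iso}
    (h : ∀ μ, Dir W R μ) : net.St (cmp W R) := by
  have h0 : ∀ v, ∀ Z ∈ net.loc univ, cmp W R (net.τ v Z) = cmp W R Z := fun v Z hZ => by
    rw [cmp_apply, act_τ, hS.ti _ (act_adm _ hZ), cmp_apply]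
  have h1 : ∀ μ, (∀ Z ∈ net.loc univ, cmp W R (net.Θ μ Z) = conj (cmp W R Z)) ∧
      ∀ Z ∈ net.loc (Hs μ 0), 0 ≤ net.nq (cmp W R) μ Z := fun μ => by
    obtain ⟨a, g, O, ha, hg, hO, e1, e2⟩ := h μ
    have e : ∀ Z, act a (act R (net.Θ μ Z)) = act g (cj (act a (act R Z))) := fun Z => by
      rw [← act_cj, ← act_cj, Θ_eq]
      simp only [act_act]
      congr 2
      ext1 y
      simpa only [LinearIsometryEquiv.coe_mul, Function.comp_apply, rfL_eq] using e1 y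
    refine ⟨fun Z hZ => ?_, fun Z hZ => ?_⟩
    · have m := act_adm a (act_adm R hZ)
      rw [cmp_apply, cmp_apply, ← ha _ (act_adm R (Net.Θ_adm μ hZ)), e, hg _ (cj_mem m), hc _ m,
        ha _ (act_adm R hZ)]
    · rw [Net.nq, cmp_apply, ← ha _ (act_adm R (Net.rp_adm hZ hZ)), map_mul, map_mul, e]
      refine hO _ (net.mono (act_mem a (act_mem R hZ)) fun y hy => ?_)
      simpa using e2 _ hy
  exact ⟨by rw [cmp_apply, map_one, hS.one], fun v hZ => h0 v _ hZ, fun μ hZ => (h1 μ).1 _ hZ,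
    fun μ hZ => (h1 μ).2 _ hZ, fun μ hZ hv =>
      con_of h0 (h1 μ).1 (h1 μ).2 hZ (bnd' hS R hZ) hv⟩

theorem dir (hS : net.St W) (hp : ∀ σ, Inv W (prm σ)) (hf : ∀ μ, Inv W (rfL μ)) (hd : SwapRP W)
    (l : Fin 3) (μ : Fin 4) : Dir W (rot l (π / 4)) μ := by
  have s : (0 : ℝ) < √2 := by positivity
  by_cases h0 : μ = 0
  · subst h0
    refine ⟨prm (Equiv.swap 1 l.succ * Equiv.swap 0 1).symm * rfL 0, _, _, (hp _).mul (hf _), hp _,
      hd, fun y => ?_, fun y hy => ?_⟩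
    · ext i
      fin_cases l <;> fin_cases i <;>
        simp [prm_apply, rfL_eq, rf, rot_apply, rv, Equiv.swap_apply_def] <;> ring
    · have : 0 < √2 * y 0 := mul_pos s hy
      fin_cases l <;> simp [prm_apply, rfL_eq, rf, rot_apply, rv, Equiv.swap_apply_def] <;> linarith
  by_cases h1 : μ = l.succ
  · subst h1
    refine ⟨prm (Equiv.swap 1 l.succ * Equiv.swap 0 1).symm, _, _, hp _, hp _,
      hd, fun y => ?_, fun y hy => ?_⟩
    · ext i
      fin_cases l <;> fin_cases i <;>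
        simp [prm_apply, rf, rot_apply, rv, Equiv.swap_apply_def] <;> ring
    · have : 0 < y l.succ := hy
      fin_cases l <;> simp [prm_apply, rot_apply, rv, Equiv.swap_apply_def] at this ⊢ <;>
        linarith [mul_pos s this]
  refine ⟨1, rfL μ, Hs μ 0, fun Z _ => by rw [act_one], hf μ, fun Z hZ => ?_, fun y => ?_,
    fun y hy => ?_⟩
  · rw [← Θ_eq]
    exact hS.pos μ hZ
  · ext i
    simp only [LinearIsometryEquiv.coe_one, id, rfL_eq]
    by_cases h : i = μ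
    · rw [h, rf_self, rot_ne h0 h1, rot_ne h0 h1, rf_self]
    · simp only [rf_ne h, rot_apply, rv, rf_ne (Ne.symm h0), rf_ne (Ne.symm h1)]
  · exact (show (0 : ℝ) < y μ from hy).trans_eq (rot_ne h0 h1 _ y).symm

end RoH

theorem hh_of (hS : net.St W) (hL : LinP W) (hQ : Lg.Qual W) (hp : ∀ σ, Inv W (prm σ))
    (hr : ∀ {k} (f : Fin k → R4 → ℝ), Adm f → (W (mon f)).im = 0) (hd : SwapRP W)
    (ht : ThinQ W) : HH W := fun σ =>
  have hc : ∀ Z ∈ net.loc univ, W (RoH.cj Z) = starRingEnd ℂ (W Z) := fun _ => RoH.real_cj hr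
  RoH.h0_congr (hp σ) ⟨hS, hL, hQ, fun l =>
    RoH.st_cmp hS hc (RoH.dir hS hp (RoH.inv_rf hS hc) hd l), ht⟩

end Pool.Agent.Lib.MP_7f377f_mp.Ro
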