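import Pool.Agent.Lib.MP_7f377f_mp.S10L6
import Pool.Agent.Lib.MP_7f377f_mp.DgMain
import Pool.Agent.Lib.MP_7f377f_mp.RoZ
import Pool.Agent.Lib.MP_7f377f_mp.LgQM

/-! The rotation invariant limit functional. -/

noncomputable section

namespace Pool.Agent.Lib.MP_7f377f_mp.L6

open MeasureTheory Filter Topology Set Real YM7 Pur Weak

variable [MeasurableSpace SU2] [BorelSpace SU2] {h : Measure SU2} [h.IsHaarMeasure]
  [IsProbabilityMeasure h]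

theorem thD : ThD h := by
  intro l n _ b b₀ b0 hb ho hd g ⟨s, s1, s2⟩ hg ε ε0
  let _ := YM5.quatHS
  obtain ⟨r, hr⟩ := Finite.exists_le fun q : s × Fin 4 => (q.1.1.1 q.2).natAbs
  obtain ⟨δ, δ0, n₀, e⟩ := Dg.diag_rp h YM5.rho_cont
    (fun x y e => Subtype.ext (congrArg Subtype.val e :)) (half_pos b0) (r := r)
    (Nat.lt_pow_self (by norm_num : 1 < 3)).le g.2
    (fun U V e => s2 fun x hx => e x ⟨fun i => by
      rw [Int.abs_eq_natAbs]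
      exact_mod_cast hr (⟨x, hx⟩, i), s1 hx⟩) hg ε0
  filter_upwards [hd (4 * r + 4), hd n₀, (hb.div_const 2).eventually
    (Metric.closedBall_mem_nhds _ δ0)] with i e1 e2 e3
  have e4 : ∀ U : Cfg (n i), Dg.lf (Dg.pc (n i)) 0 U = lf U := fun U =>
    funext fun x => congrArg (fun y => U (y, x.2)) (zero_add _)
  have e5 := e (n i) _ (ho i) e1
    ((Nat.lt_pow_self (by norm_num : 1 < 3)).le.trans (Nat.le_of_dvd (NeZero.pos _) e2)) e3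
  simp only [e4] at e5
  rw [wilson_nu]
  exact e5

theorem main10 {n : ℕ × ℕ → ℕ} [∀ p, NeZero (n p)] {a b τ : ℕ × ℕ → ℝ}
    (hF : Fam (atTop ×ˢ atTop) n a b τ) (hC : CellA h (atTop ×ˢ atTop) n a b τ)
    (hA : ∀ K, ShortA h (atTop ×ˢ atTop) n a b K)
    (hP : Lg.PolyC h (atTop ×ˢ atTop) n a b fun p => 2 * τ p) {N : ℕ → ℕ}
    (hn : ∀ p, n p = (2 * p.1 + 1) * 3 ^ N p.2) (ha : ∀ p, a p = a (0, p.2))
    (hT : ∀ U S₀ S, Lim h (atTop ×ˢ atTop) n a b U S₀ S → Lg.Inp S → Ro.ThinQ S) :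
    ∃ (n : ℕ → ℕ+) (a b : ℕ → ℝ) (S : Pol →ₗ[ℂ] ℂ),
      Tendsto a atTop (𝓝[>] 0) ∧ Tendsto (fun j => a j * n j) atTop atTop ∧
      Tendsto (fun j => b j / log (a j)⁻¹) atTop (𝓝 (11 / (6 * π ^ 2))) ∧
      (∀ Z ∈ Loc univ, Tendsto (fun j => vev h (b j) (n j) (a j) Z) atTop (𝓝 (S Z))) ∧
      Lg.Inp S ∧ Lg.Rot S ∧ (∀ g, Ro.Inv S g) ∧ ∃ S₀ : ∀ {k : ℕ}, (Fin k → R4 → ℝ) → ℝ,
        (∀ {k} {f : Fin k → R4 → ℝ}, Adm f → S (mon f) = S₀ f) ∧ Lg.ProdS S₀ := by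
  have hB := hC.cell.bd7 hF
  obtain ⟨U, S₀, S, n', a', b', e0, e1, e2, e3, e4, e5, e6, e7, e8⟩ := lim10 (Φ := fast)
    ⟨hF.a0.mono_left fast_le, hF.vol.mono_left fast_le, hF.cpl.mono_left fast_le,
      hF.tau.mono_left fast_le⟩
    (fun k R δ δ0 => (hB k R δ δ0).imp fun _ e => ⟨e.1, e.2.filter_mono fast_le⟩)
    (fun K k hk f hf η η0 => (hA K k hk f hf η η0).mono fun _ => .imp fun _ e =>
      ⟨e.1, e.2.1, fun lo hi => (e.2.2 lo hi).filter_mono fast_le⟩)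
    (hP.imp fun _ e => ⟨e.1, e.2.mono fun _ => .filter_mono fast_le⟩) (swapL_of thD hF hn ha)
  have e9 := Ro.o4 e5.st e5.lin (Lg.qual_of e5.st e5.lin e5.grow) e6 e7 e8 (hT U S₀ S
    ⟨e0.le.trans fast_le, e0.cv, fun hf _ e => e0.nr hf (e.filter_mono fast_le), e0.lift⟩ e5)
  refine ⟨n', a', b', S, e1, e2, e3, e4, e5, fun R _ k f hf => ?_, e9, S₀, e0.lift,
    Lg.prodS_of hF hP (e0.le.trans fast_le) e0.cv⟩
  have := e9 R.symm _ (mon_mem hf fun _ => subset_univ _)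
  rwa [Ro.act_mon] at this

end Pool.Agent.Lib.MP_7f377f_mp.L6
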