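import Pool.Agent.Lib.MP_7f377f_mp.Q5Vac
import Pool.Agent.Lib.MP_7f377f_mp.Q6Poly
import Pool.Agent.Lib.MP_7f377f_mp.LgPC

/-! The output of the renormalisation group with explicit constants. -/

noncomputable section

namespace Pool.Agent.Lib.MP_7f377f_mp.RG.Q4.En

open YM7 Filter MeasureTheory

theorem out_lin [m : MeasurableSpace SU2] [BorelSpace SU2] (h : Measure SU2) [h.IsHaarMeasure]
    [IsProbabilityMeasure h] : ∃ (G : Gl) (β : ℕ × ℕ → ℝ),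
    YM7.Fam (atTop ×ˢ atTop) G.nn G.aa β ta ∧ Pur.CellA h (atTop ×ˢ atTop) G.nn G.aa β ta ∧
      (∀ K, Pur.ShortA h (atTop ×ˢ atTop) G.nn G.aa β K) ∧
      Lg.PolyC h (atTop ×ˢ atTop) G.nn G.aa β fun p => 2 * ta p := by
  obtain ⟨G, β, o, -, hβ, e⟩ := out_all h
  refine ⟨G, β, o.fam hβ, cellA_of_poly2 (o.fam hβ) (e _).1, fun K =>
    shortA_of (o.fam hβ) ((e _).2 K) ?_, Lg.polyC_of (o.fam hβ) ?_⟩ <;>
  obtain rfl : m = Fi.mS := BorelSpace.measurable_eq <;>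
  have : (Fi.tr haar).IsHaarMeasure := (inferInstance : haar.IsHaarMeasure) <;>
  obtain rfl := Measure.isHaarMeasure_eq_of_isProbabilityMeasure h (Fi.tr haar)
  · exact o.arr2 hβ _ K
  · exact o.poly3 hβ (fun p _ e => ((o _).1.tan_main (o _).2 (hβ p) e).1.sz) _

end Pool.Agent.Lib.MP_7f377f_mp.RG.Q4.En
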