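import Pool.Agent.Lib.MP_997161_gt.Degree

/-! Shooting with several parameters and windows which shrink geometrically. -/

noncomputable section

namespace Pool.Agent.Lib.MP_7f377f_mp.R10

open scoped RealInnerProductSpace

/-- a continuous map which is close to the identity on a ball has a zero -/
theorem zero_near {n : ℕ} {G : EuclideanSpace ℝ (Fin n) → EuclideanSpace ℝ (Fin n)} (hG : Continuous G)
    {ρ : ℝ} (hρ : 0 < ρ) (h : ∀ t, ‖t‖ ≤ ρ → ‖G t - t‖ ≤ ρ) : ∃ t, ‖t‖ ≤ ρ ∧ G t = 0 := by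
  let π : EuclideanSpace ℝ (Fin n) → EuclideanSpace ℝ (Fin n) := fun w => (ρ / max ρ ‖w‖) • w
  have m0 : ∀ w : EuclideanSpace ℝ (Fin n), 0 < max ρ ‖w‖ := fun w => hρ.trans_le (le_max_left _ _)
  have cπ : Continuous π :=
    (continuous_const.div (continuous_const.max continuous_norm) fun w => (m0 w).ne').smul continuous_id
  have hπ : ∀ w, ‖π w‖ ≤ ρ := fun w => by
    rw [norm_smul, Real.norm_of_nonneg (div_pos hρ (m0 w)).le, div_mul_eq_mul_div, div_le_iff₀ (m0 w)]
    exact mul_le_mul_of_nonneg_left (le_max_right _ _) hρ.le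
  obtain ⟨w, hw⟩ := MP_997161_gt.exists_zero (F := fun w => w + (G (π w) - π w)) (R := ρ + 1)
    (continuous_id.add ((hG.comp cπ).sub cπ)) fun w hw => by
      have a := (abs_le.1 (abs_real_inner_le_norm (G (π w) - π w) w)).1
      have b := mul_le_mul_of_nonneg_right (h _ (hπ w)) (norm_nonneg w)
      rw [inner_add_left, real_inner_self_eq_norm_sq]
      nlinarith
  have hn : ‖w‖ ≤ ρ := by
    rw [eq_neg_of_add_eq_zero_left hw, norm_neg]
    exact h _ (hπ w)
  have e : π w = w := by simp only [π, max_eq_left hn, div_self hρ.ne', one_smul]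
  exact ⟨w, hn, by simpa [e] using hw⟩

theorem shoot {n : ℕ} (I : ℕ) (d : ℕ → EuclideanSpace ℝ (Fin n) → EuclideanSpace ℝ (Fin n))
    (W : ℕ → ℝ) (ρ : ℝ) (hc : ∀ k, Continuous (d k)) (W0 : ∀ k, 0 < W k)
    (hW : ∀ k < I, W k ≤ 2 / 3 * W (k + 1)) (hρ : W I ≤ ρ)
    (h0 : ∀ t, ‖t‖ ≤ ρ → ‖d I t - t‖ ≤ ρ / 2)
    (hs : ∀ k < I, ∀ t, ‖t‖ ≤ ρ → (∀ i, k < i → i ≤ I → ‖d i t‖ ≤ W i) →
      ‖d k t - d (k + 1) t‖ ≤ W (k + 1) / 10) :
    ∃ t, ‖t‖ ≤ ρ ∧ d 0 t = 0 ∧ ∀ i ≤ I, ‖d i t‖ ≤ W i := by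
  let p : ℕ → EuclideanSpace ℝ (Fin n) → ℝ := fun k t => max 0 (min 1 (2 - 2 * ‖d k t‖ / W k))
  let H : ℕ → EuclideanSpace ℝ (Fin n) → EuclideanSpace ℝ (Fin n) := fun k =>
    Nat.rec 0 (fun k h t => p (k + 1) t • (d k t - d (k + 1) t + h t)) k
  have H1 : ∀ k t, H (k + 1) t = p (k + 1) t • (d k t - d (k + 1) t + H k t) := fun _ _ => rfl
  have cH : ∀ k, Continuous (H k) := fun k => by
    induction k with
    | zero => exact continuous_const
    | succ k ih =>
      have := hc k
      have := hc (k + 1)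
      simp only [funext (H1 k), p]
      fun_prop
  have A : ∀ t, ‖t‖ ≤ ρ → ∀ k ≤ I, (∀ i, k < i → i ≤ I → ‖d i t‖ ≤ W i) → ‖H k t‖ ≤ 3 / 10 * W k := by
    intro t ht k
    induction k with
    | zero => exact fun _ _ => (norm_zero (E := EuclideanSpace ℝ (Fin n))).trans_le (by linarith [W0 0])
    | succ k ih =>
      intro hk w
      have w0 := W0 (k + 1)
      rcases le_total ‖d (k + 1) t‖ (W (k + 1)) with e | e
      · have w' : ∀ i, k < i → i ≤ I → ‖d i t‖ ≤ W i := fun i a b =>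
          (Nat.lt_succ_iff_lt_or_eq.1 (Nat.succ_lt_succ a)).elim (fun c => w i (by omega) b)
            fun c => by rwa [show i = k + 1 by omega]
        have p1 : ‖p (k + 1) t‖ ≤ 1 := by
          rw [Real.norm_of_nonneg (le_max_left _ _)]
          exact max_le zero_le_one (min_le_left _ _)
        rw [H1, norm_smul]
        refine (mul_le_of_le_one_left (norm_nonneg _) p1).trans ((norm_add_le _ _).trans ?_)
        linarith [hs k hk t ht w', ih (by omega) w', hW k hk]
      · have : p (k + 1) t = 0 := max_eq_left ((min_le_right _ _).trans (by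
          rw [sub_nonpos, le_div_iff₀ w0]; linarith))
        rw [H1, this, zero_smul, norm_zero]
        positivity
  obtain ⟨t, ht, hz⟩ := zero_near (G := fun t => d I t + H I t) ((hc I).add (cH I))
    ((W0 I).trans_le hρ) fun t ht => by
      rw [add_sub_right_comm]
      refine (norm_add_le _ _).trans ?_
      linarith [h0 t ht, A t ht I le_rfl fun i a b => by omega, W0 I]
  have B : ∀ k ≤ I, (∀ i, k < i → i ≤ I → ‖d i t‖ ≤ W i) → d k t + H k t = 0 →
      ‖d k t‖ ≤ 3 / 10 * W k := fun k hk w e => by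
    rw [eq_neg_of_add_eq_zero_left e, norm_neg]
    exact A t ht k hk w
  have C : ∀ k ≤ I, (∀ i, k < i → i ≤ I → ‖d i t‖ ≤ W i) ∧ d k t + H k t = 0 := fun k hk => by
    induction hk using Nat.decreasingInduction with
    | self => exact ⟨fun i a b => by omega, hz⟩
    | of_succ k hk ih =>
      have b := B _ hk ih.1 ih.2
      have w0 := W0 (k + 1)
      have : p (k + 1) t = 1 := by
        refine (max_eq_right_iff.2 ?_).trans (min_eq_left ?_)
        · refine le_min zero_le_one ?_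
          rw [sub_nonneg, div_le_iff₀ w0]; linarith
        · rw [le_sub_comm, div_le_iff₀ w0]; linarith
      refine ⟨fun i a c => ?_, ?_⟩
      · rcases (show k + 1 < i ∨ i = k + 1 by omega) with e | e
        exacts [ih.1 i e c, e ▸ by linarith]
      · rw [← ih.2, H1, this, one_smul]
        abel
  exact ⟨t, ht, by simpa [H] using (C 0 I.zero_le).2,
    fun i hi => (B i hi (C i hi).1 (C i hi).2).trans (by linarith [W0 i])⟩

end Pool.Agent.Lib.MP_7f377f_mp.R10
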