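import Pool.Agent.Lib.MP_7f377f_mp.R3Model

/-! The local holomorphic functionals of one renormalisation step. -/

noncomputable section

namespace Pool.Agent.Lib.MP_7f377f_mp.RG.D3

open Finset MeasureTheory Polynomial
open scoped Quaternion ENNReal

abbrev Fld := Lk → C3
abbrev Cf := Lk → Hc

def reF (A : Fld) (k : Fin 3) : V := fun e => (A e k).re
def imF (A : Fld) (k : Fin 3) : V := fun e => (A e k).im

/-- complexification of a bilinear form -/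
def cx (m : BF) (A B : Fld) : ℂ :=
  ∑ k, (((m (reF A k) (reF B k) - m (imF A k) (imF B k) : ℝ) : ℂ) +
    ((m (reF A k) (imF B k) + m (imF A k) (reF B k) : ℝ) : ℂ) * Complex.I)

/-- complexification of a linear map -/
def cxL (T : V →ₗ[ℝ] V) (A : Fld) : Fld :=
  fun f k => (T (reF A k) f : ℂ) + (T (imF A k) f : ℂ) * Complex.I

def RealF (A : Fld) : Prop := ∀ e k, (A e k).im = 0

def cC (U : Conf) : Cf := fun e => cS (U e)

def exF (B : Fld) : Cf := fun e => ex (B e)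

def adF (h : St → Hc) (A : Fld) : Fld := fun e => adq (h e.1) (A e)

/-- chart coordinates in the comb gauge based at `x` -/
def Bx (x : St) (U : Cf) : Fld := fun e => ch (gauge star (cmb star (sh x U)) (sh x U) e)

/-- a holomorphic family -/
def Disc {ι F : Type} [NormedAddCommGroup F] [NormedSpace ℂ F] (Ω : Set ℂ) (γ : ℂ → ι → F) : Prop :=
  ∀ e, DifferentiableOn ℂ (fun t => γ t e) Ω

/-- small local terms of the effective action -/
structure Tm (R : ℕ) (ρ κ : ℝ) (φ : Fld → ℂ) : Prop where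
  loc : ∀ A B, (∀ x ∈ box R, ∀ μ ν, dd A x μ ν = dd B x μ ν) → φ A = φ B
  hol : ∀ Ω γ, IsOpen Ω → Disc Ω γ → (∀ t ∈ Ω, Cv R ρ (γ t)) →
    DifferentiableOn ℂ (fun t => φ (γ t)) Ω
  bd : ∀ B, Cv R ρ B → ‖φ B‖ ≤ κ
  zero : φ 0 = 0
  ad : ∀ (h : S3) B, φ (adF (fun _ => cS h) B) = φ B
  real : ∀ B, RealF B → (φ B).im = 0

/-- data of one step -/
structure Dat where
  l : ℕ
  r : ℕ
  β : ℝ
  m : BF
  s : V →ₗ[ℝ] V
  ψ : Fld → ℂ
  Λ : ℝ
  N : ℕ
  ζ : ℝ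
  Rb : ℕ

open Classical in
/-- truncation of the fluctuation variable -/
def zc (ζ : ℝ) (z : Lk → E3) : Fld := fun f => if ‖z f‖ ≤ ζ then cE (z f) else 0

def nuI (ζ : ℝ) : Measure (Lk → E3) := Measure.infinitePi fun _ => nu ζ

namespace Dat

variable (D : Dat)

/-- the background field -/
def Us (W : Cf) (f : Lk) : Hc :=
  ex (cxL D.s (Bx (yo D.l f.1) W) (f.1 - up D.l (yo D.l f.1), f.2)) *
    if yo D.l (f.1 + un f.2) = yo D.l f.1 then 1 else W (yo D.l f.1, f.2)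

def Uz (W : Cf) (A : Fld) : Cf := fun f => ex (A f) * D.Us W f

/-- the fluctuation field in the comb gauge based at `y` -/
def Ay (y : St) (W : Cf) (A : Fld) : Fld :=
  adF (fun x => cmb star (sh y W) (yo D.l x)) (sh (up D.l y) A)

def pj (A : Fld) : Fld := fun f => if tree D.l f then 0 else A f

/-- the quadratic form of a block as an operator -/
def hL : V →ₗ[ℝ] V := LinearMap.pi fun f => hh D.l D.m (Pi.single f 1)

def top (W : Cf) (A : Fld) : Fld := D.pj fun f => A f - (D.Λ : ℂ)⁻¹ • ∑ y ∈ box 2,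
  adq (star (cmb star (sh (yo D.l f.1 + y) W) (-y)))
    (cxL D.hL (D.Ay (yo D.l f.1 + y) W (D.pj A)) (f.1 - up D.l (yo D.l f.1 + y), f.2))

/-- a polynomial in the operator `top` -/
def pol (p : ℂ[X]) (W : Cf) (A : Fld) : Fld := p.sum fun n c => c • (D.top W)^[n] (D.pj A)

def g : ℝ := (√(2 * D.β * D.Λ))⁻¹

/-- the fluctuation field -/
def Az (W : Cf) (z : Lk → E3) : Fld := (D.g : ℂ) • D.pol (pP D.N) W (zc D.ζ z)

def dt (W : Cf) : ℂ :=
  ∑ f ∈ lbox D.l, ∑ k, D.pol (pQ D.N) W (Pi.single f (Pi.single k 1)) f k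

def res (W U : Cf) (μ : Fin 3) : C3 :=
  ch (W (0, μ) * star (((LL D.l : ℂ) ^ 3)⁻¹ • ∑ t ∈ box D.l, lnP U t μ (LL D.l)))

def e1 (W : Cf) (A : Fld) : ℂ :=
  D.β * (∑ x ∈ box D.l, cx D.m (Bx x (D.Uz W A)) (Bx x (D.Uz W A)) +
    (LL D.l : ℂ) ^ 2 * ∑ μ, dot (D.res W (D.Uz W A) μ) (D.res W (D.Uz W A) μ) -
    cx (hh D.l D.m) (D.Ay 0 W A) (D.Ay 0 W A) - 2 * cx (xx D.l D.m D.s) (D.Ay 0 W A) (Bx 0 W) -
    cx (mn D.l D.m D.s) (Bx 0 W) (Bx 0 W))

def e2 (W : Cf) (A : Fld) : ℂ :=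
  2 * D.β * ∑ y ∈ box 2, cx (xx D.l D.m D.s) (D.Ay y W (cut D.l A)) (Bx y W)

def e3 (W : Cf) (A : Fld) : ℂ :=
  ∑ x ∈ box D.l, (D.ψ (Bx x (D.Uz W A)) - D.ψ (Bx x (D.Us W)))

def e4 (A : Fld) : ℂ := 2 * ∑ f ∈ lbox D.l, Complex.log (1 + dot (A f) (A f))

/-- the small interaction of the block at the origin -/
def s0 (W : Cf) (z : Lk → E3) : ℂ :=
  D.e1 W (D.Az W z) + D.e2 W (D.Az W z) + D.e3 W (D.Az W z) + D.e4 (D.Az W z)

def sS (W : Cf) (z : Lk → E3) : ℂ := ∑ y ∈ box D.Rb, D.s0 (sh y W) (sh (up D.l y) z)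

def wt (W : Cf) : ℂ := ∫ t in (0 : ℝ)..1,
  (∫ z, D.s0 W z * Complex.exp (-(t * D.sS W z)) ∂nuI D.ζ) /
    ∫ z, Complex.exp (-(t * D.sS W z)) ∂nuI D.ζ

def push (R : ℕ) (φ : Fld → ℂ) (B : Fld) : ℂ :=
  ∑ x ∈ box D.l, φ (Bx x (D.Us (exF (cut R (cg B)))))

def fresh (R : ℕ) (B : Fld) : ℂ :=
  D.wt (exF (cut R (cg B))) - D.wt 1 - (D.dt (exF (cut R (cg B))) - D.dt 1)

end Dat

def Agr {α : Type} (R : ℕ) (U U' : Lk → α) : Prop := ∀ e ∈ lbox R, U e = U' e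

/-- radius of the union of the blocks with labels in the box of radius `R` -/
def fb (l R : ℕ) : ℕ := R * LL l + l

/-- the links of the torus with `n ^ 3` blocks which are not in the trees -/
def fund (l n : ℕ) : Finset Lk :=
  (((cube n ×ˢ box l).image fun p => up l p.1 + p.2) ×ˢ univ).filter fun f => ¬ tree l f

/-- representative in the fundamental domain -/
def rp (l n : ℕ) (x : St) : St := x - up l (yo l x - fun i => yo l x i % (n : ℤ))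

/-- periodic extension, equal to `o` on the trees -/
def ext {α : Type} (l n : ℕ) (o : α) (u : fund l n → α) : Lk → α :=
  fun f => if h : (rp l n f.1, f.2) ∈ fund l n then u ⟨_, h⟩ else o

/-- standing assumptions on the data of a step -/
structure Dat.Ok (D : Dat) (c : ℕ) (τ : ℝ) (R : ℕ) (ρ κ : ℝ) : Prop where
  lin : Lin D.l D.r c τ D.m D.s
  m_rng : Rng (3 * D.r) (3 * D.r) D.m
  m_bd : Bd (3 * D.r) (3 * D.r) ((LL D.l : ℝ) ^ c) D.m
  m_gauge : ∀ u b, D.m (gr u) b = 0 ∧ D.m b (gr u) = 0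
  psi : Tm R ρ κ D.ψ
  lam : D.Λ = (LL D.l : ℝ) ^ (c + 1)
  num : D.N = LL D.l ^ (2 * c + 4)
  r_ge : 1000 ≤ D.r
  r_le : D.r ^ 2 ≤ D.l
  beta : 1 ≤ D.β
  rad : R ≤ LL D.l ^ (12 * c + 30)
  radb : D.Rb ≤ LL D.l ^ (12 * c + 30)
  zeta : 1 ≤ D.ζ
  tau : 0 ≤ τ
  rho : 0 < ρ

/-- range of the small interaction -/
def Dat.Rs (D : Dat) (R : ℕ) : ℕ := R / LL D.l + 4 * D.N + D.r + 10

/-- size of the small interaction -/
def Dat.th0 (D : Dat) (K : ℕ) (τ ρ ρ' κ δ : ℝ) : ℝ :=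
  (LL D.l : ℝ) ^ K * (D.β * δ ^ 3 + D.β * τ * ρ' * (D.g * D.ζ) + κ * (D.g * D.ζ + δ ^ 2) / ρ +
    (D.g * D.ζ) ^ 2)

/-- the effective action produced by a step -/
def Dat.actN (D : Dat) (n : ℕ) (W : Conf) : ℝ :=
  ∑ y ∈ cube n, (D.β * cx (mn D.l D.m D.s) (Bx y (cC W)) (Bx y (cC W)) +
    ∑ x ∈ box D.l, D.ψ (Bx x (D.Us (sh y (cC W)))) + D.wt (sh y (cC W)) - D.dt (sh y (cC W))).re

/-- effective action on the torus of side `n` -/
def act (β : ℝ) (m : BF) (φ : Fld → ℂ) (n : ℕ) (U : Conf) : ℝ :=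
  ∑ x ∈ cube n, (β * cx m (Bx x (cC U)) (Bx x (cC U)) + φ (Bx x (cC U))).re

end Pool.Agent.Lib.MP_7f377f_mp.RG.D3
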