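import Pool.Agent.Lib.MP_7f377f_mp.RGAp1

/-! Renormalisation group in three dimensions: lattice and linear definitions. -/

noncomputable section

namespace Pool.Agent.Lib.MP_7f377f_mp.RG.D3

open Finset
open scoped Pointwise

abbrev St := Fin 3 → ℤ
abbrev Lk := St × Fin 3
/-- real scalar one-forms -/
abbrev V := Lk → ℝ
abbrev BF := V →ₗ[ℝ] V →ₗ[ℝ] ℝ

def un (μ : Fin 3) : St := Pi.single μ 1

def box (r : ℕ) : Finset St := Fintype.piFinset fun _ => Icc (-(r : ℤ)) r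

def lbox (r : ℕ) : Finset Lk := box r ×ˢ univ

/-- fundamental domain of the torus of side `n` -/
def cube (n : ℕ) : Finset St := Fintype.piFinset fun _ => Ico (0 : ℤ) n

def lcube (n : ℕ) : Finset Lk := cube n ×ˢ univ

def sh {α : Type} (x : St) (U : Lk → α) : Lk → α := fun e => U (e.1 + x, e.2)

def Per {α : Type} (n : ℕ) (U : Lk → α) : Prop := ∀ μ, sh ((n : ℤ) • un μ) U = U

/-- side of the blocks -/
def LL (l : ℕ) : ℕ := 2 * l + 1

/-- centre of the block with label `y` -/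
def up (l : ℕ) (y : St) : St := (LL l : ℤ) • y

/-- label of the block containing `x` -/
def yo (l : ℕ) (x : St) : St := fun i => (x i + l) / (LL l : ℤ)

/-- links of the maximal trees inside the blocks -/
def tree (l : ℕ) (f : Lk) : Prop :=
  yo l (f.1 + un f.2) = yo l f.1 ∧ ∀ ν, f.2 < ν → f.1 ν = up l (yo l f.1) ν

instance (l : ℕ) : DecidablePred (tree l) := fun f => by unfold tree; infer_instance

section paths
variable {α : Type} [Monoid α]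

def lnP (U : Lk → α) (p : St) (μ : Fin 3) : ℕ → α
  | 0 => 1
  | k + 1 => lnP U p μ k * U (p + (k : ℤ) • un μ, μ)

def lnN (iv : α → α) (U : Lk → α) (p : St) (μ : Fin 3) : ℕ → α
  | 0 => 1
  | k + 1 => lnN iv U p μ k * iv (U (p - ((k : ℤ) + 1) • un μ, μ))

def ln (iv : α → α) (U : Lk → α) (p : St) (μ : Fin 3) (n : ℤ) : α :=
  lnP U p μ n.toNat * lnN iv U p μ (-n).toNat

def pre (x : St) (μ : Fin 3) : St := fun i => if i < μ then x i else 0

/-- transport along the comb from `0` to `x` -/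
def cmb (iv : α → α) (U : Lk → α) (x : St) : α :=
  ln iv U (pre x 0) 0 (x 0) * ln iv U (pre x 1) 1 (x 1) * ln iv U (pre x 2) 2 (x 2)

def gauge (iv : α → α) (h : St → α) (U : Lk → α) : Lk → α :=
  fun e => h e.1 * U e * iv (h (e.1 + un e.2))

def hol (iv : α → α) (U : Lk → α) (x : St) (μ ν : Fin 3) : α :=
  U (x, μ) * U (x + un μ, ν) * iv (U (x + un ν, μ)) * iv (U (x, ν))

end paths

section additive
variable {W : Type} [AddCommGroup W]

/-- signed primitive -/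
def pr (g : ℤ → W) (n : ℤ) : W :=
  ∑ i ∈ range n.toNat, g i - ∑ i ∈ range (-n).toNat, g (-((i : ℤ) + 1))

def lam (a : Lk → W) (x : St) : W := ∑ μ, pr (fun s => a (pre x μ + s • un μ, μ)) (x μ)

def gr (u : St → W) : Lk → W := fun e => u (e.1 + un e.2) - u e.1

/-- linear comb gauge -/
def cg (a : Lk → W) : Lk → W := a - gr (lam a)

def dd (a : Lk → W) (x : St) (μ ν : Fin 3) : W :=
  a (x, μ) + a (x + un μ, ν) - a (x + un ν, μ) - a (x, ν)

def cut (R : ℕ) (a : Lk → W) : Lk → W := fun e => if e ∈ lbox R then a e else 0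

end additive

/-- the curvature is at most `ρ` on the box of radius `R` -/
def Cv {W : Type} [NormedAddCommGroup W] (R : ℕ) (ρ : ℝ) (a : Lk → W) : Prop :=
  ∀ x ∈ box R, ∀ μ ν, ‖dd a x μ ν‖ ≤ ρ

/-- the field is at most `δ` on the box of radius `R` -/
def Sm {W : Type} [NormedAddCommGroup W] (R : ℕ) (δ : ℝ) (a : Lk → W) : Prop :=
  ∀ e ∈ lbox R, ‖a e‖ ≤ δ

def nd (a : V) (x : St) : ℝ := ∑ μ, ∑ ν, dd a x μ ν ^ 2

def shL (x : St) : V →ₗ[ℝ] V := LinearMap.funLeft ℝ ℝ fun e => (e.1 + x, e.2)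

/-- average of the straight line sums -/
def avgA (l : ℕ) : V →ₗ[ℝ] V :=
  LinearMap.pi fun b => ((LL l : ℝ) ^ 3)⁻¹ • ∑ t ∈ box l, ∑ i ∈ range (LL l),
    LinearMap.proj (up l b.1 + t + (i : ℤ) • un b.2, b.2)

/-- coarse field put on the links between blocks -/
def iz (l : ℕ) : V →ₗ[ℝ] V :=
  LinearMap.pi fun f => if yo l (f.1 + un f.2) = yo l f.1 then 0 else LinearMap.proj (yo l f.1, f.2)

/-- approximate minimiser built from a block kernel `s` -/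
def mu (l : ℕ) (s : V →ₗ[ℝ] V) : V →ₗ[ℝ] V :=
  iz l + LinearMap.pi fun f =>
    LinearMap.proj (f.1 - up l (yo l f.1), f.2) ∘ₗ s ∘ₗ shL (yo l f.1)

/-- the residual `B - avg a` at the coarse link `(0, μ)` -/
def resL (l : ℕ) (μ : Fin 3) : V × V →ₗ[ℝ] ℝ :=
  LinearMap.proj (0, μ) ∘ₗ (LinearMap.snd ℝ V V - avgA l ∘ₗ LinearMap.fst ℝ V V)

/-- energy of the block at the origin -/
def enB (l : ℕ) (m : BF) : V × V →ₗ[ℝ] V × V →ₗ[ℝ] ℝ :=
  ∑ x ∈ box l, m.compl₁₂ (shL x ∘ₗ LinearMap.fst ℝ V V) (shL x ∘ₗ LinearMap.fst ℝ V V) +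
    ((LL l : ℝ) ^ 2) • ∑ μ, (LinearMap.mul ℝ ℝ).compl₁₂ (resL l μ) (resL l μ)

def hh (l : ℕ) (m : BF) : BF :=
  (enB l m).compl₁₂ (LinearMap.inl ℝ V V) (LinearMap.inl ℝ V V)

def xx (l : ℕ) (m : BF) (s : V →ₗ[ℝ] V) : BF :=
  (enB l m).compl₁₂ (LinearMap.inl ℝ V V) ((mu l s).prod LinearMap.id)

def mn (l : ℕ) (m : BF) (s : V →ₗ[ℝ] V) : BF :=
  (enB l m).compl₁₂ ((mu l s).prod LinearMap.id) ((mu l s).prod LinearMap.id)

/-- the new density in the normalisation of the coarse lattice -/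
def mr (l : ℕ) (m : BF) (s : V →ₗ[ℝ] V) : BF := (LL l : ℝ) • mn l m s

/-- the quadratic part of the Wilson action -/
def m0 : BF := LinearMap.mk₂ ℝ (fun a b => 2⁻¹ * ∑ μ, ∑ ν, dd a 0 μ ν * dd b 0 μ ν)
  (fun a b c => by simp only [dd, Pi.add_apply, ← mul_add, ← sum_add_distrib]; congr! 3; ring)
  (fun a b c => by simp only [dd, Pi.smul_apply, smul_eq_mul, mul_sum]; congr! 2; ring)
  (fun a b c => by simp only [dd, Pi.add_apply, ← mul_add, ← sum_add_distrib]; congr! 3; ring)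
  (fun a b c => by simp only [dd, Pi.smul_apply, smul_eq_mul, mul_sum]; congr! 2; ring)

/-- the form depends only on the links in the boxes of radii `r`, `r'` -/
def Rng (r r' : ℕ) (m : BF) : Prop :=
  ∀ a b, ((∀ e ∈ lbox r, a e = 0) ∨ ∀ e ∈ lbox r', b e = 0) → m a b = 0

/-- size of a form -/
def Bd (r r' : ℕ) (c : ℝ) (m : BF) : Prop :=
  ∀ a b (δ δ' : ℝ), Sm r δ a → Sm r' δ' b → |m a b| ≤ c * δ * δ'

/-- invariants of the quadratic energy density -/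
structure Inv (n r : ℕ) (cL cU : ℝ) (m : BF) : Prop where
  symm : ∀ a b, m a b = m b a
  rng : Rng r r m
  gauge : ∀ u b, m (gr u) b = 0
  psd : ∀ a, 0 ≤ m a a
  lower : ∀ (a : V) (S : Finset St),
    ∑ x ∈ S, nd a x ≤ cL * ∑ x ∈ S + box 2, m (sh x a) (sh x a)
  upper : ∀ (a : V) (S T : Finset St), (∀ e : Lk, e.1 ∉ T → a e = 0) →
    ∑ x ∈ S, m (sh x (avgA n a)) (sh x (avgA n a)) ≤ cU * LL n * ∑ x ∈ T + box 1, nd a x

/-- on fields of constant curvature the density is close to the Wilson density -/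
def Cc (σ : ℝ) (m : BF) : Prop :=
  ∀ a : V, (∀ x, dd a x = dd a 0) → |m a a - m0 a a| ≤ σ * nd a 0

/-- distance of two densities -/
def Df (r : ℕ) (σ : ℝ) (m m' : BF) : Prop := ∀ a δ, Cv r δ a → |m a a - m' a a| ≤ σ * δ ^ 2

/-- what the nonlinear step uses from the linear theory -/
structure Lin (l r c : ℕ) (τ : ℝ) (m : BF) (s : V →ₗ[ℝ] V) : Prop where
  symm : ∀ a b, m a b = m b a
  psd : ∀ a, 0 ≤ m a a
  gauge : ∀ u b, m (gr u) b = 0
  s_tree : ∀ a f, tree l f → s a f = 0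
  s_gauge : ∀ u, s (gr u) = 0
  s_rng : ∀ a, (∀ e ∈ lbox (r / 4), a e = 0) → s a = 0
  s_bd : ∀ a δ f, Sm r δ a → |s a f| ≤ (LL l : ℝ) ^ c * δ
  stat : ∀ B δ, ∀ f ∈ lbox l, ¬ tree l f → Cv (r / 3) δ B →
    |∑ y ∈ box 2, xx l m s (sh (up l y) (Pi.single f 1)) (sh y B)| ≤ τ * δ
  energy : ∀ B δ, Cv (r / 3) δ B → ∑ x ∈ box l, nd (mu l s B) x ≤ (r : ℝ) ^ 5 * δ ^ 2 / LL l
  point : ∀ B δ, Cv (r / 3) δ B → Cv l (δ / (√(LL l) * (r : ℝ) ^ 12)) (mu l s B)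
  grad : ∀ B δ, Cv (r / 3) δ B → ∑ x ∈ box l, ∑ κ, nd (sh (un κ) (mu l s B) - mu l s B) x ≤
    (r : ℝ) ^ c * δ ^ 2 / (LL l : ℝ) ^ 2
  coer : ∀ a : V, (∀ f, tree l f → a f = 0) → ∑ f ∈ lbox l, a f ^ 2 ≤
    (LL l : ℝ) ^ c * ∑ y ∈ box 3, hh l m (sh (up l y) a) (sh (up l y) a)
  hh_rng : Rng (3 * l + 1) (3 * l + 1) (hh l m)
  xx_rng : Rng (3 * l + 1) r (xx l m s)
  mn_rng : Rng r r (mn l m s)
  hh_bd : ∀ a, hh l m a a ≤ (LL l : ℝ) ^ c * ∑ f ∈ lbox (3 * l + 1), a f ^ 2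
  xx_bd : Bd (3 * l + 1) r ((LL l : ℝ) ^ c) (xx l m s)
  mn_bd : Bd r r ((LL l : ℝ) ^ c) (mn l m s)

end Pool.Agent.Lib.MP_7f377f_mp.RG.D3
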