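import Pool.Agent.Lib.MP_7f377f_mp.R3SmE

/-! The background field: covariance, locality and second order expansion. -/

noncomputable section

namespace Pool.Agent.Lib.MP_7f377f_mp.RG.D3

open Finset

attribute [local irreducible] box lbox

variable {D : Dat} {c R : ℕ} {τ ρ κ : ℝ}

theorem JS.srng (h : D.Ok c τ R ρ κ) (f : Lk) (a : V) (ha : ∀ e ∈ lbox (D.r / 4), a e = 0) :
    D.s a f = 0 := congrFun (h.lin.s_rng a ha) f

namespace Dat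

theorem Us_sh (y : St) (W : Cf) : D.Us (sh y W) = sh (up D.l y) (D.Us W) := by
  funext f
  simp only [Dat.Us, sh_apply, Bx_sh, add_right_comm f.1 (up D.l y), yo_add_up, add_left_inj,
    up_add, add_sub_add_right_eq_sub]

theorem Us_gauge (h : D.Ok c τ R ρ κ) {u : St → Hc} (hu : ∀ x, Uni (u x)) (W : Cf) :
    D.Us (gauge star u W) = gauge star (fun x => u (yo D.l x)) (D.Us W) := by
  funext f
  simp only [Dat.Us, Bx_gauge hu, cxL_adF (JS.srng h _), ex_adq (hu _), gauge]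
  split_ifs with hf
  · simp only [hf, mul_one]
  · simp only [JS.yo_add_un _ _ _ hf, mul_assoc, JS.cancel hu]

theorem Us_agr (h : D.Ok c τ R ρ κ) {a : ℕ} {W W' : Cf} (hW : Agr (a + D.r / 4 + 1) W W') :
    Agr (fb D.l a) (D.Us W) (D.Us W') := fun f hf => by
  have hy := yo_mem_box (mem_lbox.1 hf)
  rw [Dat.Us, Dat.Us, hW (yo D.l f.1, f.2) (mem_lbox.2 (box_mono (by omega) hy)), Bx_eq, Bx_eq _ W',
    cxL_agr (JS.srng h _) (Bx_agr (JS.agr_sh hW hy (by omega)))]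

theorem Us_real (W : Conf) : ∃ U : Conf, cC U = D.Us (cC W) := by
  choose v hv using fun f : Lk => exists_cE (cxL_real D.s (Bx_real (yo D.l f.1) W)
    (f.1 - up D.l (yo D.l f.1), f.2))
  choose g hg using ex_real
  refine ⟨fun f => g (v f) * if yo D.l (f.1 + un f.2) = yo D.l f.1 then 1 else
    W (yo D.l f.1, f.2), funext fun f => ?_⟩
  rw [cC, cS_mul, (hg _).1, hv, Dat.Us, apply_ite cS, cS_one, cC]

theorem Us_tree (h : D.Ok c τ R ρ κ) (W : Cf) {f : Lk} (hf : tree D.l f) : D.Us W f = 1 := by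
  have t : tree D.l (f.1 - up D.l (yo D.l f.1), f.2) := by
    rw [← tree_add_up _ _ (yo D.l f.1), sub_add_cancel]
    exact hf
  have : ∀ A, cxL D.s A (f.1 - up D.l (yo D.l f.1), f.2) = 0 := fun A => funext fun k => by
    simp [cxL, h.lin.s_tree _ _ t]
  rw [Dat.Us, if_pos hf.1, this, ex_zero, mul_one]

end Dat

namespace JS

variable {P δ : ℝ}

theorem big_pow (h : D.Ok c τ R ρ κ) {n : ℕ} (hn : 12 * c + 31 ≤ n) :
    Big D c R ((LL D.l : ℝ) ^ n) := by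
  have L1 := one_le_LL D.l
  have L6 : (10 : ℝ) ^ 6 ≤ LL D.l := by
    have h1 := h.r_ge
    have h2 := h.r_le
    have : 10 ^ 6 ≤ LL D.l := by unfold LL; nlinarith
    exact_mod_cast this
  have pw : ∀ k, k < n → 10 ^ 6 * (LL D.l : ℝ) ^ k ≤ LL D.l ^ n := fun k hk =>
    le_trans (by rw [pow_succ' _ k]; gcongr) (pow_le_pow_right₀ L1 (hk : k + 1 ≤ n))
  have p1 : ∀ n, (1 : ℝ) ≤ LL D.l ^ n := fun n => one_le_pow₀ L1
  have : (R : ℝ) ≤ LL D.l ^ (12 * c + 30) := by exact_mod_cast h.rad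
  exact ⟨by simpa using pw 0 (by omega), by linarith [pw 3 (by omega), p1 3],
    by linarith [pw c (by omega), p1 c], by linarith [pw (12 * c + 30) (by omega), p1 (12 * c + 30)]⟩

theorem cxs_bd (h : D.Ok c τ R ρ κ) (b : Big D c R P) {A : Fld} (hA : Sm D.r δ A) (f : Lk) :
    ‖cxL D.s A f‖ ≤ P * δ := by
  refine (cxL_bd (fun k => h.lin.s_bd _ _ f (hA.reF k))
    fun k => h.lin.s_bd _ _ f (hA.imF k)).trans ?_
  rw [← mul_assoc]
  exact mul_le_mul_of_nonneg_right b.pc hA.nonneg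

theorem cxL_mu (l : ℕ) (s : V →ₗ[ℝ] V) (B : Fld) (f : Lk) : cxL (mu l s) B f =
    cxL s (sh (yo l f.1) B) (f.1 - up l (yo l f.1), f.2) +
      if yo l (f.1 + un f.2) = yo l f.1 then 0 else B (yo l f.1, f.2) := by
  funext k
  simp only [cxL, mu_apply, Pi.add_apply, reF_sh, imF_sh]
  split_ifs
  · simp
  · apply Complex.ext <;> simp [reF, imF, add_comm]

theorem Uz_ap (h : D.Ok c τ R ρ κ) (b : Big D c R P) (h9 : P ^ 9 * δ ≤ 1) {B A : Fld}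
    (hB : ∀ e, ‖B e‖ ≤ δ) (hA : ∀ e, ‖A e‖ ≤ δ) (f : Lk) :
    ‖cxL D.s (Bx (yo D.l f.1) (exF B)) (f.1 - up D.l (yo D.l f.1), f.2)‖ ≤ 1 / 2 ∧
    ‖(A + cxL (mu D.l D.s) B) f‖ ≤ P ^ 9 * δ ∧
      ‖D.Uz (exF B) A f - 1 - io ((A + cxL (mu D.l D.s) B) f)‖ ≤ P ^ 9 * δ ^ 2 := by
  have δ0 : 0 ≤ δ := (norm_nonneg _).trans (hB f)
  have P0 := b.p0
  have P1 := b.one
  have h3 : P ^ 3 * δ ≤ 1 := le_trans (by gcongr; norm_num) h9
  have q1 : 10 ^ 6 * (P ^ 4 * δ) ≤ 1 := by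
    calc _ ≤ P ^ 5 * (P ^ 4 * δ) := by gcongr; linarith [le_self_pow₀ P1 (show 5 ≠ 0 by norm_num)]
      _ = P ^ 9 * δ := by ring
      _ ≤ 1 := h9
  have q2 : δ ≤ P ^ 4 * δ := le_mul_of_one_le_left δ0 (one_le_pow₀ P1)
  have cz := Bx_czB h b h3 hB (yo D.l f.1)
  have s1 := (cxs_bd h b cz.2.1 (f.1 - up D.l (yo D.l f.1), f.2)).trans_eq
    (by ring : _ = 2 * (P ^ 4 * δ))
  have s2 := cxs_bd h b cz.1 (f.1 - up D.l (yo D.l f.1), f.2)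
  have s3 := cxs_bd h b (A := sh (yo D.l f.1) B) (fun e _ => hB _) (f.1 - up D.l (yo D.l f.1), f.2)
  rw [cxL_sub, cg, cxL_sub, cxL_gr h.lin.s_gauge, sub_zero, Pi.sub_apply] at s2
  rw [Pi.add_apply, cxL_mu, Dat.Uz, Dat.Us]
  set σ := cxL D.s (Bx (yo D.l f.1) (exF B)) (f.1 - up D.l (yo D.l f.1), f.2)
  set σ' := cxL D.s (sh (yo D.l f.1) B) (f.1 - up D.l (yo D.l f.1), f.2)
  have a1 := ex_near (hA f) (by linarith)
  have a2 := ex_near s1 (by linarith)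
  have a3 : ‖ex σ - 1 - io σ'‖ ≤ 10 * (2 * (P ^ 4 * δ)) ^ 2 + 3 * (P * (P ^ 5 * δ ^ 2)) := by
    rw [show ex σ - 1 - io σ' = ex σ - 1 - io σ + io (σ - σ') by rw [io_sub]; abel]
    exact norm_add_le_of_le a2 ((norm_io _).trans (by gcongr))
  obtain ⟨w, β, e1, e2, w1, w2⟩ : ∃ w β, (if yo D.l (f.1 + un f.2) = yo D.l f.1 then 1 else
      exF B (yo D.l f.1, f.2)) = w ∧ (if yo D.l (f.1 + un f.2) = yo D.l f.1 then 0 else
      B (yo D.l f.1, f.2)) = β ∧ ‖β‖ ≤ δ ∧ ‖w - 1 - io β‖ ≤ 10 * δ ^ 2 := by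
    split_ifs
    · exact ⟨_, _, rfl, rfl, by simpa using δ0, by simp; positivity⟩
    · exact ⟨_, _, rfl, rfl, hB _, ex_near (hB _) (by linarith)⟩
  rw [e1, e2]
  have n1 : ‖ex (A f) - 1‖ ≤ 4 * (P ^ 4 * δ) := (near_one ⟨hA f, a1⟩).trans (by nlinarith)
  have n2 : ‖ex σ - 1‖ ≤ 8 * (P ^ 4 * δ) := (near_one ⟨s1, a2⟩).trans (by nlinarith)
  have n3 : ‖w - 1‖ ≤ 4 * (P ^ 4 * δ) := (near_one ⟨w1, w2⟩).trans (by nlinarith)
  have n4 : ‖ex σ * w - 1‖ ≤ 13 * (P ^ 4 * δ) := (mul_near n2 n3).trans (by nlinarith)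
  refine ⟨by linarith, (norm_add_le_of_le (hA f) (norm_add_le_of_le s3 w1)).trans ?_,
    (mul_ap n1 n4 a1 (mul_ap n2 n3 a3 w2)).trans ?_⟩
  · have : P ^ 2 * δ ≤ P ^ 9 * δ := by gcongr; norm_num
    nlinarith [mul_le_mul_of_nonneg_right P0 δ0, mul_nonneg (zero_le_one.trans P1) δ0]
  · have p6 : P ^ 6 ≤ P ^ 8 := pow_le_pow_right₀ P1 (by norm_num)
    have p0 : 1 ≤ P ^ 8 := one_le_pow₀ P1
    calc _ = (124 * P ^ 8 + 3 * P ^ 6 + 20) * δ ^ 2 := by ring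
      _ ≤ P * P ^ 8 * δ ^ 2 := by gcongr; nlinarith
      _ = _ := by ring

end JS

open JS in
theorem Us_ap (c : ℕ) : ∃ K : ℕ, ∀ (D : Dat) (R : ℕ) (τ ρ κ δ : ℝ), D.Ok c τ R ρ κ →
    K ≤ D.l → (LL D.l : ℝ) ^ K * δ ≤ 1 →
      (∀ (B A : Fld), (∀ e, ‖B e‖ ≤ δ) → (∀ e, ‖A e‖ ≤ δ) → ∀ a,
        Ap a ((LL D.l : ℝ) ^ K * δ) ((LL D.l : ℝ) ^ K * δ ^ 2) (D.Uz (exF B) A)
          (A + cxL (mu D.l D.s) B)) ∧
      ∀ (Ω : Set ℂ) (B A : ℂ → Fld), Disc Ω B → Disc Ω A → (∀ t ∈ Ω, ∀ e, ‖B t e‖ ≤ δ) →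
        (∀ t ∈ Ω, ∀ e, ‖A t e‖ ≤ δ) → Disc Ω fun t => D.Uz (exF (B t)) (A t) := by
  refine ⟨(12 * c + 31) * 9, fun D R τ ρ κ δ h _ h9 => ?_⟩
  have b := big_pow h le_rfl
  rw [pow_mul] at h9 ⊢
  generalize (LL D.l : ℝ) ^ (12 * c + 31) = P at *
  refine ⟨fun B A hB hA a e _ => (Uz_ap h b h9 hB hA e).2, fun Ω B A dB dA hB hA f => ?_⟩
  rcases Ω.eq_empty_or_nonempty with rfl | ⟨t₀, ht₀⟩
  · exact differentiableOn_empty
  have δ0 : 0 ≤ δ := (norm_nonneg _).trans (hB t₀ ht₀ f)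
  have P1 := b.one
  have h3 : P ^ 3 * δ ≤ 1 := le_trans (by gcongr; norm_num) h9
  obtain ⟨s1, s2, s3⟩ := pow_small b.p0 δ0 h3
  have dW := dB.exF fun t ht e => (hB t ht e).trans (by linarith)
  have d1 := Bx_disc (R := D.r) (dW.sh (yo D.l f.1))
    (fun t ht e _ => (exF_ap b.p0 h3 (hB t ht) _).1) (by nlinarith [b.r h])
  refine (diff_ex (dA f) fun t ht => (hA t ht f).trans (by linarith)).mul
    ((diff_ex (diff_cxL (srng h _) fun e he => ?_) fun t ht =>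
      (Uz_ap h b h9 (hB t ht) (hA t ht) f).1).mul ?_)
  · simpa only [cut_of_mem _ (lbox_mono (Nat.div_le_self _ 4) he), ← D3.Bx_eq] using d1 e
  · split_ifs
    exacts [differentiableOn_const _, dW _]

end Pool.Agent.Lib.MP_7f377f_mp.RG.D3
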