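import Pool.Agent.Lib.MP_7f377f_mp.R3SmG

/-! The old small term evaluated on the background field. -/

noncomputable section

namespace Pool.Agent.Lib.MP_7f377f_mp.RG.D3.JS

open Finset

attribute [local irreducible] box lbox

variable {D : Dat} {c R a n : ℕ} {τ ρ κ P δ : ℝ} {B : Fld}

theorem cv_mu' (h : D.Ok c τ R ρ κ) (hc : Cv n δ B) (hn : a / LL D.l + 2 + D.r / 3 ≤ n) :
    Cv (a + D.l) (2 * (δ / (√(LL D.l) * (D.r : ℝ) ^ 12))) (cxL (mu D.l D.s) B) := fun x hx μ ν => by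
  have hy : yo D.l x ∈ box (a / LL D.l + 2) :=
    yo_mem (box_mono ((by omega : _ ≤ a + 2 + D.l).trans (rad_le D.l a 0)) hx)
  have key : ∀ b : V, Cv n δ b → |dd (mu D.l D.s b) x μ ν| ≤
      δ / (√(LL D.l) * (D.r : ℝ) ^ 12) := fun b hb => by
    have := h.lin.point _ δ (cv_sh (a := D.r / 3) hb hy (by omega)) _ (sub_up_mem D.l x) μ ν
    rwa [mu_sh, Li.dd_sh, sub_add_cancel] at this
  refine (pi_norm_le_iff_of_nonneg (by have := hc.nonneg; positivity)).2 fun k => ?_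
  have a1 := key _ (hc.reF k)
  have a2 := key _ (hc.imF k)
  rw [← reF_cxL] at a1
  rw [← imF_cxL] at a2
  exact (Complex.norm_le_abs_re_add_abs_im _).trans ((add_le_add a1 a2).trans_eq (by ring))

/-- energy density of a complex field -/
def nc (A : Fld) (x : St) : ℝ := ∑ k, (nd (reF A k) x + nd (imF A k) x)

theorem nc_nonneg (A : Fld) (x : St) : 0 ≤ nc A x :=
  sum_nonneg fun _ _ => add_nonneg (Li.nd_nonneg _ _) (Li.nd_nonneg _ _)

theorem cv_nc (a : ℕ) (A : Fld) (x : St) : Cv a (√(∑ t ∈ box a, nc A (x + t))) (sh x A) :=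
  fun t ht μ ν => (pi_norm_le_iff_of_nonneg (Real.sqrt_nonneg _)).2 fun k => by
    rw [Li.dd_sh, add_comm t]
    refine Real.le_sqrt_of_sq_le (le_trans ?_ (single_le_sum (f := fun t => nc A (x + t))
      (fun _ _ => nc_nonneg _ _) ht))
    refine le_trans ?_ (single_le_sum (f := fun k => nd (reF A k) (x + t) + nd (imF A k) (x + t))
      (fun _ _ => add_nonneg (Li.nd_nonneg _ _) (Li.nd_nonneg _ _)) (mem_univ k))
    rw [Complex.sq_norm, Complex.normSq_apply, ← sq, ← sq]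
    exact add_le_add (Li.sq_le_nd (reF A k) _ μ ν) (Li.sq_le_nd (imF A k) _ μ ν)

theorem sum_nc (h : D.Ok c τ R ρ κ) (hc : Cv n δ B) (hn : 1 + D.r / 3 ≤ n) (ha : a ≤ 3 * D.r) :
    ∑ x ∈ box D.l, ∑ t ∈ box a, nc (cxL (mu D.l D.s) B) (x + t) ≤
      (2 * (3 * D.r) + 1) ^ 3 * (162 * ((D.r : ℝ) ^ 5 * δ ^ 2 / LL D.l)) := by
  have k1 : ∀ y ∈ box 1, ∑ x ∈ box D.l, nc (cxL (mu D.l D.s) B) (x + up D.l y) ≤
      6 * ((D.r : ℝ) ^ 5 * δ ^ 2 / LL D.l) := fun y hy => by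
    have key : ∀ b : V, Cv n δ b → ∑ x ∈ box D.l, nd (mu D.l D.s b) (x + up D.l y) ≤
        (D.r : ℝ) ^ 5 * δ ^ 2 / LL D.l := fun b hb => by
      simpa only [mu_sh, Li.nd_sh] using
        h.lin.energy _ δ (cv_sh (a := D.r / 3) hb hy (by omega))
    simp only [nc, reF_cxL, imF_cxL]
    rw [sum_comm]
    refine (sum_le_sum fun k _ => (sum_add_distrib.trans_le (add_le_add (key _ (hc.reF k))
      (key _ (hc.imF k))))).trans_eq ?_
    simp only [sum_const, card_univ, Fintype.card_fin, nsmul_eq_mul]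
    push_cast
    ring
  have k2 : ∀ t ∈ box a, ∑ x ∈ box D.l, nc (cxL (mu D.l D.s) B) (x + t) ≤
      162 * ((D.r : ℝ) ^ 5 * δ ^ 2 / LL D.l) := fun t ht => by
    simp only [add_comm _ t]
    rw [Li.sum_shift]
    refine (sum_le_sum_of_subset_of_nonneg
      (t := (box 1 ×ˢ box D.l).image fun p => p.2 + up D.l p.1) (fun x hx => ?_)
        fun _ _ _ => nc_nonneg _ _).trans ((sum_image_le_of_nonneg fun _ _ => nc_nonneg _ _).trans ?_)
    · obtain ⟨y, hy, rfl⟩ := mem_image.1 hx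
      refine mem_image.2 ⟨(_, _), mem_product.2 ⟨yo_mem (mem_le ht hy ?_), sub_up_mem _ _⟩,
        sub_add_cancel _ _⟩
      have := h.r_le
      have := h.r_ge
      simp only [fb, LL]
      nlinarith
    · rw [sum_product]
      refine (sum_le_card_nsmul _ _ _ k1).trans_eq ?_
      rw [card_box, nsmul_eq_mul]
      push_cast
      ring
  rw [sum_comm]
  refine (sum_le_card_nsmul _ _ _ k2).trans ?_
  rw [card_box, nsmul_eq_mul]
  push_cast
  gcongr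
  exact_mod_cast ha

theorem Us_one (D : Dat) : D.Us 1 = 1 := by
  funext f
  simp [Dat.Us]

theorem cut_cg_loc {A B : Fld} (h : ∀ x ∈ box R, ∀ μ ν, dd A x μ ν = dd B x μ ν) :
    cut R (cg A) = cut R (cg B) := funext fun e => by
  have := cut_cg_bd (R := R) (ρ := 0) (B := A - B)
    (fun x hx μ ν => by rw [dd_sub, h x hx, sub_self, norm_zero]) le_rfl e
  simp only [cut, cg_sub, mul_zero, norm_le_zero_iff] at this ⊢
  split_ifs at this ⊢
  exacts [sub_eq_zero.1 this, rfl]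

theorem ok_top (h : D.Ok c τ R ρ κ) : D.Ok c τ (LL D.l ^ (12 * c + 30)) ρ κ :=
  ⟨h.lin, h.m_rng, h.m_bd, h.m_gauge, h.psi.mono h.rad le_rfl, h.lam, h.num, h.r_ge, h.r_le, h.beta,
    le_rfl, h.radb, h.zeta, h.tau, h.rho⟩

theorem exists_pre' (c : ℕ) : ∃ K : ℕ, ∀ (D : Dat) (R : ℕ) (τ ρ κ : ℝ), D.Ok c τ R ρ κ →
    K ≤ D.l → ∃ n, LL D.l ^ (12 * c + 30) = n ∧ ∀ δ, 0 ≤ δ → ((LL D.l : ℝ) ^ K) ^ 3 * δ ≤ 1 →
      Pre D c n ((LL D.l : ℝ) ^ K) δ := by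
  obtain ⟨K, hK⟩ := exists_pre c
  exact ⟨K, fun D R τ ρ κ h hl => ⟨_, rfl, fun δ => hK D _ τ ρ κ δ (ok_top h) hl⟩⟩

theorem _root_.Pool.Agent.Lib.MP_7f377f_mp.RG.D3.push_tm (c : ℕ) :
    ∃ K : ℕ, ∀ (D : Dat) (R : ℕ) (τ ρ κ ρ' : ℝ), D.Ok c τ R ρ κ →
    K ≤ D.l → 0 < ρ' → (LL D.l : ℝ) ^ K * ρ' ≤ 1 → (LL D.l : ℝ) ^ K * ρ' ^ 2 ≤ ρ →
    ρ' ≤ √(LL D.l) * ρ → ∀ (a a' : ℕ) (κ' : ℝ) (φ : Fld → ℂ), Tm a ρ κ' φ →
      a / LL D.l + D.r / 3 + 4 ≤ a' → a' ≤ LL D.l ^ (12 * c + 30) → a ≤ LL D.l ^ (12 * c + 30) →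
      Tm a' ρ' ((LL D.l : ℝ) ^ 3 * κ') (D.push a' φ) ∧
      (a ≤ 3 * D.r → Tm a' ρ' ((D.r : ℝ) ^ 11 * κ') (D.push a' φ)) ∧
      ∀ W : Conf, curvG (ρ' / 2) W →
        D.push a' φ (Bx 0 (cC W)) = ∑ x ∈ box D.l, φ (Bx x (D.Us (cC W))) := by
  obtain ⟨K, hK⟩ := exists_pre' c
  refine ⟨K * 9, fun D R τ ρ κ ρ' h hl ρ1 h9 h8 h7 => ?_⟩
  obtain ⟨n, hn, hK'⟩ := hK D R τ ρ κ h (by omega)
  rw [hn]
  clear hn hK
  intro a a' κ' φ hφ h1 h2 h3
  have ρ0 := h.rho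
  have r0 : (1000 : ℝ) ≤ D.r := by exact_mod_cast h.r_ge
  have r1 := h.r_ge
  have L1 := one_le_LL D.l
  have L0 : 0 < √(LL D.l : ℝ) := Real.sqrt_pos.2 (zero_lt_one.trans_le L1)
  have h6 : ρ' ^ 2 / LL D.l ≤ ρ ^ 2 := by
    rw [div_le_iff₀ (by positivity)]
    refine (pow_le_pow_left₀ ρ1.le h7 2).trans_eq ?_
    rw [mul_pow, Real.sq_sqrt (by positivity), mul_comm]
  rw [pow_mul] at h9 h8
  generalize (LL D.l : ℝ) ^ K = P at h9 h8 hK'
  have b := (hK' 0 le_rfl (by simp)).big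
  have P0 := b.p0
  have P1 := b.one
  have a1 : (a : ℝ) + 3 ≤ P := le_trans (by gcongr) b.pR
  have a2 : (a' : ℝ) + 3 ≤ P := le_trans (by gcongr) b.pR
  clear h2 h3
  have ba : Big D c a P := { b with pR := a1 }
  have d1 : 3 * a' * ρ' ≤ 3 * P * ρ' := by gcongr; linarith
  have d0 : 0 ≤ 3 * a' * ρ' := by positivity
  have q1 : 10 ^ 6 * (P ^ 8 * ρ') ≤ 1 := by
    refine le_trans ?_ ((by ring : P * (P ^ 8 * ρ') = _).trans_le h9)
    gcongr
  have q2 : P ^ 4 * ρ' ≤ P ^ 8 * ρ' := by gcongr; norm_num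
  have q3 : P * ρ' ≤ P ^ 4 * ρ' := by gcongr; exact le_self_pow₀ P1 (by norm_num)
  have p := hK' (3 * a' * ρ') d0 (by
    calc _ ≤ P ^ 3 * (3 * P * ρ') := by gcongr
      _ = 3 * (P ^ 4 * ρ') := by ring
      _ ≤ 1 := by nlinarith)
  obtain ⟨u, hu, u0, u1⟩ : ∃ u, 4 * (P ^ 5 * (3 * a' * ρ') ^ 2) = u ∧ 0 ≤ u ∧ P * u ≤ ρ := by
    refine ⟨_, rfl, by positivity, le_trans ?_ h8⟩
    calc _ ≤ P * (4 * (P ^ 5 * (3 * P * ρ') ^ 2)) := by gcongr
      _ = 36 * (P ^ 8 * ρ' ^ 2) := by ring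
      _ ≤ P * (P ^ 8 * ρ' ^ 2) := by gcongr; linarith
      _ = _ := by ring
  have u2 : 10 ^ 6 * u ≤ ρ := le_trans (by gcongr) u1
  have v1 : 2 * (ρ' / (√(LL D.l) * (D.r : ℝ) ^ 12)) ≤ ρ / 2 := by
    refine (mul_le_mul_of_nonneg_left (div_le_div_of_nonneg_right h7 (by positivity))
      zero_le_two).trans ?_
    rw [mul_div_mul_left _ _ L0.ne', ← mul_div_assoc, div_le_div_iff₀ (by positivity) (by norm_num)]
    nlinarith [le_self_pow₀ (show (1 : ℝ) ≤ D.r by linarith) (show 12 ≠ 0 by norm_num)]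
  have c0 : ∀ B : Fld, Cv a' ρ' B → Cv (a / LL D.l + 2 + D.r / 3) ρ' (cut a' (cg B)) :=
    fun B hB => sh_zero (cut a' (cg B)) ▸ cut_cg_cv (b := 0) hB (by omega) (zero_mem_box 0)
  have c1 : ∀ B : Fld, Cv a' ρ' B → ∀ x v, Cv a v (sh x (cxL (mu D.l D.s) (cut a' (cg B)))) →
      Cv a (u + v) (Bx x (D.Us (exF (cut a' (cg B))))) := fun B hB x v hv => by
    have := cv_add (cv_Bx ba p.small (p.us (cut_cg_bd hB ρ1.le)) x) hv
    rwa [sub_add_cancel, hu] at this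
  have c2 := fun B hB x (hx : x ∈ box D.l) => cv_sh (cv_mu' h (c0 B hB) le_rfl) hx le_rfl
  have c3 : ∀ B : Fld, Cv a' ρ' B → ∀ x ∈ box D.l, Cv a ρ (Bx x (D.Us (exF (cut a' (cg B))))) :=
    fun B hB x hx => cv_mono (c1 B hB x _ (c2 B hB x hx)) le_rfl (by linarith)
  have key : ∀ κ'', (∀ B, Cv a' ρ' B → ‖D.push a' φ B‖ ≤ κ'') → Tm a' ρ' κ'' (D.push a' φ) := by
    refine fun κ'' hb => ⟨fun A B hAB => ?_, fun Ω γ hΩ dγ hγ => ?_, hb, ?_, fun g B => ?_,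
      fun B hB => ?_⟩
    · simp only [Dat.push, cut_cg_loc hAB]
    · have dS := p.disc Ω _ (fun _ => 0) (cut_cg_disc dγ a') (fun _ => differentiableOn_const _)
        (fun t ht => cut_cg_bd (hγ t ht) ρ1.le) fun t ht e => by simpa using d0
      simp only [Uz_zero] at dS
      refine DifferentiableOn.fun_sum fun x hx => psi_diff hφ hΩ (Bx_disc' P0 d0 p.small dS
        (fun t ht e => (near_one (p.us (cut_cg_bd (hγ t ht) ρ1.le) e)).trans ?_)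
        (by push_cast; linarith) x) fun t ht => c3 _ (hγ t ht) x hx
      obtain ⟨s1, s2, s3⟩ := pow_small P0 d0 p.small
      nlinarith
    · simp [Dat.push, cut_cg_zero, Us_one, hφ.zero]
    · have : exF (cut a' (cg (adF (fun _ => cS g) B))) =
          gauge star (fun _ => cS g) (exF (cut a' (cg B))) := by
        rw [cut_cg_ad]
        exact funext fun e => ex_adq (uni_cS g) _
      simp only [Dat.push, this, Dat.Us_gauge h fun _ => uni_cS g, Bx_gauge fun _ => uni_cS g,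
        hφ.ad]
    · obtain ⟨U, hU⟩ := exF_real (cut_cg_real (R := a') hB)
      obtain ⟨S, hS⟩ := D.Us_real U
      rw [Dat.push, ← hU, ← hS, Complex.im_sum]
      exact sum_eq_zero fun x _ => hφ.real _ (Bx_real x S)
  refine ⟨key _ fun B hB => ?_, fun ha => key _ fun B hB => ?_, fun W hW => ?_⟩
  · refine (norm_sum_le_of_le _ fun x hx => hφ.bd _ (c3 B hB x hx)).trans_eq ?_
    rw [sum_const, nsmul_eq_mul, card_boxR]
  · have κ0 := hφ.nonneg ρ0.le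
    set A := cxL (mu D.l D.s) (cut a' (cg B))
    have k : ∀ x ∈ box D.l, ‖φ (Bx x (D.Us (exF (cut a' (cg B)))))‖ ≤ κ' / ρ ^ 2 *
        (20 * u ^ 2 + 20 * ∑ t ∈ box a, nc A (x + t)) := fun x hx => by
      have S0 : 0 ≤ ∑ t ∈ box a, nc A (x + t) := sum_nonneg fun _ _ => nc_nonneg _ _
      obtain ⟨v, v0, v2, v3, v4⟩ : ∃ v, 0 ≤ v ∧ v ≤ 2 * (ρ' / (√(LL D.l) * (D.r : ℝ) ^ 12)) ∧
          v ^ 2 ≤ ∑ t ∈ box a, nc A (x + t) ∧ Cv a v (sh x A) :=
        ⟨min _ _, le_min (by positivity) (Real.sqrt_nonneg _), min_le_left _ _,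
          (Real.le_sqrt (by positivity) S0).1 (min_le_right _ _),
          fun y hy μ ν => le_min (c2 B hB x hx y hy μ ν) (cv_nc a A x y hy μ ν)⟩
      refine (hφ.sq ρ0 (c1 B hB x v v4) (by linarith)).trans ?_
      rw [show 10 * κ' * ((u + v) / ρ) ^ 2 = κ' / ρ ^ 2 * (10 * (u + v) ^ 2) by ring]
      gcongr
      nlinarith [sq_nonneg (u - v)]
    refine (norm_sum_le_of_le _ k).trans ?_
    rw [← mul_sum, sum_add_distrib, sum_const, ← mul_sum, nsmul_eq_mul, card_boxR]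
    have r8 : (1 : ℝ) ≤ D.r ^ 8 := one_le_pow₀ (by linarith)
    have r3 : (1000 : ℝ) ^ 3 ≤ D.r ^ 3 := by gcongr
    have e1 : (LL D.l : ℝ) ^ 3 * (20 * u ^ 2) ≤ ρ ^ 2 := by
      calc _ = 20 * (LL D.l : ℝ) ^ 3 * u * u := by ring
        _ ≤ P * u * u := by
          gcongr
          linarith [b.pL, pow_nonneg (Nat.cast_nonneg (α := ℝ) (LL D.l)) 3]
        _ ≤ ρ * ρ := by gcongr; linarith
        _ = _ := by ring
    have e2 : 20 * ∑ x ∈ box D.l, ∑ t ∈ box a, nc A (x + t) ≤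
        20 * 162 * 7 ^ 3 * (D.r : ℝ) ^ 8 * ρ ^ 2 := by
      calc _ ≤ 20 * ((7 * D.r) ^ 3 * (162 * ((D.r : ℝ) ^ 5 * ρ ^ 2))) := by
            gcongr
            refine (sum_nc h (c0 B hB) (by generalize a / LL D.l = q; omega) ha).trans ?_
            rw [mul_div_assoc]
            gcongr
            linarith
        _ = _ := by ring
    refine (mul_le_mul_of_nonneg_left (add_le_add e1 e2) (by positivity)).trans ?_
    calc _ = (1 + 20 * 162 * 7 ^ 3 * (D.r : ℝ) ^ 8) * κ' := by field_simp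
      _ ≤ D.r ^ 3 * D.r ^ 8 * κ' := by gcongr; nlinarith
      _ = _ := by ring
  · obtain ⟨f1, -, -⟩ := real_fix (R := a') hW (by nlinarith)
    have f2 : Agr (fb D.l (a / LL D.l + 2)) (D.Us (exF (cut a' (cg (Bx 0 (cC W))))))
        (gauge star (fun x => cS (cmb Inv.inv W (yo D.l x))) (D.Us (cC W))) := by
      rw [← Dat.Us_gauge h fun x => uni_cS _, ← cC_gauge]
      exact Dat.Us_agr h fun e he => by
        rw [f1 e (lbox_mono (by omega) he), cg_Bx, exF, exF, agr_cut _ _ e (lbox_mono (by omega) he)]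
    refine sum_congr rfl fun x hx => ?_
    rw [← hφ.ad (cmb Inv.inv W (yo D.l x)) (Bx x (D.Us (cC W))),
      ← Bx_gauge (h := fun x => cS (cmb Inv.inv W (yo D.l x))) fun _ => uni_cS _]
    exact hφ.loc _ _ fun y hy => dd_agr (Bx_agr' f2 hx (rad_le D.l a 0)) hy

end Pool.Agent.Lib.MP_7f377f_mp.RG.D3.JS
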