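import Pool.Agent.Lib.MP_7f377f_mp.R3CmpC
import Pool.Agent.Lib.MP_7f377f_mp.P3Num

/-! The chain of the linear data of a run and the comparison of two runs. -/

noncomputable section

namespace Pool.Agent.Lib.MP_7f377f_mp.RG.D3.JC

open Finset Real Filter
open D3.Pv (LL_ll nn_succ nn_pos)

theorem lbox_le {r r' : ℕ} (h : r ≤ r') {e : Lk} (he : e ∈ lbox r) : e ∈ lbox r' :=
  mem_product.2 ⟨Li.box_mono h (mem_product.1 he).1, mem_univ _⟩

theorem rng_mono {r r' : ℕ} {m : BF} (h : Rng r r m) (hr : r ≤ r') : Rng r' r' m :=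
  fun a b hab => h a b (hab.imp (fun h e he => h e (lbox_le hr he))
    fun h e he => h e (lbox_le hr he))

theorem inv_mono {n r r' : ℕ} {cL cU cL' cU' : ℝ} {m : BF} (h : Inv n r cL cU m) (h0 : r ≤ r')
    (h1 : cL ≤ cL') (h2 : cU ≤ cU') : Inv n r' cL' cU' m :=
  { h with
    rng := rng_mono h.rng h0
    lower := fun a S => (h.lower a S).trans
      (mul_le_mul_of_nonneg_right h1 (sum_nonneg fun _ _ => h.psd _))
    upper := fun a S T hT => (h.upper a S T hT).trans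
      (mul_le_mul_of_nonneg_right (mul_le_mul_of_nonneg_right h2 (Nat.cast_nonneg _))
        (sum_nonneg fun _ _ => Li.nd_nonneg _ _)) }

theorem sm_nonneg {r : ℕ} {δ : ℝ} {a : V} (h : Sm r δ a) : 0 ≤ δ :=
  (norm_nonneg _).trans (h (0, 0) (mem_product.2 ⟨Li.zero_mem_box r, mem_univ _⟩))

theorem bd_mono {r r' : ℕ} {c c' : ℝ} {m : BF} (h : Bd r r' c m) (hc : c ≤ c') : Bd r r' c' m :=
  fun a b δ δ' ha hb => (h a b δ δ' ha hb).trans
    (mul_le_mul_of_nonneg_right (mul_le_mul_of_nonneg_right hc (sm_nonneg ha)) (sm_nonneg hb))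

theorem df_mono {r r' : ℕ} {σ σ' : ℝ} {m m' : BF} (h : Df r σ m m') (hr : r ≤ r') (hσ : σ ≤ σ') :
    Df r' σ' m m' := fun a δ ha =>
  (h a δ fun x hx => ha x (Li.box_mono hr hx)).trans
    (mul_le_mul_of_nonneg_right hσ (sq_nonneg _))

theorem cc_mono {σ σ' : ℝ} {m : BF} (h : Cc σ m) (hσ : σ ≤ σ') : Cc σ' m := fun a ha =>
  (h a ha).trans (mul_le_mul_of_nonneg_right hσ (Li.nd_nonneg _ _))

/-- the error of stationarity at level `v` for blocks of side `L` -/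
def tauq (c L v : ℕ) : ℝ := (L : ℝ) ^ c * exp (-(((v ^ 3 : ℕ) : ℝ) / c))

theorem tauq_nonneg (c L v : ℕ) : 0 ≤ tauq c L v := by unfold tauq; positivity

/-- a rapidly decreasing sequence -/
def yq (c v : ℕ) : ℝ := exp (-((v : ℝ) ^ 3 / (2 * c))) / 2 ^ v

theorem yq_pos (c v : ℕ) : 0 < yq c v := by unfold yq; positivity

theorem yq_le (c v : ℕ) : yq c v ≤ (2 ^ v)⁻¹ := by
  rw [yq, ← one_div]
  exact div_le_div_of_nonneg_right (exp_le_one_iff.2 (neg_nonpos.2 (by positivity)))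
    (by positivity)

theorem yq_succ (c v : ℕ) : 2 * yq c (v + 1) ≤ yq c v := by
  rw [yq, yq, pow_succ 2, ← mul_div_assoc, mul_comm (2 : ℝ), mul_div_mul_right _ _ two_ne_zero]
  refine div_le_div_of_nonneg_right (exp_le_exp.2 (neg_le_neg ?_)) (by positivity)
  refine div_le_div_of_nonneg_right ?_ (by positivity)
  gcongr
  omega

/-- the scale of the polynomial losses -/
def zq (v : ℕ) : ℝ := exp ((v : ℝ) ^ 2 + 1)

theorem two_le_zq (v : ℕ) : 2 ≤ zq v := by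
  have := add_one_le_exp ((v : ℝ) ^ 2 + 1)
  have := sq_nonneg (v : ℝ)
  unfold zq
  linarith

theorem pow_le_zq {a : ℝ} (a0 : 0 ≤ a) (ha : a ≤ 3) {k n v : ℕ} (h : n * 2 ≤ k * (v ^ 2 + 1)) :
    a ^ n ≤ zq v ^ k := by
  have h3 : a ≤ exp 2 := by linarith [add_one_le_exp 2]
  refine (pow_le_pow_left₀ a0 h3 n).trans ?_
  rw [zq, ← exp_nat_mul, ← exp_nat_mul, exp_le_exp]
  exact_mod_cast h

theorem le_sq (v : ℕ) : v ≤ v ^ 2 := Nat.le_self_pow two_ne_zero v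

theorem LL_le_zq (v : ℕ) : (LL (ll v) : ℝ) ≤ zq v ^ 4 := by
  rw [LL_ll]
  push_cast
  exact pow_le_zq (by norm_num) le_rfl (by have := le_sq v; omega)

theorem nn_le_zq (v : ℕ) : (nn v : ℝ) ≤ zq v ^ 3 := by
  rw [nn, pow_succ' (zq v)]
  push_cast
  exact mul_le_mul (two_le_zq v) (pow_le_zq (by norm_num) le_rfl (by omega)) (by positivity)
    (by linarith [two_le_zq v])

theorem two_pow_le_zq (v : ℕ) : (2 : ℝ) ^ v ≤ zq v ^ 2 :=
  pow_le_zq (by norm_num) (by norm_num) (by have := le_sq v; omega)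

theorem le_zq (v : ℕ) : (v : ℝ) ≤ zq v ^ 2 :=
  le_trans (by exact_mod_cast (Nat.lt_pow_self (by norm_num)).le) (two_pow_le_zq v)

theorem zq_key {c : ℕ} (hc : 1 ≤ c) (k : ℕ) : ∃ j, ∀ v ≥ j,
    zq v ^ k * exp (-((v : ℝ) ^ 3 / (2 * c))) ≤ 1 := by
  refine ⟨4 * c * k + 1, fun v hv => ?_⟩
  rw [zq, ← exp_nat_mul, ← exp_add, exp_le_one_iff, add_neg_le_iff_le_add, zero_add,
    le_div_iff₀ (by positivity)]
  have h1 : 1 ≤ v ^ 2 := Nat.one_le_pow _ _ (by omega)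
  have : k * (v ^ 2 + 1) * (2 * c) ≤ v ^ 3 := by
    calc k * (v ^ 2 + 1) * (2 * c) ≤ k * (v ^ 2 + v ^ 2) * (2 * c) := by gcongr
      _ = v ^ 2 * (4 * c * k) := by ring
      _ ≤ v ^ 2 * v := by gcongr; omega
      _ = v ^ 3 := by ring
  exact_mod_cast this

theorem tau_le {c : ℕ} (hc : 1 ≤ c) (k : ℕ) : ∃ j, ∀ v ≥ j, ∀ L : ℕ, L ≤ LL (ll v) ^ 3 →
    (L : ℝ) ^ k * tauq c L v ≤ yq c v := by
  obtain ⟨j, hj⟩ := zq_key hc (12 * (k + c) + 2)
  refine ⟨j, fun v hv L hL => ?_⟩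
  have z0 : 0 < zq v := by linarith [two_le_zq v]
  have h1 : (L : ℝ) ≤ (zq v ^ 4) ^ 3 := (Nat.cast_le.2 hL).trans (by
    rw [Nat.cast_pow]
    exact pow_le_pow_left₀ (by positivity) (LL_le_zq v) _)
  have h2 : (L : ℝ) ^ (k + c) * 2 ^ v ≤ zq v ^ (12 * (k + c) + 2) := by
    rw [pow_add (zq v), pow_mul]
    exact mul_le_mul (pow_le_pow_left₀ (by positivity) (h1.trans_eq (by ring)) _) (two_pow_le_zq v)
      (by positivity) (by positivity)
  have h3 : exp (-(((v ^ 3 : ℕ) : ℝ) / c)) =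
      exp (-((v : ℝ) ^ 3 / (2 * c))) * exp (-((v : ℝ) ^ 3 / (2 * c))) := by
    rw [← exp_add]
    congr 1
    push_cast
    field_simp
    ring
  rw [yq, tauq, h3, le_div_iff₀ (by positivity)]
  have h4 := (mul_le_mul_of_nonneg_right h2 (exp_pos _).le).trans (hj v hv)
  have h5 := mul_le_mul_of_nonneg_right h4 (exp_pos (-((v : ℝ) ^ 3 / (2 * c)))).le
  rw [pow_add] at h5
  linarith

theorem yq_small {c : ℕ} (hc : 1 ≤ c) (k q : ℕ) : ∃ j, ∀ v ≥ j,
    ((v ^ 3 : ℕ) : ℝ) ^ k * yq c v ≤ ((nn v : ℝ) ^ q)⁻¹ / 16 := by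
  obtain ⟨j, hj⟩ := zq_key hc (6 * k + 3 * q + 4)
  refine ⟨j, fun v hv => ?_⟩
  have z2 := two_le_zq v
  have n0 : (0 : ℝ) < nn v := by exact_mod_cast nn_pos v
  have h1 : ((v ^ 3 : ℕ) : ℝ) ^ k ≤ zq v ^ (6 * k) := by
    rw [pow_mul, Nat.cast_pow]
    exact pow_le_pow_left₀ (by positivity)
      ((pow_le_pow_left₀ (by positivity) (le_zq v) 3).trans_eq (by ring)) _
  have h2 : (nn v : ℝ) ^ q ≤ zq v ^ (3 * q) := by
    rw [pow_mul]
    exact pow_le_pow_left₀ n0.le (nn_le_zq v) _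
  have h3 : (16 : ℝ) ≤ zq v ^ 4 := le_trans (by norm_num) (pow_le_pow_left₀ zero_le_two z2 4)
  have h4 : yq c v ≤ exp (-((v : ℝ) ^ 3 / (2 * c))) :=
    div_le_self (exp_pos _).le (one_le_pow₀ one_le_two)
  rw [le_div_iff₀ (by norm_num), ← one_div, le_div_iff₀ (by positivity)]
  refine le_trans ?_ (hj v hv)
  rw [pow_add, pow_add]
  calc _ = ((v ^ 3 : ℕ) : ℝ) ^ k * (nn v : ℝ) ^ q * 16 * yq c v := by ring
    _ ≤ _ := by have := yq_pos c v; gcongr

theorem pow_le_ll (k : ℕ) : ∃ j, ∀ v ≥ j, (3 * v ^ 3) ^ k ≤ ll v := by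
  obtain ⟨j, hj⟩ := eventually_atTop.1 ((tendsto_pow_const_div_const_pow_of_one_lt (4 * k)
    (show (1 : ℝ) < 2 by norm_num)).eventually_le_const one_pos)
  refine ⟨j + 3, fun v hv => ?_⟩
  have h1 : v ^ (4 * k) ≤ 2 ^ v := by
    have := (div_le_one (by positivity)).1 (hj v (by omega))
    exact_mod_cast this
  have h2 : 2 ^ v ≤ 3 ^ (2 * v) := (Nat.pow_le_pow_left (by norm_num) v).trans
    (Nat.pow_le_pow_right (by norm_num) (by omega))
  have h3 : (3 * v ^ 3) ^ k ≤ v ^ (4 * k) := by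
    rw [pow_mul, pow_succ' v 3]
    gcongr
    omega
  have h4 := LL_ll v
  rw [LL, pow_succ] at h4
  omega

theorem cube_succ {v : ℕ} (h : 3 ≤ v) : (v + 1) ^ 3 ≤ 3 * v ^ 3 := by
  obtain ⟨w, rfl⟩ := Nat.exists_eq_add_of_le h
  ring_nf
  omega

theorem lq_bd {J l i v : ℕ} (h : Adm J l) (hv : v + i = J) :
    LL (ll v) ≤ LL (lq J l i) ∧ LL (lq J l i) ≤ LL (ll v) ^ 3 := by
  unfold lq
  split_ifs with h0
  · obtain rfl : v = J := by omega
    exact h
  · rw [show J - i = v by omega]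
    exact ⟨le_rfl, Nat.le_self_pow (by norm_num) _⟩

/-- the linear data of all runs -/
theorem lin_chain : ∃ c : ℕ, 1 ≤ c ∧ ∃ (M : ℕ → ℕ → ℕ → BF) (S : ℕ → ℕ → ℕ → V →ₗ[ℝ] V) (j0 : ℕ),
    (∀ J l, Adm J l → M J l 0 = m0 ∧ ∀ i v, j0 ≤ v → v + i = J →
      Lin (lq J l i) (v ^ 3) c (tauq c (LL (lq J l i)) v) (M J l i) (S J l i) ∧
      M J l (i + 1) = mr (lq J l i) (M J l i) (S J l i) ∧
      (∃ n, Inv n (3 * v ^ 3) 3 1 (M J l i)) ∧
      Bd (3 * v ^ 3) (3 * v ^ 3) ((LL (lq J l i) : ℝ) ^ c) (M J l i) ∧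
      ∃ n, Inv n (v ^ 3) 3 1 (M J l (i + 1))) ∧
    ∀ q : ℕ, ∃ j1, ∀ v ≥ j1, ∃ J0, ∀ J l J' l', J0 ≤ J → J0 ≤ J' → Adm J l → Adm J' l' →
      Df (v ^ 3) (((nn v : ℝ) ^ q)⁻¹) (M J l (J + 1 - v)) (M J' l' (J' + 1 - v)) := by
  obtain ⟨c, c1, hm⟩ := lin_main
  choose! s hs1 hs2 using hm
  obtain ⟨cb, hb⟩ := inv_bd
  obtain ⟨cc, hcc⟩ := lin_cc c
  obtain ⟨ca, hca⟩ := df_apriori
  obtain ⟨cd, hcd⟩ := lin_df c
  obtain ⟨X, X0, XS⟩ : ∃ X : ℕ → ℕ → ℕ → ℕ × ℝ × ℝ × BF, (∀ J l, X J l 0 = (0, 2, 2⁻¹, m0)) ∧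
      ∀ J l i, X J l (i + 1) = (2 * (X J l i).1 * lq J l i + (X J l i).1 + lq J l i,
        (X J l i).2.1 * (1 + 1 / LL (lq J l i)),
        (X J l i).2.2.1 + tauq c (LL (lq J l i)) (J - i),
        mr (lq J l i) (X J l i).2.2.2 (s (lq J l i) ((J - i) ^ 3) (X J l i).1 (X J l i).2.1
          (X J l i).2.2.1 (X J l i).2.2.2)) :=
    ⟨fun J l => Nat.rec (0, 2, 2⁻¹, m0) fun i x => (2 * x.1 * lq J l i + x.1 + lq J l i,
      x.2.1 * (1 + 1 / LL (lq J l i)), x.2.2.1 + tauq c (LL (lq J l i)) (J - i),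
      mr (lq J l i) x.2.2.2 (s (lq J l i) ((J - i) ^ 3) x.1 x.2.1 x.2.2.1 x.2.2.2)),
      fun _ _ => rfl, fun _ _ _ => rfl⟩
  obtain ⟨a1, ha1⟩ := tau_le c1 (cc + cd)
  obtain ⟨a2, ha2⟩ := pow_le_ll (c + cb + cd + 1)
  obtain ⟨a3, ha3⟩ := yq_small c1 cd 0
  set j0 := a1 + a2 + a3 + c + cb + cc + ca + cd + 3 with hj0
  have num : ∀ v, j0 ≤ v → ∀ l, LL (ll v) ≤ LL l → LL l ≤ LL (ll v) ^ 3 →
      (∀ k ≤ cc + cd, (LL l : ℝ) ^ k * tauq c (LL l) v ≤ yq c v) ∧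
      (∀ k ≤ c + cb + cd + 1, (3 * v ^ 3) ^ k ≤ l) ∧ j0 ≤ v ^ 3 := fun v hv l h1 h2 => by
    have h3 := Nat.le_self_pow (show 3 ≠ 0 by norm_num) v
    refine ⟨fun k hk => le_trans (mul_le_mul_of_nonneg_right (pow_le_pow_right₀ ?_ hk)
      (tauq_nonneg _ _ _)) (ha1 v (by omega) _ h2), fun k hk =>
        (Nat.pow_le_pow_right (by omega) hk).trans ((ha2 v (by omega)).trans ?_), by omega⟩
    · exact_mod_cast (show 1 ≤ LL l by unfold LL; omega)
    · unfold LL at h1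
      omega
  let P : ℕ → ℕ × ℝ × ℝ × BF → Prop := fun w x => Inv x.1 (w ^ 3) x.2.1 x.2.2.1 x.2.2.2 ∧
    1 ≤ x.2.1 ∧ x.2.1 ≤ 2 + 4 / LL (ll w) ∧ x.2.2.1 ≤ 2⁻¹ + 2 * yq c w ∧ Cc (2 * yq c w) x.2.2.2
  have Pb : ∀ w x, 3 ≤ w → P w x → x.2.1 ≤ 3 ∧ x.2.2.1 ≤ 1 := fun w x hw h => by
    have h1 : (4 : ℝ) / LL (ll w) ≤ 1 := by
      have := Pv.LL_succ (w - 1)
      rw [show w - 1 + 1 = w by omega] at this
      have h2 : 4 ≤ LL (ll w) := by rw [this]; unfold LL; omega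
      exact (div_le_one (by exact_mod_cast (show 0 < _ by omega))).2 (by exact_mod_cast h2)
    have h2 : ((2 : ℝ) ^ w)⁻¹ ≤ (2 ^ 3)⁻¹ := inv_anti₀ (by norm_num)
      (pow_le_pow_right₀ one_le_two hw)
    have := yq_le c w
    constructor <;> linarith [h.2.2.1, h.2.2.2.1]
  have one : ∀ J l, Adm J l → ∀ i v, j0 ≤ v → v + i = J → P (v + 1) (X J l i) →
      Lin (lq J l i) (v ^ 3) c (tauq c (LL (lq J l i)) v) (X J l i).2.2.2
        (s (lq J l i) ((J - i) ^ 3) (X J l i).1 (X J l i).2.1 (X J l i).2.2.1 (X J l i).2.2.2) ∧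
      P v (X J l (i + 1)) := fun J l hA i v hv hJ h => by
    obtain ⟨b1, b2⟩ := lq_bd hA hJ
    obtain ⟨n1, n2, n3⟩ := num v hv _ b1 b2
    obtain ⟨p1, p2⟩ := Pb _ _ (by omega) h
    obtain ⟨q1, q2, q3, q4, q5⟩ := h
    have t1 : tauq c (LL (lq J l i)) v ≤ yq c v := by simpa using n1 0 (by omega)
    have t2 : yq c v ≤ 1 := (yq_le c v).trans (inv_le_one_of_one_le₀ (one_le_pow₀ one_le_two))
    have q6 := inv_mono q1 (cube_succ (by omega)) le_rfl le_rfl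
    have r1 : (v ^ 3) ^ c ≤ lq J l i :=
      (Nat.pow_le_pow_left (by omega) _).trans (n2 c (by omega))
    have hl := hs1 _ _ _ _ _ _ (by omega) r1 (t1.trans t2) q2 (by linarith) (by linarith) q6
    have hi := hs2 _ _ _ _ _ _ (by omega) r1 (t1.trans t2) q2 (by linarith) (by linarith) q6
    have hc := hcc _ _ _ _ _ _ _ _ _ (by omega) (by simpa using n2 1 (by omega))
      (tauq_nonneg _ _ _) (t1.trans t2) q6 hl q5
    have y1 := yq_succ c v
    have L0 : (0 : ℝ) < LL (ll v) := by exact_mod_cast (show 0 < _ by unfold LL; omega)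
    have L1 : (1 : ℝ) / LL (lq J l i) ≤ 1 / LL (ll v) :=
      one_div_le_one_div_of_le L0 (by exact_mod_cast b1)
    have L2 : (0 : ℝ) ≤ 1 / LL (lq J l i) := by positivity
    rw [XS, show J - i = v by omega]
    refine ⟨hl, hi, ?_, ?_, ?_, cc_mono hc ?_⟩
    · exact q2.trans (le_mul_of_one_le_right (by linarith) (by linarith))
    · rw [Pv.LL_succ, Nat.cast_mul, show (4 : ℝ) / ((9 : ℕ) * LL (ll v)) =
        4 / 9 * (1 / LL (ll v)) by push_cast; field_simp] at q3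
      have := mul_le_mul p1 L1 L2 (by norm_num)
      have : (0 : ℝ) ≤ 1 / LL (ll v) := by positivity
      show _ * _ ≤ _
      rw [show (4 : ℝ) / LL (ll v) = 4 * (1 / LL (ll v)) by ring]
      linarith
    · show _ + _ ≤ _
      linarith
    · linarith [n1 cc (by omega)]
  have all : ∀ J l, Adm J l → ∀ i w, j0 ≤ w → w + i = J + 1 → P w (X J l i) := fun J l hA i => by
    induction i with
    | zero =>
      intro w hw _
      have := yq_pos c w
      rw [X0]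
      exact ⟨inv_zero _ (Nat.one_le_pow _ _ (by omega)), one_le_two,
        le_add_of_nonneg_right (by positivity), le_add_of_nonneg_right (by positivity),
        fun a _ => by
          rw [sub_self, abs_zero]
          exact mul_nonneg (by positivity) (Li.nd_nonneg _ _)⟩
    | succ i ih =>
      exact fun w hw hJ => (one J l hA i w hw (by omega) (ih _ (by omega) (by omega))).2
  have inv : ∀ J l, Adm J l → ∀ i w, j0 ≤ w → w + i = J + 1 →
      Inv (X J l i).1 (w ^ 3) 3 1 (X J l i).2.2.2 := fun J l hA i w hw hJ =>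
    inv_mono (all J l hA i w hw hJ).1 le_rfl (Pb _ _ (by omega) (all J l hA i w hw hJ)).1
      (Pb _ _ (by omega) (all J l hA i w hw hJ)).2
  refine ⟨c, c1, fun J l i => (X J l i).2.2.2, fun J l i => s (lq J l i) ((J - i) ^ 3) (X J l i).1
    (X J l i).2.1 (X J l i).2.2.1 (X J l i).2.2.2, j0, fun J l hA => ⟨by simp only [X0],
      fun i v hv hJ => ?_⟩, fun q => ?_⟩
  · obtain ⟨b1, b2⟩ := lq_bd hA hJ
    obtain ⟨n1, n2, n3⟩ := num v hv _ b1 b2
    have h1 := inv_mono (inv J l hA i (v + 1) (by omega) (by omega)) (cube_succ (by omega))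
      le_rfl le_rfl
    refine ⟨(one J l hA i v hv hJ (all J l hA i _ (by omega) (by omega))).1, by simp only [XS],
      ⟨_, h1⟩, bd_mono (hb _ _ _ _ _ (by omega) (by norm_num) h1) ?_,
      _, inv J l hA (i + 1) v hv (by omega)⟩
    have := (n2 cb (by omega)).trans ((show lq J l i ≤ LL (lq J l i) by unfold LL; omega).trans
      (Nat.le_self_pow (by omega : c ≠ 0) _))
    exact_mod_cast this
  obtain ⟨a4, ha4⟩ := yq_small c1 cd q
  refine ⟨j0 + a4, fun v hv => ?_⟩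
  have n0 : ∀ w, (0 : ℝ) < (nn w : ℝ) ^ q := fun w => pow_pos (by exact_mod_cast nn_pos w) _
  obtain ⟨J0, hJ0⟩ := eventually_atTop.1 ((tendsto_pow_const_div_const_pow_of_one_lt (3 * ca)
    (show (1 : ℝ) < 2 by norm_num)).eventually_le_const
      (show 0 < ((nn v : ℝ) ^ q)⁻¹ / 2 / 2 ^ v by have := n0 v; positivity))
  refine ⟨J0 + v, fun J l J' l' hJ hJ' hA hA' => ?_⟩
  obtain ⟨K, K1, K2, K3⟩ : ∃ K, K ≤ J ∧ K ≤ J' ∧ J0 + v ≤ K := ⟨min J J', by omega⟩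
  have key : ∀ k w, w + k = K → j0 + a4 ≤ w → Df (w ^ 3)
      (((nn w : ℝ) ^ q)⁻¹ / 2 + (K : ℝ) ^ (3 * ca) / 2 ^ k) (X J l (J + 1 - w)).2.2.2
      (X J' l' (J' + 1 - w)).2.2.2 := by
    intro k
    induction k with
    | zero =>
      intro w hw h0
      obtain rfl : w = K := hw
      have := Nat.le_self_pow (show 3 ≠ 0 by norm_num) w
      refine df_mono (hca _ _ _ _ _ _ _ _ _ (by omega) (by norm_num) (by norm_num)
        (inv J l hA _ w (by omega) (by omega)) (inv J' l' hA' _ w (by omega) (by omega))) le_rfl ?_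
      have := n0 w
      rw [pow_zero, div_one, pow_mul, Nat.cast_pow]
      exact le_add_of_nonneg_left (by positivity)
    | succ k ih =>
      intro w hw h0
      have hd := df_mono (ih (w + 1) (by omega) (by omega)) (cube_succ (by omega)) le_rfl
      have e : ∀ J l, K ≤ J → lq J l (J - w) = ll w := fun J l h => by
        rw [lq, if_neg (by omega), show J - (J - w) = w by omega]
      obtain ⟨n1, n2, n3⟩ := num w (by omega) (ll w) le_rfl (Nat.le_self_pow (by norm_num) _)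
      have t2 : yq c w ≤ 1 := (yq_le c w).trans (inv_le_one_of_one_le₀ (one_le_pow₀ one_le_two))
      have y1 := yq_succ c w
      have y0 := yq_pos c (w + 1)
      have y2 := mul_le_mul_of_nonneg_left y1 (show 0 ≤ ((w ^ 3 : ℕ) : ℝ) ^ cd by positivity)
      have y3 : yq c w ≤ ((w ^ 3 : ℕ) : ℝ) ^ cd * yq c w := le_mul_of_one_le_left (yq_pos _ _).le
        (one_le_pow₀ (by exact_mod_cast (show 1 ≤ w ^ 3 by omega)))
      have y4 := ha3 w (by omega)
      have y5 := ha4 w (by omega)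
      have y6 : ((nn (w + 1) : ℝ) ^ q)⁻¹ ≤ ((nn w : ℝ) ^ q)⁻¹ := inv_anti₀ (n0 w)
        (pow_le_pow_left₀ (by positivity) (by
          rw [nn_succ]
          exact_mod_cast Nat.le_mul_of_pos_left _ (by unfold LL; omega)) _)
      have dat : ∀ J l, K ≤ J → Adm J l → ∃ n n1 s, Inv n (3 * w ^ 3) 20 20
          (X J l (J + 1 - (w + 1))).2.2.2 ∧
          Lin (ll w) (w ^ 3) c (tauq c (LL (ll w)) w) (X J l (J + 1 - (w + 1))).2.2.2 s ∧
          Cc (2 * yq c (w + 1)) (X J l (J + 1 - (w + 1))).2.2.2 ∧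
          Inv n1 (w ^ 3) 20 20 (X J l (J + 1 - w)).2.2.2 ∧
          (X J l (J + 1 - w)).2.2.2 = mr (ll w) (X J l (J + 1 - (w + 1))).2.2.2 s :=
        fun J l h hA => by
          have h1 := all J l hA (J - w) (w + 1) (by omega) (by omega)
          have h2 := (one J l hA (J - w) w (by omega) (by omega) h1).1
          rw [show J + 1 - (w + 1) = J - w by omega]
          rw [e J l h] at h2
          refine ⟨_, _, _, inv_mono (inv J l hA (J - w) (w + 1) (by omega) (by omega))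
            (cube_succ (by omega)) (by norm_num) (by norm_num), h2, h1.2.2.2.2,
            inv_mono (inv J l hA _ w (by omega) (by omega)) le_rfl (by norm_num) (by norm_num), ?_⟩
          rw [show J + 1 - w = J - w + 1 by omega, XS, e J l h]
      obtain ⟨_, _, s1, d1, d2, d3, d4, d5⟩ := dat J l K1 hA
      obtain ⟨_, _, s2, f1, f2, f3, f4, f5⟩ := dat J' l' K2 hA'
      rw [d5] at d4 ⊢
      rw [f5] at f4 ⊢
      refine df_mono (hcd _ _ _ _ _ _ _ _ _ _ _ _ _ (by omega)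
        ((Nat.pow_le_pow_left (by omega) _).trans (n2 cd (by omega))) (tauq_nonneg _ _ _)
        (by positivity) ((n1 cd (by omega)).trans t2) ?_ d1 f1 d2 f2 d4 f4 d3 f3 hd) le_rfl ?_
      · rw [pow_zero, inv_one] at y4
        linarith
      · rw [pow_succ (2 : ℝ), ← div_div]
        linarith [n1 cd (by omega)]
  refine df_mono (key (K - v) v (by omega) hv) le_rfl ?_
  have h1 := hJ0 K (by omega)
  rw [show (2 : ℝ) ^ K = 2 ^ (K - v) * 2 ^ v by rw [← pow_add]; congr 1; omega, ← div_div,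
    div_le_div_iff_of_pos_right (by positivity)] at h1
  linarith

end Pool.Agent.Lib.MP_7f377f_mp.RG.D3.JC
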