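import Pool.Agent.Lib.MP_7f377f_mp.R3Defs
import Pool.Agent.Lib.MP_7f377f_mp.RGHol3

/-! Holomorphic local terms in three dimensions. -/

noncomputable section

namespace Pool.Agent.Lib.MP_7f377f_mp.RG.D3

open Finset MeasureTheory
open scoped Quaternion ENNReal Pointwise

namespace Ho

variable {W : Type} [NormedAddCommGroup W]

theorem zero_box (r : ℕ) : (0 : St) ∈ box r := by simp [box]

theorem box_sub {r r' : ℕ} (h : r ≤ r') {x : St} (hx : x ∈ box r) : x ∈ box r' := by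
  simp only [box, Fintype.mem_piFinset, mem_Icc] at hx ⊢
  exact fun i => ⟨by linarith [(hx i).1, Int.ofNat_le.2 h], by linarith [(hx i).2, Int.ofNat_le.2 h]⟩

theorem dd_add {W : Type} [AddCommGroup W] (a b : Lk → W) (x : St) (μ ν : Fin 3) :
    dd (a + b) x μ ν = dd a x μ ν + dd b x μ ν := by
  simp only [dd, Pi.add_apply]; abel

theorem dd_sub {W : Type} [AddCommGroup W] (a b : Lk → W) (x : St) (μ ν : Fin 3) :
    dd (a - b) x μ ν = dd a x μ ν - dd b x μ ν := by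
  simp only [dd, Pi.sub_apply]; abel

theorem dd_smul (c : ℂ) (a : Fld) (x : St) (μ ν : Fin 3) :
    dd (c • a) x μ ν = c • dd a x μ ν := by
  simp only [dd, Pi.smul_apply, smul_add, smul_sub]

theorem dd_zero {W : Type} [AddCommGroup W] (x : St) (μ ν : Fin 3) :
    dd (0 : Lk → W) x μ ν = 0 := by simp [dd]

theorem cv_nonneg {R : ℕ} {δ : ℝ} {a : Lk → W} (h : Cv R δ a) : 0 ≤ δ :=
  (norm_nonneg _).trans (h 0 (zero_box R) 0 0)

theorem cv_mono {R R' : ℕ} {δ δ' : ℝ} {a : Lk → W} (h : Cv R' δ a) (hR : R ≤ R') (hδ : δ ≤ δ') :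
    Cv R δ' a := fun x hx μ ν => (h x (box_sub hR hx) μ ν).trans hδ

theorem cv_add {R : ℕ} {δ δ' : ℝ} {a b : Lk → W} (h : Cv R δ a) (h' : Cv R δ' b) :
    Cv R (δ + δ') (a + b) := fun x hx μ ν => by
  rw [dd_add]
  exact (norm_add_le _ _).trans (add_le_add (h x hx μ ν) (h' x hx μ ν))

theorem cv_smul {R : ℕ} {δ : ℝ} {a : Fld} (c : ℂ) (h : Cv R δ a) : Cv R (‖c‖ * δ) (c • a) :=
  fun x hx μ ν => by
    rw [dd_smul, norm_smul]
    exact mul_le_mul_of_nonneg_left (h x hx μ ν) (norm_nonneg _)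

theorem cv_zero (R : ℕ) {δ : ℝ} (h : 0 ≤ δ) : Cv R δ (0 : Lk → W) := fun x _ μ ν => by
  rw [dd_zero, norm_zero]; exact h

theorem cv_exists (R : ℕ) (a : Lk → W) : ∃ δ, Cv R δ a :=
  ⟨∑ x ∈ box R, ∑ μ, ∑ ν, ‖dd a x μ ν‖, fun x hx μ ν =>
    ((single_le_sum (f := fun ν => ‖dd a x μ ν‖) (fun _ _ => norm_nonneg _) (mem_univ ν)).trans
      (single_le_sum (f := fun μ => ∑ ν, ‖dd a x μ ν‖)
        (fun _ _ => sum_nonneg fun _ _ => norm_nonneg _) (mem_univ μ))).trans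
      (single_le_sum (f := fun x => ∑ μ, ∑ ν, ‖dd a x μ ν‖)
        (fun _ _ => sum_nonneg fun _ _ => sum_nonneg fun _ _ => norm_nonneg _) hx)⟩

/-- the balls of the curvature seminorm -/
def dom (R : ℕ) (ρ : ℝ) (hρ : 0 < ρ) : Kit.Dom Fld where
  D θ := {B | Cv R (θ * ρ) B}
  smul c θ B h := by simpa only [Set.mem_ofPred_eq, mul_assoc] using cv_smul c h
  add h h' := by simpa only [Set.mem_ofPred_eq, add_mul] using cv_add h h'
  mono h hB := cv_mono hB le_rfl (mul_le_mul_of_nonneg_right h hρ.le)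

theorem mem_dom {R : ℕ} {ρ δ : ℝ} (hρ : 0 < ρ) {B : Fld} (h : Cv R δ B) :
    B ∈ (dom R ρ hρ).D (δ / ρ) := by
  show Cv R (δ / ρ * ρ) B
  rwa [div_mul_cancel₀ _ hρ.ne']

theorem mem_dom_one {R : ℕ} {ρ : ℝ} {hρ : 0 < ρ} {B : Fld} :
    B ∈ (dom R ρ hρ).D 1 ↔ Cv R ρ B := by
  show Cv R (1 * ρ) B ↔ _
  rw [one_mul]

theorem disc_line (Ω : Set ℂ) (B δ : Fld) : Disc Ω fun t => B + t • δ := fun e => by
  simp only [Pi.add_apply, Pi.smul_apply]
  fun_prop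

theorem lh {R : ℕ} {ρ κ : ℝ} {φ : Fld → ℂ} (h : Tm R ρ κ φ) (hρ : 0 < ρ) : (dom R ρ hρ).LH φ :=
  fun B δ S hS hD => h.hol S _ hS (disc_line S B δ) fun t ht => mem_dom_one.1 (hD t ht)

theorem bd_dom {R : ℕ} {ρ κ : ℝ} {φ : Fld → ℂ} (h : Tm R ρ κ φ) (hρ : 0 < ρ) :
    ∀ B ∈ (dom R ρ hρ).D 1, ‖φ B‖ ≤ κ := fun B hB => h.bd B (mem_dom_one.1 hB)

end Ho

open D3.Ho

theorem Tm.nonneg {R : ℕ} {ρ κ : ℝ} {φ : Fld → ℂ} (h : Tm R ρ κ φ) (hρ : 0 ≤ ρ) : 0 ≤ κ :=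
  (norm_nonneg _).trans (h.bd 0 (cv_zero R hρ))

theorem Tm.mono {R R' : ℕ} {ρ κ κ' : ℝ} {φ : Fld → ℂ} (h : Tm R ρ κ φ) (hR : R ≤ R')
    (hκ : κ ≤ κ') : Tm R' ρ κ' φ where
  loc A B e := h.loc A B fun x hx => e x (box_sub hR hx)
  hol Ω γ hΩ hγ hc := h.hol Ω γ hΩ hγ fun t ht => cv_mono (hc t ht) hR le_rfl
  bd B hB := (h.bd B (cv_mono hB hR le_rfl)).trans hκ
  zero := h.zero
  ad := h.ad
  real := h.real

theorem Tm.add {R : ℕ} {ρ κ κ' : ℝ} {φ φ' : Fld → ℂ} (h : Tm R ρ κ φ) (h' : Tm R ρ κ' φ') :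
    Tm R ρ (κ + κ') (φ + φ') where
  loc A B e := by simp only [Pi.add_apply, h.loc A B e, h'.loc A B e]
  hol Ω γ hΩ hγ hc := (h.hol Ω γ hΩ hγ hc).add (h'.hol Ω γ hΩ hγ hc)
  bd B hB := (norm_add_le _ _).trans (add_le_add (h.bd B hB) (h'.bd B hB))
  zero := by simp [h.zero, h'.zero]
  ad g B := by simp only [Pi.add_apply, h.ad, h'.ad]
  real B hB := by simp [h.real B hB, h'.real B hB]

theorem Tm.lip {R : ℕ} {ρ κ δ : ℝ} {φ : Fld → ℂ} (h : Tm R ρ κ φ) (hρ : 0 < ρ) {A B : Fld}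
    (hA : Cv R (ρ / 2) A) (hB : Cv R δ (B - A)) (hδ : δ ≤ ρ / 4) :
    ‖φ B - φ A‖ ≤ 8 * κ * δ / ρ := by
  have κ0 := h.nonneg hρ.le
  rcases (cv_nonneg hB).eq_or_lt with rfl | δ0
  · rw [h.loc B A fun x hx μ ν => by
      have := hB x hx μ ν
      rwa [dd_sub, norm_le_zero_iff, sub_eq_zero] at this]
    simp
  have h1 : δ / ρ ≤ 1 / 4 := by rw [div_le_iff₀ hρ]; linarith
  have h2 : ρ / 2 / ρ = 1 / 2 := by field_simp
  have := (lh h hρ).lip (bd_dom h hρ) (mem_dom hρ hA) (mem_dom hρ hB) (by positivity)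
    (by linarith)
  rw [add_sub_cancel, h2] at this
  refine this.trans ?_
  have h3 : 0 ≤ κ * (δ / ρ) := by positivity
  rw [mul_div_assoc (8 * κ), div_le_iff₀ (by norm_num)]
  linarith

theorem Tm.continuousOn {R : ℕ} {ρ κ : ℝ} {φ : Fld → ℂ} (h : Tm R ρ κ φ) (hρ : 0 < ρ) :
    ContinuousOn φ {A | Cv R (ρ / 2) A} := by
  intro A hA
  have κ0 := h.nonneg hρ.le
  refine ContinuousAt.continuousWithinAt (Metric.continuousAt_iff'.2 fun ε hε => ?_)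
  set δ := min (ρ / 4) (ε * ρ / (16 * κ + 1)) with hδ
  have δ0 : 0 < δ := by positivity
  have : ∀ᶠ B in nhds A, Cv R δ (B - A) := by
    simp only [Cv, Filter.eventually_all_finset, Filter.eventually_all]
    intro x _ μ ν
    have c : Continuous fun B : Fld => ‖dd (B - A) x μ ν‖ := by
      simp only [dd, Pi.sub_apply]; fun_prop
    exact (c.continuousAt.eventually_lt continuousAt_const (by simpa [dd_zero] using δ0)).mono
      fun B hB => hB.le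
  filter_upwards [this] with B hB
  rw [dist_eq_norm]
  refine (h.lip hρ hA hB (min_le_left _ _)).trans_lt ?_
  have h3 := (le_div_iff₀ (by positivity)).1 (min_le_right (ρ / 4) (ε * ρ / (16 * κ + 1)))
  rw [div_lt_iff₀ hρ]
  nlinarith

theorem Tm.measurable {R : ℕ} {ρ κ : ℝ} {φ : Fld → ℂ} (h : Tm R ρ κ φ) (hρ : 0 < ρ) {Z : Type}
    [MeasurableSpace Z] {γ : Z → Fld} (hγ : Measurable γ) (hb : ∀ z, Cv R (ρ / 2) (γ z)) :
    Measurable fun z => φ (γ z) :=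
  (continuousOn_iff_continuous_domRestrict.1 (h.continuousOn hρ)).measurable.comp
    (hγ.subtype_mk (h := hb))

theorem Tm.sub {R : ℕ} {ρ κ κ' : ℝ} {φ φ' : Fld → ℂ} (h : Tm R ρ κ φ) (h' : Tm R ρ κ' φ') :
    Tm R ρ (κ + κ') (φ - φ') where
  loc A B e := by simp only [Pi.sub_apply, h.loc A B e, h'.loc A B e]
  hol Ω γ hΩ hγ hc := (h.hol Ω γ hΩ hγ hc).sub (h'.hol Ω γ hΩ hγ hc)
  bd B hB := (norm_sub_le _ _).trans (add_le_add (h.bd B hB) (h'.bd B hB))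
  zero := by simp [h.zero, h'.zero]
  ad g B := by simp only [Pi.sub_apply, h.ad, h'.ad]
  real B hB := by simp [h.real B hB, h'.real B hB]

namespace Ho

open RG.Ho (qu adq_qu)

theorem adF_add (h : St → Hc) (A B : Fld) : adF h (A + B) = adF h A + adF h B := by
  funext e; simp [adF, adq_add]

theorem adF_smul (h : St → Hc) (c : ℂ) (A : Fld) : adF h (c • A) = c • adF h A := by
  funext e; simp [adF, adq_smul]

theorem sum_ad (B : Fld) : B + adF (fun _ => cS (qu 0)) B +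
    (adF (fun _ => cS (qu 1)) B + adF (fun _ => cS (qu 2)) B) = 0 := by
  funext e; refine c3_ext ?_ ?_ ?_ <;> simp [adF, adq_qu]

variable {R : ℕ} {ρ κ : ℝ} {φ : Fld → ℂ}

theorem hall (hρ : 0 < ρ) (B : Fld) : ∃ θ, B ∈ (dom R ρ hρ).D θ :=
  let ⟨_, h⟩ := cv_exists R B; ⟨_, mem_dom hρ h⟩

theorem lin_zero (h : Tm R ρ κ φ) (hρ : 0 < ρ) (B : Fld) :
    deriv (fun t : ℂ => φ (t • B)) 0 = 0 := by
  obtain ⟨a, a0, h0, h1⟩ := Kit.Dom.common (hall (R := R) hρ) B (adF (fun _ => cS (qu 0)) B)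
  obtain ⟨b, b0, h2, h3⟩ := Kit.Dom.common (hall (R := R) hρ) (adF (fun _ => cS (qu 1)) B)
    (adF (fun _ => cS (qu 2)) B)
  have m := fun B => (dom R ρ hρ).mono (θ := a) (θ' := a + b) (B := B) (by linarith)
  have m' := fun B => (dom R ρ hρ).mono (θ := b) (θ' := a + b) (B := B) (by linarith)
  exact (lh h hρ).deriv_zero (bd_dom h hρ) (m _ h0) (m _ h1) (m' _ h2) (m' _ h3)
    (fun t => by rw [← adF_smul, h.ad]) (fun t => by rw [← adF_smul, h.ad])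
    (fun t => by rw [← adF_smul, h.ad]) (sum_ad B) (Kit.Dom.zero h0 le_rfl)

theorem cv_smul' {δ : ℝ} {a : V} (c : ℝ) (h : Cv R δ a) : Cv R (|c| * δ) (c • a) :=
  fun x hx μ ν => by
    rw [show dd (c • a) x μ ν = c • dd a x μ ν by
      simp only [dd, Pi.smul_apply, smul_add, smul_sub], norm_smul]
    exact mul_le_mul_of_nonneg_left (h x hx μ ν) (norm_nonneg _)

/-- polarisation -/
theorem bil {k : BF} {σ δ δ' : ℝ} (hs : ∀ a b, k a b = k b a)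
    (h : ∀ a δ, Cv R δ a → |k a a| ≤ σ * δ ^ 2) {a b : V} (ha : Cv R δ a) (hb : Cv R δ' b) :
    |k a b| ≤ 2 * σ * δ * δ' := by
  have h1 : ∀ (a b : V) δ, Cv R δ a → Cv R δ b → |k a b| ≤ 2 * σ * δ ^ 2 := fun a b δ ha hb => by
    have k1 := abs_le.1 (h _ _ (cv_add ha hb))
    have k2 := abs_le.1 (h _ _ (cv_add ha (cv_smul' (-1) hb)))
    simp only [map_add, map_smul, LinearMap.add_apply, LinearMap.smul_apply, smul_eq_mul, hs b a,
      abs_neg, abs_one, one_mul] at k1 k2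
    rw [abs_le]
    constructor <;> linarith [k1.1, k1.2, k2.1, k2.2]
  have d0 := cv_nonneg ha
  have d1 := cv_nonneg hb
  have h2 : ∀ ε, 0 < ε → |k a b| ≤ 2 * σ * (δ + ε) * (δ' + ε) := fun ε hε => by
    have := h1 _ _ ((δ + ε) * (δ' + ε))
      (cv_mono (cv_smul' (δ' + ε) ha) le_rfl (by rw [abs_of_pos (by linarith)]; nlinarith))
      (cv_mono (cv_smul' (δ + ε) hb) le_rfl (by rw [abs_of_pos (by linarith)]; nlinarith))
    simp only [map_smul, LinearMap.smul_apply, smul_eq_mul, abs_mul] at this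
    rw [abs_of_pos (by linarith : 0 < δ + ε), abs_of_pos (by linarith : 0 < δ' + ε)] at this
    refine le_of_mul_le_mul_left (a := (δ + ε) * (δ' + ε)) (by linarith) (by positivity)
  have c : Continuous fun ε : ℝ => 2 * σ * (δ + ε) * (δ' + ε) := by fun_prop
  simpa using ge_of_tendsto (c.continuousAt.tendsto.mono_left
    (nhdsWithin_le_nhds (a := 0) (s := Set.Ioi 0))) (eventually_nhdsWithin_of_forall h2)

end Ho

theorem Tm.sq {R : ℕ} {ρ κ δ : ℝ} {φ : Fld → ℂ} (h : Tm R ρ κ φ) (hρ : 0 < ρ) {B : Fld}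
    (hB : Cv R δ B) (hδ : δ ≤ ρ) : ‖φ B‖ ≤ 10 * κ * (δ / ρ) ^ 2 := by
  have κ0 := h.nonneg hρ.le
  rcases (cv_nonneg hB).eq_or_lt with rfl | δ0
  · rw [h.loc B 0 fun x hx μ ν => by rw [norm_le_zero_iff.1 (hB x hx μ ν), dd_zero], h.zero]
    simp
  have := (lh h hρ).sq (M := κ) (by simpa [h.zero] using bd_dom h hρ) (mem_dom hρ hB)
    (by positivity) ((div_le_one hρ).2 hδ) (lin_zero h hρ B)
  rw [h.zero, sub_zero] at this
  nlinarith [mul_nonneg κ0 (sq_nonneg (δ / ρ))]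

end Pool.Agent.Lib.MP_7f377f_mp.RG.D3
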