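import Pool.Agent.Lib.MP_7f377f_mp.R3CmpA
import Pool.Agent.Lib.MP_7f377f_mp.R3CmpB
import Pool.Agent.Lib.MP_7f377f_mp.R3LinZ

/-! Comparison of the new densities of two linear steps. -/

noncomputable section

namespace Pool.Agent.Lib.MP_7f377f_mp.RG.D3

open Finset
open scoped Pointwise

namespace Cb

open La

variable {l r c n : ℕ} {τ η σ σ0 E E' X Z u : ℝ} {m m' : BF} {s s' : V →ₗ[ℝ] V} {B D : V}

theorem blk_sum {h : St → ℝ} (h0 : ∀ x, 0 ≤ h x) {M : ℝ}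
    (hM : ∀ y, ∑ t ∈ box l, h (t + up l y) ≤ M) {j : ℕ} {U : Finset St}
    (hU : U ⊆ box (j * LL l + l)) : ∑ x ∈ U, h x ≤ (2 * j + 1) ^ 3 * M := by
  refine (sum_le_sum_of_subset_of_nonneg hU fun _ _ _ => h0 _).trans ?_
  rw [← Blk_box, sum_Blk]
  refine (sum_le_card_nsmul _ _ _ fun y _ => hM y).trans_eq ?_
  rw [D3.card_box, nsmul_eq_mul]
  push_cast
  rfl

theorem box_add {i j k : ℕ} (h : i + j ≤ k) : box i + box j ⊆ box k := fun x hx => by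
  obtain ⟨y, hy, z, hz, rfl⟩ := mem_add.1 hx
  exact box_mono h (add_mem_box hy hz)

theorem stat_sum (h : Lin l r c τ m s) (hD : ∀ z f, tree l f → sh (up l z) D f = 0)
    (hY : ∀ y ∉ box (2 * r), Sm l 0 (sh (up l y) D)) (hB : ∀ y, Cv (r / 3) η (sh y B)) :
    |∑ y ∈ box (2 * r + 3), xx l m s (sh (up l y) D) (sh y B)| ≤
      (∑ z ∈ box (2 * r), ∑ f ∈ lbox l, |sh (up l z) D f|) * (τ * η) := by
  rw [cross_sum h.xx_rng hY fun z hz w hw => box_mono (by omega) (add_mem_box hz hw), sum_mul]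
  refine (abs_sum_le_sum_abs _ _).trans (sum_le_sum fun z _ => ?_)
  rw [sum_mul]
  exact cross_one ⟨h.s_tree, h.s_gauge, h.s_rng, h.s_bd, h.stat, h.energy, h.point, h.grad⟩
    (hD z) (hB z)

theorem est (hm : Inv n (3 * r) 20 20 m) (h : Lin l r c τ m s) (h' : Lin l r c τ m' s')
    (hl : 3 * r ≤ l) (hτ : 0 ≤ τ) (hσ : 0 ≤ σ) (hσ0 : 0 ≤ σ0) (hE : 0 ≤ E) (hE' : 0 ≤ E')
    (hX : 0 ≤ X) (hZ : 0 ≤ Z)
    (hk : ∀ a b δ δ', Cv (3 * r) δ a → Cv (3 * r) δ' b → |(m - m') a b| ≤ σ * δ * δ')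
    (hk0 : ∀ a b δ δ', Cv 0 δ a → Cv 0 δ' b → |(m - m') (cf a) (cf b)| ≤ σ0 * δ * δ')
    (hB0 : ∀ e ∉ lbox r, B e = 0) (hB : ∀ y, Cv (r / 3) η (sh y B))
    (e1 : (4 * r + 9) ^ 3 * ((r : ℝ) ^ 5 * η ^ 2 / LL l) ≤ E' ^ 2)
    (e2 : (4 * r + 9) ^ 3 * ((r : ℝ) ^ c * η ^ 2 / (LL l : ℝ) ^ 2) ≤ E ^ 2)
    (e3 : (4 * r + 1) ^ 3 * ((LL l : ℝ) ^ 3 * 3) * ((LL l : ℝ) ^ c * 343) ≤ X ^ 2)
    (e4 : mn l m s B B ≤ Z ^ 2)
    (e5 : 2 * τ * η * X + 450 * r * (6 * r + 1) ^ 3 * σ * E + 45 * σ0 * E' ≤ u) :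
    |mn l m s B B - mn l m' s' B B| ≤
      2 * u * Z + u ^ 2 + (18 * r * (6 * r + 1) ^ 3 * σ * E' * E + σ0 * E' ^ 2) := by
  have η0 := (hB 0).nonneg
  have u0 : 0 ≤ u := le_trans (by positivity) e5
  have hL : LL l = 2 * l + 1 := rfl
  obtain ⟨a, ha⟩ : ∃ a, a = mu l s B := ⟨_, rfl⟩
  obtain ⟨b, hb⟩ : ∃ b, b = mu l s' B := ⟨_, rfl⟩
  obtain ⟨D, hD⟩ : ∃ D, D = a - b := ⟨_, rfl⟩
  have sa : ∀ y, mu l s (sh y B) = sh (up l y) a := fun y => by rw [ha, mu_sh]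
  have sb : ∀ y, mu l s' (sh y B) = sh (up l y) b := fun y => by rw [hb, mu_sh]
  have D0 : ∀ e : Lk, e.1 ∉ box (2 * r * LL l + l) → D e = 0 := fun e he => by
    have : ∀ f ∈ lbox (r / 4), sh (yo l e.1) B f = 0 := fun f hf => hB0 _ fun h0 =>
      he (mem_box_of_yo (box_mono (r := r + r / 4) (by omega) (by
        simpa using sub_mem_box (mem_lbox.1 h0) (mem_lbox.1 hf))))
    simp [hD, ha, hb, mu_apply, h.s_rng _ this, h'.s_rng _ this]
  have D1 : ∀ z f, tree l f → sh (up l z) D f = 0 := fun z f hf => by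
    rw [hD, sh_sub, ← sa, ← sb, Pi.sub_apply, mu_apply, mu_apply, h.s_tree, h'.s_tree,
      sub_self] <;> simpa [sub_eq_add_neg, ← D3.up_neg, tree_add_up]
  have D2 : ∀ y ∉ box (2 * r), Sm l 0 (sh (up l y) D) := fun y hy => sm_zero.2 fun e he =>
    D0 _ fun h0 => hy (by simpa only [La.yo_add_up (mem_lbox.1 he)] using yo_mem_box h0)
  obtain ⟨H, hH⟩ : ∃ H, H = ∑ y ∈ box (2 * r + 3), hh l m (sh (up l y) D) (sh (up l y) D) :=
    ⟨_, rfl⟩
  have hE0 := hH.trans (sum_enB l m D 0 (box (2 * r + 3)))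
  have p0 : ∀ y, 0 ≤ hh l m (sh (up l y) D) (sh (up l y) D) := fun y => enB_psd hm.psd _ _
  have H0 : 0 ≤ H := hH ▸ sum_nonneg fun _ _ => p0 _
  have hs := Real.sq_sqrt H0
  have s0 := Real.sqrt_nonneg H
  have N1 : ∀ U, ∑ x ∈ U, nd D x ≤ (5 * √H) ^ 2 := fun U => by
    have h1 := (Li.sum_nd_le D0 U).trans (hm.lower D _)
    have h2 : ∑ x ∈ box (2 * r * LL l + l) + box 1 + box 2, m (sh x D) (sh x D) ≤
        ∑ x ∈ Blk l (box (2 * r + 3)), m (sh x D) (sh x D) := by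
      refine sum_le_sum_of_subset_of_nonneg ?_ fun _ _ _ => hm.psd _
      rw [Blk_box]
      exact (add_subset_add_right (box_add le_rfl)).trans (box_add (by simp only [add_mul]; omega))
    have h3 : 0 ≤ (LL l : ℝ) ^ 2 * ∑ y ∈ box (2 * r + 3), ∑ μ, (0 - avgA l D) (y, μ) ^ 2 :=
      mul_nonneg (sq_nonneg _) (sum_nonneg fun _ _ => sum_nonneg fun _ _ => sq_nonneg _)
    rw [mul_pow, hs]
    linarith
  have hU : ∀ U ⊆ box (3 * r) + Blk l (box (2 * r + 3)), U ⊆ box ((2 * r + 4) * LL l + l) :=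
    fun U hU => hU.trans (by rw [Blk_box]; exact box_add (by simp only [add_mul]; omega))
  have B1 : ∀ U ⊆ box ((2 * r + 4) * LL l + l), ∑ x ∈ U, nd b x ≤ E' ^ 2 := fun U hU => by
    refine (blk_sum (Li.nd_nonneg b) (fun y => by
      simpa only [sb, Li.nd_sh] using h'.energy _ _ (hB y)) hU).trans (le_of_eq_of_le ?_ e1)
    push_cast; ring
  have B2 : ∀ U ⊆ box ((2 * r + 4) * LL l + l), ∑ x ∈ U, gd b x ≤ E ^ 2 := fun U hU => by
    refine (blk_sum (gd_nonneg b) (fun y => by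
      have := h'.grad _ _ (hB y)
      simp only [sb, sh_sh, add_comm (un _)] at this
      simpa only [← sh_sh, ← sh_sub, Li.nd_sh, gd] using this) hU).trans (le_of_eq_of_le ?_ e2)
    push_cast; ring
  have k1 := core3 hk hk0 hσ hE hE' (by positivity) (T := box (2 * r * LL l + l) + box 1)
    (S := Blk l (box (2 * r + 3))) (by
      rw [Blk_box]
      exact (add_subset_add_right (box_add le_rfl)).trans (box_add (by simp only [add_mul]; omega)))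
    (fun x hx => Li.nd_eq_zero D0 hx) (B1 _ (by rw [Blk_box]; exact Li.box_mono (by simp only [add_mul]; omega)))
    N1 fun U h => B2 U (hU U h)
  have k2 := core2 (k := m - m') (S := box l)
    (fun a b => by simp only [LinearMap.sub_apply, h.symm a, h'.symm a]) hk hk0 hσ hσ0 hE hE'
    (B1 _ (Li.box_mono (by omega))) (fun U h => B1 U (h.trans (box_add (by simp only [add_mul]; omega))))
    fun U h => B2 U (h.trans (box_add (by simp only [add_mul]; omega)))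
  have k3 : ∑ z ∈ box (2 * r), ∑ f ∈ lbox l, |sh (up l z) D f| ≤ X * √H := by
    have h3 : ∑ z ∈ box (2 * r), ∑ f ∈ lbox l, sh (up l z) D f ^ 2 ≤
        (LL l : ℝ) ^ c * (343 * H) := by
      refine (sum_le_sum fun z _ => h.coer _ (D1 z)).trans ?_
      rw [← mul_sum]
      refine mul_le_mul_of_nonneg_left ?_ (by positivity)
      simp only [sh_sh, ← D3.up_add]
      refine (sum_conv_le (h := fun y => hh l m (sh (up l y) D) (sh (up l y) D)) (M := H)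
        fun U hU => hH ▸ sum_le_sum_of_subset_of_nonneg (hU.trans (box_add (by omega)))
          fun _ _ _ => p0 _).trans_eq ?_
      rw [D3.card_box]; norm_num
    have h4 := sq_sum_le_card_mul_sum_sq (s := box (2 * r) ×ˢ lbox l)
      (f := fun p => |sh (up l p.1) D p.2|)
    simp only [sq_abs, sum_product, card_product, D3.card_box, card_lbox, ← hL] at h4
    push_cast at h4
    refine (abs_le_of_sq_le_sq' (h4.trans ((mul_le_mul_of_nonneg_left h3 (by positivity)).trans ?_))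
      (by positivity)).2
    rw [mul_pow, hs]
    exact le_of_eq_of_le (by ring) (mul_le_mul_of_nonneg_right e3 H0)
  have k4 := (stat_sum h D1 D2 hB).trans (mul_le_mul_of_nonneg_right k3 (mul_nonneg hτ η0))
  have k5 := (stat_sum h' D1 D2 hB).trans (mul_le_mul_of_nonneg_right k3 (mul_nonneg hτ η0))
  have e6 : ∀ p q : V × V, enB l m p q - enB l m' p q =
      ∑ x ∈ box l, (m - m') (sh x p.1) (sh x q.1) := fun ⟨_, _⟩ ⟨_, _⟩ => by
    simp [enB_apply]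
  have e7 : H = ∑ y ∈ box (2 * r + 3), xx l m s (sh (up l y) D) (sh y B) -
      ∑ y ∈ box (2 * r + 3), xx l m' s' (sh (up l y) D) (sh y B) -
      ∑ x ∈ Blk l (box (2 * r + 3)), (m - m') (sh x D) (sh x b) := by
    rw [hH, sum_Blk, ← sum_sub_distrib, ← sum_sub_distrib]
    refine sum_congr rfl fun y _ => ?_
    have := e6 (sh (up l y) D, 0) (sh (up l y) b, sh y B)
    simp only [sh_sh] at this
    rw [← this, hh_apply, xx_apply, xx_apply, sa, sb, sub_sub, add_sub_cancel, ← map_sub,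
      Prod.mk_sub_mk, sub_self, ← sh_sub, ← hD]
  have k6 : √H ≤ u := by
    rcases s0.eq_or_lt with h0 | h0
    · rwa [← h0]
    refine le_trans (le_of_mul_le_mul_right ?_ h0) e5
    rw [abs_le] at k1 k4 k5
    push_cast at k1
    linarith [k1.1, k4.2, k5.1]
  have k7 : hh l m D D ≤ u ^ 2 := by
    have := single_le_sum (f := fun y => hh l m (sh (up l y) D) (sh (up l y) D))
      (fun y _ => p0 y) (zero_mem_box (2 * r + 3))
    simp only [D3.up_zero, Li.sh_zero, ← hH] at this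
    exact this.trans (hs.symm.trans_le (pow_le_pow_left₀ s0 k6 2))
  rw [mn_apply, ← ha] at e4
  have k8 := abs_le_of_sq_le_sq' ((cs_one _ (enB_symm h.symm l) (enB_psd h.psd l) (D, 0)
    (a, B)).trans ((mul_le_mul k7 e4 (enB_psd h.psd _ _) (sq_nonneg u)).trans_eq
    (mul_pow _ _ _).symm)) (mul_nonneg u0 hZ)
  have k9 := e6 (b, B) (b, B)
  have e8 : (b, B) = (a, B) - (D, 0) := by simp [hD]
  have k10 : enB l m (b, B) (b, B) = mn l m s B B - 2 * enB l m (D, 0) (a, B) + hh l m D D := by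
    rw [e8]
    simp only [map_sub, LinearMap.sub_apply, enB_symm h.symm l (a, B) (D, 0), mn_apply, hh_apply,
      ← ha]
    ring
  have k11 := enB_psd h.psd l (D, 0)
  rw [mn_apply l m', ← hb]
  rw [abs_le] at k2 ⊢
  push_cast at k2
  rw [← hh_apply] at k11
  constructor <;> linarith [k2.1, k2.2, k8.1, k8.2]

theorem red (hm : Inv n r 20 20 m) (B : V) : m B B = m (cut r (cg B)) (cut r (cg B)) := by
  have h1 : ∀ b, m B b = m (cut r (cg B)) b := fun b => by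
    have h2 := hm.rng (cg B - cut r (cg B)) b (.inl fun e he => by simp [cut_of_mem _ he])
    have h3 := hm.gauge (lam B) b
    rw [map_sub, LinearMap.sub_apply, sub_eq_zero] at h2
    rw [← h2, cg, map_sub, LinearMap.sub_apply, h3, sub_zero]
  rw [h1, hm.symm, h1]

theorem cc_bil (hs : ∀ a b, m a b = m b a) (hs' : ∀ a b, m' a b = m' b a) (h0 : 0 ≤ σ0)
    (h : Cc σ0 m) (h' : Cc σ0 m') (a b : V) (δ δ' : ℝ) (ha : Cv 0 δ a) (hb : Cv 0 δ' b) :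
    |(m - m') (cf a) (cf b)| ≤ 64 * σ0 * δ * δ' := by
  refine (Ho.bil (k := (m - m').compl₁₂ cf cf) (σ := 32 * σ0) (fun a b => ?_) (fun a δ ha => ?_)
    ha hb).trans_eq (by ring)
  · simp only [LinearMap.compl₁₂_apply, LinearMap.sub_apply, hs (cf a), hs' (cf a)]
  · have c : ∀ x, dd (cf a) x = dd (cf a) 0 := fun x => by funext μ ν; rw [dd_cf, dd_cf]
    have h1 := abs_le.1 (h _ c)
    have h2 := abs_le.1 (h' _ c)
    have h3 := mul_le_mul_of_nonneg_left (nd_le_of_cv (cv_cf ha 0) (zero_mem_box 0)) h0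
    simp only [LinearMap.compl₁₂_apply, LinearMap.sub_apply, abs_le]
    constructor <;> linarith [h1.1, h1.2, h2.1, h2.2]

theorem num1 {x t δ : ℝ} (hx : 400000 ≤ x) (ht : x ≤ t) (c c3 : ℕ) :
    (4 * x + 9) ^ 3 * (x ^ 5 * (4 * (3 * x * δ)) ^ 2 / t ^ 2) ≤ (x ^ 8 * δ / t) ^ 2 ∧
    (4 * x + 9) ^ 3 * (x ^ c * (4 * (3 * x * δ)) ^ 2 / (t ^ 2) ^ 2) ≤
      (x ^ (c + 6) * δ / t ^ 2) ^ 2 ∧
    (4 * x + 1) ^ 3 * ((t ^ 2) ^ 3 * 3) * ((t ^ 2) ^ c * 343) ≤ ((t ^ 2) ^ (c + 4)) ^ 2 ∧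
    x ^ c3 * (3 * x * δ) * (3 * x * δ) / t ^ 2 ≤ (3 * x ^ (c3 + 1) * δ / t) ^ 2 := by
  have r1 : 1 ≤ x := by linarith
  have w2 : (4 * x + 9) ^ 3 * 144 ≤ x ^ 4 :=
    calc _ ≤ (5 * x) ^ 3 * 144 := by gcongr; linarith
      _ = 18000 * x ^ 3 := by ring
      _ ≤ x * x ^ 3 := by gcongr; linarith
      _ = _ := by ring
  refine ⟨?_, ?_, ?_, ?_⟩
  · rw [div_pow, ← mul_div_assoc]
    gcongr
    calc _ = (4 * x + 9) ^ 3 * 144 * x ^ 7 * δ ^ 2 := by ring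
      _ ≤ x ^ 4 * x ^ 12 * δ ^ 2 := by gcongr; norm_num
      _ = _ := by ring
  · rw [div_pow, ← mul_div_assoc]
    gcongr
    calc _ = (4 * x + 9) ^ 3 * 144 * x ^ (c + 2) * δ ^ 2 := by ring
      _ ≤ x ^ 4 * x ^ (2 * c + 8) * δ ^ 2 := by gcongr <;> omega
      _ = _ := by ring
  · calc _ = (4 * x + 1) ^ 3 * 1029 * (t ^ 2) ^ (c + 3) := by ring
      _ ≤ (t ^ 2) ^ 3 * t ^ 2 * (t ^ 2) ^ (2 * c + 4) := by
        gcongr
        exacts [by nlinarith, by nlinarith, by nlinarith, by omega, by omega]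
      _ = _ := by ring
  · rw [div_pow]
    gcongr
    calc _ = 9 * x ^ (c3 + 2) * δ ^ 2 := by ring
      _ ≤ 9 * x ^ (2 * c3 + 2) * δ ^ 2 := by gcongr; omega
      _ = _ := by ring

theorem num2 {x t δ : ℝ} (hx : 400000 ≤ x) (ht : x ≤ t) (hδ : 0 ≤ δ) (hτ : 0 ≤ τ) (hσ : 0 ≤ σ)
    (h0 : 0 ≤ σ0) (c : ℕ) : 2 * τ * (4 * (3 * x * δ)) * (t ^ 2) ^ (c + 4) + 450 * x *
      (6 * x + 1) ^ 3 * (2 * σ) * (x ^ (c + 6) * δ / t ^ 2) + 45 * (64 * σ0) * (x ^ 8 * δ / t) ≤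
      δ * ((t ^ 2) ^ (c + 6) * τ + x ^ (c + 11) * σ / t + x ^ 9 * σ0) / t := by
  have t0 : 0 < t := by linarith
  rw [le_div_iff₀ t0]
  have x1 : 24 * x * t * (t ^ 2) ^ (c + 4) * τ ≤ (t ^ 2) ^ (c + 6) * τ :=
    calc _ ≤ t ^ 2 * t ^ 2 * (t ^ 2) ^ (c + 4) * τ := by gcongr <;> nlinarith
      _ = _ := by ring
  have x2 : 900 * x * (6 * x + 1) ^ 3 * x ^ (c + 6) * σ / t ≤ x ^ (c + 11) * σ / t :=
    calc _ ≤ 900 * x * (7 * x) ^ 3 * x ^ (c + 6) * σ / t := by gcongr; linarith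
      _ = 308700 * (x ^ (c + 10) * σ / t) := by ring
      _ ≤ x * (x ^ (c + 10) * σ / t) := by gcongr; linarith
      _ = _ := by ring
  have x3 : 2880 * (x ^ 8 * σ0) ≤ x ^ 9 * σ0 :=
    calc _ ≤ x * (x ^ 8 * σ0) := by gcongr; linarith
      _ = _ := by ring
  refine le_of_eq_of_le ?_ (mul_le_mul_of_nonneg_left (add_le_add (add_le_add x1 x2) x3) hδ)
  field_simp
  ring

theorem num3 {x t δ A G C : ℝ} {c3 : ℕ} (hx : 400000 ≤ x) (ht : x ≤ t) (hσ : 0 ≤ σ)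
    (h0 : 0 ≤ σ0) (hA : 0 ≤ A) (hG : G = x ^ (c + 11) * σ / t) (hC : C = x ^ 9 * σ0)
    (h : A + G + C ≤ 3) : t ^ 2 * (2 * (δ * (A + G + C) / t) * (3 * x ^ (c3 + 1) * δ / t) +
      (δ * (A + G + C) / t) ^ 2 + (18 * x * (6 * x + 1) ^ 3 * (2 * σ) * (x ^ 8 * δ / t) *
      (x ^ (c + 6) * δ / t ^ 2) + 64 * σ0 * (x ^ 8 * δ / t) ^ 2)) ≤
      x ^ (c3 + 9) * (A + G + C) * δ ^ 2 := by
  have t0 : 0 < t := by linarith
  have r1 : 1 ≤ x := by linarith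
  have y1 : 36 * x * (6 * x + 1) ^ 3 * x ^ (c + 14) * σ / t ≤ x ^ 8 * G :=
    calc _ ≤ 36 * x * (7 * x) ^ 3 * x ^ (c + 14) * σ / t := by gcongr; linarith
      _ = 12348 * (x ^ (c + 18) * σ / t) := by ring
      _ ≤ x * (x ^ (c + 18) * σ / t) := by gcongr; linarith
      _ = _ := by rw [hG]; ring
  have y2 : 64 * (x ^ 16 * σ0) ≤ x ^ 8 * C :=
    calc _ ≤ x * (x ^ 16 * σ0) := by gcongr; linarith
      _ = _ := by rw [hC]; ring
  have y3 : 6 * x ^ (c3 + 1) + 3 + x ^ 8 ≤ x ^ (c3 + 9) := by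
    have := pow_le_pow_right₀ r1 (show c3 + 1 ≤ c3 + 8 by omega)
    have := pow_le_pow_right₀ r1 (show 8 ≤ c3 + 8 by omega)
    have := one_le_pow₀ (n := c3 + 8) r1
    rw [pow_succ _ (c3 + 8)]
    nlinarith
  refine le_of_eq_of_le (b := (6 * x ^ (c3 + 1) * (A + G + C) + (A + G + C) ^ 2 +
    36 * x * (6 * x + 1) ^ 3 * x ^ (c + 14) * σ / t + 64 * (x ^ 16 * σ0)) * δ ^ 2)
    (by field_simp; ring) (mul_le_mul_of_nonneg_right ?_ (sq_nonneg δ))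
  have v0 : 0 ≤ A + G + C := by rw [hG, hC]; positivity
  have z3 : 0 ≤ x ^ 8 * A := by positivity
  linarith [mul_le_mul_of_nonneg_right y3 v0, mul_le_mul_of_nonneg_right h v0]

end Cb

theorem df_apriori : ∃ c : ℕ, ∀ (n n' r : ℕ) (cL cL' cU cU' : ℝ) (m m' : BF), c ≤ r → cU ≤ 20 →
    cU' ≤ 20 → Inv n r cL cU m → Inv n' r cL' cU' m' → Df r ((r : ℝ) ^ c) m m' :=
  La.df_apriori_of inv_bd

open La Cb in
theorem lin_df (c : ℕ) : ∃ c1 : ℕ, ∀ (l r n n' n1 n1' : ℕ) (τ σ σ0 : ℝ) (m m' : BF)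
    (s s' : V →ₗ[ℝ] V), c1 ≤ r → r ^ c1 ≤ l → 0 ≤ τ → 0 ≤ σ0 → (LL l : ℝ) ^ c1 * τ ≤ 1 →
    (r : ℝ) ^ c1 * σ0 ≤ 1 → Inv n (3 * r) 20 20 m → Inv n' (3 * r) 20 20 m' → Lin l r c τ m s →
    Lin l r c τ m' s' → Inv n1 r 20 20 (mr l m s) → Inv n1' r 20 20 (mr l m' s') → Cc σ0 m →
    Cc σ0 m' → Df (3 * r) σ m m' →
      Df r ((r : ℝ) ^ c1 * σ0 + σ / 2 + (LL l : ℝ) ^ c1 * τ) (mr l m s) (mr l m' s') := by
  obtain ⟨c2, H2⟩ := df_apriori
  obtain ⟨c3, H3⟩ := inv_bd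
  obtain ⟨q, hq⟩ : ∃ q, q = c + 2 * c2 + c3 + 21 := ⟨_, rfl⟩
  refine ⟨2 * q + 400000, fun l r n n' n1 n1' τ σ σ0 m m' s s' hr hl hτ h0 h1 h2 hm hm' h h' hn hn'
    hc hc' hd B δ hB => ?_⟩
  have d0 := hB.nonneg
  have r0 : (400000 : ℝ) ≤ r := by exact_mod_cast le_trans (by omega) hr
  have r1 : (1 : ℝ) ≤ r := by linarith
  have l1 : (r : ℝ) ^ (2 * q + 400000) ≤ LL l := by
    exact_mod_cast hl.trans (by simp only [LL]; omega)
  have pw : ∀ {i j : ℕ}, i ≤ j → (r : ℝ) ^ i ≤ (r : ℝ) ^ j := pow_le_pow_right₀ r1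
  have l2 : 3 * r ≤ l := le_trans (by rw [sq]; exact Nat.mul_le_mul_right _ (by omega))
    ((Nat.pow_le_pow_right (by omega) (show 2 ≤ 2 * q + 400000 by omega)).trans hl)
  have L0 := LL_posR l
  have pl : ∀ {i j : ℕ}, i ≤ j → (LL l : ℝ) ^ i ≤ (LL l : ℝ) ^ j :=
    pow_le_pow_right₀ ((one_le_pow₀ r1).trans l1)
  obtain ⟨t, ht⟩ : ∃ t, t = √(LL l : ℝ) := ⟨_, rfl⟩
  have t2 : (LL l : ℝ) = t ^ 2 := by rw [ht, Real.sq_sqrt L0.le]
  have t1 : (r : ℝ) ^ q ≤ t := by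
    rw [ht]
    exact Real.le_sqrt_of_sq_le (by rw [← pow_mul]; exact (pw (by omega)).trans l1)
  have t3 : (r : ℝ) ≤ t := (le_self_pow₀ r1 (by omega)).trans t1
  have t0 : 0 < t := by linarith
  obtain ⟨σ1, hs⟩ : ∃ σ1, σ1 = min σ (((3 * r : ℕ) : ℝ) ^ c2) := ⟨_, rfl⟩
  have hd1 : Df (3 * r) σ1 m m' := by
    rw [hs, min_def]
    split_ifs
    exacts [hd, H2 _ _ _ _ _ _ _ _ _ (by omega) le_rfl le_rfl hm hm']
  have s0 : 0 ≤ σ1 := by simpa using hd1 0 1 (Ho.cv_zero _ zero_le_one)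
  have s1 : σ1 ≤ (r : ℝ) ^ (2 * c2) := by
    rw [hs, pow_mul, sq]
    refine (min_le_right _ _).trans (pow_le_pow_left₀ (by positivity) ?_ _)
    push_cast
    exact mul_le_mul_of_nonneg_right (by linarith) (by linarith)
  have s2 : σ1 ≤ σ := hs ▸ min_le_left _ _
  have b2 := (Sm_cg hB).cut
  rw [red hn, red hn']
  have b3 : ∀ e ∉ lbox r, cut r (cg B) e = 0 := fun e => cut_of_not_mem _
  generalize cut r (cg B) = B' at b2 b3
  have b4 := (le_abs_self _).trans (H3 _ _ _ _ _ (by omega) le_rfl hn _ _ _ _ (fun e _ => b2 e)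
    fun e _ => b2 e)
  rw [mr_apply, mul_comm, ← le_div_iff₀ L0, t2] at b4
  have A1 : (LL l : ℝ) ^ (c + 6) * τ ≤ 1 := (mul_le_mul_of_nonneg_right (pl (by omega)) hτ).trans h1
  have C1 : (r : ℝ) ^ 9 * σ0 ≤ 1 := (mul_le_mul_of_nonneg_right (pw (by omega)) h0).trans h2
  have G1 : (r : ℝ) ^ (c + 11) * σ1 / t ≤ 1 := by
    rw [div_le_one t0]
    refine (mul_le_mul_of_nonneg_left s1 (by positivity)).trans (le_trans ?_ t1)
    rw [← pow_add]
    exact pw (by omega)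
  have y4 : (r : ℝ) ^ (c3 + 9) * ((LL l : ℝ) ^ (c + 6) * τ) ≤ (LL l : ℝ) ^ (2 * q + 400000) * τ :=
    calc _ ≤ (LL l : ℝ) * _ := mul_le_mul_of_nonneg_right ((pw (by omega)).trans l1) (by positivity)
      _ = (LL l : ℝ) ^ (c + 7) * τ := by ring
      _ ≤ _ := mul_le_mul_of_nonneg_right (pl (by omega)) hτ
  have y5 : (r : ℝ) ^ (c3 + 9) * (r ^ 9 * σ0) ≤ (r : ℝ) ^ (2 * q + 400000) * σ0 := by
    rw [← mul_assoc, ← pow_add]
    exact mul_le_mul_of_nonneg_right (pw (by omega)) h0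
  have y6 : (r : ℝ) ^ (c3 + 9) * (r ^ (c + 11) * σ1 / t) ≤ σ / 2 := by
    rw [← mul_div_assoc, ← mul_assoc, ← pow_add, div_le_iff₀ t0]
    have := (mul_le_mul_of_nonneg_left (show (2 : ℝ) ≤ r by linarith) (by positivity)).trans
      ((pow_succ _ _).symm.trans_le ((pw (show c3 + 9 + (c + 11) + 1 ≤ q by omega)).trans t1))
    linarith [mul_le_mul_of_nonneg_right this s0, mul_le_mul_of_nonneg_right s2 t0.le]
  obtain ⟨e1, e2, e3, e4⟩ := num1 (δ := δ) r0 t3 c c3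
  have e5 := num2 r0 t3 d0 hτ s0 h0 c
  rw [← t2] at e1 e3
  nth_rw 1 [← t2] at e5
  nth_rw 1 [← t2] at e2
  have key := est hm h h' l2 hτ (by positivity) (by positivity) (by positivity)
    (by positivity) (by positivity) (by positivity)
    (fun a b δ δ' => Ho.bil (k := m - m')
      (fun a b => by simp only [LinearMap.sub_apply, h.symm a, h'.symm a]) fun a δ h => hd1 a δ h)
    (cc_bil h.symm h'.symm h0 hc hc') b3 (fun y => Sm.cv fun e _ => b2 _) e1 e2 e3 (b4.trans e4)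
    e5
  rw [mr_apply, mr_apply, ← mul_sub, abs_mul, abs_of_pos L0]
  refine (mul_le_mul t2.le key (abs_nonneg _) (sq_nonneg t)).trans ((num3 r0 t3 s0 h0
    (by positivity) rfl rfl (by rw [← t2]; linarith)).trans
    (mul_le_mul_of_nonneg_right ?_ (sq_nonneg δ)))
  rw [← t2]
  linarith

end Pool.Agent.Lib.MP_7f377f_mp.RG.D3
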