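import Pool.Agent.Lib.MP_7f377f_mp.R3Defs

/-! Lattice bookkeeping for the renormalisation step: blocks, periodic sums, fundamental domain. -/

noncomputable section

namespace Pool.Agent.Lib.MP_7f377f_mp.RG.D3.SX

open Finset

theorem sh_sh {α : Type} (x y : St) (U : Lk → α) : sh x (sh y U) = sh (x + y) U := by
  funext e; simp only [sh, add_assoc]

theorem sh_zero {α : Type} (U : Lk → α) : sh 0 U = U := by
  funext e; simp only [sh, add_zero]

theorem up_add (l : ℕ) (x y : St) : up l (x + y) = up l x + up l y := smul_add _ _ _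

theorem up_sub (l : ℕ) (x y : St) : up l (x - y) = up l x - up l y := smul_sub _ _ _

theorem up_zero (l : ℕ) : up l 0 = 0 := smul_zero _

theorem up_apply (l : ℕ) (y : St) (i : Fin 3) : up l y i = (2 * l + 1) * y i := by
  simp [up, LL]

theorem up_smul (l n : ℕ) (v : St) : up l ((n : ℤ) • v) = ((LL l * n : ℕ) : ℤ) • v := by
  rw [up, smul_smul, Nat.cast_mul]

theorem LL_pos (l : ℕ) : (0 : ℤ) < LL l := by simp only [LL]; positivity

theorem mem_box {r : ℕ} {x : St} : x ∈ box r ↔ ∀ i, -(r : ℤ) ≤ x i ∧ x i ≤ r := by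
  simp [box]

theorem mem_cube {n : ℕ} {x : St} : x ∈ cube n ↔ ∀ i, 0 ≤ x i ∧ x i < n := by
  simp [cube]

theorem mem_lbox {r : ℕ} {e : Lk} : e ∈ lbox r ↔ e.1 ∈ box r := by
  simp [lbox]

theorem card_box (r : ℕ) : (box r).card = (2 * r + 1) ^ 3 := by
  simp only [box, Fintype.card_piFinset, Int.card_Icc, prod_const, card_univ, Fintype.card_fin]
  congr 1
  omega

theorem card_cube (n : ℕ) : (cube n).card = n ^ 3 := by
  simp [cube, Fintype.card_piFinset]

theorem yo_add_up (l : ℕ) (x y : St) : yo l (x + up l y) = yo l x + y := by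
  funext i
  simp only [yo, up, Pi.add_apply, Pi.smul_apply, smul_eq_mul]
  rw [add_right_comm, Int.add_mul_ediv_left _ _ (LL_pos l).ne']

theorem yo_sub_up (l : ℕ) (x y : St) : yo l (x - up l y) = yo l x - y := by
  have := yo_add_up l (x - up l y) y
  rw [sub_add_cancel] at this
  rw [this, add_sub_cancel_right]

theorem yo_box {l : ℕ} {t : St} (ht : t ∈ box l) : yo l t = 0 := by
  funext i
  have := mem_box.mp ht i
  exact Int.ediv_eq_zero_of_lt (by omega) (by simp only [LL]; push_cast; omega)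

theorem sub_up_mem (l : ℕ) (x : St) : x - up l (yo l x) ∈ box l := by
  refine mem_box.mpr fun i => ?_
  have h1 := Int.emod_nonneg (x i + l) (LL_pos l).ne'
  have h2 := Int.emod_lt_of_pos (x i + l) (LL_pos l)
  have h3 := Int.emod_add_mul_ediv (x i + l) (LL l)
  have h4 : (LL l : ℤ) = 2 * l + 1 := by simp [LL]
  simp only [yo, up, Pi.sub_apply, Pi.smul_apply, smul_eq_mul]
  constructor <;> omega

theorem yo_mem_box {l R : ℕ} {x : St} (hx : x ∈ box (fb l R)) : yo l x ∈ box R := by
  refine mem_box.mpr fun i => ?_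
  have h1 := mem_box.mp hx i
  have h2 := mem_box.mp (sub_up_mem l x) i
  simp only [fb, LL, Pi.sub_apply, up_apply] at h1 h2
  push_cast at h1
  constructor
  · by_contra h
    have : yo l x i ≤ -(R : ℤ) - 1 := by omega
    nlinarith
  · by_contra h
    have : (R : ℤ) + 1 ≤ yo l x i := by omega
    nlinarith

theorem tree_add_up (l : ℕ) (f : Lk) (y : St) : tree l (f.1 + up l y, f.2) ↔ tree l f := by
  simp only [tree]
  rw [add_right_comm, yo_add_up, yo_add_up, add_left_inj, up_add]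
  simp only [Pi.add_apply, add_left_inj]

theorem per_smul {α : Type} {n : ℕ} {U : Lk → α} (h : Per n U) (v : St) :
    sh ((n : ℤ) • v) U = U := by
  let H : AddSubgroup St :=
    { carrier := {w | sh w U = U}
      zero_mem' := sh_zero U
      add_mem' := fun {a b} ha hb => by
        show sh (a + b) U = U
        rw [← sh_sh, show sh b U = U from hb]; exact ha
      neg_mem' := fun {a} ha => by
        show sh (-a) U = U
        conv_lhs => rw [← show sh a U = U from ha]
        rw [sh_sh, neg_add_cancel, sh_zero] }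
  have : (n : ℤ) • v = ∑ μ, v μ • ((n : ℤ) • un μ) := by
    funext i
    simp [un, Pi.single_apply, mul_comm]
  rw [this]
  exact H.sum_mem fun μ _ => H.zsmul_mem (h μ) _

theorem per_of_smul {α : Type} {n : ℕ} {U : Lk → α} (h : ∀ v : St, sh ((n : ℤ) • v) U = U) :
    Per n U := fun _ => h _

theorem per_sh {α : Type} {n : ℕ} {U : Lk → α} (h : Per n U) (y v : St) :
    sh (y + (n : ℤ) • v) U = sh y U := by
  rw [← sh_sh, per_smul h]

/-- reduction modulo `n` -/
def md (n : ℕ) (x : St) : St := fun i => x i % (n : ℤ)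

theorem md_mem {n : ℕ} (hn : 0 < n) (x : St) : md n x ∈ cube n :=
  mem_cube.mpr fun _ => ⟨Int.emod_nonneg _ (by omega), Int.emod_lt_of_pos _ (by omega)⟩

theorem md_eq (n : ℕ) (x : St) : x = md n x + (n : ℤ) • fun i => x i / (n : ℤ) := by
  funext i
  simp [md, Int.emod_add_mul_ediv]

theorem md_of_mem {n : ℕ} {x : St} (hx : x ∈ cube n) : md n x = x := by
  funext i
  exact Int.emod_eq_of_lt (mem_cube.mp hx i).1 (mem_cube.mp hx i).2

theorem md_add_smul (n : ℕ) (x v : St) : md n (x + (n : ℤ) • v) = md n x := by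
  funext i
  simp [md]

theorem md_md_add (n : ℕ) (x a : St) : md n (md n x + a) = md n (x + a) := by
  funext i
  simp [md]

theorem sum_shift {M : Type} [AddCommMonoid M] {n : ℕ} (hn : 0 < n) {f : St → M}
    (hf : ∀ x v, f (x + (n : ℤ) • v) = f x) (a : St) :
    ∑ x ∈ cube n, f (x + a) = ∑ x ∈ cube n, f x := by
  refine sum_nbij' (fun x => md n (x + a)) (fun x => md n (x + -a)) (fun x _ => md_mem hn _)
    (fun x _ => md_mem hn _) (fun x hx => ?_) (fun x hx => ?_) (fun x _ => ?_)
  · rw [md_md_add, add_neg_cancel_right, md_of_mem hx]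
  · rw [md_md_add, neg_add_cancel_right, md_of_mem hx]
  · conv_lhs => rw [md_eq n (x + a), hf]

theorem sum_blocks {M : Type} [AddCommMonoid M] (l : ℕ) {n : ℕ} (hn : 0 < n) {f : St → M}
    (hf : ∀ x v, f (x + ((LL l * n : ℕ) : ℤ) • v) = f x) :
    ∑ x ∈ cube (LL l * n), f x = ∑ y ∈ cube n, ∑ t ∈ box l, f (t + up l y) := by
  have hL : 0 < LL l * n := Nat.mul_pos (Nat.succ_pos _) hn
  rw [← sum_shift hL hf (fun _ => -(l : ℤ)), ← sum_product']
  symm
  refine sum_nbij' (fun p => p.2 + up l p.1 + fun _ => (l : ℤ))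
    (fun x => (yo l (x + fun _ => -(l : ℤ)),
      (x + fun _ => -(l : ℤ)) - up l (yo l (x + fun _ => -(l : ℤ))))) (fun p hp => ?_)
    (fun x hx => ?_) (fun p hp => ?_) (fun x _ => ?_) (fun p _ => ?_)
  · obtain ⟨h1, h2⟩ := mem_product.mp hp
    refine mem_cube.mpr fun i => ?_
    have h1 := mem_cube.mp h1 i
    have h2 := mem_box.mp h2 i
    simp only [Pi.add_apply, up_apply, LL]
    push_cast
    constructor <;> nlinarith
  · refine mem_product.mpr ⟨mem_cube.mpr fun i => ?_, sub_up_mem _ _⟩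
    have h1 := mem_cube.mp hx i
    simp only [yo, Pi.add_apply, neg_add_cancel_right]
    refine ⟨Int.ediv_nonneg h1.1 (LL_pos l).le, Int.ediv_lt_of_lt_mul (LL_pos l) ?_⟩
    have := h1.2
    push_cast at this
    linarith
  · obtain ⟨-, h2⟩ := mem_product.mp hp
    have : (p.2 + up l p.1 + fun _ => (l : ℤ)) + (fun _ => -(l : ℤ)) = p.2 + up l p.1 := by
      funext i; simp
    simp only [this, yo_add_up, yo_box h2, zero_add, add_sub_cancel_right]
  · funext i; simp
  · congr 1
    funext i; simp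

theorem mem_fund {l n : ℕ} {f : Lk} : f ∈ fund l n ↔ yo l f.1 ∈ cube n ∧ ¬ tree l f := by
  simp only [fund, mem_filter, mem_product, mem_univ, and_true, mem_image, Prod.exists]
  refine and_congr_left fun _ => ⟨?_, fun h => ⟨_, _, ⟨h, sub_up_mem l f.1⟩, by simp⟩⟩
  rintro ⟨y, t, ⟨hy, ht⟩, h⟩
  rw [← h, add_comm, yo_add_up, yo_box ht, zero_add]
  exact hy

theorem rp_eq (l n : ℕ) (x : St) : rp l n x = x - up l (yo l x - md n (yo l x)) := rfl

theorem yo_rp (l n : ℕ) (x : St) : yo l (rp l n x) = md n (yo l x) := by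
  rw [rp_eq, yo_sub_up, sub_sub_cancel]

theorem rp_spec (l n : ℕ) (x : St) : ∃ v : St, x = rp l n x + up l ((n : ℤ) • v) := by
  refine ⟨fun i => yo l x i / (n : ℤ), ?_⟩
  rw [rp_eq]
  conv_rhs => enter [1, 2, 2, 1]; rw [md_eq n (yo l x)]
  simp

theorem tree_rp (l n : ℕ) (f : Lk) : tree l (rp l n f.1, f.2) ↔ tree l f := by
  obtain ⟨v, hv⟩ := rp_spec l n f.1
  rw [← tree_add_up l (rp l n f.1, f.2) ((n : ℤ) • v), ← hv]

theorem rp_mem {l n : ℕ} (hn : 0 < n) {f : Lk} : (rp l n f.1, f.2) ∈ fund l n ↔ ¬ tree l f := by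
  rw [mem_fund, tree_rp, yo_rp]
  exact and_iff_right (md_mem hn _)

theorem rp_of_mem {l n : ℕ} {x : St} (h : yo l x ∈ cube n) : rp l n x = x := by
  rw [rp_eq, md_of_mem h, sub_self, up_zero, sub_zero]

theorem rp_add (l n : ℕ) (x v : St) : rp l n (x + up l ((n : ℤ) • v)) = rp l n x := by
  rw [rp_eq, rp_eq, yo_add_up, md_add_smul, add_sub_right_comm (yo l x), up_add]
  abel

theorem ext_per {α : Type} (l n : ℕ) (o : α) (u : fund l n → α) :
    Per (LL l * n) (ext l n o u) := by
  refine per_of_smul fun v => ?_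
  funext f
  simp only [sh, ext, ← up_smul, rp_add]

theorem ext_tree {α : Type} {l n : ℕ} (o : α) (u : fund l n → α) {f : Lk} (hf : tree l f) :
    ext l n o u f = o :=
  dif_neg fun h => (mem_fund.mp h).2 ((tree_rp l n f).mpr hf)

theorem ext_of_mem {α : Type} {l n : ℕ} (o : α) (u : fund l n → α) {f : Lk}
    (hf : (rp l n f.1, f.2) ∈ fund l n) : ext l n o u f = u ⟨_, hf⟩ := dif_pos hf

theorem ext_coe {α : Type} {l n : ℕ} (o : α) (u : fund l n → α) (i : fund l n) :
    ext l n o u i = u i := by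
  have h : rp l n i.1.1 = i.1.1 := rp_of_mem (mem_fund.mp i.2).1
  have h' : (rp l n i.1.1, i.1.2) ∈ fund l n := by rw [h]; exact i.2
  rw [ext_of_mem o u h']
  congr 1
  exact Subtype.ext (Prod.ext h rfl)

theorem measurable_ext {α : Type} [MeasurableSpace α] (l n : ℕ) (o : α) :
    Measurable (ext l n o) := by
  refine measurable_pi_lambda _ fun f => ?_
  unfold ext
  split_ifs
  exacts [measurable_pi_apply _, measurable_const]

theorem sum_fund {M : Type} [AddCommMonoid M] (l n : ℕ) {Φ : Lk → M}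
    (hΦ : ∀ f, tree l f → Φ f = 0) :
    ∑ i : fund l n, Φ i = ∑ y ∈ cube n, ∑ f ∈ lbox l, Φ (f.1 + up l y, f.2) := by
  rw [sum_coe_sort (fund l n) Φ, ← sum_product', ← sum_filter_of_ne (p := fun p => ¬ tree l p.2)
    (s := cube n ×ˢ lbox l) fun p _ h ht => h (hΦ _ ((tree_add_up l p.2 p.1).mpr ht))]
  symm
  refine sum_nbij' (fun p => (p.2.1 + up l p.1, p.2.2))
    (fun f => (yo l f.1, (f.1 - up l (yo l f.1), f.2))) (fun p hp => ?_) (fun f hf => ?_)
    (fun p hp => ?_) (fun f _ => ?_) (fun p _ => rfl)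
  · obtain ⟨h1, h2⟩ := mem_filter.mp hp
    obtain ⟨h3, h4⟩ := mem_product.mp h1
    refine mem_fund.mpr ⟨?_, fun h => h2 ((tree_add_up l p.2 p.1).mp h)⟩
    rw [yo_add_up, yo_box (mem_lbox.mp h4), zero_add]
    exact h3
  · obtain ⟨h1, h2⟩ := mem_fund.mp hf
    refine mem_filter.mpr ⟨mem_product.mpr ⟨h1, mem_lbox.mpr (sub_up_mem _ _)⟩, fun h => h2 ?_⟩
    have := (tree_add_up l _ (yo l f.1)).mpr h
    simpa using this
  · obtain ⟨h1, -⟩ := mem_filter.mp hp
    obtain ⟨-, h4⟩ := mem_product.mp h1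
    simp only [yo_add_up, yo_box (mem_lbox.mp h4), zero_add, add_sub_cancel_right]
  · simp

/-- number of links of a block outside the tree -/
def cnt (l : ℕ) : ℕ := ∑ f ∈ lbox l, if tree l f then 0 else 1

theorem card_fund (l n : ℕ) : Fintype.card (fund l n) = n ^ 3 * cnt l := by
  have h := sum_fund l n (Φ := fun f => if tree l f then 0 else 1) fun f hf => if_pos hf
  simp only [tree_add_up] at h
  rw [sum_const, card_cube, smul_eq_mul] at h
  rw [cnt, ← h, Fintype.card_eq_sum_ones]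
  exact sum_congr rfl fun i _ => (if_neg (mem_fund.mp i.2).2).symm

end Pool.Agent.Lib.MP_7f377f_mp.RG.D3.SX
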