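import Pool.Agent.Lib.MP_7f377f_mp.R3GeoA
import Pool.Agent.Lib.MP_7f377f_mp.R3MeasBlk
import Pool.Agent.Lib.MP_7f377f_mp.R3Step0

/-! First order calculus for the block averaging. -/

noncomputable section

namespace Pool.Agent.Lib.MP_7f377f_mp.RG.D3.Dt

open Finset D3.Pv
open scoped Quaternion

attribute [local irreducible] box lbox

/-- the adjoint action -/
def ad (g : S3) : ℍ →ₗ[ℝ] ℍ := LinearMap.mulLeft ℝ g.q ∘ₗ LinearMap.mulRight ℝ (star g.q)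

theorem ad_apply (g : S3) (x : ℍ) : ad g x = g.q * x * star g.q := by simp [ad, mul_assoc]

theorem norm_ad (g : S3) (x : ℍ) : ‖ad g x‖ = ‖x‖ := by
  rw [ad_apply, norm_mul, norm_mul, norm_star, S3.norm_q, one_mul, mul_one]

theorem q_star (g : S3) : g.q * star g.q = 1 := by
  rw [← S3.q_inv, ← S3.q_mul, mul_inv_cancel, S3.q_one]

theorem star_q (g : S3) : star g.q * g.q = 1 := by
  rw [← S3.q_inv, ← S3.q_mul, inv_mul_cancel, S3.q_one]

theorem re_comm (a b : ℍ) : (a * b).re = (b * a).re := by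
  simp only [Quaternion.re_mul]
  ring

theorem re_ad (g : S3) (x : ℍ) : (ad g x).re = x.re := by
  rw [ad_apply, re_comm, ← mul_assoc, star_q, one_mul]

theorem ad_mul (g h : S3) (x : ℍ) : ad (g * h) x = ad g (ad h x) := by
  simp only [ad_apply, S3.q_mul, star_mul, mul_assoc]

theorem ad_one (x : ℍ) : ad 1 x = x := by simp [ad_apply, S3.q_one]

theorem ad_sub (g h : S3) (x : ℍ) : ‖ad g x - ad h x‖ ≤ 2 * ‖g.q - h.q‖ * ‖x‖ := by
  have : ad g x - ad h x = (g.q - h.q) * x * star g.q + h.q * x * star (g.q - h.q) := by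
    simp only [ad_apply, star_sub]
    noncomm_ring
  rw [this]
  refine (norm_add_le _ _).trans_eq ?_
  simp only [norm_mul, norm_star, S3.norm_q]
  ring

/-- the imaginary part -/
def imL : ℍ →ₗ[ℝ] ℍ where
  toFun q := q.im
  map_add' a b := by simp
  map_smul' a b := by simp

theorem imL_apply (q : ℍ) : imL q = q.im := rfl

theorem norm_sq_eq (q : ℍ) : ‖q‖ ^ 2 = q.re ^ 2 + ‖q.im‖ ^ 2 := by
  rw [sq, sq ‖q.im‖, ← Quaternion.normSq_eq_norm_mul_self, ← Quaternion.normSq_eq_norm_mul_self,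
    Quaternion.normSq_def', Quaternion.normSq_def']
  simp
  ring

theorem norm_im_le (q : ℍ) : ‖q.im‖ ≤ ‖q‖ :=
  abs_le_of_sq_le_sq' (by rw [norm_sq_eq q]; nlinarith [sq_nonneg q.re]) (norm_nonneg _) |>.2

theorem abs_re_le (q : ℍ) : |q.re| ≤ ‖q‖ :=
  abs_le_of_sq_le_sq (by rw [norm_sq_eq q]; nlinarith [sq_nonneg ‖q.im‖]) (norm_nonneg _)

theorem im_of_re {x : ℍ} (h : x.re = 0) : x.im = x := by
  ext <;> simp [h]

theorem star_of_re {x : ℍ} (h : x.re = 0) : star x = -x := by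
  ext <;> simp [h]

/-- `g' g⁻¹ = 1 + x + O(a ^ 2)` -/
structure FO (g g' : S3) (x : ℍ) (a : ℝ) : Prop where
  im : x.re = 0
  z : ‖(g' * g⁻¹).q - 1‖ ≤ a
  o : ‖(g' * g⁻¹).q - 1 - x‖ ≤ a ^ 2

variable {g g' h h' : S3} {x y : ℍ} {a b : ℝ}

theorem FO.nonneg (H : FO g g' x a) : 0 ≤ a := (norm_nonneg _).trans H.z

theorem FO.mono (H : FO g g' x a) (hab : a ≤ b) : FO g g' x b :=
  ⟨H.im, H.z.trans hab, H.o.trans (pow_le_pow_left₀ H.nonneg hab 2)⟩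

theorem FO.one : FO 1 1 0 0 := ⟨rfl, by simp [S3.q_one], by simp [S3.q_one]⟩

theorem FO.mul (H : FO g g' x a) (K : FO h h' y b) :
    FO (g * h) (g' * h') (x + ad g y) (a + b) := by
  have e : g' * h' * (g * h)⁻¹ = (g' * g⁻¹) * (g * (h' * h⁻¹) * g⁻¹) := by group
  have e2 : (g * (h' * h⁻¹) * g⁻¹).q - 1 - ad g y = ad g ((h' * h⁻¹).q - 1 - y) := by
    rw [map_sub, map_sub, ad_apply g 1, mul_one, q_star, ad_apply g (h' * h⁻¹).q, S3.q_mul,
      S3.q_mul g, S3.q_inv g]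
  have n1 := S3.norm_conj_sub g (h' * h⁻¹)
  have n2 : ‖(g * (h' * h⁻¹) * g⁻¹).q - 1 - ad g y‖ ≤ b ^ 2 := by rw [e2, norm_ad]; exact K.o
  refine ⟨by simp [H.im, re_ad, K.im], ?_, ?_⟩
  · rw [e]
    exact (S3.norm_mul_sub _ _).trans (add_le_add H.z (n1.trans_le K.z))
  · rw [e, S3.q_mul]
    set p := (g' * g⁻¹).q
    set r := (g * (h' * h⁻¹) * g⁻¹).q
    have : p * r - 1 - (x + ad g y) = (p - 1) * (r - 1) + ((p - 1 - x) + (r - 1 - ad g y)) := by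
      noncomm_ring
    rw [this]
    refine (norm_add_le _ _).trans ((add_le_add (norm_mul_le _ _) (norm_add_le _ _)).trans ?_)
    have := mul_le_mul H.z (n1.trans_le K.z) (norm_nonneg _) H.nonneg
    nlinarith [H.o, mul_nonneg H.nonneg K.nonneg]

theorem FO.inv (H : FO g g' x a) : FO g⁻¹ g'⁻¹ (-ad g⁻¹ x) a := by
  have e : g'⁻¹ * g⁻¹⁻¹ = g⁻¹ * (g' * g⁻¹)⁻¹ * g⁻¹⁻¹ := by group
  refine ⟨by simp [re_ad, H.im], ?_, ?_⟩
  · rw [e, S3.norm_conj_sub, S3.norm_inv_sub]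
    exact H.z
  · have : (g⁻¹ * (g' * g⁻¹)⁻¹ * g⁻¹⁻¹).q - 1 - -ad g⁻¹ x =
        ad g⁻¹ (star ((g' * g⁻¹).q - 1 - x)) := by
      rw [star_sub, star_sub, star_one, star_of_re H.im, map_sub, map_sub, map_neg,
        ad_apply g⁻¹ 1, mul_one, q_star, ad_apply g⁻¹ (star _), S3.q_mul, S3.q_mul g⁻¹,
        S3.q_inv g⁻¹, S3.q_inv (g' * g⁻¹)]
    rw [e, this, norm_ad, norm_star]
    exact H.o

theorem FO.link (g : S3) {u : S3} (hu : ‖u.q - 1‖ ≤ a) : FO g (u * g) u.q.im a := by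
  refine ⟨by simp, by rwa [mul_inv_cancel_right], ?_⟩
  rw [mul_inv_cancel_right]
  have e : u.q - 1 - u.q.im = ((u.q.re - 1 : ℝ) : ℍ) := by ext <;> simp
  have := Ms.norm_sub_one_sq u
  rw [e, Quaternion.norm_coe, Real.norm_eq_abs, abs_le]
  constructor <;> nlinarith [norm_nonneg (u.q - 1), Ms.re_le_one u]

theorem nrq_fo {q : ℝ} {z : ℍ} (hq : 2⁻¹ ≤ q) (hz : ‖z‖ ≤ a) (ha : a ≤ 1 / 4) :
    ‖(Ms.nrq (q + z)).q - 1 - q⁻¹ • z.im‖ ≤ 16 * a ^ 2 := by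
  have q0 : 0 < q := by linarith
  set y := q⁻¹ • z with hy
  have hq2 : q⁻¹ ≤ 2 := inv_le_of_inv_le₀ (by norm_num) hq
  have ny : ‖y‖ ≤ 2 * a := by
    rw [hy, norm_smul, Real.norm_of_nonneg (inv_pos.2 q0).le]
    exact mul_le_mul hq2 hz (norm_nonneg _) (by norm_num)
  have e : (q : ℍ) + z = q • (1 + y) := by
    rw [smul_add, hy, smul_smul, mul_inv_cancel₀ q0.ne', one_smul]
    ext <;> simp
  have a0 : 0 ≤ a := (norm_nonneg _).trans hz
  have hN := abs_norm_sub_norm_le (1 + y) (1 : ℍ)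
  rw [add_sub_cancel_left, norm_one, abs_le] at hN
  set N := ‖1 + y‖ with hNd
  have N0 : 1 / 2 ≤ N := by linarith
  have ne : 1 + y ≠ 0 := norm_pos_iff.1 (by linarith)
  have hre := abs_le.1 ((abs_re_le y).trans ny)
  have him := (norm_im_le y).trans ny
  have hsq : N ^ 2 = (1 + y.re) ^ 2 + ‖y.im‖ ^ 2 := by
    rw [hNd, norm_sq_eq]
    simp
  have e2 : (Ms.nrq (q + z)).q - 1 - q⁻¹ • z.im =
      N⁻¹ • (((1 + y.re - N : ℝ) : ℍ) + (1 - N) • y.im) := by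
    rw [e, Ms.nrq_smul q0, Ms.nrq_q ne, ← hNd, show q⁻¹ • z.im = y.im by simp [hy]]
    have : N ≠ 0 := by linarith
    ext <;> simp <;> field_simp
  have k1 : |1 + y.re - N| ≤ 4 * a ^ 2 := by
    have h1 : ‖y.im‖ ^ 2 ≤ (2 * a) ^ 2 := pow_le_pow_left₀ (norm_nonneg _) him 2
    have h2 : 1 + y.re ≤ N := abs_le_of_sq_le_sq' (by nlinarith [sq_nonneg ‖y.im‖]) (by linarith) |>.2
    rw [abs_le]
    constructor <;> nlinarith
  have k2 : ‖(1 - N) • y.im‖ ≤ 4 * a ^ 2 := by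
    rw [norm_smul, Real.norm_eq_abs]
    have : |1 - N| ≤ 2 * a := abs_le.2 ⟨by linarith, by linarith⟩
    nlinarith [mul_le_mul this him (norm_nonneg _) (by linarith)]
  rw [e2, norm_smul, Real.norm_of_nonneg (by positivity)]
  have k3 := (norm_add_le ((1 + y.re - N : ℝ) : ℍ) _).trans (add_le_add
    ((Quaternion.norm_coe _).trans_le k1) k2)
  have k4 : N⁻¹ ≤ 2 := inv_le_of_inv_le₀ (by norm_num) (by linarith)
  nlinarith [mul_le_mul k4 k3 (norm_nonneg _) (by norm_num)]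

theorem FO.nrq (hx : x.re = 0) (hz : ‖x‖ ≤ a) (ha : a ≤ 1 / 4) :
    FO 1 (Ms.nrq (1 + x)) x (5 * a) := by
  have := nrq_fo (q := 1) (by norm_num) hz ha
  rw [inv_one, one_smul, im_of_re hx, Quaternion.coe_one] at this
  have a0 : 0 ≤ a := (norm_nonneg _).trans hz
  refine ⟨hx, ?_, ?_⟩ <;> rw [inv_one, mul_one]
  · have h2 := norm_add_le ((Ms.nrq (1 + x)).q - 1 - x) x
    rw [sub_add_cancel] at h2
    nlinarith
  · nlinarith

/-- imaginary parts of a field -/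
def imF (u : Conf) : Lk → ℍ := fun e => (u e).q.im

theorem norm_imF {u : Conf} {e : Lk} (h : ‖(u e).q - 1‖ ≤ a) : ‖imF u e‖ ≤ a := by
  have := norm_im_le ((u e).q - 1)
  simp only [Quaternion.im_sub, Quaternion.im_one, sub_zero] at this
  exact this.trans h

theorem comb_ex (l : ℕ) (V : Conf) (t : St) : ∃ D : (Lk → ℍ) →ₗ[ℝ] ℍ, t ∈ box l →
    (∀ ξ a, Sm l a ξ → ‖D ξ‖ ≤ ht t * a) ∧ ∀ (u : Conf) (s : ℝ), (∀ f, ‖(u f).q - 1‖ ≤ s) →
      FO (cmb Inv.inv V t) (cmb Inv.inv (u * V) t) (D (imF u)) (ht t * s) := by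
  induction t using site_ind with
  | h0 => exact ⟨0, fun _ => ⟨fun ξ a _ => by simp [ht], fun u s _ => by simpa [ht] using FO.one⟩⟩
  | hp p ν h1 h2 ih =>
    obtain ⟨D, hD⟩ := ih
    refine ⟨D + ad (cmb Inv.inv V p) ∘ₗ LinearMap.proj (p, ν), fun hx => ?_⟩
    obtain ⟨k1, k2⟩ := hD (box_fwd h2 hx)
    rw [ht_fwd h2]
    push_cast
    refine ⟨fun ξ a h => (norm_add_le _ _).trans ?_, fun u s h => ?_⟩
    · have := h (p, ν) (mem_lbox.2 (box_fwd h2 hx))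
      simp only [LinearMap.comp_apply, LinearMap.proj_apply, norm_ad]
      linarith [k1 ξ a h]
    · rw [cmb_step _ h1, cmb_step _ h1, add_mul, one_mul]
      exact (k2 u s h).mul (FO.link _ (h _))
  | hn p ν h1 h2 ih =>
    obtain ⟨D, hD⟩ := ih
    refine ⟨D + ad (cmb Inv.inv V (p + un ν)) ∘ₗ (-ad (V (p, ν))⁻¹ ∘ₗ LinearMap.proj (p, ν)),
      fun hx => ?_⟩
    obtain ⟨k1, k2⟩ := hD (box_bwd h2 hx)
    rw [ht_bwd h2]
    push_cast
    refine ⟨fun ξ a h => (norm_add_le _ _).trans ?_, fun u s h => ?_⟩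
    · have := h (p, ν) (mem_lbox.2 hx)
      simp only [LinearMap.comp_apply, LinearMap.proj_apply, LinearMap.neg_apply, norm_ad, norm_neg]
      linarith [k1 ξ a h]
    · rw [cmb_bwd _ _ h1 h2, cmb_bwd _ _ h1 h2, add_mul, one_mul]
      exact (k2 u s h).mul (FO.link _ (h _)).inv

/-- derivative of the comb transport -/
def dC (l : ℕ) (V : Conf) (t : St) : (Lk → ℍ) →ₗ[ℝ] ℍ := (comb_ex l V t).choose

theorem dC_bd {l : ℕ} (V : Conf) {t : St} (h : t ∈ box l) {ξ : Lk → ℍ} (hξ : Sm l a ξ) :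
    ‖dC l V t ξ‖ ≤ 4 * l * a :=
  (((comb_ex l V t).choose_spec h).1 ξ a hξ).trans
    (mul_le_mul_of_nonneg_right (by exact_mod_cast ht_le h) hξ.nonneg)

theorem dC_fo {l : ℕ} (V : Conf) {t : St} (h : t ∈ box l) {u : Conf} {s : ℝ}
    (hu : ∀ f, ‖(u f).q - 1‖ ≤ s) :
    FO (cmb Inv.inv V t) (cmb Inv.inv (u * V) t) (dC l V t (imF u)) (4 * l * s) :=
  (((comb_ex l V t).choose_spec h).2 u s hu).mono
    (mul_le_mul_of_nonneg_right (by exact_mod_cast ht_le h) ((norm_nonneg _).trans (hu 0)))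

/-- derivative of the straight transport -/
def dL (V : Conf) (p : St) (μ : Fin 3) (k : ℕ) : (Lk → ℍ) →ₗ[ℝ] ℍ :=
  ∑ i ∈ range k, ad (lnP V p μ i) ∘ₗ LinearMap.proj (p + (i : ℤ) • un μ, μ)

theorem dL_bd (V : Conf) (p : St) (μ : Fin 3) (k : ℕ) (ξ : Lk → ℍ) :
    ‖dL V p μ k ξ‖ ≤ ∑ i ∈ range k, ‖ξ (p + (i : ℤ) • un μ, μ)‖ := by
  rw [dL, LinearMap.sum_apply]
  exact norm_sum_le_of_le _ fun i _ => (norm_ad _ _).le

theorem dL_fo (V : Conf) (p : St) (μ : Fin 3) (k : ℕ) {u : Conf} {s : ℝ}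
    (hu : ∀ f, ‖(u f).q - 1‖ ≤ s) :
    FO (lnP V p μ k) (lnP (u * V) p μ k) (dL V p μ k (imF u)) (k * s) := by
  induction k with
  | zero => simpa [dL, lnP] using FO.one
  | succ k ih =>
    rw [dL, sum_range_succ, lnP, lnP]
    push_cast
    rw [add_mul, one_mul]
    exact ih.mul (FO.link _ (hu _))

end Pool.Agent.Lib.MP_7f377f_mp.RG.D3.Dt
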