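import Pool.Agent.Lib.MP_7f377f_mp.R3DetA

/-! The linearised block averaging modulo gauge transformations. -/

noncomputable section

namespace Pool.Agent.Lib.MP_7f377f_mp.RG.D3.Dt

open Finset D3.Pv
open scoped Quaternion

attribute [local irreducible] box lbox

/-- the shift as a linear map -/
def shH (x : St) : (Lk → ℍ) →ₗ[ℝ] (Lk → ℍ) := LinearMap.funLeft ℝ ℍ fun e => (e.1 + x, e.2)

theorem shH_apply (x : St) (ξ : Lk → ℍ) : shH x ξ = sh x ξ := rfl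

/-- mean over a block -/
def mean (l : ℕ) (f : St → ℍ) : ℍ := ((LL l : ℝ) ^ 3)⁻¹ • ∑ t ∈ box l, f t

variable {l : ℕ} {μ : Fin 3} {V u : Conf} {c s : ℝ}

theorem L3_pos (l : ℕ) : (0 : ℝ) < (LL l : ℝ) ^ 3 := by have := LL_pos l; positivity

theorem card_L3 (l : ℕ) : ((box l).card : ℝ) = (LL l : ℝ) ^ 3 := by
  rw [card_box, LL]; push_cast; ring

theorem LL_real (l : ℕ) : (LL l : ℝ) = 2 * l + 1 := by simp [LL]

theorem norm_mean {f : St → ℍ} {g : St → ℝ} (h : ∀ t ∈ box l, ‖f t‖ ≤ g t) :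
    ‖mean l f‖ ≤ ((LL l : ℝ) ^ 3)⁻¹ * ∑ t ∈ box l, g t := by
  rw [mean, norm_smul, norm_inv, Real.norm_of_nonneg (L3_pos l).le]
  exact mul_le_mul_of_nonneg_left (norm_sum_le_of_le _ h) (inv_pos.2 (L3_pos l)).le

theorem norm_mean_le {f : St → ℍ} {a : ℝ} (h : ∀ t ∈ box l, ‖f t‖ ≤ a) : ‖mean l f‖ ≤ a :=
  (norm_mean h).trans_eq (by
    rw [sum_const, nsmul_eq_mul, card_L3, inv_mul_cancel_left₀ (L3_pos l).ne'])

theorem mean_sub (f g : St → ℍ) : mean l f - mean l g = mean l fun t => f t - g t := by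
  simp only [mean, sum_sub_distrib, smul_sub]

theorem mean_add (f g : St → ℍ) : mean l f + mean l g = mean l fun t => f t + g t := by
  simp only [mean, sum_add_distrib, smul_add]

theorem mean_lin (A : ℍ →ₗ[ℝ] ℍ) (f : St → ℍ) : A (mean l f) = mean l fun t => A (f t) := by
  simp only [mean, map_smul, map_sum]

theorem mean_smul (r : ℝ) (f : St → ℍ) : r • mean l f = mean l fun t => r • f t :=
  mean_lin (r • LinearMap.id) f

theorem mean_mul (f : St → ℍ) (r : ℍ) : mean l f * r = mean l fun t => f t * r :=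
  mean_lin (LinearMap.mulRight ℝ r) f

theorem avq_mean (l : ℕ) (μ : Fin 3) (V : Conf) : avq l μ V = mean l fun t => (tm l μ V t).q := rfl

/-- derivative of one term of the average -/
def xt (l : ℕ) (μ : Fin 3) (V : Conf) (t : St) : (Lk → ℍ) →ₗ[ℝ] ℍ :=
  dC l V t + ad (cmb Inv.inv V t) ∘ₗ dL V t μ (LL l) -
    ad (tm l μ V t) ∘ₗ dC l (sh (up l (un μ)) V) t ∘ₗ shH (up l (un μ))

theorem xt_fo {t : St} (ht : t ∈ box l) (hu : ∀ f, ‖(u f).q - 1‖ ≤ s) :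
    FO (tm l μ V t) (tm l μ (u * V) t) (xt l μ V t (imF u)) (5 * LL l * s) := by
  have s0 : 0 ≤ s := (norm_nonneg _).trans (hu 0)
  have := ((dC_fo V ht hu).mul (dL_fo V t μ (LL l) hu)).mul
    (dC_fo (u := sh (up l (un μ)) u) (sh (up l (un μ)) V) ht fun f => hu _).inv
  rw [map_neg, ← ad_mul, ← sub_eq_add_neg] at this
  exact this.mono (by rw [LL_real]; nlinarith)

/-- the infinitesimal gauge transformation -/
def lamb (l : ℕ) (V : Conf) : (Lk → ℍ) →ₗ[ℝ] ℍ := ((LL l : ℝ) ^ 3)⁻¹ • ∑ t ∈ box l, dC l V t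

theorem lamb_apply (ξ : Lk → ℍ) : lamb l V ξ = mean l fun t => dC l V t ξ := by
  simp [lamb, mean, LinearMap.sum_apply]

/-- derivative of the average -/
def zl (l : ℕ) (μ : Fin 3) (V : Conf) : (Lk → ℍ) →ₗ[ℝ] ℍ := ((LL l : ℝ) ^ 3)⁻¹ • ∑ t ∈ box l,
  LinearMap.mulRight ℝ (tm l μ V t * (av l μ V)⁻¹).q ∘ₗ xt l μ V t

theorem zl_apply (ξ : Lk → ℍ) :
    zl l μ V ξ = mean l fun t => xt l μ V t ξ * (tm l μ V t * (av l μ V)⁻¹).q := by
  simp [zl, mean, LinearMap.sum_apply]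

/-- the linearised averaging for the link at the origin -/
def T0 (l : ℕ) (μ : Fin 3) (V : Conf) : (Lk → ℍ) →ₗ[ℝ] ℍ :=
  imL ∘ₗ (‖avq l μ V‖⁻¹ • zl l μ V - lamb l V +
    ad (av l μ V) ∘ₗ lamb l (sh (up l (un μ)) V) ∘ₗ shH (up l (un μ)))

theorem small_c (hc : 0 ≤ c) (h5 : 500 * (LL l : ℝ) ^ 5 * c ≤ 1) :
    500 * (LL l : ℝ) ^ 2 * c ≤ 1 := by
  have : (1 : ℝ) ≤ LL l := by exact_mod_cast LL_pos l
  refine le_trans ?_ h5
  gcongr
  norm_num

theorem curv_nonneg (h : curvG c V) : 0 ≤ c := (norm_nonneg _).trans (h 0 0 0)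

theorem tm_av (h : curvG c V) {t : St} (ht : t ∈ box l) :
    ‖(tm l μ V t * (av l μ V)⁻¹).q - 1‖ ≤ 6 * (LL l : ℝ) ^ 2 * c := by
  have c0 := curv_nonneg h
  have h1 := tm_near (l := l) (μ := μ) (fun x ν _ => h x ν μ) t ht
  have h2 := av_near (l := l) (μ := μ) c0 fun x ν _ => h x ν μ
  rw [← S3.norm_sub] at h2 ⊢
  have h3 := norm_sub_le_norm_sub_add_norm_sub (tm l μ V t).q (lnP V 0 μ (LL l)).q (av l μ V).q
  rw [norm_sub_rev (lnP V 0 μ (LL l)).q] at h3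
  have h4 : (D3.ht t : ℝ) ≤ 4 * l := by exact_mod_cast ht_le ht
  have h5 : 0 ≤ (LL l : ℝ) * c := by positivity
  have := LL_real l
  nlinarith [mul_le_mul_of_nonneg_right h4 h5]

theorem norm_avq (h : curvG c V) : |‖avq l μ V‖ - 1| ≤ 2 * (LL l : ℝ) ^ 2 * c := by
  have c0 := curv_nonneg h
  have h1 := avq_near (l := l) (μ := μ) c0 fun x ν _ => h x ν μ
  have h2 := abs_norm_sub_norm_le (avq l μ V) (lnP V 0 μ (LL l)).q
  rw [S3.norm_q] at h2
  have h5 : 0 ≤ (LL l : ℝ) * c := by positivity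
  have := LL_real l
  nlinarith

theorem half_le (h : curvG c V) (h2 : 500 * (LL l : ℝ) ^ 2 * c ≤ 1) : 2⁻¹ ≤ ‖avq l μ V‖ := by
  have := (abs_le.1 (norm_avq (l := l) (μ := μ) h)).1
  linarith

theorem av_q (h : avq l μ V ≠ 0) : (av l μ V).q = ‖avq l μ V‖⁻¹ • avq l μ V := by
  rw [M3.av_eq, if_neg h, Ms.nrq_q h]

theorem av_fo (h : curvG c V) (h2 : 500 * (LL l : ℝ) ^ 2 * c ≤ 1) (hu : ∀ f, ‖(u f).q - 1‖ ≤ s)
    (hs : 100 * LL l * s ≤ 1) : FO (av l μ V) (av l μ (u * V))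
      (‖avq l μ V‖⁻¹ • (zl l μ V (imF u)).im) (25 * LL l * s) := by
  have hq := half_le (μ := μ) h h2
  have s0 : 0 ≤ s := (norm_nonneg _).trans (hu 0)
  set a := 5 * LL l * s with ha
  have a0 : 0 ≤ a := by positivity
  have a1 : a ≤ 1 / 20 := by linarith
  set q := ‖avq l μ V‖ with hqd
  have q0 : 0 < q := by linarith
  have ne : avq l μ V ≠ 0 := norm_pos_iff.1 q0
  set W := av l μ V with hW
  have e1 : avq l μ V * W⁻¹.q = q := by
    have : avq l μ V = q • W.q := by rw [hW, av_q ne, smul_smul, mul_inv_cancel₀ q0.ne', one_smul]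
    rw [this, smul_mul_assoc, ← S3.q_mul, mul_inv_cancel, S3.q_one]
    ext <;> simp
  set z := avq l μ (u * V) * W⁻¹.q - q with hz
  have e2 : z = mean l fun t => ((tm l μ (u * V) t * (tm l μ V t)⁻¹).q - 1) *
      (tm l μ V t * W⁻¹).q := by
    rw [hz, ← e1, avq_mean, avq_mean, mean_mul, mean_mul, mean_sub]
    congr 1
    funext t
    rw [sub_mul, one_mul, ← S3.q_mul, ← S3.q_mul, ← S3.q_mul]
    congr 2
    group
  have n1 : ‖z‖ ≤ a := e2 ▸ norm_mean_le fun t ht => by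
    rw [norm_mul, S3.norm_q, mul_one]
    exact (xt_fo ht hu).z
  have n2 : ‖z - zl l μ V (imF u)‖ ≤ a ^ 2 := by
    rw [e2, zl_apply, mean_sub]
    refine norm_mean_le fun t ht => ?_
    rw [← sub_mul, norm_mul, S3.norm_q, mul_one]
    exact (xt_fo ht hu).o
  have e3 : avq l μ (u * V) * W⁻¹.q = q + z := by rw [hz, add_sub_cancel]
  have nz : ‖(q : ℍ) + z‖ = ‖avq l μ (u * V)‖ := by rw [← e3, norm_mul, S3.norm_q, mul_one]
  have ne2 : (q : ℍ) + z ≠ 0 := by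
    have := norm_sub_norm_le (q : ℍ) (-z)
    rw [sub_neg_eq_add, norm_neg, Quaternion.norm_coe, Real.norm_of_nonneg q0.le] at this
    exact norm_pos_iff.1 (by linarith)
  have ne3 : avq l μ (u * V) ≠ 0 := norm_pos_iff.1 (nz ▸ norm_pos_iff.2 ne2)
  have e4 : (av l μ (u * V) * W⁻¹).q = (Ms.nrq (q + z)).q := by
    rw [S3.q_mul, av_q ne3, Ms.nrq_q ne2, nz, smul_mul_assoc, e3]
  have k1 := nrq_fo hq n1 (by linarith)
  have hq2 : q⁻¹ ≤ 2 := inv_le_of_inv_le₀ (by norm_num) hq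
  have k2 : ‖q⁻¹ • z.im - q⁻¹ • (zl l μ V (imF u)).im‖ ≤ 2 * a ^ 2 := by
    rw [← smul_sub, ← Quaternion.im_sub, norm_smul, Real.norm_of_nonneg (inv_pos.2 q0).le]
    exact mul_le_mul hq2 ((norm_im_le _).trans n2) (norm_nonneg _) (by norm_num)
  have k3 : ‖q⁻¹ • z.im‖ ≤ 2 * a := by
    rw [norm_smul, Real.norm_of_nonneg (inv_pos.2 q0).le]
    exact mul_le_mul hq2 ((norm_im_le _).trans n1) (norm_nonneg _) (by norm_num)
  rw [show 25 * LL l * s = 5 * a by rw [ha]; ring]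
  refine ⟨by simp, ?_, ?_⟩ <;> rw [e4]
  · have := norm_add_le ((Ms.nrq (q + z)).q - 1 - q⁻¹ • z.im) (q⁻¹ • z.im)
    rw [sub_add_cancel] at this
    nlinarith
  · have := norm_add_le ((Ms.nrq (q + z)).q - 1 - q⁻¹ • z.im)
      (q⁻¹ • z.im - q⁻¹ • (zl l μ V (imF u)).im)
    rw [sub_add_sub_cancel] at this
    nlinarith

theorem lamb_re (hu : ∀ f, ‖(u f).q - 1‖ ≤ s) : (lamb l V (imF u)).re = 0 := by
  rw [lamb_apply, mean, Quaternion.re_smul, ← Quaternion.coe_injective.eq_iff]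
  have : (∑ t ∈ box l, dC l V t (imF u)).re = 0 :=
    sum_induction _ (fun q : ℍ => q.re = 0) (fun a b ha hb => by simp [ha, hb]) rfl
      fun t ht => (dC_fo V ht hu).im
  simp [this]

theorem lamb_fo (hu : ∀ f, ‖(u f).q - 1‖ ≤ s) (hs : 100 * LL l * s ≤ 1) :
    FO 1 (Ms.nrq (1 + lamb l V (imF u))) (lamb l V (imF u)) (10 * LL l * s) := by
  have s0 : 0 ≤ s := (norm_nonneg _).trans (hu 0)
  have : ‖lamb l V (imF u)‖ ≤ 2 * LL l * s := by
    rw [lamb_apply]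
    refine norm_mean_le fun t ht => (dC_bd V ht fun e _ => norm_imF (hu e)).trans ?_
    rw [LL_real]
    nlinarith
  exact (FO.nrq (lamb_re hu) this (by linarith)).mono (by linarith)

theorem T0_fo (h : curvG c V) (h2 : 500 * (LL l : ℝ) ^ 2 * c ≤ 1) (hu : ∀ f, ‖(u f).q - 1‖ ≤ s)
    (hs : 100 * LL l * s ≤ 1) : FO (av l μ V) ((Ms.nrq (1 + lamb l V (imF u)))⁻¹ * av l μ (u * V) *
      Ms.nrq (1 + lamb l (sh (up l (un μ)) V) (imF (sh (up l (un μ)) u))))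
      (T0 l μ V (imF u)) (45 * LL l * s) := by
  have h3 : ∀ f, ‖(sh (up l (un μ)) u f).q - 1‖ ≤ s := fun f => hu _
  have := ((lamb_fo (V := V) hu hs).inv.mul (av_fo (μ := μ) h h2 hu hs)).mul
    (lamb_fo (V := sh (up l (un μ)) V) h3 hs)
  simp only [inv_one, one_mul, mul_one, ad_one] at this
  convert this using 1
  · have r1 := im_of_re (lamb_re (l := l) (V := V) hu)
    have r2 := im_of_re ((re_ad (av l μ V) _).trans (lamb_re (l := l) (V := sh (up l (un μ)) V) h3))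
    simp only [T0, LinearMap.comp_apply, LinearMap.add_apply, LinearMap.sub_apply,
      LinearMap.smul_apply, imL_apply, Quaternion.im_add, Quaternion.im_sub, Quaternion.im_smul, r1]
    rw [show shH (up l (un μ)) (imF u) = imF (sh (up l (un μ)) u) from rfl, r2]
    abel
  · ring

theorem T0_bd (h : curvG c V) (h2 : 500 * (LL l : ℝ) ^ 2 * c ≤ 1) {ξ : Lk → ℍ} {a b : ℝ}
    (ha : Sm l a ξ) (hb : Sm l b (sh (up l (un μ)) ξ)) :
    ‖T0 l μ V ξ‖ ≤ (1 + 24 * (LL l : ℝ) ^ 2 * c) * (((LL l : ℝ) ^ 3)⁻¹ * ∑ t ∈ box l,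
      ∑ i ∈ range (LL l), ‖ξ (t + (i : ℤ) • un μ, μ)‖) + 72 * (LL l : ℝ) ^ 3 * c * (a + b) := by
  have c0 := curv_nonneg h
  have hq := half_le (μ := μ) h h2
  have hq1 := norm_avq (l := l) (μ := μ) h
  set q := ‖avq l μ V‖ with hqd
  have q0 : 0 < q := by linarith
  have hq2 : q⁻¹ ≤ 2 := inv_le_of_inv_le₀ (by norm_num) hq
  set e := 6 * (LL l : ℝ) ^ 2 * c with he
  have e0 : 0 ≤ e := by positivity
  refine (norm_im_le _).trans ?_
  simp only [LinearMap.comp_apply, LinearMap.add_apply, LinearMap.sub_apply, LinearMap.smul_apply,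
    zl_apply, lamb_apply, mean_lin, mean_smul, mean_sub, mean_add, shH_apply]
  refine (norm_mean (g := fun t => (1 + 4 * e) * ∑ i ∈ range (LL l), ‖ξ (t + (i : ℤ) • un μ, μ)‖ +
    72 * (LL l : ℝ) ^ 3 * c * (a + b)) fun t ht => ?_).trans_eq ?_
  · have k1 := dC_bd V ht ha
    have k2 := dC_bd (sh (up l (un μ)) V) ht hb
    have k3 := dL_bd V t μ (LL l) ξ
    have k4 := tm_av (μ := μ) h ht
    set P := tm l μ V t with hP
    set W := av l μ V with hW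
    set c1 := dC l V t ξ
    set c2 := dC l (sh (up l (un μ)) V) t (sh (up l (un μ)) ξ) with hc2
    set S := ∑ i ∈ range (LL l), ‖ξ (t + (i : ℤ) • un μ, μ)‖
    have ex : xt l μ V t ξ = c1 + ad (cmb Inv.inv V t) (dL V t μ (LL l) ξ) - ad P c2 := rfl
    set d := ad (cmb Inv.inv V t) (dL V t μ (LL l) ξ) with hd
    have nd : ‖d‖ ≤ S := by rw [hd, norm_ad]; exact k3
    have nx : ‖xt l μ V t ξ‖ ≤ ‖c1‖ + S + ‖c2‖ := by
      rw [ex]
      exact (norm_sub_le _ _).trans (add_le_add ((norm_add_le _ _).trans (add_le_add le_rfl nd))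
        (norm_ad _ _).le)
    have k5 : ‖q⁻¹ • (P * W⁻¹).q - 1‖ ≤ 4 * e := by
      have : q⁻¹ • (P * W⁻¹).q - 1 = q⁻¹ • (((P * W⁻¹).q - 1) - ((q - 1 : ℝ) : ℍ)) := by
        ext <;> simp
        field_simp
      rw [this, norm_smul, Real.norm_of_nonneg (inv_pos.2 q0).le]
      have h3 := (norm_sub_le ((P * W⁻¹).q - 1) ((q - 1 : ℝ) : ℍ)).trans (add_le_add k4
        ((Quaternion.norm_coe _).trans_le hq1))
      nlinarith [mul_le_mul hq2 h3 (norm_nonneg _) (by norm_num)]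
    have k6 : ‖ad W c2 - ad P c2‖ ≤ 2 * e * ‖c2‖ := by
      refine (ad_sub _ _ _).trans ?_
      rw [norm_sub_rev, S3.norm_sub]
      gcongr
    have e1 : q⁻¹ • (xt l μ V t ξ * (P * W⁻¹).q) - c1 + ad W c2 =
        xt l μ V t ξ * (q⁻¹ • (P * W⁻¹).q - 1) + (d + (ad W c2 - ad P c2)) := by
      rw [mul_sub, mul_one, mul_smul_comm, ex]
      abel
    rw [e1]
    have k7 := (norm_mul_le _ _).trans (mul_le_mul nx k5 (norm_nonneg _) (by
      linarith [norm_nonneg c1, norm_nonneg c2, norm_nonneg d]))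
    refine (norm_add_le _ _).trans ((add_le_add k7 ((norm_add_le _ _).trans
      (add_le_add nd k6))).trans ?_)
    have k8 : 72 * (LL l : ℝ) ^ 3 * c * (a + b) = 6 * e * (2 * LL l * (a + b)) := by rw [he]; ring
    have k9 : ‖c1‖ + ‖c2‖ ≤ 2 * LL l * (a + b) := by
      rw [LL_real]
      nlinarith [ha.nonneg, hb.nonneg]
    rw [k8]
    nlinarith [mul_le_mul_of_nonneg_left k9 e0, mul_nonneg e0 (norm_nonneg c1)]
  · rw [sum_add_distrib, sum_const, nsmul_eq_mul, card_L3, mul_add,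
      inv_mul_cancel_left₀ (L3_pos l).ne', ← mul_sum, he]
    ring

end Pool.Agent.Lib.MP_7f377f_mp.RG.D3.Dt
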