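import Pool.Agent.Lib.MP_7f377f_mp.R3DetB
import Pool.Agent.Lib.MP_7f377f_mp.R3MeasLaw

/-! The linearised averaging on the torus and its iterates. -/

noncomputable section

namespace Pool.Agent.Lib.MP_7f377f_mp.RG.D3.Dt

open Finset D3.Pv
open scoped Quaternion

attribute [local irreducible] box lbox cube

variable {l n : ℕ} {V u : Conf} {c s : ℝ} {ξ : Lk → ℍ}

/-- the linearised averaging -/
def TL (l : ℕ) (V : Conf) : (Lk → ℍ) →ₗ[ℝ] (Lk → ℍ) :=
  LinearMap.pi fun b => T0 l b.2 (sh (up l b.1) V) ∘ₗ shH (up l b.1)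

theorem TL_apply (b : Lk) : TL l V ξ b = T0 l b.2 (sh (up l b.1) V) (sh (up l b.1) ξ) := rfl

theorem sh_up {α : Type} {U : Lk → α} (h : Per (LL l * n) U) (y v : St) :
    sh (up l (y + (n : ℤ) • v)) U = sh (up l y) U := by
  rw [up_add, SX.up_smul, SX.per_sh h]

theorem TL_per (hV : Per (LL l * n) V) (hξ : Per (LL l * n) ξ) : Per n (TL l V ξ) := fun μ => by
  funext b
  rw [sh_apply, TL_apply, TL_apply, sh_up hV, sh_up hξ]

theorem blk_per (hV : Per (LL l * n) V) : Per n (blk l V) := fun μ => by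
  funext b
  simp only [sh_apply, blk, sh_up hV]

theorem curv_sh (h : curvG c V) (y : St) : curvG c (sh y V) := fun x μ ν => by
  have : hol Inv.inv (sh y V) x μ ν = hol Inv.inv V (x + y) μ ν := by
    simp only [hol, sh_apply, add_right_comm x y]
  rw [this]
  exact h _ _ _

theorem TL_sup (h : curvG c V) (h5 : 500 * (LL l : ℝ) ^ 5 * c ≤ 1) {a : ℝ} (hξ : ∀ e, ‖ξ e‖ ≤ a)
    (b : Lk) : ‖TL l V ξ b‖ ≤ 2 * LL l * a := by
  have c0 := curv_nonneg h
  have h2 := small_c c0 h5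
  have a0 : 0 ≤ a := (norm_nonneg _).trans (hξ 0)
  refine (T0_bd (ξ := sh (up l b.1) ξ) (a := a) (b := a) (curv_sh h _) h2 (fun e _ => hξ _)
    fun e _ => hξ _).trans ?_
  have : ((LL l : ℝ) ^ 3)⁻¹ * ∑ t ∈ box l, ∑ i ∈ range (LL l),
      ‖sh (up l b.1) ξ (t + (i : ℤ) • un b.2, b.2)‖ ≤ LL l * a := by
    rw [inv_mul_le_iff₀ (L3_pos l), ← card_L3, ← nsmul_eq_mul]
    refine sum_le_card_nsmul _ _ _ fun t _ => (sum_le_card_nsmul _ _ _ fun i _ => hξ _).trans_eq ?_
    rw [card_range, nsmul_eq_mul]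
  have h3 : 0 ≤ LL l * a := by positivity
  nlinarith [mul_le_mul_of_nonneg_left this (show 0 ≤ 1 + 24 * (LL l : ℝ) ^ 2 * c by positivity),
    mul_le_mul_of_nonneg_right h2 h3]

/-- the sum of the norms over a period -/
def n1 (n : ℕ) (ξ : Lk → ℍ) : ℝ := ∑ e ∈ lcube n, ‖ξ e‖

theorem n1_eq (n : ℕ) (ξ : Lk → ℍ) : n1 n ξ = ∑ x ∈ cube n, ∑ μ, ‖ξ (x, μ)‖ := sum_product _ _ _

theorem n1_nonneg (n : ℕ) (ξ : Lk → ℍ) : 0 ≤ n1 n ξ := sum_nonneg fun _ _ => norm_nonneg _

theorem per_app {α : Type} {U : Lk → α} (h : Per n U) (x v : St) (μ : Fin 3) :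
    U (x + (n : ℤ) • v, μ) = U (x, μ) := congrFun (h.sh_smul v) (x, μ)

theorem TL_one (hn : 0 < n) (h : curvG c V) (h5 : 500 * (LL l : ℝ) ^ 5 * c ≤ 1)
    (hξ : Per (LL l * n) ξ) : n1 n (TL l V ξ) ≤ 2 / (LL l : ℝ) ^ 2 * n1 (LL l * n) ξ := by
  have c0 := curv_nonneg h
  have h2 := small_c c0 h5
  set S : St → ℝ := fun y => ∑ t ∈ box l, ∑ μ, ‖ξ (t + up l y, μ)‖ with hS
  have hSm : ∀ y, Sm l (S y) (sh (up l y) ξ) := fun y e he =>
    (single_le_sum (f := fun μ => ‖ξ (e.1 + up l y, μ)‖) (fun _ _ => norm_nonneg _)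
      (mem_univ e.2)).trans (single_le_sum (f := fun t => ∑ μ, ‖ξ (t + up l y, μ)‖)
        (fun _ _ => sum_nonneg fun _ _ => norm_nonneg _) (mem_lbox.1 he))
  have s1 : ∑ y ∈ cube n, S y = n1 (LL l * n) ξ := by
    rw [n1_eq, SX.sum_blocks l hn fun x v => by simp only [per_app hξ]]
  have s2 : ∀ μ, ∑ y ∈ cube n, S (y + un μ) = n1 (LL l * n) ξ := fun μ => by
    rw [← s1]
    refine sum_cube_add (fun x v => ?_) _
    simp only [hS, up_add, SX.up_smul, ← add_assoc, per_app hξ]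
  have s3 : ∑ y ∈ cube n, ∑ μ, ∑ t ∈ box l, ∑ i ∈ range (LL l),
      ‖sh (up l y) ξ (t + (i : ℤ) • un μ, μ)‖ = LL l * n1 (LL l * n) ξ := by
    have : ∀ μ (i : ℕ), ∑ y ∈ cube n, ∑ t ∈ box l, ‖sh (up l y) ξ (t + (i : ℤ) • un μ, μ)‖ =
        ∑ x ∈ cube (LL l * n), ‖ξ (x, μ)‖ := fun μ i => by
      rw [← sum_cube_add (f := fun x => ‖ξ (x, μ)‖) (fun x v => by rw [per_app hξ])
        ((i : ℤ) • un μ), SX.sum_blocks l hn fun x v => by rw [add_right_comm, per_app hξ]]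
      simp only [sh_apply, add_right_comm _ _ (up l _)]
    rw [sum_comm, n1_eq, sum_comm (s := cube (LL l * n)), mul_sum]
    refine sum_congr rfl fun μ _ => ?_
    simp only [sum_comm (s := box l)]
    rw [sum_comm]
    simp only [this, sum_const, card_range, nsmul_eq_mul]
  rw [n1_eq]
  refine (sum_le_sum fun y _ => sum_le_sum fun μ _ => T0_bd (curv_sh h (up l y)) h2 (hSm y)
    (b := S (y + un μ)) (by rw [sh_sh, ← up_add, add_comm]; exact hSm _)).trans ?_
  simp only [sum_add_distrib, ← mul_sum, s3]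
  rw [sum_comm (s := cube n), sum_comm (s := cube n) (f := fun x μ => S (x + un μ))]
  simp only [s2, s1, sum_const, card_univ, Fintype.card_fin, nsmul_eq_mul]
  have L0 : (0 : ℝ) < LL l := by exact_mod_cast LL_pos l
  have L1 : (1 : ℝ) ≤ LL l := by exact_mod_cast LL_pos l
  have N0 := n1_nonneg (LL l * n) ξ
  generalize n1 (LL l * n) ξ = N at *
  have : (1 + 24 * (LL l : ℝ) ^ 2 * c) * (((LL l : ℝ) ^ 3)⁻¹ * (LL l * N)) +
      72 * (LL l : ℝ) ^ 3 * c * ((3 : ℕ) * N + (3 : ℕ) * N) =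
      (1 + 24 * (LL l : ℝ) ^ 2 * c + 432 * (LL l : ℝ) ^ 5 * c) / (LL l : ℝ) ^ 2 * N := by
    push_cast
    field_simp
    ring
  rw [this]
  have : (LL l : ℝ) ^ 2 * c ≤ (LL l : ℝ) ^ 5 * c := by gcongr; norm_num
  gcongr
  linarith

/-- the gauge transformation produced by a perturbation -/
def gg (l : ℕ) (V u : Conf) (y : St) : S3 :=
  Ms.nrq (1 + lamb l (sh (up l y) V) (imF (sh (up l y) u)))

/-- the perturbation of the averaged field -/
def nu (l : ℕ) (V u : Conf) : Conf := fun b =>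
  (gg l V u b.1)⁻¹ * blk l (u * V) b * gg l V u (b.1 + un b.2) * (blk l V b)⁻¹

theorem blk_eq (l : ℕ) (V u : Conf) :
    blk l (u * V) = gauge Inv.inv (gg l V u) (nu l V u * blk l V) := by
  funext b
  simp only [gauge, nu, Pi.mul_apply]
  group

theorem nu_fo (h : curvG c V) (h5 : 500 * (LL l : ℝ) ^ 5 * c ≤ 1) (hu : ∀ f, ‖(u f).q - 1‖ ≤ s)
    (hs : 100 * LL l * s ≤ 1) (b : Lk) : (TL l V (imF u) b).re = 0 ∧
      ‖(nu l V u b).q - 1 - TL l V (imF u) b‖ ≤ (45 * LL l * s) ^ 2 := by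
  have := T0_fo (μ := b.2) (u := sh (up l b.1) u) (curv_sh h (up l b.1))
    (small_c (curv_nonneg h) h5) (fun f => hu _) hs
  rw [sh_sh, sh_sh, ← up_add, add_comm (un b.2)] at this
  exact ⟨this.im, this.o⟩

/-- periodic functions of the sites -/
def PerS (n : ℕ) (h : St → S3) : Prop := ∀ x v, h (x + (n : ℤ) • v) = h x

theorem gg_per (hV : Per (LL l * n) V) (hu : Per (LL l * n) u) : PerS n (gg l V u) :=
  fun x v => by simp only [gg, sh_up hV, sh_up hu]

theorem per_mul (hu : Per n u) (hV : Per n V) : Per n (u * V) := fun μ => by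
  funext e
  simp only [sh_apply, Pi.mul_apply, per_app hu, per_app hV]

theorem nu_per (hV : Per (LL l * n) V) (hu : Per (LL l * n) u) : Per n (nu l V u) := fun μ => by
  funext b
  simp only [sh_apply, nu, add_right_comm b.1 _ (un b.2), gg_per hV hu _ _,
    per_app (blk_per hV), per_app (blk_per (per_mul hu hV))]

/-- averaging from level `v + m` down to level `v` -/
def dn : ℕ → ℕ → Conf → Conf
  | _, 0, W => W
  | v, m + 1, W => blk (ll v) (dn (v + 1) m W)

theorem dn_succ (v m : ℕ) (W : Conf) : dn v (m + 1) W = dn v m (blk (ll (v + m)) W) := by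
  induction m generalizing v with
  | zero => rfl
  | succ m ih => rw [dn, ih, dn, show v + 1 + m = v + (m + 1) by ring]

theorem dn_add (v m k : ℕ) (W : Conf) : dn v (m + k) W = dn v m (dn (v + m) k W) := by
  induction m generalizing v with
  | zero => rw [zero_add]; rfl
  | succ m ih => rw [add_right_comm, dn, ih, dn, show v + 1 + m = v + (m + 1) by ring]

theorem meas_dn (v m : ℕ) : Measurable (dn v m) := by
  induction m generalizing v with
  | zero => exact measurable_id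
  | succ m ih => exact (measurable_blk _).comp (ih _)

theorem dn_per {v m : ℕ} (h : Per (nn (v + m)) V) : Per (nn v) (dn v m V) := by
  induction m generalizing v with
  | zero => exact h
  | succ m ih =>
    refine blk_per ?_
    rw [← M3.nn_succ]
    exact ih (by rwa [add_right_comm])

/-- the iterated linearised averaging -/
def TM (V : Conf) : ℕ → ℕ → (Lk → ℍ) →ₗ[ℝ] (Lk → ℍ)
  | _, 0 => LinearMap.id
  | v, m + 1 => TL (ll v) (dn (v + 1) m V) ∘ₗ TM V (v + 1) m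

/-- small curvature along the evolution -/
def Reg (V : Conf) : ℕ → ℕ → Prop
  | _, 0 => True
  | v, m + 1 => (∃ c, curvG c (dn (v + 1) m V) ∧ 500 * (LL (ll v) : ℝ) ^ 5 * c ≤ 1) ∧
      Reg V (v + 1) m

theorem nn_real (v : ℕ) : (nn (v + 1) : ℝ) = LL (ll v) * nn v := by
  rw [M3.nn_succ, Nat.cast_mul]

theorem nn_pos' (v : ℕ) : (0 : ℝ) < nn v := by exact_mod_cast M3.nn_pos v

theorem LL_pos' (l : ℕ) : (0 : ℝ) < LL l := by exact_mod_cast LL_pos l

theorem TM_sup {v m : ℕ} (h : Reg V v m) {a : ℝ} (hξ : ∀ e, ‖ξ e‖ ≤ a) (b : Lk) :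
    ‖TM V v m ξ b‖ ≤ 2 ^ m * (nn (v + m) / nn v) * a := by
  induction m generalizing v b with
  | zero => simpa [TM, (nn_pos' v).ne'] using hξ b
  | succ m ih =>
    obtain ⟨⟨c, h1, h2⟩, h3⟩ := h
    refine (TL_sup h1 h2 (ih h3) b).trans_eq ?_
    have := nn_pos' v
    have := LL_pos' (ll v)
    rw [nn_real, add_right_comm, add_assoc]
    field_simp
    ring

theorem TM_per {v m : ℕ} (hV : Per (nn (v + m)) V) (hξ : Per (nn (v + m)) ξ) :
    Per (nn v) (TM V v m ξ) := by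
  induction m generalizing v with
  | zero => exact hξ
  | succ m ih =>
    rw [← add_assoc, add_right_comm] at hV hξ
    exact TL_per (M3.nn_succ v ▸ dn_per hV) (M3.nn_succ v ▸ ih hV hξ)

theorem TM_one {v m : ℕ} (h : Reg V v m) (hV : Per (nn (v + m)) V) (hξ : Per (nn (v + m)) ξ) :
    n1 (nn v) (TM V v m ξ) ≤ 2 ^ m * ((nn v : ℝ) / nn (v + m)) ^ 2 * n1 (nn (v + m)) ξ := by
  induction m generalizing v with
  | zero => simp [TM, (nn_pos' v).ne']
  | succ m ih =>
    obtain ⟨⟨c, h1, h2⟩, h3⟩ := h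
    rw [← add_assoc, add_right_comm] at hV hξ ⊢
    refine (TL_one (M3.nn_pos v) h1 h2 (M3.nn_succ v ▸ TM_per hV hξ)).trans ?_
    rw [← M3.nn_succ]
    refine (mul_le_mul_of_nonneg_left (ih h3 hV hξ) (by positivity)).trans_eq ?_
    have := nn_pos' (v + 1 + m)
    have := LL_pos' (ll v)
    rw [nn_real v]
    field_simp
    ring

end Pool.Agent.Lib.MP_7f377f_mp.RG.D3.Dt
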