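import Pool.Agent.Lib.MP_7f377f_mp.R3DetC

/-! Concentration of linear functionals of the noise. -/

noncomputable section

namespace Pool.Agent.Lib.MP_7f377f_mp.RG.D3.Dt

open Finset MeasureTheory ProbabilityTheory D3.Pv M3
open scoped Quaternion ENNReal NNReal RealInnerProductSpace

attribute [local irreducible] box lbox cube

local instance : MeasurableSpace ℍ := borel _
local instance : BorelSpace ℍ := ⟨rfl⟩

/-- truncated imaginary part -/
def trc (s : ℝ) (g : S3) : ℍ := if ‖g.q - 1‖ ≤ s then g.q.im else 0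

theorem norm_trc {s : ℝ} (hs : 0 ≤ s) (g : S3) : ‖trc s g‖ ≤ s := by
  unfold trc
  split_ifs with h
  · exact norm_imF (u := fun _ => g) (e := 0) h
  · simpa

theorem trc_inv (s : ℝ) (g : S3) : trc s g⁻¹ = -trc s g := by
  unfold trc
  rw [S3.norm_inv_sub, S3.q_inv]
  split_ifs <;> simp

theorem meas_trc (s : ℝ) : Measurable (trc s) :=
  Measurable.ite (measurableSet_le Ms.meas_nsub measurable_const)
    (Quaternion.continuous_im.comp Ms.cont_q).measurable measurable_const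

theorem int_odd (a : ℝ) {f : S3 → ℝ} (h : ∀ g, f g⁻¹ = -f g) :
    ∫ g, f g ∂haar.withDensity (hk a) = 0 := by
  have : (haar.withDensity (hk a)).IsInvInvariant := ⟨by
    refine Measure.ext_of_lintegral _ fun F hF => ?_
    rw [Measure.inv, lintegral_map hF measurable_inv,
      lintegral_withDensity_eq_lintegral_mul _ (Ms.meas_hk a) hF,
      lintegral_withDensity_eq_lintegral_mul _ (Ms.meas_hk a) (g := fun g => F g⁻¹)
        (hF.comp measurable_inv), ← lintegral_inv_eq_self]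
    simp only [Pi.mul_apply, inv_inv, RG.Pv.hk_inv]⟩
  have h1 := integral_inv_eq_self f (haar.withDensity (hk a))
  simp only [h, integral_neg] at h1
  linarith

/-- the periodisation as a linear map -/
def perL (n : ℕ) : (Lk → ℍ) →ₗ[ℝ] (Lk → ℍ) :=
  LinearMap.funLeft ℝ ℍ fun e => (fun i => e.1 i % (n : ℤ), e.2)

theorem per_sum {n : ℕ} (hn : 0 < n) (ξ : Lk → ℍ) :
    per n ξ = ∑ f ∈ lcube n, perL n (Pi.single f (ξ f)) := by
  rw [← map_sum]
  funext e
  show _ = (∑ f ∈ lcube n, Pi.single f (ξ f) : Lk → ℍ) _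
  rw [Finset.sum_apply, sum_eq_single_of_mem _ (mod_mem hn e)
    fun f _ hf => Pi.single_eq_of_ne' hf _, Pi.single_eq_same]
  rfl

theorem per_per {α : Type} (n : ℕ) (U : Lk → α) : Per n (per n U) := fun μ => by
  funext e
  simp only [sh_apply, per, Pi.add_apply, Pi.smul_apply, smul_eq_mul, Int.add_mul_emod_self_left]

theorem hoeff {a : ℝ} (ha : 0 ≤ a) {n : ℕ} (hn : 0 < n) (ψ : (Lk → ℍ) →ₗ[ℝ] ℝ) {A B s t : ℝ}
    (hA : ∀ ξ : Lk → ℍ, (∀ e, ‖ξ e‖ ≤ 1) → ψ ξ ≤ A)
    (hB : ∀ ξ : Lk → ℍ, Per n ξ → ψ ξ ≤ B * n1 n ξ) (B0 : 0 ≤ B) (hs : 0 ≤ s) (ht : 0 ≤ t) :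
    (nz a).real {w | t ≤ ψ (per n fun e => trc s (w e))} ≤
      Real.exp (-t ^ 2 / (2 * (A * B * s ^ 2))) := by
  have := prob_hk ha
  have := prob_nz ha
  have A0 : 0 ≤ A := by simpa using hA 0 (by simp)
  obtain ⟨v, hv⟩ : ∃ v : Lk → ℍ, ∀ f x, ψ (perL n (Pi.single f x)) = ⟪v f, x⟫ :=
    ⟨fun f => (InnerProductSpace.toDual ℝ ℍ).symm (LinearMap.toContinuousLinearMap
      (ψ ∘ₗ perL n ∘ₗ LinearMap.single ℝ (fun _ => ℍ) f)), fun f x => by simp⟩
  have e : ∀ ξ : Lk → ℍ, ψ (per n ξ) = ∑ f ∈ lcube n, ⟪v f, ξ f⟫ := fun ξ => by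
    simp only [per_sum hn, map_sum, hv]
  have v1 : ∀ f ∈ lcube n, ‖v f‖ ≤ B := fun f hf => by
    have h1 := hB (per n (Pi.single f (v f))) (per_per _ _)
    have h2 : n1 n (per n (Pi.single f (v f))) = ‖v f‖ := by
      rw [n1, sum_eq_single_of_mem f hf fun e he h => by
        rw [per_of_mem _ he, Pi.single_eq_of_ne h, norm_zero], per_of_mem _ hf, Pi.single_eq_same]
    rw [h2, show per n (Pi.single f (v f)) = perL n (Pi.single f (v f)) from rfl, hv,
      real_inner_self_eq_norm_sq] at h1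
    nlinarith [norm_nonneg (v f)]
  have v2 : ∑ f ∈ lcube n, ‖v f‖ ≤ A := by
    have := hA (per n fun f => ‖v f‖⁻¹ • v f) fun e => by
      show ‖‖v _‖⁻¹ • v _‖ ≤ 1
      rw [norm_smul, norm_inv, norm_norm]
      exact inv_mul_le_one_of_le₀ le_rfl (norm_nonneg _)
    rw [e] at this
    refine le_of_eq_of_le (sum_congr rfl fun f _ => ?_) this
    rw [real_inner_smul_right, real_inner_self_eq_norm_sq]
    rcases eq_or_ne ‖v f‖ 0 with h | h
    · simp [h]
    · field_simp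
  have mY : ∀ f, Measurable fun g => ⟪v f, trc s g⟫ := fun f =>
    (continuous_const.inner continuous_id).measurable.comp (meas_trc s)
  have hi := iIndepFun_infinitePi (P := fun _ : Lk => haar.withDensity (hk a)) mY
  have hg := HasSubgaussianMGF.sum_of_iIndepFun hi (s := lcube n)
    (c := fun f => (‖‖v f‖ * s - -(‖v f‖ * s)‖₊ / 2) ^ 2) fun f _ =>
      hasSubgaussianMGF_of_mem_Icc_of_integral_eq_zero
        ((mY f).comp (measurable_pi_apply f)).aemeasurable
        (.of_forall fun w => abs_le.1 ((abs_real_inner_le_norm _ _).trans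
          (mul_le_mul_of_nonneg_left (norm_trc hs _) (norm_nonneg _)))) (by
        have := int_odd a (f := fun g => ⟪v f, trc s g⟫) fun g => by rw [trc_inv, inner_neg_right]
        rwa [← Measure.infinitePi_map_eval (fun _ : Lk => haar.withDensity (hk a)) f,
          integral_map (measurable_pi_apply f).aemeasurable (mY f).aestronglyMeasurable] at this)
  have hc : ((∑ f ∈ lcube n, (‖‖v f‖ * s - -(‖v f‖ * s)‖₊ / 2) ^ 2 : ℝ≥0) : ℝ) ≤
      A * B * s ^ 2 := by
    push_cast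
    refine (sum_le_sum (g := fun f => ‖v f‖ * (B * s ^ 2)) fun f hf => ?_).trans ?_
    · rw [Real.norm_of_nonneg (by linarith [mul_nonneg (norm_nonneg (v f)) hs])]
      nlinarith [mul_le_mul_of_nonneg_left (v1 f hf) (mul_nonneg (norm_nonneg (v f)) (sq_nonneg s))]
    · rw [← sum_mul, mul_assoc]
      gcongr
  have hg2 : HasSubgaussianMGF (fun w : Conf => ∑ f ∈ lcube n, ⟪v f, trc s (w f)⟫)
      ⟨A * B * s ^ 2, by positivity⟩ (nz a) := ⟨hg.integrable_exp_mul, fun r =>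
    (hg.mgf_le r).trans (by
      refine Real.exp_le_exp.2 ?_
      gcongr
      exact hc)⟩
  simp only [e]
  exact hg2.measure_ge_le ht

/-- the coordinates of a quaternion, with both signs -/
def crd (k : Fin 8) : ℍ →ₗ[ℝ] ℝ where
  toFun q := ![q.re, -q.re, q.imI, -q.imI, q.imJ, -q.imJ, q.imK, -q.imK] k
  map_add' a b := by fin_cases k <;> simp [add_comm]
  map_smul' a b := by fin_cases k <;> simp

theorem crd_le (k : Fin 8) (q : ℍ) : crd k q ≤ ‖q‖ := by
  have h : ‖q‖ ^ 2 = q.re ^ 2 + q.imI ^ 2 + q.imJ ^ 2 + q.imK ^ 2 := by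
    rw [sq, ← Quaternion.normSq_eq_norm_mul_self, Quaternion.normSq_def']
  refine (le_abs_self _).trans (abs_le_of_sq_le_sq ?_ (norm_nonneg _))
  fin_cases k <;> simp [crd, h] <;> nlinarith [sq_nonneg q.re, sq_nonneg q.imI,
    sq_nonneg q.imJ, sq_nonneg q.imK]

theorem norm_le_crd {q : ℍ} {t : ℝ} (h : ∀ k, crd k q ≤ t) : ‖q‖ ≤ 2 * t := by
  have e : ‖q‖ ^ 2 = q.re ^ 2 + q.imI ^ 2 + q.imJ ^ 2 + q.imK ^ 2 := by
    rw [sq, ← Quaternion.normSq_eq_norm_mul_self, Quaternion.normSq_def']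
  have h0 : q.re ≤ t := h 0
  have h1 : -q.re ≤ t := h 1
  have h2 : q.imI ≤ t := h 2
  have h3 : -q.imI ≤ t := h 3
  have h4 : q.imJ ≤ t := h 4
  have h5 : -q.imJ ≤ t := h 5
  have h6 : q.imK ≤ t := h 6
  have h7 : -q.imK ≤ t := h 7
  refine (abs_le_of_sq_le_sq' ?_ (by linarith)).2
  nlinarith

end Pool.Agent.Lib.MP_7f377f_mp.RG.D3.Dt
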