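import Pool.Agent.Lib.MP_7f377f_mp.R3DetD

/-! Removing the noise at one level changes the averaged fields very little. -/

noncomputable section

namespace Pool.Agent.Lib.MP_7f377f_mp.RG.D3.Dt

open Finset MeasureTheory D3.Pv M3 Filter
open scoped Quaternion ENNReal

attribute [local irreducible] box lbox cube

theorem gauge_gauge (g h : St → S3) (U : Conf) :
    gauge Inv.inv g (gauge Inv.inv h U) = gauge Inv.inv (g * h) U := by
  funext e
  simp only [gauge, Pi.mul_apply]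
  group

theorem curv_of_gauge {c η : ℝ} {h : St → S3} {u X : Conf}
    (H : curvG c (gauge Inv.inv h (u * X))) (hu : ∀ f, ‖(u f).q - 1‖ ≤ η) :
    curvG (4 * η + c) X := by
  refine JS.curv_near (V := u * X) (fun x μ ν => ?_) fun e => ?_
  · have := H x μ ν
    rwa [M3.hol_gauge, S3.norm_conj_sub] at this
  · rw [norm_sub_rev, S3.norm_sub, Pi.mul_apply, mul_inv_cancel_right]
    exact hu e

theorem close {k i0 : ℕ} {V u : Conf} (hV : Per (nn k) V) (hu : Per (nn k) u) {t e θ : ℕ → ℝ}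
    (h0 : ∀ f, ‖(u f).q - 1‖ ≤ t 0) (e0 : e 0 = 0)
    (hT : ∀ v m, v + m = k → i0 ≤ v → Reg V v m → ∀ b, ‖TM V v m (imF u) b‖ ≤ t m)
    (he : ∀ v m, v + 1 + m = k → i0 ≤ v →
      (45 * LL (ll v) * (t m + e m)) ^ 2 + 2 * LL (ll v) * e m ≤ e (m + 1) ∧
      100 * LL (ll v) * (t m + e m) ≤ 1 ∧
      500 * (LL (ll v) : ℝ) ^ 5 * (4 * (t m + e m) + θ (v + 1)) ≤ 1)
    (hG : ∀ v m, v + m = k → i0 ≤ v → curvG (θ v) (dn v m (u * V))) (m v : ℕ) (hv : v + m = k)
    (hi : i0 ≤ v) : Reg V v m ∧ ∃ (h : St → S3) (u' : Conf), PerS (nn v) h ∧ Per (nn v) u' ∧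
      dn v m (u * V) = gauge Inv.inv h (u' * dn v m V) ∧ (∀ f, ‖(u' f).q - 1‖ ≤ t m + e m) ∧
      ∀ f, ‖imF u' f - TM V v m (imF u) f‖ ≤ e m := by
  induction m generalizing v with
  | zero =>
    obtain rfl : v = k := hv
    refine ⟨trivial, 1, u, fun _ _ => rfl, hu, ?_, by simpa only [e0, add_zero], by simp [TM, e0]⟩
    funext f
    simp [gauge, dn]
  | succ m ih =>
    have hv' : v + 1 + m = k := by omega
    obtain ⟨r, h, u', p1, p2, e1, n1, n2⟩ := ih (v + 1) hv' (by omega)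
    obtain ⟨k1, k2, k3⟩ := he v m hv' hi
    have c1 := curv_of_gauge (e1 ▸ hG (v + 1) m hv' (by omega)) n1
    have r' : Reg V v (m + 1) := ⟨⟨_, c1, k3⟩, r⟩
    have pX : Per (LL (ll v) * nn v) (dn (v + 1) m V) := M3.nn_succ v ▸ dn_per (hv' ▸ hV)
    rw [M3.nn_succ] at p1 p2
    have a1 := nu_fo c1 k3 n1 k2
    have a2 : ∀ b, ‖TL (ll v) (dn (v + 1) m V) (imF u') b - TM V v (m + 1) (imF u) b‖ ≤
        2 * LL (ll v) * e m := fun b => by
      have := TL_sup (ξ := imF u' - TM V (v + 1) m (imF u)) c1 k3 n2 b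
      rwa [map_sub] at this
    refine ⟨r', (fun y => h (up (ll v) y)) * gg (ll v) (dn (v + 1) m V) u',
      nu (ll v) (dn (v + 1) m V) u', fun x w => ?_, nu_per pX p2, ?_, fun f => ?_, fun f => ?_⟩
    · simp only [Pi.mul_apply, gg_per pX p2 x w, up_add, SX.up_smul, p1 _ w]
    · rw [dn, e1, blk_gauge, blk_eq, gauge_gauge, dn]
    · have h1 := hT v (m + 1) hv hi r' f
      have h2 := norm_add₃_le (a := (nu (ll v) (dn (v + 1) m V) u' f).q - 1 -
        TL (ll v) (dn (v + 1) m V) (imF u') f) (b := TL (ll v) (dn (v + 1) m V) (imF u') f -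
          TM V v (m + 1) (imF u) f) (c := TM V v (m + 1) (imF u) f)
      rw [sub_add_sub_cancel, sub_add_cancel] at h2
      linarith [(a1 f).2, a2 f]
    · have h1 := (norm_im_le _).trans (a1 f).2
      rw [Quaternion.im_sub, Quaternion.im_sub, im_of_re (a1 f).1, Quaternion.im_one,
        sub_zero] at h1
      exact (norm_sub_le_norm_sub_add_norm_sub _ _ _).trans ((add_le_add h1 (a2 f)).trans k1)

theorem ev_pow (D : ℝ) {r : ℝ} (hr : 1 < r) : ∀ᶠ k : ℕ in atTop, D * (k + 1) ^ 2 ≤ r ^ k := by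
  have h := (isLittleO_pow_const_const_pow_of_one_lt (R := ℝ) 2 hr).def
    (c := (4 * (|D| + 1))⁻¹) (by positivity)
  filter_upwards [h, eventually_ge_atTop 1] with k h hk
  have hk' : (1 : ℝ) ≤ k := by exact_mod_cast hk
  rw [Real.norm_of_nonneg (by positivity), Real.norm_of_nonneg (by positivity),
    le_inv_mul_iff₀ (by positivity)] at h
  refine le_trans ?_ h
  have : ((k : ℝ) + 1) ^ 2 ≤ 4 * k ^ 2 := by nlinarith
  nlinarith [mul_le_mul (le_abs_self D) this (by positivity) (abs_nonneg D), sq_nonneg (k : ℝ)]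

theorem two_pow_nn (v m : ℕ) : (2 : ℝ) ^ m * nn v ≤ nn (v + m) := by
  induction m with
  | zero => simp
  | succ m ih =>
    have : (2 : ℝ) ≤ LL (ll (v + m)) := by
      rw [M3.LL_ll]
      exact_mod_cast (show 2 ≤ 3 by norm_num).trans (Nat.le_self_pow (by omega) 3)
    rw [← add_assoc, nn_real, pow_succ]
    nlinarith [mul_le_mul this ih (by positivity) (by positivity)]

theorem LL_mono {v k : ℕ} (h : v ≤ k) : (LL (ll v) : ℝ) ≤ LL (ll k) := by
  rw [M3.LL_ll, M3.LL_ll]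
  exact_mod_cast Nat.pow_le_pow_right (by norm_num) (by omega)

theorem one_le_nn (v : ℕ) : (1 : ℝ) ≤ nn v := by exact_mod_cast M3.nn_pos v

theorem LL_ll_real (k : ℕ) : (LL (ll k) : ℝ) = 3 * (3 ^ k) ^ 2 := by
  rw [M3.LL_ll]
  push_cast
  ring

/-- bound for the linear term -/
def tq (γ : ℝ) (k m : ℕ) : ℝ := √(3 / γ) * 2 ^ m * √(nn (k - m)) / (nn k * LL (ll k))

/-- bound for the error term -/
def eq' (γ : ℝ) (k m : ℕ) : ℝ := m * 2 ^ m * (12150 / γ) / (LL (ll k) * nn (k - m))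

theorem num_d {γ : ℝ} (hγ : 0 < γ) : ∀ᶠ k : ℕ in atTop, ∀ v m, v + m = k →
    tq γ k m + eq' γ k m ≤ 2⁻¹ ^ k / √(nn v) := by
  filter_upwards [ev_pow (√(3 / γ) + 12150 / γ) (show (1 : ℝ) < 9 / 4 by norm_num)] with k hk v m hv
  have h1 := two_pow_nn v m
  have h2 := one_le_nn v
  have h3 := LL_pos' (ll k)
  have h4 := nn_pos' k
  have h5 : 1 ≤ √(nn v : ℝ) := Real.one_le_sqrt.2 h2
  have h6 : √(nn v : ℝ) * √(nn v : ℝ) = nn v := Real.mul_self_sqrt (by linarith)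
  have h7 : (m : ℝ) ≤ k := by exact_mod_cast (show m ≤ k by omega)
  have h8 : (2 : ℝ) ^ m ≤ 2 ^ k := pow_le_pow_right₀ (by norm_num) (by omega)
  have h9 : (1 : ℝ) ≤ 2 ^ k := one_le_pow₀ (by norm_num)
  rw [hv] at h1
  have a1 : tq γ k m ≤ √(3 / γ) / (LL (ll k) * √(nn v)) := by
    rw [tq, show k - m = v by omega, div_le_div_iff₀ (by positivity) (by positivity)]
    calc _ = √(3 / γ) * LL (ll k) * (2 ^ m * (√(nn v : ℝ) * √(nn v : ℝ))) := by ring
      _ ≤ √(3 / γ) * LL (ll k) * nn k := by rw [h6]; gcongr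
      _ = _ := by ring
  have a2 : eq' γ k m ≤ k * 2 ^ k * (12150 / γ) / (LL (ll k) * √(nn v)) := by
    rw [eq', show k - m = v by omega]
    gcongr
    nlinarith
  refine (add_le_add a1 a2).trans ?_
  rw [← add_div, ← div_div]
  gcongr
  rw [div_le_iff₀ h3, LL_ll_real]
  have e : (2⁻¹ : ℝ) ^ k * (3 * (3 ^ k) ^ 2) = 3 * (2 ^ k * (9 / 4) ^ k) := by
    rw [← pow_mul, mul_comm k, pow_mul, ← mul_pow, mul_left_comm, ← mul_pow]
    norm_num
  have p1 : 0 ≤ √(3 / γ) := by positivity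
  have p2 : 0 ≤ 12150 / γ := by positivity
  have k0 : (0 : ℝ) ≤ k := by positivity
  rw [e]
  generalize √(3 / γ) = a at *
  generalize 12150 / γ = b at *
  have : a + k * b ≤ (9 / 4) ^ k := by
    nlinarith [mul_nonneg p1 k0, mul_nonneg p2 k0, mul_nonneg p1 (sq_nonneg (k : ℝ)),
      mul_nonneg p2 (sq_nonneg (k : ℝ))]
  nlinarith [mul_le_mul_of_nonneg_left this (show (0 : ℝ) ≤ 2 ^ k by positivity),
    mul_le_mul_of_nonneg_left h9 p1, mul_nonneg (show (0 : ℝ) ≤ 2 ^ k by positivity)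
      (show (0 : ℝ) ≤ (9 / 4) ^ k by positivity)]

theorem num_e {γ : ℝ} (hγ : 0 < γ) : ∀ᶠ k : ℕ in atTop, ∀ v m, v + 1 + m = k →
    (45 * LL (ll v) * (tq γ k m + eq' γ k m)) ^ 2 + 2 * LL (ll v) * eq' γ k m ≤
      eq' γ k (m + 1) := by
  filter_upwards [ev_pow (4050 * (12150 / γ)) (show (1 : ℝ) < 9 / 2 by norm_num)] with k hk v m hv
  have h1 := two_pow_nn (v + 1) m
  have h2 := one_le_nn v
  have h3 := LL_pos' (ll k)
  have h3' := LL_pos' (ll v)
  have h4 := nn_pos' k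
  have h4' := nn_pos' (v + 1)
  have h5 := LL_mono (show v ≤ k by omega)
  have h7 : (m : ℝ) ≤ k + 1 := by exact_mod_cast (show m ≤ k + 1 by omega)
  have h8 : (2 : ℝ) ^ m ≤ 2 ^ k := pow_le_pow_right₀ (by norm_num) (by omega)
  have h9 : (1 : ℝ) ≤ 2 ^ m := one_le_pow₀ (by norm_num)
  rw [hv] at h1
  have a1 : 4050 * LL (ll v) ^ 2 * tq γ k m ^ 2 ≤ 2 ^ m * (12150 / γ) / (LL (ll k) * nn v) := by
    have : tq γ k m ^ 2 = 3 / γ * (2 ^ m) ^ 2 * nn (v + 1) / (nn k * LL (ll k)) ^ 2 := by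
      rw [tq, show k - m = v + 1 by omega, div_pow, mul_pow, mul_pow, Real.sq_sqrt (by positivity),
        Real.sq_sqrt (by positivity)]
    rw [this, ← mul_div_assoc, div_le_div_iff₀ (by positivity) (by positivity)]
    calc _ = 12150 / γ * LL (ll k) * (LL (ll v) * (2 ^ m * (LL (ll v) * nn v)) ^ 2) := by
          rw [nn_real]; ring
      _ ≤ 12150 / γ * LL (ll k) * (LL (ll k) * nn k ^ 2) := by rw [← nn_real]; gcongr
      _ = 1 * (12150 / γ) * (nn k * LL (ll k)) ^ 2 := by ring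
      _ ≤ _ := by gcongr
  have a2 : 4050 * LL (ll v) ^ 2 * eq' γ k m ^ 2 ≤ 2 ^ m * (12150 / γ) / (LL (ll k) * nn v) := by
    rw [eq', show k - m = v + 1 by omega, div_pow, ← mul_div_assoc,
      div_le_div_iff₀ (by positivity) (by positivity), nn_real]
    have b1 : 4050 * (12150 / γ) * m ^ 2 * 2 ^ m ≤ LL (ll k) * nn v := by
      calc _ ≤ 4050 * (12150 / γ) * (k + 1) ^ 2 * 2 ^ k := by gcongr
        _ ≤ (9 / 2) ^ k * 2 ^ k := by gcongr
        _ = (3 ^ k) ^ 2 * 1 := by rw [← mul_pow, ← pow_mul, mul_comm k, pow_mul]; norm_num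
        _ ≤ _ := by rw [LL_ll_real]; gcongr; nlinarith [sq_nonneg ((3 : ℝ) ^ k)]
    calc _ = (4050 * (12150 / γ) * m ^ 2 * 2 ^ m) *
          (2 ^ m * (12150 / γ) * LL (ll v) ^ 2 * (LL (ll k) * nn v)) := by ring
      _ ≤ (LL (ll k) * nn v) * (2 ^ m * (12150 / γ) * LL (ll v) ^ 2 * (LL (ll k) * nn v)) := by
          gcongr
      _ = _ := by ring
  have a3 : eq' γ k (m + 1) =
      2 * LL (ll v) * eq' γ k m + 2 * (2 ^ m * (12150 / γ) / (LL (ll k) * nn v)) := by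
    rw [eq', eq', show k - m = v + 1 by omega, show k - (m + 1) = v by omega, nn_real]
    push_cast
    field_simp
    ring
  rw [a3]
  nlinarith [mul_nonneg (sq_nonneg (LL (ll v) : ℝ)) (sq_nonneg (tq γ k m - eq' γ k m))]

end Pool.Agent.Lib.MP_7f377f_mp.RG.D3.Dt
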