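import Pool.Agent.Lib.MP_7f377f_mp.R3DetE

/-! The hybrid step: the noise of one level is removed outside an event of small probability. -/

noncomputable section

namespace Pool.Agent.Lib.MP_7f377f_mp.RG.D3.Dt

open Finset MeasureTheory D3.Pv M3 Filter
open scoped Quaternion ENNReal

attribute [local irreducible] box lbox cube

theorem per_self {α : Type} {n : ℕ} {U : Lk → α} (h : Per n U) : per n U = U := by
  funext e
  have := per_app h (SX.md n e.1) (fun i => e.1 i / (n : ℤ)) e.2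
  rw [← SX.md_eq] at this
  exact this.symm

theorem nn_mono {v k : ℕ} (h : v ≤ k) : (nn v : ℝ) ≤ nn k := by
  have := two_pow_nn v (k - v)
  rw [show v + (k - v) = k by omega] at this
  nlinarith [one_le_pow₀ (n := k - v) (show (1 : ℝ) ≤ 2 by norm_num), nn_pos' v]

theorem num_p {γ : ℝ} (hγ : 0 < γ) (C : ℝ) : ∀ᶠ k : ℕ in atTop,
    1 ≤ γ * nn k * LL (ll k) ^ 3 ∧
    (24 * |C| * γ ^ 2 + 24) * (nn (k + 1) : ℝ) ^ 6 * (k + 1) * Real.exp (-(3 ^ k / 2)) ≤ 2⁻¹ ^ k := by
  filter_upwards [ev_pow (2 * (24 * |C| * γ ^ 2 + 24 + 26)) (show (1 : ℝ) < 3 by norm_num),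
    ev_pow γ⁻¹ (show (1 : ℝ) < 3 by norm_num)] with k h1 h2
  have k0 : (0 : ℝ) ≤ k := by positivity
  constructor
  · have h3 : (3 : ℝ) ^ k ≤ LL (ll k) ^ 3 := by
      have : (1 : ℝ) ≤ 3 ^ k := one_le_pow₀ (by norm_num)
      refine le_trans ?_ (le_self_pow₀ (by rw [LL_ll_real]; nlinarith) (by norm_num))
      rw [LL_ll_real]
      nlinarith
    have h4 : γ⁻¹ * 1 ≤ 3 ^ k := le_trans (by gcongr; nlinarith) h2
    rw [mul_one, inv_le_iff_one_le_mul₀' hγ] at h4
    calc 1 ≤ γ * 1 * 3 ^ k := by rwa [mul_one]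
      _ ≤ _ := by gcongr; exact one_le_nn k
  set D := 24 * |C| * γ ^ 2 + 24 with hD
  have D0 : 0 ≤ D := by positivity
  have e2 : (2 : ℝ) ≤ Real.exp 1 := by linarith [Real.add_one_le_exp 1]
  have e3 : (3 : ℝ) ≤ Real.exp 2 := by linarith [Real.add_one_le_exp 2]
  have a1 : (nn (k + 1) : ℝ) ≤ Real.exp (4 * (k + 1) ^ 2) := by
    calc (nn (k + 1) : ℝ) = 2 * 3 ^ (k + 1) ^ 2 := by simp [nn]
      _ ≤ Real.exp 2 * Real.exp 2 ^ (k + 1) ^ 2 := by gcongr; linarith
      _ = Real.exp (2 + ((k + 1) ^ 2 : ℕ) * 2) := by rw [Real.exp_add, Real.exp_nat_mul]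
      _ ≤ _ := by
        refine Real.exp_le_exp.2 ?_
        push_cast
        nlinarith
  have a2 : D ≤ Real.exp D := by linarith [Real.add_one_le_exp D]
  have a3 : (k : ℝ) + 1 ≤ Real.exp k := Real.add_one_le_exp _
  have a4 : Real.exp (-k) ≤ 2⁻¹ ^ k := by
    rw [← mul_neg_one, Real.exp_nat_mul, Real.exp_neg]
    gcongr
  refine le_trans ?_ a4
  calc _ ≤ Real.exp D * Real.exp (4 * (k + 1) ^ 2) ^ 6 * Real.exp k * Real.exp (-(3 ^ k / 2)) := by
        gcongr
    _ ≤ _ := by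
        rw [← Real.exp_nat_mul, ← Real.exp_add, ← Real.exp_add, ← Real.exp_add]
        refine Real.exp_le_exp.2 ?_
        push_cast
        nlinarith [mul_nonneg D0 k0, mul_nonneg D0 (sq_nonneg (k : ℝ))]

/-- curvature thresholds at level `v` for the field of level `k` -/
def th (ε : ℕ → ℝ) (k v : ℕ) : ℝ := ε v + 8 * (2⁻¹ ^ v - 2⁻¹ ^ k) / √(nn v)

/-- the deterministic averages of a field of level `k` have small curvature -/
def Good (ε : ℕ → ℝ) (i0 k k' : ℕ) (W : Conf) : Prop :=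
  ∀ v m, v + m = k → i0 ≤ v → curvG (th ε k' v) (dn v m W)

theorem bad_noise {γ : ℝ} (hγ : 0 < γ) : ∀ᶠ k : ℕ in atTop, ∀ a, γ * nn k * LL (ll k) ^ 3 ≤ a →
    ∀ V, Per (nn k) V → ∃ B : Set Conf, (nz a).real B ≤ 2⁻¹ ^ k ∧ ∀ w ∉ B,
      (∀ f, ‖(per (nn k) w f).q - 1‖ ≤ tq γ k 0) ∧ ∀ v m, v + m = k → Reg V v m → ∀ b,
        ‖TM V v m (imF (per (nn k) w)) b‖ ≤ tq γ k m := by
  obtain ⟨C, hC⟩ := hk_tail
  filter_upwards [num_p hγ C] with k ⟨h1, h2⟩ a ha V hV
  have a1 : 1 ≤ a := h1.trans ha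
  have := prob_hk (zero_le_one.trans a1)
  have := prob_nz (zero_le_one.trans a1)
  have n0 := nn_pos' k
  have n1' := one_le_nn k
  have L0 := LL_pos' (ll k)
  have l1 : (1 : ℝ) ≤ 3 ^ k := one_le_pow₀ (by norm_num)
  have L1 : (1 : ℝ) ≤ LL (ll k) := by exact_mod_cast LL_pos (ll k)
  obtain ⟨s, s0, hs⟩ : ∃ s : ℝ, 0 < s ∧ s ^ 2 = 3 ^ k / (γ * nn k * LL (ll k) ^ 3) :=
    ⟨√_, Real.sqrt_pos.2 (by positivity), Real.sq_sqrt (by positivity)⟩
  have tq2 : ∀ m, tq γ k m ^ 2 = 3 / γ * (2 ^ m) ^ 2 * nn (k - m) / (nn k * LL (ll k)) ^ 2 :=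
    fun m => by rw [tq, div_pow, mul_pow, mul_pow, Real.sq_sqrt (by positivity),
      Real.sq_sqrt (by positivity)]
  have tq0 : ∀ m, 0 ≤ tq γ k m := fun m => by unfold tq; positivity
  refine ⟨(⋃ f ∈ lcube (nn k), {w | s < ‖(w f).q - 1‖}) ∪ ⋃ m ∈ range (k + 1),
    ⋃ b ∈ lcube (nn (k - m)), ⋃ c ∈ (univ : Finset (Fin 8)), {w | Reg V (k - m) m ∧ tq γ k m / 2 ≤
      crd c (TM V (k - m) m (per (nn k) fun e => trc s (w e)) b)}, ?_, fun w hw => ?_⟩
  · have b1 : ∀ f, (nz a).real {w | s < ‖(w f).q - 1‖} ≤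
        8 * |C| * (γ * nn k * LL (ll k) ^ 3) ^ 2 * Real.exp (-(3 ^ k / 2)) := fun f => by
      have hm : MeasurableSet {g : S3 | s < ‖g.q - 1‖} :=
        measurableSet_lt measurable_const Ms.meas_nsub
      have e : nz a {w | s < ‖(w f).q - 1‖} = ∫⁻ g in {g : S3 | s < ‖g.q - 1‖}, hk a g ∂haar := by
        rw [← withDensity_apply _ hm,
          ← Measure.infinitePi_map_eval (fun _ : Lk => haar.withDensity (hk a)) f,
          Measure.map_apply (measurable_pi_apply f) hm]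
        rfl
      refine ENNReal.toReal_le_of_le_ofReal (by positivity) (e ▸ (hC a s a1 s0.le).2.2.2.2.trans
        (ENNReal.ofReal_le_ofReal ?_))
      have x1 : 3 ^ k ≤ a * s ^ 2 := by
        rw [hs, ← mul_div_assoc, le_div_iff₀ (by positivity), mul_comm a]
        gcongr
      have x2 : a ≤ a * s ^ 2 * (γ * nn k * LL (ll k) ^ 3) := by
        rw [hs, mul_assoc, div_mul_cancel₀ _ (by positivity)]
        nlinarith
      generalize a * s ^ 2 = x at x1 x2
      have x3 : x ^ 2 ≤ 8 * Real.exp (x / 2) := by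
        nlinarith [Real.quadratic_le_exp_of_nonneg (show 0 ≤ x / 2 by linarith)]
      have x4 : Real.exp (x / 2) * Real.exp (-x) ≤ Real.exp (-(3 ^ k / 2)) := by
        rw [← Real.exp_add]
        exact Real.exp_le_exp.2 (by linarith)
      calc _ ≤ |C| * (x * (γ * nn k * LL (ll k) ^ 3)) ^ 2 * Real.exp (-x) := by
            gcongr
            exact le_abs_self C
        _ = |C| * (γ * nn k * LL (ll k) ^ 3) ^ 2 * (x ^ 2 * Real.exp (-x)) := by ring
        _ ≤ |C| * (γ * nn k * LL (ll k) ^ 3) ^ 2 * (8 * Real.exp (x / 2) * Real.exp (-x)) := by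
            gcongr
        _ ≤ _ := by
            rw [mul_assoc 8, mul_assoc 8, mul_assoc 8, mul_left_comm _ 8]
            gcongr
    have b2 : ∀ m ∈ range (k + 1), ∀ b ∈ lcube (nn (k - m)), ∀ c, (nz a).real
        {w | Reg V (k - m) m ∧ tq γ k m / 2 ≤ crd c (TM V (k - m) m
          (per (nn k) fun e => trc s (w e)) b)} ≤ Real.exp (-(3 ^ k / 2)) := fun m hm b hb c => by
      by_cases hr : Reg V (k - m) m
      swap
      · simp only [hr, false_and, Set.ofPred_false, measureReal_empty]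
        positivity
      have hk : k - m + m = k := by have := mem_range.1 hm; omega
      have := hoeff (zero_le_one.trans a1) (M3.nn_pos k) (crd c ∘ₗ LinearMap.proj b ∘ₗ TM V (k - m) m)
        (A := 2 ^ m * (nn k / nn (k - m))) (B := 2 ^ m * ((nn (k - m) : ℝ) / nn k) ^ 2)
        (t := tq γ k m / 2) (fun ξ h => (crd_le _ _).trans (by simpa [hk] using TM_sup hr h b))
        (fun ξ h => (crd_le _ _).trans ((single_le_sum (f := fun e => ‖TM V (k - m) m ξ e‖)
          (fun _ _ => norm_nonneg _) hb).trans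
            (by simpa only [hk, n1] using TM_one hr (hk.symm ▸ hV) (hk.symm ▸ h))))
        (by positivity) s0.le (by linarith [tq0 m])
      simp only [hr, true_and]
      refine this.trans (Real.exp_le_exp.2 ?_)
      have := nn_pos' (k - m)
      rw [neg_div, neg_le_neg_iff, div_pow, tq2, hs, le_div_iff₀ (by positivity), LL_ll_real]
      field_simp
      nlinarith
    refine (measureReal_union_le _ _).trans ((add_le_add
      ((measureReal_biUnion_finset_le _ _).trans (sum_le_card_nsmul _ _ _ fun f _ => b1 f))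
      ((measureReal_biUnion_finset_le _ _).trans (sum_le_card_nsmul _ _
        ((nn k : ℝ) ^ 3 * 3 * (8 * Real.exp (-(3 ^ k / 2)))) fun m hm =>
      (measureReal_biUnion_finset_le _ _).trans ((sum_le_card_nsmul _ _ _ fun b hb =>
      (measureReal_biUnion_finset_le _ _).trans (sum_le_card_nsmul _ _ _ fun c _ =>
        b2 m hm b hb c)).trans ?_)))).trans (le_trans ?_ h2))
    · simp only [card_lcube, card_univ, Fintype.card_fin, nsmul_eq_mul]
      push_cast
      gcongr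
      exact_mod_cast nn_mono (Nat.sub_le k m)
    · simp only [card_lcube, card_range, nsmul_eq_mul, nn_real]
      push_cast
      have k0 : (0 : ℝ) ≤ k := by positivity
      have c1 : (nn k : ℝ) ^ 5 * LL (ll k) ^ 6 * 1 ≤ (LL (ll k) * nn k) ^ 6 * (k + 1) := by
        rw [mul_pow, mul_comm ((LL (ll k) : ℝ) ^ 6)]
        gcongr
        · norm_num
        · linarith
      have c2 : (nn k : ℝ) ^ 3 * (k + 1) ≤ (LL (ll k) * nn k) ^ 6 * (k + 1) := by
        gcongr
        exact (pow_le_pow_right₀ n1' (by norm_num)).trans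
          (pow_le_pow_left₀ n0.le (by nlinarith) 6)
      have c3 := Real.exp_pos (-(3 ^ k / 2))
      nlinarith [mul_le_mul_of_nonneg_left c1
        (show 0 ≤ 24 * |C| * γ ^ 2 * Real.exp (-(3 ^ k / 2)) by positivity),
        mul_le_mul_of_nonneg_left c2 c3.le]
  · simp only [Set.mem_union, Set.mem_iUnion, not_or, not_exists, Set.mem_ofPred_eq, not_lt,
      not_and, not_le] at hw
    have g1 : ∀ f, ‖(per (nn k) w f).q - 1‖ ≤ s := fun f => hw.1 _ (mod_mem (M3.nn_pos k) f)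
    have g2 : (per (nn k) fun e => trc s (w e)) = imF (per (nn k) w) :=
      funext fun f => if_pos (g1 f)
    refine ⟨fun f => (g1 f).trans (abs_le_of_sq_le_sq' ?_ (tq0 0)).2, fun v m hv hr b => ?_⟩
    · rw [tq2, hs, Nat.sub_zero, div_le_div_iff₀ (by positivity) (by positivity)]
      have : (3 : ℝ) ^ k ≤ 3 * LL (ll k) := by rw [LL_ll_real]; nlinarith
      field_simp
      linarith
    · obtain rfl : v = k - m := by omega
      have := norm_le_crd fun c => (hw.2 m (mem_range.2 (by omega)) _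
        (mod_mem (M3.nn_pos _) b) c (mem_univ c) hr).le
      have p : Per (nn (k - m)) (TM V (k - m) m (imF (per (nn k) w))) :=
        TM_per (hv.symm ▸ hV) (hv.symm ▸ g2 ▸ per_per _ _)
      rw [g2] at this
      rw [← per_self p]
      exact this.trans_eq (by ring)

theorem hyb {γ : ℝ} (hγ : 0 < γ) : ∀ᶠ k : ℕ in atTop, ∀ (ε : ℕ → ℝ) (i0 : ℕ), i0 ≤ k →
    (∀ v, 0 ≤ ε v) →
    (∀ v ≥ i0, 500 * (LL (ll v) : ℝ) ^ 5 * (ε (v + 1) + 8 / √(nn (v + 1))) ≤ 1) →
    ∀ a, γ * nn k * LL (ll k) ^ 3 ≤ a → ∀ V, Per (nn k) V → ∃ B : Set Conf,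
      (nz a).real B ≤ 2⁻¹ ^ k ∧ ∀ w ∉ B, Good ε i0 k k (per (nn k) w * V) →
        Good ε i0 k (k + 1) V ∧ ∃ (h : St → S3) (u : Conf), PerS (nn i0) h ∧
          dn i0 (k - i0) (per (nn k) w * V) = gauge Inv.inv h (u * dn i0 (k - i0) V) ∧
          ∀ f, ‖(u f).q - 1‖ ≤ 2⁻¹ ^ k / √(nn i0) := by
  filter_upwards [bad_noise hγ, num_d hγ, num_e hγ] with k h1 h2 h3 ε i0 hi ε0 hε a ha V hV
  obtain ⟨B, b1, b2⟩ := h1 a ha V hV
  refine ⟨B, b1, fun w hw hG => ?_⟩
  have e1 : ∀ v, 4 * (2⁻¹ ^ k / √(nn v)) + th ε k v = th ε (k + 1) v := fun v => by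
    simp only [th]
    ring
  have key := close hV (per_per _ w) (b2 w hw).1 (e := eq' γ k) (by simp [eq'])
    (fun v m hv _ => (b2 w hw).2 v m hv) (fun v m hv hi => by
      have k1 := h2 (v + 1) m hv
      have k2 := hε v hi
      have k3 : (0 : ℝ) < √(nn (v + 1)) := Real.sqrt_pos.2 (nn_pos' _)
      have k4 : (2⁻¹ : ℝ) ^ k ≤ 1 := pow_le_one₀ (by norm_num) (by norm_num)
      have k5 : (2⁻¹ : ℝ) ^ (v + 1) ≤ 1 := pow_le_one₀ (by norm_num) (by norm_num)
      have k6 : th ε (k + 1) (v + 1) ≤ ε (v + 1) + 8 / √(nn (v + 1)) := by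
        unfold th
        gcongr
        linarith [show (0 : ℝ) < 2⁻¹ ^ (k + 1) by positivity]
      have L1 : (1 : ℝ) ≤ LL (ll v) := by exact_mod_cast LL_pos (ll v)
      refine ⟨h3 v m hv, le_trans ?_ k2, le_trans ?_ k2⟩
      · have := le_self_pow₀ L1 (show 5 ≠ 0 by norm_num)
        have k7 : 2⁻¹ ^ k / √(nn (v + 1) : ℝ) ≤ ε (v + 1) + 8 / √(nn (v + 1)) :=
          le_add_of_nonneg_of_le (ε0 _) (by gcongr; linarith)
        refine (mul_le_mul_of_nonneg_left (k1.trans k7) (by positivity)).trans ?_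
        have := ε0 (v + 1)
        gcongr
        norm_num
      · exact mul_le_mul_of_nonneg_left (by linarith [e1 (v + 1)]) (by positivity)) hG
  refine ⟨fun v m hv hi => ?_, ?_⟩
  · obtain ⟨-, h, u, -, -, k1, k2, -⟩ := key m v hv hi
    exact e1 v ▸ curv_of_gauge (k1 ▸ hG v m hv hi) fun f => (k2 f).trans (h2 v m hv)
  · obtain ⟨-, h, u, k0, -, k1, k2, -⟩ := key (k - i0) i0 (by omega) le_rfl
    exact ⟨h, u, k0, k1, fun f => (k2 f).trans (h2 i0 _ (by omega))⟩

end Pool.Agent.Lib.MP_7f377f_mp.RG.D3.Dt
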