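import Mathlib

/-! Block averaged `SU(2)` lattice gauge fields on three dimensional discrete tori. -/

noncomputable section

namespace Pool.Agent.Lib.MP_7f377f_mp.YM3

open MeasureTheory Finset
open scoped Quaternion

/-- the group `SU(2)` of unit quaternions -/
abbrev SU2 : Type := Metric.sphere (0 : ℍ) 1

/-- lattice gauge fields on the torus with `n` sites per side -/
abbrev Cfg (n : ℕ) : Type := (Fin 3 → ZMod n) × Fin 3 → SU2

variable {m n : ℕ}

/-- parallel transport along the straight line from `x` to `x + k e_i` -/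
def line (U : Cfg n) (x : Fin 3 → ZMod n) (i : Fin 3) : ℤ → SU2
  | .ofNat k => ((List.range k).map fun s : ℕ => U (x + Pi.single i (s : ZMod n), i)).prod
  | .negSucc k =>
    ((List.range (k + 1)).map fun s : ℕ => (U (x - Pi.single i (s + 1 : ZMod n), i))⁻¹).prod

/-- parallel transport from `x` to `x + t`, in the directions `0`, `1`, `2` successively -/
def comb (U : Cfg n) (x : Fin 3 → ZMod n) (t : Fin 3 → ℤ) : SU2 :=
  line U x 0 (t 0) * line U (x + Pi.single 0 (t 0 : ZMod n)) 1 (t 1) *
    line U (x + Pi.single 0 (t 0 : ZMod n) + Pi.single 1 (t 1 : ZMod n)) 2 (t 2)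

/-- holonomy around a plaquette -/
def plaq (U : Cfg n) (x : Fin 3 → ZMod n) (i j : Fin 3) : SU2 :=
  U (x, i) * U (x + Pi.single i 1, j) * (U (x + Pi.single j 1, i))⁻¹ * (U (x, j))⁻¹

/-- sum of the transports from `x` to `x + (2 l + 1) e_i` through the points of the cube of
radius `l` around `x` -/
def avg (l : ℕ) (U : Cfg n) (x : Fin 3 → ZMod n) (i : Fin 3) : ℍ :=
  ∑ t ∈ Fintype.piFinset fun _ : Fin 3 => Icc (-(l : ℤ)) l,
    (comb U x t * line U (x + fun k => (t k : ZMod n)) i (2 * l + 1) *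
      (comb U (x + Pi.single i (2 * l + 1 : ZMod n)) t)⁻¹ : SU2)

open Classical in
/-- the block averaged field, for blocks of side `2 l + 1` -/
def block (l : ℕ) (U : Cfg m) : Cfg n := fun b =>
  if h : avg l U (fun k => (2 * l + 1) * (b.1 k).val) b.2 = 0 then
    line U (fun k => (2 * l + 1) * (b.1 k).val) b.2 (2 * l + 1)
  else ⟨‖avg l U (fun k => (2 * l + 1) * (b.1 k).val) b.2‖⁻¹ •
    avg l U (fun k => (2 * l + 1) * (b.1 k).val) b.2, mem_sphere_zero_iff_norm.2 (norm_smul_inv_norm h)⟩

variable [MeasurableSpace SU2] (h : Measure SU2) (γ : ℝ)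

/-- the Wilson measure with coupling `γ n` -/
def wilson (n : ℕ) [NeZero n] : Measure (Cfg n) :=
  (Measure.pi fun _ => h).tilted fun U =>
    γ * n * ∑ x, ∑ i, ∑ j, if i < j then 2 * (plaq U x i j).1.re else 0

/-- law of the block averaged field multiplied by small independent noise -/
def step (l : ℕ) [NeZero n] (μ : Measure (Cfg m)) : Measure (Cfg n) :=
  (μ.prod (Measure.pi fun _ => (h.restrict {g | 0 < g.1.re}).tilted fun g =>
    -(γ * n * (2 * l + 1) ^ 3 * (‖g.1.im‖ / g.1.re) ^ 2))).map fun p b => p.2 b * block l p.1 b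

/-- law at level `j` after a first step with blocks of side `2 l + 1` and `k` further steps -/
def law (l : ℕ) : (k j : ℕ) → Measure (Cfg (2 * 3 ^ j ^ 2))
  | 0, j => step h γ l (wilson h γ ((2 * l + 1) * (2 * 3 ^ j ^ 2)))
  | k + 1, j => step h γ (3 ^ (2 * j + 1) / 2) (law l k (j + 1))

end Pool.Agent.Lib.MP_7f377f_mp.YM3
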