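import Pool.Agent.Lib.MP_7f377f_mp.R3MeasLaw
import Pool.Agent.Lib.MP_7f377f_mp.R3Ap0
import Pool.Agent.Lib.MP_7f377f_mp.YM3Defs

/-! Transfer from periodic fields to fields on discrete tori. -/

noncomputable section

namespace Pool.Agent.Lib.MP_7f377f_mp.RG.D3.Fi

open MeasureTheory Measure Finset YM3 Ms M3
open scoped Quaternion ENNReal

theorem tilt_eq {X : Type} [MeasurableSpace X] {μ : Measure X} [NeZero μ] {f : X → ℝ}
    (hf : Integrable (fun x => Real.exp (f x)) μ) : μ.tilted f =
      (∫⁻ x, ENNReal.ofReal (Real.exp (f x)) ∂μ)⁻¹ •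
        μ.withDensity fun x => ENNReal.ofReal (Real.exp (f x)) := by
  have h := integral_exp_pos hf
  rw [← ofReal_integral_eq_lintegral_ofReal hf (.of_forall fun _ => (Real.exp_pos _).le),
    ← withDensity_smul' _ _ (by simpa using h), Measure.tilted]
  congr 1
  funext x
  rw [ENNReal.ofReal_div_of_pos h, Pi.smul_apply, smul_eq_mul, ENNReal.div_eq_inv_mul]

variable {m n : ℕ}

/-- reduction modulo the period -/
def cst (n : ℕ) (x : St) : Fin 3 → ZMod n := fun i => x i

theorem cst_add (x y : St) : cst n (x + y) = cst n x + cst n y := funext fun _ => Int.cast_add _ _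

theorem cst_sub (x y : St) : cst n (x - y) = cst n x - cst n y := funext fun _ => Int.cast_sub _ _

theorem cst_un (k : ℤ) (i : Fin 3) : cst n (k • un i) = Pi.single i (k : ZMod n) :=
  funext fun j => by by_cases h : j = i <;> simp [cst, un, h]

theorem cst_un1 (i : Fin 3) : cst n (un i) = Pi.single i 1 := by simpa using cst_un (n := n) 1 i

/-- the periodic field -/
def lift {α : Type} (U : (Fin 3 → ZMod n) × Fin 3 → α) : Lk → α := fun e => U (cst n e.1, e.2)

/-- representative in the fundamental domain -/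
def vl (x : Fin 3 → ZMod n) : St := fun i => (x i).val

/-- restriction to the fundamental domain -/
def res {α : Type} (n : ℕ) (W : Lk → α) : (Fin 3 → ZMod n) × Fin 3 → α := fun b => W (vl b.1, b.2)

theorem ln_lift (U : Cfg n) (c p : St) (i : Fin 3) (k : ℤ) :
    ln Inv.inv (sh c (lift U)) p i k = line U (cst n c + cst n p) i k := by
  have h1 : ∀ k, lnP (sh c (lift U)) p i k = line U (cst n c + cst n p) i (.ofNat k) := fun k => by
    induction k with
    | zero => rfl
    | succ k ih =>
      rw [lnP, ih]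
      simp only [lift, sh, cst_add, cst_un]
      simp [line, List.range_succ, add_comm, add_left_comm]
  have h2 : ∀ k, lnN Inv.inv (sh c (lift U)) p i k = ((List.range k).map fun s : ℕ =>
      (U (cst n c + cst n p - Pi.single i (s + 1 : ZMod n), i))⁻¹).prod := fun k => by
    induction k with
    | zero => rfl
    | succ k ih =>
      rw [lnN, ih, List.range_succ, List.map_append, List.prod_append]
      simp only [lift, sh, cst_add, cst_sub, cst_un, add_comm (_ - _), add_sub_assoc]
      simp
  cases k with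
  | ofNat k => rw [ln, h1, show (-Int.ofNat k).toNat = 0 by simp, lnN, mul_one]; rfl
  | negSucc k => rw [ln, h2, show (Int.negSucc k).toNat = 0 from rfl, lnP, one_mul]; rfl

theorem lnP_lift (U : Cfg n) (c p : St) (i : Fin 3) (l : ℕ) :
    lnP (sh c (lift U)) p i (LL l) = line U (cst n c + cst n p) i (2 * l + 1) := by
  rw [← ln_lift, ← LL_cast, ln, Int.toNat_natCast, show (-(LL l : ℤ)).toNat = 0 by simp, lnN,
    mul_one]

theorem cst_zero : cst n 0 = 0 := funext fun _ => Int.cast_zero

theorem cmb_lift (U : Cfg n) (c t : St) :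
    cmb Inv.inv (sh c (lift U)) t = comb U (cst n c) t := by
  simp only [cmb, ln_lift, comb, ← pre_2, ← pre_1, pre_0, cst_add, cst_un, cst_zero, zero_add,
    add_zero, add_assoc]

/-- the periodic field as a configuration -/
def lf (U : Cfg n) : Conf := lift U

/-- restriction of a configuration -/
def rs (n : ℕ) (W : Conf) : Cfg n := res n W

theorem avq_lift (l : ℕ) (U : Cfg n) (c : St) (i : Fin 3) :
    avq l i (sh c (lf U)) = ((LL l : ℝ) ^ 3)⁻¹ • avg l U (cst n c) i := by
  have h : ∀ V : Lk → SU2, avq l i V = ((LL l : ℝ) ^ 3)⁻¹ • ∑ t ∈ box l,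
      (cmb Inv.inv V t * lnP V t i (LL l) * (cmb Inv.inv (sh (up l (un i)) V) t)⁻¹ : SU2).1 :=
    fun _ => rfl
  refine (h (sh c (lift U))).trans ?_
  rw [avg, box]
  congr 2
  funext t
  rw [sh_sh, cmb_lift, cmb_lift, lnP_lift, cst_add, up, cst_un, add_comm (Pi.single _ _), LL_cast]
  push_cast
  rfl

theorem blk_lift (l : ℕ) (U : Cfg m) : rs n (blk l (lf U)) = block l U := by
  funext b
  have e : cst m (up l (vl b.1)) = fun k => (2 * l + 1 : ZMod m) * (b.1 k).val := by
    funext k
    simp [cst, up_apply, vl, LL]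
  have L : 0 < ((LL l : ℝ) ^ 3)⁻¹ := by have := D3.LL_pos l; positivity
  have h1 := av_eq l b.2 (sh (up l (vl b.1)) (lf U))
  rw [avq_lift, nrq_smul L, e] at h1
  rw [block]
  split_ifs with h
  · have := lnP_lift U (up l (vl b.1)) 0 b.2 l
    rw [e, cst_zero, add_zero] at this
    rw [if_pos (by rw [h, smul_zero])] at h1
    exact h1.trans this
  · rw [if_neg (smul_ne_zero L.ne' h)] at h1
    exact h1.trans (dif_neg h)

theorem hol_lift (U : Cfg n) (x : St) (i j : Fin 3) :
    hol Inv.inv (lift U) x i j = plaq U (cst n x) i j := by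
  simp only [hol, plaq, lift, cst_add, cst_un1]

variable [NeZero n]

theorem cst_vl (x : Fin 3 → ZMod n) : cst n (vl x) = x := funext fun i => by simp [cst, vl]

theorem res_lift {α : Type} (U : (Fin 3 → ZMod n) × Fin 3 → α) : res n (lift U) = U :=
  funext fun b => by simp only [res, lift, cst_vl]

theorem lift_res {α : Type} (W : Lk → α) : lift (res n W) = per n W :=
  funext fun e => congrArg (fun x => W (x, e.2)) (funext fun _ => ZMod.val_intCast _)

theorem res_per {α : Type} (W : Lk → α) : res n (per n W) = res n W := by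
  rw [← lift_res, res_lift]

theorem sum_vl (f : St → ℝ) : ∑ x ∈ cube n, f x = ∑ x : Fin 3 → ZMod n, f (vl x) :=
  (sum_bij (fun x _ => vl x) (fun x _ => mem_cube.2 fun i => ⟨Int.natCast_nonneg _,
    Int.ofNat_lt.2 (ZMod.val_lt _)⟩) (fun x _ y _ h => by rw [← cst_vl x, h, cst_vl])
    (fun y hy => ⟨cst n y, mem_univ _, funext fun i => by
      rw [vl, cst, ZMod.val_intCast, Int.emod_eq_of_lt (mem_cube.1 hy i).1 (mem_cube.1 hy i).2]⟩)
    fun _ _ => rfl).symm

instance mS : MeasurableSpace SU2 := borel _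

instance bS : BorelSpace SU2 := ⟨rfl⟩

/-- change of type -/
def tr (ν : Measure S3) : Measure SU2 := ν

instance (ν : Measure S3) [h : IsProbabilityMeasure ν] : IsProbabilityMeasure (tr ν) := h

omit [NeZero n] in
theorem meas_rs : Measurable (rs n) := measurable_pi_lambda _ fun _ => measurable_pi_apply _

omit [NeZero n] in
theorem meas_lf : Measurable (lf (n := n)) := measurable_pi_lambda _ fun _ => measurable_pi_apply _

theorem rs_lf (U : Cfg n) : rs n (lf U) = U := res_lift U

theorem lf_rs (W : Conf) : lf (rs n W) = per n W := lift_res W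

theorem rs_per (W : Conf) : rs n (per n W) = rs n W := res_per W

theorem map_res (ν : Measure S3) [IsProbabilityMeasure ν] :
    (infinitePi fun _ : Lk => ν).map (rs n) = Measure.pi fun _ => tr ν := by
  rw [← infinitePi_eq_pi]
  exact map_infinitePi_infinitePi_of_inj (f := fun b : (Fin 3 → ZMod n) × Fin 3 => (vl b.1, b.2))
    fun a b h => Prod.ext (by rw [← cst_vl a.1, (Prod.mk.inj h).1, cst_vl]) (Prod.mk.inj h).2

theorem wilson_res (γ : ℝ) (hγ : 0 ≤ γ) :
    (D3.wilson (γ * n) n).map (rs n) = YM3.wilson (tr haar) γ n := by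
  have e : ∀ U : Cfg n, ∑ x, ∑ i, ∑ j, (if i < j then 2 * (plaq U x i j).1.re else 0) =
      wil n (lf U) := fun U => by
    rw [wil, sum_vl]
    refine sum_congr rfl fun x _ => sum_congr rfl fun i _ => sum_congr rfl fun j _ => ?_
    rw [← cst_vl x, ← hol_lift, cst_vl]
    rfl
  have mF : Measurable fun U : Cfg n => ENNReal.ofReal (Real.exp (γ * n * wil n (lf U))) :=
    (GI_wil _ n).1.comp meas_lf
  have e2 := fun {F : Cfg n → ℝ≥0∞} (hF : Measurable F) => lintegral_map (μ := PP) hF meas_rs
  rw [PP, map_res] at e2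
  have fin := (mass_wil (β := γ * n) (by positivity) n).2
  simp only [← lf_rs] at fin
  rw [YM3.wilson]
  simp only [e]
  rw [tilt_eq (f := fun U => γ * n * wil n (lf U)) ((lintegral_ofReal_ne_top_iff_integrable
    (((meas_wil n).comp meas_lf).const_mul _).exp.aestronglyMeasurable
    (.of_forall fun _ => (Real.exp_pos _).le)).1 ((e2 mF).trans_ne fin.ne))]
  refine Measure.ext_of_lintegral _ fun F hF => ?_
  rw [lintegral_map hF meas_rs, D3.wilson,
    lint_lawOf _ (G := fun W => F (rs n W)) (GI_wil _ n).1 (hF.comp meas_rs),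
    lintegral_smul_measure, lintegral_withDensity_eq_lintegral_mul _ mF hF, e2 mF, e2 (mF.mul hF)]
  simp only [lf_rs, rs_per, Pi.mul_apply, smul_eq_mul, PP]

theorem noise_eq {a : ℝ} (ha : 0 ≤ a) : haar.withDensity (hk a) =
    (haar.restrict {g | 0 < g.q.re}).tilted fun g => -(a * (‖g.q.im‖ / g.q.re) ^ 2) := by
  have hs : MeasurableSet {g : S3 | 0 < g.q.re} := isOpen_pos.measurableSet
  have : NeZero (haar.restrict {g | 0 < g.q.re}) := ⟨fun h => (isOpen_pos.measure_pos haar
    ⟨1, show 0 < (1 : S3).q.re by simp [q_one]⟩).ne' (restrict_eq_zero.1 h)⟩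
  have e : hk0 a = {g : S3 | 0 < g.q.re}.indicator fun g =>
      ENNReal.ofReal (Real.exp (-(a * (‖g.q.im‖ / g.q.re) ^ 2))) := funext fun g => by
    simp [hk0, Set.indicator_apply]
  have m : Measurable fun g : S3 => Real.exp (-(a * (‖g.q.im‖ / g.q.re) ^ 2)) :=
    ((((Quaternion.continuous_im.comp cont_q).norm.measurable.div meas_re).pow_const 2).const_mul
      a).neg.exp
  rw [tilt_eq (.of_bound m.aestronglyMeasurable 1 (.of_forall fun g => by
    rw [Real.norm_eq_abs, abs_of_pos (Real.exp_pos _), Real.exp_le_one_iff, neg_nonpos]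
    positivity)), ← withDensity_indicator hs, ← lintegral_indicator hs, ← e,
    ← withDensity_smul _ (meas_hk0 a)]
  congr 1
  funext g
  rw [hk, Pi.smul_apply, smul_eq_mul, ENNReal.div_eq_inv_mul]

theorem step_res {γ : ℝ} (hγ : 0 ≤ γ) (l : ℕ) (ν : Measure (Cfg m)) [IsProbabilityMeasure ν] :
    (stepM l (γ * n * LL l ^ 3) n (ν.map lf)).map (rs n) = step (tr haar) γ l ν := by
  have ha : 0 ≤ γ * n * LL l ^ 3 := by positivity
  have := prob_hk ha
  have := prob_nz ha
  have e : (nz (γ * n * LL l ^ 3)).map (rs n) = Measure.pi fun _ =>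
      ((tr haar).restrict {g | 0 < g.1.re}).tilted fun g =>
        -(γ * n * (2 * l + 1) ^ 3 * (‖g.1.im‖ / g.1.re) ^ 2) := by
    rw [nz, map_res, noise_eq ha, show (LL l : ℝ) = 2 * l + 1 by simp [LL]]
    rfl
  have mb : Measurable (block l : Cfg m → Cfg n) := by
    rw [← funext (blk_lift l)]
    exact meas_rs.comp ((measurable_blk l).comp meas_lf)
  have m2 : Measurable fun (p : Cfg m × Cfg n) b => p.2 b * block l p.1 b :=
    measurable_snd.mul (mb.comp measurable_fst)
  rw [step, ← e, stepM_eq, map_map meas_rs (meas_sm l n)]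
  conv_lhs => rw [← map_id (μ := nz _), map_prod_map _ _ meas_lf measurable_id]
  conv_rhs => rw [← map_id (μ := ν), map_prod_map _ _ measurable_id meas_rs]
  rw [map_map (meas_rs.comp (meas_sm l n)) (meas_lf.prodMap measurable_id),
    map_map m2 (measurable_id.prodMap meas_rs)]
  congr 1
  funext p
  simp only [Function.comp, sm, rs_per, ← blk_lift]
  rfl

theorem fix_step (l : ℕ) (a : ℝ) (μ : Measure Conf) :
    ((stepM l a n μ).map (rs n)).map lf = stepM l a n μ := by
  rw [stepM_eq, map_map meas_rs (meas_sm l n), map_map meas_lf (meas_rs.comp (meas_sm l n))]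
  congr 1
  funext p
  simp only [Function.comp, sm, rs_per, lf_rs]

theorem fix_wilson (β : ℝ) : ((D3.wilson β n).map (rs n)).map lf = D3.wilson β n := by
  have hp := (cont_per n).measurable
  rw [D3.wilson, lawOf, map_map meas_rs hp, map_map meas_lf (meas_rs.comp hp)]
  congr 1
  funext p
  simp only [Function.comp, rs_per, lf_rs]

theorem av1_res {γ : ℝ} (hγ : 0 < γ) (j l : ℕ) {μ : Measure Conf} [IsProbabilityMeasure μ]
    (h : (μ.map (rs m)).map lf = μ) :
    (av1 γ j l μ).map (rs (2 * 3 ^ j ^ 2)) = step (tr haar) γ l (μ.map (rs m)) := by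
  have := isProbabilityMeasure_map (μ := μ) (meas_rs (n := m)).aemeasurable
  rw [← step_res hγ.le, h]
  rfl

theorem law_res {γ : ℝ} (hγ : 0 < γ) (l k j : ℕ) :
    (D3.law γ (j + k) l k).map (rs (2 * 3 ^ j ^ 2)) = YM3.law (tr haar) γ l k j := by
  induction k generalizing j with
  | zero =>
    have e : γ * (LL l * nn j : ℝ) = γ * ((2 * l + 1) * (2 * 3 ^ j ^ 2) : ℕ) := by simp [LL, nn]
    have := wilson_prob (β := γ * ((2 * l + 1) * (2 * 3 ^ j ^ 2) : ℕ)) (by positivity)
      ((2 * l + 1) * (2 * 3 ^ j ^ 2))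
    rw [YM3.law, ← wilson_res γ hγ.le, ← av1_res hγ j l (fix_wilson _), D3.law, add_zero, e]
    rfl
  | succ k ih =>
    have := law_prob hγ (j + 1 + k) l k
    have h : ((D3.law γ (j + 1 + k) l k).map (rs (2 * 3 ^ (j + 1) ^ 2))).map lf =
        D3.law γ (j + 1 + k) l k := by
      cases k with
      | zero => exact fix_step ..
      | succ k =>
        rw [D3.law, Nat.add_sub_cancel]
        exact fix_step ..
    rw [YM3.law, ← ih, ← av1_res hγ j _ h, D3.law, Nat.add_sub_cancel,
      show j + (k + 1) = j + 1 + k by ring]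
    rfl

end Pool.Agent.Lib.MP_7f377f_mp.RG.D3.Fi
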