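import Mathlib

/-! Deterministic block averages of `SU(2)` lattice gauge fields on three dimensional tori. -/

noncomputable section

namespace Pool.Agent.Lib.MP_7f377f_mp.YD

open MeasureTheory Finset
open scoped Quaternion

/-- the group `SU(2)` of unit quaternions -/
abbrev SU2 : Type := Metric.sphere (0 : ℍ) 1

/-- quaternion valued link fields on the torus with `n` sites per side -/
abbrev Fld (n : ℕ) : Type := (Fin 3 → ZMod n) × Fin 3 → ℍ

variable {m n : ℕ}

/-- parallel transport along the straight line from `x` to `x + k e_i` -/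
def line (U : Fld n) (x : Fin 3 → ZMod n) (i : Fin 3) : ℤ → ℍ
  | .ofNat k => ((List.range k).map fun s : ℕ => U (x + Pi.single i (s : ZMod n), i)).prod
  | .negSucc k =>
    ((List.range (k + 1)).map fun s : ℕ => star (U (x - Pi.single i (s + 1 : ZMod n), i))).prod

/-- parallel transport from `x` to `x + t`, in the directions `0`, `1`, `2` successively -/
def comb (U : Fld n) (x : Fin 3 → ZMod n) (t : Fin 3 → ℤ) : ℍ :=
  line U x 0 (t 0) * line U (x + Pi.single 0 (t 0 : ZMod n)) 1 (t 1) *
    line U (x + Pi.single 0 (t 0 : ZMod n) + Pi.single 1 (t 1 : ZMod n)) 2 (t 2)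

/-- holonomy around a plaquette -/
def plaq (U : Fld n) (x : Fin 3 → ZMod n) (i j : Fin 3) : ℍ :=
  U (x, i) * U (x + Pi.single i 1, j) * star (U (x + Pi.single j 1, i)) * star (U (x, j))

/-- mean of the transports from `x` to `x + (2 l + 1) e_i` through the points of the cube of
radius `l` around `x` -/
def avg (l : ℕ) (U : Fld n) (x : Fin 3 → ZMod n) (i : Fin 3) : ℍ :=
  ((2 * l + 1 : ℝ) ^ 3)⁻¹ • ∑ t ∈ Fintype.piFinset fun _ : Fin 3 => Icc (-(l : ℤ)) l,
    comb U x t * line U (x + fun k => (t k : ZMod n)) i (2 * l + 1) *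
      star (comb U (x + Pi.single i (2 * l + 1 : ZMod n)) t)

/-- radial retraction: normalises the quaternions of norm at least one half -/
def nrm (q : ℍ) : ℍ := (max ‖q‖ 2⁻¹)⁻¹ • q

/-- the block averaged field, for blocks of side `2 l + 1` -/
def block (l : ℕ) (U : Fld m) : Fld n := fun b =>
  nrm (avg l U (fun k => (2 * l + 1) * (b.1 k).val) b.2)

/-- a first averaging with blocks of side `2 l + 1` followed by `k` averagings down to level `j` -/
def iter (l : ℕ) : (k j : ℕ) → Fld m → Fld (2 * 3 ^ j ^ 2)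
  | 0, _ => block l
  | k + 1, j => block (3 ^ (2 * j + 1) / 2) ∘ iter l k (j + 1)

/-- reflection of the axis `k` -/
def refl (k : Fin 3) (U : Fld n) : Fld n := fun b =>
  if b.2 = k then star (U (Function.update b.1 k (-b.1 k - 1), k))
  else U (Function.update b.1 k (-b.1 k), b.2)

/-- the Wilson measure with coupling `γ n` -/
def wilson [MeasurableSpace SU2] (h : Measure SU2) (γ : ℝ) (n : ℕ) [NeZero n] :
    Measure ((Fin 3 → ZMod n) × Fin 3 → SU2) :=
  (Measure.pi fun _ => h).tilted fun U =>
    γ * n * ∑ x, ∑ i, ∑ j, if i < j then 2 * (plaq (fun e => U e) x i j).re else 0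

end Pool.Agent.Lib.MP_7f377f_mp.YD
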