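import Pool.Agent.Lib.MP_7f377f_mp.R3DetC
import Pool.Agent.Lib.MP_7f377f_mp.R3Fin
import Pool.Agent.Lib.MP_7f377f_mp.YM3Det

/-! Averaging of quaternion valued periodic fields, and transfer to discrete tori. -/

noncomputable section

namespace Pool.Agent.Lib.MP_7f377f_mp.RG.D3.Dt

open Finset D3.Pv Fi
open scoped Quaternion

/-- quaternion valued fields -/
abbrev FH := Lk → ℍ

/-- the underlying quaternion valued field -/
def qF (U : Conf) : FH := fun e => (U e).q

/-- the mean of the transports -/
def avH (l : ℕ) (μ : Fin 3) (X : FH) : ℍ :=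
  mean l fun t => cmb star X t * lnP X t μ (LL l) * star (cmb star (sh (up l (un μ)) X) t)

/-- the continuous block averaging -/
def blkH (l : ℕ) (X : FH) : FH := fun b => YD.nrm (avH l b.2 (sh (up l b.1) X))

/-- averaging from level `v + m` down to level `v` -/
def dnH : ℕ → ℕ → FH → FH
  | _, 0, X => X
  | v, m + 1, X => blkH (ll v) (dnH (v + 1) m X)

theorem dnH_add (v m k : ℕ) (X : FH) : dnH v (m + k) X = dnH v m (dnH (v + m) k X) := by
  induction m generalizing v with
  | zero => rw [zero_add]; rfl
  | succ m ih => rw [add_right_comm, dnH, ih, dnH, show v + 1 + m = v + (m + 1) by ring]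

theorem norm_nrm (q : ℍ) : ‖YD.nrm q‖ ≤ 1 := by
  rw [YD.nrm, norm_smul, norm_inv, Real.norm_of_nonneg (by positivity)]
  exact inv_mul_le_one_of_le₀ (le_max_left _ _) (by positivity)

theorem cont_nrm : Continuous YD.nrm :=
  ((continuous_norm.max continuous_const).inv₀ fun q => by positivity).smul continuous_id

theorem cont_lnH (p : St) (μ : Fin 3) (k : ℕ) : Continuous fun X : FH => lnP X p μ k := by
  induction k with
  | zero => exact continuous_const
  | succ k ih => exact ih.mul (continuous_apply _)

theorem cont_cmbH (x : St) : Continuous fun X : FH => cmb star X x :=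
  cmb_closed (P := fun f : FH → ℍ => Continuous f) continuous_const (fun _ _ => .mul)
    (fun _ => .star) (fun e => continuous_apply e) x

theorem cont_shH (x : St) : Continuous fun X : FH => sh x X :=
  continuous_pi fun _ => continuous_apply _

theorem cont_avH (l : ℕ) (μ : Fin 3) : Continuous (avH l μ) := by
  unfold avH mean
  exact Continuous.const_smul (continuous_finsetSum _ fun t _ =>
    ((cont_cmbH t).mul (cont_lnH _ _ _)).mul ((cont_cmbH t).comp (cont_shH _)).star) (_ : ℝ)

theorem cont_blkH (l : ℕ) : Continuous (blkH l) :=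
  continuous_pi fun b => cont_nrm.comp ((cont_avH l b.2).comp (cont_shH _))

theorem cont_dnH (v m : ℕ) : Continuous (dnH v m) := by
  induction m generalizing v with
  | zero => exact continuous_id
  | succ m ih => exact (cont_blkH _).comp (ih _)

theorem cont_qF : Continuous qF := continuous_pi fun e => Ms.cont_q.comp (continuous_apply e)

theorem lnP_q (U : Conf) (p : St) (μ : Fin 3) (k : ℕ) : lnP (qF U) p μ k = (lnP U p μ k).q := by
  induction k with
  | zero => rfl
  | succ k ih => rw [lnP, lnP, ih]; rfl

theorem cmb_q (U : Conf) (x : St) : cmb star (qF U) x = (cmb Inv.inv U x).q :=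
  cmb_map (f := S3.q) rfl (fun _ _ => rfl) S3.q_inv x

theorem avH_q (l : ℕ) (μ : Fin 3) (U : Conf) : avH l μ (qF U) = avq l μ U := by
  rw [avH, avq_mean]
  congr 1
  funext t
  rw [show sh (up l (un μ)) (qF U) = qF (sh (up l (un μ)) U) from rfl, cmb_q, cmb_q, lnP_q, tm,
    S3.q_mul, S3.q_mul, S3.q_inv]

theorem hol_q (U : Conf) (x : St) (μ ν : Fin 3) :
    hol star (qF U) x μ ν = (hol Inv.inv U x μ ν).q := by
  simp only [hol, qF, S3.q_mul, S3.q_inv]

theorem blkH_q {l : ℕ} {U : Conf} {c : ℝ} (h : curvG c U) (h2 : 500 * (LL l : ℝ) ^ 2 * c ≤ 1) :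
    blkH l (qF U) = qF (blk l U) := by
  funext b
  have := half_le (l := l) (μ := b.2) (curv_sh h (up l b.1)) h2
  rw [blkH, show sh (up l b.1) (qF U) = qF (sh (up l b.1) U) from rfl, avH_q, YD.nrm,
    max_eq_left this, ← av_q (norm_pos_iff.1 (by linarith))]
  rfl

/-- gauge transformations of quaternion valued fields -/
def gH (h : St → S3) (X : FH) : FH := gauge star (fun x => (h x).q) X

theorem gH_q (h : St → S3) (U : Conf) : gH h (qF U) = qF (gauge Inv.inv h U) := by
  funext e
  simp only [gH, gauge, qF, S3.q_mul, S3.q_inv]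

theorem gH_gH (g h : St → S3) (X : FH) : gH g (gH h X) = gH (g * h) X := by
  funext e
  simp only [gH, gauge, Pi.mul_apply, S3.q_mul, star_mul, mul_assoc]

theorem sh_gH (h : St → S3) (X : FH) (y : St) : sh y (gH h X) = gH (fun x => h (x + y)) (sh y X) := by
  funext e
  simp only [gH, sh, gauge, add_right_comm]

theorem lnP_gH (h : St → S3) (X : FH) (p : St) (μ : Fin 3) (k : ℕ) :
    lnP (gH h X) p μ k = (h p).q * lnP X p μ k * star (h (p + (k : ℤ) • un μ)).q := by
  induction k with
  | zero => simp [lnP, q_star]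
  | succ k ih =>
    rw [lnP, lnP, ih, gH, gauge]
    simp only [Nat.cast_succ, add_smul, one_smul, add_assoc, mul_assoc]
    rw [← mul_assoc (star _), star_q, one_mul]

theorem avH_gH (l : ℕ) (μ : Fin 3) (h : St → S3) (X : FH) :
    avH l μ (gH h X) = (h 0).q * avH l μ X * star (h (up l (un μ))).q := by
  have e : ∀ (h : St → S3) (X : FH) x, cmb star (gH h X) x =
      (h 0).q * cmb star X x * star (h x).q := fun h X x =>
    cmb_gauge star_mul star_star (fun _ => star_q _) (q_star _) x
  rw [avH, avH, ← LinearMap.mulLeft_apply ℝ (h 0).q, mean_lin, mean_mul]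
  congr 1
  funext t
  rw [sh_gH, e, e, lnP_gH, zero_add, show t + up l (un μ) = t + ((LL l : ℕ) : ℤ) • un μ from rfl]
  simp only [star_mul, star_star, mul_assoc, LinearMap.mulLeft_apply]
  rw [← mul_assoc (star (h t).q), star_q, one_mul, ← mul_assoc (star (h (t + _)).q), star_q, one_mul]

theorem blkH_gH (l : ℕ) (h : St → S3) (X : FH) :
    blkH l (gH h X) = gH (fun y => h (up l y)) (blkH l X) := by
  funext b
  rw [blkH, sh_gH, avH_gH, zero_add, gH, gauge, blkH, YD.nrm, YD.nrm, norm_mul, norm_mul, norm_star,
    S3.norm_q, S3.norm_q, one_mul, mul_one, mul_smul_comm, smul_mul_assoc, up_add, add_comm]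

theorem blkH_per {l n : ℕ} {X : FH} (h : Per (LL l * n) X) : Per n (blkH l X) := fun μ => by
  funext b
  simp only [sh_apply, blkH, sh_up h]

theorem dnH_per {v m : ℕ} {X : FH} (h : Per (nn (v + m)) X) : Per (nn v) (dnH v m X) := by
  induction m generalizing v with
  | zero => exact h
  | succ m ih =>
    refine blkH_per ?_
    rw [← M3.nn_succ]
    exact ih (by rwa [add_right_comm])

variable {m n : ℕ}

theorem ln_liftH (U : YD.Fld n) (c p : St) (i : Fin 3) (k : ℤ) :
    ln star (sh c (lift U)) p i k = YD.line U (cst n c + cst n p) i k := by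
  have h1 : ∀ k, lnP (sh c (lift U)) p i k = YD.line U (cst n c + cst n p) i (.ofNat k) :=
    fun k => by
    induction k with
    | zero => rfl
    | succ k ih =>
      rw [lnP, ih]
      simp only [lift, sh, cst_add, cst_un]
      simp [YD.line, List.range_succ, add_comm, add_left_comm]
  have h2 : ∀ k, lnN star (sh c (lift U)) p i k = ((List.range k).map fun s : ℕ =>
      star (U (cst n c + cst n p - Pi.single i (s + 1 : ZMod n), i))).prod := fun k => by
    induction k with
    | zero => rfl
    | succ k ih =>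
      rw [lnN, ih, List.range_succ, List.map_append, List.prod_append]
      simp only [lift, sh, cst_add, cst_sub, cst_un, add_comm (_ - _), add_sub_assoc]
      simp
  cases k with
  | ofNat k => rw [ln, h1, show (-Int.ofNat k).toNat = 0 by simp, lnN, mul_one]; rfl
  | negSucc k => rw [ln, h2, show (Int.negSucc k).toNat = 0 from rfl, lnP, one_mul]; rfl

theorem cmb_liftH (U : YD.Fld n) (c t : St) :
    cmb star (sh c (lift U)) t = YD.comb U (cst n c) t := by
  simp only [cmb, ln_liftH, YD.comb, ← M3.pre_2, ← M3.pre_1, M3.pre_0, cst_add, cst_un, cst_zero,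
    zero_add, add_zero, add_assoc]

theorem avH_lift (l : ℕ) (U : YD.Fld n) (c : St) (i : Fin 3) :
    avH l i (sh c (lift U)) = YD.avg l U (cst n c) i := by
  have e : ∀ c p, lnP (sh c (lift U)) p i (LL l) = YD.line U (cst n c + cst n p) i (2 * l + 1) :=
    fun c p => by rw [← ln_liftH, ← LL_cast, ln, Int.toNat_natCast,
      show (-(LL l : ℤ)).toNat = 0 by simp, lnN, mul_one]
  rw [avH, mean, YD.avg, box, LL_real]
  congr 2
  funext t
  rw [sh_sh, cmb_liftH, cmb_liftH, e, cst_add, up, cst_un, add_comm (Pi.single _ _), LL_cast]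
  push_cast
  rfl

theorem blkH_lift (l : ℕ) (U : YD.Fld m) : res n (blkH l (lift U)) = YD.block l U := by
  funext b
  have e : cst m (up l (vl b.1)) = fun k => (2 * l + 1 : ZMod m) * (b.1 k).val := by
    funext k
    simp [cst, up_apply, vl, LL]
  rw [res, blkH, avH_lift, e, YD.block]

theorem hol_liftH (U : YD.Fld n) (x : St) (i j : Fin 3) :
    hol star (lift U) x i j = YD.plaq U (cst n x) i j := by
  simp only [hol, YD.plaq, lift, cst_add, cst_un1]

theorem per_lift {α : Type} (U : (Fin 3 → ZMod n) × Fin 3 → α) : Per n (lift U) := fun μ => by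
  funext e
  simp only [lift, sh_apply, cst_add, cst_un]
  simp

theorem lift_res_per {α : Type} [NeZero n] {X : Lk → α} (h : Per n X) : lift (res n X) = X := by
  funext e
  have := per_app h (SX.md n e.1) (fun i => e.1 i / (n : ℤ)) e.2
  rw [← SX.md_eq] at this
  rw [lift_res]
  exact this.symm

instance (j : ℕ) : NeZero (nn j) := ⟨(M3.nn_pos j).ne'⟩

/-- the iterated averaging on tori in terms of periodic fields -/
theorem iter_lift (l k j : ℕ) (U : YD.Fld (LL l * nn (j + k))) :
    YD.iter l k j U = res (nn j) (dnH j k (blkH l (lift U))) := by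
  induction k generalizing j with
  | zero => exact (blkH_lift l U).symm
  | succ k ih =>
    revert U
    rw [show j + (k + 1) = j + 1 + k by ring]
    intro U
    rw [YD.iter, Function.comp, ih, dnH]
    refine (blkH_lift _ _).symm.trans ?_
    exact congrArg (fun X => res (nn j) (blkH (ll j) X))
      (lift_res_per (dnH_per (blkH_per (per_lift U))))

end Pool.Agent.Lib.MP_7f377f_mp.RG.D3.Dt
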