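import Pool.Agent.Lib.MP_7f377f_mp.R3DetF
import Pool.Agent.Lib.MP_7f377f_mp.R3DetH
import Pool.Agent.Lib.MP_7f377f_mp.R3NonB
import Pool.Agent.Lib.MP_7f377f_mp.R3End

/-! Comparison of the noisy averages with the deterministic ones. -/

noncomputable section

namespace Pool.Agent.Lib.MP_7f377f_mp.RG.D3.Dt

open Finset MeasureTheory D3.Pv M3 Filter
open scoped Quaternion ENNReal

attribute [local irreducible] box lbox cube

theorem meas_Good (ε : ℕ → ℝ) (i0 k k' : ℕ) : MeasurableSet {W | Good ε i0 k k' W} := by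
  simp only [Good, Set.ofPred_forall]
  exact .iInter fun v => .iInter fun m => .iInter fun _ => .iInter fun _ =>
    meas_dn v m (M3.meas_curv _)

theorem th_le (ε : ℕ → ℝ) (k v : ℕ) : th ε k v ≤ ε v + 8 / √(nn v) := by
  have : (2⁻¹ : ℝ) ^ v ≤ 1 := pow_le_one₀ (by norm_num) (by norm_num)
  unfold th
  gcongr
  linarith [show (0 : ℝ) < 2⁻¹ ^ k by positivity]

theorem Good.dnH {ε : ℕ → ℝ} {i0 k k' : ℕ} {V : Conf} (h : Good ε i0 k k' V)
    (hε : ∀ v ≥ i0, 500 * (LL (ll v) : ℝ) ^ 5 * (ε (v + 1) + 8 / √(nn (v + 1))) ≤ 1) (m v : ℕ)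
    (hv : v + m = k) (hi : i0 ≤ v) : dnH v m (qF V) = qF (dn v m V) := by
  induction m generalizing v with
  | zero => rfl
  | succ m ih =>
    have h1 := h (v + 1) m (by omega) (by omega)
    rw [Dt.dnH, ih (v + 1) (by omega) (by omega), dn]
    exact blkH_q h1 (small_c (curv_nonneg h1) ((mul_le_mul_of_nonneg_left (th_le ..)
      (by positivity)).trans (hε v hi)))

section run
variable (γ : ℝ) (a J l : ℕ)

open Classical in
/-- density of small field histories -/
def ro (i : ℕ) (U : Conf) : ℝ≥0∞ := if curvG (ep γ a J l i) U then rG γ a J l i (sz J l i) U else 0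

/-- the partition function -/
def ZZ : ℝ≥0∞ := ∫⁻ U, rr γ J l 0 (sz J l 0) (per (sz J l 0) U) ∂PP

/-- normalised integral over small field histories -/
def EE (i : ℕ) (φ : Conf → ℝ≥0∞) : ℝ≥0∞ :=
  (ZZ γ J l)⁻¹ * ∫⁻ U, ro γ a J l i (per (sz J l i) U) * φ (per (sz J l i) U) ∂PP

/-- thresholds -/
def eps (v : ℕ) : ℝ := (LL (ll v) : ℝ) ^ a / √(γ * nn v)

variable {γ a J l}

theorem meas_ro (i : ℕ) : Measurable (ro γ a J l i) :=
  Measurable.ite (M3.meas_curv _) (GI_rho ..).2.1 measurable_const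

theorem ro_le (i : ℕ) (U : Conf) : ro γ a J l i U ≤ rr γ J l i (sz J l i) U := by
  unfold ro
  split_ifs
  exacts [rhoG_le .., zero_le]

theorem sz_one (i : ℕ) : sz J l (i + 1) = nn (J - i) := by simp [sz]

theorem mass_rr (hγ : 0 < γ) {i : ℕ} (hi : i ≤ J + 1) :
    ∫⁻ U, rr γ J l i (sz J l i) (per (sz J l i) U) ∂PP = ZZ γ J l := by
  induction i with
  | zero => rfl
  | succ i ih =>
    rw [← ih (by omega), sz_one, sz_succ (by omega)]
    exact mass_TT (a := aq γ J l i) (by unfold aq; positivity) _ (M3.nn_pos _) (GI_rr ..).1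

theorem ZZ_pos (hγ : 0 < γ) : ZZ γ J l ≠ 0 ∧ ZZ γ J l ≠ ∞ :=
  have := mass_wil (β := γ * (LL l * nn J)) (by positivity) (LL l * nn J)
  ⟨this.1.ne', this.2.ne⟩

theorem EE_mono {i : ℕ} {φ ψ : Conf → ℝ≥0∞}
    (h : ∀ U, Per (sz J l i) U → curvG (ep γ a J l i) U → φ U ≤ ψ U) :
    EE γ a J l i φ ≤ EE γ a J l i ψ := by
  refine mul_le_mul_right (lintegral_mono fun U => ?_) _
  unfold ro
  split_ifs with h1
  · exact mul_le_mul_right (h _ (per_per _ _) h1) _
  · simp

theorem EE_add (hγ : 0 < γ) {i : ℕ} (hi : i ≤ J + 1) (φ : Conf → ℝ≥0∞) (c : ℝ≥0∞) :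
    EE γ a J l i (fun U => φ U + c) ≤ EE γ a J l i φ + c := by
  have m : Measurable fun U => ro γ a J l i (per (sz J l i) U) :=
    (meas_ro i).comp (M3.cont_per (sz J l i)).measurable
  simp only [EE, mul_add]
  rw [lintegral_add_right _ (m.mul_const c), mul_add, lintegral_mul_const c m, ← mul_assoc]
  refine add_le_add le_rfl (mul_le_of_le_one_left zero_le ?_)
  rw [← ENNReal.inv_mul_cancel (ZZ_pos (J := J) (l := l) hγ).1 (ZZ_pos hγ).2]
  exact mul_le_mul_right ((lintegral_mono fun U => ro_le i _).trans_eq (mass_rr hγ hi)) _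

theorem EE_step (hγ : 0 < γ) {i : ℕ} (hi : i ≤ J) {φ : Conf → ℝ≥0∞} (hφ : Measurable φ) :
    EE γ a J l (i + 1) φ ≤ EE γ a J l i fun U =>
      ∫⁻ w, φ (sm (lq J l i) (nn (J - i)) (U, w)) ∂nz (aq γ J l i) := by
  refine mul_le_mul_right ?_ _
  have := lint_TT (a := aq γ J l i) (by unfold aq; positivity) (lq J l i) (M3.nn_pos (J - i))
    (meas_ro (γ := γ) (a := a) (J := J) (l := l) i) hφ
  rw [← sz_succ hi] at this
  rw [← this, sz_one]
  refine lintegral_mono fun W => mul_le_mul_left ?_ _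
  refine le_trans (b := rG γ a J l (i + 1) (nn (J - i)) (per (nn (J - i)) W)) ?_
    (lintegral_mono fun U => mul_le_mul_left ?_ _)
  · rw [ro, sz_one]
    split_ifs
    exacts [le_rfl, zero_le]
  · rw [ro, sz_succ hi]
    split_ifs with h1 h2
    exacts [le_rfl, (h2 h1.1).elim, zero_le, le_rfl]

theorem ep_eq {k : ℕ} (hk : k ≤ J) : ep γ a J l (J + 1 - k) = eps γ a k := by
  simp only [ep, eps, bq, show J + 1 - (J + 1 - k) = k by omega,
    if_neg (show J + 1 - k ≠ 0 by omega)]

theorem lint_law (hγ : 0 < γ) {k : ℕ} (hk : k ≤ J) {φ : Conf → ℝ≥0∞} (hφ : Measurable φ) :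
    ∫⁻ W, φ W ∂law γ J l (J - k) = (ZZ γ J l)⁻¹ * ∫⁻ U, rr γ J l (J + 1 - k) (sz J l (J + 1 - k))
      (per (sz J l (J + 1 - k)) U) * φ (per (sz J l (J + 1 - k)) U) ∂PP := by
  have e : sz J l (J + 1 - k) = nn k := by
    rw [show J + 1 - k = J - k + 1 by omega, sz_one, show J - (J - k) = k by omega]
  rw [← mass_rr hγ (show J + 1 - k ≤ J + 1 by omega), e, (En.law_lev hγ l hk).1,
    lint_lawOf _ (GI_rr ..).1 hφ]

theorem law_le (hγ : 0 < γ) {k : ℕ} (hk : k ≤ J) {φ : Conf → ℝ≥0∞} (hφ : Measurable φ)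
    (h1 : ∀ W, φ W ≤ 1) (S : Set Conf) :
    ∫⁻ W, φ W ∂law γ J l (J - k) + EE γ a J l (J + 1 - k) (S.indicator 1) ≤
      EE γ a J l (J + 1 - k) (S.indicator φ) + 1 := by
  have hp := (M3.cont_per (sz J l (J + 1 - k))).measurable
  have m : Measurable fun U => rr γ J l (J + 1 - k) (sz J l (J + 1 - k))
    (per (sz J l (J + 1 - k)) U) := (GI_rr ..).1.comp hp
  have m2 : Measurable fun U => φ (per (sz J l (J + 1 - k)) U) := hφ.comp hp
  rw [lint_law hγ hk hφ, ← ENNReal.inv_mul_cancel (ZZ_pos (J := J) (l := l) hγ).1 (ZZ_pos hγ).2,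
    EE, EE, ← mul_add, ← mul_add]
  refine mul_le_mul_right ?_ _
  rw [← mass_rr hγ (show J + 1 - k ≤ J + 1 by omega), ← lintegral_add_left (m.fun_mul m2),
    ← lintegral_add_right _ m]
  refine lintegral_mono fun U => ?_
  obtain ⟨d, hd⟩ := exists_add_of_le (ro_le (γ := γ) (a := a) (J := J) (l := l) (J + 1 - k)
    (per (sz J l (J + 1 - k)) U))
  by_cases h : per (sz J l (J + 1 - k)) U ∈ S
  · rw [hd, Set.indicator_of_mem h, Set.indicator_of_mem h, Pi.one_apply, mul_one, add_mul,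
      add_assoc, add_comm (d * _)]
    gcongr
    exact mul_le_of_le_one_right zero_le (h1 _)
  · rw [Set.indicator_of_notMem h, Set.indicator_of_notMem h, mul_zero, add_zero, zero_add]
    exact mul_le_of_le_one_right zero_le (h1 _)

end run

theorem num_eps {γ : ℝ} (hγ : 0 < γ) (a : ℕ) : ∀ᶠ v : ℕ in atTop,
    500 * (LL (ll v) : ℝ) ^ 6 * (eps γ a v + 8 / √(nn v)) ≤ 1 := by
  obtain ⟨j0, h0⟩ := Nn.big (2 * (a + 15)) hγ
  obtain ⟨j1, h1⟩ := Nn.big (2 * 15) one_pos
  filter_upwards [eventually_ge_atTop j0, eventually_ge_atTop j1] with v v0 v1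
  have L3 : (3 : ℝ) ≤ LL (ll v) := by
    rw [LL_ll_real]
    nlinarith [one_le_pow₀ (n := v) (show (1 : ℝ) ≤ 3 by norm_num)]
  have L9 : (3 : ℝ) ^ 9 ≤ LL (ll v) ^ 9 := by gcongr
  have a1 := Real.le_sqrt_of_sq_le (show ((LL (ll v) : ℝ) ^ (a + 15)) ^ 2 ≤ γ * nn v by
    rw [← pow_mul, mul_comm]; exact h0 v v0)
  have a2 := Real.le_sqrt_of_sq_le (show ((LL (ll v) : ℝ) ^ 15) ^ 2 ≤ nn v by
    rw [← pow_mul, mul_comm]; simpa using h1 v v1)
  have L0 := LL_pos' (ll v)
  calc _ ≤ 500 * (LL (ll v) : ℝ) ^ 6 * (LL (ll v) ^ a / LL (ll v) ^ (a + 15) +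
        8 / LL (ll v) ^ 15) := by unfold eps; gcongr
    _ = 4500 / LL (ll v) ^ 9 := by field_simp; ring
    _ ≤ 1 := by rw [div_le_one (by positivity)]; linarith

theorem core (hb : En.Bad) : ∃ a : ℕ, ∀ γ > 0, ∀ η > 0, ∀ᶠ i0 : ℕ in atTop, ∀ k0 ≥ i0, ∀ J l,
    k0 ≤ J → Adm J l → ∀ (G : ℕ → Conf → ℝ≥0∞) (H : FH → ℝ≥0∞), (∀ k, Measurable (G k)) →
    (∀ k X, G k X ≤ 1) → (∀ k ≥ k0, ∀ (h : St → S3) (u X : Conf), PerS (nn i0) h →
      (∀ f, ‖(u f).q - 1‖ ≤ 2⁻¹ ^ k / √(nn i0)) → G k (gauge Inv.inv h (u * X)) ≤ G (k + 1) X) →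
    (∀ X, Per (nn i0) X → curvG (eps γ a i0 + 8 / √(nn i0)) X → G (J + 1) X ≤ H (qF X)) →
    (Measurable fun U => H (dnH i0 (J - i0) (blkH l (qF U)))) →
    ∫⁻ W, G k0 (dn i0 (k0 - i0) W) ∂law γ J l (J - k0) ≤
      ∫⁻ U, H (dnH i0 (J - i0) (blkH l (qF U))) ∂wilson (γ * (LL l * nn J)) (LL l * nn J) +
        ENNReal.ofReal η := by
  obtain ⟨a, hb⟩ := hb
  refine ⟨a, fun γ hγ η hη => ?_⟩
  obtain ⟨j0, hb⟩ := hb a le_rfl γ hγ (η / 2) (by positivity)
  have t2 := (tendsto_pow_atTop_nhds_zero_of_lt_one (r := (2⁻¹ : ℝ)) (by norm_num)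
    (by norm_num)).eventually (ge_mem_nhds (show 0 < η / 10 by positivity))
  filter_upwards [eventually_forall_ge_atTop.2 (hyb hγ), eventually_forall_ge_atTop.2
    (num_eps hγ a), eventually_ge_atTop j0, t2] with i0 hy hn hj h2 k0 hk0 J l hJ hl G H mG G1 hG
    hH mH
  have hε : ∀ v ≥ i0, 500 * (LL (ll v) : ℝ) ^ 5 * (eps γ a (v + 1) + 8 / √(nn (v + 1))) ≤ 1 :=
    fun v hv => le_trans (by
      have : 0 ≤ eps γ a (v + 1) := by unfold eps; positivity
      have h1 : (1 : ℝ) ≤ LL (ll (v + 1)) := by exact_mod_cast LL_pos _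
      gcongr ?_ * _
      exact mul_le_mul_of_nonneg_left ((pow_le_pow_left₀ (by positivity) (LL_mono v.le_succ) 5).trans
        (pow_le_pow_right₀ h1 (by norm_num))) (by norm_num)) (hn (v + 1) (by omega))
  have main : ∀ (k1 : ℕ) (G : ℕ → Conf → ℝ≥0∞), i0 ≤ k1 → (∀ k, Measurable (G k)) →
      (∀ k X, G k X ≤ 1) → (∀ k ≥ k1, ∀ (h : St → S3) (u X : Conf), PerS (nn i0) h →
      (∀ f, ‖(u f).q - 1‖ ≤ 2⁻¹ ^ k / √(nn i0)) → G k (gauge Inv.inv h (u * X)) ≤ G (k + 1) X) →
      (∀ k, k1 ≤ k → k ≤ J → EE γ a J l (J + 1 - k)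
        ({W | Good (eps γ a) i0 k k W}.indicator fun W => G k (dn i0 (k - i0) W)) ≤
        EE γ a J l (J - k) (fun U => {V | Good (eps γ a) i0 k (k + 1) V}.indicator
          (fun V => G (k + 1) (dn i0 (k - i0) V)) (blk (lq J l (J - k)) U)) +
          ENNReal.ofReal (2⁻¹ ^ k)) ∧
      ∀ d k, k1 ≤ k → k + d ≤ J → EE γ a J l (J + 1 - k)
        ({W | Good (eps γ a) i0 k k W}.indicator fun W => G k (dn i0 (k - i0) W)) ≤
        EE γ a J l (J + 1 - (k + d)) ({W | Good (eps γ a) i0 (k + d) (k + d) W}.indicator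
          fun W => G (k + d) (dn i0 (k + d - i0) W)) + ENNReal.ofReal (2 * 2⁻¹ ^ k) := by
    intro k1 G hk1 mG G1 hG
    refine (and_iff_left_of_imp fun s1 => ?_).2 fun k h1 h2 => ?_
    · intro d
      induction d with
      | zero => exact fun k _ _ => le_self_add
      | succ d ih =>
        intro k h1 h2
        have := ih (k + 1) (by omega) (by omega)
        rw [show k + 1 + d = k + (d + 1) by ring, show J + 1 - (k + 1) = J - k by omega] at this
        refine (s1 k h1 (by omega)).trans ((add_le_add ((EE_mono fun U _ hU => ?_).trans this)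
          le_rfl).trans_eq ?_)
        · rw [lq, if_neg (by omega), show J - (J - k) = k by omega]
          refine Set.indicator_apply_le' (fun h => ?_) fun _ => zero_le
          rw [Set.indicator_of_mem, show k + 1 - i0 = k - i0 + 1 by omega, dn_succ,
            show i0 + (k - i0) = k by omega]
          intro v m hv hi
          cases m with
          | zero =>
            rw [show J - k = J + 1 - (k + 1) by omega, ep_eq (by omega)] at hU
            obtain rfl : v = k + 1 := hv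
            simpa [th, dn] using hU
          | succ m =>
            rw [dn_succ, show v + m = k by omega]
            exact h v m (by omega) hi
        · rw [add_assoc, ← ENNReal.ofReal_add (by positivity) (by positivity)]
          congr 2
          ring
    · rw [show J + 1 - k = J - k + 1 by omega]
      refine (EE_step hγ (by omega) (((mG k).comp (meas_dn _ _)).indicator
        (meas_Good ..))).trans ((EE_mono fun U hU _ => ?_).trans (EE_add hγ (by omega) _ _))
      rw [sz_succ (by omega)] at hU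
      have pV := blk_per hU
      rw [show J - (J - k) = k by omega] at pV ⊢
      have ha : γ * nn k * LL (ll k) ^ 3 ≤ aq γ J l (J - k) := by
        rw [aq, show J - (J - k) = k by omega, lq]
        split_ifs with h
        · obtain rfl : k = J := by omega
          gcongr
          exact hl.1
        · rw [show J - (J - k) = k by omega]
      have := prob_nz (le_trans (by positivity) ha)
      obtain ⟨B, b1, b2⟩ := hy k (by omega) (eps γ a) i0 (by omega)
        (fun v => by unfold eps; positivity) hε _ ha _ pV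
      refine (lintegral_mono (g := fun w => {V | Good (eps γ a) i0 k (k + 1) V}.indicator
        (fun V => G (k + 1) (dn i0 (k - i0) V)) (blk (lq J l (J - k)) U) + B.indicator 1 w)
        fun w => ?_).trans ?_
      · have e : sm (lq J l (J - k)) (nn k) (U, w) = per (nn k) w * blk (lq J l (J - k)) U := by
          rw [← per_self pV]
          rfl
        beta_reduce
        rw [e]
        refine Set.indicator_apply_le' (fun h => ?_) fun _ => zero_le
        by_cases hw : w ∈ B
        · rw [Set.indicator_of_mem hw]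
          exact (G1 _ _).trans le_add_self
        · obtain ⟨g1, g, u, p, e1, n⟩ := b2 w hw h
          rw [Set.indicator_of_mem (show _ ∈ {V | Good (eps γ a) i0 k (k + 1) V} from g1),
            Function.comp, e1]
          exact (hG k h1 g u _ p n).trans le_self_add
      · rw [lintegral_add_left measurable_const, lintegral_const, measure_univ, mul_one]
        refine add_le_add le_rfl ((lintegral_indicator_one_le B).trans ?_)
        exact (ENNReal.le_ofReal_iff_toReal_le (measure_ne_top _ _) (by positivity)).2 b1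
  obtain ⟨m1, m2⟩ := main k0 G hk0 mG G1 hG
  have x1 := (main i0 (fun _ _ => 1) le_rfl (fun _ => measurable_const) (fun _ _ => le_rfl)
    fun _ _ _ _ _ _ _ => le_rfl).2 (k0 - i0) i0 le_rfl (by omega)
  rw [show i0 + (k0 - i0) = k0 by omega] at x1
  have x0 : ENNReal.ofReal (1 - η / 2) ≤ EE γ a J l (J + 1 - i0)
      ({W | Good (eps γ a) i0 i0 i0 W}.indicator fun _ => 1) := by
    refine le_trans ?_ (EE_mono (φ := fun _ => 1) fun U _ hU => ?_)
    · have e : sz J l (J + 1 - i0) = nn i0 := by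
        rw [show J + 1 - i0 = J - i0 + 1 by omega, sz_one, show J - (J - i0) = i0 by omega]
      have := hb i0 hj J l (by omega) hl
      rw [← e, mass_rr hγ (by omega)] at this
      rw [EE, ← ENNReal.div_eq_inv_mul, ENNReal.le_div_iff_mul_le (.inl (ZZ_pos hγ).1)
        (.inl (ZZ_pos hγ).2)]
      simpa only [mul_one, ro] using this
    · rw [Set.indicator_of_mem]
      intro v m hv hi
      obtain rfl : m = 0 := by omega
      obtain rfl : v = i0 := hv
      rw [ep_eq (by omega)] at hU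
      simpa [th, dn] using hU
  have y1 := m2 (J - k0) k0 le_rfl (by omega)
  rw [show k0 + (J - k0) = J by omega] at y1
  have y2 := m1 J hJ le_rfl
  have y3 : EE γ a J l (J - J) (fun U => {V | Good (eps γ a) i0 J (J + 1) V}.indicator
      (fun V => G (J + 1) (dn i0 (J - i0) V)) (blk (lq J l (J - J)) U)) ≤
      ∫⁻ U, H (dnH i0 (J - i0) (blkH l (qF U))) ∂wilson (γ * (LL l * nn J)) (LL l * nn J) := by
    rw [Nat.sub_self, wilson, lint_lawOf _ (GI_wil ..).1 mH]
    refine (EE_mono (ψ := fun U => H (dnH i0 (J - i0) (blkH l (qF U)))) fun U pU hU => ?_).trans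
      (mul_le_mul_right (lintegral_mono fun U => mul_le_mul_left (ro_le 0 _) _) _)
    refine Set.indicator_apply_le' (fun h => ?_) fun _ => zero_le
    have c0 := curv_nonneg hU
    have e : blkH l (qF U) = qF (blk l U) := blkH_q hU (le_trans (by
      have h1 : (LL (ll J) : ℝ) ≤ LL l := by exact_mod_cast hl.1
      have h2 : (LL l : ℝ) ≤ LL (ll J) ^ 3 := by exact_mod_cast hl.2
      have h3 := nn_pos' J
      have h4 := LL_pos' (ll J)
      have h5 := LL_mono J.le_succ
      have h6 : ep γ a J l 0 ≤ eps γ a (J + 1) + 8 / √(nn (J + 1)) :=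
        le_add_of_le_of_nonneg (by
          simp only [ep, eps, bq, if_true, Nat.sub_zero, nn_real]
          gcongr) (by positivity)
      gcongr ?_ * ?_
      refine mul_le_mul_of_nonneg_left ((pow_le_pow_left₀ (by positivity) h2 2).trans ?_)
        (by norm_num)
      rw [← pow_mul]
      gcongr) (hn (J + 1) (by omega)))
    rw [e, Good.dnH (V := blk l U) h hε (J - i0) i0 (by omega) le_rfl]
    exact hH _ (dn_per ((show J = i0 + (J - i0) by omega) ▸ blk_per pU)) fun x μ ν =>
      (h i0 (J - i0) (by omega) le_rfl x μ ν).trans (th_le ..)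
  have z := law_le (a := a) (l := l) hγ hJ ((mG k0).comp (meas_dn i0 (k0 - i0))) (fun _ => G1 _ _)
    {W | Good (eps γ a) i0 k0 k0 W}
  have p1 : (2⁻¹ : ℝ) ^ k0 ≤ 2⁻¹ ^ i0 := pow_le_pow_of_le_one (by norm_num) (by norm_num) hk0
  have p2 : (2⁻¹ : ℝ) ^ J ≤ 2⁻¹ ^ i0 := pow_le_pow_of_le_one (by norm_num) (by norm_num) (by omega)
  refine (ENNReal.add_le_add_iff_right (a := ENNReal.ofReal (1 - η / 2)) ENNReal.ofReal_ne_top).1
    ((add_le_add le_rfl (x0.trans x1)).trans ?_)
  rw [← add_assoc]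
  refine (add_le_add (z.trans (add_le_add (y1.trans (add_le_add (y2.trans (add_le_add y3 le_rfl))
    le_rfl)) le_rfl)) le_rfl).trans ?_
  simp only [add_assoc]
  refine add_le_add le_rfl ?_
  rw [← ENNReal.ofReal_one, ← ENNReal.ofReal_add (by positivity) (by positivity),
    ← ENNReal.ofReal_add (by positivity) (by positivity),
    ← ENNReal.ofReal_add (by positivity) (by positivity)]
  exact le_trans (ENNReal.ofReal_le_ofReal (by linarith)) ENNReal.ofReal_add_le

end Pool.Agent.Lib.MP_7f377f_mp.RG.D3.Dt
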