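import Pool.Agent.Lib.MP_7f377f_mp.R3DetG

/-! The expectations of continuous functions of the deterministic averages converge. -/

noncomputable section

namespace Pool.Agent.Lib.MP_7f377f_mp.RG.D3.Dt

open MeasureTheory D3.Pv M3 Filter Fi
open scoped Quaternion ENNReal

/-- pairs of uniformly close fields -/
def Nr (r : ℝ) : Set (Conf × Conf) := {p | ∀ e, ‖(p.1 e).q - (p.2 e).q‖ ≤ r}

theorem closed_Nr (r : ℝ) : IsClosed (Nr r) := by
  simp only [Nr, Set.ofPred_forall]
  exact isClosed_iInter fun e => isClosed_le (((Ms.cont_q.comp ((continuous_apply e).comp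
    continuous_fst)).sub (Ms.cont_q.comp ((continuous_apply e).comp continuous_snd))).norm)
    continuous_const

/-- supremum over a neighbourhood -/
def Gs (G : Conf → ℝ) (r : ℝ) (X : Conf) : ℝ≥0∞ := ⨆ (Y) (_ : (X, Y) ∈ Nr r), ENNReal.ofReal (G Y)

theorem meas_Gs {G : Conf → ℝ} (hG : Continuous G) (r : ℝ) : Measurable (Gs G r) := by
  refine measurable_of_Ioi fun t => ?_
  have : Gs G r ⁻¹' Set.Ioi t = ⋃ (q : ℚ) (_ : t < ENNReal.ofReal q),
      Prod.fst '' (Nr r ∩ {p | ENNReal.ofReal q ≤ ENNReal.ofReal (G p.2)}) := by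
    ext X
    simp only [Gs, Set.mem_preimage, Set.mem_Ioi, lt_iSup_iff, Set.mem_iUnion, Set.mem_image]
    constructor
    · rintro ⟨Y, h1, h2⟩
      obtain ⟨q, -, h3, h4⟩ := ENNReal.lt_iff_exists_rat_btwn.1 h2
      exact ⟨q, h3, (X, Y), ⟨h1, h4.le⟩, rfl⟩
    · rintro ⟨q, h3, ⟨X, Y⟩, ⟨h1, h2⟩, rfl⟩
      exact ⟨Y, h1, h3.trans_le h2⟩
  rw [this]
  exact .iUnion fun q => .iUnion fun _ => (((closed_Nr r).inter (isClosed_le continuous_const
    (ENNReal.continuous_ofReal.comp (hG.comp continuous_snd)))).isCompact.image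
      continuous_fst).isClosed.measurableSet

theorem unif {G : Conf → ℝ} (hG : Continuous G) {η : ℝ} (hη : 0 < η) :
    ∀ᶠ k : ℕ in atTop, ∀ p ∈ Nr (2 * 2⁻¹ ^ k), G p.2 ≤ G p.1 + η := by
  by_contra h
  have c : IsClosed {p : Conf × Conf | G p.1 + η ≤ G p.2} :=
    isClosed_le ((hG.comp continuous_fst).add continuous_const) (hG.comp continuous_snd)
  have mono : ∀ {k k' : ℕ}, k ≤ k' → Nr (2 * 2⁻¹ ^ k') ⊆ Nr (2 * 2⁻¹ ^ k) := fun h p hp e =>
    (hp e).trans (mul_le_mul_of_nonneg_left (pow_le_pow_of_le_one (by norm_num) (by norm_num) h)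
      (by norm_num))
  obtain ⟨p, hp⟩ := IsCompact.nonempty_iInter_of_sequence_nonempty_isCompact_isClosed
    (fun k : ℕ => Nr (2 * 2⁻¹ ^ k) ∩ {p : Conf × Conf | G p.1 + η ≤ G p.2})
    (fun k => Set.inter_subset_inter_left _ (mono k.le_succ)) (fun k => by
      obtain ⟨k', h1, h2⟩ := frequently_atTop.1 (not_eventually.1 h) k
      push Not at h2
      obtain ⟨p, h2, h3⟩ := h2
      exact ⟨p, mono h1 h2, h3.le⟩) ((closed_Nr _).inter c).isCompact
    fun k => (closed_Nr _).inter c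
  rw [Set.mem_iInter] at hp
  have e : p.1 = p.2 := funext fun e => S3.ext (sub_eq_zero.1 (norm_le_zero_iff.1
    (ge_of_tendsto' (by simpa using (tendsto_pow_atTop_nhds_zero_of_lt_one (r := (2⁻¹ : ℝ))
      (by norm_num) (by norm_num)).const_mul 2) fun k => (hp k).1 e)))
  have := (hp 0).2
  rw [Set.mem_ofPred_eq, e] at this
  linarith

theorem gauge_near (h : St → S3) (X Y : Conf) (e : Lk) :
    ‖(gauge Inv.inv h X e).q - (gauge Inv.inv h Y e).q‖ = ‖(X e).q - (Y e).q‖ := by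
  simp only [gauge, S3.q_mul]
  rw [← sub_mul, ← mul_sub, norm_mul, norm_mul, S3.norm_q, S3.norm_q, one_mul, mul_one]

theorem toReal_le {X Y : Type} [MeasurableSpace X] [MeasurableSpace Y] {μ : Measure X}
    {ν : Measure Y} [IsProbabilityMeasure ν] {f : X → ℝ} {g : Y → ℝ} (hf : Measurable f)
    (hg : Measurable g) (f0 : ∀ x, 0 ≤ f x) (g0 : ∀ x, 0 ≤ g x) (g1 : ∀ x, g x ≤ 1) {η : ℝ}
    (hη : 0 ≤ η) (h : ∫⁻ x, ENNReal.ofReal (f x) ∂μ ≤
      ∫⁻ x, ENNReal.ofReal (g x) ∂ν + ENNReal.ofReal η) : ∫ x, f x ∂μ ≤ ∫ x, g x ∂ν + η := by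
  have : ∫⁻ x, ENNReal.ofReal (g x) ∂ν ≠ ∞ := ((lintegral_mono (g := fun _ => 1) fun x =>
    ENNReal.ofReal_le_one.2 (g1 x)).trans_lt (by simp)).ne
  rw [integral_eq_lintegral_of_nonneg_ae (.of_forall f0) hf.aestronglyMeasurable,
    integral_eq_lintegral_of_nonneg_ae (.of_forall g0) hg.aestronglyMeasurable,
    ← ENNReal.toReal_ofReal hη, ← ENNReal.toReal_add this ENNReal.ofReal_ne_top]
  exact ENNReal.toReal_mono (by finiteness) h

theorem le_int {X : Type} [MeasurableSpace X] {μ ν : Measure X} [IsProbabilityMeasure ν] {η : ℝ}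
    (hη : 0 ≤ η) (h : CE.Le μ ν (ENNReal.ofReal η)) {f : X → ℝ} (hf : Measurable f)
    (f0 : ∀ x, 0 ≤ f x) (f1 : ∀ x, f x ≤ 1) : ∫ x, f x ∂μ ≤ ∫ x, f x ∂ν + η := by
  refine toReal_le hf hf f0 f0 f1 hη ?_
  rw [lintegral_eq_lintegral_meas_lt μ (.of_forall f0) hf.aemeasurable,
    lintegral_eq_lintegral_meas_lt ν (.of_forall f0) hf.aemeasurable]
  refine (lintegral_mono (g := fun t => ν {a | t < f a} + (Set.Ioo 0 1).indicator
    (fun _ => ENNReal.ofReal η) t + (Set.Iic 0).indicator (fun _ => ∞) t) fun t => ?_).trans ?_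
  · beta_reduce
    rcases le_or_gt t 0 with h0 | h0
    · simp [Set.indicator_of_mem (Set.mem_Iic.2 h0)]
    rcases lt_or_ge t 1 with h1 | h1
    · rw [Set.indicator_of_mem (Set.mem_Ioo.2 ⟨h0, h1⟩)]
      exact (h _ (measurableSet_lt measurable_const hf)).trans le_self_add
    · rw [show {a | t < f a} = ∅ from Set.eq_empty_of_forall_notMem fun a ha =>
        (ha.trans_le ((f1 a).trans h1)).false]
      simp
  · rw [lintegral_add_right _ (measurable_const.indicator measurableSet_Iic),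
      lintegral_add_right _ (measurable_const.indicator measurableSet_Ioo),
      lintegral_indicator measurableSet_Iic, lintegral_indicator measurableSet_Ioo,
      Measure.restrict_restrict measurableSet_Iic, Measure.restrict_restrict measurableSet_Ioo,
      Set.Iic_inter_Ioi, Set.inter_eq_left.2 Set.Ioo_subset_Ioi_self]
    simp

/-- the averaged field of a run at level `j` -/
def XX (J l j : ℕ) (U : Conf) : FH := dnH j (J - j) (blkH l (qF U))

theorem cont_XX (J l j : ℕ) : Continuous (XX J l j) :=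
  (cont_dnH _ _).comp ((cont_blkH _).comp cont_qF)

/-- the Wilson measure of a run -/
def ww (γ : ℝ) (J l : ℕ) : Measure Conf := wilson (γ * (LL l * nn J)) (LL l * nn J)

theorem ww_prob {γ : ℝ} (hγ : 0 < γ) (J l : ℕ) : IsProbabilityMeasure (ww γ J l) :=
  wilson_prob (by positivity) _

theorem approx (hb : En.Bad) {γ : ℝ} (hγ : 0 < γ) {η : ℝ} (hη : 0 < η) : ∀ᶠ i : ℕ in atTop,
    ∀ G : FH → ℝ, Continuous G → (∀ X, 0 ≤ G X) → (∀ X, G X ≤ 1) →
      (∀ h X, PerS (nn i) h → G (gH h X) = G X) → ∀ᶠ k : ℕ in atTop, ∀ J l, k ≤ J → Adm J l →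
        ∫ W, G (qF (dn i (k - i) W)) ∂law γ J l (J - k) ≤ ∫ U, G (XX J l i U) ∂ww γ J l + η := by
  obtain ⟨a, h⟩ := core hb
  filter_upwards [h γ hγ (η / 2) (by positivity)] with i h G c G0 G1 gi
  have cq := c.comp cont_qF
  filter_upwards [unif cq (half_pos hη), eventually_ge_atTop i] with k hu hk J l hJ hl
  have := ww_prob hγ J l
  have mH : Measurable fun U => ENNReal.ofReal (G (XX J l i U)) :=
    (c.comp (cont_XX J l i)).measurable.ennreal_ofReal
  have := h k hk J l hJ hl (fun k' => Gs (G ∘ qF) (2 * (2⁻¹ ^ k - 2⁻¹ ^ k')))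
    (fun X => ENNReal.ofReal (G X) + ENNReal.ofReal (η / 2)) (fun _ => meas_Gs cq _)
    (fun _ _ => iSup₂_le fun Y _ => ENNReal.ofReal_le_one.2 (G1 _))
    (fun k' _ g u X p n => iSup₂_le fun Y hY => le_iSup₂_of_le (gauge Inv.inv g⁻¹ Y) (fun e => by
      have h1 := hY e
      have h2 := n e
      have h3 : (2⁻¹ : ℝ) ^ k' / √(nn i) ≤ 2⁻¹ ^ k' :=
        div_le_self (by positivity) (Real.one_le_sqrt.2 (one_le_nn i))
      rw [← gauge_near g⁻¹, gauge_gauge, inv_mul_cancel] at h1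
      have h4 := norm_sub_le_norm_sub_add_norm_sub (X e).q ((u * X) e).q
        (gauge Inv.inv g⁻¹ Y e).q
      rw [norm_sub_rev (X e).q ((u * X) e).q, S3.norm_sub _ (X e), Pi.mul_apply,
        mul_inv_cancel_right] at h4
      simp only [gauge, Pi.one_apply, one_mul, inv_one, mul_one, Pi.mul_apply] at h1 h4 ⊢
      rw [pow_succ]
      linarith) (by
      rw [Function.comp, Function.comp, ← gH_q, gi _ _ fun x v => congrArg Inv.inv (p x v)]))
    (fun X _ _ => iSup₂_le fun Y hY => by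
      rw [← ENNReal.ofReal_add (G0 _) (by positivity)]
      exact ENNReal.ofReal_le_ofReal (hu (X, Y) fun e => (hY e).trans (by
        linarith [show (0 : ℝ) < 2⁻¹ ^ (J + 1) by positivity])))
    (mH.add_const _)
  refine toReal_le (cq.measurable.comp (meas_dn _ _)) (c.comp (cont_XX J l i)).measurable
    (fun _ => G0 _) (fun _ => G0 _) (fun _ => G1 _) hη.le ((lintegral_mono fun W =>
      le_iSup₂_of_le (dn i (k - i) W) (fun e => by simp) le_rfl).trans (this.trans_eq ?_))
  rw [lintegral_add_right _ measurable_const, lintegral_const, add_assoc]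
  erw [measure_univ (μ := ww γ J l)]
  rw [mul_one, ← ENNReal.ofReal_add (by positivity) (by positivity), add_halves]
  rfl

theorem dnH_gH (m v : ℕ) {h : St → S3} (p : PerS (nn (v + m)) h) :
    ∃ g, PerS (nn v) g ∧ ∀ X, dnH v m (gH h X) = gH g (dnH v m X) := by
  induction m generalizing v with
  | zero => exact ⟨h, p, fun _ => rfl⟩
  | succ m ih =>
    obtain ⟨g, p, e⟩ := ih (v + 1) (by rwa [add_right_comm])
    refine ⟨fun y => g (up (ll v) y), fun x w => ?_, fun X => by rw [dnH, e, blkH_gH, dnH]⟩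
    rw [M3.nn_succ] at p
    simp only [up_add, SX.up_smul, p _ w]

theorem perS_yo {l n : ℕ} {g : St → S3} (p : PerS n g) : PerS (LL l * n) fun x => g (yo l x) :=
  fun x w => by simp only [← SX.up_smul, yo_add_up, p _ w]

theorem gH_dnH (m v : ℕ) {g : St → S3} (p : PerS (nn v) g) :
    ∃ h, PerS (nn (v + m)) h ∧ ∀ X, dnH v m (gH h X) = gH g (dnH v m X) := by
  induction m generalizing v g with
  | zero => exact ⟨g, p, fun _ => rfl⟩
  | succ m ih =>
    obtain ⟨h, p, e⟩ := ih (v + 1) (M3.nn_succ v ▸ perS_yo (l := ll v) p)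
    exact ⟨h, by rwa [add_right_comm] at p, fun X => by simp only [dnH, e, blkH_gH, yo_up]⟩

theorem wil_gauge (β : ℝ) {n : ℕ} {h : St → S3} (p : PerS n h) :
    (wilson β n).map (gauge Inv.inv h) = wilson β n := by
  refine Measure.ext_of_lintegral _ fun φ hφ => ?_
  have m := (mp_gauge h).measurable
  rw [lintegral_map hφ m, wilson, lint_lawOf _ (GI_wil β n).1 hφ,
    lint_lawOf _ (G := fun V => φ (gauge Inv.inv h V)) (GI_wil β n).1 (hφ.comp m),
    ← (mp_gauge h).lintegral_comp (f := fun U => ENNReal.ofReal (Real.exp (β * wil n (per n U))) *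
      φ (per n U)) (((GI_wil β n).1.mul hφ).comp (M3.cont_per n).measurable)]
  simp only [per_gauge (PS_iff.2 p), (GI_wil β n).2 h _ p]

theorem ww_gauge {γ : ℝ} {J l j : ℕ} (hJ : j ≤ J) {g : St → S3} (p : PerS (nn j) g) {F : FH → ℝ}
    (c : Continuous F) :
    ∫ U, F (gH g (XX J l j U)) ∂ww γ J l = ∫ U, F (XX J l j U) ∂ww γ J l := by
  obtain ⟨h, p, e⟩ := gH_dnH (J - j) j p
  rw [show j + (J - j) = J by omega] at p
  have m : Continuous fun U => F (XX J l j U) := c.comp (cont_XX J l j)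
  have := integral_map (μ := ww γ J l) (mp_gauge fun x => h (yo l x)).measurable.aemeasurable
    m.aestronglyMeasurable
  rw [show (ww γ J l).map _ = ww γ J l from wil_gauge _ (perS_yo p)] at this
  rw [this]
  simp only [XX, ← gH_q, blkH_gH, yo_up, e]

theorem avg_gauge {j : ℕ} {F : FH → ℝ} (c : Continuous F) (F0 : ∀ X, 0 ≤ F X) (F1 : ∀ X, F X ≤ 1) :
    ∃ G : FH → ℝ, Continuous G ∧ (∀ X, 0 ≤ G X) ∧ (∀ X, G X ≤ 1) ∧
      (∀ h X, PerS (nn j) h → G (gH h X) = G X) ∧ ∀ γ > 0, ∀ J l, j ≤ J →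
        ∫ U, G (XX J l j U) ∂ww γ J l = ∫ U, F (XX J l j U) ∂ww γ J l := by
  set P : Measure ((Fin 3 → ZMod (nn j)) → S3) := Measure.pi fun _ => haar
  obtain ⟨Φ, hΦ⟩ : ∃ Φ : FH → ((Fin 3 → ZMod (nn j)) → S3) → ℝ,
    ∀ X g, Φ X g = F (gH (fun x => g (cst _ x)) X) := ⟨_, fun _ _ => rfl⟩
  have cg : Continuous fun p : FH × ((Fin 3 → ZMod (nn j)) → S3) => Φ p.1 p.2 := by
    have k : ∀ y, Continuous fun p : FH × ((Fin 3 → ZMod (nn j)) → S3) => (p.2 y).q := fun y =>
      Ms.cont_q.comp ((continuous_apply y).comp continuous_snd)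
    simp only [hΦ]
    exact c.comp (continuous_pi fun e =>
      ((k _).mul ((continuous_apply e).comp continuous_fst)).mul (k _).star)
  have nb : ∀ X g, ‖Φ X g‖ ≤ 1 := fun X g => by rw [hΦ, Real.norm_of_nonneg (F0 _)]; exact F1 _
  refine ⟨fun X => ∫ g, Φ X g ∂P, continuous_of_dominated
    (fun X => (cg.comp (Continuous.prodMk_right X)).aestronglyMeasurable)
    (fun X => .of_forall (nb X)) (integrable_const 1)
    (.of_forall fun g => cg.comp (Continuous.prodMk_left g)),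
    fun X => integral_nonneg fun g => hΦ X g ▸ F0 _, fun X => ?_, fun h X p => ?_,
    fun γ hγ J l hJ => ?_⟩
  · simpa using (le_abs_self _).trans (norm_integral_le_of_norm_le_const (μ := P)
      (.of_forall (nb X)))
  · beta_reduce
    rw [← integral_mul_right_eq_self (Φ X) fun x => h (vl x)]
    refine integral_congr_ae (.of_forall fun g => ?_)
    simp only [hΦ, gH_gH, Pi.mul_apply]
    congr 2
    funext x
    rw [Pi.mul_apply, PS_iff.2 p x (vl (cst (nn j) x)) fun i => ?_]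
    simp only [vl, cst, ZMod.val_intCast]
    exact Int.dvd_self_sub_emod
  · have := ww_prob hγ J l
    have c2 : Continuous (Function.uncurry fun U g => Φ (XX J l j U) g) :=
      cg.comp ((cont_XX J l j).prodMap continuous_id)
    rw [integral_integral_swap (.of_bound c2.aestronglyMeasurable 1 (.of_forall fun _ => nb _ _))]
    refine (integral_congr_ae (g := fun _ => ∫ U, F (XX J l j U) ∂ww γ J l)
      (.of_forall fun g => ?_)).trans (by simp)
    simp only [hΦ]
    refine ww_gauge hJ (fun x v => ?_) c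
    congr 1
    funext i
    simp [cst]

theorem cauchy1 (hp : En.Pair) (hb : En.Bad) {γ : ℝ} (hγ : 0 < γ) (j : ℕ) {F : FH → ℝ}
    (c : Continuous F) (F0 : ∀ X, 0 ≤ F X) (F1 : ∀ X, F X ≤ 1) {η : ℝ} (hη : 0 < η) :
    ∃ J0, ∀ J l J' l', J0 ≤ J → J0 ≤ J' → Adm J l → Adm J' l' →
      ∫ U, F (XX J l j U) ∂ww γ J l ≤ ∫ U, F (XX J' l' j U) ∂ww γ J' l' + η := by
  have h3 : 0 < η / 3 := by positivity
  obtain ⟨G, c, G0, G1, gi, e⟩ := avg_gauge (j := j) c F0 F1
  obtain ⟨j0, h0⟩ := En.cauchy hp hb hγ h3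
  obtain ⟨i, h1, hi⟩ := ((approx hb hγ h3).and (eventually_ge_atTop j)).exists
  have c' := c.comp (cont_dnH j (i - j))
  have gi' : ∀ h X, PerS (nn i) h → G (dnH j (i - j) (gH h X)) = G (dnH j (i - j) X) :=
    fun h X p => by
      obtain ⟨g, p, e⟩ := dnH_gH (i - j) j (h := h) (by rwa [show j + (i - j) = i by omega])
      rw [e, gi _ _ p]
  obtain ⟨k, ⟨k1, k2⟩, k3, k4⟩ := (((h1 _ c' (fun _ => G0 _) (fun _ => G1 _) gi').and
    (h1 (fun X => 1 - G (dnH j (i - j) X)) (continuous_const.sub c') (fun _ => sub_nonneg.2 (G1 _))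
      (fun _ => sub_le_self _ (G0 _)) fun h X p => by rw [gi' h X p])).and
      ((eventually_ge_atTop j0).and (eventually_ge_atTop i))).exists
  obtain ⟨J0, h0⟩ := h0 k k3
  refine ⟨J0 + k, fun J l J' l' hJ hJ' hl hl' => ?_⟩
  have x : ∀ J l U, k ≤ J → dnH j (i - j) (XX J l i U) = XX J l j U := fun J l U h => by
    rw [XX, XX, show J - j = i - j + (J - i) by omega, dnH_add, show j + (i - j) = i by omega]
  have := law_prob hγ J l (J - k)
  have := law_prob hγ J' l' (J' - k)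
  have := ww_prob hγ J l
  have nb : ∀ X, ‖G X‖ ≤ 1 := fun X => by rw [Real.norm_of_nonneg (G0 X)]; exact G1 X
  have m : Measurable fun W => G (dnH j (i - j) (qF (dn i (k - i) W))) :=
    (c'.comp cont_qF).measurable.comp (meas_dn i (k - i))
  have m2 : Continuous fun U => G (dnH j (i - j) (XX J l i U)) := c'.comp (cont_XX ..)
  have a1 := k1 J' l' (by omega) hl'
  have a2 := k2 J l (by omega) hl
  have a3 := le_int h3.le (h0 J l J' l' (by omega) (by omega) hl hl') m (fun _ => G0 _)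
    fun _ => G1 _
  rw [integral_sub (integrable_const _) (.of_bound m.aestronglyMeasurable 1
    (.of_forall fun _ => nb _)), integral_sub (integrable_const _) (.of_bound
      m2.aestronglyMeasurable 1 (.of_forall fun _ => nb _))] at a2
  simp only [Function.comp, x J l _ (by omega), x J' l' _ (by omega), integral_const,
    probReal_univ, smul_eq_mul, mul_one] at a1 a2 a3
  rw [← e γ hγ J l (by omega), ← e γ hγ J' l' (by omega)]
  linarith

end Pool.Agent.Lib.MP_7f377f_mp.RG.D3.Dt
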