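import Pool.Agent.Lib.MP_7f377f_mp.R3BgA
import Pool.Agent.Lib.MP_7f377f_mp.P3Av

/-! Geometry of real fields in the tree gauge: block averages. -/

noncomputable section

namespace Pool.Agent.Lib.MP_7f377f_mp.RG.D3.Pv

open Finset
open scoped Quaternion

theorem strip (U : Conf) (p : St) (μ ν : Fin 3) {ε : ℝ} (k : ℕ)
    (h : ∀ i < k, ‖(hol Inv.inv U (p + (i : ℤ) • un μ) ν μ).q - 1‖ ≤ ε) :
    ‖(U (p, ν) * lnP U (p + un ν) μ k * (U (p + (k : ℤ) • un μ, ν))⁻¹ * (lnP U p μ k)⁻¹).q - 1‖ ≤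
      k * ε := by
  induction k with
  | zero => simp [lnP, S3.q_one]
  | succ k ih =>
    have e : U (p, ν) * lnP U (p + un ν) μ (k + 1) * (U (p + ((k + 1 : ℕ) : ℤ) • un μ, ν))⁻¹ *
        (lnP U p μ (k + 1))⁻¹ = U (p, ν) * lnP U (p + un ν) μ k * (U (p + (k : ℤ) • un μ, ν))⁻¹ *
          (lnP U p μ k)⁻¹ * (lnP U p μ k * hol Inv.inv U (p + (k : ℤ) • un μ) ν μ *
            (lnP U p μ k)⁻¹) := by
      push_cast
      simp only [lnP, hol, add_smul, one_smul, add_assoc, add_comm (un ν)]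
      group
    rw [e]
    refine (S3.norm_mul_sub _ _).trans ?_
    rw [S3.norm_conj_sub]
    push_cast
    linarith [ih fun i hi => h i (by omega), h k (by omega)]

/-- one term of the average -/
def tm (l : ℕ) (μ : Fin 3) (U : Conf) (t : St) : S3 :=
  cmb Inv.inv U t * lnP U t μ (LL l) * (cmb Inv.inv (sh (up l (un μ)) U) t)⁻¹

theorem tm_step {l : ℕ} {μ : Fin 3} {U : Conf} {ε : ℝ}
    (h : ∀ x ν, Rg l μ x (x + un ν + un μ) → ‖(hol Inv.inv U x ν μ).q - 1‖ ≤ ε) {p : St}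
    {ν : Fin 3} (h1 : Tr p ν) (hp : p ∈ box l) (hq : p + un ν ∈ box l) :
    ‖(tm l μ U (p + un ν)).q - (tm l μ U p).q‖ ≤ LL l * ε := by
  have := strip U p μ ν (LL l) fun k hk => h _ _ fun i => by
    have := mem_box.1 hp i
    have := mem_box.1 hq i
    have h2 : ((k : ℤ) + 1) * un μ i ≤ LL l * un μ i :=
      mul_le_mul_of_nonneg_right (by omega) (un_nonneg μ i)
    have h3 : 0 ≤ (k : ℤ) * un μ i := mul_nonneg (by omega) (un_nonneg μ i)
    simp only [Pi.add_apply, Pi.smul_apply, smul_eq_mul] at *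
    constructor <;> linarith
  rw [← S3.norm_conj_sub (cmb Inv.inv U p)] at this
  rw [S3.norm_sub]
  convert this using 4
  simp only [tm, cmb_step _ h1, sh_apply, up]
  group

theorem tm_near {l : ℕ} {μ : Fin 3} {U : Conf} {ε : ℝ}
    (h : ∀ x ν, Rg l μ x (x + un ν + un μ) → ‖(hol Inv.inv U x ν μ).q - 1‖ ≤ ε) (t : St) :
    t ∈ box l → ‖(tm l μ U t).q - (lnP U 0 μ (LL l)).q‖ ≤ ht t * (LL l * ε) := by
  induction t using site_ind with
  | h0 => simp [tm, ht]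
  | hp p ν h1 h2 ih =>
    intro hx
    have := tm_step h h1 (box_fwd h2 hx) hx
    have := norm_sub_le_norm_sub_add_norm_sub (tm l μ U (p + un ν)).q (tm l μ U p).q
      (lnP U 0 μ (LL l)).q
    rw [ht_fwd h2]
    push_cast
    linarith [ih (box_fwd h2 hx)]
  | hn p ν h1 h2 ih =>
    intro hx
    have := tm_step h h1 hx (box_bwd h2 hx)
    have := norm_sub_le_norm_sub_add_norm_sub (tm l μ U p).q (tm l μ U (p + un ν)).q
      (lnP U 0 μ (LL l)).q
    rw [norm_sub_rev _ (tm l μ U (p + un ν)).q] at this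
    rw [ht_bwd h2]
    push_cast
    linarith [ih (box_bwd h2 hx)]

theorem avq_near {l : ℕ} {μ : Fin 3} {U : Conf} {ε : ℝ} (ε0 : 0 ≤ ε)
    (h : ∀ x ν, Rg l μ x (x + un ν + un μ) → ‖(hol Inv.inv U x ν μ).q - 1‖ ≤ ε) :
    ‖avq l μ U - (lnP U 0 μ (LL l)).q‖ ≤ 4 * l * (LL l * ε) := by
  have hL : (0 : ℝ) < (LL l : ℝ) ^ 3 := by have := LL_pos l; positivity
  have hc : ((box l).card : ℝ) = (LL l : ℝ) ^ 3 := by rw [card_box, LL]; push_cast; ring
  have e : avq l μ U - (lnP U 0 μ (LL l)).q =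
      ((LL l : ℝ) ^ 3)⁻¹ • ∑ t ∈ box l, ((tm l μ U t).q - (lnP U 0 μ (LL l)).q) := by
    rw [sum_sub_distrib, smul_sub, sum_const, ← Nat.cast_smul_eq_nsmul ℝ, smul_smul, hc,
      inv_mul_cancel₀ hL.ne', one_smul]
    rfl
  rw [e, norm_smul, norm_inv, Real.norm_of_nonneg hL.le, inv_mul_le_iff₀ hL, ← hc, ← nsmul_eq_mul]
  refine (norm_sum_le _ _).trans (sum_le_card_nsmul _ _ _ fun t ht => (tm_near h t ht).trans ?_)
  exact mul_le_mul_of_nonneg_right (by exact_mod_cast ht_le ht) (by positivity)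

/-- the block average is close to the transport along the straight line -/
theorem av_near {l : ℕ} {μ : Fin 3} {U : Conf} {ε : ℝ} (ε0 : 0 ≤ ε)
    (h : ∀ x ν, Rg l μ x (x + un ν + un μ) → ‖(hol Inv.inv U x ν μ).q - 1‖ ≤ ε) :
    ‖(av l μ U * (lnP U 0 μ (LL l))⁻¹).q - 1‖ ≤ 4 * (LL l : ℝ) ^ 2 * ε := by
  have h1 := avq_near ε0 h
  rw [← S3.norm_sub, av_eq]
  split_ifs with h0
  · rw [sub_self, norm_zero]
    positivity
  · have h2 := norm_pos_iff.2 h0
    have h3 : ‖(Ms.nrq (avq l μ U)).q - avq l μ U‖ = |‖avq l μ U‖ - 1| := by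
      have : (Ms.nrq (avq l μ U)).q - avq l μ U = (‖avq l μ U‖⁻¹ - 1) • avq l μ U := by
        rw [Ms.nrq_q h0, sub_smul, one_smul]
      rw [this, norm_smul, ← norm_norm (avq l μ U), ← norm_mul, norm_norm, sub_mul, one_mul,
        inv_mul_cancel₀ h2.ne', Real.norm_eq_abs, abs_sub_comm]
    have h4 := abs_norm_sub_norm_le (avq l μ U) (lnP U 0 μ (LL l)).q
    have h5 := norm_sub_le_norm_sub_add_norm_sub (Ms.nrq (avq l μ U)).q (avq l μ U)
      (lnP U 0 μ (LL l)).q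
    rw [S3.norm_q] at h4
    have h6 : (LL l : ℝ) = 2 * l + 1 := by simp [LL]
    have h7 : 0 ≤ (LL l : ℝ) * ε := by positivity
    nlinarith

theorem blk_near {l : ℕ} {U : Conf} {ε : ℝ} (ε0 : 0 ≤ ε) {y : St} {μ : Fin 3}
    (h : ∀ x ν, Rg l μ x (x + un ν + un μ) → ‖(hol Inv.inv U (x + up l y) ν μ).q - 1‖ ≤ ε) :
    ‖(blk l U (y, μ) * (lnP U (up l y) μ (LL l))⁻¹).q - 1‖ ≤ 4 * (LL l : ℝ) ^ 2 * ε := by
  have := av_near (U := sh (up l y) U) ε0 (by simpa only [hol_sh] using h)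
  rwa [lnP_sh, zero_add] at this

end Pool.Agent.Lib.MP_7f377f_mp.RG.D3.Pv

namespace Pool.Agent.Lib.MP_7f377f_mp.RG.D3.JS

open Finset
open scoped Quaternion

attribute [local irreducible] box lbox

theorem q_mul_sub (a b a' b' : S3) :
    ‖(a * b).q - (a' * b').q‖ ≤ ‖a.q - a'.q‖ + ‖b.q - b'.q‖ := by
  have : (a * b).q - (a' * b').q = (a.q - a'.q) * b.q + a'.q * (b.q - b'.q) := by
    simp only [S3.q_mul]; noncomm_ring
  rw [this]
  exact (norm_add_le _ _).trans_eq (by rw [norm_mul, norm_mul, S3.norm_q, S3.norm_q]; ring)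

theorem q_inv_sub (a b : S3) : ‖a⁻¹.q - b⁻¹.q‖ = ‖a.q - b.q‖ := by
  rw [S3.q_inv, S3.q_inv, ← star_sub, norm_star]

theorem curv_near {U V : Conf} {ε η : ℝ} (h : curvG ε V) (hUV : ∀ e, ‖(U e).q - (V e).q‖ ≤ η) :
    curvG (4 * η + ε) U := fun x μ ν => by
  refine (norm_sub_le_norm_sub_add_norm_sub _ (hol Inv.inv V x μ ν).q _).trans
    (add_le_add ?_ (h x μ ν))
  refine (q_mul_sub _ _ _ _).trans ((add_le_add ((q_mul_sub _ _ _ _).trans (add_le_add
    (q_mul_sub _ _ _ _) le_rfl)) le_rfl).trans ?_)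
  rw [q_inv_sub, q_inv_sub]
  linarith [hUV (x, μ), hUV (x + un μ, ν), hUV (x + un ν, μ), hUV (x, ν)]

variable {l : ℕ} {δ : ℝ} {U W : Conf}

theorem rect (h : curvG δ U) (p : St) (μ ν : Fin 3) (k m : ℕ) :
    ‖(lnP U p ν m * lnP U (p + (m : ℤ) • un ν) μ k * (lnP U (p + (k : ℤ) • un μ) ν m)⁻¹ *
      (lnP U p μ k)⁻¹).q - 1‖ ≤ m * (k * δ) := by
  induction m with
  | zero => simp [lnP, S3.q_one]
  | succ m ih =>
    have := Pv.strip U (p + (m : ℤ) • un ν) μ ν k fun _ _ => h _ _ _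
    rw [← S3.norm_conj_sub (lnP U p ν m)] at this
    refine le_trans (le_of_eq ?_) ((S3.norm_mul_sub _ _).trans ((add_le_add this ih).trans_eq
      (by push_cast; ring)))
    congr 3
    push_cast
    simp only [lnP, add_smul, one_smul, add_assoc, add_comm ((k : ℤ) • un μ)]
    group

theorem lnP_small {η : ℝ} {p : St} {μ : Fin 3} {k : ℕ}
    (h : ∀ i < k, ‖(U (p + (i : ℤ) • un μ, μ)).q - 1‖ ≤ η) : ‖(lnP U p μ k).q - 1‖ ≤ k * η := by
  induction k with
  | zero => simp [lnP, S3.q_one]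
  | succ k ih =>
    refine (S3.norm_mul_sub _ _).trans ?_
    push_cast
    linarith [ih fun i hi => h i (by omega), h k (by omega)]

theorem cmb_tree (hU : ∀ f, tree l f → U f = 1) (y t : St) :
    t ∈ box l → cmb Inv.inv (sh (up l y) U) t = 1 := by
  have key : ∀ p ν, Tr p ν → p ∈ box l → p + un ν ∈ box l → sh (up l y) U (p, ν) = 1 :=
    fun p ν h1 h2 h3 => hU _ ((tree_add_up l p y ν).2 ⟨by rw [yo_of_mem h2, yo_of_mem h3],
      fun κ hκ => by rw [yo_of_mem h2, up_zero]; exact h1 κ hκ⟩)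
  induction t using site_ind with
  | h0 => simp
  | hp p ν h1 h2 ih =>
    intro hx
    rw [Pv.cmb_step _ h1, ih (box_fwd h2 hx), key p ν h1 (box_fwd h2 hx) hx, one_mul]
  | hn p ν h1 h2 ih =>
    intro hx
    have := ih (box_bwd h2 hx)
    rwa [Pv.cmb_step _ h1, key p ν h1 hx (box_bwd h2 hx), mul_one] at this

theorem inner_small (hU : ∀ f, tree l f → U f = 1) (h : curvG δ U) {x : St} {μ : Fin 3}
    (hx : yo l (x + un μ) = yo l x) : ‖(U (x, μ)).q - 1‖ ≤ 3 * l * δ := by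
  have h1 := sub_up_mem l x
  have h2 := sub_up_mem l (x + un μ)
  rw [hx, add_sub_right_comm] at h2
  have := fix_small (h.sh (up l (yo l x))) (e := (x - up l (yo l x), μ)) (mem_lbox.2 h1)
  simpa only [gauge, cmb_tree hU _ _ h1, cmb_tree hU _ _ h2, one_mul, inv_one, mul_one, sh_apply,
    sub_add_cancel] using this

theorem cross_near (hU : ∀ f, tree l f → U f = 1) (h : curvG δ U) {x : St} {μ : Fin 3}
    (hx : yo l (x + un μ) ≠ yo l x) :
    ‖(blk l U (yo l x, μ)).q - (U (x, μ)).q‖ ≤ 8 * (LL l : ℝ) ^ 2 * δ := by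
  have δ0 := h.nonneg
  obtain ⟨t, ht, y, rfl⟩ : ∃ t ∈ box l, ∃ y, x = t + up l y :=
    ⟨_, sub_up_mem l x, _, (sub_add_cancel _ _).symm⟩
  rw [add_right_comm, yo_add_up, yo_add_up, yo_of_mem ht, Ne, add_left_inj] at hx
  rw [yo_add_up, yo_of_mem ht, zero_add]
  have tμ : t μ = l := by
    by_contra hne
    refine hx (yo_of_mem (mem_box.2 fun i => ?_))
    have := mem_box.1 ht i
    rw [Pi.add_apply, un_apply]
    split_ifs with hi
    · subst hi; omega
    · omega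
  have y1 : ∀ i ≤ 2 * l, yo l (t + un μ + (i : ℤ) • un μ + up l y) = un μ + y := fun i hi => by
    have : t + un μ + (i : ℤ) • un μ - up l (un μ) ∈ box l := mem_box.2 fun j => by
      have := mem_box.1 ht j
      simp only [Pi.add_apply, Pi.sub_apply, Pi.smul_apply, up_apply, un_apply, LL_cast,
        smul_eq_mul]
      split_ifs with hj
      · subst hj; omega
      · omega
    rw [← sub_add_cancel (t + un μ + (i : ℤ) • un μ) (up l (un μ)), add_assoc, ← up_add, yo_add_up,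
      yo_of_mem this, zero_add]
  have k1 := Pv.blk_near (l := l) (y := y) (μ := μ) δ0 fun x ν _ => h _ _ _
  have k2 := Pv.tm_near (l := l) (μ := μ) (fun x ν _ => h.sh (up l y) x ν μ) t ht
  have k3 := lnP_small (U := sh (up l y) U) (p := t + un μ) (μ := μ) (k := 2 * l) fun i hi =>
    inner_small hU h (x := t + un μ + (i : ℤ) • un μ + up l y) (μ := μ) (by
      have := y1 (i + 1) hi
      push_cast at this
      rw [y1 i hi.le, ← this, add_smul, one_smul]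
      congr 1
      abel)
  rw [← S3.norm_sub] at k1
  rw [Pv.tm, sh_sh, ← up_add, cmb_tree hU _ _ ht, cmb_tree hU _ _ ht, one_mul, inv_one, mul_one,
    Pv.lnP_sh _ _ 0, zero_add, norm_sub_rev, show lnP (sh (up l y) U) t μ (LL l) = _ from
      Pv.lnP_left _ _ _ _] at k2
  have k4 := q_mul_sub (U (t + up l y, μ)) (lnP (sh (up l y) U) (t + un μ) μ (2 * l))
    (U (t + up l y, μ)) 1
  rw [mul_one, sub_self, norm_zero, zero_add] at k4
  refine (norm_sub_le_norm_sub_add_norm_sub _ _ _).trans ((add_le_add k1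
    ((norm_sub_le_norm_sub_add_norm_sub _ _ _).trans (add_le_add k2 (k4.trans k3)))).trans ?_)
  have k5 : (D3.ht t : ℝ) ≤ 4 * l := by exact_mod_cast ht_le ht
  have k6 : (LL l : ℝ) = 2 * l + 1 := by simp [LL]
  have k7 : (0 : ℝ) ≤ l := l.cast_nonneg
  have k8 := mul_le_mul_of_nonneg_right k5 (show 0 ≤ LL l * δ by positivity)
  rw [k6] at k8 ⊢
  push_cast
  nlinarith [mul_nonneg k7 δ0]

theorem cS_near {g h : S3} {η : ℝ} (e : ‖g.q - h.q‖ ≤ η) : ‖cS g * star (cS h) - 1‖ ≤ 2 * η := by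
  rw [← cS_inv, ← cS_mul, cS, ← cq_one, ← cq_sub]
  exact (norm_cq _).2.trans (by rw [← S3.norm_sub]; linarith)

theorem q_near {g : S3} {η : ℝ} (e : ‖cS g - 1‖ ≤ η) : ‖g.q - 1‖ ≤ η := by
  rw [cS, ← cq_one, ← cq_sub] at e
  exact (norm_cq _).1.trans e

theorem ex_small {b : C3} {η : ℝ} (h : ‖b‖ ≤ η) (h1 : η ≤ 1 / 100) : ‖ex b - 1‖ ≤ 4 * η :=
  (near_one ⟨h, ex_near h h1⟩).trans (by nlinarith [norm_nonneg b])

variable {D : Dat}

theorem hk0_res (hU : ∀ f, tree D.l f → U f = 1) (a : ℝ) (b : Lk)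
    (h0 : avq D.l b.2 (sh (up D.l b.1) U) ≠ 0) (h1 : 0 < (W b * (blk D.l U b)⁻¹).q.re) :
    hk0 a (W b * (blk D.l U b)⁻¹) = ENNReal.ofReal (Real.exp (-(a *
      (dot (D.res (sh b.1 (cC W)) (sh (up D.l b.1) (cC U)) b.2)
        (D.res (sh b.1 (cC W)) (sh (up D.l b.1) (cC U)) b.2)).re))) := by
  have e1 : cq (avq D.l b.2 (sh (up D.l b.1) U)) = ((LL D.l : ℂ) ^ 3)⁻¹ •
      ∑ t ∈ box D.l, lnP (sh (up D.l b.1) (cC U)) t b.2 (LL D.l) := by
    rw [avq, cq_smul, cq_sum]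
    push_cast
    congr 1
    refine sum_congr rfl fun t ht => ?_
    rw [sh_sh, ← up_add, cmb_tree hU _ _ ht, cmb_tree hU _ _ ht, one_mul, inv_one, mul_one, sh_cC,
      lnP_cC, cS]
  have e2 : D.res (sh b.1 (cC W)) (sh (up D.l b.1) (cC U)) b.2 =
      ch (cS (W b * (blk D.l U b)⁻¹)) := by
    rw [cS_mul, cS_inv, blk, Pv.av_eq, if_neg h0, cS, cS, Ms.nrq_q h0, cq_smul,
      Quaternion.star_smul, mul_smul_comm, ch_smul (by simpa using h0), Dat.res, ← e1, sh_apply,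
      zero_add]
    rfl
  rw [e2, hk0, if_pos h1]
  congr 4
  generalize W b * (blk D.l U b)⁻¹ = g at h1
  rw [div_pow, norm_q_sq]
  simp [dot_def, ch, cS, ← Complex.ofReal_inv, ← Complex.ofReal_mul]
  field_simp

end Pool.Agent.Lib.MP_7f377f_mp.RG.D3.JS
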