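import Pool.Agent.Lib.MP_7f377f_mp.R3SmF
import Pool.Agent.Lib.MP_7f377f_mp.R3GeoA

/-! Geometry of real fields in the tree gauge. -/

noncomputable section

namespace Pool.Agent.Lib.MP_7f377f_mp.RG.D3.JS

open Finset
open scoped Quaternion

attribute [local irreducible] box lbox

variable {D : Dat} {c R : ℕ} {τ ρ κ P δ η : ℝ} {U W : Conf}

theorem s_small (h : D.Ok c τ R ρ κ) (b : Big D c R P) (hW : curvG δ W) (h1 : P ^ 2 * δ ≤ 1)
    (y : St) (f : Lk) : ‖cxL D.s (Bx y (cC W)) f‖ ≤ 10 * (P ^ 2 * δ) := by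
  have δ0 := hW.nonneg
  have r := b.r h
  have P0 := b.p0
  have := (real_fix (R := D.r) (hW.sh y) (by nlinarith)).2.1
  rw [Bx_eq]
  refine (cxL_bd (fun k => h.lin.s_bd _ _ f (this.reF k))
    fun k => h.lin.s_bd _ _ f (this.imF k)).trans ?_
  calc _ = 2 * (LL D.l : ℝ) ^ c * (10 * (D.r + 1) * δ) := by ring
    _ ≤ P * (10 * P * δ) := by gcongr; exacts [b.pc, by linarith]
    _ = _ := by ring

theorem Us_curv (h : D.Ok c τ R ρ κ) (p : Pre D c R P (10 * (D.r + 1) * δ)) (h5 : P ^ 5 * δ ≤ 1)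
    (h6 : P ^ 5 * δ ^ 2 ≤ η) (h7 : δ ≤ √(LL D.l) * η) (hW : curvG δ W) {S : Conf}
    (hS : cC S = D.Us (cC W)) : curvG (η / 2) S := fun x μ ν => by
  have δ0 := hW.nonneg
  have r := p.big.r h
  have P0 := p.big.p0
  have P1 := p.big.one
  have r0 : (1000 : ℝ) ≤ D.r := by exact_mod_cast h.r_ge
  have r1 := h.r_ge
  obtain ⟨t, ht, y, rfl⟩ : ∃ t ∈ box D.l, ∃ y, x = t + up D.l y :=
    ⟨_, sub_up_mem _ x, _, (sub_add_cancel _ _).symm⟩
  have q0 : 10 ^ 6 * (P ^ 4 * δ) ≤ 1 := by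
    refine le_trans ?_ ((by ring : P * (P ^ 4 * δ) = _).trans_le h5)
    gcongr
  have q1 : P ^ 2 * δ ≤ P ^ 4 * δ := by gcongr; norm_num
  have q2 : P * δ ≤ P ^ 2 * δ := by gcongr; nlinarith
  obtain ⟨f1, f2, f3⟩ := real_fix (R := D.r) (hW.sh y) (by nlinarith)
  set B := Bx 0 (cC (sh y W))
  have hB : ∀ e, ‖cut D.r B e‖ ≤ 10 * (D.r + 1) * δ := fun e => by
    simp only [cut]
    split_ifs with he
    · exact f2 e he
    · rw [norm_zero]; positivity
  have hc : Cv (D.r / 3) (2 * δ) (cut D.r B) := fun x hx μ ν => by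
    rw [dd_agr (agr_mono (agr_cut D.r B) (by omega)) hx]
    refine (f3 x (box_mono (by omega) hx) μ ν).trans ?_
    have : ((D.r + 1) * δ) ^ 2 ≤ (P * δ) ^ 2 := by gcongr; linarith
    nlinarith
  have a1 : Agr (fb D.l 1) (cC (gauge Inv.inv (fun x => cmb Inv.inv (sh y W) (yo D.l x))
      (sh (up D.l y) S))) (D.Us (exF (cut D.r B))) := by
    rw [cC_gauge, ← sh_cC, hS, ← Dat.Us_sh, ← Dat.Us_gauge h fun x => uni_cS _, sh_cC, ← cC_gauge]
    exact Dat.Us_agr h fun e he => by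
      rw [f1 e (lbox_mono (by omega) he), exF, exF, agr_cut _ _ e (lbox_mono (by omega) he)]
  have d1 : 10 * (D.r + 1) * δ ≤ 10 * (P * δ) := by nlinarith
  have d2 : P * (10 * (D.r + 1) * δ) ≤ 10 * (P ^ 2 * δ) := by nlinarith
  have a2 := hol_ap' (R := D.l) (fun e _ => p.us hB e)
    (by rw [sq, ← mul_assoc]; exact mul_le_of_le_one_right (by positivity) (by linarith))
    (by linarith) ht μ ν
  have η0 : 0 ≤ η := le_trans (by positivity) h6
  have a3 : ‖dd (cxL (mu D.l D.s) (cut D.r B)) t μ ν‖ ≤ η / 100 := by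
    have L0 : 0 < √(LL D.l : ℝ) := Real.sqrt_pos.2 (zero_lt_one.trans_le (one_le_LL _))
    have k : 2 * δ / (√(LL D.l) * (D.r : ℝ) ^ 12) ≤ η / 200 := by
      refine (div_le_div_of_nonneg_right (mul_le_mul_of_nonneg_left h7 zero_le_two)
        (by positivity)).trans ?_
      rw [mul_left_comm, mul_div_mul_left _ _ L0.ne', div_le_div_iff₀ (by positivity) (by norm_num)]
      nlinarith [le_self_pow₀ (show (1 : ℝ) ≤ D.r by linarith) (show 12 ≠ 0 by norm_num)]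
    refine (pi_norm_le_iff_of_nonneg (by positivity)).2 fun j => ?_
    have b1 := (h.lin.point _ _ (hc.reF j) t ht μ ν).trans k
    have b2 := (h.lin.point _ _ (hc.imF j) t ht μ ν).trans k
    rw [← reF_cxL] at b1
    rw [← imF_cxL] at b2
    exact (Complex.norm_le_abs_re_add_abs_im _).trans ((add_le_add b1 b2).trans_eq (by ring))
  have l1 : ∀ ν, ((t, ν) : Lk) ∈ lbox (fb D.l 1) := fun _ =>
    mem_lbox.2 (box_mono (by simp [fb]) ht)
  have l2 : ∀ μ ν, ((t + un μ, ν) : Lk) ∈ lbox (fb D.l 1) := fun μ _ =>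
    mem_lbox.2 (box_mono (by simp [fb, LL]) (add_un_mem_box ht μ))
  rw [hol, ← a1 _ (l1 _), ← a1 _ (l1 _), ← a1 _ (l2 _ _), ← a1 _ (l2 _ _), ← hol, hol_cC] at a2
  have a4 := q_near (near_one ⟨a3, a2⟩)
  rw [hol_gauge_inv, S3.norm_conj_sub, hol_sh] at a4
  refine a4.trans ?_
  have e1 : (P * (10 * (D.r + 1) * δ)) ^ 2 ≤ (10 * (P ^ 2 * δ)) ^ 2 := by gcongr
  have e2 : P * (10 * (D.r + 1) * δ) ^ 2 ≤ P ^ 2 * (10 * (P * δ)) ^ 2 := by gcongr; nlinarith
  have e3 : 10 ^ 6 * (P ^ 4 * δ ^ 2) ≤ η := by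
    refine le_trans ?_ ((by ring : P * (P ^ 4 * δ ^ 2) = _).trans_le h6)
    gcongr
  nlinarith

theorem _root_.Pool.Agent.Lib.MP_7f377f_mp.RG.D3.geo (c : ℕ) :
    ∃ K : ℕ, ∀ (D : Dat) (R : ℕ) (τ ρ κ δ : ℝ), D.Ok c τ R ρ κ →
    K ≤ D.l → (LL D.l : ℝ) ^ K * δ ≤ 1 →
      (∀ U W : Conf, (∀ f, tree D.l f → U f = 1) → curvG δ U → noiseG D.l δ U W →
        curvG ((LL D.l : ℝ) ^ 3 * δ) W ∧ ∀ f, 0 < (cS (U f) * star (D.Us (cC W) f)).re.re ∧
          ‖ch (cS (U f) * star (D.Us (cC W) f))‖ ≤ (LL D.l : ℝ) ^ K * δ) ∧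
      ∀ δ' : ℝ, (LL D.l : ℝ) ^ K * δ' ≤ 1 → (LL D.l : ℝ) ^ K * δ' ^ 2 ≤ δ → δ' ≤ √(LL D.l) * δ →
        ∀ (U W : Conf) (A : Fld), curvG δ' W → (∀ f, tree D.l f → A f = 0) →
        (∀ f, 100 * ‖A f‖ ≤ δ) → cC U = D.Uz (cC W) A → curvG δ U ∧ ∀ (a : ℝ) (b : Lk),
          hk0 a (W b * (blk D.l U b)⁻¹) = ENNReal.ofReal (Real.exp (-(a *
            (dot (D.res (sh b.1 (cC W)) (sh (up D.l b.1) (cC U)) b.2)
              (D.res (sh b.1 (cC W)) (sh (up D.l b.1) (cC U)) b.2)).re))) := by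
  obtain ⟨K, hK⟩ := exists_pre c
  refine ⟨K * 5, fun D R τ ρ κ δ h hl h5 => ?_⟩
  rw [pow_mul] at h5 ⊢
  have b := (hK D R τ ρ κ 0 h (by omega) le_rfl (by simp)).big
  have L1 := one_le_LL D.l
  have L6 := LL_ge h
  have hK' := fun δ => hK D R τ ρ κ δ h (by omega)
  generalize (LL D.l : ℝ) ^ K = P at *
  have P0 := b.p0
  have P1 := b.one
  have L2 : 324 * (LL D.l : ℝ) ^ 2 ≤ P := le_trans (by gcongr; norm_num) b.pL
  have L3 := b.pL
  have L4 : (1 : ℝ) ≤ LL D.l ^ 2 := one_le_pow₀ L1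
  have sm : ∀ {δ : ℝ}, 0 ≤ δ → 10 ^ 6 * (P ^ 4 * δ) ≤ P ^ 5 * δ ∧ P ^ 3 * δ ≤ P ^ 4 * δ ∧
      P ^ 2 * δ ≤ P ^ 3 * δ ∧ P * δ ≤ P ^ 2 * δ ∧ δ ≤ P * δ := fun {δ} δ0 =>
    ⟨le_trans (by gcongr) (le_of_eq (by ring : P * (P ^ 4 * δ) = _)), by gcongr; norm_num,
      by gcongr; norm_num,
      by gcongr; nlinarith, by nlinarith⟩
  refine ⟨fun U W hU hc hn => ?_, fun δ' g5 g6 g7 U W A hW hA hδ hU => ?_⟩
  · have δ0 := hc.nonneg
    obtain ⟨s1, s2, s3, s4, s5⟩ := sm δ0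
    have n1 : ∀ b, ‖(W b).q - (blk D.l U b).q‖ ≤ δ := fun b => (S3.norm_sub _ _).trans_le (hn b)
    have cW : curvG ((LL D.l : ℝ) ^ 3 * δ) W := by
      refine (curv_near (V := fun b => lnP U (up D.l b.1) b.2 (LL D.l))
        (ε := LL D.l * (LL D.l * δ)) (η := δ + 4 * (LL D.l : ℝ) ^ 2 * δ) (fun y μ ν => ?_)
        fun b => ?_).mono ?_
      · simpa only [hol, smul_add, up] using rect hc (up D.l y) ν μ (LL D.l) (LL D.l)
      · refine (norm_sub_le_norm_sub_add_norm_sub _ _ _).trans (add_le_add (n1 b) ?_)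
        rw [S3.norm_sub]
        exact Pv.blk_near δ0 fun x ν _ => hc _ _ _
      · have := mul_le_mul_of_nonneg_right L6 (show 0 ≤ (LL D.l : ℝ) ^ 2 * δ by positivity)
        nlinarith
    refine ⟨cW, fun f => ?_⟩
    have l3 : P ^ 2 * ((LL D.l : ℝ) ^ 3 * δ) ≤ P ^ 3 * δ := by
      calc _ ≤ P ^ 2 * (P * δ) := by gcongr; linarith [pow_pos (zero_lt_one.trans_le L1) 3]
        _ = _ := by ring
    have k1 := ex_small ((s_small h b cW (by linarith) (yo D.l f.1)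
      (f.1 - up D.l (yo D.l f.1), f.2)).trans (mul_le_mul_of_nonneg_left l3 (by norm_num)))
      (by linarith)
    have k2 : ‖cS (U f) * star (if yo D.l (f.1 + un f.2) = yo D.l f.1 then 1 else
        cC W (yo D.l f.1, f.2)) - 1‖ ≤ 2 * (P * δ) := by
      have := mul_le_mul_of_nonneg_right L2 δ0
      split_ifs with hf
      · rw [← cS_one]
        refine cS_near ((inner_small hU hc hf).trans ?_)
        have : (LL D.l : ℝ) = 2 * D.l + 1 := by simp [LL]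
        nlinarith [b.pL, le_self_pow₀ L1 (show 3 ≠ 0 by norm_num)]
      · refine cS_near ((norm_sub_le_norm_sub_add_norm_sub _ (blk D.l U (yo D.l f.1, f.2)).q
          _).trans ?_)
        rw [norm_sub_rev, norm_sub_rev _ (W _).q]
        nlinarith [cross_near hU hc hf, n1 (yo D.l f.1, f.2)]
    rw [← star_near] at k1
    have k3 := mul_near k2 k1
    rw [mul_assoc, ← star_mul, ← Dat.Us] at k3
    have k4 := k3.trans (show _ ≤ 100 * (P ^ 3 * δ) by
      nlinarith [mul_nonneg (zero_le_one.trans P1) δ0])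
    refine ⟨?_, (sub_zero (ch _) ▸ ch_ap (b := 0) (by simp) (by simpa using k4)
      (by linarith)).trans (by nlinarith [mul_nonneg (zero_le_one.trans P1) δ0])⟩
    have := (abs_le.1 ((Complex.abs_re_le_norm _).trans ((norm_re _).trans k4))).1
    simp only [Quaternion.re_sub, Complex.sub_re, Quaternion.re_one, Complex.one_re] at this
    linarith
  · have δ1 := hW.nonneg
    have δ0 : 0 ≤ δ := le_trans (by positivity) g6
    obtain ⟨s1, s2, s3, s4, s5⟩ := sm δ0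
    obtain ⟨t1, t2, t3, t4, t5⟩ := sm δ1
    have r := b.r h
    obtain ⟨S, hS⟩ := D.Us_real W
    have cS' := Us_curv h (hK' _ (by positivity) (by
      calc _ ≤ P ^ 3 * (10 * P * δ') := by gcongr; linarith
        _ = 10 * (P ^ 4 * δ') := by ring
        _ ≤ 1 := by nlinarith [mul_nonneg (zero_le_one.trans P1) δ1])) g5 g6 g7 hW hS
    have k1 : ∀ f, ‖(U f).q - (S f).q‖ ≤ 4 * (δ / 100) := fun f => by
      rw [S3.norm_sub]
      refine q_near ?_
      rw [cS_mul, cS_inv, ← cC, hU, Dat.Uz, ← hS, cC, mul_assoc, uni_cS, mul_one]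
      exact ex_small (by linarith [hδ f]) (by linarith)
    have cU : curvG δ U := (curv_near cS' k1).mono (by linarith)
    have tU : ∀ f, tree D.l f → U f = 1 := fun f hf => cS_inj (by
      rw [← cC, hU, Dat.Uz, hA f hf, Dat.Us_tree h _ hf, ex_zero, one_mul, cS_one])
    refine ⟨cU, fun a ⟨y, μ⟩ => hk0_res tU a _ (fun e => ?_) ?_⟩
    · have := Pv.avq_near (l := D.l) (μ := μ) δ0 fun x ν _ => cU.sh (up D.l y) x ν μ
      rw [e, zero_sub, norm_neg, S3.norm_q] at this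
      have : (LL D.l : ℝ) = 2 * D.l + 1 := by simp [LL]
      nlinarith [mul_le_mul_of_nonneg_right L2 δ0, Nat.cast_nonneg (α := ℝ) D.l]
    · have y0 : yo D.l ((D.l : ℤ) • un μ + up D.l y) = y := by
        rw [yo_add_up, yo_of_mem (Li.smul_un_mem le_rfl μ), zero_add]
      have y1 : yo D.l ((D.l : ℤ) • un μ + up D.l y + un μ) ≠
          yo D.l ((D.l : ℤ) • un μ + up D.l y) := fun e => by
        have := (mem_box.1 (sub_up_mem D.l ((D.l : ℤ) • un μ + up D.l y + un μ)) μ).2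
        rw [e, y0] at this
        simp at this
      have k2 := cross_near tU cU y1
      have k3 : ‖(S ((D.l : ℤ) • un μ + up D.l y, μ)).q - (W (y, μ)).q‖ ≤
          4 * (10 * (P ^ 2 * δ')) := by
        rw [S3.norm_sub]
        refine q_near ?_
        rw [cS_mul, cS_inv, ← cC, hS, Dat.Us, if_neg y1, y0, cC, mul_assoc, uni_cS, mul_one]
        exact ex_small (s_small h b hW (by linarith) _ _) (by linarith)
      rw [y0] at k2
      have k4 := (norm_sub_le_norm_sub_add_norm_sub _ _ _).trans (add_le_add k2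
        ((norm_sub_le_norm_sub_add_norm_sub _ _ _).trans (add_le_add (k1 _) k3)))
      rw [norm_sub_rev, S3.norm_sub] at k4
      refine (ch_cS_le k4 ?_).1
      nlinarith [mul_le_mul_of_nonneg_right L2 δ0]

end Pool.Agent.Lib.MP_7f377f_mp.RG.D3.JS
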