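import Pool.Agent.Lib.MP_7f377f_mp.R3Hol1
import Pool.Agent.Lib.MP_7f377f_mp.R3Ap2

/-! The difference of two quadratic densities as a local term. -/

noncomputable section

namespace Pool.Agent.Lib.MP_7f377f_mp.RG.D3

open Finset

namespace Ho

theorem cx_cv {k : BF} {R : ℕ} {σ δ δ' : ℝ} (hs : ∀ a b, k a b = k b a)
    (h : ∀ a δ, Cv R δ a → |k a a| ≤ σ * δ ^ 2) {A B : Fld} (hA : Cv R δ A) (hB : Cv R δ' B) :
    ‖cx k A B‖ ≤ 24 * σ * δ * δ' := by
  refine (norm_sum_le_of_le _ fun j _ => (?_ : _ ≤ 8 * σ * δ * δ')).trans (by simp; linarith)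
  have h1 := abs_le.1 (bil hs h (hA.reF j) (hB.reF j))
  have h2 := abs_le.1 (bil hs h (hA.imF j) (hB.imF j))
  have h3 := abs_le.1 (bil hs h (hA.reF j) (hB.imF j))
  have h4 := abs_le.1 (bil hs h (hA.imF j) (hB.reF j))
  refine (norm_add_le _ _).trans ?_
  rw [norm_mul, Complex.norm_I, mul_one, Complex.norm_real, Complex.norm_real]
  refine (add_le_add (abs_le.2 ⟨?_, ?_⟩ : _ ≤ 4 * σ * δ * δ')
    (abs_le.2 ⟨?_, ?_⟩ : _ ≤ 4 * σ * δ * δ')).trans ?_ <;> linarith [h1.1, h1.2]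

end Ho

open D3.Ho

theorem tm_quad {r : ℕ} {σ ρ β : ℝ} {m m' : BF} (hs : ∀ a b, m a b = m b a)
    (hs' : ∀ a b, m' a b = m' b a) (hr : Rng r r m) (hr' : Rng r r m') (h : Df r σ m m')
    (hβ : 0 ≤ β) : Tm r ρ (24 * β * σ * ρ ^ 2) fun B => β * cx m B B - β * cx m' B B := by
  have e : ∀ B, β * cx m B B - β * cx m' B B = β * cx (m - m') B B := fun B => by
    rw [← mul_sub, eq_comm, sub_eq_add_neg m, cx_add, ← neg_one_smul ℝ m', cx_smul]
    push_cast
    ring
  have ks : ∀ a b, (m - m') a b = (m - m') b a := fun a b => by simp [hs a b, hs' a b]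
  have kr : Rng r r (m - m') := fun a b h => by simp [hr a b h, hr' a b h]
  have kb := fun {δ δ' A B} => cx_cv (R := r) (σ := σ) (δ := δ) (δ' := δ') (A := A) (B := B) ks h
  simp only [e]
  generalize m - m' = k at *
  refine ⟨fun A B e => ?_, fun Ω γ _ hγ _ => ?_, fun B hB => ?_, by simp,
    fun g B => by rw [cx_adF k kr (uni_cS g)], fun B hB => by simp [cx_im k hB hB]⟩
  · have h0 : Cv r 0 (A - B) := fun x hx μ ν => by simp [dd_sub, e x hx]
    obtain ⟨a, ha⟩ := cv_exists r A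
    obtain ⟨b, hb⟩ := cv_exists r B
    have h1 := kb h0 ha
    have h2 := kb hb h0
    simp only [mul_zero, zero_mul, norm_le_zero_iff, cx_sub_left, cx_sub_right, sub_eq_zero] at h1 h2
    rw [h1, h2]
  · have hd : ∀ e j, DifferentiableOn ℂ (fun t => γ t e j) Ω := fun e j =>
      differentiableOn_pi.1 (hγ e) j
    simp only [cx_eq_sum k kr, dot_def]
    fun_prop
  · rw [norm_mul, Complex.norm_real, Real.norm_of_nonneg hβ]
    exact (mul_le_mul_of_nonneg_left (kb hB hB) hβ).trans_eq (by ring)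

end Pool.Agent.Lib.MP_7f377f_mp.RG.D3
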