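import Pool.Agent.Lib.MP_7f377f_mp.R3LinInv

/-! Blocks and tree gauge. -/

noncomputable section

namespace Pool.Agent.Lib.MP_7f377f_mp.RG.D3.La

open Finset
open scoped Pointwise

def Blk (l : ℕ) (Y : Finset St) : Finset St := Y.biUnion fun y => (box l).image (· + up l y)
def avg0 (l : ℕ) (u : St → ℝ) (y : St) : ℝ := ((LL l : ℝ) ^ 3)⁻¹ * ∑ t ∈ box l, u (up l y + t)
def tgu (l : ℕ) (a : V) (x : St) : ℝ := lam (sh (up l (yo l x)) a) (x - up l (yo l x))
/-- tree gauge, by a gauge function with zero block averages -/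
def TG (l : ℕ) (a : V) : V := a - gr fun x => tgu l a x - avg0 l (tgu l a) (yo l x)

theorem mem_box {r : ℕ} {x : St} : x ∈ box r ↔ ∀ i, |x i| ≤ r := Li.mem_box

theorem card_box (r : ℕ) : (box r).card = (2 * r + 1) ^ 3 := Li.card_box r

theorem card_box_LL (l : ℕ) : ((box l).card : ℝ) = (LL l : ℝ) ^ 3 := by
  rw [card_box]; simp [LL]

theorem LL_posR (l : ℕ) : (0 : ℝ) < LL l := by exact_mod_cast Li.LL_pos l

theorem yo_up_add (l : ℕ) (y x : St) : yo l (x + up l y) = yo l x + y := by
  funext i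
  have h : (LL l : ℤ) ≠ 0 := by have := Li.LL_pos l; omega
  simp only [yo, up, Pi.add_apply, Pi.smul_apply, smul_eq_mul]
  rw [add_right_comm, Int.add_mul_ediv_left _ _ h]

theorem yo_eq_zero {l : ℕ} {x : St} : yo l x = 0 ↔ x ∈ box l := by
  rw [mem_box, funext_iff]
  refine forall_congr' fun i => ?_
  have h : (0 : ℤ) < LL l := by have := Li.LL_pos l; omega
  have hL : (LL l : ℤ) = 2 * l + 1 := by simp [LL]
  simp only [yo, Pi.zero_apply, abs_le]
  constructor
  · intro h0
    have h1 := Int.emod_add_mul_ediv (x i + l) (LL l)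
    have h2 := Int.emod_nonneg (x i + l) h.ne'
    have h3 := Int.emod_lt_of_pos (x i + l) h
    rw [h0] at h1
    constructor <;> linarith
  · rintro ⟨h1, h2⟩
    exact Int.ediv_eq_zero_of_lt (by linarith) (by linarith)

theorem up_neg (l : ℕ) (y : St) : up l (-y) = -up l y := smul_neg _ _

theorem up_zero (l : ℕ) : up l 0 = 0 := smul_zero _

theorem sub_up_mem (l : ℕ) (x : St) : x - up l (yo l x) ∈ box l := by
  rw [← yo_eq_zero, sub_eq_add_neg, ← up_neg, yo_up_add, add_neg_cancel]

theorem yo_add_up {l : ℕ} {t : St} (ht : t ∈ box l) (y : St) : yo l (t + up l y) = y := by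
  rw [yo_up_add, yo_eq_zero.2 ht, zero_add]

theorem yo_up_add' {l : ℕ} {t : St} (ht : t ∈ box l) (y : St) : yo l (up l y + t) = y := by
  rw [add_comm, yo_add_up ht]

theorem mem_Blk {l : ℕ} {Y : Finset St} {x : St} : x ∈ Blk l Y ↔ yo l x ∈ Y := by
  simp only [Blk, mem_biUnion, mem_image]
  constructor
  · rintro ⟨y, hy, t, ht, rfl⟩
    rwa [yo_add_up ht]
  · intro h
    exact ⟨_, h, _, sub_up_mem l x, sub_add_cancel _ _⟩

theorem sum_Blk (l : ℕ) (Y : Finset St) (g : St → ℝ) :
    ∑ x ∈ Blk l Y, g x = ∑ y ∈ Y, ∑ t ∈ box l, g (t + up l y) := by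
  rw [Blk, sum_biUnion]
  · exact sum_congr rfl fun y _ => sum_image fun a _ b _ h => add_right_cancel h
  · intro y _ z _ hyz
    refine disjoint_left.2 fun x hx hz => hyz ?_
    obtain ⟨t, ht, rfl⟩ := mem_image.1 hx
    obtain ⟨u, hu, h⟩ := mem_image.1 hz
    have := congrArg (yo l) h
    rw [yo_add_up ht, yo_add_up hu] at this
    exact this.symm

theorem yo_add_un (l : ℕ) (x : St) (μ : Fin 3) :
    yo l (x + un μ) = yo l x ∨ yo l (x + un μ) = yo l x + un μ := by
  have ht := sub_up_mem l x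
  set t := x - up l (yo l x) with htd
  have hx : x + un μ = t + un μ + up l (yo l x) := by rw [htd]; abel
  rw [hx, yo_up_add]
  have hb := mem_box.1 ht
  by_cases h : t μ < l
  · left
    rw [yo_eq_zero.2, zero_add]
    refine mem_box.2 fun i => ?_
    by_cases hi : i = μ
    · subst hi
      have := abs_le.1 (hb i)
      simp only [un, Pi.add_apply, Pi.single_eq_same, abs_le]
      omega
    · simpa [un, hi] using hb i
  · right
    have e : t + un μ = (t - (2 * l : ℤ) • un μ) + up l (un μ) := by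
      simp only [up, LL]; push_cast; module
    rw [e, yo_add_up, add_comm]
    refine mem_box.2 fun i => ?_
    by_cases hi : i = μ
    · subst hi
      have := abs_le.1 (hb i)
      simp only [un, Pi.sub_apply, Pi.smul_apply, Pi.single_eq_same, smul_eq_mul, abs_le]
      omega
    · simpa [un, hi] using hb i

section prim
variable {W : Type} [AddCommGroup W]

theorem pr_zero (g : ℤ → W) : pr g 0 = 0 := by simp [pr]

theorem pr_succ (g : ℤ → W) (n : ℤ) : pr g (n + 1) = pr g n + g n := by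
  rcases le_or_gt 0 n with h | h
  · obtain ⟨k, rfl⟩ := Int.eq_ofNat_of_zero_le h
    have h1 : ((k : ℤ) + 1).toNat = k + 1 := by omega
    have h2 : (-((k : ℤ) + 1)).toNat = 0 := by omega
    have h3 : (-(k : ℤ)).toNat = 0 := by omega
    simp only [pr, h1, h2, h3, sum_range_succ, range_zero, sum_empty, Int.toNat_natCast, sub_zero]
  · obtain ⟨k, rfl⟩ : ∃ k : ℕ, n = -((k : ℤ) + 1) := ⟨(-n - 1).toNat, by omega⟩
    have h1 : (-((k : ℤ) + 1) + 1).toNat = 0 := by omega
    have h2 : (-(-((k : ℤ) + 1) + 1)).toNat = k := by omega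
    have h3 : (-((k : ℤ) + 1)).toNat = 0 := by omega
    have h4 : (-(-((k : ℤ) + 1))).toNat = k + 1 := by omega
    simp only [pr, h1, h2, h3, h4, sum_range_succ, range_zero, sum_empty]
    abel

theorem pr_tele (u : ℤ → W) (n : ℤ) : pr (fun s => u (s + 1) - u s) n = u n - u 0 := by
  induction n using Int.induction_on with
  | zero => simp [pr_zero]
  | succ k ih => rw [pr_succ, ih]; abel
  | pred k ih =>
    have := pr_succ (fun s => u (s + 1) - u s) (-(k : ℤ) - 1)
    rw [sub_add_cancel, ih] at this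
    exact (eq_sub_of_add_eq this.symm).trans (by abel)

theorem pr_add (g h : ℤ → W) (n : ℤ) : pr (fun s => g s + h s) n = pr g n + pr h n := by
  simp only [pr, sum_add_distrib]; abel

theorem lam_add (a b : Lk → W) (x : St) : lam (a + b) x = lam a x + lam b x := by
  simp only [lam, Pi.add_apply, pr_add, sum_add_distrib]

theorem gr_add (u v : St → W) : gr (fun x => u x + v x) = gr u + gr v := by
  funext e; simp only [gr, Pi.add_apply]; abel

theorem gr_sub (u v : St → W) : gr (fun x => u x - v x) = gr u - gr v := by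
  funext e; simp only [gr, Pi.sub_apply]; abel

theorem lam_gr (u : St → W) (z : St) : lam (gr u) z = u z - u 0 := by
  have h : ∀ μ, pr (fun s : ℤ => gr u (pre z μ + s • un μ, μ)) (z μ) =
      u (pre z μ + z μ • un μ) - u (pre z μ) := fun μ => by
    have := pr_tele (fun s : ℤ => u (pre z μ + s • un μ)) (z μ)
    simp only [add_smul, one_smul, ← add_assoc, zero_smul, add_zero] at this
    exact this
  have h0 : pre z 0 = 0 := by funext i; simp [pre]
  have h1 : pre z 0 + z 0 • un 0 = pre z 1 := by funext i; fin_cases i <;> simp [pre, un]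
  have h2 : pre z 1 + z 1 • un 1 = pre z 2 := by funext i; fin_cases i <;> simp [pre, un]
  have h3 : pre z 2 + z 2 • un 2 = z := by funext i; fin_cases i <;> simp [pre, un]
  simp only [lam, h, Fin.sum_univ_three, h1, h2, h3]
  rw [h0]; abel

theorem lam_tree (b : Lk → W) (z : St) (μ : Fin 3) (hz : ∀ ν, μ < ν → z ν = 0) :
    lam b (z + un μ) = lam b z + b (z, μ) := by
  have : ∀ κ, pr (fun s : ℤ => b (pre (z + un μ) κ + s • un κ, κ)) ((z + un μ) κ) =
      pr (fun s : ℤ => b (pre z κ + s • un κ, κ)) (z κ) + if κ = μ then b (z, μ) else 0 := by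
    intro κ
    have hp : κ ≤ μ → pre (z + un μ) κ = pre z κ := fun h => by
      funext i
      by_cases hi : i < κ
      · have : i ≠ μ := (hi.trans_le h).ne
        simp [pre, hi, un, this]
      · simp [pre, hi]
    rcases lt_trichotomy κ μ with h | h | h
    · rw [hp h.le]; simp [un, h.ne]
    · subst h
      have e : pre z κ + z κ • un κ = z := by
        funext i
        rcases lt_trichotomy i κ with h | h | h
        · simp [pre, un, h, h.ne]
        · simp [pre, un, h]
        · simp [pre, un, h.not_gt, h.ne', hz i h]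
      have e2 : (z + un κ) κ = z κ + 1 := by simp [un]
      rw [hp le_rfl, e2, pr_succ, e, if_pos rfl]
    · simp [un, h.ne', hz κ h, pr_zero]
  simp only [lam, this, sum_add_distrib, sum_ite_eq', mem_univ, if_true]

end prim

theorem pr_smul (c : ℝ) (g : ℤ → ℝ) (n : ℤ) : pr (fun s => c * g s) n = c * pr g n := by
  simp only [pr, mul_sub, mul_sum]

theorem lam_smul (c : ℝ) (a : V) (x : St) : lam (c • a) x = c * lam a x := by
  simp only [lam, Pi.smul_apply, smul_eq_mul, pr_smul, mul_sum]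

theorem abs_pr_le {g : ℤ → ℝ} {n : ℤ} {K : ℝ} (h : ∀ s, |s| ≤ |n| → |g s| ≤ K) :
    |pr g n| ≤ (|n| : ℤ) * K := by
  have h1 : |∑ i ∈ range n.toNat, g i| ≤ n.toNat * K := by
    refine (abs_sum_le_sum_abs _ _).trans ((sum_le_card_nsmul _ _ K fun i hi => h _ ?_).trans_eq ?_)
    · have := mem_range.1 hi
      rw [abs_le]; constructor <;> cases abs_cases n <;> omega
    · simp
  have h2 : |∑ i ∈ range (-n).toNat, g (-((i : ℤ) + 1))| ≤ (-n).toNat * K := by
    refine (abs_sum_le_sum_abs _ _).trans ((sum_le_card_nsmul _ _ K fun i hi => h _ ?_).trans_eq ?_)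
    · have := mem_range.1 hi
      rw [abs_le]; constructor <;> cases abs_cases n <;> omega
    · simp
  have h3 : ((|n| : ℤ) : ℝ) = n.toNat + (-n).toNat := by
    have : |n| = (n.toNat : ℤ) + ((-n).toNat : ℤ) := by cases abs_cases n <;> omega
    rw [this]; simp only [Int.cast_add, Int.cast_natCast]
  rw [h3, pr, add_mul]
  exact (abs_sub _ _).trans (add_le_add h1 h2)

theorem pre_mem {l : ℕ} {z : St} (hz : z ∈ box l) (κ : Fin 3) {s : ℤ} (hs : |s| ≤ |z κ|) :
    pre z κ + s • un κ ∈ box l := by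
  refine mem_box.2 fun i => ?_
  rcases lt_trichotomy i κ with h | h | h
  · simpa [pre, un, h, h.ne] using mem_box.1 hz i
  · subst h
    simpa [pre, un] using hs.trans (mem_box.1 hz i)
  · simp [pre, un, h.not_gt, h.ne']

theorem abs_lam_le {l : ℕ} {b : V} {z : St} {K : ℝ} (hz : z ∈ box l)
    (h : ∀ e ∈ lbox l, |b e| ≤ K) : |lam b z| ≤ 3 * l * K := by
  have K0 : 0 ≤ K := (abs_nonneg _).trans (h (0, 0) (Li.mem_lbox.2 (Li.zero_mem_box l)))
  refine (abs_sum_le_sum_abs _ _).trans ((sum_le_card_nsmul _ _ (l * K) fun κ _ => ?_).trans_eq ?_)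
  · refine (abs_pr_le fun s hs => h _ (Li.mem_lbox.2 (pre_mem hz κ hs))).trans ?_
    exact mul_le_mul_of_nonneg_right (by exact_mod_cast mem_box.1 hz κ) K0
  · simp [mul_assoc]

theorem abs_avg0_le {l : ℕ} {u : St → ℝ} {y : St} {K : ℝ} (h : ∀ x, yo l x = y → |u x| ≤ K) :
    |avg0 l u y| ≤ K := by
  have hL := LL_posR l
  rw [avg0, abs_mul, abs_of_pos (by positivity), inv_mul_le_iff₀ (by positivity), ← card_box_LL,
    ← nsmul_eq_mul]
  exact (abs_sum_le_sum_abs _ _).trans (sum_le_card_nsmul _ _ K fun t ht => h _ (yo_up_add' ht y))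

theorem avg0_add (l : ℕ) (u v : St → ℝ) (y : St) :
    avg0 l (fun x => u x + v x) y = avg0 l u y + avg0 l v y := by
  simp only [avg0, sum_add_distrib, mul_add]

theorem avg0_sub_yo (l : ℕ) (u v : St → ℝ) (y : St) :
    avg0 l (fun x => u x - v (yo l x)) y = avg0 l u y - v y := by
  have hL := LL_posR l
  simp only [avg0, sum_sub_distrib, mul_sub]
  rw [sum_congr rfl fun t ht => congrArg v (yo_up_add' ht y), sum_const, nsmul_eq_mul, card_box_LL]
  field_simp

theorem sh_add (x : St) (a b : V) : sh x (a + b) = sh x a + sh x b := rfl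

theorem sh_sub (x : St) (a b : V) : sh x (a - b) = sh x a - sh x b := rfl

theorem sh_smul (x : St) (c : ℝ) (a : V) : sh x (c • a) = c • sh x a := rfl

theorem TG_tree {l : ℕ} (a : V) {f : Lk} (hf : tree l f) : TG l a f = 0 := by
  obtain ⟨x, μ⟩ := f
  obtain ⟨h1, h2⟩ := hf
  simp only at h1 h2
  have := lam_tree (sh (up l (yo l x)) a) (x - up l (yo l x)) μ fun ν hν => by
    simp [h2 ν hν]
  simp only [TG, Pi.sub_apply, gr, tgu, h1]
  rw [add_sub_right_comm, this]
  simp [sh]

theorem TG_add (l : ℕ) (a b : V) : TG l (a + b) = TG l a + TG l b := by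
  have h : tgu l (a + b) = fun x => tgu l a x + tgu l b x := by
    funext x; simp only [tgu, sh_add, lam_add]
  funext e
  simp only [TG, h, avg0_add, gr, Pi.sub_apply, Pi.add_apply]; ring

theorem TG_smul (l : ℕ) (c : ℝ) (a : V) : TG l (c • a) = c • TG l a := by
  have h : tgu l (c • a) = fun x => c * tgu l a x := by
    funext x; simp only [tgu, sh_smul, lam_smul]
  funext e
  simp only [TG, h, avg0, ← mul_sum, gr, Pi.sub_apply, Pi.smul_apply, smul_eq_mul]; ring

theorem sh_gr (x : St) (u : St → ℝ) : sh x (gr u) = gr fun z => u (z + x) := Li.sh_gr x u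

theorem TG_gr (l : ℕ) (g : St → ℝ) : TG l (gr g) = gr fun x => avg0 l g (yo l x) := by
  have h : tgu l (gr g) = fun x => g x - g (up l (yo l x)) := by
    funext x; simp only [tgu, sh_gr, lam_gr, sub_add_cancel, zero_add]
  funext e
  simp only [TG, h, avg0_sub_yo l g fun y => g (up l y), gr, Pi.sub_apply]; ring

theorem TG_sh (l : ℕ) (y : St) (a : V) : TG l (sh (up l y) a) = sh (up l y) (TG l a) := by
  have h : tgu l (sh (up l y) a) = fun x => tgu l a (x + up l y) := by
    funext x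
    simp only [tgu, yo_up_add, Li.up_add, Li.sh_sh, add_sub_add_right_eq_sub]
  simp only [TG, h, sh_sub, sh_gr, yo_up_add, avg0, Li.up_add, add_right_comm _ (up l y)]

theorem TG_bd (l : ℕ) (a : V) (f : Lk) {K : ℝ}
    (h : ∀ e : Lk, yo l e.1 = yo l f.1 ∨ yo l e.1 = yo l (f.1 + un f.2) → |a e| ≤ K) :
    |TG l a f| ≤ (16 * l + 1) * K := by
  have h1 : ∀ x, yo l x = yo l f.1 ∨ yo l x = yo l (f.1 + un f.2) → |tgu l a x| ≤ 3 * l * K :=
    fun x hx => abs_lam_le (sub_up_mem l x) fun e he => h _ (by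
      simpa only [yo_add_up (Li.mem_lbox.1 he)] using hx)
  have h0 := mul_nonneg l.cast_nonneg ((abs_nonneg _).trans (h f (Or.inl rfl)))
  have h2 := abs_le.1 (h f (Or.inl rfl))
  have h3 := abs_le.1 (h1 _ (Or.inl rfl))
  have h4 := abs_le.1 (h1 _ (Or.inr rfl))
  have h5 := abs_le.1 (abs_avg0_le fun x hx => h1 x (Or.inl hx))
  have h6 := abs_le.1 (abs_avg0_le fun x hx => h1 x (Or.inr hx))
  simp only [TG, gr, Pi.sub_apply, abs_le]
  constructor <;> linarith

theorem avgA_gr (l : ℕ) (u : St → ℝ) : avgA l (gr u) = gr (avg0 l u) := by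
  funext b
  simp only [Li.avgA_apply, gr, avg0, ← mul_sub, ← sum_sub_distrib]
  congr 1
  refine sum_congr rfl fun t _ => ?_
  have := sum_range_sub (fun i : ℕ => u (up l b.1 + t + (i : ℤ) • un b.2)) (LL l)
  simp only [Nat.cast_add, Nat.cast_one, add_smul, one_smul, ← add_assoc, Nat.cast_zero,
    zero_smul, add_zero] at this
  rw [this, Li.up_add]
  congr 2
  simp only [up]; abel

theorem avgA_TG (l : ℕ) (a : V) : avgA l (TG l a) = avgA l a := by
  rw [TG, map_sub, avgA_gr]
  funext e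
  simp [gr, avg0_sub_yo]

theorem dd_gr (u : St → ℝ) : dd (gr u) = 0 := by
  funext x μ ν; exact Li.dd_gr u x μ ν

theorem dd_add (a b : V) : dd (a + b) = dd a + dd b := by
  funext x μ ν; simp only [dd, Pi.add_apply]; ring

theorem dd_sub (a b : V) : dd (a - b) = dd a - dd b := by
  funext x μ ν; simp only [dd, Pi.sub_apply]; ring

theorem dd_TG (l : ℕ) (a : V) : dd (TG l a) = dd a := by
  rw [TG, dd_sub, dd_gr, sub_zero]

theorem avgA_sh (l : ℕ) (y : St) (a : V) : avgA l (sh (up l y) a) = sh y (avgA l a) := by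
  funext b
  simp only [Li.avgA_apply, sh, Li.up_add, add_right_comm _ (up l y)]

theorem iz_apply (l : ℕ) (B : V) (f : Lk) :
    iz l B f = if yo l (f.1 + un f.2) = yo l f.1 then 0 else B (yo l f.1, f.2) := by
  simp only [iz, LinearMap.pi_apply]
  split_ifs <;> rfl

theorem iz_sh (l : ℕ) (y : St) (B : V) : iz l (sh y B) = sh (up l y) (iz l B) := by
  funext f
  simp only [sh, iz_apply, add_right_comm _ (up l y), yo_up_add, add_left_inj]

theorem iz_gr (l : ℕ) (u : St → ℝ) : iz l (gr u) = gr fun x => u (yo l x) := by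
  funext f
  rw [iz_apply]
  split_ifs with h
  · simp [gr, h]
  · simp only [gr, (yo_add_un l f.1 f.2).resolve_left h]

theorem iz_tree {l : ℕ} (B : V) {f : Lk} (hf : tree l f) : iz l B f = 0 := by
  rw [iz_apply, if_pos hf.1]

theorem mu_apply (l : ℕ) (s : V →ₗ[ℝ] V) (B : V) (f : Lk) : mu l s B f =
    iz l B f + s (sh (yo l f.1) B) (f.1 - up l (yo l f.1), f.2) := rfl

theorem mu_sh (l : ℕ) (s : V →ₗ[ℝ] V) (y : St) (B : V) :
    mu l s (sh y B) = sh (up l y) (mu l s B) := by
  funext f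
  rw [mu_apply, iz_sh, Li.sh_sh]
  simp only [sh, mu_apply, yo_up_add, Li.up_add, add_sub_add_right_eq_sub]

theorem enB_apply (l : ℕ) (m : BF) (a B a' B' : V) : enB l m (a, B) (a', B') =
    ∑ x ∈ box l, m (sh x a) (sh x a') +
      (LL l : ℝ) ^ 2 * ∑ μ, (B (0, μ) - avgA l a (0, μ)) * (B' (0, μ) - avgA l a' (0, μ)) := by
  simp only [enB, LinearMap.add_apply, LinearMap.sum_apply, LinearMap.smul_apply,
    LinearMap.compl₁₂_apply, smul_eq_mul, LinearMap.mul_apply']
  rfl

theorem cs_one {W : Type} [AddCommGroup W] [Module ℝ W] (m : W →ₗ[ℝ] W →ₗ[ℝ] ℝ)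
    (hs : ∀ a b, m a b = m b a) (hp : ∀ a, 0 ≤ m a a) (a b : W) :
    m a b ^ 2 ≤ m a a * m b b := by
  have := discrim_le_zero (a := m a a) (b := 2 * m a b) (c := m b b) fun x => by
    have := hp (x • a + b)
    simp only [map_add, map_smul, LinearMap.add_apply, LinearMap.smul_apply, smul_eq_mul,
      hs b a] at this
    linarith
  rw [discrim] at this
  linarith

/-- Cauchy-Schwarz for a symmetric positive form, summed -/
theorem cs_sum {ι W : Type} [AddCommGroup W] [Module ℝ W] (m : W →ₗ[ℝ] W →ₗ[ℝ] ℝ)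
    (hs : ∀ a b, m a b = m b a) (hp : ∀ a, 0 ≤ m a a) (S : Finset ι) (a b : ι → W) :
    (∑ i ∈ S, |m (a i) (b i)|) ^ 2 ≤ (∑ i ∈ S, m (a i) (a i)) * ∑ i ∈ S, m (b i) (b i) :=
  sum_sq_le_sum_mul_sum_of_sq_le_mul S (fun i _ => hp _) (fun i _ => hp _) fun i _ => by
    rw [sq_abs]; exact cs_one m hs hp _ _

end Pool.Agent.Lib.MP_7f377f_mp.RG.D3.La
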