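import Pool.Agent.Lib.MP_7f377f_mp.R3LinB

/-! The finite linear step of the renormalisation group. -/

noncomputable section

namespace Pool.Agent.Lib.MP_7f377f_mp.RG.D3.La

open Finset
open scoped Pointwise

variable {l r n R c : ℕ} {cL cU C τ δ δ' : ℝ} {m : BF} {s : V →ₗ[ℝ] V} {a B : V}

theorem hh_apply (l : ℕ) (m : BF) (a b : V) : hh l m a b = enB l m (a, 0) (b, 0) := rfl

theorem xx_apply (l : ℕ) (m : BF) (s : V →ₗ[ℝ] V) (a B : V) :
    xx l m s a B = enB l m (a, 0) (mu l s B, B) := rfl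

theorem mn_apply (l : ℕ) (m : BF) (s : V →ₗ[ℝ] V) (B B' : V) :
    mn l m s B B' = enB l m (mu l s B, B) (mu l s B', B') := rfl

theorem mr_apply (l : ℕ) (m : BF) (s : V →ₗ[ℝ] V) (B B' : V) :
    mr l m s B B' = LL l * mn l m s B B' := rfl

theorem enB_symm (hs : ∀ a b, m a b = m b a) (l : ℕ) (p q : V × V) :
    enB l m p q = enB l m q p := by
  obtain ⟨a, B⟩ := p
  obtain ⟨a', B'⟩ := q
  simp only [enB_apply, hs (sh _ a), mul_comm (B _ - _)]

theorem enB_psd (hp : ∀ a, 0 ≤ m a a) (l : ℕ) (p : V × V) : 0 ≤ enB l m p p := by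
  obtain ⟨a, B⟩ := p
  rw [enB_apply]
  exact add_nonneg (sum_nonneg fun _ _ => hp _)
    (mul_nonneg (sq_nonneg _) (sum_nonneg fun _ _ => mul_self_nonneg _))

theorem avgA_bd0 (ha : Sm (3 * l + 1) δ a) (μ : Fin 3) : |avgA l a (0, μ)| ≤ LL l * δ :=
  avgA_bd fun t ht => ha _ (mem_lbox.2 (by simpa using box_mono (by omega) ht))

theorem enB_zero (hr : Rng R R m) (hR : R ≤ l) (ha : Sm (3 * l + 1) 0 a)
    (hB : ∀ μ, B (0, μ) = 0) (q : V × V) : enB l m (a, B) q = 0 := by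
  obtain ⟨a', B'⟩ := q
  have h1 : ∀ μ, avgA l a (0, μ) = 0 := fun μ => by simpa using avgA_bd0 ha μ
  rw [enB_apply, sum_eq_zero fun x hx => hr _ _ (Or.inl (sm_zero.1
    ((ha.mono (R' := R + l) (by omega) le_rfl).sh hx)))]
  simp [h1, hB]

theorem enB_gr (hg : ∀ u b, m (gr u) b = 0) {u : St → ℝ} (h : avgA l (gr u) = B) (q : V × V) :
    enB l m (gr u, B) q = 0 := by
  obtain ⟨a', B'⟩ := q
  simp [enB_apply, h, sh_gr, hg]

theorem sum_enB (l : ℕ) (m : BF) (a B : V) (Y : Finset St) :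
    ∑ y ∈ Y, enB l m (sh (up l y) a, sh y B) (sh (up l y) a, sh y B) =
      ∑ x ∈ Blk l Y, m (sh x a) (sh x a) +
        (LL l : ℝ) ^ 2 * ∑ y ∈ Y, ∑ μ, (B - avgA l a) (y, μ) ^ 2 := by
  simp only [enB_apply, sum_Blk, sum_add_distrib, ← mul_sum, avgA_sh, sh_sh, sq]
  simp [sh]

theorem enB_bd (hU : U1 C m) (hr : Rng R R m) (hR : R ≤ l) (hL : 160000 * |C| + 16 ≤ LL l)
    (ha : Sm (3 * l + 1) δ a) (hB : ∀ μ, |B (0, μ)| ≤ δ) :
    enB l m (a, B) (a, B) ≤ (LL l : ℝ) ^ 5 * δ ^ 2 := by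
  have d0 := ha.nonneg
  have hl : (LL l : ℝ) = 2 * l + 1 := by simp [LL]
  have l0 : (0 : ℝ) ≤ l := by positivity
  set a' := cut (3 * l + 1) a
  have h1 : ∀ x ∈ box l, m (sh x a) (sh x a) = m (sh x a') (sh x a') := fun x hx => by
    have h : ∀ e ∈ lbox R, (sh x a - sh x a') e = 0 := fun e he => by
      have : (e.1 + x, e.2) ∈ lbox (3 * l + 1) :=
        mem_lbox.2 (box_mono (by omega) (add_mem_box (mem_lbox.1 he) hx))
      simp [a', sh, cut_of_mem _ this]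
    have h2 := hr _ (sh x a) (Or.inl h)
    have h3 := hr (sh x a') _ (Or.inr h)
    simp only [map_sub, LinearMap.sub_apply] at h2 h3
    linarith
  have h2 := hU a' (box l) (box (3 * l + 1)) fun e he => cut_of_not_mem _ fun h => he (mem_lbox.1 h)
  have h3 : ∑ x ∈ box (3 * l + 1) + box 1, nd a' x ≤ (5 * LL l) ^ 3 * (16 * (4 * δ) ^ 2) := by
    have hs : box (3 * l + 1) + box 1 ⊆ box (3 * l + 1 + 1) := fun x hx => by
      obtain ⟨y, hy, z, hz, rfl⟩ := mem_add.1 hx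
      exact add_mem_box hy hz
    refine (sum_le_sum_of_subset_of_nonneg hs fun x _ _ => Li.nd_nonneg _ _).trans
      ((sum_le_card_nsmul _ _ _ fun x hx => nd_le_of_cv (Sm.cv fun e _ => ha.cut e) hx).trans ?_)
    rw [card_box, nsmul_eq_mul, hl]
    push_cast
    gcongr
    linarith
  have h4 : ∑ μ, (B (0, μ) - avgA l a (0, μ)) * (B (0, μ) - avgA l a (0, μ)) ≤
      3 * (2 * LL l * δ) ^ 2 := by
    refine (sum_le_card_nsmul _ _ ((2 * LL l * δ) ^ 2) fun μ _ => ?_).trans_eq (by simp)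
    have h5 := abs_le.1 (hB μ)
    have h6 := abs_le.1 (avgA_bd0 ha μ)
    rw [← sq]
    apply sq_le_sq' <;> nlinarith
  have h5 := (le_abs_self _).trans ((abs_mul C _).trans_le (mul_le_mul_of_nonneg_left
    ((abs_of_nonneg (sum_nonneg fun x _ => Li.nd_nonneg a' x)).trans_le h3) (abs_nonneg C)))
  rw [enB_apply, sum_congr rfl h1]
  have h6 := mul_le_mul_of_nonneg_left h4 (sq_nonneg (LL l : ℝ))
  have h7 := mul_le_mul_of_nonneg_right hL (by positivity : 0 ≤ (LL l : ℝ) ^ 4 * δ ^ 2)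
  have h8 := mul_le_mul_of_nonneg_right (show (1 : ℝ) ≤ LL l by rw [hl]; linarith)
    (by positivity : 0 ≤ |C| * (LL l : ℝ) ^ 3 * δ ^ 2)
  have h9 : 0 ≤ |C| * (LL l : ℝ) ^ 3 * δ ^ 2 := by positivity
  have h10 : 0 ≤ (LL l : ℝ) ^ 4 * δ ^ 2 := by positivity
  linarith

theorem mu_sm (hP : Pre l r c τ m s) (hr : 2 ≤ r) (hB : Sm r δ B) :
    Sm (3 * l + 1) ((1 + (LL l : ℝ) ^ c) * δ) (mu l s B) := fun f hf => by
  have hy := yo_mem_one (mem_lbox.1 hf)
  have h1 : Sm (r / 4) δ (sh (yo l f.1) B) :=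
    (hB.mono (R' := r / 4 + 1) (by omega) le_rfl).sh hy
  have h2 : s (sh (yo l f.1) B) = s (cut (r / 4) (sh (yo l f.1) B)) := by
    rw [← sub_eq_zero, ← map_sub]
    exact hP.s_rng _ fun e he => by simp [cut_of_mem _ he]
  have h3 := hP.s_bd _ δ (f.1 - up l (yo l f.1), f.2) fun e _ => h1.cut e
  have h4 : |iz l B f| ≤ δ := by
    rw [iz_apply]
    split_ifs
    · simpa using hB.nonneg
    · exact hB _ (mem_lbox.2 (box_mono (by omega) hy))
  rw [mu_apply, h2, add_mul, one_mul]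
  exact (abs_add_le _ _).trans (add_le_add h4 h3)

theorem coer (hm : Inv n R cL cU m) (cL1 : cL ≤ 20) (hl : 135 ≤ l)
    (h : ∀ f, tree l f → a f = 0) : ∑ f ∈ lbox l, a f ^ 2 ≤
      (LL l : ℝ) ^ 11 * ∑ y ∈ box 3, hh l m (sh (up l y) a) (sh (up l y) a) := by
  have hE := sum_enB l m a 0 (box 3)
  change ∑ y ∈ box 3, hh l m (sh (up l y) a) (sh (up l y) a) = _ at hE
  set E := ∑ y ∈ box 3, hh l m (sh (up l y) a) (sh (up l y) a)
  have hL : (LL l : ℝ) = 2 * l + 1 := by simp [LL]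
  have l0 : (135 : ℝ) ≤ l := by exact_mod_cast hl
  have p1 : 0 ≤ ∑ x ∈ Blk l (box 3), m (sh x a) (sh x a) := sum_nonneg fun _ _ => hm.psd _
  have p2 : 0 ≤ ∑ y ∈ box 3, ∑ μ, (0 - avgA l a) (y, μ) ^ 2 :=
    sum_nonneg fun _ _ => sum_nonneg fun _ _ => sq_nonneg _
  have p3 := mul_le_mul_of_nonneg_right (show (1 : ℝ) ≤ (LL l : ℝ) ^ 2 by rw [hL]; nlinarith) p2
  have E0 : 0 ≤ E := by linarith
  have hs := Real.sq_sqrt E0
  have s0 := Real.sqrt_nonneg E
  have h1 : Cv (3 * l + 1) (5 * √E) a := fun x hx μ ν => by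
    have h2 := (Li.sq_le_nd a x μ ν).trans ((single_le_sum (f := nd a)
      (fun y _ => Li.nd_nonneg a y) hx).trans (hm.lower a _))
    have h3 : ∑ x ∈ box (3 * l + 1) + box 2, m (sh x a) (sh x a) ≤
        ∑ x ∈ Blk l (box 3), m (sh x a) (sh x a) := by
      refine sum_le_sum_of_subset_of_nonneg (fun x hx => ?_) fun _ _ _ => hm.psd _
      obtain ⟨y, hy, z, hz, rfl⟩ := mem_add.1 hx
      rw [Blk_box]
      exact box_mono (by simp only [LL]; omega) (add_mem_box hy hz)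
    have h4 := mul_le_mul_of_nonneg_right cL1 (sum_nonneg (s := box (3 * l + 1) + box 2)
      fun x _ => hm.psd (sh x a))
    refine abs_le_of_sq_le_sq' ?_ (by positivity) |> abs_le.2
    rw [mul_pow, hs]
    linarith
  have h2 : ∀ μ, |avgA l a (0, μ)| ≤ √E := fun μ => by
    refine Real.abs_le_sqrt ?_
    have h3 := (single_le_sum (f := fun μ => (0 - avgA l a) (0, μ) ^ 2) (fun _ _ => sq_nonneg _)
      (mem_univ μ)).trans (single_le_sum (f := fun y => ∑ μ, (0 - avgA l a) (y, μ) ^ 2)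
      (fun _ _ => sum_nonneg fun _ _ => sq_nonneg _) (zero_mem_box 3))
    rw [zero_sub, Pi.neg_apply, neg_sq, ← zero_sub] at h3
    linarith
  have h3 : Sm l ((LL l : ℝ) ^ 3 * √E) a := by
    refine (tree_poinc h h1 h2).mono le_rfl ?_
    have : (18 * l + 2) * (3 * (3 * l + 1) * 5) + 1 ≤ (LL l : ℝ) ^ 3 := by
      rw [hL]; nlinarith [mul_nonneg (sub_nonneg.2 l0) (sq_nonneg (l : ℝ))]
    push_cast
    linarith [mul_le_mul_of_nonneg_right this s0]
  refine (sum_le_card_nsmul _ _ (((LL l : ℝ) ^ 3 * √E) ^ 2) fun f hf =>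
    sq_le_sq' (abs_le.1 (h3 f hf)).1 (abs_le.1 (h3 f hf)).2).trans ?_
  have h4 : ((lbox l).card : ℝ) = (LL l : ℝ) ^ 3 * 3 := by simp [card_lbox, LL]
  rw [nsmul_eq_mul, h4, mul_pow, hs]
  have h5 := mul_le_mul_of_nonneg_right (show (3 : ℝ) ≤ (LL l : ℝ) ^ 2 by rw [hL]; nlinarith)
    (by positivity : 0 ≤ (LL l : ℝ) ^ 9 * E)
  linarith

theorem new_lower (hm : Inv n R cL cU m) (cL1 : 1 ≤ cL) (hl : 32 ≤ l) (s : V →ₗ[ℝ] V) (B : V)
    (S : Finset St) : ∑ y ∈ S, nd B y ≤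
      cL * (1 + 1 / LL l) * ∑ y ∈ S + box 2, mr l m s (sh y B) (sh y B) := by
  have hL := LL_posR l
  have hL2 : (64 : ℝ) ≤ LL l := by
    have : 64 ≤ LL l := by simp only [LL]; omega
    exact_mod_cast this
  simp only [mr_apply, ← mul_sum, mn_apply, mu_sh, sum_enB]
  set A := mu l s B
  have h1 := sum_le_sum (s := S) fun y _ => nd_add_le (avgA l A) (B - avgA l A) y hL
  rw [add_sub_cancel, sum_add_distrib, ← mul_sum, ← mul_sum] at h1
  have h2 : ∑ x ∈ Blk l (S + box 1) + box 2, m (sh x A) (sh x A) ≤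
      ∑ x ∈ Blk l (S + box 2), m (sh x A) (sh x A) := by
    refine sum_le_sum_of_subset_of_nonneg (fun x' hx' => ?_) fun _ _ _ => hm.psd _
    obtain ⟨x, hx, z, hz, rfl⟩ := mem_add.1 hx'
    obtain ⟨y, hy, w, hw, e⟩ := mem_add.1 (mem_Blk.1 hx)
    have e2 : x + z = x - up l (yo l x) + z + up l (yo l x) := by abel
    rw [mem_Blk, e2, yo_up_add, add_comm _ (yo l x), ← e, add_assoc y, e]
    have h0 := yo_mem_one (l := l) (box_mono (by omega) (add_mem_box (sub_up_mem l x) hz))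
    exact add_mem_add hy (box_mono (by omega) (add_mem_box hw h0))
  have h3 := (nd_avgA l A S).trans (mul_le_mul_of_nonneg_left ((hm.lower A _).trans
    (mul_le_mul_of_nonneg_left h2 (by linarith))) hL.le)
  have h4 : ∑ y ∈ S + box 1, ∑ μ, (B - avgA l A) (y, μ) ^ 2 ≤
      ∑ y ∈ S + box 2, ∑ μ, (B - avgA l A) (y, μ) ^ 2 :=
    sum_le_sum_of_subset_of_nonneg (add_subset_add_left (Li.box_mono one_le_two))
      fun _ _ _ => sum_nonneg fun _ _ => sq_nonneg _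
  have h5 := (sum_nd_sq (B - avgA l A) S).trans (mul_le_mul_of_nonneg_left h4 (by norm_num))
  have q0 : 0 ≤ ∑ y ∈ S + box 2, ∑ μ, (B - avgA l A) (y, μ) ^ 2 :=
    sum_nonneg fun _ _ => sum_nonneg fun _ _ => sq_nonneg _
  have h6 : (1 + LL l) * 64 ≤ cL * (1 + 1 / LL l) * (LL l : ℝ) ^ 3 := by
    have : cL * (1 + 1 / LL l) * (LL l : ℝ) ^ 3 = (1 + LL l) * (cL * LL l ^ 2) := by
      field_simp; ring
    rw [this]
    gcongr
    nlinarith
  have h7 := mul_le_mul_of_nonneg_left h3 (by positivity : 0 ≤ 1 + 1 / (LL l : ℝ))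
  have h8 := mul_le_mul_of_nonneg_left h5 (by positivity : 0 ≤ 1 + (LL l : ℝ))
  have h9 := mul_le_mul_of_nonneg_right h6 q0
  linarith

end Pool.Agent.Lib.MP_7f377f_mp.RG.D3.La
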