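import Pool.Agent.Lib.MP_7f377f_mp.R3Base

/-! Soft facts on the invariants of the quadratic densities. -/

noncomputable section

namespace Pool.Agent.Lib.MP_7f377f_mp.RG.D3

open Finset
open scoped Pointwise

namespace Li

theorem mem_box {r : ℕ} {x : St} : x ∈ box r ↔ ∀ i, |x i| ≤ r := by
  simp [box, Fintype.mem_piFinset, abs_le]

theorem mem_lbox {r : ℕ} {e : Lk} : e ∈ lbox r ↔ e.1 ∈ box r := by
  simp [lbox]

theorem zero_mem_box (r : ℕ) : (0 : St) ∈ box r := by simp [mem_box]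

theorem abs_un (μ i : Fin 3) : |un μ i| ≤ 1 := by
  by_cases h : i = μ <;> simp [un, h]

theorem un_mem_box {r : ℕ} (hr : 1 ≤ r) (μ : Fin 3) : un μ ∈ box r :=
  mem_box.2 fun i => (abs_un μ i).trans (by exact_mod_cast hr)

theorem neg_mem_box {r : ℕ} {x : St} (h : x ∈ box r) : -x ∈ box r := by
  simpa [mem_box] using h

theorem add_mem_box {r s : ℕ} {x y : St} (hx : x ∈ box r) (hy : y ∈ box s) :
    x + y ∈ box (r + s) := by
  rw [mem_box] at *
  intro i
  have := abs_add_le (x i) (y i)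
  have := hx i
  have := hy i
  push_cast
  simp only [Pi.add_apply]
  linarith

theorem box_mono {r s : ℕ} (h : r ≤ s) : box r ⊆ box s := fun x hx =>
  mem_box.2 fun i => (mem_box.1 hx i).trans (by exact_mod_cast h)

theorem card_box (r : ℕ) : (box r).card = (2 * r + 1) ^ 3 := by
  simp only [box, Fintype.card_piFinset, Int.card_Icc, prod_const, card_univ, Fintype.card_fin]
  congr 1
  omega

theorem shL_apply (x : St) (a : V) : shL x a = sh x a := rfl

theorem sh_sh {α : Type} (x y : St) (a : Lk → α) : sh x (sh y a) = sh (x + y) a := by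
  funext e; simp [sh, add_assoc]

theorem sh_zero {α : Type} (a : Lk → α) : sh 0 a = a := by
  funext e; simp [sh]

theorem dd_sh {W : Type} [AddCommGroup W] (x y : St) (a : Lk → W) (μ ν : Fin 3) :
    dd (sh x a) y μ ν = dd a (y + x) μ ν := by
  simp only [dd, sh, add_right_comm y _ x]

theorem nd_sh (x y : St) (a : V) : nd (sh x a) y = nd a (y + x) := by
  simp only [nd, dd_sh]

theorem sh_gr {W : Type} [AddCommGroup W] (x : St) (u : St → W) :
    sh x (gr u) = gr fun y => u (y + x) := by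
  funext e; simp only [sh, gr, add_right_comm e.1 x]

theorem dd_gr {W : Type} [AddCommGroup W] (u : St → W) (x : St) (μ ν : Fin 3) :
    dd (gr u) x μ ν = 0 := by
  simp only [dd, gr, add_right_comm x (un ν) (un μ)]
  abel

theorem nd_nonneg (a : V) (x : St) : 0 ≤ nd a x :=
  sum_nonneg fun _ _ => sum_nonneg fun _ _ => sq_nonneg _

theorem sq_le_nd (a : V) (x : St) (μ ν : Fin 3) : dd a x μ ν ^ 2 ≤ nd a x :=
  (single_le_sum (f := fun ν => dd a x μ ν ^ 2) (fun _ _ => sq_nonneg _) (mem_univ ν)).trans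
    (single_le_sum (f := fun μ => ∑ ν, dd a x μ ν ^ 2)
      (fun _ _ => sum_nonneg fun _ _ => sq_nonneg _) (mem_univ μ))

theorem nd_eq_zero {a : V} {T : Finset St} (h : ∀ e : Lk, e.1 ∉ T → a e = 0) {x : St}
    (hx : x ∉ T + box 1) : nd a x = 0 := by
  have h0 : x ∉ T := fun hT => hx (mem_add.2 ⟨x, hT, 0, zero_mem_box 1, add_zero x⟩)
  have h1 : ∀ μ, x + un μ ∉ T := fun μ hT =>
    hx (mem_add.2 ⟨_, hT, -un μ, neg_mem_box (un_mem_box le_rfl μ), by simp⟩)
  simp [nd, dd, h (x, _) h0, h (_, _) (h1 _)]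

theorem sum_nd_le {a : V} {T : Finset St} (h : ∀ e : Lk, e.1 ∉ T → a e = 0) (S : Finset St) :
    ∑ x ∈ S, nd a x ≤ ∑ x ∈ T + box 1, nd a x := by
  classical
  rw [← sum_filter_add_sum_filter_not S (· ∈ T + box 1)]
  rw [sum_eq_zero (s := S.filter fun x => ¬ x ∈ T + box 1) fun x hx =>
    nd_eq_zero h (mem_filter.1 hx).2, add_zero]
  exact sum_le_sum_of_subset_of_nonneg (fun x hx => (mem_filter.1 hx).2) fun x _ _ => nd_nonneg a x

theorem m0_apply (a b : V) : m0 a b = 2⁻¹ * ∑ μ, ∑ ν, dd a 0 μ ν * dd b 0 μ ν := rfl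

theorem m0_sh (a : V) (x : St) : m0 (sh x a) (sh x a) = 2⁻¹ * nd a x := by
  simp only [m0_apply, dd_sh, zero_add, nd, sq]

theorem avgA_apply (l : ℕ) (a : V) (b : Lk) : avgA l a b =
    ((LL l : ℝ) ^ 3)⁻¹ * ∑ t ∈ box l, ∑ i ∈ range (LL l),
      a (up l b.1 + t + (i : ℤ) • un b.2, b.2) := by
  simp [avgA, LinearMap.sum_apply]

theorem avgA_zero (a : V) : avgA 0 a = a := by
  funext b
  have : box 0 = {0} := by
    ext x; simp [mem_box, funext_iff]
  simp [avgA_apply, this, LL, up]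

theorem LL_pos (l : ℕ) : 0 < LL l := by simp [LL]

theorem up_add (l : ℕ) (x y : St) : up l (x + y) = up l x + up l y := smul_add _ _ _

/-- Stokes formula for the averaged field -/
theorem dd_avgA (l : ℕ) (a : V) (y : St) (μ ν : Fin 3) : dd (avgA l a) y μ ν =
    ((LL l : ℝ) ^ 3)⁻¹ * ∑ t ∈ box l, ∑ i ∈ range (LL l), ∑ j ∈ range (LL l),
      dd a (up l y + t + (i : ℤ) • un μ + (j : ℤ) • un ν) μ ν := by
  simp only [dd, avgA_apply, ← mul_add, ← mul_sub, ← sum_add_distrib, ← sum_sub_distrib]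
  congr 1
  refine sum_congr rfl fun t _ => ?_
  have e1 : ∀ i ∈ range (LL l), ∑ j ∈ range (LL l),
      (a (up l y + t + (i : ℤ) • un μ + (j : ℤ) • un ν, μ) -
        a (up l y + t + (i : ℤ) • un μ + (j : ℤ) • un ν + un ν, μ)) =
      a (up l y + t + (i : ℤ) • un μ, μ) - a (up l (y + un ν) + t + (i : ℤ) • un μ, μ) := by
    intro i _
    have := sum_range_sub' (fun j : ℕ => a (up l y + t + (i : ℤ) • un μ + (j : ℤ) • un ν, μ)) (LL l)
    simp only [Nat.cast_add, Nat.cast_one, add_smul, one_smul, ← add_assoc, Nat.cast_zero,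
      zero_smul, add_zero] at this
    rw [this, up_add]
    congr 3
    simp only [up]; abel
  have e2 : ∀ j ∈ range (LL l), ∑ i ∈ range (LL l),
      (a (up l y + t + (i : ℤ) • un μ + (j : ℤ) • un ν + un μ, ν) -
        a (up l y + t + (i : ℤ) • un μ + (j : ℤ) • un ν, ν)) =
      a (up l (y + un μ) + t + (j : ℤ) • un ν, ν) - a (up l y + t + (j : ℤ) • un ν, ν) := by
    intro j _
    have := sum_range_sub (fun i : ℕ => a (up l y + t + (j : ℤ) • un ν + (i : ℤ) • un μ, ν)) (LL l)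
    simp only [Nat.cast_add, Nat.cast_one, add_smul, one_smul, ← add_assoc, Nat.cast_zero,
      zero_smul, add_zero] at this
    simp only [add_right_comm (up l y + t) (_ • un μ) ((j : ℤ) • un ν)]
    rw [this, up_add]
    congr 3
    simp only [up]; abel
  calc _ = ∑ i ∈ range (LL l), (a (up l y + t + (i : ℤ) • un μ, μ) -
          a (up l (y + un ν) + t + (i : ℤ) • un μ, μ)) +
        ∑ j ∈ range (LL l), (a (up l (y + un μ) + t + (j : ℤ) • un ν, ν) -
          a (up l y + t + (j : ℤ) • un ν, ν)) := by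
        rw [← sum_add_distrib]; exact sum_congr rfl fun i _ => by ring
    _ = _ := by
        rw [← sum_congr rfl e1, ← sum_congr rfl e2, sum_comm (s := range (LL l)) (t := range (LL l))
          (f := fun j i => a (up l y + t + (i : ℤ) • un μ + (j : ℤ) • un ν + un μ, ν) -
            a (up l y + t + (i : ℤ) • un μ + (j : ℤ) • un ν, ν)), ← sum_add_distrib]
        refine sum_congr rfl fun i _ => ?_
        rw [← sum_add_distrib]
        exact sum_congr rfl fun j _ => by ring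

theorem up_inj {l : ℕ} {y y' t t' : St} (ht : t ∈ box l) (ht' : t' ∈ box l)
    (h : up l y + t = up l y' + t') : y = y' ∧ t = t' := by
  have hy : y = y' := by
    funext i
    have h1 := congrFun h i
    have h2 := abs_le.1 (mem_box.1 ht i)
    have h3 := abs_le.1 (mem_box.1 ht' i)
    simp only [up, LL, Pi.add_apply, Pi.smul_apply, smul_eq_mul] at h1
    push_cast at h1
    rcases lt_trichotomy (y i) (y' i) with h4 | h4 | h4
    · nlinarith
    · exact h4
    · nlinarith
  subst hy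
  exact ⟨rfl, add_left_cancel h⟩

/-- sums over blocks are sums over the fine lattice -/
theorem sum_blocks_le {l : ℕ} {f : St → ℝ} (hf : ∀ x, 0 ≤ f x) (S U : Finset St) (v : St)
    (hU : ∀ y ∈ S, ∀ t ∈ box l, up l y + t + v ∈ U) :
    ∑ y ∈ S, ∑ t ∈ box l, f (up l y + t + v) ≤ ∑ x ∈ U, f x := by
  classical
  rw [← sum_product' (f := fun y t => f (up l y + t + v))]
  rw [← sum_image (s := S ×ˢ box l) (g := fun p : St × St => up l p.1 + p.2 + v) (f := f)]
  · refine sum_le_sum_of_subset_of_nonneg (fun x hx => ?_) fun x _ _ => hf x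
    obtain ⟨p, hp, rfl⟩ := mem_image.1 hx
    exact hU _ (mem_product.1 hp).1 _ (mem_product.1 hp).2
  · intro p hp q hq h
    have := up_inj (mem_product.1 hp).2 (mem_product.1 hq).2 (add_right_cancel h)
    exact Prod.ext this.1 this.2

theorem smul_un_mem {n : ℕ} {i : ℕ} (hi : i ≤ n) (μ : Fin 3) : (i : ℤ) • un μ ∈ box n := by
  refine mem_box.2 fun k => ?_
  have := abs_un μ k
  have h2 : (i : ℤ) ≤ n := by exact_mod_cast hi
  simp only [Pi.smul_apply, smul_eq_mul, abs_mul, Nat.abs_cast]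
  nlinarith [abs_nonneg (un μ k), Int.natCast_nonneg i]

theorem sq_dd_avgA (l : ℕ) (a : V) (y : St) (μ ν : Fin 3) :
    dd (avgA l a) y μ ν ^ 2 ≤ (LL l : ℝ)⁻¹ *
      ∑ p ∈ range (LL l) ×ˢ range (LL l), ∑ t ∈ box l,
        dd a (up l y + t + ((p.1 : ℤ) • un μ + (p.2 : ℤ) • un ν)) μ ν ^ 2 := by
  have hL : (0 : ℝ) < LL l := by exact_mod_cast LL_pos l
  have h1 := sq_sum_le_card_mul_sum_sq (s := box l ×ˢ (range (LL l) ×ˢ range (LL l)))
    (f := fun q => dd a (up l y + q.1 + ((q.2.1 : ℤ) • un μ + (q.2.2 : ℤ) • un ν)) μ ν)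
  have h2 : ∑ t ∈ box l, ∑ i ∈ range (LL l), ∑ j ∈ range (LL l),
      dd a (up l y + t + (i : ℤ) • un μ + (j : ℤ) • un ν) μ ν =
      ∑ q ∈ box l ×ˢ (range (LL l) ×ˢ range (LL l)),
        dd a (up l y + q.1 + ((q.2.1 : ℤ) • un μ + (q.2.2 : ℤ) • un ν)) μ ν := by
    simp only [sum_product, add_assoc]
  have h3 : ((box l ×ˢ (range (LL l) ×ˢ range (LL l))).card : ℝ) = (LL l : ℝ) ^ 5 := by
    rw [card_product, card_product, card_box, card_range]
    simp only [LL]; push_cast; ring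
  rw [dd_avgA, h2, sum_comm (s := range (LL l) ×ˢ range (LL l)), mul_pow]
  rw [h3, sum_product (f := fun q : St × ℕ × ℕ =>
    dd a (up l y + q.1 + ((q.2.1 : ℤ) • un μ + (q.2.2 : ℤ) • un ν)) μ ν ^ 2)] at h1
  calc _ ≤ ((LL l : ℝ) ^ 3)⁻¹ ^ 2 * ((LL l : ℝ) ^ 5 * _) := by gcongr
    _ = _ := by field_simp

/-- the averaging increases the energy at most by the factor `L` -/
theorem sum_nd_avgA_le (l : ℕ) (a : V) (S U : Finset St)
    (hU : ∀ y ∈ S, ∀ t ∈ box (l + (2 * l + 2 * l)), up l y + t ∈ U) :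
    ∑ y ∈ S, nd (avgA l a) y ≤ LL l * ∑ x ∈ U, nd a x := by
  have hL : (0 : ℝ) < LL l := by exact_mod_cast LL_pos l
  simp only [nd]
  rw [sum_comm, sum_comm (s := U), mul_sum]
  refine sum_le_sum fun μ _ => ?_
  rw [sum_comm, sum_comm (s := U), mul_sum]
  refine sum_le_sum fun ν _ => ?_
  refine (sum_le_sum fun y _ => sq_dd_avgA l a y μ ν).trans ?_
  rw [← mul_sum, sum_comm]
  have : ∀ p ∈ range (LL l) ×ˢ range (LL l), ∑ y ∈ S, ∑ t ∈ box l,
      dd a (up l y + t + ((p.1 : ℤ) • un μ + (p.2 : ℤ) • un ν)) μ ν ^ 2 ≤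
        ∑ x ∈ U, dd a x μ ν ^ 2 := by
    intro p hp
    have h1 : p.1 ≤ 2 * l := by have := mem_range.1 (mem_product.1 hp).1; simp only [LL] at this; omega
    have h2 : p.2 ≤ 2 * l := by have := mem_range.1 (mem_product.1 hp).2; simp only [LL] at this; omega
    refine sum_blocks_le (f := fun x => dd a x μ ν ^ 2) (fun _ => sq_nonneg _) S U _ fun y hy t ht => ?_
    rw [add_assoc]
    exact hU y hy _ (add_mem_box ht (add_mem_box (smul_un_mem h1 μ) (smul_un_mem h2 ν)))
  refine (mul_le_mul_of_nonneg_left (sum_le_card_nsmul _ _ _ this) (by positivity)).trans_eq ?_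
  rw [card_product, card_range, nsmul_eq_mul]
  push_cast
  field_simp

theorem sum_nd_avgA (l : ℕ) {a : V} {T : Finset St} (h : ∀ e : Lk, e.1 ∉ T → a e = 0)
    (S : Finset St) : ∑ y ∈ S, nd (avgA l a) y ≤ LL l * ∑ x ∈ T + box 1, nd a x := by
  classical
  refine (sum_nd_avgA_le l a S (S.image (up l) + box (l + (2 * l + 2 * l)))
    fun y hy t ht => add_mem_add (mem_image_of_mem _ hy) ht).trans
    (mul_le_mul_of_nonneg_left (sum_nd_le h _) (by positivity))

theorem cv_sqrt (r : ℕ) (a : V) : Cv r (√(∑ x ∈ box r, nd a x)) a := by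
  intro x hx μ ν
  rw [Real.norm_eq_abs]
  refine Real.abs_le_sqrt ((sq_le_nd a x μ ν).trans ?_)
  exact single_le_sum (f := nd a) (fun y _ => nd_nonneg a y) hx

theorem sum_shift (S : Finset St) (v : St) (f : St → ℝ) :
    ∑ x ∈ S, f (v + x) = ∑ x ∈ S.image (v + ·), f x := by
  classical
  rw [sum_image fun x _ y _ h => add_left_cancel h]

end Li

open Li

theorem inv_zero (r : ℕ) (hr : 1 ≤ r) : Inv 0 r 2 2⁻¹ m0 where
  symm a b := by simp only [m0_apply, mul_comm (dd a _ _ _)]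
  rng a b h := by
    have h0 : ∀ c : V, (∀ e ∈ lbox r, c e = 0) → ∀ μ ν, dd c 0 μ ν = 0 := fun c hc μ ν => by
      simp [dd, hc (0, _) (mem_lbox.2 (zero_mem_box r)),
        hc (un _, _) (mem_lbox.2 (un_mem_box hr _))]
    rcases h with h | h <;> simp [m0_apply, h0 _ h]
  gauge u b := by simp [m0_apply, dd_gr]
  psd a := by
    have := m0_sh a 0
    rw [sh_zero] at this
    rw [this]
    exact mul_nonneg (by norm_num) (nd_nonneg _ _)
  lower a S := by
    simp only [m0_sh, ← mul_sum]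
    rw [← mul_assoc, mul_inv_cancel₀ two_ne_zero, one_mul]
    exact sum_le_sum_of_subset_of_nonneg
      (fun x hx => mem_add.2 ⟨x, hx, 0, zero_mem_box 2, add_zero x⟩) fun x _ _ => nd_nonneg a x
  upper a S T h := by
    simp only [m0_sh, ← mul_sum, avgA_zero, LL, mul_zero, zero_add, Nat.cast_one, mul_one]
    exact mul_le_mul_of_nonneg_left (sum_nd_le h S) (by norm_num)

end Pool.Agent.Lib.MP_7f377f_mp.RG.D3
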