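import Pool.Agent.Lib.MP_7f377f_mp.R3LinG

namespace Pool.Agent.Lib.MP_7f377f_mp.Lin.D3

noncomputable section

open Finset hiding box
open Classical Function RG.D3 RG.D3.La
open scoped InnerProductSpace Pointwise

variable {l R n k : ℕ} {m : BF} {φ : (Fin 3 → ℝ) → ℝ} {δ M C cL cU : ℝ} {sol : F1 →ₗ[ℝ] F1}

lemma m_bd (hm : Inv n R cL cU m) (hU : cU ≤ 20) {a b : RG.D3.V} {δ δ' : ℝ} (ha : Sm R δ a)
    (hb : Sm R δ' b) : |m a b| ≤ 5120 * KK ^ 2 * (2 * R + 3) ^ 3 * δ * δ' := by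
  have k : ∀ {a : RG.D3.V} {δ : ℝ}, Sm R δ a → m a a ≤ 5120 * KK ^ 2 * (2 * R + 3) ^ 3 * δ ^ 2 :=
    fun {a δ} ha => by
      have h := inv_U1 hm hU (cut R a) {0} (box R) fun e he =>
        cut_of_not_mem a fun h => he (RG.D3.mem_lbox.1 h)
      rw [sum_singleton, RG.D3.sh_zero,
        m_cut hm.rng (fun e he => cut_of_mem a he) fun e he => cut_of_mem a he] at h
      have h1 : ∑ x ∈ box R + box 1, nd (cut R a) x ≤ (box (R + 1)).card • (16 * (4 * δ) ^ 2) :=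
        (sum_le_sum_of_subset_of_nonneg (fun x hx => by
          obtain ⟨a, ha, b, hb, rfl⟩ := mem_add.1 hx
          exact Li.add_mem_box ha hb) fun _ _ _ => Li.nd_nonneg _ _).trans
          (sum_le_card_nsmul _ _ _ fun x hx => nd_le_of_cv (Sm.cv fun e _ => ha.cut e) hx)
      rw [Li.card_box, nsmul_eq_mul] at h1
      refine h.trans ((mul_le_mul_of_nonneg_left h1 (by positivity)).trans_eq ?_)
      push_cast; ring
  have h0 := ha.nonneg
  have h1 := hb.nonneg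
  refine abs_le_of_sq_le_sq ((cs_one m hm.symm hm.psd a b).trans ((mul_le_mul (k ha) (k hb)
    (hm.psd _) (by positivity)).trans_eq (by ring))) (by positivity)

structure Ctx (l R n : ℕ) (cL cU : ℝ) (m : BF) (sol : F1 →ₗ[ℝ] F1) : Prop where
  hm : Inv n R cL cU m
  hc : cL ≤ 20
  hU : cU ≤ 20
  hR : R ≤ l
  hl : 1 ≤ l
  we : ∀ B, WE l R m (sol B) B
  gd : ∀ B, d0 (gl l (sol B)) = 0

def sg (l : ℕ) (sol : F1 →ₗ[ℝ] F1) : F1 →ₗ[ℝ] RG.D3.V where
  toFun B := TG l (toV (sol B)) - iz l (toV B)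
  map_add' A B := by simp only [map_add, toV_add, TG_add]; abel
  map_smul' c A := by simp only [map_smul, toV_smul, TG_smul, smul_sub, RingHom.id_apply]

def PP (k : ℕ) : RG.D3.V →ₗ[ℝ] F1 where
  toFun B := ofV (box k) (cg B)
  map_add' A B := by funext μ; simp [ofV, cg_add, add_smul, sum_add_distrib]
  map_smul' c A := by
    funext μ
    simp only [ofV, cg_apply, lam_smul, Pi.smul_apply, smul_eq_mul, RingHom.id_apply, smul_sum,
      smul_smul, mul_add, mul_sub]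

lemma sg_ap (B : F1) : sg l sol B = TG l (toV (sol B)) - iz l (toV B) := rfl
lemma PP_ap (B : RG.D3.V) (e : Lk) : toV (PP k B) e = if e.1 ∈ box k then cg B e else 0 :=
  toV_ofV _ _ _

lemma Ctx.sg_sh (h : Ctx l R n cL cU m sol) (y : St) (B : F1) :
    sg l sol (fun ρ => sh y (B ρ)) = RG.D3.sh (up l y) (sg l sol B) := by
  rw [sg_ap, sg_ap, WE.uniq h.hm h.hc h.hU h.hR h.hl (h.we _) ((h.we B).shift y), toV_sh, toV_sh,
    TG_sh, iz_sh, sh_sub]

lemma Ctx.sg_d0 (h : Ctx l R n cL cU m sol) (u : E 3) : sg l sol (d0 u) = 0 := by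
  have e : QT l ∅ (IT l ∅ u) = u := congrArg (fun T : Op 3 => T u) (QT_IT ∅)
  have := WE_d0 (l := l) h.hm (IT l ∅ u)
  rw [e] at this
  rw [sg_ap, WE.uniq h.hm h.hc h.hU h.hR h.hl (h.we _) this, toV_d0, toV_d0, TG_gr, iz_gr]
  simp only [avg0_QT, e, sub_self]

lemma s1_le (hφ : Adm δ φ) {X : F1} {K : ℝ} (h0 : ∀ e : Lk, e.1 ∉ box k → toV X e = 0)
    (h : ∀ e : Lk, e.1 ∈ box k → Real.exp (2 * φ (sc 1 e.1)) * toV X e ^ 2 ≤ K) :
    s1 φ 1 X ≤ 4 * ((2 * k + 1) ^ 4 * K) := by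
  have K0 : 0 ≤ K := le_trans (by positivity) (h (0, 0) (zero_mem_box k))
  refine (sum_le_card_nsmul _ _ ((box k).card * K) fun ρ _ => ?_).trans ?_
  · rw [(hasSum_nrm hφ (X ρ)).unique (hasSum_sum_of_ne_finset_zero (s := box k) fun x hx => by
      rw [show X ρ x = 0 from h0 (x, ρ) hx]; simp), ← nsmul_eq_mul]
    exact sum_le_card_nsmul _ _ _ fun x hx => h (x, ρ) hx
  · rw [Li.card_box, card_univ, Fintype.card_fin, nsmul_eq_mul]
    push_cast
    gcongr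
    exacts [by norm_num, by linarith [(k.cast_nonneg : (0 : ℝ) ≤ k)], by norm_num]

lemma s1_cq (X : F1) : s1 φ M (cq l • X) = s1 φ M X / LL l := by
  rw [s1_smul, cq_sq, inv_mul_eq_div]

lemma Ctx.pt (h : Ctx l R n cL cU m sol) (hφ : Adm de φ) {X : F1} {η : ℝ} (hη : 0 ≤ η)
    (hX : s1 φ 1 X ≤ η ^ 2) {e : Lk} (he : 1 ≤ 81 * Real.exp (2 * φ (sc (LL l) e.1))) :
    |toV (sol X) e| ≤ 21 * GG ^ 2 * LL l * η := by
  have hL := LL_posR l
  have hG := GG_ge.1
  have h1 := (div_le_iff₀ (by positivity)).1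
    ((agmon h.hm h.hc h.hU h.hR h.hl (h.we X) rfl (h.gd X) hφ).2.1.trans (mul_le_mul_of_nonneg_left
    ((s1_cq X).trans_le (div_le_self (s1_nonneg X) (NN_one l))) (by positivity)))
  have h2 := (le_hasSum (hasSum_nrm (M := LL l) hφ (sol X e.2)) e.1 fun _ _ => by positivity).trans
    ((single_le_sum (f := fun ρ => nrm φ (LL l) (sol X ρ) ^ 2) (fun _ _ => sq_nonneg _)
    (mem_univ _)).trans h1)
  refine abs_le_of_sq_le_sq ?_ (by positivity)
  have h3 : 5 * GG ^ 3 * s1 φ 1 X * LL l ^ 2 ≤ 5 * GG ^ 4 * η ^ 2 * LL l ^ 2 := by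
    have := s1_nonneg (φ := φ) (M := 1) X
    gcongr; norm_num
  have : 0 ≤ GG ^ 4 * η ^ 2 * LL l ^ 2 := by positivity
  change sol X e.2 e.1 ^ 2 ≤ _
  nlinarith [mul_le_mul_of_nonneg_right he (sq_nonneg (sol X e.2 e.1))]

def rad (K : ℝ) (x : Fin 3 → ℝ) : ℝ := -de * min ‖x‖ K

lemma adm_rad {K : ℝ} (hK : 0 ≤ K) : Adm de (rad K) := by
  refine ⟨de_pos.le, fun x y => ?_, de * K, fun x => ?_⟩
  · rw [rad, rad, ← mul_sub, abs_mul, abs_neg, abs_of_pos de_pos]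
    exact mul_le_mul_of_nonneg_left ((abs_min_sub_min_le_max _ _ _ _).trans
      (max_le (abs_norm_sub_norm_le _ _) (by simp))) de_pos.le
  · rw [rad, abs_mul, abs_neg, abs_of_pos de_pos, abs_of_nonneg (le_min (norm_nonneg _) hK)]
    exact mul_le_mul_of_nonneg_left (min_le_right _ _) de_pos.le

lemma rad_zero {K : ℝ} (hK : 0 ≤ K) : Real.exp (2 * rad K (sc 1 0)) = 1 := by
  rw [show sc 1 (0 : St) = 0 from funext fun _ => by simp [sc], rad, norm_zero, min_eq_left hK]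
  simp

lemma mem_box_sc {x : St} : x ∈ box k ↔ ‖sc 1 x‖ ≤ k := by
  rw [Li.mem_box, pi_norm_le_iff_of_nonneg (Nat.cast_nonneg _)]
  exact forall_congr' fun i => by simp only [sc, div_one, Real.norm_eq_abs]; norm_cast

lemma de_one : de ≤ 1 := de_le.trans (by norm_num)

lemma Ctx.err (h : Ctx l R n cL cU m sol) {k' : ℕ} {B : RG.D3.V} {K : ℝ} (hB : Sm k' K B)
    (hk : k + 4 ≤ k') {y : St} (hy : y ∈ box 3) : Sm l (168 * GG ^ 2 * LL l ^ 2 *
      (2 * (2 * k' + 7) ^ 2 * Real.exp (-de * k) * ((8 * k + 9) * K)))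
      (sg l sol (PP k (RG.D3.sh y B)) - RG.D3.sh (up l y) (sg l sol (ofV (box k') B))) := fun f hf => by
  obtain ⟨w, hw⟩ : ∃ w : E 3, ∀ x, w x = if x ∈ box (k + 1) then lam (RG.D3.sh y B) x else 0 :=
    ⟨ofV (box (k + 1)) (fun e => lam (RG.D3.sh y B) e.1) 0, fun x => toV_ofV _ _ (x, 0)⟩
  obtain ⟨X, hX⟩ : ∃ X : F1, X = PP k (RG.D3.sh y B) - (fun ρ => sh y (ofV (box k') B ρ)) + d0 w :=
    ⟨_, rfl⟩
  have K0 := hB.nonneg
  have hG := GG_ge.1
  have hL := LL_posR l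
  have eX : ∀ e, toV X e = (if e.1 ∈ box k then cg (RG.D3.sh y B) e else 0) -
      (if e.1 + y ∈ box k' then B (e.1 + y, e.2) else 0) + (w (e.1 + un e.2) - w e.1) := fun e => by
    rw [hX, toV_add, toV_sub, toV_sh, toV_d0, Pi.add_apply, Pi.sub_apply, PP_ap, RG.D3.sh_apply,
      toV_ofV, gr]
  have x0 : ∀ e : Lk, e.1 ∈ box k → toV X e = 0 := fun e he => by
    rw [eX, hw, hw, if_pos he, if_pos (RG.D3.box_mono (by omega) (RG.D3.add_mem_box he hy)),
      if_pos (add_un_mem_box he _), if_pos (RG.D3.box_mono k.le_succ he), cg_apply, RG.D3.sh_apply]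
    ring
  have w1 : ∀ x, |w x| ≤ 4 * (k + 1) * K := fun x => by
    rw [hw]
    split_ifs with hx
    · have := abs_lam_le hx fun e he => (hB.mono (R' := k + 1 + 3) hk le_rfl).sh hy e he
      rw [Nat.cast_succ] at this
      exact this.trans (by gcongr; norm_num)
    · rw [abs_zero]; positivity
  have hs : s1 (rad k) 1 X ≤ (2 * (2 * k' + 7) ^ 2 * Real.exp (-de * k) * ((8 * k + 9) * K)) ^ 2 := by
    refine (s1_le (k := k' + 3) (K := Real.exp (-de * k) ^ 2 * ((8 * k + 9) * K) ^ 2)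
      (adm_rad k.cast_nonneg) (fun e he => ?_) fun e _ => ?_).trans_eq
      (by push_cast; ring)
    · have n1 : ∀ {j i : ℕ} {v : St}, j + i ≤ k' + 3 → v ∈ box i → e.1 + v ∉ box j :=
        fun hj hv h => he (RG.D3.box_mono hj (add_sub_cancel_right e.1 _ ▸ sub_mem_box h hv))
      have n2 : ∀ {j : ℕ}, j ≤ k' → e.1 ∉ box j := fun hj h => he (RG.D3.box_mono (by omega) h)
      rw [eX, hw, hw, if_neg (n2 (by omega)), if_neg (n1 le_rfl hy),
        if_neg (n1 (by omega) (un_mem_box _)), if_neg (n2 (by omega))]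
      simp
    · by_cases he : e.1 ∈ box k
      · rw [x0 e he, sq, mul_zero, mul_zero]; positivity
      rw [rad, min_eq_right (not_le.1 (mem_box_sc.not.1 he)).le, ← Real.exp_nat_mul]
      refine mul_le_mul_of_nonneg_left (sq_le_sq' ?_ ?_) (Real.exp_pos _).le <;>
      · have h1 : |if e.1 + y ∈ box k' then B (e.1 + y, e.2) else 0| ≤ K := by
          split_ifs with h
          exacts [hB _ (RG.D3.mem_lbox.2 h), by simpa]
        rw [eX, if_neg he]
        linarith [abs_le.1 h1, abs_le.1 (w1 (e.1 + un e.2)), abs_le.1 (w1 e.1)]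
  have e1 : sg l sol (PP k (RG.D3.sh y B)) - RG.D3.sh (up l y) (sg l sol (ofV (box k') B)) =
      sg l sol X := by rw [hX, map_add, map_sub, h.sg_d0, add_zero, h.sg_sh]
  have h2 := TG_sm (l := l) (fun e he => h.pt (adm_rad k.cast_nonneg) (by positivity) hs (by
    simpa [rad_zero] using (near_le ((adm_rad k.cast_nonneg).mono de_one) 0
      (RG.D3.mem_lbox.1 he)).1)) f hf
  rw [e1, sg_ap, Pi.sub_apply, iz_apply, yo_of_mem (RG.D3.mem_lbox.1 hf), x0 (0, f.2) (zero_mem_box k),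
    ite_self, sub_zero]
  refine h2.trans ?_
  rw [← mul_assoc]
  refine mul_le_mul_of_nonneg_right ?_ (by positivity)
  have : (16 * l + 1 : ℝ) ≤ 8 * LL l := by simp only [LL]; push_cast; linarith
  nlinarith [mul_le_mul_of_nonneg_right this (by positivity : 0 ≤ GG ^ 2 * LL l)]

lemma ker_gr (u : St → ℝ) : (sg l sol ∘ₗ PP k) (gr u) = 0 := by
  have : PP k (gr u) = 0 := by
    have := cg_gr 0 u
    rw [zero_add] at this
    exact (congrArg (ofV (box k)) this).trans (map_zero (PP k))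
  rw [LinearMap.comp_apply, this, map_zero]

lemma Ctx.dec (h : Ctx l R n cL cU m sol) {k' : ℕ} {B : RG.D3.V} {K : ℝ} (hB : Sm k' K (cg B))
    (hk : k + 4 ≤ k') : ∃ g e, RG.D3.mu l (sg l sol ∘ₗ PP k) B = toV (sol (PP k' B)) + gr g + e ∧
      avgA l (gr g) = B - cg B ∧ Sm (3 * LL l + l) (168 * GG ^ 2 * LL l ^ 2 *
      (2 * (2 * k' + 7) ^ 2 * Real.exp (-de * k) * ((8 * k + 9) * K))) e := by
  have e1 : RG.D3.mu l (sg l sol ∘ₗ PP k) (gr (lam B)) = gr fun x => lam B (yo l x) := funext fun f => by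
    rw [La.mu_apply, Li.sh_gr, ker_gr, iz_gr]; simp
  refine ⟨fun x => lam B (yo l x) - (tgu l (toV (sol (PP k' B))) x -
    avg0 l (tgu l (toV (sol (PP k' B)))) (yo l x)),
    RG.D3.mu l (sg l sol ∘ₗ PP k) (cg B) - TG l (toV (sol (PP k' B))), ?_, ?_, fun f hf => ?_⟩
  · rw [gr_sub, ← e1, TG, cg, map_sub]; abel
  · have := avgA_TG l (toV (sol (PP k' B)))
    rw [TG, map_sub, sub_eq_self] at this
    rw [gr_sub, map_sub, this, sub_zero, cg, sub_sub_cancel, avgA_gr]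
    congr 1
    funext y
    have := avg0_sub_yo l (fun x => lam B (yo l x)) (lam B) y
    simp only [sub_self, avg0, sum_const_zero, mul_zero] at this ⊢
    linarith
  · have hy := yo_mem_box (RG.D3.mem_lbox.1 hf)
    have := h.err hB hk hy (f.1 - up l (yo l f.1), f.2) (RG.D3.mem_lbox.2 (sub_up_mem l f.1))
    refine le_of_eq_of_le (congrArg _ ?_) this
    rw [Pi.sub_apply, Pi.sub_apply, La.mu_apply, RG.D3.sh_apply, sub_add_cancel, sg_ap (ofV _ _),
      Pi.sub_apply, iz_apply, iz_apply, toV_ofV, if_pos (RG.D3.box_mono (by omega) hy)]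
    change _ + _ - TG l (toV (sol (ofV _ _))) f = _
    simp only [LinearMap.comp_apply]
    ring

lemma Ctx.stat (h : Ctx l R n cL cU m sol) {s : RG.D3.V →ₗ[ℝ] RG.D3.V} {B e : RG.D3.V} {g : St → ℝ}
    {X : F1} {ε : ℝ} (hd : RG.D3.mu l s B = toV (sol X) + gr g + e)
    (hB : ∀ b : Lk, b.1 ∈ box 2 → B b - avgA l (gr g) b = toV X b) (he : Sm (3 * LL l + l) ε e)
    {f : Lk} (hf : f ∈ lbox l) : |∑ y ∈ box 2, xx l m s (RG.D3.sh (up l y) (Pi.single f 1))
      (RG.D3.sh y B)| ≤ 625 * (LL l ^ 4 * (5120 * KK ^ 2 * (2 * R + 3) ^ 3 + 4) * ε) := by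
  have hL := LL_posR l
  have hR := h.hR
  have hf1 := RG.D3.mem_lbox.1 hf
  obtain ⟨a, ha⟩ : ∃ a : RG.D3.V, a = Pi.single f 1 := ⟨_, rfl⟩
  have a0 : ∀ b : Lk, b.1 ≠ f.1 → a b = 0 := fun b hb => by
    rw [ha, Pi.single_eq_of_ne (by rintro rfl; exact hb rfl)]
  have a1 : ∀ b, |a b| ≤ 1 := fun b => by rw [ha, Pi.single_apply]; split_ifs <;> simp
  have ea : toV (ofV {f.1} a) = a := funext fun b => by
    rw [toV_ofV]; split_ifs with hb
    exacts [rfl, (a0 b (by simpa using hb)).symm]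
  have h1 := h.we X (ofV {f.1} a)
  have h2 := (hasSum_MM h.hm.rng (sol X) (ofV {f.1} a)).unique (hasSum_sum_of_ne_finset_zero
    (s := Blk l (box 2)) fun x hx => h.hm.rng _ _ (Or.inr fun b hb => by
      rw [ea]
      refine a0 _ fun hb' => hx ?_
      rw [Blk_box, show x = f.1 - b.1 by rw [← hb']; simp]
      exact RG.D3.box_mono (by simp only [LL]; omega) (sub_mem_box hf1 (RG.D3.mem_lbox.1 hb))))
  have qa : ∀ ρ y, QQ l (ofV {f.1} a) ρ y = avgA l a (y, ρ) := fun ρ y => by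
    nth_rewrite 2 [← ea]
    rw [avgA_QT]; rfl
  have h3 : ∀ ρ, ⟪(X - QQ l (sol X)) ρ, QQ l (ofV {f.1} a) ρ⟫_ℝ = ∑ y ∈ box 2,
      (toV X (y, ρ) - avgA l (toV (sol X)) (y, ρ)) * avgA l a (y, ρ) := fun ρ => by
    rw [(hsi _ _).unique (hasSum_sum_of_ne_finset_zero (s := box 2) fun y hy => ?_), avgA_QT]
    · exact sum_congr rfl fun y _ => by rw [qa]; rfl
    have := avgA_bd (l := l) (a := a) (δ := 0) (b := (y, ρ)) fun t ht => by
      rw [a0, abs_zero]
      refine fun hb => hy (yo_up l y ▸ yo_mem_box ?_)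
      rw [show up l y = f.1 - t by rw [← hb]; simp]
      exact RG.D3.box_mono (by simp only [LL]; omega) (sub_mem_box hf1 ht)
    rw [qa, abs_nonpos_iff.1 (this.trans_eq (mul_zero _)), mul_zero]
  rw [h2, sum_Blk, ea] at h1
  simp only [h3] at h1
  have e1 : ∑ y ∈ box 2, xx l m s (RG.D3.sh (up l y) a) (RG.D3.sh y B) = ∑ y ∈ box 2,
      (∑ x ∈ box l, m (RG.D3.sh (x + up l y) a) (RG.D3.sh (x + up l y) e) +
        (LL l : ℝ) ^ 2 * ∑ μ, avgA l a (y, μ) * avgA l e (y, μ)) := by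
    rw [sum_comm (s := univ), mul_sum, ← sub_eq_zero, ← sum_sub_distrib] at h1
    rw [← add_zero (∑ y ∈ box 2, (_ + _)), ← h1, ← sum_add_distrib]
    refine sum_congr rfl fun y hy => ?_
    have : ∀ z b, m b (RG.D3.sh z (gr g)) = 0 := fun z b => by rw [Li.sh_gr, h.hm.symm, h.hm.gauge]
    change enB l m (_, 0) (RG.D3.mu l s _, _) = _
    simp only [LinearMap.id_apply, enB_apply, mu_sh, hd, Li.sh_sh, avgA_sh, sh_add, map_add, this,
      RG.D3.sh_apply, zero_add, Pi.add_apply, Pi.zero_apply, add_zero, sum_add_distrib,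
      h.hm.symm (RG.D3.sh _ (toV _)), ← fun μ => hB (y, μ) hy, Fin.sum_univ_three]
    ring
  have hy' : ∀ y ∈ box 2, ∀ {j : ℕ}, j ≤ 3 * l → ∀ t ∈ box j, ∀ ν,
      |e (up l y + t, ν)| ≤ ε := fun y hy j hj t ht ν => he _ (RG.D3.mem_lbox.2 (RG.D3.box_mono
    (by simp only [LL]; omega) (RG.D3.add_mem_box (up_mem_box hy) ht)))
  rw [← ha, e1]
  have e0 := he.nonneg
  refine (abs_sum_le_sum_abs _ _).trans ((sum_le_card_nsmul _ _
    (LL l ^ 4 * (5120 * KK ^ 2 * (2 * R + 3) ^ 3 + 4) * ε) fun y hy => ?_).trans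
    (by rw [Li.card_box, nsmul_eq_mul]; gcongr; norm_num))
  refine (abs_add_le _ _).trans ((add_le_add ((abs_sum_le_sum_abs _ _).trans (sum_le_card_nsmul _ _
    (5120 * KK ^ 2 * (2 * R + 3) ^ 3 * 1 * ε) fun x hx => m_bd h.hm h.hU (fun b _ => a1 _)
    fun b hb => ?_)) (?_ : _ ≤ (LL l : ℝ) ^ 2 * (3 * (LL l * 1 * (LL l * ε))))).trans ?_)
  · rw [RG.D3.sh_apply, ← add_assoc, add_comm]
    exact hy' y hy (by omega) _ (RG.D3.add_mem_box (RG.D3.mem_lbox.1 hb) hx) _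
  · rw [abs_mul, abs_of_pos (by positivity)]
    refine mul_le_mul_of_nonneg_left ((abs_sum_le_sum_abs _ _).trans ((sum_le_card_nsmul _ _ _
      fun μ _ => (abs_mul _ _).trans_le (mul_le_mul (avgA_bd fun t _ => a1 _) (avgA_bd fun t ht =>
      hy' y hy le_rfl t ht μ) (abs_nonneg _) (by positivity))).trans_eq (by simp))) (by positivity)
  · rw [nsmul_eq_mul, card_box_LL]
    have : (LL l : ℝ) ^ 3 ≤ LL l ^ 4 := pow_le_pow_right₀ (NN_one l) (by norm_num)
    nlinarith [mul_le_mul_of_nonneg_right this (by positivity : 0 ≤ KK ^ 2 * (2 * R + 3) ^ 3 * ε),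
      (by positivity : 0 ≤ (LL l : ℝ) ^ 4 * ε)]

lemma sob (g : ℕ → ℝ) {N : ℕ} (hN : 0 < N) : g 0 ^ 2 ≤ 2 / N * ∑ s ∈ range N, g s ^ 2 +
    2 * N * ∑ s ∈ range N, (g (s + 1) - g s) ^ 2 := by
  have h : ∀ s ∈ range N, g 0 ^ 2 ≤ 2 * g s ^ 2 + 2 * (N * ∑ s ∈ range N, (g (s + 1) - g s) ^ 2) :=
    fun s hs => by
      have h1 := (mem_range.1 hs).le
      have h2 := sq_sum_le_card_mul_sum_sq (s := range s) (f := fun i => g (i + 1) - g i)
      rw [sum_range_sub, card_range] at h2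
      have h3 := h2.trans (mul_le_mul (Nat.cast_le.2 h1) (sum_le_sum_of_subset_of_nonneg
        (range_subset_range.2 h1) fun _ _ _ => sq_nonneg _) (by positivity) N.cast_nonneg)
      nlinarith [sq_nonneg (2 * g s - g 0)]
  have h4 := sum_le_sum h
  rw [sum_const, sum_add_distrib, sum_const, card_range, nsmul_eq_mul, nsmul_eq_mul, ← mul_sum] at h4
  have h0 : (0 : ℝ) < N := by positivity
  refine le_of_mul_le_mul_left (h4.trans_eq ?_) h0
  field_simp

lemma wloc {K : ℝ} (hK : 0 ≤ K) (A : F1) :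
    ∑ x ∈ box (3 * l + 1), nd (toV A) x ≤ 6561 * s2 (rad K) (LL l) A := by
  simpa [rad_zero hK] using wsum ((adm_rad hK).mono de_one) (Li.nd_nonneg _)
    (hasSum_s2 (M := LL l) (adm_rad hK) A) {0}

lemma point_le {K : ℝ} (hK : 0 ≤ K) (A : F1) {N : ℕ} (hN : 0 < N) (hl : N ≤ LL l) {x : St}
    (hx : x ∈ box l) (μ ν : Fin 3) : dd (toV A) x μ ν ^ 2 ≤ 2 / N * (6561 * s2 (rad K) (LL l) A) +
      2 * N * (6561 * s2 (rad K) (LL l) fun ρ => Dm 0 (A ρ)) := by
  have k : ∀ A : F1, ∑ s ∈ range N, dd (toV A) (x + (s : ℤ) • un 0) μ ν ^ 2 ≤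
      6561 * s2 (rad K) (LL l) A := fun A => by
    refine (sum_le_sum fun s _ => Li.sq_le_nd _ _ _ _).trans (le_trans ?_ (wloc hK A))
    rw [← sum_image (f := nd (toV A)) (g := fun s : ℕ => x + (s : ℤ) • un 0) fun s _ t _ h => by
      simpa using congrFun h 0]
    refine sum_le_sum_of_subset_of_nonneg (fun z hz => ?_) fun _ _ _ => Li.nd_nonneg _ _
    obtain ⟨s, hs, rfl⟩ := mem_image.1 hz
    exact RG.D3.box_mono (by simp only [LL]; omega)
      (RG.D3.add_mem_box hx (Li.smul_un_mem ((mem_range.1 hs).le.trans hl) 0))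
  have h := sob (fun s => dd (toV A) (x + (s : ℤ) • un 0) μ ν) hN
  simp only [Nat.cast_zero, zero_smul, add_zero] at h
  refine h.trans (add_le_add (mul_le_mul_of_nonneg_left (k A) (by positivity))
    (mul_le_mul_of_nonneg_left (le_of_eq_of_le (sum_congr rfl fun s _ => ?_) (k _)) (by positivity)))
  simp only [dd, toV, Dm_ap, Nat.cast_succ, add_smul, one_smul, ← add_assoc, un,
    add_right_comm _ (Pi.single 0 1 : St)]
  ring

lemma s1_rad {B : RG.D3.V} (hB : Cv k δ B) :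
    s1 (rad k) 1 (PP k B) ≤ 4 * ((2 * k + 1) ^ 4 * (3 * δ / de) ^ 2) := by
  have d0 := de_pos
  have h0 := hB.nonneg
  refine s1_le (adm_rad k.cast_nonneg) (fun e he => by rw [PP_ap, if_neg he]) fun e he => ?_
  have h1 := mem_box_sc.1 he
  have h2 := Sm_cg (hB.mono (Nat.ceil_le.2 h1) le_rfl) e
    (RG.D3.mem_lbox.2 (mem_box_sc.2 (Nat.le_ceil _)))
  have h3 := Nat.ceil_lt_add_one (norm_nonneg (sc 1 e.1))
  rw [PP_ap, if_pos he, rad, min_eq_left h1, two_mul, Real.exp_add, ← sq, ← mul_pow]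
  refine sq_le_sq' (neg_le_of_abs_le ?_) (le_of_abs_le ?_) <;>
  · rw [abs_mul, abs_of_pos (Real.exp_pos _), neg_mul, Real.exp_neg, inv_mul_le_iff₀
      (Real.exp_pos _), ← mul_div_assoc, le_div_iff₀ d0]
    have h4 := Real.add_one_le_exp (de * ‖sc 1 e.1‖)
    have h5 : (⌈‖sc 1 e.1‖⌉₊ : ℝ) * de ≤ Real.exp (de * ‖sc 1 e.1‖) := by nlinarith [de_one]
    nlinarith [mul_le_mul_of_nonneg_right h2 d0.le, mul_le_mul_of_nonneg_right h5 h0,
      Real.norm_eq_abs (cg B e)]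

end

end Pool.Agent.Lib.MP_7f377f_mp.Lin.D3
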