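import Pool.Agent.Lib.MP_7f377f_mp.LinBlk
import Pool.Agent.Lib.MP_7f377f_mp.R3LinB

namespace Pool.Agent.Lib.MP_7f377f_mp.Lin.D3

noncomputable section

open Finset hiding box
open Classical Function RG.D3 RG.D3.La
open scoped InnerProductSpace Pointwise

abbrev F1 := Fin 3 → E 3

def toV (A : F1) : RG.D3.V := fun e => A e.2 e.1
def ofV (T : Finset St) (a : RG.D3.V) : F1 := fun μ => ∑ x ∈ T, a (x, μ) • dl x
def ww (φ : (Fin 3 → ℝ) → ℝ) (M : ℝ) (A : F1) : F1 := fun ρ => wt φ M (wt φ M (A ρ))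
def s1 (φ : (Fin 3 → ℝ) → ℝ) (M : ℝ) (A : F1) : ℝ := ∑ ρ, nrm φ M (A ρ) ^ 2
def s2 (φ : (Fin 3 → ℝ) → ℝ) (M : ℝ) (A : F1) : ℝ := ∑ μ, ∑ ν, nrm φ M (d1 A μ ν) ^ 2
def MM (R : ℕ) (m : BF) (A B : F1) : ℝ := ∑ e ∈ lbox R, ∑ e' ∈ lbox R,
  m (Pi.single e 1) (Pi.single e' 1) * ⟪sh e.1 (A e.2), sh e'.1 (B e'.2)⟫_ℝ
def en (m : BF) (a : RG.D3.V) (x : St) : ℝ := m (RG.D3.sh x a) (RG.D3.sh x a)
def EW (m : BF) (φ : (Fin 3 → ℝ) → ℝ) (M : ℝ) (A : F1) : ℝ :=
  ∑' x, Real.exp (2 * φ (sc M x)) * en m (toV A) x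
def qq (a : RG.D3.V) (x : St) : ℝ := ∑ μ, ∑ ν, a (x + un μ, ν) ^ 2

variable {l R n : ℕ} {m : BF} {φ : (Fin 3 → ℝ) → ℝ} {δ M C cL cU : ℝ}

lemma toV_ofV (T : Finset St) (a : RG.D3.V) (e : Lk) :
    toV (ofV T a) e = if e.1 ∈ T then a e else 0 := by
  simp only [toV, ofV, sum_ap, smul_ap, dl_ap, mul_ite, mul_one, mul_zero, sum_ite_eq]

lemma toV_add (A B : F1) : toV (A + B) = toV A + toV B := rfl
lemma toV_sub (A B : F1) : toV (A - B) = toV A - toV B := rfl
lemma toV_smul (c : ℝ) (A : F1) : toV (c • A) = c • toV A := rfl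
lemma toV_sh (x : St) (A : F1) : toV (fun ρ => sh x (A ρ)) = RG.D3.sh x (toV A) := by
  funext e; simp [toV, RG.D3.sh]
lemma toV_d0 (g : E 3) : toV (d0 g) = gr g := by funext e; simp [toV, d0, Dm_ap, gr, un]
lemma dd_toV (A : F1) (x : St) (μ ν : Fin 3) : dd (toV A) x μ ν = d1 A μ ν x := by
  simp only [dd, toV, d1, sub_ap, Dm_ap, un]; ring

lemma ev_Sc (l : ℕ) (f : E 3) (x : St) :
    ev (∏ μ, emb μ (Sc l)) f x = ((LL l : ℝ) ^ 3)⁻¹ * ∑ t ∈ box l, f (x + t) := by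
  have e : Sc l = (LL l : ℝ)⁻¹ • ∑ s ∈ Icc (-(l : ℤ)) l, t s := by
    rw [Sc, S, Lin.R, mul_smul_comm, mul_sum, Int.Icc_eq_finset_map, sum_map]
    congr 1
    refine sum_congr (by congr 1; unfold NN; omega) fun s _ => by simp [t_add]
  have e2 : ∀ p : St, ∏ μ, (t (Pi.single μ (p μ)) : Al 3) = t p := fun p => by
    simp only [Fin.prod_univ_three, ← t_add]
    rw [← Fin.sum_univ_three (fun μ => (Pi.single μ (p μ) : St)), univ_sum_single]
  simp only [e, map_smul, map_sum, emb_t, prod_smul, prod_const, card_univ, Fintype.card_fin,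
    prod_univ_sum, e2, ev_t, smul_apply, _root_.sum_apply, smul_ap, sum_ap, sh_apply, box, inv_pow]

lemma avg0_QT (l : ℕ) (g : E 3) (y : St) : avg0 l g y = QT l ∅ g y := by
  simp only [QT, bb, notMem_empty, if_false, card_empty, pow_zero, one_smul, mul_apply_eq_comp,
    Vs_ap (NN_pos l), ev_Sc]
  rfl

lemma avgA_QT (l : ℕ) (A : F1) : avgA l (toV A) = toV fun ρ => QT l {ρ} (A ρ) := by
  funext b
  have h : (NN l : ℝ) ≠ 0 := by have := NN_pos l; positivity
  rw [toV, QT, ← insert_empty_eq, prod_bb (notMem_empty _), Li.avgA_apply, map_mul]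
  simp only [bb, notMem_empty, if_false, insert_empty_eq, card_singleton, pow_one, smul_apply,
    smul_ap, mul_apply_eq_comp, Vs_ap (NN_pos l), ev_Sc, S, Lin.R, map_smul, map_sum, emb_t, ev_t,
    _root_.sum_apply, sum_ap, sh_apply, toV, ← mul_sum]
  rw [← mul_assoc, mul_inv_cancel₀ h, one_mul]
  rw [sum_comm]
  simp only [mul_sum]
  refine sum_congr rfl fun i _ => sum_congr rfl fun t _ => ?_
  simp only [un, ← Pi.single_smul, smul_eq_mul, mul_one]
  rfl

lemma m_cut (h : Rng R R m) {a a' b b' : RG.D3.V} (ha : ∀ e ∈ lbox R, a e = a' e)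
    (hb : ∀ e ∈ lbox R, b e = b' e) : m a b = m a' b' := by
  have h1 := h (a - a') b (Or.inl fun e he => by simp [ha e he])
  have h2 := h a' (b - b') (Or.inr fun e he => by simp [hb e he])
  simp only [map_sub, LinearMap.sub_apply] at h1 h2
  linarith

lemma m_eq (h : Rng R R m) (a b : RG.D3.V) : m a b = ∑ e ∈ lbox R, ∑ e' ∈ lbox R,
    m (Pi.single e 1) (Pi.single e' 1) * (a e * b e') := by
  have k : ∀ a : RG.D3.V, ∀ e ∈ lbox R, a e = (∑ e ∈ lbox R, a e • (Pi.single e 1 : RG.D3.V)) e :=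
    fun a e he => by simp [Finset.sum_apply, Pi.single_apply, he]
  rw [m_cut h (k a) (k b)]
  simp only [map_sum, map_smul, LinearMap.sum_apply, LinearMap.smul_apply, smul_eq_mul, mul_sum]
  rw [sum_comm]
  exact sum_congr rfl fun _ _ => sum_congr rfl fun _ _ => by ring

lemma hasSum_MM (h : Rng R R m) (A B : F1) :
    HasSum (fun x => m (RG.D3.sh x (toV A)) (RG.D3.sh x (toV B))) (MM R m A B) := by
  simp only [m_eq h (RG.D3.sh _ _)]
  refine hasSum_sum fun e _ => hasSum_sum fun e' _ => HasSum.mul_left _ ?_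
  simpa [RG.D3.sh, toV, add_comm] using hsi (sh e.1 (A e.2)) (sh e'.1 (B e'.2))

lemma hasSum_nrm (hφ : Adm δ φ) (f : E 3) :
    HasSum (fun x => Real.exp (2 * φ (sc M x)) * f x ^ 2) (nrm φ M f ^ 2) := by
  rw [nrm]
  convert hs (wt φ M f) using 2 with x
  rw [hφ.wt_ap, mul_pow, ← Real.exp_nat_mul]; simp

lemma hasSum_s2 (hφ : Adm δ φ) (A : F1) :
    HasSum (fun x => Real.exp (2 * φ (sc M x)) * nd (toV A) x) (s2 φ M A) := by
  simp only [nd, dd_toV, mul_sum]
  exact hasSum_sum fun μ _ => hasSum_sum fun ν _ => hasSum_nrm hφ _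

lemma hasSum_qq (hφ : Adm 1 φ) (hM : 1 ≤ M) (A : F1) : ∃ K, K ≤ 64 * s1 φ M A ∧
    HasSum (fun x => Real.exp (2 * φ (sc M x)) * qq (toV A) x) K := by
  refine ⟨∑ μ, ∑ ν, nrm φ M (dr μ (t 1) (A ν)) ^ 2, ?_, ?_⟩
  · refine (sum_le_sum (g := fun _ => 16 * s1 φ M A) fun μ _ => ?_).trans (by
      have : 0 ≤ s1 φ M A := sum_nonneg fun _ _ => sq_nonneg _
      simp; linarith)
    rw [s1, mul_sum]
    refine sum_le_sum fun ν _ => ?_
    have := (gd_t (by linarith) μ 1 (by simpa using hM)).bd φ hφ (A ν)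
    nlinarith [nrm_nonneg (φ := φ) (N := M) (dr μ (t 1) (A ν))]
  · simp only [qq, mul_sum]
    refine hasSum_sum fun μ _ => hasSum_sum fun ν _ => ?_
    simpa [toV, un] using hasSum_nrm hφ (dr μ (t 1) (A ν))

lemma hasSum_EW (hm : Inv n R cL cU m) (hφ : Adm δ φ) (A : F1) :
    HasSum (fun x => Real.exp (2 * φ (sc M x)) * en m (toV A) x) (EW m φ M A) := by
  obtain ⟨K, hK⟩ := hφ.bdd
  refine Summable.hasSum (.of_nonneg_of_le (fun x => mul_nonneg (Real.exp_pos _).le (hm.psd _))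
    (fun x => mul_le_mul_of_nonneg_right (Real.exp_le_exp.2 (?_ : _ ≤ 2 * K)) (hm.psd _))
    ((hasSum_MM hm.rng A A).summable.mul_left _))
  linarith [le_of_abs_le (hK (sc M x))]

lemma EW_nonneg (hm : Inv n R cL cU m) (A : F1) : 0 ≤ EW m φ M A :=
  tsum_nonneg fun _ => mul_nonneg (Real.exp_pos _).le (hm.psd _)

lemma near (hφ : Adm δ φ) (y : St) {x : St} (hx : x ∈ box (3 * l + 1)) :
    |φ (sc (LL l) (x + up l y)) - φ (sc 1 y)| ≤ 2 * δ := by
  refine (hφ.lip _ _).trans ?_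
  rw [mul_comm]
  refine mul_le_mul_of_nonneg_right ((pi_norm_le_iff_of_nonneg (by norm_num)).2 fun i => ?_) hφ.nn
  have h := LL_posR l
  have h1 : |(x i : ℝ)| ≤ 3 * l + 1 := by exact_mod_cast Li.mem_box.1 hx i
  have e : (sc (LL l) (x + up l y) - sc 1 y) i = x i / LL l := by simp [sc, up]; field_simp; ring
  rw [e, Real.norm_eq_abs, abs_div, abs_of_pos h, div_le_iff₀ h]
  simp only [LL]; push_cast; linarith [(Nat.cast_nonneg l : (0 : ℝ) ≤ l)]

lemma exp_four : Real.exp 4 ≤ 81 := by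
  have := pow_le_pow_left₀ (Real.exp_pos 1).le (exp_le_three le_rfl) 4
  rw [← Real.exp_nat_mul] at this; norm_num at this ⊢; exact this

lemma near_le (hφ : Adm 1 φ) (y : St) {x : St} (hx : x ∈ box (3 * l + 1)) :
    Real.exp (2 * φ (sc 1 y)) ≤ 81 * Real.exp (2 * φ (sc (LL l) (x + up l y))) ∧
    Real.exp (2 * φ (sc (LL l) (x + up l y))) ≤ 81 * Real.exp (2 * φ (sc 1 y)) := by
  have h := abs_le.1 (near hφ y hx)
  constructor <;> refine le_trans ?_ (mul_le_mul_of_nonneg_right exp_four (Real.exp_pos _).le) <;>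
    rw [← Real.exp_add] <;> exact Real.exp_le_exp.2 (by linarith [h.1, h.2])

lemma box_Blk (l : ℕ) : box (3 * l + 1) ⊆ Blk l (box 1) := fun _ hx => mem_Blk.2 (yo_mem_one hx)

lemma wsum (hφ : Adm 1 φ) {G : St → ℝ} (hG : ∀ x, 0 ≤ G x) {K : ℝ}
    (hK : HasSum (fun x => Real.exp (2 * φ (sc (LL l) x)) * G x) K) (Y : Finset St) :
    ∑ y ∈ Y, Real.exp (2 * φ (sc 1 y)) * ∑ x ∈ box (3 * l + 1), G (x + up l y) ≤ 6561 * K := by
  set g := fun x => Real.exp (2 * φ (sc (LL l) x)) * G x with hg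
  have g0 : ∀ x, 0 ≤ g x := fun x => mul_nonneg (Real.exp_pos _).le (hG x)
  calc _ ≤ ∑ y ∈ Y, 81 * ∑ v ∈ box 1, ∑ t ∈ box l, g (up l y + t + up l v) := by
        refine sum_le_sum fun y _ => ?_
        rw [mul_sum]
        refine (sum_le_sum fun x hx => mul_le_mul_of_nonneg_right (near_le hφ y hx).1 (hG _)).trans ?_
        simp only [mul_assoc, ← mul_sum]
        refine mul_le_mul_of_nonneg_left ((sum_le_sum_of_subset_of_nonneg (box_Blk l)
          fun x _ _ => g0 _).trans_eq ?_) (by norm_num)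
        rw [sum_Blk l (box 1) fun x => g (x + up l y)]
        simp only [add_comm (up l y), add_right_comm _ (up l y)]
    _ ≤ 81 * ∑ _v ∈ box 1, K := by
        rw [← mul_sum, sum_comm]
        refine mul_le_mul_of_nonneg_left (sum_le_sum fun v _ => (Li.sum_blocks_le g0 Y
          ((Y ×ˢ box l).image fun p => up l p.1 + p.2 + up l v) _ fun y hy t ht =>
          mem_image.2 ⟨(y, t), mem_product.2 ⟨hy, ht⟩, rfl⟩).trans
          (sum_le_hasSum _ (fun x _ => g0 x) hK)) (by norm_num)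
    _ ≤ _ := by rw [sum_const, Li.card_box]; norm_num; linarith [hK.nonneg g0]

lemma blk_sum {g : St → ℝ} (hg : ∀ x, 0 ≤ g x) (S : Finset St) :
    ∑ x ∈ S, g x ≤ ∑ y ∈ S.image (yo l), ∑ t ∈ box l, g (t + up l y) := by
  rw [← sum_Blk]
  exact sum_le_sum_of_subset_of_nonneg (fun x hx => mem_Blk.2 (mem_image_of_mem _ hx))
    fun x _ _ => hg x

lemma box_sub (l : ℕ) : box l ⊆ box (3 * l + 1) := Li.box_mono (by omega)

lemma s2_le (hm : Inv n R cL cU m) (hc : cL ≤ 20) (hl : 1 ≤ l) (hφ : Adm 1 φ) (A : F1) :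
    s2 φ (LL l) A ≤ 2 ^ 24 * EW m φ (LL l) A := by
  refine hasSum_le_of_sum_le (hasSum_s2 hφ A) fun S => (blk_sum (l := l)
    (fun x => mul_nonneg (Real.exp_pos _).le (Li.nd_nonneg _ _)) S).trans ?_
  have e0 := EW_nonneg (φ := φ) (M := LL l) hm A
  refine le_trans (sum_le_sum fun y _ => ?_) ((mul_le_mul_of_nonneg_left (wsum hφ (G := en m (toV A))
    (fun x => hm.psd _) (hasSum_EW hm hφ A) (S.image (yo l))) (by norm_num : (0 : ℝ) ≤ 1620)).trans'
    (mul_sum _ _ _).ge |>.trans (by linarith))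
  refine (sum_le_sum fun t ht => mul_le_mul_of_nonneg_right (near_le hφ y (box_sub l ht)).2
    (Li.nd_nonneg _ _)).trans ?_
  have h1 := hm.lower (RG.D3.sh (up l y) (toV A)) (box l)
  have h2 : ∑ x ∈ box l + box 2, m (RG.D3.sh x (RG.D3.sh (up l y) (toV A)))
      (RG.D3.sh x (RG.D3.sh (up l y) (toV A))) ≤ ∑ x ∈ box (3 * l + 1), en m (toV A) (x + up l y) := by
    simp only [Li.sh_sh]
    refine sum_le_sum_of_subset_of_nonneg (fun x hx => ?_) fun _ _ _ => hm.psd _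
    obtain ⟨a, ha, b, hb, rfl⟩ := mem_add.1 hx
    exact Li.box_mono (by omega) (Li.add_mem_box ha hb)
  have h3 : 0 ≤ ∑ x ∈ box l + box 2, m (RG.D3.sh x (RG.D3.sh (up l y) (toV A)))
      (RG.D3.sh x (RG.D3.sh (up l y) (toV A))) := sum_nonneg fun _ _ => hm.psd _
  simp only [Li.nd_sh] at h1
  rw [← mul_sum]
  nlinarith [mul_le_mul_of_nonneg_left (h1.trans ((mul_le_mul_of_nonneg_right hc h3).trans
    (mul_le_mul_of_nonneg_left h2 (by norm_num)))) (Real.exp_pos (2 * φ (sc 1 y))).le]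

def chi (l : ℕ) (z : St) : ℝ := max 0 (min 1 ((3 * l + 1 - ‖z‖) / (l + 1)))

lemma chi_le (l : ℕ) (z : St) : |chi l z| ≤ 1 :=
  abs_le.2 ⟨le_trans (by norm_num) (le_max_left _ _),
    max_le zero_le_one (min_le_left _ _)⟩

lemma norm_le_iff {r : ℕ} {z : St} : ‖z‖ ≤ r ↔ z ∈ box r := by
  rw [Li.mem_box, pi_norm_le_iff_of_nonneg (Nat.cast_nonneg _)]
  exact forall_congr' fun i => by rw [Int.norm_eq_abs]; norm_cast

lemma chi_one {z : St} (hz : z ∈ box (2 * l)) : chi l z = 1 := by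
  have := norm_le_iff.2 hz
  rw [chi, min_eq_left, max_eq_right zero_le_one]
  rw [le_div_iff₀ (by positivity)]; push_cast at this; linarith

lemma chi_zero {z : St} (hz : z ∉ box (3 * l)) : chi l z = 0 := by
  rw [Li.mem_box, not_forall] at hz
  obtain ⟨i, hi⟩ := hz
  have h1 : ((3 * l + 1 : ℤ) : ℝ) ≤ ‖z i‖ := by rw [Int.norm_eq_abs]; norm_cast; push_cast at hi; omega
  have := norm_le_pi_norm z i
  refine max_eq_left ((min_le_right _ _).trans (div_nonpos_of_nonpos_of_nonneg ?_ (by positivity)))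
  push_cast at h1; linarith

lemma chi_lip (l : ℕ) (z : St) (μ : Fin 3) : |chi l (z + un μ) - chi l z| ≤ 2 / LL l := by
  refine (abs_max_sub_max_le_max _ _ _ _).trans (max_le (by simp; positivity)
    ((abs_min_sub_min_le_max _ _ _ _).trans (max_le (by simp; positivity) ?_)))
  have h1 := abs_norm_sub_norm_le z (z + un μ)
  have h2 : ‖un μ‖ ≤ (1 : ℕ) := norm_le_iff.2 (Li.un_mem_box le_rfl μ)
  rw [sub_add_cancel_left, norm_neg] at h1
  rw [← sub_div, sub_sub_sub_cancel_left, abs_div, abs_of_pos (by positivity : (0 : ℝ) < l + 1),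
    div_le_div_iff₀ (by positivity) (LL_posR l)]
  simp only [LL]; push_cast at h2 ⊢
  nlinarith [(Nat.cast_nonneg l : (0 : ℝ) ≤ l), abs_nonneg (‖z‖ - ‖z + un μ‖)]

lemma loc (hm : Inv n R cL cU m) (hU : U1 C m) (hC : 0 ≤ C) (hR : R ≤ l) (a : RG.D3.V) (η : St → ℝ)
    {α β : ℝ} (hα : ∀ z ∈ box (3 * l + 1), |η z| ≤ α)
    (hβ : ∀ z ∈ box (3 * l + 1), ∀ μ, |η (z + un μ) - η z| ≤ β) :
    ∑ x ∈ box l, en m (fun e => η e.1 * a e) x ≤
      C * ∑ x ∈ box (3 * l + 1), (3 * α ^ 2 * nd a x + 6 * (β + α * (2 / LL l)) ^ 2 * qq a x) := by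
  have h := hU (fun e => chi l e.1 * η e.1 * a e) (box l) (box (3 * l))
    fun e he => by simp [chi_zero he]
  have e1 : ∀ x ∈ box l, en m (fun e => η e.1 * a e) x =
      en m (fun e => chi l e.1 * η e.1 * a e) x := fun x hx => by
    have : ∀ e ∈ lbox R, RG.D3.sh x (fun e : Lk => η e.1 * a e) e =
        RG.D3.sh x (fun e : Lk => chi l e.1 * η e.1 * a e) e := fun e he => by
      simp only [RG.D3.sh]
      rw [chi_one (Li.box_mono (by omega) (Li.add_mem_box (Li.mem_lbox.1 he) hx)), one_mul]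
    exact m_cut hm.rng this this
  rw [sum_congr rfl e1]
  refine h.trans (mul_le_mul_of_nonneg_left ((sum_le_sum_of_subset_of_nonneg (fun x hx => ?_)
    fun _ _ _ => Li.nd_nonneg _ _).trans (sum_le_sum fun x hx => ?_)) hC)
  · obtain ⟨a, ha, b, hb, rfl⟩ := mem_add.1 hx
    exact Li.add_mem_box ha hb
  · set γ := β + α * (2 / LL l)
    have k1 : (chi l x * η x) ^ 2 ≤ α ^ 2 := sq_le_sq' (by
      have := abs_le.1 ((abs_mul _ _).trans_le (mul_le_mul (chi_le l x) (hα x hx) (abs_nonneg _)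
        zero_le_one)); linarith [this.1]) (by
      have := abs_le.1 ((abs_mul _ _).trans_le (mul_le_mul (chi_le l x) (hα x hx) (abs_nonneg _)
        zero_le_one)); linarith [this.2])
    have k2 : ∀ μ, (chi l (x + un μ) * η (x + un μ) - chi l x * η x) ^ 2 ≤ γ ^ 2 := fun μ => by
      refine sq_le_sq.2 (le_trans ?_ (le_abs_self _))
      rw [show chi l (x + un μ) * η (x + un μ) - chi l x * η x = chi l (x + un μ) *
        (η (x + un μ) - η x) + η x * (chi l (x + un μ) - chi l x) by ring]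
      refine (abs_add_le _ _).trans (add_le_add ?_ ?_) <;> rw [abs_mul]
      · exact (mul_le_mul (chi_le _ _) (hβ x hx μ) (abs_nonneg _) zero_le_one).trans_eq (one_mul _)
      · exact mul_le_mul (hα x hx) (chi_lip l x μ) (abs_nonneg _) ((abs_nonneg _).trans (hα x hx))
    have e2 : 6 * γ ^ 2 * qq a x = ∑ μ, ∑ ν, (3 * (γ ^ 2 * a (x + un μ, ν) ^ 2) +
        3 * (γ ^ 2 * a (x + un ν, μ) ^ 2)) := by
      simp only [sum_add_distrib, ← mul_sum]
      rw [sum_comm (f := fun μ ν => a (x + un ν, μ) ^ 2), qq]; ring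
    rw [e2, nd, nd, mul_sum, ← sum_add_distrib]
    refine sum_le_sum fun μ _ => ?_
    rw [mul_sum, ← sum_add_distrib]
    refine sum_le_sum fun ν _ => ?_
    have p1 := mul_le_mul_of_nonneg_right k1 (sq_nonneg (dd a x μ ν))
    have p2 := mul_le_mul_of_nonneg_right (k2 μ) (sq_nonneg (a (x + un μ, ν)))
    have p3 := mul_le_mul_of_nonneg_right (k2 ν) (sq_nonneg (a (x + un ν, μ)))
    rw [← mul_pow] at p1 p2 p3
    have e3 : dd (fun e : Lk => chi l e.1 * η e.1 * a e) x μ ν = chi l x * η x * dd a x μ ν +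
        (chi l (x + un μ) * η (x + un μ) - chi l x * η x) * a (x + un μ, ν) -
        (chi l (x + un ν) * η (x + un ν) - chi l x * η x) * a (x + un ν, μ) := by
      simp only [dd]; ring
    rw [e3]
    generalize chi l x * η x * dd a x μ ν = u at *
    generalize (chi l (x + un μ) * η (x + un μ) - chi l x * η x) * a (x + un μ, ν) = v at *
    generalize (chi l (x + un ν) * η (x + un ν) - chi l x * η x) * a (x + un ν, μ) = w at *
    nlinarith [sq_nonneg (u - v), sq_nonneg (u + w), sq_nonneg (v + w)]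

end

end Pool.Agent.Lib.MP_7f377f_mp.Lin.D3
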