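import Pool.Agent.Lib.MP_7f377f_mp.R3Chain
import Pool.Agent.Lib.MP_7f377f_mp.R3Defs

/-! The numerical conditions of the induction over the levels. -/

noncomputable section

namespace Pool.Agent.Lib.MP_7f377f_mp.RG.D3.JC

/-- ranges of the classes of terms at level `v` -/
def rk (v k : ℕ) : ℕ := v ^ 3 * 3 ^ (v * k)

/-- the numerical conditions of a step onto level `v` with blocks of side `LL l` -/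
structure Num (c K C v l p : ℕ) (β δ δ' ε G κ κ' τ er : ℝ) : Prop where
  v1 : C + 10 ≤ v
  L1 : LL (ll v) ≤ LL l
  L2 : LL l ≤ LL (ll v) ^ 3
  Kl : K ≤ l
  r2 : (v ^ 3) ^ 2 ≤ l
  rad : rk (v + 1) C ≤ LL l ^ (12 * c + 30)
  rb : (2 * p + 1) * (rk (v + 1) C / LL l + 4 * LL l ^ (2 * c + 4) + v ^ 3 + 10) + p + 2 ≤ rk v C
  b1 : 1 ≤ β
  z1 : 1 ≤ G * √(2 * β * (LL l : ℝ) ^ (c + 1))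
  d0 : 0 < δ
  d1 : 0 < δ'
  e0 : 0 ≤ ε
  t0 : 0 ≤ τ
  k0 : 0 ≤ κ
  s0 : δ' ≤ √(LL l) * δ
  s1 : (LL l : ℝ) ^ K * (2 * δ') ≤ 1
  s2 : (LL l : ℝ) ^ K * δ ≤ 1
  s3 : (LL l : ℝ) ^ K * (2 * δ') ^ 2 ≤ δ
  s4 : (LL l : ℝ) ^ K * G ≤ δ
  s5 : (LL l : ℝ) ^ K * G ≤ δ'
  s6 : (LL l : ℝ) ^ K * ε ≤ G
  th : (LL l : ℝ) ^ K * (β * (3 * rk v C * (2 * δ')) ^ 3 + β * τ * (2 * δ') * G +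
    4 * (C + 1) * κ * (G + (3 * rk v C * (2 * δ')) ^ 2) / (2 * δ) + G ^ 2 + 2 * δ') ≤
      κ' * ((LL (ll v) : ℝ) ^ 9)⁻¹ ^ C / 40
  th2 : (2 * (rk v C : ℝ) + 1) ^ 3 * κ' ≤ 1 / 10
  ka : 4 * (((v ^ 3 : ℕ) : ℝ) ^ 11 + 1) * κ ≤ κ'
  er : 2⁻¹ ^ p + 2 * Real.exp (-(l : ℝ)) * (G * √(2 * β * (LL l : ℝ) ^ (c + 1))) ^ 2 ≤ er

/-- a power of the block size of level `w` in units of the natural size of the field -/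
def dl (b w : ℕ) (β : ℝ) : ℝ := (LL (ll w) : ℝ) ^ b / √β

/-- the size of the small terms -/
def kp (β : ℝ) : ℝ := β ^ (-3⁻¹ : ℝ)

/-- the numerical conditions at level `w` with coupling `β` -/
structure Top (C K K2 cb w : ℕ) (cB β δ ε κ : ℝ) : Prop where
  w1 : cb + 1 ≤ w
  b1 : 1 ≤ β
  d0 : 0 < δ
  k0 : 0 < κ
  k1 : (C + 1) * κ ≤ β ^ (-4⁻¹ : ℝ)
  h1 : 10 ^ 4 * ((((w ^ 3 : ℕ) : ℝ) + 4) ^ 2 * δ) ≤ 1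
  h2 : 10 ^ 8 * δ ^ 2 ≤ ε
  h3 : 1000 * ((rk w C : ℝ) + 1) * δ ≤ 1
  h4 : δ + 10 ^ 6 * (((rk w C : ℝ) + 1) * δ) ^ 2 ≤ 2 * δ
  h5 : β * (10 ^ 12 * ((w ^ 3 : ℕ) : ℝ) ^ cb * ((((w ^ 3 : ℕ) : ℝ) + 4) ^ 2 * δ) ^ 3) ≤ 1
  h6 : (LL (ll w) : ℝ) ^ K2 ≤ β * (ε ^ 2 / 10 ^ 6)
  h6' : (LL (ll w) : ℝ) ^ K2 ≤ β * (δ ^ 2 / 2)
  h7 : 4 * β⁻¹ ≤ δ
  h8 : 12 * ((w ^ 3 : ℕ) : ℝ) ^ cb * (40 * (((w ^ 3 : ℕ) : ℝ) + 1)) ^ 2 ≤ β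
  h9 : 4 + 4 * (3 * Real.log β + |Real.log cB|) ≤ LL (ll w)
  z1 : 2 * δ ≤ 1 / 10 ^ 5
  z2 : 10 ^ 8 * β * (2 * δ) ^ 3 ≤ κ
  q1 : 24 * β * ((nn w : ℝ) ^ 2)⁻¹ * (2 * δ) ^ 2 ≤ κ
  m1 : LL (ll w) ^ K ≤ nn w
  m2 : 9 ^ K ≤ LL (ll w)
  r1 : rk w C ≤ LL (ll w) ^ (C + 3)

end Pool.Agent.Lib.MP_7f377f_mp.RG.D3.JC
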