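import Pool.Agent.Lib.MP_7f377f_mp.R3SmG

/-! The new local term is a Lipschitz function of the old one. -/

noncomputable section

namespace Pool.Agent.Lib.MP_7f377f_mp.RG.D3.JS

open Finset MeasureTheory

attribute [local irreducible] box lbox

section fl
variable {Ω : Type} [MeasurableSpace Ω] (P : Measure Ω) [IsProbabilityMeasure P]
  {f f' A A' : Ω → ℂ} {θ η η' : ℝ}

theorem int_exp (mf : Measurable f) (mA : Measurable A) (hf : ∀ z, ‖f z‖ ≤ θ)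
    (hA : ∀ z, ‖A z‖ ≤ 1 / 10) : Integrable (fun z => f z * Complex.exp (A z)) P :=
  Integrable.of_bound (by fun_prop) _
    (.of_forall fun z => norm_mul_le_of_le (hf z) (Kit.exp_le (hA z)))

theorem ratio_lip (mf : Measurable f) (mf' : Measurable f') (mA : Measurable A)
    (mA' : Measurable A') (hf : ∀ z, ‖f z‖ ≤ θ) (hf' : ∀ z, ‖f' z‖ ≤ θ) (hA : ∀ z, ‖A z‖ ≤ 1 / 10)
    (hA' : ∀ z, ‖A' z‖ ≤ 1 / 10) (d : ∀ z, ‖f z - f' z‖ ≤ η) (d' : ∀ z, ‖A z - A' z‖ ≤ η') :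
    ‖(∫ z, f z * Complex.exp (A z) ∂P) / (∫ z, Complex.exp (A z) ∂P) -
      (∫ z, f' z * Complex.exp (A' z) ∂P) / ∫ z, Complex.exp (A' z) ∂P‖ ≤
        3 / 2 * η + 8 * (θ * η') := by
  have h1 := Kit.den_ge P mA hA
  have h2 := Kit.den_ge P mA' hA'
  have h3 := Kit.ratio_le P mA' hf' hA'
  have i1 := int_exp P mf mA hf hA
  have i2 := int_exp P mf' mA' hf' hA'
  have i3 := int_exp P (f := fun _ => 1) measurable_const mA (fun _ => le_rfl) hA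
  have i4 := int_exp P (f := fun _ => 1) measurable_const mA' (fun _ => le_rfl) hA'
  simp only [one_mul] at i3 i4
  set c := (∫ z, f' z * Complex.exp (A' z) ∂P) / ∫ z, Complex.exp (A' z) ∂P with hc
  have b : ∀ z, ‖f z * Complex.exp (A z) - c * Complex.exp (A z) -
      (f' z * Complex.exp (A' z) - c * Complex.exp (A' z))‖ ≤
        η * (6 / 5) + (θ + 3 / 2 * θ) * (6 / 5 * (2 * η')) := fun z => by
    have e : f z * Complex.exp (A z) - c * Complex.exp (A z) -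
        (f' z * Complex.exp (A' z) - c * Complex.exp (A' z)) = (f z - f' z) * Complex.exp (A z) +
          (f' z - c) * (Complex.exp (A' z) * (Complex.exp (A z - A' z) - 1)) := by
      rw [mul_sub (Complex.exp _), ← Complex.exp_add, add_sub_cancel]
      ring
    rw [e]
    refine norm_add_le_of_le (norm_mul_le_of_le (d z) (Kit.exp_le (hA z))) (norm_mul_le_of_le
      (norm_sub_le_of_le (hf' z) h3) (norm_mul_le_of_le (Kit.exp_le (hA' z)) ?_))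
    exact (Complex.norm_exp_sub_one_le ((norm_sub_le_of_le (hA z) (hA' z)).trans
      (by norm_num))).trans (by linarith [d' z])
  have := norm_integral_le_of_norm_le_const (μ := P) (.of_forall b)
  rw [probReal_univ, mul_one, integral_sub (i1.sub' (i3.const_mul c)) (i2.sub' (i4.const_mul c)),
    integral_sub i1 (i3.const_mul c), integral_sub i2 (i4.const_mul c), integral_const_mul,
    integral_const_mul, hc, div_mul_cancel₀ _ (norm_pos_iff.1 (by linarith)), sub_self, sub_zero,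
    ← hc] at this
  obtain ⟨z⟩ : Nonempty Ω := nonempty_of_isProbabilityMeasure P
  have η0 := (norm_nonneg _).trans (d z)
  have η1 := mul_nonneg ((norm_nonneg _).trans (hf z)) ((norm_nonneg _).trans (d' z))
  rw [div_sub' (norm_pos_iff.1 (by linarith)), norm_div, div_le_iff₀ (by linarith), mul_comm _ c]
  nlinarith

theorem fl_int (mf : Measurable f) (mA : Measurable A) (hf : ∀ z, ‖f z‖ ≤ θ)
    (hA : ∀ z, ‖A z‖ ≤ 1 / 10) : IntervalIntegrable (fun t : ℝ =>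
      (∫ z, f z * Complex.exp (t * A z) ∂P) / ∫ z, Complex.exp (t * A z) ∂P) volume 0 1 := by
  refine intervalIntegrable_iff.2 (Measure.integrableOn_of_bounded (M := 3 / 2 * θ) (by simp) ?_
    (ae_restrict_of_forall_mem measurableSet_uIoc fun t ht =>
      Kit.ratio_le P (by fun_prop) hf fun z => Kit.mul_le_tenth ht (hA z)))
  refine (Measurable.div ?_ ?_).aestronglyMeasurable <;>
    refine (StronglyMeasurable.integral_prod_right ?_).measurable <;>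
    refine Measurable.stronglyMeasurable ?_ <;> unfold Function.uncurry <;> fun_prop

theorem fl_lip (mf : Measurable f) (mf' : Measurable f') (mA : Measurable A)
    (mA' : Measurable A') (hf : ∀ z, ‖f z‖ ≤ θ) (hf' : ∀ z, ‖f' z‖ ≤ θ) (hA : ∀ z, ‖A z‖ ≤ 1 / 10)
    (hA' : ∀ z, ‖A' z‖ ≤ 1 / 10) (d : ∀ z, ‖f z - f' z‖ ≤ η) (d' : ∀ z, ‖A z - A' z‖ ≤ η') :
    ‖Kit.fl P f A - Kit.fl P f' A'‖ ≤ 3 / 2 * η + 8 * (θ * η') := by
  rw [Kit.fl, Kit.fl, ← intervalIntegral.integral_sub (fl_int P mf mA hf hA) (fl_int P mf' mA' hf' hA')]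
  refine (intervalIntegral.norm_integral_le_of_norm_le_const fun t ht =>
    ratio_lip P mf mf' (by fun_prop) (by fun_prop) hf hf' (fun z => Kit.mul_le_tenth ht (hA z))
      (fun z => Kit.mul_le_tenth ht (hA' z)) d (η' := η') fun z => ?_).trans_eq (by simp)
  rw [Set.uIoc_of_le zero_le_one] at ht
  rw [← mul_sub, norm_mul, Complex.norm_real, Real.norm_of_nonneg ht.1.le]
  exact (mul_le_of_le_one_left (norm_nonneg _) ht.2).trans (d' z)

end fl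

theorem wt_lip {D D' : Dat} {c R : ℕ} {τ ρ κ θ η : ℝ} (h : D.Ok c τ R ρ κ) (e1 : D'.ζ = D.ζ)
    (e2 : D'.Rb = D.Rb) (e3 : D'.l = D.l) {W : Cf} (hθ : (2 * D.Rb + 1) ^ 3 * θ ≤ 1 / 100)
    (k : ∀ y ∈ box D.Rb, (∀ z, ‖D.s0 (sh y W) z‖ ≤ θ) ∧ Measurable (D.s0 (sh y W)))
    (k' : ∀ y ∈ box D.Rb, (∀ z, ‖D'.s0 (sh y W) z‖ ≤ θ) ∧ Measurable (D'.s0 (sh y W)))
    (d : ∀ y ∈ box D.Rb, ∀ z, ‖D.s0 (sh y W) z - D'.s0 (sh y W) z‖ ≤ η) :
    ‖D.wt W - D'.wt W‖ ≤ 2 * η := by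
  have := nuI_prob h
  obtain ⟨a1, a2, a3, a4⟩ := sS_bd hθ k
  obtain ⟨b1, b2, b3, b4⟩ := sS_bd (D := D') (e2 ▸ hθ) (e2 ▸ k')
  have d0 := d 0 (Li.zero_mem_box _)
  rw [Li.sh_zero] at d0
  have η0 := (norm_nonneg _).trans (d0 0)
  rw [wt_eq, wt_eq, e1]
  refine (fl_lip _ a2 b2 a4 b4 a1 b1 a3 b3 d0 (η' := (2 * D.Rb + 1) ^ 3 * η) fun z => ?_).trans
    (by nlinarith)
  rw [neg_sub_neg, norm_sub_rev, Dat.sS, Dat.sS, e2, e3, ← sum_sub_distrib]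
  refine (norm_sum_le_of_le _ fun y hy => d y hy _).trans_eq ?_
  rw [sum_const, Li.card_box, nsmul_eq_mul]
  push_cast
  rfl

theorem _root_.Pool.Agent.Lib.MP_7f377f_mp.RG.D3.fresh_lip (c : ℕ) :
    ∃ K : ℕ, ∀ (D : Dat) (R R' : ℕ) (τ ρ κ ρ' : ℝ), D.Ok c τ R ρ κ →
    K ≤ D.l → D.Rb + D.Rs R + 2 ≤ R' → R' ≤ LL D.l ^ (12 * c + 30) → 0 < ρ' →
    ρ' ≤ √(LL D.l) * ρ → (LL D.l : ℝ) ^ K * ρ' ≤ 1 → (LL D.l : ℝ) ^ K * ρ' ^ 2 ≤ ρ →
    (LL D.l : ℝ) ^ K * (D.g * D.ζ) ≤ ρ → (LL D.l : ℝ) ^ K * (D.g * D.ζ) ≤ ρ' →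
    (2 * D.Rb + 1) ^ 3 * D.th0 K τ ρ ρ' κ (3 * R' * ρ') ≤ 1 / 100 →
    ∀ (ψ' : Fld → ℂ) (κd : ℝ), Tm R ρ κ ψ' → Tm R ρ κd (D.ψ - ψ') →
      Tm R' ρ' ((LL D.l : ℝ) ^ K * κd * (D.g * D.ζ + (3 * R' * ρ') ^ 2) / ρ)
        (D.fresh R' - Dat.fresh { D with ψ := ψ' } R') := by
  refine (fresh_aux c).imp fun K hK D R R' τ ρ κ ρ' h a2 a3 a4 a5 a6 a7 a8 a9 a10 a11 ψ' κd h' hd => ?_
  obtain ⟨⟨t1, -⟩, k1⟩ := hK D R R' τ ρ κ ρ' h a2 a3 a4 a5 a6 a7 a8 a9 a10 a11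
  obtain ⟨⟨t2, -⟩, k2⟩ := hK { D with ψ := ψ' } R R' τ ρ κ ρ' { h with psi := h' } a2 a3 a4 a5 a6
    a7 a8 a9 a10 a11
  have k := fun B hB => wt_lip (D' := { D with ψ := ψ' }) h rfl rfl rfl a11
    (fun y hy => (k1 B hB y hy).1) (fun y hy => (k2 B hB y hy).1)
    fun y hy => (k1 B hB y hy).2 ψ' κd hd
  refine { t1.sub t2 with bd := fun B hB => ?_ }
  have a := k 0 fun x _ μ ν => by simp [dd, a5.le]
  rw [cut_cg_zero, exF_zero] at a
  refine le_trans (le_of_eq ?_) ((norm_sub_le_of_le (k B hB) a).trans_eq (by ring))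
  have e : Dat.dt { D with ψ := ψ' } = D.dt := rfl
  simp only [Pi.sub_apply, Dat.fresh, e]
  congr 1
  ring

end Pool.Agent.Lib.MP_7f377f_mp.RG.D3.JS
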