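import Pool.Agent.Lib.MP_7f377f_mp.R3SmF
import Pool.Agent.Lib.MP_7f377f_mp.KitMix

/-! The new local term produced by the fluctuation integral. -/

noncomputable section

namespace Pool.Agent.Lib.MP_7f377f_mp.RG.D3.JS

open Finset MeasureTheory

attribute [local irreducible] box lbox

theorem nu_prob {ζ : ℝ} (h : 0 < ζ) : IsProbabilityMeasure (nu ζ) := by
  have : IsFiniteMeasure (nu0 ζ) := isFiniteMeasure_withDensity (ne_top_of_le_ne_top
    (by simpa using (measure_closedBall_lt_top (μ := volume) (x := (0 : E3))).ne) (lintegral_mono (g := fun _ => 1) fun v =>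
      ENNReal.ofReal_le_one.2 (Real.exp_le_one_iff.2 (neg_nonpos.2 (by positivity)))))
  have : NeZero (nu0 ζ) := ⟨fun e => by
    have := withDensity_absolutelyContinuous' (μ := volume.restrict (Metric.closedBall (0 : E3) ζ))
      (f := fun v => ENNReal.ofReal (Real.exp (-(‖v‖ ^ 2 / 2)))) (by fun_prop)
      (.of_forall fun v => (ENNReal.ofReal_pos.2 (Real.exp_pos _)).ne')
    rw [← nu0, e, Measure.absolutelyContinuous_zero_iff, Measure.restrict_eq_zero] at this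
    exact (Metric.measure_closedBall_pos volume _ h).ne' this⟩
  exact isProbabilityMeasureSMul

theorem nu_rot (ζ : ℝ) (T : E3 ≃ₗᵢ[ℝ] E3) : (nu ζ).map T = nu ζ := by
  have m := T.continuous.measurable
  have : (nu0 ζ).map T = nu0 ζ := Measure.ext fun s hs => by
    rw [Measure.map_apply m hs, nu0, withDensity_apply _ hs, withDensity_apply _ (m hs),
      Measure.restrict_restrict hs, Measure.restrict_restrict (m hs),
      ← T.measurePreserving.setLIntegral_comp_preimage (hs.inter measurableSet_closedBall)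
        (by fun_prop)]
    simp [Set.preimage_inter]
  rw [nu, Measure.map_smul, this]

variable {D : Dat} {c R : ℕ} {τ ρ κ : ℝ}

theorem nuI_prob (h : D.Ok c τ R ρ κ) : IsProbabilityMeasure (nuI D.ζ) := by
  have := nu_prob (zero_lt_one.trans_le h.zeta)
  unfold nuI
  infer_instance

theorem wt_eq (W : Cf) : D.wt W = Kit.fl (nuI D.ζ) (D.s0 W) fun z => -D.sS W z := by
  simp only [Dat.wt, Kit.fl, mul_neg]

theorem wt_gauge (h : D.Ok c τ R ρ κ) (u : St → S3) (W : Cf) :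
    D.wt (gauge star (fun x => cS (u x)) W) = D.wt W := by
  choose T hT using exists_rot
  have := nu_prob (zero_lt_one.trans_le h.zeta)
  let Θ : (Lk → E3) ≃ᵐ (Lk → E3) :=
    MeasurableEquiv.piCongrRight fun f => (T (u (yo D.l f.1))).toMeasurableEquiv
  have hΘ : MeasurePreserving Θ (nuI D.ζ) (nuI D.ζ) := ⟨Θ.measurable,
    (Measure.infinitePi_map_pi _ fun f : Lk => (T (u (yo D.l f.1))).continuous.measurable).trans
      (by simp only [nu_rot, nuI])⟩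
  have e : ∀ y z, D.s0 (sh y (gauge star (fun x => cS (u x)) W)) (sh (up D.l y) (Θ z)) =
      D.s0 (sh y W) (sh (up D.l y) z) := fun y z => by
    rw [sh_gauge, ← Dat.s0_gauge h (fun x => u (x + y)) (fun x => T (u (x + y))) (fun x => hT _)
      (sh y W)]
    congr 1
    funext f
    exact congrArg (fun x => T (u x) _) (yo_add_up _ _ _)
  have e0 := e 0
  simp only [up_zero, Li.sh_zero] at e0
  unfold Dat.wt
  refine intervalIntegral.integral_congr fun t _ => ?_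
  rw [← hΘ.integral_comp', ← hΘ.integral_comp' fun z => Complex.exp (-(t * D.sS (gauge _ _ _) z))]
  simp only [Dat.sS, e, e0]

theorem wt_agr (h : D.Ok c τ R ρ κ) {W W' : Cf} (hW : Agr (D.Rs R + D.Rb) W W') :
    D.wt W = D.wt W' := by
  have e : ∀ y ∈ box D.Rb, ∀ z, D.s0 (sh y W) z = D.s0 (sh y W') z := fun y hy z =>
    Dat.s0_agr h (agr_sh hW hy le_rfl) fun _ _ => rfl
  have e0 := e 0 (Li.zero_mem_box _)
  simp only [Li.sh_zero] at e0
  have e1 : ∀ z, D.sS W z = D.sS W' z := fun z => sum_congr rfl fun y hy => e y hy _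
  simp only [Dat.wt, e0, e1]

theorem wt_real (h : D.Ok c τ R ρ κ) (W : Conf) : (D.wt (cC W)).im = 0 := by
  have e0 : D.s0 (cC W) = fun z => ((D.s0 (cC W) z).re : ℂ) :=
    funext fun z => Complex.ext rfl (Dat.s0_real h W z)
  have e1 : (fun z => -D.sS (cC W) z) = fun z => ((-D.sS (cC W) z).re : ℂ) :=
    funext fun z => Complex.ext rfl (by
      rw [Complex.neg_im, Dat.sS, Complex.im_sum, Complex.ofReal_im, neg_eq_zero]
      exact sum_eq_zero fun y _ => Dat.s0_real h (sh y W) _)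
  rw [wt_eq, e0, e1, Kit.fl_ofReal, Complex.ofReal_im]

theorem measurable_sh (x : St) : Measurable (sh x : (Lk → E3) → Lk → E3) :=
  measurable_pi_lambda _ fun _ => measurable_pi_apply _

theorem sS_bd {W : Cf} {θ : ℝ} (hθ : (2 * D.Rb + 1) ^ 3 * θ ≤ 1 / 100)
    (h : ∀ y ∈ box D.Rb, (∀ z, ‖D.s0 (sh y W) z‖ ≤ θ) ∧ Measurable (D.s0 (sh y W))) :
    (∀ z, ‖D.s0 W z‖ ≤ θ) ∧ Measurable (D.s0 W) ∧ (∀ z, ‖-D.sS W z‖ ≤ 1 / 10) ∧
      Measurable fun z => -D.sS W z := by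
  have := h 0 (Li.zero_mem_box _)
  rw [Li.sh_zero] at this
  refine ⟨this.1, this.2, fun z => ?_,
    (measurable_fun_sum _ fun y hy => (h y hy).2.comp (measurable_sh _)).neg⟩
  rw [norm_neg]
  refine (norm_sum_le_of_le _ fun y hy => (h y hy).1 _).trans ?_
  rw [sum_const, Li.card_box, nsmul_eq_mul]
  push_cast
  linarith

/-! ### the linear comb gauge -/

section cg
variable {W W' : Type} [AddCommGroup W] [AddCommGroup W']

theorem cg_map (φ : W →+ W') (a : Lk → W) (e : Lk) : cg (fun e => φ (a e)) e = φ (cg a e) := by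
  simp only [cg, gr, lam, pr, Pi.sub_apply, map_sub, map_sum]

theorem cg_sub (a b : Lk → W) : cg (a - b) = cg a - cg b := by
  funext e
  simp only [cg, gr, lam, pr, Pi.sub_apply, sum_sub_distrib]
  abel

end cg

theorem cut_cg_bd {B : Fld} (h : Cv R ρ B) (ρ0 : 0 ≤ ρ) (e : Lk) : ‖cut R (cg B) e‖ ≤ 3 * R * ρ := by
  simp only [cut]
  split_ifs with he
  · exact Sm_cg h e he
  · rw [norm_zero]; positivity

theorem cut_cg_cv {B : Fld} (h : Cv R ρ B) {a b : ℕ} (hab : a + b + 1 ≤ R) {y : St}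
    (hy : y ∈ box b) : Cv a ρ (sh y (cut R (cg B))) :=
  cv_sh (R := a + b) (fun x hx μ ν => by
    rw [dd_agr (agr_mono (agr_cut R _) hab) hx, dd_cg]
    exact h x (Li.box_mono (by omega) hx) μ ν) hy le_rfl

theorem cut_cg_disc {Ω : Set ℂ} {γ : ℂ → Fld} (h : Disc Ω γ) (R : ℕ) :
    Disc Ω fun t => cut R (cg (γ t)) := fun e => by
  have : ∀ e, DifferentiableOn ℂ (fun t => γ t e) Ω := h
  simp only [cut]
  split_ifs
  · simp only [cg, gr, lam, pr, Pi.sub_apply]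
    fun_prop
  · exact differentiableOn_const _

theorem cut_cg_zero (R : ℕ) : cut R (cg (0 : Fld)) = 0 := by
  funext e
  simp [cut, cg, gr, lam, pr]

theorem exF_zero : exF 0 = 1 := funext fun _ => ex_zero

theorem sh_exF (y : St) (B : Fld) : sh y (exF B) = exF (sh y B) := rfl

theorem cut_cg_ad (h : Hc) (B : Fld) :
    cut R (cg (adF (fun _ => h) B)) = adF (fun _ => h) (cut R (cg B)) := by
  rw [← cut_adF]
  congr 1
  funext e
  refine cg_map (AddMonoidHom.mk' (adq h) fun a b => ?_) B e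
  rw [adq, show io (a + b) = io a + io b from ioL.map_add a b, mul_add, add_mul]
  funext k
  fin_cases k <;> rfl

theorem cut_cg_real {B : Fld} (h : RealF B) : RealF (cut R (cg B)) := fun e k => by
  simp only [cut]
  split_ifs
  · have := cg_map (AddMonoidHom.mk' (fun b : C3 => (b k).im) fun _ _ => rfl) B e
    simp only [AddMonoidHom.mk'_apply, h _ k] at this
    rw [← this]
    simp [cg, gr, lam, pr]
  · rfl

theorem cC_gauge (u : St → S3) (W : Conf) :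
    cC (gauge Inv.inv u W) = gauge star (fun x => cS (u x)) (cC W) := by
  funext e
  simp only [cC, gauge, cS_mul, cS_inv]

theorem num_hyp {L R ρ ρ' γ : ℝ} {K n : ℕ} (L6 : 10 ^ 6 ≤ L) (R1 : 1 ≤ R) (hR : R ≤ L ^ n)
    (ρ0 : 0 < ρ') (γ0 : 0 ≤ γ) (h1 : L ^ (K + 2 * n + 2) * ρ' ≤ 1)
    (h2 : L ^ (K + 2 * n + 2) * ρ' ^ 2 ≤ ρ) (h3 : L ^ (K + 2 * n + 2) * γ ≤ ρ)
    (h4 : L ^ (K + 2 * n + 2) * γ ≤ ρ') :
    L ^ K * (3 * R * ρ') ≤ 1 ∧ L ^ K * (3 * R * ρ') ^ 2 ≤ ρ ∧ L ^ K * γ ≤ ρ ∧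
      L ^ K * γ ≤ 3 * R * ρ' ∧ 10 ^ 12 * (R ^ 2 * ρ') ≤ 1 ∧
      4 * (L ^ K * R) ≤ L ^ (K + 2 * n + 2) := by
  have L1 : 1 ≤ L := by linarith
  have p1 : 1 ≤ L ^ K := one_le_pow₀ L1
  have pw : 10 ^ 12 * (L ^ K * R ^ 2) ≤ L ^ (K + 2 * n + 2) := by
    calc _ = (10 ^ 6) ^ 2 * (L ^ K * R ^ 2) := by ring
      _ ≤ L ^ 2 * (L ^ K * (L ^ n) ^ 2) := by gcongr
      _ = _ := by ring
  have a1 : L ^ K * R ≤ L ^ K * R ^ 2 := by gcongr; nlinarith
  have a2 : L ^ K ≤ L ^ K * R := le_mul_of_one_le_right (by linarith) R1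
  have a3 : R ^ 2 ≤ L ^ K * R ^ 2 := le_mul_of_one_le_left (by positivity) p1
  generalize L ^ (K + 2 * n + 2) = M at *
  have a4 : L ^ K * γ ≤ M * γ := by gcongr; linarith
  refine ⟨?_, ?_, a4.trans h3, (a4.trans h4).trans (by nlinarith), ?_, by linarith⟩
  · calc _ = 3 * (L ^ K * R) * ρ' := by ring
      _ ≤ M * ρ' := by gcongr; linarith
      _ ≤ 1 := h1
  · calc _ = 9 * (L ^ K * R ^ 2) * ρ' ^ 2 := by ring
      _ ≤ M * ρ' ^ 2 := by gcongr; linarith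
      _ ≤ ρ := h2
  · rw [← mul_assoc]
    exact le_trans (by gcongr; linarith) h1

theorem th_le {a b β τ ρ ρ' κ γ δ : ℝ} (h : a ≤ b) (h1 : 1 ≤ β) (h2 : 0 ≤ τ) (h3 : 0 < ρ')
    (h4 : 0 ≤ κ) (h5 : 0 < ρ) (h6 : 0 ≤ γ) (h7 : 0 ≤ δ) :
    a * (β * δ ^ 3 + β * τ * ρ' * γ + κ * (γ + δ ^ 2) / ρ + γ ^ 2) ≤
      b * (β * δ ^ 3 + β * τ * ρ' * γ + κ * (γ + δ ^ 2) / ρ + γ ^ 2) := by gcongr

theorem fresh_aux (c : ℕ) : ∃ K : ℕ, ∀ (D : Dat) (R R' : ℕ) (τ ρ κ ρ' : ℝ), D.Ok c τ R ρ κ →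
    K ≤ D.l → D.Rb + D.Rs R + 2 ≤ R' → R' ≤ LL D.l ^ (12 * c + 30) → 0 < ρ' →
    ρ' ≤ √(LL D.l) * ρ → (LL D.l : ℝ) ^ K * ρ' ≤ 1 → (LL D.l : ℝ) ^ K * ρ' ^ 2 ≤ ρ →
    (LL D.l : ℝ) ^ K * (D.g * D.ζ) ≤ ρ → (LL D.l : ℝ) ^ K * (D.g * D.ζ) ≤ ρ' →
    (2 * D.Rb + 1) ^ 3 * D.th0 K τ ρ ρ' κ (3 * R' * ρ') ≤ 1 / 100 →
      (Tm R' ρ' (10 * D.th0 K τ ρ ρ' κ (3 * R' * ρ') + (LL D.l : ℝ) ^ K * ρ') (D.fresh R') ∧
      ∀ W : Conf, curvG (ρ' / 2) W →
        D.fresh R' (Bx 0 (cC W)) = D.wt (cC W) - D.wt 1 - (D.dt (cC W) - D.dt 1) ∧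
        (∀ z, ‖D.s0 (cC W) z‖ ≤ D.th0 K τ ρ ρ' κ (3 * R' * ρ')) ∧
        Measurable (D.s0 (cC W))) ∧
      ∀ B, Cv R' ρ' B → ∀ y ∈ box D.Rb,
        ((∀ z, ‖D.s0 (sh y (exF (cut R' (cg B)))) z‖ ≤ D.th0 K τ ρ ρ' κ (3 * R' * ρ')) ∧
          Measurable (D.s0 (sh y (exF (cut R' (cg B)))))) ∧
        ∀ ψ' κd, Tm R ρ κd (D.ψ - ψ') → ∀ z, ‖D.s0 (sh y (exF (cut R' (cg B)))) z -
          Dat.s0 { D with ψ := ψ' } (sh y (exF (cut R' (cg B)))) z‖ ≤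
            (LL D.l : ℝ) ^ K * κd * (D.g * D.ζ + (3 * R' * ρ') ^ 2) / ρ / 4 := by
  obtain ⟨K1, h1⟩ := exists_pre c
  refine ⟨K1 * 13 + 2 * (12 * c + 30) + 2, fun D R R' τ ρ κ ρ' h hl hR hR' ρ0 h0 hρ hρ2 hγ hγ' hθ =>
    ?_⟩
  have L1 := one_le_LL D.l
  have R1 : (1 : ℝ) ≤ R' := by exact_mod_cast (by omega : 1 ≤ R')
  have γ0 : 0 ≤ D.g * D.ζ := mul_nonneg (g_nonneg D) (zero_le_one.trans h.zeta)
  obtain ⟨n1, n2, n3, n4, q, n5⟩ := num_hyp (LL_ge h) R1 (by exact_mod_cast hR') ρ0 γ0 hρ hρ2 hγ hγ'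
  obtain ⟨δ0, h5, h6, h7, h8⟩ := pre_hyp h n1 n2 n3 n4
  have p := h1 D R τ ρ κ _ h (by omega) δ0 h5
  have P1 := p.big.one
  have n6 : 4 * ((LL D.l : ℝ) ^ K1) ^ 13 ≤ LL D.l ^ (K1 * 13 + 2 * (12 * c + 30) + 2) := by
    rw [← pow_mul]
    linarith [le_mul_of_one_le_right (pow_nonneg (zero_le_one.trans L1) (K1 * 13)) R1]
  rw [pow_mul] at n5
  clear n1 n2 n3 n4 h1 hR' hρ hρ2 hγ hγ'
  generalize K1 * 13 + 2 * (12 * c + 30) + 2 = K at *
  generalize (LL D.l : ℝ) ^ K1 = P at *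
  have κ0 := kappa_nonneg h
  have ρ1 := h.rho
  set θ := D.th0 K τ ρ ρ' κ (3 * R' * ρ')
  have := nuI_prob h
  have b1 := fun (B : Fld) (hB : Cv R' ρ' B) (y : St) (e : Lk) =>
    (cut_cg_bd hB ρ0.le _ : ‖sh y (cut R' (cg B)) e‖ ≤ _)
  have b2 := fun (B : Fld) (hB : Cv R' ρ' B) y (hy : y ∈ box D.Rb) =>
    cut_cg_cv (a := D.Rs R) hB (by omega) hy
  have hm : P ^ 13 * (D.β * (3 * R' * ρ') ^ 3 + D.β * τ * ρ' * (D.g * D.ζ) +
      κ * (D.g * D.ζ + (3 * R' * ρ') ^ 2) / ρ + (D.g * D.ζ) ^ 2) ≤ θ :=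
    th_le (by linarith [one_le_pow₀ (n := 13) P1]) h.beta h.tau ρ0 κ0 ρ1 γ0 δ0
  have k0 : ∀ B, Cv R' ρ' B → ∀ y ∈ box D.Rb,
      (∀ z, ‖D.s0 (sh y (exF (cut R' (cg B)))) z‖ ≤ θ) ∧
        Measurable (D.s0 (sh y (exF (cut R' (cg B))))) := fun B hB y hy => by
    rw [sh_exF]
    exact ⟨fun z => (s0_bd p h h0 h6 h7 h8 (b1 B hB y) (b2 B hB y hy) z).trans hm,
      s0_meas h fun x hx z => ((p.cv h h0 h6 h7 h8 (b1 B hB y) (b2 B hB y hy) z).2.2 x hx).2.2⟩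
  refine ⟨?_, fun B hB y hy => ⟨k0 B hB y hy, fun ψ' κd hd z => ?_⟩⟩
  swap
  · rw [sh_exF, s0_sub]
    refine (e3_bd p h h0 h6 h7 h8 (b1 B hB y) (b2 B hB y hy) z hd).trans ?_
    have := mul_le_mul_of_nonneg_right n6 (div_nonneg (mul_nonneg (hd.nonneg ρ1.le)
      (add_nonneg γ0 (sq_nonneg (3 * R' * ρ')))) ρ1.le)
    rw [mul_assoc (_ ^ K), mul_div_assoc (_ ^ K)]
    linarith
  have k3 := fun (B : Fld) (hB : Cv R' ρ' B) => sS_bd hθ (k0 B hB)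
  have k4 : ∀ B : Fld, Cv R' ρ' B → ‖D.wt (exF (cut R' (cg B)))‖ ≤ 3 / 2 * θ := fun B hB => by
    rw [wt_eq]
    exact Kit.fl_le _ (k3 B hB).2.2.2 (k3 B hB).1 (k3 B hB).2.2.1
  have small : ∀ B : Fld, Cv R' ρ' B → ∀ e, ‖cut R' (cg B) e‖ ≤ 1 / 10 := fun B hB e =>
    (cut_cg_bd hB ρ0.le e).trans (by nlinarith [mul_nonneg (zero_le_one.trans R1) ρ0.le])
  have one : cC 1 = 1 := funext fun _ => cS_one
  refine ⟨⟨fun A B hAB => ?_, fun Ω γ hΩ dγ hγ => ?_, fun B hB => ?_, ?_, fun g B => ?_,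
    fun B hB => ?_⟩, fun W hW => ?_⟩
  · have : cut R' (cg A) = cut R' (cg B) := funext fun e => by
      have := cut_cg_bd (R := R') (ρ := 0) (B := A - B)
        (fun x hx μ ν => by rw [dd_sub, hAB x hx, sub_self, norm_zero]) le_rfl e
      simp only [cut, cg_sub, mul_zero, norm_le_zero_iff] at this ⊢
      split_ifs at this ⊢
      exacts [sub_eq_zero.1 this, rfl]
    simp only [Dat.fresh, this]
  · have d := cut_cg_disc dγ R'
    have d1 := fun y hy z => s0_diff p h h0 h6 h7 h8 (B := fun t => sh y (cut R' (cg (γ t)))) hΩ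
      (fun e => d _) (fun t ht => b1 _ (hγ t ht) y) (fun t ht => b2 _ (hγ t ht) y hy) z
    have d0 := d1 0 (Li.zero_mem_box _)
    simp only [Li.sh_zero] at d0
    have d2 := Kit.fl_holo (nuI D.ζ) hΩ (fun t ht => (k3 _ (hγ t ht)).2.1)
      (fun t ht => (k3 _ (hγ t ht)).2.2.2) d0
      (fun z => (DifferentiableOn.fun_sum fun y hy => d1 y hy _).neg)
      (fun t ht => (k3 _ (hγ t ht)).1) fun t ht => (k3 _ (hγ t ht)).2.2.1
    simp only [← wt_eq] at d2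
    refine (d2.sub_const _).sub (DifferentiableOn.sub_const ?_ _)
    exact DifferentiableOn.fun_sum fun f _ => DifferentiableOn.fun_sum fun k _ =>
      differentiableOn_pi.1 (Dat.pol_disc h _ (exF_disc d fun t ht => small _ (hγ t ht)) _ f) k
  · have a := k4 0 fun x _ μ ν => by simp [dd, ρ0.le]
    rw [cut_cg_zero, exF_zero] at a
    refine (norm_sub_le_of_le (norm_sub_le_of_le (k4 B hB) a)
      (p.dt _ (cut_cg_bd hB ρ0.le))).trans ?_
    have a1 := mul_nonneg (zero_le_one.trans R1) ρ0.le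
    have a2 := mul_le_mul_of_nonneg_right (pow_le_pow_right₀ P1 (show 2 ≤ 13 by norm_num)) a1
    have a3 := mul_le_mul_of_nonneg_right n5 ρ0.le
    linarith [norm_nonneg (D.wt 1), mul_nonneg (sq_nonneg P) a1]
  · simp [Dat.fresh, cut_cg_zero]
  · have : exF (cut R' (cg (adF (fun _ => cS g) B))) =
        gauge star (fun _ => cS g) (exF (cut R' (cg B))) := by
      rw [cut_cg_ad]
      exact funext fun e => ex_adq (uni_cS g) _
    simp only [Dat.fresh, this, wt_gauge h fun _ => g, Dat.dt_gauge h fun _ => uni_cS g]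
  · obtain ⟨U, hU⟩ := exF_real (cut_cg_real (R := R') hB)
    simp only [Dat.fresh, ← hU, ← one, Complex.sub_im, wt_real h, Dat.dt_real, sub_zero]
  · obtain ⟨f1, -, f3⟩ := real_fix (R := R') hW (by nlinarith)
    have f4 : Cv R' ρ' (Bx 0 (cC W)) := cv_mono f3 le_rfl (by
      have : (R' + 1) ^ 2 * ρ' ≤ (2 * R') ^ 2 * ρ' := by gcongr; linarith
      nlinarith)
    have f5 : Agr R' (exF (cut R' (cg (Bx 0 (cC W)))))
        (gauge star (fun x => cS (cmb Inv.inv W x)) (cC W)) := fun e he => by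
      rw [← cC_gauge, f1 e he, cg_Bx, exF, exF, agr_cut R' _ e he]
    choose T hT using exists_rot
    have e : D.s0 (cC W) = fun z => D.s0 (exF (cut R' (cg (Bx 0 (cC W)))))
        fun f => T (cmb Inv.inv W (yo D.l f.1)) (z f) := funext fun z => by
      rw [Dat.s0_agr h (agr_mono f5 (by omega)) fun _ _ => rfl,
        Dat.s0_gauge h _ (fun x => T (cmb Inv.inv W x)) fun x => hT _]
    refine ⟨?_, ?_, ?_⟩
    · rw [Dat.fresh, wt_agr h (agr_mono f5 (by omega)), wt_gauge h,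
        Dat.dt_agr h (agr_mono f5
          (by unfold Dat.Rs at hR; generalize R / LL D.l = q at hR; omega)),
        Dat.dt_gauge h fun _ => uni_cS _]
    · exact e ▸ fun z => (k3 _ f4).1 _
    · exact e ▸ (k3 _ f4).2.1.comp (measurable_pi_lambda _ fun f =>
        (T _).continuous.measurable.comp (measurable_pi_apply f))

theorem _root_.Pool.Agent.Lib.MP_7f377f_mp.RG.D3.fresh_tm (c : ℕ) :
    ∃ K : ℕ, ∀ (D : Dat) (R R' : ℕ) (τ ρ κ ρ' : ℝ), D.Ok c τ R ρ κ →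
    K ≤ D.l → D.Rb + D.Rs R + 2 ≤ R' → R' ≤ LL D.l ^ (12 * c + 30) → 0 < ρ' →
    ρ' ≤ √(LL D.l) * ρ → (LL D.l : ℝ) ^ K * ρ' ≤ 1 → (LL D.l : ℝ) ^ K * ρ' ^ 2 ≤ ρ →
    (LL D.l : ℝ) ^ K * (D.g * D.ζ) ≤ ρ → (LL D.l : ℝ) ^ K * (D.g * D.ζ) ≤ ρ' →
    (2 * D.Rb + 1) ^ 3 * D.th0 K τ ρ ρ' κ (3 * R' * ρ') ≤ 1 / 100 →
      Tm R' ρ' (10 * D.th0 K τ ρ ρ' κ (3 * R' * ρ') + (LL D.l : ℝ) ^ K * ρ') (D.fresh R') ∧
      ∀ W : Conf, curvG (ρ' / 2) W →
        D.fresh R' (Bx 0 (cC W)) = D.wt (cC W) - D.wt 1 - (D.dt (cC W) - D.dt 1) ∧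
        (∀ z, ‖D.s0 (cC W) z‖ ≤ D.th0 K τ ρ ρ' κ (3 * R' * ρ')) ∧
        Measurable (D.s0 (cC W)) :=
  (fresh_aux c).imp fun _ h D R R' τ ρ κ ρ' a1 a2 a3 a4 a5 a6 a7 a8 a9 a10 a11 =>
    (h D R R' τ ρ κ ρ' a1 a2 a3 a4 a5 a6 a7 a8 a9 a10 a11).1

end Pool.Agent.Lib.MP_7f377f_mp.RG.D3.JS
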