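import Pool.Agent.Lib.MP_7f377f_mp.R3LvB
import Pool.Agent.Lib.MP_7f377f_mp.R3LvN
import Pool.Agent.Lib.MP_7f377f_mp.R3BgB
import Pool.Agent.Lib.MP_7f377f_mp.R3SmH
import Pool.Agent.Lib.MP_7f377f_mp.R3Step4

/-! One step of the induction over the levels, for two effective actions at once. -/

noncomputable section

namespace Pool.Agent.Lib.MP_7f377f_mp.RG.D3.JC

open Finset MeasureTheory
open scoped Quaternion ENNReal Pointwise

attribute [local irreducible] box lbox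

theorem tm_zero (R : ℕ) (ρ : ℝ) {κ : ℝ} (h : 0 ≤ κ) : Tm R ρ κ 0 :=
  ⟨fun _ _ _ => rfl, fun _ _ _ _ _ => differentiableOn_const 0, fun _ _ => by simpa, rfl,
    fun _ _ => rfl, fun _ _ => rfl⟩

theorem tm_sum {R : ℕ} {ρ κ : ℝ} {φ : ℕ → Fld → ℂ} (C : ℕ) (h : ∀ i < C, Tm R ρ κ (φ i)) :
    Tm R ρ (C * κ) (∑ i ∈ range C, φ i) := by
  induction C with
  | zero => simpa using tm_zero R ρ le_rfl
  | succ C ih =>
    rw [sum_range_succ, Nat.cast_succ, add_one_mul]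
    exact (ih fun i hi => h i (by omega)).add (h C (by omega))

/-- the ratio of the sizes of two classes -/
def la (v : ℕ) : ℝ := ((LL (ll v) : ℝ) ^ 9)⁻¹

theorem one_le_LL (l : ℕ) : (1 : ℝ) ≤ LL l := by exact_mod_cast LL_pos l

theorem la_pos (v : ℕ) : 0 < la v := by have := one_le_LL (ll v); unfold la; positivity

theorem la_pow_le (v k : ℕ) : la v ^ k ≤ 1 :=
  pow_le_one₀ (la_pos v).le (inv_le_one_of_one_le₀ (one_le_pow₀ (one_le_LL _)))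

theorem la_succ (v : ℕ) : la (v + 1) ≤ la v := by
  have := one_le_LL (ll v)
  refine inv_anti₀ (by positivity) (pow_le_pow_left₀ (by positivity) ?_ _)
  rw [Pv.LL_succ]
  push_cast
  linarith

theorem rk_mono (v : ℕ) {k k' : ℕ} (h : k ≤ k') : rk v k ≤ rk v k' :=
  Nat.mul_le_mul_left _ (Nat.pow_le_pow_right (by norm_num) (Nat.mul_le_mul_left _ h))

theorem rk_succ (v k : ℕ) : rk v k ≤ rk (v + 1) k := by
  unfold rk
  gcongr <;> omega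

theorem rk_zero (v : ℕ) : rk v 0 = v ^ 3 := by simp [rk]

theorem rk_div {v k L : ℕ} (hv : k + 10 ≤ v) (hL : LL (ll v) ≤ L) :
    rk (v + 1) k / L + v ^ 3 / 3 + 4 ≤ rk v (k - 1) := by
  have h1 : v ^ 3 ≤ rk v (k - 1) := (rk_zero v).ge.trans (rk_mono v (Nat.zero_le _))
  have h2 : 10 ^ 3 ≤ v ^ 3 := Nat.pow_le_pow_left (by omega) 3
  have h3 : 3 * rk (v + 1) k ≤ L * rk v (k - 1) := by
    refine le_trans ?_ (Nat.mul_le_mul_right _ hL)
    have h4 : (v + 1) * k + 2 ≤ 2 * v + 1 + v * (k - 1) := by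
      rcases k with _ | k
      · omega
      · rw [Nat.add_sub_cancel]
        nlinarith
    rw [Pv.LL_ll, rk, rk]
    calc _ ≤ 3 * (3 * v ^ 3 * 3 ^ ((v + 1) * k)) := by gcongr; exact cube_succ (by omega)
      _ = v ^ 3 * 3 ^ ((v + 1) * k + 2) := by ring
      _ ≤ v ^ 3 * 3 ^ (2 * v + 1 + v * (k - 1)) := by gcongr; norm_num
      _ = _ := by ring
  have h5 : 3 * (rk (v + 1) k / L) ≤ rk v (k - 1) := by
    refine Nat.le_of_mul_le_mul_left (le_trans ?_ h3) ((LL_pos _).trans_le hL)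
    rw [mul_left_comm]
    exact Nat.mul_le_mul_left _ (Nat.mul_div_le _ _)
  omega

/-- sums of terms of increasing range and decreasing size -/
def Cl (C v : ℕ) (ρ κ : ℝ) (φ : Fld → ℂ) : Prop :=
  ∃ ψ : ℕ → Fld → ℂ, φ = ∑ k ∈ range (C + 1), ψ k ∧ ∀ k ≤ C, Tm (rk v k) ρ (κ * la v ^ k) (ψ k)

variable {C v : ℕ} {ρ ρ' κ κ' : ℝ} {φ φ' : Fld → ℂ}

theorem Cl.tm (h : Cl C v ρ κ φ) (k0 : 0 ≤ κ) : Tm (rk v C) ρ ((C + 1) * κ) φ := by
  obtain ⟨ψ, rfl, h⟩ := h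
  rw [← Nat.cast_succ]
  exact tm_sum _ fun i hi => (h i (by omega)).mono (rk_mono v (by omega))
    (mul_le_of_le_one_right k0 (la_pow_le v i))

theorem Cl.mono (h : Cl C v ρ κ φ) (hk : κ ≤ κ') : Cl C v ρ κ' φ := by
  obtain ⟨ψ, rfl, h⟩ := h
  exact ⟨ψ, rfl, fun k hk' => (h k hk').mono le_rfl
    (mul_le_mul_of_nonneg_right hk (pow_pos (la_pos v) k).le)⟩

theorem Cl.add (h : Cl C v ρ κ φ) (h' : Cl C v ρ κ' φ') : Cl C v ρ (κ + κ') (φ + φ') := by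
  obtain ⟨ψ, rfl, h⟩ := h
  obtain ⟨ψ', rfl, h'⟩ := h'
  exact ⟨ψ + ψ', sum_add_distrib.symm, fun k hk => by
    rw [add_mul]; exact (h k hk).add (h' k hk)⟩

theorem Cl.one {i : ℕ} (hi : i ≤ C) (k0 : 0 ≤ κ) (h : Tm (rk v i) ρ (κ * la v ^ i) φ) :
    Cl C v ρ κ φ := by
  refine ⟨fun k => if k = i then φ else 0, by rw [sum_ite_eq', if_pos (by simp; omega)],
    fun k _ => ?_⟩
  beta_reduce
  split_ifs with hk
  · rwa [hk]
  · exact tm_zero _ _ (mul_nonneg k0 (pow_pos (la_pos v) k).le)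

theorem Cl.low (k0 : 0 ≤ κ) (h : Tm (v ^ 3) ρ κ φ) : Cl C v ρ κ φ :=
  Cl.one (Nat.zero_le _) k0 (by simpa [rk_zero] using h)

theorem Cl.neg (h : Cl C v ρ κ φ) : Cl C v ρ κ (-φ) := by
  obtain ⟨ψ, rfl, h⟩ := h
  exact ⟨-ψ, by simp, fun k hk => by simpa using (tm_zero _ ρ le_rfl).sub (h k hk)⟩

theorem Cl.push {D : Dat} {N : ℕ} (h : Cl C (v + 1) ρ κ φ) (k0 : 0 ≤ κ) (hr : D.r = v ^ 3)
    (hv : C + 10 ≤ v) (L1 : LL (ll v) ≤ LL D.l) (L2 : LL D.l ≤ LL (ll v) ^ 3)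
    (hN : ∀ k ≤ C, rk v k ≤ N ∧ rk (v + 1) k ≤ N)
    (hp : ∀ (a a' : ℕ) (κ' : ℝ) (φ : Fld → ℂ), Tm a ρ κ' φ →
      a / LL D.l + D.r / 3 + 4 ≤ a' → a' ≤ N → a ≤ N →
      Tm a' ρ' ((LL D.l : ℝ) ^ 3 * κ') (D.push a' φ) ∧
      (a ≤ 3 * D.r → Tm a' ρ' ((D.r : ℝ) ^ 11 * κ') (D.push a' φ)) ∧
      ∀ W : Conf, curvG (ρ' / 2) W →
        D.push a' φ (Bx 0 (cC W)) = ∑ x ∈ box D.l, φ (Bx x (D.Us (cC W)))) :
    ∃ φ', Cl C v ρ' ((((v ^ 3 : ℕ) : ℝ) ^ 11 + 1) * κ) φ' ∧ ∀ W : Conf, curvG (ρ' / 2) W →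
      φ' (Bx 0 (cC W)) = ∑ x ∈ box D.l, φ (Bx x (D.Us (cC W))) := by
  obtain ⟨ψ, rfl, h⟩ := h
  have p := fun k (hk : k ≤ C) => hp _ (rk v (k - 1)) _ _ (h k hk)
    (by rw [hr]; exact rk_div (by omega) L1) (hN _ (by omega)).1 (hN _ hk).2
  refine ⟨D.push (rk v (0 - 1)) (ψ 0) + ∑ k ∈ range (C + 1),
    if k < C then D.push (rk v (k + 1 - 1)) (ψ (k + 1)) else 0, ?_, fun W hW => ?_⟩
  · rw [add_mul, one_mul]
    refine (Cl.low (by positivity) ?_).add ⟨_, rfl, fun k hk => ?_⟩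
    · exact ((p 0 (Nat.zero_le _)).2.1 (by rw [hr, rk_zero]; exact cube_succ (by omega))).mono
        (rk_zero v).le (by rw [hr, pow_zero, mul_one])
    · have l0 := la_pos v
      split_ifs with hk'
      · refine (p (k + 1) hk').1.mono le_rfl ?_
        have h1 : (LL D.l : ℝ) ^ 3 * la v ≤ 1 := by
          have := one_le_LL (ll v)
          rw [la, mul_inv_le_iff₀ (by positivity), one_mul, show 9 = 3 * 3 from rfl, pow_mul]
          exact pow_le_pow_left₀ (by positivity) (by exact_mod_cast L2) 3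
        calc _ ≤ (LL D.l : ℝ) ^ 3 * (κ * la v ^ (k + 1)) := by
              have := la_pos (v + 1)
              have := la_succ v
              gcongr
          _ = κ * la v ^ k * ((LL D.l : ℝ) ^ 3 * la v) := by ring
          _ ≤ _ := mul_le_of_le_one_right (by positivity) h1
      · exact tm_zero _ _ (by positivity)
  · rw [sum_range_succ, if_neg (lt_irrefl _), add_zero, sum_ite_of_true fun i hi => mem_range.1 hi]
    simp only [Pi.add_apply, Finset.sum_apply]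
    rw [(p 0 (Nat.zero_le _)).2.2 W hW,
      sum_congr rfl fun i hi => (p (i + 1) (mem_range.1 hi)).2.2 W hW, sum_comm, ← sum_add_distrib]
    exact sum_congr rfl fun x _ => by rw [sum_range_succ', add_comm]

/-- one step maps two sided bounds with data `m`, `ψ` to two sided bounds with data `m'`, `ψ'` -/
def Stp (l K : ℕ) (β β' ε δ δ' er : ℝ) (m m' : BF) (ψ ψ' : Fld → ℂ) : Prop :=
  ∃ e : ℝ, ∀ (E η : ℝ) (n : ℕ) (f fG : Conf → ℝ≥0∞), LL l ^ K ≤ n → GI (LL l * n) f →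
    GI (LL l * n) fG → Sw f fG β δ (LL l * n) E η m ψ →
      Sw (TT l (β * LL l ^ 2) n f) (TG l (β * LL l ^ 2) ε n fG) β' δ' n (LL l ^ 3 * E + e)
        (LL l ^ 3 * η + er) m' ψ' ∧
      ∀ W, Per n W → ¬ curvG δ' W → TG l (β * LL l ^ 2) ε n fG W = 0

theorem lev_step (c : ℕ) : ∃ K : ℕ, 1 ≤ K ∧ ∀ (C v l p : ℕ) (β β' δ δ' ε G κ κ' τ er θ : ℝ) (m : BF)
    (s : V →ₗ[ℝ] V) (φ χ : Fld → ℂ), Num c K C v l p β δ δ' ε G κ κ' τ er → β = LL l * β' →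
    0 ≤ θ → θ ≤ 3 → Lin l (v ^ 3) c τ m s → Rng (3 * v ^ 3) (3 * v ^ 3) m →
    Bd (3 * v ^ 3) (3 * v ^ 3) ((LL l : ℝ) ^ c) m → Cl C (v + 1) (2 * δ) κ φ →
    Cl C (v + 1) (2 * δ) (θ * κ) χ → ∃ φ' χ', Cl C v (2 * δ') κ' φ' ∧
      Cl C v (2 * δ') (θ / 2 * κ') χ' ∧ Stp l K β β' ε δ δ' er m (mr l m s) φ φ' ∧
      Stp l K β β' ε δ δ' er m (mr l m s) (φ + χ) (φ' + χ') := by
  obtain ⟨K1, hpush⟩ := push_tm c
  obtain ⟨K2, hfresh⟩ := fresh_tm c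
  obtain ⟨K3, hstep⟩ := step c
  obtain ⟨K4, hlip⟩ := fresh_lip c
  obtain ⟨K, k1, k2, k3, k4, k5⟩ : ∃ K, K1 ≤ K ∧ K2 ≤ K ∧ K3 ≤ K ∧ K4 ≤ K ∧ 3 ≤ K :=
    ⟨K1 + K2 + K3 + K4 + 3, by omega, by omega, by omega, by omega, by omega⟩
  refine ⟨K, by omega, ?_⟩
  intro C v l p β β' δ δ' ε G κ κ' τ er θ m s φ χ N hβ θ0 θ3 lin rng bd hφ hχ
  set L : ℝ := ((LL l : ℕ) : ℝ) with hL
  have L2 : 1 ≤ L := one_le_LL l
  have b1 := N.b1
  have b0 : 0 < β := zero_lt_one.trans_le b1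
  have d0 := N.d0
  have d1 := N.d1
  have κ0 := N.k0
  have τ0 := N.t0
  have Lp : ∀ a ≤ K, ∀ x, 0 ≤ x → L ^ a * x ≤ L ^ K * x := fun a ha x hx =>
    mul_le_mul_of_nonneg_right (pow_le_pow_right₀ L2 ha) hx
  have sq : 0 < √(2 * β * L ^ (c + 1)) := Real.sqrt_pos.2 (by positivity)
  have G0 : 0 < G := pos_of_mul_pos_right (a := √(2 * β * L ^ (c + 1)))
    (by rw [mul_comm]; exact zero_lt_one.trans_le N.z1) sq.le
  have κ1 : 0 ≤ κ' := le_trans (by positivity) N.ka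
  have l0 := pow_pos (la_pos v) C
  set κs := 4 * ((C : ℝ) + 1) * κ with hκs
  set ds := 3 * (rk v C : ℝ) * (2 * δ') with hds
  let D : (Fld → ℂ) → Dat := fun ψ => ⟨l, v ^ 3, β, m, s, ψ, L ^ (c + 1), LL l ^ (2 * c + 4),
    G * √(2 * β * L ^ (c + 1)),
    p * (2 * (rk (v + 1) C / LL l + 4 * LL l ^ (2 * c + 4) + v ^ 3 + 10) + 1)⟩
  have gz : ∀ ψ, (D ψ).g * (D ψ).ζ = G := fun ψ => by
    rw [Dat.g, mul_left_comm, inv_mul_cancel₀ sq.ne', mul_one]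
  have rb : ∀ ψ, (D ψ).Rb + (D ψ).Rs (rk (v + 1) C) + 2 ≤ rk v C := fun ψ =>
    le_trans (le_of_eq (by simp only [D, Dat.Rs]; ring)) N.rb
  have hN : ∀ k ≤ C, rk v k ≤ LL l ^ (12 * c + 30) ∧ rk (v + 1) k ≤ LL l ^ (12 * c + 30) :=
    fun k hk => ⟨(rk_succ v k).trans ((rk_mono _ hk).trans N.rad), (rk_mono _ hk).trans N.rad⟩
  have ok : ∀ ψ, Tm (rk (v + 1) C) (2 * δ) κs ψ → (D ψ).Ok c τ (rk (v + 1) C) (2 * δ) κs :=
    fun ψ hψ =>
    { lin := lin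
      m_rng := rng
      m_bd := bd
      m_gauge := fun u b => ⟨lin.gauge u b, (lin.symm _ _).trans (lin.gauge u b)⟩
      psi := hψ
      lam := rfl
      num := rfl
      r_ge := Nat.pow_le_pow_left (show 10 ≤ v by have := N.v1; omega) 3
      r_le := N.r2
      beta := b1
      rad := N.rad
      radb := (Nat.le_of_add_right_le (Nat.le_of_add_right_le (rb ψ))).trans (hN C le_rfl).1
      zeta := N.z1
      tau := τ0
      rho := by positivity }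
  have t0 : ∀ ψ, ∀ a ≤ K, (D ψ).th0 a τ (2 * δ) (2 * δ') κs ds + L ^ a * (2 * δ') ≤
      κ' * la v ^ C / 40 := fun ψ a ha => by
    rw [Dat.th0, gz, ← mul_add]
    exact (Lp a ha _ (by positivity)).trans N.th
  have t00 : ∀ ψ a, 0 ≤ (D ψ).th0 a τ (2 * δ) (2 * δ') κs ds := fun ψ a => by
    rw [Dat.th0, gz]
    show 0 ≤ L ^ a * (β * _ + β * _ * _ * _ + _ + _)
    positivity
  have t1 : ∀ ψ, ∀ a ≤ K,
      (2 * (D ψ).Rb + 1) ^ 3 * (D ψ).th0 a τ (2 * δ) (2 * δ') κs ds ≤ 1 / 100 := fun ψ a ha => by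
    have h1 : ((D ψ).Rb : ℝ) ≤ rk v C :=
      Nat.cast_le.2 (Nat.le_of_add_right_le (Nat.le_of_add_right_le (rb ψ)))
    have h2 : (D ψ).th0 a τ (2 * δ) (2 * δ') κs ds ≤ κ' / 40 := by
      have := t0 ψ a ha
      have := mul_le_of_le_one_right κ1 (la_pow_le v C)
      have : 0 ≤ L ^ a * (2 * δ') := by positivity
      linarith
    have h3 := mul_le_mul (pow_le_pow_left₀ (by positivity)
      (show 2 * ((D ψ).Rb : ℝ) + 1 ≤ 2 * rk v C + 1 by linarith) 3) h2 (t00 ψ a) (by positivity)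
    linarith [N.th2]
  have ρ0 : 0 < 2 * δ' := by positivity
  have s0 : 2 * δ' ≤ √L * (2 * δ) := by linarith [N.s0]
  have s1 : ∀ a ≤ K, L ^ a * (2 * δ') ≤ 1 := fun a ha => (Lp a ha _ ρ0.le).trans N.s1
  have s3 : ∀ a ≤ K, L ^ a * (2 * δ') ^ 2 ≤ δ := fun a ha => (Lp a ha _ (by positivity)).trans N.s3
  have s4 : ∀ ψ, ∀ a ≤ K, L ^ a * ((D ψ).g * (D ψ).ζ) ≤ δ := fun ψ a ha => by
    rw [gz]; exact (Lp a ha _ G0.le).trans N.s4
  have s5 : ∀ ψ, ∀ a ≤ K, L ^ a * ((D ψ).g * (D ψ).ζ) ≤ δ' := fun ψ a ha => by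
    rw [gz]; exact (Lp a ha _ G0.le).trans N.s5
  have dd : δ ≤ 2 * δ := by linarith
  have dd' : δ' ≤ 2 * δ' := by linarith
  have tφ : Tm (rk (v + 1) C) (2 * δ) κs φ := (hφ.tm κ0).mono le_rfl (by
    have : 0 ≤ ((C : ℝ) + 1) * κ := by positivity
    linarith)
  have tχ := hχ.tm (mul_nonneg θ0 κ0)
  have tψ : Tm (rk (v + 1) C) (2 * δ) κs (φ + χ) := ((hφ.tm κ0).add tχ).mono le_rfl (by
    have := mul_le_mul_of_nonneg_right θ3 (show 0 ≤ ((C : ℝ) + 1) * κ by positivity)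
    linarith)
  replace hpush := hpush (D φ) _ τ _ _ (2 * δ') (ok φ tφ) (k1.trans N.Kl) ρ0 (s1 _ k1)
    ((s3 _ k1).trans dd) s0
  obtain ⟨φp, p1, p2⟩ := hφ.push κ0 rfl N.v1 N.L1 N.L2 hN hpush
  obtain ⟨χp, q1, q2⟩ := hχ.push (mul_nonneg θ0 κ0) rfl N.v1 N.L1 N.L2 hN hpush
  have fr := fun ψ hψ => hfresh (D ψ) _ (rk v C) τ _ _ (2 * δ') (ok ψ hψ) (k2.trans N.Kl) (rb ψ)
    (hN C le_rfl).1 ρ0 s0 (s1 _ k2) ((s3 _ k2).trans dd) ((s4 ψ _ k2).trans dd)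
    ((s5 ψ _ k2).trans dd') (t1 ψ _ k2)
  have lip := hlip (D (φ + χ)) _ (rk v C) τ _ _ (2 * δ') (ok _ tψ) (k4.trans N.Kl) (rb _)
    (hN C le_rfl).1 ρ0 s0 (s1 _ k4) ((s3 _ k4).trans dd) ((s4 _ _ k4).trans dd)
    ((s5 _ _ k4).trans dd') (t1 _ _ k4) φ _ tφ (by
      rw [show (D (φ + χ)).ψ - φ = χ from add_sub_cancel_left φ χ]; exact tχ)
  have one : ∀ ψ ψp : Fld → ℂ, Tm (rk (v + 1) C) (2 * δ) κs ψ → (∀ W : Conf, curvG (2 * δ' / 2) W →
      ψp (Bx 0 (cC W)) = ∑ x ∈ box l, ψ (Bx x ((D φ).Us (cC W)))) →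
      Stp l K β β' ε δ δ' er m (mr l m s) ψ (ψp + (D ψ).fresh (rk v C)) := by
    intro ψ ψp hψ hp
    have e0 := N.e0
    obtain ⟨e, he⟩ := hstep (D ψ) _ (rk v C) τ _ _ (2 * δ') (ok ψ hψ) (k3.trans N.Kl) (rb ψ)
      (hN C le_rfl).1 ρ0 s0 (s1 _ k3) ((s3 _ k3).trans dd) ((s4 ψ _ k3).trans dd)
      ((s5 ψ _ k3).trans dd') (t1 ψ _ k3) p ε δ δ' le_rfl le_rfl ((Lp _ k3 _ d0.le).trans N.s2)
      (le_trans (mul_le_mul_of_nonneg_left (pow_le_pow_left₀ d1.le dd' 2) (by positivity))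
        (s3 _ k3)) N.s0 (s4 ψ _ k3) (by rw [gz]; exact (Lp _ k3 _ e0).trans N.s6)
      ((Lp _ k5 _ e0).trans (N.s6.trans ((le_mul_of_one_le_left G0.le (one_le_pow₀ L2)).trans
        N.s5))) e0
    set w := ((D ψ).wt 1 - (D ψ).dt 1).re with hw
    have act1 : ∀ n (W : Conf), curvG δ' W → (D ψ).actN n W =
        act β' (mr l m s) (ψp + (D ψ).fresh (rk v C)) n W + w * n ^ 3 := by
      intro n W hW
      rw [Dat.actN, act, ← Nat.cast_pow, ← card_cube, mul_comm w, ← nsmul_eq_mul, ← sum_const,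
        ← sum_add_distrib]
      refine sum_congr rfl fun y _ => ?_
      have h1 : curvG (2 * δ' / 2) (sh y W) := (hW.sh y).mono (by linarith)
      rw [hw, ← Complex.add_re, Pi.add_apply, Bx_eq y, sh_cC, hp _ h1, ((fr ψ hψ).2 _ h1).1, mr,
        cx_smul]
      congr 1
      show (β : ℂ) * cx (mn l m s) _ _ + ∑ x ∈ box l, ψ (Bx x ((D φ).Us _)) + _ - _ = _
      rw [hβ, hL]
      push_cast
      ring
    refine ⟨e - w, fun E η n f fG hn g1 g2 sw => ?_⟩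
    replace he := he E η n f fG ((Nat.pow_le_pow_right (LL_pos l) k3).trans hn) g1 g2
      (fun U hU h => by simpa only [Nat.cast_mul] using (sw U hU h).1)
      (fun U hU h => by simpa only [Nat.cast_mul] using (sw U hU h).2)
    refine ⟨fun W hW h => ?_, fun W hW h => (he W hW).1 h⟩
    obtain ⟨g3, g4⟩ := (he W hW).2 h
    rw [act1 n W h] at g3 g4
    have h3 := mul_le_mul_of_nonneg_right N.er (show (0 : ℝ) ≤ n ^ 3 by positivity)
    simp only [D, ← hL] at g3 g4 h3 ⊢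
    exact ⟨le_trans (ENNReal.ofReal_le_ofReal (Real.exp_le_exp.2 (by linarith only [h3]))) g3,
      g4.trans (ENNReal.ofReal_le_ofReal (Real.exp_le_exp.2 (by linarith only [h3])))⟩
  refine ⟨φp + (D φ).fresh (rk v C), χp + ((D (φ + χ)).fresh (rk v C) - (D φ).fresh (rk v C)),
    (p1.add (Cl.one (κ := κ' / 4) le_rfl (by positivity) ((fr φ tφ).1.mono le_rfl ?_))).mono ?_,
    (q1.add (Cl.one (κ := θ * κ' / 4) le_rfl (by positivity) (lip.mono le_rfl ?_))).mono ?_,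
    one φ φp tφ p2, ?_⟩
  · have h1 := t0 φ _ k2
    have h2 : 0 ≤ L ^ K2 * (2 * δ') := by positivity
    show 10 * _ + L ^ K2 * _ ≤ _
    linarith only [h1, h2]
  · linarith only [N.ka, κ1]
  · have h1 := t0 φ _ k4
    rw [Dat.th0, gz] at h1
    rw [gz]
    have h2 : L ^ K4 * (κs * (G + ds ^ 2) / (2 * δ)) ≤ κ' * la v ^ C := by
      have h3 : 0 ≤ L ^ K4 * (β * ds ^ 3 + β * τ * (2 * δ') * G + G ^ 2 + 2 * δ') := by positivity
      have h4 : 0 ≤ κ' * la v ^ C := by positivity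
      change L ^ K4 * (β * _ + β * _ * _ * _ + _ + _) + _ ≤ _ at h1
      linarith only [h1, h3, h4]
    refine le_trans (le_of_eq ?_) ((mul_le_mul_of_nonneg_left h2
      (show 0 ≤ θ / 4 by positivity)).trans_eq (by ring))
    show L ^ K4 * _ * _ / _ = _
    rw [hκs]
    ring
  · linarith only [mul_le_mul_of_nonneg_left N.ka θ0]
  · have := one (φ + χ) (φp + χp) tψ fun W hW => by
      rw [Pi.add_apply, p2 W hW, q2 W hW, ← sum_add_distrib]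
      rfl
    convert this using 1
    abel

end Pool.Agent.Lib.MP_7f377f_mp.RG.D3.JC
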