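import Pool.Agent.Lib.MP_7f377f_mp.RGMeasHaar
import Pool.Agent.Lib.MP_7f377f_mp.WeakHaar

/-! Small balls, tails of the noise kernel, the product chart. -/

noncomputable section

namespace Pool.Agent.Lib.MP_7f377f_mp.RG

open MeasureTheory Measure Set
open scoped Quaternion ENNReal

namespace Ms

theorem norm_sub_one_sq (g : S3) : ‖g.q - 1‖ ^ 2 = 2 - 2 * g.q.re := by
  have h := normSq_q g
  rw [Quaternion.normSq_def'] at h
  rw [sq, ← Quaternion.normSq_eq_norm_mul_self, Quaternion.normSq_def']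
  simp
  linarith

theorem norm_im_sq (g : S3) : ‖g.q.im‖ ^ 2 = 1 - g.q.re ^ 2 := by
  have h := normSq_q g
  rw [Quaternion.normSq_def'] at h
  rw [sq, ← Quaternion.normSq_eq_norm_mul_self, Quaternion.normSq_def']
  simp
  linarith

theorem re_le_one (g : S3) : g.q.re ≤ 1 := by
  have := norm_sub_one_sq g
  nlinarith [sq_nonneg ‖g.q - 1‖]

theorem re_conj (u g : S3) : (u * g * u⁻¹).q.re = g.q.re := by
  have h := normSq_q u
  rw [Quaternion.normSq_def'] at h
  rw [q_mul, q_mul, q_inv]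
  simp
  linear_combination g.q.re * h

theorem norm_sub_conj (u g : S3) : ‖(u * g * u⁻¹).q - 1‖ = ‖g.q - 1‖ := by
  rw [← sq_eq_sq₀ (norm_nonneg _) (norm_nonneg _), norm_sub_one_sq, norm_sub_one_sq, re_conj]

theorem norm_im_conj (u g : S3) : ‖(u * g * u⁻¹).q.im‖ = ‖g.q.im‖ := by
  rw [← sq_eq_sq₀ (norm_nonneg _) (norm_nonneg _), norm_im_sq, norm_im_sq, re_conj]

theorem hk_conj (a : ℝ) (u g : S3) : hk a (u * g * u⁻¹) = hk a g := by
  simp only [hk, hk0, re_conj, norm_im_conj]

theorem e0_near (v : E3) : ‖(e0 v).q - 1‖ ≤ ‖v‖ := by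
  rw [← sq_le_sq₀ (norm_nonneg _) (norm_nonneg _), norm_sub_one_sq, e0_q]
  have h0 : (0 : ℝ) < 1 + ‖v‖ ^ 2 := by positivity
  have h1 := Real.sq_sqrt h0.le
  have h2 : 1 ≤ √(1 + ‖v‖ ^ 2) := Real.one_le_sqrt.2 (by nlinarith [sq_nonneg ‖v‖])
  set s := √(1 + ‖v‖ ^ 2)
  have h3 : (s⁻¹ • qm (1, v)).re = s⁻¹ := by simp [qm]
  have h4 : s * s⁻¹ = 1 := mul_inv_cancel₀ (by linarith)
  have h5 : 0 < s⁻¹ := inv_pos.2 (by linarith)
  rw [h3]
  have h6 : 2 - s ≤ s⁻¹ := by
    rw [← mul_le_mul_iff_of_pos_left (a := s) (by linarith), h4]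
    nlinarith [sq_nonneg (s - 1)]
  nlinarith [sq_nonneg (s - 1)]

theorem meas_re : Measurable fun g : S3 => g.q.re :=
  (Quaternion.continuous_re.comp cont_q).measurable

theorem meas_nsub : Measurable fun g : S3 => ‖g.q - 1‖ :=
  (cont_q.sub continuous_const).norm.measurable

theorem meas_hk0 (a : ℝ) : Measurable (hk0 a) := by
  have h1 : Measurable fun g : S3 => ‖g.q.im‖ :=
    (Quaternion.continuous_im.comp cont_q).norm.measurable
  refine Measurable.ite (measurableSet_lt measurable_const meas_re) ?_ measurable_const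
  exact ((((h1.div meas_re).pow_const 2).const_mul a).neg.exp).ennreal_ofReal

theorem meas_hk (a : ℝ) : Measurable (hk a) := (meas_hk0 a).div_const _

end Ms

open Ms

theorem haar_ball : ∃ cB : ℝ, 0 < cB ∧ ∀ δ : ℝ, 0 ≤ δ → δ ≤ 1 →
    ENNReal.ofReal (cB * δ ^ 3) ≤ haar {g : S3 | ‖g.q - 1‖ ≤ δ} := by
  obtain ⟨c, c0, h⟩ := haar_chart
  set b : ℝ≥0∞ := volume (Metric.ball (0 : E3) 1) with hb
  have b0 : b ≠ 0 := (Metric.measure_ball_pos _ _ one_pos).ne'
  have b1 : b ≠ ∞ := measure_ball_lt_top.ne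
  refine ⟨c / 4 * b.toReal, mul_pos (by positivity) (ENNReal.toReal_pos b0 b1), fun δ h0 h1 => ?_⟩
  have hS : MeasurableSet {g : S3 | ‖g.q - 1‖ ≤ δ} := measurableSet_le meas_nsub measurable_const
  have e := h _ (measurable_one.indicator hS) e0 cS_e0
  calc _ = ∫⁻ _ in Metric.closedBall (0 : E3) δ, ENNReal.ofReal (c / 4) := by
        rw [setLIntegral_const, addHaar_closedBall _ _ h0, finrank_euclideanSpace_fin, ← hb,
          ← mul_assoc, ← ENNReal.ofReal_mul (by positivity), mul_right_comm,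
          ENNReal.ofReal_mul (by positivity), ENNReal.ofReal_toReal b1]
    _ ≤ ∫⁻ v, {g : S3 | ‖g.q - 1‖ ≤ δ}.indicator 1 (e0 v) *
          ENNReal.ofReal (c * ((1 + ‖v‖ ^ 2) ^ 2)⁻¹) := by
        rw [← lintegral_indicator Metric.isClosed_closedBall.measurableSet]
        refine lintegral_mono fun v => ?_
        by_cases hv : v ∈ Metric.closedBall (0 : E3) δ
        · have hv' : ‖v‖ ≤ δ := mem_closedBall_zero_iff.1 hv
          rw [indicator_of_mem hv, indicator_of_mem (show e0 v ∈ {g : S3 | ‖g.q - 1‖ ≤ δ} from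
            (e0_near v).trans hv'), Pi.one_apply, one_mul]
          refine ENNReal.ofReal_le_ofReal ?_
          rw [div_eq_mul_inv]
          have : ‖v‖ ^ 2 ≤ 1 := by nlinarith [norm_nonneg v]
          gcongr
          nlinarith [sq_nonneg ‖v‖]
        · rw [indicator_of_notMem hv]
          exact zero_le
    _ ≤ _ := by
        rw [← e, ← lintegral_indicator_one hS]
        exact setLIntegral_le_lintegral _ _

theorem hk_tail : ∃ C : ℝ, ∀ a ε : ℝ, 1 ≤ a → 0 ≤ ε → Measurable (hk a) ∧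
    ∫⁻ g, hk a g ∂haar = 1 ∧ 0 < ∫⁻ g, hk0 a g ∂haar ∧ ∫⁻ g, hk0 a g ∂haar ≤ 1 ∧
    ∫⁻ g in {g : S3 | ε < ‖g.q - 1‖}, hk a g ∂haar ≤
      ENNReal.ofReal (C * a ^ 2 * Real.exp (-(a * ε ^ 2))) := by
  obtain ⟨cB, c0, hB⟩ := haar_ball
  refine ⟨(Real.exp (-4) * cB)⁻¹, fun a ε ha hε => ?_⟩
  have a0 : 0 < a := by linarith
  set δ : ℝ := (√a)⁻¹ with hδ
  have s1 : 1 ≤ √a := Real.one_le_sqrt.2 ha
  have d0 : 0 < δ := inv_pos.2 (by linarith)
  have d1 : δ ≤ 1 := inv_le_one_of_one_le₀ s1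
  have d2 : δ ^ 2 = a⁻¹ := by rw [hδ, inv_pow, Real.sq_sqrt a0.le]
  have hS : MeasurableSet {g : S3 | ‖g.q - 1‖ ≤ δ} := measurableSet_le meas_nsub measurable_const
  set m : ℝ := Real.exp (-4) * cB * (a ^ 2)⁻¹ with hm
  have m0 : 0 < m := by positivity
  have low : ENNReal.ofReal m ≤ ∫⁻ g, hk0 a g ∂haar := by
    calc ENNReal.ofReal m ≤ ENNReal.ofReal (Real.exp (-4)) * ENNReal.ofReal (cB * δ ^ 3) := by
          rw [← ENNReal.ofReal_mul (by positivity), hm, mul_assoc]
          refine ENNReal.ofReal_le_ofReal ?_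
          gcongr
          rw [← inv_pow, ← d2, ← pow_mul]
          exact pow_le_pow_of_le_one d0.le d1 (by norm_num)
      _ ≤ ∫⁻ _ in {g : S3 | ‖g.q - 1‖ ≤ δ}, ENNReal.ofReal (Real.exp (-4)) ∂haar := by
          rw [setLIntegral_const]
          gcongr
          exact hB δ d0.le d1
      _ ≤ ∫⁻ g in {g : S3 | ‖g.q - 1‖ ≤ δ}, hk0 a g ∂haar := by
          refine setLIntegral_mono' hS fun g hg => ?_
          have h1 : ‖g.q - 1‖ ^ 2 ≤ δ ^ 2 := pow_le_pow_left₀ (norm_nonneg _) hg 2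
          rw [norm_sub_one_sq] at h1
          have h2 : δ ^ 2 ≤ 1 := by nlinarith
          have h3 : 1 / 2 ≤ g.q.re := by linarith
          have h4 := re_le_one g
          rw [hk0, if_pos (by linarith)]
          refine ENNReal.ofReal_le_ofReal (Real.exp_le_exp.2 (neg_le_neg ?_))
          have h5 : (‖g.q.im‖ / g.q.re) ^ 2 ≤ 4 * a⁻¹ := by
            rw [div_pow, norm_im_sq, div_le_iff₀ (by positivity), ← d2]
            have : 1 / 4 ≤ g.q.re ^ 2 := by nlinarith
            nlinarith [sq_nonneg δ, sq_nonneg (1 - g.q.re)]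
          calc _ ≤ a * (4 * a⁻¹) := by gcongr
            _ = 4 := by field_simp
      _ ≤ _ := setLIntegral_le_lintegral _ _
  have pos : 0 < ∫⁻ g, hk0 a g ∂haar := (ENNReal.ofReal_pos.2 m0).trans_le low
  have le1 : ∫⁻ g, hk0 a g ∂haar ≤ 1 := by
    refine (lintegral_mono (g := fun _ => 1) fun g => ?_).trans (by simp)
    rw [hk0]
    split_ifs
    · exact ENNReal.ofReal_le_one.2 (Real.exp_le_one_iff.2 (neg_nonpos.2 (by positivity)))
    · exact zero_le
  have fin : ∫⁻ g, hk0 a g ∂haar ≠ ∞ := (le1.trans_lt ENNReal.one_lt_top).ne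
  refine ⟨meas_hk a, ?_, pos, le1, ?_⟩
  · simp only [hk, div_eq_mul_inv]
    rw [lintegral_mul_const _ (meas_hk0 a), ENNReal.mul_inv_cancel pos.ne' fin]
  · have hT : MeasurableSet {g : S3 | ε < ‖g.q - 1‖} := measurableSet_lt measurable_const meas_nsub
    calc _ ≤ ∫⁻ _ in {g : S3 | ε < ‖g.q - 1‖},
          ENNReal.ofReal (Real.exp (-(a * ε ^ 2))) / ENNReal.ofReal m ∂haar := by
          refine setLIntegral_mono' hT fun g hg => ENNReal.div_le_div ?_ low
          rw [hk0]
          split_ifs with h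
          · refine ENNReal.ofReal_le_ofReal (Real.exp_le_exp.2 (neg_le_neg ?_))
            have h1 : ε ^ 2 ≤ ‖g.q - 1‖ ^ 2 := pow_le_pow_left₀ hε (le_of_lt hg) 2
            rw [norm_sub_one_sq] at h1
            have h4 := re_le_one g
            refine mul_le_mul_of_nonneg_left (h1.trans ?_) a0.le
            rw [div_pow, norm_im_sq, le_div_iff₀ (by positivity)]
            have : 0 ≤ (1 - g.q.re) * ((1 - g.q.re) * (1 + 2 * g.q.re)) := by
              have : 0 ≤ 1 - g.q.re := by linarith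
              positivity
            nlinarith
          · exact zero_le
      _ ≤ ENNReal.ofReal (Real.exp (-(a * ε ^ 2))) / ENNReal.ofReal m := by
          rw [setLIntegral_const]
          exact mul_le_of_le_one_right zero_le prob_le_one
      _ = _ := by
          rw [← ENNReal.ofReal_div_of_pos m0, hm]
          congr 1
          field_simp

namespace Ms

theorem lint_fin_prod {n : ℕ} {E : Fin n → Type} {mE : ∀ i, MeasurableSpace (E i)}
    {μ : (i : Fin n) → Measure (E i)} [∀ i, SigmaFinite (μ i)] (f : (i : Fin n) → E i → ℝ≥0∞)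
    (hf : ∀ i, Measurable (f i)) :
    ∫⁻ x : (i : Fin n) → E i, ∏ i, f i (x i) ∂(Measure.pi μ) = ∏ i, ∫⁻ x, f i x ∂(μ i) := by
  induction n with
  | zero => simp
  | succ n ih =>
    rw [Fin.prod_univ_succ, ← ih _ fun i => hf _, ← lintegral_prod_mul (hf 0).aemeasurable
      (g := fun x : (i : Fin n) → E i.succ => ∏ i, f i.succ (x i))
      (Finset.measurable_fun_prod _ fun i _ => (hf _).comp (measurable_pi_apply i)).aemeasurable,
      ((measurePreserving_piFinSuccAbove μ 0).symm).lintegral_map_equiv]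
    refine lintegral_congr fun x => ?_
    rw [Fin.prod_univ_succ]
    rfl

theorem lint_pi_prod {ι : Type} [Fintype ι] {E : ι → Type} {mE : ∀ i, MeasurableSpace (E i)}
    {μ : (i : ι) → Measure (E i)} [∀ i, SigmaFinite (μ i)] (f : (i : ι) → E i → ℝ≥0∞)
    (hf : ∀ i, Measurable (f i)) :
    ∫⁻ x : (i : ι) → E i, ∏ i, f i (x i) ∂(Measure.pi μ) = ∏ i, ∫⁻ x, f i x ∂(μ i) := by
  let e := (Fintype.equivFin ι).symm
  rw [(measurePreserving_piCongrLeft _ e).lintegral_map_equiv]
  simp_rw [← e.prod_comp, MeasurableEquiv.coe_piCongrLeft, Equiv.piCongrLeft_apply_apply]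
  exact lint_fin_prod _ fun i => hf _

theorem pi_dens {ι X : Type} [Fintype ι] [MeasurableSpace X] (m : Measure X) [SigmaFinite m]
    {f : ι → X → ℝ≥0∞} (hf : ∀ e, Measurable (f e)) [∀ e, SigmaFinite (m.withDensity (f e))] :
    (Measure.pi fun e => m.withDensity (f e)) =
      (Measure.pi fun _ : ι => m).withDensity fun a => ∏ e, f e (a e) := by
  refine Measure.pi_eq fun s hs => ?_
  rw [withDensity_apply _ (MeasurableSet.univ_pi hs), restrict_pi_pi, lint_pi_prod _ hf]
  simp only [fun e => withDensity_apply (μ := m) (f e) (hs e)]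

instance haar_right : haar.IsMulRightInvariant := Weak.haar_right haar

end Ms

/-- change of variables from the links to the fluctuation variables -/
theorem chart_change : ∃ cH : ℝ, 0 < cH ∧ ∀ {ι : Type} [Fintype ι] (b : ι → S3) (e : E3 → S3),
    (∀ v, cS (e v) = ex (cE v)) → ∀ (P : (ι → E3) →ₗ[ℝ] (ι → E3)), 0 < LinearMap.det P →
    ∀ F : (ι → S3) → ℝ≥0∞, Measurable F →
      ∫⁻ u in {u : ι → S3 | ∀ i, 0 < (u i * (b i)⁻¹).q.re}, F u ∂(Measure.pi fun _ => haar) =
        ∫⁻ z : ι → E3, F (fun i => e (P z i) * b i) * ENNReal.ofReal (LinearMap.det P *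
          ∏ i, cH * ((1 + ‖P z i‖ ^ 2) ^ 2)⁻¹) := by
  obtain ⟨c, c0, h⟩ := haar_chart
  refine ⟨c, c0, fun {ι} _ b e he P hP F hF => ?_⟩
  rw [eq_e0 he]
  have hp := isOpen_pos.measurableSet
  have mex := continuous_e0.measurable
  set d : E3 → ℝ≥0∞ := fun v => ENNReal.ofReal (c * ((1 + ‖v‖ ^ 2) ^ 2)⁻¹) with hd
  have md : Measurable d := by rw [hd]; fun_prop
  have h1 : MeasurePreserving e0 ((volume : Measure E3).withDensity d) (haar.restrict pos) := by
    refine ⟨mex, Measure.ext fun s hs => ?_⟩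
    rw [map_apply mex hs, ← lintegral_indicator_one hs, withDensity_apply _ (mex hs),
      ← lintegral_indicator (mex hs)]
    refine Eq.trans ?_ (h _ (measurable_one.indicator hs) e0 cS_e0).symm
    refine lintegral_congr fun a => ?_
    by_cases ha : e0 a ∈ s <;> simp [indicator, ha, hd]
  have : IsFiniteMeasure ((volume : Measure E3).withDensity d) :=
    ⟨(h1.measure_preimage (s := univ) MeasurableSet.univ.nullMeasurableSet).trans_lt
      (measure_lt_top _ _)⟩
  have h2 := measurePreserving_pi (fun _ : ι => _) (fun _ => _) fun _ => h1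
  have h3 := measurePreserving_pi (fun _ : ι => haar) (fun _ => haar)
    fun i => measurePreserving_mul_right haar (b i)
  have hS : MeasurableSet {u : ι → S3 | ∀ i, 0 < (u i * (b i)⁻¹).q.re} := by
    rw [ofPred_forall]
    refine MeasurableSet.iInter fun i => ?_
    have m1 : Measurable fun u : ι → S3 => u i * (b i)⁻¹ := (measurable_pi_apply i).mul_const _
    exact m1 hp
  have e1 : (fun (a : ι → S3) i => a i * b i) ⁻¹' {u : ι → S3 | ∀ i, 0 < (u i * (b i)⁻¹).q.re} =
      Set.pi univ fun _ => pos := by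
    ext U
    simp [pos]
  have mD : Measurable fun a : ι → E3 => ∏ i, d (a i) :=
    Finset.measurable_fun_prod _ fun i _ => md.comp (measurable_pi_apply i)
  have mF : Measurable fun a : ι → E3 => F fun i => e0 (a i) * b i :=
    (hF.comp h3.measurable).comp h2.measurable
  have mP : Measurable P := (LinearMap.continuous_of_finiteDimensional P).measurable
  have hG := lintegral_map (μ := (volume : Measure (ι → E3))) (mD.mul mF) mP
  rw [map_linearMap_addHaar_eq_smul_addHaar _ hP.ne', lintegral_smul_measure, smul_eq_mul] at hG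
  rw [← h3.setLIntegral_comp_preimage hS hF, e1, restrict_pi_pi,
    ← h2.lintegral_comp (f := fun a => F fun i => a i * b i) (hF.comp h3.measurable),
    pi_dens _ fun _ => md, lintegral_withDensity_eq_lintegral_mul _ mD mF, ← volume_pi]
  have e2 : ∀ z : ι → E3, F (fun i => e0 (P z i) * b i) * ENNReal.ofReal (LinearMap.det P *
      ∏ i, c * ((1 + ‖P z i‖ ^ 2) ^ 2)⁻¹) = ENNReal.ofReal (LinearMap.det P) *
        ((∏ i, d (P z i)) * F fun i => e0 (P z i) * b i) := by
    intro z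
    rw [ENNReal.ofReal_mul hP.le, ENNReal.ofReal_prod_of_nonneg fun i _ => by positivity]
    ring
  simp only [e2]
  rw [lintegral_const_mul' _ _ ENNReal.ofReal_ne_top]
  refine Eq.trans ?_ (congrArg _ hG)
  rw [← mul_assoc, ← ENNReal.ofReal_mul hP.le, abs_of_pos (inv_pos.2 hP), mul_inv_cancel₀ hP.ne',
    ENNReal.ofReal_one, one_mul]

end Pool.Agent.Lib.MP_7f377f_mp.RG
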