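import Pool.Agent.Lib.MP_7f377f_mp.R3LvC
import Pool.Agent.Lib.MP_7f377f_mp.R3MeasRho
import Pool.Agent.Lib.MP_7f377f_mp.R3Hol2
import Pool.Agent.Lib.MP_7f377f_mp.RGMeasKer

/-! The induction over the levels and the comparison of two runs. -/

noncomputable section

namespace Pool.Agent.Lib.MP_7f377f_mp.RG.D3.JC

open Finset MeasureTheory
open scoped Quaternion ENNReal Pointwise
open D3.Pv (sz sz_succ bq_eq aq_eq nn_pos nn_succ LL_succ)

attribute [local irreducible] box lbox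

/-- the numerical conditions of the steps hold at all high levels -/
def NumMain : Prop := ∀ c K a : ℕ, 1 ≤ c → ∃ b0 : ℕ, ∀ b ≥ b0, ∀ γ > (0 : ℝ), ∃ j0 : ℕ, ∀ v ≥ j0,
  ∀ l,  LL (ll v) ≤ LL l → LL l ≤ LL (ll v) ^ 3 →
    Num c K (12 * c + 26) v l (10 * v ^ 2) (γ * (LL l * nn v)) (dl b (v + 1) (γ * (LL l * nn v)))
      (dl b v (γ * nn v)) (dl a (v + 1) (γ * (LL l * nn v)))
      (dl (a + 3 * K) (v + 1) (γ * (LL l * nn v))) (kp (γ * (LL l * nn v))) (kp (γ * nn v))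
      (tauq c (LL l) v) (2⁻¹ ^ v / (nn v : ℝ) ^ 3)

/-- the numerical conditions of the levels hold at all high levels -/
def NumTop : Prop := ∀ (C K K2 cb a b : ℕ) (cB : ℝ), K2 + 1 ≤ a → a ≤ b →
  ∀ γ > (0 : ℝ), ∃ j0 : ℕ, ∀ w ≥ j0, ∀ β, γ * nn w ≤ β → β ≤ γ * nn w * LL (ll w) ^ 2 →
    Top C K K2 cb w cB β (dl b w β) (dl a w β) (kp β)

/-- smallest admissible side of the torus after `i` steps -/
def MM (K J i : ℕ) : ℕ := if i = 0 then 27 else LL (ll (J + 1 - i)) ^ (3 * K)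

/-- the invariant of a run after `i` steps -/
def Run (K : ℕ) (γ : ℝ) (a b J l i : ℕ) (m : BF) (φ : Fld → ℂ) : Prop :=
  ∃ E η : ℝ, 0 ≤ η ∧ η * (sz J l i : ℝ) ^ 3 ≤ 2 * 2⁻¹ ^ (J + 1 - i) ∧ ∀ n, MM K J i ≤ n →
    Sw (rr γ J l i n) (rG γ a J l i n) (bq γ J l i) (dl b (J + 1 - i) (bq γ J l i)) n E η m φ ∧
    ∀ U, Per n U → ¬ curvG (dl b (J + 1 - i) (bq γ J l i)) U → rG γ a J l i n U ≤
      if i = 0 then ENNReal.ofReal (Real.exp (E * n ^ 3 -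
        bq γ J l i * (dl b (J + 1 - i) (bq γ J l i) ^ 2 / 2))) else 0

variable {K a b J l i v : ℕ} {γ : ℝ} {m m' : BF} {φ φ' : Fld → ℂ}

theorem MM_pos (K J i : ℕ) : 0 < MM K J i := by
  unfold MM
  split_ifs
  exacts [by norm_num, pow_pos (LL_pos _) _]

theorem bq_succ (γ : ℝ) (l : ℕ) (h : v + i = J) : bq γ J l (i + 1) = γ * nn v := by
  rw [bq, if_neg i.succ_ne_zero, show J + 1 - (i + 1) = v by omega]

theorem bq_lq (γ : ℝ) (l : ℕ) (h : v + i = J) : bq γ J l i = γ * (LL (lq J l i) * nn v) := by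
  rw [bq_eq, sz_succ (by omega), show J - i = v by omega, Nat.cast_mul]

theorem bq_bd (hγ : 0 < γ) (hA : Adm J l) {w : ℕ} (h : w + i = J + 1) (hw : 1 ≤ w) :
    γ * nn w ≤ bq γ J l i ∧ bq γ J l i ≤ γ * nn w * LL (ll w) ^ 2 := by
  obtain ⟨v, rfl⟩ : ∃ v, w = v + 1 := ⟨w - 1, by omega⟩
  obtain ⟨h1, h2⟩ := lq_bd hA (show v + i = J by omega)
  have h3 : LL (lq J l i) * nn v ≤ nn (v + 1) * LL (ll (v + 1)) ^ 2 := by
    rw [nn_succ, LL_succ]
    refine (Nat.mul_le_mul_right _ h2).trans ?_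
    calc _ = LL (ll v) * nn v * LL (ll v) ^ 2 := by ring
      _ ≤ _ := Nat.mul_le_mul_left _ (Nat.pow_le_pow_left (by omega) 2)
  rw [bq_lq γ l (show v + i = J by omega), mul_assoc]
  refine ⟨mul_le_mul_of_nonneg_left ?_ hγ.le, mul_le_mul_of_nonneg_left ?_ hγ.le⟩
  · rw [nn_succ]
    exact_mod_cast Nat.mul_le_mul_right _ h1
  · exact_mod_cast h3

theorem Run.zero (b0 : 0 ≤ bq γ J l 0) (d0 : 0 ≤ dl b (J + 1) (bq γ J l 0))
    (d1 : 2000 * dl b (J + 1) (bq γ J l 0) ≤ 1) : Run K γ a b J l 0 m0 (phi0 (bq γ J l 0)) := by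
  refine ⟨6 * bq γ J l 0, 0, le_rfl, by rw [zero_mul]; positivity, fun n hn =>
    ⟨fun U _ h => ?_, fun U hU h => ?_⟩⟩
  · rw [act_zero _ n h d1]
    constructor <;> exact ENNReal.ofReal_le_ofReal (Real.exp_le_exp.2 (by linarith))
  · have := mul_le_mul_of_nonneg_left (wil_bad ((MM_pos _ _ _).trans_le hn) d0 hU h) b0
    exact ENNReal.ofReal_le_ofReal (Real.exp_le_exp.2 (by rw [Nat.sub_zero]; linarith))

theorem Run.step (h : Run K γ a b J l i m φ) (hA : Adm J l) (hv : v + i = J) (K1 : 1 ≤ K)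
    (h9 : 9 ^ (3 * K) ≤ LL (ll v)) {β : ℝ} (hβ : β = bq γ J l i)
    (hs : Stp (lq J l i) K β (γ * nn v) (dl a (v + 1) β) (dl b (v + 1) β) (dl b v (γ * nn v))
      (2⁻¹ ^ v / (nn v : ℝ) ^ 3) m m' φ φ') : Run K γ a b J l (i + 1) m' φ' := by
  obtain ⟨E, η, η0, η1, h⟩ := h
  obtain ⟨e, he⟩ := hs
  obtain ⟨l1, l2⟩ := lq_bd hA hv
  have e1 : J + 1 - i = v + 1 := by omega
  have e2 : J + 1 - (i + 1) = v := by omega
  have n0 : (0 : ℝ) < nn v := by exact_mod_cast nn_pos v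
  rw [e1, ← hβ] at h
  rw [e1, sz_succ (by omega), show J - i = v by omega] at η1
  refine ⟨LL (lq J l i) ^ 3 * E + e, LL (lq J l i) ^ 3 * η + 2⁻¹ ^ v / (nn v : ℝ) ^ 3,
    by positivity, ?_, fun n hn => ?_⟩
  · rw [sz, if_neg i.succ_ne_zero, e2, add_mul, div_mul_cancel₀ _ (by positivity)]
    rw [pow_succ 2⁻¹, Nat.cast_mul, mul_pow] at η1
    linarith
  · rw [MM, if_neg i.succ_ne_zero, e2] at hn
    have n1 : MM K J i ≤ LL (lq J l i) * n := by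
      refine le_trans ?_ (Nat.mul_le_mul (h9.trans l1) hn)
      rw [← mul_pow, ← LL_succ, MM, e1]
      split_ifs
      · refine le_trans ?_ (Nat.pow_le_pow_right (LL_pos _) (show 3 ≤ 3 * K by omega))
        rw [LL_succ]
        exact Nat.pow_le_pow_left (show 3 ≤ 9 * LL (ll v) by have := LL_pos (ll v); omega) 3
      · exact le_rfl
    have := he E η n _ _ (((Nat.pow_le_pow_left l2 K).trans_eq (pow_mul _ _ _).symm).trans hn)
      (GI_rho _ _ (ep γ a J l) _ i _).1 (GI_rho _ _ (ep γ a J l) _ i _).2 (h _ n1).1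
    rw [e2, bq_succ γ l hv, if_neg i.succ_ne_zero]
    have e3 : aq γ J l i = β * LL (lq J l i) ^ 2 := by rw [aq_eq γ (by omega), hβ, bq_eq]
    have e4 : ep γ a J l i = dl a (v + 1) β := by rw [ep, e1, hβ, dl]
    rw [← e3, ← e4] at this
    exact ⟨this.1, fun U hU hc => (this.2 U hU hc).le⟩

theorem Run.switch (h : Run K γ a b J l i m φ) (m' : BF) : Run K γ a b J l i m'
    (φ + fun B => bq γ J l i * cx m B B - bq γ J l i * cx m' B B) := by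
  obtain ⟨E, η, η0, η1, h⟩ := h
  refine ⟨E, η, η0, η1, fun n hn => ⟨fun U hU hc => ?_, (h n hn).2⟩⟩
  convert (h n hn).1 U hU hc using 5 <;>
    exact sum_congr rfl fun x _ => congrArg Complex.re (by simp only [Pi.add_apply]; ring)

theorem core (hN : NumMain) (hT : NumTop) : ∃ (C K : ℕ) (M : ℕ → ℕ → ℕ → BF), ∀ a ≥ 1, ∃ b ≥ a + 1,
    ∀ γ > 0, ∃ j0 : ℕ, (∀ J l, Adm J l → ∀ i w, j0 ≤ w → w + i = J + 1 →
      (∃ n, Inv n (w ^ 3) 3 1 (M J l i)) ∧ ∃ φ, Cl C w (2 * dl b w (bq γ J l i)) (kp (bq γ J l i)) φ ∧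
        Run K γ a b J l i (M J l i) φ) ∧
    ∀ j ≥ j0, ∀ θ > 0, ∃ J0, j ≤ J0 ∧ ∀ J l J' l', J0 ≤ J → J0 ≤ J' → Adm J l → Adm J' l' → ∃ m φ χ,
      Cl C j (2 * dl b j (γ * nn j)) θ χ ∧ Run K γ a b J l (J + 1 - j) m φ ∧
        Run K γ a b J' l' (J' + 1 - j) m (φ + χ) := by
  obtain ⟨c, c1, M, S, j1, hM, hD⟩ := lin_chain
  obtain ⟨K, K1, hS⟩ := lev_step c
  refine ⟨12 * c + 26, K, M, fun a ha => ?_⟩
  obtain ⟨b0, hb⟩ := hN c K a c1
  refine ⟨b0 + a + 1, by omega, fun γ hγ => ?_⟩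
  obtain ⟨j2, h2⟩ := hb (b0 + a + 1) (by omega) γ hγ
  obtain ⟨j3, h3⟩ := hT (12 * c + 26) (3 * K) 0 0 a (b0 + a + 1) 1 ha (by omega) γ hγ
  generalize b0 + a + 1 = b at h2 h3 ⊢
  generalize 12 * c + 26 = C at h2 h3 ⊢
  have t0 : ∀ w ≥ j3, Top C (3 * K) 0 0 w 1 (γ * nn w) (dl b w (γ * nn w)) (dl a w (γ * nn w))
      (kp (γ * nn w)) := fun w hw => h3 w hw _ le_rfl
    (le_mul_of_one_le_right (by positivity) (one_le_pow₀ (one_le_LL _)))
  have stp : ∀ J l, Adm J l → ∀ i v, j1 + j2 + j3 + 1 ≤ v → v + i = J → ∀ (θ β : ℝ) φ χ,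
      β = bq γ J l i → 0 ≤ θ →
      θ ≤ 3 → Cl C (v + 1) (2 * dl b (v + 1) β) (kp β) φ →
      Cl C (v + 1) (2 * dl b (v + 1) β) (θ * kp β) χ → ∃ φ' χ',
        Cl C v (2 * dl b v (γ * nn v)) (kp (γ * nn v)) φ' ∧
        Cl C v (2 * dl b v (γ * nn v)) (θ / 2 * kp (γ * nn v)) χ' ∧
        Stp (lq J l i) K β (γ * nn v) (dl a (v + 1) β) (dl b (v + 1) β) (dl b v (γ * nn v))
          (2⁻¹ ^ v / (nn v : ℝ) ^ 3) (M J l i) (M J l (i + 1)) φ φ' ∧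
        Stp (lq J l i) K β (γ * nn v) (dl a (v + 1) β) (dl b (v + 1) β) (dl b v (γ * nn v))
          (2⁻¹ ^ v / (nn v : ℝ) ^ 3) (M J l i) (M J l (i + 1)) (φ + χ) (φ' + χ') := by
    intro J l hA i v hv hJ θ β φ χ hβ θ0 θ3 hφ hχ
    obtain ⟨l1, l2⟩ := lq_bd hA hJ
    obtain ⟨m1, m2, ⟨_, m3⟩, m4, -⟩ := (hM J l hA).2 i v (by omega) hJ
    rw [bq_lq γ l hJ] at hβ
    rw [m2]
    subst hβ
    exact hS _ _ _ _ _ _ _ _ _ _ _ _ _ _ θ _ _ φ χ (h2 v (by omega) _ l1 l2) (by ring) θ0 θ3 m1 m3.rng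
      m4 hφ hχ
  have inv : ∀ J l, Adm J l → ∀ i w, j1 + j2 + j3 + 1 ≤ w → w + i = J + 1 →
      ∃ n, Inv n (w ^ 3) 3 1 (M J l i) := fun J l hA i w hw hJ => by
    rcases i with _ | i
    · rw [(hM J l hA).1]
      exact ⟨0, inv_mono (inv_zero _ (Nat.one_le_pow _ _ (by omega))) le_rfl (by norm_num)
        (by norm_num)⟩
    · exact ((hM J l hA).2 i w (by omega) (by omega)).2.2.2.2
  have all : ∀ J l, Adm J l → ∀ i w, j1 + j2 + j3 + 1 ≤ w → w + i = J + 1 →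
      ∃ φ, Cl C w (2 * dl b w (bq γ J l i)) (kp (bq γ J l i)) φ ∧
        Run K γ a b J l i (M J l i) φ := fun J l hA i => by
    induction i with
    | zero =>
      intro w hw hJ
      obtain ⟨g1, g2⟩ := bq_bd hγ hA hJ (by omega)
      have T := h3 w (by omega) _ g1 g2
      obtain rfl : w = J + 1 := hJ
      have b0 := zero_le_one.trans T.b1
      rw [(hM J l hA).1]
      exact ⟨_, Cl.low T.k0.le ((phi0_tm b0 T.z1 (Nat.one_le_pow _ _ (by omega))).mono le_rfl T.z2),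
        Run.zero b0 T.d0.le (by linarith [T.z1, T.d0])⟩
    | succ i ih =>
      intro w hw hJ
      obtain ⟨φ, p1, p2⟩ := ih (w + 1) (by omega) (by omega)
      obtain ⟨φ', -, q1, -, q2, -⟩ := stp J l hA i w hw (by omega) 0 _ φ 0 rfl le_rfl (by norm_num) p1
        (Cl.low (by simp) (tm_zero _ _ (by simp)))
      rw [bq_succ γ l (show w + i = J by omega)]
      exact ⟨φ', q1, p2.step hA (by omega) K1 (t0 w (by omega)).m2 rfl q2⟩
  refine ⟨j1 + j2 + j3 + 1, fun J l hA i w hw hJ => ⟨inv J l hA i w hw hJ, all J l hA i w hw hJ⟩,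
    fun j hj θ hθ => ?_⟩
  obtain ⟨j4, h4⟩ := hD 2
  have k0 := (t0 j (by omega)).k0
  obtain ⟨k, hk⟩ := exists_pow_lt_of_lt_one (show 0 < θ / (3 * kp (γ * nn j)) by positivity)
    (show (2⁻¹ : ℝ) < 1 by norm_num)
  obtain ⟨J0, hJ0⟩ := h4 (j + (k + j4)) (by omega)
  refine ⟨J0 + (j + (k + j4)), by omega, fun J l J' l' hJ hJ' hA hA' => ?_⟩
  have bb : ∀ J l w, w ≤ J → bq γ J l (J + 1 - w) = γ * nn w := fun J l w h => by
    rw [show J + 1 - w = J - w + 1 by omega, bq_succ γ l (show w + (J - w) = J by omega)]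
  have key : ∀ t w, w + t = j + (k + j4) → j ≤ w → ∃ φ χ,
      Cl C w (2 * dl b w (γ * nn w)) (kp (γ * nn w)) φ ∧
      Cl C w (2 * dl b w (γ * nn w)) (3 * 2⁻¹ ^ t * kp (γ * nn w)) χ ∧
      Run K γ a b J l (J + 1 - w) (M J l (J + 1 - w)) φ ∧
      Run K γ a b J' l' (J' + 1 - w) (M J l (J + 1 - w)) (φ + χ) := by
    intro t
    induction t with
    | zero =>
      intro w hw hj'
      obtain rfl : w = j + (k + j4) := hw
      generalize j + (k + j4) = w at *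
      obtain ⟨φ, p1, p2⟩ := all J l hA (J + 1 - w) w (by omega) (by omega)
      obtain ⟨φ', q1, q2⟩ := all J' l' hA' (J' + 1 - w) w (by omega) (by omega)
      obtain ⟨_, i1⟩ := inv J l hA (J + 1 - w) w (by omega) (by omega)
      obtain ⟨_, i2⟩ := inv J' l' hA' (J' + 1 - w) w (by omega) (by omega)
      have T := t0 w (by omega)
      have q3 := q2.switch (M J l (J + 1 - w))
      rw [bb J l w (by omega)] at p1
      rw [bb J' l' w (by omega)] at q1 q3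
      have q4 := Cl.low (C := C) T.k0.le ((tm_quad i1.symm i2.symm i1.rng i2.rng
        (hJ0 J l J' l' (by omega) (by omega) hA hA') (zero_le_one.trans T.b1)).mono le_rfl T.q1)
      refine ⟨φ, _, p1, ((q1.add q4.neg).add p1.neg).mono (le_of_eq (by ring)), p2, ?_⟩
      convert q3 using 1
      funext B
      simp only [Pi.add_apply, Pi.neg_apply]
      ring
    | succ t ih =>
      intro w hw hj'
      obtain ⟨φ, χ, p1, p2, p3, p4⟩ := ih (w + 1) (by omega) (by omega)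
      have e : ∀ J, w ≤ J → J + 1 - (w + 1) = J - w ∧ J + 1 - w = J - w + 1 := fun J h => by omega
      have e' : ∀ J l, w < J → lq J l (J - w) = ll w ∧ γ * nn (w + 1) = bq γ J l (J - w) :=
        fun J l h => ⟨by rw [lq, if_neg (by omega), show J - (J - w) = w by omega], by
          rw [← bb J l (w + 1) h, (e J h.le).1]⟩
      obtain ⟨φ', χ', q1, q2, q3, q4⟩ := stp J l hA (J - w) w (by omega) (by omega) _ _ φ χ
        (e' J l (by omega)).2 (by positivity) (mul_le_of_le_one_right (by norm_num)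
          (pow_le_one₀ (by norm_num) (by norm_num))) p1 p2
      rw [(e J (by omega)).1] at p3 p4
      rw [(e J' (by omega)).1] at p4
      rw [(e J (by omega)).2, (e J' (by omega)).2]
      refine ⟨φ', χ', q1, q2.mono (le_of_eq (by ring)), p3.step hA (by omega) K1
        (t0 w (by omega)).m2 (e' J l (by omega)).2 q3, p4.step hA' (by omega) K1
        (t0 w (by omega)).m2 (e' J' l' (by omega)).2 ?_⟩
      rwa [(e' J l (by omega)).1, ← (e' J' l' (by omega)).1] at q4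
  obtain ⟨φ, χ, -, p2, p3, p4⟩ := key (k + j4) j rfl le_rfl
  refine ⟨_, φ, χ, p2.mono ?_, p3, p4⟩
  have : (2⁻¹ : ℝ) ^ (k + j4) ≤ 2⁻¹ ^ k := pow_le_pow_of_le_one (by norm_num) (by norm_num) (by omega)
  rw [lt_div_iff₀ (by positivity)] at hk
  nlinarith

theorem sand_of (hN : NumMain) (hT : NumTop) : ∃ K : ℕ, ∀ K2 : ℕ, ∃ a0 : ℕ, ∀ a ≥ a0, ∀ γ > 0,
    ∃ j0 : ℕ, ∀ J l, j0 ≤ J →
    Adm J l → Sand (lq J l) (aq γ J l) (ep γ a J l) (bq γ J l 0) (J + 1 - j0)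
      (fun i => if i = 0 then 27 else LL (ll (J + 1 - i)) ^ K) (fun i => LL (ll (J + 1 - i)))
      (fun i => (LL (ll (J + 1 - i)) : ℝ) ^ K2) := by
  obtain ⟨C, K, M, h⟩ := core hN hT
  obtain ⟨cb, hb⟩ := inv_bd
  obtain ⟨cB, hB0, hB⟩ := haar_ball
  refine ⟨3 * K, fun K2 => ⟨K2 + 1, fun a ha γ hγ => ?_⟩⟩
  obtain ⟨b, hab, h⟩ := h a (by omega)
  obtain ⟨j1, h, -⟩ := h γ hγ
  obtain ⟨j2, h2⟩ := hT C 0 K2 cb a b cB ha (by omega) γ hγ
  refine ⟨j1 + j2 + 1, fun J l hJ hA i hi => ?_⟩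
  obtain ⟨⟨_, hm⟩, φ, p1, E, η, η0, η1, p2⟩ := h J l hA i (J + 1 - i) (by omega) (by omega)
  obtain ⟨g1, g2⟩ := bq_bd hγ hA (show J + 1 - i + i = J + 1 by omega) (by omega)
  have T := h2 (J + 1 - i) (by omega) _ g1 g2
  have w1 := T.w1
  have η2 : η ≤ 2 := by
    have s1 : (1 : ℝ) ≤ sz J l i := by
      have : 0 < sz J l i := by
        unfold sz
        split_ifs
        exacts [Nat.mul_pos (LL_pos _) (nn_pos _), nn_pos _]
      exact_mod_cast this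
    have : (2⁻¹ : ℝ) ^ (J + 1 - i) ≤ 1 := pow_le_one₀ (by norm_num) (by norm_num)
    linarith [le_mul_of_one_le_right η0 (one_le_pow₀ (n := 3) s1)]
  have k1 := T.k1.trans (Real.rpow_le_one_of_one_le_of_nonpos T.b1 (by norm_num))
  have k0 := T.k0
  refine ⟨E, fun n hn => top hB0 hB hm (by norm_num) (hb _ _ _ _ _ (le_trans (by omega)
    (Nat.le_self_pow (by norm_num) _)) (by norm_num) hm) (by positivity) (p1.tm k0.le)
    (p2 n hn).1 (fun U hU hc => ((p2 n hn).2 U hU hc).trans ?_) ((MM_pos K J i).trans_le hn) T.b1 η0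
    (by positivity) (by positivity) T.h1 T.h2 T.h3 T.h4 T.h5 T.h6 T.h7 T.h8 (by linarith [T.h9])⟩
  split_ifs
  · exact ENNReal.ofReal_le_ofReal (Real.exp_le_exp.2 (by linarith [T.h6']))
  · exact zero_le

theorem Run.top {j : ℕ} (h : Run K γ a b J l (J + 1 - j) m φ) (hj : j ≤ J)
    (hn : LL (ll j) ^ (3 * K) ≤ nn j) : ∃ E : ℝ, ∀ U, Per (nn j) U →
      (curvG (dl b j (γ * nn j)) U →
        ENNReal.ofReal (Real.exp (E - 2 * 2⁻¹ ^ j - act (γ * nn j) m φ (nn j) U)) ≤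
          rr γ J l (J + 1 - j) (nn j) U ∧
        rG γ a J l (J + 1 - j) (nn j) U ≤
          ENNReal.ofReal (Real.exp (E + 2 * 2⁻¹ ^ j - act (γ * nn j) m φ (nn j) U))) ∧
      (¬ curvG (dl b j (γ * nn j)) U → rG γ a J l (J + 1 - j) (nn j) U = 0) := by
  obtain ⟨E, η, -, η1, h⟩ := h
  have i0 : J + 1 - j ≠ 0 := by omega
  have e1 : J + 1 - (J + 1 - j) = j := by omega
  have e2 : bq γ J l (J + 1 - j) = γ * nn j := by rw [bq, if_neg i0, e1]
  replace h := h (nn j) (by rwa [MM, if_neg i0, e1])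
  rw [sz, if_neg i0, e1] at η1
  rw [e1, e2, if_neg i0] at h
  refine ⟨E * (nn j : ℝ) ^ 3, fun U hU => ⟨fun hc => ?_, fun hc => le_zero_iff.1 (h.2 U hU hc)⟩⟩
  obtain ⟨g1, g2⟩ := h.1 U hU hc
  exact ⟨le_trans (ENNReal.ofReal_le_ofReal (Real.exp_le_exp.2 (by linarith))) g1,
    g2.trans (ENNReal.ofReal_le_ofReal (Real.exp_le_exp.2 (by linarith)))⟩

theorem half_small {η : ℝ} (h : 0 < η) : ∃ j0 : ℕ, ∀ j ≥ j0, (2⁻¹ : ℝ) ^ j ≤ η := by
  obtain ⟨k, hk⟩ := exists_pow_lt_of_lt_one h (show (2⁻¹ : ℝ) < 1 by norm_num)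
  exact ⟨k, fun j hj => (pow_le_pow_of_le_one (by norm_num) (by norm_num) hj).trans hk.le⟩

theorem lev_of (hN : NumMain) (hT : NumTop) : ∃ a0 : ℕ, ∀ a ≥ a0, ∃ b : ℕ, ∀ γ > 0, ∀ η > 0,
    ∃ j0 : ℕ, ∀ j ≥ j0, ∀ J l, j ≤ J →
    Adm J l → ∃ (n R : ℕ) (m : BF) (φ : Fld → ℂ) (E δ : ℝ), Inv n (j ^ 3) 3 1 m ∧
      R ≤ LL (ll j) ^ b ∧ Tm R (2 * δ) ((γ * nn j) ^ (-4⁻¹ : ℝ)) φ ∧
      (LL (ll j) : ℝ) ^ (a + 1) ≤ δ * √(γ * nn j) ∧ δ * √(γ * nn j) ≤ (LL (ll j) : ℝ) ^ b ∧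
      ∀ U, Per (nn j) U → curvG δ U →
        ENNReal.ofReal (Real.exp (E - η - act (γ * nn j) m φ (nn j) U)) ≤
          rr γ J l (J + 1 - j) (nn j) U ∧
        rG γ a J l (J + 1 - j) (nn j) U ≤
          ENNReal.ofReal (Real.exp (E + η - act (γ * nn j) m φ (nn j) U)) := by
  obtain ⟨C, K, M, h⟩ := core hN hT
  refine ⟨1, fun a ha => ?_⟩
  obtain ⟨b, hab, h⟩ := h a ha
  refine ⟨b + (C + 3), fun γ hγ η hη => ?_⟩
  obtain ⟨j1, h, -⟩ := h γ hγ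
  obtain ⟨j2, h2⟩ := hT C (3 * K) 0 0 a b 1 ha (by omega) γ hγ
  obtain ⟨j3, h3⟩ := half_small (half_pos hη)
  refine ⟨j1 + j2 + j3, fun j hj J l hJ hA => ?_⟩
  obtain ⟨⟨n, hm⟩, φ, p1, p2⟩ := h J l hA (J + 1 - j) j (by omega) (by omega)
  have T := h2 j (by omega) _ le_rfl
    (le_mul_of_one_le_right (by positivity) (one_le_pow₀ (one_le_LL _)))
  obtain ⟨E, p3⟩ := p2.top hJ T.m1
  rw [bq, if_neg (by omega), show J + 1 - (J + 1 - j) = j by omega] at p1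
  have e : dl b j (γ * nn j) * √(γ * nn j) = (LL (ll j) : ℝ) ^ b :=
    div_mul_cancel₀ _ (Real.sqrt_pos.2 (zero_lt_one.trans_le T.b1)).ne'
  have := h3 j (by omega)
  refine ⟨n, _, _, φ, E, _, hm, T.r1.trans (Nat.pow_le_pow_right (LL_pos _) (by omega)),
    (p1.tm T.k0.le).mono le_rfl T.k1, ?_, ?_, fun U hU hc => ?_⟩
  · rw [e]
    exact pow_le_pow_right₀ (one_le_LL _) hab
  · rw [e]
    exact pow_le_pow_right₀ (one_le_LL _) (by omega)
  · obtain ⟨g1, g2⟩ := (p3 U hU).1 hc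
    exact ⟨le_trans (ENNReal.ofReal_le_ofReal (Real.exp_le_exp.2 (by linarith))) g1,
      g2.trans (ENNReal.ofReal_le_ofReal (Real.exp_le_exp.2 (by linarith)))⟩

theorem pair_of (hN : NumMain) (hT : NumTop) : ∃ a0 : ℕ, ∀ a ≥ a0, ∀ γ > 0, ∀ η > 0, ∃ j0 : ℕ,
    ∀ j ≥ j0, ∃ J0 : ℕ,
    ∀ J l J' l', J0 ≤ J → J0 ≤ J' → Adm J l → Adm J' l' → ∃ t t' : ℝ, 0 < t ∧ 0 < t' ∧
      1 - η ≤ t * t' ∧ ∀ U, Per (nn j) U →
        ENNReal.ofReal t * rG γ a J l (J + 1 - j) (nn j) U ≤ rr γ J' l' (J' + 1 - j) (nn j) U ∧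
        ENNReal.ofReal t' * rG γ a J' l' (J' + 1 - j) (nn j) U ≤
          rr γ J l (J + 1 - j) (nn j) U := by
  obtain ⟨C, K, M, h⟩ := core hN hT
  refine ⟨1, fun a ha γ hγ η hη => ?_⟩
  obtain ⟨b, hab, h⟩ := h a ha
  obtain ⟨j1, -, h⟩ := h γ hγ
  obtain ⟨j2, h2⟩ := hT C (3 * K) 0 0 a b 1 ha (by omega) γ hγ
  obtain ⟨j3, h3⟩ := half_small (show 0 < η / 16 by positivity)
  refine ⟨j1 + j2 + j3, fun j hj => ?_⟩
  have n0 : (0 : ℝ) < nn j := by exact_mod_cast nn_pos j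
  have θ0 : 0 < η / 4 / (nn j : ℝ) ^ 3 / (C + 1) := by positivity
  obtain ⟨J0, hJ0, h⟩ := h j (by omega) _ θ0
  refine ⟨J0, fun J l J' l' hJ hJ' hA hA' => ?_⟩
  obtain ⟨m, φ, χ, p1, p2, p3⟩ := h J l J' l' hJ hJ' hA hA'
  have T := h2 j (by omega) _ le_rfl
    (le_mul_of_one_le_right (by positivity) (one_le_pow₀ (one_le_LL _)))
  obtain ⟨E, q⟩ := p2.top (by omega) T.m1
  obtain ⟨E', q'⟩ := p3.top (by omega) T.m1
  have h4 := h3 j (by omega)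
  refine ⟨Real.exp (E' - E - η / 2), Real.exp (E - E' - η / 2), Real.exp_pos _, Real.exp_pos _,
    ?_, fun U hU => ?_⟩
  · rw [← Real.exp_add]
    linarith [Real.add_one_le_exp (E' - E - η / 2 + (E - E' - η / 2))]
  by_cases hc : curvG (dl b j (γ * nn j)) U
  · have a1 := act_sub (β := 0) m (p1.tm θ0.le) (nn j) hc T.h3 T.h4
    have a2 : act (γ * nn j) m (φ + χ) (nn j) U =
        act (γ * nn j) m φ (nn j) U + act 0 m χ (nn j) U := by
      simp only [act, ← sum_add_distrib, ← Complex.add_re, Pi.add_apply]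
      exact sum_congr rfl fun x _ => congrArg Complex.re (by push_cast; ring)
    rw [zero_mul, sub_zero, mul_div_cancel₀ _ (by positivity), div_mul_cancel₀ _ (by positivity),
      abs_le] at a1
    obtain ⟨g1, g2⟩ := (q U hU).1 hc
    obtain ⟨g3, g4⟩ := (q' U hU).1 hc
    refine ⟨(mul_le_mul_right g2 _).trans (le_trans ?_ g3),
      (mul_le_mul_right g4 _).trans (le_trans ?_ g1)⟩ <;>
    · rw [← ENNReal.ofReal_mul (Real.exp_pos _).le, ← Real.exp_add]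
      exact ENNReal.ofReal_le_ofReal (Real.exp_le_exp.2 (by linarith [a1.1, a1.2]))
  · rw [(q U hU).2 hc, (q' U hU).2 hc, mul_zero, mul_zero]
    exact ⟨zero_le, zero_le⟩

end Pool.Agent.Lib.MP_7f377f_mp.RG.D3.JC
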