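import Pool.Agent.Lib.MP_7f377f_mp.R3LvD
import Pool.Agent.Lib.MP_7f377f_mp.R3NonB

/-! The numerical conditions of the steps. -/

noncomputable section

namespace Pool.Agent.Lib.MP_7f377f_mp.RG.D3.JC

open Real
open D3.Pv (nn_pos LL_succ LL_ll le_LL le_nn)

theorem six {B : ℝ} (h : 0 < B) : ∃ x : ℝ, 0 < x ∧ B = x ^ 6 :=
  ⟨B ^ ((6 : ℕ) : ℝ)⁻¹, rpow_pos_of_pos h _, (rpow_inv_natCast_pow h.le (by norm_num)).symm⟩

theorem sqrt_six {x : ℝ} (h : 0 < x) : √(x ^ 6) = x ^ 3 := by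
  rw [show x ^ 6 = (x ^ 3) ^ 2 by ring, sqrt_sq (by positivity)]

theorem kp_six {x : ℝ} (h : 0 < x) : kp (x ^ 6) = x⁻¹ ^ 2 := by
  rw [kp, ← rpow_natCast, ← rpow_mul h.le, inv_pow, ← rpow_natCast, ← rpow_neg h.le]
  norm_num

theorem num_th {Q P R u y τ c' : ℝ} {a b K C : ℕ} (Q1 : 1000 ≤ Q) (P1 : Q ≤ P) (P2 : P ≤ Q ^ 2)
    (y1 : 1 ≤ y) (y2 : y ^ 6 ≤ Q ^ 3) (R0 : 0 ≤ R) (R1 : R ≤ Q ^ (C + 3)) (u0 : 0 < u)
    (u1 : Q ^ (3 * K + 9 * C + (3 * (C + 4 + b) + 4 + 4 * (a + 3 * K)) + 1) * u ≤ 1)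
    (τ0 : 0 ≤ τ) (τ1 : τ ≤ u ^ 3) (c0 : 0 ≤ c') (c1 : 2 * c' ≤ Q)
    (hb : a + 6 * K + 9 * C + 2 ≤ b) :
    (y ^ 6) ^ K * ((y * u⁻¹) ^ 6 * (3 * R * (2 * (Q ^ b * u ^ 3))) ^ 3 +
      (y * u⁻¹) ^ 6 * τ * (2 * (Q ^ b * u ^ 3)) * (P ^ (a + 3 * K) * (u / y) ^ 3) +
      4 * c' * (u / y) ^ 2 * (P ^ (a + 3 * K) * (u / y) ^ 3 + (3 * R * (2 * (Q ^ b * u ^ 3))) ^ 2) /
        (2 * (P ^ b * (u / y) ^ 3)) + (P ^ (a + 3 * K) * (u / y) ^ 3) ^ 2 + 2 * (Q ^ b * u ^ 3)) ≤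
      u ^ 2 * (Q ^ 9)⁻¹ ^ C / 40 := by
  have q1 : 1 ≤ Q := by linarith
  have q0 : 0 < Q := by linarith
  have p0 : 0 < P := by linarith
  have y0 : 0 < y := by linarith
  have qp : ∀ {i j : ℕ}, i ≤ j → Q ^ i ≤ Q ^ j := pow_le_pow_right₀ q1
  have u2 : u ≤ 1 := (le_mul_of_one_le_left u0.le (one_le_pow₀ q1)).trans u1
  have y3 : y ^ 3 ≤ Q ^ 3 := (pow_le_pow_right₀ y1 (by norm_num)).trans y2
  have t1 : u / y ≤ u := div_le_self u0.le y1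
  have pa : P ^ (a + 3 * K) ≤ Q ^ (2 * (a + 3 * K)) := by
    rw [pow_mul]
    exact pow_le_pow_left₀ p0.le P2 _
  have hd : 6 * R * Q ^ b ≤ Q ^ (C + 4 + b) := by
    rw [pow_add, pow_succ' Q (C + 3)]
    gcongr
    linarith
  set e := 3 * (C + 4 + b) + 4 + 4 * (a + 3 * K) with he
  have T1 : (y * u⁻¹) ^ 6 * (3 * R * (2 * (Q ^ b * u ^ 3))) ^ 3 ≤ Q ^ e * u ^ 3 := by
    calc _ = y ^ 6 * (6 * R * Q ^ b) ^ 3 * u ^ 3 := by field_simp; ring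
      _ ≤ Q ^ 3 * (Q ^ (C + 4 + b)) ^ 3 * u ^ 3 := by gcongr
      _ ≤ _ := by
        rw [← pow_mul, ← pow_add]
        exact mul_le_mul_of_nonneg_right (qp (by omega)) (by positivity)
  have T2 : (y * u⁻¹) ^ 6 * τ * (2 * (Q ^ b * u ^ 3)) * (P ^ (a + 3 * K) * (u / y) ^ 3) ≤
      Q ^ e * u ^ 3 := by
    calc _ = 2 * y ^ 3 * Q ^ b * P ^ (a + 3 * K) * τ := by field_simp
      _ ≤ Q ^ 1 * Q ^ 3 * Q ^ b * Q ^ (2 * (a + 3 * K)) * u ^ 3 := by gcongr; linarith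
      _ ≤ _ := by
        rw [← pow_add, ← pow_add, ← pow_add]
        exact mul_le_mul_of_nonneg_right (qp (by omega)) (by positivity)
  have T3 : 4 * c' * (u / y) ^ 2 * (P ^ (a + 3 * K) * (u / y) ^ 3 +
      (3 * R * (2 * (Q ^ b * u ^ 3))) ^ 2) / (2 * (P ^ b * (u / y) ^ 3)) ≤
      u ^ 2 / Q ^ (3 * K + 9 * C + 1) + Q ^ e * u ^ 3 := by
    have h1 : 2 * c' * (P ^ (a + 3 * K) / P ^ b) ≤ 1 / Q ^ (3 * K + 9 * C + 1) := by
      rw [← mul_div_assoc, div_le_div_iff₀ (by positivity) (by positivity), one_mul]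
      calc _ ≤ P ^ 1 * P ^ (a + 3 * K) * P ^ (3 * K + 9 * C + 1) := by gcongr; linarith
        _ ≤ _ := by
          rw [← pow_add, ← pow_add]
          exact pow_le_pow_right₀ (by linarith) (by omega)
    have h2 : (P ^ b)⁻¹ ≤ 1 := inv_le_one_of_one_le₀ (one_le_pow₀ (by linarith))
    have h3 : y ≤ Q ^ 3 := (le_self_pow₀ y1 (by norm_num)).trans y3
    have h4 : u ^ 5 ≤ u ^ 3 := pow_le_pow_of_le_one u0.le u2 (by norm_num)
    calc _ = (u / y) ^ 2 * (2 * c' * (P ^ (a + 3 * K) / P ^ b)) +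
          2 * c' * y * (6 * R * Q ^ b) ^ 2 * (P ^ b)⁻¹ * u ^ 5 := by field_simp; ring
      _ ≤ u ^ 2 * (1 / Q ^ (3 * K + 9 * C + 1)) +
          Q ^ 1 * Q ^ 3 * (Q ^ (C + 4 + b)) ^ 2 * 1 * u ^ 3 := by gcongr; linarith
      _ ≤ _ := by
        rw [← pow_mul, ← pow_add, ← pow_add, mul_one, mul_one_div]
        exact add_le_add le_rfl (mul_le_mul_of_nonneg_right (qp (by omega)) (by positivity))
  have T4 : (P ^ (a + 3 * K) * (u / y) ^ 3) ^ 2 ≤ Q ^ e * u ^ 3 := by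
    calc _ ≤ (Q ^ (2 * (a + 3 * K)) * u ^ 3) ^ 2 := by gcongr
      _ = Q ^ (4 * (a + 3 * K)) * u ^ 6 := by ring
      _ ≤ _ := mul_le_mul (qp (by omega)) (pow_le_pow_of_le_one u0.le u2 (by norm_num))
        (by positivity) (by positivity)
  have T5 : 2 * (Q ^ b * u ^ 3) ≤ Q ^ e * u ^ 3 := by
    calc _ ≤ Q ^ 1 * (Q ^ b * u ^ 3) := by gcongr; linarith
      _ ≤ _ := by
        rw [← mul_assoc, ← pow_add]
        exact mul_le_mul_of_nonneg_right (qp (by omega)) (by positivity)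
  have h5 : Q ^ e * u ^ 3 ≤ u ^ 2 / Q ^ (3 * K + 9 * C + 1) := by
    rw [le_div_iff₀ (by positivity)]
    calc _ = u ^ 2 * (Q ^ (3 * K + 9 * C + e + 1) * u) := by ring
      _ ≤ _ := mul_le_of_le_one_right (by positivity) u1
  calc _ ≤ (Q ^ 3) ^ K * (6 * (u ^ 2 / Q ^ (3 * K + 9 * C + 1))) :=
        mul_le_mul (pow_le_pow_left₀ (by positivity) y2 K) (by linarith) (by positivity)
          (by positivity)
    _ = u ^ 2 * (Q ^ 9)⁻¹ ^ C * (6 / Q) := by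
        rw [inv_pow, ← pow_mul, ← pow_mul]
        field_simp
        ring
    _ ≤ u ^ 2 * (Q ^ 9)⁻¹ ^ C * (1 / 40) := by
        gcongr ?_ * ?_
        rw [div_le_iff₀ q0]
        linarith
    _ = _ := by ring

theorem three_pow_le (v : ℕ) : 3 ^ (v + 1) ≤ LL (ll v) := by
  rw [LL_ll]
  exact Nat.pow_le_pow_right (by norm_num) (by omega)

theorem rk_le (v C : ℕ) : rk (v + 1) C ≤ LL (ll v) ^ (C + 3) := by
  have h := three_pow_le v
  rw [rk, pow_mul, pow_add (LL (ll v)), mul_comm]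
  exact Nat.mul_le_mul (Nat.pow_le_pow_left h _)
    (Nat.pow_le_pow_left ((Nat.lt_pow_self (by norm_num)).le.trans h) _)

theorem num_rb {c v L : ℕ} (hv : 12 * c + 36 ≤ v) (L1 : LL (ll v) ≤ L) (L2 : L ≤ LL (ll v) ^ 3) :
    (2 * (10 * v ^ 2) + 1) * (rk (v + 1) (12 * c + 26) / L + 4 * L ^ (2 * c + 4) + v ^ 3 + 10) +
      10 * v ^ 2 + 2 ≤ rk v (12 * c + 26) := by
  have h1 := rk_div (k := 12 * c + 26) hv L1
  rw [show 12 * c + 26 - 1 = 12 * c + 25 from rfl] at h1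
  have h0 : 10 ^ 3 ≤ v ^ 3 := Nat.pow_le_pow_left (by omega) 3
  have h2 : L ^ (2 * c + 4) ≤ rk v (12 * c + 25) := by
    refine (Nat.pow_le_pow_left L2 _).trans (le_trans ?_ (Nat.le_mul_of_pos_left _ (by omega)))
    rw [LL_ll, ← pow_mul, ← pow_mul]
    exact Nat.pow_le_pow_right (by norm_num) (by nlinarith)
  have h3 : v ^ 3 ≤ rk v (12 * c + 25) := (rk_zero v).ge.trans (rk_mono v (Nat.zero_le _))
  have h4 : 200 * v ^ 2 ≤ 3 ^ v := by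
    obtain ⟨w, rfl⟩ : ∃ w, v = w + 10 := ⟨v - 10, by omega⟩
    clear h0 h1 h2 h3 L1 L2 hv
    induction w with
    | zero => norm_num
    | succ w ih =>
      have : 200 * (w + 10 + 1) ^ 2 ≤ 200 * (w + 10) ^ 2 * 3 := by
        ring_nf
        omega
      rw [show w + 1 + 10 = w + 10 + 1 from rfl, pow_succ 3]
      omega
  have h5 : rk v (12 * c + 26) = 3 ^ v * rk v (12 * c + 25) := by
    unfold rk
    ring
  have h6 : 10 ^ 2 ≤ v ^ 2 := Nat.pow_le_pow_left (by omega) 2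
  rw [h5]
  generalize rk v (12 * c + 25) = r at *
  generalize rk (v + 1) (12 * c + 26) / L = s at *
  generalize L ^ (2 * c + 4) = t at *
  generalize v ^ 2 = p at *
  have h7 := Nat.mul_le_mul_left (2 * (10 * p) + 1) (show s + 4 * t + v ^ 3 + 10 ≤ 7 * r by omega)
  have h8 := Nat.le_mul_of_pos_right (10 * p + 2) (show 0 < r by omega)
  calc _ ≤ (2 * (10 * p) + 1) * (7 * r) + (10 * p + 2) * r := by omega
    _ = (150 * p + 9) * r := by ring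
    _ ≤ _ := Nat.mul_le_mul_right _ (by omega)

theorem num_er (k : ℕ) : ∃ j, ∀ v ≥ j, ∀ (l : ℕ) (x : ℝ), ll v ≤ l → 0 ≤ x →
    x ≤ (LL (ll v) : ℝ) ^ k → 2⁻¹ ^ (10 * v ^ 2) + 2 * exp (-(l : ℝ)) * x ≤
      2⁻¹ ^ v / (nn v : ℝ) ^ 3 := by
  obtain ⟨j1, h1⟩ := zq_key le_rfl (4 * k + 2 + 9 + 2)
  obtain ⟨j2, h2⟩ := pow_le_ll 1
  refine ⟨j1 + j2 + 1, fun v hv l x hl x0 hx => ?_⟩
  have n0 : (0 : ℝ) < nn v := by exact_mod_cast nn_pos v
  have z2 := two_le_zq v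
  have a1 : 2 * 2 ^ v * nn v ^ 3 ≤ 2 ^ (10 * v ^ 2) := by
    have := le_sq v
    calc _ = 2 ^ (v + 4) * 27 ^ v ^ 2 := by
          rw [nn, mul_pow, ← pow_mul, mul_comm (v ^ 2), pow_mul]
          ring
      _ ≤ 2 ^ (5 * v ^ 2) * (2 ^ 5) ^ v ^ 2 := Nat.mul_le_mul
          (Nat.pow_le_pow_right two_pos (by omega)) (Nat.pow_le_pow_left (by norm_num) _)
      _ = _ := by rw [← pow_mul, ← pow_add]; congr 1; ring
  have a2 : (2 : ℝ) * 2 ^ v * (nn v : ℝ) ^ 3 ≤ 2 ^ (10 * v ^ 2) := by exact_mod_cast a1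
  have a3 : exp (-(l : ℝ)) ≤ exp (-((v : ℝ) ^ 3 / (2 * (1 : ℕ)))) := by
    have h3 : v ^ 3 ≤ l := by have := h2 v (by omega); rw [pow_one] at this; omega
    have h4 : (v : ℝ) ^ 3 ≤ l := by exact_mod_cast h3
    have : (0 : ℝ) ≤ v ^ 3 := by positivity
    exact exp_le_exp.2 (by push_cast; linarith)
  have a4 : x * 2 ^ v * (nn v : ℝ) ^ 3 * 2 ^ 2 ≤ zq v ^ (4 * k + 2 + 9 + 2) := by
    rw [pow_add, pow_add, pow_add, pow_mul, show 9 = 3 * 3 from rfl, pow_mul]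
    have := hx.trans (pow_le_pow_left₀ (by positivity) (LL_le_zq v) k)
    have := two_pow_le_zq v
    have := nn_le_zq v
    gcongr
  have a5 := (mul_le_mul a4 a3 (exp_pos _).le (by positivity)).trans (h1 v (by omega))
  rw [le_div_iff₀ (by positivity), inv_pow, inv_pow, ← one_div (2 ^ v), le_div_iff₀ (by positivity)]
  have a6 := (inv_mul_le_iff₀ (by positivity)).2 (a2.trans_eq (mul_one _).symm)
  linarith

theorem num_main : NumMain := by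
  intro c K a c1
  refine ⟨2 * a + 9 * K + 9 * (12 * c + 26) + 2, fun b hb γ hγ => ?_⟩
  obtain ⟨C, hC⟩ : ∃ C, C = 12 * c + 26 := ⟨_, rfl⟩
  obtain ⟨N, hN⟩ : ∃ N, N = 3 * K + 9 * C + (3 * (C + 4 + b) + 4 + 4 * (a + 3 * K)) + 1 := ⟨_, rfl⟩
  obtain ⟨j1, h1⟩ := Nn.big (6 * N) hγ
  obtain ⟨j2, h2⟩ := pow_le_ll 33
  obtain ⟨j3, h3⟩ := tau_le c1 0
  obtain ⟨j4, h4⟩ := yq_small c1 0 1
  obtain ⟨j5, h5⟩ := num_er (4 * (a + 3 * K) + 1 + 3 * (c + 1))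
  obtain ⟨j6, h6⟩ := exists_nat_ge γ
  refine ⟨j1 + j2 + j3 + j4 + j5 + j6 + K + 2 * C + 1000, fun v hv l L1 L2 => ?_⟩
  have l1 : ll v ≤ l := by unfold LL at L1; omega
  have v3 := Nat.le_self_pow (show 3 ≠ 0 by norm_num) v
  have l2 : ∀ k ≤ 33, (3 * v ^ 3) ^ k ≤ l := fun k hk =>
    (Nat.pow_le_pow_right (by omega) hk).trans ((h2 v (by omega)).trans l1)
  have rb := fun _ : True => num_rb (c := c) (by omega) L1 L2
  have rad : True → rk (v + 1) C ≤ LL l ^ (12 * c + 30) := fun _ => (rk_le v C).trans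
    ((Nat.pow_le_pow_left L1 _).trans (Nat.pow_le_pow_right (LL_pos l) (by omega)))
  have R1 : (rk v C : ℝ) ≤ (LL (ll v) : ℝ) ^ (C + 3) := by
    exact_mod_cast (rk_succ v C).trans (rk_le v C)
  have Kl : K ≤ l := by have := l2 1 (by omega); rw [pow_one] at this; omega
  have r2 : (v ^ 3) ^ 2 ≤ l := (Nat.pow_le_pow_left (by omega) 2).trans (l2 2 (by omega))
  have n0 : (0 : ℝ) < nn v := by exact_mod_cast nn_pos v
  have n1 : γ ≤ nn v := h6.trans (by exact_mod_cast le_trans (by omega) (le_nn v))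
  have τ0 := tauq_nonneg c (LL l) v
  have τ1 : tauq c (LL l) v ≤ (nn v : ℝ)⁻¹ := by
    have a1 := h3 v (by omega) _ L2
    have a2 := h4 v (by omega)
    rw [pow_zero, one_mul] at a1 a2
    rw [pow_one] at a2
    linarith [inv_pos.2 n0]
  have er := fun x => h5 v (by omega) l x l1
  have Qc : 2 * ((C : ℝ) + 1) ≤ LL (ll v) := by exact_mod_cast le_trans (by omega) (le_LL v)
  have Q1 : (1000 : ℝ) ≤ LL (ll v) := by exact_mod_cast le_trans (by omega) (le_LL v)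
  have P0 : (LL (ll (v + 1)) : ℝ) = 9 * LL (ll v) := by rw [LL_succ]; push_cast; rfl
  have y2 : (LL l : ℝ) ≤ (LL (ll v) : ℝ) ^ 3 := by exact_mod_cast L2
  have y4 : ((3 * (v ^ 3 : ℕ) : ℝ) ^ 11) ^ 3 ≤ LL l := by
    rw [← pow_mul]
    exact_mod_cast (l2 33 le_rfl).trans (by unfold LL; omega)
  have r1 : (1 : ℝ) ≤ (v ^ 3 : ℕ) := by exact_mod_cast le_trans (by omega) v3
  replace h1 := h1 v (by omega)
  obtain ⟨x, x0, hx⟩ := six (mul_pos hγ n0)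
  obtain ⟨y, y0, hy⟩ := six (zero_lt_one.trans_le (one_le_LL l))
  have y1 : 1 ≤ y := (one_le_pow_iff_of_nonneg y0.le (by norm_num)).1 (hy ▸ one_le_LL l)
  have hβ : γ * (LL l * nn v) = (y * x) ^ 6 := by rw [mul_left_comm, hx, hy, mul_pow]
  have τ2 : tauq c (LL l) v ≤ x⁻¹ ^ 3 := by
    refine τ1.trans ?_
    rw [inv_pow]
    refine inv_anti₀ (by positivity) (le_of_pow_le_pow_left₀ two_ne_zero n0.le ?_)
    rw [← pow_mul, ← hx, sq]
    exact mul_le_mul_of_nonneg_right n1 n0.le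
  have e1 : ∀ b, dl b (v + 1) ((y * x) ^ 6) = (LL (ll (v + 1)) : ℝ) ^ b * (x⁻¹ / y) ^ 3 := fun b => by
    rw [dl, sqrt_six (by positivity)]
    field_simp
  have e2 : dl b v (x ^ 6) = (LL (ll v) : ℝ) ^ b * x⁻¹ ^ 3 := by
    rw [dl, sqrt_six x0]
    field_simp
  have e3 : kp ((y * x) ^ 6) = (x⁻¹ / y) ^ 2 := by
    rw [kp_six (by positivity)]
    field_simp
  rw [hβ, hx, e1, e1, e1, e2, e3, kp_six x0, ← hC]
  rw [← hC] at rb hb
  rw [hx, mul_comm, pow_mul] at h1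
  clear h2 h3 h4 h5 l2 e1 e2 e3 τ1
  generalize hQ : (LL (ll v) : ℝ) = Q at *
  generalize (LL (ll (v + 1)) : ℝ) = P at *
  have q1 : 1 ≤ Q := by linarith
  have P1 : Q ≤ P := by linarith
  have P2 : P ≤ Q ^ 2 := by
    rw [P0, sq]
    exact mul_le_mul_of_nonneg_right (by linarith) (by linarith)
  have p1 : 1 ≤ P := by linarith
  replace h1 := le_of_pow_le_pow_left₀ (by norm_num) x0.le h1
  have x1 : 1 ≤ x := (one_le_pow₀ q1).trans h1
  obtain ⟨u, rfl⟩ : ∃ u, x = u⁻¹ := ⟨x⁻¹, (inv_inv x).symm⟩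
  rw [inv_inv] at *
  have u0 : 0 < u := inv_pos.1 x0
  have u1 : ∀ k ≤ N, Q ^ k * u ≤ 1 := fun k hk => by
    rw [← le_div_iff₀ u0, one_div]
    exact (pow_le_pow_right₀ q1 hk).trans h1
  have u2 : u ≤ 1 := by simpa using u1 0 (by omega)
  have u3 : u ^ 3 ≤ u := pow_le_of_le_one u0.le u2 (by norm_num)
  have t1 : (u / y) ^ 3 ≤ u ^ 3 := pow_le_pow_left₀ (by positivity) (div_le_self u0.le y1) 3
  have LK : (LL l : ℝ) ^ K ≤ Q ^ (3 * K) := by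
    rw [pow_mul]
    exact pow_le_pow_left₀ (by positivity) y2 _
  have LP : (LL l : ℝ) ^ K ≤ P ^ (3 * K) := LK.trans (pow_le_pow_left₀ (by positivity) P1 _)
  have Pp : ∀ k, P ^ k ≤ Q ^ (2 * k) := fun k => by
    rw [pow_mul]
    exact pow_le_pow_left₀ (by positivity) P2 _
  have ez : P ^ (a + 3 * K) * (u / y) ^ 3 * √(2 * (y * u⁻¹) ^ 6 * (LL l : ℝ) ^ (c + 1)) =
      P ^ (a + 3 * K) * √(2 * (LL l : ℝ) ^ (c + 1)) := by
    rw [mul_right_comm 2, sqrt_mul (by positivity), sqrt_six (by positivity)]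
    field_simp
  have Λ1 : (1 : ℝ) ≤ (LL l : ℝ) ^ (c + 1) := one_le_pow₀ (one_le_LL l)
  refine ⟨by omega, L1, L2, Kl, r2, rad trivial, rb trivial,
    one_le_pow₀ (one_le_mul_of_one_le_of_one_le y1 x1), ?_,
    by positivity, by positivity, by positivity, τ0, by positivity, ?_, ?_, ?_, ?_, ?_, ?_, ?_, ?_,
    ?_, ?_, ?_⟩
  · rw [ez]
    exact one_le_mul_of_one_le_of_one_le (one_le_pow₀ p1) (one_le_sqrt.2 (by linarith))
  · rw [hy, sqrt_six y0]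
    calc _ ≤ P ^ b * u ^ 3 := by gcongr
      _ = _ := by field_simp
  · calc _ ≤ Q ^ (3 * K) * (Q ^ 1 * (Q ^ b * u)) := by gcongr; linarith
      _ = Q ^ (3 * K + 1 + b) * u := by ring
      _ ≤ _ := u1 _ (by omega)
  · calc _ ≤ Q ^ (3 * K) * (Q ^ (2 * b) * u) := by gcongr; exacts [Pp b, t1.trans u3]
      _ = Q ^ (3 * K + 2 * b) * u := by ring
      _ ≤ _ := u1 _ (by omega)
  · have y3 : y ^ 3 ≤ Q ^ 3 := (pow_le_pow_right₀ y1 (by norm_num)).trans (hy ▸ y2)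
    calc _ = (LL l : ℝ) ^ K * 4 * Q ^ (2 * b) * y ^ 3 * u ^ 3 * (u / y) ^ 3 := by field_simp; ring
      _ ≤ Q ^ (3 * K) * Q ^ 1 * Q ^ (2 * b) * Q ^ 3 * u * (u / y) ^ 3 := by gcongr; linarith
      _ = Q ^ (3 * K + 1 + 2 * b + 3) * u * (u / y) ^ 3 := by ring
      _ ≤ _ := mul_le_mul_of_nonneg_right ((u1 _ (by omega)).trans (one_le_pow₀ p1))
        (by positivity)
  · calc _ ≤ P ^ (3 * K) * (P ^ (a + 3 * K) * (u / y) ^ 3) := by gcongr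
      _ ≤ _ := by
        rw [← mul_assoc, ← pow_add]
        exact mul_le_mul_of_nonneg_right (pow_le_pow_right₀ p1 (by omega)) (by positivity)
  · calc _ ≤ Q ^ (3 * K) * (Q ^ (2 * (a + 3 * K)) * u ^ 3) := by gcongr; exact Pp _
      _ ≤ _ := by
        rw [← mul_assoc, ← pow_add]
        exact mul_le_mul_of_nonneg_right (pow_le_pow_right₀ q1 (by omega)) (by positivity)
  · calc _ ≤ P ^ (3 * K) * (P ^ a * (u / y) ^ 3) := by gcongr
      _ = _ := by ring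
  · rw [hQ, hy]
    exact num_th Q1 P1 P2 y1 (hy ▸ y2) (by positivity) R1 u0 (hN ▸ u1 N le_rfl) τ0 τ2
      (by positivity) Qc (by omega)
  · have a1 : 2 * (rk v C : ℝ) + 1 ≤ Q ^ (C + 4) := by
      have := one_le_pow₀ (n := C + 3) q1
      rw [pow_succ]
      linarith [mul_le_mul_of_nonneg_left Q1 (zero_le_one.trans this)]
    have a2 : (2 * (rk v C : ℝ) + 1) ^ 3 * u ^ 2 * 10 ≤ (Q ^ (C + 4)) ^ 3 * u * Q ^ 1 := by
      have := pow_le_of_le_one u0.le u2 two_ne_zero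
      gcongr
      linarith
    have a3 := u1 ((C + 4) * 3 + 1) (by omega)
    rw [pow_add, pow_mul] at a3
    linarith
  · have a1 : (3 * (v ^ 3 : ℕ) : ℝ) ^ 11 ≤ y ^ 2 :=
      le_of_pow_le_pow_left₀ (by norm_num) (by positivity) (y4.trans_eq (by rw [hy]; ring))
    have a2 := one_le_pow₀ (n := 11) r1
    rw [mul_pow] at a1
    rw [div_pow, ← mul_div_assoc, div_le_iff₀ (by positivity), mul_comm]
    exact mul_le_mul_of_nonneg_left (by linarith) (by positivity)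
  · refine er _ (by positivity) ?_
    rw [ez, mul_pow, sq_sqrt (by positivity), pow_add Q, pow_add Q, mul_assoc, pow_mul Q 3,
      show 4 * (a + 3 * K) = 2 * (a + 3 * K) * 2 by ring, pow_mul Q _ 2]
    gcongr
    exacts [Pp _, by linarith]

end Pool.Agent.Lib.MP_7f377f_mp.RG.D3.JC
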