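import Pool.Agent.Lib.MP_7f377f_mp.R3LvP

/-! The numerical conditions of the levels. -/

noncomputable section

namespace Pool.Agent.Lib.MP_7f377f_mp.RG.D3.JC

open Real
open D3.Pv (nn_pos LL_succ LL_ll le_LL le_nn)

theorem num_log (x : ℝ) : ∃ j : ℕ, ∀ w ≥ j, x + 132 * ((w : ℝ) ^ 2 + 1) ≤ LL (ll w) := by
  obtain ⟨k, hk⟩ := exists_nat_ge x
  obtain ⟨j, hj⟩ := pow_le_ll 1
  refine ⟨j + k + 200, fun w hw => ?_⟩
  have h1 := hj w (by omega)
  have h2 : k + 132 * (w ^ 2 + 1) ≤ LL (ll w) := by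
    have h3 : 200 * w ^ 2 ≤ w ^ 3 := by rw [pow_succ' w 2]; gcongr; omega
    have := le_sq w
    rw [pow_one] at h1
    unfold LL
    omega
  have h4 : (k : ℝ) + 132 * ((w : ℝ) ^ 2 + 1) ≤ LL (ll w) := by exact_mod_cast h2
  linarith

theorem num_top' : NumTop := by
  intro C K K2 cb a b cB ha hb γ hγ
  obtain ⟨N, hN⟩ : ∃ N, N = 3 * cb + 4 * b + 2 * C + 40 := ⟨_, rfl⟩
  obtain ⟨j1, h1⟩ := Nn.big (12 * N) hγ
  obtain ⟨j2, h2⟩ := Nn.big (K + 6 * b + 5) one_pos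
  obtain ⟨j3, h3⟩ := num_log (4 + 12 * |log γ| + 4 * |log cB|)
  obtain ⟨j4, h4⟩ := exists_nat_ge γ
  refine ⟨j1 + j2 + j3 + j4 + K + C + cb + 10 ^ 12, fun w hw β b1 b2 => ?_⟩
  have n0 : (0 : ℝ) < nn w := by exact_mod_cast nn_pos w
  have n1 : γ ≤ nn w := h4.trans (by exact_mod_cast le_trans (by omega) (le_nn w))
  have R1 : (rk w C : ℝ) ≤ (LL (ll w) : ℝ) ^ (C + 3) := by
    exact_mod_cast (rk_succ w C).trans (rk_le w C)
  have Q1 : (10 : ℝ) ^ 12 ≤ LL (ll w) := by exact_mod_cast le_trans (by omega) (le_LL w)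
  have Qc : (C : ℝ) + 1 ≤ LL (ll w) := by exact_mod_cast le_trans (by omega) (le_LL w)
  have r1 : ((w ^ 3 : ℕ) : ℝ) ≤ (LL (ll w) : ℝ) ^ 3 := by
    exact_mod_cast Nat.pow_le_pow_left (le_LL w) 3
  have m2 : True → 9 ^ K ≤ LL (ll w) := fun _ => by
    rw [LL_ll, show 9 = 3 ^ 2 from rfl, ← pow_mul]
    exact Nat.pow_le_pow_right (by norm_num) (by omega)
  replace h1 := (h1 w (by omega)).trans b1
  replace h2 := (h2 w (by omega)).trans_eq (one_mul _)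
  have b0 : 0 < β := lt_of_lt_of_le (by positivity) b1
  have h9 : 4 + 4 * (3 * log β + |log cB|) ≤ LL (ll w) := by
    have z0 : 0 < zq w := by linarith [two_le_zq w]
    have a1 : β ≤ γ * zq w ^ 11 := b2.trans (by
      rw [show zq w ^ 11 = zq w ^ 3 * (zq w ^ 4) ^ 2 by ring, mul_assoc]
      have := nn_le_zq w
      have := LL_le_zq w
      gcongr)
    have a2 := log_le_log b0 a1
    rw [log_mul hγ.ne' (by positivity), log_pow, zq, log_exp] at a2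
    push_cast at a2
    linarith [h3 w (by omega), le_abs_self (log γ)]
  obtain ⟨x, x0, rfl⟩ : ∃ x : ℝ, 0 < x ∧ β = x ^ 12 :=
    ⟨β ^ ((12 : ℕ) : ℝ)⁻¹, rpow_pos_of_pos b0 _, (rpow_inv_natCast_pow b0.le (by norm_num)).symm⟩
  have e0 : x ^ 12 = (x ^ 2) ^ 6 := by ring
  have e1 : ∀ b, dl b w (x ^ 12) = (LL (ll w) : ℝ) ^ b * x⁻¹ ^ 6 := fun b => by
    rw [dl, e0, sqrt_six (by positivity)]
    field_simp
  have e2 : kp (x ^ 12) = x⁻¹ ^ 4 := by
    rw [e0, kp_six (by positivity)]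
    field_simp
  have e3 : (x ^ 12) ^ (-4⁻¹ : ℝ) = x⁻¹ ^ 3 := by
    rw [← rpow_natCast, ← rpow_mul x0.le, inv_pow, ← rpow_natCast, ← rpow_neg x0.le]
    norm_num
  have m1 : True → LL (ll w) ^ K ≤ nn w := fun _ => by
    exact_mod_cast (pow_le_pow_right₀ (one_le_LL _) (by omega)).trans h2
  have r3 : True → rk w C ≤ LL (ll w) ^ (C + 3) := fun _ => (rk_succ w C).trans (rk_le w C)
  rw [e1, e1, e2]
  rw [mul_comm, pow_mul] at h1
  replace h1 := le_of_pow_le_pow_left₀ (by norm_num) x0.le h1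
  have w1 : cb + 1 ≤ w := by omega
  clear h3 e0 e1 e2 b1 hw
  generalize hQ : (LL (ll w) : ℝ) = Q at *
  have q1 : 1 ≤ Q := by linarith
  have qp : ∀ {i j : ℕ}, i ≤ j → Q ^ i ≤ Q ^ j := pow_le_pow_right₀ q1
  have x1 : 1 ≤ x := (one_le_pow₀ q1).trans h1
  obtain ⟨u, rfl⟩ : ∃ u, x = u⁻¹ := ⟨x⁻¹, (inv_inv x).symm⟩
  rw [inv_inv] at *
  have u0 : 0 < u := inv_pos.1 x0
  have u1 : ∀ k ≤ N, Q ^ k * u ≤ 1 := fun k hk => by
    rw [← le_div_iff₀ u0, one_div]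
    exact (qp hk).trans h1
  have u2 : u ≤ 1 := by simpa using u1 0 (by omega)
  have u3 : ∀ k ≤ N, ∀ (i : ℕ) (y : ℝ), y ≤ Q ^ k → y * u ^ (i + 1) ≤ 1 := fun k hk i y hy =>
    (mul_le_mul hy (pow_le_of_le_one u0.le u2 i.succ_ne_zero) (by positivity) (by positivity)).trans
      (u1 k hk)
  have Q3 : 10 ^ 12 * Q ^ 3 ≤ Q ^ 4 := by
    rw [pow_succ' Q 3]
    exact mul_le_mul_of_nonneg_right Q1 (by positivity)
  have Q4 := one_le_pow₀ (n := 3) q1
  have r4 : ((w ^ 3 : ℕ) : ℝ) + 4 ≤ Q ^ 4 := by linarith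
  have R2 : (rk w C : ℝ) + 1 ≤ Q ^ (C + 4) := by
    have := one_le_pow₀ (n := C + 3) q1
    rw [pow_succ]
    linarith [mul_le_mul_of_nonneg_left Q1 (zero_le_one.trans this)]
  refine ⟨w1, one_le_pow₀ x1, by positivity, by positivity, ?_, ?_, ?_, ?_, ?_, ?_, ?_, ?_, ?_, ?_,
    hQ ▸ h9, ?_, ?_, ?_, m1 trivial, m2 trivial, r3 trivial⟩
  · rw [e3, pow_succ' u 3, ← mul_assoc]
    exact mul_le_of_le_one_left (by positivity) (by simpa using u3 1 (by omega) 0 _ (by simpa))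
  · rw [← mul_assoc, ← mul_assoc]
    refine u3 (1 + 4 * 2 + b) (by omega) 5 _ ?_
    rw [mul_assoc, pow_add, pow_add, pow_mul, mul_assoc]
    gcongr
    linarith
  · calc _ = 10 ^ 8 * (Q ^ b) ^ 2 * u ^ (5 + 1) * u ^ 6 := by ring
      _ ≤ _ := mul_le_mul_of_nonneg_right ((u3 (1 + b * 2) (by omega) 5 _ (by
          rw [pow_add, pow_mul]; gcongr; linarith)).trans (one_le_pow₀ q1)) (by positivity)
  · rw [← mul_assoc]
    refine u3 (1 + (C + 4) + b) (by omega) 5 _ ?_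
    rw [pow_add, pow_add]
    gcongr
    linarith
  · have := mul_le_mul_of_nonneg_right (u3 (1 + (C + 4) * 2 + b) (by omega) 5
      (10 ^ 6 * ((rk w C : ℝ) + 1) ^ 2 * Q ^ b) (by
        rw [pow_add, pow_add, pow_mul]; gcongr; linarith))
      (show 0 ≤ Q ^ b * u ^ 6 by positivity)
    rw [show 5 + 1 = 6 from rfl] at this
    linarith
  · calc _ = 10 ^ 12 * ((w ^ 3 : ℕ) : ℝ) ^ cb * (((w ^ 3 : ℕ) : ℝ) + 4) ^ 6 * (Q ^ b) ^ 3 *
          u ^ (5 + 1) := by field_simp; ring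
      _ ≤ _ := u3 (1 + 3 * cb + 4 * 6 + b * 3) (by omega) 5 _ (by
          rw [pow_add, pow_add, pow_add, pow_mul, pow_mul, pow_mul]; gcongr; linarith)
  · calc _ ≤ Q ^ K2 * (Q ^ 1 / 10 ^ 6) := hQ ▸ le_mul_of_one_le_right (by positivity) (by linarith)
      _ ≤ (Q ^ a) ^ 2 / 10 ^ 6 := by
          rw [← mul_div_assoc, ← pow_add, ← pow_mul]
          exact div_le_div_of_nonneg_right (qp (by omega)) (by norm_num)
      _ = _ := by field_simp
  · calc _ ≤ Q ^ K2 * (Q ^ 1 / 2) := hQ ▸ le_mul_of_one_le_right (by positivity) (by linarith)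
      _ ≤ (Q ^ b) ^ 2 / 2 := by
          rw [← mul_div_assoc, ← pow_add, ← pow_mul]
          exact div_le_div_of_nonneg_right (qp (by omega)) (by norm_num)
      _ = _ := by field_simp
  · rw [inv_pow, inv_inv, show u ^ 12 = u ^ (5 + 1) * u ^ 6 by ring, ← mul_assoc]
    exact mul_le_mul_of_nonneg_right ((u3 1 (by omega) 5 _ (by linarith)).trans (one_le_pow₀ q1))
      (by positivity)
  · rw [inv_pow, ← one_div, le_div_iff₀ (by positivity)]
    refine u3 (1 + 3 * cb + 4 * 2) (by omega) 11 _ ?_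
    rw [pow_add, pow_add, pow_mul, pow_mul]
    gcongr <;> linarith
  · have := u3 (1 + b) (by omega) 5 (10 ^ 6 * Q ^ b) (by rw [pow_add]; gcongr; linarith)
    rw [show 5 + 1 = 6 from rfl] at this
    linarith
  · calc _ = 8 * 10 ^ 8 * (Q ^ b) ^ 3 * u ^ (1 + 1) * u ^ 4 := by field_simp; ring
      _ ≤ _ := mul_le_of_le_one_left (by positivity) (u3 (1 + b * 3) (by omega) 1 _ (by
          rw [pow_add, pow_mul]; gcongr; linarith))
  · have a1 : 96 * (Q ^ b) ^ 2 * u⁻¹ ^ 4 ≤ (nn w : ℝ) ^ 2 := by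
      refine le_of_pow_le_pow_left₀ (n := 3) (by norm_num) (by positivity) ?_
      calc _ = 96 ^ 3 * Q ^ (6 * b) * u⁻¹ ^ 12 := by ring
        _ ≤ Q ^ 1 * Q ^ (6 * b) * (nn w * nn w * Q ^ 2) :=
            mul_le_mul (mul_le_mul_of_nonneg_right (by linarith) (by positivity))
              (b2.trans (by gcongr)) (by positivity) (by positivity)
        _ = Q ^ (6 * b + 3) * 1 * (nn w * nn w) := by ring
        _ ≤ nn w * (nn w : ℝ) ^ 3 * (nn w * nn w) := by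
            have : (1 : ℝ) ≤ nn w := by exact_mod_cast nn_pos w
            gcongr
            exacts [(qp (by omega)).trans h2, one_le_pow₀ this]
        _ = _ := by ring
    calc _ = 96 * (Q ^ b) ^ 2 * u⁻¹ ^ 4 / (nn w : ℝ) ^ 2 * u ^ 4 := by field_simp; ring
      _ ≤ _ := mul_le_of_le_one_left (by positivity) ((div_le_one (by positivity)).2 a1)

end Pool.Agent.Lib.MP_7f377f_mp.RG.D3.JC
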