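import Pool.Agent.Lib.MP_7f377f_mp.R3MeasRho

/-! Reduction of a step to an integral over the links outside the trees. -/

noncomputable section

namespace Pool.Agent.Lib.MP_7f377f_mp.RG.D3

open MeasureTheory Measure Set Ms
open scoped Quaternion ENNReal

namespace M3

section grp
variable {G : Type} [Group G]

theorem ln_zero (U : Lk → G) (p : St) (μ : Fin 3) : ln Inv.inv U p μ 0 = 1 := by
  simp [ln, lnP, lnN]

theorem cmb_zero (U : Lk → G) : cmb Inv.inv U 0 = 1 := by
  simp [cmb, ln_zero]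

theorem ln_succ (U : Lk → G) (p : St) (μ : Fin 3) (n : ℤ) :
    ln Inv.inv U p μ (n + 1) = ln Inv.inv U p μ n * U (p + n • un μ, μ) := by
  rcases le_or_gt 0 n with h | h
  · obtain ⟨k, rfl⟩ := Int.eq_ofNat_of_zero_le h
    have h1 : ((k : ℤ) + 1).toNat = k + 1 := by omega
    have h2 : (-((k : ℤ) + 1)).toNat = 0 := by omega
    have h3 : (-(k : ℤ)).toNat = 0 := by omega
    rw [ln, ln, h1, h2, h3, Int.toNat_natCast]
    simp [lnP, lnN]
  · obtain ⟨k, rfl⟩ : ∃ k : ℕ, n = -((k : ℤ) + 1) := ⟨(-n - 1).toNat, by omega⟩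
    have h1 : (-((k : ℤ) + 1) + 1).toNat = 0 := by omega
    have h2 : (-((k : ℤ) + 1)).toNat = 0 := by omega
    have h3 : (-(-((k : ℤ) + 1) + 1)).toNat = k := by omega
    have h4 : (-(-((k : ℤ) + 1))).toNat = k + 1 := by omega
    rw [ln, ln, h1, h2, h3, h4, lnN, neg_smul, ← sub_eq_add_neg]
    simp [lnP]

theorem cmb_succ (U : Lk → G) (t : St) (μ : Fin 3) (h : ∀ ν, μ < ν → t ν = 0) :
    cmb Inv.inv U (t + un μ) = cmb Inv.inv U t * U (t, μ) := by
  have e : ∀ ν, ν ≤ μ → pre (t + un μ) ν = pre t ν := fun ν hν => by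
    funext i
    simp only [pre, un, Pi.add_apply]
    split_ifs with hi
    · rw [Pi.single_eq_of_ne (hi.trans_le hν).ne, add_zero]
    · rfl
  have e1 : ∀ ν, ν ≠ μ → (t + un μ) ν = t ν := fun ν hν => by
    simp only [un, Pi.add_apply, Pi.single_eq_of_ne hν, add_zero]
  have e2 : (t + un μ) μ = t μ + 1 := by simp [un]
  have e3 : pre t μ + t μ • un μ = t := by
    funext i
    rcases lt_trichotomy i μ with hi | rfl | hi
    · simp [pre, un, hi, Pi.single_eq_of_ne hi.ne]
    · simp [pre, un]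
    · simp [pre, un, hi.not_gt, Pi.single_eq_of_ne hi.ne', h i hi]
  have e4 := ln_succ U (pre t μ) μ (t μ)
  rw [e3, ← e2] at e4
  unfold cmb
  fin_cases μ
  · simp only [Fin.zero_eta] at *
    rw [e1 1 (by decide), e1 2 (by decide), h 1 (by decide), h 2 (by decide), e 0 le_rfl, e4]
    simp only [ln_zero, mul_one]
  · simp only [Fin.mk_one] at *
    rw [e1 0 (by decide), e1 2 (by decide), h 2 (by decide), e 0 (by decide), e 1 le_rfl, e4]
    simp only [ln_zero, mul_one, mul_assoc]
  · simp only [Fin.reduceFinMk] at *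
    rw [e1 0 (by decide), e1 1 (by decide), e 0 (by decide), e 1 (by decide), e 2 le_rfl, e4]
    simp only [mul_assoc]

theorem ln_congr {U U' : Lk → G} (p : St) (μ : Fin 3) (n : ℤ)
    (h : ∀ k : ℤ, min n 0 ≤ k → k < max n 0 → U (p + k • un μ, μ) = U' (p + k • un μ, μ)) :
    ln Inv.inv U p μ n = ln Inv.inv U' p μ n := by
  induction n using Int.induction_on with
  | zero => rw [ln_zero, ln_zero]
  | succ k ih =>
    rw [ln_succ, ln_succ, ih fun k' h1 h2 => h k' (by omega) (by omega), h k (by omega) (by omega)]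
  | pred k ih =>
    have h1 := ln_succ U p μ (-(k : ℤ) - 1)
    have h2 := ln_succ U' p μ (-(k : ℤ) - 1)
    rw [sub_add_cancel] at h1 h2
    rw [ih fun k' h1 h2 => h k' (by omega) (by omega), h _ (by omega) (by omega), h2] at h1
    exact (mul_right_cancel h1).symm

theorem tree_of {l : ℕ} {t : St} (ht : ∀ i, -(l : ℤ) ≤ t i ∧ t i ≤ l) (μ : Fin 3) {k : ℤ}
    (h1 : min (t μ) 0 ≤ k) (h2 : k < max (t μ) 0) : tree l (pre t μ + k • un μ, μ) := by
  have hμ := ht μ
  have b1 : yo l (pre t μ + k • un μ) = 0 := yo_box fun i => by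
    have := ht i
    rcases lt_trichotomy i μ with hi | rfl | hi
    · simpa [pre, un, hi, Pi.single_eq_of_ne hi.ne] using this
    · simp only [pre, un, Pi.add_apply, lt_irrefl, if_false, Pi.smul_apply, Pi.single_eq_same,
        smul_eq_mul]
      omega
    · simp [pre, un, hi.not_gt, Pi.single_eq_of_ne hi.ne']
  have b2 : yo l (pre t μ + k • un μ + un μ) = 0 := yo_box fun i => by
    have := ht i
    rcases lt_trichotomy i μ with hi | rfl | hi
    · simpa [pre, un, hi, Pi.single_eq_of_ne hi.ne] using this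
    · simp only [pre, un, Pi.add_apply, lt_irrefl, if_false, Pi.smul_apply, Pi.single_eq_same,
        smul_eq_mul]
      omega
    · simp [pre, un, hi.not_gt, Pi.single_eq_of_ne hi.ne']
  refine ⟨b2.trans b1.symm, fun ν hν => ?_⟩
  have hν' : μ < ν := hν
  simp only [b1]
  simp [pre, un, up, hν'.not_gt, Pi.single_eq_of_ne hν'.ne']

/-- the transport from the centre of the block -/
def hb (l : ℕ) (V : Lk → G) (x : St) : G :=
  cmb Inv.inv (sh (up l (yo l x)) V) (x - up l (yo l x))

theorem hb_up (l : ℕ) (V : Lk → G) (y : St) : hb l V (up l y) = 1 := by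
  rw [hb, yo_up, sub_self, cmb_zero]

theorem hb_congr {l : ℕ} {V V' : Lk → G} (h : ∀ e, tree l e → V e = V' e) (x : St) :
    hb l V x = hb l V' x := by
  have : ∀ μ, ln Inv.inv (sh (up l (yo l x)) V) (pre (x - up l (yo l x)) μ) μ
      ((x - up l (yo l x)) μ) = ln Inv.inv (sh (up l (yo l x)) V') (pre (x - up l (yo l x)) μ) μ
      ((x - up l (yo l x)) μ) := fun μ => ln_congr _ _ _ fun k h1 h2 =>
    h _ ((tree_add_up l _ _ μ).2 (tree_of (rel_box l x) μ h1 h2))
  simp only [hb, cmb, this]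

theorem hb_tree {l : ℕ} (V : Lk → G) {f : Lk} (hf : tree l f) :
    gauge Inv.inv (hb l V) V f = 1 := by
  rw [gauge, hb, hb, hf.1, add_sub_right_comm, cmb_succ _ _ _ fun ν hν => by
    rw [Pi.sub_apply, hf.2 ν hν, sub_self]]
  simp [sh]

theorem hb_per {l n : ℕ} {V : Lk → G} (hV : PL (LL l * n) V) : PS (LL l * n) (hb l V) := by
  intro x y h
  obtain ⟨k, hk, rfl⟩ := h.ex
  have e1 : y + up l k - up l (yo l (y + up l k)) = y - up l (yo l y) := by
    rw [yo_add_up]
    simp only [up, smul_add, add_sub_add_right_eq_sub]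
  have e2 : sh (up l (yo l (y + up l k))) V = sh (up l (yo l y)) V := by
    funext e
    refine hV _ _ _ fun i => ?_
    obtain ⟨c, hc⟩ := hk i
    refine ⟨c, ?_⟩
    rw [yo_add_up]
    simp only [up, Pi.add_apply, Pi.smul_apply, smul_eq_mul, hc]
    push_cast
    ring
  rw [hb, hb, e1, e2]

end grp

theorem cont_hb (l : ℕ) (x : St) : Continuous fun V : Conf => hb l V x :=
  (cont_cmb _).comp (cont_sh _)

theorem cg_rp (l n : ℕ) (x : St) : Cg (LL l * n) (rp l n x) x := fun i => by
  have h := Int.mul_ediv_add_emod (yo l x i) n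
  refine ⟨-(yo l x i / n), ?_⟩
  simp only [rp, up, Pi.sub_apply, Pi.smul_apply, smul_eq_mul]
  push_cast
  linear_combination ((LL l : ℕ) : ℤ) * h

theorem rp_mem (l : ℕ) {n : ℕ} (hn : 0 < n) (x : St) :
    rp l n x ∈ (cube n ×ˢ box l).image fun p => up l p.1 + p.2 := by
  refine Finset.mem_image.2 ⟨(fun i => yo l x i % (n : ℤ), x - up l (yo l x)), ?_, ?_⟩
  · simp only [Finset.mem_product, cube, box, Fintype.mem_piFinset, Finset.mem_Ico, Finset.mem_Icc]
    exact ⟨fun i => ⟨Int.emod_nonneg _ (by omega), Int.emod_lt_of_pos _ (by omega)⟩, rel_box l x⟩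
  · simp only [rp, up, smul_sub]
    abel

theorem eq_ext {α : Type} {l n : ℕ} (hn : 0 < n) {o : α} {V : Lk → α} (hV : PL (LL l * n) V)
    (ht : ∀ f, tree l f → V f = o) : ext l n o (fun f => V f) = V := by
  funext f
  have e : V (rp l n f.1, f.2) = V f := hV _ _ _ (cg_rp l n f.1)
  rw [ext]
  split_ifs with h
  · exact e
  · rw [← e, ht]
    by_contra h'
    exact h (Finset.mem_filter.2 ⟨Finset.mem_product.2 ⟨rp_mem l hn _, Finset.mem_univ _⟩, h'⟩)

theorem fund_inj {l n : ℕ} {f g : fund l n} (h : Cg (LL l * n) f.1.1 g.1.1) (h2 : f.1.2 = g.1.2) :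
    f = g := by
  refine Subtype.ext (Prod.ext ?_ h2)
  obtain ⟨p, hp, e1⟩ := Finset.mem_image.1 (Finset.mem_product.1 (Finset.mem_filter.1 f.2).1).1
  obtain ⟨q, hq, e2⟩ := Finset.mem_image.1 (Finset.mem_product.1 (Finset.mem_filter.1 g.2).1).1
  simp only [Finset.mem_product, cube, box, Fintype.mem_piFinset, Finset.mem_Ico,
    Finset.mem_Icc] at hp hq
  have y1 : yo l f.1.1 = p.1 := by rw [← e1, add_comm, yo_add_up, yo_box hp.2, zero_add]
  have y2 : yo l g.1.1 = q.1 := by rw [← e2, add_comm, yo_add_up, yo_box hq.2, zero_add]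
  obtain ⟨k, hk, e3⟩ := h.ex
  rw [e3, yo_add_up, y2] at y1
  have : k = 0 := by
    funext i
    have h1 := congrFun y1 i
    have h3 := hp.1 i
    have h4 := hq.1 i
    rw [Pi.add_apply] at h1
    exact Int.eq_zero_of_abs_lt_dvd (hk i) (abs_lt.2 ⟨by omega, by omega⟩)
  rw [e3, this]
  simp [up]

theorem cont_ext (l n : ℕ) : Continuous fun u : fund l n → S3 => ext l n 1 u := by
  refine continuous_pi fun f => ?_
  unfold ext
  split_ifs
  · exact continuous_apply _
  · exact continuous_const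

theorem tree_gauge (l : ℕ) {n : ℕ} (hn : 0 < n) {F : Conf → ℝ≥0∞} (hF : Measurable F)
    (hi : ∀ u V, PS (LL l * n) u → (∀ y, u (up l y) = 1) → F (gauge Inv.inv u V) = F V) :
    ∫⁻ U, F (per (LL l * n) U) ∂PP =
      ∫⁻ u, F (ext l n 1 u) ∂(Measure.pi fun _ : fund l n => haar) := by
  set j : fund l n → Lk := fun f => (fun i => f.1.1 i % ((LL l * n : ℕ) : ℤ), f.1.2) with hj
  have key : ∀ {x y : St}, (fun i => x i % ((LL l * n : ℕ) : ℤ)) =
      (fun i => y i % ((LL l * n : ℕ) : ℤ)) → Cg (LL l * n) x y := fun h i =>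
    Int.dvd_of_emod_eq_zero (Int.emod_eq_emod_iff_emod_sub_eq_zero.1 (congrFun h i))
  have inj : Function.Injective j := fun f g h =>
    fund_inj (key (Prod.ext_iff.1 h).1) (Prod.ext_iff.1 h).2
  have hc : ∀ x, Continuous fun U : Conf => hb l (per (LL l * n) U) x := fun x =>
    (cont_hb l x).comp (cont_per _)
  have hm := mp_skew inj (a := fun U f => hb l (per (LL l * n) U) f.1.1)
    (b := fun U f => (hb l (per (LL l * n) U) (f.1.1 + un f.1.2))⁻¹)
    (continuous_pi fun f => hc _).measurable (continuous_pi fun f => (hc _).inv).measurable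
    fun U U' h => by
      have : ∀ x, hb l (per (LL l * n) U) x = hb l (per (LL l * n) U') x := by
        refine hb_congr fun e he => h _ ?_
        rintro ⟨f, hf⟩
        obtain ⟨k, -, hk⟩ := (key (Prod.ext_iff.1 hf).1).ex
        have h2 : f.1.2 = e.2 := (Prod.ext_iff.1 hf).2
        refine (Finset.mem_filter.1 f.2).2 ?_
        rw [show f.1 = (e.1 + up l k, e.2) from Prod.ext hk h2, tree_add_up]
        exact he
      simp only [this, and_self]
  rw [← hm.lintegral_comp (f := fun u => F (ext l n 1 u)) (hF.comp (cont_ext l n).measurable)]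
  refine lintegral_congr fun U => ?_
  have hP := hb_per (l := l) (PL_per (LL l * n) U)
  rw [← hi _ _ hP (hb_up l _), ← eq_ext hn (PL_gauge hP (PL_per _ U)) fun f hf => hb_tree _ hf]
  rfl

theorem gauge_one {u : St → S3} (h : ∀ y, u y = 1) (W : Conf) : gauge Inv.inv u W = W := by
  funext e
  simp [gauge, h]

end M3

open M3 in
/-- reduction of a step to an integral over the links outside the trees -/
theorem GI.tree {l n : ℕ} (hn : 0 < n) {f : Conf → ℝ≥0∞} (h : GI (LL l * n) f) (a ε : ℝ)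
    (W : Conf) :
    TT l a n f W = ∫⁻ u, f (ext l n 1 u) * ∏ b ∈ lcube n, hk a (W b * (blk l (ext l n 1 u) b)⁻¹)
        ∂(Measure.pi fun _ : fund l n => haar) ∧
    open Classical in
    TG l a ε n f W = ∫⁻ u, (if curvG ε (ext l n 1 u) ∧ noiseG l ε (ext l n 1 u) W then
      f (ext l n 1 u) else 0) * ∏ b ∈ lcube n, hk a (W b * (blk l (ext l n 1 u) b)⁻¹)
        ∂(Measure.pi fun _ : fund l n => haar) := by
  have m1 := (meas_itg l a n h.1).comp (measurable_prodMk_left (x := W))
  have m2 := (meas_itgG l a ε n h.1).comp (measurable_prodMk_left (x := W))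
  simp only [Function.comp_def] at m1 m2
  constructor
  · rw [TT_eq]
    refine tree_gauge l hn (F := itg l a n f W) m1 fun u V hu h1 => ?_
    have := itg_gauge l a n u W (GI_inv h hu V)
    rwa [gauge_one h1] at this
  · rw [TG_eq]
    refine tree_gauge l hn (F := itgG l a ε n f W) m2 fun u V hu h1 => ?_
    have := itgG_gauge l a ε n u W (GI_inv h hu V)
    rwa [gauge_one h1] at this

end Pool.Agent.Lib.MP_7f377f_mp.RG.D3
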