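import Pool.Agent.Lib.MP_7f377f_mp.R3Base

/-! The block spin transformation and the effective densities. -/

noncomputable section

namespace Pool.Agent.Lib.MP_7f377f_mp.RG.D3

open Finset MeasureTheory
open scoped Quaternion ENNReal

abbrev Conf := Lk → S3

/-- product Haar measure -/
def PP : Measure Conf := Measure.infinitePi fun _ => haar

/-- periodisation -/
def per {α : Type} (n : ℕ) (W : Lk → α) : Lk → α := fun e => W (fun i => e.1 i % (n : ℤ), e.2)

/-- average of the transports from the centre of a block to the centre of the next one -/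
def avq (l : ℕ) (μ : Fin 3) (U : Conf) : ℍ :=
  ((LL l : ℝ) ^ 3)⁻¹ • ∑ t ∈ box l,
    (cmb Inv.inv U t * lnP U t μ (LL l) * (cmb Inv.inv (sh (up l (un μ)) U) t)⁻¹).q

open Classical in
def av (l : ℕ) (μ : Fin 3) (U : Conf) : S3 :=
  if h : avq l μ U = 0 then lnP U 0 μ (LL l) else
    (⟨‖avq l μ U‖⁻¹ • avq l μ U, by
      simp [norm_smul, norm_ne_zero_iff.mpr h]⟩ : Metric.sphere (0 : ℍ) 1)

/-- the block spin field -/
def blk (l : ℕ) (U : Conf) : Conf := fun b => av l b.2 (sh (up l b.1) U)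

def curvG (ε : ℝ) (U : Conf) : Prop := ∀ x μ ν, ‖(hol Inv.inv U x μ ν).q - 1‖ ≤ ε

def noiseG (l : ℕ) (ε : ℝ) (U W : Conf) : Prop := ∀ b, ‖(W b * (blk l U b)⁻¹).q - 1‖ ≤ ε

/-- Wilson action on the torus of side `n` -/
def wil (n : ℕ) (U : Conf) : ℝ :=
  ∑ x ∈ cube n, ∑ μ, ∑ ν, if μ < ν then 2 * (hol Inv.inv U x μ ν).q.re else 0

/-- one step for a density `f` on the torus of side `LL l * n` -/
def TT (l : ℕ) (a : ℝ) (n : ℕ) (f : Conf → ℝ≥0∞) (W : Conf) : ℝ≥0∞ :=
  ∫⁻ U, f (per (LL l * n) U) * ∏ b ∈ lcube n, hk a (W b * (blk l (per (LL l * n) U) b)⁻¹) ∂PP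

open Classical in
/-- one step restricted to small fields -/
def TG (l : ℕ) (a ε : ℝ) (n : ℕ) (f : Conf → ℝ≥0∞) (W : Conf) : ℝ≥0∞ :=
  ∫⁻ U, (if curvG ε (per (LL l * n) U) ∧ noiseG l ε (per (LL l * n) U) W then
    f (per (LL l * n) U) else 0) *
      ∏ b ∈ lcube n, hk a (W b * (blk l (per (LL l * n) U) b)⁻¹) ∂PP

/-- measurable densities invariant under gauge transformations of period `n` -/
def GI (n : ℕ) (f : Conf → ℝ≥0∞) : Prop :=
  Measurable f ∧ ∀ (u : St → S3) (U : Conf), (∀ x v, u (x + (n : ℤ) • v) = u x) →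
    f (gauge Inv.inv u U) = f U

/-- density of the field after `i` steps on the torus of side `n` (in units of that level) -/
def rho (l : ℕ → ℕ) (a : ℕ → ℝ) (β : ℝ) : ℕ → ℕ → Conf → ℝ≥0∞
  | 0, n => fun U => ENNReal.ofReal (Real.exp (β * wil n U))
  | i + 1, n => TT (l i) (a i) n (rho l a β i (LL (l i) * n))

/-- the same density restricted to histories with small fields -/
def rhoG (l : ℕ → ℕ) (a ε : ℕ → ℝ) (β : ℝ) : ℕ → ℕ → Conf → ℝ≥0∞
  | 0, n => fun U => ENNReal.ofReal (Real.exp (β * wil n U))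
  | i + 1, n => TG (l i) (a i) (ε i) n (rhoG l a ε β i (LL (l i) * n))

open Classical in
/-- the crude output of the renormalisation group -/
def Sand (l : ℕ → ℕ) (a ε : ℕ → ℝ) (β : ℝ) (k : ℕ) (M : ℕ → ℕ) (gam Del : ℕ → ℝ) : Prop :=
  ∀ i ≤ k, ∃ E : ℝ, ∀ n : ℕ, M i ≤ n →
    ∫⁻ U, rhoG l a ε β i n (per n U) ∂PP ≤ ENNReal.ofReal (Real.exp ((E + gam i) * n ^ 3)) ∧
    ∫⁻ U, (if curvG (ε i) (per n U) then 0 else rhoG l a ε β i n (per n U)) ∂PP ≤
      ENNReal.ofReal (Real.exp ((E + gam i) * n ^ 3 - Del i)) ∧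
    ENNReal.ofReal (Real.exp ((E - gam i) * n ^ 3)) ≤ ∫⁻ U, rho l a β i n (per n U) ∂PP

/-- the probability measure on fields of period `n` with density proportional to `f` -/
def lawOf (n : ℕ) (f : Conf → ℝ≥0∞) : Measure Conf :=
  ((∫⁻ U, f (per n U) ∂PP)⁻¹ • PP.withDensity fun U => f (per n U)).map (per n)

/-- the Wilson measure -/
def wilson (β : ℝ) (n : ℕ) : Measure Conf :=
  lawOf n fun U => ENNReal.ofReal (Real.exp (β * wil n U))

/-- law of the block field multiplied by independent noise -/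
def stepM (l : ℕ) (a : ℝ) (n : ℕ) (μ : Measure Conf) : Measure Conf :=
  (μ.prod (Measure.infinitePi fun _ : Lk => haar.withDensity (hk a))).map
    fun p => per n fun b => p.2 b * blk l p.1 b

/-- number of sites per side at level `j` -/
def nn (j : ℕ) : ℕ := 2 * 3 ^ j ^ 2

/-- the blocks from level `j + 1` to level `j` have side `LL (ll j) = 3 ^ (2 j + 1)` -/
def ll (j : ℕ) : ℕ := 3 ^ (2 * j + 1) / 2

/-- averaging with blocks of side `LL l` onto level `j` -/
def av1 (γ : ℝ) (j l : ℕ) : Measure Conf → Measure Conf :=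
  stepM l (γ * nn j * LL l ^ 3) (nn j)

/-- law at level `J - k` of the averaged field of the lattice with `LL l * nn J` sites per side -/
def law (γ : ℝ) (J l : ℕ) : ℕ → Measure Conf
  | 0 => av1 γ J l (wilson (γ * (LL l * nn J)) (LL l * nn J))
  | k + 1 => av1 γ (J - (k + 1)) (ll (J - (k + 1))) (law γ J l k)

/-- block sizes of the run, finest first -/
def lq (J l i : ℕ) : ℕ := if i = 0 then l else ll (J - i)

/-- couplings of the run -/
def bq (γ : ℝ) (J l i : ℕ) : ℝ := if i = 0 then γ * (LL l * nn J) else γ * nn (J + 1 - i)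

/-- noise parameters of the run -/
def aq (γ : ℝ) (J l i : ℕ) : ℝ := γ * nn (J - i) * LL (lq J l i) ^ 3

/-- small field thresholds of the run -/
def ep (γ : ℝ) (a J l i : ℕ) : ℝ := (LL (ll (J + 1 - i)) : ℝ) ^ a / √(bq γ J l i)

/-- density of the run after `i` steps, that is at level `J + 1 - i` -/
def rr (γ : ℝ) (J l : ℕ) : ℕ → ℕ → Conf → ℝ≥0∞ := rho (lq J l) (aq γ J l) (bq γ J l 0)

/-- the same for small fields -/
def rG (γ : ℝ) (a J l : ℕ) : ℕ → ℕ → Conf → ℝ≥0∞ :=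
  rhoG (lq J l) (aq γ J l) (ep γ a J l) (bq γ J l 0)

/-- admissible sizes of the first blocks -/
def Adm (J l : ℕ) : Prop := LL (ll J) ≤ LL l ∧ LL l ≤ LL (ll J) ^ 3

end Pool.Agent.Lib.MP_7f377f_mp.RG.D3
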