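import Pool.Agent.Lib.MP_7f377f_mp.P3Num
import Pool.Agent.Lib.MP_7f377f_mp.R3Step0

/-! The second difference of the effective action under a change of one link. -/

noncomputable section

namespace Pool.Agent.Lib.MP_7f377f_mp.RG.D3.Nn

open Finset
open SX (md md_mem md_eq md_of_mem md_md_add per_sh)

variable {m : BF} {r n : ℕ} {c δ ε : ℝ}

theorem quad_ap (hb : Bd r r c m) (c0 : 0 ≤ c) (hs : ∀ a b, m a b = m b a)
    (hg : ∀ u b, m (gr u) b = 0) {b : Fld} (h : Sm (r + 1) δ b) (h2 : 1000 * (r + 1) * δ ≤ 1) :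
    ‖cx m (Bx 0 (exF b)) (Bx 0 (exF b)) - cx m b b‖ ≤ 2 * 10 ^ 8 * c * ((r + 1) * δ) ^ 3 := by
  have δ0 := h.nonneg
  have r0 : (0 : ℝ) ≤ r := r.cast_nonneg
  have k0 : 0 ≤ r * δ := by positivity
  have h1 := Bx_ap (Ap_exF h (by nlinarith)) (by nlinarith) h2
  have h3 := Sm_cg h.cv
  have e : cx m b b = cx m (cg b) (cg b) := by
    simp only [cg, cx_sub_left, cx_sub_right, cx_gr_left hg,
      cx_gr_right fun u b => (hs _ _).trans (hg u b), sub_zero]
  generalize Bx 0 (exF b) = X at *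
  generalize cg b = Y at *
  have a1 : Sm r (11 * 10 ^ 4 * ((r + 1) * δ) ^ 2) (X - Y) := h1.mono le_rfl (by
    nlinarith [mul_nonneg (mul_nonneg r0 (by linarith : (0 : ℝ) ≤ r + 1)) (sq_nonneg δ)])
  have a2 : Sm r (12 * ((r + 1) * δ)) Y := h3.mono le_rfl (by nlinarith)
  have h4 : 1000 * ((r + 1) * δ) ≤ 1 := by linarith
  have t0 : 0 ≤ (r + 1) * δ := by positivity
  generalize (r + 1) * δ = t at *
  have a3 : Sm r (110 * t) (X - Y) := a1.mono le_rfl (by nlinarith)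
  have b1 := cx_bd hb a1 a3
  have b2 := cx_bd hb a1 a2
  have b3 := cx_bd hb a2 a1
  rw [e, show cx m X X - cx m Y Y = cx m (X - Y) (X - Y) + cx m (X - Y) Y + cx m Y (X - Y) by
    simp only [cx_sub_left, cx_sub_right]; ring]
  refine norm_add₃_le.trans ?_
  nlinarith [mul_nonneg c0 (pow_nonneg t0 3)]

/-- the field which is `g` on the link at the origin and its images, and one elsewhere -/
def sg (n : ℕ) (g : S3) : Conf := per n (Pi.mulSingle (0, 0) g)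

theorem sg_zero (g : S3) : sg n g (0, 0) = g := by simp [sg, per, ← Pi.zero_def]

theorem sg_of_ne (g : S3) {e : Lk} (h : md n e.1 ≠ 0) : sg n g e = 1 :=
  Pi.mulSingle_eq_of_ne (fun h' => h (Prod.ext_iff.1 h').1) _

theorem sg_box (g : S3) {R : ℕ} (hR : R < n) {e : Lk} (he : e ∈ lbox R) (h : e ≠ (0, 0)) :
    sg n g e = 1 := by
  have : (md n e.1, e.2) ≠ (0, 0) := fun h' => h (Prod.ext (funext fun i => by
    have := mem_box.1 (mem_lbox.1 he) i
    exact Int.eq_zero_of_abs_lt_dvd (m := n)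
      (Int.dvd_of_emod_eq_zero (congrFun (Prod.ext_iff.1 h').1 i))
      (abs_lt.2 ⟨by omega, by omega⟩)) (Prod.ext_iff.1 h').2)
  exact Pi.mulSingle_eq_of_ne this _

theorem sg_norm (g : S3) (e : Lk) : ‖(sg n g e).q - 1‖ ≤ ‖g.q - 1‖ := by
  simp only [sg, per, Pi.mulSingle_apply]
  split_ifs <;> simp [S3.q_one]

theorem curv_mul {G U : Conf} (hG : ∀ e, ‖(G e).q - 1‖ ≤ δ) (h : curvG ε U) :
    curvG (ε + 4 * δ) (G * U) := fun x μ ν => by
  have k : ∀ (u : S3) e, ‖(u * G e * u⁻¹).q - 1‖ ≤ δ := fun u e => by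
    rw [S3.norm_conj_sub]
    exact hG e
  have k' : ∀ (u : S3) e, ‖(u * (G e)⁻¹ * u⁻¹).q - 1‖ ≤ δ := fun u e => by
    rw [S3.norm_conj_sub, S3.norm_inv_sub]
    exact hG e
  have h1 := hG (x, μ)
  have h2 := k (U (x, μ)) (x + un μ, ν)
  have h3 := k' (U (x, ν)) (x + un ν, μ)
  have h4 := k' 1 (x, ν)
  have h5 := h x μ ν
  have e : hol Inv.inv (G * U) x μ ν = G (x, μ) * (U (x, μ) * G (x + un μ, ν) * (U (x, μ))⁻¹) *
      hol Inv.inv U x μ ν * (U (x, ν) * (G (x + un ν, μ))⁻¹ * (U (x, ν))⁻¹) *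
      (U (x, ν) * ((U (x, ν))⁻¹ * (G (x, ν))⁻¹)) := by
    simp only [hol, Pi.mul_apply]
    group
  rw [e, mul_inv_cancel_left]
  rw [one_mul, inv_one, mul_one] at h4
  refine (S3.norm_mul_sub _ _).trans ((add_le_add_left ((S3.norm_mul_sub _ _).trans
    (add_le_add_left ((S3.norm_mul_sub _ _).trans (add_le_add_left (S3.norm_mul_sub _ _) _)) _))
      _).trans ?_)
  linarith

theorem loc (hb : Bd r r c m) (c0 : 0 ≤ c) (hs : ∀ a b, m a b = m b a)
    (hg : ∀ u b, m (gr u) b = 0) (hr : Rng r r m) {U : Conf} (h : curvG ε U) {g : S3} {t : C3}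
    (ht : cS g = ex t) (h1 : ‖t‖ ≤ ε) (hn : 2 * r + 2 < n) (h2 : 31000 * (r + 1) ^ 2 * ε ≤ 1)
    {v : St} (hv : v ∈ box (r + 1)) :
    ‖cx m (Bx v (cC (sg n g * U))) (Bx v (cC (sg n g * U))) -
      cx m (sh v (Bx 0 (cC U) + Pi.single (0, 0) t)) (sh v (Bx 0 (cC U) + Pi.single (0, 0) t))‖ ≤
      2 * 10 ^ 8 * c * (31 * (r + 1) ^ 2 * ε) ^ 3 := by
  have ε0 := h.nonneg
  have r0 : (0 : ℝ) ≤ r := r.cast_nonneg
  have k0 : 0 ≤ r * ε := by positivity
  obtain ⟨a1, a2, -⟩ := real_fix (R := r + 1 + (r + 1)) h (by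
    push_cast
    nlinarith [mul_nonneg r0 k0])
  have a3 : Sm (r + 1 + (r + 1)) (31 * (r + 1) * ε) (Bx 0 (cC U) + Pi.single (0, 0) t) := by
    refine (a2.add (δ' := ε) fun e _ => ?_).mono le_rfl (by push_cast; nlinarith)
    rw [Pi.single_apply]
    split_ifs <;> simp [h1, ε0]
  have a4 : Agr (r + 1 + (r + 1)) (cC (gauge Inv.inv (cmb Inv.inv U) (sg n g * U)))
      (exF (Bx 0 (cC U) + Pi.single (0, 0) t)) := fun e he => by
    by_cases h0 : e = (0, 0)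
    · have b1 := fix_tr U (p := 0) (ν := 0) fun _ _ => rfl
      have b2 := Bx_tr (cC U) (p := 0) (ν := 0) fun _ _ => rfl
      simp only [gauge, cmb_zero, one_mul] at b1
      simp only [h0, exF, cC, gauge, Pi.add_apply, Pi.mul_apply, sg_zero, cmb_zero, one_mul,
        mul_assoc, b1, mul_one, Pi.single_eq_same, ht]
      rw [b2, zero_add]
    · have := a1 e he
      simp only [exF, cC, gauge, Pi.add_apply, Pi.mul_apply, Pi.single_eq_of_ne h0, add_zero,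
        sg_box g (by omega : r + 1 + (r + 1) < n) he h0, one_mul] at this ⊢
      exact this
  have a5 := Bx_agr (a4.sh hv)
  have a6 := quad_ap hb c0 hs hg (a3.sh hv) (by linarith)
  rw [← cx_adF m hr (uni_cS (cmb Inv.inv U v)), ← Bx_gauge fun x => uni_cS _, ← cC_gauge, Bx_eq,
    cx_agr hr a5 a5]
  exact a6.trans_eq (by ring)

theorem sum_loc (hn : 0 < n) {R : ℕ} {D H : St → ℝ} (hp : ∀ x, D (md n x) = D x)
    (h0 : ∀ x, (∀ v ∈ box R, md n (v + x) ≠ 0) → D x = 0) (h1 : ∀ v ∈ box R, D v ≤ H v)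
    (h2 : ∀ v, 0 ≤ H v) : ∑ x ∈ cube n, D x ≤ ∑ v ∈ box R, H v := by
  rw [← sum_fiberwise_of_maps_to (s := box R) (g := md n) fun v _ => md_mem hn v]
  refine sum_le_sum fun x hx => ?_
  by_cases h : ∀ v ∈ box R, md n (v + x) ≠ 0
  · exact (h0 x h).trans_le (sum_nonneg fun v _ => h2 v)
  · push Not at h
    obtain ⟨v, hv, e⟩ := h
    have e' := md_md_add n (v + x) (-v)
    rw [e, zero_add, add_neg_cancel_comm, md_of_mem hx] at e'
    rw [← e', hp]
    exact (h1 _ (neg_mem_box hv)).trans (single_le_sum (f := H) (fun v _ => h2 v)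
      (mem_filter.2 ⟨neg_mem_box hv, rfl⟩))

theorem Bx_md {U : Conf} (h : Per n U) (x : St) : Bx (md n x) (cC U) = Bx x (cC U) := by
  rw [Bx_eq, Bx_eq x, sh_cC, sh_cC]
  conv_rhs => rw [md_eq n x, per_sh h]

theorem Bx_far (g : S3) (U : Conf) {R : ℕ} {x : St} (h : ∀ v ∈ box (R + 1), md n (v + x) ≠ 0) :
    Agr R (Bx x (cC (sg n g * U))) (Bx x (cC U)) := by
  rw [Bx_eq, Bx_eq x (cC U)]
  refine Bx_agr fun e he => ?_
  simp only [sh_apply, cC, Pi.mul_apply]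
  rw [sg_of_ne g (h _ (mem_lbox.1 he)), one_mul]

theorem per_sg (g : S3) {U : Conf} (h : Per n U) : Per n (sg n g * U) := fun μ => by
  change sh _ (per n _) * sh _ U = _
  rw [Pv.per_per n _ μ, h μ, sg]

theorem sg_one (U : Conf) : sg n 1 * U = U := by
  rw [sg, Pi.mulSingle_one]
  exact one_mul U

theorem sh_single {W : Type} [Zero W] (v : St) (t : W) :
    sh v (Pi.single (0, 0) t) = Pi.single (-v, 0) t := by
  funext e
  simp [sh_apply, Pi.single_apply, Prod.ext_iff, add_eq_zero_iff_eq_neg]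

open scoped Pointwise in
theorem act_diff {C : ℝ} (hC : ∀ (B : V) (S T : Finset St), (∀ e : Lk, e.1 ∉ T → B e = 0) →
      ∑ x ∈ S, m (sh x B) (sh x B) ≤ C * ∑ x ∈ T + box 1, nd B x) {k R : ℕ} {cL cU β ρ κ : ℝ}
    {φ : Fld → ℂ} (hm : Inv k r cL cU m) (hb : Bd r r c m) (c0 : 0 ≤ c) (hφ : Tm R ρ κ φ)
    (β0 : 0 ≤ β) {U : Conf} (hU : Per n U) (h : curvG ε U) {g : S3} {v : E3}
    (hg : cS g = ex (cE v)) (h1 : ‖v‖ ≤ ε) (h1' : ‖g.q - 1‖ ≤ ε) (hn : 2 * r + 2 < n)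
    (h2 : 31000 * (r + 1) ^ 2 * ε ≤ 1) (h3 : 1000 * (R + 1) * (ε + 4 * ε) ≤ 1)
    (h4 : ε + 4 * ε + 10 ^ 6 * ((R + 1) * (ε + 4 * ε)) ^ 2 ≤ ρ) :
    act β m φ n (sg n g * U) + act β m φ n (sg n g⁻¹ * U) - 2 * act β m φ n U ≤
      β * (2 * ‖v‖ ^ 2 * (C * ∑ x ∈ {0} + box 1, nd (Pi.single (0, 0) 1) x) +
        (2 * r + 3) ^ 3 * (8 * 10 ^ 8 * c * (31 * (r + 1) ^ 2 * ε) ^ 3)) +
          (2 * R + 5) ^ 3 * (4 * κ) := by
  have ε0 := h.nonneg
  have n0 : 0 < n := by omega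
  have p1 := per_sg g hU
  have p2 := per_sg g⁻¹ hU
  have hφ' : ∀ (g : S3) x, ‖g.q - 1‖ ≤ ε → |(φ (Bx x (cC (sg n g * U)))).re| ≤ κ := fun g x hg => by
    rw [Bx_eq, sh_cC]
    exact (Complex.abs_re_le_norm _).trans (hφ.bd _ ((real_fix
      ((curv_mul (fun e => (sg_norm g e).trans hg) h).sh x) h3).2.2.mono le_rfl h4))
  have κ0 := (abs_nonneg _).trans (hφ' g 0 h1')
  have s1 := sum_loc n0 (R := r + 1) (D := fun x =>
    (cx m (Bx x (cC (sg n g * U))) (Bx x (cC (sg n g * U)))).re +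
      (cx m (Bx x (cC (sg n g⁻¹ * U))) (Bx x (cC (sg n g⁻¹ * U)))).re -
      2 * (cx m (Bx x (cC U)) (Bx x (cC U))).re)
    (H := fun x => 2 * ‖v‖ ^ 2 * m (sh x (Pi.single (0, 0) 1)) (sh x (Pi.single (0, 0) 1)) +
      8 * 10 ^ 8 * c * (31 * (r + 1) ^ 2 * ε) ^ 3)
    (fun x => by simp only [Bx_md hU, Bx_md p1, Bx_md p2]) (fun x hx => by
      simp only [cx_agr hm.rng (Bx_far _ U hx) (Bx_far _ U hx)]
      ring) (fun x hx => ?_) fun x => by have := hm.psd (sh x (Pi.single (0, 0) 1)); positivity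
  swap
  · have l := fun (g : S3) (t : C3) (ht : cS g = ex t) (h1 : ‖t‖ ≤ ε) => abs_le.1
      ((Complex.abs_re_le_norm _).trans (loc hb c0 hm.symm hm.gauge hm.rng h ht h1 hn h2 hx))
    have l1 := l g _ hg ((norm_cE v).1.trans h1)
    have l2 := l g⁻¹ (-cE v) (by rw [cS_inv, hg, star_ex])
      ((norm_neg _).trans_le ((norm_cE v).1.trans h1))
    have l3 := l 1 0 (by simp [cS_one, ex]) (by simpa)
    have e : ∀ A B : Fld, sh x (A + B) = sh x A + sh x B := fun _ _ => rfl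
    have e' : ∀ A B : Fld, sh x (A - B) = sh x A - sh x B := fun _ _ => rfl
    rw [sg_one, Pi.single_zero, add_zero] at l3
    rw [Pi.single_neg, ← sub_eq_add_neg] at l2
    simp only [e, e', sh_single, cx_add_left, cx_add_right, cx_sub_left, cx_sub_right, cx_single,
      dot_cE_self, Complex.sub_re, Complex.add_re, ← Complex.ofReal_mul, Complex.ofReal_re]
      at l1 l2 l3 ⊢
    linarith [l1.2, l2.2, l3.1]
  have s2 := sum_loc n0 (R := R + 1 + 1) (D := fun x => (φ (Bx x (cC (sg n g * U)))).re +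
      (φ (Bx x (cC (sg n g⁻¹ * U)))).re - 2 * (φ (Bx x (cC U))).re) (H := fun _ => 4 * κ)
    (fun x => by simp only [Bx_md hU, Bx_md p1, Bx_md p2]) (fun x hx => ?_) (fun x _ => ?_)
    fun _ => by positivity
  rotate_left
  · have : ∀ g : S3, φ (Bx x (cC (sg n g * U))) = φ (Bx x (cC U)) := fun g =>
      hφ.loc _ _ fun y hy μ ν => by
        have b1 := fun μ => Bx_far g U hx (y, μ) (mem_lbox.2 (box_mono R.le_succ hy))
        have b2 := fun μ ν => Bx_far g U hx (y + un μ, ν) (mem_lbox.2 (add_un_mem_box hy μ))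
        simp only [dd, b1, b2]
    simp only [this]
    ring
  · have l1 := abs_le.1 (hφ' g x h1')
    have l2 := abs_le.1 (hφ' g⁻¹ x ((S3.norm_inv_sub g).trans_le h1'))
    have l3 := abs_le.1 (hφ' 1 x (by simpa [S3.q_one]))
    rw [sg_one] at l3
    linarith [l1.2, l2.2, l3.1]
  have s3 := mul_le_mul_of_nonneg_left (hC (Pi.single (0, 0) 1) (box (r + 1)) {0} fun e he =>
    Pi.single_eq_of_ne (fun h => he (by simp [h])) _) (show 0 ≤ 2 * ‖v‖ ^ 2 by positivity)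
  simp only [sum_add_distrib, sum_sub_distrib, ← mul_sum, sum_const, card_box, nsmul_eq_mul]
    at s1 s2
  simp only [act, Complex.add_re, Complex.re_ofReal_mul, sum_add_distrib, ← mul_sum]
  push_cast at s1 s2
  have s4 := mul_le_mul_of_nonneg_left (s1.trans (add_le_add_left s3 _)) β0
  rw [show 2 * (r + 1 : ℝ) + 1 = 2 * r + 3 by ring] at s4
  rw [show 2 * (R + 1 + 1 : ℝ) + 1 = 2 * R + 5 by ring] at s2
  linarith

end Pool.Agent.Lib.MP_7f377f_mp.RG.D3.Nn
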