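import Pool.Agent.Lib.MP_7f377f_mp.R3Op1

/-! Locality, covariance, reality and holomorphy of `pol` and `dt`. -/

noncomputable section

namespace Pool.Agent.Lib.MP_7f377f_mp.RG.D3

open Finset Polynomial

attribute [local irreducible] box lbox cube

namespace Op

variable {D : Dat}

def cSH : S3 →* Hc where
  toFun := cS
  map_one' := cS_one
  map_mul' := cS_mul

theorem cmb_cC (U : Conf) (x : St) : cmb star (cC U) x = cS (cmb Inv.inv U x) :=
  (cmb_map cSH (iv := Inv.inv) (iv' := star) cS_inv U x).symm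

theorem sh_cC (y : St) (U : Conf) : sh y (cC U) = cC (sh y U) := rfl

theorem cC_one : cC 1 = 1 := funext fun _ => cS_one

theorem cC_gauge (u : St → S3) (U : Conf) :
    cC (gauge Inv.inv u U) = gauge star (fun x => cS (u x)) (cC U) := by
  funext e
  simp only [cC, gauge, cS_mul, cS_inv]

/-- the real part of a vector -/
def reE (b : C3) : E3 := WithLp.toLp 2 fun k => (b k).re

/-- the imaginary part of a vector -/
def imE (b : C3) : E3 := WithLp.toLp 2 fun k => (b k).im

theorem cE_reE {b : C3} (h : ∀ k, (b k).im = 0) : cE (reE b) = b := by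
  funext k
  apply Complex.ext <;> simp [cE, reE, h]

theorem reE_cE (v : E3) : reE (cE v) = v := by
  ext k
  simp [cE, reE]

theorem cE_im (v : E3) (k : Fin 3) : (cE v k).im = 0 := by simp [cE]

theorem adq_real (g : S3) {b : C3} (h : ∀ k, (b k).im = 0) (k : Fin 3) :
    (adq (cS g) b k).im = 0 := by
  obtain ⟨T, hT⟩ := exists_rot g
  rw [← cE_reE h, ← hT]
  exact cE_im _ _

theorem pj_real {A : Fld} (hA : RealF A) : RealF (D.pj A) := fun e k => by
  simp only [Dat.pj]
  split_ifs
  · rfl
  · exact hA e k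

theorem Ay_real (y : St) (W : Conf) {A : Fld} (hA : RealF A) : RealF (D.Ay y (cC W) A) :=
  fun e k => by
    simp only [Dat.Ay, adF, sh_cC, cmb_cC]
    exact adq_real _ (hA _) k

theorem cxL_real (T : V →ₗ[ℝ] V) {A : Fld} (hA : RealF A) : RealF (cxL T A) := fun e k => by
  have : imF A k = 0 := funext fun e => hA e k
  simp [cxL, this]

theorem hamL_real (W : Conf) {A : Fld} (hA : RealF A) : RealF (hamL D (cC W) A) := fun e k => by
  rw [hamL_apply, Finset.sum_apply, Complex.im_sum]
  refine sum_eq_zero fun y _ => ?_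
  rw [sh_cC, cmb_cC, ← cS_inv]
  exact adq_real _ (cxL_real _ (Ay_real _ _ hA) _) k

theorem top_real (W : Conf) {A : Fld} (hA : RealF A) : RealF (D.top (cC W) A) := fun e k => by
  rw [top_eq]
  split_ifs
  · rfl
  · simp [← Complex.ofReal_inv, hA e k, hamL_real W (pj_real hA) e k]

theorem iter_real (W : Conf) {A : Fld} (hA : RealF A) (n : ℕ) : RealF ((D.top (cC W))^[n] A) := by
  induction n with
  | zero => exact hA
  | succ n ih => rw [Function.iterate_succ_apply']; exact top_real W ih

theorem pj_disc {Ω : Set ℂ} {A : ℂ → Fld} (hA : Disc Ω A) : Disc Ω fun t => D.pj (A t) :=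
  fun e => by
    simp only [Dat.pj]
    split_ifs
    · exact differentiableOn_const _
    · exact hA e

theorem top_disc (hr : HR D) {Ω : Set ℂ} {W : ℂ → Cf} (hW : Disc Ω W) {A : ℂ → Fld}
    (hA : Disc Ω A) : Disc Ω fun t => D.top (W t) (A t) := fun e => by
  have hc : ∀ y x, DifferentiableOn ℂ (fun t => cmb star (sh y (W t)) x) Ω := fun y x =>
    cmb_disc (U := fun t => sh y (W t)) (fun _ => hW _) (fun _ h => lin_diff stL h) x
  simp only [top_eq, hamL_ker hr]
  split_ifs
  · exact differentiableOn_const _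
  · refine (hA e).sub (DifferentiableOn.fun_const_smul (DifferentiableOn.fun_sum fun y _ =>
      DifferentiableOn.fun_sum fun e' _ => DifferentiableOn.fun_const_smul ?_ _) _)
    exact adq_diff (lin_diff stL (hc _ _)) (adq_diff (hc _ _) (pj_disc hA _))

theorem pj_cont : Continuous D.pj := continuous_pi fun f => by
  simp only [Dat.pj]
  split_ifs
  · exact continuous_const
  · exact continuous_apply f

theorem top_cont (hr : HR D) (W : Cf) : Continuous (D.top W) := continuous_pi fun f => by
  have hp : ∀ e, Continuous fun A => D.pj A e := fun e => (continuous_apply e).comp pj_cont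
  simp only [top_eq, hamL_ker hr]
  split_ifs
  · exact continuous_const
  · refine (continuous_apply f).sub (Continuous.fun_const_smul (continuous_finsetSum _ fun y _ =>
      continuous_finsetSum _ fun e' _ => Continuous.fun_const_smul ?_ _) _)
    exact (adqL _).continuous_of_finiteDimensional.comp
      ((adqL _).continuous_of_finiteDimensional.comp (hp _))

theorem pol_agr' (hr : HR D) {p : ℂ[X]} {n a : ℕ} (hp : p.natDegree ≤ n) {W W' : Cf}
    {A A' : Fld} (hW : Agr (a + 3 * n + 1) W W') (hA : Agr (fb D.l (a + 3 * n)) A A') :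
    Agr (fb D.l a) (D.pol p W A) (D.pol p W' A') := by
  intro f hf
  rw [pol_apply, pol_apply]
  refine sum_congr rfl fun i hi => ?_
  have := (le_natDegree_of_mem_supp i hi).trans hp
  rw [iter_agr hr i (agr_mono (by omega) hW) (A' := D.pj A') (fun e he => ?_) f hf]
  simp only [Dat.pj, agr_mono (fb_mono _ (by omega)) hA e he]

theorem natDegree_pP (N : ℕ) : (pP N).natDegree ≤ N :=
  natDegree_sum_le_of_forall_le _ _ fun _ hi =>
    (natDegree_monomial_le _).trans (Nat.lt_succ_iff.1 (mem_range.1 hi))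

theorem natDegree_pQ (N : ℕ) : (pQ N).natDegree ≤ N :=
  natDegree_sum_le_of_forall_le _ _ fun _ hi => (natDegree_monomial_le _).trans (mem_range.1 hi)

theorem pol_pP (N : ℕ) (W : Cf) (A : Fld) : D.pol (pP N) W A =
    ∑ n ∈ range (N + 1), (bin n : ℂ) • (D.top W)^[n] (D.pj A) := by
  simp only [pol_eq, pP, map_sum, aeval_monomial, LinearMap.sum_apply, Module.End.mul_apply,
    topL_pow, Module.algebraMap_end_apply]

theorem pol_pQ (N : ℕ) (W : Cf) (A : Fld) : D.pol (pQ N) W A =
    ∑ n ∈ range N, (1 / (2 * (n + 1)) : ℂ) • (D.top W)^[n + 1] (D.pj A) := by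
  simp only [pol_eq, pQ, map_sum, aeval_monomial, LinearMap.sum_apply, Module.End.mul_apply,
    topL_pow, Module.algebraMap_end_apply]

end Op

open Op

namespace Dat
variable {D : Dat} {c R : ℕ} {τ ρ κ : ℝ}

theorem pol_tree (p : ℂ[X]) (W : Cf) (A : Fld) {f : Lk} (hf : tree D.l f) : D.pol p W A f = 0 := by
  simp only [pol_apply, iter_tree W A _ hf, smul_zero, sum_const_zero]

theorem pol_sh (p : ℂ[X]) (y : St) (W : Cf) (A : Fld) :
    D.pol p (sh y W) (sh (up D.l y) A) = sh (up D.l y) (D.pol p W A) := by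
  funext f
  simp only [pol_apply, pj_sh, iter_sh, sh]

theorem pol_agr (h : D.Ok c τ R ρ κ) {p : ℂ[X]} {n a : ℕ} (hp : p.natDegree ≤ n) {W W' : Cf}
    {A A' : Fld} (hW : Agr (a + 4 * n + 4) W W') (hA : Agr (fb D.l (a + 4 * n)) A A') :
    Agr (fb D.l a) (D.pol p W A) (D.pol p W' A') :=
  pol_agr' h.lin.hh_rng hp (agr_mono (by omega) hW) (agr_mono (fb_mono _ (by omega)) hA)

theorem pol_gauge (h : D.Ok c τ R ρ κ) (p : ℂ[X]) {u : St → Hc} (hu : ∀ x, Uni (u x)) (W : Cf)
    (A : Fld) : D.pol p (gauge star u W) (adF (fun x => u (yo D.l x)) A) =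
      adF (fun x => u (yo D.l x)) (D.pol p W A) := by
  have : ∀ (n : ℕ) (B : Fld), (D.top (gauge star u W))^[n] (adF (fun x => u (yo D.l x)) B) =
      adF (fun x => u (yo D.l x)) ((D.top W)^[n] B) := fun n B => by
    induction n with
    | zero => rw [Function.iterate_zero_apply, Function.iterate_zero_apply]
    | succ n ih =>
      rw [Function.iterate_succ_apply', Function.iterate_succ_apply', ih,
        top_gauge h.lin.hh_rng hu]
  funext f
  simp only [pol_apply, adF_pj, this, adF, ← adqL_apply, map_sum, map_smul]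

theorem pol_real {p : ℂ[X]} (hp : ∀ n, (p.coeff n).im = 0) (W : Conf) {A : Fld} (hA : RealF A) :
    RealF (D.pol p (cC W) A) := fun e k => by
  rw [pol_apply, Finset.sum_apply, Complex.im_sum]
  refine sum_eq_zero fun n _ => ?_
  simp [hp n, iter_real W (pj_real hA) n e k]

theorem pol_disc (h : D.Ok c τ R ρ κ) (p : ℂ[X]) {Ω : Set ℂ} {W : ℂ → Cf} (hW : Disc Ω W)
    (A : Fld) : Disc Ω fun t => D.pol p (W t) A := by
  have : ∀ n : ℕ, Disc Ω fun t => (D.top (W t))^[n] (D.pj A) := fun n => by
    induction n with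
    | zero => exact fun _ => differentiableOn_const _
    | succ n ih =>
      simp only [Function.iterate_succ_apply']
      exact top_disc h.lin.hh_rng hW ih
  intro f
  simp only [pol_apply]
  exact DifferentiableOn.fun_sum fun n _ => (this n f).fun_const_smul _

theorem pol_cont (h : D.Ok c τ R ρ κ) (p : ℂ[X]) (W : Cf) : Continuous (D.pol p W) :=
  continuous_pi fun f => by
    simp only [pol_apply]
    exact continuous_finsetSum _ fun n _ => ((continuous_apply f).comp
      (((top_cont h.lin.hh_rng W).iterate n).comp pj_cont)).fun_const_smul _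

theorem dt_agr (h : D.Ok c τ R ρ κ) {W W' : Cf} (hW : Agr (4 * D.N + 4) W W') :
    D.dt W = D.dt W' := by
  refine sum_congr rfl fun f hf => sum_congr rfl fun k _ => ?_
  rw [pol_agr h (a := 0) (natDegree_pQ _) (by rwa [zero_add]) (fun _ _ => rfl) f
    (by simpa [fb] using hf)]

theorem dt_gauge (h : D.Ok c τ R ρ κ) {u : St → Hc} (hu : ∀ x, Uni (u x)) (W : Cf) :
    D.dt (gauge star u W) = D.dt W := by
  refine sum_congr rfl fun f _ => ?_
  let M : Cf → C3 →ₗ[ℂ] C3 := fun W =>
    LinearMap.proj f ∘ₗ polL D (pQ D.N) W ∘ₗ LinearMap.single ℂ (fun _ => C3) f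
  have tr : ∀ W, ∑ k, D.pol (pQ D.N) W (Pi.single f (Pi.single k 1)) f k =
      LinearMap.trace ℂ C3 (M W) := fun W => by
    rw [LinearMap.trace_eq_matrix_trace ℂ (Pi.basisFun ℂ (Fin 3))]
    simp [Matrix.trace, M, polL_apply]
  have e : M (gauge star u W) = adqL (u (yo D.l f.1)) * (M W * adqL (star (u (yo D.l f.1)))) := by
    refine LinearMap.ext fun b => ?_
    have : (Pi.single f b : Fld) =
        adF (fun x => u (yo D.l x)) (Pi.single f (adq (star (u (yo D.l f.1))) b)) := by
      funext e
      by_cases he : e = f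
      · simp only [he, adF, Pi.single_eq_same, adq_adq_star (hu _)]
      · simp only [adF, Pi.single_eq_of_ne he, ← adqL_apply, map_zero]
    simp only [M, LinearMap.comp_apply, LinearMap.single_apply, polL_apply, LinearMap.proj_apply,
      Module.End.mul_apply, adqL_apply]
    rw [this, pol_gauge h _ hu, adF]
  have e2 : adqL (star (u (yo D.l f.1))) * adqL (u (yo D.l f.1)) = 1 := by
    exact LinearMap.ext fun b => adq_star_adq (hu _) b
  rw [tr, tr, e, LinearMap.trace_mul_comm, mul_assoc, e2, mul_one]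

theorem dt_real (W : Conf) : (D.dt (cC W)).im = 0 := by
  simp only [dt, Complex.im_sum]
  refine sum_eq_zero fun f _ => sum_eq_zero fun k _ => pol_real (fun n => ?_) W (fun e j => ?_) f k
  · rw [pQ, finsetSum_coeff, Complex.im_sum]
    refine sum_eq_zero fun i _ => ?_
    rw [coeff_monomial]
    split_ifs
    · rw [show (1 / (2 * (i + 1)) : ℂ) = ((1 / (2 * (i + 1)) : ℝ) : ℂ) by push_cast; rfl]
      exact Complex.ofReal_im _
    · rfl
  · by_cases he : e = f
    · by_cases hj : j = k <;> simp [he, hj]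
    · simp [he]

end Dat

end Pool.Agent.Lib.MP_7f377f_mp.RG.D3
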