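import Pool.Agent.Lib.MP_7f377f_mp.R3Op2
import Pool.Agent.Lib.MP_7f377f_mp.R3Step0

/-! The operator `top` on the torus as a symmetric operator of a Euclidean space. -/

noncomputable section

namespace Pool.Agent.Lib.MP_7f377f_mp.RG.D3.Op

open Finset Polynomial
open scoped InnerProductSpace

attribute [local irreducible] box lbox cube

variable {D : Dat} {n : ℕ}

/-- periodicity in units of blocks -/
def PerB {α : Type} (l n : ℕ) (A : Lk → α) : Prop := ∀ v : St, sh (up l ((n : ℤ) • v)) A = A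

theorem Ay_per {W : Cf} (hW : Per n W) {A : Fld} (hA : PerB D.l n A) (y v : St) :
    D.Ay (y + (n : ℤ) • v) W A = D.Ay y W A := by
  rw [← Ay_sh, hW.sh_smul, hA]

theorem sum_per {l : ℕ} {Φ : Lk → ℝ} (hΦ : PerB l n Φ) (a : ℕ) :
    ∑ y ∈ cube n, ∑ e ∈ lbox (fb l a), Φ (e.1 + up l y, e.2) =
      (2 * a + 1) ^ 3 * ∑ y ∈ cube n, ∑ t ∈ lbox l, Φ (t.1 + up l y, t.2) := by
  simp only [sum_fb]
  rw [sum_comm, sum_congr rfl (g := fun _ => ∑ y ∈ cube n, ∑ t ∈ lbox l, Φ (t.1 + up l y, t.2))]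
  · simp [card_box]
  · intro x _
    rw [← sum_cube_add (f := fun y => ∑ t ∈ lbox l, Φ (t.1 + up l y, t.2)) (fun y v => ?_) x]
    · simp only [up_add, add_assoc, add_comm (up l x)]
    · refine sum_congr rfl fun t _ => ?_
      rw [up_add, ← add_assoc]
      exact congrFun (hΦ v) (t.1 + up l y, t.2)

theorem dot_sum {ι : Type} (s : Finset ι) (a : C3) (b : ι → C3) :
    dot a (∑ i ∈ s, b i) = ∑ i ∈ s, dot a (b i) := by
  simp only [dot, Finset.sum_apply, mul_sum]
  exact sum_comm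

theorem dot_sub (a b c : C3) : dot a (b - c) = dot a b - dot a c := by simp [dot_def]; ring

theorem cx_hh (hr : HR D) (B' B : Fld) : cx (hh D.l D.m) B' B =
    ∑ e ∈ lbox (fb D.l 2), dot (B' e) (cxL D.hL B e) := by
  have : Rng (fb D.l 2) (3 * D.l + 1) (hh D.l D.m) := fun a b h => hr a b (h.imp_left
    fun h e he => h e (mem_lbox.2 (box_mono (fb_one D.l ▸ fb_mono _ one_le_two) (mem_lbox.1 he))))
  simp only [cx_eq_sum _ this, cxL_hL hr, dot_sum, dot_smul, ker]

/-- the total quadratic form -/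
def QQ (D : Dat) (n : ℕ) (W : Cf) (A' A : Fld) : ℂ :=
  ∑ y ∈ cube n, cx (hh D.l D.m) (D.Ay y W A') (D.Ay y W A)

theorem regroup (hr : HR D) {W : Cf} (hW : Per n W) {A' A : Fld} (hA' : PerB D.l n A')
    (hA : PerB D.l n A) : ∑ y ∈ cube n, ∑ t ∈ lbox D.l,
      dot (A' (t.1 + up D.l y, t.2)) (hamL D W A (t.1 + up D.l y, t.2)) = QQ D n W A' A := by
  let g : St → Lk → ℂ := fun y e => dot (D.Ay y W A' e) (cxL D.hL (D.Ay y W A) e)
  have e1 : ∀ y, ∀ t ∈ lbox D.l, dot (A' (t.1 + up D.l y, t.2))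
      (hamL D W A (t.1 + up D.l y, t.2)) = ∑ x ∈ box 2, g (y + x) (t.1 + up D.l (-x), t.2) := by
    intro y t ht
    have h0 := yo_add_box (mem_lbox.1 ht)
    rw [hamL_apply, dot_sum]
    refine sum_congr rfl fun x _ => ?_
    have e2 : t.1 + up D.l y - up D.l (y + x) = t.1 + up D.l (-x) := by
      rw [up_add, up_neg]; abel
    have e3 : t.1 + up D.l (-x) + up D.l (y + x) = t.1 + up D.l y := by
      rw [up_add, up_neg]; abel
    have e4 : D.Ay (y + x) W A' (t.1 + up D.l (-x), t.2) =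
        adq (cmb star (sh (y + x) W) (-x)) (A' (t.1 + up D.l y, t.2)) := by
      simp only [Dat.Ay, adF, sh, h0, e3]
    simp only [g, h0, e2, ← dot_adq, e4]
  rw [sum_congr rfl fun y _ => sum_congr rfl (e1 y)]
  simp only [QQ, cx_hh hr, sum_fb]
  rw [sum_congr rfl fun y _ => sum_comm, sum_comm, sum_comm (s := cube n)]
  refine sum_nbij' (fun x => -x) (fun x => -x) (fun _ => box_neg) (fun _ => box_neg)
    (fun _ _ => neg_neg _) (fun _ _ => neg_neg _) fun x _ => ?_
  exact sum_cube_add (f := fun y => ∑ t ∈ lbox D.l, g y (t.1 + up D.l (-x), t.2))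
    (fun y v => by simp only [g, Ay_per hW hA, Ay_per hW hA']) x

/-- the Euclidean space of the fluctuation variables -/
abbrev HH (l n : ℕ) := PiLp 2 fun _ : fund l n => E3

def emb (l n : ℕ) : HH l n →ₗ[ℝ] Fld where
  toFun z f := cE (ext l n 0 z.ofLp f)
  map_add' z z' := by
    funext f
    simp only [ext, Pi.add_apply]
    split_ifs <;> simp [cE_add]
  map_smul' c z := by
    funext f
    simp only [ext, Pi.smul_apply]
    split_ifs <;> simp [cE_smul]

def res (l n : ℕ) : Fld →ₗ[ℝ] HH l n where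
  toFun A := WithLp.toLp 2 fun i => reE (A i)
  map_add' A B := by ext i k; simp [reE]
  map_smul' c A := by ext i k; simp [reE]

theorem emb_apply (l n : ℕ) (z : HH l n) (f : Lk) : emb l n z f = cE (ext l n 0 z.ofLp f) := rfl

theorem emb_coe {l : ℕ} (z : HH l n) (i : fund l n) : emb l n z i = cE (z i) := by
  rw [emb_apply, SX.ext_coe]

theorem emb_tree {l : ℕ} (z : HH l n) (f : Lk) (hf : tree l f) : emb l n z f = 0 := by
  rw [emb_apply, SX.ext_tree _ _ hf, cE_zero]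

theorem emb_real {l : ℕ} (z : HH l n) : RealF (emb l n z) := fun _ _ => cE_im _ _

theorem emb_per {l : ℕ} (z : HH l n) : PerB l n (emb l n z) := fun v => by
  funext f
  simp only [sh, emb_apply, ext, SX.rp_add]

theorem emb_res {l : ℕ} (hn : 0 < n) {A : Fld} (h1 : RealF A) (h2 : ∀ f, tree l f → A f = 0)
    (h3 : PerB l n A) : emb l n (res l n A) = A := by
  funext f
  by_cases hf : tree l f
  · rw [emb_tree _ _ hf, h2 f hf]
  · obtain ⟨v, hv⟩ := SX.rp_spec l n f.1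
    rw [emb_apply, SX.ext_of_mem _ _ ((SX.rp_mem hn).2 hf)]
    refine (cE_reE (h1 _)).trans ?_
    rw [← congrFun (h3 v) (rp l n f.1, f.2), sh, ← hv]

theorem inner_emb {l : ℕ} (z' z : HH l n) : ((⟪z', z⟫_ℝ : ℝ) : ℂ) = ∑ y ∈ cube n, ∑ t ∈ lbox l,
    dot (emb l n z' (t.1 + up l y, t.2)) (emb l n z (t.1 + up l y, t.2)) := by
  rw [← SX.sum_fund l n (Φ := fun f => dot (emb l n z' f) (emb l n z f))
    fun f hf => by rw [emb_tree _ _ hf, zero_dot]]
  simp only [emb_coe, dot_cE, PiLp.inner_apply (f := fun _ : fund l n => E3)]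
  push_cast
  rfl

/-- the operator on the torus -/
def TT (D : Dat) (n : ℕ) (W : Conf) : HH D.l n →ₗ[ℝ] HH D.l n :=
  res D.l n ∘ₗ (topL D (cC W)).restrictScalars ℝ ∘ₗ emb D.l n

theorem per_cC {W : Conf} (hW : Per n W) : Per n (cC W) := fun μ => by rw [sh_cC, hW μ]

theorem emb_TT (hn : 0 < n) {W : Conf} (hW : Per n W) (z : HH D.l n) :
    emb D.l n (TT D n W z) = D.top (cC W) (emb D.l n z) := by
  have : TT D n W z = res D.l n (D.top (cC W) (emb D.l n z)) := by
    rw [← topL_apply]; rfl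
  rw [this]
  refine emb_res hn (top_real W (emb_real z)) (fun _ => top_tree _ _) fun v => ?_
  rw [← top_sh, (per_cC hW).sh_smul, emb_per z v]

theorem emb_pow (hn : 0 < n) {W : Conf} (hW : Per n W) (k : ℕ) (z : HH D.l n) :
    emb D.l n ((TT D n W ^ k) z) = (D.top (cC W))^[k] (emb D.l n z) := by
  induction k with
  | zero => simp
  | succ k ih => rw [pow_succ', Module.End.mul_apply, emb_TT hn hW, ih, Function.iterate_succ_apply']

theorem emb_aeval (hn : 0 < n) {W : Conf} (hW : Per n W) (q : ℝ[X]) (z : HH D.l n) :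
    emb D.l n (aeval (TT D n W) q z) = D.pol (q.map (algebraMap ℝ ℂ)) (cC W) (emb D.l n z) := by
  rw [pol_eq, pj_of_tree (emb_tree z)]
  induction q using Polynomial.induction_on' with
  | add p q hp hq => simp only [map_add, Polynomial.map_add, LinearMap.add_apply, hp, hq]
  | monomial k a =>
    simp only [aeval_monomial, map_monomial, Module.End.mul_apply, Module.algebraMap_end_apply,
      map_smul, emb_pow hn hW, topL_pow, algebraMap_smul]

theorem inner_TT (hr : HR D) (hn : 0 < n) {W : Conf} (hW : Per n W) (z' z : HH D.l n) :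
    ⟪z', TT D n W z⟫_ℝ = ⟪z', z⟫_ℝ - (QQ D n (cC W) (emb D.l n z') (emb D.l n z)).re / D.Λ := by
  have : ((⟪z', TT D n W z⟫_ℝ : ℝ) : ℂ) =
      (⟪z', z⟫_ℝ : ℝ) - (D.Λ⁻¹ : ℝ) * QQ D n (cC W) (emb D.l n z') (emb D.l n z) := by
    rw [inner_emb, inner_emb, ← regroup hr (per_cC hW) (emb_per z') (emb_per z), mul_sum,
      ← sum_sub_distrib]
    refine sum_congr rfl fun y _ => ?_
    rw [mul_sum, ← sum_sub_distrib]
    refine sum_congr rfl fun t _ => ?_
    rw [emb_TT hn hW, top_eq, pj_of_tree (emb_tree z)]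
    split_ifs with h
    · simp [emb_tree _ _ h]
    · rw [dot_sub, dot_smul, Complex.ofReal_inv]
  have := congrArg Complex.re this
  rw [Complex.ofReal_re, Complex.sub_re, Complex.ofReal_re, Complex.re_ofReal_mul] at this
  rw [this, div_eq_inv_mul]

theorem hh_apply (l : ℕ) (m : BF) (a b : V) : hh l m a b = ∑ x ∈ box l, m (sh x a) (sh x b) +
    (LL l : ℝ) ^ 2 * ∑ μ, avgA l a (0, μ) * avgA l b (0, μ) := by
  simp [hh, enB, resL, LinearMap.sum_apply, shL_apply]

variable {c R : ℕ} {τ ρ κ : ℝ}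

theorem hh_symm (h : D.Ok c τ R ρ κ) (a b : V) : hh D.l D.m a b = hh D.l D.m b a := by
  simp only [hh_apply, h.lin.symm (sh _ a), mul_comm (avgA D.l a _)]

theorem hh_psd (h : D.Ok c τ R ρ κ) (a : V) : 0 ≤ hh D.l D.m a a := by
  rw [hh_apply]
  exact add_nonneg (sum_nonneg fun _ _ => h.lin.psd _)
    (mul_nonneg (sq_nonneg _) (sum_nonneg fun _ _ => mul_self_nonneg _))

theorem TT_symm (h : D.Ok c τ R ρ κ) (hn : 0 < n) {W : Conf} (hW : Per n W) :
    (TT D n W).IsSymmetric := fun z z' => by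
  rw [real_inner_comm, inner_TT h.lin.hh_rng hn hW, inner_TT h.lin.hh_rng hn hW,
    real_inner_comm z z']
  simp only [QQ, cx_symm (hh_symm h) (D.Ay _ _ (emb D.l n z))]

/-- the square of the length of a real vector -/
def nq (b : C3) : ℝ := (dot b b).re

theorem nq_real {b : C3} (h : ∀ k, (b k).im = 0) : nq b = ∑ k, (b k).re ^ 2 := by
  simp [nq, dot, h, sq]

theorem nq_adq {h : Hc} (hh : Uni h) (b : C3) : nq (adq h b) = nq b := by
  rw [nq, dot_adq_adq hh, nq]

theorem nq_Ay (y : St) (W : Conf) (A : Fld) (e : Lk) :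
    nq (D.Ay y (cC W) A e) = nq (A (e.1 + up D.l y, e.2)) := by
  rw [Dat.Ay, adF, sh_cC, cmb_cC, nq_adq (uni_cS _), sh]

theorem norm_emb {l : ℕ} (z : HH l n) :
    ‖z‖ ^ 2 = ∑ y ∈ cube n, ∑ t ∈ lbox l, nq (emb l n z (t.1 + up l y, t.2)) := by
  have := congrArg Complex.re (inner_emb z z)
  rwa [Complex.ofReal_re, real_inner_self_eq_norm_sq, Complex.re_sum,
    sum_congr rfl fun _ _ => Complex.re_sum _ _] at this

theorem cx_nonneg (h : D.Ok c τ R ρ κ) {B : Fld} (hB : RealF B) :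
    0 ≤ (cx (hh D.l D.m) B B).re := by
  rw [cx_real _ hB hB, Complex.ofReal_re]
  exact sum_nonneg fun _ _ => hh_psd h _

theorem cx_le (h : D.Ok c τ R ρ κ) {B : Fld} (hB : RealF B) :
    (cx (hh D.l D.m) B B).re ≤ (LL D.l : ℝ) ^ c * ∑ e ∈ lbox (fb D.l 1), nq (B e) := by
  rw [cx_real _ hB hB, Complex.ofReal_re, sum_congr rfl fun e _ => nq_real (hB e), sum_comm,
    mul_sum, fb_one]
  exact sum_le_sum fun _ _ => h.lin.hh_bd _

theorem LL_ge (h : D.Ok c τ R ρ κ) : (10 : ℝ) ^ 6 ≤ LL D.l := by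
  have h1 := h.r_ge
  have h2 := h.r_le
  have : 10 ^ 6 ≤ LL D.l := by unfold LL; nlinarith
  exact_mod_cast this

theorem QQ_nonneg (h : D.Ok c τ R ρ κ) (W : Conf) {A : Fld} (hA : RealF A) :
    0 ≤ (QQ D n (cC W) A A).re := by
  rw [QQ, Complex.re_sum]
  exact sum_nonneg fun _ _ => cx_nonneg h (Ay_real _ _ hA)

theorem QQ_le (h : D.Ok c τ R ρ κ) (W : Conf) (z : HH D.l n) :
    (QQ D n (cC W) (emb D.l n z) (emb D.l n z)).re ≤ D.Λ * ‖z‖ ^ 2 := by
  rw [QQ, Complex.re_sum]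
  refine (sum_le_sum fun y _ => cx_le h (Ay_real _ _ (emb_real z))).trans ?_
  simp only [nq_Ay]
  rw [← mul_sum, sum_per (Φ := fun e => nq (emb D.l n z e))
    (fun v => funext fun e => congrArg nq (congrFun (emb_per z v) e)), ← norm_emb, h.lam,
    pow_succ (LL D.l : ℝ) c, mul_assoc]
  have := LL_ge h
  refine mul_le_mul_of_nonneg_left (mul_le_mul_of_nonneg_right ?_ (sq_nonneg _)) (by positivity)
  push_cast
  linarith

theorem lam_pos (h : D.Ok c τ R ρ κ) : 0 < D.Λ := by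
  have := LL_ge h
  rw [h.lam]
  exact pow_pos (by linarith) _

theorem TT_mem (h : D.Ok c τ R ρ κ) (hn : 0 < n) {W : Conf} (hW : Per n W) (z : HH D.l n) :
    0 ≤ ⟪z, TT D n W z⟫_ℝ ∧ ⟪z, TT D n W z⟫_ℝ ≤ ‖z‖ ^ 2 := by
  rw [inner_TT h.lin.hh_rng hn hW, real_inner_self_eq_norm_sq]
  have := div_nonneg (QQ_nonneg (n := n) h W (emb_real (n := n) z)) (lam_pos h).le
  have := (div_le_iff₀' (lam_pos h)).2 (QQ_le h W z)
  constructor <;> linarith

theorem TT_le (h : D.Ok c τ R ρ κ) (hn : 0 < n) {W : Conf} (hW : Per n W) (z : HH D.l n) :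
    ‖TT D n W z‖ ≤ ‖z‖ := by
  have h1 := (TT_mem h hn hW (z + TT D n W z)).2
  have h2 := (TT_mem h hn hW (z - TT D n W z)).1
  have h3 : ⟪z, TT D n W (TT D n W z)⟫_ℝ = ‖TT D n W z‖ ^ 2 := by
    rw [← TT_symm h hn hW, real_inner_self_eq_norm_sq]
  generalize TT D n W = T at *
  simp only [map_add, map_sub, inner_add_left, inner_add_right, inner_sub_left, inner_sub_right,
    real_inner_self_eq_norm_sq] at h1 h2
  have h4 := pow_le_pow_left₀ (norm_nonneg _) (norm_add_le z (T z)) 2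
  have h5 : (2 * ‖T z‖) ^ 2 ≤ (‖z‖ + ‖T z‖) ^ 2 := by linarith
  linarith [(abs_le_of_sq_le_sq' h5 (by positivity)).2]

theorem TT_pow_le (h : D.Ok c τ R ρ κ) (hn : 0 < n) {W : Conf} (hW : Per n W) (k : ℕ)
    (z : HH D.l n) : ‖(TT D n W ^ k) z‖ ≤ ‖z‖ := by
  induction k with
  | zero => simp
  | succ k ih => rw [pow_succ', Module.End.mul_apply]; exact (TT_le h hn hW _).trans ih

theorem norm_le_card {l : ℕ} (z : HH l n) {a : ℝ} (a0 : 0 ≤ a) (ha : ∀ i, ‖z i‖ ≤ a) (S : Finset Lk)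
    (hS : ∀ i : fund l n, i.1 ∉ S → z i = 0) : ‖z‖ ≤ S.card * a := by
  classical
  have h1 : ‖z‖ ^ 2 ≤ S.card * a ^ 2 := by
    rw [PiLp.norm_sq_eq_of_L2, ← sum_filter_of_ne (p := fun i : fund l n => i.1 ∈ S)
      fun i _ hi => by by_contra h; simp [hS i h] at hi]
    refine (sum_le_card_nsmul _ _ (a ^ 2) fun i _ => pow_le_pow_left₀ (norm_nonneg _) (ha i) 2).trans ?_
    rw [nsmul_eq_mul]
    gcongr
    exact card_le_card_of_injOn Subtype.val (fun i hi => (mem_filter.1 hi).2)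
      Subtype.val_injective.injOn
  have h2 : (S.card : ℝ) ≤ S.card ^ 2 := by exact_mod_cast Nat.le_self_pow two_ne_zero _
  refine (abs_le_of_sq_le_sq' (h1.trans ?_) (by positivity)).2
  rw [mul_pow]
  gcongr

/-- finite range and a bound in the Euclidean norm give a bound in the supremum norm -/
theorem sup_bd (hr : HR D) (hn : 0 < n) {W : Conf} (hW : Per n W) {q : ℝ[X]} {d : ℕ}
    (hq : q.natDegree ≤ d) {γ : ℝ} (γ0 : 0 ≤ γ) (hγ : ∀ z, ‖aeval (TT D n W) q z‖ ≤ γ * ‖z‖)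
    {z : HH D.l n} {a : ℝ} (ha : ∀ i, ‖z i‖ ≤ a) (i : fund D.l n) :
    ‖aeval (TT D n W) q z i‖ ≤ γ * ((lbox (fb D.l (3 * d))).card * a) := by
  classical
  have a0 := (norm_nonneg _).trans (ha i)
  set y := yo D.l i.1.1
  let S := (lbox (fb D.l (3 * d))).image fun e => (rp D.l n (e.1 + up D.l y), e.2)
  let z' : HH D.l n := WithLp.toLp 2 fun j => if j.1 ∈ S then z j else 0
  have h1 : ‖z'‖ ≤ S.card * a := norm_le_card z' a0
    (fun j => by simp only [z']; split_ifs; exacts [ha j, by simpa]) S fun j hj => if_neg hj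
  have h2 : Agr (fb D.l (0 + 3 * d)) (sh (up D.l y) (emb D.l n z)) (sh (up D.l y) (emb D.l n z')) := by
    intro e he
    rw [zero_add] at he
    simp only [sh, emb_apply, ext]
    split_ifs with h
    · have : (rp D.l n (e.1 + up D.l y), e.2) ∈ S := mem_image_of_mem _ he
      exact congrArg cE (if_pos this).symm
    · rfl
  have h3 := pol_agr' hr ((natDegree_map_le (f := algebraMap ℝ ℂ)).trans hq)
    (W := sh y (cC W)) (fun _ _ => rfl) h2 (i.1.1 - up D.l y, i.1.2)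
    (by rw [mem_lbox, mem_fb, yo_sub_up, sub_self]; exact zero_mem_box _)
  rw [Dat.pol_sh, Dat.pol_sh, ← emb_aeval hn hW, ← emb_aeval hn hW, sh, sh, sub_add_cancel,
    emb_coe, emb_coe] at h3
  rw [cE_inj h3]
  refine (PiLp.norm_apply_le _ i).trans ((hγ _).trans ?_)
  exact mul_le_mul_of_nonneg_left (h1.trans
    (mul_le_mul_of_nonneg_right (Nat.cast_le.2 card_image_le) a0)) γ0

end Pool.Agent.Lib.MP_7f377f_mp.RG.D3.Op
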