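import Pool.Agent.Lib.MP_7f377f_mp.R3Op3
import Pool.Agent.Lib.MP_7f377f_mp.R3Ap3

/-! Coercivity on the torus, and the perturbation of `top` by a small background. -/

noncomputable section

namespace Pool.Agent.Lib.MP_7f377f_mp.RG.D3.Op

open Finset Polynomial
open scoped InnerProductSpace

attribute [local irreducible] box lbox cube

variable {D : Dat} {n c R : ℕ} {τ ρ κ : ℝ}

theorem cmb_near' {R : ℕ} {U : Cf} {δ : ℝ} (h0 : 0 ≤ δ) (h1 : 4 * R * δ ≤ 1)
    (h : ∀ e ∈ lbox R, ‖U e - 1‖ ≤ δ) {x : St} (hx : x ∈ box R) :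
    ‖cmb star U x - 1‖ ≤ 8 * R * δ := by
  refine (cmb_near h0 h hx).trans ?_
  have h2 : (1 + δ) ^ (4 * R) ≤ Real.exp (4 * R * δ) := by
    rw [show 4 * R * δ = (4 * R : ℕ) * δ by push_cast; ring, Real.exp_nat_mul]
    exact pow_le_pow_left₀ (by linarith) (by linarith [Real.add_one_le_exp δ]) _
  have h3 : 0 ≤ 4 * R * δ := by positivity
  have := (abs_le.1 (Real.abs_exp_sub_one_le (x := 4 * R * δ) (by rwa [abs_of_nonneg h3]))).2
  rw [abs_of_nonneg h3] at this
  linarith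

theorem nq_le (b : C3) : nq b ≤ 3 * ‖b‖ ^ 2 :=
  (Complex.re_le_norm _).trans ((norm_dot b b).trans_eq (by ring))

theorem le_nq {b : C3} (h : ∀ k, (b k).im = 0) : ‖b‖ ^ 2 ≤ nq b := by
  obtain ⟨v, rfl⟩ := exists_cE h
  rw [nq, dot_cE_self, Complex.ofReal_re]
  exact pow_le_pow_left₀ (norm_nonneg _) (norm_cE v).1 2

theorem coer_loc (h : D.Ok c τ R ρ κ) (W : Conf) {ε : ℝ} (ε0 : 0 ≤ ε) (ε1 : ε ≤ 1 / 8)
    (hW : ∀ e ∈ lbox 4, ‖cC W e - 1‖ ≤ ε) {A : Fld} (hA : RealF A)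
    (ht : ∀ f, tree D.l f → A f = 0) :
    ∑ t ∈ lbox D.l, nq (A t) ≤ (LL D.l : ℝ) ^ c * ∑ y ∈ box 3,
      (2 * (cx (hh D.l D.m) (D.Ay y (cC W) A) (D.Ay y (cC W) A)).re +
        2 * ((LL D.l : ℝ) ^ c * (19200 * ε ^ 2 *
          ∑ e ∈ lbox (fb D.l 1), nq (A (e.1 + up D.l y, e.2))))) := by
  have h1 : ∑ t ∈ lbox D.l, nq (A t) ≤ (LL D.l : ℝ) ^ c * ∑ y ∈ box 3,
      (cx (hh D.l D.m) (sh (up D.l y) A) (sh (up D.l y) A)).re := by
    have hr : ∀ y, RealF (sh y A) := fun y e => hA _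
    simp only [cx_real _ (hr _) (hr _), Complex.ofReal_re, nq_real (hA _)]
    rw [sum_comm, sum_comm (s := box 3), mul_sum]
    exact sum_le_sum fun k _ => h.lin.coer (reF A k) fun f hf => by simp [reF, ht f hf]
  refine h1.trans (mul_le_mul_of_nonneg_left (sum_le_sum fun y hy => ?_) (by positivity))
  set B := D.Ay y (cC W) A with hB
  set d := sh (up D.l y) A - B with hd
  have rB : RealF B := Ay_real _ _ hA
  have rd : RealF d := fun e k => by simp [hd, rB e k, sh, hA _ k]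
  have h2 := cx_nonneg h (B := B - d) fun e k => by simp [rB e k, rd e k]
  have h3 : (cx (hh D.l D.m) d d).re ≤ (LL D.l : ℝ) ^ c * (19200 * ε ^ 2 *
      ∑ e ∈ lbox (fb D.l 1), nq (A (e.1 + up D.l y, e.2))) := by
    refine (cx_le h rd).trans (mul_le_mul_of_nonneg_left ?_ (by positivity))
    rw [mul_sum]
    refine sum_le_sum fun e he => (nq_le _).trans ?_
    have h4 := cmb_near' (R := 1) (U := sh y (cC W)) ε0 (by push_cast; linarith)
      (fun e' he' => hW _ (mem_lbox.2 (box_add (mem_lbox.1 he') hy))) (mem_fb.1 (mem_lbox.1 he))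
    have h5 := norm_adq_sub h4 (by push_cast; linarith) (A (e.1 + up D.l y, e.2))
    have h6 : ‖d e‖ ≤ 80 * ε * ‖A (e.1 + up D.l y, e.2)‖ := by
      rw [hd, Pi.sub_apply, norm_sub_rev]
      exact h5.trans_eq (by push_cast; ring)
    have h7 := pow_le_pow_left₀ (norm_nonneg _) h6 2
    have h8 := mul_le_mul_of_nonneg_left (le_nq (hA (e.1 + up D.l y, e.2))) (sq_nonneg ε)
    nlinarith
  have e : sh (up D.l y) A = B + d := by rw [hd]; abel
  rw [e]
  simp only [cx_add_left, cx_add_right, cx_sub_left, cx_sub_right, Complex.add_re,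
    Complex.sub_re] at h2 ⊢
  linarith

theorem QQ_ge (h : D.Ok c τ R ρ κ) {W : Conf} (hW : Per n W) {δ : ℝ} (hδ : curvG δ W)
    (hs : (LL D.l : ℝ) ^ c * δ ≤ 1 / 10 ^ 7) (z : HH D.l n) :
    ‖z‖ ^ 2 ≤ 10 ^ 4 * (LL D.l : ℝ) ^ c * (QQ D n (cC W) (emb D.l n z) (emb D.l n z)).re := by
  have δ0 := hδ.nonneg
  have L1 : 1 ≤ (LL D.l : ℝ) ^ c := one_le_pow₀ (by linarith [LL_ge h])
  have δ1 : δ ≤ 1 / 10 ^ 7 := by nlinarith
  set A := emb D.l n z with hA
  let F : St → ℝ := fun y => 2 * (cx (hh D.l D.m) (D.Ay y (cC W) A) (D.Ay y (cC W) A)).re +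
    2 * ((LL D.l : ℝ) ^ c * (19200 * (24 * δ) ^ 2 *
      ∑ e ∈ lbox (fb D.l 1), nq (A (e.1 + up D.l y, e.2))))
  have h1 : ∀ x, ∑ t ∈ lbox D.l, nq (A (t.1 + up D.l x, t.2)) ≤
      (LL D.l : ℝ) ^ c * ∑ y ∈ box 3, F (x + y) := fun x => by
    have hU : curvG δ (sh x W) := fun y μ ν => by
      simpa only [hol, sh, add_right_comm _ x] using hδ (y + x) μ ν
    set u := cmb Inv.inv (sh x W)
    have hu : ∀ y, Uni (cS (u y)) := fun _ => uni_cS _
    have := coer_loc h (gauge Inv.inv u (sh x W)) (ε := 24 * δ) (by positivity) (by linarith)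
      (fun e he => by
        have := fix_small hU he
        rw [cC, cS, ← cq_one, ← cq_sub]
        exact (norm_cq _).2.trans (by push_cast at this; linarith))
      (A := adF (fun y => cS (u (yo D.l y))) (sh (up D.l x) A))
      (fun e => adq_real _ (emb_real z _)) fun f hf => by
        rw [adF, sh, hA, emb_tree _ _ ((tree_add_up _ _ _ _).2 hf), adq_zero]
    simp only [cC_gauge, Ay_gauge hu, cx_adF _ h.lin.hh_rng (hu _), ← sh_cC, Ay_sh] at this
    simpa only [adF, nq_adq (hu _), sh, F, add_comm x, up_add, add_assoc] using this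
  have hp : PerB D.l n fun e => nq (A e) :=
    fun v => funext fun e => congrArg nq (congrFun (emb_per z v) e)
  have h2 : ∀ y, ∑ x ∈ cube n, F (x + y) = ∑ x ∈ cube n, F x := sum_cube_add fun x v => by
    simp only [F, Ay_per (per_cC hW) (emb_per z), hA, up_add, ← add_assoc]
    congr 4
    exact sum_congr rfl fun e _ => congrFun (hp v) (e.1 + up D.l x, e.2)
  have h3 : ∑ x ∈ cube n, F x = 2 * (QQ D n (cC W) A A).re +
      2 * ((LL D.l : ℝ) ^ c * (19200 * (24 * δ) ^ 2 * (27 * ‖z‖ ^ 2))) := by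
    have := sum_per hp 1
    simp only [F, sum_add_distrib, ← mul_sum, this, QQ, Complex.re_sum, norm_emb z, ← hA]
    norm_num
  have h4 := sum_le_sum fun x (_ : x ∈ cube n) => h1 x
  rw [← norm_emb, ← mul_sum, sum_comm, sum_congr rfl fun y _ => h2 y, sum_const, card_box, h3,
    nsmul_eq_mul] at h4
  have h5 := mul_le_mul_of_nonneg_right (pow_le_pow_left₀ (by positivity) hs 2) (sq_nonneg ‖z‖)
  have h6 := mul_nonneg (zero_le_one.trans L1) (QQ_nonneg (n := n) h W (emb_real (n := n) z))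
  push_cast at h4
  nlinarith

theorem TT_gap (h : D.Ok c τ R ρ κ) (hn : 0 < n) {W : Conf} (hW : Per n W) {δ : ℝ}
    (hδ : curvG δ W) (hs : (LL D.l : ℝ) ^ c * δ ≤ 1 / 10 ^ 7) (z : HH D.l n) :
    ⟪z, TT D n W z⟫_ℝ ≤ (1 - ((LL D.l : ℝ) ^ (2 * c + 2))⁻¹) * ‖z‖ ^ 2 := by
  have hL := LL_ge h
  have h1 := QQ_ge h hW hδ hs z
  have h2 := QQ_nonneg (n := n) h W (emb_real (n := n) z)
  rw [inner_TT h.lin.hh_rng hn hW, real_inner_self_eq_norm_sq, sub_mul, one_mul,
    sub_le_sub_iff_left, le_div_iff₀ (lam_pos h), h.lam, inv_mul_eq_div, div_mul_eq_mul_div,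
    div_le_iff₀ (by positivity)]
  calc _ ≤ 10 ^ 4 * (LL D.l : ℝ) ^ c * (QQ D n (cC W) (emb D.l n z) (emb D.l n z)).re *
        (LL D.l : ℝ) ^ (c + 1) := by gcongr
    _ ≤ LL D.l * (LL D.l : ℝ) ^ c * (QQ D n (cC W) (emb D.l n z) (emb D.l n z)).re *
        (LL D.l : ℝ) ^ (c + 1) := by gcongr; linarith
    _ = _ := by ring

theorem card_fund_le (l n : ℕ) : (fund l n).card ≤ n ^ 3 * (LL l ^ 3 * 3) := by
  rw [← Fintype.card_coe, SX.card_fund]
  refine Nat.mul_le_mul_left _ ((sum_le_card_nsmul _ _ 1 fun _ _ => ?_).trans_eq ?_)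
  · split_ifs <;> simp
  · simp [card_lbox, LL]

theorem norm_reE (b : C3) : ‖reE b‖ ≤ 2 * ‖b‖ ∧ ‖imE b‖ ≤ 2 * ‖b‖ := by
  constructor <;> refine (norm_cE _).2.trans (mul_le_mul_of_nonneg_left
    ((pi_norm_le_iff_of_nonneg (norm_nonneg _)).2 fun k => ?_) zero_le_two)
  · simpa [cE, reE] using (Complex.abs_re_le_norm _).trans (norm_le_pi_norm b k)
  · simpa [cE, imE] using (Complex.abs_im_le_norm _).trans (norm_le_pi_norm b k)

theorem norm_emb_le {l : ℕ} (z : HH l n) (f : Lk) : ‖emb l n z f‖ ≤ ‖z‖ := by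
  rw [emb_apply, ext]
  split_ifs
  · exact (norm_cE _).1.trans (PiLp.norm_apply_le z _)
  · simp

/-- a bound in the supremum norm -/
def SB (G : Fld →ₗ[ℂ] Fld) (M : ℝ) : Prop :=
  ∀ (A : Fld) (a : ℝ), (∀ f, ‖A f‖ ≤ a) → ∀ f, ‖G A f‖ ≤ M * a

theorem SB.mono {G : Fld →ₗ[ℂ] Fld} {M M' : ℝ} (h : SB G M) (hM : M ≤ M') : SB G M' :=
  fun A a ha f => (h A a ha f).trans
    (mul_le_mul_of_nonneg_right hM ((norm_nonneg _).trans (ha f)))

theorem SB.add {G G' : Fld →ₗ[ℂ] Fld} {M M' : ℝ} (h : SB G M) (h' : SB G' M') :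
    SB (G + G') (M + M') := fun A a ha f =>
  (norm_add_le _ _).trans ((add_le_add (h A a ha f) (h' A a ha f)).trans_eq (add_mul _ _ _).symm)

theorem SB.mul {G G' : Fld →ₗ[ℂ] Fld} {M M' : ℝ} (h : SB G M) (h' : SB G' M') :
    SB (G * G') (M * M') := fun A a ha f =>
  (h _ _ (h' A a ha) f).trans_eq (mul_assoc _ _ _).symm

theorem sb_free (h : D.Ok c τ R ρ κ) {k : ℕ} (hk : k ≤ D.N) :
    SB (topL D 1 ^ k * pjL D) ((LL D.l : ℝ) ^ (8 * c + 25)) := by
  intro A a ha f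
  have a0 := (norm_nonneg _).trans (ha f)
  have hL := LL_ge h
  set m := 6 * D.N + 1 with hm
  have hn : 0 < m := Nat.succ_pos _
  have hW : Per m (1 : Conf) := fun _ => rfl
  let y : St := fun _ => (3 * D.N : ℕ)
  set B := sh (up D.l (yo D.l f.1 - y)) (D.pj A) with hB
  have hb : ∀ e, ‖B e‖ ≤ a := fun e => (norm_pj _ _).trans (ha _)
  let x : HH D.l m := WithLp.toLp 2 fun i => reE (B i)
  let x' : HH D.l m := WithLp.toLp 2 fun i => imE (B i)
  have h1 : Agr (fb D.l (0 + 3 * k)) (sh (up D.l (yo D.l f.1)) (D.pj A))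
      (sh (up D.l y) (emb D.l m x + Complex.I • emb D.l m x')) := by
    intro e he
    have e1 : sh (up D.l (yo D.l f.1)) (D.pj A) e = B (e.1 + up D.l y, e.2) := by
      simp only [hB, sh, up_sub]
      rw [add_assoc, add_sub_cancel]
    rw [e1, sh, Pi.add_apply, Pi.smul_apply]
    by_cases ht : tree D.l (e.1 + up D.l y, e.2)
    · rw [emb_tree _ _ ht, emb_tree _ _ ht, hB, ← pj_sh, pj_tree _ ht, smul_zero, add_zero]
    · have : (e.1 + up D.l y, e.2) ∈ fund D.l m := SX.mem_fund.2 ⟨mem_cube.2 fun i => by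
        have := mem_box.1 (mem_fb.1 (mem_lbox.1 he)) i
        simp only [yo_add_up, Pi.add_apply, y]
        omega, ht⟩
      rw [emb_coe x ⟨_, this⟩, emb_coe x' ⟨_, this⟩]
      funext j
      simp [x, x', cE, reE, imE, mul_comm Complex.I]
  have h2 := iter_agr h.lin.hh_rng k (W := 1) (fun _ _ => rfl) h1 (f.1 - up D.l (yo D.l f.1), f.2)
    (by rw [mem_lbox, mem_fb, yo_sub_up, sub_self]; exact zero_mem_box _)
  have e2 : ∀ y B, (D.top 1)^[k] (sh (up D.l y) B) = sh (up D.l y) ((D.top 1)^[k] B) :=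
    fun y B => iter_sh y 1 B k
  rw [e2, e2, sh, sh, sub_add_cancel, ← topL_pow, ← topL_pow, map_add, map_smul, topL_pow,
    topL_pow, topL_pow, ← cC_one, ← emb_pow hn hW, ← emb_pow hn hW, cC_one] at h2
  have h3 : ∀ w : HH D.l m, (∀ i, ‖w i‖ ≤ 2 * a) → ∀ e, ‖emb D.l m ((TT D m 1 ^ k) w) e‖ ≤
      (fund D.l m).card * (2 * a) := fun w hw e => (norm_emb_le _ _).trans
    ((TT_pow_le h hn hW k w).trans (norm_le_card w (by positivity) hw _ fun i hi => (hi i.2).elim))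
  have h4 : ((fund D.l m).card : ℝ) ≤ ((LL D.l : ℝ) ^ (2 * c + 5)) ^ 3 * ((LL D.l : ℝ) ^ 3 * 3) := by
    refine (Nat.cast_le.2 (card_fund_le _ _)).trans ?_
    have : 1 ≤ (LL D.l : ℝ) ^ (2 * c + 4) := one_le_pow₀ (by linarith)
    push_cast
    gcongr
    rw [hm, h.num, pow_succ _ (2 * c + 4)]
    push_cast
    nlinarith
  rw [Module.End.mul_apply, pjL_apply, topL_pow, h2, Pi.add_apply, Pi.smul_apply]
  refine (norm_add_le _ _).trans ?_
  rw [norm_smul, Complex.norm_I, one_mul]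
  refine (add_le_add (h3 x (fun i => (norm_reE _).1.trans (by linarith [hb i])) _)
    (h3 x' (fun i => (norm_reE _).2.trans (by linarith [hb i])) _)).trans ?_
  calc _ = 4 * ((fund D.l m).card : ℝ) * a := by ring
    _ ≤ 4 * (((LL D.l : ℝ) ^ (2 * c + 5)) ^ 3 * ((LL D.l : ℝ) ^ 3 * 3)) * a := by gcongr
    _ = (LL D.l : ℝ) ^ (6 * c + 18) * 12 * a := by ring
    _ ≤ (LL D.l : ℝ) ^ (8 * c + 24) * LL D.l * a := by
      have := pow_le_pow_right₀ (by linarith : (1 : ℝ) ≤ LL D.l) (by omega : 6 * c + 18 ≤ 8 * c + 24)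
      gcongr
      linarith
    _ = _ := by ring

theorem ker_le (h : D.Ok c τ R ρ κ) (f e : Lk) : |ker D f e| ≤ (LL D.l : ℝ) ^ c := by
  have h1 : ∀ f : Lk, hh D.l D.m (Pi.single f 1) (Pi.single f 1) ≤ (LL D.l : ℝ) ^ c := fun f => by
    refine (h.lin.hh_bd _).trans (mul_le_of_le_one_right (by positivity) ?_)
    simp only [Pi.single_apply, ite_pow, one_pow, ne_eq, OfNat.ofNat_ne_zero, not_false_eq_true,
      zero_pow, sum_ite_eq']
    split_ifs <;> simp
  have h2 := hh_psd h (Pi.single f 1 + Pi.single e 1)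
  have h3 := hh_psd h (Pi.single f 1 - Pi.single e 1)
  simp only [map_add, map_sub, LinearMap.add_apply, LinearMap.sub_apply,
    hh_symm h (Pi.single e 1) (Pi.single f 1)] at h2 h3
  rw [ker, abs_le]
  constructor <;> linarith [h1 f, h1 e]

theorem sb_pert (h : D.Ok c τ R ρ κ) {W : Cf} {δ : ℝ} (h1 : δ ≤ 1 / 100)
    (hW : ∀ e, ‖W e - 1‖ ≤ δ) : SB (topL D W - topL D 1) ((LL D.l : ℝ) ^ 6 * δ) := by
  intro A a ha f
  have a0 := (norm_nonneg _).trans (ha f)
  have δ0 := (norm_nonneg _).trans (hW f)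
  have hL := LL_ge h
  have hr := h.lin.hh_rng
  have h2 : ‖hamL D W (D.pj A) f - hamL D 1 (D.pj A) f‖ ≤
      125 * (81 * (LL D.l : ℝ) ^ 3 * ((LL D.l : ℝ) ^ c * (480 * δ * a))) := by
    rw [hamL_ker hr, hamL_ker hr, ← sum_sub_distrib]
    refine (norm_sum_le _ _).trans ((sum_le_card_nsmul _ _ _ fun y hy => ?_).trans_eq
      (by rw [card_box, nsmul_eq_mul]; norm_num; rfl))
    rw [← sum_sub_distrib]
    refine (norm_sum_le _ _).trans ((sum_le_card_nsmul _ _ _ fun e he => ?_).trans_eq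
      (by rw [card_lbox, nsmul_eq_mul, LL]; congr 1; push_cast; ring))
    have e1 : ∀ y x, cmb star (sh y (1 : Cf)) x = 1 := fun y x => cmb_one (star_one _) x
    rw [e1, e1, star_one, adq_one, adq_one, ← smul_sub, norm_smul, Complex.norm_real, ← adq_mul]
    refine mul_le_mul (ker_le h _ _) ?_ (norm_nonneg _) (by positivity)
    have h3 := fun x hx => cmb_near' (R := 2) (U := sh (yo D.l f.1 + y) W) δ0
      (by push_cast; linarith) (fun _ _ => hW _) (x := x) hx
    have h4 := h3 _ (box_neg hy)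
    have h5 := h3 _ (box_mono one_le_two (yo_mem_one he))
    generalize cmb star (sh (yo D.l f.1 + y) W) (-y) = u at h4
    generalize cmb star (sh (yo D.l f.1 + y) W) (yo D.l e.1) = v at h5
    have h6 : ‖star u - 1‖ = ‖u - 1‖ := by rw [← norm_star_Hc, star_sub, star_star, star_one]
    have h7 : ‖star u * v - 1‖ ≤ 48 * δ := by
      have e : star u * v - 1 = (star u - 1) * (v - 1) + (star u - 1) + (v - 1) := by noncomm_ring
      have := norm_mul_le (star u - 1) (v - 1)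
      have := norm_add₃_le (a := (star u - 1) * (v - 1)) (b := star u - 1) (c := v - 1)
      have := mul_le_mul h4 h5 (norm_nonneg _) (by positivity)
      rw [e]
      push_cast at *
      nlinarith
    refine (norm_adq_sub h7 (by linarith) _).trans ?_
    have := (norm_pj (D := D) A (e.1 + up D.l (yo D.l f.1 + y), e.2)).trans (ha _)
    nlinarith
  rw [LinearMap.sub_apply, Pi.sub_apply, topL_apply, topL_apply, top_eq, top_eq]
  split_ifs
  · rw [sub_self, norm_zero]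
    positivity
  · rw [sub_sub_sub_cancel_left, ← smul_sub, norm_smul, norm_sub_rev, norm_inv, Complex.norm_real,
      Real.norm_of_nonneg (lam_pos h).le, inv_mul_le_iff₀ (lam_pos h), h.lam]
    refine h2.trans ?_
    calc _ = (LL D.l : ℝ) ^ (c + 3) * (δ * a) * 4860000 := by ring
      _ ≤ (LL D.l : ℝ) ^ (c + 3) * (δ * a) * (LL D.l : ℝ) ^ 4 := by
        gcongr
        exact le_trans (by norm_num) (pow_le_pow_left₀ (by positivity) hL 4)
      _ = _ := by ring

theorem sb_tele {T S P : Fld →ₗ[ℂ] Fld} {M ε : ℝ} {N : ℕ} (M0 : 0 ≤ M) (ε0 : 0 ≤ ε)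
    (h0 : ∀ k ≤ N, SB (T ^ k * P) M) (h1 : SB (S - T) ε) (hP : P * (S - T) = S - T)
    (hs : N * (2 * M * ε) ≤ 1) (k : ℕ) :
    ∀ j, j + k ≤ N → SB (T ^ j * S ^ k * P - T ^ (j + k) * P) (k * (2 * M * ε) * M) := by
  induction k with
  | zero => exact fun j _ A a _ f => by simp
  | succ k ih =>
    intro j hj
    have h2 : SB (S ^ k * P) (2 * M) := by
      have := (ih 0 (by omega)).add (h0 k (by omega))
      simp only [pow_zero, one_mul, zero_add, sub_add_cancel] at this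
      refine this.mono ?_
      have : (k : ℝ) ≤ N := by exact_mod_cast (by omega : k ≤ N)
      have := mul_le_mul_of_nonneg_right this (by positivity : 0 ≤ 2 * M * ε)
      nlinarith
    have := (ih (j + 1) (by omega)).add (((h0 j (by omega)).mul h1).mul h2)
    rw [mul_assoc _ P, hP] at this
    convert this using 1
    · rw [show j + 1 + k = j + (k + 1) by ring, pow_succ T j, pow_succ' S k]
      simp only [mul_sub, sub_mul, mul_assoc]
      abel
    · push_cast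
      ring

end Pool.Agent.Lib.MP_7f377f_mp.RG.D3.Op
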