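import Pool.Agent.Lib.MP_7f377f_mp.R3Op4
import Pool.Agent.Lib.MP_7f377f_mp.KitSpec

/-! Supremum bounds for `pol`, and the spectral statement on the torus. -/

noncomputable section

namespace Pool.Agent.Lib.MP_7f377f_mp.RG.D3

open Finset Polynomial
open scoped InnerProductSpace

attribute [local irreducible] box lbox cube

namespace Op

variable {D : Dat} {n c R : ℕ} {τ ρ κ : ℝ}

theorem bin_eq (i : ℕ) : bin i = Kit.bc i := by
  induction i with
  | zero => rfl
  | succ i ih => rw [bin, Kit.bc, ih, mul_div_assoc]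

theorem norm_bin (i : ℕ) : |bin i| ≤ 1 := by
  rw [bin_eq, abs_of_pos (Kit.bc_mem i).1]
  exact (Kit.bc_mem i).2

theorem N_cast (h : D.Ok c τ R ρ κ) : (D.N : ℝ) = (LL D.l : ℝ) ^ (2 * c + 4) := by
  rw [h.num, Nat.cast_pow]

theorem pow_le_L (h : D.Ok c τ R ρ κ) {C : ℝ} (hC : C ≤ 10 ^ 6) {i j : ℕ} (hij : i < j) :
    C * (LL D.l : ℝ) ^ i ≤ (LL D.l : ℝ) ^ j := by
  have hL := LL_ge h
  calc _ ≤ LL D.l * (LL D.l : ℝ) ^ i := by gcongr; linarith
    _ = (LL D.l : ℝ) ^ (i + 1) := by ring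
    _ ≤ _ := pow_le_pow_right₀ (by linarith) hij

def pR (N : ℕ) : ℝ[X] := ∑ i ∈ range (N + 1), monomial i (bin i)

def qR (N : ℕ) : ℝ[X] := ∑ i ∈ range N, monomial (i + 1) (1 / (2 * (i + 1)) : ℝ)

theorem map_pR (N : ℕ) : (pR N).map (algebraMap ℝ ℂ) = pP N := by
  simp [pR, pP, Polynomial.map_sum]

theorem map_qR (N : ℕ) : (qR N).map (algebraMap ℝ ℂ) = pQ N := by
  simp [qR, pQ, Polynomial.map_sum]

theorem natDegree_pR (N : ℕ) : (pR N).natDegree ≤ N :=
  natDegree_sum_le_of_forall_le _ _ fun _ hi =>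
    (natDegree_monomial_le _).trans (Nat.lt_succ_iff.1 (mem_range.1 hi))

theorem aeval_pR {A : Type} [Ring A] [Algebra ℝ A] (T : A) (N : ℕ) :
    aeval T (pR N) = Kit.bP (K := ℝ) N T := by
  simp [pR, Kit.bP, aeval_monomial, bin_eq, Algebra.smul_def]

theorem trace_eq (h : D.Ok c τ R ρ κ) (hn : 3 * D.N < n) {W : Conf} (hW : Per n W) :
    ∑ i ∈ range D.N, (TT D n W ^ (i + 1)).trace ℝ _ / (2 * (i + 1)) =
      ∑ y ∈ cube n, (D.dt (sh y (cC W))).re := by
  have n0 : 0 < n := by omega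
  have e1 : ∑ i ∈ range D.N, (TT D n W ^ (i + 1)).trace ℝ _ / (2 * (i + 1)) =
      (aeval (TT D n W) (qR D.N)).trace ℝ _ := by
    simp only [qR, map_sum, aeval_monomial, ← Algebra.smul_def, map_smul, smul_eq_mul]
    exact sum_congr rfl fun i _ => by ring
  let Φ : Lk → ℝ := fun f => ∑ k, (D.pol (pQ D.N) (sh (yo D.l f.1) (cC W))
    (Pi.single (f.1 - up D.l (yo D.l f.1), f.2) (Pi.single k 1))
      (f.1 - up D.l (yo D.l f.1), f.2) k).re
  have e2 : ∑ y ∈ cube n, (D.dt (sh y (cC W))).re = ∑ i : fund D.l n, Φ i := by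
    rw [SX.sum_fund D.l n (Φ := Φ) fun f hf => sum_eq_zero fun k _ => by
      rw [Dat.pol_tree _ _ _ (by rwa [← tree_add_up _ _ (yo D.l f.1), sub_add_cancel])]; rfl]
    refine sum_congr rfl fun y _ => ?_
    rw [Dat.dt, Complex.re_sum]
    refine sum_congr rfl fun t ht => ?_
    simp only [Φ, yo_add_box (mem_lbox.1 ht), add_sub_cancel_right, Complex.re_sum]
  rw [e1, e2, LinearMap.trace_eq_sum_inner _
    (Pi.orthonormalBasis fun _ : fund D.l n => EuclideanSpace.basisFun (Fin 3) ℝ), Fintype.sum_sigma]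
  refine sum_congr rfl fun i _ => sum_congr rfl fun k _ => ?_
  set y := yo D.l i.1.1 with hy
  set w : HH D.l n := (Pi.orthonormalBasis fun _ : fund D.l n =>
    EuclideanSpace.basisFun (Fin 3) ℝ) ⟨i, k⟩ with hw
  have w1 : ∀ j, w j = if j = i then EuclideanSpace.single k 1 else 0 := fun j => by
    simp [hw]
  have h2 : Agr (fb D.l (0 + 3 * D.N)) (sh (up D.l y) (emb D.l n w))
      (Pi.single (i.1.1 - up D.l y, i.1.2) (Pi.single k 1)) := by
    intro e he
    by_cases h1 : e = (i.1.1 - up D.l y, i.1.2)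
    · rw [h1, sh, sub_add_cancel, emb_coe, w1, if_pos rfl, Pi.single_eq_same]
      funext j
      by_cases hj : j = k <;> simp [cE, hj]
    · rw [Pi.single_eq_of_ne h1, sh, emb_apply, ext]
      split_ifs with h3
      · rw [w1, if_neg, cE_zero]
        intro h4
        obtain ⟨v, hv⟩ := SX.rp_spec D.l n (e.1 + up D.l y)
        have h5 := Prod.ext_iff.1 (congrArg Subtype.val h4)
        simp only at h5
        rw [h5.1] at hv
        have h6 := congrArg (yo D.l) hv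
        rw [yo_add_up, yo_add_up, ← hy, add_comm, add_right_inj] at h6
        have h7 : v = 0 := funext fun j => by
          have := mem_box.1 (mem_fb.1 (mem_lbox.1 he)) j
          rw [h6, Pi.smul_apply, smul_eq_mul] at this
          have : (3 * D.N : ℤ) < n := by exact_mod_cast hn
          push_cast at *
          show v j = 0
          rcases lt_trichotomy (v j) 0 with h | h | h
          · nlinarith
          · exact h
          · nlinarith
        rw [h7, smul_zero, up_zero, add_zero] at hv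
        exact h1 (Prod.ext (eq_sub_of_add_eq hv) h5.2)
      · exact cE_zero
  have h3 := pol_agr' h.lin.hh_rng (natDegree_pQ D.N) (W := sh y (cC W)) (fun _ _ => rfl) h2
    (i.1.1 - up D.l y, i.1.2) (by rw [mem_lbox, mem_fb, yo_sub_up, sub_self]; exact zero_mem_box _)
  rw [← h3, Dat.pol_sh, ← map_qR, ← emb_aeval n0 hW, sh, sub_add_cancel, emb_coe, PiLp.inner_apply,
    sum_eq_single i (fun j _ hj => by rw [w1, if_neg hj, inner_zero_left]) (by simp), w1, if_pos rfl]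
  simp [cE, EuclideanSpace.inner_single_left]

theorem exp_small (h : D.Ok c τ R ρ κ) {j : ℕ} (hj : j ≤ D.l) :
    (LL D.l : ℝ) ^ j * (1 - ((LL D.l : ℝ) ^ (2 * c + 2))⁻¹) ^ D.N ≤ Real.exp (-(D.l : ℝ)) := by
  have hL := LL_ge h
  have h1 : 1 ≤ (LL D.l : ℝ) ^ (2 * c + 2) := one_le_pow₀ (by linarith)
  have h2 : (1 - ((LL D.l : ℝ) ^ (2 * c + 2))⁻¹) ^ D.N ≤ Real.exp (-(LL D.l : ℝ) ^ 2) := by
    refine (pow_le_pow_left₀ (sub_nonneg.2 (inv_le_one_of_one_le₀ h1))
      (Real.one_sub_le_exp_neg _) _).trans_eq ?_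
    rw [← Real.exp_nat_mul, N_cast h]
    congr 1
    field_simp
    ring
  have h3 : (LL D.l : ℝ) ^ j ≤ Real.exp (j * LL D.l) := by
    rw [Real.exp_nat_mul]
    exact pow_le_pow_left₀ (by positivity) (by linarith [Real.add_one_le_exp (LL D.l : ℝ)]) _
  refine (mul_le_mul h3 h2 (pow_nonneg (sub_nonneg.2 (inv_le_one_of_one_le₀ h1)) _)
    (by positivity)).trans ?_
  rw [← Real.exp_add, Real.exp_le_exp]
  have h4 : (j : ℝ) ≤ D.l := by exact_mod_cast hj
  have h5 : (LL D.l : ℝ) = 2 * D.l + 1 := by simp [LL]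
  rw [h5]
  nlinarith [Nat.cast_nonneg (α := ℝ) j]

theorem exp_half (h : D.Ok c τ R ρ κ) : Real.exp (-(D.l : ℝ)) ≤ 1 / 2 := by
  have hL := LL_ge h
  have h5 : (LL D.l : ℝ) = 2 * D.l + 1 := by simp [LL]
  rw [Real.exp_neg, ← one_div]
  exact one_div_le_one_div_of_le two_pos (by linarith [Real.add_one_le_exp (D.l : ℝ)])

theorem card_rng (h : D.Ok c τ R ρ κ) :
    ((lbox (fb D.l (3 * (2 * D.N + 1)))).card : ℝ) ≤ (LL D.l : ℝ) ^ (8 * c + 25) := by
  have hL := LL_ge h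
  have h1 : 1 ≤ (LL D.l : ℝ) ^ (2 * c + 4) := one_le_pow₀ (by linarith)
  have : 2 * fb D.l (3 * (2 * D.N + 1)) + 1 = (12 * D.N + 7) * LL D.l := by unfold fb LL; ring
  rw [card_lbox, this]
  push_cast
  rw [N_cast h]
  calc _ ≤ (LL D.l * (LL D.l : ℝ) ^ (2 * c + 4) * LL D.l) ^ 3 * 3 := by gcongr; nlinarith
    _ = 3 * (LL D.l : ℝ) ^ (6 * c + 18) := by ring
    _ ≤ _ := pow_le_L h (by norm_num) (by omega)

end Op

open Op

theorem pol_bd (c : ℕ) : ∃ K : ℕ, ∀ (D : Dat) (R : ℕ) (τ ρ κ δ : ℝ), D.Ok c τ R ρ κ →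
    K ≤ D.l → (LL D.l : ℝ) ^ K * δ ≤ 1 → ∀ W : Cf, (∀ e, ‖W e - 1‖ ≤ δ) →
      (∀ (A : Fld) (a : ℝ), (∀ f, ‖A f‖ ≤ a) → ∀ f, ‖D.pol (pP D.N) W A f‖ ≤ (LL D.l : ℝ) ^ K * a) ∧
      ‖D.dt W - D.dt 1‖ ≤ (LL D.l : ℝ) ^ K * δ := by
  refine ⟨20 * c + 70, fun D R τ ρ κ δ h _ hδ W hW => ?_⟩
  have δ0 := (norm_nonneg _).trans (hW (0, 0))
  have hL := LL_ge h
  have hN := N_cast h
  have N1 : (1 : ℝ) ≤ D.N := hN ▸ one_le_pow₀ (by linarith)
  set M := (LL D.l : ℝ) ^ (8 * c + 25) with hM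
  set ε := (LL D.l : ℝ) ^ 6 * δ with hε
  have s1 : δ ≤ 1 / 100 := by
    have := mul_le_mul_of_nonneg_right (pow_le_L h (C := 100) (by norm_num) (i := 0)
      (j := 20 * c + 70) (by omega)) δ0
    rw [pow_zero] at this
    linarith
  have s2 : D.N * (2 * M * ε) ≤ 1 := by
    refine le_trans ?_ ((mul_le_mul_of_nonneg_right (pow_le_L h (C := 2) (by norm_num)
      (i := 10 * c + 35) (by omega)) δ0).trans hδ)
    rw [hN, hM, hε]
    exact le_of_eq (by ring)
  have hP : ∀ W, pjL D * topL D W = topL D W := fun W => LinearMap.ext fun A => by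
    rw [Module.End.mul_apply, pjL_apply, topL_apply, pj_of_tree fun _ => top_tree _ _]
  have t1 : ∀ k ≤ D.N, SB (topL D W ^ k * pjL D - topL D 1 ^ k * pjL D) (D.N * (2 * M * ε) * M) :=
    fun k hk => by
      have := sb_tele (N := D.N) (by positivity) (by positivity) (fun k hk => sb_free h hk)
        (sb_pert h s1 hW) (by rw [mul_sub, hP, hP]) s2 k 0 (by omega)
      simp only [pow_zero, one_mul, zero_add] at this
      exact this.mono (by gcongr)
  have t2 : ∀ k ≤ D.N, SB (topL D W ^ k * pjL D) (2 * M) := fun k hk => by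
    have := (t1 k hk).add (sb_free h hk)
    rw [sub_add_cancel] at this
    exact this.mono (by nlinarith [mul_le_mul_of_nonneg_right s2 (by positivity : 0 ≤ M)])
  refine ⟨fun A a ha f => ?_, ?_⟩
  · have a0 := (norm_nonneg _).trans (ha f)
    rw [pol_pP, Finset.sum_apply]
    refine (norm_sum_le _ _).trans ((sum_le_card_nsmul _ _ (2 * M * a) fun k hk => ?_).trans ?_)
    · rw [Pi.smul_apply, norm_smul, Complex.norm_real, ← topL_pow]
      exact (mul_le_of_le_one_left (norm_nonneg _) (norm_bin k)).trans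
        (t2 k (Nat.lt_succ_iff.1 (mem_range.1 hk)) A a ha f)
    · rw [card_range, nsmul_eq_mul, ← mul_assoc]
      refine mul_le_mul_of_nonneg_right (le_trans ?_
        (pow_le_L h (C := 4) (by norm_num) (i := 10 * c + 29) (by omega))) a0
      push_cast
      calc _ ≤ (2 * D.N) * (2 * M) := by gcongr; linarith
        _ = _ := by rw [hN, hM]; ring
  · rw [Dat.dt, Dat.dt, ← sum_sub_distrib]
    refine (norm_sum_le _ _).trans ((sum_le_card_nsmul _ _
      (3 * (D.N * (D.N * (2 * M * ε) * M))) fun f _ => ?_).trans ?_)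
    · rw [← sum_sub_distrib]
      refine (norm_sum_le _ _).trans ((sum_le_card_nsmul _ _ _ fun k _ => ?_).trans_eq (by simp; rfl))
      rw [← Pi.sub_apply]
      refine (norm_le_pi_norm _ k).trans ?_
      rw [pol_pQ, pol_pQ, Finset.sum_apply, Finset.sum_apply, ← sum_sub_distrib]
      refine (norm_sum_le _ _).trans ((sum_le_card_nsmul _ _ _ fun i hi => ?_).trans_eq
        (by rw [card_range, nsmul_eq_mul]))
      rw [Pi.smul_apply, Pi.smul_apply, ← smul_sub, norm_smul, ← topL_pow, ← topL_pow]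
      refine (mul_le_of_le_one_left (norm_nonneg _) ?_).trans
        ((t1 (i + 1) (mem_range.1 hi) _ 1 (fun e => ?_) f).trans_eq (mul_one _))
      · rw [show (1 / (2 * (i + 1)) : ℂ) = ((1 / (2 * (i + 1)) : ℝ) : ℂ) by push_cast; rfl,
          Complex.norm_real, Real.norm_of_nonneg (by positivity), div_le_one (by positivity)]
        linarith [Nat.cast_nonneg (α := ℝ) i]
      · by_cases he : e = f <;> simp [he, Pi.norm_single]
    · refine le_trans (le_of_eq ?_) (mul_le_mul_of_nonneg_right (pow_le_L h (C := 18) (by norm_num)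
        (i := 20 * c + 67) (by omega)) δ0)
      rw [Op.card_lbox, nsmul_eq_mul, hN, hM, hε, show 2 * D.l + 1 = LL D.l from rfl]
      push_cast
      ring

theorem pol_torus (c : ℕ) : ∃ K : ℕ, ∀ (D : Dat) (R : ℕ) (τ ρ κ δ : ℝ), D.Ok c τ R ρ κ →
    K ≤ D.l → (LL D.l : ℝ) ^ K * δ ≤ 1 → ∀ n, LL D.l ^ K ≤ n → ∀ W : Conf, Per n W → curvG δ W →
      ∃ P : (fund D.l n → E3) →ₗ[ℝ] (fund D.l n → E3),
        (∀ z, D.pol (pP D.N) (cC W) (fun f => cE (ext D.l n 0 z f)) =
          fun f => cE (ext D.l n 0 (P z) f)) ∧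
        0 < LinearMap.det P ∧
        |Real.log (LinearMap.det P) - ∑ y ∈ cube n, (D.dt (sh y (cC W))).re| ≤
          Real.exp (-(D.l : ℝ)) * n ^ 3 ∧
        (∀ z a, (∀ f, ‖z f‖ ≤ a) → |∑ y ∈ cube n, (cx (hh D.l D.m)
          (D.Ay y (cC W) fun f => cE (ext D.l n 0 (P z) f))
          (D.Ay y (cC W) fun f => cE (ext D.l n 0 (P z) f))).re / D.Λ - ∑ f, ‖z f‖ ^ 2| ≤
            Real.exp (-(D.l : ℝ)) * a ^ 2 * n ^ 3) ∧
        (∀ z a, (∀ f, ‖z f‖ ≤ a) → ∀ f, ‖P z f‖ ≤ (LL D.l : ℝ) ^ K * a) ∧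
        ∀ z a, (∀ f, ‖P z f‖ ≤ a) → ∀ f, ‖z f‖ ≤ (LL D.l : ℝ) ^ K * a := by
  refine ⟨20 * c + 70, fun D R τ ρ κ δ h hK hδ n hn W hW hc => ?_⟩
  have δ0 := hc.nonneg
  have hL := LL_ge h
  have hr := h.lin.hh_rng
  have hN := N_cast h
  have N1 : (1 : ℝ) ≤ D.N := hN ▸ one_le_pow₀ (by linarith)
  have n1 : 3 * D.N < n := by
    have h1 := pow_le_L h (C := 4) (by norm_num) (i := 2 * c + 4) (j := 20 * c + 70) (by omega)
    have h2 : (LL D.l : ℝ) ^ (20 * c + 70) ≤ n := by exact_mod_cast hn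
    have : (3 * D.N : ℝ) < n := by linarith
    exact_mod_cast this
  have n0 : 0 < n := by omega
  have hs : (LL D.l : ℝ) ^ c * δ ≤ 1 / 10 ^ 7 := by
    have h1 := mul_le_mul_of_nonneg_right (pow_le_L h (C := 10 ^ 6) le_rfl (i := c + 1)
      (j := 20 * c + 70) (by omega)) δ0
    have h2 := mul_le_mul_of_nonneg_right (pow_le_L h (C := 10) (by norm_num) (i := c)
      (j := c + 1) (by omega)) δ0
    linarith
  set η := ((LL D.l : ℝ) ^ (2 * c + 2))⁻¹ with hη
  have η0 : 0 < η := by positivity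
  have η1 : 0 ≤ 1 - η := sub_nonneg.2 (inv_le_one_of_one_le₀ (one_le_pow₀ (by linarith)))
  have hx := fun j hj => exp_small h (j := j) (le_trans hj hK)
  rw [← hη] at hx
  have x0 : 0 ≤ (1 - η) ^ D.N := by positivity
  have τ0 : 0 ≤ Kit.tau D.N η := by unfold Kit.tau; positivity
  have τ1 : Kit.tau D.N η ≤ (LL D.l : ℝ) ^ (4 * c + 9) * (1 - η) ^ D.N := by
    refine mul_le_mul_of_nonneg_right (le_trans ?_
      (pow_le_L h (C := 6) (by norm_num) (i := 4 * c + 8) (by omega))) x0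
    calc _ ≤ (2 * D.N) * (3 * D.N : ℝ) := by gcongr <;> linarith
      _ = _ := by rw [hN]; ring
  have τ2 : ∀ C ≤ (10 : ℝ) ^ 6, ∀ j ≤ 10 * c + 30, C * (LL D.l : ℝ) ^ j *
      ((LL D.l : ℝ) ^ (4 * c + 9) * (1 - η) ^ D.N) ≤ Real.exp (-(D.l : ℝ)) := fun C hC j hj => by
    refine le_trans ?_ (hx (j + 1 + (4 * c + 9)) (by omega))
    rw [pow_add _ (j + 1), mul_assoc (_ ^ (j + 1))]
    exact mul_le_mul_of_nonneg_right (pow_le_L h hC j.lt_succ_self) (by positivity)
  set T := Op.TT D n W with hT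
  obtain ⟨-, c1, c2, c3, c4⟩ := Kit.spec (TT_symm h n0 hW) η0 (fun a => (TT_mem h n0 hW a).1)
    (TT_gap h n0 hW hc hs) D.N (τ1.trans (le_trans (by simp)
      ((τ2 1 (by norm_num) 0 (by omega)).trans (exp_half h))))
  rw [← aeval_pR, ← hT] at c1 c2 c3 c4
  set P := aeval T (pR D.N) with hP
  have hc4 : ((fund D.l n).card : ℝ) ≤ n ^ 3 * ((LL D.l : ℝ) ^ 3 * 3) := by
    exact_mod_cast card_fund_le D.l n
  have bP : ∀ z, ‖P z‖ ≤ (D.N + 1) * ‖z‖ := fun z => by
    rw [hP, aeval_pR, Kit.bP, LinearMap.sum_apply]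
    refine (norm_sum_le _ _).trans ((sum_le_card_nsmul _ _ ‖z‖ fun k _ => ?_).trans_eq (by simp))
    rw [LinearMap.smul_apply, norm_smul]
    exact (mul_le_of_le_one_left (norm_nonneg _) (by simpa [bin_eq] using norm_bin k)).trans
      (TT_pow_le h n0 hW k z)
  have dg : (pR D.N * (1 - X)).natDegree ≤ D.N + 1 := natDegree_mul_le.trans
    (add_le_add (natDegree_pR _) ((natDegree_sub_le _ _).trans (by simp)))
  have hC := card_rng h
  let e := WithLp.linearEquiv 2 ℝ (fund D.l n → E3)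
  refine ⟨e.toLinearMap ∘ₗ P ∘ₗ e.symm.toLinearMap, fun z => ?_, by rwa [LinearMap.det_conj], ?_,
    fun z a ha => ?_, fun z a ha f => ?_, fun z a ha f => ?_⟩
  · rw [← map_pR]
    exact (emb_aeval n0 hW _ (e.symm z)).symm
  · rw [LinearMap.det_conj, ← trace_eq h n1 hW]
    refine c4.trans ?_
    have h1 : (Module.finrank ℝ (HH D.l n) : ℝ) = (fund D.l n).card * 3 := by
      rw [e.finrank_eq, Module.finrank_pi_fintype]
      simp
    have h2 : (1 - η) ^ D.N / η ≤ (LL D.l : ℝ) ^ (4 * c + 9) * (1 - η) ^ D.N := by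
      rw [hη, div_inv_eq_mul, mul_comm]
      exact mul_le_mul_of_nonneg_right (pow_le_pow_right₀ (by linarith) (by omega)) x0
    rw [h1]
    calc _ ≤ n ^ 3 * ((LL D.l : ℝ) ^ 3 * 3) * 3 * ((LL D.l : ℝ) ^ (4 * c + 9) * (1 - η) ^ D.N +
          (LL D.l : ℝ) ^ (4 * c + 9) * (1 - η) ^ D.N) := by gcongr
      _ = 18 * (LL D.l : ℝ) ^ 3 * ((LL D.l : ℝ) ^ (4 * c + 9) * (1 - η) ^ D.N) * n ^ 3 := by ring
      _ ≤ _ := mul_le_mul_of_nonneg_right (τ2 18 (by norm_num) 3 (by omega)) (by positivity)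
  · have h1 := c2 (e.symm z)
    rw [LinearMap.sub_apply, Module.End.one_apply, inner_sub_right, hT, inner_TT hr n0 hW,
      sub_sub_cancel, QQ, Complex.re_sum, sum_div, PiLp.norm_sq_eq_of_L2] at h1
    refine h1.trans ?_
    have h2 : ∑ f, ‖z f‖ ^ 2 ≤ (fund D.l n).card * a ^ 2 :=
      (sum_le_card_nsmul _ _ (a ^ 2) fun f _ =>
        pow_le_pow_left₀ (norm_nonneg _) (ha f) 2).trans_eq (by simp)
    calc _ ≤ (LL D.l : ℝ) ^ (4 * c + 9) * (1 - η) ^ D.N *
          (n ^ 3 * ((LL D.l : ℝ) ^ 3 * 3) * a ^ 2) :=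
        mul_le_mul τ1 (h2.trans (by gcongr)) (sum_nonneg fun _ _ => sq_nonneg _) (by positivity)
      _ = 3 * (LL D.l : ℝ) ^ 3 * ((LL D.l : ℝ) ^ (4 * c + 9) * (1 - η) ^ D.N) * a ^ 2 * n ^ 3 := by
        ring
      _ ≤ _ := by gcongr; exact τ2 3 (by norm_num) 3 (by omega)
  · have a0 := (norm_nonneg _).trans (ha f)
    refine (sup_bd hr n0 hW (d := 2 * D.N + 1) ((natDegree_pR _).trans (by omega)) (by positivity)
      bP (z := e.symm z) ha f).trans ?_
    calc _ ≤ 2 * D.N * ((LL D.l : ℝ) ^ (8 * c + 25) * a) := by gcongr; linarith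
      _ = 2 * (LL D.l : ℝ) ^ (10 * c + 29) * a := by rw [hN]; ring
      _ ≤ _ := mul_le_mul_of_nonneg_right (pow_le_L h (by norm_num) (by omega)) a0
  · have a0 := (norm_nonneg _).trans (ha f)
    have h1 : ∀ i, ‖z i‖ ≤ 1 / 2 * ‖z‖ + 4 * (LL D.l : ℝ) ^ (10 * c + 29) * a := fun i => by
      have h2 := sup_bd hr n0 hW (q := pR D.N * (1 - X) * pR D.N - 1) (d := 2 * D.N + 1)
        ((natDegree_sub_le _ _).trans (max_le (natDegree_mul_le.trans
          ((add_le_add dg (natDegree_pR _)).trans (by omega))) (by simp))) τ0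
        (fun w => by simpa [← hT, ← hP] using c1 w) (z := e.symm z) (norm_le_pi_norm z) i
      have h3 := sup_bd hr n0 hW (q := pR D.N * (1 - X)) (d := 2 * D.N + 1) (dg.trans (by omega))
        (γ := (D.N + 1) * 2) (by positivity) (fun w => by
          have := norm_sub_le w (T w)
          have := TT_le h n0 hW w
          rw [map_mul, Module.End.mul_apply, mul_assoc]
          refine (bP _).trans (mul_le_mul_of_nonneg_left ?_ (by positivity))
          simp only [map_sub, map_one, aeval_X, LinearMap.sub_apply, Module.End.one_apply]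
          linarith) (z := P (e.symm z)) ha i
      have h4 : z i = aeval T (pR D.N * (1 - X)) (P (e.symm z)) i -
          aeval T (pR D.N * (1 - X) * pR D.N - 1) (e.symm z) i := by
        simp [← hP, e]
      rw [h4]
      refine (norm_sub_le _ _).trans ((add_le_add h3 h2).trans ?_)
      rw [add_comm]
      refine add_le_add ?_ ?_
      · rw [← mul_assoc]
        refine mul_le_mul_of_nonneg_right (le_trans ?_
          ((τ2 1 (by norm_num) (8 * c + 25) (by omega)).trans (exp_half h))) (norm_nonneg _)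
        rw [one_mul, mul_comm]
        gcongr
      · calc _ ≤ (2 * D.N) * 2 * ((LL D.l : ℝ) ^ (8 * c + 25) * a) := by gcongr; linarith
          _ = _ := by rw [hN]; ring
    have h5 := (pi_norm_le_iff_of_nonneg (by positivity)).2 h1
    have h6 := mul_le_mul_of_nonneg_right (pow_le_L h (C := 8) (by norm_num) (i := 10 * c + 29)
      (j := 20 * c + 70) (by omega)) a0
    linarith [norm_le_pi_norm z f]

end Pool.Agent.Lib.MP_7f377f_mp.RG.D3
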