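import Pool.Agent.Lib.MP_7f377f_mp.R3SmD

/-! Bounds on the four parts of the small interaction. -/

noncomputable section

namespace Pool.Agent.Lib.MP_7f377f_mp.RG.D3.JS

open Finset

attribute [local irreducible] box lbox

/-- `P` dominates all constants -/
structure Big (D : Dat) (c R : ℕ) (P : ℝ) : Prop where
  p0 : 10 ^ 6 ≤ P
  pL : 324 * (LL D.l : ℝ) ^ 3 ≤ P
  pc : 2 * (LL D.l : ℝ) ^ c ≤ P
  pR : (R : ℝ) + 3 ≤ P

variable {D : Dat} {c R : ℕ} {τ ρ κ ρ' P δ α : ℝ} {A B : Fld}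

theorem one_le_LL (l : ℕ) : (1 : ℝ) ≤ LL l := by exact_mod_cast Li.LL_pos l

theorem Big.one (b : Big D c R P) : 1 ≤ P := le_trans (by norm_num) b.p0

theorem Big.L (b : Big D c R P) : LL D.l ≤ P := by
  linarith [le_self_pow₀ (one_le_LL D.l) (show 3 ≠ 0 by norm_num), b.pL, one_le_LL D.l]

theorem Big.r (b : Big D c R P) (h : D.Ok c τ R ρ κ) : 3 * (D.r : ℝ) + 2 ≤ P := by
  have h1 := h.r_ge
  have h2 := h.r_le
  have : 3 * D.r + 2 ≤ LL D.l := by unfold LL; nlinarith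
  exact le_trans (by exact_mod_cast this) b.L

theorem Big.c2 (b : Big D c R P) : 2 * (LL D.l : ℝ) ^ c ≤ P ^ 2 :=
  b.pc.trans (le_self_pow₀ b.one two_ne_zero)

theorem Big.c1 (b : Big D c R P) : (LL D.l : ℝ) ^ c ≤ P ^ 2 := by
  linarith [b.c2, pow_nonneg (Nat.cast_nonneg (α := ℝ) (LL D.l)) c]

theorem card_boxR (l : ℕ) : ((box l).card : ℝ) = (LL l : ℝ) ^ 3 := by simp [Li.card_box, LL]

theorem card_lboxR (l : ℕ) : ((lbox l).card : ℝ) = 3 * (LL l : ℝ) ^ 3 := by simp [card_lbox, LL]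

theorem act1_ap (h : D.Ok c τ R ρ κ) (b : Big D c R P) (h3 : P ^ 3 * δ ≤ 1) {U : Cf} {a : Fld}
    (hU : ∀ e, ‖a e‖ ≤ P * δ ∧ ‖U e - 1 - io (a e)‖ ≤ P * δ ^ 2) (x : St) :
    ‖cx D.m (Bx x U) (Bx x U) - cx D.m (sh x a) (sh x a)‖ ≤ P ^ 11 * δ ^ 3 := by
  have δ0 : 0 ≤ δ := nonneg_of_mul_nonneg_right ((norm_nonneg _).trans (hU (0, 0)).1)
    (by linarith [b.one])
  have k := Bx_cz b.p0 h3 hU (n := 3 * D.r) (by push_cast; linarith [b.r h]) x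
  have k1 := Cz.cx h.m_bd b.c1 b.p0 δ0 k k
  rwa [cx_cg_left fun u b => (h.m_gauge u b).1, cx_cg_right fun u b => (h.m_gauge u b).2] at k1

theorem Bx_czB (h : D.Ok c τ R ρ κ) (b : Big D c R P) (h3 : P ^ 3 * δ ≤ 1) (hB : ∀ e, ‖B e‖ ≤ δ)
    (y : St) : Cz D.r P δ (Bx y (exF B)) (cg (sh y B)) :=
  Bx_cz b.p0 h3 (fun e => (exF_ap b.p0 h3 hB e).2)
    (by linarith [b.r h, Nat.cast_nonneg (α := ℝ) D.r]) y

theorem e1_bd (h : D.Ok c τ R ρ κ) (b : Big D c R P) (h3 : P ^ 3 * δ ≤ 1) (hB : ∀ e, ‖B e‖ ≤ δ)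
    (hA : ∀ e, ‖A e‖ ≤ δ) (hU : ∀ e, ‖(A + cxL (mu D.l D.s) B) e‖ ≤ P * δ ∧
      ‖D.Uz (exF B) A e - 1 - io ((A + cxL (mu D.l D.s) B) e)‖ ≤ P * δ ^ 2) :
    ‖D.e1 (exF B) A‖ ≤ D.β * (P ^ 12 * δ ^ 3) := by
  have δ0 : 0 ≤ δ := (norm_nonneg _).trans (hB (0, 0))
  have P1 := b.one
  obtain ⟨s1, s2, s3⟩ := pow_small b.p0 δ0 h3
  have k1 := norm_sum_le_of_le (box D.l) fun x _ => act1_ap h b h3 hU x
  have k2' : ∀ μ, ‖dot (D.res (exF B) (D.Uz (exF B) A) μ) (D.res (exF B) (D.Uz (exF B) A) μ) -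
      dot (rs D.l (A + cxL (mu D.l D.s) B) B μ) (rs D.l (A + cxL (mu D.l D.s) B) B μ)‖ ≤
        6 * (4 * (100 * (P ^ 4 * δ ^ 2))) * (402 * (P ^ 2 * δ)) := fun μ => by
    obtain ⟨r1, r2⟩ := rq_ap b.p0 h3 b.L hU hB μ
    have s4 : P ^ 4 * δ ^ 2 ≤ P ^ 2 * δ := by
      calc _ = P ^ 2 * δ * (P ^ 2 * δ) := by ring
        _ ≤ P ^ 2 * δ * 1 := by gcongr; linarith
        _ = _ := mul_one _
    have r3 := ch_ap (r1.trans (by linarith)) r2 (by linarith)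
    have r4 := norm_add_le_of_le r3 r1
    rw [sub_add_cancel] at r4
    exact dot_diff r3 (r4.trans (by linarith)) (r1.trans (by nlinarith [sq_nonneg P]))
  have k2 := norm_sum_le_of_le univ fun μ _ => k2' μ
  have cA := Ay_cz b.p0 h3 D (fun e => (exF_ap b.p0 h3 hB e).1) hA 0
  have cB := Bx_czB h b h3 hB 0
  rw [up_zero, Li.sh_zero] at cA
  rw [Li.sh_zero] at cB
  have k3 := Cz.cx (hh_Bd h.lin) (by
    have := mul_le_mul b.pc b.pL (by positivity) (by linarith)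
    nlinarith [sq_nonneg P]) b.p0 δ0 cA cA
  have k4 := Cz.cx h.lin.xx_bd b.c1 b.p0 δ0 cA cB
  have k5 := Cz.cx h.lin.mn_bd b.c1 b.p0 δ0 cB cB
  rw [cx_cg_right (xx_gr h.lin.symm h.lin.gauge h.lin.s_gauge)] at k4
  rw [cx_cg_right (mn_gr' h.lin.symm h.lin.gauge h.lin.s_gauge),
    cx_cg_left (mn_gr h.lin.gauge h.lin.s_gauge)] at k5
  have sq := square (l := D.l) (s := D.s) h.lin.symm A B
  rw [sum_sub_distrib, sum_const, nsmul_eq_mul] at k1 k2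
  rw [card_boxR] at k1
  rw [Dat.e1, norm_mul, Complex.norm_real, Real.norm_of_nonneg (zero_le_one.trans h.beta)]
  refine mul_le_mul_of_nonneg_left ?_ (zero_le_one.trans h.beta)
  have e : ∀ a1 a2 a3 a4 a5 b1 b2 b3 b4 b5 L : ℂ, b1 + L * b2 = b3 + 2 * b4 + b5 →
      a1 + L * a2 - a3 - 2 * a4 - a5 =
        (a1 - b1) + L * (a2 - b2) - (a3 - b3) - 2 * (a4 - b4) - (a5 - b5) := by
    intro _ _ _ _ _ _ _ _ _ _ _ h
    linear_combination h
  rw [e _ _ _ _ _ _ _ _ _ _ _ sq]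
  refine (norm_sub_le_of_le (norm_sub_le_of_le (norm_sub_le_of_le (norm_add_le_of_le k1
    (norm_mul_le_of_le le_rfl k2)) k3) (norm_mul_le_of_le le_rfl k4)) k5).trans ?_
  simp only [norm_pow, Complex.norm_natCast, card_univ, Fintype.card_fin, Complex.norm_ofNat,
    Nat.cast_ofNat]
  have L1 := one_le_LL D.l
  have L2 : (LL D.l : ℝ) ^ 2 ≤ P := by
    linarith [pow_le_pow_right₀ L1 (show 2 ≤ 3 by norm_num), b.pL, sq_nonneg (LL D.l : ℝ)]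
  have L4 : (1 : ℝ) ≤ LL D.l ^ 3 := one_le_pow₀ L1
  have q1 : (LL D.l : ℝ) ^ 2 * (3 * (6 * (4 * (100 * (P ^ 4 * δ ^ 2))) * (402 * (P ^ 2 * δ)))) ≤
      P ^ 11 * δ ^ 3 := by
    calc _ ≤ P * (3 * (6 * (4 * (100 * (P ^ 4 * δ ^ 2))) * (402 * (P ^ 2 * δ)))) := by gcongr
      _ = 2894400 * (P ^ 7 * δ ^ 3) := by ring
      _ ≤ P ^ 4 * (P ^ 7 * δ ^ 3) := by
        gcongr
        nlinarith [pow_le_pow_right₀ P1 (show 2 ≤ 4 by norm_num), b.p0]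
      _ = _ := by ring
  have q2 : 0 ≤ P ^ 11 * δ ^ 3 := by positivity
  have q3 := mul_le_mul_of_nonneg_right b.pL q2
  have q4 := mul_le_mul_of_nonneg_right L4 q2
  rw [show P ^ 12 * δ ^ 3 = P * (P ^ 11 * δ ^ 3) by ring]
  linarith

theorem cv_re {n : ℕ} (h : Cv n ρ B) (k : Fin 3) : Cv n ρ (reF B k) ∧ Cv n ρ (imF B k) :=
  ⟨fun x hx μ ν => ((Complex.abs_re_le_norm (dd B x μ ν k)).trans (norm_le_pi_norm _ k)).trans
    (h x hx μ ν), fun x hx μ ν => ((Complex.abs_im_le_norm (dd B x μ ν k)).trans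
      (norm_le_pi_norm _ k)).trans (h x hx μ ν)⟩

theorem stat_real (h : D.Ok c τ R ρ κ) {a b : V} (ha : ∀ e, |a e| ≤ α)
    (ht : ∀ f, tree D.l f → a f = 0) (hb : Cv (D.r / 3) ρ' b) :
    |∑ y ∈ box 2, xx D.l D.m D.s (sh (up D.l y) (cut D.l a)) (sh y b)| ≤
      3 * (LL D.l : ℝ) ^ 3 * (α * (τ * ρ')) := by
  have α0 : 0 ≤ α := (abs_nonneg _).trans (ha (0, 0))
  have e : cut D.l a = ∑ f ∈ lbox D.l, a f • Pi.single f 1 := by
    funext e
    simp [cut, Finset.sum_apply, Pi.single_apply]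
  simp only [e, ← Li.shL_apply (up _ _), map_sum, map_smul, LinearMap.sum_apply, LinearMap.smul_apply,
    smul_eq_mul]
  rw [sum_comm, ← card_lboxR, ← nsmul_eq_mul]
  refine (abs_sum_le_sum_abs _ _).trans (sum_le_card_nsmul _ _ _ fun f hf => ?_)
  rw [← mul_sum, abs_mul]
  by_cases t : tree D.l f
  · rw [ht f t, abs_zero, zero_mul]
    exact mul_nonneg α0 (mul_nonneg h.tau hb.nonneg)
  · exact mul_le_mul (ha f) (h.lin.stat b ρ' f hf t hb) (abs_nonneg _) α0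

theorem e2_bd (h : D.Ok c τ R ρ κ) (b : Big D c R P) (h3 : P ^ 3 * δ ≤ 1) (hB : ∀ e, ‖B e‖ ≤ δ)
    (hA : ∀ e, ‖A e‖ ≤ α) (hα : α ≤ δ) (ht : ∀ f, tree D.l f → A f = 0)
    (hc : Cv (D.r / 3) ρ' B) :
    ‖D.e2 (exF B) A‖ ≤ D.β * (P ^ 12 * δ ^ 3) + P * (D.β * τ * ρ' * α) := by
  have δ0 : 0 ≤ δ := (norm_nonneg _).trans (hB (0, 0))
  have α0 : 0 ≤ α := (norm_nonneg _).trans (hA (0, 0))
  have hA' : ∀ e, ‖cut D.l A e‖ ≤ δ := fun e => by
    simp only [cut]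
    split_ifs
    · exact (hA e).trans hα
    · simpa using δ0
  have k1 := norm_sum_le_of_le (box 2) fun y _ => Cz.cx h.lin.xx_bd b.c1 b.p0 δ0
    (Ay_cz b.p0 h3 D (fun e => (exF_ap b.p0 h3 hB e).1) hA' y) (Bx_czB h b h3 hB y)
  simp only [cx_cg_right (xx_gr h.lin.symm h.lin.gauge h.lin.s_gauge), sum_sub_distrib, sum_const,
    Li.card_box, nsmul_eq_mul] at k1
  have k2 : ‖∑ y ∈ box 2, cx (xx D.l D.m D.s) (sh (up D.l y) (cut D.l A)) (sh y B)‖ ≤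
      ∑ _k : Fin 3, 4 * (3 * (LL D.l : ℝ) ^ 3 * (α * (τ * ρ'))) := by
    simp only [cx]
    rw [sum_comm]
    refine norm_sum_le_of_le _ fun k _ => ?_
    have e1 : reF (cut D.l A) k = cut D.l (reF A k) := by
      funext e; simp only [reF, cut]; split_ifs <;> rfl
    have e2 : imF (cut D.l A) k = cut D.l (imF A k) := by
      funext e; simp only [imF, cut]; split_ifs <;> rfl
    have a1 : ∀ e, |reF A k e| ≤ α := fun e =>
      ((Complex.abs_re_le_norm _).trans (norm_le_pi_norm _ k)).trans (hA e)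
    have a2 : ∀ e, |imF A k e| ≤ α := fun e =>
      ((Complex.abs_im_le_norm _).trans (norm_le_pi_norm _ k)).trans (hA e)
    have t1 : ∀ f, tree D.l f → reF A k f = 0 := fun f hf => by simp [reF, ht f hf]
    have t2 : ∀ f, tree D.l f → imF A k f = 0 := fun f hf => by simp [imF, ht f hf]
    have s1 := stat_real h a1 t1 (cv_re hc k).1
    have s2 := stat_real h a2 t2 (cv_re hc k).2
    have s3 := stat_real h a1 t1 (cv_re hc k).2
    have s4 := stat_real h a2 t2 (cv_re hc k).1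
    simp only [reF_sh, imF_sh, e1, e2, sum_add_distrib, ← sum_mul, ← Complex.ofReal_sum,
      sum_sub_distrib]
    refine (norm_add_le _ _).trans ?_
    rw [norm_mul, Complex.norm_I, mul_one, Complex.norm_real, Complex.norm_real]
    exact (add_le_add (norm_sub_le_of_le s1 s2) (norm_add_le_of_le s3 s4)).trans_eq (by ring)
  have k3 := norm_add_le_of_le k1 k2
  have β0 := zero_le_one.trans h.beta
  rw [sub_add_cancel, sum_const, card_univ, Fintype.card_fin, nsmul_eq_mul] at k3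
  rw [Dat.e2, norm_mul, norm_mul, Complex.norm_real, Real.norm_of_nonneg β0, Complex.norm_ofNat]
  refine (mul_le_mul_of_nonneg_left k3 (by positivity)).trans ?_
  have := h.tau
  have := hc.nonneg
  have P1 := b.one
  have q1 := mul_le_mul_of_nonneg_right b.pL (show 0 ≤ D.β * τ * ρ' * α by positivity)
  have q2 := mul_le_mul_of_nonneg_right b.p0 (show 0 ≤ D.β * (P ^ 11 * δ ^ 3) by positivity)
  have q3 : 0 ≤ (LL D.l : ℝ) ^ 3 * (D.β * τ * ρ' * α) := by positivity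
  have q4 : 0 ≤ D.β * (P ^ 11 * δ ^ 3) := by positivity
  push_cast
  nlinarith

theorem cv_mu (h : D.Ok c τ R ρ κ) (h1 : ρ' ≤ √(LL D.l) * ρ) (hc : Cv (D.Rs R) ρ' B) :
    Cv (R + D.l) (ρ / 8) (cxL (mu D.l D.s) B) := fun x hx μ ν => by
  have ρ0 := h.rho
  have hy : yo D.l x ∈ box (R / LL D.l + 2) :=
    yo_mem (Li.box_mono ((by omega : _ ≤ R + 2 + D.l).trans (rad_le D.l R 0)) hx)
  have key : ∀ b : V, Cv (D.Rs R) ρ' b → |dd (mu D.l D.s b) x μ ν| ≤ ρ / 16 := fun b hb => by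
    have := h.lin.point _ ρ' (cv_sh (a := D.r / 3) hb hy (by unfold Dat.Rs; omega)) _
      (sub_up_mem D.l x) μ ν
    rw [mu_sh, Li.dd_sh, sub_add_cancel] at this
    have L0 : 0 < √(LL D.l : ℝ) := Real.sqrt_pos.2 (zero_lt_one.trans_le (one_le_LL _))
    have r1 : (1000 : ℝ) ≤ D.r := by exact_mod_cast h.r_ge
    have r2 := le_self_pow₀ (show (1 : ℝ) ≤ D.r by linarith) (show 12 ≠ 0 by norm_num)
    refine this.trans ((div_le_div_of_nonneg_right h1 (by positivity)).trans ?_)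
    rw [mul_div_mul_left _ _ L0.ne']
    exact div_le_div_of_nonneg_left ρ0.le (by norm_num) (by linarith)
  refine (pi_norm_le_iff_of_nonneg (by positivity)).2 fun k => ?_
  refine (Complex.norm_le_abs_re_add_abs_im _).trans ?_
  have a1 := key _ (cv_re hc k).1
  have a2 := key _ (cv_re hc k).2
  rw [← reF_cxL] at a1
  rw [← imF_cxL] at a2
  exact (add_le_add a1 a2).trans_eq (by ring)

theorem cv_Bx (b : Big D c R P) (h3 : P ^ 3 * δ ≤ 1) {U : Cf} {a : Fld}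
    (hU : ∀ e, ‖a e‖ ≤ P * δ ∧ ‖U e - 1 - io (a e)‖ ≤ P * δ ^ 2) (x : St) :
    Cv R (4 * (P ^ 5 * δ ^ 2)) (Bx x U - sh x a) := fun y hy μ ν => by
  have := cv_of_sm (Bx_cz b.p0 h3 hU (n := R + 1) (by push_cast; linarith [b.pR]) x).1 y hy μ ν
  rwa [dd_sub, dd_cg, ← dd_sub] at this

theorem cv_Us (h : D.Ok c τ R ρ κ) (b : Big D c R P) (h3 : P ^ 3 * δ ≤ 1) (h6 : P ^ 6 * δ ^ 2 ≤ ρ)
    (h1 : ρ' ≤ √(LL D.l) * ρ) (hc : Cv (D.Rs R) ρ' B) (hS : ∀ e, ‖cxL (mu D.l D.s) B e‖ ≤ P * δ ∧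
      ‖D.Us (exF B) e - 1 - io (cxL (mu D.l D.s) B e)‖ ≤ P * δ ^ 2) {x : St} (hx : x ∈ box D.l) :
    Cv R (ρ / 4) (Bx x (D.Us (exF B))) := by
  have := cv_add (cv_Bx b h3 hS x) (cv_sh (cv_mu h h1 hc) hx le_rfl)
  rw [sub_add_cancel] at this
  refine cv_mono this le_rfl ?_
  have := mul_le_mul_of_nonneg_right b.p0 (show 0 ≤ P ^ 5 * δ ^ 2 by have := b.one; positivity)
  nlinarith [h.rho]

theorem cv_Uz (b : Big D c R P) (h3 : P ^ 3 * δ ≤ 1) (hA : ∀ e, ‖A e‖ ≤ α) {U S : Cf} {a : Fld}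
    (hU : ∀ e, ‖(A + a) e‖ ≤ P * δ ∧ ‖U e - 1 - io ((A + a) e)‖ ≤ P * δ ^ 2)
    (hS : ∀ e, ‖a e‖ ≤ P * δ ∧ ‖S e - 1 - io (a e)‖ ≤ P * δ ^ 2) (x : St) :
    Cv R (8 * (P ^ 5 * δ ^ 2) + 4 * α) (Bx x U - Bx x S) := fun y hy μ ν => by
  have : Bx x U - Bx x S = (Bx x U - sh x (A + a)) - (Bx x S - sh x a) + sh x A := by
    rw [show sh x (A + a) = sh x A + sh x a from rfl]; abel
  rw [this, dd_add, dd_sub]
  exact (norm_add_le_of_le (norm_sub_le_of_le (cv_Bx b h3 hU x y hy μ ν)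
    (cv_Bx b h3 hS x y hy μ ν)) (cv_of_sm (fun e _ => hA _) y hy μ ν)).trans_eq (by ring)

theorem kappa_nonneg (h : D.Ok c τ R ρ κ) : 0 ≤ κ :=
  (norm_nonneg _).trans (h.psi.bd 0 fun x _ μ ν => by simp [dd, h.rho.le])

theorem e4_bd (b : Big D c R P) (hA : ∀ e, ‖A e‖ ≤ α) (h1 : α ≤ 1 / 10) :
    ‖D.e4 A‖ ≤ P * α ^ 2 := by
  have α0 : 0 ≤ α := (norm_nonneg _).trans (hA (0, 0))
  have k' : ∀ f, ‖Complex.log (1 + dot (A f) (A f))‖ ≤ 3 / 2 * (3 * (α * α)) := fun f => by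
    have : ‖dot (A f) (A f)‖ ≤ 3 * (α * α) := (norm_dot _ _).trans (by gcongr <;> exact hA f)
    exact (Complex.norm_log_one_add_half_le_self (this.trans (by nlinarith))).trans
      (mul_le_mul_of_nonneg_left this (by norm_num))
  have k := norm_sum_le_of_le (lbox D.l) fun f _ => k' f
  rw [sum_const, nsmul_eq_mul, card_lboxR] at k
  rw [Dat.e4, norm_mul, Complex.norm_ofNat]
  have := mul_le_mul_of_nonneg_right b.pL (sq_nonneg α)
  have : 0 ≤ (LL D.l : ℝ) ^ 3 * α ^ 2 := by positivity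
  nlinarith

end Pool.Agent.Lib.MP_7f377f_mp.RG.D3.JS
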