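import Pool.Agent.Lib.MP_7f377f_mp.R3Step1
import Pool.Agent.Lib.MP_7f377f_mp.KitMix
import Pool.Agent.Lib.MP_7f377f_mp.R3Hol2
import Pool.Agent.Lib.MP_7f377f_mp.R3Geo
import Pool.Agent.Lib.MP_7f377f_mp.R3MeasTree
import Pool.Agent.Lib.MP_7f377f_mp.R3Op5
import Pool.Agent.Lib.MP_7f377f_mp.R3SmF
import Pool.Agent.Lib.MP_7f377f_mp.RGMeasKer

/-! The logarithm of the fluctuation integral. -/

noncomputable section

namespace Pool.Agent.Lib.MP_7f377f_mp.RG.D3

open Finset MeasureTheory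
open scoped ENNReal

namespace SX

theorem measurable_gw : Measurable fun v : E3 => ENNReal.ofReal (Real.exp (-(‖v‖ ^ 2 / 2))) := by
  fun_prop

theorem nu0_ne_top (ζ : ℝ) : nu0 ζ Set.univ ≠ ∞ := by
  rw [nu0, withDensity_apply _ MeasurableSet.univ, Measure.restrict_univ]
  refine ne_top_of_le_ne_top (b := ∫⁻ _ in Metric.closedBall (0 : E3) ζ, 1) ?_
    (lintegral_mono fun v => ?_)
  · rw [setLIntegral_one]
    exact measure_closedBall_lt_top.ne
  · exact ENNReal.ofReal_le_one.mpr (Real.exp_le_one_iff.mpr (neg_nonpos.mpr (by positivity)))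

theorem nu0_ne_zero {ζ : ℝ} (h : 0 < ζ) : nu0 ζ Set.univ ≠ 0 := by
  rw [nu0, withDensity_apply _ MeasurableSet.univ, Measure.restrict_univ, ← pos_iff_ne_zero,
    lintegral_pos_iff_support measurable_gw]
  have : (Function.support fun v : E3 => ENNReal.ofReal (Real.exp (-(‖v‖ ^ 2 / 2)))) = Set.univ :=
    Set.eq_univ_of_forall fun v => (ENNReal.ofReal_pos.mpr (Real.exp_pos _)).ne'
  rw [this, Measure.restrict_apply_univ]
  exact Metric.measure_closedBall_pos _ _ h

theorem nu_prob {ζ : ℝ} (h : 0 < ζ) : IsProbabilityMeasure (nu ζ) :=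
  ⟨by rw [nu, Measure.smul_apply, smul_eq_mul,
    ENNReal.inv_mul_cancel (nu0_ne_zero h) (nu0_ne_top ζ)]⟩

theorem box_mono {a b : ℕ} (h : a ≤ b) : box a ⊆ box b := fun x hx =>
  mem_box.mpr fun i => by have := mem_box.mp hx i; omega

theorem add_mem_box {a b : ℕ} {x y : St} (hx : x ∈ box a) (hy : y ∈ box b) :
    x + y ∈ box (a + b) := mem_box.mpr fun i => by
  have := mem_box.mp hx i
  have := mem_box.mp hy i
  simp only [Pi.add_apply]
  omega

theorem neg_mem_box {a : ℕ} {x : St} (hx : x ∈ box a) : -x ∈ box a := mem_box.mpr fun i => by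
  have := mem_box.mp hx i
  simp only [Pi.neg_apply]
  omega

theorem add_up_mem {l a b : ℕ} {x y : St} (hx : x ∈ box (fb l a)) (hy : y ∈ box b) :
    x + up l y ∈ box (fb l (b + a)) := mem_box.mpr fun i => by
  have h1 := mem_box.mp hx i
  have h2 := mem_box.mp hy i
  simp only [Pi.add_apply, up_apply, fb, LL] at h1 ⊢
  push_cast at h1 ⊢
  constructor <;> nlinarith

theorem eq_of_md {n a : ℕ} (hn : 2 * a + 1 ≤ n) {x y j : St} (hx : x ∈ box a) (hy : y ∈ box a)
    (h : md n (x + j) = md n (y + j)) : x = y := by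
  funext i
  have h1 := mem_box.mp hx i
  have h2 := mem_box.mp hy i
  have h3 : (x i + j i) % n = (y i + j i) % n := congrFun h i
  obtain ⟨k, hk⟩ := Int.emod_eq_emod_iff_emod_sub_eq_zero.mp h3 |> Int.dvd_of_emod_eq_zero
  have h5 : (2 * a + 1 : ℤ) ≤ n := by exact_mod_cast hn
  rcases lt_trichotomy k 0 with hk0 | hk0 | hk0
  · nlinarith
  · rw [hk0] at hk; linarith
  · nlinarith

/-- two labels on the torus are within `k` steps of size `w` -/
def Near (n w k : ℕ) (a b : St) : Prop := ∃ v ∈ box (k * w), md n (v + a) = b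

theorem near_ex {n w : ℕ} (hw : 1 ≤ w) (a b : cube n) : ∃ k, Near n w k a b := by
  refine ⟨n, b - a, mem_box.mpr fun i => ?_, by rw [sub_add_cancel, md_of_mem b.2]⟩
  have h1 := mem_cube.mp a.2 i
  have h2 := mem_cube.mp b.2 i
  have h3 : (n : ℤ) ≤ (n * w : ℕ) := by exact_mod_cast Nat.le_mul_of_pos_right n hw
  simp only [Pi.sub_apply]
  omega

theorem Near.mono {n w k k' : ℕ} {a b : St} (h : Near n w k a b) (hk : k ≤ k') :
    Near n w k' a b := by
  obtain ⟨v, h1, h2⟩ := h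
  exact ⟨v, box_mono (Nat.mul_le_mul_right _ hk) h1, h2⟩

theorem Near.trans {n w k k' : ℕ} {a b c : St} (h : Near n w k a b) (h' : Near n w k' b c) :
    Near n w (k + k') a c := by
  obtain ⟨v, h1, h2⟩ := h
  obtain ⟨v', h3, h4⟩ := h'
  refine ⟨v + v', add_mul k k' w ▸ add_mem_box h1 h3, ?_⟩
  rw [← h4, ← h2, add_comm v', md_md_add, add_right_comm]

theorem s0_dep {D : Dat} {c R : ℕ} {τ ρ κ : ℝ} (h : D.Ok c τ R ρ κ) (W : Cf) {a : ℕ} {y : St}
    (hy : y ∈ box a) {z z' : Lk → E3}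
    (hz : ∀ e ∈ lbox (fb D.l (a + D.Rs R)), ¬ tree D.l e → z e = z' e) :
    D.s0 W (sh (up D.l y) z) = D.s0 W (sh (up D.l y) z') := by
  rw [Dat.s0_tree (z' := fun f => if tree D.l f then sh (up D.l y) z' f else sh (up D.l y) z f) W
    fun f hf => (if_neg hf).symm]
  refine Dat.s0_agr h (fun _ _ => rfl) fun e he => ?_
  by_cases ht : tree D.l e
  · exact if_pos ht
  · rw [if_neg ht]
    exact hz _ (mem_lbox.mpr (add_up_mem (mem_lbox.mp he) hy))
      fun h => ht ((tree_add_up _ _ _).mp h)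

theorem fund_nonempty (l : ℕ) {n : ℕ} (hn : 0 < n) : Nonempty (fund l n) := by
  refine ⟨⟨(rp l n ((l : ℤ) • un 0), 0), (rp_mem (f := ((l : ℤ) • un 0, 0)) hn).mpr fun h => ?_⟩⟩
  have := congrFun h.1 0
  simp only [yo, un, Pi.add_apply, Pi.smul_apply, Pi.single_eq_same, smul_eq_mul, mul_one] at this
  have h1 : ((l : ℤ) + 1 + l) = LL l := by simp only [LL]; push_cast; ring
  rw [h1, Int.ediv_self (LL_pos l).ne', Int.ediv_eq_zero_of_lt (by positivity)
    (by simp only [LL]; push_cast; omega)] at this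
  exact one_ne_zero this

theorem measurable_sh {α : Type} [MeasurableSpace α] (x : St) :
    Measurable (sh x : (Lk → α) → Lk → α) :=
  measurable_pi_lambda _ fun _ => measurable_pi_apply _

theorem wt_torus {D : Dat} {c R : ℕ} {τ ρ κ : ℝ} (h : D.Ok c τ R ρ κ) {n : ℕ}
    (hn : 2 * (D.Rb + D.Rs R) + 1 ≤ n) (W : Cf) (hm : ∀ y, Measurable (D.s0 (sh y W))) (j : St) :
    Kit.fl (Measure.pi fun _ : fund D.l n => nu D.ζ)
      (fun z => D.s0 (sh j W) (sh (up D.l j) (ext D.l n 0 z)))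
      (fun z => -D.sS (sh j W) (sh (up D.l j) (ext D.l n 0 z))) = D.wt (sh j W) := by
  classical
  have hn0 : 0 < n := by omega
  have := nu_prob (lt_of_lt_of_le one_pos h.zeta)
  obtain ⟨i₀⟩ := fund_nonempty D.l hn0
  set T : Set Lk := {e | e ∈ lbox (fb D.l (D.Rb + D.Rs R)) ∧ ¬ tree D.l e} with hT
  set jm : Lk → fund D.l n := fun e =>
    if h : (rp D.l n (e.1 + up D.l j), e.2) ∈ fund D.l n then ⟨_, h⟩ else i₀ with hjm
  have hmem : ∀ e ∈ T, (rp D.l n (e.1 + up D.l j), e.2) ∈ fund D.l n := fun e he =>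
    (rp_mem (f := (e.1 + up D.l j, e.2)) hn0).mpr fun h => he.2 ((tree_add_up _ _ _).mp h)
  have hinj : Set.InjOn jm T := by
    intro e he e' he' hee
    simp only [hjm, dif_pos (hmem e he), dif_pos (hmem e' he'), Subtype.mk.injEq,
      Prod.mk.injEq] at hee
    have h1 := congrArg (yo D.l) hee.1
    rw [yo_rp, yo_rp, yo_add_up, yo_add_up] at h1
    have h2 := eq_of_md hn (yo_mem_box (mem_lbox.mp he.1)) (yo_mem_box (mem_lbox.mp he'.1)) h1
    have h3 := hee.1
    rw [rp_eq, rp_eq, yo_add_up, yo_add_up, h2, sub_left_inj, add_left_inj] at h3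
    exact Prod.ext h3 hee.2
  have d1 : DependsOn (D.s0 (sh j W)) T := by
    intro z z' hz
    have := s0_dep h (sh j W) (a := D.Rb) (y := 0) (mem_box.mpr fun i => by simp)
      (z := z) (z' := z') fun e h1 h2 => hz e ⟨h1, h2⟩
    rwa [up_zero, sh_zero, sh_zero] at this
  have d2 : DependsOn (fun z => -D.sS (sh j W) z) T := by
    intro z z' hz
    simp only [Dat.sS]
    rw [sum_congr rfl fun y hy => s0_dep h _ hy (z := z) (z' := z') fun e h1 h2 => hz e ⟨h1, h2⟩]
  have m2 : Measurable fun z => -D.sS (sh j W) z := by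
    refine (Finset.measurable_fun_sum _ fun y _ => ?_).neg
    rw [sh_sh]
    exact (hm _).comp (measurable_sh _)
  have key := Kit.fl_lift (nu D.ζ) jm T hinj (fun _ => id) (fun _ => MeasurePreserving.id _)
    (hm j) m2 d1 d2
  have hag : ∀ z : fund D.l n → E3, ∀ e ∈ T,
      sh (up D.l j) (ext D.l n 0 z) e = id (z (jm e)) := by
    intro z e he
    simp only [hjm, dif_pos (hmem e he), id]
    exact ext_of_mem 0 z (f := (e.1 + up D.l j, e.2)) (hmem e he)
  rw [funext fun z => d1 (hag z), funext fun z => d2 (hag z), key]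
  simp only [Kit.fl, Dat.wt, nuI, mul_neg]

end SX

open D3.SX

/-- the logarithm of the fluctuation integral is a sum of local terms -/
theorem log_fluct {D : Dat} {c R : ℕ} {τ ρ κ θ : ℝ} (h : D.Ok c τ R ρ κ) (n p : ℕ)
    (hn : 2 * (D.Rb + D.Rs R) + 1 ≤ n) (hp : p * (2 * D.Rs R + 1) ≤ D.Rb) (W : Conf) (hW : Per n W)
    (hb : ∀ y z, ‖D.s0 (sh y (cC W)) z‖ ≤ θ) (hm : ∀ y, Measurable (D.s0 (sh y (cC W))))
    (hθ : (2 * D.Rb + 1) ^ 3 * θ ≤ 1 / 100) :
    |Real.log (∫ z, Real.exp (-∑ y ∈ cube n,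
        (D.s0 (sh y (cC W)) (sh (up D.l y) (ext D.l n 0 z))).re)
          ∂(Measure.pi fun _ : fund D.l n => nu D.ζ)) +
      ∑ y ∈ cube n, (D.wt (sh y (cC W))).re| ≤ n ^ 3 * (8 * θ * 2⁻¹ ^ p) := by
  classical
  have hn0 : 0 < n := by omega
  have := nu_prob (lt_of_lt_of_le one_pos h.zeta)
  have hw : 1 ≤ 2 * D.Rs R + 1 := by omega
  have θ0 : 0 ≤ θ := (norm_nonneg _).trans (hb 0 0)
  set S : St → (fund D.l n → E3) → ℝ := fun y z =>
    (D.s0 (sh y (cC W)) (sh (up D.l y) (ext D.l n 0 z))).re with hS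
  set B : cube n → Finset (cube n) := fun j =>
    (box D.Rb).image fun v => ⟨md n (v + j), md_mem hn0 _⟩ with hB
  have key := decouple (nu D.ζ) (fun j : cube n => S j)
    (fun j => Complex.measurable_re.comp ((hm j).comp ((measurable_sh _).comp (measurable_ext _ _ _))))
    (fun j => {i | ∃ v ∈ box (D.Rs R), yo D.l i.1.1 = md n (v + j)})
    (fun j z z' hz => by
      simp only [hS]
      rw [Dat.s0_agr h (fun _ _ => rfl) (z' := sh (up D.l j) (ext D.l n 0 z')) fun e he => ?_]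
      simp only [sh, ext]
      split_ifs with hf
      · exact hz _ ⟨_, yo_mem_box (mem_lbox.mp he), by rw [yo_rp, yo_add_up]⟩
      · rfl)
    (fun a b => Nat.find (near_ex hw a b))
    (fun j => (Nat.find_eq_zero _).mpr ⟨0, mem_box.mpr fun i => by simp,
      by rw [zero_add, md_of_mem j.2]⟩)
    (fun a b c => Nat.find_le ((Nat.find_spec (near_ex hw a b)).trans
      (Nat.find_spec (near_ex hw b c))))
    (fun a b hab => Set.disjoint_left.mpr fun i ⟨v, hv, h1⟩ ⟨v', hv', h2⟩ => by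
      refine Nat.find_min (near_ex hw a b) hab ⟨v + -v',
        box_mono (by omega) (add_mem_box hv (neg_mem_box hv')), ?_⟩
      rw [add_right_comm, ← md_md_add, ← h1, h2, md_md_add, add_right_comm, add_neg_cancel,
        zero_add, md_of_mem b.2])
    (θ := θ) (fun j z => (Complex.abs_re_le_norm _).trans (hb _ _)) p B
    (fun j j' hj => by
      obtain ⟨v, h1, h2⟩ := (Nat.find_spec (near_ex hw j j')).mono hj
      exact mem_image.mpr ⟨v, box_mono hp h1, Subtype.ext h2⟩)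
    (fun j => le_trans (mul_le_mul_of_nonneg_right (by
      have : (B j).card ≤ (2 * D.Rb + 1) ^ 3 := card_image_le.trans (card_box _).le
      exact_mod_cast this) θ0) hθ)
  have hSp : ∀ y z, S (md n y) z = S y z := by
    intro y z
    conv_rhs => rw [md_eq n y]
    simp only [hS, per_sh (per_cC hW), up_add, up_smul, per_sh (ext_per _ _ _ _)]
  have hre : ∀ y z, D.s0 (sh y (cC W)) z = ((D.s0 (sh y (cC W)) z).re : ℝ) := fun y z =>
    Complex.ext rfl (by rw [Complex.ofReal_im]; exact Dat.s0_real h (sh y W) z)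
  have hBS : ∀ (j : cube n) z, ((-∑ j' ∈ B j, S j' z : ℝ) : ℂ) =
      -D.sS (sh j (cC W)) (sh (up D.l j) (ext D.l n 0 z)) := by
    intro j z
    rw [hB, sum_image fun v hv v' hv' hvv => eq_of_md (by omega) hv hv' (congrArg Subtype.val hvv)]
    simp only [hSp, Dat.sS, sh_sh, ← up_add]
    push_cast
    simp only [hS, ← hre]
  have hloc : ∀ j : cube n, (∫ t in (0 : ℝ)..1,
      (∫ z, S j z * Real.exp (-(t * ∑ j' ∈ B j, S j' z)) ∂Measure.pi fun _ => nu D.ζ) /
        ∫ z, Real.exp (-(t * ∑ j' ∈ B j, S j' z)) ∂Measure.pi fun _ => nu D.ζ) =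
      (D.wt (sh j (cC W))).re := by
    intro j
    have h1 := Kit.fl_ofReal (Measure.pi fun _ : fund D.l n => nu D.ζ) (S j)
      fun z => -∑ j' ∈ B j, S j' z
    simp only [hBS] at h1
    simp only [hS, ← hre] at h1
    rw [wt_torus h hn _ hm] at h1
    rw [h1, Complex.ofReal_re]
    simp only [Kit.tE, mul_neg, hS]
  simp only [hloc] at key
  rw [sum_coe_sort (cube n) fun y => (D.wt (sh y (cC W))).re, Fintype.card_coe, card_cube] at key
  simp only [fun z => sum_coe_sort (cube n) fun y => S y z] at key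
  exact_mod_cast key

end Pool.Agent.Lib.MP_7f377f_mp.RG.D3
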