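import Pool.Agent.Lib.MP_7f377f_mp.RGBase

/-! Complex quaternions as a normed algebra, the group of unit quaternions, charts. -/

noncomputable section

namespace Pool.Agent.Lib.MP_7f377f_mp.RG

open Finset MeasureTheory
open scoped Quaternion

/-- complex quaternions -/
abbrev Hc := ℍ[ℂ]
abbrev C3 := Fin 3 → ℂ
abbrev E3 := EuclideanSpace ℝ (Fin 3)

instance : NormedAddCommGroup Hc := AddGroupNorm.toNormedAddCommGroup
  { toFun := fun q => ‖q.re‖ + ‖q.imI‖ + ‖q.imJ‖ + ‖q.imK‖
    map_zero' := by simp
    add_le' := fun p q => by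
      have := norm_add_le p.re q.re
      have := norm_add_le p.imI q.imI
      have := norm_add_le p.imJ q.imJ
      have := norm_add_le p.imK q.imK
      simp only [Quaternion.re_add, Quaternion.imI_add, Quaternion.imJ_add, Quaternion.imK_add]
      linarith
    neg' := fun q => by simp
    eq_zero_of_map_eq_zero' := fun q h => by
      have := norm_nonneg q.re
      have := norm_nonneg q.imI
      have := norm_nonneg q.imJ
      have := norm_nonneg q.imK
      ext <;> exact norm_eq_zero.mp (by linarith) }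

theorem norm_Hc (q : Hc) : ‖q‖ = ‖q.re‖ + ‖q.imI‖ + ‖q.imJ‖ + ‖q.imK‖ := rfl

instance : NormedRing Hc where
  dist_eq := NormedAddCommGroup.dist_eq
  norm_mul_le p q := by
    have h : ∀ a b c d : ℂ, ‖a + b + c + d‖ ≤ ‖a‖ + ‖b‖ + ‖c‖ + ‖d‖ := fun a b c d =>
      (norm_add_le _ _).trans (by linarith [norm_add₃_le (a := a) (b := b) (c := c)])
    have h1 := h (p.re * q.re) (-(p.imI * q.imI)) (-(p.imJ * q.imJ)) (-(p.imK * q.imK))
    have h2 := h (p.re * q.imI) (p.imI * q.re) (p.imJ * q.imK) (-(p.imK * q.imJ))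
    have h3 := h (p.re * q.imJ) (-(p.imI * q.imK)) (p.imJ * q.re) (p.imK * q.imI)
    have h4 := h (p.re * q.imK) (p.imI * q.imJ) (-(p.imJ * q.imI)) (p.imK * q.re)
    simp only [norm_neg, norm_mul, ← sub_eq_add_neg] at h1 h2 h3 h4
    simp only [norm_Hc, Quaternion.re_mul, Quaternion.imI_mul, Quaternion.imJ_mul,
      Quaternion.imK_mul]
    nlinarith

instance : NormedAlgebra ℂ Hc where
  norm_smul_le c q := by simp [norm_Hc, mul_add]

instance : NormOneClass Hc := ⟨by simp [norm_Hc]⟩

theorem norm_star_Hc (q : Hc) : ‖star q‖ = ‖q‖ := by simp [norm_Hc]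

def io (b : C3) : Hc := ⟨0, b 0, b 1, b 2⟩

def co (q : Hc) : C3 := ![q.imI, q.imJ, q.imK]

def dot (a b : C3) : ℂ := ∑ k, a k * b k

/-- parametrisation of a neighbourhood of the identity -/
def ex (b : C3) : Hc := (1 + dot b b) ^ (-2⁻¹ : ℂ) • (1 + io b)

/-- the gnomonic chart -/
def ch (q : Hc) : C3 := q.re⁻¹ • co q

def adq (h : Hc) (b : C3) : C3 := co (h * io b * star h)

/-- the group of unit quaternions -/
def S3 : Type := Metric.sphere (0 : ℍ) 1

instance : Group S3 := inferInstanceAs (Group (Metric.sphere (0 : ℍ) 1))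
instance : TopologicalSpace S3 := inferInstanceAs (TopologicalSpace (Metric.sphere (0 : ℍ) 1))
instance : IsTopologicalGroup S3 := inferInstanceAs (IsTopologicalGroup (Metric.sphere (0 : ℍ) 1))
instance : CompactSpace S3 := inferInstanceAs (CompactSpace (Metric.sphere (0 : ℍ) 1))
instance : T2Space S3 := inferInstanceAs (T2Space (Metric.sphere (0 : ℍ) 1))
instance : SecondCountableTopology S3 :=
  inferInstanceAs (SecondCountableTopology (Metric.sphere (0 : ℍ) 1))
instance : MeasurableSpace S3 := borel _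
instance : BorelSpace S3 := ⟨rfl⟩

/-- the underlying real quaternion -/
def S3.q (g : S3) : ℍ := Subtype.val g

/-- normalised Haar measure -/
def haar : Measure S3 := Measure.haarMeasure ⊤

instance : haar.IsHaarMeasure := inferInstanceAs (Measure.haarMeasure ⊤).IsHaarMeasure
instance : IsProbabilityMeasure haar := ⟨by
  have := Measure.haarMeasure_self (G := S3) (K₀ := ⊤)
  rwa [TopologicalSpace.PositiveCompacts.coe_top] at this⟩

/-- complexification of a real quaternion -/
def cq (q : ℍ) : Hc := ⟨q.re, q.imI, q.imJ, q.imK⟩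

def cS (g : S3) : Hc := cq g.q

def cE (v : E3) : C3 := fun k => v k

end Pool.Agent.Lib.MP_7f377f_mp.RG
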