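import Pool.Agent.Lib.MP_7f377f_mp.RGLinA
import Pool.Agent.Lib.MP_7f377f_mp.RGAp0

/-! Averaging operators, and the hypotheses of the finite linear step. -/

noncomputable section

namespace Pool.Agent.Lib.MP_7f377f_mp.RG.La

open Finset
open scoped Pointwise

/-- global upper bound of the density -/
def U1 (C : ℝ) (m : BF) : Prop := ∀ (B : V) (S T : Finset St), (∀ e : Lk, e.1 ∉ T → B e = 0) →
  ∑ x ∈ S, m (sh x B) (sh x B) ≤ C * ∑ x ∈ T + box 1, nd B x

/-- the properties of the block kernel -/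
structure Pre (l r c : ℕ) (τ : ℝ) (m : BF) (s : V →ₗ[ℝ] V) : Prop where
  s_tree : ∀ a f, tree l f → s a f = 0
  s_gauge : ∀ u, s (gr u) = 0
  s_rng : ∀ a, (∀ e ∈ lbox (r / 4), a e = 0) → s a = 0
  s_bd : ∀ a δ f, Sm r δ a → |s a f| ≤ (LL l : ℝ) ^ c * δ
  stat : ∀ B δ, ∀ f ∈ lbox l, ¬ tree l f → Cv (r / 3) δ B →
    |∑ y ∈ box 2, xx l m s (sh (up l y) (Pi.single f 1)) (sh y B)| ≤ τ * δ
  energy : ∀ B δ, Cv (r / 3) δ B → ∑ x ∈ box l, nd (mu l s B) x ≤ (r : ℝ) ^ 5 * δ ^ 2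
  point : ∀ B δ, Cv (r / 3) δ B → Cv l (δ / (r : ℝ) ^ 12) (mu l s B)

theorem yo_mem_one {l : ℕ} {x : St} (hx : x ∈ box (3 * l + 1)) : yo l x ∈ box 1 :=
  yo_mem_box (box_mono (by simp only [LL]; omega) hx)

theorem mem_of_yo_one {l : ℕ} {x : St} (hx : yo l x ∈ box 1) : x ∈ box (3 * l + 1) :=
  box_mono (by simp only [LL]; omega) (mem_box_of_yo hx)

theorem Blk_box (l k : ℕ) : Blk l (box k) = box (k * LL l + l) := by
  ext x
  rw [mem_Blk]
  exact ⟨mem_box_of_yo, yo_mem_box⟩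

theorem two_un_mem {n i j : ℕ} (hi : i ≤ n) (hj : j ≤ n) {μ ν : Fin 4} (h : μ ≠ ν) :
    (i : ℤ) • un μ + (j : ℤ) • un ν ∈ box n := by
  refine RG.mem_box.2 fun k => ?_
  simp only [Pi.add_apply, Pi.smul_apply, un_apply, smul_eq_mul]
  split_ifs with h1 h2
  · exact absurd (h1.symm.trans h2) h
  all_goals omega

theorem nd_avgA (l : ℕ) (a : V) (S : Finset St) :
    ∑ y ∈ S, nd (avgA l a) y ≤ ∑ x ∈ Blk l (S + box 1), nd a x := by
  have hL := LL_posR l
  simp only [nd]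
  rw [sum_comm, sum_comm (s := Blk l _)]
  refine sum_le_sum fun μ _ => ?_
  rw [sum_comm, sum_comm (s := Blk l _)]
  refine sum_le_sum fun ν _ => ?_
  by_cases h : μ = ν
  · subst h
    simp [dd]
  refine (sum_le_sum fun y _ => Li.sq_dd_avgA l a y μ ν).trans ?_
  rw [← mul_sum, sum_comm]
  have : ∀ p ∈ range (LL l) ×ˢ range (LL l), ∑ y ∈ S, ∑ t ∈ box l,
      dd a (up l y + t + ((p.1 : ℤ) • un μ + (p.2 : ℤ) • un ν)) μ ν ^ 2 ≤
        ∑ x ∈ Blk l (S + box 1), dd a x μ ν ^ 2 := by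
    intro p hp
    have h1 : p.1 ≤ 2 * l := by
      have := mem_range.1 (mem_product.1 hp).1; simp only [LL] at this; omega
    have h2 : p.2 ≤ 2 * l := by
      have := mem_range.1 (mem_product.1 hp).2; simp only [LL] at this; omega
    refine Li.sum_blocks_le (f := fun x => dd a x μ ν ^ 2) (fun _ => sq_nonneg _) S _ _
      fun y hy t ht => ?_
    rw [mem_Blk, add_assoc, add_comm (up l y), yo_up_add, add_comm _ y]
    exact add_mem_add hy (yo_mem_one (box_mono (by omega) (add_mem_box ht (two_un_mem h1 h2 h))))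
  refine (mul_le_mul_of_nonneg_left (sum_le_card_nsmul _ _ _ this) (by positivity)).trans_eq ?_
  rw [card_product, card_range, nsmul_eq_mul]
  push_cast
  field_simp

theorem sum_range_mul (g : ℕ → ℝ) (M L : ℕ) :
    ∑ k ∈ range (L * M), g k = ∑ i ∈ range L, ∑ j ∈ range M, g (i * M + j) := by
  induction L with
  | zero => simp
  | succ L ih => rw [add_mul, one_mul, sum_range_add, ih, sum_range_succ]

theorem avgA_avgA (l n : ℕ) (a : V) : avgA l (avgA n a) = avgA (2 * n * l + n + l) a := by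
  have h1 : LL (2 * n * l + n + l) = LL l * LL n := by simp only [LL]; ring
  have h2 : box (2 * n * l + n + l) = Blk n (box l) := by
    rw [Blk_box]; congr 1; simp only [LL]; ring
  have := LL_posR l
  have := LL_posR n
  funext b
  simp only [Li.avgA_apply]
  rw [h2, sum_Blk, h1]
  simp only [sum_range_mul, ← mul_sum, ← mul_assoc]
  congr 1
  · push_cast; field_simp
  refine sum_congr rfl fun t _ => ?_
  rw [sum_comm]
  refine sum_congr rfl fun u _ => sum_congr rfl fun i _ => sum_congr rfl fun j _ => ?_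
  congr 2
  simp only [up, h1]
  push_cast
  module

theorem avgA_bd {l : ℕ} {a : V} {δ : ℝ} {b : Lk}
    (h : ∀ t ∈ box (3 * l), |a (up l b.1 + t, b.2)| ≤ δ) : |avgA l a b| ≤ LL l * δ := by
  have hL := LL_posR l
  rw [Li.avgA_apply, abs_mul, abs_of_pos (by positivity), inv_mul_le_iff₀ (by positivity),
    ← card_box_LL, ← nsmul_eq_mul]
  refine (abs_sum_le_sum_abs _ _).trans (sum_le_card_nsmul _ _ _ fun t ht => ?_)
  refine (abs_sum_le_sum_abs _ _).trans ((sum_le_card_nsmul _ _ δ fun i hi => ?_).trans_eq ?_)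
  · have h1 : i ≤ 2 * l := by have := mem_range.1 hi; simp only [LL] at this; omega
    rw [add_assoc]
    exact h _ (box_mono (by omega) (add_mem_box ht (Li.smul_un_mem h1 b.2)))
  · simp

theorem avgA_sm {l k : ℕ} {a : V} {δ : ℝ} (h : Sm (k * LL l + 3 * l) δ a) :
    Sm k (LL l * δ) (avgA l a) := fun _ he =>
  avgA_bd fun _ ht => h _ (mem_lbox.2 (add_mem_box (up_mem_box (mem_lbox.1 he)) ht))

theorem sm_zero {R : ℕ} {a : V} : Sm R 0 a ↔ ∀ e ∈ lbox R, a e = 0 := by simp [Sm]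

theorem sum_conv_le {h : St → ℝ} {W Y : Finset St} {M : ℝ}
    (hM : ∀ U ⊆ W + Y, ∑ x ∈ U, h x ≤ M) : ∑ z ∈ Y, ∑ w ∈ W, h (w + z) ≤ W.card * M := by
  rw [sum_comm, ← nsmul_eq_mul]
  refine sum_le_card_nsmul _ _ _ fun w hw => ?_
  rw [Li.sum_shift Y w h]
  refine hM _ fun x hx => ?_
  obtain ⟨z, hz, rfl⟩ := mem_image.1 hx
  exact add_mem_add hw hz

theorem sum_nd_sq (a : V) (S : Finset St) :
    ∑ y ∈ S, nd a y ≤ 64 * ∑ y ∈ S + box 1, ∑ μ, a (y, μ) ^ 2 := by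
  set q : St → ℝ := fun y => ∑ μ, a (y, μ) ^ 2 with hq
  have q0 : ∀ y, 0 ≤ q y := fun y => sum_nonneg fun _ _ => sq_nonneg _
  have h1 : ∀ y, nd a y ≤ 32 * q y + 8 * ∑ μ, q (un μ + y) := fun y => by
    have : ∀ μ ν, dd a y μ ν ^ 2 ≤ 4 * (a (y, μ) ^ 2 + a (y, ν) ^ 2) +
        4 * (a (un μ + y, ν) ^ 2 + a (un ν + y, μ) ^ 2) := fun μ ν => by
      rw [dd, add_comm y, add_comm y]
      nlinarith [sq_nonneg (a (y, μ) - a (un μ + y, ν)), sq_nonneg (a (y, μ) + a (un ν + y, μ)),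
        sq_nonneg (a (y, μ) + a (y, ν)), sq_nonneg (a (un μ + y, ν) + a (un ν + y, μ)),
        sq_nonneg (a (un μ + y, ν) + a (y, ν)), sq_nonneg (a (un ν + y, μ) - a (y, ν))]
    refine (sum_le_sum fun μ _ => sum_le_sum fun ν _ => this μ ν).trans_eq ?_
    simp only [hq, Fin.sum_univ_four]
    ring
  have h2 : ∀ v ∈ box 1, ∑ y ∈ S, q (v + y) ≤ ∑ y ∈ S + box 1, q y := fun v hv => by
    rw [Li.sum_shift S v q]
    refine sum_le_sum_of_subset_of_nonneg (fun x hx => ?_) fun x _ _ => q0 x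
    obtain ⟨z, hz, rfl⟩ := mem_image.1 hx
    rw [add_comm v]
    exact add_mem_add hz hv
  have h3 := h2 0 (zero_mem_box 1)
  simp only [zero_add] at h3
  have h4 := sum_le_card_nsmul univ _ _ fun μ _ => h2 _ (un_mem_box μ)
  refine (sum_le_sum fun y _ => h1 y).trans ?_
  rw [sum_add_distrib, ← mul_sum, ← mul_sum, sum_comm (f := fun y μ => q (un μ + y))]
  simp only [card_univ, Fintype.card_fin, nsmul_eq_mul, Nat.cast_ofNat] at h4
  linarith

theorem nd_add_le (a b : V) (y : St) {L : ℝ} (hL : 0 < L) :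
    nd (a + b) y ≤ (1 + 1 / L) * nd a y + (1 + L) * nd b y := by
  simp only [nd, mul_sum, ← sum_add_distrib]
  refine sum_le_sum fun μ _ => sum_le_sum fun ν _ => ?_
  rw [RG.dd_add]
  have : (1 + 1 / L) * dd a y μ ν ^ 2 + (1 + L) * dd b y μ ν ^ 2 - (dd a y μ ν + dd b y μ ν) ^ 2 =
      (dd a y μ ν - L * dd b y μ ν) ^ 2 / L := by field_simp; ring
  have h : 0 ≤ (dd a y μ ν - L * dd b y μ ν) ^ 2 / L := by positivity
  linarith

theorem nd_le_of_cv {R : ℕ} {δ : ℝ} {a : V} (h : Cv R δ a) {x : St} (hx : x ∈ box R) :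
    nd a x ≤ 16 * δ ^ 2 := by
  have : ∀ μ ν, dd a x μ ν ^ 2 ≤ δ ^ 2 := fun μ ν => sq_le_sq' (abs_le.1 (h x hx μ ν)).1
    (abs_le.1 (h x hx μ ν)).2
  refine (sum_le_sum fun μ _ => sum_le_sum fun ν _ => this μ ν).trans_eq ?_
  simp
  ring

theorem TG_self {l : ℕ} {a : V} (h : ∀ f, tree l f → a f = 0) : TG l a = a := by
  have h1 : ∀ y, ∀ x, x ∈ box l → lam (sh (up l y) a) x = 0 := fun y x => by
    have h2 : ∀ p ν, Tr p ν → p ∈ box l → p + un ν ∈ box l → sh (up l y) a (p, ν) = 0 :=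
      fun p ν hp h3 h4 => h _ ((tree_add_up l p y ν).2 ⟨by rw [yo_of_mem h3, yo_of_mem h4],
        fun κ hκ => by simpa [yo_of_mem h3] using hp κ hκ⟩)
    induction x using site_ind with
    | h0 => simp
    | hp p ν h3 h4 ih =>
      intro h5
      rw [lam_tr _ h3, ih (box_fwd h4 h5), h2 p ν h3 (box_fwd h4 h5) h5, add_zero]
    | hn p ν h3 h4 ih =>
      intro h5
      have := ih (box_bwd h4 h5)
      rwa [lam_tr _ h3, h2 p ν h3 h5 (box_bwd h4 h5), add_zero] at this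
  have h2 : tgu l a = fun _ => 0 := funext fun x => h1 _ _ (sub_up_mem l x)
  funext e
  simp [TG, h2, avg0, gr]

theorem TG_sm {l : ℕ} {a : V} {δ : ℝ} (h : Sm (3 * l + 1) δ a) :
    Sm l ((16 * l + 1) * δ) (TG l a) := fun f hf => by
  have h1 := mem_lbox.1 hf
  refine TG_bd l a f fun e he => h e (mem_lbox.2 (mem_of_yo_one ?_))
  rcases he with he | he <;> rw [he]
  · exact yo_mem_one (box_mono (by omega) h1)
  · exact yo_mem_one (box_mono (by omega) (add_un_mem_box h1 _))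

/-- the tree Poincare inequality -/
theorem tree_poinc {l : ℕ} {a : V} {δ δ' : ℝ} (h : ∀ f, tree l f → a f = 0)
    (hc : Cv (3 * l + 1) δ a) (h' : ∀ μ, |avgA l a (0, μ)| ≤ δ') :
    Sm l ((18 * l + 2) * (3 * (3 * l + 1 : ℕ) * δ) + δ') a := fun f hf => by
  have h1 := Sm_cg hc
  set K := 3 * ((3 * l + 1 : ℕ) : ℝ) * δ
  have e : a = TG l (cg a) + iz l (avgA l a - avgA l (cg a)) := by
    rw [← map_sub, cg, sub_sub_cancel, avgA_gr, iz_gr, ← TG_gr, ← TG_add, sub_add_cancel, TG_self h]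
  have h2 := abs_le.1 (TG_sm h1 f hf)
  have h3 : |avgA l (cg a) (0, f.2)| ≤ LL l * K := avgA_bd fun t ht => h1 _ (mem_lbox.2 (by
    simpa using box_mono (by omega) ht))
  have h4 := abs_le.1 (h' f.2)
  have hL : (LL l : ℝ) = 2 * l + 1 := by simp [LL]
  have K0 := h1.nonneg
  rw [hL, abs_le] at h3
  rw [e, Real.norm_eq_abs, Pi.add_apply, iz_apply, yo_of_mem (mem_lbox.1 hf), abs_le]
  split_ifs
  · constructor <;> nlinarith
  · rw [Pi.sub_apply]
    constructor <;> nlinarith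

end Pool.Agent.Lib.MP_7f377f_mp.RG.La
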