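import Pool.Agent.Lib.MP_7f377f_mp.RGLinS

namespace Pool.Agent.Lib.MP_7f377f_mp.Lin

noncomputable section

open Finset hiding box
open Classical Function RG RG.La
open scoped InnerProductSpace Pointwise

variable {l R n : ℕ} {m : BF} {φ : (Fin 4 → ℝ) → ℝ} {δ M C cL cU : ℝ}

def GG : ℝ := 2 ^ 50 * KK ^ 4
def de : ℝ := (16 * GG ^ 3)⁻¹

lemma GG_ge : 1 ≤ GG ∧ 2 ^ 50 * KK ^ 2 ≤ GG ∧ 2 ^ 50 ≤ GG ∧ KK ≤ GG := by norm_num [GG, KK]
lemma de_pos : 0 < de := by have := GG_ge.1; unfold de; positivity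
lemma de_le : de ≤ 1 / 8 := by
  rw [de, one_div]
  exact inv_anti₀ (by norm_num) (by nlinarith [one_le_pow₀ (n := 3) GG_ge.1])

lemma core {e f j a p X : ℝ} (he : 0 ≤ e) (hp : 0 ≤ p) (hf : f ≤ GG * e) (hj : j ≤ GG * e)
    (ha : a ≤ GG * p + GG ^ 2 * e) (h : e ≤ e / 4 + X + de * (GG * (e + f + j + a))) :
    e ≤ 2 * X + p := by
  have hG := GG_ge.1
  have h1 : e + f + j + a ≤ 4 * GG ^ 2 * e + GG ^ 2 * p := by
    nlinarith [mul_le_mul_of_nonneg_right hG he, mul_le_mul_of_nonneg_right hG hp,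
      mul_le_mul_of_nonneg_right hG (mul_nonneg (by linarith : 0 ≤ GG) he),
      mul_le_mul_of_nonneg_right hG (mul_nonneg (by linarith : 0 ≤ GG) hp)]
  have h2 : de * (GG * (4 * GG ^ 2 * e + GG ^ 2 * p)) = e / 4 + p / 16 := by
    rw [de]; field_simp; ring
  have := mul_le_mul_of_nonneg_left (mul_le_mul_of_nonneg_left h1 (by linarith : 0 ≤ GG)) de_pos.le
  linarith

lemma s1_ww (hφ : Adm δ φ) (A : F1) : s1 (-φ) M (ww φ M A) = s1 φ M A := by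
  simp only [s1, ww, nrm, hφ.neg_wt]

lemma sum_amgm {ψ : (Fin 4 → ℝ) → ℝ} {M' ε : ℝ} (hε : 0 < ε) (A B : F1) :
    ∑ ρ, nrm φ M (A ρ) * nrm ψ M' (B ρ) ≤ (ε * s1 φ M A + s1 ψ M' B / ε) / 2 := by
  simp only [s1, mul_sum, sum_div, ← sum_add_distrib]
  refine sum_le_sum fun ρ _ => ?_
  rw [le_div_iff₀ two_pos, ← sub_nonneg, show ε * nrm φ M (A ρ) ^ 2 + nrm ψ M' (B ρ) ^ 2 / ε -
    nrm φ M (A ρ) * nrm ψ M' (B ρ) * 2 = (ε * nrm φ M (A ρ) - nrm ψ M' (B ρ)) ^ 2 / ε by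
    field_simp; ring]
  positivity

lemma gl_sub (A B : F1) : gl l (A - B) = gl l A - gl l B := by simp [gl, sum_sub_distrib]

lemma good_sub (A : F1) : d0 (gl l (A - d0 (gl l A))) = 0 := funext fun ρ => by
  have := homotopy (l := l) (d0 (gl l A)) ρ
  rw [d1_d0, show QT l {ρ} (d0 (gl l A) ρ) = 0 from congrFun (QQ_gl _) ρ] at this
  simp only [map_zero, Pi.zero_apply, sum_const_zero, add_zero] at this
  rw [gl_sub, d0, map_sub]
  exact this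

lemma QQ_sub (A B : F1) : QQ l (A - B) = QQ l A - QQ l B := funext fun _ => map_sub _ _ _

lemma coerG (hm : Inv n R cL cU m) (hU : cU ≤ 20) (hR : R ≤ l) (hφ : Adm de φ) (A : F1) :
    EW m φ (LL l) A ≤ MM R m A (ww φ (LL l) A) +
      de * (GG / 2 * (EW m φ (LL l) A + s2 φ (LL l) A + s1 φ (LL l) A / LL l ^ 2)) := by
  refine (coerW hm (inv_U1 hm hU) (by positivity) hR hφ de_pos de_le A).trans
    (add_le_add le_rfl (mul_le_mul_of_nonneg_left ?_ de_pos.le))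
  have h1 := EW_nonneg (φ := φ) (M := LL l) hm A
  have h2 := add_nonneg (s2_nonneg (φ := φ) (M := LL l) A)
    (div_nonneg (s1_nonneg (φ := φ) (M := LL l) A) (sq_nonneg (LL l : ℝ)))
  nlinarith [mul_le_mul_of_nonneg_right GG_ge.2.1 h2, mul_le_mul_of_nonneg_right GG_ge.2.2.1 h1,
    mul_nonneg (sq_nonneg KK) h2]

lemma WE.eq {A B J : F1} (hA : WE l R m A B) (hJ : J = (LL l : ℝ) ^ 2 • (B - QQ l A)) (Φ : F1) :
    MM R m A Φ = ∑ ρ, ⟪J ρ, QQ l Φ ρ⟫_ℝ := by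
  rw [hA, mul_sum, hJ]; simp only [Pi.smul_apply, real_inner_smul_left]

lemma s2_GG (hm : Inv n R cL cU m) (hc : cL ≤ 20) (hl : 1 ≤ l) (hφ : Adm 1 φ) (A : F1) :
    s2 φ (LL l) A ≤ GG * EW m φ (LL l) A :=
  (s2_le hm hc hl hφ A).trans
    (mul_le_mul_of_nonneg_right (by linarith [GG_ge.2.2.1]) (EW_nonneg hm A))

lemma s1_GG (hφ : Adm 1 φ) (A : F1) : s1 φ (LL l) (A - d0 (gl l A)) / LL l ^ 2 ≤
    GG / 4 * (s1 φ 1 (QQ l A) + s2 φ (LL l) A) := (s1_good hφ A).trans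
  (mul_le_mul_of_nonneg_right (by nlinarith [GG_ge.2.1]) (add_nonneg (s1_nonneg _) (s2_nonneg _)))

theorem agmon (hm : Inv n R cL cU m) (hc : cL ≤ 20) (hU : cU ≤ 20) (hR : R ≤ l) (hl : 1 ≤ l)
    {A B : F1} (hA : WE l R m A B) (hg : d0 (gl l A) = 0) (hφ : Adm de φ) :
    GG * EW m φ (LL l) A ≤ 4 * GG ^ 2 * s1 φ 1 B ∧
      s1 φ (LL l) A / LL l ^ 2 ≤ 5 * GG ^ 3 * s1 φ 1 B ∧
      s1 φ 1 ((LL l : ℝ) ^ 2 • (B - QQ l A)) ≤ 4 * GG ^ 2 * s1 φ 1 B := by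
  have hL := LL_posR l
  have hL1 : (1 : ℝ) ≤ LL l := NN_one l
  obtain ⟨hG, hG2, hG3, hG4⟩ := GG_ge
  have hK := KK_one
  have d1 : de ≤ 1 := de_le.trans (by norm_num)
  have hφ1 := hφ.mono d1
  obtain ⟨J, hJ⟩ : ∃ J : F1, J = (LL l : ℝ) ^ 2 • (B - QQ l A) := ⟨_, rfl⟩
  have we := hA.eq hJ
  have hf := s2_GG hm hc hl hφ1
  have ha := s1_GG (l := l) hφ1
  have e0 := EW_nonneg (φ := φ) (M := LL l) hm A
  have j0 := s1_nonneg (φ := φ) (M := 1) J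
  have b0 := s1_nonneg (φ := φ) (M := 1) B
  have hj : s1 φ 1 J ≤ GG * EW m φ (LL l) A := by
    have h1 := MM_le (M := LL l) hm hφ A (II l (ww φ 1 J)) (by linarith : 0 < GG)
    have h2 := EW_le hm (inv_U1 hm hU) (by positivity) hR hφ1.neg (II l (ww φ 1 J))
    have h3 := (s2_II (l := l) hφ1.neg (ww φ 1 J)).trans
      (mul_le_mul_of_nonneg_left (s2_le_s1 le_rfl hφ1.neg _) (sq_nonneg _))
    have h4 := s1_op (fun ρ => (gd_I (l := l) ρ).bd) hφ1.neg (ww φ 1 J)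
    rw [mul_pow, mul_right_comm, ← div_le_iff₀ (by positivity)] at h4
    change s1 (-φ) (LL l) (II l (ww φ 1 J)) / _ ≤ _ at h4
    rw [s1_ww hφ] at h3 h4
    rw [we, QQ_II] at h1
    simp only [ww, real_inner_comm (wt _ _ _), hφ.inner_ww] at h1
    have h5 : EW m (-φ) (LL l) (II l (ww φ 1 J)) / GG ≤ s1 φ 1 J := by
      rw [div_le_iff₀ (by linarith), GG]
      nlinarith [mul_le_mul_of_nonneg_left (add_le_add h3 h4) (sq_nonneg KK),
        mul_nonneg (by positivity : 0 ≤ KK ^ 4) j0]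
    change s1 φ 1 J ≤ (GG * _ + EW m (-φ) (LL l) (II l (ww φ 1 J)) / GG) / 2 at h1
    linarith
  have hq : s1 φ 1 (QQ l A) ≤ 2 * s1 φ 1 B + 2 * s1 φ 1 J := by
    have e : QQ l A = B + (-((LL l : ℝ) ^ 2)⁻¹) • J := by
      rw [hJ, smul_smul, neg_mul, inv_mul_cancel₀ (by positivity)]; simp
    have h1 : (-((LL l : ℝ) ^ 2)⁻¹) ^ 2 ≤ 1 := by
      rw [neg_sq]; exact pow_le_one₀ (by positivity) (inv_le_one_of_one_le₀ (one_le_pow₀ hL1))
    rw [e]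
    refine (s1_add _ _).trans ?_
    rw [s1_smul]; nlinarith
  have ha1 := ha A
  rw [hg, sub_zero] at ha1
  have a0 : 0 ≤ s1 φ (LL l) A / LL l ^ 2 := div_nonneg (s1_nonneg _) (sq_nonneg _)
  have ha2 : s1 φ (LL l) A / LL l ^ 2 ≤ GG * s1 φ 1 B + GG ^ 2 * EW m φ (LL l) A := by
    nlinarith [mul_le_mul_of_nonneg_left (add_le_add hq (hf A)) (by linarith : 0 ≤ GG),
      mul_le_mul_of_nonneg_left hj (by linarith : 0 ≤ GG), mul_nonneg (by linarith : 0 ≤ GG) b0,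
      mul_nonneg (sq_nonneg GG) e0]
  have he : EW m φ (LL l) A ≤ 2 * (GG * s1 φ 1 B) + s1 φ 1 B := by
    refine core e0 b0 (hf A) hj ha2 ((coerG hm hU hR hφ A).trans ?_)
    have h1 : MM R m A (ww φ (LL l) A) ≤ ∑ ρ, (nrm φ 1 (J ρ) * nrm φ 1 (B ρ) +
        KK * de * (nrm φ 1 (J ρ) * nrm φ (LL l) (((LL l : ℝ)⁻¹ • A) ρ))) := by
      rw [we]
      refine sum_le_sum fun ρ _ => ?_
      have k1 := (abs_le.1 ((gd_Q (l := l) ρ).cm de φ d1 hφ (J ρ) (A ρ))).2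
      have k2 := le_of_abs_le (hφ.inner_ww_le 1 (J ρ) (B ρ))
      have k3 : 0 ≤ ⟪wt φ 1 (wt φ 1 (J ρ)), B ρ - QT l {ρ} (A ρ)⟫_ℝ := by
        have : B ρ - QT l {ρ} (A ρ) = ((LL l : ℝ) ^ 2)⁻¹ • J ρ := by
          rw [hJ, Pi.smul_apply, smul_smul, inv_mul_cancel₀ (by positivity), one_smul]; rfl
        rw [this, real_inner_smul_right, hφ.inner_ww]; positivity
      rw [inner_sub_right] at k3
      rw [Pi.smul_apply, nrm_smul, abs_of_pos (by positivity)]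
      change ⟪J ρ, QT l {ρ} (wt φ (LL l) (wt φ (LL l) (A ρ)))⟫_ℝ ≤ _
      rw [div_eq_mul_inv] at k1
      linarith
    rw [sum_add_distrib, ← mul_sum] at h1
    have h2 := sum_amgm (φ := φ) (ψ := φ) (M := 1) (M' := 1) (by positivity : 0 < (2 * GG)⁻¹) J B
    have h3 := sum_amgm (φ := φ) (ψ := φ) (M := 1) (M' := LL l) one_pos J ((LL l : ℝ)⁻¹ • A)
    rw [s1_smul, inv_pow, inv_mul_eq_div, one_mul, div_one] at h3
    have h4 : (2 * GG)⁻¹ * s1 φ 1 J ≤ EW m φ (LL l) A / 2 := by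
      rw [inv_mul_le_iff₀ (by positivity)]; linarith
    rw [div_inv_eq_mul] at h2
    have h5 := mul_le_mul_of_nonneg_left h3 (mul_nonneg (by linarith : 0 ≤ KK) de_pos.le)
    have h6 := mul_le_mul_of_nonneg_right hG4 (mul_nonneg de_pos.le (add_nonneg j0 a0))
    have h7 := mul_nonneg (mul_nonneg de_pos.le (by linarith : 0 ≤ GG))
      (add_nonneg e0 (s2_nonneg (φ := φ) (M := LL l) A))
    have h8 := mul_nonneg (mul_nonneg de_pos.le (by linarith : 0 ≤ GG)) j0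
    nlinarith
  have he' : GG * EW m φ (LL l) A ≤ 4 * GG ^ 2 * s1 φ 1 B := by
    nlinarith [mul_le_mul_of_nonneg_left he (by linarith : 0 ≤ GG),
      mul_le_mul_of_nonneg_right hG (mul_nonneg (by linarith : 0 ≤ GG) b0)]
  have ha3 : s1 φ (LL l) A / LL l ^ 2 ≤ 5 * GG ^ 3 * s1 φ 1 B := by
    nlinarith [mul_le_mul_of_nonneg_left he' (by linarith : 0 ≤ GG),
      mul_le_mul_of_nonneg_right (one_le_pow₀ (n := 2) hG) (mul_nonneg (by linarith : 0 ≤ GG) b0)]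
  exact ⟨he', ha3, hJ ▸ hj.trans he'⟩

theorem agmonD (hm : Inv n R cL cU m) (hc : cL ≤ 20) (hU : cU ≤ 20) (hR : R ≤ l) (hl : 1 ≤ l)
    {A B : F1} (hA : WE l R m A B) (hg : d0 (gl l A) = 0) (hφ : Adm de φ) (μ : Fin 4) :
    s2 φ (LL l) (fun ρ => Dm μ (A ρ)) ≤ 32 * GG ^ 6 * (s1 φ 1 B / LL l) := by
  have hL := LL_posR l
  obtain ⟨hG, hG2, hG3, hG4⟩ := GG_ge
  have hK := KK_one
  have hφ1 := hφ.mono (de_le.trans (by norm_num : (1 / 8 : ℝ) ≤ 1))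
  obtain ⟨J, hJ⟩ : ∃ J : F1, J = (LL l : ℝ) ^ 2 • (B - QQ l A) := ⟨_, rfl⟩
  have we := hA.eq hJ
  have hf := s2_GG hm hc hl hφ1
  have ha := s1_GG (l := l) hφ1
  obtain ⟨-, ha3, hj⟩ := agmon hm hc hU hR hl hA hg hφ
  rw [← hJ] at hj
  have j0 := s1_nonneg (φ := φ) (M := 1) J
  have b0 := s1_nonneg (φ := φ) (M := 1) B
  have a0 : 0 ≤ s1 φ (LL l) A / LL l ^ 2 := div_nonneg (s1_nonneg _) (sq_nonneg _)
  have qd : ∀ ρ {p}, Gd (NN l) (NN l) (dr μ p) 4 →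
      Bd 1 (LL l) (QT l {ρ} * dr μ (D * p)) (KK * √(LL l) / LL l ^ 2) := fun ρ p hp =>
    (gd_QD ρ μ hp).bd.mono (by
      rw [sd_four, mul_div_assoc, show (NN l : ℝ) = LL l from rfl]; gcongr; norm_num [KK])
  have sq : (KK * √(LL l) / LL l ^ 2) ^ 2 = KK ^ 2 / LL l / LL l ^ 2 := by
    rw [div_pow, mul_pow, Real.sq_sqrt hL.le]; field_simp
  obtain ⟨A', hA'⟩ : ∃ A' : F1, A' = fun ρ => Dm μ (A ρ) := ⟨_, rfl⟩
  obtain ⟨X, hX⟩ : ∃ X : F1, X = A' - d0 (gl l A') := ⟨_, rfl⟩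
  have eX : s2 φ (LL l) A' = s2 φ (LL l) X := by simp only [s2, hX, d1_sub, d1_d0, sub_zero]
  have q1 : s1 φ 1 (QQ l A') ≤ 5 * GG ^ 4 * (s1 φ 1 B / LL l) := by
    have := s1_op (fun ρ => qd ρ (p := 1) (by rw [dr_one]; exact gd_one.mono (by norm_num))) hφ1 A
    rw [sq, mul_one, div_mul_eq_mul_div, mul_div_assoc] at this
    refine (le_of_eq (by rw [hA']; rfl)).trans (this.trans ((mul_le_mul (by gcongr; linarith) ha3 a0
      (by positivity : 0 ≤ GG / LL l)).trans_eq (by ring)))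
  have ax := ha A'
  rw [← hX, eX] at ax
  have x0 := EW_nonneg (φ := φ) (M := LL l) hm X
  have q0 := s1_nonneg (φ := φ) (M := 1) (QQ l A')
  have ax2 : s1 φ (LL l) X / LL l ^ 2 ≤ GG * s1 φ 1 (QQ l A') + GG ^ 2 * EW m φ (LL l) X := by
    nlinarith [mul_le_mul_of_nonneg_left (hf X) (by linarith : 0 ≤ GG),
      mul_nonneg (by linarith : 0 ≤ GG) q0, mul_nonneg (sq_nonneg GG) x0]
  have hx : EW m φ (LL l) X ≤ 2 * (s1 φ 1 (QQ l A') + GG ^ 3 * (s1 φ 1 J / LL l)) +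
      s1 φ 1 (QQ l A') := by
    refine core (j := 0) x0 q0 (hf X) (mul_nonneg (by linarith) x0) ax2 ((coerG hm hU hR hφ X).trans ?_)
    have h1 : MM R m X (ww φ (LL l) X) ≤ ∑ ρ, nrm φ (LL l) (((LL l : ℝ)⁻¹ • X) ρ) *
        nrm φ 1 (((KK * √(LL l) / LL l) • J) ρ) := by
      have e : A' = (fun ρ => sh (Pi.single μ 1) (A ρ)) - A := by
        rw [hA']; funext ρ; simp [Dm, D, dr_sub]
      rw [hX, MM_sub, MM_d0 hm, sub_zero, ← hX, e, MM_sub, MM_sh, we, we, ← sum_sub_distrib]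
      refine sum_le_sum fun ρ _ => ?_
      have k := qd ρ (p := -t (-1)) (by rw [dr_neg]; exact (gd_tl μ (by simpa using hl)).neg) _
        hφ1.neg (ww φ (LL l) X ρ)
      have e2 : D * -t (-1) = t (-1) - 1 := by rw [D]; linear_combination -t_neg 1
      rw [e2, dr_sub, dr_t, dr_one, mul_apply_eq_comp, sub_apply, map_sub, ww, nrm.eq_1 _ (LL l),
        hφ.neg_wt, Pi.single_neg] at k
      rw [← inner_sub_right, ← hφ.wt_neg 1 (_ - _), ← hφ.inner_wt]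
      refine (real_inner_le_norm _ _).trans ((mul_le_mul_of_nonneg_left k (norm_nonneg _)).trans_eq ?_)
      simp only [Pi.smul_apply, nrm_smul]
      rw [abs_of_pos (by positivity), abs_of_pos (by positivity), nrm, nrm]
      field_simp
    have h2 := sum_amgm (φ := φ) (ψ := φ) (M := LL l) (M' := 1) (by positivity : 0 < (2 * GG ^ 2)⁻¹)
      ((LL l : ℝ)⁻¹ • X) ((KK * √(LL l) / LL l) • J)
    have e3 : (KK * √(LL l) / LL l) ^ 2 * s1 φ 1 J = KK ^ 2 * (s1 φ 1 J / LL l) := by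
      rw [div_pow, mul_pow, Real.sq_sqrt hL.le]; field_simp
    rw [s1_smul, s1_smul, inv_pow, inv_mul_eq_div _ (s1 _ _ _), e3, div_inv_eq_mul] at h2
    have h4 : (2 * GG ^ 2)⁻¹ * (s1 φ (LL l) X / LL l ^ 2) ≤
        s1 φ 1 (QQ l A') + EW m φ (LL l) X / 2 := by
      rw [inv_mul_le_iff₀ (by positivity)]
      nlinarith [mul_le_mul_of_nonneg_right hG (mul_nonneg (by linarith : 0 ≤ GG) q0),
        mul_nonneg (sq_nonneg GG) q0]
    have h5 := mul_le_mul_of_nonneg_right (by nlinarith : KK ^ 2 ≤ GG)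
      (mul_nonneg (sq_nonneg GG) (div_nonneg j0 hL.le))
    have h7 := mul_nonneg (mul_nonneg de_pos.le (by linarith : 0 ≤ GG)) (add_nonneg (add_nonneg x0
      (s2_nonneg (φ := φ) (M := LL l) X)) (div_nonneg (s1_nonneg (φ := φ) (M := LL l) X)
      (sq_nonneg (LL l : ℝ))))
    nlinarith
  have hj2 : s1 φ 1 J / LL l ≤ 4 * GG ^ 2 * (s1 φ 1 B / LL l) := by
    rw [← mul_div_assoc]; gcongr
  rw [← hA', eX]
  refine (hf X).trans ?_
  have b1 := div_nonneg b0 hL.le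
  nlinarith [mul_le_mul_of_nonneg_left hx (by linarith : 0 ≤ GG),
    mul_le_mul_of_nonneg_left q1 (by linarith : 0 ≤ GG),
    mul_le_mul_of_nonneg_left hj2 (by positivity : 0 ≤ GG ^ 4),
    mul_le_mul_of_nonneg_right hG (mul_nonneg (by positivity : 0 ≤ GG ^ 5) b1),
    mul_nonneg (by positivity : 0 ≤ GG ^ 6) b1]

lemma WE.sub {A B A' B' : F1} (h : WE l R m A B) (h' : WE l R m A' B') :
    WE l R m (A - A') (B - B') := fun Φ => by
  rw [MM_sub, h, h', ← mul_sub, ← sum_sub_distrib, QQ_sub]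
  refine congrArg _ (sum_congr rfl fun ρ _ => ?_)
  rw [← inner_sub_left, sub_sub_sub_comm B B']; rfl

lemma WE_d0 (hm : Inv n R cL cU m) (g : E 4) : WE l R m (d0 g) (d0 (QT l ∅ g)) := fun Φ => by
  simp [MM_d0 hm, QQ_d0]

lemma WE.shift {A B : F1} (h : WE l R m A B) (y : St) :
    WE l R m (fun ρ => sh (up l y) (A ρ)) fun ρ => sh y (B ρ) := fun Φ => by
  have k : ∀ (y : St) (A : F1), QQ l (fun ρ => sh (up l y) (A ρ)) = fun ρ => sh y (QQ l A ρ) :=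
    fun y A => by
      have := avgA_sh l y (toV A)
      rw [← toV_sh, avgA_QT, avgA_QT, ← toV_sh] at this
      exact funext fun ρ => eext fun x => congrFun this (x, ρ)
  rw [MM_sh, h, ← La.up_neg, k, k]
  simp only [Pi.sub_apply, ← map_sub, ← star_sh, inner_star']

theorem WE.uniq (hm : Inv n R cL cU m) (hc : cL ≤ 20) (hU : cU ≤ 20) (hR : R ≤ l) (hl : 1 ≤ l)
    {A A' B : F1} (h : WE l R m A B) (h' : WE l R m A' B) : TG l (toV A) = TG l (toV A') := by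
  have h1 := (h.sub h').sub (WE_d0 hm (gl l (A - A')))
  have h2 := (agmon hm hc hU hR hl h1 (good_sub _) (adm_zero de_pos.le)).2.1
  have hL := LL_posR l
  have e : B - B - d0 (QT l ∅ (gl l (A - A'))) = 0 := by rw [Q0_gl]; funext ρ; simp [d0]
  rw [e, show s1 0 1 (0 : F1) = 0 by simp [s1], mul_zero, div_nonpos_iff] at h2
  have h3 := (sum_eq_zero_iff_of_nonneg fun _ _ => sq_nonneg _).1 (le_antisymm
    (h2.resolve_left fun h => absurd h.2 (not_le.2 (by positivity))).1 (s1_nonneg _))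
  have h4 : A = A' + d0 (gl l (A - A')) := funext fun ρ => by
    have := h3 ρ (mem_univ _)
    rw [nrm_zero', sq_eq_zero_iff, norm_eq_zero, Pi.sub_apply, Pi.sub_apply, sub_sub,
      sub_eq_zero] at this
    exact this
  rw [h4, toV_add, TG_add, toV_d0, TG_gr]
  simp only [avg0_QT, Q0_gl]
  funext e
  simp [gr]

end

end Pool.Agent.Lib.MP_7f377f_mp.Lin
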