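import Pool.Agent.Lib.MP_7f377f_mp.RGLinM

namespace Pool.Agent.Lib.MP_7f377f_mp.Lin

noncomputable section

open Finset hiding box
open Classical Function RG RG.La
open scoped InnerProductSpace Pointwise

variable {l R n : ℕ} {m : BF} {φ : (Fin 4 → ℝ) → ℝ} {δ M C cL cU : ℝ}

lemma amgm (hm : Inv n R cL cU m) (a b : RG.V) {ε : ℝ} (hε : 0 < ε) :
    |m a b| ≤ (ε * m a a + m b b / ε) / 2 := by
  have h1 := hm.psd (ε • a - b)
  have h2 := hm.psd (ε • a + b)
  simp only [map_sub, map_add, map_smul, LinearMap.sub_apply, LinearMap.add_apply,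
    LinearMap.smul_apply, smul_eq_mul, hm.symm b a] at h1 h2
  have e : (ε * m a a + m b b / ε) / 2 = (ε * (ε * m a a) + m b b) / (2 * ε) := by field_simp
  rw [e, abs_le, le_div_iff₀ (by positivity), neg_le, le_div_iff₀ (by positivity)]
  constructor <;> linarith

lemma s1_nonneg (A : F1) : 0 ≤ s1 φ M A := sum_nonneg fun _ _ => sq_nonneg _
lemma s2_nonneg (A : F1) : 0 ≤ s2 φ M A := sum_nonneg fun _ _ => sum_nonneg fun _ _ => sq_nonneg _

lemma locw (hm : Inv n R cL cU m) (hU : U1 C m) (hC : 0 ≤ C) (hR : R ≤ l) (hφ : Adm 1 φ) (A : F1)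
    (η : St → St → ℝ) {α β : ℝ} (hα : ∀ y, ∀ z ∈ box (3 * l + 1), |η y z| ≤ α)
    (hβ : ∀ y, ∀ z ∈ box (3 * l + 1), ∀ μ, |η y (z + un μ) - η y z| ≤ β) (Y : Finset St) :
    ∑ y ∈ Y, Real.exp (2 * φ (sc 1 y)) *
      ∑ t ∈ box l, en m (fun e => η y e.1 * RG.sh (up l y) (toV A) e) t ≤
      C * (6561 * (3 * α ^ 2 * s2 φ (LL l) A +
        384 * (β + α * (2 / LL l)) ^ 2 * s1 φ (LL l) A)) := by
  obtain ⟨K, hK, hq⟩ := hasSum_qq hφ (M := LL l) (NN_one l) A
  have h := wsum hφ (l := l) (G := fun x => 3 * α ^ 2 * nd (toV A) x +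
    6 * (β + α * (2 / LL l)) ^ 2 * qq (toV A) x) (fun x => by
      have := Li.nd_nonneg (toV A) x
      have : 0 ≤ qq (toV A) x := sum_nonneg fun _ _ => sum_nonneg fun _ _ => sq_nonneg _
      positivity) (by
      simp only [mul_add, mul_left_comm (Real.exp _)]
      exact ((hasSum_s2 hφ A).mul_left _).add (hq.mul_left _)) Y
  refine (sum_le_sum fun y _ => mul_le_mul_of_nonneg_left
    (loc hm hU hC hR _ _ (hα y) (hβ y)) (Real.exp_pos _).le).trans ?_
  simp only [mul_left_comm _ C, ← mul_sum]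
  refine mul_le_mul_of_nonneg_left (le_trans (le_of_eq ?_) (h.trans ?_)) hC
  · simp only [Li.nd_sh, qq, RG.sh, add_right_comm _ (up l _)]
  · nlinarith [mul_le_mul_of_nonneg_left hK (sq_nonneg (β + α * (2 / LL l)))]

lemma EW_le (hm : Inv n R cL cU m) (hU : U1 C m) (hC : 0 ≤ C) (hR : R ≤ l) (hφ : Adm 1 φ)
    (A : F1) : EW m φ (LL l) A ≤ 2 ^ 30 * C * (s2 φ (LL l) A + s1 φ (LL l) A / LL l ^ 2) := by
  refine hasSum_le_of_sum_le (hasSum_EW hm hφ A) fun S => (blk_sum (l := l)
    (fun x => mul_nonneg (Real.exp_pos _).le (hm.psd _)) S).trans ?_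
  have h := locw hm hU hC hR hφ A (fun _ _ => 1) (α := 1) (β := 0) (by simp) (by simp)
    (S.image (yo l))
  refine le_trans (sum_le_sum fun y _ => ?_) ((mul_sum _ _ _).ge.trans
    ((mul_le_mul_of_nonneg_left h (by norm_num : (0 : ℝ) ≤ 81)).trans ?_))
  · rw [← mul_assoc, mul_sum]
    refine sum_le_sum fun t ht => ?_
    simp only [en, one_mul, Li.sh_sh]
    exact mul_le_mul_of_nonneg_right (near_le hφ y (box_sub l ht)).2 (hm.psd _)
  · have h1 := mul_nonneg hC (s2_nonneg (φ := φ) (M := LL l) A)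
    have h2 := mul_nonneg hC (div_nonneg (s1_nonneg (φ := φ) (M := LL l) A) (sq_nonneg (LL l : ℝ)))
    have e : (0 + 1 * (2 / (LL l : ℝ))) ^ 2 * s1 φ (LL l) A = 4 * (s1 φ (LL l) A / LL l ^ 2) := by
      ring
    rw [mul_assoc 384, e]
    nlinarith

lemma MM_le (hm : Inv n R cL cU m) (hφ : Adm δ φ) (A B : F1) {ε : ℝ} (hε : 0 < ε) :
    MM R m A B ≤ (ε * EW m φ M A + EW m (-φ) M B / ε) / 2 := by
  refine hasSum_le (fun x => ?_) (hasSum_MM hm.rng A B)
    ((((hasSum_EW hm hφ A).mul_left ε).add ((hasSum_EW hm hφ.neg B).div_const ε)).div_const 2)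
  refine (le_of_abs_le (amgm hm _ _ (mul_pos hε (Real.exp_pos (2 * φ (sc M x)))))).trans_eq ?_
  simp only [en, Pi.neg_apply, mul_neg, Real.exp_neg]
  field_simp

lemma toV_ww (hφ : Adm δ φ) (A : F1) (e : Lk) :
    toV (ww φ M A) e = Real.exp (2 * φ (sc M e.1)) * toV A e := by
  simp only [toV, ww, hφ.wt_ap, two_mul, Real.exp_add, mul_assoc]

lemma coerW (hm : Inv n R cL cU m) (hU : U1 C m) (hC : 0 ≤ C) (hR : R ≤ l) (hφ : Adm δ φ)
    (h0 : 0 < δ) (h8 : δ ≤ 1 / 8) (A : F1) : EW m φ (LL l) A ≤ MM R m A (ww φ (LL l) A) +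
      δ * (49 * EW m φ (LL l) A + 2 ^ 30 * C * (s2 φ (LL l) A + s1 φ (LL l) A / LL l ^ 2)) := by
  have hφ1 := hφ.mono (h8.trans (by norm_num : (1 / 8 : ℝ) ≤ 1))
  have hL := LL_posR l
  have hL1 : (1 : ℝ) ≤ LL l := NN_one l
  let η : St → St → ℝ := fun y z =>
    Real.exp (2 * φ (sc (LL l) (z + up l y)) - 2 * φ (sc 1 y)) - 1
  have hα : ∀ y, ∀ z ∈ box (3 * l + 1), |η y z| ≤ 8 * δ := fun y z hz => by
    have := near hφ y hz
    have e : |2 * φ (sc (LL l) (z + up l y)) - 2 * φ (sc 1 y)| ≤ 4 * δ := by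
      rw [← mul_sub, abs_mul, abs_two]; linarith
    linarith [Real.abs_exp_sub_one_le (e.trans (by linarith))]
  have hβ : ∀ y, ∀ z ∈ box (3 * l + 1), ∀ μ, |η y (z + un μ) - η y z| ≤ 8 * δ / LL l :=
    fun y z hz μ => by
      have h1 := (hφ.lip _ _).trans (mul_le_mul_of_nonneg_left (norm_sc hL (z + up l y) μ 1) h0.le)
      have h2 : |2 * φ (sc (LL l) (z + un μ + up l y)) - 2 * φ (sc (LL l) (z + up l y))| ≤
          2 * (δ / LL l) := by
        rw [← mul_sub, abs_mul, abs_two, abs_sub_comm, add_right_comm]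
        simpa [un, div_eq_mul_inv] using h1
      have h3 : δ / LL l ≤ δ := div_le_self h0.le hL1
      have h4 := Real.abs_exp_sub_one_le (h2.trans (by linarith))
      have e : η y (z + un μ) - η y z = (η y z + 1) * (Real.exp (2 * φ (sc (LL l)
          (z + un μ + up l y)) - 2 * φ (sc (LL l) (z + up l y))) - 1) := by
        simp only [η, Real.exp_sub]; field_simp; ring
      have h5 : |η y z + 1| ≤ 2 := (abs_add_le _ _).trans (by rw [abs_one]; linarith [hα y z hz])
      rw [e, abs_mul, mul_div_assoc]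
      exact (mul_le_mul h5 h4 (abs_nonneg _) zero_le_two).trans (by linarith)
  rw [← sub_le_iff_le_add']
  refine hasSum_le_of_sum_le ((hasSum_EW hm hφ A).sub (hasSum_MM hm.rng A _)) fun S =>
    ((sum_le_sum fun x _ => le_abs_self _).trans (blk_sum (l := l) (fun x => abs_nonneg _) S)).trans ?_
  set Y := S.image (yo l)
  have h := locw hm hU hC hR hφ1 A η hα hβ Y
  have h' : ∑ y ∈ Y, ∑ t ∈ box l, Real.exp (2 * φ (sc (LL l) (t + up l y))) *
      en m (toV A) (t + up l y) ≤ EW m φ (LL l) A := by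
    rw [← sum_Blk l Y fun x => Real.exp (2 * φ (sc (LL l) x)) * en m (toV A) x]
    exact sum_le_hasSum _ (fun x _ => mul_nonneg (Real.exp_pos _).le (hm.psd _)) (hasSum_EW hm hφ A)
  calc _ ≤ ∑ y ∈ Y, ∑ t ∈ box l, (49 * δ * (Real.exp (2 * φ (sc (LL l) (t + up l y))) *
        en m (toV A) (t + up l y)) + (2 * δ)⁻¹ * (Real.exp (2 * φ (sc 1 y)) *
        en m (fun e => η y e.1 * RG.sh (up l y) (toV A) e) t)) := by
        refine sum_le_sum fun y _ => sum_le_sum fun t ht => ?_
        have e : RG.sh (t + up l y) (toV (ww φ (LL l) A)) = Real.exp (2 * φ (sc 1 y)) •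
            (RG.sh (t + up l y) (toV A) +
              RG.sh t fun e => η y e.1 * RG.sh (up l y) (toV A) e) := by
          funext e
          simp only [RG.sh, toV_ww hφ, η, Real.exp_sub, Pi.smul_apply, Pi.add_apply, smul_eq_mul,
            add_assoc]
          field_simp; ring
        have k := abs_le.1 (amgm hm (RG.sh (t + up l y) (toV A))
          (RG.sh t fun e => η y e.1 * RG.sh (up l y) (toV A) e) h0)
        have c1 := (near_le hφ1 y (box_sub l ht)).1
        have c2 : |Real.exp (2 * φ (sc (LL l) (t + up l y))) - Real.exp (2 * φ (sc 1 y))| ≤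
            8 * δ * Real.exp (2 * φ (sc (LL l) (t + up l y))) := by
          have := near hφ y (box_sub l ht)
          have e : |2 * φ (sc 1 y) - 2 * φ (sc (LL l) (t + up l y))| ≤ 4 * δ := by
            rw [← mul_sub, abs_mul, abs_two, abs_sub_comm]; linarith
          have h6 := Real.abs_exp_sub_one_le (e.trans (by linarith))
          rw [abs_sub_comm, show Real.exp (2 * φ (sc 1 y)) - Real.exp (2 * φ (sc (LL l)
            (t + up l y))) = (Real.exp (2 * φ (sc 1 y) - 2 * φ (sc (LL l) (t + up l y))) - 1) *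
            Real.exp (2 * φ (sc (LL l) (t + up l y))) by rw [Real.exp_sub]; field_simp, abs_mul,
            abs_of_pos (Real.exp_pos _)]
          exact mul_le_mul_of_nonneg_right (by linarith) (Real.exp_pos _).le
        rw [e, map_smul, map_add]
        simp only [en, smul_eq_mul]
        have p := hm.psd (RG.sh (t + up l y) (toV A))
        have c0 := Real.exp_pos (2 * φ (sc 1 y))
        generalize m (RG.sh (t + up l y) (toV A)) (RG.sh (t + up l y) (toV A)) = u at *
        generalize m (RG.sh (t + up l y) (toV A)) _ = v at *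
        generalize m (RG.sh t _) (RG.sh t _) = w at *
        generalize Real.exp (2 * φ (sc (LL l) (t + up l y))) = a at *
        generalize Real.exp (2 * φ (sc 1 y)) = c at *
        have e2 : (2 * δ)⁻¹ * (c * w) = c * (w / δ) / 2 := by field_simp
        have c3 := abs_le.1 c2
        have q1 := mul_le_mul_of_nonneg_right c1 (mul_nonneg h0.le p)
        have q0 := mul_nonneg c0.le (mul_nonneg h0.le p)
        rw [e2, abs_le]
        constructor <;> nlinarith [mul_le_mul_of_nonneg_left k.1 c0.le,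
          mul_le_mul_of_nonneg_left k.2 c0.le, mul_le_mul_of_nonneg_right c3.1 p,
          mul_le_mul_of_nonneg_right c3.2 p]
    _ ≤ 49 * δ * EW m φ (LL l) A + (2 * δ)⁻¹ * _ := by
        simp only [sum_add_distrib, ← mul_sum]
        exact add_le_add (mul_le_mul_of_nonneg_left h' (by positivity))
          (mul_le_mul_of_nonneg_left h (by positivity))
    _ ≤ _ := by
        have h1 := mul_nonneg (mul_nonneg h0.le hC) (s2_nonneg (φ := φ) (M := LL l) A)
        have h2 := mul_nonneg (mul_nonneg h0.le hC)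
          (div_nonneg (s1_nonneg (φ := φ) (M := LL l) A) (sq_nonneg (LL l : ℝ)))
        have e : (2 * δ)⁻¹ * (C * (6561 * (3 * (8 * δ) ^ 2 * s2 φ (LL l) A + 384 *
            (8 * δ / LL l + 8 * δ * (2 / LL l)) ^ 2 * s1 φ (LL l) A))) =
            6561 * 96 * (δ * C * s2 φ (LL l) A) +
              6561 * 192 * 576 * (δ * C * (s1 φ (LL l) A / LL l ^ 2)) := by field_simp; ring
        rw [e]
        nlinarith

end

end Pool.Agent.Lib.MP_7f377f_mp.Lin
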