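import Pool.Agent.Lib.MP_7f377f_mp.RGLinN

namespace Pool.Agent.Lib.MP_7f377f_mp.Lin

noncomputable section

open Finset hiding box
open Classical Function RG RG.La
open scoped InnerProductSpace Pointwise

variable {l R n : ℕ} {m : BF} {φ : (Fin 4 → ℝ) → ℝ} {δ M C cL cU : ℝ}

def QQ (l : ℕ) (A : F1) : F1 := fun ρ => QT l {ρ} (A ρ)
def II (l : ℕ) (B : F1) : F1 := fun ρ => IT l {ρ} (B ρ)
def gl (l : ℕ) (A : F1) : E 4 := ∑ ν, lb l ν (A ν)
def KK : ℝ := (2 ^ 22 + 1) ^ 4 * 2 ^ 60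

lemma KK_one : 1 ≤ KK := by norm_num [KK]

lemma sd_four (N : ℕ) : sd 4 N = (N : ℝ) ^ 2 := by
  rw [sd, show 4 = 2 * 2 from rfl, pow_mul, Real.sq_sqrt (Nat.cast_nonneg _)]

lemma gd_Q (ρ : Fin 4) : Gd 1 (LL l) (QT l {ρ}) (KK / LL l) := (gd_QT {ρ}).mono (by
  have h := LL_posR l
  rw [card_singleton, sd_four, show (NN l : ℝ) = LL l from rfl, le_div_iff₀ h]
  field_simp; norm_num [KK])

lemma gd_I (ρ : Fin 4) : Gd (LL l) 1 (IT l {ρ}) (KK * LL l) := (gd_IT {ρ}).mono (by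
  have h := LL_posR l
  rw [card_singleton, sd_four, show (NN l : ℝ) = LL l from rfl]
  field_simp; norm_num [KK])

lemma gd_I2 {μ ν : Fin 4} (h : μ ≠ ν) : Gd (LL l) 1 (IT l {μ, ν}) KK := (gd_IT {μ, ν}).mono (by
  have h' := LL_posR l
  rw [card_pair h, sd_four, show (NN l : ℝ) = LL l from rfl]
  field_simp; norm_num [KK])

lemma gd_H (ρ ν : Fin 4) : Gd (LL l) (LL l) (Hb l ρ ν) (KK * LL l) := (gd_Hb ρ ν).mono (by
  have h := LL_posR l
  rw [show (NN l : ℝ) = LL l from rfl]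
  gcongr; norm_num [KK])

lemma d1_add (A B : F1) : d1 (A + B) = d1 A + d1 B := by
  funext μ ν; simp only [d1, Pi.add_apply, map_add]; abel

lemma d1_sub (A B : F1) : d1 (A - B) = d1 A - d1 B := by
  funext μ ν; simp only [d1, Pi.sub_apply, map_sub]; abel

lemma d1_d0 (g : E 4) : d1 (d0 g) = 0 := by funext μ ν; simp [d1, d0, Dm_comm μ ν]

lemma d1_II (B : F1) {μ ν : Fin 4} (h : μ ≠ ν) : d1 (II l B) μ ν = IT l {μ, ν} (d1 B μ ν) := by
  have h1 := congrArg (fun T : Op 4 => T (B ν)) (IT_D (l := l) (T := {ν}) (μ := μ) (by simpa))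
  have h2 := congrArg (fun T : Op 4 => T (B μ))
    (IT_D (l := l) (T := {μ}) (μ := ν) (by simpa using h.symm))
  simp only [mul_apply_eq_comp] at h1 h2
  rw [d1, d1, map_sub, II, II, ← h1, ← h2, pair_comm ν μ]

lemma QQ_II (B : F1) : QQ l (II l B) = B :=
  funext fun ρ => congrArg (fun T : Op 4 => T (B ρ)) (QT_IT {ρ})

lemma QQ_d0 (g : E 4) : QQ l (d0 g) = d0 (QT l ∅ g) :=
  funext fun ρ => congrArg (fun T : Op 4 => T g) (QT_D (l := l) (notMem_empty ρ))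

lemma Q0_gl (A : F1) : QT l ∅ (gl l A) = 0 := by
  rw [gl, map_sum]
  exact sum_eq_zero fun ν _ => congrArg (fun T : Op 4 => T (A ν)) (Q0_lb ν)

lemma QQ_gl (A : F1) : QQ l (d0 (gl l A)) = 0 := by
  rw [QQ_d0, Q0_gl]; funext ρ; simp [d0]

lemma sq_le_of {a b c : ℝ} (ha : 0 ≤ a) (h : a ≤ c * b) : a ^ 2 ≤ c ^ 2 * b ^ 2 := by
  rw [← mul_pow]; exact pow_le_pow_left₀ ha h 2

lemma s1_op {T : Fin 4 → Op 4} {M' : ℝ} (h : ∀ ρ, Bd M M' (T ρ) C) (hφ : Adm 1 φ) (A : F1) :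
    s1 φ M (fun ρ => T ρ (A ρ)) ≤ C ^ 2 * s1 φ M' A := by
  rw [s1, s1, mul_sum]
  exact sum_le_sum fun ρ _ => sq_le_of (nrm_nonneg _) (h ρ φ hφ _)

lemma s2_II (hφ : Adm 1 φ) (B : F1) : s2 φ (LL l) (II l B) ≤ KK ^ 2 * s2 φ 1 B := by
  simp only [s2, mul_sum]
  refine sum_le_sum fun μ _ => sum_le_sum fun ν _ => ?_
  by_cases h : μ = ν
  · simp [h, d1]
  · rw [d1_II B h]; exact sq_le_of (nrm_nonneg _) ((gd_I2 h).bd φ hφ _)

lemma s2_le_s1 (hM : 1 ≤ M) (hφ : Adm 1 φ) (A : F1) : s2 φ M A ≤ 400 * s1 φ M A := by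
  have k : ∀ μ ν, nrm φ M (d1 A μ ν) ^ 2 ≤ 50 * nrm φ M (A ν) ^ 2 + 50 * nrm φ M (A μ) ^ 2 :=
    fun μ ν => by
      have h : nrm φ M (d1 A μ ν) ≤ _ := (nrm_sub _ _).trans (add_le_add ((gd_D hM μ).bd φ hφ (A ν))
        ((gd_D hM ν).bd φ hφ (A μ)))
      nlinarith [pow_le_pow_left₀ (nrm_nonneg _) h 2,
        sq_nonneg (nrm φ M (A ν) - nrm φ M (A μ))]
  refine (sum_le_sum fun μ _ => sum_le_sum fun ν _ => k μ ν).trans_eq ?_
  simp only [sum_add_distrib, sum_const, card_univ, Fintype.card_fin, s1, ← mul_sum, nsmul_eq_mul]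
  push_cast; ring

lemma s1_add (A B : F1) : s1 φ M (A + B) ≤ 2 * s1 φ M A + 2 * s1 φ M B := by
  simp only [s1, mul_sum, ← sum_add_distrib]
  refine sum_le_sum fun ρ _ => ?_
  rw [Pi.add_apply]
  nlinarith [pow_le_pow_left₀ (nrm_nonneg _) (nrm_add (φ := φ) (N := M) (A ρ) (B ρ)) 2,
    sq_nonneg (nrm φ M (A ρ) - nrm φ M (B ρ))]

lemma s1_smul (c : ℝ) (A : F1) : s1 φ M (c • A) = c ^ 2 * s1 φ M A := by
  simp only [s1, Pi.smul_apply, nrm_smul, mul_pow, sq_abs, mul_sum]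

lemma s1_good (hφ : Adm 1 φ) (A : F1) : s1 φ (LL l) (A - d0 (gl l A)) / LL l ^ 2 ≤
    8 * KK ^ 2 * (s1 φ 1 (QQ l A) + s2 φ (LL l) A) := by
  have hL := LL_posR l
  have e : A - d0 (gl l A) = II l (QQ l A) + fun ρ => ∑ ν, Hb l ρ ν (d1 A ν ρ) :=
    funext fun ρ => homotopy A ρ
  have h1 := s1_op (fun ρ => (gd_I (l := l) ρ).bd) hφ (QQ l A)
  have h2 : s1 φ (LL l) (fun ρ => ∑ ν, Hb l ρ ν (d1 A ν ρ)) ≤
      4 * (KK * LL l) ^ 2 * s2 φ (LL l) A := by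
    rw [s1, s2, sum_comm, mul_sum]
    refine sum_le_sum fun ρ _ => (pow_le_pow_left₀ (nrm_nonneg _) (nrm_sum _ _) 2).trans
      (sq_sum_le_card_mul_sum_sq.trans ?_)
    rw [mul_assoc, mul_sum _ _ ((KK * LL l) ^ 2)]
    exact mul_le_mul (by simp) (sum_le_sum fun ν _ => sq_le_of (nrm_nonneg _)
      ((gd_H ρ ν).bd φ hφ _)) (by positivity) (by norm_num)
  rw [e, div_le_iff₀ (by positivity)]
  refine (s1_add _ _).trans ?_
  have := mul_nonneg (sq_nonneg (KK * LL l)) (s1_nonneg (φ := φ) (M := 1) (QQ l A))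
  change s1 φ (LL l) (II l (QQ l A)) ≤ _ at h1
  nlinarith

lemma MM_symm (hm : Inv n R cL cU m) (A B : F1) : MM R m A B = MM R m B A :=
  (hasSum_MM hm.rng A B).unique (by simpa only [hm.symm (RG.sh _ (toV A))] using hasSum_MM hm.rng B A)

lemma MM_d0 (hm : Inv n R cL cU m) (g : E 4) (A : F1) : MM R m (d0 g) A = 0 :=
  (hasSum_MM hm.rng _ A).unique (by simpa only [toV_d0, Li.sh_gr, hm.gauge] using hasSum_zero)

lemma MM_sub (A B C : F1) : MM R m (A - B) C = MM R m A C - MM R m B C := by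
  simp only [MM, Pi.sub_apply, map_sub, inner_sub_left, mul_sub, sum_sub_distrib]

lemma MM_sh (x : St) (A B : F1) :
    MM R m (fun ρ => sh x (A ρ)) B = MM R m A fun ρ => sh (-x) (B ρ) := by
  refine sum_congr rfl fun e _ => sum_congr rfl fun e' _ => congrArg _ ?_
  have c : ∀ (u v : St) (f : E 4), sh u (sh v f) = sh v (sh u f) := fun u v f =>
    eext fun z => by simp [add_right_comm]
  rw [c, c e'.1, ← star_sh, inner_star']

lemma MM_self (hm : Inv n R cL cU m) (A : F1) : MM R m A A = EW m 0 M A :=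
  (hasSum_MM hm.rng A A).unique (by simpa [en] using hasSum_EW (M := M) hm (adm_zero le_rfl) A)

def WE (l R : ℕ) (m : BF) (A B : F1) : Prop :=
  ∀ Φ : F1, MM R m A Φ = (LL l : ℝ) ^ 2 * ∑ ρ, ⟪(B - QQ l A) ρ, QQ l Φ ρ⟫_ℝ

abbrev HH := PiLp 2 fun _ : Fin 4 => E 4

def pj (ρ : Fin 4) : HH →L[ℝ] E 4 := PiLp.proj 2 (fun _ => E 4) ρ
def bc (T T' : HH →L[ℝ] E 4) : HH →L[ℝ] HH →L[ℝ] ℝ := (innerSL ℝ).bilinearComp T T'
def BB (l R : ℕ) (m : BF) : HH →L[ℝ] HH →L[ℝ] ℝ :=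
  (∑ e ∈ lbox R, ∑ e' ∈ lbox R, m (Pi.single e 1) (Pi.single e' 1) •
    bc (sh e.1 ∘L pj e.2) (sh e'.1 ∘L pj e'.2)) +
  (LL l : ℝ) ^ 2 • ∑ ρ, bc (QT l {ρ} ∘L pj ρ) (QT l {ρ} ∘L pj ρ) +
  ∑ ρ, bc (Dm ρ ∘L ∑ ν, lb l ν ∘L pj ν) (Dm ρ ∘L ∑ ν, lb l ν ∘L pj ν)

lemma BB_ap (x y : HH) : BB l R m x y = MM R m x.ofLp y.ofLp +
    (LL l : ℝ) ^ 2 * ∑ ρ, ⟪QQ l x.ofLp ρ, QQ l y.ofLp ρ⟫_ℝ +
    ∑ ρ, ⟪d0 (gl l x.ofLp) ρ, d0 (gl l y.ofLp) ρ⟫_ℝ := by
  simp [BB, bc, pj, MM, QQ, gl, d0, _root_.sum_apply, sum_inner, inner_sum]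

theorem exists_sol (hm : Inv n R cL cU m) (hc : cL ≤ 20) (hl : 1 ≤ l) :
    ∃ sol : F1 →ₗ[ℝ] F1, ∀ B, WE l R m (sol B) B ∧ d0 (gl l (sol B)) = 0 := by
  have hL := LL_posR l
  have hL1 : (1 : ℝ) ≤ LL l := NN_one l
  have hK := KK_one
  have z := adm_zero (d := 4) zero_le_one
  have s0 : ∀ (M : ℝ) (A : F1), ∑ ρ, ⟪A ρ, A ρ⟫_ℝ = s1 0 M A := fun M A => by
    simp only [s1, nrm_zero', real_inner_self_eq_norm_sq]
  have hB : IsCoercive (BB l R m) := ⟨(2 ^ 28 * KK ^ 2 * LL l ^ 2)⁻¹, by positivity, fun x => by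
    rw [mul_assoc, ← sq, PiLp.norm_sq_eq_of_L2, BB_ap, inv_mul_le_iff₀ (by positivity), s0 1,
      s0 (LL l), MM_self (M := LL l) hm]
    have h1 := s1_add (φ := 0) (M := LL l) (x.ofLp - d0 (gl l x.ofLp)) (d0 (gl l x.ofLp))
    have h2 := (div_le_iff₀ (by positivity)).1 (s1_good (l := l) z x.ofLp)
    have h3 := s2_le hm hc hl z x.ofLp
    have h4 := EW_nonneg (φ := 0) (M := LL l) hm x.ofLp
    have h5 := s1_nonneg (φ := 0) (M := 1) (QQ l x.ofLp)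
    have h6 := s1_nonneg (φ := 0) (M := LL l) (d0 (gl l x.ofLp))
    have h7 : 1 ≤ KK ^ 2 * LL l ^ 2 := one_le_mul_of_one_le_of_one_le (one_le_pow₀ hK)
      (one_le_pow₀ hL1)
    rw [sub_add_cancel, s1] at h1
    simp only [nrm_zero'] at h1
    have h8 := mul_le_mul_of_nonneg_right (one_le_pow₀ hL1 : 1 ≤ (LL l : ℝ) ^ 2) h5
    generalize KK ^ 2 = k at *
    generalize (LL l : ℝ) ^ 2 = L at *
    nlinarith [mul_le_mul_of_nonneg_left h3 (by linarith : 0 ≤ k * L),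
      mul_le_mul_of_nonneg_left h8 (by linarith : 0 ≤ k * L), mul_le_mul_of_nonneg_right h7 h6,
      mul_nonneg (by linarith : 0 ≤ k * L) h5]⟩
  let g : F1 →ₗ[ℝ] HH := (WithLp.linearEquiv 2 ℝ F1).symm.toLinearMap ∘ₗ LinearMap.pi fun ρ =>
    ((LL l : ℝ) ^ 2 • (star (QT l {ρ}) : Op 4).toLinearMap) ∘ₗ LinearMap.proj ρ
  refine ⟨(WithLp.linearEquiv 2 ℝ F1).toLinearMap ∘ₗ
    hB.continuousLinearEquivOfBilin.symm.toLinearEquiv.toLinearMap ∘ₗ g, fun B => ?_⟩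
  obtain ⟨x, hx⟩ : ∃ x, x = hB.continuousLinearEquivOfBilin.symm (g B) := ⟨_, rfl⟩
  change WE l R m (hB.continuousLinearEquivOfBilin.symm (g B)).ofLp B ∧
    d0 (gl l (hB.continuousLinearEquivOfBilin.symm (g B)).ofLp) = 0
  rw [← hx]
  have k : ∀ Φ : F1, MM R m x.ofLp Φ + (LL l : ℝ) ^ 2 * ∑ ρ, ⟪QQ l x.ofLp ρ, QQ l Φ ρ⟫_ℝ +
      ∑ ρ, ⟪d0 (gl l x.ofLp) ρ, d0 (gl l Φ) ρ⟫_ℝ = (LL l : ℝ) ^ 2 * ∑ ρ, ⟪B ρ, QQ l Φ ρ⟫_ℝ := by
    intro Φ
    have := hB.continuousLinearEquivOfBilin_apply x (WithLp.toLp 2 Φ)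
    rw [BB_ap] at this
    rw [← this, hx, ContinuousLinearEquiv.apply_symm_apply, PiLp.inner_apply, mul_sum]
    refine sum_congr rfl fun ρ _ => ?_
    change ⟪(LL l : ℝ) ^ 2 • star (QT l {ρ}) (B ρ), Φ ρ⟫_ℝ = _
    rw [real_inner_smul_left, inner_star, QQ]
  have h0 : d0 (gl l x.ofLp) = 0 := by
    have h1 := k (d0 (gl l x.ofLp))
    have h2 : d0 (gl l (d0 (gl l x.ofLp))) = d0 (gl l x.ofLp) := funext fun ρ => by
      have := homotopy (l := l) (d0 (gl l x.ofLp)) ρ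
      rw [d1_d0, show QT l {ρ} (d0 (gl l x.ofLp) ρ) = 0 from congrFun (QQ_gl _) ρ] at this
      simp only [map_zero, Pi.zero_apply, sum_const_zero, add_zero, sub_eq_zero] at this
      exact this.symm
    rw [MM_symm hm, MM_d0 hm, QQ_gl, h2] at h1
    simp only [Pi.zero_apply, inner_zero_right, sum_const_zero, mul_zero, zero_add] at h1
    funext ρ
    exact inner_self_eq_zero.1 ((sum_eq_zero_iff_of_nonneg fun _ _ => real_inner_self_nonneg).1 h1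
      ρ (mem_univ _))
  refine ⟨fun Φ => ?_, h0⟩
  have := k Φ
  simp only [h0, Pi.zero_apply, inner_zero_left, sum_const_zero, add_zero] at this
  simp only [Pi.sub_apply, inner_sub_left, sum_sub_distrib]
  linarith

def FS (T : Op 4) : Prop := ∀ f : E 4, (support f).Finite → (support (T f)).Finite

lemma fs_IT (T : Finset (Fin 4)) : FS (IT l T) := fun f hf => by
  have h1 : ∀ p : Al 4, FS (ev p) := fun p => by
    induction p using t_ind with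
    | h0 => exact fun f _ => Set.finite_empty.subset fun z hz => hz (by simp)
    | ha x y hx hy =>
      exact fun f hf => ((hx f hf).union (hy f hf)).subset fun z hz => by
        by_contra hc
        simp only [Set.mem_union, mem_support, not_or, not_not] at hc
        exact hz (by simp [hc.1, hc.2])
    | ht a v =>
      exact fun f hf => (hf.preimage (add_left_injective v).injOn).subset fun z hz h0 =>
        hz (by simp [h0])
  have h2 : (support (V (NN l) f)).Finite := (hf.image (nm (NN l))).subset fun z hz => by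
    by_cases h : ∃ y, nm (NN l) y = z
    · obtain ⟨y, rfl⟩ := h
      exact ⟨y, fun h0 => hz ((star_pull_im (nm_inj (NN_pos l)) f y).trans h0), rfl⟩
    · exact absurd (star_pull_out (nm_inj (NN_pos l)) f (not_exists.1 h)) hz
  exact (h1 (∏ μ, emb μ (aa l T μ)) _ h2).subset fun z hz h0 => hz (by simp [IT, h0])

theorem inv_U1 (hm : Inv n R cL cU m) (hc : cU ≤ 20) : U1 (20 * KK ^ 2) m := fun B S T hT => by
  have e : toV (ofV T B) = B := funext fun e => by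
    rw [toV_ofV]; split_ifs with h
    exacts [rfl, (hT e h).symm]
  have z := adm_zero (d := 4) zero_le_one
  have hf : ∀ ρ, (support (II n (ofV T B) ρ)).Finite := fun ρ =>
    fs_IT _ _ (T.finite_toSet.subset fun x hx => by
      by_contra h
      exact hx ((congrFun e (x, ρ)).trans (hT (x, ρ) h)))
  have h := hm.upper (toV (II n (ofV T B))) S (univ.biUnion fun ρ => (hf ρ).toFinset)
    fun e he => by
      by_contra h0
      exact he (mem_biUnion.2 ⟨e.2, mem_univ _, (hf e.2).mem_toFinset.2 h0⟩)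
  rw [avgA_QT, show (fun ρ => QT n {ρ} (II n (ofV T B) ρ)) = ofV T B from QQ_II _, e] at h
  have h1 := hasSum_s2 (M := LL n) z (II n (ofV T B))
  have h2 := hasSum_s2 (M := 1) z (ofV T B)
  simp only [Pi.zero_apply, mul_zero, Real.exp_zero, one_mul, e] at h1 h2
  refine (h.trans (mul_le_mul_of_nonneg_right hc (sum_nonneg fun _ _ => Li.nd_nonneg _ _))).trans ?_
  rw [mul_assoc]
  exact mul_le_mul_of_nonneg_left ((sum_le_hasSum _ (fun _ _ => Li.nd_nonneg _ _) h1).trans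
    ((s2_II z _).trans (mul_le_mul_of_nonneg_left (hasSum_le_of_sum_le h2 (Li.sum_nd_le hT))
    (sq_nonneg _)))) (by norm_num)

end

end Pool.Agent.Lib.MP_7f377f_mp.Lin
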