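import Pool.Agent.Lib.MP_7f377f_mp.RGMeasTree

/-! One step for an arbitrary gauge invariant density. -/

noncomputable section

namespace Pool.Agent.Lib.MP_7f377f_mp.RG.Ms

open MeasureTheory Measure Set
open scoped Quaternion ENNReal

/-- measurable densities invariant under gauge transformations of period `n` -/
def GI (n : ℕ) (f : Conf → ℝ≥0∞) : Prop :=
  Measurable f ∧ ∀ u V, PS n u → f (gauge Inv.inv u V) = f V

/-- one step -/
def TT (l : ℕ) (a : ℝ) (n : ℕ) (f : Conf → ℝ≥0∞) (W : Conf) : ℝ≥0∞ :=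
  ∫⁻ U, itg l a n f W (per (LL l * n) U) ∂PP

/-- one restricted step -/
def TG (l : ℕ) (a ε : ℝ) (n : ℕ) (f : Conf → ℝ≥0∞) (W : Conf) : ℝ≥0∞ :=
  ∫⁻ U, itgG l a ε n f W (per (LL l * n) U) ∂PP

theorem GI.step {l n : ℕ} {f : Conf → ℝ≥0∞} (h : GI (LL l * n) f) (a ε : ℝ) :
    GI n (TT l a n f) ∧ GI n (TG l a ε n f) := by
  have hp : Measurable fun p : Conf × Conf => (p.1, per (LL l * n) p.2) :=
    measurable_fst.prodMk ((cont_per _).measurable.comp measurable_snd)
  have hq : ∀ W : Conf, Measurable fun U : Conf => (W, per (LL l * n) U) := fun W =>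
    measurable_const.prodMk (cont_per _).measurable
  have e : ∀ (u : St → S3) (W : Conf), gauge Inv.inv u W =
      gauge Inv.inv (fun y => (fun x => u (yo l x)) (up l y)) W := fun u W => by
    simp only [yo_up]
  refine ⟨⟨((meas_itg l a n h.1).comp hp).lintegral_prod_right', fun u W hu => ?_⟩,
    ⟨((meas_itgG l a ε n h.1).comp hp).lintegral_prod_right', fun u W hu => ?_⟩⟩
  all_goals have hv : PS (LL l * n) fun x => u (yo l x) := fun x y h => hu _ _ h.yo
  · refine ((mp_gauge fun x => u (yo l x)).lintegral_comp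
      ((meas_itg l _ n h.1).comp (hq (gauge Inv.inv u W)))).symm.trans
        (lintegral_congr fun U => ?_)
    simp only [Function.comp, per_gauge hv]
    rw [e u W, itg_gauge _ _ _ _ _ (h.2 _ _ hv)]
  · refine ((mp_gauge fun x => u (yo l x)).lintegral_comp
      ((meas_itgG l _ ε n h.1).comp (hq (gauge Inv.inv u W)))).symm.trans
        (lintegral_congr fun U => ?_)
    simp only [Function.comp, per_gauge hv]
    rw [e u W, itgG_gauge _ _ _ _ _ _ (h.2 _ _ hv)]

theorem GI.tree {l n : ℕ} (hn : 0 < n) {f : Conf → ℝ≥0∞} (h : GI (LL l * n) f) (a ε : ℝ)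
    (W : Conf) :
    TT l a n f W = ∫⁻ u, itg l a n f W (ext l n 1 u) ∂(Measure.pi fun _ : fund l n => haar) ∧
    TG l a ε n f W =
      ∫⁻ u, itgG l a ε n f W (ext l n 1 u) ∂(Measure.pi fun _ : fund l n => haar) := by
  have m1 := (meas_itg l a n h.1).comp (measurable_prodMk_left (x := W))
  have m2 := (meas_itgG l a ε n h.1).comp (measurable_prodMk_left (x := W))
  simp only [Function.comp_def] at m1 m2
  constructor
  · refine tree_gauge l hn (F := itg l a n f W) m1 fun u V hu h1 => ?_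
    have := itg_gauge l a n u W (h.2 u V hu)
    rwa [gauge_one h1] at this
  · refine tree_gauge l hn (F := itgG l a ε n f W) m2 fun u V hu h1 => ?_
    have := itgG_gauge l a ε n u W (h.2 u V hu)
    rwa [gauge_one h1] at this

theorem GI_rho (l : ℕ) (β ε : ℝ) (j n : ℕ) : GI n (rho l β j n) ∧ GI n (rhoG l β ε j n) :=
  ⟨⟨(measurable_rho l β ε j n).1, fun _ V hu => (rho_gauge l β ε j n hu V).1⟩,
    ⟨(measurable_rho l β ε j n).2, fun _ V hu => (rho_gauge l β ε j n hu V).2⟩⟩

end Pool.Agent.Lib.MP_7f377f_mp.RG.Ms
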