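import Pool.Agent.Lib.MP_7f377f_mp.RGMeasBlk
import Pool.Agent.Lib.MP_7f377f_mp.RGDefs

/-! Gauge invariance of the effective densities and the tree gauge. -/

noncomputable section

namespace Pool.Agent.Lib.MP_7f377f_mp.RG

open MeasureTheory Measure Set
open scoped Quaternion ENNReal

namespace Ms

/-- congruent sites -/
def Cg (n : ℕ) (x y : St) : Prop := ∀ i, (n : ℤ) ∣ x i - y i

theorem LL_pos (l : ℕ) : (0 : ℤ) < (LL l : ℕ) := by simp only [LL]; positivity

theorem yo_add_up (l : ℕ) (x y : St) : yo l (x + up l y) = yo l x + y := by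
  funext i
  simp only [yo, up, Pi.add_apply, Pi.smul_apply, smul_eq_mul]
  rw [add_right_comm, Int.add_mul_ediv_left _ _ (LL_pos l).ne']

theorem yo_box {l : ℕ} {s : St} (h : ∀ i, -(l : ℤ) ≤ s i ∧ s i ≤ l) : yo l s = 0 := by
  funext i
  have := h i
  refine Int.ediv_eq_zero_of_lt (by omega) ?_
  simp only [LL]
  push_cast
  omega

theorem rel_box (l : ℕ) (x : St) (i : Fin 4) :
    -(l : ℤ) ≤ (x - up l (yo l x)) i ∧ (x - up l (yo l x)) i ≤ l := by
  have h1 := Int.emod_nonneg (x i + l) (LL_pos l).ne'
  have h2 := Int.emod_lt_of_pos (x i + l) (LL_pos l)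
  have h3 := Int.mul_ediv_add_emod (x i + l) (LL l : ℕ)
  simp only [yo, up, Pi.sub_apply, Pi.smul_apply, smul_eq_mul]
  have h4 : ((LL l : ℕ) : ℤ) = 2 * l + 1 := by simp [LL]
  constructor <;> linarith

theorem yo_up (l : ℕ) (y : St) : yo l (up l y) = y := by
  have := yo_add_up l 0 y
  rwa [zero_add, yo_box (s := 0) (by simp), zero_add] at this

theorem Cg.ex {l n : ℕ} {x y : St} (h : Cg (LL l * n) x y) :
    ∃ k : St, (∀ i, (n : ℤ) ∣ k i) ∧ x = y + up l k := by
  choose k hk using h
  refine ⟨fun i => n * k i, fun i => dvd_mul_right _ _, funext fun i => ?_⟩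
  have := hk i
  simp only [up, Pi.add_apply, Pi.smul_apply, smul_eq_mul]
  push_cast at this
  linarith

theorem Cg.yo {l n : ℕ} {x y : St} (h : Cg (LL l * n) x y) : Cg n (yo l x) (yo l y) := by
  obtain ⟨k, hk, rfl⟩ := h.ex
  intro i
  simpa [yo_add_up] using hk i

theorem Cg.add {n : ℕ} {x y : St} (h : Cg n x y) (z : St) : Cg n (x + z) (y + z) := fun i => by
  simpa using h i

theorem cg_mod (n : ℕ) (x : St) : Cg n (fun i => x i % (n : ℤ)) x := fun _ =>
  Int.dvd_emod_sub_self

theorem Cg.mod {n : ℕ} {x y : St} (h : Cg n x y) :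
    (fun i => x i % (n : ℤ)) = fun i => y i % (n : ℤ) :=
  funext fun i => Int.emod_eq_emod_iff_emod_sub_eq_zero.2 (Int.emod_eq_zero_of_dvd (h i))

theorem tree_add_up (l : ℕ) (x k : St) (μ : Fin 4) : tree l (x + up l k, μ) ↔ tree l (x, μ) := by
  simp only [tree, add_right_comm x (up l k) (un μ), yo_add_up, _root_.add_left_inj]
  simp only [up, smul_add, Pi.add_apply, _root_.add_left_inj]

/-- periodic functions on sites -/
def PS {α : Type} (n : ℕ) (u : St → α) : Prop := ∀ x y, Cg n x y → u x = u y

/-- periodic functions on links -/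
def PL {α : Type} (n : ℕ) (V : Lk → α) : Prop := ∀ x y μ, Cg n x y → V (x, μ) = V (y, μ)

theorem PL_per {α : Type} (n : ℕ) (U : Lk → α) : PL n (per n U) := fun x y μ h => by
  simp only [per, h.mod]

theorem per_gauge {n : ℕ} {u : St → S3} (hu : PS n u) (U : Conf) :
    per n (gauge Inv.inv u U) = gauge Inv.inv u (per n U) := by
  funext e
  simp only [per, gauge]
  rw [hu _ _ (cg_mod n e.1), hu _ _ ((cg_mod n e.1).add _)]

theorem PL_gauge {n : ℕ} {u : St → S3} (hu : PS n u) {V : Conf} (hV : PL n V) :
    PL n (gauge Inv.inv u V) := fun x y μ h => by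
  simp only [gauge]
  rw [hu _ _ h, hu _ _ (h.add _), hV _ _ _ h]

theorem mp_gauge (u : St → S3) : MeasurePreserving (gauge Inv.inv u) PP PP := by
  have h : ∀ e : Lk, MeasurePreserving (fun g : S3 => u e.1 * g * (u (e.1 + un e.2))⁻¹) haar haar :=
    fun e => (measurePreserving_mul_right haar _).comp (measurePreserving_mul_left haar _)
  refine ⟨measurable_pi_lambda _ fun e => (h e).measurable.comp (measurable_pi_apply e), ?_⟩
  have := infinitePi_map_pi (fun _ : Lk => haar) fun e => (h e).measurable
  simp only [fun e => (h e).map_eq] at this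
  exact this

theorem link_gauge (l : ℕ) (u : St → S3) (W V : Conf) (b : Lk) :
    gauge Inv.inv (fun y => u (up l y)) W b * (blk l (gauge Inv.inv u V) b)⁻¹ =
      u (up l b.1) * (W b * (blk l V b)⁻¹) * (u (up l b.1))⁻¹ := by
  rw [blk_gauge]
  simp only [gauge]
  group

theorem itg_gauge (l : ℕ) (a : ℝ) (n : ℕ) {F : Conf → ℝ≥0∞} (u : St → S3) (W : Conf) {V : Conf}
    (hF : F (gauge Inv.inv u V) = F V) :
    itg l a n F (gauge Inv.inv (fun y => u (up l y)) W) (gauge Inv.inv u V) = itg l a n F W V := by
  simp only [itg, link_gauge, hk_conj, hF]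

theorem itgG_gauge (l : ℕ) (a ε : ℝ) (n : ℕ) {F : Conf → ℝ≥0∞} (u : St → S3) (W : Conf)
    {V : Conf} (hF : F (gauge Inv.inv u V) = F V) :
    itgG l a ε n F (gauge Inv.inv (fun y => u (up l y)) W) (gauge Inv.inv u V) =
      itgG l a ε n F W V := by
  have h : (curvG ε (gauge Inv.inv u V) ∧
      noiseG l ε (gauge Inv.inv u V) (gauge Inv.inv (fun y => u (up l y)) W)) ↔
      (curvG ε V ∧ noiseG l ε V W) := by
    simp only [curvG, noiseG, link_gauge, hol_gauge, norm_sub_conj]
  simp only [itgG, link_gauge, hk_conj, hF]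
  by_cases h' : curvG ε V ∧ noiseG l ε V W
  · rw [if_pos h', if_pos (h.2 h')]
  · rw [if_neg h', if_neg fun h'' => h' (h.1 h'')]

theorem rho_gauge (l : ℕ) (β ε : ℝ) (j n : ℕ) {u : St → S3} (hu : PS n u) (W : Conf) :
    rho l β j n (gauge Inv.inv u W) = rho l β j n W ∧
      rhoG l β ε j n (gauge Inv.inv u W) = rhoG l β ε j n W := by
  induction j generalizing n u W with
  | zero =>
    have h : wil n (gauge Inv.inv u W) = wil n W := by simp only [wil, hol_gauge, re_conj]
    simp only [rho, rhoG, h, and_self]
  | succ j ih =>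
    have hv : PS (LL l * n) fun x => u (yo l x) := fun x y h => hu _ _ h.yo
    have e : gauge Inv.inv u W = gauge Inv.inv (fun y => (fun x => u (yo l x)) (up l y)) W := by
      simp only [yo_up]
    have hp : Measurable fun U : Conf => (gauge Inv.inv u W, per (LL l * n) U) :=
      measurable_const.prodMk (cont_per _).measurable
    have hm := measurable_rho l β ε j (LL l * n)
    constructor
    · rw [rho_eq, rho_eq]
      refine ((mp_gauge fun x => u (yo l x)).lintegral_comp
        ((meas_itg l _ n hm.1).comp hp)).symm.trans (lintegral_congr fun U => ?_)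
      simp only [Function.comp, per_gauge hv]
      rw [e, itg_gauge _ _ _ _ _ (ih _ hv _).1]
    · rw [rhoG_eq, rhoG_eq]
      refine ((mp_gauge fun x => u (yo l x)).lintegral_comp
        ((meas_itgG l _ ε n hm.2).comp hp)).symm.trans (lintegral_congr fun U => ?_)
      simp only [Function.comp, per_gauge hv]
      rw [e, itgG_gauge _ _ _ _ _ _ (ih _ hv _).2]

theorem mp_merge (p : Lk → Prop) [DecidablePred p] :
    MeasurePreserving (fun z : Conf × Conf => fun e => if p e then z.2 e else z.1 e)
      (PP.prod PP) PP := by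
  have hm : Measurable (fun z : Conf × Conf => fun e => if p e then z.2 e else z.1 e) := by
    refine measurable_pi_lambda _ fun e => ?_
    split_ifs <;> fun_prop
  refine ⟨hm, eq_infinitePi _ fun s t ht => ?_⟩
  rw [map_apply hm (MeasurableSet.pi s.countable_toSet fun e _ => ht e)]
  have : (fun z : Conf × Conf => fun e => if p e then z.2 e else z.1 e) ⁻¹' Set.pi s t
      = (Set.pi s fun e => if p e then Set.univ else t e) ×ˢ
        (Set.pi s fun e => if p e then t e else Set.univ) := by
    ext z
    simp only [Set.mem_preimage, Set.mem_pi, Set.mem_prod]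
    constructor
    · intro h
      constructor <;> intro e he <;> have := h e he <;> split_ifs at this ⊢ <;> simp_all
    · rintro ⟨h1, h2⟩ e he
      have := h1 e he
      have := h2 e he
      split_ifs at * <;> simp_all
  rw [this, prod_prod, PP, infinitePi_pi, infinitePi_pi, ← Finset.prod_mul_distrib]
  · refine Finset.prod_congr rfl fun e _ => ?_
    split_ifs <;> simp
  all_goals
    intro e _
    split_ifs
    all_goals first | exact ht e | exact MeasurableSet.univ

theorem mp_skew {ι : Type} [Fintype ι] {j : ι → Lk} (hj : Function.Injective j)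
    {a b : Conf → ι → S3} (ha : Measurable a) (hb : Measurable b)
    (hd : ∀ U U', (∀ e ∉ range j, U e = U' e) → a U = a U' ∧ b U = b U') :
    MeasurePreserving (fun U i => a U i * U (j i) * b U i) PP (Measure.pi fun _ => haar) := by
  classical
  have hm : Measurable fun (U : Conf) i => a U i * U (j i) * b U i :=
    measurable_pi_lambda _ fun i => (((measurable_pi_apply i).comp ha).mul
      (measurable_pi_apply (j i))).mul ((measurable_pi_apply i).comp hb)
  have h0 : MeasurePreserving (fun (U : Conf) i => U (j i)) PP (Measure.pi fun _ => haar) := by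
    refine ⟨measurable_pi_lambda _ fun i => measurable_pi_apply _, ?_⟩
    rw [PP, map_infinitePi_infinitePi_of_inj hj, infinitePi_eq_pi]
  have h1 : ∀ U, MeasurePreserving (fun (U' : Conf) i => a U i * U' (j i) * b U i) PP
      (Measure.pi fun _ => haar) := fun U =>
    (measurePreserving_pi (fun _ : ι => haar) (fun _ => haar) fun i =>
      (measurePreserving_mul_right haar (b U i)).comp
        (measurePreserving_mul_left haar (a U i))).comp h0
  have h2 := mp_merge (· ∈ range j)
  refine ⟨hm, Measure.ext fun s hs => ?_⟩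
  rw [map_apply hm hs, ← h2.measure_preimage (hm hs).nullMeasurableSet,
    prod_apply (h2.measurable (hm hs))]
  refine (lintegral_congr fun U => ?_).trans
    (show ∫⁻ _, (Measure.pi fun _ => haar) s ∂PP = _ by simp)
  rw [← (h1 U).measure_preimage hs.nullMeasurableSet]
  congr 1
  ext U'
  have := hd (fun e => if e ∈ range j then U' e else U e) U fun e he => if_neg he
  simp only [mem_preimage, this.1, this.2, mem_range_self, if_true]

end Ms

end Pool.Agent.Lib.MP_7f377f_mp.RG
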