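import Pool.Agent.Lib.MP_7f377f_mp.RGAlg

/-! The block spin transformation and the effective densities. -/

noncomputable section

namespace Pool.Agent.Lib.MP_7f377f_mp.RG

open Finset MeasureTheory
open scoped Quaternion ENNReal

abbrev Conf := Lk → S3

/-- product Haar measure -/
def PP : Measure Conf := Measure.infinitePi fun _ => haar

/-- periodisation -/
def per {α : Type} (n : ℕ) (W : Lk → α) : Lk → α := fun e => W (fun i => e.1 i % (n : ℤ), e.2)

/-- average of the transports from the centre of a block to the centre of the next one -/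
def avq (l : ℕ) (μ : Fin 4) (U : Conf) : ℍ :=
  ((LL l : ℝ) ^ 4)⁻¹ • ∑ t ∈ box l,
    (cmb Inv.inv U t * lnP U t μ (LL l) * (cmb Inv.inv (sh (up l (un μ)) U) t)⁻¹).q

open Classical in
def av (l : ℕ) (μ : Fin 4) (U : Conf) : S3 :=
  if h : avq l μ U = 0 then lnP U 0 μ (LL l) else
    (⟨‖avq l μ U‖⁻¹ • avq l μ U, by
      simp [norm_smul, norm_ne_zero_iff.mpr h]⟩ : Metric.sphere (0 : ℍ) 1)

/-- the block spin field -/
def blk (l : ℕ) (U : Conf) : Conf := fun b => av l b.2 (sh (up l b.1) U)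

/-- unnormalised noise kernel -/
def hk0 (a : ℝ) (g : S3) : ℝ≥0∞ :=
  if 0 < g.q.re then ENNReal.ofReal (Real.exp (-(a * (‖g.q.im‖ / g.q.re) ^ 2))) else 0

/-- noise kernel -/
def hk (a : ℝ) (g : S3) : ℝ≥0∞ := hk0 a g / ∫⁻ h, hk0 a h ∂haar

def curvG (ε : ℝ) (U : Conf) : Prop := ∀ x μ ν, ‖(hol Inv.inv U x μ ν).q - 1‖ ≤ ε

def noiseG (l : ℕ) (ε : ℝ) (U W : Conf) : Prop := ∀ b, ‖(W b * (blk l U b)⁻¹).q - 1‖ ≤ ε

/-- Wilson action on the torus of side `n` -/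
def wil (n : ℕ) (U : Conf) : ℝ :=
  ∑ x ∈ cube n, ∑ μ, ∑ ν, if μ < ν then 2 * (hol Inv.inv U x μ ν).q.re else 0

/-- density of the field of level `j` on the torus of side `n` (in units of level `j`) -/
def rho (l : ℕ) (β : ℝ) : ℕ → ℕ → Conf → ℝ≥0∞
  | 0, n, U => ENNReal.ofReal (Real.exp (β * wil n U))
  | j + 1, n, W => ∫⁻ U, rho l β j (LL l * n) (per (LL l * n) U) *
      ∏ b ∈ lcube n, hk (β * LL l ^ 2) (W b * (blk l (per (LL l * n) U) b)⁻¹) ∂PP

open Classical in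
/-- the same density restricted to histories with small fields -/
def rhoG (l : ℕ) (β ε : ℝ) : ℕ → ℕ → Conf → ℝ≥0∞
  | 0, n, U => ENNReal.ofReal (Real.exp (β * wil n U))
  | j + 1, n, W => ∫⁻ U, (if curvG ε (per (LL l * n) U) ∧ noiseG l ε (per (LL l * n) U) W then
      rhoG l β ε j (LL l * n) (per (LL l * n) U) else 0) *
      ∏ b ∈ lcube n, hk (β * LL l ^ 2) (W b * (blk l (per (LL l * n) U) b)⁻¹) ∂PP

open Classical in
/-- the output of the renormalisation group -/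
def Sand (l : ℕ) (β ε : ℝ) (k M : ℕ) (gam Del : ℝ) : Prop :=
  ∀ j ≤ k, ∃ E : ℝ, ∀ n : ℕ, M ≤ n →
    ∫⁻ U, rhoG l β ε j n (per n U) ∂PP ≤ ENNReal.ofReal (Real.exp ((E + gam) * n ^ 4)) ∧
    ∫⁻ U, (if curvG ε (per n U) then 0 else rhoG l β ε j n (per n U)) ∂PP ≤
      ENNReal.ofReal (Real.exp ((E + gam) * n ^ 4 - Del)) ∧
    ENNReal.ofReal (Real.exp ((E - gam) * n ^ 4)) ≤ ∫⁻ U, rho l β j n (per n U) ∂PP

end Pool.Agent.Lib.MP_7f377f_mp.RG
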