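import Pool.Agent.Lib.MP_7f377f_mp.RGOp0
import Pool.Agent.Lib.MP_7f377f_mp.RGAp2

/-! Linearity and the kernel formula for the operator `top`. -/

noncomputable section

namespace Pool.Agent.Lib.MP_7f377f_mp.RG.Op

open Finset Polynomial

attribute [local irreducible] box lbox cube

def ioL : C3 →ₗ[ℂ] Hc where
  toFun := io
  map_add' a b := by ext <;> simp [io]
  map_smul' c a := by ext <;> simp [io]

def coL : Hc →ₗ[ℂ] C3 where
  toFun := co
  map_add' a b := by funext k; fin_cases k <;> simp [co]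
  map_smul' c a := by funext k; fin_cases k <;> simp [co]

def stL : Hc →ₗ[ℂ] Hc where
  toFun := star
  map_add' a b := star_add a b
  map_smul' c a := by ext <;> simp

def adqL (h : Hc) : C3 →ₗ[ℂ] C3 :=
  coL ∘ₗ LinearMap.mulRight ℂ (star h) ∘ₗ LinearMap.mulLeft ℂ h ∘ₗ ioL

theorem adqL_apply (h : Hc) (b : C3) : adqL h b = adq h b := rfl

theorem lin_diff {E F : Type} [NormedAddCommGroup E] [NormedSpace ℂ E] [FiniteDimensional ℂ E]
    [NormedAddCommGroup F] [NormedSpace ℂ F] (L : E →ₗ[ℂ] F) {Ω : Set ℂ} {γ : ℂ → E}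
    (hγ : DifferentiableOn ℂ γ Ω) : DifferentiableOn ℂ (fun t => L (γ t)) Ω :=
  L.toContinuousLinearMap.differentiable.comp_differentiableOn hγ

theorem adq_diff {Ω : Set ℂ} {h : ℂ → Hc} {b : ℂ → C3} (hh : DifferentiableOn ℂ h Ω)
    (hb : DifferentiableOn ℂ b Ω) : DifferentiableOn ℂ (fun t => adq (h t) (b t)) Ω :=
  lin_diff coL ((hh.mul (lin_diff ioL hb)).mul (lin_diff stL hh))

theorem uni_star {h : Hc} (hh : Uni h) : star h * h = 1 := by
  rw [Quaternion.star_mul_self, ← Quaternion.self_mul_star]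
  exact hh

theorem adq_star_adq {h : Hc} (hh : Uni h) (b : C3) : adq (star h) (adq h b) = b := by
  rw [← adq_mul, uni_star hh, adq_one]

theorem adq_adq_star {h : Hc} (hh : Uni h) (b : C3) : adq h (adq (star h) b) = b := by
  rw [← adq_mul, hh, adq_one]

def cxLL (T : V →ₗ[ℝ] V) : Fld →ₗ[ℂ] Fld where
  toFun := cxL T
  map_add' A B := by
    funext f k
    have e1 : reF (A + B) k = reF A k + reF B k := rfl
    have e2 : imF (A + B) k = imF A k + imF B k := rfl
    simp only [cxL, e1, e2, map_add, Pi.add_apply]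
    push_cast
    ring
  map_smul' c A := by
    funext f k
    have e1 : reF (c • A) k = c.re • reF A k - c.im • imF A k := by
      funext e; simp [reF, imF]
    have e2 : imF (c • A) k = c.re • imF A k + c.im • reF A k := by
      funext e; simp [reF, imF]
    simp only [cxL, e1, e2, map_add, map_sub, map_smul, Pi.add_apply, Pi.sub_apply, Pi.smul_apply,
      smul_eq_mul, RingHom.id_apply]
    apply Complex.ext <;> simp

theorem lin_eq_sum (φ : V →ₗ[ℝ] ℝ) (S : Finset Lk) (h : ∀ a, (∀ e ∈ S, a e = 0) → φ a = 0)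
    (a : V) : φ a = ∑ e ∈ S, φ (Pi.single e 1) * a e := by
  have := h (a - ∑ e ∈ S, a e • Pi.single e 1) fun e he => by
    simp [Finset.sum_apply, Pi.single_apply, he]
  rw [map_sub, map_sum, sub_eq_zero] at this
  simpa [mul_comm] using this

variable (D : Dat)

/-- matrix elements of the form of a block -/
def ker (f e : Lk) : ℝ := hh D.l D.mm (Pi.single f 1) (Pi.single e 1)

def pjL : Fld →ₗ[ℂ] Fld where
  toFun := D.pj
  map_add' A B := by funext f; simp only [Dat.pj, Pi.add_apply]; split_ifs <;> simp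
  map_smul' c A := by funext f; simp only [Dat.pj, Pi.smul_apply]; split_ifs <;> simp

def AyL (y : St) (W : Cf) : Fld →ₗ[ℂ] Fld where
  toFun := D.Ay y W
  map_add' A B := by funext f; exact (adqL _).map_add _ _
  map_smul' c A := by funext f; exact (adqL _).map_smul _ _

/-- the sum of the contributions of the neighbouring blocks -/
def hamL (W : Cf) : Fld →ₗ[ℂ] Fld := LinearMap.pi fun f => ∑ y ∈ box 2,
  adqL (star (cmb star (sh (yo D.l f.1 + y) W) (-y))) ∘ₗ
    LinearMap.proj (f.1 - up D.l (yo D.l f.1 + y), f.2) ∘ₗ cxLL D.hL ∘ₗ AyL D (yo D.l f.1 + y) W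

def topL (W : Cf) : Fld →ₗ[ℂ] Fld :=
  pjL D ∘ₗ (LinearMap.id - (D.Λ : ℂ)⁻¹ • (hamL D W ∘ₗ pjL D))

theorem hamL_apply (W : Cf) (A : Fld) (f : Lk) : hamL D W A f = ∑ y ∈ box 2,
    adq (star (cmb star (sh (yo D.l f.1 + y) W) (-y)))
      (cxL D.hL (D.Ay (yo D.l f.1 + y) W A) (f.1 - up D.l (yo D.l f.1 + y), f.2)) := by
  simp only [hamL, LinearMap.pi_apply, LinearMap.coe_sum, Finset.sum_apply]
  rfl

theorem top_eq (W : Cf) (A : Fld) (f : Lk) :
    D.top W A f = if tree D.l f then 0 else A f - (D.Λ : ℂ)⁻¹ • hamL D W (D.pj A) f := by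
  rw [hamL_apply]
  rfl

theorem pjL_apply (A : Fld) : pjL D A = D.pj A := rfl

theorem topL_apply (W : Cf) (A : Fld) : topL D W A = D.top W A := by
  funext f
  rw [top_eq, topL, LinearMap.comp_apply, pjL_apply, LinearMap.sub_apply, LinearMap.smul_apply,
    LinearMap.comp_apply, pjL_apply, LinearMap.id_apply, Dat.pj, Pi.sub_apply, Pi.smul_apply]

theorem topL_pow (W : Cf) (n : ℕ) (A : Fld) : (topL D W ^ n) A = (D.top W)^[n] A := by
  rw [Module.End.pow_apply, show ⇑(topL D W) = D.top W from funext (topL_apply D W)]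

theorem pol_eq (p : ℂ[X]) (W : Cf) (A : Fld) : D.pol p W A = aeval (topL D W) p (D.pj A) := by
  simp only [aeval_endomorphism, topL_pow, Dat.pol]

theorem pol_apply (p : ℂ[X]) (W : Cf) (A : Fld) (f : Lk) :
    D.pol p W A f = ∑ n ∈ p.support, p.coeff n • (D.top W)^[n] (D.pj A) f := by
  simp [Dat.pol, Polynomial.sum, Finset.sum_apply]

def polL (p : ℂ[X]) (W : Cf) : Fld →ₗ[ℂ] Fld := aeval (topL D W) p ∘ₗ pjL D

theorem polL_apply (p : ℂ[X]) (W : Cf) (A : Fld) : polL D p W A = D.pol p W A :=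
  (pol_eq D p W A).symm

variable {D}

theorem pj_of_tree {A : Fld} (h : ∀ f, tree D.l f → A f = 0) : D.pj A = A := by
  funext f
  simp only [Dat.pj]
  split_ifs with hf
  · exact (h f hf).symm
  · rfl

theorem pj_tree (A : Fld) {f : Lk} (hf : tree D.l f) : D.pj A f = 0 := if_pos hf

theorem top_tree (W : Cf) (A : Fld) {f : Lk} (hf : tree D.l f) : D.top W A f = 0 := if_pos hf

theorem iter_tree (W : Cf) (A : Fld) (n : ℕ) {f : Lk} (hf : tree D.l f) :
    (D.top W)^[n] (D.pj A) f = 0 := by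
  cases n with
  | zero => exact pj_tree A hf
  | succ n => rw [Function.iterate_succ_apply']; exact top_tree _ _ hf

theorem norm_pj (A : Fld) (f : Lk) : ‖D.pj A f‖ ≤ ‖A f‖ := by
  simp only [Dat.pj]
  split_ifs <;> simp

theorem pj_sh (y : St) (A : Fld) : D.pj (sh (up D.l y) A) = sh (up D.l y) (D.pj A) := by
  funext f
  simp only [Dat.pj, sh, tree_add_up]

theorem Ay_sh (x y : St) (W : Cf) (A : Fld) :
    D.Ay x (sh y W) (sh (up D.l y) A) = D.Ay (x + y) W A := by
  simp only [Dat.Ay, sh_sh, up_add]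

theorem hamL_sh (y : St) (W : Cf) (A : Fld) :
    hamL D (sh y W) (sh (up D.l y) A) = sh (up D.l y) (hamL D W A) := by
  funext f
  rw [sh, hamL_apply, hamL_apply]
  refine sum_congr rfl fun x _ => ?_
  have e1 : yo D.l (f.1 + up D.l y) + x = yo D.l f.1 + x + y := by rw [yo_add_up, add_right_comm]
  simp only [e1]
  rw [Ay_sh, sh_sh, up_add _ _ y, add_sub_add_right_eq_sub]

theorem top_sh (y : St) (W : Cf) (A : Fld) :
    D.top (sh y W) (sh (up D.l y) A) = sh (up D.l y) (D.top W A) := by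
  funext f
  rw [top_eq, pj_sh, hamL_sh]
  simp only [sh, top_eq, tree_add_up]

theorem iter_sh (y : St) (W : Cf) (A : Fld) (n : ℕ) :
    (D.top (sh y W))^[n] (sh (up D.l y) A) = sh (up D.l y) ((D.top W)^[n] A) := by
  induction n with
  | zero => rw [Function.iterate_zero_apply, Function.iterate_zero_apply]
  | succ n ih => rw [Function.iterate_succ_apply', Function.iterate_succ_apply', ih, top_sh]

/-- the range of the form of a block -/
abbrev HR (D : Dat) : Prop := Rng (3 * D.l + 1) (3 * D.l + 1) (hh D.l D.mm)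

theorem cxL_hL (hr : HR D) (B : Fld) (f : Lk) :
    cxL D.hL B f = ∑ e ∈ lbox (3 * D.l + 1), (ker D f e : ℂ) • B e := by
  funext k
  have h := lin_eq_sum (hh D.l D.mm (Pi.single f 1)) _ fun a ha => hr _ a (Or.inr ha)
  simp only [cxL, Dat.hL, LinearMap.pi_apply, h (reF B k), h (imF B k), Finset.sum_apply,
    Pi.smul_apply, smul_eq_mul, ker]
  push_cast
  rw [sum_mul, ← sum_add_distrib]
  refine sum_congr rfl fun e _ => ?_
  rw [mul_assoc, ← mul_add]
  exact congrArg _ (Complex.re_add_im _)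

theorem hamL_ker (hr : HR D) (W : Cf) (A : Fld) (f : Lk) : hamL D W A f = ∑ y ∈ box 2,
    ∑ e ∈ lbox (3 * D.l + 1), (ker D (f.1 - up D.l (yo D.l f.1 + y), f.2) e : ℂ) •
      adq (star (cmb star (sh (yo D.l f.1 + y) W) (-y)))
        (adq (cmb star (sh (yo D.l f.1 + y) W) (yo D.l e.1))
          (A (e.1 + up D.l (yo D.l f.1 + y), e.2))) := by
  simp only [hamL_apply, cxL_hL hr, ← adqL_apply, map_sum, map_smul]
  rfl

theorem yo_mem_one {e : Lk} (he : e ∈ lbox (3 * D.l + 1)) : yo D.l e.1 ∈ box 1 := by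
  rw [← mem_fb, fb_one]
  exact mem_lbox.1 he

theorem top_agr (hr : HR D) {a : ℕ} {W W' : Cf} {A A' : Fld} (hW : Agr (a + 4) W W')
    (hA : Agr (fb D.l (a + 3)) A A') : Agr (fb D.l a) (D.top W A) (D.top W' A') := by
  intro f hf
  have h1 := mem_fb.1 (mem_lbox.1 hf)
  suffices hamL D W (D.pj A) f = hamL D W' (D.pj A') f by
    rw [top_eq, top_eq, agr_mono (fb_mono _ (by omega)) hA f hf, this]
  rw [hamL_ker hr, hamL_ker hr]
  refine sum_congr rfl fun y hy => sum_congr rfl fun e he => ?_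
  have h2 : Agr 2 (sh (yo D.l f.1 + y) W) (sh (yo D.l f.1 + y) W') :=
    agr_sh (b := a + 2) (agr_mono (by omega) hW) (box_add h1 hy)
  have h3 := yo_mem_one he
  rw [cmb_agr h2 (box_neg hy), cmb_agr h2 (box_mono (by norm_num) h3)]
  have : (e.1 + up D.l (yo D.l f.1 + y), e.2) ∈ lbox (fb D.l (a + 3)) := by
    rw [mem_lbox, mem_fb, yo_add_up]
    exact box_mono (by omega) (box_add h3 (box_add h1 hy))
  simp only [Dat.pj, hA _ this]

theorem iter_agr (hr : HR D) (n : ℕ) {a : ℕ} {W W' : Cf} {A A' : Fld}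
    (hW : Agr (a + 3 * n + 1) W W') (hA : Agr (fb D.l (a + 3 * n)) A A') :
    Agr (fb D.l a) ((D.top W)^[n] A) ((D.top W')^[n] A') := by
  induction n generalizing a with
  | zero => exact hA
  | succ n ih =>
    rw [Function.iterate_succ_apply', Function.iterate_succ_apply']
    exact top_agr hr (agr_mono (by omega) hW)
      (ih (agr_mono (by omega) hW) (agr_mono (fb_mono _ (by omega)) hA))

theorem Ay_gauge {u : St → Hc} (hu : ∀ x, Uni (u x)) (y : St) (W : Cf) (A : Fld) :
    D.Ay y (gauge star u W) (adF (fun x => u (yo D.l x)) A) = adF (fun _ => u y) (D.Ay y W A) := by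
  funext e
  have : sh y (gauge star u W) = gauge star (fun x => u (x + y)) (sh y W) := by
    funext e
    simp only [sh, gauge, add_right_comm]
  simp only [Dat.Ay, adF, this, cmb_gauge (fun x => hu (x + y)) (fun x => uni_star (hu (x + y))),
    sh, yo_add_up, adq_mul, adq_star_adq (hu _), zero_add]

theorem hamL_gauge (hr : HR D) {u : St → Hc} (hu : ∀ x, Uni (u x)) (W : Cf) (A : Fld) :
    hamL D (gauge star u W) (adF (fun x => u (yo D.l x)) A) =
      adF (fun x => u (yo D.l x)) (hamL D W A) := by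
  funext f
  have : ∀ y, sh y (gauge star u W) = gauge star (fun x => u (x + y)) (sh y W) := fun y => by
    funext e
    simp only [sh, gauge, add_right_comm]
  simp only [hamL_apply, Ay_gauge hu, cxL_hL hr, adF, ← adqL_apply, map_sum, map_smul]
  refine sum_congr rfl fun y _ => sum_congr rfl fun e _ => ?_
  simp only [adqL_apply, this, cmb_gauge (fun x => hu (x + _)) (fun x => uni_star (hu (x + _))),
    star_mul, star_star, adq_mul, zero_add, adq_star_adq (hu _), neg_add_cancel_comm_assoc]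

theorem adF_pj (h : St → Hc) (A : Fld) : D.pj (adF h A) = adF h (D.pj A) := by
  funext f
  simp only [Dat.pj, adF]
  split_ifs
  · exact ((adqL _).map_zero).symm
  · rfl

theorem top_gauge (hr : HR D) {u : St → Hc} (hu : ∀ x, Uni (u x)) (W : Cf) (A : Fld) :
    D.top (gauge star u W) (adF (fun x => u (yo D.l x)) A) =
      adF (fun x => u (yo D.l x)) (D.top W A) := by
  funext f
  rw [top_eq, adF_pj, hamL_gauge hr hu]
  simp only [adF, top_eq, ← adqL_apply]
  split_ifs <;> simp

end Pool.Agent.Lib.MP_7f377f_mp.RG.Op
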