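import Pool.Agent.Lib.MP_7f377f_mp.RGDefs
import Pool.Agent.Lib.MP_7f377f_mp.RGLinInv

/-! Lattice geometry, complexified forms and the completion of the square. -/

noncomputable section

namespace Pool.Agent.Lib.MP_7f377f_mp.RG.JS

open Finset Li

theorem LL_posZ (l : ℕ) : (0 : ℤ) < LL l := by exact_mod_cast LL_pos l

theorem yo_add_up (l : ℕ) (x y : St) : yo l (x + up l y) = yo l x + y := by
  funext i
  simp only [yo, up, Pi.add_apply, Pi.smul_apply, smul_eq_mul]
  rw [add_right_comm, Int.add_mul_ediv_left _ _ (LL_posZ l).ne']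

theorem yo_mem {l a : ℕ} {x : St} (h : x ∈ box (fb l a)) : yo l x ∈ box a := by
  rw [mem_box] at h ⊢
  intro i
  have h1 := abs_le.1 (h i)
  have e : (LL l : ℤ) = 2 * l + 1 := by simp [LL]
  simp only [fb, Nat.cast_add, Nat.cast_mul] at h1
  refine abs_le.2 ⟨(Int.le_ediv_iff_mul_le (LL_posZ l)).2 (by linarith [h1.1]), ?_⟩
  refine Int.lt_add_one_iff.1 ((Int.ediv_lt_iff_lt_mul (LL_posZ l)).2 ?_)
  rw [add_mul, one_mul]
  linarith [h1.2]

theorem yo_eq_zero {l : ℕ} {x : St} (h : x ∈ box l) : yo l x = 0 := by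
  have : yo l x ∈ box 0 := yo_mem (by simpa [fb] using h)
  funext i
  simpa using mem_box.1 this i

theorem sub_up_mem (l : ℕ) (x : St) : x - up l (yo l x) ∈ box l := by
  refine mem_box.2 fun i => ?_
  have h1 := Int.emod_nonneg (x i + l) (LL_posZ l).ne'
  have h2 := Int.emod_lt_of_pos (x i + l) (LL_posZ l)
  have h3 := Int.mul_ediv_add_emod (x i + l) (LL l)
  have e : (LL l : ℤ) = 2 * l + 1 := by simp [LL]
  simp only [up, yo, Pi.sub_apply, Pi.smul_apply, smul_eq_mul]
  rw [abs_le]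
  constructor <;> linarith

theorem up_mem {l a : ℕ} {y : St} (h : y ∈ box a) : up l y ∈ box (a * LL l) := by
  refine mem_box.2 fun i => ?_
  simp only [up, Pi.smul_apply, smul_eq_mul, abs_mul, Nat.abs_cast, Nat.cast_mul, mul_comm (a : ℤ)]
  exact mul_le_mul_of_nonneg_left (mem_box.1 h i) (LL_posZ l).le

theorem up_zero (l : ℕ) : up l 0 = 0 := smul_zero _

theorem yo_add_un (l : ℕ) (x : St) (μ : Fin 4) (h : yo l (x + un μ) ≠ yo l x) :
    yo l (x + un μ) = yo l x + un μ := by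
  have h0 : ∀ i, i ≠ μ → yo l (x + un μ) i = yo l x i := fun i hi => by simp [yo, un, hi]
  have h1 : yo l (x + un μ) μ ≠ yo l x μ := fun e => h (funext fun i => by
    by_cases hi : i = μ
    · exact hi ▸ e
    · exact h0 i hi)
  funext i
  by_cases hi : i = μ
  · subst hi
    have a1 := Int.ediv_le_ediv (LL_posZ l) (show x i + l ≤ x i + 1 + l by linarith)
    have a2 := Int.ediv_le_ediv (LL_posZ l)
      (show x i + 1 + l ≤ x i + l + LL l * 1 by linarith [LL_posZ l])
    rw [Int.add_mul_ediv_left _ _ (LL_posZ l).ne'] at a2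
    simp only [yo, un, Pi.add_apply, Pi.single_eq_same] at h1 ⊢
    omega
  · rw [h0 i hi]
    simp [un, hi]

theorem rad_le (l R a : ℕ) : R + 2 + l ≤ fb l (R / LL l + (a + 2)) := by
  have := Nat.lt_div_mul_add (a := R) (LL_pos l)
  have := LL_pos l
  simp only [fb, add_mul]
  omega

theorem mem_le {a b R : ℕ} {x y : St} (hx : x ∈ box a) (hy : y ∈ box b) (h : a + b ≤ R) :
    x + y ∈ box R := box_mono h (add_mem_box hx hy)

theorem lbox_mono {a b : ℕ} (h : a ≤ b) {e : Lk} (he : e ∈ lbox a) : e ∈ lbox b :=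
  mem_lbox.2 (box_mono h (mem_lbox.1 he))

theorem card_lbox (r : ℕ) : (lbox r).card = 4 * (2 * r + 1) ^ 4 := by
  simp [lbox, card_box, mul_comm]

theorem agr_mono {α : Type} {a b : ℕ} {U U' : Lk → α} (h : Agr b U U') (hab : a ≤ b) :
    Agr a U U' := fun e he => h e (lbox_mono hab he)

theorem agr_sh {α : Type} {a b R : ℕ} {U U' : Lk → α} (h : Agr R U U') {x : St} (hx : x ∈ box b)
    (hab : a + b ≤ R) : Agr a (sh x U) (sh x U') :=
  fun _ he => h _ (mem_lbox.2 (mem_le (mem_lbox.1 he) hx hab))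

section normed
variable {W : Type} [NormedAddCommGroup W] {a b R : ℕ} {δ δ' : ℝ} {A B : Lk → W}

theorem sm_mono (h : Sm b δ A) (hab : a ≤ b) (hδ : δ ≤ δ') : Sm a δ' A :=
  fun e he => (h e (lbox_mono hab he)).trans hδ

theorem sm_add (h : Sm a δ A) (h' : Sm a δ' B) : Sm a (δ + δ') (A + B) :=
  fun e he => norm_add_le_of_le (h e he) (h' e he)

theorem cv_mono (h : Cv b δ A) (hab : a ≤ b) (hδ : δ ≤ δ') : Cv a δ' A :=
  fun x hx μ ν => (h x (box_mono hab hx) μ ν).trans hδ

theorem cv_sh (h : Cv R δ A) {x : St} (hx : x ∈ box b) (hab : a + b ≤ R) : Cv a δ (sh x A) :=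
  fun y hy μ ν => by rw [dd_sh]; exact h _ (mem_le hy hx hab) μ ν

theorem dd_add {W : Type} [AddCommGroup W] (A B : Lk → W) (x : St) (μ ν : Fin 4) :
    dd (A + B) x μ ν = dd A x μ ν + dd B x μ ν := by
  simp only [dd, Pi.add_apply]; abel

theorem dd_sub {W : Type} [AddCommGroup W] (A B : Lk → W) (x : St) (μ ν : Fin 4) :
    dd (A - B) x μ ν = dd A x μ ν - dd B x μ ν := by
  simp only [dd, Pi.sub_apply]; abel

theorem cv_add (h : Cv a δ A) (h' : Cv a δ' B) : Cv a (δ + δ') (A + B) := fun x hx μ ν => by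
  rw [dd_add]
  exact norm_add_le_of_le (h x hx μ ν) (h' x hx μ ν)

theorem dd_agr {W : Type} [AddCommGroup W] {A B : Lk → W} (h : Agr (a + 1) A B) {x : St}
    (hx : x ∈ box a) (μ ν : Fin 4) : dd A x μ ν = dd B x μ ν := by
  have h0 : ∀ μ, A (x, μ) = B (x, μ) := fun μ => h _ (mem_lbox.2 (box_mono a.le_succ hx))
  have h1 : ∀ μ ν, A (x + un μ, ν) = B (x + un μ, ν) := fun μ ν =>
    h _ (mem_lbox.2 (add_mem_box hx (un_mem_box le_rfl μ)))
  simp only [dd, h0, h1]

theorem cv_of_sm (h : Sm (a + 1) δ A) : Cv a (4 * δ) A := fun x hx μ ν => by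
  have h0 : ∀ μ, ‖A (x, μ)‖ ≤ δ := fun μ => h _ (mem_lbox.2 (box_mono a.le_succ hx))
  have h1 : ∀ μ ν, ‖A (x + un μ, ν)‖ ≤ δ := fun μ ν =>
    h _ (mem_lbox.2 (add_mem_box hx (un_mem_box le_rfl μ)))
  refine (norm_sub_le_of_le (norm_sub_le_of_le (norm_add_le_of_le (h0 μ) (h1 μ ν)) (h1 ν μ))
    (h0 ν)).trans_eq (by ring)

end normed

/-! ### complexified forms -/

theorem reF_add (A B : Fld) (k : Fin 3) : reF (A + B) k = reF A k + reF B k := rfl
theorem imF_add (A B : Fld) (k : Fin 3) : imF (A + B) k = imF A k + imF B k := rfl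
theorem reF_sub (A B : Fld) (k : Fin 3) : reF (A - B) k = reF A k - reF B k := rfl
theorem imF_sub (A B : Fld) (k : Fin 3) : imF (A - B) k = imF A k - imF B k := rfl
theorem reF_sh (x : St) (A : Fld) (k : Fin 3) : reF (sh x A) k = sh x (reF A k) := rfl
theorem imF_sh (x : St) (A : Fld) (k : Fin 3) : imF (sh x A) k = sh x (imF A k) := rfl
theorem reF_gr (u : St → C3) (k : Fin 3) : reF (gr u) k = gr fun x => (u x k).re := rfl
theorem imF_gr (u : St → C3) (k : Fin 3) : imF (gr u) k = gr fun x => (u x k).im := rfl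

theorem reF_cxL (T : V →ₗ[ℝ] V) (A : Fld) (k : Fin 3) : reF (cxL T A) k = T (reF A k) := by
  funext e; simp [reF, cxL]

theorem imF_cxL (T : V →ₗ[ℝ] V) (A : Fld) (k : Fin 3) : imF (cxL T A) k = T (imF A k) := by
  funext e; simp [imF, cxL]

variable {m : BF} {A A' B B' : Fld}

theorem cx_sub_left (m : BF) (A A' B : Fld) : cx m (A - A') B = cx m A B - cx m A' B := by
  simp only [cx, reF_sub, imF_sub, map_sub, LinearMap.sub_apply, ← sum_sub_distrib]
  exact sum_congr rfl fun k _ => by push_cast; ring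

theorem cx_sub_right (m : BF) (A B B' : Fld) : cx m A (B - B') = cx m A B - cx m A B' := by
  simp only [cx, reF_sub, imF_sub, map_sub, ← sum_sub_distrib]
  exact sum_congr rfl fun k _ => by push_cast; ring

theorem cx_agr {r r' : ℕ} (hm : Rng r r' m) (hA : Agr r A A') (hB : Agr r' B B') :
    cx m A B = cx m A' B' := by
  have h1 : cx m (A - A') B = 0 := sum_eq_zero fun k _ => by
    have a1 : ∀ b, m (reF (A - A') k) b = 0 := fun b =>
      hm _ _ (.inl fun e he => by simp [reF, hA e he])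
    have a2 : ∀ b, m (imF (A - A') k) b = 0 := fun b =>
      hm _ _ (.inl fun e he => by simp [imF, hA e he])
    simp [a1, a2]
  have h2 : cx m A' (B - B') = 0 := sum_eq_zero fun k _ => by
    have a1 : ∀ b, m b (reF (B - B') k) = 0 := fun b =>
      hm _ _ (.inr fun e he => by simp [reF, hB e he])
    have a2 : ∀ b, m b (imF (B - B') k) = 0 := fun b =>
      hm _ _ (.inr fun e he => by simp [imF, hB e he])
    simp [a1, a2]
  rw [cx_sub_left, sub_eq_zero] at h1
  rw [cx_sub_right, sub_eq_zero] at h2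
  exact h1.trans h2

theorem cx_cg_left (h : ∀ u b, m (gr u) b = 0) (A B : Fld) : cx m (cg A) B = cx m A B := by
  rw [cg, cx_sub_left, sub_eq_self]
  simp [cx, reF_gr, imF_gr, h]

theorem cx_cg_right (h : ∀ u b, m b (gr u) = 0) (A B : Fld) : cx m A (cg B) = cx m A B := by
  rw [cg, cx_sub_right, sub_eq_self]
  simp [cx, reF_gr, imF_gr, h]

theorem cx_im (m : BF) (hA : RealF A) (hB : RealF B) : (cx m A B).im = 0 := by
  have h1 : ∀ k, imF A k = 0 := fun k => funext fun e => hA e k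
  have h2 : ∀ k, imF B k = 0 := fun k => funext fun e => hB e k
  simp [cx, h1, h2]

theorem cx_comb (t : ℝ) (m k : BF) (A B : Fld) :
    cx (t • m + k) A B = t * cx m A B + cx k A B := by
  simp only [cx, LinearMap.add_apply, LinearMap.smul_apply, smul_eq_mul, mul_sum,
    ← sum_add_distrib]
  exact sum_congr rfl fun k _ => by push_cast; ring

theorem cx_mt (r : ℕ) (th : ℝ) (m k : BF) (A B : Fld) : cx (mt r th m k) A B =
    cx ((1 - th) • m + k) A B + (th / (box (r + 2)).card : ℝ) *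
      ∑ x ∈ box (r + 2), cx m (sh x A) (sh x B) := by
  simp only [cx, mt_apply, LinearMap.add_apply, LinearMap.smul_apply, smul_eq_mul, reF_sh, imF_sh]
  rw [sum_comm, mul_sum, ← sum_add_distrib]
  refine sum_congr rfl fun k _ => ?_
  simp only [sum_add_distrib, ← sum_mul, ← Complex.ofReal_sum, sum_sub_distrib]
  push_cast
  ring

theorem rng_comb {r : ℕ} {m k : BF} (hm : Rng r r m) (hk : Rng (r + 1) (r + 1) k) (t : ℝ) :
    Rng (r + 1) (r + 1) (t • m + k) := fun a b h => by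
  have : m a b = 0 := hm a b (h.imp (fun h e he => h e (lbox_mono r.le_succ he))
    fun h e he => h e (lbox_mono r.le_succ he))
  simp [this, hk a b h]

theorem bd_comb {r : ℕ} {c t : ℝ} {m k : BF} (hm : Bd r r c m) (hk : Bd (r + 1) (r + 1) c k)
    (t0 : 0 ≤ t) (t1 : t ≤ 1) : Bd (r + 1) (r + 1) (2 * c) (t • m + k) := fun a b δ δ' ha hb => by
  have h1 := hm a b δ δ' (sm_mono ha r.le_succ le_rfl) (sm_mono hb r.le_succ le_rfl)
  have h2 := hk a b δ δ' ha hb
  simp only [LinearMap.add_apply, LinearMap.smul_apply, smul_eq_mul]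
  refine (abs_add_le _ _).trans ?_
  rw [abs_mul, abs_of_nonneg t0]
  nlinarith [abs_nonneg (m a b)]

/-! ### the completion of the square -/

variable {l : ℕ} {s : V →ₗ[ℝ] V}

theorem mu_apply (a : V) (f : Lk) : mu l s a f =
    (if yo l (f.1 + un f.2) = yo l f.1 then 0 else a (yo l f.1, f.2)) +
      s (sh (yo l f.1) a) (f.1 - up l (yo l f.1), f.2) := by
  simp only [mu, iz, LinearMap.add_apply, Pi.add_apply, LinearMap.pi_apply, LinearMap.comp_apply,
    LinearMap.proj_apply, shL_apply]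
  split_ifs <;> rfl

theorem mu_sh (a : V) (y : St) : mu l s (sh y a) = sh (up l y) (mu l s a) := by
  funext f
  simp only [sh, mu_apply, add_right_comm f.1 (up l y), yo_add_up, add_left_inj, up_add,
    add_sub_add_right_eq_sub]
  rw [← sh_sh]

theorem mu_gr (hs : ∀ u, s (gr u) = 0) (u : St → ℝ) : mu l s (gr u) = gr fun x => u (yo l x) := by
  funext f
  rw [mu_apply, sh_gr, hs, Pi.zero_apply, add_zero]
  split_ifs with h
  · simp [gr, h]
  · simp [gr, yo_add_un l _ _ h]

theorem enB_apply (p q : V × V) : enB l m p q = ∑ x ∈ box l, m (sh x p.1) (sh x q.1) +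
    (LL l : ℝ) ^ 2 * ∑ μ, resL l μ p * resL l μ q := by
  simp [enB, LinearMap.sum_apply, shL_apply]

theorem resL_apply (μ : Fin 4) (p : V × V) : resL l μ p = p.2 (0, μ) -
    ((LL l : ℝ) ^ 4)⁻¹ * ∑ t ∈ box l, ∑ i ∈ range (LL l), p.1 (t + (i : ℤ) • un μ, μ) := by
  simp [resL, avgA_apply, up_zero]

theorem enB_symm (h : ∀ a b, m a b = m b a) (p q : V × V) : enB l m p q = enB l m q p := by
  simp only [enB_apply, h (sh _ p.1), mul_comm (resL l _ p)]

theorem enB_gr (h : ∀ u b, m (gr u) b = 0) (hs : ∀ u, s (gr u) = 0) (u : St → ℝ) (q : V × V) :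
    enB l m (mu l s (gr u), gr u) q = 0 := by
  have : ∀ μ, resL l μ (mu l s (gr u), gr u) = 0 := fun μ => by
    have e : ∀ t ∈ box l, ∑ i ∈ range (LL l), mu l s (gr u) (t + (i : ℤ) • un μ, μ) =
        u (un μ) - u 0 := fun t ht => by
      have := sum_range_sub (fun i : ℕ => u (yo l (t + (i : ℤ) • un μ))) (LL l)
      simp only [Nat.cast_add, Nat.cast_one, add_smul, one_smul, ← add_assoc, Nat.cast_zero,
        zero_smul, add_zero] at this
      simp only [mu_gr hs, gr, this]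
      rw [← up, yo_add_up, yo_eq_zero ht, zero_add]
    have p : (LL l : ℝ) ^ 4 ≠ 0 := pow_ne_zero _ (by exact_mod_cast (LL_pos l).ne')
    have c : ((box l).card : ℝ) = (LL l : ℝ) ^ 4 := by simp [card_box, LL]
    rw [resL_apply, sum_congr rfl e, sum_const, nsmul_eq_mul, c, inv_mul_cancel_left₀ p]
    simp [gr]
  simp only [enB_apply, this]
  simp [mu_gr hs, sh_gr, h]

theorem enB_split (h : ∀ a b, m a b = m b a) (a a' b b' : V) :
    enB l m (a + mu l s b, b) (a' + mu l s b', b') =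
      hh l m a a' + xx l m s a b' + xx l m s a' b + mn l m s b b' := by
  have e : ∀ a b : V, (a + mu l s b, b) = (a, 0) + (mu l s b, b) := fun a b => by simp
  rw [e, e, map_add, map_add, LinearMap.add_apply, LinearMap.add_apply,
    enB_symm h (mu l s b, b) (a', 0)]
  exact (by intros; ring : ∀ a b c d : ℝ, a + b + (c + d) = a + c + b + d) _ _ _ _

/-- the linearised residual -/
def rs (l : ℕ) (b B : Fld) (μ : Fin 4) : C3 := B (0, μ) -
  ((LL l : ℂ) ^ 4)⁻¹ • ∑ t ∈ box l, ∑ i ∈ range (LL l), b (t + (i : ℤ) • un μ, μ)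

theorem square (h : ∀ a b, m a b = m b a) (A B : Fld) :
    ∑ x ∈ box l, cx m (sh x (A + cxL (mu l s) B)) (sh x (A + cxL (mu l s) B)) +
      (LL l : ℂ) ^ 2 * ∑ μ, dot (rs l (A + cxL (mu l s) B) B μ) (rs l (A + cxL (mu l s) B) B μ) =
    cx (hh l m) A A + 2 * cx (xx l m s) A B + cx (mn l m s) B B := by
  set b := A + cxL (mu l s) B with hb
  have e : ∀ μ k, rs l b B μ k =
      resL l μ (reF b k, reF B k) + resL l μ (imF b k, imF B k) * Complex.I := fun μ k => by
    have := Complex.re_add_im (B (0, μ) k)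
    simp only [rs, resL_apply, reF, imF, Pi.sub_apply, Pi.smul_apply, Finset.sum_apply, smul_eq_mul]
    push_cast
    simp only [sub_mul, mul_assoc, sum_mul]
    rw [sub_add_sub_comm, ← mul_add, ← sum_add_distrib]
    simp only [← sum_add_distrib, Complex.re_add_im]
  have h1 := fun k => enB_split (l := l) (s := s) h (reF A k) (reF A k) (reF B k) (reF B k)
  have h2 := fun k => enB_split (l := l) (s := s) h (imF A k) (imF A k) (imF B k) (imF B k)
  have h3 := fun k => enB_split (l := l) (s := s) h (reF A k) (imF A k) (reF B k) (imF B k)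
  have h4 := fun k => enB_split (l := l) (s := s) h (imF A k) (reF A k) (imF B k) (reF B k)
  simp only [← reF_cxL, ← imF_cxL, ← reF_add, ← imF_add, ← hb, enB_apply] at h1 h2 h3 h4
  simp only [cx, dot, e, reF_sh, imF_sh]
  rw [sum_comm (s := box l), sum_comm (s := (univ : Finset (Fin 4))), mul_sum, mul_sum,
    ← sum_add_distrib, ← sum_add_distrib, ← sum_add_distrib]
  refine sum_congr rfl fun k _ => ?_
  have h1 := congrArg (fun x : ℝ => (x : ℂ)) (h1 k)
  have h2 := congrArg (fun x : ℝ => (x : ℂ)) (h2 k)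
  have h3 := congrArg (fun x : ℝ => (x : ℂ)) (h3 k)
  have h4 := congrArg (fun x : ℝ => (x : ℂ)) (h4 k)
  have e2 : ∀ a b : ℂ, (a + b * Complex.I) * (a + b * Complex.I) =
      a * a - b * b + (a * b + b * a) * Complex.I := fun a b => by
    linear_combination b * b * Complex.I_mul_I
  simp only [e2]
  push_cast at h1 h2 h3 h4 ⊢
  simp only [sum_add_distrib, sum_sub_distrib, ← sum_mul]
  linear_combination h1 - h2 + Complex.I * (h3 + h4)

theorem xx_gr (h : ∀ a b, m a b = m b a) (hg : ∀ u b, m (gr u) b = 0) (hs : ∀ u, s (gr u) = 0)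
    (u : St → ℝ) (a : V) : xx l m s a (gr u) = 0 :=
  (enB_symm h _ _).trans (enB_gr hg hs u _)

theorem mn_gr (hg : ∀ u b, m (gr u) b = 0) (hs : ∀ u, s (gr u) = 0) (u : St → ℝ) (a : V) :
    mn l m s (gr u) a = 0 := enB_gr hg hs u _

theorem mn_gr' (h : ∀ a b, m a b = m b a) (hg : ∀ u b, m (gr u) b = 0) (hs : ∀ u, s (gr u) = 0)
    (u : St → ℝ) (a : V) : mn l m s a (gr u) = 0 :=
  (enB_symm h _ _).trans (enB_gr hg hs u _)

theorem hh_Bd {r c : ℕ} {τ : ℝ} (h : Lin l r c τ m s) :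
    Bd (3 * l + 1) (3 * l + 1) ((LL l : ℝ) ^ c * (4 * (3 * LL l) ^ 4)) (hh l m) := by
  intro a b δ δ' ha hb
  have p : ∀ a, 0 ≤ hh l m a a := fun a => (enB_apply _ _).ge.trans' (add_nonneg
    (sum_nonneg fun _ _ => h.psd _) (mul_nonneg (sq_nonneg _)
      (sum_nonneg fun _ _ => mul_self_nonneg _)))
  have q : ∀ a δ, Sm (3 * l + 1) δ a →
      hh l m a a ≤ (LL l : ℝ) ^ c * (4 * (3 * LL l) ^ 4) * δ ^ 2 := fun a δ ha => by
    refine (h.hh_bd a).trans ?_
    rw [mul_assoc]
    refine mul_le_mul_of_nonneg_left ((sum_le_card_nsmul _ _ (δ ^ 2) fun e he =>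
      sq_le_sq' (abs_le.1 (ha e he)).1 (abs_le.1 (ha e he)).2).trans_eq ?_) (by positivity)
    simp only [card_lbox, LL, nsmul_eq_mul]
    push_cast
    ring
  have δ0 : ∀ {a : V} {δ : ℝ}, Sm (3 * l + 1) δ a → 0 ≤ δ := fun h =>
    (norm_nonneg _).trans (h (0, 0) (mem_lbox.2 (zero_mem_box _)))
  have := δ0 ha
  have := δ0 hb
  refine abs_le_of_sq_le_sq ?_ (by positivity)
  refine (LinearMap.BilinForm.apply_sq_le_of_symm (hh l m) p
    ⟨fun a b => enB_symm h.symm _ _⟩ a b).trans ?_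
  exact (mul_le_mul (q a δ ha) (q b δ' hb) (p b) (by positivity)).trans_eq (by ring)

end Pool.Agent.Lib.MP_7f377f_mp.RG.JS
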