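import Pool.Agent.Lib.MP_7f377f_mp.RGSmA
import Pool.Agent.Lib.MP_7f377f_mp.RGAp3

/-! Induction on paths, and classes of functions closed under the algebraic operations. -/

noncomputable section

namespace Pool.Agent.Lib.MP_7f377f_mp.RG.JS

open Finset

attribute [local irreducible] box lbox

section paths
variable {ι α : Type} [Monoid α] {iv : α → α} {U : ι → Lk → α} {P : ℕ → (ι → α) → Prop}

theorem lnP_ind (h1 : P 0 fun _ => 1)
    (hm : ∀ {a b f g}, P a f → P b g → P (a + b) fun i => f i * g i) {p : St} {μ : Fin 4} {n : ℕ}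
    (h : ∀ k < n, P 1 fun i => U i (p + (k : ℤ) • un μ, μ)) : P n fun i => lnP (U i) p μ n := by
  induction n with
  | zero => exact h1
  | succ n ih => exact hm (ih fun k hk => h k (hk.trans n.lt_succ_self)) (h n n.lt_succ_self)

theorem lnN_ind (h1 : P 0 fun _ => 1)
    (hm : ∀ {a b f g}, P a f → P b g → P (a + b) fun i => f i * g i) {p : St} {μ : Fin 4} {n : ℕ}
    (h : ∀ k < n, P 1 fun i => iv (U i (p - ((k : ℤ) + 1) • un μ, μ))) :
    P n fun i => lnN iv (U i) p μ n := by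
  induction n with
  | zero => exact h1
  | succ n ih => exact hm (ih fun k hk => h k (hk.trans n.lt_succ_self)) (h n n.lt_succ_self)

theorem pre_mem {R : ℕ} {x : St} (hx : x ∈ box R) (μ : Fin 4) {k : ℤ} (hk : |k| ≤ R) :
    pre x μ + k • un μ ∈ box R := by
  refine Li.mem_box.2 fun i => ?_
  have := Li.mem_box.1 hx i
  rcases lt_trichotomy i μ with h | h | h
  · simpa [pre, un, h, h.ne] using this
  · simpa [pre, un, h] using hk
  · simp [pre, un, h.not_gt, h.ne']

theorem cmb_ind (h1 : P 0 fun _ => 1)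
    (hm : ∀ {a b f g}, P a f → P b g → P (a + b) fun i => f i * g i)
    (mono : ∀ {a b f}, a ≤ b → P a f → P b f) {R : ℕ}
    (h : ∀ e ∈ lbox R, P 1 (fun i => U i e) ∧ P 1 fun i => iv (U i e)) {x : St} (hx : x ∈ box R) :
    P (4 * R) fun i => cmb iv (U i) x := by
  have key : ∀ μ, P R fun i => ln iv (U i) (pre x μ) μ (x μ) := fun μ => by
    have := abs_le.1 (Li.mem_box.1 hx μ)
    refine mono (a := (x μ).toNat + (-x μ).toNat) (by omega) (hm (lnP_ind h1 hm fun k hk => ?_)
      (lnN_ind h1 hm fun k hk => ?_))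
    · exact (h _ (Li.mem_lbox.2 (pre_mem hx μ (abs_le.2 (by omega))))).1
    · rw [sub_eq_add_neg, ← neg_smul]
      exact (h _ (Li.mem_lbox.2 (pre_mem hx μ (abs_le.2 (by omega))))).2
  exact mono (by omega) (hm (hm (hm (key 0) (key 1)) (key 2)) (key 3))

end paths

theorem Uni.symm {h : Hc} (hh : Uni h) : star h * h = 1 :=
  (Quaternion.star_mul_self h).trans ((Quaternion.self_mul_star h).symm.trans hh)

section gauge
variable {g : St → Hc} (hg : ∀ x, Uni (g x)) (U : Cf) (p : St) (μ : Fin 4)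
include hg

theorem cancel (x : St) (q : Hc) : star (g x) * (g x * q) = q := by
  rw [← mul_assoc, Uni.symm (hg x), one_mul]

theorem lnP_gauge (n : ℕ) :
    lnP (gauge star g U) p μ n = g p * lnP U p μ n * star (g (p + (n : ℤ) • un μ)) := by
  induction n with
  | zero => simpa [lnP] using (hg p).symm
  | succ n ih => simp only [lnP, ih, gauge, mul_assoc, cancel hg, Nat.cast_add, Nat.cast_one,
      add_smul, one_smul, add_assoc]

theorem lnN_gauge (n : ℕ) :
    lnN star (gauge star g U) p μ n = g p * lnN star U p μ n * star (g (p - (n : ℤ) • un μ)) := by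
  induction n with
  | zero => simpa [lnN] using (hg p).symm
  | succ n ih =>
    have e : p - ((n : ℤ) + 1) • un μ + un μ = p - (n : ℤ) • un μ := by
      rw [add_smul, one_smul]; abel
    simp only [lnN, ih, gauge, star_mul, star_star, e, mul_assoc, cancel hg, Nat.cast_add,
      Nat.cast_one]

theorem ln_gauge (n : ℤ) :
    ln star (gauge star g U) p μ n = g p * ln star U p μ n * star (g (p + n • un μ)) := by
  obtain ⟨k, rfl | rfl⟩ := n.eq_nat_or_neg
  · simp [ln, lnN, lnP_gauge hg]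
  · simp [ln, lnP, lnN_gauge hg, sub_eq_add_neg]

theorem cmb_gauge (x : St) : cmb star (gauge star g U) x = g 0 * cmb star U x * star (g x) := by
  have e0 : pre x 0 = 0 := by funext i; simp [pre]
  have e1 : pre x 0 + x 0 • un 0 = pre x 1 := by funext i; fin_cases i <;> simp [pre, un]
  have e2 : pre x 1 + x 1 • un 1 = pre x 2 := by funext i; fin_cases i <;> simp [pre, un]
  have e3 : pre x 2 + x 2 • un 2 = pre x 3 := by funext i; fin_cases i <;> simp [pre, un]
  have e4 : pre x 3 + x 3 • un 3 = x := by funext i; fin_cases i <;> simp [pre, un]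
  simp only [cmb, ln_gauge hg, e1, e2, e3, e4, mul_assoc, cancel hg]
  rw [e0]

end gauge

theorem sh_gauge (g : St → Hc) (U : Cf) (y : St) :
    sh y (gauge star g U) = gauge star (fun x => g (x + y)) (sh y U) := by
  funext e; simp only [sh, gauge, add_right_comm e.1 y]

theorem Bx_eq (x : St) (U : Cf) : Bx x U = Bx 0 (sh x U) := by rw [Bx_sh, zero_add]

theorem adq_smul (h : Hc) (c : ℂ) (b : C3) : adq h (c • b) = c • adq h b := by
  have : io (c • b) = c • io b := Quaternion.ext _ _ (mul_zero c).symm rfl rfl rfl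
  rw [adq, this, mul_smul_comm, smul_mul_assoc]
  funext k; fin_cases k <;> simp [adq, co]

theorem adq_zero (h : Hc) : adq h 0 = 0 := by simp

theorem dot_uni {h : Hc} (hh : Uni h) (a b : C3) : dot (adq h a) (adq h b) = dot a b := by
  rw [dot_adq, ← adq_mul, Uni.symm hh, adq_one]

/-! ### closed classes of functions -/

/-- a class of functions containing the real constants, closed under sums and products -/
structure Cl {ι : Type} (P : (ι → ℂ) → Prop) : Prop where
  const : ∀ c : ℝ, P fun _ => c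
  add : ∀ {f g}, P f → P g → P fun i => f i + g i
  mul : ∀ {f g}, P f → P g → P fun i => f i * g i

variable {ι : Type} {P : (ι → ℂ) → Prop}

def PV (P : (ι → ℂ) → Prop) (v : ι → C3) : Prop := ∀ k, P fun i => v i k

def PQ (P : (ι → ℂ) → Prop) (q : ι → Hc) : Prop :=
  P (fun i => (q i).re) ∧ P (fun i => (q i).imI) ∧ P (fun i => (q i).imJ) ∧ P fun i => (q i).imK

def PF (P : (ι → ℂ) → Prop) (R : ℕ) (A : ι → Fld) : Prop := ∀ e ∈ lbox R, PV P fun i => A i e

def PC (P : (ι → ℂ) → Prop) (R : ℕ) (U : ι → Cf) : Prop := ∀ e ∈ lbox R, PQ P fun i => U i e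

theorem PF.mono {a b : ℕ} {A : ι → Fld} (h : PF P b A) (hab : a ≤ b) : PF P a A :=
  fun e he => h e (lbox_mono hab he)

theorem PC.mono {a b : ℕ} {A : ι → Cf} (h : PC P b A) (hab : a ≤ b) : PC P a A :=
  fun e he => h e (lbox_mono hab he)

theorem PC.sh {a b R : ℕ} {A : ι → Cf} (h : PC P R A) {x : St} (hx : x ∈ box b)
    (hab : a + b ≤ R) : PC P a fun i => sh x (A i) :=
  fun _ he => h _ (Li.mem_lbox.2 (mem_le (Li.mem_lbox.1 he) hx hab))

namespace Cl
variable (h : Cl P)
include h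

theorem cmul (c : ℝ) {f : ι → ℂ} (hf : P f) : P fun i => c * f i := h.mul (h.const c) hf

theorem neg {f : ι → ℂ} (hf : P f) : P fun i => -f i := by simpa using h.cmul (-1) hf

theorem sub {f g : ι → ℂ} (hf : P f) (hg : P g) : P fun i => f i - g i := by
  simpa only [sub_eq_add_neg] using h.add hf (h.neg hg)

theorem zero : P fun _ => 0 := by simpa using h.const 0

theorem one : P fun _ => 1 := by simpa using h.const 1

theorem sum {κ : Type} {S : Finset κ} {f : κ → ι → ℂ} (hf : ∀ j ∈ S, P (f j)) :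
    P fun i => ∑ j ∈ S, f j i := by
  classical
  induction S using Finset.induction_on with
  | empty => exact h.zero
  | insert a S ha ih =>
    simp only [sum_insert ha]
    exact h.add (hf a (mem_insert_self _ _)) (ih fun j hj => hf j (mem_insert_of_mem hj))

theorem qone : PQ P fun _ => 1 := ⟨h.one, h.zero, h.zero, h.zero⟩

theorem qmul {p q : ι → Hc} (hp : PQ P p) (hq : PQ P q) : PQ P fun i => p i * q i := by
  obtain ⟨a, b, c, d⟩ := hp
  obtain ⟨a', b', c', d'⟩ := hq
  simp only [PQ, Quaternion.re_mul, Quaternion.imI_mul, Quaternion.imJ_mul, Quaternion.imK_mul]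
  exact ⟨h.sub (h.sub (h.sub (h.mul a a') (h.mul b b')) (h.mul c c')) (h.mul d d'),
    h.sub (h.add (h.add (h.mul a b') (h.mul b a')) (h.mul c d')) (h.mul d c'),
    h.add (h.add (h.sub (h.mul a c') (h.mul b d')) (h.mul c a')) (h.mul d b'),
    h.add (h.sub (h.add (h.mul a d') (h.mul b c')) (h.mul c b')) (h.mul d a')⟩

theorem qstar {p : ι → Hc} (hp : PQ P p) : PQ P fun i => star (p i) := by
  obtain ⟨a, b, c, d⟩ := hp
  simp only [PQ, Quaternion.re_star, Quaternion.imI_star, Quaternion.imJ_star, Quaternion.imK_star]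
  exact ⟨a, h.neg b, h.neg c, h.neg d⟩

theorem qsmul {c : ι → ℂ} {p : ι → Hc} (hc : P c) (hp : PQ P p) : PQ P fun i => c i • p i :=
  ⟨h.mul hc hp.1, h.mul hc hp.2.1, h.mul hc hp.2.2.1, h.mul hc hp.2.2.2⟩

theorem qadd {p q : ι → Hc} (hp : PQ P p) (hq : PQ P q) : PQ P fun i => p i + q i :=
  ⟨h.add hp.1 hq.1, h.add hp.2.1 hq.2.1, h.add hp.2.2.1 hq.2.2.1, h.add hp.2.2.2 hq.2.2.2⟩

theorem qsum {κ : Type} {S : Finset κ} {f : κ → ι → Hc} (hf : ∀ j ∈ S, PQ P (f j)) :
    PQ P fun i => ∑ j ∈ S, f j i := by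
  classical
  induction S using Finset.induction_on with
  | empty => exact ⟨h.zero, h.zero, h.zero, h.zero⟩
  | insert a S ha ih =>
    simp only [sum_insert ha]
    exact h.qadd (hf a (mem_insert_self _ _)) (ih fun j hj => hf j (mem_insert_of_mem hj))

theorem io {v : ι → C3} (hv : PV P v) : PQ P fun i => io (v i) := ⟨h.zero, hv 0, hv 1, hv 2⟩

omit h in
theorem co {q : ι → Hc} (hq : PQ P q) : PV P fun i => co (q i) := fun k => by
  fin_cases k
  exacts [hq.2.1, hq.2.2.1, hq.2.2.2]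

theorem dot {v w : ι → C3} (hv : PV P v) (hw : PV P w) : P fun i => dot (v i) (w i) :=
  h.sum fun k _ => h.mul (hv k) (hw k)

theorem adq {q : ι → Hc} {v : ι → C3} (hq : PQ P q) (hv : PV P v) :
    PV P fun i => adq (q i) (v i) := co (h.qmul (h.qmul hq (h.io hv)) (h.qstar hq))

theorem cmb {R : ℕ} {W : ι → Cf} (hW : PC P R W) {x : St} (hx : x ∈ box R) :
    PQ P fun i => cmb star (W i) x :=
  cmb_ind (P := fun _ => PQ P) h.qone h.qmul (fun _ a => a) (fun e he => ⟨hW e he,
    h.qstar (hW e he)⟩) hx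

theorem cx {m : BF} {r r' : ℕ} (hm : Rng r r' m) {A B : ι → Fld} (hA : PF P r A)
    (hB : PF P r' B) : P fun i => cx m (A i) (B i) := by
  simp only [cx_eq_sum m hm]
  exact h.sum fun e he => h.sum fun e' he' => h.cmul _ (h.dot (hA e he) (hB e' he'))

theorem Ay (D : Dat) {W : ι → Cf} {A : ι → Fld} (hW : PC P 3 W) {y : St} (hy : y ∈ box 2)
    (hA : PF P (3 * D.l + 1) fun i => sh (up D.l y) (A i)) :
    PF P (3 * D.l + 1) fun i => D.Ay y (W i) (A i) := fun e he =>
  h.adq (h.cmb (hW.sh hy le_rfl) (yo_mem (Li.box_mono (by simp [fb, LL]; omega) (Li.mem_lbox.1 he))))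
    (hA e he)

end Cl

/-- the argument of the chart in the residual -/
def rq (l : ℕ) (W U : Cf) (μ : Fin 4) : Hc :=
  W (0, μ) * star (((LL l : ℂ) ^ 4)⁻¹ • ∑ t ∈ box l, lnP U t μ (LL l))

theorem Cl.lnP (h : Cl P) {U : ι → Cf} {l : ℕ} (hU : PC P (3 * l) U) {t : St} (ht : t ∈ box l)
    (μ : Fin 4) : PQ P fun i => lnP (U i) t μ (LL l) :=
  lnP_ind (P := fun _ => PQ P) h.qone h.qmul fun k hk => hU _ (Li.mem_lbox.2
    (mem_le ht (Li.smul_un_mem (n := k) le_rfl μ) (by unfold LL at hk; omega)))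

theorem Cl.rq (h : Cl P) {W U : ι → Cf} {l : ℕ} (hW : PC P 3 W) (hU : PC P (3 * l) U)
    (μ : Fin 4) : PQ P fun i => rq l (W i) (U i) μ := by
  have c : P fun _ => ((LL l : ℂ) ^ 4)⁻¹ := by
    have := h.const ((LL l : ℝ) ^ 4)⁻¹
    push_cast at this
    exact this
  have a : PQ P fun i => ∑ t ∈ box l, RG.lnP (U i) t μ (LL l) :=
    h.qsum (f := fun t i => RG.lnP (U i) t μ (LL l)) fun t ht => h.lnP hU ht μ
  exact h.qmul (hW (0, μ) (Li.mem_lbox.2 (Li.zero_mem_box _))) (h.qstar (h.qsmul c a))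

theorem Cl.two (h : Cl P) {f : ι → ℂ} (hf : P f) : P fun i => 2 * f i := by
  simpa using h.cmul 2 hf

theorem Cl.s0 (h : Cl P) {D : Dat} {c R : ℕ} {τ ρ κ : ℝ} (hD : D.Ok c τ R ρ κ) {W : ι → Cf}
    {A : ι → Fld} (hW : PC P 3 W) (hA : PF P (3 * D.l + 1) A)
    (hU : PC P (3 * D.l) fun i => D.Uz (W i) (A i))
    (hBU : ∀ x ∈ box (D.l + D.r + 2), PF P (D.r + 1) fun i => Bx x (D.Uz (W i) (A i)))
    (hB : ∀ y ∈ box 2, PF P D.r fun i => Bx y (W i))
    (hi : ∀ μ, P (fun i => (JS.rq D.l (W i) (D.Uz (W i) (A i)) μ).re) →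
      P fun i => (JS.rq D.l (W i) (D.Uz (W i) (A i)) μ).re⁻¹)
    (h3 : ∀ x ∈ box D.l, P (fun i => D.ψ (Bx x (D.Uz (W i) (A i)))) ∧
      P fun i => D.ψ (Bx x (D.Us (W i))))
    (h4 : ∀ f ∈ lbox D.l, P fun i => Complex.log (1 + RG.dot (A i f) (A i f))) :
    P fun i => D.e1 (W i) (A i) + D.e2 (W i) (A i) + D.e3 (W i) (A i) + D.e4 (A i) := by
  have hr : ∀ μ, PV P fun i => D.res (W i) (D.Uz (W i) (A i)) μ := fun μ k =>
    h.mul (hi μ (h.rq hW hU μ).1) (Cl.co (h.rq hW hU μ) k)
  have hA0 := h.Ay D hW (Li.zero_mem_box 2) (A := A) (by simpa only [up_zero, Li.sh_zero] using hA)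
  have hB0 := hB 0 (Li.zero_mem_box 2)
  have a1 : ∀ x ∈ box D.l, P fun i => D.act1 (D.Uz (W i) (A i)) x := fun x hx => by
    have := hBU x (Li.box_mono (by omega) hx)
    unfold Dat.act1
    refine h.add (h.cx (rng_comb hD.m_rng hD.k_rng _) this this) (h.cmul _ (h.sum fun y hy => ?_))
    have := (hBU _ (mem_le hx hy (add_assoc _ _ _).ge)).mono D.r.le_succ
    exact h.cx hD.m_rng this this
  have a2 : P fun i => (LL D.l : ℂ) ^ 2 * ∑ μ, RG.dot (D.res (W i) (D.Uz (W i) (A i)) μ)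
      (D.res (W i) (D.Uz (W i) (A i)) μ) := by
    have := h.cmul ((LL D.l : ℝ) ^ 2) (h.sum fun μ (_ : μ ∈ univ) => h.dot (hr μ) (hr μ))
    push_cast at this
    exact this
  have e1 : P fun i => D.e1 (W i) (A i) := by
    unfold Dat.e1
    exact h.cmul _ (h.sub (h.sub (h.sub (h.add (h.sum a1) a2) (h.cx hD.lin.hh_rng hA0 hA0))
      (h.two (h.cx hD.lin.xx_rng hA0 hB0))) (h.cx hD.lin.mn_rng hB0 hB0))
  have e2 : P fun i => D.e2 (W i) (A i) := by
    unfold Dat.e2
    refine h.mul (h.two (h.const _)) (h.sum fun y hy =>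
      h.cx hD.lin.xx_rng (h.Ay D (A := fun i => cut D.l (A i)) hW hy ?_) (hB y hy))
    intro e _ k
    simp only [sh, cut]
    split_ifs with he
    · exact hA _ (lbox_mono (by omega) he) k
    · exact h.zero
  have e3 : P fun i => D.e3 (W i) (A i) := by
    unfold Dat.e3
    exact h.sum fun x hx => h.sub (h3 x hx).1 (h3 x hx).2
  have e4 : P fun i => D.e4 (A i) := by
    unfold Dat.e4
    exact h.two (h.sum h4)
  exact h.add (h.add (h.add e1 e2) e3) e4

end Pool.Agent.Lib.MP_7f377f_mp.RG.JS
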