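import Pool.Agent.Lib.MP_7f377f_mp.RGSmB
import Pool.Agent.Lib.MP_7f377f_mp.RGOp2
import Pool.Agent.Lib.MP_7f377f_mp.RGBgA

/-! Locality, reality and gauge invariance of the small interaction. -/

noncomputable section

namespace Pool.Agent.Lib.MP_7f377f_mp.RG.JS

open Finset Polynomial

attribute [local irreducible] box lbox

theorem deg_pP (N : ℕ) : (pP N).natDegree ≤ N :=
  natDegree_sum_le_of_forall_le _ _ fun _ hi =>
    (natDegree_monomial_le _).trans (Nat.lt_succ_iff.1 (mem_range.1 hi))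

theorem im_pP (N n : ℕ) : ((pP N).coeff n).im = 0 := by
  simp only [pP, finsetSum_coeff, coeff_monomial, Complex.im_sum]
  exact sum_eq_zero fun i _ => by split_ifs <;> simp

theorem clEq : Cl fun f : Bool → ℂ => f true = f false :=
  ⟨fun _ => rfl, fun a b => congrArg₂ _ a b, fun a b => congrArg₂ _ a b⟩

theorem PF_agr {R : ℕ} {A : Bool → Fld} (h : Agr R (A true) (A false)) :
    PF (fun f => f true = f false) R A := fun e he k => congrFun (h e he) k

theorem PC_agr {R : ℕ} {A : Bool → Cf} (h : Agr R (A true) (A false)) :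
    PC (fun f => f true = f false) R A := fun e he => by
  simp only [PQ, h e he, and_self]

theorem Bx_agr' {a b R : ℕ} {U U' : Cf} (h : Agr R U U') {x : St} (hx : x ∈ box b)
    (hab : a + 1 + b ≤ R) : Agr a (Bx x U) (Bx x U') := by
  rw [Bx_eq, Bx_eq x U']
  exact Bx_agr (agr_sh h hx hab)

theorem clRe : Cl fun f : Unit → ℂ => (f ()).im = 0 :=
  ⟨fun _ => rfl, fun a b => by simp [a, b], fun a b => by simp [a, b]⟩

theorem PC_real (R : ℕ) (U : Conf) : PC (fun f : Unit → ℂ => (f ()).im = 0) R fun _ => cC U :=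
  fun _ _ => ⟨rfl, rfl, rfl, rfl⟩

theorem eq_cE {b : C3} (h : ∀ k, (b k).im = 0) : ∃ v, cE v = b :=
  ⟨WithLp.toLp 2 fun k => (b k).re, funext fun k => Complex.ext rfl (h k).symm⟩

theorem exF_real {B : Fld} (h : RealF B) : ∃ U : Conf, cC U = exF B := by
  choose v hv using fun e => eq_cE (h e)
  choose g hg using ex_real
  exact ⟨fun e => g (v e), funext fun e => by rw [cC, (hg _).1, hv, exF]⟩

theorem Az_real (D : Dat) (W : Conf) (z : Lk → E3) : RealF (D.Az (cC W) z) := fun e k => by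
  have : RealF (zc D.ζ z) := fun e k => by
    simp only [zc]
    split_ifs <;> rfl
  simp [Dat.Az, Dat.pol_real (D := D) (im_pP D.N) W this e k]

theorem Uz_real (D : Dat) (W : Conf) {A : Fld} (hA : RealF A) :
    ∃ U : Conf, cC U = D.Uz (cC W) A := by
  obtain ⟨U, hU⟩ := D.Us_real W
  obtain ⟨V, hV⟩ := exF_real hA
  exact ⟨V * U, funext fun e => by
    rw [cC, Pi.mul_apply, cS_mul, Dat.Uz, ← hU]
    exact congrArg (· * _) (congrFun hV e)⟩

section gauge
variable {D : Dat} {c R : ℕ} {τ ρ κ : ℝ} {g : St → Hc}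

theorem Uz_gauge (h : D.Ok c τ R ρ κ) (hg : ∀ x, Uni (g x)) (W : Cf) (A : Fld) :
    D.Uz (gauge star g W) (adF (fun x => g (yo D.l x)) A) =
      gauge star (fun x => g (yo D.l x)) (D.Uz W A) := by
  funext f
  simp only [Dat.Uz, Dat.Us_gauge h hg, adF, ex_adq (hg _), gauge, mul_assoc, cancel hg]

theorem Ay_gauge (hg : ∀ x, Uni (g x)) (y : St) (W : Cf) (A : Fld) :
    D.Ay y (gauge star g W) (adF (fun x => g (yo D.l x)) A) =
      adF (fun _ => g y) (D.Ay y W A) := by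
  funext f
  simp only [Dat.Ay, adF, sh_gauge, cmb_gauge fun x => hg (x + y), sh, yo_add_up, ← adq_mul,
    zero_add, mul_assoc, Uni.symm (hg _), mul_one]

theorem res_gauge (hg : ∀ x, Uni (g x)) (W U : Cf) (μ : Fin 4) :
    D.res (gauge star g W) (gauge star (fun x => g (yo D.l x)) U) μ = adq (g 0) (D.res W U μ) := by
  have e : ∀ t ∈ box D.l, lnP (gauge star (fun x => g (yo D.l x)) U) t μ (LL D.l) =
      g 0 * lnP U t μ (LL D.l) * star (g (un μ)) := fun t ht => by
    rw [lnP_gauge fun x => hg (yo D.l x), ← up, yo_add_up, yo_eq_zero ht, zero_add]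
  rw [Dat.res, Dat.res, ← ch_conj (hg 0), sum_congr rfl e, ← sum_mul, ← mul_sum,
    ← smul_mul_assoc, ← mul_smul_comm]
  simp only [gauge, zero_add, star_mul, star_star, mul_assoc, cancel hg]

theorem cut_adF (a : ℕ) (g : St → Hc) (A : Fld) : cut a (adF g A) = adF g (cut a A) := by
  funext e
  simp only [cut, adF]
  split_ifs
  · rfl
  · exact (adq_zero _).symm

theorem Az_gauge (h : D.Ok c τ R ρ κ) (hg : ∀ x, Uni (g x)) (T : St → E3 ≃ₗᵢ[ℝ] E3)
    (hT : ∀ x v, cE (T x v) = adq (g x) (cE v)) (W : Cf) (z : Lk → E3) :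
    D.Az (gauge star g W) (fun f => T (yo D.l f.1) (z f)) =
      adF (fun x => g (yo D.l x)) (D.Az W z) := by
  have : zc D.ζ (fun f => T (yo D.l f.1) (z f)) = adF (fun x => g (yo D.l x)) (zc D.ζ z) := by
    funext f
    simp only [zc, adF, LinearIsometryEquiv.norm_map, hT]
    split_ifs
    · rfl
    · exact (adq_zero _).symm
  rw [Dat.Az, this, Dat.pol_gauge h _ hg]
  funext f
  exact (adq_smul _ _ _).symm

end gauge

variable {D : Dat} {c R : ℕ} {τ ρ κ : ℝ}

theorem _root_.Pool.Agent.Lib.MP_7f377f_mp.RG.Dat.s0_agr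
    (h : D.Ok c τ R ρ κ) {W W' : Cf} {z z' : Lk → E3} (hW : Agr (D.Rs R) W W')
    (hz : Agr (fb D.l (D.Rs R)) z z') : D.s0 W z = D.s0 W' z' := by
  have hr := h.r_ge
  unfold Dat.Rs at hW hz
  have := Nat.zero_le (R / LL D.l)
  set a := R / LL D.l + (4 + 2) with ha
  have hA : Agr (fb D.l a) (D.Az W z) (D.Az W' z') := fun e he => by
    have := Dat.pol_agr h (deg_pP D.N) (a := a) (agr_mono hW (by omega)) (A := zc D.ζ z)
      (A' := zc D.ζ z') (fun e he => by
        simp only [zc, hz e (lbox_mono (Nat.add_le_add_right (Nat.mul_le_mul_right _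
          (by omega)) _) he)]) e he
    simp only [Dat.Az, Pi.smul_apply, this]
  have hS : Agr (fb D.l a) (D.Us W) (D.Us W') := Dat.Us_agr h (agr_mono hW (by omega))
  have hU : Agr (fb D.l a) (D.Uz W (D.Az W z)) (D.Uz W' (D.Az W' z')) := fun e he => by
    simp only [Dat.Uz, hA e he, hS e he]
  have l1 : R + 2 + D.l ≤ fb D.l a := rad_le _ _ _
  have l2 : 4 * D.l + 2 * D.r + 4 ≤ fb D.l a := by
    have := h.r_le
    simp only [fb, ha, LL]
    nlinarith [Nat.zero_le (R / (2 * D.l + 1) * (2 * D.l + 1))]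
  refine clEq.s0 h (W := fun b => bif b then W else W')
    (A := fun b => bif b then D.Az W z else D.Az W' z') (PC_agr (agr_mono hW (by omega)))
    (PF_agr (agr_mono hA (by omega))) (PC_agr (agr_mono hU (by omega)))
    (fun x hx => PF_agr (Bx_agr' hU hx (by omega))) (fun y hy => PF_agr (Bx_agr' hW hy (by omega)))
    (fun μ e => congrArg _ e) (fun x hx => ⟨?_, ?_⟩) fun f hf => ?_
  · exact h.psi.loc _ _ fun y hy => dd_agr (Bx_agr' hU hx (by omega)) hy
  · exact h.psi.loc _ _ fun y hy => dd_agr (Bx_agr' hS hx (by omega)) hy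
  · simp only [cond, hA f (lbox_mono (by omega) hf)]

theorem _root_.Pool.Agent.Lib.MP_7f377f_mp.RG.Dat.s0_real
    (h : D.Ok c τ R ρ κ) (W : Conf) (z : Lk → E3) : (D.s0 (cC W) z).im = 0 := by
  have hA := Az_real D W z
  obtain ⟨U, hU⟩ := Uz_real D W hA
  obtain ⟨S, hS⟩ := D.Us_real W
  refine clRe.s0 h (W := fun _ => cC W) (A := fun _ => D.Az (cC W) z) (PC_real _ _)
    (fun e _ => hA e) (hU ▸ PC_real _ _) (fun x _ e _ => hU ▸ Bx_real x U e)
    (fun x _ e _ => Bx_real x W e) (fun μ e => by simp [e]) (fun x _ =>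
      ⟨h.psi.real _ (hU ▸ Bx_real x U), h.psi.real _ (hS ▸ Bx_real x S)⟩) fun f _ => ?_
  obtain ⟨v, hv⟩ := eq_cE (hA f)
  have : 1 + dot (cE v) (cE v) = (1 + ∑ k, v k * v k : ℝ) := by simp [dot, cE]
  rw [← hv, this, ← Complex.ofReal_log (add_nonneg zero_le_one
    (sum_nonneg fun _ _ => mul_self_nonneg _)), Complex.ofReal_im]

theorem _root_.Pool.Agent.Lib.MP_7f377f_mp.RG.Dat.s0_gauge
    (h : D.Ok c τ R ρ κ) (u : St → S3) (T : St → E3 ≃ₗᵢ[ℝ] E3)
    (hT : ∀ x v, cE (T x v) = adq (cS (u x)) (cE v)) (W : Cf) (z : Lk → E3) :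
    D.s0 (gauge star (fun x => cS (u x)) W) (fun f => T (yo D.l f.1) (z f)) = D.s0 W z := by
  have hg : ∀ x, Uni (cS (u x)) := fun x => uni_cS _
  have hg' : ∀ x, Uni (cS (u (yo D.l x))) := fun x => uni_cS _
  simp only [Dat.s0, Az_gauge h hg T hT, Dat.e1, Dat.e2, Dat.e3, Dat.e4, Dat.act1, Uz_gauge h hg,
    Dat.Us_gauge h hg, cut_adF, Ay_gauge hg, res_gauge hg, Bx_gauge hg, Bx_gauge hg', dot_uni (hg _),
    cx_adF _ (rng_comb h.m_rng h.k_rng _) (uni_cS _), cx_adF _ h.m_rng (uni_cS _),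
    cx_adF _ h.lin.hh_rng (uni_cS _), cx_adF _ h.lin.xx_rng (uni_cS _),
    cx_adF _ h.lin.mn_rng (uni_cS _), h.psi.ad, adF]

theorem _root_.Pool.Agent.Lib.MP_7f377f_mp.RG.Dat.s0_tree
    {z z' : Lk → E3} (W : Cf) (hz : ∀ f, ¬ tree D.l f → z f = z' f) :
    D.s0 W z = D.s0 W z' := by
  have : D.pj (zc D.ζ z) = D.pj (zc D.ζ z') := by
    funext f
    simp only [Dat.pj, zc]
    by_cases hf : tree D.l f
    · simp only [hf, if_true]
    · simp only [hz f hf]
  simp only [Dat.s0, Dat.Az, Dat.pol, this]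

end Pool.Agent.Lib.MP_7f377f_mp.RG.JS
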