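import Pool.Agent.Lib.MP_7f377f_mp.RGSmB

/-! Second order approximations of the ingredients of the small interaction. -/

noncomputable section

namespace Pool.Agent.Lib.MP_7f377f_mp.RG.JS

open Finset

attribute [local irreducible] box lbox

theorem io_re (b : C3) : (io b).re = 0 := rfl
theorem io_imI (b : C3) : (io b).imI = b 0 := rfl
theorem io_imJ (b : C3) : (io b).imJ = b 1 := rfl
theorem io_imK (b : C3) : (io b).imK = b 2 := rfl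

theorem norm_io (b : C3) : ‖io b‖ ≤ 3 * ‖b‖ := by
  have h0 := norm_le_pi_norm b 0
  have h1 := norm_le_pi_norm b 1
  have h2 := norm_le_pi_norm b 2
  rw [norm_Hc, io_re, io_imI, io_imJ, io_imK, norm_zero]
  linarith

theorem norm_re (q : Hc) : ‖q.re‖ ≤ ‖q‖ := by
  rw [norm_Hc]
  linarith [norm_nonneg q.imI, norm_nonneg q.imJ, norm_nonneg q.imK]

theorem norm_co (q : Hc) : ‖co q‖ ≤ ‖q‖ := by
  refine (pi_norm_le_iff_of_nonneg (norm_nonneg _)).2 fun k => ?_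
  rw [norm_Hc]
  have := norm_nonneg q.re
  have := norm_nonneg q.imI
  have := norm_nonneg q.imJ
  have := norm_nonneg q.imK
  fin_cases k <;> simp [co] <;> linarith

def ioL : C3 →ₗ[ℂ] Hc where
  toFun := io
  map_add' _ _ := Quaternion.ext _ _ (add_zero _).symm rfl rfl rfl
  map_smul' c _ := Quaternion.ext _ _ (mul_zero c).symm rfl rfl rfl

theorem star_io (b : C3) : star (io b) = -io b :=
  Quaternion.ext _ _ (by simp) (by simp) (by simp) (by simp)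

theorem norm_dot (a b : C3) : ‖dot a b‖ ≤ 3 * (‖a‖ * ‖b‖) := by
  refine (norm_sum_le_of_le _ fun k _ => norm_mul_le_of_le (norm_le_pi_norm a k)
    (norm_le_pi_norm b k)).trans_eq (by simp)

theorem dot_diff {a b : C3} {η σ : ℝ} (h : ‖a - b‖ ≤ η) (ha : ‖a‖ ≤ σ) (hb : ‖b‖ ≤ σ) :
    ‖dot a a - dot b b‖ ≤ 6 * η * σ := by
  have : dot a a - dot b b = dot (a - b) (a + b) := by
    simp only [dot, ← sum_sub_distrib, Pi.sub_apply, Pi.add_apply]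
    exact sum_congr rfl fun k _ => by ring
  rw [this]
  refine (norm_dot _ _).trans ?_
  have := mul_le_mul h (norm_add_le_of_le ha hb) (norm_nonneg _) ((norm_nonneg _).trans h)
  linarith

theorem near_one {q : Hc} {b : C3} {δ η : ℝ} (h : ‖b‖ ≤ δ ∧ ‖q - 1 - io b‖ ≤ η) :
    ‖q - 1‖ ≤ 3 * δ + η := by
  have := norm_add_le (q - 1 - io b) (io b)
  rw [sub_add_cancel] at this
  linarith [norm_io b, h.1, h.2]

theorem mul_near {p q : Hc} {a b : ℝ} (hp : ‖p - 1‖ ≤ a) (hq : ‖q - 1‖ ≤ b) :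
    ‖p * q - 1‖ ≤ a * b + a + b := by
  have : p * q - 1 = (p - 1) * (q - 1) + (p - 1) + (q - 1) := by noncomm_ring
  rw [this]
  exact norm_add_le_of_le (norm_add_le_of_le (norm_mul_le_of_le hp hq) hp) hq

theorem mul_ap {p q : Hc} {u v : C3} {a b η η' : ℝ} (hp : ‖p - 1‖ ≤ a) (hq : ‖q - 1‖ ≤ b)
    (hu : ‖p - 1 - io u‖ ≤ η) (hv : ‖q - 1 - io v‖ ≤ η') :
    ‖p * q - 1 - io (u + v)‖ ≤ a * b + η + η' := by
  have : p * q - 1 - io (u + v) = (p - 1) * (q - 1) + (p - 1 - io u) + (q - 1 - io v) := by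
    rw [show io (u + v) = io u + io v from ioL.map_add u v]
    noncomm_ring
  rw [this]
  exact norm_add_le_of_le (norm_add_le_of_le (norm_mul_le_of_le hp hq) hu) hv

theorem star_near (q : Hc) : ‖star q - 1‖ = ‖q - 1‖ := by
  rw [← norm_star_Hc, star_sub, star_star, star_one]

theorem star_ap (q : Hc) (b : C3) : ‖star q - 1 - io (-b)‖ = ‖q - 1 - io b‖ := by
  rw [← norm_star_Hc, star_sub, star_sub, star_star, star_one, star_io,
    show io (-b) = -io b from ioL.map_neg b, neg_neg]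

theorem re_ne {q : Hc} (h : ‖q - 1‖ ≤ 2⁻¹) : 2⁻¹ ≤ ‖q.re‖ := by
  have h1 : ‖q.re - 1‖ ≤ 2⁻¹ := (norm_re (q - 1)).trans h
  have := norm_sub_norm_le 1 q.re
  rw [norm_sub_rev, norm_one] at this
  linarith

theorem ch_ap {q : Hc} {b : C3} {η : ℝ} (hb : ‖b‖ ≤ 1) (h : ‖q - 1 - io b‖ ≤ η) (h2 : η ≤ 2⁻¹) :
    ‖ch q - b‖ ≤ 4 * η := by
  have h1 : ‖q.re - 1‖ ≤ η := sub_zero (q.re - 1) ▸ (norm_re (q - 1 - io b)).trans h
  have h3 : ‖co q - b‖ ≤ η := by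
    refine le_trans (le_of_eq ?_) ((norm_co (q - 1 - io b)).trans h)
    congr 1
    funext k
    have e : ∀ a c : ℂ, a - c = a - 0 - c := fun a c => by rw [sub_zero]
    fin_cases k <;> exact e _ _
  have h4 : 2⁻¹ ≤ ‖q.re‖ := by
    have := norm_sub_norm_le 1 q.re
    rw [norm_sub_rev, norm_one] at this
    linarith
  have h5 : q.re ≠ 0 := norm_pos_iff.1 (by linarith)
  have : ch q - b = q.re⁻¹ • (co q - b - (q.re - 1) • b) := by
    rw [ch, sub_smul, one_smul, sub_sub_sub_cancel_right, smul_sub, inv_smul_smul₀ h5]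
  have η0 : 0 ≤ η := (norm_nonneg _).trans h
  rw [this, norm_smul, norm_inv]
  have h6 : ‖co q - b - (q.re - 1) • b‖ ≤ η + η * 1 := norm_sub_le_of_le h3
    ((norm_smul_le _ _).trans (mul_le_mul h1 hb (norm_nonneg _) η0))
  have h7 : ‖q.re‖⁻¹ ≤ 2 := inv_le_of_inv_le₀ two_pos h4
  exact (mul_le_mul h7 h6 (norm_nonneg _) zero_le_two).trans_eq (by ring)

theorem lnP_ap {U : Cf} {b : Fld} {ε η : ℝ} (h : ∀ e, ‖U e - 1‖ ≤ ε ∧ ‖U e - 1 - io (b e)‖ ≤ η)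
    {n : ℕ} (hn : 2 * n * ε ≤ 1) (p : St) (μ : Fin 4) : ∀ k ≤ n, ‖lnP U p μ k - 1‖ ≤ 2 * k * ε ∧
      ‖lnP U p μ k - 1 - io (∑ i ∈ range k, b (p + (i : ℤ) • un μ, μ))‖ ≤
        k * (η + 2 * n * ε ^ 2) := by
  have ε0 : 0 ≤ ε := (norm_nonneg _).trans (h (0, 0)).1
  intro k hk
  induction k with
  | zero => simp [lnP, show io 0 = 0 from ioL.map_zero]
  | succ k ih =>
    obtain ⟨i1, i2⟩ := ih (k.le_succ.trans hk)
    have hk' : (k : ℝ) ≤ n := by exact_mod_cast k.le_succ.trans hk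
    have a : 2 * k * ε ≤ 2 * n * ε := by gcongr
    rw [sum_range_succ, lnP]
    refine ⟨(mul_near i1 (h _).1).trans ?_, (mul_ap i1 (h _).1 i2 (h _).2).trans ?_⟩ <;>
      push_cast <;> nlinarith

theorem cmb_near {W : Cf} {ε : ℝ} (h : ∀ e, ‖W e - 1‖ ≤ ε) (h1 : ε ≤ 1) {x : St}
    (hx : x ∈ box 1) : ‖cmb star W x - 1‖ ≤ 15 * ε := by
  have ε0 : 0 ≤ ε := (norm_nonneg _).trans (h (0, 0))
  have := cmb_ind (iv := star) (U := fun _ : Unit => W)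
    (P := fun n q => ‖q () - 1‖ ≤ (1 + ε) ^ n - 1) (by simp)
    (fun a b => (mul_near a b).trans_eq (by ring))
    (fun hab a => a.trans (by gcongr; linarith))
    (fun e _ => ⟨by simpa using h e, by simpa [star_near] using h e⟩) hx
  refine this.trans ?_
  have : ε ^ 2 ≤ ε := by nlinarith
  have : ε ^ 3 ≤ ε := by nlinarith
  have : ε ^ 4 ≤ ε := by nlinarith
  rw [mul_one]
  nlinarith

theorem cx_diff {m : BF} {r r' : ℕ} {C η σ : ℝ} (hm : Bd r r' C m) {A A' B B' : Fld}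
    (hA : Sm r η (A - A')) (hB : Sm r' η (B - B')) (hA' : Sm r σ A') (hB' : Sm r' σ B) :
    ‖cx m A B - cx m A' B'‖ ≤ 24 * C * η * σ := by
  have : cx m A B - cx m A' B' = cx m (A - A') B + cx m A' (B - B') := by
    rw [cx_sub_left, cx_sub_right]; ring
  rw [this]
  exact (norm_add_le_of_le (cx_bd hm hA hB') (cx_bd hm hA' hB)).trans_eq (by ring)

/-- `A = A' + O(δ ^ 2)` and both are `O(δ)` -/
def Cz (r : ℕ) (P δ : ℝ) (A A' : Fld) : Prop :=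
  Sm r (P ^ 5 * δ ^ 2) (A - A') ∧ Sm r (2 * P ^ 3 * δ) A ∧ Sm r (2 * P ^ 3 * δ) A'

variable {P δ : ℝ}

theorem Cz.mono {r r' : ℕ} {A A' : Fld} (h : Cz r P δ A A') (hr : r' ≤ r) : Cz r' P δ A A' :=
  ⟨sm_mono h.1 hr le_rfl, sm_mono h.2.1 hr le_rfl, sm_mono h.2.2 hr le_rfl⟩

theorem Cz.cx {m : BF} {r r' : ℕ} {C : ℝ} (hm : Bd r r' C m) (hC : C ≤ P ^ 2) (hP : 10 ^ 6 ≤ P)
    (δ0 : 0 ≤ δ) {A A' B B' : Fld} (hA : Cz r P δ A A') (hB : Cz r' P δ B B') :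
    ‖cx m A B - cx m A' B'‖ ≤ P ^ 11 * δ ^ 3 := by
  have P0 : 0 ≤ P := le_trans (by norm_num) hP
  refine (cx_diff hm hA.1 hB.1 hA.2.2 hB.2.1).trans ?_
  calc _ ≤ 24 * P ^ 2 * (P ^ 5 * δ ^ 2) * (2 * P ^ 3 * δ) := by gcongr
    _ = 48 * (P ^ 10 * δ ^ 3) := by ring
    _ ≤ P * (P ^ 10 * δ ^ 3) := by gcongr; linarith
    _ = _ := by ring

theorem pow_small (hP : 10 ^ 6 ≤ P) (δ0 : 0 ≤ δ) (h : P ^ 3 * δ ≤ 1) :
    10 ^ 6 * (P ^ 2 * δ) ≤ 1 ∧ P * δ ≤ P ^ 2 * δ ∧ δ ≤ P * δ := by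
  have P1 : 1 ≤ P := le_trans (by norm_num) hP
  refine ⟨?_, by gcongr; nlinarith, by nlinarith⟩
  calc _ ≤ P * (P ^ 2 * δ) := by gcongr
    _ = P ^ 3 * δ := by ring
    _ ≤ 1 := h

theorem Bx_cz (hP : 10 ^ 6 ≤ P) (h : P ^ 3 * δ ≤ 1) {U : Cf} {b : Fld}
    (hU : ∀ e, ‖b e‖ ≤ P * δ ∧ ‖U e - 1 - io (b e)‖ ≤ P * δ ^ 2) {n : ℕ} (hn : n + 1 ≤ P) (x : St) :
    Cz n P δ (Bx x U) (cg (sh x b)) := by
  have P1 : 1 ≤ P := le_trans (by norm_num) hP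
  have δ0 : 0 ≤ δ := nonneg_of_mul_nonneg_right ((norm_nonneg _).trans (hU (0, 0)).1)
    (by linarith)
  obtain ⟨s1, s2, s3⟩ := pow_small hP δ0 h
  have n0 : (0 : ℝ) ≤ n := n.cast_nonneg
  have h1 : Sm n (P ^ 5 * δ ^ 2) (Bx x U - cg (sh x b)) := by
    rw [Bx_eq]
    refine sm_mono (Bx_ap (δ := P * δ) (η := P * δ ^ 2) (fun e _ => hU _)
      (by rw [sq, ← mul_assoc]; exact mul_le_of_le_one_right (by positivity) (by linarith)) ?_)
      le_rfl ?_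
    · calc _ ≤ 1000 * P * (P * δ) := by gcongr
        _ = 1000 * (P ^ 2 * δ) := by ring
        _ ≤ 1 := by nlinarith
    · calc _ ≤ 10 ^ 4 * (P ^ 2 * (P * δ) ^ 2 + P ^ 3 * (P * δ ^ 2)) := by
            gcongr
            exact hn.trans (le_self_pow₀ P1 (by norm_num))
        _ = 2 * 10 ^ 4 * (P ^ 4 * δ ^ 2) := by ring
        _ ≤ P * (P ^ 4 * δ ^ 2) := by gcongr; linarith
        _ = _ := by ring
  have h2 : Sm n (P ^ 3 * δ) (cg (sh x b)) := by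
    refine sm_mono (Sm_cg (cv_of_sm (δ := P * δ) fun e _ => (hU _).1)) le_rfl ?_
    calc _ ≤ 3 * P * (4 * (P * δ)) := by gcongr; linarith
      _ = 12 * (P ^ 2 * δ) := by ring
      _ ≤ P * (P ^ 2 * δ) := by gcongr; linarith
      _ = _ := by ring
  refine ⟨h1, ?_, sm_mono h2 le_rfl (by nlinarith [pow_pos (zero_lt_one.trans_le P1) 3])⟩
  have := sm_add h1 h2
  rw [sub_add_cancel] at this
  refine sm_mono this le_rfl ?_
  have : P ^ 3 * δ * (P ^ 2 * δ) ≤ P ^ 3 * δ * 1 := by gcongr; nlinarith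
  nlinarith

theorem exF_ap (hP : 10 ^ 6 ≤ P) (h : P ^ 3 * δ ≤ 1) {B : Fld} (hB : ∀ e, ‖B e‖ ≤ δ) (e : Lk) :
    ‖exF B e - 1‖ ≤ 4 * δ ∧ ‖B e‖ ≤ P * δ ∧ ‖exF B e - 1 - io (B e)‖ ≤ P * δ ^ 2 := by
  have δ0 : 0 ≤ δ := (norm_nonneg _).trans (hB e)
  obtain ⟨s1, s2, s3⟩ := pow_small hP δ0 h
  have := Ap_exF (R := 0) (b := sh e.1 B) (fun e _ => hB _) (by linarith) (0, e.2)
    (Li.mem_lbox.2 (Li.zero_mem_box 0))
  simp only [exF, sh, zero_add] at this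
  exact ⟨(near_one this).trans (by nlinarith), (hB e).trans s3,
    this.2.trans (by gcongr; linarith)⟩

theorem Ay_cz (hP : 10 ^ 6 ≤ P) (h : P ^ 3 * δ ≤ 1) (D : Dat) {W : Cf} {A : Fld}
    (hW : ∀ e, ‖W e - 1‖ ≤ 4 * δ) (hA : ∀ e, ‖A e‖ ≤ δ) (y : St) :
    Cz (3 * D.l + 1) P δ (D.Ay y W A) (sh (up D.l y) A) := by
  have P1 : 1 ≤ P := le_trans (by norm_num) hP
  have δ0 : 0 ≤ δ := (norm_nonneg _).trans (hA (0, 0))
  obtain ⟨s1, s2, s3⟩ := pow_small hP δ0 h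
  have h1 : Sm (3 * D.l + 1) (600 * δ ^ 2) (D.Ay y W A - sh (up D.l y) A) := fun e he => by
    have := cmb_near (W := sh y W) (fun e => hW _) (by linarith) (yo_mem (l := D.l)
      (Li.box_mono (by simp [fb, LL]; omega) (Li.mem_lbox.1 he)))
    refine (norm_adq_sub this (by linarith) _).trans ?_
    exact (mul_le_mul_of_nonneg_left (hA _) (by positivity)).trans_eq (by ring)
  have h2 : Sm (3 * D.l + 1) δ (sh (up D.l y) A) := fun e _ => hA _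
  have h3 : δ ≤ P ^ 3 * δ := le_mul_of_one_le_left δ0 (one_le_pow₀ P1)
  refine ⟨sm_mono h1 le_rfl ?_, ?_, sm_mono h2 le_rfl (by linarith)⟩
  · gcongr
    linarith [le_self_pow₀ P1 (show 5 ≠ 0 by norm_num)]
  · have := sm_add h1 h2
    rw [sub_add_cancel] at this
    exact sm_mono this le_rfl (by nlinarith)

theorem norm_avg {E : Type} [NormedAddCommGroup E] [NormedSpace ℂ E] (l : ℕ) {f : St → E} {a : ℝ}
    (h : ∀ t, ‖f t‖ ≤ a) : ‖((LL l : ℂ) ^ 4)⁻¹ • ∑ t ∈ box l, f t‖ ≤ a := by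
  have p : (0 : ℝ) < LL l ^ 4 := pow_pos (by exact_mod_cast Li.LL_pos l) _
  rw [norm_smul, norm_inv, norm_pow, Complex.norm_natCast, inv_mul_le_iff₀ p]
  exact (norm_sum_le_of_le _ fun t _ => h t).trans_eq (by simp [Li.card_box, LL])

theorem avg_one (l : ℕ) : ((LL l : ℂ) ^ 4)⁻¹ • ∑ _t ∈ box l, (1 : Hc) = 1 := by
  have p : (LL l : ℂ) ^ 4 ≠ 0 := pow_ne_zero _ (by exact_mod_cast (Li.LL_pos l).ne')
  rw [sum_const, Li.card_box, ← Nat.cast_smul_eq_nsmul ℂ, Nat.cast_pow, ← LL, inv_smul_smul₀ p]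

theorem rq_ap (hP : 10 ^ 6 ≤ P) (h : P ^ 3 * δ ≤ 1) {l : ℕ} (hl : LL l ≤ P) {U : Cf} {b B : Fld}
    (hU : ∀ e, ‖b e‖ ≤ P * δ ∧ ‖U e - 1 - io (b e)‖ ≤ P * δ ^ 2) (hB : ∀ e, ‖B e‖ ≤ δ) (μ : Fin 4) :
    ‖rs l b B μ‖ ≤ 2 * (P ^ 2 * δ) ∧
      ‖rq l (exF B) U μ - 1 - io (rs l b B μ)‖ ≤ 100 * (P ^ 4 * δ ^ 2) := by
  have P1 : 1 ≤ P := le_trans (by norm_num) hP
  have δ0 : 0 ≤ δ := (norm_nonneg _).trans (hB (0, 0))
  obtain ⟨s1, s2, s3⟩ := pow_small hP δ0 h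
  have L0 : (0 : ℝ) ≤ LL l := Nat.cast_nonneg _
  have s4 : 2 * LL l * (4 * (P * δ)) ≤ 8 * (P ^ 2 * δ) := by
    calc _ ≤ 2 * P * (4 * (P * δ)) := by gcongr
      _ = _ := by ring
  have k := fun t => lnP_ap (ε := 4 * (P * δ)) (fun e => ⟨(near_one (hU e)).trans
    (by nlinarith), (hU e).2⟩) (n := LL l) (by linarith) t μ _ le_rfl
  have k1 := norm_avg l fun t => (k t).1
  have k2 := norm_avg l fun t => (k t).2
  have k3 := norm_avg l fun t => norm_sum_le_of_le (range (LL l)) fun (i : ℕ) _ =>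
    (hU (t + (i : ℤ) • un μ, μ)).1
  simp only [sum_sub_distrib, smul_sub, avg_one] at k1 k2
  rw [show ∀ f : St → C3, ∑ t ∈ box l, io (f t) = io (∑ t ∈ box l, f t) from fun f =>
    (map_sum ioL f _).symm, show ∀ (c : ℂ) v, c • io v = io (c • v) from fun c v =>
    (ioL.map_smul c v).symm, ← star_ap] at k2
  rw [← star_near] at k1
  rw [sum_const, card_range, nsmul_eq_mul] at k3
  obtain ⟨w1, -, w2⟩ := exF_ap hP h hB (0, μ)
  refine ⟨(norm_sub_le_of_le (hB _) k3).trans ?_, ?_⟩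
  · have : LL l * (P * δ) ≤ P * (P * δ) := by gcongr
    nlinarith
  rw [rs, sub_eq_add_neg (B _)]
  refine (mul_ap w1 k1 w2 k2).trans ?_
  have p2 : P ^ 2 ≤ P ^ 4 := pow_le_pow_right₀ P1 (by norm_num)
  have p1 : P ≤ P ^ 4 := le_self_pow₀ P1 (by norm_num)
  calc _ ≤ 4 * δ * (8 * (P ^ 2 * δ)) + P * δ ^ 2 +
        P * (P * δ ^ 2 + 2 * P * (4 * (P * δ)) ^ 2) := by gcongr
    _ = (33 * P ^ 2 + P + 32 * P ^ 4) * δ ^ 2 := by ring
    _ ≤ (100 * P ^ 4) * δ ^ 2 := by gcongr; linarith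
    _ = _ := by ring

end Pool.Agent.Lib.MP_7f377f_mp.RG.JS
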