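import Pool.Agent.Lib.MP_7f377f_mp.RGStep3

/-! The renormalisation step. -/

noncomputable section

namespace Pool.Agent.Lib.MP_7f377f_mp.RG

open Finset MeasureTheory
open scoped ENNReal

namespace SX

theorem LL_ge {D : Dat} {c R : ℕ} {τ ρ κ : ℝ} (h : D.Ok c τ R ρ κ) : 100 ≤ LL D.l := by
  have h1 := h.r_ge
  have h2 := h.r_le
  rw [LL]
  nlinarith

theorem th0_mono {D : Dat} {c R : ℕ} {τ ρ κ δ : ℝ} (h : D.Ok c τ R ρ κ) (hδ : 0 ≤ δ) {K K' : ℕ}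
    (hK : K ≤ K') : D.th0 K τ ρ κ δ ≤ D.th0 K' τ ρ κ δ := by
  have h1 : 0 ≤ κ := (norm_nonneg _).trans (h.psi.bd 0 fun x _ μ ν => by simp [dd, h.rho.le])
  have h2 := (g_pos h).2.1
  have h3 := h.rho
  have h4 := h.tau
  have h5 : 0 < D.β := lt_of_lt_of_le one_pos h.beta
  have h6 : 0 < D.ζ := lt_of_lt_of_le one_pos h.zeta
  have h7 : (1 : ℝ) ≤ LL D.l := by exact_mod_cast (by norm_num : 1 ≤ 100).trans (LL_ge h)
  exact mul_le_mul_of_nonneg_right (pow_le_pow_right₀ h7 hK) (by positivity)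

theorem ext_one_tree {l n : ℕ} (u : fund l n → S3) : ∀ f, tree l f → ext l n 1 u f = 1 :=
  fun _ hf => ext_tree _ _ hf

end SX

open SX

open Classical in
/-- the step for arbitrary measurable densities, after the reduction to the tree gauge -/
theorem step_abs (c : ℕ) : ∃ K : ℕ, ∀ (D : Dat) (R p : ℕ) (τ ρ κ ε δ : ℝ), D.Ok c τ R ρ κ →
    K ≤ D.l → D.Rb + D.Rs R + 2 ≤ R → p * (2 * D.Rs R + 1) ≤ D.Rb →
    (LL D.l : ℝ) ^ K * ρ ≤ 1 → 2 * δ ≤ ρ → (LL D.l : ℝ) ^ K * (D.g * D.ζ) ≤ δ →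
    (LL D.l : ℝ) ^ K * ε ≤ D.g * D.ζ → 0 ≤ ε →
    (2 * D.Rb + 1) ^ 4 * D.th0 K τ ρ κ (3 * R * ρ) ≤ 1 / 100 →
    ∃ e : ℝ, ∀ (E η : ℝ) (n : ℕ) (f fG : Conf → ℝ≥0∞), Measurable f → Measurable fG →
      LL D.l ^ K ≤ n →
      (∀ U, Per (LL D.l * n) U → curvG δ U → ENNReal.ofReal (Real.exp ((E - η) * (LL D.l * n) ^ 4 -
        act D.β D.m (fun B => D.ψ B + D.β * cx D.k B B) (LL D.l * n) U)) ≤ f U) →
      (∀ U, Per (LL D.l * n) U → curvG δ U → fG U ≤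
        ENNReal.ofReal (Real.exp ((E + η) * (LL D.l * n) ^ 4 -
          act D.β D.m (fun B => D.ψ B + D.β * cx D.k B B) (LL D.l * n) U))) →
      ∀ W, Per n W → ∀ T TG : ℝ≥0∞,
        T = ∫⁻ u, f (ext D.l n 1 u) *
          ∏ b ∈ lcube n, hk (D.β * LL D.l ^ 2) (W b * (blk D.l (ext D.l n 1 u) b)⁻¹)
            ∂(Measure.pi fun _ : fund D.l n => haar) →
        TG = ∫⁻ u, (if curvG ε (ext D.l n 1 u) ∧ noiseG D.l ε (ext D.l n 1 u) W then
          fG (ext D.l n 1 u) else 0) *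
          ∏ b ∈ lcube n, hk (D.β * LL D.l ^ 2) (W b * (blk D.l (ext D.l n 1 u) b)⁻¹)
            ∂(Measure.pi fun _ : fund D.l n => haar) →
        (¬ curvG δ W → TG = 0) ∧ (curvG δ W →
        ENNReal.ofReal (Real.exp ((LL D.l ^ 4 * (E - η) + e -
          (2⁻¹ ^ p + 2 * Real.exp (-(D.l : ℝ)) * D.ζ ^ 2)) * n ^ 4 - D.actN n W)) ≤ T ∧
        TG ≤ ENNReal.ofReal (Real.exp ((LL D.l ^ 4 * (E + η) + e +
          (2⁻¹ ^ p + 2 * Real.exp (-(D.l : ℝ)) * D.ζ ^ 2)) * n ^ 4 - D.actN n W))) := by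
  obtain ⟨K₁, hK₁⟩ := pol_torus c
  obtain ⟨K₂, hK₂⟩ := geo c
  obtain ⟨K₃, hK₃⟩ := fresh_tm c
  obtain ⟨cH, hcH, hch⟩ := chart_change
  obtain ⟨C, hC⟩ := hk_tail
  choose e he _ using ex_real
  refine ⟨K₁ + K₂ + K₃ + 2 * c + 10, ?_⟩
  intro D R p τ ρ κ ε δ h hK hR hp hρ hδρ hgδ hεg hε hθ
  set K := K₁ + K₂ + K₃ + 2 * c + 10 with hKdef
  have hL100 := LL_ge h
  set L : ℝ := (LL D.l : ℝ) with hLdef
  have hL : 100 ≤ L := by rw [hLdef]; exact_mod_cast hL100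
  have hL1 : 1 ≤ L := by linarith
  have hpw : ∀ a, a ≤ K → L ^ a ≤ L ^ K := fun a ha => pow_le_pow_right₀ hL1 ha
  have hpw' : ∀ a, a + 1 ≤ K → 100 * L ^ a ≤ L ^ K := fun a ha =>
    le_trans (by rw [pow_succ']; gcongr) (hpw _ ha)
  have hK1 : 1 ≤ L ^ K := one_le_pow₀ hL1
  obtain ⟨hΛ, hg, -⟩ := g_pos h
  have hζ1 := h.zeta
  have hζ : 0 < D.ζ := by linarith
  have hgζ : 0 < D.g * D.ζ := by positivity
  have hρ0 := h.rho
  have hgδ' : D.g * D.ζ ≤ δ := (le_mul_of_one_le_left hgζ.le hK1).trans hgδ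
  have hδ0 : 0 < δ := hgζ.trans_le hgδ'
  have hεδ : ε ≤ δ := ((le_mul_of_one_le_left hε hK1).trans hεg).trans hgδ'
  have hsm : ∀ a x, a ≤ K → 0 ≤ x → x ≤ ρ → L ^ a * x ≤ 1 := fun a x ha h0 h1 =>
    le_trans (mul_le_mul (hpw a ha) h1 h0 (by positivity)) hρ
  have hθ₃ : (2 * D.Rb + 1) ^ 4 * D.th0 K₃ τ ρ κ (3 * R * ρ) ≤ 1 / 100 :=
    le_trans (mul_le_mul_of_nonneg_left (th0_mono h (by positivity) (by omega))
      (by positivity)) hθ
  obtain ⟨-, hfr⟩ := hK₃ D R τ ρ κ h (by omega) hR (hsm _ _ (by omega) hρ0.le le_rfl)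
    (le_trans (mul_le_mul_of_nonneg_right (hpw _ (by omega)) hgζ.le) (by linarith)) hθ₃
  set θ := D.th0 K₃ τ ρ κ (3 * R * ρ) with hθdef
  obtain ⟨geo1, -⟩ := hK₂ D R τ ρ κ ε h (by omega) (hsm _ _ (by omega) hε (by linarith))
  obtain ⟨-, geo2⟩ := hK₂ D R τ ρ κ δ h (by omega) (hsm _ _ (by omega) hδ0.le (by linarith))
  have hβ := h.beta
  obtain ⟨mhk, -, hz0, hz1, -⟩ := hC (D.β * L ^ 2) 0
    (one_le_mul_of_one_le_of_one_le hβ (one_le_pow₀ hL1)) le_rfl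
  set lz := Real.log (∫⁻ g, hk0 (D.β * L ^ 2) g ∂haar).toReal with hlz
  set lν := Real.log (nu0 D.ζ Set.univ).toReal with hlν
  refine ⟨-4 * lz + cnt D.l * (3 * Real.log D.g + Real.log cH + lν), ?_⟩
  intro E η n f fG mr1 mr2 hn hlo hup W hW T TG hr1 hr2
  have hn0 : 0 < n := lt_of_lt_of_le (by positivity) hn
  have hnK : ∀ a, a ≤ K → LL D.l ^ a ≤ n := fun a ha =>
    (Nat.pow_le_pow_right (by omega) ha).trans hn
  refine ⟨fun hWc => ?_, fun hWc => ?_⟩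
  · rw [hr2]
    refine (lintegral_congr fun u => ?_).trans lintegral_zero
    rw [if_neg, zero_mul]
    rintro ⟨h1, h2⟩
    refine hWc (curvG_mono ?_ (geo1 _ W (ext_one_tree u) h1 h2).1)
    exact ((mul_le_mul_of_nonneg_right (hpw 3 (by omega)) hε).trans hεg).trans hgδ'
  obtain ⟨P, hP, hdet, hld, hq, hPz, hzP⟩ := hK₁ D R τ ρ κ δ h (by omega)
    (hsm _ _ (by omega) hδ0.le (by linarith)) n (hnK _ (by omega)) W hW hWc
  obtain ⟨U₀, hU₀⟩ := Dat.Us_real (D := D) W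
  have hs0 : ∀ y, (∀ z, ‖D.s0 (sh y (cC W)) z‖ ≤ θ) ∧ Measurable (D.s0 (sh y (cC W))) := fun y =>
    (hfr (sh y W) (curvG_mono (by linarith) (curvG_sh hWc y))).2
  have hθ0 : 0 ≤ θ := (norm_nonneg _).trans ((hs0 0).1 0)
  have hθ1 : 8 * θ ≤ 1 := by
    have : (1 : ℝ) ≤ (2 * D.Rb + 1) ^ 4 := one_le_pow₀ (by linarith [Nat.cast_nonneg (α := ℝ) D.Rb])
    nlinarith
  have hn2 : 2 * (D.Rb + D.Rs R) + 1 ≤ n := by
    have h1 := h.rad
    have h2 := hnK (2 * c + 8 + 1) (by omega)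
    rw [pow_succ] at h2
    nlinarith
  have hlf := log_fluct h n p hn2 hp W hW (fun y => (hs0 y).1) (fun y => (hs0 y).2) hθ₃
  set S : (fund D.l n → E3) → ℝ := fun z =>
    ∑ y ∈ cube n, (D.s0 (sh y (cC W)) (sh (up D.l y) (ext D.l n 0 z))).re with hS
  have mS : Measurable S := Finset.measurable_fun_sum _ fun y _ => Complex.measurable_re.comp
    ((hs0 y).2.comp ((measurable_sh _).comp (measurable_ext _ _ _)))
  have bS : ∀ z, |S z| ≤ ∑ _y ∈ cube n, θ := fun z => (abs_sum_le_sum_abs _ _).trans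
    (sum_le_sum fun y _ => (Complex.abs_re_le_norm _).trans ((hs0 y).1 _))
  have gb := gauss_ball hζ mS bS
  set lZ := Real.log (∫ z, Real.exp (-S z) ∂Measure.pi fun _ : fund D.l n => nu D.ζ) with hlZ
  set Uc : (fund D.l n → E3) → Conf := fun z =>
    ext D.l n 1 fun i => e ((D.g • P) z i) * U₀ i with hUc
  set Q : (fund D.l n → E3) → ℝ := fun z => ∑ y ∈ cube n, (cx (hh D.l D.mm)
    (D.Ay y (cC W) fun f => cE (ext D.l n 0 (P z) f))
    (D.Ay y (cC W) fun f => cE (ext D.l n 0 (P z) f))).re / D.Λ with hQ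
  set c₀ : ℝ := -(4 * n ^ 4 * lz) + n ^ 4 * cnt D.l * (3 * Real.log D.g + Real.log cH) +
    Real.log (LinearMap.det P) - mainA D n W with hc₀
  have hdet' := (jac_eq hg hcH hdet 0).1
  have hcU : ∀ z, cC (Uc z) = D.Uz (cC W) fun f => cE (ext D.l n 0 ((D.g • P) z) f) := fun z =>
    cC_chart h hn0 hW hU₀ he _
  have pw : ∀ z : fund D.l n → E3, (∀ i, ‖z i‖ ≤ D.ζ) → curvG δ (Uc z) ∧ ∀ a : ℝ,
      ENNReal.ofReal (Real.exp (a -
          act D.β D.m (fun B => D.ψ B + D.β * cx D.k B B) (LL D.l * n) (Uc z))) *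
        (∏ b ∈ lcube n, hk (D.β * L ^ 2) (W b * (blk D.l (Uc z) b)⁻¹)) *
        ENNReal.ofReal (LinearMap.det (D.g • P) *
          ∏ i, cH * ((1 + ‖(D.g • P) z i‖ ^ 2) ^ 2)⁻¹) =
      ENNReal.ofReal (Real.exp (a + c₀ - Q z / 2 - S z)) := by
    intro z hz
    have hb : ∀ i, ‖(D.g • P) z i‖ ≤ δ / 100 := by
      intro i
      rw [LinearMap.smul_apply, Pi.smul_apply, norm_smul, Real.norm_of_nonneg hg.le]
      have h1 := mul_le_mul_of_nonneg_left (hPz z _ hz i) hg.le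
      have h2 := mul_le_mul_of_nonneg_right (hpw' K₁ (by omega)) hgζ.le
      linarith
    obtain ⟨h1, h2⟩ := geo2 (Uc z) W _ hWc (fun f hf => by rw [ext_tree _ _ hf, cE_zero])
      (fun f => by linarith [(norm_cE _).1.trans (ext_bd (by positivity) hb f)]) (hcU z)
    refine ⟨h1, fun a => ?_⟩
    rw [prod_hk _ hz0 hz1 (h2 _), (jac_eq hg hcH hdet _).2,
      ← ENNReal.ofReal_mul (Real.exp_pos _).le, ← ENNReal.ofReal_mul (by positivity),
      ← Real.exp_add, ← Real.exp_add, card_lcube, card_fund]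
    congr 2
    have h3 := exponent2 h hn0 hW hP hz (hcU z)
    simp only [hc₀, hQ, hS]
    push_cast
    linarith
  have mx := measurable_ext D.l n (1 : S3)
  have mk : Measurable fun u : fund D.l n → S3 =>
      ∏ b ∈ lcube n, hk (D.β * L ^ 2) (W b * (blk D.l (ext D.l n 1 u) b)⁻¹) :=
    Finset.measurable_fun_prod _ fun b _ => mhk.comp
      (((measurable_pi_apply b).comp ((measurable_blk D.l).comp mx)).inv.const_mul (W b))
  have hX : Real.exp (-(D.l : ℝ)) * n ^ 4 ≤ Real.exp (-(D.l : ℝ)) * D.ζ ^ 2 * n ^ 4 := by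
    rw [mul_right_comm]
    exact le_mul_of_one_le_right (by positivity) (one_le_pow₀ hζ1)
  have hX0 : 0 ≤ Real.exp (-(D.l : ℝ)) * D.ζ ^ 2 * n ^ 4 := by positivity
  have hY : (n : ℝ) ^ 4 * (8 * θ * 2⁻¹ ^ p) ≤ 2⁻¹ ^ p * n ^ 4 := by
    rw [mul_comm]
    exact mul_le_mul_of_nonneg_right (mul_le_of_le_one_left (by positivity) hθ1) (by positivity)
  obtain ⟨hlf1, hlf2⟩ := abs_le.mp hlf
  obtain ⟨hld1, hld2⟩ := abs_le.mp hld
  constructor
  · rw [hr1]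
    refine le_trans ?_ (setLIntegral_le_lintegral
      {u : fund D.l n → S3 | ∀ i, 0 < (u i * (U₀ i)⁻¹).q.re} _)
    refine le_trans ?_ (hch (fun i : fund D.l n => U₀ i) e he _ hdet' _ ((mr1.comp mx).mul mk)).ge
    refine le_trans (le_trans (ENNReal.ofReal_le_ofReal (Real.exp_le_exp.mpr ?_))
      (gb ((E - η) * (L * n) ^ 4 + c₀ - Real.exp (-(D.l : ℝ)) * D.ζ ^ 2 * n ^ 4 / 2)).ge)
      (lintegral_mono fun z => ?_)
    · rw [actN_eq, card_fund, hc₀]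
      push_cast
      linarith
    · by_cases hz : ∀ i, ‖z i‖ ≤ D.ζ
      · rw [Set.indicator_of_mem (show z ∈ {z : fund D.l n → E3 | ∀ i, ‖z i‖ ≤ D.ζ} from hz)]
        obtain ⟨h1, h2⟩ := pw z hz
        refine le_trans (le_trans (ENNReal.ofReal_le_ofReal (Real.exp_le_exp.mpr ?_))
          (h2 ((E - η) * (L * n) ^ 4)).ge)
          (mul_le_mul_left (mul_le_mul_left (hlo _ (ext_per _ _ _ _) h1) _) _)
        linarith [(abs_le.mp (hq z _ hz)).2]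
      · rw [Set.indicator_of_notMem
          (show z ∉ {z : fund D.l n → E3 | ∀ i, ‖z i‖ ≤ D.ζ} from hz)]
        exact zero_le
  · have hUs : ∀ (u : fund D.l n → S3) (i : fund D.l n),
        cS (ext D.l n 1 u i) * star (D.Us (cC W) i) = cS (u i * (U₀ i)⁻¹) := by
      intro u i
      rw [ext_coe, ← hU₀, cS_mul, cS_inv]
      rfl
    rw [hr2, ← setLIntegral_eq_of_support_subset
      (s := {u : fund D.l n → S3 | ∀ i, 0 < (u i * (U₀ i)⁻¹).q.re}) fun u hu i => ?_]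
    · refine le_trans (hch (fun i : fund D.l n => U₀ i) e he _ hdet' _ ((Measurable.ite
        (mx (measurableSet_good D.l ε W)) (mr2.comp mx) measurable_const).mul mk)).le ?_
      refine le_trans (lintegral_mono fun z => ?_) (le_trans
        (gb ((E + η) * (L * n) ^ 4 + c₀ + Real.exp (-(D.l : ℝ)) * D.ζ ^ 2 * n ^ 4 / 2)).le
        (ENNReal.ofReal_le_ofReal (Real.exp_le_exp.mpr ?_)))
      · by_cases hev : curvG ε (Uc z) ∧ noiseG D.l ε (Uc z) W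
        · have hz : ∀ i, ‖z i‖ ≤ D.ζ := by
            have h1 : ∀ i, ‖P z i‖ ≤ 2 * (L ^ K₂ * ε) / D.g := by
              intro i
              have h2 := ((geo1 _ W (ext_one_tree _) hev.1 hev.2).2 i).2
              rw [hUs, mul_inv_cancel_right, he, ch_ex] at h2
              have h3 := (norm_cE ((D.g • P) z i)).2
              rw [LinearMap.smul_apply, Pi.smul_apply, norm_smul, Real.norm_of_nonneg hg.le] at h3
              rw [LinearMap.smul_apply, Pi.smul_apply] at h2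
              rw [le_div_iff₀ hg]
              linarith
            intro i
            refine (hzP z _ h1 i).trans ?_
            rw [← mul_div_assoc, div_le_iff₀ hg]
            have h4 := mul_le_mul_of_nonneg_right (hpw' (K₁ + K₂) (by omega)) hε
            have h5 : 0 ≤ L ^ K₁ * L ^ K₂ * ε := by positivity
            rw [pow_add] at h4
            linarith
          rw [Set.indicator_of_mem (show z ∈ {z : fund D.l n → E3 | ∀ i, ‖z i‖ ≤ D.ζ} from hz)]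
          obtain ⟨h1, h2⟩ := pw z hz
          refine le_trans (mul_le_mul_left (mul_le_mul_left
            ((if_pos hev).le.trans (hup _ (ext_per _ _ _ _) h1)) _) _)
            (le_trans (h2 ((E + η) * (L * n) ^ 4)).le
              (ENNReal.ofReal_le_ofReal (Real.exp_le_exp.mpr ?_)))
          linarith [(abs_le.mp (hq z _ hz)).1]
        · exact le_trans (le_of_eq (mul_eq_zero_of_left
            (mul_eq_zero_of_left (if_neg hev) _) _)) zero_le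
      · rw [actN_eq, card_fund, hc₀]
        push_cast
        linarith
    · by_cases hev : curvG ε (ext D.l n 1 u) ∧ noiseG D.l ε (ext D.l n 1 u) W
      · have h2 := ((geo1 _ W (ext_one_tree _) hev.1 hev.2).2 i).1
        rw [hUs] at h2
        exact h2
      · exact absurd (mul_eq_zero_of_left (if_neg hev) _) hu

theorem step (c : ℕ) : ∃ K : ℕ, ∀ (D : Dat) (R p : ℕ) (τ ρ κ ε δ : ℝ), D.Ok c τ R ρ κ →
    K ≤ D.l → D.Rb + D.Rs R + 2 ≤ R → p * (2 * D.Rs R + 1) ≤ D.Rb →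
    (LL D.l : ℝ) ^ K * ρ ≤ 1 → 2 * δ ≤ ρ → (LL D.l : ℝ) ^ K * (D.g * D.ζ) ≤ δ →
    (LL D.l : ℝ) ^ K * ε ≤ D.g * D.ζ → 0 ≤ ε →
    (2 * D.Rb + 1) ^ 4 * D.th0 K τ ρ κ (3 * R * ρ) ≤ 1 / 100 →
    ∃ e : ℝ, ∀ (E η : ℝ) (j n : ℕ), LL D.l ^ K ≤ n →
      (∀ U, Per (LL D.l * n) U → curvG δ U → ENNReal.ofReal (Real.exp ((E - η) * (LL D.l * n) ^ 4 -
        act D.β D.m (fun B => D.ψ B + D.β * cx D.k B B) (LL D.l * n) U)) ≤
          rho D.l D.β j (LL D.l * n) U) →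
      (∀ U, Per (LL D.l * n) U → curvG δ U → rhoG D.l D.β ε j (LL D.l * n) U ≤
        ENNReal.ofReal (Real.exp ((E + η) * (LL D.l * n) ^ 4 -
          act D.β D.m (fun B => D.ψ B + D.β * cx D.k B B) (LL D.l * n) U))) →
      ∀ W, Per n W → (¬ curvG δ W → rhoG D.l D.β ε (j + 1) n W = 0) ∧ (curvG δ W →
        ENNReal.ofReal (Real.exp ((LL D.l ^ 4 * (E - η) + e -
          (2⁻¹ ^ p + 2 * Real.exp (-(D.l : ℝ)) * D.ζ ^ 2)) * n ^ 4 - D.actN n W)) ≤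
            rho D.l D.β (j + 1) n W ∧
        rhoG D.l D.β ε (j + 1) n W ≤ ENNReal.ofReal (Real.exp ((LL D.l ^ 4 * (E + η) + e +
          (2⁻¹ ^ p + 2 * Real.exp (-(D.l : ℝ)) * D.ζ ^ 2)) * n ^ 4 - D.actN n W))) := by
  obtain ⟨K, hK⟩ := step_abs c
  refine ⟨K, fun D R p τ ρ κ ε δ h h1 h2 h3 h4 h5 h6 h7 h8 h9 => ?_⟩
  obtain ⟨e, he⟩ := hK D R p τ ρ κ ε δ h h1 h2 h3 h4 h5 h6 h7 h8 h9
  refine ⟨e, fun E η j n hn hlo hup W hW => ?_⟩
  have hn0 : 0 < n := lt_of_lt_of_le (Nat.pow_pos (Nat.succ_pos _)) hn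
  obtain ⟨hr1, hr2⟩ := rho_succ D.l D.β ε j n hn0 W hW
  obtain ⟨mr1, mr2⟩ := measurable_rho D.l D.β ε j (LL D.l * n)
  exact he E η n _ _ mr1 mr2 hn hlo hup W hW _ _ hr1 hr2

end Pool.Agent.Lib.MP_7f377f_mp.RG
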