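import Pool.Agent.Lib.MP_7f377f_mp.RGTop0

/-! Crude bounds at the top level. -/

noncomputable section

namespace Pool.Agent.Lib.MP_7f377f_mp.RG.JT

open Finset MeasureTheory
open scoped Quaternion ENNReal Pointwise

attribute [local irreducible] box lbox

/-- the quadratic density at `x` -/
def qd (m : BF) (U : Conf) (x : St) : ℝ := (cx m (Bx x (cC U)) (Bx x (cC U))).re

theorem qd_nonneg {m : BF} (hm : ∀ a, 0 ≤ m a a) (U : Conf) (x : St) : 0 ≤ qd m U x := by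
  rw [qd, cx_real m (Bx_real x U) (Bx_real x U), Complex.ofReal_re]
  exact sum_nonneg fun _ _ => hm _

theorem qd_sh (m : BF) (U : Conf) (x y : St) : qd m (sh y U) x = qd m U (x + y) := by
  rw [qd, ← sh_cC, Bx_sh, qd]

theorem act_sub {β ρ κ δ : ℝ} (m : BF) {R : ℕ} {φ : Fld → ℂ} (hφ : Tm R ρ κ φ) (n : ℕ) {U : Conf}
    (h : curvG δ U) (h1 : 1000 * (R + 1) * δ ≤ 1) (h2 : δ + 10 ^ 6 * ((R + 1) * δ) ^ 2 ≤ ρ) :
    |act β m φ n U - β * ∑ x ∈ cube n, qd m U x| ≤ κ * n ^ 4 := by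
  rw [act, mul_sum, ← sum_sub_distrib]
  refine (abs_sum_le_sum_abs _ _).trans ((sum_le_card_nsmul _ _ κ fun x _ => ?_).trans_eq
    (by rw [card_cube, nsmul_eq_mul, mul_comm, Nat.cast_pow]))
  rw [Complex.add_re, Complex.re_ofReal_mul, qd, add_sub_cancel_left, Bx_eq, sh_cC]
  exact (Complex.abs_re_le_norm _).trans (hφ.bd _ ((real_fix (h.sh x) h1).2.2.mono le_rfl h2))

theorem rebase {m : BF} {r : ℕ} {c δ : ℝ} (hr : Rng r r m) (hb : Bd r r c m) (c0 : 0 ≤ c)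
    (g1 : ∀ u b, m (gr u) b = 0) (g2 : ∀ u b, m b (gr u) = 0) {U : Conf} (h : curvG δ U)
    (h1 : 10 ^ 4 * ((r + 4) ^ 2 * δ) ≤ 1) {x : St} (hx : x ∈ box 2) :
    |qd m U x - ∑ k, m (sh x (reF (Bx 0 (cC U)) k)) (sh x (reF (Bx 0 (cC U)) k))| ≤
      10 ^ 12 * c * ((r + 4) ^ 2 * δ) ^ 3 := by
  have d0 := h.nonneg
  have r0 : (0 : ℝ) ≤ r := r.cast_nonneg
  set s := ((r : ℝ) + 4) ^ 2 * δ with hs
  have s1 : 4 * ((r + 4) * δ) ≤ s := by rw [hs]; nlinarith [mul_nonneg r0 d0]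
  have s0 : 0 ≤ (r + 4) * δ := by positivity
  obtain ⟨f1, f2, -⟩ := real_fix (R := r + 1 + 2) h (by push_cast; nlinarith)
  set B := Bx 0 (cC U) with hB
  set d := 10 * (((r + 1 + 2 : ℕ) : ℝ) + 1) * δ with hd
  have d1 : d = 10 * ((r + 4) * δ) := by rw [hd]; push_cast; ring
  have d2 : (r + 1) * d ≤ 10 * s := by rw [d1, hs]; nlinarith
  have d3 : 0 ≤ d := by rw [d1]; positivity
  have d4 : d ≤ (r + 1) * d := by nlinarith
  have b1 : Sm (r + 1) d (sh x B) := f2.sh hx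
  have b2 := Bx_ap (Ap_exF b1 (by linarith)) (by nlinarith) (by linarith)
  have b3 : Sm r (120 * s) (cg (sh x B)) := (Sm_cg b1.cv).mono le_rfl (by nlinarith)
  replace b2 := b2.mono le_rfl (show _ ≤ 11 * 10 ^ 6 * s ^ 2 by
    have : ((r + 1) * d) ^ 2 ≤ (10 * s) ^ 2 := pow_le_pow_left₀ (by positivity) d2 2
    have : d * ((r + 1) * d) ≤ ((r + 1) * d) ^ 2 := by nlinarith
    nlinarith)
  have e1 : cx m (Bx x (cC U)) (Bx x (cC U)) =
      cx m (Bx 0 (exF (sh x B))) (Bx 0 (exF (sh x B))) := by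
    have a : Agr r (Bx 0 (sh x (cC (gauge Inv.inv (cmb Inv.inv U) U)))) (Bx 0 (exF (sh x B))) :=
      Bx_agr (f1.sh hx)
    rw [← cx_agr hr a a, ← Bx_eq, cC_gauge, Bx_gauge fun _ => uni_cS _, cx_adF m hr (uni_cS _)]
  have e2 : cx m (cg (sh x B)) (cg (sh x B)) = cx m (sh x B) (sh x B) := by
    rw [cg, cx_sub_left, cx_gr_left g1, cx_sub_right, cx_gr_right g2, sub_zero, sub_zero]
  have e3 : cx m (sh x B) (sh x B) = ((∑ k, m (sh x (reF B k)) (sh x (reF B k)) : ℝ) : ℂ) :=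
    cx_real m (fun e => Bx_real 0 U _) fun e => Bx_real 0 U _
  set A := Bx 0 (exF (sh x B)) - cg (sh x B) with hA
  have e4 : Bx 0 (exF (sh x B)) = A + cg (sh x B) := (sub_add_cancel _ _).symm
  rw [qd, e1, ← Complex.ofReal_re (∑ k, _), ← e3, ← e2, ← Complex.sub_re, e4, cx_add_left,
    cx_add_right m (cg _), ← add_assoc, add_sub_cancel_right]
  refine (Complex.abs_re_le_norm _).trans ((norm_add_le _ _).trans
    ((add_le_add (cx_bd hb b2 (b2.add b3)) (cx_bd hb b3 b2)).trans ?_))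
  have s2 : 0 ≤ s := by linarith
  have : s ^ 4 ≤ s ^ 3 / 10 ^ 4 := by nlinarith [pow_nonneg s2 3]
  have : c * s ^ 4 ≤ c * (s ^ 3 / 10 ^ 4) := mul_le_mul_of_nonneg_left this c0
  nlinarith [mul_nonneg c0 (pow_nonneg s2 3)]

theorem plaq_le {δ : ℝ} {U : Conf} (h : curvG δ U) (h1 : 2000 * δ ≤ 1) (μ ν : Fin 4) :
    ‖(hol Inv.inv U 0 μ ν).q - 1‖ ≤ 3 * ‖dd (Bx 0 (cC U)) 0 μ ν‖ + 10 ^ 7 * δ ^ 2 := by
  have d0 := h.nonneg
  obtain ⟨f1, f2, -⟩ := real_fix (R := 1) h (by push_cast; linarith)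
  push_cast at f2
  have h2 := hol_ap (Ap_exF f2 (by linarith)) (by nlinarith) (by linarith) μ ν
  rw [← hol_agr star f1, hol_cC, hol_gauge, cmb_zero, one_mul, inv_one, mul_one] at h2
  have h3 := (norm_cq ((hol Inv.inv U 0 μ ν).q - 1)).1
  rw [cq_sub, cq_one] at h3
  have h4 := norm_io (dd (Bx 0 (cC U)) 0 μ ν)
  have h5 := norm_le_norm_sub_add (cS (hol Inv.inv U 0 μ ν) - 1) (io (dd (Bx 0 (cC U)) 0 μ ν))
  rw [cS] at h2 h5
  nlinarith

theorem qd_bad {m : BF} {nn r n : ℕ} {cL cU c δ ε : ℝ} (hm : Inv nn r cL cU m) (hL : cL ≤ 20)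
    (hb : Bd r r c m) (c0 : 0 ≤ c) (hn : 0 < n) {U : Conf} (hU : Per n U) (h : curvG δ U)
    (h1 : 10 ^ 4 * ((r + 4) ^ 2 * δ) ≤ 1) (h2 : 10 ^ 8 * δ ^ 2 ≤ ε) (h3 : ¬ curvG ε U) :
    ε ^ 2 / 10 ^ 6 - 10 ^ 12 * c * ((r + 4) ^ 2 * δ) ^ 3 ≤ ∑ x ∈ cube n, qd m U x := by
  simp only [curvG, not_forall, not_le] at h3
  obtain ⟨y, μ, ν, h3⟩ := h3
  have d0 := h.nonneg
  have r0 : (0 : ℝ) ≤ r := r.cast_nonneg
  have p1 := plaq_le (h.sh y)
    (by nlinarith [mul_nonneg r0 d0, mul_nonneg (mul_nonneg r0 r0) d0]) μ ν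
  rw [hol_sh, zero_add] at p1
  set B := Bx 0 (cC (sh y U)) with hB
  set T := ∑ x ∈ cube n, qd m U x
  set er := 10 ^ 12 * c * ((r + 4) ^ 2 * δ) ^ 3
  have p2 : ∑ x ∈ box 2, ∑ k, m (sh x (reF B k)) (sh x (reF B k)) ≤ 625 * (T + er) := by
    refine (sum_le_card_nsmul _ _ (T + er) fun x hx => ?_).trans_eq (by rw [card_box, nsmul_eq_mul]; norm_num)
    have a1 := rebase hm.rng hb c0 hm.gauge (fun u b => (hm.symm _ _).trans (hm.gauge u b))
      (h.sh y) h1 hx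
    have a2 := sum_cube_ge hn (f := qd m U) (fun x v => by rw [← qd_sh, hU.sh_smul])
      (qd_nonneg hm.psd U) (x + y)
    rw [qd_sh] at a1
    linarith [(abs_le.1 a1).1]
  have p3 : ∀ k, ‖dd B 0 μ ν k‖ ^ 2 ≤ 20 * (625 * (T + er)) := fun k => by
    have a1 := hm.lower (reF B k) {0}
    rw [sum_singleton, singleton_zero, zero_add] at a1
    have a2 : 0 ≤ ∑ x ∈ box 2, m (sh x (reF B k)) (sh x (reF B k)) := sum_nonneg fun _ _ => hm.psd _
    have a3 : ∑ x ∈ box 2, m (sh x (reF B k)) (sh x (reF B k)) ≤ _ :=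
      (sum_le_sum fun x _ => single_le_sum (f := fun k => m (sh x (reF B k)) (sh x (reF B k)))
        (fun _ _ => hm.psd _) (mem_univ k)).trans p2
    have a4 := Li.sq_le_nd (reF B k) 0 μ ν
    have a5 : dd B 0 μ ν k = (dd (reF B k) 0 μ ν : ℝ) := by
      apply Complex.ext
      · simp [dd, reF]
      · simp [dd, show ∀ e, (B e k).im = 0 from fun e => Bx_real 0 _ e k]
    rw [a5, Complex.norm_real, Real.norm_eq_abs, sq_abs]
    nlinarith
  obtain ⟨k, -, hk⟩ := exists_max_image univ (fun k => ‖dd B 0 μ ν k‖) univ_nonempty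
  have p4 : ‖dd B 0 μ ν‖ ≤ ‖dd B 0 μ ν k‖ :=
    (pi_norm_le_iff_of_nonneg (norm_nonneg _)).2 fun i => hk i (mem_univ i)
  have e0 : 0 ≤ ε := le_trans (by positivity) h2
  have p5 : ε / 6 ≤ ‖dd B 0 μ ν k‖ := by linarith
  have := pow_le_pow_left₀ (by positivity) p5 2
  nlinarith [p3 k]

theorem per_per {α : Type} (n : ℕ) (U : Lk → α) : Per n (per n U) := fun μ => by
  funext e
  simp only [sh, per, Pi.add_apply, Pi.smul_apply, smul_eq_mul, Int.add_mul_emod_self_left]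

theorem curvG_of_links {σ : ℝ} {U : Conf} (h : ∀ e, ‖(U e).q - 1‖ ≤ σ) : curvG (4 * σ) U := by
  intro x μ ν
  have h1 := S3.norm_mul_sub (U (x, μ) * U (x + un μ, ν) * (U (x + un ν, μ))⁻¹) (U (x, ν))⁻¹
  have h2 := S3.norm_mul_sub (U (x, μ) * U (x + un μ, ν)) (U (x + un ν, μ))⁻¹
  have h3 := S3.norm_mul_sub (U (x, μ)) (U (x + un μ, ν))
  rw [S3.norm_inv_sub] at h1 h2
  rw [hol]
  linarith [h (x, μ), h (x + un μ, ν), h (x + un ν, μ), h (x, ν)]

instance : IsProbabilityMeasure PP := by unfold PP; infer_instance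

/-- the two sided bound on the densities of level `j` -/
def Sw (l : ℕ) (β ε δ Del : ℝ) (M j : ℕ) (E η : ℝ) (m : BF) (φ : Fld → ℂ) : Prop :=
  ∀ n, M ≤ n → ∀ U, Per n U →
    (curvG δ U → ENNReal.ofReal (Real.exp ((E - η) * n ^ 4 - act β m φ n U)) ≤ rho l β j n U ∧
      rhoG l β ε j n U ≤ ENNReal.ofReal (Real.exp ((E + η) * n ^ 4 - act β m φ n U))) ∧
    (¬ curvG δ U → rhoG l β ε j n U ≤ ENNReal.ofReal (Real.exp (E * n ^ 4 - Del)))

open Classical in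
theorem top {l nn r R M j : ℕ} {β ε δ ρ κ c cL cU cB Del E η gam : ℝ} {m : BF} {φ : Fld → ℂ}
    (hB0 : 0 < cB) (hB : ∀ δ : ℝ, 0 ≤ δ → δ ≤ 1 →
      ENNReal.ofReal (cB * δ ^ 3) ≤ haar {g : S3 | ‖g.q - 1‖ ≤ δ})
    (hm : Inv nn r cL cU m) (hL : cL ≤ 20) (hb : Bd r r c m) (c0 : 0 ≤ c) (hφ : Tm R ρ κ φ)
    (sw : Sw l β ε δ Del M j E η m φ) (hM : 0 < M) (b1 : 1 ≤ β) (η0 : 0 ≤ η) (κ0 : 0 ≤ κ)
    (D0 : 0 ≤ Del) (h1 : 10 ^ 4 * ((r + 4) ^ 2 * δ) ≤ 1) (h2 : 10 ^ 8 * δ ^ 2 ≤ ε)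
    (h3 : 1000 * (R + 1) * δ ≤ 1) (h4 : δ + 10 ^ 6 * ((R + 1) * δ) ^ 2 ≤ ρ)
    (h5 : β * (10 ^ 12 * c * ((r + 4) ^ 2 * δ) ^ 3) ≤ 1) (h6 : Del ≤ β * (ε ^ 2 / 10 ^ 6))
    (h7 : 4 * β⁻¹ ≤ δ) (h8 : 12 * c * (40 * (r + 1)) ^ 2 ≤ β)
    (h9 : η + κ + 1 + 4 * (3 * Real.log β + |Real.log cB|) ≤ gam) {n : ℕ} (hn : M ≤ n) :
    ∫⁻ U, rhoG l β ε j n (per n U) ∂PP ≤ ENNReal.ofReal (Real.exp ((E + gam) * n ^ 4)) ∧
    ∫⁻ U, (if curvG ε (per n U) then 0 else rhoG l β ε j n (per n U)) ∂PP ≤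
      ENNReal.ofReal (Real.exp ((E + gam) * n ^ 4 - Del)) ∧
    ENNReal.ofReal (Real.exp ((E - gam) * n ^ 4)) ≤ ∫⁻ U, rho l β j n (per n U) ∂PP := by
  have n0 : 0 < n := hM.trans_le hn
  have n1 : (1 : ℝ) ≤ n ^ 4 := one_le_pow₀ (by exact_mod_cast n0)
  have b0 : 0 < β := by linarith
  have lb : 0 ≤ Real.log β := Real.log_nonneg b1
  have g1 : (η + κ + 1) * n ^ 4 ≤ gam * n ^ 4 :=
    mul_le_mul_of_nonneg_right (by linarith [abs_nonneg (Real.log cB)]) (by positivity)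
  have g2 : 0 ≤ (η + κ) * n ^ 4 := by positivity
  have up : ∀ {f : Conf → ℝ≥0∞} {a : ℝ≥0∞}, (∀ U, f U ≤ a) → ∫⁻ U, f U ∂PP ≤ a := fun h =>
    (lintegral_mono h).trans (by simp)
  have mono : ∀ {a b : ℝ}, a ≤ b → ENNReal.ofReal (Real.exp a) ≤ ENNReal.ofReal (Real.exp b) :=
    fun h => ENNReal.ofReal_le_ofReal (Real.exp_le_exp.2 h)
  refine ⟨up fun U => ?_, up fun U => ?_, ?_⟩
  · obtain ⟨s1, s2⟩ := sw n hn _ (per_per n U)
    by_cases h : curvG δ (per n U)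
    · have a1 := (abs_le.1 (act_sub (β := β) m hφ n h h3 h4)).1
      have a2 : 0 ≤ β * ∑ x ∈ cube n, qd m (per n U) x :=
        mul_nonneg b0.le (sum_nonneg fun x _ => qd_nonneg hm.psd _ x)
      exact (s1 h).2.trans (mono (by linarith))
    · exact (s2 h).trans (mono (by linarith))
  · obtain ⟨s1, s2⟩ := sw n hn _ (per_per n U)
    split_ifs with h'
    · exact zero_le
    by_cases h : curvG δ (per n U)
    · have a1 := (abs_le.1 (act_sub (β := β) m hφ n h h3 h4)).1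
      have a2 := mul_le_mul_of_nonneg_left (qd_bad hm hL hb c0 n0 (per_per n U) h h1 h2 h') b0.le
      exact (s1 h).2.trans (mono (by linarith))
    · exact (s2 h).trans (mono (by linarith))
  · have i0 : 0 < β⁻¹ := inv_pos.2 b0
    set S : Set S3 := {g | ‖g.q - 1‖ ≤ β⁻¹}
    have mS : MeasurableSet S :=
      measurableSet_le (S3.continuous_q.sub continuous_const).norm.measurable measurable_const
    have m1 : ENNReal.ofReal (cB * β⁻¹ ^ 3) ^ (n ^ 4 * 4) ≤ PP (Set.pi (lcube n) fun _ => S) := by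
      rw [PP, Measure.infinitePi_pi _ fun _ _ => mS, prod_const, card_lcube]
      exact pow_le_pow_left' (hB _ i0.le (inv_le_one_of_one_le₀ b1)) _
    have m2 : ∀ U ∈ Set.pi (lcube n) fun _ => S,
        ENNReal.ofReal (Real.exp ((E - η - κ - 1) * n ^ 4)) ≤ rho l β j n (per n U) := by
      intro U hU
      have h' : curvG (4 * β⁻¹) (per n U) := curvG_of_links fun e =>
        hU _ (mem_coe.2 (mem_lcube.2 (SX.md_mem n0 e.1)))
      have h := h'.mono h7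
      have d0 := h.nonneg
      have r0 : (0 : ℝ) ≤ r := r.cast_nonneg
      have a1 := (abs_le.1 (act_sub (β := β) m hφ n h h3 h4)).2
      have a2 : ∑ x ∈ cube n, qd m (per n U) x ≤ β⁻¹ * n ^ 4 := by
        refine (sum_le_card_nsmul _ _ β⁻¹ fun x _ => ?_).trans_eq
          (by rw [card_cube, nsmul_eq_mul, mul_comm, Nat.cast_pow])
        have a3 := (real_fix (R := r) (h'.sh x) (by
          nlinarith [mul_nonneg r0 d0, mul_nonneg (mul_nonneg r0 r0) d0])).2.1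
        rw [qd, Bx_eq, sh_cC]
        refine (Complex.re_le_norm _).trans ((cx_bd hb a3 a3).trans ?_)
        have := mul_le_mul_of_nonneg_right h8 (mul_pos i0 i0).le
        rw [← mul_assoc β, mul_inv_cancel₀ b0.ne', one_mul] at this
        linarith
      have a4 := mul_le_mul_of_nonneg_left a2 b0.le
      rw [← mul_assoc, mul_inv_cancel₀ b0.ne', one_mul] at a4
      exact (mono (by linarith)).trans ((sw n hn _ (per_per n U)).1 h).1
    refine le_trans ?_ ((setLIntegral_mono' (MeasurableSet.pi (Set.to_countable _) fun _ _ => mS)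
      m2).trans (setLIntegral_le_lintegral _ _))
    rw [setLIntegral_const]
    refine le_trans ?_ (mul_le_mul_right m1 _)
    rw [← ENNReal.ofReal_pow (by positivity), ← ENNReal.ofReal_mul (by positivity),
      ← Real.exp_log (show 0 < cB * β⁻¹ ^ 3 by positivity), ← Real.exp_nat_mul, ← Real.exp_add,
      Real.log_mul hB0.ne' (by positivity), Real.log_pow, Real.log_inv]
    refine mono ?_
    have := mul_le_mul_of_nonneg_right h9 (zero_le_one.trans n1)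
    have := mul_le_mul_of_nonneg_right (neg_abs_le (Real.log cB)) (zero_le_one.trans n1)
    push_cast
    linarith

end Pool.Agent.Lib.MP_7f377f_mp.RG.JT
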