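import Pool.Agent.Lib.MP_7f377f_mp.RGTop1
import Pool.Agent.Lib.MP_7f377f_mp.RGStep4
import Pool.Agent.Lib.MP_7f377f_mp.RGLinZ

/-! The induction over the levels. -/

noncomputable section

namespace Pool.Agent.Lib.MP_7f377f_mp.RG.JT

open Finset MeasureTheory
open scoped Quaternion ENNReal Pointwise

attribute [local irreducible] box lbox

theorem inv_mono {n r : ℕ} {cL cU cL' cU' : ℝ} {m : BF} (h : Inv n r cL cU m) (h1 : cL ≤ cL')
    (h2 : cU ≤ cU') : Inv n r cL' cU' m :=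
  { h with
    lower := fun a S => (h.lower a S).trans
      (mul_le_mul_of_nonneg_right h1 (sum_nonneg fun _ _ => h.psd _))
    upper := fun a S T hT => (h.upper a S T hT).trans
      (mul_le_mul_of_nonneg_right h2 (sum_nonneg fun _ _ => Li.nd_nonneg _ _)) }

theorem bd_mono {r r' : ℕ} {c c' : ℝ} {m : BF} (h : Bd r r' c m) (hc : c ≤ c') : Bd r r' c' m :=
  fun a b δ δ' ha hb => (h a b δ δ' ha hb).trans
    (mul_le_mul_of_nonneg_right (mul_le_mul_of_nonneg_right hc ha.nonneg) hb.nonneg)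

theorem bd_of_cv {r : ℕ} {κ : ℝ} {k : BF} (ks : ∀ a b, k a b = k b a) (kr : Rng (r + 1) (r + 1) k)
    (kb : ∀ a δ, Cv r δ a → |k a a| ≤ κ * δ ^ 2) : Bd (r + 1) (r + 1) (32 * κ) k := by
  intro a b δ δ' ha hb
  rcases ha.nonneg.eq_or_lt with rfl | h0
  · simp [kr a b (.inl fun e he => norm_le_zero_iff.1 (ha e he))]
  rcases hb.nonneg.eq_or_lt with rfl | h0'
  · simp [kr a b (.inr fun e he => norm_le_zero_iff.1 (hb e he))]
  have sm : ∀ {a : V} {δ : ℝ} (t : ℝ), |t| = 1 → 0 < δ → Sm (r + 1) δ a →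
      Sm (r + 1) 1 ((t * δ⁻¹) • a) := fun {a δ} t ht h0 h e he => by
    rw [Pi.smul_apply, norm_smul, Real.norm_eq_abs, abs_mul, ht, one_mul, abs_of_pos (inv_pos.2 h0)]
    exact (inv_mul_le_iff₀ h0).2 (by simpa using h e he)
  have h1 := kb _ _ ((sm 1 abs_one h0 ha).add (sm 1 abs_one h0' hb)).cv
  have h2 := kb _ _ ((sm 1 abs_one h0 ha).add (sm (-1) (by simp) h0' hb)).cv
  simp only [map_add, map_smul, LinearMap.add_apply, LinearMap.smul_apply, smul_eq_mul,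
    ks b a] at h1 h2
  have h3 : |δ⁻¹ * δ'⁻¹ * k a b| ≤ 32 * κ := by
    rw [abs_le] at *
    constructor <;> linarith [h1.1, h1.2, h2.1, h2.2]
  rw [abs_mul, abs_of_pos (by positivity), ← mul_inv, inv_mul_le_iff₀ (by positivity)] at h3
  linarith

theorem tm_zero (R : ℕ) (ρ : ℝ) {κ : ℝ} (h : 0 ≤ κ) : Tm R ρ κ 0 :=
  ⟨fun _ _ _ => rfl, fun _ _ _ _ _ => differentiableOn_const 0, fun _ _ => by simpa, rfl,
    fun _ _ => rfl, fun _ _ => rfl⟩

theorem tm_sum {R : ℕ} {ρ : ℝ} {φ : ℕ → Fld → ℂ} (C : ℕ) (h : ∀ i < C, Tm R ρ 1 (φ i)) :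
    Tm R ρ C (∑ i ∈ range C, φ i) := by
  induction C with
  | zero => simpa using tm_zero R ρ le_rfl
  | succ C ih =>
    rw [sum_range_succ, Nat.cast_succ]
    exact (ih fun i hi => h i (by omega)).add (h C (by omega))

/-- the invariant of level `j` -/
def Lev (l r C M : ℕ) (β ε δ ρ Del er : ℝ) (j : ℕ) : Prop :=
  ∃ (nn : ℕ) (m : BF) (φ : ℕ → Fld → ℂ) (E : ℝ),
    Inv nn r (2 + 12 * j / LL l) (2⁻¹ + 2 * j / LL l) m ∧
    (∀ i ≤ C, Tm (r * l ^ i) ρ (((LL l : ℝ) ^ 5)⁻¹ ^ i) (φ i)) ∧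
    Sw l β ε δ Del M j E (er * (2 * (LL l : ℝ) ^ 4) ^ j) m (∑ i ∈ range (C + 1), φ i)

theorem lev_zero {l r C M : ℕ} {β ε δ ρ Del er : ℝ} (hr : 1 ≤ r) (hM : 0 < M) (b0 : 0 ≤ β)
    (h1 : ρ ≤ 1 / 10 ^ 5) (h2 : 10 ^ 8 * β * ρ ^ 3 ≤ 1) (d0 : 0 ≤ δ) (h3 : 2000 * δ ≤ 1)
    (h4 : Del ≤ β * (δ ^ 2 / 2)) (e0 : 0 ≤ er) : Lev l r C M β ε δ ρ Del er 0 := by
  refine ⟨0, m0, fun i => if i = 0 then phi0 β else 0, 12 * β, by simpa using inv_zero r hr,
    fun i _ => ?_, fun n hn U hU => ?_⟩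
  · beta_reduce
    split_ifs with h
    · subst h
      simpa using (phi0_tm b0 h1 hr).mono le_rfl h2
    · exact tm_zero _ _ (by positivity)
  · have : 0 ≤ er * n ^ 4 := by positivity
    simp only [sum_ite_eq', mem_range, Nat.succ_pos, if_true, rho, rhoG, pow_zero, mul_one]
    refine ⟨fun h => ?_, fun h => ENNReal.ofReal_le_ofReal (Real.exp_le_exp.2 ?_)⟩
    · rw [act_zero β n h h3]
      constructor <;> exact ENNReal.ofReal_le_ofReal (Real.exp_le_exp.2 (by linarith))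
    · have := mul_le_mul_of_nonneg_left (wil_bad (hM.trans_le hn) d0 hU h) b0
      linarith

/-- the numerical conditions of a step -/
structure Num (c K l r p : ℕ) (β ε δ ρ G er : ℝ) : Prop where
  r1 : 1000 ≤ r
  r2 : K ≤ r
  r3 : r ^ K ≤ l
  tau : (LL l : ℝ) ^ c * Real.exp (-(r / c)) ≤ 1 / LL l
  ka : 3 * (2 * r + 5) ^ 4 * LL l ≤ β * ρ ^ 2
  b1 : 1 ≤ β
  z1 : 1 ≤ G * √(2 * β * (LL l : ℝ) ^ (c + 1))
  rho : 0 < ρ
  eps : 0 ≤ ε
  rb : (p * 2 + 1) * (r * l ^ (2 * c + 7) / LL l + 4 * LL l ^ (2 * c + 4) + r + 10) + p + 2 ≤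
    r * l ^ (2 * c + 7)
  s1 : (LL l : ℝ) ^ K * ρ ≤ 1
  s2 : 2 * δ ≤ ρ
  s3 : (LL l : ℝ) ^ K * G ≤ δ
  s4 : (LL l : ℝ) ^ K * ε ≤ G
  th : (LL l : ℝ) ^ K * (β * (3 * (r * l ^ (2 * c + 7) : ℕ) * ρ) ^ 3 +
    β * ((LL l : ℝ) ^ c * Real.exp (-(r / c))) * ρ * G +
    (10 + (2 * c + 7 : ℕ)) * (G + (3 * (r * l ^ (2 * c + 7) : ℕ) * ρ) ^ 2) / ρ + G ^ 2 + ρ) ≤
      ((LL l : ℝ) ^ (10 * c + 40))⁻¹
  er : 2⁻¹ ^ p + 2 * Real.exp (-(l : ℝ)) * (G * √(2 * β * (LL l : ℝ) ^ (c + 1))) ^ 2 ≤ er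

theorem lin_step : ∃ c K : ℕ, 1 ≤ c ∧ ∀ (l r j nn : ℕ) (β ρ : ℝ) (m k0 : BF), K ≤ r → r ^ K ≤ l →
    1000 ≤ r → (LL l : ℝ) ^ c * Real.exp (-(r / c)) ≤ 1 / LL l →
    3 * (2 * r + 5) ^ 4 * LL l ≤ β * ρ ^ 2 → 0 < β → 0 < ρ → 12 * (j + 1) ≤ LL l →
    Inv nn r (2 + 12 * j / LL l) (2⁻¹ + 2 * j / LL l) m → (∀ a b, k0 a b = k0 b a) →
    (∀ u b, k0 (gr u) b = 0) → Rng (r + 1) (r + 1) k0 →
    (∀ a δ, Cv r δ a → |k0 a a| ≤ 1 / ρ ^ 2 * δ ^ 2) → ∃ th s nn', 0 ≤ th ∧ th ≤ 1 ∧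
      Lin l r c ((LL l : ℝ) ^ c * Real.exp (-(r / c))) (mt r th m (β⁻¹ • k0)) s ∧
      Bd r r ((LL l : ℝ) ^ c) m ∧ Bd (r + 1) (r + 1) ((LL l : ℝ) ^ c) (β⁻¹ • k0) ∧
      Inv nn' r (2 + 12 * (j + 1 : ℕ) / LL l) (2⁻¹ + 2 * (j + 1 : ℕ) / LL l)
        (mn l (mt r th m (β⁻¹ • k0)) s) := by
  obtain ⟨c, c1, hlin⟩ := lin_main
  obtain ⟨c', hbd⟩ := inv_bd
  refine ⟨c, c + c', c1, fun l r j nn β ρ m k0 r2 r3 r1 tau ka b0 ρ0 hj hm ks kg kr kb => ?_⟩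
  have rp : ∀ a ≤ c + c', r ^ a ≤ l := fun a ha => (Nat.pow_le_pow_right (by omega) ha).trans r3
  have rl : r ≤ l := by simpa using rp 1 (by omega)
  have lL : l ≤ LL l := by unfold LL; omega
  replace hlin := fun cL cU m => hlin l r nn cL cU m (by omega) (rp c (by omega))
  have L1 : (1000 : ℝ) ≤ LL l := by exact_mod_cast r1.trans (rl.trans lL)
  have hc' : (r : ℝ) ^ c' ≤ LL l := by exact_mod_cast (rp c' (by omega)).trans lL
  have hj' : 12 * ((j : ℝ) + 1) ≤ LL l := by exact_mod_cast hj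
  push_cast
  generalize (LL l : ℝ) = L at *
  have iL : 1 / L ≤ 1 / 1000 := one_div_le_one_div_of_le (by norm_num) L1
  have i0 : 0 < 1 / L := by positivity
  have jL : 12 * j / L ≤ 1 := (div_le_one (by positivity)).2 (by linarith)
  have j0 : 0 ≤ 2 * j / L := by positivity
  have j1 : 12 * j / L = 6 * (2 * j / L) := by ring
  set κ := 1 / (β * ρ ^ 2) with hκ
  have κ0 : 0 ≤ κ := by positivity
  have kb' : ∀ a δ, Cv r δ a → |(β⁻¹ • k0) a a| ≤ κ * δ ^ 2 := fun a δ h => by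
    rw [LinearMap.smul_apply, LinearMap.smul_apply, smul_eq_mul, abs_mul,
      abs_of_pos (by positivity)]
    exact (mul_le_mul_of_nonneg_left (kb a δ h) (by positivity)).trans_eq (by rw [hκ]; ring)
  have ks' : ∀ a b, (β⁻¹ • k0) a b = (β⁻¹ • k0) b a := fun a b => by simp [ks a b]
  have κ1 : 3 * (κ * (2 * r + 5) ^ 4) ≤ 1 / L := by
    rw [hκ, le_div_iff₀ (by positivity), one_div, mul_assoc, mul_assoc, mul_left_comm,
      inv_mul_le_iff₀ (by positivity)]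
    linarith
  have κ2 : κ * (2 * r + 1) ^ 4 ≤ κ * (2 * r + 5) ^ 4 := by gcongr; norm_num
  have κ3 : κ * 5 ^ 4 ≤ κ * (2 * r + 5) ^ 4 := by gcongr; simp
  set th := κ * (2 + 12 * j / L) * (2 * r + 5) ^ 4 with hth
  have th0 : 0 ≤ th := by positivity
  have th1 : th ≤ 1 / L := by
    have := mul_le_mul_of_nonneg_right (show 2 + 12 * j / L ≤ 3 by linarith)
      (show 0 ≤ κ * (2 * r + 5) ^ 4 by positivity)
    linarith
  have kr' : Rng (r + 1) (r + 1) (β⁻¹ • k0) := fun a b h => by simp [kr a b h]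
  have hm2 := inv_mono (inv_mt hm (by omega) (by positivity) κ0 ks' (fun u b => by simp [kg u b])
    kr' kb' hth (by linarith)) (show _ ≤ 2 + 12 * j / L + 6 * (1 / L) by
      rw [div_le_iff₀ (by linarith)]
      nlinarith) (show _ ≤ 2⁻¹ + 2 * j / L + 1 / L by linarith)
  obtain ⟨s, lin, hm3⟩ := hlin _ _ _ (tau.trans (by linarith)) (by linarith) (by linarith)
    (by linarith) hm2
  refine ⟨th, s, _, th0, by linarith, lin, bd_mono (hbd nn r _ _ m (by omega) (by linarith) hm)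
    (hc'.trans (le_self_pow₀ (by linarith) (by omega))), bd_mono (bd_of_cv ks' kr' kb')
    (le_trans (by linarith) (one_le_pow₀ (by linarith))), inv_mono hm3 ?_ ?_⟩
  · rw [show 12 * (j + 1) / L = 12 * j / L + 12 * (1 / L) by ring]
    nlinarith
  · rw [show 2 * (j + 1) / L = 2 * j / L + 2 * (1 / L) by ring]
    linarith

theorem num1 {L x t : ℝ} {c : ℕ} (L1 : 1000 ≤ L) (x0 : 0 ≤ x) (t0 : 0 ≤ t)
    (h1 : x ≤ L ^ (2 * c + 8)) (h2 : t ≤ (L ^ (10 * c + 40))⁻¹) : (2 * x + 1) ^ 4 * t ≤ 1 / 100 := by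
  have h3 : 2 * x + 1 ≤ 3 * L ^ (2 * c + 8) := by
    linarith [one_le_pow₀ (n := 2 * c + 8) (show 1 ≤ L by linarith)]
  refine (mul_le_mul (pow_le_pow_left₀ (by positivity) h3 4) h2 t0 (by positivity)).trans ?_
  rw [mul_inv_le_iff₀ (by positivity), show 10 * c + 40 = (2 * c + 8) * 4 + (2 * c + 6) + 2 by ring,
    pow_add L (_ * 4 + _) 2, pow_add L (_ * 4), pow_mul L _ 4, mul_pow]
  have h4 : 0 < (L ^ (2 * c + 8)) ^ 4 := by positivity
  have h5 : 1 * 10 ^ 6 ≤ L ^ (2 * c + 6) * L ^ 2 :=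
    mul_le_mul (one_le_pow₀ (by linarith)) (by nlinarith) (by norm_num) (by positivity)
  nlinarith

theorem num2 {L : ℝ} (c : ℕ) (L1 : 1000 ≤ L) :
    10 * (L ^ (10 * c + 40))⁻¹ ≤ (L ^ 5)⁻¹ ^ (2 * c + 7) := by
  rw [inv_pow, ← pow_mul, show 10 * c + 40 = 5 * (2 * c + 7) + 4 + 1 by omega, pow_succ,
    pow_add _ _ 4, mul_inv_le_iff₀ (by positivity), mul_assoc, inv_mul_cancel_left₀ (by positivity)]
  nlinarith [one_le_pow₀ (n := 4) (show 1 ≤ L by linarith)]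

theorem num3 {r l : ℕ} (r1 : 1000 ≤ r) (l1 : 1 ≤ l) (i : ℕ) :
    r * l ^ (i + 1) / LL l + r / 3 + 4 ≤ r * l ^ i := by
  have h1 : r ≤ r * l ^ i := Nat.le_mul_of_pos_right _ (by positivity)
  have h2 : r * l ^ (i + 1) / LL l ≤ r * l ^ i / 2 := by
    rw [Nat.le_div_iff_mul_le two_pos, ← Nat.mul_le_mul_right_iff (LL_pos l)]
    have := Nat.div_mul_le_self (r * l ^ (i + 1)) (LL l)
    rw [pow_succ] at this ⊢
    unfold LL at this ⊢
    nlinarith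
  omega

theorem num4 {L er x : ℝ} (j : ℕ) (L1 : 1000 ≤ L) (x0 : 0 ≤ x) (h : x ≤ er) :
    L ^ 4 * (er * (2 * L ^ 4) ^ j) + x ≤ er * (2 * L ^ 4) ^ (j + 1) := by
  have h1 : 1 ≤ L ^ 4 := one_le_pow₀ (by linarith)
  have h2 : er * 1 ≤ er * (L ^ 4 * (2 * L ^ 4) ^ j) := mul_le_mul_of_nonneg_left
    (one_le_mul_of_one_le_of_one_le h1 (one_le_pow₀ (by linarith))) (x0.trans h)
  rw [pow_succ _ j]
  linarith

theorem lev_step : ∃ c K : ℕ, 1 ≤ c ∧ ∀ (l r p j : ℕ) (β ε δ ρ G er Del : ℝ),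
    Num c K l r p β ε δ ρ G er → 12 * (j + 1) ≤ LL l →
    Lev l r (2 * c + 7) (LL l ^ K) β ε δ ρ Del er j →
    Lev l r (2 * c + 7) (LL l ^ K) β ε δ ρ Del er (j + 1) := by
  obtain ⟨c, K0, c1, hlin⟩ := lin_step
  obtain ⟨K1, hpush⟩ := push_tm c
  obtain ⟨K2, hfresh⟩ := fresh_tm c
  obtain ⟨K3, hstep⟩ := step c
  obtain ⟨K, k0, k1, k2, k3, k4⟩ : ∃ K, K0 ≤ K ∧ K1 ≤ K ∧ K2 ≤ K ∧ K3 ≤ K ∧ 2 ≤ K :=
    ⟨K0 + K1 + K2 + K3 + 2, by omega, by omega, by omega, by omega, by omega⟩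
  refine ⟨c, K, c1, ?_⟩
  intro l r p j β ε δ ρ G er Del N hj ⟨nn, m, φ, E, hm, hφ, sw⟩
  set C := 2 * c + 7 with hC
  set R := r * l ^ C with hR
  have r1 := N.r1
  have r2 := N.r2
  have rp : ∀ a ≤ K, r ^ a ≤ l := fun a ha => (Nat.pow_le_pow_right (by omega) ha).trans N.r3
  have rl : r ≤ l := by simpa using rp 1 (by omega)
  have lL : l ≤ LL l := by unfold LL; omega
  have ρ0 := N.rho
  have b1 := N.b1
  have b0 : 0 < β := zero_lt_one.trans_le b1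
  have φ0 : Tm r ρ 1 (φ 0) := by simpa using hφ 0 (Nat.zero_le _)
  obtain ⟨k, ks, kg, kr, kb, hχ, hχ3⟩ := φ0.extract ρ0
  obtain ⟨th, s, nn', th0, th1, lin, mb, kb', hm'⟩ := hlin l r j nn β ρ m k (k0.trans r2) (rp _ k0)
    r1 N.tau N.ka b0 ρ0 hj hm ks kg kr kb
  set χ : Fld → ℂ := fun B => φ 0 B - cx k B B with hχd
  set L : ℝ := ((LL l : ℕ) : ℝ) with hL
  set τ := L ^ c * Real.exp (-(r / c)) with hτ
  have L1 : (1000 : ℝ) ≤ L := by rw [hL]; exact_mod_cast r1.trans (rl.trans lL)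
  have L0 : 0 < L := lt_of_lt_of_le (by norm_num) L1
  have L2 : 1 ≤ L := le_trans (by norm_num) L1
  have Lp : ∀ a ≤ K, ∀ x, 0 ≤ x → L ^ a * x ≤ L ^ K * x := fun a ha x hx =>
    mul_le_mul_of_nonneg_right (pow_le_pow_right₀ L2 ha) hx
  have sq : 0 < √(2 * β * L ^ (c + 1)) := Real.sqrt_pos.2 (by positivity)
  have G0 : 0 < G := pos_of_mul_pos_right (a := √(2 * β * L ^ (c + 1)))
    (by rw [mul_comm]; exact zero_lt_one.trans_le N.z1) sq.le
  have τ0 : 0 ≤ τ := by positivity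
  have iL : 1 / L ≤ 1 / 1000 := one_div_le_one_div_of_le (by norm_num) L1
  have l1 : 1 ≤ l := by omega
  have Rm : ∀ i ≤ C, r * l ^ i ≤ R := fun i hi =>
    Nat.mul_le_mul_left _ (Nat.pow_le_pow_right l1 hi)
  have rR : r ≤ R := by simpa using Rm 0 (Nat.zero_le _)
  have RL : R ≤ LL l ^ (2 * c + 8) := by
    rw [hR, show 2 * c + 8 = C + 1 from rfl, pow_succ' (LL l)]
    exact Nat.mul_le_mul (rl.trans lL) (Nat.pow_le_pow_left lL _)
  have q1 : ∀ i, (L ^ 5)⁻¹ ^ i ≤ 1 := fun i =>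
    pow_le_one₀ (by positivity) (inv_le_one_of_one_le₀ (one_le_pow₀ L2))
  set D : Dat := ⟨l, r, β, th, m, β⁻¹ • k, s, χ + ∑ i ∈ range C, φ (i + 1), L ^ (c + 1),
    LL l ^ (2 * c + 4), G * √(2 * β * L ^ (c + 1)),
    p * (2 * (R / LL l + 4 * LL l ^ (2 * c + 4) + r + 10) + 1)⟩ with hD
  have gz : D.g * D.ζ = G := by
    rw [Dat.g, mul_left_comm, inv_mul_cancel₀ sq.ne', mul_one]
  have rb : D.Rb + D.Rs R + 2 ≤ R :=
    le_trans (le_of_eq (by simp only [hD, Dat.Rs, hR, hC]; ring)) N.rb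
  have ok : D.Ok c τ R ρ (10 + C) :=
    { lin := lin
      m_rng := hm.rng
      m_bd := mb
      m_gauge := fun u b => ⟨hm.gauge u b, (hm.symm _ _).trans (hm.gauge u b)⟩
      k_rng := fun a b h => by simp [hD, kr a b h]
      k_bd := kb'
      k_gauge := fun u b => ⟨by simp [hD, kg u b], by simp [hD, ks b, kg u b]⟩
      th0 := th0
      th1 := th1
      psi := (hχ.mono rR (by simp)).add
        (tm_sum C fun i hi => (hφ (i + 1) hi).mono (Rm _ hi) (q1 _))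
      lam := rfl
      num := rfl
      r_ge := r1
      r_le := rp 2 k4
      beta := b1
      rad := RL
      radb := le_trans (by omega) RL
      zeta := N.z1
      tau := τ0
      rho := ρ0 }
  have t0 : ∀ a ≤ K, D.th0 a τ ρ (10 + C) (3 * R * ρ) + L ^ a * ρ ≤ (L ^ (10 * c + 40))⁻¹ :=
    fun a ha => by
      rw [Dat.th0, gz, ← mul_add]
      exact (Lp a ha _ (by positivity)).trans N.th
  have t1 : ∀ a ≤ K, (2 * D.Rb + 1) ^ 4 * D.th0 a τ ρ (10 + C) (3 * R * ρ) ≤ 1 / 100 :=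
    fun a ha => num1 L1 (Nat.cast_nonneg _) (by rw [Dat.th0, gz]; positivity)
      (by rw [hL]; exact_mod_cast ok.radb)
      (le_trans (le_add_of_nonneg_right (by positivity)) (t0 a ha))
  have Kl : K ≤ l := r2.trans rl
  have s1 : ∀ a ≤ K, L ^ a * ρ ≤ 1 := fun a ha => (Lp a ha _ ρ0.le).trans N.s1
  have s3 : ∀ a ≤ K, L ^ a * (D.g * D.ζ) ≤ δ := fun a ha => by
    rw [gz]; exact (Lp a ha _ G0.le).trans N.s3
  have s2 := N.s2
  have s4 : δ ≤ ρ / 2 := by linarith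
  replace hpush := hpush D R τ ρ _ ok (k1.trans Kl) (s1 K1 k1)
  obtain ⟨f1, f2⟩ := hfresh D R τ ρ _ ok (k2.trans Kl) rb (s1 K2 k2)
    ((s3 K2 k2).trans (s4.trans (half_le_self ρ0.le))) (t1 K2 k2)
  obtain ⟨e, he⟩ := hstep D R p τ ρ _ ε δ ok (k3.trans Kl) rb le_rfl (s1 K3 k3)
    s2 (s3 K3 k3) (by rw [gz]; exact (Lp K3 k3 _ N.eps).trans N.s4) N.eps (t1 K3 k3)
  have p0 := hpush r r _ χ hχ (by
    have : r / LL l ≤ 1 := Nat.div_le_of_le_mul (by omega)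
    show r / LL l + r / 3 + 4 ≤ r
    omega) (rR.trans RL) (rR.trans RL)
  have p1 := fun i (hi : i < C) => hpush _ (r * l ^ i) _ _ (hφ (i + 1) hi) (num3 r1 l1 i)
    ((Rm i hi.le).trans RL) ((Rm _ hi).trans RL)
  have q2 : ∀ i, L ^ 4 * (L ^ 5)⁻¹ ^ (i + 1) = 1 / L * (L ^ 5)⁻¹ ^ i := fun i => by
    rw [pow_succ _ i]
    field_simp
  clear hpush hfresh hstep hlin
  set w := (D.wt 1 - D.dt 1).re with hw
  set φ' : ℕ → Fld → ℂ := fun i => (if i = 0 then D.push r χ else 0) +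
    if i < C then D.push (r * l ^ i) (φ (i + 1)) else D.fresh R with hφ'
  have act1 : ∀ n (W : Conf), curvG δ W →
      D.actN n W = act β (mn l D.mm s) (∑ i ∈ range (C + 1), φ' i) n W + w * n ^ 4 := by
    intro n W hW
    rw [Dat.actN, act, ← Nat.cast_pow, ← card_cube, mul_comm w, ← nsmul_eq_mul, ← sum_const,
      ← sum_add_distrib]
    refine sum_congr rfl fun y _ => ?_
    have h1 : curvG (ρ / 2) (sh y W) := (hW.sh y).mono s4
    rw [hw, ← Complex.add_re, hφ', sum_add_distrib, sum_ite_eq', if_pos (by simp), sum_range_succ,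
      if_neg (lt_irrefl _), sum_ite_of_true fun i hi => mem_range.1 hi]
    simp only [Pi.add_apply, Finset.sum_apply]
    rw [Bx_eq y, sh_cC, p0.2.2 _ h1, (f2 _ h1).1,
      sum_congr rfl fun i hi => (p1 i (mem_range.1 hi)).2.2 _ h1, sum_comm]
    simp only [hD, Pi.add_apply, Finset.sum_apply, sum_add_distrib]
    congr 1
    ring
  have act0 : (fun B => D.ψ B + D.β * cx D.k B B) = ∑ i ∈ range (C + 1), φ i := by
    funext B
    have : (β : ℂ) ≠ 0 := Complex.ofReal_ne_zero.2 b0.ne'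
    simp only [hD, hχd, sum_range_succ', Pi.add_apply, cx_smul, Complex.ofReal_inv,
      mul_inv_cancel_left₀ this]
    ring
  refine ⟨_, mn l D.mm s, φ', L ^ 4 * E + e - w, hm', fun i hi => ?_, fun n hn W hW => ?_⟩
  · simp only [hφ']
    rcases hi.eq_or_lt with rfl | hi
    · rw [if_neg (by omega), if_neg (lt_irrefl _), zero_add]
      refine f1.mono le_rfl (le_trans ?_ (num2 c L1))
      have h1 := t0 K2 k2
      have h3 : 0 ≤ L ^ K2 * ρ := by positivity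
      show 10 * _ + L ^ K2 * ρ ≤ _
      linarith only [h1, h3]
    · have h1 := (p1 i hi).1
      rw [show ((LL D.l : ℕ) : ℝ) = L from rfl, q2] at h1
      rw [if_pos hi]
      split_ifs with h0
      · subst h0
        simp only [pow_zero, mul_one] at h1 ⊢
        exact ((p0.2.1 le_rfl hχ3).add h1).mono le_rfl (by linarith only [iL])
      · rw [zero_add]
        exact h1.mono le_rfl (mul_le_of_le_one_left (by positivity) (by linarith only [iL]))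
  · have n1 : LL l ^ K ≤ LL l * n := hn.trans (Nat.le_mul_of_pos_left _ (LL_pos l))
    obtain ⟨g1, g2⟩ := he E (er * (2 * L ^ 4) ^ j) j n
      ((Nat.pow_le_pow_right (LL_pos l) k3).trans hn)
      (fun U hU h => by simpa only [act0, Nat.cast_mul] using ((sw _ n1 U hU).1 h).1)
      (fun U hU h => by simpa only [act0, Nat.cast_mul] using ((sw _ n1 U hU).1 h).2) W hW
    refine ⟨fun h => ?_, fun h => (g1 h).trans_le zero_le⟩
    have h3 : (L ^ 4 * (er * (2 * L ^ 4) ^ j) + (2⁻¹ ^ p + 2 * Real.exp (-(l : ℝ)) * D.ζ ^ 2)) *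
        n ^ 4 ≤ er * (2 * L ^ 4) ^ (j + 1) * n ^ 4 :=
      mul_le_mul_of_nonneg_right (num4 j L1 (by positivity) N.er) (by positivity)
    obtain ⟨g3, g4⟩ := g2 h
    rw [act1 n W h] at g3 g4
    exact ⟨le_trans (ENNReal.ofReal_le_ofReal (Real.exp_le_exp.2 (by linarith only [h3]))) g3,
      g4.trans (ENNReal.ofReal_le_ofReal (Real.exp_le_exp.2 (by linarith only [h3])))⟩

end Pool.Agent.Lib.MP_7f377f_mp.RG.JT
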