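import Pool.Agent.Lib.MP_7f377f_mp.RGTop2

/-! Choice of the parameters. -/

noncomputable section

namespace Pool.Agent.Lib.MP_7f377f_mp.RG.JT

open Finset MeasureTheory Filter
open scoped Quaternion ENNReal Pointwise

theorem ev_pow (C k : ℕ) : ∀ᶠ m : ℕ in atTop, (C * m) ^ k ≤ 3 ^ m := by
  have h := (tendsto_pow_const_div_const_pow_of_one_lt k (show (1 : ℝ) < 3 by norm_num)).const_mul
    ((C : ℝ) ^ k)
  rw [mul_zero] at h
  filter_upwards [h.eventually (gt_mem_nhds zero_lt_one)] with m hm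
  rw [← mul_div_assoc, div_lt_one (by positivity), ← mul_pow] at hm
  exact_mod_cast hm.le

theorem pw {P s : ℝ} (P1 : 10 ^ 12 ≤ P) (s0 : 0 ≤ s) (hs : P ^ 12 * s ≤ 1) {n : ℕ} (hn : n ≤ 11) :
    10 ^ 12 * (P ^ n * s) ≤ 1 := by
  have h1 : (1 : ℝ) ≤ P := le_trans (by norm_num) P1
  have h2 : P ^ n * s ≤ P ^ 11 * s := mul_le_mul_of_nonneg_right (pow_le_pow_right₀ h1 hn) s0
  have h3 : 10 ^ 12 * (P ^ 11 * s) ≤ P * (P ^ 11 * s) :=
    mul_le_mul_of_nonneg_right P1 (by positivity)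
  have h4 : P * (P ^ 11 * s) = P ^ 12 * s := by ring
  linarith

theorem th_ok {P s β τ R κ X Y G ρ : ℝ} (P1 : 10 ^ 12 ≤ P) (s0 : 0 < s) (hs : P ^ 12 * s ≤ 1)
    (hb : β * s ^ 2 = 1) (b0 : 0 ≤ β) (τ0 : 0 ≤ τ) (hτ : P ^ 4 * τ ≤ 1) (R0 : 0 ≤ R)
    (hR : 3 * R ≤ P) (κ0 : 0 ≤ κ) (hκ : κ ≤ P) (X0 : 0 ≤ X) (Y0 : 0 < Y) (hX : X * Y ≤ P)
    (G0 : 0 ≤ G) (ρ0 : 0 < ρ) (hG : G ≤ ρ) (hρ : ρ ≤ P * s) (h : 10 * (X * Y * κ * G) ≤ ρ) :
    X * (β * (3 * R * ρ) ^ 3 + β * τ * ρ * G + κ * (G + (3 * R * ρ) ^ 2) / ρ + G ^ 2 + ρ) ≤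
      Y⁻¹ := by
  have P0 : (0 : ℝ) < P := lt_of_lt_of_le (by norm_num) P1
  have Z0 : 0 ≤ X * Y := by positivity
  have t1 : X * Y * (β * (3 * R * ρ) ^ 3) ≤ P ^ 7 * s :=
    calc _ ≤ P * (β * (P * (P * s)) ^ 3) := by gcongr
      _ = P ^ 7 * s * (β * s ^ 2) := by ring
      _ = _ := by rw [hb, mul_one]
  have t2 : X * Y * (β * τ * ρ * G) ≤ P ^ 3 * τ :=
    calc _ ≤ P * (β * τ * (P * s) * (P * s)) := by gcongr; exact hG.trans hρ
      _ = P ^ 3 * τ * (β * s ^ 2) := by ring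
      _ = _ := by rw [hb, mul_one]
  have t2' : 10 ^ 12 * (P ^ 3 * τ) ≤ 1 :=
    calc _ ≤ P * (P ^ 3 * τ) := by gcongr
      _ = P ^ 4 * τ := by ring
      _ ≤ 1 := hτ
  have t3 : X * Y * (κ * (G + (3 * R * ρ) ^ 2) / ρ) ≤ 1 / 10 + P ^ 5 * s := by
    have e : X * Y * (κ * (G + (3 * R * ρ) ^ 2) / ρ) =
        X * Y * κ * G / ρ + X * Y * κ * (3 * R) ^ 2 * ρ := by field_simp
    have h1 : X * Y * κ * G / ρ ≤ 1 / 10 := by rw [div_le_iff₀ ρ0]; linarith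
    have h2 : X * Y * κ * (3 * R) ^ 2 * ρ ≤ P * P * P ^ 2 * (P * s) := by gcongr
    rw [e]
    linarith [show P * P * P ^ 2 * (P * s) = P ^ 5 * s by ring]
  have p1 := pw P1 s0.le hs (n := 1) (by norm_num)
  have t5 : X * Y * ρ ≤ P ^ 2 * s :=
    calc _ ≤ P * (P * s) := by gcongr
      _ = _ := by ring
  have t4 : X * Y * G ^ 2 ≤ X * Y * ρ := by
    refine mul_le_mul_of_nonneg_left ?_ Z0
    rw [pow_one] at p1
    nlinarith
  have p2 := pw P1 s0.le hs (n := 2) (by norm_num)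
  have p5 := pw P1 s0.le hs (n := 5) (by norm_num)
  have p7 := pw P1 s0.le hs (n := 7) (by norm_num)
  rw [← one_div, le_div_iff₀ Y0, mul_right_comm]
  simp only [mul_add (X * Y)]
  linarith

theorem rb_ok {r l c : ℕ} (r1 : 1000 ≤ r) (rl : r ≤ l) (hl : 3 ^ (2 * c + 5) ≤ l) :
    (LL l / 8 * 2 + 1) * (r * l ^ (2 * c + 7) / LL l + 4 * LL l ^ (2 * c + 4) + r + 10) +
      LL l / 8 + 2 ≤ r * l ^ (2 * c + 7) := by
  have h1 : LL l ^ (2 * c + 5) ≤ l ^ (2 * c + 6) :=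
    calc _ ≤ (3 * l) ^ (2 * c + 5) := Nat.pow_le_pow_left (by unfold LL; omega) _
      _ = 3 ^ (2 * c + 5) * l ^ (2 * c + 5) := mul_pow _ _ _
      _ ≤ l * l ^ (2 * c + 5) := Nat.mul_le_mul_right _ hl
      _ = _ := by ring
  have h2 : 1000 * l ^ (2 * c + 6) ≤ r * l ^ (2 * c + 7) :=
    Nat.mul_le_mul r1 (Nat.pow_le_pow_right (by omega) (by omega))
  have h3 := Nat.div_mul_le_self (r * l ^ (2 * c + 7)) (LL l)
  have h4 : LL l ≤ LL l ^ (2 * c + 4) := Nat.le_self_pow (by omega) _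
  have h5 : 2 * (LL l / 8 * 2 + 1) ≤ LL l := by unfold LL; omega
  have h6 : r + 10 ≤ LL l := by unfold LL; omega
  have h7 : LL l / 8 + 2 ≤ LL l := by unfold LL; omega
  rw [pow_succ] at h1
  generalize r * l ^ (2 * c + 7) = R at *
  generalize R / LL l = q at *
  generalize LL l ^ (2 * c + 4) = Z at *
  generalize LL l / 8 * 2 + 1 = p at *
  nlinarith

theorem er_ok {m N j : ℕ} {l : ℕ} (hl : LL l = 9 ^ m) (hj : j ≤ 3 ^ m)
    (h : 9 * (16 * m + 4 * m * N + 5) ≤ 3 ^ m) :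
    (2⁻¹ ^ (LL l / 8) + 2 * Real.exp (-(l : ℝ)) * (2 * (LL l : ℝ) ^ N)) *
      (2 * (LL l : ℝ) ^ 4) ^ j ≤ 1 := by
  have e9 : (9 : ℕ) ^ m = 3 ^ m * 3 ^ m := mul_pow 3 3 m
  have h1 : (LL l : ℝ) ≤ 2 ^ (4 * m) := by
    rw [hl, pow_mul]
    push_cast
    gcongr
    norm_num
  have h2 : (2 * (LL l : ℝ) ^ 4) ^ j ≤ 2 ^ ((16 * m + 1) * 3 ^ m) :=
    calc _ ≤ (2 * ((2 : ℝ) ^ (4 * m)) ^ 4) ^ j := by gcongr
      _ = 2 ^ ((16 * m + 1) * j) := by rw [← pow_mul, ← pow_succ', ← pow_mul]; congr 2; ring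
      _ ≤ _ := pow_le_pow_right₀ one_le_two (Nat.mul_le_mul_left _ hj)
  have h3 : Real.exp (-(l : ℝ)) ≤ 2⁻¹ ^ l := by
    rw [Real.exp_neg, inv_pow]
    refine inv_anti₀ (by positivity) ?_
    rw [← mul_one (l : ℝ), Real.exp_nat_mul]
    gcongr
    linarith [Real.add_one_le_exp 1]
  have h4 : (LL l : ℝ) ^ N ≤ 2 ^ (4 * m * N) := by rw [pow_mul _ _ N]; gcongr
  have key : ∀ a b : ℕ, b + 1 ≤ a → (2⁻¹ : ℝ) ^ a * 2 ^ b ≤ 2⁻¹ := fun a b hab => by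
    rw [inv_pow, inv_mul_le_iff₀ (by positivity), le_mul_inv_iff₀ two_pos, ← pow_succ]
    exact pow_le_pow_right₀ one_le_two hab
  have x1 : 1 ≤ 3 ^ m := Nat.one_le_pow _ _ (by norm_num)
  have hl' : 2 * l + 1 = 3 ^ m * 3 ^ m := by rw [← e9, ← hl]; rfl
  have hx := Nat.mul_le_mul_right (3 ^ m) h
  have k1 := key (LL l / 8) ((16 * m + 1) * 3 ^ m) (by
    rw [Nat.le_div_iff_mul_le (by norm_num), hl, e9]
    generalize 3 ^ m = x at *
    nlinarith [Nat.zero_le (m * N * x), Nat.zero_le (m * x)])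
  have k2 := key l (2 + 4 * m * N + (16 * m + 1) * 3 ^ m) (by
    generalize 3 ^ m = x at *
    nlinarith [Nat.zero_le (m * x), Nat.mul_le_mul_left (m * N) x1])
  calc _ ≤ (2⁻¹ ^ (LL l / 8) + 2 * 2⁻¹ ^ l * (2 * (2 : ℝ) ^ (4 * m * N))) *
        2 ^ ((16 * m + 1) * 3 ^ m) := by gcongr
    _ = 2⁻¹ ^ (LL l / 8) * 2 ^ ((16 * m + 1) * 3 ^ m) +
        2⁻¹ ^ l * 2 ^ (2 + 4 * m * N + (16 * m + 1) * 3 ^ m) := by rw [pow_add, pow_add]; ring
    _ ≤ 1 := by linarith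

theorem top_ok {P s β c r R δ ε ρ : ℝ} (P1 : 10 ^ 12 ≤ P) (s0 : 0 < s) (hs : P ^ 12 * s ≤ 1)
    (hb : β * s ^ 2 = 1) (hc : c ≤ P) (r0 : 0 ≤ r) (hr : r + 4 ≤ P) (R0 : 0 ≤ R)
    (hR : R + 1 ≤ P) (d0 : s ≤ δ) (hd : δ ≤ P * s) (he : s ≤ ε) (hρ : 2 * δ ≤ ρ) :
    10 ^ 4 * ((r + 4) ^ 2 * δ) ≤ 1 ∧ 10 ^ 8 * δ ^ 2 ≤ ε ∧ 1000 * (R + 1) * δ ≤ 1 ∧
    δ + 10 ^ 6 * ((R + 1) * δ) ^ 2 ≤ ρ ∧ β * (10 ^ 12 * c * ((r + 4) ^ 2 * δ) ^ 3) ≤ 1 ∧
    4 * β⁻¹ ≤ δ ∧ 12 * c * (40 * (r + 1)) ^ 2 ≤ β := by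
  have P0 : (0 : ℝ) < P := lt_of_lt_of_le (by norm_num) P1
  have δ0 : 0 < δ := s0.trans_le d0
  have b0 : 0 < β := pos_of_mul_pos_right (a := s ^ 2) (by rw [mul_comm, hb]; norm_num)
    (by positivity)
  have bi : β⁻¹ = s ^ 2 := inv_eq_of_mul_eq_one_right hb
  have p0 := pw P1 s0.le hs (n := 0) (by norm_num)
  have p2 := pw P1 s0.le hs (n := 2) (by norm_num)
  have p3 := pw P1 s0.le hs (n := 3) (by norm_num)
  have p10 := pw P1 s0.le hs (n := 10) (by norm_num)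
  have q1 : (r + 4) ^ 2 * δ ≤ P ^ 3 * s :=
    calc _ ≤ P ^ 2 * (P * s) := by gcongr
      _ = _ := by ring
  have q2 : (R + 1) * δ ≤ P ^ 2 * s :=
    calc _ ≤ P * (P * s) := by gcongr
      _ = _ := by ring
  have q3 : δ ^ 2 ≤ P ^ 2 * s * s :=
    calc _ ≤ (P * s) ^ 2 := by gcongr
      _ = _ := by ring
  have q4 : ((R + 1) * δ) ^ 2 ≤ P ^ 3 * s * δ :=
    calc _ = (R + 1) * ((R + 1) * δ) * δ := by ring
      _ ≤ P * (P ^ 2 * s) * δ := by gcongr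
      _ = _ := by ring
  have q5 : β * (10 ^ 12 * c * ((r + 4) ^ 2 * δ) ^ 3) ≤ 10 ^ 12 * (P ^ 10 * s) :=
    calc _ ≤ β * (10 ^ 12 * P * (P ^ 3 * s) ^ 3) := by gcongr
      _ = 10 ^ 12 * (P ^ 10 * s) * (β * s ^ 2) := by ring
      _ = _ := by rw [hb, mul_one]
  have q6 : 12 * c * (40 * (r + 1)) ^ 2 * s ^ 2 ≤ 10 ^ 12 * (P ^ 3 * s) * s :=
    calc _ ≤ 12 * P * (40 * P) ^ 2 * s ^ 2 := by gcongr; linarith
      _ = 19200 * (P ^ 3 * s) * s := by ring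
      _ ≤ _ := by gcongr; norm_num
  rw [pow_zero, one_mul] at p0
  refine ⟨by linarith, by nlinarith, by linarith, by nlinarith, by linarith, by nlinarith, ?_⟩
  refine le_of_mul_le_mul_right ?_ (show 0 < s ^ 2 by positivity)
  nlinarith

theorem sand_main : ∃ K : ℕ, ∀ K2 : ℕ, ∃ B m0 : ℕ, 1 ≤ B ∧ ∀ m ≥ m0, ∀ b : ℝ,
    ((9 : ℝ) ^ m) ^ B ≤ b → b ≤ ((9 : ℝ) ^ m) ^ (2 * B) → ∃ eps : ℝ, 0 < eps ∧ eps ≤ (((9 : ℝ) ^ m) ^ 10)⁻¹ ∧
      ((9 : ℝ) ^ m) ^ K2 ≤ b * eps ^ 2 ∧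
      Sand ((9 ^ m - 1) / 2) b eps (3 ^ m) ((9 ^ m) ^ K) ((9 : ℝ) ^ m) (((9 : ℝ) ^ m) ^ K2) := by
  obtain ⟨c, K, c1, hstep⟩ := lev_step
  obtain ⟨c', hbd⟩ := inv_bd
  obtain ⟨cB, hB0, hB⟩ := haar_ball
  refine ⟨K, fun K2 => ?_⟩
  obtain ⟨a, ha⟩ : ∃ a, a = K2 + 3 := ⟨_, rfl⟩
  obtain ⟨T, hT⟩ : ∃ T, T = a + 3 * K + 20 * c + 100 := ⟨_, rfl⟩
  obtain ⟨C1, hC1⟩ : ∃ C1, C1 = 3 * c * (c + 4 * T) + 1000 + K + c' := ⟨_, rfl⟩
  obtain ⟨m0, hm0⟩ := eventually_atTop.1 (((ev_pow C1 (K + c' + 1)).and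
    (ev_pow (9 * (21 + 4 * (2 * (a + K) + (c + 1)))) 1)).and
    ((ev_pow (2 * c + 10 + 72 * (24 * T) + 4 * ⌈|Real.log cB|⌉₊) 1).and
    (eventually_ge_atTop (2 * c + 26))))
  refine ⟨24 * T, m0, by omega, fun m hm b hb1 hb2 => ?_⟩
  obtain ⟨⟨e1, e2⟩, e3, e4⟩ := hm0 m hm
  rw [pow_one] at e2 e3
  set l := (9 ^ m - 1) / 2 with hl
  have e9 : (9 : ℕ) ^ m = 3 ^ m * 3 ^ m := mul_pow 3 3 m
  have hLL : LL l = 9 ^ m := by
    have h1 : 9 ^ m % 2 = 1 := Nat.odd_iff.1 (Odd.pow (by decide))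
    unfold LL
    omega
  have x1 : 10 ^ 12 ≤ 3 ^ m := le_trans (by norm_num) (Nat.pow_le_pow_right three_pos
    (show 26 ≤ m by omega))
  have xl : 3 ^ m ≤ l := by
    have : 2 * l + 1 = 3 ^ m * 3 ^ m := by rw [← e9, ← hLL]; rfl
    have := Nat.mul_le_mul_right (3 ^ m) x1
    omega
  have lL : l ≤ LL l := by unfold LL; omega
  have hL : (9 : ℝ) ^ m = LL l := by rw [hLL]; push_cast; rfl
  have lg : (LL l : ℝ) ≤ Real.exp (3 * m) := by
    rw [← hL, mul_comm, Real.exp_nat_mul]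
    gcongr
    have := Real.quadratic_le_exp_of_nonneg (show (0 : ℝ) ≤ 1 by norm_num)
    rw [show (3 : ℝ) = (3 : ℕ) * 1 by norm_num, Real.exp_nat_mul]
    exact le_trans (by norm_num) (pow_le_pow_left₀ (by norm_num) this 3)
  rw [hL] at hb1 hb2 ⊢
  rw [← hLL]
  set r := C1 * m with hr
  have r0 : C1 ≤ r := Nat.le_mul_of_pos_right _ (by omega)
  have r1 : 1000 ≤ r := by omega
  have rp : ∀ n ≤ K + c' + 1, r ^ n ≤ l := fun n hn =>
    ((Nat.pow_le_pow_right (by omega) hn).trans e1).trans xl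
  have rl : r ≤ l := by simpa using rp 1 (by omega)
  set R := r * l ^ (2 * c + 7) with hR
  have RL : R ≤ LL l ^ (2 * c + 8) := by
    rw [hR, pow_succ' (LL l)]
    exact Nat.mul_le_mul (rl.trans lL) (Nat.pow_le_pow_left lL _)
  have rL : 2 * r + 1 ≤ LL l := by unfold LL; omega
  have hrb := rb_ok r1 rl ((Nat.pow_le_pow_right three_pos (show 2 * c + 5 ≤ m by omega)).trans xl)
  have her := fun j hj => er_ok (N := 2 * (a + K) + (c + 1)) (j := j) hLL hj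
    (le_trans (by linarith only [show 1 ≤ m by omega]) e2)
  have hj : ∀ j ≤ 3 ^ m, 12 * j ≤ LL l := fun j hj => by
    rw [hLL, e9]
    exact Nat.mul_le_mul (le_trans (by norm_num) x1) hj
  set L : ℝ := ((LL l : ℕ) : ℝ) with hL'
  have L1 : (10 : ℝ) ^ 12 ≤ L := by rw [hL']; exact_mod_cast x1.trans (xl.trans lL)
  have L2 : 1 ≤ L := le_trans (by norm_num) L1
  have L0 : 0 < L := zero_lt_one.trans_le L2
  have Lp : ∀ {n n' : ℕ}, n ≤ n' → L ^ n ≤ L ^ n' := fun h => pow_le_pow_right₀ L2 h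
  have Lq : ∀ {n n' : ℕ} {x : ℝ}, x ≤ 10 ^ 12 → n + 1 ≤ n' → x * L ^ n ≤ L ^ n' :=
    fun {n n' x} hx h => (mul_le_mul_of_nonneg_right (hx.trans L1) (by positivity)).trans
      (by rw [← pow_succ']; exact Lp h)
  set P := L ^ T with hP
  have LP : L ≤ P := by simpa using Lp (show 1 ≤ T by omega)
  have P1 := L1.trans LP
  have b1 : 1 ≤ b := (one_le_pow₀ L2).trans hb1
  have b0 : 0 < b := zero_lt_one.trans_le b1
  obtain ⟨s, s0, hb⟩ : ∃ s : ℝ, 0 < s ∧ b * s ^ 2 = 1 :=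
    ⟨(√b)⁻¹, by positivity, by rw [inv_pow, Real.sq_sqrt b0.le, mul_inv_cancel₀ b0.ne']⟩
  have hs : P ^ 12 * s ≤ 1 := by
    refine (pow_le_one_iff_of_nonneg (by positivity) two_ne_zero).1 ?_
    rw [← hb, mul_pow, hP, ← pow_mul, ← pow_mul, show T * (12 * 2) = 24 * T by ring]
    exact mul_le_mul_of_nonneg_right hb1 (by positivity)
  have p1 := pw P1 s0.le hs (n := 1) (by norm_num)
  have p3 := pw P1 s0.le hs (n := 3) (by norm_num)
  rw [pow_one] at p1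
  have Ls : ∀ {n : ℕ}, n ≤ T → L ^ n * s ≤ P * s := fun h =>
    mul_le_mul_of_nonneg_right (Lp h) s0.le
  have Lb : ∀ n : ℕ, b * (L ^ n * s) ^ 2 = L ^ (2 * n) := fun n => by
    rw [mul_pow, mul_left_comm, hb, mul_one, ← pow_mul, mul_comm]
  have rL' : 2 * (r : ℝ) + 1 ≤ L := by rw [hL']; exact_mod_cast rL
  have RL' : (R : ℝ) ≤ L ^ (2 * c + 8) := by rw [hL']; exact_mod_cast RL
  have R3 : 3 * (R : ℝ) ≤ P := (mul_le_mul_of_nonneg_left RL' (by norm_num)).trans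
    (Lq (by norm_num) (by omega))
  have hτ : P ^ 4 * (L ^ c * Real.exp (-(r / c))) ≤ 1 := by
    have c0 : (0 : ℝ) < c := by exact_mod_cast c1
    rw [hP, ← pow_mul, ← mul_assoc, ← pow_add, Real.exp_neg, mul_inv_le_iff₀ (Real.exp_pos _),
      one_mul]
    refine (pow_le_pow_left₀ L0.le lg _).trans ?_
    rw [← Real.exp_nat_mul, Real.exp_le_exp, le_div_iff₀ c0]
    exact_mod_cast (show (T * 4 + c) * (3 * m) * c ≤ r by
      rw [hr, hC1]; linarith only [Nat.zero_le ((1000 + K + c') * m)])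
  have τ0 : 0 ≤ L ^ c * Real.exp (-(r / c)) := by positivity
  have cL : (2 * c + 17 : ℝ) ≤ L := by
    have : 2 * c + 17 ≤ LL l := le_trans (le_trans (by omega)
      (Nat.le_mul_of_pos_right _ (show 0 < m by omega))) (e3.trans (xl.trans lL))
    rw [hL']
    exact_mod_cast this
  set ε := L ^ a * s with hε
  set G := L ^ (a + K) * s with hG
  set δ := L ^ (a + 2 * K) * s with hδ
  set ρ := L ^ (a + 2 * K + 10 * c + 43) * s with hρ
  have zq : (G * √(2 * b * L ^ (c + 1))) ^ 2 = 2 * L ^ (2 * (a + K) + (c + 1)) := by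
    rw [mul_pow, Real.sq_sqrt (by positivity), pow_add _ (2 * _), ← Lb]
    ring
  have s2 : 2 * δ ≤ ρ := by
    rw [hδ, ← mul_assoc]
    exact mul_le_mul_of_nonneg_right (Lq (by norm_num) (by omega)) s0.le
  have ρP : ρ ≤ P * s := Ls (by omega)
  have δP : δ ≤ P * s := Ls (by omega)
  set er := 2⁻¹ ^ (LL l / 8) + 2 * Real.exp (-(l : ℝ)) * (2 * L ^ (2 * (a + K) + (c + 1))) with her'
  have N : Num c K l r (LL l / 8) b ε δ ρ G er :=
    { r1 := r1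
      r2 := by omega
      r3 := rp K (by omega)
      tau := by
        rw [le_div_iff₀ L0, mul_comm]
        exact (mul_le_mul_of_nonneg_right (LP.trans (le_self_pow₀ (L2.trans LP) four_ne_zero))
          τ0).trans hτ
      ka := by
        rw [Lb]
        calc _ ≤ 3 * (2 * L) ^ 4 * L := by gcongr; linarith
          _ = 48 * L ^ 5 := by ring
          _ ≤ _ := Lq (by norm_num) (by omega)
      b1 := b1
      z1 := (one_le_sq_iff₀ (by positivity)).1 (by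
        rw [zq]
        linarith [one_le_pow₀ (n := 2 * (a + K) + (c + 1)) L2])
      rho := by positivity
      eps := by positivity
      rb := hrb
      s1 := by
        rw [hρ, ← mul_assoc, ← pow_add]
        exact (Ls (by omega)).trans (by linarith)
      s2 := s2
      s3 := by rw [hG, ← mul_assoc, ← pow_add, show K + (a + K) = a + 2 * K by ring]
      s4 := by rw [hε, ← mul_assoc, ← pow_add, add_comm]
      th := th_ok P1 s0 hs hb b0.le τ0 hτ (Nat.cast_nonneg _) R3 (by positivity)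
        (by push_cast; linarith) (by positivity) (by positivity)
        (by rw [← pow_add]; exact Lp (by omega)) (by positivity) (by positivity)
        (mul_le_mul_of_nonneg_right (Lp (by omega)) s0.le) ρP (by
          calc _ ≤ 10 * (L ^ K * L ^ (10 * c + 40) * L * (L ^ (a + K) * s)) := by
                gcongr
                push_cast
                linarith
            _ = 10 * L ^ (a + 2 * K + 10 * c + 41) * s := by ring
            _ ≤ _ := mul_le_mul_of_nonneg_right (Lq (by norm_num) (by omega)) s0.le)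
      er := by rw [zq] }
  have M0 : 0 < LL l ^ K := pow_pos (LL_pos l) K
  have lev : ∀ j ≤ 3 ^ m, Lev l r (2 * c + 7) (LL l ^ K) b ε δ ρ (L ^ K2) er j := fun j h => by
    induction j with
    | zero =>
      refine lev_zero (by omega) M0 b0.le (by linarith) ?_ (by positivity) (by linarith) ?_
        (by positivity)
      · calc _ ≤ 10 ^ 12 * b * (P * s) ^ 3 := by gcongr <;> norm_num
          _ = 10 ^ 12 * (P ^ 3 * s) * (b * s ^ 2) := by ring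
          _ ≤ 1 := by rw [hb, mul_one]; exact p3
      · rw [← mul_div_assoc, Lb, le_div_iff₀ two_pos, mul_comm]
        exact Lq (by norm_num) (by omega)
    | succ j ih => exact hstep _ _ _ _ _ _ _ _ _ _ _ N (hj _ h) (ih (by omega))
  have sε : s ≤ ε := le_mul_of_one_le_left s0.le (one_le_pow₀ L2)
  refine ⟨ε, by positivity, ?_, by rw [Lb]; exact Lp (by omega), fun j h => ?_⟩
  · rw [← one_div, le_div_iff₀ (by positivity), hε, mul_right_comm, ← pow_add]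
    exact (Ls (by omega)).trans (by linarith)
  obtain ⟨nn, mm, φ, E, hm, hφ, sw⟩ := lev j h
  have jL : 12 * (j : ℝ) / L ≤ 1 := by
    rw [div_le_one L0, hL']
    exact_mod_cast hj j h
  have j1 : 12 * (j : ℝ) / L = 6 * (2 * j / L) := by ring
  have rc : (r : ℝ) ^ c' ≤ L := by rw [hL']; exact_mod_cast (rp c' (by omega)).trans lL
  have R1 : (1 : ℝ) ≤ R := by
    exact_mod_cast (show 1 ≤ R from Nat.mul_pos (by omega) (pow_pos (by omega) _))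
  obtain ⟨t1, t2, t3, t4, t5, t7, t8⟩ := top_ok (c := (r : ℝ) ^ c') (r := r) (R := R) P1 s0 hs hb
    (rc.trans LP) r.cast_nonneg (by
      have : (1000 : ℝ) ≤ r := by exact_mod_cast r1
      linarith) R.cast_nonneg (by linarith) (le_mul_of_one_le_left s0.le (one_le_pow₀ L2)) δP sε s2
  refine ⟨E, fun n hn => top hB0 hB hm (by linarith) (hbd nn r _ _ mm (by omega) (by linarith) hm)
    (by positivity) (tm_sum (2 * c + 7 + 1) fun i hi => (hφ i (by omega)).mono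
      (Nat.mul_le_mul_left _ (Nat.pow_le_pow_right (by omega) (by omega)))
      (pow_le_one₀ (by positivity) (inv_le_one_of_one_le₀ (one_le_pow₀ L2)))) sw M0 b1
    (by positivity) (by positivity) (by positivity) t1 t2 t3 t4 t5 ?_ t7 t8 ?_ hn⟩
  · rw [← mul_div_assoc, Lb, le_div_iff₀ (by norm_num), mul_comm]
    exact Lq (by norm_num) (by omega)
  · have h1 : Real.log b ≤ (2 * (24 * T) : ℕ) * (3 * m) := by
      rw [Real.log_le_iff_le_exp b0, Real.exp_nat_mul]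
      exact hb2.trans (pow_le_pow_left₀ L0.le lg _)
    have h2 : ((2 * c + 10 + 72 * (24 * T) + 4 * ⌈|Real.log cB|⌉₊) * m : ℕ) ≤ L := by
      rw [hL']
      exact_mod_cast e3.trans (xl.trans lL)
    have h3 := Nat.le_ceil |Real.log cB|
    have h4 : (1 : ℝ) ≤ m := by exact_mod_cast (show 1 ≤ m by omega)
    have h5 := mul_le_mul_of_nonneg_left h4
      (show (0 : ℝ) ≤ 2 * c + 10 + 4 * ⌈|Real.log cB|⌉₊ by positivity)
    have h6 := her j h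
    push_cast at h1 h2 ⊢
    linarith

theorem sand_main' : ∃ K : ℕ, 2 ≤ K ∧ ∀ K2 : ℕ, ∃ B m0 : ℕ, 1 ≤ B ∧ ∀ m l : ℕ, m0 ≤ m →
    LL l = 9 ^ m → ∀ β : ℝ, (LL l : ℝ) ^ B ≤ β → β ≤ (LL l : ℝ) ^ (2 * B) → ∃ eps : ℝ, 0 ≤ eps ∧
      eps * (LL l : ℝ) ^ 10 ≤ 1 ∧ (LL l : ℝ) ^ K2 ≤ β * eps ^ 2 ∧
      Sand l β eps (3 ^ m) (LL l ^ K) (LL l) ((LL l : ℝ) ^ K2) := by
  obtain ⟨K, h⟩ := sand_main
  refine ⟨K + 2, by omega, fun K2 => ?_⟩
  obtain ⟨B, m0, B1, h⟩ := h K2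
  refine ⟨B, m0, B1, fun m l hm hl β h1 h2 => ?_⟩
  have hL : (9 : ℝ) ^ m = LL l := by rw [hl]; push_cast; rfl
  have hl' : (9 ^ m - 1) / 2 = l := by rw [← hl]; unfold LL; omega
  obtain ⟨eps, e0, e1, e2, e3⟩ := h m hm β (by rwa [hL]) (by rwa [hL])
  rw [hL] at e1 e2 e3
  rw [hl', ← hl] at e3
  have L0 : (0 : ℝ) < LL l := by exact_mod_cast LL_pos l
  refine ⟨eps, e0.le, (le_mul_inv_iff₀ (by positivity)).1 (by rwa [one_mul]), e2, fun j hj => ?_⟩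
  obtain ⟨E, hE⟩ := e3 j hj
  exact ⟨E, fun n hn => hE n ((Nat.pow_le_pow_right (LL_pos l) (by omega)).trans hn)⟩

end Pool.Agent.Lib.MP_7f377f_mp.RG.JT
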