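import Pool.Agent.Lib.MP_7f377f_mp.S10Wei

/-! The cross theorem of Bernstein: separately holomorphic along real lines implies jointly
holomorphic. -/

noncomputable section

namespace Pool.Agent.Lib.MP_7f377f_mp.S10

open Metric Set Filter Topology Polynomial
open scoped Nat

variable {E : Type*} [NormedAddCommGroup E] [NormedSpace ℂ E]

/-- interpolation nodes -/
def nd (m : ℕ) (j : Fin (m + 1)) : ℝ := (j : ℕ) / (m + 1)

theorem nd_abs (m : ℕ) (j : Fin (m + 1)) : |nd m j| ≤ 1 := by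
  have : ((j : ℕ) : ℝ) ≤ m + 1 := by exact_mod_cast j.2.le
  rw [nd, abs_of_nonneg (by positivity), div_le_one (by positivity)]; exact this

theorem nd_inj (m : ℕ) : Function.Injective fun j => (nd m j : ℂ) := fun i j h => by
  have h1 : nd m i = nd m j := Complex.ofReal_injective h
  have : (0 : ℝ) < m + 1 := by positivity
  rw [nd, nd, div_left_inj' this.ne'] at h1
  exact Fin.ext (by exact_mod_cast h1)

/-- Lagrange basis -/
def lg (m : ℕ) (j : Fin (m + 1)) : ℂ[X] := Lagrange.basis Finset.univ (fun j => (nd m j : ℂ)) j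

theorem lg_repr (m : ℕ) {f : ℂ[X]} (hf : f.natDegree ≤ m) (z : ℂ) :
    ∑ j, f.eval (nd m j : ℂ) * (lg m j).eval z = f.eval z := by
  have h := Lagrange.eq_interpolate (s := Finset.univ) (v := fun j => (nd m j : ℂ)) (f := f)
    (nd_inj m).injOn (lt_of_le_of_lt (degree_le_of_natDegree_le hf) (by
      simp only [Finset.card_univ, Fintype.card_fin]; exact_mod_cast Nat.lt_succ_self m))
  conv_rhs => rw [h]
  simp [Lagrange.interpolate_apply, eval_finsetSum, lg]

theorem lg_deg (m : ℕ) (j : Fin (m + 1)) : (lg m j).natDegree = m := by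
  rw [lg, Lagrange.natDegree_basis (nd_inj m).injOn (Finset.mem_univ _)]; simp

theorem prod_dist (j k : ℕ) :
    ∏ l ∈ (Finset.range (j + k + 1)).erase j, |(j : ℝ) - l| = j ! * k ! := by
  induction k with
  | zero =>
    rw [add_zero, Finset.range_add_one, Finset.erase_insert (by simp), ← Finset.prod_range_reflect]
    rw [← Finset.prod_range_add_one_eq_factorial]
    simp only [Nat.factorial_zero, Nat.cast_one, mul_one, Nat.cast_prod]
    refine Finset.prod_congr rfl fun l hl => ?_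
    have : l < j := Finset.mem_range.1 hl
    rw [Nat.cast_sub (by omega), Nat.cast_sub (by omega), abs_of_nonneg] <;> push_cast
    · ring
    · have : (0 : ℝ) ≤ l := by positivity
      linarith
  | succ k ih =>
    rw [← add_assoc, Finset.range_add_one, Finset.erase_insert_of_ne (by omega),
      Finset.prod_insert (by simp), ih, Nat.factorial_succ, abs_of_nonpos] <;> push_cast
    · ring
    · have : (0 : ℝ) ≤ k := by positivity
      linarith

theorem lg_bound (m : ℕ) (j : Fin (m + 1)) {z : ℂ} (hz : ‖z‖ ≤ 1) :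
    ‖(lg m j).eval z‖ ≤ 3 * 12 ^ m := by
  have m0 : (0 : ℝ) < m + 1 := by positivity
  have h1 : ‖(lg m j).eval z‖ ≤ ∏ l ∈ Finset.univ.erase j, (2 * (m + 1) : ℝ) * |((j : ℕ) : ℝ) - (l : ℕ)|⁻¹ := by
    rw [lg, Lagrange.basis, eval_prod, norm_prod]
    refine Finset.prod_le_prod (fun _ _ => norm_nonneg _) fun l _ => ?_
    simp only [Lagrange.basisDivisor, eval_mul, eval_C, eval_sub, eval_X, norm_mul, norm_inv]
    have a : ‖z - (nd m l : ℂ)‖ ≤ 2 := by
      have := norm_sub_le z (nd m l : ℂ)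
      rw [Complex.norm_real, Real.norm_eq_abs] at this
      linarith [nd_abs m l]
    have b : ‖(nd m j : ℂ) - (nd m l : ℂ)‖⁻¹ = (m + 1) * |((j : ℕ) : ℝ) - (l : ℕ)|⁻¹ := by
      rw [← Complex.ofReal_sub, Complex.norm_real, Real.norm_eq_abs, nd, nd, ← sub_div, abs_div,
        abs_of_pos m0, inv_div, div_eq_mul_inv]
    rw [b]
    calc _ ≤ (m + 1) * |((j : ℕ) : ℝ) - (l : ℕ)|⁻¹ * 2 := by gcongr
      _ = _ := by ring
  rw [Finset.prod_mul_distrib, Finset.prod_const, Finset.card_erase_of_mem (Finset.mem_univ _),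
    Finset.prod_inv_distrib] at h1
  have h2 : ∏ l ∈ Finset.univ.erase j, |((j : ℕ) : ℝ) - ((l : Fin (m + 1)) : ℕ)| =
      (j : ℕ)! * (m - j)! := by
    rw [← prod_dist, show (j : ℕ) + (m - j) + 1 = m + 1 by omega]
    refine Finset.prod_bij (fun l _ => (l : ℕ)) ?_ ?_ ?_ fun _ _ => rfl
    · intro l hl; simpa [Fin.ext_iff] using And.intro (Finset.mem_erase.1 hl).1 l.2
    · intro a _ b _ h; exact Fin.ext h
    · intro b hb
      simp only [Finset.mem_erase, Finset.mem_range] at hb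
      exact ⟨⟨b, hb.2⟩, by simpa [Fin.ext_iff] using hb.1, rfl⟩
  have h3 : (m ! : ℝ) ≤ 2 ^ m * ((j : ℕ)! * (m - j)!) := by
    have a := Nat.choose_mul_factorial_mul_factorial (show (j : ℕ) ≤ m by omega)
    have b := Nat.choose_le_two_pow m j
    have : m ! ≤ 2 ^ m * ((j : ℕ)! * (m - j)!) := by
      rw [← a, mul_assoc]; exact Nat.mul_le_mul_right _ b
    exact_mod_cast this
  have h4 : ((m : ℝ) + 1) ^ m ≤ 3 * 3 ^ m * m ! := by
    have a := Real.pow_div_factorial_le_exp ((m : ℝ) + 1) m0.le m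
    have b : Real.exp ((m : ℝ) + 1) ≤ 3 * 3 ^ m := by
      rw [show ((m : ℝ) + 1) = ((m + 1 : ℕ) : ℝ) by push_cast; rfl, ← Real.exp_one_pow, ← pow_succ']
      exact pow_le_pow_left₀ (Real.exp_pos 1).le (by linarith [Real.exp_one_lt_d9]) _
    rw [div_le_iff₀ (by positivity)] at a
    exact a.trans (by gcongr)
  rw [h2] at h1
  simp only [Finset.card_univ, Fintype.card_fin, add_tsub_cancel_right] at h1
  refine h1.trans ?_
  rw [← div_eq_mul_inv, div_le_iff₀ (by positivity), mul_pow]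
  calc (2 : ℝ) ^ m * (m + 1) ^ m ≤ 2 ^ m * (3 * 3 ^ m * (2 ^ m * ((j : ℕ)! * (m - j)!))) := by
        gcongr; exact h4.trans (by gcongr)
    _ = _ := by rw [show (12 : ℝ) = 2 * 3 * 2 by norm_num, mul_pow, mul_pow]; ring

theorem lg_sum (m : ℕ) {z : ℂ} (hz : ‖z‖ ≤ 1) : ∑ j, ‖(lg m j).eval z‖ ≤ 24 ^ (m + 1) := by
  refine (Finset.sum_le_sum fun j _ => lg_bound m j hz).trans ?_
  have : ((m + 1 : ℕ) : ℝ) ≤ 2 ^ m := by exact_mod_cast Nat.lt_two_pow_self
  simp only [Finset.sum_const, Finset.card_univ, Fintype.card_fin, nsmul_eq_mul]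
  calc ((m + 1 : ℕ) : ℝ) * (3 * 12 ^ m) ≤ 2 ^ m * (24 * 12 ^ m) := by gcongr; norm_num
    _ = _ := by rw [pow_succ, show (24 : ℝ) = 2 * 12 by norm_num, mul_pow]; ring

variable {N : ℕ}

/-- tensor product interpolation -/
def ip (m : ℕ) (f : (Fin N → ℝ) → E) (z : Fin N → ℂ) : E :=
  ∑ j : Fin N → Fin (m + 1), (∏ i, (lg m (j i)).eval (z i)) • f fun i => nd m (j i)

theorem ip_an (m : ℕ) (f : (Fin N → ℝ) → E) : AnalyticOnNhd ℂ (ip m f) univ := fun z _ => by
  unfold ip
  refine Finset.analyticAt_fun_sum _ fun j _ => AnalyticAt.fun_smul ?_ analyticAt_const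
  refine Finset.analyticAt_fun_prod _ fun i _ => ?_
  exact ((lg m (j i)).differentiable.analyticAt _).comp
    ((ContinuousLinearMap.proj i : (Fin N → ℂ) →L[ℂ] ℂ).analyticAt z)

theorem nd_norm (m : ℕ) (j : Fin N → Fin (m + 1)) : ‖fun i => nd m (j i)‖ ≤ 1 :=
  (pi_norm_le_iff_of_nonneg zero_le_one).2 fun i => nd_abs m (j i)

theorem ip_bound (m : ℕ) {f : (Fin N → ℝ) → E} {B : ℝ} (hf : ∀ x, ‖x‖ ≤ 1 → ‖f x‖ ≤ B)
    {z : Fin N → ℂ} (hz : ‖z‖ ≤ 1) : ‖ip m f z‖ ≤ (24 ^ (m + 1)) ^ N * B := by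
  have B0 : 0 ≤ B := (norm_nonneg _).trans (hf 0 (by simp))
  refine (norm_sum_le _ _).trans ?_
  calc _ ≤ ∑ j : Fin N → Fin (m + 1), (∏ i, ‖(lg m (j i)).eval (z i)‖) * B :=
        Finset.sum_le_sum fun j _ => by
          rw [norm_smul, norm_prod]; gcongr; exact hf _ (nd_norm m j)
    _ = (∏ i, ∑ j, ‖(lg m j).eval (z i)‖) * B := by
        rw [← Finset.sum_mul, Finset.prod_univ_sum, Fintype.piFinset_univ]
    _ ≤ _ := by
        gcongr
        refine (Finset.prod_le_prod (fun _ _ => by positivity) fun i _ =>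
          lg_sum m ((norm_le_pi_norm z i).trans hz)).trans (by simp)

theorem ip_ip (m : ℕ) (f : (Fin N → ℝ) → E) (z : Fin N → ℂ) :
    ip (m + 1) (fun x => ip m f fun i => (x i : ℂ)) z = ip m f z := by
  simp only [ip, Finset.smul_sum, smul_smul]
  rw [Finset.sum_comm]
  refine Finset.sum_congr rfl fun j _ => ?_
  rw [← Finset.sum_smul]
  congr 1
  simp only [← Finset.prod_mul_distrib]
  rw [← Fintype.piFinset_univ, ← Finset.prod_univ_sum (fun _ => Finset.univ)
    fun i k => (lg (m + 1) k).eval (z i) * (lg m (j i)).eval (nd (m + 1) k : ℂ)]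
  refine Finset.prod_congr rfl fun i _ => ?_
  rw [← lg_repr (m + 1) (f := lg m (j i)) (by rw [lg_deg]; omega)]
  exact Finset.sum_congr rfl fun _ _ => mul_comm _ _

theorem ip_sub (m : ℕ) (f g : (Fin N → ℝ) → E) (z : Fin N → ℂ) :
    ip m (fun x => f x - g x) z = ip m f z - ip m g z := by
  simp [ip, smul_sub]

theorem ip_succ (m : ℕ) (f : (Fin (N + 1) → ℝ) → E) (z : Fin (N + 1) → ℂ) :
    ip m f z = ∑ a, (lg m a).eval (z 0) • ip m (fun y => f (Fin.cons (nd m a) y)) (Fin.tail z) := by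
  simp only [ip, Finset.smul_sum, smul_smul]
  rw [← Fintype.sum_prod_type']
  refine (Fintype.sum_equiv (Fin.consEquiv fun _ => Fin (m + 1)) _ _ fun x => ?_).symm
  simp only [Fin.consEquiv_apply, Fin.prod_univ_succ, Fin.cons_zero, Fin.cons_succ, Fin.tail]
  congr 2
  funext i
  refine Fin.cases ?_ (fun i => ?_) i <;> simp

/-- approximation by polynomials of degree `m` on the unit interval -/
def Ap (m : ℕ) (ε : ℝ) (g : ℝ → E) : Prop :=
  ∃ c : ℕ → E, ∀ t : ℝ, |t| ≤ 1 → ‖g t - ∑ a ∈ Finset.range (m + 1), (t : ℂ) ^ a • c a‖ ≤ ε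

theorem Ap.err {m : ℕ} {ε : ℝ} {g : ℝ → E} (h : Ap m ε g) {t : ℝ} (ht : |t| ≤ 1) :
    ‖g t - ∑ a, (lg m a).eval (t : ℂ) • g (nd m a)‖ ≤ 2 * 24 ^ (m + 1) * ε := by
  obtain ⟨c, hc⟩ := h
  have ε0 : 0 ≤ ε := (norm_nonneg _).trans (hc 0 (by simp))
  have e : ∑ a ∈ Finset.range (m + 1), (t : ℂ) ^ a • c a =
      ∑ j, (lg m j).eval (t : ℂ) • ∑ a ∈ Finset.range (m + 1), (nd m j : ℂ) ^ a • c a := by
    simp only [Finset.smul_sum, smul_smul]
    rw [Finset.sum_comm]
    refine Finset.sum_congr rfl fun a ha => ?_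
    have := lg_repr m (f := X ^ a) (by simpa using Nat.lt_succ_iff.1 (Finset.mem_range.1 ha)) t
    simp only [eval_pow, eval_X] at this
    rw [← Finset.sum_smul, ← this]
    simp only [mul_comm]
  have h1 := hc t ht
  have h2 : ‖∑ j, (lg m j).eval (t : ℂ) • (g (nd m j) -
      ∑ a ∈ Finset.range (m + 1), (nd m j : ℂ) ^ a • c a)‖ ≤ 24 ^ (m + 1) * ε := by
    refine (norm_sum_le _ _).trans ?_
    calc _ ≤ ∑ j, ‖(lg m j).eval (t : ℂ)‖ * ε := Finset.sum_le_sum fun j _ => by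
          rw [norm_smul]; gcongr; exact hc _ (nd_abs m j)
      _ ≤ _ := by rw [← Finset.sum_mul]; gcongr; exact lg_sum m (by simpa using ht)
  simp only [smul_sub, Finset.sum_sub_distrib] at h2
  rw [← e] at h2
  have h3 := norm_sub_le (g t - ∑ a ∈ Finset.range (m + 1), (t : ℂ) ^ a • c a)
    (∑ a, (lg m a).eval (t : ℂ) • g (nd m a) - ∑ a ∈ Finset.range (m + 1), (t : ℂ) ^ a • c a)
  rw [sub_sub_sub_cancel_right] at h3
  have : (1 : ℝ) ≤ 24 ^ (m + 1) := one_le_pow₀ (by norm_num)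
  nlinarith

theorem ip_err (m : ℕ) {ε : ℝ} (ε0 : 0 ≤ ε) : ∀ {N : ℕ} {f : (Fin N → ℝ) → E},
    (∀ x, ‖x‖ ≤ 1 → ∀ i, Ap m ε fun t => f (Function.update x i t)) → ∀ x : Fin N → ℝ, ‖x‖ ≤ 1 →
      ‖f x - ip m f fun i => (x i : ℂ)‖ ≤ 2 * N * (24 ^ (m + 1)) ^ N * ε := by
  intro N
  induction N with
  | zero =>
    intro f _ x _
    have : ip m f (fun i => (x i : ℂ)) = f x := by
      simp only [ip, Finset.univ_unique, Finset.sum_singleton, Finset.univ_eq_empty,
        Finset.prod_empty, one_smul]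
      congr 1; exact Subsingleton.elim _ _
    simp [this]
  | succ N ih =>
    intro f hf x hx
    have x0 : |x 0| ≤ 1 := (norm_le_pi_norm x 0).trans hx
    have cn : ∀ (s : ℝ) (y : Fin N → ℝ), |s| ≤ 1 → ‖y‖ ≤ 1 →
        ‖(Fin.cons s y : Fin (N + 1) → ℝ)‖ ≤ 1 := fun s y hs hy =>
      (pi_norm_le_iff_of_nonneg zero_le_one).2 fun i => by
        refine Fin.cases ?_ (fun i => ?_) i
        · simpa using hs
        · simpa using (norm_le_pi_norm y i).trans hy
    have xt : ‖Fin.tail x‖ ≤ 1 := (pi_norm_le_iff_of_nonneg zero_le_one).2 fun i =>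
      (norm_le_pi_norm x i.succ).trans hx
    have h1 := (hf x hx 0).err x0
    rw [Function.update_eq_self] at h1
    have h2 : ∀ a, ‖f (Function.update x 0 (nd m a)) -
        ip m (fun y => f (Fin.cons (nd m a) y)) (Fin.tail fun i => (x i : ℂ))‖ ≤
        2 * N * (24 ^ (m + 1)) ^ N * ε := fun a => by
      have := ih (f := fun y => f (Fin.cons (nd m a) y)) (fun y hy i => by
        simpa only [Fin.cons_update] using hf _ (cn _ y (nd_abs m a) hy) i.succ) _ xt
      rwa [← Fin.update_cons_zero (x 0), Fin.cons_self_tail] at this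
    have h3 : ‖∑ a, (lg m a).eval (x 0 : ℂ) • (f (Function.update x 0 (nd m a)) -
        ip m (fun y => f (Fin.cons (nd m a) y)) (Fin.tail fun i => (x i : ℂ)))‖ ≤
        24 ^ (m + 1) * (2 * N * (24 ^ (m + 1)) ^ N * ε) := by
      refine (norm_sum_le _ _).trans ?_
      calc _ ≤ ∑ a, ‖(lg m a).eval (x 0 : ℂ)‖ * (2 * N * (24 ^ (m + 1)) ^ N * ε) :=
            Finset.sum_le_sum fun a _ => by rw [norm_smul]; gcongr; exact h2 a
        _ ≤ _ := by rw [← Finset.sum_mul]; gcongr; exact lg_sum m (by simpa using x0)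
    simp only [smul_sub, Finset.sum_sub_distrib] at h3
    rw [← show _ = ∑ a, (lg m a).eval (x 0 : ℂ) • _ from ip_succ m f fun i => (x i : ℂ)] at h3
    have h4 := (norm_add_le _ _).trans (add_le_add h1 h3)
    rw [sub_add_sub_cancel] at h4
    refine h4.trans ?_
    have a1 : (1 : ℝ) ≤ (24 ^ (m + 1)) ^ N := one_le_pow₀ (one_le_pow₀ (by norm_num))
    have a2 : (0 : ℝ) ≤ 24 ^ (m + 1) * ε := by positivity
    rw [pow_succ _ N]
    push_cast
    nlinarith

variable [CompleteSpace E]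

theorem Ap.of_hol {g : ℂ → E} {Q M : ℝ} (hQ : 2 ≤ Q) (hg : DifferentiableOn ℂ g (ball 0 (2 * Q)))
    (hM : ∀ z ∈ ball (0 : ℂ) (2 * Q), ‖g z‖ ≤ M) (m : ℕ) :
    Ap m (2 * M * Q⁻¹ ^ (m + 1)) fun t => g t := by
  have M0 : 0 ≤ M := (norm_nonneg _).trans (hM 0 (mem_ball_self (by linarith)))
  have Q0 : 0 < Q := by linarith
  refine ⟨fun a => (a ! : ℂ)⁻¹ • iteratedDeriv a g 0, fun t ht => ?_⟩
  have hs := Complex.hasSum_taylorSeries_on_ball hg (z := (t : ℂ)) (by
    simp only [mem_ball, dist_zero_right, Complex.norm_real, Real.norm_eq_abs]; linarith)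
  have hb : ∀ a, ‖(a ! : ℂ)⁻¹ • ((t : ℂ) - 0) ^ a • iteratedDeriv a g 0‖ ≤ M * Q⁻¹ ^ a := fun a => by
    have := Complex.norm_iteratedDeriv_le_of_forall_mem_sphere_norm_le (c := 0) (R := Q) (C := M)
      (f := g) a Q0 ((hg.mono (by
        rw [closure_ball _ Q0.ne']; exact closedBall_subset_ball (by linarith))).diffContOnCl)
      fun z hz => hM z (sphere_subset_ball (by linarith) hz)
    rw [norm_smul, norm_smul, norm_inv, norm_pow, sub_zero, Complex.norm_natCast]
    calc _ ≤ (a ! : ℝ)⁻¹ * (1 ^ a * (a ! * M / Q ^ a)) := by gcongr; simpa using ht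
      _ = _ := by rw [inv_pow]; field_simp; simp
  have q1 : Q⁻¹ ≤ 1 / 2 := by rw [one_div]; gcongr
  have hg' := (hasSum_geometric_of_lt_one (inv_pos.2 Q0).le (by linarith)).mul_left
    (M * Q⁻¹ ^ (m + 1))
  have h2 := ((hasSum_nat_add_iff' (m + 1)).2 hs).norm_le_of_bounded hg' fun a => by
    refine (hb _).trans (le_of_eq ?_); ring
  simp only [sub_zero] at h2
  simp only [smul_comm ((t : ℂ) ^ _)]
  refine h2.trans ?_
  have : (1 - Q⁻¹)⁻¹ ≤ 2 := by
    rw [inv_le_comm₀ (by linarith) (by norm_num)]; linarith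
  calc _ ≤ M * Q⁻¹ ^ (m + 1) * 2 := by gcongr
    _ = _ := by ring

/-- the cross theorem, normalised -/
theorem cross_unit {f : (Fin N → ℝ) → E} {M : ℝ} (hb : ∀ x, ‖x‖ ≤ 1 → ‖f x‖ ≤ M)
    (h : ∀ x, ‖x‖ ≤ 1 → ∀ i, ∃ g : ℂ → E, DifferentiableOn ℂ g (ball 0 (4 * 576 ^ N)) ∧
      (∀ z ∈ ball (0 : ℂ) (4 * 576 ^ N), ‖g z‖ ≤ M) ∧
      ∀ t : ℝ, |t| ≤ 1 → g t = f (Function.update x i t)) :
    ∃ F : (Fin N → ℂ) → E, AnalyticOnNhd ℂ F (ball 0 (1 / 12)) ∧
      (∀ z, ‖z‖ ≤ 1 → ‖F z‖ ≤ (4 * N + 1) * 24 ^ N * M) ∧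
      ∀ x : Fin N → ℝ, ‖x‖ ≤ 1 → F (fun i => x i) = f x := by
  have M0 : 0 ≤ M := (norm_nonneg _).trans (hb 0 (by simp))
  have a1 : (1 : ℝ) ≤ 576 ^ N := one_le_pow₀ (by norm_num)
  set Q : ℝ := 2 * 576 ^ N with hQ
  have hap : ∀ m x, ‖x‖ ≤ 1 → ∀ i, Ap m (2 * M * Q⁻¹ ^ (m + 1)) fun t => f (Function.update x i t) := by
    intro m x hx i
    obtain ⟨g, g1, g2, g3⟩ := h x hx i
    rw [show (4 : ℝ) * 576 ^ N = 2 * Q by rw [hQ]; ring] at g1 g2
    obtain ⟨c, hc⟩ := Ap.of_hol (by linarith) g1 g2 m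
    exact ⟨c, fun t ht => by simpa only [g3 t ht] using hc t ht⟩
  have herr := fun m => ip_err m (by positivity) (hap m)
  have e1 : ∀ m : ℕ, ((24 : ℝ) ^ (m + 1 + 1)) ^ N * (2 * N * (24 ^ (m + 1)) ^ N *
      (2 * M * Q⁻¹ ^ (m + 1))) = 2 * N * 24 ^ N * M * (1 / 2) ^ m := fun m => by
    have : ((576 : ℝ) ^ N) ^ (m + 1) = (24 ^ (m + 1)) ^ N * (24 ^ (m + 1)) ^ N := by
      rw [← mul_pow, ← mul_pow, ← pow_mul, ← pow_mul, mul_comm N]; norm_num
    rw [hQ, inv_pow, mul_pow, this, pow_succ _ (m + 1), mul_pow, one_div, inv_pow, pow_succ 2]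
    field_simp
  have hq : ∀ m (z : Fin N → ℂ), ‖z‖ ≤ 1 →
      ‖ip (m + 1) f z - ip m f z‖ ≤ 2 * N * 24 ^ N * M * (1 / 2) ^ m := fun m z hz => by
    rw [← ip_ip m f z, ← ip_sub, ← e1]
    exact ip_bound _ (herr m) hz
  have hg := hasSum_geometric_two.mul_left (2 * N * 24 ^ N * M : ℝ)
  refine ⟨fun z => ip 0 f z + ∑' m, (ip (m + 1) f z - ip m f z), ?_, fun z hz => ?_, fun x hx => ?_⟩
  · exact ((ip_an 0 f).mono (subset_univ _)).add (analyticOnNhd_tsum
      (fun m => (ip_an (m + 1) f).sub (ip_an m f)) one_pos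
      (fun m z hz => hq m z (by simpa using (mem_ball_zero_iff.1 hz).le)) hg.summable)
  · have b1 := ip_bound 0 hb hz
    have b2 := tsum_of_norm_bounded hg fun m => hq m z hz
    refine (norm_add_le _ _).trans ((add_le_add b1 b2).trans (le_of_eq ?_))
    simp only [zero_add, pow_one]; ring
  · have hz : ‖fun i => (x i : ℂ)‖ ≤ 1 := (pi_norm_le_iff_of_nonneg zero_le_one).2 fun i => by
      simpa using (norm_le_pi_norm x i).trans hx
    have t1 := (Summable.of_norm_bounded hg.summable fun m => hq m _ hz).hasSum.tendsto_sum_nat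
    simp only [Finset.sum_range_sub (fun m => ip m f fun i => (x i : ℂ))] at t1
    have t2 : Tendsto (fun m => ip m f fun i => (x i : ℂ)) atTop (𝓝 (f x)) := by
      rw [tendsto_iff_norm_sub_tendsto_zero]
      refine squeeze_zero (fun _ => norm_nonneg _) (fun m => ?_) hg.summable.tendsto_atTop_zero
      rw [norm_sub_rev, ← e1]
      exact (herr m x hx).trans (le_mul_of_one_le_left (by positivity)
        (one_le_pow₀ (one_le_pow₀ (by norm_num))))
    have := tendsto_nhds_unique t1 (t2.sub_const _)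
    simp only [this]; abel

/-- the loss of radius in the cross theorem -/
def cR (N : ℕ) : ℝ := 48 * 576 ^ N

/-- the loss in the bound in the cross theorem -/
def cM (N : ℕ) : ℝ := (4 * N + 1) * 24 ^ N

theorem cR_ge (N : ℕ) : 48 ≤ cR N :=
  le_mul_of_one_le_right (by norm_num) (one_le_pow₀ (by norm_num))

theorem cM_ge (N : ℕ) : 1 ≤ cM N :=
  one_le_mul_of_one_le_of_one_le (by linarith [Nat.cast_nonneg (α := ℝ) N]) (one_le_pow₀ (by norm_num))

/-- **Cross theorem**: `f` is given on the real cube of radius `R` around `x0`; on every line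
parallel to an axis it extends holomorphically to the disc of radius `R` with the bound `M`. -/
theorem cross {ι : Type} [Fintype ι] [DecidableEq ι] {f : (ι → ℝ) → E} {x0 : ι → ℝ} {R M : ℝ}
    (hR : 0 < R) (hb : ∀ x ∈ ball x0 R, ‖f x‖ ≤ M)
    (h : ∀ x ∈ ball x0 R, ∀ i, ∃ g : ℂ → E, DifferentiableOn ℂ g (ball (x0 i) R) ∧
      (∀ z ∈ ball (x0 i : ℂ) R, ‖g z‖ ≤ M) ∧
      ∀ t : ℝ, |t - x0 i| < R → g t = f (Function.update x i t)) :
    ∃ F : (ι → ℂ) → E, AnalyticOnNhd ℂ F (ball (fun i => x0 i) (R / cR (Fintype.card ι))) ∧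
      (∀ z ∈ ball (fun i => (x0 i : ℂ)) (R / cR (Fintype.card ι)), ‖F z‖ ≤ cM (Fintype.card ι) * M) ∧
      ∀ x ∈ ball x0 (R / cR (Fintype.card ι)), F (fun i => x i) = f x := by
  set N := Fintype.card ι
  set e : ι ≃ Fin N := Fintype.equivFin ι
  have a1 : (1 : ℝ) ≤ 576 ^ N := one_le_pow₀ (by norm_num)
  set r : ℝ := R / (4 * 576 ^ N) with hr
  have r0 : 0 < r := by positivity
  have rR : r * (4 * 576 ^ N) = R := by rw [hr]; field_simp
  have rR' : r < R := by nlinarith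
  have hc : R / cR N = r / 12 := by rw [hr, cR]; field_simp; norm_num
  have hm : ∀ y : Fin N → ℝ, ‖y‖ ≤ 1 → (fun i => x0 i + r * y (e i)) ∈ ball x0 R := fun y hy => by
    rw [mem_ball, dist_pi_lt_iff hR]
    intro i
    have := (norm_le_pi_norm y (e i)).trans hy
    rw [dist_eq_norm, add_sub_cancel_left, norm_mul, Real.norm_of_nonneg r0.le]
    nlinarith
  obtain ⟨F, F1, F2, F3⟩ := cross_unit (N := N) (f := fun y => f fun i => x0 i + r * y (e i)) (M := M)
    (fun y hy => hb _ (hm y hy)) fun y hy k => by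
      obtain ⟨g, g1, g2, g3⟩ := h _ (hm y hy) (e.symm k)
      have mp : MapsTo (fun z : ℂ => x0 (e.symm k) + r * z) (ball 0 (4 * 576 ^ N))
          (ball (x0 (e.symm k)) R) := fun z hz => by
        rw [mem_ball, dist_eq_norm, add_sub_cancel_left, norm_mul, Complex.norm_real,
          Real.norm_of_nonneg r0.le, ← rR]
        gcongr; simpa using hz
      refine ⟨fun z => g (x0 (e.symm k) + r * z), g1.comp (by fun_prop) mp,
        fun z hz => g2 _ (mp hz), fun t ht => ?_⟩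
      have := g3 (x0 (e.symm k) + r * t) (by
        rw [add_sub_cancel_left, abs_mul, abs_of_pos r0]; nlinarith)
      push_cast at this
      simp only [this]
      congr 1
      funext i
      by_cases hi : i = e.symm k
      · subst hi; simp
      · rw [Function.update_of_ne hi, Function.update_of_ne fun h => hi (by rw [← h]; simp)]
  have mq : ∀ z ∈ ball (fun i => (x0 i : ℂ)) (r / 12),
      ‖fun k => (z (e.symm k) - x0 (e.symm k)) / r‖ < 1 / 12 := fun z hz => by
    rw [pi_norm_lt_iff (by norm_num)]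
    intro k
    have := (dist_pi_lt_iff (by positivity)).1 (mem_ball.1 hz) (e.symm k)
    rw [norm_div, Complex.norm_real, Real.norm_of_nonneg r0.le, div_lt_iff₀ r0, ← dist_eq_norm]
    linarith
  rw [hc]
  refine ⟨fun z => F fun k => (z (e.symm k) - x0 (e.symm k)) / r, fun z hz => ?_,
    fun z hz => F2 _ (by linarith [mq z hz]), fun x hx => ?_⟩
  · refine (F1 _ (mem_ball_zero_iff.2 (mq z hz))).comp_of_eq (analyticAt_pi_iff.2 fun k => ?_) rfl
    exact (((ContinuousLinearMap.proj (e.symm k) : (ι → ℂ) →L[ℂ] ℂ).analyticAt z).sub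
      analyticAt_const).div_const
  · have hx' : (fun i => (x i : ℂ)) ∈ ball (fun i => (x0 i : ℂ)) (r / 12) := by
      rw [mem_ball, dist_pi_lt_iff (by positivity)] at hx ⊢
      intro i; simpa [Complex.dist_of_im_eq] using hx i
    have := F3 (fun k => (x (e.symm k) - x0 (e.symm k)) / r) (by
      refine (pi_norm_le_iff_of_nonneg zero_le_one).2 fun k => ?_
      have := (norm_le_pi_norm _ k).trans (mq _ hx').le
      rw [← Complex.norm_real]; push_cast; linarith)
    push_cast at this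
    refine this.trans ?_
    congr 1
    funext i
    simp only [Equiv.symm_apply_apply]; field_simp; ring

end Pool.Agent.Lib.MP_7f377f_mp.S10
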