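import Pool.Agent.Lib.MP_7f377f_mp.S10Cross

/-! Real analyticity from holomorphy along spanning directions; identity theorems. -/

noncomputable section

namespace Pool.Agent.Lib.MP_7f377f_mp.S10

open Metric Set Filter Topology

variable {E : Type*} [NormedAddCommGroup E] [NormedSpace ℂ E] [CompleteSpace E] [NormedSpace ℝ E]
  [IsScalarTower ℝ ℂ E] {ι : Type} [Fintype ι]
  {V : Type*} [NormedAddCommGroup V] [NormedSpace ℝ V]

/-- the inclusion of real vectors into complex vectors -/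
def reC (ι : Type) [Fintype ι] : (ι → ℝ) →L[ℝ] (ι → ℂ) :=
  ContinuousLinearMap.pi fun i => Complex.ofRealCLM.comp (ContinuousLinearMap.proj i)

theorem analyticAt_of_axes [DecidableEq ι] {f : (ι → ℝ) → E} {x0 : ι → ℝ} {R M : ℝ}
    (hR : 0 < R) (hb : ∀ x ∈ ball x0 R, ‖f x‖ ≤ M)
    (h : ∀ x ∈ ball x0 R, ∀ i, ∃ g : ℂ → E, DifferentiableOn ℂ g (ball (x0 i) R) ∧
      (∀ z ∈ ball (x0 i : ℂ) R, ‖g z‖ ≤ M) ∧
      ∀ t : ℝ, |t - x0 i| < R → g t = f (Function.update x i t)) : AnalyticAt ℝ f x0 := by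
  obtain ⟨F, F1, -, F3⟩ := cross hR hb h
  have r0 : 0 < R / cR (Fintype.card ι) := div_pos hR (by linarith [cR_ge (Fintype.card ι)])
  have := ((F1 _ (mem_ball_self r0)).restrictScalars (𝕜 := ℝ)).comp_of_eq ((reC ι).analyticAt x0) rfl
  exact this.congr (mem_of_superset (ball_mem_nhds x0 r0) fun x hx => F3 x hx)

/-- `f` is real analytic if near `x0` it extends holomorphically, with uniform radius and bound,
along the lines in finitely many directions which span the space -/
theorem analyticAt_of_dirs [FiniteDimensional ℝ V] (v : ι → V)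
    (hv : ⊤ ≤ Submodule.span ℝ (range v)) {f : V → E} {x0 : V} {R M : ℝ} (hR : 0 < R)
    (h : ∀ᶠ x in 𝓝 x0, ‖f x‖ ≤ M ∧ ∀ i, ∃ g : ℂ → E, DifferentiableOn ℂ g (ball 0 R) ∧
      (∀ z ∈ ball (0 : ℂ) R, ‖g z‖ ≤ M) ∧ ∀ t : ℝ, |t| < R → g t = f (x + t • v i)) :
    AnalyticAt ℝ f x0 := by
  classical
  set L : (ι → ℝ) →ₗ[ℝ] V := Fintype.linearCombination ℝ v with hL
  obtain ⟨S, hS⟩ := L.exists_rightInverse_of_surjective (by
    rw [hL, Fintype.range_linearCombination]; exact top_le_iff.1 hv)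
  have hc : Tendsto (fun y => x0 + L y) (𝓝 0) (𝓝 x0) := by
    have := (L.continuous_of_finiteDimensional.const_add x0).tendsto 0
    simpa using this
  obtain ⟨δ, δ0, hδ⟩ := Metric.eventually_nhds_iff_ball.1 (hc.eventually h)
  have key : AnalyticAt ℝ (fun y => f (x0 + L y)) 0 := by
    refine analyticAt_of_axes (R := min δ R) (M := M) (lt_min δ0 hR)
      (fun y hy => (hδ y (ball_subset_ball (min_le_left _ _) hy)).1) fun y hy i => ?_
    have hy' : Function.update y i 0 ∈ ball (0 : ι → ℝ) δ := by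
      rw [mem_ball_zero_iff, pi_norm_lt_iff δ0]
      intro j
      rcases eq_or_ne j i with rfl | hj
      · simpa using δ0
      · rw [Function.update_of_ne hj]
        exact (norm_le_pi_norm y j).trans_lt
          ((mem_ball_zero_iff.1 hy).trans_le (min_le_left _ _))
    obtain ⟨g, g1, g2, g3⟩ := (hδ _ hy').2 i
    have hs : ball ((0 : ι → ℝ) i : ℂ) (min δ R) ⊆ ball 0 R := by
      simpa using ball_subset_ball (min_le_right _ _)
    refine ⟨g, g1.mono hs, fun z hz => g2 z (hs hz), fun t ht => ?_⟩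
    rw [g3 t (by simpa using ht.trans_le (min_le_right _ _))]
    have : Function.update y i t = Function.update y i 0 + t • Pi.single i 1 := by
      funext j
      rcases eq_or_ne j i with rfl | hj
      · simp
      · simp [hj]
    rw [this, map_add, map_smul, add_assoc]
    simp [hL]
  have h2 : AnalyticAt ℝ (fun x => S.toContinuousLinearMap (x - x0)) x0 :=
    (S.toContinuousLinearMap.analyticAt _).comp (analyticAt_id.sub analyticAt_const)
  refine (key.comp_of_eq h2 (by simp)).congr (Eventually.of_forall fun x => ?_)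
  have : L (S (x - x0)) = x - x0 := LinearMap.congr_fun hS _
  show f (x0 + L (S (x - x0))) = f x
  rw [this, add_sub_cancel]

omit [NormedSpace ℂ E] [IsScalarTower ℝ ℂ E] [CompleteSpace E]

/-- `g` vanishes to infinite order at `0` along a sequence -/
def Flat (g : ℝ → E) : Prop := ∀ n : ℕ, ∃ C : ℝ, ∃ᶠ t in 𝓝[≠] 0, ‖g t‖ ≤ C * |t| ^ n

omit [NormedSpace ℝ E] in
theorem Flat.of_right {g : ℝ → E} (h : ∀ n : ℕ, ∃ C : ℝ, ∀ᶠ t in 𝓝[>] 0, ‖g t‖ ≤ C * t ^ n) :
    Flat g := fun n => by
  obtain ⟨C, hC⟩ := h n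
  refine ⟨C, Frequently.filter_mono (Eventually.frequently ?_) (nhdsGT_le_nhdsNE 0)⟩
  filter_upwards [hC, self_mem_nhdsWithin] with t ht t0
  rwa [abs_of_pos t0]

theorem Flat.eventually_zero {g : ℝ → E} (h : Flat g) (hg : AnalyticAt ℝ g 0) :
    ∀ᶠ t in 𝓝 0, g t = 0 := by
  by_contra hn
  obtain ⟨n, u, u1, u2, u3⟩ := hg.exists_eventuallyEq_pow_smul_nonzero_iff.2 hn
  obtain ⟨C, hC⟩ := h (n + 1)
  have h1 : ∃ᶠ t in 𝓝[≠] (0 : ℝ), ‖u t‖ ≤ C * |t| := by
    refine (hC.and_eventually ((u3.filter_mono nhdsWithin_le_nhds).and self_mem_nhdsWithin)).mono ?_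
    rintro t ⟨a, b, c⟩
    rw [b, sub_zero, norm_smul, norm_pow, Real.norm_eq_abs, pow_succ, mul_left_comm] at a
    exact le_of_mul_le_mul_left a (pow_pos (abs_pos.2 c) n)
  have h2 : Tendsto (fun t => C * |t| - ‖u t‖) (𝓝[≠] (0 : ℝ)) (𝓝 (C * |0| - ‖u 0‖)) :=
    (((continuous_abs.const_mul C).tendsto 0).sub u1.continuousAt.norm).mono_left nhdsWithin_le_nhds
  have := isClosed_Ici.mem_of_frequently_of_tendsto (h1.mono fun t ht => sub_nonneg.2 ht) h2
  simp only [abs_zero, mul_zero, zero_sub, mem_Ici, Left.nonneg_neg_iff, norm_le_zero_iff] at this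
  exact u2 this

/-- identity theorem: infinite order vanishing in the directions `y - P y` at the points
`x0 + P y` -/
theorem eqOn_zero_of_flat [CompleteSpace E] {f : V → E} {U : Set V} (hU : IsPreconnected U)
    (hf : AnalyticOnNhd ℝ f U) {x0 : V} (hx : x0 ∈ U) (P : V →L[ℝ] V)
    (h : ∀ᶠ y in 𝓝 0, Flat fun t => f (x0 + P y + t • (y - P y))) : EqOn f 0 U := by
  refine hf.eqOn_zero_of_preconnected_of_eventuallyEq_zero hU hx ?_
  obtain ⟨δ, δ0, hδ⟩ := Metric.eventually_nhds_iff_ball.1 (hf x0 hx).eventually_analyticAt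
  have c1 : Tendsto (fun y => x0 + P y) (𝓝 0) (𝓝 x0) := by
    simpa using (P.continuous.const_add x0).tendsto 0
  have c2 : Tendsto (fun y => x0 + y) (𝓝 0) (𝓝 x0) := by
    simpa using (continuous_id.const_add x0).tendsto 0
  have key : ∀ᶠ y in 𝓝 0, f (x0 + y) = 0 := by
    filter_upwards [h, c1.eventually (ball_mem_nhds x0 δ0), c2.eventually (ball_mem_nhds x0 δ0)]
      with y hy a b
    have an : AnalyticOnNhd ℝ (fun t : ℝ => f (x0 + P y + t • (y - P y))) (Icc 0 1) := fun t ht => by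
      refine (hδ _ ?_).comp_of_eq (analyticAt_const.add (analyticAt_id.smul analyticAt_const)) rfl
      have := (convex_ball x0 δ).add_smul_sub_mem a b ht
      simpa using this
    have := an.eqOn_zero_of_preconnected_of_eventuallyEq_zero isPreconnected_Icc
      (left_mem_Icc.2 zero_le_one) (hy.eventually_zero (an 0 (left_mem_Icc.2 zero_le_one)))
      (right_mem_Icc.2 zero_le_one)
    simpa [add_assoc] using this
  have c3 : Tendsto (fun x => x - x0) (𝓝 x0) (𝓝 0) := by
    simpa using (tendsto_id (x := 𝓝 x0)).sub_const x0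
  filter_upwards [c3.eventually key] with x hx
  simpa using hx

end Pool.Agent.Lib.MP_7f377f_mp.S10
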