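import Pool.Agent.Lib.MP_7f377f_mp.S10KA
import Pool.Agent.Lib.MP_7f377f_mp.S10KB
import Pool.Agent.Lib.MP_7f377f_mp.S10KC
import Pool.Agent.Lib.MP_7f377f_mp.S10KD
import Pool.Agent.Lib.MP_7f377f_mp.S10KE
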