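import Pool.Agent.Lib.MP_7f377f_mp.Q6Poly
import Pool.Agent.Lib.MP_7f377f_mp.Q5Dif

/-! Dense arrays of sources which are normalised on the scale of their cells are small. -/

noncomputable section

open Pool.Agent.Lib.MP_7f377f_mp.Jet

namespace Pool.Agent.Lib.MP_7f377f_mp.YM7

open MeasureTheory Filter Real

/-- one source in each cell, normalised on the scale of the cell, with a small weight -/
def Poly4 [MeasurableSpace SU2] (h : Measure SU2) {ι : Type} (Φ : Filter ι) (n : ι → ℕ)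
    [∀ p, NeZero (n p)] (a b τ : ι → ℝ) : Prop :=
  ∃ C : ℝ, 0 ≤ C ∧ ∀ η > 0, ∀ᶠ e : ℕ in atTop, ∀ᶠ p in Φ, ∃ (m lam : ℕ) (_ : NeZero m), Odd m ∧
    3 ^ e ∣ m ∧ n p = m * lam ∧ a p * lam = (3 ^ e)⁻¹ ∧ ∃ Λ, Inv Λ lam ∧
      Gen h (b p) (κ := Unit) (n := n p) Λ
        (Cla (m := m) (a p) (a p * 3 ^ e) (τ p) ((3 ^ e)⁻¹ / 32) lam 0) η (exp (C * m ^ 4))

end Pool.Agent.Lib.MP_7f377f_mp.YM7

namespace Pool.Agent.Lib.MP_7f377f_mp.RG.Q4.En.Gl

open Finset Real Sg Br YM7 Filter Topology MeasureTheory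

/-- the integral of the representation -/
def iv (G : Gl) (k : ℕ) (z : Z) (d : Lx × Ac) : ℂ :=
  ∫ U, Rep (G.p k) (G.N k) ((G.sl k z).Φ d.1) d.2 (pc (G.N k) U) ∂PP

theorem iv_bd : ∃ C : ℝ, 0 ≤ C ∧ ∀ {G : Gl} {J j : ℕ} {z : Z} {b : ℝ}, G.Ok → 0 ≤ b → G.Gd b J j z →
    exp (-(C / G.g j * G.N j ^ 4)) ≤ ‖G.iv j z z.d‖ ∧ ∀ β θ k ψ K,
      (G.sl j z).Sml β θ k ψ K → ‖G.iv j z (ψ, K)‖ ≤ exp (C * G.N j ^ 4) := by
  obtain ⟨c, C, c0, -, C0, H⟩ := maj_rep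
  obtain ⟨a, a0, a1, hz⟩ := z_low
  have a2 : ∀ g, a * min a g ≤ 1 := fun g => by nlinarith [min_le_left a g]
  refine ⟨C + 12 * (a * a)⁻¹, by positivity, fun {G J j z b} h b0 d => ⟨?_, fun β θ k ψ K sm => ?_⟩⟩
  · have n := h.sl_nf j z
    have nu := (h.sl_all j z).nu
    have g0 := h.g0 j
    have g1 := h.g1 j
    have m0 := lt_min a0 g0
    have a3 := mul_pos a0 m0
    have sz := h.sz_sl d.dt.sz z
    have ω := Pos.qsq nu (i := 100) (by norm_num)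
    obtain ⟨k, k1, k2⟩ := sz.2
    have q := h.Q0 j
    have w : G.Q j ^ 110 * G.g j ^ 2 ≤ 1 / 1000 := by
      linarith [mul_le_mul_of_nonneg_right (h.Qbb j (i := 110) (by norm_num)) (sq_nonneg (G.g j)),
        h.bg j]
    have sm : (G.sl j z).Sml _ _ k z.ψ z.K := ⟨by
      change G.Q j ^ 100 * (G.Q j ^ 10 * (1 + 1) * G.g j ^ 2) ≤ 1
      linarith, by
      change G.Q j ^ 100 * (√(G.g j) * 1 * G.g j ^ 2) ≤ 1
      change G.Q j ^ 100 * √(G.g j) ≤ 1 at ω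
      nlinarith [mul_le_mul ω (show G.g j ^ 2 ≤ 1 by nlinarith) (sq_nonneg _) zero_le_one],
      sz.pu nu ω, k1, k2⟩
    have w := fun U hU => H _ _ _ _ _ _ _ _ (h.lf d.tz) sm U (n.symm ▸ hU)
    obtain ⟨κ, κ0, e0⟩ := d.dt.rp
    rw [n] at w e0
    obtain ⟨gf, -, pf⟩ := (h.f_facts J j).1 b b0
    have lo := hz _ _ (κ * exp (-(C * G.N j ^ 4))) _ (h.N_odd j) gf pf (by positivity) m0
      (min_le_left _ _) fun U hU h1 => by
        rw [e0 U hU, Complex.re_ofReal_mul]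
        exact mul_le_mul_of_nonneg_left ((w U hU).2 d.dt.re.1 d.dt.re.2.1 fun f =>
          (h1 f).trans (min_le_right _ _)) κ0.le
    have up : En.zz (G.N j) (G.f b J j) (fun _ => 1) ≤ κ * ‖G.iv j z z.d‖ := by
      rw [← abs_of_pos κ0, ← norm_eq_abs, ← Complex.norm_real, ← norm_mul, iv, ← integral_const_mul,
        En.zz]
      erw [← funext fun U => e0 _ (Mx.per_pc (G.N j) U)]
      simp only [mul_one]
      obtain ⟨M, hM⟩ := gf.2.1
      exact (integral_re (.of_bound (gf.1.comp Fi.meas_pc).aestronglyMeasurable M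
        (.of_forall fun _ => hM _))).trans_le (RCLike.re_le_norm _)
    refine le_trans ?_ (le_of_mul_le_mul_left ((mul_assoc ..).ge.trans (lo.trans up)) κ0)
    have N1 : (1 : ℝ) ≤ G.N j ^ 4 := one_le_pow₀ (by exact_mod_cast (h.N_odd j).pos)
    have v : C - 12 * log (a * min a (G.g j)) ≤ (C + 12 * (a * a)⁻¹) / G.g j := by
      have v1 : a * a * G.g j ≤ a * min a (G.g j) := by
        rw [mul_assoc]
        exact mul_le_mul_of_nonneg_left (le_min (by nlinarith) (by nlinarith)) a0.le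
      have v2 := (log_le_sub_one_of_pos (inv_pos.2 a3)).trans (sub_le_sub_right (inv_anti₀
        (by positivity) v1) 1)
      rw [log_inv, mul_inv] at v2
      rw [add_div, mul_div_assoc 12, div_eq_mul_inv _⁻¹]
      linarith [le_div_self C0 g0 g1]
    rw [← exp_log a3, ← exp_nat_mul, ← exp_add, exp_le_exp]
    push_cast
    nlinarith [log_nonpos a3.le (a2 _), mul_le_mul_of_nonneg_right v (zero_le_one.trans N1)]
  · have n := h.sl_nf j z
    have w := fun U hU => (H _ _ _ _ _ _ _ _ (h.lf d.tz) sm U (n.symm ▸ hU)).1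
    rw [n] at w
    refine (norm_integral_le_of_norm_le_const (μ := PP) (.of_forall fun U =>
      (w _ (Mx.per_pc _ U)).trans (exp_le_exp.2 (sub_le_self _
        (mul_nonneg (div_pos c0 (h.g0 j)).le (ps_nonneg _ _)))))).trans ?_
    rw [probReal_univ, mul_one]
    gcongr
    exact le_add_of_nonneg_right (by positivity)

variable {G : Gl} {J i j k l : ℕ} {z : Z} {b u ω q : ℝ} {d : Lx × Ac}

namespace Ok

variable (h : G.Ok)
include h

/-- one step in the large ball -/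
theorem ball1 (A : G.Ad J k z) (s : G.Sz (k + 1) u u ω d.1 d.2) (u1 : G.Q k ^ 2 ≤ u)
    (h1 : √(G.g k) ≤ ω) (hω : G.Q k ^ 100 * ω ≤ 1) (h2 : G.Q k ^ 115 * u * G.g (k + 1) ^ 2 ≤ ω) :
    G.Sz k (3 * u) (3 * u) ω (G.hs k z d).1 (G.hs k z d).2 ∧ ∃ δ : ℂ,
      ‖δ‖ ≤ G.N k ^ 4 * (3 * G.Q k ^ 11 * u * G.g (k + 1) ^ 2) ∧ G.iv (k + 1) z d =
        Complex.exp (∑ y ∈ (G.sd k z).Λ', (G.sd k z).Ey 0 0 y + δ) * G.iv k (G.nx k z) (G.hs k z d) := by
  have nu := (h.sd_all k z).nu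
  have f := h.st2 A.tz
  have sz := h.sz_sd s z
  have h1' : √(G.g (k + 1)) ≤ ω := (sqrt_le_sqrt (h.g_succ k)).trans h1
  have q0 := h.Q0 k
  have q1 := h.Q1 k
  have u2 : 1 ≤ u := (one_le_pow₀ q1).trans u1
  obtain ⟨a1, -⟩ := lin_step nu f sz h1' hω
  obtain ⟨⟨b, θ, k0, sm⟩, k', b1, b2⟩ := ball_step nu f sz u2 h1' hω h2
  obtain ⟨c1, -, -⟩ := h.src_ps A.tz A.lt A.v A.kp
  have ω0 : 0 ≤ ω := (sqrt_nonneg _).trans h1
  have w := qom nu hω (i := 50) (by norm_num)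
  have gg : G.g (k + 1) ^ 2 ≤ G.g k ^ 2 := pow_le_pow_left₀ (h.g0 _).le (h.g_succ k) _
  have w1 : ω * u * G.g (k + 1) ^ 2 ≤ ω * u * G.g k ^ 2 := by gcongr
  have w0 : 0 ≤ ω * u * G.g (k + 1) ^ 2 := by positivity
  refine ⟨⟨PM.mono (h.ρ0 k) (PM.add (h.ρ0 k) a1 c1).1 ?_ ?_ ?_, k', b1, b2.mono ?_⟩,
    ∑ y ∈ (G.sd k z).Λ', ((G.sd k z).Ey d.1 d.2 y - (G.sd k z).Ey 0 0 y), ?_, ?_⟩
  · change u + G.Q k ^ 50 * ω * (u + u) + _ ≤ _
    change 1000 * (G.Q k ^ 50 * ω) ≤ 1 at w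
    linarith only [mul_le_mul_of_nonneg_right w (zero_le_one.trans u2), u1, u2]
  · change G.Q k ^ 2 * _ + _ ≤ _
    linarith only [pow_pos q0 2, mul_le_mul_of_nonneg_left u2 (pow_pos q0 2).le]
  · change G.Q k ^ 50 * ω * _ * G.g (k + 1) ^ 2 + _ ≤ _
    have := mul_le_mul_of_nonneg_left w1 (pow_pos q0 50).le
    have := mul_le_mul_of_nonneg_left (mul_le_mul h1 u2 zero_le_one ω0)
      (show 0 ≤ G.Q k ^ 50 * G.g k ^ 2 by positivity)
    have := mul_nonneg (pow_pos q0 50).le w0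
    linarith
  · change ω * u * G.g (k + 1) ^ 2 / 2 ≤ _
    linarith
  · obtain ⟨m, m1, m2⟩ := sz.2
    refine (norm_sum_le _ _).trans ((sum_le_card_nsmul _ _ _ fun y _ =>
      ey_le A.pu (sz.pu nu hω) m1 m2 y).trans ?_)
    have e : (((G.sd k z).Λ').card : ℝ) = G.N k ^ 4 := by
      have := Nat.two_mul_div_two_add_one_of_odd (h.N_odd k)
      rw [Sd.Λ', RG.card_box]
      exact_mod_cast congrArg (· ^ 4) this
    rw [nsmul_eq_mul, e]
    refine mul_le_mul_of_nonneg_left ?_ (by positivity)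
    change G.Q k * (G.Q k ^ 10 * (u + u) * G.g (k + 1) ^ 2) + ω * u * G.g (k + 1) ^ 2 ≤ _
    have := mul_le_mul_of_nonneg_right (show ω ≤ G.Q k ^ 11 by
      nlinarith [one_le_pow₀ (n := 100) q1, one_le_pow₀ (n := 11) q1])
      (show 0 ≤ u * G.g (k + 1) ^ 2 by positivity)
    linarith
  · have g : GI (G.sd k z).nf (Rep (G.sd k z).p (G.sd k z).nf ((G.sd k z).Φ d.1) d.2) :=
      Rep_GI nu.p_ok.1 (sqrt_nonneg _) nu.ok.odd_nf (nu.lo_Φ (h.tok_sd A.tz) sm.pu.lo) sm.km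
    have e := Br.int_TT (h.a0 k) (h.N_odd k) g
    rw [sum_sub_distrib, add_sub_cancel, iv, iv, ← integral_const_mul, ← h.sd_nf k z]
    refine e.symm.trans (congrArg _ (funext fun W => ?_))
    refine (f.id _ _ _ _ _ sm _ (Mx.per_pc _ W)).trans ?_
    rw [h.phi_eq]
    rfl

/-- many steps in the large ball -/
theorem ball_chain (t : G.Tu b J) (hp : G.Pu) (hl : l ≤ J) {ε : ℝ} (s : G.Sz l u u ω d.1 d.2)
    (u1 : G.Q l ^ 2 ≤ u) (hω : G.Q l ^ 100 * ω ≤ 1) (c : ∀ k, i ≤ k → k < l → √(G.g k) ≤ ω ∧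
      G.Q l ^ 115 * (3 ^ (l - i) * u) * G.g (k + 1) ^ 2 ≤ ω ∧
      G.N l ^ 4 * (6 * G.Q l ^ 11 * (3 ^ (l - i) * u) * G.g (k + 1) ^ 2) ≤ ε) :
    ∀ k ≤ l, i ≤ k → ∃ (d' : Lx × Ac) (δ : ℂ), G.Sz k (3 ^ (l - k) * u) (3 ^ (l - k) * u) ω d'.1 d'.2 ∧
      ‖δ‖ ≤ (l - k : ℕ) * ε ∧ G.iv l (G.zz b J l) d * G.iv k (G.zz b J k) (G.zz b J k).d =
        Complex.exp δ * G.iv k (G.zz b J k) d' * G.iv l (G.zz b J l) (G.zz b J l).d :=
  dw_ind (fun _ => ⟨d, 0, by simpa using s, by simp, by simp⟩) fun k hk ih hi => by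
    obtain ⟨d', δ, a1, a2, a3⟩ := ih (by omega)
    obtain ⟨c1, c2, c3⟩ := c k hi hk
    have hJ : k < J := by omega
    have A := h.ad t hJ (hp _ _ (h.tok_sd (t.gd _ hJ).tz))
    have q0 := h.Q0 k
    have q1 := h.Q0 l
    have qq := h.Q_mono hk.le
    have u0 : 0 ≤ u := (sq_nonneg _).trans u1
    have u2 : u ≤ 3 ^ (l - (k + 1)) * u := le_mul_of_one_le_left u0 (one_le_pow₀ (by norm_num))
    have u3 : 3 ^ (l - (k + 1)) * u ≤ 3 ^ (l - i) * u := by gcongr <;> [norm_num; omega]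
    have u4 : G.Q k ^ 2 ≤ 3 ^ (l - (k + 1)) * u := le_trans (by gcongr) (u1.trans u2)
    have ω0 : 0 ≤ ω := (sqrt_nonneg _).trans c1
    have ω1 : G.Q k ^ 100 * ω ≤ 1 := le_trans (by gcongr) hω
    have ω2 : G.Q k ^ 115 * (3 ^ (l - (k + 1)) * u) * G.g (k + 1) ^ 2 ≤ ω :=
      le_trans (by gcongr) c2
    have u5 : 1 ≤ 3 ^ (l - (k + 1)) * u := (one_le_pow₀ (h.Q1 k)).trans u4
    obtain ⟨b1, δ1, b2, b3⟩ := h.ball1 A a1 u4 c1 ω1 ω2
    obtain ⟨-, δ2, e2, e3⟩ := h.ball1 (d := (G.zz b J (k + 1)).d) A (h.sz_le (t.gd _ hJ).dt.sz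
      (sqrt_nonneg _) u5 u5 ((sqrt_le_sqrt (h.g_succ k)).trans c1)) u4 c1 ω1 ω2
    have nn : (G.N k : ℝ) ≤ G.N l := by
      exact_mod_cast h.rt_N hk.le ▸ Nat.le_mul_of_pos_left _ (Nat.cast_pos.1 (rt_pos (G := G) l k))
    have ε1 : G.N k ^ 4 * (3 * G.Q k ^ 11 * (3 ^ (l - (k + 1)) * u) * G.g (k + 1) ^ 2) ≤ ε / 2 := by
      refine le_trans (b := G.N l ^ 4 * (3 * G.Q l ^ 11 * (3 ^ (l - i) * u) * G.g (k + 1) ^ 2))
        (by gcongr) (by linarith)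
    rw [zz_step b hJ]
    refine ⟨_, δ + δ1 - δ2, by
      rwa [show l - k = l - (k + 1) + 1 by omega, pow_succ', mul_assoc], ?_, ?_⟩
    · rw [show l - k = l - (k + 1) + 1 by omega, Nat.cast_succ]
      linarith [norm_sub_le (δ + δ1) δ2, norm_add_le δ δ1]
    · rw [b3, e3] at a3
      refine mul_left_cancel₀ (Complex.exp_ne_zero (∑ y ∈ (G.sd k (G.zz b J (k + 1))).Λ',
        (G.sd k (G.zz b J (k + 1))).Ey 0 0 y + δ2)) ?_
      refine (mul_left_comm ..).trans (a3.trans ?_)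
      simp only [← mul_assoc, ← Complex.exp_add]
      congr 3
      ring

/-- the ratio of the integrals in the large ball -/
theorem iv_ratio {C m : ℝ} (C0 : 0 ≤ C) (H : ∀ {j : ℕ} {z : Z}, G.Gd b J j z →
      exp (-(C / G.g j * G.N j ^ 4)) ≤ ‖G.iv j z z.d‖ ∧ ∀ β θ k ψ K,
        (G.sl j z).Sml β θ k ψ K → ‖G.iv j z (ψ, K)‖ ≤ exp (C * G.N j ^ 4))
    (t : G.Tu b J) (hp : G.Pu) (hl : l ≤ J) (hB : 2 * G.Bk l ≤ l) (hm : G.N l ≤ m * G.Q l ^ 3)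
    (s : G.Sz l (G.bb l / G.Q l ^ 225) (G.bb l / G.Q l ^ 225) (G.Q l ^ 100)⁻¹ d.1 d.2) :
    G.iv l (G.zz b J l) (G.zz b J l).d ≠ 0 ∧
      ‖G.iv l (G.zz b J l) d / G.iv l (G.zz b J l) (G.zz b J l).d‖ ≤ exp ((2 * C + 1) * m ^ 4) := by
  obtain ⟨i, hi⟩ : ∃ i, l = i + 2 * G.Bk l := ⟨l - 2 * G.Bk l, by omega⟩
  have il : i ≤ l := by omega
  have q0 := h.Q0 l
  have q1 := h.Q1 l
  have b0 := h.b0 l
  have n0 : (0 : ℝ) < G.N l := by exact_mod_cast (h.N_odd l).pos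
  have m0 : 0 < m := (mul_pos_iff_of_pos_right (pow_pos q0 _)).1 (n0.trans_le hm)
  have w2 : 3 ^ (l - i) ≤ G.L l :=
    (Nat.pow_le_pow_left (by norm_num) _).trans (h.pow_L l (i := l - i) (by omega))
  have w3 : (3 : ℝ) ^ (l - i) ≤ G.Q l := le_trans (by exact_mod_cast w2) (h.LQ l)
  have wi : ((l - i : ℕ) : ℝ) ≤ G.Q l :=
    le_trans (by exact_mod_cast (Nat.lt_pow_self (by norm_num)).le) w3
  have w := h.win1 il le_rfl (by omega)
  have gk : ∀ k, i ≤ k → G.bb l * G.g k ^ 2 ≤ 2 := fun k hk => by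
    have := mul_le_mul_of_nonneg_right (w.2.2.trans (mul_le_mul_of_nonneg_left (h.b_mono hk)
      zero_le_two)) (sq_nonneg (G.g k))
    rwa [mul_assoc, h.bg, mul_one] at this
  have uk : ∀ k, i ≤ k → G.Q l ^ 224 * (3 ^ (l - i) * (G.bb l / G.Q l ^ 225) * G.g k ^ 2) ≤ 2 :=
    fun k hk => calc
      _ ≤ G.Q l ^ 224 * (G.Q l * (G.bb l / G.Q l ^ 225) * G.g k ^ 2) := by gcongr
      _ = G.bb l * G.g k ^ 2 := by field_simp
      _ ≤ 2 := gk k hk
  have ω1 : G.Q l ^ 100 * (G.Q l ^ 100)⁻¹ ≤ 1 := (mul_inv_cancel₀ (by positivity)).le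
  have n4 : (G.N l : ℝ) ^ 4 ≤ m ^ 4 * G.Q l ^ 12 :=
    (pow_le_pow_left₀ n0.le hm 4).trans_eq (by ring)
  refine (h.ball_chain (i := i) (ε := m ^ 4 / G.Q l) t hp hl s (by
    rw [le_div_iff₀ (by positivity), ← pow_add]
    exact (pow_le_pow_right₀ q1 (by norm_num)).trans (h.Qb l)) ω1 (fun k h1 h2 => ⟨?_, ?_, ?_⟩) i il
      le_rfl).elim fun d' ⟨δ, a1, a2, a3⟩ => ?_
  · refine sqrt_le_iff.2 ⟨by positivity, le_of_sq_le_sq ?_ (by positivity)⟩
    rw [inv_pow, inv_pow, ← one_div, le_div_iff₀' (by positivity), ← pow_mul, ← pow_mul]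
    change G.Q l ^ 400 * _ ≤ _
    linarith [gk k h1, mul_le_mul_of_nonneg_right (h.Qbb l (i := 400) (by norm_num)) (sq_nonneg (G.g k)),
      show 0 ≤ G.Q l ^ 400 * G.g k ^ 2 by positivity]
  · have u0 : 0 ≤ 3 ^ (l - i) * (G.bb l / G.Q l ^ 225) * G.g (k + 1) ^ 2 := by positivity
    rw [← one_div, le_div_iff₀' (by positivity)]
    linarith [uk (k + 1) (by omega),
      mul_le_mul_of_nonneg_right (h.qpw l (show 215 < 224 by norm_num)) u0]
  · have u0 : 0 ≤ 3 ^ (l - i) * (G.bb l / G.Q l ^ 225) * G.g (k + 1) ^ 2 := by positivity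
    have v := uk (k + 1) (by omega)
    rw [le_div_iff₀' q0, mul_assoc (6 * _)]
    generalize 3 ^ (l - i) * (G.bb l / G.Q l ^ 225) * G.g (k + 1) ^ 2 = x at *
    calc _ ≤ G.Q l * (m ^ 4 * G.Q l ^ 12 * (6 * G.Q l ^ 11 * x)) := by gcongr
      _ = m ^ 4 * (6 * (G.Q l ^ 24 * x)) := by ring
      _ ≤ m ^ 4 * 1 := by
        gcongr
        linarith [mul_le_mul_of_nonneg_right (h.qpw l (show 24 < 224 by norm_num)) u0]
      _ = _ := mul_one _
  · obtain ⟨l1, l2⟩ := H (t.gd i (il.trans hl))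
    have nu := (h.sl_all i (G.zz b J i)).nu
    have qi := h.Q0 i
    have qq := h.Q_mono il
    have sz := h.sz_sl a1 (G.zz b J i)
    obtain ⟨k, k1, k2⟩ := sz.2
    have ω2 : G.Q i ^ 100 * (G.Q l ^ 100)⁻¹ ≤ 1 := le_trans (by gcongr) ω1
    have v := uk i le_rfl
    generalize 3 ^ (l - i) * (G.bb l / G.Q l ^ 225) = u at *
    have u0 : 0 ≤ u * G.g i ^ 2 := mul_nonneg (h.sz_nn a1).1 (sq_nonneg _)
    have v1 : G.Q i ^ 110 * (u * G.g i ^ 2) ≤ 1 / 500 := by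
      have : G.Q i ^ 110 ≤ G.Q l ^ 223 :=
        (pow_le_pow_left₀ qi.le qq _).trans (pow_le_pow_right₀ q1 (by norm_num))
      linarith [mul_le_mul_of_nonneg_right this u0,
        mul_le_mul_of_nonneg_right (h.qpw l (show 223 < 224 by norm_num)) u0]
    have l3 := l2 _ _ k d'.1 d'.2 ⟨by
      change G.Q i ^ 100 * (G.Q i ^ 10 * (u + u) * G.g i ^ 2) ≤ 1
      linarith, by
      change G.Q i ^ 100 * ((G.Q l ^ 100)⁻¹ * u * G.g i ^ 2) ≤ 1
      linarith [mul_le_mul_of_nonneg_right ω2 u0,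
        mul_le_mul_of_nonneg_right (one_le_pow₀ (n := 110) (h.Q1 i)) u0], sz.pu nu ω2, k1, k2⟩
    have z0 := norm_pos_iff.1 ((exp_pos _).trans_le (H (t.gd l hl)).1)
    have z1 := (exp_pos _).trans_le l1
    refine ⟨z0, ?_⟩
    have a4 := congrArg norm a3
    simp only [norm_mul] at a4
    rw [norm_div, div_le_iff₀ (norm_pos_iff.2 z0)]
    refine le_of_mul_le_mul_right (a4.trans_le ?_) z1
    rw [mul_right_comm (exp _)]
    refine mul_le_mul_of_nonneg_right ((mul_le_mul ((Complex.norm_exp_le_exp_norm δ).trans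
      (exp_le_exp.2 a2)) l3 (norm_nonneg _) (exp_pos _).le).trans
      (le_trans ?_ (mul_le_mul_of_nonneg_left l1 (exp_pos _).le))) (norm_nonneg _)
    rw [← exp_add, ← exp_add, exp_le_exp]
    have L := h.L1 i
    have gi := h.g0 i
    have c1 : G.bb i * G.N i ^ 4 ≤ m ^ 4 := by
      have e1 : G.bb i ≤ (G.L i : ℝ) ^ (4 * G.Bk l) := ((h.sch.le i).1.trans (h.sch.upp i)).trans
        (pow_le_pow_right₀ (by change _ ≤ (G.L i : ℝ); linarith)
          (Nat.mul_le_mul_left 4 (h.sch.Bmo il)))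
      have e2 : (G.L i : ℝ) ^ (2 * G.Bk l) * G.N i ≤ G.N l := by
        have := Nat.mul_le_mul_right (G.N i) (h.le_rt i il)
        rw [h.rt_N il, show l - i = 2 * G.Bk l by omega] at this
        exact_mod_cast this
      have e3 : G.Q l ^ 12 ≤ (G.L i : ℝ) ^ (4 * G.Bk l) := by
        refine (pow_le_pow_left₀ q0.le w.2.1 12).trans ?_
        rw [Q, ← pow_mul, ← pow_mul]
        exact pow_le_pow_right₀ (by linarith) (by have := h.B1; have := h.B_lo l; omega)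
      have e4 := (pow_le_pow_left₀ (by positivity) e2 4).trans
        (n4.trans (mul_le_mul_of_nonneg_left e3 (by positivity)))
      refine le_of_mul_le_mul_right (le_trans ?_ e4) (by positivity)
      calc _ ≤ (G.L i : ℝ) ^ (4 * G.Bk l) * G.N i ^ 4 * (G.L i : ℝ) ^ (4 * G.Bk l) := by gcongr
        _ = _ := by ring
    have c2 : (G.g i)⁻¹ ≤ G.bb i := by
      rw [inv_le_iff_one_le_mul₀ gi]
      nlinarith [h.bg i, h.g1 i, h.b0 i, mul_pos (h.b0 i) gi]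
    have c3 : 1 ≤ (G.g i)⁻¹ := (one_le_inv₀ gi).2 (h.g1 i)
    have c4 : (0 : ℝ) ≤ C * G.N i ^ 4 := by positivity
    have c5 : ((l - i : ℕ) : ℝ) * (m ^ 4 / G.Q l) ≤ m ^ 4 :=
      (mul_le_mul_of_nonneg_right wi (by positivity)).trans_eq (by field_simp)
    rw [div_eq_mul_inv C]
    linarith [mul_le_mul_of_nonneg_right c2 c4, mul_le_mul_of_nonneg_right c3 c4,
      mul_le_mul_of_nonneg_left c1 C0]

/-- the level adapted to the mesh -/
theorem ex_lev4 {P : ℕ → Prop} (hP : ∀ᶠ j in atTop, P j) : ∀ᶠ e : ℕ in atTop, ∃ l, P l ∧ e ≤ G.e l ∧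
    1100 * G.Q l ≤ 3 ^ (G.e l - e) ∧ 3 ^ (G.e l - e) ≤ G.Q l ^ 3 := by
  have t : Tendsto (fun e : ℕ => ((3 : ℝ) ^ e)⁻¹) atTop (𝓝[>] 0) := tendsto_nhdsWithin_iff.2
    ⟨(tendsto_pow_atTop_atTop_of_one_lt (by norm_num)).inv_tendsto_atTop,
      .of_forall fun e => by simp⟩
  filter_upwards [t.eventually (h.ex_jm (A := 1100) (by norm_num)
    ((tendsto_add_atTop_nat (2 * G.K)).eventually hP))] with e ⟨_, j, l, e1, e2⟩
  have L := h.L1 j
  have y : 1 ≤ (G.L j : ℝ) ^ G.K0 := one_le_pow₀ (by linarith)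
  have jl : j ≤ j + 2 * G.K := Nat.le_add_right ..
  have j1 : e ≤ G.e j := by
    have : (1 : ℝ) ≤ (3 ^ e)⁻¹ * 3 ^ G.e j := by linarith
    rw [le_inv_mul_iff₀ (by positivity), mul_one] at this
    exact (pow_le_pow_iff_right₀ (by norm_num)).1 this
  have j2 := h.sch.mono.monotone jl
  rw [inv_mul_eq_div, div_eq_mul_inv, ← pow_sub₀ _ three_ne_zero j1] at e1 e2
  have e3 : (3 : ℝ) ^ (G.e (j + 2 * G.K) - e) = G.rt (j + 2 * G.K) j * 3 ^ (G.e j - e) := by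
    rw [rt, Nat.cast_pow, Nat.cast_ofNat, ← pow_add]
    congr 1
    omega
  have r1 : (G.L j : ℝ) ^ (2 * G.K) ≤ G.rt (j + 2 * G.K) j := by
    have := h.le_rt j jl
    rw [Nat.add_sub_cancel_left] at this
    exact_mod_cast this
  have r2 : (G.rt (j + 2 * G.K) j : ℝ) ≤ G.L (j + 2 * G.K) ^ (2 * G.K) := by
    have := h.rt_le j jl
    rw [Nat.add_sub_cancel_left] at this
    exact_mod_cast this
  have w := (h.win1 jl le_rfl (by omega)).2.1
  have c : (G.L j : ℝ) ≤ G.L (j + 2 * G.K) := Nat.cast_le.2 (h.L_mono jl)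
  refine ⟨_, l, j1.trans j2, ?_, ?_⟩ <;> rw [e3]
  · rw [mul_comm]
    refine mul_le_mul (w.trans (le_trans ?_ r1)) (by linarith) (by norm_num) (Nat.cast_nonneg _)
    rw [Q, ← pow_mul, mul_comm]
  · rw [Q, ← pow_mul, show G.K * 3 = 2 * G.K + G.K by ring, pow_add]
    refine mul_le_mul r2 (e2.trans (le_trans ?_ (pow_le_pow_left₀ (by linarith) c _)))
      (by positivity) (by positivity)
    refine le_trans ?_ (pow_le_pow_right₀ (by linarith) (show 2 + (G.K0 + 1) ≤ G.K by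
      have := h.K0_le; omega))
    rw [pow_add _ 2]
    exact mul_le_mul_of_nonneg_right (by nlinarith) (by positivity)

end Ok

end Pool.Agent.Lib.MP_7f377f_mp.RG.Q4.En.Gl
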