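import Mathlib

/-! Series of entire functions on a complex normed space are analytic. -/

noncomputable section

namespace Pool.Agent.Lib.MP_7f377f_mp.S10

open Metric Set Filter Topology
open scoped Nat

variable {V E : Type*} [NormedAddCommGroup V] [NormedSpace ℂ V] [NormedAddCommGroup E]
  [NormedSpace ℂ E] [CompleteSpace E]

/-- iterated Cauchy estimate -/
theorem norm_iter_le {G : V → E} (hG : AnalyticOnNhd ℂ G univ) {R u d : ℝ} (hd : 0 < d)
    (hu : ∀ z ∈ ball (0 : V) R, ‖G z‖ ≤ u) (n : ℕ) :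
    ∀ x : V, ‖x‖ + n * d < R → ‖iteratedFDeriv ℂ n G x‖ ≤ u * (2 / d) ^ n := by
  induction n with
  | zero => intro x hx; simpa using hu x (by simpa using hx)
  | succ n ih =>
    intro x hx
    rw [← norm_fderiv_iteratedFDeriv]
    have hb : ∀ y ∈ ball x d, ‖iteratedFDeriv ℂ n G y‖ ≤ u * (2 / d) ^ n := fun y hy => by
      refine ih y ?_
      have h1 : ‖y‖ ≤ ‖x‖ + ‖y - x‖ := by simpa using norm_add_le x (y - x)
      have h2 : ‖y - x‖ < d := by simpa [dist_eq_norm] using hy
      push_cast at hx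
      nlinarith
    have := Complex.norm_fderiv_le_div_of_mapsTo_ball (f := iteratedFDeriv ℂ n G) (c := x)
      (R₁ := d) (R₂ := 2 * (u * (2 / d) ^ n))
      (((hG.iteratedFDeriv n).differentiableOn).mono (subset_univ _)) (fun y hy => by
        rw [mem_closedBall, dist_eq_norm]
        have := norm_sub_le (iteratedFDeriv ℂ n G y) (iteratedFDeriv ℂ n G x)
        linarith [hb y hy, hb x (mem_ball_self hd)]) hd
    refine this.trans (le_of_eq ?_)
    rw [pow_succ]; field_simp

/-- Taylor coefficients at the origin -/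
def tay (G : V → E) (n : ℕ) : ContinuousMultilinearMap ℂ (fun _ : Fin n => V) E :=
  (n ! : ℂ)⁻¹ • iteratedFDeriv ℂ n G 0

theorem norm_tay_le {G : V → E} (hG : AnalyticOnNhd ℂ G univ) {R u : ℝ} (hR : 0 < R)
    (hu : ∀ z ∈ ball (0 : V) R, ‖G z‖ ≤ u) (n : ℕ) : ‖tay G n‖ ≤ u * (12 / R) ^ n := by
  have u0 : 0 ≤ u := (norm_nonneg _).trans (hu 0 (mem_ball_self hR))
  rcases Nat.eq_zero_or_pos n with rfl | hn
  · simpa [tay] using hu 0 (mem_ball_self hR)
  have hn' : (0 : ℝ) < n := by exact_mod_cast hn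
  have h1 := norm_iter_le hG (d := R / (2 * n)) (by positivity) hu n 0 (by
    rw [norm_zero, zero_add]
    have : (n : ℝ) * (R / (2 * n)) = R / 2 := by field_simp
    linarith)
  have h2 : (n : ℝ) ^ n / n ! ≤ 3 ^ n := by
    refine (Real.pow_div_factorial_le_exp (n : ℝ) hn'.le n).trans ?_
    rw [← Real.exp_one_pow]
    exact pow_le_pow_left₀ (Real.exp_pos 1).le (by linarith [Real.exp_one_lt_d9]) n
  have h3 : (2 / (R / (2 * n))) = (4 / R) * n := by field_simp; norm_num
  rw [tay, norm_smul, norm_inv, Complex.norm_natCast]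
  calc ((n ! : ℝ))⁻¹ * ‖iteratedFDeriv ℂ n G 0‖ ≤ (n ! : ℝ)⁻¹ * (u * (2 / (R / (2 * n))) ^ n) := by
        gcongr
    _ = u * (4 / R) ^ n * ((n : ℝ) ^ n / n !) := by rw [h3, mul_pow]; ring
    _ ≤ u * (4 / R) ^ n * 3 ^ n := by gcongr
    _ = u * (12 / R) ^ n := by rw [mul_assoc, ← mul_pow]; congr 2; ring

theorem hasSum_tay {G : V → E} (hG : AnalyticOnNhd ℂ G univ) (y : V) :
    HasSum (fun n => tay G n fun _ => y) (G y) := by
  have hc : ContDiff ℂ ⊤ G := contDiff_iff_contDiffAt.2 fun x => (hG x trivial).contDiffAt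
  set L : ℂ →L[ℂ] V := ContinuousLinearMap.toSpanSingleton ℂ y
  have hd : Differentiable ℂ (G ∘ L) := (hc.differentiable (by simp)).comp L.differentiable
  have := Complex.hasSum_taylorSeries_of_entire hd 0 1
  simp only [sub_zero, one_pow, one_smul, Function.comp_apply] at this
  have e : L 1 = y := by simp [L]
  rw [e] at this
  convert this using 2 with n
  rw [tay, iteratedDeriv_eq_iteratedFDeriv, L.iteratedFDeriv_comp_right hc 0 le_top]
  simp [e]

/-- a normally convergent series of entire functions is analytic -/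
theorem analyticOnNhd_tsum {q : ℕ → V → E} (hq : ∀ m, AnalyticOnNhd ℂ (q m) univ) {R : ℝ}
    (hR : 0 < R) {u : ℕ → ℝ} (hu : ∀ m, ∀ z ∈ ball (0 : V) R, ‖q m z‖ ≤ u m) (hs : Summable u) :
    AnalyticOnNhd ℂ (fun z => ∑' m, q m z) (ball 0 (R / 12)) := by
  have u0 : ∀ m, 0 ≤ u m := fun m => (norm_nonneg _).trans (hu m 0 (mem_ball_self hR))
  have ht := fun m => norm_tay_le (hq m) hR (hu m)
  have hsum : ∀ n, Summable fun m => tay (q m) n := fun n =>
    Summable.of_norm_bounded (hs.mul_right _) fun m => ht m n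
  set p : FormalMultilinearSeries ℂ V E := fun n => ∑' m, tay (q m) n with hp
  have hpn : ∀ n, ‖p n‖ ≤ (∑' m, u m) * (12 / R) ^ n := fun n => by
    rw [← tsum_mul_right]
    exact tsum_of_norm_bounded (hs.mul_right _).hasSum fun m => ht m n
  lift R / 12 to NNReal using by positivity with ρ hρ
  have hρ' : (12 / R) * ρ = 1 := by rw [hρ]; field_simp
  have ρ0 : (0 : ℝ) < ρ := by rw [hρ]; positivity
  have key : HasFPowerSeriesOnBall (fun z => ∑' m, q m z) p 0 ρ := by
    refine ⟨p.le_radius_of_bound (∑' m, u m) fun n => ?_, by exact_mod_cast ρ0, fun {y} hy => ?_⟩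
    · calc ‖p n‖ * (ρ : ℝ) ^ n ≤ (∑' m, u m) * (12 / R) ^ n * (ρ : ℝ) ^ n := by
            gcongr; exact hpn n
        _ = _ := by rw [mul_assoc, ← mul_pow, hρ']; simp
    · have hy' : ‖y‖ < ρ := by simpa [Metric.eball_coe] using hy
      have a1 : 12 / R * ‖y‖ < 1 := by rw [← hρ']; gcongr
      have a0 : 0 ≤ 12 / R * ‖y‖ := by positivity
      have hb : ∀ m n, ‖tay (q m) n fun _ => y‖ ≤ u m * (12 / R * ‖y‖) ^ n := fun m n => by
        refine ((tay (q m) n).le_opNorm _).trans ?_
        simp only [Finset.prod_const, Finset.card_univ, Fintype.card_fin, mul_pow, ← mul_assoc]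
        gcongr; exact ht m n
      have hS : Summable fun x : ℕ × ℕ => tay (q x.1) x.2 fun _ => y :=
        Summable.of_norm_bounded (summable_mul_of_summable_norm (f := u)
          (g := fun n => (12 / R * ‖y‖) ^ n) hs.norm
          (summable_geometric_of_lt_one a0 a1).norm) fun x => hb x.1 x.2
      have h1 : HasSum (fun m => q m y) (∑' x : ℕ × ℕ, tay (q x.1) x.2 fun _ => y) :=
        hS.hasSum.prod_fiberwise fun m => hasSum_tay (hq m) y
      have h2 := (Equiv.prodComm ℕ ℕ).hasSum_iff.2 hS.hasSum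
      rw [zero_add, h1.tsum_eq]
      refine HasSum.prod_fiberwise h2 fun n => ?_
      have h3 := (ContinuousMultilinearMap.apply ℂ (fun _ : Fin n => V) E fun _ => y).hasSum
        (hsum n).hasSum
      simpa [hp] using h3
  simpa [Metric.eball_coe] using key.analyticOnNhd

end Pool.Agent.Lib.MP_7f377f_mp.S10
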