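import Mathlib

set_option autoImplicit false

/-! Abstract covariance bound from a weighted integrated Bochner inequality. -/

namespace Pool.Agent.Lib.MP_7f377f_mp.SUN

open Finset

section CS
variable {R : Type*} [AddCommGroup R] [Module ℝ R]

lemma bil_cs (B : R →ₗ[ℝ] R →ₗ[ℝ] ℝ) (hs : ∀ u v, B u v = B v u) (hp : ∀ u, 0 ≤ B u u) (u v : R) :
    B u v ^ 2 ≤ B u u * B v v := by
  have h : ∀ t : ℝ, 0 ≤ B v v * (t * t) + (2 * B u v) * t + B u u := by
    intro t
    have := hp (u + t • v)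
    simp only [map_add, map_smul, LinearMap.add_apply, LinearMap.smul_apply, smul_eq_mul] at this
    rw [hs v u] at this
    linarith
  have := discrim_le_zero h
  unfold discrim at this
  nlinarith

lemma bil_abs_le (B : R →ₗ[ℝ] R →ₗ[ℝ] ℝ) (hs : ∀ u v, B u v = B v u) (hp : ∀ u, 0 ≤ B u u)
    (u v : R) : |B u v| ≤ √(B u u) * √(B v v) := by
  rw [← Real.sqrt_mul (hp u)]
  exact Real.abs_le_sqrt (bil_cs B hs hp u v)

lemma bil_triangle (B : R →ₗ[ℝ] R →ₗ[ℝ] ℝ) (hs : ∀ u v, B u v = B v u) (hp : ∀ u, 0 ≤ B u u)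
    (u v : R) : √(B (u - v) (u - v)) ≤ √(B u u) + √(B v v) := by
  rw [Real.sqrt_le_left (by positivity)]
  have h1 := bil_abs_le B hs hp u v
  have h2 := neg_abs_le (B u v)
  simp only [map_sub, LinearMap.sub_apply]
  rw [hs v u, add_sq, Real.sq_sqrt (hp u), Real.sq_sqrt (hp v)]
  linarith

end CS

variable {R : Type*} [CommRing R] [Algebra ℝ R] {I : Type*} [Fintype I]

/-- weighted Dirichlet form -/
noncomputable def dir (X : I → Derivation ℝ R R) (E : R →ₗ[ℝ] ℝ) (w : I → ℝ) :
    R →ₗ[ℝ] R →ₗ[ℝ] ℝ :=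
  LinearMap.mk₂ ℝ (fun u v => ∑ i, w i * E (X i u * X i v))
    (by intro a b c; simp only [map_add, add_mul, mul_add, sum_add_distrib])
    (by
      intro a b c
      simp only [Derivation.map_smul, smul_mul_assoc, map_smul, smul_eq_mul, mul_sum]
      exact sum_congr rfl fun i _ => by ring)
    (by intro a b c; simp only [map_add, mul_add, sum_add_distrib])
    (by
      intro a b c
      simp only [Derivation.map_smul, mul_smul_comm, map_smul, smul_eq_mul, mul_sum]
      exact sum_congr rfl fun i _ => by ring)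

lemma dir_apply (X : I → Derivation ℝ R R) (E : R →ₗ[ℝ] ℝ) (w : I → ℝ) (u v : R) :
    dir X E w u v = ∑ i, w i * E (X i u * X i v) := rfl

lemma dir_symm (X : I → Derivation ℝ R R) (E : R →ₗ[ℝ] ℝ) (w : I → ℝ) (u v : R) :
    dir X E w u v = dir X E w v u := by
  simp only [dir_apply, mul_comm (X _ u)]

lemma dir_nonneg (X : I → Derivation ℝ R R) {E : R →ₗ[ℝ] ℝ} (hE : ∀ f, 0 ≤ E (f * f))
    {w : I → ℝ} (hw : ∀ i, 0 ≤ w i) (u : R) : 0 ≤ dir X E w u u :=
  sum_nonneg fun i _ => mul_nonneg (hw i) (hE _)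

/-- the quadratic form of a functional -/
noncomputable def quad (E : R →ₗ[ℝ] ℝ) : R →ₗ[ℝ] R →ₗ[ℝ] ℝ := (LinearMap.mul ℝ R).compr₂ E

lemma quad_apply (E : R →ₗ[ℝ] ℝ) (u v : R) : quad E u v = E (u * v) := rfl

lemma young (E : R →ₗ[ℝ] ℝ) (hE : ∀ f, 0 ≤ E (f * f)) (u v : R) (t : ℝ) (ht : 0 < t) :
    E (u * v) ≤ t / 2 * E (u * u) + 1 / (2 * t) * E (v * v) := by
  have := hE (t • u - v)
  have e : (t • u - v) * (t • u - v) = (t * t) • (u * u) - (2 * t) • (u * v) + v * v := by
    simp only [Algebra.smul_def, map_mul, map_ofNat]; ring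
  rw [e] at this
  simp only [map_add, map_sub, map_smul, smul_eq_mul] at this
  have h2 : t / 2 * E (u * u) + 1 / (2 * t) * E (v * v) - E (u * v) =
      (t * t * E (u * u) - 2 * t * E (u * v) + E (v * v)) / (2 * t) := by
    field_simp; ring
  have : 0 ≤ (t * t * E (u * u) - 2 * t * E (u * v) + E (v * v)) / (2 * t) := by positivity
  linarith

lemma sum_sq_le (E : R →ₗ[ℝ] ℝ) (hE : ∀ f, 0 ≤ E (f * f)) (x : I → R) :
    E ((∑ i, x i) * (∑ i, x i)) ≤ Fintype.card I * ∑ i, E (x i * x i) := by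
  rw [sum_mul_sum, map_sum]
  simp only [map_sum]
  calc ∑ i, ∑ j, E (x i * x j) ≤ ∑ i, ∑ j, (1 / 2 * E (x i * x i) + 1 / 2 * E (x j * x j)) := by
        refine sum_le_sum fun i _ => sum_le_sum fun j _ => ?_
        have := young E hE (x i) (x j) 1 one_pos
        norm_num at this ⊢
        linarith
    _ = Fintype.card I * ∑ i, E (x i * x i) := by
        simp only [sum_add_distrib, sum_const, card_univ, nsmul_eq_mul, ← mul_sum]
        ring

/-- the sum of squares of the derivations -/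
noncomputable def lap (X : I → Derivation ℝ R R) : R →ₗ[ℝ] R :=
  ∑ i, (X i).toLinearMap ∘ₗ (X i).toLinearMap

lemma lap_apply (X : I → Derivation ℝ R R) (u : R) : lap X u = ∑ i, X i (X i u) := by
  simp [lap]

/-- the generator of the Langevin dynamics -/
noncomputable def gen (X : I → Derivation ℝ R R) (V : R) (u : R) : R :=
  lap X u + ∑ i, X i V * X i u

lemma ibp_gen (X : I → Derivation ℝ R R) (E : R →ₗ[ℝ] ℝ) (V : R)
    (h : ∀ i f, E (X i f) = -E (f * X i V)) (f u : R) :
    E (f * gen X V u) = -dir X E (fun _ => 1) f u := by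
  rw [gen, lap_apply, dir_apply, ← sum_add_distrib, mul_sum, map_sum, ← sum_neg_distrib]
  refine sum_congr rfl fun i _ => ?_
  have := h i (f * X i u)
  rw [Derivation.leibniz, smul_eq_mul, smul_eq_mul, map_add] at this
  rw [mul_add, map_add, one_mul, mul_comm (X i f)]
  have e : f * (X i V * X i u) = f * X i u * X i V := by ring
  rw [e]
  linarith

lemma ibp_lap (X : I → Derivation ℝ R R) (E : R →ₗ[ℝ] ℝ) (h : ∀ i f, E (X i f) = 0) (f u : R) :
    E (f * lap X u) = -dir X E (fun _ => 1) f u := by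
  have := ibp_gen X E 0 (fun i f => by simp [h]) f u
  simpa [gen] using this

/-- the data and hypotheses of the reference state -/
structure RefState (X : I → Derivation ℝ R R) (E0 : R →ₗ[ℝ] ℝ) : Prop where
  pos : ∀ f, 0 ≤ E0 (f * f)
  nd : ∀ f, E0 (f * f) = 0 → f = 0
  ibp : ∀ i f, E0 (X i f) = 0
  one : E0 1 = 1
  bdd : ∀ b : R, ∃ C : ℝ, ∀ f, E0 ((b * f) * (b * f)) ≤ C * E0 (f * f)
  comm : ∀ j f, X j (lap X f) = lap X (X j f)
  fin : ∀ g : R, ∃ S : Submodule ℝ R, FiniteDimensional ℝ S ∧ g ∈ S ∧ (1 : R) ∈ S ∧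
    ∀ i, ∀ f ∈ S, X i f ∈ S
  const : ∀ f : R, (∀ i, X i f = 0) → ∃ c : ℝ, f = c • (1 : R)
  ric : ∃ K0 : ℝ, 0 < K0 ∧ ∀ u, K0 * dir X E0 (fun _ => 1) u u ≤ E0 (lap X u * lap X u)

variable {X : I → Derivation ℝ R R} {E0 : R →ₗ[ℝ] ℝ}

lemma solve_of_inj {S : Submodule ℝ R} [FiniteDimensional ℝ S] (A : R →ₗ[ℝ] R)
    (hA : ∀ f ∈ S, A f ∈ S) (hinj : ∀ f, A f = 0 → f = 0) {g : R} (hg : g ∈ S) :
    ∃ u, A u = g := by
  have h1 : Function.Injective (A.restrict hA) := by
    rw [← LinearMap.ker_eq_bot, LinearMap.ker_eq_bot']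
    intro m hm
    have := congrArg Subtype.val hm
    exact Subtype.ext (hinj _ this)
  obtain ⟨u, hu⟩ := LinearMap.injective_iff_surjective.1 h1 ⟨g, hg⟩
  exact ⟨u, congrArg Subtype.val hu⟩

lemma lap_mem {S : Submodule ℝ R} (h : ∀ i, ∀ f ∈ S, X i f ∈ S) {f : R} (hf : f ∈ S) :
    lap X f ∈ S := by
  rw [lap_apply]
  exact S.sum_mem fun i _ => h i _ (h i _ hf)

lemma RefState.resolvent (h : RefState X E0) {c : ℝ} (hc : 0 < c) (g : R) :
    ∃ u, c • u - lap X u = g := by
  obtain ⟨S, hS, hg, -, hX⟩ := h.fin g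
  refine solve_of_inj (S := S) (c • LinearMap.id - lap X) ?_ ?_ hg
  · intro f hf
    exact S.sub_mem (S.smul_mem c hf) (lap_mem hX hf)
  · intro f hf
    have h1 : c • f - lap X f = 0 := hf
    have h2 : E0 (f * (c • f - lap X f)) = 0 := by rw [h1]; simp
    rw [mul_sub, map_sub, ibp_lap X E0 h.ibp, mul_smul_comm, map_smul, smul_eq_mul] at h2
    have h3 := dir_nonneg X h.pos (w := fun _ => 1) (fun _ => zero_le_one) f
    have h4 := h.pos f
    apply h.nd
    nlinarith

lemma RefState.poincare (h : RefState X E0) : ∃ C : ℝ, 0 ≤ C ∧ ∀ g : R,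
    E0 ((g - E0 g • 1) * (g - E0 g • 1)) ≤ C * dir X E0 (fun _ => 1) g g := by
  obtain ⟨K0, hK, hric⟩ := h.ric
  refine ⟨1 / K0, by positivity, fun g => ?_⟩
  obtain ⟨S, hS, hg, h1, hX⟩ := h.fin g
  have hlap : ∀ u, E0 (lap X u) = 0 := fun u => by
    rw [lap_apply, map_sum]; exact sum_eq_zero fun i _ => h.ibp i _
  have hp := dir_nonneg X h.pos (w := fun _ => 1) (fun _ => zero_le_one)
  obtain ⟨u, hu⟩ := solve_of_inj (S := S) (E0.smulRight (1 : R) - lap X) (fun f hf =>
    S.sub_mem (S.smul_mem _ h1) (lap_mem hX hf)) (fun f hf => by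
      have e1 : E0 f • (1 : R) - lap X f = 0 := hf
      have e2 := congrArg E0 e1
      rw [map_sub, map_smul, hlap, h.one] at e2
      simp only [smul_eq_mul, mul_one, sub_zero, map_zero] at e2
      rw [e2, zero_smul, zero_sub, neg_eq_zero] at e1
      have e3 := ibp_lap X E0 h.ibp f f
      rw [e1, mul_zero, map_zero, dir_apply] at e3
      have e4 : ∀ i, X i f = 0 := by
        intro i
        apply h.nd
        have := (sum_eq_zero_iff_of_nonneg (s := univ)
          (f := fun i => 1 * E0 (X i f * X i f)) (fun i _ => by simpa using h.pos _)).1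
          (by linarith) i (mem_univ i)
        simpa using this
      obtain ⟨c, rfl⟩ := h.const f e4
      rw [map_smul, h.one] at e2
      simp only [smul_eq_mul, mul_one] at e2
      simp [e2]) hg
  have e1 : E0 u • (1 : R) - lap X u = g := hu
  have e2 := congrArg E0 e1
  rw [map_sub, map_smul, hlap, h.one] at e2
  simp only [smul_eq_mul, mul_one, sub_zero] at e2
  have e3 : g - E0 g • 1 = -lap X u := by rw [← e2, ← e1]; ring
  have e4 : E0 ((g - E0 g • 1) * (g - E0 g • 1)) = dir X E0 (fun _ => 1) g u := by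
    nth_rewrite 2 [e3]
    rw [mul_neg, map_neg, ibp_lap X E0 h.ibp, neg_neg, map_sub, map_smul, LinearMap.sub_apply,
      LinearMap.smul_apply]
    have : dir X E0 (fun _ => 1) 1 u = 0 := by simp [dir_apply]
    rw [this]; simp
  have e5 := hric u
  have e6 : E0 (lap X u * lap X u) = E0 ((g - E0 g • 1) * (g - E0 g • 1)) := by
    rw [e3, neg_mul_neg]
  have e7 := bil_cs _ (dir_symm X E0 (fun _ => 1)) hp g u
  set a := E0 ((g - E0 g • 1) * (g - E0 g • 1))
  have ha : 0 ≤ a := h.pos _
  rw [← e4] at e7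
  rw [e6] at e5
  have hg' := hp g
  rw [one_div, inv_mul_eq_div, le_div_iff₀ hK]
  by_cases h0 : a = 0
  · rw [h0]; simpa using hg'
  have ha' : 0 < a := lt_of_le_of_ne ha (Ne.symm h0)
  have : a * (a * K0) ≤ a * dir X E0 (fun _ => 1) g g := by nlinarith
  exact le_of_mul_le_mul_left this ha'

lemma RefState.contract (h : RefState X E0) (V : R) : ∃ c : ℝ, 0 < c ∧ ∀ r : R, ∃ u r' : R,
    r = c • u - gen X V u + r' ∧
      dir X E0 (fun _ => 1) r' r' ≤ 1 / 2 * dir X E0 (fun _ => 1) r r := by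
  choose C1 hC1 using fun i => h.bdd (X i V)
  choose C2 hC2 using fun p : I × I => h.bdd (X p.1 (X p.2 V))
  obtain ⟨C, hC0, hC1', hC2'⟩ : ∃ C : ℝ, 0 ≤ C ∧ (∀ i, C1 i ≤ C) ∧ ∀ p, C2 p ≤ C := by
    refine ⟨∑ i, |C1 i| + ∑ p, |C2 p|, by positivity, fun i => ?_, fun p => ?_⟩
    · have := single_le_sum (f := fun i => |C1 i|) (fun i _ => abs_nonneg _) (mem_univ i)
      have h2 : 0 ≤ ∑ p, |C2 p| := by positivity
      linarith [le_abs_self (C1 i)]
    · have := single_le_sum (f := fun p => |C2 p|) (fun i _ => abs_nonneg _) (mem_univ p)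
      have h2 : 0 ≤ ∑ p, |C1 p| := by positivity
      linarith [le_abs_self (C2 p)]
  set m : ℝ := (Fintype.card I : ℝ) with hm
  have m0 : 0 ≤ m := by positivity
  set c : ℝ := 4 * m * C * (m + 1) + 1 with hc
  have c1 : 1 ≤ c := by have : 0 ≤ 4 * m * C * (m + 1) := by positivity
                        linarith
  refine ⟨c, by linarith, fun r => ?_⟩
  obtain ⟨u, hu⟩ := h.resolvent (c := c) (by linarith) r
  refine ⟨u, ∑ i, X i V * X i u, by rw [← hu, gen]; ring, ?_⟩
  have key : ∀ i, c / 2 * E0 (X i u * X i u) + ∑ j, E0 (X j (X i u) * X j (X i u)) ≤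
      1 / (2 * c) * E0 (X i r * X i r) := by
    intro i
    have e1 : X i r = c • X i u - lap X (X i u) := by
      rw [← hu, map_sub, Derivation.map_smul, h.comm]
    have e2 := young E0 h.pos (X i u) (X i r) c (by linarith)
    nth_rewrite 1 [e1] at e2
    rw [mul_sub, map_sub, ibp_lap X E0 h.ibp, mul_smul_comm, map_smul, smul_eq_mul,
      dir_apply] at e2
    simp only [one_mul] at e2
    linarith
  have est : ∀ j, E0 (X j (∑ i, X i V * X i u) * X j (∑ i, X i V * X i u)) ≤
      m * ∑ i, (2 * C * E0 (X i u * X i u) + 2 * C * E0 (X j (X i u) * X j (X i u))) := by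
    intro j
    rw [map_sum]
    refine (sum_sq_le E0 h.pos _).trans (mul_le_mul_of_nonneg_left (sum_le_sum fun i _ => ?_) m0)
    rw [Derivation.leibniz, smul_eq_mul, smul_eq_mul, mul_comm (X i u)]
    set a := X i V * X j (X i u)
    set b := X j (X i V) * X i u
    have e1 : (a + b) * (a + b) = a * a + (a * b + a * b) + b * b := by ring
    have e2 := young E0 h.pos a b 1 one_pos
    have e3 := (hC1 i (X j (X i u))).trans (mul_le_mul_of_nonneg_right (hC1' i) (h.pos _))
    have e4 := (hC2 (j, i) (X i u)).trans (mul_le_mul_of_nonneg_right (hC2' (j, i)) (h.pos _))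
    rw [e1, map_add, map_add, map_add]
    norm_num at e2
    change E0 (a * a) ≤ _ at e3
    change E0 (b * b) ≤ _ at e4
    linarith
  simp only [dir_apply, one_mul]
  set A := ∑ i, E0 (X i u * X i u) with hA
  set B := ∑ i, ∑ j, E0 (X j (X i u) * X j (X i u)) with hB
  set N := ∑ i, E0 (X i r * X i r) with hN
  have A0 : 0 ≤ A := sum_nonneg fun i _ => h.pos _
  have B0 : 0 ≤ B := sum_nonneg fun i _ => sum_nonneg fun j _ => h.pos _
  have k1 : c / 2 * A + B ≤ 1 / (2 * c) * N := by
    rw [hA, hB, hN, mul_sum, mul_sum, ← sum_add_distrib]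
    exact sum_le_sum fun i _ => key i
  have k2 : ∑ j, E0 (X j (∑ i, X i V * X i u) * X j (∑ i, X i V * X i u)) ≤
      m * (2 * C * (m * A) + 2 * C * B) := by
    refine (sum_le_sum fun j _ => est j).trans (le_of_eq ?_)
    rw [← mul_sum]
    congr 1
    simp only [sum_add_distrib, ← mul_sum, sum_const, card_univ, nsmul_eq_mul]
    rw [hB, sum_comm]
  refine k2.trans ?_
  have k3 : c * (c * A) + 2 * (c * B) ≤ N := by
    have := mul_le_mul_of_nonneg_left k1 (by linarith : 0 ≤ 2 * c)
    have e : 2 * c * (1 / (2 * c) * N) = N := by field_simp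
    rw [e] at this
    linarith
  have c0 : 0 ≤ c := by linarith
  have cA := mul_nonneg c0 A0
  have cB := mul_nonneg c0 B0
  have ccA : c * A ≤ c * (c * A) := le_mul_of_one_le_left cA c1
  have k4 : c * A ≤ N := by linarith
  have k5 : c * B ≤ N := by linarith
  have N0 : 0 ≤ N := le_trans (mul_nonneg (by linarith) A0) k4
  have k6 : c * (m * (2 * C * (m * A) + 2 * C * B)) ≤ c * (1 / 2 * N) := by
    have a1 : (2 * C * m * m) * (c * A) ≤ (2 * C * m * m) * N :=
      mul_le_mul_of_nonneg_left k4 (by positivity)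
    have a2 : (2 * C * m) * (c * B) ≤ (2 * C * m) * N :=
      mul_le_mul_of_nonneg_left k5 (by positivity)
    have a3 : c * (1 / 2 * N) = (2 * C * m * m) * N + (2 * C * m) * N + 1 / 2 * N := by
      rw [hc]; ring
    nlinarith
  exact le_of_mul_le_mul_left k6 (by linarith)

lemma gen_add (V u v : R) : gen X V (u + v) = gen X V u + gen X V v := by
  simp only [gen, map_add, mul_add, sum_add_distrib]; ring

lemma RefState.dense (h : RefState X E0) (V : R) : ∃ c : ℝ, 0 < c ∧ ∀ (g : R) (ε : ℝ), 0 < ε →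
    ∃ u r : R, g = c • u - gen X V u + r ∧ dir X E0 (fun _ => 1) r r ≤ ε := by
  obtain ⟨c, hc, H⟩ := h.contract V
  refine ⟨c, hc, fun g ε hε => ?_⟩
  have key : ∀ n : ℕ, ∃ u r : R, g = c • u - gen X V u + r ∧
      dir X E0 (fun _ => 1) r r ≤ (1 / 2) ^ n * dir X E0 (fun _ => 1) g g := by
    intro n
    induction n with
    | zero => exact ⟨0, g, by simp [gen], by simp⟩
    | succ n ih =>
      obtain ⟨u, r, h1, h2⟩ := ih
      obtain ⟨u', r', h3, h4⟩ := H r
      refine ⟨u + u', r', ?_, ?_⟩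
      · rw [gen_add, smul_add]
        nth_rewrite 1 [h1, h3]
        ring
      · rw [pow_succ]; linarith
  have hp := dir_nonneg X h.pos (w := fun _ => 1) (fun _ => zero_le_one) g
  obtain ⟨n, hn⟩ := exists_pow_lt_of_lt_one
    (show 0 < ε / (dir X E0 (fun _ => 1) g g + 1) by positivity) (show (1 / 2 : ℝ) < 1 by norm_num)
  obtain ⟨u, r, h1, h2⟩ := key n
  refine ⟨u, r, h1, h2.trans ?_⟩
  rw [lt_div_iff₀ (by positivity)] at hn
  have : 0 < (1 / 2 : ℝ) ^ n := by positivity
  nlinarith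

theorem RefState.cov_bound (h : RefState X E0) (E : R →ₗ[ℝ] ℝ) (V : R) (w : I → ℝ)
    (hw : ∀ i, 0 < w i) (Epos : ∀ f, 0 ≤ E (f * f)) (Eone : E 1 = 1)
    (hibp : ∀ i f, E (X i f) = -E (f * X i V))
    (hcomp : ∃ C : ℝ, 0 ≤ C ∧ ∀ f, E (f * f) ≤ C * E0 (f * f) ∧ E0 (f * f) ≤ C * E (f * f))
    (K : ℝ) (hK : 0 < K) (boch : ∀ u, K * dir X E w u u ≤ -dir X E w u (gen X V u)) (f g : R) :
    |E (f * g) - E f * E g| ≤
      1 / K * √(dir X E (fun i => (w i)⁻¹) f f) * √(dir X E w g g) := by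
  obtain ⟨C, hC, hcomp⟩ := hcomp
  have hp := dir_nonneg X Epos (w := w) (fun i => (hw i).le)
  have hs := dir_symm X E w
  set F := √(dir X E (fun i => (w i)⁻¹) f f) with hF
  have F0 : 0 ≤ F := Real.sqrt_nonneg _
  set sn : R → ℝ := fun u => √(dir X E w u u) with hsn
  have sn0 : ∀ u, 0 ≤ sn u := fun u => Real.sqrt_nonneg _
  set D : R → ℝ := fun g => E (f * g) - E f * E g with hD
  -- the Dirichlet form against `f`
  have hE : ∀ u, |dir X E (fun _ => 1) f u| ≤ F * sn u := by
    intro u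
    rw [hF, hsn, ← Real.sqrt_mul (dir_nonneg X Epos (fun i => (inv_pos.2 (hw i)).le) f)]
    refine Real.abs_le_sqrt ?_
    simp only [dir_apply, one_mul]
    refine sum_sq_le_sum_mul_sum_of_sq_le_mul _ (fun i _ => mul_nonneg (inv_pos.2 (hw i)).le (Epos _))
      (fun i _ => mul_nonneg (hw i).le (Epos _)) (fun i _ => ?_)
    have := bil_cs (quad E) (fun u v => by rw [quad_apply, quad_apply, mul_comm]) Epos
      (X i f) (X i u)
    simp only [quad_apply] at this
    refine this.trans (le_of_eq ?_)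
    have := (hw i).ne'
    field_simp
  -- comparison of the forms
  obtain ⟨W, W0, hW1, hW2⟩ : ∃ W : ℝ, 0 ≤ W ∧ (∀ i, w i ≤ W) ∧ ∀ i, 1 ≤ W * w i := by
    refine ⟨∑ i, (w i + (w i)⁻¹), sum_nonneg fun i _ => by have := hw i; positivity,
      fun i => ?_, fun i => ?_⟩
    · have := single_le_sum (f := fun i => w i + (w i)⁻¹)
        (fun i _ => by have := hw i; positivity) (mem_univ i)
      have := inv_pos.2 (hw i)
      linarith
    · have h1 := single_le_sum (f := fun i => w i + (w i)⁻¹)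
        (fun i _ => by have := hw i; positivity) (mem_univ i)
      have h2 := mul_le_mul_of_nonneg_right h1 (hw i).le
      have h3 : (w i + (w i)⁻¹) * w i = w i * w i + 1 := by
        have := (hw i).ne'
        field_simp
      nlinarith [mul_self_nonneg (w i)]
  have cmp1 : ∀ u, dir X E w u u ≤ W * C * dir X E0 (fun _ => 1) u u := by
    intro u
    simp only [dir_apply, one_mul, mul_sum]
    refine sum_le_sum fun i _ => ?_
    rw [mul_assoc]
    exact mul_le_mul (hW1 i) (hcomp _).1 (Epos _) W0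
  have cmp2 : ∀ u, dir X E0 (fun _ => 1) u u ≤ C * W * dir X E w u u := by
    intro u
    simp only [dir_apply, one_mul, mul_sum]
    refine sum_le_sum fun i _ => (hcomp _).2.trans ?_
    have := mul_le_mul_of_nonneg_right (hW2 i) (mul_nonneg hC (Epos (X i u)))
    linarith
  -- a crude bound
  obtain ⟨CP, CP0, hP⟩ := h.poincare
  have crude : ∃ C0 : ℝ, 0 ≤ C0 ∧ ∀ g, |D g| ≤ C0 * sn g := by
    refine ⟨√(E ((f - E f • 1) * (f - E f • 1))) * √(C * CP * (C * W)), by positivity, fun g => ?_⟩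
    have e1 : D g = quad E (f - E f • 1) (g - E0 g • 1) := by
      rw [quad_apply, hD]
      simp only [sub_mul, mul_sub, smul_mul_assoc, mul_smul_comm, one_mul, mul_one, map_sub,
        map_smul, smul_eq_mul, Eone]
      ring
    rw [e1]
    refine (bil_abs_le (quad E) (fun u v => by rw [quad_apply, quad_apply, mul_comm]) Epos _ _).trans ?_
    rw [mul_assoc]
    refine mul_le_mul_of_nonneg_left ?_ (Real.sqrt_nonneg _)
    rw [hsn, ← Real.sqrt_mul (by positivity)]
    refine Real.sqrt_le_sqrt ?_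
    rw [quad_apply]
    refine (hcomp _).1.trans ?_
    have a1 := (hP g).trans (mul_le_mul_of_nonneg_left (cmp2 g) CP0)
    have := mul_le_mul_of_nonneg_left a1 hC
    linarith
  obtain ⟨c, hc, hd⟩ := h.dense V
  -- the improvement step
  have step : ∀ C0 : ℝ, 0 ≤ C0 → (∀ g, |D g| ≤ C0 * sn g) →
      ∀ g, |D g| ≤ (c * C0 + F) / (c + K) * sn g := by
    intro C0 hC0 H g
    refine le_of_forall_pos_le_add fun ε hε => ?_
    set M := (c * C0 + F) / (c + K) + C0 + 1 with hM
    have M0 : 0 < M := by positivity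
    obtain ⟨u, r, h1, h2⟩ := hd g ((ε / M) ^ 2 / (W * C + 1)) (by positivity)
    have hr : sn r ≤ ε / M := by
      rw [hsn, Real.sqrt_le_left (by positivity)]
      refine (cmp1 r).trans ((mul_le_mul_of_nonneg_left h2 (by positivity)).trans ?_)
      rw [← mul_div_assoc, div_le_iff₀ (by positivity)]
      nlinarith [sq_nonneg (ε / M)]
    have e1 : D g = c * D u + dir X E (fun _ => 1) f u + D r := by
      have a1 := ibp_gen X E V hibp f u
      have a2 := ibp_gen X E V hibp 1 u
      have a3 : dir X E (fun _ => 1) 1 u = 0 := by simp [dir_apply]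
      rw [a3, one_mul, neg_zero] at a2
      rw [h1, hD]
      simp only [mul_add, mul_sub, mul_smul_comm, map_add, map_sub, map_smul, smul_eq_mul, a1, a2]
      ring
    have e2 : (c + K) * sn u ≤ sn g + sn r := by
      have a1 : c • u - gen X V u = g - r := by rw [h1]; ring
      have a2 := bil_triangle _ hs hp g r
      have a3 := bil_abs_le _ hs hp u (g - r)
      have a4 : (c + K) * dir X E w u u ≤ dir X E w u (g - r) := by
        rw [← a1, map_sub, map_smul, smul_eq_mul]
        linarith [boch u]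
      have a5 : dir X E w u u = sn u * sn u := (Real.mul_self_sqrt (hp u)).symm
      by_cases h0 : sn u = 0
      · rw [h0, mul_zero]; exact add_nonneg (sn0 g) (sn0 r)
      have a6 : 0 < sn u := lt_of_le_of_ne (sn0 u) (Ne.symm h0)
      have a7 : sn u * ((c + K) * sn u) ≤ sn u * (sn g + sn r) := by
        have := mul_le_mul_of_nonneg_left a2 (sn0 u)
        have := le_abs_self (dir X E w u (g - r))
        rw [a5] at a4
        change _ ≤ sn u * _ at a3
        change _ ≤ sn u * (sn g + sn r) at *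
        linarith
      exact le_of_mul_le_mul_left a7 a6
    have e3 : |D g| ≤ (c * C0 + F) * sn u + C0 * sn r := by
      rw [e1]
      refine (abs_add_le _ _).trans (add_le_add ((abs_add_le _ _).trans ?_) (H r))
      rw [abs_mul, abs_of_pos hc, add_mul, mul_assoc]
      exact add_le_add (mul_le_mul_of_nonneg_left (H u) hc.le) (hE u)
    have e4 : (c * C0 + F) * sn u ≤ (c * C0 + F) / (c + K) * (sn g + sn r) := by
      rw [div_mul_eq_mul_div, le_div_iff₀ (by positivity), mul_assoc, mul_comm (sn u)]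
      exact mul_le_mul_of_nonneg_left e2 (by positivity)
    have e5 : M * sn r ≤ ε := by
      have := mul_le_mul_of_nonneg_left hr M0.le
      rwa [mul_div_cancel₀ _ M0.ne'] at this
    have e6 := sn0 r
    rw [hM] at e5
    nlinarith
  obtain ⟨C0, hC0, H0⟩ := crude
  have iter : ∀ n : ℕ, ∀ g, |D g| ≤ (F / K + (c / (c + K)) ^ n * C0) * sn g := by
    intro n
    induction n with
    | zero =>
      intro g
      refine (H0 g).trans (mul_le_mul_of_nonneg_right ?_ (sn0 g))
      have : 0 ≤ F / K := by positivity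
      simpa using this
    | succ n ih =>
      intro g
      refine (step _ (by positivity) ih g).trans (le_of_eq ?_)
      congr 1
      rw [pow_succ]
      field_simp
      ring
  change |D g| ≤ 1 / K * F * sn g
  refine le_of_forall_pos_le_add fun ε hε => ?_
  obtain ⟨n, hn⟩ := exists_pow_lt_of_lt_one
    (show 0 < ε / (C0 * sn g + 1) by have := sn0 g; positivity)
    (show c / (c + K) < 1 by rw [div_lt_one (by positivity)]; linarith)
  refine (iter n g).trans ?_
  rw [lt_div_iff₀ (by have := sn0 g; positivity)] at hn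
  have : 0 < (c / (c + K)) ^ n := by positivity
  have e : F / K = 1 / K * F := by ring
  rw [e]
  nlinarith

end Pool.Agent.Lib.MP_7f377f_mp.SUN
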