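import Pool.Agent.Lib.MP_7f377f_mp.SUNPoly

set_option autoImplicit false

/-! The weighted integrated Bochner inequality, and the Haar and Gibbs states. -/

namespace Pool.Agent.Lib.MP_7f377f_mp.SUN

open Finset Matrix MeasureTheory

lemma boch_id {R : Type*} [CommRing R] [Algebra ℝ R] {I : Type*} [Fintype I]
    (X : I → Derivation ℝ R R) (E : R →ₗ[ℝ] ℝ) (V : R)
    (h : ∀ i f, E (X i f) = -E (f * X i V)) (hc : ∀ j f, X j (lap X f) = lap X (X j f)) (u : R)
    (i : I) : -E (X i u * X i (gen X V u)) = ∑ j, E (X j (X i u) * X j (X i u)) -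
      ∑ j, E (X i (X j V) * X j u * X i u) -
      E (∑ j, X i u * X j V * (X i (X j u) - X j (X i u))) := by
  have h1 : X i u * X i (gen X V u) = X i u * gen X V (X i u) + ∑ j, X i (X j V) * X j u * X i u +
      ∑ j, X i u * X j V * (X i (X j u) - X j (X i u)) := by
    simp only [gen, map_add, hc, map_sum, Derivation.leibniz, smul_eq_mul, mul_add, mul_sum,
      add_assoc, ← sum_add_distrib]
    congr 1
    exact sum_congr rfl fun j _ => by ring
  rw [h1, map_add, map_add, ibp_gen X E V h, dir_apply, map_sum]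
  simp only [one_mul]
  ring

variable {n : Type} [Fintype n] [DecidableEq n] {ι : Type} [Fintype ι]
  {G : Type} [Group G] [TopologicalSpace G] (H : Grp G n ι) {Λ : Type} [DecidableEq Λ]

namespace Grp

omit [DecidableEq Λ] in
lemma ev_smul (U : Λ → G) (c : ℝ) (f : H.P Λ) : H.ev U (c • f) = c * H.ev U f := rfl

/-- monotone functionals -/
def Mono (E : H.P Λ →ₗ[ℝ] ℝ) : Prop := ∀ f, (∀ U, 0 ≤ H.ev U f) → 0 ≤ E f

variable {H}

omit [DecidableEq Λ] in
lemma Mono.le {E : H.P Λ →ₗ[ℝ] ℝ} (h : H.Mono E) {f g : H.P Λ} (hfg : ∀ U, H.ev U f ≤ H.ev U g) :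
    E f ≤ E g := by
  have := h (g - f) fun U => by rw [map_sub]; linarith [hfg U]
  rw [map_sub] at this
  linarith

omit [DecidableEq Λ] in
lemma Mono.pos {E : H.P Λ →ₗ[ℝ] ℝ} (h : H.Mono E) (f : H.P Λ) : 0 ≤ E (f * f) :=
  h _ fun U => by rw [map_mul]; exact mul_self_nonneg _

variable (H)

/-- squared gradient in one link -/
noncomputable def gr (e : Λ) (u : H.P Λ) : H.P Λ := ∑ a, H.D e (H.t a) u * H.D e (H.t a) u

lemma ev_gr (e : Λ) (u : H.P Λ) (U : Λ → G) :
    H.ev U (H.gr e u) = ip (H.om e u U) (H.om e u U) := by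
  rw [om_sq, gr, map_sum]; simp only [map_mul]

/-- squared mixed second derivative -/
noncomputable def mix (k e : Λ) (u : H.P Λ) : H.P Λ :=
  ∑ a, ∑ c, H.D k (H.t c) (H.D e (H.t a) u) * H.D k (H.t c) (H.D e (H.t a) u)

/-- Hessian term -/
noncomputable def hes (e e' : Λ) (V u : H.P Λ) : H.P Λ :=
  ∑ a, ∑ b, H.D e (H.t a) (H.D e' (H.t b) V) * H.D e' (H.t b) u * H.D e (H.t a) u

lemma ric_le (e : Λ) (u : H.P Λ) (U : Λ → G) :
    H.ric * H.ev U (H.gr e u) ≤ H.ev U (H.mix e e u) := by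
  set s : ι → ι → ℝ := fun a c => H.ev U (H.D e (H.t c) (H.D e (H.t a) u)) with hs
  set ω := H.om e u U with hω
  have h1 : H.ev U (H.mix e e u) = ∑ a, ∑ c, s a c * s a c := by
    simp only [mix, map_sum, map_mul, hs]
  have h2 : ∀ a c, s a c - s c a = ip (H.T c * ω - ω * H.T c) (H.T a) := by
    intro a c
    simp only [hs]
    rw [H.D_comm_same e (H.t c) (H.t a), map_sub, H.D_apply e (H.br _ _), br, t, t,
      ip_br _ _ _ (H.skew _ (H.mem c))]
    ring
  have h3 : ∀ c, ∑ a, (s a c - s c a) ^ 2 = ip (ω * H.T c - H.T c * ω) (ω * H.T c - H.T c * ω) := by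
    intro c
    have := H.ip_pars (H.lie _ (H.mem c) _ (H.om_mem e u U)) (H.T c * ω - ω * H.T c)
    rw [← neg_sub (H.T c * ω), ip_neg_left, ip_neg_right, neg_neg, ← this]
    refine sum_congr rfl fun a _ => ?_
    rw [h2, sq, ip_comm (H.T a)]
  have h4 := H.ricci ω (H.om_mem e u U)
  simp only [← h3] at h4
  have h5 : ∑ c, ∑ a, (s a c - s c a) ^ 2 ≤ ∑ c, ∑ a, (2 * (s a c * s a c) + 2 * (s c a * s c a)) :=
    sum_le_sum fun c _ => sum_le_sum fun a _ => by nlinarith [sq_nonneg (s a c + s c a)]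
  simp only [sum_add_distrib, ← mul_sum] at h5
  rw [sum_comm (f := fun c a => s a c * s a c)] at h5
  rw [h1, ev_gr, ← hω]
  linarith

variable [Fintype Λ]

lemma comm_zero (e : Λ) (V u : H.P Λ) : ∑ a, ∑ j, H.X (e, a) u * H.X j V *
    (H.X (e, a) (H.X j u) - H.X j (H.X (e, a) u)) = 0 := by
  simp only [Fintype.sum_prod_type, X]
  rw [sum_comm]
  refine sum_eq_zero fun e' _ => ?_
  by_cases h : e = e'
  · subst h
    refine H.ev_ext fun U => ?_
    have h1 : ∀ a b, H.D e (H.t a) (H.D e (H.t b) u) - H.D e (H.t b) (H.D e (H.t a) u) =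
        -H.D e (H.br (H.t a) (H.t b)) u := fun a b => by rw [D_comm_same]; ring
    simp only [h1, map_sum, map_mul, map_neg, map_zero, H.D_apply e (H.br _ _)]
    simp only [br, t]
    have h2 := ip_br (H.om e u U) (H.om e V U) (H.om e u U) (H.skew _ (H.om_mem e u U))
    rw [sub_self, ip_zero_left, neg_zero] at h2
    nth_rewrite 1 [om] at h2
    nth_rewrite 3 [om] at h2
    simp only [show H.om e V U = ∑ a, H.ev U (H.D e (H.t a) V) • H.T a from rfl, sum_mul, mul_sum,
      smul_mul_assoc, mul_smul_comm, ip_sub_left, ip_sum_left, ip_smul_left, t] at h2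
    rw [sum_comm] at h2
    simp only [ip_sub_left, mul_neg, mul_sub, sum_neg_distrib, sum_sub_distrib, mul_assoc]
    simp only [mul_left_comm (H.ev U (H.D e _ V))] at h2
    linarith
  · exact sum_eq_zero fun a _ => sum_eq_zero fun b _ => by rw [H.D_comm_ne h]; simp

lemma dir_eq (E : H.P Λ →ₗ[ℝ] ℝ) (w : Λ → ℝ) (u : H.P Λ) :
    dir H.X E (fun i => w i.1) u u = ∑ e, w e * E (H.gr e u) := by
  simp only [dir_apply, Fintype.sum_prod_type, gr, map_sum, mul_sum, X]

theorem bochner {E : H.P Λ →ₗ[ℝ] ℝ} (hE : H.Mono E) {V : H.P Λ}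
    (hi : ∀ i f, E (H.X i f) = -E (f * H.X i V)) {w : Λ → ℝ} (hw : ∀ e, 0 ≤ w e) (u : H.P Λ) :
    H.ric * ∑ e, w e * E (H.gr e u) + ∑ e, w e * ∑ k ∈ univ.erase e, E (H.mix k e u) -
      ∑ e, w e * ∑ e', E (H.hes e e' V u) ≤ -dir H.X E (fun i => w i.1) u (gen H.X V u) := by
  rw [dir_apply, Fintype.sum_prod_type, mul_sum, ← sum_add_distrib, ← sum_sub_distrib,
    ← sum_neg_distrib]
  refine sum_le_sum fun e _ => ?_
  simp only [← mul_sum]
  rw [mul_left_comm, ← mul_add, ← mul_sub, ← mul_neg, ← sum_neg_distrib]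
  refine mul_le_mul_of_nonneg_left ?_ (hw e)
  simp only [boch_id H.X E V hi H.lap_comm, sum_sub_distrib]
  have h0 := congrArg E (H.comm_zero e V u)
  rw [map_sum, map_zero] at h0
  rw [h0, sub_zero]
  have h1 : ∑ a, ∑ j, E (H.X (e, a) (H.X j V) * H.X j u * H.X (e, a) u) =
      ∑ e', E (H.hes e e' V u) := by
    simp only [Fintype.sum_prod_type, X, hes, map_sum]
    exact sum_comm
  have h2 : ∑ a, ∑ j, E (H.X j (H.X (e, a) u) * H.X j (H.X (e, a) u)) = ∑ k, E (H.mix k e u) := by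
    simp only [Fintype.sum_prod_type, X, mix, map_sum]
    exact sum_comm
  rw [h1, h2, ← add_sum_erase _ (fun k => E (H.mix k e u)) (mem_univ e)]
  have h3 := hE.le (f := H.ric • H.gr e u) (g := H.mix e e u) fun U => by
    rw [ev_smul]; exact H.ric_le e u U
  rw [map_smul, smul_eq_mul] at h3
  linarith

section Measure

variable [IsTopologicalGroup G] [CompactSpace G] [SecondCountableTopology G] [MeasurableSpace G]
  [BorelSpace G] (μ : Measure G) [μ.IsHaarMeasure] [IsProbabilityMeasure μ]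

omit [DecidableEq Λ] [Group G] [IsTopologicalGroup G] in
lemma cm_int (ν : Measure (Λ → G)) [IsFiniteMeasure ν] {f : (Λ → G) → ℝ} (hf : Continuous f) :
    Integrable f ν :=
  hf.integrable_of_hasCompactSupport (HasCompactSupport.of_compactSpace f)

lemma int_hasD {e : Λ} {Y : Matrix n n ℂ} (hY : Y ∈ H.g) {f f' : (Λ → G) → ℝ} (hf : Continuous f)
    (hf' : Continuous f') (h : H.HasD e Y f f') : ∫ U, f' U ∂(Measure.pi fun _ => μ) = 0 := by
  obtain ⟨γ, hγ⟩ := H.curve Y hY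
  have h1 := (hasDerivAt_integral_of_dominated_loc_of_deriv_le (μ := Measure.pi fun _ : Λ => μ)
    (F := fun t U => f (Pi.mulSingle e (γ t) * U)) (F' := fun t U => f' (Pi.mulSingle e (γ t) * U))
    (x₀ := (0 : ℝ)) (s := Set.univ) (bound := fun _ => ‖(⟨f', hf'⟩ : C(Λ → G, ℝ))‖) Filter.univ_mem
    (Filter.Eventually.of_forall fun t => (hf.comp (by fun_prop)).aestronglyMeasurable)
    (cm_int _ (hf.comp (by fun_prop))) (hf'.comp (by fun_prop)).aestronglyMeasurable
    (Filter.Eventually.of_forall fun U t _ =>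
      ContinuousMap.norm_coe_le_norm (⟨f', hf'⟩ : C(Λ → G, ℝ)) _)
    (integrable_const _) (Filter.Eventually.of_forall fun U t _ => h.at hγ U t)).2
  simp only [integral_mul_left_eq_self, hγ.zero, Pi.mulSingle_one, one_mul] at h1
  exact h1.unique (hasDerivAt_const _ _)

/-- expectation for a finite measure -/
noncomputable def ex (ν : Measure (Λ → G)) [IsFiniteMeasure ν] : H.P Λ →ₗ[ℝ] ℝ where
  toFun := fun f => ∫ U, f.1 U ∂ν
  map_add' := fun f g => integral_add (cm_int ν f.1.continuous) (cm_int ν g.1.continuous)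
  map_smul' := fun c _ => integral_smul c _

omit [DecidableEq Λ] [IsTopologicalGroup G] in
lemma ex_apply (ν : Measure (Λ → G)) [IsFiniteMeasure ν] (f : H.P Λ) :
    H.ex ν f = ∫ U, f.1 U ∂ν := rfl

omit [DecidableEq Λ] [IsTopologicalGroup G] in
lemma ex_mono (ν : Measure (Λ → G)) [IsFiniteMeasure ν] : H.Mono (H.ex ν) :=
  fun _ h => integral_nonneg h

omit [DecidableEq Λ] [IsTopologicalGroup G] in
lemma ex_one (ν : Measure (Λ → G)) [IsProbabilityMeasure ν] : H.ex ν 1 = 1 := by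
  simp [ex_apply]

theorem refState : RefState (H.X (Λ := Λ)) (H.ex (Measure.pi fun _ => μ)) := by
  have hi : ∀ i f, H.ex (Measure.pi fun _ : Λ => μ) (H.X i f) = 0 := fun i f =>
    H.int_hasD μ (H.mem i.2) f.1.continuous (H.X i f).1.continuous (H.hasD i.1 (H.t i.2) f)
  refine ⟨(H.ex_mono _).pos, fun f hf => ?_, hi, H.ex_one _, fun b => ⟨‖b.1‖ ^ 2, fun f => ?_⟩,
    H.lap_comm, H.fin_inv, H.const_of_X, H.ric, H.ric_pos, fun u => ?_⟩
  · rw [ex_apply, integral_eq_zero_iff_of_nonneg (f := (f * f).1) (fun U => mul_self_nonneg (f.1 U))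
      (cm_int _ (f * f).1.continuous),
      Continuous.ae_eq_iff_eq _ (f * f).1.continuous continuous_zero] at hf
    exact H.P_ext fun U => mul_self_eq_zero.1 (congrFun hf U)
  · rw [← smul_eq_mul (‖b.1‖ ^ 2), ← map_smul]
    refine (H.ex_mono _).le fun U => ?_
    simp only [map_mul, ev_smul]
    have h1 : H.ev U b ^ 2 ≤ ‖b.1‖ ^ 2 := by
      rw [← sq_abs]
      exact pow_le_pow_left₀ (abs_nonneg _) (b.1.norm_coe_le_norm U) 2
    nlinarith [mul_self_nonneg (H.ev U f)]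
  · have h1 := H.bochner (H.ex_mono (Measure.pi fun _ : Λ => μ)) (V := 0)
      (fun i f => by simp [hi]) (w := fun _ => 1) (fun _ => zero_le_one) u
    have h2 := H.dir_eq (H.ex (Measure.pi fun _ : Λ => μ)) (fun _ => 1) u
    rw [← h2] at h1
    have h3 : 0 ≤ ∑ e, 1 * ∑ k ∈ univ.erase e, H.ex (Measure.pi fun _ : Λ => μ) (H.mix k e u) := by
      refine sum_nonneg fun e _ => mul_nonneg zero_le_one (sum_nonneg fun k _ => ?_)
      simp only [mix, map_sum]
      exact sum_nonneg fun a _ => sum_nonneg fun c _ => (H.ex_mono _).pos _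
    rw [ibp_lap _ _ hi, dir_symm _ _ _ (lap H.X u)]
    simp only [hes, map_zero, zero_mul, sum_const_zero, mul_zero, sub_zero, gen, add_zero] at h1
    linarith

/-- the Gibbs measure -/
noncomputable def gibbs (V : H.P Λ) : Measure (Λ → G) := (Measure.pi fun _ => μ).tilted V.1

instance (V : H.P Λ) : IsProbabilityMeasure (H.gibbs μ V) :=
  isProbabilityMeasure_tilted (cm_int _ (Real.continuous_exp.comp V.1.continuous))

lemma gibbs_ibp (V : H.P Λ) (i : Λ × ι) (f : H.P Λ) :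
    H.ex (H.gibbs μ V) (H.X i f) = -H.ex (H.gibbs μ V) (f * H.X i V) := by
  rw [eq_neg_iff_add_eq_zero, ← map_add, ex_apply, gibbs, integral_tilted]
  have h := H.int_hasD μ (H.mem i.2) (by fun_prop) (by fun_prop)
    ((H.hasD i.1 (H.t i.2) V).exp.mul (H.hasD i.1 (H.t i.2) f))
  simp only [div_eq_inv_mul, smul_eq_mul, mul_assoc]
  rw [integral_const_mul, mul_eq_zero]
  right
  rw [← h]
  congr 1
  funext U
  simp only [X, Subalgebra.coe_add, Subalgebra.coe_mul, ContinuousMap.add_apply,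
    ContinuousMap.mul_apply]
  ring

omit [DecidableEq Λ] in
lemma gibbs_comp (V : H.P Λ) : ∃ C : ℝ, 0 ≤ C ∧ ∀ f : H.P Λ,
    H.ex (H.gibbs μ V) (f * f) ≤ C * H.ex (Measure.pi fun _ => μ) (f * f) ∧
      H.ex (Measure.pi fun _ => μ) (f * f) ≤ C * H.ex (H.gibbs μ V) (f * f) := by
  set Z := ∫ U, Real.exp (V.1 U) ∂(Measure.pi fun _ : Λ => μ) with hZ
  have Z0 : 0 < Z := integral_exp_pos (cm_int _ (Real.continuous_exp.comp V.1.continuous))
  set B := ‖V.1‖
  have hB : ∀ U, |V.1 U| ≤ B := fun U => V.1.norm_coe_le_norm U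
  refine ⟨Real.exp B / Z + Real.exp B * Z, by positivity, fun f => ?_⟩
  simp only [ex_apply, gibbs, integral_tilted, ← hZ, smul_eq_mul, ← integral_const_mul]
  have hf : ∀ U, 0 ≤ (f * f).1 U := fun U => mul_self_nonneg (f.1 U)
  constructor
  · refine integral_mono (cm_int _ (by fun_prop)) (cm_int _ (by fun_prop)) fun U => ?_
    refine mul_le_mul_of_nonneg_right ?_ (hf U)
    have h1 : Real.exp (V.1 U) / Z ≤ Real.exp B / Z := by
      gcongr; exact (abs_le.1 (hB U)).2
    have : 0 ≤ Real.exp B * Z := by positivity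
    linarith
  · refine integral_mono (cm_int _ (by fun_prop)) (cm_int _ (by fun_prop)) fun U => ?_
    rw [← mul_assoc]
    refine le_mul_of_one_le_left (hf U) ?_
    have h1 : 1 ≤ Real.exp B * Z * (Real.exp (V.1 U) / Z) := by
      rw [mul_assoc, mul_div_cancel₀ _ Z0.ne', ← Real.exp_add]
      exact Real.one_le_exp (by linarith [(abs_le.1 (hB U)).1])
    have : 0 ≤ Real.exp B / Z * (Real.exp (V.1 U) / Z) := by positivity
    linarith

theorem cov_poly (V : H.P Λ) {w : Λ → ℝ} (hw : ∀ e, 0 < w e) {K : ℝ} (hK : 0 < K)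
    (hb : ∀ u, ∑ e, w e * ∑ e', H.ex (H.gibbs μ V) (H.hes e e' V u) ≤
      (H.ric - K) * ∑ e, w e * H.ex (H.gibbs μ V) (H.gr e u) +
      ∑ e, w e * ∑ k ∈ univ.erase e, H.ex (H.gibbs μ V) (H.mix k e u)) (f g : H.P Λ) :
    |H.ex (H.gibbs μ V) (f * g) - H.ex (H.gibbs μ V) f * H.ex (H.gibbs μ V) g| ≤
      1 / K * √(∑ e, (w e)⁻¹ * H.ex (H.gibbs μ V) (H.gr e f)) *
        √(∑ e, w e * H.ex (H.gibbs μ V) (H.gr e g)) := by
  rw [← H.dir_eq _ w, ← H.dir_eq _ (fun e => (w e)⁻¹)]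
  refine (H.refState μ).cov_bound _ V (fun i => w i.1) (fun i => hw i.1) (H.ex_mono _).pos
    (H.ex_one _) (H.gibbs_ibp μ V) (H.gibbs_comp μ V) K hK (fun u => ?_) f g
  have h1 := H.bochner (H.ex_mono _) (H.gibbs_ibp μ V) (fun e => (hw e).le) u
  have h2 := hb u
  rw [dir_eq]
  linarith

end Measure

end Grp

end Pool.Agent.Lib.MP_7f377f_mp.SUN
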