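import Mathlib

set_option autoImplicit false
set_option linter.unusedSectionVars false

/-! Quasi-invariance implies the DLR equation; derivative of tilted expectations. -/

namespace Pool.Agent.Lib.MP_7f377f_mp.SUN

open MeasureTheory Filter Topology

section
variable {X : Type*} [TopologicalSpace X] [CompactSpace X] [MeasurableSpace X]
  [OpensMeasurableSpace X]

lemma cint (ν : Measure X) [IsFiniteMeasure ν] {f : X → ℝ} (hf : Continuous f) : Integrable f ν :=
  hf.integrable_of_hasCompactSupport (HasCompactSupport.of_compactSpace f)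

lemma cont_int' (ν : Measure X) [IsProbabilityMeasure ν] :
    Continuous fun f : C(X, ℝ) => ∫ U, f U ∂ν := by
  refine (LipschitzWith.of_dist_le_mul (K := 1) fun f g => ?_).continuous
  rw [dist_eq_norm, dist_eq_norm, ← integral_sub (cint _ f.continuous) (cint _ g.continuous)]
  have := norm_integral_le_of_norm_le_const (μ := ν) (f := fun U => f U - g U) (C := ‖f - g‖)
    (Eventually.of_forall fun U => (f - g).norm_coe_le_norm U)
  simpa using this

lemma tilted_eq (π : Measure X) (V f : X → ℝ) :
    ∫ x, f x ∂(π.tilted V) = (∫ x, f x * Real.exp (V x) ∂π) / ∫ x, Real.exp (V x) ∂π := by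
  rw [integral_tilted, ← integral_div]
  congr 1
  funext x
  rw [smul_eq_mul]
  ring

lemma deriv_exp_int (π : Measure X) [IsProbabilityMeasure π] (V g f : C(X, ℝ)) (s : ℝ) :
    HasDerivAt (fun s => ∫ x, f x * Real.exp (V x + s * g x) ∂π)
      (∫ x, f x * g x * Real.exp (V x + s * g x) ∂π) s := by
  refine (hasDerivAt_integral_of_dominated_loc_of_deriv_le (μ := π)
    (F := fun s x => f x * Real.exp (V x + s * g x))
    (F' := fun s x => f x * g x * Real.exp (V x + s * g x)) (x₀ := s) (s := Metric.ball s 1)
    (bound := fun _ => ‖f‖ * ‖g‖ * Real.exp (‖V‖ + (|s| + 1) * ‖g‖)) (Metric.ball_mem_nhds s one_pos)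
    (Eventually.of_forall fun t => Continuous.aestronglyMeasurable (by fun_prop))
    (cint _ (by fun_prop)) (Continuous.aestronglyMeasurable (by fun_prop))
    (Eventually.of_forall fun x t ht => ?_) (integrable_const _)
    (Eventually.of_forall fun x t _ => ?_)).2
  · rw [norm_mul, norm_mul, Real.norm_eq_abs (Real.exp _), abs_of_pos (Real.exp_pos _)]
    have h1 := f.norm_coe_le_norm x
    have h2 := g.norm_coe_le_norm x
    have h3 := (le_abs_self _).trans (V.norm_coe_le_norm x)
    have h4 : |t| ≤ |s| + 1 := by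
      have := abs_sub_abs_le_abs_sub t s
      have h : |t - s| < 1 := ht
      linarith
    have h5 : t * g x ≤ (|s| + 1) * ‖g‖ := (le_abs_self _).trans (by
      rw [abs_mul]; exact mul_le_mul h4 h2 (abs_nonneg _) (by positivity))
    gcongr
  · have := ((((hasDerivAt_id t).mul_const (g x)).const_add (V x)).exp).const_mul (f x)
    refine this.congr_deriv ?_
    simp only [id]
    ring

lemma tilted_osc (π : Measure X) [IsProbabilityMeasure π] (V g f : C(X, ℝ)) {M : ℝ}
    (h : ∀ s ∈ Set.Icc (0 : ℝ) 1, |∫ x, f x * g x ∂(π.tilted fun x => V x + s * g x) -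
      (∫ x, f x ∂(π.tilted fun x => V x + s * g x)) *
        ∫ x, g x ∂(π.tilted fun x => V x + s * g x)| ≤ M) :
    |∫ x, f x ∂(π.tilted fun x => V x + g x) - ∫ x, f x ∂(π.tilted V)| ≤ M := by
  have hd : ∀ s, HasDerivAt (fun s => ∫ x, f x ∂(π.tilted fun x => V x + s * g x))
      (∫ x, f x * g x ∂(π.tilted fun x => V x + s * g x) -
      (∫ x, f x ∂(π.tilted fun x => V x + s * g x)) *
        ∫ x, g x ∂(π.tilted fun x => V x + s * g x)) s := by
    intro s
    have Z0 : 0 < ∫ x, Real.exp (V x + s * g x) ∂π := integral_exp_pos (cint _ (by fun_prop))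
    have h1 := deriv_exp_int π V g f s
    have h2 := deriv_exp_int π V g 1 s
    simp only [ContinuousMap.one_apply, one_mul] at h2
    simp only [tilted_eq]
    refine (h1.fun_div h2 Z0.ne').congr_deriv ?_
    generalize ∫ x, Real.exp (V x + s * g x) ∂π = Z at Z0
    generalize ∫ x, f x * g x * Real.exp (V x + s * g x) ∂π = A
    generalize ∫ x, f x * Real.exp (V x + s * g x) ∂π = B
    generalize ∫ x, g x * Real.exp (V x + s * g x) ∂π = C
    field_simp
  have := norm_image_sub_le_of_norm_deriv_le_segment_01'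
    (fun s _ => (hd s).hasDerivWithinAt) (fun s hs => h s (Set.Ico_subset_Icc_self hs))
  simpa using this

variable {Y : Type*} [TopologicalSpace Y] [CompactSpace Y] [FirstCountableTopology Y]

lemma cont_param (π : Measure X) [IsFiniteMeasure π] {F : Y → X → ℝ} (hF : Continuous F.uncurry) :
    Continuous fun y => ∫ x, F y x ∂π :=
  continuous_of_dominated (bound := fun _ => ‖(⟨_, hF⟩ : C(Y × X, ℝ))‖)
    (fun y => (hF.comp (Continuous.prodMk_right y)).aestronglyMeasurable)
    (fun y => Eventually.of_forall fun x => (⟨_, hF⟩ : C(Y × X, ℝ)).norm_coe_le_norm (y, x))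
    (integrable_const _) (Eventually.of_forall fun x => hF.comp (Continuous.prodMk_left x))

end

variable {X : Type*} [TopologicalSpace X] [CompactSpace X] [T2Space X] [FirstCountableTopology X]
  [MeasurableSpace X] [BorelSpace X] {K : Type*} [Group K] [TopologicalSpace K]
  [IsTopologicalGroup K] [CompactSpace K] [T2Space K] [SecondCountableTopology K]
  [MeasurableSpace K] [BorelSpace K] (π : Measure K) [IsProbabilityMeasure π]

/-- conditional expectation kernel -/
noncomputable def cond {K X : Type*} [MeasurableSpace K] (π : Measure K) (gl : K → X → X)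
    (V f : X → ℝ) (η : X) : ℝ :=
  ∫ h, f (gl h η) ∂(π.tilted fun h => V (gl h η))

omit [T2Space X] [MeasurableSpace X] [BorelSpace X] [Group K] [IsTopologicalGroup K] [T2Space K]
  [SecondCountableTopology K] in
lemma cond_cont {gl : K → X → X} (hgl : Continuous gl.uncurry) {V f : X → ℝ} (hV : Continuous V)
    (hf : Continuous f) : Continuous (cond π gl V f) := by
  have h0 : Continuous fun p : X × K => gl p.2 p.1 := hgl.comp continuous_swap
  unfold cond
  simp only [tilted_eq]
  refine (cont_param π ((hf.comp h0).mul (hV.comp h0).rexp)).div (cont_param π (hV.comp h0).rexp)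
    fun η => (integral_exp_pos (cint _ ?_)).ne'
  exact (hV.comp (hgl.comp (Continuous.prodMk_left η))).rexp

lemma dlr_of_qi [π.IsMulRightInvariant] (ν : Measure X) [IsFiniteMeasure ν] {gl : K → X → X}
    (hgl : Continuous gl.uncurry) (hid : ∀ h h' U, gl h (gl h' U) = gl h U) {res : X → K}
    (hres : Continuous res) {V : X → ℝ} (hV : Continuous V)
    (qi : ∀ h (F : C(X, ℝ)), ∫ U, F (gl (h * res U) U) * Real.exp (-V U) ∂ν =
      ∫ U, F U * Real.exp (-V U) ∂ν) {f : X → ℝ} (hf : Continuous f) :
    ∫ U, f U ∂ν = ∫ U, cond π gl V f U ∂ν := by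
  have key : ∀ F : X → ℝ, Continuous F → ∫ U, F U ∂ν =
      ∫ U, (∫ h, F (gl h U) * Real.exp (V (gl h U)) ∂π) * Real.exp (-V U) ∂ν := by
    intro F hF
    set F' : C(X, ℝ) := ⟨fun U => F U * Real.exp (V U), by fun_prop⟩ with hF'
    have h0 : Continuous fun p : K × X => gl (p.1 * res p.2) p.2 :=
      hgl.comp (f := fun p : K × X => (p.1 * res p.2, p.2)) (by fun_prop)
    have h1 : ∫ U, F U ∂ν = ∫ h, ∫ U, F' (gl (h * res U) U) * Real.exp (-V U) ∂ν ∂π := by
      simp only [qi]
      simp [hF', mul_assoc, ← Real.exp_add]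
    rw [h1, integral_integral_swap_of_hasCompactSupport
      ((F'.continuous.comp h0).mul (hV.comp continuous_snd).neg.rexp)
      (HasCompactSupport.of_compactSpace _)]
    congr 1
    funext U
    rw [integral_mul_const, integral_mul_right_eq_self (fun h => F' (gl h U))]
    rfl
  rw [key f hf, key _ (cond_cont π hgl hV hf)]
  congr 1
  funext U
  congr 1
  have Z0 : 0 < ∫ h, Real.exp (V (gl h U)) ∂π :=
    integral_exp_pos (cint _ (hV.comp (hgl.comp (Continuous.prodMk_left U))).rexp)
  simp only [cond, hid]
  rw [integral_const_mul, tilted_eq, div_mul_cancel₀ _ Z0.ne']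

omit [T2Space K] in
lemma haar_right (μ : Measure K) [μ.IsHaarMeasure] [IsProbabilityMeasure μ] :
    μ.IsMulRightInvariant :=
  ⟨fun g => by
    have : IsProbabilityMeasure (μ.map (· * g)) :=
      Measure.isProbabilityMeasure_map (measurable_mul_const g).aemeasurable
    exact Measure.isHaarMeasure_eq_of_isProbabilityMeasure _ _⟩

end Pool.Agent.Lib.MP_7f377f_mp.SUN
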