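import Mathlib

set_option autoImplicit false

namespace Pool.Agent.Lib.MP_7f377f_mp.SUN

open Matrix MeasureTheory

abbrev Cfg (d N : ℕ) : Type := (Fin d → ℤ) × Fin d → specialUnitaryGroup (Fin N) ℂ

noncomputable def plaq {d N : ℕ} (U : Cfg d N) (x : Fin d → ℤ) (i j : Fin d) : ℝ :=
  ((U (x, i)).1 * (U (x + Pi.single i 1, j)).1 * conjTranspose (U (x + Pi.single j 1, i)).1 *
    conjTranspose (U (x, j)).1).trace.re

noncomputable def linkAction {d N : ℕ} (β : ℝ) (e : (Fin d → ℤ) × Fin d) (U : Cfg d N) : ℝ :=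
  N * β * ∑ j ∈ Finset.univ.erase e.2, (plaq U e.1 e.2 j + plaq U (e.1 - Pi.single j 1) e.2 j)

def IsGibbs {d N : ℕ} [MeasurableSpace (specialUnitaryGroup (Fin N) ℂ)]
    (μ : Measure (specialUnitaryGroup (Fin N) ℂ)) (β : ℝ) (ν : Measure (Cfg d N)) : Prop :=
  IsProbabilityMeasure ν ∧ ∀ (e : (Fin d → ℤ) × Fin d) (f : ContinuousMap (Cfg d N) ℝ),
    ∫ U, f U ∂ν = ∫ U, (∫ g, f (Function.update U e g)
      ∂(μ.tilted fun g => linkAction β e (Function.update U e g))) ∂ν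

def Lip {d N : ℕ} (f : Cfg d N → ℝ) (A : Finset ((Fin d → ℤ) × Fin d))
    (a : (Fin d → ℤ) × Fin d → ℝ) : Prop :=
  ∀ U V, |f U - f V| ≤ ∑ e ∈ A, a e * √(∑ i, ∑ j, ‖(U e).1 i j - (V e).1 i j‖ ^ 2)

end Pool.Agent.Lib.MP_7f377f_mp.SUN
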