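import Mathlib

set_option autoImplicit false

/-! Combinatorics of links and plaquettes of the hypercubic lattice. -/

namespace Pool.Agent.Lib.MP_7f377f_mp.SUN

open Finset

variable {d : ℕ}

/-- links -/
abbrev Lk (d : ℕ) : Type := (Fin d → ℤ) × Fin d

/-- plaquettes -/
abbrev Pq (d : ℕ) : Type := (Fin d → ℤ) × Fin d × Fin d

/-- the four links of a plaquette -/
def links (p : Pq d) : Fin 4 → Lk d :=
  ![(p.1, p.2.1), (p.1 + Pi.single p.2.1 1, p.2.2), (p.1 + Pi.single p.2.2 1, p.2.1), (p.1, p.2.2)]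

lemma links_inj {p : Pq d} (h : p.2.1 ≠ p.2.2) : Function.Injective (links p) := by
  obtain ⟨x, i, j⟩ := p
  intro a b hab
  fin_cases a <;> fin_cases b <;> simp_all [links, eq_comm (a := j)]

lemma mem_links {p : Pq d} {e : Lk d} : e ∈ Set.range (links p) ↔ e = (p.1, p.2.1) ∨
    e = (p.1 + Pi.single p.2.1 1, p.2.2) ∨ e = (p.1 + Pi.single p.2.2 1, p.2.1) ∨ e = (p.1, p.2.2) := by
  simp [links, Matrix.range_cons, Matrix.range_empty]
  tauto

/-- the plaquettes containing a link -/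
def sig (e : Lk d) (q : Fin d × Bool) : Pq d :=
  (if q.2 then e.1 else e.1 - Pi.single q.1 1, min e.2 q.1, max e.2 q.1)

lemma mem_sig {e k : Lk d} {q : Fin d × Bool} : k ∈ Set.range (links (sig e q)) ↔
    k ∈ Set.range (links (if q.2 then e.1 else e.1 - Pi.single q.1 1, e.2, q.1)) := by
  rw [mem_links, mem_links, sig]
  rcases le_total e.2 q.1 with h | h
  · simp only [min_eq_left h, max_eq_right h]
  · simp only [min_eq_right h, max_eq_left h]; tauto

lemma self_mem_sig (e : Lk d) (q : Fin d × Bool) : e ∈ Set.range (links (sig e q)) := by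
  rw [mem_sig, mem_links]
  cases q.2 <;> simp

lemma exists_sig {p : Pq d} (hp : p.2.1 < p.2.2) {e : Lk d} (he : e ∈ Set.range (links p)) :
    ∃ q : Fin d × Bool, q.1 ≠ e.2 ∧ sig e q = p := by
  obtain ⟨x, i, j⟩ := p
  have h : i ≤ j := hp.le
  rcases mem_links.1 he with rfl | rfl | rfl | rfl
  · exact ⟨(j, true), hp.ne', by simp [sig, h]⟩
  · exact ⟨(i, false), hp.ne, by simp [sig, h]⟩
  · exact ⟨(j, false), hp.ne', by simp [sig, h]⟩
  · exact ⟨(i, true), hp.ne, by simp [sig, h]⟩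

lemma sig_lt {e : Lk d} {q : Fin d × Bool} (h : q.1 ≠ e.2) : (sig e q).2.1 < (sig e q).2.2 :=
  min_lt_max.2 h.symm

lemma sig_key {e k : Lk d} {q : Fin d × Bool} (h : q.1 ≠ e.2) (hk : k ∈ Set.range (links (sig e q)))
    (hke : k ≠ e) : (k.1 q.1 - e.1 q.1 = if q.2 then (if k.2 = e.2 then 1 else 0) else -1) ∧
      (∀ t, t ≠ q.1 → t ≠ e.2 → k.1 t = e.1 t) ∧ (k.2 = e.2 ∨ k.2 = q.1) := by
  obtain ⟨x, i⟩ := e
  obtain ⟨j, s⟩ := q
  rw [mem_sig, mem_links] at hk
  simp only at h hk ⊢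
  cases s <;> rcases hk with rfl | rfl | rfl | rfl <;>
    simp +contextual [h] at hke ⊢

lemma sig_unique {e k : Lk d} {q q' : Fin d × Bool} (h : q.1 ≠ e.2) (h' : q'.1 ≠ e.2)
    (hk : k ∈ Set.range (links (sig e q))) (hk' : k ∈ Set.range (links (sig e q'))) (hke : k ≠ e) :
    q = q' := by
  obtain ⟨a1, a2, a3⟩ := sig_key h hk hke
  obtain ⟨b1, b2, b3⟩ := sig_key h' hk' hke
  obtain ⟨j, s⟩ := q
  obtain ⟨j', s'⟩ := q'
  simp only at *
  have hj : j = j' := by
    by_contra hj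
    have c1 := a2 j' (Ne.symm hj) h'
    have c2 := b2 j hj h
    cases s <;> cases s' <;> simp only [if_true, Bool.false_eq_true, if_false] at a1 b1 <;>
      omega
  subst hj
  cases s <;> cases s' <;> simp only [if_true, Bool.false_eq_true, if_false] at a1 b1 <;>
    first | rfl | (split_ifs at * <;> omega)

lemma sig_inj {e : Lk d} {q q' : Fin d × Bool} (h : q.1 ≠ e.2) (h' : q'.1 ≠ e.2)
    (hq : sig e q = sig e q') : q = q' := by
  obtain ⟨l, hl⟩ : ∃ l, links (sig e q) l ≠ e := by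
    by_contra hc
    push Not at hc
    exact absurd (links_inj (sig_lt h).ne ((hc 0).trans (hc 1).symm)) (by decide)
  exact sig_unique h h' ⟨l, rfl⟩ (hq ▸ ⟨l, rfl⟩) hl

/-- all plaquettes containing a link -/
def star1 (e : Lk d) : Finset (Pq d) := ((univ.erase e.2) ×ˢ univ).image (sig e)

lemma mem_star1 {e : Lk d} {p : Pq d} :
    p ∈ star1 e ↔ p.2.1 < p.2.2 ∧ e ∈ Set.range (links p) := by
  constructor
  · intro h
    obtain ⟨q, hq, rfl⟩ := mem_image.1 h
    exact ⟨sig_lt (ne_of_mem_erase (mem_product.1 hq).1), self_mem_sig e q⟩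
  · rintro ⟨h1, h2⟩
    obtain ⟨q, hq, rfl⟩ := exists_sig h1 h2
    exact mem_image_of_mem _ (by simp [hq])

lemma card_star1 (e : Lk d) : ((star1 e).card : ℝ) ≤ 2 * ((d : ℝ) - 1) := by
  have h := card_image_le (s := (univ.erase e.2) ×ˢ (univ : Finset Bool)) (f := sig e)
  rw [card_product, card_erase_of_mem (mem_univ _), card_univ, card_univ, Fintype.card_fin,
    Fintype.card_bool] at h
  have h2 : 1 ≤ d := e.2.pos
  have h3 : ((star1 e).card : ℝ) ≤ ((d - 1) * 2 : ℕ) := by exact_mod_cast h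
  push_cast [Nat.cast_sub h2] at h3
  linarith

lemma sum_star1 (e : Lk d) (F : Pq d → ℝ) (hF : ∀ x i j, F (x, i, j) = F (x, j, i)) :
    ∑ p ∈ star1 e, F p =
      ∑ j ∈ univ.erase e.2, (F (e.1, e.2, j) + F (e.1 - Pi.single j 1, e.2, j)) := by
  rw [star1, sum_image, sum_product]
  · refine sum_congr rfl fun j _ => ?_
    rw [Fintype.sum_bool]
    rcases le_total e.2 j with h | h
    · simp [sig, h]
    · simp [sig, h, hF _ j]
  · intro q hq q' hq' h
    exact sig_inj (ne_of_mem_erase (mem_product.1 hq).1) (ne_of_mem_erase (mem_product.1 hq').1) h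

lemma star1_unique {e k : Lk d} (hke : k ≠ e) {p p' : Pq d} (h1 : p ∈ star1 e) (h2 : p ∈ star1 k)
    (h3 : p' ∈ star1 e) (h4 : p' ∈ star1 k) : p = p' := by
  obtain ⟨q, hq, rfl⟩ := mem_image.1 h1
  obtain ⟨q', hq', rfl⟩ := mem_image.1 h3
  rw [sig_unique (ne_of_mem_erase (mem_product.1 hq).1) (ne_of_mem_erase (mem_product.1 hq').1)
    (mem_star1.1 h2).2 (mem_star1.1 h4).2 hke]

lemma links_dist (p : Pq d) (a b : Fin 4) : dist (links p a).1 (links p b).1 ≤ 1 := by
  have h : ∀ a t, (links p a).1 t = p.1 t ∨ (links p a).1 t = p.1 t + 1 := by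
    intro a t
    fin_cases a <;> simp [links, Pi.single_apply] <;> tauto
  rw [dist_pi_le_iff zero_le_one]
  intro t
  rw [Int.dist_eq]
  rcases h a t with h1 | h1 <;> rcases h b t with h2 | h2 <;> rw [h1, h2] <;> simp

/-- truncated distance to a finite set of links -/
noncomputable def tdist (B : Finset (Lk d)) (r : ℝ) (e : Lk d) : ℝ :=
  B.fold min r fun k => dist e.1 k.1

lemma tdist_le (B : Finset (Lk d)) (r : ℝ) (e e' : Lk d) :
    tdist B r e ≤ tdist B r e' + dist e.1 e'.1 := by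
  rw [← sub_le_iff_le_add, tdist, tdist, le_fold_min]
  refine ⟨?_, fun k hk => ?_⟩
  · have : B.fold min r (fun k => dist e.1 k.1) ≤ r := (fold_min_le _).2 (Or.inl le_rfl)
    linarith [dist_nonneg (x := e.1) (y := e'.1)]
  · have : B.fold min r (fun k => dist e.1 k.1) ≤ dist e.1 k.1 :=
      (fold_min_le _).2 (Or.inr ⟨k, hk, le_rfl⟩)
    linarith [dist_triangle e.1 e'.1 k.1]

lemma tdist_mem {B : Finset (Lk d)} (r : ℝ) {e : Lk d} (he : e ∈ B) : tdist B r e ≤ 0 :=
  (fold_min_le _).2 (Or.inr ⟨e, he, by simp⟩)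

lemma le_tdist {B : Finset (Lk d)} {r : ℝ} {e : Lk d} (h : ∀ k ∈ B, r ≤ dist e.1 k.1) :
    r ≤ tdist B r e := (le_fold_min _).2 ⟨le_rfl, h⟩

/-- boxes -/
noncomputable def box (d R : ℕ) : Finset (Lk d) := (Fintype.piFinset fun _ => Icc (-(R : ℤ)) R) ×ˢ univ

lemma mem_box {R : ℕ} {e : Lk d} : e ∈ box d R ↔ ‖e.1‖ ≤ R := by
  simp only [box, mem_product, Fintype.mem_piFinset, mem_Icc, mem_univ, and_true]
  rw [pi_norm_le_iff_of_nonneg (Nat.cast_nonneg R)]
  refine forall_congr' fun t => ?_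
  rw [Int.norm_eq_abs, ← abs_le]
  norm_cast

lemma card_box (R : ℕ) : ((box d R).card : ℝ) = (2 * R + 1) ^ d * d := by
  simp only [box, card_product, Fintype.card_piFinset, Int.card_Icc, prod_const, card_univ,
    Fintype.card_fin]
  have : ((R : ℤ) + 1 - -R).toNat = 2 * R + 1 := by omega
  rw [this]
  push_cast
  ring

end Pool.Agent.Lib.MP_7f377f_mp.SUN
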