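import Pool.Agent.Lib.MP_7f377f_mp.SUNLip
import Pool.Agent.Lib.MP_7f377f_mp.SUNGeo
import Pool.Agent.Lib.MP_7f377f_mp.SUNDefs
import Pool.Agent.Lib.MP_7f377f_mp.SUNDLR

set_option autoImplicit false
set_option linter.unusedSectionVars false

/-! Finite volume estimates with arbitrary boundary conditions. -/

namespace Pool.Agent.Lib.MP_7f377f_mp.SUN

open Finset Matrix MeasureTheory Filter Topology

/-- admissible constants -/
def Good (d : ℕ) (β ρ k b : ℝ) : Prop := 1 < ρ ∧ 0 < k ∧ 0 < b ∧ |β| ≤ b ∧ ∀ N : ℝ, 2 ≤ N →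
  ρ * max 2 (16 / 3 * (N * b) * N / (N - N⁻¹) ^ 2 +
    4 * (2 * (1 - N⁻¹) * (2 * ((d : ℝ) - 1) * (N * b))) / (N - N⁻¹)) *
    (2 * ((d : ℝ) - 1) * (N * b)) ≤ N / 2 - N * k

lemma exists_good {d : ℕ} (hd : 2 ≤ d) {β : ℝ} (hβ : 64 * ((d : ℝ) - 1) * (d - 2 / 3) * β ^ 2 < 1) :
    ∃ ρ k b, Good d β ρ k b := by
  obtain ⟨x, hx⟩ : ∃ x : ℝ, x = (d : ℝ) - 1 := ⟨_, rfl⟩
  have x1 : 1 ≤ x := by
    have : (2 : ℝ) ≤ d := by exact_mod_cast hd
    linarith
  have e0 : (d : ℝ) - 2 / 3 = x + 1 / 3 := by linarith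
  rw [← hx, e0] at hβ
  obtain ⟨c, hc⟩ : ∃ c : ℝ, c = √(64 * x * (x + 1 / 3)) := ⟨_, rfl⟩
  have c2 : c ^ 2 = 64 * x * (x + 1 / 3) := by rw [hc, Real.sq_sqrt (by positivity)]
  have c0 : 0 < c := by rw [hc]; positivity
  have c1 : 8 * x ≤ c := by
    refine abs_le_of_sq_le_sq' ?_ c0.le |>.2
    nlinarith
  have c3 : c * |β| < 1 := by
    have : (c * |β|) ^ 2 < 1 ^ 2 := by rw [mul_pow, sq_abs, c2]; linarith
    exact lt_of_pow_lt_pow_left₀ 2 zero_le_one this
  obtain ⟨γ, hγ⟩ : ∃ γ : ℝ, γ = (1 + c * |β|) / 2 := ⟨_, rfl⟩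
  have hb0 := mul_nonneg c0.le (abs_nonneg β)
  have γ0 : 0 < γ := by linarith
  have γ1 : γ < 1 := by linarith
  refine ⟨2 / (1 + γ), (1 - γ) / (2 * (1 + γ)), γ / c, ?_, by apply div_pos <;> linarith,
    by positivity, ?_, fun N hN => ?_⟩
  · rw [lt_div_iff₀ (by linarith)]; linarith
  · rw [le_div_iff₀ c0]; linarith
  rw [← hx]
  obtain ⟨b, hb⟩ : ∃ b : ℝ, b = γ / c := ⟨_, rfl⟩
  rw [← hb]
  have b0 : 0 < b := by rw [hb]; positivity
  have b1 : c * b = γ := by rw [hb]; field_simp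
  have e1 : N / 2 - N * ((1 - γ) / (2 * (1 + γ))) = 2 / (1 + γ) * (N / 2 * γ) := by
    field_simp; ring
  rw [e1, mul_assoc]
  refine mul_le_mul_of_nonneg_left ?_ (by positivity)
  rw [max_mul_of_nonneg _ _ (by positivity)]
  refine max_le ?_ ?_
  · have := mul_le_mul_of_nonneg_right c1 (show 0 ≤ N * b by positivity)
    rw [← b1]
    linarith
  · have N1 : 0 < N - 1 := by linarith
    have e2 : N - N⁻¹ = (N - 1) * (N + 1) / N := by field_simp; ring
    have e3 : 1 - N⁻¹ = (N - 1) / N := by field_simp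
    have e4 : (16 / 3 * (N * b) * N / (N - N⁻¹) ^ 2 +
        4 * (2 * (1 - N⁻¹) * (2 * x * (N * b))) / (N - N⁻¹)) * (2 * x * (N * b)) =
        N * b ^ 2 * x * (32 / 3 * (N ^ 4 / ((N - 1) * (N + 1)) ^ 2) + 32 * x * (N / (N + 1))) := by
      rw [e2, e3]; field_simp; ring
    have e5 : N ^ 4 / ((N - 1) * (N + 1)) ^ 2 ≤ 1 + 3 * (1 / (N + 1)) := by
      rw [div_le_iff₀ (by positivity)]
      have : (1 + 3 * (1 / (N + 1))) * ((N - 1) * (N + 1)) ^ 2 =
          ((N - 1) * (N + 1)) ^ 2 + 3 * (N - 1) ^ 2 * (N + 1) := by field_simp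
      rw [this]
      nlinarith [mul_nonneg (show 0 ≤ N - 2 by linarith) (show 0 ≤ N - 2 by linarith),
        mul_nonneg (show 0 ≤ N - 2 by linarith) (mul_nonneg (show 0 ≤ N - 2 by linarith)
          (show 0 ≤ N - 2 by linarith))]
    have e6 : N / (N + 1) = 1 - 1 / (N + 1) := by field_simp; ring
    have e7 : 0 ≤ 1 / (N + 1) := by positivity
    have e8 : 32 / 3 * (N ^ 4 / ((N - 1) * (N + 1)) ^ 2) + 32 * x * (N / (N + 1)) ≤
        32 * (x + 1 / 3) := by
      rw [e6]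
      nlinarith
    rw [e4]
    refine (mul_le_mul_of_nonneg_left e8 (by positivity)).trans ?_
    have e9 : N * b ^ 2 * x * (32 * (x + 1 / 3)) = N / 2 * (c * b) ^ 2 := by
      rw [mul_pow, c2]; ring
    rw [e9, b1]
    exact mul_le_mul_of_nonneg_left (by nlinarith) (by positivity)

variable {d N : ℕ}

instance : SecondCountableTopology (specialUnitaryGroup (Fin N) ℂ) :=
  have : SecondCountableTopology (Matrix (Fin N) (Fin N) ℂ) :=
    inferInstanceAs (SecondCountableTopology (Fin N → Fin N → ℂ))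
  TopologicalSpace.Subtype.secondCountableTopology
    ((specialUnitaryGroup (Fin N) ℂ : Submonoid _) : Set (Matrix (Fin N) (Fin N) ℂ))

/-- configuration with given values in a finite set -/
def glue (Λ : Finset (Lk d)) (h : Λ → specialUnitaryGroup (Fin N) ℂ) (η : Cfg d N) : Cfg d N :=
  fun e => if he : e ∈ Λ then h ⟨e, he⟩ else η e

lemma glue_cont (Λ : Finset (Lk d)) : Continuous (glue (N := N) Λ).uncurry := by
  refine continuous_pi fun e => ?_
  by_cases he : e ∈ Λ <;> simp only [Function.uncurry, glue, he, dif_pos, dif_neg,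
    not_false_eq_true] <;> fun_prop

lemma glue_cont' (Λ : Finset (Lk d)) (η : Cfg d N) : Continuous fun h => glue Λ h η :=
  (glue_cont Λ).comp (Continuous.prodMk_left η)

lemma glue_single (Λ : Finset (Lk d)) (e : Λ) (x : specialUnitaryGroup (Fin N) ℂ)
    (h : Λ → specialUnitaryGroup (Fin N) ℂ) (η : Cfg d N) :
    glue Λ (Pi.mulSingle e x * h) η = Pi.mulSingle e.1 x * glue Λ h η := by
  funext k
  by_cases hk : k ∈ Λ
  · by_cases he : k = e
    · subst he; simp [glue]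
    · have : (⟨k, hk⟩ : Λ) ≠ e := fun h => he (congrArg Subtype.val h)
      simp [glue, hk, Pi.mulSingle_eq_of_ne he, Pi.mulSingle_eq_of_ne this]
  · have : k ≠ e := fun h => hk (h ▸ e.2)
    simp [glue, hk, Pi.mulSingle_eq_of_ne this]

/-- plaquette variable -/
noncomputable def pq (p : Pq d) (U : Cfg d N) : ℝ := plaq U p.1 p.2.1 p.2.2

lemma pq_eq (p : Pq d) (U : Cfg d N) : pq p U = Phi fun l => (U (links p l)).1 := rfl

lemma pq_cont (p : Pq d) : Continuous (pq (N := N) p) := by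
  have h : ∀ e, Continuous fun U : Cfg d N => (U e).1 :=
    fun e => continuous_subtype_val.comp (continuous_apply e)
  exact Complex.continuous_re.comp ((((h _).matrix_mul (h _)).matrix_mul
    (h _).matrix_conjTranspose).matrix_mul (h _).matrix_conjTranspose).matrix_trace

lemma pq_symm (U : Cfg d N) (x : Fin d → ℤ) (i j : Fin d) : pq (x, i, j) U = pq (x, j, i) U := by
  simp only [pq, plaq]
  rw [← re_trace_conjTranspose]
  simp only [conjTranspose_mul, conjTranspose_conjTranspose, mul_assoc]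

lemma pq_congr (p : Pq d) {U V : Cfg d N} (h : ∀ l, U (links p l) = V (links p l)) :
    pq p U = pq p V := by simp only [pq_eq, h]

lemma ip_abs_le {n : Type} [Fintype n] (A B : Matrix n n ℂ) : |ip A B| ≤ √(ip A A) * √(ip B B) :=
  bil_abs_le (LinearMap.mk₂ ℝ ip ip_add_left ip_smul_left ip_add_right
    (fun c A B => ip_smul_right c A B)) ip_comm ip_self_nonneg A B

lemma pq_lip {p : Pq d} (hp : p.2.1 < p.2.2) (e : Lk d) (x : specialUnitaryGroup (Fin N) ℂ)
    (U : Cfg d N) : |pq p (Pi.mulSingle e x * U) - pq p U| ≤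
      if p ∈ star1 e then √N * √(ip (x.1 - 1) (x.1 - 1)) else 0 := by
  split_ifs with h
  · obtain ⟨l, rfl⟩ := (mem_star1.1 h).2
    obtain ⟨C, hC, hu⟩ := Phi_lin (fun l => (U (links p l)).1) l
    have h0 := hC (U (links p l)).1
    rw [Function.update_eq_self] at h0
    have h1 : (fun l' => ((Pi.mulSingle (links p l) x * U : Cfg d N) (links p l')).1) =
        Function.update (fun l => (U (links p l)).1) l (x.1 * (U (links p l)).1) := by
      funext l'
      by_cases hl : l' = l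
      · subst hl; simp
      · simp [hl, Pi.mulSingle_eq_of_ne ((links_inj hp.ne).ne hl)]
    rw [pq_eq, pq_eq, h1, hC, h0, ← ip_sub_left, ← sub_one_mul]
    refine (ip_abs_le _ _).trans (le_of_eq ?_)
    rw [ip_uni_right (U _).2.1, ip_uni_self (hu fun l => (U _).2.1), mul_comm, Fintype.card_fin]
  · rw [pq_congr p (V := U), sub_self, abs_zero]
    intro l
    rw [Pi.mul_apply, Pi.mulSingle_eq_of_ne, one_mul]
    exact fun hl => h (mem_star1.2 ⟨hp, l, hl⟩)

/-- plaquettes touching a finite set of links -/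
def QQ (Λ : Finset (Lk d)) : Finset (Pq d) := Λ.biUnion star1

lemma QQ_lt {Λ : Finset (Lk d)} {p : Pq d} (hp : p ∈ QQ Λ) : p.2.1 < p.2.2 := by
  obtain ⟨e, -, he⟩ := mem_biUnion.1 hp
  exact (mem_star1.1 he).1

/-- finite volume action -/
noncomputable def VQ (β : ℝ) (Λ : Finset (Lk d)) (U : Cfg d N) : ℝ := N * β * ∑ p ∈ QQ Λ, pq p U

lemma VQ_cont (β : ℝ) (Λ : Finset (Lk d)) : Continuous (VQ (N := N) β Λ) :=
  continuous_const.mul (continuous_finsetSum _ fun p _ => pq_cont p)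

/-- the abstract plaquette -/
noncomputable def mkP (Λ : Finset (Lk d)) [Nonempty Λ] (η : Cfg d N) (p : QQ Λ) :
    Plq Λ (specialUnitaryGroup (Fin N) ℂ) where
  S := univ.filter fun l => links p.1 l ∈ Λ
  lk := fun l => if h : links p.1 l ∈ Λ then ⟨_, h⟩ else Classical.arbitrary _
  fr := fun l => η (links p.1 l)
  inj := fun a ha b hb h => by
    simp only [coe_filter, mem_univ, true_and, Set.mem_ofPred_eq] at ha hb
    simp only [ha, hb, dif_pos, Subtype.mk.injEq] at h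
    exact links_inj (QQ_lt p.2).ne h

lemma mkP_val (Λ : Finset (Lk d)) [Nonempty Λ] (η : Cfg d N) (p : QQ Λ)
    (U : Λ → specialUnitaryGroup (Fin N) ℂ) (l : Fin 4) :
    (mkP Λ η p).val U l = glue Λ U η (links p.1 l) := by
  by_cases h : links p.1 l ∈ Λ <;> simp [mkP, Plq.val, glue, h]

lemma mkP_lk (Λ : Finset (Lk d)) [Nonempty Λ] (η : Cfg d N) (p : QQ Λ) {l : Fin 4}
    (h : l ∈ (mkP Λ η p).S) : ((mkP Λ η p).lk l).1 = links p.1 l := by
  simp only [mkP, mem_filter, mem_univ, true_and] at h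
  simp [mkP, h]

lemma mkP_mem (Λ : Finset (Lk d)) [Nonempty Λ] (η : Cfg d N) (p : QQ Λ) {e : Λ}
    (h : e ∈ (mkP Λ η p).S.image (mkP Λ η p).lk) : p.1 ∈ star1 e.1 := by
  obtain ⟨l, hl, rfl⟩ := mem_image.1 h
  exact mem_star1.2 ⟨QQ_lt p.2, l, (mkP_lk Λ η p hl).symm⟩

variable [Nontrivial (Fin N)] [MeasurableSpace (specialUnitaryGroup (Fin N) ℂ)]
  [BorelSpace (specialUnitaryGroup (Fin N) ℂ)] (μ : Measure (specialUnitaryGroup (Fin N) ℂ))
  [μ.IsHaarMeasure] [IsProbabilityMeasure μ]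

theorem cov_fin {β ρ k b : ℝ} (hG : Good d β ρ k b) (Λ : Finset (Lk d)) [Nonempty Λ]
    (η η' : Cfg d N) {s : ℝ} (hs : s ∈ Set.Icc (0 : ℝ) 1)
    (f g : C(Λ → specialUnitaryGroup (Fin N) ℂ, ℝ)) {a a' : Λ → ℝ}
    (hf : (suGrp (Fin N)).LipL f a) (hg : (suGrp (Fin N)).LipL g a') {r : ℝ}
    (hr : ∀ e e', a e ≠ 0 → a' e' ≠ 0 → r ≤ dist e.1.1 e'.1.1)
    {ν : Measure (Λ → specialUnitaryGroup (Fin N) ℂ)}
    (hν : ν = (Measure.pi fun _ => μ).tilted fun U => VQ β Λ (glue Λ U η) +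
      s * (VQ β Λ (glue Λ U η') - VQ β Λ (glue Λ U η))) :
    |∫ U, f U * g U ∂ν - (∫ U, f U ∂ν) * ∫ U, g U ∂ν| ≤
      1 / (N * k) * Real.exp (-(Real.log ρ / 2) * r) * √(∑ e, a e ^ 2) * √(∑ e, a' e ^ 2) := by
  obtain ⟨hρ, hk, hb, hβ, hN⟩ := hG
  have N2 : (2 : ℝ) ≤ N := by exact_mod_cast Fin.nontrivial_iff_two_le.1 ‹_›
  have d1 : (1 : ℝ) ≤ d := by
    obtain ⟨e⟩ := ‹Nonempty Λ›
    exact_mod_cast e.1.2.pos
  set H := suGrp (Fin N) with hH
  set pl : QQ Λ × Bool → Plq Λ (specialUnitaryGroup (Fin N) ℂ) :=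
    fun p => mkP Λ (if p.2 then η' else η) p.1 with hpl
  set c : QQ Λ × Bool → ℝ := fun p => N * β * (if p.2 then s else 1 - s) with hc
  have hact : ν = H.gibbs μ (H.action pl c) := by
    rw [hν, Grp.gibbs]
    congr 1
    funext U
    rw [← H.ev_def, Grp.action, map_sum, Fintype.sum_prod_type]
    simp only [H.ev_smul, H.ev_poly, Fintype.sum_bool, hpl, hc, mkP_val, Pi.one_apply, one_mul, VQ,
      if_true, Bool.false_eq_true, if_false]
    rw [← sum_coe_sort (QQ Λ), ← sum_coe_sort (QQ Λ) (fun p => pq p (glue Λ U η'))]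
    simp only [mul_sum, ← sum_sub_distrib, ← sum_add_distrib]
    refine sum_congr rfl fun p _ => ?_
    change _ = _ * pq p.1 _ + _ * pq p.1 _
    ring
  have hcs : ∀ (p : QQ Λ) (P : Prop) [Decidable P] (P' : Bool → Prop) [DecidablePred P'],
      (∀ t, P' t → P) → ∑ t, (if P' t then |c (p, t)| else 0) ≤ if P then N * b else 0 := by
    intro p P _ P' _ h
    split_ifs with hP
    · have h1 : ∑ t, |c (p, t)| ≤ N * b := by
        simp only [hc, Fintype.sum_bool, abs_mul, if_true, Bool.false_eq_true, if_false,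
          abs_of_nonneg hs.1, abs_of_nonneg (sub_nonneg.2 hs.2), Nat.abs_cast]
        have := mul_le_mul_of_nonneg_left hβ (show (0 : ℝ) ≤ N by positivity)
        linarith
      refine le_trans (sum_le_sum fun t _ => ?_) h1
      split_ifs
      exacts [le_rfl, abs_nonneg _]
    · exact le_of_eq (sum_eq_zero fun t _ => if_neg fun h' => hP (h t h'))
  set B : Finset (Lk d) := (univ.filter fun e => a' e ≠ 0).image Subtype.val with hB
  have l0 : 0 ≤ Real.log ρ := Real.log_nonneg hρ.le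
  have key := H.cov_lip μ pl c (b := N * b) (B := 2 * ((d : ℝ) - 1) * (N * b)) (ρ := ρ)
    (w := fun e => Real.exp (Real.log ρ * tdist B r e.1)) (by positivity)
    (mul_nonneg (by linarith) (by positivity)) (fun e => ?_) (fun e e' he => ?_)
    (fun e => Real.exp_pos _) hρ.le (fun p i hi j hj => ?_) (le_max_left _ _) (le_max_right _ _)
    (K := N * k) (by positivity) (by simpa [hH, suGrp, suFrame] using hN N N2) f g hf hg
  · rw [hact]
    refine key.trans ?_
    rw [mul_assoc (1 / (N * k)) (Real.exp _)]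
    refine mul_le_mul (mul_le_mul_of_nonneg_left ?_ (by positivity)) (Real.sqrt_le_sqrt
      (sum_le_sum fun e _ => ?_)) (Real.sqrt_nonneg _) (by positivity)
    · rw [← Real.sqrt_sq (Real.exp_pos _).le, ← Real.sqrt_mul (by positivity), mul_sum]
      refine Real.sqrt_le_sqrt (sum_le_sum fun e _ => ?_)
      by_cases h : a e = 0
      · simp [h]
      refine mul_le_mul_of_nonneg_right ?_ (sq_nonneg _)
      have h1 : r ≤ tdist B r e.1 := le_tdist fun k hk => by
        obtain ⟨e', he', rfl⟩ := mem_image.1 hk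
        exact hr e e' h (mem_filter.1 he').2
      rw [← Real.exp_neg, sq, ← Real.exp_add, Real.exp_le_exp]
      nlinarith
    · by_cases h : a' e = 0
      · simp [h]
      refine mul_le_of_le_one_left (sq_nonneg _) (Real.exp_le_one_iff.2 ?_)
      exact mul_nonpos_of_nonneg_of_nonpos l0
        (tdist_mem r (mem_image_of_mem _ (mem_filter.2 ⟨mem_univ _, h⟩)))
  · rw [Fintype.sum_prod_type]
    refine (sum_le_sum fun p _ => hcs p (p.1 ∈ star1 e.1) _ fun t => mkP_mem Λ _ p).trans ?_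
    rw [sum_coe_sort (QQ Λ) (fun p => if p ∈ star1 e.1 then N * b else 0), sum_ite_mem, sum_const,
      nsmul_eq_mul]
    refine mul_le_mul_of_nonneg_right (le_trans ?_ (card_star1 e.1)) (by positivity)
    exact_mod_cast card_le_card inter_subset_right
  · rw [Fintype.sum_prod_type]
    refine (sum_le_sum fun p _ => hcs p (p.1 ∈ star1 e.1 ∩ star1 e'.1) _ fun t h =>
      mem_inter.2 ⟨mkP_mem Λ _ p h.1, mkP_mem Λ _ p h.2⟩).trans ?_
    rw [sum_coe_sort (QQ Λ) (fun p => if p ∈ star1 e.1 ∩ star1 e'.1 then N * b else 0),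
      sum_ite_mem, sum_const, nsmul_eq_mul]
    refine mul_le_of_le_one_left (by positivity) ?_
    norm_cast
    refine card_le_one.2 fun p hp p' hp' => ?_
    simp only [mem_inter] at hp hp'
    exact star1_unique (Subtype.coe_ne_coe.2 he) hp.2.1 hp.2.2 hp'.2.1 hp'.2.2
  · have h1 := tdist_le B r ((pl p).lk i).1 ((pl p).lk j).1
    have h2 : dist ((pl p).lk i).1.1 ((pl p).lk j).1.1 ≤ 1 := by
      rw [mkP_lk Λ _ p.1 hi, mkP_lk Λ _ p.1 hj]
      exact links_dist _ _ _
    nth_rewrite 2 [← Real.exp_log (show 0 < ρ by linarith)]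
    rw [← Real.exp_add, Real.exp_le_exp]
    nlinarith

end Pool.Agent.Lib.MP_7f377f_mp.SUN
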