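import Pool.Agent.Lib.MP_7f377f_mp.SUNMat

set_option autoImplicit false

/-! One-parameter subgroups, compactness and the operator norm bound for `SU(N)`. -/

namespace Pool.Agent.Lib.MP_7f377f_mp.SUN

open Finset Matrix Complex

variable {n : Type} [Fintype n] [DecidableEq n]

/-- a one-parameter subgroup with velocity `X` -/
structure IsCurve {G : Type} [Group G] (r : G →* Matrix n n ℂ) (γ : ℝ → G) (X : Matrix n n ℂ) :
    Prop where
  add : ∀ s t, γ (s + t) = γ s * γ t
  zero : γ 0 = 1
  der : ∀ M, HasDerivAt (fun t => ip (r (γ t)) M) (ip X M) 0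

/-- a compact matrix group with its frame -/
structure Grp (G : Type) [Group G] [TopologicalSpace G] (n : Type) [Fintype n] [DecidableEq n]
    (ι : Type) [Fintype ι] extends Frame n ι where
  r : G →* Matrix n n ℂ
  cont : Continuous r
  inj : Function.Injective r
  uni : ∀ x, r x ∈ unitary (Matrix n n ℂ)
  curve : ∀ X ∈ g, ∃ γ, IsCurve r γ X
  onto : ∀ x, ∃ X ∈ g, ∃ γ, IsCurve r γ X ∧ γ 1 = x
  kap : ℝ
  kap_pos : 0 < kap
  lam_pos : 0 < lam
  ric_pos : 0 < ric
  hkap : ∀ B ∈ unitary (Matrix n n ℂ), ∀ Y,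
    ip (toFrame.pr B * Y) (toFrame.pr B * Y) ≤ kap ^ 2 * ip Y Y

lemma uni_mul_conjTranspose {W : Matrix n n ℂ} (hW : W ∈ unitary (Matrix n n ℂ)) : W * Wᴴ = 1 :=
  Unitary.mul_star_self_of_mem hW

lemma uni_conjTranspose_mul {W : Matrix n n ℂ} (hW : W ∈ unitary (Matrix n n ℂ)) : Wᴴ * W = 1 :=
  Unitary.star_mul_self_of_mem hW

lemma uni_conjTranspose {W : Matrix n n ℂ} (hW : W ∈ unitary (Matrix n n ℂ)) :
    Wᴴ ∈ unitary (Matrix n n ℂ) := Unitary.star_mem hW

lemma skew_diag {S : Matrix n n ℂ} (h : Sᴴ = -S) : ∃ W ∈ unitary (Matrix n n ℂ), ∃ θ : n → ℝ,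
    S = W * diagonal (fun j => (θ j : ℂ) * I) * Wᴴ := by
  have hH : ((-I) • S).IsHermitian := by
    unfold IsHermitian
    rw [conjTranspose_smul, h]
    simp
  refine ⟨hH.eigenvectorUnitary, hH.eigenvectorUnitary.2, hH.eigenvalues, ?_⟩
  have h1 := hH.spectral_theorem
  rw [Unitary.conjStarAlgAut_apply] at h1
  have h2 : S = I • ((-I) • S) := by
    rw [smul_smul, mul_neg, I_mul_I, neg_neg, one_smul]
  have h3 : diagonal (fun j => (hH.eigenvalues j : ℂ) * I) =
      I • diagonal (RCLike.ofReal ∘ hH.eigenvalues) := by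
    rw [← diagonal_smul]
    congr 1
    funext j
    simp [mul_comm]
  rw [h3, mul_smul_comm, smul_mul_assoc, ← star_eq_conjTranspose, ← h1]
  exact h2

lemma uni_diag {U : Matrix n n ℂ} (hU : U ∈ unitary (Matrix n n ℂ)) :
    ∃ W ∈ unitary (Matrix n n ℂ), ∃ θ : n → ℝ,
      U = W * diagonal (fun j => Complex.exp (θ j * I)) * Wᴴ := by
  have hinf : Set.Infinite (Metric.sphere (0 : ℂ) 1) := by
    refine (isPreconnected_sphere (by rw [Complex.rank_real_complex]; norm_num) 0 1).infinite_of_nontrivial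
      ⟨1, by simp, -1, by simp, by norm_num⟩
  obtain ⟨w, hw1, hw2⟩ := hinf.exists_notMem_finite (Matrix.finite_spectrum U)
  have hw : ‖w‖ = 1 := by simpa using hw1
  have hw0 : w ≠ 0 := by rintro rfl; simp at hw
  have hww : star w * w = 1 := by
    rw [Complex.star_def, mul_comm, Complex.mul_conj, Complex.normSq_eq_norm_sq, hw]; simp
  rw [spectrum.notMem_iff, Algebra.algebraMap_eq_smul_one] at hw2
  obtain ⟨R, hR⟩ := hw2
  set S : Matrix n n ℂ := (w • 1 + U) * (R⁻¹ : (Matrix n n ℂ)ˣ) with hS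
  have e1 : S * (w • 1 - U) = w • 1 + U := by
    rw [hS, ← hR, mul_assoc, Units.inv_mul, mul_one]
  have e2 : (w • 1 - U)ᴴ * Sᴴ = (w • 1 + U)ᴴ := by rw [← conjTranspose_mul, e1]
  have e3 : (w • 1 - U)ᴴ * ((Sᴴ + S) * (w • 1 - U)) = 0 := by
    rw [add_mul, mul_add, ← mul_assoc, e2, e1]
    simp only [conjTranspose_add, conjTranspose_sub, conjTranspose_smul, conjTranspose_one, mul_sub,
      sub_mul, mul_add, add_mul, smul_mul_assoc, mul_smul_comm, one_mul, mul_one, smul_smul,
      uni_conjTranspose_mul hU, smul_add, smul_sub, mul_comm w, hww, one_smul]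
    abel
  have e4 : Sᴴ = -S := by
    have u1 : IsUnit (w • 1 - U) := ⟨R, hR⟩
    have u2 : IsUnit (w • 1 - U)ᴴ := u1.star
    rw [u2.mul_right_eq_zero, u1.mul_left_eq_zero] at e3
    exact eq_neg_of_add_eq_zero_left e3
  obtain ⟨W, hW, θ, hθ⟩ := skew_diag e4
  set V := Wᴴ * U * W with hV
  have hVu : V ∈ unitary (Matrix n n ℂ) := mul_mem (mul_mem (uni_conjTranspose hW) hU) hW
  have e5 : diagonal (fun j => (θ j : ℂ) * I) * (w • 1 - V) = w • 1 + V := by
    have := congrArg (fun A => Wᴴ * A * W) e1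
    simp only [hθ, mul_add, add_mul, mul_sub, sub_mul, mul_smul_comm, smul_mul_assoc, mul_one,
      ← mul_assoc, uni_conjTranspose_mul hW, one_mul] at this
    rw [mul_sub, mul_smul_comm, mul_one, hV]
    simp only [← mul_assoc]
    rw [← this, mul_assoc _ Wᴴ W, uni_conjTranspose_mul hW, mul_one]
  have e6 : V = diagonal (fun j => V j j) := by
    ext i j
    by_cases hij : i = j
    · subst hij; simp
    · have := congrFun (congrFun e5 i) j
      simp only [diagonal_mul, Matrix.sub_apply, Matrix.add_apply, Matrix.smul_apply,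
        one_apply_ne hij, smul_zero, zero_sub, zero_add] at this
      have h2 : ((θ i : ℂ) * I + 1) * V i j = 0 := by linear_combination -this
      have h3 : (θ i : ℂ) * I + 1 ≠ 0 := by
        intro h
        have := congrArg Complex.re h
        simp at this
      rw [diagonal_apply_ne _ hij]
      exact (mul_eq_zero.1 h2).resolve_left h3
  have e7 : ∀ j, ‖V j j‖ = 1 := by
    intro j
    have h1 := uni_mul_conjTranspose hVu
    rw [e6, diagonal_conjTranspose, diagonal_mul_diagonal] at h1
    have := congrFun (congrFun h1 j) j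
    simp only [diagonal_apply_eq, one_apply_eq, Pi.star_apply, Complex.star_def,
      Complex.mul_conj, Complex.normSq_eq_norm_sq] at this
    have h2 : ‖V j j‖ ^ 2 = 1 := by exact_mod_cast this
    nlinarith [norm_nonneg (V j j)]
  refine ⟨W, hW, fun j => arg (V j j), ?_⟩
  have e8 : diagonal (fun j => Complex.exp (arg (V j j) * I)) = V := by
    rw [e6]
    congr 1
    funext j
    have := norm_mul_exp_arg_mul_I (V j j)
    rw [e7] at this
    simpa using this
  rw [e8, hV]
  simp only [← mul_assoc, uni_mul_conjTranspose hW, one_mul]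
  rw [mul_assoc, uni_mul_conjTranspose hW, mul_one]

lemma ip_diagonal (v : n → ℂ) (M : Matrix n n ℂ) :
    ip (diagonal v) M = ∑ j, (v j * star (M j j)).re := by
  simp [ip, trace, Matrix.diag, diagonal_mul]

instance : ContinuousInv (specialUnitaryGroup n ℂ) where
  continuous_inv := by
    refine Continuous.subtype_mk (f := fun A : specialUnitaryGroup n ℂ => star A.1) ?_ _
    exact continuous_subtype_val.matrix_conjTranspose

instance : IsTopologicalGroup (specialUnitaryGroup n ℂ) where

instance : CompactSpace (specialUnitaryGroup n ℂ) := by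
  have h1 : IsCompact ((Metric.closedBall (0 : ℂ) 1).matrix : Set (Matrix n n ℂ)) :=
    (isCompact_closedBall 0 1).matrix
  have h2 : IsClosed ((specialUnitaryGroup n ℂ : Submonoid (Matrix n n ℂ)) : Set (Matrix n n ℂ)) := by
    have : ((specialUnitaryGroup n ℂ : Submonoid (Matrix n n ℂ)) : Set (Matrix n n ℂ)) =
        {A | A * Aᴴ = 1} ∩ {A | A.det = 1} := by
      ext A
      simp [mem_specialUnitaryGroup_iff, mem_unitaryGroup_iff, star_eq_conjTranspose]
    rw [this]
    exact (isClosed_eq (continuous_id.matrix_mul continuous_id.matrix_conjTranspose)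
      continuous_const).inter (isClosed_eq continuous_id.matrix_det continuous_const)
  refine isCompact_iff_compactSpace.1 (h1.of_isClosed_subset h2 fun A hA => ?_)
  rw [Set.mem_matrix]
  intro i j
  simpa using entry_norm_bound_of_unitary hA.1 i j

/-- the curve through a diagonal one-parameter subgroup -/
noncomputable def dcurve {W : Matrix n n ℂ} (hW : W ∈ unitary (Matrix n n ℂ)) {θ : n → ℝ}
    (hθ : ∑ j, θ j = 0) (t : ℝ) : specialUnitaryGroup n ℂ :=
  ⟨W * diagonal (fun j => Complex.exp ((t * θ j : ℝ) * I)) * Wᴴ, by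
    rw [mem_specialUnitaryGroup_iff]
    constructor
    · refine mul_mem (mul_mem hW ?_) (uni_conjTranspose hW)
      refine mem_unitaryGroup_iff.2 ?_
      rw [star_eq_conjTranspose, diagonal_conjTranspose,
        diagonal_mul_diagonal, ← diagonal_one]
      congr 1
      funext j
      rw [Pi.star_apply, Complex.star_def, Complex.mul_conj, Complex.normSq_eq_norm_sq,
        norm_exp_ofReal_mul_I]
      simp
    · rw [det_mul, det_mul, mul_right_comm, ← det_mul, uni_mul_conjTranspose hW, det_one, one_mul,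
        det_diagonal, ← Complex.exp_sum, ← sum_mul, ← ofReal_sum, ← mul_sum, hθ]
      simp⟩

lemma dcurve_isCurve {W : Matrix n n ℂ} (hW : W ∈ unitary (Matrix n n ℂ)) {θ : n → ℝ}
    (hθ : ∑ j, θ j = 0) : IsCurve (specialUnitaryGroup n ℂ).subtype (dcurve hW hθ)
      (W * diagonal (fun j => (θ j : ℂ) * I) * Wᴴ) where
  add := fun s t => by
    apply Subtype.ext
    simp only [dcurve, Submonoid.coe_mul, mul_assoc]
    rw [← mul_assoc Wᴴ, uni_conjTranspose_mul hW, one_mul, ← mul_assoc (diagonal _),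
      diagonal_mul_diagonal]
    congr 3
    funext j
    rw [← Complex.exp_add]
    push_cast
    ring_nf
  zero := by
    apply Subtype.ext
    simp [dcurve, uni_mul_conjTranspose hW]
  der := fun M => by
    have e : ∀ v : n → ℂ, ip (W * diagonal v * Wᴴ) M =
        ∑ j, (v j * star ((Wᴴ * (M * Wᴴᴴ)) j j)).re := fun v => by
      rw [ip_mul_right, ip_mul_left, ip_diagonal]
    simp only [Submonoid.subtype_apply, dcurve, e]
    refine HasDerivAt.fun_sum fun j _ => ?_
    set c := star ((Wᴴ * (M * Wᴴᴴ)) j j)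
    have h1 : HasDerivAt (fun z : ℂ => Complex.exp (z * θ j * I) * c) ((θ j : ℂ) * I * c)
        ((0 : ℝ) : ℂ) := by
      have := ((((hasDerivAt_id ((0 : ℝ) : ℂ)).mul_const (θ j : ℂ)).mul_const I).cexp).mul_const c
      simpa using this
    have := h1.real_of_complex
    simpa using this

lemma su_diag {X : Matrix n n ℂ} (hX : X ∈ su n) : ∃ W ∈ unitary (Matrix n n ℂ), ∃ θ : n → ℝ,
    ∑ j, θ j = 0 ∧ X = W * diagonal (fun j => (θ j : ℂ) * I) * Wᴴ := by
  obtain ⟨W, hW, θ, h⟩ := skew_diag hX.1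
  refine ⟨W, hW, θ, ?_, h⟩
  have h1 := hX.2
  rw [h, trace_mul_comm, ← mul_assoc, uni_conjTranspose_mul hW, one_mul, trace_diagonal,
    ← sum_mul, ← ofReal_sum] at h1
  exact_mod_cast (mul_eq_zero.1 h1).resolve_right I_ne_zero

lemma diag_mem_su {W : Matrix n n ℂ} (hW : W ∈ unitary (Matrix n n ℂ)) {θ : n → ℝ}
    (hθ : ∑ j, θ j = 0) : W * diagonal (fun j => (θ j : ℂ) * I) * Wᴴ ∈ su n := by
  constructor
  · rw [conjTranspose_mul, conjTranspose_mul, conjTranspose_conjTranspose, diagonal_conjTranspose,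
      ← mul_assoc, ← neg_mul, ← mul_neg, diagonal_neg]
    congr 3
    funext j
    simp
  · rw [trace_mul_comm, ← mul_assoc, uni_conjTranspose_mul hW, one_mul, trace_diagonal,
      ← sum_mul, ← ofReal_sum, hθ]
    simp

lemma su_onto [Nonempty n] (x : specialUnitaryGroup n ℂ) : ∃ X ∈ su n, ∃ γ,
    IsCurve (specialUnitaryGroup n ℂ).subtype γ X ∧ γ 1 = x := by
  obtain ⟨W, hW, θ, h⟩ := uni_diag x.2.1
  have h1 : x.1.det = 1 := x.2.2
  rw [h, det_mul, det_mul, mul_right_comm, ← det_mul, uni_mul_conjTranspose hW, det_one, one_mul,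
    det_diagonal, ← Complex.exp_sum, ← sum_mul, ← ofReal_sum] at h1
  obtain ⟨j0⟩ := ‹Nonempty n›
  have h2 : ∑ j, (θ j - if j = j0 then ∑ k, θ k else 0) = 0 := by simp
  refine ⟨_, diag_mem_su hW h2, _, dcurve_isCurve hW h2, Subtype.ext ?_⟩
  rw [h]
  simp only [dcurve]
  congr 3
  funext j
  by_cases hj : j = j0
  · rw [if_pos hj, one_mul, ofReal_sub, sub_mul, Complex.exp_sub, h1, div_one]
  · simp [hj]

lemma proj_bound [Nonempty n] {B : Matrix n n ℂ} (hB : B ∈ unitary (Matrix n n ℂ))
    (Y : Matrix n n ℂ) : ip (proj B * Y) (proj B * Y) ≤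
      (2 * (1 - (Fintype.card n : ℝ)⁻¹)) ^ 2 * ip Y Y := by
  have hN : (0 : ℝ) < Fintype.card n := by exact_mod_cast Fintype.card_pos
  obtain ⟨W, hW, θ, h⟩ := skew_diag (S := (1 / 2 : ℝ) • (B - Bᴴ)) (by
    rw [conjTranspose_smul, conjTranspose_sub, conjTranspose_conjTranspose, star_trivial]
    module)
  have hV : Wᴴ * B * W ∈ unitary (Matrix n n ℂ) := mul_mem (mul_mem (uni_conjTranspose hW) hB) hW
  have h1 : ∀ j, θ j = ((Wᴴ * B * W) j j).im := by
    intro j
    have e1 : diagonal (fun j => (θ j : ℂ) * I) =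
        (1 / 2 : ℝ) • (Wᴴ * B * W - (Wᴴ * B * W)ᴴ) := by
      have := congrArg (fun A => Wᴴ * A * W) h
      simp only [← mul_assoc, uni_conjTranspose_mul hW, one_mul] at this
      rw [mul_assoc _ Wᴴ W, uni_conjTranspose_mul hW, mul_one] at this
      rw [← this]
      simp only [conjTranspose_mul, conjTranspose_conjTranspose, mul_smul_comm, smul_mul_assoc,
        mul_sub, sub_mul, mul_assoc]
    have e2 := congrArg Complex.im (congrFun (congrFun e1 j) j)
    simp only [diagonal_apply_eq, Matrix.smul_apply, Matrix.sub_apply, conjTranspose_apply] at e2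
    simp at e2
    linarith
  have h2 : ∀ j, |θ j| ≤ 1 := fun j => by
    rw [h1]
    exact (abs_im_le_norm _).trans (entry_norm_bound_of_unitary hV j j)
  have h3 : B.trace.im = ∑ j, θ j := by
    have : B.trace = (Wᴴ * B * W).trace := by
      rw [trace_mul_comm, ← mul_assoc, uni_mul_conjTranspose hW, one_mul]
    rw [this]
    simp only [h1, trace, Matrix.diag, im_sum]
  set m : ℝ := (∑ j, θ j) / Fintype.card n with hm
  have h4 : proj B = W * diagonal (fun j => ((θ j - m : ℝ) : ℂ) * I) * Wᴴ := by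
    rw [proj, h, h3, ← hm]
    have : diagonal (fun j => ((θ j - m : ℝ) : ℂ) * I) =
        diagonal (fun j => (θ j : ℂ) * I) - ((m : ℂ) * I) • (1 : Matrix n n ℂ) := by
      ext i j
      by_cases hij : i = j
      · subst hij; simp [sub_mul]
      · simp [hij]
    rw [this, mul_sub, sub_mul, mul_smul_comm, smul_mul_assoc, mul_one, uni_mul_conjTranspose hW]
  have h5 : ∀ j, |θ j - m| ≤ 2 * (1 - (Fintype.card n : ℝ)⁻¹) := by
    intro j
    have e1 : θ j - m = (∑ k ∈ univ.erase j, (θ j - θ k)) / Fintype.card n := by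
      rw [sum_erase _ (by simp), sum_sub_distrib, hm]
      simp only [sum_const, card_univ, nsmul_eq_mul]
      field_simp
    have e2 : |∑ k ∈ univ.erase j, (θ j - θ k)| ≤ ∑ k ∈ univ.erase j, (2 : ℝ) := by
      refine (abs_sum_le_sum_abs _ _).trans (sum_le_sum fun k _ => ?_)
      have := h2 j
      have := h2 k
      have := abs_sub (θ j) (θ k)
      linarith
    rw [sum_const, card_erase_of_mem (mem_univ j), card_univ, nsmul_eq_mul,
      Nat.cast_sub Fintype.card_pos] at e2
    rw [e1, abs_div, abs_of_pos hN, div_le_iff₀ hN]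
    refine e2.trans (le_of_eq ?_)
    field_simp
    simp
  rw [h4, mul_assoc, mul_assoc, ip_uni_left hW, ← ip_uni_left (uni_conjTranspose hW) Y, ip_self,
    ip_self, mul_sum]
  refine sum_le_sum fun i _ => ?_
  rw [mul_sum]
  refine sum_le_sum fun j _ => ?_
  rw [diagonal_mul, norm_mul, mul_pow]
  refine mul_le_mul_of_nonneg_right ?_ (by positivity)
  rw [norm_mul, norm_I, mul_one, norm_real, Real.norm_eq_abs]
  exact pow_le_pow_left₀ (abs_nonneg _) (h5 i) 2

/-- the data for `SU(N)` -/
noncomputable def suGrp (n : Type) [Fintype n] [DecidableEq n] [Nontrivial n] :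
    Grp (specialUnitaryGroup n ℂ) n (n × n × Bool) where
  toFrame := suFrame n
  r := (specialUnitaryGroup n ℂ).subtype
  cont := continuous_subtype_val
  inj := Subtype.val_injective
  uni := fun x => x.2.1
  curve := fun X hX => by
    obtain ⟨W, hW, θ, h1, rfl⟩ := su_diag hX
    exact ⟨_, dcurve_isCurve hW h1⟩
  onto := su_onto
  kap := 2 * (1 - (Fintype.card n : ℝ)⁻¹)
  kap_pos := by
    have : (1 : ℝ) < Fintype.card n := by exact_mod_cast Fintype.one_lt_card
    have := inv_lt_one_of_one_lt₀ this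
    linarith
  lam_pos := by
    have h : (1 : ℝ) < Fintype.card n := by exact_mod_cast Fintype.one_lt_card
    have := inv_lt_one_of_one_lt₀ h
    change 0 < (Fintype.card n : ℝ) - (Fintype.card n : ℝ)⁻¹
    linarith
  ric_pos := by
    have h : (1 : ℝ) < Fintype.card n := by exact_mod_cast Fintype.one_lt_card
    change 0 < (Fintype.card n : ℝ) / 2
    linarith
  hkap := fun B hB Y => by
    have : (suFrame n).pr B = proj B := suT_pr B
    rw [this]
    exact proj_bound hB Y

end Pool.Agent.Lib.MP_7f377f_mp.SUN
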