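import Pool.Agent.Lib.MP_7f377f_mp.SUNSys

set_option autoImplicit false

/-! Extension of the covariance bound from polynomials to Lipschitz observables. -/

namespace Pool.Agent.Lib.MP_7f377f_mp.SUN

open Finset Matrix MeasureTheory Filter Topology

variable {n : Type} [Fintype n] [DecidableEq n] {ι : Type} [Fintype ι]
  {G : Type} [Group G] [TopologicalSpace G] (H : Grp G n ι) {Λ : Type}

lemma ip_base (A B : Matrix n n ℂ) : ip A B = ∑ a, ip A (base a) * ip B (base a) := by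
  conv_lhs => rw [← base_pars B, ip_sum_right]
  simp only [ip_smul_right, mul_comm]

namespace Grp

lemma ev_add (U : Λ → G) (f g : H.P Λ) : H.ev U (f + g) = H.ev U f + H.ev U g := rfl

lemma ev_one (U : Λ → G) : H.ev U 1 = 1 := rfl

lemma r_inv (x : G) : H.r x⁻¹ = (H.r x)ᴴ := by
  have h : H.r x⁻¹ * H.r x = 1 := by rw [← map_mul, inv_mul_cancel, map_one]
  calc H.r x⁻¹ = H.r x⁻¹ * (H.r x * (H.r x)ᴴ) := by rw [uni_mul_conjTranspose (H.uni x), mul_one]
    _ = (H.r x)ᴴ := by rw [← mul_assoc, h, one_mul]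

lemma separates : (H.P Λ).SeparatesPoints := by
  intro U V h
  obtain ⟨e, he⟩ := Function.ne_iff.1 h
  refine ⟨_, ⟨(H.co e (H.r (U e) - H.r (V e))).1, (H.co _ _).2, rfl⟩, fun h2 => he (H.inj ?_)⟩
  simp only [co_apply] at h2
  rw [← sub_eq_zero, ← ip_sub_left, ip_self] at h2
  rw [← sub_eq_zero]
  ext i j
  have h3 := (sum_eq_zero_iff_of_nonneg fun i _ => by positivity).1 h2 i (mem_univ i)
  have h4 := (sum_eq_zero_iff_of_nonneg fun i _ => by positivity).1 h3 j (mem_univ j)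
  simpa using h4

variable [DecidableEq Λ]

lemma gr_le (f : H.P Λ) (e : Λ) {a : ℝ} (h : ∀ x U, |f.1 (Pi.mulSingle e x * U) - f.1 U| ≤
    a * √(ip (H.r x - 1) (H.r x - 1))) (U : Λ → G) : H.ev U (H.gr e f) ≤ a ^ 2 := by
  rw [ev_gr]
  set Y := H.om e f U with hY
  obtain ⟨γ, hγ⟩ := H.curve Y (H.om_mem e f U)
  have h1 := H.hasD e ⟨Y, H.om_mem e f U⟩ f γ hγ U
  rw [← ev_def, D_apply, ← hY, hasDerivAt_iff_tendsto_slope] at h1
  have h2 : Tendsto (fun t => ∑ c, slope (fun t => ip (H.r (γ t)) (base c)) 0 t ^ 2) (𝓝[≠] 0)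
      (𝓝 (ip Y Y)) := by
    rw [ip_base]
    refine tendsto_finsetSum _ fun c _ => ?_
    rw [← sq]
    exact (hasDerivAt_iff_tendsto_slope.1 (hγ.der (base c))).pow 2
  have h3 := le_of_tendsto_of_tendsto' (h1.pow 2) (h2.const_mul (a ^ 2)) fun t => by
    simp only [slope_def_field, sub_zero, hγ.zero, Pi.mulSingle_one, one_mul, map_one, div_pow,
      ← sum_div, ← mul_div_assoc]
    refine div_le_div_of_nonneg_right ?_ (sq_nonneg t)
    have h4 := pow_le_pow_left₀ (abs_nonneg _) (h (γ t) U) 2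
    rw [sq_abs, mul_pow, Real.sq_sqrt (ip_self_nonneg _), ip_base] at h4
    simpa only [ip_sub_left, sq] using h4
  have h4 := ip_self_nonneg Y
  change ip Y Y ^ 2 ≤ _ at h3
  rcases h4.eq_or_lt with h5 | h5
  · rw [← h5]; positivity
  · nlinarith

variable [Fintype Λ] [IsTopologicalGroup G] [CompactSpace G] [SecondCountableTopology G]
  [MeasurableSpace G] [BorelSpace G] (μ : Measure G) [μ.IsHaarMeasure] [IsProbabilityMeasure μ]

omit [DecidableEq Λ] [μ.IsHaarMeasure] in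
lemma conv_poly (k : H.P Λ) (f : C(Λ → G, ℝ)) : ∃ p : H.P Λ, ∀ U,
    H.ev U p = ∫ W, f W * k.1 (U⁻¹ * W) ∂(Measure.pi fun _ => μ) := by
  set Q : C(Λ → G, ℝ) → Prop := fun k => ∀ f : C(Λ → G, ℝ), ∃ p : H.P Λ, ∀ U,
    H.ev U p = ∫ W, f W * k (U⁻¹ * W) ∂(Measure.pi fun _ => μ) with hQ
  have key : ∀ k2 ∈ H.P Λ, ∀ k1, Q k1 → Q (k1 * k2) := by
    intro k2 hk2
    induction hk2 using Algebra.adjoin_induction with
    | mem x hx =>
      obtain ⟨⟨e, M⟩, rfl⟩ := hx
      intro k1 h1 f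
      choose p hp using fun a => h1 (f * H.coord e (base a * M))
      refine ⟨∑ a, H.co e (base a) * p a, fun U => ?_⟩
      simp only [map_sum, map_mul, hp, ← integral_const_mul]
      rw [← integral_finsetSum _ fun a _ => cm_int _ (by fun_prop)]
      congr 1
      funext W
      have : H.coord e M (U⁻¹ * W) = ∑ a, H.ev U (H.co e (base a)) * H.coord e (base a * M) W := by
        change ip (H.r ((U e)⁻¹ * W e)) M = ∑ a, ip (H.r (U e)) _ * ip (H.r (W e)) _
        rw [map_mul, r_inv, ip_mul_left, conjTranspose_conjTranspose, ip_comm, ip_mul_right,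
          ip_base]
        simp only [ip_mul_right, conjTranspose_conjTranspose]
      simp only [ContinuousMap.mul_apply, this, mul_sum]
      exact sum_congr rfl fun a _ => by ring
    | algebraMap c =>
      intro k1 h1 f
      obtain ⟨p, hp⟩ := h1 (c • f)
      refine ⟨p, fun U => ?_⟩
      rw [hp]
      congr 1
      funext W
      simp only [ContinuousMap.mul_apply, ContinuousMap.smul_apply, smul_eq_mul,
        Algebra.algebraMap_eq_smul_one, ContinuousMap.one_apply]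
      ring
    | add x y hx hy h1 h2 =>
      intro k1 h f
      obtain ⟨p, hp⟩ := h1 k1 h f
      obtain ⟨q, hq⟩ := h2 k1 h f
      refine ⟨p + q, fun U => ?_⟩
      rw [ev_add, hp, hq, ← integral_add (cm_int _ (by fun_prop)) (cm_int _ (by fun_prop))]
      simp only [ContinuousMap.mul_apply, ContinuousMap.add_apply, mul_add]
    | mul x y hx hy h1 h2 =>
      intro k1 h
      rw [← mul_assoc]
      exact h2 _ (h1 k1 h)
  have h1 : Q 1 := fun f => ⟨(∫ W, f W ∂(Measure.pi fun _ => μ)) • 1, fun U => by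
    rw [ev_smul, ev_one]; simp⟩
  have := key k.1 k.2 1 h1 f
  rwa [one_mul] at this

/-- Lipschitz bound in every single link -/
def LipL (f : (Λ → G) → ℝ) (a : Λ → ℝ) : Prop :=
  ∀ e x U, |f (Pi.mulSingle e x * U) - f U| ≤ a e * √(ip (H.r x - 1) (H.r x - 1))

include μ in
lemma approx (f : C(Λ → G, ℝ)) {a : Λ → ℝ} (hf : H.LipL f a)
    {ε : ℝ} (hε : 0 < ε) : ∃ p : H.P Λ, ‖p.1 - f‖ ≤ ε * (‖f‖ + 1) ∧
      ∀ e U, H.ev U (H.gr e p) ≤ ((1 + ε) * a e) ^ 2 := by
  set π : Measure (Λ → G) := Measure.pi fun _ => μ with hπ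
  set F : C((Λ → G) × (Λ → G), ℝ) := ⟨fun p => f (p.2 * p.1), by fun_prop⟩ with hF
  set A : C(Λ → G, ℝ) := ⟨fun V => ‖F.curry V - f‖, by fun_prop⟩ with hA
  have hA1 : ∀ U V, |f (U * V) - f U| ≤ A V := fun U V => (F.curry V - f).norm_coe_le_norm U
  have hA0 : A 1 = 0 := by
    change ‖F.curry 1 - f‖ = 0
    rw [norm_eq_zero, sub_eq_zero]
    ext U
    simp [hF]
  set φ0 : C(Λ → G, ℝ) := ⟨fun V => max (ε - A V) 0, by fun_prop⟩ with hφ0
  have Z0 : 0 < ∫ V, φ0 V ∂π :=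
    φ0.continuous.integral_pos_of_hasCompactSupport_nonneg_nonzero
      (HasCompactSupport.of_compactSpace _) (fun V => le_max_right _ _) (x := 1) (by
        simp [hφ0, hA0, hε.le, hε.ne'])
  set φ : C(Λ → G, ℝ) := (∫ V, φ0 V ∂π)⁻¹ • φ0 with hφ
  have φ1 : ∫ V, φ V ∂π = 1 := by
    simp only [hφ, ContinuousMap.smul_apply, smul_eq_mul]
    rw [integral_const_mul, inv_mul_cancel₀ Z0.ne']
  have φ2 : ∀ V, 0 ≤ φ V := fun V => mul_nonneg (inv_nonneg.2 Z0.le) (le_max_right _ _)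
  have φ3 : ∀ V, A V * φ V ≤ ε * φ V := by
    intro V
    rcases le_total (A V) ε with h | h
    · exact mul_le_mul_of_nonneg_right h (φ2 V)
    · have : φ V = 0 := by simp [hφ, hφ0, h]
      simp [this]
  obtain ⟨k, hk⟩ := ContinuousMap.exists_mem_subalgebra_near_continuousMap_of_separatesPoints
    (H.P Λ) H.separates φ ε hε
  have hk1 : ∀ V, |k.1 V - φ V| ≤ ε := fun V => ((k.1 - φ).norm_coe_le_norm V).trans hk.le
  obtain ⟨p, hp⟩ := H.conv_poly μ k f
  have hp2 : ∀ U, p.1 U = ∫ V, f (U * V) * k.1 V ∂π := by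
    intro U
    rw [← ev_def, hp, ← integral_mul_left_eq_self _ U]
    simp only [inv_mul_cancel_left, hπ]
  refine ⟨p, (ContinuousMap.norm_le _ (by positivity)).2 fun U => ?_, fun e =>
    H.gr_le p e fun x U => ?_⟩
  · have e1 : (p.1 - f) U = ∫ V, (f (U * V) * k.1 V - f U * φ V) ∂π := by
      rw [integral_sub (cm_int _ (by fun_prop)) (cm_int _ (by fun_prop)), integral_const_mul, φ1,
        mul_one, ← hp2]
      rfl
    have e2 : ε * (‖f‖ + 1) = ∫ V, (ε * ‖f‖ + ε * φ V) ∂π := by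
      rw [integral_add (integrable_const _) (cm_int _ (by fun_prop)), integral_const_mul,
        integral_const_mul, φ1]
      simp [mul_add]
    rw [e1, e2]
    refine norm_integral_le_of_norm_le (cm_int _ (by fun_prop)) (Eventually.of_forall fun V => ?_)
    have e3 : f (U * V) * k.1 V - f U * φ V =
        f (U * V) * (k.1 V - φ V) + (f (U * V) - f U) * φ V := by ring
    rw [e3, Real.norm_eq_abs]
    refine (abs_add_le _ _).trans (add_le_add ?_ ?_)
    · rw [abs_mul, mul_comm]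
      exact mul_le_mul (hk1 V) (f.norm_coe_le_norm _) (abs_nonneg _) hε.le
    · rw [abs_mul, abs_of_nonneg (φ2 V)]
      exact (mul_le_mul_of_nonneg_right (hA1 U V) (φ2 V)).trans (φ3 V)
  · set L := a e * √(ip (H.r x - 1) (H.r x - 1)) with hL
    have e1 : ∀ W, |f (Pi.mulSingle e x * W) - f W| ≤ L := hf e x
    have L0 : 0 ≤ L := (abs_nonneg _).trans (e1 1)
    have e2 : (1 + ε) * a e * √(ip (H.r x - 1) (H.r x - 1)) = ∫ V, (L * φ V + L * ε) ∂π := by
      rw [integral_add (cm_int _ (by fun_prop)) (integrable_const _), integral_const_mul, φ1]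
      simp only [integral_const, probReal_univ, one_smul, hL]
      ring
    rw [hp2, hp2, ← integral_sub (cm_int _ (by fun_prop)) (cm_int _ (by fun_prop)), e2,
      ← Real.norm_eq_abs]
    refine norm_integral_le_of_norm_le (cm_int _ (by fun_prop)) (Eventually.of_forall fun V => ?_)
    rw [← sub_mul, Real.norm_eq_abs, abs_mul, mul_assoc, ← mul_add]
    refine mul_le_mul (e1 _) ?_ (abs_nonneg _) L0
    have := hk1 V
    have := φ2 V
    rw [abs_le] at *
    constructor <;> linarith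

omit [DecidableEq Λ] [Group G] [IsTopologicalGroup G] in
lemma cont_int (ν : Measure (Λ → G)) [IsProbabilityMeasure ν] :
    Continuous fun f : C(Λ → G, ℝ) => ∫ U, f U ∂ν := by
  refine (LipschitzWith.of_dist_le_mul (K := 1) fun f g => ?_).continuous
  rw [dist_eq_norm, dist_eq_norm, ← integral_sub (cm_int _ f.continuous) (cm_int _ g.continuous)]
  have := norm_integral_le_of_norm_le_const (μ := ν) (f := fun U => f U - g U) (C := ‖f - g‖)
    (Eventually.of_forall fun U => (f - g).norm_coe_le_norm U)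
  simpa using this

include μ in
theorem cov_extend (ν : Measure (Λ → G)) [IsProbabilityMeasure ν] {w w' : Λ → ℝ}
    (hw : ∀ e, 0 ≤ w e) (hw' : ∀ e, 0 ≤ w' e) {c : ℝ} (hc : 0 ≤ c)
    (h : ∀ f g : H.P Λ, |H.ex ν (f * g) - H.ex ν f * H.ex ν g| ≤
      c * √(∑ e, w e * H.ex ν (H.gr e f)) * √(∑ e, w' e * H.ex ν (H.gr e g)))
    (f g : C(Λ → G, ℝ)) {a b : Λ → ℝ} (hf : H.LipL f a) (hg : H.LipL g b) :
    |∫ U, f U * g U ∂ν - (∫ U, f U ∂ν) * ∫ U, g U ∂ν| ≤
      c * √(∑ e, w e * a e ^ 2) * √(∑ e, w' e * b e ^ 2) := by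
  choose p hp1 hp2 using fun k : ℕ => H.approx μ f hf (ε := 1 / ((k : ℝ) + 1)) (by positivity)
  choose q hq1 hq2 using fun k : ℕ => H.approx μ g hg (ε := 1 / ((k : ℝ) + 1)) (by positivity)
  have h0 : Tendsto (fun k : ℕ => 1 / ((k : ℝ) + 1)) atTop (𝓝 0) :=
    tendsto_one_div_add_atTop_nhds_zero_nat
  have tp : Tendsto (fun k => (p k).1) atTop (𝓝 f) := by
    rw [tendsto_iff_norm_sub_tendsto_zero]
    exact squeeze_zero (fun k => norm_nonneg _) hp1 (by simpa using h0.mul_const (‖f‖ + 1))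
  have tq : Tendsto (fun k => (q k).1) atTop (𝓝 g) := by
    rw [tendsto_iff_norm_sub_tendsto_zero]
    exact squeeze_zero (fun k => norm_nonneg _) hq1 (by simpa using h0.mul_const (‖g‖ + 1))
  have ci := cont_int ν
  have t1 := (((ci.tendsto _).comp (tp.mul tq)).sub
    (((ci.tendsto _).comp tp).mul ((ci.tendsto _).comp tq))).abs
  have cs : ∀ w a : Λ → ℝ, Tendsto (fun k : ℕ => √(∑ e, w e * ((1 + 1 / ((k : ℝ) + 1)) * a e) ^ 2))
      atTop (𝓝 √(∑ e, w e * a e ^ 2)) := by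
    intro w a
    have : Continuous fun x : ℝ => √(∑ e, w e * ((1 + x) * a e) ^ 2) := by fun_prop
    simpa [Function.comp_def] using (this.tendsto 0).comp h0
  have bd : ∀ (p : H.P Λ) (e : Λ) (x : ℝ), (∀ U, H.ev U (H.gr e p) ≤ x) → H.ex ν (H.gr e p) ≤ x := by
    intro p e x hx
    have := (H.ex_mono ν).le (f := H.gr e p) (g := x • 1) fun U => by
      rw [ev_smul, ev_one, mul_one]; exact hx U
    rwa [map_smul, H.ex_one, smul_eq_mul, mul_one] at this
  refine le_of_tendsto_of_tendsto' t1 (((cs w a).const_mul c).mul (cs w' b)) fun k => ?_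
  refine (h (p k) (q k)).trans ?_
  gcongr with e _ e _
  · exact hw e
  · exact bd _ _ _ (hp2 k e)
  · exact hw' e
  · exact bd _ _ _ (hq2 k e)

variable {Pl : Type} [Fintype Pl] (pl : Pl → Plq Λ G) (c : Pl → ℝ)

theorem cov_lip {b B A ρ : ℝ} (b0 : 0 < b)
    (B0 : 0 ≤ B) (hB : ∀ e, ∑ p, (if e ∈ (pl p).S.image (pl p).lk then |c p| else 0) ≤ B)
    (hb : ∀ e k, k ≠ e → ∑ p, (if e ∈ (pl p).S.image (pl p).lk ∧ k ∈ (pl p).S.image (pl p).lk
      then |c p| else 0) ≤ b) {w : Λ → ℝ} (hw : ∀ e, 0 < w e) (hρ1 : 1 ≤ ρ)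
    (hρ : ∀ p, ∀ i ∈ (pl p).S, ∀ j ∈ (pl p).S, w ((pl p).lk i) ≤ ρ * w ((pl p).lk j))
    (hA1 : 2 ≤ A) (hA2 : 16 / 3 * b * Fintype.card n / H.lam ^ 2 + 4 * (H.kap * B) / H.lam ≤ A)
    {K : ℝ} (hK : 0 < K) (hK2 : ρ * A * B ≤ H.ric - K)
    (f g : C(Λ → G, ℝ)) {a a' : Λ → ℝ} (hf : H.LipL f a) (hg : H.LipL g a') :
    |∫ U, f U * g U ∂H.gibbs μ (H.action pl c) -
      (∫ U, f U ∂H.gibbs μ (H.action pl c)) * ∫ U, g U ∂H.gibbs μ (H.action pl c)| ≤
      1 / K * √(∑ e, (w e)⁻¹ * a e ^ 2) * √(∑ e, w e * a' e ^ 2) :=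
  H.cov_extend μ _ (fun e => (inv_pos.2 (hw e)).le) (fun e => (hw e).le) (by positivity)
    (H.cov_action pl c μ b0 B0 hB hb hw hρ1 hρ hA1 hA2 hK hK2) f g hf hg

end Grp

end Pool.Agent.Lib.MP_7f377f_mp.SUN
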