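import Pool.Agent.Lib.MP_7f377f_mp.SUNOsc

set_option autoImplicit false
set_option linter.unusedSectionVars false

/-! Existence, uniqueness and exponential clustering of the infinite volume Gibbs measure. -/

namespace Pool.Agent.Lib.MP_7f377f_mp.SUN

open Finset Matrix MeasureTheory Filter Topology ProbabilityTheory

variable {d N : ℕ}

lemma linkAction_eq (β : ℝ) (e : Lk d) (U : Cfg d N) :
    linkAction β e U = N * β * ∑ p ∈ star1 e, pq p U := by
  rw [sum_star1 e (fun p => pq p U) (pq_symm U)]; rfl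

lemma linkAction_cont (β : ℝ) (e : Lk d) : Continuous (linkAction (N := N) β e) := by
  simp only [funext (linkAction_eq (N := N) β e)]
  exact continuous_const.mul (continuous_finsetSum _ fun p _ => pq_cont p)

lemma rest_inv (β : ℝ) {Λ : Finset (Lk d)} {e : Lk d} (he : e ∈ Λ)
    (x : specialUnitaryGroup (Fin N) ℂ) (U : Cfg d N) :
    VQ β Λ (Pi.mulSingle e x * U) - linkAction β e (Pi.mulSingle e x * U) =
      VQ β Λ U - linkAction β e U := by
  have h : star1 e ⊆ QQ Λ := subset_biUnion_of_mem star1 he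
  simp only [VQ, linkAction_eq, ← mul_sub, ← sum_sdiff_eq_sub h]
  refine congrArg _ (sum_congr rfl fun p hp => ?_)
  have := pq_lip (QQ_lt (mem_sdiff.1 hp).1) e x U
  rwa [if_neg (mem_sdiff.1 hp).2, abs_nonpos_iff, sub_eq_zero] at this

lemma single_mul (e : Lk d) (x : specialUnitaryGroup (Fin N) ℂ) (U : Cfg d N) :
    Pi.mulSingle e x * U = Function.update U e (x * U e) := by
  funext k
  by_cases h : k = e
  · subst h; simp
  · simp [h]

variable [Nontrivial (Fin N)] [MeasurableSpace (specialUnitaryGroup (Fin N) ℂ)]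
  [BorelSpace (specialUnitaryGroup (Fin N) ℂ)]

/-- quasi-invariance -/
def QI (ν : Measure (Cfg d N)) (V : Cfg d N → ℝ) (h : Cfg d N) : Prop :=
  ∀ F : C(Cfg d N, ℝ), ∫ U, F (h * U) * Real.exp (-V U) ∂ν = ∫ U, F U * Real.exp (-V U) ∂ν

lemma QI.mul {ν : Measure (Cfg d N)} {V : Cfg d N → ℝ} {h h' : Cfg d N} (h1 : QI ν V h)
    (h2 : QI ν V h') : QI ν V (h * h') := fun F => by
  rw [← h1 F, ← show _ = ∫ U, F (h * U) * Real.exp (-V U) ∂ν from
    h2 ⟨fun U => F (h * U), by fun_prop⟩]
  simp only [mul_assoc, ContinuousMap.coe_mk]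

lemma QI.change {ν : Measure (Cfg d N)} {V V' : Cfg d N → ℝ} {h : Cfg d N} (h1 : QI ν V h)
    (hV : Continuous V) (hV' : Continuous V') (hR : ∀ U, V' (h * U) - V (h * U) = V' U - V U) :
    QI ν V' h := fun F => by
  have := h1 ⟨fun U => F U * Real.exp (-(V' U - V U)), by fun_prop⟩
  simp only [ContinuousMap.coe_mk, hR, mul_assoc, ← Real.exp_add] at this
  simpa only [neg_sub, sub_add_eq_add_sub, add_neg_cancel, zero_sub] using this

lemma upd_cont (e : Lk d) : Continuous
    (fun (g : specialUnitaryGroup (Fin N) ℂ) (U : Cfg d N) => Function.update U e g).uncurry :=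
  continuous_snd.update (f := fun p : specialUnitaryGroup (Fin N) ℂ × Cfg d N => p.2) e
    continuous_fst

variable (μ : Measure (specialUnitaryGroup (Fin N) ℂ)) [μ.IsHaarMeasure] [IsProbabilityMeasure μ]

instance (β : ℝ) (Λ : Finset (Lk d)) (η : Cfg d N) :
    IsProbabilityMeasure ((Measure.pi fun _ => μ).tilted fun h => VQ β Λ (glue Λ h η)) :=
  isProbabilityMeasure_tilted (cint _ ((VQ_cont β Λ).comp (glue_cont' Λ η)).rexp)

lemma qi_of_gibbs {β : ℝ} {ν : Measure (Cfg d N)} (hν : IsGibbs μ β ν) (e : Lk d)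
    (x : specialUnitaryGroup (Fin N) ℂ) : QI ν (linkAction β e) (Pi.mulSingle e x) := fun F => by
  have hc := linkAction_cont (N := N) β e
  have h1 := hν.2 e ⟨fun U => F (Pi.mulSingle e x * U) * Real.exp (-linkAction β e U), by fun_prop⟩
  have h2 := hν.2 e ⟨fun U => F U * Real.exp (-linkAction β e U), by fun_prop⟩
  simp only [ContinuousMap.coe_mk] at h1 h2
  rw [h1, h2]
  congr 1
  funext U
  simp only [tilted_eq, mul_assoc, ← Real.exp_add, neg_add_cancel, Real.exp_zero, mul_one,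
    single_mul, Function.update_self, Function.update_idem]
  rw [integral_mul_left_eq_self (fun g => F (Function.update U e g))]

lemma gibbs_of_qi {β : ℝ} {ν : Measure (Cfg d N)} [IsProbabilityMeasure ν] (e : Lk d)
    (h : ∀ x, QI ν (linkAction β e) (Pi.mulSingle e x)) (f : C(Cfg d N, ℝ)) :
    ∫ U, f U ∂ν = ∫ U, cond μ (fun g U => Function.update U e g) (linkAction β e) f U ∂ν := by
  have := haar_right μ
  refine dlr_of_qi μ ν (res := fun U => U e) (upd_cont e)
    (fun _ _ _ => Function.update_idem _ _ _) (continuous_apply e) (linkAction_cont β e)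
    (fun x F => ?_) f.continuous
  simpa only [single_mul] using h x F

lemma dlr_fin {β : ℝ} {ν : Measure (Cfg d N)} (hν : IsGibbs μ β ν) (Λ : Finset (Lk d))
    {f : Cfg d N → ℝ} (hf : Continuous f) : ∫ U, f U ∂ν = ∫ U, gam μ β Λ f U ∂ν := by
  have := hν.1
  have := haar_right μ
  refine dlr_of_qi _ ν (res := fun U e => U e.1) (glue_cont Λ) (fun h h' U => ?_) (by fun_prop)
    (VQ_cont β Λ) (fun h F => ?_) hf
  · funext e
    by_cases he : e ∈ Λ <;> simp [glue, he]
  · have key : ∀ s ⊆ Λ, QI ν (VQ β Λ) fun e => if e ∈ s then glue Λ h 1 e else 1 := by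
      intro s
      induction s using Finset.induction_on with
      | empty =>
        intro _ F
        simp only [notMem_empty, if_false]
        rw [show (fun _ => 1 : Cfg d N) = 1 from rfl]
        simp
      | insert a s ha ih =>
        intro hs
        have h1 := ((qi_of_gibbs μ hν a (glue Λ h 1 a)).change (linkAction_cont β a) (VQ_cont β Λ)
          (rest_inv β (hs (mem_insert_self a s)) _)).mul (ih ((subset_insert a s).trans hs))
        have h2 : (Pi.mulSingle a (glue Λ h 1 a) * fun e => if e ∈ s then glue Λ h 1 e else 1) =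
            fun e => if e ∈ insert a s then glue Λ h 1 e else 1 := by
          funext e
          by_cases he : e = a
          · subst he; simp [ha]
          · simp [he]
        rwa [h2] at h1
    rw [← key Λ subset_rfl F]
    congr 1
    funext U
    congr 2
    funext e
    by_cases he : e ∈ Λ <;> simp [glue, he]

lemma exists_gibbs (β : ℝ) : ∃ ν : Measure (Cfg d N), IsGibbs μ β ν := by
  have hp : ∀ Λ : Finset (Lk d), IsProbabilityMeasure (((Measure.pi fun _ => μ).tilted
      fun h => VQ β Λ (glue Λ h 1)).map fun h => glue Λ h (1 : Cfg d N)) := by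
    intro Λ
    exact Measure.isProbabilityMeasure_map (glue_cont' Λ 1).measurable.aemeasurable
  set s : ℕ → ProbabilityMeasure (Cfg d N) := fun R => ⟨_, hp (box d R)⟩ with hs
  obtain ⟨ν, hν⟩ : ∃ ν, MapClusterPt ν atTop s := exists_clusterPt_of_compactSpace _
  refine ⟨ν, inferInstance, fun e f => ?_⟩
  have hc := linkAction_cont (N := N) β e
  set f' : C(Cfg d N, ℝ) := ⟨cond μ (fun g U => Function.update U e g) (linkAction β e) f,
    cond_cont μ (upd_cont e) hc f.continuous⟩ with hf'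
  refine (isClosed_eq (ProbabilityMeasure.continuous_integral_continuousMap f)
    (ProbabilityMeasure.continuous_integral_continuousMap f')).mem_of_mapClusterPt hν ?_
  filter_upwards [tendsto_natCast_atTop_atTop.eventually_ge_atTop ‖e.1‖] with R hR
  have he := mem_box.2 hR
  refine gibbs_of_qi μ e (fun x F => ?_) f
  simp only [hs, ProbabilityMeasure.coe_mk]
  rw [integral_map (glue_cont' _ 1).measurable.aemeasurable
      (Continuous.aestronglyMeasurable (by fun_prop)),
    integral_map (glue_cont' _ 1).measurable.aemeasurable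
      (Continuous.aestronglyMeasurable (by fun_prop))]
  simp only [tilted_eq, mul_assoc, ← Real.exp_add, neg_add_eq_sub]
  rw [← integral_mul_left_eq_self (fun h => F (glue (box d R) h 1) *
    Real.exp (VQ β (box d R) (glue (box d R) h 1) - linkAction β e (glue (box d R) h 1)))
    (Pi.mulSingle ⟨e, he⟩ x)]
  simp only [glue_single, rest_inv β he]

lemma near_gam {β : ℝ} {ν : Measure (Cfg d N)} (hν : IsGibbs μ β ν) (Λ : Finset (Lk d))
    {f : Cfg d N → ℝ} (hf : Continuous f) {ε : ℝ}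
    (h : ∀ η η', |gam μ β Λ f η' - gam μ β Λ f η| ≤ ε) (η : Cfg d N) :
    |gam μ β Λ f η - ∫ U, f U ∂ν| ≤ ε := by
  have := hν.1
  have hc : Continuous (gam μ β Λ f) := cond_cont _ (glue_cont Λ) (VQ_cont β Λ) hf
  have h1 := norm_integral_le_of_norm_le_const (μ := ν) (C := ε)
    (f := fun U => gam μ β Λ f η - gam μ β Λ f U) (Eventually.of_forall fun U => h U η)
  rw [integral_sub (integrable_const _) (cint _ hc), ← dlr_fin μ hν Λ hf] at h1
  simpa using h1

lemma poly_lip (f : C(Cfg d N, ℝ)) (hf : f ∈ (suGrp (Fin N)).P (Lk d)) :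
    ∃ A, ∃ L : ℝ, 0 ≤ L ∧ Lip f A fun _ => L := by
  have mono : ∀ (f : Cfg d N → ℝ) A B (L : ℝ), 0 ≤ L → A ⊆ B → Lip f A (fun _ => L) →
      Lip f B fun _ => L := fun f A B L hL hAB h U V =>
    (h U V).trans (sum_le_sum_of_subset_of_nonneg hAB fun _ _ _ => by positivity)
  induction hf using Algebra.adjoin_induction with
  | mem x hx =>
    obtain ⟨⟨e, M⟩, rfl⟩ := hx
    refine ⟨{e}, √(ip M M), Real.sqrt_nonneg _, fun U V => ?_⟩
    have := ip_abs_le ((U e).1 - (V e).1) M
    rw [ip_sub_left, ip_self, mul_comm] at this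
    rw [sum_singleton]
    exact this
  | algebraMap c => exact ⟨∅, 0, le_rfl, fun U V => by simp⟩
  | add x y hx hy h1 h2 =>
    obtain ⟨A, L, hL, h1⟩ := h1
    obtain ⟨B, L', hL', h2⟩ := h2
    refine ⟨A ∪ B, L + L', by positivity, fun U V => ?_⟩
    have a1 := mono _ _ _ _ hL (subset_union_left (s₂ := B)) h1 U V
    have a2 := mono _ _ _ _ hL' (subset_union_right (s₁ := A)) h2 U V
    simp only [add_mul, sum_add_distrib, ContinuousMap.add_apply]
    rw [add_sub_add_comm]
    exact (abs_add_le _ _).trans (add_le_add a1 a2)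
  | mul x y hx hy h1 h2 =>
    obtain ⟨A, L, hL, h1⟩ := h1
    obtain ⟨B, L', hL', h2⟩ := h2
    refine ⟨A ∪ B, ‖y‖ * L + ‖x‖ * L', by positivity, fun U V => ?_⟩
    have a1 := mono _ _ _ _ hL (subset_union_left (s₂ := B)) h1 U V
    have a2 := mono _ _ _ _ hL' (subset_union_right (s₁ := A)) h2 U V
    simp only [add_mul, sum_add_distrib, ContinuousMap.mul_apply, mul_assoc]
    rw [← mul_sum _ _ ‖y‖, ← mul_sum _ _ ‖x‖,
      show x U * y U - x V * y V = y U * (x U - x V) + x V * (y U - y V) by ring]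
    refine (abs_add_le _ _).trans (add_le_add ?_ ?_) <;> rw [abs_mul]
    · exact mul_le_mul (y.norm_coe_le_norm U) a1 (abs_nonneg _) (norm_nonneg _)
    · exact mul_le_mul (x.norm_coe_le_norm V) a2 (abs_nonneg _) (norm_nonneg _)

lemma gibbs_unique (hd : 2 ≤ d) {β ρ k b : ℝ} (hG : Good d β ρ k b) {ν ν' : Measure (Cfg d N)}
    (hν : IsGibbs μ β ν) (hν' : IsGibbs μ β ν') : ν = ν' := by
  have := hν.1
  have := hν'.1
  have h1 : ∀ f ∈ (suGrp (Fin N)).P (Lk d), ∫ U, f U ∂ν = ∫ U, f U ∂ν' := by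
    intro f hf
    obtain ⟨A, L, -, h⟩ := poly_lip f hf
    refine eq_of_forall_dist_le fun ε hε => ?_
    obtain ⟨R, hR⟩ := osc_small μ hd hG h (half_pos hε)
    have a1 := near_gam μ hν _ f.continuous hR 1
    have a2 := near_gam μ hν' _ f.continuous hR 1
    rw [Real.dist_eq]
    rw [abs_le] at *
    constructor <;> linarith
  refine ext_of_forall_integral_eq_of_IsFiniteMeasure fun f => ?_
  have h2 : f.toContinuousMap ∈ closure ((suGrp (Fin N)).P (Lk d) : Set C(Cfg d N, ℝ)) :=
    ContinuousMap.continuousMap_mem_subalgebra_closure_of_separatesPoints _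
      (suGrp (Fin N)).separates _
  exact closure_minimal h1 (isClosed_eq (cont_int' ν) (cont_int' ν')) h2

lemma gibbs_cov (hd : 2 ≤ d) {β ρ k b : ℝ} (hG : Good d β ρ k b) {ν : Measure (Cfg d N)}
    (hν : IsGibbs μ β ν) {f g : Cfg d N → ℝ} {A B : Finset (Lk d)} {a a' : Lk d → ℝ}
    (hf : Lip f A a) (hg : Lip g B a') {r : ℝ} (hr : ∀ e ∈ A, ∀ e' ∈ B, r ≤ dist e.1 e'.1) :
    |cov[f, g; ν]| ≤ 1 / (N * k) * Real.exp (-(Real.log ρ / 2) * r) * √(∑ e ∈ A, a e ^ 2) *
        √(∑ e ∈ B, a' e ^ 2) := by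
  have := hν.1
  have cf := hf.cont
  have cg := hg.cont
  rw [covariance_eq_sub (cf.memLp_of_hasCompactSupport (HasCompactSupport.of_compactSpace _))
    (cg.memLp_of_hasCompactSupport (HasCompactSupport.of_compactSpace _))]
  obtain ⟨M, M0, hM⟩ : ∃ M : ℝ, 0 < M ∧ ∀ U, |g U| ≤ M :=
    ⟨‖(⟨g, cg⟩ : C(Cfg d N, ℝ))‖ + 1, by positivity, fun U =>
      ((⟨g, cg⟩ : C(Cfg d N, ℝ)).norm_coe_le_norm U).trans (by linarith)⟩
  refine le_of_forall_pos_le_add fun ε hε => ?_
  obtain ⟨R, hR⟩ := osc_small μ hd hG hf (div_pos hε M0)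
  have := box_nonempty hd R
  have c1 : ∀ {f : Cfg d N → ℝ}, Continuous f → Continuous (gam μ β (box d R) f) :=
    fun hf => cond_cont _ (glue_cont _) (VQ_cont β _) hf
  have h2 : ∀ η, |gam μ β (box d R) g η| ≤ M := by
    intro η
    have := norm_integral_le_of_norm_le_const (C := M) (μ := (Measure.pi fun _ => μ).tilted
      fun h => VQ β (box d R) (glue (box d R) h η)) (f := fun h => g (glue (box d R) h η))
      (Eventually.of_forall fun h => hM _)
    rwa [probReal_univ, mul_one] at this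
  rw [dlr_fin μ hν (box d R) (cf.mul cg), dlr_fin μ hν (box d R) cg, ← integral_const_mul,
    ← integral_sub (cint _ (c1 (cf.mul cg))) (cint _ (continuous_const.fun_mul (c1 cg))),
    ← Real.norm_eq_abs]
  refine (norm_integral_le_of_norm_le_const (Eventually.of_forall fun η => ?_)).trans
    (le_of_eq (by rw [probReal_univ, mul_one]))
  have a1 := cov_gam μ hG (box d R) hf hg hr η
  have a2 := mul_le_mul (near_gam μ hν _ cf hR η) (h2 η) (abs_nonneg _) (by positivity)
  rw [div_mul_cancel₀ _ M0.ne', ← abs_mul, sub_mul] at a2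
  have a3 := abs_sub_le (gam μ β (box d R) (fun U => f U * g U) η)
    (gam μ β (box d R) f η * gam μ β (box d R) g η) ((∫ U, f U ∂ν) * gam μ β (box d R) g η)
  exact a3.trans (add_le_add a1 a2)

omit [Nontrivial (Fin N)] [MeasurableSpace (specialUnitaryGroup (Fin N) ℂ)]
  [BorelSpace (specialUnitaryGroup (Fin N) ℂ)] in
theorem main (d : ℕ) (hd : 2 ≤ d) (β : ℝ) (hβ : 64 * ((d : ℝ) - 1) * (d - 2 / 3) * β ^ 2 < 1) :
    ∃ C m : ℝ, 0 < m ∧ ∀ N : ℕ, 2 ≤ N →
      ∀ [MeasurableSpace (specialUnitaryGroup (Fin N) ℂ)]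
        [BorelSpace (specialUnitaryGroup (Fin N) ℂ)]
        (μ : Measure (specialUnitaryGroup (Fin N) ℂ)) [μ.IsHaarMeasure] [IsProbabilityMeasure μ],
        (∃! ν : Measure (Cfg d N), IsGibbs μ β ν) ∧
        ∀ ν : Measure (Cfg d N), IsGibbs μ β ν → ∀ (f g : Cfg d N → ℝ) (A B : Finset (Lk d))
          (a b : Lk d → ℝ) (r : ℝ), Lip f A a → Lip g B b →
          (∀ e ∈ A, ∀ e' ∈ B, r ≤ dist e.1 e'.1) →
          |cov[f, g; ν]| ≤ C / N * Real.exp (-m * r) * √(∑ e ∈ A, a e ^ 2) * √(∑ e ∈ B, b e ^ 2) := by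
  obtain ⟨ρ, k, b, hG⟩ := exists_good hd hβ
  refine ⟨1 / k, Real.log ρ / 2, half_pos (Real.log_pos hG.1), fun N hN _ _ μ _ _ => ?_⟩
  have : Nontrivial (Fin N) := Fin.nontrivial_iff_two_le.2 hN
  obtain ⟨ν, hν⟩ := exists_gibbs (d := d) μ β
  refine ⟨⟨ν, hν, fun ν' h => gibbs_unique μ hd hG h hν⟩, fun ν hν f g A B a a' r hf hg hr => ?_⟩
  rw [div_div, mul_comm k]
  exact gibbs_cov μ hd hG hν hf hg hr

end Pool.Agent.Lib.MP_7f377f_mp.SUN
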