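import Mathlib

set_option autoImplicit false

/-! Hilbert-Schmidt geometry of complex matrices and Parseval frames of matrix Lie algebras. -/

namespace Pool.Agent.Lib.MP_7f377f_mp.SUN

open Finset Matrix Complex

variable {n : Type} [Fintype n] [DecidableEq n]

/-- real Hilbert-Schmidt inner product -/
noncomputable def ip (A B : Matrix n n ℂ) : ℝ := (A * Bᴴ).trace.re

omit [DecidableEq n] in
lemma re_trace_conjTranspose (A : Matrix n n ℂ) : Aᴴ.trace.re = A.trace.re := by
  rw [trace_conjTranspose]; simp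

omit [DecidableEq n] in
lemma ip_comm (A B : Matrix n n ℂ) : ip A B = ip B A := by
  unfold ip
  rw [← re_trace_conjTranspose, conjTranspose_mul, conjTranspose_conjTranspose]

omit [DecidableEq n] in
lemma ip_add_left (A B C : Matrix n n ℂ) : ip (A + B) C = ip A C + ip B C := by
  simp [ip, add_mul]

omit [DecidableEq n] in
lemma ip_add_right (A B C : Matrix n n ℂ) : ip A (B + C) = ip A B + ip A C := by
  simp [ip, mul_add]

omit [DecidableEq n] in
lemma ip_sub_left (A B C : Matrix n n ℂ) : ip (A - B) C = ip A C - ip B C := by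
  simp [ip, sub_mul]

omit [DecidableEq n] in
lemma ip_sub_right (A B C : Matrix n n ℂ) : ip A (B - C) = ip A B - ip A C := by
  simp [ip, mul_sub]

omit [DecidableEq n] in
lemma ip_neg_left (A C : Matrix n n ℂ) : ip (-A) C = -ip A C := by simp [ip]

omit [DecidableEq n] in
lemma ip_neg_right (A C : Matrix n n ℂ) : ip A (-C) = -ip A C := by simp [ip]

omit [DecidableEq n] in
lemma ip_smul_left (c : ℝ) (A C : Matrix n n ℂ) : ip (c • A) C = c * ip A C := by
  simp [ip]

omit [DecidableEq n] in
lemma ip_smul_right (c : ℝ) (A C : Matrix n n ℂ) : ip A (c • C) = c * ip A C := by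
  rw [ip_comm, ip_smul_left, ip_comm]

omit [DecidableEq n] in
lemma ip_zero_left (C : Matrix n n ℂ) : ip 0 C = 0 := by simp [ip]

omit [DecidableEq n] in
lemma ip_zero_right (C : Matrix n n ℂ) : ip C 0 = 0 := by simp [ip]

omit [DecidableEq n] in
lemma ip_sum_left {ι : Type*} (s : Finset ι) (A : ι → Matrix n n ℂ) (C : Matrix n n ℂ) :
    ip (∑ a ∈ s, A a) C = ∑ a ∈ s, ip (A a) C := by
  simp [ip, Finset.sum_mul, trace_sum]

omit [DecidableEq n] in
lemma ip_sum_right {ι : Type*} (s : Finset ι) (A : ι → Matrix n n ℂ) (C : Matrix n n ℂ) :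
    ip C (∑ a ∈ s, A a) = ∑ a ∈ s, ip C (A a) := by
  rw [ip_comm, ip_sum_left]; simp only [ip_comm C]

omit [DecidableEq n] in
lemma ip_mul_left (X A B : Matrix n n ℂ) : ip (X * A) B = ip A (Xᴴ * B) := by
  unfold ip
  rw [conjTranspose_mul, conjTranspose_conjTranspose, mul_assoc, trace_mul_comm, mul_assoc]

omit [DecidableEq n] in
lemma ip_mul_right (X A B : Matrix n n ℂ) : ip (A * X) B = ip A (B * Xᴴ) := by
  unfold ip
  rw [conjTranspose_mul, conjTranspose_conjTranspose, mul_assoc]

omit [DecidableEq n] in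
lemma ip_conjTranspose (A B : Matrix n n ℂ) : ip Aᴴ Bᴴ = ip A B := by
  unfold ip
  rw [← re_trace_conjTranspose, conjTranspose_mul, conjTranspose_conjTranspose,
    conjTranspose_conjTranspose, trace_mul_comm]

omit [DecidableEq n] in
lemma ip_self (A : Matrix n n ℂ) : ip A A = ∑ i, ∑ j, ‖A i j‖ ^ 2 := by
  unfold ip
  simp only [trace, Matrix.diag, mul_apply, conjTranspose_apply, re_sum]
  refine sum_congr rfl fun i _ => sum_congr rfl fun j _ => ?_
  rw [Complex.star_def, Complex.mul_conj, Complex.normSq_eq_norm_sq]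
  norm_cast

omit [DecidableEq n] in
lemma ip_self_nonneg (A : Matrix n n ℂ) : 0 ≤ ip A A := by
  rw [ip_self]; positivity

omit [DecidableEq n] in
lemma ip_young (A B : Matrix n n ℂ) (t : ℝ) (ht : 0 < t) :
    |ip A B| ≤ t / 2 * ip A A + 1 / (2 * t) * ip B B := by
  have key : ∀ B, ip A B ≤ t / 2 * ip A A + 1 / (2 * t) * ip B B := by
    intro B
    have := ip_self_nonneg (t • A - B)
    simp only [ip_sub_left, ip_sub_right, ip_smul_left, ip_smul_right] at this
    rw [ip_comm B A] at this
    have h2 : t / 2 * ip A A + 1 / (2 * t) * ip B B - ip A B =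
      (t * (t * ip A A) - t * ip A B - (t * ip A B - ip B B)) / (2 * t) := by
      field_simp; ring
    have : 0 ≤ (t * (t * ip A A) - t * ip A B - (t * ip A B - ip B B)) / (2 * t) :=
      div_nonneg (by linarith) (by positivity)
    linarith
  rw [abs_le]
  have := key (-B)
  rw [ip_neg_right, ip_neg_left, ip_neg_right, neg_neg] at this
  exact ⟨by linarith, key B⟩

lemma ip_uni_left {U : Matrix n n ℂ} (hU : U ∈ unitary (Matrix n n ℂ)) (A B : Matrix n n ℂ) :
    ip (U * A) (U * B) = ip A B := by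
  rw [ip_mul_left, ← mul_assoc, ← star_eq_conjTranspose, Unitary.star_mul_self_of_mem hU, one_mul]

lemma ip_uni_right {U : Matrix n n ℂ} (hU : U ∈ unitary (Matrix n n ℂ)) (A B : Matrix n n ℂ) :
    ip (A * U) (B * U) = ip A B := by
  rw [ip_mul_right, mul_assoc, ← star_eq_conjTranspose, Unitary.mul_star_self_of_mem hU, mul_one]

lemma ip_uni_self {U : Matrix n n ℂ} (hU : U ∈ unitary (Matrix n n ℂ)) :
    ip U U = Fintype.card n := by
  unfold ip
  rw [← star_eq_conjTranspose, Unitary.mul_star_self_of_mem hU]; simp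

/-- A Parseval frame of a Lie algebra of skew-Hermitian matrices, with its constants. -/
structure Frame (n : Type) [Fintype n] [DecidableEq n] (ι : Type) [Fintype ι] where
  g : Submodule ℝ (Matrix n n ℂ)
  T : ι → Matrix n n ℂ
  lam : ℝ
  ric : ℝ
  skew : ∀ X ∈ g, Xᴴ = -X
  mem : ∀ a, T a ∈ g
  pars : ∀ X ∈ g, ∑ a, ip X (T a) • T a = X
  lie : ∀ X ∈ g, ∀ Y ∈ g, X * Y - Y * X ∈ g
  cas : ∑ a, T a * T a = -(lam • (1 : Matrix n n ℂ))
  ricci : ∀ X ∈ g, 4 * ric * ip X X ≤ ∑ a, ip (X * T a - T a * X) (X * T a - T a * X)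
  four : ∀ P Q : Matrix n n ℂ, ∑ a, ip (P * T a * Q) (P * T a * Q) ≤ ip P P * ip Q Q

namespace Frame
variable {ι : Type} [Fintype ι] (F : Frame n ι)

/-- orthogonal projection onto the Lie algebra -/
noncomputable def pr (A : Matrix n n ℂ) : Matrix n n ℂ := ∑ a, ip (F.T a) A • F.T a

lemma pr_mem (A : Matrix n n ℂ) : F.pr A ∈ F.g :=
  F.g.sum_mem fun a _ => F.g.smul_mem _ (F.mem a)

lemma ip_pars {X : Matrix n n ℂ} (hX : X ∈ F.g) (A : Matrix n n ℂ) :
    ∑ a, ip X (F.T a) * ip (F.T a) A = ip X A := by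
  conv_rhs => rw [← F.pars X hX, ip_sum_left]
  simp only [ip_smul_left]

lemma bessel (A : Matrix n n ℂ) : ∑ a, ip (F.T a) A ^ 2 ≤ ip A A := by
  have h1 : ip (F.pr A) A = ∑ a, ip (F.T a) A ^ 2 := by
    rw [pr, ip_sum_left]; simp only [ip_smul_left, sq]
  have h2 : ip (F.pr A) (F.pr A) = ip (F.pr A) A := by
    rw [← F.ip_pars (F.pr_mem A) A]
    nth_rewrite 2 [pr]
    rw [ip_sum_right]
    simp only [ip_smul_right]
    exact sum_congr rfl fun a _ => mul_comm _ _
  have h3 := ip_self_nonneg (A - F.pr A)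
  rw [ip_sub_left, ip_sub_right, ip_sub_right, h2, ip_comm A (F.pr A)] at h3
  linarith

lemma tri_first {P S : Matrix n n ℂ} (hP : P ∈ unitary (Matrix n n ℂ))
    {Q : Matrix n n ℂ} (hQ : Q ∈ unitary (Matrix n n ℂ)) (hS : S ∈ unitary (Matrix n n ℂ))
    (B : Matrix n n ℂ) :
    ∑ a, ∑ c, (F.T c * P * F.T a * Q * B * S).trace.re ^ 2 ≤ Fintype.card n * ip B B := by
  have h1 : ∀ a, ∑ c, (F.T c * P * F.T a * Q * B * S).trace.re ^ 2 ≤
      ip (P * F.T a * (Q * B * S)) (P * F.T a * (Q * B * S)) := by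
    intro a
    rw [← ip_conjTranspose]
    refine le_trans (le_of_eq ?_) (F.bessel _)
    refine sum_congr rfl fun c _ => ?_
    rw [ip, conjTranspose_conjTranspose]
    simp only [mul_assoc]
  refine (sum_le_sum fun a _ => h1 a).trans ((F.four _ _).trans (le_of_eq ?_))
  rw [ip_uni_self hP, ip_uni_right hS, ip_uni_left hQ]

lemma tri_second {P S : Matrix n n ℂ} (hP : P ∈ unitary (Matrix n n ℂ))
    {Q : Matrix n n ℂ} (hQ : Q ∈ unitary (Matrix n n ℂ)) (hS : S ∈ unitary (Matrix n n ℂ))
    (A : Matrix n n ℂ) :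
    ∑ a, ∑ c, (F.T c * P * A * Q * F.T a * S).trace.re ^ 2 ≤ Fintype.card n * ip A A := by
  have h1 : ∀ a, ∑ c, (F.T c * P * A * Q * F.T a * S).trace.re ^ 2 ≤
      ip ((P * A * Q) * F.T a * S) ((P * A * Q) * F.T a * S) := by
    intro a
    rw [← ip_conjTranspose]
    refine le_trans (le_of_eq ?_) (F.bessel _)
    refine sum_congr rfl fun c _ => ?_
    rw [ip, conjTranspose_conjTranspose]
    simp only [mul_assoc]
  refine (sum_le_sum fun a _ => h1 a).trans ((F.four _ _).trans (le_of_eq ?_))
  rw [ip_uni_self hS, ip_uni_right hQ, ip_uni_left hP, mul_comm]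

end Frame

lemma tri_op {P S : Matrix n n ℂ} (hP : P ∈ unitary (Matrix n n ℂ))
    {Q : Matrix n n ℂ} (hQ : Q ∈ unitary (Matrix n n ℂ)) (hS : S ∈ unitary (Matrix n n ℂ))
    {κ : ℝ} (hκ : 0 < κ) {Z : Matrix n n ℂ} (hZ : ∀ Y, ip (Z * Y) (Z * Y) ≤ κ ^ 2 * ip Y Y)
    (A B : Matrix n n ℂ) :
    |(Z * P * A * Q * B * S).trace.re| ≤ κ / 2 * (ip A A + ip B B) := by
  have h1 : (Z * P * A * Q * B * S).trace.re = ip (Z * (P * A)) (Q * B * S)ᴴ := by
    rw [ip, conjTranspose_conjTranspose]; simp only [mul_assoc]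
  rw [h1]
  refine (ip_young _ _ (1 / κ) (by positivity)).trans ?_
  rw [ip_conjTranspose, ip_uni_right hS, ip_uni_left hQ]
  have h2 := hZ (P * A)
  rw [ip_uni_left hP] at h2
  have h3 : 1 / κ / 2 * ip (Z * (P * A)) (Z * (P * A)) ≤ 1 / κ / 2 * (κ ^ 2 * ip A A) :=
    mul_le_mul_of_nonneg_left h2 (by positivity)
  have e1 : 1 / κ / 2 * (κ ^ 2 * ip A A) = κ / 2 * ip A A := by field_simp
  have e2 : 1 / (2 * (1 / κ)) = κ / 2 := by field_simp
  rw [e2]
  linarith

/-! ### The frame of `su(N)` -/

/-- the Lie algebra `su(N)` -/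
def su (n : Type) [Fintype n] : Submodule ℝ (Matrix n n ℂ) where
  carrier := {X | Xᴴ = -X ∧ X.trace = 0}
  add_mem' := by
    rintro a b ⟨h1, h2⟩ ⟨h3, h4⟩
    exact ⟨by rw [conjTranspose_add, h1, h3, neg_add], by rw [trace_add, h2, h4, add_zero]⟩
  zero_mem' := ⟨by simp, by simp⟩
  smul_mem' := by
    rintro c a ⟨h1, h2⟩
    exact ⟨by rw [conjTranspose_smul, h1]; simp, by rw [trace_smul, h2, smul_zero]⟩

/-- the orthogonal projection onto `su(N)` -/
noncomputable def proj (A : Matrix n n ℂ) : Matrix n n ℂ :=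
  (1 / 2 : ℝ) • (A - Aᴴ) - (((A.trace.im / Fintype.card n : ℝ) : ℂ) * I) • (1 : Matrix n n ℂ)

/-- the standard real orthonormal basis of the complex matrices -/
noncomputable def base (a : n × n × Bool) : Matrix n n ℂ :=
  single a.1 a.2.1 (if a.2.2 then I else 1)

lemma ip_single (A : Matrix n n ℂ) (i j : n) (c : ℂ) :
    ip A (single i j c) = (A i j * star c).re := by
  unfold ip
  rw [conjTranspose_single, trace_mul_single]
  simp

lemma base_pars (A : Matrix n n ℂ) : ∑ a, ip A (base a) • base a = A := by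
  ext k l
  rw [Fintype.sum_prod_type, Matrix.sum_apply, sum_eq_single k]
  · rw [Fintype.sum_prod_type, Matrix.sum_apply, sum_eq_single l]
    · simp [base, ip_single]
      apply Complex.ext <;> simp
    · intro j _ hj
      simp [base, Matrix.sum_apply, hj]
    · simp
  · intro i _ hi
    simp [base, Matrix.sum_apply, hi]
  · simp

lemma proj_mem [Nonempty n] (A : Matrix n n ℂ) : proj A ∈ su n := by
  have hN : (Fintype.card n : ℂ) ≠ 0 := by exact_mod_cast Fintype.card_ne_zero
  constructor
  · unfold proj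
    rw [conjTranspose_sub, conjTranspose_smul, conjTranspose_smul, conjTranspose_sub,
      conjTranspose_conjTranspose, conjTranspose_one]
    simp only [star_trivial, star_mul', Complex.star_def, conj_ofReal, conj_I, mul_neg, neg_smul]
    module
  · unfold proj
    rw [trace_sub, trace_smul, trace_smul, trace_sub, trace_conjTranspose, trace_one]
    push_cast
    simp only [smul_eq_mul, real_smul]
    rw [Complex.star_def, Complex.sub_conj]
    push_cast
    field_simp
    ring

lemma proj_of_skew {X : Matrix n n ℂ} (h : Xᴴ = -X) :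
    proj X = X - (X.trace / Fintype.card n) • (1 : Matrix n n ℂ) := by
  have h1 : X.trace.re = 0 := by
    have := re_trace_conjTranspose X
    rw [h, trace_neg, neg_re] at this
    linarith
  have h2 : X.trace = X.trace.im * I := by
    apply Complex.ext <;> simp [h1]
  unfold proj
  rw [h]
  congr 1
  · module
  · congr 1
    conv_rhs => rw [h2]
    push_cast
    ring

lemma proj_of_mem {X : Matrix n n ℂ} (h : X ∈ su n) : proj X = X := by
  rw [proj_of_skew h.1, h.2]; simp

lemma ip_proj {X : Matrix n n ℂ} (h : X ∈ su n) (B : Matrix n n ℂ) : ip X (proj B) = ip X B := by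
  unfold proj
  rw [ip_sub_right, ip_smul_right, ip_sub_right]
  have h1 : ip X Bᴴ = -ip X B := by
    rw [← ip_conjTranspose, conjTranspose_conjTranspose, h.1, ip_neg_left]
  have h2 : ∀ c : ℂ, ip X (c • (1 : Matrix n n ℂ)) = 0 := by
    intro c
    simp [ip, h.2]
  rw [h1, h2]; ring

lemma proj_add (A B : Matrix n n ℂ) : proj (A + B) = proj A + proj B := by
  unfold proj
  rw [conjTranspose_add, trace_add, add_im, add_div]
  push_cast
  module

lemma proj_smul (c : ℝ) (A : Matrix n n ℂ) : proj (c • A) = c • proj A := by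
  unfold proj
  rw [conjTranspose_smul, trace_smul, star_trivial, smul_sub c, ← smul_assoc c _ (1 : Matrix n n ℂ)]
  congr 1
  · module
  · congr 1
    simp only [real_smul, im_ofReal_mul]
    push_cast
    ring

lemma proj_sum {ι : Type*} (s : Finset ι) (A : ι → Matrix n n ℂ) :
    proj (∑ a ∈ s, A a) = ∑ a ∈ s, proj (A a) := by
  classical
  induction s using Finset.induction_on with
  | empty => simp [proj]
  | insert a s ha ih => rw [sum_insert ha, sum_insert ha, proj_add, ih]

/-- the frame vectors -/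
noncomputable def suT (a : n × n × Bool) : Matrix n n ℂ := proj (base a)

lemma suT_pr [Nonempty n] (A : Matrix n n ℂ) : ∑ a, ip (suT a) A • suT a = proj A := by
  have h : ∀ a, ip (suT a) A = ip (proj A) (base a) := by
    intro a
    rw [suT, ← ip_proj (proj_mem _) A, ip_comm, ip_proj (proj_mem _)]
  simp only [h]
  unfold suT
  simp only [← proj_smul]
  rw [← proj_sum, base_pars, proj_of_mem (proj_mem _)]

lemma suT_complete [Nonempty n] (A : Matrix n n ℂ) :
    ∑ a, (suT a * A).trace • suT a = -A + (A.trace / Fintype.card n) • (1 : Matrix n n ℂ) := by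
  have skew : ∀ X : Matrix n n ℂ, Xᴴ = -X →
      ∑ a, (suT a * X).trace • suT a = -X + (X.trace / Fintype.card n) • (1 : Matrix n n ℂ) := by
    intro X hX
    have h1 : ∀ a, (suT a * X).trace = ((-ip (suT a) X : ℝ) : ℂ) := by
      intro a
      have h2 : star (suT a * X).trace = (suT a * X).trace := by
        rw [← trace_conjTranspose, conjTranspose_mul, hX, show (suT a)ᴴ = -suT a from
          (proj_mem _).1, neg_mul_neg, trace_mul_comm]
      apply Complex.ext
      · simp [ip, hX]
      · rw [ofReal_im]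
        exact Complex.conj_eq_iff_im.1 h2
    simp only [h1, Complex.coe_smul, neg_smul, sum_neg_distrib]
    rw [suT_pr, proj_of_skew hX]
    abel
  have e1 := skew ((1 / 2 : ℂ) • (A - Aᴴ)) (by
    rw [conjTranspose_smul, conjTranspose_sub, conjTranspose_conjTranspose]
    simp only [one_div, star_inv₀, star_ofNat]
    module)
  have e2 := skew ((-I / 2 : ℂ) • (A + Aᴴ)) (by
    rw [conjTranspose_smul, conjTranspose_add, conjTranspose_conjTranspose]
    simp only [star_div₀, star_neg, star_ofNat, Complex.star_def, conj_I]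
    module)
  have e3 : A = (1 / 2 : ℂ) • (A - Aᴴ) + I • ((-I / 2 : ℂ) • (A + Aᴴ)) := by
    rw [smul_smul, show I * (-I / 2) = 1 / 2 by
      rw [mul_div_assoc', mul_neg, I_mul_I]; norm_num]
    module
  set X := (1 / 2 : ℂ) • (A - Aᴴ)
  set Y := (-I / 2 : ℂ) • (A + Aᴴ)
  rw [e3]
  simp only [mul_add, mul_smul_comm, trace_add, trace_smul, add_smul, sum_add_distrib,
    ← smul_sum, e1, e2, add_div, smul_eq_mul, mul_div_assoc, mul_smul]
  module

lemma suT_entry [Nonempty n] (p r s q : n) :
    ∑ a, suT a p r * suT a s q = -(if r = s ∧ p = q then 1 else 0) +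
      (if r = p ∧ s = q then 1 else 0) / (Fintype.card n : ℂ) := by
  have h := congrFun (congrFun (suT_complete (single r p (1 : ℂ))) s) q
  simp only [trace_mul_single, Matrix.sum_apply, Matrix.smul_apply, smul_eq_mul, Matrix.add_apply,
    Matrix.neg_apply, op_smul_eq_mul, mul_one] at h
  rw [h, single_apply, one_apply]
  by_cases h1 : r = p
  · subst h1
    by_cases h2 : s = q <;> simp [h2]
  · simp [h1, trace_single_eq_of_ne _ _ _ h1]

lemma suT_sandwich [Nonempty n] (A : Matrix n n ℂ) :
    ∑ a, suT a * A * suT a = -(A.trace • (1 : Matrix n n ℂ)) + ((Fintype.card n : ℂ)⁻¹) • A := by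
  ext p q
  simp only [Matrix.sum_apply, mul_apply, sum_mul]
  have : ∑ a : n × n × Bool, ∑ s, ∑ r, suT a p r * A r s * suT a s q =
      ∑ s, ∑ r, A r s * ∑ a : n × n × Bool, suT a p r * suT a s q := by
    rw [sum_comm]
    refine sum_congr rfl fun s _ => ?_
    rw [sum_comm]
    refine sum_congr rfl fun r _ => ?_
    rw [mul_sum]
    exact sum_congr rfl fun a _ => by ring
  rw [this]
  simp only [suT_entry, mul_add, sum_add_distrib, Matrix.add_apply, Matrix.neg_apply,
    Matrix.smul_apply, smul_eq_mul, one_apply]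
  congr 1
  · by_cases h : p = q <;> simp [h, trace]
  · simp [ite_and, div_eq_mul_inv, mul_comm]

/-- the Parseval frame of `su(N)` -/
noncomputable def suFrame (n : Type) [Fintype n] [DecidableEq n] [Nonempty n] :
    Frame n (n × n × Bool) where
  g := su n
  T := suT
  lam := Fintype.card n - (Fintype.card n : ℝ)⁻¹
  ric := Fintype.card n / 2
  skew := fun _ h => h.1
  mem := fun _ => proj_mem _
  pars := fun X hX => by
    simp only [ip_comm X]
    rw [suT_pr, proj_of_mem hX]
  lie := fun X hX Y hY => ⟨by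
    rw [conjTranspose_sub, conjTranspose_mul, conjTranspose_mul, hX.1, hY.1]; simp,
    by rw [trace_sub, trace_mul_comm, sub_self]⟩
  cas := by
    have := suT_sandwich (1 : Matrix n n ℂ)
    simp only [mul_one, trace_one] at this
    rw [this, ← Complex.coe_smul]
    push_cast
    module
  ricci := fun X hX => by
    have hN : (Fintype.card n : ℂ) ≠ 0 := by exact_mod_cast Fintype.card_ne_zero
    have h1 := suT_sandwich (1 : Matrix n n ℂ)
    have h2 := suT_sandwich X
    simp only [mul_one, trace_one] at h1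
    rw [hX.2] at h2
    have h3 : ∀ a, ip (X * suT a - suT a * X) (X * suT a - suT a * X) =
        ((2 : ℂ) * (X * X * (suT a * suT a)).trace -
          (2 : ℂ) * (X * (suT a * X * suT a)).trace).re := by
      intro a
      have hT : (suT a)ᴴ = -suT a := (proj_mem _).1
      unfold ip
      congr 1
      rw [conjTranspose_sub, conjTranspose_mul, conjTranspose_mul, hX.1, hT]
      simp only [neg_mul_neg, mul_sub, sub_mul, trace_sub]
      have a1 := trace_mul_comm (X * suT a * suT a) X
      have a2 := trace_mul_comm (suT a) (X * X * suT a)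
      have a3 := trace_mul_comm (suT a) (X * suT a * X)
      have a4 := trace_mul_comm (X * suT a * X) (suT a)
      simp only [mul_assoc] at *
      rw [a1, a2, a3]
      ring
    simp only [h3]
    rw [← re_sum, sum_sub_distrib, ← mul_sum, ← mul_sum, ← trace_sum, ← trace_sum, ← mul_sum,
      ← mul_sum, h1, h2]
    have h4 : ip X X = -(X * X).trace.re := by simp [ip, hX.1]
    have h5 : 2 * (X * X * (-((Fintype.card n : ℂ) • 1) + ((Fintype.card n : ℂ)⁻¹) • 1)).trace -
        2 * (X * (-((0 : ℂ) • 1) + ((Fintype.card n : ℂ)⁻¹) • X)).trace =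
        ((-2 * Fintype.card n : ℝ) : ℂ) * (X * X).trace := by
      simp only [mul_add, mul_neg, mul_smul_comm, mul_one, trace_add, trace_neg, trace_smul,
        smul_eq_mul, zero_smul]
      push_cast
      simp
      ring
    rw [h5, h4, re_ofReal_mul]
    linarith
  four := fun P Q => by
    have h2 := suT_sandwich (Q * Qᴴ)
    have h3 : ∀ a, ip (P * suT a * Q) (P * suT a * Q) =
        (-(Pᴴ * P * (suT a * (Q * Qᴴ) * suT a)).trace).re := by
      intro a
      have hT : (suT a)ᴴ = -suT a := (proj_mem _).1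
      unfold ip
      congr 1
      rw [conjTranspose_mul, conjTranspose_mul, hT]
      have a1 := trace_mul_comm (P * suT a * Q * Qᴴ * suT a) Pᴴ
      simp only [mul_assoc, mul_neg, neg_mul, trace_neg] at *
      rw [a1]
    simp only [h3]
    rw [← re_sum, sum_neg_distrib, ← trace_sum, ← mul_sum, h2]
    have r1 : (Q * Qᴴ).trace = (ip Q Q : ℂ) := by
      apply Complex.ext
      · simp [ip]
      · rw [ofReal_im]
        refine Complex.conj_eq_iff_im.1 ?_
        rw [← Complex.star_def, ← trace_conjTranspose, conjTranspose_mul,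
          conjTranspose_conjTranspose]
    have r2 : (Pᴴ * P).trace.re = ip P P := by rw [trace_mul_comm]; rfl
    have r3 : (Pᴴ * P * (Q * Qᴴ)).trace.re = ip (P * Q) (P * Q) := by
      unfold ip
      have a1 := trace_mul_comm Pᴴ (P * Q * Qᴴ)
      rw [conjTranspose_mul]
      simp only [mul_assoc] at *
      rw [a1]
    have r4 := ip_self_nonneg (P * Q)
    have e : ((Fintype.card n : ℂ)⁻¹) = (((Fintype.card n : ℝ)⁻¹ : ℝ) : ℂ) := by push_cast; rfl
    rw [r1, e]
    simp only [mul_add, mul_neg, mul_smul_comm, mul_one, trace_add, trace_neg, trace_smul,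
      smul_eq_mul, neg_add, neg_neg, add_re, neg_re, re_ofReal_mul, r2, r3]
    have : 0 ≤ (Fintype.card n : ℝ)⁻¹ * ip (P * Q) (P * Q) := by positivity
    linarith

end Pool.Agent.Lib.MP_7f377f_mp.SUN
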