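import Pool.Agent.Lib.MP_7f377f_mp.SUNFin

set_option autoImplicit false
set_option linter.unusedSectionVars false

/-! Loss of memory of boundary conditions. -/

namespace Pool.Agent.Lib.MP_7f377f_mp.SUN

open Finset Matrix MeasureTheory Filter Topology

variable {d N : ℕ}

lemma Lip.ip {f : Cfg d N → ℝ} {A : Finset (Lk d)} {a : Lk d → ℝ} (h : Lip f A a) (U V : Cfg d N) :
    |f U - f V| ≤ ∑ e ∈ A, a e * √(ip ((U e).1 - (V e).1) ((U e).1 - (V e).1)) := by
  simp only [ip_self]; exact h U V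

lemma Lip.cont {f : Cfg d N → ℝ} {A : Finset (Lk d)} {a : Lk d → ℝ} (h : Lip f A a) :
    Continuous f := by
  refine continuous_iff_continuousAt.2 fun V => ?_
  rw [ContinuousAt, tendsto_iff_norm_sub_tendsto_zero]
  refine squeeze_zero (fun _ => norm_nonneg _) (fun U => h.ip U V) ?_
  have : Continuous fun U : Cfg d N =>
      ∑ e ∈ A, a e * √(SUN.ip ((U e).1 - (V e).1) ((U e).1 - (V e).1)) := by
    refine continuous_finsetSum _ fun e _ => continuous_const.mul (Continuous.sqrt ?_)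
    have : Continuous fun U : Cfg d N => (U e).1 - (V e).1 :=
      (continuous_subtype_val.comp (continuous_apply e)).sub continuous_const
    exact continuous_ip this this
  simpa [ip_zero_left] using this.tendsto V

lemma Lip.congr {f : Cfg d N → ℝ} {A : Finset (Lk d)} {a : Lk d → ℝ} (h : Lip f A a)
    {U V : Cfg d N} (hUV : ∀ e ∈ A, U e = V e) : f U = f V := by
  have := h.ip U V
  rw [sum_eq_zero fun e he => by simp [hUV e he, ip_zero_left]] at this
  exact sub_eq_zero.1 (abs_nonpos_iff.1 this)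

lemma sum_ite_sq_le (Λ A : Finset (Lk d)) (a : Lk d → ℝ) :
    ∑ e : Λ, (if e.1 ∈ A then a e.1 else 0) ^ 2 ≤ ∑ e ∈ A, a e ^ 2 := by
  rw [sum_coe_sort Λ fun e => (if e ∈ A then a e else 0) ^ 2]
  simp only [ite_pow, ne_eq, OfNat.ofNat_ne_zero, not_false_eq_true, zero_pow, sum_ite_mem]
  exact sum_le_sum_of_subset_of_nonneg inter_subset_right fun _ _ _ => sq_nonneg _

variable [Nontrivial (Fin N)]

lemma Lip.lipL {f : Cfg d N → ℝ} {A : Finset (Lk d)} {a : Lk d → ℝ} (h : Lip f A a)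
    (Λ : Finset (Lk d)) (η : Cfg d N) :
    (suGrp (Fin N)).LipL (fun U => f (glue Λ U η)) fun e => if e.1 ∈ A then a e.1 else 0 := by
  intro e x U
  simp only [glue_single]
  refine (h.ip _ _).trans (le_of_eq ?_)
  rw [ite_mul, zero_mul, ← sum_ite_eq A e.1
    fun k => a k * √(SUN.ip ((suGrp (Fin N)).r x - 1) ((suGrp (Fin N)).r x - 1))]
  refine sum_congr rfl fun k _ => ?_
  split_ifs with hk
  · subst hk
    rw [Pi.mul_apply, Pi.mulSingle_eq_same, Submonoid.coe_mul, ← sub_one_mul,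
      ip_uni_right (glue Λ U η e).2.1]
    rfl
  · simp [Pi.mulSingle_eq_of_ne (Ne.symm hk), ip_zero_left]

lemma VQ_lip (β : ℝ) (Λ : Finset (Lk d)) (e : Lk d) (x : specialUnitaryGroup (Fin N) ℂ)
    (U : Cfg d N) : |VQ β Λ (Pi.mulSingle e x * U) - VQ β Λ U| ≤
      N * |β| * (2 * ((d : ℝ) - 1) * √N) * √(ip (x.1 - 1) (x.1 - 1)) := by
  rw [VQ, VQ, ← mul_sub, ← sum_sub_distrib, abs_mul, abs_mul, Nat.abs_cast, mul_assoc (N * |β|)]
  refine mul_le_mul_of_nonneg_left ((abs_sum_le_sum_abs _ _).trans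
    ((sum_le_sum fun p hp => pq_lip (QQ_lt hp) e x U).trans ?_)) (by positivity)
  rw [sum_ite_mem, sum_const, nsmul_eq_mul, mul_assoc _ √N]
  refine mul_le_mul_of_nonneg_right (le_trans ?_ (card_star1 e)) (by positivity)
  exact_mod_cast card_le_card inter_subset_right

lemma VQ_lipL (β : ℝ) (R : ℕ) (η η' : Cfg d N) : (suGrp (Fin N)).LipL
    (fun U => VQ β (box d R) (glue (box d R) U η') - VQ β (box d R) (glue (box d R) U η))
    fun e => if ‖e.1.1‖ ≤ R - 1 then 0 else 2 * (N * |β| * (2 * ((d : ℝ) - 1) * √N)) := by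
  intro e x U
  simp only
  split_ifs with h
  · rw [zero_mul, abs_nonpos_iff]
    simp only [VQ, ← mul_sub, ← sum_sub_distrib]
    rw [sum_eq_zero, mul_zero]
    intro p hp
    by_cases hp' : p ∈ star1 e.1
    · have key : ∀ V, pq p (glue (box d R) V η') = pq p (glue (box d R) V η) := by
        intro V
        refine pq_congr p fun l => ?_
        obtain ⟨l0, hl0⟩ := (mem_star1.1 hp').2
        have h1 := links_dist p l l0
        rw [hl0, dist_eq_norm] at h1
        have h2 : links p l ∈ box d R := by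
          rw [mem_box]
          linarith [norm_sub_norm_le (links p l).1 e.1.1]
        simp [glue, h2]
      simp [key]
    · have h1 := pq_lip (QQ_lt hp) e.1 x (glue (box d R) U η)
      have h2 := pq_lip (QQ_lt hp) e.1 x (glue (box d R) U η')
      rw [if_neg hp', abs_nonpos_iff] at h1 h2
      simp only [glue_single]
      linarith
  · have h1 := VQ_lip β (box d R) e.1 x (glue (box d R) U η)
    have h2 := VQ_lip β (box d R) e.1 x (glue (box d R) U η')
    simp only [glue_single]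
    change _ ≤ _ * √(ip (x.1 - 1) (x.1 - 1))
    rw [abs_le] at *
    constructor <;> linarith

variable [MeasurableSpace (specialUnitaryGroup (Fin N) ℂ)]
  [BorelSpace (specialUnitaryGroup (Fin N) ℂ)] (μ : Measure (specialUnitaryGroup (Fin N) ℂ))
  [μ.IsHaarMeasure] [IsProbabilityMeasure μ]

/-- finite volume expectation with boundary condition -/
noncomputable def gam (β : ℝ) (Λ : Finset (Lk d)) (f : Cfg d N → ℝ) : Cfg d N → ℝ :=
  cond (Measure.pi fun _ => μ) (glue Λ) (VQ β Λ) f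

lemma cov_gam {β ρ k b : ℝ} (hG : Good d β ρ k b) (Λ : Finset (Lk d)) [Nonempty Λ]
    {f g : Cfg d N → ℝ} {A B : Finset (Lk d)} {a a' : Lk d → ℝ} (hf : Lip f A a) (hg : Lip g B a')
    {r : ℝ} (hr : ∀ e ∈ A, ∀ e' ∈ B, r ≤ dist e.1 e'.1) (η : Cfg d N) :
    |gam μ β Λ (fun U => f U * g U) η - gam μ β Λ f η * gam μ β Λ g η| ≤
      1 / (N * k) * Real.exp (-(Real.log ρ / 2) * r) * √(∑ e ∈ A, a e ^ 2) *
        √(∑ e ∈ B, a' e ^ 2) := by
  have hk := hG.2.1
  have := cov_fin μ hG Λ η η (s := 0) (by simp) ⟨_, hf.cont.comp (glue_cont' Λ η)⟩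
    ⟨_, hg.cont.comp (glue_cont' Λ η)⟩ (hf.lipL Λ η) (hg.lipL Λ η) (r := r)
    (fun e e' h h' => hr _ (by by_contra hc; simp [hc] at h) _ (by by_contra hc; simp [hc] at h'))
    (ν := (Measure.pi fun _ => μ).tilted fun U => VQ β Λ (glue Λ U η)) (by simp)
  refine this.trans ?_
  gcongr
  exacts [sum_ite_sq_le _ _ _, sum_ite_sq_le _ _ _]

lemma box_nonempty (hd : 2 ≤ d) (R : ℕ) : Nonempty (box d R) :=
  ⟨⟨(0, ⟨0, by omega⟩), mem_box.2 (by simp)⟩⟩

lemma osc_small (hd : 2 ≤ d) {β ρ k b : ℝ} (hG : Good d β ρ k b) {f : Cfg d N → ℝ}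
    {A : Finset (Lk d)} {a : Lk d → ℝ} (hf : Lip f A a) {ε : ℝ} (hε : 0 < ε) :
    ∃ R, ∀ η η', |gam μ β (box d R) f η' - gam μ β (box d R) f η| ≤ ε := by
  obtain ⟨R0, hR0⟩ : ∃ R0 : ℝ, ∀ e ∈ A, ‖e.1‖ ≤ R0 :=
    ⟨∑ e ∈ A, ‖e.1‖, fun e he => single_le_sum (f := fun e : Lk d => ‖e.1‖)
      (fun _ _ => norm_nonneg _) he⟩
  have hk := hG.2.1
  obtain ⟨m, hm⟩ : ∃ m, m = Real.log ρ / 2 := ⟨_, rfl⟩
  have m0 : 0 < m := by rw [hm]; exact half_pos (Real.log_pos hG.1)
  obtain ⟨L, hL⟩ : ∃ L : ℝ, L = 2 * (N * |β| * (2 * ((d : ℝ) - 1) * √N)) := ⟨_, rfl⟩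
  have key : ∀ R : ℕ, R0 ≤ R → ∀ η η', |gam μ β (box d R) f η' - gam μ β (box d R) f η| ≤
      1 / (N * k) * Real.exp (-m * (R - 1 - R0)) * √(∑ e ∈ A, a e ^ 2) *
        √((2 * R + 1) ^ d * d * L ^ 2) := by
    intro R hR η η'
    have := box_nonempty hd R
    have h1 := tilted_osc (Measure.pi fun _ : box d R => μ)
      ⟨_, (VQ_cont β (box d R)).comp (glue_cont' _ η)⟩
      ⟨_, ((VQ_cont β (box d R)).comp (glue_cont' _ η')).sub
        ((VQ_cont β (box d R)).comp (glue_cont' _ η))⟩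
      ⟨_, hf.cont.comp (glue_cont' _ η)⟩ fun s hs => cov_fin μ hG (box d R) η η' hs _ _
        (hf.lipL _ η) (VQ_lipL β R η η') (r := R - 1 - R0) (fun e e' h h' => by
          have h1 : ‖e.1.1‖ ≤ R0 := hR0 _ (by by_contra hc; simp [hc] at h)
          have h2 : (R : ℝ) - 1 < ‖e'.1.1‖ := by
            by_contra hc
            exact h' (if_pos (not_lt.1 hc))
          rw [dist_comm, dist_eq_norm]
          linarith [norm_sub_norm_le e'.1.1 e.1.1]) rfl
    have h2 : ∀ U, f (glue (box d R) U η') = f (glue (box d R) U η) := fun U =>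
      hf.congr fun e he => by simp [glue, mem_box.2 ((hR0 e he).trans hR)]
    simp only [ContinuousMap.coe_mk, Function.comp_apply, Pi.sub_apply, add_sub_cancel] at h1
    simp only [gam, cond, h2]
    refine h1.trans ?_
    rw [← hm, ← hL]
    gcongr
    · exact sum_ite_sq_le _ _ _
    · rw [← card_box, ← nsmul_eq_mul, ← Fintype.card_coe, ← card_univ, ← sum_const]
      refine sum_le_sum fun e _ => ?_
      split_ifs
      · simpa using sq_nonneg L
      · exact le_rfl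
  have t1 : Tendsto (fun R : ℕ => m * (2 * (R : ℝ) + 1)) atTop atTop :=
    Tendsto.const_mul_atTop m0 (tendsto_atTop_add_const_right _ _
      (tendsto_natCast_atTop_atTop.const_mul_atTop two_pos))
  have t2 := ((((Real.tendsto_pow_mul_exp_neg_atTop_nhds_zero d).comp t1).mul_const
    (d * L ^ 2 / m ^ d)).sqrt).const_mul
    (1 / (N * k) * Real.exp (m * (R0 + 3 / 2)) * √(∑ e ∈ A, a e ^ 2))
  simp only [zero_mul, Real.sqrt_zero, mul_zero] at t2
  obtain ⟨R, h1, h2⟩ := ((t2.eventually (ge_mem_nhds hε)).and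
    (tendsto_natCast_atTop_atTop.eventually_ge_atTop R0)).exists
  refine ⟨R, fun η η' => (key R h2 η η').trans (le_trans (le_of_eq ?_) h1)⟩
  have e1 : (m * (2 * (R : ℝ) + 1)) ^ d * Real.exp (-(m * (2 * (R : ℝ) + 1))) * (d * L ^ 2 / m ^ d) =
      Real.exp (-(m * (R + 1 / 2))) ^ 2 * ((2 * R + 1) ^ d * d * L ^ 2) := by
    rw [sq (Real.exp _), ← Real.exp_add, mul_pow, show -(m * (R + 1 / 2)) + -(m * (R + 1 / 2)) =
      -(m * (2 * (R : ℝ) + 1)) by ring]
    generalize Real.exp _ = E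
    field_simp
  have e2 : Real.exp (-m * (R - 1 - R0)) =
      Real.exp (m * (R0 + 3 / 2)) * Real.exp (-(m * (R + 1 / 2))) := by
    rw [← Real.exp_add]; congr 1; ring
  simp only [Function.comp_apply]
  rw [e1, Real.sqrt_mul (sq_nonneg _), Real.sqrt_sq (Real.exp_pos _).le, e2]
  ring

end Pool.Agent.Lib.MP_7f377f_mp.SUN
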