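import Pool.Agent.Lib.MP_7f377f_mp.SUNGrp

set_option autoImplicit false

/-! Multilinear algebra of the plaquette functional. -/

namespace Pool.Agent.Lib.MP_7f377f_mp.SUN

open Finset Matrix

variable {n : Type} [Fintype n] [DecidableEq n]

set_option linter.unusedSimpArgs false

/-- the plaquette functional -/
noncomputable def Phi (M : Fin 4 → Matrix n n ℂ) : ℝ := (M 0 * M 1 * (M 2)ᴴ * (M 3)ᴴ).trace.re

/-- insertion of a matrix in one slot -/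
noncomputable def act (i : Fin 4) (A : Matrix n n ℂ) (Y : Fin 4 → Matrix n n ℂ) :
    Fin 4 → Matrix n n ℂ := Function.update Y i (Y i * A)

lemma uni_neg {W : Matrix n n ℂ} (hW : W ∈ unitary (Matrix n n ℂ)) :
    -W ∈ unitary (Matrix n n ℂ) := by
  simpa [Unitary.mem_iff] using hW

lemma fin4 (k : Fin 4) : k = 0 ∨ k = 1 ∨ k = 2 ∨ k = 3 := by fin_cases k <;> simp

lemma Phi_lin (M : Fin 4 → Matrix n n ℂ) (i : Fin 4) : ∃ C, (∀ A, Phi (Function.update M i A) = ip A C) ∧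
    ((∀ l, M l ∈ unitary (Matrix n n ℂ)) → C ∈ unitary (Matrix n n ℂ)) := by
  obtain rfl | rfl | rfl | rfl := fin4 i
  · refine ⟨(M 1 * (M 2)ᴴ * (M 3)ᴴ)ᴴ, fun A => ?_, fun h => ?_⟩
    · simp [Phi, ip, mul_assoc]
    · exact uni_conjTranspose (mul_mem (mul_mem (h 1) (uni_conjTranspose (h 2))) (uni_conjTranspose (h 3)))
  · refine ⟨((M 2)ᴴ * (M 3)ᴴ * M 0)ᴴ, fun A => ?_, fun h => ?_⟩
    · have := trace_mul_comm (M 0) (A * (M 2)ᴴ * (M 3)ᴴ)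
      simp only [mul_assoc] at this
      simp [Phi, ip, mul_assoc, this]
    · exact uni_conjTranspose (mul_mem (mul_mem (uni_conjTranspose (h 2)) (uni_conjTranspose (h 3))) (h 0))
  · refine ⟨(M 3)ᴴ * M 0 * M 1, fun A => ?_, fun h => ?_⟩
    · have := trace_mul_comm (M 0 * M 1 * Aᴴ) (M 3)ᴴ
      simp only [mul_assoc] at this
      rw [ip_comm]
      simp [Phi, ip, mul_assoc, this]
    · exact mul_mem (mul_mem (uni_conjTranspose (h 3)) (h 0)) (h 1)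
  · refine ⟨M 0 * M 1 * (M 2)ᴴ, fun A => ?_, fun h => ?_⟩
    · rw [ip_comm]
      simp [Phi, ip, mul_assoc]
    · exact mul_mem (mul_mem (h 0) (h 1)) (uni_conjTranspose (h 2))

/-- trilinear normal form -/
def Tri (F : Matrix n n ℂ → Matrix n n ℂ → Matrix n n ℂ → ℝ) : Prop :=
  ∃ P ∈ unitary (Matrix n n ℂ), ∃ Q ∈ unitary (Matrix n n ℂ), ∃ S ∈ unitary (Matrix n n ℂ),
    ∀ Z A B : Matrix n n ℂ, Zᴴ = -Z → Aᴴ = -A → Bᴴ = -B → F Z A B = (Z * P * A * Q * B * S).trace.re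

lemma Tri.swap {F : Matrix n n ℂ → Matrix n n ℂ → Matrix n n ℂ → ℝ} (h : Tri fun Z A B => F Z B A) :
    Tri F := by
  obtain ⟨P, hP, Q, hQ, S, hS, h⟩ := h
  refine ⟨-Sᴴ, uni_neg (uni_conjTranspose hS), Qᴴ, uni_conjTranspose hQ, Pᴴ, uni_conjTranspose hP,
    fun Z A B hZ hA hB => ?_⟩
  have := trace_mul_comm (Sᴴ * A * Qᴴ * B * Pᴴ) Z
  simp only [mul_assoc] at this
  rw [show F Z A B = _ from h Z B A hZ hB hA, ← re_trace_conjTranspose]
  simp [hZ, hA, hB, mul_assoc, this]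

lemma tri011 {u : Fin 4 → Matrix n n ℂ} (hu : ∀ l, u l ∈ unitary (Matrix n n ℂ)) :
    Tri fun Z A B => Phi fun l => act 0 Z (act 1 A (act 1 B 1)) l * u l := by
  apply Tri.swap
  refine ⟨u 0, hu 0,
    1, one_mem _,
    u 1 * (u 2)ᴴ * (u 3)ᴴ, mul_mem (mul_mem (hu 1) (uni_conjTranspose (hu 2))) (uni_conjTranspose (hu 3)),
    fun Z A B hZ hA hB => ?_⟩
  simp [Phi, act, hZ, hA, hB, mul_assoc]

lemma tri012 {u : Fin 4 → Matrix n n ℂ} (hu : ∀ l, u l ∈ unitary (Matrix n n ℂ)) :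
    Tri fun Z A B => Phi fun l => act 0 Z (act 1 A (act 2 B 1)) l * u l := by
  refine ⟨-(u 0), uni_neg (hu 0),
    u 1 * (u 2)ᴴ, mul_mem (hu 1) (uni_conjTranspose (hu 2)),
    (u 3)ᴴ, uni_conjTranspose (hu 3),
    fun Z A B hZ hA hB => ?_⟩
  simp [Phi, act, hZ, hA, hB, mul_assoc]

lemma tri013 {u : Fin 4 → Matrix n n ℂ} (hu : ∀ l, u l ∈ unitary (Matrix n n ℂ)) :
    Tri fun Z A B => Phi fun l => act 0 Z (act 1 A (act 3 B 1)) l * u l := by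
  refine ⟨-(u 0), uni_neg (hu 0),
    u 1 * (u 2)ᴴ * (u 3)ᴴ, mul_mem (mul_mem (hu 1) (uni_conjTranspose (hu 2))) (uni_conjTranspose (hu 3)),
    1, one_mem _,
    fun Z A B hZ hA hB => ?_⟩
  simp [Phi, act, hZ, hA, hB, mul_assoc]

lemma tri021 {u : Fin 4 → Matrix n n ℂ} (hu : ∀ l, u l ∈ unitary (Matrix n n ℂ)) :
    Tri fun Z A B => Phi fun l => act 0 Z (act 2 A (act 1 B 1)) l * u l := by
  apply Tri.swap
  refine ⟨-(u 0), uni_neg (hu 0),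
    u 1 * (u 2)ᴴ, mul_mem (hu 1) (uni_conjTranspose (hu 2)),
    (u 3)ᴴ, uni_conjTranspose (hu 3),
    fun Z A B hZ hA hB => ?_⟩
  simp [Phi, act, hZ, hA, hB, mul_assoc]

lemma tri022 {u : Fin 4 → Matrix n n ℂ} (hu : ∀ l, u l ∈ unitary (Matrix n n ℂ)) :
    Tri fun Z A B => Phi fun l => act 0 Z (act 2 A (act 2 B 1)) l * u l := by
  refine ⟨u 0 * u 1 * (u 2)ᴴ, mul_mem (mul_mem (hu 0) (hu 1)) (uni_conjTranspose (hu 2)),
    1, one_mem _,
    (u 3)ᴴ, uni_conjTranspose (hu 3),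
    fun Z A B hZ hA hB => ?_⟩
  simp [Phi, act, hZ, hA, hB, mul_assoc]

lemma tri023 {u : Fin 4 → Matrix n n ℂ} (hu : ∀ l, u l ∈ unitary (Matrix n n ℂ)) :
    Tri fun Z A B => Phi fun l => act 0 Z (act 2 A (act 3 B 1)) l * u l := by
  refine ⟨u 0 * u 1 * (u 2)ᴴ, mul_mem (mul_mem (hu 0) (hu 1)) (uni_conjTranspose (hu 2)),
    (u 3)ᴴ, uni_conjTranspose (hu 3),
    1, one_mem _,
    fun Z A B hZ hA hB => ?_⟩
  simp [Phi, act, hZ, hA, hB, mul_assoc]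

lemma tri031 {u : Fin 4 → Matrix n n ℂ} (hu : ∀ l, u l ∈ unitary (Matrix n n ℂ)) :
    Tri fun Z A B => Phi fun l => act 0 Z (act 3 A (act 1 B 1)) l * u l := by
  apply Tri.swap
  refine ⟨-(u 0), uni_neg (hu 0),
    u 1 * (u 2)ᴴ * (u 3)ᴴ, mul_mem (mul_mem (hu 1) (uni_conjTranspose (hu 2))) (uni_conjTranspose (hu 3)),
    1, one_mem _,
    fun Z A B hZ hA hB => ?_⟩
  simp [Phi, act, hZ, hA, hB, mul_assoc]

lemma tri032 {u : Fin 4 → Matrix n n ℂ} (hu : ∀ l, u l ∈ unitary (Matrix n n ℂ)) :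
    Tri fun Z A B => Phi fun l => act 0 Z (act 3 A (act 2 B 1)) l * u l := by
  apply Tri.swap
  refine ⟨u 0 * u 1 * (u 2)ᴴ, mul_mem (mul_mem (hu 0) (hu 1)) (uni_conjTranspose (hu 2)),
    (u 3)ᴴ, uni_conjTranspose (hu 3),
    1, one_mem _,
    fun Z A B hZ hA hB => ?_⟩
  simp [Phi, act, hZ, hA, hB, mul_assoc]

lemma tri033 {u : Fin 4 → Matrix n n ℂ} (hu : ∀ l, u l ∈ unitary (Matrix n n ℂ)) :
    Tri fun Z A B => Phi fun l => act 0 Z (act 3 A (act 3 B 1)) l * u l := by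
  refine ⟨u 0 * u 1 * (u 2)ᴴ * (u 3)ᴴ, mul_mem (mul_mem (mul_mem (hu 0) (hu 1)) (uni_conjTranspose (hu 2))) (uni_conjTranspose (hu 3)),
    1, one_mem _,
    1, one_mem _,
    fun Z A B hZ hA hB => ?_⟩
  simp [Phi, act, hZ, hA, hB, mul_assoc]

lemma tri100 {u : Fin 4 → Matrix n n ℂ} (hu : ∀ l, u l ∈ unitary (Matrix n n ℂ)) :
    Tri fun Z A B => Phi fun l => act 1 Z (act 0 A (act 0 B 1)) l * u l := by
  apply Tri.swap
  refine ⟨u 1 * (u 2)ᴴ * (u 3)ᴴ, mul_mem (mul_mem (hu 1) (uni_conjTranspose (hu 2))) (uni_conjTranspose (hu 3)),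
    1, one_mem _,
    u 0, hu 0,
    fun Z A B hZ hA hB => ?_⟩
  have := trace_mul_comm (A * B * u 0) (Z * u 1 * (u 2)ᴴ * (u 3)ᴴ)
  simp only [mul_assoc] at this
  simp [Phi, act, hZ, hA, hB, mul_assoc, this]

lemma tri102 {u : Fin 4 → Matrix n n ℂ} (hu : ∀ l, u l ∈ unitary (Matrix n n ℂ)) :
    Tri fun Z A B => Phi fun l => act 1 Z (act 0 A (act 2 B 1)) l * u l := by
  apply Tri.swap
  refine ⟨-(u 1 * (u 2)ᴴ), uni_neg (mul_mem (hu 1) (uni_conjTranspose (hu 2))),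
    (u 3)ᴴ, uni_conjTranspose (hu 3),
    u 0, hu 0,
    fun Z A B hZ hA hB => ?_⟩
  have := trace_mul_comm (B * u 0) (Z * u 1 * (u 2)ᴴ * A * (u 3)ᴴ)
  simp only [mul_assoc] at this
  simp [Phi, act, hZ, hA, hB, mul_assoc, this]

lemma tri103 {u : Fin 4 → Matrix n n ℂ} (hu : ∀ l, u l ∈ unitary (Matrix n n ℂ)) :
    Tri fun Z A B => Phi fun l => act 1 Z (act 0 A (act 3 B 1)) l * u l := by
  apply Tri.swap
  refine ⟨-(u 1 * (u 2)ᴴ * (u 3)ᴴ), uni_neg (mul_mem (mul_mem (hu 1) (uni_conjTranspose (hu 2))) (uni_conjTranspose (hu 3))),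
    1, one_mem _,
    u 0, hu 0,
    fun Z A B hZ hA hB => ?_⟩
  have := trace_mul_comm (B * u 0) (Z * u 1 * (u 2)ᴴ * (u 3)ᴴ * A)
  simp only [mul_assoc] at this
  simp [Phi, act, hZ, hA, hB, mul_assoc, this]

lemma tri120 {u : Fin 4 → Matrix n n ℂ} (hu : ∀ l, u l ∈ unitary (Matrix n n ℂ)) :
    Tri fun Z A B => Phi fun l => act 1 Z (act 2 A (act 0 B 1)) l * u l := by
  refine ⟨-(u 1 * (u 2)ᴴ), uni_neg (mul_mem (hu 1) (uni_conjTranspose (hu 2))),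
    (u 3)ᴴ, uni_conjTranspose (hu 3),
    u 0, hu 0,
    fun Z A B hZ hA hB => ?_⟩
  have := trace_mul_comm (B * u 0) (Z * u 1 * (u 2)ᴴ * A * (u 3)ᴴ)
  simp only [mul_assoc] at this
  simp [Phi, act, hZ, hA, hB, mul_assoc, this]

lemma tri122 {u : Fin 4 → Matrix n n ℂ} (hu : ∀ l, u l ∈ unitary (Matrix n n ℂ)) :
    Tri fun Z A B => Phi fun l => act 1 Z (act 2 A (act 2 B 1)) l * u l := by
  refine ⟨u 1 * (u 2)ᴴ, mul_mem (hu 1) (uni_conjTranspose (hu 2)),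
    1, one_mem _,
    (u 3)ᴴ * u 0, mul_mem (uni_conjTranspose (hu 3)) (hu 0),
    fun Z A B hZ hA hB => ?_⟩
  have := trace_mul_comm (u 0) (Z * u 1 * (u 2)ᴴ * A * B * (u 3)ᴴ)
  simp only [mul_assoc] at this
  simp [Phi, act, hZ, hA, hB, mul_assoc, this]

lemma tri123 {u : Fin 4 → Matrix n n ℂ} (hu : ∀ l, u l ∈ unitary (Matrix n n ℂ)) :
    Tri fun Z A B => Phi fun l => act 1 Z (act 2 A (act 3 B 1)) l * u l := by
  refine ⟨u 1 * (u 2)ᴴ, mul_mem (hu 1) (uni_conjTranspose (hu 2)),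
    (u 3)ᴴ, uni_conjTranspose (hu 3),
    u 0, hu 0,
    fun Z A B hZ hA hB => ?_⟩
  have := trace_mul_comm (u 0) (Z * u 1 * (u 2)ᴴ * A * (u 3)ᴴ * B)
  simp only [mul_assoc] at this
  simp [Phi, act, hZ, hA, hB, mul_assoc, this]

lemma tri130 {u : Fin 4 → Matrix n n ℂ} (hu : ∀ l, u l ∈ unitary (Matrix n n ℂ)) :
    Tri fun Z A B => Phi fun l => act 1 Z (act 3 A (act 0 B 1)) l * u l := by
  refine ⟨-(u 1 * (u 2)ᴴ * (u 3)ᴴ), uni_neg (mul_mem (mul_mem (hu 1) (uni_conjTranspose (hu 2))) (uni_conjTranspose (hu 3))),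
    1, one_mem _,
    u 0, hu 0,
    fun Z A B hZ hA hB => ?_⟩
  have := trace_mul_comm (B * u 0) (Z * u 1 * (u 2)ᴴ * (u 3)ᴴ * A)
  simp only [mul_assoc] at this
  simp [Phi, act, hZ, hA, hB, mul_assoc, this]

lemma tri132 {u : Fin 4 → Matrix n n ℂ} (hu : ∀ l, u l ∈ unitary (Matrix n n ℂ)) :
    Tri fun Z A B => Phi fun l => act 1 Z (act 3 A (act 2 B 1)) l * u l := by
  apply Tri.swap
  refine ⟨u 1 * (u 2)ᴴ, mul_mem (hu 1) (uni_conjTranspose (hu 2)),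
    (u 3)ᴴ, uni_conjTranspose (hu 3),
    u 0, hu 0,
    fun Z A B hZ hA hB => ?_⟩
  have := trace_mul_comm (u 0) (Z * u 1 * (u 2)ᴴ * A * (u 3)ᴴ * B)
  simp only [mul_assoc] at this
  simp [Phi, act, hZ, hA, hB, mul_assoc, this]

lemma tri133 {u : Fin 4 → Matrix n n ℂ} (hu : ∀ l, u l ∈ unitary (Matrix n n ℂ)) :
    Tri fun Z A B => Phi fun l => act 1 Z (act 3 A (act 3 B 1)) l * u l := by
  refine ⟨u 1 * (u 2)ᴴ * (u 3)ᴴ, mul_mem (mul_mem (hu 1) (uni_conjTranspose (hu 2))) (uni_conjTranspose (hu 3)),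
    1, one_mem _,
    u 0, hu 0,
    fun Z A B hZ hA hB => ?_⟩
  have := trace_mul_comm (u 0) (Z * u 1 * (u 2)ᴴ * (u 3)ᴴ * A * B)
  simp only [mul_assoc] at this
  simp [Phi, act, hZ, hA, hB, mul_assoc, this]

lemma tri200 {u : Fin 4 → Matrix n n ℂ} (hu : ∀ l, u l ∈ unitary (Matrix n n ℂ)) :
    Tri fun Z A B => Phi fun l => act 2 Z (act 0 A (act 0 B 1)) l * u l := by
  apply Tri.swap
  refine ⟨-((u 3)ᴴ), uni_neg (uni_conjTranspose (hu 3)),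
    1, one_mem _,
    u 0 * u 1 * (u 2)ᴴ, mul_mem (mul_mem (hu 0) (hu 1)) (uni_conjTranspose (hu 2)),
    fun Z A B hZ hA hB => ?_⟩
  have := trace_mul_comm (A * B * u 0 * u 1 * (u 2)ᴴ) (Z * (u 3)ᴴ)
  simp only [mul_assoc] at this
  simp [Phi, act, hZ, hA, hB, mul_assoc, this]

lemma tri201 {u : Fin 4 → Matrix n n ℂ} (hu : ∀ l, u l ∈ unitary (Matrix n n ℂ)) :
    Tri fun Z A B => Phi fun l => act 2 Z (act 0 A (act 1 B 1)) l * u l := by
  refine ⟨-((u 3)ᴴ), uni_neg (uni_conjTranspose (hu 3)),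
    u 0, hu 0,
    u 1 * (u 2)ᴴ, mul_mem (hu 1) (uni_conjTranspose (hu 2)),
    fun Z A B hZ hA hB => ?_⟩
  have := trace_mul_comm (A * u 0 * B * u 1 * (u 2)ᴴ) (Z * (u 3)ᴴ)
  simp only [mul_assoc] at this
  simp [Phi, act, hZ, hA, hB, mul_assoc, this]

lemma tri203 {u : Fin 4 → Matrix n n ℂ} (hu : ∀ l, u l ∈ unitary (Matrix n n ℂ)) :
    Tri fun Z A B => Phi fun l => act 2 Z (act 0 A (act 3 B 1)) l * u l := by
  apply Tri.swap
  refine ⟨(u 3)ᴴ, uni_conjTranspose (hu 3),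
    1, one_mem _,
    u 0 * u 1 * (u 2)ᴴ, mul_mem (mul_mem (hu 0) (hu 1)) (uni_conjTranspose (hu 2)),
    fun Z A B hZ hA hB => ?_⟩
  have := trace_mul_comm (B * u 0 * u 1 * (u 2)ᴴ) (Z * (u 3)ᴴ * A)
  simp only [mul_assoc] at this
  simp [Phi, act, hZ, hA, hB, mul_assoc, this]

lemma tri210 {u : Fin 4 → Matrix n n ℂ} (hu : ∀ l, u l ∈ unitary (Matrix n n ℂ)) :
    Tri fun Z A B => Phi fun l => act 2 Z (act 1 A (act 0 B 1)) l * u l := by
  apply Tri.swap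
  refine ⟨-((u 3)ᴴ), uni_neg (uni_conjTranspose (hu 3)),
    u 0, hu 0,
    u 1 * (u 2)ᴴ, mul_mem (hu 1) (uni_conjTranspose (hu 2)),
    fun Z A B hZ hA hB => ?_⟩
  have := trace_mul_comm (A * u 0 * B * u 1 * (u 2)ᴴ) (Z * (u 3)ᴴ)
  simp only [mul_assoc] at this
  simp [Phi, act, hZ, hA, hB, mul_assoc, this]

lemma tri211 {u : Fin 4 → Matrix n n ℂ} (hu : ∀ l, u l ∈ unitary (Matrix n n ℂ)) :
    Tri fun Z A B => Phi fun l => act 2 Z (act 1 A (act 1 B 1)) l * u l := by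
  apply Tri.swap
  refine ⟨-((u 3)ᴴ * u 0), uni_neg (mul_mem (uni_conjTranspose (hu 3)) (hu 0)),
    1, one_mem _,
    u 1 * (u 2)ᴴ, mul_mem (hu 1) (uni_conjTranspose (hu 2)),
    fun Z A B hZ hA hB => ?_⟩
  have := trace_mul_comm (u 0 * A * B * u 1 * (u 2)ᴴ) (Z * (u 3)ᴴ)
  simp only [mul_assoc] at this
  simp [Phi, act, hZ, hA, hB, mul_assoc, this]

lemma tri213 {u : Fin 4 → Matrix n n ℂ} (hu : ∀ l, u l ∈ unitary (Matrix n n ℂ)) :
    Tri fun Z A B => Phi fun l => act 2 Z (act 1 A (act 3 B 1)) l * u l := by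
  apply Tri.swap
  refine ⟨(u 3)ᴴ, uni_conjTranspose (hu 3),
    u 0, hu 0,
    u 1 * (u 2)ᴴ, mul_mem (hu 1) (uni_conjTranspose (hu 2)),
    fun Z A B hZ hA hB => ?_⟩
  have := trace_mul_comm (u 0 * B * u 1 * (u 2)ᴴ) (Z * (u 3)ᴴ * A)
  simp only [mul_assoc] at this
  simp [Phi, act, hZ, hA, hB, mul_assoc, this]

lemma tri230 {u : Fin 4 → Matrix n n ℂ} (hu : ∀ l, u l ∈ unitary (Matrix n n ℂ)) :
    Tri fun Z A B => Phi fun l => act 2 Z (act 3 A (act 0 B 1)) l * u l := by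
  refine ⟨(u 3)ᴴ, uni_conjTranspose (hu 3),
    1, one_mem _,
    u 0 * u 1 * (u 2)ᴴ, mul_mem (mul_mem (hu 0) (hu 1)) (uni_conjTranspose (hu 2)),
    fun Z A B hZ hA hB => ?_⟩
  have := trace_mul_comm (B * u 0 * u 1 * (u 2)ᴴ) (Z * (u 3)ᴴ * A)
  simp only [mul_assoc] at this
  simp [Phi, act, hZ, hA, hB, mul_assoc, this]

lemma tri231 {u : Fin 4 → Matrix n n ℂ} (hu : ∀ l, u l ∈ unitary (Matrix n n ℂ)) :
    Tri fun Z A B => Phi fun l => act 2 Z (act 3 A (act 1 B 1)) l * u l := by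
  refine ⟨(u 3)ᴴ, uni_conjTranspose (hu 3),
    u 0, hu 0,
    u 1 * (u 2)ᴴ, mul_mem (hu 1) (uni_conjTranspose (hu 2)),
    fun Z A B hZ hA hB => ?_⟩
  have := trace_mul_comm (u 0 * B * u 1 * (u 2)ᴴ) (Z * (u 3)ᴴ * A)
  simp only [mul_assoc] at this
  simp [Phi, act, hZ, hA, hB, mul_assoc, this]

lemma tri233 {u : Fin 4 → Matrix n n ℂ} (hu : ∀ l, u l ∈ unitary (Matrix n n ℂ)) :
    Tri fun Z A B => Phi fun l => act 2 Z (act 3 A (act 3 B 1)) l * u l := by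
  refine ⟨-((u 3)ᴴ), uni_neg (uni_conjTranspose (hu 3)),
    1, one_mem _,
    u 0 * u 1 * (u 2)ᴴ, mul_mem (mul_mem (hu 0) (hu 1)) (uni_conjTranspose (hu 2)),
    fun Z A B hZ hA hB => ?_⟩
  have := trace_mul_comm (u 0 * u 1 * (u 2)ᴴ) (Z * (u 3)ᴴ * A * B)
  simp only [mul_assoc] at this
  simp [Phi, act, hZ, hA, hB, mul_assoc, this]

lemma tri300 {u : Fin 4 → Matrix n n ℂ} (hu : ∀ l, u l ∈ unitary (Matrix n n ℂ)) :
    Tri fun Z A B => Phi fun l => act 3 Z (act 0 A (act 0 B 1)) l * u l := by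
  apply Tri.swap
  refine ⟨-(1), uni_neg (one_mem _),
    1, one_mem _,
    u 0 * u 1 * (u 2)ᴴ * (u 3)ᴴ, mul_mem (mul_mem (mul_mem (hu 0) (hu 1)) (uni_conjTranspose (hu 2))) (uni_conjTranspose (hu 3)),
    fun Z A B hZ hA hB => ?_⟩
  have := trace_mul_comm (A * B * u 0 * u 1 * (u 2)ᴴ * (u 3)ᴴ) (Z)
  simp only [mul_assoc] at this
  simp [Phi, act, hZ, hA, hB, mul_assoc, this]

lemma tri301 {u : Fin 4 → Matrix n n ℂ} (hu : ∀ l, u l ∈ unitary (Matrix n n ℂ)) :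
    Tri fun Z A B => Phi fun l => act 3 Z (act 0 A (act 1 B 1)) l * u l := by
  refine ⟨-(1), uni_neg (one_mem _),
    u 0, hu 0,
    u 1 * (u 2)ᴴ * (u 3)ᴴ, mul_mem (mul_mem (hu 1) (uni_conjTranspose (hu 2))) (uni_conjTranspose (hu 3)),
    fun Z A B hZ hA hB => ?_⟩
  have := trace_mul_comm (A * u 0 * B * u 1 * (u 2)ᴴ * (u 3)ᴴ) (Z)
  simp only [mul_assoc] at this
  simp [Phi, act, hZ, hA, hB, mul_assoc, this]

lemma tri302 {u : Fin 4 → Matrix n n ℂ} (hu : ∀ l, u l ∈ unitary (Matrix n n ℂ)) :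
    Tri fun Z A B => Phi fun l => act 3 Z (act 0 A (act 2 B 1)) l * u l := by
  refine ⟨1, one_mem _,
    u 0 * u 1 * (u 2)ᴴ, mul_mem (mul_mem (hu 0) (hu 1)) (uni_conjTranspose (hu 2)),
    (u 3)ᴴ, uni_conjTranspose (hu 3),
    fun Z A B hZ hA hB => ?_⟩
  have := trace_mul_comm (A * u 0 * u 1 * (u 2)ᴴ * B * (u 3)ᴴ) (Z)
  simp only [mul_assoc] at this
  simp [Phi, act, hZ, hA, hB, mul_assoc, this]

lemma tri310 {u : Fin 4 → Matrix n n ℂ} (hu : ∀ l, u l ∈ unitary (Matrix n n ℂ)) :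
    Tri fun Z A B => Phi fun l => act 3 Z (act 1 A (act 0 B 1)) l * u l := by
  apply Tri.swap
  refine ⟨-(1), uni_neg (one_mem _),
    u 0, hu 0,
    u 1 * (u 2)ᴴ * (u 3)ᴴ, mul_mem (mul_mem (hu 1) (uni_conjTranspose (hu 2))) (uni_conjTranspose (hu 3)),
    fun Z A B hZ hA hB => ?_⟩
  have := trace_mul_comm (A * u 0 * B * u 1 * (u 2)ᴴ * (u 3)ᴴ) (Z)
  simp only [mul_assoc] at this
  simp [Phi, act, hZ, hA, hB, mul_assoc, this]

lemma tri311 {u : Fin 4 → Matrix n n ℂ} (hu : ∀ l, u l ∈ unitary (Matrix n n ℂ)) :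
    Tri fun Z A B => Phi fun l => act 3 Z (act 1 A (act 1 B 1)) l * u l := by
  apply Tri.swap
  refine ⟨-(u 0), uni_neg (hu 0),
    1, one_mem _,
    u 1 * (u 2)ᴴ * (u 3)ᴴ, mul_mem (mul_mem (hu 1) (uni_conjTranspose (hu 2))) (uni_conjTranspose (hu 3)),
    fun Z A B hZ hA hB => ?_⟩
  have := trace_mul_comm (u 0 * A * B * u 1 * (u 2)ᴴ * (u 3)ᴴ) (Z)
  simp only [mul_assoc] at this
  simp [Phi, act, hZ, hA, hB, mul_assoc, this]

lemma tri312 {u : Fin 4 → Matrix n n ℂ} (hu : ∀ l, u l ∈ unitary (Matrix n n ℂ)) :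
    Tri fun Z A B => Phi fun l => act 3 Z (act 1 A (act 2 B 1)) l * u l := by
  refine ⟨u 0, hu 0,
    u 1 * (u 2)ᴴ, mul_mem (hu 1) (uni_conjTranspose (hu 2)),
    (u 3)ᴴ, uni_conjTranspose (hu 3),
    fun Z A B hZ hA hB => ?_⟩
  have := trace_mul_comm (u 0 * A * u 1 * (u 2)ᴴ * B * (u 3)ᴴ) (Z)
  simp only [mul_assoc] at this
  simp [Phi, act, hZ, hA, hB, mul_assoc, this]

lemma tri320 {u : Fin 4 → Matrix n n ℂ} (hu : ∀ l, u l ∈ unitary (Matrix n n ℂ)) :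
    Tri fun Z A B => Phi fun l => act 3 Z (act 2 A (act 0 B 1)) l * u l := by
  apply Tri.swap
  refine ⟨1, one_mem _,
    u 0 * u 1 * (u 2)ᴴ, mul_mem (mul_mem (hu 0) (hu 1)) (uni_conjTranspose (hu 2)),
    (u 3)ᴴ, uni_conjTranspose (hu 3),
    fun Z A B hZ hA hB => ?_⟩
  have := trace_mul_comm (A * u 0 * u 1 * (u 2)ᴴ * B * (u 3)ᴴ) (Z)
  simp only [mul_assoc] at this
  simp [Phi, act, hZ, hA, hB, mul_assoc, this]

lemma tri321 {u : Fin 4 → Matrix n n ℂ} (hu : ∀ l, u l ∈ unitary (Matrix n n ℂ)) :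
    Tri fun Z A B => Phi fun l => act 3 Z (act 2 A (act 1 B 1)) l * u l := by
  apply Tri.swap
  refine ⟨u 0, hu 0,
    u 1 * (u 2)ᴴ, mul_mem (hu 1) (uni_conjTranspose (hu 2)),
    (u 3)ᴴ, uni_conjTranspose (hu 3),
    fun Z A B hZ hA hB => ?_⟩
  have := trace_mul_comm (u 0 * A * u 1 * (u 2)ᴴ * B * (u 3)ᴴ) (Z)
  simp only [mul_assoc] at this
  simp [Phi, act, hZ, hA, hB, mul_assoc, this]

lemma tri322 {u : Fin 4 → Matrix n n ℂ} (hu : ∀ l, u l ∈ unitary (Matrix n n ℂ)) :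
    Tri fun Z A B => Phi fun l => act 3 Z (act 2 A (act 2 B 1)) l * u l := by
  refine ⟨-(u 0 * u 1 * (u 2)ᴴ), uni_neg (mul_mem (mul_mem (hu 0) (hu 1)) (uni_conjTranspose (hu 2))),
    1, one_mem _,
    (u 3)ᴴ, uni_conjTranspose (hu 3),
    fun Z A B hZ hA hB => ?_⟩
  have := trace_mul_comm (u 0 * u 1 * (u 2)ᴴ * A * B * (u 3)ᴴ) (Z)
  simp only [mul_assoc] at this
  simp [Phi, act, hZ, hA, hB, mul_assoc, this]

lemma Phi_tri {u : Fin 4 → Matrix n n ℂ} (hu : ∀ l, u l ∈ unitary (Matrix n n ℂ)) {k i j : Fin 4}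
    (hi : k ≠ i) (hj : k ≠ j) :
    Tri fun Z A B => Phi fun l => act k Z (act i A (act j B 1)) l * u l := by
  obtain rfl | rfl | rfl | rfl := fin4 k <;> obtain rfl | rfl | rfl | rfl := fin4 i <;>
    obtain rfl | rfl | rfl | rfl := fin4 j
  · exact absurd rfl hi
  · exact absurd rfl hi
  · exact absurd rfl hi
  · exact absurd rfl hi
  · exact absurd rfl hj
  · exact tri011 hu
  · exact tri012 hu
  · exact tri013 hu
  · exact absurd rfl hj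
  · exact tri021 hu
  · exact tri022 hu
  · exact tri023 hu
  · exact absurd rfl hj
  · exact tri031 hu
  · exact tri032 hu
  · exact tri033 hu
  · exact tri100 hu
  · exact absurd rfl hj
  · exact tri102 hu
  · exact tri103 hu
  · exact absurd rfl hi
  · exact absurd rfl hi
  · exact absurd rfl hi
  · exact absurd rfl hi
  · exact tri120 hu
  · exact absurd rfl hj
  · exact tri122 hu
  · exact tri123 hu
  · exact tri130 hu
  · exact absurd rfl hj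
  · exact tri132 hu
  · exact tri133 hu
  · exact tri200 hu
  · exact tri201 hu
  · exact absurd rfl hj
  · exact tri203 hu
  · exact tri210 hu
  · exact tri211 hu
  · exact absurd rfl hj
  · exact tri213 hu
  · exact absurd rfl hi
  · exact absurd rfl hi
  · exact absurd rfl hi
  · exact absurd rfl hi
  · exact tri230 hu
  · exact tri231 hu
  · exact absurd rfl hj
  · exact tri233 hu
  · exact tri300 hu
  · exact tri301 hu
  · exact tri302 hu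
  · exact absurd rfl hj
  · exact tri310 hu
  · exact tri311 hu
  · exact tri312 hu
  · exact absurd rfl hj
  · exact tri320 hu
  · exact tri321 hu
  · exact tri322 hu
  · exact absurd rfl hj
  · exact absurd rfl hi
  · exact absurd rfl hi
  · exact absurd rfl hi
  · exact absurd rfl hi

end Pool.Agent.Lib.MP_7f377f_mp.SUN
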