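import Pool.Agent.Lib.MP_7f377f_mp.SUNBoch
import Pool.Agent.Lib.MP_7f377f_mp.SUNPhi

set_option autoImplicit false

/-! The Hessian estimate for one plaquette, by integration by parts in a third link. -/

namespace Pool.Agent.Lib.MP_7f377f_mp.SUN

open Finset Matrix MeasureTheory

/-- a plaquette with free slots `S` and frozen values elsewhere -/
structure Plq (Λ G : Type) where
  S : Finset (Fin 4)
  lk : Fin 4 → Λ
  fr : Fin 4 → G
  inj : Set.InjOn lk S

/-- the group element in a slot -/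
def Plq.val {Λ G : Type} (p : Plq Λ G) (U : Λ → G) (l : Fin 4) : G :=
  if l ∈ p.S then U (p.lk l) else p.fr l

lemma comb (S : Finset (Fin 4)) (hS : 3 ≤ S.card) (x z : Fin 4 → Fin 4 → ℝ) (y : Fin 4 → ℝ)
    (h : ∀ k ∈ S, ∀ i ∈ S, ∀ j ∈ S, k ≠ i → k ≠ j → x i j ≤ y i + y j + z k j + z k i) :
    ∑ i ∈ S, ∑ j ∈ S, x i j ≤ 2 * S.card * ∑ i ∈ S, y i +
      2 * (S.card / (S.card - 1)) * ∑ j ∈ S, ∑ k ∈ S.erase j, z k j := by
  have e : ∑ j ∈ S, ∑ k ∈ S.erase j, z k j = ∑ j ∈ S, (∑ k ∈ S, z k j - z j j) :=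
    sum_congr rfl fun j hj => sum_erase_eq_sub hj
  rw [e]
  rcases hS.eq_or_lt with h3 | h4
  · obtain ⟨a, b, c, hab, hac, hbc, rfl⟩ := card_eq_three.1 h3.symm
    rw [← h3]
    simp only [mem_insert, mem_singleton, forall_eq_or_imp, forall_eq] at h
    simp only [ne_eq, hab, hac, hbc, hab.symm, hac.symm, hbc.symm, not_true_eq_false,
      not_false_eq_true, forall_const, IsEmpty.forall_iff, true_and, and_true,
      and_self] at h
    simp only [sum_insert (show a ∉ ({b, c} : Finset (Fin 4)) by simp [hab, hac]),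
      sum_insert (show b ∉ ({c} : Finset (Fin 4)) by simp [hbc]), sum_singleton]
    norm_num
    obtain ⟨⟨⟨a1, a2⟩, a3, a4⟩, ⟨⟨b1, b2⟩, b3, b4⟩, ⟨c1, c2⟩, c3, c4⟩ := h
    linarith
  · have : S = univ := eq_univ_of_card _ (le_antisymm (card_le_univ _) (by simp; omega))
    subst this
    simp only [mem_univ, forall_const, Fin.forall_fin_succ] at h
    simp at h
    simp only [Fin.sum_univ_four, card_univ, Fintype.card_fin]
    norm_num
    obtain ⟨⟨⟨a1, a2, a3⟩, ⟨a4, a5, a6⟩, a7, a8, a9⟩, ⟨⟨b1, b2, b3⟩, ⟨b4, b5, b6⟩, b7, b8, b9⟩,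
      ⟨⟨c1, c2, c3⟩, ⟨c4, c5, c6⟩, c7, c8, c9⟩, ⟨d1, d2, d3⟩, ⟨d4, d5, d6⟩, d7, d8, d9⟩ := h
    linarith

lemma sum_young {ι : Type} [Fintype ι] (x y : ι → ι → ℝ) {s : ℝ} (hs : 0 < s) :
    |∑ a, ∑ c, x a c * y a c| ≤ s / 2 * ∑ a, ∑ c, x a c ^ 2 + 1 / (2 * s) * ∑ a, ∑ c, y a c * y a c := by
  simp only [mul_sum, ← sum_add_distrib]
  refine (abs_sum_le_sum_abs _ _).trans (sum_le_sum fun a _ =>
    (abs_sum_le_sum_abs _ _).trans (sum_le_sum fun c _ => ?_))
  have h : s / 2 * x a c ^ 2 + 1 / (2 * s) * (y a c * y a c) - |x a c * y a c| =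
      (s * |x a c| - |y a c|) ^ 2 / (2 * s) := by
    rw [abs_mul, ← sq_abs (x a c), ← abs_mul_abs_self (y a c)]
    field_simp
    ring
  have : 0 ≤ (s * |x a c| - |y a c|) ^ 2 / (2 * s) := by positivity
  linarith

variable {n : Type} [Fintype n] [DecidableEq n] {ι : Type} [Fintype ι]
  {G : Type} [Group G] [TopologicalSpace G] (H : Grp G n ι) {Λ : Type}

namespace Grp

/-- matrix valued polynomial functions -/
def MP (F : (Λ → G) → Matrix n n ℂ) : Prop := ∀ M, ∃ f : H.P Λ, ∀ U, H.ev U f = ip (F U) M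

lemma mp_const (A : Matrix n n ℂ) : H.MP (Λ := Λ) fun _ => A :=
  fun M => ⟨ip A M • 1, fun U => by simp⟩

lemma mp_link (e : Λ) : H.MP fun U => H.r (U e) := fun M => ⟨H.co e M, fun _ => rfl⟩

variable {H}

lemma MP.mul {F F' : (Λ → G) → Matrix n n ℂ} (h : H.MP F) (h' : H.MP F') :
    H.MP fun U => F U * F' U := by
  intro M
  choose f hf using h
  choose f' hf' using h'
  refine ⟨∑ a, f (base a) * f' ((base a)ᴴ * M), fun U => ?_⟩
  simp only [map_sum, map_mul, hf, hf', ← ip_mul_left]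
  conv_rhs => rw [← base_pars (F U), sum_mul, ip_sum_left]
  simp only [smul_mul_assoc, ip_smul_left]

lemma MP.adj {F : (Λ → G) → Matrix n n ℂ} (h : H.MP F) : H.MP fun U => (F U)ᴴ := by
  intro M
  obtain ⟨f, hf⟩ := h Mᴴ
  exact ⟨f, fun U => by rw [hf, ← ip_conjTranspose, conjTranspose_conjTranspose]⟩

variable (H)

lemma exists_poly (p : Plq Λ G) (Y : Fin 4 → Matrix n n ℂ) :
    ∃ f : H.P Λ, ∀ U, H.ev U f = Phi fun l => Y l * H.r (p.val U l) := by
  have h : ∀ l, H.MP fun U => Y l * H.r (p.val U l) := by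
    intro l
    refine (H.mp_const _).mul ?_
    unfold Plq.val
    by_cases hl : l ∈ p.S
    · simp only [hl, if_true]; exact H.mp_link _
    · simp only [hl, if_false]; exact H.mp_const _
  obtain ⟨f, hf⟩ := (((h 0).mul (h 1)).mul (h 2).adj).mul (h 3).adj 1
  exact ⟨f, fun U => by rw [hf]; simp [ip, Phi]⟩

/-- plaquette polynomial with insertions -/
noncomputable def poly (p : Plq Λ G) (Y : Fin 4 → Matrix n n ℂ) : H.P Λ :=
  (H.exists_poly p Y).choose

lemma ev_poly (p : Plq Λ G) (Y : Fin 4 → Matrix n n ℂ) (U : Λ → G) :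
    H.ev U (H.poly p Y) = Phi fun l => Y l * H.r (p.val U l) := (H.exists_poly p Y).choose_spec U

omit [DecidableEq n] in
lemma act_mul (i : Fin 4) (A : Matrix n n ℂ) (Y u : Fin 4 → Matrix n n ℂ) :
    (fun l => act i A Y l * u l) = Function.update (fun l => Y l * u l) i (Y i * A * u i) := by
  funext l
  by_cases h : l = i
  · subst h; simp [act]
  · simp [act, h]

variable [DecidableEq Λ]

lemma D_poly (p : Plq Λ G) (Y : Fin 4 → Matrix n n ℂ) {i : Fin 4} (hi : i ∈ p.S) (Z : H.g) :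
    H.D (p.lk i) Z (H.poly p Y) = H.poly p (act i Z Y) := by
  refine H.P_ext (HasD.unique Z.2 (H.hasD _ Z _) fun γ hγ U => ?_)
  simp only [← ev_def, ev_poly, act_mul]
  obtain ⟨C, hC, -⟩ := Phi_lin (fun l => Y l * H.r (p.val U l)) i
  have h1 : ∀ t, (fun l => Y l * H.r (p.val (Pi.mulSingle (p.lk i) (γ t) * U) l)) =
      Function.update (fun l => Y l * H.r (p.val U l)) i (Y i * H.r (γ t) * H.r (p.val U i)) := by
    intro t
    funext l
    by_cases h : l = i
    · subst h; simp [Plq.val, hi, mul_assoc]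
    · rw [Function.update_of_ne h]
      unfold Plq.val
      split_ifs with hl
      · rw [Pi.mul_apply, Pi.mulSingle_eq_of_ne (fun h' => h (p.inj hl hi h')), one_mul]
      · rfl
  simp only [h1, hC, ip_mul_right (H.r (p.val U i)), ip_mul_left (Y i)]
  exact hγ.der _

lemma D_poly_zero (p : Plq Λ G) (Y : Fin 4 → Matrix n n ℂ) {e : Λ} (he : e ∉ p.S.image p.lk)
    (Z : H.g) : H.D e Z (H.poly p Y) = 0 := by
  refine H.P_ext (HasD.unique Z.2 (H.hasD _ Z _) fun γ hγ U => ?_)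
  simp only [← ev_def, ev_poly]
  have h1 : ∀ t, p.val (Pi.mulSingle e (γ t) * U) = p.val U := by
    intro t
    funext l
    unfold Plq.val
    split_ifs with hl
    · rw [Pi.mul_apply, Pi.mulSingle_eq_of_ne (fun h' => he (mem_image.2 ⟨l, hl, h'⟩)), one_mul]
    · rfl
  simp only [h1, map_zero]
  exact hasDerivAt_const _ _

omit [DecidableEq Λ] in
lemma poly_eig (p : Plq Λ G) (Y : Fin 4 → Matrix n n ℂ) (k : Fin 4) :
    ∑ c, H.poly p (act k (H.T c) (act k (H.T c) Y)) = -(H.lam • H.poly p Y) := by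
  refine H.ev_ext fun U => ?_
  obtain ⟨C, hC, -⟩ := Phi_lin (fun l => Y l * H.r (p.val U l)) k
  have h0 := hC (Y k * H.r (p.val U k))
  rw [Function.update_eq_self] at h0
  simp only [map_sum, map_neg, ev_smul, ev_poly, act_mul, Function.update_idem, hC, h0]
  simp only [act, Function.update_self]
  rw [← ip_sum_left, ← sum_mul]
  simp only [mul_assoc (Y k)]
  rw [← mul_sum, H.cas]
  simp [ip_neg_left, ip_smul_left]

lemma om_poly (p : Plq Λ G) {k : Fin 4} (hk : k ∈ p.S) (U : Λ → G) :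
    ∃ B ∈ unitary (Matrix n n ℂ), H.om (p.lk k) (H.poly p 1) U = H.pr B := by
  obtain ⟨C, hC, hu⟩ := Phi_lin (fun l => (1 : Fin 4 → Matrix n n ℂ) l * H.r (p.val U l)) k
  refine ⟨C * (H.r (p.val U k))ᴴ, mul_mem (hu fun l => by simpa using H.uni _)
    (uni_conjTranspose (H.uni _)), ?_⟩
  simp only [om, Frame.pr, H.D_poly p 1 hk, ev_poly, act_mul, hC, ip_mul_right (H.r (p.val U k))]
  simp [t]

/-- the Hessian term of a pair of slots -/
noncomputable def hp (p : Plq Λ G) (i j : Fin 4) (u : H.P Λ) : H.P Λ :=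
  ∑ a, ∑ b, H.poly p (act i (H.T a) (act j (H.T b) 1)) * H.D (p.lk j) (H.t b) u *
    H.D (p.lk i) (H.t a) u

omit [DecidableEq n] in
lemma tri_sum_A (Z P Q B S : Matrix n n ℂ) (T : ι → Matrix n n ℂ) (x : ι → ℝ) :
    ∑ a, (Z * P * T a * Q * B * S).trace.re * x a = (Z * P * (∑ a, x a • T a) * Q * B * S).trace.re := by
  simp [mul_sum, sum_mul, trace_sum, mul_comm]

omit [DecidableEq n] in
lemma tri_sum_B (Z P Q A S : Matrix n n ℂ) (T : ι → Matrix n n ℂ) (x : ι → ℝ) :
    ∑ a, (Z * P * A * Q * T a * S).trace.re * x a = (Z * P * A * Q * (∑ a, x a • T a) * S).trace.re := by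
  simp [mul_sum, sum_mul, trace_sum, mul_comm]

omit [DecidableEq n] in
lemma tri_sum_Z (P A Q B S : Matrix n n ℂ) (T : ι → Matrix n n ℂ) (x : ι → ℝ) :
    ∑ a, (T a * P * A * Q * B * S).trace.re * x a = ((∑ a, x a • T a) * P * A * Q * B * S).trace.re := by
  simp [sum_mul, trace_sum, mul_comm]

lemma hp_direct (p : Plq Λ G) (i j : Fin 4) (u : H.P Λ) (U : Λ → G) :
    |H.ev U (H.hp p i j u)| ≤ 1 / 2 * (H.ev U (H.gr (p.lk i) u) + H.ev U (H.gr (p.lk j) u)) := by
  obtain ⟨k, hki, hkj⟩ : ∃ k : Fin 4, k ≠ i ∧ k ≠ j := by revert i j; decide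
  have hI : (Complex.I • (1 : Matrix n n ℂ))ᴴ = -(Complex.I • 1) := by simp
  have hI2 : (Complex.I • (1 : Matrix n n ℂ)) ∈ unitary (Matrix n n ℂ) := by
    simp [Unitary.mem_iff, smul_smul]
  set v : Fin 4 → Matrix n n ℂ := fun l => H.r (p.val U l) with hv
  obtain ⟨P, hP, Q, hQ, S, hS, h⟩ := Phi_tri
    (u := Function.update v k ((Complex.I • (1 : Matrix n n ℂ))ᴴ * v k)) (fun l => by
      by_cases hl : l = k
      · subst hl; rw [Function.update_self]; exact mul_mem (uni_conjTranspose hI2) (H.uni _)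
      · rw [Function.update_of_ne hl]; exact H.uni _) hki hkj
  have h2 : ∀ a b, H.ev U (H.poly p (act i (H.T a) (act j (H.T b) 1))) =
      (Complex.I • (1 : Matrix n n ℂ) * P * H.T a * Q * H.T b * S).trace.re := by
    intro a b
    rw [← h _ _ _ hI (H.skew _ (H.mem a)) (H.skew _ (H.mem b)), ev_poly]
    congr 1
    funext l
    by_cases hl : l = k
    · subst hl
      simp only [act, Function.update_self, hv]
      rw [mul_assoc, ← mul_assoc (Complex.I • 1), uni_mul_conjTranspose hI2, one_mul]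
    · simp only [act, Function.update_of_ne hl, hv]
  simp only [hp, map_sum, map_mul, h2, ← sum_mul, tri_sum_B, tri_sum_A, ev_gr]
  exact tri_op hP hQ hS one_pos (fun Y => by rw [ip_uni_left hI2]; simp) _ _

lemma hp_ibp {E : H.P Λ →ₗ[ℝ] ℝ} (hE : H.Mono E) {V : H.P Λ}
    (hi : ∀ i f, E (H.X i f) = -E (f * H.X i V)) {η : ℝ}
    (hη : ∀ k U, ∀ P ∈ unitary (Matrix n n ℂ), ∀ Q ∈ unitary (Matrix n n ℂ),
      ∀ S ∈ unitary (Matrix n n ℂ), ∀ A B : Matrix n n ℂ,
        |(H.om k V U * P * A * Q * B * S).trace.re| ≤ η / 2 * (ip A A + ip B B))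
    (p : Plq Λ G) {k i j : Fin 4} (hk : k ∈ p.S) (hki : k ≠ i) (hkj : k ≠ j) (u : H.P Λ)
    {s1 s2 : ℝ} (h1 : 0 < s1) (h2 : 0 < s2) :
    H.lam * |E (H.hp p i j u)| ≤ (s1 * Fintype.card n + η) / 2 * E (H.gr (p.lk i) u) +
      (s2 * Fintype.card n + η) / 2 * E (H.gr (p.lk j) u) +
      1 / (2 * s1) * E (H.mix (p.lk k) (p.lk j) u) + 1 / (2 * s2) * E (H.mix (p.lk k) (p.lk i) u) := by
  set tr : ι → ι → ι → H.P Λ := fun c a b =>
    H.poly p (act k (H.T c) (act i (H.T a) (act j (H.T b) 1))) with htr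
  set ui : ι → H.P Λ := fun a => H.D (p.lk i) (H.t a) u with hui
  set uj : ι → H.P Λ := fun a => H.D (p.lk j) (H.t a) u with huj
  set F : H.P Λ := ∑ b, ∑ c, (∑ a, tr c a b * ui a) * H.D (p.lk k) (H.t c) (uj b) +
    ∑ a, ∑ c, (∑ b, tr c a b * uj b) * H.D (p.lk k) (H.t c) (ui a) +
    ∑ a, (∑ b, (∑ c, tr c a b * H.D (p.lk k) (H.t c) V) * uj b) * ui a with hF
  have e1 : H.lam * E (H.hp p i j u) = E F := by
    have e2 : ∀ a b, H.lam * E (H.poly p (act i (H.T a) (act j (H.T b) 1)) * uj b * ui a) =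
        ∑ c, E (tr c a b * ui a * H.D (p.lk k) (H.t c) (uj b) +
          tr c a b * uj b * H.D (p.lk k) (H.t c) (ui a) +
          tr c a b * H.D (p.lk k) (H.t c) V * uj b * ui a) := by
      intro a b
      have e3 := H.poly_eig p (act i (H.T a) (act j (H.T b) 1)) k
      rw [← smul_eq_mul, ← map_smul, ← smul_mul_assoc, ← smul_mul_assoc,
        ← neg_neg (H.lam • _), ← e3, neg_mul, neg_mul, sum_mul, sum_mul, map_neg, map_sum,
        ← sum_neg_distrib]
      refine sum_congr rfl fun c _ => ?_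
      have e4 := hi (p.lk k, c) (tr c a b * uj b * ui a)
      simp only [X, Derivation.leibniz, smul_eq_mul, htr, H.D_poly p _ hk] at e4
      rw [neg_eq_iff_add_eq_zero, ← map_add]
      rw [eq_neg_iff_add_eq_zero, ← map_add] at e4
      rw [← e4]
      congr 1
      simp only [htr, t]
      ring
    have e0 : H.hp p i j u =
      ∑ a, ∑ b, H.poly p (act i (H.T a) (act j (H.T b) 1)) * uj b * ui a := rfl
    simp only [e0, map_sum, mul_sum, e2, hF, map_add, sum_add_distrib, sum_mul]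
    refine congrArg₂ (· + ·) (congrArg₂ (· + ·) ?_ ?_) rfl
    · rw [sum_comm]
      exact sum_congr rfl fun b _ => sum_comm
    · exact sum_congr rfl fun b _ => sum_comm
  have e5 : ∀ U, |H.ev U F| ≤ (s1 * Fintype.card n + η) / 2 * H.ev U (H.gr (p.lk i) u) +
      (s2 * Fintype.card n + η) / 2 * H.ev U (H.gr (p.lk j) u) +
      1 / (2 * s1) * H.ev U (H.mix (p.lk k) (p.lk j) u) +
      1 / (2 * s2) * H.ev U (H.mix (p.lk k) (p.lk i) u) := by
    intro U
    obtain ⟨P, hP, Q, hQ, S, hS, h⟩ := Phi_tri (u := fun l => H.r (p.val U l))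
      (fun l => H.uni _) hki hkj
    have h3 : ∀ c a b, H.ev U (tr c a b) = (H.T c * P * H.T a * Q * H.T b * S).trace.re := by
      intro c a b
      rw [← h _ _ _ (H.skew _ (H.mem c)) (H.skew _ (H.mem a)) (H.skew _ (H.mem b)), htr, ev_poly]
    simp only [hF, map_add, map_sum, map_mul, h3, tri_sum_A, tri_sum_B, tri_sum_Z, ev_gr, mix]
    have a1 := sum_young (fun b c => (H.T c * P * H.om (p.lk i) u U * Q * H.T b * S).trace.re)
      (fun b c => H.ev U (H.D (p.lk k) (H.t c) (uj b))) h1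
    have a2 := sum_young (fun a c => (H.T c * P * H.T a * Q * H.om (p.lk j) u U * S).trace.re)
      (fun a c => H.ev U (H.D (p.lk k) (H.t c) (ui a))) h2
    have a3 := hη (p.lk k) U P hP Q hQ S hS (H.om (p.lk i) u U) (H.om (p.lk j) u U)
    have a4 := mul_le_mul_of_nonneg_left (H.tri_second hP hQ hS (H.om (p.lk i) u U))
      (by positivity : 0 ≤ s1 / 2)
    have a5 := mul_le_mul_of_nonneg_left (H.tri_first hP hQ hS (H.om (p.lk j) u U))
      (by positivity : 0 ≤ s2 / 2)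
    simp only [tri_sum_Z] at a1 a2
    refine (abs_add_three _ _ _).trans ((add_le_add_three a1 a2 a3).trans ?_)
    linarith
  rw [← abs_of_pos H.lam_pos, ← abs_mul, e1]
  have e6 : ∀ (c1 c2 c3 c4 : ℝ) (f1 f2 f3 f4 : H.P Λ), c1 * E f1 + c2 * E f2 + c3 * E f3 + c4 * E f4 =
      E (c1 • f1 + c2 • f2 + c3 • f3 + c4 • f4) := by
    intros; simp only [map_add, map_smul, smul_eq_mul]
  rw [e6, abs_le, neg_le, ← map_neg]
  exact ⟨hE.le fun U => by
      simpa only [map_add, ev_smul, map_neg] using (neg_le_abs _).trans (e5 U),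
    hE.le fun U => by simpa only [map_add, ev_smul] using (le_abs_self _).trans (e5 U)⟩

end Grp

end Pool.Agent.Lib.MP_7f377f_mp.SUN
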