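import Pool.Agent.Lib.MP_7f377f_mp.SUNGrp
import Pool.Agent.Lib.MP_7f377f_mp.SUNAbs

set_option autoImplicit false

/-! The algebra of polynomial functions of finitely many links and its derivations. -/

namespace Pool.Agent.Lib.MP_7f377f_mp.SUN

open Finset Matrix MeasureTheory

variable {n : Type} [Fintype n] [DecidableEq n] {ι : Type} [Fintype ι]
  {G : Type} [Group G] [TopologicalSpace G] (H : Grp G n ι) {Λ : Type}

omit [DecidableEq n] in
lemma continuous_ip {Y : Type*} [TopologicalSpace Y] {A B : Y → Matrix n n ℂ} (hA : Continuous A)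
    (hB : Continuous B) : Continuous fun y => ip (A y) (B y) :=
  Complex.continuous_re.comp (hA.matrix_mul hB.matrix_conjTranspose).matrix_trace

namespace Grp

/-- coordinate function -/
noncomputable def coord (e : Λ) (M : Matrix n n ℂ) : C(Λ → G, ℝ) :=
  ⟨fun U => ip (H.r (U e)) M, continuous_ip (H.cont.comp (continuous_apply e)) continuous_const⟩

variable (Λ) in
/-- polynomial functions -/
noncomputable def P : Subalgebra ℝ C(Λ → G, ℝ) :=
  Algebra.adjoin ℝ (Set.range fun p : Λ × Matrix n n ℂ => H.coord p.1 p.2)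

/-- coordinate function as a polynomial -/
noncomputable def co (e : Λ) (M : Matrix n n ℂ) : H.P Λ :=
  ⟨H.coord e M, Algebra.subset_adjoin ⟨(e, M), rfl⟩⟩

lemma co_apply (e : Λ) (M : Matrix n n ℂ) (U : Λ → G) : (H.co e M).1 U = ip (H.r (U e)) M := rfl

lemma P_ext {f g : H.P Λ} (h : ∀ U, f.1 U = g.1 U) : f = g := Subtype.ext (ContinuousMap.ext h)

/-- evaluation at a configuration -/
noncomputable def ev (U : Λ → G) : H.P Λ →ₐ[ℝ] ℝ :=
  (ContinuousMap.evalAlgHom ℝ ℝ U).comp (H.P Λ).val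

lemma ev_def (U : Λ → G) (f : H.P Λ) : H.ev U f = f.1 U := rfl

lemma ev_ext {f g : H.P Λ} (h : ∀ U, H.ev U f = H.ev U g) : f = g := H.P_ext h

lemma ev_co (e : Λ) (M : Matrix n n ℂ) (U : Λ → G) : H.ev U (H.co e M) = ip (H.r (U e)) M := rfl

lemma co_sub (e : Λ) (A B : Matrix n n ℂ) : H.co e (A - B) = H.co e A - H.co e B :=
  H.P_ext fun U => by simp [co_apply, ip_sub_right]

lemma co_add (e : Λ) (A B : Matrix n n ℂ) : H.co e (A + B) = H.co e A + H.co e B :=
  H.P_ext fun U => by simp [co_apply, ip_add_right]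

lemma co_smul (e : Λ) (c : ℝ) (A : Matrix n n ℂ) : H.co e (c • A) = c • H.co e A :=
  H.P_ext fun U => by simp [co_apply, ip_smul_right]

lemma der_ext {D1 D2 : Derivation ℝ (H.P Λ) (H.P Λ)} (h : ∀ e M, D1 (H.co e M) = D2 (H.co e M)) :
    D1 = D2 := by
  refine Derivation.ext_of_adjoin_eq_top _ Algebra.adjoin_adjoin_coe_preimage ?_
  rintro ⟨f, hf⟩ ⟨⟨e, M⟩, rfl⟩
  exact h e M

variable [DecidableEq Λ]

/-- derivative along left translations of one link -/
def HasD (e : Λ) (X : Matrix n n ℂ) (f f' : (Λ → G) → ℝ) : Prop :=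
  ∀ γ, IsCurve H.r γ X → ∀ U, HasDerivAt (fun t => f (Pi.mulSingle e (γ t) * U)) (f' U) 0

variable {H}

lemma HasD.unique {e : Λ} {X : Matrix n n ℂ} (hX : X ∈ H.g) {f f1 f2 : (Λ → G) → ℝ}
    (h1 : H.HasD e X f f1) (h2 : H.HasD e X f f2) (U : Λ → G) : f1 U = f2 U := by
  obtain ⟨γ, hγ⟩ := H.curve X hX
  exact (h1 γ hγ U).unique (h2 γ hγ U)

lemma HasD.add {e : Λ} {X : Matrix n n ℂ} {f f' g g' : (Λ → G) → ℝ} (h1 : H.HasD e X f f')
    (h2 : H.HasD e X g g') : H.HasD e X (fun U => f U + g U) (fun U => f' U + g' U) :=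
  fun γ hγ U => (h1 γ hγ U).add (h2 γ hγ U)

lemma HasD.mul {e : Λ} {X : Matrix n n ℂ} {f f' g g' : (Λ → G) → ℝ} (h1 : H.HasD e X f f')
    (h2 : H.HasD e X g g') :
    H.HasD e X (fun U => f U * g U) (fun U => f U * g' U + g U * f' U) := fun γ hγ U => by
  have := (h1 γ hγ U).mul (h2 γ hγ U)
  simp only [hγ.zero, Pi.mulSingle_one, one_mul] at this
  refine this.congr_deriv ?_
  ring

lemma HasD.exp {e : Λ} {X : Matrix n n ℂ} {f f' : (Λ → G) → ℝ} (h1 : H.HasD e X f f') :
    H.HasD e X (fun U => Real.exp (f U)) (fun U => Real.exp (f U) * f' U) := fun γ hγ U => by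
  have := (h1 γ hγ U).exp
  simpa only [hγ.zero, Pi.mulSingle_one, one_mul] using this

lemma HasD.const (e : Λ) (X : Matrix n n ℂ) (c : ℝ) : H.HasD e X (fun _ => c) (fun _ => 0) :=
  fun _ _ _ => hasDerivAt_const _ _

lemma HasD.at {e : Λ} {X : Matrix n n ℂ} {f f' : (Λ → G) → ℝ} (h : H.HasD e X f f') {γ : ℝ → G}
    (hγ : IsCurve H.r γ X) (U : Λ → G) (s : ℝ) :
    HasDerivAt (fun t => f (Pi.mulSingle e (γ t) * U)) (f' (Pi.mulSingle e (γ s) * U)) s := by
  have h1 := h γ hγ (Pi.mulSingle e (γ s) * U)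
  have h2 : HasDerivAt (fun t => f (Pi.mulSingle e (γ t) * (Pi.mulSingle e (γ s) * U)))
      (f' (Pi.mulSingle e (γ s) * U)) (s - s) := by rwa [sub_self]
  have h3 := h2.comp_sub_const s s
  refine h3.congr_of_eventuallyEq (Filter.Eventually.of_forall fun t => ?_)
  simp only [← mul_assoc, ← Pi.mulSingle_mul, ← hγ.add, sub_add_cancel]

variable (H)

lemma hasD_co (e e' : Λ) (X M : Matrix n n ℂ) : H.HasD e X (H.co e' M).1
    (if e' = e then H.co e (Xᴴ * M) else 0 : H.P Λ).1 := by
  intro γ hγ U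
  by_cases h : e' = e
  · subst h
    simp only [co_apply, Pi.mul_apply, Pi.mulSingle_eq_same, map_mul, if_true]
    have := hγ.der (M * (H.r (U e'))ᴴ)
    simp only [← ip_mul_right] at this
    rwa [ip_mul_left] at this
  · simp only [co_apply, Pi.mul_apply, Pi.mulSingle_eq_of_ne h, if_neg h]
    exact hasDerivAt_const _ _

lemma exists_hasD (e : Λ) (X : Matrix n n ℂ) (f : H.P Λ) : ∃ f' : H.P Λ, H.HasD e X f.1 f'.1 := by
  obtain ⟨f, hf⟩ := f
  induction hf using Algebra.adjoin_induction with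
  | mem x hx =>
    obtain ⟨⟨e', M⟩, rfl⟩ := hx
    exact ⟨_, H.hasD_co e e' X M⟩
  | algebraMap c => exact ⟨0, HasD.const e X c⟩
  | add x y hx hy h1 h2 =>
    obtain ⟨a, ha⟩ := h1
    obtain ⟨b, hb⟩ := h2
    exact ⟨a + b, ha.add hb⟩
  | mul x y hx hy h1 h2 =>
    obtain ⟨a, ha⟩ := h1
    obtain ⟨b, hb⟩ := h2
    exact ⟨⟨x, hx⟩ * b + ⟨y, hy⟩ * a, ha.mul hb⟩

/-- the derivation along `X` in the link `e` -/
noncomputable def D (e : Λ) (X : H.g) : Derivation ℝ (H.P Λ) (H.P Λ) :=
  Derivation.mk'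
    { toFun := fun f => (H.exists_hasD e X f).choose
      map_add' := fun f g => H.P_ext (HasD.unique X.2 (H.exists_hasD e X (f + g)).choose_spec
        ((H.exists_hasD e X f).choose_spec.add (H.exists_hasD e X g).choose_spec))
      map_smul' := fun c f => H.P_ext fun U => by
        have := HasD.unique X.2 (H.exists_hasD e X (c • f)).choose_spec
          (show H.HasD e X (fun U => c * f.1 U) _ from
            (HasD.const e X.1 c).mul (H.exists_hasD e X f).choose_spec) U
        simpa using this }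
    (fun f g => H.P_ext (HasD.unique X.2 (H.exists_hasD e X (f * g)).choose_spec
        ((H.exists_hasD e X f).choose_spec.mul (H.exists_hasD e X g).choose_spec)))

lemma hasD (e : Λ) (X : H.g) (f : H.P Λ) : H.HasD e X f.1 (H.D e X f).1 :=
  (H.exists_hasD e X f).choose_spec

lemma D_co (e e' : Λ) (X : H.g) (M : Matrix n n ℂ) :
    H.D e X (H.co e' M) = if e' = e then H.co e (X.1ᴴ * M) else 0 :=
  H.P_ext (HasD.unique X.2 (H.hasD e X _) (H.hasD_co e e' X M))

lemma D_add (e : Λ) (X Y : H.g) : H.D e (X + Y) = H.D e X + H.D e Y :=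
  H.der_ext fun e' M => by
    simp only [Derivation.add_apply, D_co]
    split_ifs
    · rw [Submodule.coe_add, conjTranspose_add, add_mul, co_add]
    · simp

lemma D_smul (e : Λ) (c : ℝ) (X : H.g) : H.D e (c • X) = c • H.D e X :=
  H.der_ext fun e' M => by
    simp only [Derivation.smul_apply, D_co]
    split_ifs
    · rw [Submodule.coe_smul, conjTranspose_smul, star_trivial, smul_mul_assoc, co_smul]
    · simp

/-- the derivation as a linear function of the direction -/
noncomputable def DL (e : Λ) : H.g →ₗ[ℝ] Derivation ℝ (H.P Λ) (H.P Λ) where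
  toFun := H.D e
  map_add' := H.D_add e
  map_smul' := H.D_smul e

/-- frame vector -/
def t (a : ι) : H.g := ⟨H.T a, H.mem a⟩

/-- bracket -/
def br (X Y : H.g) : H.g := ⟨X.1 * Y.1 - Y.1 * X.1, H.lie _ X.2 _ Y.2⟩

lemma D_pars (e : Λ) (X : H.g) (f : H.P Λ) :
    H.D e X f = ∑ a, ip X.1 (H.T a) • H.D e (H.t a) f := by
  have h : X = ∑ a, ip X.1 (H.T a) • H.t a := by
    apply Subtype.ext
    rw [Submodule.coe_sum]
    exact (H.pars _ X.2).symm
  have h2 := congrArg (fun Y => (Derivation.coeFnAddMonoidHom (H.DL e Y)) f) h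
  simp only [map_sum, map_smul, Finset.sum_apply] at h2
  exact h2

lemma D_comm_same (e : Λ) (X Y : H.g) (f : H.P Λ) :
    H.D e X (H.D e Y f) = H.D e Y (H.D e X f) - H.D e (H.br X Y) f := by
  have h : ⁅H.D e X, H.D e Y⁆ = -H.D e (H.br X Y) := H.der_ext fun e' M => by
    rw [Derivation.commutator_apply, Derivation.neg_apply]
    simp only [D_co]
    split_ifs
    · simp only [D_co, if_true, br, conjTranspose_sub, conjTranspose_mul, sub_mul, co_sub, mul_assoc]
      abel
    · simp
  have := congrArg (fun d => d f) h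
  simp only [Derivation.commutator_apply, Derivation.neg_apply] at this
  linear_combination this

lemma D_comm_ne {e e' : Λ} (h : e ≠ e') (X Y : H.g) (f : H.P Λ) :
    H.D e X (H.D e' Y f) = H.D e' Y (H.D e X f) := by
  have h : ⁅H.D e X, H.D e' Y⁆ = 0 := H.der_ext fun e'' M => by
    rw [Derivation.commutator_apply]
    simp only [D_co]
    split_ifs with h1 h2 h2
    · exact absurd (h2.symm.trans h1) h
    · simp [D_co, h.symm]
    · simp [D_co, h]
    · simp
  have := congrArg (fun d => d f) h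
  simp only [Derivation.commutator_apply, Derivation.zero_apply] at this
  linear_combination this

/-- the gradient in one link -/
noncomputable def om (e : Λ) (u : H.P Λ) (U : Λ → G) : Matrix n n ℂ :=
  ∑ a, H.ev U (H.D e (H.t a) u) • H.T a

lemma om_mem (e : Λ) (u : H.P Λ) (U : Λ → G) : H.om e u U ∈ H.g :=
  H.g.sum_mem fun a _ => H.g.smul_mem _ (H.mem a)

lemma D_apply (e : Λ) (X : H.g) (u : H.P Λ) (U : Λ → G) :
    H.ev U (H.D e X u) = ip X.1 (H.om e u U) := by
  rw [D_pars, om, ip_sum_right]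
  simp only [map_sum, map_smul, smul_eq_mul, ip_smul_right]
  exact sum_congr rfl fun a _ => mul_comm _ _

lemma om_sq (e : Λ) (u : H.P Λ) (U : Λ → G) :
    ip (H.om e u U) (H.om e u U) = 
      ∑ a, H.ev U (H.D e (H.t a) u) * H.ev U (H.D e (H.t a) u) := by
  nth_rewrite 1 [om]
  rw [ip_sum_left]
  refine sum_congr rfl fun a _ => ?_
  rw [ip_smul_left, D_apply]
  rfl

variable [Fintype Λ]

/-- the family of all frame derivations -/
noncomputable def X (i : Λ × ι) : Derivation ℝ (H.P Λ) (H.P Λ) := H.D i.1 (H.t i.2)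

omit [DecidableEq n] in
lemma ip_br (A B C : Matrix n n ℂ) (hA : Aᴴ = -A) : ip (A * B - B * A) C = -ip (A * C - C * A) B := by
  rw [ip_sub_left, ip_mul_left, ip_mul_right, hA, ip_comm _ B, ip_sub_right, neg_mul, mul_neg,
    ip_neg_right, ip_neg_right]
  ring

lemma lap_comm (j : Λ × ι) (f : H.P Λ) : H.X j (lap H.X f) = lap H.X (H.X j f) := by
  obtain ⟨e, b⟩ := j
  rw [lap_apply, lap_apply, map_sum, Fintype.sum_prod_type, Fintype.sum_prod_type]
  refine sum_congr rfl fun e' _ => ?_
  simp only [X]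
  by_cases h : e = e'
  · subst h
    have h1 : ∀ a, H.D e (H.t b) (H.D e (H.t a) (H.D e (H.t a) f)) =
        H.D e (H.t a) (H.D e (H.t a) (H.D e (H.t b) f)) -
        ∑ c, ip (H.br (H.t b) (H.t a)).1 (H.T c) •
          (H.D e (H.t a) (H.D e (H.t c) f) + H.D e (H.t c) (H.D e (H.t a) f)) := by
      intro a
      rw [D_comm_same, H.D_comm_same e (H.t b) (H.t a) f, map_sub, H.D_pars e (H.br _ _),
        H.D_pars e (H.br _ _), map_sum]
      simp only [Derivation.map_smul, smul_add, sum_add_distrib]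
      ring
    simp only [h1, sum_sub_distrib, sub_eq_self]
    set F : ι → ι → H.P Λ := fun a c => ip (H.br (H.t b) (H.t a)).1 (H.T c) •
          (H.D e (H.t a) (H.D e (H.t c) f) + H.D e (H.t c) (H.D e (H.t a) f)) with hF
    have h2 : ∀ a c, F a c = -F c a := by
      intro a c
      simp only [hF, br, t]
      rw [ip_br _ _ _ (H.skew _ (H.mem b)), neg_smul, add_comm]
    have h3 : ∑ a, ∑ c, F a c = -∑ a, ∑ c, F a c := by
      conv_lhs => rw [sum_comm]
      rw [← sum_neg_distrib]
      refine sum_congr rfl fun a _ => ?_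
      rw [← sum_neg_distrib]
      exact sum_congr rfl fun c _ => h2 _ _
    have h4 : (2 : ℝ) • ∑ a, ∑ c, F a c = 0 := by
      rw [two_smul]; nth_rewrite 1 [h3]; simp
    exact (smul_eq_zero.1 h4).resolve_left two_ne_zero
  · exact sum_congr rfl fun a _ => by rw [H.D_comm_ne h, H.D_comm_ne h]

lemma fin_inv (g : H.P Λ) : ∃ S : Submodule ℝ (H.P Λ), FiniteDimensional ℝ S ∧ g ∈ S ∧
    (1 : H.P Λ) ∈ S ∧ ∀ i, ∀ f ∈ S, H.X i f ∈ S := by
  set W : Submodule ℝ (H.P Λ) := Submodule.span ℝ
    (insert 1 (Set.range fun p : Λ × (n × n × Bool) => H.co p.1 (base p.2))) with hW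
  have W1 : (1 : H.P Λ) ∈ W := Submodule.subset_span (Set.mem_insert _ _)
  have Wco : ∀ e M, H.co e M ∈ W := by
    intro e M
    have : H.co e M = ∑ a, ip M (base a) • H.co e (base a) := by
      refine H.ev_ext fun U => ?_
      simp only [map_sum, map_smul, smul_eq_mul, ev_co]
      conv_lhs => rw [← base_pars M, ip_sum_right]
      simp only [ip_smul_right]
    rw [this]
    exact W.sum_mem fun a _ => W.smul_mem _
      (Submodule.subset_span (Set.mem_insert_of_mem _ ⟨(e, a), rfl⟩))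
  have WX : ∀ i, ∀ f ∈ W, H.X i f ∈ W := by
    intro i f hf
    induction hf using Submodule.span_induction with
    | mem x hx =>
      rcases hx with rfl | ⟨p, rfl⟩
      · simp
      · rw [X, D_co]
        split_ifs
        · exact Wco _ _
        · exact W.zero_mem
    | zero => simp
    | add x y _ _ h1 h2 => rw [map_add]; exact W.add_mem h1 h2
    | smul c x _ h1 => rw [Derivation.map_smul]; exact W.smul_mem c h1
  have Wfg : W.FG := Submodule.fg_span ((Set.finite_range _).insert _)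
  have mono : ∀ k, W ^ k ≤ W ^ (k + 1) := fun k f hf => by
    rw [pow_succ, ← mul_one f]
    exact Submodule.mul_mem_mul hf W1
  have mono' : Monotone fun k => W ^ k := monotone_nat_of_le_succ mono
  have inv : ∀ k i, ∀ f ∈ W ^ k, H.X i f ∈ W ^ k := by
    intro k i
    induction k with
    | zero =>
      intro f hf
      rw [pow_zero, Submodule.mem_one] at hf
      obtain ⟨c, rfl⟩ := hf
      simp
    | succ k ih =>
      intro f hf
      rw [pow_succ] at hf ⊢
      refine Submodule.mul_induction_on hf (fun x hx y hy => ?_) (fun x y hx hy => ?_)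
      · rw [Derivation.leibniz, smul_eq_mul, smul_eq_mul, mul_comm y]
        exact add_mem (Submodule.mul_mem_mul hx (WX i y hy)) (Submodule.mul_mem_mul (ih x hx) hy)
      · rw [map_add]; exact add_mem hx hy
  have ex : ∃ k, g ∈ W ^ k := by
    obtain ⟨g, hg⟩ := g
    induction hg using Algebra.adjoin_induction with
    | mem x hx =>
      obtain ⟨⟨e', M⟩, rfl⟩ := hx
      exact ⟨1, by rw [pow_one]; exact Wco e' M⟩
    | algebraMap c => exact ⟨0, by rw [pow_zero, Submodule.mem_one]; exact ⟨c, rfl⟩⟩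
    | add x y hx hy h1 h2 =>
      obtain ⟨a, ha⟩ := h1
      obtain ⟨b, hb⟩ := h2
      exact ⟨max a b, add_mem (mono' (le_max_left a b) ha) (mono' (le_max_right a b) hb)⟩
    | mul x y hx hy h1 h2 =>
      obtain ⟨a, ha⟩ := h1
      obtain ⟨b, hb⟩ := h2
      exact ⟨a + b, by rw [pow_add]; exact Submodule.mul_mem_mul ha hb⟩
  obtain ⟨k, hk⟩ := ex
  refine ⟨W ^ k, Module.Finite.iff_fg.2 (Wfg.pow k), hk, ?_, inv k⟩
  exact mono' (Nat.zero_le k) (show 1 ∈ W ^ 0 by rw [pow_zero]; exact Submodule.one_le.1 le_rfl)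

lemma const_of_X (f : H.P Λ) (h : ∀ i, H.X i f = 0) : ∃ c : ℝ, f = c • (1 : H.P Λ) := by
  have h1 : ∀ e x U, f.1 (Pi.mulSingle e x * U) = f.1 U := by
    intro e x U
    obtain ⟨Y, hY, γ, hγ, rfl⟩ := H.onto x
    have h2 : H.D e ⟨Y, hY⟩ f = 0 := by
      rw [D_pars]
      exact sum_eq_zero fun a _ => by rw [show H.D e (H.t a) f = 0 from h (e, a), smul_zero]
    have h3 := H.hasD e ⟨Y, hY⟩ f
    rw [h2] at h3
    have h4 := is_const_of_deriv_eq_zero (f := fun t => f.1 (Pi.mulSingle e (γ t) * U))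
      (fun s => (h3.at hγ U s).differentiableAt) (fun s => (h3.at hγ U s).deriv) 1 0
    simpa [hγ.zero] using h4
  have h2 : ∀ (s : Finset Λ) (U : Λ → G), f.1 (fun e => if e ∈ s then U e else 1) = f.1 1 := by
    intro s U
    induction s using Finset.induction_on with
    | empty => simp only [notMem_empty, if_false]; rfl
    | insert a s ha ih =>
      rw [← ih, ← h1 a (U a) (fun e => if e ∈ s then U e else 1)]
      congr 1
      funext e
      by_cases he : e = a
      · subst he; simp [ha]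
      · simp [he]
  refine ⟨f.1 1, H.P_ext fun U => ?_⟩
  have := h2 univ U
  simpa using this

end Grp

end Pool.Agent.Lib.MP_7f377f_mp.SUN
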