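import Pool.Agent.Lib.MP_7f377f_mp.SUNPlaq

set_option autoImplicit false

/-! The covariance bound for polynomial observables of a system of plaquettes. -/

namespace Pool.Agent.Lib.MP_7f377f_mp.SUN

open Finset Matrix MeasureTheory

variable {n : Type} [Fintype n] [DecidableEq n] {ι : Type} [Fintype ι]
  {G : Type} [Group G] [TopologicalSpace G] (H : Grp G n ι) {Λ : Type} [DecidableEq Λ]

namespace Grp

lemma gr_nonneg {E : H.P Λ →ₗ[ℝ] ℝ} (hE : H.Mono E) (e : Λ) (u : H.P Λ) : 0 ≤ E (H.gr e u) := by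
  rw [gr, map_sum]; exact sum_nonneg fun a _ => hE.pos _

lemma mix_nonneg {E : H.P Λ →ₗ[ℝ] ℝ} (hE : H.Mono E) (k e : Λ) (u : H.P Λ) :
    0 ≤ E (H.mix k e u) := by
  simp only [mix, map_sum]; exact sum_nonneg fun a _ => sum_nonneg fun c _ => hE.pos _

lemma plaq_est {E : H.P Λ →ₗ[ℝ] ℝ} (hE : H.Mono E) {V : H.P Λ}
    (hi : ∀ i f, E (H.X i f) = -E (f * H.X i V)) {η : ℝ} (η0 : 0 ≤ η)
    (hη : ∀ k U, ∀ P ∈ unitary (Matrix n n ℂ), ∀ Q ∈ unitary (Matrix n n ℂ),
      ∀ S ∈ unitary (Matrix n n ℂ), ∀ A B : Matrix n n ℂ,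
        |(H.om k V U * P * A * Q * B * S).trace.re| ≤ η / 2 * (ip A A + ip B B))
    (p : Plq Λ G) {w : Λ → ℝ} (hw : ∀ e, 0 < w e) {ρ : ℝ} (hρ1 : 1 ≤ ρ)
    (hρ : ∀ i ∈ p.S, ∀ j ∈ p.S, w (p.lk i) ≤ ρ * w (p.lk j)) {b A : ℝ} (hb : 0 < b) (hA1 : 2 ≤ A)
    (hA2 : 16 / 3 * b * Fintype.card n / H.lam ^ 2 + 4 * η / H.lam ≤ A) (u : H.P Λ) :
    ∑ i ∈ p.S, ∑ j ∈ p.S, w (p.lk i) * |E (H.hp p i j u)| ≤
      ρ * A * ∑ i ∈ p.S, w (p.lk i) * E (H.gr (p.lk i) u) +
      1 / b * ∑ j ∈ p.S, ∑ k ∈ p.S.erase j, w (p.lk j) * E (H.mix (p.lk k) (p.lk j) u) := by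
  have g0 := fun e => H.gr_nonneg hE e u
  have m0 := fun k e => H.mix_nonneg hE k e u
  have G0 : 0 ≤ ∑ i ∈ p.S, w (p.lk i) * E (H.gr (p.lk i) u) :=
    sum_nonneg fun i _ => mul_nonneg (hw _).le (g0 _)
  have M0 : 0 ≤ ∑ j ∈ p.S, ∑ k ∈ p.S.erase j, w (p.lk j) * E (H.mix (p.lk k) (p.lk j) u) :=
    sum_nonneg fun i _ => sum_nonneg fun k _ => mul_nonneg (hw _).le (m0 _ _)
  have hl := H.lam_pos
  have N0 : (0 : ℝ) ≤ Fintype.card n := by positivity
  by_cases h3 : 3 ≤ p.S.card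
  · obtain ⟨m, hm⟩ : ∃ m : ℝ, m = (p.S.card : ℝ) := ⟨_, rfl⟩
    have m3 : 3 ≤ m := by rw [hm]; exact_mod_cast h3
    have m4 : m = 3 ∨ m = 4 := by
      have : p.S.card ≤ 4 := by simpa using card_le_univ p.S
      rcases (by omega : p.S.card = 3 ∨ p.S.card = 4) with h | h <;> simp [hm, h]
    obtain ⟨τ, hτ⟩ : ∃ τ : ℝ, τ = m / (m - 1) := ⟨_, rfl⟩
    have τ0 : 0 < τ := hτ ▸ div_pos (by linarith) (by linarith)
    have τ1 : m * τ ≤ 16 / 3 := by rcases m4 with h | h <;> rw [hτ, h] <;> norm_num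
    obtain ⟨s, hs⟩ : ∃ s : ℝ, s = b * τ / H.lam := ⟨_, rfl⟩
    have s0 : 0 < s := by rw [hs]; positivity
    have key := comb p.S h3 (fun i j => H.lam * (w (p.lk i) * |E (H.hp p i j u)|))
      (fun k j => 1 / (2 * s) * (w (p.lk j) * E (H.mix (p.lk k) (p.lk j) u)))
      (fun i => ρ * (s * Fintype.card n + η) / 2 * (w (p.lk i) * E (H.gr (p.lk i) u))) (by
        intro k hk i hi' j hj hki hkj
        have wi := hw (p.lk i)
        have wj := hw (p.lk j)
        have h1 := mul_le_mul_of_nonneg_left (H.hp_ibp hE hi hη p hk hki hkj u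
          (s1 := s * (w (p.lk i) / w (p.lk j))) (s2 := s) (by positivity) s0) wi.le
        have h2 : w (p.lk i) / w (p.lk j) ≤ ρ := by rw [div_le_iff₀ wj]; exact hρ i hi' j hj
        have h4 : (s * (w (p.lk i) / w (p.lk j)) * Fintype.card n + η) / 2 ≤
            ρ * (s * Fintype.card n + η) / 2 := by
          have a1 := mul_le_mul_of_nonneg_left h2 (mul_nonneg s0.le N0)
          have a2 := le_mul_of_one_le_left η0 hρ1
          linarith
        have h5 := mul_le_mul_of_nonneg_right h4 (mul_nonneg wi.le (g0 (p.lk i)))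
        have h6 := mul_le_mul_of_nonneg_right (hρ i hi' j hj)
          (show 0 ≤ (s * Fintype.card n + η) / 2 * E (H.gr (p.lk j) u) from
            mul_nonneg (div_nonneg (add_nonneg (mul_nonneg s0.le N0) η0) zero_le_two) (g0 _))
        have h7 : w (p.lk i) * (1 / (2 * (s * (w (p.lk i) / w (p.lk j)))) *
            E (H.mix (p.lk k) (p.lk j) u)) =
            1 / (2 * s) * (w (p.lk j) * E (H.mix (p.lk k) (p.lk j) u)) := by field_simp
        linarith)
    simp only [← mul_sum] at key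
    simp only [← mul_sum] at M0 ⊢
    rw [← hm, ← hτ] at key
    have e1 : 2 * τ * (1 / (2 * s)) = H.lam * (1 / b) := by rw [hs]; field_simp
    have e2 : 2 * m * (ρ * (s * Fintype.card n + η) / 2) ≤ H.lam * (ρ * A) := by
      have a1 : H.lam * (16 / 3 * b * Fintype.card n / H.lam ^ 2 + 4 * η / H.lam) =
          16 / 3 * (b * Fintype.card n / H.lam) + 4 * η := by field_simp
      have a2 := mul_le_mul_of_nonneg_left hA2 hl.le
      have a3 : m * (s * Fintype.card n) = m * τ * (b * Fintype.card n / H.lam) := by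
        rw [hs]; ring
      have a4 := mul_le_mul_of_nonneg_right τ1 (show 0 ≤ b * Fintype.card n / H.lam by positivity)
      have a5 : m * η ≤ 4 * η := mul_le_mul_of_nonneg_right (by rcases m4 with h | h <;> linarith) η0
      have a6 : m * (s * Fintype.card n + η) ≤ H.lam * A := by linarith
      have := mul_le_mul_of_nonneg_left a6 (show 0 ≤ ρ by linarith)
      linarith
    refine le_of_mul_le_mul_left (key.trans ?_) hl
    rw [← mul_assoc, ← mul_assoc (2 * τ), e1]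
    have := mul_le_mul_of_nonneg_right e2 G0
    linarith
  · have m2 : (p.S.card : ℝ) ≤ 2 := by exact_mod_cast (by omega : p.S.card ≤ 2)
    have h1 : ∀ i ∈ p.S, ∀ j ∈ p.S, w (p.lk i) * |E (H.hp p i j u)| ≤
        ρ / 2 * (w (p.lk i) * E (H.gr (p.lk i) u)) + ρ / 2 * (w (p.lk j) * E (H.gr (p.lk j) u)) := by
      intro i hi' j hj
      have a1 : |E (H.hp p i j u)| ≤ 1 / 2 * (E (H.gr (p.lk i) u) + E (H.gr (p.lk j) u)) := by
        rw [← map_add, ← smul_eq_mul, ← map_smul, abs_le, neg_le, ← map_neg]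
        exact ⟨hE.le fun U => by
            simpa only [map_add, ev_smul, map_neg] using (neg_le_abs _).trans (H.hp_direct p i j u U),
          hE.le fun U => by
            simpa only [map_add, ev_smul] using (le_abs_self _).trans (H.hp_direct p i j u U)⟩
      have a2 := mul_le_mul_of_nonneg_left a1 (hw (p.lk i)).le
      have a3 := mul_le_mul_of_nonneg_right (hρ i hi' j hj) (g0 (p.lk j))
      have a4 := le_mul_of_one_le_left (mul_nonneg (hw (p.lk i)).le (g0 (p.lk i))) hρ1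
      linarith
    refine (sum_le_sum fun i hi' => sum_le_sum fun j hj => h1 i hi' j hj).trans ?_
    simp only [sum_add_distrib, sum_const, nsmul_eq_mul, ← mul_sum] at M0 ⊢
    have a1 := mul_le_mul_of_nonneg_right (m2.trans hA1) (mul_nonneg (show 0 ≤ ρ by linarith) G0)
    have a2 := mul_nonneg (show 0 ≤ 1 / b by positivity) M0
    linarith

variable [Fintype Λ]

lemma hes_poly (E : H.P Λ →ₗ[ℝ] ℝ) (w : Λ → ℝ) (p : Plq Λ G) (u : H.P Λ) :
    ∑ e, w e * ∑ e', E (H.hes e e' (H.poly p 1) u) =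
      ∑ i ∈ p.S, ∑ j ∈ p.S, w (p.lk i) * E (H.hp p i j u) := by
  have h1 : ∀ e, ∑ e', E (H.hes e e' (H.poly p 1) u) =
      ∑ j ∈ p.S, E (H.hes e (p.lk j) (H.poly p 1) u) := by
    intro e
    rw [← sum_image (g := p.lk) (f := fun e' => E (H.hes e e' (H.poly p 1) u)) p.inj]
    refine (sum_subset (subset_univ _) fun e' _ he => ?_).symm
    simp [hes, H.D_poly_zero p _ he]
  simp only [h1]
  rw [← sum_subset (subset_univ (p.S.image p.lk)), sum_image p.inj]
  · refine sum_congr rfl fun i hi => ?_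
    rw [mul_sum]
    refine sum_congr rfl fun j hj => ?_
    simp only [hes, hp, H.D_poly p _ hj, H.D_poly p _ hi, t]
  · intro e _ he
    rw [sum_eq_zero, mul_zero]
    intro j hj
    simp [hes, H.D_poly p _ hj, H.D_poly_zero p _ he]

variable {Pl : Type} [Fintype Pl] (pl : Pl → Plq Λ G) (c : Pl → ℝ)

/-- the action of a system of plaquettes -/
noncomputable def action : H.P Λ := ∑ p, c p • H.poly (pl p) 1

omit [Fintype Λ] in
lemma om_action {B : ℝ} (hB : ∀ e, ∑ p, (if e ∈ (pl p).S.image (pl p).lk then |c p| else 0) ≤ B)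
    (k : Λ) (U : Λ → G) {P Q S : Matrix n n ℂ} (hP : P ∈ unitary (Matrix n n ℂ))
    (hQ : Q ∈ unitary (Matrix n n ℂ)) (hS : S ∈ unitary (Matrix n n ℂ)) (A C : Matrix n n ℂ) :
    |(H.om k (H.action pl c) U * P * A * Q * C * S).trace.re| ≤
      H.kap * B / 2 * (ip A A + ip C C) := by
  have h1 : H.om k (H.action pl c) U = ∑ p, c p • H.om k (H.poly (pl p) 1) U := by
    simp only [om, action, map_sum, Derivation.map_smul, ev_smul, sum_smul, smul_sum, smul_smul]
    exact sum_comm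
  rw [h1, ← tri_sum_Z]
  refine (abs_sum_le_sum_abs _ _).trans ?_
  have h0 : 0 ≤ H.kap / 2 * (ip A A + ip C C) :=
    mul_nonneg (by have := H.kap_pos; positivity) (add_nonneg (ip_self_nonneg _) (ip_self_nonneg _))
  have h2 := mul_le_mul_of_nonneg_left (hB k) h0
  rw [mul_sum] at h2
  refine (sum_le_sum fun p _ => ?_).trans (h2.trans (le_of_eq (by ring)))
  rw [abs_mul]
  split_ifs with h
  · obtain ⟨i, hi, rfl⟩ := mem_image.1 h
    obtain ⟨B, hB, h3⟩ := H.om_poly (pl p) hi U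
    rw [h3]
    exact mul_le_mul_of_nonneg_right (tri_op hP hQ hS H.kap_pos (H.hkap B hB) A C) (abs_nonneg _)
  · simp [om, H.D_poly_zero _ _ h]

theorem hes_action {E : H.P Λ →ₗ[ℝ] ℝ} (hE : H.Mono E)
    (hi : ∀ i f, E (H.X i f) = -E (f * H.X i (H.action pl c))) {b B A ρ : ℝ} (b0 : 0 < b)
    (B0 : 0 ≤ B) (hB : ∀ e, ∑ p, (if e ∈ (pl p).S.image (pl p).lk then |c p| else 0) ≤ B)
    (hb : ∀ e k, k ≠ e → ∑ p, (if e ∈ (pl p).S.image (pl p).lk ∧ k ∈ (pl p).S.image (pl p).lk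
      then |c p| else 0) ≤ b) {w : Λ → ℝ} (hw : ∀ e, 0 < w e) (hρ1 : 1 ≤ ρ)
    (hρ : ∀ p, ∀ i ∈ (pl p).S, ∀ j ∈ (pl p).S, w ((pl p).lk i) ≤ ρ * w ((pl p).lk j))
    (hA1 : 2 ≤ A) (hA2 : 16 / 3 * b * Fintype.card n / H.lam ^ 2 + 4 * (H.kap * B) / H.lam ≤ A)
    (u : H.P Λ) : ∑ e, w e * ∑ e', E (H.hes e e' (H.action pl c) u) ≤
      ρ * A * B * ∑ e, w e * E (H.gr e u) + ∑ e, w e * ∑ k ∈ univ.erase e, E (H.mix k e u) := by
  have g0 := fun e => H.gr_nonneg hE e u
  have m0 := fun k e => H.mix_nonneg hE k e u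
  have h1 : ∑ e, w e * ∑ e', E (H.hes e e' (H.action pl c) u) =
      ∑ p, c p * ∑ e, w e * ∑ e', E (H.hes e e' (H.poly (pl p) 1) u) := by
    have : ∀ e e', E (H.hes e e' (H.action pl c) u) =
        ∑ p, c p * E (H.hes e e' (H.poly (pl p) 1) u) := by
      intro e e'
      simp only [hes, action, map_sum, Derivation.map_smul, sum_mul, smul_mul_assoc, map_smul,
        smul_eq_mul, mul_sum]
      rw [sum_comm]
      refine (sum_congr rfl fun a _ => sum_comm).trans (sum_comm.trans ?_)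
      exact sum_congr rfl fun p _ => sum_comm
    simp only [this, mul_sum]
    refine (sum_congr rfl fun a _ => sum_comm).trans (sum_comm.trans ?_)
    exact sum_congr rfl fun p _ => sum_congr rfl fun e _ => sum_congr rfl fun e' _ => by ring
  have h2 : ∀ p, c p * ∑ e, w e * ∑ e', E (H.hes e e' (H.poly (pl p) 1) u) ≤
      ρ * A * ∑ e, (if e ∈ (pl p).S.image (pl p).lk then |c p| else 0) * (w e * E (H.gr e u)) +
      1 / b * ∑ e, ∑ k ∈ univ.erase e,
        (if e ∈ (pl p).S.image (pl p).lk ∧ k ∈ (pl p).S.image (pl p).lk then |c p| else 0) *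
          (w e * E (H.mix k e u)) := by
    intro p
    have a1 := H.plaq_est hE hi (mul_nonneg H.kap_pos.le B0)
      (fun k U P hP Q hQ S hS A C => H.om_action pl c hB k U hP hQ hS A C) (pl p) hw hρ1 (hρ p) b0
      hA1 hA2 u
    have a2 : ∑ e, (if e ∈ (pl p).S.image (pl p).lk then |c p| else 0) * (w e * E (H.gr e u)) =
        |c p| * ∑ i ∈ (pl p).S, w ((pl p).lk i) * E (H.gr ((pl p).lk i) u) := by
      rw [← sum_image (g := (pl p).lk) (f := fun e => w e * E (H.gr e u)) (pl p).inj]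
      simp only [ite_mul, zero_mul, sum_ite_mem, univ_inter, mul_sum]
    have a3 : ∑ e, ∑ k ∈ univ.erase e,
        (if e ∈ (pl p).S.image (pl p).lk ∧ k ∈ (pl p).S.image (pl p).lk then |c p| else 0) *
          (w e * E (H.mix k e u)) = |c p| * ∑ j ∈ (pl p).S, ∑ k ∈ (pl p).S.erase j,
            w ((pl p).lk j) * E (H.mix ((pl p).lk k) ((pl p).lk j) u) := by
      simp only [ite_and, ite_mul, zero_mul, sum_ite_irrel, sum_const_zero, sum_ite_mem,
        univ_inter]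
      rw [sum_image (pl p).inj, mul_sum]
      refine sum_congr rfl fun j hj => ?_
      rw [mul_sum, ← sum_image (g := (pl p).lk)
        (f := fun k => |c p| * (w ((pl p).lk j) * E (H.mix k ((pl p).lk j) u)))
        ((pl p).inj.mono (coe_subset.2 (erase_subset _ _)))]
      congr 1
      ext k
      simp only [mem_inter, mem_erase, mem_univ, and_true, mem_image]
      constructor
      · rintro ⟨h, i, hi, rfl⟩
        exact ⟨i, ⟨fun h' => h (by rw [h']), hi⟩, rfl⟩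
      · rintro ⟨i, ⟨h, hi⟩, rfl⟩
        exact ⟨fun h' => h ((pl p).inj hi hj h'), i, hi, rfl⟩
    rw [a2, a3, hes_poly]
    refine (le_abs_self _).trans ?_
    rw [abs_mul, mul_left_comm, mul_left_comm (1 / b), ← mul_add]
    refine mul_le_mul_of_nonneg_left (le_trans ?_ a1) (abs_nonneg _)
    refine (abs_sum_le_sum_abs _ _).trans (sum_le_sum fun i _ =>
      (abs_sum_le_sum_abs _ _).trans (sum_le_sum fun j _ => ?_))
    rw [abs_mul, abs_of_pos (hw _)]
  rw [h1]
  refine (sum_le_sum fun p _ => h2 p).trans ?_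
  rw [sum_add_distrib, ← mul_sum, ← mul_sum, sum_comm, mul_assoc (ρ * A)]
  refine add_le_add (mul_le_mul_of_nonneg_left ?_ (by positivity)) ?_
  · rw [mul_sum]
    refine sum_le_sum fun e _ => ?_
    rw [← sum_mul]
    exact mul_le_mul_of_nonneg_right (hB e) (mul_nonneg (hw e).le (g0 e))
  · rw [sum_comm, mul_sum]
    refine sum_le_sum fun e _ => ?_
    rw [sum_comm, mul_sum, mul_sum]
    refine sum_le_sum fun k hk => ?_
    rw [← sum_mul, ← mul_assoc]
    refine mul_le_of_le_one_left (mul_nonneg (hw e).le (m0 k e)) ?_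
    rw [one_div, inv_mul_le_iff₀ b0, mul_one]
    exact hb e k (ne_of_mem_erase hk)

variable [IsTopologicalGroup G] [CompactSpace G] [SecondCountableTopology G] [MeasurableSpace G]
  [BorelSpace G] (μ : Measure G) [μ.IsHaarMeasure] [IsProbabilityMeasure μ]

theorem cov_action {b B A ρ : ℝ} (b0 : 0 < b)
    (B0 : 0 ≤ B) (hB : ∀ e, ∑ p, (if e ∈ (pl p).S.image (pl p).lk then |c p| else 0) ≤ B)
    (hb : ∀ e k, k ≠ e → ∑ p, (if e ∈ (pl p).S.image (pl p).lk ∧ k ∈ (pl p).S.image (pl p).lk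
      then |c p| else 0) ≤ b) {w : Λ → ℝ} (hw : ∀ e, 0 < w e) (hρ1 : 1 ≤ ρ)
    (hρ : ∀ p, ∀ i ∈ (pl p).S, ∀ j ∈ (pl p).S, w ((pl p).lk i) ≤ ρ * w ((pl p).lk j))
    (hA1 : 2 ≤ A) (hA2 : 16 / 3 * b * Fintype.card n / H.lam ^ 2 + 4 * (H.kap * B) / H.lam ≤ A)
    {K : ℝ} (hK : 0 < K) (hK2 : ρ * A * B ≤ H.ric - K) (f g : H.P Λ) :
    |H.ex (H.gibbs μ (H.action pl c)) (f * g) -
      H.ex (H.gibbs μ (H.action pl c)) f * H.ex (H.gibbs μ (H.action pl c)) g| ≤
      1 / K * √(∑ e, (w e)⁻¹ * H.ex (H.gibbs μ (H.action pl c)) (H.gr e f)) *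
        √(∑ e, w e * H.ex (H.gibbs μ (H.action pl c)) (H.gr e g)) := by
  refine H.cov_poly μ _ hw hK (fun u => ?_) f g
  refine (H.hes_action pl c (H.ex_mono _) (H.gibbs_ibp μ _) b0 B0 hB hb hw hρ1 hρ hA1 hA2 u).trans ?_
  refine add_le_add_left (mul_le_mul_of_nonneg_right hK2 ?_) _
  exact sum_nonneg fun e _ => mul_nonneg (hw e).le (H.gr_nonneg (H.ex_mono _) e u)

end Grp

end Pool.Agent.Lib.MP_7f377f_mp.SUN
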