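import Pool.Agent.Lib.MP_7f377f_mp.SmeA
import Pool.Agent.Lib.MP_7f377f_mp.SmeB

/-! The free correlation function in closed form and the expansion of the lattice correlation. -/

noncomputable section

namespace Pool.Agent.Lib.MP_7f377f_mp.YM5

open MeasureTheory Filter Topology Weak Real
open scoped Quaternion

set_option linter.unusedSectionVars false

variable {n k : ℕ}

theorem maxwell_four (y : R4) (a b : Fin 4 × Fin 4) : maxwell y a b = (π ^ 2)⁻¹ *
    ((mirror y a.1 b.1 * mirror y a.2 b.2 - mirror y a.1 b.2 * mirror y a.2 b.1) / ‖y‖ ^ 4) := by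
  have e : ((4 : ℕ) : ℝ) / 2 = (2 : ℕ) := by norm_num
  have e2 : ∀ i j, hessG y i j = (π ^ 2)⁻¹ / ‖y‖ ^ 4 / 2 *
      ((if i = j then 1 else 0) - 4 * y i * y j / ‖y‖ ^ 2) := fun i j => by
    rw [hessG, e, rpow_natCast, Nat.cast_ofNat, Real.Gamma_two, Nat.cast_ofNat]
    ring
  have e3 : ∀ (i j : Fin 4) (t : ℝ), (if i = j then t else 0) = (if i = j then 1 else 0) * t :=
    fun i j t => by split_ifs <;> simp
  rw [maxwell, e3 a.2 b.2, e3 a.2 b.1, e3 a.1 b.2, e3 a.1 b.1]
  simp only [e2, mirror]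
  ring

/-- weight of a pair of directions -/
def wt (a : Fin 4 × Fin 4) : ℝ := if a.1 < a.2 then 2⁻¹ else 0

theorem wt_nonneg (a : Fin 4 × Fin 4) : 0 ≤ wt a := by
  unfold wt
  split_ifs <;> norm_num

/-- loop sum of the action density for a given propagator -/
def loops (K : Fin k → Fin k → Fin 4 × Fin 4 → Fin 4 × Fin 4 → ℝ) : ℝ :=
  ∑ a : Fin k → Fin 4 × Fin 4, (∏ i, wt (a i)) * loopSum 3 fun α γ => K α.1 γ.1 (a α.1) (a γ.1)

theorem loops_maxwell (y : Fin k → R4) :
    loops (fun i j => maxwell (y j - y i)) = (π ^ 2)⁻¹ ^ k * free y := by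
  simp only [loops, loopSum, free, Finset.mul_sum]
  rw [Finset.sum_comm]
  refine Finset.sum_congr rfl fun σ _ => ?_
  split_ifs with hσ
  · rw [Finset.mul_sum]
    refine Finset.sum_congr rfl fun a _ => ?_
    rw [Finset.sum_const, Finset.card_univ, Fintype.card_fun, Fintype.card_bool, Fintype.card_fin,
      nsmul_eq_mul, Nat.cast_pow, Nat.cast_ofNat, mul_left_comm (_ ^ k), mul_left_comm (_ ^ k),
      mul_left_comm]
    congr 1
    rw [← Fin.prod_const k, ← Fin.prod_const k, ← Finset.prod_mul_distrib,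
      ← Finset.prod_mul_distrib, ← Finset.prod_mul_distrib]
    refine Finset.prod_congr rfl fun i _ => ?_
    rw [wt, maxwell_four]
    split_ifs
    · ring
    · ring
  · simp

theorem free_two (y : Fin 2 → R4) (h : y 0 ≠ y 1) : free y = 9 / ‖y 0 - y 1‖ ^ 8 := by
  have h0 : ‖y 0 - y 1‖ ≠ 0 := norm_ne_zero_iff.2 (sub_ne_zero.2 h)
  have hs : ∀ σ : Equiv.Perm (Fin 2), (∀ i, σ i ≠ i) ↔ σ = Equiv.swap 0 1 := by decide
  have hc : (Equiv.swap (0 : Fin 2) 1).cycleType.card = 1 :=
    Equiv.Perm.card_cycleType_eq_one.2 (Equiv.Perm.isCycle_swap (by decide))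
  have hm : ∀ i j, mirror (y 1 - y 0) i j = mirror (y 0 - y 1) i j := fun i j => by
    rw [mirror, mirror, norm_sub_rev, PiLp.sub_apply, PiLp.sub_apply, PiLp.sub_apply,
      PiLp.sub_apply]
    ring
  simp only [free, hs, Finset.sum_ite_eq', Finset.mem_univ, if_true, hc, Fin.prod_univ_two,
    Equiv.swap_apply_left, Equiv.swap_apply_right, hm, norm_sub_rev (y 1)]
  rw [← (finTwoArrowEquiv (Fin 4 × Fin 4)).symm.sum_comp]
  generalize y 0 - y 1 = v at h0
  obtain ⟨u, hu⟩ : ∃ u : Fin 4 → ℝ, u = fun i => v i / ‖v‖ := ⟨_, rfl⟩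
  have e : ∀ i j, mirror v i j = (if i = j then 1 else 0) - 2 * u i * u j := fun i j => by
    rw [mirror, hu]
    ring
  have e1 : u 0 ^ 2 + u 1 ^ 2 + u 2 ^ 2 + u 3 ^ 2 = 1 := by
    have := EuclideanSpace.real_norm_sq_eq v
    rw [Fin.sum_univ_four] at this
    simp only [hu, div_pow, ← add_div, ← this]
    exact div_self (pow_ne_zero 2 h0)
  simp only [finTwoArrowEquiv_symm_apply, Matrix.cons_val_zero, Matrix.cons_val_one,
    Fintype.sum_prod_type, Fin.sum_univ_four, e]
  simp only [Fin.isValue, Fin.reduceLT, Fin.reduceEq, lt_self_iff_false, if_true, if_false,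
    mul_zero, zero_mul, add_zero, zero_add]
  field_simp
  linear_combination 36 * (u 0 ^ 2 + u 1 ^ 2 + u 2 ^ 2 + u 3 ^ 2) * e1

theorem loops_tendsto (K : ℕ → Fin k → Fin k → Fin 4 × Fin 4 → Fin 4 × Fin 4 → ℝ)
    (K' : Fin k → Fin k → Fin 4 × Fin 4 → Fin 4 × Fin 4 → ℝ)
    (h : ∀ i j a b, j ≠ i → Tendsto (fun n => K n i j a b) atTop (𝓝 (K' i j a b))) :
    Tendsto (fun n => loops (K n)) atTop (𝓝 (loops K')) :=
  tendsto_finsetSum _ fun _ _ => (loopSum_tendsto 3 _ _ fun _ _ h' => h _ _ _ _ h').const_mul _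

theorem loops_div (K : Fin k → Fin k → Fin 4 × Fin 4 → Fin 4 × Fin 4 → ℝ) (c : ℝ) :
    loops K / c ^ k = loops fun i j a b => K i j a b / c := by
  simp only [loops, Finset.sum_div, mul_div_assoc, loopSum_div]

variable [NeZero n] [MeasurableSpace SU2] [BorelSpace SU2] (h : Measure SU2) [h.IsHaarMeasure]
  [IsProbabilityMeasure h]

/-- centred correlation of single plaquette energies -/
def pc (r : ℝ) (x : Fin k → Site 4 n) (a : Fin k → Fin 4 × Fin 4) : ℝ :=
  letI := quatHS
  ∫ U, ∏ i, (OU rho r (x i) (a i) (a i) U -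
    ∫ V, OU rho r (x i) (a i) (a i) V ∂(nu h rho 4 n (r ^ 2 / 4))) ∂(nu h rho 4 n (r ^ 2 / 4))

theorem corr_expand {b r : ℝ} (hr : r ^ 2 = 2 * b) (f : Fin k → T4 → ℝ) :
    b ^ k * corr h b n f = ∑ x : Fin k → Site 4 n,
      (∏ i, f i fun l => ZMod.toAddCircle (x i l)) *
        ∑ a : Fin k → Fin 4 × Fin 4, (∏ i, wt (a i)) * pc h r x a := by
  let _ := quatHS
  have e0 : wilson h b n = nu h rho 4 n (r ^ 2 / 4) := by
    rw [wilson_nu, hr]; congr 1; ring
  have := nu_prob (d := 4) (L := n) h rho rho_cont (r ^ 2 / 4)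
  have cO := continuous_OU (d := 4) (L := n) rho rho_cont r
  have e1 : ∀ (g : T4 → ℝ) (U : Cfg n), b * field g U = ∑ x : Site 4 n,
      g (fun l => ZMod.toAddCircle (x l)) * ∑ a, wt a * OU rho r x a a U := fun g U => by
    rw [field, Finset.mul_sum]
    refine Finset.sum_congr rfl fun x _ => ?_
    rw [mul_left_comm, dens_eq, Fintype.sum_prod_type, Finset.mul_sum]
    congr 1
    refine Finset.sum_congr rfl fun i _ => ?_
    rw [Finset.mul_sum]
    refine Finset.sum_congr rfl fun j _ => ?_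
    rw [OU_diag, wt, hr]
    split_ifs
    · ring
    · ring
  have e2 : ∀ (g : T4 → ℝ) (U : Cfg n),
      b * (field g U - ∫ V, field g V ∂(nu h rho 4 n (r ^ 2 / 4))) = ∑ x : Site 4 n,
      g (fun l => ZMod.toAddCircle (x l)) * ∑ a, wt a * (OU rho r x a a U -
        ∫ V, OU rho r x a a V ∂(nu h rho 4 n (r ^ 2 / 4))) := fun g U => by
    rw [mul_sub, ← integral_const_mul]
    simp only [e1, mul_sub, Finset.sum_sub_distrib]
    rw [integral_finsetSum _ fun x _ => cint _ (by fun_prop)]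
    congr 1
    refine Finset.sum_congr rfl fun x _ => ?_
    rw [integral_const_mul, integral_finsetSum _ fun x _ => cint _ (by fun_prop)]
    simp only [integral_const_mul]
  rw [corr, e0, ← integral_const_mul, ← Fin.prod_const k]
  simp only [← Finset.prod_mul_distrib, e2]
  simp only [Fintype.prod_sum, Finset.prod_mul_distrib]
  rw [integral_finsetSum _ fun x _ => cint _ (by fun_prop)]
  refine Finset.sum_congr rfl fun x _ => ?_
  rw [integral_const_mul, integral_finsetSum _ fun x _ => cint _ (by fun_prop)]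
  simp only [integral_const_mul, pc]

omit [MeasurableSpace SU2] [BorelSpace SU2] in
theorem sum_lift (g : (Fin k → Fin 4 → ℤ) → ℝ)
    (hg : ∀ z, g z ≠ 0 → ∀ i l, (z i l).natAbs * 2 < n) :
    ∑ x : Fin k → Site 4 n, g (fun i => lift (x i)) = ∑' z, g z := by
  rw [← tsum_fintype (L := SummationFilter.unconditional _)]
  refine Function.Injective.tsum_eq (g := fun (x : Fin k → Site 4 n) i => lift (x i))
    (fun x y hxy => funext fun i => lift_inj (congrFun hxy i)) fun z hz => ?_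
  exact ⟨fun i l => z i l, funext fun i => lift_cast _ (hg z hz i)⟩

end Pool.Agent.Lib.MP_7f377f_mp.YM5
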