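import Pool.Agent.Lib.MP_7f377f_mp.SmeC

/-! The smeared weak coupling limit. -/

noncomputable section

namespace Pool.Agent.Lib.MP_7f377f_mp.YM5

open MeasureTheory Filter Topology Weak Real
open scoped Quaternion

set_option linter.unusedSectionVars false

variable {k : ℕ}

/-- the scaling limit of the lattice Green function -/
def Green (κ : Fin 4 → Fin 4 → (Fin 4 → ℤ) → ℝ) : Prop :=
  ∀ (i j : Fin 4) (y : R4) (ε : ℕ → ℝ) (x : ℕ → Fin 4 → ℤ), y ≠ 0 → (∀ n, 0 < ε n) →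
    Tendsto ε atTop (𝓝 0) → (∀ l, Tendsto (fun n => ε n * x n l) atTop (𝓝 (y l))) →
    Tendsto (fun n => κ i j (x n) / ε n ^ 4) atTop (𝓝 (hessG y i j))

theorem Green.kM {κ : Fin 4 → Fin 4 → (Fin 4 → ℤ) → ℝ} (hκ : Green κ) {y : R4} {ε : ℕ → ℝ}
    {x : ℕ → Fin 4 → ℤ} (hy : y ≠ 0) (h0 : ∀ n, 0 < ε n) (h1 : Tendsto ε atTop (𝓝 0))
    (hx : ∀ l, Tendsto (fun n => ε n * x n l) atTop (𝓝 (y l))) (a b : Fin 4 × Fin 4) :
    Tendsto (fun n => kM κ (x n) a b / ε n ^ 4) atTop (𝓝 (maxwell y a b)) := by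
  have ki : ∀ (P : Prop) [Decidable P] i j, Tendsto
      (fun n => (if P then κ j i (x n) else 0) / ε n ^ 4) atTop
      (𝓝 (if P then hessG y i j else 0)) := fun P _ i j => by
    split_ifs
    · rw [← hessG_symm]; exact hκ j i y ε x hy h0 h1 hx
    · simp
  simp only [Weak.kM, maxwell, add_div, sub_div]
  exact (((ki _ _ _).sub (ki _ _ _)).sub (ki _ _ _)).add (ki _ _ _)

/-- rescaled lattice points -/
def pt (ε : ℝ) (z : Fin 4 → ℤ) : R4 := WithLp.toLp 2 fun l => ε * z l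

theorem pt_tendsto {y : R4} {ε : ℕ → ℝ} {x : ℕ → Fin 4 → ℤ}
    (hx : ∀ l, Tendsto (fun n => ε n * x n l) atTop (𝓝 (y l))) :
    Tendsto (fun n => pt (ε n) (x n)) atTop (𝓝 y) :=
  ((PiLp.continuous_toLp 2 _).tendsto y.ofLp).comp (tendsto_pi_nhds.2 hx)

theorem supp_bound {f : Fin k → R4 → ℝ} (hf : ∀ i, HasCompactSupport (f i)) :
    ∃ R : ℝ, 0 < R ∧ ∀ i y, f i y ≠ 0 → ∀ l, |y l| ≤ R := by
  obtain ⟨R, R0, hR⟩ := (isCompact_iUnion hf).isBounded.exists_pos_norm_le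
  exact ⟨R, R0, fun i y hy l => (PiLp.norm_apply_le y l).trans
    (hR y (Set.mem_iUnion.2 ⟨i, subset_tsupport _ hy⟩))⟩

theorem free_riemann {κ : Fin 4 → Fin 4 → (Fin 4 → ℤ) → ℝ} (hκ : Green κ) {f : Fin k → R4 → ℝ}
    (hc : ∀ i, Continuous (f i)) (hs : ∀ i, HasCompactSupport (f i))
    (hd : Pairwise fun i j => Disjoint (tsupport (f i)) (tsupport (f j))) :
    Tendsto (fun ε => ε ^ (4 * k) * ∑' z : Fin k → Fin 4 → ℤ, (∏ i, f i (pt ε (z i))) *
      (loops (fun i j => kM κ (z j - z i)) / (ε ^ 4) ^ k)) (𝓝[>] 0)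
      (𝓝 (∫ y : Fin k → R4, (∏ i, f i (y i)) * loops fun i j => maxwell (y j - y i))) ∧
    Integrable fun y : Fin k → R4 => (∏ i, f i (y i)) * loops fun i j => maxwell (y j - y i) := by
  obtain ⟨R, -, hR⟩ := supp_bound hs
  refine riemann _ _ R (fun y ε z h0 h1 hz => ?_) fun ε z _ hz i =>
    hR i (pt ε (z i)) (Finset.prod_ne_zero_iff.1 (left_ne_zero_of_mul hz) i (Finset.mem_univ i))
  have hp := fun i => pt_tendsto (hz i)
  by_cases hy : ∀ i, y i ∈ tsupport (f i)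
  · refine (tendsto_finsetProd _ fun i _ => ((hc i).tendsto _).comp (hp i)).mul ?_
    simp only [loops_div]
    refine loops_tendsto _ _ fun i j a b hij => hκ.kM (sub_ne_zero.2 fun e => ?_) h0 h1
      (fun l => by simpa [mul_sub] using (hz j l).sub (hz i l)) a b
    exact Set.disjoint_left.1 (hd hij) (hy j) (e ▸ hy i)
  · obtain ⟨i, hi⟩ := not_forall.1 hy
    have h2 : f i (y i) = 0 := image_eq_zero_of_notMem_tsupport hi
    rw [Finset.prod_eq_zero (Finset.mem_univ i) h2, zero_mul]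
    refine tendsto_const_nhds.congr' ?_
    filter_upwards [(hp i).eventually (notMem_tsupport_iff_eventuallyEq.1 hi)] with n hn
    rw [Finset.prod_eq_zero (Finset.mem_univ i) hn, zero_mul]

theorem abs_riemann {f : Fin k → R4 → ℝ} (hc : ∀ i, Continuous (f i))
    (hs : ∀ i, HasCompactSupport (f i)) :
    Tendsto (fun ε => ε ^ (4 * k) * ∑' z : Fin k → Fin 4 → ℤ, |∏ i, f i (pt ε (z i))|) (𝓝[>] 0)
      (𝓝 (∫ y : Fin k → R4, |∏ i, f i (y i)|)) := by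
  obtain ⟨R, -, hR⟩ := supp_bound hs
  exact (riemann _ _ R (fun y ε z _ _ hz => (tendsto_finsetProd _ fun i _ =>
    ((hc i).tendsto _).comp (pt_tendsto (hz i))).abs) fun ε z _ hz i =>
    hR i _ (Finset.prod_ne_zero_iff.1 (abs_ne_zero.1 hz) i (Finset.mem_univ i))).1

variable [MeasurableSpace SU2] [BorelSpace SU2] (h : Measure SU2) [h.IsHaarMeasure]
  [IsProbabilityMeasure h]

/-- the quantitative lattice theorem for the sides in the class `P` -/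
def Lat (P : ℕ → Prop) : Prop :=
  ∃ κ, Green κ ∧ ∀ m : ℕ, ∃ (C₀ : ℝ) (q : ℕ), 1 ≤ C₀ ∧ 1 ≤ q ∧ ∀ (s L : ℕ) [NeZero L] (r : ℝ),
    1 ≤ s → P L → C₀ * s ^ q ≤ r → r ^ 2 ≤ L → ∀ (x : Fin m → Site 4 L) (a : Fin m → Fin 4 × Fin 4),
    (∀ i, inBox s (x i)) → |pc h r x a -
      loopSum 3 fun α γ => kM κ (lift (x γ.1 - x α.1)) (a α.1) (a γ.1)| ≤ 1 / s

theorem lat_even : Lat h fun L => ∃ l, L = 2 * l := by
  let _ := quatHS
  obtain ⟨κ, h1, h2⟩ := lattice rho h rho_cont 4 (by norm_num)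
  refine ⟨κ, h1, fun m => ?_⟩
  obtain ⟨C₀, q, h3, h4, h5⟩ := h2 m
  refine ⟨C₀, q, h3, h4, fun s L _ r hs ⟨l, hl⟩ hr hL x a hx => ?_⟩
  have := h5 s L l r hs hl hr hL x (fun i _ => a i) hx
  rwa [finrank_lie] at this

theorem smear_of {P : ℕ → Prop} (hP : Lat h P) (k : ℕ) :
    ∃ C : ℕ, ∀ f : Fin k → R4 → ℝ, (∀ i, Continuous (f i)) → (∀ i, HasCompactSupport (f i)) →
      (Pairwise fun i j => Disjoint (tsupport (f i)) (tsupport (f j))) →
      ∀ η > 0, ∃ D₀ : ℝ, ∀ (n : ℕ) [NeZero n] (b d : ℝ), P n →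
      D₀ ≤ n * d → (n * d) ^ C ≤ b → 2 * b ≤ n →
      |b ^ k * corr h b n (fun i => zoom d (f i)) -
        (π ^ 2)⁻¹ ^ k * ∫ y : Fin k → R4, (∏ i, f i (y i)) * free y| ≤ η := by
  obtain ⟨κ, hκ, hm⟩ := hP
  obtain ⟨C₀, q, hC₀, hq, hL⟩ := hm k
  obtain ⟨p, hp⟩ : ∃ p, p = 4 * k + 2 := ⟨_, rfl⟩
  refine ⟨(p * q + 1) * 2, fun f hc hs hd η hη => ?_⟩
  obtain ⟨R, R0, hR⟩ := supp_bound hs
  obtain ⟨c, hc'⟩ : ∃ c, c = ∑ a : Fin k → Fin 4 × Fin 4, ∏ i, wt (a i) := ⟨_, rfl⟩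
  have t1 := (free_riemann hκ hc hs hd).1
  simp only [loops_maxwell, mul_left_comm _ ((π ^ 2)⁻¹ ^ k), integral_const_mul] at t1
  have t2 := ((abs_riemann hc hs).mul_const c).mul
    (tendsto_nhdsWithin_of_tendsto_nhds (s := Set.Ioi (0 : ℝ)) (tendsto_id (x := 𝓝 0)))
  rw [mul_zero] at t2
  obtain ⟨D₀, hD⟩ := eventually_atTop.1 ((tendsto_inv_atTop_nhdsGT_zero.eventually
    ((Metric.tendsto_nhds.1 t1 _ (half_pos hη)).and (t2.eventually_lt_const (half_pos hη)))).and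
    ((eventually_ge_atTop (C₀ * 2 ^ q * 8)).and (eventually_ge_atTop R)))
  refine ⟨D₀, fun n _ b d hn h1 hb hbn => ?_⟩
  obtain ⟨⟨u1, u2⟩, E1, ER⟩ := hD _ h1
  have ez : ∀ (i : Fin k) (x : Site 4 n), zoom d (f i) (fun l => ZMod.toAddCircle (x l)) =
      f i (pt (n * d)⁻¹ (lift x)) := fun i x => zoom_site d (f i) x
  generalize (n : ℝ) * d = E at *
  have c1 : 1 ≤ C₀ * 2 ^ q := one_le_mul_of_one_le_of_one_le hC₀ (one_le_pow₀ one_le_two)
  have E2 : 1 ≤ E := by linarith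
  have E0 : 0 < E := by linarith
  have Ep : 1 ≤ E ^ p := one_le_pow₀ E2
  obtain ⟨s, hs1, hs2⟩ : ∃ s : ℕ, E ^ p ≤ s ∧ s ≤ 2 * E ^ p :=
    ⟨⌈E ^ p⌉₊, Nat.le_ceil _, by linarith [Nat.ceil_lt_add_one (zero_le_one.trans Ep)]⟩
  have s1 : 1 ≤ s := by exact_mod_cast Ep.trans hs1
  have s1' : (1 : ℝ) ≤ s := Ep.trans hs1
  rw [pow_mul] at hb
  have b0 : 0 ≤ b := (sq_nonneg _).trans hb
  have r2 : √(2 * b) ^ 2 = 2 * b := sq_sqrt (by linarith)
  have hr : 8 * (C₀ * s ^ q) ≤ √(2 * b) := by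
    refine le_sqrt_of_sq_le (le_trans (pow_le_pow_left₀ (by positivity) ?_ 2)
      (hb.trans (by linarith)))
    calc _ ≤ 8 * (C₀ * (2 * E ^ p) ^ q) := by gcongr
      _ = E ^ (p * q) * (C₀ * 2 ^ q * 8) := by rw [mul_pow, ← pow_mul]; ring
      _ ≤ _ := by rw [pow_succ]; gcongr
  generalize √(2 * b) = r at hr r2
  have sq : (s : ℝ) ≤ C₀ * s ^ q := (le_self_pow₀ s1' (by omega)).trans
    (le_mul_of_one_le_left (by positivity) hC₀)
  have sn : 8 * s ≤ n := by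
    have : r ≤ r ^ 2 := le_self_pow₀ (by linarith) two_ne_zero
    have : (8 * s : ℝ) ≤ n := by linarith
    exact_mod_cast this
  have xs : ∀ z : Fin k → Fin 4 → ℤ, ∏ i, f i (pt E⁻¹ (z i)) ≠ 0 → ∀ i l, (z i l).natAbs ≤ s := by
    intro z hz i l
    have h3 : |E⁻¹ * z i l| ≤ R := hR i _ (Finset.prod_ne_zero_iff.1 hz i (Finset.mem_univ i)) l
    have : |(z i l : ℝ)| ≤ s := by
      refine le_trans ?_ ((pow_le_pow_right₀ E2 (show 2 ≤ p by omega)).trans hs1)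
      rw [abs_mul, abs_of_pos (inv_pos.2 E0), inv_mul_le_iff₀ E0] at h3
      nlinarith
    rw [← Int.cast_abs, ← Nat.cast_natAbs] at this
    exact_mod_cast this
  have e4 : E⁻¹ ^ (4 * k) ≠ 0 := by positivity
  rw [← sum_lift (n := n) _ fun z hz i l => by
    have := xs z (abs_ne_zero.1 hz) i l
    omega, id] at u2
  rw [← sum_lift (n := n) _ fun z hz i l => by
    have := xs z (left_ne_zero_of_mul hz) i l
    omega, ← pow_mul, Real.dist_eq] at u1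
  simp only [← mul_div_assoc, ← Finset.sum_div, mul_div_cancel_left₀ _ e4] at u1
  rw [corr_expand h r2]
  simp only [ez]
  refine (abs_sub_le _ _ _).trans ((add_le_add (le_trans ?_ u2.le) u1.le).trans_eq (add_halves η))
  rw [← Finset.sum_sub_distrib]
  refine (Finset.abs_sum_le_sum_abs _ _).trans ?_
  rw [mul_comm (_ ^ _), mul_assoc, mul_assoc, Finset.sum_mul]
  refine Finset.sum_le_sum fun x _ => ?_
  rw [← mul_sub, abs_mul]
  by_cases hx : ∏ i, f i (pt E⁻¹ (lift (x i))) = 0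
  · rw [hx, abs_zero, zero_mul, zero_mul]
  refine mul_le_mul_of_nonneg_left ?_ (abs_nonneg _)
  have h5 : ∀ i j : Fin k, lift (x j - x i) = lift (x j) - lift (x i) := by
    intro i j
    rw [← lift_cast (L := n) (lift (x j) - lift (x i)) fun l => by
      have := xs _ hx i l
      have := xs _ hx j l
      rw [Pi.sub_apply]
      omega]
    congr 1
    funext l
    simp [lift]
  have h6 : 1 / (s : ℝ) ≤ E⁻¹ ^ (4 * k) * E⁻¹ := by
    rw [← pow_succ, inv_pow, one_div]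
    exact inv_anti₀ (by positivity) ((pow_le_pow_right₀ E2 (by omega)).trans hs1)
  rw [loops, ← Finset.sum_sub_distrib, mul_left_comm, hc', Finset.sum_mul]
  refine (Finset.abs_sum_le_sum_abs _ _).trans (Finset.sum_le_sum fun a _ => ?_)
  have w0 : 0 ≤ ∏ i, wt (a i) := Finset.prod_nonneg fun i _ => wt_nonneg _
  rw [← mul_sub, abs_mul, abs_of_nonneg w0]
  refine mul_le_mul_of_nonneg_left (le_trans ?_ h6) w0
  simp only [← h5]
  exact hL s n r s1 hn (by linarith [show 0 ≤ C₀ * s ^ q by positivity]) (by linarith) x a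
    fun i => xs _ hx i

end Pool.Agent.Lib.MP_7f377f_mp.YM5
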