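import Pool.Agent.Lib.MP_7f377f_mp.SmeD

/-! Admissible families of test functions: separation, zooming, symmetries. -/

noncomputable section

namespace Pool.Agent.Lib.MP_7f377f_mp.YM5

open Filter Topology Set
open scoped NNReal

variable {k : ℕ}

theorem sep_closure {X : Type} [MetricSpace X] {s t : Set X} {c : ℝ}
    (h : ∀ x ∈ s, ∀ y ∈ t, c ≤ dist x y) : ∀ x ∈ closure s, ∀ y ∈ closure t, c ≤ dist x y :=
  fun _ hx _ hy => closure_minimal (t := {y | c ≤ dist _ y}) (fun y hy =>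
    closure_minimal (t := {x | c ≤ dist x y}) (fun x hx => h x hx y hy)
      (isClosed_le continuous_const (by fun_prop)) hx) (isClosed_le continuous_const (by fun_prop)) hy

theorem disjoint_of_sep {X : Type} [MetricSpace X] {f g : X → ℝ} {c : ℝ} (hc : 0 < c)
    (h : ∀ x y, f x ≠ 0 → g y ≠ 0 → c ≤ dist x y) : Disjoint (tsupport f) (tsupport g) :=
  disjoint_left.2 fun x hx hy => by
    have := sep_closure (fun x hx y hy => h x y hx hy) x hx x hy
    rw [dist_self] at this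
    exact this.not_gt hc

/-- the supports of an admissible family are uniformly separated -/
theorem Adm.sep {X : Type} [MetricSpace X] {f : Fin k → X → ℝ} (hf : Adm f) :
    ∃ δ > 0, ∀ i j, i ≠ j → ∀ x ∈ tsupport (f i), ∀ y ∈ tsupport (f j), δ ≤ dist x y := by
  have : ∀ i j, ∀ᶠ δ in 𝓝[>] (0 : ℝ), i ≠ j →
      ∀ x ∈ tsupport (f i), ∀ y ∈ tsupport (f j), δ ≤ dist x y := fun i j => by
    by_cases h : i = j
    · exact Eventually.of_forall fun _ h' => (h' h).elim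
    obtain ⟨r, r0, hr⟩ := Metric.exists_pos_forall_lt_edist (hf.1 i).1 (isClosed_tsupport _)
      (hf.2 h)
    filter_upwards [Ioo_mem_nhdsGT (NNReal.coe_pos.2 r0)] with δ hδ _ x hx y hy
    have := hr x hx y hy
    rw [edist_nndist, ENNReal.coe_lt_coe] at this
    exact hδ.2.le.trans this.le
  obtain ⟨δ, h1, h2⟩ := ((eventually_all.2 fun i => eventually_all.2 (this i)).and
    self_mem_nhdsWithin).exists
  exact ⟨δ, h2, h1⟩

/-- a common Lipschitz constant -/
theorem Adm.lip {X : Type} [MetricSpace X] {f : Fin k → X → ℝ} (hf : Adm f) :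
    ∃ K, ∀ i, LipschitzWith K (f i) := by
  choose K hK using fun i => (hf.1 i).2
  exact ⟨Finset.univ.sup K, fun i => (hK i).weaken (Finset.le_sup (Finset.mem_univ i))⟩

theorem Adm.cont {X : Type} [MetricSpace X] {f : Fin k → X → ℝ} (hf : Adm f) (i : Fin k) :
    Continuous (f i) := (hf.1 i).2.choose_spec.continuous

/-- composition with an isometry of the torus -/
theorem Adm.comp {f : Fin k → T4 → ℝ} (hf : Adm f) {θ : T4 → T4} (hθ : Isometry θ) :
    Adm fun i t => f i (θ t) := by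
  obtain ⟨δ, δ0, hδ⟩ := hf.sep
  exact ⟨fun i => ⟨.of_compactSpace _, _, (hf.1 i).2.choose_spec.comp hθ.lipschitz⟩,
    fun i j hij => disjoint_of_sep δ0 fun x y hx hy => hθ.dist_eq x y ▸
      hδ i j hij _ (subset_tsupport _ hx) _ (subset_tsupport _ hy)⟩

/-- the representative in the unit cube -/
def rep (t : T4) (l : Fin 4) : ℝ := AddCircle.equivIoc 1 (-2⁻¹) (t l)

theorem coe_rep (t : T4) (l : Fin 4) : (rep t l : UnitAddCircle) = t l := AddCircle.coe_equivIoc

theorem abs_rep (t : T4) (l : Fin 4) : |rep t l| ≤ 2⁻¹ := by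
  have := (AddCircle.equivIoc 1 (-2⁻¹) (t l)).2
  rw [rep, abs_le]
  constructor <;> linarith [this.1, this.2]

theorem abs_le_circle {x : ℝ} (hx : |x| ≤ 3 / 4) : |x| ≤ 3 * ‖(x : UnitAddCircle)‖ := by
  rw [UnitAddCircle.norm_eq]
  by_cases h : round x = 0
  · rw [h, Int.cast_zero, sub_zero]
    linarith [abs_nonneg x]
  · have h1 : (1 : ℝ) ≤ |(round x : ℝ)| := by exact_mod_cast Int.one_le_abs h
    have h2 := abs_sub_abs_le_abs_sub (round x : ℝ) x
    rw [abs_sub_comm] at h2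
    linarith

theorem zoom_dist {d : ℝ} (hd : 0 < d) {t : T4} (ht : ∀ l, |rep t l| ≤ 4⁻¹) (t' : T4) :
    dist (WithLp.toLp 2 fun l => rep t l / d : R4) (WithLp.toLp 2 fun l => rep t' l / d) ≤
      6 / d * dist t t' := by
  have h : ∀ l, dist (rep t l / d) (rep t' l / d) ≤ 3 / d * dist t t' := fun l => by
    have h1 : |rep t l - rep t' l| ≤ 3 / 4 :=
      (abs_sub _ _).trans (by linarith [ht l, abs_rep t' l])
    have h2 := abs_le_circle h1
    rw [AddCircle.coe_sub, coe_rep, coe_rep, ← dist_eq_norm] at h2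
    rw [Real.dist_eq, ← sub_div, abs_div, abs_of_pos hd, div_mul_eq_mul_div]
    exact div_le_div_of_nonneg_right (h2.trans (by linarith [dist_le_pi_dist t t' l])) hd.le
  rw [EuclideanSpace.dist_eq]
  refine Real.sqrt_le_iff.2 ⟨by positivity, ?_⟩
  refine (Finset.sum_le_card_nsmul _ _ ((3 / d * dist t t') ^ 2) fun l _ =>
    pow_le_pow_left₀ dist_nonneg (h l) 2).trans_eq ?_
  simp only [Finset.card_univ, Fintype.card_fin, nsmul_eq_mul, Nat.cast_ofNat]
  ring

theorem rep_small {f : R4 → ℝ} {R d : ℝ} (hR : ∀ y, f y ≠ 0 → ∀ l, |y l| ≤ R) (hd : 0 < d)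
    (h : R * d ≤ 4⁻¹) {t : T4} (ht : zoom d f t ≠ 0) (l : Fin 4) : |rep t l| ≤ 4⁻¹ := by
  have h1 : |rep t l / d| ≤ R := hR _ ht l
  rw [abs_div, abs_of_pos hd, div_le_iff₀ hd] at h1
  exact h1.trans h

theorem zoom_lip {f : R4 → ℝ} {K : ℝ≥0} (hf : LipschitzWith K f) {R d : ℝ}
    (hR : ∀ y, f y ≠ 0 → ∀ l, |y l| ≤ R) (hd : 0 < d) (h : R * d ≤ 4⁻¹) (t t' : T4) :
    |zoom d f t - zoom d f t'| ≤ K * (6 / d) * dist t t' := by
  have key : ∀ t t', zoom d f t ≠ 0 → |zoom d f t - zoom d f t'| ≤ K * (6 / d) * dist t t' :=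
    fun t t' ht => (hf.dist_le_mul _ _).trans (by
      rw [mul_assoc]
      exact mul_le_mul_of_nonneg_left (zoom_dist hd (rep_small hR hd h ht) t') K.2)
  by_cases h1 : zoom d f t = 0
  · by_cases h2 : zoom d f t' = 0
    · rw [h1, h2, sub_zero, abs_zero]
      positivity
    · rw [abs_sub_comm, dist_comm]
      exact key t' t h2
  · exact key t t' h1

theorem zoom_sep {f g : R4 → ℝ} {R d δ : ℝ} (hR : ∀ y, f y ≠ 0 → ∀ l, |y l| ≤ R) (hd : 0 < d)
    (h : R * d ≤ 4⁻¹) (hδ : ∀ x y, f x ≠ 0 → g y ≠ 0 → δ ≤ dist x y) (t t' : T4)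
    (ht : zoom d f t ≠ 0) (ht' : zoom d g t' ≠ 0) : δ * d / 6 ≤ dist t t' := by
  have := (hδ _ _ ht ht').trans (zoom_dist hd (rep_small hR hd h ht) t')
  rw [div_mul_eq_mul_div, le_div_iff₀ hd] at this
  linarith

theorem adm_zoom {f : Fin k → R4 → ℝ} (hf : Adm f) :
    ∀ᶠ d in 𝓝[>] (0 : ℝ), Adm fun i => zoom d (f i) := by
  obtain ⟨R, R0, hR⟩ := supp_bound fun i => (hf.1 i).1
  obtain ⟨δ, δ0, hδ⟩ := hf.sep
  obtain ⟨K, hK⟩ := hf.lip
  filter_upwards [Ioo_mem_nhdsGT (show 0 < 4⁻¹ / R by positivity)] with d hd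
  have h1 : R * d ≤ 4⁻¹ := ((lt_div_iff₀' R0).1 hd.2).le
  have h0 := hd.1
  exact ⟨fun i => ⟨.of_compactSpace _, ⟨K * (6 / d), by positivity⟩,
      LipschitzWith.of_dist_le_mul (zoom_lip (hK i) (hR i) h0 h1)⟩,
    fun i j hij => disjoint_of_sep (by positivity) (zoom_sep (hR i) h0 h1 fun x y hx hy =>
      hδ i j hij _ (subset_tsupport _ hx) _ (subset_tsupport _ hy))⟩

end Pool.Agent.Lib.MP_7f377f_mp.YM5
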