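import Pool.Agent.Lib.MP_7f377f_mp.StP

/-! Covariant families of letters, test potentials and the invariant forms. -/

noncomputable section

namespace Pool.Agent.Lib.MP_7f377f_mp.RG.Wd

open Finset

/-! ### Subgroups and characters -/

theorem dr_cases {a b : Dr} (h : a.1 = b.1) : a = b ∨ a = fl b := by
  revert a b
  decide

theorem g_ax (g : B4) {a b : Dr} (h : a.1 = b.1) : (g.1 a).1 = (g.1 b).1 := by
  rcases dr_cases h with rfl | rfl
  · rfl
  · rw [g_fl]; rfl

/-- the elements which fix the axes `0` and `m` -/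
def KK (m : Fin 4) : Subgroup B4 where
  carrier := {g | ∀ i, i = 0 ∨ i = m → (g.1 (i, true)).1 = i}
  one_mem' _ _ := rfl
  mul_mem' {g h} a b i e := (g_ax g (b i e)).trans (a i e)
  inv_mem' {g} a i e := (g_ax g⁻¹ (b := g.1 (i, true)) (a i e).symm).trans (by simp)

/-- the sign on the axis `i` -/
def sg (i : Fin 4) (g : B4) : ℂ := (cd (un i) (g.1 (i, true)) : ℤ)

theorem KK_le {m : Fin 4} {g : B4} (h : g ∈ KK m) : g ∈ KK 0 := fun i e =>
  h i (.inl (e.elim id id))

theorem sg_cases {i : Fin 4} {g : B4} (h : (g.1 (i, true)).1 = i) :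
    g.1 (i, true) = (i, true) ∧ sg i g = 1 ∨ g.1 (i, true) = fl (i, true) ∧ sg i g = -1 := by
  rcases dr_cases (b := (i, true)) h with e | e <;> simp [sg, e, cd, un, fl]

theorem sg_mul {i : Fin 4} (g : B4) {h : B4} (e : (h.1 (i, true)).1 = i) :
    sg i (g * h) = sg i g * sg i h := by
  have : (g * h).1 (i, true) = g.1 (h.1 (i, true)) := rfl
  rcases sg_cases e with ⟨a, b⟩ | ⟨a, b⟩ <;> rw [b, sg, this, a] <;> simp [sg, g_fl]

theorem sg_sq {i : Fin 4} {g : B4} (h : (g.1 (i, true)).1 = i) : sg i g * sg i g = 1 := by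
  rcases sg_cases h with ⟨-, b⟩ | ⟨-, b⟩ <;> simp [b]

theorem norm_sg {i : Fin 4} {g : B4} (h : (g.1 (i, true)).1 = i) : ‖sg i g‖ = 1 := by
  rcases sg_cases h with ⟨-, b⟩ | ⟨-, b⟩ <;> simp [b]

/-- the character of the component `m` of a current -/
def ch (m : Fin 4) (g : B4) : ℂ := sg 0 g * sg m g

theorem sg0_mul : ∀ g ∈ KK 0, ∀ h ∈ KK 0, sg 0 (g * h) = sg 0 g * sg 0 h :=
  fun g _ _ e => sg_mul g (e 0 (.inl rfl))

theorem ch_mul (m : Fin 4) : ∀ g ∈ KK m, ∀ h ∈ KK m, ch m (g * h) = ch m g * ch m h :=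
  fun g _ h e => by rw [ch, sg_mul g (e 0 (.inl rfl)), sg_mul g (e m (.inr rfl)), ch, ch]; ring

theorem gv_fix {i : Fin 4} {g : B4} (h : (g.1 (i, true)).1 = i) (Y : Fin 4 → Let) :
    gv g Y i = sg i g • Y i := by
  have := cd_gv' g Y (i, true)
  rcases sg_cases h with ⟨a, b⟩ | ⟨a, b⟩ <;> rw [a] at this <;> simpa [b, cd, fl, neg_eq_iff_eq_neg]
    using this

theorem gv_single {R : Type} [AddCommGroup R] (g : B4) (i : Fin 4) (Y : Fin 4 → R) :
    gv g (Pi.single i (Y i)) = Pi.single (g.1 (i, true)).1 (gv g Y (g.1 (i, true)).1) := by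
  funext j
  by_cases e : j = (g.1 (i, true)).1
  · have : (g⁻¹.1 (j, true)).1 = i := (g_ax g⁻¹ (b := g.1 (i, true)) e).trans (by simp)
    simp only [← e, Pi.single_eq_same, gv, cd, this]
  · have : (g⁻¹.1 (j, true)).1 ≠ i := fun k => e
      ((g_ax g (b := (i, true)) k).symm.trans (by simp)).symm
    simp only [gv, cd, Pi.single_eq_of_ne this, Pi.single_eq_of_ne e, neg_zero, ite_self]

/-- reflection of an axis -/
def rf (i : Fin 4) : B4 := ⟨Function.Involutive.toPerm (fun d => if d.1 = i then fl d else d)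
  (fun d => by revert i d; decide), mem_B4 fun d => by
    simp only [Function.Involutive.coe_toPerm]
    revert i d
    decide⟩

/-- permutation of the axes -/
def pe (σ : Equiv.Perm (Fin 4)) : B4 := ⟨σ.prodCongr (Equiv.refl _), mem_B4 fun _ => rfl⟩

theorem rf_apply (i : Fin 4) (d : Dr) : (rf i).1 d = if d.1 = i then fl d else d := rfl

theorem pe_apply (σ : Equiv.Perm (Fin 4)) (i : Fin 4) (b : Bool) : (pe σ).1 (i, b) = (σ i, b) := rfl

theorem rf_mem (i m : Fin 4) : rf i ∈ KK m := fun j _ => by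
  rw [rf_apply]
  split_ifs <;> rfl

theorem sg_rf (i j : Fin 4) : sg j (rf i) = if j = i then -1 else 1 := by
  rw [sg, rf_apply]
  split_ifs <;> simp [cd, un, fl]

theorem sg_pe {σ : Equiv.Perm (Fin 4)} {i : Fin 4} (h : σ i = i) : sg i (pe σ) = 1 := by
  simp [sg, pe_apply, h, cd, un]

/-! ### Covariant families -/

/-- action on families of letters -/
def ro (g : B4) : (Fin 4 → Let) →ₗ[ℂ] Fin 4 → Let where
  toFun Y := fun m => sg 0 g • act g (gv g Y m)
  map_add' Y Z := funext fun m => by simp [gv_add]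
  map_smul' c Y := funext fun m => by
    have := congrFun (gv_map g Y (DistribSMul.toAddMonoidHom Let c)) m
    simp only [DistribSMul.toAddMonoidHom_apply] at this
    rw [show gv g (c • Y) m = c • gv g Y m from this, map_smul, smul_comm]
    rfl

theorem ro_apply (g : B4) (Y : Fin 4 → Let) (m : Fin 4) : ro g Y m = sg 0 g • act g (gv g Y m) := rfl

theorem cd_ro (g : B4) (Y : Fin 4 → Let) (d : Dr) :
    cd (ro g Y) (g.1 d) = sg 0 g • act g (cd Y d) := by
  rw [← cd_gv' g Y d]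
  unfold cd
  split_ifs <;> simp [ro_apply]

theorem ro_mul (g : B4) {h : B4} (e : h ∈ KK 0) (Y : Fin 4 → Let) : ro (g * h) Y = ro g (ro h Y) := by
  funext m
  have a := cd_ro (g * h) Y ((g * h)⁻¹.1 (m, true))
  have b := cd_ro g (ro h Y) (h.1 ((g * h)⁻¹.1 (m, true)))
  rw [cd_ro h, map_smul, ← mul_smul, ← act_mul, ← sg_mul g (e 0 (.inl rfl))] at b
  have c : (g * h).1 ((g * h)⁻¹.1 (m, true)) = (m, true) := by simp
  exact (c ▸ a :).trans (c ▸ b :).symm

/-- covariant average -/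
def cov : (Fin 4 → Let) →ₗ[ℂ] Fin 4 → Let :=
  open Classical in (Nat.card (KK 0) : ℂ)⁻¹ • ∑ g : KK 0, ro g

theorem cov_apply (Y : Fin 4 → Let) :
    cov Y = open Classical in (Nat.card (KK 0) : ℂ)⁻¹ • ∑ g : KK 0, ro g Y := by simp [cov]

/-- covariant families -/
def Cov (Y : Fin 4 → Let) : Prop := ∀ g ∈ KK 0, ro g Y = Y

theorem cov_cov (Y : Fin 4 → Let) : Cov (cov Y) := fun g hg => by
  classical
  have := Equiv.sum_comp (Equiv.mulLeft (⟨g, hg⟩ : KK 0)) fun h : KK 0 => ro h Y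
  rw [cov_apply, map_smul, map_sum, ← this]
  exact congrArg _ (sum_congr rfl fun h _ => (ro_mul g h.2 Y).symm)

theorem cov_ro {g : B4} (hg : g ∈ KK 0) (Y : Fin 4 → Let) : cov (ro g Y) = cov Y := by
  classical
  have := Equiv.sum_comp (Equiv.mulRight (⟨g, hg⟩ : KK 0)) fun h : KK 0 => ro h Y
  simp only [Equiv.coe_mulRight, Subgroup.coe_mul, ro_mul _ hg] at this
  rw [cov_apply, cov_apply, this]

theorem Cov.fix {Y : Fin 4 → Let} (h : Cov Y) : cov Y = Y := by
  classical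
  have : (Nat.card (KK 0) : ℂ) ≠ 0 := Nat.cast_ne_zero.2 Nat.card_pos.ne'
  have e : ∀ g : KK 0, ro g Y = Y := fun g => h g g.2
  rw [cov_apply]
  simp only [e]
  rw [sum_const, card_univ, ← Nat.card_eq_fintype_card, ← Nat.cast_smul_eq_nsmul ℂ,
    inv_smul_smul₀ this]

theorem ro_single (g : B4) (i : Fin 4) (Y : Fin 4 → Let) :
    ro g (Pi.single i (Y i)) = Pi.single (g.1 (i, true)).1 (ro g Y (g.1 (i, true)).1) := by
  funext j
  rw [ro_apply, gv_single]
  by_cases e : j = (g.1 (i, true)).1 <;> simp [e, ro_apply]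

theorem ro_fix {m : Fin 4} {g : B4} (h : g ∈ KK m) (Y : Fin 4 → Let) :
    ro g Y m = ch m g • act g (Y m) := by
  rw [ro_apply, gv_fix (h m (.inr rfl)), map_smul, ← mul_smul, ch]

theorem Cov.inv {Y : Fin 4 → Let} (h : Cov Y) (m : Fin 4) :
    ∀ g ∈ KK m, ch m g • act g (Y m) = Y m := fun g e => by rw [← ro_fix e, h g (KK_le e)]

theorem cov_avg (m : Fin 4) (X : Let) :
    cov (Pi.single m (avg (KK m) (ch m) X)) = cov (Pi.single m X) := by
  classical
  have : (Nat.card (KK m) : ℂ) ≠ 0 := Nat.cast_ne_zero.2 Nat.card_pos.ne'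
  have e : ∀ g : KK m, cov (Pi.single m (ch m g • act g X)) = cov (Pi.single m X) := fun g => by
    have := ro_single g m fun _ => X
    rw [g.2 m (.inr rfl), ro_fix g.2] at this
    rw [← this, cov_ro (KK_le g.2)]
  rw [avg_apply, ← LinearMap.single_apply ℂ (fun _ => Let), map_smul, map_smul, map_sum, map_sum]
  simp only [LinearMap.single_apply, e]
  rw [sum_const, card_univ, ← Nat.card_eq_fintype_card, ← Nat.cast_smul_eq_nsmul ℂ,
    inv_smul_smul₀ this]

/-- the symmetric divergence -/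
def dvg (Y : Fin 4 → Let) : Let := (2⁻¹ : ℂ) • ∑ m, (tr (un m) (Y m) - tr (-un m) (Y m))

theorem dvg_eq (Y : Fin 4 → Let) : dvg Y = (2⁻¹ : ℂ) • ∑ d, tr (dv d) (cd Y d) := by
  simp [dvg, Fintype.sum_prod_type, cd, dv, sub_eq_add_neg]

theorem Cov.dvg {Y : Fin 4 → Let} (h : Cov Y) : ∀ g ∈ KK 0, sg 0 g • act g (dvg Y) = dvg Y :=
  fun g e => by
  rw [dvg_eq, map_smul, smul_comm, map_sum, smul_sum]
  congr 1
  refine Fintype.sum_equiv g.1 _ _ fun d => ?_
  rw [act_tr, gv_dv, ← map_smul, ← cd_ro, h g e]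

/-- the covariant currents -/
def OT : Fin 4 → Let := cov thL

/-- the scalar, the diagonal and the off diagonal part -/
def WW : Fin 3 → Fin 4 → Let := ![Pi.single 0 phS, Pi.single 0 (OT 0), OT - Pi.single 0 (OT 0)]

theorem cov_WW : ∀ ρ, Cov (WW ρ) := by
  have e : Cov (Pi.single 0 (OT 0)) := fun g h => by
    rw [ro_single, h 0 (.inl rfl), OT, cov_cov _ g h]
  refine Fin.forall_fin_succ.2 ⟨fun g h => ?_, Fin.forall_fin_succ.2 ⟨e, Fin.forall_fin_one.2
    fun g h => (map_sub (ro g) _ _).trans (congrArg₂ _ (cov_cov _ g h) (e g h))⟩⟩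
  refine (ro_single g 0 fun _ => phS).trans ?_
  rw [h 0 (.inl rfl), ro_fix h, act_phS, ch, sg_sq (h 0 (.inl rfl)), one_smul]
  rfl

theorem cov_single (m : Fin 4) (ρ : Fin 3) :
    ∃ c : ℂ, ‖c‖ ≤ 1 ∧ cov (Pi.single m (WW ρ m)) = c • WW ρ := by
  have e : ∀ m, m ≠ 0 → cov (Pi.single m (WW 2 m)) = cov (Pi.single 1 (WW 2 1)) := fun m h => by
    have k : pe (Equiv.swap 1 m) ∈ KK 0 := fun i e => by
      rw [e.elim id id, pe_apply, Equiv.swap_apply_of_ne_of_ne (by decide) h.symm]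
    rw [← cov_ro k (Pi.single 1 _), ro_single, cov_WW 2 _ k, pe_apply, Equiv.swap_apply_left]
  have z : WW 2 0 = 0 := by simp [WW]
  by_cases h : m = 0
  · subst h
    fin_cases ρ
    · exact ⟨1, by simp, by simpa [WW] using (cov_WW 0).fix⟩
    · exact ⟨1, by simp, by simpa [WW] using (cov_WW 1).fix⟩
    · exact ⟨0, by simp, by simp [z]⟩
  · fin_cases ρ
    · exact ⟨0, by simp, by simp [WW, h]⟩
    · exact ⟨0, by simp, by simp [WW, h]⟩
    · refine ⟨3⁻¹, by norm_num, ?_⟩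
      have := (cov_WW 2).fix
      conv_lhs at this => rw [← univ_sum_single (WW 2), map_sum, Fin.sum_univ_four, z,
        e 2 (by decide), e 3 (by decide), Pi.single_zero, map_zero]
      change cov (Pi.single m (WW 2 m)) = _ • WW 2
      rw [e m h]
      generalize cov (Pi.single 1 (WW 2 1)) = u at this
      rw [← this]
      module

/-! ### The families -/

abbrev Iv := (Fin 4 × Fin 4 × Fin 4 × Fin 4) ⊕ (Fin 4 × Fin 4 × Fin 4 × Fin 4 × Fin 4)

/-- generators -/
def Vg : Iv → Let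
  | .inl t => lt true 0 (pq (t.1, true) (t.2.1, true)) (pq (t.2.2.1, true) (t.2.2.2, true))
  | .inr t => lt true 0 (pq (t.1, true) (t.2.1, true))
      (las (t.2.2.1, true) (pq (t.2.2.2.1, true) (t.2.2.2.2, true))) -
    lt true 0 (pq (t.1, true) (t.2.1, true))
      (las (t.2.2.1, false) (pq (t.2.2.2.1, true) (t.2.2.2.2, true)))

/-- the family for the vector expansion -/
def PF : Fin 3 ⊕ Iv → Let := Sum.elim (fun ρ => dvg (WW ρ)) fun i => Vg i - avg (KK 0) (sg 0) (Vg i)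

/-- the families for the scalar expansions -/
def OF (m : Fin 4) : Fin 3 ⊕ Iv → Let :=
  Sum.elim (fun ρ => WW ρ m) fun i => Vg i - avg (KK m) (ch m) (Vg i)

theorem avg_PF (c : Fin 3 ⊕ Iv → ℂ) :
    avg (KK 0) (sg 0) (∑ i, c i • PF i) = ∑ ρ, c (.inl ρ) • dvg (WW ρ) := by
  simp [PF, avg_avg sg0_mul, avg_fix (cov_WW _).dvg]

theorem avg_OF (m : Fin 4) (c : Fin 3 ⊕ Iv → ℂ) :
    avg (KK m) (ch m) (∑ i, c i • OF m i) = ∑ ρ, c (.inl ρ) • WW ρ m := by
  simp [OF, avg_avg (ch_mul m), avg_fix ((cov_WW _).inv m)]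

theorem cov_OF (c : Fin 4 → Fin 3 ⊕ Iv → ℂ) : ∃ z : Fin 3 → ℂ,
    (∀ ρ, ‖z ρ‖ ≤ ∑ m, ∑ i, ‖c m i‖) ∧ cov (fun m => ∑ i, c m i • OF m i) = ∑ ρ, z ρ • WW ρ := by
  choose n n1 n2 using cov_single
  refine ⟨fun ρ => ∑ m, c m (.inl ρ) * n m ρ, fun ρ => norm_sum_le_of_le _ fun m _ => ?_, ?_⟩
  · rw [norm_mul]
    exact (mul_le_of_le_one_right (norm_nonneg _) (n1 m ρ)).trans
      (single_le_sum (f := fun i => ‖c m i‖) (fun _ _ => norm_nonneg _) (mem_univ _))
  · rw [← univ_sum_single fun m => ∑ i, c m i • OF m i, map_sum]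
    have : ∀ ρ, (∑ m, c m (.inl ρ) * n m ρ) • WW ρ =
        ∑ m, c m (.inl ρ) • cov (Pi.single m (WW ρ m)) := fun ρ => by
      funext k
      simp only [n2, Pi.smul_apply, Finset.sum_apply, Finset.sum_smul, mul_smul]
    simp only [this]
    rw [sum_comm]
    refine sum_congr rfl fun m _ => ?_
    rw [← cov_avg, avg_OF, ← LinearMap.single_apply ℂ (fun _ => Let), map_sum, map_sum]
    simp only [map_smul, LinearMap.single_apply]

theorem cov_thL : cov thL = WW 1 + WW 2 := by simp [WW, OT]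

end Pool.Agent.Lib.MP_7f377f_mp.RG.Wd
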