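import Pool.Agent.Lib.MP_7f377f_mp.StB

/-! The families of letters realise all forms on constant and linear curvature. -/

noncomputable section

namespace Pool.Agent.Lib.MP_7f377f_mp.RG.Wd

open Finset

/-- link integrals of `x ^ d d x ^ e` -/
def pA (d e : Dr) : V := fun l => ((cd l.1 d : ℤ) + (cd (un l.2) d : ℤ) / 2) * (cd (un l.2) e : ℤ)

/-- link integrals of `x ^ d x ^ e d x ^ f` -/
def pB (d e f : Dr) : V := fun l => ((cd l.1 d : ℤ) * (cd l.1 e : ℤ) +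
  ((cd l.1 d : ℤ) * (cd (un l.2) e : ℤ) + (cd l.1 e : ℤ) * (cd (un l.2) d : ℤ)) / 2 +
  (cd (un l.2) d : ℤ) * (cd (un l.2) e : ℤ) / 3) * (cd (un l.2) f : ℤ)

theorem cd_neg (x : St) (d : Dr) : cd (-x) d = -cd x d := by
  unfold cd
  split_ifs <;> rfl

theorem cd_sub (x y : St) (d : Dr) : cd (x - y) d = cd x d - cd y d := by
  rw [sub_eq_add_neg, cd_add, cd_neg, sub_eq_add_neg]

theorem pb_pA (g : B4) (d e : Dr) : pb Neg.neg g (pA (g.1 d) (g.1 e)) = pA d e := by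
  have s : ∀ x s d e, stp Neg.neg (pA d e) x s =
      ((cd x d : ℤ) + (cd (dv s) d : ℤ) / 2 : ℝ) * (cd (dv s) e : ℤ) := fun x s d e => by
    unfold stp dv
    split_ifs <;> (simp only [pA, cd_sub, cd_neg, Int.cast_sub, Int.cast_neg]; try ring)
  funext l
  rw [pb, s, ← gv_dv]
  simp only [cd_gv', pA, dv, if_true]

theorem pb_pB (g : B4) (d e f : Dr) : pb Neg.neg g (pB (g.1 d) (g.1 e) (g.1 f)) = pB d e f := by
  have s : ∀ x s d e f, stp Neg.neg (pB d e f) x s = ((cd x d : ℤ) * (cd x e : ℤ) +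
      ((cd x d : ℤ) * (cd (dv s) e : ℤ) + (cd x e : ℤ) * (cd (dv s) d : ℤ)) / 2 +
      (cd (dv s) d : ℤ) * (cd (dv s) e : ℤ) / 3 : ℝ) * (cd (dv s) f : ℤ) := fun x s d e f => by
    unfold stp dv
    split_ifs <;> (simp only [pB, cd_sub, cd_neg, Int.cast_sub, Int.cast_neg]; try ring)
  funext l
  rw [pb, s, ← gv_dv]
  simp only [cd_gv', pB, dv, if_true]

/-- the sign of a reflection -/
def ep (i m : Fin 4) : ℤ := if m = i then -1 else 1

theorem cd_rf (x : St) (i m : Fin 4) : cd x ((rf i).1 (m, true)) = ep i m * cd x (m, true) := by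
  rw [rf_apply, ep]
  split_ifs <;> simp

/-- the test potentials -/
def A1 (a b : Fin 4) : V := pA (a, true) (b, true)

def B1 (a b c : Fin 4) : V := pB (a, true) (b, true) (c, true)

theorem rf_rf (i : Fin 4) (d : Dr) : (rf i).1 ((rf i).1 d) = d := by
  simp only [rf_apply]
  revert i d
  decide

theorem rf_A (i a b : Fin 4) : pb Neg.neg (rf i) (A1 a b) = ((ep i a * ep i b : ℤ) : ℝ) • A1 a b := by
  rw [A1, ← rf_rf i (a, true), ← rf_rf i (b, true), pb_pA, rf_rf, rf_rf]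
  funext l
  simp only [pA, cd_rf, Pi.smul_apply, smul_eq_mul]
  push_cast
  ring

theorem rf_B (i a b c : Fin 4) :
    pb Neg.neg (rf i) (B1 a b c) = ((ep i a * ep i b * ep i c : ℤ) : ℝ) • B1 a b c := by
  rw [B1, ← rf_rf i (a, true), ← rf_rf i (b, true), ← rf_rf i (c, true), pb_pB, rf_rf, rf_rf, rf_rf]
  funext l
  simp only [pB, cd_rf, Pi.smul_apply, smul_eq_mul]
  push_cast
  ring

theorem A_anti (a b : Fin 4) : A1 a b + A1 b a = gr fun x => (x a * x b : ℝ) := by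
  funext l
  simp only [A1, pA, gr, cd, if_true, Pi.add_apply]
  push_cast
  ring

theorem B_symm (a b c : Fin 4) : B1 a b c = B1 b a c := by
  funext l
  simp only [B1, pB]
  ring

theorem B_cyc (a b c : Fin 4) :
    B1 a b c + B1 b c a + B1 c a b = gr fun x => (x a * x b * x c : ℝ) := by
  funext l
  simp only [B1, pB, gr, cd, if_true, Pi.add_apply]
  push_cast
  ring

/-- Kronecker symbol -/
def de (a b : Fin 4) : ℝ := if a = b then 1 else 0

theorem un_de (a b : Fin 4) : ((un a b : ℤ) : ℝ) = de b a := by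
  simp [un, de, Pi.single_apply]

theorem dd_A (a b : Fin 4) (x : St) (m r : Fin 4) :
    dd (A1 a b) x m r = de a m * de b r - de a r * de b m := by
  simp only [dd, A1, pA, cd, if_true, Pi.add_apply]
  push_cast
  simp only [un_de]
  ring

theorem sh_A (a b m : Fin 4) : sh (un m) (A1 a b) - sh (-un m) (A1 a b) =
    gr fun x => 2 * de a m * (x b : ℝ) := by
  funext l
  simp only [A1, pA, gr, cd, if_true, Pi.add_apply, Pi.sub_apply, sh, Pi.neg_apply]
  push_cast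
  simp only [un_de]
  ring

theorem sh_B (a b c m : Fin 4) : sh (un m) (B1 a b c) - sh (-un m) (B1 a b c) =
    (2 * de b m) • A1 a c + (2 * de a m) • A1 b c := by
  funext l
  simp only [A1, pA, B1, pB, cd, if_true, Pi.add_apply, Pi.sub_apply, sh, Pi.neg_apply,
    Pi.smul_apply, smul_eq_mul]
  push_cast
  simp only [un_de]
  ring

theorem dd_B (a b c m r s : Fin 4) : dd (sh (un m) (B1 a b c) - sh (-un m) (B1 a b c)) 0 r s =
    2 * de b m * (de a r * de c s - de a s * de c r) +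
      2 * de a m * (de b r * de c s - de b s * de c r) := by
  rw [sh_B, ← dd_A a c 0, ← dd_A b c 0]
  simp only [dd, Pi.add_apply, Pi.smul_apply, smul_eq_mul]
  ring

theorem sh_A' (a b : Fin 4) (v : St) : sh v (A1 a b) = A1 a b + gr fun x => (v a * x b : ℝ) := by
  funext l
  simp only [A1, pA, gr, cd, if_true, Pi.add_apply, sh]
  push_cast
  ring

/-- symmetric gauge invariant forms -/
structure Gk (k : V →ₗ[ℝ] V →ₗ[ℝ] ℂ) : Prop where
  symm : ∀ a b, k a b = k b a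
  gr : ∀ u b, k (gr u) b = 0

theorem gk_sig (X : Let) : Gk (sig X) := ⟨sig_symm X, fun u b => by
  induction X using Finsupp.induction_linear with
  | zero => simp
  | add X Y h h' => simp only [map_add, LinearMap.add_apply, h, h', add_zero]
  | single c t => simp [sig_single, Bl.sig_apply, fx_gr, c.2.2.1.2, c.2.2.2.2]⟩

theorem Gk.sub {k k' : V →ₗ[ℝ] V →ₗ[ℝ] ℂ} (h : Gk k) (h' : Gk k') : Gk (k - k') :=
  ⟨fun a b => by simp [h.symm a, h'.symm a], fun u b => by simp [h.gr, h'.gr]⟩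

namespace Gk
variable {k : V →ₗ[ℝ] V →ₗ[ℝ] ℂ} (h : Gk k)
include h

theorem gr' (u : St → ℝ) (a : V) : k a (RG.gr u) = 0 := by rw [h.symm, h.gr]

theorem anti (a b : Fin 4) (v : V) : k (A1 a b) v = -k (A1 b a) v := by
  rw [eq_neg_iff_add_eq_zero, ← LinearMap.add_apply, ← map_add, A_anti, h.gr]

theorem anti' (a b : Fin 4) (v : V) : k v (A1 a b) = -k v (A1 b a) := by
  rw [h.symm, h.anti, h.symm]

theorem diag (a : Fin 4) (v : V) : k (A1 a a) v = 0 := by
  have := h.anti a a v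
  linear_combination this / 2

theorem cyc (a b c : Fin 4) (v : V) : k v (B1 a b c) + k v (B1 b c a) + k v (B1 c a b) = 0 := by
  rw [← map_add, ← map_add, B_cyc, h.gr']

end Gk

/-- the two forms agree on constant curvature -/
def E0 (k k' : V →ₗ[ℝ] V →ₗ[ℝ] ℂ) : Prop := ∀ a b c d, k (A1 a b) (A1 c d) = k' (A1 a b) (A1 c d)

/-- and on constant times linear curvature -/
def E1 (k k' : V →ₗ[ℝ] V →ₗ[ℝ] ℂ) : Prop :=
  ∀ a b c d e, k (A1 a b) (B1 c d e) = k' (A1 a b) (B1 c d e)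

theorem fx_las' (a : V) (m : Fin 4) (w : Lp) : fx a 0 (las (m, true) w).1 - fx a 0 (las (m, false) w).1 =
    fx (sh (un m) a - sh (-un m) a) 0 w.1 := by
  have := (fxL 0 w.1).map_sub (sh (un m) a) (sh (-un m) a)
  simp only [fx_las]
  exact ((this :).trans (congrArg₂ _ (fx_sh _ _ _ _) (fx_sh _ _ _ _))).symm

theorem sig_V3 (t : Fin 4 × Fin 4 × Fin 4 × Fin 4 × Fin 4) (a b : Fin 4) (v : V) :
    sig (Vg (.inr t)) (A1 a b) v = (2⁻¹ * dd (A1 a b) 0 t.1 t.2.1 *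
      dd (sh (un t.2.2.1) v - sh (-un t.2.2.1) v) 0 t.2.2.2.1 t.2.2.2.2 : ℝ) := by
  have h1 := fx_las' v t.2.2.1 (pq (t.2.2.2.1, true) (t.2.2.2.2, true))
  have h2 := fx_las' (A1 a b) t.2.2.1 (pq (t.2.2.2.1, true) (t.2.2.2.2, true))
  rw [sh_A, fx_gr, (pq _ _).2, add_zero, sub_self, sub_eq_zero] at h2
  rw [fx_pq] at h1
  simp only [Vg, map_sub, LinearMap.sub_apply, sig_lt, h2, ← h1, fx_pq]
  push_cast
  ring

theorem onto_V {k : V →ₗ[ℝ] V →ₗ[ℝ] ℂ} (h : Gk k) : ∃ c : Iv → ℂ,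
    E0 (sig (∑ i, c i • Vg i)) k ∧ E1 (sig (∑ i, c i • Vg i)) k := by
  obtain ⟨P, hP⟩ : ∃ P, P = ∑ t : Fin 4 × Fin 4 × Fin 4 × Fin 4,
    (k (A1 t.1 t.2.1) (A1 t.2.2.1 t.2.2.2) / 4) • Vg (.inl t) := ⟨_, rfl⟩
  have h' := h.sub (gk_sig P)
  refine ⟨Sum.elim (fun t => k (A1 t.1 t.2.1) (A1 t.2.2.1 t.2.2.2) / 4) fun t =>
    (k - sig P) (A1 t.1 t.2.1) (B1 t.2.2.1 t.2.2.2.1 t.2.2.2.2) / 6, fun a b c d => ?_,
    fun a b c d e => ?_⟩ <;>
    simp only [Fintype.sum_sum_type, Sum.elim_inl, Sum.elim_inr, ← hP, map_add, LinearMap.add_apply]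
  · simp only [map_sum, map_smul, LinearMap.sum_apply, LinearMap.smul_apply, sig_V3, sh_A, dd_gr,
      mul_zero, Complex.ofReal_zero, smul_zero, sum_const_zero, add_zero]
    simp only [hP, map_sum, map_smul, LinearMap.sum_apply, LinearMap.smul_apply, Vg, sig_lt, fx_pq,
      dd_A, Fintype.sum_prod_type, de, smul_eq_mul]
    push_cast
    simp only [apply_ite ((↑) : ℝ → ℂ), mul_add, mul_sub, mul_ite, mul_one,
      mul_zero, Complex.ofReal_one, Complex.ofReal_zero, sum_add_distrib,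
      sum_sub_distrib, sum_ite_eq, mem_univ, if_true, sum_ite_irrel, sum_const_zero]
    rw [h.anti b a, h.anti b a, h.anti' d c, h.symm (A1 c d), h.symm (A1 c d), h.symm (A1 d c),
      h.symm (A1 d c), h.anti b a, h.anti b a, h.anti' d c]
    ring
  · rw [← sub_add_cancel k (sig P), add_sub_cancel_right, LinearMap.add_apply, LinearMap.add_apply,
      add_comm, add_left_inj]
    generalize k - sig P = k' at h'
    simp only [map_sum, map_smul, LinearMap.sum_apply, LinearMap.smul_apply, sig_V3, dd_B, dd_A,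
      Fintype.sum_prod_type, de, smul_eq_mul]
    push_cast
    simp only [apply_ite ((↑) : ℝ → ℂ), mul_add, mul_sub, sub_mul, mul_ite, ite_mul, mul_one,
      mul_zero, zero_mul, Complex.ofReal_one, Complex.ofReal_zero, sum_add_distrib,
      sum_sub_distrib, sum_ite_eq, mem_univ, if_true, sum_ite_irrel, sum_const_zero]
    simp only [h'.anti b a, B_symm d c, B_symm c e]
    linear_combination (-3⁻¹) * h'.cyc c d e (A1 a b)

/-! ### Invariant letters -/

section inv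
variable {X : Let} {m : Fin 4} {χ : B4 → ℂ}

theorem inv_sig {g : B4} (h : χ g • act g X = X) (a b : V) :
    sig X a b = χ g * sig X (pb Neg.neg g a) (pb Neg.neg g b) := by
  conv_lhs => rw [← h]
  simp [sig_act]

theorem pe_A (σ : Equiv.Perm (Fin 4)) (a b : Fin 4) :
    pb Neg.neg (pe σ) (A1 (σ a) (σ b)) = A1 a b := pb_pA (pe σ) (a, true) (b, true)

theorem pe_B (σ : Equiv.Perm (Fin 4)) (a b c : Fin 4) :
    pb Neg.neg (pe σ) (B1 (σ a) (σ b) (σ c)) = B1 a b c := pb_pB (pe σ) (a, true) (b, true) (c, true)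

theorem sg_ep (i j : Fin 4) : sg j (rf i) = (ep i j : ℤ) := by
  rw [sg_rf, ep]
  split_ifs <;> simp

theorem odd_zero {x : ℂ} {s : ℤ} (h : x = s * x) (e : s = -1) : x = 0 := by
  rw [e] at h
  push_cast at h
  linear_combination h / 2

theorem ex_pe : ∀ m r : Fin 4, m ≠ 0 → r ≠ 0 → m ≠ r →
    ∃ σ : Equiv.Perm (Fin 4), σ 0 = 0 ∧ σ 1 = m ∧ σ 2 = r := by decide

theorem pe_mem {σ : Equiv.Perm (Fin 4)} (h0 : σ 0 = 0) (h1 : σ m = m) : pe σ ∈ KK m :=
  fun _ e => e.elim (· ▸ h0) (· ▸ h1)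

set_option synthInstance.maxSize 4000 in
/-- invariant vectors -/
theorem inv_vec (h : ∀ g ∈ KK 0, sg 0 g • act g X = X) : E0 (sig X) 0 ∧
    (sig X (A1 0 1) (B1 0 0 1) = 0 → sig X (A1 0 1) (B1 2 2 1) = 0 →
      sig X (A1 1 2) (B1 0 1 2) = 0 → E1 (sig X) 0) := by
  have K := gk_sig X
  refine ⟨fun a b c d => ?_, fun h1 h2 h3 a b c d e => ?_⟩
  · obtain ⟨i, e⟩ : ∃ i, ep i 0 * (ep i a * ep i b) * (ep i c * ep i d) = -1 := by
      revert a b c d
      decide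
    refine odd_zero ((inv_sig (h _ (rf_mem i 0)) _ _).trans ?_) e
    simp [rf_A, sg_ep, mul_assoc, mul_left_comm]
  have p : ∀ m r : Fin 4, m ≠ 0 → r ≠ 0 → m ≠ r → sig X (A1 0 m) (B1 0 0 m) = 0 ∧
      sig X (A1 0 m) (B1 r r m) = 0 ∧ sig X (A1 m r) (B1 0 m r) = 0 := fun m r a b c => by
    obtain ⟨σ, s0, rfl, rfl⟩ := ex_pe m r a b c
    have := fun a b c d e => inv_sig (h _ (pe_mem s0 s0)) (A1 (σ a) (σ b)) (B1 (σ c) (σ d) (σ e))
    simp only [pe_A, pe_B] at this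
    have a1 := this 0 1 0 0 1
    have a2 := this 0 1 2 2 1
    have a3 := this 1 2 0 1 2
    simp only [s0, h1, h2, h3, mul_zero] at a1 a2 a3
    exact ⟨a1, a2, a3⟩
  have q : ∀ a b c d : Fin 4, sig X (A1 a b) (B1 c c d) = 0 → sig X (A1 a b) (B1 c d c) = 0 :=
    fun a b c d e => by
      have := K.cyc c c d (A1 a b)
      rw [B_symm d c] at this
      linear_combination this / 2 - e / 2
  have : (∃ i, ep i 0 * (ep i a * ep i b) * (ep i c * ep i d * ep i e) = -1) ∨ a = b ∨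
      (c = d ∧ d = e) ∨ ∃ m r : Fin 4, m ≠ 0 ∧ r ≠ 0 ∧ m ≠ r ∧
      ((a, b) ∈ [(0, m), (m, 0)] ∧ (c, d, e) ∈ [(0, 0, m), (0, m, 0), (m, 0, 0), (r, r, m), (r, m, r),
        (m, r, r)] ∨ (a = m ∧ b = r) ∧ (c, d, e) ∈ [(0, m, r), (m, 0, r), (0, r, m), (r, 0, m),
        (m, r, 0), (r, m, 0)]) := by
    revert a b c d e
    decide +kernel
  rcases this with ⟨i, e⟩ | rfl | ⟨rfl, rfl⟩ | ⟨m, r, m0, r0, mr, k⟩
  · refine odd_zero ((inv_sig (h _ (rf_mem i 0)) _ _).trans ?_) e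
    simp [rf_A, rf_B, sg_ep, mul_assoc, mul_left_comm]
  · exact K.diag _ _
  · have := K.cyc c c c (A1 a b)
    change _ = 0
    linear_combination this / 3
  obtain ⟨p1, p2, p3⟩ := p m r m0 r0 mr
  have p4 : sig X (A1 m r) (B1 0 r m) = 0 := by rw [K.anti, (p r m r0 m0 mr.symm).2.2, neg_zero]
  have p5 := K.cyc 0 m r (A1 m r)
  rw [p3, B_symm r 0, p4, zero_add, add_zero] at p5
  simp only [List.mem_cons, List.not_mem_nil, or_false, Prod.mk.injEq] at k
  rcases k with ⟨⟨rfl, rfl⟩ | ⟨rfl, rfl⟩, k⟩ | ⟨⟨rfl, rfl⟩, k⟩ <;>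
    rcases k with ⟨rfl, rfl, rfl⟩ | ⟨rfl, rfl, rfl⟩ | ⟨rfl, rfl, rfl⟩ | ⟨rfl, rfl, rfl⟩ |
      ⟨rfl, rfl, rfl⟩ | ⟨rfl, rfl, rfl⟩ <;>
    first
    | assumption
    | exact q _ _ _ _ ‹_›
    | (rw [B_symm]; first | assumption | exact q _ _ _ _ ‹_›)
    | (rw [K.anti]; refine neg_eq_zero.2 ?_; first
        | assumption
        | exact q _ _ _ _ ‹_›
        | (rw [B_symm]; exact q _ _ _ _ ‹_›))

set_option synthInstance.maxSize 4000 in
/-- invariant components of a current -/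
theorem inv_sca (h : ∀ g ∈ KK m, ch m g • act g X = X)
    (h0 : m = 0 → sig X (A1 0 1) (A1 0 1) = 0 ∧ sig X (A1 1 2) (A1 1 2) = 0)
    (h1 : m ≠ 0 → ∃ r, r ≠ 0 ∧ r ≠ m ∧ sig X (A1 0 r) (A1 m r) = 0) : E0 (sig X) 0 := by
  have K := gk_sig X
  intro a b c d
  have : (∃ i, ep i 0 * ep i m * (ep i a * ep i b) * (ep i c * ep i d) = -1) ∨ a = b ∨ c = d ∨
      m = 0 ∧ (c, d) ∈ [(a, b), (b, a)] ∨ m ≠ 0 ∧ ∃ r, r ≠ 0 ∧ r ≠ m ∧
        ((a, b) ∈ [(0, r), (r, 0)] ∧ (c, d) ∈ [(m, r), (r, m)] ∨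
          (c, d) ∈ [(0, r), (r, 0)] ∧ (a, b) ∈ [(m, r), (r, m)]) := by
    clear h h0 h1
    revert m a b c d
    decide +kernel
  simp only [List.mem_cons, List.not_mem_nil, or_false, Prod.mk.injEq] at this
  rcases this with ⟨i, e⟩ | rfl | rfl | ⟨rfl, k⟩ | ⟨m0, r, r0, rm, k⟩
  · refine odd_zero ((inv_sig (h _ (rf_mem i m)) _ _).trans ?_) e
    simp [rf_A, ch, sg_ep, mul_assoc, mul_left_comm]
  · exact K.diag _ _
  · exact (K.symm _ _).trans (K.diag _ _)
  · have p : ∀ m r : Fin 4, m ≠ 0 → r ≠ 0 → m ≠ r → sig X (A1 0 m) (A1 0 m) = 0 ∧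
        sig X (A1 m r) (A1 m r) = 0 := fun m r a b c => by
      obtain ⟨σ, s0, rfl, rfl⟩ := ex_pe m r a b c
      have := fun a b => inv_sig (h _ (pe_mem s0 s0)) (A1 (σ a) (σ b)) (A1 (σ a) (σ b))
      simp only [pe_A] at this
      have a1 := this 0 1
      have a2 := this 1 2
      simp only [s0, (h0 rfl).1, (h0 rfl).2, mul_zero] at a1 a2
      exact ⟨a1, a2⟩
    have q : sig X (A1 a b) (A1 a b) = 0 := by
      rcases (by decide : ∀ a b : Fin 4, a = b ∨ (a ≠ 0 ∧ b ≠ 0 ∧ a ≠ b) ∨ ∃ r, r ≠ 0 ∧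
        (a = 0 ∧ b ≠ 0 ∧ b ≠ r ∨ b = 0 ∧ a ≠ 0 ∧ a ≠ r)) a b with
        rfl | ⟨x, y, z⟩ | ⟨r, x, ⟨rfl, y, z⟩ | ⟨rfl, y, z⟩⟩
      · exact K.diag _ _
      · exact (p _ _ x y z).2
      · exact (p _ _ y x z).1
      · rw [K.anti, K.anti', (p _ _ y x z).1, neg_neg]
    rcases k with ⟨rfl, rfl⟩ | ⟨rfl, rfl⟩
    · exact q
    · rw [K.anti', q]
      exact neg_zero
  · have q : sig X (A1 0 r) (A1 m r) = 0 := by
      obtain ⟨s, s0, sm, e⟩ := h1 m0
      have a0 := Equiv.swap_apply_of_ne_of_ne s0.symm r0.symm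
      have a1 := Equiv.swap_apply_of_ne_of_ne sm.symm rm.symm
      have := inv_sig (h _ (pe_mem a0 a1)) (A1 (Equiv.swap s r 0) (Equiv.swap s r s))
        (A1 (Equiv.swap s r m) (Equiv.swap s r s))
      rwa [pe_A, pe_A, e, mul_zero, a0, a1, Equiv.swap_apply_left] at this
    have q1 : sig X (A1 0 r) (A1 r m) = 0 := by rw [K.anti', q, neg_zero]
    have q2 : sig X (A1 r 0) (A1 m r) = 0 := by rw [K.anti, q, neg_zero]
    have q3 : sig X (A1 r 0) (A1 r m) = 0 := by rw [K.anti, q1, neg_zero]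
    rcases k with ⟨⟨rfl, rfl⟩ | ⟨rfl, rfl⟩, ⟨rfl, rfl⟩ | ⟨rfl, rfl⟩⟩ |
      ⟨⟨rfl, rfl⟩ | ⟨rfl, rfl⟩, ⟨rfl, rfl⟩ | ⟨rfl, rfl⟩⟩ <;>
    first | assumption | (rw [K.symm]; assumption)

end inv

/-! ### Values -/

/-- scalar product of two directions -/
def ip (d e : Dr) : ℝ := (cd (dv d) e : ℤ)

theorem ip_g (g : B4) (d e : Dr) : ip (g.1 d) (g.1 e) = ip d e := by rw [ip, ← gv_dv, cd_gv', ip]

theorem ip_fl (d e : Dr) : ip (fl d) e = -ip d e := by simp [ip, cd_neg]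

theorem ip_sum (d e : Dr) : ip d e = ∑ m, ip (m, true) d * ip (m, true) e := by
  have : ∀ d e : Dr, cd (dv d) e = ∑ m, cd (dv (m, true)) d * cd (dv (m, true)) e := by decide
  simp only [ip]
  exact_mod_cast this d e

theorem ip_de (a b : Fin 4) : ip (a, true) (b, true) = de a b := by
  simp [ip, dv, cd, un, de, Pi.single_apply, eq_comm]

theorem dd_pA (d e : Dr) (x : St) (m r : Fin 4) :
    dd (pA d e) x m r = ip (m, true) d * ip (r, true) e - ip (r, true) d * ip (m, true) e := by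
  simp only [dd, pA, cd_add, ip, dv, if_true]
  push_cast
  ring

/-- the free stress tensor -/
def tau (s d e d' e' : Dr) : ℝ :=
  ip (0, true) d * (ip s e' * ip e d' - ip s d' * ip e e') -
    ip (0, true) e * (ip s e' * ip d d' - ip s d' * ip d e') +
  (ip (0, true) d' * (ip s e * ip e' d - ip s d * ip e' e) -
    ip (0, true) e' * (ip s e * ip d' d - ip s d * ip d' e)) +
  ip s (0, true) * (ip d d' * ip e e' - ip d e' * ip e d')

theorem sig_th (s d e d' e' : Dr) : sig (cd thL s) (pA d e) (pA d' e') = tau s d e d' e' := by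
  have : ∀ r, sig (thL r) (pA d e) (pA d' e') = tau (r, true) d e d' e' := fun r => by
    simp only [thL, map_add, LinearMap.add_apply, apply_ite sig,
      DFunLike.ite_apply, map_smul, LinearMap.smul_apply, map_zero, LinearMap.zero_apply, sig_lt,
      fx_las, fx_rec, fx_pq, dd_pA, tau, ip_de, de, ip_sum d, ip_sum e, ip_sum d', ip_sum e',
      Fin.sum_univ_four, smul_eq_mul]
    split_ifs <;> push_cast <;> ring
  obtain ⟨r, b⟩ := s
  cases b
  · rw [show (r, false) = fl (r, true) from rfl, cd_fl, map_neg, LinearMap.neg_apply,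
      LinearMap.neg_apply, cd, if_pos rfl, this]
    simp only [tau, ip_fl]
    push_cast
    ring
  · exact this r

theorem sig_OT (m a b c d : Fin 4) : sig (OT m) (A1 a b) (A1 c d) =
    tau (m, true) (a, true) (b, true) (c, true) (d, true) := by
  classical
  have : (Nat.card (KK 0) : ℂ) ≠ 0 := Nat.cast_ne_zero.2 Nat.card_pos.ne'
  have e : ∀ g : KK 0, sig (ro g thL m) (A1 a b) (A1 c d) =
      tau (m, true) (a, true) (b, true) (c, true) (d, true) := fun g => by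
    have p : ∀ d e, pb Neg.neg g (pA d e) = pA (g.1⁻¹.1 d) (g.1⁻¹.1 e) := fun d e => by
      simpa using pb_pA g (g.1⁻¹.1 d) (g.1⁻¹.1 e)
    have q : ∀ d, ip (0, true) (g.1⁻¹.1 d) = ip (g.1.1 (0, true)) d := fun d => by
      rw [← ip_g g]
      simp
    have q' : ∀ d, ip (g.1⁻¹.1 d) (0, true) = ip d (g.1.1 (0, true)) := fun d => by
      rw [← ip_g g]
      simp
    have f : ∀ d e, ip d (fl e) = -ip d e := fun d e => by simp [ip]
    simp only [ro_apply, map_smul, LinearMap.smul_apply, sig_act, A1, p, gv, sig_th, tau, ip_g, q, q']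
    rcases sg_cases (g.2 0 (.inl rfl)) with ⟨x, y⟩ | ⟨x, y⟩ <;> simp only [x, y, ip_fl, f] <;>
      push_cast <;> ring
  simp only [OT, cov_apply, Pi.smul_apply, Finset.sum_apply, map_smul, map_sum,
    LinearMap.smul_apply, LinearMap.sum_apply, e]
  rw [sum_const, card_univ, ← Nat.card_eq_fintype_card, ← Nat.cast_smul_eq_nsmul ℂ,
    inv_smul_smul₀ this]

theorem cd_zero (d : Dr) : cd (0 : St) d = 0 := by
  unfold cd
  split_ifs <;> rfl

theorem sig_phS (a b c d : Fin 4) :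
    sig phS (A1 a b) (A1 c d) = (de a c * de b d - de a d * de b c : ℝ) := by
  have e : ∀ d e x y, fx (pA d e) 0 (pq x y).1 = ip x d * ip y e - ip y d * ip x e := by
    rintro d e ⟨m, _ | _⟩ ⟨r, _ | _⟩ <;>
      simp [pq, fx, stp, pA, fl, dv, ip, cd_add, cd_sub, cd_neg, cd_zero] <;> ring
  have f : ∀ m d, ip (m, false) d = -ip (m, true) d := fun m => ip_fl (m, true)
  simp only [phS, pl, map_smul, map_sum, LinearMap.smul_apply, LinearMap.sum_apply, sig_lt, A1, e]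
  simp only [Fintype.sum_prod_type, Fintype.sum_bool, f, ← ip_de, ip_sum (a, true),
    ip_sum (b, true), Fin.sum_univ_four, smul_eq_mul]
  push_cast
  ring

theorem sig_dvg (Y : Fin 4 → Let) (a b c d e : Fin 4) : sig (dvg Y) (A1 a b) (B1 c d e) =
    sig (Y d) (A1 a b) (A1 c e) + sig (Y c) (A1 a b) (A1 d e) := by
  simp only [dvg, map_smul, map_sum, map_sub, LinearMap.smul_apply, LinearMap.sum_apply,
    LinearMap.sub_apply, sig_tr, sh_A', map_add, LinearMap.add_apply, (gk_sig _).gr, add_zero]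
  simp only [← map_sub, sh_B, map_add, map_smul]
  simp only [de, mul_ite, mul_zero, ite_smul, zero_smul,
    sum_add_distrib, sum_ite_eq, mem_univ, if_true, Complex.real_smul, smul_eq_mul]
  push_cast
  ring

/-- the family for the vector expansion realises all forms -/
theorem onto_PF {k : V →ₗ[ℝ] V →ₗ[ℝ] ℂ} (h : Gk k) : ∃ c : Fin 3 ⊕ Iv → ℂ,
    E0 (sig (∑ i, c i • PF i)) k ∧ E1 (sig (∑ i, c i • PF i)) k := by
  obtain ⟨c, h0, h1⟩ := onto_V h
  obtain ⟨P, hP⟩ : ∃ P, P = avg (KK 0) (sg 0) (∑ i, c i • Vg i) := ⟨_, rfl⟩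
  obtain ⟨z, hz⟩ : ∃ z : Fin 3 → ℂ, z = ![sig P (A1 0 1) (B1 0 0 1) / 4 +
    sig P (A1 1 2) (B1 0 1 2) / 2 - sig P (A1 0 1) (B1 2 2 1) / 4, -sig P (A1 0 1) (B1 0 0 1) / 4 +
    sig P (A1 1 2) (B1 0 1 2) / 2 - sig P (A1 0 1) (B1 2 2 1) / 4,
    -sig P (A1 0 1) (B1 2 2 1) / 2] := ⟨_, rfl⟩
  obtain ⟨a0, a1⟩ := inv_vec (X := P - ∑ ρ, z ρ • dvg (WW ρ)) fun g hg => by
    simp only [map_sub, map_sum, map_smul, smul_sub, smul_sum, smul_comm (sg 0 g),
      (cov_WW _).dvg g hg, hP, act_avg sg0_mul hg]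
  replace a1 := a1 ?_ ?_ ?_
  · have e : ∑ i, Sum.elim z c i • PF i = ∑ i, c i • Vg i - (P - ∑ ρ, z ρ • dvg (WW ρ)) := by
      simp only [Fintype.sum_sum_type (α₁ := Fin 3), Sum.elim_inl, Sum.elim_inr, PF, smul_sub,
        sum_sub_distrib, hP, map_sum, map_smul]
      abel
    refine ⟨Sum.elim z c, fun a b x d => ?_, fun a b x d f => ?_⟩
    · rw [e, map_sub, LinearMap.sub_apply, LinearMap.sub_apply, h0 a b x d, a0 a b x d]
      simp
    · rw [e, map_sub, LinearMap.sub_apply, LinearMap.sub_apply, h1 a b x d f, a1 a b x d f]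
      simp
  all_goals
    simp [Fin.sum_univ_three, sig_dvg, WW, sig_OT, sig_phS, tau, ip_de, de, hz]
    ring

/-- the families for the scalar expansions realise all forms on constant curvature -/
theorem onto_OF (m : Fin 4) {k : V →ₗ[ℝ] V →ₗ[ℝ] ℂ} (h : Gk k) : ∃ c : Fin 3 ⊕ Iv → ℂ,
    E0 (sig (∑ i, c i • OF m i)) k := by
  obtain ⟨c, h0, -⟩ := onto_V h
  obtain ⟨P, hP⟩ : ∃ P, P = avg (KK m) (ch m) (∑ i, c i • Vg i) := ⟨_, rfl⟩
  obtain ⟨r, r0, rm⟩ := (by decide : ∀ m : Fin 4, ∃ r : Fin 4, r ≠ 0 ∧ r ≠ m) m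
  obtain ⟨z, hz⟩ : ∃ z : Fin 3 → ℂ, z = ![(sig P (A1 0 1) (A1 0 1) + sig P (A1 1 2) (A1 1 2)) / 2,
    (sig P (A1 1 2) (A1 1 2) - sig P (A1 0 1) (A1 0 1)) / 2, -sig P (A1 0 r) (A1 m r)] := ⟨_, rfl⟩
  have a0 := inv_sca (m := m) (X := P - ∑ ρ, z ρ • WW ρ m) (fun g hg => by
    simp only [map_sub, map_sum, map_smul, smul_sub, smul_sum, smul_comm (ch m g),
      (cov_WW _).inv m g hg, hP, act_avg (ch_mul m) hg]) (fun e => by
      subst e
      constructor <;> simp [Fin.sum_univ_three, WW, sig_OT, sig_phS, tau, ip_de, de, hz] <;> ring)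
    fun e => ⟨r, r0, rm, by
      simp [Fin.sum_univ_three, WW, sig_OT, tau, ip_de, de, hz, e, r0, rm, r0.symm, rm.symm,
        Ne.symm e]⟩
  have e : ∑ i, Sum.elim z c i • OF m i = ∑ i, c i • Vg i - (P - ∑ ρ, z ρ • WW ρ m) := by
    simp only [Fintype.sum_sum_type (α₁ := Fin 3), Sum.elim_inl, Sum.elim_inr, OF, smul_sub,
      sum_sub_distrib, hP, map_sum, map_smul]
    abel
  refine ⟨Sum.elim z c, fun a b x d => ?_⟩
  rw [e, map_sub, LinearMap.sub_apply, LinearMap.sub_apply, h0 a b x d, a0 a b x d]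
  simp

end Pool.Agent.Lib.MP_7f377f_mp.RG.Wd
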