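import Pool.Agent.Lib.MP_7f377f_mp.PEnd
import Pool.Agent.Lib.MP_7f377f_mp.RGTop3

/-! Static quark potential of four dimensional `SU(2)` lattice Yang-Mills theory at weak coupling:
`V(R) ≤ β^(-c) (1 + R exp (-β^c))`, uniformly in the spatial volume. -/

open MeasureTheory Real Pool.Agent.Lib.MP_7f377f_mp.Poly

theorem Pool.Agent.Lib.MP_7f377f_mp.static_potential [MeasurableSpace SU2]
    [BorelSpace SU2] (μ : Measure SU2) [μ.IsHaarMeasure] [IsProbabilityMeasure μ] :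
    ∃ c β₀ : ℝ, 0 < c ∧ ∀ β, β₀ ≤ β → ∃ q : ℕ, 0 < q ∧
      ∀ n : Fin 3 → ℕ, (∀ i, q ∣ n i) → ∃ C : ℝ, 0 < C ∧
        ∀ (N : Fin 4 → ℕ) [∀ i, NeZero (N i)], (∀ i, N i.succ = n i) → 4 ∣ N 0 →
          ∀ R : ℕ, R ≤ N 1 → Even R ∨ R ≤ exp (β ^ c) →
            C * exp (-(N 0 * (1 + R * exp (-β ^ c)) / β ^ c)) ≤ expect μ β
              fun U : Site N × Fin 4 → SU2 =>
                polyakov U 0 * polyakov U (Pi.single 1 (R : ZMod (N 1))) :=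
  main Pool.Agent.Lib.MP_7f377f_mp.RG.JT.sand_main' μ
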