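import Pool.Agent.Lib.MP_7f377f_mp.LgTW

/-! Arrays of sources which are normalised at the scale of the cells. -/

noncomputable section

namespace Pool.Agent.Lib.MP_7f377f_mp.Th

open MeasureTheory Filter Topology Real YM7 Weak Jet Finset Lg TW

section
variable [MeasurableSpace SU2] (h : Measure SU2) {ι : Type} (Φ : Filter ι) (n : ι → ℕ)
  [∀ p, NeZero (n p)] (a b τ : ι → ℝ)

/-- one source in each cell, gradient at the scale of the mesh, small weight -/
def Poly4 : Prop :=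
  ∃ C : ℝ, 0 ≤ C ∧ ∀ η > 0, ∀ᶠ e : ℕ in atTop, ∀ᶠ p in Φ, ∃ (m lam : ℕ) (_ : NeZero m), Odd m ∧
    3 ^ e ∣ m ∧ n p = m * lam ∧ a p * lam = (3 ^ e)⁻¹ ∧ ∃ Λ, Inv Λ lam ∧ Gen h (b p) (κ := Unit)
      (n := n p) Λ (Cla (m := m) (a p) (a p * 3 ^ e) (τ p) ((3 ^ e)⁻¹ / 32) lam 0) η (exp (C * m ^ 4))

end

/-- small bounds for sources in the middle of slots of width `3 / 2 * 3 ^ -e` -/
def ArrT (S : ∀ {k : ℕ}, (Fin k → R4 → ℝ) → ℝ) : Prop :=
  ∀ γ > 0, ∀ᶠ e : ℕ in atTop, ∀ (k : ℕ) (c : Fin k → Fin 4 → ℤ) (f : Fin k → R4 → ℝ), Adm f →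
    c.Injective → (∀ i, LipschitzWith (3 ^ e) (f i) ∧ ∀ y, |f i y| ≤ 1 ∧ (f i y ≠ 0 →
      ∀ l, |y l - (c i l + 1 / 2) * (3 / 2 * (3 ^ e)⁻¹)| ≤ (3 ^ e)⁻¹ / 32)) → |S f| ≤ γ ^ k

variable {n m u : ℕ} [NeZero n] [NeZero m] [MeasurableSpace SU2] [BorelSpace SU2] {h : Measure SU2}
  [h.IsHaarMeasure] [IsProbabilityMeasure h] {b M C w a τ : ℝ}

omit [NeZero m] in
theorem centre {ι : Type} [DecidableEq ι] (A : Finset ι) (F : ι → Src n) (al : ι → ℝ)
    (h1 : ∀ B ⊆ A, |∫ U, ∏ c ∈ B, (gfield (F c) U - al c) ∂wilson h b n| ≤ M * w ^ B.card)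
    (h2 : ∀ c ∈ A, |∫ U, gfield (F c) U ∂wilson h b n - al c| ≤ C) :
    |∫ U, ∏ c ∈ A, cen h b (F c) U ∂wilson h b n| ≤ M * (w + C) ^ A.card := by
  have cg := continuous_gfield (n := n)
  have e : ∀ U, ∏ c ∈ A, cen h b (F c) U = ∑ B ∈ A.powerset, (∏ c ∈ B, (gfield (F c) U - al c)) *
      ∏ c ∈ A \ B, (al c - ∫ U, gfield (F c) U ∂wilson h b n) := fun U => by
    rw [← prod_add]
    simp only [cen, sub_add_sub_cancel]
  simp only [e]
  rw [integral_finsetSum _ fun B _ => cint _ (by fun_prop), ← prod_const, prod_add, mul_sum]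
  refine (abs_sum_le_sum_abs _ _).trans (sum_le_sum fun B hB => ?_)
  rw [integral_mul_const, abs_mul, prod_const, ← mul_assoc, abs_prod]
  have := h1 B (mem_powerset.1 hB)
  refine mul_le_mul this (prod_le_prod (fun _ _ => abs_nonneg _) fun c hc => ?_)
    (prod_nonneg fun _ _ => abs_nonneg _) ((abs_nonneg _).trans this)
  rw [abs_sub_comm]
  exact h2 c (mem_sdiff.1 hc).1

theorem cent {lam : ℕ} {a' δ : ℝ} {Λ : (Cfg n → ℝ) → ℝ} (b0 : 0 ≤ b) (hm : Odd m) (hn : n = m * lam)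
    (m1 : 1 < m) (ha : 0 < a) (ha' : 0 ≤ a') (hδ : a ≤ δ) (hτ : 2 * a' ≤ τ) (hI : Inv Λ lam)
    (w0 : 0 < w) (C0 : 0 ≤ C)
    (hG : Gen h b (κ := Unit) Λ (Cla (m := m) a a' (4 * τ) δ lam 0) w (exp (C * m ^ 4)))
    (A : Finset (Site 4 m)) (F : Site 4 m → Src n)
    (hA : ∀ c ∈ A, Nrm a' (2 * τ) (F c) ∧ InT a (2 * δ) lam c (F c)) :
    |∫ U, ∏ c ∈ A, cen h b (F c) U ∂wilson h b n| ≤
      exp (C * m ^ 4) * (w + exp (256 * C) * w) ^ A.card := by
  refine centre A F (fun c => (jd {()} fun s => (ma univ (mom Λ fun _ : Unit => F c) s)⁻¹).re)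
    (fun B hB => ?_) fun c hc => ?_
  · have := hG.le hI w0 (F := fun c _ => if c ∈ B then F c else 0) (fun c => ⟨fun _ => ?_,
      fun _ _ e => (e rfl).elim⟩) fun c => if c ∈ B then {()} else ∅
    · have e : ∀ U, ∏ c ∈ B, (gfield (F c) U - (jd {()} fun s => (ma univ (mom Λ fun _ : Unit => F c)
          s)⁻¹).re) = (-1) ^ B.card * ∏ c, ob Λ (fun _ : Unit => if c ∈ B then F c else 0)
            (if c ∈ B then {()} else ∅) U := fun U => by
        rw [← prod_subset (subset_univ B) fun c _ hc => by simp only [if_neg hc, hI.ob0], ← prod_const,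
          ← prod_mul_distrib]
        exact prod_congr rfl fun c hc => by simp [hc, hI.ob1]
      simpa only [e, integral_const_mul, abs_mul, abs_pow, abs_neg, abs_one, one_pow, one_mul,
        apply_ite Finset.card, card_singleton, card_empty, pow_ite, pow_one, pow_zero, prod_ite_mem,
        univ_inter, prod_const] using this
    · split_ifs with hc
      · obtain ⟨⟨g, g1, g2, g3⟩, k⟩ := hA c (hB hc)
        exact ⟨⟨g, g1, g2, fun x i j => (g3 x i j).trans (by linarith)⟩, fun x i j e l =>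
          ⟨by linarith [(k x i j e l).1], by linarith [(k x i j e l).2]⟩⟩
      · exact ⟨⟨0, by simp, by simpa using ha', by simp; linarith⟩, fun _ _ _ e => (e rfl).elim⟩
  · have := ob_le (F := fun _ => F c) (c := c) b0 hm hn m1 ha (ha.le.trans hδ) (δ' := 2 * δ)
      (by linarith) (τ' := 2 * τ) (by linarith) hI w0 C0 hG ⟨fun _ => hA c hc,
        fun _ _ e => (e rfl).elim⟩ {()}
    simp only [hI.ob1] at this
    rw [integral_sub (integrable_const _) (cint _ (continuous_gfield _)), abs_sub_comm] at this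
    simpa using this

omit [BorelSpace SU2] [h.IsHaarMeasure] [IsProbabilityMeasure h] in
theorem fine {m' : ℕ} [NeZero m'] (hm : m' = 3 * m) (hn : n = m' * u) (hu : 64 ≤ u) (ha : 0 < a)
    (hP : ∀ (A : Finset (Site 4 m')) (G : Site 4 m' → Src n), A.card = (2 * m) ^ 4 →
      (∀ c ∈ A, Nrm a τ (G c) ∧ InT a (a * u / 16) u c (G c)) →
      |∫ U, ∏ c ∈ A, cen h b (G c) U ∂wilson h b n| ≤ M) {z : Fin 4 → ℤ} {F : Src n}
    (hF : Lc a τ u z F) {j w : Fin 4 → ℤ}
    (hz : ∀ l, z l = 3 * u * j l + w l ∧ u ≤ 8 * |w l| ∧ 8 * |w l| ≤ 7 * u) :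
    |∫ U, ∏ g : (Fin 4 → Bool) × Site 4 m, cen h b (img (3 * u) g F) U ∂wilson h b n| ≤ M := by
  classical
  obtain ⟨C, hC⟩ : ∃ C : (Fin 4 → Bool) × Site 4 m → Fin 4 → ℤ, ∀ g l, C g l =
      3 * ((if g.1 l then -j l else j l) + (g.2 l).val) +
        if 0 < (if g.1 l then -w l else w l) then 0 else -1 := ⟨_, fun _ _ => rfl⟩
  have inj : Function.Injective fun g l => (C g l : ZMod m') := fun g g' e => by
    have key : ∀ l, g.1 l = g'.1 l ∧ g.2 l = g'.2 l := fun l => by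
      obtain ⟨i, hi⟩ := (ZMod.intCast_eq_intCast_iff_dvd_sub _ _ _).1 (congrFun e l)
      have := (hz l).2.1
      rw [hC, hC, hm, Nat.cast_mul, mul_assoc] at hi
      rw [abs_eq_max_neg] at this
      cases h1 : g.1 l <;> cases h2 : g'.1 l <;> simp only [h1, h2, if_true, if_false,
        Bool.false_eq_true, Nat.cast_ofNat] at hi
      exacts [⟨rfl, zm_eq (i := i) (by omega)⟩, by omega, by omega, ⟨rfl, zm_eq (i := i) (by omega)⟩]
    exact Prod.ext (funext fun l => (key l).1) (funext fun l => (key l).2)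
  have := hP (univ.image fun g l => (C g l : ZMod m'))
    (Function.extend (fun g l => (C g l : ZMod m')) (fun g => img (3 * u) g F) 0)
    (by rw [card_image_of_injective _ inj]; simp [mul_pow]) fun c hc => by
      obtain ⟨g, -, rfl⟩ := mem_image.1 hc
      rw [inj.extend_apply]
      refine (hF.im _ g).cell hu hn ha fun l => ?_
      obtain ⟨h1, h2, h3⟩ := hz l
      rw [abs_eq_max_neg] at h2 h3
      have e : (if g.1 l then -z l else z l) + (3 * u : ℕ) * (g.2 l).val - u * C g l =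
          (if g.1 l then -w l else w l) +
            if 0 < (if g.1 l then -w l else w l) then 0 else (u : ℤ) := by
        rw [hC, h1]
        push_cast
        split_ifs <;> ring
      rw [e]
      omega
  simpa only [prod_image inj.injOn, inj.extend_apply] using this

variable {ι : Type} {Φ : Filter ι} {nn : ι → ℕ} [∀ p, NeZero (nn p)] {a b τ : ι → ℝ} {U : Filter ι}
  [U.NeBot] {S : ∀ {k : ℕ}, (Fin k → R4 → ℝ) → ℝ}

omit [NeZero n] [NeZero m] in
theorem arrT_of (hF : Fam Φ nn a b τ) (hP : Poly4 h Φ nn a b fun p => 4 * τ p) (hU : U ≤ Φ)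
    (cv : ∀ {k} {f : Fin k → R4 → ℝ}, Adm f →
      Tendsto (fun p => corr h (b p) (nn p) (a p) f) U (𝓝 (S f))) : ArrT S := by
  obtain ⟨C, C0, hP⟩ := hP
  intro γ γ0
  obtain ⟨η, η0, hη⟩ : ∃ η > 0, exp (6 * C) * (η + exp (256 * C) * η) = γ :=
    ⟨γ / (exp (6 * C) * (1 + exp (256 * C))), by positivity, by field_simp⟩
  refine ((hP η η0).and (eventually_ne_atTop 0)).mono fun e ⟨hP, e0⟩ k c f hf hc h1 =>
    le_of_tendsto (cv hf).abs (Eventually.filter_mono hU ?_)
  beta_reduce at h1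
  obtain ⟨D, -, h4, -⟩ := hf.data
  obtain ⟨R, hR⟩ := Finite.exists_le fun q : Fin k × Fin 4 => |c q.1 q.2|
  obtain ⟨E, hE, hb⟩ := hF.big_box (fun _ => -3 * R) fun _ => 3 * R
  have e3 : (0 : ℝ) < 3 ^ e := by positivity
  filter_upwards [hP, hb, hF.pos, hF.big (2 * D), hF.tau.eventually_ge_atTop (4 * 3 ^ e),
    hF.small (show (0 : ℝ) < (3 ^ e)⁻¹ / 64 by positivity)]
    with p ⟨m', u, _, ho, hm, hn, hu, Λ, hI, hG⟩ ⟨b0, h5⟩ ⟨ha, τ0⟩ h7 h8 h9
  obtain ⟨m, hm⟩ := (dvd_pow_self 3 e0).trans hm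
  rw [le_div_iff₀ ha] at h8
  obtain ⟨h6, m1⟩ := h5 _ _ hn (hu ▸ inv_le_one_of_one_le₀ (one_le_pow₀ (by norm_num)))
  have a0 : 0 < a p * 3 ^ e := by positivity
  have hP := cent b0 ho hn m1 ha a0.le (by linarith [inv_pos.2 e3]) (by linarith) hI η0 C0 hG
  have a1 : a p ≤ a p * 3 ^ e := le_mul_of_one_le_right ha.le (one_le_pow₀ (by norm_num))
  rw [← hu] at h1 hP h9
  have u0 : 64 ≤ u := by
    have : (64 : ℝ) ≤ u := le_of_mul_le_mul_left (by linarith) ha
    exact_mod_cast this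
  have o1 : Odd m := (Nat.odd_mul.1 (hm ▸ ho)).2
  have : NeZero m := ⟨o1.pos.ne'⟩
  obtain ⟨z, hz⟩ : ∃ z : Fin k → Fin 4 → ℤ, ∀ i l, z i l = (2 * c i l + 1) * (3 * u) / 4 :=
    ⟨_, fun _ _ => rfl⟩
  have lc : ∀ i, Lc (a p * 3 ^ e) (2 * τ p) u (z i) (src (nn p) (a p) (f i)) := fun i => by
    have g2 := grad_site (n := nn p) e3.le (fun y l t => ((h1 i).1.dist_le_mul _ _).trans_eq (by
      rw [dist_eq_norm, add_sub_cancel_left, PiLp.norm_single]; simp)) (cube_of (h4 i)) ha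
        (by linarith)
    rw [mul_comm] at g2
    refine ⟨⟨fun x => f i (xp (a p) x), fun _ => ((h1 i).2 _).1, g2, fun x _ _ x' hx => ?_⟩,
      fun x _ _ x' hx hx' l => ?_⟩
    · have := lip_cube (g := fun x => f i (xp (a p) x)) g2 (x := x) (y := x')
        fun l => (hx l).imp_right fun e => e.2
      rw [abs_sub_comm] at this
      exact this.trans (by linarith)
    · obtain ⟨s1, s2⟩ : _ ≤ a p * (x l).valMinAbs - _ ∧ _ := abs_le.1 (((h1 i).2 _).2 hx l)
      change a p * (x l).valMinAbs - _ ≤ _ at s2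
      have s3 : 32 * (x l).valMinAbs - 8 * ((2 * c i l + 1) * (3 * u)) ≤ u := by
        have : (32 * (x l).valMinAbs - 8 * ((2 * c i l + 1) * (3 * u)) : ℝ) ≤ u :=
          le_of_mul_le_mul_left (by linarith) ha
        exact_mod_cast this
      have s4 : 8 * ((2 * c i l + 1) * (3 * u)) - 32 * (x l).valMinAbs ≤ u := by
        have : (8 * ((2 * c i l + 1) * (3 * u)) - 32 * (x l).valMinAbs : ℝ) ≤ u :=
          le_of_mul_le_mul_left (by linarith) ha
        exact_mod_cast this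
      have s5 := hz i l
      rcases hx' l with e | e
      · exact ⟨(x l).valMinAbs, by simp [e], by rw [abs_eq_max_neg]; omega⟩
      · exact ⟨(x l).valMinAbs + 1, by simp [e.2], by rw [abs_eq_max_neg]; omega⟩
  have w0 : 0 < η + exp (256 * C) * η := by positivity
  have := step (h := h) b0 o1 (lam := 3 * u) (by rw [hn, hm]; ring) c
    (fun i => src (nn p) (a p) (f i)) (fun i j e => hc (funext fun l => by
      have h3 := (ZMod.intCast_eq_intCast_iff_dvd_sub _ _ _).1 (congrFun e l)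
      have := abs_le.1 (show |c i l| ≤ R from hR (i, l))
      have := abs_le.1 (show |c j l| ≤ R from hR (j, l))
      have := hE l
      have := Int.eq_zero_of_abs_lt_dvd h3 (abs_lt.2 ⟨by omega, by omega⟩)
      omega)) (fun i => (lc i).slot u0 fun l => by
        have := hz i l
        rw [show (2 * c i l + 1) * (3 * u) = 2 * (c i l * (3 * u : ℕ)) + 3 * u by push_cast; ring]
          at this
        rw [add_mul]
        omega) γ0 fun i => fine hm hn u0 a0 (fun A G hA hG => (hP A G fun c hc =>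
          ⟨(hG c hc).1, fun x i j e l => ?_⟩).trans ?_) (lc i) (j := fun l => (c i l + 1) / 2)
          (w := fun l => z i l - 3 * u * ((c i l + 1) / 2)) fun l => ⟨by ring, ?_⟩
  · rw [Fintype.card_fin] at this
    rw [corr_eq]
    exact this
  · obtain ⟨s1, s2⟩ := (hG c hc).2 x i j e l
    constructor <;> refine le_of_mul_le_mul_right ?_ e3 <;> linarith
  · rw [hA, ← hη, mul_pow (exp _), ← exp_nat_mul, hm]
    refine mul_le_mul_of_nonneg_right (exp_le_exp.2 ?_) (by positivity)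
    push_cast
    have : 0 ≤ C * m ^ 4 := by positivity
    linarith
  · have := hz i l
    obtain ⟨t, ht | ht⟩ := Int.even_or_odd' (c i l)
    · rw [ht, show (2 * t + 1) / 2 = t by omega, abs_eq_max_neg]
      rw [ht, show (2 * (2 * t) + 1) * (3 * (u : ℤ)) = 4 * (3 * u * t) + 3 * u by ring] at this
      omega
    · rw [ht, show (2 * t + 1 + 1) / 2 = t + 1 by omega, abs_eq_max_neg, mul_add]
      rw [ht, show (2 * (2 * t + 1) + 1) * (3 * (u : ℤ)) = 4 * (3 * u * t) + 9 * u by ring] at this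
      omega

end Pool.Agent.Lib.MP_7f377f_mp.Th
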