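import Pool.Agent.Lib.MP_7f377f_mp.WAx

/-! Change of the normalisation of a Wightman field. -/

noncomputable section

namespace Pool.Agent.Lib.MP_7f377f_mp.WA

open MeasureTheory Filter Topology Complex

variable {H : Type} [NormedAddCommGroup H] [InnerProductSpace ℂ H] {c : ℝ}
  {C : ∀ n, (Fin n → M4 → ℝ) → Prop} {S : ∀ n, (Fin n → M4 → ℝ) → ℂ}

theorem Wfield.sc {U : M4 → Mat → H →L[ℂ] H} {Ω : H} {D : Submodule ℂ H} {φ : Tf → H → H}
    (h : Wfield U Ω D φ) (hc : c ≠ 0) : Wfield U Ω D fun f => φ ((c : ℂ) • f) := by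
  obtain ⟨h1, h2, h3⟩ := h
  refine ⟨h1, h2.mono (Submodule.span_mono ?_), fun x hx => ?_⟩
  · rintro _ ⟨l, rfl⟩
    refine ⟨l.map fun f => (c : ℂ)⁻¹ • f, ?_⟩
    simp only [List.foldr_map, smul_inv_smul₀ (ofReal_ne_zero.2 hc)]
  · obtain ⟨a1, a2, a3, a4, a5⟩ := h3 x hx
    refine ⟨fun f => a1 _, fun a f g => by simp only [smul_add, smul_comm _ a, a2], fun y hy => ?_,
      fun a L hL => ⟨(a4 a L hL).1, fun f g e => (a4 a L hL).2 _ _ fun u => by simp [e]⟩,
      fun f g e => a5 _ _ fun u hu v hv => e u ?_ v ?_⟩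
    · obtain ⟨b1, b2, b3⟩ := a3 y hy
      exact ⟨fun a f => b1 a _, b2.comp (continuous_const_smul _),
        fun f g e => b3 _ _ fun u => by simp [e]⟩
    · exact tsupport_smul_subset_right (fun _ => (c : ℂ)) f hu
    · exact tsupport_smul_subset_right (fun _ => (c : ℂ)) g hv

theorem Wrot.sc {Ω : H} {φ : Tf → H → H} (h : Wrot C S Ω φ)
    (hC : ∀ n f, C n f → C n fun i => c • f i) :
    Wrot C (fun n f => S n fun i => c • f i) Ω fun f => φ ((c : ℂ) • f) := fun n => by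
  obtain ⟨w, h1, h2, h3⟩ := h n
  refine ⟨fun z => (c : ℂ) ^ n * w z, h1.const_mul _, fun f hf o => ?_, fun f G e => ?_⟩
  · refine (h2 _ (hC n f hf) fun i j e x hx y hy => o i j e x
      (tsupport_smul_subset_right (fun _ => c) _ hx) y
      (tsupport_smul_subset_right (fun _ => c) _ hy)).trans ?_
    simp [Finset.prod_mul_distrib, mul_assoc, mul_left_comm]
  · have := h3 (fun i => (c : ℂ) • f i) G fun ε x => by
      simp [e, Finset.prod_mul_distrib, mul_assoc, mul_left_comm]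
    rwa [← List.foldr_map, List.map_ofFn]

theorem Wightman.sc (h : Wightman C S) (hc : c ≠ 0) (hC : ∀ n f, C n f → C n fun i => c • f i) :
    Wightman C fun n f => S n fun i => c • f i :=
  let ⟨H, _, _, i, U, Ω, D, _, h1, h2, h3⟩ := h
  ⟨H, _, _, i, U, Ω, D, _, h1, h2.sc hc, h3.sc hC⟩

end Pool.Agent.Lib.MP_7f377f_mp.WA
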