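import Pool.Agent.Lib.MP_7f377f_mp.WeakPoly

/-! Reflection positivity excludes a constant background field. -/

namespace Pool.Agent.Lib.MP_7f377f_mp.Weak

open MeasureTheory HS
open scoped InnerProductSpace

set_option linter.unusedSectionVars false

variable {d L : ℕ} [NeZero L] [NeZero d]

/-- translate of a function on the torus -/
def trl (x : Site d L) (f : Site d L → ℝ) : Site d L → ℝ := fun y => f (y - x)

theorem dpT_trl (i : Fin d) (x : Site d L) (f : Site d L → ℝ) :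
    dpT i (trl x f) = trl x (dpT i f) := by
  funext y; simp only [trl, dpT_apply, sub_add_eq_add_sub]

theorem dmT_trl (i : Fin d) (x : Site d L) (f : Site d L → ℝ) :
    dmT i (trl x f) = trl x (dmT i f) := by
  funext y; simp only [trl, dmT_apply, sub_right_comm y x]

theorem lapT_trl (x : Site d L) (f : Site d L → ℝ) : lapT (trl x f) = trl x (lapT f) := by
  funext y; simp only [lapT, dpT_trl, dmT_trl, Finset.sum_apply, trl]

theorem sum_trl (x : Site d L) (F : Site d L → ℝ) : ∑ y, F (y + x) = ∑ y, F y :=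
  Equiv.sum_comp (Equiv.addRight x) F

theorem trl_supp {n R : ℕ} {w : Site d L → ℝ} (hw : ∀ y, w y ≠ 0 → inBox n y) {x : Site d L}
    (hx : inBox R x) (y : Site d L) (h : trl x w y ≠ 0) : inBox (n + R) y := by
  simpa using inBox_add (hw _ h) hx

/-- lattice Maxwell covariance built from the Hessian of the Green function -/
def kM (k : Fin d → Fin d → (Fin d → ℤ) → ℝ) (z : Fin d → ℤ) (a b : Fin d × Fin d) : ℝ :=
  (if a.2 = b.2 then k b.1 a.1 z else 0) - (if a.2 = b.1 then k b.2 a.1 z else 0) -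
    (if a.1 = b.2 then k b.1 a.2 z else 0) + (if a.1 = b.1 then k b.2 a.2 z else 0)

theorem abs_four {p₁ p₂ p₃ p₄ : Prop} [Decidable p₁] [Decidable p₂] [Decidable p₃] [Decidable p₄]
    (a₁ a₂ a₃ a₄ : ℝ) : |(if p₁ then a₁ else 0) - (if p₂ then a₂ else 0) - (if p₃ then a₃ else 0) +
      (if p₄ then a₄ else 0)| ≤ |a₁| + |a₂| + |a₃| + |a₄| := by
  have h : ∀ (p : Prop) [Decidable p] (a : ℝ), |if p then a else 0| ≤ |a| := fun p _ a => by
    split_ifs <;> simp
  exact (abs_add_le _ _).trans (add_le_add ((abs_sub _ _).trans (add_le_add ((abs_sub _ _).trans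
    (add_le_add (h _ _) (h _ _))) (h _ _))) (h _ _))

theorem abs_kM_le (k : Fin d → Fin d → (Fin d → ℤ) → ℝ) (z : Fin d → ℤ) (a b : Fin d × Fin d) :
    |kM k z a b| ≤ |k b.1 a.1 z| + |k b.2 a.1 z| + |k b.1 a.2 z| + |k b.2 a.2 z| := abs_four _ _ _ _

/-- data of an approximate Green function on the torus -/
structure GD (k : Fin d → Fin d → (Fin d → ℤ) → ℝ) (C : ℝ) (n R : ℕ) (t W : ℝ)
    (w h : Site d L → ℝ) : Prop where
  sw : ∀ y, w y ≠ 0 → inBox n y
  sh : ∀ y, h y ≠ 0 → inBox (n + 1) y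
  w1 : ∑ y, |w y| ≤ W
  lap : lapT w = Pi.single 0 1 - h
  h1 : ∑ y, |h y| ≤ C
  grad : ∀ x, inBox (R + R) x → ∑ y, |h (y + x) - h y| ≤ t
  near : ∀ i j y, |dpT i (dmT j w) y - k i j (lift y)| ≤ t
  conv : ∀ i j x, inBox R x → ∑ y, |k i j (lift (y + x))| * |h y| ≤ t

variable {k : Fin d → Fin d → (Fin d → ℤ) → ℝ} {C : ℝ} {n R : ℕ} {t W : ℝ} {w h : Site d L → ℝ}

theorem GD.KT_near (g : GD k C n R t W w h) (x : Site d L) (a : Fin d × Fin d) (p : Plaq d L) :
    |KT (trl x w) a p - kM k (lift (p.1 - x)) a p.2| ≤ 4 * t := by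
  have := g.near
  rw [KT, dL_psiW, kM]
  simp only [dmT_trl, dpT_trl, trl]
  have e : ∀ (p₁ p₂ p₃ p₄ : Prop) [Decidable p₁] [Decidable p₂] [Decidable p₃] [Decidable p₄]
      (a₁ a₂ a₃ a₄ b₁ b₂ b₃ b₄ : ℝ), (if p₁ then a₁ else 0) - (if p₂ then a₂ else 0) -
      (if p₃ then a₃ else 0) + (if p₄ then a₄ else 0) - ((if p₁ then b₁ else 0) -
      (if p₂ then b₂ else 0) - (if p₃ then b₃ else 0) + (if p₄ then b₄ else 0)) =
      (if p₁ then a₁ - b₁ else 0) - (if p₂ then a₂ - b₂ else 0) - (if p₃ then a₃ - b₃ else 0) +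
      (if p₄ then a₄ - b₄ else 0) := by
    intros; split_ifs <;> ring
  rw [e]
  refine (abs_four _ _ _ _).trans ?_
  linarith [this p.2.1 a.1 (p.1 - x), this p.2.2 a.1 (p.1 - x), this p.2.1 a.2 (p.1 - x),
    this p.2.2 a.2 (p.1 - x)]

theorem GD.trl_diff (g : GD k C n R t W w h) {x x' : Site d L} (hx : inBox R x)
    (hx' : inBox R x') : ∑ y, |(trl x h - trl x' h) y| ≤ t := by
  rw [← sum_trl x']
  have := g.grad (x' + -x) (inBox_add hx' (inBox_neg hx))
  simpa [trl, sub_eq_add_neg, add_assoc] using this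

variable {A : Type} [NormedRing A] [StarRing A] [NormedAlgebra ℝ A] [HS A]
variable {G : Type} [Group G] (ρ : G →* unitary A)

theorem YU_sub (r : ℝ) (u u' : Site d L → ℝ) (a : Fin d × Fin d) (U : Link d L → G) :
    YU ρ r (u - u') a U = YU ρ r u a U - YU ρ r u' a U := by
  simp only [YU, Pi.sub_apply, sub_smul, Finset.sum_sub_distrib]

theorem GD.YU_lap (g : GD k C n R t W w h) (r : ℝ) (x : Site d L) (a : Fin d × Fin d)
    (U : Link d L → G) :
    YU ρ r (lapT (trl x w)) a U = ZU ρ r (x, a) U - YU ρ r (trl x h) a U := by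
  have : lapT (trl x w) = Pi.single x 1 - trl x h := by
    rw [lapT_trl, g.lap]
    funext y
    simp [trl, Pi.single_apply, sub_eq_zero]
  rw [this, YU_sub]
  simp [YU, Pi.single_apply]

theorem norm_ZU_le (r : ℝ) (p : Plaq d L) (U : Link d L → G) :
    ‖ZU ρ r p U‖ ≤ 1 + EU ρ r p U := by
  have := norm_ZU_sq ρ r p U
  nlinarith [sq_nonneg (‖ZU ρ r p U‖ - 1), norm_nonneg (ZU ρ r p U)]

variable [TopologicalSpace G] [IsTopologicalGroup G] [CompactSpace G]
  [SecondCountableTopology G] [MeasurableSpace G] [BorelSpace G] (μ : Measure G)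
  [μ.IsHaarMeasure] [IsProbabilityMeasure μ]

theorem moment_YU (hρ : Continuous ρ) (r b : ℝ) {c : ℝ}
    (hc : ∀ p, ∫ U, EU ρ r p U ∂(nu μ ρ d L b) ≤ c) (u : Site d L → ℝ) (a : Fin d × Fin d) :
    ∫ U, ‖YU ρ r u a U‖ ^ 2 ∂(nu μ ρ d L b) ≤ (∑ y, |u y|) ^ 2 * c := by
  have cE := continuous_EU (d := d) (L := L) ρ hρ r
  have cY := continuous_YU ρ hρ r u a
  have u0 : 0 ≤ ∑ y, |u y| := Finset.sum_nonneg fun _ _ => abs_nonneg _
  calc _ ≤ ∫ U, (∑ y, |u y|) * ∑ y, |u y| * EU ρ r (y, a) U ∂(nu μ ρ d L b) := by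
        refine integral_mono (cint _ (by fun_prop)) (cint _ (by fun_prop)) fun U => ?_
        refine (pow_le_pow_left₀ (norm_nonneg _) (norm_sum_le _ _) 2).trans ?_
        refine Finset.sum_sq_le_sum_mul_sum_of_sq_le_mul _ (fun _ _ => abs_nonneg _)
          (fun y _ => mul_nonneg (abs_nonneg _) (EU_nonneg ρ _ _ _)) fun y _ => ?_
        rw [norm_smul, mul_pow, Real.norm_eq_abs, sq |u y|, mul_assoc]
        gcongr
        exact norm_ZU_sq ρ r _ U
    _ ≤ _ := by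
        rw [integral_const_mul, integral_finsetSum _ fun y _ => cint _ (by fun_prop), sq,
          mul_assoc, Finset.sum_mul _ _ c]
        refine mul_le_mul_of_nonneg_left (Finset.sum_le_sum fun y _ => ?_) u0
        rw [integral_const_mul]
        exact mul_le_mul_of_nonneg_left (hc _) (abs_nonneg _)

theorem rp_ZU (hρ : Continuous ρ) (r b : ℝ) {m : ℕ} (hL : L = 2 * m) {a : Fin d × Fin d}
    (ha : a.2 ≠ a.1) {s : ℕ} (hs : (s + 1) * 2 < L) :
    ∫ U, ⟪ZU ρ r (Pi.single a.1 (s : ZMod L), a) U,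
      ZU ρ r (Pi.single a.1 (-((s + 1 : ℕ) : ZMod L)), a) U⟫_ℝ ∂(nu μ ρ d L b) ≤ 0 := by
  have cZ := continuous_ZU (d := d) (L := L) ρ hρ r
  simp only [← sum_basis _ (ZU_mem ρ r _ _) (ZU_mem ρ r _ _)]
  rw [integral_finsetSum _ fun n _ => cint _ (by fun_prop)]
  refine Finset.sum_nonpos fun n _ => ?_
  have hv := (stdOrthonormalBasis ℝ (lieAlg ρ) n).2
  generalize (stdOrthonormalBasis ℝ (lieAlg ρ) n : A) = v at hv
  have := rp_pos μ ρ hρ b hL a.1 (F := fun U => ⟪v, ZU ρ r (Pi.single a.1 (s : ZMod L), a) U⟫_ℝ)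
    (by fun_prop) fun U V h => by
      have := lasso_dep_axis hL a.1 a.2 s (by omega) U V h
      simp only at this
      simp only [ZU, XX, this]
  have e : ∀ U, ⟪v, ZU ρ r (Pi.single a.1 (s : ZMod L), a) (refl a.1 U)⟫_ℝ =
      -⟪v, ZU ρ r (Pi.single a.1 (-((s + 1 : ℕ) : ZMod L)), a) U⟫_ℝ := by
    intro U
    rw [inner_ZU ρ hv, inner_ZU ρ hv, ← mul_neg, ← inner_star_skew (lieAlg_skew ρ hρ hv)]
    simp only [XX, lasso_refl_axis ha U s hs, rho_inv, star_sub, star_one]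
  simp only [e, mul_neg, integral_neg] at this
  linarith

theorem GD.two_point (g : GD k C n R t W w h) (hρ : Continuous ρ) {r : ℝ} (hr : 0 < r)
    (hR : (n + R + 4) * 2 ≤ L) (ht : 0 < t) {c : ℝ}
    (hc : ∀ p, ∫ U, EU ρ r p U ^ 2 ∂(nu μ ρ d L (r ^ 2 / 4)) ≤ c)
    (he : ∫ U, err ρ r (n + R + 3) W U ^ 2 ∂(nu μ ρ d L (r ^ 2 / 4)) ≤ t ^ 2)
    {x : Site d L} (hx : inBox R x) (a : Fin d × Fin d) {γ : Plaq d L}
    (hγ : inBox (n + R + 2) γ.1) :
    |∫ U, ⟪YU ρ r (lapT (trl x w)) a U, ZU ρ r γ U⟫_ℝ ∂(nu μ ρ d L (r ^ 2 / 4))| ≤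
      Module.finrank ℝ (lieAlg ρ) * (|kM k (lift (γ.1 - x)) a γ.2| + (7 + 2 * c) * t) := by
  have := nu_prob (d := d) (L := L) μ ρ hρ (r ^ 2 / 4)
  have cE := continuous_EU ρ hρ r γ
  have cZ := continuous_ZU ρ hρ r γ
  have cY := continuous_YU ρ hρ r (lapT (trl x w)) a
  have h1 := ibp_Y ρ μ hρ hr hR (trl_supp g.sw hx) (W := W)
    (by rw [← sum_trl x]; simpa [trl] using g.w1) a (k := 0) (fun α => α.1.elim0)
    (fun α => α.1.elim0) γ hγ (fun i => i.elim0) ∅ (Ξ := fun U => 1 + EU ρ r γ U) (by fun_prop)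
    (fun U => by linarith [EU_nonneg ρ r γ U]) (fun α => α.1.elim0) (norm_ZU_le ρ r γ)
    fun i => i.elim0
  simp only [Finset.prod_empty, mul_one, Finset.sum_empty, add_zero, Nat.cast_zero, mul_zero,
    zero_add, pow_one] at h1
  rw [integral_sub (cint _ (by fun_prop)) (integrable_const _), integral_const, probReal_univ,
    one_smul] at h1
  have h2 := moment_sum (nu μ ρ d L (r ^ 2 / 4)) {γ} (EU ρ r) (continuous_EU ρ hρ r)
    (EU_nonneg ρ r) 1 zero_le_one hc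
  simp only [Finset.sum_singleton, Finset.card_singleton] at h2
  have h3 := cs_small _ (continuous_err ρ hρ r _ W) (g := fun U => 1 + EU ρ r γ U) (by fun_prop)
    ht he h2
  have h4 := g.KT_near x a γ
  have D0 : (0 : ℝ) ≤ Module.finrank ℝ (lieAlg ρ) := by positivity
  generalize (Module.finrank ℝ (lieAlg ρ) : ℝ) = D at *
  have h5 : |D * KT (trl x w) a γ| ≤ D * (|kM k (lift (γ.1 - x)) a γ.2| + 4 * t) := by
    rw [abs_mul, abs_of_nonneg D0]
    refine mul_le_mul_of_nonneg_left ?_ D0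
    have := abs_sub_abs_le_abs_sub (KT (trl x w) a γ) (kM k (lift (γ.1 - x)) a γ.2)
    linarith
  have h6 := mul_le_mul_of_nonneg_left h3 (show 0 ≤ D * 2 by positivity)
  have h7 := abs_sub_abs_le_abs_sub
    (∫ U, ⟪YU ρ r (lapT (trl x w)) a U, ZU ρ r γ U⟫_ℝ ∂(nu μ ρ d L (r ^ 2 / 4)))
    (D * KT (trl x w) a γ)
  norm_num at h6
  nlinarith

theorem GD.background (g : GD k C n R t W w h) (hρ : Continuous ρ) {r : ℝ} (hr : 0 < r) {m : ℕ}
    (hL : L = 2 * m) (hR : (n + R + 4) * 2 ≤ L) (ht : 0 < t) (ht1 : t ≤ 1) {c : ℝ} (c0 : 0 ≤ c)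
    (hc1 : ∀ p, ∫ U, EU ρ r p U ∂(nu μ ρ d L (r ^ 2 / 4)) ≤ c)
    (hc : ∀ p, ∫ U, EU ρ r p U ^ 2 ∂(nu μ ρ d L (r ^ 2 / 4)) ≤ c)
    (he : ∫ U, err ρ r (n + R + 3) W U ^ 2 ∂(nu μ ρ d L (r ^ 2 / 4)) ≤ t ^ 2)
    {s : ℕ} (hs : R = 2 * s + 1) (hk : ∀ i j z l, (R : ℤ) ≤ |z l| → |k i j z| ≤ t)
    {x : Site d L} (hx : inBox R x) (a : Fin d × Fin d) :
    ∫ U, ‖YU ρ r (trl x h) a U‖ ^ 2 ∂(nu μ ρ d L (r ^ 2 / 4)) ≤
      (4 * Module.finrank ℝ (lieAlg ρ) * (15 + 2 * c + C * (7 + 2 * c)) + 4 * c) * t := by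
  have D0 : (0 : ℝ) ≤ Module.finrank ℝ (lieAlg ρ) := by positivity
  have C0 : 0 ≤ C := (Finset.sum_nonneg fun _ _ => abs_nonneg _).trans g.h1
  by_cases ha : a.2 = a.1
  · have : ∀ U, YU ρ r (trl x h) a U = 0 := fun U => by
      simp [YU, ZU, XX, ha, hol_self]
    simp only [this, norm_zero]
    simp only [ne_eq, OfNat.ofNat_ne_zero, not_false_eq_true, zero_pow, integral_zero]
    positivity
  set xp : Site d L := Pi.single a.1 (s : ZMod L) with hxp
  set xm : Site d L := Pi.single a.1 (-((s + 1 : ℕ) : ZMod L)) with hxm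
  have box : ∀ z : ℤ, z.natAbs ≤ R → inBox R (Pi.single a.1 (z : ZMod L) : Site d L) := by
    intro z hz
    have := inBox_cast (L := L) (M := R) (Pi.single a.1 z : Fin d → ℤ) fun l => by
      by_cases hl : l = a.1 <;> simp [hl, hz]
    refine (congrArg _ ?_).mp this
    funext l
    by_cases hl : l = a.1 <;> simp [hl]
  have bp : inBox R xp := by simpa using box s (by omega)
  have bm : inBox R xm := by simpa [hxm] using box (-(s + 1)) (by omega)
  have bd : inBox R (xp - xm) := by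
    have := box R le_rfl
    refine (congrArg _ ?_).mp this
    rw [hxp, hxm, ← Pi.single_sub, hs]
    congr 1
    push_cast
    ring
  have far : (R : ℤ) ≤ |lift (xm - xp) a.1| := by
    have e : (xm - xp) a.1 = ((-R : ℤ) : ZMod L) := by
      simp only [hxp, hxm, Pi.sub_apply, Pi.single_eq_same, hs]; push_cast; ring
    rw [lift, e, vma_cast (by omega) (by omega)]
    simp
  have cZ := continuous_ZU (d := d) (L := L) ρ hρ r
  have cY := continuous_YU (d := d) (L := L) ρ hρ r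
  have t1 := g.two_point ρ μ hρ hr hR ht hc he bp a (γ := (xm, a)) (inBox_mono (by omega) bm)
  have t1' : |kM k (lift (xm - xp)) a a| ≤ 4 * t := (abs_kM_le _ _ _ _).trans (by
    linarith [hk a.1 a.1 _ _ far, hk a.2 a.1 _ _ far, hk a.1 a.2 _ _ far, hk a.2 a.2 _ _ far])
  have t2 : |∫ U, ⟪YU ρ r (lapT (trl xm w)) a U, YU ρ r (trl xp h) a U⟫_ℝ
      ∂(nu μ ρ d L (r ^ 2 / 4))| ≤
      Module.finrank ℝ (lieAlg ρ) * (4 * t + C * ((7 + 2 * c) * t)) := by
    simp only [YU.eq_1 ρ r (trl xp h), inner_sum, real_inner_smul_right]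
    rw [integral_finsetSum _ fun y _ => cint _ (by fun_prop)]
    refine (Finset.abs_sum_le_sum_abs _ _).trans ?_
    have key : ∀ y, |∫ U, trl xp h y * ⟪YU ρ r (lapT (trl xm w)) a U, ZU ρ r (y, a) U⟫_ℝ
        ∂(nu μ ρ d L (r ^ 2 / 4))| ≤ Module.finrank ℝ (lieAlg ρ) *
          (|kM k (lift (y - xm)) a a| * |trl xp h y| + (7 + 2 * c) * t * |trl xp h y|) := by
      intro y
      by_cases h0 : trl xp h y = 0
      · simp [h0]
      rw [integral_const_mul, abs_mul, ← add_mul, ← mul_assoc, mul_comm]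
      exact mul_le_mul_of_nonneg_right (g.two_point ρ μ hρ hr hR ht hc he bm a (γ := (y, a))
        (inBox_mono (by omega) (trl_supp g.sh bp y h0))) (abs_nonneg _)
    refine (Finset.sum_le_sum fun y _ => key y).trans ?_
    rw [← Finset.mul_sum, Finset.sum_add_distrib, ← Finset.mul_sum]
    refine mul_le_mul_of_nonneg_left (add_le_add ?_ ?_) D0
    · rw [← sum_trl xp]
      simp only [trl, add_sub_cancel_right, add_sub_assoc]
      refine (Finset.sum_le_sum fun y _ => mul_le_mul_of_nonneg_right (abs_kM_le _ _ _ _)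
        (abs_nonneg _)).trans ?_
      simp only [add_mul, Finset.sum_add_distrib]
      linarith [g.conv a.1 a.1 _ bd, g.conv a.2 a.1 _ bd, g.conv a.1 a.2 _ bd, g.conv a.2 a.2 _ bd]
    · rw [mul_comm C, ← sum_trl xp]
      simp only [trl, add_sub_cancel_right]
      exact mul_le_mul_of_nonneg_left g.h1 (by positivity)
  have t3 : ∀ x x' : Site d L, inBox R x → inBox R x' →
      ∫ U, ‖YU ρ r (trl x h) a U - YU ρ r (trl x' h) a U‖ ^ 2 ∂(nu μ ρ d L (r ^ 2 / 4)) ≤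
        t * c := by
    intro x x' hx hx'
    simp only [← YU_sub]
    refine (moment_YU ρ μ hρ r _ hc1 _ a).trans (mul_le_mul_of_nonneg_right ?_ c0)
    refine (pow_le_pow_left₀ (Finset.sum_nonneg fun _ _ => abs_nonneg _) (g.trl_diff hx hx')
      2).trans (by nlinarith)
  have t4 := rp_ZU ρ μ hρ r (r ^ 2 / 4) hL ha (s := s) (by omega)
  have t5 : ∫ U, ‖YU ρ r (trl x h) a U‖ ^ 2 ∂(nu μ ρ d L (r ^ 2 / 4)) ≤
      ∫ U, (4 * (⟪ZU ρ r (xp, a) U, ZU ρ r (xm, a) U⟫_ℝ -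
        ⟪YU ρ r (lapT (trl xp w)) a U, ZU ρ r (xm, a) U⟫_ℝ -
        ⟪YU ρ r (lapT (trl xm w)) a U, YU ρ r (trl xp h) a U⟫_ℝ) +
        2 * ‖YU ρ r (trl xp h) a U - YU ρ r (trl xm h) a U‖ ^ 2 +
        2 * ‖YU ρ r (trl x h) a U - YU ρ r (trl xp h) a U‖ ^ 2) ∂(nu μ ρ d L (r ^ 2 / 4)) := by
    refine integral_mono (cint _ (by fun_prop)) (cint _ (by fun_prop)) fun U => ?_
    simp only [g.YU_lap]
    generalize YU ρ r (trl x h) a U = H
    generalize YU ρ r (trl xp h) a U = P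
    generalize YU ρ r (trl xm h) a U = M
    generalize ZU ρ r (xp, a) U = Zp
    generalize ZU ρ r (xm, a) U = Zm
    have e1 := norm_sub_sq_real P M
    have e2 := norm_sub_sq_real H P
    have e3 := norm_sub_sq_real H ((2 : ℝ) • P)
    rw [real_inner_smul_right, norm_smul, Real.norm_two] at e3
    simp only [inner_sub_left, real_inner_comm Zm P, real_inner_comm P M] at *
    nlinarith [sq_nonneg ‖M‖, sq_nonneg ‖H - (2 : ℝ) • P‖]
  rw [integral_add (cint _ (by fun_prop)) (cint _ (by fun_prop)),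
    integral_add (cint _ (by fun_prop)) (cint _ (by fun_prop)), integral_const_mul,
    integral_const_mul, integral_const_mul,
    integral_sub (cint _ (by fun_prop)) (cint _ (by fun_prop)),
    integral_sub (cint _ (by fun_prop)) (cint _ (by fun_prop))] at t5
  have u1 := neg_abs_le (∫ U, ⟪YU ρ r (lapT (trl xp w)) a U, ZU ρ r (xm, a) U⟫_ℝ
    ∂(nu μ ρ d L (r ^ 2 / 4)))
  have u2 := neg_abs_le (∫ U, ⟪YU ρ r (lapT (trl xm w)) a U, YU ρ r (trl xp h) a U⟫_ℝ
    ∂(nu μ ρ d L (r ^ 2 / 4)))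
  have u3 := mul_le_mul_of_nonneg_left t1' D0
  have u4 := t3 _ _ bp bm
  have u5 := t3 _ _ hx bp
  nlinarith

end Pool.Agent.Lib.MP_7f377f_mp.Weak
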