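import Pool.Agent.Lib.MP_7f377f_mp.Heat3

/-! The lazy random walk on `ℤ^d` and the Gaussian side of the weak coupling limit. -/

namespace Pool.Agent.Lib.MP_7f377f_mp.Weak

open MeasureTheory Filter Topology Pool.Agent.Lib.MP_7f377f_mp.Heat

/-- forward difference -/
def dpZ {d : ℕ} (f : (Fin d → ℤ) → ℝ) (i : Fin d) (z : Fin d → ℤ) : ℝ := f (z + Pi.single i 1) - f z
/-- adjoint of the forward difference -/
def dmZ {d : ℕ} (f : (Fin d → ℤ) → ℝ) (i : Fin d) (z : Fin d → ℤ) : ℝ := f (z - Pi.single i 1) - f z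

variable {d : ℕ}

/-- one step of the lazy walk -/
noncomputable def Pw (d : ℕ) : ((Fin d → ℤ) → ℝ) →ₗ[ℝ] ((Fin d → ℤ) → ℝ) where
  toFun f z := f z / 2 + (4 * d : ℝ)⁻¹ * ∑ l, (f (z + Pi.single l 1) + f (z - Pi.single l 1))
  map_add' f g := by
    funext z
    simp only [Pi.add_apply, Finset.sum_add_distrib]; ring
  map_smul' a f := by
    funext z
    simp only [Pi.smul_apply, smul_eq_mul, RingHom.id_apply, ← mul_add, ← Finset.mul_sum]; ring

lemma Pw_apply (f : (Fin d → ℤ) → ℝ) (z : Fin d → ℤ) : Pw d f z =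
    f z / 2 + (4 * d : ℝ)⁻¹ * ∑ l, (f (z + Pi.single l 1) + f (z - Pi.single l 1)) := rfl

lemma Pw_shift (f : (Fin d → ℤ) → ℝ) (v : Fin d → ℤ) :
    Pw d (fun z => f (z + v)) = fun z => Pw d f (z + v) := by
  funext z
  simp only [Pw_apply, add_right_comm z _ v, sub_add_eq_add_sub]

lemma Pw_dp (f : (Fin d → ℤ) → ℝ) (i : Fin d) : Pw d (dpZ f i) = dpZ (Pw d f) i := by
  have : dpZ f i = (fun z => f (z + Pi.single i 1)) - f := rfl
  rw [this, map_sub, Pw_shift]; rfl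

lemma Pw_dm (f : (Fin d → ℤ) → ℝ) (i : Fin d) : Pw d (dmZ f i) = dmZ (Pw d f) i := by
  have : dmZ f i = (fun z => f (z + -Pi.single i 1)) - f := by
    funext z; simp [dmZ, sub_eq_add_neg]
  rw [this, map_sub, Pw_shift]; funext z; simp [dmZ, sub_eq_add_neg]

lemma Pw_lap (hd : 1 ≤ d) (f : (Fin d → ℤ) → ℝ) (z : Fin d → ℤ) :
    Pw d f z = f z - (4 * d : ℝ)⁻¹ * ∑ l, dmZ (dpZ f l) l z := by
  have hd' : (0 : ℝ) < d := by exact_mod_cast hd
  have : ∀ l, dmZ (dpZ f l) l z =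
      2 * f z - (f (z + Pi.single l 1) + f (z - Pi.single l 1)) := by
    intro l; simp only [dmZ, dpZ, sub_add_cancel]; ring
  simp only [this, Pw_apply, Finset.sum_sub_distrib, Finset.sum_const, Finset.card_univ,
    Fintype.card_fin, nsmul_eq_mul]
  field_simp
  ring

lemma Pw_mono {f g : (Fin d → ℤ) → ℝ} (h : ∀ z, f z ≤ g z) (z : Fin d → ℤ) :
    Pw d f z ≤ Pw d g z := by
  simp only [Pw_apply]
  gcongr <;> apply h

lemma Pw_const (hd : 1 ≤ d) (c : ℝ) : Pw d (fun _ => c) = fun _ => c := by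
  have hd' : (0 : ℝ) < d := by exact_mod_cast hd
  funext z
  simp only [Pw_apply, Finset.sum_const, Finset.card_univ, Fintype.card_fin, nsmul_eq_mul]
  field_simp
  ring

lemma Pn_mono (n : ℕ) {f g : (Fin d → ℤ) → ℝ} (h : ∀ z, f z ≤ g z) (z : Fin d → ℤ) :
    (Pw d ^ n) f z ≤ (Pw d ^ n) g z := by
  induction n generalizing z with
  | zero => exact h z
  | succ n ih => rw [pow_succ']; exact Pw_mono ih z

lemma Pn_const (hd : 1 ≤ d) (n : ℕ) (c : ℝ) : (Pw d ^ n) (fun _ => c) = fun _ => c := by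
  induction n with
  | zero => rfl
  | succ n ih => rw [pow_succ', Module.End.mul_apply, ih, Pw_const hd]

lemma Pn_shift (n : ℕ) (f : (Fin d → ℤ) → ℝ) (v : Fin d → ℤ) :
    (Pw d ^ n) (fun z => f (z + v)) = fun z => (Pw d ^ n) f (z + v) := by
  induction n with
  | zero => rfl
  | succ n ih => rw [pow_succ', Module.End.mul_apply, ih, Pw_shift]; rfl

/-- the delta function -/
def del (d : ℕ) (z : Fin d → ℤ) : ℝ := if z = 0 then 1 else 0

/-- transition probabilities -/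
noncomputable def hh (d n : ℕ) : (Fin d → ℤ) → ℝ := (Pw d ^ n) (del d)

lemma hh_succ (n : ℕ) : hh d (n + 1) = Pw d (hh d n) := by
  unfold hh; rw [pow_succ']; rfl

/-- truncated Green function -/
noncomputable def ww (d : ℕ) : ℕ → (Fin d → ℤ) → ℝ
  | 0 => 0
  | n + 1 => (4 * d : ℝ)⁻¹ • del d + Pw d (ww d n)

lemma supp_step {f : (Fin d → ℤ) → ℝ} {n : ℤ} (h : ∀ z l, n < |z l| → f z = 0) (z : Fin d → ℤ)
    (l : Fin d) (hz : n + 1 < |z l|) : Pw d f z = 0 := by
  have h1 : ∀ m : Fin d, |(Pi.single m 1 : Fin d → ℤ) l| ≤ 1 := by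
    intro m; by_cases hm : l = m
    · subst hm; simp
    · simp [Pi.single_eq_of_ne hm]
  rw [Pw_apply, h z l (by omega), Finset.sum_eq_zero]
  · simp
  · intro m _
    have := h1 m
    rw [h _ l, h _ l, add_zero]
    · have := abs_sub_abs_le_abs_sub (z l) ((Pi.single m 1 : Fin d → ℤ) l)
      simp only [Pi.sub_apply]; omega
    · have := abs_sub_abs_le_abs_add (z l) ((Pi.single m 1 : Fin d → ℤ) l)
      simp only [Pi.add_apply]; omega

lemma del_supp {n : ℤ} (hn : 0 ≤ n) (z : Fin d → ℤ) (l : Fin d) (h : n < |z l|) : del d z = 0 := by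
  unfold del
  rw [if_neg]
  rintro rfl
  simp at h; omega

lemma hh_supp (n : ℕ) (z : Fin d → ℤ) (l : Fin d) (h : (n : ℤ) < |z l|) : hh d n z = 0 := by
  induction n generalizing z l with
  | zero => exact del_supp le_rfl z l h
  | succ n ih => rw [hh_succ]; exact supp_step ih z l (by exact_mod_cast h)

lemma ww_supp (n : ℕ) (z : Fin d → ℤ) (l : Fin d) (h : (n : ℤ) < |z l|) : ww d n z = 0 := by
  induction n generalizing z l with
  | zero => rfl
  | succ n ih =>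
    simp only [ww, Pi.add_apply, Pi.smul_apply, smul_eq_mul]
    rw [supp_step ih z l (by exact_mod_cast h), del_supp (by positivity) z l h]; simp

lemma del_nonneg (z : Fin d → ℤ) : 0 ≤ del d z := by unfold del; split_ifs <;> norm_num

lemma del_le (z : Fin d → ℤ) : del d z ≤ 1 := by unfold del; split_ifs <;> norm_num

lemma hh_nonneg (n : ℕ) (z : Fin d → ℤ) : 0 ≤ hh d n z := by
  have := Pn_mono n (f := 0) del_nonneg z
  rwa [map_zero] at this

lemma ww_bound (hd : 1 ≤ d) (n : ℕ) (z : Fin d → ℤ) : 0 ≤ ww d n z ∧ ww d n z ≤ n := by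
  have hd' : (1 : ℝ) ≤ d := by exact_mod_cast hd
  induction n generalizing z with
  | zero => simp [ww]
  | succ n ih =>
    simp only [ww, Pi.add_apply, Pi.smul_apply, smul_eq_mul]
    have h1 := Pw_mono (f := 0) (fun z => (ih z).1) z
    have h2 := Pw_mono (g := fun _ => n) (fun z => (ih z).2) z
    rw [map_zero] at h1
    rw [Pw_const hd] at h2
    have h3 := del_nonneg z
    have h4 := del_le z
    have h5 : (4 * d : ℝ)⁻¹ ≤ 1 := inv_le_one_of_one_le₀ (by linarith)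
    have h6 : (4 * d : ℝ)⁻¹ * del d z ≤ 1 := mul_le_one₀ h5 h3 h4
    have h7 : 0 ≤ (4 * d : ℝ)⁻¹ * del d z := by positivity
    simp only [Pi.zero_apply] at h1
    push_cast
    constructor <;> linarith

lemma dpm_step (i j : Fin d) (n : ℕ) : dpZ (dmZ (ww d (n + 1)) j) i =
    (4 * d : ℝ)⁻¹ • dpZ (dmZ (del d) j) i + Pw d (dpZ (dmZ (ww d n) j) i) := by
  rw [Pw_dp, Pw_dm]
  funext z
  simp only [ww, dpZ, dmZ, Pi.add_apply, Pi.smul_apply, smul_eq_mul]
  ring

lemma dm_dp (f : (Fin d → ℤ) → ℝ) (i j : Fin d) : dmZ (dpZ f i) j = dpZ (dmZ f j) i := by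
  funext z
  simp only [dpZ, dmZ, sub_add_eq_add_sub]
  ring

lemma green_id (hd : 1 ≤ d) {k s : (Fin d → ℤ) → ℝ} {u : ℕ → (Fin d → ℤ) → ℝ}
    (hk : ∀ z, ∑ l, dmZ (dpZ k l) l z = s z) (h0 : u 0 = 0)
    (hu : ∀ n, u (n + 1) = (4 * d : ℝ)⁻¹ • s + Pw d (u n)) (n : ℕ) :
    k - u n = (Pw d ^ n) k := by
  induction n with
  | zero => rw [h0, sub_zero]; rfl
  | succ n ih =>
    rw [pow_succ', Module.End.mul_apply, ← ih, map_sub, hu]
    funext z
    simp only [Pi.sub_apply, Pi.add_apply, Pi.smul_apply, smul_eq_mul]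
    rw [Pw_lap hd k, hk]; ring

lemma hh_eq (hd : 1 ≤ d) (n : ℕ) (z : Fin d → ℤ) :
    hh d n z = (if z = 0 then 1 else 0) - ∑ l, dmZ (dpZ (ww d n) l) l z := by
  have h := green_id hd (k := del d) (s := ∑ l, dpZ (dmZ (del d) l) l)
    (u := fun n => ∑ l, dpZ (dmZ (ww d n) l) l) (fun z => by simp [dm_dp])
    (by funext z; simp [ww, dpZ, dmZ])
    (fun n => by simp only [dpm_step, Finset.sum_add_distrib, map_sum, Finset.smul_sum]) n
  unfold hh
  rw [← h]
  simp [dm_dp, del]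

lemma sum_shift (f : (Fin d → ℤ) → ℝ) (v : Fin d → ℤ) (S : Finset (Fin d → ℤ)) :
    ∑ z ∈ S, f (z + v) = ∑ z ∈ S.map (Equiv.addRight v).toEmbedding, f z := by
  rw [Finset.sum_map]; rfl

lemma l1_step (hd : 1 ≤ d) {f₀ : (Fin d → ℤ) → ℝ} {f g : Fin d → (Fin d → ℤ) → ℝ} {c₀ : ℝ}
    {c e : Fin d → ℝ} (h₀ : ∀ S : Finset (Fin d → ℤ), ∑ z ∈ S, |f₀ z| ≤ c₀)
    (hf : ∀ l (S : Finset (Fin d → ℤ)), ∑ z ∈ S, |f l z| ≤ c l)
    (hg : ∀ l (S : Finset (Fin d → ℤ)), ∑ z ∈ S, |g l z| ≤ e l) (S : Finset (Fin d → ℤ)) :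
    ∑ z ∈ S, |f₀ z / 2 + (4 * d : ℝ)⁻¹ * ∑ l, (f l (z + Pi.single l 1) + g l (z - Pi.single l 1))|
      ≤ c₀ / 2 + (4 * d : ℝ)⁻¹ * ∑ l, (c l + e l) := by
  have hd' : (0 : ℝ) < d := by exact_mod_cast hd
  calc _ ≤ ∑ z ∈ S, (|f₀ z| / 2 + (4 * d : ℝ)⁻¹ *
        ∑ l, (|f l (z + Pi.single l 1)| + |g l (z + -Pi.single l 1)|)) := by
        refine Finset.sum_le_sum fun z _ => (abs_add_le _ _).trans ?_
        rw [abs_div, abs_mul, abs_two, abs_of_pos (by positivity : (0 : ℝ) < (4 * d : ℝ)⁻¹)]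
        gcongr
        refine (Finset.abs_sum_le_sum_abs _ _).trans (Finset.sum_le_sum fun l _ => ?_)
        rw [← sub_eq_add_neg]
        exact abs_add_le _ _
    _ ≤ _ := by
        rw [Finset.sum_add_distrib, ← Finset.sum_div, ← Finset.mul_sum, Finset.sum_comm]
        gcongr with l
        · exact h₀ S
        · rw [Finset.sum_add_distrib, sum_shift (fun z => |f l z|), sum_shift (fun z => |g l z|)]
          exact add_le_add (hf l _) (hg l _)

lemma del_l1 (S : Finset (Fin d → ℤ)) : ∑ z ∈ S, |del d z| ≤ 1 := by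
  simp only [abs_of_nonneg (del_nonneg _)]
  unfold del
  rw [Finset.sum_ite_eq']
  split_ifs <;> norm_num

lemma hh_l1 (hd : 1 ≤ d) (n : ℕ) (S : Finset (Fin d → ℤ)) : ∑ z ∈ S, |hh d n z| ≤ 1 := by
  have hd' : (0 : ℝ) < d := by exact_mod_cast hd
  induction n generalizing S with
  | zero => exact del_l1 S
  | succ n ih =>
    rw [hh_succ]
    refine (l1_step hd ih (fun _ => ih) (fun _ => ih) S).trans (le_of_eq ?_)
    simp only [Finset.sum_const, Finset.card_univ, Fintype.card_fin, nsmul_eq_mul]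
    field_simp
    ring

/-- score functions -/
noncomputable def gg (d : ℕ) (i : Fin d) : ℕ → (Fin d → ℤ) → ℝ
  | 0 => 0
  | n + 1 => Pw d (gg d i n) + dpZ (hh d n) i

lemma gg_succ (i : Fin d) (n : ℕ) : gg d i (n + 1) = (n + 1 : ℝ) • dpZ (hh d n) i := by
  induction n with
  | zero => simp [gg]
  | succ n ih =>
    rw [gg, ih, map_smul, Pw_dp, ← hh_succ]
    push_cast
    rw [add_smul (n + 1 : ℝ), one_smul]

lemma score (hd : 1 ≤ d) (i : Fin d) {m : ℝ} (hm : 0 < m) (n : ℕ) (t : ℝ)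
    (S : Finset (Fin d → ℤ)) :
    ∑ z ∈ S, |t * hh d n z + gg d i n z| ≤ ((t ^ 2 + n * (2 + 4 * d)) / m + m) / 2 := by
  have hd' : (0 : ℝ) < d := by exact_mod_cast hd
  induction n generalizing t S with
  | zero =>
    simp only [gg, Pi.zero_apply, add_zero, abs_mul, ← Finset.mul_sum, Nat.cast_zero, zero_mul]
    calc _ ≤ |t| * 1 := by gcongr; exact hh_l1 hd 0 S
      _ ≤ _ := by
        rw [← sq_abs t]
        have : 0 ≤ (|t| - m) ^ 2 / m := by positivity
        have e : (|t| - m) ^ 2 / m = |t| ^ 2 / m + m - 2 * |t| := by field_simp; ring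
        linarith
  | succ n ih =>
    have h := l1_step hd (ih (t - 2)) (fun l => ih (t + if l = i then 4 * (d : ℝ) else 0))
      (fun _ => ih t) S
    refine le_trans (le_of_eq (Finset.sum_congr rfl fun z _ => ?_)) (h.trans (le_of_eq ?_))
    · congr 1
      simp only [hh_succ, gg, Pi.add_apply, Pw_apply, dpZ, add_mul, ite_mul, zero_mul,
        Finset.sum_add_distrib, Finset.sum_ite_eq', Finset.mem_univ, if_true, ← Finset.mul_sum]
      field_simp
      ring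
    · have : ∀ l : Fin d, (((t + if l = i then 4 * (d : ℝ) else 0) ^ 2 + n * (2 + 4 * d)) / m + m) / 2 =
          ((t ^ 2 + n * (2 + 4 * d)) / m + m) / 2 +
            if l = i then (8 * d * t + 16 * d ^ 2) / m / 2 else 0 := by
        intro l; split_ifs <;> ring
      simp only [this, Finset.sum_add_distrib, Finset.sum_ite_eq', Finset.mem_univ, if_true,
        Finset.sum_const, Finset.card_univ, Fintype.card_fin, nsmul_eq_mul]
      push_cast
      field_simp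
      ring

lemma hh_grad (hd : 1 ≤ d) (i : Fin d) {n : ℕ} (hn : 1 ≤ n) (S : Finset (Fin d → ℤ)) :
    ∑ z ∈ S, |dpZ (hh d n) i z| ≤ (2 + 2 * d) / √n := by
  have hn' : (0 : ℝ) < n + 1 := by positivity
  have h := score hd i (m := √(n + 1)) (by positivity) (n + 1) 0 S
  simp only [gg_succ, zero_mul, zero_add, Pi.smul_apply, smul_eq_mul, abs_mul, abs_of_pos hn',
    ← Finset.mul_sum] at h
  have hs : √(n + 1 : ℝ) ^ 2 = n + 1 := Real.sq_sqrt hn'.le
  have hs0 : 0 < √(n + 1 : ℝ) := by positivity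
  have hs1 : √(n : ℝ) ≤ √(n + 1 : ℝ) := Real.sqrt_le_sqrt (by linarith)
  have hs2 : 0 < √(n : ℝ) := Real.sqrt_pos.2 (by exact_mod_cast hn)
  push_cast at h
  generalize √(n + 1 : ℝ) = r at *
  rw [← hs] at h
  have h2 : ∑ z ∈ S, |dpZ (hh d n) i z| ≤ (2 + 2 * d) / r := by
    rw [le_div_iff₀ hs0]
    have e : ((0 ^ 2 + r ^ 2 * (2 + 4 * (d : ℝ))) / r + r) / 2 = r * (3 / 2 + 2 * d) := by
      field_simp; ring
    rw [e] at h
    have : r * ((∑ z ∈ S, |dpZ (hh d n) i z|) * r) ≤ r * (2 + 2 * d) := by nlinarith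
    exact le_of_mul_le_mul_left this hs0
  exact h2.trans (by gcongr)

lemma hh_sup (hd : 1 ≤ d) {n : ℕ} (hn : 1 ≤ n) (z : Fin d → ℤ) : hh d n z ≤ (2 + 2 * d) / √n := by
  let i : Fin d := ⟨0, hd⟩
  let φ : ℕ → Fin d → ℤ := fun m => z + Pi.single i (m : ℤ)
  have hφ : Function.Injective φ := by
    intro a b hab
    have := congrFun hab i
    simpa [φ] using this
  obtain ⟨M, hM⟩ : ∃ M : ℕ, (n : ℤ) < |φ M i| := by
    refine ⟨n + 1 + (z i).natAbs, ?_⟩
    simp only [φ, Pi.add_apply, Pi.single_eq_same]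
    refine lt_of_lt_of_le ?_ (le_abs_self _)
    omega
  have h1 := Finset.sum_range_sub (fun m => hh d n (φ m)) M
  have h2 : ∀ m, hh d n (φ (m + 1)) - hh d n (φ m) = dpZ (hh d n) i (φ m) := by
    intro m
    simp only [dpZ, φ, add_assoc, ← Pi.single_add]
    push_cast; rfl
  have h3 : φ 0 = z := by simp [φ]
  simp only [h2, hh_supp n _ i hM, h3] at h1
  have h4 := hh_grad hd i hn ((Finset.range M).map ⟨φ, hφ⟩)
  rw [Finset.sum_map] at h4
  have h5 := Finset.abs_sum_le_sum_abs (fun m => dpZ (hh d n) i (φ m)) (Finset.range M)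
  rw [h1, zero_sub, abs_neg] at h5
  exact (le_abs_self _).trans (h5.trans h4)

/-- a cube -/
noncomputable def box (d ρ : ℕ) : Finset (Fin d → ℤ) := Fintype.piFinset fun _ => Finset.Icc (-(ρ : ℤ)) ρ

lemma box_card (ρ : ℕ) : (box d ρ).card = (2 * ρ + 1) ^ d := by
  unfold box
  rw [Fintype.card_piFinset]
  simp only [Int.card_Icc, Finset.prod_const, Finset.card_univ, Fintype.card_fin]
  congr 1; omega

lemma decay_split {k : (Fin d → ℤ) → ℝ} {C : ℝ} (hd : 1 ≤ d)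
    (hk : ∀ z l, |k z| * (1 + |(z l : ℝ)|) ≤ C) (ρ : ℕ) (z : Fin d → ℤ) :
    |k z| ≤ C / (1 + ρ) + C * ∑ v ∈ box d ρ, del d (z + -v) := by
  have h0 : |k z| ≤ C := le_trans (le_mul_of_one_le_right (abs_nonneg _)
    (by linarith [abs_nonneg (z ⟨0, hd⟩ : ℝ)])) (hk z ⟨0, hd⟩)
  have hC : 0 ≤ C := (abs_nonneg _).trans h0
  have hs : 0 ≤ ∑ v ∈ box d ρ, del d (z + -v) := Finset.sum_nonneg fun _ _ => del_nonneg _
  by_cases hz : z ∈ box d ρ
  · have : del d (z + -z) ≤ ∑ v ∈ box d ρ, del d (z + -v) :=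
      Finset.single_le_sum (f := fun v => del d (z + -v)) (fun _ _ => del_nonneg _) hz
    have e : del d (z + -z) = 1 := by simp [del]
    have h1 : 0 ≤ C / (1 + ρ) := by positivity
    nlinarith
  · simp only [box, Fintype.mem_piFinset, Finset.mem_Icc, not_forall] at hz
    obtain ⟨l, hl⟩ := hz
    have h1 : (ρ : ℝ) ≤ |(z l : ℝ)| := by
      have : (ρ : ℤ) ≤ |z l| := by rw [le_abs]; omega
      exact_mod_cast this
    have h2 : |k z| ≤ C / (1 + ρ) := by
      rw [le_div_iff₀ (by positivity)]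
      exact le_trans (by gcongr) (hk z l)
    nlinarith

lemma rate {n : ℕ} (hn : 1 ≤ n) {C : ℝ} (hC : 0 ≤ C) : ∃ ρ : ℕ,
    C / (1 + ρ) + C * ((2 * ρ + 1) ^ d * ((2 + 2 * d) / √n)) ≤
      C * (1 + 3 ^ d * (2 + 2 * d)) / (n : ℝ) ^ (1 / (2 * (d + 1)) : ℝ) := by
  have hn' : (1 : ℝ) ≤ n := by exact_mod_cast hn
  set q := (n : ℝ) ^ (1 / (2 * (d + 1)) : ℝ) with hq
  have hq1 : 1 ≤ q := Real.one_le_rpow hn' (by positivity)
  have hq2 : √n = q ^ (d + 1) := by
    rw [hq, Real.sqrt_eq_rpow, ← Real.rpow_natCast, ← Real.rpow_mul (by linarith)]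
    congr 1; push_cast; field_simp
  refine ⟨⌊q⌋₊, ?_⟩
  have h1 := Nat.lt_floor_add_one q
  have h2 := Nat.floor_le (by linarith : 0 ≤ q)
  rw [hq2]
  calc _ ≤ C / q + C * ((3 * q) ^ d * ((2 + 2 * d) / q ^ (d + 1))) := by
        gcongr <;> linarith
    _ = _ := by rw [mul_pow]; field_simp; ring

/-- second differences of the lattice Green function -/
noncomputable def kk (i j : Fin d) (z : Fin d → ℤ) : ℝ := (K (Pi.single i 1) (Pi.single j 1) z).re

lemma kk_lap (hd : 2 ≤ d) (i j : Fin d) (z : Fin d → ℤ) :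
    ∑ l, dmZ (dpZ (kk i j) l) l z = dpZ (dmZ (del d) j) i z := by
  have hs : ∀ i : Fin d, ∑ l, (Pi.single i 1 : Fin d → ℕ) l = 1 := by simp
  have h4 : 4 ≤ ∑ l, (Pi.single i 1 : Fin d → ℕ) l + ∑ l, (Pi.single j 1 : Fin d → ℕ) l + d := by
    rw [hs, hs]; omega
  have h := K_lap _ _ h4 z i
  have e1 : H (Pi.single i 1) (Pi.single j 1) 0 z = (dpZ (dmZ (del d) j) i z : ℝ) := by
    rw [← zero_add (Pi.single i 1 : Fin d → ℕ), ← zero_add (Pi.single j 1 : Fin d → ℕ), H_dp, H_dm,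
      H_dm]
    simp only [H_zero, dpZ, dmZ, del]
    push_cast
    simp only [apply_ite ((↑) : ℝ → ℂ), Complex.ofReal_one, Complex.ofReal_zero]
  rw [e1] at h
  have h' := congrArg Complex.re h
  rw [Complex.re_sum, Complex.ofReal_re] at h'
  rw [← h']
  refine Finset.sum_congr rfl fun l _ => ?_
  rw [K_dm _ _ (by rw [sum_add_single]; omega), K_dp _ _ h4, K_dp _ _ h4]
  simp only [dmZ, dpZ, kk, Complex.sub_re]

/-- GAUSSIAN SIDE -/
theorem gauss_side (d : ℕ) (hd : 2 ≤ d) :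
    ∃ k : Fin d → Fin d → (Fin d → ℤ) → ℝ,
      (∀ (i j : Fin d) (y : EuclideanSpace ℝ (Fin d)) (ε : ℕ → ℝ) (x : ℕ → Fin d → ℤ), y ≠ 0 →
        (∀ n, 0 < ε n) → Tendsto ε atTop (𝓝 0) →
        (∀ l, Tendsto (fun n => ε n * x n l) atTop (𝓝 (y l))) →
        Tendsto (fun n => k i j (x n) / ε n ^ d) atTop (𝓝 (hessG y i j))) ∧
      ∃ C a : ℝ, 0 < a ∧ (∀ i j z l, |k i j z| * (1 + |(z l : ℝ)|) ≤ C) ∧
        ∀ n : ℕ, 1 ≤ n → ∃ w h : (Fin d → ℤ) → ℝ,
          (∀ z l, (n : ℤ) < |z l| → w z = 0) ∧ (∀ z, |w z| ≤ n) ∧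
          (∀ z, h z = (if z = 0 then 1 else 0) - ∑ l, dmZ (dpZ w l) l z) ∧
          (∀ S : Finset (Fin d → ℤ), ∑ z ∈ S, |h z| ≤ C) ∧
          (∀ l (S : Finset (Fin d → ℤ)), ∑ z ∈ S, |dpZ h l z| ≤ C / n ^ a) ∧
          (∀ i j z, |dpZ (dmZ w j) i z - k i j z| ≤ C / n ^ a) ∧
          (∀ i j x (S : Finset (Fin d → ℤ)), ∑ z ∈ S, |k i j (z - x)| * |h z| ≤ C / n ^ a) := by
  have hd1 : 1 ≤ d := by omega
  have hs : ∀ i : Fin d, ∑ l, (Pi.single i 1 : Fin d → ℕ) l = 1 := by simp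
  refine ⟨kk, fun i j y ε x hy hε hε0 hx => ?_, ?_⟩
  · obtain ⟨l, hl⟩ : ∃ l, y l ≠ 0 := by
      by_contra h
      push Not at h
      exact hy (by ext l; simpa using h l)
    have h := K_tendsto (Pi.single i 1) (Pi.single j 1) (by rw [hs, hs]) hd1 (y := fun l => y l)
      hl hε hε0 hx
    rw [int_prod_gk hd1 i j hy] at h
    have h' := (Complex.continuous_re.tendsto _).comp h
    rw [Complex.ofReal_re] at h'
    refine h'.congr fun n => ?_
    simp only [Function.comp, kk]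
    rw [← Complex.ofReal_pow, Complex.div_ofReal_re]
  obtain ⟨C, hC1, hC⟩ : ∃ C : ℝ, 1 ≤ C ∧ ∀ (i j : Fin d) z l, |kk i j z| * (1 + |(z l : ℝ)|) ≤ C := by
    let B : Fin d × Fin d → ℝ := fun p => |(∏ l, hC ((Pi.single p.1 1 : Fin d → ℕ) l +
      (Pi.single p.2 1 : Fin d → ℕ) l)) * ∫ t in Set.Ioi (0 : ℝ), (t + 1) ^ (-(3 / 2) : ℝ)|
    have hB : ∀ p, 0 ≤ B p := fun p => abs_nonneg _
    refine ⟨1 + ∑ p, B p, by linarith [Finset.sum_nonneg fun p (_ : p ∈ Finset.univ) => hB p],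
      fun i j z l => ?_⟩
    have h1 := norm_K_le (Pi.single i 1) (Pi.single j 1) (by rw [hs, hs]; omega) z l
    have h2 : B (i, j) ≤ ∑ p, B p := Finset.single_le_sum (fun p _ => hB p) (Finset.mem_univ _)
    have h3 : |kk i j z| ≤ ‖K (Pi.single i 1) (Pi.single j 1) z‖ := Complex.abs_re_le_norm _
    calc _ ≤ ‖K (Pi.single i 1) (Pi.single j 1) z‖ * (1 + |(z l : ℝ)|) := by gcongr
      _ ≤ B (i, j) := h1.trans (le_abs_self _)
      _ ≤ _ := by linarith
  have hM : (2 + 2 * d : ℝ) ≤ 3 ^ d * (2 + 2 * d) :=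
    le_mul_of_one_le_left (by positivity) (one_le_pow₀ (by norm_num))
  have hM0 : (0 : ℝ) ≤ 2 + 2 * d := by positivity
  have hCC : C ≤ C * (1 + 3 ^ d * (2 + 2 * d)) := by nlinarith
  refine ⟨C * (1 + 3 ^ d * (2 + 2 * d)), 1 / (2 * (d + 1)), by positivity,
    fun i j z l => (hC i j z l).trans hCC, fun n hn => ⟨ww d n, hh d n, ww_supp n, fun z => ?_,
      hh_eq hd1 n, fun S => (hh_l1 hd1 n S).trans (hC1.trans hCC), fun l S => ?_, fun i j z => ?_,
      fun i j x S => ?_⟩⟩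
  · rw [abs_of_nonneg (ww_bound hd1 n z).1]; exact (ww_bound hd1 n z).2
  · obtain ⟨ρ, hρ⟩ := rate (d := d) hn (C := C) (by linarith)
    refine (hh_grad hd1 l hn S).trans (le_trans ?_ hρ)
    have h1 : 0 ≤ C / (1 + ρ) := by positivity
    have h2 : (1 : ℝ) ≤ (2 * ρ + 1) ^ d := one_le_pow₀ (by linarith [Nat.cast_nonneg (α := ℝ) ρ])
    have h3 : 0 ≤ (2 + 2 * d : ℝ) / √n := by positivity
    have h4 : (2 + 2 * d : ℝ) / √n ≤ (2 * ρ + 1) ^ d * ((2 + 2 * d) / √n) :=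
      le_mul_of_one_le_left h3 h2
    nlinarith
  · obtain ⟨ρ, hρ⟩ := rate (d := d) hn (C := C) (by linarith)
    refine le_trans ?_ hρ
    have h := green_id hd1 (kk_lap hd i j) (u := fun n => dpZ (dmZ (ww d n) j) i)
      (by funext z; simp [ww, dpZ, dmZ]) (dpm_step i j) n
    have h' := congrFun h z
    simp only [Pi.sub_apply] at h'
    rw [abs_sub_comm, h']
    let g : (Fin d → ℤ) → ℝ := (fun _ => C / (1 + ρ)) + C • ∑ v ∈ box d ρ, fun z => del d (z + -v)
    have hg : ∀ z, |kk i j z| ≤ g z := fun z => by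
      simpa [g] using decay_split hd1 (hC i j) ρ z
    have hg2 : (Pw d ^ n) g z ≤ C / (1 + ρ) + C * ((2 * ρ + 1) ^ d * ((2 + 2 * d) / √n)) := by
      simp only [g, map_add, map_smul, map_sum, Pn_const hd1, Pn_shift, Pi.add_apply,
        Pi.smul_apply, Finset.sum_apply, smul_eq_mul]
      gcongr
      refine (Finset.sum_le_card_nsmul _ _ _ fun v _ => hh_sup hd1 hn (z + -v)).trans ?_
      rw [box_card, nsmul_eq_mul]; push_cast; rfl
    refine le_trans (abs_le.2 ⟨?_, ?_⟩) hg2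
    · have := Pn_mono n (f := -g) (g := kk i j) (fun z => (abs_le.1 (hg z)).1) z
      rwa [map_neg] at this
    · exact Pn_mono n (fun z => (abs_le.1 (hg z)).2) z
  · obtain ⟨ρ, hρ⟩ := rate (d := d) hn (C := C) (by linarith)
    refine le_trans ?_ hρ
    calc _ ≤ ∑ z ∈ S, (C / (1 + ρ) + C * ∑ v ∈ box d ρ, del d (z - x + -v)) * |hh d n z| :=
          Finset.sum_le_sum fun z _ => by gcongr; exact decay_split hd1 (hC i j) ρ _
      _ = C / (1 + ρ) * ∑ z ∈ S, |hh d n z| +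
          C * ∑ v ∈ box d ρ, ∑ z ∈ S, del d (z - x + -v) * |hh d n z| := by
          simp only [add_mul, Finset.sum_add_distrib, Finset.mul_sum, Finset.sum_mul, mul_assoc]
          rw [Finset.sum_comm]
      _ ≤ C / (1 + ρ) * 1 + C * ((2 * ρ + 1) ^ d * ((2 + 2 * d) / √n)) := by
          gcongr
          · exact hh_l1 hd1 n S
          · refine (Finset.sum_le_card_nsmul _ _ ((2 + 2 * d) / √n) fun v _ => ?_).trans ?_
            · calc _ ≤ ∑ z ∈ S, |del d (z + (-x + -v))| * ((2 + 2 * d) / √n) := by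
                    refine Finset.sum_le_sum fun z _ => ?_
                    rw [abs_of_nonneg (del_nonneg _), abs_of_nonneg (hh_nonneg _ _),
                      sub_eq_add_neg, add_assoc]
                    exact mul_le_mul_of_nonneg_left (hh_sup hd1 hn z) (del_nonneg _)
                _ ≤ 1 * ((2 + 2 * d) / √n) := by
                    rw [← Finset.sum_mul, sum_shift (fun z => |del d z|)]
                    gcongr; exact del_l1 _
                _ = _ := one_mul _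
            · rw [box_card, nsmul_eq_mul]; push_cast; rfl
      _ = _ := by rw [mul_one]

end Pool.Agent.Lib.MP_7f377f_mp.Weak
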