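import Mathlib

/-! Finite dimensional real star algebras with a Hilbert-Schmidt norm given by a trace. -/

namespace Pool.Agent.Lib.MP_7f377f_mp.Weak

open scoped InnerProductSpace

/-- a trace whose quadratic form is the square of the norm -/
class HS (A : Type) [NormedRing A] [StarRing A] [NormedAlgebra ℝ A] where
  tr : A →ₗ[ℝ] ℝ
  tr_mul_comm : ∀ a b : A, tr (a * b) = tr (b * a)
  tr_star : ∀ a : A, tr (star a) = tr a
  norm_sq : ∀ a : A, ‖a‖ ^ 2 = tr (star a * a)
  star_smul : ∀ (r : ℝ) (a : A), star (r • a) = r • star a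
  fin : FiniteDimensional ℝ A

variable {A : Type} [NormedRing A] [StarRing A] [NormedAlgebra ℝ A] [HS A]

open HS

noncomputable instance : InnerProductSpace ℝ A where
  inner a b := tr (star a * b)
  norm_sq_eq_re_inner a := HS.norm_sq a
  conj_inner_symm a b := by
    change tr (star b * a) = tr (star a * b)
    rw [← tr_star, star_mul, star_star]
  add_left a b c := by
    change tr (star (a + b) * c) = tr (star a * c) + tr (star b * c)
    rw [star_add, add_mul, map_add]
  smul_left a b r := by
    change tr (star (r • a) * b) = r * tr (star a * b)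
    rw [HS.star_smul, smul_mul_assoc, map_smul, smul_eq_mul]

instance : FiniteDimensional ℝ A := HS.fin

instance : CompleteSpace A := FiniteDimensional.complete ℝ A

instance : StarModule ℝ A := ⟨fun r a => HS.star_smul r a⟩

noncomputable instance : NormedAlgebra ℚ A := NormedAlgebra.restrictScalars ℚ ℝ A

theorem inner_def (a b : A) : ⟪a, b⟫_ℝ = tr (star a * b) := rfl

theorem norm_star' (a : A) : ‖star a‖ = ‖a‖ := by
  have : ‖star a‖ ^ 2 = ‖a‖ ^ 2 := by rw [HS.norm_sq, HS.norm_sq, star_star, tr_mul_comm]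
  exact (pow_left_inj₀ (norm_nonneg _) (norm_nonneg _) two_ne_zero).mp this

instance : NormedStarGroup A := ⟨fun a => (norm_star' a).le⟩

theorem tr_eq_inner (a : A) : tr a = ⟪(1 : A), a⟫_ℝ := by rw [inner_def, star_one, one_mul]

theorem continuous_tr : Continuous (tr : A → ℝ) := LinearMap.continuous_of_finiteDimensional _

theorem norm_unit_mul {u : A} (hu : u ∈ unitary A) (a : A) : ‖u * a‖ = ‖a‖ := by
  have : ‖u * a‖ ^ 2 = ‖a‖ ^ 2 := by
    rw [HS.norm_sq, HS.norm_sq, star_mul, mul_assoc, ← mul_assoc (star u), hu.1, one_mul]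
  exact (pow_left_inj₀ (norm_nonneg _) (norm_nonneg _) two_ne_zero).mp this

theorem norm_mul_unit {u : A} (hu : u ∈ unitary A) (a : A) : ‖a * u‖ = ‖a‖ := by
  rw [← norm_star', star_mul, norm_unit_mul (Unitary.star_mem hu), norm_star']

theorem norm_unit {u : A} (hu : u ∈ unitary A) : ‖u‖ = ‖(1 : A)‖ := by
  simpa using norm_unit_mul hu 1

theorem norm_sub_one_sq {u : A} (hu : u ∈ unitary A) :
    ‖u - 1‖ ^ 2 = 2 * (tr (1 : A) - tr u) := by
  rw [HS.norm_sq, star_sub, star_one, sub_mul, mul_sub, mul_sub, hu.1, mul_one, one_mul, one_mul,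
    map_sub, map_sub, map_sub, tr_star]
  ring

theorem norm_star_sub_one (u : A) : ‖star u - 1‖ = ‖u - 1‖ := by
  rw [← norm_star', star_sub, star_star, star_one]

theorem norm_mul_sub_one_le {u : A} (hu : u ∈ unitary A) (v : A) :
    ‖u * v - 1‖ ≤ ‖u - 1‖ + ‖v - 1‖ := by
  have : u * v - 1 = (u - 1) + u * (v - 1) := by noncomm_ring
  rw [this]
  exact (norm_add_le _ _).trans (by rw [norm_unit_mul hu])

theorem tr_skew {v : A} (hv : star v = -v) : tr v = 0 := by
  have := tr_star v
  rw [hv, map_neg] at this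
  linarith

theorem abs_tr_mul_le (a b : A) : |tr (a * b)| ≤ ‖a‖ * ‖b‖ := by
  have := abs_real_inner_le_norm (star a) b
  rwa [inner_def, star_star, norm_star'] at this

section Matrices

open scoped Matrix.Norms.Frobenius

/-- complex matrices with the Frobenius norm -/
@[reducible] noncomputable def matrixHS (N : ℕ) : HS (Matrix (Fin N) (Fin N) ℂ) where
  tr := Complex.reLm ∘ₗ (Matrix.traceLinearMap (Fin N) ℝ ℂ)
  tr_mul_comm a b := by simp [Matrix.trace_mul_comm a b]
  tr_star a := by simp [Matrix.star_eq_conjTranspose, Matrix.trace_conjTranspose]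
  norm_sq a := by
    rw [Matrix.frobenius_norm_def, ← Real.sqrt_eq_rpow, Real.sq_sqrt (by positivity),
      Finset.sum_comm]
    simp [Matrix.trace, Matrix.mul_apply, Matrix.star_eq_conjTranspose, Complex.sq_norm,
      Complex.normSq_apply]
  star_smul r a := star_smul r a
  fin := inferInstance

end Matrices

end Pool.Agent.Lib.MP_7f377f_mp.Weak
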