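import Pool.Agent.Lib.MP_7f377f_mp.WeakTorus
import Pool.Agent.Lib.MP_7f377f_mp.WeakLie
import Pool.Agent.Lib.MP_7f377f_mp.WeakBall

/-! Moment bounds and approximate Gaussian integration by parts. -/

namespace Pool.Agent.Lib.MP_7f377f_mp.Weak

open MeasureTheory HS
open scoped InnerProductSpace

set_option linter.unusedSectionVars false

variable {d L : ℕ} [NeZero L] [NeZero d]
variable {A : Type} [NormedRing A] [StarRing A] [NormedAlgebra ℝ A] [HS A]
variable {G : Type} [Group G] (ρ : G →* unitary A)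

abbrev Plaq (d L : ℕ) := Site d L × Fin d × Fin d

/-- rescaled field strength of an algebra valued configuration -/
noncomputable def ZA (r : ℝ) (p : Plaq d L) (B : Link d L → A) : A :=
  r • (lieAlg ρ).starProjection (lasA B p.1 p.2.1 p.2.2)

/-- rescaled field strength in the comb gauge -/
noncomputable def ZU (r : ℝ) (p : Plaq d L) (U : Link d L → G) : A :=
  r • (lieAlg ρ).starProjection (XX ρ U p.1 p.2.1 p.2.2)

/-- rescaled plaquette energy -/
noncomputable def EU (r : ℝ) (p : Plaq d L) (U : Link d L → G) : ℝ :=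
  r ^ 2 * qq ρ (hol U p.1 p.2.1 p.2.2)

/-- smeared field strength -/
noncomputable def YU (r : ℝ) (u : Site d L → ℝ) (a : Fin d × Fin d) (U : Link d L → G) : A :=
  ∑ x, u x • ZU ρ r (x, a) U

open Classical in
/-- total rescaled energy in a cube -/
noncomputable def SM (r : ℝ) (M : ℕ) (U : Link d L → G) : ℝ :=
  ∑ p ∈ (Finset.univ.filter fun x : Site d L => inBox M x) ×ˢ Finset.univ, EU ρ r p U

/-- the random error of the Schwinger-Dyson identities -/
noncomputable def err (r : ℝ) (M : ℕ) (W : ℝ) (U : Link d L → G) : ℝ :=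
  448 * d ^ 3 * M ^ 2 * W / r * (1 + SM ρ r M U)

theorem ZA_rU (r : ℝ) (p : Plaq d L) (U : Link d L → G) : ZA ρ r p (rU ρ U) = ZU ρ r p U := by
  rw [ZA, lasA_rU]; rfl

theorem ZU_gauge (r : ℝ) (p : Plaq d L) {h : Site d L → G} (h0 : h 0 = 1) (U : Link d L → G) :
    ZU ρ r p (gauge h U) = ZU ρ r p U := by
  simp only [ZU, XX, fix_gauge h0]

theorem ZU_mem (r : ℝ) (p : Plaq d L) (U : Link d L → G) : ZU ρ r p U ∈ lieAlg ρ :=
  Submodule.smul_mem _ _ (Submodule.starProjection_apply_mem _ _)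

theorem YU_mem (r : ℝ) (u : Site d L → ℝ) (a : Fin d × Fin d) (U : Link d L → G) :
    YU ρ r u a U ∈ lieAlg ρ :=
  Submodule.sum_mem _ fun _ _ => Submodule.smul_mem _ _ (ZU_mem ρ _ _ _)

theorem EU_nonneg (r : ℝ) (p : Plaq d L) (U : Link d L → G) : 0 ≤ EU ρ r p U :=
  mul_nonneg (sq_nonneg _) (qq_nonneg _ _)

theorem SM_nonneg (r : ℝ) (M : ℕ) (U : Link d L → G) : 0 ≤ SM ρ r M U :=
  Finset.sum_nonneg fun _ _ => EU_nonneg ρ _ _ _

theorem norm_ZU_sq (r : ℝ) (p : Plaq d L) (U : Link d L → G) :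
    ‖ZU ρ r p U‖ ^ 2 ≤ EU ρ r p U := by
  rw [ZU, norm_smul, mul_pow, EU, ← norm_XX_sq, Real.norm_eq_abs, sq_abs]
  exact mul_le_mul_of_nonneg_left (pow_le_pow_left₀ (norm_nonneg _)
    (Submodule.norm_starProjection_apply_le _ _) 2) (sq_nonneg _)

theorem contDiff_ZA (r : ℝ) (p : Plaq d L) : ContDiff ℝ 1 (ZA ρ r p) :=
  ((lieAlg ρ).starProjection.contDiff.comp (contDiff_lasA _ _ _)).const_smul r

theorem inner_ZU {v : A} (hv : v ∈ lieAlg ρ) (r : ℝ) (p : Plaq d L) (U : Link d L → G) :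
    ⟪v, ZU ρ r p U⟫_ℝ = r * ⟪v, XX ρ U p.1 p.2.1 p.2.2⟫_ℝ := by
  rw [ZU, real_inner_smul_right, ← Submodule.inner_starProjection_left_eq_right,
    Submodule.starProjection_eq_self_iff.mpr hv]

theorem inBox_mono {M M' : ℕ} (h : M ≤ M') {x : Site d L} (hx : inBox M x) : inBox M' x :=
  fun k => (hx k).trans h

theorem inBox_add_single {M : ℕ} {x : Site d L} (hx : inBox M x) (i : Fin d) :
    inBox (M + 1) (x + Pi.single i 1) := inBox_add hx (inBox_single i)

theorem inBox_sub_single {M : ℕ} {x : Site d L} (hx : inBox M x) (i : Fin d) :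
    inBox (M + 1) (x - Pi.single i 1) := by
  rw [sub_eq_add_neg]; exact inBox_add hx (inBox_neg (inBox_single i))

theorem etaP_le {r : ℝ} (hr : 0 < r) {M : ℕ} (hM : (M + 1 + 1) * 2 ≤ L) (U : Link d L → G)
    {y : Site d L} (hy : inBox M y) (i j : Fin d) :
    etaP ρ U y i j ≤ 4 * d * (M + 1 : ℕ) * (√(SM ρ r (M + 1) U) / r) := by
  classical
  have h0 : 0 ≤ √(SM ρ r (M + 1) U) / r := by positivity
  have h1 := fix_small ρ hM U h0 fun y hy i j => by
    rw [le_div_iff₀ hr]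
    refine Real.le_sqrt_of_sq_le ?_
    have := Finset.single_le_sum (f := fun p => EU ρ r p U) (fun p _ => EU_nonneg ρ r p U)
      (a := (y, i, j)) (s := (Finset.univ.filter fun x : Site d L => inBox (M + 1) x) ×ˢ
        Finset.univ) (by simp [hy])
    rw [mul_pow, mul_comm]
    exact this
  have h2 : ∀ x, inBox (M + 1) x → ∀ i, ‖rU ρ (fix U) (x, i) - 1‖ ≤
      d * (M + 1 : ℕ) * (√(SM ρ r (M + 1) U) / r) := fun x hx i =>
    (h1 x hx i).trans (mul_le_mul_of_nonneg_right (by exact_mod_cast ht_le hx) h0)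
  have a1 := h2 y (inBox_mono (by omega) hy) i
  have a2 := h2 _ (inBox_add_single hy i) j
  have a3 := h2 _ (inBox_add_single hy j) i
  have a4 := h2 y (inBox_mono (by omega) hy) j
  simp only [etaP, sP]
  linarith

theorem dmT_supp {R : ℕ} {w : Site d L → ℝ} (hw : ∀ y, w y ≠ 0 → inBox R y) (i : Fin d)
    (y : Site d L) (h : dmT i w y ≠ 0) : inBox (R + 1) y := by
  by_contra hy
  apply h
  have h1 : w y = 0 := by_contra fun h => hy (inBox_mono (by omega) (hw _ h))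
  have h2 : w (y - Pi.single i 1) = 0 := by_contra fun h => hy (by
    simpa using inBox_add_single (hw _ h) i)
  rw [dmT_apply, h1, h2, sub_zero]

theorem dpT_supp {R : ℕ} {w : Site d L → ℝ} (hw : ∀ y, w y ≠ 0 → inBox R y) (i : Fin d)
    (y : Site d L) (h : dpT i w y ≠ 0) : inBox (R + 1) y := by
  by_contra hy
  apply h
  have h1 : w y = 0 := by_contra fun h => hy (inBox_mono (by omega) (hw _ h))
  have h2 : w (y + Pi.single i 1) = 0 := by_contra fun h => hy (by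
    simpa using inBox_sub_single (hw _ h) i)
  rw [dpT_apply, h1, h2, sub_zero]

theorem lapT_supp {R : ℕ} {w : Site d L → ℝ} (hw : ∀ y, w y ≠ 0 → inBox R y)
    (y : Site d L) (h : lapT w y ≠ 0) : inBox (R + 2) y := by
  rw [lapT, Finset.sum_apply] at h
  obtain ⟨l, -, hl⟩ := Finset.exists_ne_zero_of_sum_ne_zero h
  exact dmT_supp (dpT_supp hw l) l y hl

theorem psiW_supp {R : ℕ} {w : Site d L → ℝ} (hw : ∀ y, w y ≠ 0 → inBox R y) (a : Fin d × Fin d)
    (y : Site d L) (i j : Fin d) (h : sP (fun e => |psiW w a e|) y i j ≠ 0) : inBox (R + 2) y := by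
  have key : ∀ e, psiW w a e ≠ 0 → inBox (R + 1) e.1 := by
    intro e he
    by_contra hy
    apply he
    have h1 : ∀ i, dmT i w e.1 = 0 := fun i => by_contra fun h => hy (dmT_supp hw i _ h)
    simp [psiW, h1]
  by_contra hy
  apply h
  have h1 : ∀ i, psiW w a (y, i) = 0 := fun i => by_contra fun h =>
    hy (inBox_mono (by omega) (key _ h))
  have h2 : ∀ i j, psiW w a (y + Pi.single i 1, j) = 0 := fun i j => by_contra fun h =>
    hy (by simpa using inBox_sub_single (key _ h) i)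
  simp [sP, h1, h2]

theorem psiW_smul (c : ℝ) (w : Site d L → ℝ) (a : Fin d × Fin d) (e : Link d L) :
    psiW (c • w) a e = c * psiW w a e := by
  simp only [psiW, map_smul, Pi.smul_apply, smul_eq_mul]
  split_ifs <;> ring

/-- the covariance kernel attached to `w` -/
def KT (w : Site d L → ℝ) (a : Fin d × Fin d) (p : Plaq d L) : ℝ := dL (psiW w a) p.1 p.2.1 p.2.2

variable [TopologicalSpace G] [IsTopologicalGroup G] [CompactSpace G]
  [SecondCountableTopology G] [MeasurableSpace G] [BorelSpace G] (μ : Measure G)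
  [μ.IsHaarMeasure] [IsProbabilityMeasure μ]

theorem est_act (hρ : Continuous ρ) {r : ℝ} (hr : 0 < r) {R : ℕ} (hR : (R + 4) * 2 ≤ L)
    {w : Site d L → ℝ} (hw : ∀ y, w y ≠ 0 → inBox R y) {W : ℝ} (hW : ∑ y, |w y| ≤ W)
    (a : Fin d × Fin d) {v : A} (hv : v ∈ lieAlg ρ) (hv1 : ‖v‖ = 1) (U : Link d L → G) :
    |r ^ 2 / 4 * DD ρ (psiW (r⁻¹ • w) a) v actA U - ⟪v, YU ρ r (lapT w) a U⟫_ℝ| ≤
      err ρ r (R + 3) W U := by
  have hs := lieAlg_skew ρ hρ hv
  set η := 4 * d * (R + 2 + 1 : ℕ) * (√(SM ρ r (R + 2 + 1) U) / r) with hη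
  have hw' : ∀ y, (r⁻¹ • w) y ≠ 0 → inBox R y := fun y h => hw y fun h' => h (by simp [h'])
  have h1 := DD_act ρ (psiW (r⁻¹ • w) a) hs U (η := η) fun x i j h =>
    etaP_le ρ hr hR U (psiW_supp hw' a x i j h) i j
  rw [sbp, hv1] at h1
  have h2 := sum_abs_psiW (r⁻¹ • w) a
  have h3 : ∑ x, |(r⁻¹ • w) x| = r⁻¹ * ∑ x, |w x| := by
    simp [Finset.mul_sum, abs_of_pos hr]
  have h4 : lapT (r⁻¹ • w) = r⁻¹ • lapT w := by simp [lapT, Finset.smul_sum]
  set f : Link d L → ℝ := fun e => ⟪v, rU ρ (fix U) e - 1⟫_ℝ with hf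
  have h5 : |⟪v, YU ρ r (lapT w) a U⟫_ℝ - r * ∑ x, lapT w x * dL f x a.1 a.2| ≤
      r * η ^ 2 * ∑ x, |lapT w x| := by
    simp only [YU, inner_sum, real_inner_smul_right, inner_ZU ρ hv, Finset.mul_sum,
      ← Finset.sum_sub_distrib]
    refine (Finset.abs_sum_le_sum_abs _ _).trans (Finset.sum_le_sum fun x _ => ?_)
    by_cases h0 : lapT w x = 0
    · simp [h0]
    have a1 := inner_holA hs (rU_unit ρ (fix U)) x a.1 a.2
    rw [holA_rU, hv1, one_mul] at a1
    have a2 := pow_le_pow_left₀ (etaP_nonneg ρ U x a.1 a.2)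
      (etaP_le ρ hr hR U (lapT_supp hw x h0) a.1 a.2) 2
    have e : lapT w x * (r * ⟪v, XX ρ U x a.1 a.2⟫_ℝ) - r * (lapT w x * dL f x a.1 a.2) =
        r * (⟪v, XX ρ U x a.1 a.2⟫_ℝ - dL f x a.1 a.2) * lapT w x := by ring
    rw [e, abs_mul, abs_mul, abs_of_pos hr]
    gcongr
    exact a1.trans a2
  have h6 := sum_abs_lapT w
  simp only [h4, Pi.smul_apply, smul_eq_mul, mul_assoc r⁻¹, ← Finset.mul_sum] at h1
  rw [h3] at h2
  generalize ∑ x, lapT w x * dL f x a.1 a.2 = T at *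
  generalize DD ρ (psiW (r⁻¹ • w) a) v actA U = D at *
  generalize ⟪v, YU ρ r (lapT w) a U⟫_ℝ = Y at *
  have e : r ^ 2 / 4 * D - Y = r ^ 2 / 4 * (D - 2 * (2 * (r⁻¹ * T))) - (Y - r * T) := by
    field_simp; ring
  have hS := SM_nonneg ρ r (R + 2 + 1) U
  have hη2 : η ^ 2 = 16 * d ^ 2 * (R + 3 : ℕ) ^ 2 * SM ρ r (R + 3) U / r ^ 2 := by
    rw [hη, mul_pow, div_pow, Real.sq_sqrt hS]; ring
  have W0 : 0 ≤ W := (Finset.sum_nonneg fun _ _ => abs_nonneg _).trans hW
  have b1 : |r ^ 2 / 4 * (D - 2 * (2 * (r⁻¹ * T)))| ≤ 24 * d * η ^ 2 * r * W := by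
    rw [abs_mul, abs_of_pos (by positivity)]
    calc _ ≤ r ^ 2 / 4 * (24 * d * η ^ 2 * 1 * (4 * (r⁻¹ * W))) := by
          refine mul_le_mul_of_nonneg_left (h1.trans (mul_le_mul_of_nonneg_left (h2.trans ?_)
            (by positivity))) (by positivity)
          gcongr
      _ = _ := by field_simp
  have b2 : |Y - r * T| ≤ 4 * d * η ^ 2 * r * W := by
    calc _ ≤ r * η ^ 2 * (4 * d * W) := h5.trans (by gcongr; exact h6.trans (by gcongr))
      _ = _ := by ring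
  rw [e]
  refine (abs_sub _ _).trans ((add_le_add b1 b2).trans ?_)
  have e2 : 24 * d * η ^ 2 * r * W + 4 * d * η ^ 2 * r * W =
      448 * d ^ 3 * (R + 3 : ℕ) ^ 2 * W / r * SM ρ r (R + 3) U := by
    rw [hη2]; field_simp; ring
  rw [e2, err]
  gcongr
  linarith

theorem est_Z (hρ : Continuous ρ) {r : ℝ} (hr : 0 < r) {R : ℕ} (hR : (R + 4) * 2 ≤ L)
    (w : Site d L → ℝ) {W : ℝ} (hW : ∑ y, |w y| ≤ W)
    (a : Fin d × Fin d) {v : A} (hv : v ∈ lieAlg ρ) (hv1 : ‖v‖ = 1) (U : Link d L → G)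
    {p : Plaq d L} (hp : inBox (R + 2) p.1) :
    ‖DD ρ (psiW (r⁻¹ • w) a) v (ZA ρ r p) U - KT w a p • v‖ ≤ err ρ r (R + 3) W U := by
  have hs := lieAlg_skew ρ hρ hv
  have h3 : ∑ x, |(r⁻¹ • w) x| = r⁻¹ * ∑ x, |w x| := by
    simp [Finset.mul_sum, abs_of_pos hr]
  have W0 : 0 ≤ W := (Finset.sum_nonneg fun _ _ => abs_nonneg _).trans hW
  have hΨ : ∀ e, |psiW (r⁻¹ • w) a e| ≤ 4 * (r⁻¹ * W) := fun e =>
    (Finset.single_le_sum (f := fun e => |psiW (r⁻¹ • w) a e|) (fun _ _ => abs_nonneg _)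
      (Finset.mem_univ e)).trans ((sum_abs_psiW _ a).trans (by rw [h3]; gcongr))
  have h1 := DD_las ρ (psiW (r⁻¹ • w) a) hs hΨ U p.1 p.2.1 p.2.2
  have h2 := (DD_deriv ρ (psiW (r⁻¹ • w) a) v (contDiff_ZA ρ r p) U).unique
    (((lieAlg ρ).starProjection.hasFDerivAt.comp_hasDerivAt 0
      (DD_deriv ρ (psiW (r⁻¹ • w) a) v (contDiff_lasA p.1 p.2.1 p.2.2) U)).const_smul r)
  have h4 : KT w a p • v =
      r • (lieAlg ρ).starProjection (dL (psiW (r⁻¹ • w) a) p.1 p.2.1 p.2.2 • v) := by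
    rw [map_smul, Submodule.starProjection_eq_self_iff.mpr hv, smul_smul]
    congr 1
    simp only [KT, dL, psiW_smul]
    field_simp
  rw [h2, h4, ← smul_sub, ← map_sub, norm_smul, Real.norm_eq_abs, abs_of_pos hr]
  have h5 := etaP_le ρ hr hR U hp p.2.1 p.2.2
  have h6 : (ht p.1 : ℝ) ≤ d * (R + 3 : ℕ) := by
    exact_mod_cast ht_le (inBox_mono (by omega) hp)
  have hS := SM_nonneg ρ r (R + 3) U
  have h7 : √(SM ρ r (R + 3) U) ≤ 1 + SM ρ r (R + 3) U :=
    Real.sqrt_le_iff.mpr ⟨by linarith, by nlinarith⟩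
  have d1 : (1 : ℝ) ≤ d := by exact_mod_cast NeZero.pos d
  have M1 : (1 : ℝ) ≤ (R + 3 : ℕ) := by exact_mod_cast (by omega : 1 ≤ R + 3)
  have hη := etaP_nonneg ρ U p.1 p.2.1 p.2.2
  change _ ≤ 4 * d * (R + 3 : ℕ) * (√(SM ρ r (R + 3) U) / r) at h5
  rw [err]
  generalize ((R + 3 : ℕ) : ℝ) = M at *
  have h8 : 2 * (ht p.1 : ℝ) + 12 ≤ 28 * d ^ 2 * M := by
    have : (d : ℝ) * M ≤ d ^ 2 * M := by gcongr; nlinarith
    nlinarith [mul_le_mul d1 M1 zero_le_one (by linarith)]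
  calc _ ≤ r * (28 * d ^ 2 * M * (4 * (r⁻¹ * W)) * (4 * d * M * ((1 + SM ρ r (R + 3) U) / r)) *
        1) := by
        refine mul_le_mul_of_nonneg_left ((Submodule.norm_starProjection_apply_le _ _).trans
          (h1.trans ?_)) hr.le
        rw [hv1]
        gcongr
        exact h5.trans (by gcongr)
    _ = _ := by field_simp; ring

theorem continuous_ZU (hρ : Continuous ρ) (r : ℝ) (p : Plaq d L) : Continuous (ZU ρ r p) := by
  have := (contDiff_ZA ρ r p).continuous.comp (continuous_rU ρ hρ)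
  simpa only [Function.comp_def, ZA_rU] using this

theorem continuous_YU (hρ : Continuous ρ) (r : ℝ) (u : Site d L → ℝ) (a : Fin d × Fin d) :
    Continuous (YU ρ r u a) :=
  continuous_finsetSum _ fun _ _ => (continuous_ZU ρ hρ r _).const_smul _

theorem continuous_EU (hρ : Continuous ρ) (r : ℝ) (p : Plaq d L) : Continuous (EU ρ r p) :=
  continuous_const.mul (continuous_qhol ρ hρ _ _ _)

theorem continuous_SM (hρ : Continuous ρ) (r : ℝ) (M : ℕ) :
    Continuous (SM (d := d) (L := L) ρ r M) :=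
  continuous_finsetSum _ fun _ _ => continuous_EU ρ hρ r _

theorem continuous_err (hρ : Continuous ρ) (r : ℝ) (M : ℕ) (W : ℝ) :
    Continuous (err (d := d) (L := L) ρ r M W) :=
  continuous_const.mul (continuous_const.add (continuous_SM ρ hρ r M))

theorem err_nonneg {r : ℝ} (hr : 0 < r) (M : ℕ) {W : ℝ} (hW : 0 ≤ W) (U : Link d L → G) :
    0 ≤ err ρ r M W U := by
  have := SM_nonneg ρ r M U
  unfold err; positivity

/-- all moments of the rescaled plaquette energy are bounded uniformly in the volume -/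
theorem moment_EU (hρ : Continuous ρ) (d : ℕ) [NeZero d] (n : ℕ) : ∃ C : ℝ, 0 ≤ C ∧
    ∀ (L m : ℕ) [NeZero L] (r : ℝ), L = 2 * m → 0 < r → r ^ 2 ≤ L → ∀ p : Plaq d L,
      ∫ U, EU ρ r p U ^ n ∂(nu μ ρ d L (r ^ 2 / 4)) ≤ C := by
  have d0 : (0 : ℝ) < d := by exact_mod_cast NeZero.pos d
  obtain ⟨C, hC, h⟩ := haar_doubling μ ρ hρ (16 * d) (by positivity)
  refine ⟨n.factorial * (2 ^ (d + 3)) ^ n *
    (C ^ d * Real.exp ((d + 1) * (16 * d * (4 * ‖(1 : A)‖ ^ 2)))), by positivity, ?_⟩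
  intro L m _ r hL hr hrL p
  have hb : 0 < r ^ 2 / 4 := by positivity
  have h1 := exp_moment_of_Z μ ρ hρ hb.le hL (by positivity)
    (Z_ratio (d := d) (L := L) μ ρ hρ hC hb.le (by linarith) (h _ hb)) p.2.1 p.2.2 {p.1}
  rw [Finset.card_singleton, pow_one] at h1
  simp only [Finset.sum_singleton] at h1
  refine le_trans ?_ (mul_le_mul_of_nonneg_left h1 (by positivity))
  rw [← integral_const_mul]
  have c1 := continuous_EU ρ hρ r p
  have c2 := continuous_qhol ρ hρ p.1 p.2.1 p.2.2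
  refine integral_mono (cint _ (by fun_prop)) (cint _ (by fun_prop)) fun U => ?_
  have e : r ^ 2 / 4 / 2 ^ (d + 1) * qq ρ (hol U p.1 p.2.1 p.2.2) = EU ρ r p U / 2 ^ (d + 3) := by
    rw [EU]; field_simp; ring
  have h2 := Real.pow_div_factorial_le_exp (EU ρ r p U / 2 ^ (d + 3))
    (div_nonneg (EU_nonneg ρ r p U) (by positivity)) n
  rw [div_le_iff₀ (by positivity), div_pow, div_le_iff₀ (by positivity)] at h2
  simp only [e]
  linarith

theorem moment_sum {Ω ι : Type} [TopologicalSpace Ω] [CompactSpace Ω] [MeasurableSpace Ω]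
    [OpensMeasurableSpace Ω] (ν : Measure Ω) [IsProbabilityMeasure ν] (s : Finset ι)
    (f : ι → Ω → ℝ) (hc : ∀ i, Continuous (f i)) (h0 : ∀ i U, 0 ≤ f i U) (n : ℕ) {C κ : ℝ}
    (hκ : 0 ≤ κ) (h : ∀ i, ∫ U, f i U ^ (n + 1) ∂ν ≤ C) :
    ∫ U, (κ + ∑ i ∈ s, f i U) ^ (n + 1) ∂ν ≤ 2 ^ n * (κ ^ (n + 1) + s.card ^ (n + 1) * C) := by
  have c1 : Continuous fun U => ∑ i ∈ s, f i U ^ (n + 1) := by fun_prop
  calc _ ≤ ∫ U, 2 ^ n * (κ ^ (n + 1) + s.card ^ n * ∑ i ∈ s, f i U ^ (n + 1)) ∂ν := by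
        refine integral_mono (cint _ (by fun_prop)) (cint _ (by fun_prop)) fun U => ?_
        refine (add_pow_le hκ (Finset.sum_nonneg fun i _ => h0 i U) (n + 1)).trans ?_
        have := pow_sum_le_card_mul_sum_pow (s := s) (fun i _ => h0 i U) n
        simp only [Nat.add_sub_cancel]
        gcongr
    _ ≤ _ := by
        rw [integral_const_mul, integral_add (integrable_const _) (cint _ (by fun_prop)),
          integral_const_mul, integral_finsetSum _ fun i _ => cint _ (by fun_prop)]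
        have := Finset.sum_le_card_nsmul s _ C fun i _ => h i
        simp only [integral_const, probReal_univ, smul_eq_mul, one_mul, nsmul_eq_mul] at this ⊢
        rw [pow_succ (s.card : ℝ), mul_assoc]
        gcongr

theorem cs_small {Ω : Type} [TopologicalSpace Ω] [CompactSpace Ω] [MeasurableSpace Ω]
    [OpensMeasurableSpace Ω] (ν : Measure Ω) [IsFiniteMeasure ν] {f g : Ω → ℝ}
    (hf : Continuous f) (hg : Continuous g) {δ C : ℝ} (hδ : 0 < δ) (h1 : ∫ U, f U ^ 2 ∂ν ≤ δ ^ 2)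
    (h2 : ∫ U, g U ^ 2 ∂ν ≤ C) : ∫ U, f U * g U ∂ν ≤ δ * (1 + C) / 2 := by
  calc _ ≤ ∫ U, (δ⁻¹ / 2 * f U ^ 2 + δ / 2 * g U ^ 2) ∂ν := by
        refine integral_mono (cint _ (by fun_prop)) (cint _ (by fun_prop)) fun U => ?_
        have : δ⁻¹ / 2 * f U ^ 2 + δ / 2 * g U ^ 2 - f U * g U = (f U - δ * g U) ^ 2 / (2 * δ) := by
          field_simp; ring
        have h : 0 ≤ (f U - δ * g U) ^ 2 / (2 * δ) := by positivity
        simp only
        linarith
    _ ≤ δ⁻¹ / 2 * δ ^ 2 + δ / 2 * C := by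
        rw [integral_add (cint _ (by fun_prop)) (cint _ (by fun_prop)), integral_const_mul,
          integral_const_mul]
        gcongr
    _ = _ := by field_simp

theorem moment_err (hρ : Continuous ρ) (d : ℕ) [NeZero d] : ∃ C : ℝ, 0 < C ∧
    ∀ (L m : ℕ) [NeZero L] (r : ℝ), L = 2 * m → 0 < r → r ^ 2 ≤ L → ∀ (M : ℕ) (W : ℝ),
      ∫ U, err ρ r M W U ^ 2 ∂(nu μ ρ d L (r ^ 2 / 4)) ≤
        (C * M ^ 2 * (2 * M + 1) ^ d * W / r) ^ 2 := by
  obtain ⟨C, hC, h⟩ := moment_EU ρ μ hρ d 2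
  have d0 : (0 : ℝ) < d := by exact_mod_cast NeZero.pos d
  refine ⟨448 * d ^ 3 * (2 + d ^ 4 * C), by positivity, fun L m _ r hL hr hrL M W => ?_⟩
  classical
  have := nu_prob (d := d) (L := L) μ ρ hρ (r ^ 2 / 4)
  have h1 := moment_sum (nu μ ρ d L (r ^ 2 / 4))
    ((Finset.univ.filter fun x : Site d L => inBox M x) ×ˢ Finset.univ) (EU ρ r)
    (continuous_EU ρ hρ r) (EU_nonneg ρ r) 1 zero_le_one (h L m r hL hr hrL)
  have h2 : (((Finset.univ.filter fun x : Site d L => inBox M x) ×ˢ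
      (Finset.univ : Finset (Fin d × Fin d))).card : ℝ) ≤ (2 * M + 1) ^ d * d ^ 2 := by
    have := card_inBox d L M
    rw [Finset.card_product]
    simp only [Finset.card_univ, Fintype.card_prod, Fintype.card_fin]
    push_cast
    rw [← sq]
    gcongr
    exact_mod_cast this
  simp only [err, mul_pow, integral_const_mul]
  have h3 : (1 : ℝ) ≤ (2 * M + 1) ^ d := one_le_pow₀ (by have : (0 : ℝ) ≤ M := by positivity
                                                         linarith)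
  have h4 : ∫ U, (1 + SM ρ r M U) ^ 2 ∂(nu μ ρ d L (r ^ 2 / 4)) ≤
      ((2 + d ^ 4 * C) * (2 * M + 1) ^ d) ^ 2 := by
    refine h1.trans ?_
    generalize (2 * (M : ℝ) + 1) ^ d = N at *
    have h5 := pow_le_pow_left₀ (by positivity) h2 2
    have h6 := mul_le_mul_of_nonneg_right h5 hC
    have h7 : 1 ≤ N ^ 2 := one_le_pow₀ h3
    have h8 : 0 ≤ (d : ℝ) ^ 4 * C * N ^ 2 := by positivity
    have h9 : 0 ≤ ((d : ℝ) ^ 4 * C * N) ^ 2 := by positivity
    norm_num at h6 ⊢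
    nlinarith
  refine (mul_le_mul_of_nonneg_left h4 (by positivity)).trans_eq ?_
  ring

end Pool.Agent.Lib.MP_7f377f_mp.Weak
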