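import Pool.Agent.Lib.MP_7f377f_mp.WeakLat

/-! The lattice theorem with explicit polynomial dependence on the scale. -/

namespace Pool.Agent.Lib.MP_7f377f_mp.Weak

open MeasureTheory Filter Topology

variable {A : Type} [NormedRing A] [StarRing A] [NormedAlgebra ℝ A] [HS A]
variable {G : Type} [Group G] (ρ : G →* unitary A)
  [TopologicalSpace G] [IsTopologicalGroup G] [CompactSpace G]
  [SecondCountableTopology G] [MeasurableSpace G] [BorelSpace G] (μ : Measure G)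
  [μ.IsHaarMeasure] [IsProbabilityMeasure μ]

theorem lattice (hρ : Continuous ρ) (d : ℕ) [NeZero d] (hd : 2 ≤ d) :
    ∃ k : Fin d → Fin d → (Fin d → ℤ) → ℝ,
      (∀ (i j : Fin d) (y : EuclideanSpace ℝ (Fin d)) (ε : ℕ → ℝ) (x : ℕ → Fin d → ℤ), y ≠ 0 →
        (∀ n, 0 < ε n) → Tendsto ε atTop (𝓝 0) →
        (∀ l, Tendsto (fun n => ε n * x n l) atTop (𝓝 (y l))) →
        Tendsto (fun n => k i j (x n) / ε n ^ d) atTop (𝓝 (hessG y i j))) ∧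
      ∀ m : ℕ, ∃ (C₀ : ℝ) (q : ℕ), 1 ≤ C₀ ∧ 1 ≤ q ∧ ∀ (s L l : ℕ) [NeZero L] (r : ℝ), 1 ≤ s →
        L = 2 * l → C₀ * s ^ q ≤ r → r ^ 2 ≤ L →
        ∀ (x : Fin m → Site d L) (a : Fin m → Bool → Fin d × Fin d), (∀ i, inBox s (x i)) →
        |∫ U, ∏ i, (OU ρ r (x i) (a i true) (a i false) U -
            ∫ V, OU ρ r (x i) (a i true) (a i false) V ∂(nu μ ρ d L (r ^ 2 / 4)))
            ∂(nu μ ρ d L (r ^ 2 / 4)) - loopSum (Module.finrank ℝ (lieAlg ρ))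
            fun α γ => kM k (lift (x γ.1 - x α.1)) (a α.1 α.2) (a γ.1 γ.2)| ≤ 1 / s := by
  obtain ⟨k, hlim, C, a, ha, hC, hdec, hT⟩ := torus_green d hd
  refine ⟨k, hlim, fun m => ?_⟩
  obtain ⟨C', hC', hG⟩ := lattice_of_GD ρ μ hρ d m hC
  obtain ⟨Ce, hCe, hE⟩ := moment_err ρ μ hρ d
  obtain ⟨N, hN, N1⟩ : ∃ N : ℕ, C' ≤ N ∧ 1 ≤ N :=
    ⟨⌈C'⌉₊, Nat.le_ceil _, Nat.ceil_pos.mpr hC'⟩
  obtain ⟨N₀, hN₀, N₀1⟩ : ∃ N : ℕ, C ≤ N ∧ 1 ≤ N :=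
    ⟨⌈C⌉₊ + 1, (Nat.le_ceil _).trans (by push_cast; linarith), by omega⟩
  obtain ⟨q₁, hq₁, q₁4⟩ : ∃ q : ℕ, 4 ≤ q * a ∧ 4 ≤ q :=
    ⟨⌈4 / a⌉₊ + 4, by
      have := (div_le_iff₀ ha).mp (Nat.le_ceil (4 / a))
      push_cast
      linarith, by omega⟩
  obtain ⟨N₁, hN₁⟩ : ∃ x : ℕ, x = 6 * d * N₀ ^ 2 := ⟨_, rfl⟩
  have N₁3 : 3 * N₀ ≤ N₁ := by rw [hN₁]; nlinarith
  have hc : (12 : ℝ) ≤ Ce * 25 * 33 ^ d + 12 := le_add_of_nonneg_left (by positivity)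
  refine ⟨(Ce * 25 * 33 ^ d + 12) * ((N₁ * N) ^ (q₁ * (2 * d + 3)) * N ^ 2 : ℕ),
    q₁ * (2 * d + 3) + 2, ?_, by omega, ?_⟩
  · refine one_le_mul_of_one_le_of_one_le (by linarith) ?_
    exact_mod_cast Nat.mul_pos (pow_pos (Nat.mul_pos (by omega) N1) _) (pow_pos N1 _)
  intro s L l _ r hs hL hr hrL x b hx
  obtain ⟨u, hu⟩ : ∃ u : ℕ, u = N * s := ⟨_, rfl⟩
  obtain ⟨n, hn⟩ : ∃ n : ℕ, n = (N₁ * u) ^ q₁ := ⟨_, rfl⟩
  have u1 : 1 ≤ u := hu ▸ Nat.mul_pos N1 hs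
  have su : s ≤ u := hu ▸ Nat.le_mul_of_pos_left _ N1
  have uu : u ≤ u ^ 2 := Nat.le_self_pow two_ne_zero u
  have Nu : 1 ≤ N₁ * u := Nat.mul_pos (by omega) u1
  have n4 : N₁ * u ^ 4 ≤ (N₁ * u) ^ 4 := by
    rw [mul_pow]; exact Nat.mul_le_mul_right _ (Nat.le_self_pow (by norm_num) _)
  have n1 : 1 ≤ n := hn ▸ Nat.one_le_pow _ _ Nu
  have R1 : 2 * (N₀ * u ^ 2) + 1 ≤ 3 * (N₀ * u ^ 2) := by
    have := Nat.mul_pos N₀1 (u1.trans uu); omega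
  have Rn : 2 * (N₀ * u ^ 2) + 1 ≤ n := by
    calc _ ≤ 3 * N₀ * u ^ 2 := by rw [mul_assoc]; exact R1
      _ ≤ N₁ * u ^ 4 := Nat.mul_le_mul N₁3 (Nat.pow_le_pow_right u1 (by norm_num))
      _ ≤ n := n4.trans (hn ▸ Nat.pow_le_pow_right Nu q₁4)
  have sR : s ≤ 2 * (N₀ * u ^ 2) + 1 := by
    have := Nat.le_mul_of_pos_left (u ^ 2) N₀1; omega
  have hr' : (Ce * 25 * 33 ^ d + 12) * (n ^ (2 * d + 3) * u ^ 2) ≤ r := by
    refine le_trans (le_of_eq ?_) hr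
    rw [hn, hu]; push_cast; ring
  have u1' : (1 : ℝ) ≤ u := by exact_mod_cast u1
  have n1' : (1 : ℝ) ≤ n := by exact_mod_cast n1
  have p1 : (n : ℝ) ≤ n ^ (2 * d + 3) := le_self_pow₀ n1' (by omega)
  have p2 : (u : ℝ) ≤ u ^ 2 := le_self_pow₀ u1' two_ne_zero
  have p3 : 12 * ((n : ℝ) * u) ≤ r := le_trans (by gcongr) hr'
  have p4 : (n : ℝ) ≤ n * u := le_mul_of_one_le_right (by linarith) u1'
  have p5 : (u : ℝ) ≤ n * u := le_mul_of_one_le_left (by linarith) n1'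
  have r1 : 1 ≤ r := by linarith
  have rr : r ≤ r ^ 2 := le_self_pow₀ r1 two_ne_zero
  have nL : 12 * n ≤ L := by
    have : (12 * n : ℝ) ≤ L := by linarith
    exact_mod_cast this
  obtain ⟨w, h, g1, g2, g3, g4, g5, g6, g7, g8⟩ := hT n (2 * (N₀ * u ^ 2) + 1) L n1 (by omega)
  have N₁0 : (0 : ℝ) < N₁ := by exact_mod_cast (by omega : 0 < N₁)
  have θ1 : C / n ^ a ≤ N₀ / (N₁ * u ^ 4) := by
    refine div_le_div₀ (by positivity) hN₀ (by positivity) ?_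
    have Nu' : (1 : ℝ) ≤ N₁ * u := by exact_mod_cast Nu
    calc (N₁ : ℝ) * u ^ 4 ≤ (N₁ * u) ^ 4 := by exact_mod_cast n4
      _ = (N₁ * u : ℝ) ^ ((4 : ℕ) : ℝ) := (Real.rpow_natCast _ _).symm
      _ ≤ (N₁ * u : ℝ) ^ (q₁ * a) := Real.rpow_le_rpow_of_exponent_le Nu' (by exact_mod_cast hq₁)
      _ = _ := by rw [hn, Real.rpow_mul (by positivity), Real.rpow_natCast]; push_cast; rfl
  have θ0 : 0 ≤ C / n ^ a := by positivity
  have θ2 : (6 * d * (N₀ * u ^ 2) : ℕ) * (C / n ^ a) ≤ (1 / u : ℝ) ^ 2 := by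
    refine (mul_le_mul_of_nonneg_left θ1 (by positivity)).trans_eq ?_
    have e : (N₁ : ℝ) = 6 * d * N₀ ^ 2 := by rw [hN₁]; push_cast; rfl
    have d0 : (0 : ℝ) < d := by exact_mod_cast NeZero.pos d
    have : (0 : ℝ) < N₀ := by exact_mod_cast N₀1
    push_cast
    rw [e]
    field_simp
  have θ3 : C / n ^ a ≤ (1 / u : ℝ) ^ 2 := by
    refine le_trans (le_mul_of_one_le_left θ0 ?_) θ2
    exact_mod_cast Nat.mul_pos (by omega) (Nat.mul_pos N₀1 (u1.trans uu))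
  have s0 : (0 : ℝ) < s := by exact_mod_cast hs
  have fin : C' * (1 / u) ≤ 1 / s := by
    rw [mul_one_div, div_le_div_iff₀ (by linarith) s0, hu, one_mul]
    push_cast
    gcongr
  refine (hG k L l n (N₀ * u ^ 2) r (1 / u) _ w h ⟨g1, g2, g3, g4, g5, fun x hx => ?_,
    fun i j y => (g7 i j y).trans θ3, fun i j x hx => (g8 i j x hx).trans θ3⟩ hL (by linarith) hrL
    (by omega) (by positivity) (fin.trans ?_) ?_ (fun i j z => ?_) (fun i j z l hl => ?_) ?_ x b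
    fun i => inBox_mono sR (hx i)).trans fin
  · refine (g6 x).trans (le_trans (mul_le_mul_of_nonneg_right ?_ θ0) θ2)
    exact_mod_cast (ht_le hx).trans (by nlinarith)
  · rw [div_le_one s0]; exact_mod_cast hs
  · rw [one_div, ← div_eq_inv_mul, le_div_iff₀ (by linarith)]; linarith
  · exact (le_mul_of_one_le_right (abs_nonneg _) (le_add_of_nonneg_right (abs_nonneg _))).trans
      (hdec i j z 0)
  · have h1 : ((2 * (N₀ * u ^ 2) + 1 : ℕ) : ℝ) ≤ |(z l : ℝ)| := by exact_mod_cast hl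
    have h2 := (hdec i j z l).trans hN₀
    have : (0 : ℝ) < N₀ := by exact_mod_cast N₀1
    push_cast at h1
    rw [one_div, inv_pow, ← one_div, le_div_iff₀ (by positivity)]
    refine le_of_mul_le_mul_left (le_trans ?_ (h2.trans_eq (mul_one _).symm)) this
    have h3 : (N₀ : ℝ) * u ^ 2 ≤ 1 + |(z l : ℝ)| := by
      have : (0 : ℝ) ≤ N₀ * u ^ 2 := by positivity
      linarith
    have := mul_le_mul_of_nonneg_left h3 (abs_nonneg (k i j z))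
    linarith
  · refine (hE L l r hL (by linarith) hrL _ _).trans (pow_le_pow_left₀ (by positivity) ?_ 2)
    have M5 : ((n + (2 * (N₀ * u ^ 2) + 1) + 3 : ℕ) : ℝ) ≤ 5 * n := by
      exact_mod_cast (by omega : n + (2 * (N₀ * u ^ 2) + 1) + 3 ≤ 5 * n)
    have M0 : (0 : ℝ) ≤ ((n + (2 * (N₀ * u ^ 2) + 1) + 3 : ℕ) : ℝ) := by positivity
    generalize ((n + (2 * (N₀ * u ^ 2) + 1) + 3 : ℕ) : ℝ) = M at M5 M0 ⊢
    rw [one_div, inv_pow, ← one_div, div_le_div_iff₀ (by linarith) (by positivity), one_mul]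
    refine le_trans ?_ hr'
    calc _ ≤ Ce * (5 * n) ^ 2 * (11 * n) ^ d * (n * (3 * n) ^ d) * u ^ 2 := by
          gcongr <;> linarith
      _ = Ce * 25 * 33 ^ d * (n ^ (2 * d + 3) * u ^ 2) := by
          rw [show (33 : ℝ) = 11 * 3 by norm_num]; simp only [mul_pow]; ring
      _ ≤ _ := by gcongr; linarith

end Pool.Agent.Lib.MP_7f377f_mp.Weak
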