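import Pool.Agent.Lib.MP_7f377f_mp.CoulLink

/-! Link reflection positivity for gauge invariant functions of the spatial links, and
logarithmic convexity of time correlations. -/

namespace Pool.Agent.Lib.MP_7f377f_mp.Weak

open Coul MeasureTheory
open scoped InnerProductSpace

set_option linter.unusedSectionVars false

theorem ker_pos {X : Type} [TopologicalSpace X] [CompactSpace X] [SecondCountableTopology X]
    [MeasurableSpace X] [OpensMeasurableSpace X] (ν : Measure X) [IsFiniteMeasure ν]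
    {κ : Type} [Fintype κ] {f : X → ℝ} {A : Type} [NormedRing A] [StarRing A] [NormedAlgebra ℝ A]
    [HS A] (hf : Continuous f) {x : X → κ → A} (hx : Continuous x) {β : ℝ} (hβ : 0 ≤ β) :
    0 ≤ ∫ q : X × X, f q.1 * f q.2 * Real.exp (β * dot (x q.1) (x q.2)) ∂(ν.prod ν) := by
  set o := stdOrthonormalBasis ℝ A
  have e : ∀ a b : κ → A, ∑ i : κ × Fin (Module.finrank ℝ A),
      √β * ⟪o i.2, a i.1⟫_ℝ * (√β * ⟪o i.2, b i.1⟫_ℝ) = β * dot a b := by
    intro a b
    rw [Fintype.sum_prod_type, dot, Finset.mul_sum]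
    refine Finset.sum_congr rfl fun i _ => ?_
    rw [← o.sum_inner_mul_inner, Finset.mul_sum]
    refine Finset.sum_congr rfl fun j _ => ?_
    rw [mul_mul_mul_comm, Real.mul_self_sqrt hβ, real_inner_comm]
  have h := ker_exp ν hf (κ := κ × Fin (Module.finrank ℝ A))
    (x := fun a i => √β * ⟪o i.2, x a i.1⟫_ℝ) (y := fun _ _ => 0) (by fun_prop) (by fun_prop)
  simp only [e, mul_zero, zero_mul, Finset.sum_const_zero, Real.exp_zero, mul_one,
    integral_prod_mul] at h
  nlinarith [mul_self_nonneg (∫ a, f a ∂ν)]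

variable {A : Type} [NormedRing A] [StarRing A] [NormedAlgebra ℝ A] [HS A]
variable {n L : ℕ} {G : Type} [Group G] [NeZero L] (ρ : G →* unitary A)
  [TopologicalSpace G] [IsTopologicalGroup G] [CompactSpace G]
  [SecondCountableTopology G] [MeasurableSpace G] [BorelSpace G] (μ : Measure G)
  [μ.IsHaarMeasure] [IsProbabilityMeasure μ]

theorem int_temporal' (hρ : Continuous ρ) {m : ℕ} (hL : L = 2 * (m + 1)) (hm : 0 < m) (b : ℝ)
    {Φ : (Link (n + 1) L → G) → ℝ} (cΦ : Continuous Φ) (h1 : ∀ U V, sl U = sl V → Φ U = Φ V)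
    (h2 : ∀ h U, Φ (gauge h U) = Φ U) :
    ∫ U, Φ U * Real.exp (-(b * act ρ U)) ∂(Measure.pi fun _ => μ) =
      ∫ U, Φ U * Real.exp (-(b * act ρ (put 0 (put ((m : ZMod L) + 1) U 1) 1)))
        ∂(Measure.pi fun _ => μ) := by
  have hw := continuous_wt (d := n + 1) (L := L) ρ hρ b
  have n1 : (0 : ZMod L) ≠ 1 := by simpa using cast_ne (L := L) (s := 0) (k := 1) one_pos (by omega)
  have n2 : (0 : ZMod L) ≠ m + 1 := by
    simpa using cast_ne (L := L) (s := 0) (k := m + 1) (by omega) (by omega)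
  have n3 : (0 : ZMod L) ≠ m + 1 + 1 := by
    simpa using cast_ne (L := L) (s := 0) (k := m + 1 + 1) (by omega) (by omega)
  have n4 : (1 : ZMod L) ≠ m + 1 := by
    simpa using cast_ne (L := L) (s := 1) (k := m + 1) (by omega) (by omega)
  set k : (Link (n + 1) L → G) → Site (n + 1) L → G := fun U x =>
    if x 0 = 1 then tm U 0 (Fin.tail x) else
      if x 0 = m + 1 + 1 then tm U (m + 1) (Fin.tail x) else 1 with hk
  have ck : Continuous k := continuous_pi fun x => by
    simp only [hk]; split_ifs <;> fun_prop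
  have hm := mp_skew μ (fun e : Link (n + 1) L => ¬ (e.2 = 0 ∧ (e.1 0 = 0 ∨ e.1 0 = m + 1)))
    (fun U e => k U e.1) (fun U e => (k U (e.1 + Pi.single e.2 1))⁻¹) (by fun_prop) (by fun_prop)
    fun U V e _ h => by
      have e1 : tm U 0 = tm V 0 := funext fun y => h _ (by simp)
      have e2 : tm U (m + 1) = tm V (m + 1) := funext fun y => h _ (by simp)
      simp only [hk, e1, e2, and_self]
  have cp : Continuous fun U : Link (n + 1) L → G => put 0 (put ((m : ZMod L) + 1) U 1) 1 := by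
    fun_prop
  rw [← int_mp hm (F := fun U => Φ U *
    Real.exp (-(b * act ρ (put 0 (put ((m : ZMod L) + 1) U 1) 1)))) (cΦ.mul (hw.comp cp))]
  congr 1
  funext U
  have e : put 0 (put ((m : ZMod L) + 1) (fun e : Link (n + 1) L =>
      if ¬ (e.2 = 0 ∧ (e.1 0 = 0 ∨ e.1 0 = m + 1)) then
      k U e.1 * U e * (k U (e.1 + Pi.single e.2 1))⁻¹ else U e) 1) 1 = gauge (k U) U := by
    funext e
    obtain ⟨x, i⟩ := e
    rw [← st_self x]
    generalize x 0 = t
    generalize Fin.tail x = y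
    by_cases h : i = 0 ∧ (t = 0 ∨ t = m + 1)
    · obtain ⟨rfl, rfl | rfl⟩ := h
      · simp [put, gauge, hk, single_zero, st_add, n1, n3, tm]
      · simp [put, gauge, hk, single_zero, st_add, n1.symm, n2.symm, n4.symm, tm]
    · have h1 : ¬ (i = 0 ∧ t = 0) := fun h' => h ⟨h'.1, Or.inl h'.2⟩
      have h2 : ¬ (i = 0 ∧ t = m + 1) := fun h' => h ⟨h'.1, Or.inr h'.2⟩
      simp only [put, st_zero, h1, h2, h, if_false, not_false_eq_true, if_true, gauge]
  have e1 := fun t => congrArg (sl · t) e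
  simp only [sl_put] at e1
  rw [e, h1 _ _ (funext e1), h2]
  simp only [act, hol_gauge, qq_conj]

theorem continuous_lr : Continuous (lr (G := G) (n := n) (L := L)) :=
  (continuous_refl 0).comp (continuous_shift _)

/-- link reflection positivity -/
theorem lrp_pos (hρ : Continuous ρ) {m : ℕ} (hm : L = 2 * (m + 1)) (hm0 : 0 < m) {b : ℝ}
    (hb : 0 ≤ b) {F : (Link (n + 1) L → G) → ℝ} (cF : Continuous F)
    (h1 : ∀ U V, (∀ k : ℕ, k ≤ m → sl U ((k : ZMod L) + 1) = sl V ((k : ZMod L) + 1)) →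
      F U = F V)
    (h2 : ∀ h U, F (gauge h U) = F U) (h3 : ∀ h U, F (lr (gauge h U)) = F (lr U)) :
    0 ≤ ∫ U, F U * F (lr U) ∂(nu μ ρ (n + 1) L b) := by
  have hc := continuous_rho ρ hρ
  have ca := continuous_act (d := n) (L := L) ρ hρ
  have ch : Continuous (hact (n := n) (L := L) ρ m) := by
    have : ∀ s t u, Continuous fun U : Link (n + 1) L → G => tq ρ (sl U s) (tm U t) (sl U u) :=
      fun s t u => continuous_tq ρ hρ (by fun_prop) (by fun_prop) (by fun_prop)
    unfold hact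
    fun_prop
  have clr := continuous_lr (G := G) (n := n) (L := L)
  rw [nu_int]
  refine div_nonneg ?_ (ZZ_pos μ ρ hρ b).le
  rw [int_temporal' ρ μ hρ hm hm0 b (Φ := fun U => F U * F (lr U)) (by fun_prop)
    (fun U V h => by rw [h1 U V fun k _ => by rw [h], h1 (lr U) (lr V) fun k _ => by
      rw [sl_lr, sl_lr, h]]) fun h U => by rw [h2, h3]]
  set x : (Link (n + 1) L → G) → Link n L ⊕ Link n L → A := fun U =>
    Sum.elim (fun e => ρ (sl U 1 e)) fun e => ρ (sl U (m + 1) e) with hx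
  have cx : Continuous x := continuous_pi fun e => by
    rcases e with e | e <;> simp only [hx, Sum.elim_inl, Sum.elim_inr] <;> fun_prop
  have key := ker_pos (Measure.pi fun _ : Link (n + 1) L => μ)
    (f := fun U => F U * Real.exp (-(b * hact ρ m U))) (by fun_prop) cx (β := 4 * b)
    (by positivity)
  set Ξ : (Link (n + 1) L → G) × (Link (n + 1) L → G) → ℝ := fun q =>
    F q.1 * Real.exp (-(b * hact ρ m q.1)) * (F q.2 * Real.exp (-(b * hact ρ m q.2))) *
      Real.exp (4 * b * dot (x q.1) (x q.2)) with hΞ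
  have cΞ : Continuous Ξ := by simp only [hΞ, dot]; fun_prop
  have mlr : MeasurePreserving (lr (G := G) (n := n) (L := L)) _ _ :=
    (mp_refl μ 0).comp (mp_shift μ _)
  rw [integral_prod _ (cint _ cΞ), ← int_mp mlr (cont_int _ (f := fun W V => Ξ (W, V)) cΞ)] at key
  have n2 : (0 : ZMod L) ≠ m + 1 := by
    simpa using cast_ne (L := L) (s := 0) (k := m + 1) (by omega) (by omega)
  have h0 : -((m : ZMod L) + 1) + 1 = m + 1 + 1 := by
    have : ((2 * (m + 1) : ℕ) : ZMod L) = 0 := by rw [← hm, ZMod.natCast_self]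
    push_cast at this
    linear_combination -this
  have e : ∀ U : Link (n + 1) L → G, F U * F (lr U) *
      Real.exp (-(b * act ρ (put 0 (put ((m : ZMod L) + 1) U 1) 1))) =
      Real.exp (-(8 * b * ∑ _e : Link n L, HS.tr (1 : A))) * Ξ (lr U, U) := by
    intro U
    have v1 : ∀ k : ℕ, k < m → (k : ZMod L) + 1 ≠ 0 ∧ (k : ZMod L) + 1 ≠ m + 1 := fun k hk =>
      ⟨by simpa using (cast_ne (L := L) (s := 0) (k := k + 1) (by omega) (by omega)).symm,
        by simpa using cast_ne (L := L) hk (by omega)⟩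
    have e1 : hact ρ m (put 0 (put ((m : ZMod L) + 1) U 1) 1) = hact ρ m U :=
      hact_congr ρ m (fun k _ => by simp) fun k hk => by
        rw [tm_put_ne (v1 k hk).1, tm_put_ne (v1 k hk).2]
    have e2 : hact ρ m (lr (put 0 (put ((m : ZMod L) + 1) U 1) 1)) = hact ρ m (lr U) :=
      hact_congr ρ m (fun k _ => by simp [sl_lr]) fun k hk => by
        rw [tm_lr, tm_lr, tm_put_ne (neg_ne_zero.mpr (v1 k hk).1), tm_put_ne]
        intro h
        exact (v1 k hk).2 (by linear_combination -h + h0)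
    rw [act_lr ρ hm, e1, e2, tm_put, tm_put_ne n2.symm, tm_put, tq_one, tq_one]
    simp only [hΞ, hx, dot, Fintype.sum_sum_type, Sum.elim_inl, Sum.elim_inr, sl_put, sl_lr,
      neg_add_cancel, h0]
    rw [Finset.sum_congr rfl fun e _ =>
        real_inner_comm (ρ (sl U (m + 1) e) : A) (ρ (sl U (m + 1 + 1) e) : A)]
    have : ∀ p q a b c e : ℝ, Real.exp a * (p * Real.exp b * (q * Real.exp c) * Real.exp e) =
        q * p * Real.exp (a + b + c + e) := fun _ _ _ _ _ _ => by simp only [Real.exp_add]; ring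
    rw [this]
    congr 2
    ring
  simp only [e]
  rw [integral_const_mul, int_merge μ (fun e : Link (n + 1) L => 1 ≤ (e.1 0).val ∧
    (e.1 0).val ≤ m + 1) (F := fun U => Ξ (lr U, U)) (by fun_prop)]
  refine mul_nonneg (Real.exp_pos _).le (key.trans_eq ?_)
  congr 1
  funext W
  congr 1
  funext V
  have p1 : ∀ k : ℕ, k ≤ m → 1 ≤ ((k : ZMod L) + 1).val ∧ ((k : ZMod L) + 1).val ≤ m + 1 := by
    intro k hk
    rw [← Nat.cast_add_one, ZMod.val_cast_of_lt (by omega)]
    omega
  have p2 : ∀ k : ℕ, k ≤ m → ¬ (1 ≤ (-(k : ZMod L)).val ∧ (-(k : ZMod L)).val ≤ m + 1) := by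
    intro k hk
    rw [val_neg', ZMod.val_cast_of_lt (by omega)]
    split_ifs <;> omega
  set U : Link (n + 1) L → G := fun e => if 1 ≤ (e.1 0).val ∧ (e.1 0).val ≤ m + 1 then V e else W e
  have s1 : ∀ k : ℕ, k ≤ m → sl U (k + 1) = sl V (k + 1) := fun k hk =>
    (sl_merge (fun t => 1 ≤ t.val ∧ t.val ≤ m + 1) V W _).trans (if_pos (p1 k hk))
  have s2 : ∀ k : ℕ, k ≤ m → sl (lr U) (k + 1) = sl (lr W) (k + 1) := fun k hk => by
    rw [sl_lr, sl_lr, neg_add, neg_add_cancel_right]
    exact (sl_merge (fun t => 1 ≤ t.val ∧ t.val ≤ m + 1) V W _).trans (if_neg (p2 k hk))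
  have s3 := hact_congr ρ m s1 fun k hk =>
    (tm_merge (fun t => 1 ≤ t.val ∧ t.val ≤ m + 1) V W _).trans (if_pos (p1 k hk.le))
  have s4 := hact_congr ρ m s2 fun k hk => by
    rw [tm_lr, tm_lr, ← Nat.cast_add_one]
    exact congrArg _ ((tm_merge (fun t => 1 ≤ t.val ∧ t.val ≤ m + 1) V W _).trans
      (if_neg (p2 _ hk)))
  have s5 := s1 0 (by omega)
  have s6 := s2 0 (by omega)
  rw [Nat.cast_zero, zero_add] at s5 s6
  simp only [hΞ, hx, s3, s4, s5, s6, s1 m le_rfl, s2 m le_rfl, h1 _ _ s1, h1 _ _ s2]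

/-- time correlation of a function of the spatial links -/
noncomputable def tc (b : ℝ) (φ : (Link n L → G) → ℝ) (t : ZMod L) : ℝ :=
  ∫ U, φ (sl U 0) * φ (sl U t) ∂(nu μ ρ (n + 1) L b)

theorem tc_shift (hρ : Continuous ρ) (b : ℝ) {φ : (Link n L → G) → ℝ} (cφ : Continuous φ)
    (s t : ZMod L) :
    ∫ U, φ (sl U s) * φ (sl U t) ∂(nu μ ρ (n + 1) L b) = tc ρ μ b φ (t - s) := by
  rw [tc, ← int_mp (nu_shift μ ρ hρ b (st s 0)) (F := fun U => φ (sl U 0) * φ (sl U (t - s)))
    (by fun_prop)]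
  simp only [sl_shift, zero_add, sub_add_cancel]

theorem tc_neg (hρ : Continuous ρ) (b : ℝ) {φ : (Link n L → G) → ℝ} (cφ : Continuous φ)
    (t : ZMod L) : tc ρ μ b φ (-t) = tc ρ μ b φ t := by
  rw [← zero_sub, ← tc_shift ρ μ hρ b cφ, tc]
  simp only [mul_comm]

theorem tc_site (hρ : Continuous ρ) (b : ℝ) {m : ℕ} (hm : L = 2 * m) {φ : (Link n L → G) → ℝ}
    (cφ : Continuous φ) {s t : ℕ} (hs : s ≤ m) (ht : t ≤ m) :
    0 ≤ tc ρ μ b φ (s + s : ℕ) ∧
      tc ρ μ b φ (s + t : ℕ) ^ 2 ≤ tc ρ μ b φ (s + s : ℕ) * tc ρ μ b φ (t + t : ℕ) := by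
  have m0 : 0 < m := by have := NeZero.pos L; omega
  have dep : ∀ s : ℕ, s ≤ m → Dep m 0 fun U : Link (n + 1) L → G => φ (sl U s) := by
    intro s hs U V h
    have : sl U s = sl V s := funext fun e => h _ ⟨by
      simp only [st_zero]; rw [ZMod.val_cast_of_lt (by omega)]; exact hs,
      fun h => absurd h (Fin.succ_ne_zero _)⟩
    simp only [this]
  have e : ∀ s t : ℕ, ∫ U, φ (sl U s) * φ (sl (refl 0 U) t) ∂(nu μ ρ (n + 1) L b) =
      tc ρ μ b φ (s + t : ℕ) := fun s t => by
    simp only [sl_refl]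
    rw [tc_shift ρ μ hρ b cφ, ← tc_neg ρ μ hρ b cφ]
    congr 1; push_cast; ring
  constructor
  · rw [← e]; exact rp_pos μ ρ hρ b hm 0 (by fun_prop) (dep s hs)
  · rw [← e, ← e, ← e]
    exact rp_ineq μ ρ hρ b hm 0 (by fun_prop) (by fun_prop) (dep s hs) (dep t ht)

theorem tc_link (hρ : Continuous ρ) {b : ℝ} (hb : 0 ≤ b) {m : ℕ} (hm : L = 2 * (m + 1))
    (hm0 : 0 < m) {φ : (Link n L → G) → ℝ} (cφ : Continuous φ) (hφ : ∀ h a, φ (gauge h a) = φ a)
    {s t : ℕ} (hs : s ≤ m) (ht : t ≤ m) :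
    0 ≤ tc ρ μ b φ (s + s + 1 : ℕ) ∧ tc ρ μ b φ (s + t + 1 : ℕ) ^ 2 ≤
      tc ρ μ b φ (s + s + 1 : ℕ) * tc ρ μ b φ (t + t + 1 : ℕ) := by
  have e : ∀ s t : ℕ, ∫ U, φ (sl U (s + 1)) * φ (sl (lr U) (t + 1)) ∂(nu μ ρ (n + 1) L b) =
      tc ρ μ b φ (s + t + 1 : ℕ) := fun s t => by
    simp only [sl_lr]
    rw [tc_shift ρ μ hρ b cφ, ← tc_neg ρ μ hρ b cφ]
    congr 1; push_cast; ring
  have pos : ∀ c : ℝ, 0 ≤ ∫ U, (c * φ (sl U (s + 1)) + φ (sl U (t + 1))) *
      (c * φ (sl (lr U) (s + 1)) + φ (sl (lr U) (t + 1))) ∂(nu μ ρ (n + 1) L b) := fun c =>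
    lrp_pos ρ μ hρ hm hm0 hb (F := fun U => c * φ (sl U (s + 1)) + φ (sl U (t + 1))) (by fun_prop)
      (fun U V h => by simp only [h s hs, h t ht]) (fun h U => by simp only [sl_gauge, hφ])
      fun h U => by simp only [sl_lr, sl_gauge, hφ]
  have mlr : MeasurePreserving (lr (G := G) (n := n) (L := L)) _ _ :=
    (nu_refl μ ρ hρ b 0).comp (nu_shift μ ρ hρ b _)
  have inv : ∀ U : Link (n + 1) L → G, lr (lr U) = U := by
    intro U
    funext e
    obtain ⟨x, i⟩ := e
    rw [← st_self x]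
    refine Fin.cases ?_ (fun j => ?_) i
    · have := congrFun (tm_lr (lr U) (x 0)) (Fin.tail x)
      rwa [tm_lr U, neg_neg, inv_inv] at this
    · have := congrFun (sl_lr (lr U) (x 0)) (Fin.tail x, j)
      rwa [sl_lr U, neg_add, neg_neg, neg_add_cancel_right] at this
  constructor
  · rw [← e]
    exact lrp_pos ρ μ hρ hm hm0 hb (F := fun U => φ (sl U (s + 1))) (by fun_prop)
      (fun U V h => by simp only [h s hs]) (fun h U => by simp only [sl_gauge, hφ])
      fun h U => by simp only [sl_lr, sl_gauge, hφ]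
  · rw [← e, ← e, ← e]
    exact rp_cs _ _ continuous_lr mlr inv (F₁ := fun U => φ (sl U (s + 1)))
      (F₂ := fun U => φ (sl U (t + 1))) (by fun_prop) (by fun_prop) pos

theorem tc_convex (hρ : Continuous ρ) {b : ℝ} (hb : 0 ≤ b) {m : ℕ} (hm : L = 2 * (m + 1))
    (hm0 : 0 < m) {φ : (Link n L → G) → ℝ} (cφ : Continuous φ) (hφ : ∀ h a, φ (gauge h a) = φ a) :
    (∀ t : ℕ, t ≤ L → 0 ≤ tc ρ μ b φ t) ∧ ∀ t : ℕ, t + 2 ≤ L →
      tc ρ μ b φ (t + 1 : ℕ) ^ 2 ≤ tc ρ μ b φ t * tc ρ μ b φ (t + 2 : ℕ) := by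
  constructor
  · intro t ht
    obtain ⟨s, rfl | rfl⟩ := Nat.even_or_odd' t
    · rw [two_mul]; exact (tc_site ρ μ hρ b hm cφ (s := s) (t := s) (by omega) (by omega)).1
    · rw [two_mul]
      exact (tc_link ρ μ hρ hb hm hm0 cφ hφ (s := s) (t := s) (by omega) (by omega)).1
  · intro t ht
    obtain ⟨s, rfl | rfl⟩ := Nat.even_or_odd' t
    · have := (tc_site ρ μ hρ b hm cφ (s := s) (t := s + 1) (by omega) (by omega)).2
      rwa [show s + (s + 1) = 2 * s + 1 by ring, show s + s = 2 * s by ring,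
        show s + 1 + (s + 1) = 2 * s + 2 by ring] at this
    · have := (tc_link ρ μ hρ hb hm hm0 cφ hφ (s := s) (t := s + 1) (by omega) (by omega)).2
      rwa [show s + (s + 1) + 1 = 2 * s + 1 + 1 by ring, show s + s + 1 = 2 * s + 1 by ring,
        show s + 1 + (s + 1) + 1 = 2 * s + 1 + 2 by ring] at this

theorem log_convex_lower {f : ℕ → ℝ} {L T : ℕ} (h0 : ∀ t, t ≤ L → 0 ≤ f t)
    (hc : ∀ t, t + 2 ≤ L → f (t + 1) ^ 2 ≤ f t * f (t + 2)) (hs : ∀ t, t ≤ L → f (L - t) = f t)
    (T1 : 1 ≤ T) (TL : 2 * T ≤ L) {B c : ℝ} (hB : 0 < B) (hT : B ≤ f T) (c0 : 0 ≤ c)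
    (hA : f 0 ≤ B * Real.exp (c * T)) (t : ℕ) (ht : t ≤ L) : B * Real.exp (-(c * t)) ≤ f t := by
  have step : ∀ t, t + 2 ≤ L → 0 < f (t + 1) → 0 < f t ∧ 0 < f (t + 2) := by
    intro t ht h
    have := (pow_pos h 2).trans_le (hc t ht)
    exact ⟨lt_of_le_of_ne (h0 _ (by omega)) fun e => by simp [← e] at this,
      lt_of_le_of_ne (h0 _ ht) fun e => by simp [← e] at this⟩
  have up : ∀ j, T + j ≤ L → 0 < f (T + j) := by
    intro j
    induction j with
    | zero => exact fun _ => hB.trans_le hT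
    | succ j ih =>
      intro h
      have := (step (T + j - 1) (by omega) (by rw [show T + j - 1 + 1 = T + j by omega]
                                               exact ih (by omega))).2
      rwa [show T + j - 1 + 2 = T + (j + 1) by omega] at this
  have pos : ∀ t, t ≤ L → 0 < f t := by
    intro t ht
    by_cases h : T ≤ t
    · have := up (t - T) (by omega)
      rwa [show T + (t - T) = t by omega] at this
    · have := up (L - t - T) (by omega)
      rwa [show T + (L - t - T) = L - t by omega, hs t ht] at this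
  obtain ⟨g, hg⟩ : ∃ g : ℕ → ℝ, ∀ t, g t = Real.log (f t) := ⟨_, fun _ => rfl⟩
  have conv : ∀ t, t + 2 ≤ L → g (t + 1) - g t ≤ g (t + 2) - g (t + 1) := by
    intro t ht
    have := Real.log_le_log (pow_pos (pos _ (by omega)) 2) (hc t ht)
    rw [Real.log_pow, Real.log_mul (pos _ (by omega)).ne' (pos _ ht).ne'] at this
    simp only [hg]
    push_cast at this
    linarith
  have mono : ∀ j s, s + j + 1 ≤ L → g (s + 1) - g s ≤ g (s + j + 1) - g (s + j) := by
    intro j
    induction j with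
    | zero => exact fun s _ => le_rfl
    | succ j ih => exact fun s h => (ih s (by omega)).trans (conv (s + j) (by omega))
  have gT : Real.log B ≤ g T := hg T ▸ Real.log_le_log hB hT
  have g0 : g 0 ≤ Real.log B + c * T := by
    have := Real.log_le_log (pos 0 (by omega)) hA
    rwa [Real.log_mul hB.ne' (Real.exp_pos _).ne', Real.log_exp, ← hg] at this
  have s1 : ∀ j, j ≤ T → g j - g 0 ≤ j * (g T - g (T - 1)) := by
    intro j
    induction j with
    | zero => simp
    | succ j ih =>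
      intro h
      have := mono (T - 1 - j) j (by omega)
      rw [show j + (T - 1 - j) = T - 1 by omega, show T - 1 + 1 = T by omega] at this
      push_cast
      linarith [ih (by omega)]
  have s2 : -c ≤ g T - g (T - 1) := by
    have T0 : (0 : ℝ) < T := by exact_mod_cast T1
    refine le_of_mul_le_mul_left ?_ T0
    linarith [s1 T le_rfl]
  have s3 : ∀ j, T + j ≤ L → g T - c * j ≤ g (T + j) := by
    intro j
    induction j with
    | zero => simp
    | succ j ih =>
      intro h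
      have := mono (j + 1) (T - 1) (by omega)
      rw [show T - 1 + (j + 1) = T + j by omega, show T - 1 + 1 = T by omega] at this
      push_cast
      rw [← add_assoc]
      linarith [ih (by omega)]
  have s4 : ∀ j, j ≤ T → g T ≤ g (T - j) := by
    intro j
    induction j with
    | zero => simp
    | succ j ih =>
      intro h
      have h1 := mono (L - 2 * (T - j) + 1) (T - (j + 1)) (by omega)
      have h2 := hs (T - j) (by omega)
      have h3 := hs (T - (j + 1)) (by omega)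
      rw [show T - (j + 1) + (L - 2 * (T - j) + 1) = L - (T - j) by omega,
        show L - (T - j) + 1 = L - (T - (j + 1)) by omega,
        show T - (j + 1) + 1 = T - j by omega, hg (L - _), hg (L - _), h2, h3, ← hg, ← hg] at h1
      linarith [ih (by omega)]
  have fin : Real.log B - c * t ≤ g t := by
    have t0 : (0 : ℝ) ≤ c * t := by positivity
    by_cases h : T ≤ t
    · have := s3 (t - T) (by omega)
      rw [show T + (t - T) = t by omega, Nat.cast_sub h] at this
      have : 0 ≤ c * T := by positivity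
      linarith
    · have := s4 (T - t) (by omega)
      rw [show T - (T - t) = t by omega] at this
      linarith
  have := Real.exp_le_exp.mpr fin
  rwa [hg, Real.exp_log (pos t ht), sub_eq_add_neg, Real.exp_add, Real.exp_log hB] at this

end Pool.Agent.Lib.MP_7f377f_mp.Weak
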