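import Pool.Agent.Lib.MP_7f377f_mp.WeakIBP

/-! Approximate Gaussian integration by parts for products of quadratic observables. -/

namespace Pool.Agent.Lib.MP_7f377f_mp.Weak

open MeasureTheory HS
open scoped InnerProductSpace

set_option linter.unusedSectionVars false

variable {d L : ℕ} [NeZero L] [NeZero d]
variable {A : Type} [NormedRing A] [StarRing A] [NormedAlgebra ℝ A] [HS A]

theorem abs_prod_le {ι : Type} (S : Finset ι) (Q : ι → ℝ) {Ξ : ℝ} (h1 : 1 ≤ Ξ)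
    (hQ : ∀ i, |Q i| ≤ Ξ) {n : ℕ} (hn : S.card ≤ n) : |∏ i ∈ S, Q i| ≤ Ξ ^ n := by
  rw [Finset.abs_prod]
  refine (Finset.prod_le_prod (fun i _ => abs_nonneg _) fun i _ => hQ i).trans ?_
  rw [Finset.prod_const]
  exact pow_le_pow_right₀ h1 hn

theorem poly_est {k : ℕ} (S : Finset (Fin k)) (Z Z' : Fin k × Bool → A) (g' y v : A)
    (Q : Fin k → ℝ) (K : Fin k × Bool → ℝ) {κ ϱ Ξ : ℝ} (hv : ‖v‖ = 1) (h1 : 1 ≤ Ξ)
    (hZ : ∀ α, ‖Z α‖ ≤ Ξ) (hy : ‖y‖ ≤ Ξ) (hQ : ∀ i, |Q i| ≤ Ξ) (hZ' : ∀ α, ‖Z' α - K α • v‖ ≤ ϱ)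
    (hg : ‖g' - κ • v‖ ≤ ϱ) :
    |⟪v, g'⟫_ℝ * ∏ i ∈ S, Q i + ⟪v, y⟫_ℝ * ∑ j ∈ S, (∏ i ∈ S.erase j, Q i) •
        (⟪Z (j, true), Z' (j, false)⟫_ℝ + ⟪Z' (j, true), Z (j, false)⟫_ℝ) -
      (κ * ∏ i ∈ S, Q i + ∑ j ∈ S, ∑ b, K (j, b) *
        (⟪v, Z (j, !b)⟫_ℝ * ⟪v, y⟫_ℝ * ∏ i ∈ S.erase j, Q i))| ≤ (1 + 2 * k) * ϱ * Ξ ^ (k + 1) := by
  have hvv : ⟪v, v⟫_ℝ = 1 := by rw [real_inner_self_eq_norm_sq, hv, one_pow]
  have ϱ0 := (norm_nonneg _).trans hg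
  have hS : S.card ≤ k := (Finset.card_le_univ S).trans_eq (by simp)
  have e : ⟪v, g'⟫_ℝ * ∏ i ∈ S, Q i + ⟪v, y⟫_ℝ * ∑ j ∈ S, (∏ i ∈ S.erase j, Q i) •
        (⟪Z (j, true), Z' (j, false)⟫_ℝ + ⟪Z' (j, true), Z (j, false)⟫_ℝ) -
      (κ * ∏ i ∈ S, Q i + ∑ j ∈ S, ∑ b, K (j, b) *
        (⟪v, Z (j, !b)⟫_ℝ * ⟪v, y⟫_ℝ * ∏ i ∈ S.erase j, Q i)) =
      ⟪v, g' - κ • v⟫_ℝ * ∏ i ∈ S, Q i + ∑ j ∈ S, ⟪v, y⟫_ℝ * (∏ i ∈ S.erase j, Q i) *
        (⟪Z (j, true), Z' (j, false) - K (j, false) • v⟫_ℝ +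
          ⟪Z' (j, true) - K (j, true) • v, Z (j, false)⟫_ℝ) := by
    rw [Finset.mul_sum, inner_sub_right, real_inner_smul_right, hvv, add_sub_add_comm,
      ← Finset.sum_sub_distrib]
    congr 1
    · ring
    · refine Finset.sum_congr rfl fun j _ => ?_
      simp only [Fintype.sum_bool, Bool.not_true, Bool.not_false, inner_sub_right, inner_sub_left,
        real_inner_smul_right, real_inner_smul_left, smul_eq_mul, real_inner_comm v (Z (j, true))]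
      ring
  rw [e]
  have b1 : |⟪v, g' - κ • v⟫_ℝ * ∏ i ∈ S, Q i| ≤ ϱ * Ξ ^ (k + 1) := by
    rw [abs_mul]
    refine mul_le_mul ((abs_real_inner_le_norm _ _).trans (by rw [hv, one_mul]; exact hg))
      (abs_prod_le S Q h1 hQ (by omega)) (abs_nonneg _) ϱ0
  have b2 : ∀ j ∈ S, |⟪v, y⟫_ℝ * (∏ i ∈ S.erase j, Q i) *
      (⟪Z (j, true), Z' (j, false) - K (j, false) • v⟫_ℝ +
        ⟪Z' (j, true) - K (j, true) • v, Z (j, false)⟫_ℝ)| ≤ 2 * ϱ * Ξ ^ (k + 1) := by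
    intro j hj
    obtain ⟨n, hn⟩ : ∃ n, k = n + 1 := ⟨k - 1, by have := j.pos; omega⟩
    have a1 : |⟪v, y⟫_ℝ| ≤ Ξ := (abs_real_inner_le_norm _ _).trans (by rw [hv, one_mul]; exact hy)
    have a2 := abs_prod_le (S.erase j) Q h1 hQ (n := n)
      (by rw [Finset.card_erase_of_mem hj]; omega)
    have a3 : |⟪Z (j, true), Z' (j, false) - K (j, false) • v⟫_ℝ| ≤ Ξ * ϱ :=
      (abs_real_inner_le_norm _ _).trans
        (mul_le_mul (hZ _) (hZ' _) (norm_nonneg _) (by linarith))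
    have a4 : |⟪Z' (j, true) - K (j, true) • v, Z (j, false)⟫_ℝ| ≤ ϱ * Ξ :=
      (abs_real_inner_le_norm _ _).trans (mul_le_mul (hZ' _) (hZ _) (norm_nonneg _) ϱ0)
    have a5 := (abs_add_le _ _).trans (add_le_add a3 a4)
    have Ξ0 : 0 ≤ Ξ := by linarith
    rw [abs_mul, abs_mul]
    calc _ ≤ Ξ * Ξ ^ n * (Ξ * ϱ + ϱ * Ξ) := by gcongr
      _ = _ := by rw [hn]; ring
  have b3 := (Finset.abs_sum_le_sum_abs _ _).trans (Finset.sum_le_card_nsmul _ _ _ b2)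
  have b4 : S.card • (2 * ϱ * Ξ ^ (k + 1)) ≤ k * (2 * ϱ * Ξ ^ (k + 1)) := by
    rw [nsmul_eq_mul]
    have : (0 : ℝ) ≤ Ξ := by linarith
    gcongr
  refine (abs_add_le _ _).trans ?_
  linarith

theorem sum_basis (V : Submodule ℝ A) {x y : A} (hx : x ∈ V) (hy : y ∈ V) :
    ∑ c, ⟪(stdOrthonormalBasis ℝ V c : A), x⟫_ℝ * ⟪(stdOrthonormalBasis ℝ V c : A), y⟫_ℝ =
      ⟪x, y⟫_ℝ := by
  have := (stdOrthonormalBasis ℝ V).sum_inner_mul_inner ⟨x, hx⟩ ⟨y, hy⟩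
  simpa only [Submodule.coe_inner, real_inner_comm x] using this

variable {G : Type} [Group G] (ρ : G →* unitary A)

/-- centred quadratic observables -/
noncomputable def QU {k : ℕ} (r : ℝ) (p : Fin k × Bool → Plaq d L) (c : Fin k → ℝ) (i : Fin k)
    (U : Link d L → G) : ℝ := ⟪ZU ρ r (p (i, true)) U, ZU ρ r (p (i, false)) U⟫_ℝ - c i

variable [TopologicalSpace G] [IsTopologicalGroup G] [CompactSpace G]
  [SecondCountableTopology G] [MeasurableSpace G] [BorelSpace G] (μ : Measure G)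
  [μ.IsHaarMeasure] [IsProbabilityMeasure μ]

theorem continuous_QU (hρ : Continuous ρ) {k : ℕ} (r : ℝ) (p : Fin k × Bool → Plaq d L)
    (c : Fin k → ℝ) (i : Fin k) : Continuous (QU ρ r p c i) :=
  ((continuous_ZU ρ hρ r _).inner (continuous_ZU ρ hρ r _)).sub continuous_const

theorem ibp_Y (hρ : Continuous ρ) {r : ℝ} (hr : 0 < r) {R : ℕ} (hR : (R + 4) * 2 ≤ L)
    {w : Site d L → ℝ} (hw : ∀ y, w y ≠ 0 → inBox R y) {W : ℝ} (hW : ∑ y, |w y| ≤ W)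
    (a : Fin d × Fin d) {k : ℕ} (p : Fin k × Bool → Plaq d L) (hp : ∀ α, inBox (R + 2) (p α).1)
    (γ : Plaq d L) (hγ : inBox (R + 2) γ.1) (c : Fin k → ℝ) (S : Finset (Fin k))
    {Ξ : (Link d L → G) → ℝ} (hΞ : Continuous Ξ) (h1 : ∀ U, 1 ≤ Ξ U)
    (hZ : ∀ α U, ‖ZU ρ r (p α) U‖ ≤ Ξ U) (hy : ∀ U, ‖ZU ρ r γ U‖ ≤ Ξ U)
    (hQ : ∀ i U, |QU ρ r p c i U| ≤ Ξ U) :
    |∫ U, (⟪YU ρ r (lapT w) a U, ZU ρ r γ U⟫_ℝ * ∏ i ∈ S, QU ρ r p c i U -
        (Module.finrank ℝ (lieAlg ρ) * KT w a γ * ∏ i ∈ S, QU ρ r p c i U +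
          ∑ j ∈ S, ∑ b, KT w a (p (j, b)) * (⟪ZU ρ r (p (j, !b)) U, ZU ρ r γ U⟫_ℝ *
            ∏ i ∈ S.erase j, QU ρ r p c i U))) ∂(nu μ ρ d L (r ^ 2 / 4))| ≤
      Module.finrank ℝ (lieAlg ρ) * (2 + 2 * k) *
        ∫ U, err ρ r (R + 3) W U * Ξ U ^ (k + 1) ∂(nu μ ρ d L (r ^ 2 / 4)) := by
  set e := stdOrthonormalBasis ℝ (lieAlg ρ) with he
  set ψ := psiW (r⁻¹ • w) a with hψ
  set f : A → (Link d L → A) → ℝ := fun v B => ⟪v, ZA ρ r γ B⟫_ℝ *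
    ∏ i ∈ S, (⟪ZA ρ r (p (i, true)) B, ZA ρ r (p (i, false)) B⟫_ℝ - c i) with hf
  have cf : ∀ v, ContDiff ℝ 1 (f v) := fun v =>
    (contDiff_const.inner ℝ (contDiff_ZA ρ r γ)).mul (contDiff_prod fun i _ =>
      ((contDiff_ZA ρ r _).inner ℝ (contDiff_ZA ρ r _)).sub contDiff_const)
  have fU : ∀ v U, f v (rU ρ U) = ⟪v, ZU ρ r γ U⟫_ℝ * ∏ i ∈ S, QU ρ r p c i U := fun v U => by
    simp only [hf, ZA_rU, QU]
  have sd : ∀ n, ∫ U, (f (e n) (rU ρ U) * (r ^ 2 / 4 * DD ρ ψ (e n) actA U) -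
      DD ρ ψ (e n) (f (e n)) U) ∂(nu μ ρ d L (r ^ 2 / 4)) = 0 := by
    intro n
    have c1 := continuous_DD ρ hρ ψ (e n : A) (cf (e n))
    have c2 := continuous_DD ρ hρ ψ (e n : A) (contDiff_actA (A := A) (d := d) (L := L))
    have c3 : Continuous fun U : Link d L → G =>
        f (e n) (rU ρ U) * (r ^ 2 / 4 * DD ρ ψ (e n) actA U) :=
      ((cf _).continuous.comp (continuous_rU ρ hρ)).mul (continuous_const.mul c2)
    rw [integral_sub (cint _ c3) (cint _ c1), sd_nu ρ μ hρ _ ψ (lieAlg_exp ρ hρ (e n).2) (cf _)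
      fun h U h0 => by simp only [fU, QU, ZU_gauge ρ r _ h0], sub_self]
  have cN : ∀ n, Continuous fun U : Link d L → G =>
      f (e n) (rU ρ U) * (r ^ 2 / 4 * DD ρ ψ (e n) actA U) - DD ρ ψ (e n) (f (e n)) U := fun n =>
    (((cf _).continuous.comp (continuous_rU ρ hρ)).mul (continuous_const.mul
      (continuous_DD ρ hρ ψ (e n : A) contDiff_actA))).sub (continuous_DD ρ hρ ψ (e n : A) (cf _))
  have sd2 : ∫ U, ∑ n, (f (e n) (rU ρ U) * (r ^ 2 / 4 * DD ρ ψ (e n) actA U) -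
      DD ρ ψ (e n) (f (e n)) U) ∂(nu μ ρ d L (r ^ 2 / 4)) = 0 := by
    rw [integral_finsetSum _ fun n _ => cint _ (cN n)]
    simp only [sd, Finset.sum_const_zero]
  have cZ := continuous_ZU (d := d) (L := L) ρ hρ r
  have cQ := continuous_QU ρ hρ r p c
  have cY := continuous_YU ρ hρ r (lapT w) a
  have ce := continuous_err (d := d) (L := L) ρ hρ r (R + 3) W
  have W0 : 0 ≤ W := (Finset.sum_nonneg fun _ _ => abs_nonneg _).trans hW
  rw [← sub_zero (∫ U, _ ∂_), ← sd2, ← integral_sub (cint _ (by fun_prop))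
    (cint _ (continuous_finsetSum _ fun n _ => cN n)), ← integral_const_mul]
  refine (abs_integral_le_integral_abs).trans (integral_mono_of_nonneg
    (Filter.Eventually.of_forall fun U => abs_nonneg _) (cint _ (by fun_prop))
    (Filter.Eventually.of_forall fun U => ?_))
  have key : ∀ n, |(f (e n) (rU ρ U) * ⟪(e n : A), YU ρ r (lapT w) a U⟫_ℝ -
      (KT w a γ * ∏ i ∈ S, QU ρ r p c i U + ∑ j ∈ S, ∑ b, KT w a (p (j, b)) *
        (⟪(e n : A), ZU ρ r (p (j, !b)) U⟫_ℝ * ⟪(e n : A), ZU ρ r γ U⟫_ℝ *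
          ∏ i ∈ S.erase j, QU ρ r p c i U))) -
      (f (e n) (rU ρ U) * (r ^ 2 / 4 * DD ρ ψ (e n) actA U) - DD ρ ψ (e n) (f (e n)) U)| ≤
      (2 + 2 * k) * (err ρ r (R + 3) W U * Ξ U ^ (k + 1)) := by
    intro n
    have hv1 : ‖(e n : A)‖ = 1 := e.orthonormal.1 n
    have a1 := est_act ρ hρ hr hR hw hW a (e n).2 hv1 U
    have dZ := fun q => DD_deriv ρ ψ (e n : A) (contDiff_ZA ρ r q) U
    have a2 := (DD_deriv ρ ψ (e n : A) (cf (e n)) U).unique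
      (((hasDerivAt_const _ (e n : A)).inner ℝ (dZ γ)).mul (HasDerivAt.fun_finsetProd (u := S)
        fun i _ => ((dZ (p (i, true))).inner ℝ (dZ (p (i, false)))).sub_const (c i)))
    simp only [flow_zero, ZA_rU, inner_zero_left, add_zero] at a2
    have zf : ∀ q, ZU ρ r q (fix U) = ZU ρ r q U := fun q => ZU_gauge ρ r q (cmb_zero _ _) U
    simp only [zf] at a2
    have a3 := poly_est S (fun α => ZU ρ r (p α) U) (fun α => DD ρ ψ (e n) (ZA ρ r (p α)) U)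
      (DD ρ ψ (e n) (ZA ρ r γ) U) (ZU ρ r γ U) (e n) (fun i => QU ρ r p c i U)
      (fun α => KT w a (p α)) hv1 (h1 U) (fun α => hZ α U) (hy U) (fun i => hQ i U)
      (fun α => est_Z ρ hρ hr hR w hW a (e n).2 hv1 U (hp α))
      (est_Z ρ hρ hr hR w hW a (e n).2 hv1 U hγ)
    change DD ρ ψ (e n) (f (e n)) U = ⟪(e n : A), DD ρ ψ (e n) (ZA ρ r γ) U⟫_ℝ *
      ∏ i ∈ S, QU ρ r p c i U + ⟪(e n : A), ZU ρ r γ U⟫_ℝ * ∑ j ∈ S,
        (∏ i ∈ S.erase j, QU ρ r p c i U) • _ at a2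
    rw [← a2] at a3
    have a4 : |f (e n) (rU ρ U)| ≤ Ξ U ^ (k + 1) := by
      rw [fU, abs_mul, pow_succ']
      exact mul_le_mul ((abs_real_inner_le_norm _ _).trans (by rw [hv1, one_mul]; exact hy U))
        (abs_prod_le S _ (h1 U) (fun i => hQ i U) ((Finset.card_le_univ S).trans_eq (by simp)))
        (abs_nonneg _) (by linarith [h1 U])
    have a5 := mul_le_mul a4 a1 (abs_nonneg _) ((abs_nonneg _).trans a4)
    rw [← abs_mul] at a5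
    have : ∀ F Y M T D : ℝ, F * Y - M - (F * T - D) = (D - M) - F * (T - Y) := fun _ _ _ _ _ => by
      ring
    rw [this]
    refine (abs_sub _ _).trans ?_
    linarith
  have tot := (Finset.abs_sum_le_sum_abs _ _).trans
    (Finset.sum_le_card_nsmul Finset.univ _ _ fun n _ => key n)
  rw [Finset.sum_sub_distrib] at tot
  simp only [Finset.card_univ, Fintype.card_fin, nsmul_eq_mul] at tot
  refine le_trans (le_of_eq ?_) (tot.trans_eq (mul_assoc _ _ _).symm)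
  beta_reduce
  congr 2
  rw [Finset.sum_sub_distrib, Finset.sum_add_distrib]
  congr 1
  · simp only [fU]
    rw [← sum_basis _ (YU_mem ρ r _ a U) (ZU_mem ρ r γ U), Finset.sum_mul]
    exact Finset.sum_congr rfl fun n _ => by ring
  · congr 1
    · simp [mul_assoc]
    · refine Eq.trans ?_ Finset.sum_comm
      refine Finset.sum_congr rfl fun j _ => ?_
      refine Eq.trans ?_ Finset.sum_comm
      refine Finset.sum_congr rfl fun b _ => ?_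
      rw [← Finset.mul_sum, ← Finset.sum_mul, sum_basis _ (ZU_mem ρ r _ U) (ZU_mem ρ r γ U)]

end Pool.Agent.Lib.MP_7f377f_mp.Weak
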