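import Pool.Agent.Lib.MP_7f377f_mp.WeakZ

/-! Schwinger-Dyson identities along simultaneous flows in the comb gauge. -/

namespace Pool.Agent.Lib.MP_7f377f_mp.Weak

open MeasureTheory Measure NormedSpace HS
open scoped InnerProductSpace

set_option linter.unusedSectionVars false

variable {d L : ℕ} [NeZero L] [NeZero d]
variable {A : Type} [NormedRing A] [StarRing A] [NormedAlgebra ℝ A] [HS A]

/-- plaquette variable of an algebra valued configuration -/
def holA (B : Link d L → A) (x : Site d L) (i j : Fin d) : A :=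
  B (x, i) * B (x + Pi.single i 1, j) * star (B (x + Pi.single j 1, i)) * star (B (x, j))

/-- plaquette variable transported to the origin -/
noncomputable def lasA (B : Link d L → A) (x : Site d L) (i j : Fin d) : A :=
  cmb star B x * holA B x i j * star (cmb star B x) - 1

/-- the action of an algebra valued configuration -/
noncomputable def actA (B : Link d L → A) : ℝ :=
  ∑ x, ∑ i, ∑ j, 2 * (tr (1 : A) - tr (holA B x i j))

/-- the flow generated by `ψ ⊗ v` -/
noncomputable def flow (ψ : Link d L → ℝ) (v : A) (B : Link d L → A) (t : ℝ) : Link d L → A :=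
  fun e => exp (t • ψ e • v) * B e

theorem flow_zero (ψ : Link d L → ℝ) (v : A) (B : Link d L → A) : flow ψ v B 0 = B := by
  funext e; simp [flow]

theorem flow_deriv_apply (ψ : Link d L → ℝ) (v : A) (B : Link d L → A) (t : ℝ) (e : Link d L) :
    HasDerivAt (fun t => flow ψ v B t e) (ψ e • v * flow ψ v B t e) t := by
  have := (hasDerivAt_exp_smul_const' (𝕂 := ℝ) (ψ e • v) t).mul_const (B e)
  rwa [mul_assoc] at this

theorem flow_deriv (ψ : Link d L → ℝ) (v : A) (B : Link d L → A) (t : ℝ) :
    HasDerivAt (flow ψ v B) (fun e => ψ e • v * flow ψ v B t e) t :=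
  hasDerivAt_pi.mpr fun e => flow_deriv_apply ψ v B t e

theorem contDiff_star {E : Type} [NormedAddCommGroup E] [NormedSpace ℝ E] {f : E → A}
    (hf : ContDiff ℝ 1 f) : ContDiff ℝ 1 fun x => star (f x) :=
  (starL' ℝ (A := A)).contDiff.comp hf

theorem contDiff_tr {E : Type} [NormedAddCommGroup E] [NormedSpace ℝ E] {f : E → A}
    (hf : ContDiff ℝ 1 f) : ContDiff ℝ 1 fun x => tr (f x) :=
  (LinearMap.toContinuousLinearMap (tr : A →ₗ[ℝ] ℝ)).contDiff.comp hf

theorem contDiff_holA (x : Site d L) (i j : Fin d) :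
    ContDiff ℝ 1 fun B : Link d L → A => holA B x i j :=
  (((contDiff_apply ℝ A _).mul (contDiff_apply ℝ A _)).mul
    (contDiff_star (contDiff_apply ℝ A _))).mul (contDiff_star (contDiff_apply ℝ A _))

theorem contDiff_cmb (x : Site d L) : ContDiff ℝ 1 fun B : Link d L → A => cmb star B x := by
  induction x using site_induction with
  | h0 => simp only [cmb_zero]; exact contDiff_const
  | h x hx ih =>
    simp only [cmb_step _ _ hx]
    split_ifs
    · exact ih.mul (contDiff_apply ℝ A _)
    · exact ih.mul (contDiff_star (contDiff_apply ℝ A _))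

theorem contDiff_lasA (x : Site d L) (i j : Fin d) :
    ContDiff ℝ 1 fun B : Link d L → A => lasA B x i j :=
  (((contDiff_cmb x).mul (contDiff_holA x i j)).mul (contDiff_star (contDiff_cmb x))).sub
    contDiff_const

theorem contDiff_actA : ContDiff ℝ 1 (actA : (Link d L → A) → ℝ) :=
  ContDiff.sum fun _ _ => ContDiff.sum fun _ _ => ContDiff.sum fun _ _ =>
    contDiff_const.mul (contDiff_const.sub (contDiff_tr (contDiff_holA _ _ _)))

variable {G : Type} [Group G] (ρ : G →* unitary A)

/-- the configuration of representation matrices -/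
def rU (U : Link d L → G) : Link d L → A := fun e => ρ (U e)

theorem holA_rU (U : Link d L → G) (x : Site d L) (i j : Fin d) :
    holA (rU ρ U) x i j = ρ (hol U x i j) := by
  simp only [holA, rU, hol, rho_mul, rho_inv]

theorem cmb_rU (U : Link d L → G) (x : Site d L) : cmb star (rU ρ U) x = ρ (cmb Inv.inv U x) :=
  cmb_rho ρ U x

theorem lasA_rU (U : Link d L → G) (x : Site d L) (i j : Fin d) :
    lasA (rU ρ U) x i j = ρ (hol (fix U) x i j) - 1 := by
  rw [lasA, cmb_rU, holA_rU, fix, hol_gauge, rho_mul, rho_mul, rho_inv]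

theorem actA_rU (U : Link d L → G) : actA (rU ρ U) = act ρ U := by
  simp only [actA, act, holA_rU, qq_eq]

theorem fix_gauge {h : Site d L → G} (h0 : h 0 = 1) (U : Link d L → G) :
    fix (gauge h U) = fix U := by
  funext e
  rw [fix, gauge, cmb_gauge, cmb_gauge, h0]
  simp only [fix, gauge]
  group

theorem fix_fix (U : Link d L → G) : fix (fix U) = fix U := fix_gauge (cmb_zero _ _) U

theorem act_gauge (h : Site d L → G) (U : Link d L → G) : act ρ (gauge h U) = act ρ U := by
  simp only [act, hol_gauge, qq_conj]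

/-- derivative of a function along the flow in the comb gauge -/
noncomputable def DD {F : Type} [NormedAddCommGroup F] [NormedSpace ℝ F] (ψ : Link d L → ℝ) (v : A)
    (f : (Link d L → A) → F) (U : Link d L → G) : F :=
  fderiv ℝ f (rU ρ (fix U)) fun e => ψ e • v * rU ρ (fix U) e

theorem DD_deriv {F : Type} [NormedAddCommGroup F] [NormedSpace ℝ F] (ψ : Link d L → ℝ) (v : A)
    {f : (Link d L → A) → F} (hf : ContDiff ℝ 1 f) (U : Link d L → G) :
    HasDerivAt (fun t => f (flow ψ v (rU ρ (fix U)) t)) (DD ρ ψ v f U) 0 := by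
  have := (hf.differentiable one_ne_zero _).hasFDerivAt.comp_hasDerivAt 0
    (flow_deriv ψ v (rU ρ (fix U)) 0)
  rwa [flow_zero] at this

variable [TopologicalSpace G] [IsTopologicalGroup G] [CompactSpace G]
  [SecondCountableTopology G] [MeasurableSpace G] [BorelSpace G] (μ : Measure G)
  [μ.IsHaarMeasure] [IsProbabilityMeasure μ]

theorem continuous_rU (hρ : Continuous ρ) : Continuous (rU (d := d) (L := L) ρ) :=
  continuous_pi fun e => (continuous_rho ρ hρ).comp (continuous_apply e)

theorem continuous_DD (hρ : Continuous ρ) {F : Type} [NormedAddCommGroup F] [NormedSpace ℝ F]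
    (ψ : Link d L → ℝ) (v : A) {f : (Link d L → A) → F} (hf : ContDiff ℝ 1 f) :
    Continuous (DD ρ ψ v f) := by
  have h1 : Continuous fun U : Link d L → G => rU ρ (fix U) :=
    (continuous_rU ρ hρ).comp continuous_fix
  have h2 := hf.continuous_fderiv one_ne_zero
  exact (h2.comp h1).clm_apply (by fun_prop)

theorem flow_invariant (hρ : Continuous ρ) (ψ : Link d L → ℝ) {v : A}
    (hv : ∀ t : ℝ, ∃ g, (ρ g : A) = exp (t • v)) {f : (Link d L → A) → ℝ} (hf : Continuous f)
    (hinv : ∀ h U, h 0 = 1 → f (rU ρ (gauge h U)) = f (rU ρ U)) (t : ℝ) :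
    ∫ U, f (flow ψ v (rU ρ (fix U)) t) ∂(Measure.pi fun _ => μ) =
      ∫ U, f (rU ρ U) ∂(Measure.pi fun _ => μ) := by
  choose γ hγ using hv
  have hc := continuous_cmb (G := G) (d := d) (L := L)
  have hm := mp_tri μ (Ht (d := d) (L := L))
    (fun U e => if rev e then 1 else (cmb Inv.inv U e.1)⁻¹ * γ (t * ψ e) * cmb Inv.inv U e.1)
    (fun U e => if rev e then (cmb Inv.inv U (e.1 + Pi.single e.2 1))⁻¹ * γ (t * ψ e) *
      cmb Inv.inv U (e.1 + Pi.single e.2 1) else 1)
    (continuous_pi fun e => by split_ifs <;> fun_prop)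
    (continuous_pi fun e => by split_ifs <;> fun_prop) ?_
  · rw [← int_mp hm (F := fun U => f (rU ρ U)) (hf.comp (continuous_rU ρ hρ))]
    congr 1
    funext U
    rw [← hinv (cmb Inv.inv U) _ (cmb_zero _ _)]
    congr 1
    funext e
    rw [flow, smul_smul, ← hγ, rU, rU, ← rho_mul]
    congr 2
    by_cases h : rev e
    · have h1 := fix_plink U h.1
      rw [rev_eq h] at h1
      rw [h1]
      simp only [fix, gauge] at h1
      simp only [gauge, if_pos h]
      calc γ (t * ψ e) * 1 = (cmb Inv.inv U e.1 * U e *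
            (cmb Inv.inv U (e.1 + Pi.single e.2 1))⁻¹) * γ (t * ψ e) := by rw [h1]; simp
        _ = _ := by group
    · simp only [fix, gauge, if_neg h]
      group
  · intro U V e h
    by_cases he : rev e
    · have h1 : e.1 + Pi.single e.2 1 = par e.1 := by rw [he.2.2]; exact (plink_bwd he.2.1).2
      have h2 := ht_par he.1
      have : cmb Inv.inv U (par e.1) = cmb Inv.inv V (par e.1) :=
        cmb_congr _ _ _ _ fun y hy hy' => h _ (by
          have := Ht_plink hy
          have : Ht e = ht e.1 - 1 := if_pos he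
          omega)
      simp only [if_pos he, h1, this, and_self]
    · have : cmb Inv.inv U e.1 = cmb Inv.inv V e.1 :=
        cmb_congr _ _ _ _ fun y hy hy' => h _ (by
          have := Ht_plink hy
          have : Ht e = ht e.1 := if_neg he
          omega)
      simp only [if_neg he, this, and_self]

theorem sd_haar (hρ : Continuous ρ) (ψ : Link d L → ℝ) {v : A}
    (hv : ∀ t : ℝ, ∃ g, (ρ g : A) = exp (t • v)) {f : (Link d L → A) → ℝ} (hf : ContDiff ℝ 1 f)
    (hinv : ∀ h U, h 0 = 1 → f (rU ρ (gauge h U)) = f (rU ρ U)) :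
    ∫ U, DD ρ ψ v f U ∂(Measure.pi fun _ => μ) = 0 := by
  have h1 : Continuous fun U : Link d L → G => rU ρ (fix U) :=
    (continuous_rU ρ hρ).comp continuous_fix
  have h2 := hf.continuous_fderiv one_ne_zero
  have h3 : Continuous fun z : ℝ × (Link d L → G) => flow ψ v (rU ρ (fix z.2)) z.1 := by
    refine continuous_pi fun e => ?_
    exact ((exp_continuous (𝔸 := A)).comp (continuous_fst.smul continuous_const)).mul
      ((continuous_apply e).comp (h1.comp continuous_snd))
  set F' : ℝ → (Link d L → G) → ℝ := fun t U => fderiv ℝ f (flow ψ v (rU ρ (fix U)) t)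
    fun e => ψ e • v * flow ψ v (rU ρ (fix U)) t e with hF'
  have h4 : Continuous fun z : ℝ × (Link d L → G) => F' z.1 z.2 :=
    (h2.comp h3).clm_apply (by fun_prop)
  obtain ⟨C, hC⟩ := ((isCompact_Icc (a := (-1 : ℝ)) (b := 1)).prod
    (isCompact_univ (X := Link d L → G))).exists_bound_of_continuousOn h4.continuousOn
  have hcf : ∀ t, Continuous fun U : Link d L → G => f (flow ψ v (rU ρ (fix U)) t) := fun t =>
    hf.continuous.comp (h3.comp (Continuous.prodMk_right t))
  have key := (hasDerivAt_integral_of_dominated_loc_of_deriv_le (μ := Measure.pi fun _ => μ)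
    (F := fun t U => f (flow ψ v (rU ρ (fix U)) t)) (F' := F') (x₀ := 0) (s := Set.Icc (-1) 1)
    (bound := fun _ => C) (Icc_mem_nhds (by norm_num) (by norm_num))
    (Filter.Eventually.of_forall fun t => (hcf t).aestronglyMeasurable) (cint _ (hcf 0))
    (h4.comp (Continuous.prodMk_right 0)).aestronglyMeasurable
    (Filter.Eventually.of_forall fun U t ht => hC (t, U) ⟨ht, Set.mem_univ _⟩)
    (integrable_const _) (Filter.Eventually.of_forall fun U t _ =>
      (hf.differentiable one_ne_zero _).hasFDerivAt.comp_hasDerivAt t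
        (flow_deriv ψ v (rU ρ (fix U)) t))).2
  simp only [flow_invariant ρ μ hρ ψ hv hf.continuous hinv] at key
  have := key.unique (hasDerivAt_const _ _)
  simpa only [hF', flow_zero, DD] using this

/-- the Schwinger-Dyson identity -/
theorem sd_nu (hρ : Continuous ρ) (b : ℝ) (ψ : Link d L → ℝ) {v : A}
    (hv : ∀ t : ℝ, ∃ g, (ρ g : A) = exp (t • v)) {f : (Link d L → A) → ℝ} (hf : ContDiff ℝ 1 f)
    (hinv : ∀ h U, h 0 = 1 → f (rU ρ (gauge h U)) = f (rU ρ U)) :
    ∫ U, DD ρ ψ v f U ∂(nu μ ρ d L b) =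
      ∫ U, f (rU ρ U) * (b * DD ρ ψ v actA U) ∂(nu μ ρ d L b) := by
  have hA := contDiff_actA (A := A) (d := d) (L := L)
  have hg : ContDiff ℝ 1 fun B : Link d L → A => f B * Real.exp (-(b * actA B)) :=
    hf.mul (contDiff_const.mul hA).neg.exp
  have h0 := sd_haar ρ μ hρ ψ hv hg fun h U h0 => by
    simp only [hinv h U h0, actA_rU, act_gauge]
  have e : ∀ U, DD ρ ψ v (fun B : Link d L → A => f B * Real.exp (-(b * actA B))) U =
      DD ρ ψ v f U * Real.exp (-(b * act ρ U)) -
        f (rU ρ U) * (b * DD ρ ψ v actA U) * Real.exp (-(b * act ρ U)) := by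
    intro U
    have h1 := (DD_deriv ρ ψ v hf U).mul ((DD_deriv ρ ψ v hA U).const_mul b).neg.exp
    have h2 := (DD_deriv ρ ψ v hg U).unique h1
    rw [h2]
    have h3 : f (rU ρ (fix U)) = f (rU ρ U) := hinv _ U (cmb_zero _ _)
    simp only [Pi.neg_apply, flow_zero, actA_rU, act_fix, h3]
    ring
  have c1 := continuous_DD ρ hρ ψ v hf
  have c2 := continuous_DD ρ hρ ψ v hA
  have c3 : Continuous fun U : Link d L → G => f (rU ρ U) :=
    hf.continuous.comp (continuous_rU (d := d) (L := L) ρ hρ)
  have c4 := continuous_wt (d := d) (L := L) ρ hρ b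
  simp only [e] at h0
  have c5 : Continuous fun U : Link d L → G =>
      f (rU ρ U) * (b * DD ρ ψ v actA U) * Real.exp (-(b * act ρ U)) :=
    (c3.mul (continuous_const.mul c2)).mul c4
  rw [integral_sub (cint _ (by fun_prop)) (cint _ c5), sub_eq_zero] at h0
  rw [nu_int, nu_int, h0]

end Pool.Agent.Lib.MP_7f377f_mp.Weak
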