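import Pool.Agent.Lib.MP_7f377f_mp.WeakEst
import Pool.Agent.Lib.MP_7f377f_mp.WeakGauss

/-! Transfer of the lattice Green function estimates to the torus. -/

namespace Pool.Agent.Lib.MP_7f377f_mp.Weak

open Filter Topology

/-- the representative of smallest absolute value -/
def lift {d L : ℕ} (x : Site d L) : Fin d → ℤ := fun k => (x k).valMinAbs

theorem lift_cast {d L : ℕ} [NeZero L] (z : Fin d → ℤ) (h : ∀ k, (z k).natAbs * 2 < L) :
    lift (fun k => (z k : ZMod L)) = z := by
  funext k
  have := h k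
  exact vma_cast (by omega) (by omega)

theorem cast_lift {d L : ℕ} [NeZero L] (x : Site d L) : (fun k => (lift x k : ZMod L)) = x := by
  funext k; simp [lift]

theorem lift_inj {d L : ℕ} [NeZero L] : Function.Injective (lift : Site d L → Fin d → ℤ) := by
  intro x y h
  rw [← cast_lift x, ← cast_lift y, h]

theorem inBox_cast {d L : ℕ} [NeZero L] {M : ℕ} (z : Fin d → ℤ) (h : ∀ k, (z k).natAbs ≤ M) :
    inBox M (fun k => (z k : ZMod L)) := fun k =>
  (ZMod.natAbs_min_of_le_div_two L _ (z k) (by simp) (ZMod.natAbs_valMinAbs_le _)).trans (h k)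

theorem inBox_add {d L : ℕ} [NeZero L] {M M' : ℕ} {x y : Site d L} (hx : inBox M x)
    (hy : inBox M' y) : inBox (M + M') (x + y) := by
  have := inBox_cast (L := L) (M := M + M') (lift x + lift y) fun k =>
    (Int.natAbs_add_le _ _).trans (add_le_add (hx k) (hy k))
  have e : (fun k => ((lift x + lift y) k : ZMod L)) = x + y := by funext k; simp [lift]
  rwa [e] at this

theorem inBox_neg {d L : ℕ} [NeZero L] {M : ℕ} {x : Site d L} (hx : inBox M x) :
    inBox M (-x) := by
  have := inBox_cast (L := L) (M := M) (-lift x) fun k => by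
    rw [Pi.neg_apply, Int.natAbs_neg]; exact hx k
  have e : (fun k => ((-lift x) k : ZMod L)) = -x := by funext k; simp [lift]
  rwa [e] at this

theorem cast_single {d L : ℕ} (i : Fin d) :
    (fun k => ((Pi.single i 1 : Fin d → ℤ) k : ZMod L)) = Pi.single i 1 := by
  funext k
  by_cases h : k = i
  · subst h; simp
  · simp [Pi.single_eq_of_ne h]

theorem natAbs_single {d : ℕ} (i k : Fin d) : ((Pi.single i 1 : Fin d → ℤ) k).natAbs ≤ 1 := by
  by_cases h : k = i
  · subst h; simp
  · simp [Pi.single_eq_of_ne h]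

theorem inBox_single {d L : ℕ} [NeZero L] (i : Fin d) :
    inBox 1 (Pi.single i 1 : Site d L) := by
  rw [← cast_single]; exact inBox_cast _ (natAbs_single i)

open Classical in
theorem card_inBox (d L M : ℕ) [NeZero L] :
    (Finset.univ.filter fun x : Site d L => inBox M x).card ≤ (2 * M + 1) ^ d := by
  rw [← box_card]
  refine Finset.card_le_card_of_injOn lift (fun x hx => ?_) lift_inj.injOn
  simp only [Finset.coe_filter, Finset.mem_univ, true_and, Set.mem_ofPred_eq] at hx
  simp only [box, Finset.mem_coe, Fintype.mem_piFinset, Finset.mem_Icc]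
  intro k
  have := hx k
  unfold lift
  omega

theorem lift_add {d L : ℕ} [NeZero L] (x : Site d L) (a : Fin d → ℤ)
    (h : ∀ k, (lift x k + a k).natAbs * 2 < L) :
    lift (x + fun k => (a k : ZMod L)) = lift x + a := by
  rw [← lift_cast (L := L) (lift x + a) h]
  congr 1
  funext k; simp [lift]

theorem transfer {d L : ℕ} [NeZero L] {f : (Fin d → ℤ) → ℝ} {n r : ℕ}
    (hf : ∀ z l, (n : ℤ) < |z l| → f z = 0) (hL : (n + r) * 2 < L) (x : Site d L) (a : Fin d → ℤ)
    (ha : ∀ k, (a k).natAbs ≤ r) : f (lift (x + fun k => (a k : ZMod L))) = f (lift x + a) := by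
  by_cases h : ∀ k, (lift x k + a k).natAbs * 2 < L
  · rw [lift_add x a h]
  · push Not at h
    obtain ⟨k, hk⟩ := h
    have h1 := ha k
    rw [hf (lift x + a) k (by rw [Pi.add_apply, Int.abs_eq_natAbs]; omega)]
    refine hf _ k ?_
    by_contra h2
    rw [Int.abs_eq_natAbs] at h2
    set v := lift (x + fun k => (a k : ZMod L)) k with hv
    have h3 : x k = ((v - a k : ℤ) : ZMod L) := by simp [hv, lift]
    have h4 : lift x k = v - a k := by
      unfold lift; rw [h3]; exact vma_cast (by omega) (by omega)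
    omega

theorem sum_lift {d L : ℕ} [NeZero L] (f : (Fin d → ℤ) → ℝ) :
    ∑ y : Site d L, f (lift y) = ∑ z ∈ Finset.univ.map ⟨lift, lift_inj (d := d) (L := L)⟩, f z := by
  rw [Finset.sum_map]; rfl

theorem torus_green (d : ℕ) [NeZero d] (hd : 2 ≤ d) :
    ∃ k : Fin d → Fin d → (Fin d → ℤ) → ℝ,
      (∀ (i j : Fin d) (y : EuclideanSpace ℝ (Fin d)) (ε : ℕ → ℝ) (x : ℕ → Fin d → ℤ), y ≠ 0 →
        (∀ n, 0 < ε n) → Tendsto ε atTop (𝓝 0) →
        (∀ l, Tendsto (fun n => ε n * x n l) atTop (𝓝 (y l))) →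
        Tendsto (fun n => k i j (x n) / ε n ^ d) atTop (𝓝 (hessG y i j))) ∧
      ∃ C a : ℝ, 0 < a ∧ 0 ≤ C ∧ (∀ i j z l, |k i j z| * (1 + |(z l : ℝ)|) ≤ C) ∧
        ∀ (n R L : ℕ) [NeZero L], 1 ≤ n → (n + R + 2) * 2 < L → ∃ w h : Site d L → ℝ,
          (∀ y, w y ≠ 0 → inBox n y) ∧ (∀ y, h y ≠ 0 → inBox (n + 1) y) ∧
          ∑ y, |w y| ≤ n * (2 * n + 1) ^ d ∧ lapT w = Pi.single 0 1 - h ∧ ∑ y, |h y| ≤ C ∧
          (∀ x, ∑ y, |h (y + x) - h y| ≤ ht x * (C / n ^ a)) ∧
          (∀ i j y, |dpT i (dmT j w) y - k i j (lift y)| ≤ C / n ^ a) ∧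
          (∀ i j x, inBox R x → ∑ y, |k i j (lift (y + x))| * |h y| ≤ C / n ^ a) := by
  obtain ⟨k, hk, C, a, ha, hC, H⟩ := gauss_side d hd
  have hC0 : 0 ≤ C := le_trans (by positivity) (hC 0 0 0 0)
  refine ⟨k, hk, C, a, ha, hC0, hC, fun n R L _ hn hL => ?_⟩
  obtain ⟨w, h, w1, w2, h1, h2, h3, h4, h5⟩ := H n hn
  have hs : ∀ z l, ((n + 1 : ℕ) : ℤ) < |z l| → h z = 0 := by
    intro z l hz
    have hz0 : z ≠ 0 := by
      rintro rfl
      simp at hz; omega
    rw [h1, if_neg hz0, Finset.sum_eq_zero, sub_zero]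
    intro m _
    have e := natAbs_single m l
    rw [Int.abs_eq_natAbs] at hz
    simp only [dmZ, dpZ, sub_add_cancel]
    rw [w1 z l (by rw [Int.abs_eq_natAbs]; omega),
      w1 (z + Pi.single m 1) l (by rw [Int.abs_eq_natAbs, Pi.add_apply]; omega),
      w1 (z - Pi.single m 1) l (by rw [Int.abs_eq_natAbs, Pi.sub_apply]; omega)]
    simp
  have box : ∀ {f : (Fin d → ℤ) → ℝ} {M : ℕ}, (∀ z l, (M : ℤ) < |z l| → f z = 0) →
      ∀ y : Site d L, f (lift y) ≠ 0 → inBox M y := by
    intro f M hf y hy l
    by_contra h'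
    exact hy (hf _ l (by rw [Int.abs_eq_natAbs]; unfold lift; omega))
  have tp : ∀ {f : (Fin d → ℤ) → ℝ} {M : ℕ}, (∀ z l, (M : ℤ) < |z l| → f z = 0) → M ≤ n + 1 →
      ∀ (y : Site d L) i, f (lift (y + Pi.single i 1)) = f (lift y + Pi.single i 1) := by
    intro f M hf hM y i
    rw [← cast_single]
    exact transfer hf (r := 1) (by omega) y _ (natAbs_single i)
  have tm : ∀ (y : Site d L) i, w (lift (y - Pi.single i 1)) = w (lift y - Pi.single i 1) := by
    intro y i
    have := transfer w1 (r := 1) (L := L) (by omega) y (-Pi.single i 1)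
      (fun k => by rw [Pi.neg_apply, Int.natAbs_neg]; exact natAbs_single i k)
    rw [sub_eq_add_neg, sub_eq_add_neg, ← this, ← cast_single]
    congr 3; funext k; simp
  have tpm : ∀ (y : Site d L) i j, w (lift (y + Pi.single i 1 - Pi.single j 1)) =
      w (lift y + Pi.single i 1 - Pi.single j 1) := by
    intro y i j
    have := transfer w1 (r := 2) (L := L) (by omega) y (Pi.single i 1 - Pi.single j 1)
      (fun k => by
        have := natAbs_single i k
        have := natAbs_single j k
        rw [Pi.sub_apply]; omega)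
    rw [add_sub_assoc, add_sub_assoc, ← this, ← cast_single, ← cast_single]
    congr 3; funext k; simp
  have e1 : ∀ i j (y : Site d L), dpT i (dmT j fun y => w (lift y)) y =
      dpZ (dmZ w j) i (lift y) := by
    intro i j y
    simp only [dpT_apply, dmT_apply, dpZ, dmZ, tpm, tm, tp w1 (Nat.le_succ n)]
  have grad : ∀ i, ∑ y : Site d L, |h (lift (y + Pi.single i 1)) - h (lift y)| ≤ C / n ^ a := by
    intro i
    simp only [tp hs le_rfl]
    exact (sum_lift fun z => |dpZ h i z|).trans_le (h3 i _)
  refine ⟨fun y => w (lift y), fun y => h (lift y), box w1, box hs, ?_, ?_,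
    (sum_lift fun z => |h z|).trans_le (h2 _), fun x => ?_, fun i j y => ?_, fun i j x hx => ?_⟩
  · classical
    calc _ = ∑ y ∈ Finset.univ.filter fun x : Site d L => inBox n x, |w (lift y)| := by
          refine (Finset.sum_filter_of_ne fun y _ hy => box w1 y ?_).symm
          exact abs_ne_zero.1 hy
      _ ≤ (Finset.univ.filter fun x : Site d L => inBox n x).card • (n : ℝ) :=
          Finset.sum_le_card_nsmul _ _ _ fun y _ => w2 _
      _ ≤ _ := by
          rw [nsmul_eq_mul, mul_comm]
          have := card_inBox d L n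
          gcongr
          exact_mod_cast this
  · funext y
    simp only [lapT, Finset.sum_apply, dmT_dpT, e1, Pi.sub_apply, h1, dm_dp]
    have : lift y = 0 ↔ y = 0 := by
      constructor
      · intro h'; apply lift_inj; rw [h']; funext k; simp [lift]
      · rintro rfl; funext k; simp [lift]
    by_cases hy : y = 0
    · rw [if_pos (this.2 hy), hy]; simp
    · rw [if_neg (mt this.1 hy), Pi.single_eq_of_ne hy]; simp
  · induction x using site_induction with
    | h0 => simp [ht]
    | h x hx ih =>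
      have step : ∑ y : Site d L, |h (lift (y + x)) - h (lift (y + par x))| ≤ C / n ^ a := by
        by_cases hf : fwd x
        · refine le_trans (le_of_eq ?_) (grad (ix x))
          refine Fintype.sum_equiv (Equiv.addRight (par x)) _ _ fun y => ?_
          simp only [Equiv.coe_addRight, add_assoc, (plink_fwd hf).2]
        · refine le_trans (le_of_eq ?_) (grad (ix x))
          refine Fintype.sum_equiv (Equiv.addRight x) _ _ fun y => ?_
          simp only [Equiv.coe_addRight, add_assoc, (plink_bwd hf).2]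
          exact abs_sub_comm _ _
      rw [← ht_par hx]
      push_cast
      calc _ ≤ ∑ y : Site d L, (|h (lift (y + x)) - h (lift (y + par x))| +
            |h (lift (y + par x)) - h (lift y)|) :=
            Finset.sum_le_sum fun y _ => abs_sub_le _ _ _
        _ ≤ _ := by rw [Finset.sum_add_distrib]; linarith
  · rw [e1]; exact h4 i j _
  · refine le_trans (le_of_eq ?_) ((sum_lift (L := L) fun z => |k i j (z - -lift x)| * |h z|).trans_le
      (h5 i j (-lift x) _))
    refine Finset.sum_congr rfl fun y _ => ?_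
    by_cases hy : h (lift y) = 0
    · simp [hy]
    · have hb := box hs y hy
      rw [sub_neg_eq_add, ← lift_add y (lift x) fun l => ?_, cast_lift]
      have := hb l
      have := hx l
      unfold lift
      omega

end Pool.Agent.Lib.MP_7f377f_mp.Weak
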