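import Pool.Agent.Lib.MP_7f377f_mp.WeakT2
import Pool.Agent.Lib.MP_7f377f_mp.WeakLink

/-! The correlation length diverges at weak coupling. -/

namespace Pool.Agent.Lib.MP_7f377f_mp.Weak

open Coul MeasureTheory Filter Topology
open scoped InnerProductSpace

set_option linter.unusedSectionVars false

theorem maxwell_pos {d : ℕ} (hd : 0 < d) (y : EuclideanSpace ℝ (Fin d)) (hy : y ≠ 0) {i j : Fin d}
    (hij : i ≠ j) (hi : y i = 0) (hj : y j = 0) : 0 < maxwell y (i, j) (i, j) := by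
  have h1 : 0 < ‖y‖ := norm_pos_iff.mpr hy
  have h2 : 0 < Real.Gamma (d / 2) := Real.Gamma_pos_of_pos (by positivity)
  have h3 := Real.pi_pos
  simp only [maxwell, hessG, hij, hij.symm, hi, hj, if_true, if_false, mul_zero, zero_div, sub_zero]
  positivity

theorem loopSum_pos {D : ℝ} (hD : 0 < D) (K : Fin 2 × Bool → Fin 2 × Bool → ℝ)
    (hK : ∀ α γ, γ.1 ≠ α.1 → 0 < K α γ) : 0 < loopSum D K := by
  have h : ∀ σ : Equiv.Perm (Fin 2), (∀ i, σ i ≠ i) → 0 < (D / 2) ^ σ.cycleType.card *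
      ∑ s : Fin 2 → Bool, ∏ i, K (i, s i) (σ i, !s (σ i)) := fun σ hσ =>
    mul_pos (by positivity) (Finset.sum_pos (fun s _ => Finset.prod_pos fun i _ => hK _ _ (hσ i))
      Finset.univ_nonempty)
  refine Finset.sum_pos' (fun σ _ => ?_) ⟨Equiv.swap 0 1, Finset.mem_univ _, ?_⟩
  · split_ifs with hσ
    · exact (h σ hσ).le
    · exact le_rfl
  · have : ∀ i : Fin 2, Equiv.swap 0 1 i ≠ i := by decide
    rw [if_pos this]
    exact h _ this

section
variable {A : Type} [NormedRing A] [StarRing A] [NormedAlgebra ℝ A] [HS A]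
variable {G : Type} [Group G] (ρ : G →* unitary A)
  [TopologicalSpace G] [IsTopologicalGroup G] [CompactSpace G]
  [SecondCountableTopology G] [MeasurableSpace G] [BorelSpace G] (μ : Measure G)
  [μ.IsHaarMeasure] [IsProbabilityMeasure μ]

/-- centred plaquette energy as a function of the spatial links -/
noncomputable def pe {n : ℕ} (L : ℕ) [NeZero L] (β : ℝ) (i j : Fin n) (a : Link n L → G) : ℝ :=
  β * qq ρ (hol a 0 i j) -
    ∫ U, β * qq ρ (hol (sl U 0) 0 i j) ∂(nu μ ρ (n + 1) L (β / 4))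

theorem continuous_pe (hρ : Continuous ρ) {n : ℕ} (L : ℕ) [NeZero L] (β : ℝ) (i j : Fin n) :
    Continuous (pe ρ μ L β i j) :=
  (continuous_const.mul ((continuous_qq ρ hρ).comp (continuous_hol _ _ _))).sub continuous_const

theorem int_slice (hρ : Continuous ρ) {n L : ℕ} [NeZero L] (b : ℝ) {φ : (Link n L → G) → ℝ}
    (cφ : Continuous φ) (t : ZMod L) :
    ∫ U, φ (sl U t) ∂(nu μ ρ (n + 1) L b) = ∫ U, φ (sl U 0) ∂(nu μ ρ (n + 1) L b) := by
  rw [← int_mp (nu_shift μ ρ hρ b (st t 0)) (F := fun U => φ (sl U 0)) (by fun_prop)]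
  simp only [sl_shift, zero_add]

theorem two_point (hρ : Continuous ρ) (hD : lieAlg ρ ≠ ⊥) {n : ℕ} {i j : Fin n} (hij : i ≠ j) :
    ∃ (C c : ℝ) (T₀ : ℕ), 0 < c ∧ ∀ (T L : ℕ) (β : ℝ), T₀ ≤ T → (T : ℝ) ^ C ≤ β → β ≤ L →
      c ≤ tc ρ μ (β / 4) (pe ρ μ (2 * L + 2) β i j) T * ((T : ℝ) ^ (n + 1)) ^ 2 := by
  have hn : 0 < n := Fin.pos i
  obtain ⟨C, h⟩ := continuum ρ μ hρ (n + 1) 2 (by omega)
  set y : Fin 2 → EuclideanSpace ℝ (Fin (n + 1)) := ![0, EuclideanSpace.single 0 1] with hy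
  have y1 : (EuclideanSpace.single 0 1 : EuclideanSpace ℝ (Fin (n + 1))) ≠ 0 := by simp
  have yi : Function.Injective y := by
    intro a b
    fin_cases a <;> fin_cases b <;> simp [hy, y1, y1.symm]
  have y0 : ∀ a (k : Fin n), y a k.succ = 0 := by
    intro a k
    fin_cases a <;> simp [hy]
  have hP := loopSum_pos (D := Module.finrank ℝ (lieAlg ρ))
    (by exact_mod_cast Nat.pos_of_ne_zero fun e => hD (Submodule.finrank_eq_zero.mp e))
    (fun α γ => maxwell (y γ.1 - y α.1) (i.succ, j.succ) (i.succ, j.succ)) fun α γ e =>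
      maxwell_pos (by omega) _ (sub_ne_zero.mpr fun h => e (yi h))
        (fun e => hij (Fin.succ_injective _ e)) (by simp [y0]) (by simp [y0])
  by_contra H
  push Not at H
  choose T L β hT hβ hL hlt using fun k : ℕ => H C _ (k + 1) (half_pos hP)
  have T0 : ∀ k, (0 : ℝ) < T k := fun k => by exact_mod_cast (k.succ_pos.trans_le (hT k))
  have := h y (fun _ _ => (i.succ, j.succ)) (fun k => (T k : ℝ)⁻¹) β L
    (fun k => ![0, Pi.single 0 (T k)]) yi (fun k => inv_pos.mpr (T0 k))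
    (tendsto_inv_atTop_zero.comp (tendsto_natCast_atTop_atTop.comp
      (tendsto_atTop_mono (fun k => (Nat.le_succ k).trans (hT k)) tendsto_id)))
    (fun k => by rw [Real.inv_rpow (T0 k).le, Real.rpow_neg (T0 k).le, inv_inv]; exact hβ k) hL
    fun a l => by
      refine tendsto_const_nhds.congr fun k => ?_
      fin_cases a
      · simp [hy]
      · by_cases e : l = 0
        · simp [hy, e, (T0 k).ne']
        · simp [hy, e]
  refine absurd (le_of_tendsto' this fun k => (le_of_eq ?_).trans (hlt k).le)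
    (not_le.mpr (half_lt_self hP))
  have β0 : 0 ≤ β k := (Real.rpow_pos_of_pos (T0 k) _).le.trans (hβ k)
  have e0 : (fun l => (((0 : Fin (n + 1) → ℤ) l : ℤ) : ZMod (2 * L k + 2))) = st 0 0 := by
    rw [← single_zero]; funext l; simp
  have e1 : (fun l => (((Pi.single 0 (T k) : Fin (n + 1) → ℤ) l : ℤ) : ZMod (2 * L k + 2))) =
      st (T k) 0 := by
    rw [← single_zero]; funext l; by_cases e : l = 0 <;> simp [e]
  have cq := continuous_qq ρ hρ
  have ch := fun a b => continuous_hol (G := G) (0 : Site n (2 * L k + 2)) a b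
  rw [inv_pow, inv_pow, div_inv_eq_mul]
  simp only [Fin.prod_univ_two, Matrix.cons_val_zero, Matrix.cons_val_one, e0, e1, OU,
    real_inner_self_eq_norm_sq, Real.sq_sqrt β0, hol_sl, tc, pe, qq]
  rw [int_slice (L := 2 * L k + 2) ρ μ hρ (β k / 4)
    (φ := fun a => β k * ‖(ρ (hol a 0 i j) : A) - 1‖ ^ 2)
    (continuous_const.mul (cq.comp (ch i j))) (T k)]

theorem xi_abs (hρ : Continuous ρ) (hD : lieAlg ρ ≠ ⊥) {n : ℕ} {i j : Fin n} (hij : i ≠ j) :
    ∃ a β₀ : ℝ, 0 < a ∧ 0 < β₀ ∧ ∀ β, β₀ ≤ β → ∀ L : ℕ, β ≤ L → ∀ t : ℕ, t ≤ 2 * L + 2 →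
      4 / β * Real.exp (-(t / β ^ a)) ≤ tc ρ μ (β / 4) (pe ρ μ (2 * L + 2) β i j) t := by
  obtain ⟨C, c, T₀, c0, h⟩ := two_point ρ μ hρ hD hij
  have : NeZero n := ⟨(Fin.pos i).ne'⟩
  obtain ⟨M, M0, hM⟩ := moment_EU ρ μ hρ (n + 1) 2
  obtain ⟨p, hp1, hp2⟩ : ∃ p : ℕ, C ≤ p ∧ (n + 1) * 2 + 1 ≤ p :=
    ⟨⌈C⌉₊ + ((n + 1) * 2 + 1), (Nat.le_ceil C).trans (by exact_mod_cast Nat.le_add_right _ _),
      Nat.le_add_left _ _⟩
  obtain ⟨W, W1, W2, W3, W4⟩ : ∃ W : ℝ, 2 ≤ W ∧ T₀ + 1 ≤ W ∧ 4 / c + 1 ≤ W ∧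
      M * 2 ^ (2 * p + 1) * (2 * p + 1).factorial ≤ W := by
    refine ⟨2 + T₀ + 4 / c + M * 2 ^ (2 * p + 1) * (2 * p + 1).factorial, ?_⟩
    have : 0 ≤ M * 2 ^ (2 * p + 1) * (2 * p + 1).factorial := by positivity
    have : 0 ≤ 4 / c := by positivity
    have : (0 : ℝ) ≤ T₀ := by positivity
    refine ⟨?_, ?_, ?_, ?_⟩ <;> linarith
  have p0 : 2 * p ≠ 0 := by omega
  refine ⟨((2 * p : ℕ) : ℝ)⁻¹, W ^ (2 * p), by positivity, by positivity, fun β hβ L hL t ht => ?_⟩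
  have β0 : 0 < β := lt_of_lt_of_le (by positivity) hβ
  obtain ⟨w, hw⟩ : ∃ w, w = β ^ ((2 * p : ℕ) : ℝ)⁻¹ := ⟨_, rfl⟩
  have w0 : 0 ≤ w := by rw [hw]; positivity
  have hw' : w ^ (2 * p) = β := by rw [hw, Real.rpow_inv_natCast_pow β0.le p0]
  have Ww : W ≤ w := le_of_pow_le_pow_left₀ p0 w0 (hw' ▸ hβ)
  obtain ⟨T, hT1, hT2⟩ : ∃ T : ℕ, T ≤ w ^ 2 ∧ w ^ 2 < T + 1 :=
    ⟨⌊w ^ 2⌋₊, Nat.floor_le (by positivity), Nat.lt_floor_add_one _⟩
  have wT : w ≤ T := by nlinarith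
  have T1 : (1 : ℝ) ≤ T := by linarith
  have Tp : (T : ℝ) ^ p ≤ β := by rw [← hw', pow_mul]; gcongr
  have TL : T ≤ L := by
    have := ((le_self_pow₀ T1 (by omega)).trans Tp).trans hL
    exact_mod_cast this
  have T1' : 1 ≤ T := by exact_mod_cast T1
  have cφ := continuous_pe ρ μ hρ (2 * L + 2) β i j
  obtain ⟨k1, k2⟩ := tc_convex ρ μ hρ (b := β / 4) (by positivity) (m := L) (L := 2 * L + 2)
    (by ring) (by omega) cφ fun k a => by rw [pe, pe, hol_gauge, qq_conj]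
  have key := log_convex_lower (f := fun t : ℕ => tc ρ μ (β / 4) (pe ρ μ (2 * L + 2) β i j) t)
    (T := T) (B := 4 / β) (c := w⁻¹) k1 k2 (fun t ht => by
      rw [Nat.cast_sub ht, ZMod.natCast_self, zero_sub, tc_neg ρ μ hρ _ cφ]) T1' (by omega)
    (by positivity) ?_ (by positivity) ?_ t ht
  · rwa [← hw, div_eq_inv_mul (t : ℝ)]
  · have h1 := h T L β (by have : (T₀ : ℝ) ≤ T := by linarith
                           exact_mod_cast this)
      ((Real.rpow_le_rpow_of_exponent_le T1 hp1).trans (by rwa [Real.rpow_natCast])) hL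
    have h2 : ((T : ℝ) ^ (n + 1)) ^ 2 * T ≤ β := by
      rw [← pow_mul, ← pow_succ]
      exact (pow_le_pow_right₀ T1 hp2).trans Tp
    have h3 : 4 ≤ c * T := by
      have : 4 / c ≤ T := by linarith
      rwa [div_le_iff₀' c0] at this
    have h4 := k1 T (by omega)
    rw [div_le_iff₀ β0]
    calc 4 ≤ c * T := h3
      _ ≤ _ := mul_le_mul_of_nonneg_right h1 (by positivity)
      _ ≤ _ := by rw [mul_assoc]; gcongr
  · have := nu_prob μ ρ hρ (d := n + 1) (L := 2 * L + 2) (β / 4)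
    have h1 := hM (2 * L + 2) (L + 1) √β (by ring) (Real.sqrt_pos.mpr β0)
      (by rw [Real.sq_sqrt β0.le]; push_cast; linarith) (st 0 0, i.succ, j.succ)
    simp only [EU, Real.sq_sqrt β0.le, hol_sl] at h1
    have cf : Continuous fun U : Link (n + 1) (2 * L + 2) → G => β * qq ρ (hol (sl U 0) 0 i j) :=
      continuous_const.mul ((continuous_qq ρ hρ).comp ((continuous_hol _ _ _).comp (by fun_prop)))
    have h2 : tc ρ μ (β / 4) (pe ρ μ (2 * L + 2) β i j) (0 : ℕ) ≤ M := by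
      refine le_trans ?_ h1
      simp only [tc, pe, Nat.cast_zero]
      generalize hf : (fun U : Link (n + 1) (2 * L + 2) → G =>
        β * qq ρ (hol (sl U 0) 0 i j)) = f at cf
      simp only [fun U => congrFun hf U]
      have e : ∀ x m : ℝ, (x - m) * (x - m) = x ^ 2 - 2 * m * x + m ^ 2 := fun _ _ => by ring
      simp only [e]
      rw [integral_add (cint _ (by fun_prop)) (cint _ (by fun_prop)),
        integral_sub (cint _ (by fun_prop)) (cint _ (by fun_prop)), integral_const_mul]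
      simp only [integral_const, probReal_univ, one_smul]
      nlinarith [sq_nonneg (∫ U, f U ∂(nu μ ρ (n + 1) (2 * L + 2) (β / 4)))]
    refine h2.trans ?_
    have w1 : 0 < w := by linarith
    have h3 : w / 2 ≤ w⁻¹ * T := by
      rw [← div_eq_inv_mul, le_div_iff₀ w1]
      nlinarith
    have h4 := (Real.pow_div_factorial_le_exp (w / 2) (by positivity) (2 * p + 1)).trans
      (Real.exp_le_exp.mpr h3)
    rw [div_mul_eq_mul_div, le_div_iff₀ β0]
    refine le_trans ?_ (mul_le_mul_of_nonneg_left h4 (by norm_num))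
    rw [div_pow, pow_succ w, hw', div_div, ← mul_div_assoc, le_div_iff₀ (by positivity)]
    have : M * 2 ^ (2 * p + 1) * (2 * p + 1).factorial * β ≤ w * β := by gcongr; linarith
    nlinarith [mul_pos w1 β0]

end

theorem xi_main (n N : ℕ) (G : Type) [Group G] [TopologicalSpace G]
    [IsTopologicalGroup G] [CompactSpace G] [SecondCountableTopology G] [MeasurableSpace G]
    [BorelSpace G] (μ : Measure G) [μ.IsHaarMeasure] [IsProbabilityMeasure μ]
    (ρ : G →* Matrix.unitaryGroup (Fin N) ℂ) (hρ : Continuous ρ) (hinf : (Set.range ρ).Infinite)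
    (i j : Fin n) (hij : i ≠ j) :
    ∃ a β₀ : ℝ, 0 < a ∧ ∀ β, β₀ ≤ β → ∀ L : ℕ, β ≤ L → ∀ t : ℕ, t ≤ 2 * L + 2 →
      Real.exp (-(t / β ^ a)) / β ^ 3 ≤
        expect (d := n + 1) (L := 2 * L + 2) μ ρ β (fun U =>
          (ρ (hol U 0 i.succ j.succ)).1.trace.re *
            (ρ (hol U (Pi.single 0 t) i.succ j.succ)).1.trace.re) -
        expect (d := n + 1) (L := 2 * L + 2) μ ρ β (fun U =>
          (ρ (hol U 0 i.succ j.succ)).1.trace.re) *
        expect (d := n + 1) (L := 2 * L + 2) μ ρ β (fun U =>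
          (ρ (hol U (Pi.single 0 t) i.succ j.succ)).1.trace.re) := by
  open scoped Matrix.Norms.Frobenius in
  let _ := matrixHS N
  obtain ⟨a, β₀, ha, hb, h⟩ := xi_abs ρ μ hρ (lieAlg_ne_bot ρ hρ hinf) hij
  refine ⟨a, β₀, ha, fun β hβ L hL t ht => ?_⟩
  have β0 : 0 < β := hb.trans_le hβ
  have h1 := h β hβ L hL t ht
  have := nu_prob μ ρ hρ (d := n + 1) (L := 2 * L + 2) (β / 4)
  have e : ∀ F, expect (d := n + 1) (L := 2 * L + 2) μ ρ β F =
      ∫ U, F U ∂(nu μ ρ (n + 1) (2 * L + 2) (β / 4)) := fun F => by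
    rw [expect_eq, nu_int]; rfl
  have e0 : (0 : Site (n + 1) (2 * L + 2)) = st 0 0 := by rw [← single_zero, Pi.single_zero]
  obtain ⟨φ, cφ, h2, h3⟩ : ∃ φ : (Link n (2 * L + 2) → G) → ℝ, Continuous φ ∧
      (∀ a, (ρ (hol a 0 i j)).1.trace.re = φ a) ∧ ∃ c, ∀ a, qq ρ (hol a 0 i j) = 2 * (c - φ a) :=
    ⟨_, Complex.continuous_re.comp
      ((continuous_subtype_val.comp (hρ.comp (continuous_hol _ _ _))).matrix_trace),
      fun _ => rfl, _, fun a => qq_eq ρ _⟩
  obtain ⟨c, h3⟩ := h3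
  simp only [e, single_zero]
  simp only [e0, hol_sl, h2]
  rw [int_slice ρ μ hρ _ cφ t]
  simp only [tc, pe, h3] at h1
  rw [integral_const_mul, integral_const_mul, integral_sub (cint _ (by fun_prop))
    (cint _ (by fun_prop))] at h1
  simp only [integral_const, probReal_univ, one_smul] at h1
  generalize hm : ∫ U, φ (sl U 0) ∂(nu μ ρ (n + 1) (2 * L + 2) (β / 4)) = m at h1 ⊢
  have e1 : ∀ x y : ℝ, (β * (2 * (c - x)) - β * (2 * (c - m))) *
      (β * (2 * (c - y)) - β * (2 * (c - m))) = 4 * β ^ 2 * (x * y - m * x - m * y + m ^ 2) :=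
    fun _ _ => by ring
  simp only [e1] at h1
  rw [integral_const_mul, integral_add (cint _ (by fun_prop)) (cint _ (by fun_prop)),
    integral_sub (cint _ (by fun_prop)) (cint _ (by fun_prop)),
    integral_sub (cint _ (by fun_prop)) (cint _ (by fun_prop)), integral_const_mul,
    integral_const_mul, int_slice ρ μ hρ _ cφ t, hm] at h1
  simp only [integral_const, probReal_univ, one_smul] at h1
  rw [div_mul_eq_mul_div, div_le_iff₀ β0] at h1
  rw [div_le_iff₀ (by positivity)]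
  linarith

end Pool.Agent.Lib.MP_7f377f_mp.Weak
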