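import Pool.Agent.Lib.MP_7f377f_mp.WmSpecB
import Pool.Agent.Lib.MP_7f377f_mp.WmTool
import Pool.Agent.Lib.MP_7f377f_mp.WmMat

/-! Stage 14: Euclidean invariance at points. -/

noncomputable section

namespace Pool.Agent.Lib.MP_7f377f_mp.Wm

open MeasureTheory Filter Topology Set Complex YM7 Pur Lg Metric

namespace B4

variable {n : ℕ}

theorem sep {φ : R4 → ℝ} (hφ : Continuous φ) {z : Fin n → R4} (h : StrictMono fun i => φ (z i)) :
    ∀ᶠ r in 𝓝[>] (0 : ℝ), ∀ i j, i < j → ∀ a ∈ ball (z i) r, ∀ b ∈ ball (z j) r, φ a < φ b := by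
  refine eventually_all.2 fun i => eventually_all.2 fun j => eventually_imp_distrib_left.2 fun e => ?_
  have : ∀ᶠ p : R4 × R4 in 𝓝 (z i, z j), φ p.1 < φ p.2 :=
    (isOpen_lt (by fun_prop) (by fun_prop)).mem_nhds (h e)
  obtain ⟨r, r0, hr⟩ := Metric.eventually_nhds_iff_ball.1 this
  filter_upwards [Ioo_mem_nhdsGT r0] with s hs a ha b hb
  refine hr (a, b) ?_
  rw [← ball_prod_same]
  exact ⟨ball_subset_ball hs.2.le ha, ball_subset_ball hs.2.le hb⟩

theorem tube {x : Fin n → R4} (h : ∀ i j, i < j → x i 0 < x j 0) :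
    (fun i => euc (x i)) ∈ Tube n :=
  mem_tube.2 fun i j e => by
    rw [← euc_sub]
    exact TV.to (by simpa using h i j e) (euc_mem _)

theorem adm {f : Fin n → R4 → ℝ} (h : ∀ i, HasCompactSupport (f i) ∧ ContDiff ℝ 1 (f i))
    (ho : Ord f) : Adm f :=
  ⟨h, fun i j e => Set.disjoint_left.2 fun x h1 h2 => by
    rcases lt_or_gt_of_ne e with e | e
    · exact lt_irrefl _ (ho i j e x h1 x h2)
    · exact lt_irrefl _ (ho j i e x h2 x h1)⟩

theorem int_perm (σ : Equiv.Perm (Fin n)) (G : (Fin n → R4) → ℂ) :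
    ∫ x : Fin n → R4, G (fun i => x (σ i)) = ∫ x, G x :=
  (volume_measurePreserving_piCongrLeft (fun _ : Fin n => R4) σ).symm.integral_comp' G

end B4

open B4 in
theorem sB4_of : S_B4 := by
  intro W w hR hw hL n R σ y hS h1 h2
  obtain ⟨Q, q1, q2⟩ := hS.iso
  have c : Continuous fun u : R4 => act R u 0 := by
    simp only [← q2]
    fun_prop
  obtain ⟨r, ⟨s1, s2⟩, r0⟩ := (((sep (φ := fun u => u 0) (z := fun i => y (σ i)) (by fun_prop) h1).and
    (sep c h2)).and self_mem_nhdsWithin).exists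
  have bl : ∀ x ∈ ball y r, ∀ i, x i ∈ ball (y i) r := fun x hx i =>
    (dist_le_pi_dist x y i).trans_lt hx
  refine pt_eq (G := fun x => w n fun i => euc (x (σ i)))
    (G' := fun x => w n fun i => euc (act R (x i))) r0
    ((hw n).continuousOn.comp (by fun_prop) fun x hx =>
      tube fun i j e => s1 i j e _ (bl x hx _) _ (bl x hx _))
    ((hw n).continuousOn.comp (by simp only [← q2]; fun_prop) fun x hx =>
      tube fun i j e => s2 i j e _ (bl x hx _) _ (bl x hx _)) fun f hf => ?_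
  have o1 : Ord fun i => f (σ i) := fun i j e a ha b hb =>
    s1 i j e a ((hf _).2.2 ha) b ((hf _).2.2 hb)
  have o2 : Ord fun i u => f i (Q.symm u) := fun i j e a ha b hb => by
    simpa [← q2] using s2 i j e _ ((hf _).2.2 (tsupport_comp_subset_preimage _ Q.symm.continuous ha))
      _ ((hf _).2.2 (tsupport_comp_subset_preimage _ Q.symm.continuous hb))
  have a1 : Adm fun i => f (σ i) :=
    adm (fun i => ⟨(hf (σ i)).1, (hf _).2.1.of_le (by norm_cast)⟩) o1
  have a2 : Adm fun i u => f i (Q.symm u) :=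
    adm (fun i => ⟨(hf i).1.comp_homeomorph Q.symm.toHomeomorph,
      ((hf _).2.1.of_le (by norm_cast)).comp Q.symm.contDiff⟩) o2
  have e1 : mon (fun i => f (σ i)) = mon f := Equiv.prod_comp σ fun i => MvPolynomial.X (f i)
  have e2 := hR Q q1 n _ a2
  simp only [LinearIsometryEquiv.symm_apply_apply] at e2
  have l1 := (hL n _ a1 o1).trans (int_perm σ _).symm
  have l2 := (hL n _ a2 o2).trans (int_act hS.2 0 _).symm
  have := (l1.symm.trans (congrArg W e1)).trans (e2.trans l2)
  simp only [zero_add, ← q2, LinearIsometryEquiv.symm_apply_apply] at this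
  simp only [← q2, smul_eq_mul]
  rw [← this]
  refine integral_congr_ae (.of_forall fun x => ?_)
  simp only
  rw [Equiv.prod_comp σ fun i => (f i (x i) : ℂ)]

end Pool.Agent.Lib.MP_7f377f_mp.Wm
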