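import Pool.Agent.Lib.MP_7f377f_mp.WmSpec

/-! Stage 14: boundary values of holomorphic functions on tubes. -/

noncomputable section

namespace Pool.Agent.Lib.MP_7f377f_mp.Wm

open MeasureTheory Filter Topology Set Complex YM7 Metric LineDeriv

namespace BV

variable {n : ℕ} {X : Type} [NormedAddCommGroup X] [NormedSpace ℂ X] [NormedSpace ℝ X]
  [IsScalarTower ℝ ℂ X] [CompleteSpace X] {ψ : (Fin n → C4) → X} {O : Set (Fin n → C4)}

instance haar : (volume : Measure (Fin n → R4)).IsAddHaarMeasure := Measure.pi.isAddHaarMeasure _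

/-- the smeared function at the imaginary part `y` -/
def J (ψ : (Fin n → C4) → X) (F : Sw n) (y : Fin n → R4) : X := ∫ x, F x • ψ (cxn x y)

/-- sums of integrals of derivatives -/
def p (k : ℕ) (F : Sw n) : ℝ := ∑ j ∈ Finset.range (k + 1), ∫ x, ‖iteratedFDeriv ℝ j F x‖

/-- a bound on the whole real slice -/
def Good (ψ : (Fin n → C4) → X) (O : Set (Fin n → C4)) (y : Fin n → R4) (M : ℝ) : Prop :=
  ∀ x, cxn x y ∈ O ∧ ‖ψ (cxn x y)‖ ≤ M

theorem int_der (j : ℕ) (F : Sw n) : Integrable fun x => ‖iteratedFDeriv ℝ j F x‖ := by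
  simpa using F.integrable_pow_mul_iteratedFDeriv volume 0 j

theorem p_nonneg (k : ℕ) (F : Sw n) : 0 ≤ p k F :=
  Finset.sum_nonneg fun _ _ => integral_nonneg fun _ => norm_nonneg _

theorem p_succ (k : ℕ) (F : Sw n) : p k F ≤ p (k + 1) F := by
  unfold p
  rw [Finset.sum_range_succ _ (k + 1)]
  exact le_add_of_nonneg_right (integral_nonneg fun _ => norm_nonneg _)

theorem p_zero (F : Sw n) : p 0 F = ∫ x, ‖F x‖ := by simp [p]

theorem p_der (k : ℕ) (F : Sw n) (v : Fin n → R4) : p k (∂_{v} F) ≤ ‖v‖ * p (k + 1) F := by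
  unfold p
  rw [Finset.sum_range_succ' _ (k + 1), mul_add, Finset.mul_sum]
  refine le_add_of_le_of_nonneg (Finset.sum_le_sum fun j _ => ?_)
    (mul_nonneg (norm_nonneg _) (integral_nonneg fun _ => norm_nonneg _))
  rw [← integral_const_mul]
  refine integral_mono (int_der _ _) ((int_der _ _).const_mul _) fun x => ?_
  have e : ((∂_{v} F : Sw n) : (Fin n → R4) → ℂ) = fun y => fderiv ℝ F y v :=
    funext fun y => SchwartzMap.lineDerivOp_apply_eq_fderiv v F y
  simp only [e]
  rw [← norm_iteratedFDeriv_fderiv]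
  exact norm_iteratedFDeriv_clm_apply_const (N := j)
    ((F.smooth (j + 1 : ℕ)).fderiv_right (m := j) (by norm_cast)).contDiffAt le_rfl

theorem p_tr (k : ℕ) {F F' : Sw n} {a : Fin n → R4} (h : ∀ x, F' x = F (x - a)) :
    p k F' = p k F := by
  refine Finset.sum_congr rfl fun j _ => ?_
  have e : (F' : (Fin n → R4) → ℂ) = fun y => F (y - a) := funext h
  simp only [e, iteratedFDeriv_comp_sub]
  exact integral_sub_right_eq_self (fun x => ‖iteratedFDeriv ℝ j F x‖) a

theorem p_bd (k : ℕ) : ∃ q : Sw n → ℝ, Continuous q ∧ q 0 = 0 ∧ ∀ F, p k F ≤ q F := by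
  refine ⟨_, ?_, ?_, fun F => Finset.sum_le_sum fun j _ => by
    simpa using F.integral_pow_mul_iteratedFDeriv_le ℂ volume 0 j⟩
  · refine continuous_finsetSum _ fun j _ => continuous_const.mul (.add ?_ ?_)
    · exact (schwartz_withSeminorms ℂ _ _).continuous_seminorm (0, j)
    · exact (schwartz_withSeminorms ℂ _ _).continuous_seminorm (_, j)
  · simp

theorem cxn_line (x y v : Fin n → R4) (σ : ℂ) :
    cxn x y + σ • cxn v 0 = cxn (x + σ.re • v) (y + σ.im • v) := by
  ext i μ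
  simp only [cxn, cx, Pi.add_apply, Pi.smul_apply, smul_eq_mul, PiLp.add_apply, PiLp.smul_apply,
    Pi.zero_apply, PiLp.zero_apply]
  apply Complex.ext <;> simp

theorem continuous_cxn {Y : Type*} [TopologicalSpace Y] {f g : Y → Fin n → R4} (hf : Continuous f)
    (hg : Continuous g) : Continuous fun x => cxn (f x) (g x) :=
  continuous_pi fun i => continuous_cx (by fun_prop) (by fun_prop)

variable (hO : IsOpen O) (hψ : DifferentiableOn ℂ ψ O)
include hO hψ

omit hO [NormedSpace ℝ X] [IsScalarTower ℝ ℂ X] [CompleteSpace X] in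
theorem cont_x {y : Fin n → R4} {M : ℝ} (h : Good ψ O y M) : Continuous fun x => ψ (cxn x y) :=
  hψ.continuousOn.comp_continuous (continuous_cxn continuous_id continuous_const) fun x => (h x).1

omit hO [NormedSpace ℝ X] [IsScalarTower ℝ ℂ X] [CompleteSpace X] in
theorem integ {y : Fin n → R4} {M : ℝ} (h : Good ψ O y M) (F : Sw n) :
    Integrable fun x => F x • ψ (cxn x y) :=
  F.integrable.smul_of_top_left (memLp_top_of_bound (cont_x hψ h).aestronglyMeasurable M
    (.of_forall fun x => (h x).2))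

omit hO hψ [IsScalarTower ℝ ℂ X] [CompleteSpace X] in
theorem J_le {y : Fin n → R4} {M : ℝ} (h : Good ψ O y M) (F : Sw n) : ‖J ψ F y‖ ≤ M * p 0 F := by
  rw [p_zero, ← integral_const_mul]
  refine norm_integral_le_of_norm_le (F.integrable.norm.const_mul _) (.of_forall fun x => ?_)
  rw [norm_smul, mul_comm]
  exact mul_le_mul_of_nonneg_right (h x).2 (norm_nonneg _)

omit hO [IsScalarTower ℝ ℂ X] [CompleteSpace X] in
theorem J_cont {y v : Fin n → R4} {M : ℝ} {S : Set ℝ} (h : ∀ s ∈ S, Good ψ O (y + s • v) M)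
    (F : Sw n) : ContinuousOn (fun s : ℝ => J ψ F (y + s • v)) S := by
  refine continuousOn_of_dominated (bound := fun x => M * ‖F x‖)
    (fun s hs => (integ hψ (h s hs) F).1) (fun s hs => .of_forall fun x => ?_)
    (F.integrable.norm.const_mul _) (.of_forall fun x => ?_)
  · rw [norm_smul, mul_comm]
    exact mul_le_mul_of_nonneg_right (h s hs x).2 (norm_nonneg _)
  · exact continuousOn_const.smul (hψ.continuousOn.comp
      (continuous_cxn continuous_const (by fun_prop)).continuousOn fun s hs => (h s hs x).1)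

theorem J_der {y v : Fin n → R4} {M a b s : ℝ} (h : ∀ s ∈ Ioo a b, Good ψ O (y + s • v) M)
    (F : Sw n) (hs : s ∈ Ioo a b) :
    HasDerivAt (fun s : ℝ => J ψ F (y + s • v)) ((-I) • J ψ (∂_{v} F) (y + s • v)) s := by
  set g : (Fin n → R4) → ℂ → X := fun x σ => ψ (cxn x y + σ • cxn v 0) with hg
  have g1 : ∀ x (σ : ℂ), σ.im ∈ Ioo a b → DifferentiableAt ℂ (g x) σ ∧ ‖g x σ‖ ≤ M :=
    fun x σ hσ => by
      have := h _ hσ (x + σ.re • v)
      rw [← cxn_line] at this
      exact ⟨(hψ.differentiableAt (hO.mem_nhds this.1)).comp σ (f := fun σ : ℂ =>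
        cxn x y + σ • cxn v 0) (by fun_prop), this.2⟩
  obtain ⟨r, r0, r1, r2⟩ : ∃ r > 0, a < s - 2 * r ∧ s + 2 * r < b :=
    ⟨min (s - a) (b - s) / 3, by have := hs.1; have := hs.2; positivity, by
      have := min_le_left (s - a) (b - s); have := hs.1; linarith, by
      have := min_le_right (s - a) (b - s); have := hs.2; linarith⟩
  have mem : ∀ t ∈ ball s r, ∀ σ ∈ closedBall ((t : ℂ) * I) r, σ.im ∈ Ioo a b := fun t ht σ hσ => by
    have h1 := abs_lt.1 (mem_ball_iff_norm.1 ht)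
    have h2 := abs_le.1 ((abs_im_le_norm _).trans (mem_closedBall_iff_norm.1 hσ))
    simp only [sub_im, mul_im, ofReal_re, I_im, mul_one, ofReal_im, I_re, mul_zero, add_zero] at h2
    constructor <;> linarith [h1.1, h1.2, h2.1, h2.2]
  have g2 : ∀ x, ∀ t ∈ ball s r, ‖deriv (g x) (t * I)‖ ≤ M / r := fun x t ht =>
    Complex.norm_deriv_le_of_forall_mem_sphere_norm_le r0
      (DifferentiableOn.diffContOnCl fun σ hσ =>
        (g1 x σ (mem t ht σ (closure_ball_subset_closedBall hσ))).1.differentiableWithinAt)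
      fun σ hσ => (g1 x σ (mem t ht σ (sphere_subset_closedBall hσ))).2
  have g3 : ∀ x (u t : ℝ), g x (u + t * I) = ψ (cxn (x + u • v) (y + t • v)) := fun x u t => by
    simp [hg, cxn_line]
  have g4 : ∀ x, HasLineDerivAt ℝ (fun x => ψ (cxn x (y + s • v))) (deriv (g x) (s * I)) x v :=
    fun x => by
      have e := (g1 x (s * I) (by simpa using hs)).1.hasDerivAt
      have e' : HasDerivAt (fun u : ℝ => (u : ℂ) + s * I) 1 0 :=
        (Complex.ofRealCLM.hasDerivAt (x := 0)).add_const _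
      have := HasDerivAt.scomp_of_eq 0 e e' (by simp)
      simpa [HasLineDerivAt, Function.comp_def, g3] using this
  have g5 : AEStronglyMeasurable fun x => deriv (g x) (s * I) := by
    have := (stronglyMeasurable_lineDeriv (𝕜 := ℝ) (v := v)
      (cont_x hψ (h s hs))).aestronglyMeasurable (μ := volume)
    simpa only [(g4 _).lineDeriv] using this
  have g6 : Integrable fun x => F x • deriv (g x) (s * I) :=
    F.integrable.smul_of_top_left (memLp_top_of_bound g5 _
      (.of_forall fun x => g2 x s (mem_ball_self r0)))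
  have key := (hasDerivAt_integral_of_dominated_loc_of_deriv_le (μ := volume)
    (F := fun (t : ℝ) x => F x • ψ (cxn x (y + t • v)))
    (F' := fun (t : ℝ) x => I • F x • deriv (g x) (t * I)) (bound := fun x => M / r * ‖F x‖)
    (ball_mem_nhds s r0) ?_ (integ hψ (h s hs) F) (g6.smul I).1 ?_
    (F.integrable.norm.const_mul _) ?_).2
  · refine key.congr_deriv ?_
    have := integral_bilinear_hasLineDerivAt_right_eq_neg_left_of_integrable (μ := volume)
      (B := ContinuousLinearMap.lsmul ℝ ℂ) (f := F) (f' := (∂_{v} F : Sw n)) (v := v)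
      (integ hψ (h s hs) _) g6 (integ hψ (h s hs) _)
      (fun x _ => by
        rw [SchwartzMap.lineDerivOp_apply_eq_fderiv]
        exact (F.differentiableAt.hasFDerivAt).hasLineDerivAt v) fun x _ => g4 x
    simp only [ContinuousLinearMap.lsmul_apply] at this
    rw [integral_smul, this, J, neg_smul, smul_neg]
  · filter_upwards [Ioo_mem_nhds hs.1 hs.2] with t ht using (integ hψ (h t ht) F).1
  · refine .of_forall fun x t ht => ?_
    rw [norm_smul, norm_I, one_mul, norm_smul, mul_comm]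
    exact mul_le_mul_of_nonneg_right (g2 x t ht) (norm_nonneg _)
  · refine .of_forall fun x t ht => ?_
    have e := (g1 x (t * I) (mem t ht _ (mem_closedBall_self r0.le))).1.hasDerivAt
    have e' : HasDerivAt (fun u : ℝ => (u : ℂ) * I) I t := by
      simpa using (Complex.ofRealCLM.hasDerivAt (x := t)).mul_const I
    have := (HasDerivAt.scomp_of_eq t e e' rfl).const_smul (F x)
    rw [smul_comm] at this
    refine this.congr_of_eventuallyEq (.of_forall fun u => ?_)
    have := g3 x 0 u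
    simp only [ofReal_zero, zero_add, zero_smul, add_zero] at this
    simp only [Function.comp_def, Pi.smul_apply, this]

theorem step {y v : Fin n → R4} {M a b : ℝ} (hab : a ≤ b)
    (h : ∀ s ∈ Icc a b, Good ψ O (y + s • v) M) (F : Sw n) {B : ℝ → ℝ}
    (hB : ∀ s ∈ Ioo a b, ‖J ψ (∂_{v} F) (y + s • v)‖ ≤ B s) (hi : IntervalIntegrable B volume a b) :
    ‖J ψ F (y + b • v) - J ψ F (y + a • v)‖ ≤ ∫ s in a..b, B s := by
  have d := fun s (hs : s ∈ Ioo a b) => J_der hO hψ (fun s hs => h s (Ioo_subset_Icc_self hs)) F hs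
  refine norm_sub_le_integral_of_norm_deriv_le_of_le (f := fun s : ℝ => J ψ F (y + s • v)) hab
    (J_cont hψ h F) (fun s hs => (d s hs).differentiableAt.differentiableWithinAt)
    (.of_forall fun s hs => ?_) hi
  rw [(d s hs).deriv, norm_smul, norm_neg, norm_I, one_mul]
  exact hB s hs

variable {K : Set (Fin n → R4)} {N : ℕ} {C R : ℝ} (hR : ∀ η ∈ K, ‖η‖ ≤ R)
  (hK : ∀ t ∈ Ioc (0 : ℝ) 1, ∀ η ∈ K, Good ψ O (t • η) (C / t ^ N))

/-- growth of order `e` at the cost of `m` derivatives -/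
def Bd (ψ : (Fin n → C4) → X) (K : Set (Fin n → R4)) (m : ℕ) (e : ℝ) : Prop :=
  ∃ c, 0 ≤ c ∧ ∀ (F : Sw n), ∀ η ∈ K, ∀ t ∈ Ioc (0 : ℝ) 1,
    ‖J ψ F (t • η)‖ ≤ c * p m F * (1 + t ^ (-e))

include hK in
theorem ray {η : Fin n → R4} (hη : η ∈ K) {a b : ℝ} (ha : 0 < a) (hab : a ≤ b) (hb : b ≤ 1)
    (F : Sw n) {B : ℝ → ℝ} (hB : ∀ s ∈ Ioo a b, ‖J ψ (∂_{η} F) (s • η)‖ ≤ B s)
    (hi : IntervalIntegrable B volume a b) :
    ‖J ψ F (b • η) - J ψ F (a • η)‖ ≤ ∫ s in a..b, B s := by
  have := step hO hψ (y := 0) (v := η) (M := |C| / a ^ N) hab (fun s hs x => ?_) F (B := B)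
    (by simpa using hB) hi
  · simpa using this
  · rw [zero_add]
    have := hK s ⟨ha.trans_le hs.1, hs.2.trans hb⟩ η hη x
    refine ⟨this.1, this.2.trans ?_⟩
    have := hs.1
    gcongr
    exact le_abs_self _

include hK hR in
theorem down {m : ℕ} {e : ℝ} (he : e ≠ 0) (h : Bd ψ K m (e + 1)) : Bd ψ K (m + 1) e := by
  obtain ⟨c, c0, h⟩ := h
  refine ⟨c * (2 + |R| + |R| / |e|), by positivity, fun F η hη t ht => ?_⟩
  have e0 : 0 < |e| := abs_pos.2 he
  have p0 := p_nonneg (m + 1) F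
  have t0 : 0 ≤ t ^ (-e) := Real.rpow_nonneg ht.1.le _
  have nm : (0 : ℝ) ∉ uIcc t 1 := by
    rw [uIcc_of_le ht.2]
    exact fun h => ht.1.not_ge h.1
  have i1 : IntervalIntegrable (fun s : ℝ => s ^ (-(e + 1))) volume t 1 :=
    intervalIntegral.intervalIntegrable_rpow (.inr nm)
  have h1 := ray hO hψ hK hη ht.1 ht.2 le_rfl F
    (B := fun s => c * (|R| * p (m + 1) F) * (1 + s ^ (-(e + 1)))) (fun s hs => by
      have s0 := ht.1.trans hs.1
      refine (h _ η hη s ⟨s0, hs.2.le⟩).trans ?_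
      have := (p_der m F η).trans (mul_le_mul_of_nonneg_right ((hR η hη).trans (le_abs_self R)) p0)
      gcongr) ((intervalIntegrable_const.add i1).const_mul _)
  rw [intervalIntegral.integral_const_mul, intervalIntegral.integral_add intervalIntegrable_const i1,
    integral_rpow (.inr ⟨fun h => he (by linarith), nm⟩), intervalIntegral.integral_const,
    show -(e + 1) + 1 = -e by ring, Real.one_rpow] at h1
  have h2 := h F η hη 1 ⟨one_pos, le_rfl⟩
  rw [Real.one_rpow] at h2
  have h3 : (1 - t ^ (-e)) / -e ≤ (1 + t ^ (-e)) / |e| := by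
    refine (le_abs_self _).trans ?_
    rw [abs_div, abs_neg]
    gcongr
    exact abs_le.2 ⟨by linarith, by linarith⟩
  have h4 := p_succ m F
  have h5 : (1 - t) • (1 : ℝ) ≤ 1 + t ^ (-e) := by
    rw [smul_eq_mul]
    linarith [ht.1]
  calc _ ≤ ‖J ψ F ((1 : ℝ) • η)‖ + ‖J ψ F ((1 : ℝ) • η) - J ψ F (t • η)‖ := norm_le_insert _ _
    _ ≤ c * p (m + 1) F * (2 * (1 + t ^ (-e))) + c * (|R| * p (m + 1) F) *
        ((1 + t ^ (-e)) + (1 + t ^ (-e)) / |e|) := by
      refine add_le_add (h2.trans ?_) (h1.trans ?_)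
      · gcongr
        linarith
      · gcongr
    _ = _ := by ring

include hK hR in
theorem bounded : ∃ (m : ℕ) (c : ℝ), 0 ≤ c ∧ ∀ (F : Sw n), ∀ η ∈ K, ∀ t ∈ Ioc (0 : ℝ) 1,
    ‖J ψ F (t • η)‖ ≤ c * p m F := by
  have h1 : ∀ (k m : ℕ), Bd ψ K m (k - 1 / 2) → ∃ m, Bd ψ K m (-(1 / 2)) := fun k => by
    induction k with
    | zero => exact fun m h => ⟨m, by simpa using h⟩
    | succ k ih =>
      refine fun m h => ih (m + 1) (down hO hψ hR hK (fun h => ?_) (by convert h using 1; push_cast; ring))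
      have : ((2 * k : ℕ) : ℝ) = (1 : ℕ) := by push_cast; linarith
      have := Nat.cast_injective this
      omega
  obtain ⟨m, c, c0, h⟩ := h1 (N + 1) 0 ⟨|C|, abs_nonneg _, fun F η hη t ht => by
    refine (J_le (hK t ht η hη) F).trans ?_
    rw [mul_right_comm]
    refine mul_le_mul_of_nonneg_right ?_ (p_nonneg _ _)
    have h1 : (t ^ N)⁻¹ ≤ t ^ (-(((N + 1 : ℕ) : ℝ) - 1 / 2)) := by
      rw [← Real.rpow_natCast, ← Real.rpow_neg ht.1.le]
      exact Real.rpow_le_rpow_of_exponent_ge ht.1 ht.2 (by push_cast; linarith)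
    have := ht.1
    rw [div_eq_mul_inv]
    exact mul_le_mul (le_abs_self _) (by linarith) (by positivity) (abs_nonneg _)⟩
  refine ⟨m, c * 2, by positivity, fun F η hη t ht => (h F η hη t ht).trans ?_⟩
  have := Real.rpow_le_one ht.1.le ht.2 (show (0 : ℝ) ≤ - -(1 / 2) by norm_num)
  have := p_nonneg m F
  calc _ ≤ c * p m F * (1 + 1) := by gcongr
    _ = _ := by ring

include hK hR in
theorem lips (hc : Convex ℝ K) : ∃ (m : ℕ) (c : ℝ), 0 ≤ c ∧ ∀ (F : Sw n), ∀ η ∈ K, ∀ η' ∈ K,
    ∀ t ∈ Ioc (0 : ℝ) 1, ‖J ψ F (t • η)‖ ≤ c * p m F ∧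
      ∀ t' ∈ Ioc (0 : ℝ) t, ‖J ψ F (t • η) - J ψ F (t' • η')‖ ≤ c * p m F * t := by
  obtain ⟨m, c, c0, h⟩ := bounded hO hψ hR hK
  refine ⟨m + 1, c * (1 + 3 * |R|), by positivity, fun F η hη η' hη' t ht => ⟨?_, fun t' ht' => ?_⟩⟩
  · refine (h F η hη t ht).trans (mul_le_mul ?_ (p_succ m F) (p_nonneg _ _) (by positivity))
    exact le_mul_of_one_le_right c0 (by linarith [abs_nonneg R])
  have p0 := p_nonneg (m + 1) F
  have r1 := (hR η hη).trans (le_abs_self R)
  have r2 := (hR η' hη').trans (le_abs_self R)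
  have h1 := ray hO hψ hK hη' ht'.1 ht'.2 ht.2 F (B := fun _ => c * (|R| * p (m + 1) F))
    (fun s hs => (h _ η' hη' s ⟨ht'.1.trans hs.1, hs.2.le.trans ht.2⟩).trans (by
      have := (p_der m F η').trans (mul_le_mul_of_nonneg_right r2 p0)
      gcongr)) intervalIntegrable_const
  have e : ∀ s : ℝ, t • η' + s • t • (η - η') = t • (η' + s • (η - η')) := fun s => by
    rw [smul_add, smul_comm s t]
  have h2 := step hO hψ (y := t • η') (v := t • (η - η')) (M := C / t ^ N) zero_le_one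
    (fun s hs => e s ▸ hK t ht _ (hc.add_smul_sub_mem hη' hη hs)) F
    (B := fun _ => c * (t * (2 * |R|) * p (m + 1) F)) (fun s hs => by
      rw [e]
      refine (h _ _ (hc.add_smul_sub_mem hη' hη (Ioo_subset_Icc_self hs)) t ht).trans ?_
      refine mul_le_mul_of_nonneg_left ((p_der m F _).trans (mul_le_mul_of_nonneg_right ?_ p0)) c0
      rw [norm_smul, Real.norm_of_nonneg ht.1.le]
      exact mul_le_mul_of_nonneg_left ((norm_sub_le _ _).trans (by linarith)) ht.1.le)
    intervalIntegrable_const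
  rw [e, e] at h2
  simp only [intervalIntegral.integral_const, smul_eq_mul, one_smul, zero_smul, add_zero,
    add_sub_cancel, sub_zero, one_mul] at h1 h2
  refine (norm_sub_le_norm_sub_add_norm_sub _ (J ψ F (t • η')) _).trans
    ((add_le_add h2 h1).trans ?_)
  have := mul_nonneg c0 p0
  have := mul_nonneg (abs_nonneg R) this
  nlinarith [ht'.1, ht.1]

end BV

open BV in
theorem sBV_of : S_BV := by
  intro n N X _ _ _ _ _ ψ O K C hO hψ hc ⟨η, hη⟩ hb hK
  obtain ⟨R, hR⟩ := hb.exists_norm_le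
  have hK' : ∀ t ∈ Ioc (0 : ℝ) 1, ∀ η ∈ K, Good ψ O (t • η) (C / t ^ N) :=
    fun t ht η hη x => hK x t ht η hη
  obtain ⟨m, c, c0, h⟩ := lips hO hψ hR hK' hc
  let u : ℕ → ℝ := fun k => 1 / ((k : ℝ) + 1)
  have u1 : ∀ k, u k ∈ Ioc (0 : ℝ) 1 := fun k =>
    ⟨Nat.one_div_pos_of_nat, (div_le_one (by positivity)).2 (by linarith [(k.cast_nonneg : (0 : ℝ) ≤ k)])⟩
  have u2 : Tendsto u atTop (𝓝 0) := tendsto_one_div_add_atTop_nhds_zero_nat
  have ex : ∀ F : Sw n, ∃ a, Tendsto (fun k => J ψ F (u k • η)) atTop (𝓝 a) := fun F => by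
    refine cauchySeq_tendsto_of_complete (cauchySeq_of_le_tendsto_0'
      (fun k => c * p m F * u k) (fun k l hkl => ?_) (by simpa using u2.const_mul (c * p m F)))
    rw [dist_eq_norm]
    exact (h F η hη η hη _ (u1 k)).2 _ ⟨(u1 l).1, Nat.one_div_le_one_div hkl⟩
  choose Φ hΦ using ex
  have gd := fun k => hK' _ (u1 k) η hη
  let L : Sw n →ₗ[ℂ] X :=
    { toFun := Φ
      map_add' := fun F G => tendsto_nhds_unique (hΦ _) (((hΦ F).add (hΦ G)).congr fun k => by
        simp only [J, add_apply, add_smul]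
        exact (integral_add (integ hψ (gd k) F) (integ hψ (gd k) G)).symm)
      map_smul' := fun a F => tendsto_nhds_unique (hΦ _) (((hΦ F).const_smul a).congr fun k => by
        simp only [J, smul_apply, smul_assoc]
        exact (integral_smul _ _).symm) }
  have Lc : Continuous L := by
    obtain ⟨q, q1, q2, q3⟩ := p_bd (n := n) m
    refine continuous_of_continuousAt_zero L ?_
    rw [ContinuousAt, map_zero]
    refine squeeze_zero_norm (a := fun F => c * q F) (fun F => ?_) ?_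
    · exact le_of_tendsto' (hΦ F).norm fun k => (h F η hη η hη _ (u1 k)).1.trans
        (mul_le_mul_of_nonneg_left (q3 F) c0)
    · simpa [q2] using (q1.tendsto 0).const_mul c
  refine ⟨⟨L, Lc⟩, fun F => ⟨c * p m F, fun a F' hF η' hη' t ht => ?_⟩⟩
  rw [← p_tr m hF]
  refine le_of_tendsto ((hΦ F').const_sub (J ψ F' (t • η'))).norm ?_
  filter_upwards [u2.eventually_le_const ht.1] with k hk
  exact (h F' η' hη' η hη t ht).2 _ ⟨(u1 k).1, hk⟩

end Pool.Agent.Lib.MP_7f377f_mp.Wm
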