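import Pool.Agent.Lib.MP_7f377f_mp.YM11Defs

/-! The Garding-Wightman axioms for one hermitian scalar field on Minkowski space. -/

noncomputable section

namespace Pool.Agent.Lib.MP_7f377f_mp.YM7

open MeasureTheory Filter Topology Complex

/-- real matrices -/
abbrev Mat : Type := Matrix (Fin 4) (Fin 4) ℝ

/-- complex Minkowski space -/
abbrev C4 : Type := Fin 4 → ℂ

/-- Schwartz test functions on Minkowski space -/
abbrev _root_.Pool.Agent.Lib.MP_7f377f_mp.Tf : Type := SchwartzMap R4 ℂ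

/-- the Minkowski product -/
def mink (x y : R4) : ℝ := x 0 * y 0 - x 1 * y 1 - x 2 * y 2 - x 3 * y 3

/-- matrices act on vectors -/
def act (L : Mat) (x : R4) : R4 := WithLp.toLp 2 (L.mulVec x)

/-- proper orthochronous Lorentz matrices -/
def Lor (L : Mat) : Prop := (∀ x y, mink (act L x) (act L y) = mink x y) ∧ L.det = 1 ∧ 0 < L 0 0

/-- the imaginary part -/
def imv (z : C4) : R4 := WithLp.toLp 2 fun μ => (z μ).im

/-- the forward tube: the imaginary parts of the differences lie in the open forward cone -/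
def Tube (n : ℕ) : Set (Fin n → C4) := {z | ∀ i j, i < j →
  0 < imv (z j - z i) 0 ∧ 0 < mink (imv (z j - z i)) (imv (z j - z i))}

variable {H : Type} [NormedAddCommGroup H] [InnerProductSpace ℂ H]

/-- the Garding-Wightman axioms -/
def Wight (U : R4 → Mat → H →L[ℂ] H) (D : Submodule ℂ H) (Ω : D)
    (φ : Tf →ₗ[ℂ] Module.End ℂ D) : Prop :=
  (∀ a L, Lor L → Function.Surjective (U a L) ∧ (∀ x, ‖U a L x‖ = ‖x‖) ∧
    ∀ b M, Lor M → U a L * U b M = U (a + act L b) (L * M)) ∧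
  (∀ x, ContinuousOn (fun p : R4 × Mat => U p.1 p.2 x) {p | Lor p.2}) ∧
  (∀ x, ∃ μ : Measure R4, IsFiniteMeasure μ ∧ (∀ᵐ p ∂μ, 0 ≤ p 0 ∧ 0 ≤ mink p p) ∧
    ∀ a, inner ℂ x (U a 1 x) = ∫ p, exp (I * mink a p) ∂μ) ∧
  ‖Ω‖ = 1 ∧ (∀ a L, Lor L → U a L Ω = Ω) ∧
  (∀ x, (∀ a, U a 1 x = x) → ∃ c : ℂ, x = c • Ω) ∧
  Dense (Submodule.span ℂ (Set.range fun l : List Tf => ((l.map φ).prod Ω : H)) : Set H) ∧
  (∀ x y : D, (Continuous fun f => inner ℂ x (φ f y)) ∧ ∀ f g : Tf,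
    (∀ u, g u = starRingEnd ℂ (f u)) → inner ℂ x (φ f y) = inner ℂ (φ g x) y) ∧
  (∀ a L, Lor L → ∀ x : D, ∃ y : D, U a L x = y ∧ ∀ f g : Tf,
    (∀ u, g (a + act L u) = f u) → U a L (φ f x) = φ g y) ∧
  ∀ f g : Tf, (∀ x ∈ tsupport f, ∀ y ∈ tsupport g, mink (x - y) (x - y) < 0) →
    φ f * φ g = φ g * φ f

/-- the Schwinger functions and the vacuum expectation values of the field are the values at
imaginary times and the boundary values of the same holomorphic functions -/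
def Wick (W : Fp → ℂ) {D : Submodule ℂ H} (Ω : D) (φ : Tf →ₗ[ℂ] Module.End ℂ D) : Prop :=
  ∀ n, ∃ w : (Fin n → C4) → ℂ, DifferentiableOn ℂ w (Tube n) ∧
    (∀ f : Fin n → R4 → ℝ, Adm f →
      (∀ i j, i < j → ∀ x ∈ tsupport (f i), ∀ y ∈ tsupport (f j), x 0 < y 0) →
      W (fld f) = ∫ y : Fin n → R4,
        (∏ i, (f i (y i) : ℂ)) * w fun i μ => if μ = 0 then I * y i μ else y i μ) ∧
    ∀ (f : Fin n → Tf) (G : ℝ → (Fin n → R4) → ℂ),
      (∀ ε x, G ε x = (∏ i, f i (x i)) * w fun i μ => x i μ + if μ = 0 then I * ε * (i : ℕ) else 0) →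
      (∀ ε > 0, Integrable (G ε)) ∧ Tendsto (fun ε => ∫ x, G ε x) (𝓝[>] 0)
        (𝓝 (inner ℂ Ω ((List.ofFn fun i => φ (f i)).prod Ω)))

end Pool.Agent.Lib.MP_7f377f_mp.YM7
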