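import Pool.Agent.Lib.MP_7f377f_mp.WmMain
import Pool.Agent.Lib.MP_7f377f_mp.WAx

/-! Stage 14: the unbundled form of the axioms. -/

noncomputable section

namespace Pool.Agent.Lib.MP_7f377f_mp.Wm

open MeasureTheory Filter Topology Set Complex YM7

theorem tube_eq (n : ℕ) : WA.Tube n = Tube n := Set.ext fun z =>
  ⟨fun h i j e => h i j e _ fun _ => rfl, fun h i j e _ hy =>
    (show imv (z j - z i) = _ from PiLp.ext fun μ => (hy μ).symm) ▸ h i j e⟩

theorem fin_of {K : Type} [NormedAddCommGroup K] [InnerProductSpace ℂ K] {W : Fp → ℂ}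
    {U : R4 → Mat → K →L[ℂ] K} {D : Submodule ℂ K} {Ω : D} {φ : Tf →ₗ[ℂ] Module.End ℂ D}
    (h : Wight U D Ω φ) (hw : Wick W Ω φ) (hn : ∃ t x, U (EuclideanSpace.single 0 t) 1 x ≠ x) :
    ∃ ph, WA.Poin U Ω ∧ WA.Wfield U Ω D ph ∧
      WA.Wrot (fun _ => Adm) (fun _ f => W (fld f)) (Ω : K) ph := by
  classical
  obtain ⟨h1, h2, h3, h4, h5, h6, h7, h8, h9, h10⟩ := h
  obtain ⟨ph, hp⟩ : ∃ ph : Tf → K → K, ∀ f (x : D), ph f x = φ f x :=
    ⟨fun f x => if h : x ∈ D then φ f ⟨x, h⟩ else 0, fun f x => dif_pos x.2⟩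
  have hl : ∀ l : List Tf, l.foldr ph Ω = ((l.map φ).prod Ω : D) := fun l => by
    induction l with
    | nil => rfl
    | cons f l ih => rw [List.foldr_cons, ih, hp]; rfl
  refine ⟨ph, ⟨fun a L hL => ⟨(h1 a L hL).1, (h1 a L hL).2.1, h5 a L hL,
    fun b M x hM => DFunLike.congr_fun ((h1 a L hL).2.2 b M hM) x⟩, fun x => ⟨h2 x, h3 x⟩, h4, h6,
    hn⟩, ⟨Ω.2, by simpa only [hl] using h7, fun x hx => ?_⟩, fun n => ?_⟩
  · lift x to D using hx
    refine ⟨fun f => hp f x ▸ (φ f x).2, fun c f g => by simp [hp], fun y hy => ?_,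
      fun a L hL => ?_, fun f g e => ?_⟩
    · lift y to D using hy
      refine ⟨fun c f => ?_, by simp only [hp]; exact (h8 y x).1,
        fun f g e => by simp only [hp]; exact (h8 y x).2 f g e⟩
      rw [← Submodule.coe_smul, ← Submodule.coe_add, hp, hp, hp]
      simp
    · obtain ⟨y, e1, e2⟩ := h9 a L hL x
      exact ⟨e1 ▸ y.2, fun f g e => by rw [e1, hp, hp, e2 f g e]⟩
    · simp only [hp]
      exact congrArg _ (DFunLike.congr_fun (h10 f g e) x)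
  · obtain ⟨w, w1, w2, w3⟩ := hw n
    refine ⟨w, tube_eq n ▸ w1, w2, fun f G hG => ⟨(w3 f G hG).1, ?_⟩⟩
    rw [hl, List.map_ofFn]
    exact (w3 f G hG).2

end Pool.Agent.Lib.MP_7f377f_mp.Wm
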