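import Pool.Agent.Lib.MP_7f377f_mp.WmG1

/-! Stage 14: locality, the geometry of one complex rotation. -/

noncomputable section

namespace Pool.Agent.Lib.MP_7f377f_mp.Wm.L1

open MeasureTheory Filter Topology Set Complex YM7 Matrix

variable {m n : ℕ} {u : R4}

/-- the complex rotation -/
def q (u : R4) (z : C4) : C4 := wick (Rm u (Real.pi / 2)) *ᵥ z

theorem q_add (z z' : C4) : q u (z + z') = q u z + q u z' := mulVec_add _ _ _

theorem q_sub (z z' : C4) : q u (z - z') = q u z - q u z' := mulVec_sub _ _ _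

@[fun_prop] theorem continuous_q : Continuous (q u) :=
  continuous_const.matrix_mulVec continuous_id

theorem imv_q_euc (h : Un u) (y : R4) : imv (q u (euc y)) = inner ℝ u y • e0 := by
  rw [q, wick_euc, imv_euc, Rm_zero_apply h]
  simp

theorem imv_q_ie (h : Un u) (t : ℝ) : imv (q u (ie t)) = 0 := by
  rw [ie, imv_q_euc h, inner_smul_right, inner_e0, h.1, mul_zero, zero_smul]

theorem imv_q_rl (h : Un u) (x : R4) : imv (q u (rl x)) = inner ℝ u x • e0 + x 0 • u := by
  ext μ
  fin_cases μ <;>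
    simp [q, wick, Rm, mulVec, dotProduct, Fin.sum_univ_four, h.1, e0, rl, inner_eq, mul_comm]

theorem mg_q_rl (h : Un u) (x : R4) : mg (imv (q u (rl x))) = inner ℝ u x - |x 0| := by
  have : sp u = u := by simp [sp, h.1]
  rw [imv_q_rl h, add_comm, mg_add_e0, mg, sp_smul, this, norm_smul, h.2]
  simp [h.1]
  ring

theorem q_star (h : Un u) (z : C4) : q u (star z) = star (q (-u) z) := by
  ext μ
  fin_cases μ <;> simp [q, wick, Rm, mulVec, dotProduct, Fin.sum_univ_four, h.1, e0]

theorem un_neg (h : Un u) : Un (-u) := ⟨by simp [h.1], by simp [h.2]⟩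

/-- a point with a small imaginary time -/
def pt (x : R4) (s : ℝ) : C4 := rl x + ie s

theorem pt_cx (x : R4) (s : ℝ) : pt x s = cx x (s • e0) := by
  rw [pt, ie_eq, ← cx_zero, ← cx_add, add_zero, zero_add]

@[simp] theorem imv_pt (x : R4) (s : ℝ) : imv (pt x s) = s • e0 := by rw [pt_cx, imv_cx]

@[fun_prop] theorem continuous_pt {Y : Type*} [TopologicalSpace Y] {f : Y → R4} {g : Y → ℝ}
    (hf : Continuous f) (hg : Continuous g) : Continuous fun y => pt (f y) (g y) := by
  simp only [pt_cx]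
  fun_prop

theorem imv_q_pt (h : Un u) (x : R4) (s : ℝ) : imv (q u (pt x s)) = imv (q u (rl x)) := by
  rw [pt, q_add, imv_add, imv_q_ie h, add_zero]

/-- points ordered in time and along `u` -/
def O (u : R4) (R : ℝ) (m : ℕ) : Set (Fin m → C4) :=
  FT m ∩ (fun a i => q u (a i) - ie R) ⁻¹' FT m

theorem isOpen_O (R : ℝ) : IsOpen (O u R m) :=
  (isOpen_FT m).inter ((isOpen_FT m).preimage (by fun_prop))

theorem mem_std {a : Fin m → C4} (h : ∀ i, imv (a i) = (((i : ℕ) : ℝ) + 1) • e0) : a ∈ FT m := by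
  have := G1.mem_ft.1 (G1.dir_ne m)
  exact ⟨fun i => show 0 < mg _ from h i ▸ this.1 i,
    fun i j e => show 0 < mg _ by rw [imv_sub, h, h]; exact this.2 i j e⟩

theorem O_ne (h : Un u) (R : ℝ) : (O u R m).Nonempty := by
  refine ⟨fun i => euc ((((i : ℕ) : ℝ) + 1) • e0 + (((i : ℕ) : ℝ) + 1 + R) • u),
    mem_std fun i => by simp [h.1], mem_std fun i => ?_⟩
  rw [imv_sub, imv_q_euc h, imv_ie, ← sub_smul]
  simp [inner_add_right, inner_smul_right, inner_e0, h.1, h.2]

/-- two more points -/
def c2 (p p' : C4) (a : Fin m → C4) : Fin (m + 2) → C4 := Fin.cons p (Fin.cons p' a)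

theorem c2_map (f : C4 → C4) (p p' : C4) (a : Fin m → C4) :
    (fun i => f (c2 p p' a i)) = c2 (f p) (f p') fun i => f (a i) := by
  ext1 i
  induction i using Fin.cases with
  | zero => rfl
  | succ i => induction i using Fin.cases <;> rfl

theorem c2_mem {p p' : C4} {a : Fin m → C4} (h : p ∈ TO) (h' : p' - p ∈ TO)
    (ha : (fun i => a i - p') ∈ FT m) : c2 p p' a ∈ FT (m + 2) := by
  refine cons_mem.2 ⟨h, ?_⟩
  have : (fun i => (Fin.cons p' a : Fin (m + 1) → C4) i - p) = Fin.cons (p' - p) fun i => a i - p := by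
    ext1 i
    induction i using Fin.cases <;> rfl
  rw [this]
  exact cons_mem.2 ⟨h', by simpa using ha⟩

theorem tube_q (h : Un u) {R : ℝ} {a : Fin m → C4} {b : Fin n → C4} (ha : a ∈ O u R m)
    (hb : b ∈ O (-u) R n) {x y : R4} (hx : 2 * ‖imv (q u (rl x))‖ < R)
    (hy : 2 * ‖imv (q u (rl y))‖ < R) (hxy : |y 0 - x 0| < inner ℝ (y - x) u) (s t : ℝ) :
    (fun i => q u (glue b (c2 (pt x s) (pt y t) a) i)) ∈ Tube (n + (m + 2)) := by
  have h1 : c2 (q u (pt x s) + ie R) (q u (pt y t) + ie R) (fun i => q u (a i) + ie R) ∈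
      FT (m + 2) := by
    refine c2_mem ?_ ?_ ?_
    · change 0 < mg _
      rw [imv_add, imv_ie, mg_add_e0, imv_q_pt h]
      linarith [le_mg (imv (q u (rl x)))]
    · change 0 < mg _
      rw [add_sub_add_right_eq_sub, imv_sub, imv_q_pt h, imv_q_pt h, ← imv_sub, ← q_sub, ← rl_sub,
        mg_q_rl h, real_inner_comm]
      exact sub_pos.2 hxy
    · have : ie R - q u (pt y t) ∈ TV 0 := by
        change 0 ≤ mg _
        rw [imv_sub, imv_ie, imv_q_pt h, sub_eq_neg_add, mg_add_e0]
        linarith [le_mg (-imv (q u (rl y))), norm_neg (imv (q u (rl y)))]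
      simpa using FT.add ha.2 this
  have h2 := mem_tube.1 (G1.glue_mem hb.2 h1)
  rw [← c2_map (fun z => q u z + ie R)] at h2
  have e : ∀ i, glue (fun i => q (-u) (b i) - ie R) (fun i => q u (c2 (pt x s) (pt y t) a i) + ie R) i =
      q u (glue b (c2 (pt x s) (pt y t) a) i) + ie R := fun i => by
    induction i using Fin.addCases <;>
      simp only [glue, Fin.append_left, Fin.append_right, star_sub, star_ie, q_star h,
        sub_neg_eq_add]
  exact mem_tube.2 fun i j e' => by simpa only [e, add_sub_add_right_eq_sub] using h2 i j e'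

variable {w : ∀ n, (Fin n → C4) → ℂ}

theorem e1q (hE : E1c w) (h : Un u) (σ : Equiv.Perm (Fin n)) {z : Fin n → C4}
    (h1 : (fun i => z (σ i)) ∈ Tube n) (h2 : (fun i => q u (z i)) ∈ Tube n) :
    w n (fun i => z (σ i)) = w n fun i => q u (z i) := by
  refine hE n _ σ (fun i => ((σ.symm i : ℕ) : ℝ) • e0 + ((i : ℕ) : ℝ) • u) (so_Rm h _)
    (fun i j e => ?_) (fun i j e => ?_) z h1 h2
  · simpa [h.1] using e
  · simpa [Rm_zero_apply h, inner_add_right, inner_smul_right, inner_e0, h.1, h.2] using e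

theorem glue_swap (b : Fin n → C4) (p p' : C4) (a : Fin m → C4) :
    (fun i => glue b (c2 p p' a) (Equiv.swap (Fin.natAdd n 0) (Fin.natAdd n 1) i)) =
      glue b (c2 p' p a) := by
  ext1 i
  induction i using Fin.addCases with
  | left i =>
    have : ∀ j : Fin (m + 2), Fin.castAdd (m + 2) i ≠ Fin.natAdd n j := fun j e => by
      have := congrArg Fin.val e
      have := i.2
      simp only [Fin.val_castAdd, Fin.val_natAdd] at *
      omega
    rw [Equiv.swap_apply_of_ne_of_ne (this _) (this _)]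
    simp only [glue, Fin.append_left]
  | right i =>
    rw [← (Fin.natAdd_injective _ _).map_swap]
    simp only [glue, Fin.append_right]
    induction i using Fin.cases with
    | zero => rfl
    | succ i =>
      induction i using Fin.cases with
      | zero => rfl
      | succ i => rw [Equiv.swap_apply_of_ne_of_ne (Fin.succ_ne_zero _) (Fin.succ_succ_ne_one _)]; rfl

end Pool.Agent.Lib.MP_7f377f_mp.Wm.L1
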