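import Pool.Agent.Lib.MP_7f377f_mp.WmL1a
import Pool.Agent.Lib.MP_7f377f_mp.WmPhi

/-! Stage 14: locality, boundary values in two points. -/

noncomputable section

namespace Pool.Agent.Lib.MP_7f377f_mp.Wm.L1

open MeasureTheory Filter Topology Set Complex YM7

variable {m n : ℕ} {δ s : ℝ}

/-- splitting off the first point -/
def ce (n : ℕ) : R4 × (Fin n → R4) ≃ᵐ (Fin (n + 1) → R4) :=
  (MeasurableEquiv.piFinSuccAbove (fun _ => R4) 0).symm

theorem ce_apply (x : R4) (y : Fin n → R4) : ce n (x, y) = Fin.cons x y := Fin.insertNth_zero' _ _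

theorem mp_ce : MeasurePreserving (ce n) := (volume_preserving_piFinSuccAbove _ 0).symm

theorem int2 (G : (Fin (n + 2) → R4) → ℂ) : ∫ x, G x =
    ∫ r : (R4 × R4) × (Fin n → R4), G (Fin.cons r.1.2 (Fin.cons r.1.1 r.2)) := by
  have h := (mp_ce.comp ((MeasurePreserving.id volume).prod (mp_ce (n := n)))).comp
    (volume_preserving_prodAssoc.comp
      ((Measure.measurePreserving_swap (μ := volume) (ν := volume)).prod (.id volume)))
  rw [← h.integral_comp ((((MeasurableEquiv.prodComm.prodCongr (.refl _)).trans .prodAssoc).trans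
    ((MeasurableEquiv.refl _).prodCongr (ce n))).trans (ce (n + 1))).measurableEmbedding]
  simp only [← ce_apply]
  rfl

theorem cons_memd {p : C4} {z : Fin n → C4} (hp : p ∈ TV δ) (h : ∀ i, z i - p ∈ TV δ)
    (hz : z ∈ FTd n δ) : (Fin.cons p z : Fin (n + 1) → C4) ∈ FTd (n + 1) δ := by
  refine ⟨fun i => ?_, fun i j e => ?_⟩
  · induction i using Fin.cases with
    | zero => exact hp
    | succ i => exact hz.1 i
  · induction j using Fin.cases with
    | zero => exact absurd e (Fin.not_lt_zero _)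
    | succ j =>
      induction i using Fin.cases with
      | zero => exact h j
      | succ i => exact hz.2 i j (Fin.succ_lt_succ_iff.1 e)

theorem pt_mem (x : R4) (t : ℝ) : pt x t ∈ TV t := by simp [TV]

theorem sub_pt {z : C4} (h : z ∈ TV δ) (x : R4) (t : ℝ) : z - pt x t ∈ TV (δ - t) := by
  simpa [TV, imv_sub] using sub_ie_mem (t := t) h

theorem c2_memd {a : Fin m → C4} (ha : a ∈ FTd m δ) (s0 : 0 < s) (hs : 6 * s ≤ δ) (x y : R4) :
    c2 (pt x (2 * s)) (pt y (4 * s)) a ∈ FTd (m + 2) (2 * s) := by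
  refine cons_memd (pt_mem _ _) (fun i => ?_) (cons_memd (TV.mono (by linarith) (pt_mem _ _))
    (fun i => TV.mono (by linarith) (sub_pt (ha.1 i) _ _)) (FTd.mono (by linarith) ha))
  induction i using Fin.cases with
  | zero => exact TV.mono (by linarith) (sub_pt (pt_mem y (4 * s)) _ _)
  | succ i => exact TV.mono (by linarith) (sub_pt (ha.1 i) _ _)

theorem diff_c2 (a : Fin m → C4) : Differentiable ℂ fun z : Fin 2 → C4 => c2 (z 0) (z 1) a := by
  refine differentiable_pi.2 fun i => ?_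
  induction i using Fin.cases with
  | zero => exact differentiable_apply 0
  | succ i =>
    induction i using Fin.cases with
    | zero => exact differentiable_apply 1
    | succ i => exact differentiable_const (a i)

@[fun_prop] theorem continuous_c2 {Y : Type*} [TopologicalSpace Y] {f g : Y → C4} (a : Fin m → C4)
    (hf : Continuous f) (hg : Continuous g) : Continuous fun y => c2 (f y) (g y) a :=
  hf.finCons (hg.finCons continuous_const)

variable {H : Type} [NormedAddCommGroup H] [InnerProductSpace ℂ H] [CompleteSpace H]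
  {E : C4 → H →L[ℂ] H} {Ω : H} {ψ : ∀ n, (Fin n → C4) → H} {w : ∀ n, (Fin n → C4) → ℂ}
  {Φ : ∀ n, Sw n →L[ℂ] H}

/-- two smeared fields on a vector -/
def X (ψ : ∀ n, (Fin n → C4) → H) (a : Fin m → C4) (f g : Tf) (s : ℝ) : H :=
  ∫ p : R4 × R4, (f p.1 * g p.2) • ψ (m + 2) (c2 (pt p.1 (2 * s)) (pt p.2 (4 * s)) a)

omit [CompleteSpace H] in
theorem X_int (V : Vec E Ω ψ w) {a : Fin m → C4} (ha : a ∈ FTd m δ) (s0 : 0 < s) (hs : 6 * s ≤ δ)
    (d : δ ≤ 1) (f g : Tf) : Integrable fun p : R4 × R4 =>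
      (f p.1 * g p.2) • ψ (m + 2) (c2 (pt p.1 (2 * s)) (pt p.2 (4 * s)) a) := by
  obtain ⟨C, N, -, hC⟩ := V.bd (m + 2)
  refine (f.integrable.mul_prod g.integrable).smul_of_top_left (memLp_top_of_bound
    (Continuous.aestronglyMeasurable ?_) _ (.of_forall fun p =>
      hC _ ⟨by linarith, by linarith⟩ _ (c2_memd ha s0 hs _ _)))
  exact (V.hol _).continuousOn.comp_continuous (by fun_prop) fun p =>
    FTd.ft (by linarith) (c2_memd ha s0 hs _ _)

theorem X_lim (h : S_BV) (V : Vec E Ω ψ w) {a : Fin m → C4} (ha : a ∈ FT m) (f g : Tf) :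
    ∃ ξ, Tendsto (X ψ a f g) (𝓝[>] 0) (𝓝 ξ) := by
  obtain ⟨δ, d, hd⟩ := FT.exists ha
  obtain ⟨C, N, -, hC⟩ := V.bd (m + 2)
  have d0 := d.1
  have e : ∀ (x : Fin 2 → R4) (t : ℝ), c2 (cxn x (t • ![(δ / 3) • e0, (2 * δ / 3) • e0]) 0)
      (cxn x (t • ![(δ / 3) • e0, (2 * δ / 3) • e0]) 1) a =
      c2 (pt (x 0) (2 * (t * δ / 6))) (pt (x 1) (4 * (t * δ / 6))) a := fun x t => by
    simp only [cxn, pt_cx, Pi.smul_apply, Matrix.cons_val_zero, Matrix.cons_val_one, smul_smul]
    congr 3 <;> ring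
  obtain ⟨Ξ, hΞ⟩ := h 2 N H (fun z => ψ (m + 2) (c2 (z 0) (z 1) a))
    ((fun z => c2 (z 0) (z 1) a) ⁻¹' FT (m + 2)) {![(δ / 3) • e0, (2 * δ / 3) • e0]}
    (C / (δ / 3) ^ N) ((isOpen_FT _).preimage (diff_c2 a).continuous)
    ((V.hol _).comp (diff_c2 a).differentiableOn fun _ h => h) (convex_singleton _)
    (singleton_nonempty _) Bornology.isBounded_singleton (by
      rintro x t ht _ rfl
      have h0 : 0 < t * δ / 6 := by have := ht.1; positivity
      have h1 : 6 * (t * δ / 6) ≤ δ := by nlinarith [ht.2]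
      have h2 := c2_memd hd h0 h1 (x 0) (x 1)
      rw [mem_preimage, e]
      refine ⟨FTd.ft (by linarith) h2, (hC _ ⟨by linarith, by linarith [d.2]⟩ _ h2).trans_eq ?_⟩
      rw [div_div, ← mul_pow]
      congr 2
      ring)
  obtain ⟨B, hB⟩ := hΞ (cs f (cs g one0))
  refine ⟨Ξ (cs f (cs g one0)), tendsto_iff_norm_sub_tendsto_zero.2 (squeeze_zero'
    (g := fun s => B * (6 * s / δ)) (.of_forall fun _ => norm_nonneg _) ?_
    (tendsto_nhdsWithin_of_tendsto_nhds (Continuous.tendsto' (by fun_prop) _ _ (by simp))))⟩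
  filter_upwards [Ioc_mem_nhdsGT (show 0 < δ / 6 by positivity)] with s hs
  have h1 := hB 0 _ (fun x => by rw [sub_zero]) _ rfl (6 * s / δ)
    ⟨by have := hs.1; positivity, by rw [div_le_one d0]; linarith [hs.2]⟩
  rw [← (volume_preserving_finTwoArrow R4).symm.integral_comp'] at h1
  simp only [e, show 6 * s / δ * δ / 6 = s by field_simp] at h1
  simpa [X, Fin.tail] using h1

end Pool.Agent.Lib.MP_7f377f_mp.Wm.L1
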