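import Pool.Agent.Lib.MP_7f377f_mp.YM11Defs

/-! Schwinger distributions and the Osterwalder-Schrader axioms. -/

noncomputable section

namespace Pool.Agent.Lib.MP_7f377f_mp.YM7

open Filter Topology Finset
open scoped Nat ComplexOrder

/-- Schwartz functions of `n` points of Euclidean space -/
abbrev Sw (n : ℕ) : Type := SchwartzMap (Fin n → R4) ℂ

variable {n m : ℕ}

/-- `F` vanishes with all derivatives when two points coincide -/
def Off (F : Sw n) : Prop := ∀ x : Fin n → R4, ¬x.Injective → ∀ l, iteratedFDeriv ℝ l F x = 0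

/-- `F` vanishes with all derivatives when two points coincide or some time is not positive -/
def Fw (F : Sw n) : Prop :=
  ∀ x : Fin n → R4, ¬(x.Injective ∧ ∀ i, 0 < x i 0) → ∀ l, iteratedFDeriv ℝ l F x = 0

/-- the largest of the norms `sup ‖x‖ ^ k * ‖D ^ l F x‖`, `k, l ≤ s` -/
def nrm (s : ℕ) (F : Sw n) : ℝ := (Iic (s, s)).sup (schwartzSeminormFamily ℂ _ _) F

theorem le_nrm {s k l : ℕ} (hk : k ≤ s) (hl : l ≤ s) (F : Sw n) (x : Fin n → R4) :
    ‖x‖ ^ k * ‖iteratedFDeriv ℝ l F x‖ ≤ nrm s F :=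
  (F.le_seminorm ℂ k l x).trans (Seminorm.le_finset_sup_apply (p := schwartzSeminormFamily ℂ _ _)
    (i := (k, l)) (mem_Iic.2 ⟨hk, hl⟩))

theorem nrm_nonneg (s : ℕ) (F : Sw n) : 0 ≤ nrm s F := apply_nonneg _ _

theorem norm_comp_le (e : Fin n → Fin m) (F : Sw n) (l : ℕ) (x : Fin m → R4) :
    ‖iteratedFDeriv ℝ l (fun y : Fin m → R4 => F fun i => y (e i)) x‖ ≤
      ‖iteratedFDeriv ℝ l F fun i => x (e i)‖ := by
  let p : (Fin m → R4) →L[ℝ] Fin n → R4 := .pi fun i => .proj (e i)
  have : ‖p‖ ≤ 1 := p.opNorm_le_bound zero_le_one fun y => by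
    rw [one_mul]
    exact (pi_norm_le_iff_of_nonneg (norm_nonneg _)).2 fun i => norm_le_pi_norm y _
  refine (congrArg _ (p.iteratedFDeriv_comp_right (F.smooth l) x le_rfl)).trans_le
    ((ContinuousMultilinearMap.norm_compContinuousLinearMap_le _ _).trans ?_)
  exact mul_le_of_le_one_right (norm_nonneg _) (prod_le_one (fun _ _ => norm_nonneg _) fun _ _ => this)

theorem tens_le {s k l : ℕ} (hk : k ≤ s) (hl : l ≤ s) (F : Sw n) (G : Sw m) (x : Fin (n + m) → R4) :
    ‖x‖ ^ k * ‖iteratedFDeriv ℝ l (fun y : Fin (n + m) → R4 =>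
      F (fun i => y (i.castAdd m)) * G fun j => y (j.natAdd n)) x‖ ≤ 2 ^ s * (nrm s F * nrm s G) := by
  have a := norm_iteratedFDeriv_mul_le (𝕜 := ℝ) (N := l)
    (f := fun y : Fin (n + m) → R4 => F fun i => y (i.castAdd m))
    (g := fun y : Fin (n + m) → R4 => G fun j => y (j.natAdd n))
    ((F.smooth l).comp (by fun_prop)) ((G.smooth l).comp (by fun_prop)) x le_rfl
  refine (mul_le_mul_of_nonneg_left a (by positivity)).trans ?_
  have b : ∀ i ∈ range (l + 1), ‖x‖ ^ k * (‖iteratedFDeriv ℝ i F fun i => x (i.castAdd m)‖ *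
      ‖iteratedFDeriv ℝ (l - i) G fun j => x (j.natAdd n)‖) ≤ nrm s F * nrm s G := fun i hi => by
    have h1 : i ≤ s := by have := mem_range.1 hi; omega
    have h2 : l - i ≤ s := by omega
    rcases le_total ‖fun i : Fin n => x (i.castAdd m)‖ ‖fun j : Fin m => x (j.natAdd n)‖ with c | c
    · have d : ‖x‖ ≤ ‖fun j : Fin m => x (j.natAdd n)‖ :=
        (pi_norm_le_iff_of_nonneg (norm_nonneg _)).2 fun i => Fin.addCases
          (fun i => (norm_le_pi_norm (fun i : Fin n => x (i.castAdd m)) i).trans c)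
          (norm_le_pi_norm fun j : Fin m => x (j.natAdd n)) i
      rw [mul_left_comm]
      exact mul_le_mul (by simpa using le_nrm (Nat.zero_le s) h1 F _)
        (le_trans (by gcongr) (le_nrm hk h2 G _)) (by positivity) (nrm_nonneg _ _)
    · have d : ‖x‖ ≤ ‖fun i : Fin n => x (i.castAdd m)‖ :=
        (pi_norm_le_iff_of_nonneg (norm_nonneg _)).2 fun i => Fin.addCases
          (norm_le_pi_norm fun i : Fin n => x (i.castAdd m))
          (fun j => (norm_le_pi_norm (fun j : Fin m => x (j.natAdd n)) j).trans c) i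
      rw [← mul_assoc]
      exact mul_le_mul (le_trans (by gcongr) (le_nrm hk h1 F _))
        (by simpa using le_nrm (Nat.zero_le s) h2 G _) (by positivity) (nrm_nonneg _ _)
  calc _ ≤ ∑ i ∈ range (l + 1), (l.choose i : ℝ) * (nrm s F * nrm s G) := by
        rw [mul_sum]
        refine sum_le_sum fun i hi => ?_
        rw [mul_assoc, mul_left_comm]
        refine mul_le_mul_of_nonneg_left (le_trans ?_ (b i hi)) (by positivity)
        gcongr <;> exact norm_comp_le _ _ _ _
    _ ≤ _ := by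
        rw [← sum_mul, ← Nat.cast_sum, Nat.sum_range_choose]
        have := nrm_nonneg s F
        have := nrm_nonneg s G
        push_cast
        gcongr
        norm_num

/-- the tensor product `F (x_1 .. x_n) * G (x_(n+1) .. x_(n+m))` -/
def tens (F : Sw n) (G : Sw m) : Sw (n + m) where
  toFun y := F (fun i => y (i.castAdd m)) * G fun j => y (j.natAdd n)
  smooth' := (F.smooth'.comp (by fun_prop)).mul (G.smooth'.comp (by fun_prop))
  decay' k l := ⟨_, tens_le (le_max_left k l) (le_max_right k l) F G⟩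

/-- time reflection of all points, in reversed order -/
def trev (n : ℕ) : (Fin n → R4) ≃L[ℝ] Fin n → R4 := LinearEquiv.toContinuousLinearEquiv
  (.ofInvolutive ⟨⟨fun x i => WithLp.toLp 2 (Function.update (x i.rev) 0 (-x i.rev 0)),
    fun x y => by ext i l; by_cases h : l = 0 <;> simp [h, add_comm]⟩,
    fun c x => by ext i l; by_cases h : l = 0 <;> simp [h]⟩ fun x => by ext i l; simp)

/-- `conj F (θ x_n, .., θ x_1)` -/
def adj (F : Sw n) : Sw n := SchwartzMap.postcompCLM (𝕜 := ℝ) Complex.conjCLE.toContinuousLinearMap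
  (SchwartzMap.compCLMOfContinuousLinearEquiv ℝ (trev n) F)

/-- translation of all points -/
def mv (v : R4) (F : Sw n) : Sw n := F.compSubConstCLM ℂ fun _ => v

/-- the Osterwalder-Schrader axioms: linear growth, invariance under the motions in `G`, symmetry,
reflection positivity, clustering in the directions in `D` -/
def OSax (G : Set (R4 → R4)) (D : Set R4) (S : ∀ n, Sw n →L[ℂ] ℂ) : Prop :=
  (∀ F, S 0 F = F 0) ∧
  (∃ (α : ℝ) (β s : ℕ), ∀ n F, ‖S n F‖ ≤ α * n ! ^ β * nrm (n * s) F) ∧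
  (∀ n (F F' : Sw n), Off F → (∀ g ∈ G, (∀ x, F' x = F (g ∘ x)) → S n F' = S n F) ∧
    ∀ σ : Equiv.Perm (Fin n), (∀ x, F' x = F (x ∘ σ)) → S n F' = S n F) ∧
  (∀ N (F : ∀ n, Sw n), (∀ n, Fw (F n)) →
    0 ≤ ∑ n ∈ range N, ∑ m ∈ range N, S _ (tens (adj (F n)) (F m))) ∧
  ∀ n m (F : Sw n) (E : Sw m), Fw F → Fw E → ∀ a ∈ D,
    Tendsto (fun t : ℝ => S _ (tens (adj F) (mv (t • a) E))) atTop (𝓝 (S n (adj F) * S m E))

end Pool.Agent.Lib.MP_7f377f_mp.YM7
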