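import Mathlib

/-! Schwinger distributions and the Osterwalder-Schrader axioms. -/

noncomputable section

namespace Pool.Agent.Lib.MP_7f377f_mp.YM7

open Filter Topology Finset
open scoped Nat ComplexOrder ContDiff

variable {E : Type} [NormedAddCommGroup E] [NormedSpace ℝ E] {n m : ℕ}

/-- Schwartz functions of `n` points all of whose derivatives vanish outside `A` -/
def Van (A : Set (Fin n → E)) (F : (Fin n → E) → ℂ) : Prop :=
  (∃ G : SchwartzMap (Fin n → E) ℂ, ⇑G = F) ∧ ∀ x ∉ A, ∀ q, ‖iteratedFDeriv ℝ q F x‖ = 0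

/-- `T` is linear on Schwartz functions and bounded by `c` times the Schwartz norm of order `s` -/
def Temp (s : ℕ) (c : ℝ) (T : ((Fin n → E) → ℂ) → ℂ) : Prop := ∀ F, Van Set.univ F →
  (∀ a G, Van Set.univ G → T (fun x => a * F x + G x) = a * T F + T G) ∧
    ∀ M, (∀ p ≤ s, ∀ q ≤ s, ∀ x, ‖x‖ ^ p * ‖iteratedFDeriv ℝ q F x‖ ≤ M) → ‖T F‖ ≤ c * M

/-- `conj F (θ x_n, .., θ x_1)` -/
def dag (θ : E → E) (F : (Fin n → E) → ℂ) (x : Fin n → E) : ℂ :=
  starRingEnd ℂ (F fun i => θ (x i.rev))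

/-- `F (x_1, .., x_n) * G (x_(n+1) - v, .., x_(n+m) - v)` -/
def otim (v : E) (F : (Fin n → E) → ℂ) (G : (Fin m → E) → ℂ) (x : Fin (n + m) → E) : ℂ :=
  F (fun i => x (i.castAdd m)) * G fun j => x (j.natAdd n) - v

/-- configurations of distinct points with positive times -/
def Fwd (t : E → ℝ) : Set (Fin n → E) := {x | x.Injective ∧ ∀ i, 0 < t (x i)}

/-- the values `w f`, `f` smooth in the class `C`, extend to tempered distributions `T n` with the
Osterwalder-Schrader axioms for the time `t` and the reflection `θ`: linear growth, invariance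
under the motions in `G`, symmetry, reflection positivity, clustering in the directions in `D` -/
def Schwinger (t : E → ℝ) (θ : E → E) (G : Set (E → E)) (D : Set E)
    (C : ∀ n, (Fin n → E → ℝ) → Prop) (w : ∀ n, (Fin n → E → ℝ) → ℂ) : Prop :=
  ∃ T : ∀ n, ((Fin n → E) → ℂ) → ℂ,
    (∀ n f, C n f → (∀ i, ContDiff ℝ ∞ (f i)) → T n (fun x => ∏ i, f i (x i)) = w n f) ∧
    (∀ F, T 0 F = F 0) ∧ (∃ (α : ℝ) (β s : ℕ), ∀ n, Temp (n * s) (α * n ! ^ β) (T n)) ∧
    (∀ n F, Van {x | x.Injective} F → (∀ g ∈ G, T n (fun x => F (g ∘ x)) = T n F) ∧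
      ∀ σ : Equiv.Perm (Fin n), T n (fun x => F (x ∘ σ)) = T n F) ∧
    (∀ N (F : ∀ n, (Fin n → E) → ℂ), (∀ n, Van (Fwd t) (F n)) →
      0 ≤ ∑ n ∈ range N, ∑ m ∈ range N, T _ (otim 0 (dag θ (F n)) (F m))) ∧
    ∀ n m F B, Van (Fwd t) F → Van (Fwd t) B → ∀ a ∈ D, Tendsto
      (fun s : ℝ => T (n + m) (otim (s • a) (dag θ F) B)) atTop (𝓝 (T n (dag θ F) * T m B))

end Pool.Agent.Lib.MP_7f377f_mp.YM7
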