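import Mathlib

/-! `SU(2)` lattice gauge fields on cylinders with two periodic space directions. -/

noncomputable section

namespace Pool.Agent.Lib.MP_7f377f_mp.YH

open MeasureTheory
open scoped Quaternion

/-- the group `SU(2)` of unit quaternions -/
abbrev SU2 : Type := Metric.sphere (0 : ℍ) 1

/-- lattice gauge fields with time in `R` and space in the torus of side `n` -/
abbrev Cfg (R : Type) (n : ℕ) : Type := (R × ZMod n × ZMod n) × Fin 3 → SU2

variable {R : Type} [Ring R] {T n : ℕ}

/-- the unit vectors; direction `0` is time -/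
def un (i : Fin 3) : R × ZMod n × ZMod n := ![(1, 0, 0), (0, 1, 0), (0, 0, 1)] i

/-- holonomy around a plaquette -/
def plaq (U : Cfg R n) (x : R × ZMod n × ZMod n) (i j : Fin 3) : SU2 :=
  U (x, i) * U (x + un i, j) * (U (x + un j, i))⁻¹ * (U (x, j))⁻¹

/-- the Wilson measure with coupling `β` and time period `T` -/
def wilson [MeasurableSpace SU2] (h : Measure SU2) (β : ℝ) (T n : ℕ) [NeZero T] [NeZero n] :
    Measure (Cfg (ZMod T) n) :=
  (Measure.pi fun _ => h).tilted fun U =>
    β * ∑ x, ∑ i, ∑ j, if i < j then 2 * (plaq U x i j).1.re else 0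

/-- periodic extension in time -/
def lift (U : Cfg (ZMod T) n) : Cfg ℤ n := fun e => U ((e.1.1, e.1.2), e.2)

end Pool.Agent.Lib.MP_7f377f_mp.YH
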