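import Pool.Agent.Lib.MP_7f377f_mp.YO

/-! Short distances: asymptotic freedom, the operator product expansion and the stress tensor with
one and the same renormalisation `M` of the fields of dimension four. -/

noncomputable section

namespace Pool.Agent.Lib.MP_7f377f_mp.YF

open MeasureTheory MvPolynomial Filter Topology Complex Matrix Asymptotics
open scoped Kronecker ContDiff

/-- after the covariant renormalisation `M`, which is slower than any power and logarithmic for the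
scalar field, the correlation functions converge to the free ones, and the product of two fields is
a field of dimension four up to a power of the distance, with the free coefficient in the limit -/
def AFM (q : ℝ) (d : ℕ) (W : Fp → ℂ) (M : ℝ → Lab ≃ₗ[ℂ] Lab) : Prop :=
  (∀ t g c, gᵀ * g = 1 → M t (rho g c) = rho g (M t c)) ∧
  (∀ t ∈ Set.Ioo (0 : ℝ) 1, M t 1 = Real.log t⁻¹ • 1) ∧
  (∀ ε > (0 : ℝ), ∀ c, Tendsto (fun t : ℝ => t ^ ε • (M t c, (M t).symm c)) (𝓝[>] 0) (𝓝 0)) ∧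
  (∀ k (c : Fin k → Lab) f, Adm f →
    Tendsto (fun t : ℝ => W (∏ i, X (M t (c i), fun y => f i (t⁻¹ • y)))) (𝓝[>] 0)
      (𝓝 (q ^ k * ∫ y : Fin k → R4, (∏ i, (f i (y i) : ℂ)) * free d c y))) ∧
  ∃ δ > (0 : ℝ), ∀ a b (u : Fin 2 → R4 → ℝ), Adm u → ∃ C : ℝ → Lab,
    Tendsto C (𝓝[>] 0) (𝓝 (of fun i j =>
      q * ∫ y : Fin 2 → R4, u 0 (y 0) * u 1 (y 1) * bl a b (y 1 - y 0) i j)) ∧
    ∀ f, Adm ![f] → ∀ Z ∈ Loc (tsupport f)ᶜ, (fun t : ℝ => (∫ z, f z * cov W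
      (X (M t a, fun y => u 0 (t⁻¹ • (y - z))) * X (M t b, fun y => u 1 (t⁻¹ • (y - z)))) Z) / t ^ 4 -
        cov W (X (M t (C t), f)) Z) =O[𝓝[>] 0] fun t => t ^ δ

/-- the stress tensor, a combination of `tr F μ l F ν l` and `δ μ ν tr F i j F i j`, is conserved,
generates the translations and is at short distances the stress tensor of the free fields -/
def StressM (q : ℝ) (W : Fp → ℂ) (M : ℝ → Lab ≃ₗ[ℂ] Lab) : Prop :=
  ∃ (s t : ℂ) (T : Fin 4 → Fin 4 → Lab),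
  (∀ μ ν, T μ ν = (s • (single μ ν 1 + single ν μ 1) + if μ = ν then t • 1 else 0) ⊗ₖ 1) ∧
  (∀ (k : ℕ) (g : Fin k → R4 → ℝ) (ξ : R4 → ℝ) (e : Fin k → ℝ) (ν : Fin 4), Adm g →
    (∀ i, ContDiff ℝ ∞ (g i) ∧ ∀ᶠ y in 𝓝ˢ (tsupport (g i)), ξ y = e i) → ContDiff ℝ ∞ ξ →
    HasCompactSupport ξ →
    ∑ μ, cov W (X (T μ ν, fun y => lineDeriv ℝ ξ y (EuclideanSpace.single μ 1))) (∏ i, phi (g i)) =
      ∑ i, e i * W (∏ j, phi (Function.update g i
        (fun y => lineDeriv ℝ (g i) y (EuclideanSpace.single ν 1)) j))) ∧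
  ∀ v : R4, Tendsto (fun t => (M t).symm (∑ μ, ∑ ν, (v μ * v ν / ‖v‖ ^ 6) • T μ ν)) (𝓝[>] 0)
    (𝓝 (of fun i j => (pr v i j / (4 * Real.pi ^ 2 * q) : ℝ)))

end Pool.Agent.Lib.MP_7f377f_mp.YF
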