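import Pool.Agent.Lib.MP_7f377f_mp.YP

/-! The anomalous dimensions of the fields of dimension four. -/

noncomputable section

namespace Pool.Agent.Lib.MP_7f377f_mp.YF

open Filter Topology Matrix

/-- on the labels with the property `P` the renormalisation `M t` is a positive number which
behaves like the power `p` of `log (1 / t)` -/
def Dim (M : ℝ → Lab ≃ₗ[ℂ] Lab) (P : Lab → Prop) (p : ℝ) : Prop :=
  ∃ m : ℝ → ℝ, (∀ t c, P c → M t c = m t • c) ∧ (∀ᶠ t in 𝓝[>] 0, 0 < m t) ∧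
    Tendsto (fun t => Real.log (m t) / Real.log (Real.log t⁻¹)) (𝓝[>] 0) (𝓝 p)

/-- totally antisymmetric labels: the topological density -/
def Alt (c : Lab) : Prop := ∀ i j k l, c (j, i) (k, l) = -c (i, j) (k, l) ∧
  c (i, k) (j, l) = -c (i, j) (k, l) ∧ c (i, j) (l, k) = -c (i, j) (k, l)

/-- labels with the symmetries of the Weyl tensor -/
def Weyl (c : Lab) : Prop := cᵀ = c ∧ ∀ i k, ∑ j, c (i, j) (k, j) = 0 ∧ ∀ j l,
  c (j, i) (k, l) = -c (i, j) (k, l) ∧ c (i, j) (k, l) + c (i, k) (l, j) + c (i, l) (j, k) = 0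

end Pool.Agent.Lib.MP_7f377f_mp.YF
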