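import Pool.Agent.Lib.MP_7f377f_mp.YZS

/-! From families of linear equivalences to families of maps. -/

namespace Pool.Agent.Lib.MP_7f377f_mp.YZ

variable {d : ℕ} {V : Subalgebra ℂ (Lab d)} {β : ℝ} {S : Cor d} {M : ℝ → V ≃ₗ[ℂ] V}

theorem lin_val (A : V ≃ₗ[ℂ] V) (z : ℂ) (c c' v : V) (e : v.1 = z • c.1 + c'.1) :
    (A v).1 = z • (A c).1 + (A c').1 := by
  obtain rfl : v = z • c + c' := Subtype.ext e
  rw [map_add, map_smul]
  rfl

theorem AF.af (h : AF V β S M) : Af V β S fun t => M t :=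
  ⟨fun t => (M t).symm, fun t c => ⟨(M t).symm_apply_apply c, (M t).apply_symm_apply c,
    fun z c' v => lin_val (M t) z c c' v⟩, h.1,
    fun t ht c => ⟨fun e => (congrArg Subtype.val ((h.2.1 t ht c).1 e)).trans
      (congrArg (· • c.1) (Complex.ofReal_mul _ _)), (h.2.1 t ht c).2⟩, h.2.2.1, h.2.2.2⟩

theorem Ope.ope (h : Ope V S M) : OPE V S fun t => M t := h

end Pool.Agent.Lib.MP_7f377f_mp.YZ
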