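import Pool.Agent.Lib.MP_7f377f_mp.YZ

/-! Asymptotic freedom and the operator product expansion, for a renormalisation given as a family
of maps. -/

noncomputable section

namespace Pool.Agent.Lib.MP_7f377f_mp.YZ

open MvPolynomial Filter Topology Matrix

variable {d : ℕ}

/-- asymptotic freedom: after the renormalisation `M t`, which is invertible, linear, preserves the
dimension, is covariant, slower than any power, logarithmic for the Lagrangian and trivial for the
traceless stress tensor, the correlation functions at the scale `t` converge to the free ones -/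
def Af (V : Set (Lab d)) (β : ℝ) (S : Cor d) (M : ℝ → V → V) : Prop := ∃ N : ℝ → V → V,
  (∀ t c, N t (M t c) = c ∧ M t (N t c) = c ∧ ∀ (z : ℂ) (c' v : V), v.1 = z • c.1 + c'.1 →
    (M t v).1 = z • (M t c).1 + (M t c').1) ∧
  (∀ t (g : Matrix _ _ ℝ) (s : ℝ) (c c' : V), gᵀ * g = s • 1 → c'.1 = rho (g.map (↑)) c.1 →
    (M t c').1 = rho (g.map (↑)) (M t c).1) ∧
  (∀ t ∈ Set.Ioo (0 : ℝ) 1, ∀ c : V, (c.1 = lag → (M t c).1 = (β * Real.log t⁻¹ : ℂ) • c.1) ∧
    ∀ μ ν, c.1 = FF μ ν - (if μ = ν then lag else 0) → M t c = c) ∧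
  (∀ ε > (0 : ℝ), ∀ c m, Tendsto (fun t : ℝ =>
    t ^ ε • (coeff m (M t c).1, coeff m (N t c).1)) (𝓝[>] 0) (𝓝 0)) ∧
  ∀ k (c : Fin k → V) f, Adm f → Tendsto (fun t : ℝ => S k (fun i => rho ((t : ℂ) • 1) (M t (c i)).1)
    (fun i y => f i (t⁻¹ • y)) / t ^ (4 * k)) (𝓝[>] 0) (𝓝 (free k (fun i => (c i).1) f))

/-- the operator product expansion to all orders; the coefficients converge to the free ones -/
def OPE (V : Subalgebra ℂ (Lab d)) (S : Cor d) (M : ℝ → V → V) : Prop :=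
  ∀ (a : Fin 2 → V) u (D : ℕ), Adm u → ∃ δ > (0 : ℝ), ∃ (C : ℝ → V) (B : V),
    (∀ t, (C t).1.weightedTotalDegree (fun p => p.1.1 + 2) ≤ D) ∧
    (∀ m, Tendsto (fun t => coeff m (C t).1) (𝓝[>] 0) (𝓝 (coeff m B.1))) ∧
    Exp V free u (fun _ => a) (fun _ => B) (D + δ) ∧
    Exp V S u (fun t i => M t (a i)) (fun t => M t (C t)) (D + δ)

end Pool.Agent.Lib.MP_7f377f_mp.YZ
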